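import Pool.Agent.Lib.MP_5854e1_co.DtD

/-!
# Windows and cells of the rings
-/

set_option autoImplicit false
set_option maxRecDepth 100000
set_option deprecated.oldSectionVars true

namespace Pool.Agent.Lib.MP_5854e1_co.Cz

open Pool.Agent.Lib.MP_5854e1_co

noncomputable section

noncomputable def tv5520 : DT := (.nd (nat_lit 0) (.nd (nat_lit 1) (.nd (nat_lit 2) (.nd (nat_lit 3) (.nd (nat_lit 4) (.nd (nat_lit 5) (.nd (nat_lit 6) (.nd (nat_lit 7) (.nd (nat_lit 8) (.nd (nat_lit 9) 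
(.lf (nat_lit 471040) (.g (nat_lit 4915) (.e (nat_lit 3399) (nat_lit 211) (.e (nat_lit 647181) (nat_lit 3) (.e (nat_lit 163978) (nat_lit 30) (.e (nat_lit 573485) (nat_lit 13) (.e (nat_lit 65619) (nat_lit 10) (.e (nat_lit 344117) (nat_lit 21) (.e (nat_lit 516151) (nat_lit 9) (.e (nat_lit 426022) (nat_lit 0) .nil)))))))) (.g (nat_lit 1) (.e (nat_lit 86725) (nat_lit 0) .nil) .nil))) 
(.lf (nat_lit 471552) (.g (nat_lit 3747) (.e (nat_lit 3407) (nat_lit 212) (.e (nat_lit 655375) (nat_lit 3) (.e (nat_lit 163977) (nat_lit 30) (.e (nat_lit 573485) (nat_lit 13) (.e (nat_lit 65604) (nat_lit 9) (.e (nat_lit 336028) (nat_lit 3) (.e (nat_lit 98359) (nat_lit 26) (.e (nat_lit 426043) (nat_lit 0) .nil)))))))) (.g (nat_lit 1) (.e (nat_lit 87692) (nat_lit 0) .nil) .nil)))) (.nd (nat_lit 9) 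
(.lf (nat_lit 471296) (.g (nat_lit 1653) (.e (nat_lit 3402) (nat_lit 211) (.e (nat_lit 647183) (nat_lit 4) (.e (nat_lit 172080) (nat_lit 7) (.e (nat_lit 409618) (nat_lit 10) (.e (nat_lit 5363) (nat_lit 298) (.e (nat_lit 463) (nat_lit 34) (.e (nat_lit 442399) (nat_lit 20) .nil))))))) (.g (nat_lit 1) (.e (nat_lit 87206) (nat_lit 0) .nil) .nil))) 
(.lf (nat_lit 471808) (.g (nat_lit 2262) (.e (nat_lit 3408) (nat_lit 212) (.e (nat_lit 655378) (nat_lit 4) (.e (nat_lit 172116) (nat_lit 10) (.e (nat_lit 434271) (nat_lit 38) (.e (nat_lit 655380) (nat_lit 6) (.e (nat_lit 188441) (nat_lit 20) .nil)))))) (.g (nat_lit 1) (.e (nat_lit 88113) (nat_lit 0) .nil) .nil))))) (.nd (nat_lit 8) (.nd (nat_lit 9) 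
(.lf (nat_lit 471168) (.g (nat_lit 2341) (.e (nat_lit 3401) (nat_lit 211) (.e (nat_lit 647180) (nat_lit 3) (.e (nat_lit 163978) (nat_lit 30) (.e (nat_lit 573479) (nat_lit 13) (.e (nat_lit 65619) (nat_lit 10) (.e (nat_lit 344117) (nat_lit 21) (.e (nat_lit 516151) (nat_lit 9) (.e (nat_lit 426022) (nat_lit 0) .nil)))))))) (.g (nat_lit 1) (.e (nat_lit 86962) (nat_lit 0) .nil) .nil))) 
(.lf (nat_lit 471680) (.g (nat_lit 3928) (.e (nat_lit 3408) (nat_lit 212) (.e (nat_lit 655375) (nat_lit 3) (.e (nat_lit 163977) (nat_lit 30) (.e (nat_lit 573482) (nat_lit 13) (.e (nat_lit 65604) (nat_lit 9) (.e (nat_lit 336028) (nat_lit 3) (.e (nat_lit 98359) (nat_lit 26) (.e (nat_lit 426043) (nat_lit 0) .nil)))))))) (.g (nat_lit 1) (.e (nat_lit 87926) (nat_lit 0) .nil) .nil)))) (.nd (nat_lit 9) 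
(.lf (nat_lit 471424) (.g (nat_lit 2662) (.e (nat_lit 3406) (nat_lit 212) (.e (nat_lit 655375) (nat_lit 3) (.e (nat_lit 163978) (nat_lit 30) (.e (nat_lit 573490) (nat_lit 15) (.e (nat_lit 81956) (nat_lit 23) .nil))))) (.g (nat_lit 0) (.e (nat_lit 87453) (nat_lit 0) .nil) .nil))) 
(.lf (nat_lit 471936) (.g (nat_lit 4442) (.e (nat_lit 3409) (nat_lit 212) (.e (nat_lit 655375) (nat_lit 3) (.e (nat_lit 163978) (nat_lit 30) (.e (nat_lit 573482) (nat_lit 13) (.e (nat_lit 65619) (nat_lit 10) (.e (nat_lit 344117) (nat_lit 21) (.e (nat_lit 516151) (nat_lit 9) (.e (nat_lit 426043) (nat_lit 0) .nil)))))))) (.g (nat_lit 1) (.e (nat_lit 88308) (nat_lit 0) .nil) .nil)))))) 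
(.nd (nat_lit 7) (.nd (nat_lit 8) (.nd (nat_lit 9) 
(.lf (nat_lit 471104) (.g (nat_lit 2520) (.e (nat_lit 3399) (nat_lit 211) (.e (nat_lit 647183) (nat_lit 4) (.e (nat_lit 172124) (nat_lit 14) (.e (nat_lit 491550) (nat_lit 9) (.e (nat_lit 336430) (nat_lit 29) (.e (nat_lit 442399) (nat_lit 20) .nil)))))) (.g (nat_lit 1) (.e (nat_lit 86798) (nat_lit 0) .nil) .nil))) 
(.lf (nat_lit 471616) (.g (nat_lit 2234) (.e (nat_lit 3407) (nat_lit 212) (.e (nat_lit 655378) (nat_lit 4) (.e (nat_lit 172115) (nat_lit 10) (.e (nat_lit 434272) (nat_lit 38) (.e (nat_lit 655380) (nat_lit 6) (.e (nat_lit 188439) (nat_lit 20) .nil)))))) (.g (nat_lit 1) (.e (nat_lit 87796) (nat_lit 0) .nil) .nil)))) (.nd (nat_lit 9) 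
(.lf (nat_lit 471360) (.g (nat_lit 367) (.e (nat_lit 3402) (nat_lit 211) (.e (nat_lit 647183) (nat_lit 4) (.e (nat_lit 172124) (nat_lit 14) .nil))) (.g (nat_lit 0) (.e (nat_lit 87285) (nat_lit 0) .nil) .nil))) 
(.lf (nat_lit 471872) (.g (nat_lit 1071) (.e (nat_lit 3408) (nat_lit 212) (.e (nat_lit 655380) (nat_lit 6) (.e (nat_lit 188438) (nat_lit 20) (.e (nat_lit 3409) (nat_lit 212) (.e (nat_lit 655380) (nat_lit 6) (.e (nat_lit 188438) (nat_lit 20) .nil)))))) (.g (nat_lit 1) (.e (nat_lit 88200) (nat_lit 0) .nil) .nil))))) (.nd (nat_lit 8) (.nd (nat_lit 9) 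
(.lf (nat_lit 471232) (.g (nat_lit 2465) (.e (nat_lit 3401) (nat_lit 211) (.e (nat_lit 647183) (nat_lit 4) (.e (nat_lit 172124) (nat_lit 14) (.e (nat_lit 491550) (nat_lit 9) (.e (nat_lit 336430) (nat_lit 29) (.e (nat_lit 442399) (nat_lit 20) .nil)))))) (.g (nat_lit 1) (.e (nat_lit 87088) (nat_lit 0) .nil) .nil))) 
(.lf (nat_lit 471744) (.g (nat_lit 1590) (.e (nat_lit 3408) (nat_lit 212) (.e (nat_lit 655376) (nat_lit 4) (.e (nat_lit 172120) (nat_lit 12) (.e (nat_lit 475198) (nat_lit 40) (.e (nat_lit 704598) (nat_lit 6) (.e (nat_lit 188439) (nat_lit 20) .nil)))))) (.g (nat_lit 1) (.e (nat_lit 88004) (nat_lit 0) .nil) .nil)))) (.nd (nat_lit 9) 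
(.lf (nat_lit 471488) (.g (nat_lit 1853) (.e (nat_lit 3406) (nat_lit 212) (.e (nat_lit 655378) (nat_lit 4) (.e (nat_lit 172118) (nat_lit 12) (.e (nat_lit 475198) (nat_lit 40) (.e (nat_lit 704599) (nat_lit 6) (.e (nat_lit 188440) (nat_lit 20) .nil)))))) (.g (nat_lit 1) (.e (nat_lit 87567) (nat_lit 0) .nil) .nil))) 
(.lf (nat_lit 472000) (.g (nat_lit 1627) (.e (nat_lit 3409) (nat_lit 212) (.e (nat_lit 655378) (nat_lit 4) (.e (nat_lit 172081) (nat_lit 7) (.e (nat_lit 409642) (nat_lit 17) (.e (nat_lit 294974) (nat_lit 29) (.e (nat_lit 442408) (nat_lit 20) .nil)))))) (.g (nat_lit 1) (.e (nat_lit 88411) (nat_lit 0) .nil) .nil))))))) (.nd (nat_lit 6) (.nd (nat_lit 7) (.nd (nat_lit 8) (.nd (nat_lit 9) 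
(.lf (nat_lit 471072) (.g (nat_lit 1885) (.e (nat_lit 3399) (nat_lit 211) (.e (nat_lit 647183) (nat_lit 4) (.e (nat_lit 172106) (nat_lit 10) (.e (nat_lit 434209) (nat_lit 18) (.e (nat_lit 5548) (nat_lit 306) (.e (nat_lit 2648) (nat_lit 166) (.e (nat_lit 188430) (nat_lit 20) .nil))))))) (.g (nat_lit 1) (.e (nat_lit 86764) (nat_lit 0) .nil) .nil))) 
(.lf (nat_lit 471584) (.g (nat_lit 2115) (.e (nat_lit 3407) (nat_lit 212) (.e (nat_lit 655375) (nat_lit 3) (.e (nat_lit 163979) (nat_lit 30) (.e (nat_lit 573492) (nat_lit 15) (.e (nat_lit 81956) (nat_lit 23) (.e (nat_lit 98355) (nat_lit 26) (.e (nat_lit 426095) (nat_lit 0) .nil))))))) (.g (nat_lit 1) (.e (nat_lit 87734) (nat_lit 0) .nil) .nil)))) (.nd (nat_lit 9) 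
(.lf (nat_lit 471328) (.g (nat_lit 1652) (.e (nat_lit 3402) (nat_lit 211) (.e (nat_lit 647183) (nat_lit 4) (.e (nat_lit 172112) (nat_lit 10) (.e (nat_lit 434271) (nat_lit 38) (.e (nat_lit 655380) (nat_lit 6) (.e (nat_lit 188428) (nat_lit 20) .nil)))))) (.g (nat_lit 1) (.e (nat_lit 87248) (nat_lit 0) .nil) .nil))) 
(.lf (nat_lit 471840) (.g (nat_lit 1580) (.e (nat_lit 3408) (nat_lit 212) (.e (nat_lit 655378) (nat_lit 4) (.e (nat_lit 172120) (nat_lit 12) (.e (nat_lit 475209) (nat_lit 41) .nil)))) (.g (nat_lit 0) (.e (nat_lit 88151) (nat_lit 0) .nil) .nil))))) (.nd (nat_lit 8) (.nd (nat_lit 9) 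
(.lf (nat_lit 471200) (.g (nat_lit 3952) (.e (nat_lit 3401) (nat_lit 211) (.e (nat_lit 647181) (nat_lit 3) (.e (nat_lit 163979) (nat_lit 30) (.e (nat_lit 573491) (nat_lit 15) (.e (nat_lit 81951) (nat_lit 22) (.e (nat_lit 90170) (nat_lit 13) (.e (nat_lit 172039) (nat_lit 0) .nil))))))) (.g (nat_lit 1) (.e (nat_lit 86995) (nat_lit 0) .nil) .nil))) 
(.lf (nat_lit 471712) (.g (nat_lit 6059) (.e (nat_lit 3408) (nat_lit 212) (.e (nat_lit 655375) (nat_lit 3) (.e (nat_lit 163978) (nat_lit 30) (.e (nat_lit 573491) (nat_lit 15) (.e (nat_lit 81952) (nat_lit 22) (.e (nat_lit 90170) (nat_lit 13) (.e (nat_lit 172049) (nat_lit 0) .nil))))))) (.g (nat_lit 1) (.e (nat_lit 87958) (nat_lit 0) .nil) .nil)))) (.nd (nat_lit 9) 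
(.lf (nat_lit 471456) (.g (nat_lit 1076) (.e (nat_lit 3406) (nat_lit 212) (.e (nat_lit 655378) (nat_lit 4) (.e (nat_lit 172107) (nat_lit 10) (.e (nat_lit 434272) (nat_lit 38) (.e (nat_lit 655380) (nat_lit 6) .nil))))) (.g (nat_lit 0) (.e (nat_lit 87534) (nat_lit 0) .nil) .nil))) 
(.lf (nat_lit 471968) (.g (nat_lit 4064) (.e (nat_lit 3409) (nat_lit 212) (.e (nat_lit 655375) (nat_lit 3) (.e (nat_lit 163979) (nat_lit 30) (.e (nat_lit 573491) (nat_lit 15) (.e (nat_lit 81951) (nat_lit 22) (.e (nat_lit 90170) (nat_lit 13) (.e (nat_lit 172049) (nat_lit 0) .nil))))))) (.g (nat_lit 1) (.e (nat_lit 88365) (nat_lit 0) .nil) .nil)))))) 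
(.nd (nat_lit 7) (.nd (nat_lit 8) (.nd (nat_lit 9) 
(.lf (nat_lit 471136) (.g (nat_lit 4337) (.e (nat_lit 3399) (nat_lit 211) (.e (nat_lit 647183) (nat_lit 4) (.e (nat_lit 172126) (nat_lit 14) (.e (nat_lit 491571) (nat_lit 13) (.e (nat_lit 393232) (nat_lit 17) (.e (nat_lit 7303) (nat_lit 388) (.e (nat_lit 2439) (nat_lit 157) .nil))))))) (.g (nat_lit 1) (.e (nat_lit 86830) (nat_lit 0) .nil) .nil))) 
(.lf (nat_lit 471648) (.g (nat_lit 1056) (.e (nat_lit 3407) (nat_lit 212) (.e (nat_lit 655380) (nat_lit 6) (.e (nat_lit 188438) (nat_lit 20) (.e (nat_lit 3407) (nat_lit 212) (.e (nat_lit 655380) (nat_lit 6) (.e (nat_lit 188439) (nat_lit 20) .nil)))))) (.g (nat_lit 1) (.e (nat_lit 87850) (nat_lit 0) .nil) .nil)))) (.nd (nat_lit 9) 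
(.lf (nat_lit 471392) (.g (nat_lit 2424) (.e (nat_lit 3404) (nat_lit 212) (.e (nat_lit 655375) (nat_lit 3) (.e (nat_lit 163979) (nat_lit 30) (.e (nat_lit 573492) (nat_lit 15) (.e (nat_lit 81956) (nat_lit 23) (.e (nat_lit 98355) (nat_lit 26) (.e (nat_lit 425986) (nat_lit 0) .nil))))))) (.g (nat_lit 1) (.e (nat_lit 87407) (nat_lit 0) .nil) .nil))) 
(.lf (nat_lit 471904) (.g (nat_lit 2577) (.e (nat_lit 3409) (nat_lit 212) (.e (nat_lit 655373) (nat_lit 3) (.e (nat_lit 163973) (nat_lit 30) (.e (nat_lit 573484) (nat_lit 13) (.e (nat_lit 65610) (nat_lit 10) (.e (nat_lit 344117) (nat_lit 21) (.e (nat_lit 516151) (nat_lit 9) (.e (nat_lit 426043) (nat_lit 0) .nil)))))))) (.g (nat_lit 1) (.e (nat_lit 88272) (nat_lit 0) .nil) .nil))))) 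
(.nd (nat_lit 8) (.nd (nat_lit 9) 
(.lf (nat_lit 471264) (.g (nat_lit 4262) (.e (nat_lit 3402) (nat_lit 211) (.e (nat_lit 647181) (nat_lit 3) (.e (nat_lit 163977) (nat_lit 30) (.e (nat_lit 573485) (nat_lit 13) (.e (nat_lit 65604) (nat_lit 9) (.e (nat_lit 336013) (nat_lit 2) (.e (nat_lit 90170) (nat_lit 13) (.e (nat_lit 172039) (nat_lit 0) .nil)))))))) (.g (nat_lit 1) (.e (nat_lit 87159) (nat_lit 0) .nil) .nil))) 
(.lf (nat_lit 471776) (.g (nat_lit 2224) (.e (nat_lit 3408) (nat_lit 212) (.e (nat_lit 655378) (nat_lit 4) (.e (nat_lit 172112) (nat_lit 10) (.e (nat_lit 434271) (nat_lit 38) (.e (nat_lit 655380) (nat_lit 6) (.e (nat_lit 188434) (nat_lit 20) .nil)))))) (.g (nat_lit 1) (.e (nat_lit 88079) (nat_lit 0) .nil) .nil)))) (.nd (nat_lit 9) 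
(.lf (nat_lit 471520) (.g (nat_lit 1538) (.e (nat_lit 3406) (nat_lit 212) (.e (nat_lit 655380) (nat_lit 6) (.e (nat_lit 188435) (nat_lit 20) (.e (nat_lit 3409) (nat_lit 212) (.e (nat_lit 655380) (nat_lit 6) (.e (nat_lit 188434) (nat_lit 20) .nil)))))) (.g (nat_lit 1) (.e (nat_lit 87628) (nat_lit 0) .nil) .nil))) 
(.lf (nat_lit 472032) (.g (nat_lit 2562) (.e (nat_lit 3409) (nat_lit 212) (.e (nat_lit 655378) (nat_lit 4) (.e (nat_lit 172113) (nat_lit 10) (.e (nat_lit 434271) (nat_lit 38) (.e (nat_lit 655380) (nat_lit 6) (.e (nat_lit 188440) (nat_lit 20) .nil)))))) (.g (nat_lit 1) (.e (nat_lit 88448) (nat_lit 0) .nil) .nil)))))))) 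
(.nd (nat_lit 5) (.nd (nat_lit 6) (.nd (nat_lit 7) (.nd (nat_lit 8) (.nd (nat_lit 9) 
(.lf (nat_lit 471056) (.g (nat_lit 1889) (.e (nat_lit 3399) (nat_lit 211) (.e (nat_lit 647183) (nat_lit 4) (.e (nat_lit 172079) (nat_lit 7) (.e (nat_lit 409642) (nat_lit 17) (.e (nat_lit 294974) (nat_lit 29) (.e (nat_lit 442399) (nat_lit 20) .nil)))))) (.g (nat_lit 1) (.e (nat_lit 86748) (nat_lit 0) .nil) .nil))) 
(.lf (nat_lit 471568) (.g (nat_lit 4444) (.e (nat_lit 3407) (nat_lit 212) (.e (nat_lit 655375) (nat_lit 3) (.e (nat_lit 163978) (nat_lit 30) (.e (nat_lit 573485) (nat_lit 13) (.e (nat_lit 65604) (nat_lit 9) (.e (nat_lit 336028) (nat_lit 3) (.e (nat_lit 98359) (nat_lit 26) (.e (nat_lit 426043) (nat_lit 0) .nil)))))))) (.g (nat_lit 1) (.e (nat_lit 87708) (nat_lit 0) .nil) .nil)))) (.nd (nat_lit 9) 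
(.lf (nat_lit 471312) (.g (nat_lit 1723) (.e (nat_lit 3402) (nat_lit 211) (.e (nat_lit 647183) (nat_lit 4) (.e (nat_lit 172097) (nat_lit 9) (.e (nat_lit 426025) (nat_lit 0) (.e (nat_lit 3399) (nat_lit 211) (.e (nat_lit 647185) (nat_lit 6) (.e (nat_lit 188431) (nat_lit 20) .nil))))))) (.g (nat_lit 1) (.e (nat_lit 87229) (nat_lit 0) .nil) .nil))) 
(.lf (nat_lit 471824) (.g (nat_lit 1926) (.e (nat_lit 3408) (nat_lit 212) (.e (nat_lit 655378) (nat_lit 4) (.e (nat_lit 172119) (nat_lit 12) (.e (nat_lit 475198) (nat_lit 40) (.e (nat_lit 704599) (nat_lit 6) (.e (nat_lit 188440) (nat_lit 20) .nil)))))) (.g (nat_lit 1) (.e (nat_lit 88130) (nat_lit 0) .nil) .nil))))) (.nd (nat_lit 8) (.nd (nat_lit 9) 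
(.lf (nat_lit 471184) (.g (nat_lit 2558) (.e (nat_lit 3401) (nat_lit 211) (.e (nat_lit 647181) (nat_lit 3) (.e (nat_lit 163977) (nat_lit 30) (.e (nat_lit 573491) (nat_lit 15) (.e (nat_lit 81954) (nat_lit 23) (.e (nat_lit 98359) (nat_lit 26) (.e (nat_lit 426022) (nat_lit 0) .nil))))))) (.g (nat_lit 1) (.e (nat_lit 86979) (nat_lit 0) .nil) .nil))) 
(.lf (nat_lit 471696) (.g (nat_lit 4507) (.e (nat_lit 3408) (nat_lit 212) (.e (nat_lit 655375) (nat_lit 3) (.e (nat_lit 163978) (nat_lit 30) (.e (nat_lit 573482) (nat_lit 13) (.e (nat_lit 65604) (nat_lit 9) (.e (nat_lit 336028) (nat_lit 3) (.e (nat_lit 98359) (nat_lit 26) (.e (nat_lit 426043) (nat_lit 0) .nil)))))))) (.g (nat_lit 1) (.e (nat_lit 87942) (nat_lit 0) .nil) .nil)))) (.nd (nat_lit 9) 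
(.lf (nat_lit 471440) (.g (nat_lit 2008) (.e (nat_lit 3406) (nat_lit 212) (.e (nat_lit 655376) (nat_lit 4) (.e (nat_lit 172120) (nat_lit 12) (.e (nat_lit 475199) (nat_lit 40) (.e (nat_lit 704598) (nat_lit 6) (.e (nat_lit 188439) (nat_lit 20) .nil)))))) (.g (nat_lit 1) (.e (nat_lit 87476) (nat_lit 0) .nil) .nil))) 
(.lf (nat_lit 471952) (.g (nat_lit 3138) (.e (nat_lit 3409) (nat_lit 212) (.e (nat_lit 655375) (nat_lit 3) (.e (nat_lit 163978) (nat_lit 30) (.e (nat_lit 573490) (nat_lit 15) (.e (nat_lit 81954) (nat_lit 23) .nil))))) (.g (nat_lit 0) (.e (nat_lit 88326) (nat_lit 0) .nil) .nil)))))) (.nd (nat_lit 7) (.nd (nat_lit 8) (.nd (nat_lit 9) 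
(.lf (nat_lit 471120) (.g (nat_lit 2163) (.e (nat_lit 3399) (nat_lit 211) (.e (nat_lit 647183) (nat_lit 4) (.e (nat_lit 172126) (nat_lit 14) (.e (nat_lit 491549) (nat_lit 9) (.e (nat_lit 336369) (nat_lit 27) .nil))))) (.g (nat_lit 0) (.e (nat_lit 86814) (nat_lit 0) .nil) .nil))) 
(.lf (nat_lit 471632) (.g (nat_lit 799) (.e (nat_lit 3407) (nat_lit 212) (.e (nat_lit 655380) (nat_lit 6) (.e (nat_lit 188417) (nat_lit 0) (.e (nat_lit 2148) (nat_lit 142) (.e (nat_lit 704597) (nat_lit 6) (.e (nat_lit 188439) (nat_lit 20) .nil)))))) (.g (nat_lit 1) (.e (nat_lit 87830) (nat_lit 0) .nil) .nil)))) (.nd (nat_lit 9) 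
(.lf (nat_lit 471376) (.g (nat_lit 1510) (.e (nat_lit 3402) (nat_lit 211) (.e (nat_lit 647185) (nat_lit 6) (.e (nat_lit 188431) (nat_lit 20) (.e (nat_lit 3399) (nat_lit 211) (.e (nat_lit 647185) (nat_lit 6) (.e (nat_lit 188428) (nat_lit 20) .nil)))))) (.g (nat_lit 1) (.e (nat_lit 87318) (nat_lit 0) .nil) .nil))) 
(.lf (nat_lit 471888) (.g (nat_lit 1768) (.e (nat_lit 3408) (nat_lit 212) (.e (nat_lit 655380) (nat_lit 6) (.e (nat_lit 188441) (nat_lit 20) (.e (nat_lit 3408) (nat_lit 212) (.e (nat_lit 655380) (nat_lit 6) (.e (nat_lit 188438) (nat_lit 20) .nil)))))) (.g (nat_lit 1) (.e (nat_lit 88216) (nat_lit 0) .nil) .nil))))) (.nd (nat_lit 8) (.nd (nat_lit 9) 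
(.lf (nat_lit 471248) (.g (nat_lit 1666) (.e (nat_lit 3401) (nat_lit 211) (.e (nat_lit 647185) (nat_lit 6) (.e (nat_lit 188440) (nat_lit 20) (.e (nat_lit 3409) (nat_lit 212) (.e (nat_lit 655380) (nat_lit 6) (.e (nat_lit 188427) (nat_lit 20) .nil)))))) (.g (nat_lit 1) (.e (nat_lit 87131) (nat_lit 0) .nil) .nil))) 
(.lf (nat_lit 471760) (.g (nat_lit 2556) (.e (nat_lit 3408) (nat_lit 212) (.e (nat_lit 655378) (nat_lit 4) (.e (nat_lit 172106) (nat_lit 10) (.e (nat_lit 434271) (nat_lit 38) (.e (nat_lit 655380) (nat_lit 6) (.e (nat_lit 188434) (nat_lit 20) .nil)))))) (.g (nat_lit 1) (.e (nat_lit 88063) (nat_lit 0) .nil) .nil)))) (.nd (nat_lit 9) 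
(.lf (nat_lit 471504) (.g (nat_lit 1124) (.e (nat_lit 3406) (nat_lit 212) (.e (nat_lit 655380) (nat_lit 6) (.e (nat_lit 188417) (nat_lit 0) (.e (nat_lit 2147) (nat_lit 142) (.e (nat_lit 704597) (nat_lit 6) (.e (nat_lit 188439) (nat_lit 20) .nil)))))) (.g (nat_lit 1) (.e (nat_lit 87611) (nat_lit 0) .nil) .nil))) 
(.lf (nat_lit 472016) (.g (nat_lit 2512) (.e (nat_lit 3409) (nat_lit 212) (.e (nat_lit 655378) (nat_lit 4) (.e (nat_lit 172106) (nat_lit 10) (.e (nat_lit 434271) (nat_lit 38) (.e (nat_lit 655380) (nat_lit 6) (.e (nat_lit 188440) (nat_lit 20) .nil)))))) (.g (nat_lit 1) (.e (nat_lit 88431) (nat_lit 0) .nil) .nil))))))) (.nd (nat_lit 6) (.nd (nat_lit 7) (.nd (nat_lit 8) (.nd (nat_lit 9) 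
(.lf (nat_lit 471088) (.g (nat_lit 1597) (.e (nat_lit 3399) (nat_lit 211) (.e (nat_lit 647183) (nat_lit 4) (.e (nat_lit 172119) (nat_lit 12) (.e (nat_lit 475198) (nat_lit 40) (.e (nat_lit 704598) (nat_lit 6) (.e (nat_lit 188431) (nat_lit 20) .nil)))))) (.g (nat_lit 1) (.e (nat_lit 86782) (nat_lit 0) .nil) .nil))) 
(.lf (nat_lit 471600) (.g (nat_lit 2437) (.e (nat_lit 3407) (nat_lit 212) (.e (nat_lit 655378) (nat_lit 4) (.e (nat_lit 172106) (nat_lit 10) (.e (nat_lit 434272) (nat_lit 38) (.e (nat_lit 655380) (nat_lit 6) (.e (nat_lit 188439) (nat_lit 20) .nil)))))) (.g (nat_lit 1) (.e (nat_lit 87779) (nat_lit 0) .nil) .nil)))) (.nd (nat_lit 9) 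
(.lf (nat_lit 471344) (.g (nat_lit 1716) (.e (nat_lit 3402) (nat_lit 211) (.e (nat_lit 647183) (nat_lit 4) (.e (nat_lit 172116) (nat_lit 10) (.e (nat_lit 434271) (nat_lit 38) (.e (nat_lit 655380) (nat_lit 6) (.e (nat_lit 188428) (nat_lit 20) .nil)))))) (.g (nat_lit 1) (.e (nat_lit 87269) (nat_lit 0) .nil) .nil))) 
(.lf (nat_lit 471856) (.g (nat_lit 1663) (.e (nat_lit 3408) (nat_lit 212) (.e (nat_lit 655380) (nat_lit 6) (.e (nat_lit 188418) (nat_lit 0) (.e (nat_lit 2059) (nat_lit 142) (.e (nat_lit 704598) (nat_lit 6) (.e (nat_lit 188435) (nat_lit 20) .nil)))))) (.g (nat_lit 1) (.e (nat_lit 88184) (nat_lit 0) .nil) .nil))))) (.nd (nat_lit 8) (.nd (nat_lit 9) 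
(.lf (nat_lit 471216) (.g (nat_lit 1986) (.e (nat_lit 3401) (nat_lit 211) (.e (nat_lit 647183) (nat_lit 4) (.e (nat_lit 172113) (nat_lit 10) (.e (nat_lit 434272) (nat_lit 38) (.e (nat_lit 655380) (nat_lit 6) (.e (nat_lit 188428) (nat_lit 20) .nil)))))) (.g (nat_lit 1) (.e (nat_lit 87054) (nat_lit 0) .nil) .nil))) 
(.lf (nat_lit 471728) (.g (nat_lit 4307) (.e (nat_lit 3408) (nat_lit 212) (.e (nat_lit 655375) (nat_lit 3) (.e (nat_lit 163979) (nat_lit 30) (.e (nat_lit 573492) (nat_lit 15) (.e (nat_lit 81951) (nat_lit 22) (.e (nat_lit 90170) (nat_lit 13) (.e (nat_lit 172049) (nat_lit 0) .nil))))))) (.g (nat_lit 1) (.e (nat_lit 87987) (nat_lit 0) .nil) .nil)))) (.nd (nat_lit 9) 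
(.lf (nat_lit 471472) (.g (nat_lit 1401) (.e (nat_lit 3406) (nat_lit 212) (.e (nat_lit 655378) (nat_lit 4) (.e (nat_lit 172115) (nat_lit 10) (.e (nat_lit 434272) (nat_lit 38) (.e (nat_lit 655380) (nat_lit 6) .nil))))) (.g (nat_lit 0) (.e (nat_lit 87551) (nat_lit 0) .nil) .nil))) 
(.lf (nat_lit 471984) (.g (nat_lit 1624) (.e (nat_lit 3409) (nat_lit 212) (.e (nat_lit 655376) (nat_lit 4) (.e (nat_lit 172120) (nat_lit 12) (.e (nat_lit 475197) (nat_lit 40) (.e (nat_lit 704598) (nat_lit 6) (.e (nat_lit 188435) (nat_lit 20) .nil)))))) (.g (nat_lit 1) (.e (nat_lit 88383) (nat_lit 0) .nil) .nil)))))) (.nd (nat_lit 7) (.nd (nat_lit 8) (.nd (nat_lit 9) 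
(.lf (nat_lit 471152) (.g (nat_lit 1632) (.e (nat_lit 3399) (nat_lit 211) (.e (nat_lit 647185) (nat_lit 6) (.e (nat_lit 188439) (nat_lit 20) (.e (nat_lit 3406) (nat_lit 212) (.e (nat_lit 655380) (nat_lit 6) (.e (nat_lit 188431) (nat_lit 20) .nil)))))) (.g (nat_lit 1) (.e (nat_lit 86863) (nat_lit 0) .nil) .nil))) 
(.lf (nat_lit 471664) (.g (nat_lit 1785) (.e (nat_lit 3407) (nat_lit 212) (.e (nat_lit 655380) (nat_lit 6) (.e (nat_lit 188441) (nat_lit 20) (.e (nat_lit 3409) (nat_lit 212) (.e (nat_lit 655380) (nat_lit 6) (.e (nat_lit 188438) (nat_lit 20) .nil)))))) (.g (nat_lit 1) (.e (nat_lit 87866) (nat_lit 0) .nil) .nil)))) (.nd (nat_lit 9) 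
(.lf (nat_lit 471408) (.g (nat_lit 3530) (.e (nat_lit 3406) (nat_lit 212) (.e (nat_lit 655375) (nat_lit 3) (.e (nat_lit 163978) (nat_lit 30) (.e (nat_lit 573481) (nat_lit 13) (.e (nat_lit 65604) (nat_lit 9) (.e (nat_lit 336013) (nat_lit 2) (.e (nat_lit 90170) (nat_lit 13) (.e (nat_lit 172042) (nat_lit 0) .nil)))))))) (.g (nat_lit 1) (.e (nat_lit 87437) (nat_lit 0) .nil) .nil))) 
(.lf (nat_lit 471920) (.g (nat_lit 3742) (.e (nat_lit 3409) (nat_lit 212) (.e (nat_lit 655375) (nat_lit 3) (.e (nat_lit 163978) (nat_lit 30) (.e (nat_lit 573479) (nat_lit 13) (.e (nat_lit 65604) (nat_lit 9) (.e (nat_lit 336013) (nat_lit 2) (.e (nat_lit 90170) (nat_lit 13) (.e (nat_lit 172051) (nat_lit 0) .nil)))))))) (.g (nat_lit 1) (.e (nat_lit 88292) (nat_lit 0) .nil) .nil))))) 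
(.nd (nat_lit 8) (.nd (nat_lit 9) 
(.lf (nat_lit 471280) (.g (nat_lit 3887) (.e (nat_lit 3402) (nat_lit 211) (.e (nat_lit 647181) (nat_lit 3) (.e (nat_lit 163978) (nat_lit 30) (.e (nat_lit 573485) (nat_lit 13) (.e (nat_lit 65604) (nat_lit 9) (.e (nat_lit 336013) (nat_lit 2) (.e (nat_lit 90170) (nat_lit 13) (.e (nat_lit 172035) (nat_lit 0) .nil)))))))) (.g (nat_lit 1) (.e (nat_lit 87175) (nat_lit 0) .nil) .nil))) 
(.lf (nat_lit 471792) (.g (nat_lit 1975) (.e (nat_lit 3408) (nat_lit 212) (.e (nat_lit 655378) (nat_lit 4) (.e (nat_lit 172113) (nat_lit 10) (.e (nat_lit 434272) (nat_lit 38) (.e (nat_lit 655380) (nat_lit 6) (.e (nat_lit 188438) (nat_lit 20) .nil)))))) (.g (nat_lit 1) (.e (nat_lit 88096) (nat_lit 0) .nil) .nil)))) (.nd (nat_lit 9) 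
(.lf (nat_lit 471536) (.g (nat_lit 1212) (.e (nat_lit 3406) (nat_lit 212) (.e (nat_lit 655380) (nat_lit 6) (.e (nat_lit 188441) (nat_lit 20) (.e (nat_lit 3409) (nat_lit 212) (.e (nat_lit 655380) (nat_lit 6) .nil))))) (.g (nat_lit 0) (.e (nat_lit 87644) (nat_lit 0) .nil) .nil))) 
(.lf (nat_lit 472048) (.g (nat_lit 1749) (.e (nat_lit 3409) (nat_lit 212) (.e (nat_lit 655378) (nat_lit 4) (.e (nat_lit 172119) (nat_lit 12) (.e (nat_lit 475198) (nat_lit 40) (.e (nat_lit 704599) (nat_lit 6) (.e (nat_lit 188440) (nat_lit 20) .nil)))))) (.g (nat_lit 1) (.e (nat_lit 88465) (nat_lit 0) .nil) .nil))))))))) 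
(.nd (nat_lit 4) (.nd (nat_lit 5) (.nd (nat_lit 6) (.nd (nat_lit 7) (.nd (nat_lit 8) 
(.nd (nat_lit 9) 
(.lf (nat_lit 471048) (.g (nat_lit 3484) (.e (nat_lit 3399) (nat_lit 211) (.e (nat_lit 647181) (nat_lit 3) (.e (nat_lit 163979) (nat_lit 30) (.e (nat_lit 573492) (nat_lit 15) (.e (nat_lit 81956) (nat_lit 23) (.e (nat_lit 98356) (nat_lit 26) (.e (nat_lit 433920) (nat_lit 0) .nil))))))) (.g (nat_lit 1) (.e (nat_lit 86734) (nat_lit 0) .nil) .nil))) 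
(.lf (nat_lit 471560) (.g (nat_lit 3531) (.e (nat_lit 3407) (nat_lit 212) (.e (nat_lit 655375) (nat_lit 3) (.e (nat_lit 163978) (nat_lit 30) (.e (nat_lit 573479) (nat_lit 13) (.e (nat_lit 65610) (nat_lit 10) .nil))))) (.g (nat_lit 0) (.e (nat_lit 87700) (nat_lit 0) .nil) .nil)))) (.nd (nat_lit 9) 
(.lf (nat_lit 471304) (.g (nat_lit 1009) (.e (nat_lit 3402) (nat_lit 211) (.e (nat_lit 647183) (nat_lit 4) (.e (nat_lit 172082) (nat_lit 7) (.e (nat_lit 409618) (nat_lit 10) .nil)))) (.g (nat_lit 0) (.e (nat_lit 87214) (nat_lit 0) .nil) .nil))) 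
(.lf (nat_lit 471816) (.g (nat_lit 2444) (.e (nat_lit 3408) (nat_lit 212) (.e (nat_lit 655378) (nat_lit 4) (.e (nat_lit 172118) (nat_lit 12) (.e (nat_lit 475198) (nat_lit 40) (.e (nat_lit 704598) (nat_lit 6) (.e (nat_lit 188435) (nat_lit 20) .nil)))))) (.g (nat_lit 1) (.e (nat_lit 88121) (nat_lit 0) .nil) .nil))))) (.nd (nat_lit 8) (.nd (nat_lit 9) 
(.lf (nat_lit 471176) (.g (nat_lit 4242) (.e (nat_lit 3401) (nat_lit 211) (.e (nat_lit 647181) (nat_lit 3) (.e (nat_lit 163977) (nat_lit 30) (.e (nat_lit 573485) (nat_lit 13) (.e (nat_lit 65604) (nat_lit 9) (.e (nat_lit 336013) (nat_lit 2) (.e (nat_lit 90170) (nat_lit 13) (.e (nat_lit 172035) (nat_lit 0) .nil)))))))) (.g (nat_lit 1) (.e (nat_lit 86971) (nat_lit 0) .nil) .nil))) 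
(.lf (nat_lit 471688) (.g (nat_lit 4071) (.e (nat_lit 3408) (nat_lit 212) (.e (nat_lit 655375) (nat_lit 3) (.e (nat_lit 163977) (nat_lit 30) (.e (nat_lit 573493) (nat_lit 15) (.e (nat_lit 81956) (nat_lit 23) (.e (nat_lit 98359) (nat_lit 26) (.e (nat_lit 426043) (nat_lit 0) .nil))))))) (.g (nat_lit 1) (.e (nat_lit 87934) (nat_lit 0) .nil) .nil)))) (.nd (nat_lit 9) 
(.lf (nat_lit 471432) (.g (nat_lit 4504) (.e (nat_lit 3406) (nat_lit 212) (.e (nat_lit 655375) (nat_lit 3) (.e (nat_lit 163979) (nat_lit 30) (.e (nat_lit 573492) (nat_lit 15) (.e (nat_lit 81956) (nat_lit 23) (.e (nat_lit 98356) (nat_lit 26) (.e (nat_lit 426093) (nat_lit 0) .nil))))))) (.g (nat_lit 1) (.e (nat_lit 87468) (nat_lit 0) .nil) .nil))) 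
(.lf (nat_lit 471944) (.g (nat_lit 3809) (.e (nat_lit 3409) (nat_lit 212) (.e (nat_lit 655375) (nat_lit 3) (.e (nat_lit 163978) (nat_lit 30) (.e (nat_lit 573485) (nat_lit 13) (.e (nat_lit 65604) (nat_lit 9) (.e (nat_lit 336028) (nat_lit 3) (.e (nat_lit 98359) (nat_lit 26) (.e (nat_lit 426042) (nat_lit 0) .nil)))))))) (.g (nat_lit 1) (.e (nat_lit 88316) (nat_lit 0) .nil) .nil)))))) 
(.nd (nat_lit 7) (.nd (nat_lit 8) (.nd (nat_lit 9) 
(.lf (nat_lit 471112) (.g (nat_lit 2484) (.e (nat_lit 3399) (nat_lit 211) (.e (nat_lit 647183) (nat_lit 4) (.e (nat_lit 172124) (nat_lit 14) (.e (nat_lit 491571) (nat_lit 13) (.e (nat_lit 393274) (nat_lit 23) (.e (nat_lit 426023) (nat_lit 0) .nil)))))) (.g (nat_lit 1) (.e (nat_lit 86806) (nat_lit 0) .nil) .nil))) 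
(.lf (nat_lit 471624) (.g (nat_lit 1036) (.e (nat_lit 3407) (nat_lit 212) (.e (nat_lit 655378) (nat_lit 4) (.e (nat_lit 172119) (nat_lit 12) (.e (nat_lit 475199) (nat_lit 40) .nil)))) (.g (nat_lit 0) (.e (nat_lit 87804) (nat_lit 0) .nil) .nil)))) (.nd (nat_lit 9) 
(.lf (nat_lit 471368) (.g (nat_lit 2765) (.e (nat_lit 3402) (nat_lit 211) (.e (nat_lit 647183) (nat_lit 4) (.e (nat_lit 172124) (nat_lit 14) (.e (nat_lit 491571) (nat_lit 13) (.e (nat_lit 393274) (nat_lit 23) (.e (nat_lit 426022) (nat_lit 0) .nil)))))) (.g (nat_lit 1) (.e (nat_lit 87293) (nat_lit 0) .nil) .nil))) 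
(.lf (nat_lit 471880) (.g (nat_lit 1463) (.e (nat_lit 3408) (nat_lit 212) (.e (nat_lit 655380) (nat_lit 6) (.e (nat_lit 188440) (nat_lit 20) (.e (nat_lit 3408) (nat_lit 212) (.e (nat_lit 655380) (nat_lit 6) (.e (nat_lit 188439) (nat_lit 20) .nil)))))) (.g (nat_lit 1) (.e (nat_lit 88208) (nat_lit 0) .nil) .nil))))) (.nd (nat_lit 8) (.nd (nat_lit 9) 
(.lf (nat_lit 471240) (.g (nat_lit 1706) (.e (nat_lit 3401) (nat_lit 211) (.e (nat_lit 647185) (nat_lit 6) (.e (nat_lit 188418) (nat_lit 0) (.e (nat_lit 2058) (nat_lit 142) (.e (nat_lit 704598) (nat_lit 6) (.e (nat_lit 188427) (nat_lit 20) .nil)))))) (.g (nat_lit 1) (.e (nat_lit 87110) (nat_lit 0) .nil) .nil))) 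
(.lf (nat_lit 471752) (.g (nat_lit 1994) (.e (nat_lit 3408) (nat_lit 212) (.e (nat_lit 655378) (nat_lit 4) (.e (nat_lit 172094) (nat_lit 9) (.e (nat_lit 426025) (nat_lit 0) (.e (nat_lit 3397) (nat_lit 211) (.e (nat_lit 647185) (nat_lit 6) (.e (nat_lit 188439) (nat_lit 20) .nil))))))) (.g (nat_lit 1) (.e (nat_lit 88048) (nat_lit 0) .nil) .nil)))) (.nd (nat_lit 9) 
(.lf (nat_lit 471496) (.g (nat_lit 2947) (.e (nat_lit 3406) (nat_lit 212) (.e (nat_lit 655378) (nat_lit 4) (.e (nat_lit 172120) (nat_lit 12) (.e (nat_lit 475199) (nat_lit 40) (.e (nat_lit 704598) (nat_lit 6) (.e (nat_lit 188434) (nat_lit 20) .nil)))))) (.g (nat_lit 1) (.e (nat_lit 87578) (nat_lit 0) .nil) .nil))) 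
(.lf (nat_lit 472008) (.g (nat_lit 1742) (.e (nat_lit 3409) (nat_lit 212) (.e (nat_lit 655378) (nat_lit 4) (.e (nat_lit 172097) (nat_lit 9) (.e (nat_lit 426025) (nat_lit 0) (.e (nat_lit 3397) (nat_lit 211) .nil))))) (.g (nat_lit 0) (.e (nat_lit 88423) (nat_lit 0) .nil) .nil))))))) (.nd (nat_lit 6) (.nd (nat_lit 7) (.nd (nat_lit 8) (.nd (nat_lit 9) 
(.lf (nat_lit 471080) (.g (nat_lit 2427) (.e (nat_lit 3399) (nat_lit 211) (.e (nat_lit 647183) (nat_lit 4) (.e (nat_lit 172113) (nat_lit 10) (.e (nat_lit 434271) (nat_lit 38) (.e (nat_lit 655380) (nat_lit 6) (.e (nat_lit 188431) (nat_lit 20) .nil)))))) (.g (nat_lit 1) (.e (nat_lit 86773) (nat_lit 0) .nil) .nil))) 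
(.lf (nat_lit 471592) (.g (nat_lit 1883) (.e (nat_lit 3407) (nat_lit 212) (.e (nat_lit 655378) (nat_lit 4) (.e (nat_lit 172094) (nat_lit 9) (.e (nat_lit 426025) (nat_lit 0) (.e (nat_lit 3397) (nat_lit 211) (.e (nat_lit 647185) (nat_lit 6) (.e (nat_lit 188439) (nat_lit 20) .nil))))))) (.g (nat_lit 1) (.e (nat_lit 87764) (nat_lit 0) .nil) .nil)))) (.nd (nat_lit 9) 
(.lf (nat_lit 471336) (.g (nat_lit 2211) (.e (nat_lit 3402) (nat_lit 211) (.e (nat_lit 647183) (nat_lit 4) (.e (nat_lit 172115) (nat_lit 10) (.e (nat_lit 434209) (nat_lit 18) (.e (nat_lit 5547) (nat_lit 306) (.e (nat_lit 2648) (nat_lit 166) (.e (nat_lit 188428) (nat_lit 20) .nil))))))) (.g (nat_lit 1) (.e (nat_lit 87260) (nat_lit 0) .nil) .nil))) 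
(.lf (nat_lit 471848) (.g (nat_lit 3273) (.e (nat_lit 3408) (nat_lit 212) (.e (nat_lit 655378) (nat_lit 4) (.e (nat_lit 172126) (nat_lit 14) (.e (nat_lit 491549) (nat_lit 9) (.e (nat_lit 336430) (nat_lit 29) (.e (nat_lit 442402) (nat_lit 20) .nil)))))) (.g (nat_lit 1) (.e (nat_lit 88167) (nat_lit 0) .nil) .nil))))) (.nd (nat_lit 8) (.nd (nat_lit 9) 
(.lf (nat_lit 471208) (.g (nat_lit 417) (.e (nat_lit 3401) (nat_lit 211) (.e (nat_lit 647183) (nat_lit 4) (.e (nat_lit 172106) (nat_lit 10) .nil))) (.g (nat_lit 0) (.e (nat_lit 87030) (nat_lit 0) .nil) .nil))) 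
(.lf (nat_lit 471720) (.g (nat_lit 4804) (.e (nat_lit 3408) (nat_lit 212) (.e (nat_lit 655375) (nat_lit 3) (.e (nat_lit 163979) (nat_lit 30) (.e (nat_lit 573482) (nat_lit 13) (.e (nat_lit 65604) (nat_lit 9) (.e (nat_lit 336013) (nat_lit 2) (.e (nat_lit 90170) (nat_lit 13) (.e (nat_lit 172042) (nat_lit 0) .nil)))))))) (.g (nat_lit 1) (.e (nat_lit 87979) (nat_lit 0) .nil) .nil)))) (.nd (nat_lit 9) 
(.lf (nat_lit 471464) (.g (nat_lit 2028) (.e (nat_lit 3406) (nat_lit 212) (.e (nat_lit 655378) (nat_lit 4) (.e (nat_lit 172113) (nat_lit 10) (.e (nat_lit 434271) (nat_lit 38) (.e (nat_lit 655380) (nat_lit 6) (.e (nat_lit 188439) (nat_lit 20) .nil)))))) (.g (nat_lit 1) (.e (nat_lit 87542) (nat_lit 0) .nil) .nil))) 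
(.lf (nat_lit 471976) (.g (nat_lit 4417) (.e (nat_lit 3409) (nat_lit 212) (.e (nat_lit 655375) (nat_lit 3) (.e (nat_lit 163979) (nat_lit 30) (.e (nat_lit 573492) (nat_lit 15) (.e (nat_lit 81956) (nat_lit 23) (.e (nat_lit 98360) (nat_lit 26) (.e (nat_lit 426047) (nat_lit 0) .nil))))))) (.g (nat_lit 1) (.e (nat_lit 88375) (nat_lit 0) .nil) .nil)))))) 
(.nd (nat_lit 7) (.nd (nat_lit 8) (.nd (nat_lit 9) 
(.lf (nat_lit 471144) (.g (nat_lit 1149) (.e (nat_lit 3399) (nat_lit 211) (.e (nat_lit 647185) (nat_lit 6) (.e (nat_lit 188420) (nat_lit 0) (.e (nat_lit 2057) (nat_lit 142) (.e (nat_lit 704598) (nat_lit 6) (.e (nat_lit 188431) (nat_lit 20) .nil)))))) (.g (nat_lit 1) (.e (nat_lit 86854) (nat_lit 0) .nil) .nil))) 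
(.lf (nat_lit 471656) (.g (nat_lit 1217) (.e (nat_lit 3407) (nat_lit 212) (.e (nat_lit 655380) (nat_lit 6) (.e (nat_lit 188439) (nat_lit 20) (.e (nat_lit 3408) (nat_lit 212) (.e (nat_lit 655380) (nat_lit 6) (.e (nat_lit 188439) (nat_lit 20) .nil)))))) (.g (nat_lit 1) (.e (nat_lit 87858) (nat_lit 0) .nil) .nil)))) (.nd (nat_lit 9) 
(.lf (nat_lit 471400) (.g (nat_lit 3615) (.e (nat_lit 3406) (nat_lit 212) (.e (nat_lit 655375) (nat_lit 3) (.e (nat_lit 163978) (nat_lit 30) (.e (nat_lit 573479) (nat_lit 13) (.e (nat_lit 65604) (nat_lit 9) .nil))))) (.g (nat_lit 0) (.e (nat_lit 87429) (nat_lit 0) .nil) .nil))) 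
(.lf (nat_lit 471912) (.g (nat_lit 5513) (.e (nat_lit 3409) (nat_lit 212) (.e (nat_lit 655375) (nat_lit 3) (.e (nat_lit 163977) (nat_lit 30) (.e (nat_lit 573482) (nat_lit 13) (.e (nat_lit 65619) (nat_lit 10) (.e (nat_lit 344117) (nat_lit 21) (.e (nat_lit 516151) (nat_lit 9) (.e (nat_lit 426042) (nat_lit 0) .nil)))))))) (.g (nat_lit 1) (.e (nat_lit 88284) (nat_lit 0) .nil) .nil))))) 
(.nd (nat_lit 8) (.nd (nat_lit 9) 
(.lf (nat_lit 471272) (.g (nat_lit 3276) (.e (nat_lit 3402) (nat_lit 211) (.e (nat_lit 647181) (nat_lit 3) (.e (nat_lit 163977) (nat_lit 30) (.e (nat_lit 573491) (nat_lit 15) (.e (nat_lit 81954) (nat_lit 23) (.e (nat_lit 98359) (nat_lit 26) (.e (nat_lit 426023) (nat_lit 0) .nil))))))) (.g (nat_lit 1) (.e (nat_lit 87167) (nat_lit 0) .nil) .nil))) 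
(.lf (nat_lit 471784) (.g (nat_lit 1322) (.e (nat_lit 3408) (nat_lit 212) (.e (nat_lit 655378) (nat_lit 4) (.e (nat_lit 172113) (nat_lit 10) (.e (nat_lit 434270) (nat_lit 38) .nil)))) (.g (nat_lit 0) (.e (nat_lit 88088) (nat_lit 0) .nil) .nil)))) (.nd (nat_lit 9) 
(.lf (nat_lit 471528) (.g (nat_lit 1290) (.e (nat_lit 3406) (nat_lit 212) (.e (nat_lit 655380) (nat_lit 6) (.e (nat_lit 188439) (nat_lit 20) (.e (nat_lit 3408) (nat_lit 212) (.e (nat_lit 655380) (nat_lit 6) (.e (nat_lit 188439) (nat_lit 20) .nil)))))) (.g (nat_lit 1) (.e (nat_lit 87636) (nat_lit 0) .nil) .nil))) 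
(.lf (nat_lit 472040) (.g (nat_lit 2196) (.e (nat_lit 3409) (nat_lit 212) (.e (nat_lit 655378) (nat_lit 4) (.e (nat_lit 172116) (nat_lit 10) (.e (nat_lit 434271) (nat_lit 38) (.e (nat_lit 655380) (nat_lit 6) (.e (nat_lit 188434) (nat_lit 20) .nil)))))) (.g (nat_lit 1) (.e (nat_lit 88457) (nat_lit 0) .nil) .nil)))))))) 
(.nd (nat_lit 5) (.nd (nat_lit 6) (.nd (nat_lit 7) (.nd (nat_lit 8) (.nd (nat_lit 9) 
(.lf (nat_lit 471064) (.g (nat_lit 2002) (.e (nat_lit 3399) (nat_lit 211) (.e (nat_lit 647183) (nat_lit 4) (.e (nat_lit 172082) (nat_lit 7) (.e (nat_lit 409642) (nat_lit 17) (.e (nat_lit 294974) (nat_lit 29) (.e (nat_lit 442398) (nat_lit 20) .nil)))))) (.g (nat_lit 1) (.e (nat_lit 86756) (nat_lit 0) .nil) .nil))) 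
(.lf (nat_lit 471576) (.g (nat_lit 4077) (.e (nat_lit 3407) (nat_lit 212) (.e (nat_lit 655375) (nat_lit 3) (.e (nat_lit 163979) (nat_lit 30) (.e (nat_lit 573481) (nat_lit 13) (.e (nat_lit 65604) (nat_lit 9) (.e (nat_lit 336028) (nat_lit 3) (.e (nat_lit 98359) (nat_lit 26) (.e (nat_lit 426043) (nat_lit 0) .nil)))))))) (.g (nat_lit 1) (.e (nat_lit 87726) (nat_lit 0) .nil) .nil)))) (.nd (nat_lit 9) 
(.lf (nat_lit 471320) (.g (nat_lit 1960) (.e (nat_lit 3402) (nat_lit 211) (.e (nat_lit 647183) (nat_lit 4) (.e (nat_lit 172106) (nat_lit 10) (.e (nat_lit 434271) (nat_lit 38) (.e (nat_lit 655380) (nat_lit 6) (.e (nat_lit 188428) (nat_lit 20) .nil)))))) (.g (nat_lit 1) (.e (nat_lit 87240) (nat_lit 0) .nil) .nil))) 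
(.lf (nat_lit 471832) (.g (nat_lit 2601) (.e (nat_lit 3408) (nat_lit 212) (.e (nat_lit 655378) (nat_lit 4) (.e (nat_lit 172120) (nat_lit 12) (.e (nat_lit 475198) (nat_lit 40) (.e (nat_lit 704598) (nat_lit 6) (.e (nat_lit 188435) (nat_lit 20) .nil)))))) (.g (nat_lit 1) (.e (nat_lit 88141) (nat_lit 0) .nil) .nil))))) (.nd (nat_lit 8) (.nd (nat_lit 9) 
(.lf (nat_lit 471192) (.g (nat_lit 4905) (.e (nat_lit 3401) (nat_lit 211) (.e (nat_lit 647181) (nat_lit 3) (.e (nat_lit 163978) (nat_lit 30) (.e (nat_lit 573484) (nat_lit 13) (.e (nat_lit 65610) (nat_lit 10) (.e (nat_lit 344117) (nat_lit 21) (.e (nat_lit 516151) (nat_lit 9) (.e (nat_lit 426023) (nat_lit 0) .nil)))))))) (.g (nat_lit 1) (.e (nat_lit 86987) (nat_lit 0) .nil) .nil))) 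
(.lf (nat_lit 471704) (.g (nat_lit 1671) (.e (nat_lit 3408) (nat_lit 212) (.e (nat_lit 655375) (nat_lit 3) (.e (nat_lit 163978) (nat_lit 30) (.e (nat_lit 573490) (nat_lit 15) .nil)))) (.g (nat_lit 0) (.e (nat_lit 87950) (nat_lit 0) .nil) .nil)))) (.nd (nat_lit 9) 
(.lf (nat_lit 471448) (.g (nat_lit 1665) (.e (nat_lit 3406) (nat_lit 212) (.e (nat_lit 655378) (nat_lit 4) (.e (nat_lit 172097) (nat_lit 9) (.e (nat_lit 426025) (nat_lit 0) (.e (nat_lit 3399) (nat_lit 211) .nil))))) (.g (nat_lit 0) (.e (nat_lit 87523) (nat_lit 0) .nil) .nil))) 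
(.lf (nat_lit 471960) (.g (nat_lit 2479) (.e (nat_lit 3409) (nat_lit 212) (.e (nat_lit 655375) (nat_lit 3) (.e (nat_lit 163979) (nat_lit 30) (.e (nat_lit 573481) (nat_lit 13) (.e (nat_lit 65619) (nat_lit 10) (.e (nat_lit 344117) (nat_lit 21) (.e (nat_lit 516151) (nat_lit 9) (.e (nat_lit 426003) (nat_lit 0) .nil)))))))) (.g (nat_lit 1) (.e (nat_lit 88357) (nat_lit 0) .nil) .nil)))))) 
(.nd (nat_lit 7) (.nd (nat_lit 8) (.nd (nat_lit 9) 
(.lf (nat_lit 471128) (.g (nat_lit 1768) (.e (nat_lit 3399) (nat_lit 211) (.e (nat_lit 647183) (nat_lit 4) (.e (nat_lit 172126) (nat_lit 14) (.e (nat_lit 491550) (nat_lit 9) (.e (nat_lit 336430) (nat_lit 29) (.e (nat_lit 442392) (nat_lit 20) .nil)))))) (.g (nat_lit 1) (.e (nat_lit 86822) (nat_lit 0) .nil) .nil))) 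
(.lf (nat_lit 471640) (.g (nat_lit 1712) (.e (nat_lit 3407) (nat_lit 212) (.e (nat_lit 655380) (nat_lit 6) (.e (nat_lit 188431) (nat_lit 20) (.e (nat_lit 3397) (nat_lit 211) (.e (nat_lit 647185) (nat_lit 6) (.e (nat_lit 188439) (nat_lit 20) .nil)))))) (.g (nat_lit 1) (.e (nat_lit 87840) (nat_lit 0) .nil) .nil)))) (.nd (nat_lit 9) 
(.lf (nat_lit 471384) (.g (nat_lit 4417) (.e (nat_lit 3403) (nat_lit 212) (.e (nat_lit 655375) (nat_lit 3) (.e (nat_lit 163979) (nat_lit 30) (.e (nat_lit 573492) (nat_lit 15) (.e (nat_lit 81956) (nat_lit 23) (.e (nat_lit 98356) (nat_lit 26) (.e (nat_lit 426085) (nat_lit 0) .nil))))))) (.g (nat_lit 1) (.e (nat_lit 87356) (nat_lit 0) .nil) .nil))) 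
(.lf (nat_lit 471896) (.g (nat_lit 91) (.e (nat_lit 3409) (nat_lit 212) (.e (nat_lit 655360) (nat_lit 0) (.e (nat_lit 3044) (nat_lit 189) .nil))) (.g (nat_lit 0) (.e (nat_lit 88230) (nat_lit 0) .nil) .nil))))) (.nd (nat_lit 8) (.nd (nat_lit 9) 
(.lf (nat_lit 471256) (.g (nat_lit 4949) (.e (nat_lit 3402) (nat_lit 211) (.e (nat_lit 647180) (nat_lit 3) (.e (nat_lit 163979) (nat_lit 30) (.e (nat_lit 573482) (nat_lit 13) (.e (nat_lit 65619) (nat_lit 10) (.e (nat_lit 344117) (nat_lit 21) (.e (nat_lit 516151) (nat_lit 9) (.e (nat_lit 426022) (nat_lit 0) .nil)))))))) (.g (nat_lit 1) (.e (nat_lit 87151) (nat_lit 0) .nil) .nil))) 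
(.lf (nat_lit 471768) (.g (nat_lit 2315) (.e (nat_lit 3408) (nat_lit 212) (.e (nat_lit 655378) (nat_lit 4) (.e (nat_lit 172107) (nat_lit 10) (.e (nat_lit 434271) (nat_lit 38) (.e (nat_lit 655380) (nat_lit 6) (.e (nat_lit 188434) (nat_lit 20) .nil)))))) (.g (nat_lit 1) (.e (nat_lit 88071) (nat_lit 0) .nil) .nil)))) (.nd (nat_lit 9) 
(.lf (nat_lit 471512) (.g (nat_lit 1822) (.e (nat_lit 3406) (nat_lit 212) (.e (nat_lit 655380) (nat_lit 6) (.e (nat_lit 188420) (nat_lit 0) (.e (nat_lit 2058) (nat_lit 142) (.e (nat_lit 704598) (nat_lit 6) (.e (nat_lit 188434) (nat_lit 20) .nil)))))) (.g (nat_lit 1) (.e (nat_lit 87619) (nat_lit 0) .nil) .nil))) 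
(.lf (nat_lit 472024) (.g (nat_lit 1785) (.e (nat_lit 3409) (nat_lit 212) (.e (nat_lit 655378) (nat_lit 4) (.e (nat_lit 172112) (nat_lit 10) (.e (nat_lit 434271) (nat_lit 38) (.e (nat_lit 655380) (nat_lit 6) (.e (nat_lit 188438) (nat_lit 20) .nil)))))) (.g (nat_lit 1) (.e (nat_lit 88439) (nat_lit 0) .nil) .nil))))))) (.nd (nat_lit 6) (.nd (nat_lit 7) (.nd (nat_lit 8) (.nd (nat_lit 9) 
(.lf (nat_lit 471096) (.g (nat_lit 913) (.e (nat_lit 3399) (nat_lit 211) (.e (nat_lit 647183) (nat_lit 4) (.e (nat_lit 172124) (nat_lit 14) (.e (nat_lit 491549) (nat_lit 9) .nil)))) (.g (nat_lit 0) (.e (nat_lit 86790) (nat_lit 0) .nil) .nil))) 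
(.lf (nat_lit 471608) (.g (nat_lit 1854) (.e (nat_lit 3407) (nat_lit 212) (.e (nat_lit 655378) (nat_lit 4) (.e (nat_lit 172113) (nat_lit 10) (.e (nat_lit 434271) (nat_lit 38) (.e (nat_lit 655380) (nat_lit 6) .nil))))) (.g (nat_lit 0) (.e (nat_lit 87787) (nat_lit 0) .nil) .nil)))) (.nd (nat_lit 9) 
(.lf (nat_lit 471352) (.g (nat_lit 1555) (.e (nat_lit 3402) (nat_lit 211) (.e (nat_lit 647183) (nat_lit 4) (.e (nat_lit 172119) (nat_lit 12) (.e (nat_lit 475198) (nat_lit 40) (.e (nat_lit 704598) (nat_lit 6) .nil))))) (.g (nat_lit 0) (.e (nat_lit 87277) (nat_lit 0) .nil) .nil))) 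
(.lf (nat_lit 471864) (.g (nat_lit 1498) (.e (nat_lit 3408) (nat_lit 212) (.e (nat_lit 655380) (nat_lit 6) (.e (nat_lit 188434) (nat_lit 20) (.e (nat_lit 3408) (nat_lit 212) (.e (nat_lit 655380) (nat_lit 6) (.e (nat_lit 188438) (nat_lit 20) .nil)))))) (.g (nat_lit 1) (.e (nat_lit 88192) (nat_lit 0) .nil) .nil))))) (.nd (nat_lit 8) (.nd (nat_lit 9) 
(.lf (nat_lit 471224) (.g (nat_lit 2312) (.e (nat_lit 3401) (nat_lit 211) (.e (nat_lit 647183) (nat_lit 4) (.e (nat_lit 172118) (nat_lit 12) (.e (nat_lit 475198) (nat_lit 40) (.e (nat_lit 704598) (nat_lit 6) (.e (nat_lit 188431) (nat_lit 20) .nil)))))) (.g (nat_lit 1) (.e (nat_lit 87070) (nat_lit 0) .nil) .nil))) 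
(.lf (nat_lit 471736) (.g (nat_lit 3716) (.e (nat_lit 3408) (nat_lit 212) (.e (nat_lit 655375) (nat_lit 3) (.e (nat_lit 163979) (nat_lit 30) (.e (nat_lit 573492) (nat_lit 15) (.e (nat_lit 81956) (nat_lit 23) (.e (nat_lit 98360) (nat_lit 26) (.e (nat_lit 426045) (nat_lit 0) .nil))))))) (.g (nat_lit 1) (.e (nat_lit 87995) (nat_lit 0) .nil) .nil)))) (.nd (nat_lit 9) 
(.lf (nat_lit 471480) (.g (nat_lit 1264) (.e (nat_lit 3406) (nat_lit 212) (.e (nat_lit 655378) (nat_lit 4) (.e (nat_lit 172116) (nat_lit 10) (.e (nat_lit 434272) (nat_lit 38) (.e (nat_lit 655380) (nat_lit 6) .nil))))) (.g (nat_lit 0) (.e (nat_lit 87559) (nat_lit 0) .nil) .nil))) 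
(.lf (nat_lit 471992) (.g (nat_lit 600) (.e (nat_lit 3409) (nat_lit 212) (.e (nat_lit 655378) (nat_lit 4) (.e (nat_lit 172077) (nat_lit 7) .nil))) (.g (nat_lit 0) (.e (nat_lit 88403) (nat_lit 0) .nil) .nil)))))) (.nd (nat_lit 7) (.nd (nat_lit 8) (.nd (nat_lit 9) 
(.lf (nat_lit 471160) (.g (nat_lit 2410) (.e (nat_lit 3399) (nat_lit 211) (.e (nat_lit 647185) (nat_lit 6) (.e (nat_lit 188446) (nat_lit 21) (.e (nat_lit 164348) (nat_lit 240) (.e (nat_lit 2648) (nat_lit 166) (.e (nat_lit 188431) (nat_lit 20) .nil)))))) (.g (nat_lit 1) (.e (nat_lit 86875) (nat_lit 0) .nil) .nil))) 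
(.lf (nat_lit 471672) (.g (nat_lit 2312) (.e (nat_lit 3408) (nat_lit 212) (.e (nat_lit 655363) (nat_lit 0) (.e (nat_lit 3004) (nat_lit 186) (.e (nat_lit 442374) (nat_lit 0) (.e (nat_lit 2059) (nat_lit 142) (.e (nat_lit 704598) (nat_lit 6) (.e (nat_lit 188435) (nat_lit 20) .nil))))))) (.g (nat_lit 1) (.e (nat_lit 87885) (nat_lit 0) .nil) .nil)))) (.nd (nat_lit 9) 
(.lf (nat_lit 471416) (.g (nat_lit 3327) (.e (nat_lit 3406) (nat_lit 212) (.e (nat_lit 655375) (nat_lit 3) (.e (nat_lit 163978) (nat_lit 30) (.e (nat_lit 573483) (nat_lit 13) (.e (nat_lit 65610) (nat_lit 10) (.e (nat_lit 344117) (nat_lit 21) (.e (nat_lit 516151) (nat_lit 9) (.e (nat_lit 426043) (nat_lit 0) .nil)))))))) (.g (nat_lit 1) (.e (nat_lit 87445) (nat_lit 0) .nil) .nil))) 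
(.lf (nat_lit 471928) (.g (nat_lit 3635) (.e (nat_lit 3409) (nat_lit 212) (.e (nat_lit 655375) (nat_lit 3) (.e (nat_lit 163978) (nat_lit 30) (.e (nat_lit 573481) (nat_lit 13) (.e (nat_lit 65604) (nat_lit 9) (.e (nat_lit 336013) (nat_lit 2) (.e (nat_lit 90170) (nat_lit 13) (.e (nat_lit 172042) (nat_lit 0) .nil)))))))) (.g (nat_lit 1) (.e (nat_lit 88300) (nat_lit 0) .nil) .nil))))) 
(.nd (nat_lit 8) (.nd (nat_lit 9) 
(.lf (nat_lit 471288) (.g (nat_lit 432) (.e (nat_lit 3402) (nat_lit 211) (.e (nat_lit 647183) (nat_lit 4) (.e (nat_lit 172077) (nat_lit 7) .nil))) (.g (nat_lit 0) (.e (nat_lit 87198) (nat_lit 0) .nil) .nil))) 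
(.lf (nat_lit 471800) (.g (nat_lit 2561) (.e (nat_lit 3408) (nat_lit 212) (.e (nat_lit 655378) (nat_lit 4) (.e (nat_lit 172115) (nat_lit 10) (.e (nat_lit 434272) (nat_lit 38) (.e (nat_lit 655380) (nat_lit 6) (.e (nat_lit 188434) (nat_lit 20) .nil)))))) (.g (nat_lit 1) (.e (nat_lit 88105) (nat_lit 0) .nil) .nil)))) (.nd (nat_lit 9) 
(.lf (nat_lit 471544) (.g (nat_lit 503) (.e (nat_lit 3407) (nat_lit 212) (.e (nat_lit 655364) (nat_lit 0) (.e (nat_lit 2989) (nat_lit 186) .nil))) (.g (nat_lit 0) (.e (nat_lit 87667) (nat_lit 0) .nil) .nil))) 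
(.lf (nat_lit 472056) (.g (nat_lit 1136) (.e (nat_lit 3409) (nat_lit 212) (.e (nat_lit 655378) (nat_lit 4) (.e (nat_lit 172124) (nat_lit 14) (.e (nat_lit 491548) (nat_lit 9) .nil)))) (.g (nat_lit 0) (.e (nat_lit 88474) (nat_lit 0) .nil) .nil)))))))))) (.nd (nat_lit 3) (.nd (nat_lit 4) (.nd (nat_lit 5) (.nd (nat_lit 6) (.nd (nat_lit 7) (.nd (nat_lit 8) (.nd (nat_lit 9) 
(.lf (nat_lit 471044) (.g (nat_lit 3448) (.e (nat_lit 3399) (nat_lit 211) (.e (nat_lit 647181) (nat_lit 3) (.e (nat_lit 163979) (nat_lit 30) (.e (nat_lit 573491) (nat_lit 15) (.e (nat_lit 81954) (nat_lit 23) (.e (nat_lit 98359) (nat_lit 26) (.e (nat_lit 426025) (nat_lit 0) .nil))))))) (.g (nat_lit 1) (.e (nat_lit 86730) (nat_lit 0) .nil) .nil))) 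
(.lf (nat_lit 471556) (.g (nat_lit 3895) (.e (nat_lit 3407) (nat_lit 212) (.e (nat_lit 655375) (nat_lit 3) (.e (nat_lit 163977) (nat_lit 30) (.e (nat_lit 573493) (nat_lit 15) (.e (nat_lit 81953) (nat_lit 22) (.e (nat_lit 90170) (nat_lit 13) (.e (nat_lit 172049) (nat_lit 0) .nil))))))) (.g (nat_lit 1) (.e (nat_lit 87696) (nat_lit 0) .nil) .nil)))) (.nd (nat_lit 9) 
(.lf (nat_lit 471300) (.g (nat_lit 1242) (.e (nat_lit 3402) (nat_lit 211) (.e (nat_lit 647183) (nat_lit 4) (.e (nat_lit 172080) (nat_lit 7) (.e (nat_lit 409642) (nat_lit 17) (.e (nat_lit 302848) (nat_lit 29) (.e (nat_lit 442396) (nat_lit 20) .nil)))))) (.g (nat_lit 1) (.e (nat_lit 87210) (nat_lit 0) .nil) .nil))) 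
(.lf (nat_lit 471812) (.g (nat_lit 2407) (.e (nat_lit 3408) (nat_lit 212) (.e (nat_lit 655378) (nat_lit 4) (.e (nat_lit 172116) (nat_lit 10) (.e (nat_lit 434272) (nat_lit 38) (.e (nat_lit 655380) (nat_lit 6) (.e (nat_lit 188441) (nat_lit 20) .nil)))))) (.g (nat_lit 1) (.e (nat_lit 88117) (nat_lit 0) .nil) .nil))))) (.nd (nat_lit 8) (.nd (nat_lit 9) 
(.lf (nat_lit 471172) (.g (nat_lit 4321) (.e (nat_lit 3401) (nat_lit 211) (.e (nat_lit 647181) (nat_lit 3) (.e (nat_lit 163977) (nat_lit 30) (.e (nat_lit 573482) (nat_lit 13) (.e (nat_lit 65604) (nat_lit 9) (.e (nat_lit 336013) (nat_lit 2) (.e (nat_lit 90170) (nat_lit 13) (.e (nat_lit 172039) (nat_lit 0) .nil)))))))) (.g (nat_lit 1) (.e (nat_lit 86967) (nat_lit 0) .nil) .nil))) 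
(.lf (nat_lit 471684) (.g (nat_lit 3729) (.e (nat_lit 3408) (nat_lit 212) (.e (nat_lit 655375) (nat_lit 3) (.e (nat_lit 163977) (nat_lit 30) (.e (nat_lit 573491) (nat_lit 15) (.e (nat_lit 81951) (nat_lit 22) (.e (nat_lit 90170) (nat_lit 13) (.e (nat_lit 172042) (nat_lit 0) .nil))))))) (.g (nat_lit 1) (.e (nat_lit 87930) (nat_lit 0) .nil) .nil)))) (.nd (nat_lit 9) 
(.lf (nat_lit 471428) (.g (nat_lit 2822) (.e (nat_lit 3406) (nat_lit 212) (.e (nat_lit 655375) (nat_lit 3) (.e (nat_lit 163979) (nat_lit 30) (.e (nat_lit 573492) (nat_lit 15) (.e (nat_lit 81956) (nat_lit 23) (.e (nat_lit 98355) (nat_lit 26) (.e (nat_lit 426091) (nat_lit 0) .nil))))))) (.g (nat_lit 1) (.e (nat_lit 87464) (nat_lit 0) .nil) .nil))) 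
(.lf (nat_lit 471940) (.g (nat_lit 2727) (.e (nat_lit 3409) (nat_lit 212) (.e (nat_lit 655375) (nat_lit 3) (.e (nat_lit 163978) (nat_lit 30) (.e (nat_lit 573483) (nat_lit 13) (.e (nat_lit 65619) (nat_lit 10) (.e (nat_lit 344117) (nat_lit 21) (.e (nat_lit 516151) (nat_lit 9) (.e (nat_lit 426043) (nat_lit 0) .nil)))))))) (.g (nat_lit 1) (.e (nat_lit 88312) (nat_lit 0) .nil) .nil)))))) 
(.nd (nat_lit 7) (.nd (nat_lit 8) (.nd (nat_lit 9) 
(.lf (nat_lit 471108) (.g (nat_lit 1842) (.e (nat_lit 3399) (nat_lit 211) (.e (nat_lit 647183) (nat_lit 4) (.e (nat_lit 172124) (nat_lit 14) (.e (nat_lit 491570) (nat_lit 13) (.e (nat_lit 393274) (nat_lit 23) (.e (nat_lit 426025) (nat_lit 0) .nil)))))) (.g (nat_lit 1) (.e (nat_lit 86802) (nat_lit 0) .nil) .nil))) 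
(.lf (nat_lit 471620) (.g (nat_lit 1819) (.e (nat_lit 3407) (nat_lit 212) (.e (nat_lit 655378) (nat_lit 4) (.e (nat_lit 172116) (nat_lit 10) (.e (nat_lit 434272) (nat_lit 38) (.e (nat_lit 655380) (nat_lit 6) (.e (nat_lit 188439) (nat_lit 20) .nil)))))) (.g (nat_lit 1) (.e (nat_lit 87800) (nat_lit 0) .nil) .nil)))) (.nd (nat_lit 9) 
(.lf (nat_lit 471364) (.g (nat_lit 2378) (.e (nat_lit 3402) (nat_lit 211) (.e (nat_lit 647183) (nat_lit 4) (.e (nat_lit 172124) (nat_lit 14) (.e (nat_lit 491548) (nat_lit 9) (.e (nat_lit 336430) (nat_lit 29) (.e (nat_lit 442399) (nat_lit 20) .nil)))))) (.g (nat_lit 1) (.e (nat_lit 87289) (nat_lit 0) .nil) .nil))) 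
(.lf (nat_lit 471876) (.g (nat_lit 1194) (.e (nat_lit 3408) (nat_lit 212) (.e (nat_lit 655380) (nat_lit 6) (.e (nat_lit 188439) (nat_lit 20) (.e (nat_lit 3408) (nat_lit 212) (.e (nat_lit 655380) (nat_lit 6) (.e (nat_lit 188438) (nat_lit 20) .nil)))))) (.g (nat_lit 1) (.e (nat_lit 88204) (nat_lit 0) .nil) .nil))))) (.nd (nat_lit 8) (.nd (nat_lit 9) 
(.lf (nat_lit 471236) (.g (nat_lit 2535) (.e (nat_lit 3401) (nat_lit 211) (.e (nat_lit 647183) (nat_lit 4) (.e (nat_lit 172126) (nat_lit 14) (.e (nat_lit 491550) (nat_lit 9) (.e (nat_lit 336430) (nat_lit 29) (.e (nat_lit 442399) (nat_lit 20) .nil)))))) (.g (nat_lit 1) (.e (nat_lit 87095) (nat_lit 0) .nil) .nil))) 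
(.lf (nat_lit 471748) (.g (nat_lit 413) (.e (nat_lit 3408) (nat_lit 212) (.e (nat_lit 655378) (nat_lit 4) (.e (nat_lit 172033) (nat_lit 0) .nil))) (.g (nat_lit 0) (.e (nat_lit 88016) (nat_lit 0) .nil) .nil)))) (.nd (nat_lit 9) 
(.lf (nat_lit 471492) (.g (nat_lit 2276) (.e (nat_lit 3406) (nat_lit 212) (.e (nat_lit 655378) (nat_lit 4) (.e (nat_lit 172120) (nat_lit 12) (.e (nat_lit 475197) (nat_lit 40) (.e (nat_lit 704598) (nat_lit 6) (.e (nat_lit 188439) (nat_lit 20) .nil)))))) (.g (nat_lit 1) (.e (nat_lit 87573) (nat_lit 0) .nil) .nil))) 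
(.lf (nat_lit 472004) (.g (nat_lit 2248) (.e (nat_lit 3409) (nat_lit 212) (.e (nat_lit 655378) (nat_lit 4) (.e (nat_lit 172094) (nat_lit 9) (.e (nat_lit 426025) (nat_lit 0) (.e (nat_lit 3397) (nat_lit 211) (.e (nat_lit 647185) (nat_lit 6) (.e (nat_lit 188440) (nat_lit 20) .nil))))))) (.g (nat_lit 1) (.e (nat_lit 88417) (nat_lit 0) .nil) .nil))))))) 
(.nd (nat_lit 6) (.nd (nat_lit 7) (.nd (nat_lit 8) (.nd (nat_lit 9) 
(.lf (nat_lit 471076) (.g (nat_lit 1741) (.e (nat_lit 3399) (nat_lit 211) (.e (nat_lit 647183) (nat_lit 4) (.e (nat_lit 172107) (nat_lit 10) (.e (nat_lit 434271) (nat_lit 38) (.e (nat_lit 655380) (nat_lit 6) (.e (nat_lit 188430) (nat_lit 20) .nil)))))) (.g (nat_lit 1) (.e (nat_lit 86768) (nat_lit 0) .nil) .nil))) 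
(.lf (nat_lit 471588) (.g (nat_lit 4257) (.e (nat_lit 3407) (nat_lit 212) (.e (nat_lit 655375) (nat_lit 3) (.e (nat_lit 163979) (nat_lit 30) (.e (nat_lit 573493) (nat_lit 15) (.e (nat_lit 81956) (nat_lit 23) (.e (nat_lit 98359) (nat_lit 26) (.e (nat_lit 426043) (nat_lit 0) .nil))))))) (.g (nat_lit 1) (.e (nat_lit 87738) (nat_lit 0) .nil) .nil)))) (.nd (nat_lit 9) 
(.lf (nat_lit 471332) (.g (nat_lit 2121) (.e (nat_lit 3402) (nat_lit 211) (.e (nat_lit 647183) (nat_lit 4) (.e (nat_lit 172113) (nat_lit 10) (.e (nat_lit 434271) (nat_lit 38) (.e (nat_lit 655380) (nat_lit 6) (.e (nat_lit 188428) (nat_lit 20) .nil)))))) (.g (nat_lit 1) (.e (nat_lit 87255) (nat_lit 0) .nil) .nil))) 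
(.lf (nat_lit 471844) (.g (nat_lit 954) (.e (nat_lit 3408) (nat_lit 212) (.e (nat_lit 655378) (nat_lit 4) (.e (nat_lit 172125) (nat_lit 14) (.e (nat_lit 491547) (nat_lit 9) .nil)))) (.g (nat_lit 0) (.e (nat_lit 88157) (nat_lit 0) .nil) .nil))))) (.nd (nat_lit 8) (.nd (nat_lit 9) 
(.lf (nat_lit 471204) (.g (nat_lit 4286) (.e (nat_lit 3401) (nat_lit 211) (.e (nat_lit 647181) (nat_lit 3) (.e (nat_lit 163979) (nat_lit 30) (.e (nat_lit 573493) (nat_lit 15) (.e (nat_lit 81953) (nat_lit 22) (.e (nat_lit 90170) (nat_lit 13) (.e (nat_lit 172039) (nat_lit 0) .nil))))))) (.g (nat_lit 1) (.e (nat_lit 86999) (nat_lit 0) .nil) .nil))) 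
(.lf (nat_lit 471716) (.g (nat_lit 4170) (.e (nat_lit 3408) (nat_lit 212) (.e (nat_lit 655375) (nat_lit 3) (.e (nat_lit 163978) (nat_lit 30) (.e (nat_lit 573493) (nat_lit 15) (.e (nat_lit 81953) (nat_lit 22) (.e (nat_lit 90170) (nat_lit 13) (.e (nat_lit 172042) (nat_lit 0) .nil))))))) (.g (nat_lit 1) (.e (nat_lit 87963) (nat_lit 0) .nil) .nil)))) (.nd (nat_lit 9) 
(.lf (nat_lit 471460) (.g (nat_lit 2232) (.e (nat_lit 3406) (nat_lit 212) (.e (nat_lit 655378) (nat_lit 4) (.e (nat_lit 172112) (nat_lit 10) (.e (nat_lit 434272) (nat_lit 38) (.e (nat_lit 655380) (nat_lit 6) (.e (nat_lit 188434) (nat_lit 20) .nil)))))) (.g (nat_lit 1) (.e (nat_lit 87538) (nat_lit 0) .nil) .nil))) 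
(.lf (nat_lit 471972) (.g (nat_lit 4587) (.e (nat_lit 3409) (nat_lit 212) (.e (nat_lit 655375) (nat_lit 3) (.e (nat_lit 163979) (nat_lit 30) (.e (nat_lit 573492) (nat_lit 15) (.e (nat_lit 81956) (nat_lit 23) (.e (nat_lit 98360) (nat_lit 26) (.e (nat_lit 426033) (nat_lit 0) .nil))))))) (.g (nat_lit 1) (.e (nat_lit 88371) (nat_lit 0) .nil) .nil)))))) 
(.nd (nat_lit 7) (.nd (nat_lit 8) (.nd (nat_lit 9) 
(.lf (nat_lit 471140) (.g (nat_lit 1170) (.e (nat_lit 3399) (nat_lit 211) (.e (nat_lit 647185) (nat_lit 6) (.e (nat_lit 188417) (nat_lit 0) (.e (nat_lit 2146) (nat_lit 142) (.e (nat_lit 704597) (nat_lit 6) (.e (nat_lit 188431) (nat_lit 20) .nil)))))) (.g (nat_lit 1) (.e (nat_lit 86849) (nat_lit 0) .nil) .nil))) 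
(.lf (nat_lit 471652) (.g (nat_lit 1112) (.e (nat_lit 3407) (nat_lit 212) (.e (nat_lit 655380) (nat_lit 6) (.e (nat_lit 188438) (nat_lit 20) (.e (nat_lit 3409) (nat_lit 212) (.e (nat_lit 655380) (nat_lit 6) (.e (nat_lit 188439) (nat_lit 20) .nil)))))) (.g (nat_lit 1) (.e (nat_lit 87854) (nat_lit 0) .nil) .nil)))) (.nd (nat_lit 9) 
(.lf (nat_lit 471396) (.g (nat_lit 2522) (.e (nat_lit 3406) (nat_lit 212) (.e (nat_lit 655373) (nat_lit 3) (.e (nat_lit 163973) (nat_lit 30) (.e (nat_lit 573484) (nat_lit 13) (.e (nat_lit 65610) (nat_lit 10) (.e (nat_lit 344117) (nat_lit 21) (.e (nat_lit 516151) (nat_lit 9) (.e (nat_lit 426043) (nat_lit 0) .nil)))))))) (.g (nat_lit 1) (.e (nat_lit 87422) (nat_lit 0) .nil) .nil))) 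
(.lf (nat_lit 471908) (.g (nat_lit 2596) (.e (nat_lit 3409) (nat_lit 212) (.e (nat_lit 655375) (nat_lit 3) (.e (nat_lit 163973) (nat_lit 30) (.e (nat_lit 573479) (nat_lit 13) (.e (nat_lit 65619) (nat_lit 10) (.e (nat_lit 344117) (nat_lit 21) (.e (nat_lit 516151) (nat_lit 9) (.e (nat_lit 426043) (nat_lit 0) .nil)))))))) (.g (nat_lit 1) (.e (nat_lit 88279) (nat_lit 0) .nil) .nil))))) 
(.nd (nat_lit 8) (.nd (nat_lit 9) 
(.lf (nat_lit 471268) (.g (nat_lit 5094) (.e (nat_lit 3402) (nat_lit 211) (.e (nat_lit 647181) (nat_lit 3) (.e (nat_lit 163977) (nat_lit 30) (.e (nat_lit 573485) (nat_lit 13) (.e (nat_lit 65619) (nat_lit 10) (.e (nat_lit 344117) (nat_lit 21) (.e (nat_lit 516151) (nat_lit 9) (.e (nat_lit 426022) (nat_lit 0) .nil)))))))) (.g (nat_lit 1) (.e (nat_lit 87163) (nat_lit 0) .nil) .nil))) 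
(.lf (nat_lit 471780) (.g (nat_lit 2292) (.e (nat_lit 3408) (nat_lit 212) (.e (nat_lit 655378) (nat_lit 4) (.e (nat_lit 172112) (nat_lit 10) (.e (nat_lit 434272) (nat_lit 38) (.e (nat_lit 655380) (nat_lit 6) (.e (nat_lit 188434) (nat_lit 20) .nil)))))) (.g (nat_lit 1) (.e (nat_lit 88083) (nat_lit 0) .nil) .nil)))) (.nd (nat_lit 9) 
(.lf (nat_lit 471524) (.g (nat_lit 1230) (.e (nat_lit 3406) (nat_lit 212) (.e (nat_lit 655380) (nat_lit 6) (.e (nat_lit 188438) (nat_lit 20) (.e (nat_lit 3408) (nat_lit 212) (.e (nat_lit 655380) (nat_lit 6) (.e (nat_lit 188439) (nat_lit 20) .nil)))))) (.g (nat_lit 1) (.e (nat_lit 87632) (nat_lit 0) .nil) .nil))) 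
(.lf (nat_lit 472036) (.g (nat_lit 2210) (.e (nat_lit 3409) (nat_lit 212) (.e (nat_lit 655378) (nat_lit 4) (.e (nat_lit 172115) (nat_lit 10) (.e (nat_lit 434271) (nat_lit 38) (.e (nat_lit 655380) (nat_lit 6) (.e (nat_lit 188438) (nat_lit 20) .nil)))))) (.g (nat_lit 1) (.e (nat_lit 88453) (nat_lit 0) .nil) .nil)))))))) 
(.nd (nat_lit 5) (.nd (nat_lit 6) (.nd (nat_lit 7) (.nd (nat_lit 8) (.nd (nat_lit 9) 
(.lf (nat_lit 471060) (.g (nat_lit 1752) (.e (nat_lit 3399) (nat_lit 211) (.e (nat_lit 647183) (nat_lit 4) (.e (nat_lit 172080) (nat_lit 7) (.e (nat_lit 409642) (nat_lit 17) (.e (nat_lit 294974) (nat_lit 29) (.e (nat_lit 442398) (nat_lit 20) .nil)))))) (.g (nat_lit 1) (.e (nat_lit 86752) (nat_lit 0) .nil) .nil))) 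
(.lf (nat_lit 471572) (.g (nat_lit 4659) (.e (nat_lit 3407) (nat_lit 212) (.e (nat_lit 655375) (nat_lit 3) (.e (nat_lit 163978) (nat_lit 30) (.e (nat_lit 573490) (nat_lit 15) (.e (nat_lit 81956) (nat_lit 23) (.e (nat_lit 98359) (nat_lit 26) (.e (nat_lit 426043) (nat_lit 0) .nil))))))) (.g (nat_lit 1) (.e (nat_lit 87712) (nat_lit 0) .nil) .nil)))) (.nd (nat_lit 9) 
(.lf (nat_lit 471316) (.g (nat_lit 3145) (.e (nat_lit 3402) (nat_lit 211) (.e (nat_lit 647183) (nat_lit 4) (.e (nat_lit 172106) (nat_lit 10) (.e (nat_lit 434209) (nat_lit 18) (.e (nat_lit 5547) (nat_lit 306) (.e (nat_lit 2650) (nat_lit 166) (.e (nat_lit 188427) (nat_lit 20) .nil))))))) (.g (nat_lit 1) (.e (nat_lit 87236) (nat_lit 0) .nil) .nil))) 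
(.lf (nat_lit 471828) (.g (nat_lit 442) (.e (nat_lit 3408) (nat_lit 212) (.e (nat_lit 655378) (nat_lit 4) (.e (nat_lit 172120) (nat_lit 12) .nil))) (.g (nat_lit 0) (.e (nat_lit 88136) (nat_lit 0) .nil) .nil))))) (.nd (nat_lit 8) (.nd (nat_lit 9) 
(.lf (nat_lit 471188) (.g (nat_lit 3600) (.e (nat_lit 3401) (nat_lit 211) (.e (nat_lit 647181) (nat_lit 3) (.e (nat_lit 163978) (nat_lit 30) (.e (nat_lit 573479) (nat_lit 13) (.e (nat_lit 65604) (nat_lit 9) (.e (nat_lit 336013) (nat_lit 2) (.e (nat_lit 90170) (nat_lit 13) (.e (nat_lit 172039) (nat_lit 0) .nil)))))))) (.g (nat_lit 1) (.e (nat_lit 86983) (nat_lit 0) .nil) .nil))) 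
(.lf (nat_lit 471700) (.g (nat_lit 4013) (.e (nat_lit 3408) (nat_lit 212) (.e (nat_lit 655375) (nat_lit 3) (.e (nat_lit 163978) (nat_lit 30) (.e (nat_lit 573483) (nat_lit 13) (.e (nat_lit 65610) (nat_lit 10) (.e (nat_lit 344117) (nat_lit 21) (.e (nat_lit 516151) (nat_lit 9) (.e (nat_lit 426043) (nat_lit 0) .nil)))))))) (.g (nat_lit 1) (.e (nat_lit 87946) (nat_lit 0) .nil) .nil)))) 
(.nd (nat_lit 9) 
(.lf (nat_lit 471444) (.g (nat_lit 1151) (.e (nat_lit 3406) (nat_lit 212) (.e (nat_lit 655378) (nat_lit 4) (.e (nat_lit 172094) (nat_lit 9) (.e (nat_lit 426025) (nat_lit 0) .nil)))) (.g (nat_lit 0) (.e (nat_lit 87512) (nat_lit 0) .nil) .nil))) 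
(.lf (nat_lit 471956) (.g (nat_lit 2850) (.e (nat_lit 3409) (nat_lit 212) (.e (nat_lit 655375) (nat_lit 3) (.e (nat_lit 163978) (nat_lit 30) (.e (nat_lit 573491) (nat_lit 15) (.e (nat_lit 81954) (nat_lit 23) (.e (nat_lit 98359) (nat_lit 26) (.e (nat_lit 426043) (nat_lit 0) .nil))))))) (.g (nat_lit 1) (.e (nat_lit 88333) (nat_lit 0) .nil) .nil)))))) 
(.nd (nat_lit 7) (.nd (nat_lit 8) (.nd (nat_lit 9) 
(.lf (nat_lit 471124) (.g (nat_lit 2225) (.e (nat_lit 3399) (nat_lit 211) (.e (nat_lit 647183) (nat_lit 4) (.e (nat_lit 172126) (nat_lit 14) (.e (nat_lit 491549) (nat_lit 9) (.e (nat_lit 336395) (nat_lit 27) (.e (nat_lit 426216) (nat_lit 9) (.e (nat_lit 426025) (nat_lit 0) .nil))))))) (.g (nat_lit 1) (.e (nat_lit 86818) (nat_lit 0) .nil) .nil))) 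
(.lf (nat_lit 471636) (.g (nat_lit 925) (.e (nat_lit 3407) (nat_lit 212) (.e (nat_lit 655380) (nat_lit 6) (.e (nat_lit 188420) (nat_lit 0) (.e (nat_lit 2056) (nat_lit 142) (.e (nat_lit 704598) (nat_lit 6) (.e (nat_lit 188439) (nat_lit 20) .nil)))))) (.g (nat_lit 1) (.e (nat_lit 87834) (nat_lit 0) .nil) .nil)))) (.nd (nat_lit 9) 
(.lf (nat_lit 471380) (.g (nat_lit 4506) (.e (nat_lit 3403) (nat_lit 212) (.e (nat_lit 655375) (nat_lit 3) (.e (nat_lit 163979) (nat_lit 30) (.e (nat_lit 573492) (nat_lit 15) (.e (nat_lit 81956) (nat_lit 23) (.e (nat_lit 98356) (nat_lit 26) (.e (nat_lit 425992) (nat_lit 0) .nil))))))) (.g (nat_lit 1) (.e (nat_lit 87352) (nat_lit 0) .nil) .nil))) 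
(.lf (nat_lit 471892) (.g (nat_lit 801) (.e (nat_lit 3408) (nat_lit 212) (.e (nat_lit 655380) (nat_lit 6) (.e (nat_lit 188453) (nat_lit 24) (.e (nat_lit 229666) (nat_lit 240) .nil)))) (.g (nat_lit 0) (.e (nat_lit 88226) (nat_lit 0) .nil) .nil))))) (.nd (nat_lit 8) (.nd (nat_lit 9) 
(.lf (nat_lit 471252) (.g (nat_lit 4353) (.e (nat_lit 3402) (nat_lit 211) (.e (nat_lit 647180) (nat_lit 3) (.e (nat_lit 163976) (nat_lit 30) (.e (nat_lit 573481) (nat_lit 13) (.e (nat_lit 65619) (nat_lit 10) (.e (nat_lit 344117) (nat_lit 21) (.e (nat_lit 516151) (nat_lit 9) (.e (nat_lit 426022) (nat_lit 0) .nil)))))))) (.g (nat_lit 1) (.e (nat_lit 87147) (nat_lit 0) .nil) .nil))) 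
(.lf (nat_lit 471764) (.g (nat_lit 2820) (.e (nat_lit 3408) (nat_lit 212) (.e (nat_lit 655378) (nat_lit 4) (.e (nat_lit 172106) (nat_lit 10) (.e (nat_lit 434271) (nat_lit 38) (.e (nat_lit 655380) (nat_lit 6) (.e (nat_lit 188441) (nat_lit 20) .nil)))))) (.g (nat_lit 1) (.e (nat_lit 88067) (nat_lit 0) .nil) .nil)))) (.nd (nat_lit 9) 
(.lf (nat_lit 471508) (.g (nat_lit 1873) (.e (nat_lit 3406) (nat_lit 212) (.e (nat_lit 655380) (nat_lit 6) (.e (nat_lit 188418) (nat_lit 0) (.e (nat_lit 2059) (nat_lit 142) (.e (nat_lit 704598) (nat_lit 6) (.e (nat_lit 188434) (nat_lit 20) .nil)))))) (.g (nat_lit 1) (.e (nat_lit 87615) (nat_lit 0) .nil) .nil))) 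
(.lf (nat_lit 472020) (.g (nat_lit 2227) (.e (nat_lit 3409) (nat_lit 212) (.e (nat_lit 655378) (nat_lit 4) (.e (nat_lit 172107) (nat_lit 10) (.e (nat_lit 434271) (nat_lit 38) (.e (nat_lit 655380) (nat_lit 6) (.e (nat_lit 188440) (nat_lit 20) .nil)))))) (.g (nat_lit 1) (.e (nat_lit 88435) (nat_lit 0) .nil) .nil))))))) (.nd (nat_lit 6) (.nd (nat_lit 7) (.nd (nat_lit 8) (.nd (nat_lit 9) 
(.lf (nat_lit 471092) (.g (nat_lit 1964) (.e (nat_lit 3399) (nat_lit 211) (.e (nat_lit 647183) (nat_lit 4) (.e (nat_lit 172120) (nat_lit 12) (.e (nat_lit 475198) (nat_lit 40) (.e (nat_lit 712448) (nat_lit 6) (.e (nat_lit 188431) (nat_lit 20) .nil)))))) (.g (nat_lit 1) (.e (nat_lit 86786) (nat_lit 0) .nil) .nil))) 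
(.lf (nat_lit 471604) (.g (nat_lit 461) (.e (nat_lit 3407) (nat_lit 212) (.e (nat_lit 655378) (nat_lit 4) (.e (nat_lit 172112) (nat_lit 10) .nil))) (.g (nat_lit 0) (.e (nat_lit 87783) (nat_lit 0) .nil) .nil)))) (.nd (nat_lit 9) 
(.lf (nat_lit 471348) (.g (nat_lit 1418) (.e (nat_lit 3402) (nat_lit 211) (.e (nat_lit 647183) (nat_lit 4) (.e (nat_lit 172118) (nat_lit 12) (.e (nat_lit 475197) (nat_lit 40) (.e (nat_lit 704598) (nat_lit 6) (.e (nat_lit 188431) (nat_lit 20) .nil)))))) (.g (nat_lit 1) (.e (nat_lit 87273) (nat_lit 0) .nil) .nil))) 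
(.lf (nat_lit 471860) (.g (nat_lit 1740) (.e (nat_lit 3408) (nat_lit 212) (.e (nat_lit 655380) (nat_lit 6) (.e (nat_lit 188420) (nat_lit 0) (.e (nat_lit 2059) (nat_lit 142) (.e (nat_lit 704598) (nat_lit 6) (.e (nat_lit 188435) (nat_lit 20) .nil)))))) (.g (nat_lit 1) (.e (nat_lit 88188) (nat_lit 0) .nil) .nil))))) (.nd (nat_lit 8) (.nd (nat_lit 9) 
(.lf (nat_lit 471220) (.g (nat_lit 1845) (.e (nat_lit 3401) (nat_lit 211) (.e (nat_lit 647183) (nat_lit 4) (.e (nat_lit 172116) (nat_lit 10) (.e (nat_lit 434272) (nat_lit 38) (.e (nat_lit 655380) (nat_lit 6) (.e (nat_lit 188427) (nat_lit 20) .nil)))))) (.g (nat_lit 1) (.e (nat_lit 87063) (nat_lit 0) .nil) .nil))) 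
(.lf (nat_lit 471732) (.g (nat_lit 3548) (.e (nat_lit 3408) (nat_lit 212) (.e (nat_lit 655375) (nat_lit 3) (.e (nat_lit 163979) (nat_lit 30) (.e (nat_lit 573492) (nat_lit 15) (.e (nat_lit 81956) (nat_lit 23) (.e (nat_lit 98360) (nat_lit 26) (.e (nat_lit 426033) (nat_lit 0) .nil))))))) (.g (nat_lit 1) (.e (nat_lit 87991) (nat_lit 0) .nil) .nil)))) (.nd (nat_lit 9) 
(.lf (nat_lit 471476) (.g (nat_lit 918) (.e (nat_lit 3406) (nat_lit 212) (.e (nat_lit 655378) (nat_lit 4) (.e (nat_lit 172116) (nat_lit 10) (.e (nat_lit 434271) (nat_lit 38) .nil)))) (.g (nat_lit 0) (.e (nat_lit 87555) (nat_lit 0) .nil) .nil))) 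
(.lf (nat_lit 471988) (.g (nat_lit 2438) (.e (nat_lit 3409) (nat_lit 212) (.e (nat_lit 655376) (nat_lit 4) (.e (nat_lit 172126) (nat_lit 14) (.e (nat_lit 491549) (nat_lit 9) (.e (nat_lit 336430) (nat_lit 29) (.e (nat_lit 442409) (nat_lit 20) .nil)))))) (.g (nat_lit 1) (.e (nat_lit 88392) (nat_lit 0) .nil) .nil)))))) (.nd (nat_lit 7) (.nd (nat_lit 8) (.nd (nat_lit 9) 
(.lf (nat_lit 471156) (.g (nat_lit 1839) (.e (nat_lit 3399) (nat_lit 211) (.e (nat_lit 647185) (nat_lit 6) (.e (nat_lit 188440) (nat_lit 20) (.e (nat_lit 3408) (nat_lit 212) (.e (nat_lit 655380) (nat_lit 6) (.e (nat_lit 188431) (nat_lit 20) .nil)))))) (.g (nat_lit 1) (.e (nat_lit 86867) (nat_lit 0) .nil) .nil))) 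
(.lf (nat_lit 471668) (.g (nat_lit 2450) (.e (nat_lit 3407) (nat_lit 212) (.e (nat_lit 655380) (nat_lit 6) (.e (nat_lit 188453) (nat_lit 24) (.e (nat_lit 229666) (nat_lit 240) (.e (nat_lit 2651) (nat_lit 166) (.e (nat_lit 188439) (nat_lit 20) .nil)))))) (.g (nat_lit 1) (.e (nat_lit 87877) (nat_lit 0) .nil) .nil)))) (.nd (nat_lit 9) 
(.lf (nat_lit 471412) (.g (nat_lit 4129) (.e (nat_lit 3406) (nat_lit 212) (.e (nat_lit 655375) (nat_lit 3) (.e (nat_lit 163978) (nat_lit 30) (.e (nat_lit 573482) (nat_lit 13) (.e (nat_lit 65604) (nat_lit 9) (.e (nat_lit 336013) (nat_lit 2) (.e (nat_lit 90170) (nat_lit 13) (.e (nat_lit 172042) (nat_lit 0) .nil)))))))) (.g (nat_lit 1) (.e (nat_lit 87441) (nat_lit 0) .nil) .nil))) 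
(.lf (nat_lit 471924) (.g (nat_lit 3412) (.e (nat_lit 3409) (nat_lit 212) (.e (nat_lit 655375) (nat_lit 3) (.e (nat_lit 163978) (nat_lit 30) (.e (nat_lit 573479) (nat_lit 13) (.e (nat_lit 65619) (nat_lit 10) (.e (nat_lit 344117) (nat_lit 21) (.e (nat_lit 516151) (nat_lit 9) (.e (nat_lit 426003) (nat_lit 0) .nil)))))))) (.g (nat_lit 1) (.e (nat_lit 88296) (nat_lit 0) .nil) .nil))))) 
(.nd (nat_lit 8) (.nd (nat_lit 9) 
(.lf (nat_lit 471284) (.g (nat_lit 3167) (.e (nat_lit 3402) (nat_lit 211) (.e (nat_lit 647181) (nat_lit 3) (.e (nat_lit 163979) (nat_lit 30) (.e (nat_lit 573491) (nat_lit 15) (.e (nat_lit 81951) (nat_lit 22) (.e (nat_lit 90170) (nat_lit 13) (.e (nat_lit 172035) (nat_lit 0) .nil))))))) (.g (nat_lit 1) (.e (nat_lit 87179) (nat_lit 0) .nil) .nil))) 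
(.lf (nat_lit 471796) (.g (nat_lit 2114) (.e (nat_lit 3408) (nat_lit 212) (.e (nat_lit 655378) (nat_lit 4) (.e (nat_lit 172115) (nat_lit 10) (.e (nat_lit 434271) (nat_lit 38) (.e (nat_lit 655380) (nat_lit 6) (.e (nat_lit 188435) (nat_lit 20) .nil)))))) (.g (nat_lit 1) (.e (nat_lit 88101) (nat_lit 0) .nil) .nil)))) (.nd (nat_lit 9) 
(.lf (nat_lit 471540) (.g (nat_lit 2914) (.e (nat_lit 3406) (nat_lit 212) (.e (nat_lit 655380) (nat_lit 6) (.e (nat_lit 188455) (nat_lit 24) (.e (nat_lit 229665) (nat_lit 240) (.e (nat_lit 2651) (nat_lit 166) (.e (nat_lit 188439) (nat_lit 20) .nil)))))) (.g (nat_lit 1) (.e (nat_lit 87652) (nat_lit 0) .nil) .nil))) 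
(.lf (nat_lit 472052) (.g (nat_lit 2075) (.e (nat_lit 3409) (nat_lit 212) (.e (nat_lit 655378) (nat_lit 4) (.e (nat_lit 172120) (nat_lit 12) (.e (nat_lit 475197) (nat_lit 40) (.e (nat_lit 704599) (nat_lit 6) .nil))))) (.g (nat_lit 0) (.e (nat_lit 88470) (nat_lit 0) .nil) .nil))))))))) (.nd (nat_lit 4) (.nd (nat_lit 5) (.nd (nat_lit 6) (.nd (nat_lit 7) (.nd (nat_lit 8) (.nd (nat_lit 9) 
(.lf (nat_lit 471052) (.g (nat_lit 4759) (.e (nat_lit 3399) (nat_lit 211) (.e (nat_lit 647181) (nat_lit 3) (.e (nat_lit 163979) (nat_lit 30) (.e (nat_lit 573493) (nat_lit 15) (.e (nat_lit 81956) (nat_lit 23) (.e (nat_lit 98361) (nat_lit 26) (.e (nat_lit 426025) (nat_lit 0) .nil))))))) (.g (nat_lit 1) (.e (nat_lit 86738) (nat_lit 0) .nil) .nil))) 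
(.lf (nat_lit 471564) (.g (nat_lit 4616) (.e (nat_lit 3407) (nat_lit 212) (.e (nat_lit 655375) (nat_lit 3) (.e (nat_lit 163978) (nat_lit 30) (.e (nat_lit 573482) (nat_lit 13) (.e (nat_lit 65604) (nat_lit 9) (.e (nat_lit 336013) (nat_lit 2) (.e (nat_lit 90170) (nat_lit 13) (.e (nat_lit 172049) (nat_lit 0) .nil)))))))) (.g (nat_lit 1) (.e (nat_lit 87704) (nat_lit 0) .nil) .nil)))) (.nd (nat_lit 9) 
(.lf (nat_lit 471308) (.g (nat_lit 1426) (.e (nat_lit 3402) (nat_lit 211) (.e (nat_lit 647183) (nat_lit 4) (.e (nat_lit 172089) (nat_lit 9) (.e (nat_lit 426025) (nat_lit 0) (.e (nat_lit 3399) (nat_lit 211) (.e (nat_lit 647185) (nat_lit 6) (.e (nat_lit 188431) (nat_lit 20) .nil))))))) (.g (nat_lit 1) (.e (nat_lit 87219) (nat_lit 0) .nil) .nil))) 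
(.lf (nat_lit 471820) (.g (nat_lit 2590) (.e (nat_lit 3408) (nat_lit 212) (.e (nat_lit 655378) (nat_lit 4) (.e (nat_lit 172118) (nat_lit 12) (.e (nat_lit 475199) (nat_lit 40) (.e (nat_lit 704598) (nat_lit 6) (.e (nat_lit 188434) (nat_lit 20) .nil)))))) (.g (nat_lit 1) (.e (nat_lit 88125) (nat_lit 0) .nil) .nil))))) (.nd (nat_lit 8) (.nd (nat_lit 9) 
(.lf (nat_lit 471180) (.g (nat_lit 3418) (.e (nat_lit 3401) (nat_lit 211) (.e (nat_lit 647181) (nat_lit 3) (.e (nat_lit 163977) (nat_lit 30) (.e (nat_lit 573485) (nat_lit 13) (.e (nat_lit 65619) (nat_lit 10) (.e (nat_lit 344117) (nat_lit 21) (.e (nat_lit 516151) (nat_lit 9) (.e (nat_lit 426003) (nat_lit 0) .nil)))))))) (.g (nat_lit 1) (.e (nat_lit 86975) (nat_lit 0) .nil) .nil))) 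
(.lf (nat_lit 471692) (.g (nat_lit 3110) (.e (nat_lit 3408) (nat_lit 212) (.e (nat_lit 655375) (nat_lit 3) (.e (nat_lit 163978) (nat_lit 30) (.e (nat_lit 573479) (nat_lit 13) (.e (nat_lit 65619) (nat_lit 10) .nil))))) (.g (nat_lit 0) (.e (nat_lit 87938) (nat_lit 0) .nil) .nil)))) (.nd (nat_lit 9) 
(.lf (nat_lit 471436) (.g (nat_lit 3896) (.e (nat_lit 3406) (nat_lit 212) (.e (nat_lit 655375) (nat_lit 3) (.e (nat_lit 163979) (nat_lit 30) (.e (nat_lit 573492) (nat_lit 15) (.e (nat_lit 81956) (nat_lit 23) (.e (nat_lit 98360) (nat_lit 26) (.e (nat_lit 426045) (nat_lit 0) .nil))))))) (.g (nat_lit 1) (.e (nat_lit 87472) (nat_lit 0) .nil) .nil))) 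
(.lf (nat_lit 471948) (.g (nat_lit 3169) (.e (nat_lit 3409) (nat_lit 212) (.e (nat_lit 655375) (nat_lit 3) (.e (nat_lit 163978) (nat_lit 30) (.e (nat_lit 573490) (nat_lit 15) (.e (nat_lit 81951) (nat_lit 22) .nil))))) (.g (nat_lit 0) (.e (nat_lit 88322) (nat_lit 0) .nil) .nil)))))) (.nd (nat_lit 7) (.nd (nat_lit 8) (.nd (nat_lit 9) 
(.lf (nat_lit 471116) (.g (nat_lit 1903) (.e (nat_lit 3399) (nat_lit 211) (.e (nat_lit 647183) (nat_lit 4) (.e (nat_lit 172126) (nat_lit 14) (.e (nat_lit 491548) (nat_lit 9) (.e (nat_lit 336398) (nat_lit 27) (.e (nat_lit 426216) (nat_lit 9) (.e (nat_lit 426025) (nat_lit 0) .nil))))))) (.g (nat_lit 1) (.e (nat_lit 86810) (nat_lit 0) .nil) .nil))) 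
(.lf (nat_lit 471628) (.g (nat_lit 2426) (.e (nat_lit 3407) (nat_lit 212) (.e (nat_lit 655378) (nat_lit 4) (.e (nat_lit 172120) (nat_lit 12) (.e (nat_lit 475198) (nat_lit 40) (.e (nat_lit 704598) (nat_lit 6) (.e (nat_lit 188439) (nat_lit 20) .nil)))))) (.g (nat_lit 1) (.e (nat_lit 87808) (nat_lit 0) .nil) .nil)))) (.nd (nat_lit 9) 
(.lf (nat_lit 471372) (.g (nat_lit 2842) (.e (nat_lit 3402) (nat_lit 211) (.e (nat_lit 647183) (nat_lit 4) (.e (nat_lit 172126) (nat_lit 14) (.e (nat_lit 491571) (nat_lit 13) (.e (nat_lit 393274) (nat_lit 23) (.e (nat_lit 426022) (nat_lit 0) .nil)))))) (.g (nat_lit 1) (.e (nat_lit 87297) (nat_lit 0) .nil) .nil))) 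
(.lf (nat_lit 471884) (.g (nat_lit 1333) (.e (nat_lit 3408) (nat_lit 212) (.e (nat_lit 655380) (nat_lit 6) (.e (nat_lit 188440) (nat_lit 20) (.e (nat_lit 3409) (nat_lit 212) (.e (nat_lit 655380) (nat_lit 6) (.e (nat_lit 188438) (nat_lit 20) .nil)))))) (.g (nat_lit 1) (.e (nat_lit 88212) (nat_lit 0) .nil) .nil))))) (.nd (nat_lit 8) (.nd (nat_lit 9) 
(.lf (nat_lit 471244) (.g (nat_lit 1568) (.e (nat_lit 3401) (nat_lit 211) (.e (nat_lit 647185) (nat_lit 6) (.e (nat_lit 188420) (nat_lit 0) (.e (nat_lit 2058) (nat_lit 142) (.e (nat_lit 704598) (nat_lit 6) (.e (nat_lit 188427) (nat_lit 20) .nil)))))) (.g (nat_lit 1) (.e (nat_lit 87118) (nat_lit 0) .nil) .nil))) 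
(.lf (nat_lit 471756) (.g (nat_lit 2190) (.e (nat_lit 3408) (nat_lit 212) (.e (nat_lit 655378) (nat_lit 4) (.e (nat_lit 172094) (nat_lit 9) (.e (nat_lit 426025) (nat_lit 0) (.e (nat_lit 3399) (nat_lit 211) (.e (nat_lit 647185) (nat_lit 6) (.e (nat_lit 188440) (nat_lit 20) .nil))))))) (.g (nat_lit 1) (.e (nat_lit 88052) (nat_lit 0) .nil) .nil)))) (.nd (nat_lit 9) 
(.lf (nat_lit 471500) (.g (nat_lit 2211) (.e (nat_lit 3406) (nat_lit 212) (.e (nat_lit 655378) (nat_lit 4) (.e (nat_lit 172125) (nat_lit 14) (.e (nat_lit 491550) (nat_lit 9) (.e (nat_lit 336430) (nat_lit 29) (.e (nat_lit 442402) (nat_lit 20) .nil)))))) (.g (nat_lit 1) (.e (nat_lit 87583) (nat_lit 0) .nil) .nil))) 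
(.lf (nat_lit 472012) (.g (nat_lit 1894) (.e (nat_lit 3409) (nat_lit 212) (.e (nat_lit 655378) (nat_lit 4) (.e (nat_lit 172106) (nat_lit 10) (.e (nat_lit 434209) (nat_lit 18) (.e (nat_lit 5548) (nat_lit 306) (.e (nat_lit 2648) (nat_lit 166) (.e (nat_lit 188434) (nat_lit 20) .nil))))))) (.g (nat_lit 1) (.e (nat_lit 88427) (nat_lit 0) .nil) .nil))))))) 
(.nd (nat_lit 6) (.nd (nat_lit 7) (.nd (nat_lit 8) (.nd (nat_lit 9) 
(.lf (nat_lit 471084) (.g (nat_lit 1359) (.e (nat_lit 3399) (nat_lit 211) (.e (nat_lit 647183) (nat_lit 4) (.e (nat_lit 172118) (nat_lit 12) (.e (nat_lit 475197) (nat_lit 40) (.e (nat_lit 704598) (nat_lit 6) .nil))))) (.g (nat_lit 0) (.e (nat_lit 86778) (nat_lit 0) .nil) .nil))) 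
(.lf (nat_lit 471596) (.g (nat_lit 899) (.e (nat_lit 3407) (nat_lit 212) (.e (nat_lit 655378) (nat_lit 4) (.e (nat_lit 172106) (nat_lit 10) (.e (nat_lit 434271) (nat_lit 38) .nil)))) (.g (nat_lit 0) (.e (nat_lit 87775) (nat_lit 0) .nil) .nil)))) (.nd (nat_lit 9) 
(.lf (nat_lit 471340) (.g (nat_lit 1983) (.e (nat_lit 3402) (nat_lit 211) (.e (nat_lit 647183) (nat_lit 4) (.e (nat_lit 172115) (nat_lit 10) (.e (nat_lit 434271) (nat_lit 38) (.e (nat_lit 655380) (nat_lit 6) (.e (nat_lit 188428) (nat_lit 20) .nil)))))) (.g (nat_lit 1) (.e (nat_lit 87265) (nat_lit 0) .nil) .nil))) 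
(.lf (nat_lit 471852) (.g (nat_lit 1868) (.e (nat_lit 3408) (nat_lit 212) (.e (nat_lit 655380) (nat_lit 6) (.e (nat_lit 188418) (nat_lit 0) (.e (nat_lit 2058) (nat_lit 142) (.e (nat_lit 704598) (nat_lit 6) (.e (nat_lit 188434) (nat_lit 20) .nil)))))) (.g (nat_lit 1) (.e (nat_lit 88180) (nat_lit 0) .nil) .nil))))) (.nd (nat_lit 8) (.nd (nat_lit 9) 
(.lf (nat_lit 471212) (.g (nat_lit 2170) (.e (nat_lit 3401) (nat_lit 211) (.e (nat_lit 647183) (nat_lit 4) (.e (nat_lit 172107) (nat_lit 10) (.e (nat_lit 434272) (nat_lit 38) (.e (nat_lit 655380) (nat_lit 6) (.e (nat_lit 188431) (nat_lit 20) .nil)))))) (.g (nat_lit 1) (.e (nat_lit 87044) (nat_lit 0) .nil) .nil))) 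
(.lf (nat_lit 471724) (.g (nat_lit 3821) (.e (nat_lit 3408) (nat_lit 212) (.e (nat_lit 655375) (nat_lit 3) (.e (nat_lit 163979) (nat_lit 30) (.e (nat_lit 573485) (nat_lit 13) (.e (nat_lit 65604) (nat_lit 9) (.e (nat_lit 336013) (nat_lit 2) (.e (nat_lit 90170) (nat_lit 13) (.e (nat_lit 172049) (nat_lit 0) .nil)))))))) (.g (nat_lit 1) (.e (nat_lit 87983) (nat_lit 0) .nil) .nil)))) (.nd (nat_lit 9) 
(.lf (nat_lit 471468) (.g (nat_lit 2126) (.e (nat_lit 3406) (nat_lit 212) (.e (nat_lit 655378) (nat_lit 4) (.e (nat_lit 172113) (nat_lit 10) (.e (nat_lit 434272) (nat_lit 38) (.e (nat_lit 655380) (nat_lit 6) (.e (nat_lit 188441) (nat_lit 20) .nil)))))) (.g (nat_lit 1) (.e (nat_lit 87546) (nat_lit 0) .nil) .nil))) 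
(.lf (nat_lit 471980) (.g (nat_lit 4274) (.e (nat_lit 3409) (nat_lit 212) (.e (nat_lit 655375) (nat_lit 3) (.e (nat_lit 163979) (nat_lit 30) (.e (nat_lit 573493) (nat_lit 15) (.e (nat_lit 81954) (nat_lit 23) (.e (nat_lit 98359) (nat_lit 26) (.e (nat_lit 426043) (nat_lit 0) .nil))))))) (.g (nat_lit 1) (.e (nat_lit 88379) (nat_lit 0) .nil) .nil)))))) 
(.nd (nat_lit 7) (.nd (nat_lit 8) (.nd (nat_lit 9) 
(.lf (nat_lit 471148) (.g (nat_lit 1916) (.e (nat_lit 3399) (nat_lit 211) (.e (nat_lit 647185) (nat_lit 6) (.e (nat_lit 188431) (nat_lit 20) (.e (nat_lit 3401) (nat_lit 211) (.e (nat_lit 647185) (nat_lit 6) (.e (nat_lit 188431) (nat_lit 20) .nil)))))) (.g (nat_lit 1) (.e (nat_lit 86859) (nat_lit 0) .nil) .nil))) 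
(.lf (nat_lit 471660) (.g (nat_lit 1286) (.e (nat_lit 3407) (nat_lit 212) (.e (nat_lit 655380) (nat_lit 6) (.e (nat_lit 188440) (nat_lit 20) (.e (nat_lit 3409) (nat_lit 212) (.e (nat_lit 655380) (nat_lit 6) (.e (nat_lit 188438) (nat_lit 20) .nil)))))) (.g (nat_lit 1) (.e (nat_lit 87862) (nat_lit 0) .nil) .nil)))) (.nd (nat_lit 9) 
(.lf (nat_lit 471404) (.g (nat_lit 3092) (.e (nat_lit 3406) (nat_lit 212) (.e (nat_lit 655375) (nat_lit 3) (.e (nat_lit 163978) (nat_lit 30) (.e (nat_lit 573479) (nat_lit 13) (.e (nat_lit 65619) (nat_lit 10) .nil))))) (.g (nat_lit 0) (.e (nat_lit 87433) (nat_lit 0) .nil) .nil))) 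
(.lf (nat_lit 471916) (.g (nat_lit 3625) (.e (nat_lit 3409) (nat_lit 212) (.e (nat_lit 655375) (nat_lit 3) (.e (nat_lit 163978) (nat_lit 30) (.e (nat_lit 573479) (nat_lit 13) (.e (nat_lit 65604) (nat_lit 9) .nil))))) (.g (nat_lit 0) (.e (nat_lit 88288) (nat_lit 0) .nil) .nil))))) (.nd (nat_lit 8) (.nd (nat_lit 9) 
(.lf (nat_lit 471276) (.g (nat_lit 4112) (.e (nat_lit 3402) (nat_lit 211) (.e (nat_lit 647181) (nat_lit 3) (.e (nat_lit 163977) (nat_lit 30) (.e (nat_lit 573493) (nat_lit 15) (.e (nat_lit 81956) (nat_lit 23) (.e (nat_lit 98359) (nat_lit 26) (.e (nat_lit 426023) (nat_lit 0) .nil))))))) (.g (nat_lit 1) (.e (nat_lit 87171) (nat_lit 0) .nil) .nil))) 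
(.lf (nat_lit 471788) (.g (nat_lit 2121) (.e (nat_lit 3408) (nat_lit 212) (.e (nat_lit 655378) (nat_lit 4) (.e (nat_lit 172113) (nat_lit 10) (.e (nat_lit 434271) (nat_lit 38) (.e (nat_lit 655380) (nat_lit 6) (.e (nat_lit 188439) (nat_lit 20) .nil)))))) (.g (nat_lit 1) (.e (nat_lit 88092) (nat_lit 0) .nil) .nil)))) (.nd (nat_lit 9) 
(.lf (nat_lit 471532) (.g (nat_lit 1806) (.e (nat_lit 3406) (nat_lit 212) (.e (nat_lit 655380) (nat_lit 6) (.e (nat_lit 188440) (nat_lit 20) (.e (nat_lit 3409) (nat_lit 212) (.e (nat_lit 655380) (nat_lit 6) (.e (nat_lit 188434) (nat_lit 20) .nil)))))) (.g (nat_lit 1) (.e (nat_lit 87640) (nat_lit 0) .nil) .nil))) 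
(.lf (nat_lit 472044) (.g (nat_lit 1617) (.e (nat_lit 3409) (nat_lit 212) (.e (nat_lit 655378) (nat_lit 4) (.e (nat_lit 172118) (nat_lit 12) (.e (nat_lit 475197) (nat_lit 40) (.e (nat_lit 704598) (nat_lit 6) (.e (nat_lit 188439) (nat_lit 20) .nil)))))) (.g (nat_lit 1) (.e (nat_lit 88461) (nat_lit 0) .nil) .nil)))))))) 
(.nd (nat_lit 5) (.nd (nat_lit 6) (.nd (nat_lit 7) (.nd (nat_lit 8) (.nd (nat_lit 9) 
(.lf (nat_lit 471068) (.g (nat_lit 1654) (.e (nat_lit 3399) (nat_lit 211) (.e (nat_lit 647183) (nat_lit 4) (.e (nat_lit 172097) (nat_lit 9) (.e (nat_lit 426025) (nat_lit 0) (.e (nat_lit 3399) (nat_lit 211) (.e (nat_lit 647185) (nat_lit 6) (.e (nat_lit 188431) (nat_lit 20) .nil))))))) (.g (nat_lit 1) (.e (nat_lit 86760) (nat_lit 0) .nil) .nil))) 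
(.lf (nat_lit 471580) (.g (nat_lit 4859) (.e (nat_lit 3407) (nat_lit 212) (.e (nat_lit 655375) (nat_lit 3) (.e (nat_lit 163979) (nat_lit 30) (.e (nat_lit 573482) (nat_lit 13) (.e (nat_lit 65619) (nat_lit 10) (.e (nat_lit 344117) (nat_lit 21) (.e (nat_lit 516151) (nat_lit 9) (.e (nat_lit 426043) (nat_lit 0) .nil)))))))) (.g (nat_lit 1) (.e (nat_lit 87730) (nat_lit 0) .nil) .nil)))) 
(.nd (nat_lit 9) 
(.lf (nat_lit 471324) (.g (nat_lit 1695) (.e (nat_lit 3402) (nat_lit 211) (.e (nat_lit 647183) (nat_lit 4) (.e (nat_lit 172107) (nat_lit 10) (.e (nat_lit 434271) (nat_lit 38) (.e (nat_lit 655380) (nat_lit 6) (.e (nat_lit 188428) (nat_lit 20) .nil)))))) (.g (nat_lit 1) (.e (nat_lit 87244) (nat_lit 0) .nil) .nil))) 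
(.lf (nat_lit 471836) (.g (nat_lit 1315) (.e (nat_lit 3408) (nat_lit 212) (.e (nat_lit 655378) (nat_lit 4) (.e (nat_lit 172120) (nat_lit 12) (.e (nat_lit 475199) (nat_lit 40) .nil)))) (.g (nat_lit 0) (.e (nat_lit 88145) (nat_lit 0) .nil) .nil))))) (.nd (nat_lit 8) (.nd (nat_lit 9) 
(.lf (nat_lit 471196) (.g (nat_lit 4671) (.e (nat_lit 3401) (nat_lit 211) (.e (nat_lit 647181) (nat_lit 3) (.e (nat_lit 163979) (nat_lit 30) (.e (nat_lit 573482) (nat_lit 13) (.e (nat_lit 65604) (nat_lit 9) (.e (nat_lit 336013) (nat_lit 2) (.e (nat_lit 90170) (nat_lit 13) (.e (nat_lit 172035) (nat_lit 0) .nil)))))))) (.g (nat_lit 1) (.e (nat_lit 86991) (nat_lit 0) .nil) .nil))) 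
(.lf (nat_lit 471708) (.g (nat_lit 4150) (.e (nat_lit 3408) (nat_lit 212) (.e (nat_lit 655375) (nat_lit 3) (.e (nat_lit 163978) (nat_lit 30) (.e (nat_lit 573490) (nat_lit 15) (.e (nat_lit 81953) (nat_lit 22) (.e (nat_lit 90170) (nat_lit 13) (.e (nat_lit 172042) (nat_lit 0) .nil))))))) (.g (nat_lit 1) (.e (nat_lit 87954) (nat_lit 0) .nil) .nil)))) (.nd (nat_lit 9) 
(.lf (nat_lit 471452) (.g (nat_lit 1655) (.e (nat_lit 3406) (nat_lit 212) (.e (nat_lit 655378) (nat_lit 4) (.e (nat_lit 172106) (nat_lit 10) (.e (nat_lit 434272) (nat_lit 38) (.e (nat_lit 655380) (nat_lit 6) (.e (nat_lit 188424) (nat_lit 20) .nil)))))) (.g (nat_lit 1) (.e (nat_lit 87530) (nat_lit 0) .nil) .nil))) 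
(.lf (nat_lit 471964) (.g (nat_lit 3861) (.e (nat_lit 3409) (nat_lit 212) (.e (nat_lit 655375) (nat_lit 3) (.e (nat_lit 163979) (nat_lit 30) (.e (nat_lit 573482) (nat_lit 13) (.e (nat_lit 65604) (nat_lit 9) (.e (nat_lit 336028) (nat_lit 3) (.e (nat_lit 98359) (nat_lit 26) (.e (nat_lit 426042) (nat_lit 0) .nil)))))))) (.g (nat_lit 1) (.e (nat_lit 88361) (nat_lit 0) .nil) .nil)))))) 
(.nd (nat_lit 7) (.nd (nat_lit 8) (.nd (nat_lit 9) 
(.lf (nat_lit 471132) (.g (nat_lit 2103) (.e (nat_lit 3399) (nat_lit 211) (.e (nat_lit 647183) (nat_lit 4) (.e (nat_lit 172126) (nat_lit 14) (.e (nat_lit 491569) (nat_lit 13) (.e (nat_lit 401152) (nat_lit 23) .nil))))) (.g (nat_lit 0) (.e (nat_lit 86826) (nat_lit 0) .nil) .nil))) 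
(.lf (nat_lit 471644) (.g (nat_lit 1691) (.e (nat_lit 3407) (nat_lit 212) (.e (nat_lit 655380) (nat_lit 6) (.e (nat_lit 188434) (nat_lit 20) (.e (nat_lit 3409) (nat_lit 212) (.e (nat_lit 655380) (nat_lit 6) (.e (nat_lit 188439) (nat_lit 20) .nil)))))) (.g (nat_lit 1) (.e (nat_lit 87846) (nat_lit 0) .nil) .nil)))) (.nd (nat_lit 9) 
(.lf (nat_lit 471388) (.g (nat_lit 2146) (.e (nat_lit 3403) (nat_lit 212) (.e (nat_lit 655378) (nat_lit 4) (.e (nat_lit 172124) (nat_lit 14) (.e (nat_lit 491549) (nat_lit 9) (.e (nat_lit 336443) (nat_lit 32) (.e (nat_lit 466960) (nat_lit 20) .nil)))))) (.g (nat_lit 1) (.e (nat_lit 87382) (nat_lit 0) .nil) .nil))) 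
(.lf (nat_lit 471900) (.g (nat_lit 2991) (.e (nat_lit 3409) (nat_lit 212) (.e (nat_lit 655364) (nat_lit 0) (.e (nat_lit 2988) (nat_lit 186) (.e (nat_lit 442374) (nat_lit 0) (.e (nat_lit 2059) (nat_lit 142) (.e (nat_lit 704599) (nat_lit 6) (.e (nat_lit 188440) (nat_lit 20) .nil))))))) (.g (nat_lit 1) (.e (nat_lit 88241) (nat_lit 0) .nil) .nil))))) (.nd (nat_lit 8) (.nd (nat_lit 9) 
(.lf (nat_lit 471260) (.g (nat_lit 4042) (.e (nat_lit 3402) (nat_lit 211) (.e (nat_lit 647181) (nat_lit 3) (.e (nat_lit 163977) (nat_lit 30) (.e (nat_lit 573482) (nat_lit 13) (.e (nat_lit 65604) (nat_lit 9) (.e (nat_lit 336028) (nat_lit 3) (.e (nat_lit 98359) (nat_lit 26) (.e (nat_lit 426022) (nat_lit 0) .nil)))))))) (.g (nat_lit 1) (.e (nat_lit 87155) (nat_lit 0) .nil) .nil))) 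
(.lf (nat_lit 471772) (.g (nat_lit 2508) (.e (nat_lit 3408) (nat_lit 212) (.e (nat_lit 655378) (nat_lit 4) (.e (nat_lit 172107) (nat_lit 10) (.e (nat_lit 434271) (nat_lit 38) (.e (nat_lit 655380) (nat_lit 6) (.e (nat_lit 188441) (nat_lit 20) .nil)))))) (.g (nat_lit 1) (.e (nat_lit 88075) (nat_lit 0) .nil) .nil)))) (.nd (nat_lit 9) 
(.lf (nat_lit 471516) (.g (nat_lit 140) (.e (nat_lit 3406) (nat_lit 212) (.e (nat_lit 655380) (nat_lit 6) (.e (nat_lit 196352) (nat_lit 4) .nil))) (.g (nat_lit 0) (.e (nat_lit 87623) (nat_lit 0) .nil) .nil))) 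
(.lf (nat_lit 472028) (.g (nat_lit 2075) (.e (nat_lit 3409) (nat_lit 212) (.e (nat_lit 655378) (nat_lit 4) (.e (nat_lit 172113) (nat_lit 10) (.e (nat_lit 434209) (nat_lit 18) (.e (nat_lit 5548) (nat_lit 306) .nil))))) (.g (nat_lit 0) (.e (nat_lit 88444) (nat_lit 0) .nil) .nil))))))) (.nd (nat_lit 6) (.nd (nat_lit 7) (.nd (nat_lit 8) (.nd (nat_lit 9) 
(.lf (nat_lit 471100) (.g (nat_lit 3583) (.e (nat_lit 3399) (nat_lit 211) (.e (nat_lit 647183) (nat_lit 4) (.e (nat_lit 172124) (nat_lit 14) (.e (nat_lit 491549) (nat_lit 9) (.e (nat_lit 336395) (nat_lit 27) (.e (nat_lit 426211) (nat_lit 9) (.e (nat_lit 426025) (nat_lit 0) .nil))))))) (.g (nat_lit 1) (.e (nat_lit 86794) (nat_lit 0) .nil) .nil))) 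
(.lf (nat_lit 471612) (.g (nat_lit 2142) (.e (nat_lit 3407) (nat_lit 212) (.e (nat_lit 655378) (nat_lit 4) (.e (nat_lit 172113) (nat_lit 10) (.e (nat_lit 434272) (nat_lit 38) (.e (nat_lit 655380) (nat_lit 6) (.e (nat_lit 188439) (nat_lit 20) .nil)))))) (.g (nat_lit 1) (.e (nat_lit 87791) (nat_lit 0) .nil) .nil)))) (.nd (nat_lit 9) 
(.lf (nat_lit 471356) (.g (nat_lit 1550) (.e (nat_lit 3402) (nat_lit 211) (.e (nat_lit 647183) (nat_lit 4) (.e (nat_lit 172120) (nat_lit 12) (.e (nat_lit 475197) (nat_lit 40) (.e (nat_lit 712448) (nat_lit 6) (.e (nat_lit 188427) (nat_lit 20) .nil)))))) (.g (nat_lit 1) (.e (nat_lit 87281) (nat_lit 0) .nil) .nil))) 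
(.lf (nat_lit 471868) (.g (nat_lit 1188) (.e (nat_lit 3408) (nat_lit 212) (.e (nat_lit 655380) (nat_lit 6) (.e (nat_lit 188435) (nat_lit 20) (.e (nat_lit 3408) (nat_lit 212) (.e (nat_lit 655380) (nat_lit 6) (.e (nat_lit 188439) (nat_lit 20) .nil)))))) (.g (nat_lit 1) (.e (nat_lit 88196) (nat_lit 0) .nil) .nil))))) (.nd (nat_lit 8) (.nd (nat_lit 9) 
(.lf (nat_lit 471228) (.g (nat_lit 1831) (.e (nat_lit 3401) (nat_lit 211) (.e (nat_lit 647183) (nat_lit 4) (.e (nat_lit 172124) (nat_lit 14) (.e (nat_lit 491549) (nat_lit 9) (.e (nat_lit 336426) (nat_lit 29) .nil))))) (.g (nat_lit 0) (.e (nat_lit 87084) (nat_lit 0) .nil) .nil))) 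
(.lf (nat_lit 471740) (.g (nat_lit 4361) (.e (nat_lit 3408) (nat_lit 212) (.e (nat_lit 655375) (nat_lit 3) (.e (nat_lit 163979) (nat_lit 30) (.e (nat_lit 573493) (nat_lit 15) (.e (nat_lit 81956) (nat_lit 23) (.e (nat_lit 98359) (nat_lit 26) (.e (nat_lit 426043) (nat_lit 0) .nil))))))) (.g (nat_lit 1) (.e (nat_lit 87999) (nat_lit 0) .nil) .nil)))) (.nd (nat_lit 9) 
(.lf (nat_lit 471484) (.g (nat_lit 1462) (.e (nat_lit 3406) (nat_lit 212) (.e (nat_lit 655378) (nat_lit 4) (.e (nat_lit 172118) (nat_lit 12) (.e (nat_lit 475197) (nat_lit 40) (.e (nat_lit 704598) (nat_lit 6) .nil))))) (.g (nat_lit 0) (.e (nat_lit 87563) (nat_lit 0) .nil) .nil))) 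
(.lf (nat_lit 471996) (.g (nat_lit 399) (.e (nat_lit 3409) (nat_lit 212) (.e (nat_lit 655378) (nat_lit 4) (.e (nat_lit 172080) (nat_lit 7) .nil))) (.g (nat_lit 0) (.e (nat_lit 88407) (nat_lit 0) .nil) .nil)))))) (.nd (nat_lit 7) (.nd (nat_lit 8) (.nd (nat_lit 9) 
(.lf (nat_lit 471164) (.g (nat_lit 2098) (.e (nat_lit 3399) (nat_lit 211) (.e (nat_lit 647185) (nat_lit 6) (.e (nat_lit 188453) (nat_lit 24) (.e (nat_lit 229666) (nat_lit 240) (.e (nat_lit 2651) (nat_lit 166) (.e (nat_lit 188431) (nat_lit 20) .nil)))))) (.g (nat_lit 1) (.e (nat_lit 86879) (nat_lit 0) .nil) .nil))) 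
(.lf (nat_lit 471676) (.g (nat_lit 2871) (.e (nat_lit 3408) (nat_lit 212) (.e (nat_lit 655373) (nat_lit 3) (.e (nat_lit 163973) (nat_lit 30) (.e (nat_lit 573479) (nat_lit 13) (.e (nat_lit 65619) (nat_lit 10) (.e (nat_lit 344117) (nat_lit 21) (.e (nat_lit 516151) (nat_lit 9) (.e (nat_lit 426043) (nat_lit 0) .nil)))))))) (.g (nat_lit 1) (.e (nat_lit 87920) (nat_lit 0) .nil) .nil)))) 
(.nd (nat_lit 9) 
(.lf (nat_lit 471420) (.g (nat_lit 2214) (.e (nat_lit 3406) (nat_lit 212) (.e (nat_lit 655375) (nat_lit 3) (.e (nat_lit 163978) (nat_lit 30) (.e (nat_lit 573490) (nat_lit 15) .nil)))) (.g (nat_lit 0) (.e (nat_lit 87449) (nat_lit 0) .nil) .nil))) 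
(.lf (nat_lit 471932) (.g (nat_lit 3084) (.e (nat_lit 3409) (nat_lit 212) (.e (nat_lit 655375) (nat_lit 3) (.e (nat_lit 163978) (nat_lit 30) (.e (nat_lit 573482) (nat_lit 13) (.e (nat_lit 65598) (nat_lit 9) .nil))))) (.g (nat_lit 0) (.e (nat_lit 88304) (nat_lit 0) .nil) .nil))))) (.nd (nat_lit 8) (.nd (nat_lit 9) 
(.lf (nat_lit 471292) (.g (nat_lit 1243) (.e (nat_lit 3402) (nat_lit 211) (.e (nat_lit 647183) (nat_lit 4) (.e (nat_lit 172079) (nat_lit 7) (.e (nat_lit 409642) (nat_lit 17) (.e (nat_lit 302848) (nat_lit 29) .nil))))) (.g (nat_lit 0) (.e (nat_lit 87202) (nat_lit 0) .nil) .nil))) 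
(.lf (nat_lit 471804) (.g (nat_lit 1554) (.e (nat_lit 3408) (nat_lit 212) (.e (nat_lit 655378) (nat_lit 4) (.e (nat_lit 172116) (nat_lit 10) (.e (nat_lit 434271) (nat_lit 38) (.e (nat_lit 655380) (nat_lit 6) (.e (nat_lit 188435) (nat_lit 20) .nil)))))) (.g (nat_lit 1) (.e (nat_lit 88109) (nat_lit 0) .nil) .nil)))) (.nd (nat_lit 9) 
(.lf (nat_lit 471548) (.g (nat_lit 3843) (.e (nat_lit 3407) (nat_lit 212) (.e (nat_lit 655375) (nat_lit 3) (.e (nat_lit 163977) (nat_lit 30) (.e (nat_lit 573482) (nat_lit 13) (.e (nat_lit 65604) (nat_lit 9) (.e (nat_lit 336028) (nat_lit 3) (.e (nat_lit 98359) (nat_lit 26) (.e (nat_lit 426043) (nat_lit 0) .nil)))))))) (.g (nat_lit 1) (.e (nat_lit 87688) (nat_lit 0) .nil) .nil))) 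
(.lf (nat_lit 472060) (.g (nat_lit 1982) (.e (nat_lit 3409) (nat_lit 212) (.e (nat_lit 655378) (nat_lit 4) (.e (nat_lit 172125) (nat_lit 14) (.e (nat_lit 491550) (nat_lit 9) (.e (nat_lit 336430) (nat_lit 29) (.e (nat_lit 442402) (nat_lit 20) .nil)))))) (.g (nat_lit 1) (.e (nat_lit 88478) (nat_lit 0) .nil) .nil))))))))))) 
(.nd (nat_lit 2) (.nd (nat_lit 3) (.nd (nat_lit 4) (.nd (nat_lit 5) (.nd (nat_lit 6) 
(.nd (nat_lit 7) (.nd (nat_lit 8) (.nd (nat_lit 9) 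
(.lf (nat_lit 471042) (.g (nat_lit 3663) (.e (nat_lit 3399) (nat_lit 211) (.e (nat_lit 647181) (nat_lit 3) (.e (nat_lit 163979) (nat_lit 30) (.e (nat_lit 573482) (nat_lit 13) (.e (nat_lit 65604) (nat_lit 9) (.e (nat_lit 336028) (nat_lit 3) (.e (nat_lit 98359) (nat_lit 26) (.e (nat_lit 426023) (nat_lit 0) .nil)))))))) (.g (nat_lit 1) (.e (nat_lit 86728) (nat_lit 0) .nil) .nil))) 
(.lf (nat_lit 471554) (.g (nat_lit 3545) (.e (nat_lit 3407) (nat_lit 212) (.e (nat_lit 655375) (nat_lit 3) (.e (nat_lit 163977) (nat_lit 30) (.e (nat_lit 573491) (nat_lit 15) (.e (nat_lit 81951) (nat_lit 22) (.e (nat_lit 90170) (nat_lit 13) (.e (nat_lit 172049) (nat_lit 0) .nil))))))) (.g (nat_lit 1) (.e (nat_lit 87694) (nat_lit 0) .nil) .nil)))) (.nd (nat_lit 9) 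
(.lf (nat_lit 471298) (.g (nat_lit 1723) (.e (nat_lit 3402) (nat_lit 211) (.e (nat_lit 647183) (nat_lit 4) (.e (nat_lit 172080) (nat_lit 7) (.e (nat_lit 409642) (nat_lit 17) (.e (nat_lit 294974) (nat_lit 29) (.e (nat_lit 442396) (nat_lit 20) .nil)))))) (.g (nat_lit 1) (.e (nat_lit 87208) (nat_lit 0) .nil) .nil))) 
(.lf (nat_lit 471810) (.g (nat_lit 1645) (.e (nat_lit 3408) (nat_lit 212) (.e (nat_lit 655378) (nat_lit 4) (.e (nat_lit 172116) (nat_lit 10) (.e (nat_lit 434272) (nat_lit 38) (.e (nat_lit 655380) (nat_lit 6) (.e (nat_lit 188438) (nat_lit 20) .nil)))))) (.g (nat_lit 1) (.e (nat_lit 88115) (nat_lit 0) .nil) .nil))))) (.nd (nat_lit 8) (.nd (nat_lit 9) 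
(.lf (nat_lit 471170) (.g (nat_lit 3788) (.e (nat_lit 3401) (nat_lit 211) (.e (nat_lit 647180) (nat_lit 3) (.e (nat_lit 163979) (nat_lit 30) (.e (nat_lit 573482) (nat_lit 13) (.e (nat_lit 65604) (nat_lit 9) (.e (nat_lit 336013) (nat_lit 2) (.e (nat_lit 90170) (nat_lit 13) (.e (nat_lit 172035) (nat_lit 0) .nil)))))))) (.g (nat_lit 1) (.e (nat_lit 86964) (nat_lit 0) .nil) .nil))) 
(.lf (nat_lit 471682) (.g (nat_lit 4101) (.e (nat_lit 3408) (nat_lit 212) (.e (nat_lit 655375) (nat_lit 3) (.e (nat_lit 163977) (nat_lit 30) (.e (nat_lit 573485) (nat_lit 13) (.e (nat_lit 65604) (nat_lit 9) (.e (nat_lit 336013) (nat_lit 2) (.e (nat_lit 90170) (nat_lit 13) (.e (nat_lit 172049) (nat_lit 0) .nil)))))))) (.g (nat_lit 1) (.e (nat_lit 87928) (nat_lit 0) .nil) .nil)))) (.nd (nat_lit 9) 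
(.lf (nat_lit 471426) (.g (nat_lit 1184) (.e (nat_lit 3406) (nat_lit 212) (.e (nat_lit 655375) (nat_lit 3) (.e (nat_lit 163978) (nat_lit 30) (.e (nat_lit 573493) (nat_lit 15) .nil)))) (.g (nat_lit 0) (.e (nat_lit 87455) (nat_lit 0) .nil) .nil))) 
(.lf (nat_lit 471938) (.g (nat_lit 2701) (.e (nat_lit 3409) (nat_lit 212) (.e (nat_lit 655375) (nat_lit 3) (.e (nat_lit 163978) (nat_lit 30) (.e (nat_lit 573483) (nat_lit 13) (.e (nat_lit 65604) (nat_lit 9) (.e (nat_lit 336013) (nat_lit 2) (.e (nat_lit 90170) (nat_lit 13) (.e (nat_lit 172049) (nat_lit 0) .nil)))))))) (.g (nat_lit 1) (.e (nat_lit 88310) (nat_lit 0) .nil) .nil)))))) 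
(.nd (nat_lit 7) (.nd (nat_lit 8) (.nd (nat_lit 9) 
(.lf (nat_lit 471106) (.g (nat_lit 2597) (.e (nat_lit 3399) (nat_lit 211) (.e (nat_lit 647183) (nat_lit 4) (.e (nat_lit 172124) (nat_lit 14) (.e (nat_lit 491569) (nat_lit 13) (.e (nat_lit 393277) (nat_lit 23) (.e (nat_lit 426025) (nat_lit 0) .nil)))))) (.g (nat_lit 1) (.e (nat_lit 86800) (nat_lit 0) .nil) .nil))) 
(.lf (nat_lit 471618) (.g (nat_lit 1689) (.e (nat_lit 3407) (nat_lit 212) (.e (nat_lit 655378) (nat_lit 4) (.e (nat_lit 172116) (nat_lit 10) (.e (nat_lit 434271) (nat_lit 38) (.e (nat_lit 655380) (nat_lit 6) (.e (nat_lit 188439) (nat_lit 20) .nil)))))) (.g (nat_lit 1) (.e (nat_lit 87798) (nat_lit 0) .nil) .nil)))) (.nd (nat_lit 9) 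
(.lf (nat_lit 471362) (.g (nat_lit 2141) (.e (nat_lit 3402) (nat_lit 211) (.e (nat_lit 647183) (nat_lit 4) (.e (nat_lit 172124) (nat_lit 14) (.e (nat_lit 491548) (nat_lit 9) (.e (nat_lit 336430) (nat_lit 29) (.e (nat_lit 442395) (nat_lit 20) .nil)))))) (.g (nat_lit 1) (.e (nat_lit 87287) (nat_lit 0) .nil) .nil))) 
(.lf (nat_lit 471874) (.g (nat_lit 1193) (.e (nat_lit 3408) (nat_lit 212) (.e (nat_lit 655380) (nat_lit 6) (.e (nat_lit 188439) (nat_lit 20) (.e (nat_lit 3406) (nat_lit 212) (.e (nat_lit 655380) (nat_lit 6) (.e (nat_lit 188435) (nat_lit 20) .nil)))))) (.g (nat_lit 1) (.e (nat_lit 88202) (nat_lit 0) .nil) .nil))))) (.nd (nat_lit 8) (.nd (nat_lit 9) 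
(.lf (nat_lit 471234) (.g (nat_lit 2879) (.e (nat_lit 3401) (nat_lit 211) (.e (nat_lit 647183) (nat_lit 4) (.e (nat_lit 172126) (nat_lit 14) (.e (nat_lit 491549) (nat_lit 9) (.e (nat_lit 336430) (nat_lit 29) (.e (nat_lit 442399) (nat_lit 20) .nil)))))) (.g (nat_lit 1) (.e (nat_lit 87093) (nat_lit 0) .nil) .nil))) 
(.lf (nat_lit 471746) (.g (nat_lit 2029) (.e (nat_lit 3408) (nat_lit 212) (.e (nat_lit 655376) (nat_lit 4) (.e (nat_lit 172120) (nat_lit 12) (.e (nat_lit 475199) (nat_lit 40) (.e (nat_lit 704598) (nat_lit 6) (.e (nat_lit 188435) (nat_lit 20) .nil)))))) (.g (nat_lit 1) (.e (nat_lit 88006) (nat_lit 0) .nil) .nil)))) (.nd (nat_lit 9) 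
(.lf (nat_lit 471490) (.g (nat_lit 2161) (.e (nat_lit 3406) (nat_lit 212) (.e (nat_lit 655378) (nat_lit 4) (.e (nat_lit 172118) (nat_lit 12) (.e (nat_lit 475199) (nat_lit 40) (.e (nat_lit 704598) (nat_lit 6) (.e (nat_lit 188439) (nat_lit 20) .nil)))))) (.g (nat_lit 1) (.e (nat_lit 87569) (nat_lit 0) .nil) .nil))) 
(.lf (nat_lit 472002) (.g (nat_lit 2056) (.e (nat_lit 3409) (nat_lit 212) (.e (nat_lit 655378) (nat_lit 4) (.e (nat_lit 172082) (nat_lit 7) (.e (nat_lit 409642) (nat_lit 17) (.e (nat_lit 294974) (nat_lit 29) (.e (nat_lit 442408) (nat_lit 20) .nil)))))) (.g (nat_lit 1) (.e (nat_lit 88414) (nat_lit 0) .nil) .nil))))))) (.nd (nat_lit 6) (.nd (nat_lit 7) (.nd (nat_lit 8) (.nd (nat_lit 9) 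
(.lf (nat_lit 471074) (.g (nat_lit 1940) (.e (nat_lit 3399) (nat_lit 211) (.e (nat_lit 647183) (nat_lit 4) (.e (nat_lit 172106) (nat_lit 10) (.e (nat_lit 434271) (nat_lit 38) (.e (nat_lit 655380) (nat_lit 6) (.e (nat_lit 188430) (nat_lit 20) .nil)))))) (.g (nat_lit 1) (.e (nat_lit 86766) (nat_lit 0) .nil) .nil))) 
(.lf (nat_lit 471586) (.g (nat_lit 3224) (.e (nat_lit 3407) (nat_lit 212) (.e (nat_lit 655375) (nat_lit 3) (.e (nat_lit 163979) (nat_lit 30) (.e (nat_lit 573492) (nat_lit 15) (.e (nat_lit 81956) (nat_lit 23) (.e (nat_lit 98356) (nat_lit 26) (.e (nat_lit 433920) (nat_lit 0) .nil))))))) (.g (nat_lit 1) (.e (nat_lit 87736) (nat_lit 0) .nil) .nil)))) (.nd (nat_lit 9) 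
(.lf (nat_lit 471330) (.g (nat_lit 2082) (.e (nat_lit 3402) (nat_lit 211) (.e (nat_lit 647183) (nat_lit 4) (.e (nat_lit 172112) (nat_lit 10) (.e (nat_lit 434271) (nat_lit 38) (.e (nat_lit 655380) (nat_lit 6) (.e (nat_lit 188431) (nat_lit 20) .nil)))))) (.g (nat_lit 1) (.e (nat_lit 87250) (nat_lit 0) .nil) .nil))) 
(.lf (nat_lit 471842) (.g (nat_lit 2876) (.e (nat_lit 3408) (nat_lit 212) (.e (nat_lit 655378) (nat_lit 4) (.e (nat_lit 172124) (nat_lit 14) (.e (nat_lit 491549) (nat_lit 9) (.e (nat_lit 336430) (nat_lit 29) (.e (nat_lit 442402) (nat_lit 20) .nil)))))) (.g (nat_lit 1) (.e (nat_lit 88154) (nat_lit 0) .nil) .nil))))) (.nd (nat_lit 8) (.nd (nat_lit 9) 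
(.lf (nat_lit 471202) (.g (nat_lit 2911) (.e (nat_lit 3401) (nat_lit 211) (.e (nat_lit 647181) (nat_lit 3) (.e (nat_lit 163979) (nat_lit 30) (.e (nat_lit 573492) (nat_lit 15) (.e (nat_lit 81956) (nat_lit 23) (.e (nat_lit 98355) (nat_lit 26) (.e (nat_lit 425998) (nat_lit 0) .nil))))))) (.g (nat_lit 1) (.e (nat_lit 86997) (nat_lit 0) .nil) .nil))) 
(.lf (nat_lit 471714) (.g (nat_lit 4432) (.e (nat_lit 3408) (nat_lit 212) (.e (nat_lit 655375) (nat_lit 3) (.e (nat_lit 163978) (nat_lit 30) (.e (nat_lit 573493) (nat_lit 15) (.e (nat_lit 81951) (nat_lit 22) (.e (nat_lit 90170) (nat_lit 13) (.e (nat_lit 172042) (nat_lit 0) .nil))))))) (.g (nat_lit 1) (.e (nat_lit 87961) (nat_lit 0) .nil) .nil)))) (.nd (nat_lit 9) 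
(.lf (nat_lit 471458) (.g (nat_lit 1788) (.e (nat_lit 3406) (nat_lit 212) (.e (nat_lit 655378) (nat_lit 4) (.e (nat_lit 172112) (nat_lit 10) (.e (nat_lit 434271) (nat_lit 38) (.e (nat_lit 655380) (nat_lit 6) (.e (nat_lit 188439) (nat_lit 20) .nil)))))) (.g (nat_lit 1) (.e (nat_lit 87536) (nat_lit 0) .nil) .nil))) 
(.lf (nat_lit 471970) (.g (nat_lit 3939) (.e (nat_lit 3409) (nat_lit 212) (.e (nat_lit 655375) (nat_lit 3) (.e (nat_lit 163979) (nat_lit 30) (.e (nat_lit 573492) (nat_lit 15) (.e (nat_lit 81956) (nat_lit 23) (.e (nat_lit 98356) (nat_lit 26) (.e (nat_lit 433920) (nat_lit 0) .nil))))))) (.g (nat_lit 1) (.e (nat_lit 88369) (nat_lit 0) .nil) .nil)))))) 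
(.nd (nat_lit 7) (.nd (nat_lit 8) (.nd (nat_lit 9) 
(.lf (nat_lit 471138) (.g (nat_lit 2659) (.e (nat_lit 3399) (nat_lit 211) (.e (nat_lit 647183) (nat_lit 4) (.e (nat_lit 172126) (nat_lit 14) (.e (nat_lit 491571) (nat_lit 13) (.e (nat_lit 401152) (nat_lit 23) .nil))))) (.g (nat_lit 0) (.e (nat_lit 86832) (nat_lit 0) .nil) .nil))) 
(.lf (nat_lit 471650) (.g (nat_lit 1153) (.e (nat_lit 3407) (nat_lit 212) (.e (nat_lit 655380) (nat_lit 6) (.e (nat_lit 188438) (nat_lit 20) (.e (nat_lit 3408) (nat_lit 212) (.e (nat_lit 655380) (nat_lit 6) (.e (nat_lit 188439) (nat_lit 20) .nil)))))) (.g (nat_lit 1) (.e (nat_lit 87852) (nat_lit 0) .nil) .nil)))) (.nd (nat_lit 9) 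
(.lf (nat_lit 471394) (.g (nat_lit 2406) (.e (nat_lit 3406) (nat_lit 212) (.e (nat_lit 655363) (nat_lit 0) (.e (nat_lit 3004) (nat_lit 186) (.e (nat_lit 442374) (nat_lit 0) (.e (nat_lit 2059) (nat_lit 142) (.e (nat_lit 704598) (nat_lit 6) (.e (nat_lit 188439) (nat_lit 20) .nil))))))) (.g (nat_lit 1) (.e (nat_lit 87413) (nat_lit 0) .nil) .nil))) 
(.lf (nat_lit 471906) (.g (nat_lit 5369) (.e (nat_lit 3409) (nat_lit 212) (.e (nat_lit 655373) (nat_lit 3) (.e (nat_lit 163978) (nat_lit 30) (.e (nat_lit 573485) (nat_lit 13) (.e (nat_lit 65619) (nat_lit 10) (.e (nat_lit 344117) (nat_lit 21) (.e (nat_lit 516151) (nat_lit 9) (.e (nat_lit 426042) (nat_lit 0) .nil)))))))) (.g (nat_lit 1) (.e (nat_lit 88277) (nat_lit 0) .nil) .nil))))) 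
(.nd (nat_lit 8) (.nd (nat_lit 9) 
(.lf (nat_lit 471266) (.g (nat_lit 4000) (.e (nat_lit 3402) (nat_lit 211) (.e (nat_lit 647181) (nat_lit 3) (.e (nat_lit 163977) (nat_lit 30) (.e (nat_lit 573485) (nat_lit 13) (.e (nat_lit 65604) (nat_lit 9) (.e (nat_lit 336028) (nat_lit 3) (.e (nat_lit 98359) (nat_lit 26) (.e (nat_lit 426022) (nat_lit 0) .nil)))))))) (.g (nat_lit 1) (.e (nat_lit 87161) (nat_lit 0) .nil) .nil))) 
(.lf (nat_lit 471778) (.g (nat_lit 1691) (.e (nat_lit 3408) (nat_lit 212) (.e (nat_lit 655378) (nat_lit 4) (.e (nat_lit 172112) (nat_lit 10) (.e (nat_lit 434271) (nat_lit 38) (.e (nat_lit 655380) (nat_lit 6) (.e (nat_lit 188438) (nat_lit 20) .nil)))))) (.g (nat_lit 1) (.e (nat_lit 88081) (nat_lit 0) .nil) .nil)))) (.nd (nat_lit 9) 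
(.lf (nat_lit 471522) (.g (nat_lit 1129) (.e (nat_lit 3406) (nat_lit 212) (.e (nat_lit 655380) (nat_lit 6) (.e (nat_lit 188438) (nat_lit 20) (.e (nat_lit 3407) (nat_lit 212) (.e (nat_lit 655380) (nat_lit 6) (.e (nat_lit 188439) (nat_lit 20) .nil)))))) (.g (nat_lit 1) (.e (nat_lit 87630) (nat_lit 0) .nil) .nil))) 
(.lf (nat_lit 472034) (.g (nat_lit 1948) (.e (nat_lit 3409) (nat_lit 212) (.e (nat_lit 655378) (nat_lit 4) (.e (nat_lit 172115) (nat_lit 10) (.e (nat_lit 434209) (nat_lit 18) (.e (nat_lit 5548) (nat_lit 306) (.e (nat_lit 2648) (nat_lit 166) (.e (nat_lit 188435) (nat_lit 20) .nil))))))) (.g (nat_lit 1) (.e (nat_lit 88451) (nat_lit 0) .nil) .nil)))))))) 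
(.nd (nat_lit 5) (.nd (nat_lit 6) (.nd (nat_lit 7) (.nd (nat_lit 8) (.nd (nat_lit 9) 
(.lf (nat_lit 471058) (.g (nat_lit 1495) (.e (nat_lit 3399) (nat_lit 211) (.e (nat_lit 647183) (nat_lit 4) (.e (nat_lit 172080) (nat_lit 7) (.e (nat_lit 409618) (nat_lit 10) (.e (nat_lit 5363) (nat_lit 298) .nil))))) (.g (nat_lit 0) (.e (nat_lit 86750) (nat_lit 0) .nil) .nil))) 
(.lf (nat_lit 471570) (.g (nat_lit 1636) (.e (nat_lit 3407) (nat_lit 212) (.e (nat_lit 655375) (nat_lit 3) (.e (nat_lit 163978) (nat_lit 30) (.e (nat_lit 573490) (nat_lit 15) .nil)))) (.g (nat_lit 0) (.e (nat_lit 87710) (nat_lit 0) .nil) .nil)))) (.nd (nat_lit 9) 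
(.lf (nat_lit 471314) (.g (nat_lit 1943) (.e (nat_lit 3402) (nat_lit 211) (.e (nat_lit 647183) (nat_lit 4) (.e (nat_lit 172106) (nat_lit 10) (.e (nat_lit 434209) (nat_lit 18) (.e (nat_lit 5547) (nat_lit 306) .nil))))) (.g (nat_lit 0) (.e (nat_lit 87234) (nat_lit 0) .nil) .nil))) 
(.lf (nat_lit 471826) (.g (nat_lit 2328) (.e (nat_lit 3408) (nat_lit 212) (.e (nat_lit 655378) (nat_lit 4) (.e (nat_lit 172119) (nat_lit 12) (.e (nat_lit 475199) (nat_lit 40) (.e (nat_lit 704598) (nat_lit 6) (.e (nat_lit 188435) (nat_lit 20) .nil)))))) (.g (nat_lit 1) (.e (nat_lit 88132) (nat_lit 0) .nil) .nil))))) (.nd (nat_lit 8) (.nd (nat_lit 9) 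
(.lf (nat_lit 471186) (.g (nat_lit 4096) (.e (nat_lit 3401) (nat_lit 211) (.e (nat_lit 647181) (nat_lit 3) (.e (nat_lit 163977) (nat_lit 30) (.e (nat_lit 573493) (nat_lit 15) (.e (nat_lit 81953) (nat_lit 22) (.e (nat_lit 90170) (nat_lit 13) (.e (nat_lit 172039) (nat_lit 0) .nil))))))) (.g (nat_lit 1) (.e (nat_lit 86981) (nat_lit 0) .nil) .nil))) 
(.lf (nat_lit 471698) (.g (nat_lit 3299) (.e (nat_lit 3408) (nat_lit 212) (.e (nat_lit 655375) (nat_lit 3) (.e (nat_lit 163978) (nat_lit 30) (.e (nat_lit 573483) (nat_lit 13) (.e (nat_lit 65604) (nat_lit 9) (.e (nat_lit 336013) (nat_lit 2) (.e (nat_lit 90170) (nat_lit 13) (.e (nat_lit 172042) (nat_lit 0) .nil)))))))) (.g (nat_lit 1) (.e (nat_lit 87944) (nat_lit 0) .nil) .nil)))) (.nd (nat_lit 9) 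
(.lf (nat_lit 471442) (.g (nat_lit 2455) (.e (nat_lit 3406) (nat_lit 212) (.e (nat_lit 655376) (nat_lit 4) (.e (nat_lit 172126) (nat_lit 14) (.e (nat_lit 491549) (nat_lit 9) (.e (nat_lit 336430) (nat_lit 29) (.e (nat_lit 442409) (nat_lit 20) .nil)))))) (.g (nat_lit 1) (.e (nat_lit 87481) (nat_lit 0) .nil) .nil))) 
(.lf (nat_lit 471954) (.g (nat_lit 5167) (.e (nat_lit 3409) (nat_lit 212) (.e (nat_lit 655375) (nat_lit 3) (.e (nat_lit 163978) (nat_lit 30) (.e (nat_lit 573491) (nat_lit 15) (.e (nat_lit 81952) (nat_lit 22) (.e (nat_lit 90170) (nat_lit 13) (.e (nat_lit 172042) (nat_lit 0) .nil))))))) (.g (nat_lit 1) (.e (nat_lit 88331) (nat_lit 0) .nil) .nil)))))) 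
(.nd (nat_lit 7) (.nd (nat_lit 8) (.nd (nat_lit 9) 
(.lf (nat_lit 471122) (.g (nat_lit 1585) (.e (nat_lit 3399) (nat_lit 211) (.e (nat_lit 647183) (nat_lit 4) (.e (nat_lit 172126) (nat_lit 14) (.e (nat_lit 491549) (nat_lit 9) (.e (nat_lit 336395) (nat_lit 27) .nil))))) (.g (nat_lit 0) (.e (nat_lit 86816) (nat_lit 0) .nil) .nil))) 
(.lf (nat_lit 471634) (.g (nat_lit 1464) (.e (nat_lit 3407) (nat_lit 212) (.e (nat_lit 655380) (nat_lit 6) (.e (nat_lit 188418) (nat_lit 0) (.e (nat_lit 2058) (nat_lit 142) (.e (nat_lit 704598) (nat_lit 6) (.e (nat_lit 188439) (nat_lit 20) .nil)))))) (.g (nat_lit 1) (.e (nat_lit 87832) (nat_lit 0) .nil) .nil)))) (.nd (nat_lit 9) 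
(.lf (nat_lit 471378) (.g (nat_lit 3408) (.e (nat_lit 3403) (nat_lit 212) (.e (nat_lit 655375) (nat_lit 3) (.e (nat_lit 163978) (nat_lit 30) (.e (nat_lit 573479) (nat_lit 13) (.e (nat_lit 65619) (nat_lit 10) .nil))))) (.g (nat_lit 0) (.e (nat_lit 87350) (nat_lit 0) .nil) .nil))) 
(.lf (nat_lit 471890) (.g (nat_lit 1858) (.e (nat_lit 3408) (nat_lit 212) (.e (nat_lit 655380) (nat_lit 6) (.e (nat_lit 188441) (nat_lit 20) (.e (nat_lit 3409) (nat_lit 212) (.e (nat_lit 655380) (nat_lit 6) (.e (nat_lit 188438) (nat_lit 20) .nil)))))) (.g (nat_lit 1) (.e (nat_lit 88218) (nat_lit 0) .nil) .nil))))) (.nd (nat_lit 8) (.nd (nat_lit 9) 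
(.lf (nat_lit 471250) (.g (nat_lit 1937) (.e (nat_lit 3401) (nat_lit 211) (.e (nat_lit 647185) (nat_lit 6) (.e (nat_lit 188440) (nat_lit 20) (.e (nat_lit 3409) (nat_lit 212) (.e (nat_lit 655380) (nat_lit 6) (.e (nat_lit 188431) (nat_lit 20) .nil)))))) (.g (nat_lit 1) (.e (nat_lit 87133) (nat_lit 0) .nil) .nil))) 
(.lf (nat_lit 471762) (.g (nat_lit 2198) (.e (nat_lit 3408) (nat_lit 212) (.e (nat_lit 655378) (nat_lit 4) (.e (nat_lit 172106) (nat_lit 10) (.e (nat_lit 434271) (nat_lit 38) (.e (nat_lit 655380) (nat_lit 6) (.e (nat_lit 188438) (nat_lit 20) .nil)))))) (.g (nat_lit 1) (.e (nat_lit 88065) (nat_lit 0) .nil) .nil)))) (.nd (nat_lit 9) 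
(.lf (nat_lit 471506) (.g (nat_lit 1879) (.e (nat_lit 3406) (nat_lit 212) (.e (nat_lit 655380) (nat_lit 6) (.e (nat_lit 188418) (nat_lit 0) (.e (nat_lit 2058) (nat_lit 142) (.e (nat_lit 704598) (nat_lit 6) (.e (nat_lit 188434) (nat_lit 20) .nil)))))) (.g (nat_lit 1) (.e (nat_lit 87613) (nat_lit 0) .nil) .nil))) 
(.lf (nat_lit 472018) (.g (nat_lit 1843) (.e (nat_lit 3409) (nat_lit 212) (.e (nat_lit 655378) (nat_lit 4) (.e (nat_lit 172107) (nat_lit 10) (.e (nat_lit 434271) (nat_lit 38) (.e (nat_lit 655380) (nat_lit 6) (.e (nat_lit 188435) (nat_lit 20) .nil)))))) (.g (nat_lit 1) (.e (nat_lit 88433) (nat_lit 0) .nil) .nil))))))) (.nd (nat_lit 6) (.nd (nat_lit 7) (.nd (nat_lit 8) (.nd (nat_lit 9) 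
(.lf (nat_lit 471090) (.g (nat_lit 2174) (.e (nat_lit 3399) (nat_lit 211) (.e (nat_lit 647183) (nat_lit 4) (.e (nat_lit 172119) (nat_lit 12) (.e (nat_lit 475199) (nat_lit 40) (.e (nat_lit 704598) (nat_lit 6) (.e (nat_lit 188431) (nat_lit 20) .nil)))))) (.g (nat_lit 1) (.e (nat_lit 86784) (nat_lit 0) .nil) .nil))) 
(.lf (nat_lit 471602) (.g (nat_lit 1942) (.e (nat_lit 3407) (nat_lit 212) (.e (nat_lit 655378) (nat_lit 4) (.e (nat_lit 172107) (nat_lit 10) (.e (nat_lit 434271) (nat_lit 38) (.e (nat_lit 655380) (nat_lit 6) (.e (nat_lit 188439) (nat_lit 20) .nil)))))) (.g (nat_lit 1) (.e (nat_lit 87781) (nat_lit 0) .nil) .nil)))) (.nd (nat_lit 9) 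
(.lf (nat_lit 471346) (.g (nat_lit 2149) (.e (nat_lit 3402) (nat_lit 211) (.e (nat_lit 647183) (nat_lit 4) (.e (nat_lit 172116) (nat_lit 10) (.e (nat_lit 434271) (nat_lit 38) (.e (nat_lit 655380) (nat_lit 6) (.e (nat_lit 188431) (nat_lit 20) .nil)))))) (.g (nat_lit 1) (.e (nat_lit 87271) (nat_lit 0) .nil) .nil))) 
(.lf (nat_lit 471858) (.g (nat_lit 1038) (.e (nat_lit 3408) (nat_lit 212) (.e (nat_lit 655380) (nat_lit 6) (.e (nat_lit 188420) (nat_lit 0) (.e (nat_lit 2056) (nat_lit 142) (.e (nat_lit 704598) (nat_lit 6) (.e (nat_lit 188435) (nat_lit 20) .nil)))))) (.g (nat_lit 1) (.e (nat_lit 88186) (nat_lit 0) .nil) .nil))))) (.nd (nat_lit 8) (.nd (nat_lit 9) 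
(.lf (nat_lit 471218) (.g (nat_lit 2182) (.e (nat_lit 3401) (nat_lit 211) (.e (nat_lit 647183) (nat_lit 4) (.e (nat_lit 172115) (nat_lit 10) (.e (nat_lit 434272) (nat_lit 38) (.e (nat_lit 655380) (nat_lit 6) (.e (nat_lit 188427) (nat_lit 20) .nil)))))) (.g (nat_lit 1) (.e (nat_lit 87060) (nat_lit 0) .nil) .nil))) 
(.lf (nat_lit 471730) (.g (nat_lit 4664) (.e (nat_lit 3408) (nat_lit 212) (.e (nat_lit 655375) (nat_lit 3) (.e (nat_lit 163979) (nat_lit 30) (.e (nat_lit 573492) (nat_lit 15) (.e (nat_lit 81953) (nat_lit 22) (.e (nat_lit 90170) (nat_lit 13) (.e (nat_lit 172049) (nat_lit 0) .nil))))))) (.g (nat_lit 1) (.e (nat_lit 87989) (nat_lit 0) .nil) .nil)))) (.nd (nat_lit 9) 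
(.lf (nat_lit 471474) (.g (nat_lit 2226) (.e (nat_lit 3406) (nat_lit 212) (.e (nat_lit 655378) (nat_lit 4) (.e (nat_lit 172115) (nat_lit 10) (.e (nat_lit 434272) (nat_lit 38) (.e (nat_lit 655380) (nat_lit 6) (.e (nat_lit 188439) (nat_lit 20) .nil)))))) (.g (nat_lit 1) (.e (nat_lit 87553) (nat_lit 0) .nil) .nil))) 
(.lf (nat_lit 471986) (.g (nat_lit 2782) (.e (nat_lit 3409) (nat_lit 212) (.e (nat_lit 655376) (nat_lit 4) (.e (nat_lit 172120) (nat_lit 12) (.e (nat_lit 475199) (nat_lit 40) (.e (nat_lit 704598) (nat_lit 6) (.e (nat_lit 188434) (nat_lit 20) .nil)))))) (.g (nat_lit 1) (.e (nat_lit 88386) (nat_lit 0) .nil) .nil)))))) (.nd (nat_lit 7) (.nd (nat_lit 8) (.nd (nat_lit 9) 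
(.lf (nat_lit 471154) (.g (nat_lit 1587) (.e (nat_lit 3399) (nat_lit 211) (.e (nat_lit 647185) (nat_lit 6) (.e (nat_lit 188439) (nat_lit 20) (.e (nat_lit 3407) (nat_lit 212) (.e (nat_lit 655380) (nat_lit 6) (.e (nat_lit 188431) (nat_lit 20) .nil)))))) (.g (nat_lit 1) (.e (nat_lit 86865) (nat_lit 0) .nil) .nil))) 
(.lf (nat_lit 471666) (.g (nat_lit 3453) (.e (nat_lit 3407) (nat_lit 212) (.e (nat_lit 655380) (nat_lit 6) (.e (nat_lit 188453) (nat_lit 24) (.e (nat_lit 229663) (nat_lit 240) (.e (nat_lit 2651) (nat_lit 166) (.e (nat_lit 188439) (nat_lit 20) .nil)))))) (.g (nat_lit 1) (.e (nat_lit 87875) (nat_lit 0) .nil) .nil)))) (.nd (nat_lit 9) 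
(.lf (nat_lit 471410) (.g (nat_lit 3704) (.e (nat_lit 3406) (nat_lit 212) (.e (nat_lit 655375) (nat_lit 3) (.e (nat_lit 163978) (nat_lit 30) (.e (nat_lit 573481) (nat_lit 13) (.e (nat_lit 65619) (nat_lit 10) (.e (nat_lit 344117) (nat_lit 21) (.e (nat_lit 516151) (nat_lit 9) (.e (nat_lit 426043) (nat_lit 0) .nil)))))))) (.g (nat_lit 1) (.e (nat_lit 87439) (nat_lit 0) .nil) .nil))) 
(.lf (nat_lit 471922) (.g (nat_lit 3664) (.e (nat_lit 3409) (nat_lit 212) (.e (nat_lit 655375) (nat_lit 3) (.e (nat_lit 163978) (nat_lit 30) (.e (nat_lit 573479) (nat_lit 13) (.e (nat_lit 65604) (nat_lit 9) (.e (nat_lit 336028) (nat_lit 3) (.e (nat_lit 98359) (nat_lit 26) (.e (nat_lit 426042) (nat_lit 0) .nil)))))))) (.g (nat_lit 1) (.e (nat_lit 88294) (nat_lit 0) .nil) .nil))))) 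
(.nd (nat_lit 8) (.nd (nat_lit 9) 
(.lf (nat_lit 471282) (.g (nat_lit 3262) (.e (nat_lit 3402) (nat_lit 211) (.e (nat_lit 647181) (nat_lit 3) (.e (nat_lit 163979) (nat_lit 30) (.e (nat_lit 573482) (nat_lit 13) (.e (nat_lit 65619) (nat_lit 10) (.e (nat_lit 344117) (nat_lit 21) (.e (nat_lit 516151) (nat_lit 9) (.e (nat_lit 426003) (nat_lit 0) .nil)))))))) (.g (nat_lit 1) (.e (nat_lit 87177) (nat_lit 0) .nil) .nil))) 
(.lf (nat_lit 471794) (.g (nat_lit 2724) (.e (nat_lit 3408) (nat_lit 212) (.e (nat_lit 655378) (nat_lit 4) (.e (nat_lit 172113) (nat_lit 10) (.e (nat_lit 434272) (nat_lit 38) (.e (nat_lit 655380) (nat_lit 6) (.e (nat_lit 188441) (nat_lit 20) .nil)))))) (.g (nat_lit 1) (.e (nat_lit 88098) (nat_lit 0) .nil) .nil)))) (.nd (nat_lit 9) 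
(.lf (nat_lit 471538) (.g (nat_lit 2381) (.e (nat_lit 3406) (nat_lit 212) (.e (nat_lit 655380) (nat_lit 6) (.e (nat_lit 188453) (nat_lit 24) (.e (nat_lit 229663) (nat_lit 240) (.e (nat_lit 2653) (nat_lit 166) (.e (nat_lit 188440) (nat_lit 20) .nil)))))) (.g (nat_lit 1) (.e (nat_lit 87650) (nat_lit 0) .nil) .nil))) 
(.lf (nat_lit 472050) (.g (nat_lit 2483) (.e (nat_lit 3409) (nat_lit 212) (.e (nat_lit 655378) (nat_lit 4) (.e (nat_lit 172120) (nat_lit 12) (.e (nat_lit 475197) (nat_lit 40) (.e (nat_lit 704598) (nat_lit 6) (.e (nat_lit 188434) (nat_lit 20) .nil)))))) (.g (nat_lit 1) (.e (nat_lit 88468) (nat_lit 0) .nil) .nil))))))))) 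
(.nd (nat_lit 4) (.nd (nat_lit 5) (.nd (nat_lit 6) (.nd (nat_lit 7) (.nd (nat_lit 8) 
(.nd (nat_lit 9) 
(.lf (nat_lit 471050) (.g (nat_lit 4169) (.e (nat_lit 3399) (nat_lit 211) (.e (nat_lit 647181) (nat_lit 3) (.e (nat_lit 163979) (nat_lit 30) (.e (nat_lit 573493) (nat_lit 15) (.e (nat_lit 81956) (nat_lit 23) (.e (nat_lit 98359) (nat_lit 26) (.e (nat_lit 426025) (nat_lit 0) .nil))))))) (.g (nat_lit 1) (.e (nat_lit 86736) (nat_lit 0) .nil) .nil))) 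
(.lf (nat_lit 471562) (.g (nat_lit 2224) (.e (nat_lit 3407) (nat_lit 212) (.e (nat_lit 655375) (nat_lit 3) (.e (nat_lit 163978) (nat_lit 30) (.e (nat_lit 573480) (nat_lit 13) (.e (nat_lit 65604) (nat_lit 9) .nil))))) (.g (nat_lit 0) (.e (nat_lit 87702) (nat_lit 0) .nil) .nil)))) (.nd (nat_lit 9) 
(.lf (nat_lit 471306) (.g (nat_lit 1962) (.e (nat_lit 3402) (nat_lit 211) (.e (nat_lit 647183) (nat_lit 4) (.e (nat_lit 172082) (nat_lit 7) (.e (nat_lit 409642) (nat_lit 17) (.e (nat_lit 294974) (nat_lit 29) (.e (nat_lit 442398) (nat_lit 20) .nil)))))) (.g (nat_lit 1) (.e (nat_lit 87216) (nat_lit 0) .nil) .nil))) 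
(.lf (nat_lit 471818) (.g (nat_lit 3007) (.e (nat_lit 3408) (nat_lit 212) (.e (nat_lit 655378) (nat_lit 4) (.e (nat_lit 172118) (nat_lit 12) (.e (nat_lit 475198) (nat_lit 40) (.e (nat_lit 704599) (nat_lit 6) (.e (nat_lit 188440) (nat_lit 20) .nil)))))) (.g (nat_lit 1) (.e (nat_lit 88123) (nat_lit 0) .nil) .nil))))) (.nd (nat_lit 8) (.nd (nat_lit 9) 
(.lf (nat_lit 471178) (.g (nat_lit 3071) (.e (nat_lit 3401) (nat_lit 211) (.e (nat_lit 647181) (nat_lit 3) (.e (nat_lit 163977) (nat_lit 30) (.e (nat_lit 573485) (nat_lit 13) (.e (nat_lit 65604) (nat_lit 9) (.e (nat_lit 336028) (nat_lit 3) (.e (nat_lit 98359) (nat_lit 26) (.e (nat_lit 426022) (nat_lit 0) .nil)))))))) (.g (nat_lit 1) (.e (nat_lit 86973) (nat_lit 0) .nil) .nil))) 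
(.lf (nat_lit 471690) (.g (nat_lit 3342) (.e (nat_lit 3408) (nat_lit 212) (.e (nat_lit 655375) (nat_lit 3) (.e (nat_lit 163978) (nat_lit 30) (.e (nat_lit 573479) (nat_lit 13) (.e (nat_lit 65604) (nat_lit 9) .nil))))) (.g (nat_lit 0) (.e (nat_lit 87936) (nat_lit 0) .nil) .nil)))) (.nd (nat_lit 9) 
(.lf (nat_lit 471434) (.g (nat_lit 3588) (.e (nat_lit 3406) (nat_lit 212) (.e (nat_lit 655375) (nat_lit 3) (.e (nat_lit 163979) (nat_lit 30) (.e (nat_lit 573492) (nat_lit 15) (.e (nat_lit 81956) (nat_lit 23) (.e (nat_lit 98356) (nat_lit 26) (.e (nat_lit 433920) (nat_lit 0) .nil))))))) (.g (nat_lit 1) (.e (nat_lit 87470) (nat_lit 0) .nil) .nil))) 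
(.lf (nat_lit 471946) (.g (nat_lit 5962) (.e (nat_lit 3409) (nat_lit 212) (.e (nat_lit 655375) (nat_lit 3) (.e (nat_lit 163978) (nat_lit 30) (.e (nat_lit 573485) (nat_lit 13) (.e (nat_lit 65619) (nat_lit 10) (.e (nat_lit 344117) (nat_lit 21) (.e (nat_lit 516151) (nat_lit 9) (.e (nat_lit 426042) (nat_lit 0) .nil)))))))) (.g (nat_lit 1) (.e (nat_lit 88318) (nat_lit 0) .nil) .nil)))))) 
(.nd (nat_lit 7) (.nd (nat_lit 8) (.nd (nat_lit 9) 
(.lf (nat_lit 471114) (.g (nat_lit 2252) (.e (nat_lit 3399) (nat_lit 211) (.e (nat_lit 647183) (nat_lit 4) (.e (nat_lit 172124) (nat_lit 14) (.e (nat_lit 491571) (nat_lit 13) (.e (nat_lit 401152) (nat_lit 23) (.e (nat_lit 426024) (nat_lit 0) .nil)))))) (.g (nat_lit 1) (.e (nat_lit 86808) (nat_lit 0) .nil) .nil))) 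
(.lf (nat_lit 471626) (.g (nat_lit 1190) (.e (nat_lit 3407) (nat_lit 212) (.e (nat_lit 655378) (nat_lit 4) (.e (nat_lit 172120) (nat_lit 12) (.e (nat_lit 475197) (nat_lit 40) .nil)))) (.g (nat_lit 0) (.e (nat_lit 87806) (nat_lit 0) .nil) .nil)))) (.nd (nat_lit 9) 
(.lf (nat_lit 471370) (.g (nat_lit 1660) (.e (nat_lit 3402) (nat_lit 211) (.e (nat_lit 647183) (nat_lit 4) (.e (nat_lit 172126) (nat_lit 14) (.e (nat_lit 491548) (nat_lit 9) (.e (nat_lit 336430) (nat_lit 29) (.e (nat_lit 442398) (nat_lit 20) .nil)))))) (.g (nat_lit 1) (.e (nat_lit 87295) (nat_lit 0) .nil) .nil))) 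
(.lf (nat_lit 471882) (.g (nat_lit 1720) (.e (nat_lit 3408) (nat_lit 212) (.e (nat_lit 655380) (nat_lit 6) (.e (nat_lit 188440) (nat_lit 20) (.e (nat_lit 3409) (nat_lit 212) (.e (nat_lit 655380) (nat_lit 6) (.e (nat_lit 188434) (nat_lit 20) .nil)))))) (.g (nat_lit 1) (.e (nat_lit 88210) (nat_lit 0) .nil) .nil))))) (.nd (nat_lit 8) (.nd (nat_lit 9) 
(.lf (nat_lit 471242) (.g (nat_lit 343) (.e (nat_lit 3401) (nat_lit 211) (.e (nat_lit 647185) (nat_lit 6) (.e (nat_lit 188420) (nat_lit 0) .nil))) (.g (nat_lit 0) (.e (nat_lit 87113) (nat_lit 0) .nil) .nil))) 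
(.lf (nat_lit 471754) (.g (nat_lit 1866) (.e (nat_lit 3408) (nat_lit 212) (.e (nat_lit 655378) (nat_lit 4) (.e (nat_lit 172094) (nat_lit 9) (.e (nat_lit 426025) (nat_lit 0) (.e (nat_lit 3399) (nat_lit 211) .nil))))) (.g (nat_lit 0) (.e (nat_lit 88050) (nat_lit 0) .nil) .nil)))) (.nd (nat_lit 9) 
(.lf (nat_lit 471498) (.g (nat_lit 2300) (.e (nat_lit 3406) (nat_lit 212) (.e (nat_lit 655378) (nat_lit 4) (.e (nat_lit 172125) (nat_lit 14) (.e (nat_lit 491549) (nat_lit 9) (.e (nat_lit 336430) (nat_lit 29) (.e (nat_lit 442402) (nat_lit 20) .nil)))))) (.g (nat_lit 1) (.e (nat_lit 87581) (nat_lit 0) .nil) .nil))) 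
(.lf (nat_lit 472010) (.g (nat_lit 1075) (.e (nat_lit 3409) (nat_lit 212) (.e (nat_lit 655378) (nat_lit 4) (.e (nat_lit 172097) (nat_lit 9) (.e (nat_lit 426109) (nat_lit 1) .nil)))) (.g (nat_lit 0) (.e (nat_lit 88425) (nat_lit 0) .nil) .nil))))))) (.nd (nat_lit 6) (.nd (nat_lit 7) (.nd (nat_lit 8) (.nd (nat_lit 9) 
(.lf (nat_lit 471082) (.g (nat_lit 2390) (.e (nat_lit 3399) (nat_lit 211) (.e (nat_lit 647183) (nat_lit 4) (.e (nat_lit 172115) (nat_lit 10) (.e (nat_lit 434271) (nat_lit 38) (.e (nat_lit 655380) (nat_lit 6) (.e (nat_lit 188431) (nat_lit 20) .nil)))))) (.g (nat_lit 1) (.e (nat_lit 86776) (nat_lit 0) .nil) .nil))) 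
(.lf (nat_lit 471594) (.g (nat_lit 1654) (.e (nat_lit 3407) (nat_lit 212) (.e (nat_lit 655378) (nat_lit 4) (.e (nat_lit 172097) (nat_lit 9) (.e (nat_lit 426025) (nat_lit 0) (.e (nat_lit 3397) (nat_lit 211) .nil))))) (.g (nat_lit 0) (.e (nat_lit 87769) (nat_lit 0) .nil) .nil)))) (.nd (nat_lit 9) 
(.lf (nat_lit 471338) (.g (nat_lit 2803) (.e (nat_lit 3402) (nat_lit 211) (.e (nat_lit 647183) (nat_lit 4) (.e (nat_lit 172115) (nat_lit 10) (.e (nat_lit 434209) (nat_lit 18) (.e (nat_lit 5547) (nat_lit 306) (.e (nat_lit 2650) (nat_lit 166) (.e (nat_lit 188427) (nat_lit 20) .nil))))))) (.g (nat_lit 1) (.e (nat_lit 87262) (nat_lit 0) .nil) .nil))) 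
(.lf (nat_lit 471850) (.g (nat_lit 1233) (.e (nat_lit 3408) (nat_lit 212) (.e (nat_lit 655380) (nat_lit 6) (.e (nat_lit 188416) (nat_lit 0) (.e (nat_lit 2147) (nat_lit 142) (.e (nat_lit 704597) (nat_lit 6) (.e (nat_lit 188439) (nat_lit 20) .nil)))))) (.g (nat_lit 1) (.e (nat_lit 88178) (nat_lit 0) .nil) .nil))))) (.nd (nat_lit 8) (.nd (nat_lit 9) 
(.lf (nat_lit 471210) (.g (nat_lit 1817) (.e (nat_lit 3401) (nat_lit 211) (.e (nat_lit 647183) (nat_lit 4) (.e (nat_lit 172106) (nat_lit 10) (.e (nat_lit 434272) (nat_lit 38) (.e (nat_lit 655380) (nat_lit 6) (.e (nat_lit 188428) (nat_lit 20) .nil)))))) (.g (nat_lit 1) (.e (nat_lit 87038) (nat_lit 0) .nil) .nil))) 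
(.lf (nat_lit 471722) (.g (nat_lit 4531) (.e (nat_lit 3408) (nat_lit 212) (.e (nat_lit 655375) (nat_lit 3) (.e (nat_lit 163979) (nat_lit 30) (.e (nat_lit 573482) (nat_lit 13) (.e (nat_lit 65604) (nat_lit 9) (.e (nat_lit 336028) (nat_lit 3) (.e (nat_lit 98359) (nat_lit 26) (.e (nat_lit 426043) (nat_lit 0) .nil)))))))) (.g (nat_lit 1) (.e (nat_lit 87981) (nat_lit 0) .nil) .nil)))) (.nd (nat_lit 9) 
(.lf (nat_lit 471466) (.g (nat_lit 1655) (.e (nat_lit 3406) (nat_lit 212) (.e (nat_lit 655378) (nat_lit 4) (.e (nat_lit 172113) (nat_lit 10) (.e (nat_lit 434272) (nat_lit 38) (.e (nat_lit 655380) (nat_lit 6) .nil))))) (.g (nat_lit 0) (.e (nat_lit 87544) (nat_lit 0) .nil) .nil))) 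
(.lf (nat_lit 471978) (.g (nat_lit 5355) (.e (nat_lit 3409) (nat_lit 212) (.e (nat_lit 655375) (nat_lit 3) (.e (nat_lit 163979) (nat_lit 30) (.e (nat_lit 573492) (nat_lit 15) (.e (nat_lit 81956) (nat_lit 23) (.e (nat_lit 98362) (nat_lit 26) (.e (nat_lit 426033) (nat_lit 0) .nil))))))) (.g (nat_lit 1) (.e (nat_lit 88377) (nat_lit 0) .nil) .nil)))))) 
(.nd (nat_lit 7) (.nd (nat_lit 8) (.nd (nat_lit 9) 
(.lf (nat_lit 471146) (.g (nat_lit 1889) (.e (nat_lit 3399) (nat_lit 211) (.e (nat_lit 647185) (nat_lit 6) (.e (nat_lit 188431) (nat_lit 20) (.e (nat_lit 3397) (nat_lit 211) (.e (nat_lit 647185) (nat_lit 6) (.e (nat_lit 188431) (nat_lit 20) .nil)))))) (.g (nat_lit 1) (.e (nat_lit 86857) (nat_lit 0) .nil) .nil))) 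
(.lf (nat_lit 471658) (.g (nat_lit 1340) (.e (nat_lit 3407) (nat_lit 212) (.e (nat_lit 655380) (nat_lit 6) (.e (nat_lit 188440) (nat_lit 20) (.e (nat_lit 3408) (nat_lit 212) (.e (nat_lit 655380) (nat_lit 6) (.e (nat_lit 188438) (nat_lit 20) .nil)))))) (.g (nat_lit 1) (.e (nat_lit 87860) (nat_lit 0) .nil) .nil)))) (.nd (nat_lit 9) 
(.lf (nat_lit 471402) (.g (nat_lit 4969) (.e (nat_lit 3406) (nat_lit 212) (.e (nat_lit 655375) (nat_lit 3) (.e (nat_lit 163978) (nat_lit 30) (.e (nat_lit 573479) (nat_lit 13) (.e (nat_lit 65604) (nat_lit 9) (.e (nat_lit 336013) (nat_lit 2) (.e (nat_lit 90170) (nat_lit 13) (.e (nat_lit 172049) (nat_lit 0) .nil)))))))) (.g (nat_lit 1) (.e (nat_lit 87431) (nat_lit 0) .nil) .nil))) 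
(.lf (nat_lit 471914) (.g (nat_lit 5366) (.e (nat_lit 3409) (nat_lit 212) (.e (nat_lit 655375) (nat_lit 3) (.e (nat_lit 163977) (nat_lit 30) (.e (nat_lit 573485) (nat_lit 13) (.e (nat_lit 65619) (nat_lit 10) (.e (nat_lit 344117) (nat_lit 21) (.e (nat_lit 516151) (nat_lit 9) (.e (nat_lit 426042) (nat_lit 0) .nil)))))))) (.g (nat_lit 1) (.e (nat_lit 88286) (nat_lit 0) .nil) .nil))))) 
(.nd (nat_lit 8) (.nd (nat_lit 9) 
(.lf (nat_lit 471274) (.g (nat_lit 3293) (.e (nat_lit 3402) (nat_lit 211) (.e (nat_lit 647181) (nat_lit 3) (.e (nat_lit 163977) (nat_lit 30) (.e (nat_lit 573493) (nat_lit 15) (.e (nat_lit 81956) (nat_lit 23) (.e (nat_lit 98359) (nat_lit 26) (.e (nat_lit 426003) (nat_lit 0) .nil))))))) (.g (nat_lit 1) (.e (nat_lit 87169) (nat_lit 0) .nil) .nil))) 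
(.lf (nat_lit 471786) (.g (nat_lit 1894) (.e (nat_lit 3408) (nat_lit 212) (.e (nat_lit 655378) (nat_lit 4) (.e (nat_lit 172113) (nat_lit 10) (.e (nat_lit 434271) (nat_lit 38) (.e (nat_lit 655380) (nat_lit 6) (.e (nat_lit 188435) (nat_lit 20) .nil)))))) (.g (nat_lit 1) (.e (nat_lit 88090) (nat_lit 0) .nil) .nil)))) (.nd (nat_lit 9) 
(.lf (nat_lit 471530) (.g (nat_lit 1505) (.e (nat_lit 3406) (nat_lit 212) (.e (nat_lit 655380) (nat_lit 6) (.e (nat_lit 188440) (nat_lit 20) (.e (nat_lit 3408) (nat_lit 212) (.e (nat_lit 655380) (nat_lit 6) (.e (nat_lit 188439) (nat_lit 20) .nil)))))) (.g (nat_lit 1) (.e (nat_lit 87638) (nat_lit 0) .nil) .nil))) 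
(.lf (nat_lit 472042) (.g (nat_lit 2509) (.e (nat_lit 3409) (nat_lit 212) (.e (nat_lit 655378) (nat_lit 4) (.e (nat_lit 172116) (nat_lit 10) (.e (nat_lit 434271) (nat_lit 38) (.e (nat_lit 655380) (nat_lit 6) (.e (nat_lit 188441) (nat_lit 20) .nil)))))) (.g (nat_lit 1) (.e (nat_lit 88459) (nat_lit 0) .nil) .nil)))))))) 
(.nd (nat_lit 5) (.nd (nat_lit 6) (.nd (nat_lit 7) (.nd (nat_lit 8) (.nd (nat_lit 9) 
(.lf (nat_lit 471066) (.g (nat_lit 2604) (.e (nat_lit 3399) (nat_lit 211) (.e (nat_lit 647183) (nat_lit 4) (.e (nat_lit 172094) (nat_lit 9) (.e (nat_lit 426025) (nat_lit 0) (.e (nat_lit 3399) (nat_lit 211) (.e (nat_lit 647183) (nat_lit 4) (.e (nat_lit 172094) (nat_lit 9) (.e (nat_lit 426025) (nat_lit 0) .nil)))))))) (.g (nat_lit 1) (.e (nat_lit 86758) (nat_lit 0) .nil) .nil))) 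
(.lf (nat_lit 471578) (.g (nat_lit 4685) (.e (nat_lit 3407) (nat_lit 212) (.e (nat_lit 655375) (nat_lit 3) (.e (nat_lit 163979) (nat_lit 30) (.e (nat_lit 573482) (nat_lit 13) (.e (nat_lit 65604) (nat_lit 9) (.e (nat_lit 336013) (nat_lit 2) (.e (nat_lit 90170) (nat_lit 13) (.e (nat_lit 172049) (nat_lit 0) .nil)))))))) (.g (nat_lit 1) (.e (nat_lit 87728) (nat_lit 0) .nil) .nil)))) (.nd (nat_lit 9) 
(.lf (nat_lit 471322) (.g (nat_lit 2417) (.e (nat_lit 3402) (nat_lit 211) (.e (nat_lit 647183) (nat_lit 4) (.e (nat_lit 172106) (nat_lit 10) (.e (nat_lit 434271) (nat_lit 38) (.e (nat_lit 655380) (nat_lit 6) (.e (nat_lit 188431) (nat_lit 20) .nil)))))) (.g (nat_lit 1) (.e (nat_lit 87242) (nat_lit 0) .nil) .nil))) 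
(.lf (nat_lit 471834) (.g (nat_lit 3106) (.e (nat_lit 3408) (nat_lit 212) (.e (nat_lit 655378) (nat_lit 4) (.e (nat_lit 172120) (nat_lit 12) (.e (nat_lit 475198) (nat_lit 40) (.e (nat_lit 704599) (nat_lit 6) (.e (nat_lit 188440) (nat_lit 20) .nil)))))) (.g (nat_lit 1) (.e (nat_lit 88143) (nat_lit 0) .nil) .nil))))) (.nd (nat_lit 8) (.nd (nat_lit 9) 
(.lf (nat_lit 471194) (.g (nat_lit 4815) (.e (nat_lit 3401) (nat_lit 211) (.e (nat_lit 647181) (nat_lit 3) (.e (nat_lit 163978) (nat_lit 30) (.e (nat_lit 573485) (nat_lit 13) (.e (nat_lit 65604) (nat_lit 9) (.e (nat_lit 336013) (nat_lit 2) (.e (nat_lit 90170) (nat_lit 13) (.e (nat_lit 172039) (nat_lit 0) .nil)))))))) (.g (nat_lit 1) (.e (nat_lit 86989) (nat_lit 0) .nil) .nil))) 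
(.lf (nat_lit 471706) (.g (nat_lit 4812) (.e (nat_lit 3408) (nat_lit 212) (.e (nat_lit 655375) (nat_lit 3) (.e (nat_lit 163978) (nat_lit 30) (.e (nat_lit 573490) (nat_lit 15) (.e (nat_lit 81951) (nat_lit 22) (.e (nat_lit 90170) (nat_lit 13) (.e (nat_lit 172049) (nat_lit 0) .nil))))))) (.g (nat_lit 1) (.e (nat_lit 87952) (nat_lit 0) .nil) .nil)))) (.nd (nat_lit 9) 
(.lf (nat_lit 471450) (.g (nat_lit 1363) (.e (nat_lit 3406) (nat_lit 212) (.e (nat_lit 655378) (nat_lit 4) (.e (nat_lit 172106) (nat_lit 10) (.e (nat_lit 434271) (nat_lit 38) (.e (nat_lit 655380) (nat_lit 6) (.e (nat_lit 188424) (nat_lit 20) .nil)))))) (.g (nat_lit 1) (.e (nat_lit 87528) (nat_lit 0) .nil) .nil))) 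
(.lf (nat_lit 471962) (.g (nat_lit 2448) (.e (nat_lit 3409) (nat_lit 212) (.e (nat_lit 655375) (nat_lit 3) (.e (nat_lit 163979) (nat_lit 30) (.e (nat_lit 573482) (nat_lit 13) (.e (nat_lit 65604) (nat_lit 9) (.e (nat_lit 336013) (nat_lit 2) (.e (nat_lit 90170) (nat_lit 13) (.e (nat_lit 172032) (nat_lit 0) .nil)))))))) (.g (nat_lit 1) (.e (nat_lit 88359) (nat_lit 0) .nil) .nil)))))) 
(.nd (nat_lit 7) (.nd (nat_lit 8) (.nd (nat_lit 9) 
(.lf (nat_lit 471130) (.g (nat_lit 2412) (.e (nat_lit 3399) (nat_lit 211) (.e (nat_lit 647183) (nat_lit 4) (.e (nat_lit 172126) (nat_lit 14) (.e (nat_lit 491569) (nat_lit 13) (.e (nat_lit 393266) (nat_lit 23) .nil))))) (.g (nat_lit 0) (.e (nat_lit 86824) (nat_lit 0) .nil) .nil))) 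
(.lf (nat_lit 471642) (.g (nat_lit 1624) (.e (nat_lit 3407) (nat_lit 212) (.e (nat_lit 655380) (nat_lit 6) (.e (nat_lit 188434) (nat_lit 20) (.e (nat_lit 3406) (nat_lit 212) (.e (nat_lit 655380) (nat_lit 6) (.e (nat_lit 188439) (nat_lit 20) .nil)))))) (.g (nat_lit 1) (.e (nat_lit 87844) (nat_lit 0) .nil) .nil)))) (.nd (nat_lit 9) 
(.lf (nat_lit 471386) (.g (nat_lit 1778) (.e (nat_lit 3403) (nat_lit 212) (.e (nat_lit 655378) (nat_lit 4) (.e (nat_lit 172106) (nat_lit 10) (.e (nat_lit 434272) (nat_lit 38) (.e (nat_lit 655380) (nat_lit 6) (.e (nat_lit 188438) (nat_lit 20) .nil)))))) (.g (nat_lit 1) (.e (nat_lit 87379) (nat_lit 0) .nil) .nil))) 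
(.lf (nat_lit 471898) (.g (nat_lit 2765) (.e (nat_lit 3409) (nat_lit 212) (.e (nat_lit 655364) (nat_lit 0) (.e (nat_lit 2685) (nat_lit 168) (.e (nat_lit 204863) (nat_lit 27) (.e (nat_lit 344133) (nat_lit 26) (.e (nat_lit 557098) (nat_lit 13) (.e (nat_lit 179968) (nat_lit 18) (.e (nat_lit 98325) (nat_lit 17) .nil)))))))) (.g (nat_lit 1) (.e (nat_lit 88236) (nat_lit 0) .nil) .nil))))) 
(.nd (nat_lit 8) (.nd (nat_lit 9) 
(.lf (nat_lit 471258) (.g (nat_lit 4311) (.e (nat_lit 3402) (nat_lit 211) (.e (nat_lit 647181) (nat_lit 3) (.e (nat_lit 163977) (nat_lit 30) (.e (nat_lit 573482) (nat_lit 13) (.e (nat_lit 65604) (nat_lit 9) (.e (nat_lit 336013) (nat_lit 2) (.e (nat_lit 90170) (nat_lit 13) (.e (nat_lit 172039) (nat_lit 0) .nil)))))))) (.g (nat_lit 1) (.e (nat_lit 87153) (nat_lit 0) .nil) .nil))) 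
(.lf (nat_lit 471770) (.g (nat_lit 1760) (.e (nat_lit 3408) (nat_lit 212) (.e (nat_lit 655378) (nat_lit 4) (.e (nat_lit 172107) (nat_lit 10) (.e (nat_lit 434271) (nat_lit 38) (.e (nat_lit 655380) (nat_lit 6) (.e (nat_lit 188438) (nat_lit 20) .nil)))))) (.g (nat_lit 1) (.e (nat_lit 88073) (nat_lit 0) .nil) .nil)))) (.nd (nat_lit 9) 
(.lf (nat_lit 471514) (.g (nat_lit 1971) (.e (nat_lit 3406) (nat_lit 212) (.e (nat_lit 655380) (nat_lit 6) (.e (nat_lit 188420) (nat_lit 0) (.e (nat_lit 2059) (nat_lit 142) (.e (nat_lit 704598) (nat_lit 6) (.e (nat_lit 188434) (nat_lit 20) .nil)))))) (.g (nat_lit 1) (.e (nat_lit 87621) (nat_lit 0) .nil) .nil))) 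
(.lf (nat_lit 472026) (.g (nat_lit 2574) (.e (nat_lit 3409) (nat_lit 212) (.e (nat_lit 655378) (nat_lit 4) (.e (nat_lit 172112) (nat_lit 10) (.e (nat_lit 434271) (nat_lit 38) (.e (nat_lit 655380) (nat_lit 6) (.e (nat_lit 188441) (nat_lit 20) .nil)))))) (.g (nat_lit 1) (.e (nat_lit 88441) (nat_lit 0) .nil) .nil))))))) (.nd (nat_lit 6) (.nd (nat_lit 7) (.nd (nat_lit 8) (.nd (nat_lit 9) 
(.lf (nat_lit 471098) (.g (nat_lit 1988) (.e (nat_lit 3399) (nat_lit 211) (.e (nat_lit 647183) (nat_lit 4) (.e (nat_lit 172124) (nat_lit 14) (.e (nat_lit 491549) (nat_lit 9) (.e (nat_lit 336369) (nat_lit 27) .nil))))) (.g (nat_lit 0) (.e (nat_lit 86792) (nat_lit 0) .nil) .nil))) 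
(.lf (nat_lit 471610) (.g (nat_lit 1248) (.e (nat_lit 3407) (nat_lit 212) (.e (nat_lit 655378) (nat_lit 4) (.e (nat_lit 172113) (nat_lit 10) (.e (nat_lit 434272) (nat_lit 38) .nil)))) (.g (nat_lit 0) (.e (nat_lit 87789) (nat_lit 0) .nil) .nil)))) (.nd (nat_lit 9) 
(.lf (nat_lit 471354) (.g (nat_lit 2054) (.e (nat_lit 3402) (nat_lit 211) (.e (nat_lit 647183) (nat_lit 4) (.e (nat_lit 172119) (nat_lit 12) (.e (nat_lit 475199) (nat_lit 40) (.e (nat_lit 704598) (nat_lit 6) (.e (nat_lit 188427) (nat_lit 20) .nil)))))) (.g (nat_lit 1) (.e (nat_lit 87279) (nat_lit 0) .nil) .nil))) 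
(.lf (nat_lit 471866) (.g (nat_lit 1535) (.e (nat_lit 3408) (nat_lit 212) (.e (nat_lit 655380) (nat_lit 6) (.e (nat_lit 188434) (nat_lit 20) (.e (nat_lit 3409) (nat_lit 212) (.e (nat_lit 655380) (nat_lit 6) (.e (nat_lit 188438) (nat_lit 20) .nil)))))) (.g (nat_lit 1) (.e (nat_lit 88194) (nat_lit 0) .nil) .nil))))) (.nd (nat_lit 8) (.nd (nat_lit 9) 
(.lf (nat_lit 471226) (.g (nat_lit 1648) (.e (nat_lit 3401) (nat_lit 211) (.e (nat_lit 647183) (nat_lit 4) (.e (nat_lit 172119) (nat_lit 12) (.e (nat_lit 475198) (nat_lit 40) (.e (nat_lit 704598) (nat_lit 6) (.e (nat_lit 188431) (nat_lit 20) .nil)))))) (.g (nat_lit 1) (.e (nat_lit 87076) (nat_lit 0) .nil) .nil))) 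
(.lf (nat_lit 471738) (.g (nat_lit 4381) (.e (nat_lit 3408) (nat_lit 212) (.e (nat_lit 655375) (nat_lit 3) (.e (nat_lit 163979) (nat_lit 30) (.e (nat_lit 573493) (nat_lit 15) (.e (nat_lit 81953) (nat_lit 22) (.e (nat_lit 90170) (nat_lit 13) (.e (nat_lit 172042) (nat_lit 0) .nil))))))) (.g (nat_lit 1) (.e (nat_lit 87997) (nat_lit 0) .nil) .nil)))) (.nd (nat_lit 9) 
(.lf (nat_lit 471482) (.g (nat_lit 1750) (.e (nat_lit 3406) (nat_lit 212) (.e (nat_lit 655378) (nat_lit 4) (.e (nat_lit 172116) (nat_lit 10) (.e (nat_lit 434272) (nat_lit 38) (.e (nat_lit 655380) (nat_lit 6) (.e (nat_lit 188441) (nat_lit 20) .nil)))))) (.g (nat_lit 1) (.e (nat_lit 87561) (nat_lit 0) .nil) .nil))) 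
(.lf (nat_lit 471994) (.g (nat_lit 1676) (.e (nat_lit 3409) (nat_lit 212) (.e (nat_lit 655378) (nat_lit 4) (.e (nat_lit 172079) (nat_lit 7) (.e (nat_lit 409618) (nat_lit 10) (.e (nat_lit 5363) (nat_lit 298) .nil))))) (.g (nat_lit 0) (.e (nat_lit 88405) (nat_lit 0) .nil) .nil)))))) (.nd (nat_lit 7) (.nd (nat_lit 8) (.nd (nat_lit 9) 
(.lf (nat_lit 471162) (.g (nat_lit 2853) (.e (nat_lit 3399) (nat_lit 211) (.e (nat_lit 647185) (nat_lit 6) (.e (nat_lit 188453) (nat_lit 24) (.e (nat_lit 229665) (nat_lit 240) (.e (nat_lit 2651) (nat_lit 166) (.e (nat_lit 188431) (nat_lit 20) .nil)))))) (.g (nat_lit 1) (.e (nat_lit 86877) (nat_lit 0) .nil) .nil))) 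
(.lf (nat_lit 471674) (.g (nat_lit 377) (.e (nat_lit 3408) (nat_lit 212) (.e (nat_lit 655364) (nat_lit 0) (.e (nat_lit 2989) (nat_lit 186) .nil))) (.g (nat_lit 0) (.e (nat_lit 87896) (nat_lit 0) .nil) .nil)))) (.nd (nat_lit 9) 
(.lf (nat_lit 471418) (.g (nat_lit 2042) (.e (nat_lit 3406) (nat_lit 212) (.e (nat_lit 655375) (nat_lit 3) (.e (nat_lit 163978) (nat_lit 30) (.e (nat_lit 573485) (nat_lit 13) (.e (nat_lit 65604) (nat_lit 9) (.e (nat_lit 336028) (nat_lit 3) (.e (nat_lit 98359) (nat_lit 26) (.e (nat_lit 426041) (nat_lit 0) .nil)))))))) (.g (nat_lit 1) (.e (nat_lit 87447) (nat_lit 0) .nil) .nil))) 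
(.lf (nat_lit 471930) (.g (nat_lit 3797) (.e (nat_lit 3409) (nat_lit 212) (.e (nat_lit 655375) (nat_lit 3) (.e (nat_lit 163978) (nat_lit 30) (.e (nat_lit 573481) (nat_lit 13) (.e (nat_lit 65619) (nat_lit 10) (.e (nat_lit 344117) (nat_lit 21) (.e (nat_lit 516151) (nat_lit 9) (.e (nat_lit 426043) (nat_lit 0) .nil)))))))) (.g (nat_lit 1) (.e (nat_lit 88302) (nat_lit 0) .nil) .nil))))) 
(.nd (nat_lit 8) (.nd (nat_lit 9) 
(.lf (nat_lit 471290) (.g (nat_lit 1821) (.e (nat_lit 3402) (nat_lit 211) (.e (nat_lit 647183) (nat_lit 4) (.e (nat_lit 172079) (nat_lit 7) (.e (nat_lit 409642) (nat_lit 17) (.e (nat_lit 294974) (nat_lit 29) (.e (nat_lit 442396) (nat_lit 20) .nil)))))) (.g (nat_lit 1) (.e (nat_lit 87200) (nat_lit 0) .nil) .nil))) 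
(.lf (nat_lit 471802) (.g (nat_lit 2834) (.e (nat_lit 3408) (nat_lit 212) (.e (nat_lit 655378) (nat_lit 4) (.e (nat_lit 172115) (nat_lit 10) (.e (nat_lit 434272) (nat_lit 38) (.e (nat_lit 655380) (nat_lit 6) (.e (nat_lit 188441) (nat_lit 20) .nil)))))) (.g (nat_lit 1) (.e (nat_lit 88107) (nat_lit 0) .nil) .nil)))) (.nd (nat_lit 9) 
(.lf (nat_lit 471546) (.g (nat_lit 2825) (.e (nat_lit 3407) (nat_lit 212) (.e (nat_lit 655373) (nat_lit 3) (.e (nat_lit 163973) (nat_lit 30) (.e (nat_lit 573479) (nat_lit 13) (.e (nat_lit 65619) (nat_lit 10) (.e (nat_lit 344117) (nat_lit 21) (.e (nat_lit 516151) (nat_lit 9) (.e (nat_lit 426043) (nat_lit 0) .nil)))))))) (.g (nat_lit 1) (.e (nat_lit 87684) (nat_lit 0) .nil) .nil))) 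
(.lf (nat_lit 472058) (.g (nat_lit 2856) (.e (nat_lit 3409) (nat_lit 212) (.e (nat_lit 655378) (nat_lit 4) (.e (nat_lit 172124) (nat_lit 14) (.e (nat_lit 491550) (nat_lit 9) (.e (nat_lit 336430) (nat_lit 29) (.e (nat_lit 442409) (nat_lit 20) .nil)))))) (.g (nat_lit 1) (.e (nat_lit 88476) (nat_lit 0) .nil) .nil)))))))))) 
(.nd (nat_lit 3) (.nd (nat_lit 4) (.nd (nat_lit 5) (.nd (nat_lit 6) (.nd (nat_lit 7) 
(.nd (nat_lit 8) (.nd (nat_lit 9) 
(.lf (nat_lit 471046) (.g (nat_lit 3920) (.e (nat_lit 3399) (nat_lit 211) (.e (nat_lit 647181) (nat_lit 3) (.e (nat_lit 163979) (nat_lit 30) (.e (nat_lit 573492) (nat_lit 15) (.e (nat_lit 81956) (nat_lit 23) (.e (nat_lit 98354) (nat_lit 26) (.e (nat_lit 426025) (nat_lit 0) .nil))))))) (.g (nat_lit 1) (.e (nat_lit 86732) (nat_lit 0) .nil) .nil))) 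
(.lf (nat_lit 471558) (.g (nat_lit 360) (.e (nat_lit 3407) (nat_lit 212) (.e (nat_lit 655375) (nat_lit 3) (.e (nat_lit 163978) (nat_lit 30) .nil))) (.g (nat_lit 0) (.e (nat_lit 87698) (nat_lit 0) .nil) .nil)))) (.nd (nat_lit 9) 
(.lf (nat_lit 471302) (.g (nat_lit 1560) (.e (nat_lit 3402) (nat_lit 211) (.e (nat_lit 647183) (nat_lit 4) (.e (nat_lit 172081) (nat_lit 7) (.e (nat_lit 409642) (nat_lit 17) (.e (nat_lit 294974) (nat_lit 29) (.e (nat_lit 442398) (nat_lit 20) .nil)))))) (.g (nat_lit 1) (.e (nat_lit 87212) (nat_lit 0) .nil) .nil))) 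
(.lf (nat_lit 471814) (.g (nat_lit 1599) (.e (nat_lit 3408) (nat_lit 212) (.e (nat_lit 655378) (nat_lit 4) (.e (nat_lit 172118) (nat_lit 12) (.e (nat_lit 475197) (nat_lit 40) (.e (nat_lit 704598) (nat_lit 6) (.e (nat_lit 188439) (nat_lit 20) .nil)))))) (.g (nat_lit 1) (.e (nat_lit 88119) (nat_lit 0) .nil) .nil))))) (.nd (nat_lit 8) (.nd (nat_lit 9) 
(.lf (nat_lit 471174) (.g (nat_lit 3521) (.e (nat_lit 3401) (nat_lit 211) (.e (nat_lit 647181) (nat_lit 3) (.e (nat_lit 163977) (nat_lit 30) (.e (nat_lit 573482) (nat_lit 13) (.e (nat_lit 65619) (nat_lit 10) (.e (nat_lit 344117) (nat_lit 21) (.e (nat_lit 516151) (nat_lit 9) (.e (nat_lit 426003) (nat_lit 0) .nil)))))))) (.g (nat_lit 1) (.e (nat_lit 86969) (nat_lit 0) .nil) .nil))) 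
(.lf (nat_lit 471686) (.g (nat_lit 4068) (.e (nat_lit 3408) (nat_lit 212) (.e (nat_lit 655375) (nat_lit 3) (.e (nat_lit 163977) (nat_lit 30) (.e (nat_lit 573493) (nat_lit 15) (.e (nat_lit 81953) (nat_lit 22) (.e (nat_lit 90170) (nat_lit 13) (.e (nat_lit 172042) (nat_lit 0) .nil))))))) (.g (nat_lit 1) (.e (nat_lit 87932) (nat_lit 0) .nil) .nil)))) (.nd (nat_lit 9) 
(.lf (nat_lit 471430) (.g (nat_lit 2443) (.e (nat_lit 3406) (nat_lit 212) (.e (nat_lit 655375) (nat_lit 3) (.e (nat_lit 163979) (nat_lit 30) (.e (nat_lit 573492) (nat_lit 15) (.e (nat_lit 81956) (nat_lit 23) (.e (nat_lit 98355) (nat_lit 26) (.e (nat_lit 426095) (nat_lit 0) .nil))))))) (.g (nat_lit 1) (.e (nat_lit 87466) (nat_lit 0) .nil) .nil))) 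
(.lf (nat_lit 471942) (.g (nat_lit 2463) (.e (nat_lit 3409) (nat_lit 212) (.e (nat_lit 655375) (nat_lit 3) (.e (nat_lit 163978) (nat_lit 30) (.e (nat_lit 573485) (nat_lit 13) (.e (nat_lit 65604) (nat_lit 9) (.e (nat_lit 336013) (nat_lit 2) (.e (nat_lit 90170) (nat_lit 13) (.e (nat_lit 172032) (nat_lit 0) .nil)))))))) (.g (nat_lit 1) (.e (nat_lit 88314) (nat_lit 0) .nil) .nil)))))) 
(.nd (nat_lit 7) (.nd (nat_lit 8) (.nd (nat_lit 9) 
(.lf (nat_lit 471110) (.g (nat_lit 2636) (.e (nat_lit 3399) (nat_lit 211) (.e (nat_lit 647183) (nat_lit 4) (.e (nat_lit 172124) (nat_lit 14) (.e (nat_lit 491571) (nat_lit 13) (.e (nat_lit 393274) (nat_lit 23) (.e (nat_lit 426022) (nat_lit 0) .nil)))))) (.g (nat_lit 1) (.e (nat_lit 86804) (nat_lit 0) .nil) .nil))) 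
(.lf (nat_lit 471622) (.g (nat_lit 1513) (.e (nat_lit 3407) (nat_lit 212) (.e (nat_lit 655378) (nat_lit 4) (.e (nat_lit 172118) (nat_lit 12) (.e (nat_lit 475197) (nat_lit 40) (.e (nat_lit 704598) (nat_lit 6) .nil))))) (.g (nat_lit 0) (.e (nat_lit 87802) (nat_lit 0) .nil) .nil)))) (.nd (nat_lit 9) 
(.lf (nat_lit 471366) (.g (nat_lit 1979) (.e (nat_lit 3402) (nat_lit 211) (.e (nat_lit 647183) (nat_lit 4) (.e (nat_lit 172124) (nat_lit 14) (.e (nat_lit 491556) (nat_lit 9) (.e (nat_lit 336429) (nat_lit 29) (.e (nat_lit 442399) (nat_lit 20) .nil)))))) (.g (nat_lit 1) (.e (nat_lit 87291) (nat_lit 0) .nil) .nil))) 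
(.lf (nat_lit 471878) (.g (nat_lit 1374) (.e (nat_lit 3408) (nat_lit 212) (.e (nat_lit 655380) (nat_lit 6) (.e (nat_lit 188440) (nat_lit 20) (.e (nat_lit 3408) (nat_lit 212) (.e (nat_lit 655380) (nat_lit 6) (.e (nat_lit 188435) (nat_lit 20) .nil)))))) (.g (nat_lit 1) (.e (nat_lit 88206) (nat_lit 0) .nil) .nil))))) (.nd (nat_lit 8) (.nd (nat_lit 9) 
(.lf (nat_lit 471238) (.g (nat_lit 357) (.e (nat_lit 3401) (nat_lit 211) (.e (nat_lit 647185) (nat_lit 6) (.e (nat_lit 188418) (nat_lit 0) .nil))) (.g (nat_lit 0) (.e (nat_lit 87108) (nat_lit 0) .nil) .nil))) 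
(.lf (nat_lit 471750) (.g (nat_lit 1498) (.e (nat_lit 3408) (nat_lit 212) (.e (nat_lit 655378) (nat_lit 4) (.e (nat_lit 172089) (nat_lit 9) (.e (nat_lit 426025) (nat_lit 0) (.e (nat_lit 3399) (nat_lit 211) .nil))))) (.g (nat_lit 0) (.e (nat_lit 88045) (nat_lit 0) .nil) .nil)))) (.nd (nat_lit 9) 
(.lf (nat_lit 471494) (.g (nat_lit 2448) (.e (nat_lit 3406) (nat_lit 212) (.e (nat_lit 655378) (nat_lit 4) (.e (nat_lit 172120) (nat_lit 12) (.e (nat_lit 475198) (nat_lit 40) (.e (nat_lit 704598) (nat_lit 6) (.e (nat_lit 188439) (nat_lit 20) .nil)))))) (.g (nat_lit 1) (.e (nat_lit 87576) (nat_lit 0) .nil) .nil))) 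
(.lf (nat_lit 472006) (.g (nat_lit 2224) (.e (nat_lit 3409) (nat_lit 212) (.e (nat_lit 655378) (nat_lit 4) (.e (nat_lit 172094) (nat_lit 9) (.e (nat_lit 426025) (nat_lit 0) (.e (nat_lit 3399) (nat_lit 211) (.e (nat_lit 647185) (nat_lit 6) (.e (nat_lit 188440) (nat_lit 20) .nil))))))) (.g (nat_lit 1) (.e (nat_lit 88419) (nat_lit 0) .nil) .nil))))))) 
(.nd (nat_lit 6) (.nd (nat_lit 7) (.nd (nat_lit 8) (.nd (nat_lit 9) 
(.lf (nat_lit 471078) (.g (nat_lit 1946) (.e (nat_lit 3399) (nat_lit 211) (.e (nat_lit 647183) (nat_lit 4) (.e (nat_lit 172112) (nat_lit 10) (.e (nat_lit 434271) (nat_lit 38) (.e (nat_lit 655380) (nat_lit 6) (.e (nat_lit 188431) (nat_lit 20) .nil)))))) (.g (nat_lit 1) (.e (nat_lit 86770) (nat_lit 0) .nil) .nil))) 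
(.lf (nat_lit 471590) (.g (nat_lit 1445) (.e (nat_lit 3407) (nat_lit 212) (.e (nat_lit 655376) (nat_lit 4) (.e (nat_lit 172120) (nat_lit 12) (.e (nat_lit 475198) (nat_lit 40) (.e (nat_lit 704598) (nat_lit 6) (.e (nat_lit 188439) (nat_lit 20) .nil)))))) (.g (nat_lit 1) (.e (nat_lit 87740) (nat_lit 0) .nil) .nil)))) (.nd (nat_lit 9) 
(.lf (nat_lit 471334) (.g (nat_lit 2545) (.e (nat_lit 3402) (nat_lit 211) (.e (nat_lit 647183) (nat_lit 4) (.e (nat_lit 172113) (nat_lit 10) (.e (nat_lit 434271) (nat_lit 38) (.e (nat_lit 655380) (nat_lit 6) (.e (nat_lit 188431) (nat_lit 20) .nil)))))) (.g (nat_lit 1) (.e (nat_lit 87257) (nat_lit 0) .nil) .nil))) 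
(.lf (nat_lit 471846) (.g (nat_lit 2799) (.e (nat_lit 3408) (nat_lit 212) (.e (nat_lit 655378) (nat_lit 4) (.e (nat_lit 172125) (nat_lit 14) (.e (nat_lit 491549) (nat_lit 9) (.e (nat_lit 336430) (nat_lit 29) (.e (nat_lit 442409) (nat_lit 20) .nil)))))) (.g (nat_lit 1) (.e (nat_lit 88159) (nat_lit 0) .nil) .nil))))) (.nd (nat_lit 8) (.nd (nat_lit 9) 
(.lf (nat_lit 471206) (.g (nat_lit 1458) (.e (nat_lit 3401) (nat_lit 211) (.e (nat_lit 647183) (nat_lit 4) (.e (nat_lit 172097) (nat_lit 9) (.e (nat_lit 426025) (nat_lit 0) (.e (nat_lit 3399) (nat_lit 211) .nil))))) (.g (nat_lit 0) (.e (nat_lit 87027) (nat_lit 0) .nil) .nil))) 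
(.lf (nat_lit 471718) (.g (nat_lit 4291) (.e (nat_lit 3408) (nat_lit 212) (.e (nat_lit 655375) (nat_lit 3) (.e (nat_lit 163978) (nat_lit 30) (.e (nat_lit 573493) (nat_lit 15) (.e (nat_lit 81954) (nat_lit 23) (.e (nat_lit 98359) (nat_lit 26) (.e (nat_lit 426043) (nat_lit 0) .nil))))))) (.g (nat_lit 1) (.e (nat_lit 87965) (nat_lit 0) .nil) .nil)))) (.nd (nat_lit 9) 
(.lf (nat_lit 471462) (.g (nat_lit 1321) (.e (nat_lit 3406) (nat_lit 212) (.e (nat_lit 655378) (nat_lit 4) (.e (nat_lit 172113) (nat_lit 10) (.e (nat_lit 434271) (nat_lit 38) .nil)))) (.g (nat_lit 0) (.e (nat_lit 87540) (nat_lit 0) .nil) .nil))) 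
(.lf (nat_lit 471974) (.g (nat_lit 4376) (.e (nat_lit 3409) (nat_lit 212) (.e (nat_lit 655375) (nat_lit 3) (.e (nat_lit 163979) (nat_lit 30) (.e (nat_lit 573492) (nat_lit 15) (.e (nat_lit 81956) (nat_lit 23) (.e (nat_lit 98360) (nat_lit 26) (.e (nat_lit 426045) (nat_lit 0) .nil))))))) (.g (nat_lit 1) (.e (nat_lit 88373) (nat_lit 0) .nil) .nil)))))) 
(.nd (nat_lit 7) (.nd (nat_lit 8) (.nd (nat_lit 9) 
(.lf (nat_lit 471142) (.g (nat_lit 705) (.e (nat_lit 3399) (nat_lit 211) (.e (nat_lit 647185) (nat_lit 6) (.e (nat_lit 188418) (nat_lit 0) (.e (nat_lit 2056) (nat_lit 142) .nil)))) (.g (nat_lit 0) (.e (nat_lit 86851) (nat_lit 0) .nil) .nil))) 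
(.lf (nat_lit 471654) (.g (nat_lit 1172) (.e (nat_lit 3407) (nat_lit 212) (.e (nat_lit 655380) (nat_lit 6) (.e (nat_lit 188439) (nat_lit 20) (.e (nat_lit 3407) (nat_lit 212) (.e (nat_lit 655380) (nat_lit 6) (.e (nat_lit 188439) (nat_lit 20) .nil)))))) (.g (nat_lit 1) (.e (nat_lit 87856) (nat_lit 0) .nil) .nil)))) (.nd (nat_lit 9) 
(.lf (nat_lit 471398) (.g (nat_lit 2071) (.e (nat_lit 3406) (nat_lit 212) (.e (nat_lit 655375) (nat_lit 3) (.e (nat_lit 163977) (nat_lit 30) (.e (nat_lit 573481) (nat_lit 13) (.e (nat_lit 65604) (nat_lit 9) (.e (nat_lit 336013) (nat_lit 2) (.e (nat_lit 90170) (nat_lit 13) (.e (nat_lit 172049) (nat_lit 0) .nil)))))))) (.g (nat_lit 1) (.e (nat_lit 87427) (nat_lit 0) .nil) .nil))) 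
(.lf (nat_lit 471910) (.g (nat_lit 2164) (.e (nat_lit 3409) (nat_lit 212) (.e (nat_lit 655375) (nat_lit 3) (.e (nat_lit 163977) (nat_lit 30) (.e (nat_lit 573481) (nat_lit 13) (.e (nat_lit 65604) (nat_lit 9) (.e (nat_lit 336013) (nat_lit 2) (.e (nat_lit 90170) (nat_lit 13) (.e (nat_lit 172049) (nat_lit 0) .nil)))))))) (.g (nat_lit 1) (.e (nat_lit 88282) (nat_lit 0) .nil) .nil))))) 
(.nd (nat_lit 8) (.nd (nat_lit 9) 
(.lf (nat_lit 471270) (.g (nat_lit 3896) (.e (nat_lit 3402) (nat_lit 211) (.e (nat_lit 647181) (nat_lit 3) (.e (nat_lit 163977) (nat_lit 30) (.e (nat_lit 573491) (nat_lit 15) (.e (nat_lit 81951) (nat_lit 22) (.e (nat_lit 90170) (nat_lit 13) (.e (nat_lit 172035) (nat_lit 0) .nil))))))) (.g (nat_lit 1) (.e (nat_lit 87165) (nat_lit 0) .nil) .nil))) 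
(.lf (nat_lit 471782) (.g (nat_lit 1795) (.e (nat_lit 3408) (nat_lit 212) (.e (nat_lit 655378) (nat_lit 4) (.e (nat_lit 172112) (nat_lit 10) (.e (nat_lit 434272) (nat_lit 38) (.e (nat_lit 655380) (nat_lit 6) (.e (nat_lit 188438) (nat_lit 20) .nil)))))) (.g (nat_lit 1) (.e (nat_lit 88085) (nat_lit 0) .nil) .nil)))) (.nd (nat_lit 9) 
(.lf (nat_lit 471526) (.g (nat_lit 1198) (.e (nat_lit 3406) (nat_lit 212) (.e (nat_lit 655380) (nat_lit 6) (.e (nat_lit 188438) (nat_lit 20) (.e (nat_lit 3409) (nat_lit 212) (.e (nat_lit 655380) (nat_lit 6) (.e (nat_lit 188439) (nat_lit 20) .nil)))))) (.g (nat_lit 1) (.e (nat_lit 87634) (nat_lit 0) .nil) .nil))) 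
(.lf (nat_lit 472038) (.g (nat_lit 3025) (.e (nat_lit 3409) (nat_lit 212) (.e (nat_lit 655378) (nat_lit 4) (.e (nat_lit 172115) (nat_lit 10) (.e (nat_lit 434271) (nat_lit 38) (.e (nat_lit 655380) (nat_lit 6) (.e (nat_lit 188441) (nat_lit 20) .nil)))))) (.g (nat_lit 1) (.e (nat_lit 88455) (nat_lit 0) .nil) .nil)))))))) 
(.nd (nat_lit 5) (.nd (nat_lit 6) (.nd (nat_lit 7) (.nd (nat_lit 8) (.nd (nat_lit 9) 
(.lf (nat_lit 471062) (.g (nat_lit 1616) (.e (nat_lit 3399) (nat_lit 211) (.e (nat_lit 647183) (nat_lit 4) (.e (nat_lit 172081) (nat_lit 7) (.e (nat_lit 409642) (nat_lit 17) (.e (nat_lit 294974) (nat_lit 29) (.e (nat_lit 442398) (nat_lit 20) .nil)))))) (.g (nat_lit 1) (.e (nat_lit 86754) (nat_lit 0) .nil) .nil))) 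
(.lf (nat_lit 471574) (.g (nat_lit 4182) (.e (nat_lit 3407) (nat_lit 212) (.e (nat_lit 655375) (nat_lit 3) (.e (nat_lit 163978) (nat_lit 30) (.e (nat_lit 573493) (nat_lit 15) (.e (nat_lit 81951) (nat_lit 22) (.e (nat_lit 90170) (nat_lit 13) (.e (nat_lit 172049) (nat_lit 0) .nil))))))) (.g (nat_lit 1) (.e (nat_lit 87714) (nat_lit 0) .nil) .nil)))) (.nd (nat_lit 9) 
(.lf (nat_lit 471318) (.g (nat_lit 1918) (.e (nat_lit 3402) (nat_lit 211) (.e (nat_lit 647183) (nat_lit 4) (.e (nat_lit 172106) (nat_lit 10) (.e (nat_lit 434209) (nat_lit 18) (.e (nat_lit 5548) (nat_lit 306) (.e (nat_lit 2648) (nat_lit 166) (.e (nat_lit 188430) (nat_lit 20) .nil))))))) (.g (nat_lit 1) (.e (nat_lit 87238) (nat_lit 0) .nil) .nil))) 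
(.lf (nat_lit 471830) (.g (nat_lit 2438) (.e (nat_lit 3408) (nat_lit 212) (.e (nat_lit 655378) (nat_lit 4) (.e (nat_lit 172120) (nat_lit 12) (.e (nat_lit 475197) (nat_lit 40) (.e (nat_lit 704598) (nat_lit 6) (.e (nat_lit 188439) (nat_lit 20) .nil)))))) (.g (nat_lit 1) (.e (nat_lit 88138) (nat_lit 0) .nil) .nil))))) (.nd (nat_lit 8) (.nd (nat_lit 9) 
(.lf (nat_lit 471190) (.g (nat_lit 4525) (.e (nat_lit 3401) (nat_lit 211) (.e (nat_lit 647181) (nat_lit 3) (.e (nat_lit 163978) (nat_lit 30) (.e (nat_lit 573479) (nat_lit 13) (.e (nat_lit 65619) (nat_lit 10) (.e (nat_lit 344117) (nat_lit 21) (.e (nat_lit 516151) (nat_lit 9) (.e (nat_lit 426023) (nat_lit 0) .nil)))))))) (.g (nat_lit 1) (.e (nat_lit 86985) (nat_lit 0) .nil) .nil))) 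
(.lf (nat_lit 471702) (.g (nat_lit 4860) (.e (nat_lit 3408) (nat_lit 212) (.e (nat_lit 655375) (nat_lit 3) (.e (nat_lit 163978) (nat_lit 30) (.e (nat_lit 573485) (nat_lit 13) (.e (nat_lit 65604) (nat_lit 9) (.e (nat_lit 336013) (nat_lit 2) (.e (nat_lit 90170) (nat_lit 13) (.e (nat_lit 172049) (nat_lit 0) .nil)))))))) (.g (nat_lit 1) (.e (nat_lit 87948) (nat_lit 0) .nil) .nil)))) (.nd (nat_lit 9) 
(.lf (nat_lit 471446) (.g (nat_lit 1826) (.e (nat_lit 3406) (nat_lit 212) (.e (nat_lit 655378) (nat_lit 4) (.e (nat_lit 172094) (nat_lit 9) (.e (nat_lit 426025) (nat_lit 0) (.e (nat_lit 3399) (nat_lit 211) .nil))))) (.g (nat_lit 0) (.e (nat_lit 87514) (nat_lit 0) .nil) .nil))) 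
(.lf (nat_lit 471958) (.g (nat_lit 2567) (.e (nat_lit 3409) (nat_lit 212) (.e (nat_lit 655375) (nat_lit 3) (.e (nat_lit 163978) (nat_lit 30) (.e (nat_lit 573493) (nat_lit 15) (.e (nat_lit 81956) (nat_lit 23) (.e (nat_lit 98359) (nat_lit 26) (.e (nat_lit 426042) (nat_lit 0) .nil))))))) (.g (nat_lit 1) (.e (nat_lit 88342) (nat_lit 0) .nil) .nil)))))) 
(.nd (nat_lit 7) (.nd (nat_lit 8) (.nd (nat_lit 9) 
(.lf (nat_lit 471126) (.g (nat_lit 2103) (.e (nat_lit 3399) (nat_lit 211) (.e (nat_lit 647183) (nat_lit 4) (.e (nat_lit 172126) (nat_lit 14) (.e (nat_lit 491549) (nat_lit 9) (.e (nat_lit 336428) (nat_lit 29) (.e (nat_lit 442399) (nat_lit 20) .nil)))))) (.g (nat_lit 1) (.e (nat_lit 86820) (nat_lit 0) .nil) .nil))) 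
(.lf (nat_lit 471638) (.g (nat_lit 1419) (.e (nat_lit 3407) (nat_lit 212) (.e (nat_lit 655380) (nat_lit 6) (.e (nat_lit 188420) (nat_lit 0) (.e (nat_lit 2058) (nat_lit 142) (.e (nat_lit 704598) (nat_lit 6) (.e (nat_lit 188439) (nat_lit 20) .nil)))))) (.g (nat_lit 1) (.e (nat_lit 87836) (nat_lit 0) .nil) .nil)))) (.nd (nat_lit 9) 
(.lf (nat_lit 471382) (.g (nat_lit 4468) (.e (nat_lit 3403) (nat_lit 212) (.e (nat_lit 655375) (nat_lit 3) (.e (nat_lit 163979) (nat_lit 30) (.e (nat_lit 573492) (nat_lit 15) (.e (nat_lit 81956) (nat_lit 23) (.e (nat_lit 98356) (nat_lit 26) (.e (nat_lit 425994) (nat_lit 0) .nil))))))) (.g (nat_lit 1) (.e (nat_lit 87354) (nat_lit 0) .nil) .nil))) 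
(.lf (nat_lit 471894) (.g (nat_lit 2895) (.e (nat_lit 3408) (nat_lit 212) (.e (nat_lit 655380) (nat_lit 6) (.e (nat_lit 188455) (nat_lit 24) (.e (nat_lit 229663) (nat_lit 240) (.e (nat_lit 2653) (nat_lit 166) (.e (nat_lit 188440) (nat_lit 20) .nil)))))) (.g (nat_lit 1) (.e (nat_lit 88228) (nat_lit 0) .nil) .nil))))) (.nd (nat_lit 8) (.nd (nat_lit 9) 
(.lf (nat_lit 471254) (.g (nat_lit 5138) (.e (nat_lit 3402) (nat_lit 211) (.e (nat_lit 647180) (nat_lit 3) (.e (nat_lit 163978) (nat_lit 30) (.e (nat_lit 573484) (nat_lit 13) (.e (nat_lit 65610) (nat_lit 10) (.e (nat_lit 344117) (nat_lit 21) (.e (nat_lit 516151) (nat_lit 9) (.e (nat_lit 426022) (nat_lit 0) .nil)))))))) (.g (nat_lit 1) (.e (nat_lit 87149) (nat_lit 0) .nil) .nil))) 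
(.lf (nat_lit 471766) (.g (nat_lit 2440) (.e (nat_lit 3408) (nat_lit 212) (.e (nat_lit 655378) (nat_lit 4) (.e (nat_lit 172106) (nat_lit 10) (.e (nat_lit 434272) (nat_lit 38) (.e (nat_lit 655380) (nat_lit 6) (.e (nat_lit 188435) (nat_lit 20) .nil)))))) (.g (nat_lit 1) (.e (nat_lit 88069) (nat_lit 0) .nil) .nil)))) (.nd (nat_lit 9) 
(.lf (nat_lit 471510) (.g (nat_lit 1305) (.e (nat_lit 3406) (nat_lit 212) (.e (nat_lit 655380) (nat_lit 6) (.e (nat_lit 188420) (nat_lit 0) (.e (nat_lit 2056) (nat_lit 142) (.e (nat_lit 704598) (nat_lit 6) (.e (nat_lit 188434) (nat_lit 20) .nil)))))) (.g (nat_lit 1) (.e (nat_lit 87617) (nat_lit 0) .nil) .nil))) 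
(.lf (nat_lit 472022) (.g (nat_lit 2264) (.e (nat_lit 3409) (nat_lit 212) (.e (nat_lit 655378) (nat_lit 4) (.e (nat_lit 172112) (nat_lit 10) (.e (nat_lit 434271) (nat_lit 38) (.e (nat_lit 655380) (nat_lit 6) (.e (nat_lit 188434) (nat_lit 20) .nil)))))) (.g (nat_lit 1) (.e (nat_lit 88437) (nat_lit 0) .nil) .nil))))))) (.nd (nat_lit 6) (.nd (nat_lit 7) (.nd (nat_lit 8) (.nd (nat_lit 9) 
(.lf (nat_lit 471094) (.g (nat_lit 1325) (.e (nat_lit 3399) (nat_lit 211) (.e (nat_lit 647183) (nat_lit 4) (.e (nat_lit 172124) (nat_lit 14) (.e (nat_lit 491548) (nat_lit 9) (.e (nat_lit 336430) (nat_lit 29) (.e (nat_lit 442398) (nat_lit 20) .nil)))))) (.g (nat_lit 1) (.e (nat_lit 86788) (nat_lit 0) .nil) .nil))) 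
(.lf (nat_lit 471606) (.g (nat_lit 1831) (.e (nat_lit 3407) (nat_lit 212) (.e (nat_lit 655378) (nat_lit 4) (.e (nat_lit 172112) (nat_lit 10) (.e (nat_lit 434272) (nat_lit 38) (.e (nat_lit 655380) (nat_lit 6) (.e (nat_lit 188438) (nat_lit 20) .nil)))))) (.g (nat_lit 1) (.e (nat_lit 87785) (nat_lit 0) .nil) .nil)))) (.nd (nat_lit 9) 
(.lf (nat_lit 471350) (.g (nat_lit 1269) (.e (nat_lit 3402) (nat_lit 211) (.e (nat_lit 647183) (nat_lit 4) (.e (nat_lit 172118) (nat_lit 12) (.e (nat_lit 475199) (nat_lit 40) (.e (nat_lit 704599) (nat_lit 6) .nil))))) (.g (nat_lit 0) (.e (nat_lit 87275) (nat_lit 0) .nil) .nil))) 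
(.lf (nat_lit 471862) (.g (nat_lit 1890) (.e (nat_lit 3408) (nat_lit 212) (.e (nat_lit 655380) (nat_lit 6) (.e (nat_lit 188434) (nat_lit 20) (.e (nat_lit 3408) (nat_lit 212) (.e (nat_lit 655380) (nat_lit 6) (.e (nat_lit 188434) (nat_lit 20) .nil)))))) (.g (nat_lit 1) (.e (nat_lit 88190) (nat_lit 0) .nil) .nil))))) (.nd (nat_lit 8) (.nd (nat_lit 9) 
(.lf (nat_lit 471222) (.g (nat_lit 2066) (.e (nat_lit 3401) (nat_lit 211) (.e (nat_lit 647183) (nat_lit 4) (.e (nat_lit 172116) (nat_lit 10) (.e (nat_lit 434272) (nat_lit 38) (.e (nat_lit 655380) (nat_lit 6) (.e (nat_lit 188431) (nat_lit 20) .nil)))))) (.g (nat_lit 1) (.e (nat_lit 87065) (nat_lit 0) .nil) .nil))) 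
(.lf (nat_lit 471734) (.g (nat_lit 3441) (.e (nat_lit 3408) (nat_lit 212) (.e (nat_lit 655375) (nat_lit 3) (.e (nat_lit 163979) (nat_lit 30) (.e (nat_lit 573492) (nat_lit 15) (.e (nat_lit 81956) (nat_lit 23) (.e (nat_lit 98360) (nat_lit 26) (.e (nat_lit 426041) (nat_lit 0) .nil))))))) (.g (nat_lit 1) (.e (nat_lit 87993) (nat_lit 0) .nil) .nil)))) (.nd (nat_lit 9) 
(.lf (nat_lit 471478) (.g (nat_lit 1705) (.e (nat_lit 3406) (nat_lit 212) (.e (nat_lit 655378) (nat_lit 4) (.e (nat_lit 172116) (nat_lit 10) (.e (nat_lit 434271) (nat_lit 38) (.e (nat_lit 655380) (nat_lit 6) (.e (nat_lit 188439) (nat_lit 20) .nil)))))) (.g (nat_lit 1) (.e (nat_lit 87557) (nat_lit 0) .nil) .nil))) 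
(.lf (nat_lit 471990) (.g (nat_lit 1751) (.e (nat_lit 3409) (nat_lit 212) (.e (nat_lit 655378) (nat_lit 4) (.e (nat_lit 172038) (nat_lit 0) (.e (nat_lit 6989) (nat_lit 377) (.e (nat_lit 2779) (nat_lit 178) (.e (nat_lit 286771) (nat_lit 29) (.e (nat_lit 442409) (nat_lit 20) .nil))))))) (.g (nat_lit 1) (.e (nat_lit 88401) (nat_lit 0) .nil) .nil)))))) 
(.nd (nat_lit 7) (.nd (nat_lit 8) (.nd (nat_lit 9) 
(.lf (nat_lit 471158) (.g (nat_lit 2038) (.e (nat_lit 3399) (nat_lit 211) (.e (nat_lit 647185) (nat_lit 6) (.e (nat_lit 188441) (nat_lit 20) (.e (nat_lit 3408) (nat_lit 212) (.e (nat_lit 655380) (nat_lit 6) (.e (nat_lit 188431) (nat_lit 20) .nil)))))) (.g (nat_lit 1) (.e (nat_lit 86869) (nat_lit 0) .nil) .nil))) 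
(.lf (nat_lit 471670) (.g (nat_lit 2873) (.e (nat_lit 3407) (nat_lit 212) (.e (nat_lit 655380) (nat_lit 6) (.e (nat_lit 188455) (nat_lit 24) (.e (nat_lit 229665) (nat_lit 240) (.e (nat_lit 2651) (nat_lit 166) (.e (nat_lit 188439) (nat_lit 20) .nil)))))) (.g (nat_lit 1) (.e (nat_lit 87879) (nat_lit 0) .nil) .nil)))) (.nd (nat_lit 9) 
(.lf (nat_lit 471414) (.g (nat_lit 2552) (.e (nat_lit 3406) (nat_lit 212) (.e (nat_lit 655375) (nat_lit 3) (.e (nat_lit 163978) (nat_lit 30) (.e (nat_lit 573483) (nat_lit 13) (.e (nat_lit 65604) (nat_lit 9) (.e (nat_lit 336013) (nat_lit 2) (.e (nat_lit 90170) (nat_lit 13) (.e (nat_lit 172042) (nat_lit 0) .nil)))))))) (.g (nat_lit 1) (.e (nat_lit 87443) (nat_lit 0) .nil) .nil))) 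
(.lf (nat_lit 471926) (.g (nat_lit 5210) (.e (nat_lit 3409) (nat_lit 212) (.e (nat_lit 655375) (nat_lit 3) (.e (nat_lit 163978) (nat_lit 30) (.e (nat_lit 573479) (nat_lit 13) (.e (nat_lit 65619) (nat_lit 10) (.e (nat_lit 344117) (nat_lit 21) (.e (nat_lit 516151) (nat_lit 9) (.e (nat_lit 426043) (nat_lit 0) .nil)))))))) (.g (nat_lit 1) (.e (nat_lit 88298) (nat_lit 0) .nil) .nil))))) 
(.nd (nat_lit 8) (.nd (nat_lit 9) 
(.lf (nat_lit 471286) (.g (nat_lit 3584) (.e (nat_lit 3402) (nat_lit 211) (.e (nat_lit 647181) (nat_lit 3) (.e (nat_lit 163979) (nat_lit 30) (.e (nat_lit 573493) (nat_lit 15) (.e (nat_lit 81956) (nat_lit 23) (.e (nat_lit 98359) (nat_lit 26) (.e (nat_lit 426022) (nat_lit 0) .nil))))))) (.g (nat_lit 1) (.e (nat_lit 87181) (nat_lit 0) .nil) .nil))) 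
(.lf (nat_lit 471798) (.g (nat_lit 2556) (.e (nat_lit 3408) (nat_lit 212) (.e (nat_lit 655378) (nat_lit 4) (.e (nat_lit 172115) (nat_lit 10) (.e (nat_lit 434271) (nat_lit 38) (.e (nat_lit 655380) (nat_lit 6) (.e (nat_lit 188440) (nat_lit 20) .nil)))))) (.g (nat_lit 1) (.e (nat_lit 88103) (nat_lit 0) .nil) .nil)))) (.nd (nat_lit 9) 
(.lf (nat_lit 471542) (.g (nat_lit 643) (.e (nat_lit 3407) (nat_lit 212) (.e (nat_lit 655363) (nat_lit 0) (.e (nat_lit 3004) (nat_lit 186) (.e (nat_lit 450304) (nat_lit 4) .nil)))) (.g (nat_lit 0) (.e (nat_lit 87655) (nat_lit 0) .nil) .nil))) 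
(.lf (nat_lit 472054) (.g (nat_lit 2549) (.e (nat_lit 3409) (nat_lit 212) (.e (nat_lit 655378) (nat_lit 4) (.e (nat_lit 172120) (nat_lit 12) (.e (nat_lit 475199) (nat_lit 40) (.e (nat_lit 704598) (nat_lit 6) (.e (nat_lit 188435) (nat_lit 20) .nil)))))) (.g (nat_lit 1) (.e (nat_lit 88472) (nat_lit 0) .nil) .nil))))))))) 
(.nd (nat_lit 4) (.nd (nat_lit 5) (.nd (nat_lit 6) (.nd (nat_lit 7) (.nd (nat_lit 8) 
(.nd (nat_lit 9) 
(.lf (nat_lit 471054) (.g (nat_lit 444) (.e (nat_lit 3399) (nat_lit 211) (.e (nat_lit 647183) (nat_lit 4) (.e (nat_lit 172077) (nat_lit 7) .nil))) (.g (nat_lit 0) (.e (nat_lit 86746) (nat_lit 0) .nil) .nil))) 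
(.lf (nat_lit 471566) (.g (nat_lit 4798) (.e (nat_lit 3407) (nat_lit 212) (.e (nat_lit 655375) (nat_lit 3) (.e (nat_lit 163978) (nat_lit 30) (.e (nat_lit 573482) (nat_lit 13) (.e (nat_lit 65619) (nat_lit 10) (.e (nat_lit 344117) (nat_lit 21) (.e (nat_lit 516151) (nat_lit 9) (.e (nat_lit 426043) (nat_lit 0) .nil)))))))) (.g (nat_lit 1) (.e (nat_lit 87706) (nat_lit 0) .nil) .nil)))) 
(.nd (nat_lit 9) 
(.lf (nat_lit 471310) (.g (nat_lit 1941) (.e (nat_lit 3402) (nat_lit 211) (.e (nat_lit 647183) (nat_lit 4) (.e (nat_lit 172094) (nat_lit 9) (.e (nat_lit 426025) (nat_lit 0) (.e (nat_lit 3399) (nat_lit 211) (.e (nat_lit 647185) (nat_lit 6) (.e (nat_lit 188428) (nat_lit 20) .nil))))))) (.g (nat_lit 1) (.e (nat_lit 87221) (nat_lit 0) .nil) .nil))) 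
(.lf (nat_lit 471822) (.g (nat_lit 2317) (.e (nat_lit 3408) (nat_lit 212) (.e (nat_lit 655378) (nat_lit 4) (.e (nat_lit 172118) (nat_lit 12) (.e (nat_lit 475199) (nat_lit 40) (.e (nat_lit 704598) (nat_lit 6) (.e (nat_lit 188439) (nat_lit 20) .nil)))))) (.g (nat_lit 1) (.e (nat_lit 88127) (nat_lit 0) .nil) .nil))))) (.nd (nat_lit 8) (.nd (nat_lit 9) 
(.lf (nat_lit 471182) (.g (nat_lit 3848) (.e (nat_lit 3401) (nat_lit 211) (.e (nat_lit 647181) (nat_lit 3) (.e (nat_lit 163977) (nat_lit 30) (.e (nat_lit 573491) (nat_lit 15) (.e (nat_lit 81951) (nat_lit 22) (.e (nat_lit 90170) (nat_lit 13) (.e (nat_lit 172035) (nat_lit 0) .nil))))))) (.g (nat_lit 1) (.e (nat_lit 86977) (nat_lit 0) .nil) .nil))) 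
(.lf (nat_lit 471694) (.g (nat_lit 4787) (.e (nat_lit 3408) (nat_lit 212) (.e (nat_lit 655375) (nat_lit 3) (.e (nat_lit 163978) (nat_lit 30) (.e (nat_lit 573482) (nat_lit 13) (.e (nat_lit 65604) (nat_lit 9) (.e (nat_lit 336013) (nat_lit 2) (.e (nat_lit 90170) (nat_lit 13) (.e (nat_lit 172042) (nat_lit 0) .nil)))))))) (.g (nat_lit 1) (.e (nat_lit 87940) (nat_lit 0) .nil) .nil)))) (.nd (nat_lit 9) 
(.lf (nat_lit 471438) (.g (nat_lit 1548) (.e (nat_lit 3406) (nat_lit 212) (.e (nat_lit 655376) (nat_lit 4) (.e (nat_lit 172120) (nat_lit 12) (.e (nat_lit 475197) (nat_lit 40) (.e (nat_lit 704598) (nat_lit 6) (.e (nat_lit 188439) (nat_lit 20) .nil)))))) (.g (nat_lit 1) (.e (nat_lit 87474) (nat_lit 0) .nil) .nil))) 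
(.lf (nat_lit 471950) (.g (nat_lit 2704) (.e (nat_lit 3409) (nat_lit 212) (.e (nat_lit 655375) (nat_lit 3) (.e (nat_lit 163978) (nat_lit 30) (.e (nat_lit 573490) (nat_lit 15) (.e (nat_lit 81953) (nat_lit 22) .nil))))) (.g (nat_lit 0) (.e (nat_lit 88324) (nat_lit 0) .nil) .nil)))))) (.nd (nat_lit 7) (.nd (nat_lit 8) (.nd (nat_lit 9) 
(.lf (nat_lit 471118) (.g (nat_lit 1589) (.e (nat_lit 3399) (nat_lit 211) (.e (nat_lit 647183) (nat_lit 4) (.e (nat_lit 172126) (nat_lit 14) (.e (nat_lit 491548) (nat_lit 9) (.e (nat_lit 336430) (nat_lit 29) (.e (nat_lit 442398) (nat_lit 20) .nil)))))) (.g (nat_lit 1) (.e (nat_lit 86812) (nat_lit 0) .nil) .nil))) 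
(.lf (nat_lit 471630) (.g (nat_lit 2660) (.e (nat_lit 3407) (nat_lit 212) (.e (nat_lit 655378) (nat_lit 4) (.e (nat_lit 172126) (nat_lit 14) (.e (nat_lit 491568) (nat_lit 13) (.e (nat_lit 393274) (nat_lit 23) .nil))))) (.g (nat_lit 0) (.e (nat_lit 87817) (nat_lit 0) .nil) .nil)))) (.nd (nat_lit 9) 
(.lf (nat_lit 471374) (.g (nat_lit 569) (.e (nat_lit 3402) (nat_lit 211) (.e (nat_lit 647185) (nat_lit 6) (.e (nat_lit 188427) (nat_lit 20) .nil))) (.g (nat_lit 0) (.e (nat_lit 87316) (nat_lit 0) .nil) .nil))) 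
(.lf (nat_lit 471886) (.g (nat_lit 1725) (.e (nat_lit 3408) (nat_lit 212) (.e (nat_lit 655380) (nat_lit 6) (.e (nat_lit 188440) (nat_lit 20) (.e (nat_lit 3409) (nat_lit 212) (.e (nat_lit 655380) (nat_lit 6) (.e (nat_lit 188440) (nat_lit 20) .nil)))))) (.g (nat_lit 1) (.e (nat_lit 88214) (nat_lit 0) .nil) .nil))))) (.nd (nat_lit 8) (.nd (nat_lit 9) 
(.lf (nat_lit 471246) (.g (nat_lit 1420) (.e (nat_lit 3401) (nat_lit 211) (.e (nat_lit 647185) (nat_lit 6) (.e (nat_lit 188431) (nat_lit 20) (.e (nat_lit 3399) (nat_lit 211) (.e (nat_lit 647185) (nat_lit 6) (.e (nat_lit 188428) (nat_lit 20) .nil)))))) (.g (nat_lit 1) (.e (nat_lit 87123) (nat_lit 0) .nil) .nil))) 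
(.lf (nat_lit 471758) (.g (nat_lit 1670) (.e (nat_lit 3408) (nat_lit 212) (.e (nat_lit 655378) (nat_lit 4) (.e (nat_lit 172097) (nat_lit 9) (.e (nat_lit 426025) (nat_lit 0) (.e (nat_lit 3397) (nat_lit 211) .nil))))) (.g (nat_lit 0) (.e (nat_lit 88057) (nat_lit 0) .nil) .nil)))) (.nd (nat_lit 9) 
(.lf (nat_lit 471502) (.g (nat_lit 322) (.e (nat_lit 3406) (nat_lit 212) (.e (nat_lit 655378) (nat_lit 4) (.e (nat_lit 172126) (nat_lit 14) .nil))) (.g (nat_lit 0) (.e (nat_lit 87594) (nat_lit 0) .nil) .nil))) 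
(.lf (nat_lit 472014) (.g (nat_lit 2128) (.e (nat_lit 3409) (nat_lit 212) (.e (nat_lit 655378) (nat_lit 4) (.e (nat_lit 172106) (nat_lit 10) (.e (nat_lit 434271) (nat_lit 38) (.e (nat_lit 655380) (nat_lit 6) (.e (nat_lit 188435) (nat_lit 20) .nil)))))) (.g (nat_lit 1) (.e (nat_lit 88429) (nat_lit 0) .nil) .nil))))))) (.nd (nat_lit 6) (.nd (nat_lit 7) (.nd (nat_lit 8) (.nd (nat_lit 9) 
(.lf (nat_lit 471086) (.g (nat_lit 2279) (.e (nat_lit 3399) (nat_lit 211) (.e (nat_lit 647183) (nat_lit 4) (.e (nat_lit 172118) (nat_lit 12) (.e (nat_lit 475198) (nat_lit 40) (.e (nat_lit 704598) (nat_lit 6) (.e (nat_lit 188431) (nat_lit 20) .nil)))))) (.g (nat_lit 1) (.e (nat_lit 86780) (nat_lit 0) .nil) .nil))) 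
(.lf (nat_lit 471598) (.g (nat_lit 2264) (.e (nat_lit 3407) (nat_lit 212) (.e (nat_lit 655378) (nat_lit 4) (.e (nat_lit 172106) (nat_lit 10) (.e (nat_lit 434271) (nat_lit 38) (.e (nat_lit 655380) (nat_lit 6) (.e (nat_lit 188439) (nat_lit 20) .nil)))))) (.g (nat_lit 1) (.e (nat_lit 87777) (nat_lit 0) .nil) .nil)))) (.nd (nat_lit 9) 
(.lf (nat_lit 471342) (.g (nat_lit 2396) (.e (nat_lit 3402) (nat_lit 211) (.e (nat_lit 647183) (nat_lit 4) (.e (nat_lit 172115) (nat_lit 10) (.e (nat_lit 434271) (nat_lit 38) (.e (nat_lit 655380) (nat_lit 6) (.e (nat_lit 188431) (nat_lit 20) .nil)))))) (.g (nat_lit 1) (.e (nat_lit 87267) (nat_lit 0) .nil) .nil))) 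
(.lf (nat_lit 471854) (.g (nat_lit 1567) (.e (nat_lit 3408) (nat_lit 212) (.e (nat_lit 655380) (nat_lit 6) (.e (nat_lit 188418) (nat_lit 0) (.e (nat_lit 2058) (nat_lit 142) (.e (nat_lit 704598) (nat_lit 6) (.e (nat_lit 188439) (nat_lit 20) .nil)))))) (.g (nat_lit 1) (.e (nat_lit 88182) (nat_lit 0) .nil) .nil))))) (.nd (nat_lit 8) (.nd (nat_lit 9) 
(.lf (nat_lit 471214) (.g (nat_lit 2043) (.e (nat_lit 3401) (nat_lit 211) (.e (nat_lit 647183) (nat_lit 4) (.e (nat_lit 172112) (nat_lit 10) (.e (nat_lit 434272) (nat_lit 38) (.e (nat_lit 655380) (nat_lit 6) (.e (nat_lit 188431) (nat_lit 20) .nil)))))) (.g (nat_lit 1) (.e (nat_lit 87048) (nat_lit 0) .nil) .nil))) 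
(.lf (nat_lit 471726) (.g (nat_lit 3960) (.e (nat_lit 3408) (nat_lit 212) (.e (nat_lit 655375) (nat_lit 3) (.e (nat_lit 163979) (nat_lit 30) (.e (nat_lit 573491) (nat_lit 15) (.e (nat_lit 81951) (nat_lit 22) (.e (nat_lit 90170) (nat_lit 13) (.e (nat_lit 172049) (nat_lit 0) .nil))))))) (.g (nat_lit 1) (.e (nat_lit 87985) (nat_lit 0) .nil) .nil)))) (.nd (nat_lit 9) 
(.lf (nat_lit 471470) (.g (nat_lit 1405) (.e (nat_lit 3406) (nat_lit 212) (.e (nat_lit 655378) (nat_lit 4) (.e (nat_lit 172115) (nat_lit 10) (.e (nat_lit 434271) (nat_lit 38) (.e (nat_lit 655380) (nat_lit 6) (.e (nat_lit 188438) (nat_lit 20) .nil)))))) (.g (nat_lit 1) (.e (nat_lit 87549) (nat_lit 0) .nil) .nil))) 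
(.lf (nat_lit 471982) (.g (nat_lit 1679) (.e (nat_lit 3409) (nat_lit 212) (.e (nat_lit 655376) (nat_lit 4) (.e (nat_lit 172119) (nat_lit 12) (.e (nat_lit 475199) (nat_lit 40) (.e (nat_lit 704598) (nat_lit 6) (.e (nat_lit 188439) (nat_lit 20) .nil)))))) (.g (nat_lit 1) (.e (nat_lit 88381) (nat_lit 0) .nil) .nil)))))) (.nd (nat_lit 7) (.nd (nat_lit 8) (.nd (nat_lit 9) 
(.lf (nat_lit 471150) (.g (nat_lit 1469) (.e (nat_lit 3399) (nat_lit 211) (.e (nat_lit 647185) (nat_lit 6) (.e (nat_lit 188435) (nat_lit 20) (.e (nat_lit 3408) (nat_lit 212) (.e (nat_lit 655380) (nat_lit 6) (.e (nat_lit 188431) (nat_lit 20) .nil)))))) (.g (nat_lit 1) (.e (nat_lit 86861) (nat_lit 0) .nil) .nil))) 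
(.lf (nat_lit 471662) (.g (nat_lit 1158) (.e (nat_lit 3407) (nat_lit 212) (.e (nat_lit 655380) (nat_lit 6) (.e (nat_lit 188441) (nat_lit 20) (.e (nat_lit 3406) (nat_lit 212) (.e (nat_lit 655380) (nat_lit 6) .nil))))) (.g (nat_lit 0) (.e (nat_lit 87864) (nat_lit 0) .nil) .nil)))) (.nd (nat_lit 9) 
(.lf (nat_lit 471406) (.g (nat_lit 2068) (.e (nat_lit 3406) (nat_lit 212) (.e (nat_lit 655375) (nat_lit 3) (.e (nat_lit 163978) (nat_lit 30) (.e (nat_lit 573480) (nat_lit 13) .nil)))) (.g (nat_lit 0) (.e (nat_lit 87435) (nat_lit 0) .nil) .nil))) 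
(.lf (nat_lit 471918) (.g (nat_lit 4248) (.e (nat_lit 3409) (nat_lit 212) (.e (nat_lit 655375) (nat_lit 3) (.e (nat_lit 163978) (nat_lit 30) (.e (nat_lit 573479) (nat_lit 13) (.e (nat_lit 65604) (nat_lit 9) (.e (nat_lit 336013) (nat_lit 2) (.e (nat_lit 90170) (nat_lit 13) (.e (nat_lit 172043) (nat_lit 0) .nil)))))))) (.g (nat_lit 1) (.e (nat_lit 88290) (nat_lit 0) .nil) .nil))))) 
(.nd (nat_lit 8) (.nd (nat_lit 9) 
(.lf (nat_lit 471278) (.g (nat_lit 2103) (.e (nat_lit 3402) (nat_lit 211) (.e (nat_lit 647181) (nat_lit 3) (.e (nat_lit 163978) (nat_lit 30) (.e (nat_lit 573484) (nat_lit 13) (.e (nat_lit 65610) (nat_lit 10) (.e (nat_lit 344117) (nat_lit 21) (.e (nat_lit 516151) (nat_lit 9) (.e (nat_lit 426003) (nat_lit 0) .nil)))))))) (.g (nat_lit 1) (.e (nat_lit 87173) (nat_lit 0) .nil) .nil))) 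
(.lf (nat_lit 471790) (.g (nat_lit 2602) (.e (nat_lit 3408) (nat_lit 212) (.e (nat_lit 655378) (nat_lit 4) (.e (nat_lit 172113) (nat_lit 10) (.e (nat_lit 434271) (nat_lit 38) (.e (nat_lit 655380) (nat_lit 6) (.e (nat_lit 188441) (nat_lit 20) .nil)))))) (.g (nat_lit 1) (.e (nat_lit 88094) (nat_lit 0) .nil) .nil)))) (.nd (nat_lit 9) 
(.lf (nat_lit 471534) (.g (nat_lit 1008) (.e (nat_lit 3406) (nat_lit 212) (.e (nat_lit 655380) (nat_lit 6) (.e (nat_lit 188441) (nat_lit 20) (.e (nat_lit 3408) (nat_lit 212) (.e (nat_lit 655380) (nat_lit 6) .nil))))) (.g (nat_lit 0) (.e (nat_lit 87642) (nat_lit 0) .nil) .nil))) 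
(.lf (nat_lit 472046) (.g (nat_lit 2327) (.e (nat_lit 3409) (nat_lit 212) (.e (nat_lit 655378) (nat_lit 4) (.e (nat_lit 172118) (nat_lit 12) (.e (nat_lit 475198) (nat_lit 40) (.e (nat_lit 704598) (nat_lit 6) (.e (nat_lit 188435) (nat_lit 20) .nil)))))) (.g (nat_lit 1) (.e (nat_lit 88463) (nat_lit 0) .nil) .nil)))))))) 
(.nd (nat_lit 5) (.nd (nat_lit 6) (.nd (nat_lit 7) (.nd (nat_lit 8) (.nd (nat_lit 9) 
(.lf (nat_lit 471070) (.g (nat_lit 2935) (.e (nat_lit 3399) (nat_lit 211) (.e (nat_lit 647183) (nat_lit 4) (.e (nat_lit 172106) (nat_lit 10) (.e (nat_lit 434209) (nat_lit 18) (.e (nat_lit 5546) (nat_lit 306) (.e (nat_lit 2648) (nat_lit 166) (.e (nat_lit 188431) (nat_lit 20) .nil))))))) (.g (nat_lit 1) (.e (nat_lit 86762) (nat_lit 0) .nil) .nil))) 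
(.lf (nat_lit 471582) (.g (nat_lit 3844) (.e (nat_lit 3407) (nat_lit 212) (.e (nat_lit 655375) (nat_lit 3) (.e (nat_lit 163979) (nat_lit 30) (.e (nat_lit 573491) (nat_lit 15) (.e (nat_lit 81951) (nat_lit 22) (.e (nat_lit 90170) (nat_lit 13) (.e (nat_lit 172049) (nat_lit 0) .nil))))))) (.g (nat_lit 1) (.e (nat_lit 87732) (nat_lit 0) .nil) .nil)))) (.nd (nat_lit 9) 
(.lf (nat_lit 471326) (.g (nat_lit 2110) (.e (nat_lit 3402) (nat_lit 211) (.e (nat_lit 647183) (nat_lit 4) (.e (nat_lit 172107) (nat_lit 10) (.e (nat_lit 434271) (nat_lit 38) (.e (nat_lit 655380) (nat_lit 6) (.e (nat_lit 188431) (nat_lit 20) .nil)))))) (.g (nat_lit 1) (.e (nat_lit 87246) (nat_lit 0) .nil) .nil))) 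
(.lf (nat_lit 471838) (.g (nat_lit 2729) (.e (nat_lit 3408) (nat_lit 212) (.e (nat_lit 655378) (nat_lit 4) (.e (nat_lit 172120) (nat_lit 12) (.e (nat_lit 475199) (nat_lit 40) (.e (nat_lit 704598) (nat_lit 6) (.e (nat_lit 188435) (nat_lit 20) .nil)))))) (.g (nat_lit 1) (.e (nat_lit 88147) (nat_lit 0) .nil) .nil))))) (.nd (nat_lit 8) (.nd (nat_lit 9) 
(.lf (nat_lit 471198) (.g (nat_lit 4770) (.e (nat_lit 3401) (nat_lit 211) (.e (nat_lit 647181) (nat_lit 3) (.e (nat_lit 163979) (nat_lit 30) (.e (nat_lit 573482) (nat_lit 13) (.e (nat_lit 65619) (nat_lit 10) (.e (nat_lit 344117) (nat_lit 21) (.e (nat_lit 516151) (nat_lit 9) (.e (nat_lit 426023) (nat_lit 0) .nil)))))))) (.g (nat_lit 1) (.e (nat_lit 86993) (nat_lit 0) .nil) .nil))) 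
(.lf (nat_lit 471710) (.g (nat_lit 4318) (.e (nat_lit 3408) (nat_lit 212) (.e (nat_lit 655375) (nat_lit 3) (.e (nat_lit 163978) (nat_lit 30) (.e (nat_lit 573491) (nat_lit 15) (.e (nat_lit 81951) (nat_lit 22) (.e (nat_lit 90170) (nat_lit 13) (.e (nat_lit 172042) (nat_lit 0) .nil))))))) (.g (nat_lit 1) (.e (nat_lit 87956) (nat_lit 0) .nil) .nil)))) (.nd (nat_lit 9) 
(.lf (nat_lit 471454) (.g (nat_lit 1513) (.e (nat_lit 3406) (nat_lit 212) (.e (nat_lit 655378) (nat_lit 4) (.e (nat_lit 172106) (nat_lit 10) (.e (nat_lit 434272) (nat_lit 38) (.e (nat_lit 655380) (nat_lit 6) (.e (nat_lit 188440) (nat_lit 20) .nil)))))) (.g (nat_lit 1) (.e (nat_lit 87532) (nat_lit 0) .nil) .nil))) 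
(.lf (nat_lit 471966) (.g (nat_lit 6074) (.e (nat_lit 3409) (nat_lit 212) (.e (nat_lit 655375) (nat_lit 3) (.e (nat_lit 163979) (nat_lit 30) (.e (nat_lit 573482) (nat_lit 13) (.e (nat_lit 65619) (nat_lit 10) (.e (nat_lit 344117) (nat_lit 21) (.e (nat_lit 516151) (nat_lit 9) (.e (nat_lit 426042) (nat_lit 0) .nil)))))))) (.g (nat_lit 1) (.e (nat_lit 88363) (nat_lit 0) .nil) .nil)))))) 
(.nd (nat_lit 7) (.nd (nat_lit 8) (.nd (nat_lit 9) 
(.lf (nat_lit 471134) (.g (nat_lit 1950) (.e (nat_lit 3399) (nat_lit 211) (.e (nat_lit 647183) (nat_lit 4) (.e (nat_lit 172126) (nat_lit 14) (.e (nat_lit 491570) (nat_lit 13) (.e (nat_lit 393266) (nat_lit 23) (.e (nat_lit 426025) (nat_lit 0) .nil)))))) (.g (nat_lit 1) (.e (nat_lit 86828) (nat_lit 0) .nil) .nil))) 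
(.lf (nat_lit 471646) (.g (nat_lit 1041) (.e (nat_lit 3407) (nat_lit 212) (.e (nat_lit 655380) (nat_lit 6) (.e (nat_lit 188435) (nat_lit 20) (.e (nat_lit 3409) (nat_lit 212) (.e (nat_lit 655380) (nat_lit 6) (.e (nat_lit 188438) (nat_lit 20) .nil)))))) (.g (nat_lit 1) (.e (nat_lit 87848) (nat_lit 0) .nil) .nil)))) (.nd (nat_lit 9) 
(.lf (nat_lit 471390) (.g (nat_lit 1480) (.e (nat_lit 3403) (nat_lit 212) (.e (nat_lit 655378) (nat_lit 4) (.e (nat_lit 172126) (nat_lit 14) (.e (nat_lit 491547) (nat_lit 9) .nil)))) (.g (nat_lit 0) (.e (nat_lit 87396) (nat_lit 0) .nil) .nil))) 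
(.lf (nat_lit 471902) (.g (nat_lit 3940) (.e (nat_lit 3409) (nat_lit 212) (.e (nat_lit 655373) (nat_lit 3) (.e (nat_lit 163973) (nat_lit 30) (.e (nat_lit 573479) (nat_lit 13) (.e (nat_lit 65619) (nat_lit 10) (.e (nat_lit 344117) (nat_lit 21) (.e (nat_lit 516151) (nat_lit 9) (.e (nat_lit 426042) (nat_lit 0) .nil)))))))) (.g (nat_lit 1) (.e (nat_lit 88270) (nat_lit 0) .nil) .nil))))) 
(.nd (nat_lit 8) (.nd (nat_lit 9) 
(.lf (nat_lit 471262) (.g (nat_lit 5181) (.e (nat_lit 3402) (nat_lit 211) (.e (nat_lit 647181) (nat_lit 3) (.e (nat_lit 163977) (nat_lit 30) (.e (nat_lit 573482) (nat_lit 13) (.e (nat_lit 65619) (nat_lit 10) (.e (nat_lit 344117) (nat_lit 21) (.e (nat_lit 516151) (nat_lit 9) (.e (nat_lit 426022) (nat_lit 0) .nil)))))))) (.g (nat_lit 1) (.e (nat_lit 87157) (nat_lit 0) .nil) .nil))) 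
(.lf (nat_lit 471774) (.g (nat_lit 1894) (.e (nat_lit 3408) (nat_lit 212) (.e (nat_lit 655378) (nat_lit 4) (.e (nat_lit 172107) (nat_lit 10) (.e (nat_lit 434272) (nat_lit 38) (.e (nat_lit 655380) (nat_lit 6) (.e (nat_lit 188435) (nat_lit 20) .nil)))))) (.g (nat_lit 1) (.e (nat_lit 88077) (nat_lit 0) .nil) .nil)))) (.nd (nat_lit 9) 
(.lf (nat_lit 471518) (.g (nat_lit 752) (.e (nat_lit 3406) (nat_lit 212) (.e (nat_lit 655380) (nat_lit 6) (.e (nat_lit 188434) (nat_lit 20) (.e (nat_lit 3408) (nat_lit 212) (.e (nat_lit 655380) (nat_lit 6) .nil))))) (.g (nat_lit 0) (.e (nat_lit 87626) (nat_lit 0) .nil) .nil))) 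
(.lf (nat_lit 472030) (.g (nat_lit 2135) (.e (nat_lit 3409) (nat_lit 212) (.e (nat_lit 655378) (nat_lit 4) (.e (nat_lit 172113) (nat_lit 10) (.e (nat_lit 434271) (nat_lit 38) (.e (nat_lit 655380) (nat_lit 6) (.e (nat_lit 188438) (nat_lit 20) .nil)))))) (.g (nat_lit 1) (.e (nat_lit 88446) (nat_lit 0) .nil) .nil))))))) (.nd (nat_lit 6) (.nd (nat_lit 7) (.nd (nat_lit 8) (.nd (nat_lit 9) 
(.lf (nat_lit 471102) (.g (nat_lit 2749) (.e (nat_lit 3399) (nat_lit 211) (.e (nat_lit 647183) (nat_lit 4) (.e (nat_lit 172124) (nat_lit 14) (.e (nat_lit 491549) (nat_lit 9) (.e (nat_lit 336430) (nat_lit 29) (.e (nat_lit 442399) (nat_lit 20) .nil)))))) (.g (nat_lit 1) (.e (nat_lit 86796) (nat_lit 0) .nil) .nil))) 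
(.lf (nat_lit 471614) (.g (nat_lit 2263) (.e (nat_lit 3407) (nat_lit 212) (.e (nat_lit 655378) (nat_lit 4) (.e (nat_lit 172115) (nat_lit 10) (.e (nat_lit 434271) (nat_lit 38) (.e (nat_lit 655380) (nat_lit 6) (.e (nat_lit 188439) (nat_lit 20) .nil)))))) (.g (nat_lit 1) (.e (nat_lit 87794) (nat_lit 0) .nil) .nil)))) (.nd (nat_lit 9) 
(.lf (nat_lit 471358) (.g (nat_lit 1820) (.e (nat_lit 3402) (nat_lit 211) (.e (nat_lit 647183) (nat_lit 4) (.e (nat_lit 172120) (nat_lit 12) (.e (nat_lit 475199) (nat_lit 40) (.e (nat_lit 704599) (nat_lit 6) (.e (nat_lit 188428) (nat_lit 20) .nil)))))) (.g (nat_lit 1) (.e (nat_lit 87283) (nat_lit 0) .nil) .nil))) 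
(.lf (nat_lit 471870) (.g (nat_lit 1153) (.e (nat_lit 3408) (nat_lit 212) (.e (nat_lit 655380) (nat_lit 6) (.e (nat_lit 188435) (nat_lit 20) (.e (nat_lit 3409) (nat_lit 212) (.e (nat_lit 655380) (nat_lit 6) (.e (nat_lit 188438) (nat_lit 20) .nil)))))) (.g (nat_lit 1) (.e (nat_lit 88198) (nat_lit 0) .nil) .nil))))) (.nd (nat_lit 8) (.nd (nat_lit 9) 
(.lf (nat_lit 471230) (.g (nat_lit 2711) (.e (nat_lit 3401) (nat_lit 211) (.e (nat_lit 647183) (nat_lit 4) (.e (nat_lit 172124) (nat_lit 14) (.e (nat_lit 491549) (nat_lit 9) (.e (nat_lit 336430) (nat_lit 29) (.e (nat_lit 442399) (nat_lit 20) .nil)))))) (.g (nat_lit 1) (.e (nat_lit 87086) (nat_lit 0) .nil) .nil))) 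
(.lf (nat_lit 471742) (.g (nat_lit 1615) (.e (nat_lit 3408) (nat_lit 212) (.e (nat_lit 655376) (nat_lit 4) (.e (nat_lit 172120) (nat_lit 12) (.e (nat_lit 475197) (nat_lit 40) (.e (nat_lit 704598) (nat_lit 6) (.e (nat_lit 188439) (nat_lit 20) .nil)))))) (.g (nat_lit 1) (.e (nat_lit 88001) (nat_lit 0) .nil) .nil)))) (.nd (nat_lit 9) 
(.lf (nat_lit 471486) (.g (nat_lit 2661) (.e (nat_lit 3406) (nat_lit 212) (.e (nat_lit 655378) (nat_lit 4) (.e (nat_lit 172118) (nat_lit 12) (.e (nat_lit 475198) (nat_lit 40) (.e (nat_lit 704598) (nat_lit 6) (.e (nat_lit 188434) (nat_lit 20) .nil)))))) (.g (nat_lit 1) (.e (nat_lit 87565) (nat_lit 0) .nil) .nil))) 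
(.lf (nat_lit 471998) (.g (nat_lit 1488) (.e (nat_lit 3409) (nat_lit 212) (.e (nat_lit 655378) (nat_lit 4) (.e (nat_lit 172080) (nat_lit 7) (.e (nat_lit 409618) (nat_lit 10) (.e (nat_lit 5363) (nat_lit 298) .nil))))) (.g (nat_lit 0) (.e (nat_lit 88409) (nat_lit 0) .nil) .nil)))))) (.nd (nat_lit 7) (.nd (nat_lit 8) (.nd (nat_lit 9) 
(.lf (nat_lit 471166) (.g (nat_lit 1099) (.e (nat_lit 3399) (nat_lit 211) (.e (nat_lit 647185) (nat_lit 6) (.e (nat_lit 188455) (nat_lit 24) (.e (nat_lit 229666) (nat_lit 240) (.e (nat_lit 7936) (nat_lit 166) .nil))))) (.g (nat_lit 0) (.e (nat_lit 86881) (nat_lit 0) .nil) .nil))) 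
(.lf (nat_lit 471678) (.g (nat_lit 4198) (.e (nat_lit 3408) (nat_lit 212) (.e (nat_lit 655375) (nat_lit 3) (.e (nat_lit 163977) (nat_lit 30) (.e (nat_lit 573482) (nat_lit 13) (.e (nat_lit 65604) (nat_lit 9) (.e (nat_lit 336013) (nat_lit 2) (.e (nat_lit 90170) (nat_lit 13) (.e (nat_lit 172042) (nat_lit 0) .nil)))))))) (.g (nat_lit 1) (.e (nat_lit 87924) (nat_lit 0) .nil) .nil)))) (.nd (nat_lit 9) 
(.lf (nat_lit 471422) (.g (nat_lit 3341) (.e (nat_lit 3406) (nat_lit 212) (.e (nat_lit 655375) (nat_lit 3) (.e (nat_lit 163978) (nat_lit 30) (.e (nat_lit 573490) (nat_lit 15) (.e (nat_lit 81953) (nat_lit 22) (.e (nat_lit 90170) (nat_lit 13) (.e (nat_lit 172046) (nat_lit 0) .nil))))))) (.g (nat_lit 1) (.e (nat_lit 87451) (nat_lit 0) .nil) .nil))) 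
(.lf (nat_lit 471934) (.g (nat_lit 4278) (.e (nat_lit 3409) (nat_lit 212) (.e (nat_lit 655375) (nat_lit 3) (.e (nat_lit 163978) (nat_lit 30) (.e (nat_lit 573482) (nat_lit 13) (.e (nat_lit 65604) (nat_lit 9) (.e (nat_lit 336013) (nat_lit 2) (.e (nat_lit 90170) (nat_lit 13) (.e (nat_lit 172049) (nat_lit 0) .nil)))))))) (.g (nat_lit 1) (.e (nat_lit 88306) (nat_lit 0) .nil) .nil))))) 
(.nd (nat_lit 8) (.nd (nat_lit 9) 
(.lf (nat_lit 471294) (.g (nat_lit 1664) (.e (nat_lit 3402) (nat_lit 211) (.e (nat_lit 647183) (nat_lit 4) (.e (nat_lit 172080) (nat_lit 7) (.e (nat_lit 409618) (nat_lit 10) (.e (nat_lit 5362) (nat_lit 298) (.e (nat_lit 463) (nat_lit 34) (.e (nat_lit 442399) (nat_lit 20) .nil))))))) (.g (nat_lit 1) (.e (nat_lit 87204) (nat_lit 0) .nil) .nil))) 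
(.lf (nat_lit 471806) (.g (nat_lit 1780) (.e (nat_lit 3408) (nat_lit 212) (.e (nat_lit 655378) (nat_lit 4) (.e (nat_lit 172116) (nat_lit 10) (.e (nat_lit 434271) (nat_lit 38) (.e (nat_lit 655380) (nat_lit 6) (.e (nat_lit 188439) (nat_lit 20) .nil)))))) (.g (nat_lit 1) (.e (nat_lit 88111) (nat_lit 0) .nil) .nil)))) (.nd (nat_lit 9) 
(.lf (nat_lit 471550) (.g (nat_lit 4484) (.e (nat_lit 3407) (nat_lit 212) (.e (nat_lit 655375) (nat_lit 3) (.e (nat_lit 163977) (nat_lit 30) (.e (nat_lit 573484) (nat_lit 13) (.e (nat_lit 65610) (nat_lit 10) (.e (nat_lit 344117) (nat_lit 21) (.e (nat_lit 516151) (nat_lit 9) (.e (nat_lit 426043) (nat_lit 0) .nil)))))))) (.g (nat_lit 1) (.e (nat_lit 87690) (nat_lit 0) .nil) .nil))) 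
(.lf (nat_lit 472062) (.g (nat_lit 2521) (.e (nat_lit 3409) (nat_lit 212) (.e (nat_lit 655378) (nat_lit 4) (.e (nat_lit 172125) (nat_lit 14) (.e (nat_lit 491571) (nat_lit 13) (.e (nat_lit 393232) (nat_lit 17) (.e (nat_lit 7308) (nat_lit 388) (.e (nat_lit 2452) (nat_lit 157) .nil))))))) (.g (nat_lit 1) (.e (nat_lit 88480) (nat_lit 0) .nil) .nil)))))))))))) 
(.nd (nat_lit 1) (.nd (nat_lit 2) (.nd (nat_lit 3) (.nd (nat_lit 4) (.nd (nat_lit 5) 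
(.nd (nat_lit 6) (.nd (nat_lit 7) (.nd (nat_lit 8) (.nd (nat_lit 9) 
(.lf (nat_lit 471041) (.g (nat_lit 4196) (.e (nat_lit 3399) (nat_lit 211) (.e (nat_lit 647181) (nat_lit 3) (.e (nat_lit 163979) (nat_lit 30) (.e (nat_lit 573482) (nat_lit 13) (.e (nat_lit 65604) (nat_lit 9) (.e (nat_lit 336028) (nat_lit 3) (.e (nat_lit 98359) (nat_lit 26) (.e (nat_lit 426025) (nat_lit 0) .nil)))))))) (.g (nat_lit 1) (.e (nat_lit 86727) (nat_lit 0) .nil) .nil))) 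
(.lf (nat_lit 471553) (.g (nat_lit 4110) (.e (nat_lit 3407) (nat_lit 212) (.e (nat_lit 655375) (nat_lit 3) (.e (nat_lit 163977) (nat_lit 30) (.e (nat_lit 573485) (nat_lit 13) (.e (nat_lit 65619) (nat_lit 10) (.e (nat_lit 344117) (nat_lit 21) (.e (nat_lit 516151) (nat_lit 9) (.e (nat_lit 426043) (nat_lit 0) .nil)))))))) (.g (nat_lit 1) (.e (nat_lit 87693) (nat_lit 0) .nil) .nil)))) 
(.nd (nat_lit 9) 
(.lf (nat_lit 471297) (.g (nat_lit 1435) (.e (nat_lit 3402) (nat_lit 211) (.e (nat_lit 647183) (nat_lit 4) (.e (nat_lit 172080) (nat_lit 7) (.e (nat_lit 409618) (nat_lit 10) (.e (nat_lit 5364) (nat_lit 298) (.e (nat_lit 463) (nat_lit 34) (.e (nat_lit 442399) (nat_lit 20) .nil))))))) (.g (nat_lit 1) (.e (nat_lit 87207) (nat_lit 0) .nil) .nil))) 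
(.lf (nat_lit 471809) (.g (nat_lit 1777) (.e (nat_lit 3408) (nat_lit 212) (.e (nat_lit 655378) (nat_lit 4) (.e (nat_lit 172116) (nat_lit 10) (.e (nat_lit 434272) (nat_lit 38) (.e (nat_lit 655380) (nat_lit 6) (.e (nat_lit 188435) (nat_lit 20) .nil)))))) (.g (nat_lit 1) (.e (nat_lit 88114) (nat_lit 0) .nil) .nil))))) (.nd (nat_lit 8) (.nd (nat_lit 9) 
(.lf (nat_lit 471169) (.g (nat_lit 3811) (.e (nat_lit 3401) (nat_lit 211) (.e (nat_lit 647180) (nat_lit 3) (.e (nat_lit 163978) (nat_lit 30) (.e (nat_lit 573485) (nat_lit 13) (.e (nat_lit 65604) (nat_lit 9) (.e (nat_lit 336013) (nat_lit 2) (.e (nat_lit 90170) (nat_lit 13) (.e (nat_lit 172035) (nat_lit 0) .nil)))))))) (.g (nat_lit 1) (.e (nat_lit 86963) (nat_lit 0) .nil) .nil))) 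
(.lf (nat_lit 471681) (.g (nat_lit 4093) (.e (nat_lit 3408) (nat_lit 212) (.e (nat_lit 655375) (nat_lit 3) (.e (nat_lit 163977) (nat_lit 30) (.e (nat_lit 573485) (nat_lit 13) (.e (nat_lit 65604) (nat_lit 9) (.e (nat_lit 336013) (nat_lit 2) (.e (nat_lit 90170) (nat_lit 13) (.e (nat_lit 172042) (nat_lit 0) .nil)))))))) (.g (nat_lit 1) (.e (nat_lit 87927) (nat_lit 0) .nil) .nil)))) (.nd (nat_lit 9) 
(.lf (nat_lit 471425) (.g (nat_lit 4243) (.e (nat_lit 3406) (nat_lit 212) (.e (nat_lit 655375) (nat_lit 3) (.e (nat_lit 163978) (nat_lit 30) (.e (nat_lit 573490) (nat_lit 15) (.e (nat_lit 81956) (nat_lit 23) (.e (nat_lit 98359) (nat_lit 26) (.e (nat_lit 426043) (nat_lit 0) .nil))))))) (.g (nat_lit 1) (.e (nat_lit 87454) (nat_lit 0) .nil) .nil))) 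
(.lf (nat_lit 471937) (.g (nat_lit 2657) (.e (nat_lit 3409) (nat_lit 212) (.e (nat_lit 655375) (nat_lit 3) (.e (nat_lit 163978) (nat_lit 30) (.e (nat_lit 573483) (nat_lit 13) (.e (nat_lit 65604) (nat_lit 9) (.e (nat_lit 336013) (nat_lit 2) (.e (nat_lit 90170) (nat_lit 13) (.e (nat_lit 172042) (nat_lit 0) .nil)))))))) (.g (nat_lit 1) (.e (nat_lit 88309) (nat_lit 0) .nil) .nil)))))) 
(.nd (nat_lit 7) (.nd (nat_lit 8) (.nd (nat_lit 9) 
(.lf (nat_lit 471105) (.g (nat_lit 1746) (.e (nat_lit 3399) (nat_lit 211) (.e (nat_lit 647183) (nat_lit 4) (.e (nat_lit 172124) (nat_lit 14) (.e (nat_lit 491556) (nat_lit 9) (.e (nat_lit 336429) (nat_lit 29) .nil))))) (.g (nat_lit 0) (.e (nat_lit 86799) (nat_lit 0) .nil) .nil))) 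
(.lf (nat_lit 471617) (.g (nat_lit 1528) (.e (nat_lit 3407) (nat_lit 212) (.e (nat_lit 655378) (nat_lit 4) (.e (nat_lit 172116) (nat_lit 10) (.e (nat_lit 434271) (nat_lit 38) (.e (nat_lit 655380) (nat_lit 6) (.e (nat_lit 188438) (nat_lit 20) .nil)))))) (.g (nat_lit 1) (.e (nat_lit 87797) (nat_lit 0) .nil) .nil)))) (.nd (nat_lit 9) 
(.lf (nat_lit 471361) (.g (nat_lit 950) (.e (nat_lit 3402) (nat_lit 211) (.e (nat_lit 647183) (nat_lit 4) (.e (nat_lit 172124) (nat_lit 14) (.e (nat_lit 491548) (nat_lit 9) .nil)))) (.g (nat_lit 0) (.e (nat_lit 87286) (nat_lit 0) .nil) .nil))) 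
(.lf (nat_lit 471873) (.g (nat_lit 1173) (.e (nat_lit 3408) (nat_lit 212) (.e (nat_lit 655380) (nat_lit 6) (.e (nat_lit 188438) (nat_lit 20) (.e (nat_lit 3409) (nat_lit 212) (.e (nat_lit 655380) (nat_lit 6) (.e (nat_lit 188439) (nat_lit 20) .nil)))))) (.g (nat_lit 1) (.e (nat_lit 88201) (nat_lit 0) .nil) .nil))))) (.nd (nat_lit 8) (.nd (nat_lit 9) 
(.lf (nat_lit 471233) (.g (nat_lit 2794) (.e (nat_lit 3401) (nat_lit 211) (.e (nat_lit 647183) (nat_lit 4) (.e (nat_lit 172126) (nat_lit 14) (.e (nat_lit 491549) (nat_lit 9) (.e (nat_lit 336430) (nat_lit 29) (.e (nat_lit 442395) (nat_lit 20) .nil)))))) (.g (nat_lit 1) (.e (nat_lit 87092) (nat_lit 0) .nil) .nil))) 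
(.lf (nat_lit 471745) (.g (nat_lit 2401) (.e (nat_lit 3408) (nat_lit 212) (.e (nat_lit 655376) (nat_lit 4) (.e (nat_lit 172120) (nat_lit 12) (.e (nat_lit 475199) (nat_lit 40) (.e (nat_lit 704598) (nat_lit 6) (.e (nat_lit 188434) (nat_lit 20) .nil)))))) (.g (nat_lit 1) (.e (nat_lit 88005) (nat_lit 0) .nil) .nil)))) (.nd (nat_lit 9) 
(.lf (nat_lit 471489) (.g (nat_lit 2572) (.e (nat_lit 3406) (nat_lit 212) (.e (nat_lit 655378) (nat_lit 4) (.e (nat_lit 172118) (nat_lit 12) (.e (nat_lit 475199) (nat_lit 40) (.e (nat_lit 704598) (nat_lit 6) (.e (nat_lit 188434) (nat_lit 20) .nil)))))) (.g (nat_lit 1) (.e (nat_lit 87568) (nat_lit 0) .nil) .nil))) 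
(.lf (nat_lit 472001) (.g (nat_lit 1033) (.e (nat_lit 3409) (nat_lit 212) (.e (nat_lit 655378) (nat_lit 4) (.e (nat_lit 172082) (nat_lit 7) (.e (nat_lit 417536) (nat_lit 16) .nil)))) (.g (nat_lit 0) (.e (nat_lit 88413) (nat_lit 0) .nil) .nil))))))) (.nd (nat_lit 6) (.nd (nat_lit 7) (.nd (nat_lit 8) (.nd (nat_lit 9) 
(.lf (nat_lit 471073) (.g (nat_lit 1824) (.e (nat_lit 3399) (nat_lit 211) (.e (nat_lit 647183) (nat_lit 4) (.e (nat_lit 172106) (nat_lit 10) (.e (nat_lit 434209) (nat_lit 18) (.e (nat_lit 5548) (nat_lit 306) (.e (nat_lit 2650) (nat_lit 166) (.e (nat_lit 188427) (nat_lit 20) .nil))))))) (.g (nat_lit 1) (.e (nat_lit 86765) (nat_lit 0) .nil) .nil))) 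
(.lf (nat_lit 471585) (.g (nat_lit 4275) (.e (nat_lit 3407) (nat_lit 212) (.e (nat_lit 655375) (nat_lit 3) (.e (nat_lit 163979) (nat_lit 30) (.e (nat_lit 573492) (nat_lit 15) (.e (nat_lit 81956) (nat_lit 23) (.e (nat_lit 98356) (nat_lit 26) (.e (nat_lit 426095) (nat_lit 0) .nil))))))) (.g (nat_lit 1) (.e (nat_lit 87735) (nat_lit 0) .nil) .nil)))) (.nd (nat_lit 9) 
(.lf (nat_lit 471329) (.g (nat_lit 1646) (.e (nat_lit 3402) (nat_lit 211) (.e (nat_lit 647183) (nat_lit 4) (.e (nat_lit 172112) (nat_lit 10) (.e (nat_lit 434271) (nat_lit 38) (.e (nat_lit 655380) (nat_lit 6) (.e (nat_lit 188430) (nat_lit 20) .nil)))))) (.g (nat_lit 1) (.e (nat_lit 87249) (nat_lit 0) .nil) .nil))) 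
(.lf (nat_lit 471841) (.g (nat_lit 2487) (.e (nat_lit 3408) (nat_lit 212) (.e (nat_lit 655378) (nat_lit 4) (.e (nat_lit 172120) (nat_lit 12) (.e (nat_lit 475211) (nat_lit 41) (.e (nat_lit 712752) (nat_lit 29) (.e (nat_lit 442411) (nat_lit 20) .nil)))))) (.g (nat_lit 1) (.e (nat_lit 88152) (nat_lit 0) .nil) .nil))))) (.nd (nat_lit 8) (.nd (nat_lit 9) 
(.lf (nat_lit 471201) (.g (nat_lit 3565) (.e (nat_lit 3401) (nat_lit 211) (.e (nat_lit 647181) (nat_lit 3) (.e (nat_lit 163979) (nat_lit 30) (.e (nat_lit 573491) (nat_lit 15) (.e (nat_lit 81954) (nat_lit 23) (.e (nat_lit 98359) (nat_lit 26) (.e (nat_lit 426023) (nat_lit 0) .nil))))))) (.g (nat_lit 1) (.e (nat_lit 86996) (nat_lit 0) .nil) .nil))) 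
(.lf (nat_lit 471713) (.g (nat_lit 3775) (.e (nat_lit 3408) (nat_lit 212) (.e (nat_lit 655375) (nat_lit 3) (.e (nat_lit 163978) (nat_lit 30) (.e (nat_lit 573491) (nat_lit 15) (.e (nat_lit 81954) (nat_lit 23) (.e (nat_lit 98359) (nat_lit 26) (.e (nat_lit 426043) (nat_lit 0) .nil))))))) (.g (nat_lit 1) (.e (nat_lit 87959) (nat_lit 0) .nil) .nil)))) (.nd (nat_lit 9) 
(.lf (nat_lit 471457) (.g (nat_lit 1277) (.e (nat_lit 3406) (nat_lit 212) (.e (nat_lit 655378) (nat_lit 4) (.e (nat_lit 172112) (nat_lit 10) (.e (nat_lit 434271) (nat_lit 38) (.e (nat_lit 655380) (nat_lit 6) .nil))))) (.g (nat_lit 0) (.e (nat_lit 87535) (nat_lit 0) .nil) .nil))) 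
(.lf (nat_lit 471969) (.g (nat_lit 3700) (.e (nat_lit 3409) (nat_lit 212) (.e (nat_lit 655375) (nat_lit 3) (.e (nat_lit 163979) (nat_lit 30) (.e (nat_lit 573491) (nat_lit 15) (.e (nat_lit 81954) (nat_lit 23) (.e (nat_lit 98359) (nat_lit 26) (.e (nat_lit 426043) (nat_lit 0) .nil))))))) (.g (nat_lit 1) (.e (nat_lit 88366) (nat_lit 0) .nil) .nil)))))) 
(.nd (nat_lit 7) (.nd (nat_lit 8) (.nd (nat_lit 9) 
(.lf (nat_lit 471137) (.g (nat_lit 2955) (.e (nat_lit 3399) (nat_lit 211) (.e (nat_lit 647183) (nat_lit 4) (.e (nat_lit 172126) (nat_lit 14) (.e (nat_lit 491571) (nat_lit 13) (.e (nat_lit 393274) (nat_lit 23) (.e (nat_lit 426025) (nat_lit 0) .nil)))))) (.g (nat_lit 1) (.e (nat_lit 86831) (nat_lit 0) .nil) .nil))) 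
(.lf (nat_lit 471649) (.g (nat_lit 1040) (.e (nat_lit 3407) (nat_lit 212) (.e (nat_lit 655380) (nat_lit 6) (.e (nat_lit 188438) (nat_lit 20) (.e (nat_lit 3408) (nat_lit 212) (.e (nat_lit 655380) (nat_lit 6) (.e (nat_lit 188438) (nat_lit 20) .nil)))))) (.g (nat_lit 1) (.e (nat_lit 87851) (nat_lit 0) .nil) .nil)))) (.nd (nat_lit 9) 
(.lf (nat_lit 471393) (.g (nat_lit 298) (.e (nat_lit 3406) (nat_lit 212) (.e (nat_lit 655363) (nat_lit 0) (.e (nat_lit 3004) (nat_lit 186) .nil))) (.g (nat_lit 0) (.e (nat_lit 87412) (nat_lit 0) .nil) .nil))) 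
(.lf (nat_lit 471905) (.g (nat_lit 5236) (.e (nat_lit 3409) (nat_lit 212) (.e (nat_lit 655373) (nat_lit 3) (.e (nat_lit 163975) (nat_lit 30) (.e (nat_lit 573481) (nat_lit 13) (.e (nat_lit 65619) (nat_lit 10) (.e (nat_lit 344117) (nat_lit 21) (.e (nat_lit 516151) (nat_lit 9) (.e (nat_lit 426042) (nat_lit 0) .nil)))))))) (.g (nat_lit 1) (.e (nat_lit 88276) (nat_lit 0) .nil) .nil))))) 
(.nd (nat_lit 8) (.nd (nat_lit 9) 
(.lf (nat_lit 471265) (.g (nat_lit 2614) (.e (nat_lit 3402) (nat_lit 211) (.e (nat_lit 647181) (nat_lit 3) (.e (nat_lit 163977) (nat_lit 30) (.e (nat_lit 573485) (nat_lit 13) (.e (nat_lit 65604) (nat_lit 9) (.e (nat_lit 336028) (nat_lit 3) (.e (nat_lit 98359) (nat_lit 26) (.e (nat_lit 426003) (nat_lit 0) .nil)))))))) (.g (nat_lit 1) (.e (nat_lit 87160) (nat_lit 0) .nil) .nil))) 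
(.lf (nat_lit 471777) (.g (nat_lit 1713) (.e (nat_lit 3408) (nat_lit 212) (.e (nat_lit 655378) (nat_lit 4) (.e (nat_lit 172112) (nat_lit 10) (.e (nat_lit 434271) (nat_lit 38) (.e (nat_lit 655380) (nat_lit 6) (.e (nat_lit 188435) (nat_lit 20) .nil)))))) (.g (nat_lit 1) (.e (nat_lit 88080) (nat_lit 0) .nil) .nil)))) (.nd (nat_lit 9) 
(.lf (nat_lit 471521) (.g (nat_lit 1546) (.e (nat_lit 3406) (nat_lit 212) (.e (nat_lit 655380) (nat_lit 6) (.e (nat_lit 188438) (nat_lit 20) (.e (nat_lit 3407) (nat_lit 212) (.e (nat_lit 655380) (nat_lit 6) (.e (nat_lit 188434) (nat_lit 20) .nil)))))) (.g (nat_lit 1) (.e (nat_lit 87629) (nat_lit 0) .nil) .nil))) 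
(.lf (nat_lit 472033) (.g (nat_lit 2918) (.e (nat_lit 3409) (nat_lit 212) (.e (nat_lit 655378) (nat_lit 4) (.e (nat_lit 172113) (nat_lit 10) (.e (nat_lit 434271) (nat_lit 38) (.e (nat_lit 655380) (nat_lit 6) (.e (nat_lit 188441) (nat_lit 20) .nil)))))) (.g (nat_lit 1) (.e (nat_lit 88449) (nat_lit 0) .nil) .nil)))))))) 
(.nd (nat_lit 5) (.nd (nat_lit 6) (.nd (nat_lit 7) (.nd (nat_lit 8) (.nd (nat_lit 9) 
(.lf (nat_lit 471057) (.g (nat_lit 1471) (.e (nat_lit 3399) (nat_lit 211) (.e (nat_lit 647183) (nat_lit 4) (.e (nat_lit 172080) (nat_lit 7) (.e (nat_lit 409618) (nat_lit 10) (.e (nat_lit 5362) (nat_lit 298) .nil))))) (.g (nat_lit 0) (.e (nat_lit 86749) (nat_lit 0) .nil) .nil))) 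
(.lf (nat_lit 471569) (.g (nat_lit 4823) (.e (nat_lit 3407) (nat_lit 212) (.e (nat_lit 655375) (nat_lit 3) (.e (nat_lit 163978) (nat_lit 30) (.e (nat_lit 573485) (nat_lit 13) (.e (nat_lit 65619) (nat_lit 10) (.e (nat_lit 344117) (nat_lit 21) (.e (nat_lit 516151) (nat_lit 9) (.e (nat_lit 426043) (nat_lit 0) .nil)))))))) (.g (nat_lit 1) (.e (nat_lit 87709) (nat_lit 0) .nil) .nil)))) 
(.nd (nat_lit 9) 
(.lf (nat_lit 471313) (.g (nat_lit 1780) (.e (nat_lit 3402) (nat_lit 211) (.e (nat_lit 647183) (nat_lit 4) (.e (nat_lit 172106) (nat_lit 10) (.e (nat_lit 434209) (nat_lit 18) (.e (nat_lit 5546) (nat_lit 306) .nil))))) (.g (nat_lit 0) (.e (nat_lit 87233) (nat_lit 0) .nil) .nil))) 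
(.lf (nat_lit 471825) (.g (nat_lit 2630) (.e (nat_lit 3408) (nat_lit 212) (.e (nat_lit 655378) (nat_lit 4) (.e (nat_lit 172119) (nat_lit 12) (.e (nat_lit 475199) (nat_lit 40) (.e (nat_lit 704598) (nat_lit 6) (.e (nat_lit 188434) (nat_lit 20) .nil)))))) (.g (nat_lit 1) (.e (nat_lit 88131) (nat_lit 0) .nil) .nil))))) (.nd (nat_lit 8) (.nd (nat_lit 9) 
(.lf (nat_lit 471185) (.g (nat_lit 4203) (.e (nat_lit 3401) (nat_lit 211) (.e (nat_lit 647181) (nat_lit 3) (.e (nat_lit 163977) (nat_lit 30) (.e (nat_lit 573493) (nat_lit 15) (.e (nat_lit 81953) (nat_lit 22) (.e (nat_lit 90170) (nat_lit 13) (.e (nat_lit 172035) (nat_lit 0) .nil))))))) (.g (nat_lit 1) (.e (nat_lit 86980) (nat_lit 0) .nil) .nil))) 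
(.lf (nat_lit 471697) (.g (nat_lit 4946) (.e (nat_lit 3408) (nat_lit 212) (.e (nat_lit 655375) (nat_lit 3) (.e (nat_lit 163978) (nat_lit 30) (.e (nat_lit 573482) (nat_lit 13) (.e (nat_lit 65619) (nat_lit 10) (.e (nat_lit 344117) (nat_lit 21) (.e (nat_lit 516151) (nat_lit 9) (.e (nat_lit 426043) (nat_lit 0) .nil)))))))) (.g (nat_lit 1) (.e (nat_lit 87943) (nat_lit 0) .nil) .nil)))) 
(.nd (nat_lit 9) 
(.lf (nat_lit 471441) (.g (nat_lit 2454) (.e (nat_lit 3406) (nat_lit 212) (.e (nat_lit 655376) (nat_lit 4) (.e (nat_lit 172126) (nat_lit 14) (.e (nat_lit 491549) (nat_lit 9) (.e (nat_lit 336430) (nat_lit 29) (.e (nat_lit 442402) (nat_lit 20) .nil)))))) (.g (nat_lit 1) (.e (nat_lit 87480) (nat_lit 0) .nil) .nil))) 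
(.lf (nat_lit 471953) (.g (nat_lit 4330) (.e (nat_lit 3409) (nat_lit 212) (.e (nat_lit 655375) (nat_lit 3) (.e (nat_lit 163978) (nat_lit 30) (.e (nat_lit 573490) (nat_lit 15) (.e (nat_lit 81956) (nat_lit 23) (.e (nat_lit 98359) (nat_lit 26) (.e (nat_lit 426043) (nat_lit 0) .nil))))))) (.g (nat_lit 1) (.e (nat_lit 88327) (nat_lit 0) .nil) .nil)))))) 
(.nd (nat_lit 7) (.nd (nat_lit 8) (.nd (nat_lit 9) 
(.lf (nat_lit 471121) (.g (nat_lit 2705) (.e (nat_lit 3399) (nat_lit 211) (.e (nat_lit 647183) (nat_lit 4) (.e (nat_lit 172126) (nat_lit 14) (.e (nat_lit 491549) (nat_lit 9) (.e (nat_lit 336384) (nat_lit 27) .nil))))) (.g (nat_lit 0) (.e (nat_lit 86815) (nat_lit 0) .nil) .nil))) 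
(.lf (nat_lit 471633) (.g (nat_lit 957) (.e (nat_lit 3407) (nat_lit 212) (.e (nat_lit 655380) (nat_lit 6) (.e (nat_lit 188418) (nat_lit 0) (.e (nat_lit 2057) (nat_lit 142) (.e (nat_lit 704598) (nat_lit 6) (.e (nat_lit 188439) (nat_lit 20) .nil)))))) (.g (nat_lit 1) (.e (nat_lit 87831) (nat_lit 0) .nil) .nil)))) (.nd (nat_lit 9) 
(.lf (nat_lit 471377) (.g (nat_lit 3931) (.e (nat_lit 3403) (nat_lit 212) (.e (nat_lit 655375) (nat_lit 3) (.e (nat_lit 163978) (nat_lit 30) (.e (nat_lit 573479) (nat_lit 13) (.e (nat_lit 65604) (nat_lit 9) .nil))))) (.g (nat_lit 0) (.e (nat_lit 87349) (nat_lit 0) .nil) .nil))) 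
(.lf (nat_lit 471889) (.g (nat_lit 1857) (.e (nat_lit 3408) (nat_lit 212) (.e (nat_lit 655380) (nat_lit 6) (.e (nat_lit 188441) (nat_lit 20) (.e (nat_lit 3408) (nat_lit 212) (.e (nat_lit 655380) (nat_lit 6) (.e (nat_lit 188439) (nat_lit 20) .nil)))))) (.g (nat_lit 1) (.e (nat_lit 88217) (nat_lit 0) .nil) .nil))))) (.nd (nat_lit 8) (.nd (nat_lit 9) 
(.lf (nat_lit 471249) (.g (nat_lit 1404) (.e (nat_lit 3401) (nat_lit 211) (.e (nat_lit 647185) (nat_lit 6) (.e (nat_lit 188440) (nat_lit 20) (.e (nat_lit 3409) (nat_lit 212) (.e (nat_lit 655380) (nat_lit 6) (.e (nat_lit 188428) (nat_lit 20) .nil)))))) (.g (nat_lit 1) (.e (nat_lit 87132) (nat_lit 0) .nil) .nil))) 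
(.lf (nat_lit 471761) (.g (nat_lit 2165) (.e (nat_lit 3408) (nat_lit 212) (.e (nat_lit 655378) (nat_lit 4) (.e (nat_lit 172106) (nat_lit 10) (.e (nat_lit 434271) (nat_lit 38) (.e (nat_lit 655380) (nat_lit 6) (.e (nat_lit 188435) (nat_lit 20) .nil)))))) (.g (nat_lit 1) (.e (nat_lit 88064) (nat_lit 0) .nil) .nil)))) (.nd (nat_lit 9) 
(.lf (nat_lit 471505) (.g (nat_lit 1005) (.e (nat_lit 3406) (nat_lit 212) (.e (nat_lit 655380) (nat_lit 6) (.e (nat_lit 188418) (nat_lit 0) (.e (nat_lit 2057) (nat_lit 142) (.e (nat_lit 704598) (nat_lit 6) (.e (nat_lit 188439) (nat_lit 20) .nil)))))) (.g (nat_lit 1) (.e (nat_lit 87612) (nat_lit 0) .nil) .nil))) 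
(.lf (nat_lit 472017) (.g (nat_lit 2974) (.e (nat_lit 3409) (nat_lit 212) (.e (nat_lit 655378) (nat_lit 4) (.e (nat_lit 172106) (nat_lit 10) (.e (nat_lit 434271) (nat_lit 38) (.e (nat_lit 655380) (nat_lit 6) (.e (nat_lit 188441) (nat_lit 20) .nil)))))) (.g (nat_lit 1) (.e (nat_lit 88432) (nat_lit 0) .nil) .nil))))))) (.nd (nat_lit 6) (.nd (nat_lit 7) (.nd (nat_lit 8) (.nd (nat_lit 9) 
(.lf (nat_lit 471089) (.g (nat_lit 1494) (.e (nat_lit 3399) (nat_lit 211) (.e (nat_lit 647183) (nat_lit 4) (.e (nat_lit 172119) (nat_lit 12) (.e (nat_lit 475198) (nat_lit 40) (.e (nat_lit 712448) (nat_lit 6) .nil))))) (.g (nat_lit 0) (.e (nat_lit 86783) (nat_lit 0) .nil) .nil))) 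
(.lf (nat_lit 471601) (.g (nat_lit 1803) (.e (nat_lit 3407) (nat_lit 212) (.e (nat_lit 655378) (nat_lit 4) (.e (nat_lit 172107) (nat_lit 10) (.e (nat_lit 434271) (nat_lit 38) (.e (nat_lit 655380) (nat_lit 6) (.e (nat_lit 188438) (nat_lit 20) .nil)))))) (.g (nat_lit 1) (.e (nat_lit 87780) (nat_lit 0) .nil) .nil)))) (.nd (nat_lit 9) 
(.lf (nat_lit 471345) (.g (nat_lit 1700) (.e (nat_lit 3402) (nat_lit 211) (.e (nat_lit 647183) (nat_lit 4) (.e (nat_lit 172116) (nat_lit 10) (.e (nat_lit 434271) (nat_lit 38) (.e (nat_lit 655380) (nat_lit 6) (.e (nat_lit 188430) (nat_lit 20) .nil)))))) (.g (nat_lit 1) (.e (nat_lit 87270) (nat_lit 0) .nil) .nil))) 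
(.lf (nat_lit 471857) (.g (nat_lit 1561) (.e (nat_lit 3408) (nat_lit 212) (.e (nat_lit 655380) (nat_lit 6) (.e (nat_lit 188418) (nat_lit 0) (.e (nat_lit 2059) (nat_lit 142) (.e (nat_lit 704598) (nat_lit 6) (.e (nat_lit 188439) (nat_lit 20) .nil)))))) (.g (nat_lit 1) (.e (nat_lit 88185) (nat_lit 0) .nil) .nil))))) (.nd (nat_lit 8) (.nd (nat_lit 9) 
(.lf (nat_lit 471217) (.g (nat_lit 2481) (.e (nat_lit 3401) (nat_lit 211) (.e (nat_lit 647183) (nat_lit 4) (.e (nat_lit 172113) (nat_lit 10) (.e (nat_lit 434272) (nat_lit 38) (.e (nat_lit 655380) (nat_lit 6) (.e (nat_lit 188431) (nat_lit 20) .nil)))))) (.g (nat_lit 1) (.e (nat_lit 87055) (nat_lit 0) .nil) .nil))) 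
(.lf (nat_lit 471729) (.g (nat_lit 4764) (.e (nat_lit 3408) (nat_lit 212) (.e (nat_lit 655375) (nat_lit 3) (.e (nat_lit 163979) (nat_lit 30) (.e (nat_lit 573492) (nat_lit 15) (.e (nat_lit 81953) (nat_lit 22) (.e (nat_lit 90170) (nat_lit 13) (.e (nat_lit 172042) (nat_lit 0) .nil))))))) (.g (nat_lit 1) (.e (nat_lit 87988) (nat_lit 0) .nil) .nil)))) (.nd (nat_lit 9) 
(.lf (nat_lit 471473) (.g (nat_lit 1756) (.e (nat_lit 3406) (nat_lit 212) (.e (nat_lit 655378) (nat_lit 4) (.e (nat_lit 172115) (nat_lit 10) (.e (nat_lit 434272) (nat_lit 38) (.e (nat_lit 655380) (nat_lit 6) (.e (nat_lit 188424) (nat_lit 20) .nil)))))) (.g (nat_lit 1) (.e (nat_lit 87552) (nat_lit 0) .nil) .nil))) 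
(.lf (nat_lit 471985) (.g (nat_lit 1735) (.e (nat_lit 3409) (nat_lit 212) (.e (nat_lit 655376) (nat_lit 4) (.e (nat_lit 172120) (nat_lit 12) (.e (nat_lit 475198) (nat_lit 40) (.e (nat_lit 704598) (nat_lit 6) (.e (nat_lit 188435) (nat_lit 20) .nil)))))) (.g (nat_lit 1) (.e (nat_lit 88385) (nat_lit 0) .nil) .nil)))))) (.nd (nat_lit 7) (.nd (nat_lit 8) (.nd (nat_lit 9) 
(.lf (nat_lit 471153) (.g (nat_lit 1230) (.e (nat_lit 3399) (nat_lit 211) (.e (nat_lit 647185) (nat_lit 6) (.e (nat_lit 188439) (nat_lit 20) (.e (nat_lit 3407) (nat_lit 212) (.e (nat_lit 655380) (nat_lit 6) (.e (nat_lit 188430) (nat_lit 20) .nil)))))) (.g (nat_lit 1) (.e (nat_lit 86864) (nat_lit 0) .nil) .nil))) 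
(.lf (nat_lit 471665) (.g (nat_lit 1896) (.e (nat_lit 3407) (nat_lit 212) (.e (nat_lit 655380) (nat_lit 6) (.e (nat_lit 188441) (nat_lit 20) (.e (nat_lit 3409) (nat_lit 212) (.e (nat_lit 655380) (nat_lit 6) (.e (nat_lit 188439) (nat_lit 20) .nil)))))) (.g (nat_lit 1) (.e (nat_lit 87867) (nat_lit 0) .nil) .nil)))) (.nd (nat_lit 9) 
(.lf (nat_lit 471409) (.g (nat_lit 3571) (.e (nat_lit 3406) (nat_lit 212) (.e (nat_lit 655375) (nat_lit 3) (.e (nat_lit 163978) (nat_lit 30) (.e (nat_lit 573481) (nat_lit 13) (.e (nat_lit 65604) (nat_lit 9) (.e (nat_lit 336013) (nat_lit 2) (.e (nat_lit 90170) (nat_lit 13) (.e (nat_lit 172049) (nat_lit 0) .nil)))))))) (.g (nat_lit 1) (.e (nat_lit 87438) (nat_lit 0) .nil) .nil))) 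
(.lf (nat_lit 471921) (.g (nat_lit 4237) (.e (nat_lit 3409) (nat_lit 212) (.e (nat_lit 655375) (nat_lit 3) (.e (nat_lit 163978) (nat_lit 30) (.e (nat_lit 573479) (nat_lit 13) (.e (nat_lit 65604) (nat_lit 9) (.e (nat_lit 336013) (nat_lit 2) (.e (nat_lit 90170) (nat_lit 13) (.e (nat_lit 172052) (nat_lit 0) .nil)))))))) (.g (nat_lit 1) (.e (nat_lit 88293) (nat_lit 0) .nil) .nil))))) 
(.nd (nat_lit 8) (.nd (nat_lit 9) 
(.lf (nat_lit 471281) (.g (nat_lit 3228) (.e (nat_lit 3402) (nat_lit 211) (.e (nat_lit 647181) (nat_lit 3) (.e (nat_lit 163978) (nat_lit 30) (.e (nat_lit 573485) (nat_lit 13) (.e (nat_lit 65619) (nat_lit 10) (.e (nat_lit 344117) (nat_lit 21) (.e (nat_lit 516151) (nat_lit 9) (.e (nat_lit 426003) (nat_lit 0) .nil)))))))) (.g (nat_lit 1) (.e (nat_lit 87176) (nat_lit 0) .nil) .nil))) 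
(.lf (nat_lit 471793) (.g (nat_lit 2251) (.e (nat_lit 3408) (nat_lit 212) (.e (nat_lit 655378) (nat_lit 4) (.e (nat_lit 172113) (nat_lit 10) (.e (nat_lit 434272) (nat_lit 38) (.e (nat_lit 655380) (nat_lit 6) (.e (nat_lit 188439) (nat_lit 20) .nil)))))) (.g (nat_lit 1) (.e (nat_lit 88097) (nat_lit 0) .nil) .nil)))) (.nd (nat_lit 9) 
(.lf (nat_lit 471537) (.g (nat_lit 1951) (.e (nat_lit 3406) (nat_lit 212) (.e (nat_lit 655380) (nat_lit 6) (.e (nat_lit 188441) (nat_lit 20) (.e (nat_lit 3409) (nat_lit 212) (.e (nat_lit 655380) (nat_lit 6) (.e (nat_lit 188439) (nat_lit 20) .nil)))))) (.g (nat_lit 1) (.e (nat_lit 87645) (nat_lit 0) .nil) .nil))) 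
(.lf (nat_lit 472049) (.g (nat_lit 2211) (.e (nat_lit 3409) (nat_lit 212) (.e (nat_lit 655378) (nat_lit 4) (.e (nat_lit 172119) (nat_lit 12) (.e (nat_lit 475199) (nat_lit 40) (.e (nat_lit 704598) (nat_lit 6) (.e (nat_lit 188435) (nat_lit 20) .nil)))))) (.g (nat_lit 1) (.e (nat_lit 88466) (nat_lit 0) .nil) .nil))))))))) 
(.nd (nat_lit 4) (.nd (nat_lit 5) (.nd (nat_lit 6) (.nd (nat_lit 7) (.nd (nat_lit 8) 
(.nd (nat_lit 9) 
(.lf (nat_lit 471049) (.g (nat_lit 4882) (.e (nat_lit 3399) (nat_lit 211) (.e (nat_lit 647181) (nat_lit 3) (.e (nat_lit 163979) (nat_lit 30) (.e (nat_lit 573492) (nat_lit 15) (.e (nat_lit 81956) (nat_lit 23) (.e (nat_lit 98360) (nat_lit 26) (.e (nat_lit 426025) (nat_lit 0) .nil))))))) (.g (nat_lit 1) (.e (nat_lit 86735) (nat_lit 0) .nil) .nil))) 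
(.lf (nat_lit 471561) (.g (nat_lit 5376) (.e (nat_lit 3407) (nat_lit 212) (.e (nat_lit 655375) (nat_lit 3) (.e (nat_lit 163978) (nat_lit 30) (.e (nat_lit 573479) (nat_lit 13) (.e (nat_lit 65619) (nat_lit 10) (.e (nat_lit 344117) (nat_lit 21) (.e (nat_lit 516151) (nat_lit 9) (.e (nat_lit 426043) (nat_lit 0) .nil)))))))) (.g (nat_lit 1) (.e (nat_lit 87701) (nat_lit 0) .nil) .nil)))) 
(.nd (nat_lit 9) 
(.lf (nat_lit 471305) (.g (nat_lit 1979) (.e (nat_lit 3402) (nat_lit 211) (.e (nat_lit 647183) (nat_lit 4) (.e (nat_lit 172082) (nat_lit 7) (.e (nat_lit 409642) (nat_lit 17) (.e (nat_lit 294974) (nat_lit 29) (.e (nat_lit 442396) (nat_lit 20) .nil)))))) (.g (nat_lit 1) (.e (nat_lit 87215) (nat_lit 0) .nil) .nil))) 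
(.lf (nat_lit 471817) (.g (nat_lit 2453) (.e (nat_lit 3408) (nat_lit 212) (.e (nat_lit 655378) (nat_lit 4) (.e (nat_lit 172118) (nat_lit 12) (.e (nat_lit 475198) (nat_lit 40) (.e (nat_lit 704598) (nat_lit 6) (.e (nat_lit 188439) (nat_lit 20) .nil)))))) (.g (nat_lit 1) (.e (nat_lit 88122) (nat_lit 0) .nil) .nil))))) (.nd (nat_lit 8) (.nd (nat_lit 9) 
(.lf (nat_lit 471177) (.g (nat_lit 4256) (.e (nat_lit 3401) (nat_lit 211) (.e (nat_lit 647181) (nat_lit 3) (.e (nat_lit 163977) (nat_lit 30) (.e (nat_lit 573485) (nat_lit 13) (.e (nat_lit 65604) (nat_lit 9) (.e (nat_lit 336013) (nat_lit 2) (.e (nat_lit 90170) (nat_lit 13) (.e (nat_lit 172039) (nat_lit 0) .nil)))))))) (.g (nat_lit 1) (.e (nat_lit 86972) (nat_lit 0) .nil) .nil))) 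
(.lf (nat_lit 471689) (.g (nat_lit 362) (.e (nat_lit 3408) (nat_lit 212) (.e (nat_lit 655375) (nat_lit 3) (.e (nat_lit 163978) (nat_lit 30) .nil))) (.g (nat_lit 0) (.e (nat_lit 87935) (nat_lit 0) .nil) .nil)))) (.nd (nat_lit 9) 
(.lf (nat_lit 471433) (.g (nat_lit 4552) (.e (nat_lit 3406) (nat_lit 212) (.e (nat_lit 655375) (nat_lit 3) (.e (nat_lit 163979) (nat_lit 30) (.e (nat_lit 573492) (nat_lit 15) (.e (nat_lit 81956) (nat_lit 23) (.e (nat_lit 98356) (nat_lit 26) (.e (nat_lit 426095) (nat_lit 0) .nil))))))) (.g (nat_lit 1) (.e (nat_lit 87469) (nat_lit 0) .nil) .nil))) 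
(.lf (nat_lit 471945) (.g (nat_lit 3254) (.e (nat_lit 3409) (nat_lit 212) (.e (nat_lit 655375) (nat_lit 3) (.e (nat_lit 163978) (nat_lit 30) (.e (nat_lit 573485) (nat_lit 13) (.e (nat_lit 65619) (nat_lit 10) (.e (nat_lit 344117) (nat_lit 21) (.e (nat_lit 516151) (nat_lit 9) (.e (nat_lit 426003) (nat_lit 0) .nil)))))))) (.g (nat_lit 1) (.e (nat_lit 88317) (nat_lit 0) .nil) .nil)))))) 
(.nd (nat_lit 7) (.nd (nat_lit 8) (.nd (nat_lit 9) 
(.lf (nat_lit 471113) (.g (nat_lit 2185) (.e (nat_lit 3399) (nat_lit 211) (.e (nat_lit 647183) (nat_lit 4) (.e (nat_lit 172124) (nat_lit 14) (.e (nat_lit 491571) (nat_lit 13) (.e (nat_lit 401152) (nat_lit 23) .nil))))) (.g (nat_lit 0) (.e (nat_lit 86807) (nat_lit 0) .nil) .nil))) 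
(.lf (nat_lit 471625) (.g (nat_lit 2248) (.e (nat_lit 3407) (nat_lit 212) (.e (nat_lit 655378) (nat_lit 4) (.e (nat_lit 172119) (nat_lit 12) (.e (nat_lit 475199) (nat_lit 40) (.e (nat_lit 704598) (nat_lit 6) (.e (nat_lit 188439) (nat_lit 20) .nil)))))) (.g (nat_lit 1) (.e (nat_lit 87805) (nat_lit 0) .nil) .nil)))) (.nd (nat_lit 9) 
(.lf (nat_lit 471369) (.g (nat_lit 2582) (.e (nat_lit 3402) (nat_lit 211) (.e (nat_lit 647183) (nat_lit 4) (.e (nat_lit 172124) (nat_lit 14) (.e (nat_lit 491571) (nat_lit 13) (.e (nat_lit 393274) (nat_lit 23) (.e (nat_lit 426023) (nat_lit 0) .nil)))))) (.g (nat_lit 1) (.e (nat_lit 87294) (nat_lit 0) .nil) .nil))) 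
(.lf (nat_lit 471881) (.g (nat_lit 2061) (.e (nat_lit 3408) (nat_lit 212) (.e (nat_lit 655380) (nat_lit 6) (.e (nat_lit 188440) (nat_lit 20) (.e (nat_lit 3408) (nat_lit 212) (.e (nat_lit 655380) (nat_lit 6) (.e (nat_lit 188441) (nat_lit 20) .nil)))))) (.g (nat_lit 1) (.e (nat_lit 88209) (nat_lit 0) .nil) .nil))))) (.nd (nat_lit 8) (.nd (nat_lit 9) 
(.lf (nat_lit 471241) (.g (nat_lit 1705) (.e (nat_lit 3401) (nat_lit 211) (.e (nat_lit 647185) (nat_lit 6) (.e (nat_lit 188418) (nat_lit 0) (.e (nat_lit 2059) (nat_lit 142) (.e (nat_lit 704598) (nat_lit 6) (.e (nat_lit 188427) (nat_lit 20) .nil)))))) (.g (nat_lit 1) (.e (nat_lit 87112) (nat_lit 0) .nil) .nil))) 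
(.lf (nat_lit 471753) (.g (nat_lit 2222) (.e (nat_lit 3408) (nat_lit 212) (.e (nat_lit 655378) (nat_lit 4) (.e (nat_lit 172094) (nat_lit 9) (.e (nat_lit 426025) (nat_lit 0) (.e (nat_lit 3397) (nat_lit 211) (.e (nat_lit 647185) (nat_lit 6) (.e (nat_lit 188440) (nat_lit 20) .nil))))))) (.g (nat_lit 1) (.e (nat_lit 88049) (nat_lit 0) .nil) .nil)))) (.nd (nat_lit 9) 
(.lf (nat_lit 471497) (.g (nat_lit 2550) (.e (nat_lit 3406) (nat_lit 212) (.e (nat_lit 655378) (nat_lit 4) (.e (nat_lit 172120) (nat_lit 12) (.e (nat_lit 475199) (nat_lit 40) (.e (nat_lit 704598) (nat_lit 6) (.e (nat_lit 188439) (nat_lit 20) .nil)))))) (.g (nat_lit 1) (.e (nat_lit 87579) (nat_lit 0) .nil) .nil))) 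
(.lf (nat_lit 472009) (.g (nat_lit 1761) (.e (nat_lit 3409) (nat_lit 212) (.e (nat_lit 655378) (nat_lit 4) (.e (nat_lit 172097) (nat_lit 9) (.e (nat_lit 426025) (nat_lit 0) (.e (nat_lit 3399) (nat_lit 211) .nil))))) (.g (nat_lit 0) (.e (nat_lit 88424) (nat_lit 0) .nil) .nil))))))) (.nd (nat_lit 6) (.nd (nat_lit 7) (.nd (nat_lit 8) (.nd (nat_lit 9) 
(.lf (nat_lit 471081) (.g (nat_lit 2057) (.e (nat_lit 3399) (nat_lit 211) (.e (nat_lit 647183) (nat_lit 4) (.e (nat_lit 172115) (nat_lit 10) (.e (nat_lit 434271) (nat_lit 38) (.e (nat_lit 655380) (nat_lit 6) (.e (nat_lit 188430) (nat_lit 20) .nil)))))) (.g (nat_lit 1) (.e (nat_lit 86775) (nat_lit 0) .nil) .nil))) 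
(.lf (nat_lit 471593) (.g (nat_lit 1883) (.e (nat_lit 3407) (nat_lit 212) (.e (nat_lit 655378) (nat_lit 4) (.e (nat_lit 172094) (nat_lit 9) (.e (nat_lit 426025) (nat_lit 0) (.e (nat_lit 3399) (nat_lit 211) .nil))))) (.g (nat_lit 0) (.e (nat_lit 87765) (nat_lit 0) .nil) .nil)))) (.nd (nat_lit 9) 
(.lf (nat_lit 471337) (.g (nat_lit 2703) (.e (nat_lit 3402) (nat_lit 211) (.e (nat_lit 647183) (nat_lit 4) (.e (nat_lit 172115) (nat_lit 10) (.e (nat_lit 434209) (nat_lit 18) (.e (nat_lit 5547) (nat_lit 306) (.e (nat_lit 2648) (nat_lit 166) (.e (nat_lit 188431) (nat_lit 20) .nil))))))) (.g (nat_lit 1) (.e (nat_lit 87261) (nat_lit 0) .nil) .nil))) 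
(.lf (nat_lit 471849) (.g (nat_lit 3117) (.e (nat_lit 3408) (nat_lit 212) (.e (nat_lit 655378) (nat_lit 4) (.e (nat_lit 172126) (nat_lit 14) (.e (nat_lit 491550) (nat_lit 9) (.e (nat_lit 336430) (nat_lit 29) (.e (nat_lit 442402) (nat_lit 20) .nil)))))) (.g (nat_lit 1) (.e (nat_lit 88168) (nat_lit 0) .nil) .nil))))) (.nd (nat_lit 8) (.nd (nat_lit 9) 
(.lf (nat_lit 471209) (.g (nat_lit 2087) (.e (nat_lit 3401) (nat_lit 211) (.e (nat_lit 647183) (nat_lit 4) (.e (nat_lit 172106) (nat_lit 10) (.e (nat_lit 434272) (nat_lit 38) (.e (nat_lit 655380) (nat_lit 6) (.e (nat_lit 188427) (nat_lit 20) .nil)))))) (.g (nat_lit 1) (.e (nat_lit 87037) (nat_lit 0) .nil) .nil))) 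
(.lf (nat_lit 471721) (.g (nat_lit 4804) (.e (nat_lit 3408) (nat_lit 212) (.e (nat_lit 655375) (nat_lit 3) (.e (nat_lit 163979) (nat_lit 30) (.e (nat_lit 573482) (nat_lit 13) (.e (nat_lit 65604) (nat_lit 9) (.e (nat_lit 336013) (nat_lit 2) (.e (nat_lit 90170) (nat_lit 13) (.e (nat_lit 172049) (nat_lit 0) .nil)))))))) (.g (nat_lit 1) (.e (nat_lit 87980) (nat_lit 0) .nil) .nil)))) (.nd (nat_lit 9) 
(.lf (nat_lit 471465) (.g (nat_lit 1981) (.e (nat_lit 3406) (nat_lit 212) (.e (nat_lit 655378) (nat_lit 4) (.e (nat_lit 172113) (nat_lit 10) (.e (nat_lit 434271) (nat_lit 38) (.e (nat_lit 655380) (nat_lit 6) (.e (nat_lit 188441) (nat_lit 20) .nil)))))) (.g (nat_lit 1) (.e (nat_lit 87543) (nat_lit 0) .nil) .nil))) 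
(.lf (nat_lit 471977) (.g (nat_lit 4742) (.e (nat_lit 3409) (nat_lit 212) (.e (nat_lit 655375) (nat_lit 3) (.e (nat_lit 163979) (nat_lit 30) (.e (nat_lit 573492) (nat_lit 15) (.e (nat_lit 81956) (nat_lit 23) (.e (nat_lit 98360) (nat_lit 26) (.e (nat_lit 426048) (nat_lit 0) .nil))))))) (.g (nat_lit 1) (.e (nat_lit 88376) (nat_lit 0) .nil) .nil)))))) 
(.nd (nat_lit 7) (.nd (nat_lit 8) (.nd (nat_lit 9) 
(.lf (nat_lit 471145) (.g (nat_lit 570) (.e (nat_lit 3399) (nat_lit 211) (.e (nat_lit 647185) (nat_lit 6) (.e (nat_lit 188427) (nat_lit 20) .nil))) (.g (nat_lit 0) (.e (nat_lit 86856) (nat_lit 0) .nil) .nil))) 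
(.lf (nat_lit 471657) (.g (nat_lit 1416) (.e (nat_lit 3407) (nat_lit 212) (.e (nat_lit 655380) (nat_lit 6) (.e (nat_lit 188439) (nat_lit 20) (.e (nat_lit 3409) (nat_lit 212) (.e (nat_lit 655380) (nat_lit 6) (.e (nat_lit 188439) (nat_lit 20) .nil)))))) (.g (nat_lit 1) (.e (nat_lit 87859) (nat_lit 0) .nil) .nil)))) (.nd (nat_lit 9) 
(.lf (nat_lit 471401) (.g (nat_lit 4928) (.e (nat_lit 3406) (nat_lit 212) (.e (nat_lit 655375) (nat_lit 3) (.e (nat_lit 163978) (nat_lit 30) (.e (nat_lit 573479) (nat_lit 13) (.e (nat_lit 65604) (nat_lit 9) (.e (nat_lit 336013) (nat_lit 2) (.e (nat_lit 90170) (nat_lit 13) (.e (nat_lit 172042) (nat_lit 0) .nil)))))))) (.g (nat_lit 1) (.e (nat_lit 87430) (nat_lit 0) .nil) .nil))) 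
(.lf (nat_lit 471913) (.g (nat_lit 3229) (.e (nat_lit 3409) (nat_lit 212) (.e (nat_lit 655375) (nat_lit 3) (.e (nat_lit 163977) (nat_lit 30) (.e (nat_lit 573485) (nat_lit 13) (.e (nat_lit 65604) (nat_lit 9) (.e (nat_lit 336028) (nat_lit 3) (.e (nat_lit 98359) (nat_lit 26) (.e (nat_lit 426042) (nat_lit 0) .nil)))))))) (.g (nat_lit 1) (.e (nat_lit 88285) (nat_lit 0) .nil) .nil))))) 
(.nd (nat_lit 8) (.nd (nat_lit 9) 
(.lf (nat_lit 471273) (.g (nat_lit 4244) (.e (nat_lit 3402) (nat_lit 211) (.e (nat_lit 647181) (nat_lit 3) (.e (nat_lit 163977) (nat_lit 30) (.e (nat_lit 573493) (nat_lit 15) (.e (nat_lit 81953) (nat_lit 22) (.e (nat_lit 90170) (nat_lit 13) (.e (nat_lit 172035) (nat_lit 0) .nil))))))) (.g (nat_lit 1) (.e (nat_lit 87168) (nat_lit 0) .nil) .nil))) 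
(.lf (nat_lit 471785) (.g (nat_lit 2428) (.e (nat_lit 3408) (nat_lit 212) (.e (nat_lit 655378) (nat_lit 4) (.e (nat_lit 172113) (nat_lit 10) (.e (nat_lit 434271) (nat_lit 38) (.e (nat_lit 655380) (nat_lit 6) (.e (nat_lit 188434) (nat_lit 20) .nil)))))) (.g (nat_lit 1) (.e (nat_lit 88089) (nat_lit 0) .nil) .nil)))) (.nd (nat_lit 9) 
(.lf (nat_lit 471529) (.g (nat_lit 1882) (.e (nat_lit 3406) (nat_lit 212) (.e (nat_lit 655380) (nat_lit 6) (.e (nat_lit 188440) (nat_lit 20) (.e (nat_lit 3408) (nat_lit 212) (.e (nat_lit 655380) (nat_lit 6) (.e (nat_lit 188434) (nat_lit 20) .nil)))))) (.g (nat_lit 1) (.e (nat_lit 87637) (nat_lit 0) .nil) .nil))) 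
(.lf (nat_lit 472041) (.g (nat_lit 1896) (.e (nat_lit 3409) (nat_lit 212) (.e (nat_lit 655378) (nat_lit 4) (.e (nat_lit 172116) (nat_lit 10) (.e (nat_lit 434271) (nat_lit 38) (.e (nat_lit 655380) (nat_lit 6) (.e (nat_lit 188439) (nat_lit 20) .nil)))))) (.g (nat_lit 1) (.e (nat_lit 88458) (nat_lit 0) .nil) .nil)))))))) 
(.nd (nat_lit 5) (.nd (nat_lit 6) (.nd (nat_lit 7) (.nd (nat_lit 8) (.nd (nat_lit 9) 
(.lf (nat_lit 471065) (.g (nat_lit 1824) (.e (nat_lit 3399) (nat_lit 211) (.e (nat_lit 647183) (nat_lit 4) (.e (nat_lit 172094) (nat_lit 9) (.e (nat_lit 426025) (nat_lit 0) (.e (nat_lit 3399) (nat_lit 211) .nil))))) (.g (nat_lit 0) (.e (nat_lit 86757) (nat_lit 0) .nil) .nil))) 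
(.lf (nat_lit 471577) (.g (nat_lit 4621) (.e (nat_lit 3407) (nat_lit 212) (.e (nat_lit 655375) (nat_lit 3) (.e (nat_lit 163979) (nat_lit 30) (.e (nat_lit 573481) (nat_lit 13) (.e (nat_lit 65619) (nat_lit 10) (.e (nat_lit 344117) (nat_lit 21) (.e (nat_lit 516151) (nat_lit 9) (.e (nat_lit 426043) (nat_lit 0) .nil)))))))) (.g (nat_lit 1) (.e (nat_lit 87727) (nat_lit 0) .nil) .nil)))) 
(.nd (nat_lit 9) 
(.lf (nat_lit 471321) (.g (nat_lit 1983) (.e (nat_lit 3402) (nat_lit 211) (.e (nat_lit 647183) (nat_lit 4) (.e (nat_lit 172106) (nat_lit 10) (.e (nat_lit 434271) (nat_lit 38) (.e (nat_lit 655380) (nat_lit 6) (.e (nat_lit 188430) (nat_lit 20) .nil)))))) (.g (nat_lit 1) (.e (nat_lit 87241) (nat_lit 0) .nil) .nil))) 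
(.lf (nat_lit 471833) (.g (nat_lit 2606) (.e (nat_lit 3408) (nat_lit 212) (.e (nat_lit 655378) (nat_lit 4) (.e (nat_lit 172120) (nat_lit 12) (.e (nat_lit 475198) (nat_lit 40) (.e (nat_lit 704598) (nat_lit 6) (.e (nat_lit 188439) (nat_lit 20) .nil)))))) (.g (nat_lit 1) (.e (nat_lit 88142) (nat_lit 0) .nil) .nil))))) (.nd (nat_lit 8) (.nd (nat_lit 9) 
(.lf (nat_lit 471193) (.g (nat_lit 4783) (.e (nat_lit 3401) (nat_lit 211) (.e (nat_lit 647181) (nat_lit 3) (.e (nat_lit 163978) (nat_lit 30) (.e (nat_lit 573485) (nat_lit 13) (.e (nat_lit 65604) (nat_lit 9) (.e (nat_lit 336013) (nat_lit 2) (.e (nat_lit 90170) (nat_lit 13) (.e (nat_lit 172035) (nat_lit 0) .nil)))))))) (.g (nat_lit 1) (.e (nat_lit 86988) (nat_lit 0) .nil) .nil))) 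
(.lf (nat_lit 471705) (.g (nat_lit 2645) (.e (nat_lit 3408) (nat_lit 212) (.e (nat_lit 655375) (nat_lit 3) (.e (nat_lit 163978) (nat_lit 30) (.e (nat_lit 573490) (nat_lit 15) (.e (nat_lit 81951) (nat_lit 22) .nil))))) (.g (nat_lit 0) (.e (nat_lit 87951) (nat_lit 0) .nil) .nil)))) (.nd (nat_lit 9) 
(.lf (nat_lit 471449) (.g (nat_lit 1286) (.e (nat_lit 3406) (nat_lit 212) (.e (nat_lit 655378) (nat_lit 4) (.e (nat_lit 172106) (nat_lit 10) (.e (nat_lit 434271) (nat_lit 38) (.e (nat_lit 655380) (nat_lit 6) .nil))))) (.g (nat_lit 0) (.e (nat_lit 87527) (nat_lit 0) .nil) .nil))) 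
(.lf (nat_lit 471961) (.g (nat_lit 4276) (.e (nat_lit 3409) (nat_lit 212) (.e (nat_lit 655375) (nat_lit 3) (.e (nat_lit 163979) (nat_lit 30) (.e (nat_lit 573481) (nat_lit 13) (.e (nat_lit 65619) (nat_lit 10) (.e (nat_lit 344117) (nat_lit 21) (.e (nat_lit 516151) (nat_lit 9) (.e (nat_lit 426043) (nat_lit 0) .nil)))))))) (.g (nat_lit 1) (.e (nat_lit 88358) (nat_lit 0) .nil) .nil)))))) 
(.nd (nat_lit 7) (.nd (nat_lit 8) (.nd (nat_lit 9) 
(.lf (nat_lit 471129) (.g (nat_lit 2514) (.e (nat_lit 3399) (nat_lit 211) (.e (nat_lit 647183) (nat_lit 4) (.e (nat_lit 172126) (nat_lit 14) (.e (nat_lit 491550) (nat_lit 9) (.e (nat_lit 336430) (nat_lit 29) (.e (nat_lit 442399) (nat_lit 20) .nil)))))) (.g (nat_lit 1) (.e (nat_lit 86823) (nat_lit 0) .nil) .nil))) 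
(.lf (nat_lit 471641) (.g (nat_lit 132) (.e (nat_lit 3407) (nat_lit 212) (.e (nat_lit 655380) (nat_lit 6) (.e (nat_lit 188434) (nat_lit 20) .nil))) (.g (nat_lit 0) (.e (nat_lit 87843) (nat_lit 0) .nil) .nil)))) (.nd (nat_lit 9) 
(.lf (nat_lit 471385) (.g (nat_lit 1053) (.e (nat_lit 3403) (nat_lit 212) (.e (nat_lit 655377) (nat_lit 4) (.e (nat_lit 172126) (nat_lit 14) (.e (nat_lit 491549) (nat_lit 9) .nil)))) (.g (nat_lit 0) (.e (nat_lit 87373) (nat_lit 0) .nil) .nil))) 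
(.lf (nat_lit 471897) (.g (nat_lit 4323) (.e (nat_lit 3409) (nat_lit 212) (.e (nat_lit 655364) (nat_lit 0) (.e (nat_lit 2472) (nat_lit 157) (.e (nat_lit 3307) (nat_lit 202) (.e (nat_lit 573484) (nat_lit 13) (.e (nat_lit 65610) (nat_lit 10) (.e (nat_lit 344117) (nat_lit 21) (.e (nat_lit 516151) (nat_lit 9) (.e (nat_lit 426042) (nat_lit 0) .nil))))))))) (.g (nat_lit 1) (.e (nat_lit 88235) (nat_lit 0) .nil) .nil))))) 
(.nd (nat_lit 8) (.nd (nat_lit 9) 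
(.lf (nat_lit 471257) (.g (nat_lit 4356) (.e (nat_lit 3402) (nat_lit 211) (.e (nat_lit 647181) (nat_lit 3) (.e (nat_lit 163977) (nat_lit 30) (.e (nat_lit 573482) (nat_lit 13) (.e (nat_lit 65604) (nat_lit 9) (.e (nat_lit 336013) (nat_lit 2) (.e (nat_lit 90170) (nat_lit 13) (.e (nat_lit 172035) (nat_lit 0) .nil)))))))) (.g (nat_lit 1) (.e (nat_lit 87152) (nat_lit 0) .nil) .nil))) 
(.lf (nat_lit 471769) (.g (nat_lit 1759) (.e (nat_lit 3408) (nat_lit 212) (.e (nat_lit 655378) (nat_lit 4) (.e (nat_lit 172107) (nat_lit 10) (.e (nat_lit 434271) (nat_lit 38) (.e (nat_lit 655380) (nat_lit 6) (.e (nat_lit 188435) (nat_lit 20) .nil)))))) (.g (nat_lit 1) (.e (nat_lit 88072) (nat_lit 0) .nil) .nil)))) (.nd (nat_lit 9) 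
(.lf (nat_lit 471513) (.g (nat_lit 1465) (.e (nat_lit 3406) (nat_lit 212) (.e (nat_lit 655380) (nat_lit 6) (.e (nat_lit 188420) (nat_lit 0) (.e (nat_lit 2058) (nat_lit 142) (.e (nat_lit 704598) (nat_lit 6) (.e (nat_lit 188439) (nat_lit 20) .nil)))))) (.g (nat_lit 1) (.e (nat_lit 87620) (nat_lit 0) .nil) .nil))) 
(.lf (nat_lit 472025) (.g (nat_lit 1939) (.e (nat_lit 3409) (nat_lit 212) (.e (nat_lit 655378) (nat_lit 4) (.e (nat_lit 172112) (nat_lit 10) (.e (nat_lit 434271) (nat_lit 38) (.e (nat_lit 655380) (nat_lit 6) (.e (nat_lit 188439) (nat_lit 20) .nil)))))) (.g (nat_lit 1) (.e (nat_lit 88440) (nat_lit 0) .nil) .nil))))))) (.nd (nat_lit 6) (.nd (nat_lit 7) (.nd (nat_lit 8) (.nd (nat_lit 9) 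
(.lf (nat_lit 471097) (.g (nat_lit 2446) (.e (nat_lit 3399) (nat_lit 211) (.e (nat_lit 647183) (nat_lit 4) (.e (nat_lit 172124) (nat_lit 14) (.e (nat_lit 491549) (nat_lit 9) (.e (nat_lit 336368) (nat_lit 27) .nil))))) (.g (nat_lit 0) (.e (nat_lit 86791) (nat_lit 0) .nil) .nil))) 
(.lf (nat_lit 471609) (.g (nat_lit 2000) (.e (nat_lit 3407) (nat_lit 212) (.e (nat_lit 655378) (nat_lit 4) (.e (nat_lit 172113) (nat_lit 10) (.e (nat_lit 434271) (nat_lit 38) (.e (nat_lit 655380) (nat_lit 6) (.e (nat_lit 188439) (nat_lit 20) .nil)))))) (.g (nat_lit 1) (.e (nat_lit 87788) (nat_lit 0) .nil) .nil)))) (.nd (nat_lit 9) 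
(.lf (nat_lit 471353) (.g (nat_lit 1585) (.e (nat_lit 3402) (nat_lit 211) (.e (nat_lit 647183) (nat_lit 4) (.e (nat_lit 172119) (nat_lit 12) (.e (nat_lit 475198) (nat_lit 40) (.e (nat_lit 712448) (nat_lit 6) .nil))))) (.g (nat_lit 0) (.e (nat_lit 87278) (nat_lit 0) .nil) .nil))) 
(.lf (nat_lit 471865) (.g (nat_lit 1817) (.e (nat_lit 3408) (nat_lit 212) (.e (nat_lit 655380) (nat_lit 6) (.e (nat_lit 188434) (nat_lit 20) (.e (nat_lit 3408) (nat_lit 212) (.e (nat_lit 655380) (nat_lit 6) (.e (nat_lit 188440) (nat_lit 20) .nil)))))) (.g (nat_lit 1) (.e (nat_lit 88193) (nat_lit 0) .nil) .nil))))) (.nd (nat_lit 8) (.nd (nat_lit 9) 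
(.lf (nat_lit 471225) (.g (nat_lit 1439) (.e (nat_lit 3401) (nat_lit 211) (.e (nat_lit 647183) (nat_lit 4) (.e (nat_lit 172119) (nat_lit 12) (.e (nat_lit 475198) (nat_lit 40) (.e (nat_lit 704598) (nat_lit 6) (.e (nat_lit 188427) (nat_lit 20) .nil)))))) (.g (nat_lit 1) (.e (nat_lit 87075) (nat_lit 0) .nil) .nil))) 
(.lf (nat_lit 471737) (.g (nat_lit 3655) (.e (nat_lit 3408) (nat_lit 212) (.e (nat_lit 655375) (nat_lit 3) (.e (nat_lit 163979) (nat_lit 30) (.e (nat_lit 573492) (nat_lit 15) (.e (nat_lit 81956) (nat_lit 23) (.e (nat_lit 98360) (nat_lit 26) (.e (nat_lit 426046) (nat_lit 0) .nil))))))) (.g (nat_lit 1) (.e (nat_lit 87996) (nat_lit 0) .nil) .nil)))) (.nd (nat_lit 9) 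
(.lf (nat_lit 471481) (.g (nat_lit 1769) (.e (nat_lit 3406) (nat_lit 212) (.e (nat_lit 655378) (nat_lit 4) (.e (nat_lit 172116) (nat_lit 10) (.e (nat_lit 434272) (nat_lit 38) (.e (nat_lit 655380) (nat_lit 6) (.e (nat_lit 188439) (nat_lit 20) .nil)))))) (.g (nat_lit 1) (.e (nat_lit 87560) (nat_lit 0) .nil) .nil))) 
(.lf (nat_lit 471993) (.g (nat_lit 1718) (.e (nat_lit 3409) (nat_lit 212) (.e (nat_lit 655378) (nat_lit 4) (.e (nat_lit 172079) (nat_lit 7) (.e (nat_lit 409618) (nat_lit 10) (.e (nat_lit 5362) (nat_lit 298) .nil))))) (.g (nat_lit 0) (.e (nat_lit 88404) (nat_lit 0) .nil) .nil)))))) (.nd (nat_lit 7) (.nd (nat_lit 8) (.nd (nat_lit 9) 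
(.lf (nat_lit 471161) (.g (nat_lit 3076) (.e (nat_lit 3399) (nat_lit 211) (.e (nat_lit 647185) (nat_lit 6) (.e (nat_lit 188453) (nat_lit 24) (.e (nat_lit 229663) (nat_lit 240) (.e (nat_lit 2651) (nat_lit 166) (.e (nat_lit 188431) (nat_lit 20) .nil)))))) (.g (nat_lit 1) (.e (nat_lit 86876) (nat_lit 0) .nil) .nil))) 
(.lf (nat_lit 471673) (.g (nat_lit 621) (.e (nat_lit 3408) (nat_lit 212) (.e (nat_lit 655363) (nat_lit 0) (.e (nat_lit 3004) (nat_lit 186) (.e (nat_lit 450304) (nat_lit 4) .nil)))) (.g (nat_lit 0) (.e (nat_lit 87886) (nat_lit 0) .nil) .nil)))) (.nd (nat_lit 9) 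
(.lf (nat_lit 471417) (.g (nat_lit 2634) (.e (nat_lit 3406) (nat_lit 212) (.e (nat_lit 655375) (nat_lit 3) (.e (nat_lit 163978) (nat_lit 30) (.e (nat_lit 573483) (nat_lit 13) (.e (nat_lit 65619) (nat_lit 10) (.e (nat_lit 344117) (nat_lit 21) (.e (nat_lit 516151) (nat_lit 9) (.e (nat_lit 426043) (nat_lit 0) .nil)))))))) (.g (nat_lit 1) (.e (nat_lit 87446) (nat_lit 0) .nil) .nil))) 
(.lf (nat_lit 471929) (.g (nat_lit 3679) (.e (nat_lit 3409) (nat_lit 212) (.e (nat_lit 655375) (nat_lit 3) (.e (nat_lit 163978) (nat_lit 30) (.e (nat_lit 573481) (nat_lit 13) (.e (nat_lit 65604) (nat_lit 9) (.e (nat_lit 336013) (nat_lit 2) (.e (nat_lit 90170) (nat_lit 13) (.e (nat_lit 172049) (nat_lit 0) .nil)))))))) (.g (nat_lit 1) (.e (nat_lit 88301) (nat_lit 0) .nil) .nil))))) 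
(.nd (nat_lit 8) (.nd (nat_lit 9) 
(.lf (nat_lit 471289) (.g (nat_lit 2111) (.e (nat_lit 3402) (nat_lit 211) (.e (nat_lit 647183) (nat_lit 4) (.e (nat_lit 172079) (nat_lit 7) (.e (nat_lit 409618) (nat_lit 10) (.e (nat_lit 5362) (nat_lit 298) (.e (nat_lit 463) (nat_lit 34) (.e (nat_lit 442396) (nat_lit 20) .nil))))))) (.g (nat_lit 1) (.e (nat_lit 87199) (nat_lit 0) .nil) .nil))) 
(.lf (nat_lit 471801) (.g (nat_lit 2138) (.e (nat_lit 3408) (nat_lit 212) (.e (nat_lit 655378) (nat_lit 4) (.e (nat_lit 172115) (nat_lit 10) (.e (nat_lit 434272) (nat_lit 38) (.e (nat_lit 655380) (nat_lit 6) (.e (nat_lit 188438) (nat_lit 20) .nil)))))) (.g (nat_lit 1) (.e (nat_lit 88106) (nat_lit 0) .nil) .nil)))) (.nd (nat_lit 9) 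
(.lf (nat_lit 471545) (.g (nat_lit 434) (.e (nat_lit 3407) (nat_lit 212) (.e (nat_lit 655364) (nat_lit 0) (.e (nat_lit 3004) (nat_lit 186) .nil))) (.g (nat_lit 0) (.e (nat_lit 87671) (nat_lit 0) .nil) .nil))) 
(.lf (nat_lit 472057) (.g (nat_lit 1685) (.e (nat_lit 3409) (nat_lit 212) (.e (nat_lit 655378) (nat_lit 4) (.e (nat_lit 172124) (nat_lit 14) (.e (nat_lit 491550) (nat_lit 9) (.e (nat_lit 336430) (nat_lit 29) .nil))))) (.g (nat_lit 0) (.e (nat_lit 88475) (nat_lit 0) .nil) .nil)))))))))) 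
(.nd (nat_lit 3) (.nd (nat_lit 4) (.nd (nat_lit 5) (.nd (nat_lit 6) (.nd (nat_lit 7) 
(.nd (nat_lit 8) (.nd (nat_lit 9) 
(.lf (nat_lit 471045) (.g (nat_lit 2868) (.e (nat_lit 3399) (nat_lit 211) (.e (nat_lit 647181) (nat_lit 3) (.e (nat_lit 163979) (nat_lit 30) (.e (nat_lit 573491) (nat_lit 15) (.e (nat_lit 81954) (nat_lit 23) (.e (nat_lit 98359) (nat_lit 26) (.e (nat_lit 426023) (nat_lit 0) .nil))))))) (.g (nat_lit 1) (.e (nat_lit 86731) (nat_lit 0) .nil) .nil))) 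
(.lf (nat_lit 471557) (.g (nat_lit 3993) (.e (nat_lit 3407) (nat_lit 212) (.e (nat_lit 655375) (nat_lit 3) (.e (nat_lit 163977) (nat_lit 30) (.e (nat_lit 573493) (nat_lit 15) (.e (nat_lit 81956) (nat_lit 23) (.e (nat_lit 98359) (nat_lit 26) (.e (nat_lit 426043) (nat_lit 0) .nil))))))) (.g (nat_lit 1) (.e (nat_lit 87697) (nat_lit 0) .nil) .nil)))) (.nd (nat_lit 9) 
(.lf (nat_lit 471301) (.g (nat_lit 1568) (.e (nat_lit 3402) (nat_lit 211) (.e (nat_lit 647183) (nat_lit 4) (.e (nat_lit 172081) (nat_lit 7) (.e (nat_lit 409642) (nat_lit 17) (.e (nat_lit 294974) (nat_lit 29) (.e (nat_lit 442396) (nat_lit 20) .nil)))))) (.g (nat_lit 1) (.e (nat_lit 87211) (nat_lit 0) .nil) .nil))) 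
(.lf (nat_lit 471813) (.g (nat_lit 1582) (.e (nat_lit 3408) (nat_lit 212) (.e (nat_lit 655378) (nat_lit 4) (.e (nat_lit 172118) (nat_lit 12) (.e (nat_lit 475197) (nat_lit 40) (.e (nat_lit 704598) (nat_lit 6) (.e (nat_lit 188434) (nat_lit 20) .nil)))))) (.g (nat_lit 1) (.e (nat_lit 88118) (nat_lit 0) .nil) .nil))))) (.nd (nat_lit 8) (.nd (nat_lit 9) 
(.lf (nat_lit 471173) (.g (nat_lit 3129) (.e (nat_lit 3401) (nat_lit 211) (.e (nat_lit 647181) (nat_lit 3) (.e (nat_lit 163977) (nat_lit 30) (.e (nat_lit 573482) (nat_lit 13) (.e (nat_lit 65604) (nat_lit 9) (.e (nat_lit 336028) (nat_lit 3) (.e (nat_lit 98359) (nat_lit 26) (.e (nat_lit 426022) (nat_lit 0) .nil)))))))) (.g (nat_lit 1) (.e (nat_lit 86968) (nat_lit 0) .nil) .nil))) 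
(.lf (nat_lit 471685) (.g (nat_lit 3655) (.e (nat_lit 3408) (nat_lit 212) (.e (nat_lit 655375) (nat_lit 3) (.e (nat_lit 163977) (nat_lit 30) (.e (nat_lit 573491) (nat_lit 15) (.e (nat_lit 81951) (nat_lit 22) (.e (nat_lit 90170) (nat_lit 13) (.e (nat_lit 172049) (nat_lit 0) .nil))))))) (.g (nat_lit 1) (.e (nat_lit 87931) (nat_lit 0) .nil) .nil)))) (.nd (nat_lit 9) 
(.lf (nat_lit 471429) (.g (nat_lit 3035) (.e (nat_lit 3406) (nat_lit 212) (.e (nat_lit 655375) (nat_lit 3) (.e (nat_lit 163979) (nat_lit 30) (.e (nat_lit 573492) (nat_lit 15) (.e (nat_lit 81956) (nat_lit 23) (.e (nat_lit 98355) (nat_lit 26) (.e (nat_lit 426093) (nat_lit 0) .nil))))))) (.g (nat_lit 1) (.e (nat_lit 87465) (nat_lit 0) .nil) .nil))) 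
(.lf (nat_lit 471941) (.g (nat_lit 2020) (.e (nat_lit 3409) (nat_lit 212) (.e (nat_lit 655375) (nat_lit 3) (.e (nat_lit 163978) (nat_lit 30) (.e (nat_lit 573484) (nat_lit 13) (.e (nat_lit 65610) (nat_lit 10) (.e (nat_lit 344117) (nat_lit 21) (.e (nat_lit 516151) (nat_lit 9) (.e (nat_lit 426003) (nat_lit 0) .nil)))))))) (.g (nat_lit 1) (.e (nat_lit 88313) (nat_lit 0) .nil) .nil)))))) 
(.nd (nat_lit 7) (.nd (nat_lit 8) (.nd (nat_lit 9) 
(.lf (nat_lit 471109) (.g (nat_lit 2430) (.e (nat_lit 3399) (nat_lit 211) (.e (nat_lit 647183) (nat_lit 4) (.e (nat_lit 172124) (nat_lit 14) (.e (nat_lit 491570) (nat_lit 13) (.e (nat_lit 393275) (nat_lit 23) (.e (nat_lit 426025) (nat_lit 0) .nil)))))) (.g (nat_lit 1) (.e (nat_lit 86803) (nat_lit 0) .nil) .nil))) 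
(.lf (nat_lit 471621) (.g (nat_lit 437) (.e (nat_lit 3407) (nat_lit 212) (.e (nat_lit 655378) (nat_lit 4) (.e (nat_lit 172118) (nat_lit 12) .nil))) (.g (nat_lit 0) (.e (nat_lit 87801) (nat_lit 0) .nil) .nil)))) (.nd (nat_lit 9) 
(.lf (nat_lit 471365) (.g (nat_lit 1730) (.e (nat_lit 3402) (nat_lit 211) (.e (nat_lit 647183) (nat_lit 4) (.e (nat_lit 172124) (nat_lit 14) (.e (nat_lit 491556) (nat_lit 9) (.e (nat_lit 336429) (nat_lit 29) .nil))))) (.g (nat_lit 0) (.e (nat_lit 87290) (nat_lit 0) .nil) .nil))) 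
(.lf (nat_lit 471877) (.g (nat_lit 1271) (.e (nat_lit 3408) (nat_lit 212) (.e (nat_lit 655380) (nat_lit 6) (.e (nat_lit 188439) (nat_lit 20) (.e (nat_lit 3409) (nat_lit 212) (.e (nat_lit 655380) (nat_lit 6) (.e (nat_lit 188438) (nat_lit 20) .nil)))))) (.g (nat_lit 1) (.e (nat_lit 88205) (nat_lit 0) .nil) .nil))))) (.nd (nat_lit 8) (.nd (nat_lit 9) 
(.lf (nat_lit 471237) (.g (nat_lit 328) (.e (nat_lit 3401) (nat_lit 211) (.e (nat_lit 647185) (nat_lit 6) (.e (nat_lit 188417) (nat_lit 0) .nil))) (.g (nat_lit 0) (.e (nat_lit 87107) (nat_lit 0) .nil) .nil))) 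
(.lf (nat_lit 471749) (.g (nat_lit 1491) (.e (nat_lit 3408) (nat_lit 212) (.e (nat_lit 655378) (nat_lit 4) (.e (nat_lit 172089) (nat_lit 9) (.e (nat_lit 426025) (nat_lit 0) (.e (nat_lit 3397) (nat_lit 211) .nil))))) (.g (nat_lit 0) (.e (nat_lit 88044) (nat_lit 0) .nil) .nil)))) (.nd (nat_lit 9) 
(.lf (nat_lit 471493) (.g (nat_lit 2796) (.e (nat_lit 3406) (nat_lit 212) (.e (nat_lit 655378) (nat_lit 4) (.e (nat_lit 172120) (nat_lit 12) (.e (nat_lit 475198) (nat_lit 40) (.e (nat_lit 704598) (nat_lit 6) (.e (nat_lit 188434) (nat_lit 20) .nil)))))) (.g (nat_lit 1) (.e (nat_lit 87575) (nat_lit 0) .nil) .nil))) 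
(.lf (nat_lit 472005) (.g (nat_lit 2019) (.e (nat_lit 3409) (nat_lit 212) (.e (nat_lit 655378) (nat_lit 4) (.e (nat_lit 172094) (nat_lit 9) (.e (nat_lit 426025) (nat_lit 0) (.e (nat_lit 3399) (nat_lit 211) (.e (nat_lit 647185) (nat_lit 6) (.e (nat_lit 188439) (nat_lit 20) .nil))))))) (.g (nat_lit 1) (.e (nat_lit 88418) (nat_lit 0) .nil) .nil))))))) 
(.nd (nat_lit 6) (.nd (nat_lit 7) (.nd (nat_lit 8) (.nd (nat_lit 9) 
(.lf (nat_lit 471077) (.g (nat_lit 2068) (.e (nat_lit 3399) (nat_lit 211) (.e (nat_lit 647183) (nat_lit 4) (.e (nat_lit 172107) (nat_lit 10) (.e (nat_lit 434271) (nat_lit 38) (.e (nat_lit 655380) (nat_lit 6) (.e (nat_lit 188431) (nat_lit 20) .nil)))))) (.g (nat_lit 1) (.e (nat_lit 86769) (nat_lit 0) .nil) .nil))) 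
(.lf (nat_lit 471589) (.g (nat_lit 1354) (.e (nat_lit 3407) (nat_lit 212) (.e (nat_lit 655376) (nat_lit 4) (.e (nat_lit 172120) (nat_lit 12) (.e (nat_lit 475197) (nat_lit 40) (.e (nat_lit 704598) (nat_lit 6) .nil))))) (.g (nat_lit 0) (.e (nat_lit 87739) (nat_lit 0) .nil) .nil)))) (.nd (nat_lit 9) 
(.lf (nat_lit 471333) (.g (nat_lit 2095) (.e (nat_lit 3402) (nat_lit 211) (.e (nat_lit 647183) (nat_lit 4) (.e (nat_lit 172113) (nat_lit 10) (.e (nat_lit 434271) (nat_lit 38) (.e (nat_lit 655380) (nat_lit 6) (.e (nat_lit 188430) (nat_lit 20) .nil)))))) (.g (nat_lit 1) (.e (nat_lit 87256) (nat_lit 0) .nil) .nil))) 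
(.lf (nat_lit 471845) (.g (nat_lit 2831) (.e (nat_lit 3408) (nat_lit 212) (.e (nat_lit 655378) (nat_lit 4) (.e (nat_lit 172125) (nat_lit 14) (.e (nat_lit 491549) (nat_lit 9) (.e (nat_lit 336430) (nat_lit 29) (.e (nat_lit 442402) (nat_lit 20) .nil)))))) (.g (nat_lit 1) (.e (nat_lit 88158) (nat_lit 0) .nil) .nil))))) (.nd (nat_lit 8) (.nd (nat_lit 9) 
(.lf (nat_lit 471205) (.g (nat_lit 1439) (.e (nat_lit 3401) (nat_lit 211) (.e (nat_lit 647183) (nat_lit 4) (.e (nat_lit 172097) (nat_lit 9) (.e (nat_lit 426025) (nat_lit 0) (.e (nat_lit 3397) (nat_lit 211) .nil))))) (.g (nat_lit 0) (.e (nat_lit 87026) (nat_lit 0) .nil) .nil))) 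
(.lf (nat_lit 471717) (.g (nat_lit 4082) (.e (nat_lit 3408) (nat_lit 212) (.e (nat_lit 655375) (nat_lit 3) (.e (nat_lit 163978) (nat_lit 30) (.e (nat_lit 573493) (nat_lit 15) (.e (nat_lit 81953) (nat_lit 22) (.e (nat_lit 90170) (nat_lit 13) (.e (nat_lit 172049) (nat_lit 0) .nil))))))) (.g (nat_lit 1) (.e (nat_lit 87964) (nat_lit 0) .nil) .nil)))) (.nd (nat_lit 9) 
(.lf (nat_lit 471461) (.g (nat_lit 1873) (.e (nat_lit 3406) (nat_lit 212) (.e (nat_lit 655378) (nat_lit 4) (.e (nat_lit 172112) (nat_lit 10) (.e (nat_lit 434272) (nat_lit 38) (.e (nat_lit 655380) (nat_lit 6) (.e (nat_lit 188439) (nat_lit 20) .nil)))))) (.g (nat_lit 1) (.e (nat_lit 87539) (nat_lit 0) .nil) .nil))) 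
(.lf (nat_lit 471973) (.g (nat_lit 4517) (.e (nat_lit 3409) (nat_lit 212) (.e (nat_lit 655375) (nat_lit 3) (.e (nat_lit 163979) (nat_lit 30) (.e (nat_lit 573492) (nat_lit 15) (.e (nat_lit 81956) (nat_lit 23) (.e (nat_lit 98360) (nat_lit 26) (.e (nat_lit 426042) (nat_lit 0) .nil))))))) (.g (nat_lit 1) (.e (nat_lit 88372) (nat_lit 0) .nil) .nil)))))) 
(.nd (nat_lit 7) (.nd (nat_lit 8) (.nd (nat_lit 9) 
(.lf (nat_lit 471141) (.g (nat_lit 1251) (.e (nat_lit 3399) (nat_lit 211) (.e (nat_lit 647185) (nat_lit 6) (.e (nat_lit 188417) (nat_lit 0) (.e (nat_lit 2147) (nat_lit 142) (.e (nat_lit 704597) (nat_lit 6) (.e (nat_lit 188431) (nat_lit 20) .nil)))))) (.g (nat_lit 1) (.e (nat_lit 86850) (nat_lit 0) .nil) .nil))) 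
(.lf (nat_lit 471653) (.g (nat_lit 1240) (.e (nat_lit 3407) (nat_lit 212) (.e (nat_lit 655380) (nat_lit 6) (.e (nat_lit 188439) (nat_lit 20) (.e (nat_lit 3406) (nat_lit 212) (.e (nat_lit 655380) (nat_lit 6) (.e (nat_lit 188439) (nat_lit 20) .nil)))))) (.g (nat_lit 1) (.e (nat_lit 87855) (nat_lit 0) .nil) .nil)))) (.nd (nat_lit 9) 
(.lf (nat_lit 471397) (.g (nat_lit 2819) (.e (nat_lit 3406) (nat_lit 212) (.e (nat_lit 655373) (nat_lit 3) (.e (nat_lit 163978) (nat_lit 30) (.e (nat_lit 573479) (nat_lit 13) (.e (nat_lit 65619) (nat_lit 10) (.e (nat_lit 344117) (nat_lit 21) (.e (nat_lit 516151) (nat_lit 9) (.e (nat_lit 426042) (nat_lit 0) .nil)))))))) (.g (nat_lit 1) (.e (nat_lit 87425) (nat_lit 0) .nil) .nil))) 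
(.lf (nat_lit 471909) (.g (nat_lit 2113) (.e (nat_lit 3409) (nat_lit 212) (.e (nat_lit 655375) (nat_lit 3) (.e (nat_lit 163977) (nat_lit 30) (.e (nat_lit 573481) (nat_lit 13) (.e (nat_lit 65604) (nat_lit 9) (.e (nat_lit 336013) (nat_lit 2) (.e (nat_lit 90170) (nat_lit 13) (.e (nat_lit 172042) (nat_lit 0) .nil)))))))) (.g (nat_lit 1) (.e (nat_lit 88281) (nat_lit 0) .nil) .nil))))) 
(.nd (nat_lit 8) (.nd (nat_lit 9) 
(.lf (nat_lit 471269) (.g (nat_lit 4192) (.e (nat_lit 3402) (nat_lit 211) (.e (nat_lit 647181) (nat_lit 3) (.e (nat_lit 163977) (nat_lit 30) (.e (nat_lit 573485) (nat_lit 13) (.e (nat_lit 65619) (nat_lit 10) (.e (nat_lit 344117) (nat_lit 21) (.e (nat_lit 516151) (nat_lit 9) (.e (nat_lit 426023) (nat_lit 0) .nil)))))))) (.g (nat_lit 1) (.e (nat_lit 87164) (nat_lit 0) .nil) .nil))) 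
(.lf (nat_lit 471781) (.g (nat_lit 1920) (.e (nat_lit 3408) (nat_lit 212) (.e (nat_lit 655378) (nat_lit 4) (.e (nat_lit 172112) (nat_lit 10) (.e (nat_lit 434272) (nat_lit 38) (.e (nat_lit 655380) (nat_lit 6) (.e (nat_lit 188435) (nat_lit 20) .nil)))))) (.g (nat_lit 1) (.e (nat_lit 88084) (nat_lit 0) .nil) .nil)))) (.nd (nat_lit 9) 
(.lf (nat_lit 471525) (.g (nat_lit 1531) (.e (nat_lit 3406) (nat_lit 212) (.e (nat_lit 655380) (nat_lit 6) (.e (nat_lit 188438) (nat_lit 20) (.e (nat_lit 3409) (nat_lit 212) (.e (nat_lit 655380) (nat_lit 6) (.e (nat_lit 188434) (nat_lit 20) .nil)))))) (.g (nat_lit 1) (.e (nat_lit 87633) (nat_lit 0) .nil) .nil))) 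
(.lf (nat_lit 472037) (.g (nat_lit 2515) (.e (nat_lit 3409) (nat_lit 212) (.e (nat_lit 655378) (nat_lit 4) (.e (nat_lit 172115) (nat_lit 10) (.e (nat_lit 434271) (nat_lit 38) (.e (nat_lit 655380) (nat_lit 6) (.e (nat_lit 188440) (nat_lit 20) .nil)))))) (.g (nat_lit 1) (.e (nat_lit 88454) (nat_lit 0) .nil) .nil)))))))) 
(.nd (nat_lit 5) (.nd (nat_lit 6) (.nd (nat_lit 7) (.nd (nat_lit 8) (.nd (nat_lit 9) 
(.lf (nat_lit 471061) (.g (nat_lit 1831) (.e (nat_lit 3399) (nat_lit 211) (.e (nat_lit 647183) (nat_lit 4) (.e (nat_lit 172080) (nat_lit 7) (.e (nat_lit 409642) (nat_lit 17) (.e (nat_lit 294974) (nat_lit 29) (.e (nat_lit 442399) (nat_lit 20) .nil)))))) (.g (nat_lit 1) (.e (nat_lit 86753) (nat_lit 0) .nil) .nil))) 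
(.lf (nat_lit 471573) (.g (nat_lit 4030) (.e (nat_lit 3407) (nat_lit 212) (.e (nat_lit 655375) (nat_lit 3) (.e (nat_lit 163978) (nat_lit 30) (.e (nat_lit 573491) (nat_lit 15) (.e (nat_lit 81951) (nat_lit 22) (.e (nat_lit 90170) (nat_lit 13) (.e (nat_lit 172049) (nat_lit 0) .nil))))))) (.g (nat_lit 1) (.e (nat_lit 87713) (nat_lit 0) .nil) .nil)))) (.nd (nat_lit 9) 
(.lf (nat_lit 471317) (.g (nat_lit 1722) (.e (nat_lit 3402) (nat_lit 211) (.e (nat_lit 647183) (nat_lit 4) (.e (nat_lit 172106) (nat_lit 10) (.e (nat_lit 434209) (nat_lit 18) (.e (nat_lit 5548) (nat_lit 306) .nil))))) (.g (nat_lit 0) (.e (nat_lit 87237) (nat_lit 0) .nil) .nil))) 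
(.lf (nat_lit 471829) (.g (nat_lit 2378) (.e (nat_lit 3408) (nat_lit 212) (.e (nat_lit 655378) (nat_lit 4) (.e (nat_lit 172120) (nat_lit 12) (.e (nat_lit 475197) (nat_lit 40) (.e (nat_lit 704598) (nat_lit 6) (.e (nat_lit 188435) (nat_lit 20) .nil)))))) (.g (nat_lit 1) (.e (nat_lit 88137) (nat_lit 0) .nil) .nil))))) (.nd (nat_lit 8) (.nd (nat_lit 9) 
(.lf (nat_lit 471189) (.g (nat_lit 2982) (.e (nat_lit 3401) (nat_lit 211) (.e (nat_lit 647181) (nat_lit 3) (.e (nat_lit 163978) (nat_lit 30) (.e (nat_lit 573479) (nat_lit 13) (.e (nat_lit 65604) (nat_lit 9) (.e (nat_lit 336028) (nat_lit 3) (.e (nat_lit 98359) (nat_lit 26) (.e (nat_lit 426023) (nat_lit 0) .nil)))))))) (.g (nat_lit 1) (.e (nat_lit 86984) (nat_lit 0) .nil) .nil))) 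
(.lf (nat_lit 471701) (.g (nat_lit 4853) (.e (nat_lit 3408) (nat_lit 212) (.e (nat_lit 655375) (nat_lit 3) (.e (nat_lit 163978) (nat_lit 30) (.e (nat_lit 573485) (nat_lit 13) (.e (nat_lit 65604) (nat_lit 9) (.e (nat_lit 336013) (nat_lit 2) (.e (nat_lit 90170) (nat_lit 13) (.e (nat_lit 172042) (nat_lit 0) .nil)))))))) (.g (nat_lit 1) (.e (nat_lit 87947) (nat_lit 0) .nil) .nil)))) (.nd (nat_lit 9) 
(.lf (nat_lit 471445) (.g (nat_lit 1830) (.e (nat_lit 3406) (nat_lit 212) (.e (nat_lit 655378) (nat_lit 4) (.e (nat_lit 172094) (nat_lit 9) (.e (nat_lit 426025) (nat_lit 0) (.e (nat_lit 3397) (nat_lit 211) (.e (nat_lit 647185) (nat_lit 6) (.e (nat_lit 188439) (nat_lit 20) .nil))))))) (.g (nat_lit 1) (.e (nat_lit 87513) (nat_lit 0) .nil) .nil))) 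
(.lf (nat_lit 471957) (.g (nat_lit 1186) (.e (nat_lit 3409) (nat_lit 212) (.e (nat_lit 655375) (nat_lit 3) (.e (nat_lit 163978) (nat_lit 30) (.e (nat_lit 573493) (nat_lit 15) .nil)))) (.g (nat_lit 0) (.e (nat_lit 88335) (nat_lit 0) .nil) .nil)))))) (.nd (nat_lit 7) (.nd (nat_lit 8) (.nd (nat_lit 9) 
(.lf (nat_lit 471125) (.g (nat_lit 2705) (.e (nat_lit 3399) (nat_lit 211) (.e (nat_lit 647183) (nat_lit 4) (.e (nat_lit 172126) (nat_lit 14) (.e (nat_lit 491549) (nat_lit 9) (.e (nat_lit 336400) (nat_lit 27) .nil))))) (.g (nat_lit 0) (.e (nat_lit 86819) (nat_lit 0) .nil) .nil))) 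
(.lf (nat_lit 471637) (.g (nat_lit 963) (.e (nat_lit 3407) (nat_lit 212) (.e (nat_lit 655380) (nat_lit 6) (.e (nat_lit 188420) (nat_lit 0) (.e (nat_lit 2057) (nat_lit 142) (.e (nat_lit 704598) (nat_lit 6) (.e (nat_lit 188439) (nat_lit 20) .nil)))))) (.g (nat_lit 1) (.e (nat_lit 87835) (nat_lit 0) .nil) .nil)))) (.nd (nat_lit 9) 
(.lf (nat_lit 471381) (.g (nat_lit 4526) (.e (nat_lit 3403) (nat_lit 212) (.e (nat_lit 655375) (nat_lit 3) (.e (nat_lit 163979) (nat_lit 30) (.e (nat_lit 573492) (nat_lit 15) (.e (nat_lit 81956) (nat_lit 23) (.e (nat_lit 98356) (nat_lit 26) (.e (nat_lit 425996) (nat_lit 0) .nil))))))) (.g (nat_lit 1) (.e (nat_lit 87353) (nat_lit 0) .nil) .nil))) 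
(.lf (nat_lit 471893) (.g (nat_lit 2391) (.e (nat_lit 3408) (nat_lit 212) (.e (nat_lit 655380) (nat_lit 6) (.e (nat_lit 188453) (nat_lit 24) (.e (nat_lit 229666) (nat_lit 240) (.e (nat_lit 2653) (nat_lit 166) (.e (nat_lit 188441) (nat_lit 20) .nil)))))) (.g (nat_lit 1) (.e (nat_lit 88227) (nat_lit 0) .nil) .nil))))) (.nd (nat_lit 8) (.nd (nat_lit 9) 
(.lf (nat_lit 471253) (.g (nat_lit 2576) (.e (nat_lit 3402) (nat_lit 211) (.e (nat_lit 647180) (nat_lit 3) (.e (nat_lit 163978) (nat_lit 30) (.e (nat_lit 573479) (nat_lit 13) (.e (nat_lit 65619) (nat_lit 10) (.e (nat_lit 344117) (nat_lit 21) (.e (nat_lit 516151) (nat_lit 9) (.e (nat_lit 426023) (nat_lit 0) .nil)))))))) (.g (nat_lit 1) (.e (nat_lit 87148) (nat_lit 0) .nil) .nil))) 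
(.lf (nat_lit 471765) (.g (nat_lit 2759) (.e (nat_lit 3408) (nat_lit 212) (.e (nat_lit 655378) (nat_lit 4) (.e (nat_lit 172106) (nat_lit 10) (.e (nat_lit 434272) (nat_lit 38) (.e (nat_lit 655380) (nat_lit 6) (.e (nat_lit 188434) (nat_lit 20) .nil)))))) (.g (nat_lit 1) (.e (nat_lit 88068) (nat_lit 0) .nil) .nil)))) (.nd (nat_lit 9) 
(.lf (nat_lit 471509) (.g (nat_lit 1504) (.e (nat_lit 3406) (nat_lit 212) (.e (nat_lit 655380) (nat_lit 6) (.e (nat_lit 188418) (nat_lit 0) (.e (nat_lit 2059) (nat_lit 142) (.e (nat_lit 704598) (nat_lit 6) (.e (nat_lit 188439) (nat_lit 20) .nil)))))) (.g (nat_lit 1) (.e (nat_lit 87616) (nat_lit 0) .nil) .nil))) 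
(.lf (nat_lit 472021) (.g (nat_lit 2358) (.e (nat_lit 3409) (nat_lit 212) (.e (nat_lit 655378) (nat_lit 4) (.e (nat_lit 172107) (nat_lit 10) (.e (nat_lit 434272) (nat_lit 38) (.e (nat_lit 655380) (nat_lit 6) (.e (nat_lit 188434) (nat_lit 20) .nil)))))) (.g (nat_lit 1) (.e (nat_lit 88436) (nat_lit 0) .nil) .nil))))))) (.nd (nat_lit 6) (.nd (nat_lit 7) (.nd (nat_lit 8) (.nd (nat_lit 9) 
(.lf (nat_lit 471093) (.g (nat_lit 1249) (.e (nat_lit 3399) (nat_lit 211) (.e (nat_lit 647183) (nat_lit 4) (.e (nat_lit 172124) (nat_lit 14) (.e (nat_lit 491548) (nat_lit 9) (.e (nat_lit 336430) (nat_lit 29) (.e (nat_lit 442392) (nat_lit 20) .nil)))))) (.g (nat_lit 1) (.e (nat_lit 86787) (nat_lit 0) .nil) .nil))) 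
(.lf (nat_lit 471605) (.g (nat_lit 1881) (.e (nat_lit 3407) (nat_lit 212) (.e (nat_lit 655378) (nat_lit 4) (.e (nat_lit 172112) (nat_lit 10) (.e (nat_lit 434271) (nat_lit 38) (.e (nat_lit 655380) (nat_lit 6) (.e (nat_lit 188439) (nat_lit 20) .nil)))))) (.g (nat_lit 1) (.e (nat_lit 87784) (nat_lit 0) .nil) .nil)))) (.nd (nat_lit 9) 
(.lf (nat_lit 471349) (.g (nat_lit 1252) (.e (nat_lit 3402) (nat_lit 211) (.e (nat_lit 647183) (nat_lit 4) (.e (nat_lit 172118) (nat_lit 12) (.e (nat_lit 475197) (nat_lit 40) (.e (nat_lit 712448) (nat_lit 6) .nil))))) (.g (nat_lit 0) (.e (nat_lit 87274) (nat_lit 0) .nil) .nil))) 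
(.lf (nat_lit 471861) (.g (nat_lit 2099) (.e (nat_lit 3408) (nat_lit 212) (.e (nat_lit 655380) (nat_lit 6) (.e (nat_lit 188420) (nat_lit 0) (.e (nat_lit 2059) (nat_lit 142) (.e (nat_lit 704599) (nat_lit 6) (.e (nat_lit 188440) (nat_lit 20) .nil)))))) (.g (nat_lit 1) (.e (nat_lit 88189) (nat_lit 0) .nil) .nil))))) (.nd (nat_lit 8) (.nd (nat_lit 9) 
(.lf (nat_lit 471221) (.g (nat_lit 1587) (.e (nat_lit 3401) (nat_lit 211) (.e (nat_lit 647183) (nat_lit 4) (.e (nat_lit 172116) (nat_lit 10) (.e (nat_lit 434272) (nat_lit 38) (.e (nat_lit 655380) (nat_lit 6) (.e (nat_lit 188428) (nat_lit 20) .nil)))))) (.g (nat_lit 1) (.e (nat_lit 87064) (nat_lit 0) .nil) .nil))) 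
(.lf (nat_lit 471733) (.g (nat_lit 3641) (.e (nat_lit 3408) (nat_lit 212) (.e (nat_lit 655375) (nat_lit 3) (.e (nat_lit 163979) (nat_lit 30) (.e (nat_lit 573492) (nat_lit 15) (.e (nat_lit 81956) (nat_lit 23) (.e (nat_lit 98360) (nat_lit 26) (.e (nat_lit 426036) (nat_lit 0) .nil))))))) (.g (nat_lit 1) (.e (nat_lit 87992) (nat_lit 0) .nil) .nil)))) (.nd (nat_lit 9) 
(.lf (nat_lit 471477) (.g (nat_lit 2082) (.e (nat_lit 3406) (nat_lit 212) (.e (nat_lit 655378) (nat_lit 4) (.e (nat_lit 172116) (nat_lit 10) (.e (nat_lit 434271) (nat_lit 38) (.e (nat_lit 655380) (nat_lit 6) (.e (nat_lit 188434) (nat_lit 20) .nil)))))) (.g (nat_lit 1) (.e (nat_lit 87556) (nat_lit 0) .nil) .nil))) 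
(.lf (nat_lit 471989) (.g (nat_lit 2257) (.e (nat_lit 3409) (nat_lit 212) (.e (nat_lit 655378) (nat_lit 4) (.e (nat_lit 172038) (nat_lit 0) (.e (nat_lit 6989) (nat_lit 377) (.e (nat_lit 2777) (nat_lit 178) (.e (nat_lit 286771) (nat_lit 29) (.e (nat_lit 442409) (nat_lit 20) .nil))))))) (.g (nat_lit 1) (.e (nat_lit 88400) (nat_lit 0) .nil) .nil)))))) 
(.nd (nat_lit 7) (.nd (nat_lit 8) (.nd (nat_lit 9) 
(.lf (nat_lit 471157) (.g (nat_lit 1406) (.e (nat_lit 3399) (nat_lit 211) (.e (nat_lit 647185) (nat_lit 6) (.e (nat_lit 188441) (nat_lit 20) (.e (nat_lit 3406) (nat_lit 212) (.e (nat_lit 655380) (nat_lit 6) .nil))))) (.g (nat_lit 0) (.e (nat_lit 86868) (nat_lit 0) .nil) .nil))) 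
(.lf (nat_lit 471669) (.g (nat_lit 3157) (.e (nat_lit 3407) (nat_lit 212) (.e (nat_lit 655380) (nat_lit 6) (.e (nat_lit 188455) (nat_lit 24) (.e (nat_lit 229663) (nat_lit 240) (.e (nat_lit 2651) (nat_lit 166) (.e (nat_lit 188439) (nat_lit 20) .nil)))))) (.g (nat_lit 1) (.e (nat_lit 87878) (nat_lit 0) .nil) .nil)))) (.nd (nat_lit 9) 
(.lf (nat_lit 471413) (.g (nat_lit 4170) (.e (nat_lit 3406) (nat_lit 212) (.e (nat_lit 655375) (nat_lit 3) (.e (nat_lit 163978) (nat_lit 30) (.e (nat_lit 573482) (nat_lit 13) (.e (nat_lit 65604) (nat_lit 9) (.e (nat_lit 336013) (nat_lit 2) (.e (nat_lit 90170) (nat_lit 13) (.e (nat_lit 172049) (nat_lit 0) .nil)))))))) (.g (nat_lit 1) (.e (nat_lit 87442) (nat_lit 0) .nil) .nil))) 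
(.lf (nat_lit 471925) (.g (nat_lit 6120) (.e (nat_lit 3409) (nat_lit 212) (.e (nat_lit 655375) (nat_lit 3) (.e (nat_lit 163978) (nat_lit 30) (.e (nat_lit 573479) (nat_lit 13) (.e (nat_lit 65619) (nat_lit 10) (.e (nat_lit 344117) (nat_lit 21) (.e (nat_lit 516151) (nat_lit 9) (.e (nat_lit 426042) (nat_lit 0) .nil)))))))) (.g (nat_lit 1) (.e (nat_lit 88297) (nat_lit 0) .nil) .nil))))) 
(.nd (nat_lit 8) (.nd (nat_lit 9) 
(.lf (nat_lit 471285) (.g (nat_lit 3350) (.e (nat_lit 3402) (nat_lit 211) (.e (nat_lit 647181) (nat_lit 3) (.e (nat_lit 163979) (nat_lit 30) (.e (nat_lit 573493) (nat_lit 15) (.e (nat_lit 81953) (nat_lit 22) (.e (nat_lit 90170) (nat_lit 13) (.e (nat_lit 172039) (nat_lit 0) .nil))))))) (.g (nat_lit 1) (.e (nat_lit 87180) (nat_lit 0) .nil) .nil))) 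
(.lf (nat_lit 471797) (.g (nat_lit 2179) (.e (nat_lit 3408) (nat_lit 212) (.e (nat_lit 655378) (nat_lit 4) (.e (nat_lit 172115) (nat_lit 10) (.e (nat_lit 434271) (nat_lit 38) (.e (nat_lit 655380) (nat_lit 6) (.e (nat_lit 188438) (nat_lit 20) .nil)))))) (.g (nat_lit 1) (.e (nat_lit 88102) (nat_lit 0) .nil) .nil)))) (.nd (nat_lit 9) 
(.lf (nat_lit 471541) (.g (nat_lit 1935) (.e (nat_lit 3407) (nat_lit 212) (.e (nat_lit 655363) (nat_lit 0) (.e (nat_lit 3004) (nat_lit 186) (.e (nat_lit 442374) (nat_lit 0) (.e (nat_lit 2059) (nat_lit 142) (.e (nat_lit 704598) (nat_lit 6) (.e (nat_lit 188439) (nat_lit 20) .nil))))))) (.g (nat_lit 1) (.e (nat_lit 87654) (nat_lit 0) .nil) .nil))) 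
(.lf (nat_lit 472053) (.g (nat_lit 3199) (.e (nat_lit 3409) (nat_lit 212) (.e (nat_lit 655378) (nat_lit 4) (.e (nat_lit 172120) (nat_lit 12) (.e (nat_lit 475198) (nat_lit 40) (.e (nat_lit 704522) (nat_lit 0) (.e (nat_lit 2987) (nat_lit 186) (.e (nat_lit 442411) (nat_lit 20) .nil))))))) (.g (nat_lit 1) (.e (nat_lit 88471) (nat_lit 0) .nil) .nil))))))))) 
(.nd (nat_lit 4) (.nd (nat_lit 5) (.nd (nat_lit 6) (.nd (nat_lit 7) (.nd (nat_lit 8) 
(.nd (nat_lit 9) 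
(.lf (nat_lit 471053) (.g (nat_lit 1013) (.e (nat_lit 3399) (nat_lit 211) (.e (nat_lit 647183) (nat_lit 4) (.e (nat_lit 172038) (nat_lit 0) (.e (nat_lit 6989) (nat_lit 377) (.e (nat_lit 2779) (nat_lit 178) .nil))))) (.g (nat_lit 0) (.e (nat_lit 86745) (nat_lit 0) .nil) .nil))) 
(.lf (nat_lit 471565) (.g (nat_lit 4338) (.e (nat_lit 3407) (nat_lit 212) (.e (nat_lit 655375) (nat_lit 3) (.e (nat_lit 163978) (nat_lit 30) (.e (nat_lit 573482) (nat_lit 13) (.e (nat_lit 65604) (nat_lit 9) (.e (nat_lit 336028) (nat_lit 3) (.e (nat_lit 98359) (nat_lit 26) (.e (nat_lit 426043) (nat_lit 0) .nil)))))))) (.g (nat_lit 1) (.e (nat_lit 87705) (nat_lit 0) .nil) .nil)))) (.nd (nat_lit 9) 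
(.lf (nat_lit 471309) (.g (nat_lit 1960) (.e (nat_lit 3402) (nat_lit 211) (.e (nat_lit 647183) (nat_lit 4) (.e (nat_lit 172094) (nat_lit 9) (.e (nat_lit 426025) (nat_lit 0) (.e (nat_lit 3397) (nat_lit 211) (.e (nat_lit 647185) (nat_lit 6) (.e (nat_lit 188428) (nat_lit 20) .nil))))))) (.g (nat_lit 1) (.e (nat_lit 87220) (nat_lit 0) .nil) .nil))) 
(.lf (nat_lit 471821) (.g (nat_lit 2444) (.e (nat_lit 3408) (nat_lit 212) (.e (nat_lit 655378) (nat_lit 4) (.e (nat_lit 172118) (nat_lit 12) (.e (nat_lit 475199) (nat_lit 40) (.e (nat_lit 704598) (nat_lit 6) (.e (nat_lit 188435) (nat_lit 20) .nil)))))) (.g (nat_lit 1) (.e (nat_lit 88126) (nat_lit 0) .nil) .nil))))) (.nd (nat_lit 8) (.nd (nat_lit 9) 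
(.lf (nat_lit 471181) (.g (nat_lit 4260) (.e (nat_lit 3401) (nat_lit 211) (.e (nat_lit 647181) (nat_lit 3) (.e (nat_lit 163977) (nat_lit 30) (.e (nat_lit 573485) (nat_lit 13) (.e (nat_lit 65619) (nat_lit 10) (.e (nat_lit 344117) (nat_lit 21) (.e (nat_lit 516151) (nat_lit 9) (.e (nat_lit 426023) (nat_lit 0) .nil)))))))) (.g (nat_lit 1) (.e (nat_lit 86976) (nat_lit 0) .nil) .nil))) 
(.lf (nat_lit 471693) (.g (nat_lit 5474) (.e (nat_lit 3408) (nat_lit 212) (.e (nat_lit 655375) (nat_lit 3) (.e (nat_lit 163978) (nat_lit 30) (.e (nat_lit 573479) (nat_lit 13) (.e (nat_lit 65619) (nat_lit 10) (.e (nat_lit 344117) (nat_lit 21) (.e (nat_lit 516151) (nat_lit 9) (.e (nat_lit 426043) (nat_lit 0) .nil)))))))) (.g (nat_lit 1) (.e (nat_lit 87939) (nat_lit 0) .nil) .nil)))) 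
(.nd (nat_lit 9) 
(.lf (nat_lit 471437) (.g (nat_lit 1502) (.e (nat_lit 3406) (nat_lit 212) (.e (nat_lit 655376) (nat_lit 4) (.e (nat_lit 172119) (nat_lit 12) (.e (nat_lit 475199) (nat_lit 40) (.e (nat_lit 704598) (nat_lit 6) (.e (nat_lit 188434) (nat_lit 20) .nil)))))) (.g (nat_lit 1) (.e (nat_lit 87473) (nat_lit 0) .nil) .nil))) 
(.lf (nat_lit 471949) (.g (nat_lit 4319) (.e (nat_lit 3409) (nat_lit 212) (.e (nat_lit 655375) (nat_lit 3) (.e (nat_lit 163978) (nat_lit 30) (.e (nat_lit 573490) (nat_lit 15) (.e (nat_lit 81951) (nat_lit 22) (.e (nat_lit 90170) (nat_lit 13) (.e (nat_lit 172049) (nat_lit 0) .nil))))))) (.g (nat_lit 1) (.e (nat_lit 88323) (nat_lit 0) .nil) .nil)))))) 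
(.nd (nat_lit 7) (.nd (nat_lit 8) (.nd (nat_lit 9) 
(.lf (nat_lit 471117) (.g (nat_lit 1574) (.e (nat_lit 3399) (nat_lit 211) (.e (nat_lit 647183) (nat_lit 4) (.e (nat_lit 172126) (nat_lit 14) (.e (nat_lit 491548) (nat_lit 9) (.e (nat_lit 336430) (nat_lit 29) (.e (nat_lit 442392) (nat_lit 20) .nil)))))) (.g (nat_lit 1) (.e (nat_lit 86811) (nat_lit 0) .nil) .nil))) 
(.lf (nat_lit 471629) (.g (nat_lit 2760) (.e (nat_lit 3407) (nat_lit 212) (.e (nat_lit 655378) (nat_lit 4) (.e (nat_lit 172125) (nat_lit 14) (.e (nat_lit 491549) (nat_lit 9) (.e (nat_lit 336430) (nat_lit 29) (.e (nat_lit 442409) (nat_lit 20) .nil)))))) (.g (nat_lit 1) (.e (nat_lit 87809) (nat_lit 0) .nil) .nil)))) (.nd (nat_lit 9) 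
(.lf (nat_lit 471373) (.g (nat_lit 2717) (.e (nat_lit 3402) (nat_lit 211) (.e (nat_lit 647183) (nat_lit 4) (.e (nat_lit 172126) (nat_lit 14) (.e (nat_lit 491571) (nat_lit 13) (.e (nat_lit 393274) (nat_lit 23) (.e (nat_lit 426023) (nat_lit 0) .nil)))))) (.g (nat_lit 1) (.e (nat_lit 87298) (nat_lit 0) .nil) .nil))) 
(.lf (nat_lit 471885) (.g (nat_lit 1443) (.e (nat_lit 3408) (nat_lit 212) (.e (nat_lit 655380) (nat_lit 6) (.e (nat_lit 188440) (nat_lit 20) (.e (nat_lit 3409) (nat_lit 212) (.e (nat_lit 655380) (nat_lit 6) (.e (nat_lit 188439) (nat_lit 20) .nil)))))) (.g (nat_lit 1) (.e (nat_lit 88213) (nat_lit 0) .nil) .nil))))) (.nd (nat_lit 8) (.nd (nat_lit 9) 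
(.lf (nat_lit 471245) (.g (nat_lit 1532) (.e (nat_lit 3401) (nat_lit 211) (.e (nat_lit 647185) (nat_lit 6) (.e (nat_lit 188431) (nat_lit 20) (.e (nat_lit 3397) (nat_lit 211) (.e (nat_lit 647185) (nat_lit 6) (.e (nat_lit 188428) (nat_lit 20) .nil)))))) (.g (nat_lit 1) (.e (nat_lit 87122) (nat_lit 0) .nil) .nil))) 
(.lf (nat_lit 471757) (.g (nat_lit 2263) (.e (nat_lit 3408) (nat_lit 212) (.e (nat_lit 655378) (nat_lit 4) (.e (nat_lit 172094) (nat_lit 9) (.e (nat_lit 426025) (nat_lit 0) (.e (nat_lit 3399) (nat_lit 211) (.e (nat_lit 647185) (nat_lit 6) (.e (nat_lit 188441) (nat_lit 20) .nil))))))) (.g (nat_lit 1) (.e (nat_lit 88053) (nat_lit 0) .nil) .nil)))) (.nd (nat_lit 9) 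
(.lf (nat_lit 471501) (.g (nat_lit 2256) (.e (nat_lit 3406) (nat_lit 212) (.e (nat_lit 655378) (nat_lit 4) (.e (nat_lit 172125) (nat_lit 14) (.e (nat_lit 491550) (nat_lit 9) (.e (nat_lit 336430) (nat_lit 29) (.e (nat_lit 442409) (nat_lit 20) .nil)))))) (.g (nat_lit 1) (.e (nat_lit 87584) (nat_lit 0) .nil) .nil))) 
(.lf (nat_lit 472013) (.g (nat_lit 2047) (.e (nat_lit 3409) (nat_lit 212) (.e (nat_lit 655378) (nat_lit 4) (.e (nat_lit 172106) (nat_lit 10) (.e (nat_lit 434209) (nat_lit 18) (.e (nat_lit 5548) (nat_lit 306) (.e (nat_lit 2648) (nat_lit 166) (.e (nat_lit 188435) (nat_lit 20) .nil))))))) (.g (nat_lit 1) (.e (nat_lit 88428) (nat_lit 0) .nil) .nil))))))) 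
(.nd (nat_lit 6) (.nd (nat_lit 7) (.nd (nat_lit 8) (.nd (nat_lit 9) 
(.lf (nat_lit 471085) (.g (nat_lit 2072) (.e (nat_lit 3399) (nat_lit 211) (.e (nat_lit 647183) (nat_lit 4) (.e (nat_lit 172118) (nat_lit 12) (.e (nat_lit 475198) (nat_lit 40) (.e (nat_lit 704593) (nat_lit 4) .nil))))) (.g (nat_lit 0) (.e (nat_lit 86779) (nat_lit 0) .nil) .nil))) 
(.lf (nat_lit 471597) (.g (nat_lit 2177) (.e (nat_lit 3407) (nat_lit 212) (.e (nat_lit 655378) (nat_lit 4) (.e (nat_lit 172106) (nat_lit 10) (.e (nat_lit 434271) (nat_lit 38) (.e (nat_lit 655380) (nat_lit 6) (.e (nat_lit 188438) (nat_lit 20) .nil)))))) (.g (nat_lit 1) (.e (nat_lit 87776) (nat_lit 0) .nil) .nil)))) (.nd (nat_lit 9) 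
(.lf (nat_lit 471341) (.g (nat_lit 1944) (.e (nat_lit 3402) (nat_lit 211) (.e (nat_lit 647183) (nat_lit 4) (.e (nat_lit 172115) (nat_lit 10) (.e (nat_lit 434271) (nat_lit 38) (.e (nat_lit 655380) (nat_lit 6) (.e (nat_lit 188430) (nat_lit 20) .nil)))))) (.g (nat_lit 1) (.e (nat_lit 87266) (nat_lit 0) .nil) .nil))) 
(.lf (nat_lit 471853) (.g (nat_lit 1509) (.e (nat_lit 3408) (nat_lit 212) (.e (nat_lit 655380) (nat_lit 6) (.e (nat_lit 188418) (nat_lit 0) (.e (nat_lit 2058) (nat_lit 142) (.e (nat_lit 704598) (nat_lit 6) (.e (nat_lit 188435) (nat_lit 20) .nil)))))) (.g (nat_lit 1) (.e (nat_lit 88181) (nat_lit 0) .nil) .nil))))) (.nd (nat_lit 8) (.nd (nat_lit 9) 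
(.lf (nat_lit 471213) (.g (nat_lit 1808) (.e (nat_lit 3401) (nat_lit 211) (.e (nat_lit 647183) (nat_lit 4) (.e (nat_lit 172112) (nat_lit 10) (.e (nat_lit 434272) (nat_lit 38) (.e (nat_lit 655380) (nat_lit 6) (.e (nat_lit 188427) (nat_lit 20) .nil)))))) (.g (nat_lit 1) (.e (nat_lit 87047) (nat_lit 0) .nil) .nil))) 
(.lf (nat_lit 471725) (.g (nat_lit 4042) (.e (nat_lit 3408) (nat_lit 212) (.e (nat_lit 655375) (nat_lit 3) (.e (nat_lit 163979) (nat_lit 30) (.e (nat_lit 573491) (nat_lit 15) (.e (nat_lit 81951) (nat_lit 22) (.e (nat_lit 90170) (nat_lit 13) (.e (nat_lit 172042) (nat_lit 0) .nil))))))) (.g (nat_lit 1) (.e (nat_lit 87984) (nat_lit 0) .nil) .nil)))) (.nd (nat_lit 9) 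
(.lf (nat_lit 471469) (.g (nat_lit 1687) (.e (nat_lit 3406) (nat_lit 212) (.e (nat_lit 655378) (nat_lit 4) (.e (nat_lit 172115) (nat_lit 10) (.e (nat_lit 434271) (nat_lit 38) (.e (nat_lit 655380) (nat_lit 6) (.e (nat_lit 188424) (nat_lit 20) .nil)))))) (.g (nat_lit 1) (.e (nat_lit 87548) (nat_lit 0) .nil) .nil))) 
(.lf (nat_lit 471981) (.g (nat_lit 1539) (.e (nat_lit 3409) (nat_lit 212) (.e (nat_lit 655376) (nat_lit 4) (.e (nat_lit 172115) (nat_lit 10) (.e (nat_lit 434272) (nat_lit 38) (.e (nat_lit 655380) (nat_lit 6) (.e (nat_lit 188441) (nat_lit 20) .nil)))))) (.g (nat_lit 1) (.e (nat_lit 88380) (nat_lit 0) .nil) .nil)))))) (.nd (nat_lit 7) (.nd (nat_lit 8) (.nd (nat_lit 9) 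
(.lf (nat_lit 471149) (.g (nat_lit 1922) (.e (nat_lit 3399) (nat_lit 211) (.e (nat_lit 647185) (nat_lit 6) (.e (nat_lit 188431) (nat_lit 20) (.e (nat_lit 3402) (nat_lit 211) (.e (nat_lit 647185) (nat_lit 6) (.e (nat_lit 188431) (nat_lit 20) .nil)))))) (.g (nat_lit 1) (.e (nat_lit 86860) (nat_lit 0) .nil) .nil))) 
(.lf (nat_lit 471661) (.g (nat_lit 1432) (.e (nat_lit 3407) (nat_lit 212) (.e (nat_lit 655380) (nat_lit 6) (.e (nat_lit 188440) (nat_lit 20) (.e (nat_lit 3409) (nat_lit 212) (.e (nat_lit 655380) (nat_lit 6) (.e (nat_lit 188439) (nat_lit 20) .nil)))))) (.g (nat_lit 1) (.e (nat_lit 87863) (nat_lit 0) .nil) .nil)))) (.nd (nat_lit 9) 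
(.lf (nat_lit 471405) (.g (nat_lit 5121) (.e (nat_lit 3406) (nat_lit 212) (.e (nat_lit 655375) (nat_lit 3) (.e (nat_lit 163978) (nat_lit 30) (.e (nat_lit 573479) (nat_lit 13) (.e (nat_lit 65619) (nat_lit 10) (.e (nat_lit 344117) (nat_lit 21) (.e (nat_lit 516151) (nat_lit 9) (.e (nat_lit 426043) (nat_lit 0) .nil)))))))) (.g (nat_lit 1) (.e (nat_lit 87434) (nat_lit 0) .nil) .nil))) 
(.lf (nat_lit 471917) (.g (nat_lit 5029) (.e (nat_lit 3409) (nat_lit 212) (.e (nat_lit 655375) (nat_lit 3) (.e (nat_lit 163978) (nat_lit 30) (.e (nat_lit 573479) (nat_lit 13) (.e (nat_lit 65604) (nat_lit 9) (.e (nat_lit 336013) (nat_lit 2) (.e (nat_lit 90170) (nat_lit 13) (.e (nat_lit 172042) (nat_lit 0) .nil)))))))) (.g (nat_lit 1) (.e (nat_lit 88289) (nat_lit 0) .nil) .nil))))) 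
(.nd (nat_lit 8) (.nd (nat_lit 9) 
(.lf (nat_lit 471277) (.g (nat_lit 2946) (.e (nat_lit 3402) (nat_lit 211) (.e (nat_lit 647181) (nat_lit 3) (.e (nat_lit 163978) (nat_lit 30) (.e (nat_lit 573479) (nat_lit 13) (.e (nat_lit 65619) (nat_lit 10) (.e (nat_lit 344117) (nat_lit 21) (.e (nat_lit 516151) (nat_lit 9) (.e (nat_lit 426003) (nat_lit 0) .nil)))))))) (.g (nat_lit 1) (.e (nat_lit 87172) (nat_lit 0) .nil) .nil))) 
(.lf (nat_lit 471789) (.g (nat_lit 2359) (.e (nat_lit 3408) (nat_lit 212) (.e (nat_lit 655378) (nat_lit 4) (.e (nat_lit 172113) (nat_lit 10) (.e (nat_lit 434271) (nat_lit 38) (.e (nat_lit 655380) (nat_lit 6) (.e (nat_lit 188440) (nat_lit 20) .nil)))))) (.g (nat_lit 1) (.e (nat_lit 88093) (nat_lit 0) .nil) .nil)))) (.nd (nat_lit 9) 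
(.lf (nat_lit 471533) (.g (nat_lit 1485) (.e (nat_lit 3406) (nat_lit 212) (.e (nat_lit 655380) (nat_lit 6) (.e (nat_lit 188440) (nat_lit 20) (.e (nat_lit 3409) (nat_lit 212) (.e (nat_lit 655380) (nat_lit 6) (.e (nat_lit 188439) (nat_lit 20) .nil)))))) (.g (nat_lit 1) (.e (nat_lit 87641) (nat_lit 0) .nil) .nil))) 
(.lf (nat_lit 472045) (.g (nat_lit 1329) (.e (nat_lit 3409) (nat_lit 212) (.e (nat_lit 655378) (nat_lit 4) (.e (nat_lit 172118) (nat_lit 12) (.e (nat_lit 475197) (nat_lit 40) (.e (nat_lit 704599) (nat_lit 6) .nil))))) (.g (nat_lit 0) (.e (nat_lit 88462) (nat_lit 0) .nil) .nil)))))))) (.nd (nat_lit 5) (.nd (nat_lit 6) (.nd (nat_lit 7) (.nd (nat_lit 8) (.nd (nat_lit 9) 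
(.lf (nat_lit 471069) (.g (nat_lit 2767) (.e (nat_lit 3399) (nat_lit 211) (.e (nat_lit 647183) (nat_lit 4) (.e (nat_lit 172106) (nat_lit 10) (.e (nat_lit 434209) (nat_lit 18) (.e (nat_lit 5546) (nat_lit 306) (.e (nat_lit 2619) (nat_lit 164) (.e (nat_lit 172097) (nat_lit 9) (.e (nat_lit 426025) (nat_lit 0) .nil)))))))) (.g (nat_lit 1) (.e (nat_lit 86761) (nat_lit 0) .nil) .nil))) 
(.lf (nat_lit 471581) (.g (nat_lit 3869) (.e (nat_lit 3407) (nat_lit 212) (.e (nat_lit 655375) (nat_lit 3) (.e (nat_lit 163979) (nat_lit 30) (.e (nat_lit 573485) (nat_lit 13) (.e (nat_lit 65619) (nat_lit 10) (.e (nat_lit 344117) (nat_lit 21) (.e (nat_lit 516151) (nat_lit 9) (.e (nat_lit 426043) (nat_lit 0) .nil)))))))) (.g (nat_lit 1) (.e (nat_lit 87731) (nat_lit 0) .nil) .nil)))) 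
(.nd (nat_lit 9) 
(.lf (nat_lit 471325) (.g (nat_lit 1682) (.e (nat_lit 3402) (nat_lit 211) (.e (nat_lit 647183) (nat_lit 4) (.e (nat_lit 172107) (nat_lit 10) (.e (nat_lit 434271) (nat_lit 38) (.e (nat_lit 655380) (nat_lit 6) (.e (nat_lit 188430) (nat_lit 20) .nil)))))) (.g (nat_lit 1) (.e (nat_lit 87245) (nat_lit 0) .nil) .nil))) 
(.lf (nat_lit 471837) (.g (nat_lit 3045) (.e (nat_lit 3408) (nat_lit 212) (.e (nat_lit 655378) (nat_lit 4) (.e (nat_lit 172120) (nat_lit 12) (.e (nat_lit 475199) (nat_lit 40) (.e (nat_lit 704598) (nat_lit 6) (.e (nat_lit 188434) (nat_lit 20) .nil)))))) (.g (nat_lit 1) (.e (nat_lit 88146) (nat_lit 0) .nil) .nil))))) (.nd (nat_lit 8) (.nd (nat_lit 9) 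
(.lf (nat_lit 471197) (.g (nat_lit 4722) (.e (nat_lit 3401) (nat_lit 211) (.e (nat_lit 647181) (nat_lit 3) (.e (nat_lit 163979) (nat_lit 30) (.e (nat_lit 573482) (nat_lit 13) (.e (nat_lit 65604) (nat_lit 9) (.e (nat_lit 336013) (nat_lit 2) (.e (nat_lit 90170) (nat_lit 13) (.e (nat_lit 172039) (nat_lit 0) .nil)))))))) (.g (nat_lit 1) (.e (nat_lit 86992) (nat_lit 0) .nil) .nil))) 
(.lf (nat_lit 471709) (.g (nat_lit 3997) (.e (nat_lit 3408) (nat_lit 212) (.e (nat_lit 655375) (nat_lit 3) (.e (nat_lit 163978) (nat_lit 30) (.e (nat_lit 573490) (nat_lit 15) (.e (nat_lit 81953) (nat_lit 22) (.e (nat_lit 90170) (nat_lit 13) (.e (nat_lit 172049) (nat_lit 0) .nil))))))) (.g (nat_lit 1) (.e (nat_lit 87955) (nat_lit 0) .nil) .nil)))) (.nd (nat_lit 9) 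
(.lf (nat_lit 471453) (.g (nat_lit 1446) (.e (nat_lit 3406) (nat_lit 212) (.e (nat_lit 655378) (nat_lit 4) (.e (nat_lit 172106) (nat_lit 10) (.e (nat_lit 434272) (nat_lit 38) (.e (nat_lit 655380) (nat_lit 6) (.e (nat_lit 188438) (nat_lit 20) .nil)))))) (.g (nat_lit 1) (.e (nat_lit 87531) (nat_lit 0) .nil) .nil))) 
(.lf (nat_lit 471965) (.g (nat_lit 3283) (.e (nat_lit 3409) (nat_lit 212) (.e (nat_lit 655375) (nat_lit 3) (.e (nat_lit 163979) (nat_lit 30) (.e (nat_lit 573482) (nat_lit 13) (.e (nat_lit 65619) (nat_lit 10) (.e (nat_lit 344117) (nat_lit 21) (.e (nat_lit 516151) (nat_lit 9) (.e (nat_lit 426003) (nat_lit 0) .nil)))))))) (.g (nat_lit 1) (.e (nat_lit 88362) (nat_lit 0) .nil) .nil)))))) 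
(.nd (nat_lit 7) (.nd (nat_lit 8) (.nd (nat_lit 9) 
(.lf (nat_lit 471133) (.g (nat_lit 2112) (.e (nat_lit 3399) (nat_lit 211) (.e (nat_lit 647183) (nat_lit 4) (.e (nat_lit 172126) (nat_lit 14) (.e (nat_lit 491569) (nat_lit 13) (.e (nat_lit 401152) (nat_lit 23) (.e (nat_lit 426024) (nat_lit 0) .nil)))))) (.g (nat_lit 1) (.e (nat_lit 86827) (nat_lit 0) .nil) .nil))) 
(.lf (nat_lit 471645) (.g (nat_lit 1006) (.e (nat_lit 3407) (nat_lit 212) (.e (nat_lit 655380) (nat_lit 6) (.e (nat_lit 188435) (nat_lit 20) (.e (nat_lit 3408) (nat_lit 212) (.e (nat_lit 655380) (nat_lit 6) (.e (nat_lit 188438) (nat_lit 20) .nil)))))) (.g (nat_lit 1) (.e (nat_lit 87847) (nat_lit 0) .nil) .nil)))) (.nd (nat_lit 9) 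
(.lf (nat_lit 471389) (.g (nat_lit 412) (.e (nat_lit 3403) (nat_lit 212) (.e (nat_lit 655378) (nat_lit 4) (.e (nat_lit 172126) (nat_lit 14) .nil))) (.g (nat_lit 0) (.e (nat_lit 87395) (nat_lit 0) .nil) .nil))) 
(.lf (nat_lit 471901) (.g (nat_lit 564) (.e (nat_lit 3409) (nat_lit 212) (.e (nat_lit 655364) (nat_lit 0) (.e (nat_lit 2989) (nat_lit 186) (.e (nat_lit 450304) (nat_lit 4) .nil)))) (.g (nat_lit 0) (.e (nat_lit 88242) (nat_lit 0) .nil) .nil))))) (.nd (nat_lit 8) (.nd (nat_lit 9) 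
(.lf (nat_lit 471261) (.g (nat_lit 3898) (.e (nat_lit 3402) (nat_lit 211) (.e (nat_lit 647181) (nat_lit 3) (.e (nat_lit 163977) (nat_lit 30) (.e (nat_lit 573482) (nat_lit 13) (.e (nat_lit 65604) (nat_lit 9) (.e (nat_lit 336028) (nat_lit 3) (.e (nat_lit 98359) (nat_lit 26) (.e (nat_lit 426023) (nat_lit 0) .nil)))))))) (.g (nat_lit 1) (.e (nat_lit 87156) (nat_lit 0) .nil) .nil))) 
(.lf (nat_lit 471773) (.g (nat_lit 2318) (.e (nat_lit 3408) (nat_lit 212) (.e (nat_lit 655378) (nat_lit 4) (.e (nat_lit 172107) (nat_lit 10) (.e (nat_lit 434272) (nat_lit 38) (.e (nat_lit 655380) (nat_lit 6) (.e (nat_lit 188434) (nat_lit 20) .nil)))))) (.g (nat_lit 1) (.e (nat_lit 88076) (nat_lit 0) .nil) .nil)))) (.nd (nat_lit 9) 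
(.lf (nat_lit 471517) (.g (nat_lit 922) (.e (nat_lit 3406) (nat_lit 212) (.e (nat_lit 655380) (nat_lit 6) (.e (nat_lit 188434) (nat_lit 20) (.e (nat_lit 3406) (nat_lit 212) (.e (nat_lit 655380) (nat_lit 6) .nil))))) (.g (nat_lit 0) (.e (nat_lit 87625) (nat_lit 0) .nil) .nil))) 
(.lf (nat_lit 472029) (.g (nat_lit 2732) (.e (nat_lit 3409) (nat_lit 212) (.e (nat_lit 655378) (nat_lit 4) (.e (nat_lit 172113) (nat_lit 10) (.e (nat_lit 434271) (nat_lit 38) (.e (nat_lit 655380) (nat_lit 6) (.e (nat_lit 188434) (nat_lit 20) .nil)))))) (.g (nat_lit 1) (.e (nat_lit 88445) (nat_lit 0) .nil) .nil))))))) (.nd (nat_lit 6) (.nd (nat_lit 7) (.nd (nat_lit 8) (.nd (nat_lit 9) 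
(.lf (nat_lit 471101) (.g (nat_lit 1987) (.e (nat_lit 3399) (nat_lit 211) (.e (nat_lit 647183) (nat_lit 4) (.e (nat_lit 172124) (nat_lit 14) (.e (nat_lit 491549) (nat_lit 9) (.e (nat_lit 336395) (nat_lit 27) (.e (nat_lit 426216) (nat_lit 9) (.e (nat_lit 426025) (nat_lit 0) .nil))))))) (.g (nat_lit 1) (.e (nat_lit 86795) (nat_lit 0) .nil) .nil))) 
(.lf (nat_lit 471613) (.g (nat_lit 2141) (.e (nat_lit 3407) (nat_lit 212) (.e (nat_lit 655378) (nat_lit 4) (.e (nat_lit 172115) (nat_lit 10) (.e (nat_lit 434271) (nat_lit 38) (.e (nat_lit 655380) (nat_lit 6) (.e (nat_lit 188438) (nat_lit 20) .nil)))))) (.g (nat_lit 1) (.e (nat_lit 87793) (nat_lit 0) .nil) .nil)))) (.nd (nat_lit 9) 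
(.lf (nat_lit 471357) (.g (nat_lit 1764) (.e (nat_lit 3402) (nat_lit 211) (.e (nat_lit 647183) (nat_lit 4) (.e (nat_lit 172120) (nat_lit 12) (.e (nat_lit 475199) (nat_lit 40) (.e (nat_lit 704599) (nat_lit 6) .nil))))) (.g (nat_lit 0) (.e (nat_lit 87282) (nat_lit 0) .nil) .nil))) 
(.lf (nat_lit 471869) (.g (nat_lit 1445) (.e (nat_lit 3408) (nat_lit 212) (.e (nat_lit 655380) (nat_lit 6) (.e (nat_lit 188435) (nat_lit 20) (.e (nat_lit 3409) (nat_lit 212) (.e (nat_lit 655380) (nat_lit 6) (.e (nat_lit 188434) (nat_lit 20) .nil)))))) (.g (nat_lit 1) (.e (nat_lit 88197) (nat_lit 0) .nil) .nil))))) (.nd (nat_lit 8) (.nd (nat_lit 9) 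
(.lf (nat_lit 471229) (.g (nat_lit 2632) (.e (nat_lit 3401) (nat_lit 211) (.e (nat_lit 647183) (nat_lit 4) (.e (nat_lit 172124) (nat_lit 14) (.e (nat_lit 491549) (nat_lit 9) (.e (nat_lit 336430) (nat_lit 29) (.e (nat_lit 442395) (nat_lit 20) .nil)))))) (.g (nat_lit 1) (.e (nat_lit 87085) (nat_lit 0) .nil) .nil))) 
(.lf (nat_lit 471741) (.g (nat_lit 1483) (.e (nat_lit 3408) (nat_lit 212) (.e (nat_lit 655376) (nat_lit 4) (.e (nat_lit 172120) (nat_lit 12) (.e (nat_lit 475197) (nat_lit 40) (.e (nat_lit 704598) (nat_lit 6) (.e (nat_lit 188435) (nat_lit 20) .nil)))))) (.g (nat_lit 1) (.e (nat_lit 88000) (nat_lit 0) .nil) .nil)))) (.nd (nat_lit 9) 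
(.lf (nat_lit 471485) (.g (nat_lit 1561) (.e (nat_lit 3406) (nat_lit 212) (.e (nat_lit 655378) (nat_lit 4) (.e (nat_lit 172118) (nat_lit 12) (.e (nat_lit 475197) (nat_lit 40) (.e (nat_lit 704598) (nat_lit 6) (.e (nat_lit 188434) (nat_lit 20) .nil)))))) (.g (nat_lit 1) (.e (nat_lit 87564) (nat_lit 0) .nil) .nil))) 
(.lf (nat_lit 471997) (.g (nat_lit 1466) (.e (nat_lit 3409) (nat_lit 212) (.e (nat_lit 655378) (nat_lit 4) (.e (nat_lit 172080) (nat_lit 7) (.e (nat_lit 409618) (nat_lit 10) (.e (nat_lit 5362) (nat_lit 298) .nil))))) (.g (nat_lit 0) (.e (nat_lit 88408) (nat_lit 0) .nil) .nil)))))) (.nd (nat_lit 7) (.nd (nat_lit 8) (.nd (nat_lit 9) 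
(.lf (nat_lit 471165) (.g (nat_lit 1877) (.e (nat_lit 3399) (nat_lit 211) (.e (nat_lit 647185) (nat_lit 6) (.e (nat_lit 188455) (nat_lit 24) (.e (nat_lit 229666) (nat_lit 240) (.e (nat_lit 2651) (nat_lit 166) (.e (nat_lit 188431) (nat_lit 20) .nil)))))) (.g (nat_lit 1) (.e (nat_lit 86880) (nat_lit 0) .nil) .nil))) 
(.lf (nat_lit 471677) (.g (nat_lit 2337) (.e (nat_lit 3408) (nat_lit 212) (.e (nat_lit 655375) (nat_lit 3) (.e (nat_lit 163977) (nat_lit 30) (.e (nat_lit 573481) (nat_lit 13) (.e (nat_lit 65604) (nat_lit 9) (.e (nat_lit 336028) (nat_lit 3) (.e (nat_lit 98359) (nat_lit 26) (.e (nat_lit 426043) (nat_lit 0) .nil)))))))) (.g (nat_lit 1) (.e (nat_lit 87923) (nat_lit 0) .nil) .nil)))) (.nd (nat_lit 9) 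
(.lf (nat_lit 471421) (.g (nat_lit 4206) (.e (nat_lit 3406) (nat_lit 212) (.e (nat_lit 655375) (nat_lit 3) (.e (nat_lit 163978) (nat_lit 30) (.e (nat_lit 573490) (nat_lit 15) (.e (nat_lit 81951) (nat_lit 22) (.e (nat_lit 90170) (nat_lit 13) (.e (nat_lit 172049) (nat_lit 0) .nil))))))) (.g (nat_lit 1) (.e (nat_lit 87450) (nat_lit 0) .nil) .nil))) 
(.lf (nat_lit 471933) (.g (nat_lit 4234) (.e (nat_lit 3409) (nat_lit 212) (.e (nat_lit 655375) (nat_lit 3) (.e (nat_lit 163978) (nat_lit 30) (.e (nat_lit 573482) (nat_lit 13) (.e (nat_lit 65604) (nat_lit 9) (.e (nat_lit 336013) (nat_lit 2) (.e (nat_lit 90170) (nat_lit 13) (.e (nat_lit 172042) (nat_lit 0) .nil)))))))) (.g (nat_lit 1) (.e (nat_lit 88305) (nat_lit 0) .nil) .nil))))) 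
(.nd (nat_lit 8) (.nd (nat_lit 9) 
(.lf (nat_lit 471293) (.g (nat_lit 1420) (.e (nat_lit 3402) (nat_lit 211) (.e (nat_lit 647183) (nat_lit 4) (.e (nat_lit 172080) (nat_lit 7) (.e (nat_lit 409618) (nat_lit 10) (.e (nat_lit 5362) (nat_lit 298) .nil))))) (.g (nat_lit 0) (.e (nat_lit 87203) (nat_lit 0) .nil) .nil))) 
(.lf (nat_lit 471805) (.g (nat_lit 1514) (.e (nat_lit 3408) (nat_lit 212) (.e (nat_lit 655378) (nat_lit 4) (.e (nat_lit 172116) (nat_lit 10) (.e (nat_lit 434271) (nat_lit 38) (.e (nat_lit 655380) (nat_lit 6) (.e (nat_lit 188438) (nat_lit 20) .nil)))))) (.g (nat_lit 1) (.e (nat_lit 88110) (nat_lit 0) .nil) .nil)))) (.nd (nat_lit 9) 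
(.lf (nat_lit 471549) (.g (nat_lit 4250) (.e (nat_lit 3407) (nat_lit 212) (.e (nat_lit 655375) (nat_lit 3) (.e (nat_lit 163977) (nat_lit 30) (.e (nat_lit 573482) (nat_lit 13) (.e (nat_lit 65619) (nat_lit 10) (.e (nat_lit 344117) (nat_lit 21) (.e (nat_lit 516151) (nat_lit 9) (.e (nat_lit 426043) (nat_lit 0) .nil)))))))) (.g (nat_lit 1) (.e (nat_lit 87689) (nat_lit 0) .nil) .nil))) 
(.lf (nat_lit 472061) (.g (nat_lit 1954) (.e (nat_lit 3409) (nat_lit 212) (.e (nat_lit 655378) (nat_lit 4) (.e (nat_lit 172125) (nat_lit 14) (.e (nat_lit 491550) (nat_lit 9) (.e (nat_lit 336430) (nat_lit 29) (.e (nat_lit 442409) (nat_lit 20) .nil)))))) (.g (nat_lit 1) (.e (nat_lit 88479) (nat_lit 0) .nil) .nil))))))))))) 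
(.nd (nat_lit 2) (.nd (nat_lit 3) (.nd (nat_lit 4) (.nd (nat_lit 5) (.nd (nat_lit 6) 
(.nd (nat_lit 7) (.nd (nat_lit 8) (.nd (nat_lit 9) 
(.lf (nat_lit 471043) (.g (nat_lit 4949) (.e (nat_lit 3399) (nat_lit 211) (.e (nat_lit 647181) (nat_lit 3) (.e (nat_lit 163979) (nat_lit 30) (.e (nat_lit 573482) (nat_lit 13) (.e (nat_lit 65619) (nat_lit 10) (.e (nat_lit 344117) (nat_lit 21) (.e (nat_lit 516151) (nat_lit 9) (.e (nat_lit 426022) (nat_lit 0) .nil)))))))) (.g (nat_lit 1) (.e (nat_lit 86729) (nat_lit 0) .nil) .nil))) 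
(.lf (nat_lit 471555) (.g (nat_lit 3177) (.e (nat_lit 3407) (nat_lit 212) (.e (nat_lit 655375) (nat_lit 3) (.e (nat_lit 163977) (nat_lit 30) (.e (nat_lit 573491) (nat_lit 15) (.e (nat_lit 81954) (nat_lit 23) (.e (nat_lit 98359) (nat_lit 26) (.e (nat_lit 426043) (nat_lit 0) .nil))))))) (.g (nat_lit 1) (.e (nat_lit 87695) (nat_lit 0) .nil) .nil)))) (.nd (nat_lit 9) 
(.lf (nat_lit 471299) (.g (nat_lit 1723) (.e (nat_lit 3402) (nat_lit 211) (.e (nat_lit 647183) (nat_lit 4) (.e (nat_lit 172080) (nat_lit 7) (.e (nat_lit 409642) (nat_lit 17) (.e (nat_lit 294974) (nat_lit 29) (.e (nat_lit 442398) (nat_lit 20) .nil)))))) (.g (nat_lit 1) (.e (nat_lit 87209) (nat_lit 0) .nil) .nil))) 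
(.lf (nat_lit 471811) (.g (nat_lit 1902) (.e (nat_lit 3408) (nat_lit 212) (.e (nat_lit 655378) (nat_lit 4) (.e (nat_lit 172116) (nat_lit 10) (.e (nat_lit 434272) (nat_lit 38) (.e (nat_lit 655380) (nat_lit 6) (.e (nat_lit 188439) (nat_lit 20) .nil)))))) (.g (nat_lit 1) (.e (nat_lit 88116) (nat_lit 0) .nil) .nil))))) (.nd (nat_lit 8) (.nd (nat_lit 9) 
(.lf (nat_lit 471171) (.g (nat_lit 4307) (.e (nat_lit 3401) (nat_lit 211) (.e (nat_lit 647181) (nat_lit 3) (.e (nat_lit 163977) (nat_lit 30) (.e (nat_lit 573482) (nat_lit 13) (.e (nat_lit 65604) (nat_lit 9) (.e (nat_lit 336013) (nat_lit 2) (.e (nat_lit 90170) (nat_lit 13) (.e (nat_lit 172035) (nat_lit 0) .nil)))))))) (.g (nat_lit 1) (.e (nat_lit 86966) (nat_lit 0) .nil) .nil))) 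
(.lf (nat_lit 471683) (.g (nat_lit 3830) (.e (nat_lit 3408) (nat_lit 212) (.e (nat_lit 655375) (nat_lit 3) (.e (nat_lit 163977) (nat_lit 30) (.e (nat_lit 573485) (nat_lit 13) (.e (nat_lit 65604) (nat_lit 9) (.e (nat_lit 336028) (nat_lit 3) (.e (nat_lit 98359) (nat_lit 26) (.e (nat_lit 426043) (nat_lit 0) .nil)))))))) (.g (nat_lit 1) (.e (nat_lit 87929) (nat_lit 0) .nil) .nil)))) (.nd (nat_lit 9) 
(.lf (nat_lit 471427) (.g (nat_lit 2028) (.e (nat_lit 3406) (nat_lit 212) (.e (nat_lit 655375) (nat_lit 3) (.e (nat_lit 163979) (nat_lit 30) (.e (nat_lit 573482) (nat_lit 13) (.e (nat_lit 65604) (nat_lit 9) (.e (nat_lit 336028) (nat_lit 3) (.e (nat_lit 98359) (nat_lit 26) (.e (nat_lit 426041) (nat_lit 0) .nil)))))))) (.g (nat_lit 1) (.e (nat_lit 87463) (nat_lit 0) .nil) .nil))) 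
(.lf (nat_lit 471939) (.g (nat_lit 3343) (.e (nat_lit 3409) (nat_lit 212) (.e (nat_lit 655375) (nat_lit 3) (.e (nat_lit 163978) (nat_lit 30) (.e (nat_lit 573483) (nat_lit 13) (.e (nat_lit 65610) (nat_lit 10) (.e (nat_lit 344117) (nat_lit 21) (.e (nat_lit 516151) (nat_lit 9) (.e (nat_lit 426042) (nat_lit 0) .nil)))))))) (.g (nat_lit 1) (.e (nat_lit 88311) (nat_lit 0) .nil) .nil)))))) 
(.nd (nat_lit 7) (.nd (nat_lit 8) (.nd (nat_lit 9) 
(.lf (nat_lit 471107) (.g (nat_lit 1752) (.e (nat_lit 3399) (nat_lit 211) (.e (nat_lit 647183) (nat_lit 4) (.e (nat_lit 172124) (nat_lit 14) (.e (nat_lit 491569) (nat_lit 13) (.e (nat_lit 401152) (nat_lit 23) .nil))))) (.g (nat_lit 0) (.e (nat_lit 86801) (nat_lit 0) .nil) .nil))) 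
(.lf (nat_lit 471619) (.g (nat_lit 1674) (.e (nat_lit 3407) (nat_lit 212) (.e (nat_lit 655378) (nat_lit 4) (.e (nat_lit 172116) (nat_lit 10) (.e (nat_lit 434272) (nat_lit 38) (.e (nat_lit 655380) (nat_lit 6) (.e (nat_lit 188438) (nat_lit 20) .nil)))))) (.g (nat_lit 1) (.e (nat_lit 87799) (nat_lit 0) .nil) .nil)))) (.nd (nat_lit 9) 
(.lf (nat_lit 471363) (.g (nat_lit 1327) (.e (nat_lit 3402) (nat_lit 211) (.e (nat_lit 647183) (nat_lit 4) (.e (nat_lit 172124) (nat_lit 14) (.e (nat_lit 491548) (nat_lit 9) (.e (nat_lit 336430) (nat_lit 29) (.e (nat_lit 442398) (nat_lit 20) .nil)))))) (.g (nat_lit 1) (.e (nat_lit 87288) (nat_lit 0) .nil) .nil))) 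
(.lf (nat_lit 471875) (.g (nat_lit 1112) (.e (nat_lit 3408) (nat_lit 212) (.e (nat_lit 655380) (nat_lit 6) (.e (nat_lit 188439) (nat_lit 20) (.e (nat_lit 3407) (nat_lit 212) (.e (nat_lit 655380) (nat_lit 6) (.e (nat_lit 188435) (nat_lit 20) .nil)))))) (.g (nat_lit 1) (.e (nat_lit 88203) (nat_lit 0) .nil) .nil))))) (.nd (nat_lit 8) (.nd (nat_lit 9) 
(.lf (nat_lit 471235) (.g (nat_lit 2498) (.e (nat_lit 3401) (nat_lit 211) (.e (nat_lit 647183) (nat_lit 4) (.e (nat_lit 172126) (nat_lit 14) (.e (nat_lit 491550) (nat_lit 9) (.e (nat_lit 336430) (nat_lit 29) (.e (nat_lit 442395) (nat_lit 20) .nil)))))) (.g (nat_lit 1) (.e (nat_lit 87094) (nat_lit 0) .nil) .nil))) 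
(.lf (nat_lit 471747) (.g (nat_lit 2352) (.e (nat_lit 3408) (nat_lit 212) (.e (nat_lit 655376) (nat_lit 4) (.e (nat_lit 172126) (nat_lit 14) (.e (nat_lit 491549) (nat_lit 9) (.e (nat_lit 336430) (nat_lit 29) (.e (nat_lit 442409) (nat_lit 20) .nil)))))) (.g (nat_lit 1) (.e (nat_lit 88009) (nat_lit 0) .nil) .nil)))) (.nd (nat_lit 9) 
(.lf (nat_lit 471491) (.g (nat_lit 2602) (.e (nat_lit 3406) (nat_lit 212) (.e (nat_lit 655378) (nat_lit 4) (.e (nat_lit 172119) (nat_lit 12) (.e (nat_lit 475199) (nat_lit 40) (.e (nat_lit 704598) (nat_lit 6) (.e (nat_lit 188434) (nat_lit 20) .nil)))))) (.g (nat_lit 1) (.e (nat_lit 87571) (nat_lit 0) .nil) .nil))) 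
(.lf (nat_lit 472003) (.g (nat_lit 2032) (.e (nat_lit 3409) (nat_lit 212) (.e (nat_lit 655378) (nat_lit 4) (.e (nat_lit 172094) (nat_lit 9) (.e (nat_lit 426025) (nat_lit 0) (.e (nat_lit 3397) (nat_lit 211) (.e (nat_lit 647185) (nat_lit 6) (.e (nat_lit 188439) (nat_lit 20) .nil))))))) (.g (nat_lit 1) (.e (nat_lit 88416) (nat_lit 0) .nil) .nil))))))) 
(.nd (nat_lit 6) (.nd (nat_lit 7) (.nd (nat_lit 8) (.nd (nat_lit 9) 
(.lf (nat_lit 471075) (.g (nat_lit 2266) (.e (nat_lit 3399) (nat_lit 211) (.e (nat_lit 647183) (nat_lit 4) (.e (nat_lit 172106) (nat_lit 10) (.e (nat_lit 434271) (nat_lit 38) (.e (nat_lit 655380) (nat_lit 6) (.e (nat_lit 188431) (nat_lit 20) .nil)))))) (.g (nat_lit 1) (.e (nat_lit 86767) (nat_lit 0) .nil) .nil))) 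
(.lf (nat_lit 471587) (.g (nat_lit 4175) (.e (nat_lit 3407) (nat_lit 212) (.e (nat_lit 655375) (nat_lit 3) (.e (nat_lit 163979) (nat_lit 30) (.e (nat_lit 573493) (nat_lit 15) (.e (nat_lit 81953) (nat_lit 22) (.e (nat_lit 90170) (nat_lit 13) (.e (nat_lit 172049) (nat_lit 0) .nil))))))) (.g (nat_lit 1) (.e (nat_lit 87737) (nat_lit 0) .nil) .nil)))) (.nd (nat_lit 9) 
(.lf (nat_lit 471331) (.g (nat_lit 2395) (.e (nat_lit 3402) (nat_lit 211) (.e (nat_lit 647183) (nat_lit 4) (.e (nat_lit 172113) (nat_lit 10) (.e (nat_lit 434271) (nat_lit 38) (.e (nat_lit 655380) (nat_lit 6) (.e (nat_lit 188427) (nat_lit 20) .nil)))))) (.g (nat_lit 1) (.e (nat_lit 87254) (nat_lit 0) .nil) .nil))) 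
(.lf (nat_lit 471843) (.g (nat_lit 2714) (.e (nat_lit 3408) (nat_lit 212) (.e (nat_lit 655378) (nat_lit 4) (.e (nat_lit 172124) (nat_lit 14) (.e (nat_lit 491550) (nat_lit 9) (.e (nat_lit 336430) (nat_lit 29) (.e (nat_lit 442402) (nat_lit 20) .nil)))))) (.g (nat_lit 1) (.e (nat_lit 88155) (nat_lit 0) .nil) .nil))))) (.nd (nat_lit 8) (.nd (nat_lit 9) 
(.lf (nat_lit 471203) (.g (nat_lit 4356) (.e (nat_lit 3401) (nat_lit 211) (.e (nat_lit 647181) (nat_lit 3) (.e (nat_lit 163979) (nat_lit 30) (.e (nat_lit 573493) (nat_lit 15) (.e (nat_lit 81953) (nat_lit 22) (.e (nat_lit 90170) (nat_lit 13) (.e (nat_lit 172035) (nat_lit 0) .nil))))))) (.g (nat_lit 1) (.e (nat_lit 86998) (nat_lit 0) .nil) .nil))) 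
(.lf (nat_lit 471715) (.g (nat_lit 4379) (.e (nat_lit 3408) (nat_lit 212) (.e (nat_lit 655375) (nat_lit 3) (.e (nat_lit 163978) (nat_lit 30) (.e (nat_lit 573493) (nat_lit 15) (.e (nat_lit 81951) (nat_lit 22) (.e (nat_lit 90170) (nat_lit 13) (.e (nat_lit 172049) (nat_lit 0) .nil))))))) (.g (nat_lit 1) (.e (nat_lit 87962) (nat_lit 0) .nil) .nil)))) (.nd (nat_lit 9) 
(.lf (nat_lit 471459) (.g (nat_lit 1138) (.e (nat_lit 3406) (nat_lit 212) (.e (nat_lit 655378) (nat_lit 4) (.e (nat_lit 172112) (nat_lit 10) (.e (nat_lit 434272) (nat_lit 38) (.e (nat_lit 655380) (nat_lit 6) .nil))))) (.g (nat_lit 0) (.e (nat_lit 87537) (nat_lit 0) .nil) .nil))) 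
(.lf (nat_lit 471971) (.g (nat_lit 4726) (.e (nat_lit 3409) (nat_lit 212) (.e (nat_lit 655375) (nat_lit 3) (.e (nat_lit 163979) (nat_lit 30) (.e (nat_lit 573492) (nat_lit 15) (.e (nat_lit 81956) (nat_lit 23) (.e (nat_lit 98360) (nat_lit 26) (.e (nat_lit 426003) (nat_lit 0) .nil))))))) (.g (nat_lit 1) (.e (nat_lit 88370) (nat_lit 0) .nil) .nil)))))) 
(.nd (nat_lit 7) (.nd (nat_lit 8) (.nd (nat_lit 9) 
(.lf (nat_lit 471139) (.g (nat_lit 1270) (.e (nat_lit 3399) (nat_lit 211) (.e (nat_lit 647185) (nat_lit 6) (.e (nat_lit 188417) (nat_lit 0) (.e (nat_lit 2143) (nat_lit 142) (.e (nat_lit 704597) (nat_lit 6) (.e (nat_lit 188431) (nat_lit 20) .nil)))))) (.g (nat_lit 1) (.e (nat_lit 86848) (nat_lit 0) .nil) .nil))) 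
(.lf (nat_lit 471651) (.g (nat_lit 1029) (.e (nat_lit 3407) (nat_lit 212) (.e (nat_lit 655380) (nat_lit 6) (.e (nat_lit 188438) (nat_lit 20) (.e (nat_lit 3409) (nat_lit 212) (.e (nat_lit 655380) (nat_lit 6) (.e (nat_lit 188438) (nat_lit 20) .nil)))))) (.g (nat_lit 1) (.e (nat_lit 87853) (nat_lit 0) .nil) .nil)))) (.nd (nat_lit 9) 
(.lf (nat_lit 471395) (.g (nat_lit 3012) (.e (nat_lit 3406) (nat_lit 212) (.e (nat_lit 655373) (nat_lit 3) (.e (nat_lit 163973) (nat_lit 30) (.e (nat_lit 573479) (nat_lit 13) (.e (nat_lit 65619) (nat_lit 10) (.e (nat_lit 344117) (nat_lit 21) (.e (nat_lit 516151) (nat_lit 9) (.e (nat_lit 426043) (nat_lit 0) .nil)))))))) (.g (nat_lit 1) (.e (nat_lit 87421) (nat_lit 0) .nil) .nil))) 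
(.lf (nat_lit 471907) (.g (nat_lit 5503) (.e (nat_lit 3409) (nat_lit 212) (.e (nat_lit 655373) (nat_lit 3) (.e (nat_lit 163979) (nat_lit 30) (.e (nat_lit 573482) (nat_lit 13) (.e (nat_lit 65619) (nat_lit 10) (.e (nat_lit 344117) (nat_lit 21) (.e (nat_lit 516151) (nat_lit 9) (.e (nat_lit 426042) (nat_lit 0) .nil)))))))) (.g (nat_lit 1) (.e (nat_lit 88278) (nat_lit 0) .nil) .nil))))) 
(.nd (nat_lit 8) (.nd (nat_lit 9) 
(.lf (nat_lit 471267) (.g (nat_lit 3856) (.e (nat_lit 3402) (nat_lit 211) (.e (nat_lit 647181) (nat_lit 3) (.e (nat_lit 163977) (nat_lit 30) (.e (nat_lit 573485) (nat_lit 13) (.e (nat_lit 65604) (nat_lit 9) (.e (nat_lit 336028) (nat_lit 3) (.e (nat_lit 98359) (nat_lit 26) (.e (nat_lit 426023) (nat_lit 0) .nil)))))))) (.g (nat_lit 1) (.e (nat_lit 87162) (nat_lit 0) .nil) .nil))) 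
(.lf (nat_lit 471779) (.g (nat_lit 1925) (.e (nat_lit 3408) (nat_lit 212) (.e (nat_lit 655378) (nat_lit 4) (.e (nat_lit 172112) (nat_lit 10) (.e (nat_lit 434271) (nat_lit 38) (.e (nat_lit 655380) (nat_lit 6) (.e (nat_lit 188439) (nat_lit 20) .nil)))))) (.g (nat_lit 1) (.e (nat_lit 88082) (nat_lit 0) .nil) .nil)))) (.nd (nat_lit 9) 
(.lf (nat_lit 471523) (.g (nat_lit 1607) (.e (nat_lit 3406) (nat_lit 212) (.e (nat_lit 655380) (nat_lit 6) (.e (nat_lit 188438) (nat_lit 20) (.e (nat_lit 3408) (nat_lit 212) (.e (nat_lit 655380) (nat_lit 6) (.e (nat_lit 188434) (nat_lit 20) .nil)))))) (.g (nat_lit 1) (.e (nat_lit 87631) (nat_lit 0) .nil) .nil))) 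
(.lf (nat_lit 472035) (.g (nat_lit 2149) (.e (nat_lit 3409) (nat_lit 212) (.e (nat_lit 655378) (nat_lit 4) (.e (nat_lit 172115) (nat_lit 10) (.e (nat_lit 434271) (nat_lit 38) (.e (nat_lit 655380) (nat_lit 6) (.e (nat_lit 188435) (nat_lit 20) .nil)))))) (.g (nat_lit 1) (.e (nat_lit 88452) (nat_lit 0) .nil) .nil)))))))) 
(.nd (nat_lit 5) (.nd (nat_lit 6) (.nd (nat_lit 7) (.nd (nat_lit 8) (.nd (nat_lit 9) 
(.lf (nat_lit 471059) (.g (nat_lit 1423) (.e (nat_lit 3399) (nat_lit 211) (.e (nat_lit 647183) (nat_lit 4) (.e (nat_lit 172080) (nat_lit 7) (.e (nat_lit 409618) (nat_lit 10) (.e (nat_lit 5364) (nat_lit 298) .nil))))) (.g (nat_lit 0) (.e (nat_lit 86751) (nat_lit 0) .nil) .nil))) 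
(.lf (nat_lit 471571) (.g (nat_lit 2674) (.e (nat_lit 3407) (nat_lit 212) (.e (nat_lit 655375) (nat_lit 3) (.e (nat_lit 163978) (nat_lit 30) (.e (nat_lit 573490) (nat_lit 15) (.e (nat_lit 81952) (nat_lit 22) .nil))))) (.g (nat_lit 0) (.e (nat_lit 87711) (nat_lit 0) .nil) .nil)))) (.nd (nat_lit 9) 
(.lf (nat_lit 471315) (.g (nat_lit 2573) (.e (nat_lit 3402) (nat_lit 211) (.e (nat_lit 647183) (nat_lit 4) (.e (nat_lit 172106) (nat_lit 10) (.e (nat_lit 434209) (nat_lit 18) (.e (nat_lit 5547) (nat_lit 306) (.e (nat_lit 2648) (nat_lit 166) (.e (nat_lit 188428) (nat_lit 20) .nil))))))) (.g (nat_lit 1) (.e (nat_lit 87235) (nat_lit 0) .nil) .nil))) 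
(.lf (nat_lit 471827) (.g (nat_lit 2318) (.e (nat_lit 3408) (nat_lit 212) (.e (nat_lit 655378) (nat_lit 4) (.e (nat_lit 172119) (nat_lit 12) (.e (nat_lit 475199) (nat_lit 40) (.e (nat_lit 704598) (nat_lit 6) (.e (nat_lit 188439) (nat_lit 20) .nil)))))) (.g (nat_lit 1) (.e (nat_lit 88133) (nat_lit 0) .nil) .nil))))) (.nd (nat_lit 8) (.nd (nat_lit 9) 
(.lf (nat_lit 471187) (.g (nat_lit 3568) (.e (nat_lit 3401) (nat_lit 211) (.e (nat_lit 647181) (nat_lit 3) (.e (nat_lit 163978) (nat_lit 30) (.e (nat_lit 573479) (nat_lit 13) (.e (nat_lit 65604) (nat_lit 9) (.e (nat_lit 336013) (nat_lit 2) (.e (nat_lit 90170) (nat_lit 13) (.e (nat_lit 172035) (nat_lit 0) .nil)))))))) (.g (nat_lit 1) (.e (nat_lit 86982) (nat_lit 0) .nil) .nil))) 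
(.lf (nat_lit 471699) (.g (nat_lit 3306) (.e (nat_lit 3408) (nat_lit 212) (.e (nat_lit 655375) (nat_lit 3) (.e (nat_lit 163978) (nat_lit 30) (.e (nat_lit 573483) (nat_lit 13) (.e (nat_lit 65604) (nat_lit 9) (.e (nat_lit 336013) (nat_lit 2) (.e (nat_lit 90170) (nat_lit 13) (.e (nat_lit 172049) (nat_lit 0) .nil)))))))) (.g (nat_lit 1) (.e (nat_lit 87945) (nat_lit 0) .nil) .nil)))) (.nd (nat_lit 9) 
(.lf (nat_lit 471443) (.g (nat_lit 545) (.e (nat_lit 3406) (nat_lit 212) (.e (nat_lit 655378) (nat_lit 4) (.e (nat_lit 172033) (nat_lit 0) .nil))) (.g (nat_lit 0) (.e (nat_lit 87485) (nat_lit 0) .nil) .nil))) 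
(.lf (nat_lit 471955) (.g (nat_lit 2293) (.e (nat_lit 3409) (nat_lit 212) (.e (nat_lit 655375) (nat_lit 3) (.e (nat_lit 163978) (nat_lit 30) (.e (nat_lit 573491) (nat_lit 15) (.e (nat_lit 81954) (nat_lit 23) (.e (nat_lit 98359) (nat_lit 26) (.e (nat_lit 426042) (nat_lit 0) .nil))))))) (.g (nat_lit 1) (.e (nat_lit 88332) (nat_lit 0) .nil) .nil)))))) 
(.nd (nat_lit 7) (.nd (nat_lit 8) (.nd (nat_lit 9) 
(.lf (nat_lit 471123) (.g (nat_lit 3924) (.e (nat_lit 3399) (nat_lit 211) (.e (nat_lit 647183) (nat_lit 4) (.e (nat_lit 172126) (nat_lit 14) (.e (nat_lit 491549) (nat_lit 9) (.e (nat_lit 336395) (nat_lit 27) (.e (nat_lit 426211) (nat_lit 9) (.e (nat_lit 426025) (nat_lit 0) .nil))))))) (.g (nat_lit 1) (.e (nat_lit 86817) (nat_lit 0) .nil) .nil))) 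
(.lf (nat_lit 471635) (.g (nat_lit 1462) (.e (nat_lit 3407) (nat_lit 212) (.e (nat_lit 655380) (nat_lit 6) (.e (nat_lit 188418) (nat_lit 0) (.e (nat_lit 2059) (nat_lit 142) (.e (nat_lit 704598) (nat_lit 6) (.e (nat_lit 188439) (nat_lit 20) .nil)))))) (.g (nat_lit 1) (.e (nat_lit 87833) (nat_lit 0) .nil) .nil)))) (.nd (nat_lit 9) 
(.lf (nat_lit 471379) (.g (nat_lit 2417) (.e (nat_lit 3403) (nat_lit 212) (.e (nat_lit 655375) (nat_lit 3) (.e (nat_lit 163978) (nat_lit 30) (.e (nat_lit 573485) (nat_lit 13) (.e (nat_lit 65604) (nat_lit 9) .nil))))) (.g (nat_lit 0) (.e (nat_lit 87351) (nat_lit 0) .nil) .nil))) 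
(.lf (nat_lit 471891) (.g (nat_lit 1989) (.e (nat_lit 3408) (nat_lit 212) (.e (nat_lit 655380) (nat_lit 6) (.e (nat_lit 188441) (nat_lit 20) (.e (nat_lit 3409) (nat_lit 212) (.e (nat_lit 655380) (nat_lit 6) (.e (nat_lit 188439) (nat_lit 20) .nil)))))) (.g (nat_lit 1) (.e (nat_lit 88219) (nat_lit 0) .nil) .nil))))) (.nd (nat_lit 8) (.nd (nat_lit 9) 
(.lf (nat_lit 471251) (.g (nat_lit 931) (.e (nat_lit 3401) (nat_lit 211) (.e (nat_lit 647185) (nat_lit 6) (.e (nat_lit 188441) (nat_lit 20) (.e (nat_lit 3409) (nat_lit 212) .nil)))) (.g (nat_lit 0) (.e (nat_lit 87135) (nat_lit 0) .nil) .nil))) 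
(.lf (nat_lit 471763) (.g (nat_lit 2528) (.e (nat_lit 3408) (nat_lit 212) (.e (nat_lit 655378) (nat_lit 4) (.e (nat_lit 172106) (nat_lit 10) (.e (nat_lit 434271) (nat_lit 38) (.e (nat_lit 655380) (nat_lit 6) (.e (nat_lit 188440) (nat_lit 20) .nil)))))) (.g (nat_lit 1) (.e (nat_lit 88066) (nat_lit 0) .nil) .nil)))) (.nd (nat_lit 9) 
(.lf (nat_lit 471507) (.g (nat_lit 1506) (.e (nat_lit 3406) (nat_lit 212) (.e (nat_lit 655380) (nat_lit 6) (.e (nat_lit 188418) (nat_lit 0) (.e (nat_lit 2058) (nat_lit 142) (.e (nat_lit 704598) (nat_lit 6) (.e (nat_lit 188439) (nat_lit 20) .nil)))))) (.g (nat_lit 1) (.e (nat_lit 87614) (nat_lit 0) .nil) .nil))) 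
(.lf (nat_lit 472019) (.g (nat_lit 1902) (.e (nat_lit 3409) (nat_lit 212) (.e (nat_lit 655378) (nat_lit 4) (.e (nat_lit 172107) (nat_lit 10) (.e (nat_lit 434271) (nat_lit 38) (.e (nat_lit 655380) (nat_lit 6) (.e (nat_lit 188438) (nat_lit 20) .nil)))))) (.g (nat_lit 1) (.e (nat_lit 88434) (nat_lit 0) .nil) .nil))))))) (.nd (nat_lit 6) (.nd (nat_lit 7) (.nd (nat_lit 8) (.nd (nat_lit 9) 
(.lf (nat_lit 471091) (.g (nat_lit 2012) (.e (nat_lit 3399) (nat_lit 211) (.e (nat_lit 647183) (nat_lit 4) (.e (nat_lit 172120) (nat_lit 12) (.e (nat_lit 475197) (nat_lit 40) (.e (nat_lit 704598) (nat_lit 6) (.e (nat_lit 188431) (nat_lit 20) .nil)))))) (.g (nat_lit 1) (.e (nat_lit 86785) (nat_lit 0) .nil) .nil))) 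
(.lf (nat_lit 471603) (.g (nat_lit 1972) (.e (nat_lit 3407) (nat_lit 212) (.e (nat_lit 655378) (nat_lit 4) (.e (nat_lit 172107) (nat_lit 10) (.e (nat_lit 434272) (nat_lit 38) (.e (nat_lit 655380) (nat_lit 6) (.e (nat_lit 188439) (nat_lit 20) .nil)))))) (.g (nat_lit 1) (.e (nat_lit 87782) (nat_lit 0) .nil) .nil)))) (.nd (nat_lit 9) 
(.lf (nat_lit 471347) (.g (nat_lit 1299) (.e (nat_lit 3402) (nat_lit 211) (.e (nat_lit 647183) (nat_lit 4) (.e (nat_lit 172118) (nat_lit 12) (.e (nat_lit 475197) (nat_lit 40) (.e (nat_lit 704598) (nat_lit 6) (.e (nat_lit 188427) (nat_lit 20) .nil)))))) (.g (nat_lit 1) (.e (nat_lit 87272) (nat_lit 0) .nil) .nil))) 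
(.lf (nat_lit 471859) (.g (nat_lit 1046) (.e (nat_lit 3408) (nat_lit 212) (.e (nat_lit 655380) (nat_lit 6) (.e (nat_lit 188420) (nat_lit 0) (.e (nat_lit 2057) (nat_lit 142) (.e (nat_lit 704598) (nat_lit 6) (.e (nat_lit 188435) (nat_lit 20) .nil)))))) (.g (nat_lit 1) (.e (nat_lit 88187) (nat_lit 0) .nil) .nil))))) (.nd (nat_lit 8) (.nd (nat_lit 9) 
(.lf (nat_lit 471219) (.g (nat_lit 2375) (.e (nat_lit 3401) (nat_lit 211) (.e (nat_lit 647183) (nat_lit 4) (.e (nat_lit 172115) (nat_lit 10) (.e (nat_lit 434272) (nat_lit 38) (.e (nat_lit 655380) (nat_lit 6) (.e (nat_lit 188431) (nat_lit 20) .nil)))))) (.g (nat_lit 1) (.e (nat_lit 87061) (nat_lit 0) .nil) .nil))) 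
(.lf (nat_lit 471731) (.g (nat_lit 3172) (.e (nat_lit 3408) (nat_lit 212) (.e (nat_lit 655375) (nat_lit 3) (.e (nat_lit 163979) (nat_lit 30) (.e (nat_lit 573492) (nat_lit 15) (.e (nat_lit 81956) (nat_lit 23) (.e (nat_lit 98356) (nat_lit 26) (.e (nat_lit 433920) (nat_lit 0) .nil))))))) (.g (nat_lit 1) (.e (nat_lit 87990) (nat_lit 0) .nil) .nil)))) (.nd (nat_lit 9) 
(.lf (nat_lit 471475) (.g (nat_lit 1763) (.e (nat_lit 3406) (nat_lit 212) (.e (nat_lit 655378) (nat_lit 4) (.e (nat_lit 172115) (nat_lit 10) (.e (nat_lit 434272) (nat_lit 38) (.e (nat_lit 655380) (nat_lit 6) (.e (nat_lit 188440) (nat_lit 20) .nil)))))) (.g (nat_lit 1) (.e (nat_lit 87554) (nat_lit 0) .nil) .nil))) 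
(.lf (nat_lit 471987) (.g (nat_lit 2241) (.e (nat_lit 3409) (nat_lit 212) (.e (nat_lit 655376) (nat_lit 4) (.e (nat_lit 172120) (nat_lit 12) (.e (nat_lit 475199) (nat_lit 40) (.e (nat_lit 704598) (nat_lit 6) (.e (nat_lit 188435) (nat_lit 20) .nil)))))) (.g (nat_lit 1) (.e (nat_lit 88387) (nat_lit 0) .nil) .nil)))))) (.nd (nat_lit 7) (.nd (nat_lit 8) (.nd (nat_lit 9) 
(.lf (nat_lit 471155) (.g (nat_lit 1629) (.e (nat_lit 3399) (nat_lit 211) (.e (nat_lit 647185) (nat_lit 6) (.e (nat_lit 188439) (nat_lit 20) (.e (nat_lit 3408) (nat_lit 212) (.e (nat_lit 655380) (nat_lit 6) (.e (nat_lit 188431) (nat_lit 20) .nil)))))) (.g (nat_lit 1) (.e (nat_lit 86866) (nat_lit 0) .nil) .nil))) 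
(.lf (nat_lit 471667) (.g (nat_lit 3197) (.e (nat_lit 3407) (nat_lit 212) (.e (nat_lit 655380) (nat_lit 6) (.e (nat_lit 188453) (nat_lit 24) (.e (nat_lit 229665) (nat_lit 240) (.e (nat_lit 2651) (nat_lit 166) (.e (nat_lit 188439) (nat_lit 20) .nil)))))) (.g (nat_lit 1) (.e (nat_lit 87876) (nat_lit 0) .nil) .nil)))) (.nd (nat_lit 9) 
(.lf (nat_lit 471411) (.g (nat_lit 1838) (.e (nat_lit 3406) (nat_lit 212) (.e (nat_lit 655375) (nat_lit 3) (.e (nat_lit 163978) (nat_lit 30) (.e (nat_lit 573482) (nat_lit 13) .nil)))) (.g (nat_lit 0) (.e (nat_lit 87440) (nat_lit 0) .nil) .nil))) 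
(.lf (nat_lit 471923) (.g (nat_lit 4056) (.e (nat_lit 3409) (nat_lit 212) (.e (nat_lit 655375) (nat_lit 3) (.e (nat_lit 163978) (nat_lit 30) (.e (nat_lit 573479) (nat_lit 13) (.e (nat_lit 65610) (nat_lit 10) .nil))))) (.g (nat_lit 0) (.e (nat_lit 88295) (nat_lit 0) .nil) .nil))))) (.nd (nat_lit 8) (.nd (nat_lit 9) 
(.lf (nat_lit 471283) (.g (nat_lit 2419) (.e (nat_lit 3402) (nat_lit 211) (.e (nat_lit 647181) (nat_lit 3) (.e (nat_lit 163979) (nat_lit 30) (.e (nat_lit 573491) (nat_lit 15) (.e (nat_lit 81951) (nat_lit 22) (.e (nat_lit 90170) (nat_lit 13) (.e (nat_lit 172032) (nat_lit 0) .nil))))))) (.g (nat_lit 1) (.e (nat_lit 87178) (nat_lit 0) .nil) .nil))) 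
(.lf (nat_lit 471795) (.g (nat_lit 2588) (.e (nat_lit 3408) (nat_lit 212) (.e (nat_lit 655378) (nat_lit 4) (.e (nat_lit 172115) (nat_lit 10) (.e (nat_lit 434271) (nat_lit 38) (.e (nat_lit 655380) (nat_lit 6) (.e (nat_lit 188434) (nat_lit 20) .nil)))))) (.g (nat_lit 1) (.e (nat_lit 88100) (nat_lit 0) .nil) .nil)))) (.nd (nat_lit 9) 
(.lf (nat_lit 471539) (.g (nat_lit 3256) (.e (nat_lit 3406) (nat_lit 212) (.e (nat_lit 655380) (nat_lit 6) (.e (nat_lit 188455) (nat_lit 24) (.e (nat_lit 229663) (nat_lit 240) (.e (nat_lit 2651) (nat_lit 166) (.e (nat_lit 188439) (nat_lit 20) .nil)))))) (.g (nat_lit 1) (.e (nat_lit 87651) (nat_lit 0) .nil) .nil))) 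
(.lf (nat_lit 472051) (.g (nat_lit 2229) (.e (nat_lit 3409) (nat_lit 212) (.e (nat_lit 655378) (nat_lit 4) (.e (nat_lit 172120) (nat_lit 12) (.e (nat_lit 475197) (nat_lit 40) (.e (nat_lit 704598) (nat_lit 6) (.e (nat_lit 188435) (nat_lit 20) .nil)))))) (.g (nat_lit 1) (.e (nat_lit 88469) (nat_lit 0) .nil) .nil))))))))) 
(.nd (nat_lit 4) (.nd (nat_lit 5) (.nd (nat_lit 6) (.nd (nat_lit 7) (.nd (nat_lit 8) 
(.nd (nat_lit 9) 
(.lf (nat_lit 471051) (.g (nat_lit 4664) (.e (nat_lit 3399) (nat_lit 211) (.e (nat_lit 647181) (nat_lit 3) (.e (nat_lit 163979) (nat_lit 30) (.e (nat_lit 573493) (nat_lit 15) (.e (nat_lit 81956) (nat_lit 23) (.e (nat_lit 98360) (nat_lit 26) (.e (nat_lit 426025) (nat_lit 0) .nil))))))) (.g (nat_lit 1) (.e (nat_lit 86737) (nat_lit 0) .nil) .nil))) 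
(.lf (nat_lit 471563) (.g (nat_lit 2458) (.e (nat_lit 3407) (nat_lit 212) (.e (nat_lit 655375) (nat_lit 3) (.e (nat_lit 163978) (nat_lit 30) (.e (nat_lit 573481) (nat_lit 13) (.e (nat_lit 65604) (nat_lit 9) (.e (nat_lit 336013) (nat_lit 2) (.e (nat_lit 90170) (nat_lit 13) (.e (nat_lit 172042) (nat_lit 0) .nil)))))))) (.g (nat_lit 1) (.e (nat_lit 87703) (nat_lit 0) .nil) .nil)))) (.nd (nat_lit 9) 
(.lf (nat_lit 471307) (.g (nat_lit 1502) (.e (nat_lit 3402) (nat_lit 211) (.e (nat_lit 647183) (nat_lit 4) (.e (nat_lit 172082) (nat_lit 7) (.e (nat_lit 409642) (nat_lit 17) (.e (nat_lit 302848) (nat_lit 29) (.e (nat_lit 442396) (nat_lit 20) .nil)))))) (.g (nat_lit 1) (.e (nat_lit 87217) (nat_lit 0) .nil) .nil))) 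
(.lf (nat_lit 471819) (.g (nat_lit 2025) (.e (nat_lit 3408) (nat_lit 212) (.e (nat_lit 655378) (nat_lit 4) (.e (nat_lit 172118) (nat_lit 12) (.e (nat_lit 475198) (nat_lit 40) (.e (nat_lit 704599) (nat_lit 6) (.e (nat_lit 188441) (nat_lit 20) .nil)))))) (.g (nat_lit 1) (.e (nat_lit 88124) (nat_lit 0) .nil) .nil))))) (.nd (nat_lit 8) (.nd (nat_lit 9) 
(.lf (nat_lit 471179) (.g (nat_lit 3926) (.e (nat_lit 3401) (nat_lit 211) (.e (nat_lit 647181) (nat_lit 3) (.e (nat_lit 163977) (nat_lit 30) (.e (nat_lit 573485) (nat_lit 13) (.e (nat_lit 65604) (nat_lit 9) (.e (nat_lit 336028) (nat_lit 3) (.e (nat_lit 98359) (nat_lit 26) (.e (nat_lit 426023) (nat_lit 0) .nil)))))))) (.g (nat_lit 1) (.e (nat_lit 86974) (nat_lit 0) .nil) .nil))) 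
(.lf (nat_lit 471691) (.g (nat_lit 3629) (.e (nat_lit 3408) (nat_lit 212) (.e (nat_lit 655375) (nat_lit 3) (.e (nat_lit 163978) (nat_lit 30) (.e (nat_lit 573479) (nat_lit 13) (.e (nat_lit 65610) (nat_lit 10) .nil))))) (.g (nat_lit 0) (.e (nat_lit 87937) (nat_lit 0) .nil) .nil)))) (.nd (nat_lit 9) 
(.lf (nat_lit 471435) (.g (nat_lit 4121) (.e (nat_lit 3406) (nat_lit 212) (.e (nat_lit 655375) (nat_lit 3) (.e (nat_lit 163979) (nat_lit 30) (.e (nat_lit 573492) (nat_lit 15) (.e (nat_lit 81956) (nat_lit 23) (.e (nat_lit 98360) (nat_lit 26) (.e (nat_lit 426003) (nat_lit 0) .nil))))))) (.g (nat_lit 1) (.e (nat_lit 87471) (nat_lit 0) .nil) .nil))) 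
(.lf (nat_lit 471947) (.g (nat_lit 2195) (.e (nat_lit 3409) (nat_lit 212) (.e (nat_lit 655375) (nat_lit 3) (.e (nat_lit 163978) (nat_lit 30) (.e (nat_lit 573490) (nat_lit 15) .nil)))) (.g (nat_lit 0) (.e (nat_lit 88321) (nat_lit 0) .nil) .nil)))))) (.nd (nat_lit 7) (.nd (nat_lit 8) (.nd (nat_lit 9) 
(.lf (nat_lit 471115) (.g (nat_lit 1036) (.e (nat_lit 3399) (nat_lit 211) (.e (nat_lit 647183) (nat_lit 4) (.e (nat_lit 172125) (nat_lit 14) (.e (nat_lit 491571) (nat_lit 13) .nil)))) (.g (nat_lit 0) (.e (nat_lit 86809) (nat_lit 0) .nil) .nil))) 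
(.lf (nat_lit 471627) (.g (nat_lit 2260) (.e (nat_lit 3407) (nat_lit 212) (.e (nat_lit 655378) (nat_lit 4) (.e (nat_lit 172120) (nat_lit 12) (.e (nat_lit 475197) (nat_lit 40) (.e (nat_lit 704598) (nat_lit 6) (.e (nat_lit 188439) (nat_lit 20) .nil)))))) (.g (nat_lit 1) (.e (nat_lit 87807) (nat_lit 0) .nil) .nil)))) (.nd (nat_lit 9) 
(.lf (nat_lit 471371) (.g (nat_lit 1568) (.e (nat_lit 3402) (nat_lit 211) (.e (nat_lit 647183) (nat_lit 4) (.e (nat_lit 172126) (nat_lit 14) (.e (nat_lit 491566) (nat_lit 12) .nil)))) (.g (nat_lit 0) (.e (nat_lit 87296) (nat_lit 0) .nil) .nil))) 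
(.lf (nat_lit 471883) (.g (nat_lit 1347) (.e (nat_lit 3408) (nat_lit 212) (.e (nat_lit 655380) (nat_lit 6) (.e (nat_lit 188440) (nat_lit 20) (.e (nat_lit 3409) (nat_lit 212) (.e (nat_lit 655380) (nat_lit 6) (.e (nat_lit 188435) (nat_lit 20) .nil)))))) (.g (nat_lit 1) (.e (nat_lit 88211) (nat_lit 0) .nil) .nil))))) (.nd (nat_lit 8) (.nd (nat_lit 9) 
(.lf (nat_lit 471243) (.g (nat_lit 1056) (.e (nat_lit 3401) (nat_lit 211) (.e (nat_lit 647185) (nat_lit 6) (.e (nat_lit 188420) (nat_lit 0) (.e (nat_lit 2056) (nat_lit 142) (.e (nat_lit 704598) (nat_lit 6) (.e (nat_lit 188427) (nat_lit 20) .nil)))))) (.g (nat_lit 1) (.e (nat_lit 87114) (nat_lit 0) .nil) .nil))) 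
(.lf (nat_lit 471755) (.g (nat_lit 1974) (.e (nat_lit 3408) (nat_lit 212) (.e (nat_lit 655378) (nat_lit 4) (.e (nat_lit 172094) (nat_lit 9) (.e (nat_lit 426025) (nat_lit 0) (.e (nat_lit 3399) (nat_lit 211) (.e (nat_lit 647185) (nat_lit 6) (.e (nat_lit 188439) (nat_lit 20) .nil))))))) (.g (nat_lit 1) (.e (nat_lit 88051) (nat_lit 0) .nil) .nil)))) (.nd (nat_lit 9) 
(.lf (nat_lit 471499) (.g (nat_lit 2313) (.e (nat_lit 3406) (nat_lit 212) (.e (nat_lit 655378) (nat_lit 4) (.e (nat_lit 172125) (nat_lit 14) (.e (nat_lit 491549) (nat_lit 9) (.e (nat_lit 336430) (nat_lit 29) (.e (nat_lit 442409) (nat_lit 20) .nil)))))) (.g (nat_lit 1) (.e (nat_lit 87582) (nat_lit 0) .nil) .nil))) 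
(.lf (nat_lit 472011) (.g (nat_lit 1762) (.e (nat_lit 3409) (nat_lit 212) (.e (nat_lit 655378) (nat_lit 4) (.e (nat_lit 172106) (nat_lit 10) (.e (nat_lit 434209) (nat_lit 18) (.e (nat_lit 5548) (nat_lit 306) .nil))))) (.g (nat_lit 0) (.e (nat_lit 88426) (nat_lit 0) .nil) .nil))))))) (.nd (nat_lit 6) (.nd (nat_lit 7) (.nd (nat_lit 8) (.nd (nat_lit 9) 
(.lf (nat_lit 471083) (.g (nat_lit 932) (.e (nat_lit 3399) (nat_lit 211) (.e (nat_lit 647183) (nat_lit 4) (.e (nat_lit 172118) (nat_lit 12) (.e (nat_lit 475197) (nat_lit 40) .nil)))) (.g (nat_lit 0) (.e (nat_lit 86777) (nat_lit 0) .nil) .nil))) 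
(.lf (nat_lit 471595) (.g (nat_lit 1673) (.e (nat_lit 3407) (nat_lit 212) (.e (nat_lit 655378) (nat_lit 4) (.e (nat_lit 172097) (nat_lit 9) (.e (nat_lit 426025) (nat_lit 0) (.e (nat_lit 3399) (nat_lit 211) .nil))))) (.g (nat_lit 0) (.e (nat_lit 87770) (nat_lit 0) .nil) .nil)))) (.nd (nat_lit 9) 
(.lf (nat_lit 471339) (.g (nat_lit 2259) (.e (nat_lit 3402) (nat_lit 211) (.e (nat_lit 647183) (nat_lit 4) (.e (nat_lit 172115) (nat_lit 10) (.e (nat_lit 434271) (nat_lit 38) (.e (nat_lit 655380) (nat_lit 6) (.e (nat_lit 188427) (nat_lit 20) .nil)))))) (.g (nat_lit 1) (.e (nat_lit 87264) (nat_lit 0) .nil) .nil))) 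
(.lf (nat_lit 471851) (.g (nat_lit 1045) (.e (nat_lit 3408) (nat_lit 212) (.e (nat_lit 655380) (nat_lit 6) (.e (nat_lit 188418) (nat_lit 0) (.e (nat_lit 2057) (nat_lit 142) (.e (nat_lit 704598) (nat_lit 6) (.e (nat_lit 188435) (nat_lit 20) .nil)))))) (.g (nat_lit 1) (.e (nat_lit 88179) (nat_lit 0) .nil) .nil))))) (.nd (nat_lit 8) (.nd (nat_lit 9) 
(.lf (nat_lit 471211) (.g (nat_lit 1924) (.e (nat_lit 3401) (nat_lit 211) (.e (nat_lit 647183) (nat_lit 4) (.e (nat_lit 172107) (nat_lit 10) (.e (nat_lit 434272) (nat_lit 38) (.e (nat_lit 655380) (nat_lit 6) (.e (nat_lit 188427) (nat_lit 20) .nil)))))) (.g (nat_lit 1) (.e (nat_lit 87043) (nat_lit 0) .nil) .nil))) 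
(.lf (nat_lit 471723) (.g (nat_lit 3821) (.e (nat_lit 3408) (nat_lit 212) (.e (nat_lit 655375) (nat_lit 3) (.e (nat_lit 163979) (nat_lit 30) (.e (nat_lit 573485) (nat_lit 13) (.e (nat_lit 65604) (nat_lit 9) (.e (nat_lit 336013) (nat_lit 2) (.e (nat_lit 90170) (nat_lit 13) (.e (nat_lit 172042) (nat_lit 0) .nil)))))))) (.g (nat_lit 1) (.e (nat_lit 87982) (nat_lit 0) .nil) .nil)))) (.nd (nat_lit 9) 
(.lf (nat_lit 471467) (.g (nat_lit 2163) (.e (nat_lit 3406) (nat_lit 212) (.e (nat_lit 655378) (nat_lit 4) (.e (nat_lit 172113) (nat_lit 10) (.e (nat_lit 434272) (nat_lit 38) (.e (nat_lit 655380) (nat_lit 6) (.e (nat_lit 188439) (nat_lit 20) .nil)))))) (.g (nat_lit 1) (.e (nat_lit 87545) (nat_lit 0) .nil) .nil))) 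
(.lf (nat_lit 471979) (.g (nat_lit 5203) (.e (nat_lit 3409) (nat_lit 212) (.e (nat_lit 655375) (nat_lit 3) (.e (nat_lit 163979) (nat_lit 30) (.e (nat_lit 573492) (nat_lit 15) (.e (nat_lit 81956) (nat_lit 23) (.e (nat_lit 98362) (nat_lit 26) (.e (nat_lit 426048) (nat_lit 0) .nil))))))) (.g (nat_lit 1) (.e (nat_lit 88378) (nat_lit 0) .nil) .nil)))))) 
(.nd (nat_lit 7) (.nd (nat_lit 8) (.nd (nat_lit 9) 
(.lf (nat_lit 471147) (.g (nat_lit 1784) (.e (nat_lit 3399) (nat_lit 211) (.e (nat_lit 647185) (nat_lit 6) (.e (nat_lit 188431) (nat_lit 20) (.e (nat_lit 3399) (nat_lit 211) (.e (nat_lit 647185) (nat_lit 6) (.e (nat_lit 188431) (nat_lit 20) .nil)))))) (.g (nat_lit 1) (.e (nat_lit 86858) (nat_lit 0) .nil) .nil))) 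
(.lf (nat_lit 471659) (.g (nat_lit 1451) (.e (nat_lit 3407) (nat_lit 212) (.e (nat_lit 655380) (nat_lit 6) (.e (nat_lit 188440) (nat_lit 20) (.e (nat_lit 3408) (nat_lit 212) (.e (nat_lit 655380) (nat_lit 6) (.e (nat_lit 188439) (nat_lit 20) .nil)))))) (.g (nat_lit 1) (.e (nat_lit 87861) (nat_lit 0) .nil) .nil)))) (.nd (nat_lit 9) 
(.lf (nat_lit 471403) (.g (nat_lit 4047) (.e (nat_lit 3406) (nat_lit 212) (.e (nat_lit 655375) (nat_lit 3) (.e (nat_lit 163978) (nat_lit 30) (.e (nat_lit 573479) (nat_lit 13) (.e (nat_lit 65610) (nat_lit 10) .nil))))) (.g (nat_lit 0) (.e (nat_lit 87432) (nat_lit 0) .nil) .nil))) 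
(.lf (nat_lit 471915) (.g (nat_lit 338) (.e (nat_lit 3409) (nat_lit 212) (.e (nat_lit 655375) (nat_lit 3) (.e (nat_lit 163978) (nat_lit 30) .nil))) (.g (nat_lit 0) (.e (nat_lit 88287) (nat_lit 0) .nil) .nil))))) (.nd (nat_lit 8) (.nd (nat_lit 9) 
(.lf (nat_lit 471275) (.g (nat_lit 4368) (.e (nat_lit 3402) (nat_lit 211) (.e (nat_lit 647181) (nat_lit 3) (.e (nat_lit 163977) (nat_lit 30) (.e (nat_lit 573493) (nat_lit 15) (.e (nat_lit 81956) (nat_lit 23) (.e (nat_lit 98359) (nat_lit 26) (.e (nat_lit 426022) (nat_lit 0) .nil))))))) (.g (nat_lit 1) (.e (nat_lit 87170) (nat_lit 0) .nil) .nil))) 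
(.lf (nat_lit 471787) (.g (nat_lit 1854) (.e (nat_lit 3408) (nat_lit 212) (.e (nat_lit 655378) (nat_lit 4) (.e (nat_lit 172113) (nat_lit 10) (.e (nat_lit 434271) (nat_lit 38) (.e (nat_lit 655380) (nat_lit 6) (.e (nat_lit 188438) (nat_lit 20) .nil)))))) (.g (nat_lit 1) (.e (nat_lit 88091) (nat_lit 0) .nil) .nil)))) (.nd (nat_lit 9) 
(.lf (nat_lit 471531) (.g (nat_lit 816) (.e (nat_lit 3406) (nat_lit 212) (.e (nat_lit 655380) (nat_lit 6) (.e (nat_lit 188440) (nat_lit 20) (.e (nat_lit 3409) (nat_lit 212) (.e (nat_lit 655380) (nat_lit 6) .nil))))) (.g (nat_lit 0) (.e (nat_lit 87639) (nat_lit 0) .nil) .nil))) 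
(.lf (nat_lit 472043) (.g (nat_lit 1356) (.e (nat_lit 3409) (nat_lit 212) (.e (nat_lit 655378) (nat_lit 4) (.e (nat_lit 172118) (nat_lit 12) (.e (nat_lit 475197) (nat_lit 40) (.e (nat_lit 704598) (nat_lit 6) (.e (nat_lit 188435) (nat_lit 20) .nil)))))) (.g (nat_lit 1) (.e (nat_lit 88460) (nat_lit 0) .nil) .nil)))))))) 
(.nd (nat_lit 5) (.nd (nat_lit 6) (.nd (nat_lit 7) (.nd (nat_lit 8) (.nd (nat_lit 9) 
(.lf (nat_lit 471067) (.g (nat_lit 1519) (.e (nat_lit 3399) (nat_lit 211) (.e (nat_lit 647183) (nat_lit 4) (.e (nat_lit 172097) (nat_lit 9) (.e (nat_lit 426025) (nat_lit 0) (.e (nat_lit 3399) (nat_lit 211) .nil))))) (.g (nat_lit 0) (.e (nat_lit 86759) (nat_lit 0) .nil) .nil))) 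
(.lf (nat_lit 471579) (.g (nat_lit 4420) (.e (nat_lit 3407) (nat_lit 212) (.e (nat_lit 655375) (nat_lit 3) (.e (nat_lit 163979) (nat_lit 30) (.e (nat_lit 573482) (nat_lit 13) (.e (nat_lit 65604) (nat_lit 9) (.e (nat_lit 336028) (nat_lit 3) (.e (nat_lit 98359) (nat_lit 26) (.e (nat_lit 426043) (nat_lit 0) .nil)))))))) (.g (nat_lit 1) (.e (nat_lit 87729) (nat_lit 0) .nil) .nil)))) (.nd (nat_lit 9) 
(.lf (nat_lit 471323) (.g (nat_lit 1952) (.e (nat_lit 3402) (nat_lit 211) (.e (nat_lit 647183) (nat_lit 4) (.e (nat_lit 172107) (nat_lit 10) (.e (nat_lit 434271) (nat_lit 38) (.e (nat_lit 655380) (nat_lit 6) (.e (nat_lit 188427) (nat_lit 20) .nil)))))) (.g (nat_lit 1) (.e (nat_lit 87243) (nat_lit 0) .nil) .nil))) 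
(.lf (nat_lit 471835) (.g (nat_lit 2178) (.e (nat_lit 3408) (nat_lit 212) (.e (nat_lit 655378) (nat_lit 4) (.e (nat_lit 172120) (nat_lit 12) (.e (nat_lit 475198) (nat_lit 40) (.e (nat_lit 704599) (nat_lit 6) (.e (nat_lit 188441) (nat_lit 20) .nil)))))) (.g (nat_lit 1) (.e (nat_lit 88144) (nat_lit 0) .nil) .nil))))) (.nd (nat_lit 8) (.nd (nat_lit 9) 
(.lf (nat_lit 471195) (.g (nat_lit 4787) (.e (nat_lit 3401) (nat_lit 211) (.e (nat_lit 647181) (nat_lit 3) (.e (nat_lit 163978) (nat_lit 30) (.e (nat_lit 573485) (nat_lit 13) (.e (nat_lit 65619) (nat_lit 10) (.e (nat_lit 344117) (nat_lit 21) (.e (nat_lit 516151) (nat_lit 9) (.e (nat_lit 426023) (nat_lit 0) .nil)))))))) (.g (nat_lit 1) (.e (nat_lit 86990) (nat_lit 0) .nil) .nil))) 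
(.lf (nat_lit 471707) (.g (nat_lit 2709) (.e (nat_lit 3408) (nat_lit 212) (.e (nat_lit 655375) (nat_lit 3) (.e (nat_lit 163978) (nat_lit 30) (.e (nat_lit 573490) (nat_lit 15) (.e (nat_lit 81952) (nat_lit 22) .nil))))) (.g (nat_lit 0) (.e (nat_lit 87953) (nat_lit 0) .nil) .nil)))) (.nd (nat_lit 9) 
(.lf (nat_lit 471451) (.g (nat_lit 1328) (.e (nat_lit 3406) (nat_lit 212) (.e (nat_lit 655378) (nat_lit 4) (.e (nat_lit 172106) (nat_lit 10) (.e (nat_lit 434271) (nat_lit 38) (.e (nat_lit 655380) (nat_lit 6) (.e (nat_lit 188440) (nat_lit 20) .nil)))))) (.g (nat_lit 1) (.e (nat_lit 87529) (nat_lit 0) .nil) .nil))) 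
(.lf (nat_lit 471963) (.g (nat_lit 2157) (.e (nat_lit 3409) (nat_lit 212) (.e (nat_lit 655375) (nat_lit 3) (.e (nat_lit 163979) (nat_lit 30) (.e (nat_lit 573482) (nat_lit 13) (.e (nat_lit 65604) (nat_lit 9) (.e (nat_lit 336028) (nat_lit 3) (.e (nat_lit 98359) (nat_lit 26) (.e (nat_lit 426003) (nat_lit 0) .nil)))))))) (.g (nat_lit 1) (.e (nat_lit 88360) (nat_lit 0) .nil) .nil)))))) 
(.nd (nat_lit 7) (.nd (nat_lit 8) (.nd (nat_lit 9) 
(.lf (nat_lit 471131) (.g (nat_lit 2283) (.e (nat_lit 3399) (nat_lit 211) (.e (nat_lit 647183) (nat_lit 4) (.e (nat_lit 172126) (nat_lit 14) (.e (nat_lit 491569) (nat_lit 13) (.e (nat_lit 393277) (nat_lit 23) (.e (nat_lit 426025) (nat_lit 0) .nil)))))) (.g (nat_lit 1) (.e (nat_lit 86825) (nat_lit 0) .nil) .nil))) 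
(.lf (nat_lit 471643) (.g (nat_lit 1524) (.e (nat_lit 3407) (nat_lit 212) (.e (nat_lit 655380) (nat_lit 6) (.e (nat_lit 188434) (nat_lit 20) (.e (nat_lit 3408) (nat_lit 212) (.e (nat_lit 655380) (nat_lit 6) (.e (nat_lit 188439) (nat_lit 20) .nil)))))) (.g (nat_lit 1) (.e (nat_lit 87845) (nat_lit 0) .nil) .nil)))) (.nd (nat_lit 9) 
(.lf (nat_lit 471387) (.g (nat_lit 1232) (.e (nat_lit 3403) (nat_lit 212) (.e (nat_lit 655378) (nat_lit 4) (.e (nat_lit 172113) (nat_lit 10) (.e (nat_lit 434272) (nat_lit 38) .nil)))) (.g (nat_lit 0) (.e (nat_lit 87380) (nat_lit 0) .nil) .nil))) 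
(.lf (nat_lit 471899) (.g (nat_lit 2778) (.e (nat_lit 3409) (nat_lit 212) (.e (nat_lit 655364) (nat_lit 0) (.e (nat_lit 2988) (nat_lit 186) (.e (nat_lit 442374) (nat_lit 0) (.e (nat_lit 2059) (nat_lit 142) (.e (nat_lit 704598) (nat_lit 6) (.e (nat_lit 188439) (nat_lit 20) .nil))))))) (.g (nat_lit 1) (.e (nat_lit 88240) (nat_lit 0) .nil) .nil))))) (.nd (nat_lit 8) (.nd (nat_lit 9) 
(.lf (nat_lit 471259) (.g (nat_lit 2656) (.e (nat_lit 3402) (nat_lit 211) (.e (nat_lit 647181) (nat_lit 3) (.e (nat_lit 163977) (nat_lit 30) (.e (nat_lit 573482) (nat_lit 13) (.e (nat_lit 65604) (nat_lit 9) (.e (nat_lit 336028) (nat_lit 3) (.e (nat_lit 98359) (nat_lit 26) (.e (nat_lit 426003) (nat_lit 0) .nil)))))))) (.g (nat_lit 1) (.e (nat_lit 87154) (nat_lit 0) .nil) .nil))) 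
(.lf (nat_lit 471771) (.g (nat_lit 2297) (.e (nat_lit 3408) (nat_lit 212) (.e (nat_lit 655378) (nat_lit 4) (.e (nat_lit 172107) (nat_lit 10) (.e (nat_lit 434271) (nat_lit 38) (.e (nat_lit 655380) (nat_lit 6) (.e (nat_lit 188440) (nat_lit 20) .nil)))))) (.g (nat_lit 1) (.e (nat_lit 88074) (nat_lit 0) .nil) .nil)))) (.nd (nat_lit 9) 
(.lf (nat_lit 471515) (.g (nat_lit 1596) (.e (nat_lit 3406) (nat_lit 212) (.e (nat_lit 655380) (nat_lit 6) (.e (nat_lit 188420) (nat_lit 0) (.e (nat_lit 2059) (nat_lit 142) (.e (nat_lit 704598) (nat_lit 6) (.e (nat_lit 188439) (nat_lit 20) .nil)))))) (.g (nat_lit 1) (.e (nat_lit 87622) (nat_lit 0) .nil) .nil))) 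
(.lf (nat_lit 472027) (.g (nat_lit 2299) (.e (nat_lit 3409) (nat_lit 212) (.e (nat_lit 655378) (nat_lit 4) (.e (nat_lit 172112) (nat_lit 10) (.e (nat_lit 434272) (nat_lit 38) (.e (nat_lit 655380) (nat_lit 6) (.e (nat_lit 188434) (nat_lit 20) .nil)))))) (.g (nat_lit 1) (.e (nat_lit 88442) (nat_lit 0) .nil) .nil))))))) (.nd (nat_lit 6) (.nd (nat_lit 7) (.nd (nat_lit 8) (.nd (nat_lit 9) 
(.lf (nat_lit 471099) (.g (nat_lit 1345) (.e (nat_lit 3399) (nat_lit 211) (.e (nat_lit 647183) (nat_lit 4) (.e (nat_lit 172124) (nat_lit 14) (.e (nat_lit 491549) (nat_lit 9) (.e (nat_lit 336395) (nat_lit 27) .nil))))) (.g (nat_lit 0) (.e (nat_lit 86793) (nat_lit 0) .nil) .nil))) 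
(.lf (nat_lit 471611) (.g (nat_lit 1987) (.e (nat_lit 3407) (nat_lit 212) (.e (nat_lit 655378) (nat_lit 4) (.e (nat_lit 172113) (nat_lit 10) (.e (nat_lit 434272) (nat_lit 38) (.e (nat_lit 655380) (nat_lit 6) (.e (nat_lit 188438) (nat_lit 20) .nil)))))) (.g (nat_lit 1) (.e (nat_lit 87790) (nat_lit 0) .nil) .nil)))) (.nd (nat_lit 9) 
(.lf (nat_lit 471355) (.g (nat_lit 2190) (.e (nat_lit 3402) (nat_lit 211) (.e (nat_lit 647183) (nat_lit 4) (.e (nat_lit 172119) (nat_lit 12) (.e (nat_lit 475199) (nat_lit 40) (.e (nat_lit 704598) (nat_lit 6) (.e (nat_lit 188431) (nat_lit 20) .nil)))))) (.g (nat_lit 1) (.e (nat_lit 87280) (nat_lit 0) .nil) .nil))) 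
(.lf (nat_lit 471867) (.g (nat_lit 1104) (.e (nat_lit 3408) (nat_lit 212) (.e (nat_lit 655380) (nat_lit 6) (.e (nat_lit 188435) (nat_lit 20) (.e (nat_lit 3408) (nat_lit 212) (.e (nat_lit 655380) (nat_lit 6) (.e (nat_lit 188435) (nat_lit 20) .nil)))))) (.g (nat_lit 1) (.e (nat_lit 88195) (nat_lit 0) .nil) .nil))))) (.nd (nat_lit 8) (.nd (nat_lit 9) 
(.lf (nat_lit 471227) (.g (nat_lit 2282) (.e (nat_lit 3401) (nat_lit 211) (.e (nat_lit 647183) (nat_lit 4) (.e (nat_lit 172120) (nat_lit 12) (.e (nat_lit 475198) (nat_lit 40) (.e (nat_lit 704598) (nat_lit 6) (.e (nat_lit 188431) (nat_lit 20) .nil)))))) (.g (nat_lit 1) (.e (nat_lit 87081) (nat_lit 0) .nil) .nil))) 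
(.lf (nat_lit 471739) (.g (nat_lit 4286) (.e (nat_lit 3408) (nat_lit 212) (.e (nat_lit 655375) (nat_lit 3) (.e (nat_lit 163979) (nat_lit 30) (.e (nat_lit 573493) (nat_lit 15) (.e (nat_lit 81953) (nat_lit 22) (.e (nat_lit 90170) (nat_lit 13) (.e (nat_lit 172049) (nat_lit 0) .nil))))))) (.g (nat_lit 1) (.e (nat_lit 87998) (nat_lit 0) .nil) .nil)))) (.nd (nat_lit 9) 
(.lf (nat_lit 471483) (.g (nat_lit 439) (.e (nat_lit 3406) (nat_lit 212) (.e (nat_lit 655378) (nat_lit 4) (.e (nat_lit 172118) (nat_lit 12) .nil))) (.g (nat_lit 0) (.e (nat_lit 87562) (nat_lit 0) .nil) .nil))) 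
(.lf (nat_lit 471995) (.g (nat_lit 1553) (.e (nat_lit 3409) (nat_lit 212) (.e (nat_lit 655378) (nat_lit 4) (.e (nat_lit 172079) (nat_lit 7) (.e (nat_lit 409618) (nat_lit 10) (.e (nat_lit 5364) (nat_lit 298) .nil))))) (.g (nat_lit 0) (.e (nat_lit 88406) (nat_lit 0) .nil) .nil)))))) (.nd (nat_lit 7) (.nd (nat_lit 8) (.nd (nat_lit 9) 
(.lf (nat_lit 471163) (.g (nat_lit 1437) (.e (nat_lit 3399) (nat_lit 211) (.e (nat_lit 647185) (nat_lit 6) (.e (nat_lit 188453) (nat_lit 24) (.e (nat_lit 229665) (nat_lit 240) (.e (nat_lit 7936) (nat_lit 166) .nil))))) (.g (nat_lit 0) (.e (nat_lit 86878) (nat_lit 0) .nil) .nil))) 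
(.lf (nat_lit 471675) (.g (nat_lit 457) (.e (nat_lit 3408) (nat_lit 212) (.e (nat_lit 655364) (nat_lit 0) (.e (nat_lit 3004) (nat_lit 186) .nil))) (.g (nat_lit 0) (.e (nat_lit 87901) (nat_lit 0) .nil) .nil)))) (.nd (nat_lit 9) 
(.lf (nat_lit 471419) (.g (nat_lit 2039) (.e (nat_lit 3406) (nat_lit 212) (.e (nat_lit 655375) (nat_lit 3) (.e (nat_lit 163978) (nat_lit 30) (.e (nat_lit 573485) (nat_lit 13) (.e (nat_lit 65604) (nat_lit 9) (.e (nat_lit 336028) (nat_lit 3) (.e (nat_lit 98359) (nat_lit 26) (.e (nat_lit 426042) (nat_lit 0) .nil)))))))) (.g (nat_lit 1) (.e (nat_lit 87448) (nat_lit 0) .nil) .nil))) 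
(.lf (nat_lit 471931) (.g (nat_lit 1818) (.e (nat_lit 3409) (nat_lit 212) (.e (nat_lit 655375) (nat_lit 3) (.e (nat_lit 163978) (nat_lit 30) (.e (nat_lit 573482) (nat_lit 13) .nil)))) (.g (nat_lit 0) (.e (nat_lit 88303) (nat_lit 0) .nil) .nil))))) (.nd (nat_lit 8) (.nd (nat_lit 9) 
(.lf (nat_lit 471291) (.g (nat_lit 1816) (.e (nat_lit 3402) (nat_lit 211) (.e (nat_lit 647183) (nat_lit 4) (.e (nat_lit 172079) (nat_lit 7) (.e (nat_lit 409642) (nat_lit 17) (.e (nat_lit 294974) (nat_lit 29) (.e (nat_lit 442398) (nat_lit 20) .nil)))))) (.g (nat_lit 1) (.e (nat_lit 87201) (nat_lit 0) .nil) .nil))) 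
(.lf (nat_lit 471803) (.g (nat_lit 2087) (.e (nat_lit 3408) (nat_lit 212) (.e (nat_lit 655378) (nat_lit 4) (.e (nat_lit 172116) (nat_lit 10) (.e (nat_lit 434271) (nat_lit 38) (.e (nat_lit 655380) (nat_lit 6) (.e (nat_lit 188434) (nat_lit 20) .nil)))))) (.g (nat_lit 1) (.e (nat_lit 88108) (nat_lit 0) .nil) .nil)))) (.nd (nat_lit 9) 
(.lf (nat_lit 471547) (.g (nat_lit 4112) (.e (nat_lit 3407) (nat_lit 212) (.e (nat_lit 655375) (nat_lit 3) (.e (nat_lit 163977) (nat_lit 30) (.e (nat_lit 573482) (nat_lit 13) (.e (nat_lit 65604) (nat_lit 9) (.e (nat_lit 336013) (nat_lit 2) (.e (nat_lit 90170) (nat_lit 13) (.e (nat_lit 172049) (nat_lit 0) .nil)))))))) (.g (nat_lit 1) (.e (nat_lit 87687) (nat_lit 0) .nil) .nil))) 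
(.lf (nat_lit 472059) (.g (nat_lit 412) (.e (nat_lit 3409) (nat_lit 212) (.e (nat_lit 655378) (nat_lit 4) (.e (nat_lit 172125) (nat_lit 14) .nil))) (.g (nat_lit 0) (.e (nat_lit 88477) (nat_lit 0) .nil) .nil)))))))))) (.nd (nat_lit 3) (.nd (nat_lit 4) (.nd (nat_lit 5) (.nd (nat_lit 6) (.nd (nat_lit 7) (.nd (nat_lit 8) (.nd (nat_lit 9) 
(.lf (nat_lit 471047) (.g (nat_lit 3102) (.e (nat_lit 3399) (nat_lit 211) (.e (nat_lit 647181) (nat_lit 3) (.e (nat_lit 163979) (nat_lit 30) (.e (nat_lit 573492) (nat_lit 15) (.e (nat_lit 81956) (nat_lit 23) (.e (nat_lit 98355) (nat_lit 26) (.e (nat_lit 425998) (nat_lit 0) .nil))))))) (.g (nat_lit 1) (.e (nat_lit 86733) (nat_lit 0) .nil) .nil))) 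
(.lf (nat_lit 471559) (.g (nat_lit 4016) (.e (nat_lit 3407) (nat_lit 212) (.e (nat_lit 655375) (nat_lit 3) (.e (nat_lit 163978) (nat_lit 30) (.e (nat_lit 573479) (nat_lit 13) (.e (nat_lit 65604) (nat_lit 9) (.e (nat_lit 336013) (nat_lit 2) (.e (nat_lit 90170) (nat_lit 13) (.e (nat_lit 172046) (nat_lit 0) .nil)))))))) (.g (nat_lit 1) (.e (nat_lit 87699) (nat_lit 0) .nil) .nil)))) (.nd (nat_lit 9) 
(.lf (nat_lit 471303) (.g (nat_lit 993) (.e (nat_lit 3402) (nat_lit 211) (.e (nat_lit 647183) (nat_lit 4) (.e (nat_lit 172081) (nat_lit 7) (.e (nat_lit 409642) (nat_lit 17) (.e (nat_lit 302848) (nat_lit 29) (.e (nat_lit 442396) (nat_lit 20) .nil)))))) (.g (nat_lit 1) (.e (nat_lit 87213) (nat_lit 0) .nil) .nil))) 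
(.lf (nat_lit 471815) (.g (nat_lit 2704) (.e (nat_lit 3408) (nat_lit 212) (.e (nat_lit 655378) (nat_lit 4) (.e (nat_lit 172118) (nat_lit 12) (.e (nat_lit 475198) (nat_lit 40) (.e (nat_lit 704598) (nat_lit 6) (.e (nat_lit 188434) (nat_lit 20) .nil)))))) (.g (nat_lit 1) (.e (nat_lit 88120) (nat_lit 0) .nil) .nil))))) (.nd (nat_lit 8) (.nd (nat_lit 9) 
(.lf (nat_lit 471175) (.g (nat_lit 4606) (.e (nat_lit 3401) (nat_lit 211) (.e (nat_lit 647181) (nat_lit 3) (.e (nat_lit 163977) (nat_lit 30) (.e (nat_lit 573484) (nat_lit 13) (.e (nat_lit 65610) (nat_lit 10) (.e (nat_lit 344117) (nat_lit 21) (.e (nat_lit 516151) (nat_lit 9) (.e (nat_lit 426023) (nat_lit 0) .nil)))))))) (.g (nat_lit 1) (.e (nat_lit 86970) (nat_lit 0) .nil) .nil))) 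
(.lf (nat_lit 471687) (.g (nat_lit 3981) (.e (nat_lit 3408) (nat_lit 212) (.e (nat_lit 655375) (nat_lit 3) (.e (nat_lit 163977) (nat_lit 30) (.e (nat_lit 573493) (nat_lit 15) (.e (nat_lit 81953) (nat_lit 22) (.e (nat_lit 90170) (nat_lit 13) (.e (nat_lit 172049) (nat_lit 0) .nil))))))) (.g (nat_lit 1) (.e (nat_lit 87933) (nat_lit 0) .nil) .nil)))) (.nd (nat_lit 9) 
(.lf (nat_lit 471431) (.g (nat_lit 4515) (.e (nat_lit 3406) (nat_lit 212) (.e (nat_lit 655375) (nat_lit 3) (.e (nat_lit 163979) (nat_lit 30) (.e (nat_lit 573492) (nat_lit 15) (.e (nat_lit 81956) (nat_lit 23) (.e (nat_lit 98356) (nat_lit 26) (.e (nat_lit 426091) (nat_lit 0) .nil))))))) (.g (nat_lit 1) (.e (nat_lit 87467) (nat_lit 0) .nil) .nil))) 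
(.lf (nat_lit 471943) (.g (nat_lit 2188) (.e (nat_lit 3409) (nat_lit 212) (.e (nat_lit 655375) (nat_lit 3) (.e (nat_lit 163978) (nat_lit 30) (.e (nat_lit 573485) (nat_lit 13) (.e (nat_lit 65604) (nat_lit 9) (.e (nat_lit 336028) (nat_lit 3) (.e (nat_lit 98359) (nat_lit 26) (.e (nat_lit 426003) (nat_lit 0) .nil)))))))) (.g (nat_lit 1) (.e (nat_lit 88315) (nat_lit 0) .nil) .nil)))))) 
(.nd (nat_lit 7) (.nd (nat_lit 8) (.nd (nat_lit 9) 
(.lf (nat_lit 471111) (.g (nat_lit 2939) (.e (nat_lit 3399) (nat_lit 211) (.e (nat_lit 647183) (nat_lit 4) (.e (nat_lit 172124) (nat_lit 14) (.e (nat_lit 491571) (nat_lit 13) (.e (nat_lit 393274) (nat_lit 23) (.e (nat_lit 426025) (nat_lit 0) .nil)))))) (.g (nat_lit 1) (.e (nat_lit 86805) (nat_lit 0) .nil) .nil))) 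
(.lf (nat_lit 471623) (.g (nat_lit 2266) (.e (nat_lit 3407) (nat_lit 212) (.e (nat_lit 655378) (nat_lit 4) (.e (nat_lit 172118) (nat_lit 12) (.e (nat_lit 475199) (nat_lit 40) (.e (nat_lit 704598) (nat_lit 6) (.e (nat_lit 188439) (nat_lit 20) .nil)))))) (.g (nat_lit 1) (.e (nat_lit 87803) (nat_lit 0) .nil) .nil)))) (.nd (nat_lit 9) 
(.lf (nat_lit 471367) (.g (nat_lit 1762) (.e (nat_lit 3402) (nat_lit 211) (.e (nat_lit 647183) (nat_lit 4) (.e (nat_lit 172124) (nat_lit 14) (.e (nat_lit 491571) (nat_lit 13) (.e (nat_lit 393274) (nat_lit 23) .nil))))) (.g (nat_lit 0) (.e (nat_lit 87292) (nat_lit 0) .nil) .nil))) 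
(.lf (nat_lit 471879) (.g (nat_lit 1410) (.e (nat_lit 3408) (nat_lit 212) (.e (nat_lit 655380) (nat_lit 6) (.e (nat_lit 188440) (nat_lit 20) (.e (nat_lit 3408) (nat_lit 212) (.e (nat_lit 655380) (nat_lit 6) (.e (nat_lit 188438) (nat_lit 20) .nil)))))) (.g (nat_lit 1) (.e (nat_lit 88207) (nat_lit 0) .nil) .nil))))) (.nd (nat_lit 8) (.nd (nat_lit 9) 
(.lf (nat_lit 471239) (.g (nat_lit 705) (.e (nat_lit 3401) (nat_lit 211) (.e (nat_lit 647185) (nat_lit 6) (.e (nat_lit 188418) (nat_lit 0) (.e (nat_lit 2056) (nat_lit 142) .nil)))) (.g (nat_lit 0) (.e (nat_lit 87109) (nat_lit 0) .nil) .nil))) 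
(.lf (nat_lit 471751) (.g (nat_lit 1844) (.e (nat_lit 3408) (nat_lit 212) (.e (nat_lit 655378) (nat_lit 4) (.e (nat_lit 172094) (nat_lit 9) (.e (nat_lit 426025) (nat_lit 0) (.e (nat_lit 3397) (nat_lit 211) .nil))))) (.g (nat_lit 0) (.e (nat_lit 88047) (nat_lit 0) .nil) .nil)))) (.nd (nat_lit 9) 
(.lf (nat_lit 471495) (.g (nat_lit 1976) (.e (nat_lit 3406) (nat_lit 212) (.e (nat_lit 655378) (nat_lit 4) (.e (nat_lit 172120) (nat_lit 12) (.e (nat_lit 475198) (nat_lit 40) (.e (nat_lit 704599) (nat_lit 6) (.e (nat_lit 188440) (nat_lit 20) .nil)))))) (.g (nat_lit 1) (.e (nat_lit 87577) (nat_lit 0) .nil) .nil))) 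
(.lf (nat_lit 472007) (.g (nat_lit 632) (.e (nat_lit 3409) (nat_lit 212) (.e (nat_lit 655378) (nat_lit 4) (.e (nat_lit 172095) (nat_lit 9) .nil))) (.g (nat_lit 0) (.e (nat_lit 88422) (nat_lit 0) .nil) .nil))))))) (.nd (nat_lit 6) (.nd (nat_lit 7) (.nd (nat_lit 8) (.nd (nat_lit 9) 
(.lf (nat_lit 471079) (.g (nat_lit 2089) (.e (nat_lit 3399) (nat_lit 211) (.e (nat_lit 647183) (nat_lit 4) (.e (nat_lit 172113) (nat_lit 10) (.e (nat_lit 434271) (nat_lit 38) (.e (nat_lit 655380) (nat_lit 6) (.e (nat_lit 188430) (nat_lit 20) .nil)))))) (.g (nat_lit 1) (.e (nat_lit 86772) (nat_lit 0) .nil) .nil))) 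
(.lf (nat_lit 471591) (.g (nat_lit 446) (.e (nat_lit 3407) (nat_lit 212) (.e (nat_lit 655378) (nat_lit 4) (.e (nat_lit 172033) (nat_lit 0) .nil))) (.g (nat_lit 0) (.e (nat_lit 87743) (nat_lit 0) .nil) .nil)))) (.nd (nat_lit 9) 
(.lf (nat_lit 471335) (.g (nat_lit 2424) (.e (nat_lit 3402) (nat_lit 211) (.e (nat_lit 647183) (nat_lit 4) (.e (nat_lit 172115) (nat_lit 10) (.e (nat_lit 434209) (nat_lit 18) (.e (nat_lit 5546) (nat_lit 306) (.e (nat_lit 2648) (nat_lit 166) (.e (nat_lit 188428) (nat_lit 20) .nil))))))) (.g (nat_lit 1) (.e (nat_lit 87259) (nat_lit 0) .nil) .nil))) 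
(.lf (nat_lit 471847) (.g (nat_lit 2757) (.e (nat_lit 3408) (nat_lit 212) (.e (nat_lit 655378) (nat_lit 4) (.e (nat_lit 172125) (nat_lit 14) (.e (nat_lit 491550) (nat_lit 9) (.e (nat_lit 336430) (nat_lit 29) (.e (nat_lit 442402) (nat_lit 20) .nil)))))) (.g (nat_lit 1) (.e (nat_lit 88160) (nat_lit 0) .nil) .nil))))) (.nd (nat_lit 8) (.nd (nat_lit 9) 
(.lf (nat_lit 471207) (.g (nat_lit 1324) (.e (nat_lit 3401) (nat_lit 211) (.e (nat_lit 647183) (nat_lit 4) (.e (nat_lit 172105) (nat_lit 10) (.e (nat_lit 434272) (nat_lit 38) (.e (nat_lit 655380) (nat_lit 6) (.e (nat_lit 188431) (nat_lit 20) .nil)))))) (.g (nat_lit 1) (.e (nat_lit 87029) (nat_lit 0) .nil) .nil))) 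
(.lf (nat_lit 471719) (.g (nat_lit 2828) (.e (nat_lit 3408) (nat_lit 212) (.e (nat_lit 655375) (nat_lit 3) (.e (nat_lit 163979) (nat_lit 30) (.e (nat_lit 573479) (nat_lit 13) (.e (nat_lit 65619) (nat_lit 10) .nil))))) (.g (nat_lit 0) (.e (nat_lit 87978) (nat_lit 0) .nil) .nil)))) (.nd (nat_lit 9) 
(.lf (nat_lit 471463) (.g (nat_lit 2435) (.e (nat_lit 3406) (nat_lit 212) (.e (nat_lit 655378) (nat_lit 4) (.e (nat_lit 172113) (nat_lit 10) (.e (nat_lit 434271) (nat_lit 38) (.e (nat_lit 655380) (nat_lit 6) (.e (nat_lit 188434) (nat_lit 20) .nil)))))) (.g (nat_lit 1) (.e (nat_lit 87541) (nat_lit 0) .nil) .nil))) 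
(.lf (nat_lit 471975) (.g (nat_lit 4037) (.e (nat_lit 3409) (nat_lit 212) (.e (nat_lit 655375) (nat_lit 3) (.e (nat_lit 163979) (nat_lit 30) (.e (nat_lit 573492) (nat_lit 15) (.e (nat_lit 81956) (nat_lit 23) (.e (nat_lit 98360) (nat_lit 26) (.e (nat_lit 426046) (nat_lit 0) .nil))))))) (.g (nat_lit 1) (.e (nat_lit 88374) (nat_lit 0) .nil) .nil)))))) 
(.nd (nat_lit 7) (.nd (nat_lit 8) (.nd (nat_lit 9) 
(.lf (nat_lit 471143) (.g (nat_lit 1256) (.e (nat_lit 3399) (nat_lit 211) (.e (nat_lit 647185) (nat_lit 6) (.e (nat_lit 188418) (nat_lit 0) (.e (nat_lit 2057) (nat_lit 142) (.e (nat_lit 704598) (nat_lit 6) (.e (nat_lit 188431) (nat_lit 20) .nil)))))) (.g (nat_lit 1) (.e (nat_lit 86852) (nat_lit 0) .nil) .nil))) 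
(.lf (nat_lit 471655) (.g (nat_lit 1100) (.e (nat_lit 3407) (nat_lit 212) (.e (nat_lit 655380) (nat_lit 6) (.e (nat_lit 188439) (nat_lit 20) (.e (nat_lit 3408) (nat_lit 212) (.e (nat_lit 655380) (nat_lit 6) (.e (nat_lit 188438) (nat_lit 20) .nil)))))) (.g (nat_lit 1) (.e (nat_lit 87857) (nat_lit 0) .nil) .nil)))) (.nd (nat_lit 9) 
(.lf (nat_lit 471399) (.g (nat_lit 359) (.e (nat_lit 3406) (nat_lit 212) (.e (nat_lit 655375) (nat_lit 3) (.e (nat_lit 163978) (nat_lit 30) .nil))) (.g (nat_lit 0) (.e (nat_lit 87428) (nat_lit 0) .nil) .nil))) 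
(.lf (nat_lit 471911) (.g (nat_lit 3332) (.e (nat_lit 3409) (nat_lit 212) (.e (nat_lit 655375) (nat_lit 3) (.e (nat_lit 163977) (nat_lit 30) (.e (nat_lit 573482) (nat_lit 13) (.e (nat_lit 65604) (nat_lit 9) (.e (nat_lit 336028) (nat_lit 3) (.e (nat_lit 98359) (nat_lit 26) (.e (nat_lit 426042) (nat_lit 0) .nil)))))))) (.g (nat_lit 1) (.e (nat_lit 88283) (nat_lit 0) .nil) .nil))))) 
(.nd (nat_lit 8) (.nd (nat_lit 9) 
(.lf (nat_lit 471271) (.g (nat_lit 3475) (.e (nat_lit 3402) (nat_lit 211) (.e (nat_lit 647181) (nat_lit 3) (.e (nat_lit 163977) (nat_lit 30) (.e (nat_lit 573491) (nat_lit 15) (.e (nat_lit 81954) (nat_lit 23) (.e (nat_lit 98359) (nat_lit 26) (.e (nat_lit 426022) (nat_lit 0) .nil))))))) (.g (nat_lit 1) (.e (nat_lit 87166) (nat_lit 0) .nil) .nil))) 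
(.lf (nat_lit 471783) (.g (nat_lit 2014) (.e (nat_lit 3408) (nat_lit 212) (.e (nat_lit 655378) (nat_lit 4) (.e (nat_lit 172112) (nat_lit 10) (.e (nat_lit 434272) (nat_lit 38) (.e (nat_lit 655380) (nat_lit 6) (.e (nat_lit 188439) (nat_lit 20) .nil)))))) (.g (nat_lit 1) (.e (nat_lit 88086) (nat_lit 0) .nil) .nil)))) (.nd (nat_lit 9) 
(.lf (nat_lit 471527) (.g (nat_lit 1308) (.e (nat_lit 3406) (nat_lit 212) (.e (nat_lit 655380) (nat_lit 6) (.e (nat_lit 188439) (nat_lit 20) (.e (nat_lit 3406) (nat_lit 212) (.e (nat_lit 655380) (nat_lit 6) (.e (nat_lit 188439) (nat_lit 20) .nil)))))) (.g (nat_lit 1) (.e (nat_lit 87635) (nat_lit 0) .nil) .nil))) 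
(.lf (nat_lit 472039) (.g (nat_lit 1831) (.e (nat_lit 3409) (nat_lit 212) (.e (nat_lit 655378) (nat_lit 4) (.e (nat_lit 172116) (nat_lit 10) (.e (nat_lit 434209) (nat_lit 18) (.e (nat_lit 5547) (nat_lit 306) (.e (nat_lit 2650) (nat_lit 166) (.e (nat_lit 188434) (nat_lit 20) .nil))))))) (.g (nat_lit 1) (.e (nat_lit 88456) (nat_lit 0) .nil) .nil)))))))) 
(.nd (nat_lit 5) (.nd (nat_lit 6) (.nd (nat_lit 7) (.nd (nat_lit 8) (.nd (nat_lit 9) 
(.lf (nat_lit 471063) (.g (nat_lit 1690) (.e (nat_lit 3399) (nat_lit 211) (.e (nat_lit 647183) (nat_lit 4) (.e (nat_lit 172081) (nat_lit 7) (.e (nat_lit 409642) (nat_lit 17) (.e (nat_lit 294974) (nat_lit 29) (.e (nat_lit 442399) (nat_lit 20) .nil)))))) (.g (nat_lit 1) (.e (nat_lit 86755) (nat_lit 0) .nil) .nil))) 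
(.lf (nat_lit 471575) (.g (nat_lit 3897) (.e (nat_lit 3407) (nat_lit 212) (.e (nat_lit 655375) (nat_lit 3) (.e (nat_lit 163978) (nat_lit 30) (.e (nat_lit 573493) (nat_lit 15) (.e (nat_lit 81953) (nat_lit 22) (.e (nat_lit 90170) (nat_lit 13) (.e (nat_lit 172049) (nat_lit 0) .nil))))))) (.g (nat_lit 1) (.e (nat_lit 87715) (nat_lit 0) .nil) .nil)))) (.nd (nat_lit 9) 
(.lf (nat_lit 471319) (.g (nat_lit 2263) (.e (nat_lit 3402) (nat_lit 211) (.e (nat_lit 647183) (nat_lit 4) (.e (nat_lit 172106) (nat_lit 10) (.e (nat_lit 434271) (nat_lit 38) (.e (nat_lit 655380) (nat_lit 6) (.e (nat_lit 188427) (nat_lit 20) .nil)))))) (.g (nat_lit 1) (.e (nat_lit 87239) (nat_lit 0) .nil) .nil))) 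
(.lf (nat_lit 471831) (.g (nat_lit 2922) (.e (nat_lit 3408) (nat_lit 212) (.e (nat_lit 655378) (nat_lit 4) (.e (nat_lit 172120) (nat_lit 12) (.e (nat_lit 475198) (nat_lit 40) (.e (nat_lit 704598) (nat_lit 6) (.e (nat_lit 188434) (nat_lit 20) .nil)))))) (.g (nat_lit 1) (.e (nat_lit 88140) (nat_lit 0) .nil) .nil))))) (.nd (nat_lit 8) (.nd (nat_lit 9) 
(.lf (nat_lit 471191) (.g (nat_lit 2020) (.e (nat_lit 3401) (nat_lit 211) (.e (nat_lit 647181) (nat_lit 3) (.e (nat_lit 163978) (nat_lit 30) (.e (nat_lit 573484) (nat_lit 13) (.e (nat_lit 65610) (nat_lit 10) (.e (nat_lit 344117) (nat_lit 21) (.e (nat_lit 516151) (nat_lit 9) (.e (nat_lit 426025) (nat_lit 0) .nil)))))))) (.g (nat_lit 1) (.e (nat_lit 86986) (nat_lit 0) .nil) .nil))) 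
(.lf (nat_lit 471703) (.g (nat_lit 4595) (.e (nat_lit 3408) (nat_lit 212) (.e (nat_lit 655375) (nat_lit 3) (.e (nat_lit 163978) (nat_lit 30) (.e (nat_lit 573485) (nat_lit 13) (.e (nat_lit 65604) (nat_lit 9) (.e (nat_lit 336028) (nat_lit 3) (.e (nat_lit 98359) (nat_lit 26) (.e (nat_lit 426043) (nat_lit 0) .nil)))))))) (.g (nat_lit 1) (.e (nat_lit 87949) (nat_lit 0) .nil) .nil)))) (.nd (nat_lit 9) 
(.lf (nat_lit 471447) (.g (nat_lit 1647) (.e (nat_lit 3406) (nat_lit 212) (.e (nat_lit 655378) (nat_lit 4) (.e (nat_lit 172097) (nat_lit 9) (.e (nat_lit 426025) (nat_lit 0) (.e (nat_lit 3397) (nat_lit 211) .nil))))) (.g (nat_lit 0) (.e (nat_lit 87522) (nat_lit 0) .nil) .nil))) 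
(.lf (nat_lit 471959) (.g (nat_lit 2952) (.e (nat_lit 3409) (nat_lit 212) (.e (nat_lit 655375) (nat_lit 3) (.e (nat_lit 163979) (nat_lit 30) (.e (nat_lit 573481) (nat_lit 13) (.e (nat_lit 65604) (nat_lit 9) (.e (nat_lit 336028) (nat_lit 3) (.e (nat_lit 98359) (nat_lit 26) (.e (nat_lit 426042) (nat_lit 0) .nil)))))))) (.g (nat_lit 1) (.e (nat_lit 88356) (nat_lit 0) .nil) .nil)))))) 
(.nd (nat_lit 7) (.nd (nat_lit 8) (.nd (nat_lit 9) 
(.lf (nat_lit 471127) (.g (nat_lit 2849) (.e (nat_lit 3399) (nat_lit 211) (.e (nat_lit 647183) (nat_lit 4) (.e (nat_lit 172126) (nat_lit 14) (.e (nat_lit 491549) (nat_lit 9) (.e (nat_lit 336430) (nat_lit 29) (.e (nat_lit 442399) (nat_lit 20) .nil)))))) (.g (nat_lit 1) (.e (nat_lit 86821) (nat_lit 0) .nil) .nil))) 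
(.lf (nat_lit 471639) (.g (nat_lit 1522) (.e (nat_lit 3407) (nat_lit 212) (.e (nat_lit 655380) (nat_lit 6) (.e (nat_lit 188420) (nat_lit 0) (.e (nat_lit 2059) (nat_lit 142) (.e (nat_lit 704598) (nat_lit 6) (.e (nat_lit 188439) (nat_lit 20) .nil)))))) (.g (nat_lit 1) (.e (nat_lit 87837) (nat_lit 0) .nil) .nil)))) (.nd (nat_lit 9) 
(.lf (nat_lit 471383) (.g (nat_lit 4408) (.e (nat_lit 3403) (nat_lit 212) (.e (nat_lit 655375) (nat_lit 3) (.e (nat_lit 163979) (nat_lit 30) (.e (nat_lit 573492) (nat_lit 15) (.e (nat_lit 81956) (nat_lit 23) (.e (nat_lit 98356) (nat_lit 26) (.e (nat_lit 426083) (nat_lit 0) .nil))))))) (.g (nat_lit 1) (.e (nat_lit 87355) (nat_lit 0) .nil) .nil))) 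
(.lf (nat_lit 471895) (.g (nat_lit 2184) (.e (nat_lit 3408) (nat_lit 212) (.e (nat_lit 655380) (nat_lit 6) (.e (nat_lit 188455) (nat_lit 24) (.e (nat_lit 229666) (nat_lit 240) (.e (nat_lit 2653) (nat_lit 166) (.e (nat_lit 188441) (nat_lit 20) .nil)))))) (.g (nat_lit 1) (.e (nat_lit 88229) (nat_lit 0) .nil) .nil))))) (.nd (nat_lit 8) (.nd (nat_lit 9) 
(.lf (nat_lit 471255) (.g (nat_lit 4891) (.e (nat_lit 3402) (nat_lit 211) (.e (nat_lit 647180) (nat_lit 3) (.e (nat_lit 163978) (nat_lit 30) (.e (nat_lit 573485) (nat_lit 13) (.e (nat_lit 65619) (nat_lit 10) (.e (nat_lit 344117) (nat_lit 21) (.e (nat_lit 516151) (nat_lit 9) (.e (nat_lit 426022) (nat_lit 0) .nil)))))))) (.g (nat_lit 1) (.e (nat_lit 87150) (nat_lit 0) .nil) .nil))) 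
(.lf (nat_lit 471767) (.g (nat_lit 3001) (.e (nat_lit 3408) (nat_lit 212) (.e (nat_lit 655378) (nat_lit 4) (.e (nat_lit 172106) (nat_lit 10) (.e (nat_lit 434272) (nat_lit 38) (.e (nat_lit 655380) (nat_lit 6) (.e (nat_lit 188441) (nat_lit 20) .nil)))))) (.g (nat_lit 1) (.e (nat_lit 88070) (nat_lit 0) .nil) .nil)))) (.nd (nat_lit 9) 
(.lf (nat_lit 471511) (.g (nat_lit 998) (.e (nat_lit 3406) (nat_lit 212) (.e (nat_lit 655380) (nat_lit 6) (.e (nat_lit 188420) (nat_lit 0) (.e (nat_lit 2056) (nat_lit 142) (.e (nat_lit 704598) (nat_lit 6) (.e (nat_lit 188439) (nat_lit 20) .nil)))))) (.g (nat_lit 1) (.e (nat_lit 87618) (nat_lit 0) .nil) .nil))) 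
(.lf (nat_lit 472023) (.g (nat_lit 1729) (.e (nat_lit 3409) (nat_lit 212) (.e (nat_lit 655378) (nat_lit 4) (.e (nat_lit 172112) (nat_lit 10) (.e (nat_lit 434271) (nat_lit 38) (.e (nat_lit 655380) (nat_lit 6) (.e (nat_lit 188435) (nat_lit 20) .nil)))))) (.g (nat_lit 1) (.e (nat_lit 88438) (nat_lit 0) .nil) .nil))))))) (.nd (nat_lit 6) (.nd (nat_lit 7) (.nd (nat_lit 8) (.nd (nat_lit 9) 
(.lf (nat_lit 471095) (.g (nat_lit 2127) (.e (nat_lit 3399) (nat_lit 211) (.e (nat_lit 647183) (nat_lit 4) (.e (nat_lit 172124) (nat_lit 14) (.e (nat_lit 491548) (nat_lit 9) (.e (nat_lit 336430) (nat_lit 29) (.e (nat_lit 442399) (nat_lit 20) .nil)))))) (.g (nat_lit 1) (.e (nat_lit 86789) (nat_lit 0) .nil) .nil))) 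
(.lf (nat_lit 471607) (.g (nat_lit 1965) (.e (nat_lit 3407) (nat_lit 212) (.e (nat_lit 655378) (nat_lit 4) (.e (nat_lit 172112) (nat_lit 10) (.e (nat_lit 434272) (nat_lit 38) (.e (nat_lit 655380) (nat_lit 6) (.e (nat_lit 188439) (nat_lit 20) .nil)))))) (.g (nat_lit 1) (.e (nat_lit 87786) (nat_lit 0) .nil) .nil)))) (.nd (nat_lit 9) 
(.lf (nat_lit 471351) (.g (nat_lit 2092) (.e (nat_lit 3402) (nat_lit 211) (.e (nat_lit 647183) (nat_lit 4) (.e (nat_lit 172118) (nat_lit 12) (.e (nat_lit 475211) (nat_lit 41) (.e (nat_lit 712750) (nat_lit 29) (.e (nat_lit 442399) (nat_lit 20) .nil)))))) (.g (nat_lit 1) (.e (nat_lit 87276) (nat_lit 0) .nil) .nil))) 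
(.lf (nat_lit 471863) (.g (nat_lit 1455) (.e (nat_lit 3408) (nat_lit 212) (.e (nat_lit 655380) (nat_lit 6) (.e (nat_lit 188434) (nat_lit 20) (.e (nat_lit 3408) (nat_lit 212) (.e (nat_lit 655380) (nat_lit 6) (.e (nat_lit 188435) (nat_lit 20) .nil)))))) (.g (nat_lit 1) (.e (nat_lit 88191) (nat_lit 0) .nil) .nil))))) (.nd (nat_lit 8) (.nd (nat_lit 9) 
(.lf (nat_lit 471223) (.g (nat_lit 2117) (.e (nat_lit 3401) (nat_lit 211) (.e (nat_lit 647183) (nat_lit 4) (.e (nat_lit 172118) (nat_lit 12) (.e (nat_lit 475198) (nat_lit 40) (.e (nat_lit 704598) (nat_lit 6) (.e (nat_lit 188427) (nat_lit 20) .nil)))))) (.g (nat_lit 1) (.e (nat_lit 87069) (nat_lit 0) .nil) .nil))) 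
(.lf (nat_lit 471735) (.g (nat_lit 3411) (.e (nat_lit 3408) (nat_lit 212) (.e (nat_lit 655375) (nat_lit 3) (.e (nat_lit 163979) (nat_lit 30) (.e (nat_lit 573492) (nat_lit 15) (.e (nat_lit 81956) (nat_lit 23) (.e (nat_lit 98360) (nat_lit 26) (.e (nat_lit 426042) (nat_lit 0) .nil))))))) (.g (nat_lit 1) (.e (nat_lit 87994) (nat_lit 0) .nil) .nil)))) (.nd (nat_lit 9) 
(.lf (nat_lit 471479) (.g (nat_lit 1645) (.e (nat_lit 3406) (nat_lit 212) (.e (nat_lit 655378) (nat_lit 4) (.e (nat_lit 172116) (nat_lit 10) (.e (nat_lit 434271) (nat_lit 38) (.e (nat_lit 655380) (nat_lit 6) (.e (nat_lit 188441) (nat_lit 20) .nil)))))) (.g (nat_lit 1) (.e (nat_lit 87558) (nat_lit 0) .nil) .nil))) 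
(.lf (nat_lit 471991) (.g (nat_lit 1488) (.e (nat_lit 3409) (nat_lit 212) (.e (nat_lit 655378) (nat_lit 4) (.e (nat_lit 172039) (nat_lit 0) (.e (nat_lit 6989) (nat_lit 377) (.e (nat_lit 2779) (nat_lit 178) (.e (nat_lit 286771) (nat_lit 29) (.e (nat_lit 442409) (nat_lit 20) .nil))))))) (.g (nat_lit 1) (.e (nat_lit 88402) (nat_lit 0) .nil) .nil)))))) 
(.nd (nat_lit 7) (.nd (nat_lit 8) (.nd (nat_lit 9) 
(.lf (nat_lit 471159) (.g (nat_lit 2666) (.e (nat_lit 3399) (nat_lit 211) (.e (nat_lit 647185) (nat_lit 6) (.e (nat_lit 188444) (nat_lit 21) (.e (nat_lit 164347) (nat_lit 240) (.e (nat_lit 2648) (nat_lit 166) (.e (nat_lit 188431) (nat_lit 20) .nil)))))) (.g (nat_lit 1) (.e (nat_lit 86871) (nat_lit 0) .nil) .nil))) 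
(.lf (nat_lit 471671) (.g (nat_lit 2380) (.e (nat_lit 3407) (nat_lit 212) (.e (nat_lit 655380) (nat_lit 6) (.e (nat_lit 188455) (nat_lit 24) (.e (nat_lit 229666) (nat_lit 240) (.e (nat_lit 2651) (nat_lit 166) (.e (nat_lit 188439) (nat_lit 20) .nil)))))) (.g (nat_lit 1) (.e (nat_lit 87880) (nat_lit 0) .nil) .nil)))) (.nd (nat_lit 9) 
(.lf (nat_lit 471415) (.g (nat_lit 2593) (.e (nat_lit 3406) (nat_lit 212) (.e (nat_lit 655375) (nat_lit 3) (.e (nat_lit 163978) (nat_lit 30) (.e (nat_lit 573483) (nat_lit 13) (.e (nat_lit 65604) (nat_lit 9) (.e (nat_lit 336013) (nat_lit 2) (.e (nat_lit 90170) (nat_lit 13) (.e (nat_lit 172049) (nat_lit 0) .nil)))))))) (.g (nat_lit 1) (.e (nat_lit 87444) (nat_lit 0) .nil) .nil))) 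
(.lf (nat_lit 471927) (.g (nat_lit 2049) (.e (nat_lit 3409) (nat_lit 212) (.e (nat_lit 655375) (nat_lit 3) (.e (nat_lit 163978) (nat_lit 30) (.e (nat_lit 573480) (nat_lit 13) .nil)))) (.g (nat_lit 0) (.e (nat_lit 88299) (nat_lit 0) .nil) .nil))))) (.nd (nat_lit 8) (.nd (nat_lit 9) 
(.lf (nat_lit 471287) (.g (nat_lit 1122) (.e (nat_lit 3402) (nat_lit 211) (.e (nat_lit 647183) (nat_lit 4) (.e (nat_lit 172038) (nat_lit 0) (.e (nat_lit 7107) (nat_lit 380) (.e (nat_lit 164339) (nat_lit 232) .nil))))) (.g (nat_lit 0) (.e (nat_lit 87197) (nat_lit 0) .nil) .nil))) 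
(.lf (nat_lit 471799) (.g (nat_lit 2907) (.e (nat_lit 3408) (nat_lit 212) (.e (nat_lit 655378) (nat_lit 4) (.e (nat_lit 172115) (nat_lit 10) (.e (nat_lit 434271) (nat_lit 38) (.e (nat_lit 655380) (nat_lit 6) (.e (nat_lit 188441) (nat_lit 20) .nil)))))) (.g (nat_lit 1) (.e (nat_lit 88104) (nat_lit 0) .nil) .nil)))) (.nd (nat_lit 9) 
(.lf (nat_lit 471543) (.g (nat_lit 3604) (.e (nat_lit 3407) (nat_lit 212) (.e (nat_lit 655364) (nat_lit 0) (.e (nat_lit 2472) (nat_lit 157) (.e (nat_lit 3307) (nat_lit 202) (.e (nat_lit 573484) (nat_lit 13) (.e (nat_lit 65610) (nat_lit 10) (.e (nat_lit 344117) (nat_lit 21) (.e (nat_lit 516151) (nat_lit 9) (.e (nat_lit 426043) (nat_lit 0) .nil))))))))) (.g (nat_lit 1) (.e (nat_lit 87665) (nat_lit 0) .nil) .nil))) 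
(.lf (nat_lit 472055) (.g (nat_lit 1955) (.e (nat_lit 3409) (nat_lit 212) (.e (nat_lit 655378) (nat_lit 4) (.e (nat_lit 172120) (nat_lit 12) (.e (nat_lit 475199) (nat_lit 40) (.e (nat_lit 704599) (nat_lit 6) (.e (nat_lit 188441) (nat_lit 20) .nil)))))) (.g (nat_lit 1) (.e (nat_lit 88473) (nat_lit 0) .nil) .nil))))))))) 
(.nd (nat_lit 4) (.nd (nat_lit 5) (.nd (nat_lit 6) (.nd (nat_lit 7) (.nd (nat_lit 8) 
(.nd (nat_lit 9) 
(.lf (nat_lit 471055) (.g (nat_lit 1826) (.e (nat_lit 3399) (nat_lit 211) (.e (nat_lit 647183) (nat_lit 4) (.e (nat_lit 172079) (nat_lit 7) (.e (nat_lit 409642) (nat_lit 17) (.e (nat_lit 294974) (nat_lit 29) (.e (nat_lit 442398) (nat_lit 20) .nil)))))) (.g (nat_lit 1) (.e (nat_lit 86747) (nat_lit 0) .nil) .nil))) 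
(.lf (nat_lit 471567) (.g (nat_lit 4700) (.e (nat_lit 3407) (nat_lit 212) (.e (nat_lit 655375) (nat_lit 3) (.e (nat_lit 163978) (nat_lit 30) (.e (nat_lit 573485) (nat_lit 13) (.e (nat_lit 65604) (nat_lit 9) (.e (nat_lit 336013) (nat_lit 2) (.e (nat_lit 90170) (nat_lit 13) (.e (nat_lit 172049) (nat_lit 0) .nil)))))))) (.g (nat_lit 1) (.e (nat_lit 87707) (nat_lit 0) .nil) .nil)))) (.nd (nat_lit 9) 
(.lf (nat_lit 471311) (.g (nat_lit 1525) (.e (nat_lit 3402) (nat_lit 211) (.e (nat_lit 647183) (nat_lit 4) (.e (nat_lit 172097) (nat_lit 9) (.e (nat_lit 426025) (nat_lit 0) (.e (nat_lit 3397) (nat_lit 211) .nil))))) (.g (nat_lit 0) (.e (nat_lit 87228) (nat_lit 0) .nil) .nil))) 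
(.lf (nat_lit 471823) (.g (nat_lit 1722) (.e (nat_lit 3408) (nat_lit 212) (.e (nat_lit 655378) (nat_lit 4) (.e (nat_lit 172118) (nat_lit 12) (.e (nat_lit 475211) (nat_lit 41) (.e (nat_lit 712752) (nat_lit 29) .nil))))) (.g (nat_lit 0) (.e (nat_lit 88129) (nat_lit 0) .nil) .nil))))) (.nd (nat_lit 8) (.nd (nat_lit 9) 
(.lf (nat_lit 471183) (.g (nat_lit 1959) (.e (nat_lit 3401) (nat_lit 211) (.e (nat_lit 647181) (nat_lit 3) (.e (nat_lit 163977) (nat_lit 30) (.e (nat_lit 573491) (nat_lit 15) (.e (nat_lit 81954) (nat_lit 23) (.e (nat_lit 98359) (nat_lit 26) (.e (nat_lit 426003) (nat_lit 0) .nil))))))) (.g (nat_lit 1) (.e (nat_lit 86978) (nat_lit 0) .nil) .nil))) 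
(.lf (nat_lit 471695) (.g (nat_lit 4794) (.e (nat_lit 3408) (nat_lit 212) (.e (nat_lit 655375) (nat_lit 3) (.e (nat_lit 163978) (nat_lit 30) (.e (nat_lit 573482) (nat_lit 13) (.e (nat_lit 65604) (nat_lit 9) (.e (nat_lit 336013) (nat_lit 2) (.e (nat_lit 90170) (nat_lit 13) (.e (nat_lit 172049) (nat_lit 0) .nil)))))))) (.g (nat_lit 1) (.e (nat_lit 87941) (nat_lit 0) .nil) .nil)))) (.nd (nat_lit 9) 
(.lf (nat_lit 471439) (.g (nat_lit 1525) (.e (nat_lit 3406) (nat_lit 212) (.e (nat_lit 655376) (nat_lit 4) (.e (nat_lit 172120) (nat_lit 12) (.e (nat_lit 475198) (nat_lit 40) (.e (nat_lit 704598) (nat_lit 6) (.e (nat_lit 188439) (nat_lit 20) .nil)))))) (.g (nat_lit 1) (.e (nat_lit 87475) (nat_lit 0) .nil) .nil))) 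
(.lf (nat_lit 471951) (.g (nat_lit 3512) (.e (nat_lit 3409) (nat_lit 212) (.e (nat_lit 655375) (nat_lit 3) (.e (nat_lit 163978) (nat_lit 30) (.e (nat_lit 573490) (nat_lit 15) (.e (nat_lit 81953) (nat_lit 22) (.e (nat_lit 90170) (nat_lit 13) (.e (nat_lit 172049) (nat_lit 0) .nil))))))) (.g (nat_lit 1) (.e (nat_lit 88325) (nat_lit 0) .nil) .nil)))))) 
(.nd (nat_lit 7) (.nd (nat_lit 8) (.nd (nat_lit 9) 
(.lf (nat_lit 471119) (.g (nat_lit 2412) (.e (nat_lit 3399) (nat_lit 211) (.e (nat_lit 647183) (nat_lit 4) (.e (nat_lit 172126) (nat_lit 14) (.e (nat_lit 491548) (nat_lit 9) (.e (nat_lit 336430) (nat_lit 29) (.e (nat_lit 442399) (nat_lit 20) .nil)))))) (.g (nat_lit 1) (.e (nat_lit 86813) (nat_lit 0) .nil) .nil))) 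
(.lf (nat_lit 471631) (.g (nat_lit 1058) (.e (nat_lit 3407) (nat_lit 212) (.e (nat_lit 655380) (nat_lit 6) (.e (nat_lit 188417) (nat_lit 0) (.e (nat_lit 2147) (nat_lit 142) (.e (nat_lit 704597) (nat_lit 6) (.e (nat_lit 188439) (nat_lit 20) .nil)))))) (.g (nat_lit 1) (.e (nat_lit 87829) (nat_lit 0) .nil) .nil)))) (.nd (nat_lit 9) 
(.lf (nat_lit 471375) (.g (nat_lit 1614) (.e (nat_lit 3402) (nat_lit 211) (.e (nat_lit 647185) (nat_lit 6) (.e (nat_lit 188431) (nat_lit 20) (.e (nat_lit 3397) (nat_lit 211) (.e (nat_lit 647185) (nat_lit 6) (.e (nat_lit 188428) (nat_lit 20) .nil)))))) (.g (nat_lit 1) (.e (nat_lit 87317) (nat_lit 0) .nil) .nil))) 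
(.lf (nat_lit 471887) (.g (nat_lit 2026) (.e (nat_lit 3408) (nat_lit 212) (.e (nat_lit 655380) (nat_lit 6) (.e (nat_lit 188440) (nat_lit 20) (.e (nat_lit 3409) (nat_lit 212) (.e (nat_lit 655380) (nat_lit 6) (.e (nat_lit 188441) (nat_lit 20) .nil)))))) (.g (nat_lit 1) (.e (nat_lit 88215) (nat_lit 0) .nil) .nil))))) (.nd (nat_lit 8) (.nd (nat_lit 9) 
(.lf (nat_lit 471247) (.g (nat_lit 1125) (.e (nat_lit 3401) (nat_lit 211) (.e (nat_lit 647185) (nat_lit 6) (.e (nat_lit 188435) (nat_lit 20) (.e (nat_lit 3409) (nat_lit 212) (.e (nat_lit 655380) (nat_lit 6) (.e (nat_lit 188428) (nat_lit 20) .nil)))))) (.g (nat_lit 1) (.e (nat_lit 87125) (nat_lit 0) .nil) .nil))) 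
(.lf (nat_lit 471759) (.g (nat_lit 1689) (.e (nat_lit 3408) (nat_lit 212) (.e (nat_lit 655378) (nat_lit 4) (.e (nat_lit 172097) (nat_lit 9) (.e (nat_lit 426025) (nat_lit 0) (.e (nat_lit 3399) (nat_lit 211) .nil))))) (.g (nat_lit 0) (.e (nat_lit 88058) (nat_lit 0) .nil) .nil)))) (.nd (nat_lit 9) 
(.lf (nat_lit 471503) (.g (nat_lit 1165) (.e (nat_lit 3406) (nat_lit 212) (.e (nat_lit 655380) (nat_lit 6) (.e (nat_lit 188416) (nat_lit 0) (.e (nat_lit 2147) (nat_lit 142) (.e (nat_lit 704597) (nat_lit 6) (.e (nat_lit 188439) (nat_lit 20) .nil)))))) (.g (nat_lit 1) (.e (nat_lit 87610) (nat_lit 0) .nil) .nil))) 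
(.lf (nat_lit 472015) (.g (nat_lit 2197) (.e (nat_lit 3409) (nat_lit 212) (.e (nat_lit 655378) (nat_lit 4) (.e (nat_lit 172106) (nat_lit 10) (.e (nat_lit 434271) (nat_lit 38) (.e (nat_lit 655380) (nat_lit 6) (.e (nat_lit 188438) (nat_lit 20) .nil)))))) (.g (nat_lit 1) (.e (nat_lit 88430) (nat_lit 0) .nil) .nil))))))) (.nd (nat_lit 6) (.nd (nat_lit 7) (.nd (nat_lit 8) (.nd (nat_lit 9) 
(.lf (nat_lit 471087) (.g (nat_lit 2613) (.e (nat_lit 3399) (nat_lit 211) (.e (nat_lit 647183) (nat_lit 4) (.e (nat_lit 172118) (nat_lit 12) (.e (nat_lit 475210) (nat_lit 41) (.e (nat_lit 712750) (nat_lit 29) (.e (nat_lit 442399) (nat_lit 20) .nil)))))) (.g (nat_lit 1) (.e (nat_lit 86781) (nat_lit 0) .nil) .nil))) 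
(.lf (nat_lit 471599) (.g (nat_lit 2387) (.e (nat_lit 3407) (nat_lit 212) (.e (nat_lit 655378) (nat_lit 4) (.e (nat_lit 172106) (nat_lit 10) (.e (nat_lit 434272) (nat_lit 38) (.e (nat_lit 655380) (nat_lit 6) (.e (nat_lit 188438) (nat_lit 20) .nil)))))) (.g (nat_lit 1) (.e (nat_lit 87778) (nat_lit 0) .nil) .nil)))) (.nd (nat_lit 9) 
(.lf (nat_lit 471343) (.g (nat_lit 1993) (.e (nat_lit 3402) (nat_lit 211) (.e (nat_lit 647183) (nat_lit 4) (.e (nat_lit 172116) (nat_lit 10) (.e (nat_lit 434271) (nat_lit 38) (.e (nat_lit 655380) (nat_lit 6) (.e (nat_lit 188427) (nat_lit 20) .nil)))))) (.g (nat_lit 1) (.e (nat_lit 87268) (nat_lit 0) .nil) .nil))) 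
(.lf (nat_lit 471855) (.g (nat_lit 1860) (.e (nat_lit 3408) (nat_lit 212) (.e (nat_lit 655380) (nat_lit 6) (.e (nat_lit 188418) (nat_lit 0) (.e (nat_lit 2059) (nat_lit 142) (.e (nat_lit 704598) (nat_lit 6) (.e (nat_lit 188434) (nat_lit 20) .nil)))))) (.g (nat_lit 1) (.e (nat_lit 88183) (nat_lit 0) .nil) .nil))))) (.nd (nat_lit 8) (.nd (nat_lit 9) 
(.lf (nat_lit 471215) (.g (nat_lit 2245) (.e (nat_lit 3401) (nat_lit 211) (.e (nat_lit 647183) (nat_lit 4) (.e (nat_lit 172113) (nat_lit 10) (.e (nat_lit 434272) (nat_lit 38) (.e (nat_lit 655380) (nat_lit 6) (.e (nat_lit 188427) (nat_lit 20) .nil)))))) (.g (nat_lit 1) (.e (nat_lit 87053) (nat_lit 0) .nil) .nil))) 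
(.lf (nat_lit 471727) (.g (nat_lit 3611) (.e (nat_lit 3408) (nat_lit 212) (.e (nat_lit 655375) (nat_lit 3) (.e (nat_lit 163979) (nat_lit 30) (.e (nat_lit 573491) (nat_lit 15) (.e (nat_lit 81954) (nat_lit 23) (.e (nat_lit 98359) (nat_lit 26) (.e (nat_lit 426043) (nat_lit 0) .nil))))))) (.g (nat_lit 1) (.e (nat_lit 87986) (nat_lit 0) .nil) .nil)))) (.nd (nat_lit 9) 
(.lf (nat_lit 471471) (.g (nat_lit 1690) (.e (nat_lit 3406) (nat_lit 212) (.e (nat_lit 655378) (nat_lit 4) (.e (nat_lit 172115) (nat_lit 10) (.e (nat_lit 434271) (nat_lit 38) (.e (nat_lit 655380) (nat_lit 6) (.e (nat_lit 188440) (nat_lit 20) .nil)))))) (.g (nat_lit 1) (.e (nat_lit 87550) (nat_lit 0) .nil) .nil))) 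
(.lf (nat_lit 471983) (.g (nat_lit 1989) (.e (nat_lit 3409) (nat_lit 212) (.e (nat_lit 655376) (nat_lit 4) (.e (nat_lit 172120) (nat_lit 12) (.e (nat_lit 475197) (nat_lit 40) (.e (nat_lit 704598) (nat_lit 6) (.e (nat_lit 188434) (nat_lit 20) .nil)))))) (.g (nat_lit 1) (.e (nat_lit 88382) (nat_lit 0) .nil) .nil)))))) (.nd (nat_lit 7) (.nd (nat_lit 8) (.nd (nat_lit 9) 
(.lf (nat_lit 471151) (.g (nat_lit 1297) (.e (nat_lit 3399) (nat_lit 211) (.e (nat_lit 647185) (nat_lit 6) (.e (nat_lit 188439) (nat_lit 20) (.e (nat_lit 3406) (nat_lit 212) (.e (nat_lit 655380) (nat_lit 6) (.e (nat_lit 188430) (nat_lit 20) .nil)))))) (.g (nat_lit 1) (.e (nat_lit 86862) (nat_lit 0) .nil) .nil))) 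
(.lf (nat_lit 471663) (.g (nat_lit 889) (.e (nat_lit 3407) (nat_lit 212) (.e (nat_lit 655380) (nat_lit 6) (.e (nat_lit 188441) (nat_lit 20) (.e (nat_lit 3409) (nat_lit 212) .nil)))) (.g (nat_lit 0) (.e (nat_lit 87865) (nat_lit 0) .nil) .nil)))) (.nd (nat_lit 9) 
(.lf (nat_lit 471407) (.g (nat_lit 2898) (.e (nat_lit 3406) (nat_lit 212) (.e (nat_lit 655375) (nat_lit 3) (.e (nat_lit 163978) (nat_lit 30) (.e (nat_lit 573480) (nat_lit 13) (.e (nat_lit 65604) (nat_lit 9) (.e (nat_lit 336013) (nat_lit 2) (.e (nat_lit 90170) (nat_lit 13) (.e (nat_lit 172046) (nat_lit 0) .nil)))))))) (.g (nat_lit 1) (.e (nat_lit 87436) (nat_lit 0) .nil) .nil))) 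
(.lf (nat_lit 471919) (.g (nat_lit 4029) (.e (nat_lit 3409) (nat_lit 212) (.e (nat_lit 655375) (nat_lit 3) (.e (nat_lit 163978) (nat_lit 30) (.e (nat_lit 573479) (nat_lit 13) (.e (nat_lit 65604) (nat_lit 9) (.e (nat_lit 336013) (nat_lit 2) (.e (nat_lit 90170) (nat_lit 13) (.e (nat_lit 172048) (nat_lit 0) .nil)))))))) (.g (nat_lit 1) (.e (nat_lit 88291) (nat_lit 0) .nil) .nil))))) 
(.nd (nat_lit 8) (.nd (nat_lit 9) 
(.lf (nat_lit 471279) (.g (nat_lit 3153) (.e (nat_lit 3402) (nat_lit 211) (.e (nat_lit 647181) (nat_lit 3) (.e (nat_lit 163978) (nat_lit 30) (.e (nat_lit 573485) (nat_lit 13) (.e (nat_lit 65604) (nat_lit 9) (.e (nat_lit 336013) (nat_lit 2) (.e (nat_lit 90170) (nat_lit 13) (.e (nat_lit 172032) (nat_lit 0) .nil)))))))) (.g (nat_lit 1) (.e (nat_lit 87174) (nat_lit 0) .nil) .nil))) 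
(.lf (nat_lit 471791) (.g (nat_lit 2116) (.e (nat_lit 3408) (nat_lit 212) (.e (nat_lit 655378) (nat_lit 4) (.e (nat_lit 172113) (nat_lit 10) (.e (nat_lit 434272) (nat_lit 38) (.e (nat_lit 655380) (nat_lit 6) (.e (nat_lit 188435) (nat_lit 20) .nil)))))) (.g (nat_lit 1) (.e (nat_lit 88095) (nat_lit 0) .nil) .nil)))) (.nd (nat_lit 9) 
(.lf (nat_lit 471535) (.g (nat_lit 2219) (.e (nat_lit 3406) (nat_lit 212) (.e (nat_lit 655380) (nat_lit 6) (.e (nat_lit 188441) (nat_lit 20) (.e (nat_lit 3408) (nat_lit 212) (.e (nat_lit 655380) (nat_lit 6) (.e (nat_lit 188434) (nat_lit 20) .nil)))))) (.g (nat_lit 1) (.e (nat_lit 87643) (nat_lit 0) .nil) .nil))) 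
(.lf (nat_lit 472047) (.g (nat_lit 1781) (.e (nat_lit 3409) (nat_lit 212) (.e (nat_lit 655378) (nat_lit 4) (.e (nat_lit 172119) (nat_lit 12) (.e (nat_lit 475198) (nat_lit 40) (.e (nat_lit 704598) (nat_lit 6) .nil))))) (.g (nat_lit 0) (.e (nat_lit 88464) (nat_lit 0) .nil) .nil)))))))) (.nd (nat_lit 5) (.nd (nat_lit 6) (.nd (nat_lit 7) (.nd (nat_lit 8) (.nd (nat_lit 9) 
(.lf (nat_lit 471071) (.g (nat_lit 1756) (.e (nat_lit 3399) (nat_lit 211) (.e (nat_lit 647183) (nat_lit 4) (.e (nat_lit 172106) (nat_lit 10) (.e (nat_lit 434209) (nat_lit 18) (.e (nat_lit 5548) (nat_lit 306) .nil))))) (.g (nat_lit 0) (.e (nat_lit 86763) (nat_lit 0) .nil) .nil))) 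
(.lf (nat_lit 471583) (.g (nat_lit 3509) (.e (nat_lit 3407) (nat_lit 212) (.e (nat_lit 655375) (nat_lit 3) (.e (nat_lit 163979) (nat_lit 30) (.e (nat_lit 573491) (nat_lit 15) (.e (nat_lit 81954) (nat_lit 23) (.e (nat_lit 98359) (nat_lit 26) (.e (nat_lit 426043) (nat_lit 0) .nil))))))) (.g (nat_lit 1) (.e (nat_lit 87733) (nat_lit 0) .nil) .nil)))) (.nd (nat_lit 9) 
(.lf (nat_lit 471327) (.g (nat_lit 1937) (.e (nat_lit 3402) (nat_lit 211) (.e (nat_lit 647183) (nat_lit 4) (.e (nat_lit 172112) (nat_lit 10) (.e (nat_lit 434271) (nat_lit 38) (.e (nat_lit 655380) (nat_lit 6) (.e (nat_lit 188427) (nat_lit 20) .nil)))))) (.g (nat_lit 1) (.e (nat_lit 87247) (nat_lit 0) .nil) .nil))) 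
(.lf (nat_lit 471839) (.g (nat_lit 2711) (.e (nat_lit 3408) (nat_lit 212) (.e (nat_lit 655378) (nat_lit 4) (.e (nat_lit 172120) (nat_lit 12) (.e (nat_lit 475199) (nat_lit 40) (.e (nat_lit 704598) (nat_lit 6) (.e (nat_lit 188439) (nat_lit 20) .nil)))))) (.g (nat_lit 1) (.e (nat_lit 88148) (nat_lit 0) .nil) .nil))))) (.nd (nat_lit 8) (.nd (nat_lit 9) 
(.lf (nat_lit 471199) (.g (nat_lit 4015) (.e (nat_lit 3401) (nat_lit 211) (.e (nat_lit 647181) (nat_lit 3) (.e (nat_lit 163979) (nat_lit 30) (.e (nat_lit 573491) (nat_lit 15) (.e (nat_lit 81951) (nat_lit 22) (.e (nat_lit 90170) (nat_lit 13) (.e (nat_lit 172035) (nat_lit 0) .nil))))))) (.g (nat_lit 1) (.e (nat_lit 86994) (nat_lit 0) .nil) .nil))) 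
(.lf (nat_lit 471711) (.g (nat_lit 4243) (.e (nat_lit 3408) (nat_lit 212) (.e (nat_lit 655375) (nat_lit 3) (.e (nat_lit 163978) (nat_lit 30) (.e (nat_lit 573491) (nat_lit 15) (.e (nat_lit 81951) (nat_lit 22) (.e (nat_lit 90170) (nat_lit 13) (.e (nat_lit 172049) (nat_lit 0) .nil))))))) (.g (nat_lit 1) (.e (nat_lit 87957) (nat_lit 0) .nil) .nil)))) (.nd (nat_lit 9) 
(.lf (nat_lit 471455) (.g (nat_lit 1076) (.e (nat_lit 3406) (nat_lit 212) (.e (nat_lit 655378) (nat_lit 4) (.e (nat_lit 172107) (nat_lit 10) (.e (nat_lit 434271) (nat_lit 38) (.e (nat_lit 655380) (nat_lit 6) (.e (nat_lit 188424) (nat_lit 20) .nil)))))) (.g (nat_lit 1) (.e (nat_lit 87533) (nat_lit 0) .nil) .nil))) 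
(.lf (nat_lit 471967) (.g (nat_lit 4107) (.e (nat_lit 3409) (nat_lit 212) (.e (nat_lit 655375) (nat_lit 3) (.e (nat_lit 163979) (nat_lit 30) (.e (nat_lit 573491) (nat_lit 15) (.e (nat_lit 81951) (nat_lit 22) (.e (nat_lit 90170) (nat_lit 13) (.e (nat_lit 172042) (nat_lit 0) .nil))))))) (.g (nat_lit 1) (.e (nat_lit 88364) (nat_lit 0) .nil) .nil)))))) 
(.nd (nat_lit 7) (.nd (nat_lit 8) (.nd (nat_lit 9) 
(.lf (nat_lit 471135) (.g (nat_lit 2004) (.e (nat_lit 3399) (nat_lit 211) (.e (nat_lit 647183) (nat_lit 4) (.e (nat_lit 172126) (nat_lit 14) (.e (nat_lit 491570) (nat_lit 13) (.e (nat_lit 393276) (nat_lit 23) (.e (nat_lit 426025) (nat_lit 0) .nil)))))) (.g (nat_lit 1) (.e (nat_lit 86829) (nat_lit 0) .nil) .nil))) 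
(.lf (nat_lit 471647) (.g (nat_lit 996) (.e (nat_lit 3407) (nat_lit 212) (.e (nat_lit 655380) (nat_lit 6) (.e (nat_lit 188438) (nat_lit 20) (.e (nat_lit 3407) (nat_lit 212) (.e (nat_lit 655380) (nat_lit 6) (.e (nat_lit 188438) (nat_lit 20) .nil)))))) (.g (nat_lit 1) (.e (nat_lit 87849) (nat_lit 0) .nil) .nil)))) (.nd (nat_lit 9) 
(.lf (nat_lit 471391) (.g (nat_lit 1406) (.e (nat_lit 3403) (nat_lit 212) (.e (nat_lit 655378) (nat_lit 4) (.e (nat_lit 172126) (nat_lit 14) (.e (nat_lit 491548) (nat_lit 9) .nil)))) (.g (nat_lit 0) (.e (nat_lit 87397) (nat_lit 0) .nil) .nil))) 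
(.lf (nat_lit 471903) (.g (nat_lit 3067) (.e (nat_lit 3409) (nat_lit 212) (.e (nat_lit 655373) (nat_lit 3) (.e (nat_lit 163973) (nat_lit 30) (.e (nat_lit 573479) (nat_lit 13) (.e (nat_lit 65619) (nat_lit 10) (.e (nat_lit 344117) (nat_lit 21) (.e (nat_lit 516151) (nat_lit 9) (.e (nat_lit 426043) (nat_lit 0) .nil)))))))) (.g (nat_lit 1) (.e (nat_lit 88271) (nat_lit 0) .nil) .nil))))) 
(.nd (nat_lit 8) (.nd (nat_lit 9) 
(.lf (nat_lit 471263) (.g (nat_lit 4279) (.e (nat_lit 3402) (nat_lit 211) (.e (nat_lit 647181) (nat_lit 3) (.e (nat_lit 163977) (nat_lit 30) (.e (nat_lit 573482) (nat_lit 13) (.e (nat_lit 65619) (nat_lit 10) (.e (nat_lit 344117) (nat_lit 21) (.e (nat_lit 516151) (nat_lit 9) (.e (nat_lit 426023) (nat_lit 0) .nil)))))))) (.g (nat_lit 1) (.e (nat_lit 87158) (nat_lit 0) .nil) .nil))) 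
(.lf (nat_lit 471775) (.g (nat_lit 1789) (.e (nat_lit 3408) (nat_lit 212) (.e (nat_lit 655378) (nat_lit 4) (.e (nat_lit 172107) (nat_lit 10) (.e (nat_lit 434272) (nat_lit 38) (.e (nat_lit 655380) (nat_lit 6) (.e (nat_lit 188438) (nat_lit 20) .nil)))))) (.g (nat_lit 1) (.e (nat_lit 88078) (nat_lit 0) .nil) .nil)))) (.nd (nat_lit 9) 
(.lf (nat_lit 471519) (.g (nat_lit 1547) (.e (nat_lit 3406) (nat_lit 212) (.e (nat_lit 655380) (nat_lit 6) (.e (nat_lit 188435) (nat_lit 20) (.e (nat_lit 3408) (nat_lit 212) (.e (nat_lit 655380) (nat_lit 6) (.e (nat_lit 188434) (nat_lit 20) .nil)))))) (.g (nat_lit 1) (.e (nat_lit 87627) (nat_lit 0) .nil) .nil))) 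
(.lf (nat_lit 472031) (.g (nat_lit 2399) (.e (nat_lit 3409) (nat_lit 212) (.e (nat_lit 655378) (nat_lit 4) (.e (nat_lit 172113) (nat_lit 10) (.e (nat_lit 434271) (nat_lit 38) (.e (nat_lit 655380) (nat_lit 6) (.e (nat_lit 188439) (nat_lit 20) .nil)))))) (.g (nat_lit 1) (.e (nat_lit 88447) (nat_lit 0) .nil) .nil))))))) (.nd (nat_lit 6) (.nd (nat_lit 7) (.nd (nat_lit 8) (.nd (nat_lit 9) 
(.lf (nat_lit 471103) (.g (nat_lit 1809) (.e (nat_lit 3399) (nat_lit 211) (.e (nat_lit 647183) (nat_lit 4) (.e (nat_lit 172124) (nat_lit 14) (.e (nat_lit 491550) (nat_lit 9) (.e (nat_lit 336395) (nat_lit 27) .nil))))) (.g (nat_lit 0) (.e (nat_lit 86797) (nat_lit 0) .nil) .nil))) 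
(.lf (nat_lit 471615) (.g (nat_lit 2130) (.e (nat_lit 3407) (nat_lit 212) (.e (nat_lit 655378) (nat_lit 4) (.e (nat_lit 172115) (nat_lit 10) (.e (nat_lit 434272) (nat_lit 38) (.e (nat_lit 655380) (nat_lit 6) (.e (nat_lit 188438) (nat_lit 20) .nil)))))) (.g (nat_lit 1) (.e (nat_lit 87795) (nat_lit 0) .nil) .nil)))) (.nd (nat_lit 9) 
(.lf (nat_lit 471359) (.g (nat_lit 2541) (.e (nat_lit 3402) (nat_lit 211) (.e (nat_lit 647183) (nat_lit 4) (.e (nat_lit 172120) (nat_lit 12) (.e (nat_lit 475210) (nat_lit 41) (.e (nat_lit 712750) (nat_lit 29) (.e (nat_lit 442399) (nat_lit 20) .nil)))))) (.g (nat_lit 1) (.e (nat_lit 87284) (nat_lit 0) .nil) .nil))) 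
(.lf (nat_lit 471871) (.g (nat_lit 1084) (.e (nat_lit 3408) (nat_lit 212) (.e (nat_lit 655380) (nat_lit 6) (.e (nat_lit 188438) (nat_lit 20) (.e (nat_lit 3408) (nat_lit 212) (.e (nat_lit 655380) (nat_lit 6) (.e (nat_lit 188438) (nat_lit 20) .nil)))))) (.g (nat_lit 1) (.e (nat_lit 88199) (nat_lit 0) .nil) .nil))))) (.nd (nat_lit 8) (.nd (nat_lit 9) 
(.lf (nat_lit 471231) (.g (nat_lit 2458) (.e (nat_lit 3401) (nat_lit 211) (.e (nat_lit 647183) (nat_lit 4) (.e (nat_lit 172124) (nat_lit 14) (.e (nat_lit 491550) (nat_lit 9) (.e (nat_lit 336430) (nat_lit 29) (.e (nat_lit 442395) (nat_lit 20) .nil)))))) (.g (nat_lit 1) (.e (nat_lit 87087) (nat_lit 0) .nil) .nil))) 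
(.lf (nat_lit 471743) (.g (nat_lit 1513) (.e (nat_lit 3408) (nat_lit 212) (.e (nat_lit 655376) (nat_lit 4) (.e (nat_lit 172120) (nat_lit 12) (.e (nat_lit 475198) (nat_lit 40) (.e (nat_lit 704598) (nat_lit 6) (.e (nat_lit 188435) (nat_lit 20) .nil)))))) (.g (nat_lit 1) (.e (nat_lit 88003) (nat_lit 0) .nil) .nil)))) (.nd (nat_lit 9) 
(.lf (nat_lit 471487) (.g (nat_lit 2303) (.e (nat_lit 3406) (nat_lit 212) (.e (nat_lit 655378) (nat_lit 4) (.e (nat_lit 172118) (nat_lit 12) (.e (nat_lit 475198) (nat_lit 40) (.e (nat_lit 704598) (nat_lit 6) (.e (nat_lit 188439) (nat_lit 20) .nil)))))) (.g (nat_lit 1) (.e (nat_lit 87566) (nat_lit 0) .nil) .nil))) 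
(.lf (nat_lit 471999) (.g (nat_lit 1794) (.e (nat_lit 3409) (nat_lit 212) (.e (nat_lit 655378) (nat_lit 4) (.e (nat_lit 172080) (nat_lit 7) (.e (nat_lit 409642) (nat_lit 17) (.e (nat_lit 294974) (nat_lit 29) (.e (nat_lit 442408) (nat_lit 20) .nil)))))) (.g (nat_lit 1) (.e (nat_lit 88410) (nat_lit 0) .nil) .nil)))))) (.nd (nat_lit 7) (.nd (nat_lit 8) (.nd (nat_lit 9) 
(.lf (nat_lit 471167) (.g (nat_lit 3005) (.e (nat_lit 3401) (nat_lit 211) (.e (nat_lit 647180) (nat_lit 3) (.e (nat_lit 163976) (nat_lit 30) (.e (nat_lit 573481) (nat_lit 13) (.e (nat_lit 65604) (nat_lit 9) (.e (nat_lit 336013) (nat_lit 2) (.e (nat_lit 90170) (nat_lit 13) (.e (nat_lit 172035) (nat_lit 0) .nil)))))))) (.g (nat_lit 1) (.e (nat_lit 86960) (nat_lit 0) .nil) .nil))) 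
(.lf (nat_lit 471679) (.g (nat_lit 4206) (.e (nat_lit 3408) (nat_lit 212) (.e (nat_lit 655375) (nat_lit 3) (.e (nat_lit 163977) (nat_lit 30) (.e (nat_lit 573482) (nat_lit 13) (.e (nat_lit 65604) (nat_lit 9) (.e (nat_lit 336013) (nat_lit 2) (.e (nat_lit 90170) (nat_lit 13) (.e (nat_lit 172049) (nat_lit 0) .nil)))))))) (.g (nat_lit 1) (.e (nat_lit 87925) (nat_lit 0) .nil) .nil)))) (.nd (nat_lit 9) 
(.lf (nat_lit 471423) (.g (nat_lit 3399) (.e (nat_lit 3406) (nat_lit 212) (.e (nat_lit 655375) (nat_lit 3) (.e (nat_lit 163978) (nat_lit 30) (.e (nat_lit 573490) (nat_lit 15) (.e (nat_lit 81953) (nat_lit 22) (.e (nat_lit 90170) (nat_lit 13) (.e (nat_lit 172049) (nat_lit 0) .nil))))))) (.g (nat_lit 1) (.e (nat_lit 87452) (nat_lit 0) .nil) .nil))) 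
(.lf (nat_lit 471935) (.g (nat_lit 2644) (.e (nat_lit 3409) (nat_lit 212) (.e (nat_lit 655375) (nat_lit 3) (.e (nat_lit 163978) (nat_lit 30) (.e (nat_lit 573482) (nat_lit 13) (.e (nat_lit 65619) (nat_lit 10) (.e (nat_lit 344117) (nat_lit 21) (.e (nat_lit 516151) (nat_lit 9) (.e (nat_lit 426003) (nat_lit 0) .nil)))))))) (.g (nat_lit 1) (.e (nat_lit 88307) (nat_lit 0) .nil) .nil))))) 
(.nd (nat_lit 8) (.nd (nat_lit 9) 
(.lf (nat_lit 471295) (.g (nat_lit 1443) (.e (nat_lit 3402) (nat_lit 211) (.e (nat_lit 647183) (nat_lit 4) (.e (nat_lit 172080) (nat_lit 7) (.e (nat_lit 409618) (nat_lit 10) (.e (nat_lit 5363) (nat_lit 298) .nil))))) (.g (nat_lit 0) (.e (nat_lit 87205) (nat_lit 0) .nil) .nil))) 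
(.lf (nat_lit 471807) (.g (nat_lit 1996) (.e (nat_lit 3408) (nat_lit 212) (.e (nat_lit 655378) (nat_lit 4) (.e (nat_lit 172116) (nat_lit 10) (.e (nat_lit 434271) (nat_lit 38) (.e (nat_lit 655380) (nat_lit 6) (.e (nat_lit 188440) (nat_lit 20) .nil)))))) (.g (nat_lit 1) (.e (nat_lit 88112) (nat_lit 0) .nil) .nil)))) (.nd (nat_lit 9) 
(.lf (nat_lit 471551) (.g (nat_lit 4009) (.e (nat_lit 3407) (nat_lit 212) (.e (nat_lit 655375) (nat_lit 3) (.e (nat_lit 163977) (nat_lit 30) (.e (nat_lit 573485) (nat_lit 13) (.e (nat_lit 65604) (nat_lit 9) (.e (nat_lit 336013) (nat_lit 2) (.e (nat_lit 90170) (nat_lit 13) (.e (nat_lit 172049) (nat_lit 0) .nil)))))))) (.g (nat_lit 1) (.e (nat_lit 87691) (nat_lit 0) .nil) .nil))) 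
(.lf (nat_lit 472063) (.g (nat_lit 3128) (.e (nat_lit 3409) (nat_lit 212) (.e (nat_lit 655378) (nat_lit 4) (.e (nat_lit 172125) (nat_lit 14) (.e (nat_lit 491571) (nat_lit 13) (.e (nat_lit 393232) (nat_lit 17) (.e (nat_lit 7307) (nat_lit 388) (.e (nat_lit 2452) (nat_lit 157) .nil))))))) (.g (nat_lit 1) (.e (nat_lit 88481) (nat_lit 0) .nil) .nil)))))))))))))

noncomputable def tv5521 : DT := (.nd (nat_lit 0) (.nd (nat_lit 1) (.nd (nat_lit 2) (.nd (nat_lit 3) (.nd (nat_lit 4) (.nd (nat_lit 5) (.nd (nat_lit 6) (.nd (nat_lit 7) (.nd (nat_lit 8) (.nd (nat_lit 9) 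
(.lf (nat_lit 472064) (.g (nat_lit 2538) (.e (nat_lit 3409) (nat_lit 212) (.e (nat_lit 655378) (nat_lit 4) (.e (nat_lit 172125) (nat_lit 14) (.e (nat_lit 491571) (nat_lit 13) (.e (nat_lit 393275) (nat_lit 23) (.e (nat_lit 426033) (nat_lit 0) .nil)))))) (.g (nat_lit 1) (.e (nat_lit 88482) (nat_lit 0) .nil) .nil))) 
(.lf (nat_lit 472576) (.g (nat_lit 1998) (.e (nat_lit 3719) (nat_lit 227) (.e (nat_lit 778466) (nat_lit 11) (.e (nat_lit 24608) (nat_lit 3) (.e (nat_lit 98365) (nat_lit 26) (.e (nat_lit 426188) (nat_lit 9) .nil))))) (.g (nat_lit 0) (.e (nat_lit 90774) (nat_lit 0) .nil) .nil)))) (.nd (nat_lit 9) 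
(.lf (nat_lit 472320) (.g (nat_lit 1273) (.e (nat_lit 3631) (nat_lit 227) (.e (nat_lit 778326) (nat_lit 6) (.e (nat_lit 81922) (nat_lit 0) (.e (nat_lit 3632) (nat_lit 227) (.e (nat_lit 778326) (nat_lit 6) (.e (nat_lit 81924) (nat_lit 0) .nil)))))) (.g (nat_lit 1) (.e (nat_lit 90460) (nat_lit 0) .nil) .nil))) 
(.lf (nat_lit 472832) (.g (nat_lit 2036) (.e (nat_lit 3468) (nat_lit 217) (.e (nat_lit 696343) (nat_lit 8) (.e (nat_lit 172115) (nat_lit 10) (.e (nat_lit 434209) (nat_lit 18) (.e (nat_lit 6272) (nat_lit 337) .nil))))) (.g (nat_lit 0) (.e (nat_lit 91695) (nat_lit 0) .nil) .nil))))) (.nd (nat_lit 8) (.nd (nat_lit 9) 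
(.lf (nat_lit 472192) (.g (nat_lit 3290) (.e (nat_lit 3617) (nat_lit 227) (.e (nat_lit 778462) (nat_lit 11) (.e (nat_lit 24658) (nat_lit 13) (.e (nat_lit 393281) (nat_lit 23) (.e (nat_lit 426100) (nat_lit 1) (.e (nat_lit 164332) (nat_lit 230) (.e (nat_lit 163843) (nat_lit 0) .nil))))))) (.g (nat_lit 1) (.e (nat_lit 90328) (nat_lit 0) .nil) .nil))) 
(.lf (nat_lit 472704) (.g (nat_lit 2621) (.e (nat_lit 3771) (nat_lit 229) (.e (nat_lit 794668) (nat_lit 22) (.e (nat_lit 196666) (nat_lit 13) (.e (nat_lit 65571) (nat_lit 3) (.e (nat_lit 98334) (nat_lit 18) (.e (nat_lit 164159) (nat_lit 152) (.e (nat_lit 1027) (nat_lit 81) (.e (nat_lit 1255) (nat_lit 92) (.e (nat_lit 98321) (nat_lit 17) .nil))))))))) (.g (nat_lit 1) (.e (nat_lit 91278) (nat_lit 0) .nil) .nil)))) 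
(.nd (nat_lit 9) 
(.lf (nat_lit 472448) (.g (nat_lit 4757) (.e (nat_lit 3636) (nat_lit 227) (.e (nat_lit 778318) (nat_lit 3) (.e (nat_lit 57476) (nat_lit 28) (.e (nat_lit 557108) (nat_lit 15) (.e (nat_lit 188452) (nat_lit 23) (.e (nat_lit 204852) (nat_lit 26) (.e (nat_lit 336261) (nat_lit 15) .nil))))))) (.g (nat_lit 1) (.e (nat_lit 90595) (nat_lit 0) .nil) .nil))) 
(.lf (nat_lit 472960) (.g (nat_lit 2753) (.e (nat_lit 3469) (nat_lit 217) (.e (nat_lit 696344) (nat_lit 8) (.e (nat_lit 172079) (nat_lit 7) (.e (nat_lit 409648) (nat_lit 18) (.e (nat_lit 303137) (nat_lit 10) (.e (nat_lit 434275) (nat_lit 39) (.e (nat_lit 663574) (nat_lit 9) (.e (nat_lit 2466) (nat_lit 157) .nil)))))))) (.g (nat_lit 1) (.e (nat_lit 92088) (nat_lit 0) .nil) .nil)))))) 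
(.nd (nat_lit 7) (.nd (nat_lit 8) (.nd (nat_lit 9) 
(.lf (nat_lit 472128) (.g (nat_lit 2229) (.e (nat_lit 3606) (nat_lit 226) (.e (nat_lit 770072) (nat_lit 8) (.e (nat_lit 65571) (nat_lit 3) (.e (nat_lit 98370) (nat_lit 28) .nil)))) (.g (nat_lit 0) (.e (nat_lit 90254) (nat_lit 0) .nil) .nil))) 
(.lf (nat_lit 472640) (.g (nat_lit 3127) (.e (nat_lit 3747) (nat_lit 228) (.e (nat_lit 786473) (nat_lit 27) (.e (nat_lit 336051) (nat_lit 6) (.e (nat_lit 147495) (nat_lit 11) (.e (nat_lit 24606) (nat_lit 3) (.e (nat_lit 98341) (nat_lit 20) (.e (nat_lit 221204) (nat_lit 20) .nil))))))) (.g (nat_lit 1) (.e (nat_lit 91076) (nat_lit 0) .nil) .nil)))) (.nd (nat_lit 9) 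
(.lf (nat_lit 472384) (.g (nat_lit 292) (.e (nat_lit 3632) (nat_lit 227) (.e (nat_lit 778323) (nat_lit 5) (.e (nat_lit 73782) (nat_lit 32) .nil))) (.g (nat_lit 0) (.e (nat_lit 90526) (nat_lit 0) .nil) .nil))) 
(.lf (nat_lit 472896) (.g (nat_lit 3941) (.e (nat_lit 3468) (nat_lit 217) (.e (nat_lit 696344) (nat_lit 8) (.e (nat_lit 172115) (nat_lit 10) (.e (nat_lit 434209) (nat_lit 18) (.e (nat_lit 6425) (nat_lit 342) (.e (nat_lit 229412) (nat_lit 14) (.e (nat_lit 442411) (nat_lit 20) .nil))))))) (.g (nat_lit 1) (.e (nat_lit 91814) (nat_lit 0) .nil) .nil))))) (.nd (nat_lit 8) (.nd (nat_lit 9) 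
(.lf (nat_lit 472256) (.g (nat_lit 1250) (.e (nat_lit 3630) (nat_lit 227) (.e (nat_lit 778326) (nat_lit 6) (.e (nat_lit 81924) (nat_lit 0) (.e (nat_lit 3631) (nat_lit 227) (.e (nat_lit 778327) (nat_lit 6) (.e (nat_lit 81922) (nat_lit 0) .nil)))))) (.g (nat_lit 1) (.e (nat_lit 90395) (nat_lit 0) .nil) .nil))) 
(.lf (nat_lit 472768) (.g (nat_lit 4539) (.e (nat_lit 3464) (nat_lit 217) (.e (nat_lit 696344) (nat_lit 8) (.e (nat_lit 172126) (nat_lit 14) (.e (nat_lit 491566) (nat_lit 12) (.e (nat_lit 385109) (nat_lit 51) (.e (nat_lit 794683) (nat_lit 25) (.e (nat_lit 221198) (nat_lit 20) .nil))))))) (.g (nat_lit 1) (.e (nat_lit 91504) (nat_lit 0) .nil) .nil)))) (.nd (nat_lit 9) 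
(.lf (nat_lit 472512) (.g (nat_lit 3003) (.e (nat_lit 3711) (nat_lit 227) (.e (nat_lit 786176) (nat_lit 3) (.e (nat_lit 57480) (nat_lit 28) (.e (nat_lit 557107) (nat_lit 15) (.e (nat_lit 188447) (nat_lit 22) (.e (nat_lit 196666) (nat_lit 13) (.e (nat_lit 65639) (nat_lit 15) .nil))))))) (.g (nat_lit 1) (.e (nat_lit 90707) (nat_lit 0) .nil) .nil))) 
(.lf (nat_lit 473024) (.g (nat_lit 3135) (.e (nat_lit 3469) (nat_lit 217) (.e (nat_lit 696344) (nat_lit 8) (.e (nat_lit 172106) (nat_lit 10) (.e (nat_lit 434202) (nat_lit 18) (.e (nat_lit 6254) (nat_lit 337) (.e (nat_lit 2651) (nat_lit 166) (.e (nat_lit 188439) (nat_lit 20) .nil))))))) (.g (nat_lit 1) (.e (nat_lit 92156) (nat_lit 0) .nil) .nil))))))) 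
(.nd (nat_lit 6) (.nd (nat_lit 7) (.nd (nat_lit 8) (.nd (nat_lit 9) 
(.lf (nat_lit 472096) (.g (nat_lit 2512) (.e (nat_lit 3409) (nat_lit 212) (.e (nat_lit 655380) (nat_lit 6) (.e (nat_lit 188453) (nat_lit 24) (.e (nat_lit 229666) (nat_lit 240) (.e (nat_lit 2653) (nat_lit 166) (.e (nat_lit 188440) (nat_lit 20) .nil)))))) (.g (nat_lit 1) (.e (nat_lit 88520) (nat_lit 0) .nil) .nil))) 
(.lf (nat_lit 472608) (.g (nat_lit 4152) (.e (nat_lit 3744) (nat_lit 228) (.e (nat_lit 786477) (nat_lit 28) (.e (nat_lit 344177) (nat_lit 43) (.e (nat_lit 770072) (nat_lit 8) (.e (nat_lit 65571) (nat_lit 3) (.e (nat_lit 98342) (nat_lit 20) (.e (nat_lit 221198) (nat_lit 20) .nil))))))) (.g (nat_lit 1) (.e (nat_lit 90999) (nat_lit 0) .nil) .nil)))) (.nd (nat_lit 9) 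
(.lf (nat_lit 472352) (.g (nat_lit 6316) (.e (nat_lit 3632) (nat_lit 227) (.e (nat_lit 778318) (nat_lit 3) (.e (nat_lit 57476) (nat_lit 28) (.e (nat_lit 557108) (nat_lit 15) (.e (nat_lit 188449) (nat_lit 22) (.e (nat_lit 196664) (nat_lit 13) (.e (nat_lit 65637) (nat_lit 15) .nil))))))) (.g (nat_lit 1) (.e (nat_lit 90493) (nat_lit 0) .nil) .nil))) 
(.lf (nat_lit 472864) (.g (nat_lit 4032) (.e (nat_lit 3468) (nat_lit 217) (.e (nat_lit 696344) (nat_lit 8) (.e (nat_lit 172106) (nat_lit 10) (.e (nat_lit 434209) (nat_lit 18) (.e (nat_lit 6425) (nat_lit 342) (.e (nat_lit 229412) (nat_lit 14) (.e (nat_lit 442411) (nat_lit 20) .nil))))))) (.g (nat_lit 1) (.e (nat_lit 91744) (nat_lit 0) .nil) .nil))))) (.nd (nat_lit 8) (.nd (nat_lit 9) 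
(.lf (nat_lit 472224) (.g (nat_lit 2339) (.e (nat_lit 3629) (nat_lit 227) (.e (nat_lit 778326) (nat_lit 6) (.e (nat_lit 81957) (nat_lit 24) (.e (nat_lit 123197) (nat_lit 266) (.e (nat_lit 57435) (nat_lit 17) (.e (nat_lit 376835) (nat_lit 0) .nil)))))) (.g (nat_lit 1) (.e (nat_lit 90362) (nat_lit 0) .nil) .nil))) 
(.lf (nat_lit 472736) (.g (nat_lit 820) (.e (nat_lit 3464) (nat_lit 217) (.e (nat_lit 696343) (nat_lit 8) (.e (nat_lit 172106) (nat_lit 10) (.e (nat_lit 434202) (nat_lit 18) .nil)))) (.g (nat_lit 0) (.e (nat_lit 91472) (nat_lit 0) .nil) .nil)))) (.nd (nat_lit 9) 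
(.lf (nat_lit 472480) (.g (nat_lit 1781) (.e (nat_lit 3660) (nat_lit 227) (.e (nat_lit 778462) (nat_lit 11) (.e (nat_lit 24604) (nat_lit 2) (.e (nat_lit 90185) (nat_lit 17) (.e (nat_lit 237616) (nat_lit 12) (.e (nat_lit 475177) (nat_lit 24) (.e (nat_lit 516097) (nat_lit 0) .nil))))))) (.g (nat_lit 1) (.e (nat_lit 90645) (nat_lit 0) .nil) .nil))) 
(.lf (nat_lit 472992) (.g (nat_lit 2219) (.e (nat_lit 3469) (nat_lit 217) (.e (nat_lit 696344) (nat_lit 8) (.e (nat_lit 172082) (nat_lit 7) (.e (nat_lit 409646) (nat_lit 18) (.e (nat_lit 303139) (nat_lit 10) .nil))))) (.g (nat_lit 0) (.e (nat_lit 92120) (nat_lit 0) .nil) .nil)))))) (.nd (nat_lit 7) (.nd (nat_lit 8) (.nd (nat_lit 9) 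
(.lf (nat_lit 472160) (.g (nat_lit 2461) (.e (nat_lit 3613) (nat_lit 226) (.e (nat_lit 770072) (nat_lit 8) (.e (nat_lit 65586) (nat_lit 7) (.e (nat_lit 319531) (nat_lit 16) (.e (nat_lit 286759) (nat_lit 12) (.e (nat_lit 385110) (nat_lit 52) (.e (nat_lit 802829) (nat_lit 20) .nil))))))) (.g (nat_lit 1) (.e (nat_lit 90288) (nat_lit 0) .nil) .nil))) 
(.lf (nat_lit 472672) (.g (nat_lit 2306) (.e (nat_lit 3748) (nat_lit 228) (.e (nat_lit 786473) (nat_lit 27) (.e (nat_lit 336235) (nat_lit 14) (.e (nat_lit 401459) (nat_lit 13) (.e (nat_lit 491264) (nat_lit 23) (.e (nat_lit 336278) (nat_lit 15) .nil)))))) (.g (nat_lit 1) (.e (nat_lit 91115) (nat_lit 0) .nil) .nil)))) (.nd (nat_lit 9) 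
(.lf (nat_lit 472416) (.g (nat_lit 581) (.e (nat_lit 3632) (nat_lit 227) (.e (nat_lit 778326) (nat_lit 6) (.e (nat_lit 81920) (nat_lit 0) (.e (nat_lit 3714) (nat_lit 227) (.e (nat_lit 778325) (nat_lit 6) .nil))))) (.g (nat_lit 0) (.e (nat_lit 90559) (nat_lit 0) .nil) .nil))) 
(.lf (nat_lit 472928) (.g (nat_lit 2340) (.e (nat_lit 3469) (nat_lit 217) (.e (nat_lit 696344) (nat_lit 8) (.e (nat_lit 172079) (nat_lit 7) (.e (nat_lit 409645) (nat_lit 18) (.e (nat_lit 303135) (nat_lit 10) (.e (nat_lit 434203) (nat_lit 18) (.e (nat_lit 5964) (nat_lit 324) (.e (nat_lit 163850) (nat_lit 0) .nil)))))))) (.g (nat_lit 1) (.e (nat_lit 92056) (nat_lit 0) .nil) .nil))))) 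
(.nd (nat_lit 8) (.nd (nat_lit 9) 
(.lf (nat_lit 472288) (.g (nat_lit 3347) (.e (nat_lit 3631) (nat_lit 227) (.e (nat_lit 778323) (nat_lit 5) (.e (nat_lit 73781) (nat_lit 32) (.e (nat_lit 3090) (nat_lit 191) (.e (nat_lit 483380) (nat_lit 23) (.e (nat_lit 336264) (nat_lit 15) .nil)))))) (.g (nat_lit 1) (.e (nat_lit 90428) (nat_lit 0) .nil) .nil))) 
(.lf (nat_lit 472800) (.g (nat_lit 2432) (.e (nat_lit 3468) (nat_lit 217) (.e (nat_lit 696343) (nat_lit 8) (.e (nat_lit 172106) (nat_lit 10) (.e (nat_lit 434209) (nat_lit 18) (.e (nat_lit 6425) (nat_lit 342) (.e (nat_lit 229412) (nat_lit 14) (.e (nat_lit 442412) (nat_lit 20) .nil))))))) (.g (nat_lit 1) (.e (nat_lit 91632) (nat_lit 0) .nil) .nil)))) (.nd (nat_lit 9) 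
(.lf (nat_lit 472544) (.g (nat_lit 3965) (.e (nat_lit 3714) (nat_lit 227) (.e (nat_lit 778316) (nat_lit 3) (.e (nat_lit 57480) (nat_lit 28) (.e (nat_lit 557098) (nat_lit 13) (.e (nat_lit 172115) (nat_lit 10) (.e (nat_lit 434231) (nat_lit 23) (.e (nat_lit 532535) (nat_lit 9) (.e (nat_lit 336290) (nat_lit 15) .nil)))))))) (.g (nat_lit 1) (.e (nat_lit 90741) (nat_lit 0) .nil) .nil))) 
(.lf (nat_lit 473056) (.g (nat_lit 2526) (.e (nat_lit 3469) (nat_lit 217) (.e (nat_lit 696344) (nat_lit 8) (.e (nat_lit 172106) (nat_lit 10) (.e (nat_lit 434288) (nat_lit 43) (.e (nat_lit 696346) (nat_lit 10) (.e (nat_lit 188438) (nat_lit 20) .nil)))))) (.g (nat_lit 1) (.e (nat_lit 92188) (nat_lit 0) .nil) .nil)))))))) 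
(.nd (nat_lit 5) (.nd (nat_lit 6) (.nd (nat_lit 7) (.nd (nat_lit 8) (.nd (nat_lit 9) 
(.lf (nat_lit 472080) (.g (nat_lit 2604) (.e (nat_lit 3409) (nat_lit 212) (.e (nat_lit 655378) (nat_lit 4) (.e (nat_lit 172126) (nat_lit 14) (.e (nat_lit 491571) (nat_lit 13) (.e (nat_lit 393232) (nat_lit 17) (.e (nat_lit 7307) (nat_lit 388) (.e (nat_lit 2452) (nat_lit 157) .nil))))))) (.g (nat_lit 1) (.e (nat_lit 88498) (nat_lit 0) .nil) .nil))) 
(.lf (nat_lit 472592) (.g (nat_lit 3024) (.e (nat_lit 3724) (nat_lit 227) (.e (nat_lit 778466) (nat_lit 11) (.e (nat_lit 24617) (nat_lit 7) (.e (nat_lit 319534) (nat_lit 16) (.e (nat_lit 286756) (nat_lit 10) (.e (nat_lit 344168) (nat_lit 40) (.e (nat_lit 671771) (nat_lit 9) (.e (nat_lit 2419) (nat_lit 157) .nil)))))))) (.g (nat_lit 1) (.e (nat_lit 90794) (nat_lit 0) .nil) .nil)))) 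
(.nd (nat_lit 9) 
(.lf (nat_lit 472336) (.g (nat_lit 4592) (.e (nat_lit 3632) (nat_lit 227) (.e (nat_lit 778318) (nat_lit 3) (.e (nat_lit 57476) (nat_lit 28) (.e (nat_lit 557097) (nat_lit 13) (.e (nat_lit 172106) (nat_lit 10) (.e (nat_lit 434231) (nat_lit 23) (.e (nat_lit 532535) (nat_lit 9) (.e (nat_lit 336295) (nat_lit 15) .nil)))))))) (.g (nat_lit 1) (.e (nat_lit 90477) (nat_lit 0) .nil) .nil))) 
(.lf (nat_lit 472848) (.g (nat_lit 2828) (.e (nat_lit 3468) (nat_lit 217) (.e (nat_lit 696344) (nat_lit 8) (.e (nat_lit 172064) (nat_lit 2) (.e (nat_lit 196666) (nat_lit 13) (.e (nat_lit 65610) (nat_lit 10) (.e (nat_lit 344129) (nat_lit 26) (.e (nat_lit 557067) (nat_lit 9) (.e (nat_lit 2466) (nat_lit 157) .nil)))))))) (.g (nat_lit 1) (.e (nat_lit 91716) (nat_lit 0) .nil) .nil))))) 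
(.nd (nat_lit 8) (.nd (nat_lit 9) 
(.lf (nat_lit 472208) (.g (nat_lit 5330) (.e (nat_lit 3629) (nat_lit 227) (.e (nat_lit 778317) (nat_lit 3) (.e (nat_lit 57475) (nat_lit 28) (.e (nat_lit 557100) (nat_lit 13) (.e (nat_lit 172106) (nat_lit 10) (.e (nat_lit 434231) (nat_lit 23) (.e (nat_lit 532535) (nat_lit 9) (.e (nat_lit 336295) (nat_lit 15) .nil)))))))) (.g (nat_lit 1) (.e (nat_lit 90345) (nat_lit 0) .nil) .nil))) 
(.lf (nat_lit 472720) (.g (nat_lit 3660) (.e (nat_lit 3453) (nat_lit 216) (.e (nat_lit 688175) (nat_lit 16) (.e (nat_lit 65568) (nat_lit 2) (.e (nat_lit 90170) (nat_lit 13) (.e (nat_lit 172106) (nat_lit 10) (.e (nat_lit 434231) (nat_lit 23) (.e (nat_lit 540416) (nat_lit 17) .nil))))))) (.g (nat_lit 1) (.e (nat_lit 91394) (nat_lit 0) .nil) .nil)))) (.nd (nat_lit 9) 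
(.lf (nat_lit 472464) (.g (nat_lit 1607) (.e (nat_lit 3653) (nat_lit 227) (.e (nat_lit 778462) (nat_lit 11) (.e (nat_lit 24628) (nat_lit 9) (.e (nat_lit 336443) (nat_lit 32) (.e (nat_lit 466969) (nat_lit 21) .nil))))) (.g (nat_lit 0) (.e (nat_lit 90614) (nat_lit 0) .nil) .nil))) 
(.lf (nat_lit 472976) (.g (nat_lit 3669) (.e (nat_lit 3469) (nat_lit 217) (.e (nat_lit 696344) (nat_lit 8) (.e (nat_lit 172081) (nat_lit 7) (.e (nat_lit 409648) (nat_lit 18) (.e (nat_lit 303137) (nat_lit 10) (.e (nat_lit 434275) (nat_lit 39) (.e (nat_lit 663580) (nat_lit 9) (.e (nat_lit 2416) (nat_lit 157) .nil)))))))) (.g (nat_lit 1) (.e (nat_lit 92104) (nat_lit 0) .nil) .nil)))))) 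
(.nd (nat_lit 7) (.nd (nat_lit 8) (.nd (nat_lit 9) 
(.lf (nat_lit 472144) (.g (nat_lit 2710) (.e (nat_lit 3613) (nat_lit 226) (.e (nat_lit 770072) (nat_lit 8) (.e (nat_lit 65571) (nat_lit 3) (.e (nat_lit 98370) (nat_lit 28) (.e (nat_lit 450304) (nat_lit 3) .nil))))) (.g (nat_lit 0) (.e (nat_lit 90272) (nat_lit 0) .nil) .nil))) 
(.lf (nat_lit 472656) (.g (nat_lit 2131) (.e (nat_lit 3747) (nat_lit 228) (.e (nat_lit 786473) (nat_lit 27) (.e (nat_lit 336429) (nat_lit 29) (.e (nat_lit 442425) (nat_lit 23) (.e (nat_lit 204817) (nat_lit 17) (.e (nat_lit 7936) (nat_lit 153) (.e (nat_lit 794655) (nat_lit 20) .nil))))))) (.g (nat_lit 1) (.e (nat_lit 91092) (nat_lit 0) .nil) .nil)))) (.nd (nat_lit 9) 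
(.lf (nat_lit 472400) (.g (nat_lit 1362) (.e (nat_lit 3632) (nat_lit 227) (.e (nat_lit 778323) (nat_lit 5) (.e (nat_lit 73782) (nat_lit 32) (.e (nat_lit 3090) (nat_lit 191) (.e (nat_lit 491264) (nat_lit 23) .nil))))) (.g (nat_lit 0) (.e (nat_lit 90542) (nat_lit 0) .nil) .nil))) 
(.lf (nat_lit 472912) (.g (nat_lit 4530) (.e (nat_lit 3469) (nat_lit 217) (.e (nat_lit 696344) (nat_lit 8) (.e (nat_lit 172064) (nat_lit 2) (.e (nat_lit 196666) (nat_lit 13) (.e (nat_lit 65617) (nat_lit 10) (.e (nat_lit 344130) (nat_lit 26) (.e (nat_lit 557067) (nat_lit 9) (.e (nat_lit 2467) (nat_lit 157) .nil)))))))) (.g (nat_lit 1) (.e (nat_lit 92040) (nat_lit 0) .nil) .nil))))) 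
(.nd (nat_lit 8) (.nd (nat_lit 9) 
(.lf (nat_lit 472272) (.g (nat_lit 2359) (.e (nat_lit 3631) (nat_lit 227) (.e (nat_lit 778318) (nat_lit 3) (.e (nat_lit 57476) (nat_lit 28) (.e (nat_lit 557097) (nat_lit 13) (.e (nat_lit 172115) (nat_lit 10) (.e (nat_lit 434231) (nat_lit 23) (.e (nat_lit 532531) (nat_lit 9) (.e (nat_lit 336263) (nat_lit 15) .nil)))))))) (.g (nat_lit 1) (.e (nat_lit 90411) (nat_lit 0) .nil) .nil))) 
(.lf (nat_lit 472784) (.g (nat_lit 2047) (.e (nat_lit 3467) (nat_lit 217) (.e (nat_lit 696344) (nat_lit 8) (.e (nat_lit 172106) (nat_lit 10) (.e (nat_lit 434209) (nat_lit 18) (.e (nat_lit 6273) (nat_lit 337) (.e (nat_lit 2645) (nat_lit 166) (.e (nat_lit 188435) (nat_lit 20) .nil))))))) (.g (nat_lit 1) (.e (nat_lit 91551) (nat_lit 0) .nil) .nil)))) (.nd (nat_lit 9) 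
(.lf (nat_lit 472528) (.g (nat_lit 2714) (.e (nat_lit 3711) (nat_lit 227) (.e (nat_lit 778469) (nat_lit 11) (.e (nat_lit 24658) (nat_lit 13) (.e (nat_lit 393281) (nat_lit 23) (.e (nat_lit 426099) (nat_lit 1) (.e (nat_lit 164330) (nat_lit 230) (.e (nat_lit 163846) (nat_lit 0) .nil))))))) (.g (nat_lit 1) (.e (nat_lit 90723) (nat_lit 0) .nil) .nil))) 
(.lf (nat_lit 473040) (.g (nat_lit 2647) (.e (nat_lit 3469) (nat_lit 217) (.e (nat_lit 696344) (nat_lit 8) (.e (nat_lit 172106) (nat_lit 10) (.e (nat_lit 434209) (nat_lit 18) (.e (nat_lit 6284) (nat_lit 337) (.e (nat_lit 2644) (nat_lit 166) (.e (nat_lit 188435) (nat_lit 20) .nil))))))) (.g (nat_lit 1) (.e (nat_lit 92172) (nat_lit 0) .nil) .nil))))))) 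
(.nd (nat_lit 6) (.nd (nat_lit 7) (.nd (nat_lit 8) (.nd (nat_lit 9) 
(.lf (nat_lit 472112) (.g (nat_lit 1163) (.e (nat_lit 3604) (nat_lit 225) (.e (nat_lit 761914) (nat_lit 18) (.e (nat_lit 188446) (nat_lit 21) (.e (nat_lit 164301) (nat_lit 226) .nil)))) (.g (nat_lit 0) (.e (nat_lit 89189) (nat_lit 0) .nil) .nil))) 
(.lf (nat_lit 472624) (.g (nat_lit 2333) (.e (nat_lit 3746) (nat_lit 228) (.e (nat_lit 786481) (nat_lit 30) (.e (nat_lit 360456) (nat_lit 0) (.e (nat_lit 5949) (nat_lit 322) (.e (nat_lit 57436) (nat_lit 17) (.e (nat_lit 376835) (nat_lit 0) .nil)))))) (.g (nat_lit 1) (.e (nat_lit 91058) (nat_lit 0) .nil) .nil)))) (.nd (nat_lit 9) 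
(.lf (nat_lit 472368) (.g (nat_lit 759) (.e (nat_lit 3632) (nat_lit 227) (.e (nat_lit 778323) (nat_lit 5) (.e (nat_lit 73781) (nat_lit 32) (.e (nat_lit 3089) (nat_lit 191) .nil)))) (.g (nat_lit 0) (.e (nat_lit 90510) (nat_lit 0) .nil) .nil))) 
(.lf (nat_lit 472880) (.g (nat_lit 2606) (.e (nat_lit 3468) (nat_lit 217) (.e (nat_lit 696344) (nat_lit 8) (.e (nat_lit 172112) (nat_lit 10) (.e (nat_lit 434289) (nat_lit 43) (.e (nat_lit 696346) (nat_lit 10) (.e (nat_lit 188438) (nat_lit 20) .nil)))))) (.g (nat_lit 1) (.e (nat_lit 91770) (nat_lit 0) .nil) .nil))))) (.nd (nat_lit 8) (.nd (nat_lit 9) 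
(.lf (nat_lit 472240) (.g (nat_lit 3443) (.e (nat_lit 3630) (nat_lit 227) (.e (nat_lit 778318) (nat_lit 3) (.e (nat_lit 57474) (nat_lit 28) (.e (nat_lit 557100) (nat_lit 13) (.e (nat_lit 172106) (nat_lit 10) (.e (nat_lit 434231) (nat_lit 23) (.e (nat_lit 532535) (nat_lit 9) (.e (nat_lit 336295) (nat_lit 15) .nil)))))))) (.g (nat_lit 1) (.e (nat_lit 90379) (nat_lit 0) .nil) .nil))) 
(.lf (nat_lit 472752) (.g (nat_lit 1936) (.e (nat_lit 3464) (nat_lit 217) (.e (nat_lit 696344) (nat_lit 8) (.e (nat_lit 172079) (nat_lit 7) (.e (nat_lit 409645) (nat_lit 18) (.e (nat_lit 303140) (nat_lit 10) .nil))))) (.g (nat_lit 0) (.e (nat_lit 91488) (nat_lit 0) .nil) .nil)))) (.nd (nat_lit 9) 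
(.lf (nat_lit 472496) (.g (nat_lit 1399) (.e (nat_lit 3703) (nat_lit 227) (.e (nat_lit 778466) (nat_lit 11) (.e (nat_lit 24608) (nat_lit 3) (.e (nat_lit 98365) (nat_lit 26) .nil)))) (.g (nat_lit 0) (.e (nat_lit 90687) (nat_lit 0) .nil) .nil))) 
(.lf (nat_lit 473008) (.g (nat_lit 2826) (.e (nat_lit 3469) (nat_lit 217) (.e (nat_lit 696344) (nat_lit 8) (.e (nat_lit 172082) (nat_lit 7) (.e (nat_lit 409649) (nat_lit 18) (.e (nat_lit 303137) (nat_lit 10) (.e (nat_lit 434275) (nat_lit 39) (.e (nat_lit 663574) (nat_lit 9) (.e (nat_lit 2467) (nat_lit 157) .nil)))))))) (.g (nat_lit 1) (.e (nat_lit 92136) (nat_lit 0) .nil) .nil)))))) 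
(.nd (nat_lit 7) (.nd (nat_lit 8) (.nd (nat_lit 9) 
(.lf (nat_lit 472176) (.g (nat_lit 3045) (.e (nat_lit 3617) (nat_lit 227) (.e (nat_lit 778462) (nat_lit 11) (.e (nat_lit 24604) (nat_lit 2) (.e (nat_lit 90185) (nat_lit 17) (.e (nat_lit 237605) (nat_lit 9) (.e (nat_lit 426436) (nat_lit 18) (.e (nat_lit 98321) (nat_lit 17) .nil))))))) (.g (nat_lit 1) (.e (nat_lit 90307) (nat_lit 0) .nil) .nil))) 
(.lf (nat_lit 472688) (.g (nat_lit 2848) (.e (nat_lit 3748) (nat_lit 228) (.e (nat_lit 786483) (nat_lit 30) (.e (nat_lit 360456) (nat_lit 0) (.e (nat_lit 5949) (nat_lit 322) (.e (nat_lit 57435) (nat_lit 17) (.e (nat_lit 376835) (nat_lit 0) .nil)))))) (.g (nat_lit 1) (.e (nat_lit 91167) (nat_lit 0) .nil) .nil)))) (.nd (nat_lit 9) 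
(.lf (nat_lit 472432) (.g (nat_lit 2165) (.e (nat_lit 3634) (nat_lit 227) (.e (nat_lit 778318) (nat_lit 3) (.e (nat_lit 57476) (nat_lit 28) (.e (nat_lit 557097) (nat_lit 13) (.e (nat_lit 172115) (nat_lit 10) (.e (nat_lit 434231) (nat_lit 23) (.e (nat_lit 532531) (nat_lit 9) (.e (nat_lit 336260) (nat_lit 15) .nil)))))))) (.g (nat_lit 1) (.e (nat_lit 90579) (nat_lit 0) .nil) .nil))) 
(.lf (nat_lit 472944) (.g (nat_lit 2421) (.e (nat_lit 3469) (nat_lit 217) (.e (nat_lit 696344) (nat_lit 8) (.e (nat_lit 172079) (nat_lit 7) (.e (nat_lit 409645) (nat_lit 18) (.e (nat_lit 303139) (nat_lit 10) (.e (nat_lit 434276) (nat_lit 39) (.e (nat_lit 663574) (nat_lit 9) (.e (nat_lit 2456) (nat_lit 157) .nil)))))))) (.g (nat_lit 1) (.e (nat_lit 92072) (nat_lit 0) .nil) .nil))))) 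
(.nd (nat_lit 8) (.nd (nat_lit 9) 
(.lf (nat_lit 472304) (.g (nat_lit 1776) (.e (nat_lit 3631) (nat_lit 227) (.e (nat_lit 778323) (nat_lit 5) (.e (nat_lit 73782) (nat_lit 32) (.e (nat_lit 3089) (nat_lit 191) (.e (nat_lit 483393) (nat_lit 23) (.e (nat_lit 336293) (nat_lit 15) .nil)))))) (.g (nat_lit 1) (.e (nat_lit 90444) (nat_lit 0) .nil) .nil))) 
(.lf (nat_lit 472816) (.g (nat_lit 3064) (.e (nat_lit 3468) (nat_lit 217) (.e (nat_lit 696343) (nat_lit 8) (.e (nat_lit 172112) (nat_lit 10) (.e (nat_lit 434289) (nat_lit 43) (.e (nat_lit 696346) (nat_lit 10) (.e (nat_lit 188434) (nat_lit 20) .nil)))))) (.g (nat_lit 1) (.e (nat_lit 91654) (nat_lit 0) .nil) .nil)))) (.nd (nat_lit 9) 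
(.lf (nat_lit 472560) (.g (nat_lit 1510) (.e (nat_lit 3715) (nat_lit 227) (.e (nat_lit 778325) (nat_lit 6) (.e (nat_lit 81922) (nat_lit 0) (.e (nat_lit 3631) (nat_lit 227) (.e (nat_lit 778327) (nat_lit 6) (.e (nat_lit 81920) (nat_lit 0) .nil)))))) (.g (nat_lit 1) (.e (nat_lit 90758) (nat_lit 0) .nil) .nil))) 
(.lf (nat_lit 473072) (.g (nat_lit 2075) (.e (nat_lit 3469) (nat_lit 217) (.e (nat_lit 696344) (nat_lit 8) (.e (nat_lit 172113) (nat_lit 10) (.e (nat_lit 434203) (nat_lit 18) (.e (nat_lit 6255) (nat_lit 337) (.e (nat_lit 2651) (nat_lit 166) (.e (nat_lit 188435) (nat_lit 20) .nil))))))) (.g (nat_lit 1) (.e (nat_lit 92204) (nat_lit 0) .nil) .nil))))))))) 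
(.nd (nat_lit 4) (.nd (nat_lit 5) (.nd (nat_lit 6) (.nd (nat_lit 7) (.nd (nat_lit 8) 
(.nd (nat_lit 9) 
(.lf (nat_lit 472072) (.g (nat_lit 2605) (.e (nat_lit 3409) (nat_lit 212) (.e (nat_lit 655378) (nat_lit 4) (.e (nat_lit 172125) (nat_lit 14) (.e (nat_lit 491571) (nat_lit 13) (.e (nat_lit 393281) (nat_lit 23) .nil))))) (.g (nat_lit 0) (.e (nat_lit 88490) (nat_lit 0) .nil) .nil))) 
(.lf (nat_lit 472584) (.g (nat_lit 3300) (.e (nat_lit 3720) (nat_lit 227) (.e (nat_lit 778466) (nat_lit 11) (.e (nat_lit 24617) (nat_lit 7) (.e (nat_lit 319533) (nat_lit 16) (.e (nat_lit 286753) (nat_lit 10) .nil))))) (.g (nat_lit 0) (.e (nat_lit 90783) (nat_lit 0) .nil) .nil)))) (.nd (nat_lit 9) 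
(.lf (nat_lit 472328) (.g (nat_lit 2206) (.e (nat_lit 3632) (nat_lit 227) (.e (nat_lit 778317) (nat_lit 3) (.e (nat_lit 57477) (nat_lit 28) (.e (nat_lit 557095) (nat_lit 13) (.e (nat_lit 172115) (nat_lit 10) (.e (nat_lit 434231) (nat_lit 23) (.e (nat_lit 532535) (nat_lit 9) (.e (nat_lit 336282) (nat_lit 15) .nil)))))))) (.g (nat_lit 1) (.e (nat_lit 90469) (nat_lit 0) .nil) .nil))) 
(.lf (nat_lit 472840) (.g (nat_lit 2135) (.e (nat_lit 3468) (nat_lit 217) (.e (nat_lit 696343) (nat_lit 8) (.e (nat_lit 172115) (nat_lit 10) (.e (nat_lit 434289) (nat_lit 43) (.e (nat_lit 696346) (nat_lit 10) (.e (nat_lit 188441) (nat_lit 20) .nil)))))) (.g (nat_lit 1) (.e (nat_lit 91706) (nat_lit 0) .nil) .nil))))) (.nd (nat_lit 8) (.nd (nat_lit 9) 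
(.lf (nat_lit 472200) (.g (nat_lit 3668) (.e (nat_lit 3619) (nat_lit 227) (.e (nat_lit 778318) (nat_lit 3) (.e (nat_lit 57476) (nat_lit 28) (.e (nat_lit 557108) (nat_lit 15) (.e (nat_lit 188452) (nat_lit 23) (.e (nat_lit 204852) (nat_lit 26) (.e (nat_lit 336259) (nat_lit 15) .nil))))))) (.g (nat_lit 1) (.e (nat_lit 90337) (nat_lit 0) .nil) .nil))) 
(.lf (nat_lit 472712) (.g (nat_lit 2366) (.e (nat_lit 3771) (nat_lit 229) (.e (nat_lit 794673) (nat_lit 23) (.e (nat_lit 204830) (nat_lit 18) (.e (nat_lit 57926) (nat_lit 282) (.e (nat_lit 163875) (nat_lit 3) .nil))))) (.g (nat_lit 0) (.e (nat_lit 91294) (nat_lit 0) .nil) .nil)))) (.nd (nat_lit 9) 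
(.lf (nat_lit 472456) (.g (nat_lit 2961) (.e (nat_lit 3651) (nat_lit 227) (.e (nat_lit 778462) (nat_lit 11) (.e (nat_lit 24604) (nat_lit 2) (.e (nat_lit 90185) (nat_lit 17) (.e (nat_lit 237605) (nat_lit 9) (.e (nat_lit 426436) (nat_lit 18) (.e (nat_lit 98321) (nat_lit 17) .nil))))))) (.g (nat_lit 1) (.e (nat_lit 90603) (nat_lit 0) .nil) .nil))) 
(.lf (nat_lit 472968) (.g (nat_lit 4697) (.e (nat_lit 3469) (nat_lit 217) (.e (nat_lit 696344) (nat_lit 8) (.e (nat_lit 172079) (nat_lit 7) (.e (nat_lit 409649) (nat_lit 18) (.e (nat_lit 303140) (nat_lit 10) (.e (nat_lit 434275) (nat_lit 39) (.e (nat_lit 663574) (nat_lit 9) (.e (nat_lit 2472) (nat_lit 157) .nil)))))))) (.g (nat_lit 1) (.e (nat_lit 92096) (nat_lit 0) .nil) .nil)))))) 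
(.nd (nat_lit 7) (.nd (nat_lit 8) (.nd (nat_lit 9) 
(.lf (nat_lit 472136) (.g (nat_lit 2946) (.e (nat_lit 3608) (nat_lit 226) (.e (nat_lit 770072) (nat_lit 8) (.e (nat_lit 65571) (nat_lit 3) (.e (nat_lit 98370) (nat_lit 28) (.e (nat_lit 450304) (nat_lit 3) .nil))))) (.g (nat_lit 0) (.e (nat_lit 90262) (nat_lit 0) .nil) .nil))) 
(.lf (nat_lit 472648) (.g (nat_lit 2201) (.e (nat_lit 3747) (nat_lit 228) (.e (nat_lit 786473) (nat_lit 27) (.e (nat_lit 336235) (nat_lit 14) (.e (nat_lit 401435) (nat_lit 9) (.e (nat_lit 426540) (nat_lit 29) (.e (nat_lit 352260) (nat_lit 0) .nil)))))) (.g (nat_lit 1) (.e (nat_lit 91084) (nat_lit 0) .nil) .nil)))) (.nd (nat_lit 9) 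
(.lf (nat_lit 472392) (.g (nat_lit 3453) (.e (nat_lit 3632) (nat_lit 227) (.e (nat_lit 778323) (nat_lit 5) (.e (nat_lit 73782) (nat_lit 32) (.e (nat_lit 3090) (nat_lit 191) (.e (nat_lit 483380) (nat_lit 23) (.e (nat_lit 336264) (nat_lit 15) .nil)))))) (.g (nat_lit 1) (.e (nat_lit 90534) (nat_lit 0) .nil) .nil))) 
(.lf (nat_lit 472904) (.g (nat_lit 2278) (.e (nat_lit 3468) (nat_lit 217) (.e (nat_lit 696344) (nat_lit 8) (.e (nat_lit 172116) (nat_lit 10) (.e (nat_lit 434289) (nat_lit 43) (.e (nat_lit 696346) (nat_lit 10) (.e (nat_lit 188439) (nat_lit 20) .nil)))))) (.g (nat_lit 1) (.e (nat_lit 91826) (nat_lit 0) .nil) .nil))))) (.nd (nat_lit 8) (.nd (nat_lit 9) 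
(.lf (nat_lit 472264) (.g (nat_lit 4547) (.e (nat_lit 3631) (nat_lit 227) (.e (nat_lit 778318) (nat_lit 3) (.e (nat_lit 57476) (nat_lit 28) (.e (nat_lit 557097) (nat_lit 13) (.e (nat_lit 172097) (nat_lit 9) (.e (nat_lit 426125) (nat_lit 2) (.e (nat_lit 196666) (nat_lit 13) (.e (nat_lit 65642) (nat_lit 15) .nil)))))))) (.g (nat_lit 1) (.e (nat_lit 90403) (nat_lit 0) .nil) .nil))) 
(.lf (nat_lit 472776) (.g (nat_lit 2836) (.e (nat_lit 3467) (nat_lit 217) (.e (nat_lit 696344) (nat_lit 8) (.e (nat_lit 172079) (nat_lit 7) (.e (nat_lit 409645) (nat_lit 18) (.e (nat_lit 303137) (nat_lit 10) (.e (nat_lit 434275) (nat_lit 39) (.e (nat_lit 663580) (nat_lit 9) (.e (nat_lit 2416) (nat_lit 157) .nil)))))))) (.g (nat_lit 1) (.e (nat_lit 91539) (nat_lit 0) .nil) .nil)))) 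
(.nd (nat_lit 9) 
(.lf (nat_lit 472520) (.g (nat_lit 1795) (.e (nat_lit 3711) (nat_lit 227) (.e (nat_lit 778469) (nat_lit 11) (.e (nat_lit 24604) (nat_lit 2) (.e (nat_lit 90178) (nat_lit 15) (.e (nat_lit 196352) (nat_lit 3) (.e (nat_lit 98325) (nat_lit 17) .nil)))))) (.g (nat_lit 1) (.e (nat_lit 90715) (nat_lit 0) .nil) .nil))) 
(.lf (nat_lit 473032) (.g (nat_lit 2587) (.e (nat_lit 3469) (nat_lit 217) (.e (nat_lit 696344) (nat_lit 8) (.e (nat_lit 172106) (nat_lit 10) (.e (nat_lit 434209) (nat_lit 18) (.e (nat_lit 6271) (nat_lit 337) (.e (nat_lit 2645) (nat_lit 166) (.e (nat_lit 188435) (nat_lit 20) .nil))))))) (.g (nat_lit 1) (.e (nat_lit 92164) (nat_lit 0) .nil) .nil))))))) 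
(.nd (nat_lit 6) (.nd (nat_lit 7) (.nd (nat_lit 8) (.nd (nat_lit 9) 
(.lf (nat_lit 472104) (.g (nat_lit 735) (.e (nat_lit 3601) (nat_lit 225) (.e (nat_lit 761912) (nat_lit 18) (.e (nat_lit 196352) (nat_lit 0) (.e (nat_lit 2032) (nat_lit 140) (.e (nat_lit 688184) (nat_lit 18) (.e (nat_lit 89856) (nat_lit 0) .nil)))))) (.g (nat_lit 1) (.e (nat_lit 88635) (nat_lit 0) .nil) .nil))) 
(.lf (nat_lit 472616) (.g (nat_lit 1313) (.e (nat_lit 3746) (nat_lit 228) (.e (nat_lit 786480) (nat_lit 29) (.e (nat_lit 352318) (nat_lit 24) (.e (nat_lit 123194) (nat_lit 266) .nil)))) (.g (nat_lit 0) (.e (nat_lit 91050) (nat_lit 0) .nil) .nil)))) (.nd (nat_lit 9) 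
(.lf (nat_lit 472360) (.g (nat_lit 5110) (.e (nat_lit 3632) (nat_lit 227) (.e (nat_lit 778318) (nat_lit 3) (.e (nat_lit 57478) (nat_lit 28) (.e (nat_lit 557100) (nat_lit 13) (.e (nat_lit 172106) (nat_lit 10) (.e (nat_lit 434231) (nat_lit 23) (.e (nat_lit 532535) (nat_lit 9) (.e (nat_lit 336295) (nat_lit 15) .nil)))))))) (.g (nat_lit 1) (.e (nat_lit 90501) (nat_lit 0) .nil) .nil))) 
(.lf (nat_lit 472872) (.g (nat_lit 3483) (.e (nat_lit 3468) (nat_lit 217) (.e (nat_lit 696344) (nat_lit 8) (.e (nat_lit 172106) (nat_lit 10) (.e (nat_lit 434289) (nat_lit 43) (.e (nat_lit 696346) (nat_lit 10) (.e (nat_lit 188434) (nat_lit 20) .nil)))))) (.g (nat_lit 1) (.e (nat_lit 91756) (nat_lit 0) .nil) .nil))))) (.nd (nat_lit 8) (.nd (nat_lit 9) 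
(.lf (nat_lit 472232) (.g (nat_lit 936) (.e (nat_lit 3629) (nat_lit 227) (.e (nat_lit 778327) (nat_lit 6) (.e (nat_lit 81920) (nat_lit 0) (.e (nat_lit 3715) (nat_lit 227) (.e (nat_lit 778325) (nat_lit 6) (.e (nat_lit 81924) (nat_lit 0) .nil)))))) (.g (nat_lit 1) (.e (nat_lit 90370) (nat_lit 0) .nil) .nil))) 
(.lf (nat_lit 472744) (.g (nat_lit 3115) (.e (nat_lit 3464) (nat_lit 217) (.e (nat_lit 696343) (nat_lit 8) (.e (nat_lit 172126) (nat_lit 14) (.e (nat_lit 491534) (nat_lit 1) (.e (nat_lit 57688) (nat_lit 156) (.e (nat_lit 163933) (nat_lit 17) (.e (nat_lit 466967) (nat_lit 20) .nil))))))) (.g (nat_lit 1) (.e (nat_lit 91480) (nat_lit 0) .nil) .nil)))) (.nd (nat_lit 9) 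
(.lf (nat_lit 472488) (.g (nat_lit 3673) (.e (nat_lit 3686) (nat_lit 227) (.e (nat_lit 778466) (nat_lit 11) (.e (nat_lit 24608) (nat_lit 3) (.e (nat_lit 98365) (nat_lit 26) (.e (nat_lit 426306) (nat_lit 12) (.e (nat_lit 475179) (nat_lit 24) (.e (nat_lit 516102) (nat_lit 0) .nil))))))) (.g (nat_lit 1) (.e (nat_lit 90673) (nat_lit 0) .nil) .nil))) 
(.lf (nat_lit 473000) (.g (nat_lit 4145) (.e (nat_lit 3469) (nat_lit 217) (.e (nat_lit 696344) (nat_lit 8) (.e (nat_lit 172082) (nat_lit 7) (.e (nat_lit 409646) (nat_lit 18) (.e (nat_lit 303140) (nat_lit 10) (.e (nat_lit 434275) (nat_lit 39) (.e (nat_lit 663574) (nat_lit 9) (.e (nat_lit 2473) (nat_lit 157) .nil)))))))) (.g (nat_lit 1) (.e (nat_lit 92128) (nat_lit 0) .nil) .nil)))))) 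
(.nd (nat_lit 7) (.nd (nat_lit 8) (.nd (nat_lit 9) 
(.lf (nat_lit 472168) (.g (nat_lit 3845) (.e (nat_lit 3617) (nat_lit 227) (.e (nat_lit 778318) (nat_lit 3) (.e (nat_lit 57476) (nat_lit 28) (.e (nat_lit 557107) (nat_lit 15) (.e (nat_lit 188450) (nat_lit 23) (.e (nat_lit 204852) (nat_lit 26) (.e (nat_lit 336258) (nat_lit 15) .nil))))))) (.g (nat_lit 1) (.e (nat_lit 90298) (nat_lit 0) .nil) .nil))) 
(.lf (nat_lit 472680) (.g (nat_lit 38) (.e (nat_lit 3748) (nat_lit 228) (.e (nat_lit 786479) (nat_lit 29) (.e (nat_lit 360192) (nat_lit 4) .nil))) (.g (nat_lit 0) (.e (nat_lit 91150) (nat_lit 0) .nil) .nil)))) (.nd (nat_lit 9) 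
(.lf (nat_lit 472424) (.g (nat_lit 2413) (.e (nat_lit 3632) (nat_lit 227) (.e (nat_lit 778326) (nat_lit 6) (.e (nat_lit 81959) (nat_lit 24) (.e (nat_lit 123198) (nat_lit 266) (.e (nat_lit 57436) (nat_lit 17) (.e (nat_lit 376835) (nat_lit 0) .nil)))))) (.g (nat_lit 1) (.e (nat_lit 90570) (nat_lit 0) .nil) .nil))) 
(.lf (nat_lit 472936) (.g (nat_lit 3552) (.e (nat_lit 3469) (nat_lit 217) (.e (nat_lit 696344) (nat_lit 8) (.e (nat_lit 172079) (nat_lit 7) (.e (nat_lit 409645) (nat_lit 18) (.e (nat_lit 303137) (nat_lit 10) (.e (nat_lit 434275) (nat_lit 39) (.e (nat_lit 663574) (nat_lit 9) (.e (nat_lit 2456) (nat_lit 157) .nil)))))))) (.g (nat_lit 1) (.e (nat_lit 92064) (nat_lit 0) .nil) .nil))))) 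
(.nd (nat_lit 8) (.nd (nat_lit 9) 
(.lf (nat_lit 472296) (.g (nat_lit 2245) (.e (nat_lit 3631) (nat_lit 227) (.e (nat_lit 778323) (nat_lit 5) (.e (nat_lit 73781) (nat_lit 32) (.e (nat_lit 3090) (nat_lit 191) (.e (nat_lit 483387) (nat_lit 23) (.e (nat_lit 336267) (nat_lit 15) .nil)))))) (.g (nat_lit 1) (.e (nat_lit 90436) (nat_lit 0) .nil) .nil))) 
(.lf (nat_lit 472808) (.g (nat_lit 2880) (.e (nat_lit 3468) (nat_lit 217) (.e (nat_lit 696343) (nat_lit 8) (.e (nat_lit 172106) (nat_lit 10) (.e (nat_lit 434289) (nat_lit 43) (.e (nat_lit 696346) (nat_lit 10) (.e (nat_lit 188438) (nat_lit 20) .nil)))))) (.g (nat_lit 1) (.e (nat_lit 91642) (nat_lit 0) .nil) .nil)))) (.nd (nat_lit 9) 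
(.lf (nat_lit 472552) (.g (nat_lit 1637) (.e (nat_lit 3714) (nat_lit 227) (.e (nat_lit 778322) (nat_lit 5) (.e (nat_lit 73781) (nat_lit 32) (.e (nat_lit 2857) (nat_lit 184) (.e (nat_lit 426542) (nat_lit 29) (.e (nat_lit 352264) (nat_lit 0) .nil)))))) (.g (nat_lit 1) (.e (nat_lit 90749) (nat_lit 0) .nil) .nil))) 
(.lf (nat_lit 473064) (.g (nat_lit 933) (.e (nat_lit 3469) (nat_lit 217) (.e (nat_lit 696344) (nat_lit 8) (.e (nat_lit 172113) (nat_lit 10) (.e (nat_lit 434203) (nat_lit 18) .nil)))) (.g (nat_lit 0) (.e (nat_lit 92196) (nat_lit 0) .nil) .nil)))))))) (.nd (nat_lit 5) (.nd (nat_lit 6) (.nd (nat_lit 7) (.nd (nat_lit 8) (.nd (nat_lit 9) 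
(.lf (nat_lit 472088) (.g (nat_lit 1070) (.e (nat_lit 3409) (nat_lit 212) (.e (nat_lit 655380) (nat_lit 6) (.e (nat_lit 188438) (nat_lit 20) (.e (nat_lit 3409) (nat_lit 212) (.e (nat_lit 655380) (nat_lit 6) (.e (nat_lit 188438) (nat_lit 20) .nil)))))) (.g (nat_lit 1) (.e (nat_lit 88508) (nat_lit 0) .nil) .nil))) 
(.lf (nat_lit 472600) (.g (nat_lit 2737) (.e (nat_lit 3721) (nat_lit 227) (.e (nat_lit 778482) (nat_lit 12) (.e (nat_lit 163978) (nat_lit 30) (.e (nat_lit 573478) (nat_lit 12) (.e (nat_lit 57530) (nat_lit 46) .nil))))) (.g (nat_lit 0) (.e (nat_lit 90810) (nat_lit 0) .nil) .nil)))) (.nd (nat_lit 9) 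
(.lf (nat_lit 472344) (.g (nat_lit 3493) (.e (nat_lit 3632) (nat_lit 227) (.e (nat_lit 778318) (nat_lit 3) (.e (nat_lit 57476) (nat_lit 28) (.e (nat_lit 557107) (nat_lit 15) (.e (nat_lit 188447) (nat_lit 22) (.e (nat_lit 196664) (nat_lit 13) (.e (nat_lit 65637) (nat_lit 15) .nil))))))) (.g (nat_lit 1) (.e (nat_lit 90485) (nat_lit 0) .nil) .nil))) 
(.lf (nat_lit 472856) (.g (nat_lit 1028) (.e (nat_lit 3468) (nat_lit 217) (.e (nat_lit 696344) (nat_lit 8) (.e (nat_lit 172097) (nat_lit 9) (.e (nat_lit 426109) (nat_lit 1) .nil)))) (.g (nat_lit 0) (.e (nat_lit 91725) (nat_lit 0) .nil) .nil))))) (.nd (nat_lit 8) (.nd (nat_lit 9) 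
(.lf (nat_lit 472216) (.g (nat_lit 3837) (.e (nat_lit 3629) (nat_lit 227) (.e (nat_lit 778318) (nat_lit 3) (.e (nat_lit 57476) (nat_lit 28) (.e (nat_lit 557108) (nat_lit 15) (.e (nat_lit 188452) (nat_lit 23) (.e (nat_lit 204855) (nat_lit 26) (.e (nat_lit 336295) (nat_lit 15) .nil))))))) (.g (nat_lit 1) (.e (nat_lit 90353) (nat_lit 0) .nil) .nil))) 
(.lf (nat_lit 472728) (.g (nat_lit 2262) (.e (nat_lit 3459) (nat_lit 216) (.e (nat_lit 688139) (nat_lit 5) (.e (nat_lit 3085) (nat_lit 191) (.e (nat_lit 483337) (nat_lit 9) (.e (nat_lit 426298) (nat_lit 11) (.e (nat_lit 458786) (nat_lit 22) (.e (nat_lit 524291) (nat_lit 0) .nil))))))) (.g (nat_lit 1) (.e (nat_lit 91413) (nat_lit 0) .nil) .nil)))) (.nd (nat_lit 9) 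
(.lf (nat_lit 472472) (.g (nat_lit 1839) (.e (nat_lit 3663) (nat_lit 227) (.e (nat_lit 778462) (nat_lit 11) (.e (nat_lit 24658) (nat_lit 13) (.e (nat_lit 393281) (nat_lit 23) (.e (nat_lit 426100) (nat_lit 1) (.e (nat_lit 164332) (nat_lit 230) (.e (nat_lit 163847) (nat_lit 0) .nil))))))) (.g (nat_lit 1) (.e (nat_lit 90628) (nat_lit 0) .nil) .nil))) 
(.lf (nat_lit 472984) (.g (nat_lit 2686) (.e (nat_lit 3469) (nat_lit 217) (.e (nat_lit 696344) (nat_lit 8) (.e (nat_lit 172081) (nat_lit 7) (.e (nat_lit 409649) (nat_lit 18) (.e (nat_lit 303140) (nat_lit 10) (.e (nat_lit 434275) (nat_lit 39) (.e (nat_lit 663580) (nat_lit 9) (.e (nat_lit 7936) (nat_lit 157) .nil)))))))) (.g (nat_lit 1) (.e (nat_lit 92112) (nat_lit 0) .nil) .nil)))))) 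
(.nd (nat_lit 7) (.nd (nat_lit 8) (.nd (nat_lit 9) 
(.lf (nat_lit 472152) (.g (nat_lit 1692) (.e (nat_lit 3613) (nat_lit 226) (.e (nat_lit 770072) (nat_lit 8) (.e (nat_lit 65586) (nat_lit 7) (.e (nat_lit 319531) (nat_lit 16) (.e (nat_lit 286748) (nat_lit 9) .nil))))) (.g (nat_lit 0) (.e (nat_lit 90280) (nat_lit 0) .nil) .nil))) 
(.lf (nat_lit 472664) (.g (nat_lit 1422) (.e (nat_lit 3747) (nat_lit 228) (.e (nat_lit 786483) (nat_lit 30) (.e (nat_lit 360450) (nat_lit 0) (.e (nat_lit 5896) (nat_lit 320) .nil)))) (.g (nat_lit 0) (.e (nat_lit 91103) (nat_lit 0) .nil) .nil)))) (.nd (nat_lit 9) 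
(.lf (nat_lit 472408) (.g (nat_lit 3026) (.e (nat_lit 3632) (nat_lit 227) (.e (nat_lit 778324) (nat_lit 5) (.e (nat_lit 73781) (nat_lit 32) (.e (nat_lit 3090) (nat_lit 191) (.e (nat_lit 483380) (nat_lit 23) (.e (nat_lit 336297) (nat_lit 15) .nil)))))) (.g (nat_lit 1) (.e (nat_lit 90551) (nat_lit 0) .nil) .nil))) 
(.lf (nat_lit 472920) (.g (nat_lit 3805) (.e (nat_lit 3469) (nat_lit 217) (.e (nat_lit 696344) (nat_lit 8) (.e (nat_lit 172078) (nat_lit 7) (.e (nat_lit 409646) (nat_lit 18) (.e (nat_lit 303140) (nat_lit 10) (.e (nat_lit 434275) (nat_lit 39) (.e (nat_lit 663574) (nat_lit 9) (.e (nat_lit 2473) (nat_lit 157) .nil)))))))) (.g (nat_lit 1) (.e (nat_lit 92048) (nat_lit 0) .nil) .nil))))) 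
(.nd (nat_lit 8) (.nd (nat_lit 9) 
(.lf (nat_lit 472280) (.g (nat_lit 2965) (.e (nat_lit 3631) (nat_lit 227) (.e (nat_lit 778318) (nat_lit 3) (.e (nat_lit 57476) (nat_lit 28) (.e (nat_lit 557107) (nat_lit 15) (.e (nat_lit 188450) (nat_lit 23) (.e (nat_lit 204855) (nat_lit 26) (.e (nat_lit 336295) (nat_lit 15) .nil))))))) (.g (nat_lit 1) (.e (nat_lit 90419) (nat_lit 0) .nil) .nil))) 
(.lf (nat_lit 472792) (.g (nat_lit 1022) (.e (nat_lit 3467) (nat_lit 217) (.e (nat_lit 696344) (nat_lit 8) (.e (nat_lit 172115) (nat_lit 10) (.e (nat_lit 434209) (nat_lit 18) .nil)))) (.g (nat_lit 0) (.e (nat_lit 91578) (nat_lit 0) .nil) .nil)))) (.nd (nat_lit 9) 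
(.lf (nat_lit 472536) (.g (nat_lit 2264) (.e (nat_lit 3714) (nat_lit 227) (.e (nat_lit 778316) (nat_lit 3) (.e (nat_lit 57477) (nat_lit 28) (.e (nat_lit 557107) (nat_lit 15) (.e (nat_lit 188450) (nat_lit 23) (.e (nat_lit 204855) (nat_lit 26) (.e (nat_lit 336290) (nat_lit 15) .nil))))))) (.g (nat_lit 1) (.e (nat_lit 90733) (nat_lit 0) .nil) .nil))) 
(.lf (nat_lit 473048) (.g (nat_lit 3232) (.e (nat_lit 3469) (nat_lit 217) (.e (nat_lit 696344) (nat_lit 8) (.e (nat_lit 172106) (nat_lit 10) (.e (nat_lit 434209) (nat_lit 18) (.e (nat_lit 6426) (nat_lit 342) (.e (nat_lit 229412) (nat_lit 14) (.e (nat_lit 442412) (nat_lit 20) .nil))))))) (.g (nat_lit 1) (.e (nat_lit 92180) (nat_lit 0) .nil) .nil))))))) 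
(.nd (nat_lit 6) (.nd (nat_lit 7) (.nd (nat_lit 8) (.nd (nat_lit 9) 
(.lf (nat_lit 472120) (.g (nat_lit 378) (.e (nat_lit 3605) (nat_lit 225) (.e (nat_lit 761905) (nat_lit 16) (.e (nat_lit 172113) (nat_lit 10) .nil))) (.g (nat_lit 0) (.e (nat_lit 89919) (nat_lit 0) .nil) .nil))) 
(.lf (nat_lit 472632) (.g (nat_lit 3019) (.e (nat_lit 3746) (nat_lit 228) (.e (nat_lit 786483) (nat_lit 30) (.e (nat_lit 360457) (nat_lit 0) (.e (nat_lit 5949) (nat_lit 322) (.e (nat_lit 57436) (nat_lit 17) (.e (nat_lit 376835) (nat_lit 0) .nil)))))) (.g (nat_lit 1) (.e (nat_lit 91066) (nat_lit 0) .nil) .nil)))) (.nd (nat_lit 9) 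
(.lf (nat_lit 472376) (.g (nat_lit 2070) (.e (nat_lit 3632) (nat_lit 227) (.e (nat_lit 778323) (nat_lit 5) (.e (nat_lit 73781) (nat_lit 32) (.e (nat_lit 3090) (nat_lit 191) (.e (nat_lit 483381) (nat_lit 23) (.e (nat_lit 336270) (nat_lit 15) .nil)))))) (.g (nat_lit 1) (.e (nat_lit 90518) (nat_lit 0) .nil) .nil))) 
(.lf (nat_lit 472888) (.g (nat_lit 1205) (.e (nat_lit 3468) (nat_lit 217) (.e (nat_lit 696344) (nat_lit 8) (.e (nat_lit 172113) (nat_lit 10) (.e (nat_lit 434287) (nat_lit 43) .nil)))) (.g (nat_lit 0) (.e (nat_lit 91801) (nat_lit 0) .nil) .nil))))) (.nd (nat_lit 8) (.nd (nat_lit 9) 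
(.lf (nat_lit 472248) (.g (nat_lit 218) (.e (nat_lit 3630) (nat_lit 227) (.e (nat_lit 778324) (nat_lit 5) (.e (nat_lit 81664) (nat_lit 32) .nil))) (.g (nat_lit 0) (.e (nat_lit 90387) (nat_lit 0) .nil) .nil))) 
(.lf (nat_lit 472760) (.g (nat_lit 4636) (.e (nat_lit 3464) (nat_lit 217) (.e (nat_lit 696344) (nat_lit 8) (.e (nat_lit 172125) (nat_lit 14) (.e (nat_lit 491566) (nat_lit 12) (.e (nat_lit 385107) (nat_lit 51) (.e (nat_lit 794684) (nat_lit 25) (.e (nat_lit 221198) (nat_lit 20) .nil))))))) (.g (nat_lit 1) (.e (nat_lit 91496) (nat_lit 0) .nil) .nil)))) (.nd (nat_lit 9) 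
(.lf (nat_lit 472504) (.g (nat_lit 2100) (.e (nat_lit 3711) (nat_lit 227) (.e (nat_lit 786176) (nat_lit 3) (.e (nat_lit 57477) (nat_lit 28) (.e (nat_lit 557107) (nat_lit 15) (.e (nat_lit 188450) (nat_lit 23) (.e (nat_lit 204855) (nat_lit 26) (.e (nat_lit 336290) (nat_lit 15) .nil))))))) (.g (nat_lit 1) (.e (nat_lit 90699) (nat_lit 0) .nil) .nil))) 
(.lf (nat_lit 473016) (.g (nat_lit 2755) (.e (nat_lit 3469) (nat_lit 217) (.e (nat_lit 696344) (nat_lit 8) (.e (nat_lit 172082) (nat_lit 7) (.e (nat_lit 409649) (nat_lit 18) (.e (nat_lit 303140) (nat_lit 10) (.e (nat_lit 434275) (nat_lit 39) (.e (nat_lit 663580) (nat_lit 9) (.e (nat_lit 7936) (nat_lit 157) .nil)))))))) (.g (nat_lit 1) (.e (nat_lit 92144) (nat_lit 0) .nil) .nil)))))) 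
(.nd (nat_lit 7) (.nd (nat_lit 8) (.nd (nat_lit 9) 
(.lf (nat_lit 472184) (.g (nat_lit 2657) (.e (nat_lit 3617) (nat_lit 227) (.e (nat_lit 778462) (nat_lit 11) (.e (nat_lit 24608) (nat_lit 3) (.e (nat_lit 98365) (nat_lit 26) (.e (nat_lit 426188) (nat_lit 9) (.e (nat_lit 426436) (nat_lit 18) (.e (nat_lit 98324) (nat_lit 17) .nil))))))) (.g (nat_lit 1) (.e (nat_lit 90315) (nat_lit 0) .nil) .nil))) 
(.lf (nat_lit 472696) (.g (nat_lit 1085) (.e (nat_lit 3771) (nat_lit 229) (.e (nat_lit 794668) (nat_lit 22) (.e (nat_lit 196666) (nat_lit 13) (.e (nat_lit 65569) (nat_lit 3) .nil)))) (.g (nat_lit 0) (.e (nat_lit 91270) (nat_lit 0) .nil) .nil)))) (.nd (nat_lit 9) 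
(.lf (nat_lit 472440) (.g (nat_lit 3776) (.e (nat_lit 3635) (nat_lit 227) (.e (nat_lit 778318) (nat_lit 3) (.e (nat_lit 57476) (nat_lit 28) (.e (nat_lit 557107) (nat_lit 15) (.e (nat_lit 188450) (nat_lit 23) (.e (nat_lit 204852) (nat_lit 26) (.e (nat_lit 336257) (nat_lit 15) .nil))))))) (.g (nat_lit 1) (.e (nat_lit 90587) (nat_lit 0) .nil) .nil))) 
(.lf (nat_lit 472952) (.g (nat_lit 2422) (.e (nat_lit 3469) (nat_lit 217) (.e (nat_lit 696344) (nat_lit 8) (.e (nat_lit 172079) (nat_lit 7) (.e (nat_lit 409645) (nat_lit 18) (.e (nat_lit 303140) (nat_lit 10) (.e (nat_lit 434275) (nat_lit 39) (.e (nat_lit 663580) (nat_lit 9) (.e (nat_lit 7936) (nat_lit 157) .nil)))))))) (.g (nat_lit 1) (.e (nat_lit 92080) (nat_lit 0) .nil) .nil))))) 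
(.nd (nat_lit 8) (.nd (nat_lit 9) 
(.lf (nat_lit 472312) (.g (nat_lit 1889) (.e (nat_lit 3631) (nat_lit 227) (.e (nat_lit 778323) (nat_lit 5) (.e (nat_lit 73782) (nat_lit 32) (.e (nat_lit 3090) (nat_lit 191) (.e (nat_lit 483387) (nat_lit 23) (.e (nat_lit 336291) (nat_lit 15) .nil)))))) (.g (nat_lit 1) (.e (nat_lit 90452) (nat_lit 0) .nil) .nil))) 
(.lf (nat_lit 472824) (.g (nat_lit 1680) (.e (nat_lit 3468) (nat_lit 217) (.e (nat_lit 696343) (nat_lit 8) (.e (nat_lit 172113) (nat_lit 10) (.e (nat_lit 434287) (nat_lit 43) (.e (nat_lit 696346) (nat_lit 10) (.e (nat_lit 188434) (nat_lit 20) .nil)))))) (.g (nat_lit 1) (.e (nat_lit 91682) (nat_lit 0) .nil) .nil)))) (.nd (nat_lit 9) 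
(.lf (nat_lit 472568) (.g (nat_lit 686) (.e (nat_lit 3719) (nat_lit 227) (.e (nat_lit 778466) (nat_lit 11) (.e (nat_lit 24604) (nat_lit 2) .nil))) (.g (nat_lit 0) (.e (nat_lit 90766) (nat_lit 0) .nil) .nil))) 
(.lf (nat_lit 473080) (.g (nat_lit 2470) (.e (nat_lit 3469) (nat_lit 217) (.e (nat_lit 696344) (nat_lit 8) (.e (nat_lit 172113) (nat_lit 10) (.e (nat_lit 434208) (nat_lit 18) (.e (nat_lit 6252) (nat_lit 337) (.e (nat_lit 7936) (nat_lit 166) (.e (nat_lit 188438) (nat_lit 20) .nil))))))) (.g (nat_lit 1) (.e (nat_lit 92212) (nat_lit 0) .nil) .nil)))))))))) 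
(.nd (nat_lit 3) (.nd (nat_lit 4) (.nd (nat_lit 5) (.nd (nat_lit 6) (.nd (nat_lit 7) 
(.nd (nat_lit 8) (.nd (nat_lit 9) 
(.lf (nat_lit 472068) (.g (nat_lit 2758) (.e (nat_lit 3409) (nat_lit 212) (.e (nat_lit 655378) (nat_lit 4) (.e (nat_lit 172125) (nat_lit 14) (.e (nat_lit 491571) (nat_lit 13) (.e (nat_lit 393277) (nat_lit 23) .nil))))) (.g (nat_lit 0) (.e (nat_lit 88486) (nat_lit 0) .nil) .nil))) 
(.lf (nat_lit 472580) (.g (nat_lit 3542) (.e (nat_lit 3719) (nat_lit 227) (.e (nat_lit 778466) (nat_lit 11) (.e (nat_lit 24608) (nat_lit 3) (.e (nat_lit 98371) (nat_lit 28) .nil)))) (.g (nat_lit 0) (.e (nat_lit 90778) (nat_lit 0) .nil) .nil)))) (.nd (nat_lit 9) 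
(.lf (nat_lit 472324) (.g (nat_lit 2682) (.e (nat_lit 3632) (nat_lit 227) (.e (nat_lit 778317) (nat_lit 3) (.e (nat_lit 57475) (nat_lit 28) (.e (nat_lit 557100) (nat_lit 13) (.e (nat_lit 172106) (nat_lit 10) (.e (nat_lit 434231) (nat_lit 23) (.e (nat_lit 532535) (nat_lit 9) (.e (nat_lit 336282) (nat_lit 15) .nil)))))))) (.g (nat_lit 1) (.e (nat_lit 90464) (nat_lit 0) .nil) .nil))) 
(.lf (nat_lit 472836) (.g (nat_lit 1472) (.e (nat_lit 3468) (nat_lit 217) (.e (nat_lit 696343) (nat_lit 8) (.e (nat_lit 172115) (nat_lit 10) (.e (nat_lit 434209) (nat_lit 18) (.e (nat_lit 6428) (nat_lit 342) .nil))))) (.g (nat_lit 0) (.e (nat_lit 91699) (nat_lit 0) .nil) .nil))))) (.nd (nat_lit 8) (.nd (nat_lit 9) 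
(.lf (nat_lit 472196) (.g (nat_lit 3495) (.e (nat_lit 3619) (nat_lit 227) (.e (nat_lit 778318) (nat_lit 3) (.e (nat_lit 57476) (nat_lit 28) (.e (nat_lit 557107) (nat_lit 15) (.e (nat_lit 188450) (nat_lit 23) (.e (nat_lit 204851) (nat_lit 26) (.e (nat_lit 336306) (nat_lit 15) .nil))))))) (.g (nat_lit 1) (.e (nat_lit 90333) (nat_lit 0) .nil) .nil))) 
(.lf (nat_lit 472708) (.g (nat_lit 1902) (.e (nat_lit 3771) (nat_lit 229) (.e (nat_lit 794673) (nat_lit 23) (.e (nat_lit 204829) (nat_lit 18) (.e (nat_lit 57926) (nat_lit 282) (.e (nat_lit 163875) (nat_lit 3) .nil))))) (.g (nat_lit 0) (.e (nat_lit 91289) (nat_lit 0) .nil) .nil)))) (.nd (nat_lit 9) 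
(.lf (nat_lit 472452) (.g (nat_lit 1886) (.e (nat_lit 3647) (nat_lit 227) (.e (nat_lit 778462) (nat_lit 11) (.e (nat_lit 24658) (nat_lit 13) (.e (nat_lit 393281) (nat_lit 23) (.e (nat_lit 426100) (nat_lit 1) (.e (nat_lit 164332) (nat_lit 230) (.e (nat_lit 163847) (nat_lit 0) .nil))))))) (.g (nat_lit 1) (.e (nat_lit 90599) (nat_lit 0) .nil) .nil))) 
(.lf (nat_lit 472964) (.g (nat_lit 3856) (.e (nat_lit 3469) (nat_lit 217) (.e (nat_lit 696344) (nat_lit 8) (.e (nat_lit 172079) (nat_lit 7) (.e (nat_lit 409649) (nat_lit 18) (.e (nat_lit 303140) (nat_lit 10) (.e (nat_lit 434275) (nat_lit 39) (.e (nat_lit 663574) (nat_lit 9) (.e (nat_lit 2456) (nat_lit 157) .nil)))))))) (.g (nat_lit 1) (.e (nat_lit 92092) (nat_lit 0) .nil) .nil)))))) 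
(.nd (nat_lit 7) (.nd (nat_lit 8) (.nd (nat_lit 9) 
(.lf (nat_lit 472132) (.g (nat_lit 2832) (.e (nat_lit 3606) (nat_lit 226) (.e (nat_lit 770072) (nat_lit 8) (.e (nat_lit 65586) (nat_lit 7) (.e (nat_lit 319531) (nat_lit 16) (.e (nat_lit 286748) (nat_lit 9) (.e (nat_lit 336295) (nat_lit 15) (.e (nat_lit 3757) (nat_lit 229) (.e (nat_lit 794644) (nat_lit 20) .nil)))))))) (.g (nat_lit 1) (.e (nat_lit 90258) (nat_lit 0) .nil) .nil))) 
(.lf (nat_lit 472644) (.g (nat_lit 489) (.e (nat_lit 3747) (nat_lit 228) (.e (nat_lit 786473) (nat_lit 27) (.e (nat_lit 336113) (nat_lit 9) (.e (nat_lit 336331) (nat_lit 19) .nil)))) (.g (nat_lit 0) (.e (nat_lit 91080) (nat_lit 0) .nil) .nil)))) (.nd (nat_lit 9) 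
(.lf (nat_lit 472388) (.g (nat_lit 2702) (.e (nat_lit 3632) (nat_lit 227) (.e (nat_lit 778323) (nat_lit 5) (.e (nat_lit 73782) (nat_lit 32) (.e (nat_lit 2857) (nat_lit 184) (.e (nat_lit 426542) (nat_lit 29) (.e (nat_lit 352265) (nat_lit 0) .nil)))))) (.g (nat_lit 1) (.e (nat_lit 90530) (nat_lit 0) .nil) .nil))) 
(.lf (nat_lit 472900) (.g (nat_lit 2553) (.e (nat_lit 3468) (nat_lit 217) (.e (nat_lit 696344) (nat_lit 8) (.e (nat_lit 172115) (nat_lit 10) (.e (nat_lit 434289) (nat_lit 43) (.e (nat_lit 696346) (nat_lit 10) (.e (nat_lit 188439) (nat_lit 20) .nil)))))) (.g (nat_lit 1) (.e (nat_lit 91821) (nat_lit 0) .nil) .nil))))) (.nd (nat_lit 8) (.nd (nat_lit 9) 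
(.lf (nat_lit 472260) (.g (nat_lit 5739) (.e (nat_lit 3631) (nat_lit 227) (.e (nat_lit 778317) (nat_lit 3) (.e (nat_lit 57475) (nat_lit 28) (.e (nat_lit 557100) (nat_lit 13) (.e (nat_lit 172106) (nat_lit 10) (.e (nat_lit 434231) (nat_lit 23) (.e (nat_lit 532535) (nat_lit 9) (.e (nat_lit 336295) (nat_lit 15) .nil)))))))) (.g (nat_lit 1) (.e (nat_lit 90399) (nat_lit 0) .nil) .nil))) 
(.lf (nat_lit 472772) (.g (nat_lit 1346) (.e (nat_lit 3467) (nat_lit 217) (.e (nat_lit 696343) (nat_lit 8) (.e (nat_lit 172107) (nat_lit 10) (.e (nat_lit 434289) (nat_lit 43) (.e (nat_lit 696346) (nat_lit 10) .nil))))) (.g (nat_lit 0) (.e (nat_lit 91525) (nat_lit 0) .nil) .nil)))) (.nd (nat_lit 9) 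
(.lf (nat_lit 472516) (.g (nat_lit 1710) (.e (nat_lit 3711) (nat_lit 227) (.e (nat_lit 778322) (nat_lit 5) (.e (nat_lit 73781) (nat_lit 32) (.e (nat_lit 2857) (nat_lit 184) (.e (nat_lit 426542) (nat_lit 29) (.e (nat_lit 352264) (nat_lit 0) .nil)))))) (.g (nat_lit 1) (.e (nat_lit 90711) (nat_lit 0) .nil) .nil))) 
(.lf (nat_lit 473028) (.g (nat_lit 1734) (.e (nat_lit 3469) (nat_lit 217) (.e (nat_lit 696344) (nat_lit 8) (.e (nat_lit 172106) (nat_lit 10) (.e (nat_lit 434202) (nat_lit 18) (.e (nat_lit 6418) (nat_lit 341) (.e (nat_lit 163920) (nat_lit 14) (.e (nat_lit 442412) (nat_lit 20) .nil))))))) (.g (nat_lit 1) (.e (nat_lit 92160) (nat_lit 0) .nil) .nil))))))) 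
(.nd (nat_lit 6) (.nd (nat_lit 7) (.nd (nat_lit 8) (.nd (nat_lit 9) 
(.lf (nat_lit 472100) (.g (nat_lit 5282) (.e (nat_lit 3410) (nat_lit 212) (.e (nat_lit 655375) (nat_lit 3) (.e (nat_lit 163979) (nat_lit 30) (.e (nat_lit 573492) (nat_lit 15) (.e (nat_lit 81956) (nat_lit 23) (.e (nat_lit 98365) (nat_lit 26) (.e (nat_lit 426014) (nat_lit 0) .nil))))))) (.g (nat_lit 1) (.e (nat_lit 88525) (nat_lit 0) .nil) .nil))) 
(.lf (nat_lit 472612) (.g (nat_lit 2652) (.e (nat_lit 3746) (nat_lit 228) (.e (nat_lit 786480) (nat_lit 29) (.e (nat_lit 352316) (nat_lit 24) (.e (nat_lit 123197) (nat_lit 266) (.e (nat_lit 57436) (nat_lit 17) (.e (nat_lit 376835) (nat_lit 0) .nil)))))) (.g (nat_lit 1) (.e (nat_lit 91046) (nat_lit 0) .nil) .nil)))) (.nd (nat_lit 9) 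
(.lf (nat_lit 472356) (.g (nat_lit 2699) (.e (nat_lit 3632) (nat_lit 227) (.e (nat_lit 778318) (nat_lit 3) (.e (nat_lit 57476) (nat_lit 28) (.e (nat_lit 557108) (nat_lit 15) (.e (nat_lit 188452) (nat_lit 23) (.e (nat_lit 204852) (nat_lit 26) (.e (nat_lit 336297) (nat_lit 15) .nil))))))) (.g (nat_lit 1) (.e (nat_lit 90497) (nat_lit 0) .nil) .nil))) 
(.lf (nat_lit 472868) (.g (nat_lit 3602) (.e (nat_lit 3468) (nat_lit 217) (.e (nat_lit 696344) (nat_lit 8) (.e (nat_lit 172106) (nat_lit 10) (.e (nat_lit 434209) (nat_lit 18) (.e (nat_lit 6427) (nat_lit 342) (.e (nat_lit 229412) (nat_lit 14) (.e (nat_lit 442411) (nat_lit 20) .nil))))))) (.g (nat_lit 1) (.e (nat_lit 91748) (nat_lit 0) .nil) .nil))))) (.nd (nat_lit 8) (.nd (nat_lit 9) 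
(.lf (nat_lit 472228) (.g (nat_lit 1964) (.e (nat_lit 3629) (nat_lit 227) (.e (nat_lit 778326) (nat_lit 6) (.e (nat_lit 81959) (nat_lit 24) (.e (nat_lit 123197) (nat_lit 266) (.e (nat_lit 57435) (nat_lit 17) (.e (nat_lit 376835) (nat_lit 0) .nil)))))) (.g (nat_lit 1) (.e (nat_lit 90366) (nat_lit 0) .nil) .nil))) 
(.lf (nat_lit 472740) (.g (nat_lit 1721) (.e (nat_lit 3464) (nat_lit 217) (.e (nat_lit 696343) (nat_lit 8) (.e (nat_lit 172113) (nat_lit 10) (.e (nat_lit 434203) (nat_lit 18) (.e (nat_lit 6421) (nat_lit 341) (.e (nat_lit 163932) (nat_lit 17) (.e (nat_lit 466967) (nat_lit 20) .nil))))))) (.g (nat_lit 1) (.e (nat_lit 91476) (nat_lit 0) .nil) .nil)))) (.nd (nat_lit 9) 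
(.lf (nat_lit 472484) (.g (nat_lit 2005) (.e (nat_lit 3671) (nat_lit 227) (.e (nat_lit 778318) (nat_lit 3) (.e (nat_lit 57476) (nat_lit 28) (.e (nat_lit 557107) (nat_lit 15) (.e (nat_lit 188450) (nat_lit 23) (.e (nat_lit 204852) (nat_lit 26) (.e (nat_lit 343808) (nat_lit 15) .nil))))))) (.g (nat_lit 1) (.e (nat_lit 90649) (nat_lit 0) .nil) .nil))) 
(.lf (nat_lit 472996) (.g (nat_lit 2691) (.e (nat_lit 3469) (nat_lit 217) (.e (nat_lit 696344) (nat_lit 8) (.e (nat_lit 172082) (nat_lit 7) (.e (nat_lit 409646) (nat_lit 18) (.e (nat_lit 303140) (nat_lit 10) (.e (nat_lit 434275) (nat_lit 39) (.e (nat_lit 663572) (nat_lit 9) (.e (nat_lit 2467) (nat_lit 157) .nil)))))))) (.g (nat_lit 1) (.e (nat_lit 92124) (nat_lit 0) .nil) .nil)))))) 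
(.nd (nat_lit 7) (.nd (nat_lit 8) (.nd (nat_lit 9) 
(.lf (nat_lit 472164) (.g (nat_lit 1802) (.e (nat_lit 3615) (nat_lit 226) (.e (nat_lit 770071) (nat_lit 8) (.e (nat_lit 65586) (nat_lit 7) (.e (nat_lit 319531) (nat_lit 16) (.e (nat_lit 286748) (nat_lit 9) .nil))))) (.g (nat_lit 0) (.e (nat_lit 90293) (nat_lit 0) .nil) .nil))) 
(.lf (nat_lit 472676) (.g (nat_lit 927) (.e (nat_lit 3748) (nat_lit 228) (.e (nat_lit 786478) (nat_lit 29) (.e (nat_lit 352287) (nat_lit 20) (.e (nat_lit 1999) (nat_lit 137) (.e (nat_lit 663569) (nat_lit 6) .nil))))) (.g (nat_lit 0) (.e (nat_lit 91146) (nat_lit 0) .nil) .nil)))) (.nd (nat_lit 9) 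
(.lf (nat_lit 472420) (.g (nat_lit 1970) (.e (nat_lit 3632) (nat_lit 227) (.e (nat_lit 778326) (nat_lit 6) (.e (nat_lit 81924) (nat_lit 0) (.e (nat_lit 3747) (nat_lit 228) (.e (nat_lit 786480) (nat_lit 29) (.e (nat_lit 352265) (nat_lit 0) .nil)))))) (.g (nat_lit 1) (.e (nat_lit 90565) (nat_lit 0) .nil) .nil))) 
(.lf (nat_lit 472932) (.g (nat_lit 2201) (.e (nat_lit 3469) (nat_lit 217) (.e (nat_lit 696344) (nat_lit 8) (.e (nat_lit 172079) (nat_lit 7) (.e (nat_lit 409645) (nat_lit 18) (.e (nat_lit 303135) (nat_lit 10) (.e (nat_lit 434275) (nat_lit 39) (.e (nat_lit 663574) (nat_lit 9) (.e (nat_lit 2473) (nat_lit 157) .nil)))))))) (.g (nat_lit 1) (.e (nat_lit 92060) (nat_lit 0) .nil) .nil))))) 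
(.nd (nat_lit 8) (.nd (nat_lit 9) 
(.lf (nat_lit 472292) (.g (nat_lit 3574) (.e (nat_lit 3631) (nat_lit 227) (.e (nat_lit 778323) (nat_lit 5) (.e (nat_lit 73781) (nat_lit 32) (.e (nat_lit 3090) (nat_lit 191) (.e (nat_lit 483380) (nat_lit 23) (.e (nat_lit 336301) (nat_lit 15) .nil)))))) (.g (nat_lit 1) (.e (nat_lit 90432) (nat_lit 0) .nil) .nil))) 
(.lf (nat_lit 472804) (.g (nat_lit 2104) (.e (nat_lit 3468) (nat_lit 217) (.e (nat_lit 696343) (nat_lit 8) (.e (nat_lit 172106) (nat_lit 10) (.e (nat_lit 434209) (nat_lit 18) (.e (nat_lit 6428) (nat_lit 342) .nil))))) (.g (nat_lit 0) (.e (nat_lit 91636) (nat_lit 0) .nil) .nil)))) (.nd (nat_lit 9) 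
(.lf (nat_lit 472548) (.g (nat_lit 3389) (.e (nat_lit 3714) (nat_lit 227) (.e (nat_lit 786176) (nat_lit 3) (.e (nat_lit 57476) (nat_lit 28) (.e (nat_lit 557097) (nat_lit 13) (.e (nat_lit 172097) (nat_lit 9) (.e (nat_lit 426125) (nat_lit 2) (.e (nat_lit 196666) (nat_lit 13) (.e (nat_lit 65639) (nat_lit 15) .nil)))))))) (.g (nat_lit 1) (.e (nat_lit 90745) (nat_lit 0) .nil) .nil))) 
(.lf (nat_lit 473060) (.g (nat_lit 3506) (.e (nat_lit 3469) (nat_lit 217) (.e (nat_lit 696344) (nat_lit 8) (.e (nat_lit 172106) (nat_lit 10) (.e (nat_lit 434289) (nat_lit 43) (.e (nat_lit 696346) (nat_lit 10) (.e (nat_lit 188438) (nat_lit 20) .nil)))))) (.g (nat_lit 1) (.e (nat_lit 92192) (nat_lit 0) .nil) .nil)))))))) 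
(.nd (nat_lit 5) (.nd (nat_lit 6) (.nd (nat_lit 7) (.nd (nat_lit 8) (.nd (nat_lit 9) 
(.lf (nat_lit 472084) (.g (nat_lit 2040) (.e (nat_lit 3409) (nat_lit 212) (.e (nat_lit 655380) (nat_lit 6) (.e (nat_lit 188418) (nat_lit 0) (.e (nat_lit 2059) (nat_lit 142) (.e (nat_lit 704599) (nat_lit 6) (.e (nat_lit 188440) (nat_lit 20) .nil)))))) (.g (nat_lit 1) (.e (nat_lit 88504) (nat_lit 0) .nil) .nil))) 
(.lf (nat_lit 472596) (.g (nat_lit 2062) (.e (nat_lit 3721) (nat_lit 227) (.e (nat_lit 778464) (nat_lit 11) (.e (nat_lit 24625) (nat_lit 9) (.e (nat_lit 336443) (nat_lit 32) (.e (nat_lit 466969) (nat_lit 21) .nil))))) (.g (nat_lit 0) (.e (nat_lit 90798) (nat_lit 0) .nil) .nil)))) (.nd (nat_lit 9) 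
(.lf (nat_lit 472340) (.g (nat_lit 3452) (.e (nat_lit 3632) (nat_lit 227) (.e (nat_lit 778318) (nat_lit 3) (.e (nat_lit 57476) (nat_lit 28) (.e (nat_lit 557097) (nat_lit 13) (.e (nat_lit 172115) (nat_lit 10) (.e (nat_lit 434231) (nat_lit 23) (.e (nat_lit 532535) (nat_lit 9) (.e (nat_lit 336291) (nat_lit 15) .nil)))))))) (.g (nat_lit 1) (.e (nat_lit 90481) (nat_lit 0) .nil) .nil))) 
(.lf (nat_lit 472852) (.g (nat_lit 2350) (.e (nat_lit 3468) (nat_lit 217) (.e (nat_lit 696344) (nat_lit 8) (.e (nat_lit 172082) (nat_lit 7) (.e (nat_lit 409646) (nat_lit 18) (.e (nat_lit 303140) (nat_lit 10) (.e (nat_lit 434275) (nat_lit 39) (.e (nat_lit 663574) (nat_lit 9) (.e (nat_lit 2472) (nat_lit 157) .nil)))))))) (.g (nat_lit 1) (.e (nat_lit 91720) (nat_lit 0) .nil) .nil))))) 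
(.nd (nat_lit 8) (.nd (nat_lit 9) 
(.lf (nat_lit 472212) (.g (nat_lit 5054) (.e (nat_lit 3629) (nat_lit 227) (.e (nat_lit 778318) (nat_lit 3) (.e (nat_lit 57476) (nat_lit 28) (.e (nat_lit 557097) (nat_lit 13) (.e (nat_lit 172106) (nat_lit 10) (.e (nat_lit 434231) (nat_lit 23) (.e (nat_lit 532535) (nat_lit 9) (.e (nat_lit 336295) (nat_lit 15) .nil)))))))) (.g (nat_lit 1) (.e (nat_lit 90349) (nat_lit 0) .nil) .nil))) 
(.lf (nat_lit 472724) (.g (nat_lit 2966) (.e (nat_lit 3455) (nat_lit 216) (.e (nat_lit 688176) (nat_lit 16) (.e (nat_lit 65568) (nat_lit 2) (.e (nat_lit 90170) (nat_lit 13) (.e (nat_lit 172106) (nat_lit 10) (.e (nat_lit 434231) (nat_lit 23) (.e (nat_lit 540416) (nat_lit 17) .nil))))))) (.g (nat_lit 1) (.e (nat_lit 91406) (nat_lit 0) .nil) .nil)))) (.nd (nat_lit 9) 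
(.lf (nat_lit 472468) (.g (nat_lit 1403) (.e (nat_lit 3661) (nat_lit 227) (.e (nat_lit 778462) (nat_lit 11) (.e (nat_lit 24608) (nat_lit 3) (.e (nat_lit 98363) (nat_lit 26) .nil)))) (.g (nat_lit 0) (.e (nat_lit 90622) (nat_lit 0) .nil) .nil))) 
(.lf (nat_lit 472980) (.g (nat_lit 5414) (.e (nat_lit 3469) (nat_lit 217) (.e (nat_lit 696344) (nat_lit 8) (.e (nat_lit 172081) (nat_lit 7) (.e (nat_lit 409649) (nat_lit 18) (.e (nat_lit 303140) (nat_lit 10) (.e (nat_lit 434275) (nat_lit 39) (.e (nat_lit 663574) (nat_lit 9) (.e (nat_lit 2467) (nat_lit 157) .nil)))))))) (.g (nat_lit 1) (.e (nat_lit 92108) (nat_lit 0) .nil) .nil)))))) 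
(.nd (nat_lit 7) (.nd (nat_lit 8) (.nd (nat_lit 9) 
(.lf (nat_lit 472148) (.g (nat_lit 2899) (.e (nat_lit 3613) (nat_lit 226) (.e (nat_lit 770072) (nat_lit 8) (.e (nat_lit 65583) (nat_lit 7) (.e (nat_lit 319530) (nat_lit 16) (.e (nat_lit 286743) (nat_lit 9) (.e (nat_lit 336337) (nat_lit 20) (.e (nat_lit 221195) (nat_lit 20) .nil))))))) (.g (nat_lit 1) (.e (nat_lit 90276) (nat_lit 0) .nil) .nil))) 
(.lf (nat_lit 472660) (.g (nat_lit 2113) (.e (nat_lit 3747) (nat_lit 228) (.e (nat_lit 786478) (nat_lit 29) (.e (nat_lit 352262) (nat_lit 0) (.e (nat_lit 3632) (nat_lit 227) (.e (nat_lit 778326) (nat_lit 6) (.e (nat_lit 81922) (nat_lit 0) .nil)))))) (.g (nat_lit 1) (.e (nat_lit 91098) (nat_lit 0) .nil) .nil)))) (.nd (nat_lit 9) 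
(.lf (nat_lit 472404) (.g (nat_lit 2424) (.e (nat_lit 3632) (nat_lit 227) (.e (nat_lit 778324) (nat_lit 5) (.e (nat_lit 73781) (nat_lit 32) (.e (nat_lit 3089) (nat_lit 191) (.e (nat_lit 483393) (nat_lit 23) (.e (nat_lit 336293) (nat_lit 15) .nil)))))) (.g (nat_lit 1) (.e (nat_lit 90547) (nat_lit 0) .nil) .nil))) 
(.lf (nat_lit 472916) (.g (nat_lit 3042) (.e (nat_lit 3469) (nat_lit 217) (.e (nat_lit 696344) (nat_lit 8) (.e (nat_lit 172067) (nat_lit 3) (.e (nat_lit 204855) (nat_lit 26) (.e (nat_lit 336176) (nat_lit 10) (.e (nat_lit 344133) (nat_lit 26) (.e (nat_lit 557068) (nat_lit 9) (.e (nat_lit 2467) (nat_lit 157) .nil)))))))) (.g (nat_lit 1) (.e (nat_lit 92044) (nat_lit 0) .nil) .nil))))) 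
(.nd (nat_lit 8) (.nd (nat_lit 9) 
(.lf (nat_lit 472276) (.g (nat_lit 3703) (.e (nat_lit 3631) (nat_lit 227) (.e (nat_lit 778318) (nat_lit 3) (.e (nat_lit 57476) (nat_lit 28) (.e (nat_lit 557107) (nat_lit 15) (.e (nat_lit 188447) (nat_lit 22) (.e (nat_lit 196666) (nat_lit 13) (.e (nat_lit 65642) (nat_lit 15) .nil))))))) (.g (nat_lit 1) (.e (nat_lit 90415) (nat_lit 0) .nil) .nil))) 
(.lf (nat_lit 472788) (.g (nat_lit 1737) (.e (nat_lit 3467) (nat_lit 217) (.e (nat_lit 696344) (nat_lit 8) (.e (nat_lit 172106) (nat_lit 10) (.e (nat_lit 434288) (nat_lit 43) (.e (nat_lit 696346) (nat_lit 10) .nil))))) (.g (nat_lit 0) (.e (nat_lit 91557) (nat_lit 0) .nil) .nil)))) (.nd (nat_lit 9) 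
(.lf (nat_lit 472532) (.g (nat_lit 1750) (.e (nat_lit 3713) (nat_lit 227) (.e (nat_lit 778469) (nat_lit 11) (.e (nat_lit 24604) (nat_lit 2) (.e (nat_lit 90185) (nat_lit 17) (.e (nat_lit 237619) (nat_lit 12) (.e (nat_lit 475179) (nat_lit 24) (.e (nat_lit 516102) (nat_lit 0) .nil))))))) (.g (nat_lit 1) (.e (nat_lit 90729) (nat_lit 0) .nil) .nil))) 
(.lf (nat_lit 473044) (.g (nat_lit 3377) (.e (nat_lit 3469) (nat_lit 217) (.e (nat_lit 696344) (nat_lit 8) (.e (nat_lit 172106) (nat_lit 10) (.e (nat_lit 434209) (nat_lit 18) (.e (nat_lit 6425) (nat_lit 342) (.e (nat_lit 229412) (nat_lit 14) (.e (nat_lit 442408) (nat_lit 20) .nil))))))) (.g (nat_lit 1) (.e (nat_lit 92176) (nat_lit 0) .nil) .nil))))))) 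
(.nd (nat_lit 6) (.nd (nat_lit 7) (.nd (nat_lit 8) (.nd (nat_lit 9) 
(.lf (nat_lit 472116) (.g (nat_lit 371) (.e (nat_lit 3605) (nat_lit 225) (.e (nat_lit 761905) (nat_lit 16) (.e (nat_lit 172106) (nat_lit 10) .nil))) (.g (nat_lit 0) (.e (nat_lit 89852) (nat_lit 0) .nil) .nil))) 
(.lf (nat_lit 472628) (.g (nat_lit 2861) (.e (nat_lit 3746) (nat_lit 228) (.e (nat_lit 786483) (nat_lit 30) (.e (nat_lit 360456) (nat_lit 0) (.e (nat_lit 5949) (nat_lit 322) (.e (nat_lit 57436) (nat_lit 17) (.e (nat_lit 376835) (nat_lit 0) .nil)))))) (.g (nat_lit 1) (.e (nat_lit 91062) (nat_lit 0) .nil) .nil)))) (.nd (nat_lit 9) 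
(.lf (nat_lit 472372) (.g (nat_lit 3539) (.e (nat_lit 3632) (nat_lit 227) (.e (nat_lit 778323) (nat_lit 5) (.e (nat_lit 73781) (nat_lit 32) (.e (nat_lit 3090) (nat_lit 191) (.e (nat_lit 483380) (nat_lit 23) (.e (nat_lit 336263) (nat_lit 15) .nil)))))) (.g (nat_lit 1) (.e (nat_lit 90514) (nat_lit 0) .nil) .nil))) 
(.lf (nat_lit 472884) (.g (nat_lit 1612) (.e (nat_lit 3468) (nat_lit 217) (.e (nat_lit 696344) (nat_lit 8) (.e (nat_lit 172113) (nat_lit 10) (.e (nat_lit 434203) (nat_lit 18) (.e (nat_lit 6420) (nat_lit 341) .nil))))) (.g (nat_lit 0) (.e (nat_lit 91783) (nat_lit 0) .nil) .nil))))) (.nd (nat_lit 8) (.nd (nat_lit 9) 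
(.lf (nat_lit 472244) (.g (nat_lit 2317) (.e (nat_lit 3630) (nat_lit 227) (.e (nat_lit 778323) (nat_lit 5) (.e (nat_lit 73781) (nat_lit 32) (.e (nat_lit 3090) (nat_lit 191) (.e (nat_lit 483380) (nat_lit 23) (.e (nat_lit 336297) (nat_lit 15) .nil)))))) (.g (nat_lit 1) (.e (nat_lit 90383) (nat_lit 0) .nil) .nil))) 
(.lf (nat_lit 472756) (.g (nat_lit 1587) (.e (nat_lit 3464) (nat_lit 217) (.e (nat_lit 696344) (nat_lit 8) (.e (nat_lit 172113) (nat_lit 10) (.e (nat_lit 434203) (nat_lit 18) (.e (nat_lit 6420) (nat_lit 341) .nil))))) (.g (nat_lit 0) (.e (nat_lit 91492) (nat_lit 0) .nil) .nil)))) (.nd (nat_lit 9) 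
(.lf (nat_lit 472500) (.g (nat_lit 3362) (.e (nat_lit 3711) (nat_lit 227) (.e (nat_lit 786176) (nat_lit 3) (.e (nat_lit 57476) (nat_lit 28) (.e (nat_lit 557097) (nat_lit 13) (.e (nat_lit 172097) (nat_lit 9) (.e (nat_lit 426125) (nat_lit 2) (.e (nat_lit 196666) (nat_lit 13) (.e (nat_lit 65639) (nat_lit 15) .nil)))))))) (.g (nat_lit 1) (.e (nat_lit 90695) (nat_lit 0) .nil) .nil))) 
(.lf (nat_lit 473012) (.g (nat_lit 3974) (.e (nat_lit 3469) (nat_lit 217) (.e (nat_lit 696344) (nat_lit 8) (.e (nat_lit 172082) (nat_lit 7) (.e (nat_lit 409649) (nat_lit 18) (.e (nat_lit 303140) (nat_lit 10) (.e (nat_lit 434275) (nat_lit 39) (.e (nat_lit 663574) (nat_lit 9) (.e (nat_lit 2457) (nat_lit 157) .nil)))))))) (.g (nat_lit 1) (.e (nat_lit 92140) (nat_lit 0) .nil) .nil)))))) 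
(.nd (nat_lit 7) (.nd (nat_lit 8) (.nd (nat_lit 9) 
(.lf (nat_lit 472180) (.g (nat_lit 3303) (.e (nat_lit 3617) (nat_lit 227) (.e (nat_lit 778462) (nat_lit 11) (.e (nat_lit 24604) (nat_lit 2) (.e (nat_lit 90185) (nat_lit 17) (.e (nat_lit 237619) (nat_lit 12) (.e (nat_lit 475179) (nat_lit 24) (.e (nat_lit 516100) (nat_lit 0) .nil))))))) (.g (nat_lit 1) (.e (nat_lit 90311) (nat_lit 0) .nil) .nil))) 
(.lf (nat_lit 472692) (.g (nat_lit 671) (.e (nat_lit 3753) (nat_lit 228) (.e (nat_lit 786480) (nat_lit 29) (.e (nat_lit 352270) (nat_lit 8) (.e (nat_lit 262148) (nat_lit 0) .nil)))) (.g (nat_lit 0) (.e (nat_lit 91187) (nat_lit 0) .nil) .nil)))) (.nd (nat_lit 9) 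
(.lf (nat_lit 472436) (.g (nat_lit 4731) (.e (nat_lit 3634) (nat_lit 227) (.e (nat_lit 778318) (nat_lit 3) (.e (nat_lit 57476) (nat_lit 28) (.e (nat_lit 557108) (nat_lit 15) (.e (nat_lit 188452) (nat_lit 23) (.e (nat_lit 204852) (nat_lit 26) (.e (nat_lit 336261) (nat_lit 15) .nil))))))) (.g (nat_lit 1) (.e (nat_lit 90583) (nat_lit 0) .nil) .nil))) 
(.lf (nat_lit 472948) (.g (nat_lit 3190) (.e (nat_lit 3469) (nat_lit 217) (.e (nat_lit 696344) (nat_lit 8) (.e (nat_lit 172079) (nat_lit 7) (.e (nat_lit 409645) (nat_lit 18) (.e (nat_lit 303140) (nat_lit 10) (.e (nat_lit 434275) (nat_lit 39) (.e (nat_lit 663574) (nat_lit 9) (.e (nat_lit 2456) (nat_lit 157) .nil)))))))) (.g (nat_lit 1) (.e (nat_lit 92076) (nat_lit 0) .nil) .nil))))) 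
(.nd (nat_lit 8) (.nd (nat_lit 9) 
(.lf (nat_lit 472308) (.g (nat_lit 3392) (.e (nat_lit 3631) (nat_lit 227) (.e (nat_lit 778323) (nat_lit 5) (.e (nat_lit 73782) (nat_lit 32) (.e (nat_lit 3090) (nat_lit 191) (.e (nat_lit 483380) (nat_lit 23) (.e (nat_lit 336285) (nat_lit 15) .nil)))))) (.g (nat_lit 1) (.e (nat_lit 90448) (nat_lit 0) .nil) .nil))) 
(.lf (nat_lit 472820) (.g (nat_lit 1137) (.e (nat_lit 3468) (nat_lit 217) (.e (nat_lit 696343) (nat_lit 8) (.e (nat_lit 172113) (nat_lit 10) (.e (nat_lit 434203) (nat_lit 18) .nil)))) (.g (nat_lit 0) (.e (nat_lit 91658) (nat_lit 0) .nil) .nil)))) (.nd (nat_lit 9) 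
(.lf (nat_lit 472564) (.g (nat_lit 2096) (.e (nat_lit 3716) (nat_lit 227) (.e (nat_lit 778319) (nat_lit 4) (.e (nat_lit 65630) (nat_lit 14) (.e (nat_lit 401438) (nat_lit 9) (.e (nat_lit 426540) (nat_lit 29) (.e (nat_lit 352258) (nat_lit 0) .nil)))))) (.g (nat_lit 1) (.e (nat_lit 90762) (nat_lit 0) .nil) .nil))) 
(.lf (nat_lit 473076) (.g (nat_lit 3095) (.e (nat_lit 3469) (nat_lit 217) (.e (nat_lit 696344) (nat_lit 8) (.e (nat_lit 172113) (nat_lit 10) (.e (nat_lit 434203) (nat_lit 18) (.e (nat_lit 6420) (nat_lit 341) (.e (nat_lit 163920) (nat_lit 14) (.e (nat_lit 442412) (nat_lit 20) .nil))))))) (.g (nat_lit 1) (.e (nat_lit 92208) (nat_lit 0) .nil) .nil))))))))) 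
(.nd (nat_lit 4) (.nd (nat_lit 5) (.nd (nat_lit 6) (.nd (nat_lit 7) (.nd (nat_lit 8) 
(.nd (nat_lit 9) 
(.lf (nat_lit 472076) (.g (nat_lit 2059) (.e (nat_lit 3409) (nat_lit 212) (.e (nat_lit 655378) (nat_lit 4) (.e (nat_lit 172126) (nat_lit 14) (.e (nat_lit 491550) (nat_lit 9) (.e (nat_lit 336430) (nat_lit 29) .nil))))) (.g (nat_lit 0) (.e (nat_lit 88494) (nat_lit 0) .nil) .nil))) 
(.lf (nat_lit 472588) (.g (nat_lit 2494) (.e (nat_lit 3724) (nat_lit 227) (.e (nat_lit 778466) (nat_lit 11) (.e (nat_lit 24617) (nat_lit 7) (.e (nat_lit 319533) (nat_lit 16) .nil)))) (.g (nat_lit 0) (.e (nat_lit 90790) (nat_lit 0) .nil) .nil)))) (.nd (nat_lit 9) 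
(.lf (nat_lit 472332) (.g (nat_lit 5475) (.e (nat_lit 3632) (nat_lit 227) (.e (nat_lit 778318) (nat_lit 3) (.e (nat_lit 57475) (nat_lit 28) (.e (nat_lit 557100) (nat_lit 13) (.e (nat_lit 172106) (nat_lit 10) (.e (nat_lit 434231) (nat_lit 23) (.e (nat_lit 532535) (nat_lit 9) (.e (nat_lit 336295) (nat_lit 15) .nil)))))))) (.g (nat_lit 1) (.e (nat_lit 90473) (nat_lit 0) .nil) .nil))) 
(.lf (nat_lit 472844) (.g (nat_lit 2910) (.e (nat_lit 3468) (nat_lit 217) (.e (nat_lit 696343) (nat_lit 8) (.e (nat_lit 172116) (nat_lit 10) (.e (nat_lit 434289) (nat_lit 43) (.e (nat_lit 696346) (nat_lit 10) (.e (nat_lit 188440) (nat_lit 20) .nil)))))) (.g (nat_lit 1) (.e (nat_lit 91711) (nat_lit 0) .nil) .nil))))) (.nd (nat_lit 8) (.nd (nat_lit 9) 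
(.lf (nat_lit 472204) (.g (nat_lit 3605) (.e (nat_lit 3627) (nat_lit 227) (.e (nat_lit 778318) (nat_lit 3) (.e (nat_lit 57476) (nat_lit 28) (.e (nat_lit 557108) (nat_lit 15) (.e (nat_lit 188452) (nat_lit 23) (.e (nat_lit 204852) (nat_lit 26) (.e (nat_lit 343808) (nat_lit 15) .nil))))))) (.g (nat_lit 1) (.e (nat_lit 90341) (nat_lit 0) .nil) .nil))) 
(.lf (nat_lit 472716) (.g (nat_lit 3005) (.e (nat_lit 3774) (nat_lit 229) (.e (nat_lit 794666) (nat_lit 22) (.e (nat_lit 196654) (nat_lit 11) (.e (nat_lit 16436) (nat_lit 9) (.e (nat_lit 426131) (nat_lit 3) (.e (nat_lit 204852) (nat_lit 26) (.e (nat_lit 336258) (nat_lit 15) .nil))))))) (.g (nat_lit 1) (.e (nat_lit 91332) (nat_lit 0) .nil) .nil)))) (.nd (nat_lit 9) 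
(.lf (nat_lit 472460) (.g (nat_lit 2228) (.e (nat_lit 3651) (nat_lit 227) (.e (nat_lit 778462) (nat_lit 11) (.e (nat_lit 24628) (nat_lit 9) (.e (nat_lit 336443) (nat_lit 32) (.e (nat_lit 466969) (nat_lit 21) (.e (nat_lit 164325) (nat_lit 230) (.e (nat_lit 163844) (nat_lit 0) .nil))))))) (.g (nat_lit 1) (.e (nat_lit 90608) (nat_lit 0) .nil) .nil))) 
(.lf (nat_lit 472972) (.g (nat_lit 2434) (.e (nat_lit 3469) (nat_lit 217) (.e (nat_lit 696344) (nat_lit 8) (.e (nat_lit 172081) (nat_lit 7) (.e (nat_lit 409648) (nat_lit 18) (.e (nat_lit 303137) (nat_lit 10) (.e (nat_lit 434275) (nat_lit 39) (.e (nat_lit 663574) (nat_lit 9) (.e (nat_lit 2457) (nat_lit 157) .nil)))))))) (.g (nat_lit 1) (.e (nat_lit 92100) (nat_lit 0) .nil) .nil)))))) 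
(.nd (nat_lit 7) (.nd (nat_lit 8) (.nd (nat_lit 9) 
(.lf (nat_lit 472140) (.g (nat_lit 2489) (.e (nat_lit 3609) (nat_lit 226) (.e (nat_lit 770076) (nat_lit 12) (.e (nat_lit 131109) (nat_lit 9) (.e (nat_lit 336443) (nat_lit 32) (.e (nat_lit 466969) (nat_lit 21) (.e (nat_lit 164332) (nat_lit 230) (.e (nat_lit 163847) (nat_lit 0) .nil))))))) (.g (nat_lit 1) (.e (nat_lit 90266) (nat_lit 0) .nil) .nil))) 
(.lf (nat_lit 472652) (.g (nat_lit 2835) (.e (nat_lit 3747) (nat_lit 228) (.e (nat_lit 786473) (nat_lit 27) (.e (nat_lit 336235) (nat_lit 14) (.e (nat_lit 401438) (nat_lit 9) (.e (nat_lit 426540) (nat_lit 29) (.e (nat_lit 352260) (nat_lit 0) .nil)))))) (.g (nat_lit 1) (.e (nat_lit 91088) (nat_lit 0) .nil) .nil)))) (.nd (nat_lit 9) 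
(.lf (nat_lit 472396) (.g (nat_lit 2015) (.e (nat_lit 3632) (nat_lit 227) (.e (nat_lit 778323) (nat_lit 5) (.e (nat_lit 73782) (nat_lit 32) (.e (nat_lit 3090) (nat_lit 191) (.e (nat_lit 483386) (nat_lit 23) (.e (nat_lit 336291) (nat_lit 15) .nil)))))) (.g (nat_lit 1) (.e (nat_lit 90538) (nat_lit 0) .nil) .nil))) 
(.lf (nat_lit 472908) (.g (nat_lit 620) (.e (nat_lit 3469) (nat_lit 217) (.e (nat_lit 696344) (nat_lit 8) (.e (nat_lit 172061) (nat_lit 1) .nil))) (.g (nat_lit 0) (.e (nat_lit 92034) (nat_lit 0) .nil) .nil))))) (.nd (nat_lit 8) (.nd (nat_lit 9) 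
(.lf (nat_lit 472268) (.g (nat_lit 3424) (.e (nat_lit 3631) (nat_lit 227) (.e (nat_lit 778318) (nat_lit 3) (.e (nat_lit 57476) (nat_lit 28) (.e (nat_lit 557097) (nat_lit 13) (.e (nat_lit 172115) (nat_lit 10) (.e (nat_lit 434231) (nat_lit 23) (.e (nat_lit 532528) (nat_lit 9) (.e (nat_lit 336263) (nat_lit 15) .nil)))))))) (.g (nat_lit 1) (.e (nat_lit 90407) (nat_lit 0) .nil) .nil))) 
(.lf (nat_lit 472780) (.g (nat_lit 2743) (.e (nat_lit 3467) (nat_lit 217) (.e (nat_lit 696344) (nat_lit 8) (.e (nat_lit 172079) (nat_lit 7) (.e (nat_lit 409649) (nat_lit 18) (.e (nat_lit 303140) (nat_lit 10) (.e (nat_lit 434275) (nat_lit 39) (.e (nat_lit 663574) (nat_lit 9) (.e (nat_lit 2457) (nat_lit 157) .nil)))))))) (.g (nat_lit 1) (.e (nat_lit 91543) (nat_lit 0) .nil) .nil)))) 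
(.nd (nat_lit 9) 
(.lf (nat_lit 472524) (.g (nat_lit 3268) (.e (nat_lit 3711) (nat_lit 227) (.e (nat_lit 778469) (nat_lit 11) (.e (nat_lit 24608) (nat_lit 3) (.e (nat_lit 98365) (nat_lit 26) (.e (nat_lit 426187) (nat_lit 9) (.e (nat_lit 426438) (nat_lit 18) (.e (nat_lit 98323) (nat_lit 17) .nil))))))) (.g (nat_lit 1) (.e (nat_lit 90719) (nat_lit 0) .nil) .nil))) 
(.lf (nat_lit 473036) (.g (nat_lit 2195) (.e (nat_lit 3469) (nat_lit 217) (.e (nat_lit 696344) (nat_lit 8) (.e (nat_lit 172106) (nat_lit 10) (.e (nat_lit 434209) (nat_lit 18) (.e (nat_lit 6272) (nat_lit 337) (.e (nat_lit 7936) (nat_lit 166) (.e (nat_lit 188435) (nat_lit 20) .nil))))))) (.g (nat_lit 1) (.e (nat_lit 92168) (nat_lit 0) .nil) .nil))))))) 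
(.nd (nat_lit 6) (.nd (nat_lit 7) (.nd (nat_lit 8) (.nd (nat_lit 9) 
(.lf (nat_lit 472108) (.g (nat_lit 1877) (.e (nat_lit 3604) (nat_lit 225) (.e (nat_lit 761912) (nat_lit 18) (.e (nat_lit 196352) (nat_lit 0) (.e (nat_lit 2031) (nat_lit 140) (.e (nat_lit 688184) (nat_lit 18) (.e (nat_lit 89856) (nat_lit 0) .nil)))))) (.g (nat_lit 1) (.e (nat_lit 89182) (nat_lit 0) .nil) .nil))) 
(.lf (nat_lit 472620) (.g (nat_lit 3327) (.e (nat_lit 3746) (nat_lit 228) (.e (nat_lit 786480) (nat_lit 29) (.e (nat_lit 352318) (nat_lit 24) (.e (nat_lit 123197) (nat_lit 266) (.e (nat_lit 57436) (nat_lit 17) (.e (nat_lit 376835) (nat_lit 0) .nil)))))) (.g (nat_lit 1) (.e (nat_lit 91054) (nat_lit 0) .nil) .nil)))) (.nd (nat_lit 9) 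
(.lf (nat_lit 472364) (.g (nat_lit 309) (.e (nat_lit 3632) (nat_lit 227) (.e (nat_lit 778323) (nat_lit 5) (.e (nat_lit 73781) (nat_lit 32) .nil))) (.g (nat_lit 0) (.e (nat_lit 90506) (nat_lit 0) .nil) .nil))) 
(.lf (nat_lit 472876) (.g (nat_lit 3109) (.e (nat_lit 3468) (nat_lit 217) (.e (nat_lit 696344) (nat_lit 8) (.e (nat_lit 172107) (nat_lit 10) (.e (nat_lit 434289) (nat_lit 43) (.e (nat_lit 696346) (nat_lit 10) (.e (nat_lit 188434) (nat_lit 20) .nil)))))) (.g (nat_lit 1) (.e (nat_lit 91763) (nat_lit 0) .nil) .nil))))) (.nd (nat_lit 8) (.nd (nat_lit 9) 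
(.lf (nat_lit 472236) (.g (nat_lit 1825) (.e (nat_lit 3629) (nat_lit 227) (.e (nat_lit 778327) (nat_lit 6) (.e (nat_lit 81957) (nat_lit 24) (.e (nat_lit 123198) (nat_lit 266) (.e (nat_lit 57435) (nat_lit 17) (.e (nat_lit 376835) (nat_lit 0) .nil)))))) (.g (nat_lit 1) (.e (nat_lit 90375) (nat_lit 0) .nil) .nil))) 
(.lf (nat_lit 472748) (.g (nat_lit 4300) (.e (nat_lit 3464) (nat_lit 217) (.e (nat_lit 696343) (nat_lit 8) (.e (nat_lit 172126) (nat_lit 14) (.e (nat_lit 491566) (nat_lit 12) (.e (nat_lit 385109) (nat_lit 51) (.e (nat_lit 794684) (nat_lit 25) (.e (nat_lit 221198) (nat_lit 20) .nil))))))) (.g (nat_lit 1) (.e (nat_lit 91484) (nat_lit 0) .nil) .nil)))) (.nd (nat_lit 9) 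
(.lf (nat_lit 472492) (.g (nat_lit 2466) (.e (nat_lit 3693) (nat_lit 227) (.e (nat_lit 778466) (nat_lit 11) (.e (nat_lit 24617) (nat_lit 7) (.e (nat_lit 319533) (nat_lit 16) .nil)))) (.g (nat_lit 0) (.e (nat_lit 90678) (nat_lit 0) .nil) .nil))) 
(.lf (nat_lit 473004) (.g (nat_lit 2590) (.e (nat_lit 3469) (nat_lit 217) (.e (nat_lit 696344) (nat_lit 8) (.e (nat_lit 172082) (nat_lit 7) (.e (nat_lit 409646) (nat_lit 18) (.e (nat_lit 303143) (nat_lit 12) (.e (nat_lit 475159) (nat_lit 21) (.e (nat_lit 7936) (nat_lit 369) (.e (nat_lit 163850) (nat_lit 0) .nil)))))))) (.g (nat_lit 1) (.e (nat_lit 92132) (nat_lit 0) .nil) .nil)))))) 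
(.nd (nat_lit 7) (.nd (nat_lit 8) (.nd (nat_lit 9) 
(.lf (nat_lit 472172) (.g (nat_lit 1543) (.e (nat_lit 3617) (nat_lit 227) (.e (nat_lit 778462) (nat_lit 11) (.e (nat_lit 24604) (nat_lit 2) (.e (nat_lit 90185) (nat_lit 17) (.e (nat_lit 237601) (nat_lit 9) .nil))))) (.g (nat_lit 0) (.e (nat_lit 90303) (nat_lit 0) .nil) .nil))) 
(.lf (nat_lit 472684) (.g (nat_lit 3038) (.e (nat_lit 3748) (nat_lit 228) (.e (nat_lit 786480) (nat_lit 29) (.e (nat_lit 352318) (nat_lit 24) (.e (nat_lit 123197) (nat_lit 266) (.e (nat_lit 57424) (nat_lit 14) (.e (nat_lit 352262) (nat_lit 0) .nil)))))) (.g (nat_lit 1) (.e (nat_lit 91160) (nat_lit 0) .nil) .nil)))) (.nd (nat_lit 9) 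
(.lf (nat_lit 472428) (.g (nat_lit 3736) (.e (nat_lit 3633) (nat_lit 227) (.e (nat_lit 778318) (nat_lit 3) (.e (nat_lit 57476) (nat_lit 28) (.e (nat_lit 557107) (nat_lit 15) (.e (nat_lit 188450) (nat_lit 23) (.e (nat_lit 204852) (nat_lit 26) (.e (nat_lit 336257) (nat_lit 15) .nil))))))) (.g (nat_lit 1) (.e (nat_lit 90575) (nat_lit 0) .nil) .nil))) 
(.lf (nat_lit 472940) (.g (nat_lit 4940) (.e (nat_lit 3469) (nat_lit 217) (.e (nat_lit 696344) (nat_lit 8) (.e (nat_lit 172079) (nat_lit 7) (.e (nat_lit 409645) (nat_lit 18) (.e (nat_lit 303137) (nat_lit 10) (.e (nat_lit 434275) (nat_lit 39) (.e (nat_lit 663574) (nat_lit 9) (.e (nat_lit 2467) (nat_lit 157) .nil)))))))) (.g (nat_lit 1) (.e (nat_lit 92068) (nat_lit 0) .nil) .nil))))) 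
(.nd (nat_lit 8) (.nd (nat_lit 9) 
(.lf (nat_lit 472300) (.g (nat_lit 2778) (.e (nat_lit 3631) (nat_lit 227) (.e (nat_lit 778323) (nat_lit 5) (.e (nat_lit 73782) (nat_lit 32) (.e (nat_lit 2856) (nat_lit 184) (.e (nat_lit 426542) (nat_lit 29) (.e (nat_lit 352265) (nat_lit 0) .nil)))))) (.g (nat_lit 1) (.e (nat_lit 90440) (nat_lit 0) .nil) .nil))) 
(.lf (nat_lit 472812) (.g (nat_lit 3089) (.e (nat_lit 3468) (nat_lit 217) (.e (nat_lit 696343) (nat_lit 8) (.e (nat_lit 172107) (nat_lit 10) (.e (nat_lit 434289) (nat_lit 43) (.e (nat_lit 696346) (nat_lit 10) (.e (nat_lit 188434) (nat_lit 20) .nil)))))) (.g (nat_lit 1) (.e (nat_lit 91648) (nat_lit 0) .nil) .nil)))) (.nd (nat_lit 9) 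
(.lf (nat_lit 472556) (.g (nat_lit 649) (.e (nat_lit 3714) (nat_lit 227) (.e (nat_lit 778325) (nat_lit 6) (.e (nat_lit 81924) (nat_lit 0) (.e (nat_lit 3629) (nat_lit 227) (.e (nat_lit 778326) (nat_lit 6) (.e (nat_lit 81921) (nat_lit 0) .nil)))))) (.g (nat_lit 1) (.e (nat_lit 90753) (nat_lit 0) .nil) .nil))) 
(.lf (nat_lit 473068) (.g (nat_lit 2842) (.e (nat_lit 3469) (nat_lit 217) (.e (nat_lit 696344) (nat_lit 8) (.e (nat_lit 172113) (nat_lit 10) (.e (nat_lit 434203) (nat_lit 18) (.e (nat_lit 6252) (nat_lit 337) (.e (nat_lit 7936) (nat_lit 166) (.e (nat_lit 188435) (nat_lit 20) .nil))))))) (.g (nat_lit 1) (.e (nat_lit 92200) (nat_lit 0) .nil) .nil)))))))) 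
(.nd (nat_lit 5) (.nd (nat_lit 6) (.nd (nat_lit 7) (.nd (nat_lit 8) (.nd (nat_lit 9) 
(.lf (nat_lit 472092) (.g (nat_lit 1992) (.e (nat_lit 3409) (nat_lit 212) (.e (nat_lit 655380) (nat_lit 6) (.e (nat_lit 188445) (nat_lit 21) (.e (nat_lit 164347) (nat_lit 240) (.e (nat_lit 2648) (nat_lit 166) (.e (nat_lit 188439) (nat_lit 20) .nil)))))) (.g (nat_lit 1) (.e (nat_lit 88513) (nat_lit 0) .nil) .nil))) 
(.lf (nat_lit 472604) (.g (nat_lit 1200) (.e (nat_lit 3733) (nat_lit 228) (.e (nat_lit 786483) (nat_lit 30) (.e (nat_lit 360450) (nat_lit 0) (.e (nat_lit 4766) (nat_lit 281) .nil)))) (.g (nat_lit 0) (.e (nat_lit 90848) (nat_lit 0) .nil) .nil)))) (.nd (nat_lit 9) 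
(.lf (nat_lit 472348) (.g (nat_lit 2966) (.e (nat_lit 3632) (nat_lit 227) (.e (nat_lit 778318) (nat_lit 3) (.e (nat_lit 57476) (nat_lit 28) (.e (nat_lit 557107) (nat_lit 15) (.e (nat_lit 188450) (nat_lit 23) (.e (nat_lit 204855) (nat_lit 26) (.e (nat_lit 336282) (nat_lit 15) .nil))))))) (.g (nat_lit 1) (.e (nat_lit 90489) (nat_lit 0) .nil) .nil))) 
(.lf (nat_lit 472860) (.g (nat_lit 2151) (.e (nat_lit 3468) (nat_lit 217) (.e (nat_lit 696344) (nat_lit 8) (.e (nat_lit 172106) (nat_lit 10) (.e (nat_lit 434209) (nat_lit 18) (.e (nat_lit 6272) (nat_lit 337) (.e (nat_lit 2645) (nat_lit 166) (.e (nat_lit 188435) (nat_lit 20) .nil))))))) (.g (nat_lit 1) (.e (nat_lit 91736) (nat_lit 0) .nil) .nil))))) (.nd (nat_lit 8) (.nd (nat_lit 9) 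
(.lf (nat_lit 472220) (.g (nat_lit 2291) (.e (nat_lit 3629) (nat_lit 227) (.e (nat_lit 778324) (nat_lit 5) (.e (nat_lit 73781) (nat_lit 32) (.e (nat_lit 2856) (nat_lit 184) (.e (nat_lit 426542) (nat_lit 29) (.e (nat_lit 352267) (nat_lit 0) .nil)))))) (.g (nat_lit 1) (.e (nat_lit 90357) (nat_lit 0) .nil) .nil))) 
(.lf (nat_lit 472732) (.g (nat_lit 3023) (.e (nat_lit 3460) (nat_lit 216) (.e (nat_lit 688176) (nat_lit 16) (.e (nat_lit 65568) (nat_lit 2) (.e (nat_lit 90170) (nat_lit 13) (.e (nat_lit 172106) (nat_lit 10) (.e (nat_lit 434231) (nat_lit 23) (.e (nat_lit 540416) (nat_lit 17) .nil))))))) (.g (nat_lit 1) (.e (nat_lit 91435) (nat_lit 0) .nil) .nil)))) (.nd (nat_lit 9) 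
(.lf (nat_lit 472476) (.g (nat_lit 1868) (.e (nat_lit 3669) (nat_lit 227) (.e (nat_lit 778462) (nat_lit 11) (.e (nat_lit 24658) (nat_lit 13) (.e (nat_lit 393281) (nat_lit 23) (.e (nat_lit 426100) (nat_lit 1) (.e (nat_lit 164332) (nat_lit 230) (.e (nat_lit 163847) (nat_lit 0) .nil))))))) (.g (nat_lit 1) (.e (nat_lit 90640) (nat_lit 0) .nil) .nil))) 
(.lf (nat_lit 472988) (.g (nat_lit 2769) (.e (nat_lit 3469) (nat_lit 217) (.e (nat_lit 696344) (nat_lit 8) (.e (nat_lit 172082) (nat_lit 7) (.e (nat_lit 409646) (nat_lit 18) (.e (nat_lit 303137) (nat_lit 10) (.e (nat_lit 434275) (nat_lit 39) (.e (nat_lit 663574) (nat_lit 9) (.e (nat_lit 2456) (nat_lit 157) .nil)))))))) (.g (nat_lit 1) (.e (nat_lit 92116) (nat_lit 0) .nil) .nil)))))) 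
(.nd (nat_lit 7) (.nd (nat_lit 8) (.nd (nat_lit 9) 
(.lf (nat_lit 472156) (.g (nat_lit 1792) (.e (nat_lit 3613) (nat_lit 226) (.e (nat_lit 770072) (nat_lit 8) (.e (nat_lit 65586) (nat_lit 7) (.e (nat_lit 319531) (nat_lit 16) (.e (nat_lit 286748) (nat_lit 9) (.e (nat_lit 336295) (nat_lit 15) (.e (nat_lit 3758) (nat_lit 229) (.e (nat_lit 794649) (nat_lit 20) .nil)))))))) (.g (nat_lit 1) (.e (nat_lit 90284) (nat_lit 0) .nil) .nil))) 
(.lf (nat_lit 472668) (.g (nat_lit 2558) (.e (nat_lit 3748) (nat_lit 228) (.e (nat_lit 786473) (nat_lit 27) (.e (nat_lit 336235) (nat_lit 14) (.e (nat_lit 401437) (nat_lit 9) (.e (nat_lit 426538) (nat_lit 29) (.e (nat_lit 352262) (nat_lit 0) .nil)))))) (.g (nat_lit 1) (.e (nat_lit 91111) (nat_lit 0) .nil) .nil)))) (.nd (nat_lit 9) 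
(.lf (nat_lit 472412) (.g (nat_lit 1901) (.e (nat_lit 3632) (nat_lit 227) (.e (nat_lit 778324) (nat_lit 5) (.e (nat_lit 73781) (nat_lit 32) (.e (nat_lit 3090) (nat_lit 191) (.e (nat_lit 483386) (nat_lit 23) (.e (nat_lit 336291) (nat_lit 15) .nil)))))) (.g (nat_lit 1) (.e (nat_lit 90555) (nat_lit 0) .nil) .nil))) 
(.lf (nat_lit 472924) (.g (nat_lit 4124) (.e (nat_lit 3469) (nat_lit 217) (.e (nat_lit 696344) (nat_lit 8) (.e (nat_lit 172078) (nat_lit 7) (.e (nat_lit 409649) (nat_lit 18) (.e (nat_lit 303140) (nat_lit 10) (.e (nat_lit 434275) (nat_lit 39) (.e (nat_lit 663574) (nat_lit 9) (.e (nat_lit 2457) (nat_lit 157) .nil)))))))) (.g (nat_lit 1) (.e (nat_lit 92052) (nat_lit 0) .nil) .nil))))) 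
(.nd (nat_lit 8) (.nd (nat_lit 9) 
(.lf (nat_lit 472284) (.g (nat_lit 3957) (.e (nat_lit 3631) (nat_lit 227) (.e (nat_lit 778320) (nat_lit 4) (.e (nat_lit 65630) (nat_lit 14) (.e (nat_lit 401437) (nat_lit 9) (.e (nat_lit 426540) (nat_lit 29) (.e (nat_lit 352262) (nat_lit 0) .nil)))))) (.g (nat_lit 1) (.e (nat_lit 90423) (nat_lit 0) .nil) .nil))) 
(.lf (nat_lit 472796) (.g (nat_lit 2160) (.e (nat_lit 3468) (nat_lit 217) (.e (nat_lit 696343) (nat_lit 8) (.e (nat_lit 172106) (nat_lit 10) (.e (nat_lit 434209) (nat_lit 18) (.e (nat_lit 6272) (nat_lit 337) .nil))))) (.g (nat_lit 0) (.e (nat_lit 91626) (nat_lit 0) .nil) .nil)))) (.nd (nat_lit 9) 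
(.lf (nat_lit 472540) (.g (nat_lit 3688) (.e (nat_lit 3714) (nat_lit 227) (.e (nat_lit 778316) (nat_lit 3) (.e (nat_lit 57479) (nat_lit 28) (.e (nat_lit 557101) (nat_lit 13) (.e (nat_lit 172097) (nat_lit 9) (.e (nat_lit 426140) (nat_lit 3) (.e (nat_lit 204855) (nat_lit 26) (.e (nat_lit 336290) (nat_lit 15) .nil)))))))) (.g (nat_lit 1) (.e (nat_lit 90737) (nat_lit 0) .nil) .nil))) 
(.lf (nat_lit 473052) (.g (nat_lit 3721) (.e (nat_lit 3469) (nat_lit 217) (.e (nat_lit 696344) (nat_lit 8) (.e (nat_lit 172106) (nat_lit 10) (.e (nat_lit 434209) (nat_lit 18) (.e (nat_lit 6428) (nat_lit 342) (.e (nat_lit 229412) (nat_lit 14) (.e (nat_lit 442411) (nat_lit 20) .nil))))))) (.g (nat_lit 1) (.e (nat_lit 92184) (nat_lit 0) .nil) .nil))))))) 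
(.nd (nat_lit 6) (.nd (nat_lit 7) (.nd (nat_lit 8) (.nd (nat_lit 9) 
(.lf (nat_lit 472124) (.g (nat_lit 1917) (.e (nat_lit 3605) (nat_lit 225) (.e (nat_lit 761912) (nat_lit 18) (.e (nat_lit 196352) (nat_lit 0) (.e (nat_lit 2031) (nat_lit 140) (.e (nat_lit 688186) (nat_lit 18) (.e (nat_lit 89856) (nat_lit 0) .nil)))))) (.g (nat_lit 1) (.e (nat_lit 90146) (nat_lit 0) .nil) .nil))) 
(.lf (nat_lit 472636) (.g (nat_lit 3115) (.e (nat_lit 3747) (nat_lit 228) (.e (nat_lit 786456) (nat_lit 18) (.e (nat_lit 98367) (nat_lit 27) (.e (nat_lit 434248) (nat_lit 28) (.e (nat_lit 573482) (nat_lit 13) (.e (nat_lit 73472) (nat_lit 18) (.e (nat_lit 204803) (nat_lit 0) .nil))))))) (.g (nat_lit 1) (.e (nat_lit 91071) (nat_lit 0) .nil) .nil)))) (.nd (nat_lit 9) 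
(.lf (nat_lit 472380) (.g (nat_lit 2065) (.e (nat_lit 3632) (nat_lit 227) (.e (nat_lit 778323) (nat_lit 5) (.e (nat_lit 73781) (nat_lit 32) (.e (nat_lit 3090) (nat_lit 191) (.e (nat_lit 483387) (nat_lit 23) (.e (nat_lit 336292) (nat_lit 15) .nil)))))) (.g (nat_lit 1) (.e (nat_lit 90522) (nat_lit 0) .nil) .nil))) 
(.lf (nat_lit 472892) (.g (nat_lit 2103) (.e (nat_lit 3468) (nat_lit 217) (.e (nat_lit 696344) (nat_lit 8) (.e (nat_lit 172113) (nat_lit 10) (.e (nat_lit 434289) (nat_lit 43) (.e (nat_lit 696346) (nat_lit 10) (.e (nat_lit 188441) (nat_lit 20) .nil)))))) (.g (nat_lit 1) (.e (nat_lit 91805) (nat_lit 0) .nil) .nil))))) (.nd (nat_lit 8) (.nd (nat_lit 9) 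
(.lf (nat_lit 472252) (.g (nat_lit 521) (.e (nat_lit 3630) (nat_lit 227) (.e (nat_lit 778326) (nat_lit 6) (.e (nat_lit 81921) (nat_lit 0) (.e (nat_lit 3716) (nat_lit 227) (.e (nat_lit 778325) (nat_lit 6) (.e (nat_lit 81924) (nat_lit 0) .nil)))))) (.g (nat_lit 1) (.e (nat_lit 90391) (nat_lit 0) .nil) .nil))) 
(.lf (nat_lit 472764) (.g (nat_lit 2631) (.e (nat_lit 3464) (nat_lit 217) (.e (nat_lit 696344) (nat_lit 8) (.e (nat_lit 172126) (nat_lit 14) (.e (nat_lit 491534) (nat_lit 1) (.e (nat_lit 57688) (nat_lit 156) (.e (nat_lit 163933) (nat_lit 17) (.e (nat_lit 466967) (nat_lit 20) .nil))))))) (.g (nat_lit 1) (.e (nat_lit 91500) (nat_lit 0) .nil) .nil)))) (.nd (nat_lit 9) 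
(.lf (nat_lit 472508) (.g (nat_lit 4108) (.e (nat_lit 3711) (nat_lit 227) (.e (nat_lit 786176) (nat_lit 3) (.e (nat_lit 57479) (nat_lit 28) (.e (nat_lit 557100) (nat_lit 13) (.e (nat_lit 172106) (nat_lit 10) (.e (nat_lit 434231) (nat_lit 23) (.e (nat_lit 532535) (nat_lit 9) (.e (nat_lit 336290) (nat_lit 15) .nil)))))))) (.g (nat_lit 1) (.e (nat_lit 90703) (nat_lit 0) .nil) .nil))) 
(.lf (nat_lit 473020) (.g (nat_lit 2245) (.e (nat_lit 3469) (nat_lit 217) (.e (nat_lit 696344) (nat_lit 8) (.e (nat_lit 172106) (nat_lit 10) (.e (nat_lit 434202) (nat_lit 18) (.e (nat_lit 6250) (nat_lit 337) (.e (nat_lit 7936) (nat_lit 166) (.e (nat_lit 188438) (nat_lit 20) .nil))))))) (.g (nat_lit 1) (.e (nat_lit 92152) (nat_lit 0) .nil) .nil)))))) 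
(.nd (nat_lit 7) (.nd (nat_lit 8) (.nd (nat_lit 9) 
(.lf (nat_lit 472188) (.g (nat_lit 3045) (.e (nat_lit 3617) (nat_lit 227) (.e (nat_lit 778462) (nat_lit 11) (.e (nat_lit 24628) (nat_lit 9) (.e (nat_lit 336443) (nat_lit 32) (.e (nat_lit 466969) (nat_lit 21) (.e (nat_lit 164332) (nat_lit 230) (.e (nat_lit 163847) (nat_lit 0) .nil))))))) (.g (nat_lit 1) (.e (nat_lit 90324) (nat_lit 0) .nil) .nil))) 
(.lf (nat_lit 472700) (.g (nat_lit 2514) (.e (nat_lit 3771) (nat_lit 229) (.e (nat_lit 794668) (nat_lit 22) (.e (nat_lit 196666) (nat_lit 13) (.e (nat_lit 65569) (nat_lit 3) (.e (nat_lit 98334) (nat_lit 18) (.e (nat_lit 164159) (nat_lit 152) (.e (nat_lit 1032) (nat_lit 81) (.e (nat_lit 1254) (nat_lit 92) (.e (nat_lit 98321) (nat_lit 17) .nil))))))))) (.g (nat_lit 1) (.e (nat_lit 91274) (nat_lit 0) .nil) .nil)))) 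
(.nd (nat_lit 9) 
(.lf (nat_lit 472444) (.g (nat_lit 2711) (.e (nat_lit 3635) (nat_lit 227) (.e (nat_lit 778324) (nat_lit 5) (.e (nat_lit 73781) (nat_lit 32) (.e (nat_lit 3090) (nat_lit 191) (.e (nat_lit 483380) (nat_lit 23) (.e (nat_lit 336261) (nat_lit 15) .nil)))))) (.g (nat_lit 1) (.e (nat_lit 90591) (nat_lit 0) .nil) .nil))) 
(.lf (nat_lit 472956) (.g (nat_lit 2731) (.e (nat_lit 3469) (nat_lit 217) (.e (nat_lit 696344) (nat_lit 8) (.e (nat_lit 172079) (nat_lit 7) (.e (nat_lit 409646) (nat_lit 18) (.e (nat_lit 303140) (nat_lit 10) (.e (nat_lit 434275) (nat_lit 39) (.e (nat_lit 663574) (nat_lit 9) (.e (nat_lit 2472) (nat_lit 157) .nil)))))))) (.g (nat_lit 1) (.e (nat_lit 92084) (nat_lit 0) .nil) .nil))))) 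
(.nd (nat_lit 8) (.nd (nat_lit 9) 
(.lf (nat_lit 472316) (.g (nat_lit 1178) (.e (nat_lit 3631) (nat_lit 227) (.e (nat_lit 778326) (nat_lit 6) (.e (nat_lit 81920) (nat_lit 0) (.e (nat_lit 3715) (nat_lit 227) (.e (nat_lit 778325) (nat_lit 6) (.e (nat_lit 81922) (nat_lit 0) .nil)))))) (.g (nat_lit 1) (.e (nat_lit 90456) (nat_lit 0) .nil) .nil))) 
(.lf (nat_lit 472828) (.g (nat_lit 3150) (.e (nat_lit 3468) (nat_lit 217) (.e (nat_lit 696343) (nat_lit 8) (.e (nat_lit 172113) (nat_lit 10) (.e (nat_lit 434289) (nat_lit 43) (.e (nat_lit 696346) (nat_lit 10) (.e (nat_lit 188440) (nat_lit 20) .nil)))))) (.g (nat_lit 1) (.e (nat_lit 91686) (nat_lit 0) .nil) .nil)))) (.nd (nat_lit 9) 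
(.lf (nat_lit 472572) (.g (nat_lit 1978) (.e (nat_lit 3719) (nat_lit 227) (.e (nat_lit 778466) (nat_lit 11) (.e (nat_lit 24604) (nat_lit 2) (.e (nat_lit 90185) (nat_lit 17) (.e (nat_lit 237601) (nat_lit 9) .nil))))) (.g (nat_lit 0) (.e (nat_lit 90770) (nat_lit 0) .nil) .nil))) 
(.lf (nat_lit 473084) (.g (nat_lit 4264) (.e (nat_lit 3469) (nat_lit 217) (.e (nat_lit 696344) (nat_lit 8) (.e (nat_lit 172113) (nat_lit 10) (.e (nat_lit 434208) (nat_lit 18) (.e (nat_lit 6255) (nat_lit 337) (.e (nat_lit 2653) (nat_lit 166) (.e (nat_lit 188440) (nat_lit 20) .nil))))))) (.g (nat_lit 1) (.e (nat_lit 92216) (nat_lit 0) .nil) .nil))))))))))) 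
(.nd (nat_lit 2) (.nd (nat_lit 3) (.nd (nat_lit 4) (.nd (nat_lit 5) (.nd (nat_lit 6) 
(.nd (nat_lit 7) (.nd (nat_lit 8) (.nd (nat_lit 9) 
(.lf (nat_lit 472066) (.g (nat_lit 2508) (.e (nat_lit 3409) (nat_lit 212) (.e (nat_lit 655378) (nat_lit 4) (.e (nat_lit 172125) (nat_lit 14) (.e (nat_lit 491571) (nat_lit 13) (.e (nat_lit 393275) (nat_lit 23) (.e (nat_lit 426047) (nat_lit 0) .nil)))))) (.g (nat_lit 1) (.e (nat_lit 88484) (nat_lit 0) .nil) .nil))) 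
(.lf (nat_lit 472578) (.g (nat_lit 3423) (.e (nat_lit 3719) (nat_lit 227) (.e (nat_lit 778466) (nat_lit 11) (.e (nat_lit 24608) (nat_lit 3) (.e (nat_lit 98365) (nat_lit 26) (.e (nat_lit 426306) (nat_lit 12) (.e (nat_lit 475179) (nat_lit 24) (.e (nat_lit 516102) (nat_lit 0) .nil))))))) (.g (nat_lit 1) (.e (nat_lit 90776) (nat_lit 0) .nil) .nil)))) (.nd (nat_lit 9) 
(.lf (nat_lit 472322) (.g (nat_lit 1917) (.e (nat_lit 3631) (nat_lit 227) (.e (nat_lit 778326) (nat_lit 6) (.e (nat_lit 81957) (nat_lit 24) (.e (nat_lit 123197) (nat_lit 266) (.e (nat_lit 57436) (nat_lit 17) (.e (nat_lit 376835) (nat_lit 0) .nil)))))) (.g (nat_lit 1) (.e (nat_lit 90462) (nat_lit 0) .nil) .nil))) 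
(.lf (nat_lit 472834) (.g (nat_lit 3997) (.e (nat_lit 3468) (nat_lit 217) (.e (nat_lit 696343) (nat_lit 8) (.e (nat_lit 172115) (nat_lit 10) (.e (nat_lit 434209) (nat_lit 18) (.e (nat_lit 6425) (nat_lit 342) (.e (nat_lit 229412) (nat_lit 14) (.e (nat_lit 442411) (nat_lit 20) .nil))))))) (.g (nat_lit 1) (.e (nat_lit 91697) (nat_lit 0) .nil) .nil))))) (.nd (nat_lit 8) (.nd (nat_lit 9) 
(.lf (nat_lit 472194) (.g (nat_lit 3831) (.e (nat_lit 3618) (nat_lit 227) (.e (nat_lit 778318) (nat_lit 3) (.e (nat_lit 57476) (nat_lit 28) (.e (nat_lit 557108) (nat_lit 15) (.e (nat_lit 188452) (nat_lit 23) (.e (nat_lit 204851) (nat_lit 26) (.e (nat_lit 336306) (nat_lit 15) .nil))))))) (.g (nat_lit 1) (.e (nat_lit 90330) (nat_lit 0) .nil) .nil))) 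
(.lf (nat_lit 472706) (.g (nat_lit 3136) (.e (nat_lit 3771) (nat_lit 229) (.e (nat_lit 794669) (nat_lit 22) (.e (nat_lit 196668) (nat_lit 14) (.e (nat_lit 73747) (nat_lit 3) (.e (nat_lit 516115) (nat_lit 1) (.e (nat_lit 164185) (nat_lit 155) (.e (nat_lit 122893) (nat_lit 3) (.e (nat_lit 98321) (nat_lit 17) .nil)))))))) (.g (nat_lit 1) (.e (nat_lit 91286) (nat_lit 0) .nil) .nil)))) 
(.nd (nat_lit 9) 
(.lf (nat_lit 472450) (.g (nat_lit 4649) (.e (nat_lit 3637) (nat_lit 227) (.e (nat_lit 778318) (nat_lit 3) (.e (nat_lit 57476) (nat_lit 28) (.e (nat_lit 557108) (nat_lit 15) (.e (nat_lit 188452) (nat_lit 23) (.e (nat_lit 204852) (nat_lit 26) (.e (nat_lit 336258) (nat_lit 15) .nil))))))) (.g (nat_lit 1) (.e (nat_lit 90597) (nat_lit 0) .nil) .nil))) 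
(.lf (nat_lit 472962) (.g (nat_lit 4284) (.e (nat_lit 3469) (nat_lit 217) (.e (nat_lit 696344) (nat_lit 8) (.e (nat_lit 172079) (nat_lit 7) (.e (nat_lit 409648) (nat_lit 18) (.e (nat_lit 303137) (nat_lit 10) (.e (nat_lit 434275) (nat_lit 39) (.e (nat_lit 663580) (nat_lit 9) (.e (nat_lit 2416) (nat_lit 157) .nil)))))))) (.g (nat_lit 1) (.e (nat_lit 92090) (nat_lit 0) .nil) .nil)))))) 
(.nd (nat_lit 7) (.nd (nat_lit 8) (.nd (nat_lit 9) 
(.lf (nat_lit 472130) (.g (nat_lit 2945) (.e (nat_lit 3606) (nat_lit 226) (.e (nat_lit 770072) (nat_lit 8) (.e (nat_lit 65586) (nat_lit 7) (.e (nat_lit 319531) (nat_lit 16) (.e (nat_lit 286743) (nat_lit 9) (.e (nat_lit 336337) (nat_lit 20) (.e (nat_lit 221195) (nat_lit 20) .nil))))))) (.g (nat_lit 1) (.e (nat_lit 90256) (nat_lit 0) .nil) .nil))) 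
(.lf (nat_lit 472642) (.g (nat_lit 5090) (.e (nat_lit 3747) (nat_lit 228) (.e (nat_lit 786473) (nat_lit 27) (.e (nat_lit 336051) (nat_lit 6) (.e (nat_lit 147495) (nat_lit 11) (.e (nat_lit 24608) (nat_lit 3) (.e (nat_lit 98341) (nat_lit 20) (.e (nat_lit 221204) (nat_lit 20) .nil))))))) (.g (nat_lit 1) (.e (nat_lit 91078) (nat_lit 0) .nil) .nil)))) (.nd (nat_lit 9) 
(.lf (nat_lit 472386) (.g (nat_lit 2416) (.e (nat_lit 3632) (nat_lit 227) (.e (nat_lit 778323) (nat_lit 5) (.e (nat_lit 73782) (nat_lit 32) (.e (nat_lit 2856) (nat_lit 184) (.e (nat_lit 426553) (nat_lit 32) .nil))))) (.g (nat_lit 0) (.e (nat_lit 90528) (nat_lit 0) .nil) .nil))) 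
(.lf (nat_lit 472898) (.g (nat_lit 3430) (.e (nat_lit 3468) (nat_lit 217) (.e (nat_lit 696344) (nat_lit 8) (.e (nat_lit 172115) (nat_lit 10) (.e (nat_lit 434289) (nat_lit 43) (.e (nat_lit 696346) (nat_lit 10) (.e (nat_lit 188434) (nat_lit 20) .nil)))))) (.g (nat_lit 1) (.e (nat_lit 91819) (nat_lit 0) .nil) .nil))))) (.nd (nat_lit 8) (.nd (nat_lit 9) 
(.lf (nat_lit 472258) (.g (nat_lit 1317) (.e (nat_lit 3630) (nat_lit 227) (.e (nat_lit 778326) (nat_lit 6) (.e (nat_lit 81924) (nat_lit 0) (.e (nat_lit 3632) (nat_lit 227) (.e (nat_lit 778327) (nat_lit 6) (.e (nat_lit 81922) (nat_lit 0) .nil)))))) (.g (nat_lit 1) (.e (nat_lit 90397) (nat_lit 0) .nil) .nil))) 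
(.lf (nat_lit 472770) (.g (nat_lit 2153) (.e (nat_lit 3467) (nat_lit 217) (.e (nat_lit 696343) (nat_lit 8) (.e (nat_lit 172106) (nat_lit 10) (.e (nat_lit 434209) (nat_lit 18) (.e (nat_lit 6271) (nat_lit 337) .nil))))) (.g (nat_lit 0) (.e (nat_lit 91520) (nat_lit 0) .nil) .nil)))) (.nd (nat_lit 9) 
(.lf (nat_lit 472514) (.g (nat_lit 3283) (.e (nat_lit 3711) (nat_lit 227) (.e (nat_lit 786176) (nat_lit 3) (.e (nat_lit 57480) (nat_lit 28) (.e (nat_lit 557109) (nat_lit 15) (.e (nat_lit 188449) (nat_lit 22) (.e (nat_lit 196666) (nat_lit 13) (.e (nat_lit 65639) (nat_lit 15) .nil))))))) (.g (nat_lit 1) (.e (nat_lit 90709) (nat_lit 0) .nil) .nil))) 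
(.lf (nat_lit 473026) (.g (nat_lit 2092) (.e (nat_lit 3469) (nat_lit 217) (.e (nat_lit 696344) (nat_lit 8) (.e (nat_lit 172106) (nat_lit 10) (.e (nat_lit 434202) (nat_lit 18) (.e (nat_lit 6255) (nat_lit 337) (.e (nat_lit 2651) (nat_lit 166) (.e (nat_lit 188435) (nat_lit 20) .nil))))))) (.g (nat_lit 1) (.e (nat_lit 92158) (nat_lit 0) .nil) .nil))))))) 
(.nd (nat_lit 6) (.nd (nat_lit 7) (.nd (nat_lit 8) (.nd (nat_lit 9) 
(.lf (nat_lit 472098) (.g (nat_lit 3008) (.e (nat_lit 3409) (nat_lit 212) (.e (nat_lit 655380) (nat_lit 6) (.e (nat_lit 188455) (nat_lit 24) (.e (nat_lit 229663) (nat_lit 240) (.e (nat_lit 2653) (nat_lit 166) (.e (nat_lit 188440) (nat_lit 20) .nil)))))) (.g (nat_lit 1) (.e (nat_lit 88523) (nat_lit 0) .nil) .nil))) 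
(.lf (nat_lit 472610) (.g (nat_lit 1049) (.e (nat_lit 3746) (nat_lit 228) (.e (nat_lit 786480) (nat_lit 29) (.e (nat_lit 352262) (nat_lit 0) (.e (nat_lit 3748) (nat_lit 228) .nil)))) (.g (nat_lit 0) (.e (nat_lit 91043) (nat_lit 0) .nil) .nil)))) (.nd (nat_lit 9) 
(.lf (nat_lit 472354) (.g (nat_lit 2870) (.e (nat_lit 3632) (nat_lit 227) (.e (nat_lit 778318) (nat_lit 3) (.e (nat_lit 57476) (nat_lit 28) (.e (nat_lit 557108) (nat_lit 15) (.e (nat_lit 188449) (nat_lit 22) (.e (nat_lit 196666) (nat_lit 13) (.e (nat_lit 65642) (nat_lit 15) .nil))))))) (.g (nat_lit 1) (.e (nat_lit 90495) (nat_lit 0) .nil) .nil))) 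
(.lf (nat_lit 472866) (.g (nat_lit 2013) (.e (nat_lit 3468) (nat_lit 217) (.e (nat_lit 696344) (nat_lit 8) (.e (nat_lit 172106) (nat_lit 10) (.e (nat_lit 434209) (nat_lit 18) (.e (nat_lit 6427) (nat_lit 342) .nil))))) (.g (nat_lit 0) (.e (nat_lit 91746) (nat_lit 0) .nil) .nil))))) (.nd (nat_lit 8) (.nd (nat_lit 9) 
(.lf (nat_lit 472226) (.g (nat_lit 1973) (.e (nat_lit 3629) (nat_lit 227) (.e (nat_lit 778326) (nat_lit 6) (.e (nat_lit 81957) (nat_lit 24) (.e (nat_lit 123198) (nat_lit 266) (.e (nat_lit 57435) (nat_lit 17) (.e (nat_lit 376835) (nat_lit 0) .nil)))))) (.g (nat_lit 1) (.e (nat_lit 90364) (nat_lit 0) .nil) .nil))) 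
(.lf (nat_lit 472738) (.g (nat_lit 1094) (.e (nat_lit 3464) (nat_lit 217) (.e (nat_lit 696343) (nat_lit 8) (.e (nat_lit 172113) (nat_lit 10) (.e (nat_lit 434203) (nat_lit 18) .nil)))) (.g (nat_lit 0) (.e (nat_lit 91474) (nat_lit 0) .nil) .nil)))) (.nd (nat_lit 9) 
(.lf (nat_lit 472482) (.g (nat_lit 1545) (.e (nat_lit 3660) (nat_lit 227) (.e (nat_lit 778462) (nat_lit 11) (.e (nat_lit 24658) (nat_lit 13) (.e (nat_lit 393281) (nat_lit 23) (.e (nat_lit 426099) (nat_lit 1) (.e (nat_lit 164332) (nat_lit 230) (.e (nat_lit 163847) (nat_lit 0) .nil))))))) (.g (nat_lit 1) (.e (nat_lit 90647) (nat_lit 0) .nil) .nil))) 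
(.lf (nat_lit 472994) (.g (nat_lit 2349) (.e (nat_lit 3469) (nat_lit 217) (.e (nat_lit 696344) (nat_lit 8) (.e (nat_lit 172082) (nat_lit 7) (.e (nat_lit 409646) (nat_lit 18) (.e (nat_lit 303139) (nat_lit 10) (.e (nat_lit 434275) (nat_lit 39) (.e (nat_lit 663580) (nat_lit 9) (.e (nat_lit 2416) (nat_lit 157) .nil)))))))) (.g (nat_lit 1) (.e (nat_lit 92122) (nat_lit 0) .nil) .nil)))))) 
(.nd (nat_lit 7) (.nd (nat_lit 8) (.nd (nat_lit 9) 
(.lf (nat_lit 472162) (.g (nat_lit 2651) (.e (nat_lit 3613) (nat_lit 226) (.e (nat_lit 770072) (nat_lit 8) (.e (nat_lit 65630) (nat_lit 14) (.e (nat_lit 401454) (nat_lit 12) (.e (nat_lit 475210) (nat_lit 41) .nil))))) (.g (nat_lit 0) (.e (nat_lit 90290) (nat_lit 0) .nil) .nil))) 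
(.lf (nat_lit 472674) (.g (nat_lit 412) (.e (nat_lit 3748) (nat_lit 228) (.e (nat_lit 786478) (nat_lit 29) (.e (nat_lit 352262) (nat_lit 0) .nil))) (.g (nat_lit 0) (.e (nat_lit 91144) (nat_lit 0) .nil) .nil)))) (.nd (nat_lit 9) 
(.lf (nat_lit 472418) (.g (nat_lit 1635) (.e (nat_lit 3632) (nat_lit 227) (.e (nat_lit 778326) (nat_lit 6) (.e (nat_lit 81922) (nat_lit 0) (.e (nat_lit 3631) (nat_lit 227) (.e (nat_lit 778326) (nat_lit 6) (.e (nat_lit 81924) (nat_lit 0) .nil)))))) (.g (nat_lit 1) (.e (nat_lit 90561) (nat_lit 0) .nil) .nil))) 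
(.lf (nat_lit 472930) (.g (nat_lit 2051) (.e (nat_lit 3469) (nat_lit 217) (.e (nat_lit 696344) (nat_lit 8) (.e (nat_lit 172079) (nat_lit 7) (.e (nat_lit 409645) (nat_lit 18) (.e (nat_lit 303135) (nat_lit 10) (.e (nat_lit 434275) (nat_lit 39) (.e (nat_lit 663574) (nat_lit 9) (.e (nat_lit 2457) (nat_lit 157) .nil)))))))) (.g (nat_lit 1) (.e (nat_lit 92058) (nat_lit 0) .nil) .nil))))) 
(.nd (nat_lit 8) (.nd (nat_lit 9) 
(.lf (nat_lit 472290) (.g (nat_lit 3451) (.e (nat_lit 3631) (nat_lit 227) (.e (nat_lit 778323) (nat_lit 5) (.e (nat_lit 73781) (nat_lit 32) (.e (nat_lit 3090) (nat_lit 191) (.e (nat_lit 483380) (nat_lit 23) (.e (nat_lit 336285) (nat_lit 15) .nil)))))) (.g (nat_lit 1) (.e (nat_lit 90430) (nat_lit 0) .nil) .nil))) 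
(.lf (nat_lit 472802) (.g (nat_lit 2045) (.e (nat_lit 3468) (nat_lit 217) (.e (nat_lit 696343) (nat_lit 8) (.e (nat_lit 172106) (nat_lit 10) (.e (nat_lit 434209) (nat_lit 18) (.e (nat_lit 6427) (nat_lit 342) (.e (nat_lit 229412) (nat_lit 14) (.e (nat_lit 442408) (nat_lit 20) .nil))))))) (.g (nat_lit 1) (.e (nat_lit 91634) (nat_lit 0) .nil) .nil)))) (.nd (nat_lit 9) 
(.lf (nat_lit 472546) (.g (nat_lit 2874) (.e (nat_lit 3714) (nat_lit 227) (.e (nat_lit 778316) (nat_lit 3) (.e (nat_lit 57480) (nat_lit 28) (.e (nat_lit 557107) (nat_lit 15) (.e (nat_lit 188450) (nat_lit 23) (.e (nat_lit 204855) (nat_lit 26) (.e (nat_lit 336290) (nat_lit 15) .nil))))))) (.g (nat_lit 1) (.e (nat_lit 90743) (nat_lit 0) .nil) .nil))) 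
(.lf (nat_lit 473058) (.g (nat_lit 2947) (.e (nat_lit 3469) (nat_lit 217) (.e (nat_lit 696344) (nat_lit 8) (.e (nat_lit 172106) (nat_lit 10) (.e (nat_lit 434288) (nat_lit 43) (.e (nat_lit 696346) (nat_lit 10) (.e (nat_lit 188440) (nat_lit 20) .nil)))))) (.g (nat_lit 1) (.e (nat_lit 92190) (nat_lit 0) .nil) .nil)))))))) 
(.nd (nat_lit 5) (.nd (nat_lit 6) (.nd (nat_lit 7) (.nd (nat_lit 8) (.nd (nat_lit 9) 
(.lf (nat_lit 472082) (.g (nat_lit 712) (.e (nat_lit 3409) (nat_lit 212) (.e (nat_lit 655380) (nat_lit 6) (.e (nat_lit 188418) (nat_lit 0) (.e (nat_lit 2056) (nat_lit 142) (.e (nat_lit 704598) (nat_lit 6) (.e (nat_lit 188435) (nat_lit 20) .nil)))))) (.g (nat_lit 1) (.e (nat_lit 88502) (nat_lit 0) .nil) .nil))) 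
(.lf (nat_lit 472594) (.g (nat_lit 2868) (.e (nat_lit 3724) (nat_lit 227) (.e (nat_lit 778466) (nat_lit 11) (.e (nat_lit 24617) (nat_lit 7) (.e (nat_lit 319534) (nat_lit 16) (.e (nat_lit 286756) (nat_lit 10) (.e (nat_lit 344169) (nat_lit 40) (.e (nat_lit 671770) (nat_lit 9) (.e (nat_lit 2436) (nat_lit 157) .nil)))))))) (.g (nat_lit 1) (.e (nat_lit 90796) (nat_lit 0) .nil) .nil)))) 
(.nd (nat_lit 9) 
(.lf (nat_lit 472338) (.g (nat_lit 2800) (.e (nat_lit 3632) (nat_lit 227) (.e (nat_lit 778318) (nat_lit 3) (.e (nat_lit 57476) (nat_lit 28) (.e (nat_lit 557097) (nat_lit 13) (.e (nat_lit 172115) (nat_lit 10) (.e (nat_lit 434231) (nat_lit 23) (.e (nat_lit 532529) (nat_lit 9) (.e (nat_lit 336262) (nat_lit 15) .nil)))))))) (.g (nat_lit 1) (.e (nat_lit 90479) (nat_lit 0) .nil) .nil))) 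
(.lf (nat_lit 472850) (.g (nat_lit 1983) (.e (nat_lit 3468) (nat_lit 217) (.e (nat_lit 696344) (nat_lit 8) (.e (nat_lit 172079) (nat_lit 7) (.e (nat_lit 409645) (nat_lit 18) (.e (nat_lit 303140) (nat_lit 10) .nil))))) (.g (nat_lit 0) (.e (nat_lit 91718) (nat_lit 0) .nil) .nil))))) (.nd (nat_lit 8) (.nd (nat_lit 9) 
(.lf (nat_lit 472210) (.g (nat_lit 4555) (.e (nat_lit 3629) (nat_lit 227) (.e (nat_lit 778318) (nat_lit 3) (.e (nat_lit 57474) (nat_lit 28) (.e (nat_lit 557100) (nat_lit 13) (.e (nat_lit 172106) (nat_lit 10) (.e (nat_lit 434231) (nat_lit 23) (.e (nat_lit 532535) (nat_lit 9) (.e (nat_lit 336295) (nat_lit 15) .nil)))))))) (.g (nat_lit 1) (.e (nat_lit 90347) (nat_lit 0) .nil) .nil))) 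
(.lf (nat_lit 472722) (.g (nat_lit 2479) (.e (nat_lit 3454) (nat_lit 216) (.e (nat_lit 688182) (nat_lit 17) (.e (nat_lit 73755) (nat_lit 8) (.e (nat_lit 557067) (nat_lit 9) (.e (nat_lit 3096) (nat_lit 192) .nil))))) (.g (nat_lit 0) (.e (nat_lit 91404) (nat_lit 0) .nil) .nil)))) (.nd (nat_lit 9) 
(.lf (nat_lit 472466) (.g (nat_lit 1368) (.e (nat_lit 3655) (nat_lit 227) (.e (nat_lit 778462) (nat_lit 11) (.e (nat_lit 24604) (nat_lit 2) (.e (nat_lit 90178) (nat_lit 15) (.e (nat_lit 196352) (nat_lit 3) .nil))))) (.g (nat_lit 0) (.e (nat_lit 90616) (nat_lit 0) .nil) .nil))) 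
(.lf (nat_lit 472978) (.g (nat_lit 3424) (.e (nat_lit 3469) (nat_lit 217) (.e (nat_lit 696344) (nat_lit 8) (.e (nat_lit 172081) (nat_lit 7) (.e (nat_lit 409649) (nat_lit 18) (.e (nat_lit 303140) (nat_lit 10) (.e (nat_lit 434275) (nat_lit 39) (.e (nat_lit 663574) (nat_lit 9) (.e (nat_lit 2456) (nat_lit 157) .nil)))))))) (.g (nat_lit 1) (.e (nat_lit 92106) (nat_lit 0) .nil) .nil)))))) 
(.nd (nat_lit 7) (.nd (nat_lit 8) (.nd (nat_lit 9) 
(.lf (nat_lit 472146) (.g (nat_lit 2083) (.e (nat_lit 3613) (nat_lit 226) (.e (nat_lit 770072) (nat_lit 8) (.e (nat_lit 65571) (nat_lit 3) (.e (nat_lit 98380) (nat_lit 31) .nil)))) (.g (nat_lit 0) (.e (nat_lit 90274) (nat_lit 0) .nil) .nil))) 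
(.lf (nat_lit 472658) (.g (nat_lit 1844) (.e (nat_lit 3747) (nat_lit 228) (.e (nat_lit 786473) (nat_lit 27) (.e (nat_lit 336442) (nat_lit 32) (.e (nat_lit 466974) (nat_lit 22) (.e (nat_lit 196661) (nat_lit 12) (.e (nat_lit 65280) (nat_lit 57) (.e (nat_lit 794655) (nat_lit 20) .nil))))))) (.g (nat_lit 1) (.e (nat_lit 91094) (nat_lit 0) .nil) .nil)))) (.nd (nat_lit 9) 
(.lf (nat_lit 472402) (.g (nat_lit 2554) (.e (nat_lit 3632) (nat_lit 227) (.e (nat_lit 778324) (nat_lit 5) (.e (nat_lit 73781) (nat_lit 32) (.e (nat_lit 2857) (nat_lit 184) (.e (nat_lit 426542) (nat_lit 29) (.e (nat_lit 352265) (nat_lit 0) .nil)))))) (.g (nat_lit 1) (.e (nat_lit 90545) (nat_lit 0) .nil) .nil))) 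
(.lf (nat_lit 472914) (.g (nat_lit 3319) (.e (nat_lit 3469) (nat_lit 217) (.e (nat_lit 696344) (nat_lit 8) (.e (nat_lit 172067) (nat_lit 3) (.e (nat_lit 204855) (nat_lit 26) (.e (nat_lit 336176) (nat_lit 10) (.e (nat_lit 344130) (nat_lit 26) (.e (nat_lit 557067) (nat_lit 9) (.e (nat_lit 2466) (nat_lit 157) .nil)))))))) (.g (nat_lit 1) (.e (nat_lit 92042) (nat_lit 0) .nil) .nil))))) 
(.nd (nat_lit 8) (.nd (nat_lit 9) 
(.lf (nat_lit 472274) (.g (nat_lit 3581) (.e (nat_lit 3631) (nat_lit 227) (.e (nat_lit 778318) (nat_lit 3) (.e (nat_lit 57476) (nat_lit 28) (.e (nat_lit 557097) (nat_lit 13) (.e (nat_lit 172115) (nat_lit 10) (.e (nat_lit 434231) (nat_lit 23) (.e (nat_lit 532535) (nat_lit 9) (.e (nat_lit 336291) (nat_lit 15) .nil)))))))) (.g (nat_lit 1) (.e (nat_lit 90413) (nat_lit 0) .nil) .nil))) 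
(.lf (nat_lit 472786) (.g (nat_lit 1895) (.e (nat_lit 3467) (nat_lit 217) (.e (nat_lit 696344) (nat_lit 8) (.e (nat_lit 172106) (nat_lit 10) (.e (nat_lit 434209) (nat_lit 18) (.e (nat_lit 6426) (nat_lit 342) (.e (nat_lit 229412) (nat_lit 14) (.e (nat_lit 442411) (nat_lit 20) .nil))))))) (.g (nat_lit 1) (.e (nat_lit 91553) (nat_lit 0) .nil) .nil)))) (.nd (nat_lit 9) 
(.lf (nat_lit 472530) (.g (nat_lit 1862) (.e (nat_lit 3712) (nat_lit 227) (.e (nat_lit 778469) (nat_lit 11) (.e (nat_lit 24604) (nat_lit 2) (.e (nat_lit 90185) (nat_lit 17) (.e (nat_lit 237616) (nat_lit 12) (.e (nat_lit 475179) (nat_lit 24) (.e (nat_lit 516102) (nat_lit 0) .nil))))))) (.g (nat_lit 1) (.e (nat_lit 90726) (nat_lit 0) .nil) .nil))) 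
(.lf (nat_lit 473042) (.g (nat_lit 2610) (.e (nat_lit 3469) (nat_lit 217) (.e (nat_lit 696344) (nat_lit 8) (.e (nat_lit 172106) (nat_lit 10) (.e (nat_lit 434209) (nat_lit 18) (.e (nat_lit 6284) (nat_lit 337) (.e (nat_lit 7936) (nat_lit 166) (.e (nat_lit 188439) (nat_lit 20) .nil))))))) (.g (nat_lit 1) (.e (nat_lit 92174) (nat_lit 0) .nil) .nil))))))) 
(.nd (nat_lit 6) (.nd (nat_lit 7) (.nd (nat_lit 8) (.nd (nat_lit 9) 
(.lf (nat_lit 472114) (.g (nat_lit 1141) (.e (nat_lit 3604) (nat_lit 225) (.e (nat_lit 761914) (nat_lit 18) (.e (nat_lit 188455) (nat_lit 24) (.e (nat_lit 229628) (nat_lit 226) .nil)))) (.g (nat_lit 0) (.e (nat_lit 89194) (nat_lit 0) .nil) .nil))) 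
(.lf (nat_lit 472626) (.g (nat_lit 2387) (.e (nat_lit 3746) (nat_lit 228) (.e (nat_lit 786481) (nat_lit 30) (.e (nat_lit 360457) (nat_lit 0) (.e (nat_lit 5949) (nat_lit 322) (.e (nat_lit 57436) (nat_lit 17) (.e (nat_lit 376835) (nat_lit 0) .nil)))))) (.g (nat_lit 1) (.e (nat_lit 91060) (nat_lit 0) .nil) .nil)))) (.nd (nat_lit 9) 
(.lf (nat_lit 472370) (.g (nat_lit 2448) (.e (nat_lit 3632) (nat_lit 227) (.e (nat_lit 778323) (nat_lit 5) (.e (nat_lit 73781) (nat_lit 32) (.e (nat_lit 3089) (nat_lit 191) (.e (nat_lit 483393) (nat_lit 23) (.e (nat_lit 336293) (nat_lit 15) .nil)))))) (.g (nat_lit 1) (.e (nat_lit 90512) (nat_lit 0) .nil) .nil))) 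
(.lf (nat_lit 472882) (.g (nat_lit 2768) (.e (nat_lit 3468) (nat_lit 217) (.e (nat_lit 696344) (nat_lit 8) (.e (nat_lit 172112) (nat_lit 10) (.e (nat_lit 434289) (nat_lit 43) (.e (nat_lit 696346) (nat_lit 10) (.e (nat_lit 188440) (nat_lit 20) .nil)))))) (.g (nat_lit 1) (.e (nat_lit 91772) (nat_lit 0) .nil) .nil))))) (.nd (nat_lit 8) (.nd (nat_lit 9) 
(.lf (nat_lit 472242) (.g (nat_lit 2732) (.e (nat_lit 3630) (nat_lit 227) (.e (nat_lit 778318) (nat_lit 3) (.e (nat_lit 57476) (nat_lit 28) (.e (nat_lit 557107) (nat_lit 15) (.e (nat_lit 188447) (nat_lit 22) (.e (nat_lit 196666) (nat_lit 13) (.e (nat_lit 65642) (nat_lit 15) .nil))))))) (.g (nat_lit 1) (.e (nat_lit 90381) (nat_lit 0) .nil) .nil))) 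
(.lf (nat_lit 472754) (.g (nat_lit 2373) (.e (nat_lit 3464) (nat_lit 217) (.e (nat_lit 696344) (nat_lit 8) (.e (nat_lit 172082) (nat_lit 7) (.e (nat_lit 409646) (nat_lit 18) (.e (nat_lit 303135) (nat_lit 10) (.e (nat_lit 434275) (nat_lit 39) (.e (nat_lit 663580) (nat_lit 9) (.e (nat_lit 2478) (nat_lit 157) .nil)))))))) (.g (nat_lit 1) (.e (nat_lit 91490) (nat_lit 0) .nil) .nil)))) 
(.nd (nat_lit 9) 
(.lf (nat_lit 472498) (.g (nat_lit 2036) (.e (nat_lit 3703) (nat_lit 227) (.e (nat_lit 778466) (nat_lit 11) (.e (nat_lit 24617) (nat_lit 7) (.e (nat_lit 319534) (nat_lit 16) (.e (nat_lit 286756) (nat_lit 10) .nil))))) (.g (nat_lit 0) (.e (nat_lit 90693) (nat_lit 0) .nil) .nil))) 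
(.lf (nat_lit 473010) (.g (nat_lit 2053) (.e (nat_lit 3469) (nat_lit 217) (.e (nat_lit 696344) (nat_lit 8) (.e (nat_lit 172082) (nat_lit 7) (.e (nat_lit 409649) (nat_lit 18) (.e (nat_lit 303140) (nat_lit 10) (.e (nat_lit 434275) (nat_lit 39) (.e (nat_lit 663574) (nat_lit 9) (.e (nat_lit 2416) (nat_lit 157) .nil)))))))) (.g (nat_lit 1) (.e (nat_lit 92138) (nat_lit 0) .nil) .nil)))))) 
(.nd (nat_lit 7) (.nd (nat_lit 8) (.nd (nat_lit 9) 
(.lf (nat_lit 472178) (.g (nat_lit 3164) (.e (nat_lit 3617) (nat_lit 227) (.e (nat_lit 778462) (nat_lit 11) (.e (nat_lit 24604) (nat_lit 2) (.e (nat_lit 90185) (nat_lit 17) (.e (nat_lit 237616) (nat_lit 12) (.e (nat_lit 475179) (nat_lit 24) (.e (nat_lit 516100) (nat_lit 0) .nil))))))) (.g (nat_lit 1) (.e (nat_lit 90309) (nat_lit 0) .nil) .nil))) 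
(.lf (nat_lit 472690) (.g (nat_lit 1341) (.e (nat_lit 3748) (nat_lit 228) (.e (nat_lit 786483) (nat_lit 30) (.e (nat_lit 360486) (nat_lit 18) (.e (nat_lit 671746) (nat_lit 0) .nil)))) (.g (nat_lit 0) (.e (nat_lit 91172) (nat_lit 0) .nil) .nil)))) (.nd (nat_lit 9) 
(.lf (nat_lit 472434) (.g (nat_lit 4009) (.e (nat_lit 3634) (nat_lit 227) (.e (nat_lit 778318) (nat_lit 3) (.e (nat_lit 57476) (nat_lit 28) (.e (nat_lit 557107) (nat_lit 15) (.e (nat_lit 188450) (nat_lit 23) (.e (nat_lit 204852) (nat_lit 26) (.e (nat_lit 336261) (nat_lit 15) .nil))))))) (.g (nat_lit 1) (.e (nat_lit 90581) (nat_lit 0) .nil) .nil))) 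
(.lf (nat_lit 472946) (.g (nat_lit 2777) (.e (nat_lit 3469) (nat_lit 217) (.e (nat_lit 696344) (nat_lit 8) (.e (nat_lit 172079) (nat_lit 7) (.e (nat_lit 409645) (nat_lit 18) (.e (nat_lit 303139) (nat_lit 10) (.e (nat_lit 434276) (nat_lit 39) (.e (nat_lit 663580) (nat_lit 9) (.e (nat_lit 2416) (nat_lit 157) .nil)))))))) (.g (nat_lit 1) (.e (nat_lit 92074) (nat_lit 0) .nil) .nil))))) 
(.nd (nat_lit 8) (.nd (nat_lit 9) 
(.lf (nat_lit 472306) (.g (nat_lit 3283) (.e (nat_lit 3631) (nat_lit 227) (.e (nat_lit 778323) (nat_lit 5) (.e (nat_lit 73782) (nat_lit 32) (.e (nat_lit 3090) (nat_lit 191) (.e (nat_lit 483380) (nat_lit 23) (.e (nat_lit 336264) (nat_lit 15) .nil)))))) (.g (nat_lit 1) (.e (nat_lit 90446) (nat_lit 0) .nil) .nil))) 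
(.lf (nat_lit 472818) (.g (nat_lit 2194) (.e (nat_lit 3468) (nat_lit 217) (.e (nat_lit 696343) (nat_lit 8) (.e (nat_lit 172112) (nat_lit 10) (.e (nat_lit 434289) (nat_lit 43) (.e (nat_lit 696346) (nat_lit 10) (.e (nat_lit 188439) (nat_lit 20) .nil)))))) (.g (nat_lit 1) (.e (nat_lit 91656) (nat_lit 0) .nil) .nil)))) (.nd (nat_lit 9) 
(.lf (nat_lit 472562) (.g (nat_lit 2523) (.e (nat_lit 3716) (nat_lit 227) (.e (nat_lit 778319) (nat_lit 4) (.e (nat_lit 65624) (nat_lit 12) (.e (nat_lit 385106) (nat_lit 50) (.e (nat_lit 786478) (nat_lit 29) (.e (nat_lit 352258) (nat_lit 0) .nil)))))) (.g (nat_lit 1) (.e (nat_lit 90760) (nat_lit 0) .nil) .nil))) 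
(.lf (nat_lit 473074) (.g (nat_lit 2015) (.e (nat_lit 3469) (nat_lit 217) (.e (nat_lit 696344) (nat_lit 8) (.e (nat_lit 172113) (nat_lit 10) (.e (nat_lit 434203) (nat_lit 18) (.e (nat_lit 6418) (nat_lit 341) (.e (nat_lit 163920) (nat_lit 14) (.e (nat_lit 442412) (nat_lit 20) .nil))))))) (.g (nat_lit 1) (.e (nat_lit 92206) (nat_lit 0) .nil) .nil))))))))) 
(.nd (nat_lit 4) (.nd (nat_lit 5) (.nd (nat_lit 6) (.nd (nat_lit 7) (.nd (nat_lit 8) 
(.nd (nat_lit 9) 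
(.lf (nat_lit 472074) (.g (nat_lit 2835) (.e (nat_lit 3409) (nat_lit 212) (.e (nat_lit 655378) (nat_lit 4) (.e (nat_lit 172126) (nat_lit 14) (.e (nat_lit 491547) (nat_lit 9) (.e (nat_lit 336430) (nat_lit 29) .nil))))) (.g (nat_lit 0) (.e (nat_lit 88492) (nat_lit 0) .nil) .nil))) 
(.lf (nat_lit 472586) (.g (nat_lit 2601) (.e (nat_lit 3720) (nat_lit 227) (.e (nat_lit 778466) (nat_lit 11) (.e (nat_lit 24617) (nat_lit 7) (.e (nat_lit 319534) (nat_lit 16) (.e (nat_lit 286756) (nat_lit 10) .nil))))) (.g (nat_lit 0) (.e (nat_lit 90785) (nat_lit 0) .nil) .nil)))) (.nd (nat_lit 9) 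
(.lf (nat_lit 472330) (.g (nat_lit 4616) (.e (nat_lit 3632) (nat_lit 227) (.e (nat_lit 778317) (nat_lit 3) (.e (nat_lit 57478) (nat_lit 28) (.e (nat_lit 557100) (nat_lit 13) (.e (nat_lit 172106) (nat_lit 10) (.e (nat_lit 434231) (nat_lit 23) (.e (nat_lit 532535) (nat_lit 9) (.e (nat_lit 336295) (nat_lit 15) .nil)))))))) (.g (nat_lit 1) (.e (nat_lit 90471) (nat_lit 0) .nil) .nil))) 
(.lf (nat_lit 472842) (.g (nat_lit 2706) (.e (nat_lit 3468) (nat_lit 217) (.e (nat_lit 696343) (nat_lit 8) (.e (nat_lit 172116) (nat_lit 10) (.e (nat_lit 434289) (nat_lit 43) (.e (nat_lit 696346) (nat_lit 10) (.e (nat_lit 188438) (nat_lit 20) .nil)))))) (.g (nat_lit 1) (.e (nat_lit 91709) (nat_lit 0) .nil) .nil))))) (.nd (nat_lit 8) (.nd (nat_lit 9) 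
(.lf (nat_lit 472202) (.g (nat_lit 1610) (.e (nat_lit 3619) (nat_lit 227) (.e (nat_lit 778324) (nat_lit 5) (.e (nat_lit 73781) (nat_lit 32) (.e (nat_lit 3090) (nat_lit 191) (.e (nat_lit 483381) (nat_lit 23) .nil))))) (.g (nat_lit 0) (.e (nat_lit 90339) (nat_lit 0) .nil) .nil))) 
(.lf (nat_lit 472714) (.g (nat_lit 1763) (.e (nat_lit 3771) (nat_lit 229) (.e (nat_lit 794673) (nat_lit 23) (.e (nat_lit 204852) (nat_lit 26) (.e (nat_lit 336326) (nat_lit 18) (.e (nat_lit 204831) (nat_lit 18) .nil))))) (.g (nat_lit 0) (.e (nat_lit 91301) (nat_lit 0) .nil) .nil)))) (.nd (nat_lit 9) 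
(.lf (nat_lit 472458) (.g (nat_lit 3182) (.e (nat_lit 3651) (nat_lit 227) (.e (nat_lit 778462) (nat_lit 11) (.e (nat_lit 24608) (nat_lit 3) (.e (nat_lit 98365) (nat_lit 26) (.e (nat_lit 426187) (nat_lit 9) (.e (nat_lit 426436) (nat_lit 18) (.e (nat_lit 98321) (nat_lit 17) .nil))))))) (.g (nat_lit 1) (.e (nat_lit 90605) (nat_lit 0) .nil) .nil))) 
(.lf (nat_lit 472970) (.g (nat_lit 3118) (.e (nat_lit 3469) (nat_lit 217) (.e (nat_lit 696344) (nat_lit 8) (.e (nat_lit 172079) (nat_lit 7) (.e (nat_lit 409649) (nat_lit 18) (.e (nat_lit 303140) (nat_lit 10) (.e (nat_lit 434275) (nat_lit 39) (.e (nat_lit 663580) (nat_lit 9) (.e (nat_lit 7936) (nat_lit 157) .nil)))))))) (.g (nat_lit 1) (.e (nat_lit 92098) (nat_lit 0) .nil) .nil)))))) 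
(.nd (nat_lit 7) (.nd (nat_lit 8) (.nd (nat_lit 9) 
(.lf (nat_lit 472138) (.g (nat_lit 1871) (.e (nat_lit 3608) (nat_lit 226) (.e (nat_lit 770072) (nat_lit 8) (.e (nat_lit 65571) (nat_lit 3) (.e (nat_lit 98381) (nat_lit 31) .nil)))) (.g (nat_lit 0) (.e (nat_lit 90264) (nat_lit 0) .nil) .nil))) 
(.lf (nat_lit 472650) (.g (nat_lit 2789) (.e (nat_lit 3747) (nat_lit 228) (.e (nat_lit 786473) (nat_lit 27) (.e (nat_lit 336235) (nat_lit 14) (.e (nat_lit 401437) (nat_lit 9) (.e (nat_lit 426555) (nat_lit 32) (.e (nat_lit 376837) (nat_lit 0) .nil)))))) (.g (nat_lit 1) (.e (nat_lit 91086) (nat_lit 0) .nil) .nil)))) (.nd (nat_lit 9) 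
(.lf (nat_lit 472394) (.g (nat_lit 1394) (.e (nat_lit 3632) (nat_lit 227) (.e (nat_lit 778323) (nat_lit 5) (.e (nat_lit 73782) (nat_lit 32) (.e (nat_lit 3090) (nat_lit 191) (.e (nat_lit 483381) (nat_lit 23) .nil))))) (.g (nat_lit 0) (.e (nat_lit 90536) (nat_lit 0) .nil) .nil))) 
(.lf (nat_lit 472906) (.g (nat_lit 1800) (.e (nat_lit 3468) (nat_lit 217) (.e (nat_lit 696344) (nat_lit 8) (.e (nat_lit 172123) (nat_lit 13) (.e (nat_lit 483375) (nat_lit 22) (.e (nat_lit 335616) (nat_lit 18) (.e (nat_lit 303111) (nat_lit 0) .nil)))))) (.g (nat_lit 1) (.e (nat_lit 91828) (nat_lit 0) .nil) .nil))))) (.nd (nat_lit 8) (.nd (nat_lit 9) 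
(.lf (nat_lit 472266) (.g (nat_lit 2572) (.e (nat_lit 3631) (nat_lit 227) (.e (nat_lit 778318) (nat_lit 3) (.e (nat_lit 57476) (nat_lit 28) (.e (nat_lit 557097) (nat_lit 13) (.e (nat_lit 172097) (nat_lit 9) (.e (nat_lit 426140) (nat_lit 3) (.e (nat_lit 204855) (nat_lit 26) (.e (nat_lit 336291) (nat_lit 15) .nil)))))))) (.g (nat_lit 1) (.e (nat_lit 90405) (nat_lit 0) .nil) .nil))) 
(.lf (nat_lit 472778) (.g (nat_lit 2720) (.e (nat_lit 3467) (nat_lit 217) (.e (nat_lit 696344) (nat_lit 8) (.e (nat_lit 172079) (nat_lit 7) (.e (nat_lit 409645) (nat_lit 18) (.e (nat_lit 303140) (nat_lit 10) (.e (nat_lit 434275) (nat_lit 39) (.e (nat_lit 663580) (nat_lit 9) (.e (nat_lit 2416) (nat_lit 157) .nil)))))))) (.g (nat_lit 1) (.e (nat_lit 91541) (nat_lit 0) .nil) .nil)))) 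
(.nd (nat_lit 9) 
(.lf (nat_lit 472522) (.g (nat_lit 3197) (.e (nat_lit 3711) (nat_lit 227) (.e (nat_lit 778469) (nat_lit 11) (.e (nat_lit 24604) (nat_lit 2) (.e (nat_lit 90185) (nat_lit 17) (.e (nat_lit 237605) (nat_lit 9) (.e (nat_lit 426438) (nat_lit 18) (.e (nat_lit 98323) (nat_lit 17) .nil))))))) (.g (nat_lit 1) (.e (nat_lit 90717) (nat_lit 0) .nil) .nil))) 
(.lf (nat_lit 473034) (.g (nat_lit 3258) (.e (nat_lit 3469) (nat_lit 217) (.e (nat_lit 696344) (nat_lit 8) (.e (nat_lit 172106) (nat_lit 10) (.e (nat_lit 434209) (nat_lit 18) (.e (nat_lit 6272) (nat_lit 337) (.e (nat_lit 2645) (nat_lit 166) (.e (nat_lit 188435) (nat_lit 20) .nil))))))) (.g (nat_lit 1) (.e (nat_lit 92166) (nat_lit 0) .nil) .nil))))))) 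
(.nd (nat_lit 6) (.nd (nat_lit 7) (.nd (nat_lit 8) (.nd (nat_lit 9) 
(.lf (nat_lit 472106) (.g (nat_lit 382) (.e (nat_lit 3604) (nat_lit 225) (.e (nat_lit 761905) (nat_lit 16) (.e (nat_lit 172113) (nat_lit 10) .nil))) (.g (nat_lit 0) (.e (nat_lit 89110) (nat_lit 0) .nil) .nil))) 
(.lf (nat_lit 472618) (.g (nat_lit 1253) (.e (nat_lit 3746) (nat_lit 228) (.e (nat_lit 786480) (nat_lit 29) (.e (nat_lit 352318) (nat_lit 24) (.e (nat_lit 123196) (nat_lit 266) .nil)))) (.g (nat_lit 0) (.e (nat_lit 91052) (nat_lit 0) .nil) .nil)))) (.nd (nat_lit 9) 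
(.lf (nat_lit 472362) (.g (nat_lit 3141) (.e (nat_lit 3632) (nat_lit 227) (.e (nat_lit 778320) (nat_lit 4) (.e (nat_lit 65630) (nat_lit 14) (.e (nat_lit 401437) (nat_lit 9) (.e (nat_lit 426538) (nat_lit 29) (.e (nat_lit 352262) (nat_lit 0) .nil)))))) (.g (nat_lit 1) (.e (nat_lit 90503) (nat_lit 0) .nil) .nil))) 
(.lf (nat_lit 472874) (.g (nat_lit 2585) (.e (nat_lit 3468) (nat_lit 217) (.e (nat_lit 696344) (nat_lit 8) (.e (nat_lit 172106) (nat_lit 10) (.e (nat_lit 434289) (nat_lit 43) (.e (nat_lit 696346) (nat_lit 10) (.e (nat_lit 188439) (nat_lit 20) .nil)))))) (.g (nat_lit 1) (.e (nat_lit 91758) (nat_lit 0) .nil) .nil))))) (.nd (nat_lit 8) (.nd (nat_lit 9) 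
(.lf (nat_lit 472234) (.g (nat_lit 1053) (.e (nat_lit 3629) (nat_lit 227) (.e (nat_lit 778327) (nat_lit 6) (.e (nat_lit 81922) (nat_lit 0) (.e (nat_lit 3631) (nat_lit 227) (.e (nat_lit 778327) (nat_lit 6) (.e (nat_lit 81922) (nat_lit 0) .nil)))))) (.g (nat_lit 1) (.e (nat_lit 90373) (nat_lit 0) .nil) .nil))) 
(.lf (nat_lit 472746) (.g (nat_lit 3971) (.e (nat_lit 3464) (nat_lit 217) (.e (nat_lit 696343) (nat_lit 8) (.e (nat_lit 172126) (nat_lit 14) (.e (nat_lit 491566) (nat_lit 12) (.e (nat_lit 385108) (nat_lit 51) (.e (nat_lit 794684) (nat_lit 25) (.e (nat_lit 221198) (nat_lit 20) .nil))))))) (.g (nat_lit 1) (.e (nat_lit 91482) (nat_lit 0) .nil) .nil)))) (.nd (nat_lit 9) 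
(.lf (nat_lit 472490) (.g (nat_lit 1945) (.e (nat_lit 3689) (nat_lit 227) (.e (nat_lit 778466) (nat_lit 11) (.e (nat_lit 24617) (nat_lit 7) (.e (nat_lit 319534) (nat_lit 16) .nil)))) (.g (nat_lit 0) (.e (nat_lit 90676) (nat_lit 0) .nil) .nil))) 
(.lf (nat_lit 473002) (.g (nat_lit 2711) (.e (nat_lit 3469) (nat_lit 217) (.e (nat_lit 696344) (nat_lit 8) (.e (nat_lit 172082) (nat_lit 7) (.e (nat_lit 409646) (nat_lit 18) (.e (nat_lit 303140) (nat_lit 10) (.e (nat_lit 434275) (nat_lit 39) (.e (nat_lit 663580) (nat_lit 9) (.e (nat_lit 7936) (nat_lit 157) .nil)))))))) (.g (nat_lit 1) (.e (nat_lit 92130) (nat_lit 0) .nil) .nil)))))) 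
(.nd (nat_lit 7) (.nd (nat_lit 8) (.nd (nat_lit 9) 
(.lf (nat_lit 472170) (.g (nat_lit 4653) (.e (nat_lit 3617) (nat_lit 227) (.e (nat_lit 778318) (nat_lit 3) (.e (nat_lit 57476) (nat_lit 28) (.e (nat_lit 557108) (nat_lit 15) (.e (nat_lit 188452) (nat_lit 23) (.e (nat_lit 204852) (nat_lit 26) (.e (nat_lit 336258) (nat_lit 15) .nil))))))) (.g (nat_lit 1) (.e (nat_lit 90300) (nat_lit 0) .nil) .nil))) 
(.lf (nat_lit 472682) (.g (nat_lit 1177) (.e (nat_lit 3748) (nat_lit 228) (.e (nat_lit 786480) (nat_lit 29) (.e (nat_lit 352307) (nat_lit 21) (.e (nat_lit 57872) (nat_lit 264) .nil)))) (.g (nat_lit 0) (.e (nat_lit 91158) (nat_lit 0) .nil) .nil)))) (.nd (nat_lit 9) 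
(.lf (nat_lit 472426) (.g (nat_lit 1653) (.e (nat_lit 3632) (nat_lit 227) (.e (nat_lit 778327) (nat_lit 6) (.e (nat_lit 81957) (nat_lit 24) (.e (nat_lit 123195) (nat_lit 266) (.e (nat_lit 57436) (nat_lit 17) .nil))))) (.g (nat_lit 0) (.e (nat_lit 90573) (nat_lit 0) .nil) .nil))) 
(.lf (nat_lit 472938) (.g (nat_lit 2651) (.e (nat_lit 3469) (nat_lit 217) (.e (nat_lit 696344) (nat_lit 8) (.e (nat_lit 172079) (nat_lit 7) (.e (nat_lit 409645) (nat_lit 18) (.e (nat_lit 303137) (nat_lit 10) (.e (nat_lit 434275) (nat_lit 39) (.e (nat_lit 663574) (nat_lit 9) (.e (nat_lit 2464) (nat_lit 157) .nil)))))))) (.g (nat_lit 1) (.e (nat_lit 92066) (nat_lit 0) .nil) .nil))))) 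
(.nd (nat_lit 8) (.nd (nat_lit 9) 
(.lf (nat_lit 472298) (.g (nat_lit 1904) (.e (nat_lit 3631) (nat_lit 227) (.e (nat_lit 778323) (nat_lit 5) (.e (nat_lit 73781) (nat_lit 32) (.e (nat_lit 3090) (nat_lit 191) (.e (nat_lit 483391) (nat_lit 23) (.e (nat_lit 336300) (nat_lit 15) .nil)))))) (.g (nat_lit 1) (.e (nat_lit 90438) (nat_lit 0) .nil) .nil))) 
(.lf (nat_lit 472810) (.g (nat_lit 3073) (.e (nat_lit 3468) (nat_lit 217) (.e (nat_lit 696343) (nat_lit 8) (.e (nat_lit 172106) (nat_lit 10) (.e (nat_lit 434289) (nat_lit 43) (.e (nat_lit 696346) (nat_lit 10) (.e (nat_lit 188440) (nat_lit 20) .nil)))))) (.g (nat_lit 1) (.e (nat_lit 91644) (nat_lit 0) .nil) .nil)))) (.nd (nat_lit 9) 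
(.lf (nat_lit 472554) (.g (nat_lit 1651) (.e (nat_lit 3714) (nat_lit 227) (.e (nat_lit 786176) (nat_lit 5) (.e (nat_lit 73781) (nat_lit 32) (.e (nat_lit 2857) (nat_lit 184) (.e (nat_lit 426542) (nat_lit 29) (.e (nat_lit 352264) (nat_lit 0) .nil)))))) (.g (nat_lit 1) (.e (nat_lit 90751) (nat_lit 0) .nil) .nil))) 
(.lf (nat_lit 473066) (.g (nat_lit 4082) (.e (nat_lit 3469) (nat_lit 217) (.e (nat_lit 696344) (nat_lit 8) (.e (nat_lit 172113) (nat_lit 10) (.e (nat_lit 434203) (nat_lit 18) (.e (nat_lit 6252) (nat_lit 337) (.e (nat_lit 2651) (nat_lit 166) (.e (nat_lit 188439) (nat_lit 20) .nil))))))) (.g (nat_lit 1) (.e (nat_lit 92198) (nat_lit 0) .nil) .nil)))))))) 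
(.nd (nat_lit 5) (.nd (nat_lit 6) (.nd (nat_lit 7) (.nd (nat_lit 8) (.nd (nat_lit 9) 
(.lf (nat_lit 472090) (.g (nat_lit 1196) (.e (nat_lit 3409) (nat_lit 212) (.e (nat_lit 655380) (nat_lit 6) (.e (nat_lit 188439) (nat_lit 20) (.e (nat_lit 3406) (nat_lit 212) (.e (nat_lit 655380) (nat_lit 6) (.e (nat_lit 188435) (nat_lit 20) .nil)))))) (.g (nat_lit 1) (.e (nat_lit 88510) (nat_lit 0) .nil) .nil))) 
(.lf (nat_lit 472602) (.g (nat_lit 2993) (.e (nat_lit 3722) (nat_lit 227) (.e (nat_lit 778466) (nat_lit 11) (.e (nat_lit 24617) (nat_lit 7) (.e (nat_lit 319534) (nat_lit 16) (.e (nat_lit 286756) (nat_lit 10) (.e (nat_lit 344168) (nat_lit 40) (.e (nat_lit 671769) (nat_lit 9) (.e (nat_lit 2421) (nat_lit 157) .nil)))))))) (.g (nat_lit 1) (.e (nat_lit 90813) (nat_lit 0) .nil) .nil)))) 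
(.nd (nat_lit 9) 
(.lf (nat_lit 472346) (.g (nat_lit 2999) (.e (nat_lit 3632) (nat_lit 227) (.e (nat_lit 778318) (nat_lit 3) (.e (nat_lit 57476) (nat_lit 28) (.e (nat_lit 557107) (nat_lit 15) (.e (nat_lit 188447) (nat_lit 22) (.e (nat_lit 196666) (nat_lit 13) (.e (nat_lit 65642) (nat_lit 15) .nil))))))) (.g (nat_lit 1) (.e (nat_lit 90487) (nat_lit 0) .nil) .nil))) 
(.lf (nat_lit 472858) (.g (nat_lit 2202) (.e (nat_lit 3468) (nat_lit 217) (.e (nat_lit 696344) (nat_lit 8) (.e (nat_lit 172106) (nat_lit 10) (.e (nat_lit 434209) (nat_lit 18) (.e (nat_lit 6271) (nat_lit 337) .nil))))) (.g (nat_lit 0) (.e (nat_lit 91733) (nat_lit 0) .nil) .nil))))) (.nd (nat_lit 8) (.nd (nat_lit 9) 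
(.lf (nat_lit 472218) (.g (nat_lit 3192) (.e (nat_lit 3629) (nat_lit 227) (.e (nat_lit 778323) (nat_lit 5) (.e (nat_lit 73782) (nat_lit 32) (.e (nat_lit 2856) (nat_lit 184) (.e (nat_lit 426542) (nat_lit 29) (.e (nat_lit 352267) (nat_lit 0) .nil)))))) (.g (nat_lit 1) (.e (nat_lit 90355) (nat_lit 0) .nil) .nil))) 
(.lf (nat_lit 472730) (.g (nat_lit 3761) (.e (nat_lit 3459) (nat_lit 216) (.e (nat_lit 688177) (nat_lit 16) (.e (nat_lit 65568) (nat_lit 2) (.e (nat_lit 90170) (nat_lit 13) (.e (nat_lit 172106) (nat_lit 10) (.e (nat_lit 434231) (nat_lit 23) (.e (nat_lit 540416) (nat_lit 17) .nil))))))) (.g (nat_lit 1) (.e (nat_lit 91433) (nat_lit 0) .nil) .nil)))) (.nd (nat_lit 9) 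
(.lf (nat_lit 472474) (.g (nat_lit 3437) (.e (nat_lit 3666) (nat_lit 227) (.e (nat_lit 778462) (nat_lit 11) (.e (nat_lit 24628) (nat_lit 9) (.e (nat_lit 336443) (nat_lit 32) (.e (nat_lit 466972) (nat_lit 21) (.e (nat_lit 164330) (nat_lit 230) (.e (nat_lit 163857) (nat_lit 0) .nil))))))) (.g (nat_lit 1) (.e (nat_lit 90636) (nat_lit 0) .nil) .nil))) 
(.lf (nat_lit 472986) (.g (nat_lit 2169) (.e (nat_lit 3469) (nat_lit 217) (.e (nat_lit 696344) (nat_lit 8) (.e (nat_lit 172082) (nat_lit 7) (.e (nat_lit 409646) (nat_lit 18) (.e (nat_lit 303135) (nat_lit 10) (.e (nat_lit 434275) (nat_lit 39) (.e (nat_lit 663574) (nat_lit 9) (.e (nat_lit 2472) (nat_lit 157) .nil)))))))) (.g (nat_lit 1) (.e (nat_lit 92114) (nat_lit 0) .nil) .nil)))))) 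
(.nd (nat_lit 7) (.nd (nat_lit 8) (.nd (nat_lit 9) 
(.lf (nat_lit 472154) (.g (nat_lit 3020) (.e (nat_lit 3613) (nat_lit 226) (.e (nat_lit 770072) (nat_lit 8) (.e (nat_lit 65586) (nat_lit 7) (.e (nat_lit 319531) (nat_lit 16) (.e (nat_lit 286748) (nat_lit 9) (.e (nat_lit 336295) (nat_lit 15) (.e (nat_lit 3757) (nat_lit 229) (.e (nat_lit 794648) (nat_lit 20) .nil)))))))) (.g (nat_lit 1) (.e (nat_lit 90282) (nat_lit 0) .nil) .nil))) 
(.lf (nat_lit 472666) (.g (nat_lit 3426) (.e (nat_lit 3748) (nat_lit 228) (.e (nat_lit 786470) (nat_lit 27) (.e (nat_lit 336226) (nat_lit 14) (.e (nat_lit 401437) (nat_lit 9) (.e (nat_lit 426540) (nat_lit 29) (.e (nat_lit 352262) (nat_lit 0) .nil)))))) (.g (nat_lit 1) (.e (nat_lit 91105) (nat_lit 0) .nil) .nil)))) (.nd (nat_lit 9) 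
(.lf (nat_lit 472410) (.g (nat_lit 1892) (.e (nat_lit 3632) (nat_lit 227) (.e (nat_lit 778324) (nat_lit 5) (.e (nat_lit 73781) (nat_lit 32) (.e (nat_lit 3090) (nat_lit 191) (.e (nat_lit 483381) (nat_lit 23) (.e (nat_lit 336270) (nat_lit 15) .nil)))))) (.g (nat_lit 1) (.e (nat_lit 90553) (nat_lit 0) .nil) .nil))) 
(.lf (nat_lit 472922) (.g (nat_lit 2277) (.e (nat_lit 3469) (nat_lit 217) (.e (nat_lit 696344) (nat_lit 8) (.e (nat_lit 172078) (nat_lit 7) (.e (nat_lit 409648) (nat_lit 18) (.e (nat_lit 303137) (nat_lit 10) (.e (nat_lit 434275) (nat_lit 39) (.e (nat_lit 663574) (nat_lit 9) (.e (nat_lit 2472) (nat_lit 157) .nil)))))))) (.g (nat_lit 1) (.e (nat_lit 92050) (nat_lit 0) .nil) .nil))))) 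
(.nd (nat_lit 8) (.nd (nat_lit 9) 
(.lf (nat_lit 472282) (.g (nat_lit 2270) (.e (nat_lit 3631) (nat_lit 227) (.e (nat_lit 778318) (nat_lit 3) (.e (nat_lit 57476) (nat_lit 28) (.e (nat_lit 557108) (nat_lit 15) (.e (nat_lit 188452) (nat_lit 23) (.e (nat_lit 204855) (nat_lit 26) (.e (nat_lit 336291) (nat_lit 15) .nil))))))) (.g (nat_lit 1) (.e (nat_lit 90421) (nat_lit 0) .nil) .nil))) 
(.lf (nat_lit 472794) (.g (nat_lit 2239) (.e (nat_lit 3468) (nat_lit 217) (.e (nat_lit 696343) (nat_lit 8) (.e (nat_lit 172106) (nat_lit 10) (.e (nat_lit 434209) (nat_lit 18) (.e (nat_lit 6271) (nat_lit 337) .nil))))) (.g (nat_lit 0) (.e (nat_lit 91624) (nat_lit 0) .nil) .nil)))) (.nd (nat_lit 9) 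
(.lf (nat_lit 472538) (.g (nat_lit 2807) (.e (nat_lit 3714) (nat_lit 227) (.e (nat_lit 778316) (nat_lit 3) (.e (nat_lit 57477) (nat_lit 28) (.e (nat_lit 557108) (nat_lit 15) (.e (nat_lit 188452) (nat_lit 23) (.e (nat_lit 204855) (nat_lit 26) (.e (nat_lit 336290) (nat_lit 15) .nil))))))) (.g (nat_lit 1) (.e (nat_lit 90735) (nat_lit 0) .nil) .nil))) 
(.lf (nat_lit 473050) (.g (nat_lit 3801) (.e (nat_lit 3469) (nat_lit 217) (.e (nat_lit 696344) (nat_lit 8) (.e (nat_lit 172106) (nat_lit 10) (.e (nat_lit 434209) (nat_lit 18) (.e (nat_lit 6427) (nat_lit 342) (.e (nat_lit 229412) (nat_lit 14) (.e (nat_lit 442412) (nat_lit 20) .nil))))))) (.g (nat_lit 1) (.e (nat_lit 92182) (nat_lit 0) .nil) .nil))))))) 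
(.nd (nat_lit 6) (.nd (nat_lit 7) (.nd (nat_lit 8) (.nd (nat_lit 9) 
(.lf (nat_lit 472122) (.g (nat_lit 286) (.e (nat_lit 3605) (nat_lit 225) (.e (nat_lit 761906) (nat_lit 16) (.e (nat_lit 172115) (nat_lit 10) .nil))) (.g (nat_lit 0) (.e (nat_lit 90043) (nat_lit 0) .nil) .nil))) 
(.lf (nat_lit 472634) (.g (nat_lit 594) (.e (nat_lit 3746) (nat_lit 228) (.e (nat_lit 786483) (nat_lit 30) (.e (nat_lit 360483) (nat_lit 15) .nil))) (.g (nat_lit 0) (.e (nat_lit 91069) (nat_lit 0) .nil) .nil)))) (.nd (nat_lit 9) 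
(.lf (nat_lit 472378) (.g (nat_lit 2130) (.e (nat_lit 3632) (nat_lit 227) (.e (nat_lit 778323) (nat_lit 5) (.e (nat_lit 73781) (nat_lit 32) (.e (nat_lit 3090) (nat_lit 191) (.e (nat_lit 483386) (nat_lit 23) (.e (nat_lit 336291) (nat_lit 15) .nil)))))) (.g (nat_lit 1) (.e (nat_lit 90520) (nat_lit 0) .nil) .nil))) 
(.lf (nat_lit 472890) (.g (nat_lit 3406) (.e (nat_lit 3468) (nat_lit 217) (.e (nat_lit 696344) (nat_lit 8) (.e (nat_lit 172113) (nat_lit 10) (.e (nat_lit 434289) (nat_lit 43) (.e (nat_lit 696346) (nat_lit 10) (.e (nat_lit 188434) (nat_lit 20) .nil)))))) (.g (nat_lit 1) (.e (nat_lit 91803) (nat_lit 0) .nil) .nil))))) (.nd (nat_lit 8) (.nd (nat_lit 9) 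
(.lf (nat_lit 472250) (.g (nat_lit 842) (.e (nat_lit 3630) (nat_lit 227) (.e (nat_lit 778326) (nat_lit 6) (.e (nat_lit 81921) (nat_lit 0) (.e (nat_lit 3715) (nat_lit 227) (.e (nat_lit 778325) (nat_lit 6) (.e (nat_lit 81922) (nat_lit 0) .nil)))))) (.g (nat_lit 1) (.e (nat_lit 90389) (nat_lit 0) .nil) .nil))) 
(.lf (nat_lit 472762) (.g (nat_lit 5767) (.e (nat_lit 3464) (nat_lit 217) (.e (nat_lit 696344) (nat_lit 8) (.e (nat_lit 172125) (nat_lit 14) (.e (nat_lit 491566) (nat_lit 12) (.e (nat_lit 385109) (nat_lit 51) (.e (nat_lit 794683) (nat_lit 25) (.e (nat_lit 221198) (nat_lit 20) .nil))))))) (.g (nat_lit 1) (.e (nat_lit 91498) (nat_lit 0) .nil) .nil)))) (.nd (nat_lit 9) 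
(.lf (nat_lit 472506) (.g (nat_lit 2615) (.e (nat_lit 3711) (nat_lit 227) (.e (nat_lit 786176) (nat_lit 3) (.e (nat_lit 57477) (nat_lit 28) (.e (nat_lit 557108) (nat_lit 15) (.e (nat_lit 188452) (nat_lit 23) (.e (nat_lit 204855) (nat_lit 26) (.e (nat_lit 336290) (nat_lit 15) .nil))))))) (.g (nat_lit 1) (.e (nat_lit 90701) (nat_lit 0) .nil) .nil))) 
(.lf (nat_lit 473018) (.g (nat_lit 1539) (.e (nat_lit 3469) (nat_lit 217) (.e (nat_lit 696344) (nat_lit 8) (.e (nat_lit 172105) (nat_lit 10) (.e (nat_lit 434289) (nat_lit 43) (.e (nat_lit 696346) (nat_lit 10) .nil))))) (.g (nat_lit 0) (.e (nat_lit 92150) (nat_lit 0) .nil) .nil)))))) (.nd (nat_lit 7) (.nd (nat_lit 8) (.nd (nat_lit 9) 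
(.lf (nat_lit 472186) (.g (nat_lit 3962) (.e (nat_lit 3617) (nat_lit 227) (.e (nat_lit 778462) (nat_lit 11) (.e (nat_lit 24608) (nat_lit 3) (.e (nat_lit 98365) (nat_lit 26) (.e (nat_lit 426306) (nat_lit 12) (.e (nat_lit 475179) (nat_lit 24) (.e (nat_lit 516100) (nat_lit 0) .nil))))))) (.g (nat_lit 1) (.e (nat_lit 90317) (nat_lit 0) .nil) .nil))) 
(.lf (nat_lit 472698) (.g (nat_lit 2525) (.e (nat_lit 3771) (nat_lit 229) (.e (nat_lit 794668) (nat_lit 22) (.e (nat_lit 196666) (nat_lit 13) (.e (nat_lit 65569) (nat_lit 3) (.e (nat_lit 98334) (nat_lit 18) (.e (nat_lit 164159) (nat_lit 152) (.e (nat_lit 1016) (nat_lit 81) (.e (nat_lit 1256) (nat_lit 92) (.e (nat_lit 98321) (nat_lit 17) .nil))))))))) (.g (nat_lit 1) (.e (nat_lit 91272) (nat_lit 0) .nil) .nil)))) 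
(.nd (nat_lit 9) 
(.lf (nat_lit 472442) (.g (nat_lit 4818) (.e (nat_lit 3635) (nat_lit 227) (.e (nat_lit 778318) (nat_lit 3) (.e (nat_lit 57476) (nat_lit 28) (.e (nat_lit 557108) (nat_lit 15) (.e (nat_lit 188452) (nat_lit 23) (.e (nat_lit 204852) (nat_lit 26) (.e (nat_lit 336257) (nat_lit 15) .nil))))))) (.g (nat_lit 1) (.e (nat_lit 90589) (nat_lit 0) .nil) .nil))) 
(.lf (nat_lit 472954) (.g (nat_lit 3405) (.e (nat_lit 3469) (nat_lit 217) (.e (nat_lit 696344) (nat_lit 8) (.e (nat_lit 172079) (nat_lit 7) (.e (nat_lit 409645) (nat_lit 18) (.e (nat_lit 303143) (nat_lit 12) (.e (nat_lit 475159) (nat_lit 21) (.e (nat_lit 7936) (nat_lit 369) (.e (nat_lit 163850) (nat_lit 0) .nil)))))))) (.g (nat_lit 1) (.e (nat_lit 92082) (nat_lit 0) .nil) .nil))))) 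
(.nd (nat_lit 8) (.nd (nat_lit 9) 
(.lf (nat_lit 472314) (.g (nat_lit 1853) (.e (nat_lit 3631) (nat_lit 227) (.e (nat_lit 778323) (nat_lit 5) (.e (nat_lit 73782) (nat_lit 32) (.e (nat_lit 3090) (nat_lit 191) (.e (nat_lit 483391) (nat_lit 23) (.e (nat_lit 336300) (nat_lit 15) .nil)))))) (.g (nat_lit 1) (.e (nat_lit 90454) (nat_lit 0) .nil) .nil))) 
(.lf (nat_lit 472826) (.g (nat_lit 2973) (.e (nat_lit 3468) (nat_lit 217) (.e (nat_lit 696343) (nat_lit 8) (.e (nat_lit 172113) (nat_lit 10) (.e (nat_lit 434289) (nat_lit 43) (.e (nat_lit 696346) (nat_lit 10) (.e (nat_lit 188438) (nat_lit 20) .nil)))))) (.g (nat_lit 1) (.e (nat_lit 91684) (nat_lit 0) .nil) .nil)))) (.nd (nat_lit 9) 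
(.lf (nat_lit 472570) (.g (nat_lit 3113) (.e (nat_lit 3719) (nat_lit 227) (.e (nat_lit 778466) (nat_lit 11) (.e (nat_lit 24604) (nat_lit 2) (.e (nat_lit 90178) (nat_lit 15) (.e (nat_lit 196352) (nat_lit 3) .nil))))) (.g (nat_lit 0) (.e (nat_lit 90768) (nat_lit 0) .nil) .nil))) 
(.lf (nat_lit 473082) (.g (nat_lit 2547) (.e (nat_lit 3469) (nat_lit 217) (.e (nat_lit 696344) (nat_lit 8) (.e (nat_lit 172113) (nat_lit 10) (.e (nat_lit 434208) (nat_lit 18) (.e (nat_lit 6254) (nat_lit 337) (.e (nat_lit 7936) (nat_lit 166) (.e (nat_lit 188435) (nat_lit 20) .nil))))))) (.g (nat_lit 1) (.e (nat_lit 92214) (nat_lit 0) .nil) .nil)))))))))) 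
(.nd (nat_lit 3) (.nd (nat_lit 4) (.nd (nat_lit 5) (.nd (nat_lit 6) (.nd (nat_lit 7) 
(.nd (nat_lit 8) (.nd (nat_lit 9) 
(.lf (nat_lit 472070) (.g (nat_lit 4135) (.e (nat_lit 3409) (nat_lit 212) (.e (nat_lit 655378) (nat_lit 4) (.e (nat_lit 172125) (nat_lit 14) (.e (nat_lit 491571) (nat_lit 13) (.e (nat_lit 393280) (nat_lit 23) (.e (nat_lit 426035) (nat_lit 0) .nil)))))) (.g (nat_lit 1) (.e (nat_lit 88488) (nat_lit 0) .nil) .nil))) 
(.lf (nat_lit 472582) (.g (nat_lit 3616) (.e (nat_lit 3719) (nat_lit 227) (.e (nat_lit 778466) (nat_lit 11) (.e (nat_lit 24608) (nat_lit 3) (.e (nat_lit 98381) (nat_lit 31) .nil)))) (.g (nat_lit 0) (.e (nat_lit 90780) (nat_lit 0) .nil) .nil)))) (.nd (nat_lit 9) 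
(.lf (nat_lit 472326) (.g (nat_lit 3131) (.e (nat_lit 3632) (nat_lit 227) (.e (nat_lit 778317) (nat_lit 3) (.e (nat_lit 57476) (nat_lit 28) (.e (nat_lit 557095) (nat_lit 13) (.e (nat_lit 172115) (nat_lit 10) (.e (nat_lit 434231) (nat_lit 23) (.e (nat_lit 532535) (nat_lit 9) (.e (nat_lit 336282) (nat_lit 15) .nil)))))))) (.g (nat_lit 1) (.e (nat_lit 90467) (nat_lit 0) .nil) .nil))) 
(.lf (nat_lit 472838) (.g (nat_lit 2635) (.e (nat_lit 3468) (nat_lit 217) (.e (nat_lit 696343) (nat_lit 8) (.e (nat_lit 172115) (nat_lit 10) (.e (nat_lit 434289) (nat_lit 43) (.e (nat_lit 696346) (nat_lit 10) (.e (nat_lit 188439) (nat_lit 20) .nil)))))) (.g (nat_lit 1) (.e (nat_lit 91704) (nat_lit 0) .nil) .nil))))) (.nd (nat_lit 8) (.nd (nat_lit 9) 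
(.lf (nat_lit 472198) (.g (nat_lit 1935) (.e (nat_lit 3619) (nat_lit 227) (.e (nat_lit 778318) (nat_lit 3) (.e (nat_lit 57476) (nat_lit 28) (.e (nat_lit 557107) (nat_lit 15) (.e (nat_lit 188452) (nat_lit 23) .nil))))) (.g (nat_lit 0) (.e (nat_lit 90335) (nat_lit 0) .nil) .nil))) 
(.lf (nat_lit 472710) (.g (nat_lit 1995) (.e (nat_lit 3771) (nat_lit 229) (.e (nat_lit 794673) (nat_lit 23) (.e (nat_lit 204829) (nat_lit 18) (.e (nat_lit 57927) (nat_lit 282) (.e (nat_lit 163875) (nat_lit 3) .nil))))) (.g (nat_lit 0) (.e (nat_lit 91292) (nat_lit 0) .nil) .nil)))) (.nd (nat_lit 9) 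
(.lf (nat_lit 472454) (.g (nat_lit 1564) (.e (nat_lit 3650) (nat_lit 227) (.e (nat_lit 778462) (nat_lit 11) (.e (nat_lit 24604) (nat_lit 2) (.e (nat_lit 90185) (nat_lit 17) (.e (nat_lit 237601) (nat_lit 9) .nil))))) (.g (nat_lit 0) (.e (nat_lit 90601) (nat_lit 0) .nil) .nil))) 
(.lf (nat_lit 472966) (.g (nat_lit 4074) (.e (nat_lit 3469) (nat_lit 217) (.e (nat_lit 696344) (nat_lit 8) (.e (nat_lit 172079) (nat_lit 7) (.e (nat_lit 409649) (nat_lit 18) (.e (nat_lit 303140) (nat_lit 10) (.e (nat_lit 434275) (nat_lit 39) (.e (nat_lit 663574) (nat_lit 9) (.e (nat_lit 2466) (nat_lit 157) .nil)))))))) (.g (nat_lit 1) (.e (nat_lit 92094) (nat_lit 0) .nil) .nil)))))) 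
(.nd (nat_lit 7) (.nd (nat_lit 8) (.nd (nat_lit 9) 
(.lf (nat_lit 472134) (.g (nat_lit 1871) (.e (nat_lit 3607) (nat_lit 226) (.e (nat_lit 770072) (nat_lit 8) (.e (nat_lit 65571) (nat_lit 3) (.e (nat_lit 98381) (nat_lit 31) .nil)))) (.g (nat_lit 0) (.e (nat_lit 90260) (nat_lit 0) .nil) .nil))) 
(.lf (nat_lit 472646) (.g (nat_lit 817) (.e (nat_lit 3747) (nat_lit 228) (.e (nat_lit 786473) (nat_lit 27) (.e (nat_lit 336118) (nat_lit 9) (.e (nat_lit 336329) (nat_lit 19) (.e (nat_lit 220928) (nat_lit 6) .nil))))) (.g (nat_lit 0) (.e (nat_lit 91082) (nat_lit 0) .nil) .nil)))) (.nd (nat_lit 9) 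
(.lf (nat_lit 472390) (.g (nat_lit 739) (.e (nat_lit 3632) (nat_lit 227) (.e (nat_lit 778323) (nat_lit 5) (.e (nat_lit 73782) (nat_lit 32) (.e (nat_lit 3090) (nat_lit 191) .nil)))) (.g (nat_lit 0) (.e (nat_lit 90532) (nat_lit 0) .nil) .nil))) 
(.lf (nat_lit 472902) (.g (nat_lit 2075) (.e (nat_lit 3468) (nat_lit 217) (.e (nat_lit 696344) (nat_lit 8) (.e (nat_lit 172115) (nat_lit 10) (.e (nat_lit 434289) (nat_lit 43) (.e (nat_lit 696346) (nat_lit 10) (.e (nat_lit 188441) (nat_lit 20) .nil)))))) (.g (nat_lit 1) (.e (nat_lit 91823) (nat_lit 0) .nil) .nil))))) (.nd (nat_lit 8) (.nd (nat_lit 9) 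
(.lf (nat_lit 472262) (.g (nat_lit 2252) (.e (nat_lit 3631) (nat_lit 227) (.e (nat_lit 778317) (nat_lit 3) (.e (nat_lit 57476) (nat_lit 28) (.e (nat_lit 557095) (nat_lit 13) (.e (nat_lit 172115) (nat_lit 10) (.e (nat_lit 434231) (nat_lit 23) (.e (nat_lit 532535) (nat_lit 9) (.e (nat_lit 336295) (nat_lit 15) .nil)))))))) (.g (nat_lit 1) (.e (nat_lit 90401) (nat_lit 0) .nil) .nil))) 
(.lf (nat_lit 472774) (.g (nat_lit 1644) (.e (nat_lit 3467) (nat_lit 217) (.e (nat_lit 696343) (nat_lit 8) (.e (nat_lit 172115) (nat_lit 10) (.e (nat_lit 434209) (nat_lit 18) (.e (nat_lit 6273) (nat_lit 337) .nil))))) (.g (nat_lit 0) (.e (nat_lit 91535) (nat_lit 0) .nil) .nil)))) (.nd (nat_lit 9) 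
(.lf (nat_lit 472518) (.g (nat_lit 1592) (.e (nat_lit 3711) (nat_lit 227) (.e (nat_lit 786176) (nat_lit 5) (.e (nat_lit 73781) (nat_lit 32) (.e (nat_lit 2857) (nat_lit 184) (.e (nat_lit 426542) (nat_lit 29) (.e (nat_lit 352264) (nat_lit 0) .nil)))))) (.g (nat_lit 1) (.e (nat_lit 90713) (nat_lit 0) .nil) .nil))) 
(.lf (nat_lit 473030) (.g (nat_lit 3036) (.e (nat_lit 3469) (nat_lit 217) (.e (nat_lit 696344) (nat_lit 8) (.e (nat_lit 172106) (nat_lit 10) (.e (nat_lit 434202) (nat_lit 18) (.e (nat_lit 6420) (nat_lit 341) (.e (nat_lit 163920) (nat_lit 14) (.e (nat_lit 442412) (nat_lit 20) .nil))))))) (.g (nat_lit 1) (.e (nat_lit 92162) (nat_lit 0) .nil) .nil))))))) 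
(.nd (nat_lit 6) (.nd (nat_lit 7) (.nd (nat_lit 8) (.nd (nat_lit 9) 
(.lf (nat_lit 472102) (.g (nat_lit 1260) (.e (nat_lit 3600) (nat_lit 225) (.e (nat_lit 761912) (nat_lit 18) (.e (nat_lit 196352) (nat_lit 0) (.e (nat_lit 2030) (nat_lit 140) (.e (nat_lit 688184) (nat_lit 18) (.e (nat_lit 89856) (nat_lit 0) .nil)))))) (.g (nat_lit 1) (.e (nat_lit 88628) (nat_lit 0) .nil) .nil))) 
(.lf (nat_lit 472614) (.g (nat_lit 2779) (.e (nat_lit 3746) (nat_lit 228) (.e (nat_lit 786480) (nat_lit 29) (.e (nat_lit 352316) (nat_lit 24) (.e (nat_lit 123198) (nat_lit 266) (.e (nat_lit 57436) (nat_lit 17) (.e (nat_lit 376835) (nat_lit 0) .nil)))))) (.g (nat_lit 1) (.e (nat_lit 91048) (nat_lit 0) .nil) .nil)))) (.nd (nat_lit 9) 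
(.lf (nat_lit 472358) (.g (nat_lit 2221) (.e (nat_lit 3632) (nat_lit 227) (.e (nat_lit 778318) (nat_lit 3) (.e (nat_lit 57476) (nat_lit 28) (.e (nat_lit 557108) (nat_lit 15) (.e (nat_lit 188452) (nat_lit 23) (.e (nat_lit 204855) (nat_lit 26) (.e (nat_lit 336291) (nat_lit 15) .nil))))))) (.g (nat_lit 1) (.e (nat_lit 90499) (nat_lit 0) .nil) .nil))) 
(.lf (nat_lit 472870) (.g (nat_lit 1779) (.e (nat_lit 3468) (nat_lit 217) (.e (nat_lit 696344) (nat_lit 8) (.e (nat_lit 172106) (nat_lit 10) (.e (nat_lit 434288) (nat_lit 43) (.e (nat_lit 696346) (nat_lit 10) .nil))))) (.g (nat_lit 0) (.e (nat_lit 91754) (nat_lit 0) .nil) .nil))))) (.nd (nat_lit 8) (.nd (nat_lit 9) 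
(.lf (nat_lit 472230) (.g (nat_lit 1760) (.e (nat_lit 3629) (nat_lit 227) (.e (nat_lit 778326) (nat_lit 6) (.e (nat_lit 81959) (nat_lit 24) (.e (nat_lit 123198) (nat_lit 266) (.e (nat_lit 57436) (nat_lit 17) (.e (nat_lit 376835) (nat_lit 0) .nil)))))) (.g (nat_lit 1) (.e (nat_lit 90368) (nat_lit 0) .nil) .nil))) 
(.lf (nat_lit 472742) (.g (nat_lit 1763) (.e (nat_lit 3464) (nat_lit 217) (.e (nat_lit 696343) (nat_lit 8) (.e (nat_lit 172113) (nat_lit 10) (.e (nat_lit 434208) (nat_lit 18) (.e (nat_lit 6416) (nat_lit 341) (.e (nat_lit 163933) (nat_lit 17) (.e (nat_lit 466967) (nat_lit 20) .nil))))))) (.g (nat_lit 1) (.e (nat_lit 91478) (nat_lit 0) .nil) .nil)))) (.nd (nat_lit 9) 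
(.lf (nat_lit 472486) (.g (nat_lit 1775) (.e (nat_lit 3686) (nat_lit 227) (.e (nat_lit 778465) (nat_lit 11) (.e (nat_lit 24608) (nat_lit 3) (.e (nat_lit 98365) (nat_lit 26) (.e (nat_lit 426188) (nat_lit 9) .nil))))) (.g (nat_lit 0) (.e (nat_lit 90671) (nat_lit 0) .nil) .nil))) 
(.lf (nat_lit 472998) (.g (nat_lit 3991) (.e (nat_lit 3469) (nat_lit 217) (.e (nat_lit 696344) (nat_lit 8) (.e (nat_lit 172082) (nat_lit 7) (.e (nat_lit 409646) (nat_lit 18) (.e (nat_lit 303140) (nat_lit 10) (.e (nat_lit 434275) (nat_lit 39) (.e (nat_lit 663574) (nat_lit 9) (.e (nat_lit 2457) (nat_lit 157) .nil)))))))) (.g (nat_lit 1) (.e (nat_lit 92126) (nat_lit 0) .nil) .nil)))))) 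
(.nd (nat_lit 7) (.nd (nat_lit 8) (.nd (nat_lit 9) 
(.lf (nat_lit 472166) (.g (nat_lit 2247) (.e (nat_lit 3617) (nat_lit 227) (.e (nat_lit 778318) (nat_lit 3) (.e (nat_lit 57476) (nat_lit 28) (.e (nat_lit 557107) (nat_lit 15) (.e (nat_lit 188450) (nat_lit 23) (.e (nat_lit 204852) (nat_lit 26) (.e (nat_lit 336240) (nat_lit 15) .nil))))))) (.g (nat_lit 1) (.e (nat_lit 90296) (nat_lit 0) .nil) .nil))) 
(.lf (nat_lit 472678) (.g (nat_lit 1679) (.e (nat_lit 3748) (nat_lit 228) (.e (nat_lit 786478) (nat_lit 29) (.e (nat_lit 352318) (nat_lit 24) (.e (nat_lit 123198) (nat_lit 266) (.e (nat_lit 57435) (nat_lit 17) (.e (nat_lit 376835) (nat_lit 0) .nil)))))) (.g (nat_lit 1) (.e (nat_lit 91148) (nat_lit 0) .nil) .nil)))) (.nd (nat_lit 9) 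
(.lf (nat_lit 472422) (.g (nat_lit 2438) (.e (nat_lit 3632) (nat_lit 227) (.e (nat_lit 778326) (nat_lit 6) (.e (nat_lit 81959) (nat_lit 24) (.e (nat_lit 123195) (nat_lit 266) (.e (nat_lit 57350) (nat_lit 0) (.e (nat_lit 7936) (nat_lit 347) (.e (nat_lit 65637) (nat_lit 15) .nil))))))) (.g (nat_lit 1) (.e (nat_lit 90568) (nat_lit 0) .nil) .nil))) 
(.lf (nat_lit 472934) (.g (nat_lit 2308) (.e (nat_lit 3469) (nat_lit 217) (.e (nat_lit 696344) (nat_lit 8) (.e (nat_lit 172079) (nat_lit 7) (.e (nat_lit 409645) (nat_lit 18) (.e (nat_lit 303135) (nat_lit 10) (.e (nat_lit 434276) (nat_lit 39) (.e (nat_lit 663580) (nat_lit 9) (.e (nat_lit 2416) (nat_lit 157) .nil)))))))) (.g (nat_lit 1) (.e (nat_lit 92062) (nat_lit 0) .nil) .nil))))) 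
(.nd (nat_lit 8) (.nd (nat_lit 9) 
(.lf (nat_lit 472294) (.g (nat_lit 2216) (.e (nat_lit 3631) (nat_lit 227) (.e (nat_lit 778323) (nat_lit 5) (.e (nat_lit 73781) (nat_lit 32) (.e (nat_lit 3090) (nat_lit 191) (.e (nat_lit 483386) (nat_lit 23) (.e (nat_lit 336267) (nat_lit 15) .nil)))))) (.g (nat_lit 1) (.e (nat_lit 90434) (nat_lit 0) .nil) .nil))) 
(.lf (nat_lit 472806) (.g (nat_lit 1813) (.e (nat_lit 3468) (nat_lit 217) (.e (nat_lit 696343) (nat_lit 8) (.e (nat_lit 172106) (nat_lit 10) (.e (nat_lit 434288) (nat_lit 43) (.e (nat_lit 696346) (nat_lit 10) (.e (nat_lit 188434) (nat_lit 20) .nil)))))) (.g (nat_lit 1) (.e (nat_lit 91640) (nat_lit 0) .nil) .nil)))) (.nd (nat_lit 9) 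
(.lf (nat_lit 472550) (.g (nat_lit 4124) (.e (nat_lit 3714) (nat_lit 227) (.e (nat_lit 786176) (nat_lit 3) (.e (nat_lit 57479) (nat_lit 28) (.e (nat_lit 557100) (nat_lit 13) (.e (nat_lit 172106) (nat_lit 10) (.e (nat_lit 434231) (nat_lit 23) (.e (nat_lit 532535) (nat_lit 9) (.e (nat_lit 336290) (nat_lit 15) .nil)))))))) (.g (nat_lit 1) (.e (nat_lit 90747) (nat_lit 0) .nil) .nil))) 
(.lf (nat_lit 473062) (.g (nat_lit 706) (.e (nat_lit 3469) (nat_lit 217) (.e (nat_lit 696344) (nat_lit 8) (.e (nat_lit 172112) (nat_lit 10) (.e (nat_lit 434285) (nat_lit 42) .nil)))) (.g (nat_lit 0) (.e (nat_lit 92194) (nat_lit 0) .nil) .nil)))))))) (.nd (nat_lit 5) (.nd (nat_lit 6) (.nd (nat_lit 7) (.nd (nat_lit 8) (.nd (nat_lit 9) 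
(.lf (nat_lit 472086) (.g (nat_lit 1543) (.e (nat_lit 3409) (nat_lit 212) (.e (nat_lit 655380) (nat_lit 6) (.e (nat_lit 188420) (nat_lit 0) (.e (nat_lit 2059) (nat_lit 142) (.e (nat_lit 704598) (nat_lit 6) (.e (nat_lit 188435) (nat_lit 20) .nil)))))) (.g (nat_lit 1) (.e (nat_lit 88506) (nat_lit 0) .nil) .nil))) 
(.lf (nat_lit 472598) (.g (nat_lit 3630) (.e (nat_lit 3721) (nat_lit 227) (.e (nat_lit 778482) (nat_lit 12) (.e (nat_lit 163978) (nat_lit 30) (.e (nat_lit 573475) (nat_lit 12) (.e (nat_lit 57543) (nat_lit 47) .nil))))) (.g (nat_lit 0) (.e (nat_lit 90806) (nat_lit 0) .nil) .nil)))) (.nd (nat_lit 9) 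
(.lf (nat_lit 472342) (.g (nat_lit 4630) (.e (nat_lit 3632) (nat_lit 227) (.e (nat_lit 778318) (nat_lit 3) (.e (nat_lit 57476) (nat_lit 28) (.e (nat_lit 557100) (nat_lit 13) (.e (nat_lit 172106) (nat_lit 10) (.e (nat_lit 434231) (nat_lit 23) (.e (nat_lit 532535) (nat_lit 9) (.e (nat_lit 336295) (nat_lit 15) .nil)))))))) (.g (nat_lit 1) (.e (nat_lit 90483) (nat_lit 0) .nil) .nil))) 
(.lf (nat_lit 472854) (.g (nat_lit 2291) (.e (nat_lit 3468) (nat_lit 217) (.e (nat_lit 696344) (nat_lit 8) (.e (nat_lit 172082) (nat_lit 7) (.e (nat_lit 409649) (nat_lit 18) (.e (nat_lit 303140) (nat_lit 10) (.e (nat_lit 434275) (nat_lit 39) (.e (nat_lit 663574) (nat_lit 9) (.e (nat_lit 2472) (nat_lit 157) .nil)))))))) (.g (nat_lit 1) (.e (nat_lit 91722) (nat_lit 0) .nil) .nil))))) 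
(.nd (nat_lit 8) (.nd (nat_lit 9) 
(.lf (nat_lit 472214) (.g (nat_lit 2674) (.e (nat_lit 3629) (nat_lit 227) (.e (nat_lit 778318) (nat_lit 3) (.e (nat_lit 57476) (nat_lit 28) (.e (nat_lit 557107) (nat_lit 15) (.e (nat_lit 188450) (nat_lit 23) (.e (nat_lit 204852) (nat_lit 26) (.e (nat_lit 336260) (nat_lit 15) .nil))))))) (.g (nat_lit 1) (.e (nat_lit 90351) (nat_lit 0) .nil) .nil))) 
(.lf (nat_lit 472726) (.g (nat_lit 4748) (.e (nat_lit 3459) (nat_lit 216) (.e (nat_lit 688139) (nat_lit 5) (.e (nat_lit 2887) (nat_lit 184) (.e (nat_lit 426173) (nat_lit 7) (.e (nat_lit 409649) (nat_lit 18) (.e (nat_lit 303140) (nat_lit 10) (.e (nat_lit 434275) (nat_lit 39) (.e (nat_lit 663580) (nat_lit 9) (.e (nat_lit 2416) (nat_lit 157) .nil))))))))) (.g (nat_lit 1) (.e (nat_lit 91411) (nat_lit 0) .nil) .nil)))) 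
(.nd (nat_lit 9) 
(.lf (nat_lit 472470) (.g (nat_lit 2282) (.e (nat_lit 3661) (nat_lit 227) (.e (nat_lit 778462) (nat_lit 11) (.e (nat_lit 24608) (nat_lit 3) (.e (nat_lit 98365) (nat_lit 26) (.e (nat_lit 426188) (nat_lit 9) (.e (nat_lit 426436) (nat_lit 18) (.e (nat_lit 98321) (nat_lit 17) .nil))))))) (.g (nat_lit 1) (.e (nat_lit 90624) (nat_lit 0) .nil) .nil))) 
(.lf (nat_lit 472982) (.g (nat_lit 4078) (.e (nat_lit 3469) (nat_lit 217) (.e (nat_lit 696344) (nat_lit 8) (.e (nat_lit 172081) (nat_lit 7) (.e (nat_lit 409649) (nat_lit 18) (.e (nat_lit 303140) (nat_lit 10) (.e (nat_lit 434275) (nat_lit 39) (.e (nat_lit 663574) (nat_lit 9) (.e (nat_lit 2473) (nat_lit 157) .nil)))))))) (.g (nat_lit 1) (.e (nat_lit 92110) (nat_lit 0) .nil) .nil)))))) 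
(.nd (nat_lit 7) (.nd (nat_lit 8) (.nd (nat_lit 9) 
(.lf (nat_lit 472150) (.g (nat_lit 2935) (.e (nat_lit 3613) (nat_lit 226) (.e (nat_lit 770072) (nat_lit 8) (.e (nat_lit 65583) (nat_lit 7) (.e (nat_lit 319530) (nat_lit 16) (.e (nat_lit 286759) (nat_lit 12) (.e (nat_lit 385110) (nat_lit 52) (.e (nat_lit 802829) (nat_lit 20) .nil))))))) (.g (nat_lit 1) (.e (nat_lit 90278) (nat_lit 0) .nil) .nil))) 
(.lf (nat_lit 472662) (.g (nat_lit 2187) (.e (nat_lit 3747) (nat_lit 228) (.e (nat_lit 786480) (nat_lit 29) (.e (nat_lit 352262) (nat_lit 0) (.e (nat_lit 3632) (nat_lit 227) (.e (nat_lit 778326) (nat_lit 6) (.e (nat_lit 81922) (nat_lit 0) .nil)))))) (.g (nat_lit 1) (.e (nat_lit 91100) (nat_lit 0) .nil) .nil)))) (.nd (nat_lit 9) 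
(.lf (nat_lit 472406) (.g (nat_lit 3419) (.e (nat_lit 3632) (nat_lit 227) (.e (nat_lit 778324) (nat_lit 5) (.e (nat_lit 73781) (nat_lit 32) (.e (nat_lit 3090) (nat_lit 191) (.e (nat_lit 483380) (nat_lit 23) (.e (nat_lit 336264) (nat_lit 15) .nil)))))) (.g (nat_lit 1) (.e (nat_lit 90549) (nat_lit 0) .nil) .nil))) 
(.lf (nat_lit 472918) (.g (nat_lit 2278) (.e (nat_lit 3469) (nat_lit 217) (.e (nat_lit 696344) (nat_lit 8) (.e (nat_lit 172077) (nat_lit 7) (.e (nat_lit 409649) (nat_lit 18) (.e (nat_lit 303140) (nat_lit 10) (.e (nat_lit 434275) (nat_lit 39) (.e (nat_lit 663580) (nat_lit 9) (.e (nat_lit 2416) (nat_lit 157) .nil)))))))) (.g (nat_lit 1) (.e (nat_lit 92046) (nat_lit 0) .nil) .nil))))) 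
(.nd (nat_lit 8) (.nd (nat_lit 9) 
(.lf (nat_lit 472278) (.g (nat_lit 2371) (.e (nat_lit 3631) (nat_lit 227) (.e (nat_lit 778318) (nat_lit 3) (.e (nat_lit 57476) (nat_lit 28) (.e (nat_lit 557107) (nat_lit 15) (.e (nat_lit 188450) (nat_lit 23) (.e (nat_lit 204852) (nat_lit 26) (.e (nat_lit 336297) (nat_lit 15) .nil))))))) (.g (nat_lit 1) (.e (nat_lit 90417) (nat_lit 0) .nil) .nil))) 
(.lf (nat_lit 472790) (.g (nat_lit 1121) (.e (nat_lit 3467) (nat_lit 217) (.e (nat_lit 696344) (nat_lit 8) (.e (nat_lit 172113) (nat_lit 10) (.e (nat_lit 434203) (nat_lit 18) .nil)))) (.g (nat_lit 0) (.e (nat_lit 91562) (nat_lit 0) .nil) .nil)))) (.nd (nat_lit 9) 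
(.lf (nat_lit 472534) (.g (nat_lit 3306) (.e (nat_lit 3714) (nat_lit 227) (.e (nat_lit 778316) (nat_lit 3) (.e (nat_lit 57477) (nat_lit 28) (.e (nat_lit 557097) (nat_lit 13) (.e (nat_lit 172115) (nat_lit 10) (.e (nat_lit 434231) (nat_lit 23) (.e (nat_lit 532535) (nat_lit 9) (.e (nat_lit 336290) (nat_lit 15) .nil)))))))) (.g (nat_lit 1) (.e (nat_lit 90731) (nat_lit 0) .nil) .nil))) 
(.lf (nat_lit 473046) (.g (nat_lit 2058) (.e (nat_lit 3469) (nat_lit 217) (.e (nat_lit 696344) (nat_lit 8) (.e (nat_lit 172106) (nat_lit 10) (.e (nat_lit 434209) (nat_lit 18) (.e (nat_lit 6426) (nat_lit 342) (.e (nat_lit 229412) (nat_lit 14) (.e (nat_lit 442408) (nat_lit 20) .nil))))))) (.g (nat_lit 1) (.e (nat_lit 92178) (nat_lit 0) .nil) .nil))))))) 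
(.nd (nat_lit 6) (.nd (nat_lit 7) (.nd (nat_lit 8) (.nd (nat_lit 9) 
(.lf (nat_lit 472118) (.g (nat_lit 2153) (.e (nat_lit 3605) (nat_lit 225) (.e (nat_lit 761905) (nat_lit 16) (.e (nat_lit 172106) (nat_lit 10) (.e (nat_lit 434209) (nat_lit 18) (.e (nat_lit 5065) (nat_lit 292) .nil))))) (.g (nat_lit 0) (.e (nat_lit 89858) (nat_lit 0) .nil) .nil))) 
(.lf (nat_lit 472630) (.g (nat_lit 2037) (.e (nat_lit 3746) (nat_lit 228) (.e (nat_lit 786483) (nat_lit 30) (.e (nat_lit 360457) (nat_lit 0) (.e (nat_lit 5948) (nat_lit 322) (.e (nat_lit 57436) (nat_lit 17) (.e (nat_lit 376835) (nat_lit 0) .nil)))))) (.g (nat_lit 1) (.e (nat_lit 91064) (nat_lit 0) .nil) .nil)))) (.nd (nat_lit 9) 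
(.lf (nat_lit 472374) (.g (nat_lit 3610) (.e (nat_lit 3632) (nat_lit 227) (.e (nat_lit 778323) (nat_lit 5) (.e (nat_lit 73781) (nat_lit 32) (.e (nat_lit 3090) (nat_lit 191) (.e (nat_lit 483380) (nat_lit 23) (.e (nat_lit 336283) (nat_lit 15) .nil)))))) (.g (nat_lit 1) (.e (nat_lit 90516) (nat_lit 0) .nil) .nil))) 
(.lf (nat_lit 472886) (.g (nat_lit 1742) (.e (nat_lit 3468) (nat_lit 217) (.e (nat_lit 696344) (nat_lit 8) (.e (nat_lit 172113) (nat_lit 10) (.e (nat_lit 434208) (nat_lit 18) (.e (nat_lit 6420) (nat_lit 341) .nil))))) (.g (nat_lit 0) (.e (nat_lit 91797) (nat_lit 0) .nil) .nil))))) (.nd (nat_lit 8) (.nd (nat_lit 9) 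
(.lf (nat_lit 472246) (.g (nat_lit 2255) (.e (nat_lit 3630) (nat_lit 227) (.e (nat_lit 778323) (nat_lit 5) (.e (nat_lit 73782) (nat_lit 32) (.e (nat_lit 3090) (nat_lit 191) (.e (nat_lit 483380) (nat_lit 23) (.e (nat_lit 336297) (nat_lit 15) .nil)))))) (.g (nat_lit 1) (.e (nat_lit 90385) (nat_lit 0) .nil) .nil))) 
(.lf (nat_lit 472758) (.g (nat_lit 1688) (.e (nat_lit 3464) (nat_lit 217) (.e (nat_lit 696344) (nat_lit 8) (.e (nat_lit 172113) (nat_lit 10) (.e (nat_lit 434208) (nat_lit 18) (.e (nat_lit 6416) (nat_lit 341) .nil))))) (.g (nat_lit 0) (.e (nat_lit 91494) (nat_lit 0) .nil) .nil)))) (.nd (nat_lit 9) 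
(.lf (nat_lit 472502) (.g (nat_lit 3123) (.e (nat_lit 3711) (nat_lit 227) (.e (nat_lit 786176) (nat_lit 3) (.e (nat_lit 57477) (nat_lit 28) (.e (nat_lit 557097) (nat_lit 13) (.e (nat_lit 172115) (nat_lit 10) (.e (nat_lit 434231) (nat_lit 23) (.e (nat_lit 532535) (nat_lit 9) (.e (nat_lit 336290) (nat_lit 15) .nil)))))))) (.g (nat_lit 1) (.e (nat_lit 90697) (nat_lit 0) .nil) .nil))) 
(.lf (nat_lit 473014) (.g (nat_lit 4128) (.e (nat_lit 3469) (nat_lit 217) (.e (nat_lit 696344) (nat_lit 8) (.e (nat_lit 172082) (nat_lit 7) (.e (nat_lit 409649) (nat_lit 18) (.e (nat_lit 303140) (nat_lit 10) (.e (nat_lit 434275) (nat_lit 39) (.e (nat_lit 663574) (nat_lit 9) (.e (nat_lit 2473) (nat_lit 157) .nil)))))))) (.g (nat_lit 1) (.e (nat_lit 92142) (nat_lit 0) .nil) .nil)))))) 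
(.nd (nat_lit 7) (.nd (nat_lit 8) (.nd (nat_lit 9) 
(.lf (nat_lit 472182) (.g (nat_lit 3198) (.e (nat_lit 3617) (nat_lit 227) (.e (nat_lit 778462) (nat_lit 11) (.e (nat_lit 24608) (nat_lit 3) (.e (nat_lit 98365) (nat_lit 26) (.e (nat_lit 426188) (nat_lit 9) (.e (nat_lit 426436) (nat_lit 18) (.e (nat_lit 98321) (nat_lit 17) .nil))))))) (.g (nat_lit 1) (.e (nat_lit 90313) (nat_lit 0) .nil) .nil))) 
(.lf (nat_lit 472694) (.g (nat_lit 647) (.e (nat_lit 3753) (nat_lit 228) (.e (nat_lit 786483) (nat_lit 30) (.e (nat_lit 360454) (nat_lit 0) .nil))) (.g (nat_lit 0) (.e (nat_lit 91195) (nat_lit 0) .nil) .nil)))) (.nd (nat_lit 9) 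
(.lf (nat_lit 472438) (.g (nat_lit 1239) (.e (nat_lit 3634) (nat_lit 227) (.e (nat_lit 778470) (nat_lit 11) (.e (nat_lit 24625) (nat_lit 9) (.e (nat_lit 336443) (nat_lit 32) .nil)))) (.g (nat_lit 0) (.e (nat_lit 90585) (nat_lit 0) .nil) .nil))) 
(.lf (nat_lit 472950) (.g (nat_lit 2931) (.e (nat_lit 3469) (nat_lit 217) (.e (nat_lit 696344) (nat_lit 8) (.e (nat_lit 172079) (nat_lit 7) (.e (nat_lit 409645) (nat_lit 18) (.e (nat_lit 303140) (nat_lit 10) (.e (nat_lit 434275) (nat_lit 39) (.e (nat_lit 663574) (nat_lit 9) (.e (nat_lit 2464) (nat_lit 157) .nil)))))))) (.g (nat_lit 1) (.e (nat_lit 92078) (nat_lit 0) .nil) .nil))))) 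
(.nd (nat_lit 8) (.nd (nat_lit 9) 
(.lf (nat_lit 472310) (.g (nat_lit 1389) (.e (nat_lit 3631) (nat_lit 227) (.e (nat_lit 778323) (nat_lit 5) (.e (nat_lit 73782) (nat_lit 32) (.e (nat_lit 3090) (nat_lit 191) (.e (nat_lit 483381) (nat_lit 23) .nil))))) (.g (nat_lit 0) (.e (nat_lit 90450) (nat_lit 0) .nil) .nil))) 
(.lf (nat_lit 472822) (.g (nat_lit 1778) (.e (nat_lit 3468) (nat_lit 217) (.e (nat_lit 696343) (nat_lit 8) (.e (nat_lit 172113) (nat_lit 10) (.e (nat_lit 434208) (nat_lit 18) (.e (nat_lit 6420) (nat_lit 341) .nil))))) (.g (nat_lit 0) (.e (nat_lit 91678) (nat_lit 0) .nil) .nil)))) (.nd (nat_lit 9) 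
(.lf (nat_lit 472566) (.g (nat_lit 1483) (.e (nat_lit 3719) (nat_lit 227) (.e (nat_lit 778465) (nat_lit 11) (.e (nat_lit 24604) (nat_lit 2) (.e (nat_lit 90185) (nat_lit 17) .nil)))) (.g (nat_lit 0) (.e (nat_lit 90764) (nat_lit 0) .nil) .nil))) 
(.lf (nat_lit 473078) (.g (nat_lit 924) (.e (nat_lit 3469) (nat_lit 217) (.e (nat_lit 696344) (nat_lit 8) (.e (nat_lit 172113) (nat_lit 10) (.e (nat_lit 434208) (nat_lit 18) .nil)))) (.g (nat_lit 0) (.e (nat_lit 92210) (nat_lit 0) .nil) .nil))))))))) (.nd (nat_lit 4) (.nd (nat_lit 5) (.nd (nat_lit 6) (.nd (nat_lit 7) (.nd (nat_lit 8) (.nd (nat_lit 9) 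
(.lf (nat_lit 472078) (.g (nat_lit 1043) (.e (nat_lit 3409) (nat_lit 212) (.e (nat_lit 655378) (nat_lit 4) (.e (nat_lit 172126) (nat_lit 14) (.e (nat_lit 491571) (nat_lit 13) .nil)))) (.g (nat_lit 0) (.e (nat_lit 88496) (nat_lit 0) .nil) .nil))) 
(.lf (nat_lit 472590) (.g (nat_lit 2365) (.e (nat_lit 3724) (nat_lit 227) (.e (nat_lit 778466) (nat_lit 11) (.e (nat_lit 24617) (nat_lit 7) (.e (nat_lit 319534) (nat_lit 16) .nil)))) (.g (nat_lit 0) (.e (nat_lit 90792) (nat_lit 0) .nil) .nil)))) (.nd (nat_lit 9) 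
(.lf (nat_lit 472334) (.g (nat_lit 3777) (.e (nat_lit 3632) (nat_lit 227) (.e (nat_lit 778318) (nat_lit 3) (.e (nat_lit 57476) (nat_lit 28) (.e (nat_lit 557097) (nat_lit 13) (.e (nat_lit 172097) (nat_lit 9) (.e (nat_lit 426140) (nat_lit 3) (.e (nat_lit 204855) (nat_lit 26) (.e (nat_lit 336282) (nat_lit 15) .nil)))))))) (.g (nat_lit 1) (.e (nat_lit 90475) (nat_lit 0) .nil) .nil))) 
(.lf (nat_lit 472846) (.g (nat_lit 3190) (.e (nat_lit 3468) (nat_lit 217) (.e (nat_lit 696343) (nat_lit 8) (.e (nat_lit 172123) (nat_lit 13) (.e (nat_lit 483413) (nat_lit 27) (.e (nat_lit 401439) (nat_lit 9) (.e (nat_lit 426043) (nat_lit 0) .nil)))))) (.g (nat_lit 1) (.e (nat_lit 91713) (nat_lit 0) .nil) .nil))))) (.nd (nat_lit 8) (.nd (nat_lit 9) 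
(.lf (nat_lit 472206) (.g (nat_lit 1399) (.e (nat_lit 3627) (nat_lit 227) (.e (nat_lit 778323) (nat_lit 5) (.e (nat_lit 73782) (nat_lit 32) (.e (nat_lit 3090) (nat_lit 191) (.e (nat_lit 483380) (nat_lit 23) .nil))))) (.g (nat_lit 0) (.e (nat_lit 90343) (nat_lit 0) .nil) .nil))) 
(.lf (nat_lit 472718) (.g (nat_lit 3636) (.e (nat_lit 3774) (nat_lit 229) (.e (nat_lit 794669) (nat_lit 22) (.e (nat_lit 196656) (nat_lit 11) (.e (nat_lit 16436) (nat_lit 9) (.e (nat_lit 426131) (nat_lit 3) (.e (nat_lit 204852) (nat_lit 26) (.e (nat_lit 336258) (nat_lit 15) .nil))))))) (.g (nat_lit 1) (.e (nat_lit 91345) (nat_lit 0) .nil) .nil)))) (.nd (nat_lit 9) 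
(.lf (nat_lit 472462) (.g (nat_lit 1814) (.e (nat_lit 3651) (nat_lit 227) (.e (nat_lit 778462) (nat_lit 11) (.e (nat_lit 24658) (nat_lit 13) (.e (nat_lit 393281) (nat_lit 23) (.e (nat_lit 426100) (nat_lit 1) (.e (nat_lit 164332) (nat_lit 230) (.e (nat_lit 163847) (nat_lit 0) .nil))))))) (.g (nat_lit 1) (.e (nat_lit 90610) (nat_lit 0) .nil) .nil))) 
(.lf (nat_lit 472974) (.g (nat_lit 4001) (.e (nat_lit 3469) (nat_lit 217) (.e (nat_lit 696344) (nat_lit 8) (.e (nat_lit 172081) (nat_lit 7) (.e (nat_lit 409648) (nat_lit 18) (.e (nat_lit 303137) (nat_lit 10) (.e (nat_lit 434275) (nat_lit 39) (.e (nat_lit 663574) (nat_lit 9) (.e (nat_lit 2467) (nat_lit 157) .nil)))))))) (.g (nat_lit 1) (.e (nat_lit 92102) (nat_lit 0) .nil) .nil)))))) 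
(.nd (nat_lit 7) (.nd (nat_lit 8) (.nd (nat_lit 9) 
(.lf (nat_lit 472142) (.g (nat_lit 1802) (.e (nat_lit 3610) (nat_lit 226) (.e (nat_lit 770071) (nat_lit 8) (.e (nat_lit 65586) (nat_lit 7) (.e (nat_lit 319531) (nat_lit 16) (.e (nat_lit 286748) (nat_lit 9) .nil))))) (.g (nat_lit 0) (.e (nat_lit 90269) (nat_lit 0) .nil) .nil))) 
(.lf (nat_lit 472654) (.g (nat_lit 2836) (.e (nat_lit 3747) (nat_lit 228) (.e (nat_lit 786473) (nat_lit 27) (.e (nat_lit 336235) (nat_lit 14) (.e (nat_lit 401438) (nat_lit 9) (.e (nat_lit 426542) (nat_lit 29) (.e (nat_lit 352266) (nat_lit 0) .nil)))))) (.g (nat_lit 1) (.e (nat_lit 91090) (nat_lit 0) .nil) .nil)))) (.nd (nat_lit 9) 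
(.lf (nat_lit 472398) (.g (nat_lit 1991) (.e (nat_lit 3632) (nat_lit 227) (.e (nat_lit 778323) (nat_lit 5) (.e (nat_lit 73782) (nat_lit 32) (.e (nat_lit 3090) (nat_lit 191) (.e (nat_lit 483391) (nat_lit 23) (.e (nat_lit 336277) (nat_lit 15) .nil)))))) (.g (nat_lit 1) (.e (nat_lit 90540) (nat_lit 0) .nil) .nil))) 
(.lf (nat_lit 472910) (.g (nat_lit 2844) (.e (nat_lit 3469) (nat_lit 217) (.e (nat_lit 696344) (nat_lit 8) (.e (nat_lit 172064) (nat_lit 2) (.e (nat_lit 196666) (nat_lit 13) (.e (nat_lit 65610) (nat_lit 10) (.e (nat_lit 344129) (nat_lit 26) (.e (nat_lit 557067) (nat_lit 9) (.e (nat_lit 2469) (nat_lit 157) .nil)))))))) (.g (nat_lit 1) (.e (nat_lit 92038) (nat_lit 0) .nil) .nil))))) 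
(.nd (nat_lit 8) (.nd (nat_lit 9) 
(.lf (nat_lit 472270) (.g (nat_lit 2662) (.e (nat_lit 3631) (nat_lit 227) (.e (nat_lit 778318) (nat_lit 3) (.e (nat_lit 57476) (nat_lit 28) (.e (nat_lit 557097) (nat_lit 13) (.e (nat_lit 172115) (nat_lit 10) (.e (nat_lit 434231) (nat_lit 23) (.e (nat_lit 532528) (nat_lit 9) (.e (nat_lit 336285) (nat_lit 15) .nil)))))))) (.g (nat_lit 1) (.e (nat_lit 90409) (nat_lit 0) .nil) .nil))) 
(.lf (nat_lit 472782) (.g (nat_lit 2107) (.e (nat_lit 3467) (nat_lit 217) (.e (nat_lit 696344) (nat_lit 8) (.e (nat_lit 172106) (nat_lit 10) (.e (nat_lit 434209) (nat_lit 18) (.e (nat_lit 6271) (nat_lit 337) .nil))))) (.g (nat_lit 0) (.e (nat_lit 91549) (nat_lit 0) .nil) .nil)))) (.nd (nat_lit 9) 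
(.lf (nat_lit 472526) (.g (nat_lit 3777) (.e (nat_lit 3711) (nat_lit 227) (.e (nat_lit 778469) (nat_lit 11) (.e (nat_lit 24608) (nat_lit 3) (.e (nat_lit 98365) (nat_lit 26) (.e (nat_lit 426306) (nat_lit 12) (.e (nat_lit 475179) (nat_lit 24) (.e (nat_lit 516102) (nat_lit 0) .nil))))))) (.g (nat_lit 1) (.e (nat_lit 90721) (nat_lit 0) .nil) .nil))) 
(.lf (nat_lit 473038) (.g (nat_lit 2510) (.e (nat_lit 3469) (nat_lit 217) (.e (nat_lit 696344) (nat_lit 8) (.e (nat_lit 172106) (nat_lit 10) (.e (nat_lit 434209) (nat_lit 18) (.e (nat_lit 6272) (nat_lit 337) (.e (nat_lit 7936) (nat_lit 166) (.e (nat_lit 188440) (nat_lit 20) .nil))))))) (.g (nat_lit 1) (.e (nat_lit 92170) (nat_lit 0) .nil) .nil))))))) 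
(.nd (nat_lit 6) (.nd (nat_lit 7) (.nd (nat_lit 8) (.nd (nat_lit 9) 
(.lf (nat_lit 472110) (.g (nat_lit 1430) (.e (nat_lit 3604) (nat_lit 225) (.e (nat_lit 761914) (nat_lit 18) (.e (nat_lit 196352) (nat_lit 0) (.e (nat_lit 2031) (nat_lit 140) (.e (nat_lit 688186) (nat_lit 18) (.e (nat_lit 89856) (nat_lit 0) .nil)))))) (.g (nat_lit 1) (.e (nat_lit 89186) (nat_lit 0) .nil) .nil))) 
(.lf (nat_lit 472622) (.g (nat_lit 2961) (.e (nat_lit 3746) (nat_lit 228) (.e (nat_lit 786480) (nat_lit 29) (.e (nat_lit 352318) (nat_lit 24) (.e (nat_lit 123198) (nat_lit 266) (.e (nat_lit 57436) (nat_lit 17) (.e (nat_lit 376835) (nat_lit 0) .nil)))))) (.g (nat_lit 1) (.e (nat_lit 91056) (nat_lit 0) .nil) .nil)))) (.nd (nat_lit 9) 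
(.lf (nat_lit 472366) (.g (nat_lit 2013) (.e (nat_lit 3632) (nat_lit 227) (.e (nat_lit 778323) (nat_lit 5) (.e (nat_lit 73781) (nat_lit 32) (.e (nat_lit 2856) (nat_lit 184) (.e (nat_lit 426556) (nat_lit 32) (.e (nat_lit 376835) (nat_lit 0) .nil)))))) (.g (nat_lit 1) (.e (nat_lit 90508) (nat_lit 0) .nil) .nil))) 
(.lf (nat_lit 472878) (.g (nat_lit 2252) (.e (nat_lit 3468) (nat_lit 217) (.e (nat_lit 696344) (nat_lit 8) (.e (nat_lit 172107) (nat_lit 10) (.e (nat_lit 434289) (nat_lit 43) (.e (nat_lit 696346) (nat_lit 10) (.e (nat_lit 188439) (nat_lit 20) .nil)))))) (.g (nat_lit 1) (.e (nat_lit 91765) (nat_lit 0) .nil) .nil))))) (.nd (nat_lit 8) (.nd (nat_lit 9) 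
(.lf (nat_lit 472238) (.g (nat_lit 1769) (.e (nat_lit 3629) (nat_lit 227) (.e (nat_lit 778327) (nat_lit 6) (.e (nat_lit 81959) (nat_lit 24) (.e (nat_lit 123198) (nat_lit 266) (.e (nat_lit 57436) (nat_lit 17) (.e (nat_lit 376835) (nat_lit 0) .nil)))))) (.g (nat_lit 1) (.e (nat_lit 90377) (nat_lit 0) .nil) .nil))) 
(.lf (nat_lit 472750) (.g (nat_lit 2126) (.e (nat_lit 3464) (nat_lit 217) (.e (nat_lit 696344) (nat_lit 8) (.e (nat_lit 172079) (nat_lit 7) (.e (nat_lit 409645) (nat_lit 18) (.e (nat_lit 303139) (nat_lit 10) .nil))))) (.g (nat_lit 0) (.e (nat_lit 91486) (nat_lit 0) .nil) .nil)))) (.nd (nat_lit 9) 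
(.lf (nat_lit 472494) (.g (nat_lit 2818) (.e (nat_lit 3693) (nat_lit 227) (.e (nat_lit 778466) (nat_lit 11) (.e (nat_lit 24617) (nat_lit 7) (.e (nat_lit 319534) (nat_lit 16) (.e (nat_lit 286756) (nat_lit 10) .nil))))) (.g (nat_lit 0) (.e (nat_lit 90680) (nat_lit 0) .nil) .nil))) 
(.lf (nat_lit 473006) (.g (nat_lit 2321) (.e (nat_lit 3469) (nat_lit 217) (.e (nat_lit 696344) (nat_lit 8) (.e (nat_lit 172082) (nat_lit 7) (.e (nat_lit 409648) (nat_lit 18) (.e (nat_lit 303137) (nat_lit 10) (.e (nat_lit 434275) (nat_lit 39) (.e (nat_lit 663574) (nat_lit 9) (.e (nat_lit 2472) (nat_lit 157) .nil)))))))) (.g (nat_lit 1) (.e (nat_lit 92134) (nat_lit 0) .nil) .nil)))))) 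
(.nd (nat_lit 7) (.nd (nat_lit 8) (.nd (nat_lit 9) 
(.lf (nat_lit 472174) (.g (nat_lit 2866) (.e (nat_lit 3617) (nat_lit 227) (.e (nat_lit 778462) (nat_lit 11) (.e (nat_lit 24604) (nat_lit 2) (.e (nat_lit 90185) (nat_lit 17) (.e (nat_lit 237601) (nat_lit 9) (.e (nat_lit 426436) (nat_lit 18) (.e (nat_lit 98321) (nat_lit 17) .nil))))))) (.g (nat_lit 1) (.e (nat_lit 90305) (nat_lit 0) .nil) .nil))) 
(.lf (nat_lit 472686) (.g (nat_lit 1639) (.e (nat_lit 3748) (nat_lit 228) (.e (nat_lit 786480) (nat_lit 29) (.e (nat_lit 352318) (nat_lit 24) (.e (nat_lit 123198) (nat_lit 266) (.e (nat_lit 57435) (nat_lit 17) (.e (nat_lit 376835) (nat_lit 0) .nil)))))) (.g (nat_lit 1) (.e (nat_lit 91163) (nat_lit 0) .nil) .nil)))) (.nd (nat_lit 9) 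
(.lf (nat_lit 472430) (.g (nat_lit 4780) (.e (nat_lit 3633) (nat_lit 227) (.e (nat_lit 778318) (nat_lit 3) (.e (nat_lit 57476) (nat_lit 28) (.e (nat_lit 557108) (nat_lit 15) (.e (nat_lit 188452) (nat_lit 23) (.e (nat_lit 204852) (nat_lit 26) (.e (nat_lit 336257) (nat_lit 15) .nil))))))) (.g (nat_lit 1) (.e (nat_lit 90577) (nat_lit 0) .nil) .nil))) 
(.lf (nat_lit 472942) (.g (nat_lit 4579) (.e (nat_lit 3469) (nat_lit 217) (.e (nat_lit 696344) (nat_lit 8) (.e (nat_lit 172079) (nat_lit 7) (.e (nat_lit 409645) (nat_lit 18) (.e (nat_lit 303137) (nat_lit 10) (.e (nat_lit 434275) (nat_lit 39) (.e (nat_lit 663580) (nat_lit 9) (.e (nat_lit 2416) (nat_lit 157) .nil)))))))) (.g (nat_lit 1) (.e (nat_lit 92070) (nat_lit 0) .nil) .nil))))) 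
(.nd (nat_lit 8) (.nd (nat_lit 9) 
(.lf (nat_lit 472302) (.g (nat_lit 1446) (.e (nat_lit 3631) (nat_lit 227) (.e (nat_lit 778323) (nat_lit 5) (.e (nat_lit 73782) (nat_lit 32) (.e (nat_lit 3089) (nat_lit 191) (.e (nat_lit 483387) (nat_lit 23) .nil))))) (.g (nat_lit 0) (.e (nat_lit 90442) (nat_lit 0) .nil) .nil))) 
(.lf (nat_lit 472814) (.g (nat_lit 2216) (.e (nat_lit 3468) (nat_lit 217) (.e (nat_lit 696343) (nat_lit 8) (.e (nat_lit 172107) (nat_lit 10) (.e (nat_lit 434289) (nat_lit 43) (.e (nat_lit 696346) (nat_lit 10) (.e (nat_lit 188439) (nat_lit 20) .nil)))))) (.g (nat_lit 1) (.e (nat_lit 91650) (nat_lit 0) .nil) .nil)))) (.nd (nat_lit 9) 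
(.lf (nat_lit 472558) (.g (nat_lit 1734) (.e (nat_lit 3715) (nat_lit 227) (.e (nat_lit 778322) (nat_lit 5) (.e (nat_lit 73781) (nat_lit 32) (.e (nat_lit 2857) (nat_lit 184) (.e (nat_lit 426542) (nat_lit 29) (.e (nat_lit 352264) (nat_lit 0) .nil)))))) (.g (nat_lit 1) (.e (nat_lit 90756) (nat_lit 0) .nil) .nil))) 
(.lf (nat_lit 473070) (.g (nat_lit 2995) (.e (nat_lit 3469) (nat_lit 217) (.e (nat_lit 696344) (nat_lit 8) (.e (nat_lit 172113) (nat_lit 10) (.e (nat_lit 434203) (nat_lit 18) (.e (nat_lit 6252) (nat_lit 337) (.e (nat_lit 7936) (nat_lit 166) (.e (nat_lit 188439) (nat_lit 20) .nil))))))) (.g (nat_lit 1) (.e (nat_lit 92202) (nat_lit 0) .nil) .nil)))))))) 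
(.nd (nat_lit 5) (.nd (nat_lit 6) (.nd (nat_lit 7) (.nd (nat_lit 8) (.nd (nat_lit 9) 
(.lf (nat_lit 472094) (.g (nat_lit 963) (.e (nat_lit 3409) (nat_lit 212) (.e (nat_lit 655380) (nat_lit 6) (.e (nat_lit 188453) (nat_lit 24) (.e (nat_lit 229664) (nat_lit 240) .nil)))) (.g (nat_lit 0) (.e (nat_lit 88518) (nat_lit 0) .nil) .nil))) 
(.lf (nat_lit 472606) (.g (nat_lit 426) (.e (nat_lit 3733) (nat_lit 228) (.e (nat_lit 786483) (nat_lit 30) (.e (nat_lit 360484) (nat_lit 15) .nil))) (.g (nat_lit 0) (.e (nat_lit 90941) (nat_lit 0) .nil) .nil)))) (.nd (nat_lit 9) 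
(.lf (nat_lit 472350) (.g (nat_lit 5528) (.e (nat_lit 3632) (nat_lit 227) (.e (nat_lit 778318) (nat_lit 3) (.e (nat_lit 57476) (nat_lit 28) (.e (nat_lit 557108) (nat_lit 15) (.e (nat_lit 188449) (nat_lit 22) (.e (nat_lit 196662) (nat_lit 13) (.e (nat_lit 65637) (nat_lit 15) .nil))))))) (.g (nat_lit 1) (.e (nat_lit 90491) (nat_lit 0) .nil) .nil))) 
(.lf (nat_lit 472862) (.g (nat_lit 2294) (.e (nat_lit 3468) (nat_lit 217) (.e (nat_lit 696344) (nat_lit 8) (.e (nat_lit 172106) (nat_lit 10) (.e (nat_lit 434209) (nat_lit 18) (.e (nat_lit 6273) (nat_lit 337) (.e (nat_lit 2645) (nat_lit 166) (.e (nat_lit 188435) (nat_lit 20) .nil))))))) (.g (nat_lit 1) (.e (nat_lit 91738) (nat_lit 0) .nil) .nil))))) (.nd (nat_lit 8) (.nd (nat_lit 9) 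
(.lf (nat_lit 472222) (.g (nat_lit 745) (.e (nat_lit 3629) (nat_lit 227) (.e (nat_lit 778326) (nat_lit 6) (.e (nat_lit 81921) (nat_lit 0) (.e (nat_lit 3711) (nat_lit 227) (.e (nat_lit 778325) (nat_lit 6) (.e (nat_lit 81924) (nat_lit 0) .nil)))))) (.g (nat_lit 1) (.e (nat_lit 90359) (nat_lit 0) .nil) .nil))) 
(.lf (nat_lit 472734) (.g (nat_lit 3752) (.e (nat_lit 3458) (nat_lit 216) (.e (nat_lit 688171) (nat_lit 15) (.e (nat_lit 57465) (nat_lit 23) (.e (nat_lit 516129) (nat_lit 3) (.e (nat_lit 221210) (nat_lit 22) (.e (nat_lit 196666) (nat_lit 13) (.e (nat_lit 65569) (nat_lit 3) (.e (nat_lit 98321) (nat_lit 17) .nil)))))))) (.g (nat_lit 1) (.e (nat_lit 91437) (nat_lit 0) .nil) .nil)))) (.nd (nat_lit 9) 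
(.lf (nat_lit 472478) (.g (nat_lit 1845) (.e (nat_lit 3657) (nat_lit 227) (.e (nat_lit 778462) (nat_lit 11) (.e (nat_lit 24658) (nat_lit 13) (.e (nat_lit 393281) (nat_lit 23) (.e (nat_lit 426100) (nat_lit 1) (.e (nat_lit 164332) (nat_lit 230) (.e (nat_lit 163847) (nat_lit 0) .nil))))))) (.g (nat_lit 1) (.e (nat_lit 90642) (nat_lit 0) .nil) .nil))) 
(.lf (nat_lit 472990) (.g (nat_lit 2729) (.e (nat_lit 3469) (nat_lit 217) (.e (nat_lit 696344) (nat_lit 8) (.e (nat_lit 172082) (nat_lit 7) (.e (nat_lit 409646) (nat_lit 18) (.e (nat_lit 303137) (nat_lit 10) (.e (nat_lit 434275) (nat_lit 39) (.e (nat_lit 663574) (nat_lit 9) (.e (nat_lit 2473) (nat_lit 157) .nil)))))))) (.g (nat_lit 1) (.e (nat_lit 92118) (nat_lit 0) .nil) .nil)))))) 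
(.nd (nat_lit 7) (.nd (nat_lit 8) (.nd (nat_lit 9) 
(.lf (nat_lit 472158) (.g (nat_lit 2935) (.e (nat_lit 3613) (nat_lit 226) (.e (nat_lit 770072) (nat_lit 8) (.e (nat_lit 65586) (nat_lit 7) (.e (nat_lit 319531) (nat_lit 16) (.e (nat_lit 286748) (nat_lit 9) (.e (nat_lit 336295) (nat_lit 15) (.e (nat_lit 3784) (nat_lit 230) (.e (nat_lit 802829) (nat_lit 20) .nil)))))))) (.g (nat_lit 1) (.e (nat_lit 90286) (nat_lit 0) .nil) .nil))) 
(.lf (nat_lit 472670) (.g (nat_lit 2348) (.e (nat_lit 3748) (nat_lit 228) (.e (nat_lit 786473) (nat_lit 27) (.e (nat_lit 336235) (nat_lit 14) (.e (nat_lit 401456) (nat_lit 13) (.e (nat_lit 483391) (nat_lit 23) (.e (nat_lit 336300) (nat_lit 15) .nil)))))) (.g (nat_lit 1) (.e (nat_lit 91113) (nat_lit 0) .nil) .nil)))) (.nd (nat_lit 9) 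
(.lf (nat_lit 472414) (.g (nat_lit 1962) (.e (nat_lit 3632) (nat_lit 227) (.e (nat_lit 778324) (nat_lit 5) (.e (nat_lit 73781) (nat_lit 32) (.e (nat_lit 3090) (nat_lit 191) (.e (nat_lit 483391) (nat_lit 23) (.e (nat_lit 336277) (nat_lit 15) .nil)))))) (.g (nat_lit 1) (.e (nat_lit 90557) (nat_lit 0) .nil) .nil))) 
(.lf (nat_lit 472926) (.g (nat_lit 4923) (.e (nat_lit 3469) (nat_lit 217) (.e (nat_lit 696344) (nat_lit 8) (.e (nat_lit 172078) (nat_lit 7) (.e (nat_lit 409649) (nat_lit 18) (.e (nat_lit 303140) (nat_lit 10) (.e (nat_lit 434275) (nat_lit 39) (.e (nat_lit 663580) (nat_lit 9) (.e (nat_lit 2416) (nat_lit 157) .nil)))))))) (.g (nat_lit 1) (.e (nat_lit 92054) (nat_lit 0) .nil) .nil))))) 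
(.nd (nat_lit 8) (.nd (nat_lit 9) 
(.lf (nat_lit 472286) (.g (nat_lit 3456) (.e (nat_lit 3631) (nat_lit 227) (.e (nat_lit 778323) (nat_lit 5) (.e (nat_lit 73781) (nat_lit 32) (.e (nat_lit 3090) (nat_lit 191) (.e (nat_lit 483380) (nat_lit 23) (.e (nat_lit 336263) (nat_lit 15) .nil)))))) (.g (nat_lit 1) (.e (nat_lit 90426) (nat_lit 0) .nil) .nil))) 
(.lf (nat_lit 472798) (.g (nat_lit 2114) (.e (nat_lit 3468) (nat_lit 217) (.e (nat_lit 696343) (nat_lit 8) (.e (nat_lit 172106) (nat_lit 10) (.e (nat_lit 434209) (nat_lit 18) (.e (nat_lit 6273) (nat_lit 337) (.e (nat_lit 2645) (nat_lit 166) (.e (nat_lit 188435) (nat_lit 20) .nil))))))) (.g (nat_lit 1) (.e (nat_lit 91628) (nat_lit 0) .nil) .nil)))) (.nd (nat_lit 9) 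
(.lf (nat_lit 472542) (.g (nat_lit 3982) (.e (nat_lit 3714) (nat_lit 227) (.e (nat_lit 778316) (nat_lit 3) (.e (nat_lit 57480) (nat_lit 28) (.e (nat_lit 557098) (nat_lit 13) (.e (nat_lit 172097) (nat_lit 9) (.e (nat_lit 426125) (nat_lit 2) (.e (nat_lit 196666) (nat_lit 13) (.e (nat_lit 65639) (nat_lit 15) .nil)))))))) (.g (nat_lit 1) (.e (nat_lit 90739) (nat_lit 0) .nil) .nil))) 
(.lf (nat_lit 473054) (.g (nat_lit 2971) (.e (nat_lit 3469) (nat_lit 217) (.e (nat_lit 696344) (nat_lit 8) (.e (nat_lit 172106) (nat_lit 10) (.e (nat_lit 434288) (nat_lit 43) (.e (nat_lit 696346) (nat_lit 10) (.e (nat_lit 188434) (nat_lit 20) .nil)))))) (.g (nat_lit 1) (.e (nat_lit 92186) (nat_lit 0) .nil) .nil))))))) (.nd (nat_lit 6) (.nd (nat_lit 7) (.nd (nat_lit 8) (.nd (nat_lit 9) 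
(.lf (nat_lit 472126) (.g (nat_lit 2262) (.e (nat_lit 3603) (nat_lit 225) (.e (nat_lit 761898) (nat_lit 15) (.e (nat_lit 163959) (nat_lit 24) (.e (nat_lit 524320) (nat_lit 12) (.e (nat_lit 450579) (nat_lit 5) (.e (nat_lit 532530) (nat_lit 9) (.e (nat_lit 336258) (nat_lit 15) .nil))))))) (.g (nat_lit 1) (.e (nat_lit 90163) (nat_lit 0) .nil) .nil))) 
(.lf (nat_lit 472638) (.g (nat_lit 1822) (.e (nat_lit 3747) (nat_lit 228) (.e (nat_lit 786473) (nat_lit 27) (.e (nat_lit 335872) (nat_lit 0) (.e (nat_lit 6717) (nat_lit 361) (.e (nat_lit 172150) (nat_lit 27) (.e (nat_lit 336078) (nat_lit 9) (.e (nat_lit 336270) (nat_lit 15) .nil))))))) (.g (nat_lit 1) (.e (nat_lit 91073) (nat_lit 0) .nil) .nil)))) (.nd (nat_lit 9) 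
(.lf (nat_lit 472382) (.g (nat_lit 2428) (.e (nat_lit 3632) (nat_lit 227) (.e (nat_lit 778323) (nat_lit 5) (.e (nat_lit 73781) (nat_lit 32) (.e (nat_lit 3090) (nat_lit 191) (.e (nat_lit 483393) (nat_lit 23) (.e (nat_lit 336293) (nat_lit 15) .nil)))))) (.g (nat_lit 1) (.e (nat_lit 90524) (nat_lit 0) .nil) .nil))) 
(.lf (nat_lit 472894) (.g (nat_lit 1865) (.e (nat_lit 3468) (nat_lit 217) (.e (nat_lit 696344) (nat_lit 8) (.e (nat_lit 172115) (nat_lit 10) (.e (nat_lit 434209) (nat_lit 18) (.e (nat_lit 6272) (nat_lit 337) .nil))))) (.g (nat_lit 0) (.e (nat_lit 91812) (nat_lit 0) .nil) .nil))))) (.nd (nat_lit 8) (.nd (nat_lit 9) 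
(.lf (nat_lit 472254) (.g (nat_lit 692) (.e (nat_lit 3630) (nat_lit 227) (.e (nat_lit 778326) (nat_lit 6) (.e (nat_lit 81924) (nat_lit 0) (.e (nat_lit 3630) (nat_lit 227) (.e (nat_lit 778326) (nat_lit 6) (.e (nat_lit 81924) (nat_lit 0) .nil)))))) (.g (nat_lit 1) (.e (nat_lit 90393) (nat_lit 0) .nil) .nil))) 
(.lf (nat_lit 472766) (.g (nat_lit 3522) (.e (nat_lit 3464) (nat_lit 217) (.e (nat_lit 696344) (nat_lit 8) (.e (nat_lit 172126) (nat_lit 14) (.e (nat_lit 491566) (nat_lit 12) (.e (nat_lit 385107) (nat_lit 51) (.e (nat_lit 794684) (nat_lit 25) (.e (nat_lit 221198) (nat_lit 20) .nil))))))) (.g (nat_lit 1) (.e (nat_lit 91502) (nat_lit 0) .nil) .nil)))) (.nd (nat_lit 9) 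
(.lf (nat_lit 472510) (.g (nat_lit 3531) (.e (nat_lit 3711) (nat_lit 227) (.e (nat_lit 786176) (nat_lit 3) (.e (nat_lit 57480) (nat_lit 28) (.e (nat_lit 557098) (nat_lit 13) (.e (nat_lit 172097) (nat_lit 9) (.e (nat_lit 426140) (nat_lit 3) (.e (nat_lit 204855) (nat_lit 26) (.e (nat_lit 336290) (nat_lit 15) .nil)))))))) (.g (nat_lit 1) (.e (nat_lit 90705) (nat_lit 0) .nil) .nil))) 
(.lf (nat_lit 473022) (.g (nat_lit 2546) (.e (nat_lit 3469) (nat_lit 217) (.e (nat_lit 696344) (nat_lit 8) (.e (nat_lit 172106) (nat_lit 10) (.e (nat_lit 434202) (nat_lit 18) (.e (nat_lit 6252) (nat_lit 337) (.e (nat_lit 7936) (nat_lit 166) (.e (nat_lit 188439) (nat_lit 20) .nil))))))) (.g (nat_lit 1) (.e (nat_lit 92154) (nat_lit 0) .nil) .nil)))))) 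
(.nd (nat_lit 7) (.nd (nat_lit 8) (.nd (nat_lit 9) 
(.lf (nat_lit 472190) (.g (nat_lit 3068) (.e (nat_lit 3617) (nat_lit 227) (.e (nat_lit 778462) (nat_lit 11) (.e (nat_lit 24628) (nat_lit 9) (.e (nat_lit 336443) (nat_lit 32) (.e (nat_lit 466972) (nat_lit 21) (.e (nat_lit 164332) (nat_lit 230) (.e (nat_lit 163847) (nat_lit 0) .nil))))))) (.g (nat_lit 1) (.e (nat_lit 90326) (nat_lit 0) .nil) .nil))) 
(.lf (nat_lit 472702) (.g (nat_lit 2434) (.e (nat_lit 3771) (nat_lit 229) (.e (nat_lit 794668) (nat_lit 22) (.e (nat_lit 196666) (nat_lit 13) (.e (nat_lit 65569) (nat_lit 3) (.e (nat_lit 98334) (nat_lit 18) (.e (nat_lit 164159) (nat_lit 152) (.e (nat_lit 1038) (nat_lit 81) (.e (nat_lit 1254) (nat_lit 92) (.e (nat_lit 98321) (nat_lit 17) .nil))))))))) (.g (nat_lit 1) (.e (nat_lit 91276) (nat_lit 0) .nil) .nil)))) 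
(.nd (nat_lit 9) 
(.lf (nat_lit 472446) (.g (nat_lit 4007) (.e (nat_lit 3636) (nat_lit 227) (.e (nat_lit 778318) (nat_lit 3) (.e (nat_lit 57476) (nat_lit 28) (.e (nat_lit 557107) (nat_lit 15) (.e (nat_lit 188450) (nat_lit 23) (.e (nat_lit 204852) (nat_lit 26) (.e (nat_lit 336261) (nat_lit 15) .nil))))))) (.g (nat_lit 1) (.e (nat_lit 90593) (nat_lit 0) .nil) .nil))) 
(.lf (nat_lit 472958) (.g (nat_lit 3058) (.e (nat_lit 3469) (nat_lit 217) (.e (nat_lit 696344) (nat_lit 8) (.e (nat_lit 172079) (nat_lit 7) (.e (nat_lit 409648) (nat_lit 18) (.e (nat_lit 303137) (nat_lit 10) (.e (nat_lit 434275) (nat_lit 39) (.e (nat_lit 663574) (nat_lit 9) (.e (nat_lit 2457) (nat_lit 157) .nil)))))))) (.g (nat_lit 1) (.e (nat_lit 92086) (nat_lit 0) .nil) .nil))))) 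
(.nd (nat_lit 8) (.nd (nat_lit 9) 
(.lf (nat_lit 472318) (.g (nat_lit 1423) (.e (nat_lit 3631) (nat_lit 227) (.e (nat_lit 778326) (nat_lit 6) (.e (nat_lit 81922) (nat_lit 0) (.e (nat_lit 3631) (nat_lit 227) (.e (nat_lit 778326) (nat_lit 6) (.e (nat_lit 81924) (nat_lit 0) .nil)))))) (.g (nat_lit 1) (.e (nat_lit 90458) (nat_lit 0) .nil) .nil))) 
(.lf (nat_lit 472830) (.g (nat_lit 1098) (.e (nat_lit 3468) (nat_lit 217) (.e (nat_lit 696343) (nat_lit 8) (.e (nat_lit 172115) (nat_lit 10) (.e (nat_lit 434202) (nat_lit 18) .nil)))) (.g (nat_lit 0) (.e (nat_lit 91688) (nat_lit 0) .nil) .nil)))) (.nd (nat_lit 9) 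
(.lf (nat_lit 472574) (.g (nat_lit 3374) (.e (nat_lit 3719) (nat_lit 227) (.e (nat_lit 778466) (nat_lit 11) (.e (nat_lit 24604) (nat_lit 2) (.e (nat_lit 90185) (nat_lit 17) (.e (nat_lit 237605) (nat_lit 9) (.e (nat_lit 426436) (nat_lit 18) (.e (nat_lit 98325) (nat_lit 17) .nil))))))) (.g (nat_lit 1) (.e (nat_lit 90772) (nat_lit 0) .nil) .nil))) 
(.lf (nat_lit 473086) (.g (nat_lit 2104) (.e (nat_lit 3469) (nat_lit 217) (.e (nat_lit 696344) (nat_lit 8) (.e (nat_lit 172113) (nat_lit 10) (.e (nat_lit 434208) (nat_lit 18) (.e (nat_lit 6418) (nat_lit 341) (.e (nat_lit 163920) (nat_lit 14) (.e (nat_lit 442412) (nat_lit 20) .nil))))))) (.g (nat_lit 1) (.e (nat_lit 92218) (nat_lit 0) .nil) .nil)))))))))))) 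
(.nd (nat_lit 1) (.nd (nat_lit 2) (.nd (nat_lit 3) (.nd (nat_lit 4) (.nd (nat_lit 5) 
(.nd (nat_lit 6) (.nd (nat_lit 7) (.nd (nat_lit 8) (.nd (nat_lit 9) 
(.lf (nat_lit 472065) (.g (nat_lit 2658) (.e (nat_lit 3409) (nat_lit 212) (.e (nat_lit 655378) (nat_lit 4) (.e (nat_lit 172125) (nat_lit 14) (.e (nat_lit 491571) (nat_lit 13) (.e (nat_lit 393275) (nat_lit 23) (.e (nat_lit 426042) (nat_lit 0) .nil)))))) (.g (nat_lit 1) (.e (nat_lit 88483) (nat_lit 0) .nil) .nil))) 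
(.lf (nat_lit 472577) (.g (nat_lit 3518) (.e (nat_lit 3719) (nat_lit 227) (.e (nat_lit 778466) (nat_lit 11) (.e (nat_lit 24608) (nat_lit 3) (.e (nat_lit 98365) (nat_lit 26) (.e (nat_lit 426188) (nat_lit 9) (.e (nat_lit 426438) (nat_lit 18) (.e (nat_lit 98325) (nat_lit 17) .nil))))))) (.g (nat_lit 1) (.e (nat_lit 90775) (nat_lit 0) .nil) .nil)))) (.nd (nat_lit 9) 
(.lf (nat_lit 472321) (.g (nat_lit 1369) (.e (nat_lit 3631) (nat_lit 227) (.e (nat_lit 778326) (nat_lit 6) (.e (nat_lit 81922) (nat_lit 0) (.e (nat_lit 3632) (nat_lit 227) (.e (nat_lit 778327) (nat_lit 6) (.e (nat_lit 81922) (nat_lit 0) .nil)))))) (.g (nat_lit 1) (.e (nat_lit 90461) (nat_lit 0) .nil) .nil))) 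
(.lf (nat_lit 472833) (.g (nat_lit 1821) (.e (nat_lit 3468) (nat_lit 217) (.e (nat_lit 696343) (nat_lit 8) (.e (nat_lit 172115) (nat_lit 10) (.e (nat_lit 434209) (nat_lit 18) (.e (nat_lit 6273) (nat_lit 337) (.e (nat_lit 2645) (nat_lit 166) (.e (nat_lit 188435) (nat_lit 20) .nil))))))) (.g (nat_lit 1) (.e (nat_lit 91696) (nat_lit 0) .nil) .nil))))) (.nd (nat_lit 8) (.nd (nat_lit 9) 
(.lf (nat_lit 472193) (.g (nat_lit 2746) (.e (nat_lit 3617) (nat_lit 227) (.e (nat_lit 778462) (nat_lit 11) (.e (nat_lit 24658) (nat_lit 13) (.e (nat_lit 393281) (nat_lit 23) (.e (nat_lit 426100) (nat_lit 1) (.e (nat_lit 164332) (nat_lit 230) (.e (nat_lit 163847) (nat_lit 0) .nil))))))) (.g (nat_lit 1) (.e (nat_lit 90329) (nat_lit 0) .nil) .nil))) 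
(.lf (nat_lit 472705) (.g (nat_lit 875) (.e (nat_lit 3771) (nat_lit 229) (.e (nat_lit 794669) (nat_lit 22) (.e (nat_lit 196668) (nat_lit 14) (.e (nat_lit 73746) (nat_lit 3) .nil)))) (.g (nat_lit 0) (.e (nat_lit 91280) (nat_lit 0) .nil) .nil)))) (.nd (nat_lit 9) 
(.lf (nat_lit 472449) (.g (nat_lit 2736) (.e (nat_lit 3636) (nat_lit 227) (.e (nat_lit 778324) (nat_lit 5) (.e (nat_lit 73781) (nat_lit 32) (.e (nat_lit 3090) (nat_lit 191) (.e (nat_lit 483380) (nat_lit 23) (.e (nat_lit 336261) (nat_lit 15) .nil)))))) (.g (nat_lit 1) (.e (nat_lit 90596) (nat_lit 0) .nil) .nil))) 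
(.lf (nat_lit 472961) (.g (nat_lit 3208) (.e (nat_lit 3469) (nat_lit 217) (.e (nat_lit 696344) (nat_lit 8) (.e (nat_lit 172079) (nat_lit 7) (.e (nat_lit 409648) (nat_lit 18) (.e (nat_lit 303137) (nat_lit 10) (.e (nat_lit 434275) (nat_lit 39) (.e (nat_lit 663574) (nat_lit 9) (.e (nat_lit 2473) (nat_lit 157) .nil)))))))) (.g (nat_lit 1) (.e (nat_lit 92089) (nat_lit 0) .nil) .nil)))))) 
(.nd (nat_lit 7) (.nd (nat_lit 8) (.nd (nat_lit 9) 
(.lf (nat_lit 472129) (.g (nat_lit 2081) (.e (nat_lit 3606) (nat_lit 226) (.e (nat_lit 770072) (nat_lit 8) (.e (nat_lit 65583) (nat_lit 7) (.e (nat_lit 319530) (nat_lit 16) (.e (nat_lit 286748) (nat_lit 9) (.e (nat_lit 336295) (nat_lit 15) (.e (nat_lit 3757) (nat_lit 229) (.e (nat_lit 794638) (nat_lit 20) .nil)))))))) (.g (nat_lit 1) (.e (nat_lit 90255) (nat_lit 0) .nil) .nil))) 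
(.lf (nat_lit 472641) (.g (nat_lit 3295) (.e (nat_lit 3747) (nat_lit 228) (.e (nat_lit 786473) (nat_lit 27) (.e (nat_lit 336051) (nat_lit 6) (.e (nat_lit 147495) (nat_lit 11) (.e (nat_lit 24606) (nat_lit 3) (.e (nat_lit 98342) (nat_lit 20) (.e (nat_lit 221204) (nat_lit 20) .nil))))))) (.g (nat_lit 1) (.e (nat_lit 91077) (nat_lit 0) .nil) .nil)))) (.nd (nat_lit 9) 
(.lf (nat_lit 472385) (.g (nat_lit 3092) (.e (nat_lit 3632) (nat_lit 227) (.e (nat_lit 778323) (nat_lit 5) (.e (nat_lit 73782) (nat_lit 32) (.e (nat_lit 2856) (nat_lit 184) (.e (nat_lit 426542) (nat_lit 29) (.e (nat_lit 352265) (nat_lit 0) .nil)))))) (.g (nat_lit 1) (.e (nat_lit 90527) (nat_lit 0) .nil) .nil))) 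
(.lf (nat_lit 472897) (.g (nat_lit 1421) (.e (nat_lit 3468) (nat_lit 217) (.e (nat_lit 696344) (nat_lit 8) (.e (nat_lit 172115) (nat_lit 10) (.e (nat_lit 434209) (nat_lit 18) (.e (nat_lit 6428) (nat_lit 342) .nil))))) (.g (nat_lit 0) (.e (nat_lit 91815) (nat_lit 0) .nil) .nil))))) (.nd (nat_lit 8) (.nd (nat_lit 9) 
(.lf (nat_lit 472257) (.g (nat_lit 1260) (.e (nat_lit 3630) (nat_lit 227) (.e (nat_lit 778326) (nat_lit 6) (.e (nat_lit 81924) (nat_lit 0) (.e (nat_lit 3632) (nat_lit 227) (.e (nat_lit 778326) (nat_lit 6) (.e (nat_lit 81924) (nat_lit 0) .nil)))))) (.g (nat_lit 1) (.e (nat_lit 90396) (nat_lit 0) .nil) .nil))) 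
(.lf (nat_lit 472769) (.g (nat_lit 4224) (.e (nat_lit 3464) (nat_lit 217) (.e (nat_lit 696344) (nat_lit 8) (.e (nat_lit 172126) (nat_lit 14) (.e (nat_lit 491566) (nat_lit 12) (.e (nat_lit 385109) (nat_lit 51) (.e (nat_lit 794684) (nat_lit 25) (.e (nat_lit 221198) (nat_lit 20) .nil))))))) (.g (nat_lit 1) (.e (nat_lit 91505) (nat_lit 0) .nil) .nil)))) (.nd (nat_lit 9) 
(.lf (nat_lit 472513) (.g (nat_lit 2638) (.e (nat_lit 3711) (nat_lit 227) (.e (nat_lit 786176) (nat_lit 3) (.e (nat_lit 57480) (nat_lit 28) (.e (nat_lit 557107) (nat_lit 15) (.e (nat_lit 188450) (nat_lit 23) (.e (nat_lit 204855) (nat_lit 26) (.e (nat_lit 336290) (nat_lit 15) .nil))))))) (.g (nat_lit 1) (.e (nat_lit 90708) (nat_lit 0) .nil) .nil))) 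
(.lf (nat_lit 473025) (.g (nat_lit 2383) (.e (nat_lit 3469) (nat_lit 217) (.e (nat_lit 696344) (nat_lit 8) (.e (nat_lit 172106) (nat_lit 10) (.e (nat_lit 434202) (nat_lit 18) (.e (nat_lit 6254) (nat_lit 337) (.e (nat_lit 7936) (nat_lit 166) (.e (nat_lit 188435) (nat_lit 20) .nil))))))) (.g (nat_lit 1) (.e (nat_lit 92157) (nat_lit 0) .nil) .nil))))))) 
(.nd (nat_lit 6) (.nd (nat_lit 7) (.nd (nat_lit 8) (.nd (nat_lit 9) 
(.lf (nat_lit 472097) (.g (nat_lit 1589) (.e (nat_lit 3409) (nat_lit 212) (.e (nat_lit 655380) (nat_lit 6) (.e (nat_lit 188455) (nat_lit 24) (.e (nat_lit 229663) (nat_lit 240) (.e (nat_lit 2651) (nat_lit 166) .nil))))) (.g (nat_lit 0) (.e (nat_lit 88522) (nat_lit 0) .nil) .nil))) 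
(.lf (nat_lit 472609) (.g (nat_lit 2775) (.e (nat_lit 3746) (nat_lit 228) (.e (nat_lit 786478) (nat_lit 29) (.e (nat_lit 352318) (nat_lit 24) (.e (nat_lit 123197) (nat_lit 266) (.e (nat_lit 57435) (nat_lit 17) (.e (nat_lit 376835) (nat_lit 0) .nil)))))) (.g (nat_lit 1) (.e (nat_lit 91041) (nat_lit 0) .nil) .nil)))) (.nd (nat_lit 9) 
(.lf (nat_lit 472353) (.g (nat_lit 4834) (.e (nat_lit 3632) (nat_lit 227) (.e (nat_lit 778318) (nat_lit 3) (.e (nat_lit 57476) (nat_lit 28) (.e (nat_lit 557108) (nat_lit 15) (.e (nat_lit 188449) (nat_lit 22) (.e (nat_lit 196665) (nat_lit 13) (.e (nat_lit 65637) (nat_lit 15) .nil))))))) (.g (nat_lit 1) (.e (nat_lit 90494) (nat_lit 0) .nil) .nil))) 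
(.lf (nat_lit 472865) (.g (nat_lit 1965) (.e (nat_lit 3468) (nat_lit 217) (.e (nat_lit 696344) (nat_lit 8) (.e (nat_lit 172106) (nat_lit 10) (.e (nat_lit 434209) (nat_lit 18) (.e (nat_lit 6426) (nat_lit 342) .nil))))) (.g (nat_lit 0) (.e (nat_lit 91745) (nat_lit 0) .nil) .nil))))) (.nd (nat_lit 8) (.nd (nat_lit 9) 
(.lf (nat_lit 472225) (.g (nat_lit 2277) (.e (nat_lit 3629) (nat_lit 227) (.e (nat_lit 778326) (nat_lit 6) (.e (nat_lit 81957) (nat_lit 24) (.e (nat_lit 123197) (nat_lit 266) (.e (nat_lit 57436) (nat_lit 17) (.e (nat_lit 376835) (nat_lit 0) .nil)))))) (.g (nat_lit 1) (.e (nat_lit 90363) (nat_lit 0) .nil) .nil))) 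
(.lf (nat_lit 472737) (.g (nat_lit 1548) (.e (nat_lit 3464) (nat_lit 217) (.e (nat_lit 696343) (nat_lit 8) (.e (nat_lit 172106) (nat_lit 10) (.e (nat_lit 434202) (nat_lit 18) (.e (nat_lit 6421) (nat_lit 341) (.e (nat_lit 163932) (nat_lit 17) (.e (nat_lit 466967) (nat_lit 20) .nil))))))) (.g (nat_lit 1) (.e (nat_lit 91473) (nat_lit 0) .nil) .nil)))) (.nd (nat_lit 9) 
(.lf (nat_lit 472481) (.g (nat_lit 1930) (.e (nat_lit 3660) (nat_lit 227) (.e (nat_lit 778462) (nat_lit 11) (.e (nat_lit 24604) (nat_lit 2) (.e (nat_lit 90185) (nat_lit 17) (.e (nat_lit 237619) (nat_lit 12) (.e (nat_lit 475177) (nat_lit 24) (.e (nat_lit 516097) (nat_lit 0) .nil))))))) (.g (nat_lit 1) (.e (nat_lit 90646) (nat_lit 0) .nil) .nil))) 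
(.lf (nat_lit 472993) (.g (nat_lit 2590) (.e (nat_lit 3469) (nat_lit 217) (.e (nat_lit 696344) (nat_lit 8) (.e (nat_lit 172082) (nat_lit 7) (.e (nat_lit 409646) (nat_lit 18) (.e (nat_lit 303139) (nat_lit 10) (.e (nat_lit 434275) (nat_lit 39) (.e (nat_lit 663574) (nat_lit 9) (.e (nat_lit 2467) (nat_lit 157) .nil)))))))) (.g (nat_lit 1) (.e (nat_lit 92121) (nat_lit 0) .nil) .nil)))))) 
(.nd (nat_lit 7) (.nd (nat_lit 8) (.nd (nat_lit 9) 
(.lf (nat_lit 472161) (.g (nat_lit 2879) (.e (nat_lit 3613) (nat_lit 226) (.e (nat_lit 770072) (nat_lit 8) (.e (nat_lit 65630) (nat_lit 14) (.e (nat_lit 401454) (nat_lit 12) (.e (nat_lit 475209) (nat_lit 41) (.e (nat_lit 712732) (nat_lit 20) (.e (nat_lit 221195) (nat_lit 20) .nil))))))) (.g (nat_lit 1) (.e (nat_lit 90289) (nat_lit 0) .nil) .nil))) 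
(.lf (nat_lit 472673) (.g (nat_lit 4535) (.e (nat_lit 3748) (nat_lit 228) (.e (nat_lit 786477) (nat_lit 28) (.e (nat_lit 344177) (nat_lit 43) (.e (nat_lit 770072) (nat_lit 8) (.e (nat_lit 65571) (nat_lit 3) (.e (nat_lit 98341) (nat_lit 20) (.e (nat_lit 221204) (nat_lit 20) .nil))))))) (.g (nat_lit 1) (.e (nat_lit 91130) (nat_lit 0) .nil) .nil)))) (.nd (nat_lit 9) 
(.lf (nat_lit 472417) (.g (nat_lit 1110) (.e (nat_lit 3632) (nat_lit 227) (.e (nat_lit 778326) (nat_lit 6) (.e (nat_lit 81920) (nat_lit 0) (.e (nat_lit 3715) (nat_lit 227) (.e (nat_lit 778325) (nat_lit 6) (.e (nat_lit 81924) (nat_lit 0) .nil)))))) (.g (nat_lit 1) (.e (nat_lit 90560) (nat_lit 0) .nil) .nil))) 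
(.lf (nat_lit 472929) (.g (nat_lit 2222) (.e (nat_lit 3469) (nat_lit 217) (.e (nat_lit 696344) (nat_lit 8) (.e (nat_lit 172079) (nat_lit 7) (.e (nat_lit 409645) (nat_lit 18) (.e (nat_lit 303135) (nat_lit 10) (.e (nat_lit 434275) (nat_lit 39) (.e (nat_lit 663574) (nat_lit 9) (.e (nat_lit 2456) (nat_lit 157) .nil)))))))) (.g (nat_lit 1) (.e (nat_lit 92057) (nat_lit 0) .nil) .nil))))) 
(.nd (nat_lit 8) (.nd (nat_lit 9) 
(.lf (nat_lit 472289) (.g (nat_lit 3368) (.e (nat_lit 3631) (nat_lit 227) (.e (nat_lit 778323) (nat_lit 5) (.e (nat_lit 73781) (nat_lit 32) (.e (nat_lit 3090) (nat_lit 191) (.e (nat_lit 483380) (nat_lit 23) (.e (nat_lit 336268) (nat_lit 15) .nil)))))) (.g (nat_lit 1) (.e (nat_lit 90429) (nat_lit 0) .nil) .nil))) 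
(.lf (nat_lit 472801) (.g (nat_lit 1946) (.e (nat_lit 3468) (nat_lit 217) (.e (nat_lit 696343) (nat_lit 8) (.e (nat_lit 172106) (nat_lit 10) (.e (nat_lit 434209) (nat_lit 18) (.e (nat_lit 6427) (nat_lit 342) .nil))))) (.g (nat_lit 0) (.e (nat_lit 91633) (nat_lit 0) .nil) .nil)))) (.nd (nat_lit 9) 
(.lf (nat_lit 472545) (.g (nat_lit 3161) (.e (nat_lit 3714) (nat_lit 227) (.e (nat_lit 778316) (nat_lit 3) (.e (nat_lit 57480) (nat_lit 28) (.e (nat_lit 557107) (nat_lit 15) (.e (nat_lit 188447) (nat_lit 22) (.e (nat_lit 196666) (nat_lit 13) (.e (nat_lit 65639) (nat_lit 15) .nil))))))) (.g (nat_lit 1) (.e (nat_lit 90742) (nat_lit 0) .nil) .nil))) 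
(.lf (nat_lit 473057) (.g (nat_lit 2683) (.e (nat_lit 3469) (nat_lit 217) (.e (nat_lit 696344) (nat_lit 8) (.e (nat_lit 172106) (nat_lit 10) (.e (nat_lit 434288) (nat_lit 43) (.e (nat_lit 696346) (nat_lit 10) (.e (nat_lit 188439) (nat_lit 20) .nil)))))) (.g (nat_lit 1) (.e (nat_lit 92189) (nat_lit 0) .nil) .nil)))))))) 
(.nd (nat_lit 5) (.nd (nat_lit 6) (.nd (nat_lit 7) (.nd (nat_lit 8) (.nd (nat_lit 9) 
(.lf (nat_lit 472081) (.g (nat_lit 2308) (.e (nat_lit 3409) (nat_lit 212) (.e (nat_lit 655378) (nat_lit 4) (.e (nat_lit 172126) (nat_lit 14) (.e (nat_lit 491571) (nat_lit 13) (.e (nat_lit 393274) (nat_lit 23) .nil))))) (.g (nat_lit 0) (.e (nat_lit 88499) (nat_lit 0) .nil) .nil))) 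
(.lf (nat_lit 472593) (.g (nat_lit 2908) (.e (nat_lit 3724) (nat_lit 227) (.e (nat_lit 778466) (nat_lit 11) (.e (nat_lit 24617) (nat_lit 7) (.e (nat_lit 319534) (nat_lit 16) (.e (nat_lit 286756) (nat_lit 10) (.e (nat_lit 344169) (nat_lit 40) (.e (nat_lit 671770) (nat_lit 9) (.e (nat_lit 2419) (nat_lit 157) .nil)))))))) (.g (nat_lit 1) (.e (nat_lit 90795) (nat_lit 0) .nil) .nil)))) 
(.nd (nat_lit 9) 
(.lf (nat_lit 472337) (.g (nat_lit 2725) (.e (nat_lit 3632) (nat_lit 227) (.e (nat_lit 778318) (nat_lit 3) (.e (nat_lit 57476) (nat_lit 28) (.e (nat_lit 557097) (nat_lit 13) (.e (nat_lit 172115) (nat_lit 10) (.e (nat_lit 434231) (nat_lit 23) (.e (nat_lit 532528) (nat_lit 9) (.e (nat_lit 336263) (nat_lit 15) .nil)))))))) (.g (nat_lit 1) (.e (nat_lit 90478) (nat_lit 0) .nil) .nil))) 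
(.lf (nat_lit 472849) (.g (nat_lit 2625) (.e (nat_lit 3468) (nat_lit 217) (.e (nat_lit 696344) (nat_lit 8) (.e (nat_lit 172079) (nat_lit 7) (.e (nat_lit 409645) (nat_lit 18) (.e (nat_lit 303137) (nat_lit 10) (.e (nat_lit 434275) (nat_lit 39) (.e (nat_lit 663580) (nat_lit 9) (.e (nat_lit 2416) (nat_lit 157) .nil)))))))) (.g (nat_lit 1) (.e (nat_lit 91717) (nat_lit 0) .nil) .nil))))) 
(.nd (nat_lit 8) (.nd (nat_lit 9) 
(.lf (nat_lit 472209) (.g (nat_lit 4789) (.e (nat_lit 3629) (nat_lit 227) (.e (nat_lit 778317) (nat_lit 3) (.e (nat_lit 57476) (nat_lit 28) (.e (nat_lit 557095) (nat_lit 13) (.e (nat_lit 172106) (nat_lit 10) (.e (nat_lit 434231) (nat_lit 23) (.e (nat_lit 532535) (nat_lit 9) (.e (nat_lit 336295) (nat_lit 15) .nil)))))))) (.g (nat_lit 1) (.e (nat_lit 90346) (nat_lit 0) .nil) .nil))) 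
(.lf (nat_lit 472721) (.g (nat_lit 3542) (.e (nat_lit 3453) (nat_lit 216) (.e (nat_lit 688178) (nat_lit 16) (.e (nat_lit 65568) (nat_lit 2) (.e (nat_lit 90170) (nat_lit 13) (.e (nat_lit 172106) (nat_lit 10) (.e (nat_lit 434231) (nat_lit 23) (.e (nat_lit 540416) (nat_lit 17) .nil))))))) (.g (nat_lit 1) (.e (nat_lit 91400) (nat_lit 0) .nil) .nil)))) (.nd (nat_lit 9) 
(.lf (nat_lit 472465) (.g (nat_lit 1534) (.e (nat_lit 3653) (nat_lit 227) (.e (nat_lit 778462) (nat_lit 11) (.e (nat_lit 24628) (nat_lit 9) (.e (nat_lit 336443) (nat_lit 32) (.e (nat_lit 466971) (nat_lit 21) .nil))))) (.g (nat_lit 0) (.e (nat_lit 90615) (nat_lit 0) .nil) .nil))) 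
(.lf (nat_lit 472977) (.g (nat_lit 2625) (.e (nat_lit 3469) (nat_lit 217) (.e (nat_lit 696344) (nat_lit 8) (.e (nat_lit 172081) (nat_lit 7) (.e (nat_lit 409649) (nat_lit 18) (.e (nat_lit 303140) (nat_lit 10) (.e (nat_lit 434275) (nat_lit 39) (.e (nat_lit 663572) (nat_lit 9) (.e (nat_lit 2467) (nat_lit 157) .nil)))))))) (.g (nat_lit 1) (.e (nat_lit 92105) (nat_lit 0) .nil) .nil)))))) 
(.nd (nat_lit 7) (.nd (nat_lit 8) (.nd (nat_lit 9) 
(.lf (nat_lit 472145) (.g (nat_lit 2451) (.e (nat_lit 3613) (nat_lit 226) (.e (nat_lit 770072) (nat_lit 8) (.e (nat_lit 65571) (nat_lit 3) (.e (nat_lit 98371) (nat_lit 28) .nil)))) (.g (nat_lit 0) (.e (nat_lit 90273) (nat_lit 0) .nil) .nil))) 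
(.lf (nat_lit 472657) (.g (nat_lit 1724) (.e (nat_lit 3747) (nat_lit 228) (.e (nat_lit 786473) (nat_lit 27) (.e (nat_lit 336429) (nat_lit 29) (.e (nat_lit 442425) (nat_lit 23) (.e (nat_lit 204821) (nat_lit 17) (.e (nat_lit 7936) (nat_lit 153) (.e (nat_lit 794655) (nat_lit 20) .nil))))))) (.g (nat_lit 1) (.e (nat_lit 91093) (nat_lit 0) .nil) .nil)))) (.nd (nat_lit 9) 
(.lf (nat_lit 472401) (.g (nat_lit 2036) (.e (nat_lit 3632) (nat_lit 227) (.e (nat_lit 778323) (nat_lit 5) (.e (nat_lit 81664) (nat_lit 36) (.e (nat_lit 172150) (nat_lit 27) (.e (nat_lit 336078) (nat_lit 9) (.e (nat_lit 336270) (nat_lit 15) .nil)))))) (.g (nat_lit 1) (.e (nat_lit 90543) (nat_lit 0) .nil) .nil))) 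
(.lf (nat_lit 472913) (.g (nat_lit 3958) (.e (nat_lit 3469) (nat_lit 217) (.e (nat_lit 696344) (nat_lit 8) (.e (nat_lit 172065) (nat_lit 3) (.e (nat_lit 204855) (nat_lit 26) (.e (nat_lit 336176) (nat_lit 10) (.e (nat_lit 344130) (nat_lit 26) (.e (nat_lit 557067) (nat_lit 9) (.e (nat_lit 2467) (nat_lit 157) .nil)))))))) (.g (nat_lit 1) (.e (nat_lit 92041) (nat_lit 0) .nil) .nil))))) 
(.nd (nat_lit 8) (.nd (nat_lit 9) 
(.lf (nat_lit 472273) (.g (nat_lit 2586) (.e (nat_lit 3631) (nat_lit 227) (.e (nat_lit 778318) (nat_lit 3) (.e (nat_lit 57476) (nat_lit 28) (.e (nat_lit 557097) (nat_lit 13) (.e (nat_lit 172115) (nat_lit 10) (.e (nat_lit 434231) (nat_lit 23) (.e (nat_lit 532535) (nat_lit 9) (.e (nat_lit 336282) (nat_lit 15) .nil)))))))) (.g (nat_lit 1) (.e (nat_lit 90412) (nat_lit 0) .nil) .nil))) 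
(.lf (nat_lit 472785) (.g (nat_lit 2003) (.e (nat_lit 3467) (nat_lit 217) (.e (nat_lit 696344) (nat_lit 8) (.e (nat_lit 172106) (nat_lit 10) (.e (nat_lit 434209) (nat_lit 18) (.e (nat_lit 6273) (nat_lit 337) (.e (nat_lit 2645) (nat_lit 166) (.e (nat_lit 188439) (nat_lit 20) .nil))))))) (.g (nat_lit 1) (.e (nat_lit 91552) (nat_lit 0) .nil) .nil)))) (.nd (nat_lit 9) 
(.lf (nat_lit 472529) (.g (nat_lit 3151) (.e (nat_lit 3711) (nat_lit 227) (.e (nat_lit 778469) (nat_lit 11) (.e (nat_lit 24658) (nat_lit 13) (.e (nat_lit 393281) (nat_lit 23) (.e (nat_lit 426100) (nat_lit 1) (.e (nat_lit 164330) (nat_lit 230) (.e (nat_lit 163846) (nat_lit 0) .nil))))))) (.g (nat_lit 1) (.e (nat_lit 90724) (nat_lit 0) .nil) .nil))) 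
(.lf (nat_lit 473041) (.g (nat_lit 2484) (.e (nat_lit 3469) (nat_lit 217) (.e (nat_lit 696344) (nat_lit 8) (.e (nat_lit 172106) (nat_lit 10) (.e (nat_lit 434209) (nat_lit 18) (.e (nat_lit 6284) (nat_lit 337) (.e (nat_lit 7936) (nat_lit 166) (.e (nat_lit 188435) (nat_lit 20) .nil))))))) (.g (nat_lit 1) (.e (nat_lit 92173) (nat_lit 0) .nil) .nil))))))) 
(.nd (nat_lit 6) (.nd (nat_lit 7) (.nd (nat_lit 8) (.nd (nat_lit 9) 
(.lf (nat_lit 472113) (.g (nat_lit 950) (.e (nat_lit 3604) (nat_lit 225) (.e (nat_lit 761914) (nat_lit 18) (.e (nat_lit 188455) (nat_lit 24) (.e (nat_lit 229627) (nat_lit 226) .nil)))) (.g (nat_lit 0) (.e (nat_lit 89192) (nat_lit 0) .nil) .nil))) 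
(.lf (nat_lit 472625) (.g (nat_lit 2422) (.e (nat_lit 3746) (nat_lit 228) (.e (nat_lit 786481) (nat_lit 30) (.e (nat_lit 360457) (nat_lit 0) (.e (nat_lit 5949) (nat_lit 322) (.e (nat_lit 57435) (nat_lit 17) (.e (nat_lit 376835) (nat_lit 0) .nil)))))) (.g (nat_lit 1) (.e (nat_lit 91059) (nat_lit 0) .nil) .nil)))) (.nd (nat_lit 9) 
(.lf (nat_lit 472369) (.g (nat_lit 2061) (.e (nat_lit 3632) (nat_lit 227) (.e (nat_lit 778323) (nat_lit 5) (.e (nat_lit 73781) (nat_lit 32) (.e (nat_lit 3089) (nat_lit 191) (.e (nat_lit 483391) (nat_lit 23) (.e (nat_lit 336277) (nat_lit 15) .nil)))))) (.g (nat_lit 1) (.e (nat_lit 90511) (nat_lit 0) .nil) .nil))) 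
(.lf (nat_lit 472881) (.g (nat_lit 2173) (.e (nat_lit 3468) (nat_lit 217) (.e (nat_lit 696344) (nat_lit 8) (.e (nat_lit 172112) (nat_lit 10) (.e (nat_lit 434289) (nat_lit 43) (.e (nat_lit 696346) (nat_lit 10) (.e (nat_lit 188439) (nat_lit 20) .nil)))))) (.g (nat_lit 1) (.e (nat_lit 91771) (nat_lit 0) .nil) .nil))))) (.nd (nat_lit 8) (.nd (nat_lit 9) 
(.lf (nat_lit 472241) (.g (nat_lit 4832) (.e (nat_lit 3630) (nat_lit 227) (.e (nat_lit 778318) (nat_lit 3) (.e (nat_lit 57475) (nat_lit 28) (.e (nat_lit 557100) (nat_lit 13) (.e (nat_lit 172106) (nat_lit 10) (.e (nat_lit 434231) (nat_lit 23) (.e (nat_lit 532535) (nat_lit 9) (.e (nat_lit 336295) (nat_lit 15) .nil)))))))) (.g (nat_lit 1) (.e (nat_lit 90380) (nat_lit 0) .nil) .nil))) 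
(.lf (nat_lit 472753) (.g (nat_lit 3924) (.e (nat_lit 3464) (nat_lit 217) (.e (nat_lit 696344) (nat_lit 8) (.e (nat_lit 172079) (nat_lit 7) (.e (nat_lit 409649) (nat_lit 18) (.e (nat_lit 303140) (nat_lit 10) (.e (nat_lit 434275) (nat_lit 39) (.e (nat_lit 663580) (nat_lit 9) (.e (nat_lit 2478) (nat_lit 157) .nil)))))))) (.g (nat_lit 1) (.e (nat_lit 91489) (nat_lit 0) .nil) .nil)))) 
(.nd (nat_lit 9) 
(.lf (nat_lit 472497) (.g (nat_lit 3049) (.e (nat_lit 3703) (nat_lit 227) (.e (nat_lit 778466) (nat_lit 11) (.e (nat_lit 24617) (nat_lit 7) (.e (nat_lit 319533) (nat_lit 16) (.e (nat_lit 286753) (nat_lit 10) .nil))))) (.g (nat_lit 0) (.e (nat_lit 90692) (nat_lit 0) .nil) .nil))) 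
(.lf (nat_lit 473009) (.g (nat_lit 2694) (.e (nat_lit 3469) (nat_lit 217) (.e (nat_lit 696344) (nat_lit 8) (.e (nat_lit 172082) (nat_lit 7) (.e (nat_lit 409649) (nat_lit 18) (.e (nat_lit 303140) (nat_lit 10) (.e (nat_lit 434275) (nat_lit 39) (.e (nat_lit 663572) (nat_lit 9) (.e (nat_lit 2467) (nat_lit 157) .nil)))))))) (.g (nat_lit 1) (.e (nat_lit 92137) (nat_lit 0) .nil) .nil)))))) 
(.nd (nat_lit 7) (.nd (nat_lit 8) (.nd (nat_lit 9) 
(.lf (nat_lit 472177) (.g (nat_lit 3280) (.e (nat_lit 3617) (nat_lit 227) (.e (nat_lit 778462) (nat_lit 11) (.e (nat_lit 24604) (nat_lit 2) (.e (nat_lit 90185) (nat_lit 17) (.e (nat_lit 237616) (nat_lit 12) (.e (nat_lit 475177) (nat_lit 24) (.e (nat_lit 516097) (nat_lit 0) .nil))))))) (.g (nat_lit 1) (.e (nat_lit 90308) (nat_lit 0) .nil) .nil))) 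
(.lf (nat_lit 472689) (.g (nat_lit 1555) (.e (nat_lit 3748) (nat_lit 228) (.e (nat_lit 786483) (nat_lit 30) (.e (nat_lit 360457) (nat_lit 0) (.e (nat_lit 5948) (nat_lit 322) (.e (nat_lit 57435) (nat_lit 17) (.e (nat_lit 376835) (nat_lit 0) .nil)))))) (.g (nat_lit 1) (.e (nat_lit 91169) (nat_lit 0) .nil) .nil)))) (.nd (nat_lit 9) 
(.lf (nat_lit 472433) (.g (nat_lit 3746) (.e (nat_lit 3634) (nat_lit 227) (.e (nat_lit 778318) (nat_lit 3) (.e (nat_lit 57476) (nat_lit 28) (.e (nat_lit 557107) (nat_lit 15) (.e (nat_lit 188450) (nat_lit 23) (.e (nat_lit 204852) (nat_lit 26) (.e (nat_lit 336257) (nat_lit 15) .nil))))))) (.g (nat_lit 1) (.e (nat_lit 90580) (nat_lit 0) .nil) .nil))) 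
(.lf (nat_lit 472945) (.g (nat_lit 2647) (.e (nat_lit 3469) (nat_lit 217) (.e (nat_lit 696344) (nat_lit 8) (.e (nat_lit 172079) (nat_lit 7) (.e (nat_lit 409645) (nat_lit 18) (.e (nat_lit 303139) (nat_lit 10) (.e (nat_lit 434276) (nat_lit 39) (.e (nat_lit 663574) (nat_lit 9) (.e (nat_lit 2467) (nat_lit 157) .nil)))))))) (.g (nat_lit 1) (.e (nat_lit 92073) (nat_lit 0) .nil) .nil))))) 
(.nd (nat_lit 8) (.nd (nat_lit 9) 
(.lf (nat_lit 472305) (.g (nat_lit 3267) (.e (nat_lit 3631) (nat_lit 227) (.e (nat_lit 778323) (nat_lit 5) (.e (nat_lit 73782) (nat_lit 32) (.e (nat_lit 3090) (nat_lit 191) (.e (nat_lit 483380) (nat_lit 23) (.e (nat_lit 336265) (nat_lit 15) .nil)))))) (.g (nat_lit 1) (.e (nat_lit 90445) (nat_lit 0) .nil) .nil))) 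
(.lf (nat_lit 472817) (.g (nat_lit 2655) (.e (nat_lit 3468) (nat_lit 217) (.e (nat_lit 696343) (nat_lit 8) (.e (nat_lit 172112) (nat_lit 10) (.e (nat_lit 434289) (nat_lit 43) (.e (nat_lit 696346) (nat_lit 10) (.e (nat_lit 188438) (nat_lit 20) .nil)))))) (.g (nat_lit 1) (.e (nat_lit 91655) (nat_lit 0) .nil) .nil)))) (.nd (nat_lit 9) 
(.lf (nat_lit 472561) (.g (nat_lit 1346) (.e (nat_lit 3715) (nat_lit 227) (.e (nat_lit 778325) (nat_lit 6) (.e (nat_lit 81924) (nat_lit 0) (.e (nat_lit 3631) (nat_lit 227) (.e (nat_lit 778327) (nat_lit 6) (.e (nat_lit 81920) (nat_lit 0) .nil)))))) (.g (nat_lit 1) (.e (nat_lit 90759) (nat_lit 0) .nil) .nil))) 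
(.lf (nat_lit 473073) (.g (nat_lit 1751) (.e (nat_lit 3469) (nat_lit 217) (.e (nat_lit 696344) (nat_lit 8) (.e (nat_lit 172113) (nat_lit 10) (.e (nat_lit 434203) (nat_lit 18) (.e (nat_lit 6416) (nat_lit 341) (.e (nat_lit 163920) (nat_lit 14) (.e (nat_lit 442412) (nat_lit 20) .nil))))))) (.g (nat_lit 1) (.e (nat_lit 92205) (nat_lit 0) .nil) .nil))))))))) 
(.nd (nat_lit 4) (.nd (nat_lit 5) (.nd (nat_lit 6) (.nd (nat_lit 7) (.nd (nat_lit 8) 
(.nd (nat_lit 9) 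
(.lf (nat_lit 472073) (.g (nat_lit 414) (.e (nat_lit 3409) (nat_lit 212) (.e (nat_lit 655378) (nat_lit 4) (.e (nat_lit 172126) (nat_lit 14) .nil))) (.g (nat_lit 0) (.e (nat_lit 88491) (nat_lit 0) .nil) .nil))) 
(.lf (nat_lit 472585) (.g (nat_lit 2122) (.e (nat_lit 3720) (nat_lit 227) (.e (nat_lit 778466) (nat_lit 11) (.e (nat_lit 24617) (nat_lit 7) (.e (nat_lit 319534) (nat_lit 16) .nil)))) (.g (nat_lit 0) (.e (nat_lit 90784) (nat_lit 0) .nil) .nil)))) (.nd (nat_lit 9) 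
(.lf (nat_lit 472329) (.g (nat_lit 2026) (.e (nat_lit 3632) (nat_lit 227) (.e (nat_lit 778317) (nat_lit 3) (.e (nat_lit 57477) (nat_lit 28) (.e (nat_lit 557095) (nat_lit 13) (.e (nat_lit 172115) (nat_lit 10) (.e (nat_lit 434231) (nat_lit 23) (.e (nat_lit 532535) (nat_lit 9) (.e (nat_lit 336295) (nat_lit 15) .nil)))))))) (.g (nat_lit 1) (.e (nat_lit 90470) (nat_lit 0) .nil) .nil))) 
(.lf (nat_lit 472841) (.g (nat_lit 3121) (.e (nat_lit 3468) (nat_lit 217) (.e (nat_lit 696343) (nat_lit 8) (.e (nat_lit 172116) (nat_lit 10) (.e (nat_lit 434289) (nat_lit 43) (.e (nat_lit 696346) (nat_lit 10) (.e (nat_lit 188434) (nat_lit 20) .nil)))))) (.g (nat_lit 1) (.e (nat_lit 91708) (nat_lit 0) .nil) .nil))))) (.nd (nat_lit 8) (.nd (nat_lit 9) 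
(.lf (nat_lit 472201) (.g (nat_lit 3062) (.e (nat_lit 3619) (nat_lit 227) (.e (nat_lit 778324) (nat_lit 5) (.e (nat_lit 73781) (nat_lit 32) (.e (nat_lit 3089) (nat_lit 191) (.e (nat_lit 483383) (nat_lit 23) (.e (nat_lit 336306) (nat_lit 15) .nil)))))) (.g (nat_lit 1) (.e (nat_lit 90338) (nat_lit 0) .nil) .nil))) 
(.lf (nat_lit 472713) (.g (nat_lit 4371) (.e (nat_lit 3771) (nat_lit 229) (.e (nat_lit 794673) (nat_lit 23) (.e (nat_lit 204830) (nat_lit 18) (.e (nat_lit 57926) (nat_lit 282) (.e (nat_lit 163875) (nat_lit 3) (.e (nat_lit 204872) (nat_lit 30) (.e (nat_lit 368676) (nat_lit 21) (.e (nat_lit 516100) (nat_lit 0) .nil)))))))) (.g (nat_lit 1) (.e (nat_lit 91295) (nat_lit 0) .nil) .nil)))) 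
(.nd (nat_lit 9) 
(.lf (nat_lit 472457) (.g (nat_lit 1791) (.e (nat_lit 3651) (nat_lit 227) (.e (nat_lit 778462) (nat_lit 11) (.e (nat_lit 24608) (nat_lit 3) (.e (nat_lit 98363) (nat_lit 26) (.e (nat_lit 426318) (nat_lit 12) .nil))))) (.g (nat_lit 0) (.e (nat_lit 90604) (nat_lit 0) .nil) .nil))) 
(.lf (nat_lit 472969) (.g (nat_lit 5159) (.e (nat_lit 3469) (nat_lit 217) (.e (nat_lit 696344) (nat_lit 8) (.e (nat_lit 172079) (nat_lit 7) (.e (nat_lit 409649) (nat_lit 18) (.e (nat_lit 303140) (nat_lit 10) (.e (nat_lit 434275) (nat_lit 39) (.e (nat_lit 663580) (nat_lit 9) (.e (nat_lit 2416) (nat_lit 157) .nil)))))))) (.g (nat_lit 1) (.e (nat_lit 92097) (nat_lit 0) .nil) .nil)))))) 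
(.nd (nat_lit 7) (.nd (nat_lit 8) (.nd (nat_lit 9) 
(.lf (nat_lit 472137) (.g (nat_lit 2101) (.e (nat_lit 3608) (nat_lit 226) (.e (nat_lit 770072) (nat_lit 8) (.e (nat_lit 65571) (nat_lit 3) (.e (nat_lit 98380) (nat_lit 31) .nil)))) (.g (nat_lit 0) (.e (nat_lit 90263) (nat_lit 0) .nil) .nil))) 
(.lf (nat_lit 472649) (.g (nat_lit 3519) (.e (nat_lit 3747) (nat_lit 228) (.e (nat_lit 786473) (nat_lit 27) (.e (nat_lit 336235) (nat_lit 14) (.e (nat_lit 401435) (nat_lit 9) (.e (nat_lit 426540) (nat_lit 29) (.e (nat_lit 352262) (nat_lit 0) .nil)))))) (.g (nat_lit 1) (.e (nat_lit 91085) (nat_lit 0) .nil) .nil)))) (.nd (nat_lit 9) 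
(.lf (nat_lit 472393) (.g (nat_lit 3509) (.e (nat_lit 3632) (nat_lit 227) (.e (nat_lit 778323) (nat_lit 5) (.e (nat_lit 73782) (nat_lit 32) (.e (nat_lit 3090) (nat_lit 191) (.e (nat_lit 483380) (nat_lit 23) (.e (nat_lit 336283) (nat_lit 15) .nil)))))) (.g (nat_lit 1) (.e (nat_lit 90535) (nat_lit 0) .nil) .nil))) 
(.lf (nat_lit 472905) (.g (nat_lit 2903) (.e (nat_lit 3468) (nat_lit 217) (.e (nat_lit 696344) (nat_lit 8) (.e (nat_lit 172116) (nat_lit 10) (.e (nat_lit 434289) (nat_lit 43) (.e (nat_lit 696346) (nat_lit 10) (.e (nat_lit 188440) (nat_lit 20) .nil)))))) (.g (nat_lit 1) (.e (nat_lit 91827) (nat_lit 0) .nil) .nil))))) (.nd (nat_lit 8) (.nd (nat_lit 9) 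
(.lf (nat_lit 472265) (.g (nat_lit 2320) (.e (nat_lit 3631) (nat_lit 227) (.e (nat_lit 778318) (nat_lit 3) (.e (nat_lit 57476) (nat_lit 28) (.e (nat_lit 557097) (nat_lit 13) (.e (nat_lit 172097) (nat_lit 9) (.e (nat_lit 426140) (nat_lit 3) (.e (nat_lit 204855) (nat_lit 26) (.e (nat_lit 336282) (nat_lit 15) .nil)))))))) (.g (nat_lit 1) (.e (nat_lit 90404) (nat_lit 0) .nil) .nil))) 
(.lf (nat_lit 472777) (.g (nat_lit 2132) (.e (nat_lit 3467) (nat_lit 217) (.e (nat_lit 696344) (nat_lit 8) (.e (nat_lit 172079) (nat_lit 7) (.e (nat_lit 409645) (nat_lit 18) (.e (nat_lit 303140) (nat_lit 10) .nil))))) (.g (nat_lit 0) (.e (nat_lit 91540) (nat_lit 0) .nil) .nil)))) (.nd (nat_lit 9) 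
(.lf (nat_lit 472521) (.g (nat_lit 1826) (.e (nat_lit 3711) (nat_lit 227) (.e (nat_lit 778469) (nat_lit 11) (.e (nat_lit 24604) (nat_lit 2) (.e (nat_lit 90185) (nat_lit 17) (.e (nat_lit 237601) (nat_lit 9) (.e (nat_lit 426436) (nat_lit 18) (.e (nat_lit 98323) (nat_lit 17) .nil))))))) (.g (nat_lit 1) (.e (nat_lit 90716) (nat_lit 0) .nil) .nil))) 
(.lf (nat_lit 473033) (.g (nat_lit 2726) (.e (nat_lit 3469) (nat_lit 217) (.e (nat_lit 696344) (nat_lit 8) (.e (nat_lit 172106) (nat_lit 10) (.e (nat_lit 434209) (nat_lit 18) (.e (nat_lit 6271) (nat_lit 337) (.e (nat_lit 2645) (nat_lit 166) (.e (nat_lit 188439) (nat_lit 20) .nil))))))) (.g (nat_lit 1) (.e (nat_lit 92165) (nat_lit 0) .nil) .nil))))))) 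
(.nd (nat_lit 6) (.nd (nat_lit 7) (.nd (nat_lit 8) (.nd (nat_lit 9) 
(.lf (nat_lit 472105) (.g (nat_lit 1324) (.e (nat_lit 3601) (nat_lit 225) (.e (nat_lit 761912) (nat_lit 18) (.e (nat_lit 196352) (nat_lit 0) (.e (nat_lit 2030) (nat_lit 140) (.e (nat_lit 688184) (nat_lit 18) (.e (nat_lit 89856) (nat_lit 0) .nil)))))) (.g (nat_lit 1) (.e (nat_lit 88636) (nat_lit 0) .nil) .nil))) 
(.lf (nat_lit 472617) (.g (nat_lit 1924) (.e (nat_lit 3746) (nat_lit 228) (.e (nat_lit 786480) (nat_lit 29) (.e (nat_lit 352318) (nat_lit 24) (.e (nat_lit 123194) (nat_lit 266) (.e (nat_lit 57435) (nat_lit 17) (.e (nat_lit 376835) (nat_lit 0) .nil)))))) (.g (nat_lit 1) (.e (nat_lit 91051) (nat_lit 0) .nil) .nil)))) (.nd (nat_lit 9) 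
(.lf (nat_lit 472361) (.g (nat_lit 2165) (.e (nat_lit 3632) (nat_lit 227) (.e (nat_lit 778320) (nat_lit 4) (.e (nat_lit 65630) (nat_lit 14) (.e (nat_lit 401435) (nat_lit 9) (.e (nat_lit 426538) (nat_lit 29) .nil))))) (.g (nat_lit 0) (.e (nat_lit 90502) (nat_lit 0) .nil) .nil))) 
(.lf (nat_lit 472873) (.g (nat_lit 3030) (.e (nat_lit 3468) (nat_lit 217) (.e (nat_lit 696344) (nat_lit 8) (.e (nat_lit 172106) (nat_lit 10) (.e (nat_lit 434289) (nat_lit 43) (.e (nat_lit 696346) (nat_lit 10) (.e (nat_lit 188438) (nat_lit 20) .nil)))))) (.g (nat_lit 1) (.e (nat_lit 91757) (nat_lit 0) .nil) .nil))))) (.nd (nat_lit 8) (.nd (nat_lit 9) 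
(.lf (nat_lit 472233) (.g (nat_lit 809) (.e (nat_lit 3629) (nat_lit 227) (.e (nat_lit 778327) (nat_lit 6) (.e (nat_lit 81922) (nat_lit 0) (.e (nat_lit 3630) (nat_lit 227) (.e (nat_lit 778326) (nat_lit 6) (.e (nat_lit 81924) (nat_lit 0) .nil)))))) (.g (nat_lit 1) (.e (nat_lit 90372) (nat_lit 0) .nil) .nil))) 
(.lf (nat_lit 472745) (.g (nat_lit 3581) (.e (nat_lit 3464) (nat_lit 217) (.e (nat_lit 696343) (nat_lit 8) (.e (nat_lit 172126) (nat_lit 14) (.e (nat_lit 491566) (nat_lit 12) (.e (nat_lit 385107) (nat_lit 51) (.e (nat_lit 794684) (nat_lit 25) (.e (nat_lit 221198) (nat_lit 20) .nil))))))) (.g (nat_lit 1) (.e (nat_lit 91481) (nat_lit 0) .nil) .nil)))) (.nd (nat_lit 9) 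
(.lf (nat_lit 472489) (.g (nat_lit 2235) (.e (nat_lit 3686) (nat_lit 227) (.e (nat_lit 778466) (nat_lit 11) (.e (nat_lit 24617) (nat_lit 7) (.e (nat_lit 319534) (nat_lit 16) .nil)))) (.g (nat_lit 0) (.e (nat_lit 90675) (nat_lit 0) .nil) .nil))) 
(.lf (nat_lit 473001) (.g (nat_lit 4719) (.e (nat_lit 3469) (nat_lit 217) (.e (nat_lit 696344) (nat_lit 8) (.e (nat_lit 172082) (nat_lit 7) (.e (nat_lit 409646) (nat_lit 18) (.e (nat_lit 303140) (nat_lit 10) (.e (nat_lit 434275) (nat_lit 39) (.e (nat_lit 663580) (nat_lit 9) (.e (nat_lit 2416) (nat_lit 157) .nil)))))))) (.g (nat_lit 1) (.e (nat_lit 92129) (nat_lit 0) .nil) .nil)))))) 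
(.nd (nat_lit 7) (.nd (nat_lit 8) (.nd (nat_lit 9) 
(.lf (nat_lit 472169) (.g (nat_lit 2184) (.e (nat_lit 3617) (nat_lit 227) (.e (nat_lit 778318) (nat_lit 3) (.e (nat_lit 57476) (nat_lit 28) (.e (nat_lit 557107) (nat_lit 15) (.e (nat_lit 188450) (nat_lit 23) (.e (nat_lit 204852) (nat_lit 26) (.e (nat_lit 336259) (nat_lit 15) .nil))))))) (.g (nat_lit 1) (.e (nat_lit 90299) (nat_lit 0) .nil) .nil))) 
(.lf (nat_lit 472681) (.g (nat_lit 512) (.e (nat_lit 3748) (nat_lit 228) (.e (nat_lit 786480) (nat_lit 29) (.e (nat_lit 352285) (nat_lit 20) (.e (nat_lit 1999) (nat_lit 137) .nil)))) (.g (nat_lit 0) (.e (nat_lit 91156) (nat_lit 0) .nil) .nil)))) (.nd (nat_lit 9) 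
(.lf (nat_lit 472425) (.g (nat_lit 2081) (.e (nat_lit 3632) (nat_lit 227) (.e (nat_lit 778327) (nat_lit 6) (.e (nat_lit 81922) (nat_lit 0) (.e (nat_lit 3747) (nat_lit 228) (.e (nat_lit 786480) (nat_lit 29) (.e (nat_lit 352265) (nat_lit 0) .nil)))))) (.g (nat_lit 1) (.e (nat_lit 90571) (nat_lit 0) .nil) .nil))) 
(.lf (nat_lit 472937) (.g (nat_lit 3381) (.e (nat_lit 3469) (nat_lit 217) (.e (nat_lit 696344) (nat_lit 8) (.e (nat_lit 172079) (nat_lit 7) (.e (nat_lit 409645) (nat_lit 18) (.e (nat_lit 303137) (nat_lit 10) (.e (nat_lit 434275) (nat_lit 39) (.e (nat_lit 663574) (nat_lit 9) (.e (nat_lit 2457) (nat_lit 157) .nil)))))))) (.g (nat_lit 1) (.e (nat_lit 92065) (nat_lit 0) .nil) .nil))))) 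
(.nd (nat_lit 8) (.nd (nat_lit 9) 
(.lf (nat_lit 472297) (.g (nat_lit 1892) (.e (nat_lit 3631) (nat_lit 227) (.e (nat_lit 778323) (nat_lit 5) (.e (nat_lit 73781) (nat_lit 32) (.e (nat_lit 3090) (nat_lit 191) (.e (nat_lit 483387) (nat_lit 23) (.e (nat_lit 336291) (nat_lit 15) .nil)))))) (.g (nat_lit 1) (.e (nat_lit 90437) (nat_lit 0) .nil) .nil))) 
(.lf (nat_lit 472809) (.g (nat_lit 2415) (.e (nat_lit 3468) (nat_lit 217) (.e (nat_lit 696343) (nat_lit 8) (.e (nat_lit 172106) (nat_lit 10) (.e (nat_lit 434289) (nat_lit 43) (.e (nat_lit 696346) (nat_lit 10) (.e (nat_lit 188439) (nat_lit 20) .nil)))))) (.g (nat_lit 1) (.e (nat_lit 91643) (nat_lit 0) .nil) .nil)))) (.nd (nat_lit 9) 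
(.lf (nat_lit 472553) (.g (nat_lit 1957) (.e (nat_lit 3714) (nat_lit 227) (.e (nat_lit 778322) (nat_lit 5) (.e (nat_lit 73782) (nat_lit 32) (.e (nat_lit 2857) (nat_lit 184) (.e (nat_lit 426542) (nat_lit 29) (.e (nat_lit 352264) (nat_lit 0) .nil)))))) (.g (nat_lit 1) (.e (nat_lit 90750) (nat_lit 0) .nil) .nil))) 
(.lf (nat_lit 473065) (.g (nat_lit 2291) (.e (nat_lit 3469) (nat_lit 217) (.e (nat_lit 696344) (nat_lit 8) (.e (nat_lit 172113) (nat_lit 10) (.e (nat_lit 434203) (nat_lit 18) (.e (nat_lit 6250) (nat_lit 337) (.e (nat_lit 7936) (nat_lit 166) (.e (nat_lit 188438) (nat_lit 20) .nil))))))) (.g (nat_lit 1) (.e (nat_lit 92197) (nat_lit 0) .nil) .nil)))))))) 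
(.nd (nat_lit 5) (.nd (nat_lit 6) (.nd (nat_lit 7) (.nd (nat_lit 8) (.nd (nat_lit 9) 
(.lf (nat_lit 472089) (.g (nat_lit 1432) (.e (nat_lit 3409) (nat_lit 212) (.e (nat_lit 655380) (nat_lit 6) (.e (nat_lit 188438) (nat_lit 20) (.e (nat_lit 3409) (nat_lit 212) (.e (nat_lit 655380) (nat_lit 6) (.e (nat_lit 188440) (nat_lit 20) .nil)))))) (.g (nat_lit 1) (.e (nat_lit 88509) (nat_lit 0) .nil) .nil))) 
(.lf (nat_lit 472601) (.g (nat_lit 2528) (.e (nat_lit 3722) (nat_lit 227) (.e (nat_lit 778466) (nat_lit 11) (.e (nat_lit 24617) (nat_lit 7) (.e (nat_lit 319533) (nat_lit 16) .nil)))) (.g (nat_lit 0) (.e (nat_lit 90812) (nat_lit 0) .nil) .nil)))) (.nd (nat_lit 9) 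
(.lf (nat_lit 472345) (.g (nat_lit 3876) (.e (nat_lit 3632) (nat_lit 227) (.e (nat_lit 778318) (nat_lit 3) (.e (nat_lit 57476) (nat_lit 28) (.e (nat_lit 557107) (nat_lit 15) (.e (nat_lit 188447) (nat_lit 22) (.e (nat_lit 196665) (nat_lit 13) (.e (nat_lit 65637) (nat_lit 15) .nil))))))) (.g (nat_lit 1) (.e (nat_lit 90486) (nat_lit 0) .nil) .nil))) 
(.lf (nat_lit 472857) (.g (nat_lit 1562) (.e (nat_lit 3468) (nat_lit 217) (.e (nat_lit 696344) (nat_lit 8) (.e (nat_lit 172106) (nat_lit 10) (.e (nat_lit 434202) (nat_lit 18) (.e (nat_lit 6420) (nat_lit 341) .nil))))) (.g (nat_lit 0) (.e (nat_lit 91732) (nat_lit 0) .nil) .nil))))) (.nd (nat_lit 8) (.nd (nat_lit 9) 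
(.lf (nat_lit 472217) (.g (nat_lit 2754) (.e (nat_lit 3629) (nat_lit 227) (.e (nat_lit 778320) (nat_lit 4) (.e (nat_lit 65630) (nat_lit 14) (.e (nat_lit 401437) (nat_lit 9) (.e (nat_lit 426542) (nat_lit 29) (.e (nat_lit 352267) (nat_lit 0) .nil)))))) (.g (nat_lit 1) (.e (nat_lit 90354) (nat_lit 0) .nil) .nil))) 
(.lf (nat_lit 472729) (.g (nat_lit 2019) (.e (nat_lit 3459) (nat_lit 216) (.e (nat_lit 688139) (nat_lit 5) (.e (nat_lit 3085) (nat_lit 191) (.e (nat_lit 483337) (nat_lit 9) (.e (nat_lit 426300) (nat_lit 11) (.e (nat_lit 458786) (nat_lit 22) (.e (nat_lit 524291) (nat_lit 0) .nil))))))) (.g (nat_lit 1) (.e (nat_lit 91414) (nat_lit 0) .nil) .nil)))) (.nd (nat_lit 9) 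
(.lf (nat_lit 472473) (.g (nat_lit 1367) (.e (nat_lit 3664) (nat_lit 227) (.e (nat_lit 778462) (nat_lit 11) (.e (nat_lit 24604) (nat_lit 2) (.e (nat_lit 90178) (nat_lit 15) (.e (nat_lit 196352) (nat_lit 3) .nil))))) (.g (nat_lit 0) (.e (nat_lit 90629) (nat_lit 0) .nil) .nil))) 
(.lf (nat_lit 472985) (.g (nat_lit 2119) (.e (nat_lit 3469) (nat_lit 217) (.e (nat_lit 696344) (nat_lit 8) (.e (nat_lit 172082) (nat_lit 7) (.e (nat_lit 409646) (nat_lit 18) (.e (nat_lit 303135) (nat_lit 10) .nil))))) (.g (nat_lit 0) (.e (nat_lit 92113) (nat_lit 0) .nil) .nil)))))) (.nd (nat_lit 7) (.nd (nat_lit 8) (.nd (nat_lit 9) 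
(.lf (nat_lit 472153) (.g (nat_lit 2889) (.e (nat_lit 3613) (nat_lit 226) (.e (nat_lit 770072) (nat_lit 8) (.e (nat_lit 65586) (nat_lit 7) (.e (nat_lit 319531) (nat_lit 16) (.e (nat_lit 286748) (nat_lit 9) (.e (nat_lit 336295) (nat_lit 15) (.e (nat_lit 3757) (nat_lit 229) (.e (nat_lit 794638) (nat_lit 20) .nil)))))))) (.g (nat_lit 1) (.e (nat_lit 90281) (nat_lit 0) .nil) .nil))) 
(.lf (nat_lit 472665) (.g (nat_lit 3035) (.e (nat_lit 3748) (nat_lit 228) (.e (nat_lit 786456) (nat_lit 18) (.e (nat_lit 98367) (nat_lit 27) (.e (nat_lit 434248) (nat_lit 28) (.e (nat_lit 573482) (nat_lit 13) (.e (nat_lit 73472) (nat_lit 18) (.e (nat_lit 204803) (nat_lit 0) .nil))))))) (.g (nat_lit 1) (.e (nat_lit 91104) (nat_lit 0) .nil) .nil)))) (.nd (nat_lit 9) 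
(.lf (nat_lit 472409) (.g (nat_lit 3611) (.e (nat_lit 3632) (nat_lit 227) (.e (nat_lit 778324) (nat_lit 5) (.e (nat_lit 73781) (nat_lit 32) (.e (nat_lit 3090) (nat_lit 191) (.e (nat_lit 483380) (nat_lit 23) (.e (nat_lit 336301) (nat_lit 15) .nil)))))) (.g (nat_lit 1) (.e (nat_lit 90552) (nat_lit 0) .nil) .nil))) 
(.lf (nat_lit 472921) (.g (nat_lit 4389) (.e (nat_lit 3469) (nat_lit 217) (.e (nat_lit 696344) (nat_lit 8) (.e (nat_lit 172078) (nat_lit 7) (.e (nat_lit 409646) (nat_lit 18) (.e (nat_lit 303140) (nat_lit 10) (.e (nat_lit 434275) (nat_lit 39) (.e (nat_lit 663580) (nat_lit 9) (.e (nat_lit 2416) (nat_lit 157) .nil)))))))) (.g (nat_lit 1) (.e (nat_lit 92049) (nat_lit 0) .nil) .nil))))) 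
(.nd (nat_lit 8) (.nd (nat_lit 9) 
(.lf (nat_lit 472281) (.g (nat_lit 2802) (.e (nat_lit 3631) (nat_lit 227) (.e (nat_lit 778318) (nat_lit 3) (.e (nat_lit 57476) (nat_lit 28) (.e (nat_lit 557108) (nat_lit 15) (.e (nat_lit 188447) (nat_lit 22) (.e (nat_lit 196666) (nat_lit 13) (.e (nat_lit 65642) (nat_lit 15) .nil))))))) (.g (nat_lit 1) (.e (nat_lit 90420) (nat_lit 0) .nil) .nil))) 
(.lf (nat_lit 472793) (.g (nat_lit 985) (.e (nat_lit 3468) (nat_lit 217) (.e (nat_lit 696343) (nat_lit 8) (.e (nat_lit 172106) (nat_lit 10) (.e (nat_lit 434202) (nat_lit 18) .nil)))) (.g (nat_lit 0) (.e (nat_lit 91620) (nat_lit 0) .nil) .nil)))) (.nd (nat_lit 9) 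
(.lf (nat_lit 472537) (.g (nat_lit 2552) (.e (nat_lit 3714) (nat_lit 227) (.e (nat_lit 778316) (nat_lit 3) (.e (nat_lit 57477) (nat_lit 28) (.e (nat_lit 557108) (nat_lit 15) (.e (nat_lit 188449) (nat_lit 22) (.e (nat_lit 196666) (nat_lit 13) (.e (nat_lit 65639) (nat_lit 15) .nil))))))) (.g (nat_lit 1) (.e (nat_lit 90734) (nat_lit 0) .nil) .nil))) 
(.lf (nat_lit 473049) (.g (nat_lit 2600) (.e (nat_lit 3469) (nat_lit 217) (.e (nat_lit 696344) (nat_lit 8) (.e (nat_lit 172106) (nat_lit 10) (.e (nat_lit 434209) (nat_lit 18) (.e (nat_lit 6427) (nat_lit 342) (.e (nat_lit 229412) (nat_lit 14) (.e (nat_lit 442408) (nat_lit 20) .nil))))))) (.g (nat_lit 1) (.e (nat_lit 92181) (nat_lit 0) .nil) .nil))))))) 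
(.nd (nat_lit 6) (.nd (nat_lit 7) (.nd (nat_lit 8) (.nd (nat_lit 9) 
(.lf (nat_lit 472121) (.g (nat_lit 992) (.e (nat_lit 3605) (nat_lit 225) (.e (nat_lit 761905) (nat_lit 16) (.e (nat_lit 172113) (nat_lit 10) (.e (nat_lit 434269) (nat_lit 36) .nil)))) (.g (nat_lit 0) (.e (nat_lit 89937) (nat_lit 0) .nil) .nil))) 
(.lf (nat_lit 472633) (.g (nat_lit 783) (.e (nat_lit 3746) (nat_lit 228) (.e (nat_lit 786483) (nat_lit 30) (.e (nat_lit 360486) (nat_lit 18) (.e (nat_lit 671748) (nat_lit 0) .nil)))) (.g (nat_lit 0) (.e (nat_lit 91068) (nat_lit 0) .nil) .nil)))) (.nd (nat_lit 9) 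
(.lf (nat_lit 472377) (.g (nat_lit 1968) (.e (nat_lit 3632) (nat_lit 227) (.e (nat_lit 778323) (nat_lit 5) (.e (nat_lit 73781) (nat_lit 32) (.e (nat_lit 3090) (nat_lit 191) (.e (nat_lit 483381) (nat_lit 23) (.e (nat_lit 336286) (nat_lit 15) .nil)))))) (.g (nat_lit 1) (.e (nat_lit 90519) (nat_lit 0) .nil) .nil))) 
(.lf (nat_lit 472889) (.g (nat_lit 1740) (.e (nat_lit 3468) (nat_lit 217) (.e (nat_lit 696344) (nat_lit 8) (.e (nat_lit 172113) (nat_lit 10) (.e (nat_lit 434287) (nat_lit 43) (.e (nat_lit 696346) (nat_lit 10) (.e (nat_lit 188434) (nat_lit 20) .nil)))))) (.g (nat_lit 1) (.e (nat_lit 91802) (nat_lit 0) .nil) .nil))))) (.nd (nat_lit 8) (.nd (nat_lit 9) 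
(.lf (nat_lit 472249) (.g (nat_lit 590) (.e (nat_lit 3630) (nat_lit 227) (.e (nat_lit 778326) (nat_lit 6) (.e (nat_lit 81920) (nat_lit 0) (.e (nat_lit 3715) (nat_lit 227) (.e (nat_lit 778325) (nat_lit 6) .nil))))) (.g (nat_lit 0) (.e (nat_lit 90388) (nat_lit 0) .nil) .nil))) 
(.lf (nat_lit 472761) (.g (nat_lit 4210) (.e (nat_lit 3464) (nat_lit 217) (.e (nat_lit 696344) (nat_lit 8) (.e (nat_lit 172125) (nat_lit 14) (.e (nat_lit 491566) (nat_lit 12) (.e (nat_lit 385108) (nat_lit 51) (.e (nat_lit 794684) (nat_lit 25) (.e (nat_lit 221198) (nat_lit 20) .nil))))))) (.g (nat_lit 1) (.e (nat_lit 91497) (nat_lit 0) .nil) .nil)))) (.nd (nat_lit 9) 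
(.lf (nat_lit 472505) (.g (nat_lit 2437) (.e (nat_lit 3711) (nat_lit 227) (.e (nat_lit 786176) (nat_lit 3) (.e (nat_lit 57477) (nat_lit 28) (.e (nat_lit 557108) (nat_lit 15) (.e (nat_lit 188449) (nat_lit 22) (.e (nat_lit 196666) (nat_lit 13) (.e (nat_lit 65639) (nat_lit 15) .nil))))))) (.g (nat_lit 1) (.e (nat_lit 90700) (nat_lit 0) .nil) .nil))) 
(.lf (nat_lit 473017) (.g (nat_lit 2239) (.e (nat_lit 3469) (nat_lit 217) (.e (nat_lit 696344) (nat_lit 8) (.e (nat_lit 172087) (nat_lit 9) (.e (nat_lit 426482) (nat_lit 27) (.e (nat_lit 336060) (nat_lit 7) (.e (nat_lit 327424) (nat_lit 18) (.e (nat_lit 303111) (nat_lit 0) .nil))))))) (.g (nat_lit 1) (.e (nat_lit 92145) (nat_lit 0) .nil) .nil)))))) 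
(.nd (nat_lit 7) (.nd (nat_lit 8) (.nd (nat_lit 9) 
(.lf (nat_lit 472185) (.g (nat_lit 4564) (.e (nat_lit 3617) (nat_lit 227) (.e (nat_lit 778462) (nat_lit 11) (.e (nat_lit 24608) (nat_lit 3) (.e (nat_lit 98365) (nat_lit 26) (.e (nat_lit 426306) (nat_lit 12) (.e (nat_lit 475177) (nat_lit 24) (.e (nat_lit 516097) (nat_lit 0) .nil))))))) (.g (nat_lit 1) (.e (nat_lit 90316) (nat_lit 0) .nil) .nil))) 
(.lf (nat_lit 472697) (.g (nat_lit 1569) (.e (nat_lit 3771) (nat_lit 229) (.e (nat_lit 794668) (nat_lit 22) (.e (nat_lit 196666) (nat_lit 13) (.e (nat_lit 65569) (nat_lit 3) (.e (nat_lit 98334) (nat_lit 18) .nil))))) (.g (nat_lit 0) (.e (nat_lit 91271) (nat_lit 0) .nil) .nil)))) (.nd (nat_lit 9) 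
(.lf (nat_lit 472441) (.g (nat_lit 3990) (.e (nat_lit 3635) (nat_lit 227) (.e (nat_lit 778318) (nat_lit 3) (.e (nat_lit 57476) (nat_lit 28) (.e (nat_lit 557107) (nat_lit 15) (.e (nat_lit 188450) (nat_lit 23) (.e (nat_lit 204852) (nat_lit 26) (.e (nat_lit 336261) (nat_lit 15) .nil))))))) (.g (nat_lit 1) (.e (nat_lit 90588) (nat_lit 0) .nil) .nil))) 
(.lf (nat_lit 472953) (.g (nat_lit 2496) (.e (nat_lit 3469) (nat_lit 217) (.e (nat_lit 696344) (nat_lit 8) (.e (nat_lit 172079) (nat_lit 7) (.e (nat_lit 409645) (nat_lit 18) (.e (nat_lit 303141) (nat_lit 11) (.e (nat_lit 458777) (nat_lit 18) (.e (nat_lit 5969) (nat_lit 324) (.e (nat_lit 163850) (nat_lit 0) .nil)))))))) (.g (nat_lit 1) (.e (nat_lit 92081) (nat_lit 0) .nil) .nil))))) 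
(.nd (nat_lit 8) (.nd (nat_lit 9) 
(.lf (nat_lit 472313) (.g (nat_lit 1892) (.e (nat_lit 3631) (nat_lit 227) (.e (nat_lit 778323) (nat_lit 5) (.e (nat_lit 73782) (nat_lit 32) (.e (nat_lit 3090) (nat_lit 191) (.e (nat_lit 483387) (nat_lit 23) (.e (nat_lit 336292) (nat_lit 15) .nil)))))) (.g (nat_lit 1) (.e (nat_lit 90453) (nat_lit 0) .nil) .nil))) 
(.lf (nat_lit 472825) (.g (nat_lit 3407) (.e (nat_lit 3468) (nat_lit 217) (.e (nat_lit 696343) (nat_lit 8) (.e (nat_lit 172113) (nat_lit 10) (.e (nat_lit 434289) (nat_lit 43) (.e (nat_lit 696346) (nat_lit 10) (.e (nat_lit 188434) (nat_lit 20) .nil)))))) (.g (nat_lit 1) (.e (nat_lit 91683) (nat_lit 0) .nil) .nil)))) (.nd (nat_lit 9) 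
(.lf (nat_lit 472569) (.g (nat_lit 2723) (.e (nat_lit 3719) (nat_lit 227) (.e (nat_lit 778466) (nat_lit 11) (.e (nat_lit 24604) (nat_lit 2) (.e (nat_lit 90176) (nat_lit 15) (.e (nat_lit 196352) (nat_lit 3) .nil))))) (.g (nat_lit 0) (.e (nat_lit 90767) (nat_lit 0) .nil) .nil))) 
(.lf (nat_lit 473081) (.g (nat_lit 3347) (.e (nat_lit 3469) (nat_lit 217) (.e (nat_lit 696344) (nat_lit 8) (.e (nat_lit 172113) (nat_lit 10) (.e (nat_lit 434208) (nat_lit 18) (.e (nat_lit 6254) (nat_lit 337) (.e (nat_lit 2651) (nat_lit 166) (.e (nat_lit 188439) (nat_lit 20) .nil))))))) (.g (nat_lit 1) (.e (nat_lit 92213) (nat_lit 0) .nil) .nil)))))))))) 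
(.nd (nat_lit 3) (.nd (nat_lit 4) (.nd (nat_lit 5) (.nd (nat_lit 6) (.nd (nat_lit 7) 
(.nd (nat_lit 8) (.nd (nat_lit 9) 
(.lf (nat_lit 472069) (.g (nat_lit 3793) (.e (nat_lit 3409) (nat_lit 212) (.e (nat_lit 655378) (nat_lit 4) (.e (nat_lit 172125) (nat_lit 14) (.e (nat_lit 491571) (nat_lit 13) (.e (nat_lit 393280) (nat_lit 23) .nil))))) (.g (nat_lit 0) (.e (nat_lit 88487) (nat_lit 0) .nil) .nil))) 
(.lf (nat_lit 472581) (.g (nat_lit 3663) (.e (nat_lit 3719) (nat_lit 227) (.e (nat_lit 778466) (nat_lit 11) (.e (nat_lit 24608) (nat_lit 3) (.e (nat_lit 98380) (nat_lit 31) .nil)))) (.g (nat_lit 0) (.e (nat_lit 90779) (nat_lit 0) .nil) .nil)))) (.nd (nat_lit 9) 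
(.lf (nat_lit 472325) (.g (nat_lit 1993) (.e (nat_lit 3632) (nat_lit 227) (.e (nat_lit 778317) (nat_lit 3) (.e (nat_lit 57476) (nat_lit 28) (.e (nat_lit 557095) (nat_lit 13) (.e (nat_lit 172115) (nat_lit 10) .nil))))) (.g (nat_lit 0) (.e (nat_lit 90466) (nat_lit 0) .nil) .nil))) 
(.lf (nat_lit 472837) (.g (nat_lit 3530) (.e (nat_lit 3468) (nat_lit 217) (.e (nat_lit 696343) (nat_lit 8) (.e (nat_lit 172115) (nat_lit 10) (.e (nat_lit 434289) (nat_lit 43) (.e (nat_lit 696346) (nat_lit 10) (.e (nat_lit 188434) (nat_lit 20) .nil)))))) (.g (nat_lit 1) (.e (nat_lit 91703) (nat_lit 0) .nil) .nil))))) (.nd (nat_lit 8) (.nd (nat_lit 9) 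
(.lf (nat_lit 472197) (.g (nat_lit 1977) (.e (nat_lit 3619) (nat_lit 227) (.e (nat_lit 778318) (nat_lit 3) (.e (nat_lit 57476) (nat_lit 28) (.e (nat_lit 557107) (nat_lit 15) (.e (nat_lit 188451) (nat_lit 23) .nil))))) (.g (nat_lit 0) (.e (nat_lit 90334) (nat_lit 0) .nil) .nil))) 
(.lf (nat_lit 472709) (.g (nat_lit 3193) (.e (nat_lit 3771) (nat_lit 229) (.e (nat_lit 794673) (nat_lit 23) (.e (nat_lit 204829) (nat_lit 18) (.e (nat_lit 57927) (nat_lit 282) (.e (nat_lit 163873) (nat_lit 3) (.e (nat_lit 204872) (nat_lit 30) (.e (nat_lit 368676) (nat_lit 21) (.e (nat_lit 516100) (nat_lit 0) .nil)))))))) (.g (nat_lit 1) (.e (nat_lit 91291) (nat_lit 0) .nil) .nil)))) 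
(.nd (nat_lit 9) 
(.lf (nat_lit 472453) (.g (nat_lit 2089) (.e (nat_lit 3650) (nat_lit 227) (.e (nat_lit 778460) (nat_lit 11) (.e (nat_lit 24608) (nat_lit 3) (.e (nat_lit 98365) (nat_lit 26) (.e (nat_lit 426306) (nat_lit 12) .nil))))) (.g (nat_lit 0) (.e (nat_lit 90600) (nat_lit 0) .nil) .nil))) 
(.lf (nat_lit 472965) (.g (nat_lit 4356) (.e (nat_lit 3469) (nat_lit 217) (.e (nat_lit 696344) (nat_lit 8) (.e (nat_lit 172079) (nat_lit 7) (.e (nat_lit 409649) (nat_lit 18) (.e (nat_lit 303140) (nat_lit 10) (.e (nat_lit 434275) (nat_lit 39) (.e (nat_lit 663574) (nat_lit 9) (.e (nat_lit 2457) (nat_lit 157) .nil)))))))) (.g (nat_lit 1) (.e (nat_lit 92093) (nat_lit 0) .nil) .nil)))))) 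
(.nd (nat_lit 7) (.nd (nat_lit 8) (.nd (nat_lit 9) 
(.lf (nat_lit 472133) (.g (nat_lit 2233) (.e (nat_lit 3607) (nat_lit 226) (.e (nat_lit 770072) (nat_lit 8) (.e (nat_lit 65571) (nat_lit 3) (.e (nat_lit 98370) (nat_lit 28) .nil)))) (.g (nat_lit 0) (.e (nat_lit 90259) (nat_lit 0) .nil) .nil))) 
(.lf (nat_lit 472645) (.g (nat_lit 640) (.e (nat_lit 3747) (nat_lit 228) (.e (nat_lit 786473) (nat_lit 27) (.e (nat_lit 336116) (nat_lit 9) (.e (nat_lit 336329) (nat_lit 19) .nil)))) (.g (nat_lit 0) (.e (nat_lit 91081) (nat_lit 0) .nil) .nil)))) (.nd (nat_lit 9) 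
(.lf (nat_lit 472389) (.g (nat_lit 2457) (.e (nat_lit 3632) (nat_lit 227) (.e (nat_lit 778323) (nat_lit 5) (.e (nat_lit 73782) (nat_lit 32) (.e (nat_lit 3089) (nat_lit 191) (.e (nat_lit 483393) (nat_lit 23) (.e (nat_lit 336293) (nat_lit 15) .nil)))))) (.g (nat_lit 1) (.e (nat_lit 90531) (nat_lit 0) .nil) .nil))) 
(.lf (nat_lit 472901) (.g (nat_lit 3153) (.e (nat_lit 3468) (nat_lit 217) (.e (nat_lit 696344) (nat_lit 8) (.e (nat_lit 172115) (nat_lit 10) (.e (nat_lit 434289) (nat_lit 43) (.e (nat_lit 696346) (nat_lit 10) (.e (nat_lit 188440) (nat_lit 20) .nil)))))) (.g (nat_lit 1) (.e (nat_lit 91822) (nat_lit 0) .nil) .nil))))) (.nd (nat_lit 8) (.nd (nat_lit 9) 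
(.lf (nat_lit 472261) (.g (nat_lit 5204) (.e (nat_lit 3631) (nat_lit 227) (.e (nat_lit 778317) (nat_lit 3) (.e (nat_lit 57476) (nat_lit 28) (.e (nat_lit 557095) (nat_lit 13) (.e (nat_lit 172106) (nat_lit 10) (.e (nat_lit 434231) (nat_lit 23) (.e (nat_lit 532535) (nat_lit 9) (.e (nat_lit 336295) (nat_lit 15) .nil)))))))) (.g (nat_lit 1) (.e (nat_lit 90400) (nat_lit 0) .nil) .nil))) 
(.lf (nat_lit 472773) (.g (nat_lit 1073) (.e (nat_lit 3467) (nat_lit 217) (.e (nat_lit 696343) (nat_lit 8) (.e (nat_lit 172113) (nat_lit 10) (.e (nat_lit 434203) (nat_lit 18) .nil)))) (.g (nat_lit 0) (.e (nat_lit 91527) (nat_lit 0) .nil) .nil)))) (.nd (nat_lit 9) 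
(.lf (nat_lit 472517) (.g (nat_lit 2043) (.e (nat_lit 3711) (nat_lit 227) (.e (nat_lit 778322) (nat_lit 5) (.e (nat_lit 73782) (nat_lit 32) (.e (nat_lit 2857) (nat_lit 184) (.e (nat_lit 426542) (nat_lit 29) (.e (nat_lit 352264) (nat_lit 0) .nil)))))) (.g (nat_lit 1) (.e (nat_lit 90712) (nat_lit 0) .nil) .nil))) 
(.lf (nat_lit 473029) (.g (nat_lit 2317) (.e (nat_lit 3469) (nat_lit 217) (.e (nat_lit 696344) (nat_lit 8) (.e (nat_lit 172106) (nat_lit 10) (.e (nat_lit 434202) (nat_lit 18) (.e (nat_lit 6420) (nat_lit 341) (.e (nat_lit 163920) (nat_lit 14) (.e (nat_lit 442411) (nat_lit 20) .nil))))))) (.g (nat_lit 1) (.e (nat_lit 92161) (nat_lit 0) .nil) .nil))))))) 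
(.nd (nat_lit 6) (.nd (nat_lit 7) (.nd (nat_lit 8) (.nd (nat_lit 9) 
(.lf (nat_lit 472101) (.g (nat_lit 3773) (.e (nat_lit 3411) (nat_lit 212) (.e (nat_lit 655375) (nat_lit 3) (.e (nat_lit 163979) (nat_lit 30) (.e (nat_lit 573492) (nat_lit 15) (.e (nat_lit 81956) (nat_lit 23) (.e (nat_lit 98356) (nat_lit 26) (.e (nat_lit 425986) (nat_lit 0) .nil))))))) (.g (nat_lit 1) (.e (nat_lit 88533) (nat_lit 0) .nil) .nil))) 
(.lf (nat_lit 472613) (.g (nat_lit 2839) (.e (nat_lit 3746) (nat_lit 228) (.e (nat_lit 786480) (nat_lit 29) (.e (nat_lit 352316) (nat_lit 24) (.e (nat_lit 123198) (nat_lit 266) (.e (nat_lit 57435) (nat_lit 17) (.e (nat_lit 376835) (nat_lit 0) .nil)))))) (.g (nat_lit 1) (.e (nat_lit 91047) (nat_lit 0) .nil) .nil)))) (.nd (nat_lit 9) 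
(.lf (nat_lit 472357) (.g (nat_lit 3433) (.e (nat_lit 3632) (nat_lit 227) (.e (nat_lit 778318) (nat_lit 3) (.e (nat_lit 57476) (nat_lit 28) (.e (nat_lit 557108) (nat_lit 15) (.e (nat_lit 188452) (nat_lit 23) (.e (nat_lit 204855) (nat_lit 26) (.e (nat_lit 336282) (nat_lit 15) .nil))))))) (.g (nat_lit 1) (.e (nat_lit 90498) (nat_lit 0) .nil) .nil))) 
(.lf (nat_lit 472869) (.g (nat_lit 2130) (.e (nat_lit 3468) (nat_lit 217) (.e (nat_lit 696344) (nat_lit 8) (.e (nat_lit 172106) (nat_lit 10) (.e (nat_lit 434209) (nat_lit 18) (.e (nat_lit 6428) (nat_lit 342) .nil))))) (.g (nat_lit 0) (.e (nat_lit 91749) (nat_lit 0) .nil) .nil))))) (.nd (nat_lit 8) (.nd (nat_lit 9) 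
(.lf (nat_lit 472229) (.g (nat_lit 1842) (.e (nat_lit 3629) (nat_lit 227) (.e (nat_lit 778326) (nat_lit 6) (.e (nat_lit 81959) (nat_lit 24) (.e (nat_lit 123198) (nat_lit 266) (.e (nat_lit 57435) (nat_lit 17) (.e (nat_lit 376835) (nat_lit 0) .nil)))))) (.g (nat_lit 1) (.e (nat_lit 90367) (nat_lit 0) .nil) .nil))) 
(.lf (nat_lit 472741) (.g (nat_lit 1434) (.e (nat_lit 3464) (nat_lit 217) (.e (nat_lit 696343) (nat_lit 8) (.e (nat_lit 172113) (nat_lit 10) (.e (nat_lit 434207) (nat_lit 18) (.e (nat_lit 6416) (nat_lit 341) (.e (nat_lit 163933) (nat_lit 17) (.e (nat_lit 466967) (nat_lit 20) .nil))))))) (.g (nat_lit 1) (.e (nat_lit 91477) (nat_lit 0) .nil) .nil)))) (.nd (nat_lit 9) 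
(.lf (nat_lit 472485) (.g (nat_lit 1181) (.e (nat_lit 3686) (nat_lit 227) (.e (nat_lit 778465) (nat_lit 11) (.e (nat_lit 24608) (nat_lit 3) (.e (nat_lit 98365) (nat_lit 26) .nil)))) (.g (nat_lit 0) (.e (nat_lit 90670) (nat_lit 0) .nil) .nil))) 
(.lf (nat_lit 472997) (.g (nat_lit 3510) (.e (nat_lit 3469) (nat_lit 217) (.e (nat_lit 696344) (nat_lit 8) (.e (nat_lit 172082) (nat_lit 7) (.e (nat_lit 409646) (nat_lit 18) (.e (nat_lit 303140) (nat_lit 10) (.e (nat_lit 434275) (nat_lit 39) (.e (nat_lit 663574) (nat_lit 9) (.e (nat_lit 2456) (nat_lit 157) .nil)))))))) (.g (nat_lit 1) (.e (nat_lit 92125) (nat_lit 0) .nil) .nil)))))) 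
(.nd (nat_lit 7) (.nd (nat_lit 8) (.nd (nat_lit 9) 
(.lf (nat_lit 472165) (.g (nat_lit 1702) (.e (nat_lit 7936) (nat_lit 226) (.e (nat_lit 770072) (nat_lit 8) (.e (nat_lit 65586) (nat_lit 7) (.e (nat_lit 319531) (nat_lit 16) (.e (nat_lit 286748) (nat_lit 9) .nil))))) (.g (nat_lit 0) (.e (nat_lit 90295) (nat_lit 0) .nil) .nil))) 
(.lf (nat_lit 472677) (.g (nat_lit 1860) (.e (nat_lit 3748) (nat_lit 228) (.e (nat_lit 786478) (nat_lit 29) (.e (nat_lit 352318) (nat_lit 24) (.e (nat_lit 123197) (nat_lit 266) (.e (nat_lit 57435) (nat_lit 17) (.e (nat_lit 376835) (nat_lit 0) .nil)))))) (.g (nat_lit 1) (.e (nat_lit 91147) (nat_lit 0) .nil) .nil)))) (.nd (nat_lit 9) 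
(.lf (nat_lit 472421) (.g (nat_lit 557) (.e (nat_lit 3632) (nat_lit 227) (.e (nat_lit 778326) (nat_lit 6) (.e (nat_lit 81933) (nat_lit 20) (.e (nat_lit 1999) (nat_lit 137) (.e (nat_lit 663569) (nat_lit 6) .nil))))) (.g (nat_lit 0) (.e (nat_lit 90567) (nat_lit 0) .nil) .nil))) 
(.lf (nat_lit 472933) (.g (nat_lit 2178) (.e (nat_lit 3469) (nat_lit 217) (.e (nat_lit 696344) (nat_lit 8) (.e (nat_lit 172079) (nat_lit 7) (.e (nat_lit 409645) (nat_lit 18) (.e (nat_lit 303135) (nat_lit 10) (.e (nat_lit 434276) (nat_lit 39) (.e (nat_lit 663574) (nat_lit 9) (.e (nat_lit 2467) (nat_lit 157) .nil)))))))) (.g (nat_lit 1) (.e (nat_lit 92061) (nat_lit 0) .nil) .nil))))) 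
(.nd (nat_lit 8) (.nd (nat_lit 9) 
(.lf (nat_lit 472293) (.g (nat_lit 1550) (.e (nat_lit 3631) (nat_lit 227) (.e (nat_lit 778323) (nat_lit 5) (.e (nat_lit 73781) (nat_lit 32) (.e (nat_lit 3090) (nat_lit 191) (.e (nat_lit 483381) (nat_lit 23) .nil))))) (.g (nat_lit 0) (.e (nat_lit 90433) (nat_lit 0) .nil) .nil))) 
(.lf (nat_lit 472805) (.g (nat_lit 1589) (.e (nat_lit 3468) (nat_lit 217) (.e (nat_lit 696343) (nat_lit 8) (.e (nat_lit 172106) (nat_lit 10) (.e (nat_lit 434288) (nat_lit 43) (.e (nat_lit 696346) (nat_lit 10) .nil))))) (.g (nat_lit 0) (.e (nat_lit 91639) (nat_lit 0) .nil) .nil)))) (.nd (nat_lit 9) 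
(.lf (nat_lit 472549) (.g (nat_lit 3148) (.e (nat_lit 3714) (nat_lit 227) (.e (nat_lit 786176) (nat_lit 3) (.e (nat_lit 57477) (nat_lit 28) (.e (nat_lit 557097) (nat_lit 13) (.e (nat_lit 172115) (nat_lit 10) (.e (nat_lit 434231) (nat_lit 23) (.e (nat_lit 532535) (nat_lit 9) (.e (nat_lit 336290) (nat_lit 15) .nil)))))))) (.g (nat_lit 1) (.e (nat_lit 90746) (nat_lit 0) .nil) .nil))) 
(.lf (nat_lit 473061) (.g (nat_lit 2924) (.e (nat_lit 3469) (nat_lit 217) (.e (nat_lit 696344) (nat_lit 8) (.e (nat_lit 172107) (nat_lit 10) (.e (nat_lit 434289) (nat_lit 43) (.e (nat_lit 696346) (nat_lit 10) (.e (nat_lit 188438) (nat_lit 20) .nil)))))) (.g (nat_lit 1) (.e (nat_lit 92193) (nat_lit 0) .nil) .nil)))))))) 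
(.nd (nat_lit 5) (.nd (nat_lit 6) (.nd (nat_lit 7) (.nd (nat_lit 8) (.nd (nat_lit 9) 
(.lf (nat_lit 472085) (.g (nat_lit 860) (.e (nat_lit 3409) (nat_lit 212) (.e (nat_lit 655380) (nat_lit 6) (.e (nat_lit 188420) (nat_lit 0) (.e (nat_lit 2056) (nat_lit 142) (.e (nat_lit 704598) (nat_lit 6) (.e (nat_lit 188435) (nat_lit 20) .nil)))))) (.g (nat_lit 1) (.e (nat_lit 88505) (nat_lit 0) .nil) .nil))) 
(.lf (nat_lit 472597) (.g (nat_lit 2140) (.e (nat_lit 3721) (nat_lit 227) (.e (nat_lit 778464) (nat_lit 11) (.e (nat_lit 24625) (nat_lit 9) (.e (nat_lit 336443) (nat_lit 32) (.e (nat_lit 466972) (nat_lit 21) .nil))))) (.g (nat_lit 0) (.e (nat_lit 90799) (nat_lit 0) .nil) .nil)))) (.nd (nat_lit 9) 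
(.lf (nat_lit 472341) (.g (nat_lit 4552) (.e (nat_lit 3632) (nat_lit 227) (.e (nat_lit 778318) (nat_lit 3) (.e (nat_lit 57476) (nat_lit 28) (.e (nat_lit 557097) (nat_lit 13) (.e (nat_lit 172115) (nat_lit 10) (.e (nat_lit 434231) (nat_lit 23) (.e (nat_lit 532535) (nat_lit 9) (.e (nat_lit 336295) (nat_lit 15) .nil)))))))) (.g (nat_lit 1) (.e (nat_lit 90482) (nat_lit 0) .nil) .nil))) 
(.lf (nat_lit 472853) (.g (nat_lit 2998) (.e (nat_lit 3468) (nat_lit 217) (.e (nat_lit 696344) (nat_lit 8) (.e (nat_lit 172082) (nat_lit 7) (.e (nat_lit 409646) (nat_lit 18) (.e (nat_lit 303140) (nat_lit 10) (.e (nat_lit 434275) (nat_lit 39) (.e (nat_lit 663580) (nat_lit 9) (.e (nat_lit 2416) (nat_lit 157) .nil)))))))) (.g (nat_lit 1) (.e (nat_lit 91721) (nat_lit 0) .nil) .nil))))) 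
(.nd (nat_lit 8) (.nd (nat_lit 9) 
(.lf (nat_lit 472213) (.g (nat_lit 1947) (.e (nat_lit 3629) (nat_lit 227) (.e (nat_lit 778318) (nat_lit 3) (.e (nat_lit 57476) (nat_lit 28) (.e (nat_lit 557107) (nat_lit 15) (.e (nat_lit 188450) (nat_lit 23) .nil))))) (.g (nat_lit 0) (.e (nat_lit 90350) (nat_lit 0) .nil) .nil))) 
(.lf (nat_lit 472725) (.g (nat_lit 4481) (.e (nat_lit 3459) (nat_lit 216) (.e (nat_lit 688139) (nat_lit 5) (.e (nat_lit 2887) (nat_lit 184) (.e (nat_lit 426168) (nat_lit 7) (.e (nat_lit 409649) (nat_lit 18) (.e (nat_lit 303140) (nat_lit 10) (.e (nat_lit 434275) (nat_lit 39) (.e (nat_lit 663580) (nat_lit 9) (.e (nat_lit 2416) (nat_lit 157) .nil))))))))) (.g (nat_lit 1) (.e (nat_lit 91410) (nat_lit 0) .nil) .nil)))) 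
(.nd (nat_lit 9) 
(.lf (nat_lit 472469) (.g (nat_lit 2181) (.e (nat_lit 3661) (nat_lit 227) (.e (nat_lit 778462) (nat_lit 11) (.e (nat_lit 24608) (nat_lit 3) (.e (nat_lit 98365) (nat_lit 26) (.e (nat_lit 426187) (nat_lit 9) (.e (nat_lit 426436) (nat_lit 18) (.e (nat_lit 98321) (nat_lit 17) .nil))))))) (.g (nat_lit 1) (.e (nat_lit 90623) (nat_lit 0) .nil) .nil))) 
(.lf (nat_lit 472981) (.g (nat_lit 4265) (.e (nat_lit 3469) (nat_lit 217) (.e (nat_lit 696344) (nat_lit 8) (.e (nat_lit 172081) (nat_lit 7) (.e (nat_lit 409649) (nat_lit 18) (.e (nat_lit 303140) (nat_lit 10) (.e (nat_lit 434275) (nat_lit 39) (.e (nat_lit 663574) (nat_lit 9) (.e (nat_lit 2472) (nat_lit 157) .nil)))))))) (.g (nat_lit 1) (.e (nat_lit 92109) (nat_lit 0) .nil) .nil)))))) 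
(.nd (nat_lit 7) (.nd (nat_lit 8) (.nd (nat_lit 9) 
(.lf (nat_lit 472149) (.g (nat_lit 1746) (.e (nat_lit 3613) (nat_lit 226) (.e (nat_lit 770072) (nat_lit 8) (.e (nat_lit 65583) (nat_lit 7) (.e (nat_lit 319530) (nat_lit 16) (.e (nat_lit 286748) (nat_lit 9) .nil))))) (.g (nat_lit 0) (.e (nat_lit 90277) (nat_lit 0) .nil) .nil))) 
(.lf (nat_lit 472661) (.g (nat_lit 1469) (.e (nat_lit 3747) (nat_lit 228) (.e (nat_lit 786478) (nat_lit 29) (.e (nat_lit 352262) (nat_lit 0) (.e (nat_lit 3748) (nat_lit 228) (.e (nat_lit 786480) (nat_lit 29) .nil))))) (.g (nat_lit 0) (.e (nat_lit 91099) (nat_lit 0) .nil) .nil)))) (.nd (nat_lit 9) 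
(.lf (nat_lit 472405) (.g (nat_lit 3352) (.e (nat_lit 3632) (nat_lit 227) (.e (nat_lit 778324) (nat_lit 5) (.e (nat_lit 73781) (nat_lit 32) (.e (nat_lit 3090) (nat_lit 191) (.e (nat_lit 483380) (nat_lit 23) (.e (nat_lit 336263) (nat_lit 15) .nil)))))) (.g (nat_lit 1) (.e (nat_lit 90548) (nat_lit 0) .nil) .nil))) 
(.lf (nat_lit 472917) (.g (nat_lit 2032) (.e (nat_lit 3469) (nat_lit 217) (.e (nat_lit 696344) (nat_lit 8) (.e (nat_lit 172067) (nat_lit 3) (.e (nat_lit 204868) (nat_lit 29) .nil)))) (.g (nat_lit 0) (.e (nat_lit 92045) (nat_lit 0) .nil) .nil))))) (.nd (nat_lit 8) (.nd (nat_lit 9) 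
(.lf (nat_lit 472277) (.g (nat_lit 2718) (.e (nat_lit 3631) (nat_lit 227) (.e (nat_lit 778318) (nat_lit 3) (.e (nat_lit 57476) (nat_lit 28) (.e (nat_lit 557107) (nat_lit 15) (.e (nat_lit 188450) (nat_lit 23) (.e (nat_lit 204852) (nat_lit 26) (.e (nat_lit 336263) (nat_lit 15) .nil))))))) (.g (nat_lit 1) (.e (nat_lit 90416) (nat_lit 0) .nil) .nil))) 
(.lf (nat_lit 472789) (.g (nat_lit 481) (.e (nat_lit 3467) (nat_lit 217) (.e (nat_lit 696344) (nat_lit 8) (.e (nat_lit 172113) (nat_lit 10) .nil))) (.g (nat_lit 0) (.e (nat_lit 91561) (nat_lit 0) .nil) .nil)))) (.nd (nat_lit 9) 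
(.lf (nat_lit 472533) (.g (nat_lit 3144) (.e (nat_lit 3714) (nat_lit 227) (.e (nat_lit 778316) (nat_lit 3) (.e (nat_lit 57477) (nat_lit 28) (.e (nat_lit 557097) (nat_lit 13) (.e (nat_lit 172097) (nat_lit 9) (.e (nat_lit 426125) (nat_lit 2) (.e (nat_lit 196666) (nat_lit 13) (.e (nat_lit 65639) (nat_lit 15) .nil)))))))) (.g (nat_lit 1) (.e (nat_lit 90730) (nat_lit 0) .nil) .nil))) 
(.lf (nat_lit 473045) (.g (nat_lit 4476) (.e (nat_lit 3469) (nat_lit 217) (.e (nat_lit 696344) (nat_lit 8) (.e (nat_lit 172106) (nat_lit 10) (.e (nat_lit 434209) (nat_lit 18) (.e (nat_lit 6425) (nat_lit 342) (.e (nat_lit 229412) (nat_lit 14) (.e (nat_lit 442412) (nat_lit 20) .nil))))))) (.g (nat_lit 1) (.e (nat_lit 92177) (nat_lit 0) .nil) .nil))))))) 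
(.nd (nat_lit 6) (.nd (nat_lit 7) (.nd (nat_lit 8) (.nd (nat_lit 9) 
(.lf (nat_lit 472117) (.g (nat_lit 2153) (.e (nat_lit 3605) (nat_lit 225) (.e (nat_lit 761905) (nat_lit 16) (.e (nat_lit 172106) (nat_lit 10) (.e (nat_lit 434209) (nat_lit 18) (.e (nat_lit 5050) (nat_lit 292) .nil))))) (.g (nat_lit 0) (.e (nat_lit 89857) (nat_lit 0) .nil) .nil))) 
(.lf (nat_lit 472629) (.g (nat_lit 1601) (.e (nat_lit 3746) (nat_lit 228) (.e (nat_lit 786483) (nat_lit 30) (.e (nat_lit 360457) (nat_lit 0) (.e (nat_lit 5948) (nat_lit 322) (.e (nat_lit 57435) (nat_lit 17) (.e (nat_lit 376835) (nat_lit 0) .nil)))))) (.g (nat_lit 1) (.e (nat_lit 91063) (nat_lit 0) .nil) .nil)))) (.nd (nat_lit 9) 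
(.lf (nat_lit 472373) (.g (nat_lit 3572) (.e (nat_lit 3632) (nat_lit 227) (.e (nat_lit 778323) (nat_lit 5) (.e (nat_lit 73781) (nat_lit 32) (.e (nat_lit 3090) (nat_lit 191) (.e (nat_lit 483380) (nat_lit 23) (.e (nat_lit 336264) (nat_lit 15) .nil)))))) (.g (nat_lit 1) (.e (nat_lit 90515) (nat_lit 0) .nil) .nil))) 
(.lf (nat_lit 472885) (.g (nat_lit 1107) (.e (nat_lit 3468) (nat_lit 217) (.e (nat_lit 696344) (nat_lit 8) (.e (nat_lit 172113) (nat_lit 10) (.e (nat_lit 434208) (nat_lit 18) .nil)))) (.g (nat_lit 0) (.e (nat_lit 91787) (nat_lit 0) .nil) .nil))))) (.nd (nat_lit 8) (.nd (nat_lit 9) 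
(.lf (nat_lit 472245) (.g (nat_lit 3188) (.e (nat_lit 3630) (nat_lit 227) (.e (nat_lit 778323) (nat_lit 5) (.e (nat_lit 73782) (nat_lit 32) (.e (nat_lit 2856) (nat_lit 184) (.e (nat_lit 426542) (nat_lit 29) (.e (nat_lit 352267) (nat_lit 0) .nil)))))) (.g (nat_lit 1) (.e (nat_lit 90384) (nat_lit 0) .nil) .nil))) 
(.lf (nat_lit 472757) (.g (nat_lit 1085) (.e (nat_lit 3464) (nat_lit 217) (.e (nat_lit 696344) (nat_lit 8) (.e (nat_lit 172113) (nat_lit 10) (.e (nat_lit 434207) (nat_lit 18) .nil)))) (.g (nat_lit 0) (.e (nat_lit 91493) (nat_lit 0) .nil) .nil)))) (.nd (nat_lit 9) 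
(.lf (nat_lit 472501) (.g (nat_lit 3078) (.e (nat_lit 3711) (nat_lit 227) (.e (nat_lit 786176) (nat_lit 3) (.e (nat_lit 57477) (nat_lit 28) (.e (nat_lit 557097) (nat_lit 13) (.e (nat_lit 172097) (nat_lit 9) (.e (nat_lit 426125) (nat_lit 2) (.e (nat_lit 196666) (nat_lit 13) (.e (nat_lit 65639) (nat_lit 15) .nil)))))))) (.g (nat_lit 1) (.e (nat_lit 90696) (nat_lit 0) .nil) .nil))) 
(.lf (nat_lit 473013) (.g (nat_lit 3234) (.e (nat_lit 3469) (nat_lit 217) (.e (nat_lit 696344) (nat_lit 8) (.e (nat_lit 172082) (nat_lit 7) (.e (nat_lit 409649) (nat_lit 18) (.e (nat_lit 303140) (nat_lit 10) (.e (nat_lit 434275) (nat_lit 39) (.e (nat_lit 663574) (nat_lit 9) (.e (nat_lit 2464) (nat_lit 157) .nil)))))))) (.g (nat_lit 1) (.e (nat_lit 92141) (nat_lit 0) .nil) .nil)))))) 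
(.nd (nat_lit 7) (.nd (nat_lit 8) (.nd (nat_lit 9) 
(.lf (nat_lit 472181) (.g (nat_lit 3097) (.e (nat_lit 3617) (nat_lit 227) (.e (nat_lit 778462) (nat_lit 11) (.e (nat_lit 24608) (nat_lit 3) (.e (nat_lit 98365) (nat_lit 26) (.e (nat_lit 426187) (nat_lit 9) (.e (nat_lit 426436) (nat_lit 18) (.e (nat_lit 98321) (nat_lit 17) .nil))))))) (.g (nat_lit 1) (.e (nat_lit 90312) (nat_lit 0) .nil) .nil))) 
(.lf (nat_lit 472693) (.g (nat_lit 1386) (.e (nat_lit 3753) (nat_lit 228) (.e (nat_lit 786480) (nat_lit 29) (.e (nat_lit 352309) (nat_lit 21) (.e (nat_lit 57870) (nat_lit 264) .nil)))) (.g (nat_lit 0) (.e (nat_lit 91188) (nat_lit 0) .nil) .nil)))) (.nd (nat_lit 9) 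
(.lf (nat_lit 472437) (.g (nat_lit 2531) (.e (nat_lit 3634) (nat_lit 227) (.e (nat_lit 778326) (nat_lit 6) (.e (nat_lit 81956) (nat_lit 23) (.e (nat_lit 98313) (nat_lit 9) (.e (nat_lit 335995) (nat_lit 1) .nil))))) (.g (nat_lit 0) (.e (nat_lit 90584) (nat_lit 0) .nil) .nil))) 
(.lf (nat_lit 472949) (.g (nat_lit 3690) (.e (nat_lit 3469) (nat_lit 217) (.e (nat_lit 696344) (nat_lit 8) (.e (nat_lit 172079) (nat_lit 7) (.e (nat_lit 409645) (nat_lit 18) (.e (nat_lit 303140) (nat_lit 10) (.e (nat_lit 434275) (nat_lit 39) (.e (nat_lit 663574) (nat_lit 9) (.e (nat_lit 2457) (nat_lit 157) .nil)))))))) (.g (nat_lit 1) (.e (nat_lit 92077) (nat_lit 0) .nil) .nil))))) 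
(.nd (nat_lit 8) (.nd (nat_lit 9) 
(.lf (nat_lit 472309) (.g (nat_lit 2716) (.e (nat_lit 3631) (nat_lit 227) (.e (nat_lit 778323) (nat_lit 5) (.e (nat_lit 73782) (nat_lit 32) (.e (nat_lit 3090) (nat_lit 191) (.e (nat_lit 483380) (nat_lit 23) (.e (nat_lit 336297) (nat_lit 15) .nil)))))) (.g (nat_lit 1) (.e (nat_lit 90449) (nat_lit 0) .nil) .nil))) 
(.lf (nat_lit 472821) (.g (nat_lit 1681) (.e (nat_lit 3468) (nat_lit 217) (.e (nat_lit 696343) (nat_lit 8) (.e (nat_lit 172113) (nat_lit 10) (.e (nat_lit 434203) (nat_lit 18) (.e (nat_lit 6420) (nat_lit 341) .nil))))) (.g (nat_lit 0) (.e (nat_lit 91666) (nat_lit 0) .nil) .nil)))) (.nd (nat_lit 9) 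
(.lf (nat_lit 472565) (.g (nat_lit 1621) (.e (nat_lit 3719) (nat_lit 227) (.e (nat_lit 778465) (nat_lit 11) (.e (nat_lit 24604) (nat_lit 2) (.e (nat_lit 90178) (nat_lit 15) .nil)))) (.g (nat_lit 0) (.e (nat_lit 90763) (nat_lit 0) .nil) .nil))) 
(.lf (nat_lit 473077) (.g (nat_lit 3609) (.e (nat_lit 3469) (nat_lit 217) (.e (nat_lit 696344) (nat_lit 8) (.e (nat_lit 172113) (nat_lit 10) (.e (nat_lit 434207) (nat_lit 18) (.e (nat_lit 6252) (nat_lit 337) (.e (nat_lit 2651) (nat_lit 166) (.e (nat_lit 188439) (nat_lit 20) .nil))))))) (.g (nat_lit 1) (.e (nat_lit 92209) (nat_lit 0) .nil) .nil))))))))) 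
(.nd (nat_lit 4) (.nd (nat_lit 5) (.nd (nat_lit 6) (.nd (nat_lit 7) (.nd (nat_lit 8) 
(.nd (nat_lit 9) 
(.lf (nat_lit 472077) (.g (nat_lit 3102) (.e (nat_lit 3409) (nat_lit 212) (.e (nat_lit 655378) (nat_lit 4) (.e (nat_lit 172126) (nat_lit 14) (.e (nat_lit 491570) (nat_lit 13) (.e (nat_lit 393274) (nat_lit 23) .nil))))) (.g (nat_lit 0) (.e (nat_lit 88495) (nat_lit 0) .nil) .nil))) 
(.lf (nat_lit 472589) (.g (nat_lit 3526) (.e (nat_lit 3724) (nat_lit 227) (.e (nat_lit 778466) (nat_lit 11) (.e (nat_lit 24617) (nat_lit 7) (.e (nat_lit 319533) (nat_lit 16) (.e (nat_lit 286753) (nat_lit 10) .nil))))) (.g (nat_lit 0) (.e (nat_lit 90791) (nat_lit 0) .nil) .nil)))) (.nd (nat_lit 9) 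
(.lf (nat_lit 472333) (.g (nat_lit 3860) (.e (nat_lit 3632) (nat_lit 227) (.e (nat_lit 778318) (nat_lit 3) (.e (nat_lit 57476) (nat_lit 28) (.e (nat_lit 557097) (nat_lit 13) (.e (nat_lit 172097) (nat_lit 9) (.e (nat_lit 426125) (nat_lit 2) (.e (nat_lit 196666) (nat_lit 13) (.e (nat_lit 65642) (nat_lit 15) .nil)))))))) (.g (nat_lit 1) (.e (nat_lit 90474) (nat_lit 0) .nil) .nil))) 
(.lf (nat_lit 472845) (.g (nat_lit 1820) (.e (nat_lit 3468) (nat_lit 217) (.e (nat_lit 696343) (nat_lit 8) (.e (nat_lit 172123) (nat_lit 13) (.e (nat_lit 483411) (nat_lit 27) (.e (nat_lit 401439) (nat_lit 9) (.e (nat_lit 426043) (nat_lit 0) .nil)))))) (.g (nat_lit 1) (.e (nat_lit 91712) (nat_lit 0) .nil) .nil))))) (.nd (nat_lit 8) (.nd (nat_lit 9) 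
(.lf (nat_lit 472205) (.g (nat_lit 1481) (.e (nat_lit 3627) (nat_lit 227) (.e (nat_lit 778323) (nat_lit 5) (.e (nat_lit 73781) (nat_lit 32) (.e (nat_lit 3090) (nat_lit 191) (.e (nat_lit 483380) (nat_lit 23) .nil))))) (.g (nat_lit 0) (.e (nat_lit 90342) (nat_lit 0) .nil) .nil))) 
(.lf (nat_lit 472717) (.g (nat_lit 2888) (.e (nat_lit 3774) (nat_lit 229) (.e (nat_lit 794666) (nat_lit 22) (.e (nat_lit 196656) (nat_lit 11) (.e (nat_lit 16436) (nat_lit 9) (.e (nat_lit 426131) (nat_lit 3) (.e (nat_lit 204852) (nat_lit 26) (.e (nat_lit 336258) (nat_lit 15) .nil))))))) (.g (nat_lit 1) (.e (nat_lit 91336) (nat_lit 0) .nil) .nil)))) (.nd (nat_lit 9) 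
(.lf (nat_lit 472461) (.g (nat_lit 2304) (.e (nat_lit 3651) (nat_lit 227) (.e (nat_lit 778462) (nat_lit 11) (.e (nat_lit 24628) (nat_lit 9) (.e (nat_lit 336443) (nat_lit 32) (.e (nat_lit 466969) (nat_lit 21) (.e (nat_lit 164332) (nat_lit 230) (.e (nat_lit 163847) (nat_lit 0) .nil))))))) (.g (nat_lit 1) (.e (nat_lit 90609) (nat_lit 0) .nil) .nil))) 
(.lf (nat_lit 472973) (.g (nat_lit 2129) (.e (nat_lit 3469) (nat_lit 217) (.e (nat_lit 696344) (nat_lit 8) (.e (nat_lit 172081) (nat_lit 7) (.e (nat_lit 409648) (nat_lit 18) (.e (nat_lit 303137) (nat_lit 10) (.e (nat_lit 434275) (nat_lit 39) (.e (nat_lit 663574) (nat_lit 9) (.e (nat_lit 2466) (nat_lit 157) .nil)))))))) (.g (nat_lit 1) (.e (nat_lit 92101) (nat_lit 0) .nil) .nil)))))) 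
(.nd (nat_lit 7) (.nd (nat_lit 8) (.nd (nat_lit 9) 
(.lf (nat_lit 472141) (.g (nat_lit 1581) (.e (nat_lit 3610) (nat_lit 226) (.e (nat_lit 770071) (nat_lit 8) (.e (nat_lit 65583) (nat_lit 7) (.e (nat_lit 319530) (nat_lit 16) (.e (nat_lit 286748) (nat_lit 9) .nil))))) (.g (nat_lit 0) (.e (nat_lit 90268) (nat_lit 0) .nil) .nil))) 
(.lf (nat_lit 472653) (.g (nat_lit 2906) (.e (nat_lit 3747) (nat_lit 228) (.e (nat_lit 786473) (nat_lit 27) (.e (nat_lit 336235) (nat_lit 14) (.e (nat_lit 401438) (nat_lit 9) (.e (nat_lit 426542) (nat_lit 29) (.e (nat_lit 352265) (nat_lit 0) .nil)))))) (.g (nat_lit 1) (.e (nat_lit 91089) (nat_lit 0) .nil) .nil)))) (.nd (nat_lit 9) 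
(.lf (nat_lit 472397) (.g (nat_lit 2130) (.e (nat_lit 3632) (nat_lit 227) (.e (nat_lit 778323) (nat_lit 5) (.e (nat_lit 73782) (nat_lit 32) (.e (nat_lit 3090) (nat_lit 191) (.e (nat_lit 483387) (nat_lit 23) (.e (nat_lit 336291) (nat_lit 15) .nil)))))) (.g (nat_lit 1) (.e (nat_lit 90539) (nat_lit 0) .nil) .nil))) 
(.lf (nat_lit 472909) (.g (nat_lit 3443) (.e (nat_lit 3469) (nat_lit 217) (.e (nat_lit 696344) (nat_lit 8) (.e (nat_lit 172064) (nat_lit 2) (.e (nat_lit 196666) (nat_lit 13) (.e (nat_lit 65610) (nat_lit 10) (.e (nat_lit 344129) (nat_lit 26) (.e (nat_lit 557067) (nat_lit 9) (.e (nat_lit 2459) (nat_lit 157) .nil)))))))) (.g (nat_lit 1) (.e (nat_lit 92037) (nat_lit 0) .nil) .nil))))) 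
(.nd (nat_lit 8) (.nd (nat_lit 9) 
(.lf (nat_lit 472269) (.g (nat_lit 2676) (.e (nat_lit 3631) (nat_lit 227) (.e (nat_lit 778318) (nat_lit 3) (.e (nat_lit 57476) (nat_lit 28) (.e (nat_lit 557097) (nat_lit 13) (.e (nat_lit 172115) (nat_lit 10) (.e (nat_lit 434231) (nat_lit 23) (.e (nat_lit 532528) (nat_lit 9) (.e (nat_lit 336265) (nat_lit 15) .nil)))))))) (.g (nat_lit 1) (.e (nat_lit 90408) (nat_lit 0) .nil) .nil))) 
(.lf (nat_lit 472781) (.g (nat_lit 1797) (.e (nat_lit 3467) (nat_lit 217) (.e (nat_lit 696344) (nat_lit 8) (.e (nat_lit 172082) (nat_lit 7) (.e (nat_lit 409648) (nat_lit 18) (.e (nat_lit 303137) (nat_lit 10) .nil))))) (.g (nat_lit 0) (.e (nat_lit 91544) (nat_lit 0) .nil) .nil)))) (.nd (nat_lit 9) 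
(.lf (nat_lit 472525) (.g (nat_lit 3756) (.e (nat_lit 3711) (nat_lit 227) (.e (nat_lit 778469) (nat_lit 11) (.e (nat_lit 24608) (nat_lit 3) (.e (nat_lit 98365) (nat_lit 26) (.e (nat_lit 426188) (nat_lit 9) (.e (nat_lit 426438) (nat_lit 18) (.e (nat_lit 98323) (nat_lit 17) .nil))))))) (.g (nat_lit 1) (.e (nat_lit 90720) (nat_lit 0) .nil) .nil))) 
(.lf (nat_lit 473037) (.g (nat_lit 2321) (.e (nat_lit 3469) (nat_lit 217) (.e (nat_lit 696344) (nat_lit 8) (.e (nat_lit 172106) (nat_lit 10) (.e (nat_lit 434209) (nat_lit 18) (.e (nat_lit 6272) (nat_lit 337) (.e (nat_lit 7936) (nat_lit 166) (.e (nat_lit 188439) (nat_lit 20) .nil))))))) (.g (nat_lit 1) (.e (nat_lit 92169) (nat_lit 0) .nil) .nil))))))) 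
(.nd (nat_lit 6) (.nd (nat_lit 7) (.nd (nat_lit 8) (.nd (nat_lit 9) 
(.lf (nat_lit 472109) (.g (nat_lit 1671) (.e (nat_lit 3604) (nat_lit 225) (.e (nat_lit 761912) (nat_lit 18) (.e (nat_lit 196352) (nat_lit 0) (.e (nat_lit 2031) (nat_lit 140) (.e (nat_lit 688186) (nat_lit 18) (.e (nat_lit 89856) (nat_lit 0) .nil)))))) (.g (nat_lit 1) (.e (nat_lit 89183) (nat_lit 0) .nil) .nil))) 
(.lf (nat_lit 472621) (.g (nat_lit 2943) (.e (nat_lit 3746) (nat_lit 228) (.e (nat_lit 786480) (nat_lit 29) (.e (nat_lit 352318) (nat_lit 24) (.e (nat_lit 123198) (nat_lit 266) (.e (nat_lit 57435) (nat_lit 17) (.e (nat_lit 376835) (nat_lit 0) .nil)))))) (.g (nat_lit 1) (.e (nat_lit 91055) (nat_lit 0) .nil) .nil)))) (.nd (nat_lit 9) 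
(.lf (nat_lit 472365) (.g (nat_lit 2395) (.e (nat_lit 3632) (nat_lit 227) (.e (nat_lit 778323) (nat_lit 5) (.e (nat_lit 73781) (nat_lit 32) (.e (nat_lit 2856) (nat_lit 184) (.e (nat_lit 426539) (nat_lit 29) (.e (nat_lit 352262) (nat_lit 0) .nil)))))) (.g (nat_lit 1) (.e (nat_lit 90507) (nat_lit 0) .nil) .nil))) 
(.lf (nat_lit 472877) (.g (nat_lit 2679) (.e (nat_lit 3468) (nat_lit 217) (.e (nat_lit 696344) (nat_lit 8) (.e (nat_lit 172107) (nat_lit 10) (.e (nat_lit 434289) (nat_lit 43) (.e (nat_lit 696346) (nat_lit 10) (.e (nat_lit 188438) (nat_lit 20) .nil)))))) (.g (nat_lit 1) (.e (nat_lit 91764) (nat_lit 0) .nil) .nil))))) (.nd (nat_lit 8) (.nd (nat_lit 9) 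
(.lf (nat_lit 472237) (.g (nat_lit 1964) (.e (nat_lit 3629) (nat_lit 227) (.e (nat_lit 778327) (nat_lit 6) (.e (nat_lit 81959) (nat_lit 24) (.e (nat_lit 123197) (nat_lit 266) (.e (nat_lit 57436) (nat_lit 17) (.e (nat_lit 376835) (nat_lit 0) .nil)))))) (.g (nat_lit 1) (.e (nat_lit 90376) (nat_lit 0) .nil) .nil))) 
(.lf (nat_lit 472749) (.g (nat_lit 1889) (.e (nat_lit 3464) (nat_lit 217) (.e (nat_lit 696344) (nat_lit 8) (.e (nat_lit 172079) (nat_lit 7) (.e (nat_lit 409645) (nat_lit 18) (.e (nat_lit 303135) (nat_lit 10) (.e (nat_lit 434276) (nat_lit 39) (.e (nat_lit 663580) (nat_lit 9) (.e (nat_lit 2478) (nat_lit 157) .nil)))))))) (.g (nat_lit 1) (.e (nat_lit 91485) (nat_lit 0) .nil) .nil)))) 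
(.nd (nat_lit 9) 
(.lf (nat_lit 472493) (.g (nat_lit 2339) (.e (nat_lit 3693) (nat_lit 227) (.e (nat_lit 778466) (nat_lit 11) (.e (nat_lit 24617) (nat_lit 7) (.e (nat_lit 319534) (nat_lit 16) .nil)))) (.g (nat_lit 0) (.e (nat_lit 90679) (nat_lit 0) .nil) .nil))) 
(.lf (nat_lit 473005) (.g (nat_lit 3572) (.e (nat_lit 3469) (nat_lit 217) (.e (nat_lit 696344) (nat_lit 8) (.e (nat_lit 172082) (nat_lit 7) (.e (nat_lit 409648) (nat_lit 18) (.e (nat_lit 303137) (nat_lit 10) (.e (nat_lit 434275) (nat_lit 39) (.e (nat_lit 663574) (nat_lit 9) (.e (nat_lit 2467) (nat_lit 157) .nil)))))))) (.g (nat_lit 1) (.e (nat_lit 92133) (nat_lit 0) .nil) .nil)))))) 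
(.nd (nat_lit 7) (.nd (nat_lit 8) (.nd (nat_lit 9) 
(.lf (nat_lit 472173) (.g (nat_lit 1662) (.e (nat_lit 3617) (nat_lit 227) (.e (nat_lit 778462) (nat_lit 11) (.e (nat_lit 24604) (nat_lit 2) (.e (nat_lit 90185) (nat_lit 17) (.e (nat_lit 237601) (nat_lit 9) (.e (nat_lit 426436) (nat_lit 18) (.e (nat_lit 98318) (nat_lit 17) .nil))))))) (.g (nat_lit 1) (.e (nat_lit 90304) (nat_lit 0) .nil) .nil))) 
(.lf (nat_lit 472685) (.g (nat_lit 1961) (.e (nat_lit 3748) (nat_lit 228) (.e (nat_lit 786480) (nat_lit 29) (.e (nat_lit 352318) (nat_lit 24) (.e (nat_lit 123197) (nat_lit 266) (.e (nat_lit 57435) (nat_lit 17) (.e (nat_lit 376835) (nat_lit 0) .nil)))))) (.g (nat_lit 1) (.e (nat_lit 91161) (nat_lit 0) .nil) .nil)))) (.nd (nat_lit 9) 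
(.lf (nat_lit 472429) (.g (nat_lit 3982) (.e (nat_lit 3633) (nat_lit 227) (.e (nat_lit 778318) (nat_lit 3) (.e (nat_lit 57476) (nat_lit 28) (.e (nat_lit 557107) (nat_lit 15) (.e (nat_lit 188450) (nat_lit 23) (.e (nat_lit 204852) (nat_lit 26) (.e (nat_lit 336261) (nat_lit 15) .nil))))))) (.g (nat_lit 1) (.e (nat_lit 90576) (nat_lit 0) .nil) .nil))) 
(.lf (nat_lit 472941) (.g (nat_lit 3711) (.e (nat_lit 3469) (nat_lit 217) (.e (nat_lit 696344) (nat_lit 8) (.e (nat_lit 172079) (nat_lit 7) (.e (nat_lit 409645) (nat_lit 18) (.e (nat_lit 303137) (nat_lit 10) (.e (nat_lit 434275) (nat_lit 39) (.e (nat_lit 663574) (nat_lit 9) (.e (nat_lit 2472) (nat_lit 157) .nil)))))))) (.g (nat_lit 1) (.e (nat_lit 92069) (nat_lit 0) .nil) .nil))))) 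
(.nd (nat_lit 8) (.nd (nat_lit 9) 
(.lf (nat_lit 472301) (.g (nat_lit 733) (.e (nat_lit 3631) (nat_lit 227) (.e (nat_lit 778323) (nat_lit 5) (.e (nat_lit 73782) (nat_lit 32) (.e (nat_lit 2857) (nat_lit 184) .nil)))) (.g (nat_lit 0) (.e (nat_lit 90441) (nat_lit 0) .nil) .nil))) 
(.lf (nat_lit 472813) (.g (nat_lit 2672) (.e (nat_lit 3468) (nat_lit 217) (.e (nat_lit 696343) (nat_lit 8) (.e (nat_lit 172107) (nat_lit 10) (.e (nat_lit 434289) (nat_lit 43) (.e (nat_lit 696346) (nat_lit 10) (.e (nat_lit 188438) (nat_lit 20) .nil)))))) (.g (nat_lit 1) (.e (nat_lit 91649) (nat_lit 0) .nil) .nil)))) (.nd (nat_lit 9) 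
(.lf (nat_lit 472557) (.g (nat_lit 1231) (.e (nat_lit 3714) (nat_lit 227) (.e (nat_lit 778325) (nat_lit 6) (.e (nat_lit 81924) (nat_lit 0) (.e (nat_lit 3632) (nat_lit 227) (.e (nat_lit 778326) (nat_lit 6) (.e (nat_lit 81921) (nat_lit 0) .nil)))))) (.g (nat_lit 1) (.e (nat_lit 90754) (nat_lit 0) .nil) .nil))) 
(.lf (nat_lit 473069) (.g (nat_lit 1950) (.e (nat_lit 3469) (nat_lit 217) (.e (nat_lit 696344) (nat_lit 8) (.e (nat_lit 172113) (nat_lit 10) (.e (nat_lit 434203) (nat_lit 18) (.e (nat_lit 6252) (nat_lit 337) (.e (nat_lit 7936) (nat_lit 166) (.e (nat_lit 188438) (nat_lit 20) .nil))))))) (.g (nat_lit 1) (.e (nat_lit 92201) (nat_lit 0) .nil) .nil)))))))) 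
(.nd (nat_lit 5) (.nd (nat_lit 6) (.nd (nat_lit 7) (.nd (nat_lit 8) (.nd (nat_lit 9) 
(.lf (nat_lit 472093) (.g (nat_lit 1896) (.e (nat_lit 3409) (nat_lit 212) (.e (nat_lit 655380) (nat_lit 6) (.e (nat_lit 188453) (nat_lit 24) (.e (nat_lit 229663) (nat_lit 240) (.e (nat_lit 2651) (nat_lit 166) .nil))))) (.g (nat_lit 0) (.e (nat_lit 88517) (nat_lit 0) .nil) .nil))) 
(.lf (nat_lit 472605) (.g (nat_lit 1226) (.e (nat_lit 3733) (nat_lit 228) (.e (nat_lit 786483) (nat_lit 30) (.e (nat_lit 360451) (nat_lit 0) (.e (nat_lit 4764) (nat_lit 281) .nil)))) (.g (nat_lit 0) (.e (nat_lit 90854) (nat_lit 0) .nil) .nil)))) (.nd (nat_lit 9) 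
(.lf (nat_lit 472349) (.g (nat_lit 2921) (.e (nat_lit 3632) (nat_lit 227) (.e (nat_lit 778318) (nat_lit 3) (.e (nat_lit 57476) (nat_lit 28) (.e (nat_lit 557108) (nat_lit 15) (.e (nat_lit 188447) (nat_lit 22) (.e (nat_lit 196665) (nat_lit 13) (.e (nat_lit 65637) (nat_lit 15) .nil))))))) (.g (nat_lit 1) (.e (nat_lit 90490) (nat_lit 0) .nil) .nil))) 
(.lf (nat_lit 472861) (.g (nat_lit 2056) (.e (nat_lit 3468) (nat_lit 217) (.e (nat_lit 696344) (nat_lit 8) (.e (nat_lit 172106) (nat_lit 10) (.e (nat_lit 434209) (nat_lit 18) (.e (nat_lit 6273) (nat_lit 337) .nil))))) (.g (nat_lit 0) (.e (nat_lit 91737) (nat_lit 0) .nil) .nil))))) (.nd (nat_lit 8) (.nd (nat_lit 9) 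
(.lf (nat_lit 472221) (.g (nat_lit 579) (.e (nat_lit 3629) (nat_lit 227) (.e (nat_lit 778326) (nat_lit 6) (.e (nat_lit 81920) (nat_lit 0) (.e (nat_lit 3715) (nat_lit 227) (.e (nat_lit 778325) (nat_lit 6) .nil))))) (.g (nat_lit 0) (.e (nat_lit 90358) (nat_lit 0) .nil) .nil))) 
(.lf (nat_lit 472733) (.g (nat_lit 2497) (.e (nat_lit 3458) (nat_lit 216) (.e (nat_lit 688170) (nat_lit 15) (.e (nat_lit 57479) (nat_lit 28) (.e (nat_lit 557103) (nat_lit 14) (.e (nat_lit 180250) (nat_lit 10) .nil))))) (.g (nat_lit 0) (.e (nat_lit 91436) (nat_lit 0) .nil) .nil)))) (.nd (nat_lit 9) 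
(.lf (nat_lit 472477) (.g (nat_lit 1602) (.e (nat_lit 3657) (nat_lit 227) (.e (nat_lit 778462) (nat_lit 11) (.e (nat_lit 24604) (nat_lit 2) (.e (nat_lit 90185) (nat_lit 17) (.e (nat_lit 237601) (nat_lit 9) .nil))))) (.g (nat_lit 0) (.e (nat_lit 90641) (nat_lit 0) .nil) .nil))) 
(.lf (nat_lit 472989) (.g (nat_lit 2914) (.e (nat_lit 3469) (nat_lit 217) (.e (nat_lit 696344) (nat_lit 8) (.e (nat_lit 172082) (nat_lit 7) (.e (nat_lit 409646) (nat_lit 18) (.e (nat_lit 303137) (nat_lit 10) (.e (nat_lit 434275) (nat_lit 39) (.e (nat_lit 663574) (nat_lit 9) (.e (nat_lit 2472) (nat_lit 157) .nil)))))))) (.g (nat_lit 1) (.e (nat_lit 92117) (nat_lit 0) .nil) .nil)))))) 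
(.nd (nat_lit 7) (.nd (nat_lit 8) (.nd (nat_lit 9) 
(.lf (nat_lit 472157) (.g (nat_lit 1752) (.e (nat_lit 3613) (nat_lit 226) (.e (nat_lit 770072) (nat_lit 8) (.e (nat_lit 65586) (nat_lit 7) (.e (nat_lit 319531) (nat_lit 16) (.e (nat_lit 286748) (nat_lit 9) (.e (nat_lit 336295) (nat_lit 15) (.e (nat_lit 3761) (nat_lit 229) (.e (nat_lit 794648) (nat_lit 20) .nil)))))))) (.g (nat_lit 1) (.e (nat_lit 90285) (nat_lit 0) .nil) .nil))) 
(.lf (nat_lit 472669) (.g (nat_lit 1798) (.e (nat_lit 3748) (nat_lit 228) (.e (nat_lit 786473) (nat_lit 27) (.e (nat_lit 336235) (nat_lit 14) (.e (nat_lit 401438) (nat_lit 9) (.e (nat_lit 426539) (nat_lit 29) (.e (nat_lit 352262) (nat_lit 0) .nil)))))) (.g (nat_lit 1) (.e (nat_lit 91112) (nat_lit 0) .nil) .nil)))) (.nd (nat_lit 9) 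
(.lf (nat_lit 472413) (.g (nat_lit 1888) (.e (nat_lit 3632) (nat_lit 227) (.e (nat_lit 778324) (nat_lit 5) (.e (nat_lit 73781) (nat_lit 32) (.e (nat_lit 3090) (nat_lit 191) (.e (nat_lit 483387) (nat_lit 23) (.e (nat_lit 336292) (nat_lit 15) .nil)))))) (.g (nat_lit 1) (.e (nat_lit 90556) (nat_lit 0) .nil) .nil))) 
(.lf (nat_lit 472925) (.g (nat_lit 4278) (.e (nat_lit 3469) (nat_lit 217) (.e (nat_lit 696344) (nat_lit 8) (.e (nat_lit 172078) (nat_lit 7) (.e (nat_lit 409649) (nat_lit 18) (.e (nat_lit 303140) (nat_lit 10) (.e (nat_lit 434275) (nat_lit 39) (.e (nat_lit 663574) (nat_lit 9) (.e (nat_lit 2473) (nat_lit 157) .nil)))))))) (.g (nat_lit 1) (.e (nat_lit 92053) (nat_lit 0) .nil) .nil))))) 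
(.nd (nat_lit 8) (.nd (nat_lit 9) 
(.lf (nat_lit 472285) (.g (nat_lit 3769) (.e (nat_lit 3631) (nat_lit 227) (.e (nat_lit 778320) (nat_lit 4) (.e (nat_lit 65630) (nat_lit 14) (.e (nat_lit 401438) (nat_lit 9) (.e (nat_lit 426540) (nat_lit 29) (.e (nat_lit 352262) (nat_lit 0) .nil)))))) (.g (nat_lit 1) (.e (nat_lit 90424) (nat_lit 0) .nil) .nil))) 
(.lf (nat_lit 472797) (.g (nat_lit 2258) (.e (nat_lit 3468) (nat_lit 217) (.e (nat_lit 696343) (nat_lit 8) (.e (nat_lit 172106) (nat_lit 10) (.e (nat_lit 434209) (nat_lit 18) (.e (nat_lit 6272) (nat_lit 337) (.e (nat_lit 2645) (nat_lit 166) (.e (nat_lit 188439) (nat_lit 20) .nil))))))) (.g (nat_lit 1) (.e (nat_lit 91627) (nat_lit 0) .nil) .nil)))) (.nd (nat_lit 9) 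
(.lf (nat_lit 472541) (.g (nat_lit 3845) (.e (nat_lit 3714) (nat_lit 227) (.e (nat_lit 778316) (nat_lit 3) (.e (nat_lit 57479) (nat_lit 28) (.e (nat_lit 557101) (nat_lit 13) (.e (nat_lit 172115) (nat_lit 10) (.e (nat_lit 434231) (nat_lit 23) (.e (nat_lit 532535) (nat_lit 9) (.e (nat_lit 336290) (nat_lit 15) .nil)))))))) (.g (nat_lit 1) (.e (nat_lit 90738) (nat_lit 0) .nil) .nil))) 
(.lf (nat_lit 473053) (.g (nat_lit 3422) (.e (nat_lit 3469) (nat_lit 217) (.e (nat_lit 696344) (nat_lit 8) (.e (nat_lit 172106) (nat_lit 10) (.e (nat_lit 434209) (nat_lit 18) (.e (nat_lit 6428) (nat_lit 342) (.e (nat_lit 229412) (nat_lit 14) (.e (nat_lit 442412) (nat_lit 20) .nil))))))) (.g (nat_lit 1) (.e (nat_lit 92185) (nat_lit 0) .nil) .nil))))))) 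
(.nd (nat_lit 6) (.nd (nat_lit 7) (.nd (nat_lit 8) (.nd (nat_lit 9) 
(.lf (nat_lit 472125) (.g (nat_lit 1469) (.e (nat_lit 3605) (nat_lit 225) (.e (nat_lit 761914) (nat_lit 18) (.e (nat_lit 188455) (nat_lit 24) (.e (nat_lit 229632) (nat_lit 226) (.e (nat_lit 989) (nat_lit 81) .nil))))) (.g (nat_lit 0) (.e (nat_lit 90153) (nat_lit 0) .nil) .nil))) 
(.lf (nat_lit 472637) (.g (nat_lit 97) (.e (nat_lit 3747) (nat_lit 228) (.e (nat_lit 786473) (nat_lit 27) (.e (nat_lit 335872) (nat_lit 0) .nil))) (.g (nat_lit 0) (.e (nat_lit 91072) (nat_lit 0) .nil) .nil)))) (.nd (nat_lit 9) 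
(.lf (nat_lit 472381) (.g (nat_lit 2098) (.e (nat_lit 3632) (nat_lit 227) (.e (nat_lit 778323) (nat_lit 5) (.e (nat_lit 73781) (nat_lit 32) (.e (nat_lit 3090) (nat_lit 191) (.e (nat_lit 483391) (nat_lit 23) (.e (nat_lit 336277) (nat_lit 15) .nil)))))) (.g (nat_lit 1) (.e (nat_lit 90523) (nat_lit 0) .nil) .nil))) 
(.lf (nat_lit 472893) (.g (nat_lit 1041) (.e (nat_lit 3468) (nat_lit 217) (.e (nat_lit 696344) (nat_lit 8) (.e (nat_lit 172115) (nat_lit 10) (.e (nat_lit 434202) (nat_lit 18) .nil)))) (.g (nat_lit 0) (.e (nat_lit 91806) (nat_lit 0) .nil) .nil))))) (.nd (nat_lit 8) (.nd (nat_lit 9) 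
(.lf (nat_lit 472253) (.g (nat_lit 661) (.e (nat_lit 3630) (nat_lit 227) (.e (nat_lit 778326) (nat_lit 6) (.e (nat_lit 81924) (nat_lit 0) (.e (nat_lit 3629) (nat_lit 227) (.e (nat_lit 778326) (nat_lit 6) (.e (nat_lit 81924) (nat_lit 0) .nil)))))) (.g (nat_lit 1) (.e (nat_lit 90392) (nat_lit 0) .nil) .nil))) 
(.lf (nat_lit 472765) (.g (nat_lit 3460) (.e (nat_lit 3464) (nat_lit 217) (.e (nat_lit 696344) (nat_lit 8) (.e (nat_lit 172126) (nat_lit 14) (.e (nat_lit 491566) (nat_lit 12) (.e (nat_lit 385107) (nat_lit 51) (.e (nat_lit 794683) (nat_lit 25) (.e (nat_lit 221198) (nat_lit 20) .nil))))))) (.g (nat_lit 1) (.e (nat_lit 91501) (nat_lit 0) .nil) .nil)))) (.nd (nat_lit 9) 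
(.lf (nat_lit 472509) (.g (nat_lit 3875) (.e (nat_lit 3711) (nat_lit 227) (.e (nat_lit 786176) (nat_lit 3) (.e (nat_lit 57480) (nat_lit 28) (.e (nat_lit 557098) (nat_lit 13) (.e (nat_lit 172097) (nat_lit 9) (.e (nat_lit 426125) (nat_lit 2) (.e (nat_lit 196666) (nat_lit 13) (.e (nat_lit 65639) (nat_lit 15) .nil)))))))) (.g (nat_lit 1) (.e (nat_lit 90704) (nat_lit 0) .nil) .nil))) 
(.lf (nat_lit 473021) (.g (nat_lit 2420) (.e (nat_lit 3469) (nat_lit 217) (.e (nat_lit 696344) (nat_lit 8) (.e (nat_lit 172106) (nat_lit 10) (.e (nat_lit 434202) (nat_lit 18) (.e (nat_lit 6252) (nat_lit 337) (.e (nat_lit 7936) (nat_lit 166) (.e (nat_lit 188435) (nat_lit 20) .nil))))))) (.g (nat_lit 1) (.e (nat_lit 92153) (nat_lit 0) .nil) .nil)))))) 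
(.nd (nat_lit 7) (.nd (nat_lit 8) (.nd (nat_lit 9) 
(.lf (nat_lit 472189) (.g (nat_lit 1465) (.e (nat_lit 3617) (nat_lit 227) (.e (nat_lit 778462) (nat_lit 11) (.e (nat_lit 24628) (nat_lit 9) (.e (nat_lit 336443) (nat_lit 32) (.e (nat_lit 466971) (nat_lit 21) .nil))))) (.g (nat_lit 0) (.e (nat_lit 90325) (nat_lit 0) .nil) .nil))) 
(.lf (nat_lit 472701) (.g (nat_lit 2478) (.e (nat_lit 3771) (nat_lit 229) (.e (nat_lit 794668) (nat_lit 22) (.e (nat_lit 196666) (nat_lit 13) (.e (nat_lit 65569) (nat_lit 3) (.e (nat_lit 98334) (nat_lit 18) (.e (nat_lit 164159) (nat_lit 152) (.e (nat_lit 1035) (nat_lit 81) (.e (nat_lit 1254) (nat_lit 92) (.e (nat_lit 98321) (nat_lit 17) .nil))))))))) (.g (nat_lit 1) (.e (nat_lit 91275) (nat_lit 0) .nil) .nil)))) 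
(.nd (nat_lit 9) 
(.lf (nat_lit 472445) (.g (nat_lit 3753) (.e (nat_lit 3636) (nat_lit 227) (.e (nat_lit 778318) (nat_lit 3) (.e (nat_lit 57476) (nat_lit 28) (.e (nat_lit 557107) (nat_lit 15) (.e (nat_lit 188450) (nat_lit 23) (.e (nat_lit 204852) (nat_lit 26) (.e (nat_lit 336257) (nat_lit 15) .nil))))))) (.g (nat_lit 1) (.e (nat_lit 90592) (nat_lit 0) .nil) .nil))) 
(.lf (nat_lit 472957) (.g (nat_lit 2544) (.e (nat_lit 3469) (nat_lit 217) (.e (nat_lit 696344) (nat_lit 8) (.e (nat_lit 172079) (nat_lit 7) (.e (nat_lit 409646) (nat_lit 18) (.e (nat_lit 303140) (nat_lit 10) (.e (nat_lit 434275) (nat_lit 39) (.e (nat_lit 663574) (nat_lit 9) (.e (nat_lit 2473) (nat_lit 157) .nil)))))))) (.g (nat_lit 1) (.e (nat_lit 92085) (nat_lit 0) .nil) .nil))))) 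
(.nd (nat_lit 8) (.nd (nat_lit 9) 
(.lf (nat_lit 472317) (.g (nat_lit 1077) (.e (nat_lit 3631) (nat_lit 227) (.e (nat_lit 778326) (nat_lit 6) (.e (nat_lit 81920) (nat_lit 0) (.e (nat_lit 3715) (nat_lit 227) (.e (nat_lit 778325) (nat_lit 6) (.e (nat_lit 81924) (nat_lit 0) .nil)))))) (.g (nat_lit 1) (.e (nat_lit 90457) (nat_lit 0) .nil) .nil))) 
(.lf (nat_lit 472829) (.g (nat_lit 2068) (.e (nat_lit 3468) (nat_lit 217) (.e (nat_lit 696343) (nat_lit 8) (.e (nat_lit 172113) (nat_lit 10) (.e (nat_lit 434289) (nat_lit 43) (.e (nat_lit 696346) (nat_lit 10) (.e (nat_lit 188441) (nat_lit 20) .nil)))))) (.g (nat_lit 1) (.e (nat_lit 91687) (nat_lit 0) .nil) .nil)))) (.nd (nat_lit 9) 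
(.lf (nat_lit 472573) (.g (nat_lit 2000) (.e (nat_lit 3719) (nat_lit 227) (.e (nat_lit 778466) (nat_lit 11) (.e (nat_lit 24604) (nat_lit 2) (.e (nat_lit 90185) (nat_lit 17) (.e (nat_lit 237601) (nat_lit 9) (.e (nat_lit 426438) (nat_lit 18) (.e (nat_lit 98325) (nat_lit 17) .nil))))))) (.g (nat_lit 1) (.e (nat_lit 90771) (nat_lit 0) .nil) .nil))) 
(.lf (nat_lit 473085) (.g (nat_lit 1913) (.e (nat_lit 3469) (nat_lit 217) (.e (nat_lit 696344) (nat_lit 8) (.e (nat_lit 172113) (nat_lit 10) (.e (nat_lit 434208) (nat_lit 18) (.e (nat_lit 6416) (nat_lit 341) (.e (nat_lit 163920) (nat_lit 14) (.e (nat_lit 442412) (nat_lit 20) .nil))))))) (.g (nat_lit 1) (.e (nat_lit 92217) (nat_lit 0) .nil) .nil))))))))))) 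
(.nd (nat_lit 2) (.nd (nat_lit 3) (.nd (nat_lit 4) (.nd (nat_lit 5) (.nd (nat_lit 6) 
(.nd (nat_lit 7) (.nd (nat_lit 8) (.nd (nat_lit 9) 
(.lf (nat_lit 472067) (.g (nat_lit 2509) (.e (nat_lit 3409) (nat_lit 212) (.e (nat_lit 655378) (nat_lit 4) (.e (nat_lit 172125) (nat_lit 14) (.e (nat_lit 491571) (nat_lit 13) (.e (nat_lit 393275) (nat_lit 23) (.e (nat_lit 426048) (nat_lit 0) .nil)))))) (.g (nat_lit 1) (.e (nat_lit 88485) (nat_lit 0) .nil) .nil))) 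
(.lf (nat_lit 472579) (.g (nat_lit 3587) (.e (nat_lit 3719) (nat_lit 227) (.e (nat_lit 778466) (nat_lit 11) (.e (nat_lit 24608) (nat_lit 3) (.e (nat_lit 98369) (nat_lit 28) .nil)))) (.g (nat_lit 0) (.e (nat_lit 90777) (nat_lit 0) .nil) .nil)))) (.nd (nat_lit 9) 
(.lf (nat_lit 472323) (.g (nat_lit 3521) (.e (nat_lit 3632) (nat_lit 227) (.e (nat_lit 778317) (nat_lit 3) (.e (nat_lit 57474) (nat_lit 28) (.e (nat_lit 557100) (nat_lit 13) (.e (nat_lit 172106) (nat_lit 10) (.e (nat_lit 434231) (nat_lit 23) (.e (nat_lit 532535) (nat_lit 9) (.e (nat_lit 336295) (nat_lit 15) .nil)))))))) (.g (nat_lit 1) (.e (nat_lit 90463) (nat_lit 0) .nil) .nil))) 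
(.lf (nat_lit 472835) (.g (nat_lit 2332) (.e (nat_lit 3468) (nat_lit 217) (.e (nat_lit 696343) (nat_lit 8) (.e (nat_lit 172115) (nat_lit 10) (.e (nat_lit 434209) (nat_lit 18) (.e (nat_lit 6427) (nat_lit 342) (.e (nat_lit 229412) (nat_lit 14) (.e (nat_lit 442411) (nat_lit 20) .nil))))))) (.g (nat_lit 1) (.e (nat_lit 91698) (nat_lit 0) .nil) .nil))))) (.nd (nat_lit 8) (.nd (nat_lit 9) 
(.lf (nat_lit 472195) (.g (nat_lit 664) (.e (nat_lit 3619) (nat_lit 227) (.e (nat_lit 778246) (nat_lit 0) (.e (nat_lit 1400) (nat_lit 106) (.e (nat_lit 327424) (nat_lit 8) .nil)))) (.g (nat_lit 0) (.e (nat_lit 90331) (nat_lit 0) .nil) .nil))) 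
(.lf (nat_lit 472707) (.g (nat_lit 4315) (.e (nat_lit 3771) (nat_lit 229) (.e (nat_lit 794673) (nat_lit 23) (.e (nat_lit 204829) (nat_lit 18) (.e (nat_lit 57849) (nat_lit 252) (.e (nat_lit 57377) (nat_lit 3) (.e (nat_lit 98313) (nat_lit 9) (.e (nat_lit 336027) (nat_lit 3) (.e (nat_lit 98321) (nat_lit 17) .nil)))))))) (.g (nat_lit 1) (.e (nat_lit 91288) (nat_lit 0) .nil) .nil)))) (.nd (nat_lit 9) 
(.lf (nat_lit 472451) (.g (nat_lit 1558) (.e (nat_lit 3647) (nat_lit 227) (.e (nat_lit 778462) (nat_lit 11) (.e (nat_lit 24604) (nat_lit 2) (.e (nat_lit 90185) (nat_lit 17) (.e (nat_lit 237601) (nat_lit 9) .nil))))) (.g (nat_lit 0) (.e (nat_lit 90598) (nat_lit 0) .nil) .nil))) 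
(.lf (nat_lit 472963) (.g (nat_lit 3049) (.e (nat_lit 3469) (nat_lit 217) (.e (nat_lit 696344) (nat_lit 8) (.e (nat_lit 172079) (nat_lit 7) (.e (nat_lit 409649) (nat_lit 18) (.e (nat_lit 303140) (nat_lit 10) (.e (nat_lit 434275) (nat_lit 39) (.e (nat_lit 663572) (nat_lit 9) (.e (nat_lit 2467) (nat_lit 157) .nil)))))))) (.g (nat_lit 1) (.e (nat_lit 92091) (nat_lit 0) .nil) .nil)))))) 
(.nd (nat_lit 7) (.nd (nat_lit 8) (.nd (nat_lit 9) 
(.lf (nat_lit 472131) (.g (nat_lit 1842) (.e (nat_lit 3606) (nat_lit 226) (.e (nat_lit 770072) (nat_lit 8) (.e (nat_lit 65586) (nat_lit 7) (.e (nat_lit 319531) (nat_lit 16) (.e (nat_lit 286748) (nat_lit 9) .nil))))) (.g (nat_lit 0) (.e (nat_lit 90257) (nat_lit 0) .nil) .nil))) 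
(.lf (nat_lit 472643) (.g (nat_lit 4263) (.e (nat_lit 3747) (nat_lit 228) (.e (nat_lit 786473) (nat_lit 27) (.e (nat_lit 336051) (nat_lit 6) (.e (nat_lit 147496) (nat_lit 11) (.e (nat_lit 24608) (nat_lit 3) (.e (nat_lit 98341) (nat_lit 20) (.e (nat_lit 221204) (nat_lit 20) .nil))))))) (.g (nat_lit 1) (.e (nat_lit 91079) (nat_lit 0) .nil) .nil)))) (.nd (nat_lit 9) 
(.lf (nat_lit 472387) (.g (nat_lit 2250) (.e (nat_lit 3632) (nat_lit 227) (.e (nat_lit 778323) (nat_lit 5) (.e (nat_lit 73782) (nat_lit 32) (.e (nat_lit 2856) (nat_lit 184) (.e (nat_lit 426556) (nat_lit 32) (.e (nat_lit 376835) (nat_lit 0) .nil)))))) (.g (nat_lit 1) (.e (nat_lit 90529) (nat_lit 0) .nil) .nil))) 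
(.lf (nat_lit 472899) (.g (nat_lit 2976) (.e (nat_lit 3468) (nat_lit 217) (.e (nat_lit 696344) (nat_lit 8) (.e (nat_lit 172115) (nat_lit 10) (.e (nat_lit 434289) (nat_lit 43) (.e (nat_lit 696346) (nat_lit 10) (.e (nat_lit 188438) (nat_lit 20) .nil)))))) (.g (nat_lit 1) (.e (nat_lit 91820) (nat_lit 0) .nil) .nil))))) (.nd (nat_lit 8) (.nd (nat_lit 9) 
(.lf (nat_lit 472259) (.g (nat_lit 2989) (.e (nat_lit 3631) (nat_lit 227) (.e (nat_lit 778317) (nat_lit 3) (.e (nat_lit 57474) (nat_lit 28) (.e (nat_lit 557100) (nat_lit 13) (.e (nat_lit 172106) (nat_lit 10) (.e (nat_lit 434231) (nat_lit 23) (.e (nat_lit 532535) (nat_lit 9) (.e (nat_lit 336295) (nat_lit 15) .nil)))))))) (.g (nat_lit 1) (.e (nat_lit 90398) (nat_lit 0) .nil) .nil))) 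
(.lf (nat_lit 472771) (.g (nat_lit 2074) (.e (nat_lit 3467) (nat_lit 217) (.e (nat_lit 696343) (nat_lit 8) (.e (nat_lit 172106) (nat_lit 10) (.e (nat_lit 434209) (nat_lit 18) (.e (nat_lit 6272) (nat_lit 337) .nil))))) (.g (nat_lit 0) (.e (nat_lit 91521) (nat_lit 0) .nil) .nil)))) (.nd (nat_lit 9) 
(.lf (nat_lit 472515) (.g (nat_lit 3353) (.e (nat_lit 3711) (nat_lit 227) (.e (nat_lit 786176) (nat_lit 3) (.e (nat_lit 57480) (nat_lit 28) (.e (nat_lit 557109) (nat_lit 15) (.e (nat_lit 188452) (nat_lit 23) (.e (nat_lit 204855) (nat_lit 26) (.e (nat_lit 336290) (nat_lit 15) .nil))))))) (.g (nat_lit 1) (.e (nat_lit 90710) (nat_lit 0) .nil) .nil))) 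
(.lf (nat_lit 473027) (.g (nat_lit 1845) (.e (nat_lit 3469) (nat_lit 217) (.e (nat_lit 696344) (nat_lit 8) (.e (nat_lit 172106) (nat_lit 10) (.e (nat_lit 434202) (nat_lit 18) (.e (nat_lit 6416) (nat_lit 341) (.e (nat_lit 163920) (nat_lit 14) (.e (nat_lit 442412) (nat_lit 20) .nil))))))) (.g (nat_lit 1) (.e (nat_lit 92159) (nat_lit 0) .nil) .nil))))))) 
(.nd (nat_lit 6) (.nd (nat_lit 7) (.nd (nat_lit 8) (.nd (nat_lit 9) 
(.lf (nat_lit 472099) (.g (nat_lit 2925) (.e (nat_lit 3410) (nat_lit 212) (.e (nat_lit 655375) (nat_lit 3) (.e (nat_lit 163979) (nat_lit 30) (.e (nat_lit 573492) (nat_lit 15) (.e (nat_lit 81956) (nat_lit 23) (.e (nat_lit 98355) (nat_lit 26) (.e (nat_lit 425986) (nat_lit 0) .nil))))))) (.g (nat_lit 1) (.e (nat_lit 88524) (nat_lit 0) .nil) .nil))) 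
(.lf (nat_lit 472611) (.g (nat_lit 2702) (.e (nat_lit 3746) (nat_lit 228) (.e (nat_lit 786480) (nat_lit 29) (.e (nat_lit 352316) (nat_lit 24) (.e (nat_lit 123197) (nat_lit 266) (.e (nat_lit 57435) (nat_lit 17) (.e (nat_lit 376835) (nat_lit 0) .nil)))))) (.g (nat_lit 1) (.e (nat_lit 91045) (nat_lit 0) .nil) .nil)))) (.nd (nat_lit 9) 
(.lf (nat_lit 472355) (.g (nat_lit 2699) (.e (nat_lit 3632) (nat_lit 227) (.e (nat_lit 778318) (nat_lit 3) (.e (nat_lit 57476) (nat_lit 28) (.e (nat_lit 557108) (nat_lit 15) (.e (nat_lit 188449) (nat_lit 22) (.e (nat_lit 204544) (nat_lit 13) (.e (nat_lit 65637) (nat_lit 15) .nil))))))) (.g (nat_lit 1) (.e (nat_lit 90496) (nat_lit 0) .nil) .nil))) 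
(.lf (nat_lit 472867) (.g (nat_lit 2196) (.e (nat_lit 3468) (nat_lit 217) (.e (nat_lit 696344) (nat_lit 8) (.e (nat_lit 172106) (nat_lit 10) (.e (nat_lit 434209) (nat_lit 18) (.e (nat_lit 6427) (nat_lit 342) (.e (nat_lit 229412) (nat_lit 14) (.e (nat_lit 442408) (nat_lit 20) .nil))))))) (.g (nat_lit 1) (.e (nat_lit 91747) (nat_lit 0) .nil) .nil))))) (.nd (nat_lit 8) (.nd (nat_lit 9) 
(.lf (nat_lit 472227) (.g (nat_lit 1889) (.e (nat_lit 3629) (nat_lit 227) (.e (nat_lit 778326) (nat_lit 6) (.e (nat_lit 81957) (nat_lit 24) (.e (nat_lit 123198) (nat_lit 266) (.e (nat_lit 57436) (nat_lit 17) (.e (nat_lit 376835) (nat_lit 0) .nil)))))) (.g (nat_lit 1) (.e (nat_lit 90365) (nat_lit 0) .nil) .nil))) 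
(.lf (nat_lit 472739) (.g (nat_lit 1691) (.e (nat_lit 3464) (nat_lit 217) (.e (nat_lit 696343) (nat_lit 8) (.e (nat_lit 172113) (nat_lit 10) (.e (nat_lit 434203) (nat_lit 18) (.e (nat_lit 6416) (nat_lit 341) (.e (nat_lit 163933) (nat_lit 17) (.e (nat_lit 466967) (nat_lit 20) .nil))))))) (.g (nat_lit 1) (.e (nat_lit 91475) (nat_lit 0) .nil) .nil)))) (.nd (nat_lit 9) 
(.lf (nat_lit 472483) (.g (nat_lit 1850) (.e (nat_lit 3660) (nat_lit 227) (.e (nat_lit 778462) (nat_lit 11) (.e (nat_lit 24658) (nat_lit 13) (.e (nat_lit 393281) (nat_lit 23) (.e (nat_lit 426100) (nat_lit 1) (.e (nat_lit 164332) (nat_lit 230) (.e (nat_lit 163847) (nat_lit 0) .nil))))))) (.g (nat_lit 1) (.e (nat_lit 90648) (nat_lit 0) .nil) .nil))) 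
(.lf (nat_lit 472995) (.g (nat_lit 2742) (.e (nat_lit 3469) (nat_lit 217) (.e (nat_lit 696344) (nat_lit 8) (.e (nat_lit 172082) (nat_lit 7) (.e (nat_lit 409646) (nat_lit 18) (.e (nat_lit 303140) (nat_lit 10) (.e (nat_lit 434202) (nat_lit 18) (.e (nat_lit 5964) (nat_lit 324) (.e (nat_lit 163850) (nat_lit 0) .nil)))))))) (.g (nat_lit 1) (.e (nat_lit 92123) (nat_lit 0) .nil) .nil)))))) 
(.nd (nat_lit 7) (.nd (nat_lit 8) (.nd (nat_lit 9) 
(.lf (nat_lit 472163) (.g (nat_lit 469) (.e (nat_lit 3614) (nat_lit 226) (.e (nat_lit 770074) (nat_lit 10) (.e (nat_lit 89856) (nat_lit 16) .nil))) (.g (nat_lit 0) (.e (nat_lit 90291) (nat_lit 0) .nil) .nil))) 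
(.lf (nat_lit 472675) (.g (nat_lit 2959) (.e (nat_lit 3748) (nat_lit 228) (.e (nat_lit 786478) (nat_lit 29) (.e (nat_lit 352262) (nat_lit 0) (.e (nat_lit 3748) (nat_lit 228) (.e (nat_lit 786480) (nat_lit 29) (.e (nat_lit 352265) (nat_lit 0) .nil)))))) (.g (nat_lit 1) (.e (nat_lit 91145) (nat_lit 0) .nil) .nil)))) (.nd (nat_lit 9) 
(.lf (nat_lit 472419) (.g (nat_lit 1553) (.e (nat_lit 3632) (nat_lit 227) (.e (nat_lit 778326) (nat_lit 6) (.e (nat_lit 81922) (nat_lit 0) (.e (nat_lit 3631) (nat_lit 227) (.e (nat_lit 778327) (nat_lit 6) (.e (nat_lit 81922) (nat_lit 0) .nil)))))) (.g (nat_lit 1) (.e (nat_lit 90562) (nat_lit 0) .nil) .nil))) 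
(.lf (nat_lit 472931) (.g (nat_lit 2381) (.e (nat_lit 3469) (nat_lit 217) (.e (nat_lit 696344) (nat_lit 8) (.e (nat_lit 172079) (nat_lit 7) (.e (nat_lit 409645) (nat_lit 18) (.e (nat_lit 303135) (nat_lit 10) (.e (nat_lit 434275) (nat_lit 39) (.e (nat_lit 663574) (nat_lit 9) (.e (nat_lit 2472) (nat_lit 157) .nil)))))))) (.g (nat_lit 1) (.e (nat_lit 92059) (nat_lit 0) .nil) .nil))))) 
(.nd (nat_lit 8) (.nd (nat_lit 9) 
(.lf (nat_lit 472291) (.g (nat_lit 2849) (.e (nat_lit 3631) (nat_lit 227) (.e (nat_lit 778323) (nat_lit 5) (.e (nat_lit 73781) (nat_lit 32) (.e (nat_lit 3090) (nat_lit 191) (.e (nat_lit 483380) (nat_lit 23) (.e (nat_lit 336297) (nat_lit 15) .nil)))))) (.g (nat_lit 1) (.e (nat_lit 90431) (nat_lit 0) .nil) .nil))) 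
(.lf (nat_lit 472803) (.g (nat_lit 3450) (.e (nat_lit 3468) (nat_lit 217) (.e (nat_lit 696343) (nat_lit 8) (.e (nat_lit 172106) (nat_lit 10) (.e (nat_lit 434209) (nat_lit 18) (.e (nat_lit 6427) (nat_lit 342) (.e (nat_lit 229412) (nat_lit 14) (.e (nat_lit 442411) (nat_lit 20) .nil))))))) (.g (nat_lit 1) (.e (nat_lit 91635) (nat_lit 0) .nil) .nil)))) (.nd (nat_lit 9) 
(.lf (nat_lit 472547) (.g (nat_lit 3451) (.e (nat_lit 3714) (nat_lit 227) (.e (nat_lit 778316) (nat_lit 3) (.e (nat_lit 57480) (nat_lit 28) (.e (nat_lit 557109) (nat_lit 15) (.e (nat_lit 188449) (nat_lit 22) (.e (nat_lit 196666) (nat_lit 13) (.e (nat_lit 65639) (nat_lit 15) .nil))))))) (.g (nat_lit 1) (.e (nat_lit 90744) (nat_lit 0) .nil) .nil))) 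
(.lf (nat_lit 473059) (.g (nat_lit 3042) (.e (nat_lit 3469) (nat_lit 217) (.e (nat_lit 696344) (nat_lit 8) (.e (nat_lit 172106) (nat_lit 10) (.e (nat_lit 434288) (nat_lit 43) (.e (nat_lit 696346) (nat_lit 10) (.e (nat_lit 188441) (nat_lit 20) .nil)))))) (.g (nat_lit 1) (.e (nat_lit 92191) (nat_lit 0) .nil) .nil)))))))) 
(.nd (nat_lit 5) (.nd (nat_lit 6) (.nd (nat_lit 7) (.nd (nat_lit 8) (.nd (nat_lit 9) 
(.lf (nat_lit 472083) (.g (nat_lit 1717) (.e (nat_lit 3409) (nat_lit 212) (.e (nat_lit 655380) (nat_lit 6) (.e (nat_lit 188418) (nat_lit 0) (.e (nat_lit 2059) (nat_lit 142) (.e (nat_lit 704598) (nat_lit 6) (.e (nat_lit 188435) (nat_lit 20) .nil)))))) (.g (nat_lit 1) (.e (nat_lit 88503) (nat_lit 0) .nil) .nil))) 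
(.lf (nat_lit 472595) (.g (nat_lit 1691) (.e (nat_lit 3721) (nat_lit 227) (.e (nat_lit 778464) (nat_lit 11) (.e (nat_lit 24607) (nat_lit 3) (.e (nat_lit 98369) (nat_lit 28) (.e (nat_lit 450304) (nat_lit 3) .nil))))) (.g (nat_lit 0) (.e (nat_lit 90797) (nat_lit 0) .nil) .nil)))) (.nd (nat_lit 9) 
(.lf (nat_lit 472339) (.g (nat_lit 2699) (.e (nat_lit 3632) (nat_lit 227) (.e (nat_lit 778318) (nat_lit 3) (.e (nat_lit 57476) (nat_lit 28) (.e (nat_lit 557097) (nat_lit 13) (.e (nat_lit 172115) (nat_lit 10) (.e (nat_lit 434231) (nat_lit 23) (.e (nat_lit 532529) (nat_lit 9) (.e (nat_lit 336297) (nat_lit 15) .nil)))))))) (.g (nat_lit 1) (.e (nat_lit 90480) (nat_lit 0) .nil) .nil))) 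
(.lf (nat_lit 472851) (.g (nat_lit 2375) (.e (nat_lit 3468) (nat_lit 217) (.e (nat_lit 696344) (nat_lit 8) (.e (nat_lit 172079) (nat_lit 7) (.e (nat_lit 409648) (nat_lit 18) (.e (nat_lit 303137) (nat_lit 10) .nil))))) (.g (nat_lit 0) (.e (nat_lit 91719) (nat_lit 0) .nil) .nil))))) (.nd (nat_lit 8) (.nd (nat_lit 9) 
(.lf (nat_lit 472211) (.g (nat_lit 4210) (.e (nat_lit 3629) (nat_lit 227) (.e (nat_lit 778318) (nat_lit 3) (.e (nat_lit 57476) (nat_lit 28) (.e (nat_lit 557097) (nat_lit 13) (.e (nat_lit 172105) (nat_lit 10) (.e (nat_lit 434231) (nat_lit 23) (.e (nat_lit 532535) (nat_lit 9) (.e (nat_lit 336295) (nat_lit 15) .nil)))))))) (.g (nat_lit 1) (.e (nat_lit 90348) (nat_lit 0) .nil) .nil))) 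
(.lf (nat_lit 472723) (.g (nat_lit 3071) (.e (nat_lit 3455) (nat_lit 216) (.e (nat_lit 688174) (nat_lit 16) (.e (nat_lit 65568) (nat_lit 2) (.e (nat_lit 90170) (nat_lit 13) (.e (nat_lit 172106) (nat_lit 10) (.e (nat_lit 434231) (nat_lit 23) (.e (nat_lit 540416) (nat_lit 17) .nil))))))) (.g (nat_lit 1) (.e (nat_lit 91405) (nat_lit 0) .nil) .nil)))) (.nd (nat_lit 9) 
(.lf (nat_lit 472467) (.g (nat_lit 1559) (.e (nat_lit 3661) (nat_lit 227) (.e (nat_lit 778462) (nat_lit 11) (.e (nat_lit 24604) (nat_lit 2) (.e (nat_lit 90185) (nat_lit 17) (.e (nat_lit 237601) (nat_lit 9) (.e (nat_lit 426436) (nat_lit 18) (.e (nat_lit 98321) (nat_lit 17) .nil))))))) (.g (nat_lit 1) (.e (nat_lit 90621) (nat_lit 0) .nil) .nil))) 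
(.lf (nat_lit 472979) (.g (nat_lit 3924) (.e (nat_lit 3469) (nat_lit 217) (.e (nat_lit 696344) (nat_lit 8) (.e (nat_lit 172081) (nat_lit 7) (.e (nat_lit 409649) (nat_lit 18) (.e (nat_lit 303140) (nat_lit 10) (.e (nat_lit 434275) (nat_lit 39) (.e (nat_lit 663574) (nat_lit 9) (.e (nat_lit 2457) (nat_lit 157) .nil)))))))) (.g (nat_lit 1) (.e (nat_lit 92107) (nat_lit 0) .nil) .nil)))))) 
(.nd (nat_lit 7) (.nd (nat_lit 8) (.nd (nat_lit 9) 
(.lf (nat_lit 472147) (.g (nat_lit 1931) (.e (nat_lit 3613) (nat_lit 226) (.e (nat_lit 770072) (nat_lit 8) (.e (nat_lit 65571) (nat_lit 3) (.e (nat_lit 98382) (nat_lit 31) .nil)))) (.g (nat_lit 0) (.e (nat_lit 90275) (nat_lit 0) .nil) .nil))) 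
(.lf (nat_lit 472659) (.g (nat_lit 2736) (.e (nat_lit 3747) (nat_lit 228) (.e (nat_lit 786477) (nat_lit 28) (.e (nat_lit 344177) (nat_lit 43) (.e (nat_lit 770072) (nat_lit 8) (.e (nat_lit 65571) (nat_lit 3) (.e (nat_lit 98341) (nat_lit 20) (.e (nat_lit 221204) (nat_lit 20) .nil))))))) (.g (nat_lit 1) (.e (nat_lit 91096) (nat_lit 0) .nil) .nil)))) (.nd (nat_lit 9) 
(.lf (nat_lit 472403) (.g (nat_lit 1225) (.e (nat_lit 3632) (nat_lit 227) (.e (nat_lit 778324) (nat_lit 5) (.e (nat_lit 73781) (nat_lit 32) (.e (nat_lit 3089) (nat_lit 191) (.e (nat_lit 483387) (nat_lit 23) .nil))))) (.g (nat_lit 0) (.e (nat_lit 90546) (nat_lit 0) .nil) .nil))) 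
(.lf (nat_lit 472915) (.g (nat_lit 5559) (.e (nat_lit 3469) (nat_lit 217) (.e (nat_lit 696344) (nat_lit 8) (.e (nat_lit 172067) (nat_lit 3) (.e (nat_lit 204855) (nat_lit 26) (.e (nat_lit 336176) (nat_lit 10) (.e (nat_lit 344130) (nat_lit 26) (.e (nat_lit 557067) (nat_lit 9) (.e (nat_lit 2467) (nat_lit 157) .nil)))))))) (.g (nat_lit 1) (.e (nat_lit 92043) (nat_lit 0) .nil) .nil))))) 
(.nd (nat_lit 8) (.nd (nat_lit 9) 
(.lf (nat_lit 472275) (.g (nat_lit 4573) (.e (nat_lit 3631) (nat_lit 227) (.e (nat_lit 778318) (nat_lit 3) (.e (nat_lit 57476) (nat_lit 28) (.e (nat_lit 557097) (nat_lit 13) (.e (nat_lit 172115) (nat_lit 10) (.e (nat_lit 434231) (nat_lit 23) (.e (nat_lit 532535) (nat_lit 9) (.e (nat_lit 336295) (nat_lit 15) .nil)))))))) (.g (nat_lit 1) (.e (nat_lit 90414) (nat_lit 0) .nil) .nil))) 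
(.lf (nat_lit 472787) (.g (nat_lit 2044) (.e (nat_lit 3467) (nat_lit 217) (.e (nat_lit 696344) (nat_lit 8) (.e (nat_lit 172106) (nat_lit 10) (.e (nat_lit 434209) (nat_lit 18) (.e (nat_lit 6428) (nat_lit 342) .nil))))) (.g (nat_lit 0) (.e (nat_lit 91554) (nat_lit 0) .nil) .nil)))) (.nd (nat_lit 9) 
(.lf (nat_lit 472531) (.g (nat_lit 1807) (.e (nat_lit 3713) (nat_lit 227) (.e (nat_lit 778469) (nat_lit 11) (.e (nat_lit 24604) (nat_lit 2) (.e (nat_lit 90185) (nat_lit 17) (.e (nat_lit 237616) (nat_lit 12) .nil))))) (.g (nat_lit 0) (.e (nat_lit 90728) (nat_lit 0) .nil) .nil))) 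
(.lf (nat_lit 473043) (.g (nat_lit 2799) (.e (nat_lit 3469) (nat_lit 217) (.e (nat_lit 696344) (nat_lit 8) (.e (nat_lit 172106) (nat_lit 10) (.e (nat_lit 434209) (nat_lit 18) (.e (nat_lit 6284) (nat_lit 337) (.e (nat_lit 7936) (nat_lit 166) (.e (nat_lit 188440) (nat_lit 20) .nil))))))) (.g (nat_lit 1) (.e (nat_lit 92175) (nat_lit 0) .nil) .nil))))))) 
(.nd (nat_lit 6) (.nd (nat_lit 7) (.nd (nat_lit 8) (.nd (nat_lit 9) 
(.lf (nat_lit 472115) (.g (nat_lit 305) (.e (nat_lit 3605) (nat_lit 225) (.e (nat_lit 761903) (nat_lit 16) (.e (nat_lit 172115) (nat_lit 10) .nil))) (.g (nat_lit 0) (.e (nat_lit 89316) (nat_lit 0) .nil) .nil))) 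
(.lf (nat_lit 472627) (.g (nat_lit 2895) (.e (nat_lit 3746) (nat_lit 228) (.e (nat_lit 786483) (nat_lit 30) (.e (nat_lit 360456) (nat_lit 0) (.e (nat_lit 5949) (nat_lit 322) (.e (nat_lit 57435) (nat_lit 17) (.e (nat_lit 376835) (nat_lit 0) .nil)))))) (.g (nat_lit 1) (.e (nat_lit 91061) (nat_lit 0) .nil) .nil)))) (.nd (nat_lit 9) 
(.lf (nat_lit 472371) (.g (nat_lit 1511) (.e (nat_lit 3632) (nat_lit 227) (.e (nat_lit 778323) (nat_lit 5) (.e (nat_lit 73781) (nat_lit 32) (.e (nat_lit 3090) (nat_lit 191) (.e (nat_lit 483379) (nat_lit 23) .nil))))) (.g (nat_lit 0) (.e (nat_lit 90513) (nat_lit 0) .nil) .nil))) 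
(.lf (nat_lit 472883) (.g (nat_lit 1085) (.e (nat_lit 3468) (nat_lit 217) (.e (nat_lit 696344) (nat_lit 8) (.e (nat_lit 172113) (nat_lit 10) (.e (nat_lit 434203) (nat_lit 18) .nil)))) (.g (nat_lit 0) (.e (nat_lit 91773) (nat_lit 0) .nil) .nil))))) (.nd (nat_lit 8) (.nd (nat_lit 9) 
(.lf (nat_lit 472243) (.g (nat_lit 1950) (.e (nat_lit 3630) (nat_lit 227) (.e (nat_lit 778318) (nat_lit 3) (.e (nat_lit 57476) (nat_lit 28) (.e (nat_lit 557107) (nat_lit 15) (.e (nat_lit 188450) (nat_lit 23) .nil))))) (.g (nat_lit 0) (.e (nat_lit 90382) (nat_lit 0) .nil) .nil))) 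
(.lf (nat_lit 472755) (.g (nat_lit 1490) (.e (nat_lit 3464) (nat_lit 217) (.e (nat_lit 696344) (nat_lit 8) (.e (nat_lit 172106) (nat_lit 10) (.e (nat_lit 434202) (nat_lit 18) (.e (nat_lit 6420) (nat_lit 341) .nil))))) (.g (nat_lit 0) (.e (nat_lit 91491) (nat_lit 0) .nil) .nil)))) (.nd (nat_lit 9) 
(.lf (nat_lit 472499) (.g (nat_lit 3531) (.e (nat_lit 3711) (nat_lit 227) (.e (nat_lit 778316) (nat_lit 3) (.e (nat_lit 57480) (nat_lit 28) (.e (nat_lit 557109) (nat_lit 15) (.e (nat_lit 188449) (nat_lit 22) (.e (nat_lit 196666) (nat_lit 13) (.e (nat_lit 65639) (nat_lit 15) .nil))))))) (.g (nat_lit 1) (.e (nat_lit 90694) (nat_lit 0) .nil) .nil))) 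
(.lf (nat_lit 473011) (.g (nat_lit 3493) (.e (nat_lit 3469) (nat_lit 217) (.e (nat_lit 696344) (nat_lit 8) (.e (nat_lit 172082) (nat_lit 7) (.e (nat_lit 409649) (nat_lit 18) (.e (nat_lit 303140) (nat_lit 10) (.e (nat_lit 434275) (nat_lit 39) (.e (nat_lit 663574) (nat_lit 9) (.e (nat_lit 2456) (nat_lit 157) .nil)))))))) (.g (nat_lit 1) (.e (nat_lit 92139) (nat_lit 0) .nil) .nil)))))) 
(.nd (nat_lit 7) (.nd (nat_lit 8) (.nd (nat_lit 9) 
(.lf (nat_lit 472179) (.g (nat_lit 3429) (.e (nat_lit 3617) (nat_lit 227) (.e (nat_lit 778462) (nat_lit 11) (.e (nat_lit 24604) (nat_lit 2) (.e (nat_lit 90185) (nat_lit 17) (.e (nat_lit 237619) (nat_lit 12) (.e (nat_lit 475177) (nat_lit 24) (.e (nat_lit 516097) (nat_lit 0) .nil))))))) (.g (nat_lit 1) (.e (nat_lit 90310) (nat_lit 0) .nil) .nil))) 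
(.lf (nat_lit 472691) (.g (nat_lit 541) (.e (nat_lit 3753) (nat_lit 228) (.e (nat_lit 786480) (nat_lit 29) (.e (nat_lit 360192) (nat_lit 4) .nil))) (.g (nat_lit 0) (.e (nat_lit 91186) (nat_lit 0) .nil) .nil)))) (.nd (nat_lit 9) 
(.lf (nat_lit 472435) (.g (nat_lit 4803) (.e (nat_lit 3634) (nat_lit 227) (.e (nat_lit 778318) (nat_lit 3) (.e (nat_lit 57476) (nat_lit 28) (.e (nat_lit 557108) (nat_lit 15) (.e (nat_lit 188452) (nat_lit 23) (.e (nat_lit 204852) (nat_lit 26) (.e (nat_lit 336257) (nat_lit 15) .nil))))))) (.g (nat_lit 1) (.e (nat_lit 90582) (nat_lit 0) .nil) .nil))) 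
(.lf (nat_lit 472947) (.g (nat_lit 2374) (.e (nat_lit 3469) (nat_lit 217) (.e (nat_lit 696344) (nat_lit 8) (.e (nat_lit 172079) (nat_lit 7) (.e (nat_lit 409645) (nat_lit 18) (.e (nat_lit 303140) (nat_lit 10) (.e (nat_lit 434275) (nat_lit 39) (.e (nat_lit 663572) (nat_lit 9) (.e (nat_lit 2467) (nat_lit 157) .nil)))))))) (.g (nat_lit 1) (.e (nat_lit 92075) (nat_lit 0) .nil) .nil))))) 
(.nd (nat_lit 8) (.nd (nat_lit 9) 
(.lf (nat_lit 472307) (.g (nat_lit 3355) (.e (nat_lit 3631) (nat_lit 227) (.e (nat_lit 778323) (nat_lit 5) (.e (nat_lit 73782) (nat_lit 32) (.e (nat_lit 3090) (nat_lit 191) (.e (nat_lit 483380) (nat_lit 23) (.e (nat_lit 336268) (nat_lit 15) .nil)))))) (.g (nat_lit 1) (.e (nat_lit 90447) (nat_lit 0) .nil) .nil))) 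
(.lf (nat_lit 472819) (.g (nat_lit 2831) (.e (nat_lit 3468) (nat_lit 217) (.e (nat_lit 696343) (nat_lit 8) (.e (nat_lit 172112) (nat_lit 10) (.e (nat_lit 434289) (nat_lit 43) (.e (nat_lit 696346) (nat_lit 10) (.e (nat_lit 188440) (nat_lit 20) .nil)))))) (.g (nat_lit 1) (.e (nat_lit 91657) (nat_lit 0) .nil) .nil)))) (.nd (nat_lit 9) 
(.lf (nat_lit 472563) (.g (nat_lit 2539) (.e (nat_lit 3716) (nat_lit 227) (.e (nat_lit 778319) (nat_lit 4) (.e (nat_lit 65630) (nat_lit 14) (.e (nat_lit 401437) (nat_lit 9) (.e (nat_lit 426540) (nat_lit 29) (.e (nat_lit 352258) (nat_lit 0) .nil)))))) (.g (nat_lit 1) (.e (nat_lit 90761) (nat_lit 0) .nil) .nil))) 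
(.lf (nat_lit 473075) (.g (nat_lit 2402) (.e (nat_lit 3469) (nat_lit 217) (.e (nat_lit 696344) (nat_lit 8) (.e (nat_lit 172113) (nat_lit 10) (.e (nat_lit 434203) (nat_lit 18) (.e (nat_lit 6420) (nat_lit 341) (.e (nat_lit 163920) (nat_lit 14) (.e (nat_lit 442411) (nat_lit 20) .nil))))))) (.g (nat_lit 1) (.e (nat_lit 92207) (nat_lit 0) .nil) .nil))))))))) 
(.nd (nat_lit 4) (.nd (nat_lit 5) (.nd (nat_lit 6) (.nd (nat_lit 7) (.nd (nat_lit 8) 
(.nd (nat_lit 9) 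
(.lf (nat_lit 472075) (.g (nat_lit 1341) (.e (nat_lit 3409) (nat_lit 212) (.e (nat_lit 655378) (nat_lit 4) (.e (nat_lit 172126) (nat_lit 14) (.e (nat_lit 491548) (nat_lit 9) .nil)))) (.g (nat_lit 0) (.e (nat_lit 88493) (nat_lit 0) .nil) .nil))) 
(.lf (nat_lit 472587) (.g (nat_lit 2696) (.e (nat_lit 3720) (nat_lit 227) (.e (nat_lit 778466) (nat_lit 11) (.e (nat_lit 24617) (nat_lit 7) (.e (nat_lit 319534) (nat_lit 16) (.e (nat_lit 286756) (nat_lit 10) (.e (nat_lit 344168) (nat_lit 40) (.e (nat_lit 671772) (nat_lit 9) (.e (nat_lit 2438) (nat_lit 157) .nil)))))))) (.g (nat_lit 1) (.e (nat_lit 90786) (nat_lit 0) .nil) .nil)))) 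
(.nd (nat_lit 9) 
(.lf (nat_lit 472331) (.g (nat_lit 4069) (.e (nat_lit 3632) (nat_lit 227) (.e (nat_lit 778317) (nat_lit 3) (.e (nat_lit 57479) (nat_lit 28) (.e (nat_lit 557099) (nat_lit 13) (.e (nat_lit 172106) (nat_lit 10) (.e (nat_lit 434231) (nat_lit 23) (.e (nat_lit 532535) (nat_lit 9) (.e (nat_lit 336295) (nat_lit 15) .nil)))))))) (.g (nat_lit 1) (.e (nat_lit 90472) (nat_lit 0) .nil) .nil))) 
(.lf (nat_lit 472843) (.g (nat_lit 2244) (.e (nat_lit 3468) (nat_lit 217) (.e (nat_lit 696343) (nat_lit 8) (.e (nat_lit 172116) (nat_lit 10) (.e (nat_lit 434289) (nat_lit 43) (.e (nat_lit 696346) (nat_lit 10) (.e (nat_lit 188439) (nat_lit 20) .nil)))))) (.g (nat_lit 1) (.e (nat_lit 91710) (nat_lit 0) .nil) .nil))))) (.nd (nat_lit 8) (.nd (nat_lit 9) 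
(.lf (nat_lit 472203) (.g (nat_lit 4893) (.e (nat_lit 3620) (nat_lit 227) (.e (nat_lit 778318) (nat_lit 3) (.e (nat_lit 57476) (nat_lit 28) (.e (nat_lit 557108) (nat_lit 15) (.e (nat_lit 188452) (nat_lit 23) (.e (nat_lit 204852) (nat_lit 26) (.e (nat_lit 336257) (nat_lit 15) .nil))))))) (.g (nat_lit 1) (.e (nat_lit 90340) (nat_lit 0) .nil) .nil))) 
(.lf (nat_lit 472715) (.g (nat_lit 2798) (.e (nat_lit 3771) (nat_lit 229) (.e (nat_lit 794673) (nat_lit 23) (.e (nat_lit 204852) (nat_lit 26) (.e (nat_lit 336326) (nat_lit 18) (.e (nat_lit 204831) (nat_lit 18) (.e (nat_lit 57830) (nat_lit 250) (.e (nat_lit 1016) (nat_lit 81) (.e (nat_lit 1256) (nat_lit 92) (.e (nat_lit 98321) (nat_lit 17) .nil))))))))) (.g (nat_lit 1) (.e (nat_lit 91302) (nat_lit 0) .nil) .nil)))) 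
(.nd (nat_lit 9) 
(.lf (nat_lit 472459) (.g (nat_lit 3283) (.e (nat_lit 3651) (nat_lit 227) (.e (nat_lit 778462) (nat_lit 11) (.e (nat_lit 24608) (nat_lit 3) (.e (nat_lit 98365) (nat_lit 26) (.e (nat_lit 426188) (nat_lit 9) (.e (nat_lit 426436) (nat_lit 18) (.e (nat_lit 98321) (nat_lit 17) .nil))))))) (.g (nat_lit 1) (.e (nat_lit 90606) (nat_lit 0) .nil) .nil))) 
(.lf (nat_lit 472971) (.g (nat_lit 2605) (.e (nat_lit 3469) (nat_lit 217) (.e (nat_lit 696344) (nat_lit 8) (.e (nat_lit 172081) (nat_lit 7) (.e (nat_lit 409648) (nat_lit 18) (.e (nat_lit 303137) (nat_lit 10) (.e (nat_lit 434275) (nat_lit 39) (.e (nat_lit 663574) (nat_lit 9) (.e (nat_lit 2456) (nat_lit 157) .nil)))))))) (.g (nat_lit 1) (.e (nat_lit 92099) (nat_lit 0) .nil) .nil)))))) 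
(.nd (nat_lit 7) (.nd (nat_lit 8) (.nd (nat_lit 9) 
(.lf (nat_lit 472139) (.g (nat_lit 2033) (.e (nat_lit 3608) (nat_lit 226) (.e (nat_lit 770072) (nat_lit 8) (.e (nat_lit 65583) (nat_lit 7) (.e (nat_lit 319530) (nat_lit 16) (.e (nat_lit 286748) (nat_lit 9) .nil))))) (.g (nat_lit 0) (.e (nat_lit 90265) (nat_lit 0) .nil) .nil))) 
(.lf (nat_lit 472651) (.g (nat_lit 1503) (.e (nat_lit 3747) (nat_lit 228) (.e (nat_lit 786473) (nat_lit 27) (.e (nat_lit 336235) (nat_lit 14) (.e (nat_lit 401438) (nat_lit 9) (.e (nat_lit 426539) (nat_lit 29) .nil))))) (.g (nat_lit 0) (.e (nat_lit 91087) (nat_lit 0) .nil) .nil)))) (.nd (nat_lit 9) 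
(.lf (nat_lit 472395) (.g (nat_lit 1886) (.e (nat_lit 3632) (nat_lit 227) (.e (nat_lit 778323) (nat_lit 5) (.e (nat_lit 73782) (nat_lit 32) (.e (nat_lit 3090) (nat_lit 191) (.e (nat_lit 483381) (nat_lit 23) (.e (nat_lit 336270) (nat_lit 15) .nil)))))) (.g (nat_lit 1) (.e (nat_lit 90537) (nat_lit 0) .nil) .nil))) 
(.lf (nat_lit 472907) (.g (nat_lit 2553) (.e (nat_lit 3468) (nat_lit 217) (.e (nat_lit 696344) (nat_lit 8) (.e (nat_lit 172123) (nat_lit 13) (.e (nat_lit 483413) (nat_lit 27) (.e (nat_lit 401439) (nat_lit 9) .nil))))) (.g (nat_lit 0) (.e (nat_lit 91829) (nat_lit 0) .nil) .nil))))) (.nd (nat_lit 8) (.nd (nat_lit 9) 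
(.lf (nat_lit 472267) (.g (nat_lit 3920) (.e (nat_lit 3631) (nat_lit 227) (.e (nat_lit 778318) (nat_lit 3) (.e (nat_lit 57476) (nat_lit 28) (.e (nat_lit 557097) (nat_lit 13) (.e (nat_lit 172097) (nat_lit 9) (.e (nat_lit 426140) (nat_lit 3) (.e (nat_lit 204855) (nat_lit 26) (.e (nat_lit 336295) (nat_lit 15) .nil)))))))) (.g (nat_lit 1) (.e (nat_lit 90406) (nat_lit 0) .nil) .nil))) 
(.lf (nat_lit 472779) (.g (nat_lit 2532) (.e (nat_lit 3467) (nat_lit 217) (.e (nat_lit 696344) (nat_lit 8) (.e (nat_lit 172079) (nat_lit 7) (.e (nat_lit 409648) (nat_lit 18) (.e (nat_lit 303137) (nat_lit 10) .nil))))) (.g (nat_lit 0) (.e (nat_lit 91542) (nat_lit 0) .nil) .nil)))) (.nd (nat_lit 9) 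
(.lf (nat_lit 472523) (.g (nat_lit 3227) (.e (nat_lit 3711) (nat_lit 227) (.e (nat_lit 778469) (nat_lit 11) (.e (nat_lit 24604) (nat_lit 2) (.e (nat_lit 90185) (nat_lit 17) (.e (nat_lit 237616) (nat_lit 12) (.e (nat_lit 475179) (nat_lit 24) (.e (nat_lit 516102) (nat_lit 0) .nil))))))) (.g (nat_lit 1) (.e (nat_lit 90718) (nat_lit 0) .nil) .nil))) 
(.lf (nat_lit 473035) (.g (nat_lit 2624) (.e (nat_lit 3469) (nat_lit 217) (.e (nat_lit 696344) (nat_lit 8) (.e (nat_lit 172106) (nat_lit 10) (.e (nat_lit 434209) (nat_lit 18) (.e (nat_lit 6272) (nat_lit 337) (.e (nat_lit 7936) (nat_lit 166) (.e (nat_lit 188434) (nat_lit 20) .nil))))))) (.g (nat_lit 1) (.e (nat_lit 92167) (nat_lit 0) .nil) .nil))))))) 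
(.nd (nat_lit 6) (.nd (nat_lit 7) (.nd (nat_lit 8) (.nd (nat_lit 9) 
(.lf (nat_lit 472107) (.g (nat_lit 1390) (.e (nat_lit 3604) (nat_lit 225) (.e (nat_lit 761912) (nat_lit 18) (.e (nat_lit 196352) (nat_lit 0) (.e (nat_lit 2030) (nat_lit 140) (.e (nat_lit 688186) (nat_lit 18) (.e (nat_lit 89856) (nat_lit 0) .nil)))))) (.g (nat_lit 1) (.e (nat_lit 89181) (nat_lit 0) .nil) .nil))) 
(.lf (nat_lit 472619) (.g (nat_lit 3298) (.e (nat_lit 3746) (nat_lit 228) (.e (nat_lit 786480) (nat_lit 29) (.e (nat_lit 352318) (nat_lit 24) (.e (nat_lit 123197) (nat_lit 266) (.e (nat_lit 57435) (nat_lit 17) (.e (nat_lit 376835) (nat_lit 0) .nil)))))) (.g (nat_lit 1) (.e (nat_lit 91053) (nat_lit 0) .nil) .nil)))) (.nd (nat_lit 9) 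
(.lf (nat_lit 472363) (.g (nat_lit 3292) (.e (nat_lit 3632) (nat_lit 227) (.e (nat_lit 778321) (nat_lit 4) (.e (nat_lit 65628) (nat_lit 14) (.e (nat_lit 401437) (nat_lit 9) (.e (nat_lit 426540) (nat_lit 29) (.e (nat_lit 352262) (nat_lit 0) .nil)))))) (.g (nat_lit 1) (.e (nat_lit 90504) (nat_lit 0) .nil) .nil))) 
(.lf (nat_lit 472875) (.g (nat_lit 3202) (.e (nat_lit 3468) (nat_lit 217) (.e (nat_lit 696344) (nat_lit 8) (.e (nat_lit 172106) (nat_lit 10) (.e (nat_lit 434289) (nat_lit 43) (.e (nat_lit 696346) (nat_lit 10) (.e (nat_lit 188440) (nat_lit 20) .nil)))))) (.g (nat_lit 1) (.e (nat_lit 91759) (nat_lit 0) .nil) .nil))))) (.nd (nat_lit 8) (.nd (nat_lit 9) 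
(.lf (nat_lit 472235) (.g (nat_lit 277) (.e (nat_lit 3629) (nat_lit 227) (.e (nat_lit 778327) (nat_lit 6) (.e (nat_lit 81934) (nat_lit 20) .nil))) (.g (nat_lit 0) (.e (nat_lit 90374) (nat_lit 0) .nil) .nil))) 
(.lf (nat_lit 472747) (.g (nat_lit 4618) (.e (nat_lit 3464) (nat_lit 217) (.e (nat_lit 696343) (nat_lit 8) (.e (nat_lit 172126) (nat_lit 14) (.e (nat_lit 491566) (nat_lit 12) (.e (nat_lit 385109) (nat_lit 51) (.e (nat_lit 794683) (nat_lit 25) (.e (nat_lit 221198) (nat_lit 20) .nil))))))) (.g (nat_lit 1) (.e (nat_lit 91483) (nat_lit 0) .nil) .nil)))) (.nd (nat_lit 9) 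
(.lf (nat_lit 472491) (.g (nat_lit 2424) (.e (nat_lit 3689) (nat_lit 227) (.e (nat_lit 778466) (nat_lit 11) (.e (nat_lit 24617) (nat_lit 7) (.e (nat_lit 319534) (nat_lit 16) (.e (nat_lit 286756) (nat_lit 10) .nil))))) (.g (nat_lit 0) (.e (nat_lit 90677) (nat_lit 0) .nil) .nil))) 
(.lf (nat_lit 473003) (.g (nat_lit 2577) (.e (nat_lit 3469) (nat_lit 217) (.e (nat_lit 696344) (nat_lit 8) (.e (nat_lit 172082) (nat_lit 7) (.e (nat_lit 409646) (nat_lit 18) (.e (nat_lit 303141) (nat_lit 11) (.e (nat_lit 458777) (nat_lit 18) (.e (nat_lit 5969) (nat_lit 324) (.e (nat_lit 163850) (nat_lit 0) .nil)))))))) (.g (nat_lit 1) (.e (nat_lit 92131) (nat_lit 0) .nil) .nil)))))) 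
(.nd (nat_lit 7) (.nd (nat_lit 8) (.nd (nat_lit 9) 
(.lf (nat_lit 472171) (.g (nat_lit 2454) (.e (nat_lit 3617) (nat_lit 227) (.e (nat_lit 778324) (nat_lit 5) (.e (nat_lit 73781) (nat_lit 32) (.e (nat_lit 3090) (nat_lit 191) (.e (nat_lit 483380) (nat_lit 23) (.e (nat_lit 336258) (nat_lit 15) .nil)))))) (.g (nat_lit 1) (.e (nat_lit 90301) (nat_lit 0) .nil) .nil))) 
(.lf (nat_lit 472683) (.g (nat_lit 2017) (.e (nat_lit 3748) (nat_lit 228) (.e (nat_lit 786480) (nat_lit 29) (.e (nat_lit 352316) (nat_lit 24) (.e (nat_lit 123197) (nat_lit 266) (.e (nat_lit 57423) (nat_lit 14) (.e (nat_lit 352262) (nat_lit 0) .nil)))))) (.g (nat_lit 1) (.e (nat_lit 91159) (nat_lit 0) .nil) .nil)))) (.nd (nat_lit 9) 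
(.lf (nat_lit 472427) (.g (nat_lit 2089) (.e (nat_lit 3632) (nat_lit 227) (.e (nat_lit 778459) (nat_lit 11) (.e (nat_lit 24658) (nat_lit 13) (.e (nat_lit 393281) (nat_lit 23) (.e (nat_lit 426100) (nat_lit 1) (.e (nat_lit 164330) (nat_lit 230) (.e (nat_lit 163857) (nat_lit 0) .nil))))))) (.g (nat_lit 1) (.e (nat_lit 90574) (nat_lit 0) .nil) .nil))) 
(.lf (nat_lit 472939) (.g (nat_lit 3076) (.e (nat_lit 3469) (nat_lit 217) (.e (nat_lit 696344) (nat_lit 8) (.e (nat_lit 172079) (nat_lit 7) (.e (nat_lit 409645) (nat_lit 18) (.e (nat_lit 303137) (nat_lit 10) (.e (nat_lit 434275) (nat_lit 39) (.e (nat_lit 663574) (nat_lit 9) (.e (nat_lit 2466) (nat_lit 157) .nil)))))))) (.g (nat_lit 1) (.e (nat_lit 92067) (nat_lit 0) .nil) .nil))))) 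
(.nd (nat_lit 8) (.nd (nat_lit 9) 
(.lf (nat_lit 472299) (.g (nat_lit 2404) (.e (nat_lit 3631) (nat_lit 227) (.e (nat_lit 778323) (nat_lit 5) (.e (nat_lit 73782) (nat_lit 32) (.e (nat_lit 2856) (nat_lit 184) (.e (nat_lit 426540) (nat_lit 29) (.e (nat_lit 352260) (nat_lit 0) .nil)))))) (.g (nat_lit 1) (.e (nat_lit 90439) (nat_lit 0) .nil) .nil))) 
(.lf (nat_lit 472811) (.g (nat_lit 1973) (.e (nat_lit 3468) (nat_lit 217) (.e (nat_lit 696343) (nat_lit 8) (.e (nat_lit 172106) (nat_lit 10) (.e (nat_lit 434289) (nat_lit 43) (.e (nat_lit 696346) (nat_lit 10) (.e (nat_lit 188441) (nat_lit 20) .nil)))))) (.g (nat_lit 1) (.e (nat_lit 91645) (nat_lit 0) .nil) .nil)))) (.nd (nat_lit 9) 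
(.lf (nat_lit 472555) (.g (nat_lit 1311) (.e (nat_lit 3714) (nat_lit 227) (.e (nat_lit 786176) (nat_lit 5) (.e (nat_lit 73782) (nat_lit 32) (.e (nat_lit 2855) (nat_lit 184) (.e (nat_lit 426542) (nat_lit 29) (.e (nat_lit 352264) (nat_lit 0) .nil)))))) (.g (nat_lit 1) (.e (nat_lit 90752) (nat_lit 0) .nil) .nil))) 
(.lf (nat_lit 473067) (.g (nat_lit 2406) (.e (nat_lit 3469) (nat_lit 217) (.e (nat_lit 696344) (nat_lit 8) (.e (nat_lit 172113) (nat_lit 10) (.e (nat_lit 434203) (nat_lit 18) (.e (nat_lit 6252) (nat_lit 337) (.e (nat_lit 2653) (nat_lit 166) (.e (nat_lit 188441) (nat_lit 20) .nil))))))) (.g (nat_lit 1) (.e (nat_lit 92199) (nat_lit 0) .nil) .nil)))))))) 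
(.nd (nat_lit 5) (.nd (nat_lit 6) (.nd (nat_lit 7) (.nd (nat_lit 8) (.nd (nat_lit 9) 
(.lf (nat_lit 472091) (.g (nat_lit 1118) (.e (nat_lit 3409) (nat_lit 212) (.e (nat_lit 655380) (nat_lit 6) (.e (nat_lit 188439) (nat_lit 20) (.e (nat_lit 3407) (nat_lit 212) (.e (nat_lit 655380) (nat_lit 6) (.e (nat_lit 188435) (nat_lit 20) .nil)))))) (.g (nat_lit 1) (.e (nat_lit 88511) (nat_lit 0) .nil) .nil))) 
(.lf (nat_lit 472603) (.g (nat_lit 3311) (.e (nat_lit 3733) (nat_lit 228) (.e (nat_lit 786470) (nat_lit 27) (.e (nat_lit 336226) (nat_lit 14) (.e (nat_lit 401457) (nat_lit 13) (.e (nat_lit 483385) (nat_lit 23) (.e (nat_lit 336260) (nat_lit 15) .nil)))))) (.g (nat_lit 1) (.e (nat_lit 90816) (nat_lit 0) .nil) .nil)))) (.nd (nat_lit 9) 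
(.lf (nat_lit 472347) (.g (nat_lit 2386) (.e (nat_lit 3632) (nat_lit 227) (.e (nat_lit 778318) (nat_lit 3) (.e (nat_lit 57476) (nat_lit 28) (.e (nat_lit 557107) (nat_lit 15) (.e (nat_lit 188448) (nat_lit 22) (.e (nat_lit 196665) (nat_lit 13) (.e (nat_lit 65637) (nat_lit 15) .nil))))))) (.g (nat_lit 1) (.e (nat_lit 90488) (nat_lit 0) .nil) .nil))) 
(.lf (nat_lit 472859) (.g (nat_lit 2437) (.e (nat_lit 3468) (nat_lit 217) (.e (nat_lit 696344) (nat_lit 8) (.e (nat_lit 172106) (nat_lit 10) (.e (nat_lit 434209) (nat_lit 18) (.e (nat_lit 6271) (nat_lit 337) (.e (nat_lit 2646) (nat_lit 166) (.e (nat_lit 188440) (nat_lit 20) .nil))))))) (.g (nat_lit 1) (.e (nat_lit 91734) (nat_lit 0) .nil) .nil))))) (.nd (nat_lit 8) (.nd (nat_lit 9) 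
(.lf (nat_lit 472219) (.g (nat_lit 2686) (.e (nat_lit 3629) (nat_lit 227) (.e (nat_lit 778323) (nat_lit 5) (.e (nat_lit 73782) (nat_lit 32) (.e (nat_lit 2857) (nat_lit 184) (.e (nat_lit 426542) (nat_lit 29) (.e (nat_lit 352267) (nat_lit 0) .nil)))))) (.g (nat_lit 1) (.e (nat_lit 90356) (nat_lit 0) .nil) .nil))) 
(.lf (nat_lit 472731) (.g (nat_lit 3558) (.e (nat_lit 3459) (nat_lit 216) (.e (nat_lit 688177) (nat_lit 16) (.e (nat_lit 65591) (nat_lit 9) (.e (nat_lit 336369) (nat_lit 27) (.e (nat_lit 426173) (nat_lit 7) (.e (nat_lit 409649) (nat_lit 18) (.e (nat_lit 303111) (nat_lit 0) .nil))))))) (.g (nat_lit 1) (.e (nat_lit 91434) (nat_lit 0) .nil) .nil)))) (.nd (nat_lit 9) 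
(.lf (nat_lit 472475) (.g (nat_lit 1386) (.e (nat_lit 3667) (nat_lit 227) (.e (nat_lit 778462) (nat_lit 11) (.e (nat_lit 24604) (nat_lit 2) (.e (nat_lit 90178) (nat_lit 15) (.e (nat_lit 196352) (nat_lit 3) .nil))))) (.g (nat_lit 0) (.e (nat_lit 90637) (nat_lit 0) .nil) .nil))) 
(.lf (nat_lit 472987) (.g (nat_lit 3180) (.e (nat_lit 3469) (nat_lit 217) (.e (nat_lit 696344) (nat_lit 8) (.e (nat_lit 172082) (nat_lit 7) (.e (nat_lit 409646) (nat_lit 18) (.e (nat_lit 303135) (nat_lit 10) (.e (nat_lit 434275) (nat_lit 39) (.e (nat_lit 663580) (nat_lit 9) (.e (nat_lit 2416) (nat_lit 157) .nil)))))))) (.g (nat_lit 1) (.e (nat_lit 92115) (nat_lit 0) .nil) .nil)))))) 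
(.nd (nat_lit 7) (.nd (nat_lit 8) (.nd (nat_lit 9) 
(.lf (nat_lit 472155) (.g (nat_lit 2775) (.e (nat_lit 3613) (nat_lit 226) (.e (nat_lit 770072) (nat_lit 8) (.e (nat_lit 65586) (nat_lit 7) (.e (nat_lit 319531) (nat_lit 16) (.e (nat_lit 286748) (nat_lit 9) (.e (nat_lit 336295) (nat_lit 15) (.e (nat_lit 3757) (nat_lit 229) (.e (nat_lit 794649) (nat_lit 20) .nil)))))))) (.g (nat_lit 1) (.e (nat_lit 90283) (nat_lit 0) .nil) .nil))) 
(.lf (nat_lit 472667) (.g (nat_lit 2281) (.e (nat_lit 3748) (nat_lit 228) (.e (nat_lit 786473) (nat_lit 27) (.e (nat_lit 336051) (nat_lit 6) (.e (nat_lit 147495) (nat_lit 11) (.e (nat_lit 24606) (nat_lit 3) .nil))))) (.g (nat_lit 0) (.e (nat_lit 91110) (nat_lit 0) .nil) .nil)))) (.nd (nat_lit 9) 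
(.lf (nat_lit 472411) (.g (nat_lit 1790) (.e (nat_lit 3632) (nat_lit 227) (.e (nat_lit 778324) (nat_lit 5) (.e (nat_lit 73781) (nat_lit 32) (.e (nat_lit 3090) (nat_lit 191) (.e (nat_lit 483381) (nat_lit 23) (.e (nat_lit 336286) (nat_lit 15) .nil)))))) (.g (nat_lit 1) (.e (nat_lit 90554) (nat_lit 0) .nil) .nil))) 
(.lf (nat_lit 472923) (.g (nat_lit 3624) (.e (nat_lit 3469) (nat_lit 217) (.e (nat_lit 696344) (nat_lit 8) (.e (nat_lit 172078) (nat_lit 7) (.e (nat_lit 409649) (nat_lit 18) (.e (nat_lit 303140) (nat_lit 10) (.e (nat_lit 434275) (nat_lit 39) (.e (nat_lit 663574) (nat_lit 9) (.e (nat_lit 2456) (nat_lit 157) .nil)))))))) (.g (nat_lit 1) (.e (nat_lit 92051) (nat_lit 0) .nil) .nil))))) 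
(.nd (nat_lit 8) (.nd (nat_lit 9) 
(.lf (nat_lit 472283) (.g (nat_lit 3423) (.e (nat_lit 3631) (nat_lit 227) (.e (nat_lit 778318) (nat_lit 3) (.e (nat_lit 57476) (nat_lit 28) (.e (nat_lit 557108) (nat_lit 15) (.e (nat_lit 188452) (nat_lit 23) (.e (nat_lit 204855) (nat_lit 26) (.e (nat_lit 336295) (nat_lit 15) .nil))))))) (.g (nat_lit 1) (.e (nat_lit 90422) (nat_lit 0) .nil) .nil))) 
(.lf (nat_lit 472795) (.g (nat_lit 2443) (.e (nat_lit 3468) (nat_lit 217) (.e (nat_lit 696343) (nat_lit 8) (.e (nat_lit 172106) (nat_lit 10) (.e (nat_lit 434209) (nat_lit 18) (.e (nat_lit 6271) (nat_lit 337) (.e (nat_lit 2645) (nat_lit 166) (.e (nat_lit 188434) (nat_lit 20) .nil))))))) (.g (nat_lit 1) (.e (nat_lit 91625) (nat_lit 0) .nil) .nil)))) (.nd (nat_lit 9) 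
(.lf (nat_lit 472539) (.g (nat_lit 3946) (.e (nat_lit 3714) (nat_lit 227) (.e (nat_lit 778316) (nat_lit 3) (.e (nat_lit 57479) (nat_lit 28) (.e (nat_lit 557101) (nat_lit 13) (.e (nat_lit 172097) (nat_lit 9) (.e (nat_lit 426125) (nat_lit 2) (.e (nat_lit 196666) (nat_lit 13) (.e (nat_lit 65639) (nat_lit 15) .nil)))))))) (.g (nat_lit 1) (.e (nat_lit 90736) (nat_lit 0) .nil) .nil))) 
(.lf (nat_lit 473051) (.g (nat_lit 2293) (.e (nat_lit 3469) (nat_lit 217) (.e (nat_lit 696344) (nat_lit 8) (.e (nat_lit 172106) (nat_lit 10) (.e (nat_lit 434209) (nat_lit 18) (.e (nat_lit 6428) (nat_lit 342) (.e (nat_lit 229412) (nat_lit 14) (.e (nat_lit 442408) (nat_lit 20) .nil))))))) (.g (nat_lit 1) (.e (nat_lit 92183) (nat_lit 0) .nil) .nil))))))) 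
(.nd (nat_lit 6) (.nd (nat_lit 7) (.nd (nat_lit 8) (.nd (nat_lit 9) 
(.lf (nat_lit 472123) (.g (nat_lit 1514) (.e (nat_lit 3605) (nat_lit 225) (.e (nat_lit 761912) (nat_lit 18) (.e (nat_lit 196352) (nat_lit 0) (.e (nat_lit 2032) (nat_lit 140) (.e (nat_lit 688186) (nat_lit 18) (.e (nat_lit 89856) (nat_lit 0) .nil)))))) (.g (nat_lit 1) (.e (nat_lit 90144) (nat_lit 0) .nil) .nil))) 
(.lf (nat_lit 472635) (.g (nat_lit 2114) (.e (nat_lit 3747) (nat_lit 228) (.e (nat_lit 786450) (nat_lit 15) (.e (nat_lit 1853) (nat_lit 124) (.e (nat_lit 557100) (nat_lit 13) (.e (nat_lit 172106) (nat_lit 10) .nil))))) (.g (nat_lit 0) (.e (nat_lit 91070) (nat_lit 0) .nil) .nil)))) (.nd (nat_lit 9) 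
(.lf (nat_lit 472379) (.g (nat_lit 2234) (.e (nat_lit 3632) (nat_lit 227) (.e (nat_lit 778323) (nat_lit 5) (.e (nat_lit 73781) (nat_lit 32) (.e (nat_lit 3090) (nat_lit 191) (.e (nat_lit 483387) (nat_lit 23) (.e (nat_lit 336291) (nat_lit 15) .nil)))))) (.g (nat_lit 1) (.e (nat_lit 90521) (nat_lit 0) .nil) .nil))) 
(.lf (nat_lit 472891) (.g (nat_lit 3051) (.e (nat_lit 3468) (nat_lit 217) (.e (nat_lit 696344) (nat_lit 8) (.e (nat_lit 172113) (nat_lit 10) (.e (nat_lit 434289) (nat_lit 43) (.e (nat_lit 696346) (nat_lit 10) (.e (nat_lit 188440) (nat_lit 20) .nil)))))) (.g (nat_lit 1) (.e (nat_lit 91804) (nat_lit 0) .nil) .nil))))) (.nd (nat_lit 8) (.nd (nat_lit 9) 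
(.lf (nat_lit 472251) (.g (nat_lit 758) (.e (nat_lit 3630) (nat_lit 227) (.e (nat_lit 778326) (nat_lit 6) (.e (nat_lit 81921) (nat_lit 0) (.e (nat_lit 3715) (nat_lit 227) (.e (nat_lit 778325) (nat_lit 6) (.e (nat_lit 81924) (nat_lit 0) .nil)))))) (.g (nat_lit 1) (.e (nat_lit 90390) (nat_lit 0) .nil) .nil))) 
(.lf (nat_lit 472763) (.g (nat_lit 5447) (.e (nat_lit 3464) (nat_lit 217) (.e (nat_lit 696344) (nat_lit 8) (.e (nat_lit 172125) (nat_lit 14) (.e (nat_lit 491566) (nat_lit 12) (.e (nat_lit 385109) (nat_lit 51) (.e (nat_lit 794684) (nat_lit 25) (.e (nat_lit 221198) (nat_lit 20) .nil))))))) (.g (nat_lit 1) (.e (nat_lit 91499) (nat_lit 0) .nil) .nil)))) (.nd (nat_lit 9) 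
(.lf (nat_lit 472507) (.g (nat_lit 3071) (.e (nat_lit 3711) (nat_lit 227) (.e (nat_lit 786176) (nat_lit 3) (.e (nat_lit 57478) (nat_lit 28) (.e (nat_lit 557109) (nat_lit 15) (.e (nat_lit 188449) (nat_lit 22) (.e (nat_lit 196666) (nat_lit 13) (.e (nat_lit 65639) (nat_lit 15) .nil))))))) (.g (nat_lit 1) (.e (nat_lit 90702) (nat_lit 0) .nil) .nil))) 
(.lf (nat_lit 473019) (.g (nat_lit 963) (.e (nat_lit 3469) (nat_lit 217) (.e (nat_lit 696344) (nat_lit 8) (.e (nat_lit 172106) (nat_lit 10) (.e (nat_lit 434202) (nat_lit 18) .nil)))) (.g (nat_lit 0) (.e (nat_lit 92151) (nat_lit 0) .nil) .nil)))))) (.nd (nat_lit 7) (.nd (nat_lit 8) (.nd (nat_lit 9) 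
(.lf (nat_lit 472187) (.g (nat_lit 3519) (.e (nat_lit 3617) (nat_lit 227) (.e (nat_lit 778462) (nat_lit 11) (.e (nat_lit 24628) (nat_lit 9) (.e (nat_lit 336443) (nat_lit 32) (.e (nat_lit 466969) (nat_lit 21) (.e (nat_lit 164325) (nat_lit 230) (.e (nat_lit 163844) (nat_lit 0) .nil))))))) (.g (nat_lit 1) (.e (nat_lit 90323) (nat_lit 0) .nil) .nil))) 
(.lf (nat_lit 472699) (.g (nat_lit 2405) (.e (nat_lit 3771) (nat_lit 229) (.e (nat_lit 794668) (nat_lit 22) (.e (nat_lit 196666) (nat_lit 13) (.e (nat_lit 65569) (nat_lit 3) (.e (nat_lit 98334) (nat_lit 18) (.e (nat_lit 164159) (nat_lit 152) (.e (nat_lit 1022) (nat_lit 81) (.e (nat_lit 1254) (nat_lit 92) (.e (nat_lit 98321) (nat_lit 17) .nil))))))))) (.g (nat_lit 1) (.e (nat_lit 91273) (nat_lit 0) .nil) .nil)))) 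
(.nd (nat_lit 9) 
(.lf (nat_lit 472443) (.g (nat_lit 4731) (.e (nat_lit 3635) (nat_lit 227) (.e (nat_lit 778318) (nat_lit 3) (.e (nat_lit 57476) (nat_lit 28) (.e (nat_lit 557108) (nat_lit 15) (.e (nat_lit 188452) (nat_lit 23) (.e (nat_lit 204852) (nat_lit 26) (.e (nat_lit 336261) (nat_lit 15) .nil))))))) (.g (nat_lit 1) (.e (nat_lit 90590) (nat_lit 0) .nil) .nil))) 
(.lf (nat_lit 472955) (.g (nat_lit 3872) (.e (nat_lit 3469) (nat_lit 217) (.e (nat_lit 696344) (nat_lit 8) (.e (nat_lit 172079) (nat_lit 7) (.e (nat_lit 409646) (nat_lit 18) (.e (nat_lit 303140) (nat_lit 10) (.e (nat_lit 434275) (nat_lit 39) (.e (nat_lit 663574) (nat_lit 9) (.e (nat_lit 2467) (nat_lit 157) .nil)))))))) (.g (nat_lit 1) (.e (nat_lit 92083) (nat_lit 0) .nil) .nil))))) 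
(.nd (nat_lit 8) (.nd (nat_lit 9) 
(.lf (nat_lit 472315) (.g (nat_lit 2422) (.e (nat_lit 3631) (nat_lit 227) (.e (nat_lit 778324) (nat_lit 5) (.e (nat_lit 73781) (nat_lit 32) (.e (nat_lit 2857) (nat_lit 184) (.e (nat_lit 426542) (nat_lit 29) (.e (nat_lit 352267) (nat_lit 0) .nil)))))) (.g (nat_lit 1) (.e (nat_lit 90455) (nat_lit 0) .nil) .nil))) 
(.lf (nat_lit 472827) (.g (nat_lit 2494) (.e (nat_lit 3468) (nat_lit 217) (.e (nat_lit 696343) (nat_lit 8) (.e (nat_lit 172113) (nat_lit 10) (.e (nat_lit 434289) (nat_lit 43) (.e (nat_lit 696346) (nat_lit 10) (.e (nat_lit 188439) (nat_lit 20) .nil)))))) (.g (nat_lit 1) (.e (nat_lit 91685) (nat_lit 0) .nil) .nil)))) (.nd (nat_lit 9) 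
(.lf (nat_lit 472571) (.g (nat_lit 1469) (.e (nat_lit 3719) (nat_lit 227) (.e (nat_lit 778466) (nat_lit 11) (.e (nat_lit 24604) (nat_lit 2) (.e (nat_lit 90185) (nat_lit 17) .nil)))) (.g (nat_lit 0) (.e (nat_lit 90769) (nat_lit 0) .nil) .nil))) 
(.lf (nat_lit 473083) (.g (nat_lit 2644) (.e (nat_lit 3469) (nat_lit 217) (.e (nat_lit 696344) (nat_lit 8) (.e (nat_lit 172113) (nat_lit 10) (.e (nat_lit 434208) (nat_lit 18) (.e (nat_lit 6254) (nat_lit 337) (.e (nat_lit 7936) (nat_lit 166) (.e (nat_lit 188439) (nat_lit 20) .nil))))))) (.g (nat_lit 1) (.e (nat_lit 92215) (nat_lit 0) .nil) .nil)))))))))) 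
(.nd (nat_lit 3) (.nd (nat_lit 4) (.nd (nat_lit 5) (.nd (nat_lit 6) (.nd (nat_lit 7) 
(.nd (nat_lit 8) (.nd (nat_lit 9) 
(.lf (nat_lit 472071) (.g (nat_lit 4168) (.e (nat_lit 3409) (nat_lit 212) (.e (nat_lit 655378) (nat_lit 4) (.e (nat_lit 172125) (nat_lit 14) (.e (nat_lit 491571) (nat_lit 13) (.e (nat_lit 393280) (nat_lit 23) (.e (nat_lit 426044) (nat_lit 0) .nil)))))) (.g (nat_lit 1) (.e (nat_lit 88489) (nat_lit 0) .nil) .nil))) 
(.lf (nat_lit 472583) (.g (nat_lit 2269) (.e (nat_lit 3720) (nat_lit 227) (.e (nat_lit 778466) (nat_lit 11) (.e (nat_lit 24617) (nat_lit 7) (.e (nat_lit 319533) (nat_lit 16) .nil)))) (.g (nat_lit 0) (.e (nat_lit 90782) (nat_lit 0) .nil) .nil)))) (.nd (nat_lit 9) 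
(.lf (nat_lit 472327) (.g (nat_lit 4978) (.e (nat_lit 3632) (nat_lit 227) (.e (nat_lit 778317) (nat_lit 3) (.e (nat_lit 57477) (nat_lit 28) (.e (nat_lit 557095) (nat_lit 13) (.e (nat_lit 172106) (nat_lit 10) (.e (nat_lit 434231) (nat_lit 23) (.e (nat_lit 532535) (nat_lit 9) (.e (nat_lit 336295) (nat_lit 15) .nil)))))))) (.g (nat_lit 1) (.e (nat_lit 90468) (nat_lit 0) .nil) .nil))) 
(.lf (nat_lit 472839) (.g (nat_lit 3281) (.e (nat_lit 3468) (nat_lit 217) (.e (nat_lit 696343) (nat_lit 8) (.e (nat_lit 172115) (nat_lit 10) (.e (nat_lit 434289) (nat_lit 43) (.e (nat_lit 696346) (nat_lit 10) (.e (nat_lit 188440) (nat_lit 20) .nil)))))) (.g (nat_lit 1) (.e (nat_lit 91705) (nat_lit 0) .nil) .nil))))) (.nd (nat_lit 8) (.nd (nat_lit 9) 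
(.lf (nat_lit 472199) (.g (nat_lit 2339) (.e (nat_lit 3619) (nat_lit 227) (.e (nat_lit 778318) (nat_lit 3) (.e (nat_lit 57476) (nat_lit 28) (.e (nat_lit 557108) (nat_lit 15) (.e (nat_lit 188450) (nat_lit 23) .nil))))) (.g (nat_lit 0) (.e (nat_lit 90336) (nat_lit 0) .nil) .nil))) 
(.lf (nat_lit 472711) (.g (nat_lit 2420) (.e (nat_lit 3771) (nat_lit 229) (.e (nat_lit 794673) (nat_lit 23) (.e (nat_lit 204830) (nat_lit 18) (.e (nat_lit 57926) (nat_lit 282) (.e (nat_lit 163874) (nat_lit 3) .nil))))) (.g (nat_lit 0) (.e (nat_lit 91293) (nat_lit 0) .nil) .nil)))) (.nd (nat_lit 9) 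
(.lf (nat_lit 472455) (.g (nat_lit 1588) (.e (nat_lit 3649) (nat_lit 227) (.e (nat_lit 778462) (nat_lit 11) (.e (nat_lit 24604) (nat_lit 2) (.e (nat_lit 90185) (nat_lit 17) (.e (nat_lit 237601) (nat_lit 9) .nil))))) (.g (nat_lit 0) (.e (nat_lit 90602) (nat_lit 0) .nil) .nil))) 
(.lf (nat_lit 472967) (.g (nat_lit 5838) (.e (nat_lit 3469) (nat_lit 217) (.e (nat_lit 696344) (nat_lit 8) (.e (nat_lit 172079) (nat_lit 7) (.e (nat_lit 409649) (nat_lit 18) (.e (nat_lit 303140) (nat_lit 10) (.e (nat_lit 434275) (nat_lit 39) (.e (nat_lit 663574) (nat_lit 9) (.e (nat_lit 2467) (nat_lit 157) .nil)))))))) (.g (nat_lit 1) (.e (nat_lit 92095) (nat_lit 0) .nil) .nil)))))) 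
(.nd (nat_lit 7) (.nd (nat_lit 8) (.nd (nat_lit 9) 
(.lf (nat_lit 472135) (.g (nat_lit 2713) (.e (nat_lit 3608) (nat_lit 226) (.e (nat_lit 770072) (nat_lit 8) (.e (nat_lit 65571) (nat_lit 3) (.e (nat_lit 98369) (nat_lit 28) .nil)))) (.g (nat_lit 0) (.e (nat_lit 90261) (nat_lit 0) .nil) .nil))) 
(.lf (nat_lit 472647) (.g (nat_lit 1154) (.e (nat_lit 3747) (nat_lit 228) (.e (nat_lit 786473) (nat_lit 27) (.e (nat_lit 336121) (nat_lit 9) (.e (nat_lit 336331) (nat_lit 19) (.e (nat_lit 220928) (nat_lit 6) (.e (nat_lit 81924) (nat_lit 0) .nil)))))) (.g (nat_lit 1) (.e (nat_lit 91083) (nat_lit 0) .nil) .nil)))) (.nd (nat_lit 9) 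
(.lf (nat_lit 472391) (.g (nat_lit 3400) (.e (nat_lit 3632) (nat_lit 227) (.e (nat_lit 778323) (nat_lit 5) (.e (nat_lit 73782) (nat_lit 32) (.e (nat_lit 3090) (nat_lit 191) (.e (nat_lit 483380) (nat_lit 23) (.e (nat_lit 336263) (nat_lit 15) .nil)))))) (.g (nat_lit 1) (.e (nat_lit 90533) (nat_lit 0) .nil) .nil))) 
(.lf (nat_lit 472903) (.g (nat_lit 2719) (.e (nat_lit 3468) (nat_lit 217) (.e (nat_lit 696344) (nat_lit 8) (.e (nat_lit 172116) (nat_lit 10) (.e (nat_lit 434289) (nat_lit 43) (.e (nat_lit 696346) (nat_lit 10) (.e (nat_lit 188438) (nat_lit 20) .nil)))))) (.g (nat_lit 1) (.e (nat_lit 91825) (nat_lit 0) .nil) .nil))))) (.nd (nat_lit 8) (.nd (nat_lit 9) 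
(.lf (nat_lit 472263) (.g (nat_lit 4891) (.e (nat_lit 3631) (nat_lit 227) (.e (nat_lit 778317) (nat_lit 3) (.e (nat_lit 57476) (nat_lit 28) (.e (nat_lit 557099) (nat_lit 13) (.e (nat_lit 172106) (nat_lit 10) (.e (nat_lit 434231) (nat_lit 23) (.e (nat_lit 532535) (nat_lit 9) (.e (nat_lit 336295) (nat_lit 15) .nil)))))))) (.g (nat_lit 1) (.e (nat_lit 90402) (nat_lit 0) .nil) .nil))) 
(.lf (nat_lit 472775) (.g (nat_lit 1786) (.e (nat_lit 3467) (nat_lit 217) (.e (nat_lit 696343) (nat_lit 8) (.e (nat_lit 172115) (nat_lit 10) (.e (nat_lit 434289) (nat_lit 43) (.e (nat_lit 696346) (nat_lit 10) .nil))))) (.g (nat_lit 0) (.e (nat_lit 91537) (nat_lit 0) .nil) .nil)))) (.nd (nat_lit 9) 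
(.lf (nat_lit 472519) (.g (nat_lit 1728) (.e (nat_lit 3711) (nat_lit 227) (.e (nat_lit 786176) (nat_lit 5) (.e (nat_lit 73782) (nat_lit 32) (.e (nat_lit 2857) (nat_lit 184) (.e (nat_lit 426542) (nat_lit 29) (.e (nat_lit 352264) (nat_lit 0) .nil)))))) (.g (nat_lit 1) (.e (nat_lit 90714) (nat_lit 0) .nil) .nil))) 
(.lf (nat_lit 473031) (.g (nat_lit 2159) (.e (nat_lit 3469) (nat_lit 217) (.e (nat_lit 696344) (nat_lit 8) (.e (nat_lit 172106) (nat_lit 10) (.e (nat_lit 434209) (nat_lit 18) (.e (nat_lit 6270) (nat_lit 337) (.e (nat_lit 2646) (nat_lit 166) (.e (nat_lit 188440) (nat_lit 20) .nil))))))) (.g (nat_lit 1) (.e (nat_lit 92163) (nat_lit 0) .nil) .nil))))))) 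
(.nd (nat_lit 6) (.nd (nat_lit 7) (.nd (nat_lit 8) (.nd (nat_lit 9) 
(.lf (nat_lit 472103) (.g (nat_lit 1255) (.e (nat_lit 3600) (nat_lit 225) (.e (nat_lit 761912) (nat_lit 18) (.e (nat_lit 196352) (nat_lit 0) (.e (nat_lit 2031) (nat_lit 140) (.e (nat_lit 688184) (nat_lit 18) (.e (nat_lit 89856) (nat_lit 0) .nil)))))) (.g (nat_lit 1) (.e (nat_lit 88629) (nat_lit 0) .nil) .nil))) 
(.lf (nat_lit 472615) (.g (nat_lit 618) (.e (nat_lit 3746) (nat_lit 228) (.e (nat_lit 786480) (nat_lit 29) (.e (nat_lit 352317) (nat_lit 24) .nil))) (.g (nat_lit 0) (.e (nat_lit 91049) (nat_lit 0) .nil) .nil)))) (.nd (nat_lit 9) 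
(.lf (nat_lit 472359) (.g (nat_lit 3699) (.e (nat_lit 3632) (nat_lit 227) (.e (nat_lit 778318) (nat_lit 3) (.e (nat_lit 57476) (nat_lit 28) (.e (nat_lit 557108) (nat_lit 15) (.e (nat_lit 188452) (nat_lit 23) (.e (nat_lit 204855) (nat_lit 26) (.e (nat_lit 336295) (nat_lit 15) .nil))))))) (.g (nat_lit 1) (.e (nat_lit 90500) (nat_lit 0) .nil) .nil))) 
(.lf (nat_lit 472871) (.g (nat_lit 2614) (.e (nat_lit 3468) (nat_lit 217) (.e (nat_lit 696344) (nat_lit 8) (.e (nat_lit 172106) (nat_lit 10) (.e (nat_lit 434288) (nat_lit 43) (.e (nat_lit 696346) (nat_lit 10) (.e (nat_lit 188434) (nat_lit 20) .nil)))))) (.g (nat_lit 1) (.e (nat_lit 91755) (nat_lit 0) .nil) .nil))))) (.nd (nat_lit 8) (.nd (nat_lit 9) 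
(.lf (nat_lit 472231) (.g (nat_lit 667) (.e (nat_lit 3629) (nat_lit 227) (.e (nat_lit 778327) (nat_lit 6) (.e (nat_lit 81920) (nat_lit 0) (.e (nat_lit 3715) (nat_lit 227) (.e (nat_lit 778325) (nat_lit 6) .nil))))) (.g (nat_lit 0) (.e (nat_lit 90369) (nat_lit 0) .nil) .nil))) 
(.lf (nat_lit 472743) (.g (nat_lit 2883) (.e (nat_lit 3464) (nat_lit 217) (.e (nat_lit 696343) (nat_lit 8) (.e (nat_lit 172126) (nat_lit 14) (.e (nat_lit 491534) (nat_lit 1) (.e (nat_lit 57687) (nat_lit 156) (.e (nat_lit 163933) (nat_lit 17) (.e (nat_lit 466967) (nat_lit 20) .nil))))))) (.g (nat_lit 1) (.e (nat_lit 91479) (nat_lit 0) .nil) .nil)))) (.nd (nat_lit 9) 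
(.lf (nat_lit 472487) (.g (nat_lit 1194) (.e (nat_lit 3686) (nat_lit 227) (.e (nat_lit 778466) (nat_lit 11) (.e (nat_lit 24608) (nat_lit 3) (.e (nat_lit 98365) (nat_lit 26) .nil)))) (.g (nat_lit 0) (.e (nat_lit 90672) (nat_lit 0) .nil) .nil))) 
(.lf (nat_lit 472999) (.g (nat_lit 3251) (.e (nat_lit 3469) (nat_lit 217) (.e (nat_lit 696344) (nat_lit 8) (.e (nat_lit 172082) (nat_lit 7) (.e (nat_lit 409646) (nat_lit 18) (.e (nat_lit 303140) (nat_lit 10) (.e (nat_lit 434275) (nat_lit 39) (.e (nat_lit 663574) (nat_lit 9) (.e (nat_lit 2464) (nat_lit 157) .nil)))))))) (.g (nat_lit 1) (.e (nat_lit 92127) (nat_lit 0) .nil) .nil)))))) 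
(.nd (nat_lit 7) (.nd (nat_lit 8) (.nd (nat_lit 9) 
(.lf (nat_lit 472167) (.g (nat_lit 2951) (.e (nat_lit 3617) (nat_lit 227) (.e (nat_lit 778318) (nat_lit 3) (.e (nat_lit 57476) (nat_lit 28) (.e (nat_lit 557107) (nat_lit 15) (.e (nat_lit 188450) (nat_lit 23) (.e (nat_lit 204852) (nat_lit 26) (.e (nat_lit 336257) (nat_lit 15) .nil))))))) (.g (nat_lit 1) (.e (nat_lit 90297) (nat_lit 0) .nil) .nil))) 
(.lf (nat_lit 472679) (.g (nat_lit 1628) (.e (nat_lit 3748) (nat_lit 228) (.e (nat_lit 786478) (nat_lit 29) (.e (nat_lit 352318) (nat_lit 24) (.e (nat_lit 123198) (nat_lit 266) (.e (nat_lit 57436) (nat_lit 17) (.e (nat_lit 376835) (nat_lit 0) .nil)))))) (.g (nat_lit 1) (.e (nat_lit 91149) (nat_lit 0) .nil) .nil)))) (.nd (nat_lit 9) 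
(.lf (nat_lit 472423) (.g (nat_lit 2399) (.e (nat_lit 3632) (nat_lit 227) (.e (nat_lit 778326) (nat_lit 6) (.e (nat_lit 81959) (nat_lit 24) (.e (nat_lit 123198) (nat_lit 266) (.e (nat_lit 57435) (nat_lit 17) (.e (nat_lit 376835) (nat_lit 0) .nil)))))) (.g (nat_lit 1) (.e (nat_lit 90569) (nat_lit 0) .nil) .nil))) 
(.lf (nat_lit 472935) (.g (nat_lit 2539) (.e (nat_lit 3469) (nat_lit 217) (.e (nat_lit 696344) (nat_lit 8) (.e (nat_lit 172079) (nat_lit 7) (.e (nat_lit 409645) (nat_lit 18) (.e (nat_lit 303137) (nat_lit 10) (.e (nat_lit 434275) (nat_lit 39) (.e (nat_lit 663572) (nat_lit 9) (.e (nat_lit 2467) (nat_lit 157) .nil)))))))) (.g (nat_lit 1) (.e (nat_lit 92063) (nat_lit 0) .nil) .nil))))) 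
(.nd (nat_lit 8) (.nd (nat_lit 9) 
(.lf (nat_lit 472295) (.g (nat_lit 1788) (.e (nat_lit 3631) (nat_lit 227) (.e (nat_lit 778323) (nat_lit 5) (.e (nat_lit 73781) (nat_lit 32) (.e (nat_lit 3090) (nat_lit 191) (.e (nat_lit 483386) (nat_lit 23) (.e (nat_lit 336291) (nat_lit 15) .nil)))))) (.g (nat_lit 1) (.e (nat_lit 90435) (nat_lit 0) .nil) .nil))) 
(.lf (nat_lit 472807) (.g (nat_lit 3325) (.e (nat_lit 3468) (nat_lit 217) (.e (nat_lit 696343) (nat_lit 8) (.e (nat_lit 172106) (nat_lit 10) (.e (nat_lit 434289) (nat_lit 43) (.e (nat_lit 696346) (nat_lit 10) (.e (nat_lit 188434) (nat_lit 20) .nil)))))) (.g (nat_lit 1) (.e (nat_lit 91641) (nat_lit 0) .nil) .nil)))) (.nd (nat_lit 9) 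
(.lf (nat_lit 472551) (.g (nat_lit 3779) (.e (nat_lit 3714) (nat_lit 227) (.e (nat_lit 786176) (nat_lit 3) (.e (nat_lit 57480) (nat_lit 28) (.e (nat_lit 557098) (nat_lit 13) (.e (nat_lit 172115) (nat_lit 10) (.e (nat_lit 434231) (nat_lit 23) (.e (nat_lit 532535) (nat_lit 9) (.e (nat_lit 336290) (nat_lit 15) .nil)))))))) (.g (nat_lit 1) (.e (nat_lit 90748) (nat_lit 0) .nil) .nil))) 
(.lf (nat_lit 473063) (.g (nat_lit 2911) (.e (nat_lit 3469) (nat_lit 217) (.e (nat_lit 696344) (nat_lit 8) (.e (nat_lit 172112) (nat_lit 10) (.e (nat_lit 434289) (nat_lit 43) (.e (nat_lit 696346) (nat_lit 10) (.e (nat_lit 188438) (nat_lit 20) .nil)))))) (.g (nat_lit 1) (.e (nat_lit 92195) (nat_lit 0) .nil) .nil)))))))) 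
(.nd (nat_lit 5) (.nd (nat_lit 6) (.nd (nat_lit 7) (.nd (nat_lit 8) (.nd (nat_lit 9) 
(.lf (nat_lit 472087) (.g (nat_lit 1979) (.e (nat_lit 3409) (nat_lit 212) (.e (nat_lit 655380) (nat_lit 6) (.e (nat_lit 188420) (nat_lit 0) (.e (nat_lit 2059) (nat_lit 142) (.e (nat_lit 704599) (nat_lit 6) (.e (nat_lit 188440) (nat_lit 20) .nil)))))) (.g (nat_lit 1) (.e (nat_lit 88507) (nat_lit 0) .nil) .nil))) 
(.lf (nat_lit 472599) (.g (nat_lit 1512) (.e (nat_lit 3721) (nat_lit 227) (.e (nat_lit 778482) (nat_lit 12) (.e (nat_lit 163978) (nat_lit 30) (.e (nat_lit 573477) (nat_lit 12) .nil)))) (.g (nat_lit 0) (.e (nat_lit 90807) (nat_lit 0) .nil) .nil)))) (.nd (nat_lit 9) 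
(.lf (nat_lit 472343) (.g (nat_lit 3101) (.e (nat_lit 3632) (nat_lit 227) (.e (nat_lit 778318) (nat_lit 3) (.e (nat_lit 57476) (nat_lit 28) (.e (nat_lit 557107) (nat_lit 15) (.e (nat_lit 188447) (nat_lit 22) (.e (nat_lit 196663) (nat_lit 13) (.e (nat_lit 65637) (nat_lit 15) .nil))))))) (.g (nat_lit 1) (.e (nat_lit 90484) (nat_lit 0) .nil) .nil))) 
(.lf (nat_lit 472855) (.g (nat_lit 3000) (.e (nat_lit 3468) (nat_lit 217) (.e (nat_lit 696344) (nat_lit 8) (.e (nat_lit 172082) (nat_lit 7) (.e (nat_lit 409649) (nat_lit 18) (.e (nat_lit 303140) (nat_lit 10) (.e (nat_lit 434275) (nat_lit 39) (.e (nat_lit 663580) (nat_lit 9) (.e (nat_lit 2416) (nat_lit 157) .nil)))))))) (.g (nat_lit 1) (.e (nat_lit 91723) (nat_lit 0) .nil) .nil))))) 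
(.nd (nat_lit 8) (.nd (nat_lit 9) 
(.lf (nat_lit 472215) (.g (nat_lit 3660) (.e (nat_lit 3629) (nat_lit 227) (.e (nat_lit 778318) (nat_lit 3) (.e (nat_lit 57476) (nat_lit 28) (.e (nat_lit 557108) (nat_lit 15) (.e (nat_lit 188449) (nat_lit 22) (.e (nat_lit 196666) (nat_lit 13) (.e (nat_lit 65642) (nat_lit 15) .nil))))))) (.g (nat_lit 1) (.e (nat_lit 90352) (nat_lit 0) .nil) .nil))) 
(.lf (nat_lit 472727) (.g (nat_lit 2195) (.e (nat_lit 3459) (nat_lit 216) (.e (nat_lit 688139) (nat_lit 5) (.e (nat_lit 3062) (nat_lit 190) (.e (nat_lit 475179) (nat_lit 24) (.e (nat_lit 516176) (nat_lit 14) (.e (nat_lit 474880) (nat_lit 19) (.e (nat_lit 401413) (nat_lit 0) .nil))))))) (.g (nat_lit 1) (.e (nat_lit 91412) (nat_lit 0) .nil) .nil)))) (.nd (nat_lit 9) 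
(.lf (nat_lit 472471) (.g (nat_lit 1589) (.e (nat_lit 3663) (nat_lit 227) (.e (nat_lit 778462) (nat_lit 11) (.e (nat_lit 24604) (nat_lit 2) (.e (nat_lit 90185) (nat_lit 17) (.e (nat_lit 237601) (nat_lit 9) .nil))))) (.g (nat_lit 0) (.e (nat_lit 90627) (nat_lit 0) .nil) .nil))) 
(.lf (nat_lit 472983) (.g (nat_lit 4736) (.e (nat_lit 3469) (nat_lit 217) (.e (nat_lit 696344) (nat_lit 8) (.e (nat_lit 172081) (nat_lit 7) (.e (nat_lit 409649) (nat_lit 18) (.e (nat_lit 303140) (nat_lit 10) (.e (nat_lit 434275) (nat_lit 39) (.e (nat_lit 663580) (nat_lit 9) (.e (nat_lit 2416) (nat_lit 157) .nil)))))))) (.g (nat_lit 1) (.e (nat_lit 92111) (nat_lit 0) .nil) .nil)))))) 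
(.nd (nat_lit 7) (.nd (nat_lit 8) (.nd (nat_lit 9) 
(.lf (nat_lit 472151) (.g (nat_lit 3263) (.e (nat_lit 3613) (nat_lit 226) (.e (nat_lit 770072) (nat_lit 8) (.e (nat_lit 65586) (nat_lit 7) (.e (nat_lit 319531) (nat_lit 16) (.e (nat_lit 286743) (nat_lit 9) (.e (nat_lit 336337) (nat_lit 20) (.e (nat_lit 221195) (nat_lit 20) .nil))))))) (.g (nat_lit 1) (.e (nat_lit 90279) (nat_lit 0) .nil) .nil))) 
(.lf (nat_lit 472663) (.g (nat_lit 1387) (.e (nat_lit 3747) (nat_lit 228) (.e (nat_lit 786481) (nat_lit 30) (.e (nat_lit 360449) (nat_lit 0) (.e (nat_lit 5898) (nat_lit 320) (.e (nat_lit 7936) (nat_lit 90) .nil))))) (.g (nat_lit 0) (.e (nat_lit 91102) (nat_lit 0) .nil) .nil)))) (.nd (nat_lit 9) 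
(.lf (nat_lit 472407) (.g (nat_lit 3482) (.e (nat_lit 3632) (nat_lit 227) (.e (nat_lit 778324) (nat_lit 5) (.e (nat_lit 73781) (nat_lit 32) (.e (nat_lit 3090) (nat_lit 191) (.e (nat_lit 483380) (nat_lit 23) (.e (nat_lit 336283) (nat_lit 15) .nil)))))) (.g (nat_lit 1) (.e (nat_lit 90550) (nat_lit 0) .nil) .nil))) 
(.lf (nat_lit 472919) (.g (nat_lit 3151) (.e (nat_lit 3469) (nat_lit 217) (.e (nat_lit 696344) (nat_lit 8) (.e (nat_lit 172078) (nat_lit 7) (.e (nat_lit 409646) (nat_lit 18) (.e (nat_lit 303140) (nat_lit 10) (.e (nat_lit 434275) (nat_lit 39) (.e (nat_lit 663574) (nat_lit 9) (.e (nat_lit 2456) (nat_lit 157) .nil)))))))) (.g (nat_lit 1) (.e (nat_lit 92047) (nat_lit 0) .nil) .nil))))) 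
(.nd (nat_lit 8) (.nd (nat_lit 9) 
(.lf (nat_lit 472279) (.g (nat_lit 2167) (.e (nat_lit 3631) (nat_lit 227) (.e (nat_lit 778318) (nat_lit 3) (.e (nat_lit 57476) (nat_lit 28) (.e (nat_lit 557107) (nat_lit 15) (.e (nat_lit 188450) (nat_lit 23) (.e (nat_lit 204855) (nat_lit 26) (.e (nat_lit 336291) (nat_lit 15) .nil))))))) (.g (nat_lit 1) (.e (nat_lit 90418) (nat_lit 0) .nil) .nil))) 
(.lf (nat_lit 472791) (.g (nat_lit 1119) (.e (nat_lit 3467) (nat_lit 217) (.e (nat_lit 696344) (nat_lit 8) (.e (nat_lit 172113) (nat_lit 10) (.e (nat_lit 434208) (nat_lit 18) .nil)))) (.g (nat_lit 0) (.e (nat_lit 91568) (nat_lit 0) .nil) .nil)))) (.nd (nat_lit 9) 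
(.lf (nat_lit 472535) (.g (nat_lit 2554) (.e (nat_lit 3714) (nat_lit 227) (.e (nat_lit 778316) (nat_lit 3) (.e (nat_lit 57477) (nat_lit 28) (.e (nat_lit 557107) (nat_lit 15) (.e (nat_lit 188447) (nat_lit 22) (.e (nat_lit 196666) (nat_lit 13) (.e (nat_lit 65639) (nat_lit 15) .nil))))))) (.g (nat_lit 1) (.e (nat_lit 90732) (nat_lit 0) .nil) .nil))) 
(.lf (nat_lit 473047) (.g (nat_lit 3615) (.e (nat_lit 3469) (nat_lit 217) (.e (nat_lit 696344) (nat_lit 8) (.e (nat_lit 172106) (nat_lit 10) (.e (nat_lit 434209) (nat_lit 18) (.e (nat_lit 6426) (nat_lit 342) (.e (nat_lit 229412) (nat_lit 14) (.e (nat_lit 442411) (nat_lit 20) .nil))))))) (.g (nat_lit 1) (.e (nat_lit 92179) (nat_lit 0) .nil) .nil))))))) 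
(.nd (nat_lit 6) (.nd (nat_lit 7) (.nd (nat_lit 8) (.nd (nat_lit 9) 
(.lf (nat_lit 472119) (.g (nat_lit 2150) (.e (nat_lit 3605) (nat_lit 225) (.e (nat_lit 761905) (nat_lit 16) (.e (nat_lit 172106) (nat_lit 10) (.e (nat_lit 434209) (nat_lit 18) (.e (nat_lit 5089) (nat_lit 292) .nil))))) (.g (nat_lit 0) (.e (nat_lit 89860) (nat_lit 0) .nil) .nil))) 
(.lf (nat_lit 472631) (.g (nat_lit 3064) (.e (nat_lit 3746) (nat_lit 228) (.e (nat_lit 786483) (nat_lit 30) (.e (nat_lit 360457) (nat_lit 0) (.e (nat_lit 5949) (nat_lit 322) (.e (nat_lit 57435) (nat_lit 17) (.e (nat_lit 376835) (nat_lit 0) .nil)))))) (.g (nat_lit 1) (.e (nat_lit 91065) (nat_lit 0) .nil) .nil)))) (.nd (nat_lit 9) 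
(.lf (nat_lit 472375) (.g (nat_lit 1537) (.e (nat_lit 3632) (nat_lit 227) (.e (nat_lit 778323) (nat_lit 5) (.e (nat_lit 73781) (nat_lit 32) (.e (nat_lit 3090) (nat_lit 191) (.e (nat_lit 483381) (nat_lit 23) .nil))))) (.g (nat_lit 0) (.e (nat_lit 90517) (nat_lit 0) .nil) .nil))) 
(.lf (nat_lit 472887) (.g (nat_lit 1874) (.e (nat_lit 3468) (nat_lit 217) (.e (nat_lit 696344) (nat_lit 8) (.e (nat_lit 172113) (nat_lit 10) (.e (nat_lit 434208) (nat_lit 18) (.e (nat_lit 6420) (nat_lit 341) (.e (nat_lit 163920) (nat_lit 14) (.e (nat_lit 442411) (nat_lit 20) .nil))))))) (.g (nat_lit 1) (.e (nat_lit 91798) (nat_lit 0) .nil) .nil))))) (.nd (nat_lit 8) (.nd (nat_lit 9) 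
(.lf (nat_lit 472247) (.g (nat_lit 301) (.e (nat_lit 3630) (nat_lit 227) (.e (nat_lit 778323) (nat_lit 5) (.e (nat_lit 81664) (nat_lit 32) .nil))) (.g (nat_lit 0) (.e (nat_lit 90386) (nat_lit 0) .nil) .nil))) 
(.lf (nat_lit 472759) (.g (nat_lit 1736) (.e (nat_lit 3464) (nat_lit 217) (.e (nat_lit 696344) (nat_lit 8) (.e (nat_lit 172113) (nat_lit 10) (.e (nat_lit 434208) (nat_lit 18) (.e (nat_lit 6420) (nat_lit 341) (.e (nat_lit 163932) (nat_lit 17) (.e (nat_lit 466967) (nat_lit 20) .nil))))))) (.g (nat_lit 1) (.e (nat_lit 91495) (nat_lit 0) .nil) .nil)))) (.nd (nat_lit 9) 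
(.lf (nat_lit 472503) (.g (nat_lit 2466) (.e (nat_lit 3711) (nat_lit 227) (.e (nat_lit 786176) (nat_lit 3) (.e (nat_lit 57477) (nat_lit 28) (.e (nat_lit 557107) (nat_lit 15) (.e (nat_lit 188447) (nat_lit 22) (.e (nat_lit 196666) (nat_lit 13) (.e (nat_lit 65639) (nat_lit 15) .nil))))))) (.g (nat_lit 1) (.e (nat_lit 90698) (nat_lit 0) .nil) .nil))) 
(.lf (nat_lit 473015) (.g (nat_lit 4763) (.e (nat_lit 3469) (nat_lit 217) (.e (nat_lit 696344) (nat_lit 8) (.e (nat_lit 172082) (nat_lit 7) (.e (nat_lit 409649) (nat_lit 18) (.e (nat_lit 303140) (nat_lit 10) (.e (nat_lit 434275) (nat_lit 39) (.e (nat_lit 663580) (nat_lit 9) (.e (nat_lit 2416) (nat_lit 157) .nil)))))))) (.g (nat_lit 1) (.e (nat_lit 92143) (nat_lit 0) .nil) .nil)))))) 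
(.nd (nat_lit 7) (.nd (nat_lit 8) (.nd (nat_lit 9) 
(.lf (nat_lit 472183) (.g (nat_lit 1964) (.e (nat_lit 3617) (nat_lit 227) (.e (nat_lit 778462) (nat_lit 11) (.e (nat_lit 24608) (nat_lit 3) (.e (nat_lit 98365) (nat_lit 26) (.e (nat_lit 426188) (nat_lit 9) (.e (nat_lit 426436) (nat_lit 18) (.e (nat_lit 98322) (nat_lit 17) .nil))))))) (.g (nat_lit 1) (.e (nat_lit 90314) (nat_lit 0) .nil) .nil))) 
(.lf (nat_lit 472695) (.g (nat_lit 1801) (.e (nat_lit 3771) (nat_lit 229) (.e (nat_lit 794666) (nat_lit 22) (.e (nat_lit 196668) (nat_lit 14) (.e (nat_lit 73747) (nat_lit 3) (.e (nat_lit 516119) (nat_lit 1) .nil))))) (.g (nat_lit 0) (.e (nat_lit 91267) (nat_lit 0) .nil) .nil)))) (.nd (nat_lit 9) 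
(.lf (nat_lit 472439) (.g (nat_lit 1456) (.e (nat_lit 3634) (nat_lit 227) (.e (nat_lit 778470) (nat_lit 11) (.e (nat_lit 24626) (nat_lit 9) (.e (nat_lit 336443) (nat_lit 32) (.e (nat_lit 466969) (nat_lit 21) .nil))))) (.g (nat_lit 0) (.e (nat_lit 90586) (nat_lit 0) .nil) .nil))) 
(.lf (nat_lit 472951) (.g (nat_lit 4463) (.e (nat_lit 3469) (nat_lit 217) (.e (nat_lit 696344) (nat_lit 8) (.e (nat_lit 172079) (nat_lit 7) (.e (nat_lit 409645) (nat_lit 18) (.e (nat_lit 303140) (nat_lit 10) (.e (nat_lit 434275) (nat_lit 39) (.e (nat_lit 663580) (nat_lit 9) (.e (nat_lit 2416) (nat_lit 157) .nil)))))))) (.g (nat_lit 1) (.e (nat_lit 92079) (nat_lit 0) .nil) .nil))))) 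
(.nd (nat_lit 8) (.nd (nat_lit 9) 
(.lf (nat_lit 472311) (.g (nat_lit 1774) (.e (nat_lit 3631) (nat_lit 227) (.e (nat_lit 778323) (nat_lit 5) (.e (nat_lit 73782) (nat_lit 32) (.e (nat_lit 3090) (nat_lit 191) (.e (nat_lit 483386) (nat_lit 23) (.e (nat_lit 336291) (nat_lit 15) .nil)))))) (.g (nat_lit 1) (.e (nat_lit 90451) (nat_lit 0) .nil) .nil))) 
(.lf (nat_lit 472823) (.g (nat_lit 1230) (.e (nat_lit 3468) (nat_lit 217) (.e (nat_lit 696343) (nat_lit 8) (.e (nat_lit 172113) (nat_lit 10) (.e (nat_lit 434287) (nat_lit 43) .nil)))) (.g (nat_lit 0) (.e (nat_lit 91681) (nat_lit 0) .nil) .nil)))) (.nd (nat_lit 9) 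
(.lf (nat_lit 472567) (.g (nat_lit 684) (.e (nat_lit 3719) (nat_lit 227) (.e (nat_lit 778465) (nat_lit 11) (.e (nat_lit 24608) (nat_lit 3) .nil))) (.g (nat_lit 0) (.e (nat_lit 90765) (nat_lit 0) .nil) .nil))) 
(.lf (nat_lit 473079) (.g (nat_lit 2382) (.e (nat_lit 3469) (nat_lit 217) (.e (nat_lit 696344) (nat_lit 8) (.e (nat_lit 172113) (nat_lit 10) (.e (nat_lit 434208) (nat_lit 18) (.e (nat_lit 6250) (nat_lit 337) (.e (nat_lit 7936) (nat_lit 166) (.e (nat_lit 188438) (nat_lit 20) .nil))))))) (.g (nat_lit 1) (.e (nat_lit 92211) (nat_lit 0) .nil) .nil))))))))) 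
(.nd (nat_lit 4) (.nd (nat_lit 5) (.nd (nat_lit 6) (.nd (nat_lit 7) (.nd (nat_lit 8) 
(.nd (nat_lit 9) 
(.lf (nat_lit 472079) (.g (nat_lit 1997) (.e (nat_lit 3409) (nat_lit 212) (.e (nat_lit 655378) (nat_lit 4) (.e (nat_lit 172126) (nat_lit 14) (.e (nat_lit 491571) (nat_lit 13) (.e (nat_lit 393232) (nat_lit 17) (.e (nat_lit 7308) (nat_lit 388) (.e (nat_lit 2452) (nat_lit 157) .nil))))))) (.g (nat_lit 1) (.e (nat_lit 88497) (nat_lit 0) .nil) .nil))) 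
(.lf (nat_lit 472591) (.g (nat_lit 2844) (.e (nat_lit 3724) (nat_lit 227) (.e (nat_lit 778466) (nat_lit 11) (.e (nat_lit 24617) (nat_lit 7) (.e (nat_lit 319534) (nat_lit 16) (.e (nat_lit 286756) (nat_lit 10) .nil))))) (.g (nat_lit 0) (.e (nat_lit 90793) (nat_lit 0) .nil) .nil)))) (.nd (nat_lit 9) 
(.lf (nat_lit 472335) (.g (nat_lit 2523) (.e (nat_lit 3632) (nat_lit 227) (.e (nat_lit 778318) (nat_lit 3) (.e (nat_lit 57476) (nat_lit 28) (.e (nat_lit 557097) (nat_lit 13) (.e (nat_lit 172097) (nat_lit 9) (.e (nat_lit 426140) (nat_lit 3) (.e (nat_lit 204855) (nat_lit 26) (.e (nat_lit 336291) (nat_lit 15) .nil)))))))) (.g (nat_lit 1) (.e (nat_lit 90476) (nat_lit 0) .nil) .nil))) 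
(.lf (nat_lit 472847) (.g (nat_lit 2790) (.e (nat_lit 3468) (nat_lit 217) (.e (nat_lit 696344) (nat_lit 8) (.e (nat_lit 172064) (nat_lit 2) (.e (nat_lit 196666) (nat_lit 13) (.e (nat_lit 65610) (nat_lit 10) (.e (nat_lit 344129) (nat_lit 26) (.e (nat_lit 557067) (nat_lit 9) (.e (nat_lit 2464) (nat_lit 157) .nil)))))))) (.g (nat_lit 1) (.e (nat_lit 91715) (nat_lit 0) .nil) .nil))))) 
(.nd (nat_lit 8) (.nd (nat_lit 9) 
(.lf (nat_lit 472207) (.g (nat_lit 4460) (.e (nat_lit 3628) (nat_lit 227) (.e (nat_lit 778318) (nat_lit 3) (.e (nat_lit 57476) (nat_lit 28) (.e (nat_lit 557108) (nat_lit 15) (.e (nat_lit 188452) (nat_lit 23) (.e (nat_lit 204852) (nat_lit 26) (.e (nat_lit 336258) (nat_lit 15) .nil))))))) (.g (nat_lit 1) (.e (nat_lit 90344) (nat_lit 0) .nil) .nil))) 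
(.lf (nat_lit 472719) (.g (nat_lit 2488) (.e (nat_lit 3452) (nat_lit 216) (.e (nat_lit 688170) (nat_lit 15) (.e (nat_lit 57479) (nat_lit 28) (.e (nat_lit 557103) (nat_lit 14) (.e (nat_lit 180250) (nat_lit 10) .nil))))) (.g (nat_lit 0) (.e (nat_lit 91393) (nat_lit 0) .nil) .nil)))) (.nd (nat_lit 9) 
(.lf (nat_lit 472463) (.g (nat_lit 2029) (.e (nat_lit 3653) (nat_lit 227) (.e (nat_lit 778460) (nat_lit 11) (.e (nat_lit 24658) (nat_lit 13) (.e (nat_lit 393281) (nat_lit 23) (.e (nat_lit 426099) (nat_lit 1) .nil))))) (.g (nat_lit 0) (.e (nat_lit 90611) (nat_lit 0) .nil) .nil))) 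
(.lf (nat_lit 472975) (.g (nat_lit 2584) (.e (nat_lit 3469) (nat_lit 217) (.e (nat_lit 696344) (nat_lit 8) (.e (nat_lit 172081) (nat_lit 7) (.e (nat_lit 409648) (nat_lit 18) (.e (nat_lit 303137) (nat_lit 10) (.e (nat_lit 434275) (nat_lit 39) (.e (nat_lit 663574) (nat_lit 9) (.e (nat_lit 2473) (nat_lit 157) .nil)))))))) (.g (nat_lit 1) (.e (nat_lit 92103) (nat_lit 0) .nil) .nil)))))) 
(.nd (nat_lit 7) (.nd (nat_lit 8) (.nd (nat_lit 9) 
(.lf (nat_lit 472143) (.g (nat_lit 2695) (.e (nat_lit 3613) (nat_lit 226) (.e (nat_lit 770072) (nat_lit 8) (.e (nat_lit 65571) (nat_lit 3) (.e (nat_lit 98369) (nat_lit 28) .nil)))) (.g (nat_lit 0) (.e (nat_lit 90271) (nat_lit 0) .nil) .nil))) 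
(.lf (nat_lit 472655) (.g (nat_lit 1571) (.e (nat_lit 3747) (nat_lit 228) (.e (nat_lit 786473) (nat_lit 27) (.e (nat_lit 336235) (nat_lit 14) (.e (nat_lit 401456) (nat_lit 13) (.e (nat_lit 483383) (nat_lit 23) .nil))))) (.g (nat_lit 0) (.e (nat_lit 91091) (nat_lit 0) .nil) .nil)))) (.nd (nat_lit 9) 
(.lf (nat_lit 472399) (.g (nat_lit 2243) (.e (nat_lit 3632) (nat_lit 227) (.e (nat_lit 778323) (nat_lit 5) (.e (nat_lit 73782) (nat_lit 32) (.e (nat_lit 3090) (nat_lit 191) (.e (nat_lit 483393) (nat_lit 23) (.e (nat_lit 336293) (nat_lit 15) .nil)))))) (.g (nat_lit 1) (.e (nat_lit 90541) (nat_lit 0) .nil) .nil))) 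
(.lf (nat_lit 472911) (.g (nat_lit 5941) (.e (nat_lit 3469) (nat_lit 217) (.e (nat_lit 696344) (nat_lit 8) (.e (nat_lit 172064) (nat_lit 2) (.e (nat_lit 196666) (nat_lit 13) (.e (nat_lit 65610) (nat_lit 10) (.e (nat_lit 344129) (nat_lit 26) (.e (nat_lit 557067) (nat_lit 9) (.e (nat_lit 2467) (nat_lit 157) .nil)))))))) (.g (nat_lit 1) (.e (nat_lit 92039) (nat_lit 0) .nil) .nil))))) 
(.nd (nat_lit 8) (.nd (nat_lit 9) 
(.lf (nat_lit 472271) (.g (nat_lit 2499) (.e (nat_lit 3631) (nat_lit 227) (.e (nat_lit 778318) (nat_lit 3) (.e (nat_lit 57476) (nat_lit 28) (.e (nat_lit 557097) (nat_lit 13) (.e (nat_lit 172115) (nat_lit 10) (.e (nat_lit 434231) (nat_lit 23) (.e (nat_lit 532528) (nat_lit 9) (.e (nat_lit 336301) (nat_lit 15) .nil)))))))) (.g (nat_lit 1) (.e (nat_lit 90410) (nat_lit 0) .nil) .nil))) 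
(.lf (nat_lit 472783) (.g (nat_lit 2010) (.e (nat_lit 3467) (nat_lit 217) (.e (nat_lit 696344) (nat_lit 8) (.e (nat_lit 172106) (nat_lit 10) (.e (nat_lit 434209) (nat_lit 18) (.e (nat_lit 6272) (nat_lit 337) .nil))))) (.g (nat_lit 0) (.e (nat_lit 91550) (nat_lit 0) .nil) .nil)))) (.nd (nat_lit 9) 
(.lf (nat_lit 472527) (.g (nat_lit 2717) (.e (nat_lit 3711) (nat_lit 227) (.e (nat_lit 778469) (nat_lit 11) (.e (nat_lit 24657) (nat_lit 13) (.e (nat_lit 393294) (nat_lit 26) (.e (nat_lit 475214) (nat_lit 42) (.e (nat_lit 728832) (nat_lit 0) .nil)))))) (.g (nat_lit 1) (.e (nat_lit 90722) (nat_lit 0) .nil) .nil))) 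
(.lf (nat_lit 473039) (.g (nat_lit 2652) (.e (nat_lit 3469) (nat_lit 217) (.e (nat_lit 696344) (nat_lit 8) (.e (nat_lit 172106) (nat_lit 10) (.e (nat_lit 434209) (nat_lit 18) (.e (nat_lit 6272) (nat_lit 337) (.e (nat_lit 7936) (nat_lit 166) (.e (nat_lit 188441) (nat_lit 20) .nil))))))) (.g (nat_lit 1) (.e (nat_lit 92171) (nat_lit 0) .nil) .nil))))))) 
(.nd (nat_lit 6) (.nd (nat_lit 7) (.nd (nat_lit 8) (.nd (nat_lit 9) 
(.lf (nat_lit 472111) (.g (nat_lit 1144) (.e (nat_lit 3604) (nat_lit 225) (.e (nat_lit 761914) (nat_lit 18) (.e (nat_lit 188446) (nat_lit 21) (.e (nat_lit 164299) (nat_lit 226) .nil)))) (.g (nat_lit 0) (.e (nat_lit 89188) (nat_lit 0) .nil) .nil))) 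
(.lf (nat_lit 472623) (.g (nat_lit 2372) (.e (nat_lit 3746) (nat_lit 228) (.e (nat_lit 786481) (nat_lit 30) (.e (nat_lit 360456) (nat_lit 0) (.e (nat_lit 5949) (nat_lit 322) (.e (nat_lit 57435) (nat_lit 17) (.e (nat_lit 376835) (nat_lit 0) .nil)))))) (.g (nat_lit 1) (.e (nat_lit 91057) (nat_lit 0) .nil) .nil)))) (.nd (nat_lit 9) 
(.lf (nat_lit 472367) (.g (nat_lit 2601) (.e (nat_lit 3632) (nat_lit 227) (.e (nat_lit 778323) (nat_lit 5) (.e (nat_lit 73781) (nat_lit 32) (.e (nat_lit 2857) (nat_lit 184) (.e (nat_lit 426542) (nat_lit 29) (.e (nat_lit 352265) (nat_lit 0) .nil)))))) (.g (nat_lit 1) (.e (nat_lit 90509) (nat_lit 0) .nil) .nil))) 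
(.lf (nat_lit 472879) (.g (nat_lit 2846) (.e (nat_lit 3468) (nat_lit 217) (.e (nat_lit 696344) (nat_lit 8) (.e (nat_lit 172107) (nat_lit 10) (.e (nat_lit 434289) (nat_lit 43) (.e (nat_lit 696346) (nat_lit 10) (.e (nat_lit 188440) (nat_lit 20) .nil)))))) (.g (nat_lit 1) (.e (nat_lit 91766) (nat_lit 0) .nil) .nil))))) (.nd (nat_lit 8) (.nd (nat_lit 9) 
(.lf (nat_lit 472239) (.g (nat_lit 5203) (.e (nat_lit 3630) (nat_lit 227) (.e (nat_lit 778317) (nat_lit 3) (.e (nat_lit 57475) (nat_lit 28) (.e (nat_lit 557100) (nat_lit 13) (.e (nat_lit 172106) (nat_lit 10) (.e (nat_lit 434231) (nat_lit 23) (.e (nat_lit 532535) (nat_lit 9) (.e (nat_lit 336295) (nat_lit 15) .nil)))))))) (.g (nat_lit 1) (.e (nat_lit 90378) (nat_lit 0) .nil) .nil))) 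
(.lf (nat_lit 472751) (.g (nat_lit 2358) (.e (nat_lit 3464) (nat_lit 217) (.e (nat_lit 696344) (nat_lit 8) (.e (nat_lit 172079) (nat_lit 7) (.e (nat_lit 409645) (nat_lit 18) (.e (nat_lit 303139) (nat_lit 10) (.e (nat_lit 434276) (nat_lit 39) (.e (nat_lit 663580) (nat_lit 9) (.e (nat_lit 2478) (nat_lit 157) .nil)))))))) (.g (nat_lit 1) (.e (nat_lit 91487) (nat_lit 0) .nil) .nil)))) 
(.nd (nat_lit 9) 
(.lf (nat_lit 472495) (.g (nat_lit 1692) (.e (nat_lit 3697) (nat_lit 227) (.e (nat_lit 778462) (nat_lit 11) (.e (nat_lit 24604) (nat_lit 2) (.e (nat_lit 90185) (nat_lit 17) (.e (nat_lit 237601) (nat_lit 9) .nil))))) (.g (nat_lit 0) (.e (nat_lit 90683) (nat_lit 0) .nil) .nil))) 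
(.lf (nat_lit 473007) (.g (nat_lit 3198) (.e (nat_lit 3469) (nat_lit 217) (.e (nat_lit 696344) (nat_lit 8) (.e (nat_lit 172082) (nat_lit 7) (.e (nat_lit 409648) (nat_lit 18) (.e (nat_lit 303137) (nat_lit 10) (.e (nat_lit 434275) (nat_lit 39) (.e (nat_lit 663580) (nat_lit 9) (.e (nat_lit 2416) (nat_lit 157) .nil)))))))) (.g (nat_lit 1) (.e (nat_lit 92135) (nat_lit 0) .nil) .nil)))))) 
(.nd (nat_lit 7) (.nd (nat_lit 8) (.nd (nat_lit 9) 
(.lf (nat_lit 472175) (.g (nat_lit 1629) (.e (nat_lit 3617) (nat_lit 227) (.e (nat_lit 778462) (nat_lit 11) (.e (nat_lit 24604) (nat_lit 2) (.e (nat_lit 90185) (nat_lit 17) (.e (nat_lit 237605) (nat_lit 9) (.e (nat_lit 426436) (nat_lit 18) (.e (nat_lit 98319) (nat_lit 17) .nil))))))) (.g (nat_lit 1) (.e (nat_lit 90306) (nat_lit 0) .nil) .nil))) 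
(.lf (nat_lit 472687) (.g (nat_lit 1388) (.e (nat_lit 3748) (nat_lit 228) (.e (nat_lit 786481) (nat_lit 30) (.e (nat_lit 360449) (nat_lit 0) (.e (nat_lit 5898) (nat_lit 320) (.e (nat_lit 7936) (nat_lit 90) .nil))))) (.g (nat_lit 0) (.e (nat_lit 91165) (nat_lit 0) .nil) .nil)))) (.nd (nat_lit 9) 
(.lf (nat_lit 472431) (.g (nat_lit 3653) (.e (nat_lit 3633) (nat_lit 227) (.e (nat_lit 778318) (nat_lit 3) (.e (nat_lit 57476) (nat_lit 28) (.e (nat_lit 557108) (nat_lit 15) (.e (nat_lit 188452) (nat_lit 23) (.e (nat_lit 204852) (nat_lit 26) (.e (nat_lit 336259) (nat_lit 15) .nil))))))) (.g (nat_lit 1) (.e (nat_lit 90578) (nat_lit 0) .nil) .nil))) 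
(.lf (nat_lit 472943) (.g (nat_lit 1906) (.e (nat_lit 3469) (nat_lit 217) (.e (nat_lit 696344) (nat_lit 8) (.e (nat_lit 172079) (nat_lit 7) (.e (nat_lit 409645) (nat_lit 18) (.e (nat_lit 303139) (nat_lit 10) .nil))))) (.g (nat_lit 0) (.e (nat_lit 92071) (nat_lit 0) .nil) .nil))))) (.nd (nat_lit 8) (.nd (nat_lit 9) 
(.lf (nat_lit 472303) (.g (nat_lit 1888) (.e (nat_lit 3631) (nat_lit 227) (.e (nat_lit 778323) (nat_lit 5) (.e (nat_lit 73782) (nat_lit 32) (.e (nat_lit 3089) (nat_lit 191) (.e (nat_lit 483391) (nat_lit 23) (.e (nat_lit 336300) (nat_lit 15) .nil)))))) (.g (nat_lit 1) (.e (nat_lit 90443) (nat_lit 0) .nil) .nil))) 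
(.lf (nat_lit 472815) (.g (nat_lit 2852) (.e (nat_lit 3468) (nat_lit 217) (.e (nat_lit 696343) (nat_lit 8) (.e (nat_lit 172107) (nat_lit 10) (.e (nat_lit 434289) (nat_lit 43) (.e (nat_lit 696346) (nat_lit 10) (.e (nat_lit 188440) (nat_lit 20) .nil)))))) (.g (nat_lit 1) (.e (nat_lit 91651) (nat_lit 0) .nil) .nil)))) (.nd (nat_lit 9) 
(.lf (nat_lit 472559) (.g (nat_lit 607) (.e (nat_lit 3715) (nat_lit 227) (.e (nat_lit 778325) (nat_lit 6) (.e (nat_lit 81920) (nat_lit 0) (.e (nat_lit 3715) (nat_lit 227) (.e (nat_lit 778325) (nat_lit 6) (.e (nat_lit 81921) (nat_lit 0) .nil)))))) (.g (nat_lit 1) (.e (nat_lit 90757) (nat_lit 0) .nil) .nil))) 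
(.lf (nat_lit 473071) (.g (nat_lit 3111) (.e (nat_lit 3469) (nat_lit 217) (.e (nat_lit 696344) (nat_lit 8) (.e (nat_lit 172113) (nat_lit 10) (.e (nat_lit 434203) (nat_lit 18) (.e (nat_lit 6254) (nat_lit 337) (.e (nat_lit 2651) (nat_lit 166) (.e (nat_lit 188439) (nat_lit 20) .nil))))))) (.g (nat_lit 1) (.e (nat_lit 92203) (nat_lit 0) .nil) .nil)))))))) 
(.nd (nat_lit 5) (.nd (nat_lit 6) (.nd (nat_lit 7) (.nd (nat_lit 8) (.nd (nat_lit 9) 
(.lf (nat_lit 472095) (.g (nat_lit 906) (.e (nat_lit 3409) (nat_lit 212) (.e (nat_lit 655380) (nat_lit 6) (.e (nat_lit 188453) (nat_lit 24) (.e (nat_lit 229666) (nat_lit 240) .nil)))) (.g (nat_lit 0) (.e (nat_lit 88519) (nat_lit 0) .nil) .nil))) 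
(.lf (nat_lit 472607) (.g (nat_lit 439) (.e (nat_lit 3741) (nat_lit 228) (.e (nat_lit 786481) (nat_lit 30) (.e (nat_lit 360449) (nat_lit 0) .nil))) (.g (nat_lit 0) (.e (nat_lit 90971) (nat_lit 0) .nil) .nil)))) (.nd (nat_lit 9) 
(.lf (nat_lit 472351) (.g (nat_lit 5884) (.e (nat_lit 3632) (nat_lit 227) (.e (nat_lit 778318) (nat_lit 3) (.e (nat_lit 57476) (nat_lit 28) (.e (nat_lit 557108) (nat_lit 15) (.e (nat_lit 188449) (nat_lit 22) (.e (nat_lit 196663) (nat_lit 13) (.e (nat_lit 65637) (nat_lit 15) .nil))))))) (.g (nat_lit 1) (.e (nat_lit 90492) (nat_lit 0) .nil) .nil))) 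
(.lf (nat_lit 472863) (.g (nat_lit 2973) (.e (nat_lit 3468) (nat_lit 217) (.e (nat_lit 696344) (nat_lit 8) (.e (nat_lit 172106) (nat_lit 10) (.e (nat_lit 434209) (nat_lit 18) (.e (nat_lit 6425) (nat_lit 342) (.e (nat_lit 229412) (nat_lit 14) (.e (nat_lit 442408) (nat_lit 20) .nil))))))) (.g (nat_lit 1) (.e (nat_lit 91743) (nat_lit 0) .nil) .nil))))) (.nd (nat_lit 8) (.nd (nat_lit 9) 
(.lf (nat_lit 472223) (.g (nat_lit 1107) (.e (nat_lit 3629) (nat_lit 227) (.e (nat_lit 778326) (nat_lit 6) (.e (nat_lit 81924) (nat_lit 0) (.e (nat_lit 3631) (nat_lit 227) (.e (nat_lit 778326) (nat_lit 6) (.e (nat_lit 81924) (nat_lit 0) .nil)))))) (.g (nat_lit 1) (.e (nat_lit 90361) (nat_lit 0) .nil) .nil))) 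
(.lf (nat_lit 472735) (.g (nat_lit 591) (.e (nat_lit 7936) (nat_lit 216) (.e (nat_lit 688177) (nat_lit 16) (.e (nat_lit 65543) (nat_lit 0) .nil))) (.g (nat_lit 0) (.e (nat_lit 91438) (nat_lit 0) .nil) .nil)))) (.nd (nat_lit 9) 
(.lf (nat_lit 472479) (.g (nat_lit 1490) (.e (nat_lit 3658) (nat_lit 227) (.e (nat_lit 778462) (nat_lit 11) (.e (nat_lit 24604) (nat_lit 2) (.e (nat_lit 90185) (nat_lit 17) (.e (nat_lit 237601) (nat_lit 9) .nil))))) (.g (nat_lit 0) (.e (nat_lit 90643) (nat_lit 0) .nil) .nil))) 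
(.lf (nat_lit 472991) (.g (nat_lit 3763) (.e (nat_lit 3469) (nat_lit 217) (.e (nat_lit 696344) (nat_lit 8) (.e (nat_lit 172082) (nat_lit 7) (.e (nat_lit 409646) (nat_lit 18) (.e (nat_lit 303137) (nat_lit 10) (.e (nat_lit 434275) (nat_lit 39) (.e (nat_lit 663580) (nat_lit 9) (.e (nat_lit 2416) (nat_lit 157) .nil)))))))) (.g (nat_lit 1) (.e (nat_lit 92119) (nat_lit 0) .nil) .nil)))))) 
(.nd (nat_lit 7) (.nd (nat_lit 8) (.nd (nat_lit 9) 
(.lf (nat_lit 472159) (.g (nat_lit 3639) (.e (nat_lit 3613) (nat_lit 226) (.e (nat_lit 770072) (nat_lit 8) (.e (nat_lit 65586) (nat_lit 7) (.e (nat_lit 319531) (nat_lit 16) (.e (nat_lit 286759) (nat_lit 12) (.e (nat_lit 385107) (nat_lit 51) (.e (nat_lit 794648) (nat_lit 20) .nil))))))) (.g (nat_lit 1) (.e (nat_lit 90287) (nat_lit 0) .nil) .nil))) 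
(.lf (nat_lit 472671) (.g (nat_lit 1900) (.e (nat_lit 3748) (nat_lit 228) (.e (nat_lit 786473) (nat_lit 27) (.e (nat_lit 336235) (nat_lit 14) (.e (nat_lit 401457) (nat_lit 13) (.e (nat_lit 491264) (nat_lit 23) (.e (nat_lit 336278) (nat_lit 15) .nil)))))) (.g (nat_lit 1) (.e (nat_lit 91114) (nat_lit 0) .nil) .nil)))) (.nd (nat_lit 9) 
(.lf (nat_lit 472415) (.g (nat_lit 2337) (.e (nat_lit 3632) (nat_lit 227) (.e (nat_lit 778324) (nat_lit 5) (.e (nat_lit 73781) (nat_lit 32) (.e (nat_lit 3090) (nat_lit 191) (.e (nat_lit 483393) (nat_lit 23) (.e (nat_lit 336293) (nat_lit 15) .nil)))))) (.g (nat_lit 1) (.e (nat_lit 90558) (nat_lit 0) .nil) .nil))) 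
(.lf (nat_lit 472927) (.g (nat_lit 2886) (.e (nat_lit 3469) (nat_lit 217) (.e (nat_lit 696344) (nat_lit 8) (.e (nat_lit 172078) (nat_lit 7) (.e (nat_lit 409649) (nat_lit 18) (.e (nat_lit 303140) (nat_lit 10) (.e (nat_lit 434275) (nat_lit 39) (.e (nat_lit 663580) (nat_lit 9) (.e (nat_lit 7936) (nat_lit 157) .nil)))))))) (.g (nat_lit 1) (.e (nat_lit 92055) (nat_lit 0) .nil) .nil))))) 
(.nd (nat_lit 8) (.nd (nat_lit 9) 
(.lf (nat_lit 472287) (.g (nat_lit 3374) (.e (nat_lit 3631) (nat_lit 227) (.e (nat_lit 778323) (nat_lit 5) (.e (nat_lit 73781) (nat_lit 32) (.e (nat_lit 3090) (nat_lit 191) (.e (nat_lit 483380) (nat_lit 23) (.e (nat_lit 336265) (nat_lit 15) .nil)))))) (.g (nat_lit 1) (.e (nat_lit 90427) (nat_lit 0) .nil) .nil))) 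
(.lf (nat_lit 472799) (.g (nat_lit 3827) (.e (nat_lit 3468) (nat_lit 217) (.e (nat_lit 696343) (nat_lit 8) (.e (nat_lit 172106) (nat_lit 10) (.e (nat_lit 434209) (nat_lit 18) (.e (nat_lit 6425) (nat_lit 342) (.e (nat_lit 229412) (nat_lit 14) (.e (nat_lit 442411) (nat_lit 20) .nil))))))) (.g (nat_lit 1) (.e (nat_lit 91631) (nat_lit 0) .nil) .nil)))) (.nd (nat_lit 9) 
(.lf (nat_lit 472543) (.g (nat_lit 3711) (.e (nat_lit 3714) (nat_lit 227) (.e (nat_lit 778316) (nat_lit 3) (.e (nat_lit 57480) (nat_lit 28) (.e (nat_lit 557098) (nat_lit 13) (.e (nat_lit 172097) (nat_lit 9) (.e (nat_lit 426140) (nat_lit 3) (.e (nat_lit 204855) (nat_lit 26) (.e (nat_lit 336290) (nat_lit 15) .nil)))))))) (.g (nat_lit 1) (.e (nat_lit 90740) (nat_lit 0) .nil) .nil))) 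
(.lf (nat_lit 473055) (.g (nat_lit 2577) (.e (nat_lit 3469) (nat_lit 217) (.e (nat_lit 696344) (nat_lit 8) (.e (nat_lit 172106) (nat_lit 10) (.e (nat_lit 434288) (nat_lit 43) (.e (nat_lit 696346) (nat_lit 10) (.e (nat_lit 188435) (nat_lit 20) .nil)))))) (.g (nat_lit 1) (.e (nat_lit 92187) (nat_lit 0) .nil) .nil))))))) (.nd (nat_lit 6) (.nd (nat_lit 7) (.nd (nat_lit 8) (.nd (nat_lit 9) 
(.lf (nat_lit 472127) (.g (nat_lit 364) (.e (nat_lit 3603) (nat_lit 225) (.e (nat_lit 761914) (nat_lit 18) (.e (nat_lit 196352) (nat_lit 0) .nil))) (.g (nat_lit 0) (.e (nat_lit 90235) (nat_lit 0) .nil) .nil))) 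
(.lf (nat_lit 472639) (.g (nat_lit 1790) (.e (nat_lit 3747) (nat_lit 228) (.e (nat_lit 786473) (nat_lit 27) (.e (nat_lit 335872) (nat_lit 0) (.e (nat_lit 6717) (nat_lit 361) (.e (nat_lit 172150) (nat_lit 27) (.e (nat_lit 336078) (nat_lit 9) (.e (nat_lit 336286) (nat_lit 15) .nil))))))) (.g (nat_lit 1) (.e (nat_lit 91074) (nat_lit 0) .nil) .nil)))) (.nd (nat_lit 9) 
(.lf (nat_lit 472383) (.g (nat_lit 1486) (.e (nat_lit 3632) (nat_lit 227) (.e (nat_lit 778323) (nat_lit 5) (.e (nat_lit 73781) (nat_lit 32) (.e (nat_lit 3090) (nat_lit 191) (.e (nat_lit 491264) (nat_lit 23) .nil))))) (.g (nat_lit 0) (.e (nat_lit 90525) (nat_lit 0) .nil) .nil))) 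
(.lf (nat_lit 472895) (.g (nat_lit 1656) (.e (nat_lit 3468) (nat_lit 217) (.e (nat_lit 696344) (nat_lit 8) (.e (nat_lit 172115) (nat_lit 10) (.e (nat_lit 434209) (nat_lit 18) (.e (nat_lit 6273) (nat_lit 337) (.e (nat_lit 2645) (nat_lit 166) (.e (nat_lit 188435) (nat_lit 20) .nil))))))) (.g (nat_lit 1) (.e (nat_lit 91813) (nat_lit 0) .nil) .nil))))) (.nd (nat_lit 8) (.nd (nat_lit 9) 
(.lf (nat_lit 472255) (.g (nat_lit 1128) (.e (nat_lit 3630) (nat_lit 227) (.e (nat_lit 778326) (nat_lit 6) (.e (nat_lit 81924) (nat_lit 0) (.e (nat_lit 3631) (nat_lit 227) (.e (nat_lit 778326) (nat_lit 6) (.e (nat_lit 81924) (nat_lit 0) .nil)))))) (.g (nat_lit 1) (.e (nat_lit 90394) (nat_lit 0) .nil) .nil))) 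
(.lf (nat_lit 472767) (.g (nat_lit 3913) (.e (nat_lit 3464) (nat_lit 217) (.e (nat_lit 696344) (nat_lit 8) (.e (nat_lit 172126) (nat_lit 14) (.e (nat_lit 491566) (nat_lit 12) (.e (nat_lit 385108) (nat_lit 51) (.e (nat_lit 794684) (nat_lit 25) (.e (nat_lit 221198) (nat_lit 20) .nil))))))) (.g (nat_lit 1) (.e (nat_lit 91503) (nat_lit 0) .nil) .nil)))) (.nd (nat_lit 9) 
(.lf (nat_lit 472511) (.g (nat_lit 3751) (.e (nat_lit 3711) (nat_lit 227) (.e (nat_lit 786176) (nat_lit 3) (.e (nat_lit 57480) (nat_lit 28) (.e (nat_lit 557098) (nat_lit 13) (.e (nat_lit 172115) (nat_lit 10) (.e (nat_lit 434231) (nat_lit 23) (.e (nat_lit 532535) (nat_lit 9) (.e (nat_lit 336290) (nat_lit 15) .nil)))))))) (.g (nat_lit 1) (.e (nat_lit 90706) (nat_lit 0) .nil) .nil))) 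
(.lf (nat_lit 473023) (.g (nat_lit 2877) (.e (nat_lit 3469) (nat_lit 217) (.e (nat_lit 696344) (nat_lit 8) (.e (nat_lit 172106) (nat_lit 10) (.e (nat_lit 434202) (nat_lit 18) (.e (nat_lit 6252) (nat_lit 337) (.e (nat_lit 7936) (nat_lit 166) (.e (nat_lit 188441) (nat_lit 20) .nil))))))) (.g (nat_lit 1) (.e (nat_lit 92155) (nat_lit 0) .nil) .nil)))))) 
(.nd (nat_lit 7) (.nd (nat_lit 8) (.nd (nat_lit 9) 
(.lf (nat_lit 472191) (.g (nat_lit 2441) (.e (nat_lit 3617) (nat_lit 227) (.e (nat_lit 778462) (nat_lit 11) (.e (nat_lit 24658) (nat_lit 13) (.e (nat_lit 393281) (nat_lit 23) (.e (nat_lit 426099) (nat_lit 1) (.e (nat_lit 164332) (nat_lit 230) (.e (nat_lit 163847) (nat_lit 0) .nil))))))) (.g (nat_lit 1) (.e (nat_lit 90327) (nat_lit 0) .nil) .nil))) 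
(.lf (nat_lit 472703) (.g (nat_lit 2791) (.e (nat_lit 3771) (nat_lit 229) (.e (nat_lit 794668) (nat_lit 22) (.e (nat_lit 196666) (nat_lit 13) (.e (nat_lit 65569) (nat_lit 3) (.e (nat_lit 98334) (nat_lit 18) (.e (nat_lit 164161) (nat_lit 152) (.e (nat_lit 1032) (nat_lit 81) (.e (nat_lit 1254) (nat_lit 92) (.e (nat_lit 98321) (nat_lit 17) .nil))))))))) (.g (nat_lit 1) (.e (nat_lit 91277) (nat_lit 0) .nil) .nil)))) 
(.nd (nat_lit 9) 
(.lf (nat_lit 472447) (.g (nat_lit 4797) (.e (nat_lit 3636) (nat_lit 227) (.e (nat_lit 778318) (nat_lit 3) (.e (nat_lit 57476) (nat_lit 28) (.e (nat_lit 557108) (nat_lit 15) (.e (nat_lit 188452) (nat_lit 23) (.e (nat_lit 204852) (nat_lit 26) (.e (nat_lit 336257) (nat_lit 15) .nil))))))) (.g (nat_lit 1) (.e (nat_lit 90594) (nat_lit 0) .nil) .nil))) 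
(.lf (nat_lit 472959) (.g (nat_lit 2328) (.e (nat_lit 3469) (nat_lit 217) (.e (nat_lit 696344) (nat_lit 8) (.e (nat_lit 172079) (nat_lit 7) (.e (nat_lit 409648) (nat_lit 18) (.e (nat_lit 303137) (nat_lit 10) (.e (nat_lit 434275) (nat_lit 39) (.e (nat_lit 663574) (nat_lit 9) (.e (nat_lit 2464) (nat_lit 157) .nil)))))))) (.g (nat_lit 1) (.e (nat_lit 92087) (nat_lit 0) .nil) .nil))))) 
(.nd (nat_lit 8) (.nd (nat_lit 9) 
(.lf (nat_lit 472319) (.g (nat_lit 1440) (.e (nat_lit 3631) (nat_lit 227) (.e (nat_lit 778326) (nat_lit 6) (.e (nat_lit 81922) (nat_lit 0) (.e (nat_lit 3631) (nat_lit 227) (.e (nat_lit 778327) (nat_lit 6) (.e (nat_lit 81922) (nat_lit 0) .nil)))))) (.g (nat_lit 1) (.e (nat_lit 90459) (nat_lit 0) .nil) .nil))) 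
(.lf (nat_lit 472831) (.g (nat_lit 1024) (.e (nat_lit 3468) (nat_lit 217) (.e (nat_lit 696343) (nat_lit 8) (.e (nat_lit 172115) (nat_lit 10) (.e (nat_lit 434209) (nat_lit 18) .nil)))) (.g (nat_lit 0) (.e (nat_lit 91694) (nat_lit 0) .nil) .nil)))) (.nd (nat_lit 9) 
(.lf (nat_lit 472575) (.g (nat_lit 3143) (.e (nat_lit 3719) (nat_lit 227) (.e (nat_lit 778466) (nat_lit 11) (.e (nat_lit 24608) (nat_lit 3) (.e (nat_lit 98365) (nat_lit 26) (.e (nat_lit 426187) (nat_lit 9) (.e (nat_lit 426438) (nat_lit 18) (.e (nat_lit 98325) (nat_lit 17) .nil))))))) (.g (nat_lit 1) (.e (nat_lit 90773) (nat_lit 0) .nil) .nil))) 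
(.lf (nat_lit 473087) (.g (nat_lit 2658) (.e (nat_lit 3469) (nat_lit 217) (.e (nat_lit 696344) (nat_lit 8) (.e (nat_lit 172113) (nat_lit 10) (.e (nat_lit 434208) (nat_lit 18) (.e (nat_lit 6420) (nat_lit 341) (.e (nat_lit 163920) (nat_lit 14) (.e (nat_lit 442411) (nat_lit 20) .nil))))))) (.g (nat_lit 1) (.e (nat_lit 92219) (nat_lit 0) .nil) .nil)))))))))))))

noncomputable def tv5522 : DT := (.nd (nat_lit 0) (.nd (nat_lit 1) (.nd (nat_lit 2) (.nd (nat_lit 3) (.nd (nat_lit 4) (.nd (nat_lit 5) (.nd (nat_lit 6) (.nd (nat_lit 7) (.nd (nat_lit 8) (.nd (nat_lit 9) 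
(.lf (nat_lit 473088) (.g (nat_lit 3337) (.e (nat_lit 3469) (nat_lit 217) (.e (nat_lit 696344) (nat_lit 8) (.e (nat_lit 172113) (nat_lit 10) (.e (nat_lit 434208) (nat_lit 18) (.e (nat_lit 6420) (nat_lit 341) (.e (nat_lit 163920) (nat_lit 14) (.e (nat_lit 442412) (nat_lit 20) .nil))))))) (.g (nat_lit 1) (.e (nat_lit 92220) (nat_lit 0) .nil) .nil))) 
(.lf (nat_lit 473600) (.g (nat_lit 2686) (.e (nat_lit 1127) (nat_lit 83) (.e (nat_lit 16466) (nat_lit 13) (.e (nat_lit 483413) (nat_lit 27) (.e (nat_lit 401448) (nat_lit 10) .nil)))) (.g (nat_lit 0) (.e (nat_lit 93782) (nat_lit 0) .nil) .nil)))) (.nd (nat_lit 9) 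
(.lf (nat_lit 473344) (.g (nat_lit 2731) (.e (nat_lit 3471) (nat_lit 217) (.e (nat_lit 696344) (nat_lit 8) (.e (nat_lit 172082) (nat_lit 7) (.e (nat_lit 409649) (nat_lit 18) (.e (nat_lit 303140) (nat_lit 10) (.e (nat_lit 434275) (nat_lit 39) (.e (nat_lit 663579) (nat_lit 9) (.e (nat_lit 2429) (nat_lit 157) .nil)))))))) (.g (nat_lit 1) (.e (nat_lit 92580) (nat_lit 0) .nil) .nil))) 
(.lf (nat_lit 473856) (.g (nat_lit 1607) (.e (nat_lit 1199) (nat_lit 88) (.e (nat_lit 65630) (nat_lit 14) (.e (nat_lit 401435) (nat_lit 9) (.e (nat_lit 426544) (nat_lit 30) (.e (nat_lit 368384) (nat_lit 0) .nil))))) (.g (nat_lit 0) (.e (nat_lit 94836) (nat_lit 0) .nil) .nil))))) (.nd (nat_lit 8) (.nd (nat_lit 9) 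
(.lf (nat_lit 473216) (.g (nat_lit 2121) (.e (nat_lit 3471) (nat_lit 217) (.e (nat_lit 696343) (nat_lit 8) (.e (nat_lit 172115) (nat_lit 10) (.e (nat_lit 434202) (nat_lit 18) (.e (nat_lit 6255) (nat_lit 337) (.e (nat_lit 2725) (nat_lit 172) (.e (nat_lit 237605) (nat_lit 9) (.e (nat_lit 425986) (nat_lit 0) .nil)))))))) (.g (nat_lit 1) (.e (nat_lit 92451) (nat_lit 0) .nil) .nil))) 
(.lf (nat_lit 473728) (.g (nat_lit 3734) (.e (nat_lit 1183) (nat_lit 87) (.e (nat_lit 57478) (nat_lit 28) (.e (nat_lit 557109) (nat_lit 15) (.e (nat_lit 188450) (nat_lit 23) (.e (nat_lit 204856) (nat_lit 26) .nil))))) (.g (nat_lit 0) (.e (nat_lit 94524) (nat_lit 0) .nil) .nil)))) (.nd (nat_lit 9) 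
(.lf (nat_lit 473472) (.g (nat_lit 2137) (.e (nat_lit 3579) (nat_lit 223) (.e (nat_lit 745491) (nat_lit 4) (.e (nat_lit 65616) (nat_lit 10) (.e (nat_lit 344138) (nat_lit 29) (.e (nat_lit 581653) (nat_lit 6) (.e (nat_lit 188438) (nat_lit 20) .nil)))))) (.g (nat_lit 1) (.e (nat_lit 92931) (nat_lit 0) .nil) .nil))) 
(.lf (nat_lit 473984) (.g (nat_lit 2393) (.e (nat_lit 1225) (nat_lit 91) (.e (nat_lit 90170) (nat_lit 13) (.e (nat_lit 172106) (nat_lit 10) (.e (nat_lit 434231) (nat_lit 23) (.e (nat_lit 532522) (nat_lit 7) .nil))))) (.g (nat_lit 0) (.e (nat_lit 95137) (nat_lit 0) .nil) .nil)))))) (.nd (nat_lit 7) (.nd (nat_lit 8) (.nd (nat_lit 9) 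
(.lf (nat_lit 473152) (.g (nat_lit 3079) (.e (nat_lit 3471) (nat_lit 217) (.e (nat_lit 696343) (nat_lit 8) (.e (nat_lit 172081) (nat_lit 7) (.e (nat_lit 409649) (nat_lit 18) (.e (nat_lit 303140) (nat_lit 10) (.e (nat_lit 434202) (nat_lit 18) (.e (nat_lit 5964) (nat_lit 324) (.e (nat_lit 163844) (nat_lit 0) .nil)))))))) (.g (nat_lit 1) (.e (nat_lit 92387) (nat_lit 0) .nil) .nil))) 
(.lf (nat_lit 473664) (.g (nat_lit 2751) (.e (nat_lit 1171) (nat_lit 87) (.e (nat_lit 57476) (nat_lit 28) (.e (nat_lit 557067) (nat_lit 9) (.e (nat_lit 3022) (nat_lit 187) (.e (nat_lit 450580) (nat_lit 5) .nil))))) (.g (nat_lit 0) (.e (nat_lit 94065) (nat_lit 0) .nil) .nil)))) (.nd (nat_lit 9) 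
(.lf (nat_lit 473408) (.g (nat_lit 1722) (.e (nat_lit 3544) (nat_lit 219) (.e (nat_lit 712753) (nat_lit 30) (.e (nat_lit 450586) (nat_lit 10) (.e (nat_lit 573473) (nat_lit 12) (.e (nat_lit 57511) (nat_lit 39) .nil))))) (.g (nat_lit 0) (.e (nat_lit 92784) (nat_lit 0) .nil) .nil))) 
(.lf (nat_lit 473920) (.g (nat_lit 886) (.e (nat_lit 1210) (nat_lit 89) (.e (nat_lit 73781) (nat_lit 32) (.e (nat_lit 3089) (nat_lit 191) (.e (nat_lit 483393) (nat_lit 23) .nil)))) (.g (nat_lit 0) (.e (nat_lit 95037) (nat_lit 0) .nil) .nil))))) (.nd (nat_lit 8) (.nd (nat_lit 9) 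
(.lf (nat_lit 473280) (.g (nat_lit 2199) (.e (nat_lit 3471) (nat_lit 217) (.e (nat_lit 696344) (nat_lit 8) (.e (nat_lit 172079) (nat_lit 7) (.e (nat_lit 409645) (nat_lit 18) (.e (nat_lit 303139) (nat_lit 10) (.e (nat_lit 434203) (nat_lit 18) (.e (nat_lit 5966) (nat_lit 324) (.e (nat_lit 163844) (nat_lit 0) .nil)))))))) (.g (nat_lit 1) (.e (nat_lit 92516) (nat_lit 0) .nil) .nil))) 
(.lf (nat_lit 473792) (.g (nat_lit 3138) (.e (nat_lit 1183) (nat_lit 87) (.e (nat_lit 57575) (nat_lit 55) (.e (nat_lit 778466) (nat_lit 11) (.e (nat_lit 24617) (nat_lit 7) (.e (nat_lit 319533) (nat_lit 16) (.e (nat_lit 286754) (nat_lit 10) (.e (nat_lit 344091) (nat_lit 18) (.e (nat_lit 5441) (nat_lit 306) .nil)))))))) (.g (nat_lit 1) (.e (nat_lit 94626) (nat_lit 0) .nil) .nil)))) (.nd (nat_lit 9) 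
(.lf (nat_lit 473536) (.g (nat_lit 2394) (.e (nat_lit 1039) (nat_lit 81) (.e (nat_lit 1234) (nat_lit 91) (.e (nat_lit 90174) (nat_lit 14) (.e (nat_lit 180250) (nat_lit 10) (.e (nat_lit 573487) (nat_lit 14) .nil))))) (.g (nat_lit 0) (.e (nat_lit 93370) (nat_lit 0) .nil) .nil))) 
(.lf (nat_lit 474048) (.g (nat_lit 4078) (.e (nat_lit 1234) (nat_lit 91) (.e (nat_lit 90170) (nat_lit 13) (.e (nat_lit 172106) (nat_lit 10) (.e (nat_lit 434231) (nat_lit 23) (.e (nat_lit 532535) (nat_lit 9) (.e (nat_lit 336295) (nat_lit 15) (.e (nat_lit 2444) (nat_lit 157) (.e (nat_lit 6883) (nat_lit 371) (.e (nat_lit 1039) (nat_lit 81) .nil))))))))) (.g (nat_lit 1) (.e (nat_lit 95215) (nat_lit 0) .nil) .nil))))))) 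
(.nd (nat_lit 6) (.nd (nat_lit 7) (.nd (nat_lit 8) (.nd (nat_lit 9) 
(.lf (nat_lit 473120) (.g (nat_lit 1833) (.e (nat_lit 3469) (nat_lit 217) (.e (nat_lit 696344) (nat_lit 8) (.e (nat_lit 172122) (nat_lit 13) (.e (nat_lit 483372) (nat_lit 21) (.e (nat_lit 327424) (nat_lit 18) .nil))))) (.g (nat_lit 0) (.e (nat_lit 92252) (nat_lit 0) .nil) .nil))) 
(.lf (nat_lit 473632) (.g (nat_lit 155) (.e (nat_lit 1160) (nat_lit 86) (.e (nat_lit 49157) (nat_lit 0) (.e (nat_lit 3020) (nat_lit 187) .nil))) (.g (nat_lit 0) (.e (nat_lit 93898) (nat_lit 0) .nil) .nil)))) (.nd (nat_lit 9) 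
(.lf (nat_lit 473376) (.g (nat_lit 3510) (.e (nat_lit 3526) (nat_lit 218) (.e (nat_lit 704738) (nat_lit 11) (.e (nat_lit 16425) (nat_lit 7) (.e (nat_lit 409648) (nat_lit 18) (.e (nat_lit 303137) (nat_lit 10) .nil))))) (.g (nat_lit 0) (.e (nat_lit 92655) (nat_lit 0) .nil) .nil))) 
(.lf (nat_lit 473888) (.g (nat_lit 1809) (.e (nat_lit 1209) (nat_lit 89) (.e (nat_lit 73781) (nat_lit 32) (.e (nat_lit 2682) (nat_lit 168) (.e (nat_lit 204869) (nat_lit 29) (.e (nat_lit 368384) (nat_lit 0) .nil))))) (.g (nat_lit 0) (.e (nat_lit 95004) (nat_lit 0) .nil) .nil))))) (.nd (nat_lit 8) (.nd (nat_lit 9) 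
(.lf (nat_lit 473248) (.g (nat_lit 2413) (.e (nat_lit 3471) (nat_lit 217) (.e (nat_lit 696344) (nat_lit 8) (.e (nat_lit 172079) (nat_lit 7) (.e (nat_lit 409645) (nat_lit 18) (.e (nat_lit 303133) (nat_lit 9) (.e (nat_lit 426042) (nat_lit 0) (.e (nat_lit 2429) (nat_lit 157) (.e (nat_lit 5965) (nat_lit 324) (.e (nat_lit 163844) (nat_lit 0) .nil))))))))) (.g (nat_lit 1) (.e (nat_lit 92484) (nat_lit 0) .nil) .nil))) 
(.lf (nat_lit 473760) (.g (nat_lit 2173) (.e (nat_lit 1183) (nat_lit 87) (.e (nat_lit 57480) (nat_lit 28) (.e (nat_lit 557107) (nat_lit 15) (.e (nat_lit 188450) (nat_lit 23) (.e (nat_lit 204852) (nat_lit 26) .nil))))) (.g (nat_lit 0) (.e (nat_lit 94556) (nat_lit 0) .nil) .nil)))) (.nd (nat_lit 9) 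
(.lf (nat_lit 473504) (.g (nat_lit 1224) (.e (nat_lit 986) (nat_lit 81) (.e (nat_lit 6113) (nat_lit 332) (.e (nat_lit 2810) (nat_lit 180) (.e (nat_lit 303145) (nat_lit 13) .nil)))) (.g (nat_lit 0) (.e (nat_lit 93132) (nat_lit 0) .nil) .nil))) 
(.lf (nat_lit 474016) (.g (nat_lit 2782) (.e (nat_lit 1232) (nat_lit 91) (.e (nat_lit 90170) (nat_lit 13) (.e (nat_lit 172106) (nat_lit 10) (.e (nat_lit 434231) (nat_lit 23) (.e (nat_lit 532483) (nat_lit 0) .nil))))) (.g (nat_lit 0) (.e (nat_lit 95177) (nat_lit 0) .nil) .nil)))))) (.nd (nat_lit 7) (.nd (nat_lit 8) (.nd (nat_lit 9) 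
(.lf (nat_lit 473184) (.g (nat_lit 4859) (.e (nat_lit 3471) (nat_lit 217) (.e (nat_lit 696343) (nat_lit 8) (.e (nat_lit 172082) (nat_lit 7) (.e (nat_lit 409646) (nat_lit 18) (.e (nat_lit 303140) (nat_lit 10) (.e (nat_lit 434202) (nat_lit 18) (.e (nat_lit 5964) (nat_lit 324) (.e (nat_lit 163844) (nat_lit 0) .nil)))))))) (.g (nat_lit 1) (.e (nat_lit 92419) (nat_lit 0) .nil) .nil))) 
(.lf (nat_lit 473696) (.g (nat_lit 2830) (.e (nat_lit 1181) (nat_lit 87) (.e (nat_lit 57478) (nat_lit 28) (.e (nat_lit 557108) (nat_lit 15) (.e (nat_lit 188452) (nat_lit 23) (.e (nat_lit 204873) (nat_lit 30) .nil))))) (.g (nat_lit 0) (.e (nat_lit 94281) (nat_lit 0) .nil) .nil)))) (.nd (nat_lit 9) 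
(.lf (nat_lit 473440) (.g (nat_lit 634) (.e (nat_lit 3571) (nat_lit 222) (.e (nat_lit 737283) (nat_lit 0) (.e (nat_lit 5410) (nat_lit 303) (.e (nat_lit 73750) (nat_lit 6) (.e (nat_lit 540724) (nat_lit 28) (.e (nat_lit 442396) (nat_lit 20) .nil)))))) (.g (nat_lit 1) (.e (nat_lit 92855) (nat_lit 0) .nil) .nil))) 
(.lf (nat_lit 473952) (.g (nat_lit 2466) (.e (nat_lit 1212) (nat_lit 89) (.e (nat_lit 73747) (nat_lit 3) (.e (nat_lit 516165) (nat_lit 12) (.e (nat_lit 450586) (nat_lit 10) (.e (nat_lit 573475) (nat_lit 12) .nil))))) (.g (nat_lit 0) (.e (nat_lit 95075) (nat_lit 0) .nil) .nil))))) (.nd (nat_lit 8) (.nd (nat_lit 9) 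
(.lf (nat_lit 473312) (.g (nat_lit 1834) (.e (nat_lit 3471) (nat_lit 217) (.e (nat_lit 696344) (nat_lit 8) (.e (nat_lit 172082) (nat_lit 7) (.e (nat_lit 409646) (nat_lit 18) (.e (nat_lit 303133) (nat_lit 9) (.e (nat_lit 426043) (nat_lit 0) (.e (nat_lit 2442) (nat_lit 157) (.e (nat_lit 5964) (nat_lit 324) (.e (nat_lit 163844) (nat_lit 0) .nil))))))))) (.g (nat_lit 1) (.e (nat_lit 92548) (nat_lit 0) .nil) .nil))) 
(.lf (nat_lit 473824) (.g (nat_lit 2488) (.e (nat_lit 1189) (nat_lit 88) (.e (nat_lit 65630) (nat_lit 14) (.e (nat_lit 401437) (nat_lit 9) (.e (nat_lit 426542) (nat_lit 29) (.e (nat_lit 352307) (nat_lit 21) .nil))))) (.g (nat_lit 0) (.e (nat_lit 94783) (nat_lit 0) .nil) .nil)))) (.nd (nat_lit 9) 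
(.lf (nat_lit 473568) (.g (nat_lit 1774) (.e (nat_lit 1097) (nat_lit 81) (.e (nat_lit 1638) (nat_lit 114) (.e (nat_lit 385065) (nat_lit 26) (.e (nat_lit 532558) (nat_lit 14) (.e (nat_lit 376842) (nat_lit 11) .nil))))) (.g (nat_lit 0) (.e (nat_lit 93500) (nat_lit 0) .nil) .nil))) 
(.lf (nat_lit 474080) (.g (nat_lit 2631) (.e (nat_lit 1234) (nat_lit 91) (.e (nat_lit 90172) (nat_lit 14) (.e (nat_lit 180250) (nat_lit 10) (.e (nat_lit 573489) (nat_lit 14) (.e (nat_lit 73755) (nat_lit 8) .nil))))) (.g (nat_lit 0) (.e (nat_lit 95247) (nat_lit 0) .nil) .nil)))))))) (.nd (nat_lit 5) (.nd (nat_lit 6) (.nd (nat_lit 7) (.nd (nat_lit 8) (.nd (nat_lit 9) 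
(.lf (nat_lit 473104) (.g (nat_lit 2707) (.e (nat_lit 3469) (nat_lit 217) (.e (nat_lit 696344) (nat_lit 8) (.e (nat_lit 172115) (nat_lit 10) (.e (nat_lit 434202) (nat_lit 18) (.e (nat_lit 6420) (nat_lit 341) (.e (nat_lit 163920) (nat_lit 14) (.e (nat_lit 442412) (nat_lit 20) .nil))))))) (.g (nat_lit 1) (.e (nat_lit 92236) (nat_lit 0) .nil) .nil))) 
(.lf (nat_lit 473616) (.g (nat_lit 1248) (.e (nat_lit 1140) (nat_lit 84) (.e (nat_lit 32787) (nat_lit 9) (.e (nat_lit 65586) (nat_lit 7) (.e (nat_lit 319500) (nat_lit 10) (.e (nat_lit 7936) (nat_lit 45) (.e (nat_lit 532544) (nat_lit 10) (.e (nat_lit 344081) (nat_lit 13) .nil))))))) (.g (nat_lit 1) (.e (nat_lit 93833) (nat_lit 0) .nil) .nil)))) (.nd (nat_lit 9) 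
(.lf (nat_lit 473360) (.g (nat_lit 4112) (.e (nat_lit 3497) (nat_lit 218) (.e (nat_lit 704738) (nat_lit 11) (.e (nat_lit 16425) (nat_lit 7) (.e (nat_lit 409648) (nat_lit 18) (.e (nat_lit 303137) (nat_lit 10) (.e (nat_lit 434275) (nat_lit 39) (.e (nat_lit 663574) (nat_lit 9) (.e (nat_lit 2418) (nat_lit 157) .nil)))))))) (.g (nat_lit 1) (.e (nat_lit 92634) (nat_lit 0) .nil) .nil))) 
(.lf (nat_lit 473872) (.g (nat_lit 1928) (.e (nat_lit 1201) (nat_lit 88) (.e (nat_lit 65568) (nat_lit 2) (.e (nat_lit 90170) (nat_lit 13) (.e (nat_lit 172113) (nat_lit 10) (.e (nat_lit 434242) (nat_lit 28) .nil))))) (.g (nat_lit 0) (.e (nat_lit 94872) (nat_lit 0) .nil) .nil))))) (.nd (nat_lit 8) (.nd (nat_lit 9) 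
(.lf (nat_lit 473232) (.g (nat_lit 2132) (.e (nat_lit 3471) (nat_lit 217) (.e (nat_lit 696344) (nat_lit 8) (.e (nat_lit 172067) (nat_lit 3) (.e (nat_lit 204868) (nat_lit 29) .nil)))) (.g (nat_lit 0) (.e (nat_lit 92467) (nat_lit 0) .nil) .nil))) 
(.lf (nat_lit 473744) (.g (nat_lit 2606) (.e (nat_lit 1183) (nat_lit 87) (.e (nat_lit 57479) (nat_lit 28) (.e (nat_lit 557105) (nat_lit 14) (.e (nat_lit 180252) (nat_lit 10) (.e (nat_lit 573480) (nat_lit 13) .nil))))) (.g (nat_lit 0) (.e (nat_lit 94540) (nat_lit 0) .nil) .nil)))) (.nd (nat_lit 9) 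
(.lf (nat_lit 473488) (.g (nat_lit 3422) (.e (nat_lit 974) (nat_lit 81) (.e (nat_lit 1256) (nat_lit 92) (.e (nat_lit 98321) (nat_lit 17) (.e (nat_lit 3771) (nat_lit 229) (.e (nat_lit 794669) (nat_lit 22) (.e (nat_lit 196668) (nat_lit 14) (.e (nat_lit 73747) (nat_lit 3) (.e (nat_lit 516115) (nat_lit 1) (.e (nat_lit 164150) (nat_lit 152) .nil))))))))) (.g (nat_lit 1) (.e (nat_lit 92994) (nat_lit 0) .nil) .nil))) 
(.lf (nat_lit 474000) (.g (nat_lit 2565) (.e (nat_lit 1227) (nat_lit 91) (.e (nat_lit 90172) (nat_lit 14) (.e (nat_lit 180250) (nat_lit 10) (.e (nat_lit 573487) (nat_lit 14) (.e (nat_lit 73753) (nat_lit 8) .nil))))) (.g (nat_lit 0) (.e (nat_lit 95154) (nat_lit 0) .nil) .nil)))))) (.nd (nat_lit 7) (.nd (nat_lit 8) (.nd (nat_lit 9) 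
(.lf (nat_lit 473168) (.g (nat_lit 2085) (.e (nat_lit 3471) (nat_lit 217) (.e (nat_lit 696343) (nat_lit 8) (.e (nat_lit 172082) (nat_lit 7) (.e (nat_lit 409646) (nat_lit 18) (.e (nat_lit 303133) (nat_lit 9) (.e (nat_lit 426043) (nat_lit 0) (.e (nat_lit 2429) (nat_lit 157) (.e (nat_lit 5965) (nat_lit 324) (.e (nat_lit 163844) (nat_lit 0) .nil))))))))) (.g (nat_lit 1) (.e (nat_lit 92403) (nat_lit 0) .nil) .nil))) 
(.lf (nat_lit 473680) (.g (nat_lit 1796) (.e (nat_lit 1177) (nat_lit 87) (.e (nat_lit 57479) (nat_lit 28) (.e (nat_lit 557105) (nat_lit 14) (.e (nat_lit 180251) (nat_lit 10) .nil)))) (.g (nat_lit 0) (.e (nat_lit 94187) (nat_lit 0) .nil) .nil)))) (.nd (nat_lit 9) 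
(.lf (nat_lit 473424) (.g (nat_lit 1353) (.e (nat_lit 3548) (nat_lit 219) (.e (nat_lit 712753) (nat_lit 30) (.e (nat_lit 450586) (nat_lit 10) (.e (nat_lit 573473) (nat_lit 12) (.e (nat_lit 57508) (nat_lit 39) (.e (nat_lit 647199) (nat_lit 11) (.e (nat_lit 16386) (nat_lit 0) .nil))))))) (.g (nat_lit 1) (.e (nat_lit 92803) (nat_lit 0) .nil) .nil))) 
(.lf (nat_lit 473936) (.g (nat_lit 2389) (.e (nat_lit 1211) (nat_lit 89) (.e (nat_lit 73781) (nat_lit 32) (.e (nat_lit 3090) (nat_lit 191) (.e (nat_lit 483387) (nat_lit 23) (.e (nat_lit 335997) (nat_lit 1) (.e (nat_lit 57872) (nat_lit 264) .nil)))))) (.g (nat_lit 1) (.e (nat_lit 95058) (nat_lit 0) .nil) .nil))))) (.nd (nat_lit 8) (.nd (nat_lit 9) 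
(.lf (nat_lit 473296) (.g (nat_lit 2875) (.e (nat_lit 3471) (nat_lit 217) (.e (nat_lit 696344) (nat_lit 8) (.e (nat_lit 172082) (nat_lit 7) (.e (nat_lit 409646) (nat_lit 18) (.e (nat_lit 303133) (nat_lit 9) (.e (nat_lit 426042) (nat_lit 0) (.e (nat_lit 2427) (nat_lit 157) (.e (nat_lit 5966) (nat_lit 324) (.e (nat_lit 163844) (nat_lit 0) .nil))))))))) (.g (nat_lit 1) (.e (nat_lit 92532) (nat_lit 0) .nil) .nil))) 
(.lf (nat_lit 473808) (.g (nat_lit 4340) (.e (nat_lit 1183) (nat_lit 87) (.e (nat_lit 57575) (nat_lit 55) (.e (nat_lit 778466) (nat_lit 11) (.e (nat_lit 24617) (nat_lit 7) (.e (nat_lit 319534) (nat_lit 16) (.e (nat_lit 286756) (nat_lit 10) (.e (nat_lit 344090) (nat_lit 18) (.e (nat_lit 5442) (nat_lit 306) .nil)))))))) (.g (nat_lit 1) (.e (nat_lit 94643) (nat_lit 0) .nil) .nil)))) (.nd (nat_lit 9) 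
(.lf (nat_lit 473552) (.g (nat_lit 1774) (.e (nat_lit 1068) (nat_lit 81) (.e (nat_lit 1638) (nat_lit 114) (.e (nat_lit 385065) (nat_lit 26) (.e (nat_lit 532558) (nat_lit 14) (.e (nat_lit 376842) (nat_lit 11) .nil))))) (.g (nat_lit 0) (.e (nat_lit 93420) (nat_lit 0) .nil) .nil))) 
(.lf (nat_lit 474064) (.g (nat_lit 4160) (.e (nat_lit 1234) (nat_lit 91) (.e (nat_lit 90170) (nat_lit 13) (.e (nat_lit 172113) (nat_lit 10) (.e (nat_lit 434245) (nat_lit 28) (.e (nat_lit 573450) (nat_lit 9) (.e (nat_lit 442) (nat_lit 33) (.e (nat_lit 434181) (nat_lit 0) .nil))))))) (.g (nat_lit 1) (.e (nat_lit 95231) (nat_lit 0) .nil) .nil))))))) 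
(.nd (nat_lit 6) (.nd (nat_lit 7) (.nd (nat_lit 8) (.nd (nat_lit 9) 
(.lf (nat_lit 473136) (.g (nat_lit 1907) (.e (nat_lit 3471) (nat_lit 217) (.e (nat_lit 696343) (nat_lit 8) (.e (nat_lit 172079) (nat_lit 7) (.e (nat_lit 409645) (nat_lit 18) (.e (nat_lit 303133) (nat_lit 9) (.e (nat_lit 426042) (nat_lit 0) (.e (nat_lit 2448) (nat_lit 157) (.e (nat_lit 5966) (nat_lit 324) (.e (nat_lit 163844) (nat_lit 0) .nil))))))))) (.g (nat_lit 1) (.e (nat_lit 92371) (nat_lit 0) .nil) .nil))) 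
(.lf (nat_lit 473648) (.g (nat_lit 1497) (.e (nat_lit 1163) (nat_lit 86) (.e (nat_lit 49156) (nat_lit 0) (.e (nat_lit 3026) (nat_lit 187) (.e (nat_lit 450584) (nat_lit 9) (.e (nat_lit 565268) (nat_lit 5) (.e (nat_lit 73791) (nat_lit 45) .nil)))))) (.g (nat_lit 1) (.e (nat_lit 93952) (nat_lit 0) .nil) .nil)))) (.nd (nat_lit 9) 
(.lf (nat_lit 473392) (.g (nat_lit 1854) (.e (nat_lit 7936) (nat_lit 218) (.e (nat_lit 704590) (nat_lit 3) (.e (nat_lit 163962) (nat_lit 25) (.e (nat_lit 532544) (nat_lit 10) (.e (nat_lit 344132) (nat_lit 26) .nil))))) (.g (nat_lit 0) (.e (nat_lit 92760) (nat_lit 0) .nil) .nil))) 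
(.lf (nat_lit 473904) (.g (nat_lit 1806) (.e (nat_lit 1209) (nat_lit 89) (.e (nat_lit 73782) (nat_lit 32) (.e (nat_lit 2682) (nat_lit 168) (.e (nat_lit 204869) (nat_lit 29) (.e (nat_lit 368384) (nat_lit 0) .nil))))) (.g (nat_lit 0) (.e (nat_lit 95020) (nat_lit 0) .nil) .nil))))) (.nd (nat_lit 8) (.nd (nat_lit 9) 
(.lf (nat_lit 473264) (.g (nat_lit 2298) (.e (nat_lit 3471) (nat_lit 217) (.e (nat_lit 696344) (nat_lit 8) (.e (nat_lit 172079) (nat_lit 7) (.e (nat_lit 409645) (nat_lit 18) (.e (nat_lit 303133) (nat_lit 9) (.e (nat_lit 426143) (nat_lit 4) (.e (nat_lit 229710) (nat_lit 258) (.e (nat_lit 163844) (nat_lit 0) .nil)))))))) (.g (nat_lit 1) (.e (nat_lit 92500) (nat_lit 0) .nil) .nil))) 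
(.lf (nat_lit 473776) (.g (nat_lit 2233) (.e (nat_lit 1183) (nat_lit 87) (.e (nat_lit 57480) (nat_lit 28) (.e (nat_lit 557109) (nat_lit 15) (.e (nat_lit 188452) (nat_lit 23) (.e (nat_lit 204855) (nat_lit 26) .nil))))) (.g (nat_lit 0) (.e (nat_lit 94572) (nat_lit 0) .nil) .nil)))) (.nd (nat_lit 9) 
(.lf (nat_lit 473520) (.g (nat_lit 4787) (.e (nat_lit 1019) (nat_lit 81) (.e (nat_lit 1234) (nat_lit 91) (.e (nat_lit 90170) (nat_lit 13) (.e (nat_lit 172106) (nat_lit 10) (.e (nat_lit 434231) (nat_lit 23) (.e (nat_lit 532535) (nat_lit 9) (.e (nat_lit 336295) (nat_lit 15) (.e (nat_lit 2444) (nat_lit 157) (.e (nat_lit 6883) (nat_lit 371) .nil))))))))) (.g (nat_lit 1) (.e (nat_lit 93289) (nat_lit 0) .nil) .nil))) 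
(.lf (nat_lit 474032) (.g (nat_lit 2741) (.e (nat_lit 1232) (nat_lit 91) (.e (nat_lit 90170) (nat_lit 13) (.e (nat_lit 172113) (nat_lit 10) (.e (nat_lit 434248) (nat_lit 28) (.e (nat_lit 573449) (nat_lit 9) (.e (nat_lit 359) (nat_lit 30) (.e (nat_lit 409602) (nat_lit 0) (.e (nat_lit 5293) (nat_lit 298) .nil)))))))) (.g (nat_lit 1) (.e (nat_lit 95193) (nat_lit 0) .nil) .nil)))))) 
(.nd (nat_lit 7) (.nd (nat_lit 8) (.nd (nat_lit 9) 
(.lf (nat_lit 473200) (.g (nat_lit 2811) (.e (nat_lit 3471) (nat_lit 217) (.e (nat_lit 696343) (nat_lit 8) (.e (nat_lit 172082) (nat_lit 7) (.e (nat_lit 409649) (nat_lit 18) (.e (nat_lit 303140) (nat_lit 10) (.e (nat_lit 434275) (nat_lit 39) (.e (nat_lit 663579) (nat_lit 9) (.e (nat_lit 2422) (nat_lit 157) .nil)))))))) (.g (nat_lit 1) (.e (nat_lit 92435) (nat_lit 0) .nil) .nil))) 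
(.lf (nat_lit 473712) (.g (nat_lit 2222) (.e (nat_lit 1181) (nat_lit 87) (.e (nat_lit 57931) (nat_lit 282) (.e (nat_lit 163874) (nat_lit 3) (.e (nat_lit 204864) (nat_lit 27) .nil)))) (.g (nat_lit 0) (.e (nat_lit 94422) (nat_lit 0) .nil) .nil)))) (.nd (nat_lit 9) 
(.lf (nat_lit 473456) (.g (nat_lit 1120) (.e (nat_lit 3578) (nat_lit 223) (.e (nat_lit 745475) (nat_lit 0) (.e (nat_lit 1598) (nat_lit 111) (.e (nat_lit 360477) (nat_lit 11) (.e (nat_lit 589568) (nat_lit 6) .nil))))) (.g (nat_lit 0) (.e (nat_lit 92908) (nat_lit 0) .nil) .nil))) 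
(.lf (nat_lit 473968) (.g (nat_lit 698) (.e (nat_lit 1220) (nat_lit 90) (.e (nat_lit 81959) (nat_lit 24) (.e (nat_lit 123153) (nat_lit 250) .nil))) (.g (nat_lit 0) (.e (nat_lit 95106) (nat_lit 0) .nil) .nil))))) (.nd (nat_lit 8) (.nd (nat_lit 9) 
(.lf (nat_lit 473328) (.g (nat_lit 3625) (.e (nat_lit 3471) (nat_lit 217) (.e (nat_lit 696344) (nat_lit 8) (.e (nat_lit 172082) (nat_lit 7) (.e (nat_lit 409646) (nat_lit 18) (.e (nat_lit 303140) (nat_lit 10) (.e (nat_lit 434200) (nat_lit 18) (.e (nat_lit 5966) (nat_lit 324) (.e (nat_lit 163844) (nat_lit 0) .nil)))))))) (.g (nat_lit 1) (.e (nat_lit 92564) (nat_lit 0) .nil) .nil))) 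
(.lf (nat_lit 473840) (.g (nat_lit 2277) (.e (nat_lit 1193) (nat_lit 88) (.e (nat_lit 65566) (nat_lit 2) (.e (nat_lit 90170) (nat_lit 13) (.e (nat_lit 172113) (nat_lit 10) (.e (nat_lit 434245) (nat_lit 28) .nil))))) (.g (nat_lit 0) (.e (nat_lit 94810) (nat_lit 0) .nil) .nil)))) (.nd (nat_lit 9) 
(.lf (nat_lit 473584) (.g (nat_lit 1805) (.e (nat_lit 1123) (nat_lit 83) (.e (nat_lit 16448) (nat_lit 10) (.e (nat_lit 434268) (nat_lit 36) (.e (nat_lit 639021) (nat_lit 16) .nil)))) (.g (nat_lit 0) (.e (nat_lit 93757) (nat_lit 0) .nil) .nil))) 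
(.lf (nat_lit 474096) (.g (nat_lit 2704) (.e (nat_lit 1235) (nat_lit 91) (.e (nat_lit 90170) (nat_lit 13) (.e (nat_lit 172106) (nat_lit 10) (.e (nat_lit 434231) (nat_lit 23) (.e (nat_lit 532526) (nat_lit 8) .nil))))) (.g (nat_lit 0) (.e (nat_lit 95265) (nat_lit 0) .nil) .nil))))))))) (.nd (nat_lit 4) (.nd (nat_lit 5) (.nd (nat_lit 6) (.nd (nat_lit 7) (.nd (nat_lit 8) (.nd (nat_lit 9) 
(.lf (nat_lit 473096) (.g (nat_lit 2032) (.e (nat_lit 3469) (nat_lit 217) (.e (nat_lit 696344) (nat_lit 8) (.e (nat_lit 172115) (nat_lit 10) (.e (nat_lit 434202) (nat_lit 18) (.e (nat_lit 6252) (nat_lit 337) (.e (nat_lit 7936) (nat_lit 166) (.e (nat_lit 188439) (nat_lit 20) .nil))))))) (.g (nat_lit 1) (.e (nat_lit 92228) (nat_lit 0) .nil) .nil))) 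
(.lf (nat_lit 473608) (.g (nat_lit 1852) (.e (nat_lit 1129) (nat_lit 83) (.e (nat_lit 16448) (nat_lit 10) (.e (nat_lit 434268) (nat_lit 36) (.e (nat_lit 639020) (nat_lit 16) (.e (nat_lit 65610) (nat_lit 10) .nil))))) (.g (nat_lit 0) (.e (nat_lit 93792) (nat_lit 0) .nil) .nil)))) (.nd (nat_lit 9) 
(.lf (nat_lit 473352) (.g (nat_lit 2057) (.e (nat_lit 3471) (nat_lit 217) (.e (nat_lit 696344) (nat_lit 8) (.e (nat_lit 172123) (nat_lit 13) (.e (nat_lit 483410) (nat_lit 27) (.e (nat_lit 401440) (nat_lit 9) (.e (nat_lit 426017) (nat_lit 0) .nil)))))) (.g (nat_lit 1) (.e (nat_lit 92588) (nat_lit 0) .nil) .nil))) 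
(.lf (nat_lit 473864) (.g (nat_lit 2691) (.e (nat_lit 1200) (nat_lit 88) (.e (nat_lit 65628) (nat_lit 14) (.e (nat_lit 401437) (nat_lit 9) (.e (nat_lit 426555) (nat_lit 32) (.e (nat_lit 376856) (nat_lit 21) .nil))))) (.g (nat_lit 0) (.e (nat_lit 94864) (nat_lit 0) .nil) .nil))))) (.nd (nat_lit 8) (.nd (nat_lit 9) 
(.lf (nat_lit 473224) (.g (nat_lit 2312) (.e (nat_lit 3471) (nat_lit 217) (.e (nat_lit 696343) (nat_lit 8) (.e (nat_lit 172123) (nat_lit 13) (.e (nat_lit 483413) (nat_lit 27) (.e (nat_lit 401440) (nat_lit 9) .nil))))) (.g (nat_lit 0) (.e (nat_lit 92459) (nat_lit 0) .nil) .nil))) 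
(.lf (nat_lit 473736) (.g (nat_lit 1088) (.e (nat_lit 1183) (nat_lit 87) (.e (nat_lit 57479) (nat_lit 28) (.e (nat_lit 557095) (nat_lit 13) (.e (nat_lit 172115) (nat_lit 10) .nil)))) (.g (nat_lit 0) (.e (nat_lit 94532) (nat_lit 0) .nil) .nil)))) (.nd (nat_lit 9) 
(.lf (nat_lit 473480) (.g (nat_lit 3924) (.e (nat_lit 3579) (nat_lit 223) (.e (nat_lit 745509) (nat_lit 11) (.e (nat_lit 24630) (nat_lit 9) (.e (nat_lit 336369) (nat_lit 27) (.e (nat_lit 426173) (nat_lit 7) (.e (nat_lit 409648) (nat_lit 18) (.e (nat_lit 303108) (nat_lit 0) .nil))))))) (.g (nat_lit 1) (.e (nat_lit 92942) (nat_lit 0) .nil) .nil))) 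
(.lf (nat_lit 473992) (.g (nat_lit 1677) (.e (nat_lit 1225) (nat_lit 91) (.e (nat_lit 90176) (nat_lit 15) (.e (nat_lit 188450) (nat_lit 23) (.e (nat_lit 204821) (nat_lit 17) (.e (nat_lit 6223) (nat_lit 334) .nil))))) (.g (nat_lit 0) (.e (nat_lit 95145) (nat_lit 0) .nil) .nil)))))) (.nd (nat_lit 7) (.nd (nat_lit 8) (.nd (nat_lit 9) 
(.lf (nat_lit 473160) (.g (nat_lit 3010) (.e (nat_lit 3471) (nat_lit 217) (.e (nat_lit 696343) (nat_lit 8) (.e (nat_lit 172082) (nat_lit 7) (.e (nat_lit 409646) (nat_lit 18) (.e (nat_lit 303133) (nat_lit 9) (.e (nat_lit 426042) (nat_lit 0) (.e (nat_lit 2447) (nat_lit 157) (.e (nat_lit 5966) (nat_lit 324) (.e (nat_lit 163844) (nat_lit 0) .nil))))))))) (.g (nat_lit 1) (.e (nat_lit 92395) (nat_lit 0) .nil) .nil))) 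
(.lf (nat_lit 473672) (.g (nat_lit 1836) (.e (nat_lit 1175) (nat_lit 87) (.e (nat_lit 57478) (nat_lit 28) (.e (nat_lit 557098) (nat_lit 13) (.e (nat_lit 172097) (nat_lit 9) (.e (nat_lit 426125) (nat_lit 2) .nil))))) (.g (nat_lit 0) (.e (nat_lit 94147) (nat_lit 0) .nil) .nil)))) (.nd (nat_lit 9) 
(.lf (nat_lit 473416) (.g (nat_lit 2277) (.e (nat_lit 3544) (nat_lit 219) (.e (nat_lit 712754) (nat_lit 30) (.e (nat_lit 450588) (nat_lit 10) (.e (nat_lit 573473) (nat_lit 12) (.e (nat_lit 57508) (nat_lit 39) (.e (nat_lit 647195) (nat_lit 9) (.e (nat_lit 426) (nat_lit 32) (.e (nat_lit 426010) (nat_lit 0) .nil)))))))) (.g (nat_lit 1) (.e (nat_lit 92792) (nat_lit 0) .nil) .nil))) 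
(.lf (nat_lit 473928) (.g (nat_lit 862) (.e (nat_lit 1210) (nat_lit 89) (.e (nat_lit 73782) (nat_lit 32) (.e (nat_lit 3087) (nat_lit 191) (.e (nat_lit 483390) (nat_lit 23) .nil)))) (.g (nat_lit 0) (.e (nat_lit 95045) (nat_lit 0) .nil) .nil))))) (.nd (nat_lit 8) (.nd (nat_lit 9) 
(.lf (nat_lit 473288) (.g (nat_lit 2012) (.e (nat_lit 3471) (nat_lit 217) (.e (nat_lit 696344) (nat_lit 8) (.e (nat_lit 172079) (nat_lit 7) (.e (nat_lit 409645) (nat_lit 18) (.e (nat_lit 303140) (nat_lit 10) (.e (nat_lit 434275) (nat_lit 39) (.e (nat_lit 663579) (nat_lit 9) (.e (nat_lit 2429) (nat_lit 157) .nil)))))))) (.g (nat_lit 1) (.e (nat_lit 92524) (nat_lit 0) .nil) .nil))) 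
(.lf (nat_lit 473800) (.g (nat_lit 3234) (.e (nat_lit 1183) (nat_lit 87) (.e (nat_lit 57575) (nat_lit 55) (.e (nat_lit 778466) (nat_lit 11) (.e (nat_lit 24617) (nat_lit 7) (.e (nat_lit 319534) (nat_lit 16) (.e (nat_lit 286756) (nat_lit 10) (.e (nat_lit 344088) (nat_lit 18) (.e (nat_lit 5429) (nat_lit 306) .nil)))))))) (.g (nat_lit 1) (.e (nat_lit 94635) (nat_lit 0) .nil) .nil)))) (.nd (nat_lit 9) 
(.lf (nat_lit 473544) (.g (nat_lit 3891) (.e (nat_lit 1041) (nat_lit 81) (.e (nat_lit 1234) (nat_lit 91) (.e (nat_lit 90170) (nat_lit 13) (.e (nat_lit 172106) (nat_lit 10) (.e (nat_lit 434231) (nat_lit 23) (.e (nat_lit 532535) (nat_lit 9) (.e (nat_lit 336295) (nat_lit 15) (.e (nat_lit 2444) (nat_lit 157) (.e (nat_lit 6881) (nat_lit 371) .nil))))))))) (.g (nat_lit 1) (.e (nat_lit 93393) (nat_lit 0) .nil) .nil))) 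
(.lf (nat_lit 474056) (.g (nat_lit 968) (.e (nat_lit 1234) (nat_lit 91) (.e (nat_lit 90170) (nat_lit 13) (.e (nat_lit 172113) (nat_lit 10) (.e (nat_lit 434231) (nat_lit 23) .nil)))) (.g (nat_lit 0) (.e (nat_lit 95223) (nat_lit 0) .nil) .nil))))))) (.nd (nat_lit 6) (.nd (nat_lit 7) (.nd (nat_lit 8) (.nd (nat_lit 9) 
(.lf (nat_lit 473128) (.g (nat_lit 4469) (.e (nat_lit 3469) (nat_lit 217) (.e (nat_lit 696344) (nat_lit 8) (.e (nat_lit 172125) (nat_lit 14) (.e (nat_lit 491566) (nat_lit 12) (.e (nat_lit 385109) (nat_lit 51) (.e (nat_lit 794684) (nat_lit 25) (.e (nat_lit 221195) (nat_lit 20) .nil))))))) (.g (nat_lit 1) (.e (nat_lit 92261) (nat_lit 0) .nil) .nil))) 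
(.lf (nat_lit 473640) (.g (nat_lit 1188) (.e (nat_lit 1162) (nat_lit 86) (.e (nat_lit 49157) (nat_lit 0) (.e (nat_lit 3012) (nat_lit 187) (.e (nat_lit 450584) (nat_lit 9) (.e (nat_lit 565268) (nat_lit 5) (.e (nat_lit 73789) (nat_lit 45) .nil)))))) (.g (nat_lit 1) (.e (nat_lit 93933) (nat_lit 0) .nil) .nil)))) (.nd (nat_lit 9) 
(.lf (nat_lit 473384) (.g (nat_lit 2425) (.e (nat_lit 3537) (nat_lit 218) (.e (nat_lit 704725) (nat_lit 10) (.e (nat_lit 8228) (nat_lit 15) (.e (nat_lit 532513) (nat_lit 3) (.e (nat_lit 114714) (nat_lit 22) (.e (nat_lit 90172) (nat_lit 14) (.e (nat_lit 188160) (nat_lit 3) (.e (nat_lit 516106) (nat_lit 0) .nil)))))))) (.g (nat_lit 1) (.e (nat_lit 92700) (nat_lit 0) .nil) .nil))) 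
(.lf (nat_lit 473896) (.g (nat_lit 2495) (.e (nat_lit 1209) (nat_lit 89) (.e (nat_lit 73781) (nat_lit 32) (.e (nat_lit 3090) (nat_lit 191) (.e (nat_lit 483380) (nat_lit 23) (.e (nat_lit 336000) (nat_lit 1) .nil))))) (.g (nat_lit 0) (.e (nat_lit 95012) (nat_lit 0) .nil) .nil))))) (.nd (nat_lit 8) (.nd (nat_lit 9) 
(.lf (nat_lit 473256) (.g (nat_lit 2918) (.e (nat_lit 3471) (nat_lit 217) (.e (nat_lit 696344) (nat_lit 8) (.e (nat_lit 172079) (nat_lit 7) (.e (nat_lit 409645) (nat_lit 18) (.e (nat_lit 303133) (nat_lit 9) (.e (nat_lit 426042) (nat_lit 0) (.e (nat_lit 2448) (nat_lit 157) (.e (nat_lit 5965) (nat_lit 324) (.e (nat_lit 163844) (nat_lit 0) .nil))))))))) (.g (nat_lit 1) (.e (nat_lit 92492) (nat_lit 0) .nil) .nil))) 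
(.lf (nat_lit 473768) (.g (nat_lit 5149) (.e (nat_lit 1183) (nat_lit 87) (.e (nat_lit 57480) (nat_lit 28) (.e (nat_lit 557108) (nat_lit 15) (.e (nat_lit 188452) (nat_lit 23) (.e (nat_lit 204858) (nat_lit 26) .nil))))) (.g (nat_lit 0) (.e (nat_lit 94564) (nat_lit 0) .nil) .nil)))) (.nd (nat_lit 9) 
(.lf (nat_lit 473512) (.g (nat_lit 3774) (.e (nat_lit 1003) (nat_lit 81) (.e (nat_lit 2342) (nat_lit 151) (.e (nat_lit 778466) (nat_lit 11) (.e (nat_lit 24617) (nat_lit 7) (.e (nat_lit 319534) (nat_lit 16) (.e (nat_lit 286756) (nat_lit 10) (.e (nat_lit 344160) (nat_lit 37) (.e (nat_lit 647196) (nat_lit 9) .nil)))))))) (.g (nat_lit 1) (.e (nat_lit 93206) (nat_lit 0) .nil) .nil))) 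
(.lf (nat_lit 474024) (.g (nat_lit 1174) (.e (nat_lit 1232) (nat_lit 91) (.e (nat_lit 90170) (nat_lit 13) (.e (nat_lit 172106) (nat_lit 10) (.e (nat_lit 434231) (nat_lit 23) (.e (nat_lit 532543) (nat_lit 10) .nil))))) (.g (nat_lit 0) (.e (nat_lit 95185) (nat_lit 0) .nil) .nil)))))) (.nd (nat_lit 7) (.nd (nat_lit 8) (.nd (nat_lit 9) 
(.lf (nat_lit 473192) (.g (nat_lit 3078) (.e (nat_lit 3471) (nat_lit 217) (.e (nat_lit 696343) (nat_lit 8) (.e (nat_lit 172082) (nat_lit 7) (.e (nat_lit 409649) (nat_lit 18) (.e (nat_lit 303135) (nat_lit 10) (.e (nat_lit 434203) (nat_lit 18) (.e (nat_lit 5964) (nat_lit 324) (.e (nat_lit 163844) (nat_lit 0) .nil)))))))) (.g (nat_lit 1) (.e (nat_lit 92427) (nat_lit 0) .nil) .nil))) 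
(.lf (nat_lit 473704) (.g (nat_lit 2905) (.e (nat_lit 1181) (nat_lit 87) (.e (nat_lit 57480) (nat_lit 28) (.e (nat_lit 557108) (nat_lit 15) (.e (nat_lit 188452) (nat_lit 23) (.e (nat_lit 204874) (nat_lit 30) .nil))))) (.g (nat_lit 0) (.e (nat_lit 94300) (nat_lit 0) .nil) .nil)))) (.nd (nat_lit 9) 
(.lf (nat_lit 473448) (.g (nat_lit 635) (.e (nat_lit 3572) (nat_lit 222) (.e (nat_lit 737281) (nat_lit 0) (.e (nat_lit 5412) (nat_lit 303) (.e (nat_lit 73750) (nat_lit 6) (.e (nat_lit 540724) (nat_lit 28) (.e (nat_lit 442395) (nat_lit 20) .nil)))))) (.g (nat_lit 1) (.e (nat_lit 92875) (nat_lit 0) .nil) .nil))) 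
(.lf (nat_lit 473960) (.g (nat_lit 3693) (.e (nat_lit 1212) (nat_lit 89) (.e (nat_lit 73782) (nat_lit 32) (.e (nat_lit 2856) (nat_lit 184) (.e (nat_lit 426542) (nat_lit 29) (.e (nat_lit 352318) (nat_lit 24) (.e (nat_lit 123184) (nat_lit 264) .nil)))))) (.g (nat_lit 1) (.e (nat_lit 95084) (nat_lit 0) .nil) .nil))))) (.nd (nat_lit 8) (.nd (nat_lit 9) 
(.lf (nat_lit 473320) (.g (nat_lit 2402) (.e (nat_lit 3471) (nat_lit 217) (.e (nat_lit 696344) (nat_lit 8) (.e (nat_lit 172082) (nat_lit 7) (.e (nat_lit 409646) (nat_lit 18) (.e (nat_lit 303135) (nat_lit 10) (.e (nat_lit 434207) (nat_lit 18) (.e (nat_lit 5966) (nat_lit 324) (.e (nat_lit 163844) (nat_lit 0) .nil)))))))) (.g (nat_lit 1) (.e (nat_lit 92556) (nat_lit 0) .nil) .nil))) 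
(.lf (nat_lit 473832) (.g (nat_lit 2689) (.e (nat_lit 1191) (nat_lit 88) (.e (nat_lit 65568) (nat_lit 2) (.e (nat_lit 90170) (nat_lit 13) (.e (nat_lit 172113) (nat_lit 10) (.e (nat_lit 434245) (nat_lit 28) .nil))))) (.g (nat_lit 0) (.e (nat_lit 94802) (nat_lit 0) .nil) .nil)))) (.nd (nat_lit 9) 
(.lf (nat_lit 473576) (.g (nat_lit 2164) (.e (nat_lit 1122) (nat_lit 83) (.e (nat_lit 16466) (nat_lit 13) (.e (nat_lit 483413) (nat_lit 27) (.e (nat_lit 401446) (nat_lit 10) .nil)))) (.g (nat_lit 0) (.e (nat_lit 93741) (nat_lit 0) .nil) .nil))) 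
(.lf (nat_lit 474088) (.g (nat_lit 3338) (.e (nat_lit 1235) (nat_lit 91) (.e (nat_lit 90170) (nat_lit 13) (.e (nat_lit 172106) (nat_lit 10) (.e (nat_lit 434231) (nat_lit 23) (.e (nat_lit 532483) (nat_lit 0) .nil))))) (.g (nat_lit 0) (.e (nat_lit 95257) (nat_lit 0) .nil) .nil)))))))) (.nd (nat_lit 5) (.nd (nat_lit 6) (.nd (nat_lit 7) (.nd (nat_lit 8) (.nd (nat_lit 9) 
(.lf (nat_lit 473112) (.g (nat_lit 3305) (.e (nat_lit 3469) (nat_lit 217) (.e (nat_lit 696344) (nat_lit 8) (.e (nat_lit 172115) (nat_lit 10) (.e (nat_lit 434209) (nat_lit 18) (.e (nat_lit 6428) (nat_lit 342) (.e (nat_lit 229412) (nat_lit 14) (.e (nat_lit 442411) (nat_lit 20) .nil))))))) (.g (nat_lit 1) (.e (nat_lit 92244) (nat_lit 0) .nil) .nil))) 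
(.lf (nat_lit 473624) (.g (nat_lit 1188) (.e (nat_lit 1159) (nat_lit 86) (.e (nat_lit 49187) (nat_lit 11) (.e (nat_lit 16436) (nat_lit 9) (.e (nat_lit 426550) (nat_lit 31) (.e (nat_lit 368656) (nat_lit 14) (.e (nat_lit 57794) (nat_lit 245) .nil)))))) (.g (nat_lit 1) (.e (nat_lit 93874) (nat_lit 0) .nil) .nil)))) (.nd (nat_lit 9) 
(.lf (nat_lit 473368) (.g (nat_lit 2795) (.e (nat_lit 3501) (nat_lit 218) (.e (nat_lit 704738) (nat_lit 11) (.e (nat_lit 16425) (nat_lit 7) (.e (nat_lit 409649) (nat_lit 18) (.e (nat_lit 303140) (nat_lit 10) .nil))))) (.g (nat_lit 0) (.e (nat_lit 92642) (nat_lit 0) .nil) .nil))) 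
(.lf (nat_lit 473880) (.g (nat_lit 4140) (.e (nat_lit 1206) (nat_lit 89) (.e (nat_lit 73748) (nat_lit 3) (.e (nat_lit 516166) (nat_lit 12) (.e (nat_lit 450587) (nat_lit 10) (.e (nat_lit 573478) (nat_lit 12) .nil))))) (.g (nat_lit 0) (.e (nat_lit 94977) (nat_lit 0) .nil) .nil))))) (.nd (nat_lit 8) (.nd (nat_lit 9) 
(.lf (nat_lit 473240) (.g (nat_lit 2402) (.e (nat_lit 3471) (nat_lit 217) (.e (nat_lit 696344) (nat_lit 8) (.e (nat_lit 172079) (nat_lit 7) (.e (nat_lit 409645) (nat_lit 18) (.e (nat_lit 303133) (nat_lit 9) (.e (nat_lit 426032) (nat_lit 0) (.e (nat_lit 2450) (nat_lit 157) (.e (nat_lit 5965) (nat_lit 324) (.e (nat_lit 163844) (nat_lit 0) .nil))))))))) (.g (nat_lit 1) (.e (nat_lit 92476) (nat_lit 0) .nil) .nil))) 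
(.lf (nat_lit 473752) (.g (nat_lit 2529) (.e (nat_lit 1183) (nat_lit 87) (.e (nat_lit 57480) (nat_lit 28) (.e (nat_lit 557103) (nat_lit 14) (.e (nat_lit 180252) (nat_lit 10) (.e (nat_lit 573482) (nat_lit 13) .nil))))) (.g (nat_lit 0) (.e (nat_lit 94548) (nat_lit 0) .nil) .nil)))) (.nd (nat_lit 9) 
(.lf (nat_lit 473496) (.g (nat_lit 3984) (.e (nat_lit 977) (nat_lit 81) (.e (nat_lit 5664) (nat_lit 312) (.e (nat_lit 2679) (nat_lit 168) (.e (nat_lit 204846) (nat_lit 24) (.e (nat_lit 319530) (nat_lit 16) (.e (nat_lit 286735) (nat_lit 3) (.e (nat_lit 98323) (nat_lit 17) (.e (nat_lit 6989) (nat_lit 377) .nil)))))))) (.g (nat_lit 1) (.e (nat_lit 93082) (nat_lit 0) .nil) .nil))) 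
(.lf (nat_lit 474008) (.g (nat_lit 1027) (.e (nat_lit 1230) (nat_lit 91) (.e (nat_lit 90170) (nat_lit 13) (.e (nat_lit 172106) (nat_lit 10) .nil))) (.g (nat_lit 0) (.e (nat_lit 95164) (nat_lit 0) .nil) .nil)))))) (.nd (nat_lit 7) (.nd (nat_lit 8) (.nd (nat_lit 9) 
(.lf (nat_lit 473176) (.g (nat_lit 2863) (.e (nat_lit 3471) (nat_lit 217) (.e (nat_lit 696343) (nat_lit 8) (.e (nat_lit 172082) (nat_lit 7) (.e (nat_lit 409646) (nat_lit 18) (.e (nat_lit 303135) (nat_lit 10) (.e (nat_lit 434203) (nat_lit 18) (.e (nat_lit 5968) (nat_lit 324) (.e (nat_lit 163844) (nat_lit 0) .nil)))))))) (.g (nat_lit 1) (.e (nat_lit 92411) (nat_lit 0) .nil) .nil))) 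
(.lf (nat_lit 473688) (.g (nat_lit 2164) (.e (nat_lit 1177) (nat_lit 87) (.e (nat_lit 57480) (nat_lit 28) (.e (nat_lit 557105) (nat_lit 14) (.e (nat_lit 180252) (nat_lit 10) (.e (nat_lit 573488) (nat_lit 14) .nil))))) (.g (nat_lit 0) (.e (nat_lit 94195) (nat_lit 0) .nil) .nil)))) (.nd (nat_lit 9) 
(.lf (nat_lit 473432) (.g (nat_lit 1385) (.e (nat_lit 7936) (nat_lit 219) (.e (nat_lit 712753) (nat_lit 30) (.e (nat_lit 450579) (nat_lit 5) (.e (nat_lit 532501) (nat_lit 1) (.e (nat_lit 57670) (nat_lit 152) .nil))))) (.g (nat_lit 0) (.e (nat_lit 92812) (nat_lit 0) .nil) .nil))) 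
(.lf (nat_lit 473944) (.g (nat_lit 1554) (.e (nat_lit 1211) (nat_lit 89) (.e (nat_lit 73782) (nat_lit 32) (.e (nat_lit 2856) (nat_lit 184) (.e (nat_lit 426544) (nat_lit 30) (.e (nat_lit 368384) (nat_lit 0) .nil))))) (.g (nat_lit 0) (.e (nat_lit 95066) (nat_lit 0) .nil) .nil))))) (.nd (nat_lit 8) (.nd (nat_lit 9) 
(.lf (nat_lit 473304) (.g (nat_lit 2863) (.e (nat_lit 3471) (nat_lit 217) (.e (nat_lit 696344) (nat_lit 8) (.e (nat_lit 172082) (nat_lit 7) (.e (nat_lit 409646) (nat_lit 18) (.e (nat_lit 303133) (nat_lit 9) (.e (nat_lit 426042) (nat_lit 0) (.e (nat_lit 2448) (nat_lit 157) (.e (nat_lit 5965) (nat_lit 324) (.e (nat_lit 163844) (nat_lit 0) .nil))))))))) (.g (nat_lit 1) (.e (nat_lit 92540) (nat_lit 0) .nil) .nil))) 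
(.lf (nat_lit 473816) (.g (nat_lit 1578) (.e (nat_lit 1188) (nat_lit 88) (.e (nat_lit 65630) (nat_lit 14) (.e (nat_lit 401425) (nat_lit 2) (.e (nat_lit 196666) (nat_lit 13) (.e (nat_lit 65617) (nat_lit 10) .nil))))) (.g (nat_lit 0) (.e (nat_lit 94773) (nat_lit 0) .nil) .nil)))) (.nd (nat_lit 9) 
(.lf (nat_lit 473560) (.g (nat_lit 4033) (.e (nat_lit 1076) (nat_lit 81) (.e (nat_lit 5664) (nat_lit 312) (.e (nat_lit 2679) (nat_lit 168) (.e (nat_lit 204846) (nat_lit 24) (.e (nat_lit 319534) (nat_lit 16) (.e (nat_lit 286735) (nat_lit 3) (.e (nat_lit 98325) (nat_lit 17) (.e (nat_lit 6986) (nat_lit 377) .nil)))))))) (.g (nat_lit 1) (.e (nat_lit 93451) (nat_lit 0) .nil) .nil))) 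
(.lf (nat_lit 474072) (.g (nat_lit 2574) (.e (nat_lit 1234) (nat_lit 91) (.e (nat_lit 90170) (nat_lit 13) (.e (nat_lit 172113) (nat_lit 10) (.e (nat_lit 434247) (nat_lit 28) (.e (nat_lit 573457) (nat_lit 9) (.e (nat_lit 430) (nat_lit 32) (.e (nat_lit 426012) (nat_lit 0) (.e (nat_lit 7545) (nat_lit 402) .nil)))))))) (.g (nat_lit 1) (.e (nat_lit 95239) (nat_lit 0) .nil) .nil))))))) 
(.nd (nat_lit 6) (.nd (nat_lit 7) (.nd (nat_lit 8) (.nd (nat_lit 9) 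
(.lf (nat_lit 473144) (.g (nat_lit 2542) (.e (nat_lit 3471) (nat_lit 217) (.e (nat_lit 696343) (nat_lit 8) (.e (nat_lit 172079) (nat_lit 7) (.e (nat_lit 409645) (nat_lit 18) (.e (nat_lit 303135) (nat_lit 10) (.e (nat_lit 434208) (nat_lit 18) (.e (nat_lit 5964) (nat_lit 324) (.e (nat_lit 163844) (nat_lit 0) .nil)))))))) (.g (nat_lit 1) (.e (nat_lit 92379) (nat_lit 0) .nil) .nil))) 
(.lf (nat_lit 473656) (.g (nat_lit 1817) (.e (nat_lit 1163) (nat_lit 86) (.e (nat_lit 49157) (nat_lit 0) (.e (nat_lit 3026) (nat_lit 187) (.e (nat_lit 450584) (nat_lit 9) (.e (nat_lit 565268) (nat_lit 5) (.e (nat_lit 73788) (nat_lit 45) .nil)))))) (.g (nat_lit 1) (.e (nat_lit 93976) (nat_lit 0) .nil) .nil)))) (.nd (nat_lit 9) 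
(.lf (nat_lit 473400) (.g (nat_lit 3894) (.e (nat_lit 3543) (nat_lit 219) (.e (nat_lit 712755) (nat_lit 30) (.e (nat_lit 450588) (nat_lit 10) (.e (nat_lit 573475) (nat_lit 12) (.e (nat_lit 57503) (nat_lit 38) (.e (nat_lit 638998) (nat_lit 8) (.e (nat_lit 172035) (nat_lit 0) .nil))))))) (.g (nat_lit 1) (.e (nat_lit 92776) (nat_lit 0) .nil) .nil))) 
(.lf (nat_lit 473912) (.g (nat_lit 2961) (.e (nat_lit 1209) (nat_lit 89) (.e (nat_lit 73782) (nat_lit 32) (.e (nat_lit 2856) (nat_lit 184) (.e (nat_lit 426555) (nat_lit 32) (.e (nat_lit 376859) (nat_lit 21) (.e (nat_lit 57871) (nat_lit 264) .nil)))))) (.g (nat_lit 1) (.e (nat_lit 95028) (nat_lit 0) .nil) .nil))))) (.nd (nat_lit 8) (.nd (nat_lit 9) 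
(.lf (nat_lit 473272) (.g (nat_lit 2305) (.e (nat_lit 3471) (nat_lit 217) (.e (nat_lit 696344) (nat_lit 8) (.e (nat_lit 172079) (nat_lit 7) (.e (nat_lit 409645) (nat_lit 18) (.e (nat_lit 303135) (nat_lit 10) (.e (nat_lit 434207) (nat_lit 18) (.e (nat_lit 5966) (nat_lit 324) (.e (nat_lit 163844) (nat_lit 0) .nil)))))))) (.g (nat_lit 1) (.e (nat_lit 92508) (nat_lit 0) .nil) .nil))) 
(.lf (nat_lit 473784) (.g (nat_lit 3140) (.e (nat_lit 1183) (nat_lit 87) (.e (nat_lit 57575) (nat_lit 55) (.e (nat_lit 778466) (nat_lit 11) (.e (nat_lit 24617) (nat_lit 7) (.e (nat_lit 319533) (nat_lit 16) (.e (nat_lit 286753) (nat_lit 10) (.e (nat_lit 344088) (nat_lit 18) (.e (nat_lit 5429) (nat_lit 306) .nil)))))))) (.g (nat_lit 1) (.e (nat_lit 94618) (nat_lit 0) .nil) .nil)))) (.nd (nat_lit 9) 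
(.lf (nat_lit 473528) (.g (nat_lit 2173) (.e (nat_lit 1032) (nat_lit 81) (.e (nat_lit 1425) (nat_lit 108) (.e (nat_lit 336454) (nat_lit 34) (.e (nat_lit 483383) (nat_lit 23) (.e (nat_lit 336019) (nat_lit 3) .nil))))) (.g (nat_lit 0) (.e (nat_lit 93319) (nat_lit 0) .nil) .nil))) 
(.lf (nat_lit 474040) (.g (nat_lit 2727) (.e (nat_lit 1233) (nat_lit 91) (.e (nat_lit 90174) (nat_lit 14) (.e (nat_lit 180252) (nat_lit 10) (.e (nat_lit 573489) (nat_lit 14) (.e (nat_lit 73755) (nat_lit 8) .nil))))) (.g (nat_lit 0) (.e (nat_lit 95201) (nat_lit 0) .nil) .nil)))))) (.nd (nat_lit 7) (.nd (nat_lit 8) (.nd (nat_lit 9) 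
(.lf (nat_lit 473208) (.g (nat_lit 2094) (.e (nat_lit 3471) (nat_lit 217) (.e (nat_lit 696343) (nat_lit 8) (.e (nat_lit 172106) (nat_lit 10) (.e (nat_lit 434209) (nat_lit 18) (.e (nat_lit 6427) (nat_lit 342) (.e (nat_lit 229412) (nat_lit 14) (.e (nat_lit 442392) (nat_lit 20) .nil))))))) (.g (nat_lit 1) (.e (nat_lit 92443) (nat_lit 0) .nil) .nil))) 
(.lf (nat_lit 473720) (.g (nat_lit 3692) (.e (nat_lit 1183) (nat_lit 87) (.e (nat_lit 57478) (nat_lit 28) (.e (nat_lit 557108) (nat_lit 15) (.e (nat_lit 188452) (nat_lit 23) (.e (nat_lit 204856) (nat_lit 26) .nil))))) (.g (nat_lit 0) (.e (nat_lit 94516) (nat_lit 0) .nil) .nil)))) (.nd (nat_lit 9) 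
(.lf (nat_lit 473464) (.g (nat_lit 1539) (.e (nat_lit 3578) (nat_lit 223) (.e (nat_lit 745491) (nat_lit 4) (.e (nat_lit 65616) (nat_lit 10) (.e (nat_lit 344138) (nat_lit 29) (.e (nat_lit 581653) (nat_lit 6) (.e (nat_lit 188441) (nat_lit 20) .nil)))))) (.g (nat_lit 1) (.e (nat_lit 92916) (nat_lit 0) .nil) .nil))) 
(.lf (nat_lit 473976) (.g (nat_lit 1645) (.e (nat_lit 1224) (nat_lit 90) (.e (nat_lit 81946) (nat_lit 20) (.e (nat_lit 2281) (nat_lit 150) (.e (nat_lit 770072) (nat_lit 8) (.e (nat_lit 65617) (nat_lit 10) .nil))))) (.g (nat_lit 0) (.e (nat_lit 95128) (nat_lit 0) .nil) .nil))))) (.nd (nat_lit 8) (.nd (nat_lit 9) 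
(.lf (nat_lit 473336) (.g (nat_lit 2908) (.e (nat_lit 3471) (nat_lit 217) (.e (nat_lit 696344) (nat_lit 8) (.e (nat_lit 172082) (nat_lit 7) (.e (nat_lit 409649) (nat_lit 18) (.e (nat_lit 303135) (nat_lit 10) (.e (nat_lit 434203) (nat_lit 18) (.e (nat_lit 5964) (nat_lit 324) (.e (nat_lit 163844) (nat_lit 0) .nil)))))))) (.g (nat_lit 1) (.e (nat_lit 92572) (nat_lit 0) .nil) .nil))) 
(.lf (nat_lit 473848) (.g (nat_lit 2378) (.e (nat_lit 1199) (nat_lit 88) (.e (nat_lit 65566) (nat_lit 2) (.e (nat_lit 90170) (nat_lit 13) (.e (nat_lit 172113) (nat_lit 10) (.e (nat_lit 434247) (nat_lit 28) .nil))))) (.g (nat_lit 0) (.e (nat_lit 94827) (nat_lit 0) .nil) .nil)))) (.nd (nat_lit 9) 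
(.lf (nat_lit 473592) (.g (nat_lit 3030) (.e (nat_lit 1125) (nat_lit 83) (.e (nat_lit 16470) (nat_lit 14) (.e (nat_lit 491571) (nat_lit 13) (.e (nat_lit 393281) (nat_lit 23) .nil)))) (.g (nat_lit 0) (.e (nat_lit 93767) (nat_lit 0) .nil) .nil))) 
(.lf (nat_lit 474104) (.g (nat_lit 2018) (.e (nat_lit 1235) (nat_lit 91) (.e (nat_lit 90170) (nat_lit 13) (.e (nat_lit 172106) (nat_lit 10) (.e (nat_lit 434244) (nat_lit 28) (.e (nat_lit 573471) (nat_lit 11) .nil))))) (.g (nat_lit 0) (.e (nat_lit 95273) (nat_lit 0) .nil) .nil)))))))))) 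
(.nd (nat_lit 3) (.nd (nat_lit 4) (.nd (nat_lit 5) (.nd (nat_lit 6) (.nd (nat_lit 7) 
(.nd (nat_lit 8) (.nd (nat_lit 9) 
(.lf (nat_lit 473092) (.g (nat_lit 2267) (.e (nat_lit 3469) (nat_lit 217) (.e (nat_lit 696344) (nat_lit 8) (.e (nat_lit 172115) (nat_lit 10) (.e (nat_lit 434202) (nat_lit 18) (.e (nat_lit 6250) (nat_lit 337) (.e (nat_lit 7936) (nat_lit 166) (.e (nat_lit 188435) (nat_lit 20) .nil))))))) (.g (nat_lit 1) (.e (nat_lit 92224) (nat_lit 0) .nil) .nil))) 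
(.lf (nat_lit 473604) (.g (nat_lit 3695) (.e (nat_lit 1128) (nat_lit 83) (.e (nat_lit 16425) (nat_lit 7) (.e (nat_lit 409616) (nat_lit 10) (.e (nat_lit 632) (nat_lit 50) (.e (nat_lit 573493) (nat_lit 15) (.e (nat_lit 81959) (nat_lit 24) (.e (nat_lit 130816) (nat_lit 146) .nil))))))) (.g (nat_lit 1) (.e (nat_lit 93788) (nat_lit 0) .nil) .nil)))) (.nd (nat_lit 9) 
(.lf (nat_lit 473348) (.g (nat_lit 1176) (.e (nat_lit 3471) (nat_lit 217) (.e (nat_lit 696344) (nat_lit 8) (.e (nat_lit 172113) (nat_lit 10) (.e (nat_lit 434207) (nat_lit 18) .nil)))) (.g (nat_lit 0) (.e (nat_lit 92584) (nat_lit 0) .nil) .nil))) 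
(.lf (nat_lit 473860) (.g (nat_lit 2690) (.e (nat_lit 1199) (nat_lit 88) (.e (nat_lit 65630) (nat_lit 14) (.e (nat_lit 401437) (nat_lit 9) (.e (nat_lit 426555) (nat_lit 32) (.e (nat_lit 376858) (nat_lit 21) .nil))))) (.g (nat_lit 0) (.e (nat_lit 94840) (nat_lit 0) .nil) .nil))))) (.nd (nat_lit 8) (.nd (nat_lit 9) 
(.lf (nat_lit 473220) (.g (nat_lit 2235) (.e (nat_lit 3471) (nat_lit 217) (.e (nat_lit 696343) (nat_lit 8) (.e (nat_lit 172123) (nat_lit 13) (.e (nat_lit 483411) (nat_lit 27) (.e (nat_lit 401434) (nat_lit 9) (.e (nat_lit 425986) (nat_lit 0) .nil)))))) (.g (nat_lit 1) (.e (nat_lit 92455) (nat_lit 0) .nil) .nil))) 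
(.lf (nat_lit 473732) (.g (nat_lit 3016) (.e (nat_lit 1183) (nat_lit 87) (.e (nat_lit 57478) (nat_lit 28) (.e (nat_lit 557109) (nat_lit 15) (.e (nat_lit 188452) (nat_lit 23) (.e (nat_lit 204856) (nat_lit 26) .nil))))) (.g (nat_lit 0) (.e (nat_lit 94528) (nat_lit 0) .nil) .nil)))) (.nd (nat_lit 9) 
(.lf (nat_lit 473476) (.g (nat_lit 2569) (.e (nat_lit 3579) (nat_lit 223) (.e (nat_lit 745509) (nat_lit 11) (.e (nat_lit 24625) (nat_lit 9) (.e (nat_lit 336369) (nat_lit 27) (.e (nat_lit 426173) (nat_lit 7) (.e (nat_lit 409649) (nat_lit 18) (.e (nat_lit 303111) (nat_lit 0) .nil))))))) (.g (nat_lit 1) (.e (nat_lit 92938) (nat_lit 0) .nil) .nil))) 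
(.lf (nat_lit 473988) (.g (nat_lit 671) (.e (nat_lit 1225) (nat_lit 91) (.e (nat_lit 90170) (nat_lit 13) (.e (nat_lit 172113) (nat_lit 10) .nil))) (.g (nat_lit 0) (.e (nat_lit 95141) (nat_lit 0) .nil) .nil)))))) (.nd (nat_lit 7) (.nd (nat_lit 8) (.nd (nat_lit 9) 
(.lf (nat_lit 473156) (.g (nat_lit 2926) (.e (nat_lit 3471) (nat_lit 217) (.e (nat_lit 696343) (nat_lit 8) (.e (nat_lit 172082) (nat_lit 7) (.e (nat_lit 409646) (nat_lit 18) (.e (nat_lit 303133) (nat_lit 9) (.e (nat_lit 426042) (nat_lit 0) (.e (nat_lit 2428) (nat_lit 157) (.e (nat_lit 5965) (nat_lit 324) (.e (nat_lit 163844) (nat_lit 0) .nil))))))))) (.g (nat_lit 1) (.e (nat_lit 92391) (nat_lit 0) .nil) .nil))) 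
(.lf (nat_lit 473668) (.g (nat_lit 3516) (.e (nat_lit 1172) (nat_lit 87) (.e (nat_lit 57572) (nat_lit 54) (.e (nat_lit 770072) (nat_lit 8) (.e (nat_lit 65583) (nat_lit 7) (.e (nat_lit 319530) (nat_lit 16) (.e (nat_lit 286748) (nat_lit 9) (.e (nat_lit 336295) (nat_lit 15) (.e (nat_lit 2443) (nat_lit 157) (.e (nat_lit 7660) (nat_lit 410) .nil))))))))) (.g (nat_lit 1) (.e (nat_lit 94100) (nat_lit 0) .nil) .nil)))) 
(.nd (nat_lit 9) 
(.lf (nat_lit 473412) (.g (nat_lit 2084) (.e (nat_lit 3544) (nat_lit 219) (.e (nat_lit 712753) (nat_lit 30) (.e (nat_lit 450586) (nat_lit 10) (.e (nat_lit 573475) (nat_lit 12) (.e (nat_lit 57508) (nat_lit 39) .nil))))) (.g (nat_lit 0) (.e (nat_lit 92788) (nat_lit 0) .nil) .nil))) 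
(.lf (nat_lit 473924) (.g (nat_lit 3239) (.e (nat_lit 1210) (nat_lit 89) (.e (nat_lit 73782) (nat_lit 32) (.e (nat_lit 2856) (nat_lit 184) (.e (nat_lit 426542) (nat_lit 29) (.e (nat_lit 352309) (nat_lit 21) (.e (nat_lit 57870) (nat_lit 264) .nil)))))) (.g (nat_lit 1) (.e (nat_lit 95041) (nat_lit 0) .nil) .nil))))) (.nd (nat_lit 8) (.nd (nat_lit 9) 
(.lf (nat_lit 473284) (.g (nat_lit 3102) (.e (nat_lit 3471) (nat_lit 217) (.e (nat_lit 696344) (nat_lit 8) (.e (nat_lit 172079) (nat_lit 7) (.e (nat_lit 409645) (nat_lit 18) (.e (nat_lit 303140) (nat_lit 10) (.e (nat_lit 434202) (nat_lit 18) (.e (nat_lit 5964) (nat_lit 324) (.e (nat_lit 163844) (nat_lit 0) .nil)))))))) (.g (nat_lit 1) (.e (nat_lit 92520) (nat_lit 0) .nil) .nil))) 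
(.lf (nat_lit 473796) (.g (nat_lit 2764) (.e (nat_lit 1183) (nat_lit 87) (.e (nat_lit 57575) (nat_lit 55) (.e (nat_lit 778466) (nat_lit 11) (.e (nat_lit 24617) (nat_lit 7) (.e (nat_lit 319534) (nat_lit 16) (.e (nat_lit 286756) (nat_lit 10) (.e (nat_lit 344087) (nat_lit 18) (.e (nat_lit 5441) (nat_lit 306) .nil)))))))) (.g (nat_lit 1) (.e (nat_lit 94631) (nat_lit 0) .nil) .nil)))) (.nd (nat_lit 9) 
(.lf (nat_lit 473540) (.g (nat_lit 4586) (.e (nat_lit 1040) (nat_lit 81) (.e (nat_lit 2342) (nat_lit 151) (.e (nat_lit 778466) (nat_lit 11) (.e (nat_lit 24617) (nat_lit 7) (.e (nat_lit 319534) (nat_lit 16) (.e (nat_lit 286756) (nat_lit 10) (.e (nat_lit 344160) (nat_lit 37) (.e (nat_lit 647195) (nat_lit 9) .nil)))))))) (.g (nat_lit 1) (.e (nat_lit 93374) (nat_lit 0) .nil) .nil))) 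
(.lf (nat_lit 474052) (.g (nat_lit 4491) (.e (nat_lit 1234) (nat_lit 91) (.e (nat_lit 90170) (nat_lit 13) (.e (nat_lit 172106) (nat_lit 10) (.e (nat_lit 434244) (nat_lit 28) (.e (nat_lit 573450) (nat_lit 9) (.e (nat_lit 375) (nat_lit 32) (.e (nat_lit 426025) (nat_lit 0) (.e (nat_lit 7936) (nat_lit 402) .nil)))))))) (.g (nat_lit 1) (.e (nat_lit 95219) (nat_lit 0) .nil) .nil))))))) 
(.nd (nat_lit 6) (.nd (nat_lit 7) (.nd (nat_lit 8) (.nd (nat_lit 9) 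
(.lf (nat_lit 473124) (.g (nat_lit 2579) (.e (nat_lit 3469) (nat_lit 217) (.e (nat_lit 696344) (nat_lit 8) (.e (nat_lit 172123) (nat_lit 13) (.e (nat_lit 483412) (nat_lit 27) (.e (nat_lit 401439) (nat_lit 9) (.e (nat_lit 426043) (nat_lit 0) .nil)))))) (.g (nat_lit 1) (.e (nat_lit 92256) (nat_lit 0) .nil) .nil))) 
(.lf (nat_lit 473636) (.g (nat_lit 1792) (.e (nat_lit 1160) (nat_lit 86) (.e (nat_lit 49157) (nat_lit 0) (.e (nat_lit 3026) (nat_lit 187) (.e (nat_lit 450584) (nat_lit 9) (.e (nat_lit 565268) (nat_lit 5) (.e (nat_lit 73791) (nat_lit 45) .nil)))))) (.g (nat_lit 1) (.e (nat_lit 93904) (nat_lit 0) .nil) .nil)))) (.nd (nat_lit 9) 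
(.lf (nat_lit 473380) (.g (nat_lit 1742) (.e (nat_lit 3527) (nat_lit 218) (.e (nat_lit 704597) (nat_lit 6) (.e (nat_lit 188452) (nat_lit 23) (.e (nat_lit 204817) (nat_lit 17) (.e (nat_lit 7936) (nat_lit 149) .nil))))) (.g (nat_lit 0) (.e (nat_lit 92660) (nat_lit 0) .nil) .nil))) 
(.lf (nat_lit 473892) (.g (nat_lit 1126) (.e (nat_lit 1209) (nat_lit 89) (.e (nat_lit 73781) (nat_lit 32) (.e (nat_lit 2857) (nat_lit 184) (.e (nat_lit 426556) (nat_lit 32) .nil)))) (.g (nat_lit 0) (.e (nat_lit 95008) (nat_lit 0) .nil) .nil))))) (.nd (nat_lit 8) (.nd (nat_lit 9) 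
(.lf (nat_lit 473252) (.g (nat_lit 2149) (.e (nat_lit 3471) (nat_lit 217) (.e (nat_lit 696344) (nat_lit 8) (.e (nat_lit 172079) (nat_lit 7) (.e (nat_lit 409645) (nat_lit 18) (.e (nat_lit 303133) (nat_lit 9) (.e (nat_lit 426042) (nat_lit 0) (.e (nat_lit 2446) (nat_lit 157) (.e (nat_lit 5968) (nat_lit 324) (.e (nat_lit 163844) (nat_lit 0) .nil))))))))) (.g (nat_lit 1) (.e (nat_lit 92488) (nat_lit 0) .nil) .nil))) 
(.lf (nat_lit 473764) (.g (nat_lit 6169) (.e (nat_lit 1183) (nat_lit 87) (.e (nat_lit 57480) (nat_lit 28) (.e (nat_lit 557108) (nat_lit 15) (.e (nat_lit 188449) (nat_lit 22) (.e (nat_lit 196670) (nat_lit 14) .nil))))) (.g (nat_lit 0) (.e (nat_lit 94560) (nat_lit 0) .nil) .nil)))) (.nd (nat_lit 9) 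
(.lf (nat_lit 473508) (.g (nat_lit 2065) (.e (nat_lit 999) (nat_lit 81) (.e (nat_lit 1239) (nat_lit 91) (.e (nat_lit 90170) (nat_lit 13) (.e (nat_lit 172106) (nat_lit 10) (.e (nat_lit 434231) (nat_lit 23) (.e (nat_lit 532529) (nat_lit 9) (.e (nat_lit 336257) (nat_lit 15) (.e (nat_lit 2403) (nat_lit 157) (.e (nat_lit 6848) (nat_lit 371) .nil))))))))) (.g (nat_lit 1) (.e (nat_lit 93196) (nat_lit 0) .nil) .nil))) 
(.lf (nat_lit 474020) (.g (nat_lit 1872) (.e (nat_lit 1232) (nat_lit 91) (.e (nat_lit 90170) (nat_lit 13) (.e (nat_lit 172106) (nat_lit 10) (.e (nat_lit 434231) (nat_lit 23) (.e (nat_lit 532522) (nat_lit 7) .nil))))) (.g (nat_lit 0) (.e (nat_lit 95181) (nat_lit 0) .nil) .nil)))))) (.nd (nat_lit 7) (.nd (nat_lit 8) (.nd (nat_lit 9) 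
(.lf (nat_lit 473188) (.g (nat_lit 3170) (.e (nat_lit 3471) (nat_lit 217) (.e (nat_lit 696343) (nat_lit 8) (.e (nat_lit 172082) (nat_lit 7) (.e (nat_lit 409646) (nat_lit 18) (.e (nat_lit 303140) (nat_lit 10) (.e (nat_lit 434275) (nat_lit 39) (.e (nat_lit 663580) (nat_lit 9) (.e (nat_lit 7936) (nat_lit 157) .nil)))))))) (.g (nat_lit 1) (.e (nat_lit 92423) (nat_lit 0) .nil) .nil))) 
(.lf (nat_lit 473700) (.g (nat_lit 1865) (.e (nat_lit 1181) (nat_lit 87) (.e (nat_lit 57479) (nat_lit 28) (.e (nat_lit 557095) (nat_lit 13) (.e (nat_lit 172115) (nat_lit 10) (.e (nat_lit 434231) (nat_lit 23) .nil))))) (.g (nat_lit 0) (.e (nat_lit 94285) (nat_lit 0) .nil) .nil)))) (.nd (nat_lit 9) 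
(.lf (nat_lit 473444) (.g (nat_lit 1741) (.e (nat_lit 3571) (nat_lit 222) (.e (nat_lit 737300) (nat_lit 7) (.e (nat_lit 286754) (nat_lit 10) (.e (nat_lit 344138) (nat_lit 29) (.e (nat_lit 581653) (nat_lit 6) (.e (nat_lit 188427) (nat_lit 20) .nil)))))) (.g (nat_lit 1) (.e (nat_lit 92867) (nat_lit 0) .nil) .nil))) 
(.lf (nat_lit 473956) (.g (nat_lit 3261) (.e (nat_lit 1212) (nat_lit 89) (.e (nat_lit 73782) (nat_lit 32) (.e (nat_lit 2856) (nat_lit 184) (.e (nat_lit 426538) (nat_lit 29) (.e (nat_lit 352318) (nat_lit 24) (.e (nat_lit 123184) (nat_lit 264) .nil)))))) (.g (nat_lit 1) (.e (nat_lit 95080) (nat_lit 0) .nil) .nil))))) (.nd (nat_lit 8) (.nd (nat_lit 9) 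
(.lf (nat_lit 473316) (.g (nat_lit 4131) (.e (nat_lit 3471) (nat_lit 217) (.e (nat_lit 696344) (nat_lit 8) (.e (nat_lit 172082) (nat_lit 7) (.e (nat_lit 409646) (nat_lit 18) (.e (nat_lit 303135) (nat_lit 10) (.e (nat_lit 434203) (nat_lit 18) (.e (nat_lit 5964) (nat_lit 324) (.e (nat_lit 163844) (nat_lit 0) .nil)))))))) (.g (nat_lit 1) (.e (nat_lit 92552) (nat_lit 0) .nil) .nil))) 
(.lf (nat_lit 473828) (.g (nat_lit 2379) (.e (nat_lit 1190) (nat_lit 88) (.e (nat_lit 65630) (nat_lit 14) (.e (nat_lit 401428) (nat_lit 3) (.e (nat_lit 204869) (nat_lit 29) (.e (nat_lit 368384) (nat_lit 0) .nil))))) (.g (nat_lit 0) (.e (nat_lit 94790) (nat_lit 0) .nil) .nil)))) (.nd (nat_lit 9) 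
(.lf (nat_lit 473572) (.g (nat_lit 2574) (.e (nat_lit 1117) (nat_lit 82) (.e (nat_lit 8399) (nat_lit 120) (.e (nat_lit 2649) (nat_lit 166) (.e (nat_lit 188434) (nat_lit 20) (.e (nat_lit 3579) (nat_lit 223) (.e (nat_lit 745492) (nat_lit 5) (.e (nat_lit 73791) (nat_lit 45) .nil))))))) (.g (nat_lit 1) (.e (nat_lit 93701) (nat_lit 0) .nil) .nil))) 
(.lf (nat_lit 474084) (.g (nat_lit 3348) (.e (nat_lit 1234) (nat_lit 91) (.e (nat_lit 90176) (nat_lit 15) (.e (nat_lit 188450) (nat_lit 23) (.e (nat_lit 204846) (nat_lit 24) (.e (nat_lit 319497) (nat_lit 10) .nil))))) (.g (nat_lit 0) (.e (nat_lit 95251) (nat_lit 0) .nil) .nil)))))))) (.nd (nat_lit 5) (.nd (nat_lit 6) (.nd (nat_lit 7) (.nd (nat_lit 8) (.nd (nat_lit 9) 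
(.lf (nat_lit 473108) (.g (nat_lit 2251) (.e (nat_lit 3469) (nat_lit 217) (.e (nat_lit 696344) (nat_lit 8) (.e (nat_lit 172115) (nat_lit 10) (.e (nat_lit 434209) (nat_lit 18) (.e (nat_lit 6426) (nat_lit 342) (.e (nat_lit 229412) (nat_lit 14) (.e (nat_lit 442412) (nat_lit 20) .nil))))))) (.g (nat_lit 1) (.e (nat_lit 92240) (nat_lit 0) .nil) .nil))) 
(.lf (nat_lit 473620) (.g (nat_lit 3254) (.e (nat_lit 1157) (nat_lit 86) (.e (nat_lit 49189) (nat_lit 11) (.e (nat_lit 16425) (nat_lit 7) (.e (nat_lit 409648) (nat_lit 18) (.e (nat_lit 303137) (nat_lit 10) (.e (nat_lit 434275) (nat_lit 39) (.e (nat_lit 663590) (nat_lit 14) .nil))))))) (.g (nat_lit 1) (.e (nat_lit 93868) (nat_lit 0) .nil) .nil)))) (.nd (nat_lit 9) 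
(.lf (nat_lit 473364) (.g (nat_lit 3007) (.e (nat_lit 3497) (nat_lit 218) (.e (nat_lit 704738) (nat_lit 11) (.e (nat_lit 16425) (nat_lit 7) (.e (nat_lit 409649) (nat_lit 18) (.e (nat_lit 303140) (nat_lit 10) (.e (nat_lit 434275) (nat_lit 39) (.e (nat_lit 663580) (nat_lit 9) (.e (nat_lit 2416) (nat_lit 157) .nil)))))))) (.g (nat_lit 1) (.e (nat_lit 92638) (nat_lit 0) .nil) .nil))) 
(.lf (nat_lit 473876) (.g (nat_lit 1982) (.e (nat_lit 1201) (nat_lit 88) (.e (nat_lit 65630) (nat_lit 14) (.e (nat_lit 401425) (nat_lit 2) (.e (nat_lit 196666) (nat_lit 13) .nil)))) (.g (nat_lit 0) (.e (nat_lit 94876) (nat_lit 0) .nil) .nil))))) (.nd (nat_lit 8) (.nd (nat_lit 9) 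
(.lf (nat_lit 473236) (.g (nat_lit 3518) (.e (nat_lit 3471) (nat_lit 217) (.e (nat_lit 696344) (nat_lit 8) (.e (nat_lit 172078) (nat_lit 7) (.e (nat_lit 409646) (nat_lit 18) (.e (nat_lit 303140) (nat_lit 10) (.e (nat_lit 434275) (nat_lit 39) (.e (nat_lit 663580) (nat_lit 9) (.e (nat_lit 2416) (nat_lit 157) .nil)))))))) (.g (nat_lit 1) (.e (nat_lit 92471) (nat_lit 0) .nil) .nil))) 
(.lf (nat_lit 473748) (.g (nat_lit 463) (.e (nat_lit 1183) (nat_lit 87) (.e (nat_lit 57479) (nat_lit 28) (.e (nat_lit 557106) (nat_lit 15) .nil))) (.g (nat_lit 0) (.e (nat_lit 94544) (nat_lit 0) .nil) .nil)))) (.nd (nat_lit 9) 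
(.lf (nat_lit 473492) (.g (nat_lit 2848) (.e (nat_lit 970) (nat_lit 81) (.e (nat_lit 6202) (nat_lit 332) (.e (nat_lit 2798) (nat_lit 180) (.e (nat_lit 303117) (nat_lit 2) (.e (nat_lit 196668) (nat_lit 14) (.e (nat_lit 73782) (nat_lit 32) (.e (nat_lit 2664) (nat_lit 167) (.e (nat_lit 196628) (nat_lit 9) .nil)))))))) (.g (nat_lit 1) (.e (nat_lit 93029) (nat_lit 0) .nil) .nil))) 
(.lf (nat_lit 474004) (.g (nat_lit 2545) (.e (nat_lit 1228) (nat_lit 91) (.e (nat_lit 90172) (nat_lit 14) (.e (nat_lit 180250) (nat_lit 10) (.e (nat_lit 573487) (nat_lit 14) (.e (nat_lit 73753) (nat_lit 8) .nil))))) (.g (nat_lit 0) (.e (nat_lit 95158) (nat_lit 0) .nil) .nil)))))) (.nd (nat_lit 7) (.nd (nat_lit 8) (.nd (nat_lit 9) 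
(.lf (nat_lit 473172) (.g (nat_lit 2445) (.e (nat_lit 3471) (nat_lit 217) (.e (nat_lit 696343) (nat_lit 8) (.e (nat_lit 172082) (nat_lit 7) (.e (nat_lit 409646) (nat_lit 18) (.e (nat_lit 303135) (nat_lit 10) (.e (nat_lit 434203) (nat_lit 18) (.e (nat_lit 5964) (nat_lit 324) (.e (nat_lit 163843) (nat_lit 0) .nil)))))))) (.g (nat_lit 1) (.e (nat_lit 92407) (nat_lit 0) .nil) .nil))) 
(.lf (nat_lit 473684) (.g (nat_lit 3827) (.e (nat_lit 1177) (nat_lit 87) (.e (nat_lit 57479) (nat_lit 28) (.e (nat_lit 557105) (nat_lit 14) (.e (nat_lit 180252) (nat_lit 10) (.e (nat_lit 573484) (nat_lit 13) .nil))))) (.g (nat_lit 0) (.e (nat_lit 94191) (nat_lit 0) .nil) .nil)))) (.nd (nat_lit 9) 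
(.lf (nat_lit 473428) (.g (nat_lit 1545) (.e (nat_lit 3548) (nat_lit 219) (.e (nat_lit 712753) (nat_lit 30) (.e (nat_lit 450586) (nat_lit 10) (.e (nat_lit 573477) (nat_lit 12) (.e (nat_lit 57509) (nat_lit 39) .nil))))) (.g (nat_lit 0) (.e (nat_lit 92807) (nat_lit 0) .nil) .nil))) 
(.lf (nat_lit 473940) (.g (nat_lit 1843) (.e (nat_lit 1211) (nat_lit 89) (.e (nat_lit 73781) (nat_lit 32) (.e (nat_lit 3090) (nat_lit 191) (.e (nat_lit 483396) (nat_lit 24) (.e (nat_lit 344100) (nat_lit 18) (.e (nat_lit 5906) (nat_lit 320) .nil)))))) (.g (nat_lit 1) (.e (nat_lit 95062) (nat_lit 0) .nil) .nil))))) (.nd (nat_lit 8) (.nd (nat_lit 9) 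
(.lf (nat_lit 473300) (.g (nat_lit 2178) (.e (nat_lit 3471) (nat_lit 217) (.e (nat_lit 696344) (nat_lit 8) (.e (nat_lit 172082) (nat_lit 7) (.e (nat_lit 409646) (nat_lit 18) (.e (nat_lit 303133) (nat_lit 9) (.e (nat_lit 426042) (nat_lit 0) (.e (nat_lit 2446) (nat_lit 157) (.e (nat_lit 5964) (nat_lit 324) (.e (nat_lit 163844) (nat_lit 0) .nil))))))))) (.g (nat_lit 1) (.e (nat_lit 92536) (nat_lit 0) .nil) .nil))) 
(.lf (nat_lit 473812) (.g (nat_lit 1831) (.e (nat_lit 7936) (nat_lit 87) (.e (nat_lit 57927) (nat_lit 282) (.e (nat_lit 163874) (nat_lit 3) (.e (nat_lit 204864) (nat_lit 27) .nil)))) (.g (nat_lit 0) (.e (nat_lit 94767) (nat_lit 0) .nil) .nil)))) (.nd (nat_lit 9) 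
(.lf (nat_lit 473556) (.g (nat_lit 3984) (.e (nat_lit 1076) (nat_lit 81) (.e (nat_lit 5664) (nat_lit 312) (.e (nat_lit 2679) (nat_lit 168) (.e (nat_lit 204846) (nat_lit 24) (.e (nat_lit 319530) (nat_lit 16) (.e (nat_lit 286735) (nat_lit 3) (.e (nat_lit 98323) (nat_lit 17) (.e (nat_lit 6989) (nat_lit 377) .nil)))))))) (.g (nat_lit 1) (.e (nat_lit 93445) (nat_lit 0) .nil) .nil))) 
(.lf (nat_lit 474068) (.g (nat_lit 2314) (.e (nat_lit 1234) (nat_lit 91) (.e (nat_lit 90170) (nat_lit 13) (.e (nat_lit 172113) (nat_lit 10) (.e (nat_lit 434245) (nat_lit 28) (.e (nat_lit 573458) (nat_lit 9) (.e (nat_lit 426) (nat_lit 32) (.e (nat_lit 426031) (nat_lit 0) (.e (nat_lit 7562) (nat_lit 402) .nil)))))))) (.g (nat_lit 1) (.e (nat_lit 95235) (nat_lit 0) .nil) .nil))))))) 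
(.nd (nat_lit 6) (.nd (nat_lit 7) (.nd (nat_lit 8) (.nd (nat_lit 9) 
(.lf (nat_lit 473140) (.g (nat_lit 2129) (.e (nat_lit 3471) (nat_lit 217) (.e (nat_lit 696343) (nat_lit 8) (.e (nat_lit 172079) (nat_lit 7) (.e (nat_lit 409645) (nat_lit 18) (.e (nat_lit 303135) (nat_lit 10) (.e (nat_lit 434203) (nat_lit 18) (.e (nat_lit 5965) (nat_lit 324) (.e (nat_lit 163844) (nat_lit 0) .nil)))))))) (.g (nat_lit 1) (.e (nat_lit 92375) (nat_lit 0) .nil) .nil))) 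
(.lf (nat_lit 473652) (.g (nat_lit 961) (.e (nat_lit 1163) (nat_lit 86) (.e (nat_lit 49157) (nat_lit 0) (.e (nat_lit 3012) (nat_lit 187) (.e (nat_lit 450584) (nat_lit 9) (.e (nat_lit 565268) (nat_lit 5) (.e (nat_lit 73791) (nat_lit 45) .nil)))))) (.g (nat_lit 1) (.e (nat_lit 93971) (nat_lit 0) .nil) .nil)))) (.nd (nat_lit 9) 
(.lf (nat_lit 473396) (.g (nat_lit 2646) (.e (nat_lit 3543) (nat_lit 219) (.e (nat_lit 712755) (nat_lit 30) (.e (nat_lit 450588) (nat_lit 10) (.e (nat_lit 573473) (nat_lit 12) (.e (nat_lit 57503) (nat_lit 38) (.e (nat_lit 638998) (nat_lit 8) (.e (nat_lit 172039) (nat_lit 0) .nil))))))) (.g (nat_lit 1) (.e (nat_lit 92772) (nat_lit 0) .nil) .nil))) 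
(.lf (nat_lit 473908) (.g (nat_lit 2829) (.e (nat_lit 1209) (nat_lit 89) (.e (nat_lit 73782) (nat_lit 32) (.e (nat_lit 2856) (nat_lit 184) (.e (nat_lit 426555) (nat_lit 32) (.e (nat_lit 376856) (nat_lit 21) .nil))))) (.g (nat_lit 0) (.e (nat_lit 95024) (nat_lit 0) .nil) .nil))))) (.nd (nat_lit 8) (.nd (nat_lit 9) 
(.lf (nat_lit 473268) (.g (nat_lit 4011) (.e (nat_lit 3471) (nat_lit 217) (.e (nat_lit 696344) (nat_lit 8) (.e (nat_lit 172079) (nat_lit 7) (.e (nat_lit 409645) (nat_lit 18) (.e (nat_lit 303135) (nat_lit 10) (.e (nat_lit 434203) (nat_lit 18) (.e (nat_lit 5964) (nat_lit 324) (.e (nat_lit 163844) (nat_lit 0) .nil)))))))) (.g (nat_lit 1) (.e (nat_lit 92504) (nat_lit 0) .nil) .nil))) 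
(.lf (nat_lit 473780) (.g (nat_lit 2988) (.e (nat_lit 1183) (nat_lit 87) (.e (nat_lit 57480) (nat_lit 28) (.e (nat_lit 557109) (nat_lit 15) (.e (nat_lit 188452) (nat_lit 23) (.e (nat_lit 212736) (nat_lit 26) .nil))))) (.g (nat_lit 0) (.e (nat_lit 94576) (nat_lit 0) .nil) .nil)))) (.nd (nat_lit 9) 
(.lf (nat_lit 473524) (.g (nat_lit 2735) (.e (nat_lit 1027) (nat_lit 81) (.e (nat_lit 1858) (nat_lit 124) (.e (nat_lit 557105) (nat_lit 14) (.e (nat_lit 180251) (nat_lit 10) (.e (nat_lit 573489) (nat_lit 14) .nil))))) (.g (nat_lit 0) (.e (nat_lit 93312) (nat_lit 0) .nil) .nil))) 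
(.lf (nat_lit 474036) (.g (nat_lit 670) (.e (nat_lit 1232) (nat_lit 91) (.e (nat_lit 90170) (nat_lit 13) (.e (nat_lit 172115) (nat_lit 10) .nil))) (.g (nat_lit 0) (.e (nat_lit 95197) (nat_lit 0) .nil) .nil)))))) (.nd (nat_lit 7) (.nd (nat_lit 8) (.nd (nat_lit 9) 
(.lf (nat_lit 473204) (.g (nat_lit 2142) (.e (nat_lit 3471) (nat_lit 217) (.e (nat_lit 696343) (nat_lit 8) (.e (nat_lit 172106) (nat_lit 10) (.e (nat_lit 434209) (nat_lit 18) (.e (nat_lit 6270) (nat_lit 337) .nil))))) (.g (nat_lit 0) (.e (nat_lit 92439) (nat_lit 0) .nil) .nil))) 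
(.lf (nat_lit 473716) (.g (nat_lit 2781) (.e (nat_lit 1183) (nat_lit 87) (.e (nat_lit 57478) (nat_lit 28) (.e (nat_lit 557105) (nat_lit 14) (.e (nat_lit 180252) (nat_lit 10) (.e (nat_lit 573482) (nat_lit 13) .nil))))) (.g (nat_lit 0) (.e (nat_lit 94512) (nat_lit 0) .nil) .nil)))) (.nd (nat_lit 9) 
(.lf (nat_lit 473460) (.g (nat_lit 403) (.e (nat_lit 3578) (nat_lit 223) (.e (nat_lit 745476) (nat_lit 0) (.e (nat_lit 1575) (nat_lit 110) .nil))) (.g (nat_lit 0) (.e (nat_lit 92912) (nat_lit 0) .nil) .nil))) 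
(.lf (nat_lit 473972) (.g (nat_lit 1850) (.e (nat_lit 1222) (nat_lit 90) (.e (nat_lit 81938) (nat_lit 20) (.e (nat_lit 2281) (nat_lit 150) (.e (nat_lit 770072) (nat_lit 8) (.e (nat_lit 65617) (nat_lit 10) .nil))))) (.g (nat_lit 0) (.e (nat_lit 95122) (nat_lit 0) .nil) .nil))))) (.nd (nat_lit 8) (.nd (nat_lit 9) 
(.lf (nat_lit 473332) (.g (nat_lit 4323) (.e (nat_lit 3471) (nat_lit 217) (.e (nat_lit 696344) (nat_lit 8) (.e (nat_lit 172082) (nat_lit 7) (.e (nat_lit 409646) (nat_lit 18) (.e (nat_lit 303140) (nat_lit 10) (.e (nat_lit 434275) (nat_lit 39) (.e (nat_lit 663580) (nat_lit 9) (.e (nat_lit 2416) (nat_lit 157) .nil)))))))) (.g (nat_lit 1) (.e (nat_lit 92568) (nat_lit 0) .nil) .nil))) 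
(.lf (nat_lit 473844) (.g (nat_lit 2492) (.e (nat_lit 1194) (nat_lit 88) (.e (nat_lit 65630) (nat_lit 14) (.e (nat_lit 401425) (nat_lit 2) (.e (nat_lit 196666) (nat_lit 13) (.e (nat_lit 65617) (nat_lit 10) .nil))))) (.g (nat_lit 0) (.e (nat_lit 94820) (nat_lit 0) .nil) .nil)))) (.nd (nat_lit 9) 
(.lf (nat_lit 473588) (.g (nat_lit 3697) (.e (nat_lit 1125) (nat_lit 83) (.e (nat_lit 16416) (nat_lit 3) (.e (nat_lit 204869) (nat_lit 29) (.e (nat_lit 360474) (nat_lit 8) (.e (nat_lit 557091) (nat_lit 12) .nil))))) (.g (nat_lit 0) (.e (nat_lit 93763) (nat_lit 0) .nil) .nil))) 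
(.lf (nat_lit 474100) (.g (nat_lit 2494) (.e (nat_lit 1235) (nat_lit 91) (.e (nat_lit 90170) (nat_lit 13) (.e (nat_lit 172106) (nat_lit 10) (.e (nat_lit 434244) (nat_lit 28) (.e (nat_lit 573450) (nat_lit 9) (.e (nat_lit 375) (nat_lit 32) (.e (nat_lit 426025) (nat_lit 0) (.e (nat_lit 7537) (nat_lit 402) .nil)))))))) (.g (nat_lit 1) (.e (nat_lit 95269) (nat_lit 0) .nil) .nil))))))))) 
(.nd (nat_lit 4) (.nd (nat_lit 5) (.nd (nat_lit 6) (.nd (nat_lit 7) (.nd (nat_lit 8) 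
(.nd (nat_lit 9) 
(.lf (nat_lit 473100) (.g (nat_lit 2069) (.e (nat_lit 3469) (nat_lit 217) (.e (nat_lit 696344) (nat_lit 8) (.e (nat_lit 172115) (nat_lit 10) (.e (nat_lit 434202) (nat_lit 18) (.e (nat_lit 6254) (nat_lit 337) (.e (nat_lit 7936) (nat_lit 166) (.e (nat_lit 188439) (nat_lit 20) .nil))))))) (.g (nat_lit 1) (.e (nat_lit 92232) (nat_lit 0) .nil) .nil))) 
(.lf (nat_lit 473612) (.g (nat_lit 1910) (.e (nat_lit 1130) (nat_lit 83) (.e (nat_lit 16448) (nat_lit 10) (.e (nat_lit 434268) (nat_lit 36) (.e (nat_lit 639020) (nat_lit 16) (.e (nat_lit 65610) (nat_lit 10) .nil))))) (.g (nat_lit 0) (.e (nat_lit 93799) (nat_lit 0) .nil) .nil)))) (.nd (nat_lit 9) 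
(.lf (nat_lit 473356) (.g (nat_lit 3022) (.e (nat_lit 3486) (nat_lit 218) (.e (nat_lit 704741) (nat_lit 11) (.e (nat_lit 16473) (nat_lit 14) (.e (nat_lit 491526) (nat_lit 0) (.e (nat_lit 2270) (nat_lit 149) .nil))))) (.g (nat_lit 0) (.e (nat_lit 92610) (nat_lit 0) .nil) .nil))) 
(.lf (nat_lit 473868) (.g (nat_lit 1230) (.e (nat_lit 1200) (nat_lit 88) (.e (nat_lit 65630) (nat_lit 14) (.e (nat_lit 401437) (nat_lit 9) (.e (nat_lit 426546) (nat_lit 30) .nil)))) (.g (nat_lit 0) (.e (nat_lit 94868) (nat_lit 0) .nil) .nil))))) (.nd (nat_lit 8) (.nd (nat_lit 9) 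
(.lf (nat_lit 473228) (.g (nat_lit 616) (.e (nat_lit 3471) (nat_lit 217) (.e (nat_lit 696344) (nat_lit 8) (.e (nat_lit 172067) (nat_lit 3) .nil))) (.g (nat_lit 0) (.e (nat_lit 92463) (nat_lit 0) .nil) .nil))) 
(.lf (nat_lit 473740) (.g (nat_lit 2319) (.e (nat_lit 1183) (nat_lit 87) (.e (nat_lit 57479) (nat_lit 28) (.e (nat_lit 557105) (nat_lit 14) (.e (nat_lit 180250) (nat_lit 10) .nil)))) (.g (nat_lit 0) (.e (nat_lit 94536) (nat_lit 0) .nil) .nil)))) (.nd (nat_lit 9) 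
(.lf (nat_lit 473484) (.g (nat_lit 3019) (.e (nat_lit 3579) (nat_lit 223) (.e (nat_lit 745509) (nat_lit 11) (.e (nat_lit 24660) (nat_lit 13) (.e (nat_lit 393260) (nat_lit 21) (.e (nat_lit 409649) (nat_lit 18) (.e (nat_lit 303108) (nat_lit 0) .nil)))))) (.g (nat_lit 1) (.e (nat_lit 92946) (nat_lit 0) .nil) .nil))) 
(.lf (nat_lit 473996) (.g (nat_lit 4346) (.e (nat_lit 1225) (nat_lit 91) (.e (nat_lit 90176) (nat_lit 15) (.e (nat_lit 188452) (nat_lit 23) (.e (nat_lit 204846) (nat_lit 24) (.e (nat_lit 319504) (nat_lit 10) .nil))))) (.g (nat_lit 0) (.e (nat_lit 95149) (nat_lit 0) .nil) .nil)))))) (.nd (nat_lit 7) (.nd (nat_lit 8) (.nd (nat_lit 9) 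
(.lf (nat_lit 473164) (.g (nat_lit 2929) (.e (nat_lit 3471) (nat_lit 217) (.e (nat_lit 696343) (nat_lit 8) (.e (nat_lit 172082) (nat_lit 7) (.e (nat_lit 409646) (nat_lit 18) (.e (nat_lit 303133) (nat_lit 9) (.e (nat_lit 426042) (nat_lit 0) (.e (nat_lit 2449) (nat_lit 157) (.e (nat_lit 5965) (nat_lit 324) (.e (nat_lit 163844) (nat_lit 0) .nil))))))))) (.g (nat_lit 1) (.e (nat_lit 92399) (nat_lit 0) .nil) .nil))) 
(.lf (nat_lit 473676) (.g (nat_lit 2200) (.e (nat_lit 1176) (nat_lit 87) (.e (nat_lit 57575) (nat_lit 55) (.e (nat_lit 778466) (nat_lit 11) (.e (nat_lit 24617) (nat_lit 7) .nil)))) (.g (nat_lit 0) (.e (nat_lit 94173) (nat_lit 0) .nil) .nil)))) (.nd (nat_lit 9) 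
(.lf (nat_lit 473420) (.g (nat_lit 2169) (.e (nat_lit 3546) (nat_lit 219) (.e (nat_lit 712754) (nat_lit 30) (.e (nat_lit 450588) (nat_lit 10) (.e (nat_lit 573473) (nat_lit 12) (.e (nat_lit 57508) (nat_lit 39) (.e (nat_lit 647195) (nat_lit 9) (.e (nat_lit 426) (nat_lit 32) (.e (nat_lit 426012) (nat_lit 0) .nil)))))))) (.g (nat_lit 1) (.e (nat_lit 92796) (nat_lit 0) .nil) .nil))) 
(.lf (nat_lit 473932) (.g (nat_lit 1059) (.e (nat_lit 1210) (nat_lit 89) (.e (nat_lit 73782) (nat_lit 32) (.e (nat_lit 3089) (nat_lit 191) (.e (nat_lit 483395) (nat_lit 24) .nil)))) (.g (nat_lit 0) (.e (nat_lit 95049) (nat_lit 0) .nil) .nil))))) (.nd (nat_lit 8) (.nd (nat_lit 9) 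
(.lf (nat_lit 473292) (.g (nat_lit 3175) (.e (nat_lit 3471) (nat_lit 217) (.e (nat_lit 696344) (nat_lit 8) (.e (nat_lit 172081) (nat_lit 7) (.e (nat_lit 409649) (nat_lit 18) (.e (nat_lit 303140) (nat_lit 10) (.e (nat_lit 434202) (nat_lit 18) (.e (nat_lit 5964) (nat_lit 324) (.e (nat_lit 163844) (nat_lit 0) .nil)))))))) (.g (nat_lit 1) (.e (nat_lit 92528) (nat_lit 0) .nil) .nil))) 
(.lf (nat_lit 473804) (.g (nat_lit 4218) (.e (nat_lit 1183) (nat_lit 87) (.e (nat_lit 57575) (nat_lit 55) (.e (nat_lit 778466) (nat_lit 11) (.e (nat_lit 24617) (nat_lit 7) (.e (nat_lit 319534) (nat_lit 16) (.e (nat_lit 286756) (nat_lit 10) (.e (nat_lit 344088) (nat_lit 18) (.e (nat_lit 5455) (nat_lit 306) .nil)))))))) (.g (nat_lit 1) (.e (nat_lit 94639) (nat_lit 0) .nil) .nil)))) (.nd (nat_lit 9) 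
(.lf (nat_lit 473548) (.g (nat_lit 3109) (.e (nat_lit 1043) (nat_lit 81) (.e (nat_lit 2342) (nat_lit 151) (.e (nat_lit 778466) (nat_lit 11) (.e (nat_lit 24617) (nat_lit 7) (.e (nat_lit 319533) (nat_lit 16) (.e (nat_lit 286753) (nat_lit 10) (.e (nat_lit 344160) (nat_lit 37) (.e (nat_lit 647195) (nat_lit 9) .nil)))))))) (.g (nat_lit 1) (.e (nat_lit 93399) (nat_lit 0) .nil) .nil))) 
(.lf (nat_lit 474060) (.g (nat_lit 4038) (.e (nat_lit 1234) (nat_lit 91) (.e (nat_lit 90170) (nat_lit 13) (.e (nat_lit 172113) (nat_lit 10) (.e (nat_lit 434245) (nat_lit 28) (.e (nat_lit 573450) (nat_lit 9) (.e (nat_lit 375) (nat_lit 32) (.e (nat_lit 426025) (nat_lit 0) (.e (nat_lit 7555) (nat_lit 402) .nil)))))))) (.g (nat_lit 1) (.e (nat_lit 95227) (nat_lit 0) .nil) .nil))))))) 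
(.nd (nat_lit 6) (.nd (nat_lit 7) (.nd (nat_lit 8) (.nd (nat_lit 9) 
(.lf (nat_lit 473132) (.g (nat_lit 1901) (.e (nat_lit 3471) (nat_lit 217) (.e (nat_lit 696343) (nat_lit 8) (.e (nat_lit 172079) (nat_lit 7) (.e (nat_lit 409645) (nat_lit 18) (.e (nat_lit 303133) (nat_lit 9) (.e (nat_lit 426042) (nat_lit 0) (.e (nat_lit 2442) (nat_lit 157) (.e (nat_lit 5965) (nat_lit 324) (.e (nat_lit 163844) (nat_lit 0) .nil))))))))) (.g (nat_lit 1) (.e (nat_lit 92367) (nat_lit 0) .nil) .nil))) 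
(.lf (nat_lit 473644) (.g (nat_lit 2059) (.e (nat_lit 1162) (nat_lit 86) (.e (nat_lit 49157) (nat_lit 0) (.e (nat_lit 3026) (nat_lit 187) (.e (nat_lit 450584) (nat_lit 9) (.e (nat_lit 565268) (nat_lit 5) (.e (nat_lit 73789) (nat_lit 45) .nil)))))) (.g (nat_lit 1) (.e (nat_lit 93939) (nat_lit 0) .nil) .nil)))) (.nd (nat_lit 9) 
(.lf (nat_lit 473388) (.g (nat_lit 4466) (.e (nat_lit 3537) (nat_lit 218) (.e (nat_lit 704728) (nat_lit 10) (.e (nat_lit 8234) (nat_lit 20) (.e (nat_lit 573489) (nat_lit 14) (.e (nat_lit 73755) (nat_lit 8) (.e (nat_lit 557104) (nat_lit 14) (.e (nat_lit 188160) (nat_lit 3) (.e (nat_lit 516106) (nat_lit 0) .nil)))))))) (.g (nat_lit 1) (.e (nat_lit 92711) (nat_lit 0) .nil) .nil))) 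
(.lf (nat_lit 473900) (.g (nat_lit 3511) (.e (nat_lit 1209) (nat_lit 89) (.e (nat_lit 73781) (nat_lit 32) (.e (nat_lit 3090) (nat_lit 191) (.e (nat_lit 483393) (nat_lit 23) (.e (nat_lit 335995) (nat_lit 1) (.e (nat_lit 57872) (nat_lit 264) .nil)))))) (.g (nat_lit 1) (.e (nat_lit 95016) (nat_lit 0) .nil) .nil))))) (.nd (nat_lit 8) (.nd (nat_lit 9) 
(.lf (nat_lit 473260) (.g (nat_lit 2140) (.e (nat_lit 3471) (nat_lit 217) (.e (nat_lit 696344) (nat_lit 8) (.e (nat_lit 172079) (nat_lit 7) (.e (nat_lit 409645) (nat_lit 18) (.e (nat_lit 303133) (nat_lit 9) (.e (nat_lit 426042) (nat_lit 0) (.e (nat_lit 2449) (nat_lit 157) (.e (nat_lit 5968) (nat_lit 324) (.e (nat_lit 163844) (nat_lit 0) .nil))))))))) (.g (nat_lit 1) (.e (nat_lit 92496) (nat_lit 0) .nil) .nil))) 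
(.lf (nat_lit 473772) (.g (nat_lit 3208) (.e (nat_lit 1183) (nat_lit 87) (.e (nat_lit 57480) (nat_lit 28) (.e (nat_lit 557109) (nat_lit 15) (.e (nat_lit 188449) (nat_lit 22) (.e (nat_lit 196662) (nat_lit 13) .nil))))) (.g (nat_lit 0) (.e (nat_lit 94568) (nat_lit 0) .nil) .nil)))) (.nd (nat_lit 9) 
(.lf (nat_lit 473516) (.g (nat_lit 1882) (.e (nat_lit 1016) (nat_lit 81) (.e (nat_lit 1413) (nat_lit 108) (.e (nat_lit 336454) (nat_lit 34) (.e (nat_lit 483408) (nat_lit 26) .nil)))) (.g (nat_lit 0) (.e (nat_lit 93267) (nat_lit 0) .nil) .nil))) 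
(.lf (nat_lit 474028) (.g (nat_lit 1222) (.e (nat_lit 1232) (nat_lit 91) (.e (nat_lit 90170) (nat_lit 13) (.e (nat_lit 172113) (nat_lit 10) (.e (nat_lit 434242) (nat_lit 28) .nil)))) (.g (nat_lit 0) (.e (nat_lit 95189) (nat_lit 0) .nil) .nil)))))) (.nd (nat_lit 7) (.nd (nat_lit 8) (.nd (nat_lit 9) 
(.lf (nat_lit 473196) (.g (nat_lit 3540) (.e (nat_lit 3471) (nat_lit 217) (.e (nat_lit 696343) (nat_lit 8) (.e (nat_lit 172082) (nat_lit 7) (.e (nat_lit 409649) (nat_lit 18) (.e (nat_lit 303140) (nat_lit 10) (.e (nat_lit 434202) (nat_lit 18) (.e (nat_lit 5968) (nat_lit 324) (.e (nat_lit 163844) (nat_lit 0) .nil)))))))) (.g (nat_lit 1) (.e (nat_lit 92431) (nat_lit 0) .nil) .nil))) 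
(.lf (nat_lit 473708) (.g (nat_lit 4891) (.e (nat_lit 1181) (nat_lit 87) (.e (nat_lit 57480) (nat_lit 28) (.e (nat_lit 557109) (nat_lit 15) (.e (nat_lit 188449) (nat_lit 22) (.e (nat_lit 196680) (nat_lit 17) .nil))))) (.g (nat_lit 0) (.e (nat_lit 94304) (nat_lit 0) .nil) .nil)))) (.nd (nat_lit 9) 
(.lf (nat_lit 473452) (.g (nat_lit 642) (.e (nat_lit 3577) (nat_lit 223) (.e (nat_lit 745475) (nat_lit 0) (.e (nat_lit 1595) (nat_lit 111) (.e (nat_lit 368384) (nat_lit 5) .nil)))) (.g (nat_lit 0) (.e (nat_lit 92903) (nat_lit 0) .nil) .nil))) 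
(.lf (nat_lit 473964) (.g (nat_lit 3602) (.e (nat_lit 1214) (nat_lit 89) (.e (nat_lit 73746) (nat_lit 3) (.e (nat_lit 516166) (nat_lit 12) (.e (nat_lit 450587) (nat_lit 10) (.e (nat_lit 573477) (nat_lit 12) .nil))))) (.g (nat_lit 0) (.e (nat_lit 95089) (nat_lit 0) .nil) .nil))))) (.nd (nat_lit 8) (.nd (nat_lit 9) 
(.lf (nat_lit 473324) (.g (nat_lit 2390) (.e (nat_lit 3471) (nat_lit 217) (.e (nat_lit 696344) (nat_lit 8) (.e (nat_lit 172082) (nat_lit 7) (.e (nat_lit 409646) (nat_lit 18) (.e (nat_lit 303139) (nat_lit 10) .nil))))) (.g (nat_lit 0) (.e (nat_lit 92560) (nat_lit 0) .nil) .nil))) 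
(.lf (nat_lit 473836) (.g (nat_lit 2009) (.e (nat_lit 1192) (nat_lit 88) (.e (nat_lit 65568) (nat_lit 2) (.e (nat_lit 90170) (nat_lit 13) (.e (nat_lit 172113) (nat_lit 10) .nil)))) (.g (nat_lit 0) (.e (nat_lit 94806) (nat_lit 0) .nil) .nil)))) (.nd (nat_lit 9) 
(.lf (nat_lit 473580) (.g (nat_lit 2938) (.e (nat_lit 1122) (nat_lit 83) (.e (nat_lit 16470) (nat_lit 14) (.e (nat_lit 491571) (nat_lit 13) (.e (nat_lit 393281) (nat_lit 23) .nil)))) (.g (nat_lit 0) (.e (nat_lit 93745) (nat_lit 0) .nil) .nil))) 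
(.lf (nat_lit 474092) (.g (nat_lit 3185) (.e (nat_lit 1235) (nat_lit 91) (.e (nat_lit 90170) (nat_lit 13) (.e (nat_lit 172106) (nat_lit 10) (.e (nat_lit 434231) (nat_lit 23) (.e (nat_lit 540416) (nat_lit 0) .nil))))) (.g (nat_lit 0) (.e (nat_lit 95261) (nat_lit 0) .nil) .nil)))))))) (.nd (nat_lit 5) (.nd (nat_lit 6) (.nd (nat_lit 7) (.nd (nat_lit 8) (.nd (nat_lit 9) 
(.lf (nat_lit 473116) (.g (nat_lit 2968) (.e (nat_lit 3469) (nat_lit 217) (.e (nat_lit 696344) (nat_lit 8) (.e (nat_lit 172116) (nat_lit 10) (.e (nat_lit 434289) (nat_lit 43) (.e (nat_lit 696346) (nat_lit 10) (.e (nat_lit 188435) (nat_lit 20) .nil)))))) (.g (nat_lit 1) (.e (nat_lit 92248) (nat_lit 0) .nil) .nil))) 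
(.lf (nat_lit 473628) (.g (nat_lit 1949) (.e (nat_lit 1159) (nat_lit 86) (.e (nat_lit 49188) (nat_lit 11) (.e (nat_lit 16466) (nat_lit 13) (.e (nat_lit 483350) (nat_lit 17) (.e (nat_lit 6212) (nat_lit 333) .nil))))) (.g (nat_lit 0) (.e (nat_lit 93883) (nat_lit 0) .nil) .nil)))) (.nd (nat_lit 9) 
(.lf (nat_lit 473372) (.g (nat_lit 2797) (.e (nat_lit 3502) (nat_lit 218) (.e (nat_lit 704738) (nat_lit 11) (.e (nat_lit 16425) (nat_lit 7) (.e (nat_lit 409649) (nat_lit 18) (.e (nat_lit 303140) (nat_lit 10) .nil))))) (.g (nat_lit 0) (.e (nat_lit 92647) (nat_lit 0) .nil) .nil))) 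
(.lf (nat_lit 473884) (.g (nat_lit 1893) (.e (nat_lit 1207) (nat_lit 89) (.e (nat_lit 73781) (nat_lit 32) (.e (nat_lit 2682) (nat_lit 168) (.e (nat_lit 204869) (nat_lit 29) (.e (nat_lit 368384) (nat_lit 0) .nil))))) (.g (nat_lit 0) (.e (nat_lit 94984) (nat_lit 0) .nil) .nil))))) (.nd (nat_lit 8) (.nd (nat_lit 9) 
(.lf (nat_lit 473244) (.g (nat_lit 2512) (.e (nat_lit 3471) (nat_lit 217) (.e (nat_lit 696344) (nat_lit 8) (.e (nat_lit 172079) (nat_lit 7) (.e (nat_lit 409645) (nat_lit 18) (.e (nat_lit 303133) (nat_lit 9) (.e (nat_lit 426042) (nat_lit 0) (.e (nat_lit 2427) (nat_lit 157) (.e (nat_lit 5968) (nat_lit 324) (.e (nat_lit 163844) (nat_lit 0) .nil))))))))) (.g (nat_lit 1) (.e (nat_lit 92480) (nat_lit 0) .nil) .nil))) 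
(.lf (nat_lit 473756) (.g (nat_lit 2884) (.e (nat_lit 1183) (nat_lit 87) (.e (nat_lit 57480) (nat_lit 28) (.e (nat_lit 557105) (nat_lit 14) (.e (nat_lit 180252) (nat_lit 10) (.e (nat_lit 573480) (nat_lit 13) .nil))))) (.g (nat_lit 0) (.e (nat_lit 94552) (nat_lit 0) .nil) .nil)))) (.nd (nat_lit 9) 
(.lf (nat_lit 473500) (.g (nat_lit 4203) (.e (nat_lit 982) (nat_lit 81) (.e (nat_lit 2342) (nat_lit 151) (.e (nat_lit 778466) (nat_lit 11) (.e (nat_lit 24617) (nat_lit 7) (.e (nat_lit 319534) (nat_lit 16) (.e (nat_lit 286756) (nat_lit 10) (.e (nat_lit 344160) (nat_lit 37) (.e (nat_lit 647195) (nat_lit 9) .nil)))))))) (.g (nat_lit 1) (.e (nat_lit 93109) (nat_lit 0) .nil) .nil))) 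
(.lf (nat_lit 474012) (.g (nat_lit 555) (.e (nat_lit 1232) (nat_lit 91) (.e (nat_lit 90170) (nat_lit 13) (.e (nat_lit 172095) (nat_lit 9) .nil))) (.g (nat_lit 0) (.e (nat_lit 95173) (nat_lit 0) .nil) .nil)))))) (.nd (nat_lit 7) (.nd (nat_lit 8) (.nd (nat_lit 9) 
(.lf (nat_lit 473180) (.g (nat_lit 2695) (.e (nat_lit 3471) (nat_lit 217) (.e (nat_lit 696343) (nat_lit 8) (.e (nat_lit 172082) (nat_lit 7) (.e (nat_lit 409646) (nat_lit 18) (.e (nat_lit 303139) (nat_lit 10) (.e (nat_lit 434203) (nat_lit 18) (.e (nat_lit 5964) (nat_lit 324) (.e (nat_lit 163844) (nat_lit 0) .nil)))))))) (.g (nat_lit 1) (.e (nat_lit 92415) (nat_lit 0) .nil) .nil))) 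
(.lf (nat_lit 473692) (.g (nat_lit 3173) (.e (nat_lit 1179) (nat_lit 87) (.e (nat_lit 57688) (nat_lit 156) (.e (nat_lit 163933) (nat_lit 17) (.e (nat_lit 466971) (nat_lit 21) (.e (nat_lit 164151) (nat_lit 152) (.e (nat_lit 2635) (nat_lit 165) (.e (nat_lit 180278) (nat_lit 32) .nil))))))) (.g (nat_lit 1) (.e (nat_lit 94255) (nat_lit 0) .nil) .nil)))) (.nd (nat_lit 9) 
(.lf (nat_lit 473436) (.g (nat_lit 3619) (.e (nat_lit 3555) (nat_lit 220) (.e (nat_lit 720956) (nat_lit 25) (.e (nat_lit 114715) (nat_lit 22) (.e (nat_lit 90134) (nat_lit 9) (.e (nat_lit 3098) (nat_lit 192) (.e (nat_lit 491571) (nat_lit 13) (.e (nat_lit 393232) (nat_lit 17) .nil))))))) (.g (nat_lit 1) (.e (nat_lit 92825) (nat_lit 0) .nil) .nil))) 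
(.lf (nat_lit 473948) (.g (nat_lit 1470) (.e (nat_lit 1211) (nat_lit 89) (.e (nat_lit 73782) (nat_lit 32) (.e (nat_lit 2856) (nat_lit 184) (.e (nat_lit 426546) (nat_lit 30) (.e (nat_lit 368384) (nat_lit 0) .nil))))) (.g (nat_lit 0) (.e (nat_lit 95070) (nat_lit 0) .nil) .nil))))) (.nd (nat_lit 8) (.nd (nat_lit 9) 
(.lf (nat_lit 473308) (.g (nat_lit 2146) (.e (nat_lit 3471) (nat_lit 217) (.e (nat_lit 696344) (nat_lit 8) (.e (nat_lit 172082) (nat_lit 7) (.e (nat_lit 409646) (nat_lit 18) (.e (nat_lit 303133) (nat_lit 9) (.e (nat_lit 426042) (nat_lit 0) (.e (nat_lit 2480) (nat_lit 157) (.e (nat_lit 5964) (nat_lit 324) (.e (nat_lit 163844) (nat_lit 0) .nil))))))))) (.g (nat_lit 1) (.e (nat_lit 92544) (nat_lit 0) .nil) .nil))) 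
(.lf (nat_lit 473820) (.g (nat_lit 2954) (.e (nat_lit 1188) (nat_lit 88) (.e (nat_lit 65630) (nat_lit 14) (.e (nat_lit 401437) (nat_lit 9) (.e (nat_lit 426555) (nat_lit 32) (.e (nat_lit 376856) (nat_lit 21) .nil))))) (.g (nat_lit 0) (.e (nat_lit 94777) (nat_lit 0) .nil) .nil)))) (.nd (nat_lit 9) 
(.lf (nat_lit 473564) (.g (nat_lit 2062) (.e (nat_lit 1077) (nat_lit 81) (.e (nat_lit 1796) (nat_lit 119) (.e (nat_lit 516185) (nat_lit 16) (.e (nat_lit 491552) (nat_lit 9) (.e (nat_lit 336022) (nat_lit 3) .nil))))) (.g (nat_lit 0) (.e (nat_lit 93462) (nat_lit 0) .nil) .nil))) 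
(.lf (nat_lit 474076) (.g (nat_lit 2924) (.e (nat_lit 1234) (nat_lit 91) (.e (nat_lit 90170) (nat_lit 13) (.e (nat_lit 172113) (nat_lit 10) (.e (nat_lit 434248) (nat_lit 28) (.e (nat_lit 573452) (nat_lit 9) (.e (nat_lit 430) (nat_lit 32) (.e (nat_lit 426012) (nat_lit 0) (.e (nat_lit 7545) (nat_lit 402) .nil)))))))) (.g (nat_lit 1) (.e (nat_lit 95243) (nat_lit 0) .nil) .nil))))))) 
(.nd (nat_lit 6) (.nd (nat_lit 7) (.nd (nat_lit 8) (.nd (nat_lit 9) 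
(.lf (nat_lit 473148) (.g (nat_lit 1774) (.e (nat_lit 3471) (nat_lit 217) (.e (nat_lit 696343) (nat_lit 8) (.e (nat_lit 172079) (nat_lit 7) (.e (nat_lit 409645) (nat_lit 18) (.e (nat_lit 303140) (nat_lit 10) (.e (nat_lit 434202) (nat_lit 18) (.e (nat_lit 5968) (nat_lit 324) (.e (nat_lit 163844) (nat_lit 0) .nil)))))))) (.g (nat_lit 1) (.e (nat_lit 92383) (nat_lit 0) .nil) .nil))) 
(.lf (nat_lit 473660) (.g (nat_lit 2439) (.e (nat_lit 1167) (nat_lit 86) (.e (nat_lit 49189) (nat_lit 11) (.e (nat_lit 16425) (nat_lit 7) (.e (nat_lit 409649) (nat_lit 18) (.e (nat_lit 303140) (nat_lit 10) (.e (nat_lit 434275) (nat_lit 39) (.e (nat_lit 671488) (nat_lit 14) .nil))))))) (.g (nat_lit 1) (.e (nat_lit 93991) (nat_lit 0) .nil) .nil)))) (.nd (nat_lit 9) 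
(.lf (nat_lit 473404) (.g (nat_lit 2463) (.e (nat_lit 3544) (nat_lit 219) (.e (nat_lit 712753) (nat_lit 30) (.e (nat_lit 450586) (nat_lit 10) (.e (nat_lit 573473) (nat_lit 12) (.e (nat_lit 57507) (nat_lit 39) (.e (nat_lit 647199) (nat_lit 11) (.e (nat_lit 16388) (nat_lit 0) .nil))))))) (.g (nat_lit 1) (.e (nat_lit 92780) (nat_lit 0) .nil) .nil))) 
(.lf (nat_lit 473916) (.g (nat_lit 1018) (.e (nat_lit 1209) (nat_lit 89) (.e (nat_lit 73782) (nat_lit 32) (.e (nat_lit 3089) (nat_lit 191) (.e (nat_lit 483386) (nat_lit 23) .nil)))) (.g (nat_lit 0) (.e (nat_lit 95032) (nat_lit 0) .nil) .nil))))) (.nd (nat_lit 8) (.nd (nat_lit 9) 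
(.lf (nat_lit 473276) (.g (nat_lit 3779) (.e (nat_lit 3471) (nat_lit 217) (.e (nat_lit 696344) (nat_lit 8) (.e (nat_lit 172079) (nat_lit 7) (.e (nat_lit 409645) (nat_lit 18) (.e (nat_lit 303137) (nat_lit 10) (.e (nat_lit 434275) (nat_lit 39) (.e (nat_lit 663580) (nat_lit 9) (.e (nat_lit 2416) (nat_lit 157) .nil)))))))) (.g (nat_lit 1) (.e (nat_lit 92512) (nat_lit 0) .nil) .nil))) 
(.lf (nat_lit 473788) (.g (nat_lit 4278) (.e (nat_lit 1183) (nat_lit 87) (.e (nat_lit 57575) (nat_lit 55) (.e (nat_lit 778466) (nat_lit 11) (.e (nat_lit 24617) (nat_lit 7) (.e (nat_lit 319533) (nat_lit 16) (.e (nat_lit 286753) (nat_lit 10) (.e (nat_lit 344088) (nat_lit 18) (.e (nat_lit 5456) (nat_lit 306) .nil)))))))) (.g (nat_lit 1) (.e (nat_lit 94622) (nat_lit 0) .nil) .nil)))) (.nd (nat_lit 9) 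
(.lf (nat_lit 473532) (.g (nat_lit 1409) (.e (nat_lit 1035) (nat_lit 81) (.e (nat_lit 2281) (nat_lit 150) (.e (nat_lit 770072) (nat_lit 8) (.e (nat_lit 65583) (nat_lit 7) .nil)))) (.g (nat_lit 0) (.e (nat_lit 93337) (nat_lit 0) .nil) .nil))) 
(.lf (nat_lit 474044) (.g (nat_lit 5081) (.e (nat_lit 1234) (nat_lit 91) (.e (nat_lit 90170) (nat_lit 13) (.e (nat_lit 172106) (nat_lit 10) (.e (nat_lit 434231) (nat_lit 23) (.e (nat_lit 532535) (nat_lit 9) (.e (nat_lit 336295) (nat_lit 15) (.e (nat_lit 2443) (nat_lit 157) (.e (nat_lit 6867) (nat_lit 371) (.e (nat_lit 1041) (nat_lit 81) .nil))))))))) (.g (nat_lit 1) (.e (nat_lit 95211) (nat_lit 0) .nil) .nil)))))) 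
(.nd (nat_lit 7) (.nd (nat_lit 8) (.nd (nat_lit 9) 
(.lf (nat_lit 473212) (.g (nat_lit 2875) (.e (nat_lit 3471) (nat_lit 217) (.e (nat_lit 696343) (nat_lit 8) (.e (nat_lit 172113) (nat_lit 10) (.e (nat_lit 434203) (nat_lit 18) (.e (nat_lit 6255) (nat_lit 337) (.e (nat_lit 2725) (nat_lit 172) (.e (nat_lit 237605) (nat_lit 9) (.e (nat_lit 425986) (nat_lit 0) .nil)))))))) (.g (nat_lit 1) (.e (nat_lit 92447) (nat_lit 0) .nil) .nil))) 
(.lf (nat_lit 473724) (.g (nat_lit 2844) (.e (nat_lit 1183) (nat_lit 87) (.e (nat_lit 57478) (nat_lit 28) (.e (nat_lit 557108) (nat_lit 15) (.e (nat_lit 188452) (nat_lit 23) (.e (nat_lit 212736) (nat_lit 26) .nil))))) (.g (nat_lit 0) (.e (nat_lit 94520) (nat_lit 0) .nil) .nil)))) (.nd (nat_lit 9) 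
(.lf (nat_lit 473468) (.g (nat_lit 2521) (.e (nat_lit 3579) (nat_lit 223) (.e (nat_lit 745476) (nat_lit 0) (.e (nat_lit 1239) (nat_lit 91) (.e (nat_lit 90174) (nat_lit 14) (.e (nat_lit 180251) (nat_lit 10) .nil))))) (.g (nat_lit 0) (.e (nat_lit 92926) (nat_lit 0) .nil) .nil))) 
(.lf (nat_lit 473980) (.g (nat_lit 1778) (.e (nat_lit 7936) (nat_lit 90) (.e (nat_lit 81947) (nat_lit 20) (.e (nat_lit 2281) (nat_lit 150) (.e (nat_lit 770072) (nat_lit 8) (.e (nat_lit 65610) (nat_lit 10) .nil))))) (.g (nat_lit 0) (.e (nat_lit 95132) (nat_lit 0) .nil) .nil))))) (.nd (nat_lit 8) (.nd (nat_lit 9) 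
(.lf (nat_lit 473340) (.g (nat_lit 3347) (.e (nat_lit 3471) (nat_lit 217) (.e (nat_lit 696344) (nat_lit 8) (.e (nat_lit 172082) (nat_lit 7) (.e (nat_lit 409649) (nat_lit 18) (.e (nat_lit 303140) (nat_lit 10) (.e (nat_lit 434202) (nat_lit 18) (.e (nat_lit 5968) (nat_lit 324) (.e (nat_lit 163844) (nat_lit 0) .nil)))))))) (.g (nat_lit 1) (.e (nat_lit 92576) (nat_lit 0) .nil) .nil))) 
(.lf (nat_lit 473852) (.g (nat_lit 1758) (.e (nat_lit 1199) (nat_lit 88) (.e (nat_lit 65628) (nat_lit 14) (.e (nat_lit 401437) (nat_lit 9) (.e (nat_lit 426546) (nat_lit 30) (.e (nat_lit 368384) (nat_lit 0) .nil))))) (.g (nat_lit 0) (.e (nat_lit 94832) (nat_lit 0) .nil) .nil)))) (.nd (nat_lit 9) 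
(.lf (nat_lit 473596) (.g (nat_lit 3034) (.e (nat_lit 1126) (nat_lit 83) (.e (nat_lit 16470) (nat_lit 14) (.e (nat_lit 491571) (nat_lit 13) (.e (nat_lit 393281) (nat_lit 23) .nil)))) (.g (nat_lit 0) (.e (nat_lit 93778) (nat_lit 0) .nil) .nil))) 
(.lf (nat_lit 474108) (.g (nat_lit 1907) (.e (nat_lit 1235) (nat_lit 91) (.e (nat_lit 90170) (nat_lit 13) (.e (nat_lit 172113) (nat_lit 10) (.e (nat_lit 434208) (nat_lit 18) (.e (nat_lit 3953) (nat_lit 239) (.e (nat_lit 2637) (nat_lit 165) (.e (nat_lit 180278) (nat_lit 32) .nil))))))) (.g (nat_lit 1) (.e (nat_lit 95277) (nat_lit 0) .nil) .nil))))))))))) 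
(.nd (nat_lit 2) (.nd (nat_lit 3) (.nd (nat_lit 4) (.nd (nat_lit 5) (.nd (nat_lit 6) 
(.nd (nat_lit 7) (.nd (nat_lit 8) (.nd (nat_lit 9) 
(.lf (nat_lit 473090) (.g (nat_lit 1735) (.e (nat_lit 3469) (nat_lit 217) (.e (nat_lit 696344) (nat_lit 8) (.e (nat_lit 172113) (nat_lit 10) (.e (nat_lit 434288) (nat_lit 43) (.e (nat_lit 696346) (nat_lit 10) .nil))))) (.g (nat_lit 0) (.e (nat_lit 92222) (nat_lit 0) .nil) .nil))) 
(.lf (nat_lit 473602) (.g (nat_lit 2631) (.e (nat_lit 1127) (nat_lit 83) (.e (nat_lit 16470) (nat_lit 14) (.e (nat_lit 491571) (nat_lit 13) (.e (nat_lit 393283) (nat_lit 24) .nil)))) (.g (nat_lit 0) (.e (nat_lit 93784) (nat_lit 0) .nil) .nil)))) (.nd (nat_lit 9) 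
(.lf (nat_lit 473346) (.g (nat_lit 2425) (.e (nat_lit 3471) (nat_lit 217) (.e (nat_lit 696344) (nat_lit 8) (.e (nat_lit 172106) (nat_lit 10) (.e (nat_lit 434288) (nat_lit 43) (.e (nat_lit 696348) (nat_lit 12) (.e (nat_lit 237605) (nat_lit 9) (.e (nat_lit 425986) (nat_lit 0) .nil))))))) (.g (nat_lit 1) (.e (nat_lit 92582) (nat_lit 0) .nil) .nil))) 
(.lf (nat_lit 473858) (.g (nat_lit 1154) (.e (nat_lit 1199) (nat_lit 88) (.e (nat_lit 65630) (nat_lit 14) (.e (nat_lit 401437) (nat_lit 9) (.e (nat_lit 426544) (nat_lit 30) .nil)))) (.g (nat_lit 0) (.e (nat_lit 94838) (nat_lit 0) .nil) .nil))))) (.nd (nat_lit 8) (.nd (nat_lit 9) 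
(.lf (nat_lit 473218) (.g (nat_lit 3000) (.e (nat_lit 3471) (nat_lit 217) (.e (nat_lit 696343) (nat_lit 8) (.e (nat_lit 172123) (nat_lit 13) (.e (nat_lit 483410) (nat_lit 27) (.e (nat_lit 401440) (nat_lit 9) (.e (nat_lit 426017) (nat_lit 0) .nil)))))) (.g (nat_lit 1) (.e (nat_lit 92453) (nat_lit 0) .nil) .nil))) 
(.lf (nat_lit 473730) (.g (nat_lit 2522) (.e (nat_lit 1183) (nat_lit 87) (.e (nat_lit 57478) (nat_lit 28) (.e (nat_lit 557109) (nat_lit 15) (.e (nat_lit 188452) (nat_lit 23) (.e (nat_lit 204850) (nat_lit 26) .nil))))) (.g (nat_lit 0) (.e (nat_lit 94526) (nat_lit 0) .nil) .nil)))) (.nd (nat_lit 9) 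
(.lf (nat_lit 473474) (.g (nat_lit 2391) (.e (nat_lit 3579) (nat_lit 223) (.e (nat_lit 745491) (nat_lit 4) (.e (nat_lit 65617) (nat_lit 10) (.e (nat_lit 344138) (nat_lit 29) (.e (nat_lit 581653) (nat_lit 6) (.e (nat_lit 188438) (nat_lit 20) .nil)))))) (.g (nat_lit 1) (.e (nat_lit 92933) (nat_lit 0) .nil) .nil))) 
(.lf (nat_lit 473986) (.g (nat_lit 2974) (.e (nat_lit 1225) (nat_lit 91) (.e (nat_lit 90170) (nat_lit 13) (.e (nat_lit 172106) (nat_lit 10) (.e (nat_lit 434231) (nat_lit 23) (.e (nat_lit 532525) (nat_lit 8) .nil))))) (.g (nat_lit 0) (.e (nat_lit 95139) (nat_lit 0) .nil) .nil)))))) (.nd (nat_lit 7) (.nd (nat_lit 8) (.nd (nat_lit 9) 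
(.lf (nat_lit 473154) (.g (nat_lit 3023) (.e (nat_lit 3471) (nat_lit 217) (.e (nat_lit 696343) (nat_lit 8) (.e (nat_lit 172082) (nat_lit 7) (.e (nat_lit 409646) (nat_lit 18) (.e (nat_lit 303133) (nat_lit 9) (.e (nat_lit 426042) (nat_lit 0) (.e (nat_lit 2427) (nat_lit 157) (.e (nat_lit 5966) (nat_lit 324) (.e (nat_lit 163844) (nat_lit 0) .nil))))))))) (.g (nat_lit 1) (.e (nat_lit 92389) (nat_lit 0) .nil) .nil))) 
(.lf (nat_lit 473666) (.g (nat_lit 3481) (.e (nat_lit 1171) (nat_lit 87) (.e (nat_lit 57572) (nat_lit 54) (.e (nat_lit 770072) (nat_lit 8) (.e (nat_lit 65586) (nat_lit 7) (.e (nat_lit 319531) (nat_lit 16) (.e (nat_lit 286748) (nat_lit 9) (.e (nat_lit 336295) (nat_lit 15) (.e (nat_lit 2443) (nat_lit 157) (.e (nat_lit 7660) (nat_lit 410) .nil))))))))) (.g (nat_lit 1) (.e (nat_lit 94067) (nat_lit 0) .nil) .nil)))) 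
(.nd (nat_lit 9) 
(.lf (nat_lit 473410) (.g (nat_lit 2037) (.e (nat_lit 3544) (nat_lit 219) (.e (nat_lit 712753) (nat_lit 30) (.e (nat_lit 450586) (nat_lit 10) (.e (nat_lit 573475) (nat_lit 12) (.e (nat_lit 57507) (nat_lit 39) .nil))))) (.g (nat_lit 0) (.e (nat_lit 92786) (nat_lit 0) .nil) .nil))) 
(.lf (nat_lit 473922) (.g (nat_lit 3309) (.e (nat_lit 1210) (nat_lit 89) (.e (nat_lit 73782) (nat_lit 32) (.e (nat_lit 2856) (nat_lit 184) (.e (nat_lit 426542) (nat_lit 29) (.e (nat_lit 352307) (nat_lit 21) (.e (nat_lit 57870) (nat_lit 264) .nil)))))) (.g (nat_lit 1) (.e (nat_lit 95039) (nat_lit 0) .nil) .nil))))) (.nd (nat_lit 8) (.nd (nat_lit 9) 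
(.lf (nat_lit 473282) (.g (nat_lit 2383) (.e (nat_lit 3471) (nat_lit 217) (.e (nat_lit 696344) (nat_lit 8) (.e (nat_lit 172079) (nat_lit 7) (.e (nat_lit 409645) (nat_lit 18) (.e (nat_lit 303139) (nat_lit 10) (.e (nat_lit 434208) (nat_lit 18) (.e (nat_lit 5966) (nat_lit 324) (.e (nat_lit 163844) (nat_lit 0) .nil)))))))) (.g (nat_lit 1) (.e (nat_lit 92518) (nat_lit 0) .nil) .nil))) 
(.lf (nat_lit 473794) (.g (nat_lit 2035) (.e (nat_lit 1183) (nat_lit 87) (.e (nat_lit 57575) (nat_lit 55) (.e (nat_lit 778466) (nat_lit 11) (.e (nat_lit 24617) (nat_lit 7) (.e (nat_lit 319534) (nat_lit 16) .nil))))) (.g (nat_lit 0) (.e (nat_lit 94628) (nat_lit 0) .nil) .nil)))) (.nd (nat_lit 9) 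
(.lf (nat_lit 473538) (.g (nat_lit 2908) (.e (nat_lit 1039) (nat_lit 81) (.e (nat_lit 2346) (nat_lit 151) (.e (nat_lit 778466) (nat_lit 11) (.e (nat_lit 24617) (nat_lit 7) (.e (nat_lit 319533) (nat_lit 16) (.e (nat_lit 286753) (nat_lit 10) (.e (nat_lit 344160) (nat_lit 37) (.e (nat_lit 647195) (nat_lit 9) .nil)))))))) (.g (nat_lit 1) (.e (nat_lit 93372) (nat_lit 0) .nil) .nil))) 
(.lf (nat_lit 474050) (.g (nat_lit 2420) (.e (nat_lit 1234) (nat_lit 91) (.e (nat_lit 90170) (nat_lit 13) (.e (nat_lit 172106) (nat_lit 10) (.e (nat_lit 434231) (nat_lit 23) (.e (nat_lit 532544) (nat_lit 10) .nil))))) (.g (nat_lit 0) (.e (nat_lit 95217) (nat_lit 0) .nil) .nil))))))) (.nd (nat_lit 6) (.nd (nat_lit 7) (.nd (nat_lit 8) (.nd (nat_lit 9) 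
(.lf (nat_lit 473122) (.g (nat_lit 1910) (.e (nat_lit 3469) (nat_lit 217) (.e (nat_lit 696344) (nat_lit 8) (.e (nat_lit 172123) (nat_lit 13) (.e (nat_lit 483410) (nat_lit 27) (.e (nat_lit 401440) (nat_lit 9) .nil))))) (.g (nat_lit 0) (.e (nat_lit 92254) (nat_lit 0) .nil) .nil))) 
(.lf (nat_lit 473634) (.g (nat_lit 951) (.e (nat_lit 1160) (nat_lit 86) (.e (nat_lit 49157) (nat_lit 0) (.e (nat_lit 3026) (nat_lit 187) (.e (nat_lit 450584) (nat_lit 9) .nil)))) (.g (nat_lit 0) (.e (nat_lit 93902) (nat_lit 0) .nil) .nil)))) (.nd (nat_lit 9) 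
(.lf (nat_lit 473378) (.g (nat_lit 2775) (.e (nat_lit 3526) (nat_lit 218) (.e (nat_lit 704738) (nat_lit 11) (.e (nat_lit 16425) (nat_lit 7) (.e (nat_lit 409649) (nat_lit 18) (.e (nat_lit 303140) (nat_lit 10) .nil))))) (.g (nat_lit 0) (.e (nat_lit 92657) (nat_lit 0) .nil) .nil))) 
(.lf (nat_lit 473890) (.g (nat_lit 2790) (.e (nat_lit 1209) (nat_lit 89) (.e (nat_lit 73781) (nat_lit 32) (.e (nat_lit 2856) (nat_lit 184) (.e (nat_lit 426555) (nat_lit 32) (.e (nat_lit 376856) (nat_lit 21) .nil))))) (.g (nat_lit 0) (.e (nat_lit 95006) (nat_lit 0) .nil) .nil))))) (.nd (nat_lit 8) (.nd (nat_lit 9) 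
(.lf (nat_lit 473250) (.g (nat_lit 2233) (.e (nat_lit 3471) (nat_lit 217) (.e (nat_lit 696344) (nat_lit 8) (.e (nat_lit 172079) (nat_lit 7) (.e (nat_lit 409645) (nat_lit 18) (.e (nat_lit 303133) (nat_lit 9) (.e (nat_lit 426042) (nat_lit 0) (.e (nat_lit 2446) (nat_lit 157) (.e (nat_lit 5964) (nat_lit 324) (.e (nat_lit 163844) (nat_lit 0) .nil))))))))) (.g (nat_lit 1) (.e (nat_lit 92486) (nat_lit 0) .nil) .nil))) 
(.lf (nat_lit 473762) (.g (nat_lit 2428) (.e (nat_lit 1183) (nat_lit 87) (.e (nat_lit 57480) (nat_lit 28) (.e (nat_lit 557107) (nat_lit 15) (.e (nat_lit 188452) (nat_lit 23) (.e (nat_lit 204855) (nat_lit 26) .nil))))) (.g (nat_lit 0) (.e (nat_lit 94558) (nat_lit 0) .nil) .nil)))) (.nd (nat_lit 9) 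
(.lf (nat_lit 473506) (.g (nat_lit 1259) (.e (nat_lit 991) (nat_lit 81) (.e (nat_lit 411) (nat_lit 32) (.e (nat_lit 426340) (nat_lit 14) (.e (nat_lit 491540) (nat_lit 3) .nil)))) (.g (nat_lit 0) (.e (nat_lit 93162) (nat_lit 0) .nil) .nil))) 
(.lf (nat_lit 474018) (.g (nat_lit 1782) (.e (nat_lit 1232) (nat_lit 91) (.e (nat_lit 90170) (nat_lit 13) (.e (nat_lit 172106) (nat_lit 10) (.e (nat_lit 434231) (nat_lit 23) (.e (nat_lit 532490) (nat_lit 0) .nil))))) (.g (nat_lit 0) (.e (nat_lit 95179) (nat_lit 0) .nil) .nil)))))) (.nd (nat_lit 7) (.nd (nat_lit 8) (.nd (nat_lit 9) 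
(.lf (nat_lit 473186) (.g (nat_lit 2266) (.e (nat_lit 3471) (nat_lit 217) (.e (nat_lit 696343) (nat_lit 8) (.e (nat_lit 172082) (nat_lit 7) (.e (nat_lit 409646) (nat_lit 18) (.e (nat_lit 303140) (nat_lit 10) (.e (nat_lit 434275) (nat_lit 39) (.e (nat_lit 663578) (nat_lit 9) (.e (nat_lit 2427) (nat_lit 157) .nil)))))))) (.g (nat_lit 1) (.e (nat_lit 92421) (nat_lit 0) .nil) .nil))) 
(.lf (nat_lit 473698) (.g (nat_lit 3891) (.e (nat_lit 1181) (nat_lit 87) (.e (nat_lit 57478) (nat_lit 28) (.e (nat_lit 557109) (nat_lit 15) (.e (nat_lit 188447) (nat_lit 22) (.e (nat_lit 196681) (nat_lit 17) .nil))))) (.g (nat_lit 0) (.e (nat_lit 94283) (nat_lit 0) .nil) .nil)))) (.nd (nat_lit 9) 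
(.lf (nat_lit 473442) (.g (nat_lit 520) (.e (nat_lit 3571) (nat_lit 222) (.e (nat_lit 737283) (nat_lit 0) (.e (nat_lit 5412) (nat_lit 303) (.e (nat_lit 73750) (nat_lit 6) (.e (nat_lit 540724) (nat_lit 28) (.e (nat_lit 442398) (nat_lit 20) .nil)))))) (.g (nat_lit 1) (.e (nat_lit 92857) (nat_lit 0) .nil) .nil))) 
(.lf (nat_lit 473954) (.g (nat_lit 3197) (.e (nat_lit 1212) (nat_lit 89) (.e (nat_lit 73747) (nat_lit 3) (.e (nat_lit 516165) (nat_lit 12) (.e (nat_lit 450588) (nat_lit 10) (.e (nat_lit 573475) (nat_lit 12) .nil))))) (.g (nat_lit 0) (.e (nat_lit 95077) (nat_lit 0) .nil) .nil))))) (.nd (nat_lit 8) (.nd (nat_lit 9) 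
(.lf (nat_lit 473314) (.g (nat_lit 2289) (.e (nat_lit 3471) (nat_lit 217) (.e (nat_lit 696344) (nat_lit 8) (.e (nat_lit 172082) (nat_lit 7) (.e (nat_lit 409646) (nat_lit 18) (.e (nat_lit 303135) (nat_lit 10) .nil))))) (.g (nat_lit 0) (.e (nat_lit 92550) (nat_lit 0) .nil) .nil))) 
(.lf (nat_lit 473826) (.g (nat_lit 1632) (.e (nat_lit 1189) (nat_lit 88) (.e (nat_lit 65630) (nat_lit 14) (.e (nat_lit 401438) (nat_lit 9) (.e (nat_lit 426544) (nat_lit 30) .nil)))) (.g (nat_lit 0) (.e (nat_lit 94785) (nat_lit 0) .nil) .nil)))) (.nd (nat_lit 9) 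
(.lf (nat_lit 473570) (.g (nat_lit 2626) (.e (nat_lit 7936) (nat_lit 81) (.e (nat_lit 2344) (nat_lit 151) (.e (nat_lit 778466) (nat_lit 11) (.e (nat_lit 24617) (nat_lit 7) (.e (nat_lit 319534) (nat_lit 16) .nil))))) (.g (nat_lit 0) (.e (nat_lit 93521) (nat_lit 0) .nil) .nil))) 
(.lf (nat_lit 474082) (.g (nat_lit 2812) (.e (nat_lit 1234) (nat_lit 91) (.e (nat_lit 90174) (nat_lit 14) (.e (nat_lit 180250) (nat_lit 10) (.e (nat_lit 573488) (nat_lit 14) (.e (nat_lit 73755) (nat_lit 8) .nil))))) (.g (nat_lit 0) (.e (nat_lit 95249) (nat_lit 0) .nil) .nil)))))))) (.nd (nat_lit 5) (.nd (nat_lit 6) (.nd (nat_lit 7) (.nd (nat_lit 8) (.nd (nat_lit 9) 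
(.lf (nat_lit 473106) (.g (nat_lit 3273) (.e (nat_lit 3469) (nat_lit 217) (.e (nat_lit 696344) (nat_lit 8) (.e (nat_lit 172115) (nat_lit 10) (.e (nat_lit 434209) (nat_lit 18) (.e (nat_lit 6425) (nat_lit 342) (.e (nat_lit 229412) (nat_lit 14) (.e (nat_lit 442408) (nat_lit 20) .nil))))))) (.g (nat_lit 1) (.e (nat_lit 92238) (nat_lit 0) .nil) .nil))) 
(.lf (nat_lit 473618) (.g (nat_lit 3321) (.e (nat_lit 1157) (nat_lit 86) (.e (nat_lit 49188) (nat_lit 11) (.e (nat_lit 16416) (nat_lit 3) (.e (nat_lit 204868) (nat_lit 29) (.e (nat_lit 360475) (nat_lit 8) .nil))))) (.g (nat_lit 0) (.e (nat_lit 93866) (nat_lit 0) .nil) .nil)))) (.nd (nat_lit 9) 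
(.lf (nat_lit 473362) (.g (nat_lit 5254) (.e (nat_lit 3497) (nat_lit 218) (.e (nat_lit 704738) (nat_lit 11) (.e (nat_lit 16425) (nat_lit 7) (.e (nat_lit 409649) (nat_lit 18) (.e (nat_lit 303140) (nat_lit 10) (.e (nat_lit 434275) (nat_lit 39) (.e (nat_lit 663574) (nat_lit 9) (.e (nat_lit 2418) (nat_lit 157) .nil)))))))) (.g (nat_lit 1) (.e (nat_lit 92636) (nat_lit 0) .nil) .nil))) 
(.lf (nat_lit 473874) (.g (nat_lit 1646) (.e (nat_lit 1201) (nat_lit 88) (.e (nat_lit 65569) (nat_lit 3) (.e (nat_lit 98367) (nat_lit 27) (.e (nat_lit 434256) (nat_lit 31) .nil)))) (.g (nat_lit 0) (.e (nat_lit 94874) (nat_lit 0) .nil) .nil))))) (.nd (nat_lit 8) (.nd (nat_lit 9) 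
(.lf (nat_lit 473234) (.g (nat_lit 888) (.e (nat_lit 3471) (nat_lit 217) (.e (nat_lit 696344) (nat_lit 8) (.e (nat_lit 172076) (nat_lit 6) (.e (nat_lit 261888) (nat_lit 0) .nil)))) (.g (nat_lit 0) (.e (nat_lit 92469) (nat_lit 0) .nil) .nil))) 
(.lf (nat_lit 473746) (.g (nat_lit 2575) (.e (nat_lit 1183) (nat_lit 87) (.e (nat_lit 57479) (nat_lit 28) (.e (nat_lit 557105) (nat_lit 14) (.e (nat_lit 180252) (nat_lit 10) (.e (nat_lit 573482) (nat_lit 13) .nil))))) (.g (nat_lit 0) (.e (nat_lit 94542) (nat_lit 0) .nil) .nil)))) (.nd (nat_lit 9) 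
(.lf (nat_lit 473490) (.g (nat_lit 3097) (.e (nat_lit 970) (nat_lit 81) (.e (nat_lit 2332) (nat_lit 151) (.e (nat_lit 778466) (nat_lit 11) (.e (nat_lit 24617) (nat_lit 7) (.e (nat_lit 319534) (nat_lit 16) .nil))))) (.g (nat_lit 0) (.e (nat_lit 93024) (nat_lit 0) .nil) .nil))) 
(.lf (nat_lit 474002) (.g (nat_lit 2111) (.e (nat_lit 1228) (nat_lit 91) (.e (nat_lit 90158) (nat_lit 11) (.e (nat_lit 24628) (nat_lit 9) (.e (nat_lit 336019) (nat_lit 3) (.e (nat_lit 98384) (nat_lit 32) .nil))))) (.g (nat_lit 0) (.e (nat_lit 95156) (nat_lit 0) .nil) .nil)))))) (.nd (nat_lit 7) (.nd (nat_lit 8) (.nd (nat_lit 9) 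
(.lf (nat_lit 473170) (.g (nat_lit 1912) (.e (nat_lit 3471) (nat_lit 217) (.e (nat_lit 696343) (nat_lit 8) (.e (nat_lit 172082) (nat_lit 7) (.e (nat_lit 409646) (nat_lit 18) (.e (nat_lit 303133) (nat_lit 9) (.e (nat_lit 426043) (nat_lit 0) (.e (nat_lit 2447) (nat_lit 157) (.e (nat_lit 5965) (nat_lit 324) (.e (nat_lit 163844) (nat_lit 0) .nil))))))))) (.g (nat_lit 1) (.e (nat_lit 92405) (nat_lit 0) .nil) .nil))) 
(.lf (nat_lit 473682) (.g (nat_lit 3305) (.e (nat_lit 1177) (nat_lit 87) (.e (nat_lit 57479) (nat_lit 28) (.e (nat_lit 557105) (nat_lit 14) (.e (nat_lit 180251) (nat_lit 10) (.e (nat_lit 573487) (nat_lit 14) .nil))))) (.g (nat_lit 0) (.e (nat_lit 94189) (nat_lit 0) .nil) .nil)))) (.nd (nat_lit 9) 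
(.lf (nat_lit 473426) (.g (nat_lit 1724) (.e (nat_lit 3548) (nat_lit 219) (.e (nat_lit 712753) (nat_lit 30) (.e (nat_lit 450586) (nat_lit 10) (.e (nat_lit 573473) (nat_lit 12) (.e (nat_lit 57511) (nat_lit 39) .nil))))) (.g (nat_lit 0) (.e (nat_lit 92805) (nat_lit 0) .nil) .nil))) 
(.lf (nat_lit 473938) (.g (nat_lit 1159) (.e (nat_lit 1211) (nat_lit 89) (.e (nat_lit 73781) (nat_lit 32) (.e (nat_lit 3090) (nat_lit 191) (.e (nat_lit 483395) (nat_lit 24) .nil)))) (.g (nat_lit 0) (.e (nat_lit 95060) (nat_lit 0) .nil) .nil))))) (.nd (nat_lit 8) (.nd (nat_lit 9) 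
(.lf (nat_lit 473298) (.g (nat_lit 2778) (.e (nat_lit 3471) (nat_lit 217) (.e (nat_lit 696344) (nat_lit 8) (.e (nat_lit 172082) (nat_lit 7) (.e (nat_lit 409646) (nat_lit 18) (.e (nat_lit 303133) (nat_lit 9) (.e (nat_lit 426042) (nat_lit 0) (.e (nat_lit 2428) (nat_lit 157) (.e (nat_lit 5965) (nat_lit 324) (.e (nat_lit 163844) (nat_lit 0) .nil))))))))) (.g (nat_lit 1) (.e (nat_lit 92534) (nat_lit 0) .nil) .nil))) 
(.lf (nat_lit 473810) (.g (nat_lit 3698) (.e (nat_lit 1183) (nat_lit 87) (.e (nat_lit 57575) (nat_lit 55) (.e (nat_lit 778466) (nat_lit 11) (.e (nat_lit 24617) (nat_lit 7) (.e (nat_lit 319534) (nat_lit 16) (.e (nat_lit 286756) (nat_lit 10) (.e (nat_lit 344102) (nat_lit 18) (.e (nat_lit 5454) (nat_lit 306) .nil)))))))) (.g (nat_lit 1) (.e (nat_lit 94645) (nat_lit 0) .nil) .nil)))) (.nd (nat_lit 9) 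
(.lf (nat_lit 473554) (.g (nat_lit 1047) (.e (nat_lit 1074) (nat_lit 81) (.e (nat_lit 1454) (nat_lit 108) (.e (nat_lit 336205) (nat_lit 12) (.e (nat_lit 385103) (nat_lit 50) .nil)))) (.g (nat_lit 0) (.e (nat_lit 93435) (nat_lit 0) .nil) .nil))) 
(.lf (nat_lit 474066) (.g (nat_lit 2633) (.e (nat_lit 1234) (nat_lit 91) (.e (nat_lit 90170) (nat_lit 13) (.e (nat_lit 172113) (nat_lit 10) (.e (nat_lit 434245) (nat_lit 28) (.e (nat_lit 573451) (nat_lit 9) (.e (nat_lit 430) (nat_lit 32) (.e (nat_lit 426011) (nat_lit 0) (.e (nat_lit 7500) (nat_lit 402) .nil)))))))) (.g (nat_lit 1) (.e (nat_lit 95233) (nat_lit 0) .nil) .nil))))))) 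
(.nd (nat_lit 6) (.nd (nat_lit 7) (.nd (nat_lit 8) (.nd (nat_lit 9) 
(.lf (nat_lit 473138) (.g (nat_lit 2025) (.e (nat_lit 3471) (nat_lit 217) (.e (nat_lit 696343) (nat_lit 8) (.e (nat_lit 172079) (nat_lit 7) (.e (nat_lit 409645) (nat_lit 18) (.e (nat_lit 303133) (nat_lit 9) (.e (nat_lit 426146) (nat_lit 4) (.e (nat_lit 229710) (nat_lit 258) (.e (nat_lit 163844) (nat_lit 0) .nil)))))))) (.g (nat_lit 1) (.e (nat_lit 92373) (nat_lit 0) .nil) .nil))) 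
(.lf (nat_lit 473650) (.g (nat_lit 943) (.e (nat_lit 1163) (nat_lit 86) (.e (nat_lit 49157) (nat_lit 0) (.e (nat_lit 3012) (nat_lit 187) (.e (nat_lit 450584) (nat_lit 9) (.e (nat_lit 565268) (nat_lit 5) (.e (nat_lit 73788) (nat_lit 45) .nil)))))) (.g (nat_lit 1) (.e (nat_lit 93969) (nat_lit 0) .nil) .nil)))) (.nd (nat_lit 9) 
(.lf (nat_lit 473394) (.g (nat_lit 3706) (.e (nat_lit 3543) (nat_lit 219) (.e (nat_lit 712755) (nat_lit 30) (.e (nat_lit 450587) (nat_lit 10) (.e (nat_lit 573475) (nat_lit 12) (.e (nat_lit 57503) (nat_lit 38) (.e (nat_lit 638998) (nat_lit 8) (.e (nat_lit 172036) (nat_lit 0) .nil))))))) (.g (nat_lit 1) (.e (nat_lit 92770) (nat_lit 0) .nil) .nil))) 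
(.lf (nat_lit 473906) (.g (nat_lit 2723) (.e (nat_lit 1209) (nat_lit 89) (.e (nat_lit 73782) (nat_lit 32) (.e (nat_lit 2856) (nat_lit 184) (.e (nat_lit 426538) (nat_lit 29) (.e (nat_lit 352309) (nat_lit 21) (.e (nat_lit 57872) (nat_lit 264) .nil)))))) (.g (nat_lit 1) (.e (nat_lit 95022) (nat_lit 0) .nil) .nil))))) (.nd (nat_lit 8) (.nd (nat_lit 9) 
(.lf (nat_lit 473266) (.g (nat_lit 1852) (.e (nat_lit 3471) (nat_lit 217) (.e (nat_lit 696344) (nat_lit 8) (.e (nat_lit 172079) (nat_lit 7) (.e (nat_lit 409645) (nat_lit 18) (.e (nat_lit 303135) (nat_lit 10) .nil))))) (.g (nat_lit 0) (.e (nat_lit 92502) (nat_lit 0) .nil) .nil))) 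
(.lf (nat_lit 473778) (.g (nat_lit 3879) (.e (nat_lit 1183) (nat_lit 87) (.e (nat_lit 57480) (nat_lit 28) (.e (nat_lit 557109) (nat_lit 15) (.e (nat_lit 188452) (nat_lit 23) (.e (nat_lit 204857) (nat_lit 26) .nil))))) (.g (nat_lit 0) (.e (nat_lit 94574) (nat_lit 0) .nil) .nil)))) (.nd (nat_lit 9) 
(.lf (nat_lit 473522) (.g (nat_lit 1337) (.e (nat_lit 1023) (nat_lit 81) (.e (nat_lit 5905) (nat_lit 320) (.e (nat_lit 1211) (nat_lit 89) (.e (nat_lit 73781) (nat_lit 32) (.e (nat_lit 2856) (nat_lit 184) .nil))))) (.g (nat_lit 0) (.e (nat_lit 93307) (nat_lit 0) .nil) .nil))) 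
(.lf (nat_lit 474034) (.g (nat_lit 2409) (.e (nat_lit 1232) (nat_lit 91) (.e (nat_lit 90170) (nat_lit 13) (.e (nat_lit 172113) (nat_lit 10) (.e (nat_lit 434248) (nat_lit 28) (.e (nat_lit 573455) (nat_lit 9) (.e (nat_lit 359) (nat_lit 30) (.e (nat_lit 409603) (nat_lit 0) (.e (nat_lit 5293) (nat_lit 298) .nil)))))))) (.g (nat_lit 1) (.e (nat_lit 95195) (nat_lit 0) .nil) .nil)))))) 
(.nd (nat_lit 7) (.nd (nat_lit 8) (.nd (nat_lit 9) 
(.lf (nat_lit 473202) (.g (nat_lit 2856) (.e (nat_lit 3471) (nat_lit 217) (.e (nat_lit 696343) (nat_lit 8) (.e (nat_lit 172082) (nat_lit 7) (.e (nat_lit 409649) (nat_lit 18) (.e (nat_lit 303140) (nat_lit 10) (.e (nat_lit 434275) (nat_lit 39) (.e (nat_lit 663579) (nat_lit 9) (.e (nat_lit 2429) (nat_lit 157) .nil)))))))) (.g (nat_lit 1) (.e (nat_lit 92437) (nat_lit 0) .nil) .nil))) 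
(.lf (nat_lit 473714) (.g (nat_lit 2233) (.e (nat_lit 1182) (nat_lit 87) (.e (nat_lit 57931) (nat_lit 282) (.e (nat_lit 163874) (nat_lit 3) (.e (nat_lit 204864) (nat_lit 27) .nil)))) (.g (nat_lit 0) (.e (nat_lit 94507) (nat_lit 0) .nil) .nil)))) (.nd (nat_lit 9) 
(.lf (nat_lit 473458) (.g (nat_lit 404) (.e (nat_lit 3578) (nat_lit 223) (.e (nat_lit 745476) (nat_lit 0) (.e (nat_lit 1562) (nat_lit 110) .nil))) (.g (nat_lit 0) (.e (nat_lit 92910) (nat_lit 0) .nil) .nil))) 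
(.lf (nat_lit 473970) (.g (nat_lit 696) (.e (nat_lit 1221) (nat_lit 90) (.e (nat_lit 81959) (nat_lit 24) (.e (nat_lit 123018) (nat_lit 122) .nil))) (.g (nat_lit 0) (.e (nat_lit 95114) (nat_lit 0) .nil) .nil))))) (.nd (nat_lit 8) (.nd (nat_lit 9) 
(.lf (nat_lit 473330) (.g (nat_lit 4023) (.e (nat_lit 3471) (nat_lit 217) (.e (nat_lit 696344) (nat_lit 8) (.e (nat_lit 172082) (nat_lit 7) (.e (nat_lit 409646) (nat_lit 18) (.e (nat_lit 303140) (nat_lit 10) (.e (nat_lit 434202) (nat_lit 18) (.e (nat_lit 5968) (nat_lit 324) (.e (nat_lit 163844) (nat_lit 0) .nil)))))))) (.g (nat_lit 1) (.e (nat_lit 92566) (nat_lit 0) .nil) .nil))) 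
(.lf (nat_lit 473842) (.g (nat_lit 2260) (.e (nat_lit 1193) (nat_lit 88) (.e (nat_lit 65566) (nat_lit 2) (.e (nat_lit 90170) (nat_lit 13) (.e (nat_lit 172113) (nat_lit 10) (.e (nat_lit 434248) (nat_lit 28) .nil))))) (.g (nat_lit 0) (.e (nat_lit 94812) (nat_lit 0) .nil) .nil)))) (.nd (nat_lit 9) 
(.lf (nat_lit 473586) (.g (nat_lit 3099) (.e (nat_lit 1124) (nat_lit 83) (.e (nat_lit 16466) (nat_lit 13) (.e (nat_lit 483413) (nat_lit 27) (.e (nat_lit 401448) (nat_lit 10) (.e (nat_lit 434199) (nat_lit 18) .nil))))) (.g (nat_lit 0) (.e (nat_lit 93760) (nat_lit 0) .nil) .nil))) 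
(.lf (nat_lit 474098) (.g (nat_lit 2123) (.e (nat_lit 1235) (nat_lit 91) (.e (nat_lit 90170) (nat_lit 13) (.e (nat_lit 172106) (nat_lit 10) (.e (nat_lit 434238) (nat_lit 25) (.e (nat_lit 548913) (nat_lit 18) .nil))))) (.g (nat_lit 0) (.e (nat_lit 95267) (nat_lit 0) .nil) .nil))))))))) (.nd (nat_lit 4) (.nd (nat_lit 5) (.nd (nat_lit 6) (.nd (nat_lit 7) (.nd (nat_lit 8) (.nd (nat_lit 9) 
(.lf (nat_lit 473098) (.g (nat_lit 2329) (.e (nat_lit 3469) (nat_lit 217) (.e (nat_lit 696344) (nat_lit 8) (.e (nat_lit 172115) (nat_lit 10) (.e (nat_lit 434202) (nat_lit 18) (.e (nat_lit 6252) (nat_lit 337) (.e (nat_lit 7936) (nat_lit 166) (.e (nat_lit 188441) (nat_lit 20) .nil))))))) (.g (nat_lit 1) (.e (nat_lit 92230) (nat_lit 0) .nil) .nil))) 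
(.lf (nat_lit 473610) (.g (nat_lit 1540) (.e (nat_lit 1129) (nat_lit 83) (.e (nat_lit 16466) (nat_lit 13) (.e (nat_lit 483413) (nat_lit 27) .nil))) (.g (nat_lit 0) (.e (nat_lit 93794) (nat_lit 0) .nil) .nil)))) (.nd (nat_lit 9) 
(.lf (nat_lit 473354) (.g (nat_lit 3207) (.e (nat_lit 3471) (nat_lit 217) (.e (nat_lit 696344) (nat_lit 8) (.e (nat_lit 172125) (nat_lit 14) (.e (nat_lit 491566) (nat_lit 12) (.e (nat_lit 385107) (nat_lit 51) .nil))))) (.g (nat_lit 0) (.e (nat_lit 92590) (nat_lit 0) .nil) .nil))) 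
(.lf (nat_lit 473866) (.g (nat_lit 2298) (.e (nat_lit 1200) (nat_lit 88) (.e (nat_lit 65630) (nat_lit 14) (.e (nat_lit 401428) (nat_lit 3) (.e (nat_lit 204869) (nat_lit 29) (.e (nat_lit 368384) (nat_lit 0) .nil))))) (.g (nat_lit 0) (.e (nat_lit 94866) (nat_lit 0) .nil) .nil))))) (.nd (nat_lit 8) (.nd (nat_lit 9) 
(.lf (nat_lit 473226) (.g (nat_lit 4082) (.e (nat_lit 3471) (nat_lit 217) (.e (nat_lit 696344) (nat_lit 8) (.e (nat_lit 172064) (nat_lit 2) (.e (nat_lit 196666) (nat_lit 13) (.e (nat_lit 65610) (nat_lit 10) (.e (nat_lit 344129) (nat_lit 26) (.e (nat_lit 557065) (nat_lit 9) (.e (nat_lit 2399) (nat_lit 157) .nil)))))))) (.g (nat_lit 1) (.e (nat_lit 92461) (nat_lit 0) .nil) .nil))) 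
(.lf (nat_lit 473738) (.g (nat_lit 801) (.e (nat_lit 1183) (nat_lit 87) (.e (nat_lit 57479) (nat_lit 28) (.e (nat_lit 557103) (nat_lit 14) .nil))) (.g (nat_lit 0) (.e (nat_lit 94534) (nat_lit 0) .nil) .nil)))) (.nd (nat_lit 9) 
(.lf (nat_lit 473482) (.g (nat_lit 1960) (.e (nat_lit 3579) (nat_lit 223) (.e (nat_lit 745509) (nat_lit 11) (.e (nat_lit 24660) (nat_lit 13) (.e (nat_lit 393260) (nat_lit 21) (.e (nat_lit 409648) (nat_lit 18) (.e (nat_lit 303104) (nat_lit 0) .nil)))))) (.g (nat_lit 1) (.e (nat_lit 92944) (nat_lit 0) .nil) .nil))) 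
(.lf (nat_lit 473994) (.g (nat_lit 1293) (.e (nat_lit 1225) (nat_lit 91) (.e (nat_lit 90176) (nat_lit 15) (.e (nat_lit 188450) (nat_lit 23) (.e (nat_lit 204849) (nat_lit 25) .nil)))) (.g (nat_lit 0) (.e (nat_lit 95147) (nat_lit 0) .nil) .nil)))))) (.nd (nat_lit 7) (.nd (nat_lit 8) (.nd (nat_lit 9) 
(.lf (nat_lit 473162) (.g (nat_lit 2317) (.e (nat_lit 3471) (nat_lit 217) (.e (nat_lit 696343) (nat_lit 8) (.e (nat_lit 172082) (nat_lit 7) (.e (nat_lit 409646) (nat_lit 18) (.e (nat_lit 303133) (nat_lit 9) (.e (nat_lit 426042) (nat_lit 0) (.e (nat_lit 2448) (nat_lit 157) (.e (nat_lit 5968) (nat_lit 324) (.e (nat_lit 163844) (nat_lit 0) .nil))))))))) (.g (nat_lit 1) (.e (nat_lit 92397) (nat_lit 0) .nil) .nil))) 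
(.lf (nat_lit 473674) (.g (nat_lit 2301) (.e (nat_lit 1175) (nat_lit 87) (.e (nat_lit 57478) (nat_lit 28) (.e (nat_lit 557109) (nat_lit 15) (.e (nat_lit 188449) (nat_lit 22) (.e (nat_lit 196666) (nat_lit 13) .nil))))) (.g (nat_lit 0) (.e (nat_lit 94149) (nat_lit 0) .nil) .nil)))) (.nd (nat_lit 9) 
(.lf (nat_lit 473418) (.g (nat_lit 1722) (.e (nat_lit 3545) (nat_lit 219) (.e (nat_lit 712753) (nat_lit 30) (.e (nat_lit 450586) (nat_lit 10) (.e (nat_lit 573473) (nat_lit 12) (.e (nat_lit 57511) (nat_lit 39) .nil))))) (.g (nat_lit 0) (.e (nat_lit 92794) (nat_lit 0) .nil) .nil))) 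
(.lf (nat_lit 473930) (.g (nat_lit 1511) (.e (nat_lit 1210) (nat_lit 89) (.e (nat_lit 73782) (nat_lit 32) (.e (nat_lit 3089) (nat_lit 191) (.e (nat_lit 483383) (nat_lit 23) (.e (nat_lit 336000) (nat_lit 1) .nil))))) (.g (nat_lit 0) (.e (nat_lit 95047) (nat_lit 0) .nil) .nil))))) (.nd (nat_lit 8) (.nd (nat_lit 9) 
(.lf (nat_lit 473290) (.g (nat_lit 2825) (.e (nat_lit 3471) (nat_lit 217) (.e (nat_lit 696344) (nat_lit 8) (.e (nat_lit 172079) (nat_lit 7) (.e (nat_lit 409649) (nat_lit 18) (.e (nat_lit 303140) (nat_lit 10) (.e (nat_lit 434202) (nat_lit 18) (.e (nat_lit 5968) (nat_lit 324) (.e (nat_lit 163844) (nat_lit 0) .nil)))))))) (.g (nat_lit 1) (.e (nat_lit 92526) (nat_lit 0) .nil) .nil))) 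
(.lf (nat_lit 473802) (.g (nat_lit 4047) (.e (nat_lit 1183) (nat_lit 87) (.e (nat_lit 57575) (nat_lit 55) (.e (nat_lit 778466) (nat_lit 11) (.e (nat_lit 24617) (nat_lit 7) (.e (nat_lit 319534) (nat_lit 16) (.e (nat_lit 286756) (nat_lit 10) (.e (nat_lit 344088) (nat_lit 18) (.e (nat_lit 5441) (nat_lit 306) .nil)))))))) (.g (nat_lit 1) (.e (nat_lit 94637) (nat_lit 0) .nil) .nil)))) (.nd (nat_lit 9) 
(.lf (nat_lit 473546) (.g (nat_lit 4565) (.e (nat_lit 1042) (nat_lit 81) (.e (nat_lit 2342) (nat_lit 151) (.e (nat_lit 778466) (nat_lit 11) (.e (nat_lit 24617) (nat_lit 7) (.e (nat_lit 319534) (nat_lit 16) (.e (nat_lit 286756) (nat_lit 10) (.e (nat_lit 344160) (nat_lit 37) (.e (nat_lit 647195) (nat_lit 9) .nil)))))))) (.g (nat_lit 1) (.e (nat_lit 93397) (nat_lit 0) .nil) .nil))) 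
(.lf (nat_lit 474058) (.g (nat_lit 1999) (.e (nat_lit 1234) (nat_lit 91) (.e (nat_lit 90170) (nat_lit 13) (.e (nat_lit 172113) (nat_lit 10) (.e (nat_lit 434245) (nat_lit 28) (.e (nat_lit 573449) (nat_lit 9) (.e (nat_lit 442) (nat_lit 33) (.e (nat_lit 434180) (nat_lit 0) .nil))))))) (.g (nat_lit 1) (.e (nat_lit 95225) (nat_lit 0) .nil) .nil))))))) 
(.nd (nat_lit 6) (.nd (nat_lit 7) (.nd (nat_lit 8) (.nd (nat_lit 9) 
(.lf (nat_lit 473130) (.g (nat_lit 3334) (.e (nat_lit 3471) (nat_lit 217) (.e (nat_lit 696343) (nat_lit 8) (.e (nat_lit 172064) (nat_lit 2) (.e (nat_lit 196666) (nat_lit 13) (.e (nat_lit 65610) (nat_lit 10) (.e (nat_lit 344129) (nat_lit 26) (.e (nat_lit 557066) (nat_lit 9) (.e (nat_lit 2399) (nat_lit 157) .nil)))))))) (.g (nat_lit 1) (.e (nat_lit 92365) (nat_lit 0) .nil) .nil))) 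
(.lf (nat_lit 473642) (.g (nat_lit 1237) (.e (nat_lit 1162) (nat_lit 86) (.e (nat_lit 49157) (nat_lit 0) (.e (nat_lit 3020) (nat_lit 187) (.e (nat_lit 450584) (nat_lit 9) (.e (nat_lit 565268) (nat_lit 5) (.e (nat_lit 73789) (nat_lit 45) .nil)))))) (.g (nat_lit 1) (.e (nat_lit 93935) (nat_lit 0) .nil) .nil)))) (.nd (nat_lit 9) 
(.lf (nat_lit 473386) (.g (nat_lit 4236) (.e (nat_lit 3537) (nat_lit 218) (.e (nat_lit 704726) (nat_lit 10) (.e (nat_lit 8234) (nat_lit 20) (.e (nat_lit 573489) (nat_lit 14) (.e (nat_lit 73755) (nat_lit 8) (.e (nat_lit 557104) (nat_lit 14) (.e (nat_lit 188160) (nat_lit 3) (.e (nat_lit 516106) (nat_lit 0) .nil)))))))) (.g (nat_lit 1) (.e (nat_lit 92705) (nat_lit 0) .nil) .nil))) 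
(.lf (nat_lit 473898) (.g (nat_lit 1360) (.e (nat_lit 1209) (nat_lit 89) (.e (nat_lit 73781) (nat_lit 32) (.e (nat_lit 3090) (nat_lit 191) (.e (nat_lit 483381) (nat_lit 23) .nil)))) (.g (nat_lit 0) (.e (nat_lit 95014) (nat_lit 0) .nil) .nil))))) (.nd (nat_lit 8) (.nd (nat_lit 9) 
(.lf (nat_lit 473258) (.g (nat_lit 2240) (.e (nat_lit 3471) (nat_lit 217) (.e (nat_lit 696344) (nat_lit 8) (.e (nat_lit 172079) (nat_lit 7) (.e (nat_lit 409645) (nat_lit 18) (.e (nat_lit 303133) (nat_lit 9) (.e (nat_lit 426042) (nat_lit 0) (.e (nat_lit 2449) (nat_lit 157) (.e (nat_lit 5964) (nat_lit 324) (.e (nat_lit 163844) (nat_lit 0) .nil))))))))) (.g (nat_lit 1) (.e (nat_lit 92494) (nat_lit 0) .nil) .nil))) 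
(.lf (nat_lit 473770) (.g (nat_lit 3787) (.e (nat_lit 1183) (nat_lit 87) (.e (nat_lit 57480) (nat_lit 28) (.e (nat_lit 557109) (nat_lit 15) (.e (nat_lit 188447) (nat_lit 22) (.e (nat_lit 196663) (nat_lit 13) .nil))))) (.g (nat_lit 0) (.e (nat_lit 94566) (nat_lit 0) .nil) .nil)))) (.nd (nat_lit 9) 
(.lf (nat_lit 473514) (.g (nat_lit 2728) (.e (nat_lit 1011) (nat_lit 81) (.e (nat_lit 1239) (nat_lit 91) (.e (nat_lit 90170) (nat_lit 13) (.e (nat_lit 172106) (nat_lit 10) (.e (nat_lit 434231) (nat_lit 23) (.e (nat_lit 532535) (nat_lit 9) (.e (nat_lit 336295) (nat_lit 15) (.e (nat_lit 2443) (nat_lit 157) (.e (nat_lit 6867) (nat_lit 371) .nil))))))))) (.g (nat_lit 1) (.e (nat_lit 93254) (nat_lit 0) .nil) .nil))) 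
(.lf (nat_lit 474026) (.g (nat_lit 2331) (.e (nat_lit 1232) (nat_lit 91) (.e (nat_lit 90170) (nat_lit 13) (.e (nat_lit 172106) (nat_lit 10) (.e (nat_lit 434244) (nat_lit 28) (.e (nat_lit 573458) (nat_lit 9) (.e (nat_lit 7936) (nat_lit 30) (.e (nat_lit 409603) (nat_lit 0) (.e (nat_lit 5293) (nat_lit 298) .nil)))))))) (.g (nat_lit 1) (.e (nat_lit 95187) (nat_lit 0) .nil) .nil)))))) 
(.nd (nat_lit 7) (.nd (nat_lit 8) (.nd (nat_lit 9) 
(.lf (nat_lit 473194) (.g (nat_lit 4223) (.e (nat_lit 3471) (nat_lit 217) (.e (nat_lit 696343) (nat_lit 8) (.e (nat_lit 172082) (nat_lit 7) (.e (nat_lit 409649) (nat_lit 18) (.e (nat_lit 303140) (nat_lit 10) (.e (nat_lit 434202) (nat_lit 18) (.e (nat_lit 5964) (nat_lit 324) (.e (nat_lit 163844) (nat_lit 0) .nil)))))))) (.g (nat_lit 1) (.e (nat_lit 92429) (nat_lit 0) .nil) .nil))) 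
(.lf (nat_lit 473706) (.g (nat_lit 3676) (.e (nat_lit 1181) (nat_lit 87) (.e (nat_lit 57480) (nat_lit 28) (.e (nat_lit 557109) (nat_lit 15) (.e (nat_lit 188449) (nat_lit 22) (.e (nat_lit 196667) (nat_lit 14) .nil))))) (.g (nat_lit 0) (.e (nat_lit 94302) (nat_lit 0) .nil) .nil)))) (.nd (nat_lit 9) 
(.lf (nat_lit 473450) (.g (nat_lit 1526) (.e (nat_lit 3572) (nat_lit 222) (.e (nat_lit 737300) (nat_lit 7) (.e (nat_lit 286755) (nat_lit 10) (.e (nat_lit 344138) (nat_lit 29) (.e (nat_lit 581653) (nat_lit 6) (.e (nat_lit 188430) (nat_lit 20) .nil)))))) (.g (nat_lit 1) (.e (nat_lit 92897) (nat_lit 0) .nil) .nil))) 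
(.lf (nat_lit 473962) (.g (nat_lit 1356) (.e (nat_lit 1214) (nat_lit 89) (.e (nat_lit 73746) (nat_lit 3) (.e (nat_lit 516165) (nat_lit 12) (.e (nat_lit 450586) (nat_lit 10) .nil)))) (.g (nat_lit 0) (.e (nat_lit 95087) (nat_lit 0) .nil) .nil))))) (.nd (nat_lit 8) (.nd (nat_lit 9) 
(.lf (nat_lit 473322) (.g (nat_lit 3364) (.e (nat_lit 3471) (nat_lit 217) (.e (nat_lit 696344) (nat_lit 8) (.e (nat_lit 172082) (nat_lit 7) (.e (nat_lit 409646) (nat_lit 18) (.e (nat_lit 303135) (nat_lit 10) (.e (nat_lit 434208) (nat_lit 18) (.e (nat_lit 5966) (nat_lit 324) (.e (nat_lit 163844) (nat_lit 0) .nil)))))))) (.g (nat_lit 1) (.e (nat_lit 92558) (nat_lit 0) .nil) .nil))) 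
(.lf (nat_lit 473834) (.g (nat_lit 2672) (.e (nat_lit 1191) (nat_lit 88) (.e (nat_lit 65568) (nat_lit 2) (.e (nat_lit 90170) (nat_lit 13) (.e (nat_lit 172113) (nat_lit 10) (.e (nat_lit 434248) (nat_lit 28) .nil))))) (.g (nat_lit 0) (.e (nat_lit 94804) (nat_lit 0) .nil) .nil)))) (.nd (nat_lit 9) 
(.lf (nat_lit 473578) (.g (nat_lit 3444) (.e (nat_lit 1122) (nat_lit 83) (.e (nat_lit 16466) (nat_lit 13) (.e (nat_lit 483413) (nat_lit 27) (.e (nat_lit 401447) (nat_lit 10) (.e (nat_lit 434201) (nat_lit 18) .nil))))) (.g (nat_lit 0) (.e (nat_lit 93743) (nat_lit 0) .nil) .nil))) 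
(.lf (nat_lit 474090) (.g (nat_lit 2334) (.e (nat_lit 1235) (nat_lit 91) (.e (nat_lit 90170) (nat_lit 13) (.e (nat_lit 172106) (nat_lit 10) (.e (nat_lit 434231) (nat_lit 23) (.e (nat_lit 532490) (nat_lit 0) .nil))))) (.g (nat_lit 0) (.e (nat_lit 95259) (nat_lit 0) .nil) .nil)))))))) (.nd (nat_lit 5) (.nd (nat_lit 6) (.nd (nat_lit 7) (.nd (nat_lit 8) (.nd (nat_lit 9) 
(.lf (nat_lit 473114) (.g (nat_lit 3269) (.e (nat_lit 3469) (nat_lit 217) (.e (nat_lit 696344) (nat_lit 8) (.e (nat_lit 172115) (nat_lit 10) (.e (nat_lit 434289) (nat_lit 43) (.e (nat_lit 696346) (nat_lit 10) (.e (nat_lit 188435) (nat_lit 20) .nil)))))) (.g (nat_lit 1) (.e (nat_lit 92246) (nat_lit 0) .nil) .nil))) 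
(.lf (nat_lit 473626) (.g (nat_lit 1649) (.e (nat_lit 1159) (nat_lit 86) (.e (nat_lit 49188) (nat_lit 11) (.e (nat_lit 16436) (nat_lit 9) (.e (nat_lit 426550) (nat_lit 31) (.e (nat_lit 368656) (nat_lit 14) (.e (nat_lit 57794) (nat_lit 245) .nil)))))) (.g (nat_lit 1) (.e (nat_lit 93878) (nat_lit 0) .nil) .nil)))) (.nd (nat_lit 9) 
(.lf (nat_lit 473370) (.g (nat_lit 2843) (.e (nat_lit 3501) (nat_lit 218) (.e (nat_lit 704738) (nat_lit 11) (.e (nat_lit 16425) (nat_lit 7) (.e (nat_lit 409649) (nat_lit 18) (.e (nat_lit 303140) (nat_lit 10) (.e (nat_lit 434275) (nat_lit 39) (.e (nat_lit 663579) (nat_lit 9) (.e (nat_lit 2425) (nat_lit 157) .nil)))))))) (.g (nat_lit 1) (.e (nat_lit 92644) (nat_lit 0) .nil) .nil))) 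
(.lf (nat_lit 473882) (.g (nat_lit 3474) (.e (nat_lit 1207) (nat_lit 89) (.e (nat_lit 73746) (nat_lit 3) (.e (nat_lit 516166) (nat_lit 12) (.e (nat_lit 450587) (nat_lit 10) (.e (nat_lit 573477) (nat_lit 12) .nil))))) (.g (nat_lit 0) (.e (nat_lit 94981) (nat_lit 0) .nil) .nil))))) (.nd (nat_lit 8) (.nd (nat_lit 9) 
(.lf (nat_lit 473242) (.g (nat_lit 3230) (.e (nat_lit 3471) (nat_lit 217) (.e (nat_lit 696344) (nat_lit 8) (.e (nat_lit 172079) (nat_lit 7) (.e (nat_lit 409645) (nat_lit 18) (.e (nat_lit 303133) (nat_lit 9) (.e (nat_lit 426042) (nat_lit 0) (.e (nat_lit 2427) (nat_lit 157) (.e (nat_lit 5965) (nat_lit 324) (.e (nat_lit 163844) (nat_lit 0) .nil))))))))) (.g (nat_lit 1) (.e (nat_lit 92478) (nat_lit 0) .nil) .nil))) 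
(.lf (nat_lit 473754) (.g (nat_lit 1980) (.e (nat_lit 1183) (nat_lit 87) (.e (nat_lit 57480) (nat_lit 28) (.e (nat_lit 557105) (nat_lit 14) (.e (nat_lit 180250) (nat_lit 10) .nil)))) (.g (nat_lit 0) (.e (nat_lit 94550) (nat_lit 0) .nil) .nil)))) (.nd (nat_lit 9) 
(.lf (nat_lit 473498) (.g (nat_lit 3984) (.e (nat_lit 977) (nat_lit 81) (.e (nat_lit 5664) (nat_lit 312) (.e (nat_lit 2679) (nat_lit 168) (.e (nat_lit 204846) (nat_lit 24) (.e (nat_lit 319533) (nat_lit 16) (.e (nat_lit 286735) (nat_lit 3) (.e (nat_lit 98323) (nat_lit 17) (.e (nat_lit 6989) (nat_lit 377) .nil)))))))) (.g (nat_lit 1) (.e (nat_lit 93085) (nat_lit 0) .nil) .nil))) 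
(.lf (nat_lit 474010) (.g (nat_lit 3161) (.e (nat_lit 1231) (nat_lit 91) (.e (nat_lit 90176) (nat_lit 15) (.e (nat_lit 188450) (nat_lit 23) (.e (nat_lit 204846) (nat_lit 24) (.e (nat_lit 319504) (nat_lit 10) .nil))))) (.g (nat_lit 0) (.e (nat_lit 95166) (nat_lit 0) .nil) .nil)))))) (.nd (nat_lit 7) (.nd (nat_lit 8) (.nd (nat_lit 9) 
(.lf (nat_lit 473178) (.g (nat_lit 3441) (.e (nat_lit 3471) (nat_lit 217) (.e (nat_lit 696343) (nat_lit 8) (.e (nat_lit 172082) (nat_lit 7) (.e (nat_lit 409646) (nat_lit 18) (.e (nat_lit 303135) (nat_lit 10) (.e (nat_lit 434208) (nat_lit 18) (.e (nat_lit 5964) (nat_lit 324) (.e (nat_lit 163844) (nat_lit 0) .nil)))))))) (.g (nat_lit 1) (.e (nat_lit 92413) (nat_lit 0) .nil) .nil))) 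
(.lf (nat_lit 473690) (.g (nat_lit 2667) (.e (nat_lit 1178) (nat_lit 87) (.e (nat_lit 57931) (nat_lit 282) (.e (nat_lit 163874) (nat_lit 3) (.e (nat_lit 204864) (nat_lit 27) (.e (nat_lit 344130) (nat_lit 26) .nil))))) (.g (nat_lit 0) (.e (nat_lit 94250) (nat_lit 0) .nil) .nil)))) (.nd (nat_lit 9) 
(.lf (nat_lit 473434) (.g (nat_lit 1479) (.e (nat_lit 7936) (nat_lit 219) (.e (nat_lit 712753) (nat_lit 30) (.e (nat_lit 450579) (nat_lit 5) (.e (nat_lit 532504) (nat_lit 1) (.e (nat_lit 57670) (nat_lit 152) .nil))))) (.g (nat_lit 0) (.e (nat_lit 92814) (nat_lit 0) .nil) .nil))) 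
(.lf (nat_lit 473946) (.g (nat_lit 2815) (.e (nat_lit 1211) (nat_lit 89) (.e (nat_lit 73782) (nat_lit 32) (.e (nat_lit 2856) (nat_lit 184) (.e (nat_lit 426546) (nat_lit 30) (.e (nat_lit 360452) (nat_lit 0) (.e (nat_lit 5905) (nat_lit 320) .nil)))))) (.g (nat_lit 1) (.e (nat_lit 95068) (nat_lit 0) .nil) .nil))))) (.nd (nat_lit 8) (.nd (nat_lit 9) 
(.lf (nat_lit 473306) (.g (nat_lit 2185) (.e (nat_lit 3471) (nat_lit 217) (.e (nat_lit 696344) (nat_lit 8) (.e (nat_lit 172082) (nat_lit 7) (.e (nat_lit 409646) (nat_lit 18) (.e (nat_lit 303133) (nat_lit 9) (.e (nat_lit 426042) (nat_lit 0) (.e (nat_lit 2449) (nat_lit 157) (.e (nat_lit 5964) (nat_lit 324) (.e (nat_lit 163844) (nat_lit 0) .nil))))))))) (.g (nat_lit 1) (.e (nat_lit 92542) (nat_lit 0) .nil) .nil))) 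
(.lf (nat_lit 473818) (.g (nat_lit 1760) (.e (nat_lit 1188) (nat_lit 88) (.e (nat_lit 65630) (nat_lit 14) (.e (nat_lit 401437) (nat_lit 9) (.e (nat_lit 426538) (nat_lit 29) .nil)))) (.g (nat_lit 0) (.e (nat_lit 94775) (nat_lit 0) .nil) .nil)))) (.nd (nat_lit 9) 
(.lf (nat_lit 473562) (.g (nat_lit 1897) (.e (nat_lit 1077) (nat_lit 81) (.e (nat_lit 1796) (nat_lit 119) (.e (nat_lit 516166) (nat_lit 12) (.e (nat_lit 450587) (nat_lit 10) (.e (nat_lit 573457) (nat_lit 9) (.e (nat_lit 7936) (nat_lit 33) (.e (nat_lit 434178) (nat_lit 0) .nil))))))) (.g (nat_lit 1) (.e (nat_lit 93460) (nat_lit 0) .nil) .nil))) 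
(.lf (nat_lit 474074) (.g (nat_lit 2647) (.e (nat_lit 1234) (nat_lit 91) (.e (nat_lit 90170) (nat_lit 13) (.e (nat_lit 172113) (nat_lit 10) (.e (nat_lit 434248) (nat_lit 28) (.e (nat_lit 573452) (nat_lit 9) (.e (nat_lit 430) (nat_lit 32) (.e (nat_lit 426011) (nat_lit 0) (.e (nat_lit 7500) (nat_lit 402) .nil)))))))) (.g (nat_lit 1) (.e (nat_lit 95241) (nat_lit 0) .nil) .nil))))))) 
(.nd (nat_lit 6) (.nd (nat_lit 7) (.nd (nat_lit 8) (.nd (nat_lit 9) 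
(.lf (nat_lit 473146) (.g (nat_lit 2178) (.e (nat_lit 3471) (nat_lit 217) (.e (nat_lit 696343) (nat_lit 8) (.e (nat_lit 172079) (nat_lit 7) (.e (nat_lit 409645) (nat_lit 18) (.e (nat_lit 303139) (nat_lit 10) (.e (nat_lit 434203) (nat_lit 18) (.e (nat_lit 5964) (nat_lit 324) (.e (nat_lit 163844) (nat_lit 0) .nil)))))))) (.g (nat_lit 1) (.e (nat_lit 92381) (nat_lit 0) .nil) .nil))) 
(.lf (nat_lit 473658) (.g (nat_lit 1832) (.e (nat_lit 1163) (nat_lit 86) (.e (nat_lit 49157) (nat_lit 0) (.e (nat_lit 3026) (nat_lit 187) (.e (nat_lit 450584) (nat_lit 9) (.e (nat_lit 565268) (nat_lit 5) (.e (nat_lit 73791) (nat_lit 45) .nil)))))) (.g (nat_lit 1) (.e (nat_lit 93978) (nat_lit 0) .nil) .nil)))) (.nd (nat_lit 9) 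
(.lf (nat_lit 473402) (.g (nat_lit 1866) (.e (nat_lit 3544) (nat_lit 219) (.e (nat_lit 712753) (nat_lit 30) (.e (nat_lit 450586) (nat_lit 10) (.e (nat_lit 573473) (nat_lit 12) (.e (nat_lit 57507) (nat_lit 39) .nil))))) (.g (nat_lit 0) (.e (nat_lit 92778) (nat_lit 0) .nil) .nil))) 
(.lf (nat_lit 473914) (.g (nat_lit 1050) (.e (nat_lit 1209) (nat_lit 89) (.e (nat_lit 73782) (nat_lit 32) (.e (nat_lit 2857) (nat_lit 184) (.e (nat_lit 426544) (nat_lit 30) .nil)))) (.g (nat_lit 0) (.e (nat_lit 95030) (nat_lit 0) .nil) .nil))))) (.nd (nat_lit 8) (.nd (nat_lit 9) 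
(.lf (nat_lit 473274) (.g (nat_lit 3209) (.e (nat_lit 3471) (nat_lit 217) (.e (nat_lit 696344) (nat_lit 8) (.e (nat_lit 172079) (nat_lit 7) (.e (nat_lit 409645) (nat_lit 18) (.e (nat_lit 303135) (nat_lit 10) (.e (nat_lit 434208) (nat_lit 18) (.e (nat_lit 5964) (nat_lit 324) (.e (nat_lit 163844) (nat_lit 0) .nil)))))))) (.g (nat_lit 1) (.e (nat_lit 92510) (nat_lit 0) .nil) .nil))) 
(.lf (nat_lit 473786) (.g (nat_lit 3766) (.e (nat_lit 1183) (nat_lit 87) (.e (nat_lit 57575) (nat_lit 55) (.e (nat_lit 778466) (nat_lit 11) (.e (nat_lit 24617) (nat_lit 7) (.e (nat_lit 319533) (nat_lit 16) (.e (nat_lit 286753) (nat_lit 10) (.e (nat_lit 344088) (nat_lit 18) (.e (nat_lit 5442) (nat_lit 306) .nil)))))))) (.g (nat_lit 1) (.e (nat_lit 94620) (nat_lit 0) .nil) .nil)))) (.nd (nat_lit 9) 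
(.lf (nat_lit 473530) (.g (nat_lit 1573) (.e (nat_lit 1035) (nat_lit 81) (.e (nat_lit 2281) (nat_lit 150) (.e (nat_lit 770072) (nat_lit 8) (.e (nat_lit 65568) (nat_lit 2) .nil)))) (.g (nat_lit 0) (.e (nat_lit 93335) (nat_lit 0) .nil) .nil))) 
(.lf (nat_lit 474042) (.g (nat_lit 4986) (.e (nat_lit 1234) (nat_lit 91) (.e (nat_lit 90170) (nat_lit 13) (.e (nat_lit 172106) (nat_lit 10) (.e (nat_lit 434231) (nat_lit 23) (.e (nat_lit 532535) (nat_lit 9) (.e (nat_lit 336295) (nat_lit 15) (.e (nat_lit 2443) (nat_lit 157) (.e (nat_lit 6867) (nat_lit 371) (.e (nat_lit 1019) (nat_lit 81) .nil))))))))) (.g (nat_lit 1) (.e (nat_lit 95209) (nat_lit 0) .nil) .nil)))))) 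
(.nd (nat_lit 7) (.nd (nat_lit 8) (.nd (nat_lit 9) 
(.lf (nat_lit 473210) (.g (nat_lit 1666) (.e (nat_lit 3471) (nat_lit 217) (.e (nat_lit 696343) (nat_lit 8) (.e (nat_lit 172106) (nat_lit 10) (.e (nat_lit 434288) (nat_lit 43) (.e (nat_lit 696348) (nat_lit 12) (.e (nat_lit 237612) (nat_lit 9) (.e (nat_lit 426014) (nat_lit 0) .nil))))))) (.g (nat_lit 1) (.e (nat_lit 92445) (nat_lit 0) .nil) .nil))) 
(.lf (nat_lit 473722) (.g (nat_lit 4778) (.e (nat_lit 1183) (nat_lit 87) (.e (nat_lit 57478) (nat_lit 28) (.e (nat_lit 557108) (nat_lit 15) (.e (nat_lit 188452) (nat_lit 23) (.e (nat_lit 204858) (nat_lit 26) .nil))))) (.g (nat_lit 0) (.e (nat_lit 94518) (nat_lit 0) .nil) .nil)))) (.nd (nat_lit 9) 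
(.lf (nat_lit 473466) (.g (nat_lit 1707) (.e (nat_lit 3578) (nat_lit 223) (.e (nat_lit 745491) (nat_lit 4) (.e (nat_lit 65620) (nat_lit 10) (.e (nat_lit 344138) (nat_lit 29) (.e (nat_lit 581653) (nat_lit 6) (.e (nat_lit 188439) (nat_lit 20) .nil)))))) (.g (nat_lit 1) (.e (nat_lit 92918) (nat_lit 0) .nil) .nil))) 
(.lf (nat_lit 473978) (.g (nat_lit 1744) (.e (nat_lit 1224) (nat_lit 90) (.e (nat_lit 81947) (nat_lit 20) (.e (nat_lit 2281) (nat_lit 150) (.e (nat_lit 770072) (nat_lit 8) (.e (nat_lit 65617) (nat_lit 10) .nil))))) (.g (nat_lit 0) (.e (nat_lit 95130) (nat_lit 0) .nil) .nil))))) (.nd (nat_lit 8) (.nd (nat_lit 9) 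
(.lf (nat_lit 473338) (.g (nat_lit 2401) (.e (nat_lit 3471) (nat_lit 217) (.e (nat_lit 696344) (nat_lit 8) (.e (nat_lit 172082) (nat_lit 7) (.e (nat_lit 409649) (nat_lit 18) (.e (nat_lit 303140) (nat_lit 10) (.e (nat_lit 434200) (nat_lit 18) (.e (nat_lit 5966) (nat_lit 324) (.e (nat_lit 163844) (nat_lit 0) .nil)))))))) (.g (nat_lit 1) (.e (nat_lit 92574) (nat_lit 0) .nil) .nil))) 
(.lf (nat_lit 473850) (.g (nat_lit 2477) (.e (nat_lit 1199) (nat_lit 88) (.e (nat_lit 65628) (nat_lit 14) (.e (nat_lit 401428) (nat_lit 3) (.e (nat_lit 204869) (nat_lit 29) (.e (nat_lit 360448) (nat_lit 0) .nil))))) (.g (nat_lit 0) (.e (nat_lit 94830) (nat_lit 0) .nil) .nil)))) (.nd (nat_lit 9) 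
(.lf (nat_lit 473594) (.g (nat_lit 2430) (.e (nat_lit 1126) (nat_lit 83) (.e (nat_lit 16425) (nat_lit 7) (.e (nat_lit 409617) (nat_lit 10) (.e (nat_lit 632) (nat_lit 50) (.e (nat_lit 573482) (nat_lit 13) .nil))))) (.g (nat_lit 0) (.e (nat_lit 93776) (nat_lit 0) .nil) .nil))) 
(.lf (nat_lit 474106) (.g (nat_lit 1911) (.e (nat_lit 1235) (nat_lit 91) (.e (nat_lit 90170) (nat_lit 13) (.e (nat_lit 172113) (nat_lit 10) (.e (nat_lit 434203) (nat_lit 18) (.e (nat_lit 3953) (nat_lit 239) (.e (nat_lit 2637) (nat_lit 165) (.e (nat_lit 180278) (nat_lit 32) .nil))))))) (.g (nat_lit 1) (.e (nat_lit 95275) (nat_lit 0) .nil) .nil)))))))))) 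
(.nd (nat_lit 3) (.nd (nat_lit 4) (.nd (nat_lit 5) (.nd (nat_lit 6) (.nd (nat_lit 7) 
(.nd (nat_lit 8) (.nd (nat_lit 9) 
(.lf (nat_lit 473094) (.g (nat_lit 2311) (.e (nat_lit 3469) (nat_lit 217) (.e (nat_lit 696344) (nat_lit 8) (.e (nat_lit 172115) (nat_lit 10) (.e (nat_lit 434202) (nat_lit 18) (.e (nat_lit 6252) (nat_lit 337) (.e (nat_lit 7936) (nat_lit 166) (.e (nat_lit 188434) (nat_lit 20) .nil))))))) (.g (nat_lit 1) (.e (nat_lit 92226) (nat_lit 0) .nil) .nil))) 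
(.lf (nat_lit 473606) (.g (nat_lit 4689) (.e (nat_lit 1128) (nat_lit 83) (.e (nat_lit 16425) (nat_lit 7) (.e (nat_lit 409617) (nat_lit 10) (.e (nat_lit 632) (nat_lit 50) (.e (nat_lit 573493) (nat_lit 15) (.e (nat_lit 81959) (nat_lit 24) (.e (nat_lit 130816) (nat_lit 146) .nil))))))) (.g (nat_lit 1) (.e (nat_lit 93790) (nat_lit 0) .nil) .nil)))) (.nd (nat_lit 9) 
(.lf (nat_lit 473350) (.g (nat_lit 2258) (.e (nat_lit 3471) (nat_lit 217) (.e (nat_lit 696344) (nat_lit 8) (.e (nat_lit 172113) (nat_lit 10) (.e (nat_lit 434208) (nat_lit 18) (.e (nat_lit 6255) (nat_lit 337) (.e (nat_lit 2725) (nat_lit 172) (.e (nat_lit 237605) (nat_lit 9) (.e (nat_lit 425986) (nat_lit 0) .nil)))))))) (.g (nat_lit 1) (.e (nat_lit 92586) (nat_lit 0) .nil) .nil))) 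
(.lf (nat_lit 473862) (.g (nat_lit 634) (.e (nat_lit 1200) (nat_lit 88) (.e (nat_lit 65628) (nat_lit 14) (.e (nat_lit 401435) (nat_lit 9) .nil))) (.g (nat_lit 0) (.e (nat_lit 94862) (nat_lit 0) .nil) .nil))))) (.nd (nat_lit 8) (.nd (nat_lit 9) 
(.lf (nat_lit 473222) (.g (nat_lit 1941) (.e (nat_lit 3471) (nat_lit 217) (.e (nat_lit 696343) (nat_lit 8) (.e (nat_lit 172123) (nat_lit 13) (.e (nat_lit 483412) (nat_lit 27) (.e (nat_lit 401434) (nat_lit 9) .nil))))) (.g (nat_lit 0) (.e (nat_lit 92457) (nat_lit 0) .nil) .nil))) 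
(.lf (nat_lit 473734) (.g (nat_lit 3674) (.e (nat_lit 1183) (nat_lit 87) (.e (nat_lit 57478) (nat_lit 28) (.e (nat_lit 557109) (nat_lit 15) (.e (nat_lit 188452) (nat_lit 23) (.e (nat_lit 212736) (nat_lit 26) .nil))))) (.g (nat_lit 0) (.e (nat_lit 94530) (nat_lit 0) .nil) .nil)))) (.nd (nat_lit 9) 
(.lf (nat_lit 473478) (.g (nat_lit 2804) (.e (nat_lit 3579) (nat_lit 223) (.e (nat_lit 745509) (nat_lit 11) (.e (nat_lit 24628) (nat_lit 9) (.e (nat_lit 336369) (nat_lit 27) (.e (nat_lit 426173) (nat_lit 7) (.e (nat_lit 409648) (nat_lit 18) (.e (nat_lit 303108) (nat_lit 0) .nil))))))) (.g (nat_lit 1) (.e (nat_lit 92940) (nat_lit 0) .nil) .nil))) 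
(.lf (nat_lit 473990) (.g (nat_lit 1175) (.e (nat_lit 1225) (nat_lit 91) (.e (nat_lit 90176) (nat_lit 15) (.e (nat_lit 188450) (nat_lit 23) (.e (nat_lit 204816) (nat_lit 17) .nil)))) (.g (nat_lit 0) (.e (nat_lit 95143) (nat_lit 0) .nil) .nil)))))) (.nd (nat_lit 7) (.nd (nat_lit 8) (.nd (nat_lit 9) 
(.lf (nat_lit 473158) (.g (nat_lit 2326) (.e (nat_lit 3471) (nat_lit 217) (.e (nat_lit 696343) (nat_lit 8) (.e (nat_lit 172082) (nat_lit 7) (.e (nat_lit 409646) (nat_lit 18) (.e (nat_lit 303133) (nat_lit 9) (.e (nat_lit 426042) (nat_lit 0) (.e (nat_lit 2446) (nat_lit 157) (.e (nat_lit 5964) (nat_lit 324) (.e (nat_lit 163844) (nat_lit 0) .nil))))))))) (.g (nat_lit 1) (.e (nat_lit 92393) (nat_lit 0) .nil) .nil))) 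
(.lf (nat_lit 473670) (.g (nat_lit 3133) (.e (nat_lit 1172) (nat_lit 87) (.e (nat_lit 57572) (nat_lit 54) (.e (nat_lit 770072) (nat_lit 8) (.e (nat_lit 65586) (nat_lit 7) (.e (nat_lit 319531) (nat_lit 16) (.e (nat_lit 286748) (nat_lit 9) (.e (nat_lit 336295) (nat_lit 15) (.e (nat_lit 2442) (nat_lit 157) (.e (nat_lit 7660) (nat_lit 410) .nil))))))))) (.g (nat_lit 1) (.e (nat_lit 94102) (nat_lit 0) .nil) .nil)))) 
(.nd (nat_lit 9) 
(.lf (nat_lit 473414) (.g (nat_lit 2165) (.e (nat_lit 3544) (nat_lit 219) (.e (nat_lit 712754) (nat_lit 30) (.e (nat_lit 450588) (nat_lit 10) (.e (nat_lit 573473) (nat_lit 12) (.e (nat_lit 57508) (nat_lit 39) .nil))))) (.g (nat_lit 0) (.e (nat_lit 92790) (nat_lit 0) .nil) .nil))) 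
(.lf (nat_lit 473926) (.g (nat_lit 3115) (.e (nat_lit 1210) (nat_lit 89) (.e (nat_lit 73782) (nat_lit 32) (.e (nat_lit 2856) (nat_lit 184) (.e (nat_lit 426555) (nat_lit 32) (.e (nat_lit 376859) (nat_lit 21) (.e (nat_lit 57870) (nat_lit 264) .nil)))))) (.g (nat_lit 1) (.e (nat_lit 95043) (nat_lit 0) .nil) .nil))))) (.nd (nat_lit 8) (.nd (nat_lit 9) 
(.lf (nat_lit 473286) (.g (nat_lit 2438) (.e (nat_lit 3471) (nat_lit 217) (.e (nat_lit 696344) (nat_lit 8) (.e (nat_lit 172079) (nat_lit 7) (.e (nat_lit 409645) (nat_lit 18) (.e (nat_lit 303140) (nat_lit 10) (.e (nat_lit 434275) (nat_lit 39) (.e (nat_lit 663580) (nat_lit 9) (.e (nat_lit 7936) (nat_lit 157) .nil)))))))) (.g (nat_lit 1) (.e (nat_lit 92522) (nat_lit 0) .nil) .nil))) 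
(.lf (nat_lit 473798) (.g (nat_lit 3041) (.e (nat_lit 1183) (nat_lit 87) (.e (nat_lit 57575) (nat_lit 55) (.e (nat_lit 778466) (nat_lit 11) (.e (nat_lit 24617) (nat_lit 7) (.e (nat_lit 319534) (nat_lit 16) (.e (nat_lit 286756) (nat_lit 10) (.e (nat_lit 344087) (nat_lit 18) (.e (nat_lit 5455) (nat_lit 306) .nil)))))))) (.g (nat_lit 1) (.e (nat_lit 94633) (nat_lit 0) .nil) .nil)))) (.nd (nat_lit 9) 
(.lf (nat_lit 473542) (.g (nat_lit 1029) (.e (nat_lit 1040) (nat_lit 81) (.e (nat_lit 5195) (nat_lit 294) (.e (nat_lit 57407) (nat_lit 12) (.e (nat_lit 336454) (nat_lit 34) .nil)))) (.g (nat_lit 0) (.e (nat_lit 93378) (nat_lit 0) .nil) .nil))) 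
(.lf (nat_lit 474054) (.g (nat_lit 4227) (.e (nat_lit 1234) (nat_lit 91) (.e (nat_lit 90170) (nat_lit 13) (.e (nat_lit 172106) (nat_lit 10) (.e (nat_lit 434244) (nat_lit 28) (.e (nat_lit 573450) (nat_lit 9) (.e (nat_lit 442) (nat_lit 33) (.e (nat_lit 434181) (nat_lit 0) .nil))))))) (.g (nat_lit 1) (.e (nat_lit 95221) (nat_lit 0) .nil) .nil))))))) 
(.nd (nat_lit 6) (.nd (nat_lit 7) (.nd (nat_lit 8) (.nd (nat_lit 9) 
(.lf (nat_lit 473126) (.g (nat_lit 3748) (.e (nat_lit 3469) (nat_lit 217) (.e (nat_lit 696344) (nat_lit 8) (.e (nat_lit 172125) (nat_lit 14) (.e (nat_lit 491566) (nat_lit 12) (.e (nat_lit 385107) (nat_lit 51) (.e (nat_lit 794684) (nat_lit 25) (.e (nat_lit 221195) (nat_lit 20) .nil))))))) (.g (nat_lit 1) (.e (nat_lit 92259) (nat_lit 0) .nil) .nil))) 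
(.lf (nat_lit 473638) (.g (nat_lit 722) (.e (nat_lit 1162) (nat_lit 86) (.e (nat_lit 49156) (nat_lit 0) (.e (nat_lit 3026) (nat_lit 187) (.e (nat_lit 458496) (nat_lit 9) (.e (nat_lit 565268) (nat_lit 5) (.e (nat_lit 73788) (nat_lit 45) .nil)))))) (.g (nat_lit 1) (.e (nat_lit 93919) (nat_lit 0) .nil) .nil)))) (.nd (nat_lit 9) 
(.lf (nat_lit 473382) (.g (nat_lit 2848) (.e (nat_lit 3540) (nat_lit 218) (.e (nat_lit 704738) (nat_lit 11) (.e (nat_lit 16425) (nat_lit 7) (.e (nat_lit 409649) (nat_lit 18) (.e (nat_lit 303140) (nat_lit 10) (.e (nat_lit 434275) (nat_lit 39) (.e (nat_lit 663574) (nat_lit 9) (.e (nat_lit 2437) (nat_lit 157) .nil)))))))) (.g (nat_lit 1) (.e (nat_lit 92693) (nat_lit 0) .nil) .nil))) 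
(.lf (nat_lit 473894) (.g (nat_lit 1009) (.e (nat_lit 1209) (nat_lit 89) (.e (nat_lit 73781) (nat_lit 32) (.e (nat_lit 3089) (nat_lit 191) (.e (nat_lit 483386) (nat_lit 23) .nil)))) (.g (nat_lit 0) (.e (nat_lit 95010) (nat_lit 0) .nil) .nil))))) (.nd (nat_lit 8) (.nd (nat_lit 9) 
(.lf (nat_lit 473254) (.g (nat_lit 2917) (.e (nat_lit 3471) (nat_lit 217) (.e (nat_lit 696344) (nat_lit 8) (.e (nat_lit 172079) (nat_lit 7) (.e (nat_lit 409645) (nat_lit 18) (.e (nat_lit 303133) (nat_lit 9) (.e (nat_lit 426042) (nat_lit 0) (.e (nat_lit 2447) (nat_lit 157) (.e (nat_lit 5966) (nat_lit 324) (.e (nat_lit 163844) (nat_lit 0) .nil))))))))) (.g (nat_lit 1) (.e (nat_lit 92490) (nat_lit 0) .nil) .nil))) 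
(.lf (nat_lit 473766) (.g (nat_lit 3843) (.e (nat_lit 1183) (nat_lit 87) (.e (nat_lit 57480) (nat_lit 28) (.e (nat_lit 557108) (nat_lit 15) (.e (nat_lit 188452) (nat_lit 23) (.e (nat_lit 204856) (nat_lit 26) .nil))))) (.g (nat_lit 0) (.e (nat_lit 94562) (nat_lit 0) .nil) .nil)))) (.nd (nat_lit 9) 
(.lf (nat_lit 473510) (.g (nat_lit 1967) (.e (nat_lit 999) (nat_lit 81) (.e (nat_lit 1422) (nat_lit 108) (.e (nat_lit 336454) (nat_lit 34) (.e (nat_lit 483408) (nat_lit 26) .nil)))) (.g (nat_lit 0) (.e (nat_lit 93198) (nat_lit 0) .nil) .nil))) 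
(.lf (nat_lit 474022) (.g (nat_lit 2503) (.e (nat_lit 1232) (nat_lit 91) (.e (nat_lit 90170) (nat_lit 13) (.e (nat_lit 172106) (nat_lit 10) (.e (nat_lit 434231) (nat_lit 23) (.e (nat_lit 532525) (nat_lit 8) .nil))))) (.g (nat_lit 0) (.e (nat_lit 95183) (nat_lit 0) .nil) .nil)))))) (.nd (nat_lit 7) (.nd (nat_lit 8) (.nd (nat_lit 9) 
(.lf (nat_lit 473190) (.g (nat_lit 3296) (.e (nat_lit 3471) (nat_lit 217) (.e (nat_lit 696343) (nat_lit 8) (.e (nat_lit 172082) (nat_lit 7) (.e (nat_lit 409646) (nat_lit 18) (.e (nat_lit 303140) (nat_lit 10) (.e (nat_lit 434275) (nat_lit 39) (.e (nat_lit 663579) (nat_lit 9) (.e (nat_lit 2427) (nat_lit 157) .nil)))))))) (.g (nat_lit 1) (.e (nat_lit 92425) (nat_lit 0) .nil) .nil))) 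
(.lf (nat_lit 473702) (.g (nat_lit 3500) (.e (nat_lit 1181) (nat_lit 87) (.e (nat_lit 57479) (nat_lit 28) (.e (nat_lit 557106) (nat_lit 15) (.e (nat_lit 188449) (nat_lit 22) (.e (nat_lit 196670) (nat_lit 14) .nil))))) (.g (nat_lit 0) (.e (nat_lit 94287) (nat_lit 0) .nil) .nil)))) (.nd (nat_lit 9) 
(.lf (nat_lit 473446) (.g (nat_lit 1979) (.e (nat_lit 3571) (nat_lit 222) (.e (nat_lit 737300) (nat_lit 7) (.e (nat_lit 286756) (nat_lit 10) (.e (nat_lit 344138) (nat_lit 29) (.e (nat_lit 581653) (nat_lit 6) (.e (nat_lit 188427) (nat_lit 20) .nil)))))) (.g (nat_lit 1) (.e (nat_lit 92869) (nat_lit 0) .nil) .nil))) 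
(.lf (nat_lit 473958) (.g (nat_lit 3453) (.e (nat_lit 1212) (nat_lit 89) (.e (nat_lit 73782) (nat_lit 32) (.e (nat_lit 2856) (nat_lit 184) (.e (nat_lit 426542) (nat_lit 29) (.e (nat_lit 352316) (nat_lit 24) (.e (nat_lit 123184) (nat_lit 264) .nil)))))) (.g (nat_lit 1) (.e (nat_lit 95082) (nat_lit 0) .nil) .nil))))) (.nd (nat_lit 8) (.nd (nat_lit 9) 
(.lf (nat_lit 473318) (.g (nat_lit 3490) (.e (nat_lit 3471) (nat_lit 217) (.e (nat_lit 696344) (nat_lit 8) (.e (nat_lit 172082) (nat_lit 7) (.e (nat_lit 409646) (nat_lit 18) (.e (nat_lit 303135) (nat_lit 10) (.e (nat_lit 434203) (nat_lit 18) (.e (nat_lit 5966) (nat_lit 324) (.e (nat_lit 163844) (nat_lit 0) .nil)))))))) (.g (nat_lit 1) (.e (nat_lit 92554) (nat_lit 0) .nil) .nil))) 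
(.lf (nat_lit 473830) (.g (nat_lit 2305) (.e (nat_lit 1191) (nat_lit 88) (.e (nat_lit 65566) (nat_lit 2) (.e (nat_lit 90170) (nat_lit 13) (.e (nat_lit 172113) (nat_lit 10) (.e (nat_lit 434245) (nat_lit 28) .nil))))) (.g (nat_lit 0) (.e (nat_lit 94800) (nat_lit 0) .nil) .nil)))) (.nd (nat_lit 9) 
(.lf (nat_lit 473574) (.g (nat_lit 2547) (.e (nat_lit 1122) (nat_lit 83) (.e (nat_lit 16416) (nat_lit 3) (.e (nat_lit 204869) (nat_lit 29) (.e (nat_lit 360466) (nat_lit 3) .nil)))) (.g (nat_lit 0) (.e (nat_lit 93738) (nat_lit 0) .nil) .nil))) 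
(.lf (nat_lit 474086) (.g (nat_lit 3553) (.e (nat_lit 1235) (nat_lit 91) (.e (nat_lit 90170) (nat_lit 13) (.e (nat_lit 172106) (nat_lit 10) (.e (nat_lit 434231) (nat_lit 23) (.e (nat_lit 532481) (nat_lit 0) .nil))))) (.g (nat_lit 0) (.e (nat_lit 95255) (nat_lit 0) .nil) .nil)))))))) (.nd (nat_lit 5) (.nd (nat_lit 6) (.nd (nat_lit 7) (.nd (nat_lit 8) (.nd (nat_lit 9) 
(.lf (nat_lit 473110) (.g (nat_lit 2613) (.e (nat_lit 3469) (nat_lit 217) (.e (nat_lit 696344) (nat_lit 8) (.e (nat_lit 172115) (nat_lit 10) (.e (nat_lit 434209) (nat_lit 18) (.e (nat_lit 6427) (nat_lit 342) (.e (nat_lit 229412) (nat_lit 14) (.e (nat_lit 442412) (nat_lit 20) .nil))))))) (.g (nat_lit 1) (.e (nat_lit 92242) (nat_lit 0) .nil) .nil))) 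
(.lf (nat_lit 473622) (.g (nat_lit 1415) (.e (nat_lit 1159) (nat_lit 86) (.e (nat_lit 49186) (nat_lit 11) (.e (nat_lit 16436) (nat_lit 9) (.e (nat_lit 426550) (nat_lit 31) (.e (nat_lit 368656) (nat_lit 14) (.e (nat_lit 57794) (nat_lit 245) .nil)))))) (.g (nat_lit 1) (.e (nat_lit 93871) (nat_lit 0) .nil) .nil)))) (.nd (nat_lit 9) 
(.lf (nat_lit 473366) (.g (nat_lit 3528) (.e (nat_lit 3501) (nat_lit 218) (.e (nat_lit 704738) (nat_lit 11) (.e (nat_lit 16425) (nat_lit 7) (.e (nat_lit 409648) (nat_lit 18) (.e (nat_lit 303137) (nat_lit 10) .nil))))) (.g (nat_lit 0) (.e (nat_lit 92640) (nat_lit 0) .nil) .nil))) 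
(.lf (nat_lit 473878) (.g (nat_lit 2680) (.e (nat_lit 1201) (nat_lit 88) (.e (nat_lit 65630) (nat_lit 14) (.e (nat_lit 401428) (nat_lit 3) (.e (nat_lit 204869) (nat_lit 29) (.e (nat_lit 368384) (nat_lit 0) .nil))))) (.g (nat_lit 0) (.e (nat_lit 94878) (nat_lit 0) .nil) .nil))))) (.nd (nat_lit 8) (.nd (nat_lit 9) 
(.lf (nat_lit 473238) (.g (nat_lit 4068) (.e (nat_lit 3471) (nat_lit 217) (.e (nat_lit 696344) (nat_lit 8) (.e (nat_lit 172078) (nat_lit 7) (.e (nat_lit 409649) (nat_lit 18) (.e (nat_lit 303140) (nat_lit 10) (.e (nat_lit 434275) (nat_lit 39) (.e (nat_lit 663580) (nat_lit 9) (.e (nat_lit 2416) (nat_lit 157) .nil)))))))) (.g (nat_lit 1) (.e (nat_lit 92473) (nat_lit 0) .nil) .nil))) 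
(.lf (nat_lit 473750) (.g (nat_lit 2480) (.e (nat_lit 1183) (nat_lit 87) (.e (nat_lit 57479) (nat_lit 28) (.e (nat_lit 557109) (nat_lit 15) (.e (nat_lit 188452) (nat_lit 23) .nil)))) (.g (nat_lit 0) (.e (nat_lit 94546) (nat_lit 0) .nil) .nil)))) (.nd (nat_lit 9) 
(.lf (nat_lit 473494) (.g (nat_lit 2070) (.e (nat_lit 976) (nat_lit 81) (.e (nat_lit 1633) (nat_lit 114) (.e (nat_lit 385068) (nat_lit 26) (.e (nat_lit 532558) (nat_lit 14) (.e (nat_lit 376842) (nat_lit 11) .nil))))) (.g (nat_lit 0) (.e (nat_lit 93076) (nat_lit 0) .nil) .nil))) 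
(.lf (nat_lit 474006) (.g (nat_lit 2886) (.e (nat_lit 1228) (nat_lit 91) (.e (nat_lit 90176) (nat_lit 15) (.e (nat_lit 188450) (nat_lit 23) (.e (nat_lit 204846) (nat_lit 24) (.e (nat_lit 319498) (nat_lit 10) .nil))))) (.g (nat_lit 0) (.e (nat_lit 95160) (nat_lit 0) .nil) .nil)))))) (.nd (nat_lit 7) (.nd (nat_lit 8) (.nd (nat_lit 9) 
(.lf (nat_lit 473174) (.g (nat_lit 3046) (.e (nat_lit 3471) (nat_lit 217) (.e (nat_lit 696343) (nat_lit 8) (.e (nat_lit 172082) (nat_lit 7) (.e (nat_lit 409646) (nat_lit 18) (.e (nat_lit 303135) (nat_lit 10) (.e (nat_lit 434203) (nat_lit 18) (.e (nat_lit 5965) (nat_lit 324) (.e (nat_lit 163844) (nat_lit 0) .nil)))))))) (.g (nat_lit 1) (.e (nat_lit 92409) (nat_lit 0) .nil) .nil))) 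
(.lf (nat_lit 473686) (.g (nat_lit 2218) (.e (nat_lit 1177) (nat_lit 87) (.e (nat_lit 57479) (nat_lit 28) (.e (nat_lit 557105) (nat_lit 14) (.e (nat_lit 180252) (nat_lit 10) (.e (nat_lit 573489) (nat_lit 14) .nil))))) (.g (nat_lit 0) (.e (nat_lit 94193) (nat_lit 0) .nil) .nil)))) (.nd (nat_lit 9) 
(.lf (nat_lit 473430) (.g (nat_lit 2192) (.e (nat_lit 3548) (nat_lit 219) (.e (nat_lit 712754) (nat_lit 30) (.e (nat_lit 450588) (nat_lit 10) (.e (nat_lit 573474) (nat_lit 12) .nil)))) (.g (nat_lit 0) (.e (nat_lit 92809) (nat_lit 0) .nil) .nil))) 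
(.lf (nat_lit 473942) (.g (nat_lit 2162) (.e (nat_lit 1211) (nat_lit 89) (.e (nat_lit 73782) (nat_lit 32) (.e (nat_lit 2856) (nat_lit 184) (.e (nat_lit 426542) (nat_lit 29) (.e (nat_lit 352307) (nat_lit 21) (.e (nat_lit 57871) (nat_lit 264) .nil)))))) (.g (nat_lit 1) (.e (nat_lit 95064) (nat_lit 0) .nil) .nil))))) (.nd (nat_lit 8) (.nd (nat_lit 9) 
(.lf (nat_lit 473302) (.g (nat_lit 2862) (.e (nat_lit 3471) (nat_lit 217) (.e (nat_lit 696344) (nat_lit 8) (.e (nat_lit 172082) (nat_lit 7) (.e (nat_lit 409646) (nat_lit 18) (.e (nat_lit 303133) (nat_lit 9) (.e (nat_lit 426042) (nat_lit 0) (.e (nat_lit 2447) (nat_lit 157) (.e (nat_lit 5966) (nat_lit 324) (.e (nat_lit 163844) (nat_lit 0) .nil))))))))) (.g (nat_lit 1) (.e (nat_lit 92538) (nat_lit 0) .nil) .nil))) 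
(.lf (nat_lit 473814) (.g (nat_lit 1010) (.e (nat_lit 1187) (nat_lit 88) (.e (nat_lit 65637) (nat_lit 15) (.e (nat_lit 3253) (nat_lit 197) (.e (nat_lit 532533) (nat_lit 9) .nil)))) (.g (nat_lit 0) (.e (nat_lit 94769) (nat_lit 0) .nil) .nil)))) (.nd (nat_lit 9) 
(.lf (nat_lit 473558) (.g (nat_lit 3708) (.e (nat_lit 1076) (nat_lit 81) (.e (nat_lit 5664) (nat_lit 312) (.e (nat_lit 2679) (nat_lit 168) (.e (nat_lit 204846) (nat_lit 24) (.e (nat_lit 319531) (nat_lit 16) (.e (nat_lit 286735) (nat_lit 3) (.e (nat_lit 98323) (nat_lit 17) (.e (nat_lit 6989) (nat_lit 377) .nil)))))))) (.g (nat_lit 1) (.e (nat_lit 93447) (nat_lit 0) .nil) .nil))) 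
(.lf (nat_lit 474070) (.g (nat_lit 2589) (.e (nat_lit 1234) (nat_lit 91) (.e (nat_lit 90170) (nat_lit 13) (.e (nat_lit 172113) (nat_lit 10) (.e (nat_lit 434247) (nat_lit 28) (.e (nat_lit 573456) (nat_lit 9) (.e (nat_lit 430) (nat_lit 32) (.e (nat_lit 426011) (nat_lit 0) (.e (nat_lit 7500) (nat_lit 402) .nil)))))))) (.g (nat_lit 1) (.e (nat_lit 95237) (nat_lit 0) .nil) .nil))))))) 
(.nd (nat_lit 6) (.nd (nat_lit 7) (.nd (nat_lit 8) (.nd (nat_lit 9) 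
(.lf (nat_lit 473142) (.g (nat_lit 1946) (.e (nat_lit 3471) (nat_lit 217) (.e (nat_lit 696343) (nat_lit 8) (.e (nat_lit 172079) (nat_lit 7) (.e (nat_lit 409645) (nat_lit 18) (.e (nat_lit 303135) (nat_lit 10) (.e (nat_lit 434203) (nat_lit 18) (.e (nat_lit 5968) (nat_lit 324) (.e (nat_lit 163844) (nat_lit 0) .nil)))))))) (.g (nat_lit 1) (.e (nat_lit 92377) (nat_lit 0) .nil) .nil))) 
(.lf (nat_lit 473654) (.g (nat_lit 1200) (.e (nat_lit 1163) (nat_lit 86) (.e (nat_lit 49157) (nat_lit 0) (.e (nat_lit 3020) (nat_lit 187) (.e (nat_lit 450584) (nat_lit 9) (.e (nat_lit 565268) (nat_lit 5) (.e (nat_lit 73789) (nat_lit 45) .nil)))))) (.g (nat_lit 1) (.e (nat_lit 93973) (nat_lit 0) .nil) .nil)))) (.nd (nat_lit 9) 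
(.lf (nat_lit 473398) (.g (nat_lit 3042) (.e (nat_lit 3543) (nat_lit 219) (.e (nat_lit 712755) (nat_lit 30) (.e (nat_lit 450588) (nat_lit 10) (.e (nat_lit 573474) (nat_lit 12) (.e (nat_lit 57503) (nat_lit 38) .nil))))) (.g (nat_lit 0) (.e (nat_lit 92774) (nat_lit 0) .nil) .nil))) 
(.lf (nat_lit 473910) (.g (nat_lit 3882) (.e (nat_lit 1209) (nat_lit 89) (.e (nat_lit 73782) (nat_lit 32) (.e (nat_lit 2856) (nat_lit 184) (.e (nat_lit 426555) (nat_lit 32) (.e (nat_lit 376857) (nat_lit 21) (.e (nat_lit 57873) (nat_lit 264) .nil)))))) (.g (nat_lit 1) (.e (nat_lit 95026) (nat_lit 0) .nil) .nil))))) (.nd (nat_lit 8) (.nd (nat_lit 9) 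
(.lf (nat_lit 473270) (.g (nat_lit 2613) (.e (nat_lit 3471) (nat_lit 217) (.e (nat_lit 696344) (nat_lit 8) (.e (nat_lit 172079) (nat_lit 7) (.e (nat_lit 409645) (nat_lit 18) (.e (nat_lit 303135) (nat_lit 10) (.e (nat_lit 434203) (nat_lit 18) (.e (nat_lit 5968) (nat_lit 324) (.e (nat_lit 163844) (nat_lit 0) .nil)))))))) (.g (nat_lit 1) (.e (nat_lit 92506) (nat_lit 0) .nil) .nil))) 
(.lf (nat_lit 473782) (.g (nat_lit 2288) (.e (nat_lit 1183) (nat_lit 87) (.e (nat_lit 57575) (nat_lit 55) (.e (nat_lit 778466) (nat_lit 11) (.e (nat_lit 24617) (nat_lit 7) (.e (nat_lit 319533) (nat_lit 16) .nil))))) (.g (nat_lit 0) (.e (nat_lit 94616) (nat_lit 0) .nil) .nil)))) (.nd (nat_lit 9) 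
(.lf (nat_lit 473526) (.g (nat_lit 2440) (.e (nat_lit 1027) (nat_lit 81) (.e (nat_lit 1859) (nat_lit 124) (.e (nat_lit 557105) (nat_lit 14) (.e (nat_lit 180251) (nat_lit 10) (.e (nat_lit 573489) (nat_lit 14) .nil))))) (.g (nat_lit 0) (.e (nat_lit 93314) (nat_lit 0) .nil) .nil))) 
(.lf (nat_lit 474038) (.g (nat_lit 2578) (.e (nat_lit 1233) (nat_lit 91) (.e (nat_lit 90170) (nat_lit 13) (.e (nat_lit 172106) (nat_lit 10) (.e (nat_lit 434231) (nat_lit 23) .nil)))) (.g (nat_lit 0) (.e (nat_lit 95199) (nat_lit 0) .nil) .nil)))))) (.nd (nat_lit 7) (.nd (nat_lit 8) (.nd (nat_lit 9) 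
(.lf (nat_lit 473206) (.g (nat_lit 2287) (.e (nat_lit 3471) (nat_lit 217) (.e (nat_lit 696343) (nat_lit 8) (.e (nat_lit 172106) (nat_lit 10) (.e (nat_lit 434209) (nat_lit 18) (.e (nat_lit 6272) (nat_lit 337) (.e (nat_lit 2633) (nat_lit 164) (.e (nat_lit 172103) (nat_lit 9) (.e (nat_lit 426009) (nat_lit 0) .nil)))))))) (.g (nat_lit 1) (.e (nat_lit 92441) (nat_lit 0) .nil) .nil))) 
(.lf (nat_lit 473718) (.g (nat_lit 2282) (.e (nat_lit 1183) (nat_lit 87) (.e (nat_lit 57478) (nat_lit 28) (.e (nat_lit 557108) (nat_lit 15) (.e (nat_lit 188450) (nat_lit 23) .nil)))) (.g (nat_lit 0) (.e (nat_lit 94514) (nat_lit 0) .nil) .nil)))) (.nd (nat_lit 9) 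
(.lf (nat_lit 473462) (.g (nat_lit 1705) (.e (nat_lit 3578) (nat_lit 223) (.e (nat_lit 745491) (nat_lit 4) (.e (nat_lit 65611) (nat_lit 10) (.e (nat_lit 344138) (nat_lit 29) (.e (nat_lit 581653) (nat_lit 6) (.e (nat_lit 188439) (nat_lit 20) .nil)))))) (.g (nat_lit 1) (.e (nat_lit 92914) (nat_lit 0) .nil) .nil))) 
(.lf (nat_lit 473974) (.g (nat_lit 2308) (.e (nat_lit 1222) (nat_lit 90) (.e (nat_lit 81957) (nat_lit 24) (.e (nat_lit 123025) (nat_lit 127) (.e (nat_lit 229415) (nat_lit 15) (.e (nat_lit 450563) (nat_lit 0) (.e (nat_lit 6740) (nat_lit 365) .nil)))))) (.g (nat_lit 1) (.e (nat_lit 95124) (nat_lit 0) .nil) .nil))))) (.nd (nat_lit 8) (.nd (nat_lit 9) 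
(.lf (nat_lit 473334) (.g (nat_lit 2327) (.e (nat_lit 3471) (nat_lit 217) (.e (nat_lit 696344) (nat_lit 8) (.e (nat_lit 172082) (nat_lit 7) (.e (nat_lit 409646) (nat_lit 18) (.e (nat_lit 303140) (nat_lit 10) (.e (nat_lit 434275) (nat_lit 39) (.e (nat_lit 663579) (nat_lit 9) (.e (nat_lit 2426) (nat_lit 157) .nil)))))))) (.g (nat_lit 1) (.e (nat_lit 92570) (nat_lit 0) .nil) .nil))) 
(.lf (nat_lit 473846) (.g (nat_lit 1359) (.e (nat_lit 1197) (nat_lit 88) (.e (nat_lit 65630) (nat_lit 14) (.e (nat_lit 401428) (nat_lit 3) (.e (nat_lit 204868) (nat_lit 29) .nil)))) (.g (nat_lit 0) (.e (nat_lit 94825) (nat_lit 0) .nil) .nil)))) (.nd (nat_lit 9) 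
(.lf (nat_lit 473590) (.g (nat_lit 2352) (.e (nat_lit 1125) (nat_lit 83) (.e (nat_lit 16466) (nat_lit 13) (.e (nat_lit 483413) (nat_lit 27) (.e (nat_lit 401447) (nat_lit 10) .nil)))) (.g (nat_lit 0) (.e (nat_lit 93765) (nat_lit 0) .nil) .nil))) 
(.lf (nat_lit 474102) (.g (nat_lit 2502) (.e (nat_lit 1235) (nat_lit 91) (.e (nat_lit 90170) (nat_lit 13) (.e (nat_lit 172106) (nat_lit 10) (.e (nat_lit 434244) (nat_lit 28) (.e (nat_lit 573450) (nat_lit 9) (.e (nat_lit 452) (nat_lit 33) (.e (nat_lit 434177) (nat_lit 0) .nil))))))) (.g (nat_lit 1) (.e (nat_lit 95271) (nat_lit 0) .nil) .nil))))))))) 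
(.nd (nat_lit 4) (.nd (nat_lit 5) (.nd (nat_lit 6) (.nd (nat_lit 7) (.nd (nat_lit 8) 
(.nd (nat_lit 9) 
(.lf (nat_lit 473102) (.g (nat_lit 1970) (.e (nat_lit 3469) (nat_lit 217) (.e (nat_lit 696344) (nat_lit 8) (.e (nat_lit 172115) (nat_lit 10) (.e (nat_lit 434202) (nat_lit 18) (.e (nat_lit 6255) (nat_lit 337) (.e (nat_lit 2651) (nat_lit 166) (.e (nat_lit 188435) (nat_lit 20) .nil))))))) (.g (nat_lit 1) (.e (nat_lit 92234) (nat_lit 0) .nil) .nil))) 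
(.lf (nat_lit 473614) (.g (nat_lit 2061) (.e (nat_lit 1130) (nat_lit 83) (.e (nat_lit 16448) (nat_lit 10) (.e (nat_lit 434268) (nat_lit 36) (.e (nat_lit 639021) (nat_lit 16) (.e (nat_lit 65617) (nat_lit 10) .nil))))) (.g (nat_lit 0) (.e (nat_lit 93801) (nat_lit 0) .nil) .nil)))) (.nd (nat_lit 9) 
(.lf (nat_lit 473358) (.g (nat_lit 1113) (.e (nat_lit 3498) (nat_lit 218) (.e (nat_lit 704737) (nat_lit 11) (.e (nat_lit 16448) (nat_lit 10) .nil))) (.g (nat_lit 0) (.e (nat_lit 92624) (nat_lit 0) .nil) .nil))) 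
(.lf (nat_lit 473870) (.g (nat_lit 1590) (.e (nat_lit 1201) (nat_lit 88) (.e (nat_lit 65566) (nat_lit 2) (.e (nat_lit 90170) (nat_lit 13) (.e (nat_lit 172113) (nat_lit 10) (.e (nat_lit 434242) (nat_lit 28) .nil))))) (.g (nat_lit 0) (.e (nat_lit 94870) (nat_lit 0) .nil) .nil))))) (.nd (nat_lit 8) (.nd (nat_lit 9) 
(.lf (nat_lit 473230) (.g (nat_lit 3081) (.e (nat_lit 3471) (nat_lit 217) (.e (nat_lit 696344) (nat_lit 8) (.e (nat_lit 172067) (nat_lit 3) (.e (nat_lit 204855) (nat_lit 26) (.e (nat_lit 336176) (nat_lit 10) (.e (nat_lit 344133) (nat_lit 26) (.e (nat_lit 557065) (nat_lit 9) (.e (nat_lit 2399) (nat_lit 157) .nil)))))))) (.g (nat_lit 1) (.e (nat_lit 92465) (nat_lit 0) .nil) .nil))) 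
(.lf (nat_lit 473742) (.g (nat_lit 2482) (.e (nat_lit 1183) (nat_lit 87) (.e (nat_lit 57479) (nat_lit 28) (.e (nat_lit 557105) (nat_lit 14) (.e (nat_lit 180251) (nat_lit 10) (.e (nat_lit 573484) (nat_lit 13) .nil))))) (.g (nat_lit 0) (.e (nat_lit 94538) (nat_lit 0) .nil) .nil)))) (.nd (nat_lit 9) 
(.lf (nat_lit 473486) (.g (nat_lit 1889) (.e (nat_lit 968) (nat_lit 81) (.e (nat_lit 375) (nat_lit 32) (.e (nat_lit 426173) (nat_lit 7) (.e (nat_lit 409617) (nat_lit 10) (.e (nat_lit 7936) (nat_lit 43) (.e (nat_lit 516166) (nat_lit 12) (.e (nat_lit 450563) (nat_lit 0) (.e (nat_lit 4181) (nat_lit 251) .nil)))))))) (.g (nat_lit 1) (.e (nat_lit 92948) (nat_lit 0) .nil) .nil))) 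
(.lf (nat_lit 473998) (.g (nat_lit 2837) (.e (nat_lit 1226) (nat_lit 91) (.e (nat_lit 90170) (nat_lit 13) (.e (nat_lit 172106) (nat_lit 10) (.e (nat_lit 434244) (nat_lit 28) .nil)))) (.g (nat_lit 0) (.e (nat_lit 95152) (nat_lit 0) .nil) .nil)))))) (.nd (nat_lit 7) (.nd (nat_lit 8) (.nd (nat_lit 9) 
(.lf (nat_lit 473166) (.g (nat_lit 2011) (.e (nat_lit 3471) (nat_lit 217) (.e (nat_lit 696343) (nat_lit 8) (.e (nat_lit 172082) (nat_lit 7) (.e (nat_lit 409646) (nat_lit 18) (.e (nat_lit 303133) (nat_lit 9) (.e (nat_lit 426043) (nat_lit 0) (.e (nat_lit 2422) (nat_lit 157) (.e (nat_lit 5966) (nat_lit 324) (.e (nat_lit 163844) (nat_lit 0) .nil))))))))) (.g (nat_lit 1) (.e (nat_lit 92401) (nat_lit 0) .nil) .nil))) 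
(.lf (nat_lit 473678) (.g (nat_lit 2927) (.e (nat_lit 1176) (nat_lit 87) (.e (nat_lit 57575) (nat_lit 55) (.e (nat_lit 778466) (nat_lit 11) (.e (nat_lit 24617) (nat_lit 7) (.e (nat_lit 319534) (nat_lit 16) (.e (nat_lit 286756) (nat_lit 10) (.e (nat_lit 344090) (nat_lit 18) (.e (nat_lit 5475) (nat_lit 306) .nil)))))))) (.g (nat_lit 1) (.e (nat_lit 94175) (nat_lit 0) .nil) .nil)))) (.nd (nat_lit 9) 
(.lf (nat_lit 473422) (.g (nat_lit 1316) (.e (nat_lit 3547) (nat_lit 219) (.e (nat_lit 712753) (nat_lit 30) (.e (nat_lit 450579) (nat_lit 5) (.e (nat_lit 532484) (nat_lit 0) (.e (nat_lit 7936) (nat_lit 149) .nil))))) (.g (nat_lit 0) (.e (nat_lit 92800) (nat_lit 0) .nil) .nil))) 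
(.lf (nat_lit 473934) (.g (nat_lit 1708) (.e (nat_lit 1211) (nat_lit 89) (.e (nat_lit 73781) (nat_lit 32) (.e (nat_lit 3090) (nat_lit 191) (.e (nat_lit 483372) (nat_lit 21) (.e (nat_lit 327424) (nat_lit 1) (.e (nat_lit 8439) (nat_lit 138) .nil)))))) (.g (nat_lit 1) (.e (nat_lit 95056) (nat_lit 0) .nil) .nil))))) (.nd (nat_lit 8) (.nd (nat_lit 9) 
(.lf (nat_lit 473294) (.g (nat_lit 2945) (.e (nat_lit 3471) (nat_lit 217) (.e (nat_lit 696344) (nat_lit 8) (.e (nat_lit 172082) (nat_lit 7) (.e (nat_lit 409646) (nat_lit 18) (.e (nat_lit 303133) (nat_lit 9) (.e (nat_lit 426042) (nat_lit 0) (.e (nat_lit 2427) (nat_lit 157) (.e (nat_lit 5964) (nat_lit 324) (.e (nat_lit 163844) (nat_lit 0) .nil))))))))) (.g (nat_lit 1) (.e (nat_lit 92530) (nat_lit 0) .nil) .nil))) 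
(.lf (nat_lit 473806) (.g (nat_lit 4409) (.e (nat_lit 1183) (nat_lit 87) (.e (nat_lit 57575) (nat_lit 55) (.e (nat_lit 778466) (nat_lit 11) (.e (nat_lit 24617) (nat_lit 7) (.e (nat_lit 319534) (nat_lit 16) (.e (nat_lit 286756) (nat_lit 10) (.e (nat_lit 344090) (nat_lit 18) (.e (nat_lit 5439) (nat_lit 306) .nil)))))))) (.g (nat_lit 1) (.e (nat_lit 94641) (nat_lit 0) .nil) .nil)))) (.nd (nat_lit 9) 
(.lf (nat_lit 473550) (.g (nat_lit 2252) (.e (nat_lit 1058) (nat_lit 81) (.e (nat_lit 1235) (nat_lit 91) (.e (nat_lit 90170) (nat_lit 13) (.e (nat_lit 172106) (nat_lit 10) (.e (nat_lit 434231) (nat_lit 23) .nil))))) (.g (nat_lit 0) (.e (nat_lit 93417) (nat_lit 0) .nil) .nil))) 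
(.lf (nat_lit 474062) (.g (nat_lit 4031) (.e (nat_lit 1234) (nat_lit 91) (.e (nat_lit 90170) (nat_lit 13) (.e (nat_lit 172113) (nat_lit 10) (.e (nat_lit 434245) (nat_lit 28) (.e (nat_lit 573450) (nat_lit 9) (.e (nat_lit 375) (nat_lit 32) (.e (nat_lit 426025) (nat_lit 0) (.e (nat_lit 7936) (nat_lit 402) .nil)))))))) (.g (nat_lit 1) (.e (nat_lit 95229) (nat_lit 0) .nil) .nil))))))) 
(.nd (nat_lit 6) (.nd (nat_lit 7) (.nd (nat_lit 8) (.nd (nat_lit 9) 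
(.lf (nat_lit 473134) (.g (nat_lit 2556) (.e (nat_lit 3471) (nat_lit 217) (.e (nat_lit 696343) (nat_lit 8) (.e (nat_lit 172079) (nat_lit 7) (.e (nat_lit 409645) (nat_lit 18) (.e (nat_lit 303133) (nat_lit 9) (.e (nat_lit 426042) (nat_lit 0) (.e (nat_lit 2447) (nat_lit 157) (.e (nat_lit 5965) (nat_lit 324) (.e (nat_lit 163844) (nat_lit 0) .nil))))))))) (.g (nat_lit 1) (.e (nat_lit 92369) (nat_lit 0) .nil) .nil))) 
(.lf (nat_lit 473646) (.g (nat_lit 2822) (.e (nat_lit 1162) (nat_lit 86) (.e (nat_lit 49185) (nat_lit 11) (.e (nat_lit 16435) (nat_lit 9) (.e (nat_lit 426482) (nat_lit 27) (.e (nat_lit 336060) (nat_lit 7) (.e (nat_lit 319505) (nat_lit 10) (.e (nat_lit 4925) (nat_lit 287) .nil))))))) (.g (nat_lit 1) (.e (nat_lit 93941) (nat_lit 0) .nil) .nil)))) (.nd (nat_lit 9) 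
(.lf (nat_lit 473390) (.g (nat_lit 1329) (.e (nat_lit 7936) (nat_lit 218) (.e (nat_lit 704589) (nat_lit 3) (.e (nat_lit 163962) (nat_lit 25) (.e (nat_lit 532543) (nat_lit 10) .nil)))) (.g (nat_lit 0) (.e (nat_lit 92756) (nat_lit 0) .nil) .nil))) 
(.lf (nat_lit 473902) (.g (nat_lit 2479) (.e (nat_lit 1209) (nat_lit 89) (.e (nat_lit 73781) (nat_lit 32) (.e (nat_lit 3090) (nat_lit 191) (.e (nat_lit 483396) (nat_lit 24) (.e (nat_lit 344093) (nat_lit 18) (.e (nat_lit 5904) (nat_lit 320) .nil)))))) (.g (nat_lit 1) (.e (nat_lit 95018) (nat_lit 0) .nil) .nil))))) (.nd (nat_lit 8) (.nd (nat_lit 9) 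
(.lf (nat_lit 473262) (.g (nat_lit 2128) (.e (nat_lit 3471) (nat_lit 217) (.e (nat_lit 696344) (nat_lit 8) (.e (nat_lit 172079) (nat_lit 7) (.e (nat_lit 409645) (nat_lit 18) (.e (nat_lit 303133) (nat_lit 9) (.e (nat_lit 426042) (nat_lit 0) (.e (nat_lit 2481) (nat_lit 157) (.e (nat_lit 5964) (nat_lit 324) (.e (nat_lit 163844) (nat_lit 0) .nil))))))))) (.g (nat_lit 1) (.e (nat_lit 92498) (nat_lit 0) .nil) .nil))) 
(.lf (nat_lit 473774) (.g (nat_lit 3681) (.e (nat_lit 1183) (nat_lit 87) (.e (nat_lit 57480) (nat_lit 28) (.e (nat_lit 557109) (nat_lit 15) (.e (nat_lit 188450) (nat_lit 23) (.e (nat_lit 204858) (nat_lit 26) .nil))))) (.g (nat_lit 0) (.e (nat_lit 94570) (nat_lit 0) .nil) .nil)))) (.nd (nat_lit 9) 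
(.lf (nat_lit 473518) (.g (nat_lit 3774) (.e (nat_lit 1019) (nat_lit 81) (.e (nat_lit 1234) (nat_lit 91) (.e (nat_lit 90170) (nat_lit 13) (.e (nat_lit 172106) (nat_lit 10) (.e (nat_lit 434231) (nat_lit 23) (.e (nat_lit 532535) (nat_lit 9) (.e (nat_lit 336295) (nat_lit 15) (.e (nat_lit 2444) (nat_lit 157) (.e (nat_lit 6881) (nat_lit 371) .nil))))))))) (.g (nat_lit 1) (.e (nat_lit 93287) (nat_lit 0) .nil) .nil))) 
(.lf (nat_lit 474030) (.g (nat_lit 1459) (.e (nat_lit 1232) (nat_lit 91) (.e (nat_lit 90170) (nat_lit 13) (.e (nat_lit 172113) (nat_lit 10) (.e (nat_lit 434247) (nat_lit 28) .nil)))) (.g (nat_lit 0) (.e (nat_lit 95191) (nat_lit 0) .nil) .nil)))))) (.nd (nat_lit 7) (.nd (nat_lit 8) (.nd (nat_lit 9) 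
(.lf (nat_lit 473198) (.g (nat_lit 4550) (.e (nat_lit 3471) (nat_lit 217) (.e (nat_lit 696343) (nat_lit 8) (.e (nat_lit 172082) (nat_lit 7) (.e (nat_lit 409649) (nat_lit 18) (.e (nat_lit 303140) (nat_lit 10) (.e (nat_lit 434275) (nat_lit 39) (.e (nat_lit 663580) (nat_lit 9) (.e (nat_lit 2416) (nat_lit 157) .nil)))))))) (.g (nat_lit 1) (.e (nat_lit 92433) (nat_lit 0) .nil) .nil))) 
(.lf (nat_lit 473710) (.g (nat_lit 2246) (.e (nat_lit 1181) (nat_lit 87) (.e (nat_lit 57480) (nat_lit 28) (.e (nat_lit 557109) (nat_lit 15) (.e (nat_lit 188452) (nat_lit 23) (.e (nat_lit 204863) (nat_lit 27) .nil))))) (.g (nat_lit 0) (.e (nat_lit 94306) (nat_lit 0) .nil) .nil)))) (.nd (nat_lit 9) 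
(.lf (nat_lit 473454) (.g (nat_lit 1619) (.e (nat_lit 3577) (nat_lit 223) (.e (nat_lit 745491) (nat_lit 4) (.e (nat_lit 65598) (nat_lit 9) (.e (nat_lit 336013) (nat_lit 2) (.e (nat_lit 98048) (nat_lit 0) .nil))))) (.g (nat_lit 0) (.e (nat_lit 92905) (nat_lit 0) .nil) .nil))) 
(.lf (nat_lit 473966) (.g (nat_lit 3240) (.e (nat_lit 1214) (nat_lit 89) (.e (nat_lit 73746) (nat_lit 3) (.e (nat_lit 516166) (nat_lit 12) (.e (nat_lit 450588) (nat_lit 10) (.e (nat_lit 573473) (nat_lit 12) .nil))))) (.g (nat_lit 0) (.e (nat_lit 95091) (nat_lit 0) .nil) .nil))))) (.nd (nat_lit 8) (.nd (nat_lit 9) 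
(.lf (nat_lit 473326) (.g (nat_lit 3524) (.e (nat_lit 3471) (nat_lit 217) (.e (nat_lit 696344) (nat_lit 8) (.e (nat_lit 172082) (nat_lit 7) (.e (nat_lit 409646) (nat_lit 18) (.e (nat_lit 303140) (nat_lit 10) (.e (nat_lit 434200) (nat_lit 18) (.e (nat_lit 5964) (nat_lit 324) (.e (nat_lit 163844) (nat_lit 0) .nil)))))))) (.g (nat_lit 1) (.e (nat_lit 92562) (nat_lit 0) .nil) .nil))) 
(.lf (nat_lit 473838) (.g (nat_lit 2817) (.e (nat_lit 1192) (nat_lit 88) (.e (nat_lit 65568) (nat_lit 2) (.e (nat_lit 90170) (nat_lit 13) (.e (nat_lit 172113) (nat_lit 10) (.e (nat_lit 434248) (nat_lit 28) .nil))))) (.g (nat_lit 0) (.e (nat_lit 94808) (nat_lit 0) .nil) .nil)))) (.nd (nat_lit 9) 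
(.lf (nat_lit 473582) (.g (nat_lit 1845) (.e (nat_lit 1123) (nat_lit 83) (.e (nat_lit 16448) (nat_lit 10) (.e (nat_lit 434268) (nat_lit 36) (.e (nat_lit 639020) (nat_lit 16) (.e (nat_lit 65610) (nat_lit 10) .nil))))) (.g (nat_lit 0) (.e (nat_lit 93755) (nat_lit 0) .nil) .nil))) 
(.lf (nat_lit 474094) (.g (nat_lit 2357) (.e (nat_lit 1235) (nat_lit 91) (.e (nat_lit 90170) (nat_lit 13) (.e (nat_lit 172106) (nat_lit 10) (.e (nat_lit 434231) (nat_lit 23) (.e (nat_lit 532523) (nat_lit 7) .nil))))) (.g (nat_lit 0) (.e (nat_lit 95263) (nat_lit 0) .nil) .nil)))))))) (.nd (nat_lit 5) (.nd (nat_lit 6) (.nd (nat_lit 7) (.nd (nat_lit 8) (.nd (nat_lit 9) 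
(.lf (nat_lit 473118) (.g (nat_lit 3382) (.e (nat_lit 3469) (nat_lit 217) (.e (nat_lit 696344) (nat_lit 8) (.e (nat_lit 172116) (nat_lit 10) (.e (nat_lit 434289) (nat_lit 43) (.e (nat_lit 696346) (nat_lit 10) (.e (nat_lit 188440) (nat_lit 20) .nil)))))) (.g (nat_lit 1) (.e (nat_lit 92250) (nat_lit 0) .nil) .nil))) 
(.lf (nat_lit 473630) (.g (nat_lit 1441) (.e (nat_lit 1159) (nat_lit 86) (.e (nat_lit 49189) (nat_lit 11) (.e (nat_lit 16436) (nat_lit 9) (.e (nat_lit 426550) (nat_lit 31) (.e (nat_lit 368656) (nat_lit 14) (.e (nat_lit 57794) (nat_lit 245) .nil)))))) (.g (nat_lit 1) (.e (nat_lit 93888) (nat_lit 0) .nil) .nil)))) (.nd (nat_lit 9) 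
(.lf (nat_lit 473374) (.g (nat_lit 3536) (.e (nat_lit 3522) (nat_lit 218) (.e (nat_lit 704738) (nat_lit 11) (.e (nat_lit 16425) (nat_lit 7) (.e (nat_lit 409648) (nat_lit 18) (.e (nat_lit 303137) (nat_lit 10) .nil))))) (.g (nat_lit 0) (.e (nat_lit 92653) (nat_lit 0) .nil) .nil))) 
(.lf (nat_lit 473886) (.g (nat_lit 1667) (.e (nat_lit 1208) (nat_lit 89) (.e (nat_lit 73755) (nat_lit 8) (.e (nat_lit 557119) (nat_lit 18) (.e (nat_lit 2798) (nat_lit 180) .nil)))) (.g (nat_lit 0) (.e (nat_lit 94987) (nat_lit 0) .nil) .nil))))) (.nd (nat_lit 8) (.nd (nat_lit 9) 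
(.lf (nat_lit 473246) (.g (nat_lit 2490) (.e (nat_lit 3471) (nat_lit 217) (.e (nat_lit 696344) (nat_lit 8) (.e (nat_lit 172079) (nat_lit 7) (.e (nat_lit 409645) (nat_lit 18) (.e (nat_lit 303133) (nat_lit 9) (.e (nat_lit 426042) (nat_lit 0) (.e (nat_lit 2428) (nat_lit 157) (.e (nat_lit 5966) (nat_lit 324) (.e (nat_lit 163844) (nat_lit 0) .nil))))))))) (.g (nat_lit 1) (.e (nat_lit 92482) (nat_lit 0) .nil) .nil))) 
(.lf (nat_lit 473758) (.g (nat_lit 2983) (.e (nat_lit 1183) (nat_lit 87) (.e (nat_lit 57480) (nat_lit 28) (.e (nat_lit 557105) (nat_lit 14) (.e (nat_lit 180252) (nat_lit 10) (.e (nat_lit 573482) (nat_lit 13) .nil))))) (.g (nat_lit 0) (.e (nat_lit 94554) (nat_lit 0) .nil) .nil)))) (.nd (nat_lit 9) 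
(.lf (nat_lit 473502) (.g (nat_lit 4106) (.e (nat_lit 983) (nat_lit 81) (.e (nat_lit 2347) (nat_lit 151) (.e (nat_lit 778466) (nat_lit 11) (.e (nat_lit 24617) (nat_lit 7) (.e (nat_lit 319534) (nat_lit 16) (.e (nat_lit 286756) (nat_lit 10) (.e (nat_lit 344160) (nat_lit 37) (.e (nat_lit 647190) (nat_lit 9) .nil)))))))) (.g (nat_lit 1) (.e (nat_lit 93118) (nat_lit 0) .nil) .nil))) 
(.lf (nat_lit 474014) (.g (nat_lit 2375) (.e (nat_lit 1232) (nat_lit 91) (.e (nat_lit 90170) (nat_lit 13) (.e (nat_lit 172106) (nat_lit 10) (.e (nat_lit 434231) (nat_lit 23) (.e (nat_lit 532480) (nat_lit 0) .nil))))) (.g (nat_lit 0) (.e (nat_lit 95175) (nat_lit 0) .nil) .nil)))))) (.nd (nat_lit 7) (.nd (nat_lit 8) (.nd (nat_lit 9) 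
(.lf (nat_lit 473182) (.g (nat_lit 3934) (.e (nat_lit 3471) (nat_lit 217) (.e (nat_lit 696343) (nat_lit 8) (.e (nat_lit 172082) (nat_lit 7) (.e (nat_lit 409646) (nat_lit 18) (.e (nat_lit 303140) (nat_lit 10) (.e (nat_lit 434200) (nat_lit 18) (.e (nat_lit 5965) (nat_lit 324) (.e (nat_lit 163844) (nat_lit 0) .nil)))))))) (.g (nat_lit 1) (.e (nat_lit 92417) (nat_lit 0) .nil) .nil))) 
(.lf (nat_lit 473694) (.g (nat_lit 3108) (.e (nat_lit 1179) (nat_lit 87) (.e (nat_lit 57931) (nat_lit 282) (.e (nat_lit 163943) (nat_lit 19) (.e (nat_lit 483372) (nat_lit 21) (.e (nat_lit 319505) (nat_lit 10) (.e (nat_lit 618) (nat_lit 48) (.e (nat_lit 557094) (nat_lit 12) (.e (nat_lit 164238) (nat_lit 187) .nil)))))))) (.g (nat_lit 1) (.e (nat_lit 94269) (nat_lit 0) .nil) .nil)))) 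
(.nd (nat_lit 9) 
(.lf (nat_lit 473438) (.g (nat_lit 2050) (.e (nat_lit 3567) (nat_lit 222) (.e (nat_lit 737300) (nat_lit 7) (.e (nat_lit 286753) (nat_lit 10) (.e (nat_lit 344138) (nat_lit 29) (.e (nat_lit 581653) (nat_lit 6) (.e (nat_lit 188431) (nat_lit 20) .nil)))))) (.g (nat_lit 1) (.e (nat_lit 92852) (nat_lit 0) .nil) .nil))) 
(.lf (nat_lit 473950) (.g (nat_lit 1482) (.e (nat_lit 1211) (nat_lit 89) (.e (nat_lit 73782) (nat_lit 32) (.e (nat_lit 2857) (nat_lit 184) (.e (nat_lit 426544) (nat_lit 30) (.e (nat_lit 368384) (nat_lit 0) .nil))))) (.g (nat_lit 0) (.e (nat_lit 95072) (nat_lit 0) .nil) .nil))))) (.nd (nat_lit 8) (.nd (nat_lit 9) 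
(.lf (nat_lit 473310) (.g (nat_lit 1863) (.e (nat_lit 3471) (nat_lit 217) (.e (nat_lit 696344) (nat_lit 8) (.e (nat_lit 172082) (nat_lit 7) (.e (nat_lit 409646) (nat_lit 18) (.e (nat_lit 303133) (nat_lit 9) (.e (nat_lit 426043) (nat_lit 0) (.e (nat_lit 2422) (nat_lit 157) (.e (nat_lit 5966) (nat_lit 324) (.e (nat_lit 163844) (nat_lit 0) .nil))))))))) (.g (nat_lit 1) (.e (nat_lit 92546) (nat_lit 0) .nil) .nil))) 
(.lf (nat_lit 473822) (.g (nat_lit 1802) (.e (nat_lit 1189) (nat_lit 88) (.e (nat_lit 65628) (nat_lit 14) (.e (nat_lit 401456) (nat_lit 13) (.e (nat_lit 483394) (nat_lit 24) .nil)))) (.g (nat_lit 0) (.e (nat_lit 94781) (nat_lit 0) .nil) .nil)))) (.nd (nat_lit 9) 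
(.lf (nat_lit 473566) (.g (nat_lit 2219) (.e (nat_lit 1086) (nat_lit 81) (.e (nat_lit 1855) (nat_lit 124) (.e (nat_lit 557098) (nat_lit 13) (.e (nat_lit 172097) (nat_lit 9) (.e (nat_lit 426140) (nat_lit 3) .nil))))) (.g (nat_lit 0) (.e (nat_lit 93483) (nat_lit 0) .nil) .nil))) 
(.lf (nat_lit 474078) (.g (nat_lit 1200) (.e (nat_lit 1234) (nat_lit 91) (.e (nat_lit 90170) (nat_lit 13) (.e (nat_lit 172115) (nat_lit 10) (.e (nat_lit 434231) (nat_lit 23) .nil)))) (.g (nat_lit 0) (.e (nat_lit 95245) (nat_lit 0) .nil) .nil))))))) (.nd (nat_lit 6) (.nd (nat_lit 7) (.nd (nat_lit 8) (.nd (nat_lit 9) 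
(.lf (nat_lit 473150) (.g (nat_lit 1914) (.e (nat_lit 3471) (nat_lit 217) (.e (nat_lit 696343) (nat_lit 8) (.e (nat_lit 172079) (nat_lit 7) (.e (nat_lit 409645) (nat_lit 18) (.e (nat_lit 303140) (nat_lit 10) (.e (nat_lit 434275) (nat_lit 39) (.e (nat_lit 663579) (nat_lit 9) (.e (nat_lit 2427) (nat_lit 157) .nil)))))))) (.g (nat_lit 1) (.e (nat_lit 92385) (nat_lit 0) .nil) .nil))) 
(.lf (nat_lit 473662) (.g (nat_lit 1911) (.e (nat_lit 1169) (nat_lit 87) (.e (nat_lit 57464) (nat_lit 23) (.e (nat_lit 516129) (nat_lit 3) (.e (nat_lit 221210) (nat_lit 22) (.e (nat_lit 196668) (nat_lit 14) .nil))))) (.g (nat_lit 0) (.e (nat_lit 93996) (nat_lit 0) .nil) .nil)))) (.nd (nat_lit 9) 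
(.lf (nat_lit 473406) (.g (nat_lit 1512) (.e (nat_lit 3544) (nat_lit 219) (.e (nat_lit 712753) (nat_lit 30) (.e (nat_lit 450586) (nat_lit 10) (.e (nat_lit 573473) (nat_lit 12) (.e (nat_lit 57508) (nat_lit 39) (.e (nat_lit 647199) (nat_lit 11) (.e (nat_lit 16386) (nat_lit 0) .nil))))))) (.g (nat_lit 1) (.e (nat_lit 92782) (nat_lit 0) .nil) .nil))) 
(.lf (nat_lit 473918) (.g (nat_lit 1490) (.e (nat_lit 1209) (nat_lit 89) (.e (nat_lit 73782) (nat_lit 32) (.e (nat_lit 3089) (nat_lit 191) (.e (nat_lit 483393) (nat_lit 23) (.e (nat_lit 335993) (nat_lit 1) .nil))))) (.g (nat_lit 0) (.e (nat_lit 95034) (nat_lit 0) .nil) .nil))))) (.nd (nat_lit 8) (.nd (nat_lit 9) 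
(.lf (nat_lit 473278) (.g (nat_lit 2170) (.e (nat_lit 3471) (nat_lit 217) (.e (nat_lit 696344) (nat_lit 8) (.e (nat_lit 172079) (nat_lit 7) (.e (nat_lit 409645) (nat_lit 18) (.e (nat_lit 303139) (nat_lit 10) .nil))))) (.g (nat_lit 0) (.e (nat_lit 92514) (nat_lit 0) .nil) .nil))) 
(.lf (nat_lit 473790) (.g (nat_lit 2968) (.e (nat_lit 1183) (nat_lit 87) (.e (nat_lit 57575) (nat_lit 55) (.e (nat_lit 778466) (nat_lit 11) (.e (nat_lit 24617) (nat_lit 7) (.e (nat_lit 319533) (nat_lit 16) (.e (nat_lit 286753) (nat_lit 10) (.e (nat_lit 344090) (nat_lit 18) (.e (nat_lit 5441) (nat_lit 306) .nil)))))))) (.g (nat_lit 1) (.e (nat_lit 94624) (nat_lit 0) .nil) .nil)))) (.nd (nat_lit 9) 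
(.lf (nat_lit 473534) (.g (nat_lit 4441) (.e (nat_lit 1047) (nat_lit 81) (.e (nat_lit 2342) (nat_lit 151) (.e (nat_lit 778466) (nat_lit 11) (.e (nat_lit 24617) (nat_lit 7) (.e (nat_lit 319534) (nat_lit 16) (.e (nat_lit 286756) (nat_lit 10) (.e (nat_lit 344160) (nat_lit 37) (.e (nat_lit 647190) (nat_lit 9) .nil)))))))) (.g (nat_lit 1) (.e (nat_lit 93352) (nat_lit 0) .nil) .nil))) 
(.lf (nat_lit 474046) (.g (nat_lit 4171) (.e (nat_lit 1234) (nat_lit 91) (.e (nat_lit 90170) (nat_lit 13) (.e (nat_lit 172106) (nat_lit 10) (.e (nat_lit 434231) (nat_lit 23) (.e (nat_lit 532535) (nat_lit 9) (.e (nat_lit 336295) (nat_lit 15) (.e (nat_lit 2443) (nat_lit 157) (.e (nat_lit 6921) (nat_lit 371) (.e (nat_lit 1039) (nat_lit 81) .nil))))))))) (.g (nat_lit 1) (.e (nat_lit 95213) (nat_lit 0) .nil) .nil)))))) 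
(.nd (nat_lit 7) (.nd (nat_lit 8) (.nd (nat_lit 9) 
(.lf (nat_lit 473214) (.g (nat_lit 3027) (.e (nat_lit 3471) (nat_lit 217) (.e (nat_lit 696343) (nat_lit 8) (.e (nat_lit 172113) (nat_lit 10) (.e (nat_lit 434208) (nat_lit 18) (.e (nat_lit 6255) (nat_lit 337) (.e (nat_lit 2725) (nat_lit 172) (.e (nat_lit 237605) (nat_lit 9) (.e (nat_lit 425986) (nat_lit 0) .nil)))))))) (.g (nat_lit 1) (.e (nat_lit 92449) (nat_lit 0) .nil) .nil))) 
(.lf (nat_lit 473726) (.g (nat_lit 4922) (.e (nat_lit 1183) (nat_lit 87) (.e (nat_lit 57478) (nat_lit 28) (.e (nat_lit 557109) (nat_lit 15) (.e (nat_lit 188449) (nat_lit 22) (.e (nat_lit 196669) (nat_lit 14) .nil))))) (.g (nat_lit 0) (.e (nat_lit 94522) (nat_lit 0) .nil) .nil)))) (.nd (nat_lit 9) 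
(.lf (nat_lit 473470) (.g (nat_lit 1983) (.e (nat_lit 3579) (nat_lit 223) (.e (nat_lit 745491) (nat_lit 4) (.e (nat_lit 65598) (nat_lit 9) (.e (nat_lit 336013) (nat_lit 2) (.e (nat_lit 98048) (nat_lit 0) (.e (nat_lit 459) (nat_lit 34) (.e (nat_lit 442402) (nat_lit 20) .nil))))))) (.g (nat_lit 1) (.e (nat_lit 92929) (nat_lit 0) .nil) .nil))) 
(.lf (nat_lit 473982) (.g (nat_lit 2375) (.e (nat_lit 1225) (nat_lit 91) (.e (nat_lit 90170) (nat_lit 13) (.e (nat_lit 172106) (nat_lit 10) (.e (nat_lit 434231) (nat_lit 23) (.e (nat_lit 532486) (nat_lit 0) .nil))))) (.g (nat_lit 0) (.e (nat_lit 95135) (nat_lit 0) .nil) .nil))))) (.nd (nat_lit 8) (.nd (nat_lit 9) 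
(.lf (nat_lit 473342) (.g (nat_lit 3200) (.e (nat_lit 3471) (nat_lit 217) (.e (nat_lit 696344) (nat_lit 8) (.e (nat_lit 172082) (nat_lit 7) (.e (nat_lit 409649) (nat_lit 18) (.e (nat_lit 303140) (nat_lit 10) (.e (nat_lit 434275) (nat_lit 39) (.e (nat_lit 663580) (nat_lit 9) (.e (nat_lit 7936) (nat_lit 157) .nil)))))))) (.g (nat_lit 1) (.e (nat_lit 92578) (nat_lit 0) .nil) .nil))) 
(.lf (nat_lit 473854) (.g (nat_lit 1981) (.e (nat_lit 1199) (nat_lit 88) (.e (nat_lit 65628) (nat_lit 14) (.e (nat_lit 401456) (nat_lit 13) (.e (nat_lit 483394) (nat_lit 24) .nil)))) (.g (nat_lit 0) (.e (nat_lit 94834) (nat_lit 0) .nil) .nil)))) (.nd (nat_lit 9) 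
(.lf (nat_lit 473598) (.g (nat_lit 2583) (.e (nat_lit 1126) (nat_lit 83) (.e (nat_lit 16470) (nat_lit 14) (.e (nat_lit 491571) (nat_lit 13) (.e (nat_lit 393283) (nat_lit 24) .nil)))) (.g (nat_lit 0) (.e (nat_lit 93780) (nat_lit 0) .nil) .nil))) 
(.lf (nat_lit 474110) (.g (nat_lit 1426) (.e (nat_lit 1235) (nat_lit 91) (.e (nat_lit 90170) (nat_lit 13) (.e (nat_lit 172113) (nat_lit 10) (.e (nat_lit 434238) (nat_lit 25) (.e (nat_lit 548913) (nat_lit 18) .nil))))) (.g (nat_lit 0) (.e (nat_lit 95279) (nat_lit 0) .nil) .nil)))))))))))) 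
(.nd (nat_lit 1) (.nd (nat_lit 2) (.nd (nat_lit 3) (.nd (nat_lit 4) (.nd (nat_lit 5) 
(.nd (nat_lit 6) (.nd (nat_lit 7) (.nd (nat_lit 8) (.nd (nat_lit 9) 
(.lf (nat_lit 473089) (.g (nat_lit 2232) (.e (nat_lit 3469) (nat_lit 217) (.e (nat_lit 696344) (nat_lit 8) (.e (nat_lit 172113) (nat_lit 10) (.e (nat_lit 434286) (nat_lit 42) (.e (nat_lit 696064) (nat_lit 10) (.e (nat_lit 188435) (nat_lit 20) .nil)))))) (.g (nat_lit 1) (.e (nat_lit 92221) (nat_lit 0) .nil) .nil))) 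
(.lf (nat_lit 473601) (.g (nat_lit 2782) (.e (nat_lit 1127) (nat_lit 83) (.e (nat_lit 16470) (nat_lit 14) (.e (nat_lit 491571) (nat_lit 13) (.e (nat_lit 393282) (nat_lit 24) .nil)))) (.g (nat_lit 0) (.e (nat_lit 93783) (nat_lit 0) .nil) .nil)))) (.nd (nat_lit 9) 
(.lf (nat_lit 473345) (.g (nat_lit 1930) (.e (nat_lit 3471) (nat_lit 217) (.e (nat_lit 696344) (nat_lit 8) (.e (nat_lit 172106) (nat_lit 10) (.e (nat_lit 434202) (nat_lit 18) (.e (nat_lit 6254) (nat_lit 337) (.e (nat_lit 2725) (nat_lit 172) (.e (nat_lit 237605) (nat_lit 9) (.e (nat_lit 425986) (nat_lit 0) .nil)))))))) (.g (nat_lit 1) (.e (nat_lit 92581) (nat_lit 0) .nil) .nil))) 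
(.lf (nat_lit 473857) (.g (nat_lit 1237) (.e (nat_lit 1199) (nat_lit 88) (.e (nat_lit 65630) (nat_lit 14) (.e (nat_lit 401435) (nat_lit 9) (.e (nat_lit 426546) (nat_lit 30) .nil)))) (.g (nat_lit 0) (.e (nat_lit 94837) (nat_lit 0) .nil) .nil))))) (.nd (nat_lit 8) (.nd (nat_lit 9) 
(.lf (nat_lit 473217) (.g (nat_lit 1949) (.e (nat_lit 3471) (nat_lit 217) (.e (nat_lit 696343) (nat_lit 8) (.e (nat_lit 172123) (nat_lit 13) (.e (nat_lit 483410) (nat_lit 27) (.e (nat_lit 401440) (nat_lit 9) .nil))))) (.g (nat_lit 0) (.e (nat_lit 92452) (nat_lit 0) .nil) .nil))) 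
(.lf (nat_lit 473729) (.g (nat_lit 3504) (.e (nat_lit 1183) (nat_lit 87) (.e (nat_lit 57478) (nat_lit 28) (.e (nat_lit 557109) (nat_lit 15) (.e (nat_lit 188450) (nat_lit 23) (.e (nat_lit 204863) (nat_lit 27) .nil))))) (.g (nat_lit 0) (.e (nat_lit 94525) (nat_lit 0) .nil) .nil)))) (.nd (nat_lit 9) 
(.lf (nat_lit 473473) (.g (nat_lit 932) (.e (nat_lit 3579) (nat_lit 223) (.e (nat_lit 745491) (nat_lit 4) (.e (nat_lit 65617) (nat_lit 10) (.e (nat_lit 344136) (nat_lit 29) .nil)))) (.g (nat_lit 0) (.e (nat_lit 92932) (nat_lit 0) .nil) .nil))) 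
(.lf (nat_lit 473985) (.g (nat_lit 2581) (.e (nat_lit 1225) (nat_lit 91) (.e (nat_lit 90170) (nat_lit 13) (.e (nat_lit 172106) (nat_lit 10) (.e (nat_lit 434231) (nat_lit 23) (.e (nat_lit 532523) (nat_lit 7) .nil))))) (.g (nat_lit 0) (.e (nat_lit 95138) (nat_lit 0) .nil) .nil)))))) (.nd (nat_lit 7) (.nd (nat_lit 8) (.nd (nat_lit 9) 
(.lf (nat_lit 473153) (.g (nat_lit 3093) (.e (nat_lit 3471) (nat_lit 217) (.e (nat_lit 696343) (nat_lit 8) (.e (nat_lit 172082) (nat_lit 7) (.e (nat_lit 409646) (nat_lit 18) (.e (nat_lit 303133) (nat_lit 9) (.e (nat_lit 426042) (nat_lit 0) (.e (nat_lit 2427) (nat_lit 157) (.e (nat_lit 5964) (nat_lit 324) (.e (nat_lit 163844) (nat_lit 0) .nil))))))))) (.g (nat_lit 1) (.e (nat_lit 92388) (nat_lit 0) .nil) .nil))) 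
(.lf (nat_lit 473665) (.g (nat_lit 2880) (.e (nat_lit 1171) (nat_lit 87) (.e (nat_lit 57572) (nat_lit 54) (.e (nat_lit 770072) (nat_lit 8) (.e (nat_lit 65583) (nat_lit 7) (.e (nat_lit 319530) (nat_lit 16) (.e (nat_lit 286748) (nat_lit 9) (.e (nat_lit 336295) (nat_lit 15) (.e (nat_lit 2443) (nat_lit 157) (.e (nat_lit 7660) (nat_lit 410) .nil))))))))) (.g (nat_lit 1) (.e (nat_lit 94066) (nat_lit 0) .nil) .nil)))) 
(.nd (nat_lit 9) 
(.lf (nat_lit 473409) (.g (nat_lit 2059) (.e (nat_lit 3544) (nat_lit 219) (.e (nat_lit 712753) (nat_lit 30) (.e (nat_lit 450586) (nat_lit 10) (.e (nat_lit 573475) (nat_lit 12) (.e (nat_lit 57506) (nat_lit 39) .nil))))) (.g (nat_lit 0) (.e (nat_lit 92785) (nat_lit 0) .nil) .nil))) 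
(.lf (nat_lit 473921) (.g (nat_lit 2276) (.e (nat_lit 1210) (nat_lit 89) (.e (nat_lit 73782) (nat_lit 32) (.e (nat_lit 2856) (nat_lit 184) (.e (nat_lit 426542) (nat_lit 29) (.e (nat_lit 352307) (nat_lit 21) .nil))))) (.g (nat_lit 0) (.e (nat_lit 95038) (nat_lit 0) .nil) .nil))))) (.nd (nat_lit 8) (.nd (nat_lit 9) 
(.lf (nat_lit 473281) (.g (nat_lit 2325) (.e (nat_lit 3471) (nat_lit 217) (.e (nat_lit 696344) (nat_lit 8) (.e (nat_lit 172079) (nat_lit 7) (.e (nat_lit 409645) (nat_lit 18) (.e (nat_lit 303139) (nat_lit 10) (.e (nat_lit 434208) (nat_lit 18) (.e (nat_lit 5964) (nat_lit 324) (.e (nat_lit 163844) (nat_lit 0) .nil)))))))) (.g (nat_lit 1) (.e (nat_lit 92517) (nat_lit 0) .nil) .nil))) 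
(.lf (nat_lit 473793) (.g (nat_lit 2502) (.e (nat_lit 1183) (nat_lit 87) (.e (nat_lit 57575) (nat_lit 55) (.e (nat_lit 778466) (nat_lit 11) (.e (nat_lit 24617) (nat_lit 7) (.e (nat_lit 319533) (nat_lit 16) (.e (nat_lit 286754) (nat_lit 10) (.e (nat_lit 344091) (nat_lit 18) (.e (nat_lit 5455) (nat_lit 306) .nil)))))))) (.g (nat_lit 1) (.e (nat_lit 94627) (nat_lit 0) .nil) .nil)))) (.nd (nat_lit 9) 
(.lf (nat_lit 473537) (.g (nat_lit 4594) (.e (nat_lit 1039) (nat_lit 81) (.e (nat_lit 2342) (nat_lit 151) (.e (nat_lit 778466) (nat_lit 11) (.e (nat_lit 24617) (nat_lit 7) (.e (nat_lit 319534) (nat_lit 16) (.e (nat_lit 286756) (nat_lit 10) (.e (nat_lit 344160) (nat_lit 37) (.e (nat_lit 647195) (nat_lit 9) .nil)))))))) (.g (nat_lit 1) (.e (nat_lit 93371) (nat_lit 0) .nil) .nil))) 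
(.lf (nat_lit 474049) (.g (nat_lit 4691) (.e (nat_lit 1234) (nat_lit 91) (.e (nat_lit 90170) (nat_lit 13) (.e (nat_lit 172106) (nat_lit 10) (.e (nat_lit 434231) (nat_lit 23) (.e (nat_lit 532535) (nat_lit 9) (.e (nat_lit 336295) (nat_lit 15) (.e (nat_lit 2444) (nat_lit 157) (.e (nat_lit 6883) (nat_lit 371) (.e (nat_lit 1041) (nat_lit 81) .nil))))))))) (.g (nat_lit 1) (.e (nat_lit 95216) (nat_lit 0) .nil) .nil))))))) 
(.nd (nat_lit 6) (.nd (nat_lit 7) (.nd (nat_lit 8) (.nd (nat_lit 9) 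
(.lf (nat_lit 473121) (.g (nat_lit 2384) (.e (nat_lit 3469) (nat_lit 217) (.e (nat_lit 696344) (nat_lit 8) (.e (nat_lit 172123) (nat_lit 13) (.e (nat_lit 483410) (nat_lit 27) (.e (nat_lit 401439) (nat_lit 9) (.e (nat_lit 426043) (nat_lit 0) .nil)))))) (.g (nat_lit 1) (.e (nat_lit 92253) (nat_lit 0) .nil) .nil))) 
(.lf (nat_lit 473633) (.g (nat_lit 939) (.e (nat_lit 1160) (nat_lit 86) (.e (nat_lit 49157) (nat_lit 0) (.e (nat_lit 3020) (nat_lit 187) (.e (nat_lit 450584) (nat_lit 9) (.e (nat_lit 565268) (nat_lit 5) (.e (nat_lit 73791) (nat_lit 45) .nil)))))) (.g (nat_lit 1) (.e (nat_lit 93899) (nat_lit 0) .nil) .nil)))) (.nd (nat_lit 9) 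
(.lf (nat_lit 473377) (.g (nat_lit 4007) (.e (nat_lit 3526) (nat_lit 218) (.e (nat_lit 704738) (nat_lit 11) (.e (nat_lit 16425) (nat_lit 7) (.e (nat_lit 409648) (nat_lit 18) (.e (nat_lit 303137) (nat_lit 10) (.e (nat_lit 434275) (nat_lit 39) (.e (nat_lit 663574) (nat_lit 9) (.e (nat_lit 2418) (nat_lit 157) .nil)))))))) (.g (nat_lit 1) (.e (nat_lit 92656) (nat_lit 0) .nil) .nil))) 
(.lf (nat_lit 473889) (.g (nat_lit 1295) (.e (nat_lit 1209) (nat_lit 89) (.e (nat_lit 73781) (nat_lit 32) (.e (nat_lit 2856) (nat_lit 184) (.e (nat_lit 426538) (nat_lit 29) .nil)))) (.g (nat_lit 0) (.e (nat_lit 95005) (nat_lit 0) .nil) .nil))))) (.nd (nat_lit 8) (.nd (nat_lit 9) 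
(.lf (nat_lit 473249) (.g (nat_lit 3027) (.e (nat_lit 3471) (nat_lit 217) (.e (nat_lit 696344) (nat_lit 8) (.e (nat_lit 172079) (nat_lit 7) (.e (nat_lit 409645) (nat_lit 18) (.e (nat_lit 303133) (nat_lit 9) (.e (nat_lit 426042) (nat_lit 0) (.e (nat_lit 2442) (nat_lit 157) (.e (nat_lit 5964) (nat_lit 324) (.e (nat_lit 163844) (nat_lit 0) .nil))))))))) (.g (nat_lit 1) (.e (nat_lit 92485) (nat_lit 0) .nil) .nil))) 
(.lf (nat_lit 473761) (.g (nat_lit 2504) (.e (nat_lit 1183) (nat_lit 87) (.e (nat_lit 57480) (nat_lit 28) (.e (nat_lit 557107) (nat_lit 15) (.e (nat_lit 188450) (nat_lit 23) (.e (nat_lit 204864) (nat_lit 27) .nil))))) (.g (nat_lit 0) (.e (nat_lit 94557) (nat_lit 0) .nil) .nil)))) (.nd (nat_lit 9) 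
(.lf (nat_lit 473505) (.g (nat_lit 1258) (.e (nat_lit 989) (nat_lit 81) (.e (nat_lit 501) (nat_lit 40) (.e (nat_lit 491568) (nat_lit 13) (.e (nat_lit 393301) (nat_lit 27) .nil)))) (.g (nat_lit 0) (.e (nat_lit 93145) (nat_lit 0) .nil) .nil))) 
(.lf (nat_lit 474017) (.g (nat_lit 1947) (.e (nat_lit 1232) (nat_lit 91) (.e (nat_lit 90170) (nat_lit 13) (.e (nat_lit 172106) (nat_lit 10) (.e (nat_lit 434231) (nat_lit 23) (.e (nat_lit 532486) (nat_lit 0) .nil))))) (.g (nat_lit 0) (.e (nat_lit 95178) (nat_lit 0) .nil) .nil)))))) (.nd (nat_lit 7) (.nd (nat_lit 8) (.nd (nat_lit 9) 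
(.lf (nat_lit 473185) (.g (nat_lit 4163) (.e (nat_lit 3471) (nat_lit 217) (.e (nat_lit 696343) (nat_lit 8) (.e (nat_lit 172082) (nat_lit 7) (.e (nat_lit 409646) (nat_lit 18) (.e (nat_lit 303140) (nat_lit 10) (.e (nat_lit 434202) (nat_lit 18) (.e (nat_lit 5968) (nat_lit 324) (.e (nat_lit 163844) (nat_lit 0) .nil)))))))) (.g (nat_lit 1) (.e (nat_lit 92420) (nat_lit 0) .nil) .nil))) 
(.lf (nat_lit 473697) (.g (nat_lit 3322) (.e (nat_lit 1181) (nat_lit 87) (.e (nat_lit 57478) (nat_lit 28) (.e (nat_lit 557109) (nat_lit 15) (.e (nat_lit 188447) (nat_lit 22) (.e (nat_lit 196668) (nat_lit 14) .nil))))) (.g (nat_lit 0) (.e (nat_lit 94282) (nat_lit 0) .nil) .nil)))) (.nd (nat_lit 9) 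
(.lf (nat_lit 473441) (.g (nat_lit 950) (.e (nat_lit 3571) (nat_lit 222) (.e (nat_lit 737283) (nat_lit 0) (.e (nat_lit 5410) (nat_lit 303) (.e (nat_lit 73750) (nat_lit 6) (.e (nat_lit 540724) (nat_lit 28) (.e (nat_lit 442399) (nat_lit 20) .nil)))))) (.g (nat_lit 1) (.e (nat_lit 92856) (nat_lit 0) .nil) .nil))) 
(.lf (nat_lit 473953) (.g (nat_lit 3216) (.e (nat_lit 1212) (nat_lit 89) (.e (nat_lit 73747) (nat_lit 3) (.e (nat_lit 516165) (nat_lit 12) (.e (nat_lit 450588) (nat_lit 10) (.e (nat_lit 573473) (nat_lit 12) .nil))))) (.g (nat_lit 0) (.e (nat_lit 95076) (nat_lit 0) .nil) .nil))))) (.nd (nat_lit 8) (.nd (nat_lit 9) 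
(.lf (nat_lit 473313) (.g (nat_lit 2257) (.e (nat_lit 3471) (nat_lit 217) (.e (nat_lit 696344) (nat_lit 8) (.e (nat_lit 172082) (nat_lit 7) (.e (nat_lit 409646) (nat_lit 18) (.e (nat_lit 303133) (nat_lit 9) (.e (nat_lit 426146) (nat_lit 4) (.e (nat_lit 229710) (nat_lit 258) (.e (nat_lit 163844) (nat_lit 0) .nil)))))))) (.g (nat_lit 1) (.e (nat_lit 92549) (nat_lit 0) .nil) .nil))) 
(.lf (nat_lit 473825) (.g (nat_lit 1983) (.e (nat_lit 1189) (nat_lit 88) (.e (nat_lit 65630) (nat_lit 14) (.e (nat_lit 401437) (nat_lit 9) (.e (nat_lit 426544) (nat_lit 30) .nil)))) (.g (nat_lit 0) (.e (nat_lit 94784) (nat_lit 0) .nil) .nil)))) (.nd (nat_lit 9) 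
(.lf (nat_lit 473569) (.g (nat_lit 2605) (.e (nat_lit 7936) (nat_lit 81) (.e (nat_lit 371) (nat_lit 32) (.e (nat_lit 426566) (nat_lit 34) (.e (nat_lit 393273) (nat_lit 23) .nil)))) (.g (nat_lit 0) (.e (nat_lit 93520) (nat_lit 0) .nil) .nil))) 
(.lf (nat_lit 474081) (.g (nat_lit 2056) (.e (nat_lit 1234) (nat_lit 91) (.e (nat_lit 90174) (nat_lit 14) (.e (nat_lit 180250) (nat_lit 10) (.e (nat_lit 573487) (nat_lit 14) (.e (nat_lit 73753) (nat_lit 8) .nil))))) (.g (nat_lit 0) (.e (nat_lit 95248) (nat_lit 0) .nil) .nil)))))))) (.nd (nat_lit 5) (.nd (nat_lit 6) (.nd (nat_lit 7) (.nd (nat_lit 8) (.nd (nat_lit 9) 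
(.lf (nat_lit 473105) (.g (nat_lit 1797) (.e (nat_lit 3469) (nat_lit 217) (.e (nat_lit 696344) (nat_lit 8) (.e (nat_lit 172115) (nat_lit 10) (.e (nat_lit 434209) (nat_lit 18) (.e (nat_lit 6272) (nat_lit 337) .nil))))) (.g (nat_lit 0) (.e (nat_lit 92237) (nat_lit 0) .nil) .nil))) 
(.lf (nat_lit 473617) (.g (nat_lit 1252) (.e (nat_lit 1141) (nat_lit 84) (.e (nat_lit 32787) (nat_lit 9) (.e (nat_lit 65586) (nat_lit 7) (.e (nat_lit 319500) (nat_lit 10) (.e (nat_lit 7936) (nat_lit 45) (.e (nat_lit 532544) (nat_lit 10) (.e (nat_lit 344081) (nat_lit 13) .nil))))))) (.g (nat_lit 1) (.e (nat_lit 93851) (nat_lit 0) .nil) .nil)))) (.nd (nat_lit 9) 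
(.lf (nat_lit 473361) (.g (nat_lit 2328) (.e (nat_lit 3497) (nat_lit 218) (.e (nat_lit 704738) (nat_lit 11) (.e (nat_lit 16425) (nat_lit 7) (.e (nat_lit 409649) (nat_lit 18) .nil)))) (.g (nat_lit 0) (.e (nat_lit 92635) (nat_lit 0) .nil) .nil))) 
(.lf (nat_lit 473873) (.g (nat_lit 2168) (.e (nat_lit 1201) (nat_lit 88) (.e (nat_lit 65568) (nat_lit 2) (.e (nat_lit 90170) (nat_lit 13) (.e (nat_lit 172113) (nat_lit 10) (.e (nat_lit 434247) (nat_lit 28) .nil))))) (.g (nat_lit 0) (.e (nat_lit 94873) (nat_lit 0) .nil) .nil))))) (.nd (nat_lit 8) (.nd (nat_lit 9) 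
(.lf (nat_lit 473233) (.g (nat_lit 546) (.e (nat_lit 3471) (nat_lit 217) (.e (nat_lit 696344) (nat_lit 8) (.e (nat_lit 172076) (nat_lit 6) .nil))) (.g (nat_lit 0) (.e (nat_lit 92468) (nat_lit 0) .nil) .nil))) 
(.lf (nat_lit 473745) (.g (nat_lit 3092) (.e (nat_lit 1183) (nat_lit 87) (.e (nat_lit 57479) (nat_lit 28) (.e (nat_lit 557105) (nat_lit 14) (.e (nat_lit 180252) (nat_lit 10) (.e (nat_lit 573481) (nat_lit 13) .nil))))) (.g (nat_lit 0) (.e (nat_lit 94541) (nat_lit 0) .nil) .nil)))) (.nd (nat_lit 9) 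
(.lf (nat_lit 473489) (.g (nat_lit 2971) (.e (nat_lit 970) (nat_lit 81) (.e (nat_lit 2307) (nat_lit 151) (.e (nat_lit 778466) (nat_lit 11) (.e (nat_lit 24617) (nat_lit 7) (.e (nat_lit 319534) (nat_lit 16) (.e (nat_lit 286756) (nat_lit 10) (.e (nat_lit 344160) (nat_lit 37) (.e (nat_lit 647188) (nat_lit 9) .nil)))))))) (.g (nat_lit 1) (.e (nat_lit 93023) (nat_lit 0) .nil) .nil))) 
(.lf (nat_lit 474001) (.g (nat_lit 2855) (.e (nat_lit 1227) (nat_lit 91) (.e (nat_lit 90172) (nat_lit 14) (.e (nat_lit 180250) (nat_lit 10) (.e (nat_lit 573489) (nat_lit 14) (.e (nat_lit 73755) (nat_lit 8) .nil))))) (.g (nat_lit 0) (.e (nat_lit 95155) (nat_lit 0) .nil) .nil)))))) (.nd (nat_lit 7) (.nd (nat_lit 8) (.nd (nat_lit 9) 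
(.lf (nat_lit 473169) (.g (nat_lit 1982) (.e (nat_lit 3471) (nat_lit 217) (.e (nat_lit 696343) (nat_lit 8) (.e (nat_lit 172082) (nat_lit 7) (.e (nat_lit 409646) (nat_lit 18) (.e (nat_lit 303133) (nat_lit 9) (.e (nat_lit 426043) (nat_lit 0) (.e (nat_lit 2442) (nat_lit 157) (.e (nat_lit 5964) (nat_lit 324) (.e (nat_lit 163844) (nat_lit 0) .nil))))))))) (.g (nat_lit 1) (.e (nat_lit 92404) (nat_lit 0) .nil) .nil))) 
(.lf (nat_lit 473681) (.g (nat_lit 2636) (.e (nat_lit 1177) (nat_lit 87) (.e (nat_lit 57479) (nat_lit 28) (.e (nat_lit 557105) (nat_lit 14) (.e (nat_lit 180251) (nat_lit 10) (.e (nat_lit 573485) (nat_lit 13) .nil))))) (.g (nat_lit 0) (.e (nat_lit 94188) (nat_lit 0) .nil) .nil)))) (.nd (nat_lit 9) 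
(.lf (nat_lit 473425) (.g (nat_lit 1880) (.e (nat_lit 3548) (nat_lit 219) (.e (nat_lit 712753) (nat_lit 30) (.e (nat_lit 450586) (nat_lit 10) (.e (nat_lit 573473) (nat_lit 12) (.e (nat_lit 57510) (nat_lit 39) (.e (nat_lit 647199) (nat_lit 11) (.e (nat_lit 16388) (nat_lit 0) .nil))))))) (.g (nat_lit 1) (.e (nat_lit 92804) (nat_lit 0) .nil) .nil))) 
(.lf (nat_lit 473937) (.g (nat_lit 1167) (.e (nat_lit 1211) (nat_lit 89) (.e (nat_lit 73781) (nat_lit 32) (.e (nat_lit 3090) (nat_lit 191) (.e (nat_lit 483394) (nat_lit 24) .nil)))) (.g (nat_lit 0) (.e (nat_lit 95059) (nat_lit 0) .nil) .nil))))) (.nd (nat_lit 8) (.nd (nat_lit 9) 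
(.lf (nat_lit 473297) (.g (nat_lit 2138) (.e (nat_lit 3471) (nat_lit 217) (.e (nat_lit 696344) (nat_lit 8) (.e (nat_lit 172082) (nat_lit 7) (.e (nat_lit 409646) (nat_lit 18) (.e (nat_lit 303133) (nat_lit 9) (.e (nat_lit 426042) (nat_lit 0) (.e (nat_lit 2428) (nat_lit 157) (.e (nat_lit 5964) (nat_lit 324) (.e (nat_lit 163844) (nat_lit 0) .nil))))))))) (.g (nat_lit 1) (.e (nat_lit 92533) (nat_lit 0) .nil) .nil))) 
(.lf (nat_lit 473809) (.g (nat_lit 4497) (.e (nat_lit 1183) (nat_lit 87) (.e (nat_lit 57575) (nat_lit 55) (.e (nat_lit 778466) (nat_lit 11) (.e (nat_lit 24617) (nat_lit 7) (.e (nat_lit 319534) (nat_lit 16) (.e (nat_lit 286756) (nat_lit 10) (.e (nat_lit 344090) (nat_lit 18) (.e (nat_lit 5455) (nat_lit 306) .nil)))))))) (.g (nat_lit 1) (.e (nat_lit 94644) (nat_lit 0) .nil) .nil)))) (.nd (nat_lit 9) 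
(.lf (nat_lit 473553) (.g (nat_lit 2465) (.e (nat_lit 1068) (nat_lit 81) (.e (nat_lit 1638) (nat_lit 114) (.e (nat_lit 385068) (nat_lit 26) (.e (nat_lit 532558) (nat_lit 14) (.e (nat_lit 376842) (nat_lit 11) .nil))))) (.g (nat_lit 0) (.e (nat_lit 93421) (nat_lit 0) .nil) .nil))) 
(.lf (nat_lit 474065) (.g (nat_lit 3002) (.e (nat_lit 1234) (nat_lit 91) (.e (nat_lit 90170) (nat_lit 13) (.e (nat_lit 172113) (nat_lit 10) (.e (nat_lit 434245) (nat_lit 28) (.e (nat_lit 573450) (nat_lit 9) (.e (nat_lit 452) (nat_lit 33) (.e (nat_lit 434177) (nat_lit 0) .nil))))))) (.g (nat_lit 1) (.e (nat_lit 95232) (nat_lit 0) .nil) .nil))))))) 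
(.nd (nat_lit 6) (.nd (nat_lit 7) (.nd (nat_lit 8) (.nd (nat_lit 9) 
(.lf (nat_lit 473137) (.g (nat_lit 1613) (.e (nat_lit 3471) (nat_lit 217) (.e (nat_lit 696343) (nat_lit 8) (.e (nat_lit 172079) (nat_lit 7) (.e (nat_lit 409645) (nat_lit 18) (.e (nat_lit 303133) (nat_lit 9) (.e (nat_lit 426043) (nat_lit 0) (.e (nat_lit 2422) (nat_lit 157) (.e (nat_lit 5965) (nat_lit 324) (.e (nat_lit 163844) (nat_lit 0) .nil))))))))) (.g (nat_lit 1) (.e (nat_lit 92372) (nat_lit 0) .nil) .nil))) 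
(.lf (nat_lit 473649) (.g (nat_lit 146) (.e (nat_lit 1163) (nat_lit 86) (.e (nat_lit 49157) (nat_lit 0) (.e (nat_lit 2997) (nat_lit 186) .nil))) (.g (nat_lit 0) (.e (nat_lit 93961) (nat_lit 0) .nil) .nil)))) (.nd (nat_lit 9) 
(.lf (nat_lit 473393) (.g (nat_lit 3278) (.e (nat_lit 3543) (nat_lit 219) (.e (nat_lit 712755) (nat_lit 30) (.e (nat_lit 450587) (nat_lit 10) (.e (nat_lit 573475) (nat_lit 12) (.e (nat_lit 57503) (nat_lit 38) .nil))))) (.g (nat_lit 0) (.e (nat_lit 92769) (nat_lit 0) .nil) .nil))) 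
(.lf (nat_lit 473905) (.g (nat_lit 1261) (.e (nat_lit 1209) (nat_lit 89) (.e (nat_lit 73782) (nat_lit 32) (.e (nat_lit 2856) (nat_lit 184) (.e (nat_lit 426538) (nat_lit 29) .nil)))) (.g (nat_lit 0) (.e (nat_lit 95021) (nat_lit 0) .nil) .nil))))) (.nd (nat_lit 8) (.nd (nat_lit 9) 
(.lf (nat_lit 473265) (.g (nat_lit 2692) (.e (nat_lit 3471) (nat_lit 217) (.e (nat_lit 696344) (nat_lit 8) (.e (nat_lit 172079) (nat_lit 7) (.e (nat_lit 409645) (nat_lit 18) (.e (nat_lit 303133) (nat_lit 9) (.e (nat_lit 426146) (nat_lit 4) (.e (nat_lit 229710) (nat_lit 258) (.e (nat_lit 163844) (nat_lit 0) .nil)))))))) (.g (nat_lit 1) (.e (nat_lit 92501) (nat_lit 0) .nil) .nil))) 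
(.lf (nat_lit 473777) (.g (nat_lit 2939) (.e (nat_lit 1183) (nat_lit 87) (.e (nat_lit 57480) (nat_lit 28) (.e (nat_lit 557109) (nat_lit 15) (.e (nat_lit 188452) (nat_lit 23) (.e (nat_lit 204856) (nat_lit 26) .nil))))) (.g (nat_lit 0) (.e (nat_lit 94573) (nat_lit 0) .nil) .nil)))) (.nd (nat_lit 9) 
(.lf (nat_lit 473521) (.g (nat_lit 1033) (.e (nat_lit 1019) (nat_lit 81) (.e (nat_lit 2006) (nat_lit 138) (.e (nat_lit 671762) (nat_lit 4) (.e (nat_lit 65629) (nat_lit 14) .nil)))) (.g (nat_lit 0) (.e (nat_lit 93290) (nat_lit 0) .nil) .nil))) 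
(.lf (nat_lit 474033) (.g (nat_lit 2306) (.e (nat_lit 1232) (nat_lit 91) (.e (nat_lit 90170) (nat_lit 13) (.e (nat_lit 172113) (nat_lit 10) (.e (nat_lit 434248) (nat_lit 28) (.e (nat_lit 573452) (nat_lit 9) .nil))))) (.g (nat_lit 0) (.e (nat_lit 95194) (nat_lit 0) .nil) .nil)))))) (.nd (nat_lit 7) (.nd (nat_lit 8) (.nd (nat_lit 9) 
(.lf (nat_lit 473201) (.g (nat_lit 3390) (.e (nat_lit 3471) (nat_lit 217) (.e (nat_lit 696343) (nat_lit 8) (.e (nat_lit 172082) (nat_lit 7) (.e (nat_lit 409649) (nat_lit 18) (.e (nat_lit 303140) (nat_lit 10) (.e (nat_lit 434275) (nat_lit 39) (.e (nat_lit 663579) (nat_lit 9) (.e (nat_lit 2427) (nat_lit 157) .nil)))))))) (.g (nat_lit 1) (.e (nat_lit 92436) (nat_lit 0) .nil) .nil))) 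
(.lf (nat_lit 473713) (.g (nat_lit 2271) (.e (nat_lit 1182) (nat_lit 87) (.e (nat_lit 57479) (nat_lit 28) (.e (nat_lit 557095) (nat_lit 13) (.e (nat_lit 172115) (nat_lit 10) (.e (nat_lit 434231) (nat_lit 23) .nil))))) (.g (nat_lit 0) (.e (nat_lit 94428) (nat_lit 0) .nil) .nil)))) (.nd (nat_lit 9) 
(.lf (nat_lit 473457) (.g (nat_lit 1622) (.e (nat_lit 3578) (nat_lit 223) (.e (nat_lit 745476) (nat_lit 0) (.e (nat_lit 1256) (nat_lit 92) (.e (nat_lit 98367) (nat_lit 27) (.e (nat_lit 434245) (nat_lit 28) .nil))))) (.g (nat_lit 0) (.e (nat_lit 92909) (nat_lit 0) .nil) .nil))) 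
(.lf (nat_lit 473969) (.g (nat_lit 915) (.e (nat_lit 1221) (nat_lit 90) (.e (nat_lit 81959) (nat_lit 24) (.e (nat_lit 123016) (nat_lit 122) .nil))) (.g (nat_lit 0) (.e (nat_lit 95113) (nat_lit 0) .nil) .nil))))) (.nd (nat_lit 8) (.nd (nat_lit 9) 
(.lf (nat_lit 473329) (.g (nat_lit 4719) (.e (nat_lit 3471) (nat_lit 217) (.e (nat_lit 696344) (nat_lit 8) (.e (nat_lit 172082) (nat_lit 7) (.e (nat_lit 409646) (nat_lit 18) (.e (nat_lit 303140) (nat_lit 10) (.e (nat_lit 434202) (nat_lit 18) (.e (nat_lit 5964) (nat_lit 324) (.e (nat_lit 163844) (nat_lit 0) .nil)))))))) (.g (nat_lit 1) (.e (nat_lit 92565) (nat_lit 0) .nil) .nil))) 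
(.lf (nat_lit 473841) (.g (nat_lit 2349) (.e (nat_lit 1193) (nat_lit 88) (.e (nat_lit 65566) (nat_lit 2) (.e (nat_lit 90170) (nat_lit 13) (.e (nat_lit 172113) (nat_lit 10) (.e (nat_lit 434247) (nat_lit 28) .nil))))) (.g (nat_lit 0) (.e (nat_lit 94811) (nat_lit 0) .nil) .nil)))) (.nd (nat_lit 9) 
(.lf (nat_lit 473585) (.g (nat_lit 3190) (.e (nat_lit 1124) (nat_lit 83) (.e (nat_lit 16466) (nat_lit 13) (.e (nat_lit 483413) (nat_lit 27) (.e (nat_lit 401446) (nat_lit 10) (.e (nat_lit 434200) (nat_lit 18) .nil))))) (.g (nat_lit 0) (.e (nat_lit 93759) (nat_lit 0) .nil) .nil))) 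
(.lf (nat_lit 474097) (.g (nat_lit 3352) (.e (nat_lit 1235) (nat_lit 91) (.e (nat_lit 90170) (nat_lit 13) (.e (nat_lit 172106) (nat_lit 10) (.e (nat_lit 434231) (nat_lit 23) (.e (nat_lit 532535) (nat_lit 9) (.e (nat_lit 336295) (nat_lit 15) (.e (nat_lit 2443) (nat_lit 157) (.e (nat_lit 6919) (nat_lit 371) (.e (nat_lit 1084) (nat_lit 81) .nil))))))))) (.g (nat_lit 1) (.e (nat_lit 95266) (nat_lit 0) .nil) .nil))))))))) 
(.nd (nat_lit 4) (.nd (nat_lit 5) (.nd (nat_lit 6) (.nd (nat_lit 7) (.nd (nat_lit 8) 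
(.nd (nat_lit 9) 
(.lf (nat_lit 473097) (.g (nat_lit 2213) (.e (nat_lit 3469) (nat_lit 217) (.e (nat_lit 696344) (nat_lit 8) (.e (nat_lit 172115) (nat_lit 10) (.e (nat_lit 434202) (nat_lit 18) (.e (nat_lit 6252) (nat_lit 337) (.e (nat_lit 7936) (nat_lit 166) (.e (nat_lit 188440) (nat_lit 20) .nil))))))) (.g (nat_lit 1) (.e (nat_lit 92229) (nat_lit 0) .nil) .nil))) 
(.lf (nat_lit 473609) (.g (nat_lit 1812) (.e (nat_lit 1129) (nat_lit 83) (.e (nat_lit 16448) (nat_lit 10) (.e (nat_lit 434268) (nat_lit 36) (.e (nat_lit 639021) (nat_lit 16) .nil)))) (.g (nat_lit 0) (.e (nat_lit 93793) (nat_lit 0) .nil) .nil)))) (.nd (nat_lit 9) 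
(.lf (nat_lit 473353) (.g (nat_lit 1143) (.e (nat_lit 3471) (nat_lit 217) (.e (nat_lit 696344) (nat_lit 8) (.e (nat_lit 172123) (nat_lit 13) (.e (nat_lit 483413) (nat_lit 27) .nil)))) (.g (nat_lit 0) (.e (nat_lit 92589) (nat_lit 0) .nil) .nil))) 
(.lf (nat_lit 473865) (.g (nat_lit 2705) (.e (nat_lit 1200) (nat_lit 88) (.e (nat_lit 65628) (nat_lit 14) (.e (nat_lit 401437) (nat_lit 9) (.e (nat_lit 426555) (nat_lit 32) (.e (nat_lit 376858) (nat_lit 21) .nil))))) (.g (nat_lit 0) (.e (nat_lit 94865) (nat_lit 0) .nil) .nil))))) (.nd (nat_lit 8) (.nd (nat_lit 9) 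
(.lf (nat_lit 473225) (.g (nat_lit 2070) (.e (nat_lit 3471) (nat_lit 217) (.e (nat_lit 696343) (nat_lit 8) (.e (nat_lit 172123) (nat_lit 13) (.e (nat_lit 483413) (nat_lit 27) (.e (nat_lit 401444) (nat_lit 9) (.e (nat_lit 425984) (nat_lit 0) .nil)))))) (.g (nat_lit 1) (.e (nat_lit 92460) (nat_lit 0) .nil) .nil))) 
(.lf (nat_lit 473737) (.g (nat_lit 2556) (.e (nat_lit 1183) (nat_lit 87) (.e (nat_lit 57479) (nat_lit 28) (.e (nat_lit 557100) (nat_lit 13) (.e (nat_lit 172115) (nat_lit 10) .nil)))) (.g (nat_lit 0) (.e (nat_lit 94533) (nat_lit 0) .nil) .nil)))) (.nd (nat_lit 9) 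
(.lf (nat_lit 473481) (.g (nat_lit 3499) (.e (nat_lit 3579) (nat_lit 223) (.e (nat_lit 745509) (nat_lit 11) (.e (nat_lit 24658) (nat_lit 13) (.e (nat_lit 393260) (nat_lit 21) (.e (nat_lit 409649) (nat_lit 18) (.e (nat_lit 303111) (nat_lit 0) .nil)))))) (.g (nat_lit 1) (.e (nat_lit 92943) (nat_lit 0) .nil) .nil))) 
(.lf (nat_lit 473993) (.g (nat_lit 1249) (.e (nat_lit 1225) (nat_lit 91) (.e (nat_lit 90176) (nat_lit 15) (.e (nat_lit 188450) (nat_lit 23) (.e (nat_lit 204848) (nat_lit 25) .nil)))) (.g (nat_lit 0) (.e (nat_lit 95146) (nat_lit 0) .nil) .nil)))))) (.nd (nat_lit 7) (.nd (nat_lit 8) (.nd (nat_lit 9) 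
(.lf (nat_lit 473161) (.g (nat_lit 3011) (.e (nat_lit 3471) (nat_lit 217) (.e (nat_lit 696343) (nat_lit 8) (.e (nat_lit 172082) (nat_lit 7) (.e (nat_lit 409646) (nat_lit 18) (.e (nat_lit 303133) (nat_lit 9) (.e (nat_lit 426042) (nat_lit 0) (.e (nat_lit 2448) (nat_lit 157) (.e (nat_lit 5965) (nat_lit 324) (.e (nat_lit 163844) (nat_lit 0) .nil))))))))) (.g (nat_lit 1) (.e (nat_lit 92396) (nat_lit 0) .nil) .nil))) 
(.lf (nat_lit 473673) (.g (nat_lit 3625) (.e (nat_lit 1175) (nat_lit 87) (.e (nat_lit 57478) (nat_lit 28) (.e (nat_lit 557109) (nat_lit 15) (.e (nat_lit 188447) (nat_lit 22) (.e (nat_lit 196666) (nat_lit 13) .nil))))) (.g (nat_lit 0) (.e (nat_lit 94148) (nat_lit 0) .nil) .nil)))) (.nd (nat_lit 9) 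
(.lf (nat_lit 473417) (.g (nat_lit 2180) (.e (nat_lit 3544) (nat_lit 219) (.e (nat_lit 712754) (nat_lit 30) (.e (nat_lit 450588) (nat_lit 10) (.e (nat_lit 573474) (nat_lit 12) .nil)))) (.g (nat_lit 0) (.e (nat_lit 92793) (nat_lit 0) .nil) .nil))) 
(.lf (nat_lit 473929) (.g (nat_lit 2008) (.e (nat_lit 1210) (nat_lit 89) (.e (nat_lit 73782) (nat_lit 32) (.e (nat_lit 3088) (nat_lit 191) (.e (nat_lit 483383) (nat_lit 23) (.e (nat_lit 336000) (nat_lit 1) .nil))))) (.g (nat_lit 0) (.e (nat_lit 95046) (nat_lit 0) .nil) .nil))))) (.nd (nat_lit 8) (.nd (nat_lit 9) 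
(.lf (nat_lit 473289) (.g (nat_lit 3424) (.e (nat_lit 3471) (nat_lit 217) (.e (nat_lit 696344) (nat_lit 8) (.e (nat_lit 172079) (nat_lit 7) (.e (nat_lit 409648) (nat_lit 18) (.e (nat_lit 303137) (nat_lit 10) (.e (nat_lit 434275) (nat_lit 39) (.e (nat_lit 663580) (nat_lit 9) (.e (nat_lit 2416) (nat_lit 157) .nil)))))))) (.g (nat_lit 1) (.e (nat_lit 92525) (nat_lit 0) .nil) .nil))) 
(.lf (nat_lit 473801) (.g (nat_lit 3651) (.e (nat_lit 1183) (nat_lit 87) (.e (nat_lit 57575) (nat_lit 55) (.e (nat_lit 778466) (nat_lit 11) (.e (nat_lit 24617) (nat_lit 7) (.e (nat_lit 319534) (nat_lit 16) (.e (nat_lit 286756) (nat_lit 10) (.e (nat_lit 344088) (nat_lit 18) (.e (nat_lit 5439) (nat_lit 306) .nil)))))))) (.g (nat_lit 1) (.e (nat_lit 94636) (nat_lit 0) .nil) .nil)))) (.nd (nat_lit 9) 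
(.lf (nat_lit 473545) (.g (nat_lit 3779) (.e (nat_lit 1041) (nat_lit 81) (.e (nat_lit 1234) (nat_lit 91) (.e (nat_lit 90170) (nat_lit 13) (.e (nat_lit 172106) (nat_lit 10) (.e (nat_lit 434231) (nat_lit 23) (.e (nat_lit 532535) (nat_lit 9) (.e (nat_lit 336295) (nat_lit 15) (.e (nat_lit 2444) (nat_lit 157) (.e (nat_lit 6882) (nat_lit 371) .nil))))))))) (.g (nat_lit 1) (.e (nat_lit 93394) (nat_lit 0) .nil) .nil))) 
(.lf (nat_lit 474057) (.g (nat_lit 3153) (.e (nat_lit 1234) (nat_lit 91) (.e (nat_lit 90170) (nat_lit 13) (.e (nat_lit 172113) (nat_lit 10) (.e (nat_lit 434242) (nat_lit 28) (.e (nat_lit 573450) (nat_lit 9) (.e (nat_lit 442) (nat_lit 33) (.e (nat_lit 434181) (nat_lit 0) .nil))))))) (.g (nat_lit 1) (.e (nat_lit 95224) (nat_lit 0) .nil) .nil))))))) 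
(.nd (nat_lit 6) (.nd (nat_lit 7) (.nd (nat_lit 8) (.nd (nat_lit 9) 
(.lf (nat_lit 473129) (.g (nat_lit 3854) (.e (nat_lit 3471) (nat_lit 217) (.e (nat_lit 696343) (nat_lit 8) (.e (nat_lit 172064) (nat_lit 2) (.e (nat_lit 196666) (nat_lit 13) (.e (nat_lit 65610) (nat_lit 10) (.e (nat_lit 344129) (nat_lit 26) (.e (nat_lit 557065) (nat_lit 9) (.e (nat_lit 2399) (nat_lit 157) .nil)))))))) (.g (nat_lit 1) (.e (nat_lit 92364) (nat_lit 0) .nil) .nil))) 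
(.lf (nat_lit 473641) (.g (nat_lit 1040) (.e (nat_lit 1162) (nat_lit 86) (.e (nat_lit 49157) (nat_lit 0) (.e (nat_lit 3020) (nat_lit 187) (.e (nat_lit 450584) (nat_lit 9) (.e (nat_lit 565268) (nat_lit 5) (.e (nat_lit 73788) (nat_lit 45) .nil)))))) (.g (nat_lit 1) (.e (nat_lit 93934) (nat_lit 0) .nil) .nil)))) (.nd (nat_lit 9) 
(.lf (nat_lit 473385) (.g (nat_lit 4254) (.e (nat_lit 3537) (nat_lit 218) (.e (nat_lit 704725) (nat_lit 10) (.e (nat_lit 8234) (nat_lit 20) (.e (nat_lit 573489) (nat_lit 14) (.e (nat_lit 73755) (nat_lit 8) (.e (nat_lit 557104) (nat_lit 14) (.e (nat_lit 188160) (nat_lit 3) (.e (nat_lit 516106) (nat_lit 0) .nil)))))))) (.g (nat_lit 1) (.e (nat_lit 92703) (nat_lit 0) .nil) .nil))) 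
(.lf (nat_lit 473897) (.g (nat_lit 2267) (.e (nat_lit 1209) (nat_lit 89) (.e (nat_lit 73781) (nat_lit 32) (.e (nat_lit 3090) (nat_lit 191) (.e (nat_lit 483380) (nat_lit 23) (.e (nat_lit 343808) (nat_lit 1) (.e (nat_lit 57872) (nat_lit 264) .nil)))))) (.g (nat_lit 1) (.e (nat_lit 95013) (nat_lit 0) .nil) .nil))))) (.nd (nat_lit 8) (.nd (nat_lit 9) 
(.lf (nat_lit 473257) (.g (nat_lit 2224) (.e (nat_lit 3471) (nat_lit 217) (.e (nat_lit 696344) (nat_lit 8) (.e (nat_lit 172079) (nat_lit 7) (.e (nat_lit 409645) (nat_lit 18) (.e (nat_lit 303133) (nat_lit 9) (.e (nat_lit 426042) (nat_lit 0) (.e (nat_lit 2448) (nat_lit 157) (.e (nat_lit 5968) (nat_lit 324) (.e (nat_lit 163844) (nat_lit 0) .nil))))))))) (.g (nat_lit 1) (.e (nat_lit 92493) (nat_lit 0) .nil) .nil))) 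
(.lf (nat_lit 473769) (.g (nat_lit 3485) (.e (nat_lit 1183) (nat_lit 87) (.e (nat_lit 57480) (nat_lit 28) (.e (nat_lit 557108) (nat_lit 15) (.e (nat_lit 188452) (nat_lit 23) (.e (nat_lit 212736) (nat_lit 26) .nil))))) (.g (nat_lit 0) (.e (nat_lit 94565) (nat_lit 0) .nil) .nil)))) (.nd (nat_lit 9) 
(.lf (nat_lit 473513) (.g (nat_lit 1962) (.e (nat_lit 1006) (nat_lit 81) (.e (nat_lit 1669) (nat_lit 116) (.e (nat_lit 401454) (nat_lit 12) (.e (nat_lit 475210) (nat_lit 41) .nil)))) (.g (nat_lit 0) (.e (nat_lit 93223) (nat_lit 0) .nil) .nil))) 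
(.lf (nat_lit 474025) (.g (nat_lit 3466) (.e (nat_lit 1232) (nat_lit 91) (.e (nat_lit 90170) (nat_lit 13) (.e (nat_lit 172106) (nat_lit 10) (.e (nat_lit 434244) (nat_lit 28) (.e (nat_lit 573450) (nat_lit 9) (.e (nat_lit 375) (nat_lit 32) (.e (nat_lit 426025) (nat_lit 0) (.e (nat_lit 7936) (nat_lit 402) .nil)))))))) (.g (nat_lit 1) (.e (nat_lit 95186) (nat_lit 0) .nil) .nil)))))) 
(.nd (nat_lit 7) (.nd (nat_lit 8) (.nd (nat_lit 9) 
(.lf (nat_lit 473193) (.g (nat_lit 2397) (.e (nat_lit 3471) (nat_lit 217) (.e (nat_lit 696343) (nat_lit 8) (.e (nat_lit 172082) (nat_lit 7) (.e (nat_lit 409649) (nat_lit 18) (.e (nat_lit 303140) (nat_lit 10) (.e (nat_lit 434202) (nat_lit 18) (.e (nat_lit 5964) (nat_lit 324) (.e (nat_lit 163843) (nat_lit 0) .nil)))))))) (.g (nat_lit 1) (.e (nat_lit 92428) (nat_lit 0) .nil) .nil))) 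
(.lf (nat_lit 473705) (.g (nat_lit 3863) (.e (nat_lit 1181) (nat_lit 87) (.e (nat_lit 57480) (nat_lit 28) (.e (nat_lit 557109) (nat_lit 15) (.e (nat_lit 188447) (nat_lit 22) (.e (nat_lit 196670) (nat_lit 14) .nil))))) (.g (nat_lit 0) (.e (nat_lit 94301) (nat_lit 0) .nil) .nil)))) (.nd (nat_lit 9) 
(.lf (nat_lit 473449) (.g (nat_lit 1490) (.e (nat_lit 3572) (nat_lit 222) (.e (nat_lit 737300) (nat_lit 7) (.e (nat_lit 286755) (nat_lit 10) (.e (nat_lit 344138) (nat_lit 29) (.e (nat_lit 581653) (nat_lit 6) (.e (nat_lit 188428) (nat_lit 20) .nil)))))) (.g (nat_lit 1) (.e (nat_lit 92896) (nat_lit 0) .nil) .nil))) 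
(.lf (nat_lit 473961) (.g (nat_lit 3126) (.e (nat_lit 1212) (nat_lit 89) (.e (nat_lit 73782) (nat_lit 32) (.e (nat_lit 2856) (nat_lit 184) (.e (nat_lit 426542) (nat_lit 29) (.e (nat_lit 352318) (nat_lit 24) (.e (nat_lit 123185) (nat_lit 264) .nil)))))) (.g (nat_lit 1) (.e (nat_lit 95085) (nat_lit 0) .nil) .nil))))) (.nd (nat_lit 8) (.nd (nat_lit 9) 
(.lf (nat_lit 473321) (.g (nat_lit 3306) (.e (nat_lit 3471) (nat_lit 217) (.e (nat_lit 696344) (nat_lit 8) (.e (nat_lit 172082) (nat_lit 7) (.e (nat_lit 409646) (nat_lit 18) (.e (nat_lit 303135) (nat_lit 10) (.e (nat_lit 434208) (nat_lit 18) (.e (nat_lit 5964) (nat_lit 324) (.e (nat_lit 163844) (nat_lit 0) .nil)))))))) (.g (nat_lit 1) (.e (nat_lit 92557) (nat_lit 0) .nil) .nil))) 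
(.lf (nat_lit 473833) (.g (nat_lit 2758) (.e (nat_lit 1191) (nat_lit 88) (.e (nat_lit 65568) (nat_lit 2) (.e (nat_lit 90170) (nat_lit 13) (.e (nat_lit 172113) (nat_lit 10) (.e (nat_lit 434247) (nat_lit 28) .nil))))) (.g (nat_lit 0) (.e (nat_lit 94803) (nat_lit 0) .nil) .nil)))) (.nd (nat_lit 9) 
(.lf (nat_lit 473577) (.g (nat_lit 1617) (.e (nat_lit 1122) (nat_lit 83) (.e (nat_lit 16466) (nat_lit 13) (.e (nat_lit 483413) (nat_lit 27) (.e (nat_lit 401447) (nat_lit 10) .nil)))) (.g (nat_lit 0) (.e (nat_lit 93742) (nat_lit 0) .nil) .nil))) 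
(.lf (nat_lit 474089) (.g (nat_lit 2406) (.e (nat_lit 1235) (nat_lit 91) (.e (nat_lit 90170) (nat_lit 13) (.e (nat_lit 172106) (nat_lit 10) (.e (nat_lit 434231) (nat_lit 23) (.e (nat_lit 532486) (nat_lit 0) .nil))))) (.g (nat_lit 0) (.e (nat_lit 95258) (nat_lit 0) .nil) .nil)))))))) (.nd (nat_lit 5) (.nd (nat_lit 6) (.nd (nat_lit 7) (.nd (nat_lit 8) (.nd (nat_lit 9) 
(.lf (nat_lit 473113) (.g (nat_lit 3004) (.e (nat_lit 3469) (nat_lit 217) (.e (nat_lit 696344) (nat_lit 8) (.e (nat_lit 172115) (nat_lit 10) (.e (nat_lit 434209) (nat_lit 18) (.e (nat_lit 6428) (nat_lit 342) (.e (nat_lit 229412) (nat_lit 14) (.e (nat_lit 442412) (nat_lit 20) .nil))))))) (.g (nat_lit 1) (.e (nat_lit 92245) (nat_lit 0) .nil) .nil))) 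
(.lf (nat_lit 473625) (.g (nat_lit 498) (.e (nat_lit 1159) (nat_lit 86) (.e (nat_lit 49187) (nat_lit 11) (.e (nat_lit 16465) (nat_lit 13) (.e (nat_lit 491264) (nat_lit 17) .nil)))) (.g (nat_lit 0) (.e (nat_lit 93875) (nat_lit 0) .nil) .nil)))) (.nd (nat_lit 9) 
(.lf (nat_lit 473369) (.g (nat_lit 4173) (.e (nat_lit 3501) (nat_lit 218) (.e (nat_lit 704738) (nat_lit 11) (.e (nat_lit 16425) (nat_lit 7) (.e (nat_lit 409649) (nat_lit 18) (.e (nat_lit 303140) (nat_lit 10) (.e (nat_lit 434275) (nat_lit 39) (.e (nat_lit 663580) (nat_lit 9) (.e (nat_lit 7936) (nat_lit 157) .nil)))))))) (.g (nat_lit 1) (.e (nat_lit 92643) (nat_lit 0) .nil) .nil))) 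
(.lf (nat_lit 473881) (.g (nat_lit 4935) (.e (nat_lit 1207) (nat_lit 89) (.e (nat_lit 73746) (nat_lit 3) (.e (nat_lit 516166) (nat_lit 12) (.e (nat_lit 450587) (nat_lit 10) (.e (nat_lit 573475) (nat_lit 12) .nil))))) (.g (nat_lit 0) (.e (nat_lit 94980) (nat_lit 0) .nil) .nil))))) (.nd (nat_lit 8) (.nd (nat_lit 9) 
(.lf (nat_lit 473241) (.g (nat_lit 3000) (.e (nat_lit 3471) (nat_lit 217) (.e (nat_lit 696344) (nat_lit 8) (.e (nat_lit 172079) (nat_lit 7) (.e (nat_lit 409645) (nat_lit 18) (.e (nat_lit 303133) (nat_lit 9) (.e (nat_lit 426042) (nat_lit 0) (.e (nat_lit 2427) (nat_lit 157) (.e (nat_lit 5964) (nat_lit 324) (.e (nat_lit 163844) (nat_lit 0) .nil))))))))) (.g (nat_lit 1) (.e (nat_lit 92477) (nat_lit 0) .nil) .nil))) 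
(.lf (nat_lit 473753) (.g (nat_lit 2461) (.e (nat_lit 1183) (nat_lit 87) (.e (nat_lit 57480) (nat_lit 28) (.e (nat_lit 557104) (nat_lit 14) (.e (nat_lit 180252) (nat_lit 10) (.e (nat_lit 573481) (nat_lit 13) .nil))))) (.g (nat_lit 0) (.e (nat_lit 94549) (nat_lit 0) .nil) .nil)))) (.nd (nat_lit 9) 
(.lf (nat_lit 473497) (.g (nat_lit 3708) (.e (nat_lit 977) (nat_lit 81) (.e (nat_lit 5664) (nat_lit 312) (.e (nat_lit 2679) (nat_lit 168) (.e (nat_lit 204846) (nat_lit 24) (.e (nat_lit 319531) (nat_lit 16) (.e (nat_lit 286735) (nat_lit 3) (.e (nat_lit 98323) (nat_lit 17) (.e (nat_lit 6989) (nat_lit 377) .nil)))))))) (.g (nat_lit 1) (.e (nat_lit 93083) (nat_lit 0) .nil) .nil))) 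
(.lf (nat_lit 474009) (.g (nat_lit 2054) (.e (nat_lit 1230) (nat_lit 91) (.e (nat_lit 90176) (nat_lit 15) (.e (nat_lit 188450) (nat_lit 23) (.e (nat_lit 204846) (nat_lit 24) .nil)))) (.g (nat_lit 0) (.e (nat_lit 95165) (nat_lit 0) .nil) .nil)))))) (.nd (nat_lit 7) (.nd (nat_lit 8) (.nd (nat_lit 9) 
(.lf (nat_lit 473177) (.g (nat_lit 2537) (.e (nat_lit 3471) (nat_lit 217) (.e (nat_lit 696343) (nat_lit 8) (.e (nat_lit 172082) (nat_lit 7) (.e (nat_lit 409646) (nat_lit 18) (.e (nat_lit 303135) (nat_lit 10) (.e (nat_lit 434207) (nat_lit 18) (.e (nat_lit 5966) (nat_lit 324) (.e (nat_lit 163844) (nat_lit 0) .nil)))))))) (.g (nat_lit 1) (.e (nat_lit 92412) (nat_lit 0) .nil) .nil))) 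
(.lf (nat_lit 473689) (.g (nat_lit 2163) (.e (nat_lit 1177) (nat_lit 87) (.e (nat_lit 57931) (nat_lit 282) (.e (nat_lit 163874) (nat_lit 3) (.e (nat_lit 204864) (nat_lit 27) .nil)))) (.g (nat_lit 0) (.e (nat_lit 94212) (nat_lit 0) .nil) .nil)))) (.nd (nat_lit 9) 
(.lf (nat_lit 473433) (.g (nat_lit 1789) (.e (nat_lit 7936) (nat_lit 219) (.e (nat_lit 712753) (nat_lit 30) (.e (nat_lit 450579) (nat_lit 5) (.e (nat_lit 532504) (nat_lit 1) (.e (nat_lit 57663) (nat_lit 152) .nil))))) (.g (nat_lit 0) (.e (nat_lit 92813) (nat_lit 0) .nil) .nil))) 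
(.lf (nat_lit 473945) (.g (nat_lit 1736) (.e (nat_lit 1211) (nat_lit 89) (.e (nat_lit 73782) (nat_lit 32) (.e (nat_lit 2856) (nat_lit 184) (.e (nat_lit 426544) (nat_lit 30) (.e (nat_lit 368384) (nat_lit 0) (.e (nat_lit 5905) (nat_lit 320) .nil)))))) (.g (nat_lit 1) (.e (nat_lit 95067) (nat_lit 0) .nil) .nil))))) (.nd (nat_lit 8) (.nd (nat_lit 9) 
(.lf (nat_lit 473305) (.g (nat_lit 2169) (.e (nat_lit 3471) (nat_lit 217) (.e (nat_lit 696344) (nat_lit 8) (.e (nat_lit 172082) (nat_lit 7) (.e (nat_lit 409646) (nat_lit 18) (.e (nat_lit 303133) (nat_lit 9) (.e (nat_lit 426042) (nat_lit 0) (.e (nat_lit 2448) (nat_lit 157) (.e (nat_lit 5968) (nat_lit 324) (.e (nat_lit 163844) (nat_lit 0) .nil))))))))) (.g (nat_lit 1) (.e (nat_lit 92541) (nat_lit 0) .nil) .nil))) 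
(.lf (nat_lit 473817) (.g (nat_lit 2342) (.e (nat_lit 1188) (nat_lit 88) (.e (nat_lit 65630) (nat_lit 14) (.e (nat_lit 401428) (nat_lit 3) (.e (nat_lit 204869) (nat_lit 29) (.e (nat_lit 368384) (nat_lit 0) .nil))))) (.g (nat_lit 0) (.e (nat_lit 94774) (nat_lit 0) .nil) .nil)))) (.nd (nat_lit 9) 
(.lf (nat_lit 473561) (.g (nat_lit 1952) (.e (nat_lit 1077) (nat_lit 81) (.e (nat_lit 1796) (nat_lit 119) (.e (nat_lit 516166) (nat_lit 12) (.e (nat_lit 450587) (nat_lit 10) (.e (nat_lit 573456) (nat_lit 9) (.e (nat_lit 7936) (nat_lit 33) (.e (nat_lit 434178) (nat_lit 0) .nil))))))) (.g (nat_lit 1) (.e (nat_lit 93459) (nat_lit 0) .nil) .nil))) 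
(.lf (nat_lit 474073) (.g (nat_lit 2188) (.e (nat_lit 1234) (nat_lit 91) (.e (nat_lit 90170) (nat_lit 13) (.e (nat_lit 172113) (nat_lit 10) (.e (nat_lit 434248) (nat_lit 28) (.e (nat_lit 573449) (nat_lit 9) (.e (nat_lit 442) (nat_lit 33) (.e (nat_lit 434181) (nat_lit 0) .nil))))))) (.g (nat_lit 1) (.e (nat_lit 95240) (nat_lit 0) .nil) .nil))))))) 
(.nd (nat_lit 6) (.nd (nat_lit 7) (.nd (nat_lit 8) (.nd (nat_lit 9) 
(.lf (nat_lit 473145) (.g (nat_lit 2600) (.e (nat_lit 3471) (nat_lit 217) (.e (nat_lit 696343) (nat_lit 8) (.e (nat_lit 172079) (nat_lit 7) (.e (nat_lit 409645) (nat_lit 18) (.e (nat_lit 303135) (nat_lit 10) (.e (nat_lit 434208) (nat_lit 18) (.e (nat_lit 5966) (nat_lit 324) (.e (nat_lit 163844) (nat_lit 0) .nil)))))))) (.g (nat_lit 1) (.e (nat_lit 92380) (nat_lit 0) .nil) .nil))) 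
(.lf (nat_lit 473657) (.g (nat_lit 2022) (.e (nat_lit 1163) (nat_lit 86) (.e (nat_lit 49157) (nat_lit 0) (.e (nat_lit 3026) (nat_lit 187) (.e (nat_lit 450584) (nat_lit 9) (.e (nat_lit 565268) (nat_lit 5) (.e (nat_lit 73789) (nat_lit 45) .nil)))))) (.g (nat_lit 1) (.e (nat_lit 93977) (nat_lit 0) .nil) .nil)))) (.nd (nat_lit 9) 
(.lf (nat_lit 473401) (.g (nat_lit 2874) (.e (nat_lit 3543) (nat_lit 219) (.e (nat_lit 712755) (nat_lit 30) (.e (nat_lit 450588) (nat_lit 10) (.e (nat_lit 573475) (nat_lit 12) (.e (nat_lit 57504) (nat_lit 38) .nil))))) (.g (nat_lit 0) (.e (nat_lit 92777) (nat_lit 0) .nil) .nil))) 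
(.lf (nat_lit 473913) (.g (nat_lit 3829) (.e (nat_lit 1209) (nat_lit 89) (.e (nat_lit 73782) (nat_lit 32) (.e (nat_lit 2856) (nat_lit 184) (.e (nat_lit 426555) (nat_lit 32) (.e (nat_lit 376859) (nat_lit 21) (.e (nat_lit 57873) (nat_lit 264) .nil)))))) (.g (nat_lit 1) (.e (nat_lit 95029) (nat_lit 0) .nil) .nil))))) (.nd (nat_lit 8) (.nd (nat_lit 9) 
(.lf (nat_lit 473273) (.g (nat_lit 2012) (.e (nat_lit 3471) (nat_lit 217) (.e (nat_lit 696344) (nat_lit 8) (.e (nat_lit 172079) (nat_lit 7) (.e (nat_lit 409645) (nat_lit 18) (.e (nat_lit 303135) (nat_lit 10) (.e (nat_lit 434207) (nat_lit 18) (.e (nat_lit 5968) (nat_lit 324) (.e (nat_lit 163844) (nat_lit 0) .nil)))))))) (.g (nat_lit 1) (.e (nat_lit 92509) (nat_lit 0) .nil) .nil))) 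
(.lf (nat_lit 473785) (.g (nat_lit 3953) (.e (nat_lit 1183) (nat_lit 87) (.e (nat_lit 57575) (nat_lit 55) (.e (nat_lit 778466) (nat_lit 11) (.e (nat_lit 24617) (nat_lit 7) (.e (nat_lit 319533) (nat_lit 16) (.e (nat_lit 286753) (nat_lit 10) (.e (nat_lit 344088) (nat_lit 18) (.e (nat_lit 5441) (nat_lit 306) .nil)))))))) (.g (nat_lit 1) (.e (nat_lit 94619) (nat_lit 0) .nil) .nil)))) (.nd (nat_lit 9) 
(.lf (nat_lit 473529) (.g (nat_lit 2213) (.e (nat_lit 1032) (nat_lit 81) (.e (nat_lit 1858) (nat_lit 124) (.e (nat_lit 557101) (nat_lit 13) (.e (nat_lit 172115) (nat_lit 10) (.e (nat_lit 434231) (nat_lit 23) .nil))))) (.g (nat_lit 0) (.e (nat_lit 93320) (nat_lit 0) .nil) .nil))) 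
(.lf (nat_lit 474041) (.g (nat_lit 3019) (.e (nat_lit 1234) (nat_lit 91) (.e (nat_lit 90170) (nat_lit 13) (.e (nat_lit 172106) (nat_lit 10) (.e (nat_lit 434231) (nat_lit 23) (.e (nat_lit 532522) (nat_lit 7) .nil))))) (.g (nat_lit 0) (.e (nat_lit 95208) (nat_lit 0) .nil) .nil)))))) (.nd (nat_lit 7) (.nd (nat_lit 8) (.nd (nat_lit 9) 
(.lf (nat_lit 473209) (.g (nat_lit 2534) (.e (nat_lit 3471) (nat_lit 217) (.e (nat_lit 696343) (nat_lit 8) (.e (nat_lit 172106) (nat_lit 10) (.e (nat_lit 434288) (nat_lit 43) (.e (nat_lit 696348) (nat_lit 12) (.e (nat_lit 237605) (nat_lit 9) (.e (nat_lit 425986) (nat_lit 0) .nil))))))) (.g (nat_lit 1) (.e (nat_lit 92444) (nat_lit 0) .nil) .nil))) 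
(.lf (nat_lit 473721) (.g (nat_lit 4702) (.e (nat_lit 1183) (nat_lit 87) (.e (nat_lit 57478) (nat_lit 28) (.e (nat_lit 557108) (nat_lit 15) (.e (nat_lit 188452) (nat_lit 23) (.e (nat_lit 204857) (nat_lit 26) .nil))))) (.g (nat_lit 0) (.e (nat_lit 94517) (nat_lit 0) .nil) .nil)))) (.nd (nat_lit 9) 
(.lf (nat_lit 473465) (.g (nat_lit 2043) (.e (nat_lit 3578) (nat_lit 223) (.e (nat_lit 745491) (nat_lit 4) (.e (nat_lit 65617) (nat_lit 10) (.e (nat_lit 344138) (nat_lit 29) (.e (nat_lit 581653) (nat_lit 6) (.e (nat_lit 188439) (nat_lit 20) .nil)))))) (.g (nat_lit 1) (.e (nat_lit 92917) (nat_lit 0) .nil) .nil))) 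
(.lf (nat_lit 473977) (.g (nat_lit 1752) (.e (nat_lit 1224) (nat_lit 90) (.e (nat_lit 81947) (nat_lit 20) (.e (nat_lit 2281) (nat_lit 150) (.e (nat_lit 770072) (nat_lit 8) (.e (nat_lit 65610) (nat_lit 10) .nil))))) (.g (nat_lit 0) (.e (nat_lit 95129) (nat_lit 0) .nil) .nil))))) (.nd (nat_lit 8) (.nd (nat_lit 9) 
(.lf (nat_lit 473337) (.g (nat_lit 1944) (.e (nat_lit 3471) (nat_lit 217) (.e (nat_lit 696344) (nat_lit 8) (.e (nat_lit 172082) (nat_lit 7) (.e (nat_lit 409649) (nat_lit 18) (.e (nat_lit 303140) (nat_lit 10) .nil))))) (.g (nat_lit 0) (.e (nat_lit 92573) (nat_lit 0) .nil) .nil))) 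
(.lf (nat_lit 473849) (.g (nat_lit 2805) (.e (nat_lit 1199) (nat_lit 88) (.e (nat_lit 65568) (nat_lit 2) (.e (nat_lit 90170) (nat_lit 13) (.e (nat_lit 172113) (nat_lit 10) (.e (nat_lit 434247) (nat_lit 28) .nil))))) (.g (nat_lit 0) (.e (nat_lit 94828) (nat_lit 0) .nil) .nil)))) (.nd (nat_lit 9) 
(.lf (nat_lit 473593) (.g (nat_lit 2577) (.e (nat_lit 1125) (nat_lit 83) (.e (nat_lit 16470) (nat_lit 14) (.e (nat_lit 491571) (nat_lit 13) (.e (nat_lit 393283) (nat_lit 24) .nil)))) (.g (nat_lit 0) (.e (nat_lit 93768) (nat_lit 0) .nil) .nil))) 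
(.lf (nat_lit 474105) (.g (nat_lit 1803) (.e (nat_lit 1235) (nat_lit 91) (.e (nat_lit 90170) (nat_lit 13) (.e (nat_lit 172113) (nat_lit 10) (.e (nat_lit 434203) (nat_lit 18) (.e (nat_lit 3919) (nat_lit 239) .nil))))) (.g (nat_lit 0) (.e (nat_lit 95274) (nat_lit 0) .nil) .nil)))))))))) 
(.nd (nat_lit 3) (.nd (nat_lit 4) (.nd (nat_lit 5) (.nd (nat_lit 6) (.nd (nat_lit 7) 
(.nd (nat_lit 8) (.nd (nat_lit 9) 
(.lf (nat_lit 473093) (.g (nat_lit 2407) (.e (nat_lit 3469) (nat_lit 217) (.e (nat_lit 696344) (nat_lit 8) (.e (nat_lit 172115) (nat_lit 10) (.e (nat_lit 434202) (nat_lit 18) (.e (nat_lit 6250) (nat_lit 337) (.e (nat_lit 7936) (nat_lit 166) (.e (nat_lit 188439) (nat_lit 20) .nil))))))) (.g (nat_lit 1) (.e (nat_lit 92225) (nat_lit 0) .nil) .nil))) 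
(.lf (nat_lit 473605) (.g (nat_lit 2400) (.e (nat_lit 1128) (nat_lit 83) (.e (nat_lit 16425) (nat_lit 7) (.e (nat_lit 409617) (nat_lit 10) (.e (nat_lit 632) (nat_lit 50) (.e (nat_lit 573493) (nat_lit 15) (.e (nat_lit 81950) (nat_lit 21) (.e (nat_lit 65280) (nat_lit 146) .nil))))))) (.g (nat_lit 1) (.e (nat_lit 93789) (nat_lit 0) .nil) .nil)))) (.nd (nat_lit 9) 
(.lf (nat_lit 473349) (.g (nat_lit 1996) (.e (nat_lit 3471) (nat_lit 217) (.e (nat_lit 696344) (nat_lit 8) (.e (nat_lit 172113) (nat_lit 10) (.e (nat_lit 434208) (nat_lit 18) (.e (nat_lit 6254) (nat_lit 337) (.e (nat_lit 2725) (nat_lit 172) (.e (nat_lit 237605) (nat_lit 9) (.e (nat_lit 425986) (nat_lit 0) .nil)))))))) (.g (nat_lit 1) (.e (nat_lit 92585) (nat_lit 0) .nil) .nil))) 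
(.lf (nat_lit 473861) (.g (nat_lit 1209) (.e (nat_lit 1199) (nat_lit 88) (.e (nat_lit 65630) (nat_lit 14) (.e (nat_lit 401438) (nat_lit 9) (.e (nat_lit 426544) (nat_lit 30) .nil)))) (.g (nat_lit 0) (.e (nat_lit 94841) (nat_lit 0) .nil) .nil))))) (.nd (nat_lit 8) (.nd (nat_lit 9) 
(.lf (nat_lit 473221) (.g (nat_lit 1106) (.e (nat_lit 3471) (nat_lit 217) (.e (nat_lit 696343) (nat_lit 8) (.e (nat_lit 172123) (nat_lit 13) (.e (nat_lit 483412) (nat_lit 27) .nil)))) (.g (nat_lit 0) (.e (nat_lit 92456) (nat_lit 0) .nil) .nil))) 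
(.lf (nat_lit 473733) (.g (nat_lit 4078) (.e (nat_lit 1183) (nat_lit 87) (.e (nat_lit 57478) (nat_lit 28) (.e (nat_lit 557109) (nat_lit 15) (.e (nat_lit 188452) (nat_lit 23) (.e (nat_lit 204857) (nat_lit 26) .nil))))) (.g (nat_lit 0) (.e (nat_lit 94529) (nat_lit 0) .nil) .nil)))) (.nd (nat_lit 9) 
(.lf (nat_lit 473477) (.g (nat_lit 2147) (.e (nat_lit 3579) (nat_lit 223) (.e (nat_lit 745509) (nat_lit 11) (.e (nat_lit 24626) (nat_lit 9) (.e (nat_lit 336369) (nat_lit 27) (.e (nat_lit 426173) (nat_lit 7) (.e (nat_lit 409649) (nat_lit 18) (.e (nat_lit 303111) (nat_lit 0) .nil))))))) (.g (nat_lit 1) (.e (nat_lit 92939) (nat_lit 0) .nil) .nil))) 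
(.lf (nat_lit 473989) (.g (nat_lit 733) (.e (nat_lit 1225) (nat_lit 91) (.e (nat_lit 90170) (nat_lit 13) (.e (nat_lit 172120) (nat_lit 12) .nil))) (.g (nat_lit 0) (.e (nat_lit 95142) (nat_lit 0) .nil) .nil)))))) (.nd (nat_lit 7) (.nd (nat_lit 8) (.nd (nat_lit 9) 
(.lf (nat_lit 473157) (.g (nat_lit 3120) (.e (nat_lit 3471) (nat_lit 217) (.e (nat_lit 696343) (nat_lit 8) (.e (nat_lit 172082) (nat_lit 7) (.e (nat_lit 409646) (nat_lit 18) (.e (nat_lit 303133) (nat_lit 9) (.e (nat_lit 426042) (nat_lit 0) (.e (nat_lit 2442) (nat_lit 157) (.e (nat_lit 5964) (nat_lit 324) (.e (nat_lit 163844) (nat_lit 0) .nil))))))))) (.g (nat_lit 1) (.e (nat_lit 92392) (nat_lit 0) .nil) .nil))) 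
(.lf (nat_lit 473669) (.g (nat_lit 2325) (.e (nat_lit 1172) (nat_lit 87) (.e (nat_lit 57572) (nat_lit 54) (.e (nat_lit 770072) (nat_lit 8) (.e (nat_lit 65586) (nat_lit 7) (.e (nat_lit 319531) (nat_lit 16) (.e (nat_lit 286748) (nat_lit 9) (.e (nat_lit 336295) (nat_lit 15) (.e (nat_lit 2416) (nat_lit 157) (.e (nat_lit 7660) (nat_lit 410) .nil))))))))) (.g (nat_lit 1) (.e (nat_lit 94101) (nat_lit 0) .nil) .nil)))) 
(.nd (nat_lit 9) 
(.lf (nat_lit 473413) (.g (nat_lit 955) (.e (nat_lit 3544) (nat_lit 219) (.e (nat_lit 712753) (nat_lit 30) (.e (nat_lit 450586) (nat_lit 10) (.e (nat_lit 573478) (nat_lit 12) .nil)))) (.g (nat_lit 0) (.e (nat_lit 92789) (nat_lit 0) .nil) .nil))) 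
(.lf (nat_lit 473925) (.g (nat_lit 3318) (.e (nat_lit 1210) (nat_lit 89) (.e (nat_lit 73782) (nat_lit 32) (.e (nat_lit 2856) (nat_lit 184) (.e (nat_lit 426555) (nat_lit 32) (.e (nat_lit 376857) (nat_lit 21) (.e (nat_lit 57870) (nat_lit 264) .nil)))))) (.g (nat_lit 1) (.e (nat_lit 95042) (nat_lit 0) .nil) .nil))))) (.nd (nat_lit 8) (.nd (nat_lit 9) 
(.lf (nat_lit 473285) (.g (nat_lit 2406) (.e (nat_lit 3471) (nat_lit 217) (.e (nat_lit 696344) (nat_lit 8) (.e (nat_lit 172079) (nat_lit 7) (.e (nat_lit 409645) (nat_lit 18) (.e (nat_lit 303140) (nat_lit 10) (.e (nat_lit 434202) (nat_lit 18) (.e (nat_lit 5968) (nat_lit 324) (.e (nat_lit 163844) (nat_lit 0) .nil)))))))) (.g (nat_lit 1) (.e (nat_lit 92521) (nat_lit 0) .nil) .nil))) 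
(.lf (nat_lit 473797) (.g (nat_lit 2646) (.e (nat_lit 1183) (nat_lit 87) (.e (nat_lit 57575) (nat_lit 55) (.e (nat_lit 778466) (nat_lit 11) (.e (nat_lit 24617) (nat_lit 7) (.e (nat_lit 319534) (nat_lit 16) (.e (nat_lit 286756) (nat_lit 10) (.e (nat_lit 344087) (nat_lit 18) (.e (nat_lit 5442) (nat_lit 306) .nil)))))))) (.g (nat_lit 1) (.e (nat_lit 94632) (nat_lit 0) .nil) .nil)))) (.nd (nat_lit 9) 
(.lf (nat_lit 473541) (.g (nat_lit 4211) (.e (nat_lit 1040) (nat_lit 81) (.e (nat_lit 2346) (nat_lit 151) (.e (nat_lit 778466) (nat_lit 11) (.e (nat_lit 24617) (nat_lit 7) (.e (nat_lit 319533) (nat_lit 16) (.e (nat_lit 286753) (nat_lit 10) (.e (nat_lit 344160) (nat_lit 37) (.e (nat_lit 647195) (nat_lit 9) .nil)))))))) (.g (nat_lit 1) (.e (nat_lit 93375) (nat_lit 0) .nil) .nil))) 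
(.lf (nat_lit 474053) (.g (nat_lit 4015) (.e (nat_lit 1234) (nat_lit 91) (.e (nat_lit 90170) (nat_lit 13) (.e (nat_lit 172106) (nat_lit 10) (.e (nat_lit 434244) (nat_lit 28) (.e (nat_lit 573450) (nat_lit 9) (.e (nat_lit 442) (nat_lit 33) (.e (nat_lit 434180) (nat_lit 0) .nil))))))) (.g (nat_lit 1) (.e (nat_lit 95220) (nat_lit 0) .nil) .nil))))))) 
(.nd (nat_lit 6) (.nd (nat_lit 7) (.nd (nat_lit 8) (.nd (nat_lit 9) 
(.lf (nat_lit 473125) (.g (nat_lit 3983) (.e (nat_lit 3469) (nat_lit 217) (.e (nat_lit 696344) (nat_lit 8) (.e (nat_lit 172123) (nat_lit 13) (.e (nat_lit 483413) (nat_lit 27) (.e (nat_lit 401439) (nat_lit 9) (.e (nat_lit 426043) (nat_lit 0) .nil)))))) (.g (nat_lit 1) (.e (nat_lit 92257) (nat_lit 0) .nil) .nil))) 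
(.lf (nat_lit 473637) (.g (nat_lit 805) (.e (nat_lit 1160) (nat_lit 86) (.e (nat_lit 49157) (nat_lit 0) (.e (nat_lit 3026) (nat_lit 187) (.e (nat_lit 458496) (nat_lit 9) .nil)))) (.g (nat_lit 0) (.e (nat_lit 93905) (nat_lit 0) .nil) .nil)))) (.nd (nat_lit 9) 
(.lf (nat_lit 473381) (.g (nat_lit 2333) (.e (nat_lit 3540) (nat_lit 218) (.e (nat_lit 704738) (nat_lit 11) (.e (nat_lit 16425) (nat_lit 7) (.e (nat_lit 409648) (nat_lit 18) .nil)))) (.g (nat_lit 0) (.e (nat_lit 92692) (nat_lit 0) .nil) .nil))) 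
(.lf (nat_lit 473893) (.g (nat_lit 393) (.e (nat_lit 1209) (nat_lit 89) (.e (nat_lit 73781) (nat_lit 32) (.e (nat_lit 3087) (nat_lit 191) .nil))) (.g (nat_lit 0) (.e (nat_lit 95009) (nat_lit 0) .nil) .nil))))) (.nd (nat_lit 8) (.nd (nat_lit 9) 
(.lf (nat_lit 473253) (.g (nat_lit 3223) (.e (nat_lit 3471) (nat_lit 217) (.e (nat_lit 696344) (nat_lit 8) (.e (nat_lit 172079) (nat_lit 7) (.e (nat_lit 409645) (nat_lit 18) (.e (nat_lit 303133) (nat_lit 9) (.e (nat_lit 426042) (nat_lit 0) (.e (nat_lit 2447) (nat_lit 157) (.e (nat_lit 5965) (nat_lit 324) (.e (nat_lit 163844) (nat_lit 0) .nil))))))))) (.g (nat_lit 1) (.e (nat_lit 92489) (nat_lit 0) .nil) .nil))) 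
(.lf (nat_lit 473765) (.g (nat_lit 2390) (.e (nat_lit 1183) (nat_lit 87) (.e (nat_lit 57480) (nat_lit 28) (.e (nat_lit 557108) (nat_lit 15) (.e (nat_lit 188452) (nat_lit 23) (.e (nat_lit 204853) (nat_lit 26) .nil))))) (.g (nat_lit 0) (.e (nat_lit 94561) (nat_lit 0) .nil) .nil)))) (.nd (nat_lit 9) 
(.lf (nat_lit 473509) (.g (nat_lit 2009) (.e (nat_lit 999) (nat_lit 81) (.e (nat_lit 1239) (nat_lit 91) (.e (nat_lit 90170) (nat_lit 13) (.e (nat_lit 172106) (nat_lit 10) (.e (nat_lit 434231) (nat_lit 23) (.e (nat_lit 532529) (nat_lit 9) (.e (nat_lit 336257) (nat_lit 15) (.e (nat_lit 2418) (nat_lit 157) (.e (nat_lit 6854) (nat_lit 371) .nil))))))))) (.g (nat_lit 1) (.e (nat_lit 93197) (nat_lit 0) .nil) .nil))) 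
(.lf (nat_lit 474021) (.g (nat_lit 1914) (.e (nat_lit 1232) (nat_lit 91) (.e (nat_lit 90170) (nat_lit 13) (.e (nat_lit 172106) (nat_lit 10) (.e (nat_lit 434231) (nat_lit 23) (.e (nat_lit 532523) (nat_lit 7) .nil))))) (.g (nat_lit 0) (.e (nat_lit 95182) (nat_lit 0) .nil) .nil)))))) (.nd (nat_lit 7) (.nd (nat_lit 8) (.nd (nat_lit 9) 
(.lf (nat_lit 473189) (.g (nat_lit 2399) (.e (nat_lit 3471) (nat_lit 217) (.e (nat_lit 696343) (nat_lit 8) (.e (nat_lit 172082) (nat_lit 7) (.e (nat_lit 409646) (nat_lit 18) (.e (nat_lit 303140) (nat_lit 10) (.e (nat_lit 434275) (nat_lit 39) (.e (nat_lit 663579) (nat_lit 9) (.e (nat_lit 2426) (nat_lit 157) .nil)))))))) (.g (nat_lit 1) (.e (nat_lit 92424) (nat_lit 0) .nil) .nil))) 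
(.lf (nat_lit 473701) (.g (nat_lit 3565) (.e (nat_lit 1181) (nat_lit 87) (.e (nat_lit 57479) (nat_lit 28) (.e (nat_lit 557106) (nat_lit 15) (.e (nat_lit 188449) (nat_lit 22) (.e (nat_lit 196668) (nat_lit 14) .nil))))) (.g (nat_lit 0) (.e (nat_lit 94286) (nat_lit 0) .nil) .nil)))) (.nd (nat_lit 9) 
(.lf (nat_lit 473445) (.g (nat_lit 1637) (.e (nat_lit 3571) (nat_lit 222) (.e (nat_lit 737300) (nat_lit 7) (.e (nat_lit 286755) (nat_lit 10) (.e (nat_lit 344138) (nat_lit 29) (.e (nat_lit 581653) (nat_lit 6) (.e (nat_lit 188427) (nat_lit 20) .nil)))))) (.g (nat_lit 1) (.e (nat_lit 92868) (nat_lit 0) .nil) .nil))) 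
(.lf (nat_lit 473957) (.g (nat_lit 1915) (.e (nat_lit 1212) (nat_lit 89) (.e (nat_lit 73782) (nat_lit 32) (.e (nat_lit 2856) (nat_lit 184) (.e (nat_lit 426538) (nat_lit 29) (.e (nat_lit 352318) (nat_lit 24) (.e (nat_lit 123185) (nat_lit 264) .nil)))))) (.g (nat_lit 1) (.e (nat_lit 95081) (nat_lit 0) .nil) .nil))))) (.nd (nat_lit 8) (.nd (nat_lit 9) 
(.lf (nat_lit 473317) (.g (nat_lit 2911) (.e (nat_lit 3471) (nat_lit 217) (.e (nat_lit 696344) (nat_lit 8) (.e (nat_lit 172082) (nat_lit 7) (.e (nat_lit 409646) (nat_lit 18) (.e (nat_lit 303135) (nat_lit 10) (.e (nat_lit 434203) (nat_lit 18) (.e (nat_lit 5965) (nat_lit 324) (.e (nat_lit 163844) (nat_lit 0) .nil)))))))) (.g (nat_lit 1) (.e (nat_lit 92553) (nat_lit 0) .nil) .nil))) 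
(.lf (nat_lit 473829) (.g (nat_lit 1175) (.e (nat_lit 1190) (nat_lit 88) (.e (nat_lit 65630) (nat_lit 14) (.e (nat_lit 401437) (nat_lit 9) (.e (nat_lit 426544) (nat_lit 30) .nil)))) (.g (nat_lit 0) (.e (nat_lit 94791) (nat_lit 0) .nil) .nil)))) (.nd (nat_lit 9) 
(.lf (nat_lit 473573) (.g (nat_lit 1599) (.e (nat_lit 1118) (nat_lit 82) (.e (nat_lit 8399) (nat_lit 120) (.e (nat_lit 2649) (nat_lit 166) (.e (nat_lit 188434) (nat_lit 20) (.e (nat_lit 3579) (nat_lit 223) .nil))))) (.g (nat_lit 0) (.e (nat_lit 93709) (nat_lit 0) .nil) .nil))) 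
(.lf (nat_lit 474085) (.g (nat_lit 2927) (.e (nat_lit 1235) (nat_lit 91) (.e (nat_lit 90170) (nat_lit 13) (.e (nat_lit 172106) (nat_lit 10) (.e (nat_lit 434231) (nat_lit 23) (.e (nat_lit 532480) (nat_lit 0) .nil))))) (.g (nat_lit 0) (.e (nat_lit 95254) (nat_lit 0) .nil) .nil)))))))) (.nd (nat_lit 5) (.nd (nat_lit 6) (.nd (nat_lit 7) (.nd (nat_lit 8) (.nd (nat_lit 9) 
(.lf (nat_lit 473109) (.g (nat_lit 3133) (.e (nat_lit 3469) (nat_lit 217) (.e (nat_lit 696344) (nat_lit 8) (.e (nat_lit 172115) (nat_lit 10) (.e (nat_lit 434209) (nat_lit 18) (.e (nat_lit 6427) (nat_lit 342) (.e (nat_lit 229412) (nat_lit 14) (.e (nat_lit 442411) (nat_lit 20) .nil))))))) (.g (nat_lit 1) (.e (nat_lit 92241) (nat_lit 0) .nil) .nil))) 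
(.lf (nat_lit 473621) (.g (nat_lit 1055) (.e (nat_lit 1158) (nat_lit 86) (.e (nat_lit 49188) (nat_lit 11) (.e (nat_lit 16462) (nat_lit 13) (.e (nat_lit 483375) (nat_lit 22) (.e (nat_lit 327705) (nat_lit 10) .nil))))) (.g (nat_lit 0) (.e (nat_lit 93869) (nat_lit 0) .nil) .nil)))) (.nd (nat_lit 9) 
(.lf (nat_lit 473365) (.g (nat_lit 4706) (.e (nat_lit 3497) (nat_lit 218) (.e (nat_lit 704738) (nat_lit 11) (.e (nat_lit 16425) (nat_lit 7) (.e (nat_lit 409649) (nat_lit 18) (.e (nat_lit 303140) (nat_lit 10) (.e (nat_lit 434275) (nat_lit 39) (.e (nat_lit 663580) (nat_lit 9) (.e (nat_lit 7936) (nat_lit 157) .nil)))))))) (.g (nat_lit 1) (.e (nat_lit 92639) (nat_lit 0) .nil) .nil))) 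
(.lf (nat_lit 473877) (.g (nat_lit 2329) (.e (nat_lit 1201) (nat_lit 88) (.e (nat_lit 65630) (nat_lit 14) (.e (nat_lit 401428) (nat_lit 3) (.e (nat_lit 204868) (nat_lit 29) (.e (nat_lit 368384) (nat_lit 0) .nil))))) (.g (nat_lit 0) (.e (nat_lit 94877) (nat_lit 0) .nil) .nil))))) (.nd (nat_lit 8) (.nd (nat_lit 9) 
(.lf (nat_lit 473237) (.g (nat_lit 3452) (.e (nat_lit 3471) (nat_lit 217) (.e (nat_lit 696344) (nat_lit 8) (.e (nat_lit 172078) (nat_lit 7) (.e (nat_lit 409649) (nat_lit 18) (.e (nat_lit 303140) (nat_lit 10) (.e (nat_lit 434202) (nat_lit 18) (.e (nat_lit 5964) (nat_lit 324) (.e (nat_lit 163844) (nat_lit 0) .nil)))))))) (.g (nat_lit 1) (.e (nat_lit 92472) (nat_lit 0) .nil) .nil))) 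
(.lf (nat_lit 473749) (.g (nat_lit 3227) (.e (nat_lit 1183) (nat_lit 87) (.e (nat_lit 57479) (nat_lit 28) (.e (nat_lit 557106) (nat_lit 15) (.e (nat_lit 188449) (nat_lit 22) (.e (nat_lit 196668) (nat_lit 14) .nil))))) (.g (nat_lit 0) (.e (nat_lit 94545) (nat_lit 0) .nil) .nil)))) (.nd (nat_lit 9) 
(.lf (nat_lit 473493) (.g (nat_lit 3094) (.e (nat_lit 972) (nat_lit 81) (.e (nat_lit 2332) (nat_lit 151) (.e (nat_lit 778466) (nat_lit 11) (.e (nat_lit 24617) (nat_lit 7) (.e (nat_lit 319534) (nat_lit 16) .nil))))) (.g (nat_lit 0) (.e (nat_lit 93064) (nat_lit 0) .nil) .nil))) 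
(.lf (nat_lit 474005) (.g (nat_lit 1427) (.e (nat_lit 1228) (nat_lit 91) (.e (nat_lit 90176) (nat_lit 15) (.e (nat_lit 188450) (nat_lit 23) (.e (nat_lit 204845) (nat_lit 24) .nil)))) (.g (nat_lit 0) (.e (nat_lit 95159) (nat_lit 0) .nil) .nil)))))) (.nd (nat_lit 7) (.nd (nat_lit 8) (.nd (nat_lit 9) 
(.lf (nat_lit 473173) (.g (nat_lit 4266) (.e (nat_lit 3471) (nat_lit 217) (.e (nat_lit 696343) (nat_lit 8) (.e (nat_lit 172082) (nat_lit 7) (.e (nat_lit 409646) (nat_lit 18) (.e (nat_lit 303135) (nat_lit 10) (.e (nat_lit 434203) (nat_lit 18) (.e (nat_lit 5964) (nat_lit 324) (.e (nat_lit 163844) (nat_lit 0) .nil)))))))) (.g (nat_lit 1) (.e (nat_lit 92408) (nat_lit 0) .nil) .nil))) 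
(.lf (nat_lit 473685) (.g (nat_lit 3617) (.e (nat_lit 1177) (nat_lit 87) (.e (nat_lit 57479) (nat_lit 28) (.e (nat_lit 557105) (nat_lit 14) (.e (nat_lit 180252) (nat_lit 10) (.e (nat_lit 573488) (nat_lit 14) .nil))))) (.g (nat_lit 0) (.e (nat_lit 94192) (nat_lit 0) .nil) .nil)))) (.nd (nat_lit 9) 
(.lf (nat_lit 473429) (.g (nat_lit 1464) (.e (nat_lit 3548) (nat_lit 219) (.e (nat_lit 712753) (nat_lit 30) (.e (nat_lit 450586) (nat_lit 10) (.e (nat_lit 573478) (nat_lit 12) (.e (nat_lit 57511) (nat_lit 39) .nil))))) (.g (nat_lit 0) (.e (nat_lit 92808) (nat_lit 0) .nil) .nil))) 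
(.lf (nat_lit 473941) (.g (nat_lit 1412) (.e (nat_lit 1211) (nat_lit 89) (.e (nat_lit 73781) (nat_lit 32) (.e (nat_lit 3090) (nat_lit 191) (.e (nat_lit 483397) (nat_lit 25) .nil)))) (.g (nat_lit 0) (.e (nat_lit 95063) (nat_lit 0) .nil) .nil))))) (.nd (nat_lit 8) (.nd (nat_lit 9) 
(.lf (nat_lit 473301) (.g (nat_lit 3168) (.e (nat_lit 3471) (nat_lit 217) (.e (nat_lit 696344) (nat_lit 8) (.e (nat_lit 172082) (nat_lit 7) (.e (nat_lit 409646) (nat_lit 18) (.e (nat_lit 303133) (nat_lit 9) (.e (nat_lit 426042) (nat_lit 0) (.e (nat_lit 2447) (nat_lit 157) (.e (nat_lit 5965) (nat_lit 324) (.e (nat_lit 163844) (nat_lit 0) .nil))))))))) (.g (nat_lit 1) (.e (nat_lit 92537) (nat_lit 0) .nil) .nil))) 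
(.lf (nat_lit 473813) (.g (nat_lit 1930) (.e (nat_lit 1187) (nat_lit 88) (.e (nat_lit 65630) (nat_lit 14) (.e (nat_lit 401425) (nat_lit 2) (.e (nat_lit 196666) (nat_lit 13) (.e (nat_lit 65617) (nat_lit 10) .nil))))) (.g (nat_lit 0) (.e (nat_lit 94768) (nat_lit 0) .nil) .nil)))) (.nd (nat_lit 9) 
(.lf (nat_lit 473557) (.g (nat_lit 2900) (.e (nat_lit 1076) (nat_lit 81) (.e (nat_lit 5664) (nat_lit 312) (.e (nat_lit 2679) (nat_lit 168) (.e (nat_lit 204846) (nat_lit 24) (.e (nat_lit 319530) (nat_lit 16) (.e (nat_lit 286735) (nat_lit 3) (.e (nat_lit 98325) (nat_lit 17) (.e (nat_lit 6986) (nat_lit 377) .nil)))))))) (.g (nat_lit 1) (.e (nat_lit 93446) (nat_lit 0) .nil) .nil))) 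
(.lf (nat_lit 474069) (.g (nat_lit 1621) (.e (nat_lit 1234) (nat_lit 91) (.e (nat_lit 90170) (nat_lit 13) (.e (nat_lit 172113) (nat_lit 10) (.e (nat_lit 434245) (nat_lit 28) (.e (nat_lit 573470) (nat_lit 11) .nil))))) (.g (nat_lit 0) (.e (nat_lit 95236) (nat_lit 0) .nil) .nil))))))) (.nd (nat_lit 6) (.nd (nat_lit 7) (.nd (nat_lit 8) (.nd (nat_lit 9) 
(.lf (nat_lit 473141) (.g (nat_lit 2708) (.e (nat_lit 3471) (nat_lit 217) (.e (nat_lit 696343) (nat_lit 8) (.e (nat_lit 172079) (nat_lit 7) (.e (nat_lit 409645) (nat_lit 18) (.e (nat_lit 303135) (nat_lit 10) (.e (nat_lit 434203) (nat_lit 18) (.e (nat_lit 5966) (nat_lit 324) (.e (nat_lit 163844) (nat_lit 0) .nil)))))))) (.g (nat_lit 1) (.e (nat_lit 92376) (nat_lit 0) .nil) .nil))) 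
(.lf (nat_lit 473653) (.g (nat_lit 994) (.e (nat_lit 1163) (nat_lit 86) (.e (nat_lit 49157) (nat_lit 0) (.e (nat_lit 3020) (nat_lit 187) (.e (nat_lit 450584) (nat_lit 9) (.e (nat_lit 565268) (nat_lit 5) (.e (nat_lit 73788) (nat_lit 45) .nil)))))) (.g (nat_lit 1) (.e (nat_lit 93972) (nat_lit 0) .nil) .nil)))) (.nd (nat_lit 9) 
(.lf (nat_lit 473397) (.g (nat_lit 2898) (.e (nat_lit 3543) (nat_lit 219) (.e (nat_lit 712755) (nat_lit 30) (.e (nat_lit 450588) (nat_lit 10) (.e (nat_lit 573473) (nat_lit 12) (.e (nat_lit 57504) (nat_lit 38) .nil))))) (.g (nat_lit 0) (.e (nat_lit 92773) (nat_lit 0) .nil) .nil))) 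
(.lf (nat_lit 473909) (.g (nat_lit 3042) (.e (nat_lit 1209) (nat_lit 89) (.e (nat_lit 73782) (nat_lit 32) (.e (nat_lit 2856) (nat_lit 184) (.e (nat_lit 426555) (nat_lit 32) (.e (nat_lit 376856) (nat_lit 21) (.e (nat_lit 57872) (nat_lit 264) .nil)))))) (.g (nat_lit 1) (.e (nat_lit 95025) (nat_lit 0) .nil) .nil))))) (.nd (nat_lit 8) (.nd (nat_lit 9) 
(.lf (nat_lit 473269) (.g (nat_lit 3375) (.e (nat_lit 3471) (nat_lit 217) (.e (nat_lit 696344) (nat_lit 8) (.e (nat_lit 172079) (nat_lit 7) (.e (nat_lit 409645) (nat_lit 18) (.e (nat_lit 303135) (nat_lit 10) (.e (nat_lit 434203) (nat_lit 18) (.e (nat_lit 5966) (nat_lit 324) (.e (nat_lit 163844) (nat_lit 0) .nil)))))))) (.g (nat_lit 1) (.e (nat_lit 92505) (nat_lit 0) .nil) .nil))) 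
(.lf (nat_lit 473781) (.g (nat_lit 1525) (.e (nat_lit 1183) (nat_lit 87) (.e (nat_lit 57575) (nat_lit 55) (.e (nat_lit 778466) (nat_lit 11) (.e (nat_lit 24617) (nat_lit 7) .nil)))) (.g (nat_lit 0) (.e (nat_lit 94615) (nat_lit 0) .nil) .nil)))) (.nd (nat_lit 9) 
(.lf (nat_lit 473525) (.g (nat_lit 3012) (.e (nat_lit 1027) (nat_lit 81) (.e (nat_lit 1858) (nat_lit 124) (.e (nat_lit 557105) (nat_lit 14) (.e (nat_lit 180252) (nat_lit 10) (.e (nat_lit 573487) (nat_lit 14) .nil))))) (.g (nat_lit 0) (.e (nat_lit 93313) (nat_lit 0) .nil) .nil))) 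
(.lf (nat_lit 474037) (.g (nat_lit 1415) (.e (nat_lit 1232) (nat_lit 91) (.e (nat_lit 90177) (nat_lit 15) (.e (nat_lit 188449) (nat_lit 22) (.e (nat_lit 196661) (nat_lit 12) (.e (nat_lit 57721) (nat_lit 177) .nil))))) (.g (nat_lit 0) (.e (nat_lit 95198) (nat_lit 0) .nil) .nil)))))) (.nd (nat_lit 7) (.nd (nat_lit 8) (.nd (nat_lit 9) 
(.lf (nat_lit 473205) (.g (nat_lit 2241) (.e (nat_lit 3471) (nat_lit 217) (.e (nat_lit 696343) (nat_lit 8) (.e (nat_lit 172106) (nat_lit 10) (.e (nat_lit 434209) (nat_lit 18) (.e (nat_lit 6271) (nat_lit 337) .nil))))) (.g (nat_lit 0) (.e (nat_lit 92440) (nat_lit 0) .nil) .nil))) 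
(.lf (nat_lit 473717) (.g (nat_lit 4138) (.e (nat_lit 1183) (nat_lit 87) (.e (nat_lit 57478) (nat_lit 28) (.e (nat_lit 557108) (nat_lit 15) (.e (nat_lit 188447) (nat_lit 22) (.e (nat_lit 196666) (nat_lit 13) .nil))))) (.g (nat_lit 0) (.e (nat_lit 94513) (nat_lit 0) .nil) .nil)))) (.nd (nat_lit 9) 
(.lf (nat_lit 473461) (.g (nat_lit 2109) (.e (nat_lit 3578) (nat_lit 223) (.e (nat_lit 745491) (nat_lit 4) (.e (nat_lit 65610) (nat_lit 10) (.e (nat_lit 344138) (nat_lit 29) (.e (nat_lit 581653) (nat_lit 6) (.e (nat_lit 188439) (nat_lit 20) .nil)))))) (.g (nat_lit 1) (.e (nat_lit 92913) (nat_lit 0) .nil) .nil))) 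
(.lf (nat_lit 473973) (.g (nat_lit 1157) (.e (nat_lit 1222) (nat_lit 90) (.e (nat_lit 81947) (nat_lit 20) (.e (nat_lit 2281) (nat_lit 150) (.e (nat_lit 770072) (nat_lit 8) .nil)))) (.g (nat_lit 0) (.e (nat_lit 95123) (nat_lit 0) .nil) .nil))))) (.nd (nat_lit 8) (.nd (nat_lit 9) 
(.lf (nat_lit 473333) (.g (nat_lit 3098) (.e (nat_lit 3471) (nat_lit 217) (.e (nat_lit 696344) (nat_lit 8) (.e (nat_lit 172082) (nat_lit 7) (.e (nat_lit 409646) (nat_lit 18) (.e (nat_lit 303140) (nat_lit 10) (.e (nat_lit 434275) (nat_lit 39) (.e (nat_lit 663580) (nat_lit 9) (.e (nat_lit 7936) (nat_lit 157) .nil)))))))) (.g (nat_lit 1) (.e (nat_lit 92569) (nat_lit 0) .nil) .nil))) 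
(.lf (nat_lit 473845) (.g (nat_lit 1265) (.e (nat_lit 1197) (nat_lit 88) (.e (nat_lit 65628) (nat_lit 14) (.e (nat_lit 401428) (nat_lit 3) (.e (nat_lit 204868) (nat_lit 29) .nil)))) (.g (nat_lit 0) (.e (nat_lit 94824) (nat_lit 0) .nil) .nil)))) (.nd (nat_lit 9) 
(.lf (nat_lit 473589) (.g (nat_lit 2899) (.e (nat_lit 1125) (nat_lit 83) (.e (nat_lit 16466) (nat_lit 13) (.e (nat_lit 483413) (nat_lit 27) (.e (nat_lit 401446) (nat_lit 10) .nil)))) (.g (nat_lit 0) (.e (nat_lit 93764) (nat_lit 0) .nil) .nil))) 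
(.lf (nat_lit 474101) (.g (nat_lit 4071) (.e (nat_lit 1235) (nat_lit 91) (.e (nat_lit 90170) (nat_lit 13) (.e (nat_lit 172106) (nat_lit 10) (.e (nat_lit 434244) (nat_lit 28) (.e (nat_lit 573450) (nat_lit 9) (.e (nat_lit 375) (nat_lit 32) (.e (nat_lit 426025) (nat_lit 0) (.e (nat_lit 7936) (nat_lit 402) .nil)))))))) (.g (nat_lit 1) (.e (nat_lit 95270) (nat_lit 0) .nil) .nil))))))))) 
(.nd (nat_lit 4) (.nd (nat_lit 5) (.nd (nat_lit 6) (.nd (nat_lit 7) (.nd (nat_lit 8) 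
(.nd (nat_lit 9) 
(.lf (nat_lit 473101) (.g (nat_lit 2233) (.e (nat_lit 3469) (nat_lit 217) (.e (nat_lit 696344) (nat_lit 8) (.e (nat_lit 172115) (nat_lit 10) (.e (nat_lit 434202) (nat_lit 18) (.e (nat_lit 6254) (nat_lit 337) (.e (nat_lit 7936) (nat_lit 166) (.e (nat_lit 188440) (nat_lit 20) .nil))))))) (.g (nat_lit 1) (.e (nat_lit 92233) (nat_lit 0) .nil) .nil))) 
(.lf (nat_lit 473613) (.g (nat_lit 2052) (.e (nat_lit 1130) (nat_lit 83) (.e (nat_lit 16448) (nat_lit 10) (.e (nat_lit 434268) (nat_lit 36) (.e (nat_lit 639020) (nat_lit 16) (.e (nat_lit 65617) (nat_lit 10) .nil))))) (.g (nat_lit 0) (.e (nat_lit 93800) (nat_lit 0) .nil) .nil)))) (.nd (nat_lit 9) 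
(.lf (nat_lit 473357) (.g (nat_lit 2237) (.e (nat_lit 3491) (nat_lit 218) (.e (nat_lit 704738) (nat_lit 11) (.e (nat_lit 16425) (nat_lit 7) (.e (nat_lit 409649) (nat_lit 18) (.e (nat_lit 303140) (nat_lit 10) .nil))))) (.g (nat_lit 0) (.e (nat_lit 92612) (nat_lit 0) .nil) .nil))) 
(.lf (nat_lit 473869) (.g (nat_lit 2713) (.e (nat_lit 1200) (nat_lit 88) (.e (nat_lit 65630) (nat_lit 14) (.e (nat_lit 401437) (nat_lit 9) (.e (nat_lit 426555) (nat_lit 32) (.e (nat_lit 376856) (nat_lit 21) .nil))))) (.g (nat_lit 0) (.e (nat_lit 94869) (nat_lit 0) .nil) .nil))))) (.nd (nat_lit 8) (.nd (nat_lit 9) 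
(.lf (nat_lit 473229) (.g (nat_lit 2854) (.e (nat_lit 3471) (nat_lit 217) (.e (nat_lit 696344) (nat_lit 8) (.e (nat_lit 172067) (nat_lit 3) (.e (nat_lit 204855) (nat_lit 26) (.e (nat_lit 336176) (nat_lit 10) (.e (nat_lit 344130) (nat_lit 26) (.e (nat_lit 557065) (nat_lit 9) (.e (nat_lit 2399) (nat_lit 157) .nil)))))))) (.g (nat_lit 1) (.e (nat_lit 92464) (nat_lit 0) .nil) .nil))) 
(.lf (nat_lit 473741) (.g (nat_lit 2863) (.e (nat_lit 1183) (nat_lit 87) (.e (nat_lit 57479) (nat_lit 28) (.e (nat_lit 557105) (nat_lit 14) (.e (nat_lit 180251) (nat_lit 10) (.e (nat_lit 573482) (nat_lit 13) .nil))))) (.g (nat_lit 0) (.e (nat_lit 94537) (nat_lit 0) .nil) .nil)))) (.nd (nat_lit 9) 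
(.lf (nat_lit 473485) (.g (nat_lit 2570) (.e (nat_lit 3579) (nat_lit 223) (.e (nat_lit 753408) (nat_lit 11) (.e (nat_lit 24660) (nat_lit 13) (.e (nat_lit 393260) (nat_lit 21) (.e (nat_lit 409648) (nat_lit 18) (.e (nat_lit 303108) (nat_lit 0) .nil)))))) (.g (nat_lit 1) (.e (nat_lit 92947) (nat_lit 0) .nil) .nil))) 
(.lf (nat_lit 473997) (.g (nat_lit 1756) (.e (nat_lit 1225) (nat_lit 91) (.e (nat_lit 90176) (nat_lit 15) (.e (nat_lit 188452) (nat_lit 23) (.e (nat_lit 204849) (nat_lit 25) .nil)))) (.g (nat_lit 0) (.e (nat_lit 95150) (nat_lit 0) .nil) .nil)))))) (.nd (nat_lit 7) (.nd (nat_lit 8) (.nd (nat_lit 9) 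
(.lf (nat_lit 473165) (.g (nat_lit 2294) (.e (nat_lit 3471) (nat_lit 217) (.e (nat_lit 696343) (nat_lit 8) (.e (nat_lit 172082) (nat_lit 7) (.e (nat_lit 409646) (nat_lit 18) (.e (nat_lit 303133) (nat_lit 9) (.e (nat_lit 426042) (nat_lit 0) (.e (nat_lit 2480) (nat_lit 157) (.e (nat_lit 5964) (nat_lit 324) (.e (nat_lit 163844) (nat_lit 0) .nil))))))))) (.g (nat_lit 1) (.e (nat_lit 92400) (nat_lit 0) .nil) .nil))) 
(.lf (nat_lit 473677) (.g (nat_lit 2711) (.e (nat_lit 1176) (nat_lit 87) (.e (nat_lit 57575) (nat_lit 55) (.e (nat_lit 778466) (nat_lit 11) (.e (nat_lit 24617) (nat_lit 7) (.e (nat_lit 319534) (nat_lit 16) .nil))))) (.g (nat_lit 0) (.e (nat_lit 94174) (nat_lit 0) .nil) .nil)))) (.nd (nat_lit 9) 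
(.lf (nat_lit 473421) (.g (nat_lit 2191) (.e (nat_lit 3546) (nat_lit 219) (.e (nat_lit 712754) (nat_lit 30) (.e (nat_lit 450588) (nat_lit 10) (.e (nat_lit 573474) (nat_lit 12) .nil)))) (.g (nat_lit 0) (.e (nat_lit 92797) (nat_lit 0) .nil) .nil))) 
(.lf (nat_lit 473933) (.g (nat_lit 1157) (.e (nat_lit 1210) (nat_lit 89) (.e (nat_lit 73782) (nat_lit 32) (.e (nat_lit 3089) (nat_lit 191) (.e (nat_lit 483396) (nat_lit 24) .nil)))) (.g (nat_lit 0) (.e (nat_lit 95050) (nat_lit 0) .nil) .nil))))) (.nd (nat_lit 8) (.nd (nat_lit 9) 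
(.lf (nat_lit 473293) (.g (nat_lit 2254) (.e (nat_lit 3471) (nat_lit 217) (.e (nat_lit 696344) (nat_lit 8) (.e (nat_lit 172082) (nat_lit 7) (.e (nat_lit 409646) (nat_lit 18) (.e (nat_lit 303133) (nat_lit 9) (.e (nat_lit 426032) (nat_lit 0) (.e (nat_lit 2441) (nat_lit 157) (.e (nat_lit 5965) (nat_lit 324) (.e (nat_lit 163844) (nat_lit 0) .nil))))))))) (.g (nat_lit 1) (.e (nat_lit 92529) (nat_lit 0) .nil) .nil))) 
(.lf (nat_lit 473805) (.g (nat_lit 4353) (.e (nat_lit 1183) (nat_lit 87) (.e (nat_lit 57575) (nat_lit 55) (.e (nat_lit 778466) (nat_lit 11) (.e (nat_lit 24617) (nat_lit 7) (.e (nat_lit 319534) (nat_lit 16) (.e (nat_lit 286756) (nat_lit 10) (.e (nat_lit 344088) (nat_lit 18) (.e (nat_lit 5456) (nat_lit 306) .nil)))))))) (.g (nat_lit 1) (.e (nat_lit 94640) (nat_lit 0) .nil) .nil)))) (.nd (nat_lit 9) 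
(.lf (nat_lit 473549) (.g (nat_lit 4467) (.e (nat_lit 1043) (nat_lit 81) (.e (nat_lit 2342) (nat_lit 151) (.e (nat_lit 778466) (nat_lit 11) (.e (nat_lit 24617) (nat_lit 7) (.e (nat_lit 319534) (nat_lit 16) (.e (nat_lit 286756) (nat_lit 10) (.e (nat_lit 344160) (nat_lit 37) (.e (nat_lit 647195) (nat_lit 9) .nil)))))))) (.g (nat_lit 1) (.e (nat_lit 93400) (nat_lit 0) .nil) .nil))) 
(.lf (nat_lit 474061) (.g (nat_lit 4429) (.e (nat_lit 1234) (nat_lit 91) (.e (nat_lit 90170) (nat_lit 13) (.e (nat_lit 172113) (nat_lit 10) (.e (nat_lit 434245) (nat_lit 28) (.e (nat_lit 573450) (nat_lit 9) (.e (nat_lit 375) (nat_lit 32) (.e (nat_lit 426025) (nat_lit 0) (.e (nat_lit 7559) (nat_lit 402) .nil)))))))) (.g (nat_lit 1) (.e (nat_lit 95228) (nat_lit 0) .nil) .nil))))))) 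
(.nd (nat_lit 6) (.nd (nat_lit 7) (.nd (nat_lit 8) (.nd (nat_lit 9) 
(.lf (nat_lit 473133) (.g (nat_lit 2008) (.e (nat_lit 3471) (nat_lit 217) (.e (nat_lit 696343) (nat_lit 8) (.e (nat_lit 172079) (nat_lit 7) (.e (nat_lit 409645) (nat_lit 18) (.e (nat_lit 303133) (nat_lit 9) (.e (nat_lit 426042) (nat_lit 0) (.e (nat_lit 2447) (nat_lit 157) (.e (nat_lit 5964) (nat_lit 324) (.e (nat_lit 163844) (nat_lit 0) .nil))))))))) (.g (nat_lit 1) (.e (nat_lit 92368) (nat_lit 0) .nil) .nil))) 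
(.lf (nat_lit 473645) (.g (nat_lit 1055) (.e (nat_lit 1162) (nat_lit 86) (.e (nat_lit 49157) (nat_lit 0) (.e (nat_lit 3026) (nat_lit 187) (.e (nat_lit 458496) (nat_lit 9) (.e (nat_lit 565268) (nat_lit 5) (.e (nat_lit 73788) (nat_lit 45) .nil)))))) (.g (nat_lit 1) (.e (nat_lit 93940) (nat_lit 0) .nil) .nil)))) (.nd (nat_lit 9) 
(.lf (nat_lit 473389) (.g (nat_lit 638) (.e (nat_lit 3537) (nat_lit 218) (.e (nat_lit 704738) (nat_lit 11) (.e (nat_lit 16392) (nat_lit 0) .nil))) (.g (nat_lit 0) (.e (nat_lit 92715) (nat_lit 0) .nil) .nil))) 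
(.lf (nat_lit 473901) (.g (nat_lit 1188) (.e (nat_lit 1209) (nat_lit 89) (.e (nat_lit 73781) (nat_lit 32) (.e (nat_lit 3090) (nat_lit 191) (.e (nat_lit 483395) (nat_lit 24) .nil)))) (.g (nat_lit 0) (.e (nat_lit 95017) (nat_lit 0) .nil) .nil))))) (.nd (nat_lit 8) (.nd (nat_lit 9) 
(.lf (nat_lit 473261) (.g (nat_lit 2201) (.e (nat_lit 3471) (nat_lit 217) (.e (nat_lit 696344) (nat_lit 8) (.e (nat_lit 172079) (nat_lit 7) (.e (nat_lit 409645) (nat_lit 18) (.e (nat_lit 303133) (nat_lit 9) (.e (nat_lit 426042) (nat_lit 0) (.e (nat_lit 2480) (nat_lit 157) (.e (nat_lit 5964) (nat_lit 324) (.e (nat_lit 163844) (nat_lit 0) .nil))))))))) (.g (nat_lit 1) (.e (nat_lit 92497) (nat_lit 0) .nil) .nil))) 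
(.lf (nat_lit 473773) (.g (nat_lit 3656) (.e (nat_lit 1183) (nat_lit 87) (.e (nat_lit 57480) (nat_lit 28) (.e (nat_lit 557109) (nat_lit 15) (.e (nat_lit 188450) (nat_lit 23) (.e (nat_lit 204856) (nat_lit 26) .nil))))) (.g (nat_lit 0) (.e (nat_lit 94569) (nat_lit 0) .nil) .nil)))) (.nd (nat_lit 9) 
(.lf (nat_lit 473517) (.g (nat_lit 3313) (.e (nat_lit 1016) (nat_lit 81) (.e (nat_lit 2328) (nat_lit 151) (.e (nat_lit 778466) (nat_lit 11) (.e (nat_lit 24617) (nat_lit 7) (.e (nat_lit 319533) (nat_lit 16) (.e (nat_lit 286753) (nat_lit 10) (.e (nat_lit 344160) (nat_lit 37) (.e (nat_lit 647190) (nat_lit 9) .nil)))))))) (.g (nat_lit 1) (.e (nat_lit 93274) (nat_lit 0) .nil) .nil))) 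
(.lf (nat_lit 474029) (.g (nat_lit 3742) (.e (nat_lit 1232) (nat_lit 91) (.e (nat_lit 90170) (nat_lit 13) (.e (nat_lit 172113) (nat_lit 10) (.e (nat_lit 434245) (nat_lit 28) (.e (nat_lit 573451) (nat_lit 9) (.e (nat_lit 359) (nat_lit 30) (.e (nat_lit 409603) (nat_lit 0) (.e (nat_lit 5293) (nat_lit 298) .nil)))))))) (.g (nat_lit 1) (.e (nat_lit 95190) (nat_lit 0) .nil) .nil)))))) 
(.nd (nat_lit 7) (.nd (nat_lit 8) (.nd (nat_lit 9) 
(.lf (nat_lit 473197) (.g (nat_lit 2356) (.e (nat_lit 3471) (nat_lit 217) (.e (nat_lit 696343) (nat_lit 8) (.e (nat_lit 172082) (nat_lit 7) (.e (nat_lit 409649) (nat_lit 18) (.e (nat_lit 303140) (nat_lit 10) (.e (nat_lit 434275) (nat_lit 39) (.e (nat_lit 663578) (nat_lit 9) (.e (nat_lit 2427) (nat_lit 157) .nil)))))))) (.g (nat_lit 1) (.e (nat_lit 92432) (nat_lit 0) .nil) .nil))) 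
(.lf (nat_lit 473709) (.g (nat_lit 2306) (.e (nat_lit 1181) (nat_lit 87) (.e (nat_lit 57480) (nat_lit 28) (.e (nat_lit 557109) (nat_lit 15) (.e (nat_lit 188452) (nat_lit 23) (.e (nat_lit 204862) (nat_lit 27) .nil))))) (.g (nat_lit 0) (.e (nat_lit 94305) (nat_lit 0) .nil) .nil)))) (.nd (nat_lit 9) 
(.lf (nat_lit 473453) (.g (nat_lit 151) (.e (nat_lit 3577) (nat_lit 223) (.e (nat_lit 745475) (nat_lit 0) (.e (nat_lit 1598) (nat_lit 111) .nil))) (.g (nat_lit 0) (.e (nat_lit 92904) (nat_lit 0) .nil) .nil))) 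
(.lf (nat_lit 473965) (.g (nat_lit 3155) (.e (nat_lit 1214) (nat_lit 89) (.e (nat_lit 73746) (nat_lit 3) (.e (nat_lit 516166) (nat_lit 12) (.e (nat_lit 450587) (nat_lit 10) (.e (nat_lit 573478) (nat_lit 12) .nil))))) (.g (nat_lit 0) (.e (nat_lit 95090) (nat_lit 0) .nil) .nil))))) (.nd (nat_lit 8) (.nd (nat_lit 9) 
(.lf (nat_lit 473325) (.g (nat_lit 2560) (.e (nat_lit 3471) (nat_lit 217) (.e (nat_lit 696344) (nat_lit 8) (.e (nat_lit 172082) (nat_lit 7) (.e (nat_lit 409646) (nat_lit 18) (.e (nat_lit 303139) (nat_lit 10) (.e (nat_lit 434203) (nat_lit 18) (.e (nat_lit 5964) (nat_lit 324) (.e (nat_lit 163844) (nat_lit 0) .nil)))))))) (.g (nat_lit 1) (.e (nat_lit 92561) (nat_lit 0) .nil) .nil))) 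
(.lf (nat_lit 473837) (.g (nat_lit 2835) (.e (nat_lit 1192) (nat_lit 88) (.e (nat_lit 65568) (nat_lit 2) (.e (nat_lit 90170) (nat_lit 13) (.e (nat_lit 172113) (nat_lit 10) (.e (nat_lit 434245) (nat_lit 28) .nil))))) (.g (nat_lit 0) (.e (nat_lit 94807) (nat_lit 0) .nil) .nil)))) (.nd (nat_lit 9) 
(.lf (nat_lit 473581) (.g (nat_lit 2448) (.e (nat_lit 1122) (nat_lit 83) (.e (nat_lit 16470) (nat_lit 14) (.e (nat_lit 491571) (nat_lit 13) (.e (nat_lit 393283) (nat_lit 24) .nil)))) (.g (nat_lit 0) (.e (nat_lit 93746) (nat_lit 0) .nil) .nil))) 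
(.lf (nat_lit 474093) (.g (nat_lit 2428) (.e (nat_lit 1235) (nat_lit 91) (.e (nat_lit 90170) (nat_lit 13) (.e (nat_lit 172106) (nat_lit 10) (.e (nat_lit 434231) (nat_lit 23) (.e (nat_lit 532522) (nat_lit 7) .nil))))) (.g (nat_lit 0) (.e (nat_lit 95262) (nat_lit 0) .nil) .nil)))))))) (.nd (nat_lit 5) (.nd (nat_lit 6) (.nd (nat_lit 7) (.nd (nat_lit 8) (.nd (nat_lit 9) 
(.lf (nat_lit 473117) (.g (nat_lit 2975) (.e (nat_lit 3469) (nat_lit 217) (.e (nat_lit 696344) (nat_lit 8) (.e (nat_lit 172116) (nat_lit 10) (.e (nat_lit 434289) (nat_lit 43) (.e (nat_lit 696346) (nat_lit 10) (.e (nat_lit 188438) (nat_lit 20) .nil)))))) (.g (nat_lit 1) (.e (nat_lit 92249) (nat_lit 0) .nil) .nil))) 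
(.lf (nat_lit 473629) (.g (nat_lit 587) (.e (nat_lit 1159) (nat_lit 86) (.e (nat_lit 49189) (nat_lit 11) (.e (nat_lit 16436) (nat_lit 9) (.e (nat_lit 426550) (nat_lit 31) .nil)))) (.g (nat_lit 0) (.e (nat_lit 93887) (nat_lit 0) .nil) .nil)))) (.nd (nat_lit 9) 
(.lf (nat_lit 473373) (.g (nat_lit 4409) (.e (nat_lit 3502) (nat_lit 218) (.e (nat_lit 704738) (nat_lit 11) (.e (nat_lit 16425) (nat_lit 7) (.e (nat_lit 409649) (nat_lit 18) (.e (nat_lit 303140) (nat_lit 10) (.e (nat_lit 434275) (nat_lit 39) (.e (nat_lit 663580) (nat_lit 9) (.e (nat_lit 7936) (nat_lit 157) .nil)))))))) (.g (nat_lit 1) (.e (nat_lit 92648) (nat_lit 0) .nil) .nil))) 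
(.lf (nat_lit 473885) (.g (nat_lit 1482) (.e (nat_lit 1208) (nat_lit 89) (.e (nat_lit 73755) (nat_lit 8) (.e (nat_lit 557119) (nat_lit 18) (.e (nat_lit 2797) (nat_lit 180) .nil)))) (.g (nat_lit 0) (.e (nat_lit 94986) (nat_lit 0) .nil) .nil))))) (.nd (nat_lit 8) (.nd (nat_lit 9) 
(.lf (nat_lit 473245) (.g (nat_lit 2193) (.e (nat_lit 3471) (nat_lit 217) (.e (nat_lit 696344) (nat_lit 8) (.e (nat_lit 172079) (nat_lit 7) (.e (nat_lit 409645) (nat_lit 18) (.e (nat_lit 303133) (nat_lit 9) (.e (nat_lit 426042) (nat_lit 0) (.e (nat_lit 2428) (nat_lit 157) (.e (nat_lit 5964) (nat_lit 324) (.e (nat_lit 163844) (nat_lit 0) .nil))))))))) (.g (nat_lit 1) (.e (nat_lit 92481) (nat_lit 0) .nil) .nil))) 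
(.lf (nat_lit 473757) (.g (nat_lit 2352) (.e (nat_lit 1183) (nat_lit 87) (.e (nat_lit 57480) (nat_lit 28) (.e (nat_lit 557105) (nat_lit 14) (.e (nat_lit 180252) (nat_lit 10) (.e (nat_lit 573481) (nat_lit 13) .nil))))) (.g (nat_lit 0) (.e (nat_lit 94553) (nat_lit 0) .nil) .nil)))) (.nd (nat_lit 9) 
(.lf (nat_lit 473501) (.g (nat_lit 4104) (.e (nat_lit 982) (nat_lit 81) (.e (nat_lit 2346) (nat_lit 151) (.e (nat_lit 778466) (nat_lit 11) (.e (nat_lit 24617) (nat_lit 7) (.e (nat_lit 319534) (nat_lit 16) (.e (nat_lit 286756) (nat_lit 10) (.e (nat_lit 344160) (nat_lit 37) (.e (nat_lit 647195) (nat_lit 9) .nil)))))))) (.g (nat_lit 1) (.e (nat_lit 93110) (nat_lit 0) .nil) .nil))) 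
(.lf (nat_lit 474013) (.g (nat_lit 1824) (.e (nat_lit 1232) (nat_lit 91) (.e (nat_lit 90170) (nat_lit 13) (.e (nat_lit 172106) (nat_lit 10) (.e (nat_lit 434230) (nat_lit 23) .nil)))) (.g (nat_lit 0) (.e (nat_lit 95174) (nat_lit 0) .nil) .nil)))))) (.nd (nat_lit 7) (.nd (nat_lit 8) (.nd (nat_lit 9) 
(.lf (nat_lit 473181) (.g (nat_lit 3664) (.e (nat_lit 3471) (nat_lit 217) (.e (nat_lit 696343) (nat_lit 8) (.e (nat_lit 172082) (nat_lit 7) (.e (nat_lit 409646) (nat_lit 18) (.e (nat_lit 303140) (nat_lit 10) (.e (nat_lit 434200) (nat_lit 18) (.e (nat_lit 5964) (nat_lit 324) (.e (nat_lit 163844) (nat_lit 0) .nil)))))))) (.g (nat_lit 1) (.e (nat_lit 92416) (nat_lit 0) .nil) .nil))) 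
(.lf (nat_lit 473693) (.g (nat_lit 3063) (.e (nat_lit 1179) (nat_lit 87) (.e (nat_lit 57931) (nat_lit 282) (.e (nat_lit 163943) (nat_lit 19) (.e (nat_lit 483372) (nat_lit 21) (.e (nat_lit 319504) (nat_lit 10) .nil))))) (.g (nat_lit 0) (.e (nat_lit 94268) (nat_lit 0) .nil) .nil)))) (.nd (nat_lit 9) 
(.lf (nat_lit 473437) (.g (nat_lit 984) (.e (nat_lit 3567) (nat_lit 222) (.e (nat_lit 737300) (nat_lit 7) (.e (nat_lit 286747) (nat_lit 9) (.e (nat_lit 336013) (nat_lit 2) (.e (nat_lit 98048) (nat_lit 0) .nil))))) (.g (nat_lit 0) (.e (nat_lit 92851) (nat_lit 0) .nil) .nil))) 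
(.lf (nat_lit 473949) (.g (nat_lit 2663) (.e (nat_lit 1211) (nat_lit 89) (.e (nat_lit 73782) (nat_lit 32) (.e (nat_lit 2856) (nat_lit 184) (.e (nat_lit 426555) (nat_lit 32) (.e (nat_lit 376859) (nat_lit 21) (.e (nat_lit 57872) (nat_lit 264) .nil)))))) (.g (nat_lit 1) (.e (nat_lit 95071) (nat_lit 0) .nil) .nil))))) (.nd (nat_lit 8) (.nd (nat_lit 9) 
(.lf (nat_lit 473309) (.g (nat_lit 2225) (.e (nat_lit 3471) (nat_lit 217) (.e (nat_lit 696344) (nat_lit 8) (.e (nat_lit 172082) (nat_lit 7) (.e (nat_lit 409646) (nat_lit 18) (.e (nat_lit 303133) (nat_lit 9) (.e (nat_lit 426043) (nat_lit 0) (.e (nat_lit 2422) (nat_lit 157) (.e (nat_lit 5965) (nat_lit 324) (.e (nat_lit 163844) (nat_lit 0) .nil))))))))) (.g (nat_lit 1) (.e (nat_lit 92545) (nat_lit 0) .nil) .nil))) 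
(.lf (nat_lit 473821) (.g (nat_lit 3728) (.e (nat_lit 1188) (nat_lit 88) (.e (nat_lit 65652) (nat_lit 27) (.e (nat_lit 426163) (nat_lit 6) (.e (nat_lit 253963) (nat_lit 9) (.e (nat_lit 442) (nat_lit 33) (.e (nat_lit 434233) (nat_lit 23) (.e (nat_lit 532501) (nat_lit 1) (.e (nat_lit 57730) (nat_lit 181) .nil)))))))) (.g (nat_lit 1) (.e (nat_lit 94778) (nat_lit 0) .nil) .nil)))) (.nd (nat_lit 9) 
(.lf (nat_lit 473565) (.g (nat_lit 2252) (.e (nat_lit 1083) (nat_lit 81) (.e (nat_lit 1235) (nat_lit 91) (.e (nat_lit 90170) (nat_lit 13) (.e (nat_lit 172106) (nat_lit 10) (.e (nat_lit 434231) (nat_lit 23) .nil))))) (.g (nat_lit 0) (.e (nat_lit 93464) (nat_lit 0) .nil) .nil))) 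
(.lf (nat_lit 474077) (.g (nat_lit 1755) (.e (nat_lit 1234) (nat_lit 91) (.e (nat_lit 90170) (nat_lit 13) (.e (nat_lit 172113) (nat_lit 10) (.e (nat_lit 434248) (nat_lit 28) (.e (nat_lit 573470) (nat_lit 11) .nil))))) (.g (nat_lit 0) (.e (nat_lit 95244) (nat_lit 0) .nil) .nil))))))) (.nd (nat_lit 6) (.nd (nat_lit 7) (.nd (nat_lit 8) (.nd (nat_lit 9) 
(.lf (nat_lit 473149) (.g (nat_lit 1806) (.e (nat_lit 3471) (nat_lit 217) (.e (nat_lit 696343) (nat_lit 8) (.e (nat_lit 172079) (nat_lit 7) (.e (nat_lit 409645) (nat_lit 18) (.e (nat_lit 303140) (nat_lit 10) (.e (nat_lit 434275) (nat_lit 39) (.e (nat_lit 663580) (nat_lit 9) (.e (nat_lit 7936) (nat_lit 157) .nil)))))))) (.g (nat_lit 1) (.e (nat_lit 92384) (nat_lit 0) .nil) .nil))) 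
(.lf (nat_lit 473661) (.g (nat_lit 1932) (.e (nat_lit 1153) (nat_lit 85) (.e (nat_lit 40997) (nat_lit 11) (.e (nat_lit 24617) (nat_lit 7) (.e (nat_lit 319531) (nat_lit 16) (.e (nat_lit 286759) (nat_lit 12) .nil))))) (.g (nat_lit 0) (.e (nat_lit 93995) (nat_lit 0) .nil) .nil)))) (.nd (nat_lit 9) 
(.lf (nat_lit 473405) (.g (nat_lit 1340) (.e (nat_lit 3544) (nat_lit 219) (.e (nat_lit 712753) (nat_lit 30) (.e (nat_lit 450586) (nat_lit 10) (.e (nat_lit 573473) (nat_lit 12) (.e (nat_lit 57508) (nat_lit 39) .nil))))) (.g (nat_lit 0) (.e (nat_lit 92781) (nat_lit 0) .nil) .nil))) 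
(.lf (nat_lit 473917) (.g (nat_lit 961) (.e (nat_lit 1209) (nat_lit 89) (.e (nat_lit 73782) (nat_lit 32) (.e (nat_lit 3089) (nat_lit 191) (.e (nat_lit 483389) (nat_lit 23) .nil)))) (.g (nat_lit 0) (.e (nat_lit 95033) (nat_lit 0) .nil) .nil))))) (.nd (nat_lit 8) (.nd (nat_lit 9) 
(.lf (nat_lit 473277) (.g (nat_lit 2639) (.e (nat_lit 3471) (nat_lit 217) (.e (nat_lit 696344) (nat_lit 8) (.e (nat_lit 172079) (nat_lit 7) (.e (nat_lit 409645) (nat_lit 18) (.e (nat_lit 303137) (nat_lit 10) (.e (nat_lit 434275) (nat_lit 39) (.e (nat_lit 663579) (nat_lit 9) (.e (nat_lit 2427) (nat_lit 157) .nil)))))))) (.g (nat_lit 1) (.e (nat_lit 92513) (nat_lit 0) .nil) .nil))) 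
(.lf (nat_lit 473789) (.g (nat_lit 2960) (.e (nat_lit 1183) (nat_lit 87) (.e (nat_lit 57575) (nat_lit 55) (.e (nat_lit 778466) (nat_lit 11) (.e (nat_lit 24617) (nat_lit 7) (.e (nat_lit 319533) (nat_lit 16) (.e (nat_lit 286753) (nat_lit 10) (.e (nat_lit 344090) (nat_lit 18) (.e (nat_lit 5429) (nat_lit 306) .nil)))))))) (.g (nat_lit 1) (.e (nat_lit 94623) (nat_lit 0) .nil) .nil)))) (.nd (nat_lit 9) 
(.lf (nat_lit 473533) (.g (nat_lit 2792) (.e (nat_lit 1047) (nat_lit 81) (.e (nat_lit 1858) (nat_lit 124) (.e (nat_lit 557100) (nat_lit 13) (.e (nat_lit 172106) (nat_lit 10) (.e (nat_lit 434231) (nat_lit 23) .nil))))) (.g (nat_lit 0) (.e (nat_lit 93351) (nat_lit 0) .nil) .nil))) 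
(.lf (nat_lit 474045) (.g (nat_lit 4715) (.e (nat_lit 1234) (nat_lit 91) (.e (nat_lit 90170) (nat_lit 13) (.e (nat_lit 172106) (nat_lit 10) (.e (nat_lit 434231) (nat_lit 23) (.e (nat_lit 532535) (nat_lit 9) (.e (nat_lit 336295) (nat_lit 15) (.e (nat_lit 2443) (nat_lit 157) (.e (nat_lit 6921) (nat_lit 371) (.e (nat_lit 1019) (nat_lit 81) .nil))))))))) (.g (nat_lit 1) (.e (nat_lit 95212) (nat_lit 0) .nil) .nil)))))) 
(.nd (nat_lit 7) (.nd (nat_lit 8) (.nd (nat_lit 9) 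
(.lf (nat_lit 473213) (.g (nat_lit 2725) (.e (nat_lit 3471) (nat_lit 217) (.e (nat_lit 696343) (nat_lit 8) (.e (nat_lit 172113) (nat_lit 10) (.e (nat_lit 434208) (nat_lit 18) (.e (nat_lit 6252) (nat_lit 337) (.e (nat_lit 2725) (nat_lit 172) (.e (nat_lit 237605) (nat_lit 9) (.e (nat_lit 425986) (nat_lit 0) .nil)))))))) (.g (nat_lit 1) (.e (nat_lit 92448) (nat_lit 0) .nil) .nil))) 
(.lf (nat_lit 473725) (.g (nat_lit 3903) (.e (nat_lit 1183) (nat_lit 87) (.e (nat_lit 57478) (nat_lit 28) (.e (nat_lit 557109) (nat_lit 15) (.e (nat_lit 188447) (nat_lit 22) (.e (nat_lit 196663) (nat_lit 13) .nil))))) (.g (nat_lit 0) (.e (nat_lit 94521) (nat_lit 0) .nil) .nil)))) (.nd (nat_lit 9) 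
(.lf (nat_lit 473469) (.g (nat_lit 1908) (.e (nat_lit 3579) (nat_lit 223) (.e (nat_lit 745490) (nat_lit 4) (.e (nat_lit 65617) (nat_lit 10) (.e (nat_lit 344138) (nat_lit 29) (.e (nat_lit 581653) (nat_lit 6) (.e (nat_lit 188439) (nat_lit 20) .nil)))))) (.g (nat_lit 1) (.e (nat_lit 92927) (nat_lit 0) .nil) .nil))) 
(.lf (nat_lit 473981) (.g (nat_lit 2927) (.e (nat_lit 1225) (nat_lit 91) (.e (nat_lit 90170) (nat_lit 13) (.e (nat_lit 172106) (nat_lit 10) (.e (nat_lit 434231) (nat_lit 23) (.e (nat_lit 532482) (nat_lit 0) .nil))))) (.g (nat_lit 0) (.e (nat_lit 95134) (nat_lit 0) .nil) .nil))))) (.nd (nat_lit 8) (.nd (nat_lit 9) 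
(.lf (nat_lit 473341) (.g (nat_lit 4425) (.e (nat_lit 3471) (nat_lit 217) (.e (nat_lit 696344) (nat_lit 8) (.e (nat_lit 172082) (nat_lit 7) (.e (nat_lit 409649) (nat_lit 18) (.e (nat_lit 303140) (nat_lit 10) (.e (nat_lit 434275) (nat_lit 39) (.e (nat_lit 663580) (nat_lit 9) (.e (nat_lit 2416) (nat_lit 157) .nil)))))))) (.g (nat_lit 1) (.e (nat_lit 92577) (nat_lit 0) .nil) .nil))) 
(.lf (nat_lit 473853) (.g (nat_lit 971) (.e (nat_lit 1199) (nat_lit 88) (.e (nat_lit 65628) (nat_lit 14) (.e (nat_lit 401438) (nat_lit 9) (.e (nat_lit 426546) (nat_lit 30) .nil)))) (.g (nat_lit 0) (.e (nat_lit 94833) (nat_lit 0) .nil) .nil)))) (.nd (nat_lit 9) 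
(.lf (nat_lit 473597) (.g (nat_lit 2697) (.e (nat_lit 1126) (nat_lit 83) (.e (nat_lit 16470) (nat_lit 14) (.e (nat_lit 491571) (nat_lit 13) (.e (nat_lit 393282) (nat_lit 24) .nil)))) (.g (nat_lit 0) (.e (nat_lit 93779) (nat_lit 0) .nil) .nil))) 
(.lf (nat_lit 474109) (.g (nat_lit 957) (.e (nat_lit 1235) (nat_lit 91) (.e (nat_lit 90170) (nat_lit 13) (.e (nat_lit 172113) (nat_lit 10) (.e (nat_lit 434231) (nat_lit 23) .nil)))) (.g (nat_lit 0) (.e (nat_lit 95278) (nat_lit 0) .nil) .nil))))))))))) (.nd (nat_lit 2) (.nd (nat_lit 3) (.nd (nat_lit 4) (.nd (nat_lit 5) (.nd (nat_lit 6) (.nd (nat_lit 7) (.nd (nat_lit 8) (.nd (nat_lit 9) 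
(.lf (nat_lit 473091) (.g (nat_lit 3234) (.e (nat_lit 3469) (nat_lit 217) (.e (nat_lit 696344) (nat_lit 8) (.e (nat_lit 172113) (nat_lit 10) (.e (nat_lit 434289) (nat_lit 43) (.e (nat_lit 696346) (nat_lit 10) (.e (nat_lit 188435) (nat_lit 20) .nil)))))) (.g (nat_lit 1) (.e (nat_lit 92223) (nat_lit 0) .nil) .nil))) 
(.lf (nat_lit 473603) (.g (nat_lit 2382) (.e (nat_lit 1127) (nat_lit 83) (.e (nat_lit 16473) (nat_lit 14) (.e (nat_lit 491526) (nat_lit 0) (.e (nat_lit 1698) (nat_lit 117) .nil)))) (.g (nat_lit 0) (.e (nat_lit 93785) (nat_lit 0) .nil) .nil)))) (.nd (nat_lit 9) 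
(.lf (nat_lit 473347) (.g (nat_lit 1884) (.e (nat_lit 3471) (nat_lit 217) (.e (nat_lit 696344) (nat_lit 8) (.e (nat_lit 172113) (nat_lit 10) (.e (nat_lit 434203) (nat_lit 18) (.e (nat_lit 6254) (nat_lit 337) (.e (nat_lit 2725) (nat_lit 172) (.e (nat_lit 237605) (nat_lit 9) (.e (nat_lit 425986) (nat_lit 0) .nil)))))))) (.g (nat_lit 1) (.e (nat_lit 92583) (nat_lit 0) .nil) .nil))) 
(.lf (nat_lit 473859) (.g (nat_lit 2676) (.e (nat_lit 1199) (nat_lit 88) (.e (nat_lit 65630) (nat_lit 14) (.e (nat_lit 401437) (nat_lit 9) (.e (nat_lit 426555) (nat_lit 32) (.e (nat_lit 376856) (nat_lit 21) .nil))))) (.g (nat_lit 0) (.e (nat_lit 94839) (nat_lit 0) .nil) .nil))))) (.nd (nat_lit 8) (.nd (nat_lit 9) 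
(.lf (nat_lit 473219) (.g (nat_lit 1069) (.e (nat_lit 3471) (nat_lit 217) (.e (nat_lit 696343) (nat_lit 8) (.e (nat_lit 172123) (nat_lit 13) (.e (nat_lit 483411) (nat_lit 27) .nil)))) (.g (nat_lit 0) (.e (nat_lit 92454) (nat_lit 0) .nil) .nil))) 
(.lf (nat_lit 473731) (.g (nat_lit 2798) (.e (nat_lit 1183) (nat_lit 87) (.e (nat_lit 57478) (nat_lit 28) (.e (nat_lit 557109) (nat_lit 15) (.e (nat_lit 188452) (nat_lit 23) (.e (nat_lit 204851) (nat_lit 26) .nil))))) (.g (nat_lit 0) (.e (nat_lit 94527) (nat_lit 0) .nil) .nil)))) (.nd (nat_lit 9) 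
(.lf (nat_lit 473475) (.g (nat_lit 2455) (.e (nat_lit 3579) (nat_lit 223) (.e (nat_lit 745491) (nat_lit 4) (.e (nat_lit 65619) (nat_lit 10) (.e (nat_lit 344138) (nat_lit 29) (.e (nat_lit 581653) (nat_lit 6) (.e (nat_lit 188438) (nat_lit 20) .nil)))))) (.g (nat_lit 1) (.e (nat_lit 92934) (nat_lit 0) .nil) .nil))) 
(.lf (nat_lit 473987) (.g (nat_lit 2669) (.e (nat_lit 1225) (nat_lit 91) (.e (nat_lit 90170) (nat_lit 13) (.e (nat_lit 172106) (nat_lit 10) (.e (nat_lit 434231) (nat_lit 23) (.e (nat_lit 532526) (nat_lit 8) .nil))))) (.g (nat_lit 0) (.e (nat_lit 95140) (nat_lit 0) .nil) .nil)))))) (.nd (nat_lit 7) (.nd (nat_lit 8) (.nd (nat_lit 9) 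
(.lf (nat_lit 473155) (.g (nat_lit 2286) (.e (nat_lit 3471) (nat_lit 217) (.e (nat_lit 696343) (nat_lit 8) (.e (nat_lit 172082) (nat_lit 7) (.e (nat_lit 409646) (nat_lit 18) (.e (nat_lit 303133) (nat_lit 9) (.e (nat_lit 426042) (nat_lit 0) (.e (nat_lit 2428) (nat_lit 157) (.e (nat_lit 5964) (nat_lit 324) (.e (nat_lit 163844) (nat_lit 0) .nil))))))))) (.g (nat_lit 1) (.e (nat_lit 92390) (nat_lit 0) .nil) .nil))) 
(.lf (nat_lit 473667) (.g (nat_lit 2411) (.e (nat_lit 1172) (nat_lit 87) (.e (nat_lit 57572) (nat_lit 54) (.e (nat_lit 770071) (nat_lit 8) (.e (nat_lit 65586) (nat_lit 7) (.e (nat_lit 319531) (nat_lit 16) (.e (nat_lit 286748) (nat_lit 9) (.e (nat_lit 336295) (nat_lit 15) (.e (nat_lit 2443) (nat_lit 157) (.e (nat_lit 7660) (nat_lit 410) .nil))))))))) (.g (nat_lit 1) (.e (nat_lit 94099) (nat_lit 0) .nil) .nil)))) 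
(.nd (nat_lit 9) 
(.lf (nat_lit 473411) (.g (nat_lit 2548) (.e (nat_lit 3544) (nat_lit 219) (.e (nat_lit 712753) (nat_lit 30) (.e (nat_lit 450586) (nat_lit 10) (.e (nat_lit 573475) (nat_lit 12) (.e (nat_lit 57507) (nat_lit 39) (.e (nat_lit 647199) (nat_lit 11) (.e (nat_lit 16388) (nat_lit 0) .nil))))))) (.g (nat_lit 1) (.e (nat_lit 92787) (nat_lit 0) .nil) .nil))) 
(.lf (nat_lit 473923) (.g (nat_lit 2316) (.e (nat_lit 1210) (nat_lit 89) (.e (nat_lit 73782) (nat_lit 32) (.e (nat_lit 2856) (nat_lit 184) (.e (nat_lit 426542) (nat_lit 29) (.e (nat_lit 352309) (nat_lit 21) .nil))))) (.g (nat_lit 0) (.e (nat_lit 95040) (nat_lit 0) .nil) .nil))))) (.nd (nat_lit 8) (.nd (nat_lit 9) 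
(.lf (nat_lit 473283) (.g (nat_lit 1981) (.e (nat_lit 3471) (nat_lit 217) (.e (nat_lit 696344) (nat_lit 8) (.e (nat_lit 172079) (nat_lit 7) (.e (nat_lit 409645) (nat_lit 18) (.e (nat_lit 303140) (nat_lit 10) .nil))))) (.g (nat_lit 0) (.e (nat_lit 92519) (nat_lit 0) .nil) .nil))) 
(.lf (nat_lit 473795) (.g (nat_lit 2878) (.e (nat_lit 1183) (nat_lit 87) (.e (nat_lit 57575) (nat_lit 55) (.e (nat_lit 778466) (nat_lit 11) (.e (nat_lit 24617) (nat_lit 7) (.e (nat_lit 319534) (nat_lit 16) (.e (nat_lit 286756) (nat_lit 10) (.e (nat_lit 344087) (nat_lit 18) (.e (nat_lit 5439) (nat_lit 306) .nil)))))))) (.g (nat_lit 1) (.e (nat_lit 94630) (nat_lit 0) .nil) .nil)))) (.nd (nat_lit 9) 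
(.lf (nat_lit 473539) (.g (nat_lit 4223) (.e (nat_lit 1040) (nat_lit 81) (.e (nat_lit 2342) (nat_lit 151) (.e (nat_lit 778466) (nat_lit 11) (.e (nat_lit 24617) (nat_lit 7) (.e (nat_lit 319533) (nat_lit 16) (.e (nat_lit 286753) (nat_lit 10) (.e (nat_lit 344160) (nat_lit 37) (.e (nat_lit 647195) (nat_lit 9) .nil)))))))) (.g (nat_lit 1) (.e (nat_lit 93373) (nat_lit 0) .nil) .nil))) 
(.lf (nat_lit 474051) (.g (nat_lit 3383) (.e (nat_lit 1234) (nat_lit 91) (.e (nat_lit 90170) (nat_lit 13) (.e (nat_lit 172106) (nat_lit 10) (.e (nat_lit 434231) (nat_lit 23) (.e (nat_lit 532569) (nat_lit 16) .nil))))) (.g (nat_lit 0) (.e (nat_lit 95218) (nat_lit 0) .nil) .nil))))))) (.nd (nat_lit 6) (.nd (nat_lit 7) (.nd (nat_lit 8) (.nd (nat_lit 9) 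
(.lf (nat_lit 473123) (.g (nat_lit 2652) (.e (nat_lit 3469) (nat_lit 217) (.e (nat_lit 696344) (nat_lit 8) (.e (nat_lit 172123) (nat_lit 13) (.e (nat_lit 483411) (nat_lit 27) (.e (nat_lit 401439) (nat_lit 9) (.e (nat_lit 426043) (nat_lit 0) .nil)))))) (.g (nat_lit 1) (.e (nat_lit 92255) (nat_lit 0) .nil) .nil))) 
(.lf (nat_lit 473635) (.g (nat_lit 1572) (.e (nat_lit 1160) (nat_lit 86) (.e (nat_lit 49157) (nat_lit 0) (.e (nat_lit 3026) (nat_lit 187) (.e (nat_lit 450584) (nat_lit 9) (.e (nat_lit 565268) (nat_lit 5) (.e (nat_lit 73789) (nat_lit 45) .nil)))))) (.g (nat_lit 1) (.e (nat_lit 93903) (nat_lit 0) .nil) .nil)))) (.nd (nat_lit 9) 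
(.lf (nat_lit 473379) (.g (nat_lit 3740) (.e (nat_lit 3526) (nat_lit 218) (.e (nat_lit 704738) (nat_lit 11) (.e (nat_lit 16425) (nat_lit 7) (.e (nat_lit 409649) (nat_lit 18) (.e (nat_lit 303140) (nat_lit 10) (.e (nat_lit 434275) (nat_lit 39) (.e (nat_lit 663579) (nat_lit 9) (.e (nat_lit 2425) (nat_lit 157) .nil)))))))) (.g (nat_lit 1) (.e (nat_lit 92658) (nat_lit 0) .nil) .nil))) 
(.lf (nat_lit 473891) (.g (nat_lit 2804) (.e (nat_lit 1209) (nat_lit 89) (.e (nat_lit 73781) (nat_lit 32) (.e (nat_lit 2856) (nat_lit 184) (.e (nat_lit 426555) (nat_lit 32) (.e (nat_lit 376858) (nat_lit 21) .nil))))) (.g (nat_lit 0) (.e (nat_lit 95007) (nat_lit 0) .nil) .nil))))) (.nd (nat_lit 8) (.nd (nat_lit 9) 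
(.lf (nat_lit 473251) (.g (nat_lit 2498) (.e (nat_lit 3471) (nat_lit 217) (.e (nat_lit 696344) (nat_lit 8) (.e (nat_lit 172079) (nat_lit 7) (.e (nat_lit 409645) (nat_lit 18) (.e (nat_lit 303133) (nat_lit 9) (.e (nat_lit 426042) (nat_lit 0) (.e (nat_lit 2446) (nat_lit 157) (.e (nat_lit 5966) (nat_lit 324) (.e (nat_lit 163844) (nat_lit 0) .nil))))))))) (.g (nat_lit 1) (.e (nat_lit 92487) (nat_lit 0) .nil) .nil))) 
(.lf (nat_lit 473763) (.g (nat_lit 6147) (.e (nat_lit 1183) (nat_lit 87) (.e (nat_lit 57480) (nat_lit 28) (.e (nat_lit 557108) (nat_lit 15) (.e (nat_lit 188449) (nat_lit 22) (.e (nat_lit 196668) (nat_lit 14) .nil))))) (.g (nat_lit 0) (.e (nat_lit 94559) (nat_lit 0) .nil) .nil)))) (.nd (nat_lit 9) 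
(.lf (nat_lit 473507) (.g (nat_lit 1298) (.e (nat_lit 999) (nat_lit 81) (.e (nat_lit 1239) (nat_lit 91) (.e (nat_lit 90157) (nat_lit 11) (.e (nat_lit 24657) (nat_lit 13) .nil)))) (.g (nat_lit 0) (.e (nat_lit 93195) (nat_lit 0) .nil) .nil))) 
(.lf (nat_lit 474019) (.g (nat_lit 2628) (.e (nat_lit 1232) (nat_lit 91) (.e (nat_lit 90170) (nat_lit 13) (.e (nat_lit 172106) (nat_lit 10) (.e (nat_lit 434231) (nat_lit 23) (.e (nat_lit 540416) (nat_lit 0) .nil))))) (.g (nat_lit 0) (.e (nat_lit 95180) (nat_lit 0) .nil) .nil)))))) (.nd (nat_lit 7) (.nd (nat_lit 8) (.nd (nat_lit 9) 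
(.lf (nat_lit 473187) (.g (nat_lit 4395) (.e (nat_lit 3471) (nat_lit 217) (.e (nat_lit 696343) (nat_lit 8) (.e (nat_lit 172082) (nat_lit 7) (.e (nat_lit 409646) (nat_lit 18) (.e (nat_lit 303140) (nat_lit 10) (.e (nat_lit 434275) (nat_lit 39) (.e (nat_lit 663580) (nat_lit 9) (.e (nat_lit 2416) (nat_lit 157) .nil)))))))) (.g (nat_lit 1) (.e (nat_lit 92422) (nat_lit 0) .nil) .nil))) 
(.lf (nat_lit 473699) (.g (nat_lit 2099) (.e (nat_lit 1181) (nat_lit 87) (.e (nat_lit 57478) (nat_lit 28) (.e (nat_lit 557109) (nat_lit 15) (.e (nat_lit 188449) (nat_lit 22) (.e (nat_lit 196666) (nat_lit 13) .nil))))) (.g (nat_lit 0) (.e (nat_lit 94284) (nat_lit 0) .nil) .nil)))) (.nd (nat_lit 9) 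
(.lf (nat_lit 473443) (.g (nat_lit 1827) (.e (nat_lit 3571) (nat_lit 222) (.e (nat_lit 737300) (nat_lit 7) (.e (nat_lit 286753) (nat_lit 10) (.e (nat_lit 344138) (nat_lit 29) (.e (nat_lit 581653) (nat_lit 6) (.e (nat_lit 188427) (nat_lit 20) .nil)))))) (.g (nat_lit 1) (.e (nat_lit 92866) (nat_lit 0) .nil) .nil))) 
(.lf (nat_lit 473955) (.g (nat_lit 3172) (.e (nat_lit 1212) (nat_lit 89) (.e (nat_lit 73782) (nat_lit 32) (.e (nat_lit 2856) (nat_lit 184) (.e (nat_lit 426538) (nat_lit 29) (.e (nat_lit 352318) (nat_lit 24) (.e (nat_lit 123183) (nat_lit 264) .nil)))))) (.g (nat_lit 1) (.e (nat_lit 95079) (nat_lit 0) .nil) .nil))))) (.nd (nat_lit 8) (.nd (nat_lit 9) 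
(.lf (nat_lit 473315) (.g (nat_lit 2378) (.e (nat_lit 3471) (nat_lit 217) (.e (nat_lit 696344) (nat_lit 8) (.e (nat_lit 172082) (nat_lit 7) (.e (nat_lit 409646) (nat_lit 18) (.e (nat_lit 303135) (nat_lit 10) (.e (nat_lit 434203) (nat_lit 18) (.e (nat_lit 5964) (nat_lit 324) (.e (nat_lit 163843) (nat_lit 0) .nil)))))))) (.g (nat_lit 1) (.e (nat_lit 92551) (nat_lit 0) .nil) .nil))) 
(.lf (nat_lit 473827) (.g (nat_lit 1054) (.e (nat_lit 1190) (nat_lit 88) (.e (nat_lit 65628) (nat_lit 14) (.e (nat_lit 401438) (nat_lit 9) (.e (nat_lit 426544) (nat_lit 30) .nil)))) (.g (nat_lit 0) (.e (nat_lit 94789) (nat_lit 0) .nil) .nil)))) (.nd (nat_lit 9) 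
(.lf (nat_lit 473571) (.g (nat_lit 905) (.e (nat_lit 7936) (nat_lit 81) (.e (nat_lit 7282) (nat_lit 386) (.e (nat_lit 163903) (nat_lit 12) (.e (nat_lit 426568) (nat_lit 34) .nil)))) (.g (nat_lit 0) (.e (nat_lit 93526) (nat_lit 0) .nil) .nil))) 
(.lf (nat_lit 474083) (.g (nat_lit 1666) (.e (nat_lit 1234) (nat_lit 91) (.e (nat_lit 90176) (nat_lit 15) (.e (nat_lit 188450) (nat_lit 23) (.e (nat_lit 204846) (nat_lit 24) .nil)))) (.g (nat_lit 0) (.e (nat_lit 95250) (nat_lit 0) .nil) .nil)))))))) (.nd (nat_lit 5) (.nd (nat_lit 6) (.nd (nat_lit 7) (.nd (nat_lit 8) (.nd (nat_lit 9) 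
(.lf (nat_lit 473107) (.g (nat_lit 2636) (.e (nat_lit 3469) (nat_lit 217) (.e (nat_lit 696344) (nat_lit 8) (.e (nat_lit 172115) (nat_lit 10) (.e (nat_lit 434209) (nat_lit 18) (.e (nat_lit 6426) (nat_lit 342) (.e (nat_lit 229412) (nat_lit 14) (.e (nat_lit 442411) (nat_lit 20) .nil))))))) (.g (nat_lit 1) (.e (nat_lit 92239) (nat_lit 0) .nil) .nil))) 
(.lf (nat_lit 473619) (.g (nat_lit 2587) (.e (nat_lit 1157) (nat_lit 86) (.e (nat_lit 49188) (nat_lit 11) (.e (nat_lit 16416) (nat_lit 3) (.e (nat_lit 204869) (nat_lit 29) (.e (nat_lit 360474) (nat_lit 8) .nil))))) (.g (nat_lit 0) (.e (nat_lit 93867) (nat_lit 0) .nil) .nil)))) (.nd (nat_lit 9) 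
(.lf (nat_lit 473363) (.g (nat_lit 2855) (.e (nat_lit 3497) (nat_lit 218) (.e (nat_lit 704738) (nat_lit 11) (.e (nat_lit 16425) (nat_lit 7) (.e (nat_lit 409649) (nat_lit 18) (.e (nat_lit 303140) (nat_lit 10) (.e (nat_lit 434275) (nat_lit 39) (.e (nat_lit 663574) (nat_lit 9) (.e (nat_lit 7936) (nat_lit 157) .nil)))))))) (.g (nat_lit 1) (.e (nat_lit 92637) (nat_lit 0) .nil) .nil))) 
(.lf (nat_lit 473875) (.g (nat_lit 2162) (.e (nat_lit 1201) (nat_lit 88) (.e (nat_lit 65628) (nat_lit 14) (.e (nat_lit 401437) (nat_lit 9) (.e (nat_lit 426555) (nat_lit 32) (.e (nat_lit 376870) (nat_lit 24) .nil))))) (.g (nat_lit 0) (.e (nat_lit 94875) (nat_lit 0) .nil) .nil))))) (.nd (nat_lit 8) (.nd (nat_lit 9) 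
(.lf (nat_lit 473235) (.g (nat_lit 3114) (.e (nat_lit 3471) (nat_lit 217) (.e (nat_lit 696344) (nat_lit 8) (.e (nat_lit 172078) (nat_lit 7) (.e (nat_lit 409646) (nat_lit 18) (.e (nat_lit 303140) (nat_lit 10) (.e (nat_lit 434202) (nat_lit 18) (.e (nat_lit 5964) (nat_lit 324) (.e (nat_lit 163844) (nat_lit 0) .nil)))))))) (.g (nat_lit 1) (.e (nat_lit 92470) (nat_lit 0) .nil) .nil))) 
(.lf (nat_lit 473747) (.g (nat_lit 3154) (.e (nat_lit 1183) (nat_lit 87) (.e (nat_lit 57479) (nat_lit 28) (.e (nat_lit 557105) (nat_lit 14) (.e (nat_lit 180252) (nat_lit 10) (.e (nat_lit 573488) (nat_lit 14) .nil))))) (.g (nat_lit 0) (.e (nat_lit 94543) (nat_lit 0) .nil) .nil)))) (.nd (nat_lit 9) 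
(.lf (nat_lit 473491) (.g (nat_lit 2041) (.e (nat_lit 970) (nat_lit 81) (.e (nat_lit 6202) (nat_lit 332) (.e (nat_lit 2797) (nat_lit 180) (.e (nat_lit 303117) (nat_lit 2) (.e (nat_lit 196669) (nat_lit 14) (.e (nat_lit 73781) (nat_lit 32) (.e (nat_lit 2664) (nat_lit 167) (.e (nat_lit 196628) (nat_lit 9) .nil)))))))) (.g (nat_lit 1) (.e (nat_lit 93028) (nat_lit 0) .nil) .nil))) 
(.lf (nat_lit 474003) (.g (nat_lit 2842) (.e (nat_lit 1228) (nat_lit 91) (.e (nat_lit 90170) (nat_lit 13) (.e (nat_lit 172106) (nat_lit 10) (.e (nat_lit 434244) (nat_lit 28) .nil)))) (.g (nat_lit 0) (.e (nat_lit 95157) (nat_lit 0) .nil) .nil)))))) (.nd (nat_lit 7) (.nd (nat_lit 8) (.nd (nat_lit 9) 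
(.lf (nat_lit 473171) (.g (nat_lit 1939) (.e (nat_lit 3471) (nat_lit 217) (.e (nat_lit 696343) (nat_lit 8) (.e (nat_lit 172082) (nat_lit 7) (.e (nat_lit 409646) (nat_lit 18) (.e (nat_lit 303133) (nat_lit 9) (.e (nat_lit 426043) (nat_lit 0) (.e (nat_lit 2448) (nat_lit 157) (.e (nat_lit 5965) (nat_lit 324) (.e (nat_lit 163844) (nat_lit 0) .nil))))))))) (.g (nat_lit 1) (.e (nat_lit 92406) (nat_lit 0) .nil) .nil))) 
(.lf (nat_lit 473683) (.g (nat_lit 3038) (.e (nat_lit 1177) (nat_lit 87) (.e (nat_lit 57479) (nat_lit 28) (.e (nat_lit 557105) (nat_lit 14) (.e (nat_lit 180252) (nat_lit 10) (.e (nat_lit 573482) (nat_lit 13) .nil))))) (.g (nat_lit 0) (.e (nat_lit 94190) (nat_lit 0) .nil) .nil)))) (.nd (nat_lit 9) 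
(.lf (nat_lit 473427) (.g (nat_lit 2086) (.e (nat_lit 3548) (nat_lit 219) (.e (nat_lit 712753) (nat_lit 30) (.e (nat_lit 450586) (nat_lit 10) (.e (nat_lit 573475) (nat_lit 12) (.e (nat_lit 57508) (nat_lit 39) .nil))))) (.g (nat_lit 0) (.e (nat_lit 92806) (nat_lit 0) .nil) .nil))) 
(.lf (nat_lit 473939) (.g (nat_lit 1691) (.e (nat_lit 1211) (nat_lit 89) (.e (nat_lit 73781) (nat_lit 32) (.e (nat_lit 3090) (nat_lit 191) (.e (nat_lit 483396) (nat_lit 24) (.e (nat_lit 344100) (nat_lit 18) .nil))))) (.g (nat_lit 0) (.e (nat_lit 95061) (nat_lit 0) .nil) .nil))))) (.nd (nat_lit 8) (.nd (nat_lit 9) 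
(.lf (nat_lit 473299) (.g (nat_lit 2972) (.e (nat_lit 3471) (nat_lit 217) (.e (nat_lit 696344) (nat_lit 8) (.e (nat_lit 172082) (nat_lit 7) (.e (nat_lit 409646) (nat_lit 18) (.e (nat_lit 303133) (nat_lit 9) (.e (nat_lit 426042) (nat_lit 0) (.e (nat_lit 2442) (nat_lit 157) (.e (nat_lit 5964) (nat_lit 324) (.e (nat_lit 163844) (nat_lit 0) .nil))))))))) (.g (nat_lit 1) (.e (nat_lit 92535) (nat_lit 0) .nil) .nil))) 
(.lf (nat_lit 473811) (.g (nat_lit 2232) (.e (nat_lit 1183) (nat_lit 87) (.e (nat_lit 57931) (nat_lit 282) (.e (nat_lit 163874) (nat_lit 3) (.e (nat_lit 204864) (nat_lit 27) .nil)))) (.g (nat_lit 0) (.e (nat_lit 94736) (nat_lit 0) .nil) .nil)))) (.nd (nat_lit 9) 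
(.lf (nat_lit 473555) (.g (nat_lit 2003) (.e (nat_lit 1076) (nat_lit 81) (.e (nat_lit 5626) (nat_lit 312) (.e (nat_lit 2685) (nat_lit 168) (.e (nat_lit 204846) (nat_lit 24) (.e (nat_lit 319528) (nat_lit 16) .nil))))) (.g (nat_lit 0) (.e (nat_lit 93443) (nat_lit 0) .nil) .nil))) 
(.lf (nat_lit 474067) (.g (nat_lit 3329) (.e (nat_lit 1234) (nat_lit 91) (.e (nat_lit 90170) (nat_lit 13) (.e (nat_lit 172113) (nat_lit 10) (.e (nat_lit 434245) (nat_lit 28) (.e (nat_lit 573451) (nat_lit 9) (.e (nat_lit 430) (nat_lit 32) (.e (nat_lit 426011) (nat_lit 0) (.e (nat_lit 7545) (nat_lit 402) .nil)))))))) (.g (nat_lit 1) (.e (nat_lit 95234) (nat_lit 0) .nil) .nil))))))) 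
(.nd (nat_lit 6) (.nd (nat_lit 7) (.nd (nat_lit 8) (.nd (nat_lit 9) 
(.lf (nat_lit 473139) (.g (nat_lit 3344) (.e (nat_lit 3471) (nat_lit 217) (.e (nat_lit 696343) (nat_lit 8) (.e (nat_lit 172079) (nat_lit 7) (.e (nat_lit 409645) (nat_lit 18) (.e (nat_lit 303135) (nat_lit 10) (.e (nat_lit 434203) (nat_lit 18) (.e (nat_lit 5964) (nat_lit 324) (.e (nat_lit 163844) (nat_lit 0) .nil)))))))) (.g (nat_lit 1) (.e (nat_lit 92374) (nat_lit 0) .nil) .nil))) 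
(.lf (nat_lit 473651) (.g (nat_lit 1150) (.e (nat_lit 1163) (nat_lit 86) (.e (nat_lit 49157) (nat_lit 0) (.e (nat_lit 3012) (nat_lit 187) (.e (nat_lit 450584) (nat_lit 9) (.e (nat_lit 565268) (nat_lit 5) (.e (nat_lit 73789) (nat_lit 45) .nil)))))) (.g (nat_lit 1) (.e (nat_lit 93970) (nat_lit 0) .nil) .nil)))) (.nd (nat_lit 9) 
(.lf (nat_lit 473395) (.g (nat_lit 2644) (.e (nat_lit 3543) (nat_lit 219) (.e (nat_lit 712755) (nat_lit 30) (.e (nat_lit 450588) (nat_lit 10) (.e (nat_lit 573473) (nat_lit 12) (.e (nat_lit 57503) (nat_lit 38) .nil))))) (.g (nat_lit 0) (.e (nat_lit 92771) (nat_lit 0) .nil) .nil))) 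
(.lf (nat_lit 473907) (.g (nat_lit 1150) (.e (nat_lit 1209) (nat_lit 89) (.e (nat_lit 73782) (nat_lit 32) (.e (nat_lit 2856) (nat_lit 184) (.e (nat_lit 426544) (nat_lit 30) .nil)))) (.g (nat_lit 0) (.e (nat_lit 95023) (nat_lit 0) .nil) .nil))))) (.nd (nat_lit 8) (.nd (nat_lit 9) 
(.lf (nat_lit 473267) (.g (nat_lit 2188) (.e (nat_lit 3471) (nat_lit 217) (.e (nat_lit 696344) (nat_lit 8) (.e (nat_lit 172079) (nat_lit 7) (.e (nat_lit 409645) (nat_lit 18) (.e (nat_lit 303135) (nat_lit 10) (.e (nat_lit 434203) (nat_lit 18) (.e (nat_lit 5964) (nat_lit 324) (.e (nat_lit 163843) (nat_lit 0) .nil)))))))) (.g (nat_lit 1) (.e (nat_lit 92503) (nat_lit 0) .nil) .nil))) 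
(.lf (nat_lit 473779) (.g (nat_lit 3056) (.e (nat_lit 1183) (nat_lit 87) (.e (nat_lit 57480) (nat_lit 28) (.e (nat_lit 557109) (nat_lit 15) (.e (nat_lit 188452) (nat_lit 23) (.e (nat_lit 204859) (nat_lit 26) .nil))))) (.g (nat_lit 0) (.e (nat_lit 94575) (nat_lit 0) .nil) .nil)))) (.nd (nat_lit 9) 
(.lf (nat_lit 473523) (.g (nat_lit 3312) (.e (nat_lit 1027) (nat_lit 81) (.e (nat_lit 1255) (nat_lit 92) (.e (nat_lit 98321) (nat_lit 17) (.e (nat_lit 3771) (nat_lit 229) (.e (nat_lit 794669) (nat_lit 22) (.e (nat_lit 196668) (nat_lit 14) (.e (nat_lit 73747) (nat_lit 3) (.e (nat_lit 516115) (nat_lit 1) (.e (nat_lit 164153) (nat_lit 152) .nil))))))))) (.g (nat_lit 1) (.e (nat_lit 93311) (nat_lit 0) .nil) .nil))) 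
(.lf (nat_lit 474035) (.g (nat_lit 2462) (.e (nat_lit 1232) (nat_lit 91) (.e (nat_lit 90170) (nat_lit 13) (.e (nat_lit 172113) (nat_lit 10) (.e (nat_lit 434248) (nat_lit 28) (.e (nat_lit 573457) (nat_lit 9) .nil))))) (.g (nat_lit 0) (.e (nat_lit 95196) (nat_lit 0) .nil) .nil)))))) (.nd (nat_lit 7) (.nd (nat_lit 8) (.nd (nat_lit 9) 
(.lf (nat_lit 473203) (.g (nat_lit 2811) (.e (nat_lit 3471) (nat_lit 217) (.e (nat_lit 696343) (nat_lit 8) (.e (nat_lit 172106) (nat_lit 10) (.e (nat_lit 434202) (nat_lit 18) (.e (nat_lit 6255) (nat_lit 337) (.e (nat_lit 2725) (nat_lit 172) (.e (nat_lit 237605) (nat_lit 9) (.e (nat_lit 425986) (nat_lit 0) .nil)))))))) (.g (nat_lit 1) (.e (nat_lit 92438) (nat_lit 0) .nil) .nil))) 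
(.lf (nat_lit 473715) (.g (nat_lit 2238) (.e (nat_lit 1183) (nat_lit 87) (.e (nat_lit 57478) (nat_lit 28) (.e (nat_lit 557105) (nat_lit 14) (.e (nat_lit 180252) (nat_lit 10) (.e (nat_lit 573481) (nat_lit 13) .nil))))) (.g (nat_lit 0) (.e (nat_lit 94511) (nat_lit 0) .nil) .nil)))) (.nd (nat_lit 9) 
(.lf (nat_lit 473459) (.g (nat_lit 422) (.e (nat_lit 3578) (nat_lit 223) (.e (nat_lit 745476) (nat_lit 0) (.e (nat_lit 1569) (nat_lit 110) .nil))) (.g (nat_lit 0) (.e (nat_lit 92911) (nat_lit 0) .nil) .nil))) 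
(.lf (nat_lit 473971) (.g (nat_lit 774) (.e (nat_lit 1221) (nat_lit 90) (.e (nat_lit 81959) (nat_lit 24) (.e (nat_lit 123019) (nat_lit 122) .nil))) (.g (nat_lit 0) (.e (nat_lit 95115) (nat_lit 0) .nil) .nil))))) (.nd (nat_lit 8) (.nd (nat_lit 9) 
(.lf (nat_lit 473331) (.g (nat_lit 2481) (.e (nat_lit 3471) (nat_lit 217) (.e (nat_lit 696344) (nat_lit 8) (.e (nat_lit 172082) (nat_lit 7) (.e (nat_lit 409646) (nat_lit 18) (.e (nat_lit 303140) (nat_lit 10) (.e (nat_lit 434275) (nat_lit 39) (.e (nat_lit 663572) (nat_lit 9) (.e (nat_lit 2399) (nat_lit 157) .nil)))))))) (.g (nat_lit 1) (.e (nat_lit 92567) (nat_lit 0) .nil) .nil))) 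
(.lf (nat_lit 473843) (.g (nat_lit 3040) (.e (nat_lit 1193) (nat_lit 88) (.e (nat_lit 65628) (nat_lit 14) (.e (nat_lit 401438) (nat_lit 9) (.e (nat_lit 426555) (nat_lit 32) (.e (nat_lit 376870) (nat_lit 24) .nil))))) (.g (nat_lit 0) (.e (nat_lit 94813) (nat_lit 0) .nil) .nil)))) (.nd (nat_lit 9) 
(.lf (nat_lit 473587) (.g (nat_lit 3273) (.e (nat_lit 1124) (nat_lit 83) (.e (nat_lit 16466) (nat_lit 13) (.e (nat_lit 483413) (nat_lit 27) (.e (nat_lit 401448) (nat_lit 10) (.e (nat_lit 434200) (nat_lit 18) .nil))))) (.g (nat_lit 0) (.e (nat_lit 93761) (nat_lit 0) .nil) .nil))) 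
(.lf (nat_lit 474099) (.g (nat_lit 2137) (.e (nat_lit 1235) (nat_lit 91) (.e (nat_lit 90170) (nat_lit 13) (.e (nat_lit 172106) (nat_lit 10) (.e (nat_lit 434244) (nat_lit 28) (.e (nat_lit 573450) (nat_lit 9) .nil))))) (.g (nat_lit 0) (.e (nat_lit 95268) (nat_lit 0) .nil) .nil))))))))) (.nd (nat_lit 4) (.nd (nat_lit 5) (.nd (nat_lit 6) (.nd (nat_lit 7) (.nd (nat_lit 8) (.nd (nat_lit 9) 
(.lf (nat_lit 473099) (.g (nat_lit 1970) (.e (nat_lit 3469) (nat_lit 217) (.e (nat_lit 696344) (nat_lit 8) (.e (nat_lit 172115) (nat_lit 10) (.e (nat_lit 434202) (nat_lit 18) (.e (nat_lit 6254) (nat_lit 337) (.e (nat_lit 7936) (nat_lit 166) (.e (nat_lit 188435) (nat_lit 20) .nil))))))) (.g (nat_lit 1) (.e (nat_lit 92231) (nat_lit 0) .nil) .nil))) 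
(.lf (nat_lit 473611) (.g (nat_lit 2686) (.e (nat_lit 1129) (nat_lit 83) (.e (nat_lit 16466) (nat_lit 13) (.e (nat_lit 483413) (nat_lit 27) (.e (nat_lit 401448) (nat_lit 10) .nil)))) (.g (nat_lit 0) (.e (nat_lit 93795) (nat_lit 0) .nil) .nil)))) (.nd (nat_lit 9) 
(.lf (nat_lit 473355) (.g (nat_lit 1932) (.e (nat_lit 3479) (nat_lit 218) (.e (nat_lit 704590) (nat_lit 3) (.e (nat_lit 163962) (nat_lit 25) (.e (nat_lit 532544) (nat_lit 10) (.e (nat_lit 344130) (nat_lit 26) (.e (nat_lit 557104) (nat_lit 14) (.e (nat_lit 188160) (nat_lit 3) (.e (nat_lit 516098) (nat_lit 0) .nil)))))))) (.g (nat_lit 1) (.e (nat_lit 92606) (nat_lit 0) .nil) .nil))) 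
(.lf (nat_lit 473867) (.g (nat_lit 1644) (.e (nat_lit 1200) (nat_lit 88) (.e (nat_lit 65630) (nat_lit 14) (.e (nat_lit 401437) (nat_lit 9) (.e (nat_lit 426538) (nat_lit 29) .nil)))) (.g (nat_lit 0) (.e (nat_lit 94867) (nat_lit 0) .nil) .nil))))) (.nd (nat_lit 8) (.nd (nat_lit 9) 
(.lf (nat_lit 473227) (.g (nat_lit 2431) (.e (nat_lit 3471) (nat_lit 217) (.e (nat_lit 696344) (nat_lit 8) (.e (nat_lit 172064) (nat_lit 2) (.e (nat_lit 196666) (nat_lit 13) (.e (nat_lit 65617) (nat_lit 10) .nil))))) (.g (nat_lit 0) (.e (nat_lit 92462) (nat_lit 0) .nil) .nil))) 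
(.lf (nat_lit 473739) (.g (nat_lit 2463) (.e (nat_lit 1183) (nat_lit 87) (.e (nat_lit 57479) (nat_lit 28) (.e (nat_lit 557103) (nat_lit 14) (.e (nat_lit 180252) (nat_lit 10) .nil)))) (.g (nat_lit 0) (.e (nat_lit 94535) (nat_lit 0) .nil) .nil)))) (.nd (nat_lit 9) 
(.lf (nat_lit 473483) (.g (nat_lit 2947) (.e (nat_lit 3579) (nat_lit 223) (.e (nat_lit 745509) (nat_lit 11) (.e (nat_lit 24660) (nat_lit 13) (.e (nat_lit 393260) (nat_lit 21) (.e (nat_lit 409648) (nat_lit 18) (.e (nat_lit 303109) (nat_lit 0) .nil)))))) (.g (nat_lit 1) (.e (nat_lit 92945) (nat_lit 0) .nil) .nil))) 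
(.lf (nat_lit 473995) (.g (nat_lit 2828) (.e (nat_lit 1225) (nat_lit 91) (.e (nat_lit 90176) (nat_lit 15) (.e (nat_lit 188452) (nat_lit 23) (.e (nat_lit 204816) (nat_lit 17) .nil)))) (.g (nat_lit 0) (.e (nat_lit 95148) (nat_lit 0) .nil) .nil)))))) (.nd (nat_lit 7) (.nd (nat_lit 8) (.nd (nat_lit 9) 
(.lf (nat_lit 473163) (.g (nat_lit 2333) (.e (nat_lit 3471) (nat_lit 217) (.e (nat_lit 696343) (nat_lit 8) (.e (nat_lit 172082) (nat_lit 7) (.e (nat_lit 409646) (nat_lit 18) (.e (nat_lit 303133) (nat_lit 9) (.e (nat_lit 426042) (nat_lit 0) (.e (nat_lit 2449) (nat_lit 157) (.e (nat_lit 5964) (nat_lit 324) (.e (nat_lit 163844) (nat_lit 0) .nil))))))))) (.g (nat_lit 1) (.e (nat_lit 92398) (nat_lit 0) .nil) .nil))) 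
(.lf (nat_lit 473675) (.g (nat_lit 3601) (.e (nat_lit 1175) (nat_lit 87) (.e (nat_lit 57478) (nat_lit 28) (.e (nat_lit 557109) (nat_lit 15) (.e (nat_lit 188450) (nat_lit 23) (.e (nat_lit 204855) (nat_lit 26) .nil))))) (.g (nat_lit 0) (.e (nat_lit 94150) (nat_lit 0) .nil) .nil)))) (.nd (nat_lit 9) 
(.lf (nat_lit 473419) (.g (nat_lit 955) (.e (nat_lit 3545) (nat_lit 219) (.e (nat_lit 712753) (nat_lit 30) (.e (nat_lit 450586) (nat_lit 10) (.e (nat_lit 573478) (nat_lit 12) .nil)))) (.g (nat_lit 0) (.e (nat_lit 92795) (nat_lit 0) .nil) .nil))) 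
(.lf (nat_lit 473931) (.g (nat_lit 1045) (.e (nat_lit 1210) (nat_lit 89) (.e (nat_lit 73782) (nat_lit 32) (.e (nat_lit 3089) (nat_lit 191) (.e (nat_lit 483393) (nat_lit 23) .nil)))) (.g (nat_lit 0) (.e (nat_lit 95048) (nat_lit 0) .nil) .nil))))) (.nd (nat_lit 8) (.nd (nat_lit 9) 
(.lf (nat_lit 473291) (.g (nat_lit 3074) (.e (nat_lit 3471) (nat_lit 217) (.e (nat_lit 696344) (nat_lit 8) (.e (nat_lit 172079) (nat_lit 7) (.e (nat_lit 409649) (nat_lit 18) (.e (nat_lit 303140) (nat_lit 10) (.e (nat_lit 434275) (nat_lit 39) (.e (nat_lit 663580) (nat_lit 9) (.e (nat_lit 7936) (nat_lit 157) .nil)))))))) (.g (nat_lit 1) (.e (nat_lit 92527) (nat_lit 0) .nil) .nil))) 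
(.lf (nat_lit 473803) (.g (nat_lit 3860) (.e (nat_lit 1183) (nat_lit 87) (.e (nat_lit 57575) (nat_lit 55) (.e (nat_lit 778466) (nat_lit 11) (.e (nat_lit 24617) (nat_lit 7) (.e (nat_lit 319534) (nat_lit 16) (.e (nat_lit 286756) (nat_lit 10) (.e (nat_lit 344088) (nat_lit 18) (.e (nat_lit 5442) (nat_lit 306) .nil)))))))) (.g (nat_lit 1) (.e (nat_lit 94638) (nat_lit 0) .nil) .nil)))) (.nd (nat_lit 9) 
(.lf (nat_lit 473547) (.g (nat_lit 4501) (.e (nat_lit 1042) (nat_lit 81) (.e (nat_lit 2346) (nat_lit 151) (.e (nat_lit 778466) (nat_lit 11) (.e (nat_lit 24617) (nat_lit 7) (.e (nat_lit 319534) (nat_lit 16) (.e (nat_lit 286756) (nat_lit 10) (.e (nat_lit 344160) (nat_lit 37) (.e (nat_lit 647195) (nat_lit 9) .nil)))))))) (.g (nat_lit 1) (.e (nat_lit 93398) (nat_lit 0) .nil) .nil))) 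
(.lf (nat_lit 474059) (.g (nat_lit 2211) (.e (nat_lit 1234) (nat_lit 91) (.e (nat_lit 90170) (nat_lit 13) (.e (nat_lit 172113) (nat_lit 10) (.e (nat_lit 434245) (nat_lit 28) (.e (nat_lit 573449) (nat_lit 9) (.e (nat_lit 442) (nat_lit 33) (.e (nat_lit 434181) (nat_lit 0) .nil))))))) (.g (nat_lit 1) (.e (nat_lit 95226) (nat_lit 0) .nil) .nil))))))) 
(.nd (nat_lit 6) (.nd (nat_lit 7) (.nd (nat_lit 8) (.nd (nat_lit 9) 
(.lf (nat_lit 473131) (.g (nat_lit 2563) (.e (nat_lit 3471) (nat_lit 217) (.e (nat_lit 696343) (nat_lit 8) (.e (nat_lit 172079) (nat_lit 7) (.e (nat_lit 409645) (nat_lit 18) (.e (nat_lit 303133) (nat_lit 9) (.e (nat_lit 426042) (nat_lit 0) (.e (nat_lit 2427) (nat_lit 157) (.e (nat_lit 5965) (nat_lit 324) (.e (nat_lit 163844) (nat_lit 0) .nil))))))))) (.g (nat_lit 1) (.e (nat_lit 92366) (nat_lit 0) .nil) .nil))) 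
(.lf (nat_lit 473643) (.g (nat_lit 1863) (.e (nat_lit 1162) (nat_lit 86) (.e (nat_lit 49157) (nat_lit 0) (.e (nat_lit 3026) (nat_lit 187) (.e (nat_lit 450584) (nat_lit 9) (.e (nat_lit 565268) (nat_lit 5) (.e (nat_lit 73788) (nat_lit 45) .nil)))))) (.g (nat_lit 1) (.e (nat_lit 93938) (nat_lit 0) .nil) .nil)))) (.nd (nat_lit 9) 
(.lf (nat_lit 473387) (.g (nat_lit 2305) (.e (nat_lit 3537) (nat_lit 218) (.e (nat_lit 704727) (nat_lit 10) (.e (nat_lit 8228) (nat_lit 15) (.e (nat_lit 532513) (nat_lit 3) (.e (nat_lit 114714) (nat_lit 22) (.e (nat_lit 90172) (nat_lit 14) (.e (nat_lit 188160) (nat_lit 3) (.e (nat_lit 516106) (nat_lit 0) .nil)))))))) (.g (nat_lit 1) (.e (nat_lit 92706) (nat_lit 0) .nil) .nil))) 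
(.lf (nat_lit 473899) (.g (nat_lit 2351) (.e (nat_lit 1209) (nat_lit 89) (.e (nat_lit 73781) (nat_lit 32) (.e (nat_lit 3090) (nat_lit 191) (.e (nat_lit 483383) (nat_lit 23) (.e (nat_lit 336000) (nat_lit 1) (.e (nat_lit 57873) (nat_lit 264) .nil)))))) (.g (nat_lit 1) (.e (nat_lit 95015) (nat_lit 0) .nil) .nil))))) (.nd (nat_lit 8) (.nd (nat_lit 9) 
(.lf (nat_lit 473259) (.g (nat_lit 2515) (.e (nat_lit 3471) (nat_lit 217) (.e (nat_lit 696344) (nat_lit 8) (.e (nat_lit 172079) (nat_lit 7) (.e (nat_lit 409645) (nat_lit 18) (.e (nat_lit 303133) (nat_lit 9) (.e (nat_lit 426042) (nat_lit 0) (.e (nat_lit 2449) (nat_lit 157) (.e (nat_lit 5966) (nat_lit 324) (.e (nat_lit 163844) (nat_lit 0) .nil))))))))) (.g (nat_lit 1) (.e (nat_lit 92495) (nat_lit 0) .nil) .nil))) 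
(.lf (nat_lit 473771) (.g (nat_lit 3337) (.e (nat_lit 1183) (nat_lit 87) (.e (nat_lit 57480) (nat_lit 28) (.e (nat_lit 557109) (nat_lit 15) (.e (nat_lit 188447) (nat_lit 22) (.e (nat_lit 196666) (nat_lit 13) .nil))))) (.g (nat_lit 0) (.e (nat_lit 94567) (nat_lit 0) .nil) .nil)))) (.nd (nat_lit 9) 
(.lf (nat_lit 473515) (.g (nat_lit 4596) (.e (nat_lit 1015) (nat_lit 81) (.e (nat_lit 2328) (nat_lit 151) (.e (nat_lit 778466) (nat_lit 11) (.e (nat_lit 24617) (nat_lit 7) (.e (nat_lit 319534) (nat_lit 16) (.e (nat_lit 286756) (nat_lit 10) (.e (nat_lit 344160) (nat_lit 37) (.e (nat_lit 647195) (nat_lit 9) .nil)))))))) (.g (nat_lit 1) (.e (nat_lit 93264) (nat_lit 0) .nil) .nil))) 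
(.lf (nat_lit 474027) (.g (nat_lit 573) (.e (nat_lit 1232) (nat_lit 91) (.e (nat_lit 90170) (nat_lit 13) (.e (nat_lit 172113) (nat_lit 10) .nil))) (.g (nat_lit 0) (.e (nat_lit 95188) (nat_lit 0) .nil) .nil)))))) (.nd (nat_lit 7) (.nd (nat_lit 8) (.nd (nat_lit 9) 
(.lf (nat_lit 473195) (.g (nat_lit 2346) (.e (nat_lit 3471) (nat_lit 217) (.e (nat_lit 696343) (nat_lit 8) (.e (nat_lit 172082) (nat_lit 7) (.e (nat_lit 409649) (nat_lit 18) (.e (nat_lit 303140) (nat_lit 10) (.e (nat_lit 434202) (nat_lit 18) (.e (nat_lit 5966) (nat_lit 324) (.e (nat_lit 163844) (nat_lit 0) .nil)))))))) (.g (nat_lit 1) (.e (nat_lit 92430) (nat_lit 0) .nil) .nil))) 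
(.lf (nat_lit 473707) (.g (nat_lit 3163) (.e (nat_lit 1181) (nat_lit 87) (.e (nat_lit 57480) (nat_lit 28) (.e (nat_lit 557109) (nat_lit 15) (.e (nat_lit 188449) (nat_lit 22) (.e (nat_lit 196670) (nat_lit 14) .nil))))) (.g (nat_lit 0) (.e (nat_lit 94303) (nat_lit 0) .nil) .nil)))) (.nd (nat_lit 9) 
(.lf (nat_lit 473451) (.g (nat_lit 2104) (.e (nat_lit 3576) (nat_lit 223) (.e (nat_lit 745509) (nat_lit 11) (.e (nat_lit 24630) (nat_lit 9) (.e (nat_lit 336369) (nat_lit 27) (.e (nat_lit 426173) (nat_lit 7) .nil))))) (.g (nat_lit 0) (.e (nat_lit 92902) (nat_lit 0) .nil) .nil))) 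
(.lf (nat_lit 473963) (.g (nat_lit 5071) (.e (nat_lit 1214) (nat_lit 89) (.e (nat_lit 73746) (nat_lit 3) (.e (nat_lit 516166) (nat_lit 12) (.e (nat_lit 450587) (nat_lit 10) (.e (nat_lit 573473) (nat_lit 12) .nil))))) (.g (nat_lit 0) (.e (nat_lit 95088) (nat_lit 0) .nil) .nil))))) (.nd (nat_lit 8) (.nd (nat_lit 9) 
(.lf (nat_lit 473323) (.g (nat_lit 2784) (.e (nat_lit 3471) (nat_lit 217) (.e (nat_lit 696344) (nat_lit 8) (.e (nat_lit 172082) (nat_lit 7) (.e (nat_lit 409646) (nat_lit 18) (.e (nat_lit 303135) (nat_lit 10) (.e (nat_lit 434275) (nat_lit 39) (.e (nat_lit 663580) (nat_lit 9) (.e (nat_lit 2416) (nat_lit 157) .nil)))))))) (.g (nat_lit 1) (.e (nat_lit 92559) (nat_lit 0) .nil) .nil))) 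
(.lf (nat_lit 473835) (.g (nat_lit 2305) (.e (nat_lit 1192) (nat_lit 88) (.e (nat_lit 65566) (nat_lit 2) (.e (nat_lit 90170) (nat_lit 13) (.e (nat_lit 172113) (nat_lit 10) (.e (nat_lit 434245) (nat_lit 28) .nil))))) (.g (nat_lit 0) (.e (nat_lit 94805) (nat_lit 0) .nil) .nil)))) (.nd (nat_lit 9) 
(.lf (nat_lit 473579) (.g (nat_lit 3841) (.e (nat_lit 1122) (nat_lit 83) (.e (nat_lit 16466) (nat_lit 13) (.e (nat_lit 483413) (nat_lit 27) (.e (nat_lit 401448) (nat_lit 10) (.e (nat_lit 434200) (nat_lit 18) .nil))))) (.g (nat_lit 0) (.e (nat_lit 93744) (nat_lit 0) .nil) .nil))) 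
(.lf (nat_lit 474091) (.g (nat_lit 4086) (.e (nat_lit 1235) (nat_lit 91) (.e (nat_lit 90170) (nat_lit 13) (.e (nat_lit 172106) (nat_lit 10) (.e (nat_lit 434231) (nat_lit 23) (.e (nat_lit 532496) (nat_lit 0) .nil))))) (.g (nat_lit 0) (.e (nat_lit 95260) (nat_lit 0) .nil) .nil)))))))) (.nd (nat_lit 5) (.nd (nat_lit 6) (.nd (nat_lit 7) (.nd (nat_lit 8) (.nd (nat_lit 9) 
(.lf (nat_lit 473115) (.g (nat_lit 3302) (.e (nat_lit 3469) (nat_lit 217) (.e (nat_lit 696344) (nat_lit 8) (.e (nat_lit 172115) (nat_lit 10) (.e (nat_lit 434289) (nat_lit 43) (.e (nat_lit 696346) (nat_lit 10) (.e (nat_lit 188438) (nat_lit 20) .nil)))))) (.g (nat_lit 1) (.e (nat_lit 92247) (nat_lit 0) .nil) .nil))) 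
(.lf (nat_lit 473627) (.g (nat_lit 842) (.e (nat_lit 1159) (nat_lit 86) (.e (nat_lit 49188) (nat_lit 11) (.e (nat_lit 16465) (nat_lit 13) (.e (nat_lit 491264) (nat_lit 17) .nil)))) (.g (nat_lit 0) (.e (nat_lit 93882) (nat_lit 0) .nil) .nil)))) (.nd (nat_lit 9) 
(.lf (nat_lit 473371) (.g (nat_lit 3552) (.e (nat_lit 3502) (nat_lit 218) (.e (nat_lit 704738) (nat_lit 11) (.e (nat_lit 16425) (nat_lit 7) (.e (nat_lit 409648) (nat_lit 18) (.e (nat_lit 303137) (nat_lit 10) (.e (nat_lit 434275) (nat_lit 39) (.e (nat_lit 663574) (nat_lit 9) (.e (nat_lit 2418) (nat_lit 157) .nil)))))))) (.g (nat_lit 1) (.e (nat_lit 92646) (nat_lit 0) .nil) .nil))) 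
(.lf (nat_lit 473883) (.g (nat_lit 3027) (.e (nat_lit 1207) (nat_lit 89) (.e (nat_lit 73746) (nat_lit 3) (.e (nat_lit 516166) (nat_lit 12) (.e (nat_lit 450587) (nat_lit 10) (.e (nat_lit 573478) (nat_lit 12) .nil))))) (.g (nat_lit 0) (.e (nat_lit 94982) (nat_lit 0) .nil) .nil))))) (.nd (nat_lit 8) (.nd (nat_lit 9) 
(.lf (nat_lit 473243) (.g (nat_lit 2930) (.e (nat_lit 3471) (nat_lit 217) (.e (nat_lit 696344) (nat_lit 8) (.e (nat_lit 172079) (nat_lit 7) (.e (nat_lit 409645) (nat_lit 18) (.e (nat_lit 303133) (nat_lit 9) (.e (nat_lit 426042) (nat_lit 0) (.e (nat_lit 2427) (nat_lit 157) (.e (nat_lit 5966) (nat_lit 324) (.e (nat_lit 163844) (nat_lit 0) .nil))))))))) (.g (nat_lit 1) (.e (nat_lit 92479) (nat_lit 0) .nil) .nil))) 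
(.lf (nat_lit 473755) (.g (nat_lit 2848) (.e (nat_lit 1183) (nat_lit 87) (.e (nat_lit 57480) (nat_lit 28) (.e (nat_lit 557105) (nat_lit 14) (.e (nat_lit 180251) (nat_lit 10) (.e (nat_lit 573479) (nat_lit 13) .nil))))) (.g (nat_lit 0) (.e (nat_lit 94551) (nat_lit 0) .nil) .nil)))) (.nd (nat_lit 9) 
(.lf (nat_lit 473499) (.g (nat_lit 1840) (.e (nat_lit 977) (nat_lit 81) (.e (nat_lit 5664) (nat_lit 312) (.e (nat_lit 2679) (nat_lit 168) (.e (nat_lit 204846) (nat_lit 24) (.e (nat_lit 327424) (nat_lit 16) .nil))))) (.g (nat_lit 0) (.e (nat_lit 93086) (nat_lit 0) .nil) .nil))) 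
(.lf (nat_lit 474011) (.g (nat_lit 4594) (.e (nat_lit 1231) (nat_lit 91) (.e (nat_lit 90176) (nat_lit 15) (.e (nat_lit 188452) (nat_lit 23) (.e (nat_lit 204846) (nat_lit 24) (.e (nat_lit 319504) (nat_lit 10) .nil))))) (.g (nat_lit 0) (.e (nat_lit 95167) (nat_lit 0) .nil) .nil)))))) (.nd (nat_lit 7) (.nd (nat_lit 8) (.nd (nat_lit 9) 
(.lf (nat_lit 473179) (.g (nat_lit 3499) (.e (nat_lit 3471) (nat_lit 217) (.e (nat_lit 696343) (nat_lit 8) (.e (nat_lit 172082) (nat_lit 7) (.e (nat_lit 409646) (nat_lit 18) (.e (nat_lit 303135) (nat_lit 10) (.e (nat_lit 434208) (nat_lit 18) (.e (nat_lit 5966) (nat_lit 324) (.e (nat_lit 163844) (nat_lit 0) .nil)))))))) (.g (nat_lit 1) (.e (nat_lit 92414) (nat_lit 0) .nil) .nil))) 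
(.lf (nat_lit 473691) (.g (nat_lit 2406) (.e (nat_lit 1179) (nat_lit 87) (.e (nat_lit 57687) (nat_lit 156) (.e (nat_lit 163933) (nat_lit 17) (.e (nat_lit 466971) (nat_lit 21) (.e (nat_lit 164151) (nat_lit 152) (.e (nat_lit 2635) (nat_lit 165) (.e (nat_lit 180278) (nat_lit 32) .nil))))))) (.g (nat_lit 1) (.e (nat_lit 94253) (nat_lit 0) .nil) .nil)))) (.nd (nat_lit 9) 
(.lf (nat_lit 473435) (.g (nat_lit 3019) (.e (nat_lit 3555) (nat_lit 220) (.e (nat_lit 720956) (nat_lit 25) (.e (nat_lit 114715) (nat_lit 22) (.e (nat_lit 90134) (nat_lit 9) (.e (nat_lit 3098) (nat_lit 192) (.e (nat_lit 491571) (nat_lit 13) (.e (nat_lit 393231) (nat_lit 17) .nil))))))) (.g (nat_lit 1) (.e (nat_lit 92824) (nat_lit 0) .nil) .nil))) 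
(.lf (nat_lit 473947) (.g (nat_lit 1540) (.e (nat_lit 1211) (nat_lit 89) (.e (nat_lit 73782) (nat_lit 32) (.e (nat_lit 2856) (nat_lit 184) (.e (nat_lit 426546) (nat_lit 30) (.e (nat_lit 360452) (nat_lit 0) (.e (nat_lit 5906) (nat_lit 320) .nil)))))) (.g (nat_lit 1) (.e (nat_lit 95069) (nat_lit 0) .nil) .nil))))) (.nd (nat_lit 8) (.nd (nat_lit 9) 
(.lf (nat_lit 473307) (.g (nat_lit 2781) (.e (nat_lit 3471) (nat_lit 217) (.e (nat_lit 696344) (nat_lit 8) (.e (nat_lit 172082) (nat_lit 7) (.e (nat_lit 409646) (nat_lit 18) (.e (nat_lit 303133) (nat_lit 9) (.e (nat_lit 426042) (nat_lit 0) (.e (nat_lit 2449) (nat_lit 157) (.e (nat_lit 5965) (nat_lit 324) (.e (nat_lit 163844) (nat_lit 0) .nil))))))))) (.g (nat_lit 1) (.e (nat_lit 92543) (nat_lit 0) .nil) .nil))) 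
(.lf (nat_lit 473819) (.g (nat_lit 1883) (.e (nat_lit 1188) (nat_lit 88) (.e (nat_lit 65630) (nat_lit 14) (.e (nat_lit 401437) (nat_lit 9) (.e (nat_lit 426544) (nat_lit 30) (.e (nat_lit 360453) (nat_lit 0) .nil))))) (.g (nat_lit 0) (.e (nat_lit 94776) (nat_lit 0) .nil) .nil)))) (.nd (nat_lit 9) 
(.lf (nat_lit 473563) (.g (nat_lit 3056) (.e (nat_lit 1077) (nat_lit 81) (.e (nat_lit 1796) (nat_lit 119) (.e (nat_lit 516166) (nat_lit 12) (.e (nat_lit 450588) (nat_lit 10) (.e (nat_lit 573457) (nat_lit 9) (.e (nat_lit 7936) (nat_lit 33) (.e (nat_lit 434179) (nat_lit 0) .nil))))))) (.g (nat_lit 1) (.e (nat_lit 93461) (nat_lit 0) .nil) .nil))) 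
(.lf (nat_lit 474075) (.g (nat_lit 3341) (.e (nat_lit 1234) (nat_lit 91) (.e (nat_lit 90170) (nat_lit 13) (.e (nat_lit 172113) (nat_lit 10) (.e (nat_lit 434248) (nat_lit 28) (.e (nat_lit 573452) (nat_lit 9) (.e (nat_lit 430) (nat_lit 32) (.e (nat_lit 426011) (nat_lit 0) (.e (nat_lit 7545) (nat_lit 402) .nil)))))))) (.g (nat_lit 1) (.e (nat_lit 95242) (nat_lit 0) .nil) .nil))))))) 
(.nd (nat_lit 6) (.nd (nat_lit 7) (.nd (nat_lit 8) (.nd (nat_lit 9) 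
(.lf (nat_lit 473147) (.g (nat_lit 2470) (.e (nat_lit 3471) (nat_lit 217) (.e (nat_lit 696343) (nat_lit 8) (.e (nat_lit 172079) (nat_lit 7) (.e (nat_lit 409645) (nat_lit 18) (.e (nat_lit 303140) (nat_lit 10) (.e (nat_lit 434202) (nat_lit 18) (.e (nat_lit 5964) (nat_lit 324) (.e (nat_lit 163844) (nat_lit 0) .nil)))))))) (.g (nat_lit 1) (.e (nat_lit 92382) (nat_lit 0) .nil) .nil))) 
(.lf (nat_lit 473659) (.g (nat_lit 1009) (.e (nat_lit 1163) (nat_lit 86) (.e (nat_lit 49157) (nat_lit 0) (.e (nat_lit 3026) (nat_lit 187) (.e (nat_lit 458496) (nat_lit 9) (.e (nat_lit 565268) (nat_lit 5) (.e (nat_lit 73788) (nat_lit 45) .nil)))))) (.g (nat_lit 1) (.e (nat_lit 93979) (nat_lit 0) .nil) .nil)))) (.nd (nat_lit 9) 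
(.lf (nat_lit 473403) (.g (nat_lit 1980) (.e (nat_lit 3544) (nat_lit 219) (.e (nat_lit 712753) (nat_lit 30) (.e (nat_lit 450586) (nat_lit 10) (.e (nat_lit 573473) (nat_lit 12) (.e (nat_lit 57507) (nat_lit 39) (.e (nat_lit 647190) (nat_lit 9) (.e (nat_lit 396) (nat_lit 32) (.e (nat_lit 426012) (nat_lit 0) .nil)))))))) (.g (nat_lit 1) (.e (nat_lit 92779) (nat_lit 0) .nil) .nil))) 
(.lf (nat_lit 473915) (.g (nat_lit 1761) (.e (nat_lit 1209) (nat_lit 89) (.e (nat_lit 73782) (nat_lit 32) (.e (nat_lit 3088) (nat_lit 191) (.e (nat_lit 483393) (nat_lit 23) (.e (nat_lit 335993) (nat_lit 1) .nil))))) (.g (nat_lit 0) (.e (nat_lit 95031) (nat_lit 0) .nil) .nil))))) (.nd (nat_lit 8) (.nd (nat_lit 9) 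
(.lf (nat_lit 473275) (.g (nat_lit 3267) (.e (nat_lit 3471) (nat_lit 217) (.e (nat_lit 696344) (nat_lit 8) (.e (nat_lit 172079) (nat_lit 7) (.e (nat_lit 409645) (nat_lit 18) (.e (nat_lit 303135) (nat_lit 10) (.e (nat_lit 434208) (nat_lit 18) (.e (nat_lit 5966) (nat_lit 324) (.e (nat_lit 163844) (nat_lit 0) .nil)))))))) (.g (nat_lit 1) (.e (nat_lit 92511) (nat_lit 0) .nil) .nil))) 
(.lf (nat_lit 473787) (.g (nat_lit 4124) (.e (nat_lit 1183) (nat_lit 87) (.e (nat_lit 57575) (nat_lit 55) (.e (nat_lit 778466) (nat_lit 11) (.e (nat_lit 24617) (nat_lit 7) (.e (nat_lit 319533) (nat_lit 16) (.e (nat_lit 286753) (nat_lit 10) (.e (nat_lit 344088) (nat_lit 18) (.e (nat_lit 5455) (nat_lit 306) .nil)))))))) (.g (nat_lit 1) (.e (nat_lit 94621) (nat_lit 0) .nil) .nil)))) (.nd (nat_lit 9) 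
(.lf (nat_lit 473531) (.g (nat_lit 1584) (.e (nat_lit 1035) (nat_lit 81) (.e (nat_lit 2281) (nat_lit 150) (.e (nat_lit 770072) (nat_lit 8) (.e (nat_lit 65581) (nat_lit 7) .nil)))) (.g (nat_lit 0) (.e (nat_lit 93336) (nat_lit 0) .nil) .nil))) 
(.lf (nat_lit 474043) (.g (nat_lit 4629) (.e (nat_lit 1234) (nat_lit 91) (.e (nat_lit 90170) (nat_lit 13) (.e (nat_lit 172106) (nat_lit 10) (.e (nat_lit 434231) (nat_lit 23) (.e (nat_lit 532535) (nat_lit 9) (.e (nat_lit 336295) (nat_lit 15) (.e (nat_lit 2443) (nat_lit 157) (.e (nat_lit 6867) (nat_lit 371) (.e (nat_lit 1039) (nat_lit 81) .nil))))))))) (.g (nat_lit 1) (.e (nat_lit 95210) (nat_lit 0) .nil) .nil)))))) 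
(.nd (nat_lit 7) (.nd (nat_lit 8) (.nd (nat_lit 9) 
(.lf (nat_lit 473211) (.g (nat_lit 2037) (.e (nat_lit 3471) (nat_lit 217) (.e (nat_lit 696343) (nat_lit 8) (.e (nat_lit 172113) (nat_lit 10) (.e (nat_lit 434203) (nat_lit 18) (.e (nat_lit 6252) (nat_lit 337) (.e (nat_lit 2725) (nat_lit 172) (.e (nat_lit 237605) (nat_lit 9) (.e (nat_lit 425986) (nat_lit 0) .nil)))))))) (.g (nat_lit 1) (.e (nat_lit 92446) (nat_lit 0) .nil) .nil))) 
(.lf (nat_lit 473723) (.g (nat_lit 4565) (.e (nat_lit 1183) (nat_lit 87) (.e (nat_lit 57478) (nat_lit 28) (.e (nat_lit 557108) (nat_lit 15) (.e (nat_lit 188452) (nat_lit 23) (.e (nat_lit 204859) (nat_lit 26) .nil))))) (.g (nat_lit 0) (.e (nat_lit 94519) (nat_lit 0) .nil) .nil)))) (.nd (nat_lit 9) 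
(.lf (nat_lit 473467) (.g (nat_lit 706) (.e (nat_lit 3578) (nat_lit 223) (.e (nat_lit 745493) (nat_lit 6) (.e (nat_lit 81938) (nat_lit 20) (.e (nat_lit 1885) (nat_lit 127) (.e (nat_lit 581653) (nat_lit 6) .nil))))) (.g (nat_lit 0) (.e (nat_lit 92919) (nat_lit 0) .nil) .nil))) 
(.lf (nat_lit 473979) (.g (nat_lit 1774) (.e (nat_lit 7936) (nat_lit 90) (.e (nat_lit 81938) (nat_lit 20) (.e (nat_lit 2281) (nat_lit 150) (.e (nat_lit 770072) (nat_lit 8) (.e (nat_lit 65610) (nat_lit 10) .nil))))) (.g (nat_lit 0) (.e (nat_lit 95131) (nat_lit 0) .nil) .nil))))) (.nd (nat_lit 8) (.nd (nat_lit 9) 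
(.lf (nat_lit 473339) (.g (nat_lit 4030) (.e (nat_lit 3471) (nat_lit 217) (.e (nat_lit 696344) (nat_lit 8) (.e (nat_lit 172082) (nat_lit 7) (.e (nat_lit 409649) (nat_lit 18) (.e (nat_lit 303140) (nat_lit 10) (.e (nat_lit 434202) (nat_lit 18) (.e (nat_lit 5964) (nat_lit 324) (.e (nat_lit 163844) (nat_lit 0) .nil)))))))) (.g (nat_lit 1) (.e (nat_lit 92575) (nat_lit 0) .nil) .nil))) 
(.lf (nat_lit 473851) (.g (nat_lit 1068) (.e (nat_lit 1199) (nat_lit 88) (.e (nat_lit 65628) (nat_lit 14) (.e (nat_lit 401437) (nat_lit 9) (.e (nat_lit 426544) (nat_lit 30) .nil)))) (.g (nat_lit 0) (.e (nat_lit 94831) (nat_lit 0) .nil) .nil)))) (.nd (nat_lit 9) 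
(.lf (nat_lit 473595) (.g (nat_lit 2327) (.e (nat_lit 1126) (nat_lit 83) (.e (nat_lit 16425) (nat_lit 7) (.e (nat_lit 409617) (nat_lit 10) (.e (nat_lit 632) (nat_lit 50) (.e (nat_lit 573484) (nat_lit 13) .nil))))) (.g (nat_lit 0) (.e (nat_lit 93777) (nat_lit 0) .nil) .nil))) 
(.lf (nat_lit 474107) (.g (nat_lit 1540) (.e (nat_lit 1235) (nat_lit 91) (.e (nat_lit 90170) (nat_lit 13) (.e (nat_lit 172113) (nat_lit 10) (.e (nat_lit 434208) (nat_lit 18) (.e (nat_lit 3919) (nat_lit 239) .nil))))) (.g (nat_lit 0) (.e (nat_lit 95276) (nat_lit 0) .nil) .nil)))))))))) 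
(.nd (nat_lit 3) (.nd (nat_lit 4) (.nd (nat_lit 5) (.nd (nat_lit 6) (.nd (nat_lit 7) 
(.nd (nat_lit 8) (.nd (nat_lit 9) 
(.lf (nat_lit 473095) (.g (nat_lit 1877) (.e (nat_lit 3469) (nat_lit 217) (.e (nat_lit 696344) (nat_lit 8) (.e (nat_lit 172115) (nat_lit 10) (.e (nat_lit 434202) (nat_lit 18) (.e (nat_lit 6252) (nat_lit 337) (.e (nat_lit 7936) (nat_lit 166) (.e (nat_lit 188435) (nat_lit 20) .nil))))))) (.g (nat_lit 1) (.e (nat_lit 92227) (nat_lit 0) .nil) .nil))) 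
(.lf (nat_lit 473607) (.g (nat_lit 2792) (.e (nat_lit 1128) (nat_lit 83) (.e (nat_lit 16470) (nat_lit 14) (.e (nat_lit 491571) (nat_lit 13) (.e (nat_lit 393282) (nat_lit 24) .nil)))) (.g (nat_lit 0) (.e (nat_lit 93791) (nat_lit 0) .nil) .nil)))) (.nd (nat_lit 9) 
(.lf (nat_lit 473351) (.g (nat_lit 536) (.e (nat_lit 3471) (nat_lit 217) (.e (nat_lit 696344) (nat_lit 8) (.e (nat_lit 172123) (nat_lit 13) .nil))) (.g (nat_lit 0) (.e (nat_lit 92587) (nat_lit 0) .nil) .nil))) 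
(.lf (nat_lit 473863) (.g (nat_lit 2185) (.e (nat_lit 1200) (nat_lit 88) (.e (nat_lit 65628) (nat_lit 14) (.e (nat_lit 401437) (nat_lit 9) (.e (nat_lit 426544) (nat_lit 30) (.e (nat_lit 360452) (nat_lit 0) .nil))))) (.g (nat_lit 0) (.e (nat_lit 94863) (nat_lit 0) .nil) .nil))))) (.nd (nat_lit 8) (.nd (nat_lit 9) 
(.lf (nat_lit 473223) (.g (nat_lit 1990) (.e (nat_lit 3471) (nat_lit 217) (.e (nat_lit 696343) (nat_lit 8) (.e (nat_lit 172123) (nat_lit 13) (.e (nat_lit 483413) (nat_lit 27) (.e (nat_lit 401434) (nat_lit 9) .nil))))) (.g (nat_lit 0) (.e (nat_lit 92458) (nat_lit 0) .nil) .nil))) 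
(.lf (nat_lit 473735) (.g (nat_lit 1923) (.e (nat_lit 1183) (nat_lit 87) (.e (nat_lit 57479) (nat_lit 28) (.e (nat_lit 557095) (nat_lit 13) (.e (nat_lit 172097) (nat_lit 9) (.e (nat_lit 426125) (nat_lit 2) .nil))))) (.g (nat_lit 0) (.e (nat_lit 94531) (nat_lit 0) .nil) .nil)))) (.nd (nat_lit 9) 
(.lf (nat_lit 473479) (.g (nat_lit 4060) (.e (nat_lit 3579) (nat_lit 223) (.e (nat_lit 745509) (nat_lit 11) (.e (nat_lit 24628) (nat_lit 9) (.e (nat_lit 336369) (nat_lit 27) (.e (nat_lit 426173) (nat_lit 7) (.e (nat_lit 409649) (nat_lit 18) (.e (nat_lit 303111) (nat_lit 0) .nil))))))) (.g (nat_lit 1) (.e (nat_lit 92941) (nat_lit 0) .nil) .nil))) 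
(.lf (nat_lit 473991) (.g (nat_lit 1325) (.e (nat_lit 1225) (nat_lit 91) (.e (nat_lit 90176) (nat_lit 15) (.e (nat_lit 188450) (nat_lit 23) (.e (nat_lit 204819) (nat_lit 17) .nil)))) (.g (nat_lit 0) (.e (nat_lit 95144) (nat_lit 0) .nil) .nil)))))) (.nd (nat_lit 7) (.nd (nat_lit 8) (.nd (nat_lit 9) 
(.lf (nat_lit 473159) (.g (nat_lit 2894) (.e (nat_lit 3471) (nat_lit 217) (.e (nat_lit 696343) (nat_lit 8) (.e (nat_lit 172082) (nat_lit 7) (.e (nat_lit 409646) (nat_lit 18) (.e (nat_lit 303133) (nat_lit 9) (.e (nat_lit 426042) (nat_lit 0) (.e (nat_lit 2446) (nat_lit 157) (.e (nat_lit 5965) (nat_lit 324) (.e (nat_lit 163844) (nat_lit 0) .nil))))))))) (.g (nat_lit 1) (.e (nat_lit 92394) (nat_lit 0) .nil) .nil))) 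
(.lf (nat_lit 473671) (.g (nat_lit 2226) (.e (nat_lit 1173) (nat_lit 87) (.e (nat_lit 57931) (nat_lit 282) (.e (nat_lit 163874) (nat_lit 3) (.e (nat_lit 204864) (nat_lit 27) .nil)))) (.g (nat_lit 0) (.e (nat_lit 94128) (nat_lit 0) .nil) .nil)))) (.nd (nat_lit 9) 
(.lf (nat_lit 473415) (.g (nat_lit 2374) (.e (nat_lit 3544) (nat_lit 219) (.e (nat_lit 712754) (nat_lit 30) (.e (nat_lit 450588) (nat_lit 10) (.e (nat_lit 573473) (nat_lit 12) (.e (nat_lit 57508) (nat_lit 39) (.e (nat_lit 647195) (nat_lit 9) (.e (nat_lit 426) (nat_lit 32) (.e (nat_lit 426009) (nat_lit 0) .nil)))))))) (.g (nat_lit 1) (.e (nat_lit 92791) (nat_lit 0) .nil) .nil))) 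
(.lf (nat_lit 473927) (.g (nat_lit 865) (.e (nat_lit 1210) (nat_lit 89) (.e (nat_lit 73782) (nat_lit 32) (.e (nat_lit 3087) (nat_lit 191) (.e (nat_lit 483389) (nat_lit 23) .nil)))) (.g (nat_lit 0) (.e (nat_lit 95044) (nat_lit 0) .nil) .nil))))) (.nd (nat_lit 8) (.nd (nat_lit 9) 
(.lf (nat_lit 473287) (.g (nat_lit 2546) (.e (nat_lit 3471) (nat_lit 217) (.e (nat_lit 696344) (nat_lit 8) (.e (nat_lit 172079) (nat_lit 7) (.e (nat_lit 409645) (nat_lit 18) (.e (nat_lit 303140) (nat_lit 10) (.e (nat_lit 434275) (nat_lit 39) (.e (nat_lit 663579) (nat_lit 9) (.e (nat_lit 2427) (nat_lit 157) .nil)))))))) (.g (nat_lit 1) (.e (nat_lit 92523) (nat_lit 0) .nil) .nil))) 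
(.lf (nat_lit 473799) (.g (nat_lit 3123) (.e (nat_lit 1183) (nat_lit 87) (.e (nat_lit 57575) (nat_lit 55) (.e (nat_lit 778466) (nat_lit 11) (.e (nat_lit 24617) (nat_lit 7) (.e (nat_lit 319534) (nat_lit 16) (.e (nat_lit 286756) (nat_lit 10) (.e (nat_lit 344087) (nat_lit 18) (.e (nat_lit 5456) (nat_lit 306) .nil)))))))) (.g (nat_lit 1) (.e (nat_lit 94634) (nat_lit 0) .nil) .nil)))) (.nd (nat_lit 9) 
(.lf (nat_lit 473543) (.g (nat_lit 3188) (.e (nat_lit 1040) (nat_lit 81) (.e (nat_lit 5399) (nat_lit 302) (.e (nat_lit 65637) (nat_lit 15) (.e (nat_lit 3748) (nat_lit 228) (.e (nat_lit 786483) (nat_lit 30) (.e (nat_lit 360484) (nat_lit 15) (.e (nat_lit 647203) (nat_lit 14) .nil))))))) (.g (nat_lit 1) (.e (nat_lit 93379) (nat_lit 0) .nil) .nil))) 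
(.lf (nat_lit 474055) (.g (nat_lit 1960) (.e (nat_lit 1234) (nat_lit 91) (.e (nat_lit 90170) (nat_lit 13) (.e (nat_lit 172113) (nat_lit 10) (.e (nat_lit 434203) (nat_lit 18) (.e (nat_lit 3919) (nat_lit 239) (.e (nat_lit 2635) (nat_lit 165) (.e (nat_lit 180278) (nat_lit 32) .nil))))))) (.g (nat_lit 1) (.e (nat_lit 95222) (nat_lit 0) .nil) .nil))))))) 
(.nd (nat_lit 6) (.nd (nat_lit 7) (.nd (nat_lit 8) (.nd (nat_lit 9) 
(.lf (nat_lit 473127) (.g (nat_lit 3717) (.e (nat_lit 3469) (nat_lit 217) (.e (nat_lit 696344) (nat_lit 8) (.e (nat_lit 172125) (nat_lit 14) (.e (nat_lit 491566) (nat_lit 12) (.e (nat_lit 385108) (nat_lit 51) .nil))))) (.g (nat_lit 0) (.e (nat_lit 92260) (nat_lit 0) .nil) .nil))) 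
(.lf (nat_lit 473639) (.g (nat_lit 991) (.e (nat_lit 1162) (nat_lit 86) (.e (nat_lit 49157) (nat_lit 0) (.e (nat_lit 3012) (nat_lit 187) (.e (nat_lit 450584) (nat_lit 9) (.e (nat_lit 565268) (nat_lit 5) (.e (nat_lit 73788) (nat_lit 45) .nil)))))) (.g (nat_lit 1) (.e (nat_lit 93932) (nat_lit 0) .nil) .nil)))) (.nd (nat_lit 9) 
(.lf (nat_lit 473383) (.g (nat_lit 2722) (.e (nat_lit 3540) (nat_lit 218) (.e (nat_lit 704738) (nat_lit 11) (.e (nat_lit 16425) (nat_lit 7) (.e (nat_lit 409649) (nat_lit 18) (.e (nat_lit 303140) (nat_lit 10) (.e (nat_lit 434275) (nat_lit 39) (.e (nat_lit 663580) (nat_lit 9) (.e (nat_lit 2416) (nat_lit 157) .nil)))))))) (.g (nat_lit 1) (.e (nat_lit 92694) (nat_lit 0) .nil) .nil))) 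
(.lf (nat_lit 473895) (.g (nat_lit 817) (.e (nat_lit 1209) (nat_lit 89) (.e (nat_lit 73781) (nat_lit 32) (.e (nat_lit 3089) (nat_lit 191) (.e (nat_lit 483391) (nat_lit 23) .nil)))) (.g (nat_lit 0) (.e (nat_lit 95011) (nat_lit 0) .nil) .nil))))) (.nd (nat_lit 8) (.nd (nat_lit 9) 
(.lf (nat_lit 473255) (.g (nat_lit 2275) (.e (nat_lit 3471) (nat_lit 217) (.e (nat_lit 696344) (nat_lit 8) (.e (nat_lit 172079) (nat_lit 7) (.e (nat_lit 409645) (nat_lit 18) (.e (nat_lit 303133) (nat_lit 9) (.e (nat_lit 426042) (nat_lit 0) (.e (nat_lit 2448) (nat_lit 157) (.e (nat_lit 5964) (nat_lit 324) (.e (nat_lit 163844) (nat_lit 0) .nil))))))))) (.g (nat_lit 1) (.e (nat_lit 92491) (nat_lit 0) .nil) .nil))) 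
(.lf (nat_lit 473767) (.g (nat_lit 5286) (.e (nat_lit 1183) (nat_lit 87) (.e (nat_lit 57480) (nat_lit 28) (.e (nat_lit 557108) (nat_lit 15) (.e (nat_lit 188452) (nat_lit 23) (.e (nat_lit 204857) (nat_lit 26) .nil))))) (.g (nat_lit 0) (.e (nat_lit 94563) (nat_lit 0) .nil) .nil)))) (.nd (nat_lit 9) 
(.lf (nat_lit 473511) (.g (nat_lit 4188) (.e (nat_lit 1005) (nat_lit 81) (.e (nat_lit 2342) (nat_lit 151) (.e (nat_lit 778466) (nat_lit 11) (.e (nat_lit 24617) (nat_lit 7) (.e (nat_lit 319534) (nat_lit 16) (.e (nat_lit 286756) (nat_lit 10) (.e (nat_lit 344160) (nat_lit 37) (.e (nat_lit 647190) (nat_lit 9) .nil)))))))) (.g (nat_lit 1) (.e (nat_lit 93205) (nat_lit 0) .nil) .nil))) 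
(.lf (nat_lit 474023) (.g (nat_lit 2148) (.e (nat_lit 1232) (nat_lit 91) (.e (nat_lit 90170) (nat_lit 13) (.e (nat_lit 172106) (nat_lit 10) (.e (nat_lit 434231) (nat_lit 23) (.e (nat_lit 532526) (nat_lit 8) .nil))))) (.g (nat_lit 0) (.e (nat_lit 95184) (nat_lit 0) .nil) .nil)))))) (.nd (nat_lit 7) (.nd (nat_lit 8) (.nd (nat_lit 9) 
(.lf (nat_lit 473191) (.g (nat_lit 1786) (.e (nat_lit 3471) (nat_lit 217) (.e (nat_lit 696343) (nat_lit 8) (.e (nat_lit 172082) (nat_lit 7) (.e (nat_lit 409648) (nat_lit 18) (.e (nat_lit 303137) (nat_lit 10) (.e (nat_lit 434275) (nat_lit 39) (.e (nat_lit 663579) (nat_lit 9) (.e (nat_lit 2427) (nat_lit 157) .nil)))))))) (.g (nat_lit 1) (.e (nat_lit 92426) (nat_lit 0) .nil) .nil))) 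
(.lf (nat_lit 473703) (.g (nat_lit 2938) (.e (nat_lit 1181) (nat_lit 87) (.e (nat_lit 57480) (nat_lit 28) (.e (nat_lit 557108) (nat_lit 15) (.e (nat_lit 188452) (nat_lit 23) (.e (nat_lit 204873) (nat_lit 30) .nil))))) (.g (nat_lit 0) (.e (nat_lit 94299) (nat_lit 0) .nil) .nil)))) (.nd (nat_lit 9) 
(.lf (nat_lit 473447) (.g (nat_lit 462) (.e (nat_lit 3572) (nat_lit 222) (.e (nat_lit 737281) (nat_lit 0) (.e (nat_lit 5412) (nat_lit 303) (.e (nat_lit 73750) (nat_lit 6) (.e (nat_lit 540724) (nat_lit 28) .nil))))) (.g (nat_lit 0) (.e (nat_lit 92874) (nat_lit 0) .nil) .nil))) 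
(.lf (nat_lit 473959) (.g (nat_lit 3094) (.e (nat_lit 1212) (nat_lit 89) (.e (nat_lit 73782) (nat_lit 32) (.e (nat_lit 2856) (nat_lit 184) (.e (nat_lit 426542) (nat_lit 29) (.e (nat_lit 352316) (nat_lit 24) (.e (nat_lit 123185) (nat_lit 264) .nil)))))) (.g (nat_lit 1) (.e (nat_lit 95083) (nat_lit 0) .nil) .nil))))) (.nd (nat_lit 8) (.nd (nat_lit 9) 
(.lf (nat_lit 473319) (.g (nat_lit 2728) (.e (nat_lit 3471) (nat_lit 217) (.e (nat_lit 696344) (nat_lit 8) (.e (nat_lit 172082) (nat_lit 7) (.e (nat_lit 409646) (nat_lit 18) (.e (nat_lit 303135) (nat_lit 10) (.e (nat_lit 434203) (nat_lit 18) (.e (nat_lit 5968) (nat_lit 324) (.e (nat_lit 163844) (nat_lit 0) .nil)))))))) (.g (nat_lit 1) (.e (nat_lit 92555) (nat_lit 0) .nil) .nil))) 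
(.lf (nat_lit 473831) (.g (nat_lit 2518) (.e (nat_lit 1191) (nat_lit 88) (.e (nat_lit 65568) (nat_lit 2) (.e (nat_lit 90170) (nat_lit 13) (.e (nat_lit 172113) (nat_lit 10) (.e (nat_lit 434242) (nat_lit 28) .nil))))) (.g (nat_lit 0) (.e (nat_lit 94801) (nat_lit 0) .nil) .nil)))) (.nd (nat_lit 9) 
(.lf (nat_lit 473575) (.g (nat_lit 2375) (.e (nat_lit 1122) (nat_lit 83) (.e (nat_lit 16425) (nat_lit 7) (.e (nat_lit 409649) (nat_lit 18) (.e (nat_lit 303140) (nat_lit 10) (.e (nat_lit 434275) (nat_lit 39) .nil))))) (.g (nat_lit 0) (.e (nat_lit 93739) (nat_lit 0) .nil) .nil))) 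
(.lf (nat_lit 474087) (.g (nat_lit 2919) (.e (nat_lit 1235) (nat_lit 91) (.e (nat_lit 90170) (nat_lit 13) (.e (nat_lit 172106) (nat_lit 10) (.e (nat_lit 434231) (nat_lit 23) (.e (nat_lit 532482) (nat_lit 0) .nil))))) (.g (nat_lit 0) (.e (nat_lit 95256) (nat_lit 0) .nil) .nil)))))))) (.nd (nat_lit 5) (.nd (nat_lit 6) (.nd (nat_lit 7) (.nd (nat_lit 8) (.nd (nat_lit 9) 
(.lf (nat_lit 473111) (.g (nat_lit 1721) (.e (nat_lit 3469) (nat_lit 217) (.e (nat_lit 696344) (nat_lit 8) (.e (nat_lit 172115) (nat_lit 10) (.e (nat_lit 434209) (nat_lit 18) (.e (nat_lit 6428) (nat_lit 342) (.e (nat_lit 229412) (nat_lit 14) (.e (nat_lit 442408) (nat_lit 20) .nil))))))) (.g (nat_lit 1) (.e (nat_lit 92243) (nat_lit 0) .nil) .nil))) 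
(.lf (nat_lit 473623) (.g (nat_lit 1373) (.e (nat_lit 1159) (nat_lit 86) (.e (nat_lit 49187) (nat_lit 11) (.e (nat_lit 16433) (nat_lit 9) (.e (nat_lit 426550) (nat_lit 31) (.e (nat_lit 368656) (nat_lit 14) .nil))))) (.g (nat_lit 0) (.e (nat_lit 93873) (nat_lit 0) .nil) .nil)))) (.nd (nat_lit 9) 
(.lf (nat_lit 473367) (.g (nat_lit 3975) (.e (nat_lit 3501) (nat_lit 218) (.e (nat_lit 704738) (nat_lit 11) (.e (nat_lit 16425) (nat_lit 7) (.e (nat_lit 409648) (nat_lit 18) (.e (nat_lit 303137) (nat_lit 10) (.e (nat_lit 434275) (nat_lit 39) (.e (nat_lit 663574) (nat_lit 9) (.e (nat_lit 2418) (nat_lit 157) .nil)))))))) (.g (nat_lit 1) (.e (nat_lit 92641) (nat_lit 0) .nil) .nil))) 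
(.lf (nat_lit 473879) (.g (nat_lit 2218) (.e (nat_lit 1204) (nat_lit 88) (.e (nat_lit 65566) (nat_lit 2) (.e (nat_lit 90170) (nat_lit 13) (.e (nat_lit 172113) (nat_lit 10) (.e (nat_lit 434245) (nat_lit 28) .nil))))) (.g (nat_lit 0) (.e (nat_lit 94973) (nat_lit 0) .nil) .nil))))) (.nd (nat_lit 8) (.nd (nat_lit 9) 
(.lf (nat_lit 473239) (.g (nat_lit 2309) (.e (nat_lit 3471) (nat_lit 217) (.e (nat_lit 696344) (nat_lit 8) (.e (nat_lit 172079) (nat_lit 7) (.e (nat_lit 409645) (nat_lit 18) (.e (nat_lit 303133) (nat_lit 9) (.e (nat_lit 426032) (nat_lit 0) (.e (nat_lit 2441) (nat_lit 157) (.e (nat_lit 5965) (nat_lit 324) (.e (nat_lit 163844) (nat_lit 0) .nil))))))))) (.g (nat_lit 1) (.e (nat_lit 92475) (nat_lit 0) .nil) .nil))) 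
(.lf (nat_lit 473751) (.g (nat_lit 2006) (.e (nat_lit 1183) (nat_lit 87) (.e (nat_lit 57480) (nat_lit 28) (.e (nat_lit 557098) (nat_lit 13) (.e (nat_lit 172104) (nat_lit 9) .nil)))) (.g (nat_lit 0) (.e (nat_lit 94547) (nat_lit 0) .nil) .nil)))) (.nd (nat_lit 9) 
(.lf (nat_lit 473495) (.g (nat_lit 483) (.e (nat_lit 977) (nat_lit 81) (.e (nat_lit 5664) (nat_lit 312) (.e (nat_lit 2679) (nat_lit 168) .nil))) (.g (nat_lit 0) (.e (nat_lit 93080) (nat_lit 0) .nil) .nil))) 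
(.lf (nat_lit 474007) (.g (nat_lit 2698) (.e (nat_lit 1229) (nat_lit 91) (.e (nat_lit 90170) (nat_lit 13) (.e (nat_lit 172106) (nat_lit 10) (.e (nat_lit 434231) (nat_lit 23) .nil)))) (.g (nat_lit 0) (.e (nat_lit 95161) (nat_lit 0) .nil) .nil)))))) (.nd (nat_lit 7) (.nd (nat_lit 8) (.nd (nat_lit 9) 
(.lf (nat_lit 473175) (.g (nat_lit 3625) (.e (nat_lit 3471) (nat_lit 217) (.e (nat_lit 696343) (nat_lit 8) (.e (nat_lit 172082) (nat_lit 7) (.e (nat_lit 409646) (nat_lit 18) (.e (nat_lit 303135) (nat_lit 10) (.e (nat_lit 434203) (nat_lit 18) (.e (nat_lit 5966) (nat_lit 324) (.e (nat_lit 163844) (nat_lit 0) .nil)))))))) (.g (nat_lit 1) (.e (nat_lit 92410) (nat_lit 0) .nil) .nil))) 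
(.lf (nat_lit 473687) (.g (nat_lit 2191) (.e (nat_lit 1177) (nat_lit 87) (.e (nat_lit 57480) (nat_lit 28) (.e (nat_lit 557105) (nat_lit 14) (.e (nat_lit 180252) (nat_lit 10) (.e (nat_lit 573481) (nat_lit 13) .nil))))) (.g (nat_lit 0) (.e (nat_lit 94194) (nat_lit 0) .nil) .nil)))) (.nd (nat_lit 9) 
(.lf (nat_lit 473431) (.g (nat_lit 580) (.e (nat_lit 7936) (nat_lit 219) (.e (nat_lit 712750) (nat_lit 29) (.e (nat_lit 442423) (nat_lit 22) .nil))) (.g (nat_lit 0) (.e (nat_lit 92811) (nat_lit 0) .nil) .nil))) 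
(.lf (nat_lit 473943) (.g (nat_lit 2032) (.e (nat_lit 1211) (nat_lit 89) (.e (nat_lit 73782) (nat_lit 32) (.e (nat_lit 2856) (nat_lit 184) (.e (nat_lit 426542) (nat_lit 29) (.e (nat_lit 352309) (nat_lit 21) .nil))))) (.g (nat_lit 0) (.e (nat_lit 95065) (nat_lit 0) .nil) .nil))))) (.nd (nat_lit 8) (.nd (nat_lit 9) 
(.lf (nat_lit 473303) (.g (nat_lit 2220) (.e (nat_lit 3471) (nat_lit 217) (.e (nat_lit 696344) (nat_lit 8) (.e (nat_lit 172082) (nat_lit 7) (.e (nat_lit 409646) (nat_lit 18) (.e (nat_lit 303133) (nat_lit 9) (.e (nat_lit 426042) (nat_lit 0) (.e (nat_lit 2448) (nat_lit 157) (.e (nat_lit 5964) (nat_lit 324) (.e (nat_lit 163844) (nat_lit 0) .nil))))))))) (.g (nat_lit 1) (.e (nat_lit 92539) (nat_lit 0) .nil) .nil))) 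
(.lf (nat_lit 473815) (.g (nat_lit 680) (.e (nat_lit 1188) (nat_lit 88) (.e (nat_lit 65628) (nat_lit 14) (.e (nat_lit 401437) (nat_lit 9) .nil))) (.g (nat_lit 0) (.e (nat_lit 94772) (nat_lit 0) .nil) .nil)))) (.nd (nat_lit 9) 
(.lf (nat_lit 473559) (.g (nat_lit 3984) (.e (nat_lit 1076) (nat_lit 81) (.e (nat_lit 5664) (nat_lit 312) (.e (nat_lit 2679) (nat_lit 168) (.e (nat_lit 204846) (nat_lit 24) (.e (nat_lit 319533) (nat_lit 16) (.e (nat_lit 286735) (nat_lit 3) (.e (nat_lit 98323) (nat_lit 17) (.e (nat_lit 6989) (nat_lit 377) .nil)))))))) (.g (nat_lit 1) (.e (nat_lit 93450) (nat_lit 0) .nil) .nil))) 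
(.lf (nat_lit 474071) (.g (nat_lit 2897) (.e (nat_lit 1234) (nat_lit 91) (.e (nat_lit 90170) (nat_lit 13) (.e (nat_lit 172113) (nat_lit 10) (.e (nat_lit 434247) (nat_lit 28) (.e (nat_lit 573456) (nat_lit 9) (.e (nat_lit 430) (nat_lit 32) (.e (nat_lit 426012) (nat_lit 0) (.e (nat_lit 7545) (nat_lit 402) .nil)))))))) (.g (nat_lit 1) (.e (nat_lit 95238) (nat_lit 0) .nil) .nil))))))) 
(.nd (nat_lit 6) (.nd (nat_lit 7) (.nd (nat_lit 8) (.nd (nat_lit 9) 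
(.lf (nat_lit 473143) (.g (nat_lit 1638) (.e (nat_lit 3471) (nat_lit 217) (.e (nat_lit 696343) (nat_lit 8) (.e (nat_lit 172079) (nat_lit 7) (.e (nat_lit 409645) (nat_lit 18) (.e (nat_lit 303135) (nat_lit 10) (.e (nat_lit 434207) (nat_lit 18) (.e (nat_lit 5966) (nat_lit 324) (.e (nat_lit 163844) (nat_lit 0) .nil)))))))) (.g (nat_lit 1) (.e (nat_lit 92378) (nat_lit 0) .nil) .nil))) 
(.lf (nat_lit 473655) (.g (nat_lit 1009) (.e (nat_lit 1163) (nat_lit 86) (.e (nat_lit 49157) (nat_lit 0) (.e (nat_lit 3020) (nat_lit 187) (.e (nat_lit 450584) (nat_lit 9) (.e (nat_lit 565268) (nat_lit 5) (.e (nat_lit 73791) (nat_lit 45) .nil)))))) (.g (nat_lit 1) (.e (nat_lit 93974) (nat_lit 0) .nil) .nil)))) (.nd (nat_lit 9) 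
(.lf (nat_lit 473399) (.g (nat_lit 2613) (.e (nat_lit 3543) (nat_lit 219) (.e (nat_lit 712755) (nat_lit 30) (.e (nat_lit 450588) (nat_lit 10) (.e (nat_lit 573475) (nat_lit 12) (.e (nat_lit 57503) (nat_lit 38) .nil))))) (.g (nat_lit 0) (.e (nat_lit 92775) (nat_lit 0) .nil) .nil))) 
(.lf (nat_lit 473911) (.g (nat_lit 2843) (.e (nat_lit 1209) (nat_lit 89) (.e (nat_lit 73782) (nat_lit 32) (.e (nat_lit 2856) (nat_lit 184) (.e (nat_lit 426555) (nat_lit 32) (.e (nat_lit 376858) (nat_lit 21) .nil))))) (.g (nat_lit 0) (.e (nat_lit 95027) (nat_lit 0) .nil) .nil))))) (.nd (nat_lit 8) (.nd (nat_lit 9) 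
(.lf (nat_lit 473271) (.g (nat_lit 1997) (.e (nat_lit 3471) (nat_lit 217) (.e (nat_lit 696344) (nat_lit 8) (.e (nat_lit 172079) (nat_lit 7) (.e (nat_lit 409645) (nat_lit 18) (.e (nat_lit 303135) (nat_lit 10) (.e (nat_lit 434206) (nat_lit 18) (.e (nat_lit 5968) (nat_lit 324) (.e (nat_lit 163844) (nat_lit 0) .nil)))))))) (.g (nat_lit 1) (.e (nat_lit 92507) (nat_lit 0) .nil) .nil))) 
(.lf (nat_lit 473783) (.g (nat_lit 2451) (.e (nat_lit 1183) (nat_lit 87) (.e (nat_lit 57575) (nat_lit 55) (.e (nat_lit 778466) (nat_lit 11) (.e (nat_lit 24617) (nat_lit 7) (.e (nat_lit 319533) (nat_lit 16) (.e (nat_lit 286753) (nat_lit 10) (.e (nat_lit 344087) (nat_lit 18) (.e (nat_lit 5456) (nat_lit 306) .nil)))))))) (.g (nat_lit 1) (.e (nat_lit 94617) (nat_lit 0) .nil) .nil)))) (.nd (nat_lit 9) 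
(.lf (nat_lit 473527) (.g (nat_lit 4518) (.e (nat_lit 1030) (nat_lit 81) (.e (nat_lit 2342) (nat_lit 151) (.e (nat_lit 778466) (nat_lit 11) (.e (nat_lit 24617) (nat_lit 7) (.e (nat_lit 319534) (nat_lit 16) (.e (nat_lit 286756) (nat_lit 10) (.e (nat_lit 344160) (nat_lit 37) (.e (nat_lit 647190) (nat_lit 9) .nil)))))))) (.g (nat_lit 1) (.e (nat_lit 93315) (nat_lit 0) .nil) .nil))) 
(.lf (nat_lit 474039) (.g (nat_lit 2926) (.e (nat_lit 1233) (nat_lit 91) (.e (nat_lit 90170) (nat_lit 13) (.e (nat_lit 172106) (nat_lit 10) (.e (nat_lit 434231) (nat_lit 23) (.e (nat_lit 532535) (nat_lit 9) .nil))))) (.g (nat_lit 0) (.e (nat_lit 95200) (nat_lit 0) .nil) .nil)))))) (.nd (nat_lit 7) (.nd (nat_lit 8) (.nd (nat_lit 9) 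
(.lf (nat_lit 473207) (.g (nat_lit 2693) (.e (nat_lit 3471) (nat_lit 217) (.e (nat_lit 696343) (nat_lit 8) (.e (nat_lit 172106) (nat_lit 10) (.e (nat_lit 434209) (nat_lit 18) (.e (nat_lit 6425) (nat_lit 342) (.e (nat_lit 229412) (nat_lit 14) (.e (nat_lit 442392) (nat_lit 20) .nil))))))) (.g (nat_lit 1) (.e (nat_lit 92442) (nat_lit 0) .nil) .nil))) 
(.lf (nat_lit 473719) (.g (nat_lit 3119) (.e (nat_lit 1183) (nat_lit 87) (.e (nat_lit 57478) (nat_lit 28) (.e (nat_lit 557108) (nat_lit 15) (.e (nat_lit 188452) (nat_lit 23) (.e (nat_lit 204850) (nat_lit 26) .nil))))) (.g (nat_lit 0) (.e (nat_lit 94515) (nat_lit 0) .nil) .nil)))) (.nd (nat_lit 9) 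
(.lf (nat_lit 473463) (.g (nat_lit 1637) (.e (nat_lit 3578) (nat_lit 223) (.e (nat_lit 745491) (nat_lit 4) (.e (nat_lit 65616) (nat_lit 10) (.e (nat_lit 344138) (nat_lit 29) (.e (nat_lit 581653) (nat_lit 6) (.e (nat_lit 188439) (nat_lit 20) .nil)))))) (.g (nat_lit 1) (.e (nat_lit 92915) (nat_lit 0) .nil) .nil))) 
(.lf (nat_lit 473975) (.g (nat_lit 2161) (.e (nat_lit 1223) (nat_lit 90) (.e (nat_lit 81959) (nat_lit 24) (.e (nat_lit 123025) (nat_lit 127) (.e (nat_lit 229415) (nat_lit 15) (.e (nat_lit 450563) (nat_lit 0) .nil))))) (.g (nat_lit 0) (.e (nat_lit 95125) (nat_lit 0) .nil) .nil))))) (.nd (nat_lit 8) (.nd (nat_lit 9) 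
(.lf (nat_lit 473335) (.g (nat_lit 3154) (.e (nat_lit 3471) (nat_lit 217) (.e (nat_lit 696344) (nat_lit 8) (.e (nat_lit 172082) (nat_lit 7) (.e (nat_lit 409646) (nat_lit 18) (.e (nat_lit 303140) (nat_lit 10) (.e (nat_lit 434275) (nat_lit 39) (.e (nat_lit 663579) (nat_lit 9) (.e (nat_lit 2427) (nat_lit 157) .nil)))))))) (.g (nat_lit 1) (.e (nat_lit 92571) (nat_lit 0) .nil) .nil))) 
(.lf (nat_lit 473847) (.g (nat_lit 2425) (.e (nat_lit 1198) (nat_lit 88) (.e (nat_lit 65630) (nat_lit 14) (.e (nat_lit 401428) (nat_lit 3) (.e (nat_lit 204869) (nat_lit 29) (.e (nat_lit 360448) (nat_lit 0) .nil))))) (.g (nat_lit 0) (.e (nat_lit 94826) (nat_lit 0) .nil) .nil)))) (.nd (nat_lit 9) 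
(.lf (nat_lit 473591) (.g (nat_lit 2537) (.e (nat_lit 1125) (nat_lit 83) (.e (nat_lit 16466) (nat_lit 13) (.e (nat_lit 483413) (nat_lit 27) (.e (nat_lit 401448) (nat_lit 10) .nil)))) (.g (nat_lit 0) (.e (nat_lit 93766) (nat_lit 0) .nil) .nil))) 
(.lf (nat_lit 474103) (.g (nat_lit 3237) (.e (nat_lit 1235) (nat_lit 91) (.e (nat_lit 90170) (nat_lit 13) (.e (nat_lit 172106) (nat_lit 10) (.e (nat_lit 434244) (nat_lit 28) (.e (nat_lit 573458) (nat_lit 9) (.e (nat_lit 426) (nat_lit 32) (.e (nat_lit 426030) (nat_lit 0) (.e (nat_lit 7562) (nat_lit 402) .nil)))))))) (.g (nat_lit 1) (.e (nat_lit 95272) (nat_lit 0) .nil) .nil))))))))) 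
(.nd (nat_lit 4) (.nd (nat_lit 5) (.nd (nat_lit 6) (.nd (nat_lit 7) (.nd (nat_lit 8) 
(.nd (nat_lit 9) 
(.lf (nat_lit 473103) (.g (nat_lit 1990) (.e (nat_lit 3469) (nat_lit 217) (.e (nat_lit 696344) (nat_lit 8) (.e (nat_lit 172115) (nat_lit 10) (.e (nat_lit 434202) (nat_lit 18) (.e (nat_lit 6420) (nat_lit 341) (.e (nat_lit 163920) (nat_lit 14) (.e (nat_lit 442411) (nat_lit 20) .nil))))))) (.g (nat_lit 1) (.e (nat_lit 92235) (nat_lit 0) .nil) .nil))) 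
(.lf (nat_lit 473615) (.g (nat_lit 1694) (.e (nat_lit 1131) (nat_lit 83) (.e (nat_lit 16416) (nat_lit 3) (.e (nat_lit 204861) (nat_lit 26) (.e (nat_lit 336186) (nat_lit 11) .nil)))) (.g (nat_lit 0) (.e (nat_lit 93804) (nat_lit 0) .nil) .nil)))) (.nd (nat_lit 9) 
(.lf (nat_lit 473359) (.g (nat_lit 3491) (.e (nat_lit 3497) (nat_lit 218) (.e (nat_lit 704738) (nat_lit 11) (.e (nat_lit 16425) (nat_lit 7) (.e (nat_lit 409648) (nat_lit 18) (.e (nat_lit 303137) (nat_lit 10) .nil))))) (.g (nat_lit 0) (.e (nat_lit 92633) (nat_lit 0) .nil) .nil))) 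
(.lf (nat_lit 473871) (.g (nat_lit 1831) (.e (nat_lit 1201) (nat_lit 88) (.e (nat_lit 65566) (nat_lit 2) (.e (nat_lit 90170) (nat_lit 13) (.e (nat_lit 172113) (nat_lit 10) (.e (nat_lit 434247) (nat_lit 28) .nil))))) (.g (nat_lit 0) (.e (nat_lit 94871) (nat_lit 0) .nil) .nil))))) (.nd (nat_lit 8) (.nd (nat_lit 9) 
(.lf (nat_lit 473231) (.g (nat_lit 2247) (.e (nat_lit 3471) (nat_lit 217) (.e (nat_lit 696344) (nat_lit 8) (.e (nat_lit 172067) (nat_lit 3) (.e (nat_lit 204866) (nat_lit 28) .nil)))) (.g (nat_lit 0) (.e (nat_lit 92466) (nat_lit 0) .nil) .nil))) 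
(.lf (nat_lit 473743) (.g (nat_lit 2248) (.e (nat_lit 1183) (nat_lit 87) (.e (nat_lit 57479) (nat_lit 28) (.e (nat_lit 557105) (nat_lit 14) (.e (nat_lit 180251) (nat_lit 10) (.e (nat_lit 573485) (nat_lit 13) .nil))))) (.g (nat_lit 0) (.e (nat_lit 94539) (nat_lit 0) .nil) .nil)))) (.nd (nat_lit 9) 
(.lf (nat_lit 473487) (.g (nat_lit 1156) (.e (nat_lit 969) (nat_lit 81) (.e (nat_lit 5570) (nat_lit 308) (.e (nat_lit 57375) (nat_lit 2) (.e (nat_lit 90172) (nat_lit 14) (.e (nat_lit 188160) (nat_lit 0) .nil))))) (.g (nat_lit 0) (.e (nat_lit 92990) (nat_lit 0) .nil) .nil))) 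
(.lf (nat_lit 473999) (.g (nat_lit 2153) (.e (nat_lit 1226) (nat_lit 91) (.e (nat_lit 90174) (nat_lit 14) (.e (nat_lit 180250) (nat_lit 10) (.e (nat_lit 573487) (nat_lit 14) (.e (nat_lit 73753) (nat_lit 8) .nil))))) (.g (nat_lit 0) (.e (nat_lit 95153) (nat_lit 0) .nil) .nil)))))) (.nd (nat_lit 7) (.nd (nat_lit 8) (.nd (nat_lit 9) 
(.lf (nat_lit 473167) (.g (nat_lit 1927) (.e (nat_lit 3471) (nat_lit 217) (.e (nat_lit 696343) (nat_lit 8) (.e (nat_lit 172082) (nat_lit 7) (.e (nat_lit 409646) (nat_lit 18) (.e (nat_lit 303133) (nat_lit 9) (.e (nat_lit 426043) (nat_lit 0) (.e (nat_lit 2428) (nat_lit 157) (.e (nat_lit 5965) (nat_lit 324) (.e (nat_lit 163844) (nat_lit 0) .nil))))))))) (.g (nat_lit 1) (.e (nat_lit 92402) (nat_lit 0) .nil) .nil))) 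
(.lf (nat_lit 473679) (.g (nat_lit 2418) (.e (nat_lit 1177) (nat_lit 87) (.e (nat_lit 57478) (nat_lit 28) (.e (nat_lit 557105) (nat_lit 14) (.e (nat_lit 180252) (nat_lit 10) (.e (nat_lit 573488) (nat_lit 14) .nil))))) (.g (nat_lit 0) (.e (nat_lit 94186) (nat_lit 0) .nil) .nil)))) (.nd (nat_lit 9) 
(.lf (nat_lit 473423) (.g (nat_lit 3571) (.e (nat_lit 3547) (nat_lit 219) (.e (nat_lit 712753) (nat_lit 30) (.e (nat_lit 450587) (nat_lit 10) (.e (nat_lit 573475) (nat_lit 12) (.e (nat_lit 57503) (nat_lit 38) .nil))))) (.g (nat_lit 0) (.e (nat_lit 92801) (nat_lit 0) .nil) .nil))) 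
(.lf (nat_lit 473935) (.g (nat_lit 2460) (.e (nat_lit 1211) (nat_lit 89) (.e (nat_lit 73781) (nat_lit 32) (.e (nat_lit 3090) (nat_lit 191) (.e (nat_lit 483378) (nat_lit 23) (.e (nat_lit 335997) (nat_lit 1) (.e (nat_lit 57872) (nat_lit 264) .nil)))))) (.g (nat_lit 1) (.e (nat_lit 95057) (nat_lit 0) .nil) .nil))))) (.nd (nat_lit 8) (.nd (nat_lit 9) 
(.lf (nat_lit 473295) (.g (nat_lit 3175) (.e (nat_lit 3471) (nat_lit 217) (.e (nat_lit 696344) (nat_lit 8) (.e (nat_lit 172082) (nat_lit 7) (.e (nat_lit 409646) (nat_lit 18) (.e (nat_lit 303133) (nat_lit 9) (.e (nat_lit 426042) (nat_lit 0) (.e (nat_lit 2427) (nat_lit 157) (.e (nat_lit 5965) (nat_lit 324) (.e (nat_lit 163844) (nat_lit 0) .nil))))))))) (.g (nat_lit 1) (.e (nat_lit 92531) (nat_lit 0) .nil) .nil))) 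
(.lf (nat_lit 473807) (.g (nat_lit 5115) (.e (nat_lit 1183) (nat_lit 87) (.e (nat_lit 57575) (nat_lit 55) (.e (nat_lit 778466) (nat_lit 11) (.e (nat_lit 24617) (nat_lit 7) (.e (nat_lit 319534) (nat_lit 16) (.e (nat_lit 286756) (nat_lit 10) (.e (nat_lit 344090) (nat_lit 18) (.e (nat_lit 5441) (nat_lit 306) .nil)))))))) (.g (nat_lit 1) (.e (nat_lit 94642) (nat_lit 0) .nil) .nil)))) (.nd (nat_lit 9) 
(.lf (nat_lit 473551) (.g (nat_lit 2263) (.e (nat_lit 1068) (nat_lit 81) (.e (nat_lit 1428) (nat_lit 108) (.e (nat_lit 336456) (nat_lit 34) (.e (nat_lit 483383) (nat_lit 23) (.e (nat_lit 336019) (nat_lit 3) .nil))))) (.g (nat_lit 0) (.e (nat_lit 93419) (nat_lit 0) .nil) .nil))) 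
(.lf (nat_lit 474063) (.g (nat_lit 4102) (.e (nat_lit 1234) (nat_lit 91) (.e (nat_lit 90170) (nat_lit 13) (.e (nat_lit 172113) (nat_lit 10) (.e (nat_lit 434245) (nat_lit 28) (.e (nat_lit 573450) (nat_lit 9) (.e (nat_lit 442) (nat_lit 33) (.e (nat_lit 434180) (nat_lit 0) .nil))))))) (.g (nat_lit 1) (.e (nat_lit 95230) (nat_lit 0) .nil) .nil))))))) 
(.nd (nat_lit 6) (.nd (nat_lit 7) (.nd (nat_lit 8) (.nd (nat_lit 9) 
(.lf (nat_lit 473135) (.g (nat_lit 1904) (.e (nat_lit 3471) (nat_lit 217) (.e (nat_lit 696343) (nat_lit 8) (.e (nat_lit 172079) (nat_lit 7) (.e (nat_lit 409645) (nat_lit 18) (.e (nat_lit 303133) (nat_lit 9) (.e (nat_lit 426042) (nat_lit 0) (.e (nat_lit 2447) (nat_lit 157) (.e (nat_lit 5968) (nat_lit 324) (.e (nat_lit 163844) (nat_lit 0) .nil))))))))) (.g (nat_lit 1) (.e (nat_lit 92370) (nat_lit 0) .nil) .nil))) 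
(.lf (nat_lit 473647) (.g (nat_lit 913) (.e (nat_lit 1163) (nat_lit 86) (.e (nat_lit 49156) (nat_lit 0) (.e (nat_lit 3012) (nat_lit 187) (.e (nat_lit 450584) (nat_lit 9) (.e (nat_lit 565268) (nat_lit 5) (.e (nat_lit 73791) (nat_lit 45) .nil)))))) (.g (nat_lit 1) (.e (nat_lit 93951) (nat_lit 0) .nil) .nil)))) (.nd (nat_lit 9) 
(.lf (nat_lit 473391) (.g (nat_lit 1151) (.e (nat_lit 7936) (nat_lit 218) (.e (nat_lit 704590) (nat_lit 3) (.e (nat_lit 163962) (nat_lit 25) (.e (nat_lit 532544) (nat_lit 10) .nil)))) (.g (nat_lit 0) (.e (nat_lit 92759) (nat_lit 0) .nil) .nil))) 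
(.lf (nat_lit 473903) (.g (nat_lit 2636) (.e (nat_lit 1209) (nat_lit 89) (.e (nat_lit 73781) (nat_lit 32) (.e (nat_lit 3090) (nat_lit 191) (.e (nat_lit 483396) (nat_lit 24) (.e (nat_lit 344097) (nat_lit 18) (.e (nat_lit 5906) (nat_lit 320) .nil)))))) (.g (nat_lit 1) (.e (nat_lit 95019) (nat_lit 0) .nil) .nil))))) (.nd (nat_lit 8) (.nd (nat_lit 9) 
(.lf (nat_lit 473263) (.g (nat_lit 2280) (.e (nat_lit 3471) (nat_lit 217) (.e (nat_lit 696344) (nat_lit 8) (.e (nat_lit 172079) (nat_lit 7) (.e (nat_lit 409645) (nat_lit 18) (.e (nat_lit 303133) (nat_lit 9) (.e (nat_lit 426043) (nat_lit 0) (.e (nat_lit 2422) (nat_lit 157) (.e (nat_lit 5965) (nat_lit 324) (.e (nat_lit 163844) (nat_lit 0) .nil))))))))) (.g (nat_lit 1) (.e (nat_lit 92499) (nat_lit 0) .nil) .nil))) 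
(.lf (nat_lit 473775) (.g (nat_lit 3723) (.e (nat_lit 1183) (nat_lit 87) (.e (nat_lit 57480) (nat_lit 28) (.e (nat_lit 557109) (nat_lit 15) (.e (nat_lit 188450) (nat_lit 23) (.e (nat_lit 204861) (nat_lit 26) .nil))))) (.g (nat_lit 0) (.e (nat_lit 94571) (nat_lit 0) .nil) .nil)))) (.nd (nat_lit 9) 
(.lf (nat_lit 473519) (.g (nat_lit 3731) (.e (nat_lit 1019) (nat_lit 81) (.e (nat_lit 1234) (nat_lit 91) (.e (nat_lit 90170) (nat_lit 13) (.e (nat_lit 172106) (nat_lit 10) (.e (nat_lit 434231) (nat_lit 23) (.e (nat_lit 532535) (nat_lit 9) (.e (nat_lit 336295) (nat_lit 15) (.e (nat_lit 2444) (nat_lit 157) (.e (nat_lit 6882) (nat_lit 371) .nil))))))))) (.g (nat_lit 1) (.e (nat_lit 93288) (nat_lit 0) .nil) .nil))) 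
(.lf (nat_lit 474031) (.g (nat_lit 2263) (.e (nat_lit 1232) (nat_lit 91) (.e (nat_lit 90170) (nat_lit 13) (.e (nat_lit 172113) (nat_lit 10) (.e (nat_lit 434248) (nat_lit 28) (.e (nat_lit 573449) (nat_lit 9) .nil))))) (.g (nat_lit 0) (.e (nat_lit 95192) (nat_lit 0) .nil) .nil)))))) (.nd (nat_lit 7) (.nd (nat_lit 8) (.nd (nat_lit 9) 
(.lf (nat_lit 473199) (.g (nat_lit 3325) (.e (nat_lit 3471) (nat_lit 217) (.e (nat_lit 696343) (nat_lit 8) (.e (nat_lit 172082) (nat_lit 7) (.e (nat_lit 409649) (nat_lit 18) (.e (nat_lit 303140) (nat_lit 10) (.e (nat_lit 434275) (nat_lit 39) (.e (nat_lit 663580) (nat_lit 9) (.e (nat_lit 7936) (nat_lit 157) .nil)))))))) (.g (nat_lit 1) (.e (nat_lit 92434) (nat_lit 0) .nil) .nil))) 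
(.lf (nat_lit 473711) (.g (nat_lit 2508) (.e (nat_lit 1181) (nat_lit 87) (.e (nat_lit 57480) (nat_lit 28) (.e (nat_lit 557109) (nat_lit 15) (.e (nat_lit 188452) (nat_lit 23) (.e (nat_lit 204864) (nat_lit 27) .nil))))) (.g (nat_lit 0) (.e (nat_lit 94307) (nat_lit 0) .nil) .nil)))) (.nd (nat_lit 9) 
(.lf (nat_lit 473455) (.g (nat_lit 478) (.e (nat_lit 3578) (nat_lit 223) (.e (nat_lit 745475) (nat_lit 0) (.e (nat_lit 1572) (nat_lit 110) (.e (nat_lit 360192) (nat_lit 2) .nil)))) (.g (nat_lit 0) (.e (nat_lit 92907) (nat_lit 0) .nil) .nil))) 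
(.lf (nat_lit 473967) (.g (nat_lit 1156) (.e (nat_lit 7936) (nat_lit 89) (.e (nat_lit 73746) (nat_lit 3) (.e (nat_lit 516117) (nat_lit 1) (.e (nat_lit 164226) (nat_lit 181) (.e (nat_lit 2513) (nat_lit 157) .nil))))) (.g (nat_lit 0) (.e (nat_lit 95094) (nat_lit 0) .nil) .nil))))) (.nd (nat_lit 8) (.nd (nat_lit 9) 
(.lf (nat_lit 473327) (.g (nat_lit 3794) (.e (nat_lit 3471) (nat_lit 217) (.e (nat_lit 696344) (nat_lit 8) (.e (nat_lit 172082) (nat_lit 7) (.e (nat_lit 409646) (nat_lit 18) (.e (nat_lit 303140) (nat_lit 10) (.e (nat_lit 434200) (nat_lit 18) (.e (nat_lit 5965) (nat_lit 324) (.e (nat_lit 163844) (nat_lit 0) .nil)))))))) (.g (nat_lit 1) (.e (nat_lit 92563) (nat_lit 0) .nil) .nil))) 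
(.lf (nat_lit 473839) (.g (nat_lit 1801) (.e (nat_lit 1192) (nat_lit 88) (.e (nat_lit 65630) (nat_lit 14) (.e (nat_lit 401437) (nat_lit 9) (.e (nat_lit 426542) (nat_lit 29) .nil)))) (.g (nat_lit 0) (.e (nat_lit 94809) (nat_lit 0) .nil) .nil)))) (.nd (nat_lit 9) 
(.lf (nat_lit 473583) (.g (nat_lit 1714) (.e (nat_lit 1123) (nat_lit 83) (.e (nat_lit 16448) (nat_lit 10) (.e (nat_lit 434268) (nat_lit 36) (.e (nat_lit 639020) (nat_lit 16) (.e (nat_lit 65611) (nat_lit 10) .nil))))) (.g (nat_lit 0) (.e (nat_lit 93756) (nat_lit 0) .nil) .nil))) 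
(.lf (nat_lit 474095) (.g (nat_lit 2988) (.e (nat_lit 1235) (nat_lit 91) (.e (nat_lit 90170) (nat_lit 13) (.e (nat_lit 172106) (nat_lit 10) (.e (nat_lit 434231) (nat_lit 23) (.e (nat_lit 532525) (nat_lit 8) .nil))))) (.g (nat_lit 0) (.e (nat_lit 95264) (nat_lit 0) .nil) .nil)))))))) (.nd (nat_lit 5) (.nd (nat_lit 6) (.nd (nat_lit 7) (.nd (nat_lit 8) (.nd (nat_lit 9) 
(.lf (nat_lit 473119) (.g (nat_lit 3015) (.e (nat_lit 3469) (nat_lit 217) (.e (nat_lit 696344) (nat_lit 8) (.e (nat_lit 172121) (nat_lit 13) (.e (nat_lit 483413) (nat_lit 27) (.e (nat_lit 401439) (nat_lit 9) (.e (nat_lit 426043) (nat_lit 0) .nil)))))) (.g (nat_lit 1) (.e (nat_lit 92251) (nat_lit 0) .nil) .nil))) 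
(.lf (nat_lit 473631) (.g (nat_lit 937) (.e (nat_lit 1160) (nat_lit 86) (.e (nat_lit 49157) (nat_lit 0) (.e (nat_lit 3012) (nat_lit 187) (.e (nat_lit 450584) (nat_lit 9) (.e (nat_lit 565268) (nat_lit 5) (.e (nat_lit 73791) (nat_lit 45) .nil)))))) (.g (nat_lit 1) (.e (nat_lit 93897) (nat_lit 0) .nil) .nil)))) (.nd (nat_lit 9) 
(.lf (nat_lit 473375) (.g (nat_lit 4192) (.e (nat_lit 3522) (nat_lit 218) (.e (nat_lit 704738) (nat_lit 11) (.e (nat_lit 16425) (nat_lit 7) (.e (nat_lit 409649) (nat_lit 18) (.e (nat_lit 303140) (nat_lit 10) (.e (nat_lit 434275) (nat_lit 39) (.e (nat_lit 663580) (nat_lit 9) (.e (nat_lit 7936) (nat_lit 157) .nil)))))))) (.g (nat_lit 1) (.e (nat_lit 92654) (nat_lit 0) .nil) .nil))) 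
(.lf (nat_lit 473887) (.g (nat_lit 2611) (.e (nat_lit 1208) (nat_lit 89) (.e (nat_lit 73755) (nat_lit 8) (.e (nat_lit 557119) (nat_lit 18) (.e (nat_lit 2798) (nat_lit 180) (.e (nat_lit 303145) (nat_lit 13) .nil))))) (.g (nat_lit 0) (.e (nat_lit 94988) (nat_lit 0) .nil) .nil))))) (.nd (nat_lit 8) (.nd (nat_lit 9) 
(.lf (nat_lit 473247) (.g (nat_lit 2131) (.e (nat_lit 3471) (nat_lit 217) (.e (nat_lit 696344) (nat_lit 8) (.e (nat_lit 172079) (nat_lit 7) (.e (nat_lit 409645) (nat_lit 18) (.e (nat_lit 303133) (nat_lit 9) (.e (nat_lit 426042) (nat_lit 0) (.e (nat_lit 2428) (nat_lit 157) (.e (nat_lit 5968) (nat_lit 324) (.e (nat_lit 163844) (nat_lit 0) .nil))))))))) (.g (nat_lit 1) (.e (nat_lit 92483) (nat_lit 0) .nil) .nil))) 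
(.lf (nat_lit 473759) (.g (nat_lit 2808) (.e (nat_lit 1183) (nat_lit 87) (.e (nat_lit 57480) (nat_lit 28) (.e (nat_lit 557107) (nat_lit 15) (.e (nat_lit 188447) (nat_lit 22) (.e (nat_lit 196663) (nat_lit 13) .nil))))) (.g (nat_lit 0) (.e (nat_lit 94555) (nat_lit 0) .nil) .nil)))) (.nd (nat_lit 9) 
(.lf (nat_lit 473503) (.g (nat_lit 3956) (.e (nat_lit 986) (nat_lit 81) (.e (nat_lit 2347) (nat_lit 151) (.e (nat_lit 778466) (nat_lit 11) (.e (nat_lit 24617) (nat_lit 7) (.e (nat_lit 319534) (nat_lit 16) (.e (nat_lit 286756) (nat_lit 10) (.e (nat_lit 344160) (nat_lit 37) (.e (nat_lit 647190) (nat_lit 9) .nil)))))))) (.g (nat_lit 1) (.e (nat_lit 93131) (nat_lit 0) .nil) .nil))) 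
(.lf (nat_lit 474015) (.g (nat_lit 2406) (.e (nat_lit 1232) (nat_lit 91) (.e (nat_lit 90170) (nat_lit 13) (.e (nat_lit 172106) (nat_lit 10) (.e (nat_lit 434231) (nat_lit 23) (.e (nat_lit 532482) (nat_lit 0) .nil))))) (.g (nat_lit 0) (.e (nat_lit 95176) (nat_lit 0) .nil) .nil)))))) (.nd (nat_lit 7) (.nd (nat_lit 8) (.nd (nat_lit 9) 
(.lf (nat_lit 473183) (.g (nat_lit 3765) (.e (nat_lit 3471) (nat_lit 217) (.e (nat_lit 696343) (nat_lit 8) (.e (nat_lit 172082) (nat_lit 7) (.e (nat_lit 409646) (nat_lit 18) (.e (nat_lit 303140) (nat_lit 10) (.e (nat_lit 434200) (nat_lit 18) (.e (nat_lit 5966) (nat_lit 324) (.e (nat_lit 163844) (nat_lit 0) .nil)))))))) (.g (nat_lit 1) (.e (nat_lit 92418) (nat_lit 0) .nil) .nil))) 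
(.lf (nat_lit 473695) (.g (nat_lit 2231) (.e (nat_lit 1180) (nat_lit 87) (.e (nat_lit 57931) (nat_lit 282) (.e (nat_lit 163874) (nat_lit 3) (.e (nat_lit 204864) (nat_lit 27) .nil)))) (.g (nat_lit 0) (.e (nat_lit 94277) (nat_lit 0) .nil) .nil)))) (.nd (nat_lit 9) 
(.lf (nat_lit 473439) (.g (nat_lit 488) (.e (nat_lit 3571) (nat_lit 222) (.e (nat_lit 737283) (nat_lit 0) (.e (nat_lit 5409) (nat_lit 303) (.e (nat_lit 73750) (nat_lit 6) (.e (nat_lit 540724) (nat_lit 28) (.e (nat_lit 442398) (nat_lit 20) .nil)))))) (.g (nat_lit 1) (.e (nat_lit 92853) (nat_lit 0) .nil) .nil))) 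
(.lf (nat_lit 473951) (.g (nat_lit 2366) (.e (nat_lit 1212) (nat_lit 89) (.e (nat_lit 73747) (nat_lit 3) (.e (nat_lit 516165) (nat_lit 12) (.e (nat_lit 450586) (nat_lit 10) (.e (nat_lit 573473) (nat_lit 12) .nil))))) (.g (nat_lit 0) (.e (nat_lit 95074) (nat_lit 0) .nil) .nil))))) (.nd (nat_lit 8) (.nd (nat_lit 9) 
(.lf (nat_lit 473311) (.g (nat_lit 1937) (.e (nat_lit 3471) (nat_lit 217) (.e (nat_lit 696344) (nat_lit 8) (.e (nat_lit 172082) (nat_lit 7) (.e (nat_lit 409646) (nat_lit 18) (.e (nat_lit 303133) (nat_lit 9) (.e (nat_lit 426043) (nat_lit 0) (.e (nat_lit 2429) (nat_lit 157) (.e (nat_lit 5965) (nat_lit 324) (.e (nat_lit 163844) (nat_lit 0) .nil))))))))) (.g (nat_lit 1) (.e (nat_lit 92547) (nat_lit 0) .nil) .nil))) 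
(.lf (nat_lit 473823) (.g (nat_lit 854) (.e (nat_lit 1189) (nat_lit 88) (.e (nat_lit 65630) (nat_lit 14) (.e (nat_lit 401435) (nat_lit 9) .nil))) (.g (nat_lit 0) (.e (nat_lit 94782) (nat_lit 0) .nil) .nil)))) (.nd (nat_lit 9) 
(.lf (nat_lit 473567) (.g (nat_lit 1892) (.e (nat_lit 1086) (nat_lit 81) (.e (nat_lit 1855) (nat_lit 124) (.e (nat_lit 557101) (nat_lit 13) (.e (nat_lit 172097) (nat_lit 9) (.e (nat_lit 426140) (nat_lit 3) .nil))))) (.g (nat_lit 0) (.e (nat_lit 93484) (nat_lit 0) .nil) .nil))) 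
(.lf (nat_lit 474079) (.g (nat_lit 2441) (.e (nat_lit 1234) (nat_lit 91) (.e (nat_lit 90172) (nat_lit 14) (.e (nat_lit 180250) (nat_lit 10) (.e (nat_lit 573487) (nat_lit 14) (.e (nat_lit 73753) (nat_lit 8) .nil))))) (.g (nat_lit 0) (.e (nat_lit 95246) (nat_lit 0) .nil) .nil))))))) (.nd (nat_lit 6) (.nd (nat_lit 7) (.nd (nat_lit 8) (.nd (nat_lit 9) 
(.lf (nat_lit 473151) (.g (nat_lit 3597) (.e (nat_lit 3471) (nat_lit 217) (.e (nat_lit 696343) (nat_lit 8) (.e (nat_lit 172079) (nat_lit 7) (.e (nat_lit 409649) (nat_lit 18) (.e (nat_lit 303140) (nat_lit 10) (.e (nat_lit 434275) (nat_lit 39) (.e (nat_lit 663580) (nat_lit 9) (.e (nat_lit 2416) (nat_lit 157) .nil)))))))) (.g (nat_lit 1) (.e (nat_lit 92386) (nat_lit 0) .nil) .nil))) 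
(.lf (nat_lit 473663) (.g (nat_lit 2200) (.e (nat_lit 1169) (nat_lit 87) (.e (nat_lit 57575) (nat_lit 55) (.e (nat_lit 778466) (nat_lit 11) (.e (nat_lit 24617) (nat_lit 7) .nil)))) (.g (nat_lit 0) (.e (nat_lit 94015) (nat_lit 0) .nil) .nil)))) (.nd (nat_lit 9) 
(.lf (nat_lit 473407) (.g (nat_lit 1817) (.e (nat_lit 3544) (nat_lit 219) (.e (nat_lit 712753) (nat_lit 30) (.e (nat_lit 450586) (nat_lit 10) (.e (nat_lit 573473) (nat_lit 12) (.e (nat_lit 57509) (nat_lit 39) .nil))))) (.g (nat_lit 0) (.e (nat_lit 92783) (nat_lit 0) .nil) .nil))) 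
(.lf (nat_lit 473919) (.g (nat_lit 1755) (.e (nat_lit 1210) (nat_lit 89) (.e (nat_lit 73781) (nat_lit 32) (.e (nat_lit 3088) (nat_lit 191) (.e (nat_lit 483383) (nat_lit 23) (.e (nat_lit 336000) (nat_lit 1) .nil))))) (.g (nat_lit 0) (.e (nat_lit 95036) (nat_lit 0) .nil) .nil))))) (.nd (nat_lit 8) (.nd (nat_lit 9) 
(.lf (nat_lit 473279) (.g (nat_lit 2845) (.e (nat_lit 3471) (nat_lit 217) (.e (nat_lit 696344) (nat_lit 8) (.e (nat_lit 172079) (nat_lit 7) (.e (nat_lit 409645) (nat_lit 18) (.e (nat_lit 303139) (nat_lit 10) (.e (nat_lit 434203) (nat_lit 18) (.e (nat_lit 5964) (nat_lit 324) (.e (nat_lit 163844) (nat_lit 0) .nil)))))))) (.g (nat_lit 1) (.e (nat_lit 92515) (nat_lit 0) .nil) .nil))) 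
(.lf (nat_lit 473791) (.g (nat_lit 2473) (.e (nat_lit 1183) (nat_lit 87) (.e (nat_lit 57575) (nat_lit 55) (.e (nat_lit 778466) (nat_lit 11) (.e (nat_lit 24617) (nat_lit 7) (.e (nat_lit 319533) (nat_lit 16) (.e (nat_lit 286754) (nat_lit 10) (.e (nat_lit 344091) (nat_lit 18) (.e (nat_lit 5429) (nat_lit 306) .nil)))))))) (.g (nat_lit 1) (.e (nat_lit 94625) (nat_lit 0) .nil) .nil)))) (.nd (nat_lit 9) 
(.lf (nat_lit 473535) (.g (nat_lit 2847) (.e (nat_lit 1047) (nat_lit 81) (.e (nat_lit 2346) (nat_lit 151) (.e (nat_lit 778466) (nat_lit 11) (.e (nat_lit 24617) (nat_lit 7) (.e (nat_lit 319533) (nat_lit 16) (.e (nat_lit 286753) (nat_lit 10) (.e (nat_lit 344160) (nat_lit 37) (.e (nat_lit 647190) (nat_lit 9) .nil)))))))) (.g (nat_lit 1) (.e (nat_lit 93353) (nat_lit 0) .nil) .nil))) 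
(.lf (nat_lit 474047) (.g (nat_lit 4949) (.e (nat_lit 1234) (nat_lit 91) (.e (nat_lit 90170) (nat_lit 13) (.e (nat_lit 172106) (nat_lit 10) (.e (nat_lit 434231) (nat_lit 23) (.e (nat_lit 532535) (nat_lit 9) (.e (nat_lit 336295) (nat_lit 15) (.e (nat_lit 2443) (nat_lit 157) (.e (nat_lit 6921) (nat_lit 371) (.e (nat_lit 1041) (nat_lit 81) .nil))))))))) (.g (nat_lit 1) (.e (nat_lit 95214) (nat_lit 0) .nil) .nil)))))) 
(.nd (nat_lit 7) (.nd (nat_lit 8) (.nd (nat_lit 9) 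
(.lf (nat_lit 473215) (.g (nat_lit 1395) (.e (nat_lit 3471) (nat_lit 217) (.e (nat_lit 696343) (nat_lit 8) (.e (nat_lit 172113) (nat_lit 10) (.e (nat_lit 434288) (nat_lit 43) .nil)))) (.g (nat_lit 0) (.e (nat_lit 92450) (nat_lit 0) .nil) .nil))) 
(.lf (nat_lit 473727) (.g (nat_lit 3607) (.e (nat_lit 1183) (nat_lit 87) (.e (nat_lit 57478) (nat_lit 28) (.e (nat_lit 557109) (nat_lit 15) (.e (nat_lit 188450) (nat_lit 23) (.e (nat_lit 204852) (nat_lit 26) .nil))))) (.g (nat_lit 0) (.e (nat_lit 94523) (nat_lit 0) .nil) .nil)))) (.nd (nat_lit 9) 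
(.lf (nat_lit 473471) (.g (nat_lit 2541) (.e (nat_lit 3579) (nat_lit 223) (.e (nat_lit 745491) (nat_lit 4) (.e (nat_lit 65610) (nat_lit 10) (.e (nat_lit 344138) (nat_lit 29) (.e (nat_lit 581653) (nat_lit 6) (.e (nat_lit 188438) (nat_lit 20) .nil)))))) (.g (nat_lit 1) (.e (nat_lit 92930) (nat_lit 0) .nil) .nil))) 
(.lf (nat_lit 473983) (.g (nat_lit 2210) (.e (nat_lit 1225) (nat_lit 91) (.e (nat_lit 90170) (nat_lit 13) (.e (nat_lit 172106) (nat_lit 10) (.e (nat_lit 434231) (nat_lit 23) (.e (nat_lit 532490) (nat_lit 0) .nil))))) (.g (nat_lit 0) (.e (nat_lit 95136) (nat_lit 0) .nil) .nil))))) (.nd (nat_lit 8) (.nd (nat_lit 9) 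
(.lf (nat_lit 473343) (.g (nat_lit 2368) (.e (nat_lit 3471) (nat_lit 217) (.e (nat_lit 696344) (nat_lit 8) (.e (nat_lit 172082) (nat_lit 7) (.e (nat_lit 409649) (nat_lit 18) (.e (nat_lit 303140) (nat_lit 10) (.e (nat_lit 434275) (nat_lit 39) (.e (nat_lit 663579) (nat_lit 9) (.e (nat_lit 2426) (nat_lit 157) .nil)))))))) (.g (nat_lit 1) (.e (nat_lit 92579) (nat_lit 0) .nil) .nil))) 
(.lf (nat_lit 473855) (.g (nat_lit 2364) (.e (nat_lit 1199) (nat_lit 88) (.e (nat_lit 65630) (nat_lit 14) (.e (nat_lit 401428) (nat_lit 3) (.e (nat_lit 204869) (nat_lit 29) (.e (nat_lit 368384) (nat_lit 0) .nil))))) (.g (nat_lit 0) (.e (nat_lit 94835) (nat_lit 0) .nil) .nil)))) (.nd (nat_lit 9) 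
(.lf (nat_lit 473599) (.g (nat_lit 3393) (.e (nat_lit 1126) (nat_lit 83) (.e (nat_lit 16470) (nat_lit 14) (.e (nat_lit 491571) (nat_lit 13) (.e (nat_lit 393284) (nat_lit 24) .nil)))) (.g (nat_lit 0) (.e (nat_lit 93781) (nat_lit 0) .nil) .nil))) 
(.lf (nat_lit 474111) (.g (nat_lit 2888) (.e (nat_lit 1235) (nat_lit 91) (.e (nat_lit 90170) (nat_lit 13) (.e (nat_lit 172113) (nat_lit 10) (.e (nat_lit 434242) (nat_lit 28) (.e (nat_lit 573450) (nat_lit 9) (.e (nat_lit 442) (nat_lit 33) (.e (nat_lit 434181) (nat_lit 0) .nil))))))) (.g (nat_lit 1) (.e (nat_lit 95280) (nat_lit 0) .nil) .nil)))))))))))))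

noncomputable def tv5523 : DT := (.nd (nat_lit 0) (.nd (nat_lit 1) (.nd (nat_lit 2) (.nd (nat_lit 3) (.nd (nat_lit 4) (.nd (nat_lit 5) (.nd (nat_lit 6) (.nd (nat_lit 7) (.nd (nat_lit 8) (.nd (nat_lit 9) 
(.lf (nat_lit 474112) (.g (nat_lit 1603) (.e (nat_lit 1235) (nat_lit 91) (.e (nat_lit 90170) (nat_lit 13) (.e (nat_lit 172113) (nat_lit 10) (.e (nat_lit 434245) (nat_lit 28) (.e (nat_lit 573448) (nat_lit 9) .nil))))) (.g (nat_lit 0) (.e (nat_lit 95281) (nat_lit 0) .nil) .nil))) 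
(.lf (nat_lit 474624) (.g (nat_lit 1096) (.e (nat_lit 1255) (nat_lit 92) (.e (nat_lit 98365) (nat_lit 26) (.e (nat_lit 426325) (nat_lit 13) (.e (nat_lit 491264) (nat_lit 10) .nil)))) (.g (nat_lit 0) (.e (nat_lit 95877) (nat_lit 0) .nil) .nil)))) (.nd (nat_lit 9) 
(.lf (nat_lit 474368) (.g (nat_lit 3099) (.e (nat_lit 1250) (nat_lit 92) (.e (nat_lit 98349) (nat_lit 24) (.e (nat_lit 409646) (nat_lit 18) (.e (nat_lit 303117) (nat_lit 2) (.e (nat_lit 196668) (nat_lit 14) .nil))))) (.g (nat_lit 0) (.e (nat_lit 95559) (nat_lit 0) .nil) .nil))) 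
(.lf (nat_lit 474880) (.g (nat_lit 3638) (.e (nat_lit 1385) (nat_lit 105) (.e (nat_lit 311341) (nat_lit 13) (.e (nat_lit 483413) (nat_lit 27) (.e (nat_lit 401447) (nat_lit 10) (.e (nat_lit 434289) (nat_lit 43) (.e (nat_lit 704256) (nat_lit 0) .nil)))))) (.g (nat_lit 1) (.e (nat_lit 96662) (nat_lit 0) .nil) .nil))))) (.nd (nat_lit 8) (.nd (nat_lit 9) 
(.lf (nat_lit 474240) (.g (nat_lit 3134) (.e (nat_lit 1239) (nat_lit 91) (.e (nat_lit 90170) (nat_lit 13) (.e (nat_lit 172113) (nat_lit 10) (.e (nat_lit 434245) (nat_lit 28) (.e (nat_lit 573449) (nat_lit 9) (.e (nat_lit 449) (nat_lit 33) (.e (nat_lit 442112) (nat_lit 0) .nil))))))) (.g (nat_lit 1) (.e (nat_lit 95423) (nat_lit 0) .nil) .nil))) 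
(.lf (nat_lit 474752) (.g (nat_lit 1372) (.e (nat_lit 1281) (nat_lit 94) (.e (nat_lit 114711) (nat_lit 21) (.e (nat_lit 57872) (nat_lit 264) (.e (nat_lit 1211) (nat_lit 89) (.e (nat_lit 81664) (nat_lit 35) .nil))))) (.g (nat_lit 0) (.e (nat_lit 96103) (nat_lit 0) .nil) .nil)))) (.nd (nat_lit 9) 
(.lf (nat_lit 474496) (.g (nat_lit 3329) (.e (nat_lit 1252) (nat_lit 92) (.e (nat_lit 98373) (nat_lit 29) (.e (nat_lit 450587) (nat_lit 10) (.e (nat_lit 573448) (nat_lit 9) .nil)))) (.g (nat_lit 0) (.e (nat_lit 95703) (nat_lit 0) .nil) .nil))) 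
(.lf (nat_lit 475008) (.g (nat_lit 3239) (.e (nat_lit 7936) (nat_lit 102) (.e (nat_lit 286759) (nat_lit 12) (.e (nat_lit 385074) (nat_lit 31) (.e (nat_lit 573491) (nat_lit 15) (.e (nat_lit 81960) (nat_lit 25) .nil))))) (.g (nat_lit 0) (.e (nat_lit 97012) (nat_lit 0) .nil) .nil)))))) (.nd (nat_lit 7) (.nd (nat_lit 8) (.nd (nat_lit 9) 
(.lf (nat_lit 474176) (.g (nat_lit 2384) (.e (nat_lit 1239) (nat_lit 91) (.e (nat_lit 90170) (nat_lit 13) (.e (nat_lit 172106) (nat_lit 10) (.e (nat_lit 434231) (nat_lit 23) (.e (nat_lit 532529) (nat_lit 9) (.e (nat_lit 336257) (nat_lit 15) (.e (nat_lit 2425) (nat_lit 157) (.e (nat_lit 6854) (nat_lit 371) (.e (nat_lit 999) (nat_lit 81) .nil))))))))) (.g (nat_lit 1) (.e (nat_lit 95359) (nat_lit 0) .nil) .nil))) 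
(.lf (nat_lit 474688) (.g (nat_lit 2285) (.e (nat_lit 1256) (nat_lit 92) (.e (nat_lit 98367) (nat_lit 27) (.e (nat_lit 434247) (nat_lit 28) (.e (nat_lit 573485) (nat_lit 13) (.e (nat_lit 65570) (nat_lit 3) .nil))))) (.g (nat_lit 0) (.e (nat_lit 95976) (nat_lit 0) .nil) .nil)))) (.nd (nat_lit 9) 
(.lf (nat_lit 474432) (.g (nat_lit 3360) (.e (nat_lit 1250) (nat_lit 92) (.e (nat_lit 98373) (nat_lit 29) (.e (nat_lit 450588) (nat_lit 10) (.e (nat_lit 573455) (nat_lit 9) .nil)))) (.g (nat_lit 0) (.e (nat_lit 95625) (nat_lit 0) .nil) .nil))) 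
(.lf (nat_lit 474944) (.g (nat_lit 2828) (.e (nat_lit 1349) (nat_lit 102) (.e (nat_lit 286735) (nat_lit 3) (.e (nat_lit 98354) (nat_lit 26) (.e (nat_lit 426340) (nat_lit 14) (.e (nat_lit 491537) (nat_lit 2) (.e (nat_lit 90133) (nat_lit 9) (.e (nat_lit 2397) (nat_lit 157) (.e (nat_lit 7064) (nat_lit 377) .nil)))))))) (.g (nat_lit 1) (.e (nat_lit 96840) (nat_lit 0) .nil) .nil))))) 
(.nd (nat_lit 8) (.nd (nat_lit 9) 
(.lf (nat_lit 474304) (.g (nat_lit 3505) (.e (nat_lit 1239) (nat_lit 91) (.e (nat_lit 90170) (nat_lit 13) (.e (nat_lit 172113) (nat_lit 10) (.e (nat_lit 434248) (nat_lit 28) (.e (nat_lit 573452) (nat_lit 9) (.e (nat_lit 365) (nat_lit 31) (.e (nat_lit 417795) (nat_lit 0) (.e (nat_lit 5258) (nat_lit 298) .nil)))))))) (.g (nat_lit 1) (.e (nat_lit 95487) (nat_lit 0) .nil) .nil))) 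
(.lf (nat_lit 474816) (.g (nat_lit 1770) (.e (nat_lit 1374) (nat_lit 104) (.e (nat_lit 303154) (nat_lit 28) (.e (nat_lit 344068) (nat_lit 0) (.e (nat_lit 3090) (nat_lit 191) (.e (nat_lit 483342) (nat_lit 17) (.e (nat_lit 6113) (nat_lit 332) .nil)))))) (.g (nat_lit 1) (.e (nat_lit 96339) (nat_lit 0) .nil) .nil)))) (.nd (nat_lit 9) 
(.lf (nat_lit 474560) (.g (nat_lit 4551) (.e (nat_lit 1253) (nat_lit 92) (.e (nat_lit 98373) (nat_lit 29) (.e (nat_lit 450588) (nat_lit 10) (.e (nat_lit 573470) (nat_lit 11) (.e (nat_lit 16391) (nat_lit 0) .nil))))) (.g (nat_lit 0) (.e (nat_lit 95781) (nat_lit 0) .nil) .nil))) 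
(.lf (nat_lit 475072) (.g (nat_lit 1797) (.e (nat_lit 1416) (nat_lit 108) (.e (nat_lit 336324) (nat_lit 18) (.e (nat_lit 204854) (nat_lit 26) (.e (nat_lit 336211) (nat_lit 13) .nil)))) (.g (nat_lit 0) (.e (nat_lit 97189) (nat_lit 0) .nil) .nil))))))) (.nd (nat_lit 6) (.nd (nat_lit 7) (.nd (nat_lit 8) (.nd (nat_lit 9) 
(.lf (nat_lit 474144) (.g (nat_lit 3125) (.e (nat_lit 1237) (nat_lit 91) (.e (nat_lit 90170) (nat_lit 13) (.e (nat_lit 172106) (nat_lit 10) (.e (nat_lit 434244) (nat_lit 28) (.e (nat_lit 573450) (nat_lit 9) (.e (nat_lit 452) (nat_lit 33) (.e (nat_lit 442112) (nat_lit 0) .nil))))))) (.g (nat_lit 1) (.e (nat_lit 95320) (nat_lit 0) .nil) .nil))) 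
(.lf (nat_lit 474656) (.g (nat_lit 3053) (.e (nat_lit 1256) (nat_lit 92) (.e (nat_lit 98334) (nat_lit 18) (.e (nat_lit 164398) (nat_lit 256) (.e (nat_lit 57372) (nat_lit 2) (.e (nat_lit 90172) (nat_lit 14) .nil))))) (.g (nat_lit 0) (.e (nat_lit 95935) (nat_lit 0) .nil) .nil)))) (.nd (nat_lit 9) 
(.lf (nat_lit 474400) (.g (nat_lit 3501) (.e (nat_lit 1250) (nat_lit 92) (.e (nat_lit 98367) (nat_lit 27) (.e (nat_lit 434244) (nat_lit 28) (.e (nat_lit 573451) (nat_lit 9) (.e (nat_lit 1449) (nat_lit 108) (.e (nat_lit 336013) (nat_lit 2) (.e (nat_lit 90189) (nat_lit 18) (.e (nat_lit 2579) (nat_lit 161) (.e (nat_lit 40963) (nat_lit 0) .nil))))))))) (.g (nat_lit 1) (.e (nat_lit 95591) (nat_lit 0) .nil) .nil))) 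
(.lf (nat_lit 474912) (.g (nat_lit 3339) (.e (nat_lit 1347) (nat_lit 102) (.e (nat_lit 286733) (nat_lit 2) (.e (nat_lit 90170) (nat_lit 13) (.e (nat_lit 172115) (nat_lit 10) .nil)))) (.g (nat_lit 0) (.e (nat_lit 96743) (nat_lit 0) .nil) .nil))))) (.nd (nat_lit 8) (.nd (nat_lit 9) 
(.lf (nat_lit 474272) (.g (nat_lit 3129) (.e (nat_lit 1239) (nat_lit 91) (.e (nat_lit 90170) (nat_lit 13) (.e (nat_lit 172113) (nat_lit 10) (.e (nat_lit 434247) (nat_lit 28) (.e (nat_lit 573456) (nat_lit 9) (.e (nat_lit 428) (nat_lit 32) (.e (nat_lit 425989) (nat_lit 0) (.e (nat_lit 7489) (nat_lit 402) .nil)))))))) (.g (nat_lit 1) (.e (nat_lit 95455) (nat_lit 0) .nil) .nil))) 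
(.lf (nat_lit 474784) (.g (nat_lit 2259) (.e (nat_lit 1374) (nat_lit 104) (.e (nat_lit 303119) (nat_lit 3) (.e (nat_lit 204846) (nat_lit 24) (.e (nat_lit 319504) (nat_lit 10) (.e (nat_lit 5714) (nat_lit 312) .nil))))) (.g (nat_lit 0) (.e (nat_lit 96263) (nat_lit 0) .nil) .nil)))) (.nd (nat_lit 9) 
(.lf (nat_lit 474528) (.g (nat_lit 2729) (.e (nat_lit 1253) (nat_lit 92) (.e (nat_lit 98373) (nat_lit 29) (.e (nat_lit 450561) (nat_lit 0) (.e (nat_lit 3919) (nat_lit 239) .nil)))) (.g (nat_lit 0) (.e (nat_lit 95749) (nat_lit 0) .nil) .nil))) 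
(.lf (nat_lit 475040) (.g (nat_lit 3927) (.e (nat_lit 1399) (nat_lit 106) (.e (nat_lit 319490) (nat_lit 0) (.e (nat_lit 5664) (nat_lit 312) (.e (nat_lit 2826) (nat_lit 182) (.e (nat_lit 409649) (nat_lit 18) (.e (nat_lit 303140) (nat_lit 10) (.e (nat_lit 434266) (nat_lit 35) (.e (nat_lit 630812) (nat_lit 13) .nil)))))))) (.g (nat_lit 1) (.e (nat_lit 97124) (nat_lit 0) .nil) .nil)))))) 
(.nd (nat_lit 7) (.nd (nat_lit 8) (.nd (nat_lit 9) 
(.lf (nat_lit 474208) (.g (nat_lit 3486) (.e (nat_lit 1239) (nat_lit 91) (.e (nat_lit 90170) (nat_lit 13) (.e (nat_lit 172106) (nat_lit 10) (.e (nat_lit 434244) (nat_lit 28) (.e (nat_lit 573451) (nat_lit 9) (.e (nat_lit 7936) (nat_lit 36) (.e (nat_lit 466688) (nat_lit 0) .nil))))))) (.g (nat_lit 1) (.e (nat_lit 95391) (nat_lit 0) .nil) .nil))) 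
(.lf (nat_lit 474720) (.g (nat_lit 2769) (.e (nat_lit 1256) (nat_lit 92) (.e (nat_lit 98373) (nat_lit 29) (.e (nat_lit 450588) (nat_lit 10) (.e (nat_lit 573452) (nat_lit 9) (.e (nat_lit 7936) (nat_lit 33) (.e (nat_lit 442112) (nat_lit 0) .nil)))))) (.g (nat_lit 1) (.e (nat_lit 96009) (nat_lit 0) .nil) .nil)))) (.nd (nat_lit 9) 
(.lf (nat_lit 474464) (.g (nat_lit 2087) (.e (nat_lit 1252) (nat_lit 92) (.e (nat_lit 98333) (nat_lit 18) (.e (nat_lit 164399) (nat_lit 256) (.e (nat_lit 57372) (nat_lit 2) (.e (nat_lit 90172) (nat_lit 14) .nil))))) (.g (nat_lit 0) (.e (nat_lit 95662) (nat_lit 0) .nil) .nil))) 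
(.lf (nat_lit 474976) (.g (nat_lit 3161) (.e (nat_lit 1359) (nat_lit 102) (.e (nat_lit 286733) (nat_lit 2) (.e (nat_lit 90176) (nat_lit 15) (.e (nat_lit 188447) (nat_lit 22) (.e (nat_lit 196661) (nat_lit 12) .nil))))) (.g (nat_lit 0) (.e (nat_lit 96923) (nat_lit 0) .nil) .nil))))) (.nd (nat_lit 8) (.nd (nat_lit 9) 
(.lf (nat_lit 474336) (.g (nat_lit 2391) (.e (nat_lit 1243) (nat_lit 92) (.e (nat_lit 98334) (nat_lit 18) (.e (nat_lit 164398) (nat_lit 256) (.e (nat_lit 57373) (nat_lit 2) (.e (nat_lit 90174) (nat_lit 14) .nil))))) (.g (nat_lit 0) (.e (nat_lit 95526) (nat_lit 0) .nil) .nil))) 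
(.lf (nat_lit 474848) (.g (nat_lit 3858) (.e (nat_lit 1376) (nat_lit 104) (.e (nat_lit 303119) (nat_lit 3) (.e (nat_lit 204885) (nat_lit 33) (.e (nat_lit 401434) (nat_lit 9) (.e (nat_lit 426125) (nat_lit 2) (.e (nat_lit 196661) (nat_lit 12) (.e (nat_lit 57712) (nat_lit 176) .nil))))))) (.g (nat_lit 1) (.e (nat_lit 96423) (nat_lit 0) .nil) .nil)))) (.nd (nat_lit 9) 
(.lf (nat_lit 474592) (.g (nat_lit 2780) (.e (nat_lit 1254) (nat_lit 92) (.e (nat_lit 98334) (nat_lit 18) (.e (nat_lit 164398) (nat_lit 256) (.e (nat_lit 57379) (nat_lit 3) (.e (nat_lit 98366) (nat_lit 27) .nil))))) (.g (nat_lit 0) (.e (nat_lit 95815) (nat_lit 0) .nil) .nil))) 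
(.lf (nat_lit 475104) (.g (nat_lit 926) (.e (nat_lit 1425) (nat_lit 108) (.e (nat_lit 336421) (nat_lit 28) (.e (nat_lit 434188) (nat_lit 13) (.e (nat_lit 2789) (nat_lit 179) (.e (nat_lit 294973) (nat_lit 28) (.e (nat_lit 434181) (nat_lit 0) .nil)))))) (.g (nat_lit 1) (.e (nat_lit 97259) (nat_lit 0) .nil) .nil)))))))) 
(.nd (nat_lit 5) (.nd (nat_lit 6) (.nd (nat_lit 7) (.nd (nat_lit 8) (.nd (nat_lit 9) 
(.lf (nat_lit 474128) (.g (nat_lit 737) (.e (nat_lit 1235) (nat_lit 91) (.e (nat_lit 90176) (nat_lit 15) (.e (nat_lit 188441) (nat_lit 20) .nil))) (.g (nat_lit 0) (.e (nat_lit 95298) (nat_lit 0) .nil) .nil))) 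
(.lf (nat_lit 474640) (.g (nat_lit 1939) (.e (nat_lit 1255) (nat_lit 92) (.e (nat_lit 98384) (nat_lit 32) (.e (nat_lit 475179) (nat_lit 24) (.e (nat_lit 516115) (nat_lit 1) .nil)))) (.g (nat_lit 0) (.e (nat_lit 95917) (nat_lit 0) .nil) .nil)))) (.nd (nat_lit 9) 
(.lf (nat_lit 474384) (.g (nat_lit 3703) (.e (nat_lit 1250) (nat_lit 92) (.e (nat_lit 98350) (nat_lit 24) (.e (nat_lit 409646) (nat_lit 18) (.e (nat_lit 303117) (nat_lit 2) (.e (nat_lit 196670) (nat_lit 14) (.e (nat_lit 81664) (nat_lit 40) .nil)))))) (.g (nat_lit 1) (.e (nat_lit 95575) (nat_lit 0) .nil) .nil))) 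
(.lf (nat_lit 474896) (.g (nat_lit 2160) (.e (nat_lit 1386) (nat_lit 105) (.e (nat_lit 311357) (nat_lit 28) (.e (nat_lit 344069) (nat_lit 0) (.e (nat_lit 3090) (nat_lit 191) (.e (nat_lit 483350) (nat_lit 17) (.e (nat_lit 6135) (nat_lit 332) .nil)))))) (.g (nat_lit 1) (.e (nat_lit 96715) (nat_lit 0) .nil) .nil))))) (.nd (nat_lit 8) (.nd (nat_lit 9) 
(.lf (nat_lit 474256) (.g (nat_lit 1946) (.e (nat_lit 1239) (nat_lit 91) (.e (nat_lit 90170) (nat_lit 13) (.e (nat_lit 172113) (nat_lit 10) (.e (nat_lit 434245) (nat_lit 28) (.e (nat_lit 573451) (nat_lit 9) (.e (nat_lit 7936) (nat_lit 32) (.e (nat_lit 425990) (nat_lit 0) (.e (nat_lit 7489) (nat_lit 402) .nil)))))))) (.g (nat_lit 1) (.e (nat_lit 95439) (nat_lit 0) .nil) .nil))) 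
(.lf (nat_lit 474768) (.g (nat_lit 3240) (.e (nat_lit 1314) (nat_lit 98) (.e (nat_lit 147495) (nat_lit 11) (.e (nat_lit 24604) (nat_lit 2) (.e (nat_lit 90170) (nat_lit 13) (.e (nat_lit 172106) (nat_lit 10) (.e (nat_lit 434244) (nat_lit 28) (.e (nat_lit 573451) (nat_lit 9) .nil))))))) (.g (nat_lit 1) (.e (nat_lit 96169) (nat_lit 0) .nil) .nil)))) (.nd (nat_lit 9) 
(.lf (nat_lit 474512) (.g (nat_lit 2770) (.e (nat_lit 1253) (nat_lit 92) (.e (nat_lit 98350) (nat_lit 24) (.e (nat_lit 409646) (nat_lit 18) (.e (nat_lit 303117) (nat_lit 2) (.e (nat_lit 196669) (nat_lit 14) .nil))))) (.g (nat_lit 0) (.e (nat_lit 95727) (nat_lit 0) .nil) .nil))) 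
(.lf (nat_lit 475024) (.g (nat_lit 4944) (.e (nat_lit 1395) (nat_lit 106) (.e (nat_lit 319538) (nat_lit 19) (.e (nat_lit 311315) (nat_lit 3) (.e (nat_lit 204846) (nat_lit 24) (.e (nat_lit 319534) (nat_lit 16) (.e (nat_lit 286728) (nat_lit 0) (.e (nat_lit 1842) (nat_lit 123) (.e (nat_lit 548874) (nat_lit 5) .nil)))))))) (.g (nat_lit 1) (.e (nat_lit 97073) (nat_lit 0) .nil) .nil)))))) 
(.nd (nat_lit 7) (.nd (nat_lit 8) (.nd (nat_lit 9) 
(.lf (nat_lit 474192) (.g (nat_lit 5888) (.e (nat_lit 1239) (nat_lit 91) (.e (nat_lit 90170) (nat_lit 13) (.e (nat_lit 172106) (nat_lit 10) (.e (nat_lit 434244) (nat_lit 28) (.e (nat_lit 573451) (nat_lit 9) (.e (nat_lit 359) (nat_lit 30) (.e (nat_lit 409602) (nat_lit 0) (.e (nat_lit 5270) (nat_lit 298) .nil)))))))) (.g (nat_lit 1) (.e (nat_lit 95375) (nat_lit 0) .nil) .nil))) 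
(.lf (nat_lit 474704) (.g (nat_lit 2381) (.e (nat_lit 1256) (nat_lit 92) (.e (nat_lit 98373) (nat_lit 29) (.e (nat_lit 450587) (nat_lit 10) (.e (nat_lit 573456) (nat_lit 9) (.e (nat_lit 7936) (nat_lit 33) (.e (nat_lit 442112) (nat_lit 0) .nil)))))) (.g (nat_lit 1) (.e (nat_lit 95993) (nat_lit 0) .nil) .nil)))) (.nd (nat_lit 9) 
(.lf (nat_lit 474448) (.g (nat_lit 2715) (.e (nat_lit 1251) (nat_lit 92) (.e (nat_lit 98334) (nat_lit 18) (.e (nat_lit 164398) (nat_lit 256) (.e (nat_lit 57378) (nat_lit 3) (.e (nat_lit 98367) (nat_lit 27) .nil))))) (.g (nat_lit 0) (.e (nat_lit 95643) (nat_lit 0) .nil) .nil))) 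
(.lf (nat_lit 474960) (.g (nat_lit 3253) (.e (nat_lit 1355) (nat_lit 102) (.e (nat_lit 286733) (nat_lit 2) (.e (nat_lit 90176) (nat_lit 15) (.e (nat_lit 188447) (nat_lit 22) (.e (nat_lit 196661) (nat_lit 12) .nil))))) (.g (nat_lit 0) (.e (nat_lit 96880) (nat_lit 0) .nil) .nil))))) (.nd (nat_lit 8) (.nd (nat_lit 9) 
(.lf (nat_lit 474320) (.g (nat_lit 3097) (.e (nat_lit 1239) (nat_lit 91) (.e (nat_lit 90170) (nat_lit 13) (.e (nat_lit 172113) (nat_lit 10) (.e (nat_lit 434248) (nat_lit 28) (.e (nat_lit 573457) (nat_lit 9) (.e (nat_lit 430) (nat_lit 32) (.e (nat_lit 426011) (nat_lit 0) (.e (nat_lit 7490) (nat_lit 402) .nil)))))))) (.g (nat_lit 1) (.e (nat_lit 95503) (nat_lit 0) .nil) .nil))) 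
(.lf (nat_lit 474832) (.g (nat_lit 2169) (.e (nat_lit 1376) (nat_lit 104) (.e (nat_lit 303119) (nat_lit 3) (.e (nat_lit 204846) (nat_lit 24) (.e (nat_lit 319511) (nat_lit 10) .nil)))) (.g (nat_lit 0) (.e (nat_lit 96400) (nat_lit 0) .nil) .nil)))) (.nd (nat_lit 9) 
(.lf (nat_lit 474576) (.g (nat_lit 2068) (.e (nat_lit 1254) (nat_lit 92) (.e (nat_lit 98333) (nat_lit 18) (.e (nat_lit 164399) (nat_lit 256) (.e (nat_lit 57375) (nat_lit 2) (.e (nat_lit 90174) (nat_lit 14) .nil))))) (.g (nat_lit 0) (.e (nat_lit 95799) (nat_lit 0) .nil) .nil))) 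
(.lf (nat_lit 475088) (.g (nat_lit 2432) (.e (nat_lit 1423) (nat_lit 108) (.e (nat_lit 336337) (nat_lit 20) (.e (nat_lit 221219) (nat_lit 24) (.e (nat_lit 213030) (nat_lit 11) (.e (nat_lit 24617) (nat_lit 7) (.e (nat_lit 319511) (nat_lit 10) (.e (nat_lit 5293) (nat_lit 298) .nil))))))) (.g (nat_lit 1) (.e (nat_lit 97230) (nat_lit 0) .nil) .nil))))))) 
(.nd (nat_lit 6) (.nd (nat_lit 7) (.nd (nat_lit 8) (.nd (nat_lit 9) 
(.lf (nat_lit 474160) (.g (nat_lit 2704) (.e (nat_lit 1238) (nat_lit 91) (.e (nat_lit 90176) (nat_lit 15) (.e (nat_lit 188450) (nat_lit 23) (.e (nat_lit 204846) (nat_lit 24) (.e (nat_lit 319496) (nat_lit 10) .nil))))) (.g (nat_lit 0) (.e (nat_lit 95337) (nat_lit 0) .nil) .nil))) 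
(.lf (nat_lit 474672) (.g (nat_lit 3506) (.e (nat_lit 1256) (nat_lit 92) (.e (nat_lit 98350) (nat_lit 24) (.e (nat_lit 409646) (nat_lit 18) (.e (nat_lit 303117) (nat_lit 2) (.e (nat_lit 196670) (nat_lit 14) (.e (nat_lit 81664) (nat_lit 40) .nil)))))) (.g (nat_lit 1) (.e (nat_lit 95955) (nat_lit 0) .nil) .nil)))) (.nd (nat_lit 9) 
(.lf (nat_lit 474416) (.g (nat_lit 772) (.e (nat_lit 1250) (nat_lit 92) (.e (nat_lit 98373) (nat_lit 29) (.e (nat_lit 450586) (nat_lit 10) .nil))) (.g (nat_lit 0) (.e (nat_lit 95609) (nat_lit 0) .nil) .nil))) 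
(.lf (nat_lit 474928) (.g (nat_lit 1599) (.e (nat_lit 1348) (nat_lit 102) (.e (nat_lit 286735) (nat_lit 3) (.e (nat_lit 98365) (nat_lit 26) (.e (nat_lit 426297) (nat_lit 11) .nil)))) (.g (nat_lit 0) (.e (nat_lit 96791) (nat_lit 0) .nil) .nil))))) (.nd (nat_lit 8) (.nd (nat_lit 9) 
(.lf (nat_lit 474288) (.g (nat_lit 2711) (.e (nat_lit 1239) (nat_lit 91) (.e (nat_lit 90170) (nat_lit 13) (.e (nat_lit 172113) (nat_lit 10) (.e (nat_lit 434247) (nat_lit 28) (.e (nat_lit 573457) (nat_lit 9) (.e (nat_lit 7936) (nat_lit 36) (.e (nat_lit 466688) (nat_lit 0) .nil))))))) (.g (nat_lit 1) (.e (nat_lit 95471) (nat_lit 0) .nil) .nil))) 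
(.lf (nat_lit 474800) (.g (nat_lit 1700) (.e (nat_lit 1374) (nat_lit 104) (.e (nat_lit 303119) (nat_lit 3) (.e (nat_lit 204846) (nat_lit 24) (.e (nat_lit 319534) (nat_lit 16) (.e (nat_lit 286728) (nat_lit 0) (.e (nat_lit 1842) (nat_lit 123) (.e (nat_lit 548886) (nat_lit 8) (.e (nat_lit 57711) (nat_lit 176) .nil)))))))) (.g (nat_lit 1) (.e (nat_lit 96288) (nat_lit 0) .nil) .nil)))) 
(.nd (nat_lit 9) 
(.lf (nat_lit 474544) (.g (nat_lit 5117) (.e (nat_lit 1253) (nat_lit 92) (.e (nat_lit 98373) (nat_lit 29) (.e (nat_lit 450587) (nat_lit 10) (.e (nat_lit 573469) (nat_lit 11) (.e (nat_lit 16388) (nat_lit 0) .nil))))) (.g (nat_lit 0) (.e (nat_lit 95765) (nat_lit 0) .nil) .nil))) 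
(.lf (nat_lit 475056) (.g (nat_lit 2393) (.e (nat_lit 1400) (nat_lit 106) (.e (nat_lit 319533) (nat_lit 16) (.e (nat_lit 286735) (nat_lit 3) (.e (nat_lit 98381) (nat_lit 31) (.e (nat_lit 466977) (nat_lit 22) .nil))))) (.g (nat_lit 0) (.e (nat_lit 97151) (nat_lit 0) .nil) .nil)))))) (.nd (nat_lit 7) (.nd (nat_lit 8) (.nd (nat_lit 9) 
(.lf (nat_lit 474224) (.g (nat_lit 1338) (.e (nat_lit 1239) (nat_lit 91) (.e (nat_lit 90170) (nat_lit 13) (.e (nat_lit 172113) (nat_lit 10) (.e (nat_lit 434230) (nat_lit 23) .nil)))) (.g (nat_lit 0) (.e (nat_lit 95407) (nat_lit 0) .nil) .nil))) 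
(.lf (nat_lit 474736) (.g (nat_lit 1656) (.e (nat_lit 1267) (nat_lit 93) (.e (nat_lit 106534) (nat_lit 11) (.e (nat_lit 16425) (nat_lit 7) (.e (nat_lit 409649) (nat_lit 18) .nil)))) (.g (nat_lit 0) (.e (nat_lit 96029) (nat_lit 0) .nil) .nil)))) (.nd (nat_lit 9) 
(.lf (nat_lit 474480) (.g (nat_lit 2300) (.e (nat_lit 1252) (nat_lit 92) (.e (nat_lit 98334) (nat_lit 18) (.e (nat_lit 164399) (nat_lit 256) (.e (nat_lit 57372) (nat_lit 2) (.e (nat_lit 90172) (nat_lit 14) .nil))))) (.g (nat_lit 0) (.e (nat_lit 95679) (nat_lit 0) .nil) .nil))) 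
(.lf (nat_lit 474992) (.g (nat_lit 2263) (.e (nat_lit 1361) (nat_lit 102) (.e (nat_lit 286735) (nat_lit 3) (.e (nat_lit 98367) (nat_lit 27) (.e (nat_lit 434184) (nat_lit 8) .nil)))) (.g (nat_lit 0) (.e (nat_lit 96987) (nat_lit 0) .nil) .nil))))) (.nd (nat_lit 8) (.nd (nat_lit 9) 
(.lf (nat_lit 474352) (.g (nat_lit 2781) (.e (nat_lit 1246) (nat_lit 92) (.e (nat_lit 98373) (nat_lit 29) (.e (nat_lit 450588) (nat_lit 10) (.e (nat_lit 573470) (nat_lit 11) .nil)))) (.g (nat_lit 0) (.e (nat_lit 95542) (nat_lit 0) .nil) .nil))) 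
(.lf (nat_lit 474864) (.g (nat_lit 1273) (.e (nat_lit 7936) (nat_lit 104) (.e (nat_lit 303143) (nat_lit 12) (.e (nat_lit 475199) (nat_lit 40) (.e (nat_lit 704598) (nat_lit 6) .nil)))) (.g (nat_lit 0) (.e (nat_lit 96530) (nat_lit 0) .nil) .nil)))) (.nd (nat_lit 9) 
(.lf (nat_lit 474608) (.g (nat_lit 2650) (.e (nat_lit 1255) (nat_lit 92) (.e (nat_lit 98334) (nat_lit 18) (.e (nat_lit 164398) (nat_lit 256) (.e (nat_lit 57372) (nat_lit 2) (.e (nat_lit 90172) (nat_lit 14) .nil))))) (.g (nat_lit 0) (.e (nat_lit 95849) (nat_lit 0) .nil) .nil))) 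
(.lf (nat_lit 475120) (.g (nat_lit 2021) (.e (nat_lit 1425) (nat_lit 108) (.e (nat_lit 336443) (nat_lit 32) (.e (nat_lit 466971) (nat_lit 21) (.e (nat_lit 164348) (nat_lit 240) (.e (nat_lit 2639) (nat_lit 165) (.e (nat_lit 180277) (nat_lit 32) .nil)))))) (.g (nat_lit 1) (.e (nat_lit 97288) (nat_lit 0) .nil) .nil))))))))) 
(.nd (nat_lit 4) (.nd (nat_lit 5) (.nd (nat_lit 6) (.nd (nat_lit 7) (.nd (nat_lit 8) 
(.nd (nat_lit 9) 
(.lf (nat_lit 474120) (.g (nat_lit 2359) (.e (nat_lit 1235) (nat_lit 91) (.e (nat_lit 90170) (nat_lit 13) (.e (nat_lit 172113) (nat_lit 10) (.e (nat_lit 434247) (nat_lit 28) (.e (nat_lit 573456) (nat_lit 9) (.e (nat_lit 430) (nat_lit 32) (.e (nat_lit 426030) (nat_lit 0) (.e (nat_lit 7562) (nat_lit 402) .nil)))))))) (.g (nat_lit 1) (.e (nat_lit 95289) (nat_lit 0) .nil) .nil))) 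
(.lf (nat_lit 474632) (.g (nat_lit 2897) (.e (nat_lit 1255) (nat_lit 92) (.e (nat_lit 98373) (nat_lit 29) (.e (nat_lit 450588) (nat_lit 10) (.e (nat_lit 573470) (nat_lit 11) (.e (nat_lit 16387) (nat_lit 0) .nil))))) (.g (nat_lit 0) (.e (nat_lit 95904) (nat_lit 0) .nil) .nil)))) (.nd (nat_lit 9) 
(.lf (nat_lit 474376) (.g (nat_lit 3505) (.e (nat_lit 1250) (nat_lit 92) (.e (nat_lit 98350) (nat_lit 24) (.e (nat_lit 409643) (nat_lit 18) (.e (nat_lit 303119) (nat_lit 3) (.e (nat_lit 204846) (nat_lit 24) (.e (nat_lit 319490) (nat_lit 0) (.e (nat_lit 5293) (nat_lit 298) .nil))))))) (.g (nat_lit 1) (.e (nat_lit 95567) (nat_lit 0) .nil) .nil))) 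
(.lf (nat_lit 474888) (.g (nat_lit 2306) (.e (nat_lit 1386) (nat_lit 105) (.e (nat_lit 311357) (nat_lit 28) (.e (nat_lit 344068) (nat_lit 0) (.e (nat_lit 3090) (nat_lit 191) (.e (nat_lit 483350) (nat_lit 17) (.e (nat_lit 6125) (nat_lit 332) .nil)))))) (.g (nat_lit 1) (.e (nat_lit 96706) (nat_lit 0) .nil) .nil))))) (.nd (nat_lit 8) (.nd (nat_lit 9) 
(.lf (nat_lit 474248) (.g (nat_lit 3153) (.e (nat_lit 1239) (nat_lit 91) (.e (nat_lit 90170) (nat_lit 13) (.e (nat_lit 172113) (nat_lit 10) (.e (nat_lit 434245) (nat_lit 28) (.e (nat_lit 573451) (nat_lit 9) (.e (nat_lit 359) (nat_lit 30) (.e (nat_lit 409602) (nat_lit 0) (.e (nat_lit 5245) (nat_lit 298) .nil)))))))) (.g (nat_lit 1) (.e (nat_lit 95431) (nat_lit 0) .nil) .nil))) 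
(.lf (nat_lit 474760) (.g (nat_lit 1792) (.e (nat_lit 1310) (nat_lit 98) (.e (nat_lit 147496) (nat_lit 11) (.e (nat_lit 24617) (nat_lit 7) (.e (nat_lit 319532) (nat_lit 16) .nil)))) (.g (nat_lit 0) (.e (nat_lit 96160) (nat_lit 0) .nil) .nil)))) (.nd (nat_lit 9) 
(.lf (nat_lit 474504) (.g (nat_lit 3947) (.e (nat_lit 1252) (nat_lit 92) (.e (nat_lit 98373) (nat_lit 29) (.e (nat_lit 450588) (nat_lit 10) (.e (nat_lit 573469) (nat_lit 11) .nil)))) (.g (nat_lit 0) (.e (nat_lit 95711) (nat_lit 0) .nil) .nil))) 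
(.lf (nat_lit 475016) (.g (nat_lit 1411) (.e (nat_lit 1393) (nat_lit 106) (.e (nat_lit 319530) (nat_lit 16) (.e (nat_lit 286733) (nat_lit 2) (.e (nat_lit 90134) (nat_lit 9) .nil)))) (.g (nat_lit 0) (.e (nat_lit 97057) (nat_lit 0) .nil) .nil)))))) (.nd (nat_lit 7) (.nd (nat_lit 8) (.nd (nat_lit 9) 
(.lf (nat_lit 474184) (.g (nat_lit 4364) (.e (nat_lit 1239) (nat_lit 91) (.e (nat_lit 90170) (nat_lit 13) (.e (nat_lit 172106) (nat_lit 10) (.e (nat_lit 434244) (nat_lit 28) (.e (nat_lit 573450) (nat_lit 9) (.e (nat_lit 375) (nat_lit 32) (.e (nat_lit 426025) (nat_lit 0) (.e (nat_lit 7936) (nat_lit 402) .nil)))))))) (.g (nat_lit 1) (.e (nat_lit 95367) (nat_lit 0) .nil) .nil))) 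
(.lf (nat_lit 474696) (.g (nat_lit 1105) (.e (nat_lit 1256) (nat_lit 92) (.e (nat_lit 98372) (nat_lit 29) (.e (nat_lit 450579) (nat_lit 5) (.e (nat_lit 532525) (nat_lit 8) .nil)))) (.g (nat_lit 0) (.e (nat_lit 95985) (nat_lit 0) .nil) .nil)))) (.nd (nat_lit 9) 
(.lf (nat_lit 474440) (.g (nat_lit 2093) (.e (nat_lit 1251) (nat_lit 92) (.e (nat_lit 98333) (nat_lit 18) (.e (nat_lit 164399) (nat_lit 256) (.e (nat_lit 57375) (nat_lit 2) (.e (nat_lit 90174) (nat_lit 14) .nil))))) (.g (nat_lit 0) (.e (nat_lit 95634) (nat_lit 0) .nil) .nil))) 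
(.lf (nat_lit 474952) (.g (nat_lit 3652) (.e (nat_lit 1350) (nat_lit 102) (.e (nat_lit 286733) (nat_lit 2) (.e (nat_lit 90170) (nat_lit 13) (.e (nat_lit 172106) (nat_lit 10) (.e (nat_lit 434231) (nat_lit 23) .nil))))) (.g (nat_lit 0) (.e (nat_lit 96866) (nat_lit 0) .nil) .nil))))) (.nd (nat_lit 8) (.nd (nat_lit 9) 
(.lf (nat_lit 474312) (.g (nat_lit 2062) (.e (nat_lit 1239) (nat_lit 91) (.e (nat_lit 90170) (nat_lit 13) (.e (nat_lit 172113) (nat_lit 10) (.e (nat_lit 434248) (nat_lit 28) (.e (nat_lit 573452) (nat_lit 9) (.e (nat_lit 7936) (nat_lit 32) (.e (nat_lit 425984) (nat_lit 0) (.e (nat_lit 7489) (nat_lit 402) .nil)))))))) (.g (nat_lit 1) (.e (nat_lit 95495) (nat_lit 0) .nil) .nil))) 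
(.lf (nat_lit 474824) (.g (nat_lit 1919) (.e (nat_lit 1376) (nat_lit 104) (.e (nat_lit 303119) (nat_lit 3) (.e (nat_lit 204816) (nat_lit 17) (.e (nat_lit 6722) (nat_lit 362) (.e (nat_lit 180245) (nat_lit 5) .nil))))) (.g (nat_lit 0) (.e (nat_lit 96387) (nat_lit 0) .nil) .nil)))) (.nd (nat_lit 9) 
(.lf (nat_lit 474568) (.g (nat_lit 2698) (.e (nat_lit 1254) (nat_lit 92) (.e (nat_lit 98333) (nat_lit 18) (.e (nat_lit 164398) (nat_lit 256) (.e (nat_lit 57372) (nat_lit 2) (.e (nat_lit 90174) (nat_lit 14) .nil))))) (.g (nat_lit 0) (.e (nat_lit 95791) (nat_lit 0) .nil) .nil))) 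
(.lf (nat_lit 475080) (.g (nat_lit 790) (.e (nat_lit 1417) (nat_lit 108) (.e (nat_lit 336454) (nat_lit 34) (.e (nat_lit 483408) (nat_lit 26) .nil))) (.g (nat_lit 0) (.e (nat_lit 97197) (nat_lit 0) .nil) .nil))))))) (.nd (nat_lit 6) (.nd (nat_lit 7) (.nd (nat_lit 8) (.nd (nat_lit 9) 
(.lf (nat_lit 474152) (.g (nat_lit 2625) (.e (nat_lit 1237) (nat_lit 91) (.e (nat_lit 90170) (nat_lit 13) (.e (nat_lit 172118) (nat_lit 12) (.e (nat_lit 475185) (nat_lit 29) .nil)))) (.g (nat_lit 0) (.e (nat_lit 95328) (nat_lit 0) .nil) .nil))) 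
(.lf (nat_lit 474664) (.g (nat_lit 3356) (.e (nat_lit 1256) (nat_lit 92) (.e (nat_lit 98350) (nat_lit 24) (.e (nat_lit 409643) (nat_lit 18) (.e (nat_lit 303117) (nat_lit 2) (.e (nat_lit 196661) (nat_lit 12) (.e (nat_lit 57723) (nat_lit 180) (.e (nat_lit 229643) (nat_lit 232) .nil))))))) (.g (nat_lit 1) (.e (nat_lit 95947) (nat_lit 0) .nil) .nil)))) (.nd (nat_lit 9) 
(.lf (nat_lit 474408) (.g (nat_lit 4579) (.e (nat_lit 1250) (nat_lit 92) (.e (nat_lit 98372) (nat_lit 29) (.e (nat_lit 450586) (nat_lit 10) (.e (nat_lit 573451) (nat_lit 9) (.e (nat_lit 359) (nat_lit 30) (.e (nat_lit 409602) (nat_lit 0) (.e (nat_lit 5293) (nat_lit 298) .nil))))))) (.g (nat_lit 1) (.e (nat_lit 95601) (nat_lit 0) .nil) .nil))) 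
(.lf (nat_lit 474920) (.g (nat_lit 3902) (.e (nat_lit 1348) (nat_lit 102) (.e (nat_lit 286735) (nat_lit 3) (.e (nat_lit 98353) (nat_lit 25) (.e (nat_lit 417810) (nat_lit 6) (.e (nat_lit 286733) (nat_lit 2) (.e (nat_lit 90133) (nat_lit 9) (.e (nat_lit 2400) (nat_lit 157) (.e (nat_lit 7064) (nat_lit 377) .nil)))))))) (.g (nat_lit 1) (.e (nat_lit 96783) (nat_lit 0) .nil) .nil))))) 
(.nd (nat_lit 8) (.nd (nat_lit 9) 
(.lf (nat_lit 474280) (.g (nat_lit 3676) (.e (nat_lit 1239) (nat_lit 91) (.e (nat_lit 90170) (nat_lit 13) (.e (nat_lit 172113) (nat_lit 10) (.e (nat_lit 434247) (nat_lit 28) (.e (nat_lit 573457) (nat_lit 9) (.e (nat_lit 365) (nat_lit 31) (.e (nat_lit 417795) (nat_lit 0) (.e (nat_lit 5271) (nat_lit 298) .nil)))))))) (.g (nat_lit 1) (.e (nat_lit 95463) (nat_lit 0) .nil) .nil))) 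
(.lf (nat_lit 474792) (.g (nat_lit 2748) (.e (nat_lit 1374) (nat_lit 104) (.e (nat_lit 303119) (nat_lit 3) (.e (nat_lit 204846) (nat_lit 24) (.e (nat_lit 319530) (nat_lit 16) (.e (nat_lit 286735) (nat_lit 3) (.e (nat_lit 98325) (nat_lit 17) (.e (nat_lit 6986) (nat_lit 377) .nil))))))) (.g (nat_lit 1) (.e (nat_lit 96280) (nat_lit 0) .nil) .nil)))) (.nd (nat_lit 9) 
(.lf (nat_lit 474536) (.g (nat_lit 3688) (.e (nat_lit 1253) (nat_lit 92) (.e (nat_lit 98373) (nat_lit 29) (.e (nat_lit 450586) (nat_lit 10) (.e (nat_lit 573450) (nat_lit 9) (.e (nat_lit 442) (nat_lit 33) (.e (nat_lit 434181) (nat_lit 0) .nil)))))) (.g (nat_lit 1) (.e (nat_lit 95757) (nat_lit 0) .nil) .nil))) 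
(.lf (nat_lit 475048) (.g (nat_lit 3295) (.e (nat_lit 1400) (nat_lit 106) (.e (nat_lit 319531) (nat_lit 16) (.e (nat_lit 286733) (nat_lit 2) (.e (nat_lit 90128) (nat_lit 9) (.e (nat_lit 3044) (nat_lit 189) (.e (nat_lit 466975) (nat_lit 22) (.e (nat_lit 196626) (nat_lit 9) .nil))))))) (.g (nat_lit 1) (.e (nat_lit 97140) (nat_lit 0) .nil) .nil)))))) 
(.nd (nat_lit 7) (.nd (nat_lit 8) (.nd (nat_lit 9) 
(.lf (nat_lit 474216) (.g (nat_lit 3051) (.e (nat_lit 1239) (nat_lit 91) (.e (nat_lit 90170) (nat_lit 13) (.e (nat_lit 172106) (nat_lit 10) (.e (nat_lit 434244) (nat_lit 28) (.e (nat_lit 573458) (nat_lit 9) (.e (nat_lit 7936) (nat_lit 32) (.e (nat_lit 425989) (nat_lit 0) (.e (nat_lit 7489) (nat_lit 402) .nil)))))))) (.g (nat_lit 1) (.e (nat_lit 95399) (nat_lit 0) .nil) .nil))) 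
(.lf (nat_lit 474728) (.g (nat_lit 1982) (.e (nat_lit 1257) (nat_lit 93) (.e (nat_lit 106536) (nat_lit 11) (.e (nat_lit 16416) (nat_lit 3) (.e (nat_lit 204869) (nat_lit 29) .nil)))) (.g (nat_lit 0) (.e (nat_lit 96018) (nat_lit 0) .nil) .nil)))) (.nd (nat_lit 9) 
(.lf (nat_lit 474472) (.g (nat_lit 3038) (.e (nat_lit 1252) (nat_lit 92) (.e (nat_lit 98334) (nat_lit 18) (.e (nat_lit 164398) (nat_lit 256) (.e (nat_lit 57371) (nat_lit 2) (.e (nat_lit 90174) (nat_lit 14) .nil))))) (.g (nat_lit 0) (.e (nat_lit 95671) (nat_lit 0) .nil) .nil))) 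
(.lf (nat_lit 474984) (.g (nat_lit 2590) (.e (nat_lit 1359) (nat_lit 102) (.e (nat_lit 286756) (nat_lit 10) (.e (nat_lit 344138) (nat_lit 29) (.e (nat_lit 581653) (nat_lit 6) (.e (nat_lit 188459) (nat_lit 26) (.e (nat_lit 254008) (nat_lit 14) .nil)))))) (.g (nat_lit 1) (.e (nat_lit 96941) (nat_lit 0) .nil) .nil))))) (.nd (nat_lit 8) (.nd (nat_lit 9) 
(.lf (nat_lit 474344) (.g (nat_lit 3094) (.e (nat_lit 1246) (nat_lit 92) (.e (nat_lit 98334) (nat_lit 18) (.e (nat_lit 164398) (nat_lit 256) (.e (nat_lit 57372) (nat_lit 2) (.e (nat_lit 90174) (nat_lit 14) .nil))))) (.g (nat_lit 0) (.e (nat_lit 95534) (nat_lit 0) .nil) .nil))) 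
(.lf (nat_lit 474856) (.g (nat_lit 870) (.e (nat_lit 1378) (nat_lit 104) (.e (nat_lit 303119) (nat_lit 3) (.e (nat_lit 204816) (nat_lit 17) .nil))) (.g (nat_lit 0) (.e (nat_lit 96469) (nat_lit 0) .nil) .nil)))) (.nd (nat_lit 9) 
(.lf (nat_lit 474600) (.g (nat_lit 3642) (.e (nat_lit 1255) (nat_lit 92) (.e (nat_lit 98321) (nat_lit 17) (.e (nat_lit 3771) (nat_lit 229) (.e (nat_lit 794668) (nat_lit 22) (.e (nat_lit 196666) (nat_lit 13) (.e (nat_lit 65569) (nat_lit 3) (.e (nat_lit 98334) (nat_lit 18) (.e (nat_lit 164159) (nat_lit 152) (.e (nat_lit 1027) (nat_lit 81) .nil))))))))) (.g (nat_lit 1) (.e (nat_lit 95823) (nat_lit 0) .nil) .nil))) 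
(.lf (nat_lit 475112) (.g (nat_lit 2454) (.e (nat_lit 1425) (nat_lit 108) (.e (nat_lit 336430) (nat_lit 29) (.e (nat_lit 442419) (nat_lit 21) (.e (nat_lit 164347) (nat_lit 240) (.e (nat_lit 2638) (nat_lit 165) (.e (nat_lit 180277) (nat_lit 32) .nil)))))) (.g (nat_lit 1) (.e (nat_lit 97273) (nat_lit 0) .nil) .nil)))))))) 
(.nd (nat_lit 5) (.nd (nat_lit 6) (.nd (nat_lit 7) (.nd (nat_lit 8) (.nd (nat_lit 9) 
(.lf (nat_lit 474136) (.g (nat_lit 2153) (.e (nat_lit 1236) (nat_lit 91) (.e (nat_lit 90174) (nat_lit 14) (.e (nat_lit 180250) (nat_lit 10) (.e (nat_lit 573487) (nat_lit 14) (.e (nat_lit 73753) (nat_lit 8) .nil))))) (.g (nat_lit 0) (.e (nat_lit 95306) (nat_lit 0) .nil) .nil))) 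
(.lf (nat_lit 474648) (.g (nat_lit 2250) (.e (nat_lit 1256) (nat_lit 92) (.e (nat_lit 98333) (nat_lit 18) (.e (nat_lit 164399) (nat_lit 256) (.e (nat_lit 57370) (nat_lit 2) (.e (nat_lit 90174) (nat_lit 14) .nil))))) (.g (nat_lit 0) (.e (nat_lit 95927) (nat_lit 0) .nil) .nil)))) (.nd (nat_lit 9) 
(.lf (nat_lit 474392) (.g (nat_lit 2397) (.e (nat_lit 1250) (nat_lit 92) (.e (nat_lit 98350) (nat_lit 24) (.e (nat_lit 409649) (nat_lit 18) (.e (nat_lit 303116) (nat_lit 2) (.e (nat_lit 196670) (nat_lit 14) .nil))))) (.g (nat_lit 0) (.e (nat_lit 95583) (nat_lit 0) .nil) .nil))) 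
(.lf (nat_lit 474904) (.g (nat_lit 1872) (.e (nat_lit 1346) (nat_lit 102) (.e (nat_lit 286733) (nat_lit 2) (.e (nat_lit 90176) (nat_lit 15) (.e (nat_lit 188450) (nat_lit 23) .nil)))) (.g (nat_lit 0) (.e (nat_lit 96733) (nat_lit 0) .nil) .nil))))) (.nd (nat_lit 8) (.nd (nat_lit 9) 
(.lf (nat_lit 474264) (.g (nat_lit 3037) (.e (nat_lit 1239) (nat_lit 91) (.e (nat_lit 90170) (nat_lit 13) (.e (nat_lit 172113) (nat_lit 10) (.e (nat_lit 434245) (nat_lit 28) (.e (nat_lit 573458) (nat_lit 9) (.e (nat_lit 7936) (nat_lit 36) (.e (nat_lit 466688) (nat_lit 0) .nil))))))) (.g (nat_lit 1) (.e (nat_lit 95447) (nat_lit 0) .nil) .nil))) 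
(.lf (nat_lit 474776) (.g (nat_lit 3645) (.e (nat_lit 1374) (nat_lit 104) (.e (nat_lit 303118) (nat_lit 3) (.e (nat_lit 204885) (nat_lit 33) (.e (nat_lit 401434) (nat_lit 9) (.e (nat_lit 426125) (nat_lit 2) (.e (nat_lit 196661) (nat_lit 12) (.e (nat_lit 57711) (nat_lit 176) .nil))))))) (.g (nat_lit 1) (.e (nat_lit 96251) (nat_lit 0) .nil) .nil)))) (.nd (nat_lit 9) 
(.lf (nat_lit 474520) (.g (nat_lit 4656) (.e (nat_lit 1253) (nat_lit 92) (.e (nat_lit 98367) (nat_lit 27) (.e (nat_lit 434244) (nat_lit 28) (.e (nat_lit 573451) (nat_lit 9) (.e (nat_lit 1449) (nat_lit 108) (.e (nat_lit 336013) (nat_lit 2) (.e (nat_lit 90189) (nat_lit 18) (.e (nat_lit 2579) (nat_lit 161) (.e (nat_lit 40967) (nat_lit 0) .nil))))))))) (.g (nat_lit 1) (.e (nat_lit 95737) (nat_lit 0) .nil) .nil))) 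
(.lf (nat_lit 475032) (.g (nat_lit 4520) (.e (nat_lit 1401) (nat_lit 106) (.e (nat_lit 319537) (nat_lit 19) (.e (nat_lit 311315) (nat_lit 3) (.e (nat_lit 204846) (nat_lit 24) (.e (nat_lit 319534) (nat_lit 16) (.e (nat_lit 286728) (nat_lit 0) (.e (nat_lit 1842) (nat_lit 123) (.e (nat_lit 548873) (nat_lit 5) .nil)))))))) (.g (nat_lit 1) (.e (nat_lit 97108) (nat_lit 0) .nil) .nil)))))) 
(.nd (nat_lit 7) (.nd (nat_lit 8) (.nd (nat_lit 9) 
(.lf (nat_lit 474200) (.g (nat_lit 4459) (.e (nat_lit 1239) (nat_lit 91) (.e (nat_lit 90170) (nat_lit 13) (.e (nat_lit 172106) (nat_lit 10) (.e (nat_lit 434244) (nat_lit 28) (.e (nat_lit 573451) (nat_lit 9) (.e (nat_lit 428) (nat_lit 32) (.e (nat_lit 425990) (nat_lit 0) (.e (nat_lit 7489) (nat_lit 402) .nil)))))))) (.g (nat_lit 1) (.e (nat_lit 95383) (nat_lit 0) .nil) .nil))) 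
(.lf (nat_lit 474712) (.g (nat_lit 3190) (.e (nat_lit 1256) (nat_lit 92) (.e (nat_lit 98373) (nat_lit 29) (.e (nat_lit 450588) (nat_lit 10) (.e (nat_lit 573450) (nat_lit 9) (.e (nat_lit 442) (nat_lit 33) (.e (nat_lit 442112) (nat_lit 0) .nil)))))) (.g (nat_lit 1) (.e (nat_lit 96001) (nat_lit 0) .nil) .nil)))) (.nd (nat_lit 9) 
(.lf (nat_lit 474456) (.g (nat_lit 2490) (.e (nat_lit 1252) (nat_lit 92) (.e (nat_lit 98333) (nat_lit 18) (.e (nat_lit 164327) (nat_lit 230) (.e (nat_lit 163873) (nat_lit 3) (.e (nat_lit 204809) (nat_lit 9) (.e (nat_lit 426139) (nat_lit 3) (.e (nat_lit 204833) (nat_lit 19) (.e (nat_lit 106523) (nat_lit 9) .nil)))))))) (.g (nat_lit 1) (.e (nat_lit 95654) (nat_lit 0) .nil) .nil))) 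
(.lf (nat_lit 474968) (.g (nat_lit 3458) (.e (nat_lit 1358) (nat_lit 102) (.e (nat_lit 286733) (nat_lit 2) (.e (nat_lit 90170) (nat_lit 13) (.e (nat_lit 172115) (nat_lit 10) .nil)))) (.g (nat_lit 0) (.e (nat_lit 96888) (nat_lit 0) .nil) .nil))))) (.nd (nat_lit 8) (.nd (nat_lit 9) 
(.lf (nat_lit 474328) (.g (nat_lit 2044) (.e (nat_lit 1239) (nat_lit 91) (.e (nat_lit 90176) (nat_lit 15) (.e (nat_lit 188450) (nat_lit 23) (.e (nat_lit 204846) (nat_lit 24) .nil)))) (.g (nat_lit 0) (.e (nat_lit 95511) (nat_lit 0) .nil) .nil))) 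
(.lf (nat_lit 474840) (.g (nat_lit 2403) (.e (nat_lit 1376) (nat_lit 104) (.e (nat_lit 303119) (nat_lit 3) (.e (nat_lit 204846) (nat_lit 24) (.e (nat_lit 319533) (nat_lit 16) (.e (nat_lit 286734) (nat_lit 3) .nil))))) (.g (nat_lit 0) (.e (nat_lit 96414) (nat_lit 0) .nil) .nil)))) (.nd (nat_lit 9) 
(.lf (nat_lit 474584) (.g (nat_lit 3055) (.e (nat_lit 1254) (nat_lit 92) (.e (nat_lit 98334) (nat_lit 18) (.e (nat_lit 164398) (nat_lit 256) (.e (nat_lit 57372) (nat_lit 2) (.e (nat_lit 90172) (nat_lit 14) .nil))))) (.g (nat_lit 0) (.e (nat_lit 95807) (nat_lit 0) .nil) .nil))) 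
(.lf (nat_lit 475096) (.g (nat_lit 1737) (.e (nat_lit 1424) (nat_lit 108) (.e (nat_lit 336324) (nat_lit 18) (.e (nat_lit 204854) (nat_lit 26) (.e (nat_lit 336326) (nat_lit 18) .nil)))) (.g (nat_lit 0) (.e (nat_lit 97242) (nat_lit 0) .nil) .nil))))))) (.nd (nat_lit 6) (.nd (nat_lit 7) (.nd (nat_lit 8) (.nd (nat_lit 9) 
(.lf (nat_lit 474168) (.g (nat_lit 2334) (.e (nat_lit 1239) (nat_lit 91) (.e (nat_lit 90170) (nat_lit 13) (.e (nat_lit 172106) (nat_lit 10) (.e (nat_lit 434231) (nat_lit 23) (.e (nat_lit 532482) (nat_lit 0) .nil))))) (.g (nat_lit 0) (.e (nat_lit 95351) (nat_lit 0) .nil) .nil))) 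
(.lf (nat_lit 474680) (.g (nat_lit 2269) (.e (nat_lit 1256) (nat_lit 92) (.e (nat_lit 98359) (nat_lit 26) (.e (nat_lit 426338) (nat_lit 14) (.e (nat_lit 491526) (nat_lit 0) (.e (nat_lit 1689) (nat_lit 117) .nil))))) (.g (nat_lit 0) (.e (nat_lit 95967) (nat_lit 0) .nil) .nil)))) (.nd (nat_lit 9) 
(.lf (nat_lit 474424) (.g (nat_lit 3045) (.e (nat_lit 1250) (nat_lit 92) (.e (nat_lit 98373) (nat_lit 29) (.e (nat_lit 450587) (nat_lit 10) (.e (nat_lit 573456) (nat_lit 9) (.e (nat_lit 359) (nat_lit 30) (.e (nat_lit 409602) (nat_lit 0) (.e (nat_lit 5293) (nat_lit 298) .nil))))))) (.g (nat_lit 1) (.e (nat_lit 95617) (nat_lit 0) .nil) .nil))) 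
(.lf (nat_lit 474936) (.g (nat_lit 4262) (.e (nat_lit 1349) (nat_lit 102) (.e (nat_lit 286733) (nat_lit 2) (.e (nat_lit 90170) (nat_lit 13) (.e (nat_lit 172126) (nat_lit 14) (.e (nat_lit 491537) (nat_lit 2) (.e (nat_lit 90133) (nat_lit 9) (.e (nat_lit 2397) (nat_lit 157) (.e (nat_lit 7064) (nat_lit 377) .nil)))))))) (.g (nat_lit 1) (.e (nat_lit 96829) (nat_lit 0) .nil) .nil))))) 
(.nd (nat_lit 8) (.nd (nat_lit 9) 
(.lf (nat_lit 474296) (.g (nat_lit 3112) (.e (nat_lit 1239) (nat_lit 91) (.e (nat_lit 90170) (nat_lit 13) (.e (nat_lit 172113) (nat_lit 10) (.e (nat_lit 434248) (nat_lit 28) (.e (nat_lit 573450) (nat_lit 9) (.e (nat_lit 433) (nat_lit 32) (.e (nat_lit 425987) (nat_lit 0) (.e (nat_lit 7489) (nat_lit 402) .nil)))))))) (.g (nat_lit 1) (.e (nat_lit 95479) (nat_lit 0) .nil) .nil))) 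
(.lf (nat_lit 474808) (.g (nat_lit 4133) (.e (nat_lit 1374) (nat_lit 104) (.e (nat_lit 303119) (nat_lit 3) (.e (nat_lit 204885) (nat_lit 33) (.e (nat_lit 401434) (nat_lit 9) (.e (nat_lit 426140) (nat_lit 3) (.e (nat_lit 204821) (nat_lit 17) (.e (nat_lit 6092) (nat_lit 332) .nil))))))) (.g (nat_lit 1) (.e (nat_lit 96296) (nat_lit 0) .nil) .nil)))) (.nd (nat_lit 9) 
(.lf (nat_lit 474552) (.g (nat_lit 4204) (.e (nat_lit 1253) (nat_lit 92) (.e (nat_lit 98373) (nat_lit 29) (.e (nat_lit 450588) (nat_lit 10) (.e (nat_lit 573450) (nat_lit 9) (.e (nat_lit 442) (nat_lit 33) (.e (nat_lit 434180) (nat_lit 0) .nil)))))) (.g (nat_lit 1) (.e (nat_lit 95773) (nat_lit 0) .nil) .nil))) 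
(.lf (nat_lit 475064) (.g (nat_lit 2175) (.e (nat_lit 1413) (nat_lit 108) (.e (nat_lit 336324) (nat_lit 18) (.e (nat_lit 204854) (nat_lit 26) (.e (nat_lit 336326) (nat_lit 18) (.e (nat_lit 204852) (nat_lit 26) .nil))))) (.g (nat_lit 0) (.e (nat_lit 97174) (nat_lit 0) .nil) .nil)))))) (.nd (nat_lit 7) (.nd (nat_lit 8) (.nd (nat_lit 9) 
(.lf (nat_lit 474232) (.g (nat_lit 2680) (.e (nat_lit 1239) (nat_lit 91) (.e (nat_lit 90170) (nat_lit 13) (.e (nat_lit 172113) (nat_lit 10) (.e (nat_lit 434242) (nat_lit 28) (.e (nat_lit 573450) (nat_lit 9) (.e (nat_lit 442) (nat_lit 33) (.e (nat_lit 442112) (nat_lit 0) .nil))))))) (.g (nat_lit 1) (.e (nat_lit 95415) (nat_lit 0) .nil) .nil))) 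
(.lf (nat_lit 474744) (.g (nat_lit 1713) (.e (nat_lit 1278) (nat_lit 94) (.e (nat_lit 114698) (nat_lit 11) (.e (nat_lit 426124) (nat_lit 2) .nil))) (.g (nat_lit 0) (.e (nat_lit 96059) (nat_lit 0) .nil) .nil)))) (.nd (nat_lit 9) 
(.lf (nat_lit 474488) (.g (nat_lit 2725) (.e (nat_lit 1252) (nat_lit 92) (.e (nat_lit 98349) (nat_lit 24) (.e (nat_lit 409645) (nat_lit 18) (.e (nat_lit 303119) (nat_lit 3) (.e (nat_lit 204863) (nat_lit 27) .nil))))) (.g (nat_lit 0) (.e (nat_lit 95688) (nat_lit 0) .nil) .nil))) 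
(.lf (nat_lit 475000) (.g (nat_lit 3552) (.e (nat_lit 1362) (nat_lit 102) (.e (nat_lit 286733) (nat_lit 2) (.e (nat_lit 90170) (nat_lit 13) (.e (nat_lit 172113) (nat_lit 10) .nil)))) (.g (nat_lit 0) (.e (nat_lit 96997) (nat_lit 0) .nil) .nil))))) (.nd (nat_lit 8) (.nd (nat_lit 9) 
(.lf (nat_lit 474360) (.g (nat_lit 2605) (.e (nat_lit 1249) (nat_lit 92) (.e (nat_lit 98372) (nat_lit 29) (.e (nat_lit 450579) (nat_lit 5) (.e (nat_lit 532523) (nat_lit 7) (.e (nat_lit 319504) (nat_lit 10) .nil))))) (.g (nat_lit 0) (.e (nat_lit 95551) (nat_lit 0) .nil) .nil))) 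
(.lf (nat_lit 474872) (.g (nat_lit 2652) (.e (nat_lit 1380) (nat_lit 105) (.e (nat_lit 311342) (nat_lit 13) (.e (nat_lit 483413) (nat_lit 27) (.e (nat_lit 401448) (nat_lit 10) (.e (nat_lit 434286) (nat_lit 42) .nil))))) (.g (nat_lit 0) (.e (nat_lit 96594) (nat_lit 0) .nil) .nil)))) (.nd (nat_lit 9) 
(.lf (nat_lit 474616) (.g (nat_lit 1747) (.e (nat_lit 1255) (nat_lit 92) (.e (nat_lit 98356) (nat_lit 26) (.e (nat_lit 426428) (nat_lit 17) (.e (nat_lit 90165) (nat_lit 12) .nil)))) (.g (nat_lit 0) (.e (nat_lit 95869) (nat_lit 0) .nil) .nil))) 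
(.lf (nat_lit 475128) (.g (nat_lit 2550) (.e (nat_lit 1425) (nat_lit 108) (.e (nat_lit 336454) (nat_lit 34) (.e (nat_lit 483406) (nat_lit 26) (.e (nat_lit 385066) (nat_lit 26) (.e (nat_lit 532504) (nat_lit 1) .nil))))) (.g (nat_lit 0) (.e (nat_lit 97297) (nat_lit 0) .nil) .nil)))))))))) 
(.nd (nat_lit 3) (.nd (nat_lit 4) (.nd (nat_lit 5) (.nd (nat_lit 6) (.nd (nat_lit 7) 
(.nd (nat_lit 8) (.nd (nat_lit 9) 
(.lf (nat_lit 474116) (.g (nat_lit 2455) (.e (nat_lit 1235) (nat_lit 91) (.e (nat_lit 90170) (nat_lit 13) (.e (nat_lit 172113) (nat_lit 10) (.e (nat_lit 434245) (nat_lit 28) (.e (nat_lit 573451) (nat_lit 9) (.e (nat_lit 430) (nat_lit 32) (.e (nat_lit 426030) (nat_lit 0) (.e (nat_lit 7562) (nat_lit 402) .nil)))))))) (.g (nat_lit 1) (.e (nat_lit 95285) (nat_lit 0) .nil) .nil))) 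
(.lf (nat_lit 474628) (.g (nat_lit 831) (.e (nat_lit 1255) (nat_lit 92) (.e (nat_lit 98367) (nat_lit 27) (.e (nat_lit 434232) (nat_lit 23) .nil))) (.g (nat_lit 0) (.e (nat_lit 95881) (nat_lit 0) .nil) .nil)))) (.nd (nat_lit 9) 
(.lf (nat_lit 474372) (.g (nat_lit 1410) (.e (nat_lit 1250) (nat_lit 92) (.e (nat_lit 98350) (nat_lit 24) (.e (nat_lit 409623) (nat_lit 10) (.e (nat_lit 5664) (nat_lit 312) (.e (nat_lit 2661) (nat_lit 167) (.e (nat_lit 196669) (nat_lit 14) (.e (nat_lit 81664) (nat_lit 40) .nil))))))) (.g (nat_lit 1) (.e (nat_lit 95563) (nat_lit 0) .nil) .nil))) 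
(.lf (nat_lit 474884) (.g (nat_lit 2323) (.e (nat_lit 1385) (nat_lit 105) (.e (nat_lit 311343) (nat_lit 13) (.e (nat_lit 483339) (nat_lit 9) (.e (nat_lit 426147) (nat_lit 4) (.e (nat_lit 229666) (nat_lit 240) (.e (nat_lit 2433) (nat_lit 157) (.e (nat_lit 2668) (nat_lit 167) (.e (nat_lit 196686) (nat_lit 18) .nil)))))))) (.g (nat_lit 1) (.e (nat_lit 96666) (nat_lit 0) .nil) .nil))))) 
(.nd (nat_lit 8) (.nd (nat_lit 9) 
(.lf (nat_lit 474244) (.g (nat_lit 3610) (.e (nat_lit 1239) (nat_lit 91) (.e (nat_lit 90170) (nat_lit 13) (.e (nat_lit 172113) (nat_lit 10) (.e (nat_lit 434245) (nat_lit 28) (.e (nat_lit 573450) (nat_lit 9) (.e (nat_lit 442) (nat_lit 33) (.e (nat_lit 442112) (nat_lit 0) .nil))))))) (.g (nat_lit 1) (.e (nat_lit 95427) (nat_lit 0) .nil) .nil))) 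
(.lf (nat_lit 474756) (.g (nat_lit 4177) (.e (nat_lit 1310) (nat_lit 98) (.e (nat_lit 147495) (nat_lit 11) (.e (nat_lit 24604) (nat_lit 2) (.e (nat_lit 90170) (nat_lit 13) (.e (nat_lit 172106) (nat_lit 10) (.e (nat_lit 434244) (nat_lit 28) (.e (nat_lit 573458) (nat_lit 9) .nil))))))) (.g (nat_lit 1) (.e (nat_lit 96156) (nat_lit 0) .nil) .nil)))) (.nd (nat_lit 9) 
(.lf (nat_lit 474500) (.g (nat_lit 2430) (.e (nat_lit 1252) (nat_lit 92) (.e (nat_lit 98373) (nat_lit 29) (.e (nat_lit 450587) (nat_lit 10) (.e (nat_lit 573471) (nat_lit 11) .nil)))) (.g (nat_lit 0) (.e (nat_lit 95707) (nat_lit 0) .nil) .nil))) 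
(.lf (nat_lit 475012) (.g (nat_lit 1417) (.e (nat_lit 1368) (nat_lit 103) (.e (nat_lit 294927) (nat_lit 2) (.e (nat_lit 90170) (nat_lit 13) (.e (nat_lit 172115) (nat_lit 10) .nil)))) (.g (nat_lit 0) (.e (nat_lit 97031) (nat_lit 0) .nil) .nil)))))) (.nd (nat_lit 7) (.nd (nat_lit 8) (.nd (nat_lit 9) 
(.lf (nat_lit 474180) (.g (nat_lit 2012) (.e (nat_lit 1239) (nat_lit 91) (.e (nat_lit 90170) (nat_lit 13) (.e (nat_lit 172106) (nat_lit 10) (.e (nat_lit 434234) (nat_lit 23) .nil)))) (.g (nat_lit 0) (.e (nat_lit 95363) (nat_lit 0) .nil) .nil))) 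
(.lf (nat_lit 474692) (.g (nat_lit 1468) (.e (nat_lit 1256) (nat_lit 92) (.e (nat_lit 98370) (nat_lit 28) (.e (nat_lit 450304) (nat_lit 1) (.e (nat_lit 57623) (nat_lit 128) (.e (nat_lit 2638) (nat_lit 165) (.e (nat_lit 188160) (nat_lit 32) .nil)))))) (.g (nat_lit 1) (.e (nat_lit 95981) (nat_lit 0) .nil) .nil)))) (.nd (nat_lit 9) 
(.lf (nat_lit 474436) (.g (nat_lit 2083) (.e (nat_lit 1251) (nat_lit 92) (.e (nat_lit 98333) (nat_lit 18) (.e (nat_lit 164399) (nat_lit 256) (.e (nat_lit 57370) (nat_lit 2) (.e (nat_lit 90174) (nat_lit 14) .nil))))) (.g (nat_lit 0) (.e (nat_lit 95630) (nat_lit 0) .nil) .nil))) 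
(.lf (nat_lit 474948) (.g (nat_lit 1340) (.e (nat_lit 1349) (nat_lit 102) (.e (nat_lit 286735) (nat_lit 3) (.e (nat_lit 98381) (nat_lit 31) (.e (nat_lit 466977) (nat_lit 22) .nil)))) (.g (nat_lit 0) (.e (nat_lit 96844) (nat_lit 0) .nil) .nil))))) (.nd (nat_lit 8) (.nd (nat_lit 9) 
(.lf (nat_lit 474308) (.g (nat_lit 3355) (.e (nat_lit 1239) (nat_lit 91) (.e (nat_lit 90170) (nat_lit 13) (.e (nat_lit 172113) (nat_lit 10) (.e (nat_lit 434248) (nat_lit 28) (.e (nat_lit 573452) (nat_lit 9) (.e (nat_lit 428) (nat_lit 32) (.e (nat_lit 425984) (nat_lit 0) (.e (nat_lit 7489) (nat_lit 402) .nil)))))))) (.g (nat_lit 1) (.e (nat_lit 95491) (nat_lit 0) .nil) .nil))) 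
(.lf (nat_lit 474820) (.g (nat_lit 858) (.e (nat_lit 1376) (nat_lit 104) (.e (nat_lit 303117) (nat_lit 2) (.e (nat_lit 196661) (nat_lit 12) .nil))) (.g (nat_lit 0) (.e (nat_lit 96379) (nat_lit 0) .nil) .nil)))) (.nd (nat_lit 9) 
(.lf (nat_lit 474564) (.g (nat_lit 2453) (.e (nat_lit 1254) (nat_lit 92) (.e (nat_lit 98333) (nat_lit 18) (.e (nat_lit 164325) (nat_lit 230) (.e (nat_lit 163875) (nat_lit 3) .nil)))) (.g (nat_lit 0) (.e (nat_lit 95787) (nat_lit 0) .nil) .nil))) 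
(.lf (nat_lit 475076) (.g (nat_lit 3950) (.e (nat_lit 1416) (nat_lit 108) (.e (nat_lit 336454) (nat_lit 34) (.e (nat_lit 483365) (nat_lit 18) (.e (nat_lit 57854) (nat_lit 252) .nil)))) (.g (nat_lit 0) (.e (nat_lit 97193) (nat_lit 0) .nil) .nil))))))) (.nd (nat_lit 6) (.nd (nat_lit 7) (.nd (nat_lit 8) (.nd (nat_lit 9) 
(.lf (nat_lit 474148) (.g (nat_lit 1997) (.e (nat_lit 1237) (nat_lit 91) (.e (nat_lit 90170) (nat_lit 13) (.e (nat_lit 172106) (nat_lit 10) (.e (nat_lit 434244) (nat_lit 28) (.e (nat_lit 573458) (nat_lit 9) (.e (nat_lit 426) (nat_lit 32) (.e (nat_lit 426012) (nat_lit 0) (.e (nat_lit 7545) (nat_lit 402) .nil)))))))) (.g (nat_lit 1) (.e (nat_lit 95324) (nat_lit 0) .nil) .nil))) 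
(.lf (nat_lit 474660) (.g (nat_lit 2376) (.e (nat_lit 1256) (nat_lit 92) (.e (nat_lit 98341) (nat_lit 20) (.e (nat_lit 221210) (nat_lit 22) (.e (nat_lit 196668) (nat_lit 14) (.e (nat_lit 73746) (nat_lit 3) .nil))))) (.g (nat_lit 0) (.e (nat_lit 95939) (nat_lit 0) .nil) .nil)))) (.nd (nat_lit 9) 
(.lf (nat_lit 474404) (.g (nat_lit 1185) (.e (nat_lit 1250) (nat_lit 92) (.e (nat_lit 98372) (nat_lit 29) (.e (nat_lit 450579) (nat_lit 5) (.e (nat_lit 532523) (nat_lit 7) .nil)))) (.g (nat_lit 0) (.e (nat_lit 95597) (nat_lit 0) .nil) .nil))) 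
(.lf (nat_lit 474916) (.g (nat_lit 647) (.e (nat_lit 1348) (nat_lit 102) (.e (nat_lit 286735) (nat_lit 3) (.e (nat_lit 98338) (nat_lit 19) .nil))) (.g (nat_lit 0) (.e (nat_lit 96779) (nat_lit 0) .nil) .nil))))) (.nd (nat_lit 8) (.nd (nat_lit 9) 
(.lf (nat_lit 474276) (.g (nat_lit 2646) (.e (nat_lit 1239) (nat_lit 91) (.e (nat_lit 90170) (nat_lit 13) (.e (nat_lit 172113) (nat_lit 10) (.e (nat_lit 434247) (nat_lit 28) (.e (nat_lit 573456) (nat_lit 9) (.e (nat_lit 7936) (nat_lit 36) (.e (nat_lit 466688) (nat_lit 0) .nil))))))) (.g (nat_lit 1) (.e (nat_lit 95459) (nat_lit 0) .nil) .nil))) 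
(.lf (nat_lit 474788) (.g (nat_lit 3753) (.e (nat_lit 1374) (nat_lit 104) (.e (nat_lit 303119) (nat_lit 3) (.e (nat_lit 204846) (nat_lit 24) (.e (nat_lit 319538) (nat_lit 19) (.e (nat_lit 311314) (nat_lit 3) (.e (nat_lit 212736) (nat_lit 17) (.e (nat_lit 6112) (nat_lit 332) .nil))))))) (.g (nat_lit 1) (.e (nat_lit 96274) (nat_lit 0) .nil) .nil)))) (.nd (nat_lit 9) 
(.lf (nat_lit 474532) (.g (nat_lit 2344) (.e (nat_lit 1253) (nat_lit 92) (.e (nat_lit 98373) (nat_lit 29) (.e (nat_lit 450567) (nat_lit 0) (.e (nat_lit 3982) (nat_lit 239) .nil)))) (.g (nat_lit 0) (.e (nat_lit 95753) (nat_lit 0) .nil) .nil))) 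
(.lf (nat_lit 475044) (.g (nat_lit 1669) (.e (nat_lit 1400) (nat_lit 106) (.e (nat_lit 319528) (nat_lit 16) (.e (nat_lit 286733) (nat_lit 2) (.e (nat_lit 90128) (nat_lit 9) (.e (nat_lit 3044) (nat_lit 189) (.e (nat_lit 466975) (nat_lit 22) (.e (nat_lit 196626) (nat_lit 9) .nil))))))) (.g (nat_lit 1) (.e (nat_lit 97136) (nat_lit 0) .nil) .nil)))))) 
(.nd (nat_lit 7) (.nd (nat_lit 8) (.nd (nat_lit 9) 
(.lf (nat_lit 474212) (.g (nat_lit 3101) (.e (nat_lit 1239) (nat_lit 91) (.e (nat_lit 90170) (nat_lit 13) (.e (nat_lit 172106) (nat_lit 10) (.e (nat_lit 434244) (nat_lit 28) (.e (nat_lit 573458) (nat_lit 9) (.e (nat_lit 420) (nat_lit 32) (.e (nat_lit 425989) (nat_lit 0) (.e (nat_lit 7489) (nat_lit 402) .nil)))))))) (.g (nat_lit 1) (.e (nat_lit 95395) (nat_lit 0) .nil) .nil))) 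
(.lf (nat_lit 474724) (.g (nat_lit 3205) (.e (nat_lit 1257) (nat_lit 93) (.e (nat_lit 106534) (nat_lit 11) (.e (nat_lit 16425) (nat_lit 7) (.e (nat_lit 409648) (nat_lit 18) (.e (nat_lit 303136) (nat_lit 10) .nil))))) (.g (nat_lit 0) (.e (nat_lit 96014) (nat_lit 0) .nil) .nil)))) (.nd (nat_lit 9) 
(.lf (nat_lit 474468) (.g (nat_lit 2760) (.e (nat_lit 1252) (nat_lit 92) (.e (nat_lit 98333) (nat_lit 18) (.e (nat_lit 164403) (nat_lit 256) (.e (nat_lit 57371) (nat_lit 2) (.e (nat_lit 90174) (nat_lit 14) .nil))))) (.g (nat_lit 0) (.e (nat_lit 95667) (nat_lit 0) .nil) .nil))) 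
(.lf (nat_lit 474980) (.g (nat_lit 2721) (.e (nat_lit 1359) (nat_lit 102) (.e (nat_lit 286735) (nat_lit 3) (.e (nat_lit 98372) (nat_lit 29) (.e (nat_lit 450579) (nat_lit 5) .nil)))) (.g (nat_lit 0) (.e (nat_lit 96927) (nat_lit 0) .nil) .nil))))) (.nd (nat_lit 8) (.nd (nat_lit 9) 
(.lf (nat_lit 474340) (.g (nat_lit 2470) (.e (nat_lit 1246) (nat_lit 92) (.e (nat_lit 98333) (nat_lit 18) (.e (nat_lit 164399) (nat_lit 256) (.e (nat_lit 57372) (nat_lit 2) (.e (nat_lit 90172) (nat_lit 14) .nil))))) (.g (nat_lit 0) (.e (nat_lit 95530) (nat_lit 0) .nil) .nil))) 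
(.lf (nat_lit 474852) (.g (nat_lit 2397) (.e (nat_lit 1376) (nat_lit 104) (.e (nat_lit 303119) (nat_lit 3) (.e (nat_lit 204885) (nat_lit 33) (.e (nat_lit 401448) (nat_lit 10) (.e (nat_lit 434232) (nat_lit 23) .nil))))) (.g (nat_lit 0) (.e (nat_lit 96427) (nat_lit 0) .nil) .nil)))) (.nd (nat_lit 9) 
(.lf (nat_lit 474596) (.g (nat_lit 2170) (.e (nat_lit 1254) (nat_lit 92) (.e (nat_lit 98334) (nat_lit 18) (.e (nat_lit 164399) (nat_lit 256) (.e (nat_lit 57373) (nat_lit 2) (.e (nat_lit 90174) (nat_lit 14) .nil))))) (.g (nat_lit 0) (.e (nat_lit 95819) (nat_lit 0) .nil) .nil))) 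
(.lf (nat_lit 475108) (.g (nat_lit 1539) (.e (nat_lit 1425) (nat_lit 108) (.e (nat_lit 336430) (nat_lit 29) (.e (nat_lit 442378) (nat_lit 0) (.e (nat_lit 2058) (nat_lit 142) (.e (nat_lit 704595) (nat_lit 5) (.e (nat_lit 180277) (nat_lit 32) .nil)))))) (.g (nat_lit 1) (.e (nat_lit 97265) (nat_lit 0) .nil) .nil)))))))) 
(.nd (nat_lit 5) (.nd (nat_lit 6) (.nd (nat_lit 7) (.nd (nat_lit 8) (.nd (nat_lit 9) 
(.lf (nat_lit 474132) (.g (nat_lit 1174) (.e (nat_lit 1235) (nat_lit 91) (.e (nat_lit 90178) (nat_lit 15) (.e (nat_lit 188440) (nat_lit 20) (.e (nat_lit 3271) (nat_lit 199) .nil)))) (.g (nat_lit 0) (.e (nat_lit 95302) (nat_lit 0) .nil) .nil))) 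
(.lf (nat_lit 474644) (.g (nat_lit 1790) (.e (nat_lit 1255) (nat_lit 92) (.e (nat_lit 98386) (nat_lit 32) (.e (nat_lit 475211) (nat_lit 41) (.e (nat_lit 712745) (nat_lit 27) .nil)))) (.g (nat_lit 0) (.e (nat_lit 95923) (nat_lit 0) .nil) .nil)))) (.nd (nat_lit 9) 
(.lf (nat_lit 474388) (.g (nat_lit 2777) (.e (nat_lit 1250) (nat_lit 92) (.e (nat_lit 98350) (nat_lit 24) (.e (nat_lit 409648) (nat_lit 18) (.e (nat_lit 303116) (nat_lit 2) (.e (nat_lit 196670) (nat_lit 14) (.e (nat_lit 81664) (nat_lit 40) .nil)))))) (.g (nat_lit 1) (.e (nat_lit 95579) (nat_lit 0) .nil) .nil))) 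
(.lf (nat_lit 474900) (.g (nat_lit 2662) (.e (nat_lit 1390) (nat_lit 105) (.e (nat_lit 311357) (nat_lit 28) (.e (nat_lit 344068) (nat_lit 0) (.e (nat_lit 3090) (nat_lit 191) (.e (nat_lit 483350) (nat_lit 17) (.e (nat_lit 6113) (nat_lit 332) .nil)))))) (.g (nat_lit 1) (.e (nat_lit 96729) (nat_lit 0) .nil) .nil))))) (.nd (nat_lit 8) (.nd (nat_lit 9) 
(.lf (nat_lit 474260) (.g (nat_lit 3141) (.e (nat_lit 1239) (nat_lit 91) (.e (nat_lit 90170) (nat_lit 13) (.e (nat_lit 172113) (nat_lit 10) (.e (nat_lit 434245) (nat_lit 28) (.e (nat_lit 573458) (nat_lit 9) (.e (nat_lit 420) (nat_lit 32) (.e (nat_lit 425984) (nat_lit 0) (.e (nat_lit 7489) (nat_lit 402) .nil)))))))) (.g (nat_lit 1) (.e (nat_lit 95443) (nat_lit 0) .nil) .nil))) 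
(.lf (nat_lit 474772) (.g (nat_lit 2736) (.e (nat_lit 1329) (nat_lit 100) (.e (nat_lit 270354) (nat_lit 8) (.e (nat_lit 303118) (nat_lit 3) (.e (nat_lit 204855) (nat_lit 26) (.e (nat_lit 336099) (nat_lit 9) (.e (nat_lit 336013) (nat_lit 2) (.e (nat_lit 98048) (nat_lit 18) .nil))))))) (.g (nat_lit 1) (.e (nat_lit 96180) (nat_lit 0) .nil) .nil)))) (.nd (nat_lit 9) 
(.lf (nat_lit 474516) (.g (nat_lit 2186) (.e (nat_lit 1253) (nat_lit 92) (.e (nat_lit 98361) (nat_lit 26) (.e (nat_lit 426340) (nat_lit 14) (.e (nat_lit 491537) (nat_lit 2) (.e (nat_lit 90172) (nat_lit 14) (.e (nat_lit 180278) (nat_lit 32) .nil)))))) (.g (nat_lit 1) (.e (nat_lit 95733) (nat_lit 0) .nil) .nil))) 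
(.lf (nat_lit 475028) (.g (nat_lit 2209) (.e (nat_lit 1396) (nat_lit 106) (.e (nat_lit 319530) (nat_lit 16) (.e (nat_lit 286733) (nat_lit 2) (.e (nat_lit 90128) (nat_lit 9) (.e (nat_lit 3044) (nat_lit 189) (.e (nat_lit 466977) (nat_lit 22) (.e (nat_lit 196626) (nat_lit 9) .nil))))))) (.g (nat_lit 1) (.e (nat_lit 97083) (nat_lit 0) .nil) .nil)))))) 
(.nd (nat_lit 7) (.nd (nat_lit 8) (.nd (nat_lit 9) 
(.lf (nat_lit 474196) (.g (nat_lit 4422) (.e (nat_lit 1239) (nat_lit 91) (.e (nat_lit 90170) (nat_lit 13) (.e (nat_lit 172106) (nat_lit 10) (.e (nat_lit 434244) (nat_lit 28) (.e (nat_lit 573451) (nat_lit 9) (.e (nat_lit 365) (nat_lit 31) (.e (nat_lit 417793) (nat_lit 0) (.e (nat_lit 5271) (nat_lit 298) .nil)))))))) (.g (nat_lit 1) (.e (nat_lit 95379) (nat_lit 0) .nil) .nil))) 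
(.lf (nat_lit 474708) (.g (nat_lit 3563) (.e (nat_lit 1256) (nat_lit 92) (.e (nat_lit 98373) (nat_lit 29) (.e (nat_lit 450587) (nat_lit 10) (.e (nat_lit 573473) (nat_lit 12) .nil)))) (.g (nat_lit 0) (.e (nat_lit 95997) (nat_lit 0) .nil) .nil)))) (.nd (nat_lit 9) 
(.lf (nat_lit 474452) (.g (nat_lit 2548) (.e (nat_lit 1252) (nat_lit 92) (.e (nat_lit 98333) (nat_lit 18) (.e (nat_lit 164325) (nat_lit 230) (.e (nat_lit 163874) (nat_lit 3) .nil)))) (.g (nat_lit 0) (.e (nat_lit 95650) (nat_lit 0) .nil) .nil))) 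
(.lf (nat_lit 474964) (.g (nat_lit 3423) (.e (nat_lit 1356) (nat_lit 102) (.e (nat_lit 286733) (nat_lit 2) (.e (nat_lit 90170) (nat_lit 13) (.e (nat_lit 172115) (nat_lit 10) .nil)))) (.g (nat_lit 0) (.e (nat_lit 96884) (nat_lit 0) .nil) .nil))))) (.nd (nat_lit 8) (.nd (nat_lit 9) 
(.lf (nat_lit 474324) (.g (nat_lit 818) (.e (nat_lit 1239) (nat_lit 91) (.e (nat_lit 90172) (nat_lit 14) (.e (nat_lit 180278) (nat_lit 32) .nil))) (.g (nat_lit 0) (.e (nat_lit 95507) (nat_lit 0) .nil) .nil))) 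
(.lf (nat_lit 474836) (.g (nat_lit 2669) (.e (nat_lit 1376) (nat_lit 104) (.e (nat_lit 303119) (nat_lit 3) (.e (nat_lit 204846) (nat_lit 24) (.e (nat_lit 319529) (nat_lit 16) (.e (nat_lit 286735) (nat_lit 3) (.e (nat_lit 98323) (nat_lit 17) (.e (nat_lit 6989) (nat_lit 377) .nil))))))) (.g (nat_lit 1) (.e (nat_lit 96409) (nat_lit 0) .nil) .nil)))) (.nd (nat_lit 9) 
(.lf (nat_lit 474580) (.g (nat_lit 3301) (.e (nat_lit 1254) (nat_lit 92) (.e (nat_lit 98333) (nat_lit 18) (.e (nat_lit 164403) (nat_lit 256) (.e (nat_lit 57378) (nat_lit 3) (.e (nat_lit 98366) (nat_lit 27) .nil))))) (.g (nat_lit 0) (.e (nat_lit 95803) (nat_lit 0) .nil) .nil))) 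
(.lf (nat_lit 475092) (.g (nat_lit 760) (.e (nat_lit 1423) (nat_lit 108) (.e (nat_lit 336454) (nat_lit 34) (.e (nat_lit 483365) (nat_lit 18) .nil))) (.g (nat_lit 0) (.e (nat_lit 97235) (nat_lit 0) .nil) .nil))))))) (.nd (nat_lit 6) (.nd (nat_lit 7) (.nd (nat_lit 8) (.nd (nat_lit 9) 
(.lf (nat_lit 474164) (.g (nat_lit 2412) (.e (nat_lit 1239) (nat_lit 91) (.e (nat_lit 90170) (nat_lit 13) (.e (nat_lit 172106) (nat_lit 10) (.e (nat_lit 434202) (nat_lit 18) (.e (nat_lit 3919) (nat_lit 239) .nil))))) (.g (nat_lit 0) (.e (nat_lit 95347) (nat_lit 0) .nil) .nil))) 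
(.lf (nat_lit 474676) (.g (nat_lit 3086) (.e (nat_lit 1256) (nat_lit 92) (.e (nat_lit 98350) (nat_lit 24) (.e (nat_lit 409649) (nat_lit 18) (.e (nat_lit 303117) (nat_lit 2) (.e (nat_lit 196669) (nat_lit 14) (.e (nat_lit 81664) (nat_lit 40) .nil)))))) (.g (nat_lit 1) (.e (nat_lit 95959) (nat_lit 0) .nil) .nil)))) (.nd (nat_lit 9) 
(.lf (nat_lit 474420) (.g (nat_lit 2495) (.e (nat_lit 1250) (nat_lit 92) (.e (nat_lit 98373) (nat_lit 29) (.e (nat_lit 450587) (nat_lit 10) (.e (nat_lit 573454) (nat_lit 9) (.e (nat_lit 7936) (nat_lit 30) .nil))))) (.g (nat_lit 0) (.e (nat_lit 95613) (nat_lit 0) .nil) .nil))) 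
(.lf (nat_lit 474932) (.g (nat_lit 1759) (.e (nat_lit 1348) (nat_lit 102) (.e (nat_lit 286761) (nat_lit 13) (.e (nat_lit 393252) (nat_lit 18) (.e (nat_lit 171776) (nat_lit 146) .nil)))) (.g (nat_lit 0) (.e (nat_lit 96805) (nat_lit 0) .nil) .nil))))) (.nd (nat_lit 8) (.nd (nat_lit 9) 
(.lf (nat_lit 474292) (.g (nat_lit 2284) (.e (nat_lit 1239) (nat_lit 91) (.e (nat_lit 90170) (nat_lit 13) (.e (nat_lit 172113) (nat_lit 10) (.e (nat_lit 434248) (nat_lit 28) (.e (nat_lit 573449) (nat_lit 9) (.e (nat_lit 452) (nat_lit 33) (.e (nat_lit 442112) (nat_lit 0) .nil))))))) (.g (nat_lit 1) (.e (nat_lit 95475) (nat_lit 0) .nil) .nil))) 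
(.lf (nat_lit 474804) (.g (nat_lit 4229) (.e (nat_lit 1374) (nat_lit 104) (.e (nat_lit 303119) (nat_lit 3) (.e (nat_lit 204846) (nat_lit 24) (.e (nat_lit 319534) (nat_lit 16) (.e (nat_lit 286735) (nat_lit 3) (.e (nat_lit 98323) (nat_lit 17) (.e (nat_lit 6989) (nat_lit 377) .nil))))))) (.g (nat_lit 1) (.e (nat_lit 96292) (nat_lit 0) .nil) .nil)))) (.nd (nat_lit 9) 
(.lf (nat_lit 474548) (.g (nat_lit 3861) (.e (nat_lit 1253) (nat_lit 92) (.e (nat_lit 98373) (nat_lit 29) (.e (nat_lit 450588) (nat_lit 10) (.e (nat_lit 573449) (nat_lit 9) (.e (nat_lit 443) (nat_lit 33) .nil))))) (.g (nat_lit 0) (.e (nat_lit 95769) (nat_lit 0) .nil) .nil))) 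
(.lf (nat_lit 475060) (.g (nat_lit 1834) (.e (nat_lit 1400) (nat_lit 106) (.e (nat_lit 319534) (nat_lit 16) (.e (nat_lit 286735) (nat_lit 3) (.e (nat_lit 98362) (nat_lit 26) .nil)))) (.g (nat_lit 0) (.e (nat_lit 97160) (nat_lit 0) .nil) .nil)))))) (.nd (nat_lit 7) (.nd (nat_lit 8) (.nd (nat_lit 9) 
(.lf (nat_lit 474228) (.g (nat_lit 1399) (.e (nat_lit 1239) (nat_lit 91) (.e (nat_lit 90170) (nat_lit 13) (.e (nat_lit 172113) (nat_lit 10) (.e (nat_lit 434233) (nat_lit 23) .nil)))) (.g (nat_lit 0) (.e (nat_lit 95411) (nat_lit 0) .nil) .nil))) 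
(.lf (nat_lit 474740) (.g (nat_lit 1703) (.e (nat_lit 1277) (nat_lit 94) (.e (nat_lit 114718) (nat_lit 23) (.e (nat_lit 98367) (nat_lit 27) (.e (nat_lit 434234) (nat_lit 23) .nil)))) (.g (nat_lit 0) (.e (nat_lit 96052) (nat_lit 0) .nil) .nil)))) (.nd (nat_lit 9) 
(.lf (nat_lit 474484) (.g (nat_lit 2968) (.e (nat_lit 1252) (nat_lit 92) (.e (nat_lit 98335) (nat_lit 18) (.e (nat_lit 164327) (nat_lit 230) (.e (nat_lit 163873) (nat_lit 3) (.e (nat_lit 204809) (nat_lit 9) (.e (nat_lit 426139) (nat_lit 3) (.e (nat_lit 204834) (nat_lit 19) (.e (nat_lit 106517) (nat_lit 9) .nil)))))))) (.g (nat_lit 1) (.e (nat_lit 95683) (nat_lit 0) .nil) .nil))) 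
(.lf (nat_lit 474996) (.g (nat_lit 1339) (.e (nat_lit 1361) (nat_lit 102) (.e (nat_lit 286759) (nat_lit 12) (.e (nat_lit 385093) (nat_lit 49) (.e (nat_lit 778510) (nat_lit 14) .nil)))) (.g (nat_lit 0) (.e (nat_lit 96992) (nat_lit 0) .nil) .nil))))) (.nd (nat_lit 8) (.nd (nat_lit 9) 
(.lf (nat_lit 474356) (.g (nat_lit 2404) (.e (nat_lit 1247) (nat_lit 92) (.e (nat_lit 98333) (nat_lit 18) (.e (nat_lit 164399) (nat_lit 256) (.e (nat_lit 57375) (nat_lit 2) (.e (nat_lit 90172) (nat_lit 14) .nil))))) (.g (nat_lit 0) (.e (nat_lit 95546) (nat_lit 0) .nil) .nil))) 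
(.lf (nat_lit 474868) (.g (nat_lit 1118) (.e (nat_lit 1380) (nat_lit 105) (.e (nat_lit 311342) (nat_lit 13) (.e (nat_lit 483413) (nat_lit 27) (.e (nat_lit 401447) (nat_lit 10) .nil)))) (.g (nat_lit 0) (.e (nat_lit 96589) (nat_lit 0) .nil) .nil)))) (.nd (nat_lit 9) 
(.lf (nat_lit 474612) (.g (nat_lit 2538) (.e (nat_lit 1255) (nat_lit 92) (.e (nat_lit 98335) (nat_lit 18) (.e (nat_lit 164327) (nat_lit 230) (.e (nat_lit 163868) (nat_lit 2) (.e (nat_lit 196654) (nat_lit 11) (.e (nat_lit 16416) (nat_lit 3) (.e (nat_lit 204834) (nat_lit 19) (.e (nat_lit 106517) (nat_lit 9) .nil)))))))) (.g (nat_lit 1) (.e (nat_lit 95855) (nat_lit 0) .nil) .nil))) 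
(.lf (nat_lit 475124) (.g (nat_lit 4101) (.e (nat_lit 1425) (nat_lit 108) (.e (nat_lit 336454) (nat_lit 34) (.e (nat_lit 483365) (nat_lit 18) (.e (nat_lit 57854) (nat_lit 252) .nil)))) (.g (nat_lit 0) (.e (nat_lit 97293) (nat_lit 0) .nil) .nil))))))))) (.nd (nat_lit 4) (.nd (nat_lit 5) (.nd (nat_lit 6) (.nd (nat_lit 7) (.nd (nat_lit 8) (.nd (nat_lit 9) 
(.lf (nat_lit 474124) (.g (nat_lit 1691) (.e (nat_lit 1235) (nat_lit 91) (.e (nat_lit 90170) (nat_lit 13) (.e (nat_lit 172113) (nat_lit 10) (.e (nat_lit 434248) (nat_lit 28) (.e (nat_lit 573470) (nat_lit 11) .nil))))) (.g (nat_lit 0) (.e (nat_lit 95293) (nat_lit 0) .nil) .nil))) 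
(.lf (nat_lit 474636) (.g (nat_lit 5079) (.e (nat_lit 1255) (nat_lit 92) (.e (nat_lit 98384) (nat_lit 32) (.e (nat_lit 475177) (nat_lit 24) (.e (nat_lit 516115) (nat_lit 1) (.e (nat_lit 164327) (nat_lit 230) (.e (nat_lit 163875) (nat_lit 3) (.e (nat_lit 204834) (nat_lit 19) (.e (nat_lit 106517) (nat_lit 9) .nil)))))))) (.g (nat_lit 1) (.e (nat_lit 95908) (nat_lit 0) .nil) .nil)))) 
(.nd (nat_lit 9) 
(.lf (nat_lit 474380) (.g (nat_lit 3209) (.e (nat_lit 1250) (nat_lit 92) (.e (nat_lit 98350) (nat_lit 24) (.e (nat_lit 409645) (nat_lit 18) (.e (nat_lit 303117) (nat_lit 2) (.e (nat_lit 196670) (nat_lit 14) (.e (nat_lit 81664) (nat_lit 40) .nil)))))) (.g (nat_lit 1) (.e (nat_lit 95571) (nat_lit 0) .nil) .nil))) 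
(.lf (nat_lit 474892) (.g (nat_lit 1383) (.e (nat_lit 1386) (nat_lit 105) (.e (nat_lit 311357) (nat_lit 28) (.e (nat_lit 344068) (nat_lit 0) (.e (nat_lit 3090) (nat_lit 191) (.e (nat_lit 483354) (nat_lit 17) (.e (nat_lit 6092) (nat_lit 332) .nil)))))) (.g (nat_lit 1) (.e (nat_lit 96710) (nat_lit 0) .nil) .nil))))) (.nd (nat_lit 8) (.nd (nat_lit 9) 
(.lf (nat_lit 474252) (.g (nat_lit 3552) (.e (nat_lit 1239) (nat_lit 91) (.e (nat_lit 90170) (nat_lit 13) (.e (nat_lit 172113) (nat_lit 10) (.e (nat_lit 434245) (nat_lit 28) (.e (nat_lit 573451) (nat_lit 9) (.e (nat_lit 428) (nat_lit 32) (.e (nat_lit 425984) (nat_lit 0) (.e (nat_lit 7489) (nat_lit 402) .nil)))))))) (.g (nat_lit 1) (.e (nat_lit 95435) (nat_lit 0) .nil) .nil))) 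
(.lf (nat_lit 474764) (.g (nat_lit 1804) (.e (nat_lit 1312) (nat_lit 98) (.e (nat_lit 147496) (nat_lit 11) (.e (nat_lit 24617) (nat_lit 7) (.e (nat_lit 319532) (nat_lit 16) .nil)))) (.g (nat_lit 0) (.e (nat_lit 96165) (nat_lit 0) .nil) .nil)))) (.nd (nat_lit 9) 
(.lf (nat_lit 474508) (.g (nat_lit 2723) (.e (nat_lit 1253) (nat_lit 92) (.e (nat_lit 98349) (nat_lit 24) (.e (nat_lit 409645) (nat_lit 18) (.e (nat_lit 303117) (nat_lit 2) (.e (nat_lit 196670) (nat_lit 14) (.e (nat_lit 73784) (nat_lit 40) .nil)))))) (.g (nat_lit 1) (.e (nat_lit 95723) (nat_lit 0) .nil) .nil))) 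
(.lf (nat_lit 475020) (.g (nat_lit 1408) (.e (nat_lit 1393) (nat_lit 106) (.e (nat_lit 319531) (nat_lit 16) (.e (nat_lit 286733) (nat_lit 2) (.e (nat_lit 98048) (nat_lit 15) .nil)))) (.g (nat_lit 0) (.e (nat_lit 97061) (nat_lit 0) .nil) .nil)))))) (.nd (nat_lit 7) (.nd (nat_lit 8) (.nd (nat_lit 9) 
(.lf (nat_lit 474188) (.g (nat_lit 3456) (.e (nat_lit 1239) (nat_lit 91) (.e (nat_lit 90170) (nat_lit 13) (.e (nat_lit 172106) (nat_lit 10) (.e (nat_lit 434244) (nat_lit 28) (.e (nat_lit 573450) (nat_lit 9) (.e (nat_lit 452) (nat_lit 33) (.e (nat_lit 442112) (nat_lit 0) .nil))))))) (.g (nat_lit 1) (.e (nat_lit 95371) (nat_lit 0) .nil) .nil))) 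
(.lf (nat_lit 474700) (.g (nat_lit 1358) (.e (nat_lit 1256) (nat_lit 92) (.e (nat_lit 98373) (nat_lit 29) (.e (nat_lit 450568) (nat_lit 0) (.e (nat_lit 3978) (nat_lit 239) .nil)))) (.g (nat_lit 0) (.e (nat_lit 95989) (nat_lit 0) .nil) .nil)))) (.nd (nat_lit 9) 
(.lf (nat_lit 474444) (.g (nat_lit 3053) (.e (nat_lit 1251) (nat_lit 92) (.e (nat_lit 98334) (nat_lit 18) (.e (nat_lit 164398) (nat_lit 256) (.e (nat_lit 57372) (nat_lit 2) (.e (nat_lit 90172) (nat_lit 14) .nil))))) (.g (nat_lit 0) (.e (nat_lit 95639) (nat_lit 0) .nil) .nil))) 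
(.lf (nat_lit 474956) (.g (nat_lit 3586) (.e (nat_lit 1354) (nat_lit 102) (.e (nat_lit 286733) (nat_lit 2) (.e (nat_lit 90170) (nat_lit 13) (.e (nat_lit 172106) (nat_lit 10) (.e (nat_lit 434231) (nat_lit 23) .nil))))) (.g (nat_lit 0) (.e (nat_lit 96875) (nat_lit 0) .nil) .nil))))) (.nd (nat_lit 8) (.nd (nat_lit 9) 
(.lf (nat_lit 474316) (.g (nat_lit 3208) (.e (nat_lit 1239) (nat_lit 91) (.e (nat_lit 90170) (nat_lit 13) (.e (nat_lit 172113) (nat_lit 10) (.e (nat_lit 434248) (nat_lit 28) (.e (nat_lit 573457) (nat_lit 9) (.e (nat_lit 359) (nat_lit 30) (.e (nat_lit 409605) (nat_lit 0) (.e (nat_lit 5270) (nat_lit 298) .nil)))))))) (.g (nat_lit 1) (.e (nat_lit 95499) (nat_lit 0) .nil) .nil))) 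
(.lf (nat_lit 474828) (.g (nat_lit 2655) (.e (nat_lit 1376) (nat_lit 104) (.e (nat_lit 303119) (nat_lit 3) (.e (nat_lit 204845) (nat_lit 24) (.e (nat_lit 319538) (nat_lit 19) (.e (nat_lit 311315) (nat_lit 3) .nil))))) (.g (nat_lit 0) (.e (nat_lit 96392) (nat_lit 0) .nil) .nil)))) (.nd (nat_lit 9) 
(.lf (nat_lit 474572) (.g (nat_lit 2135) (.e (nat_lit 1254) (nat_lit 92) (.e (nat_lit 98333) (nat_lit 18) (.e (nat_lit 164399) (nat_lit 256) (.e (nat_lit 57372) (nat_lit 2) (.e (nat_lit 90172) (nat_lit 14) .nil))))) (.g (nat_lit 0) (.e (nat_lit 95795) (nat_lit 0) .nil) .nil))) 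
(.lf (nat_lit 475084) (.g (nat_lit 1755) (.e (nat_lit 1422) (nat_lit 108) (.e (nat_lit 336324) (nat_lit 18) (.e (nat_lit 204854) (nat_lit 26) (.e (nat_lit 336324) (nat_lit 18) .nil)))) (.g (nat_lit 0) (.e (nat_lit 97215) (nat_lit 0) .nil) .nil))))))) (.nd (nat_lit 6) (.nd (nat_lit 7) (.nd (nat_lit 8) (.nd (nat_lit 9) 
(.lf (nat_lit 474156) (.g (nat_lit 2530) (.e (nat_lit 1238) (nat_lit 91) (.e (nat_lit 90172) (nat_lit 14) (.e (nat_lit 180250) (nat_lit 10) (.e (nat_lit 573488) (nat_lit 14) (.e (nat_lit 73754) (nat_lit 8) .nil))))) (.g (nat_lit 0) (.e (nat_lit 95333) (nat_lit 0) .nil) .nil))) 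
(.lf (nat_lit 474668) (.g (nat_lit 3567) (.e (nat_lit 1256) (nat_lit 92) (.e (nat_lit 98350) (nat_lit 24) (.e (nat_lit 409645) (nat_lit 18) (.e (nat_lit 303117) (nat_lit 2) (.e (nat_lit 196668) (nat_lit 14) (.e (nat_lit 81664) (nat_lit 40) .nil)))))) (.g (nat_lit 1) (.e (nat_lit 95951) (nat_lit 0) .nil) .nil)))) (.nd (nat_lit 9) 
(.lf (nat_lit 474412) (.g (nat_lit 2904) (.e (nat_lit 1250) (nat_lit 92) (.e (nat_lit 98372) (nat_lit 29) (.e (nat_lit 450588) (nat_lit 10) (.e (nat_lit 573452) (nat_lit 9) (.e (nat_lit 7936) (nat_lit 30) .nil))))) (.g (nat_lit 0) (.e (nat_lit 95605) (nat_lit 0) .nil) .nil))) 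
(.lf (nat_lit 474924) (.g (nat_lit 3409) (.e (nat_lit 1348) (nat_lit 102) (.e (nat_lit 286735) (nat_lit 3) (.e (nat_lit 98360) (nat_lit 26) (.e (nat_lit 426340) (nat_lit 14) (.e (nat_lit 491537) (nat_lit 2) (.e (nat_lit 90133) (nat_lit 9) (.e (nat_lit 2400) (nat_lit 157) (.e (nat_lit 7064) (nat_lit 377) .nil)))))))) (.g (nat_lit 1) (.e (nat_lit 96787) (nat_lit 0) .nil) .nil))))) 
(.nd (nat_lit 8) (.nd (nat_lit 9) 
(.lf (nat_lit 474284) (.g (nat_lit 3001) (.e (nat_lit 1239) (nat_lit 91) (.e (nat_lit 90170) (nat_lit 13) (.e (nat_lit 172113) (nat_lit 10) (.e (nat_lit 434247) (nat_lit 28) (.e (nat_lit 573457) (nat_lit 9) (.e (nat_lit 428) (nat_lit 32) (.e (nat_lit 425989) (nat_lit 0) (.e (nat_lit 7489) (nat_lit 402) .nil)))))))) (.g (nat_lit 1) (.e (nat_lit 95467) (nat_lit 0) .nil) .nil))) 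
(.lf (nat_lit 474796) (.g (nat_lit 3526) (.e (nat_lit 1374) (nat_lit 104) (.e (nat_lit 303119) (nat_lit 3) (.e (nat_lit 204846) (nat_lit 24) (.e (nat_lit 319532) (nat_lit 16) (.e (nat_lit 286735) (nat_lit 3) (.e (nat_lit 98325) (nat_lit 17) (.e (nat_lit 6986) (nat_lit 377) .nil))))))) (.g (nat_lit 1) (.e (nat_lit 96284) (nat_lit 0) .nil) .nil)))) (.nd (nat_lit 9) 
(.lf (nat_lit 474540) (.g (nat_lit 3803) (.e (nat_lit 1253) (nat_lit 92) (.e (nat_lit 98373) (nat_lit 29) (.e (nat_lit 450587) (nat_lit 10) (.e (nat_lit 573449) (nat_lit 9) (.e (nat_lit 449) (nat_lit 33) (.e (nat_lit 434181) (nat_lit 0) .nil)))))) (.g (nat_lit 1) (.e (nat_lit 95761) (nat_lit 0) .nil) .nil))) 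
(.lf (nat_lit 475052) (.g (nat_lit 2748) (.e (nat_lit 1400) (nat_lit 106) (.e (nat_lit 319533) (nat_lit 16) (.e (nat_lit 286733) (nat_lit 2) (.e (nat_lit 90128) (nat_lit 9) (.e (nat_lit 3044) (nat_lit 189) (.e (nat_lit 466977) (nat_lit 22) (.e (nat_lit 196626) (nat_lit 9) .nil))))))) (.g (nat_lit 1) (.e (nat_lit 97146) (nat_lit 0) .nil) .nil)))))) 
(.nd (nat_lit 7) (.nd (nat_lit 8) (.nd (nat_lit 9) 
(.lf (nat_lit 474220) (.g (nat_lit 2174) (.e (nat_lit 1239) (nat_lit 91) (.e (nat_lit 90170) (nat_lit 13) (.e (nat_lit 172113) (nat_lit 10) (.e (nat_lit 434203) (nat_lit 18) (.e (nat_lit 3919) (nat_lit 239) (.e (nat_lit 2635) (nat_lit 165) (.e (nat_lit 188160) (nat_lit 32) .nil))))))) (.g (nat_lit 1) (.e (nat_lit 95403) (nat_lit 0) .nil) .nil))) 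
(.lf (nat_lit 474732) (.g (nat_lit 2776) (.e (nat_lit 1265) (nat_lit 93) (.e (nat_lit 106534) (nat_lit 11) (.e (nat_lit 16425) (nat_lit 7) (.e (nat_lit 409648) (nat_lit 18) (.e (nat_lit 303137) (nat_lit 10) .nil))))) (.g (nat_lit 0) (.e (nat_lit 96025) (nat_lit 0) .nil) .nil)))) (.nd (nat_lit 9) 
(.lf (nat_lit 474476) (.g (nat_lit 3186) (.e (nat_lit 1252) (nat_lit 92) (.e (nat_lit 98334) (nat_lit 18) (.e (nat_lit 164398) (nat_lit 256) (.e (nat_lit 57374) (nat_lit 2) (.e (nat_lit 90174) (nat_lit 14) .nil))))) (.g (nat_lit 0) (.e (nat_lit 95675) (nat_lit 0) .nil) .nil))) 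
(.lf (nat_lit 474988) (.g (nat_lit 3008) (.e (nat_lit 1361) (nat_lit 102) (.e (nat_lit 286733) (nat_lit 2) (.e (nat_lit 90170) (nat_lit 13) (.e (nat_lit 172115) (nat_lit 10) (.e (nat_lit 434231) (nat_lit 23) .nil))))) (.g (nat_lit 0) (.e (nat_lit 96981) (nat_lit 0) .nil) .nil))))) (.nd (nat_lit 8) (.nd (nat_lit 9) 
(.lf (nat_lit 474348) (.g (nat_lit 2095) (.e (nat_lit 1246) (nat_lit 92) (.e (nat_lit 98372) (nat_lit 29) (.e (nat_lit 450579) (nat_lit 5) (.e (nat_lit 532523) (nat_lit 7) .nil)))) (.g (nat_lit 0) (.e (nat_lit 95538) (nat_lit 0) .nil) .nil))) 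
(.lf (nat_lit 474860) (.g (nat_lit 2327) (.e (nat_lit 1378) (nat_lit 104) (.e (nat_lit 303154) (nat_lit 28) (.e (nat_lit 344069) (nat_lit 0) (.e (nat_lit 3090) (nat_lit 191) (.e (nat_lit 483350) (nat_lit 17) (.e (nat_lit 6097) (nat_lit 332) .nil)))))) (.g (nat_lit 1) (.e (nat_lit 96506) (nat_lit 0) .nil) .nil)))) (.nd (nat_lit 9) 
(.lf (nat_lit 474604) (.g (nat_lit 2606) (.e (nat_lit 1255) (nat_lit 92) (.e (nat_lit 98333) (nat_lit 18) (.e (nat_lit 164398) (nat_lit 256) (.e (nat_lit 57371) (nat_lit 2) (.e (nat_lit 90174) (nat_lit 14) .nil))))) (.g (nat_lit 0) (.e (nat_lit 95837) (nat_lit 0) .nil) .nil))) 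
(.lf (nat_lit 475116) (.g (nat_lit 1943) (.e (nat_lit 1425) (nat_lit 108) (.e (nat_lit 336430) (nat_lit 29) (.e (nat_lit 442421) (nat_lit 21) (.e (nat_lit 164345) (nat_lit 240) (.e (nat_lit 2638) (nat_lit 165) (.e (nat_lit 180277) (nat_lit 32) .nil)))))) (.g (nat_lit 1) (.e (nat_lit 97277) (nat_lit 0) .nil) .nil)))))))) 
(.nd (nat_lit 5) (.nd (nat_lit 6) (.nd (nat_lit 7) (.nd (nat_lit 8) (.nd (nat_lit 9) 
(.lf (nat_lit 474140) (.g (nat_lit 3168) (.e (nat_lit 1237) (nat_lit 91) (.e (nat_lit 90170) (nat_lit 13) (.e (nat_lit 172106) (nat_lit 10) (.e (nat_lit 434234) (nat_lit 23) .nil)))) (.g (nat_lit 0) (.e (nat_lit 95316) (nat_lit 0) .nil) .nil))) 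
(.lf (nat_lit 474652) (.g (nat_lit 2404) (.e (nat_lit 1256) (nat_lit 92) (.e (nat_lit 98333) (nat_lit 18) (.e (nat_lit 164399) (nat_lit 256) (.e (nat_lit 57375) (nat_lit 2) (.e (nat_lit 90172) (nat_lit 14) .nil))))) (.g (nat_lit 0) (.e (nat_lit 95931) (nat_lit 0) .nil) .nil)))) (.nd (nat_lit 9) 
(.lf (nat_lit 474396) (.g (nat_lit 5361) (.e (nat_lit 1250) (nat_lit 92) (.e (nat_lit 98366) (nat_lit 27) (.e (nat_lit 434244) (nat_lit 28) (.e (nat_lit 573451) (nat_lit 9) (.e (nat_lit 1449) (nat_lit 108) (.e (nat_lit 336013) (nat_lit 2) (.e (nat_lit 90189) (nat_lit 18) (.e (nat_lit 2579) (nat_lit 161) (.e (nat_lit 40963) (nat_lit 0) .nil))))))))) (.g (nat_lit 1) (.e (nat_lit 95587) (nat_lit 0) .nil) .nil))) 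
(.lf (nat_lit 474908) (.g (nat_lit 1237) (.e (nat_lit 1346) (nat_lit 102) (.e (nat_lit 286759) (nat_lit 12) (.e (nat_lit 385074) (nat_lit 31) (.e (nat_lit 573484) (nat_lit 13) .nil)))) (.g (nat_lit 0) (.e (nat_lit 96737) (nat_lit 0) .nil) .nil))))) (.nd (nat_lit 8) (.nd (nat_lit 9) 
(.lf (nat_lit 474268) (.g (nat_lit 3398) (.e (nat_lit 1239) (nat_lit 91) (.e (nat_lit 90170) (nat_lit 13) (.e (nat_lit 172113) (nat_lit 10) (.e (nat_lit 434247) (nat_lit 28) (.e (nat_lit 573456) (nat_lit 9) (.e (nat_lit 365) (nat_lit 31) (.e (nat_lit 417795) (nat_lit 0) (.e (nat_lit 5258) (nat_lit 298) .nil)))))))) (.g (nat_lit 1) (.e (nat_lit 95451) (nat_lit 0) .nil) .nil))) 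
(.lf (nat_lit 474780) (.g (nat_lit 2414) (.e (nat_lit 1374) (nat_lit 104) (.e (nat_lit 303119) (nat_lit 3) (.e (nat_lit 204845) (nat_lit 24) (.e (nat_lit 319538) (nat_lit 19) (.e (nat_lit 311314) (nat_lit 3) (.e (nat_lit 212736) (nat_lit 17) (.e (nat_lit 6113) (nat_lit 332) .nil))))))) (.g (nat_lit 1) (.e (nat_lit 96259) (nat_lit 0) .nil) .nil)))) (.nd (nat_lit 9) 
(.lf (nat_lit 474524) (.g (nat_lit 1497) (.e (nat_lit 1253) (nat_lit 92) (.e (nat_lit 98370) (nat_lit 28) (.e (nat_lit 442430) (nat_lit 24) (.e (nat_lit 237312) (nat_lit 134) .nil)))) (.g (nat_lit 0) (.e (nat_lit 95745) (nat_lit 0) .nil) .nil))) 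
(.lf (nat_lit 475036) (.g (nat_lit 2085) (.e (nat_lit 1401) (nat_lit 106) (.e (nat_lit 319531) (nat_lit 16) (.e (nat_lit 286733) (nat_lit 2) (.e (nat_lit 90128) (nat_lit 9) (.e (nat_lit 3044) (nat_lit 189) .nil))))) (.g (nat_lit 0) (.e (nat_lit 97116) (nat_lit 0) .nil) .nil)))))) (.nd (nat_lit 7) (.nd (nat_lit 8) (.nd (nat_lit 9) 
(.lf (nat_lit 474204) (.g (nat_lit 2691) (.e (nat_lit 1239) (nat_lit 91) (.e (nat_lit 90170) (nat_lit 13) (.e (nat_lit 172106) (nat_lit 10) (.e (nat_lit 434244) (nat_lit 28) (.e (nat_lit 573451) (nat_lit 9) (.e (nat_lit 7936) (nat_lit 32) (.e (nat_lit 425984) (nat_lit 0) (.e (nat_lit 7489) (nat_lit 402) .nil)))))))) (.g (nat_lit 1) (.e (nat_lit 95387) (nat_lit 0) .nil) .nil))) 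
(.lf (nat_lit 474716) (.g (nat_lit 2817) (.e (nat_lit 1256) (nat_lit 92) (.e (nat_lit 98373) (nat_lit 29) (.e (nat_lit 450588) (nat_lit 10) (.e (nat_lit 573452) (nat_lit 9) (.e (nat_lit 359) (nat_lit 30) (.e (nat_lit 409603) (nat_lit 0) (.e (nat_lit 5245) (nat_lit 298) .nil))))))) (.g (nat_lit 1) (.e (nat_lit 96005) (nat_lit 0) .nil) .nil)))) (.nd (nat_lit 9) 
(.lf (nat_lit 474460) (.g (nat_lit 2206) (.e (nat_lit 1252) (nat_lit 92) (.e (nat_lit 98333) (nat_lit 18) (.e (nat_lit 164398) (nat_lit 256) (.e (nat_lit 57375) (nat_lit 2) (.e (nat_lit 90174) (nat_lit 14) .nil))))) (.g (nat_lit 0) (.e (nat_lit 95658) (nat_lit 0) .nil) .nil))) 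
(.lf (nat_lit 474972) (.g (nat_lit 2463) (.e (nat_lit 1359) (nat_lit 102) (.e (nat_lit 286733) (nat_lit 2) (.e (nat_lit 90170) (nat_lit 13) (.e (nat_lit 172092) (nat_lit 9) .nil)))) (.g (nat_lit 0) (.e (nat_lit 96919) (nat_lit 0) .nil) .nil))))) (.nd (nat_lit 8) (.nd (nat_lit 9) 
(.lf (nat_lit 474332) (.g (nat_lit 3185) (.e (nat_lit 7936) (nat_lit 91) (.e (nat_lit 90170) (nat_lit 13) (.e (nat_lit 172106) (nat_lit 10) (.e (nat_lit 434231) (nat_lit 23) (.e (nat_lit 532482) (nat_lit 0) .nil))))) (.g (nat_lit 0) (.e (nat_lit 95522) (nat_lit 0) .nil) .nil))) 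
(.lf (nat_lit 474844) (.g (nat_lit 2284) (.e (nat_lit 1376) (nat_lit 104) (.e (nat_lit 303119) (nat_lit 3) (.e (nat_lit 204846) (nat_lit 24) (.e (nat_lit 319534) (nat_lit 16) (.e (nat_lit 286735) (nat_lit 3) .nil))))) (.g (nat_lit 0) (.e (nat_lit 96418) (nat_lit 0) .nil) .nil)))) (.nd (nat_lit 9) 
(.lf (nat_lit 474588) (.g (nat_lit 2645) (.e (nat_lit 1254) (nat_lit 92) (.e (nat_lit 98334) (nat_lit 18) (.e (nat_lit 164398) (nat_lit 256) (.e (nat_lit 57375) (nat_lit 2) (.e (nat_lit 90172) (nat_lit 14) .nil))))) (.g (nat_lit 0) (.e (nat_lit 95811) (nat_lit 0) .nil) .nil))) 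
(.lf (nat_lit 475100) (.g (nat_lit 2197) (.e (nat_lit 1425) (nat_lit 108) (.e (nat_lit 336019) (nat_lit 3) (.e (nat_lit 98389) (nat_lit 33) (.e (nat_lit 491560) (nat_lit 10) (.e (nat_lit 344118) (nat_lit 21) .nil))))) (.g (nat_lit 0) (.e (nat_lit 97246) (nat_lit 0) .nil) .nil))))))) (.nd (nat_lit 6) (.nd (nat_lit 7) (.nd (nat_lit 8) (.nd (nat_lit 9) 
(.lf (nat_lit 474172) (.g (nat_lit 1800) (.e (nat_lit 1239) (nat_lit 91) (.e (nat_lit 90170) (nat_lit 13) (.e (nat_lit 172106) (nat_lit 10) (.e (nat_lit 434231) (nat_lit 23) (.e (nat_lit 532522) (nat_lit 7) .nil))))) (.g (nat_lit 0) (.e (nat_lit 95355) (nat_lit 0) .nil) .nil))) 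
(.lf (nat_lit 474684) (.g (nat_lit 668) (.e (nat_lit 1256) (nat_lit 92) (.e (nat_lit 98367) (nat_lit 27) (.e (nat_lit 442112) (nat_lit 3) .nil))) (.g (nat_lit 0) (.e (nat_lit 95972) (nat_lit 0) .nil) .nil)))) (.nd (nat_lit 9) 
(.lf (nat_lit 474428) (.g (nat_lit 3166) (.e (nat_lit 1250) (nat_lit 92) (.e (nat_lit 98373) (nat_lit 29) (.e (nat_lit 450588) (nat_lit 10) (.e (nat_lit 573448) (nat_lit 9) .nil)))) (.g (nat_lit 0) (.e (nat_lit 95621) (nat_lit 0) .nil) .nil))) 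
(.lf (nat_lit 474940) (.g (nat_lit 2210) (.e (nat_lit 1349) (nat_lit 102) (.e (nat_lit 286735) (nat_lit 3) (.e (nat_lit 98350) (nat_lit 24) (.e (nat_lit 417536) (nat_lit 6) (.e (nat_lit 286733) (nat_lit 2) (.e (nat_lit 90133) (nat_lit 9) (.e (nat_lit 2397) (nat_lit 157) (.e (nat_lit 7064) (nat_lit 377) .nil)))))))) (.g (nat_lit 1) (.e (nat_lit 96836) (nat_lit 0) .nil) .nil))))) 
(.nd (nat_lit 8) (.nd (nat_lit 9) 
(.lf (nat_lit 474300) (.g (nat_lit 3509) (.e (nat_lit 1239) (nat_lit 91) (.e (nat_lit 90170) (nat_lit 13) (.e (nat_lit 172113) (nat_lit 10) (.e (nat_lit 434248) (nat_lit 28) (.e (nat_lit 573451) (nat_lit 9) (.e (nat_lit 359) (nat_lit 30) (.e (nat_lit 409603) (nat_lit 0) (.e (nat_lit 5270) (nat_lit 298) .nil)))))))) (.g (nat_lit 1) (.e (nat_lit 95483) (nat_lit 0) .nil) .nil))) 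
(.lf (nat_lit 474812) (.g (nat_lit 2355) (.e (nat_lit 1374) (nat_lit 104) (.e (nat_lit 303143) (nat_lit 12) (.e (nat_lit 475185) (nat_lit 29) (.e (nat_lit 557105) (nat_lit 14) .nil)))) (.g (nat_lit 0) (.e (nat_lit 96300) (nat_lit 0) .nil) .nil)))) (.nd (nat_lit 9) 
(.lf (nat_lit 474556) (.g (nat_lit 5108) (.e (nat_lit 1253) (nat_lit 92) (.e (nat_lit 98373) (nat_lit 29) (.e (nat_lit 450588) (nat_lit 10) (.e (nat_lit 573454) (nat_lit 9) (.e (nat_lit 441) (nat_lit 33) (.e (nat_lit 434181) (nat_lit 0) .nil)))))) (.g (nat_lit 1) (.e (nat_lit 95777) (nat_lit 0) .nil) .nil))) 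
(.lf (nat_lit 475068) (.g (nat_lit 1724) (.e (nat_lit 1413) (nat_lit 108) (.e (nat_lit 336456) (nat_lit 34) (.e (nat_lit 483383) (nat_lit 23) (.e (nat_lit 336019) (nat_lit 3) .nil)))) (.g (nat_lit 0) (.e (nat_lit 97178) (nat_lit 0) .nil) .nil)))))) (.nd (nat_lit 7) (.nd (nat_lit 8) (.nd (nat_lit 9) 
(.lf (nat_lit 474236) (.g (nat_lit 2196) (.e (nat_lit 1239) (nat_lit 91) (.e (nat_lit 90170) (nat_lit 13) (.e (nat_lit 172113) (nat_lit 10) (.e (nat_lit 434242) (nat_lit 28) (.e (nat_lit 573456) (nat_lit 9) (.e (nat_lit 430) (nat_lit 32) (.e (nat_lit 426012) (nat_lit 0) (.e (nat_lit 7490) (nat_lit 402) .nil)))))))) (.g (nat_lit 1) (.e (nat_lit 95419) (nat_lit 0) .nil) .nil))) 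
(.lf (nat_lit 474748) (.g (nat_lit 1558) (.e (nat_lit 1278) (nat_lit 94) (.e (nat_lit 114698) (nat_lit 11) (.e (nat_lit 426139) (nat_lit 3) .nil))) (.g (nat_lit 0) (.e (nat_lit 96063) (nat_lit 0) .nil) .nil)))) (.nd (nat_lit 9) 
(.lf (nat_lit 474492) (.g (nat_lit 3480) (.e (nat_lit 1252) (nat_lit 92) (.e (nat_lit 98367) (nat_lit 27) (.e (nat_lit 434244) (nat_lit 28) (.e (nat_lit 573451) (nat_lit 9) (.e (nat_lit 1449) (nat_lit 108) (.e (nat_lit 336013) (nat_lit 2) (.e (nat_lit 90189) (nat_lit 18) (.e (nat_lit 2579) (nat_lit 161) (.e (nat_lit 40967) (nat_lit 0) .nil))))))))) (.g (nat_lit 1) (.e (nat_lit 95696) (nat_lit 0) .nil) .nil))) 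
(.lf (nat_lit 475004) (.g (nat_lit 2483) (.e (nat_lit 1363) (nat_lit 102) (.e (nat_lit 286759) (nat_lit 12) (.e (nat_lit 385074) (nat_lit 31) (.e (nat_lit 573493) (nat_lit 15) .nil)))) (.g (nat_lit 0) (.e (nat_lit 97001) (nat_lit 0) .nil) .nil))))) (.nd (nat_lit 8) (.nd (nat_lit 9) 
(.lf (nat_lit 474364) (.g (nat_lit 3178) (.e (nat_lit 1250) (nat_lit 92) (.e (nat_lit 98323) (nat_lit 17) (.e (nat_lit 6989) (nat_lit 377) (.e (nat_lit 2810) (nat_lit 180) (.e (nat_lit 303119) (nat_lit 3) (.e (nat_lit 204846) (nat_lit 24) (.e (nat_lit 319490) (nat_lit 0) (.e (nat_lit 5293) (nat_lit 298) .nil)))))))) (.g (nat_lit 1) (.e (nat_lit 95555) (nat_lit 0) .nil) .nil))) 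
(.lf (nat_lit 474876) (.g (nat_lit 2460) (.e (nat_lit 1380) (nat_lit 105) (.e (nat_lit 311344) (nat_lit 13) (.e (nat_lit 483372) (nat_lit 21) (.e (nat_lit 319534) (nat_lit 16) (.e (nat_lit 286728) (nat_lit 0) .nil))))) (.g (nat_lit 0) (.e (nat_lit 96622) (nat_lit 0) .nil) .nil)))) (.nd (nat_lit 9) 
(.lf (nat_lit 474620) (.g (nat_lit 2511) (.e (nat_lit 1255) (nat_lit 92) (.e (nat_lit 98356) (nat_lit 26) (.e (nat_lit 426438) (nat_lit 18) (.e (nat_lit 98334) (nat_lit 18) (.e (nat_lit 164305) (nat_lit 226) (.e (nat_lit 2612) (nat_lit 163) (.e (nat_lit 163964) (nat_lit 25) (.e (nat_lit 532508) (nat_lit 2) (.e (nat_lit 106517) (nat_lit 9) .nil))))))))) (.g (nat_lit 1) (.e (nat_lit 95873) (nat_lit 0) .nil) .nil))) 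
(.lf (nat_lit 475132) (.g (nat_lit 1595) (.e (nat_lit 1426) (nat_lit 108) (.e (nat_lit 336421) (nat_lit 28) (.e (nat_lit 434187) (nat_lit 13) (.e (nat_lit 2777) (nat_lit 178) (.e (nat_lit 286770) (nat_lit 28) (.e (nat_lit 434181) (nat_lit 0) .nil)))))) (.g (nat_lit 1) (.e (nat_lit 97310) (nat_lit 0) .nil) .nil))))))))))) 
(.nd (nat_lit 2) (.nd (nat_lit 3) (.nd (nat_lit 4) (.nd (nat_lit 5) (.nd (nat_lit 6) 
(.nd (nat_lit 7) (.nd (nat_lit 8) (.nd (nat_lit 9) 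
(.lf (nat_lit 474114) (.g (nat_lit 1907) (.e (nat_lit 1235) (nat_lit 91) (.e (nat_lit 90170) (nat_lit 13) (.e (nat_lit 172113) (nat_lit 10) (.e (nat_lit 434245) (nat_lit 28) (.e (nat_lit 573449) (nat_lit 9) (.e (nat_lit 442) (nat_lit 33) (.e (nat_lit 434181) (nat_lit 0) .nil))))))) (.g (nat_lit 1) (.e (nat_lit 95283) (nat_lit 0) .nil) .nil))) 
(.lf (nat_lit 474626) (.g (nat_lit 2277) (.e (nat_lit 1255) (nat_lit 92) (.e (nat_lit 98367) (nat_lit 27) (.e (nat_lit 434231) (nat_lit 23) (.e (nat_lit 532499) (nat_lit 1) (.e (nat_lit 57692) (nat_lit 156) (.e (nat_lit 163874) (nat_lit 3) (.e (nat_lit 204834) (nat_lit 19) (.e (nat_lit 106517) (nat_lit 9) .nil)))))))) (.g (nat_lit 1) (.e (nat_lit 95879) (nat_lit 0) .nil) .nil)))) (.nd (nat_lit 9) 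
(.lf (nat_lit 474370) (.g (nat_lit 2927) (.e (nat_lit 1250) (nat_lit 92) (.e (nat_lit 98349) (nat_lit 24) (.e (nat_lit 409646) (nat_lit 18) (.e (nat_lit 303117) (nat_lit 2) (.e (nat_lit 196670) (nat_lit 14) .nil))))) (.g (nat_lit 0) (.e (nat_lit 95561) (nat_lit 0) .nil) .nil))) 
(.lf (nat_lit 474882) (.g (nat_lit 2100) (.e (nat_lit 1385) (nat_lit 105) (.e (nat_lit 311343) (nat_lit 13) (.e (nat_lit 483337) (nat_lit 9) (.e (nat_lit 426107) (nat_lit 1) (.e (nat_lit 164347) (nat_lit 240) (.e (nat_lit 2599) (nat_lit 163) (.e (nat_lit 163950) (nat_lit 21) (.e (nat_lit 499725) (nat_lit 0) .nil)))))))) (.g (nat_lit 1) (.e (nat_lit 96664) (nat_lit 0) .nil) .nil))))) 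
(.nd (nat_lit 8) (.nd (nat_lit 9) 
(.lf (nat_lit 474242) (.g (nat_lit 3793) (.e (nat_lit 1239) (nat_lit 91) (.e (nat_lit 90170) (nat_lit 13) (.e (nat_lit 172113) (nat_lit 10) (.e (nat_lit 434245) (nat_lit 28) (.e (nat_lit 573450) (nat_lit 9) (.e (nat_lit 433) (nat_lit 32) (.e (nat_lit 425984) (nat_lit 0) (.e (nat_lit 7489) (nat_lit 402) .nil)))))))) (.g (nat_lit 1) (.e (nat_lit 95425) (nat_lit 0) .nil) .nil))) 
(.lf (nat_lit 474754) (.g (nat_lit 2373) (.e (nat_lit 1310) (nat_lit 98) (.e (nat_lit 147495) (nat_lit 11) (.e (nat_lit 24604) (nat_lit 2) (.e (nat_lit 90170) (nat_lit 13) (.e (nat_lit 172106) (nat_lit 10) (.e (nat_lit 434244) (nat_lit 28) (.e (nat_lit 573449) (nat_lit 9) .nil))))))) (.g (nat_lit 1) (.e (nat_lit 96154) (nat_lit 0) .nil) .nil)))) (.nd (nat_lit 9) 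
(.lf (nat_lit 474498) (.g (nat_lit 2866) (.e (nat_lit 1252) (nat_lit 92) (.e (nat_lit 98373) (nat_lit 29) (.e (nat_lit 450587) (nat_lit 10) (.e (nat_lit 573454) (nat_lit 9) (.e (nat_lit 7936) (nat_lit 33) (.e (nat_lit 434181) (nat_lit 0) .nil)))))) (.g (nat_lit 1) (.e (nat_lit 95705) (nat_lit 0) .nil) .nil))) 
(.lf (nat_lit 475010) (.g (nat_lit 1412) (.e (nat_lit 1367) (nat_lit 103) (.e (nat_lit 294927) (nat_lit 2) (.e (nat_lit 90170) (nat_lit 13) (.e (nat_lit 172115) (nat_lit 10) .nil)))) (.g (nat_lit 0) (.e (nat_lit 97017) (nat_lit 0) .nil) .nil)))))) (.nd (nat_lit 7) (.nd (nat_lit 8) (.nd (nat_lit 9) 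
(.lf (nat_lit 474178) (.g (nat_lit 2132) (.e (nat_lit 1239) (nat_lit 91) (.e (nat_lit 90170) (nat_lit 13) (.e (nat_lit 172106) (nat_lit 10) (.e (nat_lit 434231) (nat_lit 23) (.e (nat_lit 532535) (nat_lit 9) (.e (nat_lit 336295) (nat_lit 15) (.e (nat_lit 2416) (nat_lit 157) (.e (nat_lit 6854) (nat_lit 371) (.e (nat_lit 999) (nat_lit 81) .nil))))))))) (.g (nat_lit 1) (.e (nat_lit 95361) (nat_lit 0) .nil) .nil))) 
(.lf (nat_lit 474690) (.g (nat_lit 1303) (.e (nat_lit 1256) (nat_lit 92) (.e (nat_lit 98369) (nat_lit 28) (.e (nat_lit 442380) (nat_lit 6) (.e (nat_lit 123028) (nat_lit 128) (.e (nat_lit 2638) (nat_lit 165) (.e (nat_lit 188160) (nat_lit 32) .nil)))))) (.g (nat_lit 1) (.e (nat_lit 95979) (nat_lit 0) .nil) .nil)))) (.nd (nat_lit 9) 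
(.lf (nat_lit 474434) (.g (nat_lit 1415) (.e (nat_lit 1250) (nat_lit 92) (.e (nat_lit 98373) (nat_lit 29) (.e (nat_lit 450588) (nat_lit 10) (.e (nat_lit 573471) (nat_lit 11) .nil)))) (.g (nat_lit 0) (.e (nat_lit 95627) (nat_lit 0) .nil) .nil))) 
(.lf (nat_lit 474946) (.g (nat_lit 4024) (.e (nat_lit 1349) (nat_lit 102) (.e (nat_lit 286735) (nat_lit 3) (.e (nat_lit 98360) (nat_lit 26) (.e (nat_lit 426340) (nat_lit 14) (.e (nat_lit 491537) (nat_lit 2) (.e (nat_lit 90133) (nat_lit 9) (.e (nat_lit 2397) (nat_lit 157) (.e (nat_lit 7064) (nat_lit 377) .nil)))))))) (.g (nat_lit 1) (.e (nat_lit 96842) (nat_lit 0) .nil) .nil))))) 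
(.nd (nat_lit 8) (.nd (nat_lit 9) 
(.lf (nat_lit 474306) (.g (nat_lit 3675) (.e (nat_lit 1239) (nat_lit 91) (.e (nat_lit 90170) (nat_lit 13) (.e (nat_lit 172113) (nat_lit 10) (.e (nat_lit 434248) (nat_lit 28) (.e (nat_lit 573452) (nat_lit 9) (.e (nat_lit 365) (nat_lit 31) (.e (nat_lit 417796) (nat_lit 0) (.e (nat_lit 5258) (nat_lit 298) .nil)))))))) (.g (nat_lit 1) (.e (nat_lit 95489) (nat_lit 0) .nil) .nil))) 
(.lf (nat_lit 474818) (.g (nat_lit 1868) (.e (nat_lit 1374) (nat_lit 104) (.e (nat_lit 303154) (nat_lit 28) (.e (nat_lit 344069) (nat_lit 0) (.e (nat_lit 3090) (nat_lit 191) (.e (nat_lit 483354) (nat_lit 17) (.e (nat_lit 6092) (nat_lit 332) .nil)))))) (.g (nat_lit 1) (.e (nat_lit 96341) (nat_lit 0) .nil) .nil)))) (.nd (nat_lit 9) 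
(.lf (nat_lit 474562) (.g (nat_lit 1219) (.e (nat_lit 1254) (nat_lit 92) (.e (nat_lit 98333) (nat_lit 18) (.e (nat_lit 164325) (nat_lit 230) .nil))) (.g (nat_lit 0) (.e (nat_lit 95784) (nat_lit 0) .nil) .nil))) 
(.lf (nat_lit 475074) (.g (nat_lit 820) (.e (nat_lit 1416) (nat_lit 108) (.e (nat_lit 336326) (nat_lit 18) (.e (nat_lit 204876) (nat_lit 31) (.e (nat_lit 376842) (nat_lit 11) .nil)))) (.g (nat_lit 0) (.e (nat_lit 97191) (nat_lit 0) .nil) .nil))))))) (.nd (nat_lit 6) (.nd (nat_lit 7) (.nd (nat_lit 8) (.nd (nat_lit 9) 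
(.lf (nat_lit 474146) (.g (nat_lit 2713) (.e (nat_lit 1237) (nat_lit 91) (.e (nat_lit 90170) (nat_lit 13) (.e (nat_lit 172106) (nat_lit 10) (.e (nat_lit 434244) (nat_lit 28) (.e (nat_lit 573451) (nat_lit 9) (.e (nat_lit 7936) (nat_lit 33) (.e (nat_lit 442112) (nat_lit 0) .nil))))))) (.g (nat_lit 1) (.e (nat_lit 95322) (nat_lit 0) .nil) .nil))) 
(.lf (nat_lit 474658) (.g (nat_lit 2391) (.e (nat_lit 1256) (nat_lit 92) (.e (nat_lit 98334) (nat_lit 18) (.e (nat_lit 164398) (nat_lit 256) (.e (nat_lit 57373) (nat_lit 2) (.e (nat_lit 90174) (nat_lit 14) .nil))))) (.g (nat_lit 0) (.e (nat_lit 95937) (nat_lit 0) .nil) .nil)))) (.nd (nat_lit 9) 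
(.lf (nat_lit 474402) (.g (nat_lit 2043) (.e (nat_lit 1250) (nat_lit 92) (.e (nat_lit 98368) (nat_lit 27) (.e (nat_lit 434245) (nat_lit 28) (.e (nat_lit 573481) (nat_lit 13) (.e (nat_lit 65568) (nat_lit 2) (.e (nat_lit 90189) (nat_lit 18) (.e (nat_lit 2579) (nat_lit 161) (.e (nat_lit 40963) (nat_lit 0) .nil)))))))) (.g (nat_lit 1) (.e (nat_lit 95595) (nat_lit 0) .nil) .nil))) 
(.lf (nat_lit 474914) (.g (nat_lit 651) (.e (nat_lit 1347) (nat_lit 102) (.e (nat_lit 286733) (nat_lit 2) (.e (nat_lit 90177) (nat_lit 15) .nil))) (.g (nat_lit 0) (.e (nat_lit 96745) (nat_lit 0) .nil) .nil))))) (.nd (nat_lit 8) (.nd (nat_lit 9) 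
(.lf (nat_lit 474274) (.g (nat_lit 3443) (.e (nat_lit 1239) (nat_lit 91) (.e (nat_lit 90170) (nat_lit 13) (.e (nat_lit 172113) (nat_lit 10) (.e (nat_lit 434247) (nat_lit 28) (.e (nat_lit 573456) (nat_lit 9) (.e (nat_lit 430) (nat_lit 32) (.e (nat_lit 426011) (nat_lit 0) (.e (nat_lit 7486) (nat_lit 402) .nil)))))))) (.g (nat_lit 1) (.e (nat_lit 95457) (nat_lit 0) .nil) .nil))) 
(.lf (nat_lit 474786) (.g (nat_lit 2597) (.e (nat_lit 1374) (nat_lit 104) (.e (nat_lit 303119) (nat_lit 3) (.e (nat_lit 204846) (nat_lit 24) (.e (nat_lit 319505) (nat_lit 10) (.e (nat_lit 5714) (nat_lit 312) (.e (nat_lit 2682) (nat_lit 168) (.e (nat_lit 204821) (nat_lit 17) (.e (nat_lit 6114) (nat_lit 332) .nil)))))))) (.g (nat_lit 1) (.e (nat_lit 96268) (nat_lit 0) .nil) .nil)))) 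
(.nd (nat_lit 9) 
(.lf (nat_lit 474530) (.g (nat_lit 3435) (.e (nat_lit 1253) (nat_lit 92) (.e (nat_lit 98373) (nat_lit 29) (.e (nat_lit 450563) (nat_lit 0) (.e (nat_lit 3926) (nat_lit 239) .nil)))) (.g (nat_lit 0) (.e (nat_lit 95751) (nat_lit 0) .nil) .nil))) 
(.lf (nat_lit 475042) (.g (nat_lit 2321) (.e (nat_lit 1400) (nat_lit 106) (.e (nat_lit 319490) (nat_lit 0) (.e (nat_lit 5664) (nat_lit 312) (.e (nat_lit 2661) (nat_lit 167) .nil)))) (.g (nat_lit 0) (.e (nat_lit 97132) (nat_lit 0) .nil) .nil)))))) (.nd (nat_lit 7) (.nd (nat_lit 8) (.nd (nat_lit 9) 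
(.lf (nat_lit 474210) (.g (nat_lit 3742) (.e (nat_lit 1239) (nat_lit 91) (.e (nat_lit 90170) (nat_lit 13) (.e (nat_lit 172106) (nat_lit 10) (.e (nat_lit 434244) (nat_lit 28) (.e (nat_lit 573458) (nat_lit 9) (.e (nat_lit 420) (nat_lit 32) (.e (nat_lit 425984) (nat_lit 0) (.e (nat_lit 7489) (nat_lit 402) .nil)))))))) (.g (nat_lit 1) (.e (nat_lit 95393) (nat_lit 0) .nil) .nil))) 
(.lf (nat_lit 474722) (.g (nat_lit 2055) (.e (nat_lit 1256) (nat_lit 92) (.e (nat_lit 98373) (nat_lit 29) (.e (nat_lit 450588) (nat_lit 10) (.e (nat_lit 573469) (nat_lit 11) .nil)))) (.g (nat_lit 0) (.e (nat_lit 96011) (nat_lit 0) .nil) .nil)))) (.nd (nat_lit 9) 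
(.lf (nat_lit 474466) (.g (nat_lit 2193) (.e (nat_lit 1252) (nat_lit 92) (.e (nat_lit 98333) (nat_lit 18) (.e (nat_lit 164399) (nat_lit 256) (.e (nat_lit 57373) (nat_lit 2) (.e (nat_lit 90174) (nat_lit 14) .nil))))) (.g (nat_lit 0) (.e (nat_lit 95664) (nat_lit 0) .nil) .nil))) 
(.lf (nat_lit 474978) (.g (nat_lit 2189) (.e (nat_lit 1359) (nat_lit 102) (.e (nat_lit 286733) (nat_lit 2) (.e (nat_lit 90178) (nat_lit 15) (.e (nat_lit 188449) (nat_lit 22) .nil)))) (.g (nat_lit 0) (.e (nat_lit 96925) (nat_lit 0) .nil) .nil))))) (.nd (nat_lit 8) (.nd (nat_lit 9) 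
(.lf (nat_lit 474338) (.g (nat_lit 3115) (.e (nat_lit 1245) (nat_lit 92) (.e (nat_lit 98373) (nat_lit 29) (.e (nat_lit 450588) (nat_lit 10) (.e (nat_lit 573471) (nat_lit 11) .nil)))) (.g (nat_lit 0) (.e (nat_lit 95528) (nat_lit 0) .nil) .nil))) 
(.lf (nat_lit 474850) (.g (nat_lit 2474) (.e (nat_lit 1376) (nat_lit 104) (.e (nat_lit 303119) (nat_lit 3) (.e (nat_lit 204885) (nat_lit 33) (.e (nat_lit 401446) (nat_lit 10) (.e (nat_lit 434233) (nat_lit 23) .nil))))) (.g (nat_lit 0) (.e (nat_lit 96425) (nat_lit 0) .nil) .nil)))) (.nd (nat_lit 9) 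
(.lf (nat_lit 474594) (.g (nat_lit 2301) (.e (nat_lit 1254) (nat_lit 92) (.e (nat_lit 98334) (nat_lit 18) (.e (nat_lit 164399) (nat_lit 256) (.e (nat_lit 57372) (nat_lit 2) (.e (nat_lit 90172) (nat_lit 14) .nil))))) (.g (nat_lit 0) (.e (nat_lit 95817) (nat_lit 0) .nil) .nil))) 
(.lf (nat_lit 475106) (.g (nat_lit 887) (.e (nat_lit 1425) (nat_lit 108) (.e (nat_lit 336421) (nat_lit 28) (.e (nat_lit 434193) (nat_lit 13) (.e (nat_lit 2789) (nat_lit 179) (.e (nat_lit 294973) (nat_lit 28) (.e (nat_lit 434181) (nat_lit 0) .nil)))))) (.g (nat_lit 1) (.e (nat_lit 97261) (nat_lit 0) .nil) .nil)))))))) 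
(.nd (nat_lit 5) (.nd (nat_lit 6) (.nd (nat_lit 7) (.nd (nat_lit 8) (.nd (nat_lit 9) 
(.lf (nat_lit 474130) (.g (nat_lit 1148) (.e (nat_lit 1235) (nat_lit 91) (.e (nat_lit 90176) (nat_lit 15) (.e (nat_lit 188450) (nat_lit 23) (.e (nat_lit 204848) (nat_lit 25) .nil)))) (.g (nat_lit 0) (.e (nat_lit 95300) (nat_lit 0) .nil) .nil))) 
(.lf (nat_lit 474642) (.g (nat_lit 2652) (.e (nat_lit 1255) (nat_lit 92) (.e (nat_lit 98384) (nat_lit 32) (.e (nat_lit 475179) (nat_lit 24) (.e (nat_lit 516119) (nat_lit 1) (.e (nat_lit 164325) (nat_lit 230) .nil))))) (.g (nat_lit 0) (.e (nat_lit 95920) (nat_lit 0) .nil) .nil)))) (.nd (nat_lit 9) 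
(.lf (nat_lit 474386) (.g (nat_lit 4229) (.e (nat_lit 1250) (nat_lit 92) (.e (nat_lit 98350) (nat_lit 24) (.e (nat_lit 409646) (nat_lit 18) (.e (nat_lit 303119) (nat_lit 3) (.e (nat_lit 204846) (nat_lit 24) (.e (nat_lit 319490) (nat_lit 0) (.e (nat_lit 5293) (nat_lit 298) .nil))))))) (.g (nat_lit 1) (.e (nat_lit 95577) (nat_lit 0) .nil) .nil))) 
(.lf (nat_lit 474898) (.g (nat_lit 1451) (.e (nat_lit 1386) (nat_lit 105) (.e (nat_lit 311357) (nat_lit 28) (.e (nat_lit 344069) (nat_lit 0) (.e (nat_lit 3090) (nat_lit 191) (.e (nat_lit 483354) (nat_lit 17) (.e (nat_lit 6092) (nat_lit 332) .nil)))))) (.g (nat_lit 1) (.e (nat_lit 96717) (nat_lit 0) .nil) .nil))))) (.nd (nat_lit 8) (.nd (nat_lit 9) 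
(.lf (nat_lit 474258) (.g (nat_lit 2920) (.e (nat_lit 1239) (nat_lit 91) (.e (nat_lit 90170) (nat_lit 13) (.e (nat_lit 172113) (nat_lit 10) (.e (nat_lit 434245) (nat_lit 28) (.e (nat_lit 573451) (nat_lit 9) (.e (nat_lit 7936) (nat_lit 36) (.e (nat_lit 466688) (nat_lit 0) .nil))))))) (.g (nat_lit 1) (.e (nat_lit 95441) (nat_lit 0) .nil) .nil))) 
(.lf (nat_lit 474770) (.g (nat_lit 731) (.e (nat_lit 1315) (nat_lit 98) (.e (nat_lit 147495) (nat_lit 11) (.e (nat_lit 24601) (nat_lit 2) .nil))) (.g (nat_lit 0) (.e (nat_lit 96174) (nat_lit 0) .nil) .nil)))) (.nd (nat_lit 9) 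
(.lf (nat_lit 474514) (.g (nat_lit 1383) (.e (nat_lit 1253) (nat_lit 92) (.e (nat_lit 98350) (nat_lit 24) (.e (nat_lit 409648) (nat_lit 18) (.e (nat_lit 303117) (nat_lit 2) .nil)))) (.g (nat_lit 0) (.e (nat_lit 95729) (nat_lit 0) .nil) .nil))) 
(.lf (nat_lit 475026) (.g (nat_lit 3693) (.e (nat_lit 1396) (nat_lit 106) (.e (nat_lit 319493) (nat_lit 0) (.e (nat_lit 5761) (nat_lit 315) (.e (nat_lit 163962) (nat_lit 25) (.e (nat_lit 532535) (nat_lit 9) (.e (nat_lit 336176) (nat_lit 10) (.e (nat_lit 344126) (nat_lit 25) (.e (nat_lit 548874) (nat_lit 5) .nil)))))))) (.g (nat_lit 1) (.e (nat_lit 97080) (nat_lit 0) .nil) .nil)))))) 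
(.nd (nat_lit 7) (.nd (nat_lit 8) (.nd (nat_lit 9) 
(.lf (nat_lit 474194) (.g (nat_lit 5607) (.e (nat_lit 1239) (nat_lit 91) (.e (nat_lit 90170) (nat_lit 13) (.e (nat_lit 172106) (nat_lit 10) (.e (nat_lit 434244) (nat_lit 28) (.e (nat_lit 573451) (nat_lit 9) (.e (nat_lit 359) (nat_lit 30) (.e (nat_lit 409603) (nat_lit 0) (.e (nat_lit 5270) (nat_lit 298) .nil)))))))) (.g (nat_lit 1) (.e (nat_lit 95377) (nat_lit 0) .nil) .nil))) 
(.lf (nat_lit 474706) (.g (nat_lit 3426) (.e (nat_lit 1256) (nat_lit 92) (.e (nat_lit 98373) (nat_lit 29) (.e (nat_lit 450587) (nat_lit 10) (.e (nat_lit 573457) (nat_lit 9) (.e (nat_lit 430) (nat_lit 32) (.e (nat_lit 426011) (nat_lit 0) (.e (nat_lit 7490) (nat_lit 402) .nil))))))) (.g (nat_lit 1) (.e (nat_lit 95995) (nat_lit 0) .nil) .nil)))) (.nd (nat_lit 9) 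
(.lf (nat_lit 474450) (.g (nat_lit 3193) (.e (nat_lit 1252) (nat_lit 92) (.e (nat_lit 98333) (nat_lit 18) (.e (nat_lit 164325) (nat_lit 230) (.e (nat_lit 163873) (nat_lit 3) .nil)))) (.g (nat_lit 0) (.e (nat_lit 95648) (nat_lit 0) .nil) .nil))) 
(.lf (nat_lit 474962) (.g (nat_lit 2882) (.e (nat_lit 1355) (nat_lit 102) (.e (nat_lit 286759) (nat_lit 12) (.e (nat_lit 385074) (nat_lit 31) (.e (nat_lit 573491) (nat_lit 15) (.e (nat_lit 81951) (nat_lit 22) .nil))))) (.g (nat_lit 0) (.e (nat_lit 96882) (nat_lit 0) .nil) .nil))))) (.nd (nat_lit 8) (.nd (nat_lit 9) 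
(.lf (nat_lit 474322) (.g (nat_lit 1865) (.e (nat_lit 1239) (nat_lit 91) (.e (nat_lit 90170) (nat_lit 13) (.e (nat_lit 172113) (nat_lit 10) (.e (nat_lit 434248) (nat_lit 28) (.e (nat_lit 573470) (nat_lit 11) .nil))))) (.g (nat_lit 0) (.e (nat_lit 95505) (nat_lit 0) .nil) .nil))) 
(.lf (nat_lit 474834) (.g (nat_lit 2344) (.e (nat_lit 1376) (nat_lit 104) (.e (nat_lit 303119) (nat_lit 3) (.e (nat_lit 204846) (nat_lit 24) (.e (nat_lit 319528) (nat_lit 16) (.e (nat_lit 286735) (nat_lit 3) .nil))))) (.g (nat_lit 0) (.e (nat_lit 96407) (nat_lit 0) .nil) .nil)))) (.nd (nat_lit 9) 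
(.lf (nat_lit 474578) (.g (nat_lit 2758) (.e (nat_lit 1254) (nat_lit 92) (.e (nat_lit 98333) (nat_lit 18) (.e (nat_lit 164403) (nat_lit 256) (.e (nat_lit 57371) (nat_lit 2) (.e (nat_lit 90174) (nat_lit 14) .nil))))) (.g (nat_lit 0) (.e (nat_lit 95801) (nat_lit 0) .nil) .nil))) 
(.lf (nat_lit 475090) (.g (nat_lit 2127) (.e (nat_lit 1423) (nat_lit 108) (.e (nat_lit 336367) (nat_lit 27) (.e (nat_lit 426320) (nat_lit 12) (.e (nat_lit 475199) (nat_lit 40) (.e (nat_lit 704595) (nat_lit 5) (.e (nat_lit 188160) (nat_lit 32) .nil)))))) (.g (nat_lit 1) (.e (nat_lit 97232) (nat_lit 0) .nil) .nil))))))) (.nd (nat_lit 6) (.nd (nat_lit 7) (.nd (nat_lit 8) (.nd (nat_lit 9) 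
(.lf (nat_lit 474162) (.g (nat_lit 1895) (.e (nat_lit 1239) (nat_lit 91) (.e (nat_lit 90160) (nat_lit 11) (.e (nat_lit 24627) (nat_lit 9) (.e (nat_lit 336454) (nat_lit 34) .nil)))) (.g (nat_lit 0) (.e (nat_lit 95344) (nat_lit 0) .nil) .nil))) 
(.lf (nat_lit 474674) (.g (nat_lit 2502) (.e (nat_lit 1256) (nat_lit 92) (.e (nat_lit 98350) (nat_lit 24) (.e (nat_lit 409649) (nat_lit 18) (.e (nat_lit 303116) (nat_lit 2) (.e (nat_lit 196670) (nat_lit 14) .nil))))) (.g (nat_lit 0) (.e (nat_lit 95957) (nat_lit 0) .nil) .nil)))) (.nd (nat_lit 9) 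
(.lf (nat_lit 474418) (.g (nat_lit 3493) (.e (nat_lit 1250) (nat_lit 92) (.e (nat_lit 98373) (nat_lit 29) (.e (nat_lit 450587) (nat_lit 10) (.e (nat_lit 573449) (nat_lit 9) .nil)))) (.g (nat_lit 0) (.e (nat_lit 95611) (nat_lit 0) .nil) .nil))) 
(.lf (nat_lit 474930) (.g (nat_lit 2595) (.e (nat_lit 1348) (nat_lit 102) (.e (nat_lit 286761) (nat_lit 13) (.e (nat_lit 393234) (nat_lit 17) (.e (nat_lit 2398) (nat_lit 157) .nil)))) (.g (nat_lit 0) (.e (nat_lit 96803) (nat_lit 0) .nil) .nil))))) (.nd (nat_lit 8) (.nd (nat_lit 9) 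
(.lf (nat_lit 474290) (.g (nat_lit 1984) (.e (nat_lit 1239) (nat_lit 91) (.e (nat_lit 90170) (nat_lit 13) (.e (nat_lit 172113) (nat_lit 10) (.e (nat_lit 434248) (nat_lit 28) (.e (nat_lit 573449) (nat_lit 9) .nil))))) (.g (nat_lit 0) (.e (nat_lit 95473) (nat_lit 0) .nil) .nil))) 
(.lf (nat_lit 474802) (.g (nat_lit 2174) (.e (nat_lit 1374) (nat_lit 104) (.e (nat_lit 303119) (nat_lit 3) (.e (nat_lit 204846) (nat_lit 24) (.e (nat_lit 319534) (nat_lit 16) (.e (nat_lit 286728) (nat_lit 0) (.e (nat_lit 1859) (nat_lit 124) (.e (nat_lit 557084) (nat_lit 10) (.e (nat_lit 8533) (nat_lit 225) .nil)))))))) (.g (nat_lit 1) (.e (nat_lit 96290) (nat_lit 0) .nil) .nil)))) 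
(.nd (nat_lit 9) 
(.lf (nat_lit 474546) (.g (nat_lit 5866) (.e (nat_lit 1253) (nat_lit 92) (.e (nat_lit 98373) (nat_lit 29) (.e (nat_lit 450587) (nat_lit 10) (.e (nat_lit 573469) (nat_lit 11) (.e (nat_lit 16396) (nat_lit 0) .nil))))) (.g (nat_lit 0) (.e (nat_lit 95767) (nat_lit 0) .nil) .nil))) 
(.lf (nat_lit 475058) (.g (nat_lit 2729) (.e (nat_lit 1400) (nat_lit 106) (.e (nat_lit 319534) (nat_lit 16) (.e (nat_lit 286733) (nat_lit 2) (.e (nat_lit 90128) (nat_lit 9) (.e (nat_lit 3044) (nat_lit 189) (.e (nat_lit 466975) (nat_lit 22) (.e (nat_lit 196626) (nat_lit 9) .nil))))))) (.g (nat_lit 1) (.e (nat_lit 97156) (nat_lit 0) .nil) .nil)))))) 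
(.nd (nat_lit 7) (.nd (nat_lit 8) (.nd (nat_lit 9) 
(.lf (nat_lit 474226) (.g (nat_lit 2092) (.e (nat_lit 1239) (nat_lit 91) (.e (nat_lit 90170) (nat_lit 13) (.e (nat_lit 172113) (nat_lit 10) (.e (nat_lit 434231) (nat_lit 23) (.e (nat_lit 532490) (nat_lit 0) .nil))))) (.g (nat_lit 0) (.e (nat_lit 95409) (nat_lit 0) .nil) .nil))) 
(.lf (nat_lit 474738) (.g (nat_lit 1851) (.e (nat_lit 1276) (nat_lit 94) (.e (nat_lit 114718) (nat_lit 23) (.e (nat_lit 98367) (nat_lit 27) (.e (nat_lit 434232) (nat_lit 23) .nil)))) (.g (nat_lit 0) (.e (nat_lit 96050) (nat_lit 0) .nil) .nil)))) (.nd (nat_lit 9) 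
(.lf (nat_lit 474482) (.g (nat_lit 2628) (.e (nat_lit 1252) (nat_lit 92) (.e (nat_lit 98335) (nat_lit 18) (.e (nat_lit 164325) (nat_lit 230) (.e (nat_lit 163873) (nat_lit 3) .nil)))) (.g (nat_lit 0) (.e (nat_lit 95681) (nat_lit 0) .nil) .nil))) 
(.lf (nat_lit 474994) (.g (nat_lit 2183) (.e (nat_lit 1361) (nat_lit 102) (.e (nat_lit 286735) (nat_lit 3) (.e (nat_lit 98373) (nat_lit 29) (.e (nat_lit 450563) (nat_lit 0) .nil)))) (.g (nat_lit 0) (.e (nat_lit 96989) (nat_lit 0) .nil) .nil))))) (.nd (nat_lit 8) (.nd (nat_lit 9) 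
(.lf (nat_lit 474354) (.g (nat_lit 2893) (.e (nat_lit 1247) (nat_lit 92) (.e (nat_lit 98333) (nat_lit 18) (.e (nat_lit 164399) (nat_lit 256) (.e (nat_lit 57371) (nat_lit 2) (.e (nat_lit 90174) (nat_lit 14) .nil))))) (.g (nat_lit 0) (.e (nat_lit 95544) (nat_lit 0) .nil) .nil))) 
(.lf (nat_lit 474866) (.g (nat_lit 1872) (.e (nat_lit 7936) (nat_lit 104) (.e (nat_lit 303143) (nat_lit 12) (.e (nat_lit 475211) (nat_lit 41) (.e (nat_lit 712752) (nat_lit 29) (.e (nat_lit 450304) (nat_lit 4) .nil))))) (.g (nat_lit 0) (.e (nat_lit 96537) (nat_lit 0) .nil) .nil)))) (.nd (nat_lit 9) 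
(.lf (nat_lit 474610) (.g (nat_lit 2521) (.e (nat_lit 1255) (nat_lit 92) (.e (nat_lit 98334) (nat_lit 18) (.e (nat_lit 164399) (nat_lit 256) (.e (nat_lit 57374) (nat_lit 2) (.e (nat_lit 90174) (nat_lit 14) .nil))))) (.g (nat_lit 0) (.e (nat_lit 95851) (nat_lit 0) .nil) .nil))) 
(.lf (nat_lit 475122) (.g (nat_lit 3741) (.e (nat_lit 1425) (nat_lit 108) (.e (nat_lit 336454) (nat_lit 34) (.e (nat_lit 483365) (nat_lit 18) (.e (nat_lit 57848) (nat_lit 252) .nil)))) (.g (nat_lit 0) (.e (nat_lit 97291) (nat_lit 0) .nil) .nil))))))))) (.nd (nat_lit 4) (.nd (nat_lit 5) (.nd (nat_lit 6) (.nd (nat_lit 7) (.nd (nat_lit 8) (.nd (nat_lit 9) 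
(.lf (nat_lit 474122) (.g (nat_lit 2160) (.e (nat_lit 1235) (nat_lit 91) (.e (nat_lit 90170) (nat_lit 13) (.e (nat_lit 172113) (nat_lit 10) (.e (nat_lit 434247) (nat_lit 28) (.e (nat_lit 573457) (nat_lit 9) (.e (nat_lit 430) (nat_lit 32) (.e (nat_lit 426030) (nat_lit 0) (.e (nat_lit 7562) (nat_lit 402) .nil)))))))) (.g (nat_lit 1) (.e (nat_lit 95291) (nat_lit 0) .nil) .nil))) 
(.lf (nat_lit 474634) (.g (nat_lit 2483) (.e (nat_lit 1255) (nat_lit 92) (.e (nat_lit 98373) (nat_lit 29) (.e (nat_lit 450588) (nat_lit 10) (.e (nat_lit 573471) (nat_lit 11) (.e (nat_lit 16387) (nat_lit 0) .nil))))) (.g (nat_lit 0) (.e (nat_lit 95906) (nat_lit 0) .nil) .nil)))) (.nd (nat_lit 9) 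
(.lf (nat_lit 474378) (.g (nat_lit 3059) (.e (nat_lit 1250) (nat_lit 92) (.e (nat_lit 98350) (nat_lit 24) (.e (nat_lit 409645) (nat_lit 18) (.e (nat_lit 303117) (nat_lit 2) (.e (nat_lit 196668) (nat_lit 14) (.e (nat_lit 81664) (nat_lit 40) .nil)))))) (.g (nat_lit 1) (.e (nat_lit 95569) (nat_lit 0) .nil) .nil))) 
(.lf (nat_lit 474890) (.g (nat_lit 2299) (.e (nat_lit 1386) (nat_lit 105) (.e (nat_lit 311357) (nat_lit 28) (.e (nat_lit 344068) (nat_lit 0) (.e (nat_lit 3090) (nat_lit 191) (.e (nat_lit 483350) (nat_lit 17) (.e (nat_lit 6135) (nat_lit 332) .nil)))))) (.g (nat_lit 1) (.e (nat_lit 96708) (nat_lit 0) .nil) .nil))))) (.nd (nat_lit 8) (.nd (nat_lit 9) 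
(.lf (nat_lit 474250) (.g (nat_lit 3695) (.e (nat_lit 1239) (nat_lit 91) (.e (nat_lit 90170) (nat_lit 13) (.e (nat_lit 172113) (nat_lit 10) (.e (nat_lit 434245) (nat_lit 28) (.e (nat_lit 573451) (nat_lit 9) (.e (nat_lit 365) (nat_lit 31) (.e (nat_lit 417796) (nat_lit 0) (.e (nat_lit 5258) (nat_lit 298) .nil)))))))) (.g (nat_lit 1) (.e (nat_lit 95433) (nat_lit 0) .nil) .nil))) 
(.lf (nat_lit 474762) (.g (nat_lit 2406) (.e (nat_lit 1311) (nat_lit 98) (.e (nat_lit 147496) (nat_lit 11) (.e (nat_lit 24604) (nat_lit 2) (.e (nat_lit 90170) (nat_lit 13) (.e (nat_lit 172106) (nat_lit 10) .nil))))) (.g (nat_lit 0) (.e (nat_lit 96162) (nat_lit 0) .nil) .nil)))) (.nd (nat_lit 9) 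
(.lf (nat_lit 474506) (.g (nat_lit 2597) (.e (nat_lit 1252) (nat_lit 92) (.e (nat_lit 98373) (nat_lit 29) (.e (nat_lit 450588) (nat_lit 10) (.e (nat_lit 573471) (nat_lit 11) (.e (nat_lit 16392) (nat_lit 0) .nil))))) (.g (nat_lit 0) (.e (nat_lit 95713) (nat_lit 0) .nil) .nil))) 
(.lf (nat_lit 475018) (.g (nat_lit 1858) (.e (nat_lit 1393) (nat_lit 106) (.e (nat_lit 319531) (nat_lit 16) (.e (nat_lit 286733) (nat_lit 2) (.e (nat_lit 90128) (nat_lit 9) .nil)))) (.g (nat_lit 0) (.e (nat_lit 97059) (nat_lit 0) .nil) .nil)))))) (.nd (nat_lit 7) (.nd (nat_lit 8) (.nd (nat_lit 9) 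
(.lf (nat_lit 474186) (.g (nat_lit 3882) (.e (nat_lit 1239) (nat_lit 91) (.e (nat_lit 90170) (nat_lit 13) (.e (nat_lit 172106) (nat_lit 10) (.e (nat_lit 434244) (nat_lit 28) (.e (nat_lit 573450) (nat_lit 9) (.e (nat_lit 449) (nat_lit 33) (.e (nat_lit 442112) (nat_lit 0) .nil))))))) (.g (nat_lit 1) (.e (nat_lit 95369) (nat_lit 0) .nil) .nil))) 
(.lf (nat_lit 474698) (.g (nat_lit 953) (.e (nat_lit 1256) (nat_lit 92) (.e (nat_lit 98372) (nat_lit 29) (.e (nat_lit 450586) (nat_lit 10) (.e (nat_lit 573470) (nat_lit 11) .nil)))) (.g (nat_lit 0) (.e (nat_lit 95987) (nat_lit 0) .nil) .nil)))) (.nd (nat_lit 9) 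
(.lf (nat_lit 474442) (.g (nat_lit 3010) (.e (nat_lit 1251) (nat_lit 92) (.e (nat_lit 98333) (nat_lit 18) (.e (nat_lit 164403) (nat_lit 256) (.e (nat_lit 57373) (nat_lit 2) (.e (nat_lit 90174) (nat_lit 14) .nil))))) (.g (nat_lit 0) (.e (nat_lit 95637) (nat_lit 0) .nil) .nil))) 
(.lf (nat_lit 474954) (.g (nat_lit 3571) (.e (nat_lit 1352) (nat_lit 102) (.e (nat_lit 286733) (nat_lit 2) (.e (nat_lit 90170) (nat_lit 13) (.e (nat_lit 172106) (nat_lit 10) (.e (nat_lit 434231) (nat_lit 23) .nil))))) (.g (nat_lit 0) (.e (nat_lit 96868) (nat_lit 0) .nil) .nil))))) (.nd (nat_lit 8) (.nd (nat_lit 9) 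
(.lf (nat_lit 474314) (.g (nat_lit 2940) (.e (nat_lit 1239) (nat_lit 91) (.e (nat_lit 90170) (nat_lit 13) (.e (nat_lit 172113) (nat_lit 10) (.e (nat_lit 434248) (nat_lit 28) (.e (nat_lit 573452) (nat_lit 9) (.e (nat_lit 7936) (nat_lit 36) (.e (nat_lit 466688) (nat_lit 0) .nil))))))) (.g (nat_lit 1) (.e (nat_lit 95497) (nat_lit 0) .nil) .nil))) 
(.lf (nat_lit 474826) (.g (nat_lit 1867) (.e (nat_lit 1376) (nat_lit 104) (.e (nat_lit 303119) (nat_lit 3) (.e (nat_lit 204819) (nat_lit 17) (.e (nat_lit 7936) (nat_lit 362) .nil)))) (.g (nat_lit 0) (.e (nat_lit 96389) (nat_lit 0) .nil) .nil)))) (.nd (nat_lit 9) 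
(.lf (nat_lit 474570) (.g (nat_lit 1661) (.e (nat_lit 1254) (nat_lit 92) (.e (nat_lit 98333) (nat_lit 18) (.e (nat_lit 164398) (nat_lit 256) (.e (nat_lit 57375) (nat_lit 2) .nil)))) (.g (nat_lit 0) (.e (nat_lit 95793) (nat_lit 0) .nil) .nil))) 
(.lf (nat_lit 475082) (.g (nat_lit 1748) (.e (nat_lit 1418) (nat_lit 108) (.e (nat_lit 336454) (nat_lit 34) (.e (nat_lit 483408) (nat_lit 26) (.e (nat_lit 385067) (nat_lit 26) .nil)))) (.g (nat_lit 0) (.e (nat_lit 97199) (nat_lit 0) .nil) .nil))))))) (.nd (nat_lit 6) (.nd (nat_lit 7) (.nd (nat_lit 8) (.nd (nat_lit 9) 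
(.lf (nat_lit 474154) (.g (nat_lit 2271) (.e (nat_lit 1238) (nat_lit 91) (.e (nat_lit 90170) (nat_lit 13) (.e (nat_lit 172106) (nat_lit 10) (.e (nat_lit 434244) (nat_lit 28) .nil)))) (.g (nat_lit 0) (.e (nat_lit 95331) (nat_lit 0) .nil) .nil))) 
(.lf (nat_lit 474666) (.g (nat_lit 2617) (.e (nat_lit 1256) (nat_lit 92) (.e (nat_lit 98350) (nat_lit 24) (.e (nat_lit 409643) (nat_lit 18) (.e (nat_lit 303117) (nat_lit 2) (.e (nat_lit 196670) (nat_lit 14) (.e (nat_lit 81664) (nat_lit 40) .nil)))))) (.g (nat_lit 1) (.e (nat_lit 95949) (nat_lit 0) .nil) .nil)))) (.nd (nat_lit 9) 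
(.lf (nat_lit 474410) (.g (nat_lit 4167) (.e (nat_lit 1250) (nat_lit 92) (.e (nat_lit 98372) (nat_lit 29) (.e (nat_lit 450588) (nat_lit 10) (.e (nat_lit 573451) (nat_lit 9) (.e (nat_lit 359) (nat_lit 30) .nil))))) (.g (nat_lit 0) (.e (nat_lit 95603) (nat_lit 0) .nil) .nil))) 
(.lf (nat_lit 474922) (.g (nat_lit 3917) (.e (nat_lit 1348) (nat_lit 102) (.e (nat_lit 286735) (nat_lit 3) (.e (nat_lit 98359) (nat_lit 26) (.e (nat_lit 426338) (nat_lit 14) (.e (nat_lit 491537) (nat_lit 2) (.e (nat_lit 90133) (nat_lit 9) (.e (nat_lit 2400) (nat_lit 157) (.e (nat_lit 7064) (nat_lit 377) .nil)))))))) (.g (nat_lit 1) (.e (nat_lit 96785) (nat_lit 0) .nil) .nil))))) 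
(.nd (nat_lit 8) (.nd (nat_lit 9) 
(.lf (nat_lit 474282) (.g (nat_lit 3832) (.e (nat_lit 1239) (nat_lit 91) (.e (nat_lit 90170) (nat_lit 13) (.e (nat_lit 172113) (nat_lit 10) (.e (nat_lit 434247) (nat_lit 28) (.e (nat_lit 573457) (nat_lit 9) (.e (nat_lit 365) (nat_lit 31) (.e (nat_lit 417796) (nat_lit 0) (.e (nat_lit 5271) (nat_lit 298) .nil)))))))) (.g (nat_lit 1) (.e (nat_lit 95465) (nat_lit 0) .nil) .nil))) 
(.lf (nat_lit 474794) (.g (nat_lit 2723) (.e (nat_lit 1374) (nat_lit 104) (.e (nat_lit 303119) (nat_lit 3) (.e (nat_lit 204846) (nat_lit 24) (.e (nat_lit 319532) (nat_lit 16) (.e (nat_lit 286734) (nat_lit 3) (.e (nat_lit 98323) (nat_lit 17) (.e (nat_lit 6989) (nat_lit 377) .nil))))))) (.g (nat_lit 1) (.e (nat_lit 96282) (nat_lit 0) .nil) .nil)))) (.nd (nat_lit 9) 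
(.lf (nat_lit 474538) (.g (nat_lit 3643) (.e (nat_lit 1253) (nat_lit 92) (.e (nat_lit 98373) (nat_lit 29) (.e (nat_lit 450587) (nat_lit 10) (.e (nat_lit 573449) (nat_lit 9) (.e (nat_lit 443) (nat_lit 33) .nil))))) (.g (nat_lit 0) (.e (nat_lit 95759) (nat_lit 0) .nil) .nil))) 
(.lf (nat_lit 475050) (.g (nat_lit 2070) (.e (nat_lit 1400) (nat_lit 106) (.e (nat_lit 319531) (nat_lit 16) (.e (nat_lit 286735) (nat_lit 3) (.e (nat_lit 98381) (nat_lit 31) .nil)))) (.g (nat_lit 0) (.e (nat_lit 97143) (nat_lit 0) .nil) .nil)))))) (.nd (nat_lit 7) (.nd (nat_lit 8) (.nd (nat_lit 9) 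
(.lf (nat_lit 474218) (.g (nat_lit 3229) (.e (nat_lit 1239) (nat_lit 91) (.e (nat_lit 90170) (nat_lit 13) (.e (nat_lit 172106) (nat_lit 10) (.e (nat_lit 434244) (nat_lit 28) (.e (nat_lit 573458) (nat_lit 9) (.e (nat_lit 7936) (nat_lit 33) (.e (nat_lit 442112) (nat_lit 0) .nil))))))) (.g (nat_lit 1) (.e (nat_lit 95401) (nat_lit 0) .nil) .nil))) 
(.lf (nat_lit 474730) (.g (nat_lit 1895) (.e (nat_lit 1261) (nat_lit 93) (.e (nat_lit 106534) (nat_lit 11) (.e (nat_lit 16425) (nat_lit 7) (.e (nat_lit 409648) (nat_lit 18) .nil)))) (.g (nat_lit 0) (.e (nat_lit 96023) (nat_lit 0) .nil) .nil)))) (.nd (nat_lit 9) 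
(.lf (nat_lit 474474) (.g (nat_lit 3055) (.e (nat_lit 1252) (nat_lit 92) (.e (nat_lit 98334) (nat_lit 18) (.e (nat_lit 164398) (nat_lit 256) (.e (nat_lit 57372) (nat_lit 2) (.e (nat_lit 90172) (nat_lit 14) .nil))))) (.g (nat_lit 0) (.e (nat_lit 95673) (nat_lit 0) .nil) .nil))) 
(.lf (nat_lit 474986) (.g (nat_lit 1616) (.e (nat_lit 1359) (nat_lit 102) (.e (nat_lit 286756) (nat_lit 10) (.e (nat_lit 344138) (nat_lit 29) (.e (nat_lit 581653) (nat_lit 6) (.e (nat_lit 188461) (nat_lit 26) (.e (nat_lit 254007) (nat_lit 14) .nil)))))) (.g (nat_lit 1) (.e (nat_lit 96943) (nat_lit 0) .nil) .nil))))) (.nd (nat_lit 8) (.nd (nat_lit 9) 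
(.lf (nat_lit 474346) (.g (nat_lit 2262) (.e (nat_lit 1246) (nat_lit 92) (.e (nat_lit 98334) (nat_lit 18) (.e (nat_lit 164399) (nat_lit 256) (.e (nat_lit 57372) (nat_lit 2) (.e (nat_lit 90174) (nat_lit 14) .nil))))) (.g (nat_lit 0) (.e (nat_lit 95536) (nat_lit 0) .nil) .nil))) 
(.lf (nat_lit 474858) (.g (nat_lit 3848) (.e (nat_lit 1378) (nat_lit 104) (.e (nat_lit 303119) (nat_lit 3) (.e (nat_lit 204885) (nat_lit 33) (.e (nat_lit 401434) (nat_lit 9) (.e (nat_lit 426125) (nat_lit 2) (.e (nat_lit 196661) (nat_lit 12) (.e (nat_lit 57712) (nat_lit 176) .nil))))))) (.g (nat_lit 1) (.e (nat_lit 96482) (nat_lit 0) .nil) .nil)))) (.nd (nat_lit 9) 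
(.lf (nat_lit 474602) (.g (nat_lit 3654) (.e (nat_lit 1255) (nat_lit 92) (.e (nat_lit 98321) (nat_lit 17) (.e (nat_lit 3771) (nat_lit 229) (.e (nat_lit 794673) (nat_lit 23) (.e (nat_lit 204863) (nat_lit 27) (.e (nat_lit 344117) (nat_lit 21) (.e (nat_lit 516116) (nat_lit 1) (.e (nat_lit 164157) (nat_lit 152) (.e (nat_lit 1027) (nat_lit 81) .nil))))))))) (.g (nat_lit 1) (.e (nat_lit 95825) (nat_lit 0) .nil) .nil))) 
(.lf (nat_lit 475114) (.g (nat_lit 1989) (.e (nat_lit 1425) (nat_lit 108) (.e (nat_lit 336430) (nat_lit 29) (.e (nat_lit 442419) (nat_lit 21) (.e (nat_lit 164348) (nat_lit 240) (.e (nat_lit 2639) (nat_lit 165) (.e (nat_lit 180277) (nat_lit 32) .nil)))))) (.g (nat_lit 1) (.e (nat_lit 97275) (nat_lit 0) .nil) .nil)))))))) 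
(.nd (nat_lit 5) (.nd (nat_lit 6) (.nd (nat_lit 7) (.nd (nat_lit 8) (.nd (nat_lit 9) 
(.lf (nat_lit 474138) (.g (nat_lit 2782) (.e (nat_lit 1237) (nat_lit 91) (.e (nat_lit 90170) (nat_lit 13) (.e (nat_lit 172106) (nat_lit 10) (.e (nat_lit 434231) (nat_lit 23) (.e (nat_lit 532486) (nat_lit 0) .nil))))) (.g (nat_lit 0) (.e (nat_lit 95314) (nat_lit 0) .nil) .nil))) 
(.lf (nat_lit 474650) (.g (nat_lit 2461) (.e (nat_lit 1256) (nat_lit 92) (.e (nat_lit 98333) (nat_lit 18) (.e (nat_lit 164399) (nat_lit 256) (.e (nat_lit 57372) (nat_lit 2) (.e (nat_lit 90174) (nat_lit 14) .nil))))) (.g (nat_lit 0) (.e (nat_lit 95929) (nat_lit 0) .nil) .nil)))) (.nd (nat_lit 9) 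
(.lf (nat_lit 474394) (.g (nat_lit 2672) (.e (nat_lit 1250) (nat_lit 92) (.e (nat_lit 98350) (nat_lit 24) (.e (nat_lit 409649) (nat_lit 18) (.e (nat_lit 303117) (nat_lit 2) (.e (nat_lit 196669) (nat_lit 14) (.e (nat_lit 81664) (nat_lit 40) .nil)))))) (.g (nat_lit 1) (.e (nat_lit 95585) (nat_lit 0) .nil) .nil))) 
(.lf (nat_lit 474906) (.g (nat_lit 864) (.e (nat_lit 1346) (nat_lit 102) (.e (nat_lit 286733) (nat_lit 2) (.e (nat_lit 90178) (nat_lit 15) .nil))) (.g (nat_lit 0) (.e (nat_lit 96735) (nat_lit 0) .nil) .nil))))) (.nd (nat_lit 8) (.nd (nat_lit 9) 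
(.lf (nat_lit 474266) (.g (nat_lit 3248) (.e (nat_lit 1239) (nat_lit 91) (.e (nat_lit 90170) (nat_lit 13) (.e (nat_lit 172113) (nat_lit 10) (.e (nat_lit 434247) (nat_lit 28) (.e (nat_lit 573456) (nat_lit 9) (.e (nat_lit 359) (nat_lit 30) (.e (nat_lit 409603) (nat_lit 0) (.e (nat_lit 5270) (nat_lit 298) .nil)))))))) (.g (nat_lit 1) (.e (nat_lit 95449) (nat_lit 0) .nil) .nil))) 
(.lf (nat_lit 474778) (.g (nat_lit 3488) (.e (nat_lit 1374) (nat_lit 104) (.e (nat_lit 303118) (nat_lit 3) (.e (nat_lit 204885) (nat_lit 33) (.e (nat_lit 401434) (nat_lit 9) (.e (nat_lit 426140) (nat_lit 3) (.e (nat_lit 204821) (nat_lit 17) (.e (nat_lit 6092) (nat_lit 332) .nil))))))) (.g (nat_lit 1) (.e (nat_lit 96253) (nat_lit 0) .nil) .nil)))) (.nd (nat_lit 9) 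
(.lf (nat_lit 474522) (.g (nat_lit 2299) (.e (nat_lit 1253) (nat_lit 92) (.e (nat_lit 98367) (nat_lit 27) (.e (nat_lit 434244) (nat_lit 28) (.e (nat_lit 573481) (nat_lit 13) (.e (nat_lit 65568) (nat_lit 2) (.e (nat_lit 90189) (nat_lit 18) (.e (nat_lit 2579) (nat_lit 161) (.e (nat_lit 40967) (nat_lit 0) .nil)))))))) (.g (nat_lit 1) (.e (nat_lit 95739) (nat_lit 0) .nil) .nil))) 
(.lf (nat_lit 475034) (.g (nat_lit 4444) (.e (nat_lit 1401) (nat_lit 106) (.e (nat_lit 319539) (nat_lit 19) (.e (nat_lit 311315) (nat_lit 3) (.e (nat_lit 204846) (nat_lit 24) (.e (nat_lit 319534) (nat_lit 16) (.e (nat_lit 286728) (nat_lit 0) (.e (nat_lit 1841) (nat_lit 123) (.e (nat_lit 548874) (nat_lit 5) .nil)))))))) (.g (nat_lit 1) (.e (nat_lit 97111) (nat_lit 0) .nil) .nil)))))) 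
(.nd (nat_lit 7) (.nd (nat_lit 8) (.nd (nat_lit 9) 
(.lf (nat_lit 474202) (.g (nat_lit 4773) (.e (nat_lit 1239) (nat_lit 91) (.e (nat_lit 90170) (nat_lit 13) (.e (nat_lit 172106) (nat_lit 10) (.e (nat_lit 434244) (nat_lit 28) (.e (nat_lit 573451) (nat_lit 9) (.e (nat_lit 430) (nat_lit 32) (.e (nat_lit 426011) (nat_lit 0) (.e (nat_lit 7490) (nat_lit 402) .nil)))))))) (.g (nat_lit 1) (.e (nat_lit 95385) (nat_lit 0) .nil) .nil))) 
(.lf (nat_lit 474714) (.g (nat_lit 2117) (.e (nat_lit 1256) (nat_lit 92) (.e (nat_lit 98373) (nat_lit 29) (.e (nat_lit 450588) (nat_lit 10) (.e (nat_lit 573452) (nat_lit 9) (.e (nat_lit 359) (nat_lit 30) .nil))))) (.g (nat_lit 0) (.e (nat_lit 96003) (nat_lit 0) .nil) .nil)))) (.nd (nat_lit 9) 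
(.lf (nat_lit 474458) (.g (nat_lit 2104) (.e (nat_lit 1252) (nat_lit 92) (.e (nat_lit 98333) (nat_lit 18) (.e (nat_lit 164398) (nat_lit 256) (.e (nat_lit 57373) (nat_lit 2) (.e (nat_lit 90174) (nat_lit 14) .nil))))) (.g (nat_lit 0) (.e (nat_lit 95656) (nat_lit 0) .nil) .nil))) 
(.lf (nat_lit 474970) (.g (nat_lit 222) (.e (nat_lit 1358) (nat_lit 102) (.e (nat_lit 286754) (nat_lit 10) (.e (nat_lit 344138) (nat_lit 29) .nil))) (.g (nat_lit 0) (.e (nat_lit 96907) (nat_lit 0) .nil) .nil))))) (.nd (nat_lit 8) (.nd (nat_lit 9) 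
(.lf (nat_lit 474330) (.g (nat_lit 4608) (.e (nat_lit 1239) (nat_lit 91) (.e (nat_lit 90176) (nat_lit 15) (.e (nat_lit 188452) (nat_lit 23) (.e (nat_lit 204846) (nat_lit 24) (.e (nat_lit 319504) (nat_lit 10) .nil))))) (.g (nat_lit 0) (.e (nat_lit 95513) (nat_lit 0) .nil) .nil))) 
(.lf (nat_lit 474842) (.g (nat_lit 2135) (.e (nat_lit 1376) (nat_lit 104) (.e (nat_lit 303119) (nat_lit 3) (.e (nat_lit 204846) (nat_lit 24) (.e (nat_lit 319534) (nat_lit 16) (.e (nat_lit 286732) (nat_lit 2) (.e (nat_lit 90165) (nat_lit 12) (.e (nat_lit 164208) (nat_lit 176) .nil))))))) (.g (nat_lit 1) (.e (nat_lit 96416) (nat_lit 0) .nil) .nil)))) (.nd (nat_lit 9) 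
(.lf (nat_lit 474586) (.g (nat_lit 2393) (.e (nat_lit 1254) (nat_lit 92) (.e (nat_lit 98334) (nat_lit 18) (.e (nat_lit 164398) (nat_lit 256) (.e (nat_lit 57373) (nat_lit 2) (.e (nat_lit 90174) (nat_lit 14) .nil))))) (.g (nat_lit 0) (.e (nat_lit 95809) (nat_lit 0) .nil) .nil))) 
(.lf (nat_lit 475098) (.g (nat_lit 744) (.e (nat_lit 1424) (nat_lit 108) (.e (nat_lit 336454) (nat_lit 34) (.e (nat_lit 483380) (nat_lit 23) .nil))) (.g (nat_lit 0) (.e (nat_lit 97244) (nat_lit 0) .nil) .nil))))))) (.nd (nat_lit 6) (.nd (nat_lit 7) (.nd (nat_lit 8) (.nd (nat_lit 9) 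
(.lf (nat_lit 474170) (.g (nat_lit 1618) (.e (nat_lit 1239) (nat_lit 91) (.e (nat_lit 90170) (nat_lit 13) (.e (nat_lit 172106) (nat_lit 10) (.e (nat_lit 434231) (nat_lit 23) (.e (nat_lit 532490) (nat_lit 0) .nil))))) (.g (nat_lit 0) (.e (nat_lit 95353) (nat_lit 0) .nil) .nil))) 
(.lf (nat_lit 474682) (.g (nat_lit 2591) (.e (nat_lit 1256) (nat_lit 92) (.e (nat_lit 98366) (nat_lit 27) (.e (nat_lit 434244) (nat_lit 28) (.e (nat_lit 573480) (nat_lit 13) (.e (nat_lit 65571) (nat_lit 3) .nil))))) (.g (nat_lit 0) (.e (nat_lit 95969) (nat_lit 0) .nil) .nil)))) (.nd (nat_lit 9) 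
(.lf (nat_lit 474426) (.g (nat_lit 1929) (.e (nat_lit 1250) (nat_lit 92) (.e (nat_lit 98373) (nat_lit 29) (.e (nat_lit 450587) (nat_lit 10) (.e (nat_lit 573457) (nat_lit 9) (.e (nat_lit 11) (nat_lit 0) .nil))))) (.g (nat_lit 0) (.e (nat_lit 95619) (nat_lit 0) .nil) .nil))) 
(.lf (nat_lit 474938) (.g (nat_lit 3168) (.e (nat_lit 1349) (nat_lit 102) (.e (nat_lit 286735) (nat_lit 3) (.e (nat_lit 98350) (nat_lit 24) (.e (nat_lit 409602) (nat_lit 0) (.e (nat_lit 5293) (nat_lit 298) (.e (nat_lit 1232) (nat_lit 91) (.e (nat_lit 90133) (nat_lit 9) (.e (nat_lit 2397) (nat_lit 157) (.e (nat_lit 7064) (nat_lit 377) .nil))))))))) (.g (nat_lit 1) (.e (nat_lit 96834) (nat_lit 0) .nil) .nil))))) 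
(.nd (nat_lit 8) (.nd (nat_lit 9) 
(.lf (nat_lit 474298) (.g (nat_lit 3136) (.e (nat_lit 1239) (nat_lit 91) (.e (nat_lit 90170) (nat_lit 13) (.e (nat_lit 172113) (nat_lit 10) (.e (nat_lit 434248) (nat_lit 28) (.e (nat_lit 573450) (nat_lit 9) (.e (nat_lit 473) (nat_lit 36) (.e (nat_lit 466688) (nat_lit 0) .nil))))))) (.g (nat_lit 1) (.e (nat_lit 95481) (nat_lit 0) .nil) .nil))) 
(.lf (nat_lit 474810) (.g (nat_lit 1904) (.e (nat_lit 1374) (nat_lit 104) (.e (nat_lit 303143) (nat_lit 12) (.e (nat_lit 475185) (nat_lit 29) (.e (nat_lit 557101) (nat_lit 13) .nil)))) (.g (nat_lit 0) (.e (nat_lit 96298) (nat_lit 0) .nil) .nil)))) (.nd (nat_lit 9) 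
(.lf (nat_lit 474554) (.g (nat_lit 5427) (.e (nat_lit 1253) (nat_lit 92) (.e (nat_lit 98373) (nat_lit 29) (.e (nat_lit 450588) (nat_lit 10) (.e (nat_lit 573453) (nat_lit 9) .nil)))) (.g (nat_lit 0) (.e (nat_lit 95775) (nat_lit 0) .nil) .nil))) 
(.lf (nat_lit 475066) (.g (nat_lit 882) (.e (nat_lit 1413) (nat_lit 108) (.e (nat_lit 336430) (nat_lit 29) (.e (nat_lit 442379) (nat_lit 0) .nil))) (.g (nat_lit 0) (.e (nat_lit 97176) (nat_lit 0) .nil) .nil)))))) (.nd (nat_lit 7) (.nd (nat_lit 8) (.nd (nat_lit 9) 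
(.lf (nat_lit 474234) (.g (nat_lit 3237) (.e (nat_lit 1239) (nat_lit 91) (.e (nat_lit 90170) (nat_lit 13) (.e (nat_lit 172113) (nat_lit 10) (.e (nat_lit 434242) (nat_lit 28) (.e (nat_lit 573451) (nat_lit 9) (.e (nat_lit 359) (nat_lit 30) (.e (nat_lit 409603) (nat_lit 0) (.e (nat_lit 5270) (nat_lit 298) .nil)))))))) (.g (nat_lit 1) (.e (nat_lit 95417) (nat_lit 0) .nil) .nil))) 
(.lf (nat_lit 474746) (.g (nat_lit 3439) (.e (nat_lit 1278) (nat_lit 94) (.e (nat_lit 114698) (nat_lit 11) (.e (nat_lit 426124) (nat_lit 2) (.e (nat_lit 196672) (nat_lit 15) (.e (nat_lit 81943) (nat_lit 20) .nil))))) (.g (nat_lit 0) (.e (nat_lit 96061) (nat_lit 0) .nil) .nil)))) (.nd (nat_lit 9) 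
(.lf (nat_lit 474490) (.g (nat_lit 726) (.e (nat_lit 1252) (nat_lit 92) (.e (nat_lit 98350) (nat_lit 24) (.e (nat_lit 409646) (nat_lit 18) .nil))) (.g (nat_lit 0) (.e (nat_lit 95690) (nat_lit 0) .nil) .nil))) 
(.lf (nat_lit 475002) (.g (nat_lit 2954) (.e (nat_lit 1363) (nat_lit 102) (.e (nat_lit 286733) (nat_lit 2) (.e (nat_lit 90170) (nat_lit 13) (.e (nat_lit 172106) (nat_lit 10) (.e (nat_lit 434231) (nat_lit 23) .nil))))) (.g (nat_lit 0) (.e (nat_lit 96999) (nat_lit 0) .nil) .nil))))) (.nd (nat_lit 8) (.nd (nat_lit 9) 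
(.lf (nat_lit 474362) (.g (nat_lit 3052) (.e (nat_lit 1249) (nat_lit 92) (.e (nat_lit 98373) (nat_lit 29) (.e (nat_lit 450588) (nat_lit 10) (.e (nat_lit 573471) (nat_lit 11) .nil)))) (.g (nat_lit 0) (.e (nat_lit 95553) (nat_lit 0) .nil) .nil))) 
(.lf (nat_lit 474874) (.g (nat_lit 1283) (.e (nat_lit 1380) (nat_lit 105) (.e (nat_lit 311344) (nat_lit 13) (.e (nat_lit 483372) (nat_lit 21) (.e (nat_lit 319533) (nat_lit 16) .nil)))) (.g (nat_lit 0) (.e (nat_lit 96614) (nat_lit 0) .nil) .nil)))) (.nd (nat_lit 9) 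
(.lf (nat_lit 474618) (.g (nat_lit 3118) (.e (nat_lit 1255) (nat_lit 92) (.e (nat_lit 98356) (nat_lit 26) (.e (nat_lit 426436) (nat_lit 18) (.e (nat_lit 98335) (nat_lit 18) (.e (nat_lit 164305) (nat_lit 226) .nil))))) (.g (nat_lit 0) (.e (nat_lit 95871) (nat_lit 0) .nil) .nil))) 
(.lf (nat_lit 475130) (.g (nat_lit 2101) (.e (nat_lit 1426) (nat_lit 108) (.e (nat_lit 336367) (nat_lit 27) (.e (nat_lit 426320) (nat_lit 12) (.e (nat_lit 475199) (nat_lit 40) (.e (nat_lit 704595) (nat_lit 5) (.e (nat_lit 180277) (nat_lit 32) .nil)))))) (.g (nat_lit 1) (.e (nat_lit 97307) (nat_lit 0) .nil) .nil)))))))))) 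
(.nd (nat_lit 3) (.nd (nat_lit 4) (.nd (nat_lit 5) (.nd (nat_lit 6) (.nd (nat_lit 7) 
(.nd (nat_lit 8) (.nd (nat_lit 9) 
(.lf (nat_lit 474118) (.g (nat_lit 1518) (.e (nat_lit 1235) (nat_lit 91) (.e (nat_lit 90170) (nat_lit 13) (.e (nat_lit 172113) (nat_lit 10) (.e (nat_lit 434245) (nat_lit 28) (.e (nat_lit 573470) (nat_lit 11) .nil))))) (.g (nat_lit 0) (.e (nat_lit 95287) (nat_lit 0) .nil) .nil))) 
(.lf (nat_lit 474630) (.g (nat_lit 4678) (.e (nat_lit 1255) (nat_lit 92) (.e (nat_lit 98373) (nat_lit 29) (.e (nat_lit 450588) (nat_lit 10) (.e (nat_lit 573469) (nat_lit 11) (.e (nat_lit 16388) (nat_lit 0) .nil))))) (.g (nat_lit 0) (.e (nat_lit 95902) (nat_lit 0) .nil) .nil)))) (.nd (nat_lit 9) 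
(.lf (nat_lit 474374) (.g (nat_lit 1750) (.e (nat_lit 1250) (nat_lit 92) (.e (nat_lit 98350) (nat_lit 24) (.e (nat_lit 409643) (nat_lit 18) (.e (nat_lit 303117) (nat_lit 2) (.e (nat_lit 196669) (nat_lit 14) (.e (nat_lit 81664) (nat_lit 40) .nil)))))) (.g (nat_lit 1) (.e (nat_lit 95565) (nat_lit 0) .nil) .nil))) 
(.lf (nat_lit 474886) (.g (nat_lit 1438) (.e (nat_lit 1385) (nat_lit 105) (.e (nat_lit 311357) (nat_lit 28) (.e (nat_lit 344069) (nat_lit 0) (.e (nat_lit 3090) (nat_lit 191) (.e (nat_lit 483354) (nat_lit 17) (.e (nat_lit 6149) (nat_lit 332) .nil)))))) (.g (nat_lit 1) (.e (nat_lit 96685) (nat_lit 0) .nil) .nil))))) (.nd (nat_lit 8) (.nd (nat_lit 9) 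
(.lf (nat_lit 474246) (.g (nat_lit 2739) (.e (nat_lit 1239) (nat_lit 91) (.e (nat_lit 90170) (nat_lit 13) (.e (nat_lit 172113) (nat_lit 10) (.e (nat_lit 434245) (nat_lit 28) (.e (nat_lit 573450) (nat_lit 9) (.e (nat_lit 452) (nat_lit 33) (.e (nat_lit 442112) (nat_lit 0) .nil))))))) (.g (nat_lit 1) (.e (nat_lit 95429) (nat_lit 0) .nil) .nil))) 
(.lf (nat_lit 474758) (.g (nat_lit 2387) (.e (nat_lit 1310) (nat_lit 98) (.e (nat_lit 147496) (nat_lit 11) (.e (nat_lit 24604) (nat_lit 2) (.e (nat_lit 90170) (nat_lit 13) (.e (nat_lit 172106) (nat_lit 10) (.e (nat_lit 434244) (nat_lit 28) (.e (nat_lit 573453) (nat_lit 9) .nil))))))) (.g (nat_lit 1) (.e (nat_lit 96158) (nat_lit 0) .nil) .nil)))) (.nd (nat_lit 9) 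
(.lf (nat_lit 474502) (.g (nat_lit 3974) (.e (nat_lit 1252) (nat_lit 92) (.e (nat_lit 98373) (nat_lit 29) (.e (nat_lit 450588) (nat_lit 10) (.e (nat_lit 573449) (nat_lit 9) (.e (nat_lit 7936) (nat_lit 33) .nil))))) (.g (nat_lit 0) (.e (nat_lit 95709) (nat_lit 0) .nil) .nil))) 
(.lf (nat_lit 475014) (.g (nat_lit 1189) (.e (nat_lit 1368) (nat_lit 103) (.e (nat_lit 294928) (nat_lit 2) (.e (nat_lit 90178) (nat_lit 15) (.e (nat_lit 188448) (nat_lit 22) .nil)))) (.g (nat_lit 0) (.e (nat_lit 97033) (nat_lit 0) .nil) .nil)))))) (.nd (nat_lit 7) (.nd (nat_lit 8) (.nd (nat_lit 9) 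
(.lf (nat_lit 474182) (.g (nat_lit 2173) (.e (nat_lit 1239) (nat_lit 91) (.e (nat_lit 90170) (nat_lit 13) (.e (nat_lit 172106) (nat_lit 10) (.e (nat_lit 434244) (nat_lit 28) (.e (nat_lit 573449) (nat_lit 9) (.e (nat_lit 449) (nat_lit 33) (.e (nat_lit 442112) (nat_lit 0) .nil))))))) (.g (nat_lit 1) (.e (nat_lit 95365) (nat_lit 0) .nil) .nil))) 
(.lf (nat_lit 474694) (.g (nat_lit 2233) (.e (nat_lit 1256) (nat_lit 92) (.e (nat_lit 98370) (nat_lit 28) (.e (nat_lit 442430) (nat_lit 24) (.e (nat_lit 229535) (nat_lit 134) (.e (nat_lit 2639) (nat_lit 165) (.e (nat_lit 188160) (nat_lit 32) .nil)))))) (.g (nat_lit 1) (.e (nat_lit 95983) (nat_lit 0) .nil) .nil)))) (.nd (nat_lit 9) 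
(.lf (nat_lit 474438) (.g (nat_lit 2256) (.e (nat_lit 1251) (nat_lit 92) (.e (nat_lit 98333) (nat_lit 18) (.e (nat_lit 164399) (nat_lit 256) (.e (nat_lit 57373) (nat_lit 2) (.e (nat_lit 90174) (nat_lit 14) .nil))))) (.g (nat_lit 0) (.e (nat_lit 95632) (nat_lit 0) .nil) .nil))) 
(.lf (nat_lit 474950) (.g (nat_lit 437) (.e (nat_lit 1349) (nat_lit 102) (.e (nat_lit 286748) (nat_lit 9) (.e (nat_lit 335907) (nat_lit 0) .nil))) (.g (nat_lit 0) (.e (nat_lit 96847) (nat_lit 0) .nil) .nil))))) (.nd (nat_lit 8) (.nd (nat_lit 9) 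
(.lf (nat_lit 474310) (.g (nat_lit 4154) (.e (nat_lit 1239) (nat_lit 91) (.e (nat_lit 90170) (nat_lit 13) (.e (nat_lit 172113) (nat_lit 10) (.e (nat_lit 434248) (nat_lit 28) (.e (nat_lit 573452) (nat_lit 9) (.e (nat_lit 430) (nat_lit 32) (.e (nat_lit 426009) (nat_lit 0) (.e (nat_lit 7490) (nat_lit 402) .nil)))))))) (.g (nat_lit 1) (.e (nat_lit 95493) (nat_lit 0) .nil) .nil))) 
(.lf (nat_lit 474822) (.g (nat_lit 1955) (.e (nat_lit 1376) (nat_lit 104) (.e (nat_lit 303118) (nat_lit 3) (.e (nat_lit 204846) (nat_lit 24) (.e (nat_lit 319538) (nat_lit 19) .nil)))) (.g (nat_lit 0) (.e (nat_lit 96385) (nat_lit 0) .nil) .nil)))) (.nd (nat_lit 9) 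
(.lf (nat_lit 474566) (.g (nat_lit 2379) (.e (nat_lit 1254) (nat_lit 92) (.e (nat_lit 98333) (nat_lit 18) (.e (nat_lit 164327) (nat_lit 230) (.e (nat_lit 163875) (nat_lit 3) (.e (nat_lit 204809) (nat_lit 9) .nil))))) (.g (nat_lit 0) (.e (nat_lit 95789) (nat_lit 0) .nil) .nil))) 
(.lf (nat_lit 475078) (.g (nat_lit 490) (.e (nat_lit 1416) (nat_lit 108) (.e (nat_lit 336454) (nat_lit 34) (.e (nat_lit 483408) (nat_lit 26) .nil))) (.g (nat_lit 0) (.e (nat_lit 97195) (nat_lit 0) .nil) .nil))))))) (.nd (nat_lit 6) (.nd (nat_lit 7) (.nd (nat_lit 8) (.nd (nat_lit 9) 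
(.lf (nat_lit 474150) (.g (nat_lit 2729) (.e (nat_lit 1237) (nat_lit 91) (.e (nat_lit 90170) (nat_lit 13) (.e (nat_lit 172113) (nat_lit 10) (.e (nat_lit 434242) (nat_lit 28) (.e (nat_lit 573471) (nat_lit 11) .nil))))) (.g (nat_lit 0) (.e (nat_lit 95326) (nat_lit 0) .nil) .nil))) 
(.lf (nat_lit 474662) (.g (nat_lit 1739) (.e (nat_lit 1256) (nat_lit 92) (.e (nat_lit 98341) (nat_lit 20) (.e (nat_lit 221212) (nat_lit 22) (.e (nat_lit 196670) (nat_lit 14) (.e (nat_lit 73746) (nat_lit 3) .nil))))) (.g (nat_lit 0) (.e (nat_lit 95941) (nat_lit 0) .nil) .nil)))) (.nd (nat_lit 9) 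
(.lf (nat_lit 474406) (.g (nat_lit 1175) (.e (nat_lit 1250) (nat_lit 92) (.e (nat_lit 98372) (nat_lit 29) (.e (nat_lit 450579) (nat_lit 5) (.e (nat_lit 532526) (nat_lit 8) .nil)))) (.g (nat_lit 0) (.e (nat_lit 95599) (nat_lit 0) .nil) .nil))) 
(.lf (nat_lit 474918) (.g (nat_lit 3079) (.e (nat_lit 1348) (nat_lit 102) (.e (nat_lit 286735) (nat_lit 3) (.e (nat_lit 98350) (nat_lit 24) (.e (nat_lit 409602) (nat_lit 0) (.e (nat_lit 5293) (nat_lit 298) (.e (nat_lit 1232) (nat_lit 91) (.e (nat_lit 90133) (nat_lit 9) (.e (nat_lit 2400) (nat_lit 157) (.e (nat_lit 7064) (nat_lit 377) .nil))))))))) (.g (nat_lit 1) (.e (nat_lit 96781) (nat_lit 0) .nil) .nil))))) 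
(.nd (nat_lit 8) (.nd (nat_lit 9) 
(.lf (nat_lit 474278) (.g (nat_lit 3501) (.e (nat_lit 1239) (nat_lit 91) (.e (nat_lit 90170) (nat_lit 13) (.e (nat_lit 172113) (nat_lit 10) (.e (nat_lit 434247) (nat_lit 28) (.e (nat_lit 573457) (nat_lit 9) (.e (nat_lit 365) (nat_lit 31) (.e (nat_lit 417793) (nat_lit 0) (.e (nat_lit 5271) (nat_lit 298) .nil)))))))) (.g (nat_lit 1) (.e (nat_lit 95461) (nat_lit 0) .nil) .nil))) 
(.lf (nat_lit 474790) (.g (nat_lit 3505) (.e (nat_lit 1374) (nat_lit 104) (.e (nat_lit 303119) (nat_lit 3) (.e (nat_lit 204846) (nat_lit 24) (.e (nat_lit 319528) (nat_lit 16) (.e (nat_lit 286735) (nat_lit 3) (.e (nat_lit 98323) (nat_lit 17) (.e (nat_lit 6989) (nat_lit 377) .nil))))))) (.g (nat_lit 1) (.e (nat_lit 96278) (nat_lit 0) .nil) .nil)))) (.nd (nat_lit 9) 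
(.lf (nat_lit 474534) (.g (nat_lit 2684) (.e (nat_lit 1253) (nat_lit 92) (.e (nat_lit 98373) (nat_lit 29) (.e (nat_lit 450585) (nat_lit 10) (.e (nat_lit 573455) (nat_lit 9) .nil)))) (.g (nat_lit 0) (.e (nat_lit 95755) (nat_lit 0) .nil) .nil))) 
(.lf (nat_lit 475046) (.g (nat_lit 3341) (.e (nat_lit 1400) (nat_lit 106) (.e (nat_lit 319530) (nat_lit 16) (.e (nat_lit 286733) (nat_lit 2) (.e (nat_lit 90128) (nat_lit 9) (.e (nat_lit 3044) (nat_lit 189) (.e (nat_lit 466975) (nat_lit 22) (.e (nat_lit 196626) (nat_lit 9) .nil))))))) (.g (nat_lit 1) (.e (nat_lit 97138) (nat_lit 0) .nil) .nil)))))) 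
(.nd (nat_lit 7) (.nd (nat_lit 8) (.nd (nat_lit 9) 
(.lf (nat_lit 474214) (.g (nat_lit 3537) (.e (nat_lit 1239) (nat_lit 91) (.e (nat_lit 90170) (nat_lit 13) (.e (nat_lit 172106) (nat_lit 10) (.e (nat_lit 434244) (nat_lit 28) (.e (nat_lit 573458) (nat_lit 9) (.e (nat_lit 426) (nat_lit 32) (.e (nat_lit 426010) (nat_lit 0) (.e (nat_lit 7490) (nat_lit 402) .nil)))))))) (.g (nat_lit 1) (.e (nat_lit 95397) (nat_lit 0) .nil) .nil))) 
(.lf (nat_lit 474726) (.g (nat_lit 3275) (.e (nat_lit 1257) (nat_lit 93) (.e (nat_lit 106534) (nat_lit 11) (.e (nat_lit 16425) (nat_lit 7) (.e (nat_lit 409648) (nat_lit 18) (.e (nat_lit 303138) (nat_lit 10) .nil))))) (.g (nat_lit 0) (.e (nat_lit 96016) (nat_lit 0) .nil) .nil)))) (.nd (nat_lit 9) 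
(.lf (nat_lit 474470) (.g (nat_lit 3303) (.e (nat_lit 1252) (nat_lit 92) (.e (nat_lit 98333) (nat_lit 18) (.e (nat_lit 164403) (nat_lit 256) (.e (nat_lit 57378) (nat_lit 3) (.e (nat_lit 98366) (nat_lit 27) .nil))))) (.g (nat_lit 0) (.e (nat_lit 95669) (nat_lit 0) .nil) .nil))) 
(.lf (nat_lit 474982) (.g (nat_lit 1864) (.e (nat_lit 1359) (nat_lit 102) (.e (nat_lit 286748) (nat_lit 9) (.e (nat_lit 336295) (nat_lit 15) (.e (nat_lit 3748) (nat_lit 228) .nil)))) (.g (nat_lit 0) (.e (nat_lit 96930) (nat_lit 0) .nil) .nil))))) (.nd (nat_lit 8) (.nd (nat_lit 9) 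
(.lf (nat_lit 474342) (.g (nat_lit 3010) (.e (nat_lit 1246) (nat_lit 92) (.e (nat_lit 98333) (nat_lit 18) (.e (nat_lit 164403) (nat_lit 256) (.e (nat_lit 57373) (nat_lit 2) (.e (nat_lit 90174) (nat_lit 14) .nil))))) (.g (nat_lit 0) (.e (nat_lit 95532) (nat_lit 0) .nil) .nil))) 
(.lf (nat_lit 474854) (.g (nat_lit 3180) (.e (nat_lit 1376) (nat_lit 104) (.e (nat_lit 303147) (nat_lit 15) (.e (nat_lit 1858) (nat_lit 124) (.e (nat_lit 557107) (nat_lit 15) (.e (nat_lit 188447) (nat_lit 22) .nil))))) (.g (nat_lit 0) (.e (nat_lit 96447) (nat_lit 0) .nil) .nil)))) (.nd (nat_lit 9) 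
(.lf (nat_lit 474598) (.g (nat_lit 2159) (.e (nat_lit 1254) (nat_lit 92) (.e (nat_lit 98335) (nat_lit 18) (.e (nat_lit 164403) (nat_lit 256) (.e (nat_lit 57371) (nat_lit 2) (.e (nat_lit 90174) (nat_lit 14) .nil))))) (.g (nat_lit 0) (.e (nat_lit 95821) (nat_lit 0) .nil) .nil))) 
(.lf (nat_lit 475110) (.g (nat_lit 2000) (.e (nat_lit 1425) (nat_lit 108) (.e (nat_lit 336430) (nat_lit 29) (.e (nat_lit 442419) (nat_lit 21) (.e (nat_lit 164345) (nat_lit 240) (.e (nat_lit 2638) (nat_lit 165) (.e (nat_lit 180277) (nat_lit 32) .nil)))))) (.g (nat_lit 1) (.e (nat_lit 97271) (nat_lit 0) .nil) .nil)))))))) 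
(.nd (nat_lit 5) (.nd (nat_lit 6) (.nd (nat_lit 7) (.nd (nat_lit 8) (.nd (nat_lit 9) 
(.lf (nat_lit 474134) (.g (nat_lit 1675) (.e (nat_lit 1235) (nat_lit 91) (.e (nat_lit 90178) (nat_lit 15) (.e (nat_lit 188441) (nat_lit 20) (.e (nat_lit 3272) (nat_lit 199) (.e (nat_lit 548913) (nat_lit 18) .nil))))) (.g (nat_lit 0) (.e (nat_lit 95304) (nat_lit 0) .nil) .nil))) 
(.lf (nat_lit 474646) (.g (nat_lit 3550) (.e (nat_lit 1256) (nat_lit 92) (.e (nat_lit 98321) (nat_lit 17) (.e (nat_lit 3771) (nat_lit 229) (.e (nat_lit 794669) (nat_lit 22) (.e (nat_lit 196668) (nat_lit 14) (.e (nat_lit 73747) (nat_lit 3) (.e (nat_lit 516119) (nat_lit 1) (.e (nat_lit 164149) (nat_lit 152) (.e (nat_lit 974) (nat_lit 81) .nil))))))))) (.g (nat_lit 1) (.e (nat_lit 95925) (nat_lit 0) .nil) .nil)))) 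
(.nd (nat_lit 9) 
(.lf (nat_lit 474390) (.g (nat_lit 3734) (.e (nat_lit 1250) (nat_lit 92) (.e (nat_lit 98350) (nat_lit 24) (.e (nat_lit 409648) (nat_lit 18) (.e (nat_lit 303117) (nat_lit 2) (.e (nat_lit 196670) (nat_lit 14) (.e (nat_lit 81664) (nat_lit 40) .nil)))))) (.g (nat_lit 1) (.e (nat_lit 95581) (nat_lit 0) .nil) .nil))) 
(.lf (nat_lit 474902) (.g (nat_lit 3531) (.e (nat_lit 1346) (nat_lit 102) (.e (nat_lit 286733) (nat_lit 2) (.e (nat_lit 90170) (nat_lit 13) (.e (nat_lit 172113) (nat_lit 10) .nil)))) (.g (nat_lit 0) (.e (nat_lit 96731) (nat_lit 0) .nil) .nil))))) (.nd (nat_lit 8) (.nd (nat_lit 9) 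
(.lf (nat_lit 474262) (.g (nat_lit 2127) (.e (nat_lit 1239) (nat_lit 91) (.e (nat_lit 90170) (nat_lit 13) (.e (nat_lit 172113) (nat_lit 10) (.e (nat_lit 434245) (nat_lit 28) (.e (nat_lit 573458) (nat_lit 9) (.e (nat_lit 420) (nat_lit 32) (.e (nat_lit 425990) (nat_lit 0) (.e (nat_lit 7489) (nat_lit 402) .nil)))))))) (.g (nat_lit 1) (.e (nat_lit 95445) (nat_lit 0) .nil) .nil))) 
(.lf (nat_lit 474774) (.g (nat_lit 687) (.e (nat_lit 1374) (nat_lit 104) (.e (nat_lit 303117) (nat_lit 2) (.e (nat_lit 196661) (nat_lit 12) .nil))) (.g (nat_lit 0) (.e (nat_lit 96242) (nat_lit 0) .nil) .nil)))) (.nd (nat_lit 9) 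
(.lf (nat_lit 474518) (.g (nat_lit 1120) (.e (nat_lit 1253) (nat_lit 92) (.e (nat_lit 98367) (nat_lit 27) (.e (nat_lit 434178) (nat_lit 0) .nil))) (.g (nat_lit 0) (.e (nat_lit 95735) (nat_lit 0) .nil) .nil))) 
(.lf (nat_lit 475030) (.g (nat_lit 5133) (.e (nat_lit 1401) (nat_lit 106) (.e (nat_lit 319537) (nat_lit 19) (.e (nat_lit 311315) (nat_lit 3) (.e (nat_lit 204846) (nat_lit 24) (.e (nat_lit 319533) (nat_lit 16) (.e (nat_lit 286724) (nat_lit 0) (.e (nat_lit 1842) (nat_lit 123) (.e (nat_lit 548874) (nat_lit 5) .nil)))))))) (.g (nat_lit 1) (.e (nat_lit 97106) (nat_lit 0) .nil) .nil)))))) 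
(.nd (nat_lit 7) (.nd (nat_lit 8) (.nd (nat_lit 9) 
(.lf (nat_lit 474198) (.g (nat_lit 4604) (.e (nat_lit 1239) (nat_lit 91) (.e (nat_lit 90170) (nat_lit 13) (.e (nat_lit 172106) (nat_lit 10) (.e (nat_lit 434244) (nat_lit 28) (.e (nat_lit 573451) (nat_lit 9) (.e (nat_lit 365) (nat_lit 31) (.e (nat_lit 417795) (nat_lit 0) (.e (nat_lit 5271) (nat_lit 298) .nil)))))))) (.g (nat_lit 1) (.e (nat_lit 95381) (nat_lit 0) .nil) .nil))) 
(.lf (nat_lit 474710) (.g (nat_lit 3283) (.e (nat_lit 1256) (nat_lit 92) (.e (nat_lit 98373) (nat_lit 29) (.e (nat_lit 450588) (nat_lit 10) (.e (nat_lit 573449) (nat_lit 9) (.e (nat_lit 449) (nat_lit 33) (.e (nat_lit 442112) (nat_lit 0) .nil)))))) (.g (nat_lit 1) (.e (nat_lit 95999) (nat_lit 0) .nil) .nil)))) (.nd (nat_lit 9) 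
(.lf (nat_lit 474454) (.g (nat_lit 2802) (.e (nat_lit 1252) (nat_lit 92) (.e (nat_lit 98333) (nat_lit 18) (.e (nat_lit 164327) (nat_lit 230) (.e (nat_lit 163868) (nat_lit 2) (.e (nat_lit 196656) (nat_lit 11) (.e (nat_lit 16416) (nat_lit 3) (.e (nat_lit 204834) (nat_lit 19) (.e (nat_lit 106517) (nat_lit 9) .nil)))))))) (.g (nat_lit 1) (.e (nat_lit 95652) (nat_lit 0) .nil) .nil))) 
(.lf (nat_lit 474966) (.g (nat_lit 3600) (.e (nat_lit 1357) (nat_lit 102) (.e (nat_lit 286733) (nat_lit 2) (.e (nat_lit 90170) (nat_lit 13) (.e (nat_lit 172115) (nat_lit 10) .nil)))) (.g (nat_lit 0) (.e (nat_lit 96886) (nat_lit 0) .nil) .nil))))) (.nd (nat_lit 8) (.nd (nat_lit 9) 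
(.lf (nat_lit 474326) (.g (nat_lit 3081) (.e (nat_lit 1239) (nat_lit 91) (.e (nat_lit 90174) (nat_lit 14) (.e (nat_lit 180288) (nat_lit 45) (.e (nat_lit 2571) (nat_lit 160) (.e (nat_lit 32808) (nat_lit 19) (.e (nat_lit 188160) (nat_lit 32) .nil)))))) (.g (nat_lit 1) (.e (nat_lit 95509) (nat_lit 0) .nil) .nil))) 
(.lf (nat_lit 474838) (.g (nat_lit 3135) (.e (nat_lit 1376) (nat_lit 104) (.e (nat_lit 303119) (nat_lit 3) (.e (nat_lit 204846) (nat_lit 24) (.e (nat_lit 319531) (nat_lit 16) (.e (nat_lit 286735) (nat_lit 3) .nil))))) (.g (nat_lit 0) (.e (nat_lit 96411) (nat_lit 0) .nil) .nil)))) (.nd (nat_lit 9) 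
(.lf (nat_lit 474582) (.g (nat_lit 2366) (.e (nat_lit 1254) (nat_lit 92) (.e (nat_lit 98334) (nat_lit 18) (.e (nat_lit 164330) (nat_lit 230) (.e (nat_lit 163874) (nat_lit 3) (.e (nat_lit 204809) (nat_lit 9) .nil))))) (.g (nat_lit 0) (.e (nat_lit 95805) (nat_lit 0) .nil) .nil))) 
(.lf (nat_lit 475094) (.g (nat_lit 2212) (.e (nat_lit 1423) (nat_lit 108) (.e (nat_lit 336456) (nat_lit 34) (.e (nat_lit 483383) (nat_lit 23) (.e (nat_lit 336019) (nat_lit 3) (.e (nat_lit 98333) (nat_lit 18) .nil))))) (.g (nat_lit 0) (.e (nat_lit 97237) (nat_lit 0) .nil) .nil))))))) (.nd (nat_lit 6) (.nd (nat_lit 7) (.nd (nat_lit 8) (.nd (nat_lit 9) 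
(.lf (nat_lit 474166) (.g (nat_lit 1852) (.e (nat_lit 1239) (nat_lit 91) (.e (nat_lit 90170) (nat_lit 13) (.e (nat_lit 172106) (nat_lit 10) (.e (nat_lit 434230) (nat_lit 23) .nil)))) (.g (nat_lit 0) (.e (nat_lit 95349) (nat_lit 0) .nil) .nil))) 
(.lf (nat_lit 474678) (.g (nat_lit 1672) (.e (nat_lit 1256) (nat_lit 92) (.e (nat_lit 98359) (nat_lit 26) (.e (nat_lit 426171) (nat_lit 7) (.e (nat_lit 409612) (nat_lit 10) (.e (nat_lit 504) (nat_lit 41) .nil))))) (.g (nat_lit 0) (.e (nat_lit 95961) (nat_lit 0) .nil) .nil)))) (.nd (nat_lit 9) 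
(.lf (nat_lit 474422) (.g (nat_lit 4454) (.e (nat_lit 1250) (nat_lit 92) (.e (nat_lit 98373) (nat_lit 29) (.e (nat_lit 450587) (nat_lit 10) (.e (nat_lit 573455) (nat_lit 9) .nil)))) (.g (nat_lit 0) (.e (nat_lit 95615) (nat_lit 0) .nil) .nil))) 
(.lf (nat_lit 474934) (.g (nat_lit 4595) (.e (nat_lit 1349) (nat_lit 102) (.e (nat_lit 286733) (nat_lit 2) (.e (nat_lit 90170) (nat_lit 13) (.e (nat_lit 172124) (nat_lit 14) (.e (nat_lit 491537) (nat_lit 2) (.e (nat_lit 90133) (nat_lit 9) (.e (nat_lit 2397) (nat_lit 157) (.e (nat_lit 7064) (nat_lit 377) .nil)))))))) (.g (nat_lit 1) (.e (nat_lit 96827) (nat_lit 0) .nil) .nil))))) 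
(.nd (nat_lit 8) (.nd (nat_lit 9) 
(.lf (nat_lit 474294) (.g (nat_lit 2327) (.e (nat_lit 1239) (nat_lit 91) (.e (nat_lit 90170) (nat_lit 13) (.e (nat_lit 172113) (nat_lit 10) (.e (nat_lit 434248) (nat_lit 28) (.e (nat_lit 573449) (nat_lit 9) (.e (nat_lit 475) (nat_lit 36) (.e (nat_lit 466688) (nat_lit 0) .nil))))))) (.g (nat_lit 1) (.e (nat_lit 95477) (nat_lit 0) .nil) .nil))) 
(.lf (nat_lit 474806) (.g (nat_lit 4519) (.e (nat_lit 1374) (nat_lit 104) (.e (nat_lit 303119) (nat_lit 3) (.e (nat_lit 204885) (nat_lit 33) (.e (nat_lit 401434) (nat_lit 9) (.e (nat_lit 426125) (nat_lit 2) (.e (nat_lit 196661) (nat_lit 12) (.e (nat_lit 57711) (nat_lit 176) .nil))))))) (.g (nat_lit 1) (.e (nat_lit 96294) (nat_lit 0) .nil) .nil)))) (.nd (nat_lit 9) 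
(.lf (nat_lit 474550) (.g (nat_lit 3827) (.e (nat_lit 1253) (nat_lit 92) (.e (nat_lit 98373) (nat_lit 29) (.e (nat_lit 450588) (nat_lit 10) (.e (nat_lit 573449) (nat_lit 9) (.e (nat_lit 452) (nat_lit 33) .nil))))) (.g (nat_lit 0) (.e (nat_lit 95771) (nat_lit 0) .nil) .nil))) 
(.lf (nat_lit 475062) (.g (nat_lit 1665) (.e (nat_lit 1400) (nat_lit 106) (.e (nat_lit 319534) (nat_lit 16) (.e (nat_lit 286735) (nat_lit 3) (.e (nat_lit 106240) (nat_lit 31) .nil)))) (.g (nat_lit 0) (.e (nat_lit 97162) (nat_lit 0) .nil) .nil)))))) (.nd (nat_lit 7) (.nd (nat_lit 8) (.nd (nat_lit 9) 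
(.lf (nat_lit 474230) (.g (nat_lit 2697) (.e (nat_lit 1239) (nat_lit 91) (.e (nat_lit 90170) (nat_lit 13) (.e (nat_lit 172113) (nat_lit 10) (.e (nat_lit 434242) (nat_lit 28) (.e (nat_lit 573450) (nat_lit 9) (.e (nat_lit 433) (nat_lit 32) (.e (nat_lit 425984) (nat_lit 0) (.e (nat_lit 7489) (nat_lit 402) .nil)))))))) (.g (nat_lit 1) (.e (nat_lit 95413) (nat_lit 0) .nil) .nil))) 
(.lf (nat_lit 474742) (.g (nat_lit 1939) (.e (nat_lit 1277) (nat_lit 94) (.e (nat_lit 114719) (nat_lit 23) (.e (nat_lit 98366) (nat_lit 27) (.e (nat_lit 434233) (nat_lit 23) (.e (nat_lit 532503) (nat_lit 1) .nil))))) (.g (nat_lit 0) (.e (nat_lit 96054) (nat_lit 0) .nil) .nil)))) (.nd (nat_lit 9) 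
(.lf (nat_lit 474486) (.g (nat_lit 2577) (.e (nat_lit 1252) (nat_lit 92) (.e (nat_lit 98335) (nat_lit 18) (.e (nat_lit 164330) (nat_lit 230) (.e (nat_lit 163873) (nat_lit 3) (.e (nat_lit 204809) (nat_lit 9) (.e (nat_lit 426139) (nat_lit 3) (.e (nat_lit 204834) (nat_lit 19) (.e (nat_lit 106517) (nat_lit 9) .nil)))))))) (.g (nat_lit 1) (.e (nat_lit 95685) (nat_lit 0) .nil) .nil))) 
(.lf (nat_lit 474998) (.g (nat_lit 2467) (.e (nat_lit 1361) (nat_lit 102) (.e (nat_lit 286759) (nat_lit 12) (.e (nat_lit 385094) (nat_lit 49) (.e (nat_lit 778548) (nat_lit 14) .nil)))) (.g (nat_lit 0) (.e (nat_lit 96994) (nat_lit 0) .nil) .nil))))) (.nd (nat_lit 8) (.nd (nat_lit 9) 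
(.lf (nat_lit 474358) (.g (nat_lit 3115) (.e (nat_lit 1247) (nat_lit 92) (.e (nat_lit 98373) (nat_lit 29) (.e (nat_lit 450588) (nat_lit 10) (.e (nat_lit 573471) (nat_lit 11) .nil)))) (.g (nat_lit 0) (.e (nat_lit 95549) (nat_lit 0) .nil) .nil))) 
(.lf (nat_lit 474870) (.g (nat_lit 4328) (.e (nat_lit 1380) (nat_lit 105) (.e (nat_lit 311342) (nat_lit 13) (.e (nat_lit 483413) (nat_lit 27) (.e (nat_lit 401447) (nat_lit 10) (.e (nat_lit 434289) (nat_lit 43) (.e (nat_lit 696325) (nat_lit 0) .nil)))))) (.g (nat_lit 1) (.e (nat_lit 96591) (nat_lit 0) .nil) .nil)))) (.nd (nat_lit 9) 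
(.lf (nat_lit 474614) (.g (nat_lit 2803) (.e (nat_lit 1255) (nat_lit 92) (.e (nat_lit 98335) (nat_lit 18) (.e (nat_lit 164330) (nat_lit 230) (.e (nat_lit 163869) (nat_lit 2) (.e (nat_lit 196654) (nat_lit 11) (.e (nat_lit 16416) (nat_lit 3) (.e (nat_lit 204834) (nat_lit 19) (.e (nat_lit 106517) (nat_lit 9) .nil)))))))) (.g (nat_lit 1) (.e (nat_lit 95859) (nat_lit 0) .nil) .nil))) 
(.lf (nat_lit 475126) (.g (nat_lit 1250) (.e (nat_lit 1425) (nat_lit 108) (.e (nat_lit 336454) (nat_lit 34) (.e (nat_lit 483403) (nat_lit 26) (.e (nat_lit 385066) (nat_lit 26) .nil)))) (.g (nat_lit 0) (.e (nat_lit 97295) (nat_lit 0) .nil) .nil))))))))) (.nd (nat_lit 4) (.nd (nat_lit 5) (.nd (nat_lit 6) (.nd (nat_lit 7) (.nd (nat_lit 8) (.nd (nat_lit 9) 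
(.lf (nat_lit 474126) (.g (nat_lit 2840) (.e (nat_lit 1235) (nat_lit 91) (.e (nat_lit 90170) (nat_lit 13) (.e (nat_lit 172124) (nat_lit 14) (.e (nat_lit 491537) (nat_lit 2) (.e (nat_lit 90173) (nat_lit 14) .nil))))) (.g (nat_lit 0) (.e (nat_lit 95295) (nat_lit 0) .nil) .nil))) 
(.lf (nat_lit 474638) (.g (nat_lit 2202) (.e (nat_lit 1255) (nat_lit 92) (.e (nat_lit 98384) (nat_lit 32) (.e (nat_lit 475177) (nat_lit 24) (.e (nat_lit 516117) (nat_lit 1) .nil)))) (.g (nat_lit 0) (.e (nat_lit 95910) (nat_lit 0) .nil) .nil)))) (.nd (nat_lit 9) 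
(.lf (nat_lit 474382) (.g (nat_lit 3172) (.e (nat_lit 1250) (nat_lit 92) (.e (nat_lit 98350) (nat_lit 24) (.e (nat_lit 409646) (nat_lit 18) (.e (nat_lit 303117) (nat_lit 2) (.e (nat_lit 196668) (nat_lit 14) (.e (nat_lit 81664) (nat_lit 40) .nil)))))) (.g (nat_lit 1) (.e (nat_lit 95573) (nat_lit 0) .nil) .nil))) 
(.lf (nat_lit 474894) (.g (nat_lit 2262) (.e (nat_lit 1386) (nat_lit 105) (.e (nat_lit 311357) (nat_lit 28) (.e (nat_lit 344069) (nat_lit 0) (.e (nat_lit 3090) (nat_lit 191) (.e (nat_lit 483350) (nat_lit 17) (.e (nat_lit 6123) (nat_lit 332) .nil)))))) (.g (nat_lit 1) (.e (nat_lit 96713) (nat_lit 0) .nil) .nil))))) (.nd (nat_lit 8) (.nd (nat_lit 9) 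
(.lf (nat_lit 474254) (.g (nat_lit 2036) (.e (nat_lit 1239) (nat_lit 91) (.e (nat_lit 90170) (nat_lit 13) (.e (nat_lit 172113) (nat_lit 10) (.e (nat_lit 434245) (nat_lit 28) (.e (nat_lit 573451) (nat_lit 9) (.e (nat_lit 7936) (nat_lit 32) (.e (nat_lit 425984) (nat_lit 0) (.e (nat_lit 7489) (nat_lit 402) .nil)))))))) (.g (nat_lit 1) (.e (nat_lit 95437) (nat_lit 0) .nil) .nil))) 
(.lf (nat_lit 474766) (.g (nat_lit 3324) (.e (nat_lit 1313) (nat_lit 98) (.e (nat_lit 147496) (nat_lit 11) (.e (nat_lit 24604) (nat_lit 2) (.e (nat_lit 90170) (nat_lit 13) (.e (nat_lit 172106) (nat_lit 10) (.e (nat_lit 434244) (nat_lit 28) (.e (nat_lit 573458) (nat_lit 9) .nil))))))) (.g (nat_lit 1) (.e (nat_lit 96167) (nat_lit 0) .nil) .nil)))) (.nd (nat_lit 9) 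
(.lf (nat_lit 474510) (.g (nat_lit 3157) (.e (nat_lit 1253) (nat_lit 92) (.e (nat_lit 98349) (nat_lit 24) (.e (nat_lit 409646) (nat_lit 18) (.e (nat_lit 303117) (nat_lit 2) (.e (nat_lit 196669) (nat_lit 14) .nil))))) (.g (nat_lit 0) (.e (nat_lit 95725) (nat_lit 0) .nil) .nil))) 
(.lf (nat_lit 475022) (.g (nat_lit 4016) (.e (nat_lit 1395) (nat_lit 106) (.e (nat_lit 319537) (nat_lit 19) (.e (nat_lit 311315) (nat_lit 3) (.e (nat_lit 204846) (nat_lit 24) (.e (nat_lit 319534) (nat_lit 16) (.e (nat_lit 286728) (nat_lit 0) (.e (nat_lit 1841) (nat_lit 123) (.e (nat_lit 548874) (nat_lit 5) .nil)))))))) (.g (nat_lit 1) (.e (nat_lit 97071) (nat_lit 0) .nil) .nil)))))) 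
(.nd (nat_lit 7) (.nd (nat_lit 8) (.nd (nat_lit 9) 
(.lf (nat_lit 474190) (.g (nat_lit 4351) (.e (nat_lit 1239) (nat_lit 91) (.e (nat_lit 90170) (nat_lit 13) (.e (nat_lit 172106) (nat_lit 10) (.e (nat_lit 434244) (nat_lit 28) (.e (nat_lit 573450) (nat_lit 9) (.e (nat_lit 473) (nat_lit 36) (.e (nat_lit 466688) (nat_lit 0) .nil))))))) (.g (nat_lit 1) (.e (nat_lit 95373) (nat_lit 0) .nil) .nil))) 
(.lf (nat_lit 474702) (.g (nat_lit 2794) (.e (nat_lit 1256) (nat_lit 92) (.e (nat_lit 98373) (nat_lit 29) (.e (nat_lit 450587) (nat_lit 10) (.e (nat_lit 573454) (nat_lit 9) (.e (nat_lit 441) (nat_lit 33) (.e (nat_lit 442112) (nat_lit 0) .nil)))))) (.g (nat_lit 1) (.e (nat_lit 95991) (nat_lit 0) .nil) .nil)))) (.nd (nat_lit 9) 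
(.lf (nat_lit 474446) (.g (nat_lit 2391) (.e (nat_lit 1251) (nat_lit 92) (.e (nat_lit 98334) (nat_lit 18) (.e (nat_lit 164398) (nat_lit 256) (.e (nat_lit 57373) (nat_lit 2) (.e (nat_lit 90174) (nat_lit 14) .nil))))) (.g (nat_lit 0) (.e (nat_lit 95641) (nat_lit 0) .nil) .nil))) 
(.lf (nat_lit 474958) (.g (nat_lit 3348) (.e (nat_lit 1355) (nat_lit 102) (.e (nat_lit 286733) (nat_lit 2) (.e (nat_lit 90170) (nat_lit 13) (.e (nat_lit 172113) (nat_lit 10) .nil)))) (.g (nat_lit 0) (.e (nat_lit 96878) (nat_lit 0) .nil) .nil))))) (.nd (nat_lit 8) (.nd (nat_lit 9) 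
(.lf (nat_lit 474318) (.g (nat_lit 2501) (.e (nat_lit 1239) (nat_lit 91) (.e (nat_lit 90170) (nat_lit 13) (.e (nat_lit 172113) (nat_lit 10) (.e (nat_lit 434248) (nat_lit 28) (.e (nat_lit 573457) (nat_lit 9) (.e (nat_lit 430) (nat_lit 32) (.e (nat_lit 426009) (nat_lit 0) (.e (nat_lit 7490) (nat_lit 402) .nil)))))))) (.g (nat_lit 1) (.e (nat_lit 95501) (nat_lit 0) .nil) .nil))) 
(.lf (nat_lit 474830) (.g (nat_lit 2111) (.e (nat_lit 1376) (nat_lit 104) (.e (nat_lit 303119) (nat_lit 3) (.e (nat_lit 204846) (nat_lit 24) (.e (nat_lit 319504) (nat_lit 10) .nil)))) (.g (nat_lit 0) (.e (nat_lit 96394) (nat_lit 0) .nil) .nil)))) (.nd (nat_lit 9) 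
(.lf (nat_lit 474574) (.g (nat_lit 2543) (.e (nat_lit 1254) (nat_lit 92) (.e (nat_lit 98333) (nat_lit 18) (.e (nat_lit 164399) (nat_lit 256) (.e (nat_lit 57374) (nat_lit 2) (.e (nat_lit 90174) (nat_lit 14) .nil))))) (.g (nat_lit 0) (.e (nat_lit 95797) (nat_lit 0) .nil) .nil))) 
(.lf (nat_lit 475086) (.g (nat_lit 4810) (.e (nat_lit 1423) (nat_lit 108) (.e (nat_lit 336324) (nat_lit 18) (.e (nat_lit 204831) (nat_lit 18) (.e (nat_lit 57849) (nat_lit 252) .nil)))) (.g (nat_lit 0) (.e (nat_lit 97228) (nat_lit 0) .nil) .nil))))))) (.nd (nat_lit 6) (.nd (nat_lit 7) (.nd (nat_lit 8) (.nd (nat_lit 9) 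
(.lf (nat_lit 474158) (.g (nat_lit 2300) (.e (nat_lit 1238) (nat_lit 91) (.e (nat_lit 90176) (nat_lit 15) (.e (nat_lit 188450) (nat_lit 23) (.e (nat_lit 204845) (nat_lit 24) (.e (nat_lit 319497) (nat_lit 10) .nil))))) (.g (nat_lit 0) (.e (nat_lit 95335) (nat_lit 0) .nil) .nil))) 
(.lf (nat_lit 474670) (.g (nat_lit 3348) (.e (nat_lit 1256) (nat_lit 92) (.e (nat_lit 98350) (nat_lit 24) (.e (nat_lit 409645) (nat_lit 18) (.e (nat_lit 303117) (nat_lit 2) (.e (nat_lit 196670) (nat_lit 14) (.e (nat_lit 81664) (nat_lit 40) .nil)))))) (.g (nat_lit 1) (.e (nat_lit 95953) (nat_lit 0) .nil) .nil)))) (.nd (nat_lit 9) 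
(.lf (nat_lit 474414) (.g (nat_lit 691) (.e (nat_lit 1250) (nat_lit 92) (.e (nat_lit 98373) (nat_lit 29) (.e (nat_lit 450580) (nat_lit 5) .nil))) (.g (nat_lit 0) (.e (nat_lit 95607) (nat_lit 0) .nil) .nil))) 
(.lf (nat_lit 474926) (.g (nat_lit 3258) (.e (nat_lit 1348) (nat_lit 102) (.e (nat_lit 286735) (nat_lit 3) (.e (nat_lit 98363) (nat_lit 26) (.e (nat_lit 426318) (nat_lit 12) (.e (nat_lit 475185) (nat_lit 29) (.e (nat_lit 557070) (nat_lit 9) (.e (nat_lit 2400) (nat_lit 157) (.e (nat_lit 7064) (nat_lit 377) .nil)))))))) (.g (nat_lit 1) (.e (nat_lit 96789) (nat_lit 0) .nil) .nil))))) 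
(.nd (nat_lit 8) (.nd (nat_lit 9) 
(.lf (nat_lit 474286) (.g (nat_lit 3119) (.e (nat_lit 1239) (nat_lit 91) (.e (nat_lit 90170) (nat_lit 13) (.e (nat_lit 172113) (nat_lit 10) (.e (nat_lit 434247) (nat_lit 28) (.e (nat_lit 573457) (nat_lit 9) (.e (nat_lit 430) (nat_lit 32) (.e (nat_lit 426011) (nat_lit 0) (.e (nat_lit 7486) (nat_lit 402) .nil)))))))) (.g (nat_lit 1) (.e (nat_lit 95469) (nat_lit 0) .nil) .nil))) 
(.lf (nat_lit 474798) (.g (nat_lit 3867) (.e (nat_lit 1374) (nat_lit 104) (.e (nat_lit 303119) (nat_lit 3) (.e (nat_lit 204846) (nat_lit 24) (.e (nat_lit 319533) (nat_lit 16) (.e (nat_lit 286734) (nat_lit 3) (.e (nat_lit 98323) (nat_lit 17) (.e (nat_lit 6989) (nat_lit 377) .nil))))))) (.g (nat_lit 1) (.e (nat_lit 96286) (nat_lit 0) .nil) .nil)))) (.nd (nat_lit 9) 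
(.lf (nat_lit 474542) (.g (nat_lit 5251) (.e (nat_lit 1253) (nat_lit 92) (.e (nat_lit 98373) (nat_lit 29) (.e (nat_lit 450587) (nat_lit 10) (.e (nat_lit 573458) (nat_lit 9) (.e (nat_lit 7936) (nat_lit 33) .nil))))) (.g (nat_lit 0) (.e (nat_lit 95763) (nat_lit 0) .nil) .nil))) 
(.lf (nat_lit 475054) (.g (nat_lit 1606) (.e (nat_lit 1400) (nat_lit 106) (.e (nat_lit 319533) (nat_lit 16) (.e (nat_lit 286734) (nat_lit 3) (.e (nat_lit 98379) (nat_lit 31) .nil)))) (.g (nat_lit 0) (.e (nat_lit 97149) (nat_lit 0) .nil) .nil)))))) (.nd (nat_lit 7) (.nd (nat_lit 8) (.nd (nat_lit 9) 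
(.lf (nat_lit 474222) (.g (nat_lit 2348) (.e (nat_lit 1239) (nat_lit 91) (.e (nat_lit 90170) (nat_lit 13) (.e (nat_lit 172113) (nat_lit 10) (.e (nat_lit 434208) (nat_lit 18) (.e (nat_lit 3919) (nat_lit 239) (.e (nat_lit 2635) (nat_lit 165) (.e (nat_lit 188160) (nat_lit 32) .nil))))))) (.g (nat_lit 1) (.e (nat_lit 95405) (nat_lit 0) .nil) .nil))) 
(.lf (nat_lit 474734) (.g (nat_lit 2052) (.e (nat_lit 1267) (nat_lit 93) (.e (nat_lit 106534) (nat_lit 11) (.e (nat_lit 16425) (nat_lit 7) (.e (nat_lit 409646) (nat_lit 18) (.e (nat_lit 303143) (nat_lit 12) .nil))))) (.g (nat_lit 0) (.e (nat_lit 96027) (nat_lit 0) .nil) .nil)))) (.nd (nat_lit 9) 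
(.lf (nat_lit 474478) (.g (nat_lit 2443) (.e (nat_lit 1252) (nat_lit 92) (.e (nat_lit 98334) (nat_lit 18) (.e (nat_lit 164398) (nat_lit 256) (.e (nat_lit 57375) (nat_lit 2) (.e (nat_lit 90174) (nat_lit 14) .nil))))) (.g (nat_lit 0) (.e (nat_lit 95677) (nat_lit 0) .nil) .nil))) 
(.lf (nat_lit 474990) (.g (nat_lit 2398) (.e (nat_lit 1361) (nat_lit 102) (.e (nat_lit 286735) (nat_lit 3) (.e (nat_lit 98359) (nat_lit 26) (.e (nat_lit 426218) (nat_lit 9) .nil)))) (.g (nat_lit 0) (.e (nat_lit 96985) (nat_lit 0) .nil) .nil))))) (.nd (nat_lit 8) (.nd (nat_lit 9) 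
(.lf (nat_lit 474350) (.g (nat_lit 3821) (.e (nat_lit 1246) (nat_lit 92) (.e (nat_lit 98373) (nat_lit 29) (.e (nat_lit 450588) (nat_lit 10) (.e (nat_lit 573452) (nat_lit 9) (.e (nat_lit 359) (nat_lit 30) (.e (nat_lit 409602) (nat_lit 0) (.e (nat_lit 5293) (nat_lit 298) .nil))))))) (.g (nat_lit 1) (.e (nat_lit 95540) (nat_lit 0) .nil) .nil))) 
(.lf (nat_lit 474862) (.g (nat_lit 3729) (.e (nat_lit 1379) (nat_lit 104) (.e (nat_lit 303118) (nat_lit 3) (.e (nat_lit 204885) (nat_lit 33) (.e (nat_lit 401434) (nat_lit 9) (.e (nat_lit 426140) (nat_lit 3) (.e (nat_lit 204821) (nat_lit 17) (.e (nat_lit 6114) (nat_lit 332) .nil))))))) (.g (nat_lit 1) (.e (nat_lit 96514) (nat_lit 0) .nil) .nil)))) (.nd (nat_lit 9) 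
(.lf (nat_lit 474606) (.g (nat_lit 2391) (.e (nat_lit 1255) (nat_lit 92) (.e (nat_lit 98333) (nat_lit 18) (.e (nat_lit 164399) (nat_lit 256) (.e (nat_lit 57374) (nat_lit 2) (.e (nat_lit 90174) (nat_lit 14) .nil))))) (.g (nat_lit 0) (.e (nat_lit 95839) (nat_lit 0) .nil) .nil))) 
(.lf (nat_lit 475118) (.g (nat_lit 2274) (.e (nat_lit 1425) (nat_lit 108) (.e (nat_lit 336432) (nat_lit 30) (.e (nat_lit 450565) (nat_lit 0) (.e (nat_lit 5548) (nat_lit 306) (.e (nat_lit 2638) (nat_lit 165) (.e (nat_lit 180277) (nat_lit 32) .nil)))))) (.g (nat_lit 1) (.e (nat_lit 97279) (nat_lit 0) .nil) .nil)))))))) 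
(.nd (nat_lit 5) (.nd (nat_lit 6) (.nd (nat_lit 7) (.nd (nat_lit 8) (.nd (nat_lit 9) 
(.lf (nat_lit 474142) (.g (nat_lit 3677) (.e (nat_lit 1237) (nat_lit 91) (.e (nat_lit 90170) (nat_lit 13) (.e (nat_lit 172106) (nat_lit 10) (.e (nat_lit 434244) (nat_lit 28) (.e (nat_lit 573450) (nat_lit 9) (.e (nat_lit 442) (nat_lit 33) (.e (nat_lit 442112) (nat_lit 0) .nil))))))) (.g (nat_lit 1) (.e (nat_lit 95318) (nat_lit 0) .nil) .nil))) 
(.lf (nat_lit 474654) (.g (nat_lit 2741) (.e (nat_lit 1256) (nat_lit 92) (.e (nat_lit 98333) (nat_lit 18) (.e (nat_lit 164399) (nat_lit 256) (.e (nat_lit 57378) (nat_lit 3) (.e (nat_lit 98367) (nat_lit 27) .nil))))) (.g (nat_lit 0) (.e (nat_lit 95933) (nat_lit 0) .nil) .nil)))) (.nd (nat_lit 9) 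
(.lf (nat_lit 474398) (.g (nat_lit 1035) (.e (nat_lit 1250) (nat_lit 92) (.e (nat_lit 98367) (nat_lit 27) (.e (nat_lit 434232) (nat_lit 23) .nil))) (.g (nat_lit 0) (.e (nat_lit 95589) (nat_lit 0) .nil) .nil))) 
(.lf (nat_lit 474910) (.g (nat_lit 2600) (.e (nat_lit 1347) (nat_lit 102) (.e (nat_lit 286733) (nat_lit 2) (.e (nat_lit 90170) (nat_lit 13) (.e (nat_lit 172106) (nat_lit 10) (.e (nat_lit 434231) (nat_lit 23) .nil))))) (.g (nat_lit 0) (.e (nat_lit 96741) (nat_lit 0) .nil) .nil))))) (.nd (nat_lit 8) (.nd (nat_lit 9) 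
(.lf (nat_lit 474270) (.g (nat_lit 4170) (.e (nat_lit 1239) (nat_lit 91) (.e (nat_lit 90170) (nat_lit 13) (.e (nat_lit 172113) (nat_lit 10) (.e (nat_lit 434247) (nat_lit 28) (.e (nat_lit 573456) (nat_lit 9) (.e (nat_lit 365) (nat_lit 31) (.e (nat_lit 417796) (nat_lit 0) (.e (nat_lit 5271) (nat_lit 298) .nil)))))))) (.g (nat_lit 1) (.e (nat_lit 95453) (nat_lit 0) .nil) .nil))) 
(.lf (nat_lit 474782) (.g (nat_lit 382) (.e (nat_lit 1374) (nat_lit 104) (.e (nat_lit 303119) (nat_lit 3) (.e (nat_lit 204846) (nat_lit 24) .nil))) (.g (nat_lit 0) (.e (nat_lit 96261) (nat_lit 0) .nil) .nil)))) (.nd (nat_lit 9) 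
(.lf (nat_lit 474526) (.g (nat_lit 3735) (.e (nat_lit 1253) (nat_lit 92) (.e (nat_lit 98372) (nat_lit 29) (.e (nat_lit 450588) (nat_lit 10) (.e (nat_lit 573471) (nat_lit 11) (.e (nat_lit 16392) (nat_lit 0) .nil))))) (.g (nat_lit 0) (.e (nat_lit 95747) (nat_lit 0) .nil) .nil))) 
(.lf (nat_lit 475038) (.g (nat_lit 726) (.e (nat_lit 1401) (nat_lit 106) (.e (nat_lit 319531) (nat_lit 16) (.e (nat_lit 286767) (nat_lit 27) .nil))) (.g (nat_lit 0) (.e (nat_lit 97118) (nat_lit 0) .nil) .nil)))))) (.nd (nat_lit 7) (.nd (nat_lit 8) (.nd (nat_lit 9) 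
(.lf (nat_lit 474206) (.g (nat_lit 2601) (.e (nat_lit 1239) (nat_lit 91) (.e (nat_lit 90170) (nat_lit 13) (.e (nat_lit 172106) (nat_lit 10) (.e (nat_lit 434244) (nat_lit 28) (.e (nat_lit 573451) (nat_lit 9) (.e (nat_lit 7936) (nat_lit 32) (.e (nat_lit 425990) (nat_lit 0) (.e (nat_lit 7489) (nat_lit 402) .nil)))))))) (.g (nat_lit 1) (.e (nat_lit 95389) (nat_lit 0) .nil) .nil))) 
(.lf (nat_lit 474718) (.g (nat_lit 2550) (.e (nat_lit 1256) (nat_lit 92) (.e (nat_lit 98373) (nat_lit 29) (.e (nat_lit 450588) (nat_lit 10) (.e (nat_lit 573452) (nat_lit 9) (.e (nat_lit 430) (nat_lit 32) (.e (nat_lit 426009) (nat_lit 0) (.e (nat_lit 7486) (nat_lit 402) .nil))))))) (.g (nat_lit 1) (.e (nat_lit 96007) (nat_lit 0) .nil) .nil)))) (.nd (nat_lit 9) 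
(.lf (nat_lit 474462) (.g (nat_lit 2663) (.e (nat_lit 1252) (nat_lit 92) (.e (nat_lit 98333) (nat_lit 18) (.e (nat_lit 164399) (nat_lit 256) (.e (nat_lit 57371) (nat_lit 2) (.e (nat_lit 90174) (nat_lit 14) .nil))))) (.g (nat_lit 0) (.e (nat_lit 95660) (nat_lit 0) .nil) .nil))) 
(.lf (nat_lit 474974) (.g (nat_lit 3409) (.e (nat_lit 1359) (nat_lit 102) (.e (nat_lit 286733) (nat_lit 2) (.e (nat_lit 90170) (nat_lit 13) (.e (nat_lit 172113) (nat_lit 10) .nil)))) (.g (nat_lit 0) (.e (nat_lit 96921) (nat_lit 0) .nil) .nil))))) (.nd (nat_lit 8) (.nd (nat_lit 9) 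
(.lf (nat_lit 474334) (.g (nat_lit 2651) (.e (nat_lit 7936) (nat_lit 91) (.e (nat_lit 90170) (nat_lit 13) (.e (nat_lit 172106) (nat_lit 10) (.e (nat_lit 434231) (nat_lit 23) (.e (nat_lit 532490) (nat_lit 0) .nil))))) (.g (nat_lit 0) (.e (nat_lit 95524) (nat_lit 0) .nil) .nil))) 
(.lf (nat_lit 474846) (.g (nat_lit 2278) (.e (nat_lit 1376) (nat_lit 104) (.e (nat_lit 303119) (nat_lit 3) (.e (nat_lit 204846) (nat_lit 24) (.e (nat_lit 327424) (nat_lit 16) .nil)))) (.g (nat_lit 0) (.e (nat_lit 96420) (nat_lit 0) .nil) .nil)))) (.nd (nat_lit 9) 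
(.lf (nat_lit 474590) (.g (nat_lit 3037) (.e (nat_lit 1254) (nat_lit 92) (.e (nat_lit 98334) (nat_lit 18) (.e (nat_lit 164398) (nat_lit 256) (.e (nat_lit 57378) (nat_lit 3) (.e (nat_lit 98366) (nat_lit 27) .nil))))) (.g (nat_lit 0) (.e (nat_lit 95813) (nat_lit 0) .nil) .nil))) 
(.lf (nat_lit 475102) (.g (nat_lit 2267) (.e (nat_lit 1425) (nat_lit 108) (.e (nat_lit 336326) (nat_lit 18) (.e (nat_lit 204863) (nat_lit 27) (.e (nat_lit 344132) (nat_lit 26) (.e (nat_lit 557101) (nat_lit 13) .nil))))) (.g (nat_lit 0) (.e (nat_lit 97256) (nat_lit 0) .nil) .nil))))))) (.nd (nat_lit 6) (.nd (nat_lit 7) (.nd (nat_lit 8) (.nd (nat_lit 9) 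
(.lf (nat_lit 474174) (.g (nat_lit 2218) (.e (nat_lit 1239) (nat_lit 91) (.e (nat_lit 90170) (nat_lit 13) (.e (nat_lit 172106) (nat_lit 10) (.e (nat_lit 434231) (nat_lit 23) (.e (nat_lit 532529) (nat_lit 9) (.e (nat_lit 336257) (nat_lit 15) (.e (nat_lit 2400) (nat_lit 157) (.e (nat_lit 6848) (nat_lit 371) (.e (nat_lit 999) (nat_lit 81) .nil))))))))) (.g (nat_lit 1) (.e (nat_lit 95357) (nat_lit 0) .nil) .nil))) 
(.lf (nat_lit 474686) (.g (nat_lit 2276) (.e (nat_lit 1256) (nat_lit 92) (.e (nat_lit 98367) (nat_lit 27) (.e (nat_lit 434247) (nat_lit 28) (.e (nat_lit 573485) (nat_lit 13) (.e (nat_lit 65568) (nat_lit 2) .nil))))) (.g (nat_lit 0) (.e (nat_lit 95974) (nat_lit 0) .nil) .nil)))) (.nd (nat_lit 9) 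
(.lf (nat_lit 474430) (.g (nat_lit 5104) (.e (nat_lit 1250) (nat_lit 92) (.e (nat_lit 98373) (nat_lit 29) (.e (nat_lit 450588) (nat_lit 10) (.e (nat_lit 573451) (nat_lit 9) (.e (nat_lit 359) (nat_lit 30) (.e (nat_lit 409602) (nat_lit 0) (.e (nat_lit 5293) (nat_lit 298) .nil))))))) (.g (nat_lit 1) (.e (nat_lit 95623) (nat_lit 0) .nil) .nil))) 
(.lf (nat_lit 474942) (.g (nat_lit 4413) (.e (nat_lit 1349) (nat_lit 102) (.e (nat_lit 286735) (nat_lit 3) (.e (nat_lit 98353) (nat_lit 25) (.e (nat_lit 417810) (nat_lit 6) (.e (nat_lit 286733) (nat_lit 2) (.e (nat_lit 90133) (nat_lit 9) (.e (nat_lit 2400) (nat_lit 157) (.e (nat_lit 7064) (nat_lit 377) .nil)))))))) (.g (nat_lit 1) (.e (nat_lit 96838) (nat_lit 0) .nil) .nil))))) 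
(.nd (nat_lit 8) (.nd (nat_lit 9) 
(.lf (nat_lit 474302) (.g (nat_lit 2456) (.e (nat_lit 1239) (nat_lit 91) (.e (nat_lit 90170) (nat_lit 13) (.e (nat_lit 172113) (nat_lit 10) (.e (nat_lit 434248) (nat_lit 28) (.e (nat_lit 573452) (nat_lit 9) (.e (nat_lit 359) (nat_lit 30) (.e (nat_lit 409603) (nat_lit 0) (.e (nat_lit 5245) (nat_lit 298) .nil)))))))) (.g (nat_lit 1) (.e (nat_lit 95485) (nat_lit 0) .nil) .nil))) 
(.lf (nat_lit 474814) (.g (nat_lit 2598) (.e (nat_lit 1374) (nat_lit 104) (.e (nat_lit 303145) (nat_lit 13) (.e (nat_lit 483337) (nat_lit 9) (.e (nat_lit 426107) (nat_lit 1) (.e (nat_lit 164348) (nat_lit 240) (.e (nat_lit 7936) (nat_lit 157) (.e (nat_lit 2668) (nat_lit 167) (.e (nat_lit 196683) (nat_lit 18) .nil)))))))) (.g (nat_lit 1) (.e (nat_lit 96305) (nat_lit 0) .nil) .nil)))) 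
(.nd (nat_lit 9) 
(.lf (nat_lit 474558) (.g (nat_lit 4387) (.e (nat_lit 1253) (nat_lit 92) (.e (nat_lit 98373) (nat_lit 29) (.e (nat_lit 450588) (nat_lit 10) (.e (nat_lit 573470) (nat_lit 11) (.e (nat_lit 16386) (nat_lit 0) .nil))))) (.g (nat_lit 0) (.e (nat_lit 95779) (nat_lit 0) .nil) .nil))) 
(.lf (nat_lit 475070) (.g (nat_lit 2030) (.e (nat_lit 1415) (nat_lit 108) (.e (nat_lit 336454) (nat_lit 34) (.e (nat_lit 483383) (nat_lit 23) (.e (nat_lit 336019) (nat_lit 3) .nil)))) (.g (nat_lit 0) (.e (nat_lit 97182) (nat_lit 0) .nil) .nil)))))) (.nd (nat_lit 7) (.nd (nat_lit 8) (.nd (nat_lit 9) 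
(.lf (nat_lit 474238) (.g (nat_lit 1991) (.e (nat_lit 1239) (nat_lit 91) (.e (nat_lit 90170) (nat_lit 13) (.e (nat_lit 172113) (nat_lit 10) (.e (nat_lit 434245) (nat_lit 28) (.e (nat_lit 573448) (nat_lit 9) (.e (nat_lit 472) (nat_lit 36) (.e (nat_lit 466688) (nat_lit 0) .nil))))))) (.g (nat_lit 1) (.e (nat_lit 95421) (nat_lit 0) .nil) .nil))) 
(.lf (nat_lit 474750) (.g (nat_lit 2696) (.e (nat_lit 1278) (nat_lit 94) (.e (nat_lit 114698) (nat_lit 11) (.e (nat_lit 426139) (nat_lit 3) (.e (nat_lit 204868) (nat_lit 29) .nil)))) (.g (nat_lit 0) (.e (nat_lit 96065) (nat_lit 0) .nil) .nil)))) (.nd (nat_lit 9) 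
(.lf (nat_lit 474494) (.g (nat_lit 1088) (.e (nat_lit 1252) (nat_lit 92) (.e (nat_lit 98372) (nat_lit 29) (.e (nat_lit 450579) (nat_lit 5) (.e (nat_lit 532523) (nat_lit 7) .nil)))) (.g (nat_lit 0) (.e (nat_lit 95701) (nat_lit 0) .nil) .nil))) 
(.lf (nat_lit 475006) (.g (nat_lit 520) (.e (nat_lit 7936) (nat_lit 102) (.e (nat_lit 286735) (nat_lit 3) (.e (nat_lit 98381) (nat_lit 31) .nil))) (.g (nat_lit 0) (.e (nat_lit 97009) (nat_lit 0) .nil) .nil))))) (.nd (nat_lit 8) (.nd (nat_lit 9) 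
(.lf (nat_lit 474366) (.g (nat_lit 2694) (.e (nat_lit 1250) (nat_lit 92) (.e (nat_lit 98349) (nat_lit 24) (.e (nat_lit 409645) (nat_lit 18) (.e (nat_lit 303117) (nat_lit 2) (.e (nat_lit 196668) (nat_lit 14) .nil))))) (.g (nat_lit 0) (.e (nat_lit 95557) (nat_lit 0) .nil) .nil))) 
(.lf (nat_lit 474878) (.g (nat_lit 1533) (.e (nat_lit 1383) (nat_lit 105) (.e (nat_lit 311357) (nat_lit 28) (.e (nat_lit 344068) (nat_lit 0) (.e (nat_lit 3090) (nat_lit 191) (.e (nat_lit 483354) (nat_lit 17) (.e (nat_lit 6136) (nat_lit 332) .nil)))))) (.g (nat_lit 1) (.e (nat_lit 96646) (nat_lit 0) .nil) .nil)))) (.nd (nat_lit 9) 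
(.lf (nat_lit 474622) (.g (nat_lit 2111) (.e (nat_lit 1255) (nat_lit 92) (.e (nat_lit 98356) (nat_lit 26) (.e (nat_lit 426438) (nat_lit 18) (.e (nat_lit 98335) (nat_lit 18) (.e (nat_lit 164305) (nat_lit 226) (.e (nat_lit 2612) (nat_lit 163) (.e (nat_lit 163964) (nat_lit 25) (.e (nat_lit 532508) (nat_lit 2) (.e (nat_lit 106517) (nat_lit 9) .nil))))))))) (.g (nat_lit 1) (.e (nat_lit 95875) (nat_lit 0) .nil) .nil))) 
(.lf (nat_lit 475134) (.g (nat_lit 1835) (.e (nat_lit 1426) (nat_lit 108) (.e (nat_lit 336430) (nat_lit 29) (.e (nat_lit 442377) (nat_lit 0) (.e (nat_lit 2058) (nat_lit 142) (.e (nat_lit 704595) (nat_lit 5) (.e (nat_lit 180277) (nat_lit 32) .nil)))))) (.g (nat_lit 1) (.e (nat_lit 97312) (nat_lit 0) .nil) .nil)))))))))))) 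
(.nd (nat_lit 1) (.nd (nat_lit 2) (.nd (nat_lit 3) (.nd (nat_lit 4) (.nd (nat_lit 5) 
(.nd (nat_lit 6) (.nd (nat_lit 7) (.nd (nat_lit 8) (.nd (nat_lit 9) 
(.lf (nat_lit 474113) (.g (nat_lit 1421) (.e (nat_lit 1235) (nat_lit 91) (.e (nat_lit 90170) (nat_lit 13) (.e (nat_lit 172113) (nat_lit 10) (.e (nat_lit 434245) (nat_lit 28) (.e (nat_lit 573449) (nat_lit 9) .nil))))) (.g (nat_lit 0) (.e (nat_lit 95282) (nat_lit 0) .nil) .nil))) 
(.lf (nat_lit 474625) (.g (nat_lit 1374) (.e (nat_lit 1255) (nat_lit 92) (.e (nat_lit 98367) (nat_lit 27) (.e (nat_lit 434231) (nat_lit 23) (.e (nat_lit 532499) (nat_lit 1) .nil)))) (.g (nat_lit 0) (.e (nat_lit 95878) (nat_lit 0) .nil) .nil)))) (.nd (nat_lit 9) 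
(.lf (nat_lit 474369) (.g (nat_lit 3070) (.e (nat_lit 1250) (nat_lit 92) (.e (nat_lit 98349) (nat_lit 24) (.e (nat_lit 409646) (nat_lit 18) (.e (nat_lit 303117) (nat_lit 2) (.e (nat_lit 196669) (nat_lit 14) .nil))))) (.g (nat_lit 0) (.e (nat_lit 95560) (nat_lit 0) .nil) .nil))) 
(.lf (nat_lit 474881) (.g (nat_lit 917) (.e (nat_lit 1385) (nat_lit 105) (.e (nat_lit 311343) (nat_lit 13) (.e (nat_lit 483333) (nat_lit 0) (.e (nat_lit 7105) (nat_lit 380) (.e (nat_lit 164339) (nat_lit 232) (.e (nat_lit 7936) (nat_lit 11) (.e (nat_lit 196683) (nat_lit 18) .nil))))))) (.g (nat_lit 1) (.e (nat_lit 96663) (nat_lit 0) .nil) .nil))))) (.nd (nat_lit 8) (.nd (nat_lit 9) 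
(.lf (nat_lit 474241) (.g (nat_lit 3230) (.e (nat_lit 1239) (nat_lit 91) (.e (nat_lit 90170) (nat_lit 13) (.e (nat_lit 172113) (nat_lit 10) (.e (nat_lit 434245) (nat_lit 28) (.e (nat_lit 573449) (nat_lit 9) (.e (nat_lit 473) (nat_lit 36) (.e (nat_lit 466688) (nat_lit 0) .nil))))))) (.g (nat_lit 1) (.e (nat_lit 95424) (nat_lit 0) .nil) .nil))) 
(.lf (nat_lit 474753) (.g (nat_lit 3210) (.e (nat_lit 1281) (nat_lit 94) (.e (nat_lit 114719) (nat_lit 23) (.e (nat_lit 98350) (nat_lit 24) (.e (nat_lit 409616) (nat_lit 10) (.e (nat_lit 632) (nat_lit 50) (.e (nat_lit 573489) (nat_lit 14) (.e (nat_lit 73742) (nat_lit 1) (.e (nat_lit 499991) (nat_lit 14) .nil)))))))) (.g (nat_lit 1) (.e (nat_lit 96109) (nat_lit 0) .nil) .nil)))) (.nd (nat_lit 9) 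
(.lf (nat_lit 474497) (.g (nat_lit 2888) (.e (nat_lit 1252) (nat_lit 92) (.e (nat_lit 98373) (nat_lit 29) (.e (nat_lit 450587) (nat_lit 10) (.e (nat_lit 573454) (nat_lit 9) (.e (nat_lit 7936) (nat_lit 33) (.e (nat_lit 434180) (nat_lit 0) .nil)))))) (.g (nat_lit 1) (.e (nat_lit 95704) (nat_lit 0) .nil) .nil))) 
(.lf (nat_lit 475009) (.g (nat_lit 930) (.e (nat_lit 1365) (nat_lit 103) (.e (nat_lit 294928) (nat_lit 2) (.e (nat_lit 90176) (nat_lit 15) (.e (nat_lit 188450) (nat_lit 23) .nil)))) (.g (nat_lit 0) (.e (nat_lit 97014) (nat_lit 0) .nil) .nil)))))) (.nd (nat_lit 7) (.nd (nat_lit 8) (.nd (nat_lit 9) 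
(.lf (nat_lit 474177) (.g (nat_lit 3888) (.e (nat_lit 1239) (nat_lit 91) (.e (nat_lit 90170) (nat_lit 13) (.e (nat_lit 172106) (nat_lit 10) (.e (nat_lit 434231) (nat_lit 23) (.e (nat_lit 532535) (nat_lit 9) (.e (nat_lit 336248) (nat_lit 15) (.e (nat_lit 2401) (nat_lit 157) (.e (nat_lit 6848) (nat_lit 371) (.e (nat_lit 999) (nat_lit 81) .nil))))))))) (.g (nat_lit 1) (.e (nat_lit 95360) (nat_lit 0) .nil) .nil))) 
(.lf (nat_lit 474689) (.g (nat_lit 2409) (.e (nat_lit 1256) (nat_lit 92) (.e (nat_lit 98367) (nat_lit 27) (.e (nat_lit 434248) (nat_lit 28) (.e (nat_lit 573482) (nat_lit 13) (.e (nat_lit 65571) (nat_lit 3) .nil))))) (.g (nat_lit 0) (.e (nat_lit 95977) (nat_lit 0) .nil) .nil)))) (.nd (nat_lit 9) 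
(.lf (nat_lit 474433) (.g (nat_lit 3239) (.e (nat_lit 1250) (nat_lit 92) (.e (nat_lit 98373) (nat_lit 29) (.e (nat_lit 450588) (nat_lit 10) (.e (nat_lit 573457) (nat_lit 9) (.e (nat_lit 13) (nat_lit 0) .nil))))) (.g (nat_lit 0) (.e (nat_lit 95626) (nat_lit 0) .nil) .nil))) 
(.lf (nat_lit 474945) (.g (nat_lit 1846) (.e (nat_lit 1349) (nat_lit 102) (.e (nat_lit 286735) (nat_lit 3) (.e (nat_lit 98358) (nat_lit 26) (.e (nat_lit 426294) (nat_lit 11) .nil)))) (.g (nat_lit 0) (.e (nat_lit 96841) (nat_lit 0) .nil) .nil))))) (.nd (nat_lit 8) (.nd (nat_lit 9) 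
(.lf (nat_lit 474305) (.g (nat_lit 4092) (.e (nat_lit 1239) (nat_lit 91) (.e (nat_lit 90170) (nat_lit 13) (.e (nat_lit 172113) (nat_lit 10) (.e (nat_lit 434248) (nat_lit 28) (.e (nat_lit 573452) (nat_lit 9) (.e (nat_lit 365) (nat_lit 31) (.e (nat_lit 417795) (nat_lit 0) (.e (nat_lit 5271) (nat_lit 298) .nil)))))))) (.g (nat_lit 1) (.e (nat_lit 95488) (nat_lit 0) .nil) .nil))) 
(.lf (nat_lit 474817) (.g (nat_lit 2321) (.e (nat_lit 1374) (nat_lit 104) (.e (nat_lit 303154) (nat_lit 28) (.e (nat_lit 344069) (nat_lit 0) (.e (nat_lit 3090) (nat_lit 191) (.e (nat_lit 483350) (nat_lit 17) (.e (nat_lit 6097) (nat_lit 332) .nil)))))) (.g (nat_lit 1) (.e (nat_lit 96340) (nat_lit 0) .nil) .nil)))) (.nd (nat_lit 9) 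
(.lf (nat_lit 474561) (.g (nat_lit 4220) (.e (nat_lit 1253) (nat_lit 92) (.e (nat_lit 98373) (nat_lit 29) (.e (nat_lit 450588) (nat_lit 10) (.e (nat_lit 573470) (nat_lit 11) (.e (nat_lit 16396) (nat_lit 0) .nil))))) (.g (nat_lit 0) (.e (nat_lit 95782) (nat_lit 0) .nil) .nil))) 
(.lf (nat_lit 475073) (.g (nat_lit 1534) (.e (nat_lit 1416) (nat_lit 108) (.e (nat_lit 336324) (nat_lit 18) (.e (nat_lit 204854) (nat_lit 26) (.e (nat_lit 336326) (nat_lit 18) .nil)))) (.g (nat_lit 0) (.e (nat_lit 97190) (nat_lit 0) .nil) .nil))))))) (.nd (nat_lit 6) (.nd (nat_lit 7) (.nd (nat_lit 8) (.nd (nat_lit 9) 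
(.lf (nat_lit 474145) (.g (nat_lit 2208) (.e (nat_lit 1237) (nat_lit 91) (.e (nat_lit 90170) (nat_lit 13) (.e (nat_lit 172106) (nat_lit 10) (.e (nat_lit 434244) (nat_lit 28) (.e (nat_lit 573451) (nat_lit 9) (.e (nat_lit 430) (nat_lit 32) (.e (nat_lit 426009) (nat_lit 0) (.e (nat_lit 7545) (nat_lit 402) .nil)))))))) (.g (nat_lit 1) (.e (nat_lit 95321) (nat_lit 0) .nil) .nil))) 
(.lf (nat_lit 474657) (.g (nat_lit 3094) (.e (nat_lit 1256) (nat_lit 92) (.e (nat_lit 98334) (nat_lit 18) (.e (nat_lit 164398) (nat_lit 256) (.e (nat_lit 57372) (nat_lit 2) (.e (nat_lit 90174) (nat_lit 14) .nil))))) (.g (nat_lit 0) (.e (nat_lit 95936) (nat_lit 0) .nil) .nil)))) (.nd (nat_lit 9) 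
(.lf (nat_lit 474401) (.g (nat_lit 2157) (.e (nat_lit 1250) (nat_lit 92) (.e (nat_lit 98368) (nat_lit 27) (.e (nat_lit 434245) (nat_lit 28) (.e (nat_lit 573451) (nat_lit 9) (.e (nat_lit 1449) (nat_lit 108) .nil))))) (.g (nat_lit 0) (.e (nat_lit 95594) (nat_lit 0) .nil) .nil))) 
(.lf (nat_lit 474913) (.g (nat_lit 3138) (.e (nat_lit 1347) (nat_lit 102) (.e (nat_lit 286733) (nat_lit 2) (.e (nat_lit 90176) (nat_lit 15) (.e (nat_lit 188447) (nat_lit 22) (.e (nat_lit 196661) (nat_lit 12) .nil))))) (.g (nat_lit 0) (.e (nat_lit 96744) (nat_lit 0) .nil) .nil))))) (.nd (nat_lit 8) (.nd (nat_lit 9) 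
(.lf (nat_lit 474273) (.g (nat_lit 3126) (.e (nat_lit 1239) (nat_lit 91) (.e (nat_lit 90170) (nat_lit 13) (.e (nat_lit 172113) (nat_lit 10) (.e (nat_lit 434247) (nat_lit 28) (.e (nat_lit 573456) (nat_lit 9) (.e (nat_lit 428) (nat_lit 32) (.e (nat_lit 425990) (nat_lit 0) (.e (nat_lit 7489) (nat_lit 402) .nil)))))))) (.g (nat_lit 1) (.e (nat_lit 95456) (nat_lit 0) .nil) .nil))) 
(.lf (nat_lit 474785) (.g (nat_lit 2667) (.e (nat_lit 1374) (nat_lit 104) (.e (nat_lit 303119) (nat_lit 3) (.e (nat_lit 204846) (nat_lit 24) (.e (nat_lit 319504) (nat_lit 10) (.e (nat_lit 5714) (nat_lit 312) (.e (nat_lit 2682) (nat_lit 168) (.e (nat_lit 204821) (nat_lit 17) (.e (nat_lit 6114) (nat_lit 332) .nil)))))))) (.g (nat_lit 1) (.e (nat_lit 96265) (nat_lit 0) .nil) .nil)))) 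
(.nd (nat_lit 9) 
(.lf (nat_lit 474529) (.g (nat_lit 2724) (.e (nat_lit 1253) (nat_lit 92) (.e (nat_lit 98373) (nat_lit 29) (.e (nat_lit 450561) (nat_lit 0) (.e (nat_lit 3948) (nat_lit 239) .nil)))) (.g (nat_lit 0) (.e (nat_lit 95750) (nat_lit 0) .nil) .nil))) 
(.lf (nat_lit 475041) (.g (nat_lit 3499) (.e (nat_lit 1399) (nat_lit 106) (.e (nat_lit 319490) (nat_lit 0) (.e (nat_lit 5761) (nat_lit 315) (.e (nat_lit 163962) (nat_lit 25) (.e (nat_lit 532535) (nat_lit 9) (.e (nat_lit 336058) (nat_lit 7) (.e (nat_lit 319519) (nat_lit 12) (.e (nat_lit 32780) (nat_lit 5) .nil)))))))) (.g (nat_lit 1) (.e (nat_lit 97125) (nat_lit 0) .nil) .nil)))))) 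
(.nd (nat_lit 7) (.nd (nat_lit 8) (.nd (nat_lit 9) 
(.lf (nat_lit 474209) (.g (nat_lit 2190) (.e (nat_lit 1239) (nat_lit 91) (.e (nat_lit 90170) (nat_lit 13) (.e (nat_lit 172106) (nat_lit 10) (.e (nat_lit 434244) (nat_lit 28) (.e (nat_lit 573454) (nat_lit 9) (.e (nat_lit 441) (nat_lit 33) (.e (nat_lit 442112) (nat_lit 0) .nil))))))) (.g (nat_lit 1) (.e (nat_lit 95392) (nat_lit 0) .nil) .nil))) 
(.lf (nat_lit 474721) (.g (nat_lit 3758) (.e (nat_lit 1256) (nat_lit 92) (.e (nat_lit 98373) (nat_lit 29) (.e (nat_lit 450588) (nat_lit 10) (.e (nat_lit 573457) (nat_lit 9) (.e (nat_lit 430) (nat_lit 32) (.e (nat_lit 426012) (nat_lit 0) (.e (nat_lit 7486) (nat_lit 402) .nil))))))) (.g (nat_lit 1) (.e (nat_lit 96010) (nat_lit 0) .nil) .nil)))) (.nd (nat_lit 9) 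
(.lf (nat_lit 474465) (.g (nat_lit 2079) (.e (nat_lit 1252) (nat_lit 92) (.e (nat_lit 98333) (nat_lit 18) (.e (nat_lit 164399) (nat_lit 256) (.e (nat_lit 57372) (nat_lit 2) (.e (nat_lit 90174) (nat_lit 14) .nil))))) (.g (nat_lit 0) (.e (nat_lit 95663) (nat_lit 0) .nil) .nil))) 
(.lf (nat_lit 474977) (.g (nat_lit 816) (.e (nat_lit 1359) (nat_lit 102) (.e (nat_lit 286733) (nat_lit 2) (.e (nat_lit 90177) (nat_lit 15) .nil))) (.g (nat_lit 0) (.e (nat_lit 96924) (nat_lit 0) .nil) .nil))))) (.nd (nat_lit 8) (.nd (nat_lit 9) 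
(.lf (nat_lit 474337) (.g (nat_lit 1966) (.e (nat_lit 1243) (nat_lit 92) (.e (nat_lit 98350) (nat_lit 24) (.e (nat_lit 409646) (nat_lit 18) (.e (nat_lit 303117) (nat_lit 2) .nil)))) (.g (nat_lit 0) (.e (nat_lit 95527) (nat_lit 0) .nil) .nil))) 
(.lf (nat_lit 474849) (.g (nat_lit 2256) (.e (nat_lit 1376) (nat_lit 104) (.e (nat_lit 303119) (nat_lit 3) (.e (nat_lit 204885) (nat_lit 33) (.e (nat_lit 401446) (nat_lit 10) (.e (nat_lit 434231) (nat_lit 23) (.e (nat_lit 532486) (nat_lit 0) (.e (nat_lit 6113) (nat_lit 332) .nil))))))) (.g (nat_lit 1) (.e (nat_lit 96424) (nat_lit 0) .nil) .nil)))) (.nd (nat_lit 9) 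
(.lf (nat_lit 474593) (.g (nat_lit 2750) (.e (nat_lit 1254) (nat_lit 92) (.e (nat_lit 98334) (nat_lit 18) (.e (nat_lit 164398) (nat_lit 256) (.e (nat_lit 57379) (nat_lit 3) (.e (nat_lit 98367) (nat_lit 27) .nil))))) (.g (nat_lit 0) (.e (nat_lit 95816) (nat_lit 0) .nil) .nil))) 
(.lf (nat_lit 475105) (.g (nat_lit 879) (.e (nat_lit 1425) (nat_lit 108) (.e (nat_lit 336421) (nat_lit 28) (.e (nat_lit 434193) (nat_lit 13) (.e (nat_lit 2789) (nat_lit 179) (.e (nat_lit 294973) (nat_lit 28) (.e (nat_lit 434180) (nat_lit 0) .nil)))))) (.g (nat_lit 1) (.e (nat_lit 97260) (nat_lit 0) .nil) .nil)))))))) 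
(.nd (nat_lit 5) (.nd (nat_lit 6) (.nd (nat_lit 7) (.nd (nat_lit 8) (.nd (nat_lit 9) 
(.lf (nat_lit 474129) (.g (nat_lit 1620) (.e (nat_lit 1235) (nat_lit 91) (.e (nat_lit 90176) (nat_lit 15) (.e (nat_lit 188450) (nat_lit 23) (.e (nat_lit 204846) (nat_lit 24) .nil)))) (.g (nat_lit 0) (.e (nat_lit 95299) (nat_lit 0) .nil) .nil))) 
(.lf (nat_lit 474641) (.g (nat_lit 3024) (.e (nat_lit 1255) (nat_lit 92) (.e (nat_lit 98384) (nat_lit 32) (.e (nat_lit 475179) (nat_lit 24) (.e (nat_lit 516115) (nat_lit 1) (.e (nat_lit 164327) (nat_lit 230) .nil))))) (.g (nat_lit 0) (.e (nat_lit 95918) (nat_lit 0) .nil) .nil)))) (.nd (nat_lit 9) 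
(.lf (nat_lit 474385) (.g (nat_lit 2118) (.e (nat_lit 1250) (nat_lit 92) (.e (nat_lit 98350) (nat_lit 24) (.e (nat_lit 409646) (nat_lit 18) (.e (nat_lit 303119) (nat_lit 3) (.e (nat_lit 204846) (nat_lit 24) (.e (nat_lit 319490) (nat_lit 0) (.e (nat_lit 5277) (nat_lit 298) .nil))))))) (.g (nat_lit 1) (.e (nat_lit 95576) (nat_lit 0) .nil) .nil))) 
(.lf (nat_lit 474897) (.g (nat_lit 2097) (.e (nat_lit 1386) (nat_lit 105) (.e (nat_lit 311357) (nat_lit 28) (.e (nat_lit 344069) (nat_lit 0) (.e (nat_lit 3090) (nat_lit 191) (.e (nat_lit 483350) (nat_lit 17) (.e (nat_lit 6146) (nat_lit 332) .nil)))))) (.g (nat_lit 1) (.e (nat_lit 96716) (nat_lit 0) .nil) .nil))))) (.nd (nat_lit 8) (.nd (nat_lit 9) 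
(.lf (nat_lit 474257) (.g (nat_lit 2920) (.e (nat_lit 1239) (nat_lit 91) (.e (nat_lit 90170) (nat_lit 13) (.e (nat_lit 172113) (nat_lit 10) (.e (nat_lit 434245) (nat_lit 28) (.e (nat_lit 573451) (nat_lit 9) (.e (nat_lit 7936) (nat_lit 33) (.e (nat_lit 442112) (nat_lit 0) .nil))))))) (.g (nat_lit 1) (.e (nat_lit 95440) (nat_lit 0) .nil) .nil))) 
(.lf (nat_lit 474769) (.g (nat_lit 2389) (.e (nat_lit 1314) (nat_lit 98) (.e (nat_lit 147496) (nat_lit 11) (.e (nat_lit 24604) (nat_lit 2) (.e (nat_lit 90170) (nat_lit 13) (.e (nat_lit 172106) (nat_lit 10) .nil))))) (.g (nat_lit 0) (.e (nat_lit 96170) (nat_lit 0) .nil) .nil)))) (.nd (nat_lit 9) 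
(.lf (nat_lit 474513) (.g (nat_lit 3056) (.e (nat_lit 1253) (nat_lit 92) (.e (nat_lit 98350) (nat_lit 24) (.e (nat_lit 409646) (nat_lit 18) (.e (nat_lit 303117) (nat_lit 2) (.e (nat_lit 196670) (nat_lit 14) (.e (nat_lit 73784) (nat_lit 40) .nil)))))) (.g (nat_lit 1) (.e (nat_lit 95728) (nat_lit 0) .nil) .nil))) 
(.lf (nat_lit 475025) (.g (nat_lit 4500) (.e (nat_lit 1395) (nat_lit 106) (.e (nat_lit 319539) (nat_lit 19) (.e (nat_lit 311315) (nat_lit 3) (.e (nat_lit 204846) (nat_lit 24) (.e (nat_lit 319534) (nat_lit 16) (.e (nat_lit 286728) (nat_lit 0) (.e (nat_lit 1842) (nat_lit 123) (.e (nat_lit 548874) (nat_lit 5) .nil)))))))) (.g (nat_lit 1) (.e (nat_lit 97074) (nat_lit 0) .nil) .nil)))))) 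
(.nd (nat_lit 7) (.nd (nat_lit 8) (.nd (nat_lit 9) 
(.lf (nat_lit 474193) (.g (nat_lit 2742) (.e (nat_lit 1239) (nat_lit 91) (.e (nat_lit 90170) (nat_lit 13) (.e (nat_lit 172106) (nat_lit 10) (.e (nat_lit 434244) (nat_lit 28) (.e (nat_lit 573451) (nat_lit 9) (.e (nat_lit 359) (nat_lit 30) (.e (nat_lit 409603) (nat_lit 0) (.e (nat_lit 5245) (nat_lit 298) .nil)))))))) (.g (nat_lit 1) (.e (nat_lit 95376) (nat_lit 0) .nil) .nil))) 
(.lf (nat_lit 474705) (.g (nat_lit 2201) (.e (nat_lit 1256) (nat_lit 92) (.e (nat_lit 98373) (nat_lit 29) (.e (nat_lit 450587) (nat_lit 10) (.e (nat_lit 573457) (nat_lit 9) (.e (nat_lit 359) (nat_lit 30) (.e (nat_lit 409603) (nat_lit 0) (.e (nat_lit 5245) (nat_lit 298) .nil))))))) (.g (nat_lit 1) (.e (nat_lit 95994) (nat_lit 0) .nil) .nil)))) (.nd (nat_lit 9) 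
(.lf (nat_lit 474449) (.g (nat_lit 1221) (.e (nat_lit 1252) (nat_lit 92) (.e (nat_lit 98333) (nat_lit 18) (.e (nat_lit 164325) (nat_lit 230) .nil))) (.g (nat_lit 0) (.e (nat_lit 95646) (nat_lit 0) .nil) .nil))) 
(.lf (nat_lit 474961) (.g (nat_lit 1870) (.e (nat_lit 1355) (nat_lit 102) (.e (nat_lit 286733) (nat_lit 2) (.e (nat_lit 90177) (nat_lit 15) (.e (nat_lit 188452) (nat_lit 23) .nil)))) (.g (nat_lit 0) (.e (nat_lit 96881) (nat_lit 0) .nil) .nil))))) (.nd (nat_lit 8) (.nd (nat_lit 9) 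
(.lf (nat_lit 474321) (.g (nat_lit 2853) (.e (nat_lit 1239) (nat_lit 91) (.e (nat_lit 90170) (nat_lit 13) (.e (nat_lit 172113) (nat_lit 10) (.e (nat_lit 434248) (nat_lit 28) (.e (nat_lit 573457) (nat_lit 9) (.e (nat_lit 430) (nat_lit 32) (.e (nat_lit 426012) (nat_lit 0) (.e (nat_lit 7490) (nat_lit 402) .nil)))))))) (.g (nat_lit 1) (.e (nat_lit 95504) (nat_lit 0) .nil) .nil))) 
(.lf (nat_lit 474833) (.g (nat_lit 4332) (.e (nat_lit 1376) (nat_lit 104) (.e (nat_lit 303119) (nat_lit 3) (.e (nat_lit 204846) (nat_lit 24) (.e (nat_lit 319538) (nat_lit 19) (.e (nat_lit 311315) (nat_lit 3) .nil))))) (.g (nat_lit 0) (.e (nat_lit 96405) (nat_lit 0) .nil) .nil)))) (.nd (nat_lit 9) 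
(.lf (nat_lit 474577) (.g (nat_lit 2251) (.e (nat_lit 1254) (nat_lit 92) (.e (nat_lit 98333) (nat_lit 18) (.e (nat_lit 164400) (nat_lit 256) (.e (nat_lit 57375) (nat_lit 2) (.e (nat_lit 90174) (nat_lit 14) .nil))))) (.g (nat_lit 0) (.e (nat_lit 95800) (nat_lit 0) .nil) .nil))) 
(.lf (nat_lit 475089) (.g (nat_lit 1566) (.e (nat_lit 1423) (nat_lit 108) (.e (nat_lit 336367) (nat_lit 27) (.e (nat_lit 426320) (nat_lit 12) (.e (nat_lit 475198) (nat_lit 40) (.e (nat_lit 704595) (nat_lit 5) .nil))))) (.g (nat_lit 0) (.e (nat_lit 97231) (nat_lit 0) .nil) .nil))))))) (.nd (nat_lit 6) (.nd (nat_lit 7) (.nd (nat_lit 8) (.nd (nat_lit 9) 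
(.lf (nat_lit 474161) (.g (nat_lit 3074) (.e (nat_lit 1238) (nat_lit 91) (.e (nat_lit 90176) (nat_lit 15) (.e (nat_lit 188450) (nat_lit 23) (.e (nat_lit 204846) (nat_lit 24) (.e (nat_lit 319497) (nat_lit 10) .nil))))) (.g (nat_lit 0) (.e (nat_lit 95338) (nat_lit 0) .nil) .nil))) 
(.lf (nat_lit 474673) (.g (nat_lit 2859) (.e (nat_lit 1256) (nat_lit 92) (.e (nat_lit 98350) (nat_lit 24) (.e (nat_lit 409648) (nat_lit 18) (.e (nat_lit 303117) (nat_lit 2) (.e (nat_lit 196669) (nat_lit 14) (.e (nat_lit 81664) (nat_lit 40) .nil)))))) (.g (nat_lit 1) (.e (nat_lit 95956) (nat_lit 0) .nil) .nil)))) (.nd (nat_lit 9) 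
(.lf (nat_lit 474417) (.g (nat_lit 2944) (.e (nat_lit 1250) (nat_lit 92) (.e (nat_lit 98373) (nat_lit 29) (.e (nat_lit 450587) (nat_lit 10) (.e (nat_lit 573448) (nat_lit 9) (.e (nat_lit 359) (nat_lit 30) .nil))))) (.g (nat_lit 0) (.e (nat_lit 95610) (nat_lit 0) .nil) .nil))) 
(.lf (nat_lit 474929) (.g (nat_lit 3092) (.e (nat_lit 1348) (nat_lit 102) (.e (nat_lit 286735) (nat_lit 3) (.e (nat_lit 98367) (nat_lit 27) (.e (nat_lit 434180) (nat_lit 0) (.e (nat_lit 1235) (nat_lit 91) (.e (nat_lit 90133) (nat_lit 9) (.e (nat_lit 2400) (nat_lit 157) (.e (nat_lit 7064) (nat_lit 377) .nil)))))))) (.g (nat_lit 1) (.e (nat_lit 96792) (nat_lit 0) .nil) .nil))))) 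
(.nd (nat_lit 8) (.nd (nat_lit 9) 
(.lf (nat_lit 474289) (.g (nat_lit 1948) (.e (nat_lit 1239) (nat_lit 91) (.e (nat_lit 90170) (nat_lit 13) (.e (nat_lit 172113) (nat_lit 10) (.e (nat_lit 434248) (nat_lit 28) (.e (nat_lit 573448) (nat_lit 9) .nil))))) (.g (nat_lit 0) (.e (nat_lit 95472) (nat_lit 0) .nil) .nil))) 
(.lf (nat_lit 474801) (.g (nat_lit 2482) (.e (nat_lit 1374) (nat_lit 104) (.e (nat_lit 303119) (nat_lit 3) (.e (nat_lit 204846) (nat_lit 24) (.e (nat_lit 319534) (nat_lit 16) (.e (nat_lit 286728) (nat_lit 0) (.e (nat_lit 1859) (nat_lit 124) (.e (nat_lit 557082) (nat_lit 10) (.e (nat_lit 8533) (nat_lit 225) .nil)))))))) (.g (nat_lit 1) (.e (nat_lit 96289) (nat_lit 0) .nil) .nil)))) 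
(.nd (nat_lit 9) 
(.lf (nat_lit 474545) (.g (nat_lit 5901) (.e (nat_lit 1253) (nat_lit 92) (.e (nat_lit 98373) (nat_lit 29) (.e (nat_lit 450587) (nat_lit 10) (.e (nat_lit 573469) (nat_lit 11) (.e (nat_lit 16392) (nat_lit 0) .nil))))) (.g (nat_lit 0) (.e (nat_lit 95766) (nat_lit 0) .nil) .nil))) 
(.lf (nat_lit 475057) (.g (nat_lit 1629) (.e (nat_lit 1400) (nat_lit 106) (.e (nat_lit 319534) (nat_lit 16) (.e (nat_lit 286733) (nat_lit 2) (.e (nat_lit 90125) (nat_lit 9) .nil)))) (.g (nat_lit 0) (.e (nat_lit 97155) (nat_lit 0) .nil) .nil)))))) (.nd (nat_lit 7) (.nd (nat_lit 8) (.nd (nat_lit 9) 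
(.lf (nat_lit 474225) (.g (nat_lit 1184) (.e (nat_lit 1239) (nat_lit 91) (.e (nat_lit 90170) (nat_lit 13) (.e (nat_lit 172113) (nat_lit 10) (.e (nat_lit 434231) (nat_lit 23) .nil)))) (.g (nat_lit 0) (.e (nat_lit 95408) (nat_lit 0) .nil) .nil))) 
(.lf (nat_lit 474737) (.g (nat_lit 2804) (.e (nat_lit 1268) (nat_lit 93) (.e (nat_lit 106534) (nat_lit 11) (.e (nat_lit 16425) (nat_lit 7) (.e (nat_lit 409648) (nat_lit 18) (.e (nat_lit 303137) (nat_lit 10) .nil))))) (.g (nat_lit 0) (.e (nat_lit 96031) (nat_lit 0) .nil) .nil)))) (.nd (nat_lit 9) 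
(.lf (nat_lit 474481) (.g (nat_lit 2083) (.e (nat_lit 1252) (nat_lit 92) (.e (nat_lit 98334) (nat_lit 18) (.e (nat_lit 164399) (nat_lit 256) (.e (nat_lit 57375) (nat_lit 2) (.e (nat_lit 90174) (nat_lit 14) .nil))))) (.g (nat_lit 0) (.e (nat_lit 95680) (nat_lit 0) .nil) .nil))) 
(.lf (nat_lit 474993) (.g (nat_lit 3342) (.e (nat_lit 1361) (nat_lit 102) (.e (nat_lit 286735) (nat_lit 3) (.e (nat_lit 98373) (nat_lit 29) (.e (nat_lit 450562) (nat_lit 0) (.e (nat_lit 4281) (nat_lit 253) .nil))))) (.g (nat_lit 0) (.e (nat_lit 96988) (nat_lit 0) .nil) .nil))))) (.nd (nat_lit 8) (.nd (nat_lit 9) 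
(.lf (nat_lit 474353) (.g (nat_lit 1763) (.e (nat_lit 1246) (nat_lit 92) (.e (nat_lit 98373) (nat_lit 29) (.e (nat_lit 450588) (nat_lit 10) (.e (nat_lit 573471) (nat_lit 11) .nil)))) (.g (nat_lit 0) (.e (nat_lit 95543) (nat_lit 0) .nil) .nil))) 
(.lf (nat_lit 474865) (.g (nat_lit 294) (.e (nat_lit 7936) (nat_lit 104) (.e (nat_lit 303143) (nat_lit 12) (.e (nat_lit 475211) (nat_lit 41) .nil))) (.g (nat_lit 0) (.e (nat_lit 96534) (nat_lit 0) .nil) .nil)))) (.nd (nat_lit 9) 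
(.lf (nat_lit 474609) (.g (nat_lit 2846) (.e (nat_lit 1255) (nat_lit 92) (.e (nat_lit 98334) (nat_lit 18) (.e (nat_lit 164398) (nat_lit 256) (.e (nat_lit 57374) (nat_lit 2) (.e (nat_lit 90174) (nat_lit 14) .nil))))) (.g (nat_lit 0) (.e (nat_lit 95850) (nat_lit 0) .nil) .nil))) 
(.lf (nat_lit 475121) (.g (nat_lit 2017) (.e (nat_lit 1425) (nat_lit 108) (.e (nat_lit 336443) (nat_lit 32) (.e (nat_lit 466971) (nat_lit 21) (.e (nat_lit 164348) (nat_lit 240) (.e (nat_lit 2639) (nat_lit 165) (.e (nat_lit 180278) (nat_lit 32) .nil)))))) (.g (nat_lit 1) (.e (nat_lit 97289) (nat_lit 0) .nil) .nil))))))))) 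
(.nd (nat_lit 4) (.nd (nat_lit 5) (.nd (nat_lit 6) (.nd (nat_lit 7) (.nd (nat_lit 8) 
(.nd (nat_lit 9) 
(.lf (nat_lit 474121) (.g (nat_lit 2872) (.e (nat_lit 1235) (nat_lit 91) (.e (nat_lit 90170) (nat_lit 13) (.e (nat_lit 172113) (nat_lit 10) (.e (nat_lit 434247) (nat_lit 28) (.e (nat_lit 573456) (nat_lit 9) (.e (nat_lit 430) (nat_lit 32) (.e (nat_lit 426031) (nat_lit 0) (.e (nat_lit 7562) (nat_lit 402) .nil)))))))) (.g (nat_lit 1) (.e (nat_lit 95290) (nat_lit 0) .nil) .nil))) 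
(.lf (nat_lit 474633) (.g (nat_lit 2121) (.e (nat_lit 1255) (nat_lit 92) (.e (nat_lit 98373) (nat_lit 29) (.e (nat_lit 450588) (nat_lit 10) (.e (nat_lit 573471) (nat_lit 11) (.e (nat_lit 16386) (nat_lit 0) .nil))))) (.g (nat_lit 0) (.e (nat_lit 95905) (nat_lit 0) .nil) .nil)))) (.nd (nat_lit 9) 
(.lf (nat_lit 474377) (.g (nat_lit 3952) (.e (nat_lit 1250) (nat_lit 92) (.e (nat_lit 98350) (nat_lit 24) (.e (nat_lit 409644) (nat_lit 18) (.e (nat_lit 303119) (nat_lit 3) (.e (nat_lit 204846) (nat_lit 24) (.e (nat_lit 319490) (nat_lit 0) (.e (nat_lit 5293) (nat_lit 298) .nil))))))) (.g (nat_lit 1) (.e (nat_lit 95568) (nat_lit 0) .nil) .nil))) 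
(.lf (nat_lit 474889) (.g (nat_lit 2073) (.e (nat_lit 1386) (nat_lit 105) (.e (nat_lit 311357) (nat_lit 28) (.e (nat_lit 344068) (nat_lit 0) (.e (nat_lit 3090) (nat_lit 191) (.e (nat_lit 483350) (nat_lit 17) (.e (nat_lit 6133) (nat_lit 332) .nil)))))) (.g (nat_lit 1) (.e (nat_lit 96707) (nat_lit 0) .nil) .nil))))) (.nd (nat_lit 8) (.nd (nat_lit 9) 
(.lf (nat_lit 474249) (.g (nat_lit 2573) (.e (nat_lit 1239) (nat_lit 91) (.e (nat_lit 90170) (nat_lit 13) (.e (nat_lit 172113) (nat_lit 10) (.e (nat_lit 434245) (nat_lit 28) (.e (nat_lit 573451) (nat_lit 9) (.e (nat_lit 359) (nat_lit 30) (.e (nat_lit 409603) (nat_lit 0) (.e (nat_lit 5245) (nat_lit 298) .nil)))))))) (.g (nat_lit 1) (.e (nat_lit 95432) (nat_lit 0) .nil) .nil))) 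
(.lf (nat_lit 474761) (.g (nat_lit 2440) (.e (nat_lit 1311) (nat_lit 98) (.e (nat_lit 147495) (nat_lit 11) (.e (nat_lit 24604) (nat_lit 2) (.e (nat_lit 90170) (nat_lit 13) (.e (nat_lit 172106) (nat_lit 10) .nil))))) (.g (nat_lit 0) (.e (nat_lit 96161) (nat_lit 0) .nil) .nil)))) (.nd (nat_lit 9) 
(.lf (nat_lit 474505) (.g (nat_lit 2663) (.e (nat_lit 1252) (nat_lit 92) (.e (nat_lit 98373) (nat_lit 29) (.e (nat_lit 450588) (nat_lit 10) (.e (nat_lit 573471) (nat_lit 11) (.e (nat_lit 16389) (nat_lit 0) .nil))))) (.g (nat_lit 0) (.e (nat_lit 95712) (nat_lit 0) .nil) .nil))) 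
(.lf (nat_lit 475017) (.g (nat_lit 946) (.e (nat_lit 1393) (nat_lit 106) (.e (nat_lit 319531) (nat_lit 16) (.e (nat_lit 286727) (nat_lit 0) .nil))) (.g (nat_lit 0) (.e (nat_lit 97058) (nat_lit 0) .nil) .nil)))))) (.nd (nat_lit 7) (.nd (nat_lit 8) (.nd (nat_lit 9) 
(.lf (nat_lit 474185) (.g (nat_lit 4565) (.e (nat_lit 1239) (nat_lit 91) (.e (nat_lit 90170) (nat_lit 13) (.e (nat_lit 172106) (nat_lit 10) (.e (nat_lit 434244) (nat_lit 28) (.e (nat_lit 573450) (nat_lit 9) (.e (nat_lit 442) (nat_lit 33) (.e (nat_lit 442112) (nat_lit 0) .nil))))))) (.g (nat_lit 1) (.e (nat_lit 95368) (nat_lit 0) .nil) .nil))) 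
(.lf (nat_lit 474697) (.g (nat_lit 2961) (.e (nat_lit 1256) (nat_lit 92) (.e (nat_lit 98372) (nat_lit 29) (.e (nat_lit 450586) (nat_lit 10) (.e (nat_lit 573451) (nat_lit 9) (.e (nat_lit 359) (nat_lit 30) .nil))))) (.g (nat_lit 0) (.e (nat_lit 95986) (nat_lit 0) .nil) .nil)))) (.nd (nat_lit 9) 
(.lf (nat_lit 474441) (.g (nat_lit 2757) (.e (nat_lit 1251) (nat_lit 92) (.e (nat_lit 98333) (nat_lit 18) (.e (nat_lit 164403) (nat_lit 256) (.e (nat_lit 57371) (nat_lit 2) (.e (nat_lit 90174) (nat_lit 14) .nil))))) (.g (nat_lit 0) (.e (nat_lit 95636) (nat_lit 0) .nil) .nil))) 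
(.lf (nat_lit 474953) (.g (nat_lit 3351) (.e (nat_lit 1351) (nat_lit 102) (.e (nat_lit 286733) (nat_lit 2) (.e (nat_lit 90170) (nat_lit 13) (.e (nat_lit 172106) (nat_lit 10) (.e (nat_lit 434231) (nat_lit 23) .nil))))) (.g (nat_lit 0) (.e (nat_lit 96867) (nat_lit 0) .nil) .nil))))) (.nd (nat_lit 8) (.nd (nat_lit 9) 
(.lf (nat_lit 474313) (.g (nat_lit 2940) (.e (nat_lit 1239) (nat_lit 91) (.e (nat_lit 90170) (nat_lit 13) (.e (nat_lit 172113) (nat_lit 10) (.e (nat_lit 434248) (nat_lit 28) (.e (nat_lit 573452) (nat_lit 9) (.e (nat_lit 7936) (nat_lit 33) (.e (nat_lit 442112) (nat_lit 0) .nil))))))) (.g (nat_lit 1) (.e (nat_lit 95496) (nat_lit 0) .nil) .nil))) 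
(.lf (nat_lit 474825) (.g (nat_lit 892) (.e (nat_lit 1376) (nat_lit 104) (.e (nat_lit 303119) (nat_lit 3) (.e (nat_lit 204819) (nat_lit 17) .nil))) (.g (nat_lit 0) (.e (nat_lit 96388) (nat_lit 0) .nil) .nil)))) (.nd (nat_lit 9) 
(.lf (nat_lit 474569) (.g (nat_lit 2102) (.e (nat_lit 1254) (nat_lit 92) (.e (nat_lit 98333) (nat_lit 18) (.e (nat_lit 164398) (nat_lit 256) (.e (nat_lit 57373) (nat_lit 2) (.e (nat_lit 90174) (nat_lit 14) .nil))))) (.g (nat_lit 0) (.e (nat_lit 95792) (nat_lit 0) .nil) .nil))) 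
(.lf (nat_lit 475081) (.g (nat_lit 610) (.e (nat_lit 1418) (nat_lit 108) (.e (nat_lit 336454) (nat_lit 34) (.e (nat_lit 483403) (nat_lit 26) .nil))) (.g (nat_lit 0) (.e (nat_lit 97198) (nat_lit 0) .nil) .nil))))))) (.nd (nat_lit 6) (.nd (nat_lit 7) (.nd (nat_lit 8) (.nd (nat_lit 9) 
(.lf (nat_lit 474153) (.g (nat_lit 2054) (.e (nat_lit 1237) (nat_lit 91) (.e (nat_lit 90176) (nat_lit 15) (.e (nat_lit 188450) (nat_lit 23) (.e (nat_lit 204846) (nat_lit 24) .nil)))) (.g (nat_lit 0) (.e (nat_lit 95329) (nat_lit 0) .nil) .nil))) 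
(.lf (nat_lit 474665) (.g (nat_lit 1909) (.e (nat_lit 1256) (nat_lit 92) (.e (nat_lit 98350) (nat_lit 24) (.e (nat_lit 409643) (nat_lit 18) (.e (nat_lit 303117) (nat_lit 2) (.e (nat_lit 196669) (nat_lit 14) (.e (nat_lit 81664) (nat_lit 40) .nil)))))) (.g (nat_lit 1) (.e (nat_lit 95948) (nat_lit 0) .nil) .nil)))) (.nd (nat_lit 9) 
(.lf (nat_lit 474409) (.g (nat_lit 3374) (.e (nat_lit 1250) (nat_lit 92) (.e (nat_lit 98372) (nat_lit 29) (.e (nat_lit 450588) (nat_lit 10) (.e (nat_lit 573449) (nat_lit 9) (.e (nat_lit 359) (nat_lit 30) .nil))))) (.g (nat_lit 0) (.e (nat_lit 95602) (nat_lit 0) .nil) .nil))) 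
(.lf (nat_lit 474921) (.g (nat_lit 1340) (.e (nat_lit 1348) (nat_lit 102) (.e (nat_lit 286735) (nat_lit 3) (.e (nat_lit 98354) (nat_lit 26) (.e (nat_lit 426215) (nat_lit 9) .nil)))) (.g (nat_lit 0) (.e (nat_lit 96784) (nat_lit 0) .nil) .nil))))) (.nd (nat_lit 8) (.nd (nat_lit 9) 
(.lf (nat_lit 474281) (.g (nat_lit 3250) (.e (nat_lit 1239) (nat_lit 91) (.e (nat_lit 90170) (nat_lit 13) (.e (nat_lit 172113) (nat_lit 10) (.e (nat_lit 434247) (nat_lit 28) (.e (nat_lit 573457) (nat_lit 9) (.e (nat_lit 365) (nat_lit 31) (.e (nat_lit 417796) (nat_lit 0) (.e (nat_lit 5258) (nat_lit 298) .nil)))))))) (.g (nat_lit 1) (.e (nat_lit 95464) (nat_lit 0) .nil) .nil))) 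
(.lf (nat_lit 474793) (.g (nat_lit 3030) (.e (nat_lit 1374) (nat_lit 104) (.e (nat_lit 303119) (nat_lit 3) (.e (nat_lit 204846) (nat_lit 24) (.e (nat_lit 319531) (nat_lit 16) (.e (nat_lit 286735) (nat_lit 3) (.e (nat_lit 98325) (nat_lit 17) (.e (nat_lit 6986) (nat_lit 377) .nil))))))) (.g (nat_lit 1) (.e (nat_lit 96281) (nat_lit 0) .nil) .nil)))) (.nd (nat_lit 9) 
(.lf (nat_lit 474537) (.g (nat_lit 2824) (.e (nat_lit 1253) (nat_lit 92) (.e (nat_lit 98373) (nat_lit 29) (.e (nat_lit 450586) (nat_lit 10) (.e (nat_lit 573456) (nat_lit 9) (.e (nat_lit 7936) (nat_lit 33) .nil))))) (.g (nat_lit 0) (.e (nat_lit 95758) (nat_lit 0) .nil) .nil))) 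
(.lf (nat_lit 475049) (.g (nat_lit 3058) (.e (nat_lit 1400) (nat_lit 106) (.e (nat_lit 319531) (nat_lit 16) (.e (nat_lit 286733) (nat_lit 2) (.e (nat_lit 90134) (nat_lit 9) (.e (nat_lit 3002) (nat_lit 186) (.e (nat_lit 442423) (nat_lit 22) (.e (nat_lit 196626) (nat_lit 9) .nil))))))) (.g (nat_lit 1) (.e (nat_lit 97141) (nat_lit 0) .nil) .nil)))))) 
(.nd (nat_lit 7) (.nd (nat_lit 8) (.nd (nat_lit 9) 
(.lf (nat_lit 474217) (.g (nat_lit 3070) (.e (nat_lit 1239) (nat_lit 91) (.e (nat_lit 90170) (nat_lit 13) (.e (nat_lit 172106) (nat_lit 10) (.e (nat_lit 434244) (nat_lit 28) (.e (nat_lit 573458) (nat_lit 9) (.e (nat_lit 7936) (nat_lit 32) (.e (nat_lit 425990) (nat_lit 0) (.e (nat_lit 7489) (nat_lit 402) .nil)))))))) (.g (nat_lit 1) (.e (nat_lit 95400) (nat_lit 0) .nil) .nil))) 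
(.lf (nat_lit 474729) (.g (nat_lit 1912) (.e (nat_lit 1261) (nat_lit 93) (.e (nat_lit 106534) (nat_lit 11) (.e (nat_lit 16425) (nat_lit 7) (.e (nat_lit 409647) (nat_lit 18) .nil)))) (.g (nat_lit 0) (.e (nat_lit 96022) (nat_lit 0) .nil) .nil)))) (.nd (nat_lit 9) 
(.lf (nat_lit 474473) (.g (nat_lit 2055) (.e (nat_lit 1252) (nat_lit 92) (.e (nat_lit 98334) (nat_lit 18) (.e (nat_lit 164398) (nat_lit 256) (.e (nat_lit 57372) (nat_lit 2) .nil)))) (.g (nat_lit 0) (.e (nat_lit 95672) (nat_lit 0) .nil) .nil))) 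
(.lf (nat_lit 474985) (.g (nat_lit 1531) (.e (nat_lit 1359) (nat_lit 102) (.e (nat_lit 286756) (nat_lit 10) (.e (nat_lit 344138) (nat_lit 29) (.e (nat_lit 581653) (nat_lit 6) (.e (nat_lit 188460) (nat_lit 26) .nil))))) (.g (nat_lit 0) (.e (nat_lit 96942) (nat_lit 0) .nil) .nil))))) (.nd (nat_lit 8) (.nd (nat_lit 9) 
(.lf (nat_lit 474345) (.g (nat_lit 3184) (.e (nat_lit 1246) (nat_lit 92) (.e (nat_lit 98334) (nat_lit 18) (.e (nat_lit 164398) (nat_lit 256) (.e (nat_lit 57374) (nat_lit 2) (.e (nat_lit 90174) (nat_lit 14) .nil))))) (.g (nat_lit 0) (.e (nat_lit 95535) (nat_lit 0) .nil) .nil))) 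
(.lf (nat_lit 474857) (.g (nat_lit 2621) (.e (nat_lit 1378) (nat_lit 104) (.e (nat_lit 303119) (nat_lit 3) (.e (nat_lit 204846) (nat_lit 24) (.e (nat_lit 319533) (nat_lit 16) (.e (nat_lit 286724) (nat_lit 0) .nil))))) (.g (nat_lit 0) (.e (nat_lit 96480) (nat_lit 0) .nil) .nil)))) (.nd (nat_lit 9) 
(.lf (nat_lit 474601) (.g (nat_lit 3577) (.e (nat_lit 1255) (nat_lit 92) (.e (nat_lit 98321) (nat_lit 17) (.e (nat_lit 3771) (nat_lit 229) (.e (nat_lit 794673) (nat_lit 23) (.e (nat_lit 204862) (nat_lit 27) (.e (nat_lit 344117) (nat_lit 21) (.e (nat_lit 516116) (nat_lit 1) (.e (nat_lit 164157) (nat_lit 152) (.e (nat_lit 1027) (nat_lit 81) .nil))))))))) (.g (nat_lit 1) (.e (nat_lit 95824) (nat_lit 0) .nil) .nil))) 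
(.lf (nat_lit 475113) (.g (nat_lit 2947) (.e (nat_lit 1425) (nat_lit 108) (.e (nat_lit 336430) (nat_lit 29) (.e (nat_lit 442419) (nat_lit 21) (.e (nat_lit 164347) (nat_lit 240) (.e (nat_lit 2638) (nat_lit 165) (.e (nat_lit 180278) (nat_lit 32) .nil)))))) (.g (nat_lit 1) (.e (nat_lit 97274) (nat_lit 0) .nil) .nil)))))))) 
(.nd (nat_lit 5) (.nd (nat_lit 6) (.nd (nat_lit 7) (.nd (nat_lit 8) (.nd (nat_lit 9) 
(.lf (nat_lit 474137) (.g (nat_lit 2526) (.e (nat_lit 1237) (nat_lit 91) (.e (nat_lit 90170) (nat_lit 13) (.e (nat_lit 172067) (nat_lit 3) (.e (nat_lit 204829) (nat_lit 18) .nil)))) (.g (nat_lit 0) (.e (nat_lit 95311) (nat_lit 0) .nil) .nil))) 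
(.lf (nat_lit 474649) (.g (nat_lit 2470) (.e (nat_lit 1256) (nat_lit 92) (.e (nat_lit 98333) (nat_lit 18) (.e (nat_lit 164399) (nat_lit 256) (.e (nat_lit 57372) (nat_lit 2) (.e (nat_lit 90172) (nat_lit 14) .nil))))) (.g (nat_lit 0) (.e (nat_lit 95928) (nat_lit 0) .nil) .nil)))) (.nd (nat_lit 9) 
(.lf (nat_lit 474393) (.g (nat_lit 3186) (.e (nat_lit 1250) (nat_lit 92) (.e (nat_lit 98350) (nat_lit 24) (.e (nat_lit 409649) (nat_lit 18) (.e (nat_lit 303117) (nat_lit 2) (.e (nat_lit 196668) (nat_lit 14) (.e (nat_lit 81664) (nat_lit 40) .nil)))))) (.g (nat_lit 1) (.e (nat_lit 95584) (nat_lit 0) .nil) .nil))) 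
(.lf (nat_lit 474905) (.g (nat_lit 1872) (.e (nat_lit 1346) (nat_lit 102) (.e (nat_lit 286733) (nat_lit 2) (.e (nat_lit 90177) (nat_lit 15) (.e (nat_lit 188452) (nat_lit 23) .nil)))) (.g (nat_lit 0) (.e (nat_lit 96734) (nat_lit 0) .nil) .nil))))) (.nd (nat_lit 8) (.nd (nat_lit 9) 
(.lf (nat_lit 474265) (.g (nat_lit 1790) (.e (nat_lit 1239) (nat_lit 91) (.e (nat_lit 90170) (nat_lit 13) (.e (nat_lit 172113) (nat_lit 10) (.e (nat_lit 434245) (nat_lit 28) (.e (nat_lit 573470) (nat_lit 11) .nil))))) (.g (nat_lit 0) (.e (nat_lit 95448) (nat_lit 0) .nil) .nil))) 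
(.lf (nat_lit 474777) (.g (nat_lit 4229) (.e (nat_lit 1374) (nat_lit 104) (.e (nat_lit 303118) (nat_lit 3) (.e (nat_lit 204885) (nat_lit 33) (.e (nat_lit 401434) (nat_lit 9) (.e (nat_lit 426125) (nat_lit 2) (.e (nat_lit 196661) (nat_lit 12) (.e (nat_lit 57712) (nat_lit 176) .nil))))))) (.g (nat_lit 1) (.e (nat_lit 96252) (nat_lit 0) .nil) .nil)))) (.nd (nat_lit 9) 
(.lf (nat_lit 474521) (.g (nat_lit 2876) (.e (nat_lit 1253) (nat_lit 92) (.e (nat_lit 98367) (nat_lit 27) (.e (nat_lit 434244) (nat_lit 28) (.e (nat_lit 573451) (nat_lit 9) (.e (nat_lit 1449) (nat_lit 108) (.e (nat_lit 336013) (nat_lit 2) (.e (nat_lit 90189) (nat_lit 18) (.e (nat_lit 2580) (nat_lit 161) (.e (nat_lit 40967) (nat_lit 0) .nil))))))))) (.g (nat_lit 1) (.e (nat_lit 95738) (nat_lit 0) .nil) .nil))) 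
(.lf (nat_lit 475033) (.g (nat_lit 4222) (.e (nat_lit 1401) (nat_lit 106) (.e (nat_lit 319538) (nat_lit 19) (.e (nat_lit 311315) (nat_lit 3) (.e (nat_lit 204846) (nat_lit 24) (.e (nat_lit 319534) (nat_lit 16) (.e (nat_lit 286728) (nat_lit 0) (.e (nat_lit 1842) (nat_lit 123) (.e (nat_lit 548873) (nat_lit 5) .nil)))))))) (.g (nat_lit 1) (.e (nat_lit 97109) (nat_lit 0) .nil) .nil)))))) 
(.nd (nat_lit 7) (.nd (nat_lit 8) (.nd (nat_lit 9) 
(.lf (nat_lit 474201) (.g (nat_lit 4147) (.e (nat_lit 1239) (nat_lit 91) (.e (nat_lit 90170) (nat_lit 13) (.e (nat_lit 172106) (nat_lit 10) (.e (nat_lit 434244) (nat_lit 28) (.e (nat_lit 573451) (nat_lit 9) (.e (nat_lit 430) (nat_lit 32) (.e (nat_lit 426009) (nat_lit 0) (.e (nat_lit 7490) (nat_lit 402) .nil)))))))) (.g (nat_lit 1) (.e (nat_lit 95384) (nat_lit 0) .nil) .nil))) 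
(.lf (nat_lit 474713) (.g (nat_lit 4014) (.e (nat_lit 1256) (nat_lit 92) (.e (nat_lit 98373) (nat_lit 29) (.e (nat_lit 450588) (nat_lit 10) (.e (nat_lit 573451) (nat_lit 9) (.e (nat_lit 359) (nat_lit 30) .nil))))) (.g (nat_lit 0) (.e (nat_lit 96002) (nat_lit 0) .nil) .nil)))) (.nd (nat_lit 9) 
(.lf (nat_lit 474457) (.g (nat_lit 2633) (.e (nat_lit 1252) (nat_lit 92) (.e (nat_lit 98333) (nat_lit 18) (.e (nat_lit 164327) (nat_lit 230) (.e (nat_lit 163875) (nat_lit 3) (.e (nat_lit 204809) (nat_lit 9) (.e (nat_lit 426139) (nat_lit 3) (.e (nat_lit 204833) (nat_lit 19) (.e (nat_lit 106523) (nat_lit 9) .nil)))))))) (.g (nat_lit 1) (.e (nat_lit 95655) (nat_lit 0) .nil) .nil))) 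
(.lf (nat_lit 474969) (.g (nat_lit 177) (.e (nat_lit 1358) (nat_lit 102) (.e (nat_lit 286753) (nat_lit 10) (.e (nat_lit 344183) (nat_lit 49) .nil))) (.g (nat_lit 0) (.e (nat_lit 96894) (nat_lit 0) .nil) .nil))))) (.nd (nat_lit 8) (.nd (nat_lit 9) 
(.lf (nat_lit 474329) (.g (nat_lit 826) (.e (nat_lit 1239) (nat_lit 91) (.e (nat_lit 90176) (nat_lit 15) (.e (nat_lit 188452) (nat_lit 23) .nil))) (.g (nat_lit 0) (.e (nat_lit 95512) (nat_lit 0) .nil) .nil))) 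
(.lf (nat_lit 474841) (.g (nat_lit 2458) (.e (nat_lit 1376) (nat_lit 104) (.e (nat_lit 303119) (nat_lit 3) (.e (nat_lit 204846) (nat_lit 24) (.e (nat_lit 319533) (nat_lit 16) (.e (nat_lit 286735) (nat_lit 3) .nil))))) (.g (nat_lit 0) (.e (nat_lit 96415) (nat_lit 0) .nil) .nil)))) (.nd (nat_lit 9) 
(.lf (nat_lit 474585) (.g (nat_lit 3096) (.e (nat_lit 1254) (nat_lit 92) (.e (nat_lit 98334) (nat_lit 18) (.e (nat_lit 164398) (nat_lit 256) (.e (nat_lit 57372) (nat_lit 2) (.e (nat_lit 90174) (nat_lit 14) .nil))))) (.g (nat_lit 0) (.e (nat_lit 95808) (nat_lit 0) .nil) .nil))) 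
(.lf (nat_lit 475097) (.g (nat_lit 1902) (.e (nat_lit 1424) (nat_lit 108) (.e (nat_lit 336324) (nat_lit 18) (.e (nat_lit 204882) (nat_lit 32) (.e (nat_lit 385065) (nat_lit 26) (.e (nat_lit 532530) (nat_lit 9) .nil))))) (.g (nat_lit 0) (.e (nat_lit 97243) (nat_lit 0) .nil) .nil))))))) (.nd (nat_lit 6) (.nd (nat_lit 7) (.nd (nat_lit 8) (.nd (nat_lit 9) 
(.lf (nat_lit 474169) (.g (nat_lit 1782) (.e (nat_lit 1239) (nat_lit 91) (.e (nat_lit 90170) (nat_lit 13) (.e (nat_lit 172106) (nat_lit 10) (.e (nat_lit 434231) (nat_lit 23) (.e (nat_lit 532486) (nat_lit 0) .nil))))) (.g (nat_lit 0) (.e (nat_lit 95352) (nat_lit 0) .nil) .nil))) 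
(.lf (nat_lit 474681) (.g (nat_lit 2121) (.e (nat_lit 1256) (nat_lit 92) (.e (nat_lit 98359) (nat_lit 26) (.e (nat_lit 426338) (nat_lit 14) (.e (nat_lit 491526) (nat_lit 0) (.e (nat_lit 1698) (nat_lit 117) .nil))))) (.g (nat_lit 0) (.e (nat_lit 95968) (nat_lit 0) .nil) .nil)))) (.nd (nat_lit 9) 
(.lf (nat_lit 474425) (.g (nat_lit 2298) (.e (nat_lit 1250) (nat_lit 92) (.e (nat_lit 98373) (nat_lit 29) (.e (nat_lit 450587) (nat_lit 10) (.e (nat_lit 573456) (nat_lit 9) (.e (nat_lit 7936) (nat_lit 33) (.e (nat_lit 442112) (nat_lit 0) .nil)))))) (.g (nat_lit 1) (.e (nat_lit 95618) (nat_lit 0) .nil) .nil))) 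
(.lf (nat_lit 474937) (.g (nat_lit 2654) (.e (nat_lit 1349) (nat_lit 102) (.e (nat_lit 286735) (nat_lit 3) (.e (nat_lit 98320) (nat_lit 17) (.e (nat_lit 7065) (nat_lit 377) (.e (nat_lit 1349) (nat_lit 102) (.e (nat_lit 286733) (nat_lit 2) (.e (nat_lit 90133) (nat_lit 9) (.e (nat_lit 2400) (nat_lit 157) (.e (nat_lit 7064) (nat_lit 377) .nil))))))))) (.g (nat_lit 1) (.e (nat_lit 96833) (nat_lit 0) .nil) .nil))))) 
(.nd (nat_lit 8) (.nd (nat_lit 9) 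
(.lf (nat_lit 474297) (.g (nat_lit 3223) (.e (nat_lit 1239) (nat_lit 91) (.e (nat_lit 90170) (nat_lit 13) (.e (nat_lit 172113) (nat_lit 10) (.e (nat_lit 434248) (nat_lit 28) (.e (nat_lit 573450) (nat_lit 9) (.e (nat_lit 442) (nat_lit 33) (.e (nat_lit 442112) (nat_lit 0) .nil))))))) (.g (nat_lit 1) (.e (nat_lit 95480) (nat_lit 0) .nil) .nil))) 
(.lf (nat_lit 474809) (.g (nat_lit 2529) (.e (nat_lit 1374) (nat_lit 104) (.e (nat_lit 303119) (nat_lit 3) (.e (nat_lit 204885) (nat_lit 33) (.e (nat_lit 401446) (nat_lit 10) (.e (nat_lit 434231) (nat_lit 23) (.e (nat_lit 532490) (nat_lit 0) (.e (nat_lit 6092) (nat_lit 332) .nil))))))) (.g (nat_lit 1) (.e (nat_lit 96297) (nat_lit 0) .nil) .nil)))) (.nd (nat_lit 9) 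
(.lf (nat_lit 474553) (.g (nat_lit 4165) (.e (nat_lit 1253) (nat_lit 92) (.e (nat_lit 98373) (nat_lit 29) (.e (nat_lit 450588) (nat_lit 10) (.e (nat_lit 573450) (nat_lit 9) (.e (nat_lit 442) (nat_lit 33) (.e (nat_lit 434181) (nat_lit 0) .nil)))))) (.g (nat_lit 1) (.e (nat_lit 95774) (nat_lit 0) .nil) .nil))) 
(.lf (nat_lit 475065) (.g (nat_lit 1739) (.e (nat_lit 1413) (nat_lit 108) (.e (nat_lit 336428) (nat_lit 29) (.e (nat_lit 442374) (nat_lit 0) (.e (nat_lit 2058) (nat_lit 142) (.e (nat_lit 704595) (nat_lit 5) .nil))))) (.g (nat_lit 0) (.e (nat_lit 97175) (nat_lit 0) .nil) .nil)))))) (.nd (nat_lit 7) (.nd (nat_lit 8) (.nd (nat_lit 9) 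
(.lf (nat_lit 474233) (.g (nat_lit 2787) (.e (nat_lit 1239) (nat_lit 91) (.e (nat_lit 90170) (nat_lit 13) (.e (nat_lit 172113) (nat_lit 10) (.e (nat_lit 434242) (nat_lit 28) (.e (nat_lit 573450) (nat_lit 9) (.e (nat_lit 473) (nat_lit 36) (.e (nat_lit 466688) (nat_lit 0) .nil))))))) (.g (nat_lit 1) (.e (nat_lit 95416) (nat_lit 0) .nil) .nil))) 
(.lf (nat_lit 474745) (.g (nat_lit 2788) (.e (nat_lit 1278) (nat_lit 94) (.e (nat_lit 114698) (nat_lit 11) (.e (nat_lit 426124) (nat_lit 2) (.e (nat_lit 196672) (nat_lit 15) .nil)))) (.g (nat_lit 0) (.e (nat_lit 96060) (nat_lit 0) .nil) .nil)))) (.nd (nat_lit 9) 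
(.lf (nat_lit 474489) (.g (nat_lit 1760) (.e (nat_lit 1252) (nat_lit 92) (.e (nat_lit 98349) (nat_lit 24) (.e (nat_lit 409646) (nat_lit 18) (.e (nat_lit 303117) (nat_lit 2) .nil)))) (.g (nat_lit 0) (.e (nat_lit 95689) (nat_lit 0) .nil) .nil))) 
(.lf (nat_lit 475001) (.g (nat_lit 1506) (.e (nat_lit 1362) (nat_lit 102) (.e (nat_lit 286759) (nat_lit 12) (.e (nat_lit 385074) (nat_lit 31) (.e (nat_lit 573484) (nat_lit 13) .nil)))) (.g (nat_lit 0) (.e (nat_lit 96998) (nat_lit 0) .nil) .nil))))) (.nd (nat_lit 8) (.nd (nat_lit 9) 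
(.lf (nat_lit 474361) (.g (nat_lit 4354) (.e (nat_lit 1249) (nat_lit 92) (.e (nat_lit 98373) (nat_lit 29) (.e (nat_lit 450588) (nat_lit 10) (.e (nat_lit 573470) (nat_lit 11) .nil)))) (.g (nat_lit 0) (.e (nat_lit 95552) (nat_lit 0) .nil) .nil))) 
(.lf (nat_lit 474873) (.g (nat_lit 1252) (.e (nat_lit 1380) (nat_lit 105) (.e (nat_lit 311344) (nat_lit 13) (.e (nat_lit 483372) (nat_lit 21) (.e (nat_lit 319531) (nat_lit 16) .nil)))) (.g (nat_lit 0) (.e (nat_lit 96610) (nat_lit 0) .nil) .nil)))) (.nd (nat_lit 9) 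
(.lf (nat_lit 474617) (.g (nat_lit 1916) (.e (nat_lit 1255) (nat_lit 92) (.e (nat_lit 98356) (nat_lit 26) (.e (nat_lit 426436) (nat_lit 18) (.e (nat_lit 98334) (nat_lit 18) (.e (nat_lit 164305) (nat_lit 226) .nil))))) (.g (nat_lit 0) (.e (nat_lit 95870) (nat_lit 0) .nil) .nil))) 
(.lf (nat_lit 475129) (.g (nat_lit 1601) (.e (nat_lit 1425) (nat_lit 108) (.e (nat_lit 336454) (nat_lit 34) (.e (nat_lit 483408) (nat_lit 26) (.e (nat_lit 385067) (nat_lit 26) .nil)))) (.g (nat_lit 0) (.e (nat_lit 97298) (nat_lit 0) .nil) .nil)))))))))) (.nd (nat_lit 3) (.nd (nat_lit 4) (.nd (nat_lit 5) (.nd (nat_lit 6) (.nd (nat_lit 7) (.nd (nat_lit 8) (.nd (nat_lit 9) 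
(.lf (nat_lit 474117) (.g (nat_lit 3499) (.e (nat_lit 1235) (nat_lit 91) (.e (nat_lit 90170) (nat_lit 13) (.e (nat_lit 172113) (nat_lit 10) (.e (nat_lit 434245) (nat_lit 28) (.e (nat_lit 573458) (nat_lit 9) (.e (nat_lit 426) (nat_lit 32) (.e (nat_lit 426030) (nat_lit 0) (.e (nat_lit 7562) (nat_lit 402) .nil)))))))) (.g (nat_lit 1) (.e (nat_lit 95286) (nat_lit 0) .nil) .nil))) 
(.lf (nat_lit 474629) (.g (nat_lit 2291) (.e (nat_lit 1255) (nat_lit 92) (.e (nat_lit 98373) (nat_lit 29) (.e (nat_lit 450587) (nat_lit 10) (.e (nat_lit 573471) (nat_lit 11) .nil)))) (.g (nat_lit 0) (.e (nat_lit 95901) (nat_lit 0) .nil) .nil)))) (.nd (nat_lit 9) 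
(.lf (nat_lit 474373) (.g (nat_lit 2170) (.e (nat_lit 1250) (nat_lit 92) (.e (nat_lit 98350) (nat_lit 24) (.e (nat_lit 409623) (nat_lit 10) (.e (nat_lit 5664) (nat_lit 312) (.e (nat_lit 2661) (nat_lit 167) (.e (nat_lit 196670) (nat_lit 14) (.e (nat_lit 81664) (nat_lit 40) .nil))))))) (.g (nat_lit 1) (.e (nat_lit 95564) (nat_lit 0) .nil) .nil))) 
(.lf (nat_lit 474885) (.g (nat_lit 1242) (.e (nat_lit 1385) (nat_lit 105) (.e (nat_lit 311357) (nat_lit 28) (.e (nat_lit 344068) (nat_lit 0) (.e (nat_lit 3090) (nat_lit 191) (.e (nat_lit 483354) (nat_lit 17) (.e (nat_lit 6149) (nat_lit 332) .nil)))))) (.g (nat_lit 1) (.e (nat_lit 96684) (nat_lit 0) .nil) .nil))))) (.nd (nat_lit 8) (.nd (nat_lit 9) 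
(.lf (nat_lit 474245) (.g (nat_lit 3552) (.e (nat_lit 1239) (nat_lit 91) (.e (nat_lit 90170) (nat_lit 13) (.e (nat_lit 172113) (nat_lit 10) (.e (nat_lit 434245) (nat_lit 28) (.e (nat_lit 573450) (nat_lit 9) (.e (nat_lit 449) (nat_lit 33) (.e (nat_lit 442112) (nat_lit 0) .nil))))))) (.g (nat_lit 1) (.e (nat_lit 95428) (nat_lit 0) .nil) .nil))) 
(.lf (nat_lit 474757) (.g (nat_lit 636) (.e (nat_lit 1310) (nat_lit 98) (.e (nat_lit 147495) (nat_lit 11) (.e (nat_lit 24606) (nat_lit 3) .nil))) (.g (nat_lit 0) (.e (nat_lit 96157) (nat_lit 0) .nil) .nil)))) (.nd (nat_lit 9) 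
(.lf (nat_lit 474501) (.g (nat_lit 4298) (.e (nat_lit 1252) (nat_lit 92) (.e (nat_lit 98373) (nat_lit 29) (.e (nat_lit 450588) (nat_lit 10) (.e (nat_lit 573448) (nat_lit 9) .nil)))) (.g (nat_lit 0) (.e (nat_lit 95708) (nat_lit 0) .nil) .nil))) 
(.lf (nat_lit 475013) (.g (nat_lit 1631) (.e (nat_lit 1368) (nat_lit 103) (.e (nat_lit 294928) (nat_lit 2) (.e (nat_lit 90170) (nat_lit 13) (.e (nat_lit 172115) (nat_lit 10) .nil)))) (.g (nat_lit 0) (.e (nat_lit 97032) (nat_lit 0) .nil) .nil)))))) (.nd (nat_lit 7) (.nd (nat_lit 8) (.nd (nat_lit 9) 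
(.lf (nat_lit 474181) (.g (nat_lit 1810) (.e (nat_lit 1239) (nat_lit 91) (.e (nat_lit 90170) (nat_lit 13) (.e (nat_lit 172106) (nat_lit 10) (.e (nat_lit 434244) (nat_lit 28) (.e (nat_lit 573449) (nat_lit 9) .nil))))) (.g (nat_lit 0) (.e (nat_lit 95364) (nat_lit 0) .nil) .nil))) 
(.lf (nat_lit 474693) (.g (nat_lit 2635) (.e (nat_lit 1256) (nat_lit 92) (.e (nat_lit 98370) (nat_lit 28) (.e (nat_lit 442430) (nat_lit 24) (.e (nat_lit 229535) (nat_lit 134) (.e (nat_lit 2638) (nat_lit 165) (.e (nat_lit 188160) (nat_lit 32) .nil)))))) (.g (nat_lit 1) (.e (nat_lit 95982) (nat_lit 0) .nil) .nil)))) (.nd (nat_lit 9) 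
(.lf (nat_lit 474437) (.g (nat_lit 2302) (.e (nat_lit 1251) (nat_lit 92) (.e (nat_lit 98333) (nat_lit 18) (.e (nat_lit 164399) (nat_lit 256) (.e (nat_lit 57372) (nat_lit 2) (.e (nat_lit 90172) (nat_lit 14) .nil))))) (.g (nat_lit 0) (.e (nat_lit 95631) (nat_lit 0) .nil) .nil))) 
(.lf (nat_lit 474949) (.g (nat_lit 896) (.e (nat_lit 1349) (nat_lit 102) (.e (nat_lit 286735) (nat_lit 3) (.e (nat_lit 98382) (nat_lit 31) (.e (nat_lit 466977) (nat_lit 22) .nil)))) (.g (nat_lit 0) (.e (nat_lit 96845) (nat_lit 0) .nil) .nil))))) (.nd (nat_lit 8) (.nd (nat_lit 9) 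
(.lf (nat_lit 474309) (.g (nat_lit 3309) (.e (nat_lit 1239) (nat_lit 91) (.e (nat_lit 90170) (nat_lit 13) (.e (nat_lit 172113) (nat_lit 10) (.e (nat_lit 434248) (nat_lit 28) (.e (nat_lit 573452) (nat_lit 9) (.e (nat_lit 428) (nat_lit 32) (.e (nat_lit 425989) (nat_lit 0) (.e (nat_lit 7489) (nat_lit 402) .nil)))))))) (.g (nat_lit 1) (.e (nat_lit 95492) (nat_lit 0) .nil) .nil))) 
(.lf (nat_lit 474821) (.g (nat_lit 1625) (.e (nat_lit 1376) (nat_lit 104) (.e (nat_lit 303117) (nat_lit 2) (.e (nat_lit 196661) (nat_lit 12) (.e (nat_lit 65280) (nat_lit 208) .nil)))) (.g (nat_lit 0) (.e (nat_lit 96384) (nat_lit 0) .nil) .nil)))) (.nd (nat_lit 9) 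
(.lf (nat_lit 474565) (.g (nat_lit 2402) (.e (nat_lit 1254) (nat_lit 92) (.e (nat_lit 98333) (nat_lit 18) (.e (nat_lit 164327) (nat_lit 230) (.e (nat_lit 163873) (nat_lit 3) (.e (nat_lit 204809) (nat_lit 9) .nil))))) (.g (nat_lit 0) (.e (nat_lit 95788) (nat_lit 0) .nil) .nil))) 
(.lf (nat_lit 475077) (.g (nat_lit 1981) (.e (nat_lit 1416) (nat_lit 108) (.e (nat_lit 336454) (nat_lit 34) (.e (nat_lit 483406) (nat_lit 26) (.e (nat_lit 385066) (nat_lit 26) .nil)))) (.g (nat_lit 0) (.e (nat_lit 97194) (nat_lit 0) .nil) .nil))))))) (.nd (nat_lit 6) (.nd (nat_lit 7) (.nd (nat_lit 8) (.nd (nat_lit 9) 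
(.lf (nat_lit 474149) (.g (nat_lit 2259) (.e (nat_lit 1237) (nat_lit 91) (.e (nat_lit 90170) (nat_lit 13) (.e (nat_lit 172106) (nat_lit 10) (.e (nat_lit 434244) (nat_lit 28) (.e (nat_lit 573470) (nat_lit 11) .nil))))) (.g (nat_lit 0) (.e (nat_lit 95325) (nat_lit 0) .nil) .nil))) 
(.lf (nat_lit 474661) (.g (nat_lit 1899) (.e (nat_lit 1256) (nat_lit 92) (.e (nat_lit 98341) (nat_lit 20) (.e (nat_lit 221212) (nat_lit 22) (.e (nat_lit 196668) (nat_lit 14) (.e (nat_lit 73747) (nat_lit 3) .nil))))) (.g (nat_lit 0) (.e (nat_lit 95940) (nat_lit 0) .nil) .nil)))) (.nd (nat_lit 9) 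
(.lf (nat_lit 474405) (.g (nat_lit 1209) (.e (nat_lit 1250) (nat_lit 92) (.e (nat_lit 98372) (nat_lit 29) (.e (nat_lit 450579) (nat_lit 5) (.e (nat_lit 532525) (nat_lit 8) .nil)))) (.g (nat_lit 0) (.e (nat_lit 95598) (nat_lit 0) .nil) .nil))) 
(.lf (nat_lit 474917) (.g (nat_lit 1741) (.e (nat_lit 1348) (nat_lit 102) (.e (nat_lit 286735) (nat_lit 3) (.e (nat_lit 98342) (nat_lit 20) (.e (nat_lit 229120) (nat_lit 1) .nil)))) (.g (nat_lit 0) (.e (nat_lit 96780) (nat_lit 0) .nil) .nil))))) (.nd (nat_lit 8) (.nd (nat_lit 9) 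
(.lf (nat_lit 474277) (.g (nat_lit 2658) (.e (nat_lit 1239) (nat_lit 91) (.e (nat_lit 90170) (nat_lit 13) (.e (nat_lit 172113) (nat_lit 10) (.e (nat_lit 434247) (nat_lit 28) (.e (nat_lit 573457) (nat_lit 9) (.e (nat_lit 359) (nat_lit 30) (.e (nat_lit 409602) (nat_lit 0) (.e (nat_lit 5245) (nat_lit 298) .nil)))))))) (.g (nat_lit 1) (.e (nat_lit 95460) (nat_lit 0) .nil) .nil))) 
(.lf (nat_lit 474789) (.g (nat_lit 2701) (.e (nat_lit 1374) (nat_lit 104) (.e (nat_lit 303119) (nat_lit 3) (.e (nat_lit 204846) (nat_lit 24) (.e (nat_lit 319539) (nat_lit 19) .nil)))) (.g (nat_lit 0) (.e (nat_lit 96275) (nat_lit 0) .nil) .nil)))) (.nd (nat_lit 9) 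
(.lf (nat_lit 474533) (.g (nat_lit 2450) (.e (nat_lit 1253) (nat_lit 92) (.e (nat_lit 98373) (nat_lit 29) (.e (nat_lit 450568) (nat_lit 0) (.e (nat_lit 3966) (nat_lit 239) .nil)))) (.g (nat_lit 0) (.e (nat_lit 95754) (nat_lit 0) .nil) .nil))) 
(.lf (nat_lit 475045) (.g (nat_lit 1309) (.e (nat_lit 1400) (nat_lit 106) (.e (nat_lit 319529) (nat_lit 16) (.e (nat_lit 286733) (nat_lit 2) (.e (nat_lit 90128) (nat_lit 9) .nil)))) (.g (nat_lit 0) (.e (nat_lit 97137) (nat_lit 0) .nil) .nil)))))) (.nd (nat_lit 7) (.nd (nat_lit 8) (.nd (nat_lit 9) 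
(.lf (nat_lit 474213) (.g (nat_lit 2728) (.e (nat_lit 1239) (nat_lit 91) (.e (nat_lit 90170) (nat_lit 13) (.e (nat_lit 172106) (nat_lit 10) (.e (nat_lit 434244) (nat_lit 28) (.e (nat_lit 573458) (nat_lit 9) (.e (nat_lit 420) (nat_lit 32) (.e (nat_lit 425990) (nat_lit 0) (.e (nat_lit 7489) (nat_lit 402) .nil)))))))) (.g (nat_lit 1) (.e (nat_lit 95396) (nat_lit 0) .nil) .nil))) 
(.lf (nat_lit 474725) (.g (nat_lit 2804) (.e (nat_lit 1257) (nat_lit 93) (.e (nat_lit 106534) (nat_lit 11) (.e (nat_lit 16425) (nat_lit 7) (.e (nat_lit 409648) (nat_lit 18) (.e (nat_lit 303137) (nat_lit 10) .nil))))) (.g (nat_lit 0) (.e (nat_lit 96015) (nat_lit 0) .nil) .nil)))) (.nd (nat_lit 9) 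
(.lf (nat_lit 474469) (.g (nat_lit 3014) (.e (nat_lit 1252) (nat_lit 92) (.e (nat_lit 98333) (nat_lit 18) (.e (nat_lit 164403) (nat_lit 256) (.e (nat_lit 57373) (nat_lit 2) (.e (nat_lit 90174) (nat_lit 14) .nil))))) (.g (nat_lit 0) (.e (nat_lit 95668) (nat_lit 0) .nil) .nil))) 
(.lf (nat_lit 474981) (.g (nat_lit 914) (.e (nat_lit 1359) (nat_lit 102) (.e (nat_lit 286735) (nat_lit 3) (.e (nat_lit 98381) (nat_lit 31) .nil))) (.g (nat_lit 0) (.e (nat_lit 96928) (nat_lit 0) .nil) .nil))))) (.nd (nat_lit 8) (.nd (nat_lit 9) 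
(.lf (nat_lit 474341) (.g (nat_lit 2404) (.e (nat_lit 1246) (nat_lit 92) (.e (nat_lit 98333) (nat_lit 18) (.e (nat_lit 164399) (nat_lit 256) (.e (nat_lit 57375) (nat_lit 2) (.e (nat_lit 90172) (nat_lit 14) .nil))))) (.g (nat_lit 0) (.e (nat_lit 95531) (nat_lit 0) .nil) .nil))) 
(.lf (nat_lit 474853) (.g (nat_lit 1315) (.e (nat_lit 1376) (nat_lit 104) (.e (nat_lit 303143) (nat_lit 12) (.e (nat_lit 475185) (nat_lit 29) .nil))) (.g (nat_lit 0) (.e (nat_lit 96428) (nat_lit 0) .nil) .nil)))) (.nd (nat_lit 9) 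
(.lf (nat_lit 474597) (.g (nat_lit 2083) (.e (nat_lit 1254) (nat_lit 92) (.e (nat_lit 98334) (nat_lit 18) (.e (nat_lit 164399) (nat_lit 256) (.e (nat_lit 57375) (nat_lit 2) (.e (nat_lit 90174) (nat_lit 14) .nil))))) (.g (nat_lit 0) (.e (nat_lit 95820) (nat_lit 0) .nil) .nil))) 
(.lf (nat_lit 475109) (.g (nat_lit 2374) (.e (nat_lit 1425) (nat_lit 108) (.e (nat_lit 336430) (nat_lit 29) (.e (nat_lit 442379) (nat_lit 0) (.e (nat_lit 2058) (nat_lit 142) (.e (nat_lit 704595) (nat_lit 5) (.e (nat_lit 180277) (nat_lit 32) .nil)))))) (.g (nat_lit 1) (.e (nat_lit 97266) (nat_lit 0) .nil) .nil)))))))) 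
(.nd (nat_lit 5) (.nd (nat_lit 6) (.nd (nat_lit 7) (.nd (nat_lit 8) (.nd (nat_lit 9) 
(.lf (nat_lit 474133) (.g (nat_lit 1134) (.e (nat_lit 1235) (nat_lit 91) (.e (nat_lit 90178) (nat_lit 15) (.e (nat_lit 188440) (nat_lit 20) (.e (nat_lit 3272) (nat_lit 199) .nil)))) (.g (nat_lit 0) (.e (nat_lit 95303) (nat_lit 0) .nil) .nil))) 
(.lf (nat_lit 474645) (.g (nat_lit 1338) (.e (nat_lit 1255) (nat_lit 92) (.e (nat_lit 98387) (nat_lit 33) (.e (nat_lit 491571) (nat_lit 13) (.e (nat_lit 401152) (nat_lit 10) .nil)))) (.g (nat_lit 0) (.e (nat_lit 95924) (nat_lit 0) .nil) .nil)))) (.nd (nat_lit 9) 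
(.lf (nat_lit 474389) (.g (nat_lit 2732) (.e (nat_lit 1250) (nat_lit 92) (.e (nat_lit 98350) (nat_lit 24) (.e (nat_lit 409648) (nat_lit 18) (.e (nat_lit 303117) (nat_lit 2) (.e (nat_lit 196669) (nat_lit 14) (.e (nat_lit 81664) (nat_lit 40) .nil)))))) (.g (nat_lit 1) (.e (nat_lit 95580) (nat_lit 0) .nil) .nil))) 
(.lf (nat_lit 474901) (.g (nat_lit 2019) (.e (nat_lit 1346) (nat_lit 102) (.e (nat_lit 286732) (nat_lit 2) (.e (nat_lit 90170) (nat_lit 13) (.e (nat_lit 172106) (nat_lit 10) (.e (nat_lit 434231) (nat_lit 23) .nil))))) (.g (nat_lit 0) (.e (nat_lit 96730) (nat_lit 0) .nil) .nil))))) (.nd (nat_lit 8) (.nd (nat_lit 9) 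
(.lf (nat_lit 474261) (.g (nat_lit 3175) (.e (nat_lit 1239) (nat_lit 91) (.e (nat_lit 90170) (nat_lit 13) (.e (nat_lit 172113) (nat_lit 10) (.e (nat_lit 434245) (nat_lit 28) (.e (nat_lit 573458) (nat_lit 9) (.e (nat_lit 420) (nat_lit 32) (.e (nat_lit 425987) (nat_lit 0) (.e (nat_lit 7489) (nat_lit 402) .nil)))))))) (.g (nat_lit 1) (.e (nat_lit 95444) (nat_lit 0) .nil) .nil))) 
(.lf (nat_lit 474773) (.g (nat_lit 741) (.e (nat_lit 1333) (nat_lit 100) (.e (nat_lit 270353) (nat_lit 8) (.e (nat_lit 303117) (nat_lit 2) (.e (nat_lit 196666) (nat_lit 13) .nil)))) (.g (nat_lit 0) (.e (nat_lit 96182) (nat_lit 0) .nil) .nil)))) (.nd (nat_lit 9) 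
(.lf (nat_lit 474517) (.g (nat_lit 3234) (.e (nat_lit 1253) (nat_lit 92) (.e (nat_lit 98366) (nat_lit 27) (.e (nat_lit 434244) (nat_lit 28) (.e (nat_lit 573451) (nat_lit 9) (.e (nat_lit 1449) (nat_lit 108) .nil))))) (.g (nat_lit 0) (.e (nat_lit 95734) (nat_lit 0) .nil) .nil))) 
(.lf (nat_lit 475029) (.g (nat_lit 4875) (.e (nat_lit 1401) (nat_lit 106) (.e (nat_lit 319537) (nat_lit 19) (.e (nat_lit 311315) (nat_lit 3) (.e (nat_lit 204846) (nat_lit 24) (.e (nat_lit 319533) (nat_lit 16) (.e (nat_lit 286724) (nat_lit 0) (.e (nat_lit 1842) (nat_lit 123) (.e (nat_lit 548873) (nat_lit 5) .nil)))))))) (.g (nat_lit 1) (.e (nat_lit 97105) (nat_lit 0) .nil) .nil)))))) 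
(.nd (nat_lit 7) (.nd (nat_lit 8) (.nd (nat_lit 9) 
(.lf (nat_lit 474197) (.g (nat_lit 3601) (.e (nat_lit 1239) (nat_lit 91) (.e (nat_lit 90170) (nat_lit 13) (.e (nat_lit 172106) (nat_lit 10) (.e (nat_lit 434244) (nat_lit 28) (.e (nat_lit 573451) (nat_lit 9) (.e (nat_lit 365) (nat_lit 31) (.e (nat_lit 417795) (nat_lit 0) (.e (nat_lit 5258) (nat_lit 298) .nil)))))))) (.g (nat_lit 1) (.e (nat_lit 95380) (nat_lit 0) .nil) .nil))) 
(.lf (nat_lit 474709) (.g (nat_lit 2816) (.e (nat_lit 1256) (nat_lit 92) (.e (nat_lit 98373) (nat_lit 29) (.e (nat_lit 450588) (nat_lit 10) (.e (nat_lit 573449) (nat_lit 9) (.e (nat_lit 359) (nat_lit 30) .nil))))) (.g (nat_lit 0) (.e (nat_lit 95998) (nat_lit 0) .nil) .nil)))) (.nd (nat_lit 9) 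
(.lf (nat_lit 474453) (.g (nat_lit 2086) (.e (nat_lit 1252) (nat_lit 92) (.e (nat_lit 98333) (nat_lit 18) (.e (nat_lit 164327) (nat_lit 230) (.e (nat_lit 163868) (nat_lit 2) (.e (nat_lit 196654) (nat_lit 11) (.e (nat_lit 16416) (nat_lit 3) (.e (nat_lit 204833) (nat_lit 19) (.e (nat_lit 106523) (nat_lit 9) .nil)))))))) (.g (nat_lit 1) (.e (nat_lit 95651) (nat_lit 0) .nil) .nil))) 
(.lf (nat_lit 474965) (.g (nat_lit 1879) (.e (nat_lit 1356) (nat_lit 102) (.e (nat_lit 286733) (nat_lit 2) (.e (nat_lit 90177) (nat_lit 15) (.e (nat_lit 188452) (nat_lit 23) .nil)))) (.g (nat_lit 0) (.e (nat_lit 96885) (nat_lit 0) .nil) .nil))))) (.nd (nat_lit 8) (.nd (nat_lit 9) 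
(.lf (nat_lit 474325) (.g (nat_lit 3013) (.e (nat_lit 1239) (nat_lit 91) (.e (nat_lit 90174) (nat_lit 14) (.e (nat_lit 180288) (nat_lit 45) (.e (nat_lit 2570) (nat_lit 160) (.e (nat_lit 32808) (nat_lit 19) (.e (nat_lit 188160) (nat_lit 32) .nil)))))) (.g (nat_lit 1) (.e (nat_lit 95508) (nat_lit 0) .nil) .nil))) 
(.lf (nat_lit 474837) (.g (nat_lit 3204) (.e (nat_lit 1376) (nat_lit 104) (.e (nat_lit 303119) (nat_lit 3) (.e (nat_lit 204846) (nat_lit 24) (.e (nat_lit 319530) (nat_lit 16) (.e (nat_lit 286735) (nat_lit 3) .nil))))) (.g (nat_lit 0) (.e (nat_lit 96410) (nat_lit 0) .nil) .nil)))) (.nd (nat_lit 9) 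
(.lf (nat_lit 474581) (.g (nat_lit 2328) (.e (nat_lit 1254) (nat_lit 92) (.e (nat_lit 98334) (nat_lit 18) (.e (nat_lit 164330) (nat_lit 230) (.e (nat_lit 163873) (nat_lit 3) (.e (nat_lit 204809) (nat_lit 9) .nil))))) (.g (nat_lit 0) (.e (nat_lit 95804) (nat_lit 0) .nil) .nil))) 
(.lf (nat_lit 475093) (.g (nat_lit 4091) (.e (nat_lit 1423) (nat_lit 108) (.e (nat_lit 336454) (nat_lit 34) (.e (nat_lit 483365) (nat_lit 18) (.e (nat_lit 57854) (nat_lit 252) .nil)))) (.g (nat_lit 0) (.e (nat_lit 97236) (nat_lit 0) .nil) .nil))))))) (.nd (nat_lit 6) (.nd (nat_lit 7) (.nd (nat_lit 8) (.nd (nat_lit 9) 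
(.lf (nat_lit 474165) (.g (nat_lit 3308) (.e (nat_lit 1239) (nat_lit 91) (.e (nat_lit 90170) (nat_lit 13) (.e (nat_lit 172106) (nat_lit 10) (.e (nat_lit 434209) (nat_lit 18) (.e (nat_lit 3944) (nat_lit 239) .nil))))) (.g (nat_lit 0) (.e (nat_lit 95348) (nat_lit 0) .nil) .nil))) 
(.lf (nat_lit 474677) (.g (nat_lit 3527) (.e (nat_lit 1256) (nat_lit 92) (.e (nat_lit 98350) (nat_lit 24) (.e (nat_lit 409649) (nat_lit 18) (.e (nat_lit 303117) (nat_lit 2) (.e (nat_lit 196670) (nat_lit 14) (.e (nat_lit 81664) (nat_lit 40) .nil)))))) (.g (nat_lit 1) (.e (nat_lit 95960) (nat_lit 0) .nil) .nil)))) (.nd (nat_lit 9) 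
(.lf (nat_lit 474421) (.g (nat_lit 2533) (.e (nat_lit 1250) (nat_lit 92) (.e (nat_lit 98373) (nat_lit 29) (.e (nat_lit 450587) (nat_lit 10) (.e (nat_lit 573454) (nat_lit 9) (.e (nat_lit 441) (nat_lit 33) (.e (nat_lit 442112) (nat_lit 0) .nil)))))) (.g (nat_lit 1) (.e (nat_lit 95614) (nat_lit 0) .nil) .nil))) 
(.lf (nat_lit 474933) (.g (nat_lit 899) (.e (nat_lit 1349) (nat_lit 102) (.e (nat_lit 286732) (nat_lit 2) (.e (nat_lit 90178) (nat_lit 15) .nil))) (.g (nat_lit 0) (.e (nat_lit 96817) (nat_lit 0) .nil) .nil))))) (.nd (nat_lit 8) (.nd (nat_lit 9) 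
(.lf (nat_lit 474293) (.g (nat_lit 3365) (.e (nat_lit 1239) (nat_lit 91) (.e (nat_lit 90170) (nat_lit 13) (.e (nat_lit 172113) (nat_lit 10) (.e (nat_lit 434248) (nat_lit 28) (.e (nat_lit 573449) (nat_lit 9) (.e (nat_lit 473) (nat_lit 36) (.e (nat_lit 466688) (nat_lit 0) .nil))))))) (.g (nat_lit 1) (.e (nat_lit 95476) (nat_lit 0) .nil) .nil))) 
(.lf (nat_lit 474805) (.g (nat_lit 4823) (.e (nat_lit 1374) (nat_lit 104) (.e (nat_lit 303119) (nat_lit 3) (.e (nat_lit 204846) (nat_lit 24) (.e (nat_lit 319534) (nat_lit 16) (.e (nat_lit 286735) (nat_lit 3) (.e (nat_lit 98325) (nat_lit 17) (.e (nat_lit 6986) (nat_lit 377) .nil))))))) (.g (nat_lit 1) (.e (nat_lit 96293) (nat_lit 0) .nil) .nil)))) (.nd (nat_lit 9) 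
(.lf (nat_lit 474549) (.g (nat_lit 3828) (.e (nat_lit 1253) (nat_lit 92) (.e (nat_lit 98373) (nat_lit 29) (.e (nat_lit 450588) (nat_lit 10) (.e (nat_lit 573449) (nat_lit 9) (.e (nat_lit 449) (nat_lit 33) .nil))))) (.g (nat_lit 0) (.e (nat_lit 95770) (nat_lit 0) .nil) .nil))) 
(.lf (nat_lit 475061) (.g (nat_lit 1665) (.e (nat_lit 1400) (nat_lit 106) (.e (nat_lit 319534) (nat_lit 16) (.e (nat_lit 286735) (nat_lit 3) (.e (nat_lit 106240) (nat_lit 26) .nil)))) (.g (nat_lit 0) (.e (nat_lit 97161) (nat_lit 0) .nil) .nil)))))) (.nd (nat_lit 7) (.nd (nat_lit 8) (.nd (nat_lit 9) 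
(.lf (nat_lit 474229) (.g (nat_lit 996) (.e (nat_lit 1239) (nat_lit 91) (.e (nat_lit 90170) (nat_lit 13) (.e (nat_lit 172113) (nat_lit 10) (.e (nat_lit 434234) (nat_lit 23) .nil)))) (.g (nat_lit 0) (.e (nat_lit 95412) (nat_lit 0) .nil) .nil))) 
(.lf (nat_lit 474741) (.g (nat_lit 2396) (.e (nat_lit 1277) (nat_lit 94) (.e (nat_lit 114719) (nat_lit 23) (.e (nat_lit 98366) (nat_lit 27) (.e (nat_lit 434231) (nat_lit 23) (.e (nat_lit 532502) (nat_lit 1) .nil))))) (.g (nat_lit 0) (.e (nat_lit 96053) (nat_lit 0) .nil) .nil)))) (.nd (nat_lit 9) 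
(.lf (nat_lit 474485) (.g (nat_lit 2674) (.e (nat_lit 1252) (nat_lit 92) (.e (nat_lit 98335) (nat_lit 18) (.e (nat_lit 164327) (nat_lit 230) (.e (nat_lit 163875) (nat_lit 3) (.e (nat_lit 204809) (nat_lit 9) .nil))))) (.g (nat_lit 0) (.e (nat_lit 95684) (nat_lit 0) .nil) .nil))) 
(.lf (nat_lit 474997) (.g (nat_lit 2466) (.e (nat_lit 1361) (nat_lit 102) (.e (nat_lit 286759) (nat_lit 12) (.e (nat_lit 385094) (nat_lit 49) (.e (nat_lit 778510) (nat_lit 14) .nil)))) (.g (nat_lit 0) (.e (nat_lit 96993) (nat_lit 0) .nil) .nil))))) (.nd (nat_lit 8) (.nd (nat_lit 9) 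
(.lf (nat_lit 474357) (.g (nat_lit 3010) (.e (nat_lit 1247) (nat_lit 92) (.e (nat_lit 98333) (nat_lit 18) (.e (nat_lit 164403) (nat_lit 256) (.e (nat_lit 57373) (nat_lit 2) (.e (nat_lit 90174) (nat_lit 14) .nil))))) (.g (nat_lit 0) (.e (nat_lit 95547) (nat_lit 0) .nil) .nil))) 
(.lf (nat_lit 474869) (.g (nat_lit 4345) (.e (nat_lit 1380) (nat_lit 105) (.e (nat_lit 311342) (nat_lit 13) (.e (nat_lit 483413) (nat_lit 27) (.e (nat_lit 401447) (nat_lit 10) (.e (nat_lit 434289) (nat_lit 43) (.e (nat_lit 696320) (nat_lit 0) .nil)))))) (.g (nat_lit 1) (.e (nat_lit 96590) (nat_lit 0) .nil) .nil)))) (.nd (nat_lit 9) 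
(.lf (nat_lit 474613) (.g (nat_lit 2794) (.e (nat_lit 1255) (nat_lit 92) (.e (nat_lit 98335) (nat_lit 18) (.e (nat_lit 164327) (nat_lit 230) (.e (nat_lit 163868) (nat_lit 2) (.e (nat_lit 196656) (nat_lit 11) .nil))))) (.g (nat_lit 0) (.e (nat_lit 95856) (nat_lit 0) .nil) .nil))) 
(.lf (nat_lit 475125) (.g (nat_lit 748) (.e (nat_lit 1425) (nat_lit 108) (.e (nat_lit 336454) (nat_lit 34) (.e (nat_lit 483403) (nat_lit 26) .nil))) (.g (nat_lit 0) (.e (nat_lit 97294) (nat_lit 0) .nil) .nil))))))))) (.nd (nat_lit 4) (.nd (nat_lit 5) (.nd (nat_lit 6) (.nd (nat_lit 7) (.nd (nat_lit 8) (.nd (nat_lit 9) 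
(.lf (nat_lit 474125) (.g (nat_lit 1115) (.e (nat_lit 1235) (nat_lit 91) (.e (nat_lit 90170) (nat_lit 13) (.e (nat_lit 172115) (nat_lit 10) (.e (nat_lit 434231) (nat_lit 23) .nil)))) (.g (nat_lit 0) (.e (nat_lit 95294) (nat_lit 0) .nil) .nil))) 
(.lf (nat_lit 474637) (.g (nat_lit 2978) (.e (nat_lit 1255) (nat_lit 92) (.e (nat_lit 98384) (nat_lit 32) (.e (nat_lit 475177) (nat_lit 24) (.e (nat_lit 516115) (nat_lit 1) (.e (nat_lit 164332) (nat_lit 230) .nil))))) (.g (nat_lit 0) (.e (nat_lit 95909) (nat_lit 0) .nil) .nil)))) (.nd (nat_lit 9) 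
(.lf (nat_lit 474381) (.g (nat_lit 4351) (.e (nat_lit 1250) (nat_lit 92) (.e (nat_lit 98350) (nat_lit 24) (.e (nat_lit 409645) (nat_lit 18) (.e (nat_lit 303119) (nat_lit 3) (.e (nat_lit 204846) (nat_lit 24) (.e (nat_lit 319490) (nat_lit 0) (.e (nat_lit 5293) (nat_lit 298) .nil))))))) (.g (nat_lit 1) (.e (nat_lit 95572) (nat_lit 0) .nil) .nil))) 
(.lf (nat_lit 474893) (.g (nat_lit 1539) (.e (nat_lit 1386) (nat_lit 105) (.e (nat_lit 311357) (nat_lit 28) (.e (nat_lit 344068) (nat_lit 0) (.e (nat_lit 3090) (nat_lit 191) (.e (nat_lit 483354) (nat_lit 17) (.e (nat_lit 6149) (nat_lit 332) .nil)))))) (.g (nat_lit 1) (.e (nat_lit 96711) (nat_lit 0) .nil) .nil))))) (.nd (nat_lit 8) (.nd (nat_lit 9) 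
(.lf (nat_lit 474253) (.g (nat_lit 3504) (.e (nat_lit 1239) (nat_lit 91) (.e (nat_lit 90170) (nat_lit 13) (.e (nat_lit 172113) (nat_lit 10) (.e (nat_lit 434245) (nat_lit 28) (.e (nat_lit 573451) (nat_lit 9) (.e (nat_lit 428) (nat_lit 32) (.e (nat_lit 425989) (nat_lit 0) (.e (nat_lit 7489) (nat_lit 402) .nil)))))))) (.g (nat_lit 1) (.e (nat_lit 95436) (nat_lit 0) .nil) .nil))) 
(.lf (nat_lit 474765) (.g (nat_lit 2049) (.e (nat_lit 1312) (nat_lit 98) (.e (nat_lit 147496) (nat_lit 11) (.e (nat_lit 24617) (nat_lit 7) (.e (nat_lit 319533) (nat_lit 16) (.e (nat_lit 286753) (nat_lit 10) .nil))))) (.g (nat_lit 0) (.e (nat_lit 96166) (nat_lit 0) .nil) .nil)))) (.nd (nat_lit 9) 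
(.lf (nat_lit 474509) (.g (nat_lit 1770) (.e (nat_lit 1253) (nat_lit 92) (.e (nat_lit 98349) (nat_lit 24) (.e (nat_lit 409646) (nat_lit 18) (.e (nat_lit 303117) (nat_lit 2) .nil)))) (.g (nat_lit 0) (.e (nat_lit 95724) (nat_lit 0) .nil) .nil))) 
(.lf (nat_lit 475021) (.g (nat_lit 2346) (.e (nat_lit 1394) (nat_lit 106) (.e (nat_lit 319531) (nat_lit 16) (.e (nat_lit 286733) (nat_lit 2) (.e (nat_lit 90128) (nat_lit 9) .nil)))) (.g (nat_lit 0) (.e (nat_lit 97063) (nat_lit 0) .nil) .nil)))))) (.nd (nat_lit 7) (.nd (nat_lit 8) (.nd (nat_lit 9) 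
(.lf (nat_lit 474189) (.g (nat_lit 2520) (.e (nat_lit 1239) (nat_lit 91) (.e (nat_lit 90170) (nat_lit 13) (.e (nat_lit 172106) (nat_lit 10) (.e (nat_lit 434244) (nat_lit 28) (.e (nat_lit 573450) (nat_lit 9) (.e (nat_lit 471) (nat_lit 36) (.e (nat_lit 466688) (nat_lit 0) .nil))))))) (.g (nat_lit 1) (.e (nat_lit 95372) (nat_lit 0) .nil) .nil))) 
(.lf (nat_lit 474701) (.g (nat_lit 1375) (.e (nat_lit 1256) (nat_lit 92) (.e (nat_lit 98373) (nat_lit 29) (.e (nat_lit 450586) (nat_lit 10) (.e (nat_lit 573471) (nat_lit 11) .nil)))) (.g (nat_lit 0) (.e (nat_lit 95990) (nat_lit 0) .nil) .nil)))) (.nd (nat_lit 9) 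
(.lf (nat_lit 474445) (.g (nat_lit 3094) (.e (nat_lit 1251) (nat_lit 92) (.e (nat_lit 98334) (nat_lit 18) (.e (nat_lit 164398) (nat_lit 256) (.e (nat_lit 57372) (nat_lit 2) (.e (nat_lit 90174) (nat_lit 14) .nil))))) (.g (nat_lit 0) (.e (nat_lit 95640) (nat_lit 0) .nil) .nil))) 
(.lf (nat_lit 474957) (.g (nat_lit 3801) (.e (nat_lit 1355) (nat_lit 102) (.e (nat_lit 286733) (nat_lit 2) (.e (nat_lit 90170) (nat_lit 13) (.e (nat_lit 172097) (nat_lit 9) (.e (nat_lit 426125) (nat_lit 2) .nil))))) (.g (nat_lit 0) (.e (nat_lit 96877) (nat_lit 0) .nil) .nil))))) (.nd (nat_lit 8) (.nd (nat_lit 9) 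
(.lf (nat_lit 474317) (.g (nat_lit 2346) (.e (nat_lit 1239) (nat_lit 91) (.e (nat_lit 90170) (nat_lit 13) (.e (nat_lit 172113) (nat_lit 10) (.e (nat_lit 434248) (nat_lit 28) (.e (nat_lit 573457) (nat_lit 9) (.e (nat_lit 365) (nat_lit 31) (.e (nat_lit 417796) (nat_lit 0) (.e (nat_lit 5271) (nat_lit 298) .nil)))))))) (.g (nat_lit 1) (.e (nat_lit 95500) (nat_lit 0) .nil) .nil))) 
(.lf (nat_lit 474829) (.g (nat_lit 739) (.e (nat_lit 1376) (nat_lit 104) (.e (nat_lit 303119) (nat_lit 3) (.e (nat_lit 204846) (nat_lit 24) .nil))) (.g (nat_lit 0) (.e (nat_lit 96393) (nat_lit 0) .nil) .nil)))) (.nd (nat_lit 9) 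
(.lf (nat_lit 474573) (.g (nat_lit 2127) (.e (nat_lit 1254) (nat_lit 92) (.e (nat_lit 98333) (nat_lit 18) (.e (nat_lit 164399) (nat_lit 256) (.e (nat_lit 57372) (nat_lit 2) (.e (nat_lit 90174) (nat_lit 14) .nil))))) (.g (nat_lit 0) (.e (nat_lit 95796) (nat_lit 0) .nil) .nil))) 
(.lf (nat_lit 475085) (.g (nat_lit 4894) (.e (nat_lit 1423) (nat_lit 108) (.e (nat_lit 336019) (nat_lit 3) (.e (nat_lit 98373) (nat_lit 29) (.e (nat_lit 450588) (nat_lit 10) (.e (nat_lit 573475) (nat_lit 12) .nil))))) (.g (nat_lit 0) (.e (nat_lit 97216) (nat_lit 0) .nil) .nil))))))) (.nd (nat_lit 6) (.nd (nat_lit 7) (.nd (nat_lit 8) (.nd (nat_lit 9) 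
(.lf (nat_lit 474157) (.g (nat_lit 2990) (.e (nat_lit 1238) (nat_lit 91) (.e (nat_lit 90172) (nat_lit 14) (.e (nat_lit 180250) (nat_lit 10) (.e (nat_lit 573489) (nat_lit 14) (.e (nat_lit 73754) (nat_lit 8) .nil))))) (.g (nat_lit 0) (.e (nat_lit 95334) (nat_lit 0) .nil) .nil))) 
(.lf (nat_lit 474669) (.g (nat_lit 2961) (.e (nat_lit 1256) (nat_lit 92) (.e (nat_lit 98350) (nat_lit 24) (.e (nat_lit 409645) (nat_lit 18) (.e (nat_lit 303117) (nat_lit 2) (.e (nat_lit 196669) (nat_lit 14) .nil))))) (.g (nat_lit 0) (.e (nat_lit 95952) (nat_lit 0) .nil) .nil)))) (.nd (nat_lit 9) 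
(.lf (nat_lit 474413) (.g (nat_lit 2823) (.e (nat_lit 1250) (nat_lit 92) (.e (nat_lit 98372) (nat_lit 29) (.e (nat_lit 450588) (nat_lit 10) (.e (nat_lit 573457) (nat_lit 9) (.e (nat_lit 359) (nat_lit 30) .nil))))) (.g (nat_lit 0) (.e (nat_lit 95606) (nat_lit 0) .nil) .nil))) 
(.lf (nat_lit 474925) (.g (nat_lit 647) (.e (nat_lit 1348) (nat_lit 102) (.e (nat_lit 286735) (nat_lit 3) (.e (nat_lit 98361) (nat_lit 26) .nil))) (.g (nat_lit 0) (.e (nat_lit 96788) (nat_lit 0) .nil) .nil))))) (.nd (nat_lit 8) (.nd (nat_lit 9) 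
(.lf (nat_lit 474285) (.g (nat_lit 3836) (.e (nat_lit 1239) (nat_lit 91) (.e (nat_lit 90170) (nat_lit 13) (.e (nat_lit 172113) (nat_lit 10) (.e (nat_lit 434247) (nat_lit 28) (.e (nat_lit 573457) (nat_lit 9) (.e (nat_lit 430) (nat_lit 32) (.e (nat_lit 426009) (nat_lit 0) (.e (nat_lit 7490) (nat_lit 402) .nil)))))))) (.g (nat_lit 1) (.e (nat_lit 95468) (nat_lit 0) .nil) .nil))) 
(.lf (nat_lit 474797) (.g (nat_lit 2441) (.e (nat_lit 1374) (nat_lit 104) (.e (nat_lit 303119) (nat_lit 3) (.e (nat_lit 204846) (nat_lit 24) (.e (nat_lit 319533) (nat_lit 16) (.e (nat_lit 286724) (nat_lit 0) (.e (nat_lit 1842) (nat_lit 123) (.e (nat_lit 548886) (nat_lit 8) (.e (nat_lit 57711) (nat_lit 176) .nil)))))))) (.g (nat_lit 1) (.e (nat_lit 96285) (nat_lit 0) .nil) .nil)))) 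
(.nd (nat_lit 9) 
(.lf (nat_lit 474541) (.g (nat_lit 3676) (.e (nat_lit 1253) (nat_lit 92) (.e (nat_lit 98373) (nat_lit 29) (.e (nat_lit 450587) (nat_lit 10) (.e (nat_lit 573449) (nat_lit 9) (.e (nat_lit 452) (nat_lit 33) .nil))))) (.g (nat_lit 0) (.e (nat_lit 95762) (nat_lit 0) .nil) .nil))) 
(.lf (nat_lit 475053) (.g (nat_lit 4466) (.e (nat_lit 1400) (nat_lit 106) (.e (nat_lit 319533) (nat_lit 16) (.e (nat_lit 286733) (nat_lit 2) (.e (nat_lit 90134) (nat_lit 9) (.e (nat_lit 3002) (nat_lit 186) (.e (nat_lit 442423) (nat_lit 22) (.e (nat_lit 196626) (nat_lit 9) .nil))))))) (.g (nat_lit 1) (.e (nat_lit 97147) (nat_lit 0) .nil) .nil)))))) 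
(.nd (nat_lit 7) (.nd (nat_lit 8) (.nd (nat_lit 9) 
(.lf (nat_lit 474221) (.g (nat_lit 2421) (.e (nat_lit 1239) (nat_lit 91) (.e (nat_lit 90170) (nat_lit 13) (.e (nat_lit 172113) (nat_lit 10) (.e (nat_lit 434203) (nat_lit 18) (.e (nat_lit 3919) (nat_lit 239) (.e (nat_lit 2636) (nat_lit 165) (.e (nat_lit 188160) (nat_lit 32) .nil))))))) (.g (nat_lit 1) (.e (nat_lit 95404) (nat_lit 0) .nil) .nil))) 
(.lf (nat_lit 474733) (.g (nat_lit 2470) (.e (nat_lit 1265) (nat_lit 93) (.e (nat_lit 106534) (nat_lit 11) (.e (nat_lit 16425) (nat_lit 7) (.e (nat_lit 409649) (nat_lit 18) (.e (nat_lit 303140) (nat_lit 10) .nil))))) (.g (nat_lit 0) (.e (nat_lit 96026) (nat_lit 0) .nil) .nil)))) (.nd (nat_lit 9) 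
(.lf (nat_lit 474477) (.g (nat_lit 2644) (.e (nat_lit 1252) (nat_lit 92) (.e (nat_lit 98334) (nat_lit 18) (.e (nat_lit 164398) (nat_lit 256) (.e (nat_lit 57375) (nat_lit 2) (.e (nat_lit 90172) (nat_lit 14) .nil))))) (.g (nat_lit 0) (.e (nat_lit 95676) (nat_lit 0) .nil) .nil))) 
(.lf (nat_lit 474989) (.g (nat_lit 2073) (.e (nat_lit 1361) (nat_lit 102) (.e (nat_lit 286735) (nat_lit 3) (.e (nat_lit 98325) (nat_lit 17) (.e (nat_lit 6986) (nat_lit 377) (.e (nat_lit 1076) (nat_lit 81) .nil))))) (.g (nat_lit 0) (.e (nat_lit 96982) (nat_lit 0) .nil) .nil))))) (.nd (nat_lit 8) (.nd (nat_lit 9) 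
(.lf (nat_lit 474349) (.g (nat_lit 2634) (.e (nat_lit 1246) (nat_lit 92) (.e (nat_lit 98373) (nat_lit 29) (.e (nat_lit 450587) (nat_lit 10) (.e (nat_lit 573469) (nat_lit 11) .nil)))) (.g (nat_lit 0) (.e (nat_lit 95539) (nat_lit 0) .nil) .nil))) 
(.lf (nat_lit 474861) (.g (nat_lit 3760) (.e (nat_lit 1379) (nat_lit 104) (.e (nat_lit 303118) (nat_lit 3) (.e (nat_lit 204885) (nat_lit 33) (.e (nat_lit 401434) (nat_lit 9) (.e (nat_lit 426125) (nat_lit 2) (.e (nat_lit 196661) (nat_lit 12) (.e (nat_lit 57712) (nat_lit 176) .nil))))))) (.g (nat_lit 1) (.e (nat_lit 96513) (nat_lit 0) .nil) .nil)))) (.nd (nat_lit 9) 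
(.lf (nat_lit 474605) (.g (nat_lit 2135) (.e (nat_lit 1255) (nat_lit 92) (.e (nat_lit 98333) (nat_lit 18) (.e (nat_lit 164398) (nat_lit 256) (.e (nat_lit 57375) (nat_lit 2) (.e (nat_lit 90174) (nat_lit 14) .nil))))) (.g (nat_lit 0) (.e (nat_lit 95838) (nat_lit 0) .nil) .nil))) 
(.lf (nat_lit 475117) (.g (nat_lit 2477) (.e (nat_lit 1425) (nat_lit 108) (.e (nat_lit 336430) (nat_lit 29) (.e (nat_lit 442421) (nat_lit 21) (.e (nat_lit 164347) (nat_lit 240) (.e (nat_lit 2638) (nat_lit 165) (.e (nat_lit 180277) (nat_lit 32) .nil)))))) (.g (nat_lit 1) (.e (nat_lit 97278) (nat_lit 0) .nil) .nil)))))))) 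
(.nd (nat_lit 5) (.nd (nat_lit 6) (.nd (nat_lit 7) (.nd (nat_lit 8) (.nd (nat_lit 9) 
(.lf (nat_lit 474141) (.g (nat_lit 3620) (.e (nat_lit 1237) (nat_lit 91) (.e (nat_lit 90170) (nat_lit 13) (.e (nat_lit 172106) (nat_lit 10) (.e (nat_lit 434244) (nat_lit 28) (.e (nat_lit 573450) (nat_lit 9) (.e (nat_lit 375) (nat_lit 32) (.e (nat_lit 426025) (nat_lit 0) (.e (nat_lit 7936) (nat_lit 402) .nil)))))))) (.g (nat_lit 1) (.e (nat_lit 95317) (nat_lit 0) .nil) .nil))) 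
(.lf (nat_lit 474653) (.g (nat_lit 2260) (.e (nat_lit 1256) (nat_lit 92) (.e (nat_lit 98333) (nat_lit 18) (.e (nat_lit 164399) (nat_lit 256) (.e (nat_lit 57375) (nat_lit 2) (.e (nat_lit 90174) (nat_lit 14) .nil))))) (.g (nat_lit 0) (.e (nat_lit 95932) (nat_lit 0) .nil) .nil)))) (.nd (nat_lit 9) 
(.lf (nat_lit 474397) (.g (nat_lit 3385) (.e (nat_lit 1250) (nat_lit 92) (.e (nat_lit 98366) (nat_lit 27) (.e (nat_lit 434244) (nat_lit 28) (.e (nat_lit 573451) (nat_lit 9) (.e (nat_lit 1449) (nat_lit 108) (.e (nat_lit 336013) (nat_lit 2) (.e (nat_lit 90189) (nat_lit 18) (.e (nat_lit 2579) (nat_lit 161) (.e (nat_lit 40964) (nat_lit 0) .nil))))))))) (.g (nat_lit 1) (.e (nat_lit 95588) (nat_lit 0) .nil) .nil))) 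
(.lf (nat_lit 474909) (.g (nat_lit 1239) (.e (nat_lit 1346) (nat_lit 102) (.e (nat_lit 286759) (nat_lit 12) (.e (nat_lit 385074) (nat_lit 31) (.e (nat_lit 573485) (nat_lit 13) .nil)))) (.g (nat_lit 0) (.e (nat_lit 96738) (nat_lit 0) .nil) .nil))))) (.nd (nat_lit 8) (.nd (nat_lit 9) 
(.lf (nat_lit 474269) (.g (nat_lit 3584) (.e (nat_lit 1239) (nat_lit 91) (.e (nat_lit 90170) (nat_lit 13) (.e (nat_lit 172113) (nat_lit 10) (.e (nat_lit 434247) (nat_lit 28) (.e (nat_lit 573456) (nat_lit 9) (.e (nat_lit 365) (nat_lit 31) (.e (nat_lit 417796) (nat_lit 0) (.e (nat_lit 5258) (nat_lit 298) .nil)))))))) (.g (nat_lit 1) (.e (nat_lit 95452) (nat_lit 0) .nil) .nil))) 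
(.lf (nat_lit 474781) (.g (nat_lit 2173) (.e (nat_lit 1374) (nat_lit 104) (.e (nat_lit 303119) (nat_lit 3) (.e (nat_lit 204845) (nat_lit 24) (.e (nat_lit 319539) (nat_lit 19) (.e (nat_lit 311315) (nat_lit 3) (.e (nat_lit 204819) (nat_lit 17) (.e (nat_lit 6113) (nat_lit 332) .nil))))))) (.g (nat_lit 1) (.e (nat_lit 96260) (nat_lit 0) .nil) .nil)))) (.nd (nat_lit 9) 
(.lf (nat_lit 474525) (.g (nat_lit 1639) (.e (nat_lit 1253) (nat_lit 92) (.e (nat_lit 98372) (nat_lit 29) (.e (nat_lit 450586) (nat_lit 10) (.e (nat_lit 573471) (nat_lit 11) (.e (nat_lit 16389) (nat_lit 0) .nil))))) (.g (nat_lit 0) (.e (nat_lit 95746) (nat_lit 0) .nil) .nil))) 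
(.lf (nat_lit 475037) (.g (nat_lit 1526) (.e (nat_lit 1401) (nat_lit 106) (.e (nat_lit 319531) (nat_lit 16) (.e (nat_lit 286733) (nat_lit 2) (.e (nat_lit 90166) (nat_lit 13) .nil)))) (.g (nat_lit 0) (.e (nat_lit 97117) (nat_lit 0) .nil) .nil)))))) (.nd (nat_lit 7) (.nd (nat_lit 8) (.nd (nat_lit 9) 
(.lf (nat_lit 474205) (.g (nat_lit 2796) (.e (nat_lit 1239) (nat_lit 91) (.e (nat_lit 90170) (nat_lit 13) (.e (nat_lit 172106) (nat_lit 10) (.e (nat_lit 434244) (nat_lit 28) (.e (nat_lit 573451) (nat_lit 9) (.e (nat_lit 7936) (nat_lit 32) (.e (nat_lit 425987) (nat_lit 0) (.e (nat_lit 7489) (nat_lit 402) .nil)))))))) (.g (nat_lit 1) (.e (nat_lit 95388) (nat_lit 0) .nil) .nil))) 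
(.lf (nat_lit 474717) (.g (nat_lit 2276) (.e (nat_lit 1256) (nat_lit 92) (.e (nat_lit 98373) (nat_lit 29) (.e (nat_lit 450588) (nat_lit 10) (.e (nat_lit 573452) (nat_lit 9) (.e (nat_lit 359) (nat_lit 30) (.e (nat_lit 409607) (nat_lit 0) (.e (nat_lit 5245) (nat_lit 298) .nil))))))) (.g (nat_lit 1) (.e (nat_lit 96006) (nat_lit 0) .nil) .nil)))) (.nd (nat_lit 9) 
(.lf (nat_lit 474461) (.g (nat_lit 2020) (.e (nat_lit 1252) (nat_lit 92) (.e (nat_lit 98333) (nat_lit 18) (.e (nat_lit 164399) (nat_lit 256) (.e (nat_lit 57370) (nat_lit 2) (.e (nat_lit 90174) (nat_lit 14) .nil))))) (.g (nat_lit 0) (.e (nat_lit 95659) (nat_lit 0) .nil) .nil))) 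
(.lf (nat_lit 474973) (.g (nat_lit 3193) (.e (nat_lit 1359) (nat_lit 102) (.e (nat_lit 286733) (nat_lit 2) (.e (nat_lit 90170) (nat_lit 13) (.e (nat_lit 172106) (nat_lit 10) (.e (nat_lit 434231) (nat_lit 23) .nil))))) (.g (nat_lit 0) (.e (nat_lit 96920) (nat_lit 0) .nil) .nil))))) (.nd (nat_lit 8) (.nd (nat_lit 9) 
(.lf (nat_lit 474333) (.g (nat_lit 2628) (.e (nat_lit 7936) (nat_lit 91) (.e (nat_lit 90170) (nat_lit 13) (.e (nat_lit 172106) (nat_lit 10) (.e (nat_lit 434231) (nat_lit 23) (.e (nat_lit 532486) (nat_lit 0) .nil))))) (.g (nat_lit 0) (.e (nat_lit 95523) (nat_lit 0) .nil) .nil))) 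
(.lf (nat_lit 474845) (.g (nat_lit 4677) (.e (nat_lit 1376) (nat_lit 104) (.e (nat_lit 303119) (nat_lit 3) (.e (nat_lit 204846) (nat_lit 24) (.e (nat_lit 319534) (nat_lit 16) (.e (nat_lit 286735) (nat_lit 3) (.e (nat_lit 98325) (nat_lit 17) (.e (nat_lit 6986) (nat_lit 377) .nil))))))) (.g (nat_lit 1) (.e (nat_lit 96419) (nat_lit 0) .nil) .nil)))) (.nd (nat_lit 9) 
(.lf (nat_lit 474589) (.g (nat_lit 2444) (.e (nat_lit 1254) (nat_lit 92) (.e (nat_lit 98334) (nat_lit 18) (.e (nat_lit 164398) (nat_lit 256) (.e (nat_lit 57375) (nat_lit 2) (.e (nat_lit 90174) (nat_lit 14) .nil))))) (.g (nat_lit 0) (.e (nat_lit 95812) (nat_lit 0) .nil) .nil))) 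
(.lf (nat_lit 475101) (.g (nat_lit 2363) (.e (nat_lit 1425) (nat_lit 108) (.e (nat_lit 336324) (nat_lit 18) (.e (nat_lit 204854) (nat_lit 26) (.e (nat_lit 336316) (nat_lit 17) (.e (nat_lit 196668) (nat_lit 14) .nil))))) (.g (nat_lit 0) (.e (nat_lit 97255) (nat_lit 0) .nil) .nil))))))) (.nd (nat_lit 6) (.nd (nat_lit 7) (.nd (nat_lit 8) (.nd (nat_lit 9) 
(.lf (nat_lit 474173) (.g (nat_lit 2416) (.e (nat_lit 1239) (nat_lit 91) (.e (nat_lit 90170) (nat_lit 13) (.e (nat_lit 172106) (nat_lit 10) (.e (nat_lit 434231) (nat_lit 23) (.e (nat_lit 532525) (nat_lit 8) .nil))))) (.g (nat_lit 0) (.e (nat_lit 95356) (nat_lit 0) .nil) .nil))) 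
(.lf (nat_lit 474685) (.g (nat_lit 2214) (.e (nat_lit 1256) (nat_lit 92) (.e (nat_lit 98367) (nat_lit 27) (.e (nat_lit 434244) (nat_lit 28) (.e (nat_lit 573481) (nat_lit 13) (.e (nat_lit 65569) (nat_lit 3) .nil))))) (.g (nat_lit 0) (.e (nat_lit 95973) (nat_lit 0) .nil) .nil)))) (.nd (nat_lit 9) 
(.lf (nat_lit 474429) (.g (nat_lit 3938) (.e (nat_lit 1250) (nat_lit 92) (.e (nat_lit 98373) (nat_lit 29) (.e (nat_lit 450588) (nat_lit 10) (.e (nat_lit 573451) (nat_lit 9) (.e (nat_lit 13) (nat_lit 0) .nil))))) (.g (nat_lit 0) (.e (nat_lit 95622) (nat_lit 0) .nil) .nil))) 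
(.lf (nat_lit 474941) (.g (nat_lit 3740) (.e (nat_lit 1349) (nat_lit 102) (.e (nat_lit 286735) (nat_lit 3) (.e (nat_lit 98353) (nat_lit 25) (.e (nat_lit 417810) (nat_lit 6) (.e (nat_lit 286733) (nat_lit 2) (.e (nat_lit 90133) (nat_lit 9) (.e (nat_lit 2397) (nat_lit 157) (.e (nat_lit 7064) (nat_lit 377) .nil)))))))) (.g (nat_lit 1) (.e (nat_lit 96837) (nat_lit 0) .nil) .nil))))) 
(.nd (nat_lit 8) (.nd (nat_lit 9) 
(.lf (nat_lit 474301) (.g (nat_lit 3466) (.e (nat_lit 1239) (nat_lit 91) (.e (nat_lit 90170) (nat_lit 13) (.e (nat_lit 172113) (nat_lit 10) (.e (nat_lit 434248) (nat_lit 28) (.e (nat_lit 573451) (nat_lit 9) (.e (nat_lit 359) (nat_lit 30) (.e (nat_lit 409604) (nat_lit 0) (.e (nat_lit 5270) (nat_lit 298) .nil)))))))) (.g (nat_lit 1) (.e (nat_lit 95484) (nat_lit 0) .nil) .nil))) 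
(.lf (nat_lit 474813) (.g (nat_lit 3196) (.e (nat_lit 1374) (nat_lit 104) (.e (nat_lit 303145) (nat_lit 13) (.e (nat_lit 483337) (nat_lit 9) (.e (nat_lit 426107) (nat_lit 1) (.e (nat_lit 164347) (nat_lit 240) (.e (nat_lit 7936) (nat_lit 157) (.e (nat_lit 2668) (nat_lit 167) (.e (nat_lit 196683) (nat_lit 18) .nil)))))))) (.g (nat_lit 1) (.e (nat_lit 96304) (nat_lit 0) .nil) .nil)))) 
(.nd (nat_lit 9) 
(.lf (nat_lit 474557) (.g (nat_lit 5747) (.e (nat_lit 1253) (nat_lit 92) (.e (nat_lit 98373) (nat_lit 29) (.e (nat_lit 450588) (nat_lit 10) (.e (nat_lit 573469) (nat_lit 11) (.e (nat_lit 16392) (nat_lit 0) .nil))))) (.g (nat_lit 0) (.e (nat_lit 95778) (nat_lit 0) .nil) .nil))) 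
(.lf (nat_lit 475069) (.g (nat_lit 903) (.e (nat_lit 1413) (nat_lit 108) (.e (nat_lit 336456) (nat_lit 34) (.e (nat_lit 483396) (nat_lit 24) .nil))) (.g (nat_lit 0) (.e (nat_lit 97179) (nat_lit 0) .nil) .nil)))))) (.nd (nat_lit 7) (.nd (nat_lit 8) (.nd (nat_lit 9) 
(.lf (nat_lit 474237) (.g (nat_lit 1869) (.e (nat_lit 1239) (nat_lit 91) (.e (nat_lit 90170) (nat_lit 13) (.e (nat_lit 172113) (nat_lit 10) (.e (nat_lit 434245) (nat_lit 28) (.e (nat_lit 573448) (nat_lit 9) .nil))))) (.g (nat_lit 0) (.e (nat_lit 95420) (nat_lit 0) .nil) .nil))) 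
(.lf (nat_lit 474749) (.g (nat_lit 2888) (.e (nat_lit 1278) (nat_lit 94) (.e (nat_lit 114698) (nat_lit 11) (.e (nat_lit 426139) (nat_lit 3) (.e (nat_lit 204861) (nat_lit 26) .nil)))) (.g (nat_lit 0) (.e (nat_lit 96064) (nat_lit 0) .nil) .nil)))) (.nd (nat_lit 9) 
(.lf (nat_lit 474493) (.g (nat_lit 1517) (.e (nat_lit 1252) (nat_lit 92) (.e (nat_lit 98370) (nat_lit 28) (.e (nat_lit 442430) (nat_lit 24) (.e (nat_lit 237312) (nat_lit 134) .nil)))) (.g (nat_lit 0) (.e (nat_lit 95700) (nat_lit 0) .nil) .nil))) 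
(.lf (nat_lit 475005) (.g (nat_lit 3371) (.e (nat_lit 7936) (nat_lit 102) (.e (nat_lit 286733) (nat_lit 2) (.e (nat_lit 90170) (nat_lit 13) (.e (nat_lit 172097) (nat_lit 9) (.e (nat_lit 426125) (nat_lit 2) .nil))))) (.g (nat_lit 0) (.e (nat_lit 97007) (nat_lit 0) .nil) .nil))))) (.nd (nat_lit 8) (.nd (nat_lit 9) 
(.lf (nat_lit 474365) (.g (nat_lit 3224) (.e (nat_lit 1250) (nat_lit 92) (.e (nat_lit 98323) (nat_lit 17) (.e (nat_lit 6989) (nat_lit 377) (.e (nat_lit 977) (nat_lit 81) (.e (nat_lit 5664) (nat_lit 312) (.e (nat_lit 2679) (nat_lit 168) (.e (nat_lit 204846) (nat_lit 24) (.e (nat_lit 319511) (nat_lit 10) (.e (nat_lit 5293) (nat_lit 298) .nil))))))))) (.g (nat_lit 1) (.e (nat_lit 95556) (nat_lit 0) .nil) .nil))) 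
(.lf (nat_lit 474877) (.g (nat_lit 2053) (.e (nat_lit 1380) (nat_lit 105) (.e (nat_lit 311344) (nat_lit 13) (.e (nat_lit 483411) (nat_lit 27) (.e (nat_lit 401448) (nat_lit 10) (.e (nat_lit 434289) (nat_lit 43) .nil))))) (.g (nat_lit 0) (.e (nat_lit 96627) (nat_lit 0) .nil) .nil)))) (.nd (nat_lit 9) 
(.lf (nat_lit 474621) (.g (nat_lit 3060) (.e (nat_lit 1255) (nat_lit 92) (.e (nat_lit 98356) (nat_lit 26) (.e (nat_lit 426438) (nat_lit 18) (.e (nat_lit 98335) (nat_lit 18) (.e (nat_lit 164305) (nat_lit 226) (.e (nat_lit 2433) (nat_lit 157) (.e (nat_lit 2685) (nat_lit 168) (.e (nat_lit 204834) (nat_lit 19) (.e (nat_lit 106517) (nat_lit 9) .nil))))))))) (.g (nat_lit 1) (.e (nat_lit 95874) (nat_lit 0) .nil) .nil))) 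
(.lf (nat_lit 475133) (.g (nat_lit 1135) (.e (nat_lit 1426) (nat_lit 108) (.e (nat_lit 336421) (nat_lit 28) (.e (nat_lit 434187) (nat_lit 13) (.e (nat_lit 2781) (nat_lit 178) (.e (nat_lit 286770) (nat_lit 28) (.e (nat_lit 434181) (nat_lit 0) .nil)))))) (.g (nat_lit 1) (.e (nat_lit 97311) (nat_lit 0) .nil) .nil))))))))))) 
(.nd (nat_lit 2) (.nd (nat_lit 3) (.nd (nat_lit 4) (.nd (nat_lit 5) (.nd (nat_lit 6) 
(.nd (nat_lit 7) (.nd (nat_lit 8) (.nd (nat_lit 9) 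
(.lf (nat_lit 474115) (.g (nat_lit 1948) (.e (nat_lit 1235) (nat_lit 91) (.e (nat_lit 90170) (nat_lit 13) (.e (nat_lit 172113) (nat_lit 10) (.e (nat_lit 434245) (nat_lit 28) (.e (nat_lit 573451) (nat_lit 9) (.e (nat_lit 430) (nat_lit 32) (.e (nat_lit 426012) (nat_lit 0) (.e (nat_lit 7523) (nat_lit 402) .nil)))))))) (.g (nat_lit 1) (.e (nat_lit 95284) (nat_lit 0) .nil) .nil))) 
(.lf (nat_lit 474627) (.g (nat_lit 2492) (.e (nat_lit 1255) (nat_lit 92) (.e (nat_lit 98367) (nat_lit 27) (.e (nat_lit 434231) (nat_lit 23) (.e (nat_lit 532500) (nat_lit 1) (.e (nat_lit 57692) (nat_lit 156) .nil))))) (.g (nat_lit 0) (.e (nat_lit 95880) (nat_lit 0) .nil) .nil)))) (.nd (nat_lit 9) 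
(.lf (nat_lit 474371) (.g (nat_lit 2707) (.e (nat_lit 1250) (nat_lit 92) (.e (nat_lit 98350) (nat_lit 24) (.e (nat_lit 409623) (nat_lit 10) (.e (nat_lit 5664) (nat_lit 312) (.e (nat_lit 2661) (nat_lit 167) (.e (nat_lit 196668) (nat_lit 14) (.e (nat_lit 81664) (nat_lit 40) .nil))))))) (.g (nat_lit 1) (.e (nat_lit 95562) (nat_lit 0) .nil) .nil))) 
(.lf (nat_lit 474883) (.g (nat_lit 2948) (.e (nat_lit 1385) (nat_lit 105) (.e (nat_lit 311343) (nat_lit 13) (.e (nat_lit 483337) (nat_lit 9) (.e (nat_lit 426107) (nat_lit 1) (.e (nat_lit 164347) (nat_lit 240) (.e (nat_lit 2601) (nat_lit 163) (.e (nat_lit 163950) (nat_lit 21) (.e (nat_lit 499725) (nat_lit 0) .nil)))))))) (.g (nat_lit 1) (.e (nat_lit 96665) (nat_lit 0) .nil) .nil))))) 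
(.nd (nat_lit 8) (.nd (nat_lit 9) 
(.lf (nat_lit 474243) (.g (nat_lit 3665) (.e (nat_lit 1239) (nat_lit 91) (.e (nat_lit 90170) (nat_lit 13) (.e (nat_lit 172113) (nat_lit 10) (.e (nat_lit 434245) (nat_lit 28) (.e (nat_lit 573450) (nat_lit 9) (.e (nat_lit 433) (nat_lit 32) (.e (nat_lit 425987) (nat_lit 0) (.e (nat_lit 7489) (nat_lit 402) .nil)))))))) (.g (nat_lit 1) (.e (nat_lit 95426) (nat_lit 0) .nil) .nil))) 
(.lf (nat_lit 474755) (.g (nat_lit 4817) (.e (nat_lit 1310) (nat_lit 98) (.e (nat_lit 147495) (nat_lit 11) (.e (nat_lit 24604) (nat_lit 2) (.e (nat_lit 90170) (nat_lit 13) (.e (nat_lit 172106) (nat_lit 10) (.e (nat_lit 434244) (nat_lit 28) (.e (nat_lit 573451) (nat_lit 9) .nil))))))) (.g (nat_lit 1) (.e (nat_lit 96155) (nat_lit 0) .nil) .nil)))) (.nd (nat_lit 9) 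
(.lf (nat_lit 474499) (.g (nat_lit 3703) (.e (nat_lit 1252) (nat_lit 92) (.e (nat_lit 98373) (nat_lit 29) (.e (nat_lit 450587) (nat_lit 10) (.e (nat_lit 573458) (nat_lit 9) .nil)))) (.g (nat_lit 0) (.e (nat_lit 95706) (nat_lit 0) .nil) .nil))) 
(.lf (nat_lit 475011) (.g (nat_lit 418) (.e (nat_lit 1367) (nat_lit 103) (.e (nat_lit 294928) (nat_lit 2) (.e (nat_lit 90176) (nat_lit 15) .nil))) (.g (nat_lit 0) (.e (nat_lit 97018) (nat_lit 0) .nil) .nil)))))) (.nd (nat_lit 7) (.nd (nat_lit 8) (.nd (nat_lit 9) 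
(.lf (nat_lit 474179) (.g (nat_lit 2279) (.e (nat_lit 1239) (nat_lit 91) (.e (nat_lit 90170) (nat_lit 13) (.e (nat_lit 172106) (nat_lit 10) (.e (nat_lit 434231) (nat_lit 23) (.e (nat_lit 532535) (nat_lit 9) (.e (nat_lit 336295) (nat_lit 15) (.e (nat_lit 2443) (nat_lit 157) (.e (nat_lit 6921) (nat_lit 371) (.e (nat_lit 7936) (nat_lit 81) .nil))))))))) (.g (nat_lit 1) (.e (nat_lit 95362) (nat_lit 0) .nil) .nil))) 
(.lf (nat_lit 474691) (.g (nat_lit 919) (.e (nat_lit 1256) (nat_lit 92) (.e (nat_lit 98369) (nat_lit 28) (.e (nat_lit 442380) (nat_lit 6) (.e (nat_lit 123028) (nat_lit 128) (.e (nat_lit 2639) (nat_lit 165) (.e (nat_lit 188160) (nat_lit 32) .nil)))))) (.g (nat_lit 1) (.e (nat_lit 95980) (nat_lit 0) .nil) .nil)))) (.nd (nat_lit 9) 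
(.lf (nat_lit 474435) (.g (nat_lit 2100) (.e (nat_lit 1251) (nat_lit 92) (.e (nat_lit 98333) (nat_lit 18) (.e (nat_lit 164398) (nat_lit 256) (.e (nat_lit 57373) (nat_lit 2) (.e (nat_lit 90174) (nat_lit 14) .nil))))) (.g (nat_lit 0) (.e (nat_lit 95629) (nat_lit 0) .nil) .nil))) 
(.lf (nat_lit 474947) (.g (nat_lit 4145) (.e (nat_lit 1349) (nat_lit 102) (.e (nat_lit 286735) (nat_lit 3) (.e (nat_lit 98363) (nat_lit 26) (.e (nat_lit 426347) (nat_lit 14) (.e (nat_lit 491537) (nat_lit 2) (.e (nat_lit 90133) (nat_lit 9) (.e (nat_lit 2397) (nat_lit 157) (.e (nat_lit 7064) (nat_lit 377) .nil)))))))) (.g (nat_lit 1) (.e (nat_lit 96843) (nat_lit 0) .nil) .nil))))) 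
(.nd (nat_lit 8) (.nd (nat_lit 9) 
(.lf (nat_lit 474307) (.g (nat_lit 4260) (.e (nat_lit 1239) (nat_lit 91) (.e (nat_lit 90170) (nat_lit 13) (.e (nat_lit 172113) (nat_lit 10) (.e (nat_lit 434248) (nat_lit 28) (.e (nat_lit 573452) (nat_lit 9) (.e (nat_lit 365) (nat_lit 31) (.e (nat_lit 417796) (nat_lit 0) (.e (nat_lit 5271) (nat_lit 298) .nil)))))))) (.g (nat_lit 1) (.e (nat_lit 95490) (nat_lit 0) .nil) .nil))) 
(.lf (nat_lit 474819) (.g (nat_lit 2566) (.e (nat_lit 1375) (nat_lit 104) (.e (nat_lit 303147) (nat_lit 15) (.e (nat_lit 1859) (nat_lit 124) (.e (nat_lit 557098) (nat_lit 13) (.e (nat_lit 172097) (nat_lit 9) .nil))))) (.g (nat_lit 0) (.e (nat_lit 96375) (nat_lit 0) .nil) .nil)))) (.nd (nat_lit 9) 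
(.lf (nat_lit 474563) (.g (nat_lit 3191) (.e (nat_lit 1254) (nat_lit 92) (.e (nat_lit 98333) (nat_lit 18) (.e (nat_lit 164325) (nat_lit 230) (.e (nat_lit 163873) (nat_lit 3) .nil)))) (.g (nat_lit 0) (.e (nat_lit 95786) (nat_lit 0) .nil) .nil))) 
(.lf (nat_lit 475075) (.g (nat_lit 3951) (.e (nat_lit 1416) (nat_lit 108) (.e (nat_lit 336454) (nat_lit 34) (.e (nat_lit 483365) (nat_lit 18) (.e (nat_lit 57846) (nat_lit 252) .nil)))) (.g (nat_lit 0) (.e (nat_lit 97192) (nat_lit 0) .nil) .nil))))))) (.nd (nat_lit 6) (.nd (nat_lit 7) (.nd (nat_lit 8) (.nd (nat_lit 9) 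
(.lf (nat_lit 474147) (.g (nat_lit 2734) (.e (nat_lit 1237) (nat_lit 91) (.e (nat_lit 90170) (nat_lit 13) (.e (nat_lit 172106) (nat_lit 10) (.e (nat_lit 434244) (nat_lit 28) (.e (nat_lit 573458) (nat_lit 9) (.e (nat_lit 426) (nat_lit 32) (.e (nat_lit 426003) (nat_lit 0) (.e (nat_lit 7545) (nat_lit 402) .nil)))))))) (.g (nat_lit 1) (.e (nat_lit 95323) (nat_lit 0) .nil) .nil))) 
(.lf (nat_lit 474659) (.g (nat_lit 2442) (.e (nat_lit 1256) (nat_lit 92) (.e (nat_lit 98334) (nat_lit 18) (.e (nat_lit 164398) (nat_lit 256) (.e (nat_lit 57375) (nat_lit 2) (.e (nat_lit 90174) (nat_lit 14) .nil))))) (.g (nat_lit 0) (.e (nat_lit 95938) (nat_lit 0) .nil) .nil)))) (.nd (nat_lit 9) 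
(.lf (nat_lit 474403) (.g (nat_lit 1948) (.e (nat_lit 1250) (nat_lit 92) (.e (nat_lit 98370) (nat_lit 28) (.e (nat_lit 442427) (nat_lit 23) (.e (nat_lit 204846) (nat_lit 24) .nil)))) (.g (nat_lit 0) (.e (nat_lit 95596) (nat_lit 0) .nil) .nil))) 
(.lf (nat_lit 474915) (.g (nat_lit 819) (.e (nat_lit 1347) (nat_lit 102) (.e (nat_lit 286733) (nat_lit 2) (.e (nat_lit 90178) (nat_lit 15) .nil))) (.g (nat_lit 0) (.e (nat_lit 96746) (nat_lit 0) .nil) .nil))))) (.nd (nat_lit 8) (.nd (nat_lit 9) 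
(.lf (nat_lit 474275) (.g (nat_lit 3021) (.e (nat_lit 1239) (nat_lit 91) (.e (nat_lit 90170) (nat_lit 13) (.e (nat_lit 172113) (nat_lit 10) (.e (nat_lit 434247) (nat_lit 28) (.e (nat_lit 573456) (nat_lit 9) (.e (nat_lit 7936) (nat_lit 33) (.e (nat_lit 442112) (nat_lit 0) .nil))))))) (.g (nat_lit 1) (.e (nat_lit 95458) (nat_lit 0) .nil) .nil))) 
(.lf (nat_lit 474787) (.g (nat_lit 2027) (.e (nat_lit 1374) (nat_lit 104) (.e (nat_lit 303119) (nat_lit 3) (.e (nat_lit 204846) (nat_lit 24) (.e (nat_lit 319538) (nat_lit 19) .nil)))) (.g (nat_lit 0) (.e (nat_lit 96271) (nat_lit 0) .nil) .nil)))) (.nd (nat_lit 9) 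
(.lf (nat_lit 474531) (.g (nat_lit 934) (.e (nat_lit 1253) (nat_lit 92) (.e (nat_lit 98373) (nat_lit 29) (.e (nat_lit 450566) (nat_lit 0) .nil))) (.g (nat_lit 0) (.e (nat_lit 95752) (nat_lit 0) .nil) .nil))) 
(.lf (nat_lit 475043) (.g (nat_lit 1728) (.e (nat_lit 1400) (nat_lit 106) (.e (nat_lit 319505) (nat_lit 10) (.e (nat_lit 5714) (nat_lit 312) (.e (nat_lit 2664) (nat_lit 167) (.e (nat_lit 196661) (nat_lit 12) .nil))))) (.g (nat_lit 0) (.e (nat_lit 97133) (nat_lit 0) .nil) .nil)))))) (.nd (nat_lit 7) (.nd (nat_lit 8) (.nd (nat_lit 9) 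
(.lf (nat_lit 474211) (.g (nat_lit 3776) (.e (nat_lit 1239) (nat_lit 91) (.e (nat_lit 90170) (nat_lit 13) (.e (nat_lit 172106) (nat_lit 10) (.e (nat_lit 434244) (nat_lit 28) (.e (nat_lit 573458) (nat_lit 9) (.e (nat_lit 420) (nat_lit 32) (.e (nat_lit 425987) (nat_lit 0) (.e (nat_lit 7489) (nat_lit 402) .nil)))))))) (.g (nat_lit 1) (.e (nat_lit 95394) (nat_lit 0) .nil) .nil))) 
(.lf (nat_lit 474723) (.g (nat_lit 855) (.e (nat_lit 7936) (nat_lit 92) (.e (nat_lit 98373) (nat_lit 29) (.e (nat_lit 450586) (nat_lit 10) .nil))) (.g (nat_lit 0) (.e (nat_lit 96013) (nat_lit 0) .nil) .nil)))) (.nd (nat_lit 9) 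
(.lf (nat_lit 474467) (.g (nat_lit 2174) (.e (nat_lit 1252) (nat_lit 92) (.e (nat_lit 98333) (nat_lit 18) (.e (nat_lit 164399) (nat_lit 256) (.e (nat_lit 57375) (nat_lit 2) (.e (nat_lit 90172) (nat_lit 14) .nil))))) (.g (nat_lit 0) (.e (nat_lit 95665) (nat_lit 0) .nil) .nil))) 
(.lf (nat_lit 474979) (.g (nat_lit 927) (.e (nat_lit 1359) (nat_lit 102) (.e (nat_lit 286735) (nat_lit 3) (.e (nat_lit 98353) (nat_lit 25) .nil))) (.g (nat_lit 0) (.e (nat_lit 96926) (nat_lit 0) .nil) .nil))))) (.nd (nat_lit 8) (.nd (nat_lit 9) 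
(.lf (nat_lit 474339) (.g (nat_lit 912) (.e (nat_lit 1246) (nat_lit 92) (.e (nat_lit 98333) (nat_lit 18) (.e (nat_lit 164399) (nat_lit 256) .nil))) (.g (nat_lit 0) (.e (nat_lit 95529) (nat_lit 0) .nil) .nil))) 
(.lf (nat_lit 474851) (.g (nat_lit 3122) (.e (nat_lit 1376) (nat_lit 104) (.e (nat_lit 303119) (nat_lit 3) (.e (nat_lit 204885) (nat_lit 33) (.e (nat_lit 401448) (nat_lit 10) (.e (nat_lit 434231) (nat_lit 23) (.e (nat_lit 532486) (nat_lit 0) (.e (nat_lit 6113) (nat_lit 332) .nil))))))) (.g (nat_lit 1) (.e (nat_lit 96426) (nat_lit 0) .nil) .nil)))) (.nd (nat_lit 9) 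
(.lf (nat_lit 474595) (.g (nat_lit 2264) (.e (nat_lit 1254) (nat_lit 92) (.e (nat_lit 98334) (nat_lit 18) (.e (nat_lit 164399) (nat_lit 256) (.e (nat_lit 57372) (nat_lit 2) (.e (nat_lit 90174) (nat_lit 14) .nil))))) (.g (nat_lit 0) (.e (nat_lit 95818) (nat_lit 0) .nil) .nil))) 
(.lf (nat_lit 475107) (.g (nat_lit 1750) (.e (nat_lit 1425) (nat_lit 108) (.e (nat_lit 336430) (nat_lit 29) (.e (nat_lit 442377) (nat_lit 0) (.e (nat_lit 2058) (nat_lit 142) (.e (nat_lit 704595) (nat_lit 5) (.e (nat_lit 180277) (nat_lit 32) .nil)))))) (.g (nat_lit 1) (.e (nat_lit 97264) (nat_lit 0) .nil) .nil)))))))) 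
(.nd (nat_lit 5) (.nd (nat_lit 6) (.nd (nat_lit 7) (.nd (nat_lit 8) (.nd (nat_lit 9) 
(.lf (nat_lit 474131) (.g (nat_lit 1172) (.e (nat_lit 1235) (nat_lit 91) (.e (nat_lit 90176) (nat_lit 15) (.e (nat_lit 188450) (nat_lit 23) (.e (nat_lit 204849) (nat_lit 25) .nil)))) (.g (nat_lit 0) (.e (nat_lit 95301) (nat_lit 0) .nil) .nil))) 
(.lf (nat_lit 474643) (.g (nat_lit 3930) (.e (nat_lit 1255) (nat_lit 92) (.e (nat_lit 98384) (nat_lit 32) (.e (nat_lit 475179) (nat_lit 24) (.e (nat_lit 516119) (nat_lit 1) (.e (nat_lit 164327) (nat_lit 230) (.e (nat_lit 163875) (nat_lit 3) (.e (nat_lit 204834) (nat_lit 19) (.e (nat_lit 106517) (nat_lit 9) .nil)))))))) (.g (nat_lit 1) (.e (nat_lit 95921) (nat_lit 0) .nil) .nil)))) 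
(.nd (nat_lit 9) 
(.lf (nat_lit 474387) (.g (nat_lit 3871) (.e (nat_lit 1250) (nat_lit 92) (.e (nat_lit 98350) (nat_lit 24) (.e (nat_lit 409647) (nat_lit 18) (.e (nat_lit 303119) (nat_lit 3) (.e (nat_lit 204846) (nat_lit 24) (.e (nat_lit 319490) (nat_lit 0) (.e (nat_lit 5293) (nat_lit 298) .nil))))))) (.g (nat_lit 1) (.e (nat_lit 95578) (nat_lit 0) .nil) .nil))) 
(.lf (nat_lit 474899) (.g (nat_lit 1747) (.e (nat_lit 1386) (nat_lit 105) (.e (nat_lit 311357) (nat_lit 28) (.e (nat_lit 344069) (nat_lit 0) (.e (nat_lit 3090) (nat_lit 191) (.e (nat_lit 483354) (nat_lit 17) (.e (nat_lit 6149) (nat_lit 332) .nil)))))) (.g (nat_lit 1) (.e (nat_lit 96718) (nat_lit 0) .nil) .nil))))) (.nd (nat_lit 8) (.nd (nat_lit 9) 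
(.lf (nat_lit 474259) (.g (nat_lit 1992) (.e (nat_lit 1239) (nat_lit 91) (.e (nat_lit 90170) (nat_lit 13) (.e (nat_lit 172113) (nat_lit 10) (.e (nat_lit 434245) (nat_lit 28) (.e (nat_lit 573454) (nat_lit 9) (.e (nat_lit 441) (nat_lit 33) (.e (nat_lit 442112) (nat_lit 0) .nil))))))) (.g (nat_lit 1) (.e (nat_lit 95442) (nat_lit 0) .nil) .nil))) 
(.lf (nat_lit 474771) (.g (nat_lit 3158) (.e (nat_lit 1316) (nat_lit 98) (.e (nat_lit 147496) (nat_lit 11) (.e (nat_lit 24604) (nat_lit 2) (.e (nat_lit 90170) (nat_lit 13) (.e (nat_lit 172106) (nat_lit 10) (.e (nat_lit 434244) (nat_lit 28) (.e (nat_lit 573450) (nat_lit 9) .nil))))))) (.g (nat_lit 1) (.e (nat_lit 96175) (nat_lit 0) .nil) .nil)))) (.nd (nat_lit 9) 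
(.lf (nat_lit 474515) (.g (nat_lit 2404) (.e (nat_lit 1253) (nat_lit 92) (.e (nat_lit 98350) (nat_lit 24) (.e (nat_lit 409649) (nat_lit 18) (.e (nat_lit 303117) (nat_lit 2) (.e (nat_lit 196669) (nat_lit 14) .nil))))) (.g (nat_lit 0) (.e (nat_lit 95730) (nat_lit 0) .nil) .nil))) 
(.lf (nat_lit 475027) (.g (nat_lit 1711) (.e (nat_lit 1396) (nat_lit 106) (.e (nat_lit 319530) (nat_lit 16) (.e (nat_lit 286733) (nat_lit 2) (.e (nat_lit 90128) (nat_lit 9) .nil)))) (.g (nat_lit 0) (.e (nat_lit 97082) (nat_lit 0) .nil) .nil)))))) (.nd (nat_lit 7) (.nd (nat_lit 8) (.nd (nat_lit 9) 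
(.lf (nat_lit 474195) (.g (nat_lit 5592) (.e (nat_lit 1239) (nat_lit 91) (.e (nat_lit 90170) (nat_lit 13) (.e (nat_lit 172106) (nat_lit 10) (.e (nat_lit 434244) (nat_lit 28) (.e (nat_lit 573451) (nat_lit 9) (.e (nat_lit 359) (nat_lit 30) (.e (nat_lit 409604) (nat_lit 0) (.e (nat_lit 5270) (nat_lit 298) .nil)))))))) (.g (nat_lit 1) (.e (nat_lit 95378) (nat_lit 0) .nil) .nil))) 
(.lf (nat_lit 474707) (.g (nat_lit 2097) (.e (nat_lit 1256) (nat_lit 92) (.e (nat_lit 98373) (nat_lit 29) (.e (nat_lit 450587) (nat_lit 10) (.e (nat_lit 573457) (nat_lit 9) (.e (nat_lit 7936) (nat_lit 33) (.e (nat_lit 442112) (nat_lit 0) .nil)))))) (.g (nat_lit 1) (.e (nat_lit 95996) (nat_lit 0) .nil) .nil)))) (.nd (nat_lit 9) 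
(.lf (nat_lit 474451) (.g (nat_lit 4099) (.e (nat_lit 1252) (nat_lit 92) (.e (nat_lit 98333) (nat_lit 18) (.e (nat_lit 164325) (nat_lit 230) (.e (nat_lit 163873) (nat_lit 3) (.e (nat_lit 204809) (nat_lit 9) (.e (nat_lit 426139) (nat_lit 3) (.e (nat_lit 204834) (nat_lit 19) (.e (nat_lit 106517) (nat_lit 9) .nil)))))))) (.g (nat_lit 1) (.e (nat_lit 95649) (nat_lit 0) .nil) .nil))) 
(.lf (nat_lit 474963) (.g (nat_lit 3437) (.e (nat_lit 1356) (nat_lit 102) (.e (nat_lit 286733) (nat_lit 2) (.e (nat_lit 90170) (nat_lit 13) (.e (nat_lit 172113) (nat_lit 10) .nil)))) (.g (nat_lit 0) (.e (nat_lit 96883) (nat_lit 0) .nil) .nil))))) (.nd (nat_lit 8) (.nd (nat_lit 9) 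
(.lf (nat_lit 474323) (.g (nat_lit 1205) (.e (nat_lit 1239) (nat_lit 91) (.e (nat_lit 90170) (nat_lit 13) (.e (nat_lit 172115) (nat_lit 10) (.e (nat_lit 434231) (nat_lit 23) .nil)))) (.g (nat_lit 0) (.e (nat_lit 95506) (nat_lit 0) .nil) .nil))) 
(.lf (nat_lit 474835) (.g (nat_lit 2195) (.e (nat_lit 1376) (nat_lit 104) (.e (nat_lit 303119) (nat_lit 3) (.e (nat_lit 204846) (nat_lit 24) (.e (nat_lit 319529) (nat_lit 16) .nil)))) (.g (nat_lit 0) (.e (nat_lit 96408) (nat_lit 0) .nil) .nil)))) (.nd (nat_lit 9) 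
(.lf (nat_lit 474579) (.g (nat_lit 3012) (.e (nat_lit 1254) (nat_lit 92) (.e (nat_lit 98333) (nat_lit 18) (.e (nat_lit 164403) (nat_lit 256) (.e (nat_lit 57373) (nat_lit 2) (.e (nat_lit 90174) (nat_lit 14) .nil))))) (.g (nat_lit 0) (.e (nat_lit 95802) (nat_lit 0) .nil) .nil))) 
(.lf (nat_lit 475091) (.g (nat_lit 1293) (.e (nat_lit 1423) (nat_lit 108) (.e (nat_lit 336433) (nat_lit 30) (.e (nat_lit 458496) (nat_lit 0) (.e (nat_lit 5547) (nat_lit 306) (.e (nat_lit 2638) (nat_lit 165) (.e (nat_lit 188160) (nat_lit 32) .nil)))))) (.g (nat_lit 1) (.e (nat_lit 97234) (nat_lit 0) .nil) .nil))))))) (.nd (nat_lit 6) (.nd (nat_lit 7) (.nd (nat_lit 8) (.nd (nat_lit 9) 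
(.lf (nat_lit 474163) (.g (nat_lit 1845) (.e (nat_lit 1239) (nat_lit 91) (.e (nat_lit 90160) (nat_lit 11) (.e (nat_lit 24657) (nat_lit 13) (.e (nat_lit 393229) (nat_lit 9) .nil)))) (.g (nat_lit 0) (.e (nat_lit 95345) (nat_lit 0) .nil) .nil))) 
(.lf (nat_lit 474675) (.g (nat_lit 3510) (.e (nat_lit 1256) (nat_lit 92) (.e (nat_lit 98350) (nat_lit 24) (.e (nat_lit 409649) (nat_lit 18) (.e (nat_lit 303117) (nat_lit 2) (.e (nat_lit 196668) (nat_lit 14) (.e (nat_lit 81664) (nat_lit 40) .nil)))))) (.g (nat_lit 1) (.e (nat_lit 95958) (nat_lit 0) .nil) .nil)))) (.nd (nat_lit 9) 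
(.lf (nat_lit 474419) (.g (nat_lit 3589) (.e (nat_lit 1250) (nat_lit 92) (.e (nat_lit 98373) (nat_lit 29) (.e (nat_lit 450587) (nat_lit 10) (.e (nat_lit 573452) (nat_lit 9) .nil)))) (.g (nat_lit 0) (.e (nat_lit 95612) (nat_lit 0) .nil) .nil))) 
(.lf (nat_lit 474931) (.g (nat_lit 2583) (.e (nat_lit 1348) (nat_lit 102) (.e (nat_lit 286761) (nat_lit 13) (.e (nat_lit 393234) (nat_lit 17) (.e (nat_lit 2411) (nat_lit 157) .nil)))) (.g (nat_lit 0) (.e (nat_lit 96804) (nat_lit 0) .nil) .nil))))) (.nd (nat_lit 8) (.nd (nat_lit 9) 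
(.lf (nat_lit 474291) (.g (nat_lit 3052) (.e (nat_lit 1239) (nat_lit 91) (.e (nat_lit 90170) (nat_lit 13) (.e (nat_lit 172113) (nat_lit 10) (.e (nat_lit 434248) (nat_lit 28) (.e (nat_lit 573449) (nat_lit 9) (.e (nat_lit 449) (nat_lit 33) (.e (nat_lit 442112) (nat_lit 0) .nil))))))) (.g (nat_lit 1) (.e (nat_lit 95474) (nat_lit 0) .nil) .nil))) 
(.lf (nat_lit 474803) (.g (nat_lit 4112) (.e (nat_lit 1374) (nat_lit 104) (.e (nat_lit 303119) (nat_lit 3) (.e (nat_lit 204846) (nat_lit 24) (.e (nat_lit 319534) (nat_lit 16) (.e (nat_lit 286734) (nat_lit 3) (.e (nat_lit 98323) (nat_lit 17) (.e (nat_lit 6989) (nat_lit 377) .nil))))))) (.g (nat_lit 1) (.e (nat_lit 96291) (nat_lit 0) .nil) .nil)))) (.nd (nat_lit 9) 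
(.lf (nat_lit 474547) (.g (nat_lit 4674) (.e (nat_lit 1253) (nat_lit 92) (.e (nat_lit 98373) (nat_lit 29) (.e (nat_lit 450588) (nat_lit 10) (.e (nat_lit 573449) (nat_lit 9) (.e (nat_lit 442) (nat_lit 33) (.e (nat_lit 434180) (nat_lit 0) .nil)))))) (.g (nat_lit 1) (.e (nat_lit 95768) (nat_lit 0) .nil) .nil))) 
(.lf (nat_lit 475059) (.g (nat_lit 1548) (.e (nat_lit 1400) (nat_lit 106) (.e (nat_lit 319534) (nat_lit 16) (.e (nat_lit 286734) (nat_lit 3) (.e (nat_lit 106240) (nat_lit 26) .nil)))) (.g (nat_lit 0) (.e (nat_lit 97159) (nat_lit 0) .nil) .nil)))))) (.nd (nat_lit 7) (.nd (nat_lit 8) (.nd (nat_lit 9) 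
(.lf (nat_lit 474227) (.g (nat_lit 2071) (.e (nat_lit 1239) (nat_lit 91) (.e (nat_lit 90170) (nat_lit 13) (.e (nat_lit 172113) (nat_lit 10) (.e (nat_lit 434231) (nat_lit 23) (.e (nat_lit 532526) (nat_lit 8) .nil))))) (.g (nat_lit 0) (.e (nat_lit 95410) (nat_lit 0) .nil) .nil))) 
(.lf (nat_lit 474739) (.g (nat_lit 2228) (.e (nat_lit 1276) (nat_lit 94) (.e (nat_lit 114719) (nat_lit 23) (.e (nat_lit 98367) (nat_lit 27) (.e (nat_lit 434231) (nat_lit 23) (.e (nat_lit 532499) (nat_lit 1) .nil))))) (.g (nat_lit 0) (.e (nat_lit 96051) (nat_lit 0) .nil) .nil)))) (.nd (nat_lit 9) 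
(.lf (nat_lit 474483) (.g (nat_lit 2504) (.e (nat_lit 1252) (nat_lit 92) (.e (nat_lit 98335) (nat_lit 18) (.e (nat_lit 164327) (nat_lit 230) (.e (nat_lit 163871) (nat_lit 2) (.e (nat_lit 196654) (nat_lit 11) .nil))))) (.g (nat_lit 0) (.e (nat_lit 95682) (nat_lit 0) .nil) .nil))) 
(.lf (nat_lit 474995) (.g (nat_lit 3306) (.e (nat_lit 1361) (nat_lit 102) (.e (nat_lit 286759) (nat_lit 12) (.e (nat_lit 385074) (nat_lit 31) (.e (nat_lit 573480) (nat_lit 13) .nil)))) (.g (nat_lit 0) (.e (nat_lit 96991) (nat_lit 0) .nil) .nil))))) (.nd (nat_lit 8) (.nd (nat_lit 9) 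
(.lf (nat_lit 474355) (.g (nat_lit 2470) (.e (nat_lit 1247) (nat_lit 92) (.e (nat_lit 98333) (nat_lit 18) (.e (nat_lit 164399) (nat_lit 256) (.e (nat_lit 57372) (nat_lit 2) (.e (nat_lit 90172) (nat_lit 14) .nil))))) (.g (nat_lit 0) (.e (nat_lit 95545) (nat_lit 0) .nil) .nil))) 
(.lf (nat_lit 474867) (.g (nat_lit 1689) (.e (nat_lit 1380) (nat_lit 105) (.e (nat_lit 311342) (nat_lit 13) (.e (nat_lit 483413) (nat_lit 27) (.e (nat_lit 401446) (nat_lit 10) .nil)))) (.g (nat_lit 0) (.e (nat_lit 96587) (nat_lit 0) .nil) .nil)))) (.nd (nat_lit 9) 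
(.lf (nat_lit 474611) (.g (nat_lit 2110) (.e (nat_lit 1255) (nat_lit 92) (.e (nat_lit 98334) (nat_lit 18) (.e (nat_lit 164399) (nat_lit 256) (.e (nat_lit 57375) (nat_lit 2) (.e (nat_lit 90174) (nat_lit 14) .nil))))) (.g (nat_lit 0) (.e (nat_lit 95852) (nat_lit 0) .nil) .nil))) 
(.lf (nat_lit 475123) (.g (nat_lit 3744) (.e (nat_lit 1425) (nat_lit 108) (.e (nat_lit 336454) (nat_lit 34) (.e (nat_lit 483365) (nat_lit 18) (.e (nat_lit 57851) (nat_lit 252) .nil)))) (.g (nat_lit 0) (.e (nat_lit 97292) (nat_lit 0) .nil) .nil))))))))) (.nd (nat_lit 4) (.nd (nat_lit 5) (.nd (nat_lit 6) (.nd (nat_lit 7) (.nd (nat_lit 8) (.nd (nat_lit 9) 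
(.lf (nat_lit 474123) (.g (nat_lit 2016) (.e (nat_lit 1235) (nat_lit 91) (.e (nat_lit 90170) (nat_lit 13) (.e (nat_lit 172113) (nat_lit 10) (.e (nat_lit 434248) (nat_lit 28) (.e (nat_lit 573452) (nat_lit 9) (.e (nat_lit 430) (nat_lit 32) (.e (nat_lit 426012) (nat_lit 0) (.e (nat_lit 7523) (nat_lit 402) .nil)))))))) (.g (nat_lit 1) (.e (nat_lit 95292) (nat_lit 0) .nil) .nil))) 
(.lf (nat_lit 474635) (.g (nat_lit 3163) (.e (nat_lit 1255) (nat_lit 92) (.e (nat_lit 98384) (nat_lit 32) (.e (nat_lit 475177) (nat_lit 24) (.e (nat_lit 516115) (nat_lit 1) (.e (nat_lit 164327) (nat_lit 230) (.e (nat_lit 163873) (nat_lit 3) (.e (nat_lit 204834) (nat_lit 19) (.e (nat_lit 106517) (nat_lit 9) .nil)))))))) (.g (nat_lit 1) (.e (nat_lit 95907) (nat_lit 0) .nil) .nil)))) 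
(.nd (nat_lit 9) 
(.lf (nat_lit 474379) (.g (nat_lit 2705) (.e (nat_lit 1250) (nat_lit 92) (.e (nat_lit 98350) (nat_lit 24) (.e (nat_lit 409645) (nat_lit 18) (.e (nat_lit 303117) (nat_lit 2) (.e (nat_lit 196669) (nat_lit 14) .nil))))) (.g (nat_lit 0) (.e (nat_lit 95570) (nat_lit 0) .nil) .nil))) 
(.lf (nat_lit 474891) (.g (nat_lit 2238) (.e (nat_lit 1386) (nat_lit 105) (.e (nat_lit 311357) (nat_lit 28) (.e (nat_lit 344068) (nat_lit 0) (.e (nat_lit 3090) (nat_lit 191) (.e (nat_lit 483350) (nat_lit 17) (.e (nat_lit 6146) (nat_lit 332) .nil)))))) (.g (nat_lit 1) (.e (nat_lit 96709) (nat_lit 0) .nil) .nil))))) (.nd (nat_lit 8) (.nd (nat_lit 9) 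
(.lf (nat_lit 474251) (.g (nat_lit 4272) (.e (nat_lit 1239) (nat_lit 91) (.e (nat_lit 90170) (nat_lit 13) (.e (nat_lit 172113) (nat_lit 10) (.e (nat_lit 434245) (nat_lit 28) (.e (nat_lit 573451) (nat_lit 9) (.e (nat_lit 365) (nat_lit 31) (.e (nat_lit 417796) (nat_lit 0) (.e (nat_lit 5271) (nat_lit 298) .nil)))))))) (.g (nat_lit 1) (.e (nat_lit 95434) (nat_lit 0) .nil) .nil))) 
(.lf (nat_lit 474763) (.g (nat_lit 774) (.e (nat_lit 1312) (nat_lit 98) (.e (nat_lit 147495) (nat_lit 11) (.e (nat_lit 24606) (nat_lit 3) .nil))) (.g (nat_lit 0) (.e (nat_lit 96164) (nat_lit 0) .nil) .nil)))) (.nd (nat_lit 9) 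
(.lf (nat_lit 474507) (.g (nat_lit 2980) (.e (nat_lit 1253) (nat_lit 92) (.e (nat_lit 98349) (nat_lit 24) (.e (nat_lit 409645) (nat_lit 18) (.e (nat_lit 303117) (nat_lit 2) (.e (nat_lit 196669) (nat_lit 14) .nil))))) (.g (nat_lit 0) (.e (nat_lit 95722) (nat_lit 0) .nil) .nil))) 
(.lf (nat_lit 475019) (.g (nat_lit 2382) (.e (nat_lit 1393) (nat_lit 106) (.e (nat_lit 319531) (nat_lit 16) (.e (nat_lit 286733) (nat_lit 2) (.e (nat_lit 90128) (nat_lit 9) (.e (nat_lit 3044) (nat_lit 189) (.e (nat_lit 466977) (nat_lit 22) (.e (nat_lit 196630) (nat_lit 9) .nil))))))) (.g (nat_lit 1) (.e (nat_lit 97060) (nat_lit 0) .nil) .nil)))))) 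
(.nd (nat_lit 7) (.nd (nat_lit 8) (.nd (nat_lit 9) 
(.lf (nat_lit 474187) (.g (nat_lit 3182) (.e (nat_lit 1239) (nat_lit 91) (.e (nat_lit 90170) (nat_lit 13) (.e (nat_lit 172106) (nat_lit 10) (.e (nat_lit 434244) (nat_lit 28) (.e (nat_lit 573450) (nat_lit 9) (.e (nat_lit 450) (nat_lit 33) (.e (nat_lit 442112) (nat_lit 0) .nil))))))) (.g (nat_lit 1) (.e (nat_lit 95370) (nat_lit 0) .nil) .nil))) 
(.lf (nat_lit 474699) (.g (nat_lit 1920) (.e (nat_lit 1256) (nat_lit 92) (.e (nat_lit 98372) (nat_lit 29) (.e (nat_lit 450588) (nat_lit 10) (.e (nat_lit 573470) (nat_lit 11) .nil)))) (.g (nat_lit 0) (.e (nat_lit 95988) (nat_lit 0) .nil) .nil)))) (.nd (nat_lit 9) 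
(.lf (nat_lit 474443) (.g (nat_lit 3300) (.e (nat_lit 1251) (nat_lit 92) (.e (nat_lit 98333) (nat_lit 18) (.e (nat_lit 164403) (nat_lit 256) (.e (nat_lit 57378) (nat_lit 3) (.e (nat_lit 98366) (nat_lit 27) .nil))))) (.g (nat_lit 0) (.e (nat_lit 95638) (nat_lit 0) .nil) .nil))) 
(.lf (nat_lit 474955) (.g (nat_lit 815) (.e (nat_lit 1353) (nat_lit 102) (.e (nat_lit 286759) (nat_lit 12) (.e (nat_lit 385107) (nat_lit 51) .nil))) (.g (nat_lit 0) (.e (nat_lit 96871) (nat_lit 0) .nil) .nil))))) (.nd (nat_lit 8) (.nd (nat_lit 9) 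
(.lf (nat_lit 474315) (.g (nat_lit 2698) (.e (nat_lit 1239) (nat_lit 91) (.e (nat_lit 90170) (nat_lit 13) (.e (nat_lit 172113) (nat_lit 10) (.e (nat_lit 434248) (nat_lit 28) (.e (nat_lit 573456) (nat_lit 9) .nil))))) (.g (nat_lit 0) (.e (nat_lit 95498) (nat_lit 0) .nil) .nil))) 
(.lf (nat_lit 474827) (.g (nat_lit 1408) (.e (nat_lit 1376) (nat_lit 104) (.e (nat_lit 303119) (nat_lit 3) (.e (nat_lit 204821) (nat_lit 17) (.e (nat_lit 7936) (nat_lit 362) .nil)))) (.g (nat_lit 0) (.e (nat_lit 96390) (nat_lit 0) .nil) .nil)))) (.nd (nat_lit 9) 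
(.lf (nat_lit 474571) (.g (nat_lit 2058) (.e (nat_lit 1254) (nat_lit 92) (.e (nat_lit 98333) (nat_lit 18) (.e (nat_lit 164399) (nat_lit 256) (.e (nat_lit 57370) (nat_lit 2) (.e (nat_lit 90174) (nat_lit 14) .nil))))) (.g (nat_lit 0) (.e (nat_lit 95794) (nat_lit 0) .nil) .nil))) 
(.lf (nat_lit 475083) (.g (nat_lit 1204) (.e (nat_lit 1421) (nat_lit 108) (.e (nat_lit 336434) (nat_lit 30) (.e (nat_lit 450564) (nat_lit 0) (.e (nat_lit 5548) (nat_lit 306) (.e (nat_lit 2638) (nat_lit 165) (.e (nat_lit 188160) (nat_lit 32) .nil)))))) (.g (nat_lit 1) (.e (nat_lit 97209) (nat_lit 0) .nil) .nil))))))) (.nd (nat_lit 6) (.nd (nat_lit 7) (.nd (nat_lit 8) (.nd (nat_lit 9) 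
(.lf (nat_lit 474155) (.g (nat_lit 3111) (.e (nat_lit 1238) (nat_lit 91) (.e (nat_lit 90172) (nat_lit 14) (.e (nat_lit 180250) (nat_lit 10) (.e (nat_lit 573487) (nat_lit 14) (.e (nat_lit 73755) (nat_lit 8) .nil))))) (.g (nat_lit 0) (.e (nat_lit 95332) (nat_lit 0) .nil) .nil))) 
(.lf (nat_lit 474667) (.g (nat_lit 4756) (.e (nat_lit 1256) (nat_lit 92) (.e (nat_lit 98350) (nat_lit 24) (.e (nat_lit 409645) (nat_lit 18) (.e (nat_lit 303117) (nat_lit 2) (.e (nat_lit 196661) (nat_lit 12) (.e (nat_lit 57723) (nat_lit 180) (.e (nat_lit 229643) (nat_lit 232) .nil))))))) (.g (nat_lit 1) (.e (nat_lit 95950) (nat_lit 0) .nil) .nil)))) (.nd (nat_lit 9) 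
(.lf (nat_lit 474411) (.g (nat_lit 4515) (.e (nat_lit 1250) (nat_lit 92) (.e (nat_lit 98372) (nat_lit 29) (.e (nat_lit 450588) (nat_lit 10) (.e (nat_lit 573451) (nat_lit 9) (.e (nat_lit 359) (nat_lit 30) (.e (nat_lit 409602) (nat_lit 0) (.e (nat_lit 5293) (nat_lit 298) .nil))))))) (.g (nat_lit 1) (.e (nat_lit 95604) (nat_lit 0) .nil) .nil))) 
(.lf (nat_lit 474923) (.g (nat_lit 1083) (.e (nat_lit 1348) (nat_lit 102) (.e (nat_lit 286735) (nat_lit 3) (.e (nat_lit 98360) (nat_lit 26) (.e (nat_lit 426215) (nat_lit 9) .nil)))) (.g (nat_lit 0) (.e (nat_lit 96786) (nat_lit 0) .nil) .nil))))) (.nd (nat_lit 8) (.nd (nat_lit 9) 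
(.lf (nat_lit 474283) (.g (nat_lit 3043) (.e (nat_lit 1239) (nat_lit 91) (.e (nat_lit 90170) (nat_lit 13) (.e (nat_lit 172113) (nat_lit 10) (.e (nat_lit 434247) (nat_lit 28) (.e (nat_lit 573457) (nat_lit 9) (.e (nat_lit 428) (nat_lit 32) (.e (nat_lit 425984) (nat_lit 0) (.e (nat_lit 7489) (nat_lit 402) .nil)))))))) (.g (nat_lit 1) (.e (nat_lit 95466) (nat_lit 0) .nil) .nil))) 
(.lf (nat_lit 474795) (.g (nat_lit 3952) (.e (nat_lit 1374) (nat_lit 104) (.e (nat_lit 303119) (nat_lit 3) (.e (nat_lit 204846) (nat_lit 24) (.e (nat_lit 319532) (nat_lit 16) (.e (nat_lit 286735) (nat_lit 3) (.e (nat_lit 98323) (nat_lit 17) (.e (nat_lit 6989) (nat_lit 377) .nil))))))) (.g (nat_lit 1) (.e (nat_lit 96283) (nat_lit 0) .nil) .nil)))) (.nd (nat_lit 9) 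
(.lf (nat_lit 474539) (.g (nat_lit 3674) (.e (nat_lit 1253) (nat_lit 92) (.e (nat_lit 98373) (nat_lit 29) (.e (nat_lit 450587) (nat_lit 10) (.e (nat_lit 573449) (nat_lit 9) (.e (nat_lit 449) (nat_lit 33) .nil))))) (.g (nat_lit 0) (.e (nat_lit 95760) (nat_lit 0) .nil) .nil))) 
(.lf (nat_lit 475051) (.g (nat_lit 3253) (.e (nat_lit 1400) (nat_lit 106) (.e (nat_lit 319533) (nat_lit 16) (.e (nat_lit 286732) (nat_lit 2) (.e (nat_lit 90128) (nat_lit 9) (.e (nat_lit 3044) (nat_lit 189) (.e (nat_lit 466975) (nat_lit 22) (.e (nat_lit 196626) (nat_lit 9) .nil))))))) (.g (nat_lit 1) (.e (nat_lit 97144) (nat_lit 0) .nil) .nil)))))) 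
(.nd (nat_lit 7) (.nd (nat_lit 8) (.nd (nat_lit 9) 
(.lf (nat_lit 474219) (.g (nat_lit 3739) (.e (nat_lit 1239) (nat_lit 91) (.e (nat_lit 90170) (nat_lit 13) (.e (nat_lit 172106) (nat_lit 10) (.e (nat_lit 434244) (nat_lit 28) (.e (nat_lit 573458) (nat_lit 9) (.e (nat_lit 7936) (nat_lit 36) (.e (nat_lit 466688) (nat_lit 0) .nil))))))) (.g (nat_lit 1) (.e (nat_lit 95402) (nat_lit 0) .nil) .nil))) 
(.lf (nat_lit 474731) (.g (nat_lit 2573) (.e (nat_lit 1261) (nat_lit 93) (.e (nat_lit 106534) (nat_lit 11) (.e (nat_lit 16425) (nat_lit 7) (.e (nat_lit 409649) (nat_lit 18) (.e (nat_lit 303143) (nat_lit 12) .nil))))) (.g (nat_lit 0) (.e (nat_lit 96024) (nat_lit 0) .nil) .nil)))) (.nd (nat_lit 9) 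
(.lf (nat_lit 474475) (.g (nat_lit 2393) (.e (nat_lit 1252) (nat_lit 92) (.e (nat_lit 98334) (nat_lit 18) (.e (nat_lit 164398) (nat_lit 256) (.e (nat_lit 57373) (nat_lit 2) (.e (nat_lit 90174) (nat_lit 14) .nil))))) (.g (nat_lit 0) (.e (nat_lit 95674) (nat_lit 0) .nil) .nil))) 
(.lf (nat_lit 474987) (.g (nat_lit 2574) (.e (nat_lit 1361) (nat_lit 102) (.e (nat_lit 286733) (nat_lit 2) (.e (nat_lit 90170) (nat_lit 13) (.e (nat_lit 172094) (nat_lit 9) .nil)))) (.g (nat_lit 0) (.e (nat_lit 96980) (nat_lit 0) .nil) .nil))))) (.nd (nat_lit 8) (.nd (nat_lit 9) 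
(.lf (nat_lit 474347) (.g (nat_lit 3273) (.e (nat_lit 1246) (nat_lit 92) (.e (nat_lit 98366) (nat_lit 27) (.e (nat_lit 434244) (nat_lit 28) (.e (nat_lit 573451) (nat_lit 9) (.e (nat_lit 1449) (nat_lit 108) .nil))))) (.g (nat_lit 0) (.e (nat_lit 95537) (nat_lit 0) .nil) .nil))) 
(.lf (nat_lit 474859) (.g (nat_lit 3926) (.e (nat_lit 1378) (nat_lit 104) (.e (nat_lit 303119) (nat_lit 3) (.e (nat_lit 204885) (nat_lit 33) (.e (nat_lit 401434) (nat_lit 9) (.e (nat_lit 426140) (nat_lit 3) (.e (nat_lit 204821) (nat_lit 17) (.e (nat_lit 6114) (nat_lit 332) .nil))))))) (.g (nat_lit 1) (.e (nat_lit 96483) (nat_lit 0) .nil) .nil)))) (.nd (nat_lit 9) 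
(.lf (nat_lit 474603) (.g (nat_lit 2231) (.e (nat_lit 1255) (nat_lit 92) (.e (nat_lit 98333) (nat_lit 18) (.e (nat_lit 164397) (nat_lit 256) (.e (nat_lit 57375) (nat_lit 2) (.e (nat_lit 90172) (nat_lit 14) .nil))))) (.g (nat_lit 0) (.e (nat_lit 95836) (nat_lit 0) .nil) .nil))) 
(.lf (nat_lit 475115) (.g (nat_lit 1973) (.e (nat_lit 1425) (nat_lit 108) (.e (nat_lit 336430) (nat_lit 29) (.e (nat_lit 442419) (nat_lit 21) (.e (nat_lit 164348) (nat_lit 240) (.e (nat_lit 2639) (nat_lit 165) (.e (nat_lit 180278) (nat_lit 32) .nil)))))) (.g (nat_lit 1) (.e (nat_lit 97276) (nat_lit 0) .nil) .nil)))))))) 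
(.nd (nat_lit 5) (.nd (nat_lit 6) (.nd (nat_lit 7) (.nd (nat_lit 8) (.nd (nat_lit 9) 
(.lf (nat_lit 474139) (.g (nat_lit 2824) (.e (nat_lit 1237) (nat_lit 91) (.e (nat_lit 90170) (nat_lit 13) (.e (nat_lit 172106) (nat_lit 10) (.e (nat_lit 434231) (nat_lit 23) (.e (nat_lit 532522) (nat_lit 7) .nil))))) (.g (nat_lit 0) (.e (nat_lit 95315) (nat_lit 0) .nil) .nil))) 
(.lf (nat_lit 474651) (.g (nat_lit 2424) (.e (nat_lit 1256) (nat_lit 92) (.e (nat_lit 98333) (nat_lit 18) (.e (nat_lit 164399) (nat_lit 256) (.e (nat_lit 57373) (nat_lit 2) (.e (nat_lit 90174) (nat_lit 14) .nil))))) (.g (nat_lit 0) (.e (nat_lit 95930) (nat_lit 0) .nil) .nil)))) (.nd (nat_lit 9) 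
(.lf (nat_lit 474395) (.g (nat_lit 3572) (.e (nat_lit 1250) (nat_lit 92) (.e (nat_lit 98350) (nat_lit 24) (.e (nat_lit 409649) (nat_lit 18) (.e (nat_lit 303117) (nat_lit 2) (.e (nat_lit 196670) (nat_lit 14) (.e (nat_lit 81664) (nat_lit 40) .nil)))))) (.g (nat_lit 1) (.e (nat_lit 95586) (nat_lit 0) .nil) .nil))) 
(.lf (nat_lit 474907) (.g (nat_lit 3115) (.e (nat_lit 1346) (nat_lit 102) (.e (nat_lit 286759) (nat_lit 12) (.e (nat_lit 385074) (nat_lit 31) (.e (nat_lit 573482) (nat_lit 13) .nil)))) (.g (nat_lit 0) (.e (nat_lit 96736) (nat_lit 0) .nil) .nil))))) (.nd (nat_lit 8) (.nd (nat_lit 9) 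
(.lf (nat_lit 474267) (.g (nat_lit 3059) (.e (nat_lit 1239) (nat_lit 91) (.e (nat_lit 90170) (nat_lit 13) (.e (nat_lit 172113) (nat_lit 10) (.e (nat_lit 434247) (nat_lit 28) (.e (nat_lit 573456) (nat_lit 9) (.e (nat_lit 359) (nat_lit 30) (.e (nat_lit 409605) (nat_lit 0) (.e (nat_lit 5270) (nat_lit 298) .nil)))))))) (.g (nat_lit 1) (.e (nat_lit 95450) (nat_lit 0) .nil) .nil))) 
(.lf (nat_lit 474779) (.g (nat_lit 3940) (.e (nat_lit 1374) (nat_lit 104) (.e (nat_lit 303119) (nat_lit 3) (.e (nat_lit 204819) (nat_lit 17) (.e (nat_lit 6113) (nat_lit 332) (.e (nat_lit 1374) (nat_lit 104) (.e (nat_lit 303117) (nat_lit 2) (.e (nat_lit 196661) (nat_lit 12) (.e (nat_lit 57711) (nat_lit 176) .nil)))))))) (.g (nat_lit 1) (.e (nat_lit 96254) (nat_lit 0) .nil) .nil)))) 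
(.nd (nat_lit 9) 
(.lf (nat_lit 474523) (.g (nat_lit 2895) (.e (nat_lit 1253) (nat_lit 92) (.e (nat_lit 98367) (nat_lit 27) (.e (nat_lit 434248) (nat_lit 28) (.e (nat_lit 573482) (nat_lit 13) (.e (nat_lit 65568) (nat_lit 2) (.e (nat_lit 90189) (nat_lit 18) (.e (nat_lit 2579) (nat_lit 161) (.e (nat_lit 40967) (nat_lit 0) .nil)))))))) (.g (nat_lit 1) (.e (nat_lit 95740) (nat_lit 0) .nil) .nil))) 
(.lf (nat_lit 475035) (.g (nat_lit 4510) (.e (nat_lit 1401) (nat_lit 106) (.e (nat_lit 319539) (nat_lit 19) (.e (nat_lit 311315) (nat_lit 3) (.e (nat_lit 204846) (nat_lit 24) (.e (nat_lit 319534) (nat_lit 16) (.e (nat_lit 286728) (nat_lit 0) (.e (nat_lit 1842) (nat_lit 123) (.e (nat_lit 548873) (nat_lit 5) .nil)))))))) (.g (nat_lit 1) (.e (nat_lit 97112) (nat_lit 0) .nil) .nil)))))) 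
(.nd (nat_lit 7) (.nd (nat_lit 8) (.nd (nat_lit 9) 
(.lf (nat_lit 474203) (.g (nat_lit 4512) (.e (nat_lit 1239) (nat_lit 91) (.e (nat_lit 90170) (nat_lit 13) (.e (nat_lit 172106) (nat_lit 10) (.e (nat_lit 434244) (nat_lit 28) (.e (nat_lit 573451) (nat_lit 9) (.e (nat_lit 430) (nat_lit 32) (.e (nat_lit 426012) (nat_lit 0) (.e (nat_lit 7490) (nat_lit 402) .nil)))))))) (.g (nat_lit 1) (.e (nat_lit 95386) (nat_lit 0) .nil) .nil))) 
(.lf (nat_lit 474715) (.g (nat_lit 3354) (.e (nat_lit 1256) (nat_lit 92) (.e (nat_lit 98373) (nat_lit 29) (.e (nat_lit 450588) (nat_lit 10) (.e (nat_lit 573452) (nat_lit 9) (.e (nat_lit 359) (nat_lit 30) (.e (nat_lit 409602) (nat_lit 0) (.e (nat_lit 5245) (nat_lit 298) .nil))))))) (.g (nat_lit 1) (.e (nat_lit 96004) (nat_lit 0) .nil) .nil)))) (.nd (nat_lit 9) 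
(.lf (nat_lit 474459) (.g (nat_lit 2401) (.e (nat_lit 1252) (nat_lit 92) (.e (nat_lit 98333) (nat_lit 18) (.e (nat_lit 164398) (nat_lit 256) (.e (nat_lit 57375) (nat_lit 2) (.e (nat_lit 90172) (nat_lit 14) .nil))))) (.g (nat_lit 0) (.e (nat_lit 95657) (nat_lit 0) .nil) .nil))) 
(.lf (nat_lit 474971) (.g (nat_lit 880) (.e (nat_lit 1359) (nat_lit 102) (.e (nat_lit 286732) (nat_lit 2) (.e (nat_lit 90178) (nat_lit 15) .nil))) (.g (nat_lit 0) (.e (nat_lit 96918) (nat_lit 0) .nil) .nil))))) (.nd (nat_lit 8) (.nd (nat_lit 9) 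
(.lf (nat_lit 474331) (.g (nat_lit 2679) (.e (nat_lit 1241) (nat_lit 91) (.e (nat_lit 90170) (nat_lit 13) (.e (nat_lit 172106) (nat_lit 10) (.e (nat_lit 434231) (nat_lit 23) .nil)))) (.g (nat_lit 0) (.e (nat_lit 95514) (nat_lit 0) .nil) .nil))) 
(.lf (nat_lit 474843) (.g (nat_lit 2367) (.e (nat_lit 1376) (nat_lit 104) (.e (nat_lit 303119) (nat_lit 3) (.e (nat_lit 204846) (nat_lit 24) (.e (nat_lit 319534) (nat_lit 16) (.e (nat_lit 286734) (nat_lit 3) .nil))))) (.g (nat_lit 0) (.e (nat_lit 96417) (nat_lit 0) .nil) .nil)))) (.nd (nat_lit 9) 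
(.lf (nat_lit 474587) (.g (nat_lit 3186) (.e (nat_lit 1254) (nat_lit 92) (.e (nat_lit 98334) (nat_lit 18) (.e (nat_lit 164398) (nat_lit 256) (.e (nat_lit 57374) (nat_lit 2) (.e (nat_lit 90174) (nat_lit 14) .nil))))) (.g (nat_lit 0) (.e (nat_lit 95810) (nat_lit 0) .nil) .nil))) 
(.lf (nat_lit 475099) (.g (nat_lit 2205) (.e (nat_lit 1424) (nat_lit 108) (.e (nat_lit 336456) (nat_lit 34) (.e (nat_lit 483383) (nat_lit 23) (.e (nat_lit 336019) (nat_lit 3) (.e (nat_lit 98334) (nat_lit 18) .nil))))) (.g (nat_lit 0) (.e (nat_lit 97245) (nat_lit 0) .nil) .nil))))))) (.nd (nat_lit 6) (.nd (nat_lit 7) (.nd (nat_lit 8) (.nd (nat_lit 9) 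
(.lf (nat_lit 474171) (.g (nat_lit 2651) (.e (nat_lit 1239) (nat_lit 91) (.e (nat_lit 90170) (nat_lit 13) (.e (nat_lit 172106) (nat_lit 10) (.e (nat_lit 434231) (nat_lit 23) (.e (nat_lit 540416) (nat_lit 0) .nil))))) (.g (nat_lit 0) (.e (nat_lit 95354) (nat_lit 0) .nil) .nil))) 
(.lf (nat_lit 474683) (.g (nat_lit 1621) (.e (nat_lit 1256) (nat_lit 92) (.e (nat_lit 98366) (nat_lit 27) (.e (nat_lit 434247) (nat_lit 28) (.e (nat_lit 573485) (nat_lit 13) (.e (nat_lit 65570) (nat_lit 3) .nil))))) (.g (nat_lit 0) (.e (nat_lit 95970) (nat_lit 0) .nil) .nil)))) (.nd (nat_lit 9) 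
(.lf (nat_lit 474427) (.g (nat_lit 1801) (.e (nat_lit 1250) (nat_lit 92) (.e (nat_lit 98373) (nat_lit 29) (.e (nat_lit 450587) (nat_lit 10) (.e (nat_lit 573457) (nat_lit 9) (.e (nat_lit 7936) (nat_lit 33) (.e (nat_lit 442112) (nat_lit 0) .nil)))))) (.g (nat_lit 1) (.e (nat_lit 95620) (nat_lit 0) .nil) .nil))) 
(.lf (nat_lit 474939) (.g (nat_lit 3829) (.e (nat_lit 1349) (nat_lit 102) (.e (nat_lit 286735) (nat_lit 3) (.e (nat_lit 98350) (nat_lit 24) (.e (nat_lit 409602) (nat_lit 0) (.e (nat_lit 5293) (nat_lit 298) (.e (nat_lit 1232) (nat_lit 91) (.e (nat_lit 90133) (nat_lit 9) (.e (nat_lit 2400) (nat_lit 157) (.e (nat_lit 7064) (nat_lit 377) .nil))))))))) (.g (nat_lit 1) (.e (nat_lit 96835) (nat_lit 0) .nil) .nil))))) 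
(.nd (nat_lit 8) (.nd (nat_lit 9) 
(.lf (nat_lit 474299) (.g (nat_lit 3778) (.e (nat_lit 1239) (nat_lit 91) (.e (nat_lit 90170) (nat_lit 13) (.e (nat_lit 172113) (nat_lit 10) (.e (nat_lit 434248) (nat_lit 28) (.e (nat_lit 573451) (nat_lit 9) (.e (nat_lit 359) (nat_lit 30) (.e (nat_lit 409602) (nat_lit 0) (.e (nat_lit 5270) (nat_lit 298) .nil)))))))) (.g (nat_lit 1) (.e (nat_lit 95482) (nat_lit 0) .nil) .nil))) 
(.lf (nat_lit 474811) (.g (nat_lit 2472) (.e (nat_lit 1374) (nat_lit 104) (.e (nat_lit 303143) (nat_lit 12) (.e (nat_lit 475185) (nat_lit 29) (.e (nat_lit 557103) (nat_lit 14) .nil)))) (.g (nat_lit 0) (.e (nat_lit 96299) (nat_lit 0) .nil) .nil)))) (.nd (nat_lit 9) 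
(.lf (nat_lit 474555) (.g (nat_lit 5134) (.e (nat_lit 1253) (nat_lit 92) (.e (nat_lit 98373) (nat_lit 29) (.e (nat_lit 450588) (nat_lit 10) (.e (nat_lit 573454) (nat_lit 9) (.e (nat_lit 441) (nat_lit 33) (.e (nat_lit 434180) (nat_lit 0) .nil)))))) (.g (nat_lit 1) (.e (nat_lit 95776) (nat_lit 0) .nil) .nil))) 
(.lf (nat_lit 475067) (.g (nat_lit 1539) (.e (nat_lit 1413) (nat_lit 108) (.e (nat_lit 336454) (nat_lit 34) (.e (nat_lit 483380) (nat_lit 23) (.e (nat_lit 336326) (nat_lit 18) .nil)))) (.g (nat_lit 0) (.e (nat_lit 97177) (nat_lit 0) .nil) .nil)))))) (.nd (nat_lit 7) (.nd (nat_lit 8) (.nd (nat_lit 9) 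
(.lf (nat_lit 474235) (.g (nat_lit 3194) (.e (nat_lit 1239) (nat_lit 91) (.e (nat_lit 90170) (nat_lit 13) (.e (nat_lit 172113) (nat_lit 10) (.e (nat_lit 434242) (nat_lit 28) (.e (nat_lit 573451) (nat_lit 9) (.e (nat_lit 359) (nat_lit 30) (.e (nat_lit 409604) (nat_lit 0) (.e (nat_lit 5270) (nat_lit 298) .nil)))))))) (.g (nat_lit 1) (.e (nat_lit 95418) (nat_lit 0) .nil) .nil))) 
(.lf (nat_lit 474747) (.g (nat_lit 2823) (.e (nat_lit 1278) (nat_lit 94) (.e (nat_lit 114698) (nat_lit 11) (.e (nat_lit 426124) (nat_lit 2) (.e (nat_lit 196674) (nat_lit 15) .nil)))) (.g (nat_lit 0) (.e (nat_lit 96062) (nat_lit 0) .nil) .nil)))) (.nd (nat_lit 9) 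
(.lf (nat_lit 474491) (.g (nat_lit 2329) (.e (nat_lit 1252) (nat_lit 92) (.e (nat_lit 98367) (nat_lit 27) (.e (nat_lit 434193) (nat_lit 13) (.e (nat_lit 2570) (nat_lit 160) (.e (nat_lit 32808) (nat_lit 19) (.e (nat_lit 180278) (nat_lit 32) .nil)))))) (.g (nat_lit 1) (.e (nat_lit 95695) (nat_lit 0) .nil) .nil))) 
(.lf (nat_lit 475003) (.g (nat_lit 3404) (.e (nat_lit 1363) (nat_lit 102) (.e (nat_lit 286733) (nat_lit 2) (.e (nat_lit 90170) (nat_lit 13) (.e (nat_lit 172113) (nat_lit 10) .nil)))) (.g (nat_lit 0) (.e (nat_lit 97000) (nat_lit 0) .nil) .nil))))) (.nd (nat_lit 8) (.nd (nat_lit 9) 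
(.lf (nat_lit 474363) (.g (nat_lit 1633) (.e (nat_lit 1250) (nat_lit 92) (.e (nat_lit 98321) (nat_lit 17) (.e (nat_lit 3771) (nat_lit 229) (.e (nat_lit 794669) (nat_lit 22) (.e (nat_lit 196668) (nat_lit 14) (.e (nat_lit 73750) (nat_lit 6) (.e (nat_lit 540675) (nat_lit 0) (.e (nat_lit 2270) (nat_lit 149) (.e (nat_lit 761866) (nat_lit 5) .nil))))))))) (.g (nat_lit 1) (.e (nat_lit 95554) (nat_lit 0) .nil) .nil))) 
(.lf (nat_lit 474875) (.g (nat_lit 1263) (.e (nat_lit 1380) (nat_lit 105) (.e (nat_lit 311344) (nat_lit 13) (.e (nat_lit 483372) (nat_lit 21) (.e (nat_lit 319534) (nat_lit 16) .nil)))) (.g (nat_lit 0) (.e (nat_lit 96620) (nat_lit 0) .nil) .nil)))) (.nd (nat_lit 9) 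
(.lf (nat_lit 474619) (.g (nat_lit 3212) (.e (nat_lit 1255) (nat_lit 92) (.e (nat_lit 98356) (nat_lit 26) (.e (nat_lit 426436) (nat_lit 18) (.e (nat_lit 98335) (nat_lit 18) (.e (nat_lit 164305) (nat_lit 226) (.e (nat_lit 2433) (nat_lit 157) (.e (nat_lit 2685) (nat_lit 168) (.e (nat_lit 204834) (nat_lit 19) (.e (nat_lit 106517) (nat_lit 9) .nil))))))))) (.g (nat_lit 1) (.e (nat_lit 95872) (nat_lit 0) .nil) .nil))) 
(.lf (nat_lit 475131) (.g (nat_lit 2357) (.e (nat_lit 1426) (nat_lit 108) (.e (nat_lit 336367) (nat_lit 27) (.e (nat_lit 426320) (nat_lit 12) (.e (nat_lit 475199) (nat_lit 40) (.e (nat_lit 704595) (nat_lit 5) (.e (nat_lit 180278) (nat_lit 32) .nil)))))) (.g (nat_lit 1) (.e (nat_lit 97308) (nat_lit 0) .nil) .nil)))))))))) 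
(.nd (nat_lit 3) (.nd (nat_lit 4) (.nd (nat_lit 5) (.nd (nat_lit 6) (.nd (nat_lit 7) 
(.nd (nat_lit 8) (.nd (nat_lit 9) 
(.lf (nat_lit 474119) (.g (nat_lit 1939) (.e (nat_lit 1235) (nat_lit 91) (.e (nat_lit 90170) (nat_lit 13) (.e (nat_lit 172113) (nat_lit 10) (.e (nat_lit 434247) (nat_lit 28) (.e (nat_lit 573456) (nat_lit 9) (.e (nat_lit 430) (nat_lit 32) (.e (nat_lit 426012) (nat_lit 0) (.e (nat_lit 7523) (nat_lit 402) .nil)))))))) (.g (nat_lit 1) (.e (nat_lit 95288) (nat_lit 0) .nil) .nil))) 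
(.lf (nat_lit 474631) (.g (nat_lit 3370) (.e (nat_lit 1255) (nat_lit 92) (.e (nat_lit 98373) (nat_lit 29) (.e (nat_lit 450588) (nat_lit 10) (.e (nat_lit 573470) (nat_lit 11) (.e (nat_lit 16386) (nat_lit 0) .nil))))) (.g (nat_lit 0) (.e (nat_lit 95903) (nat_lit 0) .nil) .nil)))) (.nd (nat_lit 9) 
(.lf (nat_lit 474375) (.g (nat_lit 2917) (.e (nat_lit 1250) (nat_lit 92) (.e (nat_lit 98350) (nat_lit 24) (.e (nat_lit 409643) (nat_lit 18) (.e (nat_lit 303117) (nat_lit 2) (.e (nat_lit 196670) (nat_lit 14) (.e (nat_lit 81664) (nat_lit 40) .nil)))))) (.g (nat_lit 1) (.e (nat_lit 95566) (nat_lit 0) .nil) .nil))) 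
(.lf (nat_lit 474887) (.g (nat_lit 2367) (.e (nat_lit 1386) (nat_lit 105) (.e (nat_lit 311357) (nat_lit 28) (.e (nat_lit 344068) (nat_lit 0) (.e (nat_lit 3090) (nat_lit 191) (.e (nat_lit 483350) (nat_lit 17) (.e (nat_lit 6123) (nat_lit 332) .nil)))))) (.g (nat_lit 1) (.e (nat_lit 96705) (nat_lit 0) .nil) .nil))))) (.nd (nat_lit 8) (.nd (nat_lit 9) 
(.lf (nat_lit 474247) (.g (nat_lit 3480) (.e (nat_lit 1239) (nat_lit 91) (.e (nat_lit 90170) (nat_lit 13) (.e (nat_lit 172113) (nat_lit 10) (.e (nat_lit 434245) (nat_lit 28) (.e (nat_lit 573450) (nat_lit 9) (.e (nat_lit 473) (nat_lit 36) (.e (nat_lit 466688) (nat_lit 0) .nil))))))) (.g (nat_lit 1) (.e (nat_lit 95430) (nat_lit 0) .nil) .nil))) 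
(.lf (nat_lit 474759) (.g (nat_lit 3523) (.e (nat_lit 1310) (nat_lit 98) (.e (nat_lit 147496) (nat_lit 11) (.e (nat_lit 24604) (nat_lit 2) (.e (nat_lit 90170) (nat_lit 13) (.e (nat_lit 172106) (nat_lit 10) (.e (nat_lit 434244) (nat_lit 28) (.e (nat_lit 573458) (nat_lit 9) .nil))))))) (.g (nat_lit 1) (.e (nat_lit 96159) (nat_lit 0) .nil) .nil)))) (.nd (nat_lit 9) 
(.lf (nat_lit 474503) (.g (nat_lit 3655) (.e (nat_lit 1252) (nat_lit 92) (.e (nat_lit 98373) (nat_lit 29) (.e (nat_lit 450588) (nat_lit 10) (.e (nat_lit 573450) (nat_lit 9) (.e (nat_lit 442) (nat_lit 33) (.e (nat_lit 434181) (nat_lit 0) .nil)))))) (.g (nat_lit 1) (.e (nat_lit 95710) (nat_lit 0) .nil) .nil))) 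
(.lf (nat_lit 475015) (.g (nat_lit 2137) (.e (nat_lit 1393) (nat_lit 106) (.e (nat_lit 319530) (nat_lit 16) (.e (nat_lit 286733) (nat_lit 2) (.e (nat_lit 90128) (nat_lit 9) (.e (nat_lit 3044) (nat_lit 189) (.e (nat_lit 466977) (nat_lit 22) (.e (nat_lit 196630) (nat_lit 9) .nil))))))) (.g (nat_lit 1) (.e (nat_lit 97056) (nat_lit 0) .nil) .nil)))))) 
(.nd (nat_lit 7) (.nd (nat_lit 8) (.nd (nat_lit 9) 
(.lf (nat_lit 474183) (.g (nat_lit 2494) (.e (nat_lit 1239) (nat_lit 91) (.e (nat_lit 90170) (nat_lit 13) (.e (nat_lit 172106) (nat_lit 10) (.e (nat_lit 434244) (nat_lit 28) (.e (nat_lit 573449) (nat_lit 9) (.e (nat_lit 473) (nat_lit 36) (.e (nat_lit 466688) (nat_lit 0) .nil))))))) (.g (nat_lit 1) (.e (nat_lit 95366) (nat_lit 0) .nil) .nil))) 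
(.lf (nat_lit 474695) (.g (nat_lit 2081) (.e (nat_lit 1256) (nat_lit 92) (.e (nat_lit 98370) (nat_lit 28) (.e (nat_lit 442430) (nat_lit 24) (.e (nat_lit 229536) (nat_lit 134) (.e (nat_lit 7936) (nat_lit 165) (.e (nat_lit 188160) (nat_lit 32) .nil)))))) (.g (nat_lit 1) (.e (nat_lit 95984) (nat_lit 0) .nil) .nil)))) (.nd (nat_lit 9) 
(.lf (nat_lit 474439) (.g (nat_lit 2237) (.e (nat_lit 1251) (nat_lit 92) (.e (nat_lit 98333) (nat_lit 18) (.e (nat_lit 164399) (nat_lit 256) (.e (nat_lit 57375) (nat_lit 2) (.e (nat_lit 90172) (nat_lit 14) .nil))))) (.g (nat_lit 0) (.e (nat_lit 95633) (nat_lit 0) .nil) .nil))) 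
(.lf (nat_lit 474951) (.g (nat_lit 4513) (.e (nat_lit 1349) (nat_lit 102) (.e (nat_lit 286759) (nat_lit 12) (.e (nat_lit 385074) (nat_lit 31) (.e (nat_lit 573480) (nat_lit 13) (.e (nat_lit 65603) (nat_lit 9) .nil))))) (.g (nat_lit 0) (.e (nat_lit 96857) (nat_lit 0) .nil) .nil))))) (.nd (nat_lit 8) (.nd (nat_lit 9) 
(.lf (nat_lit 474311) (.g (nat_lit 3456) (.e (nat_lit 1239) (nat_lit 91) (.e (nat_lit 90170) (nat_lit 13) (.e (nat_lit 172113) (nat_lit 10) (.e (nat_lit 434248) (nat_lit 28) (.e (nat_lit 573452) (nat_lit 9) (.e (nat_lit 430) (nat_lit 32) (.e (nat_lit 426011) (nat_lit 0) (.e (nat_lit 7486) (nat_lit 402) .nil)))))))) (.g (nat_lit 1) (.e (nat_lit 95494) (nat_lit 0) .nil) .nil))) 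
(.lf (nat_lit 474823) (.g (nat_lit 2014) (.e (nat_lit 1376) (nat_lit 104) (.e (nat_lit 303119) (nat_lit 3) (.e (nat_lit 204816) (nat_lit 17) (.e (nat_lit 6722) (nat_lit 362) (.e (nat_lit 180244) (nat_lit 5) (.e (nat_lit 532486) (nat_lit 0) (.e (nat_lit 6113) (nat_lit 332) .nil))))))) (.g (nat_lit 1) (.e (nat_lit 96386) (nat_lit 0) .nil) .nil)))) (.nd (nat_lit 9) 
(.lf (nat_lit 474567) (.g (nat_lit 2464) (.e (nat_lit 1254) (nat_lit 92) (.e (nat_lit 98333) (nat_lit 18) (.e (nat_lit 164327) (nat_lit 230) (.e (nat_lit 163875) (nat_lit 3) (.e (nat_lit 204809) (nat_lit 9) (.e (nat_lit 426139) (nat_lit 3) (.e (nat_lit 204834) (nat_lit 19) (.e (nat_lit 106523) (nat_lit 9) .nil)))))))) (.g (nat_lit 1) (.e (nat_lit 95790) (nat_lit 0) .nil) .nil))) 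
(.lf (nat_lit 475079) (.g (nat_lit 2241) (.e (nat_lit 1417) (nat_lit 108) (.e (nat_lit 336454) (nat_lit 34) (.e (nat_lit 483383) (nat_lit 23) (.e (nat_lit 336019) (nat_lit 3) (.e (nat_lit 98334) (nat_lit 18) .nil))))) (.g (nat_lit 0) (.e (nat_lit 97196) (nat_lit 0) .nil) .nil))))))) (.nd (nat_lit 6) (.nd (nat_lit 7) (.nd (nat_lit 8) (.nd (nat_lit 9) 
(.lf (nat_lit 474151) (.g (nat_lit 662) (.e (nat_lit 1237) (nat_lit 91) (.e (nat_lit 90170) (nat_lit 13) (.e (nat_lit 172115) (nat_lit 10) .nil))) (.g (nat_lit 0) (.e (nat_lit 95327) (nat_lit 0) .nil) .nil))) 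
(.lf (nat_lit 474663) (.g (nat_lit 1737) (.e (nat_lit 1256) (nat_lit 92) (.e (nat_lit 98349) (nat_lit 24) (.e (nat_lit 409646) (nat_lit 18) (.e (nat_lit 303117) (nat_lit 2) .nil)))) (.g (nat_lit 0) (.e (nat_lit 95944) (nat_lit 0) .nil) .nil)))) (.nd (nat_lit 9) 
(.lf (nat_lit 474407) (.g (nat_lit 2169) (.e (nat_lit 1250) (nat_lit 92) (.e (nat_lit 98372) (nat_lit 29) (.e (nat_lit 450586) (nat_lit 10) (.e (nat_lit 573449) (nat_lit 9) (.e (nat_lit 359) (nat_lit 30) .nil))))) (.g (nat_lit 0) (.e (nat_lit 95600) (nat_lit 0) .nil) .nil))) 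
(.lf (nat_lit 474919) (.g (nat_lit 3419) (.e (nat_lit 1348) (nat_lit 102) (.e (nat_lit 286735) (nat_lit 3) (.e (nat_lit 98353) (nat_lit 25) (.e (nat_lit 417809) (nat_lit 6) (.e (nat_lit 286733) (nat_lit 2) (.e (nat_lit 90133) (nat_lit 9) (.e (nat_lit 2400) (nat_lit 157) (.e (nat_lit 7064) (nat_lit 377) .nil)))))))) (.g (nat_lit 1) (.e (nat_lit 96782) (nat_lit 0) .nil) .nil))))) 
(.nd (nat_lit 8) (.nd (nat_lit 9) 
(.lf (nat_lit 474279) (.g (nat_lit 3091) (.e (nat_lit 1239) (nat_lit 91) (.e (nat_lit 90170) (nat_lit 13) (.e (nat_lit 172113) (nat_lit 10) (.e (nat_lit 434247) (nat_lit 28) (.e (nat_lit 573457) (nat_lit 9) (.e (nat_lit 365) (nat_lit 31) (.e (nat_lit 417795) (nat_lit 0) (.e (nat_lit 5258) (nat_lit 298) .nil)))))))) (.g (nat_lit 1) (.e (nat_lit 95462) (nat_lit 0) .nil) .nil))) 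
(.lf (nat_lit 474791) (.g (nat_lit 3871) (.e (nat_lit 1374) (nat_lit 104) (.e (nat_lit 303119) (nat_lit 3) (.e (nat_lit 204846) (nat_lit 24) (.e (nat_lit 319529) (nat_lit 16) (.e (nat_lit 286735) (nat_lit 3) (.e (nat_lit 98323) (nat_lit 17) (.e (nat_lit 6989) (nat_lit 377) .nil))))))) (.g (nat_lit 1) (.e (nat_lit 96279) (nat_lit 0) .nil) .nil)))) (.nd (nat_lit 9) 
(.lf (nat_lit 474535) (.g (nat_lit 3734) (.e (nat_lit 1253) (nat_lit 92) (.e (nat_lit 98373) (nat_lit 29) (.e (nat_lit 450586) (nat_lit 10) (.e (nat_lit 573450) (nat_lit 9) (.e (nat_lit 442) (nat_lit 33) (.e (nat_lit 434180) (nat_lit 0) .nil)))))) (.g (nat_lit 1) (.e (nat_lit 95756) (nat_lit 0) .nil) .nil))) 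
(.lf (nat_lit 475047) (.g (nat_lit 2004) (.e (nat_lit 1400) (nat_lit 106) (.e (nat_lit 319530) (nat_lit 16) (.e (nat_lit 286735) (nat_lit 3) (.e (nat_lit 98381) (nat_lit 31) .nil)))) (.g (nat_lit 0) (.e (nat_lit 97139) (nat_lit 0) .nil) .nil)))))) (.nd (nat_lit 7) (.nd (nat_lit 8) (.nd (nat_lit 9) 
(.lf (nat_lit 474215) (.g (nat_lit 3143) (.e (nat_lit 1239) (nat_lit 91) (.e (nat_lit 90170) (nat_lit 13) (.e (nat_lit 172106) (nat_lit 10) (.e (nat_lit 434244) (nat_lit 28) (.e (nat_lit 573458) (nat_lit 9) (.e (nat_lit 7936) (nat_lit 32) (.e (nat_lit 425984) (nat_lit 0) (.e (nat_lit 7489) (nat_lit 402) .nil)))))))) (.g (nat_lit 1) (.e (nat_lit 95398) (nat_lit 0) .nil) .nil))) 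
(.lf (nat_lit 474727) (.g (nat_lit 2482) (.e (nat_lit 1257) (nat_lit 93) (.e (nat_lit 106534) (nat_lit 11) (.e (nat_lit 16425) (nat_lit 7) (.e (nat_lit 409649) (nat_lit 18) (.e (nat_lit 303140) (nat_lit 10) .nil))))) (.g (nat_lit 0) (.e (nat_lit 96017) (nat_lit 0) .nil) .nil)))) (.nd (nat_lit 9) 
(.lf (nat_lit 474471) (.g (nat_lit 2597) (.e (nat_lit 1252) (nat_lit 92) (.e (nat_lit 98334) (nat_lit 18) (.e (nat_lit 164330) (nat_lit 230) (.e (nat_lit 163874) (nat_lit 3) (.e (nat_lit 204809) (nat_lit 9) (.e (nat_lit 426139) (nat_lit 3) (.e (nat_lit 204834) (nat_lit 19) (.e (nat_lit 106517) (nat_lit 9) .nil)))))))) (.g (nat_lit 1) (.e (nat_lit 95670) (nat_lit 0) .nil) .nil))) 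
(.lf (nat_lit 474983) (.g (nat_lit 1558) (.e (nat_lit 1359) (nat_lit 102) (.e (nat_lit 286756) (nat_lit 10) (.e (nat_lit 344138) (nat_lit 29) (.e (nat_lit 581653) (nat_lit 6) (.e (nat_lit 188459) (nat_lit 26) (.e (nat_lit 254007) (nat_lit 14) .nil)))))) (.g (nat_lit 1) (.e (nat_lit 96940) (nat_lit 0) .nil) .nil))))) (.nd (nat_lit 8) (.nd (nat_lit 9) 
(.lf (nat_lit 474343) (.g (nat_lit 3053) (.e (nat_lit 1246) (nat_lit 92) (.e (nat_lit 98334) (nat_lit 18) (.e (nat_lit 164398) (nat_lit 256) (.e (nat_lit 57372) (nat_lit 2) (.e (nat_lit 90172) (nat_lit 14) .nil))))) (.g (nat_lit 0) (.e (nat_lit 95533) (nat_lit 0) .nil) .nil))) 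
(.lf (nat_lit 474855) (.g (nat_lit 887) (.e (nat_lit 1378) (nat_lit 104) (.e (nat_lit 303117) (nat_lit 2) (.e (nat_lit 196661) (nat_lit 12) .nil))) (.g (nat_lit 0) (.e (nat_lit 96460) (nat_lit 0) .nil) .nil)))) (.nd (nat_lit 9) 
(.lf (nat_lit 474599) (.g (nat_lit 2149) (.e (nat_lit 1254) (nat_lit 92) (.e (nat_lit 98381) (nat_lit 31) (.e (nat_lit 466977) (nat_lit 22) (.e (nat_lit 196668) (nat_lit 14) (.e (nat_lit 73762) (nat_lit 16) .nil))))) (.g (nat_lit 0) (.e (nat_lit 95822) (nat_lit 0) .nil) .nil))) 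
(.lf (nat_lit 475111) (.g (nat_lit 2536) (.e (nat_lit 1425) (nat_lit 108) (.e (nat_lit 336430) (nat_lit 29) (.e (nat_lit 442419) (nat_lit 21) (.e (nat_lit 164345) (nat_lit 240) (.e (nat_lit 2638) (nat_lit 165) (.e (nat_lit 180278) (nat_lit 32) .nil)))))) (.g (nat_lit 1) (.e (nat_lit 97272) (nat_lit 0) .nil) .nil)))))))) 
(.nd (nat_lit 5) (.nd (nat_lit 6) (.nd (nat_lit 7) (.nd (nat_lit 8) (.nd (nat_lit 9) 
(.lf (nat_lit 474135) (.g (nat_lit 2665) (.e (nat_lit 1236) (nat_lit 91) (.e (nat_lit 90170) (nat_lit 13) (.e (nat_lit 172106) (nat_lit 10) (.e (nat_lit 434231) (nat_lit 23) (.e (nat_lit 532529) (nat_lit 9) .nil))))) (.g (nat_lit 0) (.e (nat_lit 95305) (nat_lit 0) .nil) .nil))) 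
(.lf (nat_lit 474647) (.g (nat_lit 4010) (.e (nat_lit 1256) (nat_lit 92) (.e (nat_lit 98321) (nat_lit 17) (.e (nat_lit 3771) (nat_lit 229) (.e (nat_lit 794673) (nat_lit 23) (.e (nat_lit 204852) (nat_lit 26) (.e (nat_lit 336326) (nat_lit 18) (.e (nat_lit 204830) (nat_lit 18) (.e (nat_lit 57830) (nat_lit 250) (.e (nat_lit 999) (nat_lit 81) .nil))))))))) (.g (nat_lit 1) (.e (nat_lit 95926) (nat_lit 0) .nil) .nil)))) 
(.nd (nat_lit 9) 
(.lf (nat_lit 474391) (.g (nat_lit 3563) (.e (nat_lit 1250) (nat_lit 92) (.e (nat_lit 98350) (nat_lit 24) (.e (nat_lit 409648) (nat_lit 18) (.e (nat_lit 303119) (nat_lit 3) (.e (nat_lit 204846) (nat_lit 24) (.e (nat_lit 319490) (nat_lit 0) (.e (nat_lit 5293) (nat_lit 298) .nil))))))) (.g (nat_lit 1) (.e (nat_lit 95582) (nat_lit 0) .nil) .nil))) 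
(.lf (nat_lit 474903) (.g (nat_lit 3430) (.e (nat_lit 1346) (nat_lit 102) (.e (nat_lit 286733) (nat_lit 2) (.e (nat_lit 90170) (nat_lit 13) (.e (nat_lit 172115) (nat_lit 10) .nil)))) (.g (nat_lit 0) (.e (nat_lit 96732) (nat_lit 0) .nil) .nil))))) (.nd (nat_lit 8) (.nd (nat_lit 9) 
(.lf (nat_lit 474263) (.g (nat_lit 2705) (.e (nat_lit 1239) (nat_lit 91) (.e (nat_lit 90170) (nat_lit 13) (.e (nat_lit 172113) (nat_lit 10) (.e (nat_lit 434245) (nat_lit 28) (.e (nat_lit 573458) (nat_lit 9) (.e (nat_lit 426) (nat_lit 32) (.e (nat_lit 426010) (nat_lit 0) (.e (nat_lit 7490) (nat_lit 402) .nil)))))))) (.g (nat_lit 1) (.e (nat_lit 95446) (nat_lit 0) .nil) .nil))) 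
(.lf (nat_lit 474775) (.g (nat_lit 3669) (.e (nat_lit 1374) (nat_lit 104) (.e (nat_lit 303118) (nat_lit 3) (.e (nat_lit 204846) (nat_lit 24) (.e (nat_lit 319538) (nat_lit 19) (.e (nat_lit 311315) (nat_lit 3) (.e (nat_lit 204819) (nat_lit 17) (.e (nat_lit 6113) (nat_lit 332) .nil))))))) (.g (nat_lit 1) (.e (nat_lit 96250) (nat_lit 0) .nil) .nil)))) (.nd (nat_lit 9) 
(.lf (nat_lit 474519) (.g (nat_lit 3216) (.e (nat_lit 1253) (nat_lit 92) (.e (nat_lit 98367) (nat_lit 27) (.e (nat_lit 434244) (nat_lit 28) (.e (nat_lit 573451) (nat_lit 9) (.e (nat_lit 1449) (nat_lit 108) (.e (nat_lit 336013) (nat_lit 2) (.e (nat_lit 90189) (nat_lit 18) (.e (nat_lit 2579) (nat_lit 161) (.e (nat_lit 40966) (nat_lit 0) .nil))))))))) (.g (nat_lit 1) (.e (nat_lit 95736) (nat_lit 0) .nil) .nil))) 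
(.lf (nat_lit 475031) (.g (nat_lit 4548) (.e (nat_lit 1401) (nat_lit 106) (.e (nat_lit 319537) (nat_lit 19) (.e (nat_lit 311315) (nat_lit 3) (.e (nat_lit 204846) (nat_lit 24) (.e (nat_lit 319534) (nat_lit 16) (.e (nat_lit 286728) (nat_lit 0) (.e (nat_lit 1841) (nat_lit 123) (.e (nat_lit 548874) (nat_lit 5) .nil)))))))) (.g (nat_lit 1) (.e (nat_lit 97107) (nat_lit 0) .nil) .nil)))))) 
(.nd (nat_lit 7) (.nd (nat_lit 8) (.nd (nat_lit 9) 
(.lf (nat_lit 474199) (.g (nat_lit 3775) (.e (nat_lit 1239) (nat_lit 91) (.e (nat_lit 90170) (nat_lit 13) (.e (nat_lit 172106) (nat_lit 10) (.e (nat_lit 434244) (nat_lit 28) (.e (nat_lit 573451) (nat_lit 9) (.e (nat_lit 365) (nat_lit 31) (.e (nat_lit 417796) (nat_lit 0) (.e (nat_lit 5258) (nat_lit 298) .nil)))))))) (.g (nat_lit 1) (.e (nat_lit 95382) (nat_lit 0) .nil) .nil))) 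
(.lf (nat_lit 474711) (.g (nat_lit 3065) (.e (nat_lit 1256) (nat_lit 92) (.e (nat_lit 98373) (nat_lit 29) (.e (nat_lit 450588) (nat_lit 10) (.e (nat_lit 573449) (nat_lit 9) (.e (nat_lit 452) (nat_lit 33) (.e (nat_lit 442112) (nat_lit 0) .nil)))))) (.g (nat_lit 1) (.e (nat_lit 96000) (nat_lit 0) .nil) .nil)))) (.nd (nat_lit 9) 
(.lf (nat_lit 474455) (.g (nat_lit 2404) (.e (nat_lit 1252) (nat_lit 92) (.e (nat_lit 98333) (nat_lit 18) (.e (nat_lit 164327) (nat_lit 230) (.e (nat_lit 163873) (nat_lit 3) (.e (nat_lit 204809) (nat_lit 9) .nil))))) (.g (nat_lit 0) (.e (nat_lit 95653) (nat_lit 0) .nil) .nil))) 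
(.lf (nat_lit 474967) (.g (nat_lit 2719) (.e (nat_lit 1358) (nat_lit 102) (.e (nat_lit 286733) (nat_lit 2) (.e (nat_lit 90170) (nat_lit 13) (.e (nat_lit 172092) (nat_lit 9) .nil)))) (.g (nat_lit 0) (.e (nat_lit 96887) (nat_lit 0) .nil) .nil))))) (.nd (nat_lit 8) (.nd (nat_lit 9) 
(.lf (nat_lit 474327) (.g (nat_lit 639) (.e (nat_lit 1239) (nat_lit 91) (.e (nat_lit 90176) (nat_lit 15) (.e (nat_lit 188450) (nat_lit 23) .nil))) (.g (nat_lit 0) (.e (nat_lit 95510) (nat_lit 0) .nil) .nil))) 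
(.lf (nat_lit 474839) (.g (nat_lit 2965) (.e (nat_lit 1376) (nat_lit 104) (.e (nat_lit 303119) (nat_lit 3) (.e (nat_lit 204846) (nat_lit 24) (.e (nat_lit 319532) (nat_lit 16) (.e (nat_lit 286733) (nat_lit 2) .nil))))) (.g (nat_lit 0) (.e (nat_lit 96412) (nat_lit 0) .nil) .nil)))) (.nd (nat_lit 9) 
(.lf (nat_lit 474583) (.g (nat_lit 3038) (.e (nat_lit 1254) (nat_lit 92) (.e (nat_lit 98334) (nat_lit 18) (.e (nat_lit 164398) (nat_lit 256) (.e (nat_lit 57371) (nat_lit 2) (.e (nat_lit 90174) (nat_lit 14) .nil))))) (.g (nat_lit 0) (.e (nat_lit 95806) (nat_lit 0) .nil) .nil))) 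
(.lf (nat_lit 475095) (.g (nat_lit 5216) (.e (nat_lit 1424) (nat_lit 108) (.e (nat_lit 336019) (nat_lit 3) (.e (nat_lit 98373) (nat_lit 29) (.e (nat_lit 450587) (nat_lit 10) (.e (nat_lit 573475) (nat_lit 12) .nil))))) (.g (nat_lit 0) (.e (nat_lit 97238) (nat_lit 0) .nil) .nil))))))) (.nd (nat_lit 6) (.nd (nat_lit 7) (.nd (nat_lit 8) (.nd (nat_lit 9) 
(.lf (nat_lit 474167) (.g (nat_lit 2210) (.e (nat_lit 1239) (nat_lit 91) (.e (nat_lit 90170) (nat_lit 13) (.e (nat_lit 172106) (nat_lit 10) (.e (nat_lit 434231) (nat_lit 23) (.e (nat_lit 532480) (nat_lit 0) .nil))))) (.g (nat_lit 0) (.e (nat_lit 95350) (nat_lit 0) .nil) .nil))) 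
(.lf (nat_lit 474679) (.g (nat_lit 984) (.e (nat_lit 1256) (nat_lit 92) (.e (nat_lit 98359) (nat_lit 26) (.e (nat_lit 426171) (nat_lit 7) (.e (nat_lit 417536) (nat_lit 10) .nil)))) (.g (nat_lit 0) (.e (nat_lit 95962) (nat_lit 0) .nil) .nil)))) (.nd (nat_lit 9) 
(.lf (nat_lit 474423) (.g (nat_lit 2592) (.e (nat_lit 1250) (nat_lit 92) (.e (nat_lit 98373) (nat_lit 29) (.e (nat_lit 450587) (nat_lit 10) (.e (nat_lit 573456) (nat_lit 9) (.e (nat_lit 359) (nat_lit 30) .nil))))) (.g (nat_lit 0) (.e (nat_lit 95616) (nat_lit 0) .nil) .nil))) 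
(.lf (nat_lit 474935) (.g (nat_lit 5030) (.e (nat_lit 1349) (nat_lit 102) (.e (nat_lit 286733) (nat_lit 2) (.e (nat_lit 90170) (nat_lit 13) (.e (nat_lit 172124) (nat_lit 14) (.e (nat_lit 491537) (nat_lit 2) (.e (nat_lit 90133) (nat_lit 9) (.e (nat_lit 2400) (nat_lit 157) (.e (nat_lit 7064) (nat_lit 377) .nil)))))))) (.g (nat_lit 1) (.e (nat_lit 96828) (nat_lit 0) .nil) .nil))))) 
(.nd (nat_lit 8) (.nd (nat_lit 9) 
(.lf (nat_lit 474295) (.g (nat_lit 1937) (.e (nat_lit 1239) (nat_lit 91) (.e (nat_lit 90170) (nat_lit 13) (.e (nat_lit 172113) (nat_lit 10) (.e (nat_lit 434248) (nat_lit 28) (.e (nat_lit 573450) (nat_lit 9) .nil))))) (.g (nat_lit 0) (.e (nat_lit 95478) (nat_lit 0) .nil) .nil))) 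
(.lf (nat_lit 474807) (.g (nat_lit 3682) (.e (nat_lit 1374) (nat_lit 104) (.e (nat_lit 303119) (nat_lit 3) (.e (nat_lit 204885) (nat_lit 33) (.e (nat_lit 401434) (nat_lit 9) (.e (nat_lit 426125) (nat_lit 2) (.e (nat_lit 196661) (nat_lit 12) (.e (nat_lit 57712) (nat_lit 176) .nil))))))) (.g (nat_lit 1) (.e (nat_lit 96295) (nat_lit 0) .nil) .nil)))) (.nd (nat_lit 9) 
(.lf (nat_lit 474551) (.g (nat_lit 4140) (.e (nat_lit 1253) (nat_lit 92) (.e (nat_lit 98373) (nat_lit 29) (.e (nat_lit 450588) (nat_lit 10) (.e (nat_lit 573449) (nat_lit 9) (.e (nat_lit 7936) (nat_lit 33) (.e (nat_lit 434180) (nat_lit 0) .nil)))))) (.g (nat_lit 1) (.e (nat_lit 95772) (nat_lit 0) .nil) .nil))) 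
(.lf (nat_lit 475063) (.g (nat_lit 2026) (.e (nat_lit 1400) (nat_lit 106) (.e (nat_lit 327424) (nat_lit 16) (.e (nat_lit 286733) (nat_lit 2) (.e (nat_lit 90134) (nat_lit 9) (.e (nat_lit 3002) (nat_lit 186) (.e (nat_lit 442423) (nat_lit 22) (.e (nat_lit 196626) (nat_lit 9) .nil))))))) (.g (nat_lit 1) (.e (nat_lit 97163) (nat_lit 0) .nil) .nil)))))) 
(.nd (nat_lit 7) (.nd (nat_lit 8) (.nd (nat_lit 9) 
(.lf (nat_lit 474231) (.g (nat_lit 2569) (.e (nat_lit 1239) (nat_lit 91) (.e (nat_lit 90170) (nat_lit 13) (.e (nat_lit 172113) (nat_lit 10) (.e (nat_lit 434242) (nat_lit 28) (.e (nat_lit 573450) (nat_lit 9) (.e (nat_lit 433) (nat_lit 32) (.e (nat_lit 425987) (nat_lit 0) (.e (nat_lit 7489) (nat_lit 402) .nil)))))))) (.g (nat_lit 1) (.e (nat_lit 95414) (nat_lit 0) .nil) .nil))) 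
(.lf (nat_lit 474743) (.g (nat_lit 2690) (.e (nat_lit 1277) (nat_lit 94) (.e (nat_lit 114719) (nat_lit 23) (.e (nat_lit 98367) (nat_lit 27) (.e (nat_lit 434231) (nat_lit 23) (.e (nat_lit 532502) (nat_lit 1) .nil))))) (.g (nat_lit 0) (.e (nat_lit 96055) (nat_lit 0) .nil) .nil)))) (.nd (nat_lit 9) 
(.lf (nat_lit 474487) (.g (nat_lit 2154) (.e (nat_lit 1252) (nat_lit 92) (.e (nat_lit 98335) (nat_lit 18) (.e (nat_lit 164403) (nat_lit 256) (.e (nat_lit 57371) (nat_lit 2) (.e (nat_lit 90174) (nat_lit 14) .nil))))) (.g (nat_lit 0) (.e (nat_lit 95686) (nat_lit 0) .nil) .nil))) 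
(.lf (nat_lit 474999) (.g (nat_lit 3289) (.e (nat_lit 1362) (nat_lit 102) (.e (nat_lit 286733) (nat_lit 2) (.e (nat_lit 90170) (nat_lit 13) (.e (nat_lit 172106) (nat_lit 10) (.e (nat_lit 434231) (nat_lit 23) .nil))))) (.g (nat_lit 0) (.e (nat_lit 96996) (nat_lit 0) .nil) .nil))))) (.nd (nat_lit 8) (.nd (nat_lit 9) 
(.lf (nat_lit 474359) (.g (nat_lit 863) (.e (nat_lit 1248) (nat_lit 92) (.e (nat_lit 98373) (nat_lit 29) (.e (nat_lit 450587) (nat_lit 10) .nil))) (.g (nat_lit 0) (.e (nat_lit 95550) (nat_lit 0) .nil) .nil))) 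
(.lf (nat_lit 474871) (.g (nat_lit 2249) (.e (nat_lit 1380) (nat_lit 105) (.e (nat_lit 311342) (nat_lit 13) (.e (nat_lit 483413) (nat_lit 27) (.e (nat_lit 401448) (nat_lit 10) (.e (nat_lit 434285) (nat_lit 42) .nil))))) (.g (nat_lit 0) (.e (nat_lit 96593) (nat_lit 0) .nil) .nil)))) (.nd (nat_lit 9) 
(.lf (nat_lit 474615) (.g (nat_lit 2442) (.e (nat_lit 1255) (nat_lit 92) (.e (nat_lit 98335) (nat_lit 18) (.e (nat_lit 164402) (nat_lit 256) (.e (nat_lit 57371) (nat_lit 2) (.e (nat_lit 90174) (nat_lit 14) .nil))))) (.g (nat_lit 0) (.e (nat_lit 95861) (nat_lit 0) .nil) .nil))) 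
(.lf (nat_lit 475127) (.g (nat_lit 2624) (.e (nat_lit 1425) (nat_lit 108) (.e (nat_lit 336454) (nat_lit 34) (.e (nat_lit 483406) (nat_lit 26) (.e (nat_lit 385066) (nat_lit 26) (.e (nat_lit 532501) (nat_lit 1) .nil))))) (.g (nat_lit 0) (.e (nat_lit 97296) (nat_lit 0) .nil) .nil))))))))) (.nd (nat_lit 4) (.nd (nat_lit 5) (.nd (nat_lit 6) (.nd (nat_lit 7) (.nd (nat_lit 8) (.nd (nat_lit 9) 
(.lf (nat_lit 474127) (.g (nat_lit 705) (.e (nat_lit 1235) (nat_lit 91) (.e (nat_lit 90174) (nat_lit 14) (.e (nat_lit 180282) (nat_lit 45) .nil))) (.g (nat_lit 0) (.e (nat_lit 95297) (nat_lit 0) .nil) .nil))) 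
(.lf (nat_lit 474639) (.g (nat_lit 4394) (.e (nat_lit 1255) (nat_lit 92) (.e (nat_lit 98384) (nat_lit 32) (.e (nat_lit 475177) (nat_lit 24) (.e (nat_lit 516119) (nat_lit 1) (.e (nat_lit 164327) (nat_lit 230) (.e (nat_lit 163875) (nat_lit 3) (.e (nat_lit 204834) (nat_lit 19) (.e (nat_lit 106517) (nat_lit 9) .nil)))))))) (.g (nat_lit 1) (.e (nat_lit 95914) (nat_lit 0) .nil) .nil)))) 
(.nd (nat_lit 9) 
(.lf (nat_lit 474383) (.g (nat_lit 3023) (.e (nat_lit 1250) (nat_lit 92) (.e (nat_lit 98350) (nat_lit 24) (.e (nat_lit 409646) (nat_lit 18) (.e (nat_lit 303117) (nat_lit 2) (.e (nat_lit 196669) (nat_lit 14) .nil))))) (.g (nat_lit 0) (.e (nat_lit 95574) (nat_lit 0) .nil) .nil))) 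
(.lf (nat_lit 474895) (.g (nat_lit 2212) (.e (nat_lit 1386) (nat_lit 105) (.e (nat_lit 311357) (nat_lit 28) (.e (nat_lit 344069) (nat_lit 0) (.e (nat_lit 3090) (nat_lit 191) (.e (nat_lit 483350) (nat_lit 17) (.e (nat_lit 6125) (nat_lit 332) .nil)))))) (.g (nat_lit 1) (.e (nat_lit 96714) (nat_lit 0) .nil) .nil))))) (.nd (nat_lit 8) (.nd (nat_lit 9) 
(.lf (nat_lit 474255) (.g (nat_lit 2141) (.e (nat_lit 1239) (nat_lit 91) (.e (nat_lit 90170) (nat_lit 13) (.e (nat_lit 172113) (nat_lit 10) (.e (nat_lit 434245) (nat_lit 28) (.e (nat_lit 573451) (nat_lit 9) (.e (nat_lit 7936) (nat_lit 32) (.e (nat_lit 425987) (nat_lit 0) (.e (nat_lit 7489) (nat_lit 402) .nil)))))))) (.g (nat_lit 1) (.e (nat_lit 95438) (nat_lit 0) .nil) .nil))) 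
(.lf (nat_lit 474767) (.g (nat_lit 2632) (.e (nat_lit 1313) (nat_lit 98) (.e (nat_lit 147496) (nat_lit 11) (.e (nat_lit 24617) (nat_lit 7) (.e (nat_lit 319533) (nat_lit 16) (.e (nat_lit 286753) (nat_lit 10) .nil))))) (.g (nat_lit 0) (.e (nat_lit 96168) (nat_lit 0) .nil) .nil)))) (.nd (nat_lit 9) 
(.lf (nat_lit 474511) (.g (nat_lit 3014) (.e (nat_lit 1253) (nat_lit 92) (.e (nat_lit 98349) (nat_lit 24) (.e (nat_lit 409646) (nat_lit 18) (.e (nat_lit 303117) (nat_lit 2) (.e (nat_lit 196670) (nat_lit 14) .nil))))) (.g (nat_lit 0) (.e (nat_lit 95726) (nat_lit 0) .nil) .nil))) 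
(.lf (nat_lit 475023) (.g (nat_lit 4704) (.e (nat_lit 1395) (nat_lit 106) (.e (nat_lit 319538) (nat_lit 19) (.e (nat_lit 311315) (nat_lit 3) (.e (nat_lit 204846) (nat_lit 24) (.e (nat_lit 319534) (nat_lit 16) (.e (nat_lit 286728) (nat_lit 0) (.e (nat_lit 1841) (nat_lit 123) (.e (nat_lit 548874) (nat_lit 5) .nil)))))))) (.g (nat_lit 1) (.e (nat_lit 97072) (nat_lit 0) .nil) .nil)))))) 
(.nd (nat_lit 7) (.nd (nat_lit 8) (.nd (nat_lit 9) 
(.lf (nat_lit 474191) (.g (nat_lit 2370) (.e (nat_lit 1239) (nat_lit 91) (.e (nat_lit 90170) (nat_lit 13) (.e (nat_lit 172106) (nat_lit 10) (.e (nat_lit 434244) (nat_lit 28) (.e (nat_lit 573450) (nat_lit 9) (.e (nat_lit 475) (nat_lit 36) (.e (nat_lit 466688) (nat_lit 0) .nil))))))) (.g (nat_lit 1) (.e (nat_lit 95374) (nat_lit 0) .nil) .nil))) 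
(.lf (nat_lit 474703) (.g (nat_lit 2300) (.e (nat_lit 1256) (nat_lit 92) (.e (nat_lit 98373) (nat_lit 29) (.e (nat_lit 450587) (nat_lit 10) (.e (nat_lit 573456) (nat_lit 9) (.e (nat_lit 430) (nat_lit 32) (.e (nat_lit 426009) (nat_lit 0) (.e (nat_lit 7486) (nat_lit 402) .nil))))))) (.g (nat_lit 1) (.e (nat_lit 95992) (nat_lit 0) .nil) .nil)))) (.nd (nat_lit 9) 
(.lf (nat_lit 474447) (.g (nat_lit 2643) (.e (nat_lit 1251) (nat_lit 92) (.e (nat_lit 98334) (nat_lit 18) (.e (nat_lit 164398) (nat_lit 256) (.e (nat_lit 57375) (nat_lit 2) (.e (nat_lit 90172) (nat_lit 14) .nil))))) (.g (nat_lit 0) (.e (nat_lit 95642) (nat_lit 0) .nil) .nil))) 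
(.lf (nat_lit 474959) (.g (nat_lit 3443) (.e (nat_lit 1355) (nat_lit 102) (.e (nat_lit 286733) (nat_lit 2) (.e (nat_lit 90170) (nat_lit 13) (.e (nat_lit 172115) (nat_lit 10) .nil)))) (.g (nat_lit 0) (.e (nat_lit 96879) (nat_lit 0) .nil) .nil))))) (.nd (nat_lit 8) (.nd (nat_lit 9) 
(.lf (nat_lit 474319) (.g (nat_lit 2614) (.e (nat_lit 1239) (nat_lit 91) (.e (nat_lit 90170) (nat_lit 13) (.e (nat_lit 172113) (nat_lit 10) (.e (nat_lit 434248) (nat_lit 28) (.e (nat_lit 573457) (nat_lit 9) (.e (nat_lit 430) (nat_lit 32) (.e (nat_lit 426010) (nat_lit 0) (.e (nat_lit 7490) (nat_lit 402) .nil)))))))) (.g (nat_lit 1) (.e (nat_lit 95502) (nat_lit 0) .nil) .nil))) 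
(.lf (nat_lit 474831) (.g (nat_lit 1970) (.e (nat_lit 1376) (nat_lit 104) (.e (nat_lit 303119) (nat_lit 3) (.e (nat_lit 204846) (nat_lit 24) (.e (nat_lit 319505) (nat_lit 10) .nil)))) (.g (nat_lit 0) (.e (nat_lit 96398) (nat_lit 0) .nil) .nil)))) (.nd (nat_lit 9) 
(.lf (nat_lit 474575) (.g (nat_lit 2212) (.e (nat_lit 1254) (nat_lit 92) (.e (nat_lit 98333) (nat_lit 18) (.e (nat_lit 164399) (nat_lit 256) (.e (nat_lit 57375) (nat_lit 2) (.e (nat_lit 90172) (nat_lit 14) .nil))))) (.g (nat_lit 0) (.e (nat_lit 95798) (nat_lit 0) .nil) .nil))) 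
(.lf (nat_lit 475087) (.g (nat_lit 1141) (.e (nat_lit 1423) (nat_lit 108) (.e (nat_lit 336326) (nat_lit 18) (.e (nat_lit 204866) (nat_lit 28) (.e (nat_lit 352279) (nat_lit 19) .nil)))) (.g (nat_lit 0) (.e (nat_lit 97229) (nat_lit 0) .nil) .nil))))))) (.nd (nat_lit 6) (.nd (nat_lit 7) (.nd (nat_lit 8) (.nd (nat_lit 9) 
(.lf (nat_lit 474159) (.g (nat_lit 2337) (.e (nat_lit 1238) (nat_lit 91) (.e (nat_lit 90176) (nat_lit 15) (.e (nat_lit 188450) (nat_lit 23) (.e (nat_lit 204845) (nat_lit 24) (.e (nat_lit 319498) (nat_lit 10) .nil))))) (.g (nat_lit 0) (.e (nat_lit 95336) (nat_lit 0) .nil) .nil))) 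
(.lf (nat_lit 474671) (.g (nat_lit 2888) (.e (nat_lit 1256) (nat_lit 92) (.e (nat_lit 98350) (nat_lit 24) (.e (nat_lit 409646) (nat_lit 18) (.e (nat_lit 303117) (nat_lit 2) (.e (nat_lit 196669) (nat_lit 14) (.e (nat_lit 81664) (nat_lit 40) .nil)))))) (.g (nat_lit 1) (.e (nat_lit 95954) (nat_lit 0) .nil) .nil)))) (.nd (nat_lit 9) 
(.lf (nat_lit 474415) (.g (nat_lit 705) (.e (nat_lit 1250) (nat_lit 92) (.e (nat_lit 98373) (nat_lit 29) (.e (nat_lit 450585) (nat_lit 10) .nil))) (.g (nat_lit 0) (.e (nat_lit 95608) (nat_lit 0) .nil) .nil))) 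
(.lf (nat_lit 474927) (.g (nat_lit 3497) (.e (nat_lit 1348) (nat_lit 102) (.e (nat_lit 286735) (nat_lit 3) (.e (nat_lit 98363) (nat_lit 26) (.e (nat_lit 426347) (nat_lit 14) (.e (nat_lit 491537) (nat_lit 2) (.e (nat_lit 90133) (nat_lit 9) (.e (nat_lit 2400) (nat_lit 157) (.e (nat_lit 7064) (nat_lit 377) .nil)))))))) (.g (nat_lit 1) (.e (nat_lit 96790) (nat_lit 0) .nil) .nil))))) 
(.nd (nat_lit 8) (.nd (nat_lit 9) 
(.lf (nat_lit 474287) (.g (nat_lit 2711) (.e (nat_lit 1239) (nat_lit 91) (.e (nat_lit 90170) (nat_lit 13) (.e (nat_lit 172113) (nat_lit 10) (.e (nat_lit 434247) (nat_lit 28) (.e (nat_lit 573457) (nat_lit 9) (.e (nat_lit 7936) (nat_lit 33) (.e (nat_lit 442112) (nat_lit 0) .nil))))))) (.g (nat_lit 1) (.e (nat_lit 95470) (nat_lit 0) .nil) .nil))) 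
(.lf (nat_lit 474799) (.g (nat_lit 4351) (.e (nat_lit 1374) (nat_lit 104) (.e (nat_lit 303119) (nat_lit 3) (.e (nat_lit 204846) (nat_lit 24) (.e (nat_lit 319533) (nat_lit 16) (.e (nat_lit 286735) (nat_lit 3) (.e (nat_lit 98323) (nat_lit 17) (.e (nat_lit 6989) (nat_lit 377) .nil))))))) (.g (nat_lit 1) (.e (nat_lit 96287) (nat_lit 0) .nil) .nil)))) (.nd (nat_lit 9) 
(.lf (nat_lit 474543) (.g (nat_lit 4065) (.e (nat_lit 1253) (nat_lit 92) (.e (nat_lit 98373) (nat_lit 29) (.e (nat_lit 450587) (nat_lit 10) (.e (nat_lit 573465) (nat_lit 9) (.e (nat_lit 7936) (nat_lit 33) .nil))))) (.g (nat_lit 0) (.e (nat_lit 95764) (nat_lit 0) .nil) .nil))) 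
(.lf (nat_lit 475055) (.g (nat_lit 1595) (.e (nat_lit 1400) (nat_lit 106) (.e (nat_lit 319533) (nat_lit 16) (.e (nat_lit 286734) (nat_lit 3) (.e (nat_lit 106240) (nat_lit 31) .nil)))) (.g (nat_lit 0) (.e (nat_lit 97150) (nat_lit 0) .nil) .nil)))))) (.nd (nat_lit 7) (.nd (nat_lit 8) (.nd (nat_lit 9) 
(.lf (nat_lit 474223) (.g (nat_lit 2576) (.e (nat_lit 1239) (nat_lit 91) (.e (nat_lit 90170) (nat_lit 13) (.e (nat_lit 172113) (nat_lit 10) (.e (nat_lit 434208) (nat_lit 18) (.e (nat_lit 3919) (nat_lit 239) (.e (nat_lit 2636) (nat_lit 165) (.e (nat_lit 188160) (nat_lit 32) .nil))))))) (.g (nat_lit 1) (.e (nat_lit 95406) (nat_lit 0) .nil) .nil))) 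
(.lf (nat_lit 474735) (.g (nat_lit 2541) (.e (nat_lit 1267) (nat_lit 93) (.e (nat_lit 106534) (nat_lit 11) (.e (nat_lit 16425) (nat_lit 7) (.e (nat_lit 409648) (nat_lit 18) (.e (nat_lit 303137) (nat_lit 10) .nil))))) (.g (nat_lit 0) (.e (nat_lit 96028) (nat_lit 0) .nil) .nil)))) (.nd (nat_lit 9) 
(.lf (nat_lit 474479) (.g (nat_lit 2780) (.e (nat_lit 1252) (nat_lit 92) (.e (nat_lit 98334) (nat_lit 18) (.e (nat_lit 164398) (nat_lit 256) (.e (nat_lit 57379) (nat_lit 3) (.e (nat_lit 98366) (nat_lit 27) .nil))))) (.g (nat_lit 0) (.e (nat_lit 95678) (nat_lit 0) .nil) .nil))) 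
(.lf (nat_lit 474991) (.g (nat_lit 1887) (.e (nat_lit 1361) (nat_lit 102) (.e (nat_lit 286735) (nat_lit 3) (.e (nat_lit 98359) (nat_lit 26) (.e (nat_lit 426216) (nat_lit 9) .nil)))) (.g (nat_lit 0) (.e (nat_lit 96986) (nat_lit 0) .nil) .nil))))) (.nd (nat_lit 8) (.nd (nat_lit 9) 
(.lf (nat_lit 474351) (.g (nat_lit 3979) (.e (nat_lit 1246) (nat_lit 92) (.e (nat_lit 98373) (nat_lit 29) (.e (nat_lit 450588) (nat_lit 10) (.e (nat_lit 573469) (nat_lit 11) (.e (nat_lit 16388) (nat_lit 0) .nil))))) (.g (nat_lit 0) (.e (nat_lit 95541) (nat_lit 0) .nil) .nil))) 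
(.lf (nat_lit 474863) (.g (nat_lit 456) (.e (nat_lit 7936) (nat_lit 104) (.e (nat_lit 303119) (nat_lit 3) (.e (nat_lit 204846) (nat_lit 24) .nil))) (.g (nat_lit 0) (.e (nat_lit 96522) (nat_lit 0) .nil) .nil)))) (.nd (nat_lit 9) 
(.lf (nat_lit 474607) (.g (nat_lit 2298) (.e (nat_lit 1255) (nat_lit 92) (.e (nat_lit 98334) (nat_lit 18) (.e (nat_lit 164397) (nat_lit 256) (.e (nat_lit 57372) (nat_lit 2) (.e (nat_lit 90172) (nat_lit 14) .nil))))) (.g (nat_lit 0) (.e (nat_lit 95848) (nat_lit 0) .nil) .nil))) 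
(.lf (nat_lit 475119) (.g (nat_lit 2807) (.e (nat_lit 1425) (nat_lit 108) (.e (nat_lit 336434) (nat_lit 30) (.e (nat_lit 450564) (nat_lit 0) (.e (nat_lit 5548) (nat_lit 306) (.e (nat_lit 2638) (nat_lit 165) (.e (nat_lit 180278) (nat_lit 32) .nil)))))) (.g (nat_lit 1) (.e (nat_lit 97281) (nat_lit 0) .nil) .nil)))))))) 
(.nd (nat_lit 5) (.nd (nat_lit 6) (.nd (nat_lit 7) (.nd (nat_lit 8) (.nd (nat_lit 9) 
(.lf (nat_lit 474143) (.g (nat_lit 2246) (.e (nat_lit 1237) (nat_lit 91) (.e (nat_lit 90170) (nat_lit 13) (.e (nat_lit 172106) (nat_lit 10) (.e (nat_lit 434244) (nat_lit 28) (.e (nat_lit 573450) (nat_lit 9) (.e (nat_lit 450) (nat_lit 33) (.e (nat_lit 442112) (nat_lit 0) .nil))))))) (.g (nat_lit 1) (.e (nat_lit 95319) (nat_lit 0) .nil) .nil))) 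
(.lf (nat_lit 474655) (.g (nat_lit 3010) (.e (nat_lit 1256) (nat_lit 92) (.e (nat_lit 98333) (nat_lit 18) (.e (nat_lit 164403) (nat_lit 256) (.e (nat_lit 57373) (nat_lit 2) (.e (nat_lit 90174) (nat_lit 14) .nil))))) (.g (nat_lit 0) (.e (nat_lit 95934) (nat_lit 0) .nil) .nil)))) (.nd (nat_lit 9) 
(.lf (nat_lit 474399) (.g (nat_lit 3377) (.e (nat_lit 1250) (nat_lit 92) (.e (nat_lit 98367) (nat_lit 27) (.e (nat_lit 434244) (nat_lit 28) (.e (nat_lit 573451) (nat_lit 9) (.e (nat_lit 1449) (nat_lit 108) .nil))))) (.g (nat_lit 0) (.e (nat_lit 95590) (nat_lit 0) .nil) .nil))) 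
(.lf (nat_lit 474911) (.g (nat_lit 4292) (.e (nat_lit 1347) (nat_lit 102) (.e (nat_lit 286733) (nat_lit 2) (.e (nat_lit 90170) (nat_lit 13) (.e (nat_lit 172113) (nat_lit 10) (.e (nat_lit 434231) (nat_lit 23) .nil))))) (.g (nat_lit 0) (.e (nat_lit 96742) (nat_lit 0) .nil) .nil))))) (.nd (nat_lit 8) (.nd (nat_lit 9) 
(.lf (nat_lit 474271) (.g (nat_lit 3142) (.e (nat_lit 1239) (nat_lit 91) (.e (nat_lit 90170) (nat_lit 13) (.e (nat_lit 172113) (nat_lit 10) (.e (nat_lit 434247) (nat_lit 28) (.e (nat_lit 573456) (nat_lit 9) (.e (nat_lit 428) (nat_lit 32) (.e (nat_lit 425987) (nat_lit 0) (.e (nat_lit 7489) (nat_lit 402) .nil)))))))) (.g (nat_lit 1) (.e (nat_lit 95454) (nat_lit 0) .nil) .nil))) 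
(.lf (nat_lit 474783) (.g (nat_lit 2489) (.e (nat_lit 1374) (nat_lit 104) (.e (nat_lit 303119) (nat_lit 3) (.e (nat_lit 204846) (nat_lit 24) (.e (nat_lit 319500) (nat_lit 10) .nil)))) (.g (nat_lit 0) (.e (nat_lit 96262) (nat_lit 0) .nil) .nil)))) (.nd (nat_lit 9) 
(.lf (nat_lit 474527) (.g (nat_lit 3538) (.e (nat_lit 1253) (nat_lit 92) (.e (nat_lit 98372) (nat_lit 29) (.e (nat_lit 450588) (nat_lit 10) (.e (nat_lit 573471) (nat_lit 11) (.e (nat_lit 16396) (nat_lit 0) .nil))))) (.g (nat_lit 0) (.e (nat_lit 95748) (nat_lit 0) .nil) .nil))) 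
(.lf (nat_lit 475039) (.g (nat_lit 684) (.e (nat_lit 1401) (nat_lit 106) (.e (nat_lit 319531) (nat_lit 16) (.e (nat_lit 286770) (nat_lit 28) .nil))) (.g (nat_lit 0) (.e (nat_lit 97120) (nat_lit 0) .nil) .nil)))))) (.nd (nat_lit 7) (.nd (nat_lit 8) (.nd (nat_lit 9) 
(.lf (nat_lit 474207) (.g (nat_lit 3486) (.e (nat_lit 1239) (nat_lit 91) (.e (nat_lit 90170) (nat_lit 13) (.e (nat_lit 172106) (nat_lit 10) (.e (nat_lit 434244) (nat_lit 28) (.e (nat_lit 573451) (nat_lit 9) (.e (nat_lit 7936) (nat_lit 33) (.e (nat_lit 442112) (nat_lit 0) .nil))))))) (.g (nat_lit 1) (.e (nat_lit 95390) (nat_lit 0) .nil) .nil))) 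
(.lf (nat_lit 474719) (.g (nat_lit 3969) (.e (nat_lit 1256) (nat_lit 92) (.e (nat_lit 98373) (nat_lit 29) (.e (nat_lit 450588) (nat_lit 10) (.e (nat_lit 573452) (nat_lit 9) (.e (nat_lit 430) (nat_lit 32) (.e (nat_lit 426011) (nat_lit 0) (.e (nat_lit 7490) (nat_lit 402) .nil))))))) (.g (nat_lit 1) (.e (nat_lit 96008) (nat_lit 0) .nil) .nil)))) (.nd (nat_lit 9) 
(.lf (nat_lit 474463) (.g (nat_lit 2077) (.e (nat_lit 1252) (nat_lit 92) (.e (nat_lit 98333) (nat_lit 18) (.e (nat_lit 164399) (nat_lit 256) (.e (nat_lit 57372) (nat_lit 2) (.e (nat_lit 90167) (nat_lit 13) .nil))))) (.g (nat_lit 0) (.e (nat_lit 95661) (nat_lit 0) .nil) .nil))) 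
(.lf (nat_lit 474975) (.g (nat_lit 3258) (.e (nat_lit 1359) (nat_lit 102) (.e (nat_lit 286733) (nat_lit 2) (.e (nat_lit 90170) (nat_lit 13) (.e (nat_lit 172115) (nat_lit 10) .nil)))) (.g (nat_lit 0) (.e (nat_lit 96922) (nat_lit 0) .nil) .nil))))) (.nd (nat_lit 8) (.nd (nat_lit 9) 
(.lf (nat_lit 474335) (.g (nat_lit 2424) (.e (nat_lit 1243) (nat_lit 92) (.e (nat_lit 98333) (nat_lit 18) (.e (nat_lit 164399) (nat_lit 256) (.e (nat_lit 57373) (nat_lit 2) (.e (nat_lit 90174) (nat_lit 14) .nil))))) (.g (nat_lit 0) (.e (nat_lit 95525) (nat_lit 0) .nil) .nil))) 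
(.lf (nat_lit 474847) (.g (nat_lit 2510) (.e (nat_lit 1376) (nat_lit 104) (.e (nat_lit 303119) (nat_lit 3) (.e (nat_lit 204884) (nat_lit 33) (.e (nat_lit 401448) (nat_lit 10) (.e (nat_lit 434231) (nat_lit 23) .nil))))) (.g (nat_lit 0) (.e (nat_lit 96421) (nat_lit 0) .nil) .nil)))) (.nd (nat_lit 9) 
(.lf (nat_lit 474591) (.g (nat_lit 2717) (.e (nat_lit 1254) (nat_lit 92) (.e (nat_lit 98334) (nat_lit 18) (.e (nat_lit 164398) (nat_lit 256) (.e (nat_lit 57378) (nat_lit 3) (.e (nat_lit 98367) (nat_lit 27) .nil))))) (.g (nat_lit 0) (.e (nat_lit 95814) (nat_lit 0) .nil) .nil))) 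
(.lf (nat_lit 475103) (.g (nat_lit 917) (.e (nat_lit 1425) (nat_lit 108) (.e (nat_lit 336421) (nat_lit 28) (.e (nat_lit 434188) (nat_lit 13) (.e (nat_lit 2789) (nat_lit 179) (.e (nat_lit 294973) (nat_lit 28) (.e (nat_lit 434180) (nat_lit 0) .nil)))))) (.g (nat_lit 1) (.e (nat_lit 97258) (nat_lit 0) .nil) .nil))))))) (.nd (nat_lit 6) (.nd (nat_lit 7) (.nd (nat_lit 8) (.nd (nat_lit 9) 
(.lf (nat_lit 474175) (.g (nat_lit 3081) (.e (nat_lit 1239) (nat_lit 91) (.e (nat_lit 90170) (nat_lit 13) (.e (nat_lit 172106) (nat_lit 10) (.e (nat_lit 434231) (nat_lit 23) (.e (nat_lit 532529) (nat_lit 9) (.e (nat_lit 336257) (nat_lit 15) (.e (nat_lit 2402) (nat_lit 157) (.e (nat_lit 6848) (nat_lit 371) (.e (nat_lit 999) (nat_lit 81) .nil))))))))) (.g (nat_lit 1) (.e (nat_lit 95358) (nat_lit 0) .nil) .nil))) 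
(.lf (nat_lit 474687) (.g (nat_lit 2258) (.e (nat_lit 1256) (nat_lit 92) (.e (nat_lit 98367) (nat_lit 27) (.e (nat_lit 434247) (nat_lit 28) (.e (nat_lit 573485) (nat_lit 13) (.e (nat_lit 65569) (nat_lit 3) .nil))))) (.g (nat_lit 0) (.e (nat_lit 95975) (nat_lit 0) .nil) .nil)))) (.nd (nat_lit 9) 
(.lf (nat_lit 474431) (.g (nat_lit 2780) (.e (nat_lit 1250) (nat_lit 92) (.e (nat_lit 98373) (nat_lit 29) (.e (nat_lit 450588) (nat_lit 10) (.e (nat_lit 573452) (nat_lit 9) (.e (nat_lit 7936) (nat_lit 33) (.e (nat_lit 442112) (nat_lit 0) .nil)))))) (.g (nat_lit 1) (.e (nat_lit 95624) (nat_lit 0) .nil) .nil))) 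
(.lf (nat_lit 474943) (.g (nat_lit 752) (.e (nat_lit 1349) (nat_lit 102) (.e (nat_lit 286735) (nat_lit 3) (.e (nat_lit 98354) (nat_lit 26) .nil))) (.g (nat_lit 0) (.e (nat_lit 96839) (nat_lit 0) .nil) .nil))))) (.nd (nat_lit 8) (.nd (nat_lit 9) 
(.lf (nat_lit 474303) (.g (nat_lit 3911) (.e (nat_lit 1239) (nat_lit 91) (.e (nat_lit 90170) (nat_lit 13) (.e (nat_lit 172113) (nat_lit 10) (.e (nat_lit 434248) (nat_lit 28) (.e (nat_lit 573452) (nat_lit 9) (.e (nat_lit 365) (nat_lit 31) (.e (nat_lit 417793) (nat_lit 0) (.e (nat_lit 5271) (nat_lit 298) .nil)))))))) (.g (nat_lit 1) (.e (nat_lit 95486) (nat_lit 0) .nil) .nil))) 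
(.lf (nat_lit 474815) (.g (nat_lit 1881) (.e (nat_lit 1374) (nat_lit 104) (.e (nat_lit 303147) (nat_lit 15) (.e (nat_lit 1858) (nat_lit 124) (.e (nat_lit 557107) (nat_lit 15) .nil)))) (.g (nat_lit 0) (.e (nat_lit 96338) (nat_lit 0) .nil) .nil)))) (.nd (nat_lit 9) 
(.lf (nat_lit 474559) (.g (nat_lit 3689) (.e (nat_lit 1253) (nat_lit 92) (.e (nat_lit 98373) (nat_lit 29) (.e (nat_lit 450588) (nat_lit 10) (.e (nat_lit 573470) (nat_lit 11) (.e (nat_lit 16388) (nat_lit 0) .nil))))) (.g (nat_lit 0) (.e (nat_lit 95780) (nat_lit 0) .nil) .nil))) 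
(.lf (nat_lit 475071) (.g (nat_lit 1627) (.e (nat_lit 1415) (nat_lit 108) (.e (nat_lit 336456) (nat_lit 34) (.e (nat_lit 483383) (nat_lit 23) (.e (nat_lit 336019) (nat_lit 3) .nil)))) (.g (nat_lit 0) (.e (nat_lit 97183) (nat_lit 0) .nil) .nil)))))) (.nd (nat_lit 7) (.nd (nat_lit 8) (.nd (nat_lit 9) 
(.lf (nat_lit 474239) (.g (nat_lit 2674) (.e (nat_lit 1239) (nat_lit 91) (.e (nat_lit 90170) (nat_lit 13) (.e (nat_lit 172113) (nat_lit 10) (.e (nat_lit 434245) (nat_lit 28) (.e (nat_lit 573448) (nat_lit 9) (.e (nat_lit 473) (nat_lit 36) (.e (nat_lit 466688) (nat_lit 0) .nil))))))) (.g (nat_lit 1) (.e (nat_lit 95422) (nat_lit 0) .nil) .nil))) 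
(.lf (nat_lit 474751) (.g (nat_lit 2508) (.e (nat_lit 1278) (nat_lit 94) (.e (nat_lit 114698) (nat_lit 11) (.e (nat_lit 426139) (nat_lit 3) (.e (nat_lit 204869) (nat_lit 29) .nil)))) (.g (nat_lit 0) (.e (nat_lit 96066) (nat_lit 0) .nil) .nil)))) (.nd (nat_lit 9) 
(.lf (nat_lit 474495) (.g (nat_lit 907) (.e (nat_lit 1252) (nat_lit 92) (.e (nat_lit 98373) (nat_lit 29) (.e (nat_lit 458496) (nat_lit 0) .nil))) (.g (nat_lit 0) (.e (nat_lit 95702) (nat_lit 0) .nil) .nil))) 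
(.lf (nat_lit 475007) (.g (nat_lit 2170) (.e (nat_lit 7936) (nat_lit 102) (.e (nat_lit 286748) (nat_lit 9) (.e (nat_lit 336295) (nat_lit 15) (.e (nat_lit 3305) (nat_lit 202) (.e (nat_lit 573493) (nat_lit 15) .nil))))) (.g (nat_lit 0) (.e (nat_lit 97010) (nat_lit 0) .nil) .nil))))) (.nd (nat_lit 8) (.nd (nat_lit 9) 
(.lf (nat_lit 474367) (.g (nat_lit 3867) (.e (nat_lit 1250) (nat_lit 92) (.e (nat_lit 98349) (nat_lit 24) (.e (nat_lit 409645) (nat_lit 18) (.e (nat_lit 303119) (nat_lit 3) (.e (nat_lit 204846) (nat_lit 24) (.e (nat_lit 319490) (nat_lit 0) (.e (nat_lit 5293) (nat_lit 298) .nil))))))) (.g (nat_lit 1) (.e (nat_lit 95558) (nat_lit 0) .nil) .nil))) 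
(.lf (nat_lit 474879) (.g (nat_lit 1577) (.e (nat_lit 1384) (nat_lit 105) (.e (nat_lit 311357) (nat_lit 28) (.e (nat_lit 344068) (nat_lit 0) (.e (nat_lit 3090) (nat_lit 191) (.e (nat_lit 483354) (nat_lit 17) (.e (nat_lit 6136) (nat_lit 332) .nil)))))) (.g (nat_lit 1) (.e (nat_lit 96658) (nat_lit 0) .nil) .nil)))) (.nd (nat_lit 9) 
(.lf (nat_lit 474623) (.g (nat_lit 4358) (.e (nat_lit 1255) (nat_lit 92) (.e (nat_lit 98357) (nat_lit 26) (.e (nat_lit 426436) (nat_lit 18) (.e (nat_lit 98335) (nat_lit 18) (.e (nat_lit 164327) (nat_lit 230) (.e (nat_lit 163875) (nat_lit 3) (.e (nat_lit 204834) (nat_lit 19) (.e (nat_lit 106517) (nat_lit 9) .nil)))))))) (.g (nat_lit 1) (.e (nat_lit 95876) (nat_lit 0) .nil) .nil))) 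
(.lf (nat_lit 475135) (.g (nat_lit 1623) (.e (nat_lit 1426) (nat_lit 108) (.e (nat_lit 336430) (nat_lit 29) (.e (nat_lit 442378) (nat_lit 0) (.e (nat_lit 2058) (nat_lit 142) (.e (nat_lit 704595) (nat_lit 5) (.e (nat_lit 180277) (nat_lit 32) .nil)))))) (.g (nat_lit 1) (.e (nat_lit 97313) (nat_lit 0) .nil) .nil)))))))))))))

noncomputable def tv5524 : DT := (.nd (nat_lit 0) (.nd (nat_lit 1) (.nd (nat_lit 2) (.nd (nat_lit 3) (.nd (nat_lit 4) (.nd (nat_lit 5) (.nd (nat_lit 6) (.nd (nat_lit 7) (.nd (nat_lit 8) (.nd (nat_lit 9) 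
(.lf (nat_lit 475136) (.g (nat_lit 1896) (.e (nat_lit 1426) (nat_lit 108) (.e (nat_lit 336430) (nat_lit 29) (.e (nat_lit 442378) (nat_lit 0) (.e (nat_lit 2058) (nat_lit 142) (.e (nat_lit 704595) (nat_lit 5) (.e (nat_lit 180278) (nat_lit 32) .nil)))))) (.g (nat_lit 1) (.e (nat_lit 97314) (nat_lit 0) .nil) .nil))) 
(.lf (nat_lit 475648) (.g (nat_lit 2991) (.e (nat_lit 1778) (nat_lit 119) (.e (nat_lit 516139) (nat_lit 7) (.e (nat_lit 409646) (nat_lit 18) (.e (nat_lit 303117) (nat_lit 2) (.e (nat_lit 196665) (nat_lit 13) .nil))))) (.g (nat_lit 0) (.e (nat_lit 99378) (nat_lit 0) .nil) .nil)))) (.nd (nat_lit 9) 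
(.lf (nat_lit 475392) (.g (nat_lit 1643) (.e (nat_lit 1636) (nat_lit 114) (.e (nat_lit 385074) (nat_lit 31) (.e (nat_lit 573485) (nat_lit 13) (.e (nat_lit 65619) (nat_lit 10) (.e (nat_lit 344117) (nat_lit 21) .nil))))) (.g (nat_lit 0) (.e (nat_lit 98294) (nat_lit 0) .nil) .nil))) 
(.lf (nat_lit 475904) (.g (nat_lit 3715) (.e (nat_lit 1788) (nat_lit 119) (.e (nat_lit 516138) (nat_lit 7) (.e (nat_lit 409645) (nat_lit 18) (.e (nat_lit 303117) (nat_lit 2) (.e (nat_lit 196674) (nat_lit 15) (.e (nat_lit 81928) (nat_lit 20) .nil)))))) (.g (nat_lit 1) (.e (nat_lit 99791) (nat_lit 0) .nil) .nil))))) (.nd (nat_lit 8) (.nd (nat_lit 9) 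
(.lf (nat_lit 475264) (.g (nat_lit 3913) (.e (nat_lit 1454) (nat_lit 108) (.e (nat_lit 336295) (nat_lit 15) (.e (nat_lit 3632) (nat_lit 227) (.e (nat_lit 778323) (nat_lit 5) (.e (nat_lit 73781) (nat_lit 32) (.e (nat_lit 3067) (nat_lit 190) (.e (nat_lit 483072) (nat_lit 8) .nil))))))) (.g (nat_lit 1) (.e (nat_lit 97690) (nat_lit 0) .nil) .nil))) 
(.lf (nat_lit 475776) (.g (nat_lit 545) (.e (nat_lit 1786) (nat_lit 119) (.e (nat_lit 516125) (nat_lit 2) (.e (nat_lit 213030) (nat_lit 11) (.e (nat_lit 24608) (nat_lit 3) .nil)))) (.g (nat_lit 0) (.e (nat_lit 99584) (nat_lit 0) .nil) .nil)))) (.nd (nat_lit 9) 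
(.lf (nat_lit 475520) (.g (nat_lit 2276) (.e (nat_lit 1673) (nat_lit 116) (.e (nat_lit 401446) (nat_lit 10) (.e (nat_lit 434238) (nat_lit 25) (.e (nat_lit 548898) (nat_lit 14) (.e (nat_lit 3022) (nat_lit 187) .nil))))) (.g (nat_lit 0) (.e (nat_lit 98859) (nat_lit 0) .nil) .nil))) 
(.lf (nat_lit 476032) (.g (nat_lit 4290) (.e (nat_lit 1788) (nat_lit 119) (.e (nat_lit 516151) (nat_lit 9) (.e (nat_lit 426285) (nat_lit 10) (.e (nat_lit 434248) (nat_lit 28) (.e (nat_lit 573471) (nat_lit 11) (.e (nat_lit 16473) (nat_lit 14) (.e (nat_lit 491526) (nat_lit 0) .nil))))))) (.g (nat_lit 1) (.e (nat_lit 99941) (nat_lit 0) .nil) .nil)))))) 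
(.nd (nat_lit 7) (.nd (nat_lit 8) (.nd (nat_lit 9) 
(.lf (nat_lit 475200) (.g (nat_lit 2058) (.e (nat_lit 1428) (nat_lit 108) (.e (nat_lit 336432) (nat_lit 30) (.e (nat_lit 450565) (nat_lit 0) (.e (nat_lit 5548) (nat_lit 306) (.e (nat_lit 2639) (nat_lit 165) (.e (nat_lit 180278) (nat_lit 32) .nil)))))) (.g (nat_lit 1) (.e (nat_lit 97529) (nat_lit 0) .nil) .nil))) 
(.lf (nat_lit 475712) (.g (nat_lit 5350) (.e (nat_lit 1781) (nat_lit 119) (.e (nat_lit 516166) (nat_lit 12) (.e (nat_lit 450587) (nat_lit 10) (.e (nat_lit 573473) (nat_lit 12) .nil)))) (.g (nat_lit 0) (.e (nat_lit 99463) (nat_lit 0) .nil) .nil)))) (.nd (nat_lit 9) 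
(.lf (nat_lit 475456) (.g (nat_lit 1287) (.e (nat_lit 1659) (nat_lit 115) (.e (nat_lit 393282) (nat_lit 24) (.e (nat_lit 434209) (nat_lit 18) (.e (nat_lit 5547) (nat_lit 306) .nil)))) (.g (nat_lit 0) (.e (nat_lit 98490) (nat_lit 0) .nil) .nil))) 
(.lf (nat_lit 475968) (.g (nat_lit 2646) (.e (nat_lit 1788) (nat_lit 119) (.e (nat_lit 516139) (nat_lit 7) (.e (nat_lit 409648) (nat_lit 18) (.e (nat_lit 303117) (nat_lit 2) (.e (nat_lit 196666) (nat_lit 13) (.e (nat_lit 65596) (nat_lit 9) (.e (nat_lit 335936) (nat_lit 0) .nil))))))) (.g (nat_lit 1) (.e (nat_lit 99864) (nat_lit 0) .nil) .nil))))) (.nd (nat_lit 8) (.nd (nat_lit 9) 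
(.lf (nat_lit 475328) (.g (nat_lit 750) (.e (nat_lit 1586) (nat_lit 111) (.e (nat_lit 360451) (nat_lit 0) (.e (nat_lit 4235) (nat_lit 251) (.e (nat_lit 7936) (nat_lit 166) .nil)))) (.g (nat_lit 0) (.e (nat_lit 98130) (nat_lit 0) .nil) .nil))) 
(.lf (nat_lit 475840) (.g (nat_lit 5175) (.e (nat_lit 1787) (nat_lit 119) (.e (nat_lit 516166) (nat_lit 12) (.e (nat_lit 450587) (nat_lit 10) (.e (nat_lit 573477) (nat_lit 12) (.e (nat_lit 57575) (nat_lit 55) .nil))))) (.g (nat_lit 0) (.e (nat_lit 99686) (nat_lit 0) .nil) .nil)))) (.nd (nat_lit 9) 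
(.lf (nat_lit 475584) (.g (nat_lit 3178) (.e (nat_lit 1676) (nat_lit 116) (.e (nat_lit 401451) (nat_lit 12) (.e (nat_lit 475185) (nat_lit 29) (.e (nat_lit 557107) (nat_lit 15) .nil)))) (.g (nat_lit 0) (.e (nat_lit 98978) (nat_lit 0) .nil) .nil))) 
(.lf (nat_lit 476096) (.g (nat_lit 3460) (.e (nat_lit 1788) (nat_lit 119) (.e (nat_lit 516166) (nat_lit 12) (.e (nat_lit 450588) (nat_lit 10) (.e (nat_lit 573478) (nat_lit 12) .nil)))) (.g (nat_lit 0) (.e (nat_lit 100020) (nat_lit 0) .nil) .nil))))))) (.nd (nat_lit 6) (.nd (nat_lit 7) (.nd (nat_lit 8) (.nd (nat_lit 9) 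
(.lf (nat_lit 475168) (.g (nat_lit 3234) (.e (nat_lit 1426) (nat_lit 108) (.e (nat_lit 336443) (nat_lit 32) (.e (nat_lit 466969) (nat_lit 21) (.e (nat_lit 164347) (nat_lit 240) (.e (nat_lit 2638) (nat_lit 165) (.e (nat_lit 180278) (nat_lit 32) .nil)))))) (.g (nat_lit 1) (.e (nat_lit 97355) (nat_lit 0) .nil) .nil))) 
(.lf (nat_lit 475680) (.g (nat_lit 2411) (.e (nat_lit 1781) (nat_lit 119) (.e (nat_lit 516119) (nat_lit 1) (.e (nat_lit 164403) (nat_lit 256) (.e (nat_lit 57378) (nat_lit 3) (.e (nat_lit 98367) (nat_lit 27) .nil))))) (.g (nat_lit 0) (.e (nat_lit 99420) (nat_lit 0) .nil) .nil)))) (.nd (nat_lit 9) 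
(.lf (nat_lit 475424) (.g (nat_lit 3803) (.e (nat_lit 1642) (nat_lit 114) (.e (nat_lit 385074) (nat_lit 31) (.e (nat_lit 573493) (nat_lit 15) (.e (nat_lit 81953) (nat_lit 22) (.e (nat_lit 90133) (nat_lit 9) (.e (nat_lit 2400) (nat_lit 157) (.e (nat_lit 7489) (nat_lit 402) .nil))))))) (.g (nat_lit 1) (.e (nat_lit 98399) (nat_lit 0) .nil) .nil))) 
(.lf (nat_lit 475936) (.g (nat_lit 1567) (.e (nat_lit 1788) (nat_lit 119) (.e (nat_lit 516139) (nat_lit 7) (.e (nat_lit 409647) (nat_lit 18) (.e (nat_lit 303117) (nat_lit 2) .nil)))) (.g (nat_lit 0) (.e (nat_lit 99832) (nat_lit 0) .nil) .nil))))) (.nd (nat_lit 8) (.nd (nat_lit 9) 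
(.lf (nat_lit 475296) (.g (nat_lit 2394) (.e (nat_lit 1516) (nat_lit 108) (.e (nat_lit 336420) (nat_lit 28) (.e (nat_lit 434180) (nat_lit 0) (.e (nat_lit 1427) (nat_lit 108) (.e (nat_lit 336421) (nat_lit 28) (.e (nat_lit 434178) (nat_lit 0) .nil)))))) (.g (nat_lit 1) (.e (nat_lit 97918) (nat_lit 0) .nil) .nil))) 
(.lf (nat_lit 475808) (.g (nat_lit 1832) (.e (nat_lit 1784) (nat_lit 119) (.e (nat_lit 516139) (nat_lit 7) (.e (nat_lit 409646) (nat_lit 18) (.e (nat_lit 303117) (nat_lit 2) .nil)))) (.g (nat_lit 0) (.e (nat_lit 99642) (nat_lit 0) .nil) .nil)))) (.nd (nat_lit 9) 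
(.lf (nat_lit 475552) (.g (nat_lit 7172) (.e (nat_lit 1673) (nat_lit 116) (.e (nat_lit 401448) (nat_lit 10) (.e (nat_lit 434238) (nat_lit 25) (.e (nat_lit 548913) (nat_lit 18) (.e (nat_lit 172094) (nat_lit 9) (.e (nat_lit 426125) (nat_lit 2) (.e (nat_lit 196637) (nat_lit 9) .nil))))))) (.g (nat_lit 1) (.e (nat_lit 98894) (nat_lit 0) .nil) .nil))) 
(.lf (nat_lit 476064) (.g (nat_lit 1225) (.e (nat_lit 1788) (nat_lit 119) (.e (nat_lit 516165) (nat_lit 12) (.e (nat_lit 450586) (nat_lit 10) (.e (nat_lit 573475) (nat_lit 12) .nil)))) (.g (nat_lit 0) (.e (nat_lit 99988) (nat_lit 0) .nil) .nil)))))) (.nd (nat_lit 7) (.nd (nat_lit 8) (.nd (nat_lit 9) 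
(.lf (nat_lit 475232) (.g (nat_lit 1882) (.e (nat_lit 1448) (nat_lit 108) (.e (nat_lit 335997) (nat_lit 1) (.e (nat_lit 57857) (nat_lit 254) (.e (nat_lit 163908) (nat_lit 12) (.e (nat_lit 426003) (nat_lit 0) (.e (nat_lit 7107) (nat_lit 380) (.e (nat_lit 164281) (nat_lit 222) (.e (nat_lit 57884) (nat_lit 270) .nil)))))))) (.g (nat_lit 1) (.e (nat_lit 97601) (nat_lit 0) .nil) .nil))) 
(.lf (nat_lit 475744) (.g (nat_lit 1889) (.e (nat_lit 1782) (nat_lit 119) (.e (nat_lit 516127) (nat_lit 2) (.e (nat_lit 213032) (nat_lit 11) (.e (nat_lit 24608) (nat_lit 3) (.e (nat_lit 98381) (nat_lit 31) (.e (nat_lit 466945) (nat_lit 0) .nil)))))) (.g (nat_lit 1) (.e (nat_lit 99514) (nat_lit 0) .nil) .nil)))) (.nd (nat_lit 9) 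
(.lf (nat_lit 475488) (.g (nat_lit 3794) (.e (nat_lit 1669) (nat_lit 116) (.e (nat_lit 401451) (nat_lit 12) (.e (nat_lit 475185) (nat_lit 29) (.e (nat_lit 557098) (nat_lit 13) .nil)))) (.g (nat_lit 0) (.e (nat_lit 98753) (nat_lit 0) .nil) .nil))) 
(.lf (nat_lit 476000) (.g (nat_lit 4264) (.e (nat_lit 1788) (nat_lit 119) (.e (nat_lit 516139) (nat_lit 7) (.e (nat_lit 409649) (nat_lit 18) (.e (nat_lit 303117) (nat_lit 2) (.e (nat_lit 196666) (nat_lit 13) (.e (nat_lit 65592) (nat_lit 9) (.e (nat_lit 335923) (nat_lit 0) .nil))))))) (.g (nat_lit 1) (.e (nat_lit 99901) (nat_lit 0) .nil) .nil))))) (.nd (nat_lit 8) (.nd (nat_lit 9) 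
(.lf (nat_lit 475360) (.g (nat_lit 3842) (.e (nat_lit 1587) (nat_lit 111) (.e (nat_lit 360475) (nat_lit 8) (.e (nat_lit 557091) (nat_lit 12) (.e (nat_lit 164022) (nat_lit 46) (.e (nat_lit 704629) (nat_lit 9) (.e (nat_lit 452) (nat_lit 33) (.e (nat_lit 434219) (nat_lit 19) (.e (nat_lit 499984) (nat_lit 14) .nil)))))))) (.g (nat_lit 1) (.e (nat_lit 98173) (nat_lit 0) .nil) .nil))) 
(.lf (nat_lit 475872) (.g (nat_lit 4757) (.e (nat_lit 1788) (nat_lit 119) (.e (nat_lit 516115) (nat_lit 1) (.e (nat_lit 164325) (nat_lit 230) (.e (nat_lit 163905) (nat_lit 12) (.e (nat_lit 426566) (nat_lit 34) (.e (nat_lit 393273) (nat_lit 23) (.e (nat_lit 426402) (nat_lit 15) .nil))))))) (.g (nat_lit 1) (.e (nat_lit 99731) (nat_lit 0) .nil) .nil)))) (.nd (nat_lit 9) 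
(.lf (nat_lit 475616) (.g (nat_lit 2181) (.e (nat_lit 7936) (nat_lit 121) (.e (nat_lit 532544) (nat_lit 10) (.e (nat_lit 344129) (nat_lit 26) (.e (nat_lit 557097) (nat_lit 13) (.e (nat_lit 172064) (nat_lit 2) .nil))))) (.g (nat_lit 0) (.e (nat_lit 99280) (nat_lit 0) .nil) .nil))) 
(.lf (nat_lit 476128) (.g (nat_lit 2594) (.e (nat_lit 1791) (nat_lit 119) (.e (nat_lit 516115) (nat_lit 1) (.e (nat_lit 164399) (nat_lit 256) (.e (nat_lit 57377) (nat_lit 3) (.e (nat_lit 98357) (nat_lit 26) .nil))))) (.g (nat_lit 0) (.e (nat_lit 100080) (nat_lit 0) .nil) .nil)))))))) (.nd (nat_lit 5) (.nd (nat_lit 6) (.nd (nat_lit 7) (.nd (nat_lit 8) (.nd (nat_lit 9) 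
(.lf (nat_lit 475152) (.g (nat_lit 2194) (.e (nat_lit 1426) (nat_lit 108) (.e (nat_lit 336430) (nat_lit 29) (.e (nat_lit 442421) (nat_lit 21) (.e (nat_lit 164346) (nat_lit 240) (.e (nat_lit 2639) (nat_lit 165) (.e (nat_lit 180277) (nat_lit 32) .nil)))))) (.g (nat_lit 1) (.e (nat_lit 97337) (nat_lit 0) .nil) .nil))) 
(.lf (nat_lit 475664) (.g (nat_lit 2093) (.e (nat_lit 1781) (nat_lit 119) (.e (nat_lit 516115) (nat_lit 1) (.e (nat_lit 164399) (nat_lit 256) (.e (nat_lit 57372) (nat_lit 2) (.e (nat_lit 90174) (nat_lit 14) .nil))))) (.g (nat_lit 0) (.e (nat_lit 99399) (nat_lit 0) .nil) .nil)))) (.nd (nat_lit 9) 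
(.lf (nat_lit 475408) (.g (nat_lit 2242) (.e (nat_lit 1638) (nat_lit 114) (.e (nat_lit 385074) (nat_lit 31) (.e (nat_lit 573482) (nat_lit 13) (.e (nat_lit 65604) (nat_lit 9) (.e (nat_lit 336028) (nat_lit 3) .nil))))) (.g (nat_lit 0) (.e (nat_lit 98323) (nat_lit 0) .nil) .nil))) 
(.lf (nat_lit 475920) (.g (nat_lit 1693) (.e (nat_lit 1788) (nat_lit 119) (.e (nat_lit 516139) (nat_lit 7) (.e (nat_lit 409623) (nat_lit 10) (.e (nat_lit 5664) (nat_lit 312) (.e (nat_lit 2679) (nat_lit 168) .nil))))) (.g (nat_lit 0) (.e (nat_lit 99813) (nat_lit 0) .nil) .nil))))) (.nd (nat_lit 8) (.nd (nat_lit 9) 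
(.lf (nat_lit 475280) (.g (nat_lit 4270) (.e (nat_lit 1512) (nat_lit 108) (.e (nat_lit 335872) (nat_lit 0) (.e (nat_lit 6711) (nat_lit 360) (.e (nat_lit 163962) (nat_lit 25) (.e (nat_lit 532535) (nat_lit 9) (.e (nat_lit 336226) (nat_lit 14) (.e (nat_lit 401425) (nat_lit 2) (.e (nat_lit 196628) (nat_lit 9) .nil)))))))) (.g (nat_lit 1) (.e (nat_lit 97720) (nat_lit 0) .nil) .nil))) 
(.lf (nat_lit 475792) (.g (nat_lit 3639) (.e (nat_lit 1784) (nat_lit 119) (.e (nat_lit 516115) (nat_lit 1) (.e (nat_lit 164325) (nat_lit 230) (.e (nat_lit 163904) (nat_lit 12) .nil)))) (.g (nat_lit 0) (.e (nat_lit 99611) (nat_lit 0) .nil) .nil)))) (.nd (nat_lit 9) 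
(.lf (nat_lit 475536) (.g (nat_lit 2321) (.e (nat_lit 1673) (nat_lit 116) (.e (nat_lit 401447) (nat_lit 10) (.e (nat_lit 434272) (nat_lit 38) (.e (nat_lit 655364) (nat_lit 0) (.e (nat_lit 3015) (nat_lit 187) (.e (nat_lit 450597) (nat_lit 17) (.e (nat_lit 663555) (nat_lit 0) .nil))))))) (.g (nat_lit 1) (.e (nat_lit 98876) (nat_lit 0) .nil) .nil))) 
(.lf (nat_lit 476048) (.g (nat_lit 2001) (.e (nat_lit 1788) (nat_lit 119) (.e (nat_lit 516151) (nat_lit 9) (.e (nat_lit 426286) (nat_lit 10) (.e (nat_lit 434247) (nat_lit 28) (.e (nat_lit 573470) (nat_lit 11) (.e (nat_lit 16473) (nat_lit 14) (.e (nat_lit 491526) (nat_lit 0) .nil))))))) (.g (nat_lit 1) (.e (nat_lit 99957) (nat_lit 0) .nil) .nil)))))) 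
(.nd (nat_lit 7) (.nd (nat_lit 8) (.nd (nat_lit 9) 
(.lf (nat_lit 475216) (.g (nat_lit 2175) (.e (nat_lit 1433) (nat_lit 108) (.e (nat_lit 336324) (nat_lit 18) (.e (nat_lit 204854) (nat_lit 26) (.e (nat_lit 336326) (nat_lit 18) (.e (nat_lit 204852) (nat_lit 26) .nil))))) (.g (nat_lit 0) (.e (nat_lit 97575) (nat_lit 0) .nil) .nil))) 
(.lf (nat_lit 475728) (.g (nat_lit 3183) (.e (nat_lit 1781) (nat_lit 119) (.e (nat_lit 516179) (nat_lit 15) (.e (nat_lit 475199) (nat_lit 40) (.e (nat_lit 704589) (nat_lit 3) (.e (nat_lit 163979) (nat_lit 30) (.e (nat_lit 573491) (nat_lit 15) (.e (nat_lit 81943) (nat_lit 20) .nil))))))) (.g (nat_lit 1) (.e (nat_lit 99483) (nat_lit 0) .nil) .nil)))) (.nd (nat_lit 9) 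
(.lf (nat_lit 475472) (.g (nat_lit 2742) (.e (nat_lit 1661) (nat_lit 115) (.e (nat_lit 393274) (nat_lit 23) (.e (nat_lit 426097) (nat_lit 1) (.e (nat_lit 164348) (nat_lit 240) (.e (nat_lit 2638) (nat_lit 165) (.e (nat_lit 180278) (nat_lit 32) .nil)))))) (.g (nat_lit 1) (.e (nat_lit 98578) (nat_lit 0) .nil) .nil))) 
(.lf (nat_lit 475984) (.g (nat_lit 4616) (.e (nat_lit 1788) (nat_lit 119) (.e (nat_lit 516139) (nat_lit 7) (.e (nat_lit 409648) (nat_lit 18) (.e (nat_lit 303118) (nat_lit 3) (.e (nat_lit 204866) (nat_lit 28) (.e (nat_lit 352301) (nat_lit 20) .nil)))))) (.g (nat_lit 1) (.e (nat_lit 99880) (nat_lit 0) .nil) .nil))))) (.nd (nat_lit 8) (.nd (nat_lit 9) 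
(.lf (nat_lit 475344) (.g (nat_lit 3393) (.e (nat_lit 1587) (nat_lit 111) (.e (nat_lit 360474) (nat_lit 8) (.e (nat_lit 557094) (nat_lit 12) (.e (nat_lit 164022) (nat_lit 46) (.e (nat_lit 704629) (nat_lit 9) (.e (nat_lit 452) (nat_lit 33) (.e (nat_lit 434219) (nat_lit 19) (.e (nat_lit 499981) (nat_lit 14) .nil)))))))) (.g (nat_lit 1) (.e (nat_lit 98157) (nat_lit 0) .nil) .nil))) 
(.lf (nat_lit 475856) (.g (nat_lit 2566) (.e (nat_lit 1790) (nat_lit 119) (.e (nat_lit 516119) (nat_lit 1) (.e (nat_lit 164403) (nat_lit 256) (.e (nat_lit 57378) (nat_lit 3) (.e (nat_lit 98376) (nat_lit 30) .nil))))) (.g (nat_lit 0) (.e (nat_lit 99704) (nat_lit 0) .nil) .nil)))) (.nd (nat_lit 9) 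
(.lf (nat_lit 475600) (.g (nat_lit 2042) (.e (nat_lit 1721) (nat_lit 117) (.e (nat_lit 499900) (nat_lit 7) (.e (nat_lit 24608) (nat_lit 3) (.e (nat_lit 98317) (nat_lit 9) (.e (nat_lit 336027) (nat_lit 3) .nil))))) (.g (nat_lit 0) (.e (nat_lit 99019) (nat_lit 0) .nil) .nil))) 
(.lf (nat_lit 476112) (.g (nat_lit 1649) (.e (nat_lit 1788) (nat_lit 119) (.e (nat_lit 516182) (nat_lit 15) (.e (nat_lit 475199) (nat_lit 40) (.e (nat_lit 704589) (nat_lit 3) (.e (nat_lit 163975) (nat_lit 30) (.e (nat_lit 573491) (nat_lit 15) (.e (nat_lit 81928) (nat_lit 20) .nil))))))) (.g (nat_lit 1) (.e (nat_lit 100051) (nat_lit 0) .nil) .nil))))))) 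
(.nd (nat_lit 6) (.nd (nat_lit 7) (.nd (nat_lit 8) (.nd (nat_lit 9) 
(.lf (nat_lit 475184) (.g (nat_lit 4171) (.e (nat_lit 1428) (nat_lit 108) (.e (nat_lit 336324) (nat_lit 18) (.e (nat_lit 204831) (nat_lit 18) (.e (nat_lit 57846) (nat_lit 252) .nil)))) (.g (nat_lit 0) (.e (nat_lit 97505) (nat_lit 0) .nil) .nil))) 
(.lf (nat_lit 475696) (.g (nat_lit 1828) (.e (nat_lit 1781) (nat_lit 119) (.e (nat_lit 516139) (nat_lit 7) (.e (nat_lit 409645) (nat_lit 18) (.e (nat_lit 303117) (nat_lit 2) .nil)))) (.g (nat_lit 0) (.e (nat_lit 99438) (nat_lit 0) .nil) .nil)))) (.nd (nat_lit 9) 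
(.lf (nat_lit 475440) (.g (nat_lit 988) (.e (nat_lit 1658) (nat_lit 115) (.e (nat_lit 393281) (nat_lit 23) (.e (nat_lit 426099) (nat_lit 1) (.e (nat_lit 164345) (nat_lit 240) (.e (nat_lit 2640) (nat_lit 165) .nil))))) (.g (nat_lit 0) (.e (nat_lit 98448) (nat_lit 0) .nil) .nil))) 
(.lf (nat_lit 475952) (.g (nat_lit 3270) (.e (nat_lit 1788) (nat_lit 119) (.e (nat_lit 516139) (nat_lit 7) (.e (nat_lit 409648) (nat_lit 18) (.e (nat_lit 303116) (nat_lit 2) (.e (nat_lit 196666) (nat_lit 13) (.e (nat_lit 65596) (nat_lit 9) (.e (nat_lit 335886) (nat_lit 0) .nil))))))) (.g (nat_lit 1) (.e (nat_lit 99848) (nat_lit 0) .nil) .nil))))) (.nd (nat_lit 8) (.nd (nat_lit 9) 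
(.lf (nat_lit 475312) (.g (nat_lit 1533) (.e (nat_lit 1559) (nat_lit 110) (.e (nat_lit 352262) (nat_lit 0) (.e (nat_lit 3632) (nat_lit 227) (.e (nat_lit 778326) (nat_lit 6) (.e (nat_lit 81947) (nat_lit 20) .nil))))) (.g (nat_lit 0) (.e (nat_lit 98055) (nat_lit 0) .nil) .nil))) 
(.lf (nat_lit 475824) (.g (nat_lit 7510) (.e (nat_lit 1785) (nat_lit 119) (.e (nat_lit 516166) (nat_lit 12) (.e (nat_lit 450588) (nat_lit 10) (.e (nat_lit 573474) (nat_lit 12) .nil)))) (.g (nat_lit 0) (.e (nat_lit 99667) (nat_lit 0) .nil) .nil)))) (.nd (nat_lit 9) 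
(.lf (nat_lit 475568) (.g (nat_lit 1159) (.e (nat_lit 1673) (nat_lit 116) (.e (nat_lit 401448) (nat_lit 10) (.e (nat_lit 434272) (nat_lit 38) (.e (nat_lit 655364) (nat_lit 0) .nil)))) (.g (nat_lit 0) (.e (nat_lit 98914) (nat_lit 0) .nil) .nil))) 
(.lf (nat_lit 476080) (.g (nat_lit 4566) (.e (nat_lit 1788) (nat_lit 119) (.e (nat_lit 516166) (nat_lit 12) (.e (nat_lit 450588) (nat_lit 10) (.e (nat_lit 573451) (nat_lit 9) (.e (nat_lit 396) (nat_lit 32) .nil))))) (.g (nat_lit 0) (.e (nat_lit 100004) (nat_lit 0) .nil) .nil)))))) (.nd (nat_lit 7) (.nd (nat_lit 8) (.nd (nat_lit 9) 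
(.lf (nat_lit 475248) (.g (nat_lit 4302) (.e (nat_lit 1454) (nat_lit 108) (.e (nat_lit 336013) (nat_lit 2) (.e (nat_lit 90170) (nat_lit 13) (.e (nat_lit 172113) (nat_lit 10) (.e (nat_lit 434245) (nat_lit 28) (.e (nat_lit 573474) (nat_lit 12) (.e (nat_lit 57569) (nat_lit 53) (.e (nat_lit 761867) (nat_lit 5) .nil)))))))) (.g (nat_lit 1) (.e (nat_lit 97642) (nat_lit 0) .nil) .nil))) 
(.lf (nat_lit 475760) (.g (nat_lit 1924) (.e (nat_lit 1783) (nat_lit 119) (.e (nat_lit 516175) (nat_lit 14) (.e (nat_lit 466977) (nat_lit 22) (.e (nat_lit 196681) (nat_lit 17) (.e (nat_lit 131089) (nat_lit 1) .nil))))) (.g (nat_lit 0) (.e (nat_lit 99540) (nat_lit 0) .nil) .nil)))) (.nd (nat_lit 9) 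
(.lf (nat_lit 475504) (.g (nat_lit 2417) (.e (nat_lit 1669) (nat_lit 116) (.e (nat_lit 401457) (nat_lit 13) (.e (nat_lit 483413) (nat_lit 27) (.e (nat_lit 401446) (nat_lit 10) (.e (nat_lit 434208) (nat_lit 18) .nil))))) (.g (nat_lit 0) (.e (nat_lit 98793) (nat_lit 0) .nil) .nil))) 
(.lf (nat_lit 476016) (.g (nat_lit 2673) (.e (nat_lit 1788) (nat_lit 119) (.e (nat_lit 516139) (nat_lit 7) (.e (nat_lit 409649) (nat_lit 18) (.e (nat_lit 303118) (nat_lit 3) (.e (nat_lit 204855) (nat_lit 26) (.e (nat_lit 336099) (nat_lit 9) (.e (nat_lit 335920) (nat_lit 0) .nil))))))) (.g (nat_lit 1) (.e (nat_lit 99917) (nat_lit 0) .nil) .nil))))) (.nd (nat_lit 8) (.nd (nat_lit 9) 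
(.lf (nat_lit 475376) (.g (nat_lit 2092) (.e (nat_lit 1626) (nat_lit 114) (.e (nat_lit 385074) (nat_lit 31) (.e (nat_lit 573485) (nat_lit 13) (.e (nat_lit 65619) (nat_lit 10) (.e (nat_lit 344117) (nat_lit 21) .nil))))) (.g (nat_lit 0) (.e (nat_lit 98225) (nat_lit 0) .nil) .nil))) 
(.lf (nat_lit 475888) (.g (nat_lit 2467) (.e (nat_lit 1788) (nat_lit 119) (.e (nat_lit 516117) (nat_lit 1) (.e (nat_lit 164329) (nat_lit 230) (.e (nat_lit 163941) (nat_lit 19) .nil)))) (.g (nat_lit 0) (.e (nat_lit 99762) (nat_lit 0) .nil) .nil)))) (.nd (nat_lit 9) 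
(.lf (nat_lit 475632) (.g (nat_lit 2346) (.e (nat_lit 7936) (nat_lit 121) (.e (nat_lit 532544) (nat_lit 10) (.e (nat_lit 344133) (nat_lit 26) (.e (nat_lit 557098) (nat_lit 13) (.e (nat_lit 172067) (nat_lit 3) .nil))))) (.g (nat_lit 0) (.e (nat_lit 99296) (nat_lit 0) .nil) .nil))) 
(.lf (nat_lit 476144) (.g (nat_lit 1946) (.e (nat_lit 1792) (nat_lit 119) (.e (nat_lit 516115) (nat_lit 1) (.e (nat_lit 164399) (nat_lit 256) (.e (nat_lit 57379) (nat_lit 3) (.e (nat_lit 98376) (nat_lit 30) .nil))))) (.g (nat_lit 0) (.e (nat_lit 100102) (nat_lit 0) .nil) .nil))))))))) (.nd (nat_lit 4) (.nd (nat_lit 5) (.nd (nat_lit 6) (.nd (nat_lit 7) (.nd (nat_lit 8) (.nd (nat_lit 9) 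
(.lf (nat_lit 475144) (.g (nat_lit 2353) (.e (nat_lit 1426) (nat_lit 108) (.e (nat_lit 336430) (nat_lit 29) (.e (nat_lit 442419) (nat_lit 21) (.e (nat_lit 164347) (nat_lit 240) (.e (nat_lit 2640) (nat_lit 165) (.e (nat_lit 180277) (nat_lit 32) .nil)))))) (.g (nat_lit 1) (.e (nat_lit 97329) (nat_lit 0) .nil) .nil))) 
(.lf (nat_lit 475656) (.g (nat_lit 6917) (.e (nat_lit 1778) (nat_lit 119) (.e (nat_lit 516166) (nat_lit 12) (.e (nat_lit 450588) (nat_lit 10) (.e (nat_lit 573477) (nat_lit 12) .nil)))) (.g (nat_lit 0) (.e (nat_lit 99386) (nat_lit 0) .nil) .nil)))) (.nd (nat_lit 9) 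
(.lf (nat_lit 475400) (.g (nat_lit 1845) (.e (nat_lit 1638) (nat_lit 114) (.e (nat_lit 385066) (nat_lit 26) (.e (nat_lit 532560) (nat_lit 14) (.e (nat_lit 376842) (nat_lit 11) (.e (nat_lit 426107) (nat_lit 1) .nil))))) (.g (nat_lit 0) (.e (nat_lit 98308) (nat_lit 0) .nil) .nil))) 
(.lf (nat_lit 475912) (.g (nat_lit 2930) (.e (nat_lit 1788) (nat_lit 119) (.e (nat_lit 516138) (nat_lit 7) (.e (nat_lit 409646) (nat_lit 18) (.e (nat_lit 303117) (nat_lit 2) (.e (nat_lit 196674) (nat_lit 15) (.e (nat_lit 81940) (nat_lit 20) .nil)))))) (.g (nat_lit 1) (.e (nat_lit 99802) (nat_lit 0) .nil) .nil))))) (.nd (nat_lit 8) (.nd (nat_lit 9) 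
(.lf (nat_lit 475272) (.g (nat_lit 1711) (.e (nat_lit 1471) (nat_lit 108) (.e (nat_lit 336442) (nat_lit 32) (.e (nat_lit 466969) (nat_lit 21) (.e (nat_lit 164348) (nat_lit 240) (.e (nat_lit 2638) (nat_lit 165) (.e (nat_lit 188160) (nat_lit 32) .nil)))))) (.g (nat_lit 1) (.e (nat_lit 97711) (nat_lit 0) .nil) .nil))) 
(.lf (nat_lit 475784) (.g (nat_lit 3891) (.e (nat_lit 1786) (nat_lit 119) (.e (nat_lit 516166) (nat_lit 12) (.e (nat_lit 450587) (nat_lit 10) (.e (nat_lit 573469) (nat_lit 11) .nil)))) (.g (nat_lit 0) (.e (nat_lit 99603) (nat_lit 0) .nil) .nil)))) (.nd (nat_lit 9) 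
(.lf (nat_lit 475528) (.g (nat_lit 813) (.e (nat_lit 1673) (nat_lit 116) (.e (nat_lit 401447) (nat_lit 10) (.e (nat_lit 434238) (nat_lit 25) (.e (nat_lit 548897) (nat_lit 14) .nil)))) (.g (nat_lit 0) (.e (nat_lit 98868) (nat_lit 0) .nil) .nil))) 
(.lf (nat_lit 476040) (.g (nat_lit 2302) (.e (nat_lit 1788) (nat_lit 119) (.e (nat_lit 516151) (nat_lit 9) (.e (nat_lit 426286) (nat_lit 10) (.e (nat_lit 434245) (nat_lit 28) (.e (nat_lit 573470) (nat_lit 11) (.e (nat_lit 16473) (nat_lit 14) (.e (nat_lit 491525) (nat_lit 0) .nil))))))) (.g (nat_lit 1) (.e (nat_lit 99949) (nat_lit 0) .nil) .nil)))))) 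
(.nd (nat_lit 7) (.nd (nat_lit 8) (.nd (nat_lit 9) 
(.lf (nat_lit 475208) (.g (nat_lit 1653) (.e (nat_lit 1430) (nat_lit 108) (.e (nat_lit 336456) (nat_lit 34) (.e (nat_lit 483383) (nat_lit 23) (.e (nat_lit 336019) (nat_lit 3) .nil)))) (.g (nat_lit 0) (.e (nat_lit 97548) (nat_lit 0) .nil) .nil))) 
(.lf (nat_lit 475720) (.g (nat_lit 5959) (.e (nat_lit 1781) (nat_lit 119) (.e (nat_lit 516166) (nat_lit 12) (.e (nat_lit 450588) (nat_lit 10) (.e (nat_lit 573478) (nat_lit 12) .nil)))) (.g (nat_lit 0) (.e (nat_lit 99471) (nat_lit 0) .nil) .nil)))) (.nd (nat_lit 9) 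
(.lf (nat_lit 475464) (.g (nat_lit 977) (.e (nat_lit 1660) (nat_lit 115) (.e (nat_lit 393280) (nat_lit 23) (.e (nat_lit 426107) (nat_lit 1) (.e (nat_lit 164345) (nat_lit 240) .nil)))) (.g (nat_lit 0) (.e (nat_lit 98524) (nat_lit 0) .nil) .nil))) 
(.lf (nat_lit 475976) (.g (nat_lit 2683) (.e (nat_lit 1788) (nat_lit 119) (.e (nat_lit 516139) (nat_lit 7) (.e (nat_lit 409648) (nat_lit 18) (.e (nat_lit 303118) (nat_lit 3) (.e (nat_lit 204855) (nat_lit 26) (.e (nat_lit 336099) (nat_lit 9) (.e (nat_lit 335886) (nat_lit 0) .nil))))))) (.g (nat_lit 1) (.e (nat_lit 99872) (nat_lit 0) .nil) .nil))))) (.nd (nat_lit 8) (.nd (nat_lit 9) 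
(.lf (nat_lit 475336) (.g (nat_lit 3401) (.e (nat_lit 1589) (nat_lit 111) (.e (nat_lit 360475) (nat_lit 8) (.e (nat_lit 557091) (nat_lit 12) (.e (nat_lit 164022) (nat_lit 46) (.e (nat_lit 704629) (nat_lit 9) (.e (nat_lit 452) (nat_lit 33) (.e (nat_lit 434219) (nat_lit 19) (.e (nat_lit 499952) (nat_lit 14) .nil)))))))) (.g (nat_lit 1) (.e (nat_lit 98148) (nat_lit 0) .nil) .nil))) 
(.lf (nat_lit 475848) (.g (nat_lit 2001) (.e (nat_lit 1790) (nat_lit 119) (.e (nat_lit 516115) (nat_lit 1) (.e (nat_lit 164399) (nat_lit 256) (.e (nat_lit 57375) (nat_lit 2) (.e (nat_lit 90174) (nat_lit 14) .nil))))) (.g (nat_lit 0) (.e (nat_lit 99696) (nat_lit 0) .nil) .nil)))) (.nd (nat_lit 9) 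
(.lf (nat_lit 475592) (.g (nat_lit 2366) (.e (nat_lit 1677) (nat_lit 116) (.e (nat_lit 401454) (nat_lit 12) (.e (nat_lit 475183) (nat_lit 29) (.e (nat_lit 557108) (nat_lit 15) (.e (nat_lit 188449) (nat_lit 22) .nil))))) (.g (nat_lit 0) (.e (nat_lit 98990) (nat_lit 0) .nil) .nil))) 
(.lf (nat_lit 476104) (.g (nat_lit 3297) (.e (nat_lit 1788) (nat_lit 119) (.e (nat_lit 516179) (nat_lit 15) (.e (nat_lit 475199) (nat_lit 40) (.e (nat_lit 704589) (nat_lit 3) (.e (nat_lit 163976) (nat_lit 30) (.e (nat_lit 573491) (nat_lit 15) (.e (nat_lit 81928) (nat_lit 20) .nil))))))) (.g (nat_lit 1) (.e (nat_lit 100033) (nat_lit 0) .nil) .nil))))))) 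
(.nd (nat_lit 6) (.nd (nat_lit 7) (.nd (nat_lit 8) (.nd (nat_lit 9) 
(.lf (nat_lit 475176) (.g (nat_lit 2069) (.e (nat_lit 1427) (nat_lit 108) (.e (nat_lit 336395) (nat_lit 27) (.e (nat_lit 426340) (nat_lit 14) (.e (nat_lit 491571) (nat_lit 13) (.e (nat_lit 393235) (nat_lit 17) (.e (nat_lit 7519) (nat_lit 402) .nil)))))) (.g (nat_lit 1) (.e (nat_lit 97473) (nat_lit 0) .nil) .nil))) 
(.lf (nat_lit 475688) (.g (nat_lit 1688) (.e (nat_lit 1781) (nat_lit 119) (.e (nat_lit 516120) (nat_lit 1) (.e (nat_lit 164329) (nat_lit 230) (.e (nat_lit 163941) (nat_lit 19) (.e (nat_lit 483341) (nat_lit 9) (.e (nat_lit 426200) (nat_lit 9) (.e (nat_lit 426359) (nat_lit 15) .nil))))))) (.g (nat_lit 1) (.e (nat_lit 99429) (nat_lit 0) .nil) .nil)))) (.nd (nat_lit 9) 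
(.lf (nat_lit 475432) (.g (nat_lit 2012) (.e (nat_lit 1648) (nat_lit 115) (.e (nat_lit 393271) (nat_lit 23) (.e (nat_lit 426112) (nat_lit 1) (.e (nat_lit 164348) (nat_lit 240) (.e (nat_lit 2638) (nat_lit 165) (.e (nat_lit 188160) (nat_lit 32) .nil)))))) (.g (nat_lit 1) (.e (nat_lit 98432) (nat_lit 0) .nil) .nil))) 
(.lf (nat_lit 475944) (.g (nat_lit 2965) (.e (nat_lit 1788) (nat_lit 119) (.e (nat_lit 516139) (nat_lit 7) (.e (nat_lit 409647) (nat_lit 18) (.e (nat_lit 303118) (nat_lit 3) (.e (nat_lit 204866) (nat_lit 28) (.e (nat_lit 352301) (nat_lit 20) .nil)))))) (.g (nat_lit 1) (.e (nat_lit 99840) (nat_lit 0) .nil) .nil))))) (.nd (nat_lit 8) (.nd (nat_lit 9) 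
(.lf (nat_lit 475304) (.g (nat_lit 631) (.e (nat_lit 1524) (nat_lit 108) (.e (nat_lit 335988) (nat_lit 1) (.e (nat_lit 57927) (nat_lit 282) .nil))) (.g (nat_lit 0) (.e (nat_lit 97961) (nat_lit 0) .nil) .nil))) 
(.lf (nat_lit 475816) (.g (nat_lit 4830) (.e (nat_lit 1784) (nat_lit 119) (.e (nat_lit 516166) (nat_lit 12) (.e (nat_lit 450588) (nat_lit 10) (.e (nat_lit 573475) (nat_lit 12) .nil)))) (.g (nat_lit 0) (.e (nat_lit 99655) (nat_lit 0) .nil) .nil)))) (.nd (nat_lit 9) 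
(.lf (nat_lit 475560) (.g (nat_lit 3719) (.e (nat_lit 1673) (nat_lit 116) (.e (nat_lit 401448) (nat_lit 10) (.e (nat_lit 434238) (nat_lit 25) (.e (nat_lit 548915) (nat_lit 20) (.e (nat_lit 188458) (nat_lit 25) (.e (nat_lit 245784) (nat_lit 9) .nil)))))) (.g (nat_lit 1) (.e (nat_lit 98902) (nat_lit 0) .nil) .nil))) 
(.lf (nat_lit 476072) (.g (nat_lit 2888) (.e (nat_lit 1788) (nat_lit 119) (.e (nat_lit 516166) (nat_lit 12) (.e (nat_lit 450587) (nat_lit 10) (.e (nat_lit 573456) (nat_lit 9) (.e (nat_lit 430) (nat_lit 32) (.e (nat_lit 426343) (nat_lit 14) (.e (nat_lit 491520) (nat_lit 0) .nil))))))) (.g (nat_lit 1) (.e (nat_lit 99996) (nat_lit 0) .nil) .nil)))))) 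
(.nd (nat_lit 7) (.nd (nat_lit 8) (.nd (nat_lit 9) 
(.lf (nat_lit 475240) (.g (nat_lit 4792) (.e (nat_lit 1454) (nat_lit 108) (.e (nat_lit 336013) (nat_lit 2) (.e (nat_lit 90170) (nat_lit 13) (.e (nat_lit 172106) (nat_lit 10) (.e (nat_lit 434244) (nat_lit 28) (.e (nat_lit 573473) (nat_lit 12) (.e (nat_lit 57569) (nat_lit 53) (.e (nat_lit 761867) (nat_lit 5) .nil)))))))) (.g (nat_lit 1) (.e (nat_lit 97634) (nat_lit 0) .nil) .nil))) 
(.lf (nat_lit 475752) (.g (nat_lit 2008) (.e (nat_lit 1783) (nat_lit 119) (.e (nat_lit 516115) (nat_lit 1) (.e (nat_lit 164399) (nat_lit 256) (.e (nat_lit 57375) (nat_lit 2) (.e (nat_lit 90174) (nat_lit 14) .nil))))) (.g (nat_lit 0) (.e (nat_lit 99529) (nat_lit 0) .nil) .nil)))) (.nd (nat_lit 9) 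
(.lf (nat_lit 475496) (.g (nat_lit 1905) (.e (nat_lit 1669) (nat_lit 116) (.e (nat_lit 401454) (nat_lit 12) (.e (nat_lit 475209) (nat_lit 41) (.e (nat_lit 712755) (nat_lit 30) (.e (nat_lit 450563) (nat_lit 0) .nil))))) (.g (nat_lit 0) (.e (nat_lit 98785) (nat_lit 0) .nil) .nil))) 
(.lf (nat_lit 476008) (.g (nat_lit 2764) (.e (nat_lit 1788) (nat_lit 119) (.e (nat_lit 516139) (nat_lit 7) (.e (nat_lit 409649) (nat_lit 18) (.e (nat_lit 303117) (nat_lit 2) (.e (nat_lit 196666) (nat_lit 13) (.e (nat_lit 65599) (nat_lit 9) (.e (nat_lit 335886) (nat_lit 0) .nil))))))) (.g (nat_lit 1) (.e (nat_lit 99909) (nat_lit 0) .nil) .nil))))) (.nd (nat_lit 8) (.nd (nat_lit 9) 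
(.lf (nat_lit 475368) (.g (nat_lit 1187) (.e (nat_lit 1597) (nat_lit 111) (.e (nat_lit 360493) (nat_lit 27) (.e (nat_lit 819203) (nat_lit 0) (.e (nat_lit 3015) (nat_lit 187) (.e (nat_lit 458496) (nat_lit 8) (.e (nat_lit 557061) (nat_lit 0) .nil)))))) (.g (nat_lit 1) (.e (nat_lit 98190) (nat_lit 0) .nil) .nil))) 
(.lf (nat_lit 475880) (.g (nat_lit 3880) (.e (nat_lit 1788) (nat_lit 119) (.e (nat_lit 516116) (nat_lit 1) (.e (nat_lit 164329) (nat_lit 230) (.e (nat_lit 163941) (nat_lit 19) (.e (nat_lit 483341) (nat_lit 9) (.e (nat_lit 426197) (nat_lit 9) (.e (nat_lit 426402) (nat_lit 15) .nil))))))) (.g (nat_lit 1) (.e (nat_lit 99748) (nat_lit 0) .nil) .nil)))) (.nd (nat_lit 9) 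
(.lf (nat_lit 475624) (.g (nat_lit 816) (.e (nat_lit 7936) (nat_lit 121) (.e (nat_lit 532544) (nat_lit 10) (.e (nat_lit 344132) (nat_lit 26) (.e (nat_lit 557105) (nat_lit 14) .nil)))) (.g (nat_lit 0) (.e (nat_lit 99288) (nat_lit 0) .nil) .nil))) 
(.lf (nat_lit 476136) (.g (nat_lit 5175) (.e (nat_lit 1791) (nat_lit 119) (.e (nat_lit 516166) (nat_lit 12) (.e (nat_lit 450587) (nat_lit 10) (.e (nat_lit 573477) (nat_lit 12) (.e (nat_lit 57575) (nat_lit 55) .nil))))) (.g (nat_lit 0) (.e (nat_lit 100090) (nat_lit 0) .nil) .nil)))))))) (.nd (nat_lit 5) (.nd (nat_lit 6) (.nd (nat_lit 7) (.nd (nat_lit 8) (.nd (nat_lit 9) 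
(.lf (nat_lit 475160) (.g (nat_lit 2659) (.e (nat_lit 1426) (nat_lit 108) (.e (nat_lit 336430) (nat_lit 29) (.e (nat_lit 442428) (nat_lit 24) (.e (nat_lit 229664) (nat_lit 240) (.e (nat_lit 2641) (nat_lit 165) (.e (nat_lit 180278) (nat_lit 32) .nil)))))) (.g (nat_lit 1) (.e (nat_lit 97345) (nat_lit 0) .nil) .nil))) 
(.lf (nat_lit 475672) (.g (nat_lit 2159) (.e (nat_lit 1781) (nat_lit 119) (.e (nat_lit 516119) (nat_lit 1) (.e (nat_lit 164403) (nat_lit 256) (.e (nat_lit 57370) (nat_lit 2) (.e (nat_lit 90172) (nat_lit 14) .nil))))) (.g (nat_lit 0) (.e (nat_lit 99412) (nat_lit 0) .nil) .nil)))) (.nd (nat_lit 9) 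
(.lf (nat_lit 475416) (.g (nat_lit 2267) (.e (nat_lit 1642) (nat_lit 114) (.e (nat_lit 385068) (nat_lit 26) (.e (nat_lit 532560) (nat_lit 14) (.e (nat_lit 376842) (nat_lit 11) (.e (nat_lit 426107) (nat_lit 1) .nil))))) (.g (nat_lit 0) (.e (nat_lit 98390) (nat_lit 0) .nil) .nil))) 
(.lf (nat_lit 475928) (.g (nat_lit 2986) (.e (nat_lit 1788) (nat_lit 119) (.e (nat_lit 516139) (nat_lit 7) (.e (nat_lit 409645) (nat_lit 18) (.e (nat_lit 303117) (nat_lit 2) (.e (nat_lit 196672) (nat_lit 15) .nil))))) (.g (nat_lit 0) (.e (nat_lit 99824) (nat_lit 0) .nil) .nil))))) (.nd (nat_lit 8) (.nd (nat_lit 9) 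
(.lf (nat_lit 475288) (.g (nat_lit 2400) (.e (nat_lit 1512) (nat_lit 108) (.e (nat_lit 336051) (nat_lit 6) (.e (nat_lit 147496) (nat_lit 11) (.e (nat_lit 24625) (nat_lit 9) (.e (nat_lit 343808) (nat_lit 28) .nil))))) (.g (nat_lit 0) (.e (nat_lit 97733) (nat_lit 0) .nil) .nil))) 
(.lf (nat_lit 475800) (.g (nat_lit 602) (.e (nat_lit 1784) (nat_lit 119) (.e (nat_lit 516119) (nat_lit 1) (.e (nat_lit 164326) (nat_lit 230) .nil))) (.g (nat_lit 0) (.e (nat_lit 99632) (nat_lit 0) .nil) .nil)))) (.nd (nat_lit 9) 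
(.lf (nat_lit 475544) (.g (nat_lit 3128) (.e (nat_lit 1673) (nat_lit 116) (.e (nat_lit 401448) (nat_lit 10) (.e (nat_lit 434238) (nat_lit 25) (.e (nat_lit 548898) (nat_lit 14) (.e (nat_lit 2999) (nat_lit 186) (.e (nat_lit 442433) (nat_lit 25) (.e (nat_lit 245783) (nat_lit 9) .nil))))))) (.g (nat_lit 1) (.e (nat_lit 98886) (nat_lit 0) .nil) .nil))) 
(.lf (nat_lit 476056) (.g (nat_lit 2433) (.e (nat_lit 1788) (nat_lit 119) (.e (nat_lit 516151) (nat_lit 9) (.e (nat_lit 426286) (nat_lit 10) (.e (nat_lit 434248) (nat_lit 28) (.e (nat_lit 573470) (nat_lit 11) (.e (nat_lit 16473) (nat_lit 14) (.e (nat_lit 491525) (nat_lit 0) .nil))))))) (.g (nat_lit 1) (.e (nat_lit 99965) (nat_lit 0) .nil) .nil)))))) 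
(.nd (nat_lit 7) (.nd (nat_lit 8) (.nd (nat_lit 9) 
(.lf (nat_lit 475224) (.g (nat_lit 1925) (.e (nat_lit 1433) (nat_lit 108) (.e (nat_lit 336431) (nat_lit 29) (.e (nat_lit 442430) (nat_lit 24) (.e (nat_lit 229665) (nat_lit 240) (.e (nat_lit 2641) (nat_lit 165) (.e (nat_lit 188160) (nat_lit 32) .nil)))))) (.g (nat_lit 1) (.e (nat_lit 97584) (nat_lit 0) .nil) .nil))) 
(.lf (nat_lit 475736) (.g (nat_lit 602) (.e (nat_lit 1782) (nat_lit 119) (.e (nat_lit 516119) (nat_lit 1) (.e (nat_lit 164326) (nat_lit 230) .nil))) (.g (nat_lit 0) (.e (nat_lit 99505) (nat_lit 0) .nil) .nil)))) (.nd (nat_lit 9) 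
(.lf (nat_lit 475480) (.g (nat_lit 2745) (.e (nat_lit 1667) (nat_lit 116) (.e (nat_lit 401459) (nat_lit 13) (.e (nat_lit 483363) (nat_lit 18) (.e (nat_lit 57688) (nat_lit 156) (.e (nat_lit 163917) (nat_lit 13) .nil))))) (.g (nat_lit 0) (.e (nat_lit 98632) (nat_lit 0) .nil) .nil))) 
(.lf (nat_lit 475992) (.g (nat_lit 3767) (.e (nat_lit 1788) (nat_lit 119) (.e (nat_lit 516139) (nat_lit 7) (.e (nat_lit 409649) (nat_lit 18) (.e (nat_lit 303116) (nat_lit 2) (.e (nat_lit 196666) (nat_lit 13) (.e (nat_lit 65596) (nat_lit 9) (.e (nat_lit 335923) (nat_lit 0) .nil))))))) (.g (nat_lit 1) (.e (nat_lit 99893) (nat_lit 0) .nil) .nil))))) (.nd (nat_lit 8) (.nd (nat_lit 9) 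
(.lf (nat_lit 475352) (.g (nat_lit 3382) (.e (nat_lit 1587) (nat_lit 111) (.e (nat_lit 360475) (nat_lit 8) (.e (nat_lit 557091) (nat_lit 12) (.e (nat_lit 164022) (nat_lit 46) (.e (nat_lit 704629) (nat_lit 9) (.e (nat_lit 452) (nat_lit 33) (.e (nat_lit 434219) (nat_lit 19) (.e (nat_lit 499975) (nat_lit 14) .nil)))))))) (.g (nat_lit 1) (.e (nat_lit 98165) (nat_lit 0) .nil) .nil))) 
(.lf (nat_lit 475864) (.g (nat_lit 1963) (.e (nat_lit 1788) (nat_lit 119) (.e (nat_lit 516106) (nat_lit 0) (.e (nat_lit 3579) (nat_lit 223) (.e (nat_lit 745476) (nat_lit 0) (.e (nat_lit 1256) (nat_lit 92) .nil))))) (.g (nat_lit 0) (.e (nat_lit 99722) (nat_lit 0) .nil) .nil)))) (.nd (nat_lit 9) 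
(.lf (nat_lit 475608) (.g (nat_lit 1086) (.e (nat_lit 7936) (nat_lit 121) (.e (nat_lit 532529) (nat_lit 9) (.e (nat_lit 336326) (nat_lit 18) (.e (nat_lit 204863) (nat_lit 27) .nil)))) (.g (nat_lit 0) (.e (nat_lit 99242) (nat_lit 0) .nil) .nil))) 
(.lf (nat_lit 476120) (.g (nat_lit 1287) (.e (nat_lit 1789) (nat_lit 119) (.e (nat_lit 516120) (nat_lit 1) (.e (nat_lit 164329) (nat_lit 230) .nil))) (.g (nat_lit 0) (.e (nat_lit 100066) (nat_lit 0) .nil) .nil))))))) (.nd (nat_lit 6) (.nd (nat_lit 7) (.nd (nat_lit 8) (.nd (nat_lit 9) 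
(.lf (nat_lit 475192) (.g (nat_lit 2707) (.e (nat_lit 1428) (nat_lit 108) (.e (nat_lit 336367) (nat_lit 27) (.e (nat_lit 426320) (nat_lit 12) (.e (nat_lit 475199) (nat_lit 40) (.e (nat_lit 704595) (nat_lit 5) (.e (nat_lit 180277) (nat_lit 32) .nil)))))) (.g (nat_lit 1) (.e (nat_lit 97513) (nat_lit 0) .nil) .nil))) 
(.lf (nat_lit 475704) (.g (nat_lit 4207) (.e (nat_lit 1781) (nat_lit 119) (.e (nat_lit 516151) (nat_lit 9) (.e (nat_lit 426211) (nat_lit 9) (.e (nat_lit 426125) (nat_lit 2) (.e (nat_lit 196630) (nat_lit 9) .nil))))) (.g (nat_lit 0) (.e (nat_lit 99453) (nat_lit 0) .nil) .nil)))) (.nd (nat_lit 9) 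
(.lf (nat_lit 475448) (.g (nat_lit 615) (.e (nat_lit 1659) (nat_lit 115) (.e (nat_lit 393234) (nat_lit 17) (.e (nat_lit 7376) (nat_lit 389) .nil))) (.g (nat_lit 0) (.e (nat_lit 98460) (nat_lit 0) .nil) .nil))) 
(.lf (nat_lit 475960) (.g (nat_lit 2529) (.e (nat_lit 1788) (nat_lit 119) (.e (nat_lit 516139) (nat_lit 7) (.e (nat_lit 409648) (nat_lit 18) (.e (nat_lit 303117) (nat_lit 2) (.e (nat_lit 196666) (nat_lit 13) (.e (nat_lit 65589) (nat_lit 9) (.e (nat_lit 335923) (nat_lit 0) .nil))))))) (.g (nat_lit 1) (.e (nat_lit 99856) (nat_lit 0) .nil) .nil))))) (.nd (nat_lit 8) (.nd (nat_lit 9) 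
(.lf (nat_lit 475320) (.g (nat_lit 1317) (.e (nat_lit 1582) (nat_lit 111) (.e (nat_lit 360451) (nat_lit 0) (.e (nat_lit 7607) (nat_lit 410) (.e (nat_lit 2651) (nat_lit 166) (.e (nat_lit 188431) (nat_lit 20) (.e (nat_lit 3281) (nat_lit 200) (.e (nat_lit 557061) (nat_lit 0) .nil))))))) (.g (nat_lit 1) (.e (nat_lit 98103) (nat_lit 0) .nil) .nil))) 
(.lf (nat_lit 475832) (.g (nat_lit 2486) (.e (nat_lit 1787) (nat_lit 119) (.e (nat_lit 516116) (nat_lit 1) (.e (nat_lit 164329) (nat_lit 230) (.e (nat_lit 163902) (nat_lit 12) (.e (nat_lit 426568) (nat_lit 34) .nil))))) (.g (nat_lit 0) (.e (nat_lit 99676) (nat_lit 0) .nil) .nil)))) (.nd (nat_lit 9) 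
(.lf (nat_lit 475576) (.g (nat_lit 3792) (.e (nat_lit 1673) (nat_lit 116) (.e (nat_lit 401451) (nat_lit 12) (.e (nat_lit 475185) (nat_lit 29) (.e (nat_lit 557109) (nat_lit 15) (.e (nat_lit 188458) (nat_lit 25) (.e (nat_lit 245784) (nat_lit 9) .nil)))))) (.g (nat_lit 1) (.e (nat_lit 98922) (nat_lit 0) .nil) .nil))) 
(.lf (nat_lit 476088) (.g (nat_lit 3093) (.e (nat_lit 1788) (nat_lit 119) (.e (nat_lit 516166) (nat_lit 12) (.e (nat_lit 450588) (nat_lit 10) (.e (nat_lit 573473) (nat_lit 12) (.e (nat_lit 57348) (nat_lit 0) .nil))))) (.g (nat_lit 0) (.e (nat_lit 100012) (nat_lit 0) .nil) .nil)))))) (.nd (nat_lit 7) (.nd (nat_lit 8) (.nd (nat_lit 9) 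
(.lf (nat_lit 475256) (.g (nat_lit 4252) (.e (nat_lit 1454) (nat_lit 108) (.e (nat_lit 336176) (nat_lit 10) (.e (nat_lit 344161) (nat_lit 37) (.e (nat_lit 647170) (nat_lit 0) (.e (nat_lit 3098) (nat_lit 192) (.e (nat_lit 491566) (nat_lit 12) (.e (nat_lit 385092) (nat_lit 49) (.e (nat_lit 778248) (nat_lit 0) .nil)))))))) (.g (nat_lit 1) (.e (nat_lit 97650) (nat_lit 0) .nil) .nil))) 
(.lf (nat_lit 475768) (.g (nat_lit 695) (.e (nat_lit 1786) (nat_lit 119) (.e (nat_lit 516117) (nat_lit 1) (.e (nat_lit 164332) (nat_lit 230) .nil))) (.g (nat_lit 0) (.e (nat_lit 99569) (nat_lit 0) .nil) .nil)))) (.nd (nat_lit 9) 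
(.lf (nat_lit 475512) (.g (nat_lit 4053) (.e (nat_lit 1671) (nat_lit 116) (.e (nat_lit 401448) (nat_lit 10) (.e (nat_lit 434238) (nat_lit 25) (.e (nat_lit 548913) (nat_lit 18) (.e (nat_lit 172094) (nat_lit 9) (.e (nat_lit 426125) (nat_lit 2) (.e (nat_lit 196637) (nat_lit 9) .nil))))))) (.g (nat_lit 1) (.e (nat_lit 98823) (nat_lit 0) .nil) .nil))) 
(.lf (nat_lit 476024) (.g (nat_lit 4441) (.e (nat_lit 1788) (nat_lit 119) (.e (nat_lit 516139) (nat_lit 7) (.e (nat_lit 409649) (nat_lit 18) (.e (nat_lit 303118) (nat_lit 3) (.e (nat_lit 204866) (nat_lit 28) (.e (nat_lit 352293) (nat_lit 20) .nil)))))) (.g (nat_lit 1) (.e (nat_lit 99925) (nat_lit 0) .nil) .nil))))) (.nd (nat_lit 8) (.nd (nat_lit 9) 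
(.lf (nat_lit 475384) (.g (nat_lit 3298) (.e (nat_lit 1633) (nat_lit 114) (.e (nat_lit 385074) (nat_lit 31) (.e (nat_lit 573484) (nat_lit 13) (.e (nat_lit 65617) (nat_lit 10) (.e (nat_lit 344133) (nat_lit 26) (.e (nat_lit 557068) (nat_lit 9) (.e (nat_lit 20) (nat_lit 0) (.e (nat_lit 6475) (nat_lit 343) .nil)))))))) (.g (nat_lit 1) (.e (nat_lit 98262) (nat_lit 0) .nil) .nil))) 
(.lf (nat_lit 475896) (.g (nat_lit 3973) (.e (nat_lit 1788) (nat_lit 119) (.e (nat_lit 516120) (nat_lit 1) (.e (nat_lit 164330) (nat_lit 230) (.e (nat_lit 163941) (nat_lit 19) (.e (nat_lit 483341) (nat_lit 9) (.e (nat_lit 426198) (nat_lit 9) (.e (nat_lit 426402) (nat_lit 15) .nil))))))) (.g (nat_lit 1) (.e (nat_lit 99783) (nat_lit 0) .nil) .nil)))) (.nd (nat_lit 9) 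
(.lf (nat_lit 475640) (.g (nat_lit 528) (.e (nat_lit 7936) (nat_lit 121) (.e (nat_lit 532563) (nat_lit 15) (.e (nat_lit 385066) (nat_lit 26) .nil))) (.g (nat_lit 0) (.e (nat_lit 99334) (nat_lit 0) .nil) .nil))) 
(.lf (nat_lit 476152) (.g (nat_lit 3701) (.e (nat_lit 1792) (nat_lit 119) (.e (nat_lit 516138) (nat_lit 7) (.e (nat_lit 409645) (nat_lit 18) (.e (nat_lit 303117) (nat_lit 2) (.e (nat_lit 196674) (nat_lit 15) (.e (nat_lit 81936) (nat_lit 20) .nil)))))) (.g (nat_lit 1) (.e (nat_lit 100112) (nat_lit 0) .nil) .nil)))))))))) 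
(.nd (nat_lit 3) (.nd (nat_lit 4) (.nd (nat_lit 5) (.nd (nat_lit 6) (.nd (nat_lit 7) 
(.nd (nat_lit 8) (.nd (nat_lit 9) 
(.lf (nat_lit 475140) (.g (nat_lit 2073) (.e (nat_lit 1426) (nat_lit 108) (.e (nat_lit 336430) (nat_lit 29) (.e (nat_lit 442419) (nat_lit 21) (.e (nat_lit 164345) (nat_lit 240) (.e (nat_lit 2639) (nat_lit 165) (.e (nat_lit 180277) (nat_lit 32) .nil)))))) (.g (nat_lit 1) (.e (nat_lit 97325) (nat_lit 0) .nil) .nil))) 
(.lf (nat_lit 475652) (.g (nat_lit 2152) (.e (nat_lit 1778) (nat_lit 119) (.e (nat_lit 516151) (nat_lit 9) (.e (nat_lit 426286) (nat_lit 10) .nil))) (.g (nat_lit 0) (.e (nat_lit 99382) (nat_lit 0) .nil) .nil)))) (.nd (nat_lit 9) 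
(.lf (nat_lit 475396) (.g (nat_lit 891) (.e (nat_lit 1637) (nat_lit 114) (.e (nat_lit 385109) (nat_lit 51) (.e (nat_lit 794684) (nat_lit 25) .nil))) (.g (nat_lit 0) (.e (nat_lit 98302) (nat_lit 0) .nil) .nil))) 
(.lf (nat_lit 475908) (.g (nat_lit 2657) (.e (nat_lit 1788) (nat_lit 119) (.e (nat_lit 516138) (nat_lit 7) (.e (nat_lit 409646) (nat_lit 18) (.e (nat_lit 303117) (nat_lit 2) (.e (nat_lit 196673) (nat_lit 15) .nil))))) (.g (nat_lit 0) (.e (nat_lit 99798) (nat_lit 0) .nil) .nil))))) (.nd (nat_lit 8) (.nd (nat_lit 9) 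
(.lf (nat_lit 475268) (.g (nat_lit 1946) (.e (nat_lit 1467) (nat_lit 108) (.e (nat_lit 336443) (nat_lit 32) (.e (nat_lit 466969) (nat_lit 21) (.e (nat_lit 164348) (nat_lit 240) (.e (nat_lit 2640) (nat_lit 165) .nil))))) (.g (nat_lit 0) (.e (nat_lit 97705) (nat_lit 0) .nil) .nil))) 
(.lf (nat_lit 475780) (.g (nat_lit 1633) (.e (nat_lit 1786) (nat_lit 119) (.e (nat_lit 516127) (nat_lit 2) (.e (nat_lit 213032) (nat_lit 11) (.e (nat_lit 24608) (nat_lit 3) (.e (nat_lit 98381) (nat_lit 31) (.e (nat_lit 466945) (nat_lit 0) .nil)))))) (.g (nat_lit 1) (.e (nat_lit 99588) (nat_lit 0) .nil) .nil)))) (.nd (nat_lit 9) 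
(.lf (nat_lit 475524) (.g (nat_lit 3444) (.e (nat_lit 1673) (nat_lit 116) (.e (nat_lit 401446) (nat_lit 10) (.e (nat_lit 434238) (nat_lit 25) (.e (nat_lit 548913) (nat_lit 18) (.e (nat_lit 172094) (nat_lit 9) (.e (nat_lit 426125) (nat_lit 2) (.e (nat_lit 196642) (nat_lit 9) .nil))))))) (.g (nat_lit 1) (.e (nat_lit 98863) (nat_lit 0) .nil) .nil))) 
(.lf (nat_lit 476036) (.g (nat_lit 4706) (.e (nat_lit 1788) (nat_lit 119) (.e (nat_lit 516151) (nat_lit 9) (.e (nat_lit 426286) (nat_lit 10) (.e (nat_lit 434245) (nat_lit 28) (.e (nat_lit 573469) (nat_lit 11) (.e (nat_lit 16473) (nat_lit 14) (.e (nat_lit 491520) (nat_lit 0) .nil))))))) (.g (nat_lit 1) (.e (nat_lit 99945) (nat_lit 0) .nil) .nil)))))) 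
(.nd (nat_lit 7) (.nd (nat_lit 8) (.nd (nat_lit 9) 
(.lf (nat_lit 475204) (.g (nat_lit 3030) (.e (nat_lit 1428) (nat_lit 108) (.e (nat_lit 336434) (nat_lit 30) (.e (nat_lit 450564) (nat_lit 0) (.e (nat_lit 5548) (nat_lit 306) (.e (nat_lit 2640) (nat_lit 165) (.e (nat_lit 180277) (nat_lit 32) .nil)))))) (.g (nat_lit 1) (.e (nat_lit 97533) (nat_lit 0) .nil) .nil))) 
(.lf (nat_lit 475716) (.g (nat_lit 3200) (.e (nat_lit 1781) (nat_lit 119) (.e (nat_lit 516166) (nat_lit 12) (.e (nat_lit 450587) (nat_lit 10) (.e (nat_lit 573478) (nat_lit 12) (.e (nat_lit 57574) (nat_lit 55) .nil))))) (.g (nat_lit 0) (.e (nat_lit 99467) (nat_lit 0) .nil) .nil)))) (.nd (nat_lit 9) 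
(.lf (nat_lit 475460) (.g (nat_lit 924) (.e (nat_lit 1660) (nat_lit 115) (.e (nat_lit 393271) (nat_lit 23) (.e (nat_lit 426112) (nat_lit 1) (.e (nat_lit 164347) (nat_lit 240) .nil)))) (.g (nat_lit 0) (.e (nat_lit 98509) (nat_lit 0) .nil) .nil))) 
(.lf (nat_lit 475972) (.g (nat_lit 2962) (.e (nat_lit 1788) (nat_lit 119) (.e (nat_lit 516139) (nat_lit 7) (.e (nat_lit 409648) (nat_lit 18) (.e (nat_lit 303117) (nat_lit 2) (.e (nat_lit 196666) (nat_lit 13) (.e (nat_lit 65599) (nat_lit 9) (.e (nat_lit 335922) (nat_lit 0) .nil))))))) (.g (nat_lit 1) (.e (nat_lit 99868) (nat_lit 0) .nil) .nil))))) (.nd (nat_lit 8) (.nd (nat_lit 9) 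
(.lf (nat_lit 475332) (.g (nat_lit 2848) (.e (nat_lit 1586) (nat_lit 111) (.e (nat_lit 360451) (nat_lit 0) (.e (nat_lit 7607) (nat_lit 410) (.e (nat_lit 2651) (nat_lit 166) (.e (nat_lit 188439) (nat_lit 20) (.e (nat_lit 3289) (nat_lit 201) (.e (nat_lit 565251) (nat_lit 0) .nil))))))) (.g (nat_lit 1) (.e (nat_lit 98137) (nat_lit 0) .nil) .nil))) 
(.lf (nat_lit 475844) (.g (nat_lit 2560) (.e (nat_lit 1787) (nat_lit 119) (.e (nat_lit 516179) (nat_lit 15) (.e (nat_lit 475177) (nat_lit 24) (.e (nat_lit 516150) (nat_lit 9) (.e (nat_lit 426438) (nat_lit 18) .nil))))) (.g (nat_lit 0) (.e (nat_lit 99690) (nat_lit 0) .nil) .nil)))) (.nd (nat_lit 9) 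
(.lf (nat_lit 475588) (.g (nat_lit 2721) (.e (nat_lit 1676) (nat_lit 116) (.e (nat_lit 401456) (nat_lit 13) (.e (nat_lit 483413) (nat_lit 27) (.e (nat_lit 401448) (nat_lit 10) (.e (nat_lit 434206) (nat_lit 18) .nil))))) (.g (nat_lit 0) (.e (nat_lit 98985) (nat_lit 0) .nil) .nil))) 
(.lf (nat_lit 476100) (.g (nat_lit 2556) (.e (nat_lit 1788) (nat_lit 119) (.e (nat_lit 516179) (nat_lit 15) (.e (nat_lit 475179) (nat_lit 24) (.e (nat_lit 516179) (nat_lit 15) (.e (nat_lit 475177) (nat_lit 24) (.e (nat_lit 516148) (nat_lit 9) (.e (nat_lit 426402) (nat_lit 15) .nil))))))) (.g (nat_lit 1) (.e (nat_lit 100024) (nat_lit 0) .nil) .nil))))))) 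
(.nd (nat_lit 6) (.nd (nat_lit 7) (.nd (nat_lit 8) (.nd (nat_lit 9) 
(.lf (nat_lit 475172) (.g (nat_lit 2907) (.e (nat_lit 1426) (nat_lit 108) (.e (nat_lit 336443) (nat_lit 32) (.e (nat_lit 466971) (nat_lit 21) (.e (nat_lit 164347) (nat_lit 240) (.e (nat_lit 2638) (nat_lit 165) (.e (nat_lit 180277) (nat_lit 32) .nil)))))) (.g (nat_lit 1) (.e (nat_lit 97359) (nat_lit 0) .nil) .nil))) 
(.lf (nat_lit 475684) (.g (nat_lit 1561) (.e (nat_lit 1781) (nat_lit 119) (.e (nat_lit 516120) (nat_lit 1) (.e (nat_lit 164329) (nat_lit 230) (.e (nat_lit 163941) (nat_lit 19) (.e (nat_lit 483339) (nat_lit 9) (.e (nat_lit 426260) (nat_lit 9) (.e (nat_lit 426356) (nat_lit 15) .nil))))))) (.g (nat_lit 1) (.e (nat_lit 99425) (nat_lit 0) .nil) .nil)))) (.nd (nat_lit 9) 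
(.lf (nat_lit 475428) (.g (nat_lit 2313) (.e (nat_lit 1643) (nat_lit 114) (.e (nat_lit 385068) (nat_lit 26) (.e (nat_lit 532560) (nat_lit 14) (.e (nat_lit 376842) (nat_lit 11) (.e (nat_lit 426100) (nat_lit 1) .nil))))) (.g (nat_lit 0) (.e (nat_lit 98408) (nat_lit 0) .nil) .nil))) 
(.lf (nat_lit 475940) (.g (nat_lit 2437) (.e (nat_lit 1788) (nat_lit 119) (.e (nat_lit 516139) (nat_lit 7) (.e (nat_lit 409647) (nat_lit 18) (.e (nat_lit 303118) (nat_lit 3) (.e (nat_lit 204865) (nat_lit 28) (.e (nat_lit 352292) (nat_lit 20) .nil)))))) (.g (nat_lit 1) (.e (nat_lit 99836) (nat_lit 0) .nil) .nil))))) (.nd (nat_lit 8) (.nd (nat_lit 9) 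
(.lf (nat_lit 475300) (.g (nat_lit 1574) (.e (nat_lit 1517) (nat_lit 108) (.e (nat_lit 336429) (nat_lit 29) (.e (nat_lit 442421) (nat_lit 21) (.e (nat_lit 164347) (nat_lit 240) (.e (nat_lit 2640) (nat_lit 165) (.e (nat_lit 180275) (nat_lit 32) .nil)))))) (.g (nat_lit 1) (.e (nat_lit 97951) (nat_lit 0) .nil) .nil))) 
(.lf (nat_lit 475812) (.g (nat_lit 4277) (.e (nat_lit 1784) (nat_lit 119) (.e (nat_lit 516166) (nat_lit 12) (.e (nat_lit 450587) (nat_lit 10) (.e (nat_lit 573477) (nat_lit 12) .nil)))) (.g (nat_lit 0) (.e (nat_lit 99651) (nat_lit 0) .nil) .nil)))) (.nd (nat_lit 9) 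
(.lf (nat_lit 475556) (.g (nat_lit 2562) (.e (nat_lit 1673) (nat_lit 116) (.e (nat_lit 401448) (nat_lit 10) (.e (nat_lit 434238) (nat_lit 25) (.e (nat_lit 548915) (nat_lit 20) (.e (nat_lit 188449) (nat_lit 22) .nil))))) (.g (nat_lit 0) (.e (nat_lit 98898) (nat_lit 0) .nil) .nil))) 
(.lf (nat_lit 476068) (.g (nat_lit 2960) (.e (nat_lit 1788) (nat_lit 119) (.e (nat_lit 516165) (nat_lit 12) (.e (nat_lit 450588) (nat_lit 10) (.e (nat_lit 573457) (nat_lit 9) (.e (nat_lit 430) (nat_lit 32) .nil))))) (.g (nat_lit 0) (.e (nat_lit 99992) (nat_lit 0) .nil) .nil)))))) (.nd (nat_lit 7) (.nd (nat_lit 8) (.nd (nat_lit 9) 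
(.lf (nat_lit 475236) (.g (nat_lit 5000) (.e (nat_lit 1449) (nat_lit 108) (.e (nat_lit 336013) (nat_lit 2) (.e (nat_lit 90134) (nat_lit 9) (.e (nat_lit 3025) (nat_lit 187) (.e (nat_lit 450586) (nat_lit 10) (.e (nat_lit 573474) (nat_lit 12) (.e (nat_lit 57572) (nat_lit 54) (.e (nat_lit 770058) (nat_lit 5) .nil)))))))) (.g (nat_lit 1) (.e (nat_lit 97610) (nat_lit 0) .nil) .nil))) 
(.lf (nat_lit 475748) (.g (nat_lit 914) (.e (nat_lit 1782) (nat_lit 119) (.e (nat_lit 516179) (nat_lit 15) (.e (nat_lit 475177) (nat_lit 24) .nil))) (.g (nat_lit 0) (.e (nat_lit 99521) (nat_lit 0) .nil) .nil)))) (.nd (nat_lit 9) 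
(.lf (nat_lit 475492) (.g (nat_lit 3565) (.e (nat_lit 1669) (nat_lit 116) (.e (nat_lit 401451) (nat_lit 12) (.e (nat_lit 475185) (nat_lit 29) (.e (nat_lit 557107) (nat_lit 15) (.e (nat_lit 188447) (nat_lit 22) (.e (nat_lit 196630) (nat_lit 9) .nil)))))) (.g (nat_lit 1) (.e (nat_lit 98757) (nat_lit 0) .nil) .nil))) 
(.lf (nat_lit 476004) (.g (nat_lit 2728) (.e (nat_lit 1788) (nat_lit 119) (.e (nat_lit 516139) (nat_lit 7) (.e (nat_lit 409649) (nat_lit 18) (.e (nat_lit 303117) (nat_lit 2) (.e (nat_lit 196666) (nat_lit 13) (.e (nat_lit 65596) (nat_lit 9) (.e (nat_lit 335921) (nat_lit 0) .nil))))))) (.g (nat_lit 1) (.e (nat_lit 99905) (nat_lit 0) .nil) .nil))))) (.nd (nat_lit 8) (.nd (nat_lit 9) 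
(.lf (nat_lit 475364) (.g (nat_lit 580) (.e (nat_lit 1591) (nat_lit 111) (.e (nat_lit 360493) (nat_lit 27) (.e (nat_lit 819204) (nat_lit 0) (.e (nat_lit 3015) (nat_lit 187) .nil)))) (.g (nat_lit 0) (.e (nat_lit 98177) (nat_lit 0) .nil) .nil))) 
(.lf (nat_lit 475876) (.g (nat_lit 3532) (.e (nat_lit 1788) (nat_lit 119) (.e (nat_lit 516115) (nat_lit 1) (.e (nat_lit 164327) (nat_lit 230) (.e (nat_lit 163903) (nat_lit 12) (.e (nat_lit 426566) (nat_lit 34) (.e (nat_lit 393273) (nat_lit 23) (.e (nat_lit 426364) (nat_lit 15) .nil))))))) (.g (nat_lit 1) (.e (nat_lit 99740) (nat_lit 0) .nil) .nil)))) (.nd (nat_lit 9) 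
(.lf (nat_lit 475620) (.g (nat_lit 503) (.e (nat_lit 7936) (nat_lit 121) (.e (nat_lit 532544) (nat_lit 10) (.e (nat_lit 344131) (nat_lit 26) .nil))) (.g (nat_lit 0) (.e (nat_lit 99284) (nat_lit 0) .nil) .nil))) 
(.lf (nat_lit 476132) (.g (nat_lit 2478) (.e (nat_lit 1791) (nat_lit 119) (.e (nat_lit 516116) (nat_lit 1) (.e (nat_lit 164329) (nat_lit 230) (.e (nat_lit 163902) (nat_lit 12) (.e (nat_lit 426568) (nat_lit 34) .nil))))) (.g (nat_lit 0) (.e (nat_lit 100085) (nat_lit 0) .nil) .nil)))))))) (.nd (nat_lit 5) (.nd (nat_lit 6) (.nd (nat_lit 7) (.nd (nat_lit 8) (.nd (nat_lit 9) 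
(.lf (nat_lit 475156) (.g (nat_lit 1994) (.e (nat_lit 1426) (nat_lit 108) (.e (nat_lit 336430) (nat_lit 29) (.e (nat_lit 442421) (nat_lit 21) (.e (nat_lit 164348) (nat_lit 240) (.e (nat_lit 2639) (nat_lit 165) (.e (nat_lit 180278) (nat_lit 32) .nil)))))) (.g (nat_lit 1) (.e (nat_lit 97341) (nat_lit 0) .nil) .nil))) 
(.lf (nat_lit 475668) (.g (nat_lit 1536) (.e (nat_lit 1781) (nat_lit 119) (.e (nat_lit 516117) (nat_lit 1) (.e (nat_lit 164329) (nat_lit 230) (.e (nat_lit 163941) (nat_lit 19) .nil)))) (.g (nat_lit 0) (.e (nat_lit 99408) (nat_lit 0) .nil) .nil)))) (.nd (nat_lit 9) 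
(.lf (nat_lit 475412) (.g (nat_lit 2414) (.e (nat_lit 1641) (nat_lit 114) (.e (nat_lit 385068) (nat_lit 26) (.e (nat_lit 532560) (nat_lit 14) (.e (nat_lit 376842) (nat_lit 11) (.e (nat_lit 426100) (nat_lit 1) .nil))))) (.g (nat_lit 0) (.e (nat_lit 98386) (nat_lit 0) .nil) .nil))) 
(.lf (nat_lit 475924) (.g (nat_lit 1997) (.e (nat_lit 1788) (nat_lit 119) (.e (nat_lit 516139) (nat_lit 7) (.e (nat_lit 409643) (nat_lit 18) (.e (nat_lit 303119) (nat_lit 3) (.e (nat_lit 204866) (nat_lit 28) .nil))))) (.g (nat_lit 0) (.e (nat_lit 99820) (nat_lit 0) .nil) .nil))))) (.nd (nat_lit 8) (.nd (nat_lit 9) 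
(.lf (nat_lit 475284) (.g (nat_lit 4226) (.e (nat_lit 1512) (nat_lit 108) (.e (nat_lit 335874) (nat_lit 0) (.e (nat_lit 6711) (nat_lit 360) (.e (nat_lit 163962) (nat_lit 25) (.e (nat_lit 532535) (nat_lit 9) (.e (nat_lit 336226) (nat_lit 14) (.e (nat_lit 401425) (nat_lit 2) (.e (nat_lit 196628) (nat_lit 9) .nil)))))))) (.g (nat_lit 1) (.e (nat_lit 97725) (nat_lit 0) .nil) .nil))) 
(.lf (nat_lit 475796) (.g (nat_lit 496) (.e (nat_lit 1784) (nat_lit 119) (.e (nat_lit 516117) (nat_lit 1) (.e (nat_lit 164330) (nat_lit 230) .nil))) (.g (nat_lit 0) (.e (nat_lit 99626) (nat_lit 0) .nil) .nil)))) (.nd (nat_lit 9) 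
(.lf (nat_lit 475540) (.g (nat_lit 373) (.e (nat_lit 1673) (nat_lit 116) (.e (nat_lit 401448) (nat_lit 10) (.e (nat_lit 434238) (nat_lit 25) .nil))) (.g (nat_lit 0) (.e (nat_lit 98881) (nat_lit 0) .nil) .nil))) 
(.lf (nat_lit 476052) (.g (nat_lit 4730) (.e (nat_lit 1788) (nat_lit 119) (.e (nat_lit 516151) (nat_lit 9) (.e (nat_lit 426286) (nat_lit 10) (.e (nat_lit 434248) (nat_lit 28) (.e (nat_lit 573469) (nat_lit 11) (.e (nat_lit 16473) (nat_lit 14) (.e (nat_lit 491525) (nat_lit 0) .nil))))))) (.g (nat_lit 1) (.e (nat_lit 99961) (nat_lit 0) .nil) .nil)))))) 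
(.nd (nat_lit 7) (.nd (nat_lit 8) (.nd (nat_lit 9) 
(.lf (nat_lit 475220) (.g (nat_lit 1630) (.e (nat_lit 1433) (nat_lit 108) (.e (nat_lit 336430) (nat_lit 29) (.e (nat_lit 442421) (nat_lit 21) (.e (nat_lit 164348) (nat_lit 240) (.e (nat_lit 2638) (nat_lit 165) .nil))))) (.g (nat_lit 0) (.e (nat_lit 97580) (nat_lit 0) .nil) .nil))) 
(.lf (nat_lit 475732) (.g (nat_lit 2079) (.e (nat_lit 1782) (nat_lit 119) (.e (nat_lit 516115) (nat_lit 1) (.e (nat_lit 164325) (nat_lit 230) (.e (nat_lit 163907) (nat_lit 12) .nil)))) (.g (nat_lit 0) (.e (nat_lit 99491) (nat_lit 0) .nil) .nil)))) (.nd (nat_lit 9) 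
(.lf (nat_lit 475476) (.g (nat_lit 1172) (.e (nat_lit 1666) (nat_lit 116) (.e (nat_lit 401454) (nat_lit 12) (.e (nat_lit 475183) (nat_lit 29) .nil))) (.g (nat_lit 0) (.e (nat_lit 98614) (nat_lit 0) .nil) .nil))) 
(.lf (nat_lit 475988) (.g (nat_lit 1499) (.e (nat_lit 1788) (nat_lit 119) (.e (nat_lit 516139) (nat_lit 7) (.e (nat_lit 409649) (nat_lit 18) (.e (nat_lit 303104) (nat_lit 0) .nil)))) (.g (nat_lit 0) (.e (nat_lit 99884) (nat_lit 0) .nil) .nil))))) (.nd (nat_lit 8) (.nd (nat_lit 9) 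
(.lf (nat_lit 475348) (.g (nat_lit 2759) (.e (nat_lit 1587) (nat_lit 111) (.e (nat_lit 360474) (nat_lit 8) (.e (nat_lit 557094) (nat_lit 12) (.e (nat_lit 164022) (nat_lit 46) (.e (nat_lit 704629) (nat_lit 9) (.e (nat_lit 452) (nat_lit 33) (.e (nat_lit 434219) (nat_lit 19) (.e (nat_lit 499990) (nat_lit 14) .nil)))))))) (.g (nat_lit 1) (.e (nat_lit 98161) (nat_lit 0) .nil) .nil))) 
(.lf (nat_lit 475860) (.g (nat_lit 2837) (.e (nat_lit 1790) (nat_lit 119) (.e (nat_lit 516138) (nat_lit 7) (.e (nat_lit 409646) (nat_lit 18) (.e (nat_lit 303117) (nat_lit 2) (.e (nat_lit 196674) (nat_lit 15) .nil))))) (.g (nat_lit 0) (.e (nat_lit 99711) (nat_lit 0) .nil) .nil)))) (.nd (nat_lit 9) 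
(.lf (nat_lit 475604) (.g (nat_lit 3075) (.e (nat_lit 1818) (nat_lit 121) (.e (nat_lit 532529) (nat_lit 9) (.e (nat_lit 336326) (nat_lit 18) (.e (nat_lit 204863) (nat_lit 27) (.e (nat_lit 344133) (nat_lit 26) (.e (nat_lit 557098) (nat_lit 13) (.e (nat_lit 179968) (nat_lit 15) .nil))))))) (.g (nat_lit 1) (.e (nat_lit 99167) (nat_lit 0) .nil) .nil))) 
(.lf (nat_lit 476116) (.g (nat_lit 3777) (.e (nat_lit 1789) (nat_lit 119) (.e (nat_lit 516115) (nat_lit 1) (.e (nat_lit 164325) (nat_lit 230) (.e (nat_lit 163904) (nat_lit 12) .nil)))) (.g (nat_lit 0) (.e (nat_lit 100060) (nat_lit 0) .nil) .nil))))))) (.nd (nat_lit 6) (.nd (nat_lit 7) (.nd (nat_lit 8) (.nd (nat_lit 9) 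
(.lf (nat_lit 475188) (.g (nat_lit 3977) (.e (nat_lit 1428) (nat_lit 108) (.e (nat_lit 336324) (nat_lit 18) (.e (nat_lit 204831) (nat_lit 18) (.e (nat_lit 57851) (nat_lit 252) .nil)))) (.g (nat_lit 0) (.e (nat_lit 97509) (nat_lit 0) .nil) .nil))) 
(.lf (nat_lit 475700) (.g (nat_lit 5242) (.e (nat_lit 1781) (nat_lit 119) (.e (nat_lit 516151) (nat_lit 9) (.e (nat_lit 426211) (nat_lit 9) (.e (nat_lit 426125) (nat_lit 2) (.e (nat_lit 196623) (nat_lit 9) .nil))))) (.g (nat_lit 0) (.e (nat_lit 99449) (nat_lit 0) .nil) .nil)))) (.nd (nat_lit 9) 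
(.lf (nat_lit 475444) (.g (nat_lit 1357) (.e (nat_lit 1658) (nat_lit 115) (.e (nat_lit 393281) (nat_lit 23) (.e (nat_lit 426108) (nat_lit 1) (.e (nat_lit 164345) (nat_lit 240) .nil)))) (.g (nat_lit 0) (.e (nat_lit 98452) (nat_lit 0) .nil) .nil))) 
(.lf (nat_lit 475956) (.g (nat_lit 2751) (.e (nat_lit 1788) (nat_lit 119) (.e (nat_lit 516139) (nat_lit 7) (.e (nat_lit 409648) (nat_lit 18) (.e (nat_lit 303116) (nat_lit 2) (.e (nat_lit 196666) (nat_lit 13) (.e (nat_lit 65599) (nat_lit 9) (.e (nat_lit 335920) (nat_lit 0) .nil))))))) (.g (nat_lit 1) (.e (nat_lit 99852) (nat_lit 0) .nil) .nil))))) (.nd (nat_lit 8) (.nd (nat_lit 9) 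
(.lf (nat_lit 475316) (.g (nat_lit 1375) (.e (nat_lit 1572) (nat_lit 110) (.e (nat_lit 352277) (nat_lit 11) (.e (nat_lit 426343) (nat_lit 14) (.e (nat_lit 491560) (nat_lit 10) .nil)))) (.g (nat_lit 0) (.e (nat_lit 98077) (nat_lit 0) .nil) .nil))) 
(.lf (nat_lit 475828) (.g (nat_lit 2093) (.e (nat_lit 1787) (nat_lit 119) (.e (nat_lit 516115) (nat_lit 1) (.e (nat_lit 164399) (nat_lit 256) (.e (nat_lit 57372) (nat_lit 2) (.e (nat_lit 90174) (nat_lit 14) .nil))))) (.g (nat_lit 0) (.e (nat_lit 99672) (nat_lit 0) .nil) .nil)))) (.nd (nat_lit 9) 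
(.lf (nat_lit 475572) (.g (nat_lit 2259) (.e (nat_lit 1673) (nat_lit 116) (.e (nat_lit 401448) (nat_lit 10) (.e (nat_lit 434272) (nat_lit 38) (.e (nat_lit 655378) (nat_lit 4) (.e (nat_lit 172113) (nat_lit 10) .nil))))) (.g (nat_lit 0) (.e (nat_lit 98918) (nat_lit 0) .nil) .nil))) 
(.lf (nat_lit 476084) (.g (nat_lit 3653) (.e (nat_lit 1788) (nat_lit 119) (.e (nat_lit 516166) (nat_lit 12) (.e (nat_lit 450588) (nat_lit 10) (.e (nat_lit 573454) (nat_lit 9) (.e (nat_lit 397) (nat_lit 32) .nil))))) (.g (nat_lit 0) (.e (nat_lit 100008) (nat_lit 0) .nil) .nil)))))) (.nd (nat_lit 7) (.nd (nat_lit 8) (.nd (nat_lit 9) 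
(.lf (nat_lit 475252) (.g (nat_lit 4336) (.e (nat_lit 1454) (nat_lit 108) (.e (nat_lit 336013) (nat_lit 2) (.e (nat_lit 90170) (nat_lit 13) (.e (nat_lit 172113) (nat_lit 10) (.e (nat_lit 434248) (nat_lit 28) (.e (nat_lit 573475) (nat_lit 12) (.e (nat_lit 57569) (nat_lit 53) (.e (nat_lit 761867) (nat_lit 5) .nil)))))))) (.g (nat_lit 1) (.e (nat_lit 97646) (nat_lit 0) .nil) .nil))) 
(.lf (nat_lit 475764) (.g (nat_lit 2027) (.e (nat_lit 1786) (nat_lit 119) (.e (nat_lit 516115) (nat_lit 1) (.e (nat_lit 164325) (nat_lit 230) (.e (nat_lit 163907) (nat_lit 12) .nil)))) (.g (nat_lit 0) (.e (nat_lit 99551) (nat_lit 0) .nil) .nil)))) (.nd (nat_lit 9) 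
(.lf (nat_lit 475508) (.g (nat_lit 3306) (.e (nat_lit 1670) (nat_lit 116) (.e (nat_lit 401451) (nat_lit 12) (.e (nat_lit 475185) (nat_lit 29) (.e (nat_lit 557109) (nat_lit 15) .nil)))) (.g (nat_lit 0) (.e (nat_lit 98805) (nat_lit 0) .nil) .nil))) 
(.lf (nat_lit 476020) (.g (nat_lit 2588) (.e (nat_lit 1788) (nat_lit 119) (.e (nat_lit 516139) (nat_lit 7) (.e (nat_lit 409649) (nat_lit 18) (.e (nat_lit 303118) (nat_lit 3) (.e (nat_lit 204855) (nat_lit 26) (.e (nat_lit 336104) (nat_lit 9) (.e (nat_lit 335923) (nat_lit 0) .nil))))))) (.g (nat_lit 1) (.e (nat_lit 99921) (nat_lit 0) .nil) .nil))))) (.nd (nat_lit 8) (.nd (nat_lit 9) 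
(.lf (nat_lit 475380) (.g (nat_lit 3051) (.e (nat_lit 1633) (nat_lit 114) (.e (nat_lit 385074) (nat_lit 31) (.e (nat_lit 573484) (nat_lit 13) (.e (nat_lit 65610) (nat_lit 10) (.e (nat_lit 344129) (nat_lit 26) (.e (nat_lit 557067) (nat_lit 9) (.e (nat_lit 20) (nat_lit 0) (.e (nat_lit 6476) (nat_lit 343) .nil)))))))) (.g (nat_lit 1) (.e (nat_lit 98258) (nat_lit 0) .nil) .nil))) 
(.lf (nat_lit 475892) (.g (nat_lit 2494) (.e (nat_lit 1788) (nat_lit 119) (.e (nat_lit 516118) (nat_lit 1) (.e (nat_lit 164332) (nat_lit 230) (.e (nat_lit 163905) (nat_lit 12) (.e (nat_lit 426566) (nat_lit 34) (.e (nat_lit 393273) (nat_lit 23) (.e (nat_lit 426402) (nat_lit 15) .nil))))))) (.g (nat_lit 1) (.e (nat_lit 99772) (nat_lit 0) .nil) .nil)))) (.nd (nat_lit 9) 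
(.lf (nat_lit 475636) (.g (nat_lit 1364) (.e (nat_lit 7936) (nat_lit 121) (.e (nat_lit 532563) (nat_lit 15) (.e (nat_lit 385057) (nat_lit 22) (.e (nat_lit 500070) (nat_lit 19) .nil)))) (.g (nat_lit 0) (.e (nat_lit 99329) (nat_lit 0) .nil) .nil))) 
(.lf (nat_lit 476148) (.g (nat_lit 2196) (.e (nat_lit 1792) (nat_lit 119) (.e (nat_lit 516116) (nat_lit 1) (.e (nat_lit 164398) (nat_lit 256) (.e (nat_lit 57373) (nat_lit 2) (.e (nat_lit 90172) (nat_lit 14) .nil))))) (.g (nat_lit 0) (.e (nat_lit 100108) (nat_lit 0) .nil) .nil))))))))) (.nd (nat_lit 4) (.nd (nat_lit 5) (.nd (nat_lit 6) (.nd (nat_lit 7) (.nd (nat_lit 8) (.nd (nat_lit 9) 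
(.lf (nat_lit 475148) (.g (nat_lit 3062) (.e (nat_lit 1426) (nat_lit 108) (.e (nat_lit 336430) (nat_lit 29) (.e (nat_lit 442419) (nat_lit 21) (.e (nat_lit 164348) (nat_lit 240) (.e (nat_lit 2640) (nat_lit 165) (.e (nat_lit 180277) (nat_lit 32) .nil)))))) (.g (nat_lit 1) (.e (nat_lit 97333) (nat_lit 0) .nil) .nil))) 
(.lf (nat_lit 475660) (.g (nat_lit 3339) (.e (nat_lit 1781) (nat_lit 119) (.e (nat_lit 516115) (nat_lit 1) (.e (nat_lit 164325) (nat_lit 230) (.e (nat_lit 163904) (nat_lit 12) .nil)))) (.g (nat_lit 0) (.e (nat_lit 99394) (nat_lit 0) .nil) .nil)))) (.nd (nat_lit 9) 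
(.lf (nat_lit 475404) (.g (nat_lit 2005) (.e (nat_lit 1638) (nat_lit 114) (.e (nat_lit 385068) (nat_lit 26) (.e (nat_lit 532560) (nat_lit 14) (.e (nat_lit 376842) (nat_lit 11) (.e (nat_lit 426098) (nat_lit 1) .nil))))) (.g (nat_lit 0) (.e (nat_lit 98312) (nat_lit 0) .nil) .nil))) 
(.lf (nat_lit 475916) (.g (nat_lit 3293) (.e (nat_lit 1788) (nat_lit 119) (.e (nat_lit 516139) (nat_lit 7) (.e (nat_lit 409602) (nat_lit 0) (.e (nat_lit 5259) (nat_lit 298) (.e (nat_lit 496) (nat_lit 39) (.e (nat_lit 483412) (nat_lit 27) (.e (nat_lit 401463) (nat_lit 15) .nil))))))) (.g (nat_lit 1) (.e (nat_lit 99806) (nat_lit 0) .nil) .nil))))) (.nd (nat_lit 8) (.nd (nat_lit 9) 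
(.lf (nat_lit 475276) (.g (nat_lit 617) (.e (nat_lit 1471) (nat_lit 108) (.e (nat_lit 336453) (nat_lit 34) (.e (nat_lit 483403) (nat_lit 26) (.e (nat_lit 385066) (nat_lit 26) .nil)))) (.g (nat_lit 0) (.e (nat_lit 97715) (nat_lit 0) .nil) .nil))) 
(.lf (nat_lit 475788) (.g (nat_lit 2472) (.e (nat_lit 1786) (nat_lit 119) (.e (nat_lit 516176) (nat_lit 14) (.e (nat_lit 466977) (nat_lit 22) (.e (nat_lit 196681) (nat_lit 17) (.e (nat_lit 131088) (nat_lit 1) .nil))))) (.g (nat_lit 0) (.e (nat_lit 99607) (nat_lit 0) .nil) .nil)))) (.nd (nat_lit 9) 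
(.lf (nat_lit 475532) (.g (nat_lit 5263) (.e (nat_lit 1673) (nat_lit 116) (.e (nat_lit 401447) (nat_lit 10) (.e (nat_lit 434238) (nat_lit 25) (.e (nat_lit 548913) (nat_lit 18) (.e (nat_lit 172094) (nat_lit 9) (.e (nat_lit 426125) (nat_lit 2) (.e (nat_lit 196637) (nat_lit 9) .nil))))))) (.g (nat_lit 1) (.e (nat_lit 98872) (nat_lit 0) .nil) .nil))) 
(.lf (nat_lit 476044) (.g (nat_lit 5054) (.e (nat_lit 1788) (nat_lit 119) (.e (nat_lit 516151) (nat_lit 9) (.e (nat_lit 426286) (nat_lit 10) (.e (nat_lit 434245) (nat_lit 28) (.e (nat_lit 573471) (nat_lit 11) (.e (nat_lit 16473) (nat_lit 14) (.e (nat_lit 491525) (nat_lit 0) .nil))))))) (.g (nat_lit 1) (.e (nat_lit 99953) (nat_lit 0) .nil) .nil)))))) 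
(.nd (nat_lit 7) (.nd (nat_lit 8) (.nd (nat_lit 9) 
(.lf (nat_lit 475212) (.g (nat_lit 1724) (.e (nat_lit 1432) (nat_lit 108) (.e (nat_lit 336456) (nat_lit 34) (.e (nat_lit 483383) (nat_lit 23) (.e (nat_lit 336019) (nat_lit 3) .nil)))) (.g (nat_lit 0) (.e (nat_lit 97554) (nat_lit 0) .nil) .nil))) 
(.lf (nat_lit 475724) (.g (nat_lit 1502) (.e (nat_lit 1781) (nat_lit 119) (.e (nat_lit 516179) (nat_lit 15) (.e (nat_lit 475199) (nat_lit 40) (.e (nat_lit 704589) (nat_lit 3) .nil)))) (.g (nat_lit 0) (.e (nat_lit 99475) (nat_lit 0) .nil) .nil)))) (.nd (nat_lit 9) 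
(.lf (nat_lit 475468) (.g (nat_lit 2770) (.e (nat_lit 1661) (nat_lit 115) (.e (nat_lit 393238) (nat_lit 17) (.e (nat_lit 6989) (nat_lit 377) (.e (nat_lit 2777) (nat_lit 178) (.e (nat_lit 286770) (nat_lit 28) (.e (nat_lit 442112) (nat_lit 0) .nil)))))) (.g (nat_lit 1) (.e (nat_lit 98534) (nat_lit 0) .nil) .nil))) 
(.lf (nat_lit 475980) (.g (nat_lit 4220) (.e (nat_lit 1788) (nat_lit 119) (.e (nat_lit 516139) (nat_lit 7) (.e (nat_lit 409648) (nat_lit 18) (.e (nat_lit 303118) (nat_lit 3) (.e (nat_lit 204866) (nat_lit 28) (.e (nat_lit 352290) (nat_lit 20) .nil)))))) (.g (nat_lit 1) (.e (nat_lit 99876) (nat_lit 0) .nil) .nil))))) (.nd (nat_lit 8) (.nd (nat_lit 9) 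
(.lf (nat_lit 475340) (.g (nat_lit 3271) (.e (nat_lit 1587) (nat_lit 111) (.e (nat_lit 360474) (nat_lit 8) (.e (nat_lit 557093) (nat_lit 12) (.e (nat_lit 164022) (nat_lit 46) (.e (nat_lit 704629) (nat_lit 9) (.e (nat_lit 452) (nat_lit 33) (.e (nat_lit 434219) (nat_lit 19) (.e (nat_lit 499984) (nat_lit 14) .nil)))))))) (.g (nat_lit 1) (.e (nat_lit 98153) (nat_lit 0) .nil) .nil))) 
(.lf (nat_lit 475852) (.g (nat_lit 2486) (.e (nat_lit 1790) (nat_lit 119) (.e (nat_lit 516116) (nat_lit 1) (.e (nat_lit 164329) (nat_lit 230) (.e (nat_lit 163902) (nat_lit 12) (.e (nat_lit 426568) (nat_lit 34) .nil))))) (.g (nat_lit 0) (.e (nat_lit 99700) (nat_lit 0) .nil) .nil)))) (.nd (nat_lit 9) 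
(.lf (nat_lit 475596) (.g (nat_lit 1968) (.e (nat_lit 1685) (nat_lit 117) (.e (nat_lit 499929) (nat_lit 11) (.e (nat_lit 188449) (nat_lit 22) (.e (nat_lit 196626) (nat_lit 9) .nil)))) (.g (nat_lit 0) (.e (nat_lit 99005) (nat_lit 0) .nil) .nil))) 
(.lf (nat_lit 476108) (.g (nat_lit 2911) (.e (nat_lit 1788) (nat_lit 119) (.e (nat_lit 516180) (nat_lit 15) (.e (nat_lit 475177) (nat_lit 24) (.e (nat_lit 516147) (nat_lit 9) (.e (nat_lit 426436) (nat_lit 18) (.e (nat_lit 98358) (nat_lit 26) (.e (nat_lit 426402) (nat_lit 15) .nil))))))) (.g (nat_lit 1) (.e (nat_lit 100045) (nat_lit 0) .nil) .nil))))))) 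
(.nd (nat_lit 6) (.nd (nat_lit 7) (.nd (nat_lit 8) (.nd (nat_lit 9) 
(.lf (nat_lit 475180) (.g (nat_lit 3907) (.e (nat_lit 1427) (nat_lit 108) (.e (nat_lit 336454) (nat_lit 34) (.e (nat_lit 483365) (nat_lit 18) (.e (nat_lit 57848) (nat_lit 252) .nil)))) (.g (nat_lit 0) (.e (nat_lit 97483) (nat_lit 0) .nil) .nil))) 
(.lf (nat_lit 475692) (.g (nat_lit 1644) (.e (nat_lit 1781) (nat_lit 119) (.e (nat_lit 516138) (nat_lit 7) (.e (nat_lit 409645) (nat_lit 18) (.e (nat_lit 303117) (nat_lit 2) .nil)))) (.g (nat_lit 0) (.e (nat_lit 99433) (nat_lit 0) .nil) .nil)))) (.nd (nat_lit 9) 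
(.lf (nat_lit 475436) (.g (nat_lit 3548) (.e (nat_lit 1656) (nat_lit 115) (.e (nat_lit 393301) (nat_lit 27) (.e (nat_lit 491559) (nat_lit 10) (.e (nat_lit 344091) (nat_lit 18) (.e (nat_lit 7119) (nat_lit 382) .nil))))) (.g (nat_lit 0) (.e (nat_lit 98437) (nat_lit 0) .nil) .nil))) 
(.lf (nat_lit 475948) (.g (nat_lit 1411) (.e (nat_lit 1788) (nat_lit 119) (.e (nat_lit 516139) (nat_lit 7) (.e (nat_lit 409648) (nat_lit 18) (.e (nat_lit 303104) (nat_lit 0) .nil)))) (.g (nat_lit 0) (.e (nat_lit 99844) (nat_lit 0) .nil) .nil))))) (.nd (nat_lit 8) (.nd (nat_lit 9) 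
(.lf (nat_lit 475308) (.g (nat_lit 1176) (.e (nat_lit 1538) (nat_lit 109) (.e (nat_lit 344138) (nat_lit 29) (.e (nat_lit 581653) (nat_lit 6) (.e (nat_lit 188427) (nat_lit 20) (.e (nat_lit 3571) (nat_lit 222) .nil))))) (.g (nat_lit 0) (.e (nat_lit 98013) (nat_lit 0) .nil) .nil))) 
(.lf (nat_lit 475820) (.g (nat_lit 1344) (.e (nat_lit 1785) (nat_lit 119) (.e (nat_lit 516120) (nat_lit 1) (.e (nat_lit 164329) (nat_lit 230) .nil))) (.g (nat_lit 0) (.e (nat_lit 99662) (nat_lit 0) .nil) .nil)))) (.nd (nat_lit 9) 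
(.lf (nat_lit 475564) (.g (nat_lit 3896) (.e (nat_lit 1673) (nat_lit 116) (.e (nat_lit 401448) (nat_lit 10) (.e (nat_lit 434271) (nat_lit 38) (.e (nat_lit 655378) (nat_lit 4) (.e (nat_lit 172113) (nat_lit 10) (.e (nat_lit 434279) (nat_lit 39) (.e (nat_lit 663555) (nat_lit 0) .nil))))))) (.g (nat_lit 1) (.e (nat_lit 98910) (nat_lit 0) .nil) .nil))) 
(.lf (nat_lit 476076) (.g (nat_lit 1266) (.e (nat_lit 1788) (nat_lit 119) (.e (nat_lit 516166) (nat_lit 12) (.e (nat_lit 450587) (nat_lit 10) (.e (nat_lit 573477) (nat_lit 12) .nil)))) (.g (nat_lit 0) (.e (nat_lit 100000) (nat_lit 0) .nil) .nil)))))) (.nd (nat_lit 7) (.nd (nat_lit 8) (.nd (nat_lit 9) 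
(.lf (nat_lit 475244) (.g (nat_lit 2138) (.e (nat_lit 1454) (nat_lit 108) (.e (nat_lit 336013) (nat_lit 2) (.e (nat_lit 90170) (nat_lit 13) (.e (nat_lit 172113) (nat_lit 10) (.e (nat_lit 434242) (nat_lit 28) (.e (nat_lit 573473) (nat_lit 12) (.e (nat_lit 57569) (nat_lit 53) (.e (nat_lit 761867) (nat_lit 5) .nil)))))))) (.g (nat_lit 1) (.e (nat_lit 97638) (nat_lit 0) .nil) .nil))) 
(.lf (nat_lit 475756) (.g (nat_lit 1583) (.e (nat_lit 1783) (nat_lit 119) (.e (nat_lit 516120) (nat_lit 1) (.e (nat_lit 164329) (nat_lit 230) (.e (nat_lit 163941) (nat_lit 19) .nil)))) (.g (nat_lit 0) (.e (nat_lit 99535) (nat_lit 0) .nil) .nil)))) (.nd (nat_lit 9) 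
(.lf (nat_lit 475500) (.g (nat_lit 2383) (.e (nat_lit 1669) (nat_lit 116) (.e (nat_lit 401456) (nat_lit 13) (.e (nat_lit 483413) (nat_lit 27) (.e (nat_lit 401448) (nat_lit 10) (.e (nat_lit 434206) (nat_lit 18) .nil))))) (.g (nat_lit 0) (.e (nat_lit 98789) (nat_lit 0) .nil) .nil))) 
(.lf (nat_lit 476012) (.g (nat_lit 2095) (.e (nat_lit 1788) (nat_lit 119) (.e (nat_lit 516139) (nat_lit 7) (.e (nat_lit 409649) (nat_lit 18) (.e (nat_lit 303118) (nat_lit 3) (.e (nat_lit 204855) (nat_lit 26) .nil))))) (.g (nat_lit 0) (.e (nat_lit 99913) (nat_lit 0) .nil) .nil))))) (.nd (nat_lit 8) (.nd (nat_lit 9) 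
(.lf (nat_lit 475372) (.g (nat_lit 3605) (.e (nat_lit 1604) (nat_lit 112) (.e (nat_lit 368676) (nat_lit 21) (.e (nat_lit 516185) (nat_lit 16) (.e (nat_lit 491560) (nat_lit 10) (.e (nat_lit 344118) (nat_lit 21) .nil))))) (.g (nat_lit 0) (.e (nat_lit 98212) (nat_lit 0) .nil) .nil))) 
(.lf (nat_lit 475884) (.g (nat_lit 2159) (.e (nat_lit 1788) (nat_lit 119) (.e (nat_lit 516116) (nat_lit 1) (.e (nat_lit 164329) (nat_lit 230) (.e (nat_lit 163941) (nat_lit 19) (.e (nat_lit 491264) (nat_lit 11) (.e (nat_lit 450304) (nat_lit 0) .nil)))))) (.g (nat_lit 1) (.e (nat_lit 99752) (nat_lit 0) .nil) .nil)))) (.nd (nat_lit 9) 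
(.lf (nat_lit 475628) (.g (nat_lit 2371) (.e (nat_lit 7936) (nat_lit 121) (.e (nat_lit 532544) (nat_lit 10) (.e (nat_lit 344133) (nat_lit 26) (.e (nat_lit 557098) (nat_lit 13) (.e (nat_lit 172063) (nat_lit 2) .nil))))) (.g (nat_lit 0) (.e (nat_lit 99292) (nat_lit 0) .nil) .nil))) 
(.lf (nat_lit 476140) (.g (nat_lit 2098) (.e (nat_lit 1792) (nat_lit 119) (.e (nat_lit 516115) (nat_lit 1) (.e (nat_lit 164399) (nat_lit 256) (.e (nat_lit 57372) (nat_lit 2) (.e (nat_lit 90167) (nat_lit 13) .nil))))) (.g (nat_lit 0) (.e (nat_lit 100098) (nat_lit 0) .nil) .nil)))))))) (.nd (nat_lit 5) (.nd (nat_lit 6) (.nd (nat_lit 7) (.nd (nat_lit 8) (.nd (nat_lit 9) 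
(.lf (nat_lit 475164) (.g (nat_lit 2409) (.e (nat_lit 1426) (nat_lit 108) (.e (nat_lit 336432) (nat_lit 30) (.e (nat_lit 450565) (nat_lit 0) (.e (nat_lit 5548) (nat_lit 306) (.e (nat_lit 2638) (nat_lit 165) (.e (nat_lit 180277) (nat_lit 32) .nil)))))) (.g (nat_lit 1) (.e (nat_lit 97349) (nat_lit 0) .nil) .nil))) 
(.lf (nat_lit 475676) (.g (nat_lit 2838) (.e (nat_lit 1781) (nat_lit 119) (.e (nat_lit 516119) (nat_lit 1) (.e (nat_lit 164403) (nat_lit 256) (.e (nat_lit 57373) (nat_lit 2) (.e (nat_lit 90167) (nat_lit 13) .nil))))) (.g (nat_lit 0) (.e (nat_lit 99416) (nat_lit 0) .nil) .nil)))) (.nd (nat_lit 9) 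
(.lf (nat_lit 475420) (.g (nat_lit 2851) (.e (nat_lit 1642) (nat_lit 114) (.e (nat_lit 385074) (nat_lit 31) (.e (nat_lit 573491) (nat_lit 15) (.e (nat_lit 81951) (nat_lit 22) (.e (nat_lit 90133) (nat_lit 9) (.e (nat_lit 2397) (nat_lit 157) (.e (nat_lit 7489) (nat_lit 402) .nil))))))) (.g (nat_lit 1) (.e (nat_lit 98395) (nat_lit 0) .nil) .nil))) 
(.lf (nat_lit 475932) (.g (nat_lit 3221) (.e (nat_lit 1788) (nat_lit 119) (.e (nat_lit 516139) (nat_lit 7) (.e (nat_lit 409645) (nat_lit 18) (.e (nat_lit 303119) (nat_lit 3) (.e (nat_lit 204866) (nat_lit 28) (.e (nat_lit 352301) (nat_lit 20) .nil)))))) (.g (nat_lit 1) (.e (nat_lit 99828) (nat_lit 0) .nil) .nil))))) (.nd (nat_lit 8) (.nd (nat_lit 9) 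
(.lf (nat_lit 475292) (.g (nat_lit 1902) (.e (nat_lit 1515) (nat_lit 108) (.e (nat_lit 336378) (nat_lit 27) (.e (nat_lit 426347) (nat_lit 14) (.e (nat_lit 491549) (nat_lit 9) (.e (nat_lit 336421) (nat_lit 28) (.e (nat_lit 434178) (nat_lit 0) .nil)))))) (.g (nat_lit 1) (.e (nat_lit 97830) (nat_lit 0) .nil) .nil))) 
(.lf (nat_lit 475804) (.g (nat_lit 1501) (.e (nat_lit 1784) (nat_lit 119) (.e (nat_lit 516126) (nat_lit 2) (.e (nat_lit 213032) (nat_lit 11) (.e (nat_lit 24604) (nat_lit 2) (.e (nat_lit 90178) (nat_lit 15) (.e (nat_lit 188418) (nat_lit 0) .nil)))))) (.g (nat_lit 1) (.e (nat_lit 99638) (nat_lit 0) .nil) .nil)))) (.nd (nat_lit 9) 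
(.lf (nat_lit 475548) (.g (nat_lit 2714) (.e (nat_lit 1673) (nat_lit 116) (.e (nat_lit 401448) (nat_lit 10) (.e (nat_lit 434238) (nat_lit 25) (.e (nat_lit 548898) (nat_lit 14) (.e (nat_lit 3027) (nat_lit 187) (.e (nat_lit 450570) (nat_lit 1) (.e (nat_lit 499985) (nat_lit 14) .nil))))))) (.g (nat_lit 1) (.e (nat_lit 98890) (nat_lit 0) .nil) .nil))) 
(.lf (nat_lit 476060) (.g (nat_lit 5363) (.e (nat_lit 1788) (nat_lit 119) (.e (nat_lit 516151) (nat_lit 9) (.e (nat_lit 426286) (nat_lit 10) (.e (nat_lit 434248) (nat_lit 28) (.e (nat_lit 573471) (nat_lit 11) (.e (nat_lit 16473) (nat_lit 14) (.e (nat_lit 491525) (nat_lit 0) .nil))))))) (.g (nat_lit 1) (.e (nat_lit 99969) (nat_lit 0) .nil) .nil)))))) 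
(.nd (nat_lit 7) (.nd (nat_lit 8) (.nd (nat_lit 9) 
(.lf (nat_lit 475228) (.g (nat_lit 2216) (.e (nat_lit 1433) (nat_lit 108) (.e (nat_lit 336456) (nat_lit 34) (.e (nat_lit 483383) (nat_lit 23) (.e (nat_lit 336019) (nat_lit 3) (.e (nat_lit 98333) (nat_lit 18) .nil))))) (.g (nat_lit 0) (.e (nat_lit 97588) (nat_lit 0) .nil) .nil))) 
(.lf (nat_lit 475740) (.g (nat_lit 536) (.e (nat_lit 1782) (nat_lit 119) (.e (nat_lit 516120) (nat_lit 1) (.e (nat_lit 164330) (nat_lit 230) .nil))) (.g (nat_lit 0) (.e (nat_lit 99510) (nat_lit 0) .nil) .nil)))) (.nd (nat_lit 9) 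
(.lf (nat_lit 475484) (.g (nat_lit 2175) (.e (nat_lit 1668) (nat_lit 116) (.e (nat_lit 401454) (nat_lit 12) (.e (nat_lit 475209) (nat_lit 41) (.e (nat_lit 712755) (nat_lit 30) (.e (nat_lit 450563) (nat_lit 0) .nil))))) (.g (nat_lit 0) (.e (nat_lit 98637) (nat_lit 0) .nil) .nil))) 
(.lf (nat_lit 475996) (.g (nat_lit 1533) (.e (nat_lit 1788) (nat_lit 119) (.e (nat_lit 516139) (nat_lit 7) (.e (nat_lit 409649) (nat_lit 18) (.e (nat_lit 303117) (nat_lit 2) .nil)))) (.g (nat_lit 0) (.e (nat_lit 99897) (nat_lit 0) .nil) .nil))))) (.nd (nat_lit 8) (.nd (nat_lit 9) 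
(.lf (nat_lit 475356) (.g (nat_lit 3391) (.e (nat_lit 1587) (nat_lit 111) (.e (nat_lit 360475) (nat_lit 8) (.e (nat_lit 557091) (nat_lit 12) (.e (nat_lit 164022) (nat_lit 46) (.e (nat_lit 704629) (nat_lit 9) (.e (nat_lit 452) (nat_lit 33) (.e (nat_lit 434219) (nat_lit 19) (.e (nat_lit 499979) (nat_lit 14) .nil)))))))) (.g (nat_lit 1) (.e (nat_lit 98169) (nat_lit 0) .nil) .nil))) 
(.lf (nat_lit 475868) (.g (nat_lit 4467) (.e (nat_lit 1788) (nat_lit 119) (.e (nat_lit 516115) (nat_lit 1) (.e (nat_lit 164325) (nat_lit 230) (.e (nat_lit 163903) (nat_lit 12) (.e (nat_lit 426566) (nat_lit 34) (.e (nat_lit 393273) (nat_lit 23) (.e (nat_lit 426364) (nat_lit 15) .nil))))))) (.g (nat_lit 1) (.e (nat_lit 99727) (nat_lit 0) .nil) .nil)))) (.nd (nat_lit 9) 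
(.lf (nat_lit 475612) (.g (nat_lit 1266) (.e (nat_lit 7936) (nat_lit 121) (.e (nat_lit 532544) (nat_lit 10) (.e (nat_lit 344117) (nat_lit 21) (.e (nat_lit 516130) (nat_lit 3) .nil)))) (.g (nat_lit 0) (.e (nat_lit 99276) (nat_lit 0) .nil) .nil))) 
(.lf (nat_lit 476124) (.g (nat_lit 1885) (.e (nat_lit 1791) (nat_lit 119) (.e (nat_lit 516115) (nat_lit 1) (.e (nat_lit 164399) (nat_lit 256) (.e (nat_lit 57370) (nat_lit 2) (.e (nat_lit 90172) (nat_lit 14) .nil))))) (.g (nat_lit 0) (.e (nat_lit 100076) (nat_lit 0) .nil) .nil))))))) (.nd (nat_lit 6) (.nd (nat_lit 7) (.nd (nat_lit 8) (.nd (nat_lit 9) 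
(.lf (nat_lit 475196) (.g (nat_lit 2111) (.e (nat_lit 1428) (nat_lit 108) (.e (nat_lit 336430) (nat_lit 29) (.e (nat_lit 442378) (nat_lit 0) (.e (nat_lit 2058) (nat_lit 142) (.e (nat_lit 704595) (nat_lit 5) (.e (nat_lit 180278) (nat_lit 32) .nil)))))) (.g (nat_lit 1) (.e (nat_lit 97521) (nat_lit 0) .nil) .nil))) 
(.lf (nat_lit 475708) (.g (nat_lit 3303) (.e (nat_lit 1781) (nat_lit 119) (.e (nat_lit 516151) (nat_lit 9) (.e (nat_lit 426211) (nat_lit 9) (.e (nat_lit 426140) (nat_lit 3) (.e (nat_lit 204845) (nat_lit 24) .nil))))) (.g (nat_lit 0) (.e (nat_lit 99457) (nat_lit 0) .nil) .nil)))) (.nd (nat_lit 9) 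
(.lf (nat_lit 475452) (.g (nat_lit 1824) (.e (nat_lit 1659) (nat_lit 115) (.e (nat_lit 393279) (nat_lit 23) (.e (nat_lit 426110) (nat_lit 1) (.e (nat_lit 164348) (nat_lit 240) (.e (nat_lit 2639) (nat_lit 165) (.e (nat_lit 180277) (nat_lit 32) .nil)))))) (.g (nat_lit 1) (.e (nat_lit 98478) (nat_lit 0) .nil) .nil))) 
(.lf (nat_lit 475964) (.g (nat_lit 3770) (.e (nat_lit 1788) (nat_lit 119) (.e (nat_lit 516139) (nat_lit 7) (.e (nat_lit 409648) (nat_lit 18) (.e (nat_lit 303117) (nat_lit 2) (.e (nat_lit 196666) (nat_lit 13) (.e (nat_lit 65596) (nat_lit 9) (.e (nat_lit 335920) (nat_lit 0) .nil))))))) (.g (nat_lit 1) (.e (nat_lit 99860) (nat_lit 0) .nil) .nil))))) (.nd (nat_lit 8) (.nd (nat_lit 9) 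
(.lf (nat_lit 475324) (.g (nat_lit 2847) (.e (nat_lit 1583) (nat_lit 111) (.e (nat_lit 360475) (nat_lit 8) (.e (nat_lit 557090) (nat_lit 12) (.e (nat_lit 164020) (nat_lit 45) (.e (nat_lit 696328) (nat_lit 5) (.e (nat_lit 2878) (nat_lit 184) (.e (nat_lit 426125) (nat_lit 2) (.e (nat_lit 204544) (nat_lit 9) .nil)))))))) (.g (nat_lit 1) (.e (nat_lit 98114) (nat_lit 0) .nil) .nil))) 
(.lf (nat_lit 475836) (.g (nat_lit 2159) (.e (nat_lit 1787) (nat_lit 119) (.e (nat_lit 516120) (nat_lit 1) (.e (nat_lit 164329) (nat_lit 230) (.e (nat_lit 163941) (nat_lit 19) .nil)))) (.g (nat_lit 0) (.e (nat_lit 99680) (nat_lit 0) .nil) .nil)))) (.nd (nat_lit 9) 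
(.lf (nat_lit 475580) (.g (nat_lit 4149) (.e (nat_lit 1675) (nat_lit 116) (.e (nat_lit 401451) (nat_lit 12) (.e (nat_lit 475185) (nat_lit 29) (.e (nat_lit 557107) (nat_lit 15) .nil)))) (.g (nat_lit 0) (.e (nat_lit 98942) (nat_lit 0) .nil) .nil))) 
(.lf (nat_lit 476092) (.g (nat_lit 3163) (.e (nat_lit 1788) (nat_lit 119) (.e (nat_lit 516166) (nat_lit 12) (.e (nat_lit 450588) (nat_lit 10) (.e (nat_lit 573473) (nat_lit 12) (.e (nat_lit 57572) (nat_lit 54) .nil))))) (.g (nat_lit 0) (.e (nat_lit 100016) (nat_lit 0) .nil) .nil)))))) (.nd (nat_lit 7) (.nd (nat_lit 8) (.nd (nat_lit 9) 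
(.lf (nat_lit 475260) (.g (nat_lit 533) (.e (nat_lit 1454) (nat_lit 108) (.e (nat_lit 336295) (nat_lit 15) (.e (nat_lit 3305) (nat_lit 202) .nil))) (.g (nat_lit 0) (.e (nat_lit 97658) (nat_lit 0) .nil) .nil))) 
(.lf (nat_lit 475772) (.g (nat_lit 1530) (.e (nat_lit 1786) (nat_lit 119) (.e (nat_lit 516120) (nat_lit 1) (.e (nat_lit 164330) (nat_lit 230) (.e (nat_lit 163941) (nat_lit 19) .nil)))) (.g (nat_lit 0) (.e (nat_lit 99578) (nat_lit 0) .nil) .nil)))) (.nd (nat_lit 9) 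
(.lf (nat_lit 475516) (.g (nat_lit 4139) (.e (nat_lit 1672) (nat_lit 116) (.e (nat_lit 401451) (nat_lit 12) (.e (nat_lit 475185) (nat_lit 29) (.e (nat_lit 557109) (nat_lit 15) .nil)))) (.g (nat_lit 0) (.e (nat_lit 98849) (nat_lit 0) .nil) .nil))) 
(.lf (nat_lit 476028) (.g (nat_lit 2434) (.e (nat_lit 1788) (nat_lit 119) (.e (nat_lit 516139) (nat_lit 7) (.e (nat_lit 409649) (nat_lit 18) (.e (nat_lit 303119) (nat_lit 3) (.e (nat_lit 204855) (nat_lit 26) .nil))))) (.g (nat_lit 0) (.e (nat_lit 99929) (nat_lit 0) .nil) .nil))))) (.nd (nat_lit 8) (.nd (nat_lit 9) 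
(.lf (nat_lit 475388) (.g (nat_lit 2407) (.e (nat_lit 1635) (nat_lit 114) (.e (nat_lit 385072) (nat_lit 31) (.e (nat_lit 573481) (nat_lit 13) (.e (nat_lit 65619) (nat_lit 10) (.e (nat_lit 344117) (nat_lit 21) .nil))))) (.g (nat_lit 0) (.e (nat_lit 98277) (nat_lit 0) .nil) .nil))) 
(.lf (nat_lit 475900) (.g (nat_lit 2641) (.e (nat_lit 1788) (nat_lit 119) (.e (nat_lit 516138) (nat_lit 7) (.e (nat_lit 409645) (nat_lit 18) (.e (nat_lit 303117) (nat_lit 2) (.e (nat_lit 196672) (nat_lit 15) (.e (nat_lit 81943) (nat_lit 20) .nil)))))) (.g (nat_lit 1) (.e (nat_lit 99787) (nat_lit 0) .nil) .nil)))) (.nd (nat_lit 9) 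
(.lf (nat_lit 475644) (.g (nat_lit 1983) (.e (nat_lit 7936) (nat_lit 121) (.e (nat_lit 532563) (nat_lit 15) (.e (nat_lit 385068) (nat_lit 26) (.e (nat_lit 532545) (nat_lit 10) .nil)))) (.g (nat_lit 0) (.e (nat_lit 99338) (nat_lit 0) .nil) .nil))) 
(.lf (nat_lit 476156) (.g (nat_lit 3434) (.e (nat_lit 1792) (nat_lit 119) (.e (nat_lit 516166) (nat_lit 12) (.e (nat_lit 450587) (nat_lit 10) (.e (nat_lit 573478) (nat_lit 12) (.e (nat_lit 57574) (nat_lit 55) .nil))))) (.g (nat_lit 0) (.e (nat_lit 100121) (nat_lit 0) .nil) .nil))))))))))) 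
(.nd (nat_lit 2) (.nd (nat_lit 3) (.nd (nat_lit 4) (.nd (nat_lit 5) (.nd (nat_lit 6) 
(.nd (nat_lit 7) (.nd (nat_lit 8) (.nd (nat_lit 9) 
(.lf (nat_lit 475138) (.g (nat_lit 2557) (.e (nat_lit 1426) (nat_lit 108) (.e (nat_lit 336430) (nat_lit 29) (.e (nat_lit 442379) (nat_lit 0) (.e (nat_lit 2058) (nat_lit 142) (.e (nat_lit 704595) (nat_lit 5) (.e (nat_lit 180277) (nat_lit 32) .nil)))))) (.g (nat_lit 1) (.e (nat_lit 97316) (nat_lit 0) .nil) .nil))) 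
(.lf (nat_lit 475650) (.g (nat_lit 468) (.e (nat_lit 1778) (nat_lit 119) (.e (nat_lit 516139) (nat_lit 7) (.e (nat_lit 409649) (nat_lit 18) .nil))) (.g (nat_lit 0) (.e (nat_lit 99380) (nat_lit 0) .nil) .nil)))) (.nd (nat_lit 9) 
(.lf (nat_lit 475394) (.g (nat_lit 892) (.e (nat_lit 1636) (nat_lit 114) (.e (nat_lit 385109) (nat_lit 51) (.e (nat_lit 794684) (nat_lit 25) .nil))) (.g (nat_lit 0) (.e (nat_lit 98297) (nat_lit 0) .nil) .nil))) 
(.lf (nat_lit 475906) (.g (nat_lit 2593) (.e (nat_lit 1788) (nat_lit 119) (.e (nat_lit 516138) (nat_lit 7) (.e (nat_lit 409646) (nat_lit 18) (.e (nat_lit 303112) (nat_lit 0) (.e (nat_lit 3252) (nat_lit 197) .nil))))) (.g (nat_lit 0) (.e (nat_lit 99796) (nat_lit 0) .nil) .nil))))) (.nd (nat_lit 8) (.nd (nat_lit 9) 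
(.lf (nat_lit 475266) (.g (nat_lit 1137) (.e (nat_lit 1454) (nat_lit 108) (.e (nat_lit 336389) (nat_lit 27) (.e (nat_lit 426341) (nat_lit 14) (.e (nat_lit 491570) (nat_lit 13) .nil)))) (.g (nat_lit 0) (.e (nat_lit 97692) (nat_lit 0) .nil) .nil))) 
(.lf (nat_lit 475778) (.g (nat_lit 928) (.e (nat_lit 1786) (nat_lit 119) (.e (nat_lit 516127) (nat_lit 2) (.e (nat_lit 213030) (nat_lit 11) (.e (nat_lit 24609) (nat_lit 3) (.e (nat_lit 98381) (nat_lit 31) .nil))))) (.g (nat_lit 0) (.e (nat_lit 99586) (nat_lit 0) .nil) .nil)))) (.nd (nat_lit 9) 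
(.lf (nat_lit 475522) (.g (nat_lit 3562) (.e (nat_lit 1673) (nat_lit 116) (.e (nat_lit 401446) (nat_lit 10) (.e (nat_lit 434238) (nat_lit 25) (.e (nat_lit 548913) (nat_lit 18) (.e (nat_lit 172094) (nat_lit 9) (.e (nat_lit 426125) (nat_lit 2) (.e (nat_lit 196632) (nat_lit 9) .nil))))))) (.g (nat_lit 1) (.e (nat_lit 98861) (nat_lit 0) .nil) .nil))) 
(.lf (nat_lit 476034) (.g (nat_lit 2592) (.e (nat_lit 1788) (nat_lit 119) (.e (nat_lit 516151) (nat_lit 9) (.e (nat_lit 426286) (nat_lit 10) (.e (nat_lit 434245) (nat_lit 28) (.e (nat_lit 573469) (nat_lit 11) (.e (nat_lit 16471) (nat_lit 14) (.e (nat_lit 491526) (nat_lit 0) .nil))))))) (.g (nat_lit 1) (.e (nat_lit 99943) (nat_lit 0) .nil) .nil)))))) 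
(.nd (nat_lit 7) (.nd (nat_lit 8) (.nd (nat_lit 9) 
(.lf (nat_lit 475202) (.g (nat_lit 3222) (.e (nat_lit 1428) (nat_lit 108) (.e (nat_lit 336434) (nat_lit 30) (.e (nat_lit 450564) (nat_lit 0) (.e (nat_lit 5548) (nat_lit 306) (.e (nat_lit 2638) (nat_lit 165) (.e (nat_lit 180277) (nat_lit 32) .nil)))))) (.g (nat_lit 1) (.e (nat_lit 97531) (nat_lit 0) .nil) .nil))) 
(.lf (nat_lit 475714) (.g (nat_lit 3662) (.e (nat_lit 1781) (nat_lit 119) (.e (nat_lit 516166) (nat_lit 12) (.e (nat_lit 450587) (nat_lit 10) (.e (nat_lit 573477) (nat_lit 12) (.e (nat_lit 57575) (nat_lit 55) .nil))))) (.g (nat_lit 0) (.e (nat_lit 99465) (nat_lit 0) .nil) .nil)))) (.nd (nat_lit 9) 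
(.lf (nat_lit 475458) (.g (nat_lit 856) (.e (nat_lit 1660) (nat_lit 115) (.e (nat_lit 393271) (nat_lit 23) (.e (nat_lit 426111) (nat_lit 1) .nil))) (.g (nat_lit 0) (.e (nat_lit 98507) (nat_lit 0) .nil) .nil))) 
(.lf (nat_lit 475970) (.g (nat_lit 2926) (.e (nat_lit 1788) (nat_lit 119) (.e (nat_lit 516139) (nat_lit 7) (.e (nat_lit 409648) (nat_lit 18) (.e (nat_lit 303117) (nat_lit 2) (.e (nat_lit 196666) (nat_lit 13) (.e (nat_lit 65599) (nat_lit 9) (.e (nat_lit 335886) (nat_lit 0) .nil))))))) (.g (nat_lit 1) (.e (nat_lit 99866) (nat_lit 0) .nil) .nil))))) (.nd (nat_lit 8) (.nd (nat_lit 9) 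
(.lf (nat_lit 475330) (.g (nat_lit 2877) (.e (nat_lit 1586) (nat_lit 111) (.e (nat_lit 360451) (nat_lit 0) (.e (nat_lit 7607) (nat_lit 410) (.e (nat_lit 2630) (nat_lit 164) (.e (nat_lit 172106) (nat_lit 10) (.e (nat_lit 434241) (nat_lit 27) (.e (nat_lit 565252) (nat_lit 0) .nil))))))) (.g (nat_lit 1) (.e (nat_lit 98135) (nat_lit 0) .nil) .nil))) 
(.lf (nat_lit 475842) (.g (nat_lit 5264) (.e (nat_lit 1787) (nat_lit 119) (.e (nat_lit 516166) (nat_lit 12) (.e (nat_lit 450588) (nat_lit 10) (.e (nat_lit 573475) (nat_lit 12) (.e (nat_lit 57574) (nat_lit 55) .nil))))) (.g (nat_lit 0) (.e (nat_lit 99688) (nat_lit 0) .nil) .nil)))) (.nd (nat_lit 9) 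
(.lf (nat_lit 475586) (.g (nat_lit 1670) (.e (nat_lit 1676) (nat_lit 116) (.e (nat_lit 401454) (nat_lit 12) (.e (nat_lit 475209) (nat_lit 41) (.e (nat_lit 712755) (nat_lit 30) .nil)))) (.g (nat_lit 0) (.e (nat_lit 98983) (nat_lit 0) .nil) .nil))) 
(.lf (nat_lit 476098) (.g (nat_lit 3785) (.e (nat_lit 1788) (nat_lit 119) (.e (nat_lit 516179) (nat_lit 15) (.e (nat_lit 475177) (nat_lit 24) (.e (nat_lit 516148) (nat_lit 9) (.e (nat_lit 426436) (nat_lit 18) (.e (nat_lit 98358) (nat_lit 26) (.e (nat_lit 426402) (nat_lit 15) .nil))))))) (.g (nat_lit 1) (.e (nat_lit 100022) (nat_lit 0) .nil) .nil))))))) 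
(.nd (nat_lit 6) (.nd (nat_lit 7) (.nd (nat_lit 8) (.nd (nat_lit 9) 
(.lf (nat_lit 475170) (.g (nat_lit 2612) (.e (nat_lit 1426) (nat_lit 108) (.e (nat_lit 336443) (nat_lit 32) (.e (nat_lit 466971) (nat_lit 21) (.e (nat_lit 164345) (nat_lit 240) (.e (nat_lit 2638) (nat_lit 165) (.e (nat_lit 180277) (nat_lit 32) .nil)))))) (.g (nat_lit 1) (.e (nat_lit 97357) (nat_lit 0) .nil) .nil))) 
(.lf (nat_lit 475682) (.g (nat_lit 499) (.e (nat_lit 1781) (nat_lit 119) (.e (nat_lit 516120) (nat_lit 1) (.e (nat_lit 164329) (nat_lit 230) .nil))) (.g (nat_lit 0) (.e (nat_lit 99422) (nat_lit 0) .nil) .nil)))) (.nd (nat_lit 9) 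
(.lf (nat_lit 475426) (.g (nat_lit 2442) (.e (nat_lit 1643) (nat_lit 114) (.e (nat_lit 385068) (nat_lit 26) (.e (nat_lit 532530) (nat_lit 9) (.e (nat_lit 336326) (nat_lit 18) .nil)))) (.g (nat_lit 0) (.e (nat_lit 98406) (nat_lit 0) .nil) .nil))) 
(.lf (nat_lit 475938) (.g (nat_lit 1516) (.e (nat_lit 1788) (nat_lit 119) (.e (nat_lit 516139) (nat_lit 7) (.e (nat_lit 409647) (nat_lit 18) (.e (nat_lit 303118) (nat_lit 3) .nil)))) (.g (nat_lit 0) (.e (nat_lit 99834) (nat_lit 0) .nil) .nil))))) (.nd (nat_lit 8) (.nd (nat_lit 9) 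
(.lf (nat_lit 475298) (.g (nat_lit 2017) (.e (nat_lit 1517) (nat_lit 108) (.e (nat_lit 336420) (nat_lit 28) (.e (nat_lit 434181) (nat_lit 0) (.e (nat_lit 1427) (nat_lit 108) (.e (nat_lit 336421) (nat_lit 28) (.e (nat_lit 434178) (nat_lit 0) .nil)))))) (.g (nat_lit 1) (.e (nat_lit 97938) (nat_lit 0) .nil) .nil))) 
(.lf (nat_lit 475810) (.g (nat_lit 4090) (.e (nat_lit 1784) (nat_lit 119) (.e (nat_lit 516166) (nat_lit 12) (.e (nat_lit 450587) (nat_lit 10) (.e (nat_lit 573456) (nat_lit 9) .nil)))) (.g (nat_lit 0) (.e (nat_lit 99649) (nat_lit 0) .nil) .nil)))) (.nd (nat_lit 9) 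
(.lf (nat_lit 475554) (.g (nat_lit 6354) (.e (nat_lit 1673) (nat_lit 116) (.e (nat_lit 401448) (nat_lit 10) (.e (nat_lit 434238) (nat_lit 25) (.e (nat_lit 548913) (nat_lit 18) (.e (nat_lit 172094) (nat_lit 9) (.e (nat_lit 426125) (nat_lit 2) (.e (nat_lit 196642) (nat_lit 9) .nil))))))) (.g (nat_lit 1) (.e (nat_lit 98896) (nat_lit 0) .nil) .nil))) 
(.lf (nat_lit 476066) (.g (nat_lit 2037) (.e (nat_lit 1788) (nat_lit 119) (.e (nat_lit 516165) (nat_lit 12) (.e (nat_lit 450588) (nat_lit 10) (.e (nat_lit 573452) (nat_lit 9) .nil)))) (.g (nat_lit 0) (.e (nat_lit 99990) (nat_lit 0) .nil) .nil)))))) (.nd (nat_lit 7) (.nd (nat_lit 8) (.nd (nat_lit 9) 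
(.lf (nat_lit 475234) (.g (nat_lit 885) (.e (nat_lit 1449) (nat_lit 108) (.e (nat_lit 336013) (nat_lit 2) (.e (nat_lit 90134) (nat_lit 9) .nil))) (.g (nat_lit 0) (.e (nat_lit 97608) (nat_lit 0) .nil) .nil))) 
(.lf (nat_lit 475746) (.g (nat_lit 4928) (.e (nat_lit 1782) (nat_lit 119) (.e (nat_lit 516166) (nat_lit 12) (.e (nat_lit 450588) (nat_lit 10) (.e (nat_lit 573470) (nat_lit 11) .nil)))) (.g (nat_lit 0) (.e (nat_lit 99519) (nat_lit 0) .nil) .nil)))) (.nd (nat_lit 9) 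
(.lf (nat_lit 475490) (.g (nat_lit 5937) (.e (nat_lit 1669) (nat_lit 116) (.e (nat_lit 401451) (nat_lit 12) (.e (nat_lit 475185) (nat_lit 29) (.e (nat_lit 557098) (nat_lit 13) (.e (nat_lit 172097) (nat_lit 9) (.e (nat_lit 426125) (nat_lit 2) (.e (nat_lit 196630) (nat_lit 9) .nil))))))) (.g (nat_lit 1) (.e (nat_lit 98755) (nat_lit 0) .nil) .nil))) 
(.lf (nat_lit 476002) (.g (nat_lit 3815) (.e (nat_lit 1788) (nat_lit 119) (.e (nat_lit 516139) (nat_lit 7) (.e (nat_lit 409649) (nat_lit 18) (.e (nat_lit 303117) (nat_lit 2) (.e (nat_lit 196666) (nat_lit 13) (.e (nat_lit 65596) (nat_lit 9) (.e (nat_lit 335886) (nat_lit 0) .nil))))))) (.g (nat_lit 1) (.e (nat_lit 99903) (nat_lit 0) .nil) .nil))))) (.nd (nat_lit 8) (.nd (nat_lit 9) 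
(.lf (nat_lit 475362) (.g (nat_lit 3147) (.e (nat_lit 1587) (nat_lit 111) (.e (nat_lit 360475) (nat_lit 8) (.e (nat_lit 557091) (nat_lit 12) (.e (nat_lit 164022) (nat_lit 46) (.e (nat_lit 704629) (nat_lit 9) (.e (nat_lit 452) (nat_lit 33) (.e (nat_lit 434219) (nat_lit 19) (.e (nat_lit 499992) (nat_lit 14) .nil)))))))) (.g (nat_lit 1) (.e (nat_lit 98175) (nat_lit 0) .nil) .nil))) 
(.lf (nat_lit 475874) (.g (nat_lit 4906) (.e (nat_lit 1788) (nat_lit 119) (.e (nat_lit 516115) (nat_lit 1) (.e (nat_lit 164325) (nat_lit 230) (.e (nat_lit 163907) (nat_lit 12) (.e (nat_lit 426566) (nat_lit 34) (.e (nat_lit 393273) (nat_lit 23) (.e (nat_lit 426402) (nat_lit 15) .nil))))))) (.g (nat_lit 1) (.e (nat_lit 99733) (nat_lit 0) .nil) .nil)))) (.nd (nat_lit 9) 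
(.lf (nat_lit 475618) (.g (nat_lit 1113) (.e (nat_lit 7936) (nat_lit 121) (.e (nat_lit 532544) (nat_lit 10) (.e (nat_lit 344129) (nat_lit 26) (.e (nat_lit 557103) (nat_lit 14) .nil)))) (.g (nat_lit 0) (.e (nat_lit 99282) (nat_lit 0) .nil) .nil))) 
(.lf (nat_lit 476130) (.g (nat_lit 2187) (.e (nat_lit 1791) (nat_lit 119) (.e (nat_lit 516115) (nat_lit 1) (.e (nat_lit 164399) (nat_lit 256) (.e (nat_lit 57378) (nat_lit 3) (.e (nat_lit 98376) (nat_lit 30) .nil))))) (.g (nat_lit 0) (.e (nat_lit 100082) (nat_lit 0) .nil) .nil)))))))) (.nd (nat_lit 5) (.nd (nat_lit 6) (.nd (nat_lit 7) (.nd (nat_lit 8) (.nd (nat_lit 9) 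
(.lf (nat_lit 475154) (.g (nat_lit 3045) (.e (nat_lit 1426) (nat_lit 108) (.e (nat_lit 336430) (nat_lit 29) (.e (nat_lit 442421) (nat_lit 21) (.e (nat_lit 164348) (nat_lit 240) (.e (nat_lit 2638) (nat_lit 165) (.e (nat_lit 180277) (nat_lit 32) .nil)))))) (.g (nat_lit 1) (.e (nat_lit 97339) (nat_lit 0) .nil) .nil))) 
(.lf (nat_lit 475666) (.g (nat_lit 2422) (.e (nat_lit 1781) (nat_lit 119) (.e (nat_lit 516116) (nat_lit 1) (.e (nat_lit 164329) (nat_lit 230) (.e (nat_lit 163902) (nat_lit 12) (.e (nat_lit 426568) (nat_lit 34) .nil))))) (.g (nat_lit 0) (.e (nat_lit 99403) (nat_lit 0) .nil) .nil)))) (.nd (nat_lit 9) 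
(.lf (nat_lit 475410) (.g (nat_lit 1732) (.e (nat_lit 1638) (nat_lit 114) (.e (nat_lit 385074) (nat_lit 31) (.e (nat_lit 573485) (nat_lit 13) (.e (nat_lit 65619) (nat_lit 10) (.e (nat_lit 344117) (nat_lit 21) .nil))))) (.g (nat_lit 0) (.e (nat_lit 98332) (nat_lit 0) .nil) .nil))) 
(.lf (nat_lit 475922) (.g (nat_lit 1139) (.e (nat_lit 1788) (nat_lit 119) (.e (nat_lit 516139) (nat_lit 7) (.e (nat_lit 409643) (nat_lit 18) (.e (nat_lit 303118) (nat_lit 3) .nil)))) (.g (nat_lit 0) (.e (nat_lit 99818) (nat_lit 0) .nil) .nil))))) (.nd (nat_lit 8) (.nd (nat_lit 9) 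
(.lf (nat_lit 475282) (.g (nat_lit 4101) (.e (nat_lit 1512) (nat_lit 108) (.e (nat_lit 335872) (nat_lit 0) (.e (nat_lit 6713) (nat_lit 360) (.e (nat_lit 163962) (nat_lit 25) (.e (nat_lit 532535) (nat_lit 9) (.e (nat_lit 336226) (nat_lit 14) (.e (nat_lit 401425) (nat_lit 2) (.e (nat_lit 196628) (nat_lit 9) .nil)))))))) (.g (nat_lit 1) (.e (nat_lit 97722) (nat_lit 0) .nil) .nil))) 
(.lf (nat_lit 475794) (.g (nat_lit 1477) (.e (nat_lit 1784) (nat_lit 119) (.e (nat_lit 516117) (nat_lit 1) (.e (nat_lit 164329) (nat_lit 230) (.e (nat_lit 163941) (nat_lit 19) .nil)))) (.g (nat_lit 0) (.e (nat_lit 99622) (nat_lit 0) .nil) .nil)))) (.nd (nat_lit 9) 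
(.lf (nat_lit 475538) (.g (nat_lit 2999) (.e (nat_lit 1673) (nat_lit 116) (.e (nat_lit 401447) (nat_lit 10) (.e (nat_lit 434272) (nat_lit 38) (.e (nat_lit 655378) (nat_lit 4) (.e (nat_lit 172113) (nat_lit 10) (.e (nat_lit 434279) (nat_lit 39) (.e (nat_lit 663556) (nat_lit 0) .nil))))))) (.g (nat_lit 1) (.e (nat_lit 98878) (nat_lit 0) .nil) .nil))) 
(.lf (nat_lit 476050) (.g (nat_lit 5025) (.e (nat_lit 1788) (nat_lit 119) (.e (nat_lit 516151) (nat_lit 9) (.e (nat_lit 426286) (nat_lit 10) (.e (nat_lit 434248) (nat_lit 28) (.e (nat_lit 573469) (nat_lit 11) (.e (nat_lit 16472) (nat_lit 14) (.e (nat_lit 491526) (nat_lit 0) .nil))))))) (.g (nat_lit 1) (.e (nat_lit 99959) (nat_lit 0) .nil) .nil)))))) 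
(.nd (nat_lit 7) (.nd (nat_lit 8) (.nd (nat_lit 9) 
(.lf (nat_lit 475218) (.g (nat_lit 885) (.e (nat_lit 1433) (nat_lit 108) (.e (nat_lit 336430) (nat_lit 29) (.e (nat_lit 442379) (nat_lit 0) .nil))) (.g (nat_lit 0) (.e (nat_lit 97578) (nat_lit 0) .nil) .nil))) 
(.lf (nat_lit 475730) (.g (nat_lit 2198) (.e (nat_lit 1781) (nat_lit 119) (.e (nat_lit 516182) (nat_lit 15) (.e (nat_lit 475199) (nat_lit 40) (.e (nat_lit 704589) (nat_lit 3) (.e (nat_lit 163976) (nat_lit 30) (.e (nat_lit 573491) (nat_lit 15) (.e (nat_lit 81943) (nat_lit 20) .nil))))))) (.g (nat_lit 1) (.e (nat_lit 99488) (nat_lit 0) .nil) .nil)))) (.nd (nat_lit 9) 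
(.lf (nat_lit 475474) (.g (nat_lit 625) (.e (nat_lit 1665) (nat_lit 115) (.e (nat_lit 393301) (nat_lit 27) (.e (nat_lit 491526) (nat_lit 0) .nil))) (.g (nat_lit 0) (.e (nat_lit 98611) (nat_lit 0) .nil) .nil))) 
(.lf (nat_lit 475986) (.g (nat_lit 3833) (.e (nat_lit 1788) (nat_lit 119) (.e (nat_lit 516139) (nat_lit 7) (.e (nat_lit 409648) (nat_lit 18) (.e (nat_lit 303118) (nat_lit 3) (.e (nat_lit 204866) (nat_lit 28) (.e (nat_lit 352303) (nat_lit 20) .nil)))))) (.g (nat_lit 1) (.e (nat_lit 99882) (nat_lit 0) .nil) .nil))))) (.nd (nat_lit 8) (.nd (nat_lit 9) 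
(.lf (nat_lit 475346) (.g (nat_lit 2177) (.e (nat_lit 1587) (nat_lit 111) (.e (nat_lit 360474) (nat_lit 8) (.e (nat_lit 557094) (nat_lit 12) (.e (nat_lit 164022) (nat_lit 46) (.e (nat_lit 704629) (nat_lit 9) (.e (nat_lit 452) (nat_lit 33) (.e (nat_lit 434219) (nat_lit 19) (.e (nat_lit 499985) (nat_lit 14) .nil)))))))) (.g (nat_lit 1) (.e (nat_lit 98159) (nat_lit 0) .nil) .nil))) 
(.lf (nat_lit 475858) (.g (nat_lit 2174) (.e (nat_lit 1790) (nat_lit 119) (.e (nat_lit 516120) (nat_lit 1) (.e (nat_lit 164329) (nat_lit 230) (.e (nat_lit 163941) (nat_lit 19) .nil)))) (.g (nat_lit 0) (.e (nat_lit 99706) (nat_lit 0) .nil) .nil)))) (.nd (nat_lit 9) 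
(.lf (nat_lit 475602) (.g (nat_lit 2097) (.e (nat_lit 1718) (nat_lit 117) (.e (nat_lit 499919) (nat_lit 9) (.e (nat_lit 172113) (nat_lit 10) (.e (nat_lit 434247) (nat_lit 28) (.e (nat_lit 573478) (nat_lit 12) .nil))))) (.g (nat_lit 0) (.e (nat_lit 99049) (nat_lit 0) .nil) .nil))) 
(.lf (nat_lit 476114) (.g (nat_lit 1185) (.e (nat_lit 1788) (nat_lit 119) (.e (nat_lit 516195) (nat_lit 26) (.e (nat_lit 335996) (nat_lit 1) (.e (nat_lit 57931) (nat_lit 282) .nil)))) (.g (nat_lit 0) (.e (nat_lit 100055) (nat_lit 0) .nil) .nil))))))) (.nd (nat_lit 6) (.nd (nat_lit 7) (.nd (nat_lit 8) (.nd (nat_lit 9) 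
(.lf (nat_lit 475186) (.g (nat_lit 4687) (.e (nat_lit 1428) (nat_lit 108) (.e (nat_lit 336324) (nat_lit 18) (.e (nat_lit 204831) (nat_lit 18) (.e (nat_lit 57848) (nat_lit 252) .nil)))) (.g (nat_lit 0) (.e (nat_lit 97507) (nat_lit 0) .nil) .nil))) 
(.lf (nat_lit 475698) (.g (nat_lit 2677) (.e (nat_lit 1781) (nat_lit 119) (.e (nat_lit 516139) (nat_lit 7) (.e (nat_lit 409646) (nat_lit 18) (.e (nat_lit 303117) (nat_lit 2) (.e (nat_lit 196674) (nat_lit 15) (.e (nat_lit 81946) (nat_lit 20) .nil)))))) (.g (nat_lit 1) (.e (nat_lit 99442) (nat_lit 0) .nil) .nil)))) (.nd (nat_lit 9) 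
(.lf (nat_lit 475442) (.g (nat_lit 1324) (.e (nat_lit 1658) (nat_lit 115) (.e (nat_lit 393281) (nat_lit 23) (.e (nat_lit 426107) (nat_lit 1) (.e (nat_lit 164345) (nat_lit 240) .nil)))) (.g (nat_lit 0) (.e (nat_lit 98450) (nat_lit 0) .nil) .nil))) 
(.lf (nat_lit 475954) (.g (nat_lit 3795) (.e (nat_lit 1788) (nat_lit 119) (.e (nat_lit 516139) (nat_lit 7) (.e (nat_lit 409648) (nat_lit 18) (.e (nat_lit 303116) (nat_lit 2) (.e (nat_lit 196666) (nat_lit 13) (.e (nat_lit 65596) (nat_lit 9) (.e (nat_lit 335923) (nat_lit 0) .nil))))))) (.g (nat_lit 1) (.e (nat_lit 99850) (nat_lit 0) .nil) .nil))))) (.nd (nat_lit 8) (.nd (nat_lit 9) 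
(.lf (nat_lit 475314) (.g (nat_lit 3771) (.e (nat_lit 1564) (nat_lit 110) (.e (nat_lit 352275) (nat_lit 11) (.e (nat_lit 426343) (nat_lit 14) (.e (nat_lit 491560) (nat_lit 10) (.e (nat_lit 344177) (nat_lit 43) .nil))))) (.g (nat_lit 0) (.e (nat_lit 98073) (nat_lit 0) .nil) .nil))) 
(.lf (nat_lit 475826) (.g (nat_lit 3713) (.e (nat_lit 1787) (nat_lit 119) (.e (nat_lit 516115) (nat_lit 1) (.e (nat_lit 164325) (nat_lit 230) (.e (nat_lit 163904) (nat_lit 12) .nil)))) (.g (nat_lit 0) (.e (nat_lit 99669) (nat_lit 0) .nil) .nil)))) (.nd (nat_lit 9) 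
(.lf (nat_lit 475570) (.g (nat_lit 2325) (.e (nat_lit 1673) (nat_lit 116) (.e (nat_lit 401448) (nat_lit 10) (.e (nat_lit 434272) (nat_lit 38) (.e (nat_lit 655364) (nat_lit 0) (.e (nat_lit 3015) (nat_lit 187) (.e (nat_lit 450596) (nat_lit 17) (.e (nat_lit 663556) (nat_lit 0) .nil))))))) (.g (nat_lit 1) (.e (nat_lit 98916) (nat_lit 0) .nil) .nil))) 
(.lf (nat_lit 476082) (.g (nat_lit 4828) (.e (nat_lit 1788) (nat_lit 119) (.e (nat_lit 516166) (nat_lit 12) (.e (nat_lit 450588) (nat_lit 10) (.e (nat_lit 573451) (nat_lit 9) (.e (nat_lit 430) (nat_lit 32) (.e (nat_lit 426343) (nat_lit 14) (.e (nat_lit 491526) (nat_lit 0) .nil))))))) (.g (nat_lit 1) (.e (nat_lit 100006) (nat_lit 0) .nil) .nil)))))) 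
(.nd (nat_lit 7) (.nd (nat_lit 8) (.nd (nat_lit 9) 
(.lf (nat_lit 475250) (.g (nat_lit 4497) (.e (nat_lit 1454) (nat_lit 108) (.e (nat_lit 336013) (nat_lit 2) (.e (nat_lit 90170) (nat_lit 13) (.e (nat_lit 172113) (nat_lit 10) (.e (nat_lit 434248) (nat_lit 28) (.e (nat_lit 573473) (nat_lit 12) (.e (nat_lit 57569) (nat_lit 53) (.e (nat_lit 761867) (nat_lit 5) .nil)))))))) (.g (nat_lit 1) (.e (nat_lit 97644) (nat_lit 0) .nil) .nil))) 
(.lf (nat_lit 475762) (.g (nat_lit 2413) (.e (nat_lit 1783) (nat_lit 119) (.e (nat_lit 516179) (nat_lit 15) (.e (nat_lit 475177) (nat_lit 24) (.e (nat_lit 516150) (nat_lit 9) (.e (nat_lit 426438) (nat_lit 18) .nil))))) (.g (nat_lit 0) (.e (nat_lit 99542) (nat_lit 0) .nil) .nil)))) (.nd (nat_lit 9) 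
(.lf (nat_lit 475506) (.g (nat_lit 2791) (.e (nat_lit 1669) (nat_lit 116) (.e (nat_lit 401459) (nat_lit 13) (.e (nat_lit 483365) (nat_lit 18) (.e (nat_lit 57655) (nat_lit 152) (.e (nat_lit 2636) (nat_lit 165) .nil))))) (.g (nat_lit 0) (.e (nat_lit 98795) (nat_lit 0) .nil) .nil))) 
(.lf (nat_lit 476018) (.g (nat_lit 3353) (.e (nat_lit 1788) (nat_lit 119) (.e (nat_lit 516139) (nat_lit 7) (.e (nat_lit 409649) (nat_lit 18) (.e (nat_lit 303118) (nat_lit 3) (.e (nat_lit 204855) (nat_lit 26) (.e (nat_lit 336102) (nat_lit 9) (.e (nat_lit 335886) (nat_lit 0) .nil))))))) (.g (nat_lit 1) (.e (nat_lit 99919) (nat_lit 0) .nil) .nil))))) (.nd (nat_lit 8) (.nd (nat_lit 9) 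
(.lf (nat_lit 475378) (.g (nat_lit 3896) (.e (nat_lit 1633) (nat_lit 114) (.e (nat_lit 385064) (nat_lit 26) (.e (nat_lit 532535) (nat_lit 9) (.e (nat_lit 336099) (nat_lit 9) (.e (nat_lit 336457) (nat_lit 35) (.e (nat_lit 491526) (nat_lit 0) (.e (nat_lit 2270) (nat_lit 149) (.e (nat_lit 761867) (nat_lit 5) .nil)))))))) (.g (nat_lit 1) (.e (nat_lit 98253) (nat_lit 0) .nil) .nil))) 
(.lf (nat_lit 475890) (.g (nat_lit 1906) (.e (nat_lit 1788) (nat_lit 119) (.e (nat_lit 516117) (nat_lit 1) (.e (nat_lit 164330) (nat_lit 230) (.e (nat_lit 163941) (nat_lit 19) .nil)))) (.g (nat_lit 0) (.e (nat_lit 99765) (nat_lit 0) .nil) .nil)))) (.nd (nat_lit 9) 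
(.lf (nat_lit 475634) (.g (nat_lit 2247) (.e (nat_lit 7936) (nat_lit 121) (.e (nat_lit 532544) (nat_lit 10) (.e (nat_lit 344133) (nat_lit 26) (.e (nat_lit 557103) (nat_lit 14) (.e (nat_lit 180250) (nat_lit 10) .nil))))) (.g (nat_lit 0) (.e (nat_lit 99298) (nat_lit 0) .nil) .nil))) 
(.lf (nat_lit 476146) (.g (nat_lit 2261) (.e (nat_lit 1792) (nat_lit 119) (.e (nat_lit 516116) (nat_lit 1) (.e (nat_lit 164329) (nat_lit 230) (.e (nat_lit 163941) (nat_lit 19) (.e (nat_lit 483341) (nat_lit 9) (.e (nat_lit 426200) (nat_lit 9) (.e (nat_lit 426361) (nat_lit 15) .nil))))))) (.g (nat_lit 1) (.e (nat_lit 100104) (nat_lit 0) .nil) .nil))))))))) 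
(.nd (nat_lit 4) (.nd (nat_lit 5) (.nd (nat_lit 6) (.nd (nat_lit 7) (.nd (nat_lit 8) 
(.nd (nat_lit 9) 
(.lf (nat_lit 475146) (.g (nat_lit 2145) (.e (nat_lit 1426) (nat_lit 108) (.e (nat_lit 336430) (nat_lit 29) (.e (nat_lit 442419) (nat_lit 21) (.e (nat_lit 164348) (nat_lit 240) (.e (nat_lit 2639) (nat_lit 165) (.e (nat_lit 180277) (nat_lit 32) .nil)))))) (.g (nat_lit 1) (.e (nat_lit 97331) (nat_lit 0) .nil) .nil))) 
(.lf (nat_lit 475658) (.g (nat_lit 5493) (.e (nat_lit 1780) (nat_lit 119) (.e (nat_lit 516166) (nat_lit 12) (.e (nat_lit 450587) (nat_lit 10) (.e (nat_lit 573475) (nat_lit 12) .nil)))) (.g (nat_lit 0) (.e (nat_lit 99391) (nat_lit 0) .nil) .nil)))) (.nd (nat_lit 9) 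
(.lf (nat_lit 475402) (.g (nat_lit 2259) (.e (nat_lit 1638) (nat_lit 114) (.e (nat_lit 385068) (nat_lit 26) (.e (nat_lit 532558) (nat_lit 14) (.e (nat_lit 376842) (nat_lit 11) (.e (nat_lit 426098) (nat_lit 1) .nil))))) (.g (nat_lit 0) (.e (nat_lit 98310) (nat_lit 0) .nil) .nil))) 
(.lf (nat_lit 475914) (.g (nat_lit 1283) (.e (nat_lit 1788) (nat_lit 119) (.e (nat_lit 516138) (nat_lit 7) (.e (nat_lit 409646) (nat_lit 18) (.e (nat_lit 303119) (nat_lit 3) .nil)))) (.g (nat_lit 0) (.e (nat_lit 99804) (nat_lit 0) .nil) .nil))))) (.nd (nat_lit 8) (.nd (nat_lit 9) 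
(.lf (nat_lit 475274) (.g (nat_lit 1818) (.e (nat_lit 1471) (nat_lit 108) (.e (nat_lit 336442) (nat_lit 32) (.e (nat_lit 466971) (nat_lit 21) (.e (nat_lit 164348) (nat_lit 240) (.e (nat_lit 2638) (nat_lit 165) (.e (nat_lit 188160) (nat_lit 32) .nil)))))) (.g (nat_lit 1) (.e (nat_lit 97713) (nat_lit 0) .nil) .nil))) 
(.lf (nat_lit 475786) (.g (nat_lit 4819) (.e (nat_lit 1786) (nat_lit 119) (.e (nat_lit 516166) (nat_lit 12) (.e (nat_lit 450588) (nat_lit 10) (.e (nat_lit 573470) (nat_lit 11) .nil)))) (.g (nat_lit 0) (.e (nat_lit 99605) (nat_lit 0) .nil) .nil)))) (.nd (nat_lit 9) 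
(.lf (nat_lit 475530) (.g (nat_lit 2381) (.e (nat_lit 1673) (nat_lit 116) (.e (nat_lit 401447) (nat_lit 10) (.e (nat_lit 434238) (nat_lit 25) (.e (nat_lit 548898) (nat_lit 14) (.e (nat_lit 2999) (nat_lit 186) (.e (nat_lit 442433) (nat_lit 25) (.e (nat_lit 245784) (nat_lit 9) .nil))))))) (.g (nat_lit 1) (.e (nat_lit 98870) (nat_lit 0) .nil) .nil))) 
(.lf (nat_lit 476042) (.g (nat_lit 4436) (.e (nat_lit 1788) (nat_lit 119) (.e (nat_lit 516151) (nat_lit 9) (.e (nat_lit 426286) (nat_lit 10) (.e (nat_lit 434245) (nat_lit 28) (.e (nat_lit 573471) (nat_lit 11) (.e (nat_lit 16472) (nat_lit 14) (.e (nat_lit 491526) (nat_lit 0) .nil))))))) (.g (nat_lit 1) (.e (nat_lit 99951) (nat_lit 0) .nil) .nil)))))) 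
(.nd (nat_lit 7) (.nd (nat_lit 8) (.nd (nat_lit 9) 
(.lf (nat_lit 475210) (.g (nat_lit 433) (.e (nat_lit 1432) (nat_lit 108) (.e (nat_lit 336208) (nat_lit 12) (.e (nat_lit 385102) (nat_lit 50) .nil))) (.g (nat_lit 0) (.e (nat_lit 97551) (nat_lit 0) .nil) .nil))) 
(.lf (nat_lit 475722) (.g (nat_lit 2522) (.e (nat_lit 1781) (nat_lit 119) (.e (nat_lit 516179) (nat_lit 15) (.e (nat_lit 475177) (nat_lit 24) (.e (nat_lit 516146) (nat_lit 9) (.e (nat_lit 426438) (nat_lit 18) .nil))))) (.g (nat_lit 0) (.e (nat_lit 99473) (nat_lit 0) .nil) .nil)))) (.nd (nat_lit 9) 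
(.lf (nat_lit 475466) (.g (nat_lit 1977) (.e (nat_lit 1660) (nat_lit 115) (.e (nat_lit 393284) (nat_lit 24) (.e (nat_lit 434209) (nat_lit 18) (.e (nat_lit 5548) (nat_lit 306) (.e (nat_lit 2640) (nat_lit 165) .nil))))) (.g (nat_lit 0) (.e (nat_lit 98531) (nat_lit 0) .nil) .nil))) 
(.lf (nat_lit 475978) (.g (nat_lit 2493) (.e (nat_lit 1788) (nat_lit 119) (.e (nat_lit 516139) (nat_lit 7) (.e (nat_lit 409648) (nat_lit 18) (.e (nat_lit 303118) (nat_lit 3) (.e (nat_lit 204855) (nat_lit 26) (.e (nat_lit 336102) (nat_lit 9) (.e (nat_lit 335922) (nat_lit 0) .nil))))))) (.g (nat_lit 1) (.e (nat_lit 99874) (nat_lit 0) .nil) .nil))))) (.nd (nat_lit 8) (.nd (nat_lit 9) 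
(.lf (nat_lit 475338) (.g (nat_lit 3018) (.e (nat_lit 1587) (nat_lit 111) (.e (nat_lit 360474) (nat_lit 8) (.e (nat_lit 557093) (nat_lit 12) (.e (nat_lit 164022) (nat_lit 46) (.e (nat_lit 704629) (nat_lit 9) (.e (nat_lit 452) (nat_lit 33) (.e (nat_lit 434219) (nat_lit 19) (.e (nat_lit 499977) (nat_lit 14) .nil)))))))) (.g (nat_lit 1) (.e (nat_lit 98151) (nat_lit 0) .nil) .nil))) 
(.lf (nat_lit 475850) (.g (nat_lit 2202) (.e (nat_lit 1790) (nat_lit 119) (.e (nat_lit 516115) (nat_lit 1) (.e (nat_lit 164399) (nat_lit 256) (.e (nat_lit 57378) (nat_lit 3) (.e (nat_lit 98376) (nat_lit 30) .nil))))) (.g (nat_lit 0) (.e (nat_lit 99698) (nat_lit 0) .nil) .nil)))) (.nd (nat_lit 9) 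
(.lf (nat_lit 475594) (.g (nat_lit 2427) (.e (nat_lit 7936) (nat_lit 116) (.e (nat_lit 401451) (nat_lit 12) (.e (nat_lit 475185) (nat_lit 29) (.e (nat_lit 557109) (nat_lit 15) .nil)))) (.g (nat_lit 0) (.e (nat_lit 98993) (nat_lit 0) .nil) .nil))) 
(.lf (nat_lit 476106) (.g (nat_lit 3991) (.e (nat_lit 1788) (nat_lit 119) (.e (nat_lit 516179) (nat_lit 15) (.e (nat_lit 475199) (nat_lit 40) (.e (nat_lit 704589) (nat_lit 3) (.e (nat_lit 163979) (nat_lit 30) (.e (nat_lit 573491) (nat_lit 15) (.e (nat_lit 81928) (nat_lit 20) .nil))))))) (.g (nat_lit 1) (.e (nat_lit 100038) (nat_lit 0) .nil) .nil))))))) 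
(.nd (nat_lit 6) (.nd (nat_lit 7) (.nd (nat_lit 8) (.nd (nat_lit 9) 
(.lf (nat_lit 475178) (.g (nat_lit 2307) (.e (nat_lit 1427) (nat_lit 108) (.e (nat_lit 336430) (nat_lit 29) (.e (nat_lit 442378) (nat_lit 0) (.e (nat_lit 2058) (nat_lit 142) (.e (nat_lit 704595) (nat_lit 5) (.e (nat_lit 180277) (nat_lit 32) .nil)))))) (.g (nat_lit 1) (.e (nat_lit 97478) (nat_lit 0) .nil) .nil))) 
(.lf (nat_lit 475690) (.g (nat_lit 1550) (.e (nat_lit 1781) (nat_lit 119) (.e (nat_lit 516120) (nat_lit 1) (.e (nat_lit 164330) (nat_lit 230) (.e (nat_lit 163941) (nat_lit 19) .nil)))) (.g (nat_lit 0) (.e (nat_lit 99431) (nat_lit 0) .nil) .nil)))) (.nd (nat_lit 9) 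
(.lf (nat_lit 475434) (.g (nat_lit 1717) (.e (nat_lit 1649) (nat_lit 115) (.e (nat_lit 393238) (nat_lit 17) (.e (nat_lit 6989) (nat_lit 377) (.e (nat_lit 2777) (nat_lit 178) .nil)))) (.g (nat_lit 0) (.e (nat_lit 98435) (nat_lit 0) .nil) .nil))) 
(.lf (nat_lit 475946) (.g (nat_lit 2589) (.e (nat_lit 1788) (nat_lit 119) (.e (nat_lit 516139) (nat_lit 7) (.e (nat_lit 409647) (nat_lit 18) (.e (nat_lit 303119) (nat_lit 3) (.e (nat_lit 204866) (nat_lit 28) (.e (nat_lit 352280) (nat_lit 20) .nil)))))) (.g (nat_lit 1) (.e (nat_lit 99842) (nat_lit 0) .nil) .nil))))) (.nd (nat_lit 8) (.nd (nat_lit 9) 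
(.lf (nat_lit 475306) (.g (nat_lit 474) (.e (nat_lit 1524) (nat_lit 108) (.e (nat_lit 336226) (nat_lit 14) (.e (nat_lit 401458) (nat_lit 13) .nil))) (.g (nat_lit 0) (.e (nat_lit 97975) (nat_lit 0) .nil) .nil))) 
(.lf (nat_lit 475818) (.g (nat_lit 2721) (.e (nat_lit 1784) (nat_lit 119) (.e (nat_lit 516179) (nat_lit 15) (.e (nat_lit 475199) (nat_lit 40) (.e (nat_lit 704589) (nat_lit 3) (.e (nat_lit 163975) (nat_lit 30) (.e (nat_lit 573491) (nat_lit 15) (.e (nat_lit 89856) (nat_lit 20) .nil))))))) (.g (nat_lit 1) (.e (nat_lit 99657) (nat_lit 0) .nil) .nil)))) (.nd (nat_lit 9) 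
(.lf (nat_lit 475562) (.g (nat_lit 997) (.e (nat_lit 1673) (nat_lit 116) (.e (nat_lit 401448) (nat_lit 10) (.e (nat_lit 434248) (nat_lit 28) .nil))) (.g (nat_lit 0) (.e (nat_lit 98908) (nat_lit 0) .nil) .nil))) 
(.lf (nat_lit 476074) (.g (nat_lit 3276) (.e (nat_lit 1788) (nat_lit 119) (.e (nat_lit 516166) (nat_lit 12) (.e (nat_lit 450587) (nat_lit 10) (.e (nat_lit 573473) (nat_lit 12) .nil)))) (.g (nat_lit 0) (.e (nat_lit 99998) (nat_lit 0) .nil) .nil)))))) (.nd (nat_lit 7) (.nd (nat_lit 8) (.nd (nat_lit 9) 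
(.lf (nat_lit 475242) (.g (nat_lit 4494) (.e (nat_lit 1454) (nat_lit 108) (.e (nat_lit 336013) (nat_lit 2) (.e (nat_lit 90170) (nat_lit 13) (.e (nat_lit 172106) (nat_lit 10) (.e (nat_lit 434244) (nat_lit 28) (.e (nat_lit 573474) (nat_lit 12) (.e (nat_lit 57569) (nat_lit 53) (.e (nat_lit 761867) (nat_lit 5) .nil)))))))) (.g (nat_lit 1) (.e (nat_lit 97636) (nat_lit 0) .nil) .nil))) 
(.lf (nat_lit 475754) (.g (nat_lit 2437) (.e (nat_lit 1783) (nat_lit 119) (.e (nat_lit 516119) (nat_lit 1) (.e (nat_lit 164403) (nat_lit 256) (.e (nat_lit 57371) (nat_lit 2) (.e (nat_lit 90174) (nat_lit 14) .nil))))) (.g (nat_lit 0) (.e (nat_lit 99533) (nat_lit 0) .nil) .nil)))) (.nd (nat_lit 9) 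
(.lf (nat_lit 475498) (.g (nat_lit 2297) (.e (nat_lit 1669) (nat_lit 116) (.e (nat_lit 401456) (nat_lit 13) (.e (nat_lit 483363) (nat_lit 18) (.e (nat_lit 57691) (nat_lit 156) .nil)))) (.g (nat_lit 0) (.e (nat_lit 98787) (nat_lit 0) .nil) .nil))) 
(.lf (nat_lit 476010) (.g (nat_lit 2800) (.e (nat_lit 1788) (nat_lit 119) (.e (nat_lit 516139) (nat_lit 7) (.e (nat_lit 409649) (nat_lit 18) (.e (nat_lit 303117) (nat_lit 2) (.e (nat_lit 196666) (nat_lit 13) (.e (nat_lit 65599) (nat_lit 9) (.e (nat_lit 335922) (nat_lit 0) .nil))))))) (.g (nat_lit 1) (.e (nat_lit 99911) (nat_lit 0) .nil) .nil))))) (.nd (nat_lit 8) (.nd (nat_lit 9) 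
(.lf (nat_lit 475370) (.g (nat_lit 1444) (.e (nat_lit 1597) (nat_lit 111) (.e (nat_lit 360493) (nat_lit 27) (.e (nat_lit 819204) (nat_lit 0) (.e (nat_lit 3022) (nat_lit 187) (.e (nat_lit 458496) (nat_lit 8) (.e (nat_lit 557060) (nat_lit 0) .nil)))))) (.g (nat_lit 1) (.e (nat_lit 98192) (nat_lit 0) .nil) .nil))) 
(.lf (nat_lit 475882) (.g (nat_lit 2110) (.e (nat_lit 1788) (nat_lit 119) (.e (nat_lit 516116) (nat_lit 1) (.e (nat_lit 164329) (nat_lit 230) (.e (nat_lit 163941) (nat_lit 19) (.e (nat_lit 483341) (nat_lit 9) (.e (nat_lit 426200) (nat_lit 9) (.e (nat_lit 426360) (nat_lit 15) .nil))))))) (.g (nat_lit 1) (.e (nat_lit 99750) (nat_lit 0) .nil) .nil)))) (.nd (nat_lit 9) 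
(.lf (nat_lit 475626) (.g (nat_lit 2252) (.e (nat_lit 7936) (nat_lit 121) (.e (nat_lit 532544) (nat_lit 10) (.e (nat_lit 344133) (nat_lit 26) (.e (nat_lit 557098) (nat_lit 13) (.e (nat_lit 172051) (nat_lit 0) .nil))))) (.g (nat_lit 0) (.e (nat_lit 99290) (nat_lit 0) .nil) .nil))) 
(.lf (nat_lit 476138) (.g (nat_lit 5121) (.e (nat_lit 1791) (nat_lit 119) (.e (nat_lit 516166) (nat_lit 12) (.e (nat_lit 450588) (nat_lit 10) (.e (nat_lit 573475) (nat_lit 12) (.e (nat_lit 57574) (nat_lit 55) .nil))))) (.g (nat_lit 0) (.e (nat_lit 100092) (nat_lit 0) .nil) .nil)))))))) (.nd (nat_lit 5) (.nd (nat_lit 6) (.nd (nat_lit 7) (.nd (nat_lit 8) (.nd (nat_lit 9) 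
(.lf (nat_lit 475162) (.g (nat_lit 1708) (.e (nat_lit 1426) (nat_lit 108) (.e (nat_lit 336430) (nat_lit 29) (.e (nat_lit 442430) (nat_lit 24) (.e (nat_lit 229664) (nat_lit 240) (.e (nat_lit 2643) (nat_lit 165) (.e (nat_lit 180277) (nat_lit 32) .nil)))))) (.g (nat_lit 1) (.e (nat_lit 97347) (nat_lit 0) .nil) .nil))) 
(.lf (nat_lit 475674) (.g (nat_lit 2196) (.e (nat_lit 1781) (nat_lit 119) (.e (nat_lit 516119) (nat_lit 1) (.e (nat_lit 164403) (nat_lit 256) (.e (nat_lit 57371) (nat_lit 2) (.e (nat_lit 90167) (nat_lit 13) .nil))))) (.g (nat_lit 0) (.e (nat_lit 99414) (nat_lit 0) .nil) .nil)))) (.nd (nat_lit 9) 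
(.lf (nat_lit 475418) (.g (nat_lit 2385) (.e (nat_lit 1642) (nat_lit 114) (.e (nat_lit 385074) (nat_lit 31) (.e (nat_lit 573484) (nat_lit 13) (.e (nat_lit 65610) (nat_lit 10) (.e (nat_lit 344129) (nat_lit 26) (.e (nat_lit 557067) (nat_lit 9) (.e (nat_lit 20) (nat_lit 0) (.e (nat_lit 6436) (nat_lit 343) .nil)))))))) (.g (nat_lit 1) (.e (nat_lit 98393) (nat_lit 0) .nil) .nil))) 
(.lf (nat_lit 475930) (.g (nat_lit 2904) (.e (nat_lit 1788) (nat_lit 119) (.e (nat_lit 516139) (nat_lit 7) (.e (nat_lit 409645) (nat_lit 18) (.e (nat_lit 303119) (nat_lit 3) (.e (nat_lit 204866) (nat_lit 28) .nil))))) (.g (nat_lit 0) (.e (nat_lit 99826) (nat_lit 0) .nil) .nil))))) (.nd (nat_lit 8) (.nd (nat_lit 9) 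
(.lf (nat_lit 475290) (.g (nat_lit 2394) (.e (nat_lit 1512) (nat_lit 108) (.e (nat_lit 336235) (nat_lit 14) (.e (nat_lit 401425) (nat_lit 2) (.e (nat_lit 196665) (nat_lit 13) (.e (nat_lit 65628) (nat_lit 14) .nil))))) (.g (nat_lit 0) (.e (nat_lit 97736) (nat_lit 0) .nil) .nil))) 
(.lf (nat_lit 475802) (.g (nat_lit 2246) (.e (nat_lit 1784) (nat_lit 119) (.e (nat_lit 516120) (nat_lit 1) (.e (nat_lit 164329) (nat_lit 230) (.e (nat_lit 163941) (nat_lit 19) (.e (nat_lit 491264) (nat_lit 11) (.e (nat_lit 442379) (nat_lit 0) .nil)))))) (.g (nat_lit 1) (.e (nat_lit 99634) (nat_lit 0) .nil) .nil)))) (.nd (nat_lit 9) 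
(.lf (nat_lit 475546) (.g (nat_lit 2853) (.e (nat_lit 1673) (nat_lit 116) (.e (nat_lit 401448) (nat_lit 10) (.e (nat_lit 434238) (nat_lit 25) (.e (nat_lit 548898) (nat_lit 14) (.e (nat_lit 3022) (nat_lit 187) .nil))))) (.g (nat_lit 0) (.e (nat_lit 98888) (nat_lit 0) .nil) .nil))) 
(.lf (nat_lit 476058) (.g (nat_lit 4352) (.e (nat_lit 1788) (nat_lit 119) (.e (nat_lit 516151) (nat_lit 9) (.e (nat_lit 426286) (nat_lit 10) (.e (nat_lit 434248) (nat_lit 28) (.e (nat_lit 573471) (nat_lit 11) (.e (nat_lit 16472) (nat_lit 14) (.e (nat_lit 491526) (nat_lit 0) .nil))))))) (.g (nat_lit 1) (.e (nat_lit 99967) (nat_lit 0) .nil) .nil)))))) 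
(.nd (nat_lit 7) (.nd (nat_lit 8) (.nd (nat_lit 9) 
(.lf (nat_lit 475226) (.g (nat_lit 1325) (.e (nat_lit 1433) (nat_lit 108) (.e (nat_lit 336434) (nat_lit 30) (.e (nat_lit 450564) (nat_lit 0) (.e (nat_lit 5548) (nat_lit 306) (.e (nat_lit 2638) (nat_lit 165) (.e (nat_lit 188160) (nat_lit 32) .nil)))))) (.g (nat_lit 1) (.e (nat_lit 97586) (nat_lit 0) .nil) .nil))) 
(.lf (nat_lit 475738) (.g (nat_lit 1620) (.e (nat_lit 1782) (nat_lit 119) (.e (nat_lit 516120) (nat_lit 1) (.e (nat_lit 164329) (nat_lit 230) (.e (nat_lit 163941) (nat_lit 19) (.e (nat_lit 491264) (nat_lit 11) .nil))))) (.g (nat_lit 0) (.e (nat_lit 99507) (nat_lit 0) .nil) .nil)))) (.nd (nat_lit 9) 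
(.lf (nat_lit 475482) (.g (nat_lit 4167) (.e (nat_lit 1668) (nat_lit 116) (.e (nat_lit 401451) (nat_lit 12) (.e (nat_lit 475185) (nat_lit 29) (.e (nat_lit 557107) (nat_lit 15) .nil)))) (.g (nat_lit 0) (.e (nat_lit 98634) (nat_lit 0) .nil) .nil))) 
(.lf (nat_lit 475994) (.g (nat_lit 2658) (.e (nat_lit 1788) (nat_lit 119) (.e (nat_lit 516139) (nat_lit 7) (.e (nat_lit 409649) (nat_lit 18) (.e (nat_lit 303116) (nat_lit 2) (.e (nat_lit 196666) (nat_lit 13) (.e (nat_lit 65599) (nat_lit 9) (.e (nat_lit 335920) (nat_lit 0) .nil))))))) (.g (nat_lit 1) (.e (nat_lit 99895) (nat_lit 0) .nil) .nil))))) (.nd (nat_lit 8) (.nd (nat_lit 9) 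
(.lf (nat_lit 475354) (.g (nat_lit 3411) (.e (nat_lit 1587) (nat_lit 111) (.e (nat_lit 360475) (nat_lit 8) (.e (nat_lit 557091) (nat_lit 12) (.e (nat_lit 164022) (nat_lit 46) (.e (nat_lit 704629) (nat_lit 9) (.e (nat_lit 452) (nat_lit 33) (.e (nat_lit 434219) (nat_lit 19) (.e (nat_lit 499978) (nat_lit 14) .nil)))))))) (.g (nat_lit 1) (.e (nat_lit 98167) (nat_lit 0) .nil) .nil))) 
(.lf (nat_lit 475866) (.g (nat_lit 2540) (.e (nat_lit 1788) (nat_lit 119) (.e (nat_lit 516115) (nat_lit 1) (.e (nat_lit 164325) (nat_lit 230) (.e (nat_lit 163901) (nat_lit 12) .nil)))) (.g (nat_lit 0) (.e (nat_lit 99725) (nat_lit 0) .nil) .nil)))) (.nd (nat_lit 9) 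
(.lf (nat_lit 475610) (.g (nat_lit 1937) (.e (nat_lit 7936) (nat_lit 121) (.e (nat_lit 532535) (nat_lit 9) (.e (nat_lit 336295) (nat_lit 15) (.e (nat_lit 7936) (nat_lit 195) .nil)))) (.g (nat_lit 0) (.e (nat_lit 99269) (nat_lit 0) .nil) .nil))) 
(.lf (nat_lit 476122) (.g (nat_lit 4900) (.e (nat_lit 1789) (nat_lit 119) (.e (nat_lit 516166) (nat_lit 12) (.e (nat_lit 450588) (nat_lit 10) (.e (nat_lit 573475) (nat_lit 12) (.e (nat_lit 57574) (nat_lit 55) .nil))))) (.g (nat_lit 0) (.e (nat_lit 100073) (nat_lit 0) .nil) .nil))))))) (.nd (nat_lit 6) (.nd (nat_lit 7) (.nd (nat_lit 8) (.nd (nat_lit 9) 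
(.lf (nat_lit 475194) (.g (nat_lit 379) (.e (nat_lit 1428) (nat_lit 108) (.e (nat_lit 336421) (nat_lit 28) (.e (nat_lit 434188) (nat_lit 13) (.e (nat_lit 2787) (nat_lit 179) .nil)))) (.g (nat_lit 0) (.e (nat_lit 97519) (nat_lit 0) .nil) .nil))) 
(.lf (nat_lit 475706) (.g (nat_lit 2712) (.e (nat_lit 1781) (nat_lit 119) (.e (nat_lit 516151) (nat_lit 9) (.e (nat_lit 426211) (nat_lit 9) (.e (nat_lit 426135) (nat_lit 3) .nil)))) (.g (nat_lit 0) (.e (nat_lit 99455) (nat_lit 0) .nil) .nil)))) (.nd (nat_lit 9) 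
(.lf (nat_lit 475450) (.g (nat_lit 1176) (.e (nat_lit 1659) (nat_lit 115) (.e (nat_lit 393271) (nat_lit 23) (.e (nat_lit 426405) (nat_lit 15) .nil))) (.g (nat_lit 0) (.e (nat_lit 98471) (nat_lit 0) .nil) .nil))) 
(.lf (nat_lit 475962) (.g (nat_lit 3956) (.e (nat_lit 1788) (nat_lit 119) (.e (nat_lit 516139) (nat_lit 7) (.e (nat_lit 409648) (nat_lit 18) (.e (nat_lit 303117) (nat_lit 2) (.e (nat_lit 196666) (nat_lit 13) (.e (nat_lit 65596) (nat_lit 9) (.e (nat_lit 335886) (nat_lit 0) .nil))))))) (.g (nat_lit 1) (.e (nat_lit 99858) (nat_lit 0) .nil) .nil))))) (.nd (nat_lit 8) (.nd (nat_lit 9) 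
(.lf (nat_lit 475322) (.g (nat_lit 1266) (.e (nat_lit 1582) (nat_lit 111) (.e (nat_lit 360451) (nat_lit 0) (.e (nat_lit 7607) (nat_lit 410) (.e (nat_lit 2651) (nat_lit 166) (.e (nat_lit 188431) (nat_lit 20) (.e (nat_lit 3282) (nat_lit 200) (.e (nat_lit 557061) (nat_lit 0) .nil))))))) (.g (nat_lit 1) (.e (nat_lit 98105) (nat_lit 0) .nil) .nil))) 
(.lf (nat_lit 475834) (.g (nat_lit 2779) (.e (nat_lit 1787) (nat_lit 119) (.e (nat_lit 516119) (nat_lit 1) (.e (nat_lit 164403) (nat_lit 256) (.e (nat_lit 57373) (nat_lit 2) (.e (nat_lit 90172) (nat_lit 14) .nil))))) (.g (nat_lit 0) (.e (nat_lit 99678) (nat_lit 0) .nil) .nil)))) (.nd (nat_lit 9) 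
(.lf (nat_lit 475578) (.g (nat_lit 1011) (.e (nat_lit 1674) (nat_lit 116) (.e (nat_lit 401459) (nat_lit 13) (.e (nat_lit 483344) (nat_lit 17) .nil))) (.g (nat_lit 0) (.e (nat_lit 98929) (nat_lit 0) .nil) .nil))) 
(.lf (nat_lit 476090) (.g (nat_lit 3090) (.e (nat_lit 1788) (nat_lit 119) (.e (nat_lit 516166) (nat_lit 12) (.e (nat_lit 450588) (nat_lit 10) (.e (nat_lit 573473) (nat_lit 12) (.e (nat_lit 57353) (nat_lit 0) .nil))))) (.g (nat_lit 0) (.e (nat_lit 100014) (nat_lit 0) .nil) .nil)))))) (.nd (nat_lit 7) (.nd (nat_lit 8) (.nd (nat_lit 9) 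
(.lf (nat_lit 475258) (.g (nat_lit 4639) (.e (nat_lit 1454) (nat_lit 108) (.e (nat_lit 336176) (nat_lit 10) (.e (nat_lit 344161) (nat_lit 37) (.e (nat_lit 647170) (nat_lit 0) (.e (nat_lit 3098) (nat_lit 192) (.e (nat_lit 491566) (nat_lit 12) (.e (nat_lit 385099) (nat_lit 49) (.e (nat_lit 778280) (nat_lit 0) .nil)))))))) (.g (nat_lit 1) (.e (nat_lit 97652) (nat_lit 0) .nil) .nil))) 
(.lf (nat_lit 475770) (.g (nat_lit 1711) (.e (nat_lit 1786) (nat_lit 119) (.e (nat_lit 516119) (nat_lit 1) (.e (nat_lit 164326) (nat_lit 230) (.e (nat_lit 163941) (nat_lit 19) (.e (nat_lit 491264) (nat_lit 14) .nil))))) (.g (nat_lit 0) (.e (nat_lit 99574) (nat_lit 0) .nil) .nil)))) (.nd (nat_lit 9) 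
(.lf (nat_lit 475514) (.g (nat_lit 5426) (.e (nat_lit 1671) (nat_lit 116) (.e (nat_lit 401451) (nat_lit 12) (.e (nat_lit 475185) (nat_lit 29) (.e (nat_lit 557109) (nat_lit 15) (.e (nat_lit 188458) (nat_lit 25) (.e (nat_lit 245784) (nat_lit 9) .nil)))))) (.g (nat_lit 1) (.e (nat_lit 98828) (nat_lit 0) .nil) .nil))) 
(.lf (nat_lit 476026) (.g (nat_lit 2639) (.e (nat_lit 1788) (nat_lit 119) (.e (nat_lit 516139) (nat_lit 7) (.e (nat_lit 409649) (nat_lit 18) (.e (nat_lit 303118) (nat_lit 3) (.e (nat_lit 204866) (nat_lit 28) (.e (nat_lit 352296) (nat_lit 20) .nil)))))) (.g (nat_lit 1) (.e (nat_lit 99927) (nat_lit 0) .nil) .nil))))) (.nd (nat_lit 8) (.nd (nat_lit 9) 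
(.lf (nat_lit 475386) (.g (nat_lit 2144) (.e (nat_lit 1633) (nat_lit 114) (.e (nat_lit 385107) (nat_lit 51) (.e (nat_lit 794679) (nat_lit 24) (.e (nat_lit 213030) (nat_lit 11) (.e (nat_lit 24617) (nat_lit 7) (.e (nat_lit 319511) (nat_lit 10) (.e (nat_lit 5293) (nat_lit 298) .nil))))))) (.g (nat_lit 1) (.e (nat_lit 98270) (nat_lit 0) .nil) .nil))) 
(.lf (nat_lit 475898) (.g (nat_lit 2499) (.e (nat_lit 1788) (nat_lit 119) (.e (nat_lit 516138) (nat_lit 7) (.e (nat_lit 409645) (nat_lit 18) (.e (nat_lit 303117) (nat_lit 2) (.e (nat_lit 196672) (nat_lit 15) (.e (nat_lit 81928) (nat_lit 20) .nil)))))) (.g (nat_lit 1) (.e (nat_lit 99785) (nat_lit 0) .nil) .nil)))) (.nd (nat_lit 9) 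
(.lf (nat_lit 475642) (.g (nat_lit 2133) (.e (nat_lit 7936) (nat_lit 121) (.e (nat_lit 532563) (nat_lit 15) (.e (nat_lit 385068) (nat_lit 26) (.e (nat_lit 532543) (nat_lit 10) .nil)))) (.g (nat_lit 0) (.e (nat_lit 99336) (nat_lit 0) .nil) .nil))) 
(.lf (nat_lit 476154) (.g (nat_lit 3076) (.e (nat_lit 1792) (nat_lit 119) (.e (nat_lit 516151) (nat_lit 9) (.e (nat_lit 426211) (nat_lit 9) (.e (nat_lit 426140) (nat_lit 3) (.e (nat_lit 204845) (nat_lit 24) .nil))))) (.g (nat_lit 0) (.e (nat_lit 100118) (nat_lit 0) .nil) .nil)))))))))) 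
(.nd (nat_lit 3) (.nd (nat_lit 4) (.nd (nat_lit 5) (.nd (nat_lit 6) (.nd (nat_lit 7) 
(.nd (nat_lit 8) (.nd (nat_lit 9) 
(.lf (nat_lit 475142) (.g (nat_lit 2489) (.e (nat_lit 1426) (nat_lit 108) (.e (nat_lit 336430) (nat_lit 29) (.e (nat_lit 442419) (nat_lit 21) (.e (nat_lit 164346) (nat_lit 240) (.e (nat_lit 2638) (nat_lit 165) (.e (nat_lit 180277) (nat_lit 32) .nil)))))) (.g (nat_lit 1) (.e (nat_lit 97327) (nat_lit 0) .nil) .nil))) 
(.lf (nat_lit 475654) (.g (nat_lit 4334) (.e (nat_lit 1778) (nat_lit 119) (.e (nat_lit 516166) (nat_lit 12) (.e (nat_lit 450587) (nat_lit 10) (.e (nat_lit 573477) (nat_lit 12) (.e (nat_lit 57574) (nat_lit 55) .nil))))) (.g (nat_lit 0) (.e (nat_lit 99384) (nat_lit 0) .nil) .nil)))) (.nd (nat_lit 9) 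
(.lf (nat_lit 475398) (.g (nat_lit 1781) (.e (nat_lit 1638) (nat_lit 114) (.e (nat_lit 385066) (nat_lit 26) (.e (nat_lit 532558) (nat_lit 14) (.e (nat_lit 376842) (nat_lit 11) (.e (nat_lit 426100) (nat_lit 1) .nil))))) (.g (nat_lit 0) (.e (nat_lit 98306) (nat_lit 0) .nil) .nil))) 
(.lf (nat_lit 475910) (.g (nat_lit 3159) (.e (nat_lit 1788) (nat_lit 119) (.e (nat_lit 516138) (nat_lit 7) (.e (nat_lit 409646) (nat_lit 18) (.e (nat_lit 303117) (nat_lit 2) (.e (nat_lit 196673) (nat_lit 15) (.e (nat_lit 81941) (nat_lit 20) .nil)))))) (.g (nat_lit 1) (.e (nat_lit 99800) (nat_lit 0) .nil) .nil))))) (.nd (nat_lit 8) (.nd (nat_lit 9) 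
(.lf (nat_lit 475270) (.g (nat_lit 1239) (.e (nat_lit 1468) (nat_lit 108) (.e (nat_lit 336434) (nat_lit 30) (.e (nat_lit 450564) (nat_lit 0) (.e (nat_lit 5548) (nat_lit 306) (.e (nat_lit 2638) (nat_lit 165) (.e (nat_lit 188160) (nat_lit 32) .nil)))))) (.g (nat_lit 1) (.e (nat_lit 97707) (nat_lit 0) .nil) .nil))) 
(.lf (nat_lit 475782) (.g (nat_lit 1629) (.e (nat_lit 1786) (nat_lit 119) (.e (nat_lit 516139) (nat_lit 7) (.e (nat_lit 409646) (nat_lit 18) (.e (nat_lit 303112) (nat_lit 0) .nil)))) (.g (nat_lit 0) (.e (nat_lit 99591) (nat_lit 0) .nil) .nil)))) (.nd (nat_lit 9) 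
(.lf (nat_lit 475526) (.g (nat_lit 742) (.e (nat_lit 1673) (nat_lit 116) (.e (nat_lit 401446) (nat_lit 10) (.e (nat_lit 434248) (nat_lit 28) .nil))) (.g (nat_lit 0) (.e (nat_lit 98866) (nat_lit 0) .nil) .nil))) 
(.lf (nat_lit 476038) (.g (nat_lit 5058) (.e (nat_lit 1788) (nat_lit 119) (.e (nat_lit 516151) (nat_lit 9) (.e (nat_lit 426286) (nat_lit 10) (.e (nat_lit 434245) (nat_lit 28) (.e (nat_lit 573469) (nat_lit 11) (.e (nat_lit 16473) (nat_lit 14) (.e (nat_lit 491526) (nat_lit 0) .nil))))))) (.g (nat_lit 1) (.e (nat_lit 99947) (nat_lit 0) .nil) .nil)))))) 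
(.nd (nat_lit 7) (.nd (nat_lit 8) (.nd (nat_lit 9) 
(.lf (nat_lit 475206) (.g (nat_lit 760) (.e (nat_lit 1428) (nat_lit 108) (.e (nat_lit 336454) (nat_lit 34) (.e (nat_lit 483365) (nat_lit 18) .nil))) (.g (nat_lit 0) (.e (nat_lit 97540) (nat_lit 0) .nil) .nil))) 
(.lf (nat_lit 475718) (.g (nat_lit 3343) (.e (nat_lit 1781) (nat_lit 119) (.e (nat_lit 516166) (nat_lit 12) (.e (nat_lit 450588) (nat_lit 10) (.e (nat_lit 573475) (nat_lit 12) (.e (nat_lit 57574) (nat_lit 55) .nil))))) (.g (nat_lit 0) (.e (nat_lit 99469) (nat_lit 0) .nil) .nil)))) (.nd (nat_lit 9) 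
(.lf (nat_lit 475462) (.g (nat_lit 957) (.e (nat_lit 1660) (nat_lit 115) (.e (nat_lit 393274) (nat_lit 23) (.e (nat_lit 426097) (nat_lit 1) (.e (nat_lit 164348) (nat_lit 240) (.e (nat_lit 2640) (nat_lit 165) .nil))))) (.g (nat_lit 0) (.e (nat_lit 98518) (nat_lit 0) .nil) .nil))) 
(.lf (nat_lit 475974) (.g (nat_lit 2877) (.e (nat_lit 1788) (nat_lit 119) (.e (nat_lit 516139) (nat_lit 7) (.e (nat_lit 409648) (nat_lit 18) (.e (nat_lit 303118) (nat_lit 3) (.e (nat_lit 204855) (nat_lit 26) (.e (nat_lit 336097) (nat_lit 9) (.e (nat_lit 335886) (nat_lit 0) .nil))))))) (.g (nat_lit 1) (.e (nat_lit 99870) (nat_lit 0) .nil) .nil))))) (.nd (nat_lit 8) (.nd (nat_lit 9) 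
(.lf (nat_lit 475334) (.g (nat_lit 471) (.e (nat_lit 1589) (nat_lit 111) (.e (nat_lit 360451) (nat_lit 0) (.e (nat_lit 5107) (nat_lit 292) .nil))) (.g (nat_lit 0) (.e (nat_lit 98143) (nat_lit 0) .nil) .nil))) 
(.lf (nat_lit 475846) (.g (nat_lit 1900) (.e (nat_lit 1790) (nat_lit 119) (.e (nat_lit 516115) (nat_lit 1) (.e (nat_lit 164399) (nat_lit 256) (.e (nat_lit 57370) (nat_lit 2) (.e (nat_lit 90172) (nat_lit 14) .nil))))) (.g (nat_lit 0) (.e (nat_lit 99694) (nat_lit 0) .nil) .nil)))) (.nd (nat_lit 9) 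
(.lf (nat_lit 475590) (.g (nat_lit 839) (.e (nat_lit 1677) (nat_lit 116) (.e (nat_lit 401451) (nat_lit 12) (.e (nat_lit 475185) (nat_lit 29) .nil))) (.g (nat_lit 0) (.e (nat_lit 98987) (nat_lit 0) .nil) .nil))) 
(.lf (nat_lit 476102) (.g (nat_lit 3366) (.e (nat_lit 1788) (nat_lit 119) (.e (nat_lit 516179) (nat_lit 15) (.e (nat_lit 475199) (nat_lit 40) (.e (nat_lit 704589) (nat_lit 3) (.e (nat_lit 163975) (nat_lit 30) (.e (nat_lit 573491) (nat_lit 15) (.e (nat_lit 81928) (nat_lit 20) .nil))))))) (.g (nat_lit 1) (.e (nat_lit 100027) (nat_lit 0) .nil) .nil))))))) 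
(.nd (nat_lit 6) (.nd (nat_lit 7) (.nd (nat_lit 8) (.nd (nat_lit 9) 
(.lf (nat_lit 475174) (.g (nat_lit 2207) (.e (nat_lit 1426) (nat_lit 108) (.e (nat_lit 336443) (nat_lit 32) (.e (nat_lit 466971) (nat_lit 21) (.e (nat_lit 164348) (nat_lit 240) (.e (nat_lit 2639) (nat_lit 165) (.e (nat_lit 180278) (nat_lit 32) .nil)))))) (.g (nat_lit 1) (.e (nat_lit 97361) (nat_lit 0) .nil) .nil))) 
(.lf (nat_lit 475686) (.g (nat_lit 2084) (.e (nat_lit 1781) (nat_lit 119) (.e (nat_lit 516120) (nat_lit 1) (.e (nat_lit 164329) (nat_lit 230) (.e (nat_lit 163941) (nat_lit 19) (.e (nat_lit 483341) (nat_lit 9) (.e (nat_lit 426200) (nat_lit 9) (.e (nat_lit 426354) (nat_lit 15) .nil))))))) (.g (nat_lit 1) (.e (nat_lit 99427) (nat_lit 0) .nil) .nil)))) (.nd (nat_lit 9) 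
(.lf (nat_lit 475430) (.g (nat_lit 1141) (.e (nat_lit 1648) (nat_lit 115) (.e (nat_lit 393251) (nat_lit 18) (.e (nat_lit 164151) (nat_lit 152) .nil))) (.g (nat_lit 0) (.e (nat_lit 98427) (nat_lit 0) .nil) .nil))) 
(.lf (nat_lit 475942) (.g (nat_lit 2569) (.e (nat_lit 1788) (nat_lit 119) (.e (nat_lit 516139) (nat_lit 7) (.e (nat_lit 409647) (nat_lit 18) (.e (nat_lit 303118) (nat_lit 3) (.e (nat_lit 204866) (nat_lit 28) (.e (nat_lit 352290) (nat_lit 20) .nil)))))) (.g (nat_lit 1) (.e (nat_lit 99838) (nat_lit 0) .nil) .nil))))) (.nd (nat_lit 8) (.nd (nat_lit 9) 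
(.lf (nat_lit 475302) (.g (nat_lit 651) (.e (nat_lit 1524) (nat_lit 108) (.e (nat_lit 335988) (nat_lit 1) (.e (nat_lit 57926) (nat_lit 282) .nil))) (.g (nat_lit 0) (.e (nat_lit 97954) (nat_lit 0) .nil) .nil))) 
(.lf (nat_lit 475814) (.g (nat_lit 4758) (.e (nat_lit 1784) (nat_lit 119) (.e (nat_lit 516166) (nat_lit 12) (.e (nat_lit 450588) (nat_lit 10) (.e (nat_lit 573473) (nat_lit 12) .nil)))) (.g (nat_lit 0) (.e (nat_lit 99653) (nat_lit 0) .nil) .nil)))) (.nd (nat_lit 9) 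
(.lf (nat_lit 475558) (.g (nat_lit 4325) (.e (nat_lit 1673) (nat_lit 116) (.e (nat_lit 401448) (nat_lit 10) (.e (nat_lit 434238) (nat_lit 25) (.e (nat_lit 548915) (nat_lit 20) (.e (nat_lit 188456) (nat_lit 25) (.e (nat_lit 245784) (nat_lit 9) .nil)))))) (.g (nat_lit 1) (.e (nat_lit 98900) (nat_lit 0) .nil) .nil))) 
(.lf (nat_lit 476070) (.g (nat_lit 3153) (.e (nat_lit 1788) (nat_lit 119) (.e (nat_lit 516165) (nat_lit 12) (.e (nat_lit 450588) (nat_lit 10) (.e (nat_lit 573475) (nat_lit 12) (.e (nat_lit 57574) (nat_lit 55) .nil))))) (.g (nat_lit 0) (.e (nat_lit 99994) (nat_lit 0) .nil) .nil)))))) (.nd (nat_lit 7) (.nd (nat_lit 8) (.nd (nat_lit 9) 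
(.lf (nat_lit 475238) (.g (nat_lit 383) (.e (nat_lit 1454) (nat_lit 108) (.e (nat_lit 336013) (nat_lit 2) (.e (nat_lit 90170) (nat_lit 13) .nil))) (.g (nat_lit 0) (.e (nat_lit 97632) (nat_lit 0) .nil) .nil))) 
(.lf (nat_lit 475750) (.g (nat_lit 2372) (.e (nat_lit 1782) (nat_lit 119) (.e (nat_lit 516179) (nat_lit 15) (.e (nat_lit 475177) (nat_lit 24) (.e (nat_lit 516150) (nat_lit 9) (.e (nat_lit 426438) (nat_lit 18) .nil))))) (.g (nat_lit 0) (.e (nat_lit 99523) (nat_lit 0) .nil) .nil)))) (.nd (nat_lit 9) 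
(.lf (nat_lit 475494) (.g (nat_lit 1364) (.e (nat_lit 1669) (nat_lit 116) (.e (nat_lit 401451) (nat_lit 12) (.e (nat_lit 475207) (nat_lit 41) .nil))) (.g (nat_lit 0) (.e (nat_lit 98759) (nat_lit 0) .nil) .nil))) 
(.lf (nat_lit 476006) (.g (nat_lit 2505) (.e (nat_lit 1788) (nat_lit 119) (.e (nat_lit 516139) (nat_lit 7) (.e (nat_lit 409649) (nat_lit 18) (.e (nat_lit 303117) (nat_lit 2) (.e (nat_lit 196666) (nat_lit 13) (.e (nat_lit 65596) (nat_lit 9) (.e (nat_lit 335936) (nat_lit 0) .nil))))))) (.g (nat_lit 1) (.e (nat_lit 99907) (nat_lit 0) .nil) .nil))))) (.nd (nat_lit 8) (.nd (nat_lit 9) 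
(.lf (nat_lit 475366) (.g (nat_lit 1778) (.e (nat_lit 1592) (nat_lit 111) (.e (nat_lit 360493) (nat_lit 27) (.e (nat_lit 819203) (nat_lit 0) (.e (nat_lit 3015) (nat_lit 187) (.e (nat_lit 450584) (nat_lit 9) (.e (nat_lit 565252) (nat_lit 0) .nil)))))) (.g (nat_lit 1) (.e (nat_lit 98179) (nat_lit 0) .nil) .nil))) 
(.lf (nat_lit 475878) (.g (nat_lit 4234) (.e (nat_lit 1788) (nat_lit 119) (.e (nat_lit 516115) (nat_lit 1) (.e (nat_lit 164327) (nat_lit 230) (.e (nat_lit 163907) (nat_lit 12) (.e (nat_lit 426566) (nat_lit 34) (.e (nat_lit 393273) (nat_lit 23) (.e (nat_lit 426402) (nat_lit 15) .nil))))))) (.g (nat_lit 1) (.e (nat_lit 99742) (nat_lit 0) .nil) .nil)))) (.nd (nat_lit 9) 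
(.lf (nat_lit 475622) (.g (nat_lit 2252) (.e (nat_lit 7936) (nat_lit 121) (.e (nat_lit 532544) (nat_lit 10) (.e (nat_lit 344132) (nat_lit 26) (.e (nat_lit 557100) (nat_lit 13) (.e (nat_lit 172065) (nat_lit 3) .nil))))) (.g (nat_lit 0) (.e (nat_lit 99286) (nat_lit 0) .nil) .nil))) 
(.lf (nat_lit 476134) (.g (nat_lit 3664) (.e (nat_lit 1791) (nat_lit 119) (.e (nat_lit 516151) (nat_lit 9) (.e (nat_lit 426211) (nat_lit 9) (.e (nat_lit 426140) (nat_lit 3) (.e (nat_lit 204845) (nat_lit 24) .nil))))) (.g (nat_lit 0) (.e (nat_lit 100088) (nat_lit 0) .nil) .nil)))))))) (.nd (nat_lit 5) (.nd (nat_lit 6) (.nd (nat_lit 7) (.nd (nat_lit 8) (.nd (nat_lit 9) 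
(.lf (nat_lit 475158) (.g (nat_lit 2727) (.e (nat_lit 1426) (nat_lit 108) (.e (nat_lit 336430) (nat_lit 29) (.e (nat_lit 442428) (nat_lit 24) (.e (nat_lit 229663) (nat_lit 240) (.e (nat_lit 2641) (nat_lit 165) (.e (nat_lit 180278) (nat_lit 32) .nil)))))) (.g (nat_lit 1) (.e (nat_lit 97343) (nat_lit 0) .nil) .nil))) 
(.lf (nat_lit 475670) (.g (nat_lit 1219) (.e (nat_lit 1781) (nat_lit 119) (.e (nat_lit 516119) (nat_lit 1) (.e (nat_lit 164326) (nat_lit 230) (.e (nat_lit 163941) (nat_lit 19) .nil)))) (.g (nat_lit 0) (.e (nat_lit 99410) (nat_lit 0) .nil) .nil)))) (.nd (nat_lit 9) 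
(.lf (nat_lit 475414) (.g (nat_lit 2171) (.e (nat_lit 1642) (nat_lit 114) (.e (nat_lit 385068) (nat_lit 26) (.e (nat_lit 532560) (nat_lit 14) (.e (nat_lit 376842) (nat_lit 11) (.e (nat_lit 426098) (nat_lit 1) .nil))))) (.g (nat_lit 0) (.e (nat_lit 98388) (nat_lit 0) .nil) .nil))) 
(.lf (nat_lit 475926) (.g (nat_lit 3132) (.e (nat_lit 1788) (nat_lit 119) (.e (nat_lit 516139) (nat_lit 7) (.e (nat_lit 409644) (nat_lit 18) (.e (nat_lit 303119) (nat_lit 3) (.e (nat_lit 204866) (nat_lit 28) (.e (nat_lit 352280) (nat_lit 20) .nil)))))) (.g (nat_lit 1) (.e (nat_lit 99822) (nat_lit 0) .nil) .nil))))) (.nd (nat_lit 8) (.nd (nat_lit 9) 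
(.lf (nat_lit 475286) (.g (nat_lit 4056) (.e (nat_lit 1512) (nat_lit 108) (.e (nat_lit 335874) (nat_lit 0) (.e (nat_lit 6713) (nat_lit 360) (.e (nat_lit 163962) (nat_lit 25) (.e (nat_lit 532535) (nat_lit 9) (.e (nat_lit 336226) (nat_lit 14) (.e (nat_lit 401425) (nat_lit 2) (.e (nat_lit 196628) (nat_lit 9) .nil)))))))) (.g (nat_lit 1) (.e (nat_lit 97727) (nat_lit 0) .nil) .nil))) 
(.lf (nat_lit 475798) (.g (nat_lit 514) (.e (nat_lit 1784) (nat_lit 119) (.e (nat_lit 516117) (nat_lit 1) (.e (nat_lit 164332) (nat_lit 230) .nil))) (.g (nat_lit 0) (.e (nat_lit 99629) (nat_lit 0) .nil) .nil)))) (.nd (nat_lit 9) 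
(.lf (nat_lit 475542) (.g (nat_lit 2234) (.e (nat_lit 1673) (nat_lit 116) (.e (nat_lit 401448) (nat_lit 10) (.e (nat_lit 434238) (nat_lit 25) (.e (nat_lit 548897) (nat_lit 14) .nil)))) (.g (nat_lit 0) (.e (nat_lit 98884) (nat_lit 0) .nil) .nil))) 
(.lf (nat_lit 476054) (.g (nat_lit 2953) (.e (nat_lit 1788) (nat_lit 119) (.e (nat_lit 516151) (nat_lit 9) (.e (nat_lit 426286) (nat_lit 10) (.e (nat_lit 434248) (nat_lit 28) (.e (nat_lit 573470) (nat_lit 11) (.e (nat_lit 16471) (nat_lit 14) (.e (nat_lit 491526) (nat_lit 0) .nil))))))) (.g (nat_lit 1) (.e (nat_lit 99963) (nat_lit 0) .nil) .nil)))))) 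
(.nd (nat_lit 7) (.nd (nat_lit 8) (.nd (nat_lit 9) 
(.lf (nat_lit 475222) (.g (nat_lit 2058) (.e (nat_lit 1433) (nat_lit 108) (.e (nat_lit 336431) (nat_lit 29) (.e (nat_lit 442430) (nat_lit 24) (.e (nat_lit 229663) (nat_lit 240) (.e (nat_lit 2641) (nat_lit 165) (.e (nat_lit 188160) (nat_lit 32) .nil)))))) (.g (nat_lit 1) (.e (nat_lit 97582) (nat_lit 0) .nil) .nil))) 
(.lf (nat_lit 475734) (.g (nat_lit 1579) (.e (nat_lit 1782) (nat_lit 119) (.e (nat_lit 516117) (nat_lit 1) (.e (nat_lit 164329) (nat_lit 230) (.e (nat_lit 163941) (nat_lit 19) .nil)))) (.g (nat_lit 0) (.e (nat_lit 99499) (nat_lit 0) .nil) .nil)))) (.nd (nat_lit 9) 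
(.lf (nat_lit 475478) (.g (nat_lit 4077) (.e (nat_lit 1667) (nat_lit 116) (.e (nat_lit 401451) (nat_lit 12) (.e (nat_lit 475185) (nat_lit 29) (.e (nat_lit 557107) (nat_lit 15) .nil)))) (.g (nat_lit 0) (.e (nat_lit 98629) (nat_lit 0) .nil) .nil))) 
(.lf (nat_lit 475990) (.g (nat_lit 2152) (.e (nat_lit 1788) (nat_lit 119) (.e (nat_lit 516139) (nat_lit 7) (.e (nat_lit 409649) (nat_lit 18) (.e (nat_lit 303116) (nat_lit 2) (.e (nat_lit 196666) (nat_lit 13) .nil))))) (.g (nat_lit 0) (.e (nat_lit 99891) (nat_lit 0) .nil) .nil))))) (.nd (nat_lit 8) (.nd (nat_lit 9) 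
(.lf (nat_lit 475350) (.g (nat_lit 3177) (.e (nat_lit 1587) (nat_lit 111) (.e (nat_lit 360475) (nat_lit 8) (.e (nat_lit 557091) (nat_lit 12) (.e (nat_lit 164022) (nat_lit 46) (.e (nat_lit 704628) (nat_lit 9) (.e (nat_lit 452) (nat_lit 33) (.e (nat_lit 434219) (nat_lit 19) (.e (nat_lit 499981) (nat_lit 14) .nil)))))))) (.g (nat_lit 1) (.e (nat_lit 98163) (nat_lit 0) .nil) .nil))) 
(.lf (nat_lit 475862) (.g (nat_lit 4938) (.e (nat_lit 1790) (nat_lit 119) (.e (nat_lit 516166) (nat_lit 12) (.e (nat_lit 450587) (nat_lit 10) (.e (nat_lit 573477) (nat_lit 12) (.e (nat_lit 57575) (nat_lit 55) .nil))))) (.g (nat_lit 0) (.e (nat_lit 99713) (nat_lit 0) .nil) .nil)))) (.nd (nat_lit 9) 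
(.lf (nat_lit 475606) (.g (nat_lit 739) (.e (nat_lit 1822) (nat_lit 121) (.e (nat_lit 532503) (nat_lit 1) (.e (nat_lit 57931) (nat_lit 282) .nil))) (.g (nat_lit 0) (.e (nat_lit 99213) (nat_lit 0) .nil) .nil))) 
(.lf (nat_lit 476118) (.g (nat_lit 1449) (.e (nat_lit 1789) (nat_lit 119) (.e (nat_lit 516117) (nat_lit 1) (.e (nat_lit 164329) (nat_lit 230) .nil))) (.g (nat_lit 0) (.e (nat_lit 100064) (nat_lit 0) .nil) .nil))))))) (.nd (nat_lit 6) (.nd (nat_lit 7) (.nd (nat_lit 8) (.nd (nat_lit 9) 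
(.lf (nat_lit 475190) (.g (nat_lit 4140) (.e (nat_lit 1428) (nat_lit 108) (.e (nat_lit 336324) (nat_lit 18) (.e (nat_lit 204831) (nat_lit 18) (.e (nat_lit 57854) (nat_lit 252) .nil)))) (.g (nat_lit 0) (.e (nat_lit 97511) (nat_lit 0) .nil) .nil))) 
(.lf (nat_lit 475702) (.g (nat_lit 5087) (.e (nat_lit 1781) (nat_lit 119) (.e (nat_lit 516151) (nat_lit 9) (.e (nat_lit 426211) (nat_lit 9) (.e (nat_lit 426125) (nat_lit 2) (.e (nat_lit 196626) (nat_lit 9) .nil))))) (.g (nat_lit 0) (.e (nat_lit 99451) (nat_lit 0) .nil) .nil)))) (.nd (nat_lit 9) 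
(.lf (nat_lit 475446) (.g (nat_lit 1783) (.e (nat_lit 1658) (nat_lit 115) (.e (nat_lit 393283) (nat_lit 24) (.e (nat_lit 434209) (nat_lit 18) (.e (nat_lit 5548) (nat_lit 306) (.e (nat_lit 2639) (nat_lit 165) (.e (nat_lit 180277) (nat_lit 32) .nil)))))) (.g (nat_lit 1) (.e (nat_lit 98456) (nat_lit 0) .nil) .nil))) 
(.lf (nat_lit 475958) (.g (nat_lit 1584) (.e (nat_lit 1788) (nat_lit 119) (.e (nat_lit 516139) (nat_lit 7) (.e (nat_lit 409648) (nat_lit 18) (.e (nat_lit 303117) (nat_lit 2) .nil)))) (.g (nat_lit 0) (.e (nat_lit 99854) (nat_lit 0) .nil) .nil))))) (.nd (nat_lit 8) (.nd (nat_lit 9) 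
(.lf (nat_lit 475318) (.g (nat_lit 1582) (.e (nat_lit 1576) (nat_lit 110) (.e (nat_lit 352262) (nat_lit 0) (.e (nat_lit 3632) (nat_lit 227) (.e (nat_lit 778327) (nat_lit 6) .nil)))) (.g (nat_lit 0) (.e (nat_lit 98101) (nat_lit 0) .nil) .nil))) 
(.lf (nat_lit 475830) (.g (nat_lit 2003) (.e (nat_lit 1787) (nat_lit 119) (.e (nat_lit 516115) (nat_lit 1) (.e (nat_lit 164399) (nat_lit 256) (.e (nat_lit 57375) (nat_lit 2) (.e (nat_lit 90174) (nat_lit 14) .nil))))) (.g (nat_lit 0) (.e (nat_lit 99674) (nat_lit 0) .nil) .nil)))) (.nd (nat_lit 9) 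
(.lf (nat_lit 475574) (.g (nat_lit 3726) (.e (nat_lit 1673) (nat_lit 116) (.e (nat_lit 401448) (nat_lit 10) (.e (nat_lit 434272) (nat_lit 38) (.e (nat_lit 655378) (nat_lit 4) (.e (nat_lit 172113) (nat_lit 10) (.e (nat_lit 434279) (nat_lit 39) (.e (nat_lit 663556) (nat_lit 0) .nil))))))) (.g (nat_lit 1) (.e (nat_lit 98920) (nat_lit 0) .nil) .nil))) 
(.lf (nat_lit 476086) (.g (nat_lit 2240) (.e (nat_lit 1788) (nat_lit 119) (.e (nat_lit 516166) (nat_lit 12) (.e (nat_lit 450588) (nat_lit 10) (.e (nat_lit 573469) (nat_lit 11) .nil)))) (.g (nat_lit 0) (.e (nat_lit 100010) (nat_lit 0) .nil) .nil)))))) (.nd (nat_lit 7) (.nd (nat_lit 8) (.nd (nat_lit 9) 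
(.lf (nat_lit 475254) (.g (nat_lit 4458) (.e (nat_lit 1454) (nat_lit 108) (.e (nat_lit 336022) (nat_lit 3) (.e (nat_lit 98373) (nat_lit 29) (.e (nat_lit 450587) (nat_lit 10) (.e (nat_lit 573475) (nat_lit 12) .nil))))) (.g (nat_lit 0) (.e (nat_lit 97648) (nat_lit 0) .nil) .nil))) 
(.lf (nat_lit 475766) (.g (nat_lit 1712) (.e (nat_lit 1786) (nat_lit 119) (.e (nat_lit 516117) (nat_lit 1) (.e (nat_lit 164329) (nat_lit 230) (.e (nat_lit 163941) (nat_lit 19) (.e (nat_lit 491264) (nat_lit 14) (.e (nat_lit 466944) (nat_lit 0) .nil)))))) (.g (nat_lit 1) (.e (nat_lit 99566) (nat_lit 0) .nil) .nil)))) (.nd (nat_lit 9) 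
(.lf (nat_lit 475510) (.g (nat_lit 1681) (.e (nat_lit 1671) (nat_lit 116) (.e (nat_lit 401448) (nat_lit 10) (.e (nat_lit 434238) (nat_lit 25) (.e (nat_lit 548898) (nat_lit 14) .nil)))) (.g (nat_lit 0) (.e (nat_lit 98821) (nat_lit 0) .nil) .nil))) 
(.lf (nat_lit 476022) (.g (nat_lit 4513) (.e (nat_lit 1788) (nat_lit 119) (.e (nat_lit 516139) (nat_lit 7) (.e (nat_lit 409649) (nat_lit 18) (.e (nat_lit 303118) (nat_lit 3) (.e (nat_lit 204866) (nat_lit 28) (.e (nat_lit 352290) (nat_lit 20) .nil)))))) (.g (nat_lit 1) (.e (nat_lit 99923) (nat_lit 0) .nil) .nil))))) (.nd (nat_lit 8) (.nd (nat_lit 9) 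
(.lf (nat_lit 475382) (.g (nat_lit 3034) (.e (nat_lit 1633) (nat_lit 114) (.e (nat_lit 385074) (nat_lit 31) (.e (nat_lit 573484) (nat_lit 13) (.e (nat_lit 65617) (nat_lit 10) (.e (nat_lit 344130) (nat_lit 26) (.e (nat_lit 557067) (nat_lit 9) (.e (nat_lit 20) (nat_lit 0) (.e (nat_lit 6476) (nat_lit 343) .nil)))))))) (.g (nat_lit 1) (.e (nat_lit 98260) (nat_lit 0) .nil) .nil))) 
(.lf (nat_lit 475894) (.g (nat_lit 2251) (.e (nat_lit 1788) (nat_lit 119) (.e (nat_lit 516120) (nat_lit 1) (.e (nat_lit 164329) (nat_lit 230) (.e (nat_lit 163941) (nat_lit 19) .nil)))) (.g (nat_lit 0) (.e (nat_lit 99780) (nat_lit 0) .nil) .nil)))) (.nd (nat_lit 9) 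
(.lf (nat_lit 475638) (.g (nat_lit 1366) (.e (nat_lit 7936) (nat_lit 121) (.e (nat_lit 532563) (nat_lit 15) (.e (nat_lit 385057) (nat_lit 22) (.e (nat_lit 500072) (nat_lit 19) .nil)))) (.g (nat_lit 0) (.e (nat_lit 99331) (nat_lit 0) .nil) .nil))) 
(.lf (nat_lit 476150) (.g (nat_lit 2267) (.e (nat_lit 1792) (nat_lit 119) (.e (nat_lit 516116) (nat_lit 1) (.e (nat_lit 164399) (nat_lit 256) (.e (nat_lit 57373) (nat_lit 2) (.e (nat_lit 90172) (nat_lit 14) .nil))))) (.g (nat_lit 0) (.e (nat_lit 100110) (nat_lit 0) .nil) .nil))))))))) (.nd (nat_lit 4) (.nd (nat_lit 5) (.nd (nat_lit 6) (.nd (nat_lit 7) (.nd (nat_lit 8) (.nd (nat_lit 9) 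
(.lf (nat_lit 475150) (.g (nat_lit 2064) (.e (nat_lit 1426) (nat_lit 108) (.e (nat_lit 336430) (nat_lit 29) (.e (nat_lit 442421) (nat_lit 21) (.e (nat_lit 164345) (nat_lit 240) (.e (nat_lit 2640) (nat_lit 165) (.e (nat_lit 180277) (nat_lit 32) .nil)))))) (.g (nat_lit 1) (.e (nat_lit 97335) (nat_lit 0) .nil) .nil))) 
(.lf (nat_lit 475662) (.g (nat_lit 2073) (.e (nat_lit 1781) (nat_lit 119) (.e (nat_lit 516115) (nat_lit 1) (.e (nat_lit 164327) (nat_lit 230) (.e (nat_lit 163903) (nat_lit 12) (.e (nat_lit 426566) (nat_lit 34) .nil))))) (.g (nat_lit 0) (.e (nat_lit 99397) (nat_lit 0) .nil) .nil)))) (.nd (nat_lit 9) 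
(.lf (nat_lit 475406) (.g (nat_lit 2101) (.e (nat_lit 1638) (nat_lit 114) (.e (nat_lit 385068) (nat_lit 26) (.e (nat_lit 532560) (nat_lit 14) (.e (nat_lit 376842) (nat_lit 11) (.e (nat_lit 426107) (nat_lit 1) .nil))))) (.g (nat_lit 0) (.e (nat_lit 98314) (nat_lit 0) .nil) .nil))) 
(.lf (nat_lit 475918) (.g (nat_lit 963) (.e (nat_lit 1788) (nat_lit 119) (.e (nat_lit 516139) (nat_lit 7) (.e (nat_lit 409617) (nat_lit 10) (.e (nat_lit 5756) (nat_lit 315) .nil)))) (.g (nat_lit 0) (.e (nat_lit 99810) (nat_lit 0) .nil) .nil))))) (.nd (nat_lit 8) (.nd (nat_lit 9) 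
(.lf (nat_lit 475278) (.g (nat_lit 1728) (.e (nat_lit 1504) (nat_lit 108) (.e (nat_lit 336204) (nat_lit 12) (.e (nat_lit 385074) (nat_lit 31) (.e (nat_lit 573491) (nat_lit 15) .nil)))) (.g (nat_lit 0) (.e (nat_lit 97717) (nat_lit 0) .nil) .nil))) 
(.lf (nat_lit 475790) (.g (nat_lit 2809) (.e (nat_lit 1784) (nat_lit 119) (.e (nat_lit 516115) (nat_lit 1) (.e (nat_lit 164325) (nat_lit 230) (.e (nat_lit 163903) (nat_lit 12) (.e (nat_lit 426479) (nat_lit 27) (.e (nat_lit 336430) (nat_lit 29) (.e (nat_lit 442379) (nat_lit 0) .nil))))))) (.g (nat_lit 1) (.e (nat_lit 99609) (nat_lit 0) .nil) .nil)))) (.nd (nat_lit 9) 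
(.lf (nat_lit 475534) (.g (nat_lit 1892) (.e (nat_lit 1673) (nat_lit 116) (.e (nat_lit 401447) (nat_lit 10) (.e (nat_lit 434272) (nat_lit 38) (.e (nat_lit 655364) (nat_lit 0) (.e (nat_lit 3015) (nat_lit 187) .nil))))) (.g (nat_lit 0) (.e (nat_lit 98874) (nat_lit 0) .nil) .nil))) 
(.lf (nat_lit 476046) (.g (nat_lit 4706) (.e (nat_lit 1788) (nat_lit 119) (.e (nat_lit 516151) (nat_lit 9) (.e (nat_lit 426286) (nat_lit 10) (.e (nat_lit 434247) (nat_lit 28) (.e (nat_lit 573469) (nat_lit 11) (.e (nat_lit 16473) (nat_lit 14) (.e (nat_lit 491520) (nat_lit 0) .nil))))))) (.g (nat_lit 1) (.e (nat_lit 99955) (nat_lit 0) .nil) .nil)))))) 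
(.nd (nat_lit 7) (.nd (nat_lit 8) (.nd (nat_lit 9) 
(.lf (nat_lit 475214) (.g (nat_lit 3074) (.e (nat_lit 1433) (nat_lit 108) (.e (nat_lit 336324) (nat_lit 18) (.e (nat_lit 204854) (nat_lit 26) (.e (nat_lit 336324) (nat_lit 18) (.e (nat_lit 204854) (nat_lit 26) (.e (nat_lit 336316) (nat_lit 17) (.e (nat_lit 196630) (nat_lit 9) .nil))))))) (.g (nat_lit 1) (.e (nat_lit 97573) (nat_lit 0) .nil) .nil))) 
(.lf (nat_lit 475726) (.g (nat_lit 2736) (.e (nat_lit 1781) (nat_lit 119) (.e (nat_lit 516179) (nat_lit 15) (.e (nat_lit 475199) (nat_lit 40) (.e (nat_lit 704589) (nat_lit 3) (.e (nat_lit 163976) (nat_lit 30) (.e (nat_lit 573491) (nat_lit 15) (.e (nat_lit 81943) (nat_lit 20) .nil))))))) (.g (nat_lit 1) (.e (nat_lit 99479) (nat_lit 0) .nil) .nil)))) (.nd (nat_lit 9) 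
(.lf (nat_lit 475470) (.g (nat_lit 672) (.e (nat_lit 1661) (nat_lit 115) (.e (nat_lit 393271) (nat_lit 23) (.e (nat_lit 425986) (nat_lit 0) .nil))) (.g (nat_lit 0) (.e (nat_lit 98556) (nat_lit 0) .nil) .nil))) 
(.lf (nat_lit 475982) (.g (nat_lit 4148) (.e (nat_lit 1788) (nat_lit 119) (.e (nat_lit 516139) (nat_lit 7) (.e (nat_lit 409648) (nat_lit 18) (.e (nat_lit 303118) (nat_lit 3) (.e (nat_lit 204866) (nat_lit 28) (.e (nat_lit 352293) (nat_lit 20) .nil)))))) (.g (nat_lit 1) (.e (nat_lit 99878) (nat_lit 0) .nil) .nil))))) (.nd (nat_lit 8) (.nd (nat_lit 9) 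
(.lf (nat_lit 475342) (.g (nat_lit 2576) (.e (nat_lit 1587) (nat_lit 111) (.e (nat_lit 360474) (nat_lit 8) (.e (nat_lit 557093) (nat_lit 12) (.e (nat_lit 164022) (nat_lit 46) (.e (nat_lit 704629) (nat_lit 9) (.e (nat_lit 452) (nat_lit 33) (.e (nat_lit 434219) (nat_lit 19) (.e (nat_lit 499992) (nat_lit 14) .nil)))))))) (.g (nat_lit 1) (.e (nat_lit 98155) (nat_lit 0) .nil) .nil))) 
(.lf (nat_lit 475854) (.g (nat_lit 2654) (.e (nat_lit 1790) (nat_lit 119) (.e (nat_lit 516119) (nat_lit 1) (.e (nat_lit 164403) (nat_lit 256) (.e (nat_lit 57373) (nat_lit 2) (.e (nat_lit 90172) (nat_lit 14) .nil))))) (.g (nat_lit 0) (.e (nat_lit 99702) (nat_lit 0) .nil) .nil)))) (.nd (nat_lit 9) 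
(.lf (nat_lit 475598) (.g (nat_lit 2061) (.e (nat_lit 1703) (nat_lit 117) (.e (nat_lit 499900) (nat_lit 7) (.e (nat_lit 24608) (nat_lit 3) (.e (nat_lit 98317) (nat_lit 9) (.e (nat_lit 336021) (nat_lit 3) .nil))))) (.g (nat_lit 0) (.e (nat_lit 99014) (nat_lit 0) .nil) .nil))) 
(.lf (nat_lit 476110) (.g (nat_lit 2079) (.e (nat_lit 1788) (nat_lit 119) (.e (nat_lit 516181) (nat_lit 15) (.e (nat_lit 475199) (nat_lit 40) (.e (nat_lit 704589) (nat_lit 3) (.e (nat_lit 163975) (nat_lit 30) (.e (nat_lit 573491) (nat_lit 15) (.e (nat_lit 81928) (nat_lit 20) .nil))))))) (.g (nat_lit 1) (.e (nat_lit 100047) (nat_lit 0) .nil) .nil))))))) 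
(.nd (nat_lit 6) (.nd (nat_lit 7) (.nd (nat_lit 8) (.nd (nat_lit 9) 
(.lf (nat_lit 475182) (.g (nat_lit 578) (.e (nat_lit 1428) (nat_lit 108) (.e (nat_lit 336324) (nat_lit 18) (.e (nat_lit 204831) (nat_lit 18) .nil))) (.g (nat_lit 0) (.e (nat_lit 97503) (nat_lit 0) .nil) .nil))) 
(.lf (nat_lit 475694) (.g (nat_lit 2930) (.e (nat_lit 1781) (nat_lit 119) (.e (nat_lit 516138) (nat_lit 7) (.e (nat_lit 409645) (nat_lit 18) (.e (nat_lit 303117) (nat_lit 2) (.e (nat_lit 196674) (nat_lit 15) (.e (nat_lit 81936) (nat_lit 20) .nil)))))) (.g (nat_lit 1) (.e (nat_lit 99436) (nat_lit 0) .nil) .nil)))) (.nd (nat_lit 9) 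
(.lf (nat_lit 475438) (.g (nat_lit 1984) (.e (nat_lit 1658) (nat_lit 115) (.e (nat_lit 393271) (nat_lit 23) (.e (nat_lit 426354) (nat_lit 15) (.e (nat_lit 2051) (nat_lit 142) .nil)))) (.g (nat_lit 0) (.e (nat_lit 98440) (nat_lit 0) .nil) .nil))) 
(.lf (nat_lit 475950) (.g (nat_lit 2038) (.e (nat_lit 1788) (nat_lit 119) (.e (nat_lit 516139) (nat_lit 7) (.e (nat_lit 409648) (nat_lit 18) (.e (nat_lit 303116) (nat_lit 2) (.e (nat_lit 196666) (nat_lit 13) .nil))))) (.g (nat_lit 0) (.e (nat_lit 99846) (nat_lit 0) .nil) .nil))))) (.nd (nat_lit 8) (.nd (nat_lit 9) 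
(.lf (nat_lit 475310) (.g (nat_lit 2089) (.e (nat_lit 1550) (nat_lit 109) (.e (nat_lit 344100) (nat_lit 18) (.e (nat_lit 7270) (nat_lit 385) (.e (nat_lit 122916) (nat_lit 14) (.e (nat_lit 352271) (nat_lit 9) .nil))))) (.g (nat_lit 0) (.e (nat_lit 98027) (nat_lit 0) .nil) .nil))) 
(.lf (nat_lit 475822) (.g (nat_lit 5554) (.e (nat_lit 1785) (nat_lit 119) (.e (nat_lit 516166) (nat_lit 12) (.e (nat_lit 450588) (nat_lit 10) (.e (nat_lit 573473) (nat_lit 12) (.e (nat_lit 57348) (nat_lit 0) .nil))))) (.g (nat_lit 0) (.e (nat_lit 99665) (nat_lit 0) .nil) .nil)))) (.nd (nat_lit 9) 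
(.lf (nat_lit 475566) (.g (nat_lit 571) (.e (nat_lit 1673) (nat_lit 116) (.e (nat_lit 401448) (nat_lit 10) (.e (nat_lit 434272) (nat_lit 38) .nil))) (.g (nat_lit 0) (.e (nat_lit 98912) (nat_lit 0) .nil) .nil))) 
(.lf (nat_lit 476078) (.g (nat_lit 3279) (.e (nat_lit 1788) (nat_lit 119) (.e (nat_lit 516166) (nat_lit 12) (.e (nat_lit 450588) (nat_lit 10) (.e (nat_lit 573448) (nat_lit 9) .nil)))) (.g (nat_lit 0) (.e (nat_lit 100002) (nat_lit 0) .nil) .nil)))))) (.nd (nat_lit 7) (.nd (nat_lit 8) (.nd (nat_lit 9) 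
(.lf (nat_lit 475246) (.g (nat_lit 4409) (.e (nat_lit 1454) (nat_lit 108) (.e (nat_lit 336013) (nat_lit 2) (.e (nat_lit 90170) (nat_lit 13) (.e (nat_lit 172113) (nat_lit 10) (.e (nat_lit 434245) (nat_lit 28) (.e (nat_lit 573473) (nat_lit 12) (.e (nat_lit 57569) (nat_lit 53) (.e (nat_lit 761867) (nat_lit 5) .nil)))))))) (.g (nat_lit 1) (.e (nat_lit 97640) (nat_lit 0) .nil) .nil))) 
(.lf (nat_lit 475758) (.g (nat_lit 1309) (.e (nat_lit 1783) (nat_lit 119) (.e (nat_lit 516122) (nat_lit 2) (.e (nat_lit 213032) (nat_lit 11) (.e (nat_lit 24608) (nat_lit 3) (.e (nat_lit 98381) (nat_lit 31) .nil))))) (.g (nat_lit 0) (.e (nat_lit 99538) (nat_lit 0) .nil) .nil)))) (.nd (nat_lit 9) 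
(.lf (nat_lit 475502) (.g (nat_lit 3319) (.e (nat_lit 1669) (nat_lit 116) (.e (nat_lit 401457) (nat_lit 13) (.e (nat_lit 483365) (nat_lit 18) (.e (nat_lit 57654) (nat_lit 152) (.e (nat_lit 2636) (nat_lit 165) (.e (nat_lit 180251) (nat_lit 10) (.e (nat_lit 573456) (nat_lit 9) .nil))))))) (.g (nat_lit 1) (.e (nat_lit 98791) (nat_lit 0) .nil) .nil))) 
(.lf (nat_lit 476014) (.g (nat_lit 2808) (.e (nat_lit 1788) (nat_lit 119) (.e (nat_lit 516139) (nat_lit 7) (.e (nat_lit 409649) (nat_lit 18) (.e (nat_lit 303118) (nat_lit 3) (.e (nat_lit 204855) (nat_lit 26) (.e (nat_lit 336097) (nat_lit 9) (.e (nat_lit 335920) (nat_lit 0) .nil))))))) (.g (nat_lit 1) (.e (nat_lit 99915) (nat_lit 0) .nil) .nil))))) (.nd (nat_lit 8) (.nd (nat_lit 9) 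
(.lf (nat_lit 475374) (.g (nat_lit 1360) (.e (nat_lit 1615) (nat_lit 113) (.e (nat_lit 376860) (nat_lit 21) (.e (nat_lit 65280) (nat_lit 255) (.e (nat_lit 229415) (nat_lit 15) (.e (nat_lit 450592) (nat_lit 14) .nil))))) (.g (nat_lit 0) (.e (nat_lit 98218) (nat_lit 0) .nil) .nil))) 
(.lf (nat_lit 475886) (.g (nat_lit 2861) (.e (nat_lit 1788) (nat_lit 119) (.e (nat_lit 516116) (nat_lit 1) (.e (nat_lit 164332) (nat_lit 230) (.e (nat_lit 163941) (nat_lit 19) (.e (nat_lit 483341) (nat_lit 9) (.e (nat_lit 426197) (nat_lit 9) (.e (nat_lit 426402) (nat_lit 15) .nil))))))) (.g (nat_lit 1) (.e (nat_lit 99760) (nat_lit 0) .nil) .nil)))) (.nd (nat_lit 9) 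
(.lf (nat_lit 475630) (.g (nat_lit 2146) (.e (nat_lit 7936) (nat_lit 121) (.e (nat_lit 532544) (nat_lit 10) (.e (nat_lit 344133) (nat_lit 26) (.e (nat_lit 557098) (nat_lit 13) (.e (nat_lit 179968) (nat_lit 2) .nil))))) (.g (nat_lit 0) (.e (nat_lit 99294) (nat_lit 0) .nil) .nil))) 
(.lf (nat_lit 476142) (.g (nat_lit 2602) (.e (nat_lit 1792) (nat_lit 119) (.e (nat_lit 516115) (nat_lit 1) (.e (nat_lit 164399) (nat_lit 256) (.e (nat_lit 57377) (nat_lit 3) (.e (nat_lit 98357) (nat_lit 26) .nil))))) (.g (nat_lit 0) (.e (nat_lit 100100) (nat_lit 0) .nil) .nil)))))))) (.nd (nat_lit 5) (.nd (nat_lit 6) (.nd (nat_lit 7) (.nd (nat_lit 8) (.nd (nat_lit 9) 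
(.lf (nat_lit 475166) (.g (nat_lit 2715) (.e (nat_lit 1426) (nat_lit 108) (.e (nat_lit 336443) (nat_lit 32) (.e (nat_lit 466969) (nat_lit 21) (.e (nat_lit 164345) (nat_lit 240) (.e (nat_lit 2638) (nat_lit 165) (.e (nat_lit 180277) (nat_lit 32) .nil)))))) (.g (nat_lit 1) (.e (nat_lit 97353) (nat_lit 0) .nil) .nil))) 
(.lf (nat_lit 475678) (.g (nat_lit 2995) (.e (nat_lit 1781) (nat_lit 119) (.e (nat_lit 516119) (nat_lit 1) (.e (nat_lit 164403) (nat_lit 256) (.e (nat_lit 57378) (nat_lit 3) (.e (nat_lit 98357) (nat_lit 26) .nil))))) (.g (nat_lit 0) (.e (nat_lit 99418) (nat_lit 0) .nil) .nil)))) (.nd (nat_lit 9) 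
(.lf (nat_lit 475422) (.g (nat_lit 3683) (.e (nat_lit 1642) (nat_lit 114) (.e (nat_lit 385074) (nat_lit 31) (.e (nat_lit 573493) (nat_lit 15) (.e (nat_lit 81951) (nat_lit 22) (.e (nat_lit 90133) (nat_lit 9) .nil))))) (.g (nat_lit 0) (.e (nat_lit 98397) (nat_lit 0) .nil) .nil))) 
(.lf (nat_lit 475934) (.g (nat_lit 2967) (.e (nat_lit 1788) (nat_lit 119) (.e (nat_lit 516139) (nat_lit 7) (.e (nat_lit 409646) (nat_lit 18) (.e (nat_lit 303117) (nat_lit 2) (.e (nat_lit 196672) (nat_lit 15) .nil))))) (.g (nat_lit 0) (.e (nat_lit 99830) (nat_lit 0) .nil) .nil))))) (.nd (nat_lit 8) (.nd (nat_lit 9) 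
(.lf (nat_lit 475294) (.g (nat_lit 2349) (.e (nat_lit 1515) (nat_lit 108) (.e (nat_lit 336420) (nat_lit 28) (.e (nat_lit 434180) (nat_lit 0) (.e (nat_lit 1427) (nat_lit 108) (.e (nat_lit 336421) (nat_lit 28) (.e (nat_lit 434178) (nat_lit 0) .nil)))))) (.g (nat_lit 1) (.e (nat_lit 97861) (nat_lit 0) .nil) .nil))) 
(.lf (nat_lit 475806) (.g (nat_lit 1644) (.e (nat_lit 1784) (nat_lit 119) (.e (nat_lit 516138) (nat_lit 7) (.e (nat_lit 409645) (nat_lit 18) (.e (nat_lit 303117) (nat_lit 2) .nil)))) (.g (nat_lit 0) (.e (nat_lit 99640) (nat_lit 0) .nil) .nil)))) (.nd (nat_lit 9) 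
(.lf (nat_lit 475550) (.g (nat_lit 6185) (.e (nat_lit 1673) (nat_lit 116) (.e (nat_lit 401448) (nat_lit 10) (.e (nat_lit 434238) (nat_lit 25) (.e (nat_lit 548913) (nat_lit 18) (.e (nat_lit 172094) (nat_lit 9) (.e (nat_lit 426125) (nat_lit 2) (.e (nat_lit 196617) (nat_lit 9) .nil))))))) (.g (nat_lit 1) (.e (nat_lit 98892) (nat_lit 0) .nil) .nil))) 
(.lf (nat_lit 476062) (.g (nat_lit 3008) (.e (nat_lit 1788) (nat_lit 119) (.e (nat_lit 516165) (nat_lit 12) (.e (nat_lit 450586) (nat_lit 10) (.e (nat_lit 573451) (nat_lit 9) (.e (nat_lit 430) (nat_lit 32) .nil))))) (.g (nat_lit 0) (.e (nat_lit 99986) (nat_lit 0) .nil) .nil)))))) (.nd (nat_lit 7) (.nd (nat_lit 8) (.nd (nat_lit 9) 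
(.lf (nat_lit 475230) (.g (nat_lit 951) (.e (nat_lit 1433) (nat_lit 108) (.e (nat_lit 336456) (nat_lit 34) (.e (nat_lit 483406) (nat_lit 26) .nil))) (.g (nat_lit 0) (.e (nat_lit 97590) (nat_lit 0) .nil) .nil))) 
(.lf (nat_lit 475742) (.g (nat_lit 1687) (.e (nat_lit 1782) (nat_lit 119) (.e (nat_lit 516122) (nat_lit 2) (.e (nat_lit 213032) (nat_lit 11) (.e (nat_lit 24608) (nat_lit 3) (.e (nat_lit 98381) (nat_lit 31) (.e (nat_lit 466945) (nat_lit 0) .nil)))))) (.g (nat_lit 1) (.e (nat_lit 99512) (nat_lit 0) .nil) .nil)))) (.nd (nat_lit 9) 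
(.lf (nat_lit 475486) (.g (nat_lit 669) (.e (nat_lit 1669) (nat_lit 116) (.e (nat_lit 401451) (nat_lit 12) (.e (nat_lit 475185) (nat_lit 29) .nil))) (.g (nat_lit 0) (.e (nat_lit 98750) (nat_lit 0) .nil) .nil))) 
(.lf (nat_lit 475998) (.g (nat_lit 2433) (.e (nat_lit 1788) (nat_lit 119) (.e (nat_lit 516139) (nat_lit 7) (.e (nat_lit 409649) (nat_lit 18) (.e (nat_lit 303117) (nat_lit 2) (.e (nat_lit 196666) (nat_lit 13) (.e (nat_lit 65589) (nat_lit 9) (.e (nat_lit 335923) (nat_lit 0) .nil))))))) (.g (nat_lit 1) (.e (nat_lit 99899) (nat_lit 0) .nil) .nil))))) (.nd (nat_lit 8) (.nd (nat_lit 9) 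
(.lf (nat_lit 475358) (.g (nat_lit 3301) (.e (nat_lit 1587) (nat_lit 111) (.e (nat_lit 360475) (nat_lit 8) (.e (nat_lit 557091) (nat_lit 12) (.e (nat_lit 164022) (nat_lit 46) (.e (nat_lit 704629) (nat_lit 9) (.e (nat_lit 452) (nat_lit 33) (.e (nat_lit 434219) (nat_lit 19) (.e (nat_lit 499983) (nat_lit 14) .nil)))))))) (.g (nat_lit 1) (.e (nat_lit 98171) (nat_lit 0) .nil) .nil))) 
(.lf (nat_lit 475870) (.g (nat_lit 3029) (.e (nat_lit 1788) (nat_lit 119) (.e (nat_lit 516115) (nat_lit 1) (.e (nat_lit 164325) (nat_lit 230) (.e (nat_lit 163905) (nat_lit 12) (.e (nat_lit 426566) (nat_lit 34) (.e (nat_lit 393272) (nat_lit 23) (.e (nat_lit 426402) (nat_lit 15) .nil))))))) (.g (nat_lit 1) (.e (nat_lit 99729) (nat_lit 0) .nil) .nil)))) (.nd (nat_lit 9) 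
(.lf (nat_lit 475614) (.g (nat_lit 498) (.e (nat_lit 7936) (nat_lit 121) (.e (nat_lit 532544) (nat_lit 10) (.e (nat_lit 344129) (nat_lit 26) .nil))) (.g (nat_lit 0) (.e (nat_lit 99278) (nat_lit 0) .nil) .nil))) 
(.lf (nat_lit 476126) (.g (nat_lit 2156) (.e (nat_lit 1791) (nat_lit 119) (.e (nat_lit 516115) (nat_lit 1) (.e (nat_lit 164399) (nat_lit 256) (.e (nat_lit 57373) (nat_lit 2) (.e (nat_lit 90172) (nat_lit 14) .nil))))) (.g (nat_lit 0) (.e (nat_lit 100078) (nat_lit 0) .nil) .nil))))))) (.nd (nat_lit 6) (.nd (nat_lit 7) (.nd (nat_lit 8) (.nd (nat_lit 9) 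
(.lf (nat_lit 475198) (.g (nat_lit 2092) (.e (nat_lit 1428) (nat_lit 108) (.e (nat_lit 336430) (nat_lit 29) (.e (nat_lit 442430) (nat_lit 24) (.e (nat_lit 229664) (nat_lit 240) (.e (nat_lit 2643) (nat_lit 165) (.e (nat_lit 180277) (nat_lit 32) .nil)))))) (.g (nat_lit 1) (.e (nat_lit 97527) (nat_lit 0) .nil) .nil))) 
(.lf (nat_lit 475710) (.g (nat_lit 2701) (.e (nat_lit 1781) (nat_lit 119) (.e (nat_lit 516151) (nat_lit 9) (.e (nat_lit 426211) (nat_lit 9) (.e (nat_lit 433920) (nat_lit 3) .nil)))) (.g (nat_lit 0) (.e (nat_lit 99459) (nat_lit 0) .nil) .nil)))) (.nd (nat_lit 9) 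
(.lf (nat_lit 475454) (.g (nat_lit 2247) (.e (nat_lit 1659) (nat_lit 115) (.e (nat_lit 393281) (nat_lit 23) (.e (nat_lit 426098) (nat_lit 1) (.e (nat_lit 164348) (nat_lit 240) (.e (nat_lit 2639) (nat_lit 165) (.e (nat_lit 180277) (nat_lit 32) .nil)))))) (.g (nat_lit 1) (.e (nat_lit 98482) (nat_lit 0) .nil) .nil))) 
(.lf (nat_lit 475966) (.g (nat_lit 2670) (.e (nat_lit 1788) (nat_lit 119) (.e (nat_lit 516139) (nat_lit 7) (.e (nat_lit 409648) (nat_lit 18) (.e (nat_lit 303117) (nat_lit 2) (.e (nat_lit 196666) (nat_lit 13) (.e (nat_lit 65596) (nat_lit 9) (.e (nat_lit 335924) (nat_lit 0) .nil))))))) (.g (nat_lit 1) (.e (nat_lit 99862) (nat_lit 0) .nil) .nil))))) (.nd (nat_lit 8) (.nd (nat_lit 9) 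
(.lf (nat_lit 475326) (.g (nat_lit 3454) (.e (nat_lit 1583) (nat_lit 111) (.e (nat_lit 360475) (nat_lit 8) (.e (nat_lit 557090) (nat_lit 12) (.e (nat_lit 164020) (nat_lit 45) (.e (nat_lit 696330) (nat_lit 5) (.e (nat_lit 2878) (nat_lit 184) (.e (nat_lit 426125) (nat_lit 2) (.e (nat_lit 204544) (nat_lit 9) .nil)))))))) (.g (nat_lit 1) (.e (nat_lit 98116) (nat_lit 0) .nil) .nil))) 
(.lf (nat_lit 475838) (.g (nat_lit 2841) (.e (nat_lit 1787) (nat_lit 119) (.e (nat_lit 516138) (nat_lit 7) (.e (nat_lit 409646) (nat_lit 18) (.e (nat_lit 303117) (nat_lit 2) (.e (nat_lit 196674) (nat_lit 15) .nil))))) (.g (nat_lit 0) (.e (nat_lit 99684) (nat_lit 0) .nil) .nil)))) (.nd (nat_lit 9) 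
(.lf (nat_lit 475582) (.g (nat_lit 908) (.e (nat_lit 1675) (nat_lit 116) (.e (nat_lit 401456) (nat_lit 13) (.e (nat_lit 483363) (nat_lit 18) .nil))) (.g (nat_lit 0) (.e (nat_lit 98944) (nat_lit 0) .nil) .nil))) 
(.lf (nat_lit 476094) (.g (nat_lit 1316) (.e (nat_lit 1788) (nat_lit 119) (.e (nat_lit 516166) (nat_lit 12) (.e (nat_lit 450588) (nat_lit 10) (.e (nat_lit 573475) (nat_lit 12) .nil)))) (.g (nat_lit 0) (.e (nat_lit 100018) (nat_lit 0) .nil) .nil)))))) (.nd (nat_lit 7) (.nd (nat_lit 8) (.nd (nat_lit 9) 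
(.lf (nat_lit 475262) (.g (nat_lit 2020) (.e (nat_lit 1454) (nat_lit 108) (.e (nat_lit 336295) (nat_lit 15) (.e (nat_lit 3305) (nat_lit 202) (.e (nat_lit 573491) (nat_lit 15) .nil)))) (.g (nat_lit 0) (.e (nat_lit 97687) (nat_lit 0) .nil) .nil))) 
(.lf (nat_lit 475774) (.g (nat_lit 1807) (.e (nat_lit 1786) (nat_lit 119) (.e (nat_lit 516122) (nat_lit 2) (.e (nat_lit 213032) (nat_lit 11) (.e (nat_lit 24608) (nat_lit 3) (.e (nat_lit 98381) (nat_lit 31) (.e (nat_lit 466945) (nat_lit 0) .nil)))))) (.g (nat_lit 1) (.e (nat_lit 99582) (nat_lit 0) .nil) .nil)))) (.nd (nat_lit 9) 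
(.lf (nat_lit 475518) (.g (nat_lit 1735) (.e (nat_lit 1673) (nat_lit 116) (.e (nat_lit 401446) (nat_lit 10) (.e (nat_lit 434238) (nat_lit 25) (.e (nat_lit 548897) (nat_lit 14) (.e (nat_lit 3022) (nat_lit 187) .nil))))) (.g (nat_lit 0) (.e (nat_lit 98857) (nat_lit 0) .nil) .nil))) 
(.lf (nat_lit 476030) (.g (nat_lit 885) (.e (nat_lit 1788) (nat_lit 119) (.e (nat_lit 516151) (nat_lit 9) (.e (nat_lit 426042) (nat_lit 0) .nil))) (.g (nat_lit 0) (.e (nat_lit 99939) (nat_lit 0) .nil) .nil))))) (.nd (nat_lit 8) (.nd (nat_lit 9) 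
(.lf (nat_lit 475390) (.g (nat_lit 1782) (.e (nat_lit 1635) (nat_lit 114) (.e (nat_lit 385074) (nat_lit 31) (.e (nat_lit 573485) (nat_lit 13) (.e (nat_lit 65619) (nat_lit 10) (.e (nat_lit 344117) (nat_lit 21) .nil))))) (.g (nat_lit 0) (.e (nat_lit 98281) (nat_lit 0) .nil) .nil))) 
(.lf (nat_lit 475902) (.g (nat_lit 3114) (.e (nat_lit 1788) (nat_lit 119) (.e (nat_lit 516138) (nat_lit 7) (.e (nat_lit 409645) (nat_lit 18) (.e (nat_lit 303117) (nat_lit 2) (.e (nat_lit 196673) (nat_lit 15) (.e (nat_lit 81938) (nat_lit 20) .nil)))))) (.g (nat_lit 1) (.e (nat_lit 99789) (nat_lit 0) .nil) .nil)))) (.nd (nat_lit 9) 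
(.lf (nat_lit 475646) (.g (nat_lit 2768) (.e (nat_lit 1778) (nat_lit 119) (.e (nat_lit 516139) (nat_lit 7) (.e (nat_lit 409645) (nat_lit 18) (.e (nat_lit 303117) (nat_lit 2) (.e (nat_lit 196665) (nat_lit 13) .nil))))) (.g (nat_lit 0) (.e (nat_lit 99376) (nat_lit 0) .nil) .nil))) 
(.lf (nat_lit 476158) (.g (nat_lit 1490) (.e (nat_lit 1792) (nat_lit 119) (.e (nat_lit 516179) (nat_lit 15) (.e (nat_lit 475177) (nat_lit 24) (.e (nat_lit 516150) (nat_lit 9) .nil)))) (.g (nat_lit 0) (.e (nat_lit 100123) (nat_lit 0) .nil) .nil)))))))))))) 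
(.nd (nat_lit 1) (.nd (nat_lit 2) (.nd (nat_lit 3) (.nd (nat_lit 4) (.nd (nat_lit 5) 
(.nd (nat_lit 6) (.nd (nat_lit 7) (.nd (nat_lit 8) (.nd (nat_lit 9) 
(.lf (nat_lit 475137) (.g (nat_lit 2264) (.e (nat_lit 1426) (nat_lit 108) (.e (nat_lit 336430) (nat_lit 29) (.e (nat_lit 442379) (nat_lit 0) (.e (nat_lit 2057) (nat_lit 142) (.e (nat_lit 704595) (nat_lit 5) (.e (nat_lit 180278) (nat_lit 32) .nil)))))) (.g (nat_lit 1) (.e (nat_lit 97315) (nat_lit 0) .nil) .nil))) 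
(.lf (nat_lit 475649) (.g (nat_lit 1539) (.e (nat_lit 1778) (nat_lit 119) (.e (nat_lit 516139) (nat_lit 7) (.e (nat_lit 409648) (nat_lit 18) (.e (nat_lit 303117) (nat_lit 2) .nil)))) (.g (nat_lit 0) (.e (nat_lit 99379) (nat_lit 0) .nil) .nil)))) (.nd (nat_lit 9) 
(.lf (nat_lit 475393) (.g (nat_lit 395) (.e (nat_lit 1636) (nat_lit 114) (.e (nat_lit 385074) (nat_lit 31) (.e (nat_lit 573493) (nat_lit 15) .nil))) (.g (nat_lit 0) (.e (nat_lit 98295) (nat_lit 0) .nil) .nil))) 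
(.lf (nat_lit 475905) (.g (nat_lit 4245) (.e (nat_lit 1788) (nat_lit 119) (.e (nat_lit 516138) (nat_lit 7) (.e (nat_lit 409645) (nat_lit 18) (.e (nat_lit 303117) (nat_lit 2) (.e (nat_lit 196674) (nat_lit 15) (.e (nat_lit 81947) (nat_lit 20) .nil)))))) (.g (nat_lit 1) (.e (nat_lit 99792) (nat_lit 0) .nil) .nil))))) (.nd (nat_lit 8) (.nd (nat_lit 9) 
(.lf (nat_lit 475265) (.g (nat_lit 3775) (.e (nat_lit 1454) (nat_lit 108) (.e (nat_lit 336295) (nat_lit 15) (.e (nat_lit 3632) (nat_lit 227) (.e (nat_lit 778323) (nat_lit 5) (.e (nat_lit 73782) (nat_lit 32) (.e (nat_lit 3067) (nat_lit 190) (.e (nat_lit 483072) (nat_lit 8) .nil))))))) (.g (nat_lit 1) (.e (nat_lit 97691) (nat_lit 0) .nil) .nil))) 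
(.lf (nat_lit 475777) (.g (nat_lit 932) (.e (nat_lit 1786) (nat_lit 119) (.e (nat_lit 516127) (nat_lit 2) (.e (nat_lit 213030) (nat_lit 11) (.e (nat_lit 24609) (nat_lit 3) (.e (nat_lit 98380) (nat_lit 31) .nil))))) (.g (nat_lit 0) (.e (nat_lit 99585) (nat_lit 0) .nil) .nil)))) (.nd (nat_lit 9) 
(.lf (nat_lit 475521) (.g (nat_lit 3342) (.e (nat_lit 1673) (nat_lit 116) (.e (nat_lit 401446) (nat_lit 10) (.e (nat_lit 434238) (nat_lit 25) (.e (nat_lit 548913) (nat_lit 18) (.e (nat_lit 172094) (nat_lit 9) .nil))))) (.g (nat_lit 0) (.e (nat_lit 98860) (nat_lit 0) .nil) .nil))) 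
(.lf (nat_lit 476033) (.g (nat_lit 2448) (.e (nat_lit 1788) (nat_lit 119) (.e (nat_lit 516151) (nat_lit 9) (.e (nat_lit 426286) (nat_lit 10) (.e (nat_lit 434242) (nat_lit 28) (.e (nat_lit 573471) (nat_lit 11) (.e (nat_lit 16473) (nat_lit 14) (.e (nat_lit 491525) (nat_lit 0) .nil))))))) (.g (nat_lit 1) (.e (nat_lit 99942) (nat_lit 0) .nil) .nil)))))) 
(.nd (nat_lit 7) (.nd (nat_lit 8) (.nd (nat_lit 9) 
(.lf (nat_lit 475201) (.g (nat_lit 279) (.e (nat_lit 1428) (nat_lit 108) (.e (nat_lit 336432) (nat_lit 30) (.e (nat_lit 458496) (nat_lit 0) .nil))) (.g (nat_lit 0) (.e (nat_lit 97530) (nat_lit 0) .nil) .nil))) 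
(.lf (nat_lit 475713) (.g (nat_lit 5370) (.e (nat_lit 1781) (nat_lit 119) (.e (nat_lit 516166) (nat_lit 12) (.e (nat_lit 450587) (nat_lit 10) (.e (nat_lit 573475) (nat_lit 12) .nil)))) (.g (nat_lit 0) (.e (nat_lit 99464) (nat_lit 0) .nil) .nil)))) (.nd (nat_lit 9) 
(.lf (nat_lit 475457) (.g (nat_lit 2479) (.e (nat_lit 1659) (nat_lit 115) (.e (nat_lit 393282) (nat_lit 24) (.e (nat_lit 434209) (nat_lit 18) (.e (nat_lit 5548) (nat_lit 306) (.e (nat_lit 2639) (nat_lit 165) (.e (nat_lit 180277) (nat_lit 32) .nil)))))) (.g (nat_lit 1) (.e (nat_lit 98491) (nat_lit 0) .nil) .nil))) 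
(.lf (nat_lit 475969) (.g (nat_lit 2573) (.e (nat_lit 1788) (nat_lit 119) (.e (nat_lit 516139) (nat_lit 7) (.e (nat_lit 409648) (nat_lit 18) (.e (nat_lit 303117) (nat_lit 2) (.e (nat_lit 196666) (nat_lit 13) (.e (nat_lit 65596) (nat_lit 9) (.e (nat_lit 335937) (nat_lit 0) .nil))))))) (.g (nat_lit 1) (.e (nat_lit 99865) (nat_lit 0) .nil) .nil))))) (.nd (nat_lit 8) (.nd (nat_lit 9) 
(.lf (nat_lit 475329) (.g (nat_lit 1714) (.e (nat_lit 1586) (nat_lit 111) (.e (nat_lit 360451) (nat_lit 0) (.e (nat_lit 5107) (nat_lit 292) (.e (nat_lit 2645) (nat_lit 166) (.e (nat_lit 188434) (nat_lit 20) (.e (nat_lit 3391) (nat_lit 210) (.e (nat_lit 639008) (nat_lit 13) .nil))))))) (.g (nat_lit 1) (.e (nat_lit 98131) (nat_lit 0) .nil) .nil))) 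
(.lf (nat_lit 475841) (.g (nat_lit 4712) (.e (nat_lit 1787) (nat_lit 119) (.e (nat_lit 516166) (nat_lit 12) (.e (nat_lit 450587) (nat_lit 10) (.e (nat_lit 573478) (nat_lit 12) (.e (nat_lit 57574) (nat_lit 55) .nil))))) (.g (nat_lit 0) (.e (nat_lit 99687) (nat_lit 0) .nil) .nil)))) (.nd (nat_lit 9) 
(.lf (nat_lit 475585) (.g (nat_lit 3761) (.e (nat_lit 1676) (nat_lit 116) (.e (nat_lit 401451) (nat_lit 12) (.e (nat_lit 475185) (nat_lit 29) (.e (nat_lit 557109) (nat_lit 15) (.e (nat_lit 188449) (nat_lit 22) (.e (nat_lit 196628) (nat_lit 9) .nil)))))) (.g (nat_lit 1) (.e (nat_lit 98979) (nat_lit 0) .nil) .nil))) 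
(.lf (nat_lit 476097) (.g (nat_lit 3686) (.e (nat_lit 1788) (nat_lit 119) (.e (nat_lit 516179) (nat_lit 15) (.e (nat_lit 475177) (nat_lit 24) (.e (nat_lit 516147) (nat_lit 9) (.e (nat_lit 426436) (nat_lit 18) (.e (nat_lit 98358) (nat_lit 26) (.e (nat_lit 426402) (nat_lit 15) .nil))))))) (.g (nat_lit 1) (.e (nat_lit 100021) (nat_lit 0) .nil) .nil))))))) 
(.nd (nat_lit 6) (.nd (nat_lit 7) (.nd (nat_lit 8) (.nd (nat_lit 9) 
(.lf (nat_lit 475169) (.g (nat_lit 2156) (.e (nat_lit 1426) (nat_lit 108) (.e (nat_lit 336443) (nat_lit 32) (.e (nat_lit 466969) (nat_lit 21) (.e (nat_lit 164348) (nat_lit 240) (.e (nat_lit 2639) (nat_lit 165) (.e (nat_lit 180278) (nat_lit 32) .nil)))))) (.g (nat_lit 1) (.e (nat_lit 97356) (nat_lit 0) .nil) .nil))) 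
(.lf (nat_lit 475681) (.g (nat_lit 2388) (.e (nat_lit 1781) (nat_lit 119) (.e (nat_lit 516119) (nat_lit 1) (.e (nat_lit 164403) (nat_lit 256) (.e (nat_lit 57378) (nat_lit 3) (.e (nat_lit 98376) (nat_lit 30) .nil))))) (.g (nat_lit 0) (.e (nat_lit 99421) (nat_lit 0) .nil) .nil)))) (.nd (nat_lit 9) 
(.lf (nat_lit 475425) (.g (nat_lit 1524) (.e (nat_lit 1642) (nat_lit 114) (.e (nat_lit 385074) (nat_lit 31) (.e (nat_lit 573493) (nat_lit 15) (.e (nat_lit 81954) (nat_lit 23) .nil)))) (.g (nat_lit 0) (.e (nat_lit 98400) (nat_lit 0) .nil) .nil))) 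
(.lf (nat_lit 475937) (.g (nat_lit 2484) (.e (nat_lit 1788) (nat_lit 119) (.e (nat_lit 516139) (nat_lit 7) (.e (nat_lit 409647) (nat_lit 18) (.e (nat_lit 303117) (nat_lit 2) (.e (nat_lit 196666) (nat_lit 13) (.e (nat_lit 65596) (nat_lit 9) (.e (nat_lit 335923) (nat_lit 0) .nil))))))) (.g (nat_lit 1) (.e (nat_lit 99833) (nat_lit 0) .nil) .nil))))) (.nd (nat_lit 8) (.nd (nat_lit 9) 
(.lf (nat_lit 475297) (.g (nat_lit 2329) (.e (nat_lit 1517) (nat_lit 108) (.e (nat_lit 336420) (nat_lit 28) (.e (nat_lit 434180) (nat_lit 0) (.e (nat_lit 1427) (nat_lit 108) (.e (nat_lit 336421) (nat_lit 28) (.e (nat_lit 434178) (nat_lit 0) .nil)))))) (.g (nat_lit 1) (.e (nat_lit 97937) (nat_lit 0) .nil) .nil))) 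
(.lf (nat_lit 475809) (.g (nat_lit 3826) (.e (nat_lit 1784) (nat_lit 119) (.e (nat_lit 516151) (nat_lit 9) (.e (nat_lit 426286) (nat_lit 10) (.e (nat_lit 434247) (nat_lit 28) .nil)))) (.g (nat_lit 0) (.e (nat_lit 99644) (nat_lit 0) .nil) .nil)))) (.nd (nat_lit 9) 
(.lf (nat_lit 475553) (.g (nat_lit 6464) (.e (nat_lit 1673) (nat_lit 116) (.e (nat_lit 401448) (nat_lit 10) (.e (nat_lit 434238) (nat_lit 25) (.e (nat_lit 548913) (nat_lit 18) (.e (nat_lit 172094) (nat_lit 9) (.e (nat_lit 426125) (nat_lit 2) (.e (nat_lit 196638) (nat_lit 9) .nil))))))) (.g (nat_lit 1) (.e (nat_lit 98895) (nat_lit 0) .nil) .nil))) 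
(.lf (nat_lit 476065) (.g (nat_lit 2870) (.e (nat_lit 1788) (nat_lit 119) (.e (nat_lit 516165) (nat_lit 12) (.e (nat_lit 450588) (nat_lit 10) (.e (nat_lit 573451) (nat_lit 9) .nil)))) (.g (nat_lit 0) (.e (nat_lit 99989) (nat_lit 0) .nil) .nil)))))) (.nd (nat_lit 7) (.nd (nat_lit 8) (.nd (nat_lit 9) 
(.lf (nat_lit 475233) (.g (nat_lit 2383) (.e (nat_lit 1448) (nat_lit 108) (.e (nat_lit 335997) (nat_lit 1) (.e (nat_lit 57857) (nat_lit 254) (.e (nat_lit 163908) (nat_lit 12) (.e (nat_lit 426022) (nat_lit 0) (.e (nat_lit 7107) (nat_lit 380) (.e (nat_lit 164281) (nat_lit 222) (.e (nat_lit 57884) (nat_lit 270) .nil)))))))) (.g (nat_lit 1) (.e (nat_lit 97602) (nat_lit 0) .nil) .nil))) 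
(.lf (nat_lit 475745) (.g (nat_lit 4739) (.e (nat_lit 1782) (nat_lit 119) (.e (nat_lit 516166) (nat_lit 12) (.e (nat_lit 450587) (nat_lit 10) (.e (nat_lit 573477) (nat_lit 12) (.e (nat_lit 57575) (nat_lit 55) .nil))))) (.g (nat_lit 0) (.e (nat_lit 99518) (nat_lit 0) .nil) .nil)))) (.nd (nat_lit 9) 
(.lf (nat_lit 475489) (.g (nat_lit 5174) (.e (nat_lit 1669) (nat_lit 116) (.e (nat_lit 401451) (nat_lit 12) (.e (nat_lit 475185) (nat_lit 29) (.e (nat_lit 557098) (nat_lit 13) (.e (nat_lit 172094) (nat_lit 9) .nil))))) (.g (nat_lit 0) (.e (nat_lit 98754) (nat_lit 0) .nil) .nil))) 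
(.lf (nat_lit 476001) (.g (nat_lit 3039) (.e (nat_lit 1788) (nat_lit 119) (.e (nat_lit 516139) (nat_lit 7) (.e (nat_lit 409649) (nat_lit 18) (.e (nat_lit 303117) (nat_lit 2) (.e (nat_lit 196666) (nat_lit 13) (.e (nat_lit 65592) (nat_lit 9) (.e (nat_lit 335922) (nat_lit 0) .nil))))))) (.g (nat_lit 1) (.e (nat_lit 99902) (nat_lit 0) .nil) .nil))))) (.nd (nat_lit 8) (.nd (nat_lit 9) 
(.lf (nat_lit 475361) (.g (nat_lit 3854) (.e (nat_lit 1587) (nat_lit 111) (.e (nat_lit 360475) (nat_lit 8) (.e (nat_lit 557091) (nat_lit 12) (.e (nat_lit 164022) (nat_lit 46) (.e (nat_lit 704629) (nat_lit 9) (.e (nat_lit 452) (nat_lit 33) (.e (nat_lit 434219) (nat_lit 19) (.e (nat_lit 499990) (nat_lit 14) .nil)))))))) (.g (nat_lit 1) (.e (nat_lit 98174) (nat_lit 0) .nil) .nil))) 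
(.lf (nat_lit 475873) (.g (nat_lit 3976) (.e (nat_lit 1788) (nat_lit 119) (.e (nat_lit 516115) (nat_lit 1) (.e (nat_lit 164325) (nat_lit 230) (.e (nat_lit 163907) (nat_lit 12) (.e (nat_lit 426566) (nat_lit 34) (.e (nat_lit 393273) (nat_lit 23) (.e (nat_lit 426364) (nat_lit 15) .nil))))))) (.g (nat_lit 1) (.e (nat_lit 99732) (nat_lit 0) .nil) .nil)))) (.nd (nat_lit 9) 
(.lf (nat_lit 475617) (.g (nat_lit 2174) (.e (nat_lit 7936) (nat_lit 121) (.e (nat_lit 532544) (nat_lit 10) (.e (nat_lit 344129) (nat_lit 26) (.e (nat_lit 557097) (nat_lit 13) (.e (nat_lit 172067) (nat_lit 3) .nil))))) (.g (nat_lit 0) (.e (nat_lit 99281) (nat_lit 0) .nil) .nil))) 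
(.lf (nat_lit 476129) (.g (nat_lit 2678) (.e (nat_lit 1791) (nat_lit 119) (.e (nat_lit 516115) (nat_lit 1) (.e (nat_lit 164399) (nat_lit 256) (.e (nat_lit 57378) (nat_lit 3) (.e (nat_lit 98355) (nat_lit 26) .nil))))) (.g (nat_lit 0) (.e (nat_lit 100081) (nat_lit 0) .nil) .nil)))))))) (.nd (nat_lit 5) (.nd (nat_lit 6) (.nd (nat_lit 7) (.nd (nat_lit 8) (.nd (nat_lit 9) 
(.lf (nat_lit 475153) (.g (nat_lit 2363) (.e (nat_lit 1426) (nat_lit 108) (.e (nat_lit 336430) (nat_lit 29) (.e (nat_lit 442421) (nat_lit 21) (.e (nat_lit 164347) (nat_lit 240) (.e (nat_lit 2640) (nat_lit 165) (.e (nat_lit 180277) (nat_lit 32) .nil)))))) (.g (nat_lit 1) (.e (nat_lit 97338) (nat_lit 0) .nil) .nil))) 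
(.lf (nat_lit 475665) (.g (nat_lit 2182) (.e (nat_lit 1781) (nat_lit 119) (.e (nat_lit 516115) (nat_lit 1) (.e (nat_lit 164399) (nat_lit 256) (.e (nat_lit 57373) (nat_lit 2) (.e (nat_lit 90172) (nat_lit 14) .nil))))) (.g (nat_lit 0) (.e (nat_lit 99400) (nat_lit 0) .nil) .nil)))) (.nd (nat_lit 9) 
(.lf (nat_lit 475409) (.g (nat_lit 2596) (.e (nat_lit 1638) (nat_lit 114) (.e (nat_lit 385074) (nat_lit 31) (.e (nat_lit 573484) (nat_lit 13) (.e (nat_lit 65619) (nat_lit 10) .nil)))) (.g (nat_lit 0) (.e (nat_lit 98331) (nat_lit 0) .nil) .nil))) 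
(.lf (nat_lit 475921) (.g (nat_lit 1136) (.e (nat_lit 1788) (nat_lit 119) (.e (nat_lit 516139) (nat_lit 7) (.e (nat_lit 409643) (nat_lit 18) (.e (nat_lit 303116) (nat_lit 2) .nil)))) (.g (nat_lit 0) (.e (nat_lit 99817) (nat_lit 0) .nil) .nil))))) (.nd (nat_lit 8) (.nd (nat_lit 9) 
(.lf (nat_lit 475281) (.g (nat_lit 3244) (.e (nat_lit 1512) (nat_lit 108) (.e (nat_lit 335872) (nat_lit 0) (.e (nat_lit 6713) (nat_lit 360) (.e (nat_lit 163962) (nat_lit 25) (.e (nat_lit 532535) (nat_lit 9) (.e (nat_lit 336058) (nat_lit 7) (.e (nat_lit 319519) (nat_lit 12) (.e (nat_lit 32779) (nat_lit 5) .nil)))))))) (.g (nat_lit 1) (.e (nat_lit 97721) (nat_lit 0) .nil) .nil))) 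
(.lf (nat_lit 475793) (.g (nat_lit 1930) (.e (nat_lit 1784) (nat_lit 119) (.e (nat_lit 516115) (nat_lit 1) (.e (nat_lit 164325) (nat_lit 230) (.e (nat_lit 163907) (nat_lit 12) .nil)))) (.g (nat_lit 0) (.e (nat_lit 99612) (nat_lit 0) .nil) .nil)))) (.nd (nat_lit 9) 
(.lf (nat_lit 475537) (.g (nat_lit 3478) (.e (nat_lit 1673) (nat_lit 116) (.e (nat_lit 401447) (nat_lit 10) (.e (nat_lit 434272) (nat_lit 38) (.e (nat_lit 655378) (nat_lit 4) (.e (nat_lit 172113) (nat_lit 10) (.e (nat_lit 434279) (nat_lit 39) (.e (nat_lit 663555) (nat_lit 0) .nil))))))) (.g (nat_lit 1) (.e (nat_lit 98877) (nat_lit 0) .nil) .nil))) 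
(.lf (nat_lit 476049) (.g (nat_lit 2763) (.e (nat_lit 1788) (nat_lit 119) (.e (nat_lit 516151) (nat_lit 9) (.e (nat_lit 426286) (nat_lit 10) (.e (nat_lit 434247) (nat_lit 28) (.e (nat_lit 573471) (nat_lit 11) (.e (nat_lit 16473) (nat_lit 14) (.e (nat_lit 491525) (nat_lit 0) .nil))))))) (.g (nat_lit 1) (.e (nat_lit 99958) (nat_lit 0) .nil) .nil)))))) 
(.nd (nat_lit 7) (.nd (nat_lit 8) (.nd (nat_lit 9) 
(.lf (nat_lit 475217) (.g (nat_lit 2229) (.e (nat_lit 1433) (nat_lit 108) (.e (nat_lit 336398) (nat_lit 27) (.e (nat_lit 426290) (nat_lit 10) (.e (nat_lit 434209) (nat_lit 18) (.e (nat_lit 5548) (nat_lit 306) (.e (nat_lit 2638) (nat_lit 165) (.e (nat_lit 188160) (nat_lit 32) .nil))))))) (.g (nat_lit 1) (.e (nat_lit 97576) (nat_lit 0) .nil) .nil))) 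
(.lf (nat_lit 475729) (.g (nat_lit 2409) (.e (nat_lit 1781) (nat_lit 119) (.e (nat_lit 516179) (nat_lit 15) (.e (nat_lit 475199) (nat_lit 40) (.e (nat_lit 704589) (nat_lit 3) (.e (nat_lit 163979) (nat_lit 30) (.e (nat_lit 573491) (nat_lit 15) (.e (nat_lit 81947) (nat_lit 20) .nil))))))) (.g (nat_lit 1) (.e (nat_lit 99484) (nat_lit 0) .nil) .nil)))) (.nd (nat_lit 9) 
(.lf (nat_lit 475473) (.g (nat_lit 2554) (.e (nat_lit 1661) (nat_lit 115) (.e (nat_lit 393274) (nat_lit 23) (.e (nat_lit 426097) (nat_lit 1) (.e (nat_lit 164348) (nat_lit 240) (.e (nat_lit 2640) (nat_lit 165) (.e (nat_lit 180277) (nat_lit 32) .nil)))))) (.g (nat_lit 1) (.e (nat_lit 98579) (nat_lit 0) .nil) .nil))) 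
(.lf (nat_lit 475985) (.g (nat_lit 4721) (.e (nat_lit 1788) (nat_lit 119) (.e (nat_lit 516139) (nat_lit 7) (.e (nat_lit 409648) (nat_lit 18) (.e (nat_lit 303118) (nat_lit 3) (.e (nat_lit 204866) (nat_lit 28) (.e (nat_lit 352302) (nat_lit 20) .nil)))))) (.g (nat_lit 1) (.e (nat_lit 99881) (nat_lit 0) .nil) .nil))))) (.nd (nat_lit 8) (.nd (nat_lit 9) 
(.lf (nat_lit 475345) (.g (nat_lit 2206) (.e (nat_lit 1587) (nat_lit 111) (.e (nat_lit 360474) (nat_lit 8) (.e (nat_lit 557094) (nat_lit 12) (.e (nat_lit 164022) (nat_lit 46) (.e (nat_lit 704629) (nat_lit 9) (.e (nat_lit 452) (nat_lit 33) (.e (nat_lit 434219) (nat_lit 19) (.e (nat_lit 499983) (nat_lit 14) .nil)))))))) (.g (nat_lit 1) (.e (nat_lit 98158) (nat_lit 0) .nil) .nil))) 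
(.lf (nat_lit 475857) (.g (nat_lit 1318) (.e (nat_lit 1790) (nat_lit 119) (.e (nat_lit 516120) (nat_lit 1) (.e (nat_lit 164329) (nat_lit 230) .nil))) (.g (nat_lit 0) (.e (nat_lit 99705) (nat_lit 0) .nil) .nil)))) (.nd (nat_lit 9) 
(.lf (nat_lit 475601) (.g (nat_lit 1162) (.e (nat_lit 1712) (nat_lit 117) (.e (nat_lit 499919) (nat_lit 9) (.e (nat_lit 172113) (nat_lit 10) (.e (nat_lit 434248) (nat_lit 28) .nil)))) (.g (nat_lit 0) (.e (nat_lit 99025) (nat_lit 0) .nil) .nil))) 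
(.lf (nat_lit 476113) (.g (nat_lit 1516) (.e (nat_lit 1788) (nat_lit 119) (.e (nat_lit 516182) (nat_lit 15) (.e (nat_lit 475199) (nat_lit 40) (.e (nat_lit 704589) (nat_lit 3) (.e (nat_lit 163976) (nat_lit 30) (.e (nat_lit 573491) (nat_lit 15) (.e (nat_lit 81928) (nat_lit 20) .nil))))))) (.g (nat_lit 1) (.e (nat_lit 100052) (nat_lit 0) .nil) .nil))))))) 
(.nd (nat_lit 6) (.nd (nat_lit 7) (.nd (nat_lit 8) (.nd (nat_lit 9) 
(.lf (nat_lit 475185) (.g (nat_lit 4148) (.e (nat_lit 1428) (nat_lit 108) (.e (nat_lit 336324) (nat_lit 18) (.e (nat_lit 204831) (nat_lit 18) (.e (nat_lit 57847) (nat_lit 252) .nil)))) (.g (nat_lit 0) (.e (nat_lit 97506) (nat_lit 0) .nil) .nil))) 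
(.lf (nat_lit 475697) (.g (nat_lit 2751) (.e (nat_lit 1781) (nat_lit 119) (.e (nat_lit 516139) (nat_lit 7) (.e (nat_lit 409645) (nat_lit 18) (.e (nat_lit 303117) (nat_lit 2) (.e (nat_lit 196674) (nat_lit 15) (.e (nat_lit 81946) (nat_lit 20) .nil)))))) (.g (nat_lit 1) (.e (nat_lit 99440) (nat_lit 0) .nil) .nil)))) (.nd (nat_lit 9) 
(.lf (nat_lit 475441) (.g (nat_lit 1135) (.e (nat_lit 1658) (nat_lit 115) (.e (nat_lit 393281) (nat_lit 23) (.e (nat_lit 426100) (nat_lit 1) (.e (nat_lit 164345) (nat_lit 240) .nil)))) (.g (nat_lit 0) (.e (nat_lit 98449) (nat_lit 0) .nil) .nil))) 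
(.lf (nat_lit 475953) (.g (nat_lit 3084) (.e (nat_lit 1788) (nat_lit 119) (.e (nat_lit 516139) (nat_lit 7) (.e (nat_lit 409648) (nat_lit 18) (.e (nat_lit 303116) (nat_lit 2) (.e (nat_lit 196666) (nat_lit 13) (.e (nat_lit 65596) (nat_lit 9) (.e (nat_lit 335920) (nat_lit 0) .nil))))))) (.g (nat_lit 1) (.e (nat_lit 99849) (nat_lit 0) .nil) .nil))))) (.nd (nat_lit 8) (.nd (nat_lit 9) 
(.lf (nat_lit 475313) (.g (nat_lit 2121) (.e (nat_lit 1562) (nat_lit 110) (.e (nat_lit 352277) (nat_lit 11) (.e (nat_lit 426343) (nat_lit 14) (.e (nat_lit 491558) (nat_lit 10) (.e (nat_lit 344177) (nat_lit 43) .nil))))) (.g (nat_lit 0) (.e (nat_lit 98067) (nat_lit 0) .nil) .nil))) 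
(.lf (nat_lit 475825) (.g (nat_lit 5895) (.e (nat_lit 1785) (nat_lit 119) (.e (nat_lit 516166) (nat_lit 12) (.e (nat_lit 450588) (nat_lit 10) (.e (nat_lit 573475) (nat_lit 12) (.e (nat_lit 57348) (nat_lit 0) .nil))))) (.g (nat_lit 0) (.e (nat_lit 99668) (nat_lit 0) .nil) .nil)))) (.nd (nat_lit 9) 
(.lf (nat_lit 475569) (.g (nat_lit 2067) (.e (nat_lit 1673) (nat_lit 116) (.e (nat_lit 401448) (nat_lit 10) (.e (nat_lit 434272) (nat_lit 38) (.e (nat_lit 655364) (nat_lit 0) (.e (nat_lit 3015) (nat_lit 187) .nil))))) (.g (nat_lit 0) (.e (nat_lit 98915) (nat_lit 0) .nil) .nil))) 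
(.lf (nat_lit 476081) (.g (nat_lit 4449) (.e (nat_lit 1788) (nat_lit 119) (.e (nat_lit 516166) (nat_lit 12) (.e (nat_lit 450588) (nat_lit 10) (.e (nat_lit 573451) (nat_lit 9) (.e (nat_lit 430) (nat_lit 32) .nil))))) (.g (nat_lit 0) (.e (nat_lit 100005) (nat_lit 0) .nil) .nil)))))) (.nd (nat_lit 7) (.nd (nat_lit 8) (.nd (nat_lit 9) 
(.lf (nat_lit 475249) (.g (nat_lit 4936) (.e (nat_lit 1454) (nat_lit 108) (.e (nat_lit 336013) (nat_lit 2) (.e (nat_lit 90170) (nat_lit 13) (.e (nat_lit 172113) (nat_lit 10) (.e (nat_lit 434248) (nat_lit 28) (.e (nat_lit 573473) (nat_lit 12) (.e (nat_lit 57569) (nat_lit 53) (.e (nat_lit 761866) (nat_lit 5) .nil)))))))) (.g (nat_lit 1) (.e (nat_lit 97643) (nat_lit 0) .nil) .nil))) 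
(.lf (nat_lit 475761) (.g (nat_lit 2322) (.e (nat_lit 1783) (nat_lit 119) (.e (nat_lit 516179) (nat_lit 15) (.e (nat_lit 475177) (nat_lit 24) (.e (nat_lit 516146) (nat_lit 9) (.e (nat_lit 426438) (nat_lit 18) .nil))))) (.g (nat_lit 0) (.e (nat_lit 99541) (nat_lit 0) .nil) .nil)))) (.nd (nat_lit 9) 
(.lf (nat_lit 475505) (.g (nat_lit 1595) (.e (nat_lit 1669) (nat_lit 116) (.e (nat_lit 401459) (nat_lit 13) (.e (nat_lit 483344) (nat_lit 17) (.e (nat_lit 2367) (nat_lit 153) .nil)))) (.g (nat_lit 0) (.e (nat_lit 98794) (nat_lit 0) .nil) .nil))) 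
(.lf (nat_lit 476017) (.g (nat_lit 2803) (.e (nat_lit 1788) (nat_lit 119) (.e (nat_lit 516139) (nat_lit 7) (.e (nat_lit 409649) (nat_lit 18) (.e (nat_lit 303118) (nat_lit 3) (.e (nat_lit 204855) (nat_lit 26) (.e (nat_lit 336099) (nat_lit 9) (.e (nat_lit 335922) (nat_lit 0) .nil))))))) (.g (nat_lit 1) (.e (nat_lit 99918) (nat_lit 0) .nil) .nil))))) (.nd (nat_lit 8) (.nd (nat_lit 9) 
(.lf (nat_lit 475377) (.g (nat_lit 3573) (.e (nat_lit 1633) (nat_lit 114) (.e (nat_lit 385064) (nat_lit 26) (.e (nat_lit 532535) (nat_lit 9) (.e (nat_lit 336099) (nat_lit 9) (.e (nat_lit 336457) (nat_lit 35) (.e (nat_lit 491525) (nat_lit 0) (.e (nat_lit 2270) (nat_lit 149) (.e (nat_lit 761867) (nat_lit 5) .nil)))))))) (.g (nat_lit 1) (.e (nat_lit 98252) (nat_lit 0) .nil) .nil))) 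
(.lf (nat_lit 475889) (.g (nat_lit 2936) (.e (nat_lit 1788) (nat_lit 119) (.e (nat_lit 516117) (nat_lit 1) (.e (nat_lit 164329) (nat_lit 230) (.e (nat_lit 163941) (nat_lit 19) (.e (nat_lit 483341) (nat_lit 9) .nil))))) (.g (nat_lit 0) (.e (nat_lit 99763) (nat_lit 0) .nil) .nil)))) (.nd (nat_lit 9) 
(.lf (nat_lit 475633) (.g (nat_lit 1269) (.e (nat_lit 7936) (nat_lit 121) (.e (nat_lit 532544) (nat_lit 10) (.e (nat_lit 344133) (nat_lit 26) (.e (nat_lit 557103) (nat_lit 14) .nil)))) (.g (nat_lit 0) (.e (nat_lit 99297) (nat_lit 0) .nil) .nil))) 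
(.lf (nat_lit 476145) (.g (nat_lit 557) (.e (nat_lit 1792) (nat_lit 119) (.e (nat_lit 516116) (nat_lit 1) (.e (nat_lit 164329) (nat_lit 230) .nil))) (.g (nat_lit 0) (.e (nat_lit 100103) (nat_lit 0) .nil) .nil))))))))) (.nd (nat_lit 4) (.nd (nat_lit 5) (.nd (nat_lit 6) (.nd (nat_lit 7) (.nd (nat_lit 8) (.nd (nat_lit 9) 
(.lf (nat_lit 475145) (.g (nat_lit 3292) (.e (nat_lit 1426) (nat_lit 108) (.e (nat_lit 336430) (nat_lit 29) (.e (nat_lit 442419) (nat_lit 21) (.e (nat_lit 164348) (nat_lit 240) (.e (nat_lit 2638) (nat_lit 165) (.e (nat_lit 180277) (nat_lit 32) .nil)))))) (.g (nat_lit 1) (.e (nat_lit 97330) (nat_lit 0) .nil) .nil))) 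
(.lf (nat_lit 475657) (.g (nat_lit 6349) (.e (nat_lit 1778) (nat_lit 119) (.e (nat_lit 516166) (nat_lit 12) (.e (nat_lit 450588) (nat_lit 10) (.e (nat_lit 573478) (nat_lit 12) .nil)))) (.g (nat_lit 0) (.e (nat_lit 99387) (nat_lit 0) .nil) .nil)))) (.nd (nat_lit 9) 
(.lf (nat_lit 475401) (.g (nat_lit 1998) (.e (nat_lit 1638) (nat_lit 114) (.e (nat_lit 385067) (nat_lit 26) (.e (nat_lit 532560) (nat_lit 14) (.e (nat_lit 376842) (nat_lit 11) (.e (nat_lit 426098) (nat_lit 1) .nil))))) (.g (nat_lit 0) (.e (nat_lit 98309) (nat_lit 0) .nil) .nil))) 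
(.lf (nat_lit 475913) (.g (nat_lit 3842) (.e (nat_lit 1788) (nat_lit 119) (.e (nat_lit 516138) (nat_lit 7) (.e (nat_lit 409646) (nat_lit 18) (.e (nat_lit 303117) (nat_lit 2) (.e (nat_lit 196674) (nat_lit 15) (.e (nat_lit 81946) (nat_lit 20) .nil)))))) (.g (nat_lit 1) (.e (nat_lit 99803) (nat_lit 0) .nil) .nil))))) (.nd (nat_lit 8) (.nd (nat_lit 9) 
(.lf (nat_lit 475273) (.g (nat_lit 1458) (.e (nat_lit 1471) (nat_lit 108) (.e (nat_lit 336442) (nat_lit 32) (.e (nat_lit 466969) (nat_lit 21) (.e (nat_lit 164348) (nat_lit 240) (.e (nat_lit 2640) (nat_lit 165) (.e (nat_lit 188160) (nat_lit 32) .nil)))))) (.g (nat_lit 1) (.e (nat_lit 97712) (nat_lit 0) .nil) .nil))) 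
(.lf (nat_lit 475785) (.g (nat_lit 4539) (.e (nat_lit 1786) (nat_lit 119) (.e (nat_lit 516166) (nat_lit 12) (.e (nat_lit 450588) (nat_lit 10) (.e (nat_lit 573469) (nat_lit 11) .nil)))) (.g (nat_lit 0) (.e (nat_lit 99604) (nat_lit 0) .nil) .nil)))) (.nd (nat_lit 9) 
(.lf (nat_lit 475529) (.g (nat_lit 856) (.e (nat_lit 1673) (nat_lit 116) (.e (nat_lit 401447) (nat_lit 10) (.e (nat_lit 434238) (nat_lit 25) (.e (nat_lit 548898) (nat_lit 14) .nil)))) (.g (nat_lit 0) (.e (nat_lit 98869) (nat_lit 0) .nil) .nil))) 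
(.lf (nat_lit 476041) (.g (nat_lit 5079) (.e (nat_lit 1788) (nat_lit 119) (.e (nat_lit 516151) (nat_lit 9) (.e (nat_lit 426286) (nat_lit 10) (.e (nat_lit 434245) (nat_lit 28) (.e (nat_lit 573471) (nat_lit 11) (.e (nat_lit 16469) (nat_lit 14) (.e (nat_lit 491526) (nat_lit 0) .nil))))))) (.g (nat_lit 1) (.e (nat_lit 99950) (nat_lit 0) .nil) .nil)))))) 
(.nd (nat_lit 7) (.nd (nat_lit 8) (.nd (nat_lit 9) 
(.lf (nat_lit 475209) (.g (nat_lit 1528) (.e (nat_lit 1432) (nat_lit 108) (.e (nat_lit 336019) (nat_lit 3) (.e (nat_lit 98372) (nat_lit 29) (.e (nat_lit 450586) (nat_lit 10) .nil)))) (.g (nat_lit 0) (.e (nat_lit 97549) (nat_lit 0) .nil) .nil))) 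
(.lf (nat_lit 475721) (.g (nat_lit 1281) (.e (nat_lit 1781) (nat_lit 119) (.e (nat_lit 516176) (nat_lit 14) (.e (nat_lit 466981) (nat_lit 23) (.e (nat_lit 204845) (nat_lit 24) .nil)))) (.g (nat_lit 0) (.e (nat_lit 99472) (nat_lit 0) .nil) .nil)))) (.nd (nat_lit 9) 
(.lf (nat_lit 475465) (.g (nat_lit 2267) (.e (nat_lit 1660) (nat_lit 115) (.e (nat_lit 393282) (nat_lit 24) (.e (nat_lit 434209) (nat_lit 18) (.e (nat_lit 5548) (nat_lit 306) (.e (nat_lit 2639) (nat_lit 165) (.e (nat_lit 180277) (nat_lit 32) .nil)))))) (.g (nat_lit 1) (.e (nat_lit 98530) (nat_lit 0) .nil) .nil))) 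
(.lf (nat_lit 475977) (.g (nat_lit 2813) (.e (nat_lit 1788) (nat_lit 119) (.e (nat_lit 516139) (nat_lit 7) (.e (nat_lit 409648) (nat_lit 18) (.e (nat_lit 303118) (nat_lit 3) (.e (nat_lit 204855) (nat_lit 26) (.e (nat_lit 336102) (nat_lit 9) (.e (nat_lit 335886) (nat_lit 0) .nil))))))) (.g (nat_lit 1) (.e (nat_lit 99873) (nat_lit 0) .nil) .nil))))) (.nd (nat_lit 8) (.nd (nat_lit 9) 
(.lf (nat_lit 475337) (.g (nat_lit 3078) (.e (nat_lit 1587) (nat_lit 111) (.e (nat_lit 360474) (nat_lit 8) (.e (nat_lit 557093) (nat_lit 12) (.e (nat_lit 164022) (nat_lit 46) (.e (nat_lit 704629) (nat_lit 9) (.e (nat_lit 452) (nat_lit 33) (.e (nat_lit 434219) (nat_lit 19) (.e (nat_lit 499952) (nat_lit 14) .nil)))))))) (.g (nat_lit 1) (.e (nat_lit 98150) (nat_lit 0) .nil) .nil))) 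
(.lf (nat_lit 475849) (.g (nat_lit 2608) (.e (nat_lit 1790) (nat_lit 119) (.e (nat_lit 516115) (nat_lit 1) (.e (nat_lit 164399) (nat_lit 256) (.e (nat_lit 57377) (nat_lit 3) (.e (nat_lit 98357) (nat_lit 26) .nil))))) (.g (nat_lit 0) (.e (nat_lit 99697) (nat_lit 0) .nil) .nil)))) (.nd (nat_lit 9) 
(.lf (nat_lit 475593) (.g (nat_lit 1203) (.e (nat_lit 1677) (nat_lit 116) (.e (nat_lit 401454) (nat_lit 12) (.e (nat_lit 475184) (nat_lit 29) .nil))) (.g (nat_lit 0) (.e (nat_lit 98991) (nat_lit 0) .nil) .nil))) 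
(.lf (nat_lit 476105) (.g (nat_lit 2787) (.e (nat_lit 1788) (nat_lit 119) (.e (nat_lit 516179) (nat_lit 15) (.e (nat_lit 475199) (nat_lit 40) (.e (nat_lit 704589) (nat_lit 3) (.e (nat_lit 163976) (nat_lit 30) (.e (nat_lit 573491) (nat_lit 15) (.e (nat_lit 81941) (nat_lit 20) .nil))))))) (.g (nat_lit 1) (.e (nat_lit 100034) (nat_lit 0) .nil) .nil))))))) 
(.nd (nat_lit 6) (.nd (nat_lit 7) (.nd (nat_lit 8) (.nd (nat_lit 9) 
(.lf (nat_lit 475177) (.g (nat_lit 2178) (.e (nat_lit 1427) (nat_lit 108) (.e (nat_lit 336430) (nat_lit 29) (.e (nat_lit 442377) (nat_lit 0) (.e (nat_lit 2058) (nat_lit 142) (.e (nat_lit 704595) (nat_lit 5) (.e (nat_lit 180277) (nat_lit 32) .nil)))))) (.g (nat_lit 1) (.e (nat_lit 97477) (nat_lit 0) .nil) .nil))) 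
(.lf (nat_lit 475689) (.g (nat_lit 1428) (.e (nat_lit 1781) (nat_lit 119) (.e (nat_lit 516120) (nat_lit 1) (.e (nat_lit 164329) (nat_lit 230) (.e (nat_lit 163941) (nat_lit 19) (.e (nat_lit 491264) (nat_lit 11) (.e (nat_lit 442378) (nat_lit 0) .nil)))))) (.g (nat_lit 1) (.e (nat_lit 99430) (nat_lit 0) .nil) .nil)))) (.nd (nat_lit 9) 
(.lf (nat_lit 475433) (.g (nat_lit 2100) (.e (nat_lit 1648) (nat_lit 115) (.e (nat_lit 393271) (nat_lit 23) (.e (nat_lit 426112) (nat_lit 1) (.e (nat_lit 164348) (nat_lit 240) (.e (nat_lit 2640) (nat_lit 165) (.e (nat_lit 188160) (nat_lit 32) .nil)))))) (.g (nat_lit 1) (.e (nat_lit 98433) (nat_lit 0) .nil) .nil))) 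
(.lf (nat_lit 475945) (.g (nat_lit 1540) (.e (nat_lit 1788) (nat_lit 119) (.e (nat_lit 516139) (nat_lit 7) (.e (nat_lit 409647) (nat_lit 18) (.e (nat_lit 303119) (nat_lit 3) .nil)))) (.g (nat_lit 0) (.e (nat_lit 99841) (nat_lit 0) .nil) .nil))))) (.nd (nat_lit 8) (.nd (nat_lit 9) 
(.lf (nat_lit 475305) (.g (nat_lit 593) (.e (nat_lit 1524) (nat_lit 108) (.e (nat_lit 335988) (nat_lit 1) (.e (nat_lit 57931) (nat_lit 282) .nil))) (.g (nat_lit 0) (.e (nat_lit 97966) (nat_lit 0) .nil) .nil))) 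
(.lf (nat_lit 475817) (.g (nat_lit 552) (.e (nat_lit 1784) (nat_lit 119) (.e (nat_lit 516179) (nat_lit 15) (.e (nat_lit 475179) (nat_lit 24) .nil))) (.g (nat_lit 0) (.e (nat_lit 99656) (nat_lit 0) .nil) .nil)))) (.nd (nat_lit 9) 
(.lf (nat_lit 475561) (.g (nat_lit 841) (.e (nat_lit 1673) (nat_lit 116) (.e (nat_lit 401448) (nat_lit 10) (.e (nat_lit 434245) (nat_lit 28) .nil))) (.g (nat_lit 0) (.e (nat_lit 98906) (nat_lit 0) .nil) .nil))) 
(.lf (nat_lit 476073) (.g (nat_lit 1272) (.e (nat_lit 1788) (nat_lit 119) (.e (nat_lit 516166) (nat_lit 12) (.e (nat_lit 450587) (nat_lit 10) (.e (nat_lit 573469) (nat_lit 11) .nil)))) (.g (nat_lit 0) (.e (nat_lit 99997) (nat_lit 0) .nil) .nil)))))) (.nd (nat_lit 7) (.nd (nat_lit 8) (.nd (nat_lit 9) 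
(.lf (nat_lit 475241) (.g (nat_lit 5040) (.e (nat_lit 1454) (nat_lit 108) (.e (nat_lit 336013) (nat_lit 2) (.e (nat_lit 90170) (nat_lit 13) (.e (nat_lit 172106) (nat_lit 10) (.e (nat_lit 434244) (nat_lit 28) (.e (nat_lit 573474) (nat_lit 12) (.e (nat_lit 57569) (nat_lit 53) (.e (nat_lit 761866) (nat_lit 5) .nil)))))))) (.g (nat_lit 1) (.e (nat_lit 97635) (nat_lit 0) .nil) .nil))) 
(.lf (nat_lit 475753) (.g (nat_lit 1956) (.e (nat_lit 1783) (nat_lit 119) (.e (nat_lit 516117) (nat_lit 1) (.e (nat_lit 164329) (nat_lit 230) (.e (nat_lit 163941) (nat_lit 19) .nil)))) (.g (nat_lit 0) (.e (nat_lit 99531) (nat_lit 0) .nil) .nil)))) (.nd (nat_lit 9) 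
(.lf (nat_lit 475497) (.g (nat_lit 3239) (.e (nat_lit 1669) (nat_lit 116) (.e (nat_lit 401456) (nat_lit 13) (.e (nat_lit 483363) (nat_lit 18) (.e (nat_lit 57688) (nat_lit 156) (.e (nat_lit 163917) (nat_lit 13) .nil))))) (.g (nat_lit 0) (.e (nat_lit 98786) (nat_lit 0) .nil) .nil))) 
(.lf (nat_lit 476009) (.g (nat_lit 2653) (.e (nat_lit 1788) (nat_lit 119) (.e (nat_lit 516139) (nat_lit 7) (.e (nat_lit 409649) (nat_lit 18) (.e (nat_lit 303117) (nat_lit 2) (.e (nat_lit 196666) (nat_lit 13) (.e (nat_lit 65599) (nat_lit 9) (.e (nat_lit 335920) (nat_lit 0) .nil))))))) (.g (nat_lit 1) (.e (nat_lit 99910) (nat_lit 0) .nil) .nil))))) (.nd (nat_lit 8) (.nd (nat_lit 9) 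
(.lf (nat_lit 475369) (.g (nat_lit 1174) (.e (nat_lit 1597) (nat_lit 111) (.e (nat_lit 360493) (nat_lit 27) (.e (nat_lit 819204) (nat_lit 0) (.e (nat_lit 3016) (nat_lit 187) (.e (nat_lit 458496) (nat_lit 8) (.e (nat_lit 557060) (nat_lit 0) .nil)))))) (.g (nat_lit 1) (.e (nat_lit 98191) (nat_lit 0) .nil) .nil))) 
(.lf (nat_lit 475881) (.g (nat_lit 3631) (.e (nat_lit 1788) (nat_lit 119) (.e (nat_lit 516116) (nat_lit 1) (.e (nat_lit 164329) (nat_lit 230) (.e (nat_lit 163941) (nat_lit 19) (.e (nat_lit 483341) (nat_lit 9) (.e (nat_lit 426199) (nat_lit 9) (.e (nat_lit 426399) (nat_lit 15) .nil))))))) (.g (nat_lit 1) (.e (nat_lit 99749) (nat_lit 0) .nil) .nil)))) (.nd (nat_lit 9) 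
(.lf (nat_lit 475625) (.g (nat_lit 1520) (.e (nat_lit 7936) (nat_lit 121) (.e (nat_lit 532544) (nat_lit 10) (.e (nat_lit 344133) (nat_lit 26) (.e (nat_lit 557096) (nat_lit 13) .nil)))) (.g (nat_lit 0) (.e (nat_lit 99289) (nat_lit 0) .nil) .nil))) 
(.lf (nat_lit 476137) (.g (nat_lit 4712) (.e (nat_lit 1791) (nat_lit 119) (.e (nat_lit 516166) (nat_lit 12) (.e (nat_lit 450587) (nat_lit 10) (.e (nat_lit 573478) (nat_lit 12) (.e (nat_lit 57574) (nat_lit 55) .nil))))) (.g (nat_lit 0) (.e (nat_lit 100091) (nat_lit 0) .nil) .nil)))))))) (.nd (nat_lit 5) (.nd (nat_lit 6) (.nd (nat_lit 7) (.nd (nat_lit 8) (.nd (nat_lit 9) 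
(.lf (nat_lit 475161) (.g (nat_lit 2583) (.e (nat_lit 1426) (nat_lit 108) (.e (nat_lit 336430) (nat_lit 29) (.e (nat_lit 442428) (nat_lit 24) (.e (nat_lit 229665) (nat_lit 240) (.e (nat_lit 2641) (nat_lit 165) (.e (nat_lit 180278) (nat_lit 32) .nil)))))) (.g (nat_lit 1) (.e (nat_lit 97346) (nat_lit 0) .nil) .nil))) 
(.lf (nat_lit 475673) (.g (nat_lit 2159) (.e (nat_lit 1781) (nat_lit 119) (.e (nat_lit 516119) (nat_lit 1) (.e (nat_lit 164403) (nat_lit 256) (.e (nat_lit 57370) (nat_lit 2) (.e (nat_lit 90174) (nat_lit 14) .nil))))) (.g (nat_lit 0) (.e (nat_lit 99413) (nat_lit 0) .nil) .nil)))) (.nd (nat_lit 9) 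
(.lf (nat_lit 475417) (.g (nat_lit 3259) (.e (nat_lit 1642) (nat_lit 114) (.e (nat_lit 385074) (nat_lit 31) (.e (nat_lit 573482) (nat_lit 13) (.e (nat_lit 65619) (nat_lit 10) (.e (nat_lit 344115) (nat_lit 20) .nil))))) (.g (nat_lit 0) (.e (nat_lit 98392) (nat_lit 0) .nil) .nil))) 
(.lf (nat_lit 475929) (.g (nat_lit 1851) (.e (nat_lit 1788) (nat_lit 119) (.e (nat_lit 516139) (nat_lit 7) (.e (nat_lit 409645) (nat_lit 18) (.e (nat_lit 303118) (nat_lit 3) .nil)))) (.g (nat_lit 0) (.e (nat_lit 99825) (nat_lit 0) .nil) .nil))))) (.nd (nat_lit 8) (.nd (nat_lit 9) 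
(.lf (nat_lit 475289) (.g (nat_lit 2275) (.e (nat_lit 1512) (nat_lit 108) (.e (nat_lit 336051) (nat_lit 6) (.e (nat_lit 147496) (nat_lit 11) (.e (nat_lit 24628) (nat_lit 9) (.e (nat_lit 343808) (nat_lit 28) .nil))))) (.g (nat_lit 0) (.e (nat_lit 97734) (nat_lit 0) .nil) .nil))) 
(.lf (nat_lit 475801) (.g (nat_lit 1788) (.e (nat_lit 1784) (nat_lit 119) (.e (nat_lit 516120) (nat_lit 1) (.e (nat_lit 164329) (nat_lit 230) (.e (nat_lit 163941) (nat_lit 19) .nil)))) (.g (nat_lit 0) (.e (nat_lit 99633) (nat_lit 0) .nil) .nil)))) (.nd (nat_lit 9) 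
(.lf (nat_lit 475545) (.g (nat_lit 2406) (.e (nat_lit 1673) (nat_lit 116) (.e (nat_lit 401448) (nat_lit 10) (.e (nat_lit 434238) (nat_lit 25) (.e (nat_lit 548898) (nat_lit 14) (.e (nat_lit 3016) (nat_lit 187) .nil))))) (.g (nat_lit 0) (.e (nat_lit 98887) (nat_lit 0) .nil) .nil))) 
(.lf (nat_lit 476057) (.g (nat_lit 1594) (.e (nat_lit 1788) (nat_lit 119) (.e (nat_lit 516151) (nat_lit 9) (.e (nat_lit 426286) (nat_lit 10) (.e (nat_lit 434248) (nat_lit 28) (.e (nat_lit 573471) (nat_lit 11) .nil))))) (.g (nat_lit 0) (.e (nat_lit 99966) (nat_lit 0) .nil) .nil)))))) (.nd (nat_lit 7) (.nd (nat_lit 8) (.nd (nat_lit 9) 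
(.lf (nat_lit 475225) (.g (nat_lit 2119) (.e (nat_lit 1433) (nat_lit 108) (.e (nat_lit 336432) (nat_lit 30) (.e (nat_lit 450565) (nat_lit 0) (.e (nat_lit 5548) (nat_lit 306) (.e (nat_lit 2638) (nat_lit 165) (.e (nat_lit 188160) (nat_lit 32) .nil)))))) (.g (nat_lit 1) (.e (nat_lit 97585) (nat_lit 0) .nil) .nil))) 
(.lf (nat_lit 475737) (.g (nat_lit 2400) (.e (nat_lit 1782) (nat_lit 119) (.e (nat_lit 516119) (nat_lit 1) (.e (nat_lit 164403) (nat_lit 256) (.e (nat_lit 57371) (nat_lit 2) (.e (nat_lit 90172) (nat_lit 14) .nil))))) (.g (nat_lit 0) (.e (nat_lit 99506) (nat_lit 0) .nil) .nil)))) (.nd (nat_lit 9) 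
(.lf (nat_lit 475481) (.g (nat_lit 3292) (.e (nat_lit 1668) (nat_lit 116) (.e (nat_lit 401451) (nat_lit 12) (.e (nat_lit 475185) (nat_lit 29) (.e (nat_lit 557101) (nat_lit 13) .nil)))) (.g (nat_lit 0) (.e (nat_lit 98633) (nat_lit 0) .nil) .nil))) 
(.lf (nat_lit 475993) (.g (nat_lit 2769) (.e (nat_lit 1788) (nat_lit 119) (.e (nat_lit 516139) (nat_lit 7) (.e (nat_lit 409649) (nat_lit 18) (.e (nat_lit 303116) (nat_lit 2) (.e (nat_lit 196666) (nat_lit 13) (.e (nat_lit 65599) (nat_lit 9) (.e (nat_lit 335886) (nat_lit 0) .nil))))))) (.g (nat_lit 1) (.e (nat_lit 99894) (nat_lit 0) .nil) .nil))))) (.nd (nat_lit 8) (.nd (nat_lit 9) 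
(.lf (nat_lit 475353) (.g (nat_lit 3589) (.e (nat_lit 1587) (nat_lit 111) (.e (nat_lit 360475) (nat_lit 8) (.e (nat_lit 557091) (nat_lit 12) (.e (nat_lit 164022) (nat_lit 46) (.e (nat_lit 704629) (nat_lit 9) (.e (nat_lit 452) (nat_lit 33) (.e (nat_lit 434219) (nat_lit 19) (.e (nat_lit 499977) (nat_lit 14) .nil)))))))) (.g (nat_lit 1) (.e (nat_lit 98166) (nat_lit 0) .nil) .nil))) 
(.lf (nat_lit 475865) (.g (nat_lit 559) (.e (nat_lit 1788) (nat_lit 119) (.e (nat_lit 516106) (nat_lit 0) (.e (nat_lit 7936) (nat_lit 377) .nil))) (.g (nat_lit 0) (.e (nat_lit 99723) (nat_lit 0) .nil) .nil)))) (.nd (nat_lit 9) 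
(.lf (nat_lit 475609) (.g (nat_lit 2186) (.e (nat_lit 7936) (nat_lit 121) (.e (nat_lit 532529) (nat_lit 9) (.e (nat_lit 336326) (nat_lit 18) (.e (nat_lit 204863) (nat_lit 27) (.e (nat_lit 344130) (nat_lit 26) .nil))))) (.g (nat_lit 0) (.e (nat_lit 99243) (nat_lit 0) .nil) .nil))) 
(.lf (nat_lit 476121) (.g (nat_lit 2594) (.e (nat_lit 1789) (nat_lit 119) (.e (nat_lit 516120) (nat_lit 1) (.e (nat_lit 164329) (nat_lit 230) (.e (nat_lit 163941) (nat_lit 19) (.e (nat_lit 483341) (nat_lit 9) .nil))))) (.g (nat_lit 0) (.e (nat_lit 100067) (nat_lit 0) .nil) .nil))))))) (.nd (nat_lit 6) (.nd (nat_lit 7) (.nd (nat_lit 8) (.nd (nat_lit 9) 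
(.lf (nat_lit 475193) (.g (nat_lit 1109) (.e (nat_lit 1428) (nat_lit 108) (.e (nat_lit 336421) (nat_lit 28) (.e (nat_lit 434187) (nat_lit 13) (.e (nat_lit 2777) (nat_lit 178) (.e (nat_lit 286770) (nat_lit 28) (.e (nat_lit 442112) (nat_lit 0) .nil)))))) (.g (nat_lit 1) (.e (nat_lit 97518) (nat_lit 0) .nil) .nil))) 
(.lf (nat_lit 475705) (.g (nat_lit 2712) (.e (nat_lit 1781) (nat_lit 119) (.e (nat_lit 516151) (nat_lit 9) (.e (nat_lit 426211) (nat_lit 9) (.e (nat_lit 426132) (nat_lit 3) .nil)))) (.g (nat_lit 0) (.e (nat_lit 99454) (nat_lit 0) .nil) .nil)))) (.nd (nat_lit 9) 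
(.lf (nat_lit 475449) (.g (nat_lit 1256) (.e (nat_lit 1659) (nat_lit 115) (.e (nat_lit 393271) (nat_lit 23) (.e (nat_lit 426112) (nat_lit 1) (.e (nat_lit 164345) (nat_lit 240) .nil)))) (.g (nat_lit 0) (.e (nat_lit 98468) (nat_lit 0) .nil) .nil))) 
(.lf (nat_lit 475961) (.g (nat_lit 4861) (.e (nat_lit 1788) (nat_lit 119) (.e (nat_lit 516139) (nat_lit 7) (.e (nat_lit 409648) (nat_lit 18) (.e (nat_lit 303117) (nat_lit 2) (.e (nat_lit 196666) (nat_lit 13) (.e (nat_lit 65592) (nat_lit 9) (.e (nat_lit 335923) (nat_lit 0) .nil))))))) (.g (nat_lit 1) (.e (nat_lit 99857) (nat_lit 0) .nil) .nil))))) (.nd (nat_lit 8) (.nd (nat_lit 9) 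
(.lf (nat_lit 475321) (.g (nat_lit 1242) (.e (nat_lit 1582) (nat_lit 111) (.e (nat_lit 360451) (nat_lit 0) (.e (nat_lit 7607) (nat_lit 410) (.e (nat_lit 2651) (nat_lit 166) (.e (nat_lit 188431) (nat_lit 20) (.e (nat_lit 3282) (nat_lit 200) (.e (nat_lit 557060) (nat_lit 0) .nil))))))) (.g (nat_lit 1) (.e (nat_lit 98104) (nat_lit 0) .nil) .nil))) 
(.lf (nat_lit 475833) (.g (nat_lit 1428) (.e (nat_lit 1787) (nat_lit 119) (.e (nat_lit 516117) (nat_lit 1) (.e (nat_lit 164329) (nat_lit 230) .nil))) (.g (nat_lit 0) (.e (nat_lit 99677) (nat_lit 0) .nil) .nil)))) (.nd (nat_lit 9) 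
(.lf (nat_lit 475577) (.g (nat_lit 4205) (.e (nat_lit 1674) (nat_lit 116) (.e (nat_lit 401451) (nat_lit 12) (.e (nat_lit 475185) (nat_lit 29) (.e (nat_lit 557109) (nat_lit 15) .nil)))) (.g (nat_lit 0) (.e (nat_lit 98927) (nat_lit 0) .nil) .nil))) 
(.lf (nat_lit 476089) (.g (nat_lit 3106) (.e (nat_lit 1788) (nat_lit 119) (.e (nat_lit 516166) (nat_lit 12) (.e (nat_lit 450588) (nat_lit 10) (.e (nat_lit 573473) (nat_lit 12) (.e (nat_lit 57352) (nat_lit 0) .nil))))) (.g (nat_lit 0) (.e (nat_lit 100013) (nat_lit 0) .nil) .nil)))))) (.nd (nat_lit 7) (.nd (nat_lit 8) (.nd (nat_lit 9) 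
(.lf (nat_lit 475257) (.g (nat_lit 3867) (.e (nat_lit 1454) (nat_lit 108) (.e (nat_lit 336176) (nat_lit 10) (.e (nat_lit 344161) (nat_lit 37) (.e (nat_lit 647170) (nat_lit 0) (.e (nat_lit 3098) (nat_lit 192) (.e (nat_lit 491566) (nat_lit 12) (.e (nat_lit 385092) (nat_lit 49) (.e (nat_lit 778251) (nat_lit 0) .nil)))))))) (.g (nat_lit 1) (.e (nat_lit 97651) (nat_lit 0) .nil) .nil))) 
(.lf (nat_lit 475769) (.g (nat_lit 1802) (.e (nat_lit 1786) (nat_lit 119) (.e (nat_lit 516119) (nat_lit 1) (.e (nat_lit 164326) (nat_lit 230) (.e (nat_lit 163903) (nat_lit 12) (.e (nat_lit 426479) (nat_lit 27) .nil))))) (.g (nat_lit 0) (.e (nat_lit 99573) (nat_lit 0) .nil) .nil)))) (.nd (nat_lit 9) 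
(.lf (nat_lit 475513) (.g (nat_lit 4231) (.e (nat_lit 1671) (nat_lit 116) (.e (nat_lit 401451) (nat_lit 12) (.e (nat_lit 475185) (nat_lit 29) (.e (nat_lit 557107) (nat_lit 15) .nil)))) (.g (nat_lit 0) (.e (nat_lit 98827) (nat_lit 0) .nil) .nil))) 
(.lf (nat_lit 476025) (.g (nat_lit 4147) (.e (nat_lit 1788) (nat_lit 119) (.e (nat_lit 516139) (nat_lit 7) (.e (nat_lit 409649) (nat_lit 18) (.e (nat_lit 303118) (nat_lit 3) (.e (nat_lit 204866) (nat_lit 28) (.e (nat_lit 352295) (nat_lit 20) .nil)))))) (.g (nat_lit 1) (.e (nat_lit 99926) (nat_lit 0) .nil) .nil))))) (.nd (nat_lit 8) (.nd (nat_lit 9) 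
(.lf (nat_lit 475385) (.g (nat_lit 2431) (.e (nat_lit 1633) (nat_lit 114) (.e (nat_lit 385107) (nat_lit 51) (.e (nat_lit 794677) (nat_lit 24) (.e (nat_lit 213030) (nat_lit 11) (.e (nat_lit 24617) (nat_lit 7) (.e (nat_lit 319511) (nat_lit 10) (.e (nat_lit 5293) (nat_lit 298) .nil))))))) (.g (nat_lit 1) (.e (nat_lit 98269) (nat_lit 0) .nil) .nil))) 
(.lf (nat_lit 475897) (.g (nat_lit 3237) (.e (nat_lit 1788) (nat_lit 119) (.e (nat_lit 516138) (nat_lit 7) (.e (nat_lit 409645) (nat_lit 18) (.e (nat_lit 303112) (nat_lit 0) (.e (nat_lit 3252) (nat_lit 197) .nil))))) (.g (nat_lit 0) (.e (nat_lit 99784) (nat_lit 0) .nil) .nil)))) (.nd (nat_lit 9) 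
(.lf (nat_lit 475641) (.g (nat_lit 1468) (.e (nat_lit 7936) (nat_lit 121) (.e (nat_lit 532563) (nat_lit 15) (.e (nat_lit 385066) (nat_lit 26) (.e (nat_lit 532543) (nat_lit 10) .nil)))) (.g (nat_lit 0) (.e (nat_lit 99335) (nat_lit 0) .nil) .nil))) 
(.lf (nat_lit 476153) (.g (nat_lit 579) (.e (nat_lit 1792) (nat_lit 119) (.e (nat_lit 516139) (nat_lit 7) (.e (nat_lit 409646) (nat_lit 18) .nil))) (.g (nat_lit 0) (.e (nat_lit 100114) (nat_lit 0) .nil) .nil)))))))))) (.nd (nat_lit 3) (.nd (nat_lit 4) (.nd (nat_lit 5) (.nd (nat_lit 6) (.nd (nat_lit 7) (.nd (nat_lit 8) (.nd (nat_lit 9) 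
(.lf (nat_lit 475141) (.g (nat_lit 2128) (.e (nat_lit 1426) (nat_lit 108) (.e (nat_lit 336430) (nat_lit 29) (.e (nat_lit 442419) (nat_lit 21) (.e (nat_lit 164345) (nat_lit 240) (.e (nat_lit 2640) (nat_lit 165) (.e (nat_lit 180277) (nat_lit 32) .nil)))))) (.g (nat_lit 1) (.e (nat_lit 97326) (nat_lit 0) .nil) .nil))) 
(.lf (nat_lit 475653) (.g (nat_lit 5408) (.e (nat_lit 1778) (nat_lit 119) (.e (nat_lit 516166) (nat_lit 12) (.e (nat_lit 450587) (nat_lit 10) (.e (nat_lit 573475) (nat_lit 12) .nil)))) (.g (nat_lit 0) (.e (nat_lit 99383) (nat_lit 0) .nil) .nil)))) (.nd (nat_lit 9) 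
(.lf (nat_lit 475397) (.g (nat_lit 1645) (.e (nat_lit 1638) (nat_lit 114) (.e (nat_lit 385066) (nat_lit 26) (.e (nat_lit 532558) (nat_lit 14) (.e (nat_lit 376842) (nat_lit 11) (.e (nat_lit 426098) (nat_lit 1) .nil))))) (.g (nat_lit 0) (.e (nat_lit 98305) (nat_lit 0) .nil) .nil))) 
(.lf (nat_lit 475909) (.g (nat_lit 3017) (.e (nat_lit 1788) (nat_lit 119) (.e (nat_lit 516138) (nat_lit 7) (.e (nat_lit 409646) (nat_lit 18) (.e (nat_lit 303117) (nat_lit 2) (.e (nat_lit 196673) (nat_lit 15) (.e (nat_lit 81938) (nat_lit 20) .nil)))))) (.g (nat_lit 1) (.e (nat_lit 99799) (nat_lit 0) .nil) .nil))))) (.nd (nat_lit 8) (.nd (nat_lit 9) 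
(.lf (nat_lit 475269) (.g (nat_lit 1830) (.e (nat_lit 1467) (nat_lit 108) (.e (nat_lit 336443) (nat_lit 32) (.e (nat_lit 466971) (nat_lit 21) (.e (nat_lit 164348) (nat_lit 240) (.e (nat_lit 2640) (nat_lit 165) .nil))))) (.g (nat_lit 0) (.e (nat_lit 97706) (nat_lit 0) .nil) .nil))) 
(.lf (nat_lit 475781) (.g (nat_lit 2776) (.e (nat_lit 1786) (nat_lit 119) (.e (nat_lit 516139) (nat_lit 7) (.e (nat_lit 409645) (nat_lit 18) (.e (nat_lit 303112) (nat_lit 0) (.e (nat_lit 3252) (nat_lit 197) .nil))))) (.g (nat_lit 0) (.e (nat_lit 99590) (nat_lit 0) .nil) .nil)))) (.nd (nat_lit 9) 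
(.lf (nat_lit 475525) (.g (nat_lit 556) (.e (nat_lit 1673) (nat_lit 116) (.e (nat_lit 401446) (nat_lit 10) (.e (nat_lit 434244) (nat_lit 28) .nil))) (.g (nat_lit 0) (.e (nat_lit 98864) (nat_lit 0) .nil) .nil))) 
(.lf (nat_lit 476037) (.g (nat_lit 4516) (.e (nat_lit 1788) (nat_lit 119) (.e (nat_lit 516151) (nat_lit 9) (.e (nat_lit 426286) (nat_lit 10) (.e (nat_lit 434245) (nat_lit 28) (.e (nat_lit 573469) (nat_lit 11) (.e (nat_lit 16473) (nat_lit 14) (.e (nat_lit 491525) (nat_lit 0) .nil))))))) (.g (nat_lit 1) (.e (nat_lit 99946) (nat_lit 0) .nil) .nil)))))) 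
(.nd (nat_lit 7) (.nd (nat_lit 8) (.nd (nat_lit 9) 
(.lf (nat_lit 475205) (.g (nat_lit 764) (.e (nat_lit 1428) (nat_lit 108) (.e (nat_lit 336443) (nat_lit 32) (.e (nat_lit 466969) (nat_lit 21) .nil))) (.g (nat_lit 0) (.e (nat_lit 97537) (nat_lit 0) .nil) .nil))) 
(.lf (nat_lit 475717) (.g (nat_lit 3999) (.e (nat_lit 1781) (nat_lit 119) (.e (nat_lit 516166) (nat_lit 12) (.e (nat_lit 450588) (nat_lit 10) (.e (nat_lit 573470) (nat_lit 11) .nil)))) (.g (nat_lit 0) (.e (nat_lit 99468) (nat_lit 0) .nil) .nil)))) (.nd (nat_lit 9) 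
(.lf (nat_lit 475461) (.g (nat_lit 871) (.e (nat_lit 1660) (nat_lit 115) (.e (nat_lit 393271) (nat_lit 23) (.e (nat_lit 433920) (nat_lit 1) .nil))) (.g (nat_lit 0) (.e (nat_lit 98510) (nat_lit 0) .nil) .nil))) 
(.lf (nat_lit 475973) (.g (nat_lit 2326) (.e (nat_lit 1788) (nat_lit 119) (.e (nat_lit 516139) (nat_lit 7) (.e (nat_lit 409648) (nat_lit 18) (.e (nat_lit 303118) (nat_lit 3) (.e (nat_lit 204855) (nat_lit 26) .nil))))) (.g (nat_lit 0) (.e (nat_lit 99869) (nat_lit 0) .nil) .nil))))) (.nd (nat_lit 8) (.nd (nat_lit 9) 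
(.lf (nat_lit 475333) (.g (nat_lit 1815) (.e (nat_lit 1586) (nat_lit 111) (.e (nat_lit 360451) (nat_lit 0) (.e (nat_lit 7936) (nat_lit 415) (.e (nat_lit 229415) (nat_lit 15) (.e (nat_lit 450584) (nat_lit 9) (.e (nat_lit 565252) (nat_lit 0) .nil)))))) (.g (nat_lit 1) (.e (nat_lit 98139) (nat_lit 0) .nil) .nil))) 
(.lf (nat_lit 475845) (.g (nat_lit 3734) (.e (nat_lit 1790) (nat_lit 119) (.e (nat_lit 516115) (nat_lit 1) (.e (nat_lit 164325) (nat_lit 230) (.e (nat_lit 163904) (nat_lit 12) .nil)))) (.g (nat_lit 0) (.e (nat_lit 99692) (nat_lit 0) .nil) .nil)))) (.nd (nat_lit 9) 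
(.lf (nat_lit 475589) (.g (nat_lit 2115) (.e (nat_lit 1676) (nat_lit 116) (.e (nat_lit 401459) (nat_lit 13) (.e (nat_lit 483344) (nat_lit 17) (.e (nat_lit 2367) (nat_lit 153) .nil)))) (.g (nat_lit 0) (.e (nat_lit 98986) (nat_lit 0) .nil) .nil))) 
(.lf (nat_lit 476101) (.g (nat_lit 1505) (.e (nat_lit 1788) (nat_lit 119) (.e (nat_lit 516179) (nat_lit 15) (.e (nat_lit 475199) (nat_lit 40) (.e (nat_lit 704589) (nat_lit 3) .nil)))) (.g (nat_lit 0) (.e (nat_lit 100026) (nat_lit 0) .nil) .nil))))))) (.nd (nat_lit 6) (.nd (nat_lit 7) (.nd (nat_lit 8) (.nd (nat_lit 9) 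
(.lf (nat_lit 475173) (.g (nat_lit 2216) (.e (nat_lit 1426) (nat_lit 108) (.e (nat_lit 336443) (nat_lit 32) (.e (nat_lit 466971) (nat_lit 21) (.e (nat_lit 164348) (nat_lit 240) (.e (nat_lit 2639) (nat_lit 165) (.e (nat_lit 180277) (nat_lit 32) .nil)))))) (.g (nat_lit 1) (.e (nat_lit 97360) (nat_lit 0) .nil) .nil))) 
(.lf (nat_lit 475685) (.g (nat_lit 1493) (.e (nat_lit 1781) (nat_lit 119) (.e (nat_lit 516120) (nat_lit 1) (.e (nat_lit 164329) (nat_lit 230) (.e (nat_lit 163941) (nat_lit 19) (.e (nat_lit 483341) (nat_lit 9) .nil))))) (.g (nat_lit 0) (.e (nat_lit 99426) (nat_lit 0) .nil) .nil)))) (.nd (nat_lit 9) 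
(.lf (nat_lit 475429) (.g (nat_lit 1960) (.e (nat_lit 1643) (nat_lit 114) (.e (nat_lit 385074) (nat_lit 31) (.e (nat_lit 573485) (nat_lit 13) (.e (nat_lit 65619) (nat_lit 10) .nil)))) (.g (nat_lit 0) (.e (nat_lit 98410) (nat_lit 0) .nil) .nil))) 
(.lf (nat_lit 475941) (.g (nat_lit 2893) (.e (nat_lit 1788) (nat_lit 119) (.e (nat_lit 516139) (nat_lit 7) (.e (nat_lit 409647) (nat_lit 18) (.e (nat_lit 303118) (nat_lit 3) (.e (nat_lit 204865) (nat_lit 28) (.e (nat_lit 352294) (nat_lit 20) .nil)))))) (.g (nat_lit 1) (.e (nat_lit 99837) (nat_lit 0) .nil) .nil))))) (.nd (nat_lit 8) (.nd (nat_lit 9) 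
(.lf (nat_lit 475301) (.g (nat_lit 2046) (.e (nat_lit 1517) (nat_lit 108) (.e (nat_lit 336429) (nat_lit 29) (.e (nat_lit 442421) (nat_lit 21) (.e (nat_lit 164348) (nat_lit 240) (.e (nat_lit 2638) (nat_lit 165) (.e (nat_lit 180276) (nat_lit 32) .nil)))))) (.g (nat_lit 1) (.e (nat_lit 97952) (nat_lit 0) .nil) .nil))) 
(.lf (nat_lit 475813) (.g (nat_lit 4215) (.e (nat_lit 1784) (nat_lit 119) (.e (nat_lit 516166) (nat_lit 12) (.e (nat_lit 450587) (nat_lit 10) (.e (nat_lit 573478) (nat_lit 12) .nil)))) (.g (nat_lit 0) (.e (nat_lit 99652) (nat_lit 0) .nil) .nil)))) (.nd (nat_lit 9) 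
(.lf (nat_lit 475557) (.g (nat_lit 2880) (.e (nat_lit 1673) (nat_lit 116) (.e (nat_lit 401448) (nat_lit 10) (.e (nat_lit 434238) (nat_lit 25) (.e (nat_lit 548915) (nat_lit 20) (.e (nat_lit 188456) (nat_lit 25) .nil))))) (.g (nat_lit 0) (.e (nat_lit 98899) (nat_lit 0) .nil) .nil))) 
(.lf (nat_lit 476069) (.g (nat_lit 2046) (.e (nat_lit 1788) (nat_lit 119) (.e (nat_lit 516165) (nat_lit 12) (.e (nat_lit 450588) (nat_lit 10) (.e (nat_lit 573475) (nat_lit 12) .nil)))) (.g (nat_lit 0) (.e (nat_lit 99993) (nat_lit 0) .nil) .nil)))))) (.nd (nat_lit 7) (.nd (nat_lit 8) (.nd (nat_lit 9) 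
(.lf (nat_lit 475237) (.g (nat_lit 2365) (.e (nat_lit 1464) (nat_lit 108) (.e (nat_lit 336013) (nat_lit 2) (.e (nat_lit 90134) (nat_lit 9) (.e (nat_lit 3009) (nat_lit 187) .nil)))) (.g (nat_lit 0) (.e (nat_lit 97624) (nat_lit 0) .nil) .nil))) 
(.lf (nat_lit 475749) (.g (nat_lit 2382) (.e (nat_lit 1782) (nat_lit 119) (.e (nat_lit 516179) (nat_lit 15) (.e (nat_lit 475177) (nat_lit 24) (.e (nat_lit 516146) (nat_lit 9) (.e (nat_lit 426438) (nat_lit 18) .nil))))) (.g (nat_lit 0) (.e (nat_lit 99522) (nat_lit 0) .nil) .nil)))) (.nd (nat_lit 9) 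
(.lf (nat_lit 475493) (.g (nat_lit 3728) (.e (nat_lit 1669) (nat_lit 116) (.e (nat_lit 401451) (nat_lit 12) (.e (nat_lit 475185) (nat_lit 29) (.e (nat_lit 557109) (nat_lit 15) (.e (nat_lit 188447) (nat_lit 22) (.e (nat_lit 196630) (nat_lit 9) .nil)))))) (.g (nat_lit 1) (.e (nat_lit 98758) (nat_lit 0) .nil) .nil))) 
(.lf (nat_lit 476005) (.g (nat_lit 2529) (.e (nat_lit 1788) (nat_lit 119) (.e (nat_lit 516139) (nat_lit 7) (.e (nat_lit 409649) (nat_lit 18) (.e (nat_lit 303117) (nat_lit 2) (.e (nat_lit 196666) (nat_lit 13) (.e (nat_lit 65596) (nat_lit 9) (.e (nat_lit 335924) (nat_lit 0) .nil))))))) (.g (nat_lit 1) (.e (nat_lit 99906) (nat_lit 0) .nil) .nil))))) (.nd (nat_lit 8) (.nd (nat_lit 9) 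
(.lf (nat_lit 475365) (.g (nat_lit 1252) (.e (nat_lit 1591) (nat_lit 111) (.e (nat_lit 360493) (nat_lit 27) (.e (nat_lit 819204) (nat_lit 0) (.e (nat_lit 3015) (nat_lit 187) (.e (nat_lit 458496) (nat_lit 8) (.e (nat_lit 557061) (nat_lit 0) .nil)))))) (.g (nat_lit 1) (.e (nat_lit 98178) (nat_lit 0) .nil) .nil))) 
(.lf (nat_lit 475877) (.g (nat_lit 4703) (.e (nat_lit 1788) (nat_lit 119) (.e (nat_lit 516115) (nat_lit 1) (.e (nat_lit 164327) (nat_lit 230) (.e (nat_lit 163903) (nat_lit 12) (.e (nat_lit 426566) (nat_lit 34) (.e (nat_lit 393273) (nat_lit 23) (.e (nat_lit 426402) (nat_lit 15) .nil))))))) (.g (nat_lit 1) (.e (nat_lit 99741) (nat_lit 0) .nil) .nil)))) (.nd (nat_lit 9) 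
(.lf (nat_lit 475621) (.g (nat_lit 2474) (.e (nat_lit 7936) (nat_lit 121) (.e (nat_lit 532544) (nat_lit 10) (.e (nat_lit 344132) (nat_lit 26) (.e (nat_lit 557100) (nat_lit 13) (.e (nat_lit 172062) (nat_lit 2) .nil))))) (.g (nat_lit 0) (.e (nat_lit 99285) (nat_lit 0) .nil) .nil))) 
(.lf (nat_lit 476133) (.g (nat_lit 2918) (.e (nat_lit 1791) (nat_lit 119) (.e (nat_lit 516138) (nat_lit 7) (.e (nat_lit 409645) (nat_lit 18) (.e (nat_lit 303117) (nat_lit 2) (.e (nat_lit 196674) (nat_lit 15) (.e (nat_lit 81936) (nat_lit 20) .nil)))))) (.g (nat_lit 1) (.e (nat_lit 100087) (nat_lit 0) .nil) .nil)))))))) 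
(.nd (nat_lit 5) (.nd (nat_lit 6) (.nd (nat_lit 7) (.nd (nat_lit 8) (.nd (nat_lit 9) 
(.lf (nat_lit 475157) (.g (nat_lit 2845) (.e (nat_lit 1426) (nat_lit 108) (.e (nat_lit 336430) (nat_lit 29) (.e (nat_lit 442421) (nat_lit 21) (.e (nat_lit 164348) (nat_lit 240) (.e (nat_lit 2640) (nat_lit 165) (.e (nat_lit 180277) (nat_lit 32) .nil)))))) (.g (nat_lit 1) (.e (nat_lit 97342) (nat_lit 0) .nil) .nil))) 
(.lf (nat_lit 475669) (.g (nat_lit 2354) (.e (nat_lit 1781) (nat_lit 119) (.e (nat_lit 516119) (nat_lit 1) (.e (nat_lit 164325) (nat_lit 230) (.e (nat_lit 163942) (nat_lit 19) .nil)))) (.g (nat_lit 0) (.e (nat_lit 99409) (nat_lit 0) .nil) .nil)))) (.nd (nat_lit 9) 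
(.lf (nat_lit 475413) (.g (nat_lit 2270) (.e (nat_lit 1642) (nat_lit 114) (.e (nat_lit 385068) (nat_lit 26) (.e (nat_lit 532558) (nat_lit 14) (.e (nat_lit 376842) (nat_lit 11) (.e (nat_lit 426098) (nat_lit 1) .nil))))) (.g (nat_lit 0) (.e (nat_lit 98387) (nat_lit 0) .nil) .nil))) 
(.lf (nat_lit 475925) (.g (nat_lit 2573) (.e (nat_lit 1788) (nat_lit 119) (.e (nat_lit 516139) (nat_lit 7) (.e (nat_lit 409644) (nat_lit 18) (.e (nat_lit 303119) (nat_lit 3) (.e (nat_lit 204866) (nat_lit 28) .nil))))) (.g (nat_lit 0) (.e (nat_lit 99821) (nat_lit 0) .nil) .nil))))) (.nd (nat_lit 8) (.nd (nat_lit 9) 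
(.lf (nat_lit 475285) (.g (nat_lit 3220) (.e (nat_lit 1512) (nat_lit 108) (.e (nat_lit 335874) (nat_lit 0) (.e (nat_lit 6713) (nat_lit 360) (.e (nat_lit 163962) (nat_lit 25) (.e (nat_lit 532535) (nat_lit 9) (.e (nat_lit 336058) (nat_lit 7) (.e (nat_lit 319519) (nat_lit 12) (.e (nat_lit 32779) (nat_lit 5) .nil)))))))) (.g (nat_lit 1) (.e (nat_lit 97726) (nat_lit 0) .nil) .nil))) 
(.lf (nat_lit 475797) (.g (nat_lit 2344) (.e (nat_lit 1784) (nat_lit 119) (.e (nat_lit 516117) (nat_lit 1) (.e (nat_lit 164330) (nat_lit 230) (.e (nat_lit 163941) (nat_lit 19) (.e (nat_lit 491264) (nat_lit 11) .nil))))) (.g (nat_lit 0) (.e (nat_lit 99627) (nat_lit 0) .nil) .nil)))) (.nd (nat_lit 9) 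
(.lf (nat_lit 475541) (.g (nat_lit 1875) (.e (nat_lit 1673) (nat_lit 116) (.e (nat_lit 401448) (nat_lit 10) (.e (nat_lit 434238) (nat_lit 25) (.e (nat_lit 548896) (nat_lit 14) .nil)))) (.g (nat_lit 0) (.e (nat_lit 98883) (nat_lit 0) .nil) .nil))) 
(.lf (nat_lit 476053) (.g (nat_lit 5392) (.e (nat_lit 1788) (nat_lit 119) (.e (nat_lit 516151) (nat_lit 9) (.e (nat_lit 426286) (nat_lit 10) (.e (nat_lit 434248) (nat_lit 28) (.e (nat_lit 573469) (nat_lit 11) (.e (nat_lit 16473) (nat_lit 14) (.e (nat_lit 491526) (nat_lit 0) .nil))))))) (.g (nat_lit 1) (.e (nat_lit 99962) (nat_lit 0) .nil) .nil)))))) 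
(.nd (nat_lit 7) (.nd (nat_lit 8) (.nd (nat_lit 9) 
(.lf (nat_lit 475221) (.g (nat_lit 2800) (.e (nat_lit 1433) (nat_lit 108) (.e (nat_lit 336431) (nat_lit 29) (.e (nat_lit 442421) (nat_lit 21) (.e (nat_lit 164347) (nat_lit 240) (.e (nat_lit 2638) (nat_lit 165) (.e (nat_lit 188160) (nat_lit 32) .nil)))))) (.g (nat_lit 1) (.e (nat_lit 97581) (nat_lit 0) .nil) .nil))) 
(.lf (nat_lit 475733) (.g (nat_lit 2093) (.e (nat_lit 1782) (nat_lit 119) (.e (nat_lit 516115) (nat_lit 1) (.e (nat_lit 164399) (nat_lit 256) (.e (nat_lit 57372) (nat_lit 2) (.e (nat_lit 90174) (nat_lit 14) .nil))))) (.g (nat_lit 0) (.e (nat_lit 99495) (nat_lit 0) .nil) .nil)))) (.nd (nat_lit 9) 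
(.lf (nat_lit 475477) (.g (nat_lit 3943) (.e (nat_lit 1667) (nat_lit 116) (.e (nat_lit 401451) (nat_lit 12) (.e (nat_lit 475185) (nat_lit 29) (.e (nat_lit 557098) (nat_lit 13) .nil)))) (.g (nat_lit 0) (.e (nat_lit 98628) (nat_lit 0) .nil) .nil))) 
(.lf (nat_lit 475989) (.g (nat_lit 1366) (.e (nat_lit 1788) (nat_lit 119) (.e (nat_lit 516139) (nat_lit 7) (.e (nat_lit 409649) (nat_lit 18) (.e (nat_lit 303111) (nat_lit 0) .nil)))) (.g (nat_lit 0) (.e (nat_lit 99885) (nat_lit 0) .nil) .nil))))) (.nd (nat_lit 8) (.nd (nat_lit 9) 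
(.lf (nat_lit 475349) (.g (nat_lit 2052) (.e (nat_lit 1587) (nat_lit 111) (.e (nat_lit 360474) (nat_lit 8) (.e (nat_lit 557094) (nat_lit 12) (.e (nat_lit 164022) (nat_lit 46) (.e (nat_lit 704629) (nat_lit 9) (.e (nat_lit 452) (nat_lit 33) (.e (nat_lit 434219) (nat_lit 19) (.e (nat_lit 499992) (nat_lit 14) .nil)))))))) (.g (nat_lit 1) (.e (nat_lit 98162) (nat_lit 0) .nil) .nil))) 
(.lf (nat_lit 475861) (.g (nat_lit 3664) (.e (nat_lit 1790) (nat_lit 119) (.e (nat_lit 516151) (nat_lit 9) (.e (nat_lit 426211) (nat_lit 9) (.e (nat_lit 426140) (nat_lit 3) (.e (nat_lit 204845) (nat_lit 24) .nil))))) (.g (nat_lit 0) (.e (nat_lit 99712) (nat_lit 0) .nil) .nil)))) (.nd (nat_lit 9) 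
(.lf (nat_lit 475605) (.g (nat_lit 1352) (.e (nat_lit 1819) (nat_lit 121) (.e (nat_lit 532513) (nat_lit 3) (.e (nat_lit 114714) (nat_lit 22) (.e (nat_lit 90172) (nat_lit 14) .nil)))) (.g (nat_lit 0) (.e (nat_lit 99195) (nat_lit 0) .nil) .nil))) 
(.lf (nat_lit 476117) (.g (nat_lit 1796) (.e (nat_lit 1789) (nat_lit 119) (.e (nat_lit 516116) (nat_lit 1) (.e (nat_lit 164329) (nat_lit 230) (.e (nat_lit 163902) (nat_lit 12) .nil)))) (.g (nat_lit 0) (.e (nat_lit 100063) (nat_lit 0) .nil) .nil))))))) (.nd (nat_lit 6) (.nd (nat_lit 7) (.nd (nat_lit 8) (.nd (nat_lit 9) 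
(.lf (nat_lit 475189) (.g (nat_lit 4107) (.e (nat_lit 1428) (nat_lit 108) (.e (nat_lit 336324) (nat_lit 18) (.e (nat_lit 204831) (nat_lit 18) (.e (nat_lit 57852) (nat_lit 252) .nil)))) (.g (nat_lit 0) (.e (nat_lit 97510) (nat_lit 0) .nil) .nil))) 
(.lf (nat_lit 475701) (.g (nat_lit 5242) (.e (nat_lit 1781) (nat_lit 119) (.e (nat_lit 516151) (nat_lit 9) (.e (nat_lit 426211) (nat_lit 9) (.e (nat_lit 426125) (nat_lit 2) (.e (nat_lit 196625) (nat_lit 9) .nil))))) (.g (nat_lit 0) (.e (nat_lit 99450) (nat_lit 0) .nil) .nil)))) (.nd (nat_lit 9) 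
(.lf (nat_lit 475445) (.g (nat_lit 2186) (.e (nat_lit 1658) (nat_lit 115) (.e (nat_lit 393282) (nat_lit 24) (.e (nat_lit 434209) (nat_lit 18) (.e (nat_lit 5548) (nat_lit 306) (.e (nat_lit 2639) (nat_lit 165) (.e (nat_lit 180278) (nat_lit 32) .nil)))))) (.g (nat_lit 1) (.e (nat_lit 98454) (nat_lit 0) .nil) .nil))) 
(.lf (nat_lit 475957) (.g (nat_lit 2898) (.e (nat_lit 1788) (nat_lit 119) (.e (nat_lit 516139) (nat_lit 7) (.e (nat_lit 409648) (nat_lit 18) (.e (nat_lit 303116) (nat_lit 2) (.e (nat_lit 196666) (nat_lit 13) (.e (nat_lit 65599) (nat_lit 9) (.e (nat_lit 335922) (nat_lit 0) .nil))))))) (.g (nat_lit 1) (.e (nat_lit 99853) (nat_lit 0) .nil) .nil))))) (.nd (nat_lit 8) (.nd (nat_lit 9) 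
(.lf (nat_lit 475317) (.g (nat_lit 2088) (.e (nat_lit 1575) (nat_lit 110) (.e (nat_lit 352262) (nat_lit 0) (.e (nat_lit 3748) (nat_lit 228) (.e (nat_lit 786480) (nat_lit 29) (.e (nat_lit 352302) (nat_lit 20) .nil))))) (.g (nat_lit 0) (.e (nat_lit 98094) (nat_lit 0) .nil) .nil))) 
(.lf (nat_lit 475829) (.g (nat_lit 2182) (.e (nat_lit 1787) (nat_lit 119) (.e (nat_lit 516115) (nat_lit 1) (.e (nat_lit 164399) (nat_lit 256) (.e (nat_lit 57373) (nat_lit 2) (.e (nat_lit 90172) (nat_lit 14) .nil))))) (.g (nat_lit 0) (.e (nat_lit 99673) (nat_lit 0) .nil) .nil)))) (.nd (nat_lit 9) 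
(.lf (nat_lit 475573) (.g (nat_lit 4205) (.e (nat_lit 1673) (nat_lit 116) (.e (nat_lit 401448) (nat_lit 10) (.e (nat_lit 434272) (nat_lit 38) (.e (nat_lit 655378) (nat_lit 4) (.e (nat_lit 172113) (nat_lit 10) (.e (nat_lit 434279) (nat_lit 39) (.e (nat_lit 663555) (nat_lit 0) .nil))))))) (.g (nat_lit 1) (.e (nat_lit 98919) (nat_lit 0) .nil) .nil))) 
(.lf (nat_lit 476085) (.g (nat_lit 3468) (.e (nat_lit 1788) (nat_lit 119) (.e (nat_lit 516166) (nat_lit 12) (.e (nat_lit 450588) (nat_lit 10) (.e (nat_lit 573457) (nat_lit 9) (.e (nat_lit 430) (nat_lit 32) (.e (nat_lit 426343) (nat_lit 14) (.e (nat_lit 491520) (nat_lit 0) .nil))))))) (.g (nat_lit 1) (.e (nat_lit 100009) (nat_lit 0) .nil) .nil)))))) 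
(.nd (nat_lit 7) (.nd (nat_lit 8) (.nd (nat_lit 9) 
(.lf (nat_lit 475253) (.g (nat_lit 4489) (.e (nat_lit 1454) (nat_lit 108) (.e (nat_lit 336013) (nat_lit 2) (.e (nat_lit 90170) (nat_lit 13) (.e (nat_lit 172115) (nat_lit 10) .nil)))) (.g (nat_lit 0) (.e (nat_lit 97647) (nat_lit 0) .nil) .nil))) 
(.lf (nat_lit 475765) (.g (nat_lit 1320) (.e (nat_lit 1786) (nat_lit 119) (.e (nat_lit 516117) (nat_lit 1) (.e (nat_lit 164329) (nat_lit 230) (.e (nat_lit 163941) (nat_lit 19) .nil)))) (.g (nat_lit 0) (.e (nat_lit 99565) (nat_lit 0) .nil) .nil)))) (.nd (nat_lit 9) 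
(.lf (nat_lit 475509) (.g (nat_lit 776) (.e (nat_lit 1670) (nat_lit 116) (.e (nat_lit 401454) (nat_lit 12) (.e (nat_lit 475209) (nat_lit 41) .nil))) (.g (nat_lit 0) (.e (nat_lit 98807) (nat_lit 0) .nil) .nil))) 
(.lf (nat_lit 476021) (.g (nat_lit 5081) (.e (nat_lit 1788) (nat_lit 119) (.e (nat_lit 516139) (nat_lit 7) (.e (nat_lit 409649) (nat_lit 18) (.e (nat_lit 303118) (nat_lit 3) (.e (nat_lit 204866) (nat_lit 28) (.e (nat_lit 352280) (nat_lit 20) .nil)))))) (.g (nat_lit 1) (.e (nat_lit 99922) (nat_lit 0) .nil) .nil))))) (.nd (nat_lit 8) (.nd (nat_lit 9) 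
(.lf (nat_lit 475381) (.g (nat_lit 3782) (.e (nat_lit 1633) (nat_lit 114) (.e (nat_lit 385074) (nat_lit 31) (.e (nat_lit 573484) (nat_lit 13) (.e (nat_lit 65617) (nat_lit 10) (.e (nat_lit 344130) (nat_lit 26) (.e (nat_lit 557067) (nat_lit 9) (.e (nat_lit 20) (nat_lit 0) (.e (nat_lit 6475) (nat_lit 343) .nil)))))))) (.g (nat_lit 1) (.e (nat_lit 98259) (nat_lit 0) .nil) .nil))) 
(.lf (nat_lit 475893) (.g (nat_lit 1290) (.e (nat_lit 1788) (nat_lit 119) (.e (nat_lit 516120) (nat_lit 1) (.e (nat_lit 164329) (nat_lit 230) .nil))) (.g (nat_lit 0) (.e (nat_lit 99779) (nat_lit 0) .nil) .nil)))) (.nd (nat_lit 9) 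
(.lf (nat_lit 475637) (.g (nat_lit 1364) (.e (nat_lit 7936) (nat_lit 121) (.e (nat_lit 532563) (nat_lit 15) (.e (nat_lit 385057) (nat_lit 22) (.e (nat_lit 500071) (nat_lit 19) .nil)))) (.g (nat_lit 0) (.e (nat_lit 99330) (nat_lit 0) .nil) .nil))) 
(.lf (nat_lit 476149) (.g (nat_lit 2087) (.e (nat_lit 1792) (nat_lit 119) (.e (nat_lit 516116) (nat_lit 1) (.e (nat_lit 164399) (nat_lit 256) (.e (nat_lit 57372) (nat_lit 2) (.e (nat_lit 90174) (nat_lit 14) .nil))))) (.g (nat_lit 0) (.e (nat_lit 100109) (nat_lit 0) .nil) .nil))))))))) (.nd (nat_lit 4) (.nd (nat_lit 5) (.nd (nat_lit 6) (.nd (nat_lit 7) (.nd (nat_lit 8) (.nd (nat_lit 9) 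
(.lf (nat_lit 475149) (.g (nat_lit 2006) (.e (nat_lit 1426) (nat_lit 108) (.e (nat_lit 336430) (nat_lit 29) (.e (nat_lit 442421) (nat_lit 21) (.e (nat_lit 164345) (nat_lit 240) (.e (nat_lit 2639) (nat_lit 165) (.e (nat_lit 180277) (nat_lit 32) .nil)))))) (.g (nat_lit 1) (.e (nat_lit 97334) (nat_lit 0) .nil) .nil))) 
(.lf (nat_lit 475661) (.g (nat_lit 2991) (.e (nat_lit 1781) (nat_lit 119) (.e (nat_lit 516115) (nat_lit 1) (.e (nat_lit 164325) (nat_lit 230) (.e (nat_lit 163907) (nat_lit 12) (.e (nat_lit 426566) (nat_lit 34) (.e (nat_lit 393273) (nat_lit 23) (.e (nat_lit 426364) (nat_lit 15) .nil))))))) (.g (nat_lit 1) (.e (nat_lit 99395) (nat_lit 0) .nil) .nil)))) (.nd (nat_lit 9) 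
(.lf (nat_lit 475405) (.g (nat_lit 2121) (.e (nat_lit 1638) (nat_lit 114) (.e (nat_lit 385068) (nat_lit 26) (.e (nat_lit 532560) (nat_lit 14) (.e (nat_lit 376842) (nat_lit 11) (.e (nat_lit 426100) (nat_lit 1) .nil))))) (.g (nat_lit 0) (.e (nat_lit 98313) (nat_lit 0) .nil) .nil))) 
(.lf (nat_lit 475917) (.g (nat_lit 1473) (.e (nat_lit 1788) (nat_lit 119) (.e (nat_lit 516139) (nat_lit 7) (.e (nat_lit 409616) (nat_lit 10) (.e (nat_lit 5757) (nat_lit 315) .nil)))) (.g (nat_lit 0) (.e (nat_lit 99808) (nat_lit 0) .nil) .nil))))) (.nd (nat_lit 8) (.nd (nat_lit 9) 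
(.lf (nat_lit 475277) (.g (nat_lit 1923) (.e (nat_lit 1485) (nat_lit 108) (.e (nat_lit 336204) (nat_lit 12) (.e (nat_lit 385074) (nat_lit 31) (.e (nat_lit 573491) (nat_lit 15) .nil)))) (.g (nat_lit 0) (.e (nat_lit 97716) (nat_lit 0) .nil) .nil))) 
(.lf (nat_lit 475789) (.g (nat_lit 2078) (.e (nat_lit 1784) (nat_lit 119) (.e (nat_lit 516115) (nat_lit 1) (.e (nat_lit 164325) (nat_lit 230) (.e (nat_lit 163903) (nat_lit 12) .nil)))) (.g (nat_lit 0) (.e (nat_lit 99608) (nat_lit 0) .nil) .nil)))) (.nd (nat_lit 9) 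
(.lf (nat_lit 475533) (.g (nat_lit 500) (.e (nat_lit 1673) (nat_lit 116) (.e (nat_lit 401447) (nat_lit 10) (.e (nat_lit 434272) (nat_lit 38) .nil))) (.g (nat_lit 0) (.e (nat_lit 98873) (nat_lit 0) .nil) .nil))) 
(.lf (nat_lit 476045) (.g (nat_lit 4606) (.e (nat_lit 1788) (nat_lit 119) (.e (nat_lit 516151) (nat_lit 9) (.e (nat_lit 426286) (nat_lit 10) (.e (nat_lit 434247) (nat_lit 28) (.e (nat_lit 573469) (nat_lit 11) (.e (nat_lit 16472) (nat_lit 14) (.e (nat_lit 491526) (nat_lit 0) .nil))))))) (.g (nat_lit 1) (.e (nat_lit 99954) (nat_lit 0) .nil) .nil)))))) 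
(.nd (nat_lit 7) (.nd (nat_lit 8) (.nd (nat_lit 9) 
(.lf (nat_lit 475213) (.g (nat_lit 5301) (.e (nat_lit 1433) (nat_lit 108) (.e (nat_lit 336019) (nat_lit 3) (.e (nat_lit 98373) (nat_lit 29) (.e (nat_lit 450587) (nat_lit 10) (.e (nat_lit 573475) (nat_lit 12) .nil))))) (.g (nat_lit 0) (.e (nat_lit 97555) (nat_lit 0) .nil) .nil))) 
(.lf (nat_lit 475725) (.g (nat_lit 2764) (.e (nat_lit 1781) (nat_lit 119) (.e (nat_lit 516179) (nat_lit 15) (.e (nat_lit 475199) (nat_lit 40) (.e (nat_lit 704589) (nat_lit 3) (.e (nat_lit 163975) (nat_lit 30) (.e (nat_lit 573491) (nat_lit 15) (.e (nat_lit 81943) (nat_lit 20) .nil))))))) (.g (nat_lit 1) (.e (nat_lit 99476) (nat_lit 0) .nil) .nil)))) (.nd (nat_lit 9) 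
(.lf (nat_lit 475469) (.g (nat_lit 2093) (.e (nat_lit 1661) (nat_lit 115) (.e (nat_lit 393238) (nat_lit 17) (.e (nat_lit 6989) (nat_lit 377) (.e (nat_lit 2779) (nat_lit 178) (.e (nat_lit 286770) (nat_lit 28) (.e (nat_lit 442112) (nat_lit 0) .nil)))))) (.g (nat_lit 1) (.e (nat_lit 98535) (nat_lit 0) .nil) .nil))) 
(.lf (nat_lit 475981) (.g (nat_lit 4920) (.e (nat_lit 1788) (nat_lit 119) (.e (nat_lit 516139) (nat_lit 7) (.e (nat_lit 409648) (nat_lit 18) (.e (nat_lit 303118) (nat_lit 3) (.e (nat_lit 204866) (nat_lit 28) (.e (nat_lit 352292) (nat_lit 20) .nil)))))) (.g (nat_lit 1) (.e (nat_lit 99877) (nat_lit 0) .nil) .nil))))) (.nd (nat_lit 8) (.nd (nat_lit 9) 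
(.lf (nat_lit 475341) (.g (nat_lit 3283) (.e (nat_lit 1587) (nat_lit 111) (.e (nat_lit 360474) (nat_lit 8) (.e (nat_lit 557093) (nat_lit 12) (.e (nat_lit 164022) (nat_lit 46) (.e (nat_lit 704629) (nat_lit 9) (.e (nat_lit 452) (nat_lit 33) (.e (nat_lit 434219) (nat_lit 19) (.e (nat_lit 499990) (nat_lit 14) .nil)))))))) (.g (nat_lit 1) (.e (nat_lit 98154) (nat_lit 0) .nil) .nil))) 
(.lf (nat_lit 475853) (.g (nat_lit 1416) (.e (nat_lit 1790) (nat_lit 119) (.e (nat_lit 516117) (nat_lit 1) (.e (nat_lit 164329) (nat_lit 230) .nil))) (.g (nat_lit 0) (.e (nat_lit 99701) (nat_lit 0) .nil) .nil)))) (.nd (nat_lit 9) 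
(.lf (nat_lit 475597) (.g (nat_lit 2111) (.e (nat_lit 1691) (nat_lit 117) (.e (nat_lit 499929) (nat_lit 11) (.e (nat_lit 188449) (nat_lit 22) (.e (nat_lit 196626) (nat_lit 9) (.e (nat_lit 1400) (nat_lit 106) .nil))))) (.g (nat_lit 0) (.e (nat_lit 99008) (nat_lit 0) .nil) .nil))) 
(.lf (nat_lit 476109) (.g (nat_lit 2659) (.e (nat_lit 1788) (nat_lit 119) (.e (nat_lit 516180) (nat_lit 15) (.e (nat_lit 475177) (nat_lit 24) (.e (nat_lit 516179) (nat_lit 15) (.e (nat_lit 475177) (nat_lit 24) (.e (nat_lit 516148) (nat_lit 9) (.e (nat_lit 426402) (nat_lit 15) .nil))))))) (.g (nat_lit 1) (.e (nat_lit 100046) (nat_lit 0) .nil) .nil))))))) 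
(.nd (nat_lit 6) (.nd (nat_lit 7) (.nd (nat_lit 8) (.nd (nat_lit 9) 
(.lf (nat_lit 475181) (.g (nat_lit 3954) (.e (nat_lit 1427) (nat_lit 108) (.e (nat_lit 336454) (nat_lit 34) (.e (nat_lit 483365) (nat_lit 18) (.e (nat_lit 57854) (nat_lit 252) .nil)))) (.g (nat_lit 0) (.e (nat_lit 97484) (nat_lit 0) .nil) .nil))) 
(.lf (nat_lit 475693) (.g (nat_lit 2672) (.e (nat_lit 1781) (nat_lit 119) (.e (nat_lit 516138) (nat_lit 7) (.e (nat_lit 409645) (nat_lit 18) (.e (nat_lit 303117) (nat_lit 2) (.e (nat_lit 196674) (nat_lit 15) .nil))))) (.g (nat_lit 0) (.e (nat_lit 99435) (nat_lit 0) .nil) .nil)))) (.nd (nat_lit 9) 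
(.lf (nat_lit 475437) (.g (nat_lit 1873) (.e (nat_lit 1658) (nat_lit 115) (.e (nat_lit 393271) (nat_lit 23) (.e (nat_lit 426112) (nat_lit 1) (.e (nat_lit 164348) (nat_lit 240) (.e (nat_lit 2640) (nat_lit 165) .nil))))) (.g (nat_lit 0) (.e (nat_lit 98439) (nat_lit 0) .nil) .nil))) 
(.lf (nat_lit 475949) (.g (nat_lit 1069) (.e (nat_lit 1788) (nat_lit 119) (.e (nat_lit 516139) (nat_lit 7) (.e (nat_lit 409648) (nat_lit 18) (.e (nat_lit 303108) (nat_lit 0) .nil)))) (.g (nat_lit 0) (.e (nat_lit 99845) (nat_lit 0) .nil) .nil))))) (.nd (nat_lit 8) (.nd (nat_lit 9) 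
(.lf (nat_lit 475309) (.g (nat_lit 901) (.e (nat_lit 1538) (nat_lit 109) (.e (nat_lit 344138) (nat_lit 29) (.e (nat_lit 581653) (nat_lit 6) (.e (nat_lit 188430) (nat_lit 20) .nil)))) (.g (nat_lit 0) (.e (nat_lit 98014) (nat_lit 0) .nil) .nil))) 
(.lf (nat_lit 475821) (.g (nat_lit 2204) (.e (nat_lit 1785) (nat_lit 119) (.e (nat_lit 516120) (nat_lit 1) (.e (nat_lit 164329) (nat_lit 230) (.e (nat_lit 163941) (nat_lit 19) .nil)))) (.g (nat_lit 0) (.e (nat_lit 99663) (nat_lit 0) .nil) .nil)))) (.nd (nat_lit 9) 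
(.lf (nat_lit 475565) (.g (nat_lit 3417) (.e (nat_lit 1673) (nat_lit 116) (.e (nat_lit 401448) (nat_lit 10) (.e (nat_lit 434271) (nat_lit 38) (.e (nat_lit 655378) (nat_lit 4) (.e (nat_lit 172113) (nat_lit 10) (.e (nat_lit 434279) (nat_lit 39) (.e (nat_lit 663556) (nat_lit 0) .nil))))))) (.g (nat_lit 1) (.e (nat_lit 98911) (nat_lit 0) .nil) .nil))) 
(.lf (nat_lit 476077) (.g (nat_lit 1185) (.e (nat_lit 1788) (nat_lit 119) (.e (nat_lit 516166) (nat_lit 12) (.e (nat_lit 450587) (nat_lit 10) (.e (nat_lit 573478) (nat_lit 12) .nil)))) (.g (nat_lit 0) (.e (nat_lit 100001) (nat_lit 0) .nil) .nil)))))) (.nd (nat_lit 7) (.nd (nat_lit 8) (.nd (nat_lit 9) 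
(.lf (nat_lit 475245) (.g (nat_lit 4846) (.e (nat_lit 1454) (nat_lit 108) (.e (nat_lit 336013) (nat_lit 2) (.e (nat_lit 90170) (nat_lit 13) (.e (nat_lit 172113) (nat_lit 10) (.e (nat_lit 434245) (nat_lit 28) (.e (nat_lit 573473) (nat_lit 12) (.e (nat_lit 57569) (nat_lit 53) (.e (nat_lit 761866) (nat_lit 5) .nil)))))))) (.g (nat_lit 1) (.e (nat_lit 97639) (nat_lit 0) .nil) .nil))) 
(.lf (nat_lit 475757) (.g (nat_lit 1251) (.e (nat_lit 1783) (nat_lit 119) (.e (nat_lit 516122) (nat_lit 2) (.e (nat_lit 213032) (nat_lit 11) (.e (nat_lit 24608) (nat_lit 3) (.e (nat_lit 98380) (nat_lit 31) .nil))))) (.g (nat_lit 0) (.e (nat_lit 99537) (nat_lit 0) .nil) .nil)))) (.nd (nat_lit 9) 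
(.lf (nat_lit 475501) (.g (nat_lit 2341) (.e (nat_lit 1669) (nat_lit 116) (.e (nat_lit 401457) (nat_lit 13) (.e (nat_lit 483365) (nat_lit 18) (.e (nat_lit 57654) (nat_lit 152) (.e (nat_lit 2636) (nat_lit 165) .nil))))) (.g (nat_lit 0) (.e (nat_lit 98790) (nat_lit 0) .nil) .nil))) 
(.lf (nat_lit 476013) (.g (nat_lit 3492) (.e (nat_lit 1788) (nat_lit 119) (.e (nat_lit 516139) (nat_lit 7) (.e (nat_lit 409649) (nat_lit 18) (.e (nat_lit 303118) (nat_lit 3) (.e (nat_lit 204855) (nat_lit 26) (.e (nat_lit 336097) (nat_lit 9) (.e (nat_lit 335886) (nat_lit 0) .nil))))))) (.g (nat_lit 1) (.e (nat_lit 99914) (nat_lit 0) .nil) .nil))))) (.nd (nat_lit 8) (.nd (nat_lit 9) 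
(.lf (nat_lit 475373) (.g (nat_lit 3605) (.e (nat_lit 1605) (nat_lit 112) (.e (nat_lit 368676) (nat_lit 21) (.e (nat_lit 516185) (nat_lit 16) (.e (nat_lit 491560) (nat_lit 10) (.e (nat_lit 344118) (nat_lit 21) .nil))))) (.g (nat_lit 0) (.e (nat_lit 98213) (nat_lit 0) .nil) .nil))) 
(.lf (nat_lit 475885) (.g (nat_lit 2677) (.e (nat_lit 1788) (nat_lit 119) (.e (nat_lit 516116) (nat_lit 1) (.e (nat_lit 164330) (nat_lit 230) (.e (nat_lit 163943) (nat_lit 19) (.e (nat_lit 483341) (nat_lit 9) (.e (nat_lit 426198) (nat_lit 9) (.e (nat_lit 426402) (nat_lit 15) .nil))))))) (.g (nat_lit 1) (.e (nat_lit 99758) (nat_lit 0) .nil) .nil)))) (.nd (nat_lit 9) 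
(.lf (nat_lit 475629) (.g (nat_lit 2240) (.e (nat_lit 7936) (nat_lit 121) (.e (nat_lit 532544) (nat_lit 10) (.e (nat_lit 344133) (nat_lit 26) (.e (nat_lit 557098) (nat_lit 13) (.e (nat_lit 172064) (nat_lit 2) .nil))))) (.g (nat_lit 0) (.e (nat_lit 99293) (nat_lit 0) .nil) .nil))) 
(.lf (nat_lit 476141) (.g (nat_lit 2084) (.e (nat_lit 1792) (nat_lit 119) (.e (nat_lit 516115) (nat_lit 1) (.e (nat_lit 164399) (nat_lit 256) (.e (nat_lit 57372) (nat_lit 2) (.e (nat_lit 90174) (nat_lit 14) .nil))))) (.g (nat_lit 0) (.e (nat_lit 100099) (nat_lit 0) .nil) .nil)))))))) (.nd (nat_lit 5) (.nd (nat_lit 6) (.nd (nat_lit 7) (.nd (nat_lit 8) (.nd (nat_lit 9) 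
(.lf (nat_lit 475165) (.g (nat_lit 2876) (.e (nat_lit 1426) (nat_lit 108) (.e (nat_lit 336434) (nat_lit 30) (.e (nat_lit 450564) (nat_lit 0) (.e (nat_lit 5548) (nat_lit 306) (.e (nat_lit 2638) (nat_lit 165) (.e (nat_lit 180278) (nat_lit 32) .nil)))))) (.g (nat_lit 1) (.e (nat_lit 97350) (nat_lit 0) .nil) .nil))) 
(.lf (nat_lit 475677) (.g (nat_lit 2736) (.e (nat_lit 1781) (nat_lit 119) (.e (nat_lit 516119) (nat_lit 1) (.e (nat_lit 164403) (nat_lit 256) (.e (nat_lit 57373) (nat_lit 2) (.e (nat_lit 90168) (nat_lit 13) .nil))))) (.g (nat_lit 0) (.e (nat_lit 99417) (nat_lit 0) .nil) .nil)))) (.nd (nat_lit 9) 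
(.lf (nat_lit 475421) (.g (nat_lit 2605) (.e (nat_lit 1642) (nat_lit 114) (.e (nat_lit 385074) (nat_lit 31) (.e (nat_lit 573491) (nat_lit 15) (.e (nat_lit 81951) (nat_lit 22) (.e (nat_lit 90133) (nat_lit 9) (.e (nat_lit 2400) (nat_lit 157) (.e (nat_lit 7489) (nat_lit 402) .nil))))))) (.g (nat_lit 1) (.e (nat_lit 98396) (nat_lit 0) .nil) .nil))) 
(.lf (nat_lit 475933) (.g (nat_lit 3292) (.e (nat_lit 1788) (nat_lit 119) (.e (nat_lit 516139) (nat_lit 7) (.e (nat_lit 409645) (nat_lit 18) (.e (nat_lit 303119) (nat_lit 3) (.e (nat_lit 204866) (nat_lit 28) (.e (nat_lit 352302) (nat_lit 20) .nil)))))) (.g (nat_lit 1) (.e (nat_lit 99829) (nat_lit 0) .nil) .nil))))) (.nd (nat_lit 8) (.nd (nat_lit 9) 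
(.lf (nat_lit 475293) (.g (nat_lit 1688) (.e (nat_lit 1515) (nat_lit 108) (.e (nat_lit 336378) (nat_lit 27) (.e (nat_lit 426347) (nat_lit 14) (.e (nat_lit 491549) (nat_lit 9) (.e (nat_lit 336421) (nat_lit 28) (.e (nat_lit 434179) (nat_lit 0) .nil)))))) (.g (nat_lit 1) (.e (nat_lit 97831) (nat_lit 0) .nil) .nil))) 
(.lf (nat_lit 475805) (.g (nat_lit 1547) (.e (nat_lit 1784) (nat_lit 119) (.e (nat_lit 516127) (nat_lit 2) (.e (nat_lit 213032) (nat_lit 11) (.e (nat_lit 24604) (nat_lit 2) (.e (nat_lit 90176) (nat_lit 15) .nil))))) (.g (nat_lit 0) (.e (nat_lit 99639) (nat_lit 0) .nil) .nil)))) (.nd (nat_lit 9) 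
(.lf (nat_lit 475549) (.g (nat_lit 3544) (.e (nat_lit 1673) (nat_lit 116) (.e (nat_lit 401448) (nat_lit 10) (.e (nat_lit 434238) (nat_lit 25) (.e (nat_lit 548898) (nat_lit 14) (.e (nat_lit 3027) (nat_lit 187) (.e (nat_lit 450574) (nat_lit 1) (.e (nat_lit 499991) (nat_lit 14) .nil))))))) (.g (nat_lit 1) (.e (nat_lit 98891) (nat_lit 0) .nil) .nil))) 
(.lf (nat_lit 476061) (.g (nat_lit 340) (.e (nat_lit 1788) (nat_lit 119) (.e (nat_lit 516165) (nat_lit 12) (.e (nat_lit 450586) (nat_lit 10) .nil))) (.g (nat_lit 0) (.e (nat_lit 99985) (nat_lit 0) .nil) .nil)))))) (.nd (nat_lit 7) (.nd (nat_lit 8) (.nd (nat_lit 9) 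
(.lf (nat_lit 475229) (.g (nat_lit 2201) (.e (nat_lit 1433) (nat_lit 108) (.e (nat_lit 336456) (nat_lit 34) (.e (nat_lit 483383) (nat_lit 23) (.e (nat_lit 336019) (nat_lit 3) (.e (nat_lit 98335) (nat_lit 18) .nil))))) (.g (nat_lit 0) (.e (nat_lit 97589) (nat_lit 0) .nil) .nil))) 
(.lf (nat_lit 475741) (.g (nat_lit 1653) (.e (nat_lit 1782) (nat_lit 119) (.e (nat_lit 516122) (nat_lit 2) (.e (nat_lit 213032) (nat_lit 11) (.e (nat_lit 24608) (nat_lit 3) (.e (nat_lit 98380) (nat_lit 31) (.e (nat_lit 466945) (nat_lit 0) .nil)))))) (.g (nat_lit 1) (.e (nat_lit 99511) (nat_lit 0) .nil) .nil)))) (.nd (nat_lit 9) 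
(.lf (nat_lit 475485) (.g (nat_lit 820) (.e (nat_lit 1669) (nat_lit 116) (.e (nat_lit 401438) (nat_lit 9) (.e (nat_lit 426130) (nat_lit 3) .nil))) (.g (nat_lit 0) (.e (nat_lit 98746) (nat_lit 0) .nil) .nil))) 
(.lf (nat_lit 475997) (.g (nat_lit 2257) (.e (nat_lit 1788) (nat_lit 119) (.e (nat_lit 516139) (nat_lit 7) (.e (nat_lit 409649) (nat_lit 18) (.e (nat_lit 303117) (nat_lit 2) (.e (nat_lit 196666) (nat_lit 13) .nil))))) (.g (nat_lit 0) (.e (nat_lit 99898) (nat_lit 0) .nil) .nil))))) (.nd (nat_lit 8) (.nd (nat_lit 9) 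
(.lf (nat_lit 475357) (.g (nat_lit 4488) (.e (nat_lit 1587) (nat_lit 111) (.e (nat_lit 360475) (nat_lit 8) (.e (nat_lit 557091) (nat_lit 12) (.e (nat_lit 164022) (nat_lit 46) (.e (nat_lit 704629) (nat_lit 9) (.e (nat_lit 452) (nat_lit 33) (.e (nat_lit 434219) (nat_lit 19) (.e (nat_lit 499981) (nat_lit 14) .nil)))))))) (.g (nat_lit 1) (.e (nat_lit 98170) (nat_lit 0) .nil) .nil))) 
(.lf (nat_lit 475869) (.g (nat_lit 5387) (.e (nat_lit 1788) (nat_lit 119) (.e (nat_lit 516115) (nat_lit 1) (.e (nat_lit 164325) (nat_lit 230) (.e (nat_lit 163903) (nat_lit 12) (.e (nat_lit 426566) (nat_lit 34) (.e (nat_lit 393273) (nat_lit 23) (.e (nat_lit 426402) (nat_lit 15) .nil))))))) (.g (nat_lit 1) (.e (nat_lit 99728) (nat_lit 0) .nil) .nil)))) (.nd (nat_lit 9) 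
(.lf (nat_lit 475613) (.g (nat_lit 540) (.e (nat_lit 7936) (nat_lit 121) (.e (nat_lit 532544) (nat_lit 10) (.e (nat_lit 344127) (nat_lit 26) .nil))) (.g (nat_lit 0) (.e (nat_lit 99277) (nat_lit 0) .nil) .nil))) 
(.lf (nat_lit 476125) (.g (nat_lit 2076) (.e (nat_lit 1791) (nat_lit 119) (.e (nat_lit 516115) (nat_lit 1) (.e (nat_lit 164399) (nat_lit 256) (.e (nat_lit 57372) (nat_lit 2) (.e (nat_lit 90174) (nat_lit 14) .nil))))) (.g (nat_lit 0) (.e (nat_lit 100077) (nat_lit 0) .nil) .nil))))))) (.nd (nat_lit 6) (.nd (nat_lit 7) (.nd (nat_lit 8) (.nd (nat_lit 9) 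
(.lf (nat_lit 475197) (.g (nat_lit 2275) (.e (nat_lit 1428) (nat_lit 108) (.e (nat_lit 336430) (nat_lit 29) (.e (nat_lit 442429) (nat_lit 24) (.e (nat_lit 229665) (nat_lit 240) (.e (nat_lit 2643) (nat_lit 165) (.e (nat_lit 180277) (nat_lit 32) .nil)))))) (.g (nat_lit 1) (.e (nat_lit 97525) (nat_lit 0) .nil) .nil))) 
(.lf (nat_lit 475709) (.g (nat_lit 3283) (.e (nat_lit 1781) (nat_lit 119) (.e (nat_lit 516151) (nat_lit 9) (.e (nat_lit 426211) (nat_lit 9) (.e (nat_lit 426140) (nat_lit 3) (.e (nat_lit 204846) (nat_lit 24) .nil))))) (.g (nat_lit 0) (.e (nat_lit 99458) (nat_lit 0) .nil) .nil)))) (.nd (nat_lit 9) 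
(.lf (nat_lit 475453) (.g (nat_lit 2651) (.e (nat_lit 1659) (nat_lit 115) (.e (nat_lit 393281) (nat_lit 23) (.e (nat_lit 426098) (nat_lit 1) (.e (nat_lit 164346) (nat_lit 240) (.e (nat_lit 2638) (nat_lit 165) (.e (nat_lit 180277) (nat_lit 32) .nil)))))) (.g (nat_lit 1) (.e (nat_lit 98481) (nat_lit 0) .nil) .nil))) 
(.lf (nat_lit 475965) (.g (nat_lit 2869) (.e (nat_lit 1788) (nat_lit 119) (.e (nat_lit 516139) (nat_lit 7) (.e (nat_lit 409648) (nat_lit 18) (.e (nat_lit 303117) (nat_lit 2) (.e (nat_lit 196666) (nat_lit 13) (.e (nat_lit 65596) (nat_lit 9) (.e (nat_lit 335921) (nat_lit 0) .nil))))))) (.g (nat_lit 1) (.e (nat_lit 99861) (nat_lit 0) .nil) .nil))))) (.nd (nat_lit 8) (.nd (nat_lit 9) 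
(.lf (nat_lit 475325) (.g (nat_lit 2857) (.e (nat_lit 1583) (nat_lit 111) (.e (nat_lit 360475) (nat_lit 8) (.e (nat_lit 557090) (nat_lit 12) (.e (nat_lit 164020) (nat_lit 45) (.e (nat_lit 696329) (nat_lit 5) (.e (nat_lit 2878) (nat_lit 184) (.e (nat_lit 426125) (nat_lit 2) (.e (nat_lit 204544) (nat_lit 9) .nil)))))))) (.g (nat_lit 1) (.e (nat_lit 98115) (nat_lit 0) .nil) .nil))) 
(.lf (nat_lit 475837) (.g (nat_lit 3296) (.e (nat_lit 1787) (nat_lit 119) (.e (nat_lit 516120) (nat_lit 1) (.e (nat_lit 164403) (nat_lit 256) (.e (nat_lit 57373) (nat_lit 2) (.e (nat_lit 90174) (nat_lit 14) .nil))))) (.g (nat_lit 0) (.e (nat_lit 99682) (nat_lit 0) .nil) .nil)))) (.nd (nat_lit 9) 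
(.lf (nat_lit 475581) (.g (nat_lit 3800) (.e (nat_lit 1675) (nat_lit 116) (.e (nat_lit 401451) (nat_lit 12) (.e (nat_lit 475185) (nat_lit 29) (.e (nat_lit 557109) (nat_lit 15) .nil)))) (.g (nat_lit 0) (.e (nat_lit 98943) (nat_lit 0) .nil) .nil))) 
(.lf (nat_lit 476093) (.g (nat_lit 4311) (.e (nat_lit 1788) (nat_lit 119) (.e (nat_lit 516166) (nat_lit 12) (.e (nat_lit 450588) (nat_lit 10) (.e (nat_lit 573474) (nat_lit 12) .nil)))) (.g (nat_lit 0) (.e (nat_lit 100017) (nat_lit 0) .nil) .nil)))))) (.nd (nat_lit 7) (.nd (nat_lit 8) (.nd (nat_lit 9) 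
(.lf (nat_lit 475261) (.g (nat_lit 1729) (.e (nat_lit 1454) (nat_lit 108) (.e (nat_lit 336295) (nat_lit 15) (.e (nat_lit 3305) (nat_lit 202) (.e (nat_lit 573485) (nat_lit 13) .nil)))) (.g (nat_lit 0) (.e (nat_lit 97686) (nat_lit 0) .nil) .nil))) 
(.lf (nat_lit 475773) (.g (nat_lit 1770) (.e (nat_lit 1786) (nat_lit 119) (.e (nat_lit 516122) (nat_lit 2) (.e (nat_lit 213032) (nat_lit 11) (.e (nat_lit 24608) (nat_lit 3) (.e (nat_lit 98380) (nat_lit 31) (.e (nat_lit 466945) (nat_lit 0) .nil)))))) (.g (nat_lit 1) (.e (nat_lit 99581) (nat_lit 0) .nil) .nil)))) (.nd (nat_lit 9) 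
(.lf (nat_lit 475517) (.g (nat_lit 595) (.e (nat_lit 1673) (nat_lit 116) (.e (nat_lit 401446) (nat_lit 10) (.e (nat_lit 434238) (nat_lit 25) .nil))) (.g (nat_lit 0) (.e (nat_lit 98856) (nat_lit 0) .nil) .nil))) 
(.lf (nat_lit 476029) (.g (nat_lit 2936) (.e (nat_lit 1788) (nat_lit 119) (.e (nat_lit 516147) (nat_lit 9) (.e (nat_lit 426436) (nat_lit 18) (.e (nat_lit 98357) (nat_lit 26) (.e (nat_lit 426436) (nat_lit 18) (.e (nat_lit 98358) (nat_lit 26) (.e (nat_lit 426402) (nat_lit 15) .nil))))))) (.g (nat_lit 1) (.e (nat_lit 99938) (nat_lit 0) .nil) .nil))))) (.nd (nat_lit 8) (.nd (nat_lit 9) 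
(.lf (nat_lit 475389) (.g (nat_lit 2853) (.e (nat_lit 1635) (nat_lit 114) (.e (nat_lit 385074) (nat_lit 31) (.e (nat_lit 573484) (nat_lit 13) (.e (nat_lit 65617) (nat_lit 10) .nil)))) (.g (nat_lit 0) (.e (nat_lit 98279) (nat_lit 0) .nil) .nil))) 
(.lf (nat_lit 475901) (.g (nat_lit 2771) (.e (nat_lit 1788) (nat_lit 119) (.e (nat_lit 516138) (nat_lit 7) (.e (nat_lit 409645) (nat_lit 18) (.e (nat_lit 303117) (nat_lit 2) (.e (nat_lit 196673) (nat_lit 15) .nil))))) (.g (nat_lit 0) (.e (nat_lit 99788) (nat_lit 0) .nil) .nil)))) (.nd (nat_lit 9) 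
(.lf (nat_lit 475645) (.g (nat_lit 1838) (.e (nat_lit 1778) (nat_lit 119) (.e (nat_lit 516139) (nat_lit 7) (.e (nat_lit 409645) (nat_lit 18) (.e (nat_lit 303117) (nat_lit 2) .nil)))) (.g (nat_lit 0) (.e (nat_lit 99375) (nat_lit 0) .nil) .nil))) 
(.lf (nat_lit 476157) (.g (nat_lit 4260) (.e (nat_lit 1792) (nat_lit 119) (.e (nat_lit 516166) (nat_lit 12) (.e (nat_lit 450588) (nat_lit 10) (.e (nat_lit 573475) (nat_lit 12) (.e (nat_lit 57574) (nat_lit 55) .nil))))) (.g (nat_lit 0) (.e (nat_lit 100122) (nat_lit 0) .nil) .nil))))))))))) 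
(.nd (nat_lit 2) (.nd (nat_lit 3) (.nd (nat_lit 4) (.nd (nat_lit 5) (.nd (nat_lit 6) 
(.nd (nat_lit 7) (.nd (nat_lit 8) (.nd (nat_lit 9) 
(.lf (nat_lit 475139) (.g (nat_lit 2696) (.e (nat_lit 1426) (nat_lit 108) (.e (nat_lit 336430) (nat_lit 29) (.e (nat_lit 442379) (nat_lit 0) (.e (nat_lit 2058) (nat_lit 142) (.e (nat_lit 704595) (nat_lit 5) (.e (nat_lit 180278) (nat_lit 32) .nil)))))) (.g (nat_lit 1) (.e (nat_lit 97317) (nat_lit 0) .nil) .nil))) 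
(.lf (nat_lit 475651) (.g (nat_lit 2783) (.e (nat_lit 1778) (nat_lit 119) (.e (nat_lit 516139) (nat_lit 7) (.e (nat_lit 409649) (nat_lit 18) (.e (nat_lit 303117) (nat_lit 2) (.e (nat_lit 196665) (nat_lit 13) .nil))))) (.g (nat_lit 0) (.e (nat_lit 99381) (nat_lit 0) .nil) .nil)))) (.nd (nat_lit 9) 
(.lf (nat_lit 475395) (.g (nat_lit 2949) (.e (nat_lit 1637) (nat_lit 114) (.e (nat_lit 385074) (nat_lit 31) (.e (nat_lit 573484) (nat_lit 13) (.e (nat_lit 65617) (nat_lit 10) .nil)))) (.g (nat_lit 0) (.e (nat_lit 98300) (nat_lit 0) .nil) .nil))) 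
(.lf (nat_lit 475907) (.g (nat_lit 3028) (.e (nat_lit 1788) (nat_lit 119) (.e (nat_lit 516138) (nat_lit 7) (.e (nat_lit 409646) (nat_lit 18) (.e (nat_lit 303117) (nat_lit 2) (.e (nat_lit 196672) (nat_lit 15) .nil))))) (.g (nat_lit 0) (.e (nat_lit 99797) (nat_lit 0) .nil) .nil))))) (.nd (nat_lit 8) (.nd (nat_lit 9) 
(.lf (nat_lit 475267) (.g (nat_lit 1450) (.e (nat_lit 1467) (nat_lit 108) (.e (nat_lit 336434) (nat_lit 30) (.e (nat_lit 450564) (nat_lit 0) (.e (nat_lit 5548) (nat_lit 306) (.e (nat_lit 2640) (nat_lit 165) .nil))))) (.g (nat_lit 0) (.e (nat_lit 97702) (nat_lit 0) .nil) .nil))) 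
(.lf (nat_lit 475779) (.g (nat_lit 1614) (.e (nat_lit 1786) (nat_lit 119) (.e (nat_lit 516127) (nat_lit 2) (.e (nat_lit 213032) (nat_lit 11) (.e (nat_lit 24608) (nat_lit 3) (.e (nat_lit 98380) (nat_lit 31) (.e (nat_lit 466945) (nat_lit 0) .nil)))))) (.g (nat_lit 1) (.e (nat_lit 99587) (nat_lit 0) .nil) .nil)))) (.nd (nat_lit 9) 
(.lf (nat_lit 475523) (.g (nat_lit 3554) (.e (nat_lit 1673) (nat_lit 116) (.e (nat_lit 401446) (nat_lit 10) (.e (nat_lit 434238) (nat_lit 25) (.e (nat_lit 548913) (nat_lit 18) (.e (nat_lit 172094) (nat_lit 9) (.e (nat_lit 426125) (nat_lit 2) (.e (nat_lit 196638) (nat_lit 9) .nil))))))) (.g (nat_lit 1) (.e (nat_lit 98862) (nat_lit 0) .nil) .nil))) 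
(.lf (nat_lit 476035) (.g (nat_lit 4637) (.e (nat_lit 1788) (nat_lit 119) (.e (nat_lit 516151) (nat_lit 9) (.e (nat_lit 426286) (nat_lit 10) (.e (nat_lit 434245) (nat_lit 28) (.e (nat_lit 573469) (nat_lit 11) (.e (nat_lit 16472) (nat_lit 14) (.e (nat_lit 491526) (nat_lit 0) .nil))))))) (.g (nat_lit 1) (.e (nat_lit 99944) (nat_lit 0) .nil) .nil)))))) 
(.nd (nat_lit 7) (.nd (nat_lit 8) (.nd (nat_lit 9) 
(.lf (nat_lit 475203) (.g (nat_lit 3355) (.e (nat_lit 1428) (nat_lit 108) (.e (nat_lit 336434) (nat_lit 30) (.e (nat_lit 450564) (nat_lit 0) (.e (nat_lit 5548) (nat_lit 306) (.e (nat_lit 2638) (nat_lit 165) (.e (nat_lit 180278) (nat_lit 32) .nil)))))) (.g (nat_lit 1) (.e (nat_lit 97532) (nat_lit 0) .nil) .nil))) 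
(.lf (nat_lit 475715) (.g (nat_lit 2730) (.e (nat_lit 1781) (nat_lit 119) (.e (nat_lit 516166) (nat_lit 12) (.e (nat_lit 450587) (nat_lit 10) (.e (nat_lit 573478) (nat_lit 12) .nil)))) (.g (nat_lit 0) (.e (nat_lit 99466) (nat_lit 0) .nil) .nil)))) (.nd (nat_lit 9) 
(.lf (nat_lit 475459) (.g (nat_lit 930) (.e (nat_lit 1660) (nat_lit 115) (.e (nat_lit 393271) (nat_lit 23) (.e (nat_lit 426112) (nat_lit 1) (.e (nat_lit 164345) (nat_lit 240) .nil)))) (.g (nat_lit 0) (.e (nat_lit 98508) (nat_lit 0) .nil) .nil))) 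
(.lf (nat_lit 475971) (.g (nat_lit 2815) (.e (nat_lit 1788) (nat_lit 119) (.e (nat_lit 516139) (nat_lit 7) (.e (nat_lit 409648) (nat_lit 18) (.e (nat_lit 303117) (nat_lit 2) (.e (nat_lit 196666) (nat_lit 13) (.e (nat_lit 65599) (nat_lit 9) (.e (nat_lit 335920) (nat_lit 0) .nil))))))) (.g (nat_lit 1) (.e (nat_lit 99867) (nat_lit 0) .nil) .nil))))) (.nd (nat_lit 8) (.nd (nat_lit 9) 
(.lf (nat_lit 475331) (.g (nat_lit 2716) (.e (nat_lit 1586) (nat_lit 111) (.e (nat_lit 360451) (nat_lit 0) (.e (nat_lit 7607) (nat_lit 410) (.e (nat_lit 2630) (nat_lit 164) (.e (nat_lit 172113) (nat_lit 10) (.e (nat_lit 434241) (nat_lit 27) (.e (nat_lit 565252) (nat_lit 0) .nil))))))) (.g (nat_lit 1) (.e (nat_lit 98136) (nat_lit 0) .nil) .nil))) 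
(.lf (nat_lit 475843) (.g (nat_lit 2550) (.e (nat_lit 1787) (nat_lit 119) (.e (nat_lit 516179) (nat_lit 15) (.e (nat_lit 475177) (nat_lit 24) (.e (nat_lit 516146) (nat_lit 9) (.e (nat_lit 426438) (nat_lit 18) .nil))))) (.g (nat_lit 0) (.e (nat_lit 99689) (nat_lit 0) .nil) .nil)))) (.nd (nat_lit 9) 
(.lf (nat_lit 475587) (.g (nat_lit 959) (.e (nat_lit 1676) (nat_lit 116) (.e (nat_lit 401454) (nat_lit 12) (.e (nat_lit 475210) (nat_lit 41) .nil))) (.g (nat_lit 0) (.e (nat_lit 98984) (nat_lit 0) .nil) .nil))) 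
(.lf (nat_lit 476099) (.g (nat_lit 3555) (.e (nat_lit 1788) (nat_lit 119) (.e (nat_lit 516179) (nat_lit 15) (.e (nat_lit 475177) (nat_lit 24) (.e (nat_lit 516179) (nat_lit 15) (.e (nat_lit 475177) (nat_lit 24) (.e (nat_lit 516148) (nat_lit 9) (.e (nat_lit 426402) (nat_lit 15) .nil))))))) (.g (nat_lit 1) (.e (nat_lit 100023) (nat_lit 0) .nil) .nil))))))) 
(.nd (nat_lit 6) (.nd (nat_lit 7) (.nd (nat_lit 8) (.nd (nat_lit 9) 
(.lf (nat_lit 475171) (.g (nat_lit 3009) (.e (nat_lit 1426) (nat_lit 108) (.e (nat_lit 336443) (nat_lit 32) (.e (nat_lit 466971) (nat_lit 21) (.e (nat_lit 164345) (nat_lit 240) (.e (nat_lit 2638) (nat_lit 165) (.e (nat_lit 180278) (nat_lit 32) .nil)))))) (.g (nat_lit 1) (.e (nat_lit 97358) (nat_lit 0) .nil) .nil))) 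
(.lf (nat_lit 475683) (.g (nat_lit 1025) (.e (nat_lit 1781) (nat_lit 119) (.e (nat_lit 516120) (nat_lit 1) (.e (nat_lit 164329) (nat_lit 230) (.e (nat_lit 163941) (nat_lit 19) .nil)))) (.g (nat_lit 0) (.e (nat_lit 99424) (nat_lit 0) .nil) .nil)))) (.nd (nat_lit 9) 
(.lf (nat_lit 475427) (.g (nat_lit 2197) (.e (nat_lit 1643) (nat_lit 114) (.e (nat_lit 385068) (nat_lit 26) (.e (nat_lit 532560) (nat_lit 14) (.e (nat_lit 376842) (nat_lit 11) (.e (nat_lit 426098) (nat_lit 1) .nil))))) (.g (nat_lit 0) (.e (nat_lit 98407) (nat_lit 0) .nil) .nil))) 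
(.lf (nat_lit 475939) (.g (nat_lit 2572) (.e (nat_lit 1788) (nat_lit 119) (.e (nat_lit 516139) (nat_lit 7) (.e (nat_lit 409647) (nat_lit 18) (.e (nat_lit 303118) (nat_lit 3) (.e (nat_lit 204855) (nat_lit 26) (.e (nat_lit 336097) (nat_lit 9) (.e (nat_lit 335923) (nat_lit 0) .nil))))))) (.g (nat_lit 1) (.e (nat_lit 99835) (nat_lit 0) .nil) .nil))))) (.nd (nat_lit 8) (.nd (nat_lit 9) 
(.lf (nat_lit 475299) (.g (nat_lit 2148) (.e (nat_lit 1517) (nat_lit 108) (.e (nat_lit 336429) (nat_lit 29) (.e (nat_lit 442421) (nat_lit 21) (.e (nat_lit 164347) (nat_lit 240) (.e (nat_lit 2638) (nat_lit 165) (.e (nat_lit 180276) (nat_lit 32) .nil)))))) (.g (nat_lit 1) (.e (nat_lit 97950) (nat_lit 0) .nil) .nil))) 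
(.lf (nat_lit 475811) (.g (nat_lit 4064) (.e (nat_lit 1784) (nat_lit 119) (.e (nat_lit 516166) (nat_lit 12) (.e (nat_lit 450587) (nat_lit 10) (.e (nat_lit 573457) (nat_lit 9) .nil)))) (.g (nat_lit 0) (.e (nat_lit 99650) (nat_lit 0) .nil) .nil)))) (.nd (nat_lit 9) 
(.lf (nat_lit 475555) (.g (nat_lit 3546) (.e (nat_lit 1673) (nat_lit 116) (.e (nat_lit 401448) (nat_lit 10) (.e (nat_lit 434238) (nat_lit 25) (.e (nat_lit 548913) (nat_lit 18) (.e (nat_lit 172097) (nat_lit 9) .nil))))) (.g (nat_lit 0) (.e (nat_lit 98897) (nat_lit 0) .nil) .nil))) 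
(.lf (nat_lit 476067) (.g (nat_lit 3289) (.e (nat_lit 1788) (nat_lit 119) (.e (nat_lit 516165) (nat_lit 12) (.e (nat_lit 450588) (nat_lit 10) (.e (nat_lit 573452) (nat_lit 9) (.e (nat_lit 430) (nat_lit 32) (.e (nat_lit 426342) (nat_lit 14) (.e (nat_lit 491526) (nat_lit 0) .nil))))))) (.g (nat_lit 1) (.e (nat_lit 99991) (nat_lit 0) .nil) .nil)))))) 
(.nd (nat_lit 7) (.nd (nat_lit 8) (.nd (nat_lit 9) 
(.lf (nat_lit 475235) (.g (nat_lit 2499) (.e (nat_lit 1449) (nat_lit 108) (.e (nat_lit 336013) (nat_lit 2) (.e (nat_lit 90134) (nat_lit 9) (.e (nat_lit 3025) (nat_lit 187) .nil)))) (.g (nat_lit 0) (.e (nat_lit 97609) (nat_lit 0) .nil) .nil))) 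
(.lf (nat_lit 475747) (.g (nat_lit 4953) (.e (nat_lit 1782) (nat_lit 119) (.e (nat_lit 516166) (nat_lit 12) (.e (nat_lit 450588) (nat_lit 10) (.e (nat_lit 573471) (nat_lit 11) .nil)))) (.g (nat_lit 0) (.e (nat_lit 99520) (nat_lit 0) .nil) .nil)))) (.nd (nat_lit 9) 
(.lf (nat_lit 475491) (.g (nat_lit 5505) (.e (nat_lit 1669) (nat_lit 116) (.e (nat_lit 401451) (nat_lit 12) (.e (nat_lit 475185) (nat_lit 29) (.e (nat_lit 557101) (nat_lit 13) (.e (nat_lit 172097) (nat_lit 9) (.e (nat_lit 426125) (nat_lit 2) (.e (nat_lit 196630) (nat_lit 9) .nil))))))) (.g (nat_lit 1) (.e (nat_lit 98756) (nat_lit 0) .nil) .nil))) 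
(.lf (nat_lit 476003) (.g (nat_lit 3629) (.e (nat_lit 1788) (nat_lit 119) (.e (nat_lit 516139) (nat_lit 7) (.e (nat_lit 409649) (nat_lit 18) (.e (nat_lit 303117) (nat_lit 2) (.e (nat_lit 196666) (nat_lit 13) (.e (nat_lit 65596) (nat_lit 9) (.e (nat_lit 335920) (nat_lit 0) .nil))))))) (.g (nat_lit 1) (.e (nat_lit 99904) (nat_lit 0) .nil) .nil))))) (.nd (nat_lit 8) (.nd (nat_lit 9) 
(.lf (nat_lit 475363) (.g (nat_lit 848) (.e (nat_lit 1591) (nat_lit 111) (.e (nat_lit 360493) (nat_lit 27) (.e (nat_lit 819203) (nat_lit 0) (.e (nat_lit 3015) (nat_lit 187) (.e (nat_lit 458496) (nat_lit 8) .nil))))) (.g (nat_lit 0) (.e (nat_lit 98176) (nat_lit 0) .nil) .nil))) 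
(.lf (nat_lit 475875) (.g (nat_lit 2189) (.e (nat_lit 1788) (nat_lit 119) (.e (nat_lit 516115) (nat_lit 1) (.e (nat_lit 164327) (nat_lit 230) (.e (nat_lit 163903) (nat_lit 12) (.e (nat_lit 426566) (nat_lit 34) (.e (nat_lit 393272) (nat_lit 23) (.e (nat_lit 426402) (nat_lit 15) .nil))))))) (.g (nat_lit 1) (.e (nat_lit 99739) (nat_lit 0) .nil) .nil)))) (.nd (nat_lit 9) 
(.lf (nat_lit 475619) (.g (nat_lit 526) (.e (nat_lit 7936) (nat_lit 121) (.e (nat_lit 532544) (nat_lit 10) (.e (nat_lit 344130) (nat_lit 26) .nil))) (.g (nat_lit 0) (.e (nat_lit 99283) (nat_lit 0) .nil) .nil))) 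
(.lf (nat_lit 476131) (.g (nat_lit 1938) (.e (nat_lit 1791) (nat_lit 119) (.e (nat_lit 516115) (nat_lit 1) (.e (nat_lit 164399) (nat_lit 256) (.e (nat_lit 57379) (nat_lit 3) (.e (nat_lit 98376) (nat_lit 30) .nil))))) (.g (nat_lit 0) (.e (nat_lit 100083) (nat_lit 0) .nil) .nil)))))))) (.nd (nat_lit 5) (.nd (nat_lit 6) (.nd (nat_lit 7) (.nd (nat_lit 8) (.nd (nat_lit 9) 
(.lf (nat_lit 475155) (.g (nat_lit 1982) (.e (nat_lit 1426) (nat_lit 108) (.e (nat_lit 336430) (nat_lit 29) (.e (nat_lit 442421) (nat_lit 21) (.e (nat_lit 164348) (nat_lit 240) (.e (nat_lit 2639) (nat_lit 165) (.e (nat_lit 180277) (nat_lit 32) .nil)))))) (.g (nat_lit 1) (.e (nat_lit 97340) (nat_lit 0) .nil) .nil))) 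
(.lf (nat_lit 475667) (.g (nat_lit 989) (.e (nat_lit 1781) (nat_lit 119) (.e (nat_lit 516117) (nat_lit 1) (.e (nat_lit 164329) (nat_lit 230) .nil))) (.g (nat_lit 0) (.e (nat_lit 99406) (nat_lit 0) .nil) .nil)))) (.nd (nat_lit 9) 
(.lf (nat_lit 475411) (.g (nat_lit 3033) (.e (nat_lit 1638) (nat_lit 114) (.e (nat_lit 385074) (nat_lit 31) (.e (nat_lit 573493) (nat_lit 15) (.e (nat_lit 81956) (nat_lit 23) (.e (nat_lit 106240) (nat_lit 17) .nil))))) (.g (nat_lit 0) (.e (nat_lit 98334) (nat_lit 0) .nil) .nil))) 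
(.lf (nat_lit 475923) (.g (nat_lit 1909) (.e (nat_lit 1788) (nat_lit 119) (.e (nat_lit 516139) (nat_lit 7) (.e (nat_lit 409643) (nat_lit 18) (.e (nat_lit 303118) (nat_lit 3) (.e (nat_lit 204866) (nat_lit 28) .nil))))) (.g (nat_lit 0) (.e (nat_lit 99819) (nat_lit 0) .nil) .nil))))) (.nd (nat_lit 8) (.nd (nat_lit 9) 
(.lf (nat_lit 475283) (.g (nat_lit 3191) (.e (nat_lit 1512) (nat_lit 108) (.e (nat_lit 335874) (nat_lit 0) (.e (nat_lit 6711) (nat_lit 360) (.e (nat_lit 163962) (nat_lit 25) (.e (nat_lit 532535) (nat_lit 9) (.e (nat_lit 336058) (nat_lit 7) (.e (nat_lit 319519) (nat_lit 12) (.e (nat_lit 32779) (nat_lit 5) .nil)))))))) (.g (nat_lit 1) (.e (nat_lit 97724) (nat_lit 0) .nil) .nil))) 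
(.lf (nat_lit 475795) (.g (nat_lit 1942) (.e (nat_lit 1784) (nat_lit 119) (.e (nat_lit 516117) (nat_lit 1) (.e (nat_lit 164329) (nat_lit 230) (.e (nat_lit 163941) (nat_lit 19) (.e (nat_lit 491264) (nat_lit 11) (.e (nat_lit 442377) (nat_lit 0) .nil)))))) (.g (nat_lit 1) (.e (nat_lit 99623) (nat_lit 0) .nil) .nil)))) (.nd (nat_lit 9) 
(.lf (nat_lit 475539) (.g (nat_lit 1496) (.e (nat_lit 1673) (nat_lit 116) (.e (nat_lit 401448) (nat_lit 10) (.e (nat_lit 434227) (nat_lit 20) (.e (nat_lit 507929) (nat_lit 10) .nil)))) (.g (nat_lit 0) (.e (nat_lit 98880) (nat_lit 0) .nil) .nil))) 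
(.lf (nat_lit 476051) (.g (nat_lit 4920) (.e (nat_lit 1788) (nat_lit 119) (.e (nat_lit 516151) (nat_lit 9) (.e (nat_lit 426286) (nat_lit 10) (.e (nat_lit 434248) (nat_lit 28) (.e (nat_lit 573469) (nat_lit 11) (.e (nat_lit 16473) (nat_lit 14) (.e (nat_lit 491520) (nat_lit 0) .nil))))))) (.g (nat_lit 1) (.e (nat_lit 99960) (nat_lit 0) .nil) .nil)))))) 
(.nd (nat_lit 7) (.nd (nat_lit 8) (.nd (nat_lit 9) 
(.lf (nat_lit 475219) (.g (nat_lit 1845) (.e (nat_lit 1433) (nat_lit 108) (.e (nat_lit 336430) (nat_lit 29) (.e (nat_lit 442419) (nat_lit 21) (.e (nat_lit 164348) (nat_lit 240) (.e (nat_lit 2638) (nat_lit 165) (.e (nat_lit 188160) (nat_lit 32) .nil)))))) (.g (nat_lit 1) (.e (nat_lit 97579) (nat_lit 0) .nil) .nil))) 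
(.lf (nat_lit 475731) (.g (nat_lit 2227) (.e (nat_lit 1782) (nat_lit 119) (.e (nat_lit 516115) (nat_lit 1) (.e (nat_lit 164325) (nat_lit 230) (.e (nat_lit 163903) (nat_lit 12) .nil)))) (.g (nat_lit 0) (.e (nat_lit 99490) (nat_lit 0) .nil) .nil)))) (.nd (nat_lit 9) 
(.lf (nat_lit 475475) (.g (nat_lit 3698) (.e (nat_lit 1666) (nat_lit 116) (.e (nat_lit 401451) (nat_lit 12) (.e (nat_lit 475185) (nat_lit 29) (.e (nat_lit 557109) (nat_lit 15) .nil)))) (.g (nat_lit 0) (.e (nat_lit 98612) (nat_lit 0) .nil) .nil))) 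
(.lf (nat_lit 475987) (.g (nat_lit 2538) (.e (nat_lit 1788) (nat_lit 119) (.e (nat_lit 516139) (nat_lit 7) (.e (nat_lit 409648) (nat_lit 18) (.e (nat_lit 303118) (nat_lit 3) (.e (nat_lit 204866) (nat_lit 28) (.e (nat_lit 360192) (nat_lit 20) .nil)))))) (.g (nat_lit 1) (.e (nat_lit 99883) (nat_lit 0) .nil) .nil))))) (.nd (nat_lit 8) (.nd (nat_lit 9) 
(.lf (nat_lit 475347) (.g (nat_lit 2747) (.e (nat_lit 1587) (nat_lit 111) (.e (nat_lit 360474) (nat_lit 8) (.e (nat_lit 557094) (nat_lit 12) (.e (nat_lit 164022) (nat_lit 46) (.e (nat_lit 704629) (nat_lit 9) (.e (nat_lit 452) (nat_lit 33) (.e (nat_lit 434219) (nat_lit 19) (.e (nat_lit 499984) (nat_lit 14) .nil)))))))) (.g (nat_lit 1) (.e (nat_lit 98160) (nat_lit 0) .nil) .nil))) 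
(.lf (nat_lit 475859) (.g (nat_lit 3296) (.e (nat_lit 1790) (nat_lit 119) (.e (nat_lit 516120) (nat_lit 1) (.e (nat_lit 164403) (nat_lit 256) (.e (nat_lit 57373) (nat_lit 2) (.e (nat_lit 90174) (nat_lit 14) .nil))))) (.g (nat_lit 0) (.e (nat_lit 99708) (nat_lit 0) .nil) .nil)))) (.nd (nat_lit 9) 
(.lf (nat_lit 475603) (.g (nat_lit 3055) (.e (nat_lit 1815) (nat_lit 121) (.e (nat_lit 532529) (nat_lit 9) (.e (nat_lit 336326) (nat_lit 18) (.e (nat_lit 204863) (nat_lit 27) (.e (nat_lit 344133) (nat_lit 26) (.e (nat_lit 557098) (nat_lit 13) (.e (nat_lit 179968) (nat_lit 15) .nil))))))) (.g (nat_lit 1) (.e (nat_lit 99077) (nat_lit 0) .nil) .nil))) 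
(.lf (nat_lit 476115) (.g (nat_lit 424) (.e (nat_lit 1788) (nat_lit 119) (.e (nat_lit 516195) (nat_lit 26) (.e (nat_lit 336012) (nat_lit 2) .nil))) (.g (nat_lit 0) (.e (nat_lit 100059) (nat_lit 0) .nil) .nil))))))) (.nd (nat_lit 6) (.nd (nat_lit 7) (.nd (nat_lit 8) (.nd (nat_lit 9) 
(.lf (nat_lit 475187) (.g (nat_lit 4456) (.e (nat_lit 1428) (nat_lit 108) (.e (nat_lit 336324) (nat_lit 18) (.e (nat_lit 204831) (nat_lit 18) (.e (nat_lit 57849) (nat_lit 252) .nil)))) (.g (nat_lit 0) (.e (nat_lit 97508) (nat_lit 0) .nil) .nil))) 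
(.lf (nat_lit 475699) (.g (nat_lit 4882) (.e (nat_lit 1781) (nat_lit 119) (.e (nat_lit 516151) (nat_lit 9) (.e (nat_lit 426211) (nat_lit 9) (.e (nat_lit 426125) (nat_lit 2) (.e (nat_lit 196617) (nat_lit 9) .nil))))) (.g (nat_lit 0) (.e (nat_lit 99448) (nat_lit 0) .nil) .nil)))) (.nd (nat_lit 9) 
(.lf (nat_lit 475443) (.g (nat_lit 2557) (.e (nat_lit 1658) (nat_lit 115) (.e (nat_lit 393281) (nat_lit 23) (.e (nat_lit 426107) (nat_lit 1) (.e (nat_lit 164347) (nat_lit 240) (.e (nat_lit 2638) (nat_lit 165) (.e (nat_lit 180278) (nat_lit 32) .nil)))))) (.g (nat_lit 1) (.e (nat_lit 98451) (nat_lit 0) .nil) .nil))) 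
(.lf (nat_lit 475955) (.g (nat_lit 2862) (.e (nat_lit 1788) (nat_lit 119) (.e (nat_lit 516139) (nat_lit 7) (.e (nat_lit 409648) (nat_lit 18) (.e (nat_lit 303116) (nat_lit 2) (.e (nat_lit 196666) (nat_lit 13) (.e (nat_lit 65599) (nat_lit 9) (.e (nat_lit 335886) (nat_lit 0) .nil))))))) (.g (nat_lit 1) (.e (nat_lit 99851) (nat_lit 0) .nil) .nil))))) (.nd (nat_lit 8) (.nd (nat_lit 9) 
(.lf (nat_lit 475315) (.g (nat_lit 2121) (.e (nat_lit 1572) (nat_lit 110) (.e (nat_lit 352277) (nat_lit 11) (.e (nat_lit 426343) (nat_lit 14) (.e (nat_lit 491558) (nat_lit 10) (.e (nat_lit 344177) (nat_lit 43) .nil))))) (.g (nat_lit 0) (.e (nat_lit 98076) (nat_lit 0) .nil) .nil))) 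
(.lf (nat_lit 475827) (.g (nat_lit 2163) (.e (nat_lit 1787) (nat_lit 119) (.e (nat_lit 516115) (nat_lit 1) (.e (nat_lit 164399) (nat_lit 256) (.e (nat_lit 57372) (nat_lit 2) (.e (nat_lit 90172) (nat_lit 14) .nil))))) (.g (nat_lit 0) (.e (nat_lit 99671) (nat_lit 0) .nil) .nil)))) (.nd (nat_lit 9) 
(.lf (nat_lit 475571) (.g (nat_lit 2645) (.e (nat_lit 1673) (nat_lit 116) (.e (nat_lit 401448) (nat_lit 10) (.e (nat_lit 434272) (nat_lit 38) (.e (nat_lit 655364) (nat_lit 0) (.e (nat_lit 3015) (nat_lit 187) (.e (nat_lit 450597) (nat_lit 17) (.e (nat_lit 663555) (nat_lit 0) .nil))))))) (.g (nat_lit 1) (.e (nat_lit 98917) (nat_lit 0) .nil) .nil))) 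
(.lf (nat_lit 476083) (.g (nat_lit 4480) (.e (nat_lit 1788) (nat_lit 119) (.e (nat_lit 516166) (nat_lit 12) (.e (nat_lit 450588) (nat_lit 10) (.e (nat_lit 573451) (nat_lit 9) (.e (nat_lit 430) (nat_lit 32) (.e (nat_lit 426344) (nat_lit 14) (.e (nat_lit 491526) (nat_lit 0) .nil))))))) (.g (nat_lit 1) (.e (nat_lit 100007) (nat_lit 0) .nil) .nil)))))) 
(.nd (nat_lit 7) (.nd (nat_lit 8) (.nd (nat_lit 9) 
(.lf (nat_lit 475251) (.g (nat_lit 4843) (.e (nat_lit 1454) (nat_lit 108) (.e (nat_lit 336013) (nat_lit 2) (.e (nat_lit 90170) (nat_lit 13) (.e (nat_lit 172113) (nat_lit 10) (.e (nat_lit 434248) (nat_lit 28) (.e (nat_lit 573475) (nat_lit 12) (.e (nat_lit 57569) (nat_lit 53) (.e (nat_lit 761866) (nat_lit 5) .nil)))))))) (.g (nat_lit 1) (.e (nat_lit 97645) (nat_lit 0) .nil) .nil))) 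
(.lf (nat_lit 475763) (.g (nat_lit 2722) (.e (nat_lit 1786) (nat_lit 119) (.e (nat_lit 516115) (nat_lit 1) (.e (nat_lit 164325) (nat_lit 230) (.e (nat_lit 163903) (nat_lit 12) (.e (nat_lit 426479) (nat_lit 27) .nil))))) (.g (nat_lit 0) (.e (nat_lit 99550) (nat_lit 0) .nil) .nil)))) (.nd (nat_lit 9) 
(.lf (nat_lit 475507) (.g (nat_lit 4419) (.e (nat_lit 1669) (nat_lit 116) (.e (nat_lit 401459) (nat_lit 13) (.e (nat_lit 483372) (nat_lit 21) (.e (nat_lit 319534) (nat_lit 16) (.e (nat_lit 286728) (nat_lit 0) .nil))))) (.g (nat_lit 0) (.e (nat_lit 98797) (nat_lit 0) .nil) .nil))) 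
(.lf (nat_lit 476019) (.g (nat_lit 2884) (.e (nat_lit 1788) (nat_lit 119) (.e (nat_lit 516139) (nat_lit 7) (.e (nat_lit 409649) (nat_lit 18) (.e (nat_lit 303118) (nat_lit 3) (.e (nat_lit 204855) (nat_lit 26) (.e (nat_lit 336102) (nat_lit 9) (.e (nat_lit 335920) (nat_lit 0) .nil))))))) (.g (nat_lit 1) (.e (nat_lit 99920) (nat_lit 0) .nil) .nil))))) (.nd (nat_lit 8) (.nd (nat_lit 9) 
(.lf (nat_lit 475379) (.g (nat_lit 3799) (.e (nat_lit 1633) (nat_lit 114) (.e (nat_lit 385074) (nat_lit 31) (.e (nat_lit 573484) (nat_lit 13) (.e (nat_lit 65610) (nat_lit 10) (.e (nat_lit 344129) (nat_lit 26) (.e (nat_lit 557067) (nat_lit 9) (.e (nat_lit 20) (nat_lit 0) (.e (nat_lit 6475) (nat_lit 343) .nil)))))))) (.g (nat_lit 1) (.e (nat_lit 98257) (nat_lit 0) .nil) .nil))) 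
(.lf (nat_lit 475891) (.g (nat_lit 3000) (.e (nat_lit 1788) (nat_lit 119) (.e (nat_lit 516117) (nat_lit 1) (.e (nat_lit 164330) (nat_lit 230) (.e (nat_lit 163941) (nat_lit 19) (.e (nat_lit 483341) (nat_lit 9) (.e (nat_lit 426198) (nat_lit 9) (.e (nat_lit 426402) (nat_lit 15) .nil))))))) (.g (nat_lit 1) (.e (nat_lit 99766) (nat_lit 0) .nil) .nil)))) (.nd (nat_lit 9) 
(.lf (nat_lit 475635) (.g (nat_lit 1219) (.e (nat_lit 7936) (nat_lit 121) (.e (nat_lit 532544) (nat_lit 10) (.e (nat_lit 344133) (nat_lit 26) (.e (nat_lit 557105) (nat_lit 14) .nil)))) (.g (nat_lit 0) (.e (nat_lit 99299) (nat_lit 0) .nil) .nil))) 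
(.lf (nat_lit 476147) (.g (nat_lit 2525) (.e (nat_lit 1792) (nat_lit 119) (.e (nat_lit 516116) (nat_lit 1) (.e (nat_lit 164398) (nat_lit 256) (.e (nat_lit 57372) (nat_lit 2) (.e (nat_lit 90174) (nat_lit 14) .nil))))) (.g (nat_lit 0) (.e (nat_lit 100107) (nat_lit 0) .nil) .nil))))))))) (.nd (nat_lit 4) (.nd (nat_lit 5) (.nd (nat_lit 6) (.nd (nat_lit 7) (.nd (nat_lit 8) (.nd (nat_lit 9) 
(.lf (nat_lit 475147) (.g (nat_lit 2158) (.e (nat_lit 1426) (nat_lit 108) (.e (nat_lit 336430) (nat_lit 29) (.e (nat_lit 442419) (nat_lit 21) (.e (nat_lit 164348) (nat_lit 240) (.e (nat_lit 2639) (nat_lit 165) (.e (nat_lit 180278) (nat_lit 32) .nil)))))) (.g (nat_lit 1) (.e (nat_lit 97332) (nat_lit 0) .nil) .nil))) 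
(.lf (nat_lit 475659) (.g (nat_lit 2674) (.e (nat_lit 1780) (nat_lit 119) (.e (nat_lit 516166) (nat_lit 12) (.e (nat_lit 450587) (nat_lit 10) (.e (nat_lit 573477) (nat_lit 12) .nil)))) (.g (nat_lit 0) (.e (nat_lit 99392) (nat_lit 0) .nil) .nil)))) (.nd (nat_lit 9) 
(.lf (nat_lit 475403) (.g (nat_lit 2351) (.e (nat_lit 1638) (nat_lit 114) (.e (nat_lit 385068) (nat_lit 26) (.e (nat_lit 532558) (nat_lit 14) (.e (nat_lit 376842) (nat_lit 11) (.e (nat_lit 426107) (nat_lit 1) .nil))))) (.g (nat_lit 0) (.e (nat_lit 98311) (nat_lit 0) .nil) .nil))) 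
(.lf (nat_lit 475915) (.g (nat_lit 1807) (.e (nat_lit 1788) (nat_lit 119) (.e (nat_lit 516139) (nat_lit 7) (.e (nat_lit 409602) (nat_lit 0) (.e (nat_lit 5259) (nat_lit 298) .nil)))) (.g (nat_lit 0) (.e (nat_lit 99805) (nat_lit 0) .nil) .nil))))) (.nd (nat_lit 8) (.nd (nat_lit 9) 
(.lf (nat_lit 475275) (.g (nat_lit 1576) (.e (nat_lit 1471) (nat_lit 108) (.e (nat_lit 336442) (nat_lit 32) (.e (nat_lit 466971) (nat_lit 21) (.e (nat_lit 164348) (nat_lit 240) (.e (nat_lit 2640) (nat_lit 165) (.e (nat_lit 188160) (nat_lit 32) .nil)))))) (.g (nat_lit 1) (.e (nat_lit 97714) (nat_lit 0) .nil) .nil))) 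
(.lf (nat_lit 475787) (.g (nat_lit 4368) (.e (nat_lit 1786) (nat_lit 119) (.e (nat_lit 516166) (nat_lit 12) (.e (nat_lit 450588) (nat_lit 10) (.e (nat_lit 573475) (nat_lit 12) (.e (nat_lit 57351) (nat_lit 0) .nil))))) (.g (nat_lit 0) (.e (nat_lit 99606) (nat_lit 0) .nil) .nil)))) (.nd (nat_lit 9) 
(.lf (nat_lit 475531) (.g (nat_lit 1848) (.e (nat_lit 1673) (nat_lit 116) (.e (nat_lit 401447) (nat_lit 10) (.e (nat_lit 434238) (nat_lit 25) (.e (nat_lit 548898) (nat_lit 14) (.e (nat_lit 3027) (nat_lit 187) .nil))))) (.g (nat_lit 0) (.e (nat_lit 98871) (nat_lit 0) .nil) .nil))) 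
(.lf (nat_lit 476043) (.g (nat_lit 4949) (.e (nat_lit 1788) (nat_lit 119) (.e (nat_lit 516151) (nat_lit 9) (.e (nat_lit 426286) (nat_lit 10) (.e (nat_lit 434245) (nat_lit 28) (.e (nat_lit 573471) (nat_lit 11) (.e (nat_lit 16473) (nat_lit 14) (.e (nat_lit 491520) (nat_lit 0) .nil))))))) (.g (nat_lit 1) (.e (nat_lit 99952) (nat_lit 0) .nil) .nil)))))) 
(.nd (nat_lit 7) (.nd (nat_lit 8) (.nd (nat_lit 9) 
(.lf (nat_lit 475211) (.g (nat_lit 2030) (.e (nat_lit 1432) (nat_lit 108) (.e (nat_lit 336454) (nat_lit 34) (.e (nat_lit 483383) (nat_lit 23) (.e (nat_lit 336019) (nat_lit 3) .nil)))) (.g (nat_lit 0) (.e (nat_lit 97553) (nat_lit 0) .nil) .nil))) 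
(.lf (nat_lit 475723) (.g (nat_lit 2514) (.e (nat_lit 1781) (nat_lit 119) (.e (nat_lit 516179) (nat_lit 15) (.e (nat_lit 475177) (nat_lit 24) (.e (nat_lit 516150) (nat_lit 9) (.e (nat_lit 426438) (nat_lit 18) .nil))))) (.g (nat_lit 0) (.e (nat_lit 99474) (nat_lit 0) .nil) .nil)))) (.nd (nat_lit 9) 
(.lf (nat_lit 475467) (.g (nat_lit 383) (.e (nat_lit 1661) (nat_lit 115) (.e (nat_lit 393238) (nat_lit 17) (.e (nat_lit 6970) (nat_lit 377) .nil))) (.g (nat_lit 0) (.e (nat_lit 98533) (nat_lit 0) .nil) .nil))) 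
(.lf (nat_lit 475979) (.g (nat_lit 4706) (.e (nat_lit 1788) (nat_lit 119) (.e (nat_lit 516139) (nat_lit 7) (.e (nat_lit 409648) (nat_lit 18) (.e (nat_lit 303118) (nat_lit 3) (.e (nat_lit 204866) (nat_lit 28) (.e (nat_lit 352280) (nat_lit 20) .nil)))))) (.g (nat_lit 1) (.e (nat_lit 99875) (nat_lit 0) .nil) .nil))))) (.nd (nat_lit 8) (.nd (nat_lit 9) 
(.lf (nat_lit 475339) (.g (nat_lit 3917) (.e (nat_lit 1587) (nat_lit 111) (.e (nat_lit 360474) (nat_lit 8) (.e (nat_lit 557093) (nat_lit 12) (.e (nat_lit 164022) (nat_lit 46) (.e (nat_lit 704629) (nat_lit 9) (.e (nat_lit 452) (nat_lit 33) (.e (nat_lit 434219) (nat_lit 19) (.e (nat_lit 499981) (nat_lit 14) .nil)))))))) (.g (nat_lit 1) (.e (nat_lit 98152) (nat_lit 0) .nil) .nil))) 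
(.lf (nat_lit 475851) (.g (nat_lit 1953) (.e (nat_lit 1790) (nat_lit 119) (.e (nat_lit 516115) (nat_lit 1) (.e (nat_lit 164399) (nat_lit 256) (.e (nat_lit 57379) (nat_lit 3) (.e (nat_lit 98376) (nat_lit 30) .nil))))) (.g (nat_lit 0) (.e (nat_lit 99699) (nat_lit 0) .nil) .nil)))) (.nd (nat_lit 9) 
(.lf (nat_lit 475595) (.g (nat_lit 2171) (.e (nat_lit 1682) (nat_lit 117) (.e (nat_lit 499919) (nat_lit 9) (.e (nat_lit 172113) (nat_lit 10) (.e (nat_lit 434247) (nat_lit 28) (.e (nat_lit 573477) (nat_lit 12) .nil))))) (.g (nat_lit 0) (.e (nat_lit 98994) (nat_lit 0) .nil) .nil))) 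
(.lf (nat_lit 476107) (.g (nat_lit 3436) (.e (nat_lit 1788) (nat_lit 119) (.e (nat_lit 516179) (nat_lit 15) (.e (nat_lit 475199) (nat_lit 40) (.e (nat_lit 704589) (nat_lit 3) (.e (nat_lit 163979) (nat_lit 30) (.e (nat_lit 573491) (nat_lit 15) (.e (nat_lit 81941) (nat_lit 20) .nil))))))) (.g (nat_lit 1) (.e (nat_lit 100039) (nat_lit 0) .nil) .nil))))))) 
(.nd (nat_lit 6) (.nd (nat_lit 7) (.nd (nat_lit 8) (.nd (nat_lit 9) 
(.lf (nat_lit 475179) (.g (nat_lit 3442) (.e (nat_lit 1427) (nat_lit 108) (.e (nat_lit 336432) (nat_lit 30) (.e (nat_lit 450565) (nat_lit 0) (.e (nat_lit 5548) (nat_lit 306) (.e (nat_lit 2638) (nat_lit 165) (.e (nat_lit 180277) (nat_lit 32) .nil)))))) (.g (nat_lit 1) (.e (nat_lit 97480) (nat_lit 0) .nil) .nil))) 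
(.lf (nat_lit 475691) (.g (nat_lit 2626) (.e (nat_lit 1781) (nat_lit 119) (.e (nat_lit 516130) (nat_lit 3) (.e (nat_lit 221208) (nat_lit 21) (.e (nat_lit 164182) (nat_lit 154) (.e (nat_lit 57375) (nat_lit 2) (.e (nat_lit 90196) (nat_lit 18) (.e (nat_lit 2798) (nat_lit 180) (.e (nat_lit 303133) (nat_lit 9) (.e (nat_lit 426412) (nat_lit 15) .nil))))))))) (.g (nat_lit 1) (.e (nat_lit 99432) (nat_lit 0) .nil) .nil)))) 
(.nd (nat_lit 9) 
(.lf (nat_lit 475435) (.g (nat_lit 1660) (.e (nat_lit 1656) (nat_lit 115) (.e (nat_lit 393289) (nat_lit 25) (.e (nat_lit 458774) (nat_lit 18) (.e (nat_lit 5548) (nat_lit 306) (.e (nat_lit 2638) (nat_lit 165) (.e (nat_lit 188160) (nat_lit 32) .nil)))))) (.g (nat_lit 1) (.e (nat_lit 98436) (nat_lit 0) .nil) .nil))) 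
(.lf (nat_lit 475947) (.g (nat_lit 260) (.e (nat_lit 1788) (nat_lit 119) (.e (nat_lit 516139) (nat_lit 7) (.e (nat_lit 409648) (nat_lit 18) .nil))) (.g (nat_lit 0) (.e (nat_lit 99843) (nat_lit 0) .nil) .nil))))) (.nd (nat_lit 8) (.nd (nat_lit 9) 
(.lf (nat_lit 475307) (.g (nat_lit 1380) (.e (nat_lit 1533) (nat_lit 109) (.e (nat_lit 344068) (nat_lit 0) (.e (nat_lit 3090) (nat_lit 191) (.e (nat_lit 483403) (nat_lit 26) .nil)))) (.g (nat_lit 0) (.e (nat_lit 98000) (nat_lit 0) .nil) .nil))) 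
(.lf (nat_lit 475819) (.g (nat_lit 1423) (.e (nat_lit 1785) (nat_lit 119) (.e (nat_lit 516117) (nat_lit 1) (.e (nat_lit 164329) (nat_lit 230) .nil))) (.g (nat_lit 0) (.e (nat_lit 99661) (nat_lit 0) .nil) .nil)))) (.nd (nat_lit 9) 
(.lf (nat_lit 475563) (.g (nat_lit 1481) (.e (nat_lit 1673) (nat_lit 116) (.e (nat_lit 401448) (nat_lit 10) (.e (nat_lit 434271) (nat_lit 38) (.e (nat_lit 655363) (nat_lit 0) (.e (nat_lit 3015) (nat_lit 187) .nil))))) (.g (nat_lit 0) (.e (nat_lit 98909) (nat_lit 0) .nil) .nil))) 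
(.lf (nat_lit 476075) (.g (nat_lit 3295) (.e (nat_lit 1788) (nat_lit 119) (.e (nat_lit 516166) (nat_lit 12) (.e (nat_lit 450587) (nat_lit 10) (.e (nat_lit 573475) (nat_lit 12) .nil)))) (.g (nat_lit 0) (.e (nat_lit 99999) (nat_lit 0) .nil) .nil)))))) (.nd (nat_lit 7) (.nd (nat_lit 8) (.nd (nat_lit 9) 
(.lf (nat_lit 475243) (.g (nat_lit 2578) (.e (nat_lit 1454) (nat_lit 108) (.e (nat_lit 336013) (nat_lit 2) (.e (nat_lit 90170) (nat_lit 13) (.e (nat_lit 172113) (nat_lit 10) (.e (nat_lit 434242) (nat_lit 28) (.e (nat_lit 573473) (nat_lit 12) (.e (nat_lit 57569) (nat_lit 53) (.e (nat_lit 761866) (nat_lit 5) .nil)))))))) (.g (nat_lit 1) (.e (nat_lit 97637) (nat_lit 0) .nil) .nil))) 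
(.lf (nat_lit 475755) (.g (nat_lit 2779) (.e (nat_lit 1783) (nat_lit 119) (.e (nat_lit 516119) (nat_lit 1) (.e (nat_lit 164403) (nat_lit 256) (.e (nat_lit 57373) (nat_lit 2) (.e (nat_lit 90172) (nat_lit 14) .nil))))) (.g (nat_lit 0) (.e (nat_lit 99534) (nat_lit 0) .nil) .nil)))) (.nd (nat_lit 9) 
(.lf (nat_lit 475499) (.g (nat_lit 3075) (.e (nat_lit 1669) (nat_lit 116) (.e (nat_lit 401456) (nat_lit 13) (.e (nat_lit 483413) (nat_lit 27) (.e (nat_lit 401448) (nat_lit 10) (.e (nat_lit 434201) (nat_lit 18) .nil))))) (.g (nat_lit 0) (.e (nat_lit 98788) (nat_lit 0) .nil) .nil))) 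
(.lf (nat_lit 476011) (.g (nat_lit 1406) (.e (nat_lit 1788) (nat_lit 119) (.e (nat_lit 516139) (nat_lit 7) (.e (nat_lit 409649) (nat_lit 18) (.e (nat_lit 303118) (nat_lit 3) .nil)))) (.g (nat_lit 0) (.e (nat_lit 99912) (nat_lit 0) .nil) .nil))))) (.nd (nat_lit 8) (.nd (nat_lit 9) 
(.lf (nat_lit 475371) (.g (nat_lit 1793) (.e (nat_lit 1598) (nat_lit 111) (.e (nat_lit 360449) (nat_lit 0) (.e (nat_lit 7607) (nat_lit 410) (.e (nat_lit 2651) (nat_lit 166) (.e (nat_lit 188439) (nat_lit 20) (.e (nat_lit 3289) (nat_lit 201) (.e (nat_lit 565251) (nat_lit 0) .nil))))))) (.g (nat_lit 1) (.e (nat_lit 98194) (nat_lit 0) .nil) .nil))) 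
(.lf (nat_lit 475883) (.g (nat_lit 2147) (.e (nat_lit 1788) (nat_lit 119) (.e (nat_lit 516116) (nat_lit 1) (.e (nat_lit 164329) (nat_lit 230) (.e (nat_lit 163941) (nat_lit 19) (.e (nat_lit 483341) (nat_lit 9) (.e (nat_lit 426200) (nat_lit 9) (.e (nat_lit 426399) (nat_lit 15) .nil))))))) (.g (nat_lit 1) (.e (nat_lit 99751) (nat_lit 0) .nil) .nil)))) (.nd (nat_lit 9) 
(.lf (nat_lit 475627) (.g (nat_lit 2433) (.e (nat_lit 7936) (nat_lit 121) (.e (nat_lit 532544) (nat_lit 10) (.e (nat_lit 344133) (nat_lit 26) (.e (nat_lit 557098) (nat_lit 13) (.e (nat_lit 172062) (nat_lit 2) .nil))))) (.g (nat_lit 0) (.e (nat_lit 99291) (nat_lit 0) .nil) .nil))) 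
(.lf (nat_lit 476139) (.g (nat_lit 3608) (.e (nat_lit 1792) (nat_lit 119) (.e (nat_lit 516115) (nat_lit 1) (.e (nat_lit 164325) (nat_lit 230) (.e (nat_lit 163904) (nat_lit 12) .nil)))) (.g (nat_lit 0) (.e (nat_lit 100095) (nat_lit 0) .nil) .nil)))))))) (.nd (nat_lit 5) (.nd (nat_lit 6) (.nd (nat_lit 7) (.nd (nat_lit 8) (.nd (nat_lit 9) 
(.lf (nat_lit 475163) (.g (nat_lit 899) (.e (nat_lit 1426) (nat_lit 108) (.e (nat_lit 336430) (nat_lit 29) (.e (nat_lit 442430) (nat_lit 24) (.e (nat_lit 229666) (nat_lit 240) .nil)))) (.g (nat_lit 0) (.e (nat_lit 97348) (nat_lit 0) .nil) .nil))) 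
(.lf (nat_lit 475675) (.g (nat_lit 2247) (.e (nat_lit 1781) (nat_lit 119) (.e (nat_lit 516119) (nat_lit 1) (.e (nat_lit 164403) (nat_lit 256) (.e (nat_lit 57371) (nat_lit 2) (.e (nat_lit 90172) (nat_lit 14) .nil))))) (.g (nat_lit 0) (.e (nat_lit 99415) (nat_lit 0) .nil) .nil)))) (.nd (nat_lit 9) 
(.lf (nat_lit 475419) (.g (nat_lit 2405) (.e (nat_lit 1642) (nat_lit 114) (.e (nat_lit 385074) (nat_lit 31) (.e (nat_lit 573484) (nat_lit 13) (.e (nat_lit 65619) (nat_lit 10) .nil)))) (.g (nat_lit 0) (.e (nat_lit 98394) (nat_lit 0) .nil) .nil))) 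
(.lf (nat_lit 475931) (.g (nat_lit 3624) (.e (nat_lit 1788) (nat_lit 119) (.e (nat_lit 516139) (nat_lit 7) (.e (nat_lit 409645) (nat_lit 18) (.e (nat_lit 303119) (nat_lit 3) (.e (nat_lit 204866) (nat_lit 28) (.e (nat_lit 352280) (nat_lit 20) .nil)))))) (.g (nat_lit 1) (.e (nat_lit 99827) (nat_lit 0) .nil) .nil))))) (.nd (nat_lit 8) (.nd (nat_lit 9) 
(.lf (nat_lit 475291) (.g (nat_lit 2775) (.e (nat_lit 1513) (nat_lit 108) (.e (nat_lit 336235) (nat_lit 14) (.e (nat_lit 401425) (nat_lit 2) (.e (nat_lit 196666) (nat_lit 13) (.e (nat_lit 65628) (nat_lit 14) .nil))))) (.g (nat_lit 0) (.e (nat_lit 97805) (nat_lit 0) .nil) .nil))) 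
(.lf (nat_lit 475803) (.g (nat_lit 1689) (.e (nat_lit 1784) (nat_lit 119) (.e (nat_lit 516124) (nat_lit 2) (.e (nat_lit 213032) (nat_lit 11) (.e (nat_lit 24604) (nat_lit 2) (.e (nat_lit 90176) (nat_lit 15) .nil))))) (.g (nat_lit 0) (.e (nat_lit 99637) (nat_lit 0) .nil) .nil)))) (.nd (nat_lit 9) 
(.lf (nat_lit 475547) (.g (nat_lit 2077) (.e (nat_lit 1673) (nat_lit 116) (.e (nat_lit 401448) (nat_lit 10) (.e (nat_lit 434238) (nat_lit 25) (.e (nat_lit 548898) (nat_lit 14) (.e (nat_lit 3027) (nat_lit 187) .nil))))) (.g (nat_lit 0) (.e (nat_lit 98889) (nat_lit 0) .nil) .nil))) 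
(.lf (nat_lit 476059) (.g (nat_lit 4910) (.e (nat_lit 1788) (nat_lit 119) (.e (nat_lit 516151) (nat_lit 9) (.e (nat_lit 426286) (nat_lit 10) (.e (nat_lit 434248) (nat_lit 28) (.e (nat_lit 573471) (nat_lit 11) (.e (nat_lit 16473) (nat_lit 14) (.e (nat_lit 491520) (nat_lit 0) .nil))))))) (.g (nat_lit 1) (.e (nat_lit 99968) (nat_lit 0) .nil) .nil)))))) 
(.nd (nat_lit 7) (.nd (nat_lit 8) (.nd (nat_lit 9) 
(.lf (nat_lit 475227) (.g (nat_lit 786) (.e (nat_lit 1433) (nat_lit 108) (.e (nat_lit 336454) (nat_lit 34) (.e (nat_lit 483408) (nat_lit 26) .nil))) (.g (nat_lit 0) (.e (nat_lit 97587) (nat_lit 0) .nil) .nil))) 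
(.lf (nat_lit 475739) (.g (nat_lit 1620) (.e (nat_lit 1782) (nat_lit 119) (.e (nat_lit 516120) (nat_lit 1) (.e (nat_lit 164329) (nat_lit 230) (.e (nat_lit 163941) (nat_lit 19) (.e (nat_lit 491264) (nat_lit 14) .nil))))) (.g (nat_lit 0) (.e (nat_lit 99508) (nat_lit 0) .nil) .nil)))) (.nd (nat_lit 9) 
(.lf (nat_lit 475483) (.g (nat_lit 4096) (.e (nat_lit 1668) (nat_lit 116) (.e (nat_lit 401451) (nat_lit 12) (.e (nat_lit 475185) (nat_lit 29) (.e (nat_lit 557109) (nat_lit 15) .nil)))) (.g (nat_lit 0) (.e (nat_lit 98635) (nat_lit 0) .nil) .nil))) 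
(.lf (nat_lit 475995) (.g (nat_lit 2805) (.e (nat_lit 1788) (nat_lit 119) (.e (nat_lit 516139) (nat_lit 7) (.e (nat_lit 409649) (nat_lit 18) (.e (nat_lit 303116) (nat_lit 2) (.e (nat_lit 196666) (nat_lit 13) (.e (nat_lit 65599) (nat_lit 9) (.e (nat_lit 335922) (nat_lit 0) .nil))))))) (.g (nat_lit 1) (.e (nat_lit 99896) (nat_lit 0) .nil) .nil))))) (.nd (nat_lit 8) (.nd (nat_lit 9) 
(.lf (nat_lit 475355) (.g (nat_lit 3405) (.e (nat_lit 1587) (nat_lit 111) (.e (nat_lit 360475) (nat_lit 8) (.e (nat_lit 557091) (nat_lit 12) (.e (nat_lit 164022) (nat_lit 46) (.e (nat_lit 704629) (nat_lit 9) (.e (nat_lit 452) (nat_lit 33) (.e (nat_lit 434219) (nat_lit 19) (.e (nat_lit 499980) (nat_lit 14) .nil)))))))) (.g (nat_lit 1) (.e (nat_lit 98168) (nat_lit 0) .nil) .nil))) 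
(.lf (nat_lit 475867) (.g (nat_lit 2834) (.e (nat_lit 1788) (nat_lit 119) (.e (nat_lit 516115) (nat_lit 1) (.e (nat_lit 164325) (nat_lit 230) (.e (nat_lit 163903) (nat_lit 12) (.e (nat_lit 426566) (nat_lit 34) (.e (nat_lit 393272) (nat_lit 23) (.e (nat_lit 426402) (nat_lit 15) .nil))))))) (.g (nat_lit 1) (.e (nat_lit 99726) (nat_lit 0) .nil) .nil)))) (.nd (nat_lit 9) 
(.lf (nat_lit 475611) (.g (nat_lit 529) (.e (nat_lit 7936) (nat_lit 121) (.e (nat_lit 532544) (nat_lit 10) (.e (nat_lit 344123) (nat_lit 24) .nil))) (.g (nat_lit 0) (.e (nat_lit 99274) (nat_lit 0) .nil) .nil))) 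
(.lf (nat_lit 476123) (.g (nat_lit 3695) (.e (nat_lit 1791) (nat_lit 119) (.e (nat_lit 516115) (nat_lit 1) (.e (nat_lit 164325) (nat_lit 230) (.e (nat_lit 163904) (nat_lit 12) .nil)))) (.g (nat_lit 0) (.e (nat_lit 100074) (nat_lit 0) .nil) .nil))))))) (.nd (nat_lit 6) (.nd (nat_lit 7) (.nd (nat_lit 8) (.nd (nat_lit 9) 
(.lf (nat_lit 475195) (.g (nat_lit 460) (.e (nat_lit 1428) (nat_lit 108) (.e (nat_lit 336430) (nat_lit 29) (.e (nat_lit 442377) (nat_lit 0) .nil))) (.g (nat_lit 0) (.e (nat_lit 97520) (nat_lit 0) .nil) .nil))) 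
(.lf (nat_lit 475707) (.g (nat_lit 2712) (.e (nat_lit 1781) (nat_lit 119) (.e (nat_lit 516151) (nat_lit 9) (.e (nat_lit 426211) (nat_lit 9) (.e (nat_lit 426136) (nat_lit 3) .nil)))) (.g (nat_lit 0) (.e (nat_lit 99456) (nat_lit 0) .nil) .nil)))) (.nd (nat_lit 9) 
(.lf (nat_lit 475451) (.g (nat_lit 622) (.e (nat_lit 1659) (nat_lit 115) (.e (nat_lit 393273) (nat_lit 23) (.e (nat_lit 426364) (nat_lit 15) .nil))) (.g (nat_lit 0) (.e (nat_lit 98473) (nat_lit 0) .nil) .nil))) 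
(.lf (nat_lit 475963) (.g (nat_lit 2566) (.e (nat_lit 1788) (nat_lit 119) (.e (nat_lit 516139) (nat_lit 7) (.e (nat_lit 409648) (nat_lit 18) (.e (nat_lit 303117) (nat_lit 2) (.e (nat_lit 196666) (nat_lit 13) (.e (nat_lit 65596) (nat_lit 9) (.e (nat_lit 335919) (nat_lit 0) .nil))))))) (.g (nat_lit 1) (.e (nat_lit 99859) (nat_lit 0) .nil) .nil))))) (.nd (nat_lit 8) (.nd (nat_lit 9) 
(.lf (nat_lit 475323) (.g (nat_lit 699) (.e (nat_lit 1582) (nat_lit 111) (.e (nat_lit 360493) (nat_lit 27) (.e (nat_lit 819203) (nat_lit 0) (.e (nat_lit 3016) (nat_lit 187) (.e (nat_lit 458496) (nat_lit 8) .nil))))) (.g (nat_lit 0) (.e (nat_lit 98110) (nat_lit 0) .nil) .nil))) 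
(.lf (nat_lit 475835) (.g (nat_lit 1306) (.e (nat_lit 1787) (nat_lit 119) (.e (nat_lit 516120) (nat_lit 1) (.e (nat_lit 164329) (nat_lit 230) .nil))) (.g (nat_lit 0) (.e (nat_lit 99679) (nat_lit 0) .nil) .nil)))) (.nd (nat_lit 9) 
(.lf (nat_lit 475579) (.g (nat_lit 1178) (.e (nat_lit 1674) (nat_lit 116) (.e (nat_lit 401459) (nat_lit 13) (.e (nat_lit 483363) (nat_lit 18) .nil))) (.g (nat_lit 0) (.e (nat_lit 98931) (nat_lit 0) .nil) .nil))) 
(.lf (nat_lit 476091) (.g (nat_lit 3270) (.e (nat_lit 1788) (nat_lit 119) (.e (nat_lit 516166) (nat_lit 12) (.e (nat_lit 450588) (nat_lit 10) (.e (nat_lit 573473) (nat_lit 12) (.e (nat_lit 57354) (nat_lit 0) .nil))))) (.g (nat_lit 0) (.e (nat_lit 100015) (nat_lit 0) .nil) .nil)))))) (.nd (nat_lit 7) (.nd (nat_lit 8) (.nd (nat_lit 9) 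
(.lf (nat_lit 475259) (.g (nat_lit 2870) (.e (nat_lit 1454) (nat_lit 108) (.e (nat_lit 336226) (nat_lit 14) (.e (nat_lit 401437) (nat_lit 9) (.e (nat_lit 426540) (nat_lit 29) (.e (nat_lit 352258) (nat_lit 0) .nil))))) (.g (nat_lit 0) (.e (nat_lit 97656) (nat_lit 0) .nil) .nil))) 
(.lf (nat_lit 475771) (.g (nat_lit 962) (.e (nat_lit 1786) (nat_lit 119) (.e (nat_lit 516120) (nat_lit 1) (.e (nat_lit 164329) (nat_lit 230) (.e (nat_lit 163941) (nat_lit 19) .nil)))) (.g (nat_lit 0) (.e (nat_lit 99576) (nat_lit 0) .nil) .nil)))) (.nd (nat_lit 9) 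
(.lf (nat_lit 475515) (.g (nat_lit 2162) (.e (nat_lit 1671) (nat_lit 116) (.e (nat_lit 401451) (nat_lit 12) (.e (nat_lit 475207) (nat_lit 41) .nil))) (.g (nat_lit 0) (.e (nat_lit 98829) (nat_lit 0) .nil) .nil))) 
(.lf (nat_lit 476027) (.g (nat_lit 4909) (.e (nat_lit 1788) (nat_lit 119) (.e (nat_lit 516139) (nat_lit 7) (.e (nat_lit 409649) (nat_lit 18) (.e (nat_lit 303118) (nat_lit 3) (.e (nat_lit 204866) (nat_lit 28) (.e (nat_lit 352301) (nat_lit 20) .nil)))))) (.g (nat_lit 1) (.e (nat_lit 99928) (nat_lit 0) .nil) .nil))))) (.nd (nat_lit 8) (.nd (nat_lit 9) 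
(.lf (nat_lit 475387) (.g (nat_lit 2334) (.e (nat_lit 1633) (nat_lit 114) (.e (nat_lit 385107) (nat_lit 51) (.e (nat_lit 794680) (nat_lit 24) (.e (nat_lit 213030) (nat_lit 11) (.e (nat_lit 24617) (nat_lit 7) (.e (nat_lit 319511) (nat_lit 10) (.e (nat_lit 5293) (nat_lit 298) .nil))))))) (.g (nat_lit 1) (.e (nat_lit 98271) (nat_lit 0) .nil) .nil))) 
(.lf (nat_lit 475899) (.g (nat_lit 2686) (.e (nat_lit 1788) (nat_lit 119) (.e (nat_lit 516138) (nat_lit 7) (.e (nat_lit 409645) (nat_lit 18) (.e (nat_lit 303117) (nat_lit 2) (.e (nat_lit 196672) (nat_lit 15) (.e (nat_lit 81941) (nat_lit 20) .nil)))))) (.g (nat_lit 1) (.e (nat_lit 99786) (nat_lit 0) .nil) .nil)))) (.nd (nat_lit 9) 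
(.lf (nat_lit 475643) (.g (nat_lit 2021) (.e (nat_lit 7936) (nat_lit 121) (.e (nat_lit 532563) (nat_lit 15) (.e (nat_lit 385068) (nat_lit 26) (.e (nat_lit 532544) (nat_lit 10) .nil)))) (.g (nat_lit 0) (.e (nat_lit 99337) (nat_lit 0) .nil) .nil))) 
(.lf (nat_lit 476155) (.g (nat_lit 3888) (.e (nat_lit 1792) (nat_lit 119) (.e (nat_lit 516166) (nat_lit 12) (.e (nat_lit 450587) (nat_lit 10) (.e (nat_lit 573477) (nat_lit 12) (.e (nat_lit 57575) (nat_lit 55) .nil))))) (.g (nat_lit 0) (.e (nat_lit 100120) (nat_lit 0) .nil) .nil)))))))))) 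
(.nd (nat_lit 3) (.nd (nat_lit 4) (.nd (nat_lit 5) (.nd (nat_lit 6) (.nd (nat_lit 7) 
(.nd (nat_lit 8) (.nd (nat_lit 9) 
(.lf (nat_lit 475143) (.g (nat_lit 2388) (.e (nat_lit 1426) (nat_lit 108) (.e (nat_lit 336430) (nat_lit 29) (.e (nat_lit 442419) (nat_lit 21) (.e (nat_lit 164346) (nat_lit 240) (.e (nat_lit 2639) (nat_lit 165) (.e (nat_lit 180277) (nat_lit 32) .nil)))))) (.g (nat_lit 1) (.e (nat_lit 97328) (nat_lit 0) .nil) .nil))) 
(.lf (nat_lit 475655) (.g (nat_lit 7436) (.e (nat_lit 1778) (nat_lit 119) (.e (nat_lit 516166) (nat_lit 12) (.e (nat_lit 450588) (nat_lit 10) (.e (nat_lit 573474) (nat_lit 12) .nil)))) (.g (nat_lit 0) (.e (nat_lit 99385) (nat_lit 0) .nil) .nil)))) (.nd (nat_lit 9) 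
(.lf (nat_lit 475399) (.g (nat_lit 1742) (.e (nat_lit 1638) (nat_lit 114) (.e (nat_lit 385066) (nat_lit 26) (.e (nat_lit 532558) (nat_lit 14) (.e (nat_lit 376842) (nat_lit 11) (.e (nat_lit 426107) (nat_lit 1) .nil))))) (.g (nat_lit 0) (.e (nat_lit 98307) (nat_lit 0) .nil) .nil))) 
(.lf (nat_lit 475911) (.g (nat_lit 3187) (.e (nat_lit 1788) (nat_lit 119) (.e (nat_lit 516138) (nat_lit 7) (.e (nat_lit 409646) (nat_lit 18) (.e (nat_lit 303117) (nat_lit 2) (.e (nat_lit 196674) (nat_lit 15) (.e (nat_lit 81928) (nat_lit 20) .nil)))))) (.g (nat_lit 1) (.e (nat_lit 99801) (nat_lit 0) .nil) .nil))))) (.nd (nat_lit 8) (.nd (nat_lit 9) 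
(.lf (nat_lit 475271) (.g (nat_lit 2494) (.e (nat_lit 1471) (nat_lit 108) (.e (nat_lit 336206) (nat_lit 12) (.e (nat_lit 385074) (nat_lit 31) (.e (nat_lit 573482) (nat_lit 13) (.e (nat_lit 65630) (nat_lit 14) .nil))))) (.g (nat_lit 0) (.e (nat_lit 97709) (nat_lit 0) .nil) .nil))) 
(.lf (nat_lit 475783) (.g (nat_lit 1694) (.e (nat_lit 1786) (nat_lit 119) (.e (nat_lit 516139) (nat_lit 7) (.e (nat_lit 409649) (nat_lit 18) (.e (nat_lit 303119) (nat_lit 3) .nil)))) (.g (nat_lit 0) (.e (nat_lit 99592) (nat_lit 0) .nil) .nil)))) (.nd (nat_lit 9) 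
(.lf (nat_lit 475527) (.g (nat_lit 978) (.e (nat_lit 1673) (nat_lit 116) (.e (nat_lit 401447) (nat_lit 10) (.e (nat_lit 434238) (nat_lit 25) (.e (nat_lit 548896) (nat_lit 14) .nil)))) (.g (nat_lit 0) (.e (nat_lit 98867) (nat_lit 0) .nil) .nil))) 
(.lf (nat_lit 476039) (.g (nat_lit 4344) (.e (nat_lit 1788) (nat_lit 119) (.e (nat_lit 516151) (nat_lit 9) (.e (nat_lit 426286) (nat_lit 10) (.e (nat_lit 434245) (nat_lit 28) (.e (nat_lit 573470) (nat_lit 11) (.e (nat_lit 16472) (nat_lit 14) (.e (nat_lit 491526) (nat_lit 0) .nil))))))) (.g (nat_lit 1) (.e (nat_lit 99948) (nat_lit 0) .nil) .nil)))))) 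
(.nd (nat_lit 7) (.nd (nat_lit 8) (.nd (nat_lit 9) 
(.lf (nat_lit 475207) (.g (nat_lit 2030) (.e (nat_lit 1430) (nat_lit 108) (.e (nat_lit 336454) (nat_lit 34) (.e (nat_lit 483383) (nat_lit 23) (.e (nat_lit 336019) (nat_lit 3) .nil)))) (.g (nat_lit 0) (.e (nat_lit 97547) (nat_lit 0) .nil) .nil))) 
(.lf (nat_lit 475719) (.g (nat_lit 6450) (.e (nat_lit 1781) (nat_lit 119) (.e (nat_lit 516166) (nat_lit 12) (.e (nat_lit 450588) (nat_lit 10) (.e (nat_lit 573477) (nat_lit 12) .nil)))) (.g (nat_lit 0) (.e (nat_lit 99470) (nat_lit 0) .nil) .nil)))) (.nd (nat_lit 9) 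
(.lf (nat_lit 475463) (.g (nat_lit 1097) (.e (nat_lit 1660) (nat_lit 115) (.e (nat_lit 393277) (nat_lit 23) (.e (nat_lit 426103) (nat_lit 1) (.e (nat_lit 164348) (nat_lit 240) (.e (nat_lit 2639) (nat_lit 165) (.e (nat_lit 180277) (nat_lit 32) .nil)))))) (.g (nat_lit 1) (.e (nat_lit 98523) (nat_lit 0) .nil) .nil))) 
(.lf (nat_lit 475975) (.g (nat_lit 3803) (.e (nat_lit 1788) (nat_lit 119) (.e (nat_lit 516139) (nat_lit 7) (.e (nat_lit 409648) (nat_lit 18) (.e (nat_lit 303118) (nat_lit 3) (.e (nat_lit 204855) (nat_lit 26) (.e (nat_lit 336097) (nat_lit 9) (.e (nat_lit 335923) (nat_lit 0) .nil))))))) (.g (nat_lit 1) (.e (nat_lit 99871) (nat_lit 0) .nil) .nil))))) (.nd (nat_lit 8) (.nd (nat_lit 9) 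
(.lf (nat_lit 475335) (.g (nat_lit 2212) (.e (nat_lit 1589) (nat_lit 111) (.e (nat_lit 360451) (nat_lit 0) (.e (nat_lit 7607) (nat_lit 410) (.e (nat_lit 2630) (nat_lit 164) (.e (nat_lit 172113) (nat_lit 10) (.e (nat_lit 434241) (nat_lit 27) (.e (nat_lit 565252) (nat_lit 0) .nil))))))) (.g (nat_lit 1) (.e (nat_lit 98145) (nat_lit 0) .nil) .nil))) 
(.lf (nat_lit 475847) (.g (nat_lit 2104) (.e (nat_lit 1790) (nat_lit 119) (.e (nat_lit 516115) (nat_lit 1) (.e (nat_lit 164399) (nat_lit 256) (.e (nat_lit 57372) (nat_lit 2) (.e (nat_lit 90167) (nat_lit 13) .nil))))) (.g (nat_lit 0) (.e (nat_lit 99695) (nat_lit 0) .nil) .nil)))) (.nd (nat_lit 9) 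
(.lf (nat_lit 475591) (.g (nat_lit 4114) (.e (nat_lit 1677) (nat_lit 116) (.e (nat_lit 401451) (nat_lit 12) (.e (nat_lit 475185) (nat_lit 29) (.e (nat_lit 557109) (nat_lit 15) .nil)))) (.g (nat_lit 0) (.e (nat_lit 98988) (nat_lit 0) .nil) .nil))) 
(.lf (nat_lit 476103) (.g (nat_lit 2811) (.e (nat_lit 1788) (nat_lit 119) (.e (nat_lit 516179) (nat_lit 15) (.e (nat_lit 475199) (nat_lit 40) (.e (nat_lit 704589) (nat_lit 3) (.e (nat_lit 163975) (nat_lit 30) (.e (nat_lit 573491) (nat_lit 15) (.e (nat_lit 81941) (nat_lit 20) .nil))))))) (.g (nat_lit 1) (.e (nat_lit 100028) (nat_lit 0) .nil) .nil))))))) 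
(.nd (nat_lit 6) (.nd (nat_lit 7) (.nd (nat_lit 8) (.nd (nat_lit 9) 
(.lf (nat_lit 475175) (.g (nat_lit 760) (.e (nat_lit 1426) (nat_lit 108) (.e (nat_lit 336454) (nat_lit 34) (.e (nat_lit 483365) (nat_lit 18) .nil))) (.g (nat_lit 0) (.e (nat_lit 97362) (nat_lit 0) .nil) .nil))) 
(.lf (nat_lit 475687) (.g (nat_lit 1535) (.e (nat_lit 1781) (nat_lit 119) (.e (nat_lit 516120) (nat_lit 1) (.e (nat_lit 164329) (nat_lit 230) (.e (nat_lit 163941) (nat_lit 19) (.e (nat_lit 483341) (nat_lit 9) (.e (nat_lit 426200) (nat_lit 9) (.e (nat_lit 426355) (nat_lit 15) .nil))))))) (.g (nat_lit 1) (.e (nat_lit 99428) (nat_lit 0) .nil) .nil)))) (.nd (nat_lit 9) 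
(.lf (nat_lit 475431) (.g (nat_lit 1652) (.e (nat_lit 1648) (nat_lit 115) (.e (nat_lit 393253) (nat_lit 18) (.e (nat_lit 164151) (nat_lit 152) (.e (nat_lit 2635) (nat_lit 165) .nil)))) (.g (nat_lit 0) (.e (nat_lit 98428) (nat_lit 0) .nil) .nil))) 
(.lf (nat_lit 475943) (.g (nat_lit 2497) (.e (nat_lit 1788) (nat_lit 119) (.e (nat_lit 516139) (nat_lit 7) (.e (nat_lit 409647) (nat_lit 18) (.e (nat_lit 303118) (nat_lit 3) (.e (nat_lit 204866) (nat_lit 28) (.e (nat_lit 352293) (nat_lit 20) .nil)))))) (.g (nat_lit 1) (.e (nat_lit 99839) (nat_lit 0) .nil) .nil))))) (.nd (nat_lit 8) (.nd (nat_lit 9) 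
(.lf (nat_lit 475303) (.g (nat_lit 1559) (.e (nat_lit 1524) (nat_lit 108) (.e (nat_lit 335988) (nat_lit 1) (.e (nat_lit 57926) (nat_lit 282) (.e (nat_lit 163905) (nat_lit 12) .nil)))) (.g (nat_lit 0) (.e (nat_lit 97959) (nat_lit 0) .nil) .nil))) 
(.lf (nat_lit 475815) (.g (nat_lit 7358) (.e (nat_lit 1784) (nat_lit 119) (.e (nat_lit 516166) (nat_lit 12) (.e (nat_lit 450588) (nat_lit 10) (.e (nat_lit 573474) (nat_lit 12) .nil)))) (.g (nat_lit 0) (.e (nat_lit 99654) (nat_lit 0) .nil) .nil)))) (.nd (nat_lit 9) 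
(.lf (nat_lit 475559) (.g (nat_lit 3385) (.e (nat_lit 1673) (nat_lit 116) (.e (nat_lit 401448) (nat_lit 10) (.e (nat_lit 434238) (nat_lit 25) (.e (nat_lit 548915) (nat_lit 20) (.e (nat_lit 188457) (nat_lit 25) (.e (nat_lit 245784) (nat_lit 9) .nil)))))) (.g (nat_lit 1) (.e (nat_lit 98901) (nat_lit 0) .nil) .nil))) 
(.lf (nat_lit 476071) (.g (nat_lit 2062) (.e (nat_lit 1788) (nat_lit 119) (.e (nat_lit 516166) (nat_lit 12) (.e (nat_lit 450579) (nat_lit 5) (.e (nat_lit 532523) (nat_lit 7) (.e (nat_lit 319533) (nat_lit 16) .nil))))) (.g (nat_lit 0) (.e (nat_lit 99995) (nat_lit 0) .nil) .nil)))))) (.nd (nat_lit 7) (.nd (nat_lit 8) (.nd (nat_lit 9) 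
(.lf (nat_lit 475239) (.g (nat_lit 5224) (.e (nat_lit 1454) (nat_lit 108) (.e (nat_lit 336013) (nat_lit 2) (.e (nat_lit 90170) (nat_lit 13) (.e (nat_lit 172106) (nat_lit 10) (.e (nat_lit 434244) (nat_lit 28) (.e (nat_lit 573473) (nat_lit 12) (.e (nat_lit 57569) (nat_lit 53) (.e (nat_lit 761866) (nat_lit 5) .nil)))))))) (.g (nat_lit 1) (.e (nat_lit 97633) (nat_lit 0) .nil) .nil))) 
(.lf (nat_lit 475751) (.g (nat_lit 2232) (.e (nat_lit 1783) (nat_lit 119) (.e (nat_lit 516115) (nat_lit 1) (.e (nat_lit 164325) (nat_lit 230) (.e (nat_lit 163903) (nat_lit 12) .nil)))) (.g (nat_lit 0) (.e (nat_lit 99524) (nat_lit 0) .nil) .nil)))) (.nd (nat_lit 9) 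
(.lf (nat_lit 475495) (.g (nat_lit 1062) (.e (nat_lit 1669) (nat_lit 116) (.e (nat_lit 401454) (nat_lit 12) (.e (nat_lit 475209) (nat_lit 41) (.e (nat_lit 712755) (nat_lit 30) .nil)))) (.g (nat_lit 0) (.e (nat_lit 98784) (nat_lit 0) .nil) .nil))) 
(.lf (nat_lit 476007) (.g (nat_lit 2432) (.e (nat_lit 1788) (nat_lit 119) (.e (nat_lit 516139) (nat_lit 7) (.e (nat_lit 409649) (nat_lit 18) (.e (nat_lit 303117) (nat_lit 2) (.e (nat_lit 196666) (nat_lit 13) (.e (nat_lit 65596) (nat_lit 9) (.e (nat_lit 335937) (nat_lit 0) .nil))))))) (.g (nat_lit 1) (.e (nat_lit 99908) (nat_lit 0) .nil) .nil))))) (.nd (nat_lit 8) (.nd (nat_lit 9) 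
(.lf (nat_lit 475367) (.g (nat_lit 1209) (.e (nat_lit 1597) (nat_lit 111) (.e (nat_lit 360493) (nat_lit 27) (.e (nat_lit 819203) (nat_lit 0) (.e (nat_lit 3015) (nat_lit 187) (.e (nat_lit 458496) (nat_lit 8) (.e (nat_lit 557060) (nat_lit 0) .nil)))))) (.g (nat_lit 1) (.e (nat_lit 98189) (nat_lit 0) .nil) .nil))) 
(.lf (nat_lit 475879) (.g (nat_lit 2085) (.e (nat_lit 1788) (nat_lit 119) (.e (nat_lit 516116) (nat_lit 1) (.e (nat_lit 164329) (nat_lit 230) (.e (nat_lit 163941) (nat_lit 19) (.e (nat_lit 483339) (nat_lit 9) (.e (nat_lit 426262) (nat_lit 9) (.e (nat_lit 426401) (nat_lit 15) .nil))))))) (.g (nat_lit 1) (.e (nat_lit 99747) (nat_lit 0) .nil) .nil)))) (.nd (nat_lit 9) 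
(.lf (nat_lit 475623) (.g (nat_lit 1094) (.e (nat_lit 7936) (nat_lit 121) (.e (nat_lit 532544) (nat_lit 10) (.e (nat_lit 344132) (nat_lit 26) (.e (nat_lit 557101) (nat_lit 13) .nil)))) (.g (nat_lit 0) (.e (nat_lit 99287) (nat_lit 0) .nil) .nil))) 
(.lf (nat_lit 476135) (.g (nat_lit 4912) (.e (nat_lit 1791) (nat_lit 119) (.e (nat_lit 516166) (nat_lit 12) (.e (nat_lit 450587) (nat_lit 10) (.e (nat_lit 573477) (nat_lit 12) (.e (nat_lit 57574) (nat_lit 55) .nil))))) (.g (nat_lit 0) (.e (nat_lit 100089) (nat_lit 0) .nil) .nil)))))))) (.nd (nat_lit 5) (.nd (nat_lit 6) (.nd (nat_lit 7) (.nd (nat_lit 8) (.nd (nat_lit 9) 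
(.lf (nat_lit 475159) (.g (nat_lit 2780) (.e (nat_lit 1426) (nat_lit 108) (.e (nat_lit 336430) (nat_lit 29) (.e (nat_lit 442428) (nat_lit 24) (.e (nat_lit 229663) (nat_lit 240) (.e (nat_lit 2643) (nat_lit 165) (.e (nat_lit 180277) (nat_lit 32) .nil)))))) (.g (nat_lit 1) (.e (nat_lit 97344) (nat_lit 0) .nil) .nil))) 
(.lf (nat_lit 475671) (.g (nat_lit 2119) (.e (nat_lit 1781) (nat_lit 119) (.e (nat_lit 516119) (nat_lit 1) (.e (nat_lit 164401) (nat_lit 256) (.e (nat_lit 57373) (nat_lit 2) (.e (nat_lit 90172) (nat_lit 14) .nil))))) (.g (nat_lit 0) (.e (nat_lit 99411) (nat_lit 0) .nil) .nil)))) (.nd (nat_lit 9) 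
(.lf (nat_lit 475415) (.g (nat_lit 2287) (.e (nat_lit 1642) (nat_lit 114) (.e (nat_lit 385068) (nat_lit 26) (.e (nat_lit 532560) (nat_lit 14) (.e (nat_lit 376842) (nat_lit 11) (.e (nat_lit 426106) (nat_lit 1) .nil))))) (.g (nat_lit 0) (.e (nat_lit 98389) (nat_lit 0) .nil) .nil))) 
(.lf (nat_lit 475927) (.g (nat_lit 3469) (.e (nat_lit 1788) (nat_lit 119) (.e (nat_lit 516139) (nat_lit 7) (.e (nat_lit 409644) (nat_lit 18) (.e (nat_lit 303119) (nat_lit 3) (.e (nat_lit 204866) (nat_lit 28) (.e (nat_lit 352292) (nat_lit 20) .nil)))))) (.g (nat_lit 1) (.e (nat_lit 99823) (nat_lit 0) .nil) .nil))))) (.nd (nat_lit 8) (.nd (nat_lit 9) 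
(.lf (nat_lit 475287) (.g (nat_lit 2322) (.e (nat_lit 1512) (nat_lit 108) (.e (nat_lit 336051) (nat_lit 6) (.e (nat_lit 147495) (nat_lit 11) (.e (nat_lit 24634) (nat_lit 9) .nil)))) (.g (nat_lit 0) (.e (nat_lit 97731) (nat_lit 0) .nil) .nil))) 
(.lf (nat_lit 475799) (.g (nat_lit 1749) (.e (nat_lit 1784) (nat_lit 119) (.e (nat_lit 516117) (nat_lit 1) (.e (nat_lit 164332) (nat_lit 230) (.e (nat_lit 163902) (nat_lit 12) (.e (nat_lit 426479) (nat_lit 27) (.e (nat_lit 336430) (nat_lit 29) (.e (nat_lit 442379) (nat_lit 0) .nil))))))) (.g (nat_lit 1) (.e (nat_lit 99630) (nat_lit 0) .nil) .nil)))) (.nd (nat_lit 9) 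
(.lf (nat_lit 475543) (.g (nat_lit 1593) (.e (nat_lit 1673) (nat_lit 116) (.e (nat_lit 401448) (nat_lit 10) (.e (nat_lit 434238) (nat_lit 25) (.e (nat_lit 548898) (nat_lit 14) .nil)))) (.g (nat_lit 0) (.e (nat_lit 98885) (nat_lit 0) .nil) .nil))) 
(.lf (nat_lit 476055) (.g (nat_lit 4465) (.e (nat_lit 1788) (nat_lit 119) (.e (nat_lit 516151) (nat_lit 9) (.e (nat_lit 426286) (nat_lit 10) (.e (nat_lit 434248) (nat_lit 28) (.e (nat_lit 573470) (nat_lit 11) (.e (nat_lit 16472) (nat_lit 14) (.e (nat_lit 491526) (nat_lit 0) .nil))))))) (.g (nat_lit 1) (.e (nat_lit 99964) (nat_lit 0) .nil) .nil)))))) 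
(.nd (nat_lit 7) (.nd (nat_lit 8) (.nd (nat_lit 9) 
(.lf (nat_lit 475223) (.g (nat_lit 1938) (.e (nat_lit 1433) (nat_lit 108) (.e (nat_lit 336431) (nat_lit 29) (.e (nat_lit 442430) (nat_lit 24) (.e (nat_lit 229664) (nat_lit 240) (.e (nat_lit 2641) (nat_lit 165) (.e (nat_lit 188160) (nat_lit 32) .nil)))))) (.g (nat_lit 1) (.e (nat_lit 97583) (nat_lit 0) .nil) .nil))) 
(.lf (nat_lit 475735) (.g (nat_lit 2096) (.e (nat_lit 1782) (nat_lit 119) (.e (nat_lit 516117) (nat_lit 1) (.e (nat_lit 164329) (nat_lit 230) (.e (nat_lit 163941) (nat_lit 19) (.e (nat_lit 491264) (nat_lit 11) (.e (nat_lit 442379) (nat_lit 0) .nil)))))) (.g (nat_lit 1) (.e (nat_lit 99500) (nat_lit 0) .nil) .nil)))) (.nd (nat_lit 9) 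
(.lf (nat_lit 475479) (.g (nat_lit 4010) (.e (nat_lit 1667) (nat_lit 116) (.e (nat_lit 401451) (nat_lit 12) (.e (nat_lit 475185) (nat_lit 29) (.e (nat_lit 557109) (nat_lit 15) .nil)))) (.g (nat_lit 0) (.e (nat_lit 98630) (nat_lit 0) .nil) .nil))) 
(.lf (nat_lit 475991) (.g (nat_lit 3014) (.e (nat_lit 1788) (nat_lit 119) (.e (nat_lit 516139) (nat_lit 7) (.e (nat_lit 409649) (nat_lit 18) (.e (nat_lit 303116) (nat_lit 2) (.e (nat_lit 196666) (nat_lit 13) (.e (nat_lit 65596) (nat_lit 9) (.e (nat_lit 335920) (nat_lit 0) .nil))))))) (.g (nat_lit 1) (.e (nat_lit 99892) (nat_lit 0) .nil) .nil))))) (.nd (nat_lit 8) (.nd (nat_lit 9) 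
(.lf (nat_lit 475351) (.g (nat_lit 3324) (.e (nat_lit 1587) (nat_lit 111) (.e (nat_lit 360475) (nat_lit 8) (.e (nat_lit 557091) (nat_lit 12) (.e (nat_lit 164022) (nat_lit 46) (.e (nat_lit 704629) (nat_lit 9) (.e (nat_lit 452) (nat_lit 33) (.e (nat_lit 434219) (nat_lit 19) (.e (nat_lit 499976) (nat_lit 14) .nil)))))))) (.g (nat_lit 1) (.e (nat_lit 98164) (nat_lit 0) .nil) .nil))) 
(.lf (nat_lit 475863) (.g (nat_lit 599) (.e (nat_lit 1788) (nat_lit 119) (.e (nat_lit 516106) (nat_lit 0) (.e (nat_lit 2478) (nat_lit 157) .nil))) (.g (nat_lit 0) (.e (nat_lit 99721) (nat_lit 0) .nil) .nil)))) (.nd (nat_lit 9) 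
(.lf (nat_lit 475607) (.g (nat_lit 416) (.e (nat_lit 7936) (nat_lit 121) (.e (nat_lit 532529) (nat_lit 9) (.e (nat_lit 336326) (nat_lit 18) .nil))) (.g (nat_lit 0) (.e (nat_lit 99241) (nat_lit 0) .nil) .nil))) 
(.lf (nat_lit 476119) (.g (nat_lit 2376) (.e (nat_lit 1789) (nat_lit 119) (.e (nat_lit 516117) (nat_lit 1) (.e (nat_lit 164329) (nat_lit 230) (.e (nat_lit 163941) (nat_lit 19) .nil)))) (.g (nat_lit 0) (.e (nat_lit 100065) (nat_lit 0) .nil) .nil))))))) (.nd (nat_lit 6) (.nd (nat_lit 7) (.nd (nat_lit 8) (.nd (nat_lit 9) 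
(.lf (nat_lit 475191) (.g (nat_lit 2352) (.e (nat_lit 1428) (nat_lit 108) (.e (nat_lit 336367) (nat_lit 27) (.e (nat_lit 426320) (nat_lit 12) (.e (nat_lit 475198) (nat_lit 40) (.e (nat_lit 704595) (nat_lit 5) (.e (nat_lit 180278) (nat_lit 32) .nil)))))) (.g (nat_lit 1) (.e (nat_lit 97512) (nat_lit 0) .nil) .nil))) 
(.lf (nat_lit 475703) (.g (nat_lit 5242) (.e (nat_lit 1781) (nat_lit 119) (.e (nat_lit 516151) (nat_lit 9) (.e (nat_lit 426211) (nat_lit 9) (.e (nat_lit 426125) (nat_lit 2) (.e (nat_lit 196627) (nat_lit 9) .nil))))) (.g (nat_lit 0) (.e (nat_lit 99452) (nat_lit 0) .nil) .nil)))) (.nd (nat_lit 9) 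
(.lf (nat_lit 475447) (.g (nat_lit 1277) (.e (nat_lit 1658) (nat_lit 115) (.e (nat_lit 393287) (nat_lit 25) (.e (nat_lit 458774) (nat_lit 18) (.e (nat_lit 5547) (nat_lit 306) (.e (nat_lit 2640) (nat_lit 165) .nil))))) (.g (nat_lit 0) (.e (nat_lit 98457) (nat_lit 0) .nil) .nil))) 
(.lf (nat_lit 475959) (.g (nat_lit 2122) (.e (nat_lit 1788) (nat_lit 119) (.e (nat_lit 516139) (nat_lit 7) (.e (nat_lit 409648) (nat_lit 18) (.e (nat_lit 303117) (nat_lit 2) (.e (nat_lit 196666) (nat_lit 13) .nil))))) (.g (nat_lit 0) (.e (nat_lit 99855) (nat_lit 0) .nil) .nil))))) (.nd (nat_lit 8) (.nd (nat_lit 9) 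
(.lf (nat_lit 475319) (.g (nat_lit 2839) (.e (nat_lit 1580) (nat_lit 111) (.e (nat_lit 360475) (nat_lit 8) (.e (nat_lit 557091) (nat_lit 12) (.e (nat_lit 164022) (nat_lit 46) (.e (nat_lit 704627) (nat_lit 9) .nil))))) (.g (nat_lit 0) (.e (nat_lit 98102) (nat_lit 0) .nil) .nil))) 
(.lf (nat_lit 475831) (.g (nat_lit 2843) (.e (nat_lit 1787) (nat_lit 119) (.e (nat_lit 516115) (nat_lit 1) (.e (nat_lit 164403) (nat_lit 256) (.e (nat_lit 57373) (nat_lit 2) (.e (nat_lit 90174) (nat_lit 14) .nil))))) (.g (nat_lit 0) (.e (nat_lit 99675) (nat_lit 0) .nil) .nil)))) (.nd (nat_lit 9) 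
(.lf (nat_lit 475575) (.g (nat_lit 3894) (.e (nat_lit 1673) (nat_lit 116) (.e (nat_lit 401451) (nat_lit 12) (.e (nat_lit 475185) (nat_lit 29) (.e (nat_lit 557107) (nat_lit 15) .nil)))) (.g (nat_lit 0) (.e (nat_lit 98921) (nat_lit 0) .nil) .nil))) 
(.lf (nat_lit 476087) (.g (nat_lit 3194) (.e (nat_lit 1788) (nat_lit 119) (.e (nat_lit 516166) (nat_lit 12) (.e (nat_lit 450588) (nat_lit 10) (.e (nat_lit 573473) (nat_lit 12) (.e (nat_lit 57347) (nat_lit 0) .nil))))) (.g (nat_lit 0) (.e (nat_lit 100011) (nat_lit 0) .nil) .nil)))))) (.nd (nat_lit 7) (.nd (nat_lit 8) (.nd (nat_lit 9) 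
(.lf (nat_lit 475255) (.g (nat_lit 1693) (.e (nat_lit 1454) (nat_lit 108) (.e (nat_lit 336173) (nat_lit 10) (.e (nat_lit 344138) (nat_lit 29) (.e (nat_lit 581652) (nat_lit 5) (.e (nat_lit 180285) (nat_lit 45) (.e (nat_lit 2579) (nat_lit 161) (.e (nat_lit 40963) (nat_lit 0) .nil))))))) (.g (nat_lit 1) (.e (nat_lit 97649) (nat_lit 0) .nil) .nil))) 
(.lf (nat_lit 475767) (.g (nat_lit 1844) (.e (nat_lit 1786) (nat_lit 119) (.e (nat_lit 516117) (nat_lit 1) (.e (nat_lit 164330) (nat_lit 230) (.e (nat_lit 163941) (nat_lit 19) .nil)))) (.g (nat_lit 0) (.e (nat_lit 99568) (nat_lit 0) .nil) .nil)))) (.nd (nat_lit 9) 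
(.lf (nat_lit 475511) (.g (nat_lit 3465) (.e (nat_lit 1671) (nat_lit 116) (.e (nat_lit 401448) (nat_lit 10) (.e (nat_lit 434238) (nat_lit 25) (.e (nat_lit 548913) (nat_lit 18) (.e (nat_lit 172094) (nat_lit 9) .nil))))) (.g (nat_lit 0) (.e (nat_lit 98822) (nat_lit 0) .nil) .nil))) 
(.lf (nat_lit 476023) (.g (nat_lit 5439) (.e (nat_lit 1788) (nat_lit 119) (.e (nat_lit 516139) (nat_lit 7) (.e (nat_lit 409649) (nat_lit 18) (.e (nat_lit 303118) (nat_lit 3) (.e (nat_lit 204866) (nat_lit 28) (.e (nat_lit 352292) (nat_lit 20) .nil)))))) (.g (nat_lit 1) (.e (nat_lit 99924) (nat_lit 0) .nil) .nil))))) (.nd (nat_lit 8) (.nd (nat_lit 9) 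
(.lf (nat_lit 475383) (.g (nat_lit 3496) (.e (nat_lit 1633) (nat_lit 114) (.e (nat_lit 385074) (nat_lit 31) (.e (nat_lit 573484) (nat_lit 13) (.e (nat_lit 65617) (nat_lit 10) (.e (nat_lit 344133) (nat_lit 26) (.e (nat_lit 557068) (nat_lit 9) (.e (nat_lit 20) (nat_lit 0) (.e (nat_lit 6437) (nat_lit 343) .nil)))))))) (.g (nat_lit 1) (.e (nat_lit 98261) (nat_lit 0) .nil) .nil))) 
(.lf (nat_lit 475895) (.g (nat_lit 3225) (.e (nat_lit 1788) (nat_lit 119) (.e (nat_lit 516120) (nat_lit 1) (.e (nat_lit 164329) (nat_lit 230) (.e (nat_lit 163941) (nat_lit 19) (.e (nat_lit 483341) (nat_lit 9) (.e (nat_lit 426197) (nat_lit 9) (.e (nat_lit 426402) (nat_lit 15) .nil))))))) (.g (nat_lit 1) (.e (nat_lit 99781) (nat_lit 0) .nil) .nil)))) (.nd (nat_lit 9) 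
(.lf (nat_lit 475639) (.g (nat_lit 1364) (.e (nat_lit 7936) (nat_lit 121) (.e (nat_lit 532563) (nat_lit 15) (.e (nat_lit 385057) (nat_lit 22) (.e (nat_lit 500073) (nat_lit 19) .nil)))) (.g (nat_lit 0) (.e (nat_lit 99332) (nat_lit 0) .nil) .nil))) 
(.lf (nat_lit 476151) (.g (nat_lit 778) (.e (nat_lit 1792) (nat_lit 119) (.e (nat_lit 516138) (nat_lit 7) (.e (nat_lit 409645) (nat_lit 18) .nil))) (.g (nat_lit 0) (.e (nat_lit 100111) (nat_lit 0) .nil) .nil))))))))) (.nd (nat_lit 4) (.nd (nat_lit 5) (.nd (nat_lit 6) (.nd (nat_lit 7) (.nd (nat_lit 8) (.nd (nat_lit 9) 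
(.lf (nat_lit 475151) (.g (nat_lit 2385) (.e (nat_lit 1426) (nat_lit 108) (.e (nat_lit 336430) (nat_lit 29) (.e (nat_lit 442421) (nat_lit 21) (.e (nat_lit 164346) (nat_lit 240) (.e (nat_lit 2638) (nat_lit 165) (.e (nat_lit 180277) (nat_lit 32) .nil)))))) (.g (nat_lit 1) (.e (nat_lit 97336) (nat_lit 0) .nil) .nil))) 
(.lf (nat_lit 475663) (.g (nat_lit 2163) (.e (nat_lit 1781) (nat_lit 119) (.e (nat_lit 516115) (nat_lit 1) (.e (nat_lit 164399) (nat_lit 256) (.e (nat_lit 57372) (nat_lit 2) (.e (nat_lit 90172) (nat_lit 14) .nil))))) (.g (nat_lit 0) (.e (nat_lit 99398) (nat_lit 0) .nil) .nil)))) (.nd (nat_lit 9) 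
(.lf (nat_lit 475407) (.g (nat_lit 1190) (.e (nat_lit 1638) (nat_lit 114) (.e (nat_lit 385072) (nat_lit 31) (.e (nat_lit 573493) (nat_lit 15) (.e (nat_lit 81956) (nat_lit 23) .nil)))) (.g (nat_lit 0) (.e (nat_lit 98319) (nat_lit 0) .nil) .nil))) 
(.lf (nat_lit 475919) (.g (nat_lit 1557) (.e (nat_lit 1788) (nat_lit 119) (.e (nat_lit 516139) (nat_lit 7) (.e (nat_lit 409623) (nat_lit 10) (.e (nat_lit 5664) (nat_lit 312) (.e (nat_lit 2661) (nat_lit 167) .nil))))) (.g (nat_lit 0) (.e (nat_lit 99812) (nat_lit 0) .nil) .nil))))) (.nd (nat_lit 8) (.nd (nat_lit 9) 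
(.lf (nat_lit 475279) (.g (nat_lit 3197) (.e (nat_lit 1512) (nat_lit 108) (.e (nat_lit 335872) (nat_lit 0) (.e (nat_lit 6696) (nat_lit 357) (.e (nat_lit 2657) (nat_lit 167) (.e (nat_lit 196663) (nat_lit 13) (.e (nat_lit 65630) (nat_lit 14) (.e (nat_lit 401425) (nat_lit 2) (.e (nat_lit 196628) (nat_lit 9) .nil)))))))) (.g (nat_lit 1) (.e (nat_lit 97719) (nat_lit 0) .nil) .nil))) 
(.lf (nat_lit 475791) (.g (nat_lit 2850) (.e (nat_lit 1784) (nat_lit 119) (.e (nat_lit 516115) (nat_lit 1) (.e (nat_lit 164325) (nat_lit 230) (.e (nat_lit 163903) (nat_lit 12) (.e (nat_lit 426568) (nat_lit 34) .nil))))) (.g (nat_lit 0) (.e (nat_lit 99610) (nat_lit 0) .nil) .nil)))) (.nd (nat_lit 9) 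
(.lf (nat_lit 475535) (.g (nat_lit 2001) (.e (nat_lit 1673) (nat_lit 116) (.e (nat_lit 401447) (nat_lit 10) (.e (nat_lit 434272) (nat_lit 38) (.e (nat_lit 655364) (nat_lit 0) (.e (nat_lit 3015) (nat_lit 187) (.e (nat_lit 450596) (nat_lit 17) (.e (nat_lit 663556) (nat_lit 0) .nil))))))) (.g (nat_lit 1) (.e (nat_lit 98875) (nat_lit 0) .nil) .nil))) 
(.lf (nat_lit 476047) (.g (nat_lit 4534) (.e (nat_lit 1788) (nat_lit 119) (.e (nat_lit 516151) (nat_lit 9) (.e (nat_lit 426286) (nat_lit 10) (.e (nat_lit 434247) (nat_lit 28) (.e (nat_lit 573469) (nat_lit 11) (.e (nat_lit 16473) (nat_lit 14) (.e (nat_lit 491525) (nat_lit 0) .nil))))))) (.g (nat_lit 1) (.e (nat_lit 99956) (nat_lit 0) .nil) .nil)))))) 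
(.nd (nat_lit 7) (.nd (nat_lit 8) (.nd (nat_lit 9) 
(.lf (nat_lit 475215) (.g (nat_lit 1847) (.e (nat_lit 1433) (nat_lit 108) (.e (nat_lit 336324) (nat_lit 18) (.e (nat_lit 204854) (nat_lit 26) (.e (nat_lit 336325) (nat_lit 18) .nil)))) (.g (nat_lit 0) (.e (nat_lit 97574) (nat_lit 0) .nil) .nil))) 
(.lf (nat_lit 475727) (.g (nat_lit 2220) (.e (nat_lit 1781) (nat_lit 119) (.e (nat_lit 516179) (nat_lit 15) (.e (nat_lit 475199) (nat_lit 40) (.e (nat_lit 704589) (nat_lit 3) (.e (nat_lit 163979) (nat_lit 30) .nil))))) (.g (nat_lit 0) (.e (nat_lit 99482) (nat_lit 0) .nil) .nil)))) (.nd (nat_lit 9) 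
(.lf (nat_lit 475471) (.g (nat_lit 2463) (.e (nat_lit 1661) (nat_lit 115) (.e (nat_lit 393274) (nat_lit 23) (.e (nat_lit 426097) (nat_lit 1) (.e (nat_lit 164347) (nat_lit 240) (.e (nat_lit 2638) (nat_lit 165) (.e (nat_lit 180278) (nat_lit 32) .nil)))))) (.g (nat_lit 1) (.e (nat_lit 98577) (nat_lit 0) .nil) .nil))) 
(.lf (nat_lit 475983) (.g (nat_lit 3854) (.e (nat_lit 1788) (nat_lit 119) (.e (nat_lit 516139) (nat_lit 7) (.e (nat_lit 409648) (nat_lit 18) (.e (nat_lit 303118) (nat_lit 3) (.e (nat_lit 204866) (nat_lit 28) (.e (nat_lit 352295) (nat_lit 20) .nil)))))) (.g (nat_lit 1) (.e (nat_lit 99879) (nat_lit 0) .nil) .nil))))) (.nd (nat_lit 8) (.nd (nat_lit 9) 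
(.lf (nat_lit 475343) (.g (nat_lit 2229) (.e (nat_lit 1587) (nat_lit 111) (.e (nat_lit 360474) (nat_lit 8) (.e (nat_lit 557094) (nat_lit 12) (.e (nat_lit 164022) (nat_lit 46) (.e (nat_lit 704629) (nat_lit 9) (.e (nat_lit 452) (nat_lit 33) (.e (nat_lit 434219) (nat_lit 19) (.e (nat_lit 499976) (nat_lit 14) .nil)))))))) (.g (nat_lit 1) (.e (nat_lit 98156) (nat_lit 0) .nil) .nil))) 
(.lf (nat_lit 475855) (.g (nat_lit 2458) (.e (nat_lit 1790) (nat_lit 119) (.e (nat_lit 516119) (nat_lit 1) (.e (nat_lit 164403) (nat_lit 256) (.e (nat_lit 57373) (nat_lit 2) (.e (nat_lit 90174) (nat_lit 14) .nil))))) (.g (nat_lit 0) (.e (nat_lit 99703) (nat_lit 0) .nil) .nil)))) (.nd (nat_lit 9) 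
(.lf (nat_lit 475599) (.g (nat_lit 1751) (.e (nat_lit 1721) (nat_lit 117) (.e (nat_lit 499900) (nat_lit 7) (.e (nat_lit 24608) (nat_lit 3) (.e (nat_lit 98313) (nat_lit 9) (.e (nat_lit 336021) (nat_lit 3) .nil))))) (.g (nat_lit 0) (.e (nat_lit 99018) (nat_lit 0) .nil) .nil))) 
(.lf (nat_lit 476111) (.g (nat_lit 1810) (.e (nat_lit 1788) (nat_lit 119) (.e (nat_lit 516181) (nat_lit 15) (.e (nat_lit 475199) (nat_lit 40) (.e (nat_lit 704589) (nat_lit 3) (.e (nat_lit 163976) (nat_lit 30) (.e (nat_lit 573491) (nat_lit 15) (.e (nat_lit 81928) (nat_lit 20) .nil))))))) (.g (nat_lit 1) (.e (nat_lit 100049) (nat_lit 0) .nil) .nil))))))) 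
(.nd (nat_lit 6) (.nd (nat_lit 7) (.nd (nat_lit 8) (.nd (nat_lit 9) 
(.lf (nat_lit 475183) (.g (nat_lit 4718) (.e (nat_lit 1428) (nat_lit 108) (.e (nat_lit 336324) (nat_lit 18) (.e (nat_lit 204831) (nat_lit 18) (.e (nat_lit 57844) (nat_lit 252) .nil)))) (.g (nat_lit 0) (.e (nat_lit 97504) (nat_lit 0) .nil) .nil))) 
(.lf (nat_lit 475695) (.g (nat_lit 2841) (.e (nat_lit 1781) (nat_lit 119) (.e (nat_lit 516138) (nat_lit 7) (.e (nat_lit 409646) (nat_lit 18) (.e (nat_lit 303117) (nat_lit 2) (.e (nat_lit 196674) (nat_lit 15) .nil))))) (.g (nat_lit 0) (.e (nat_lit 99437) (nat_lit 0) .nil) .nil)))) (.nd (nat_lit 9) 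
(.lf (nat_lit 475439) (.g (nat_lit 1039) (.e (nat_lit 1658) (nat_lit 115) (.e (nat_lit 393281) (nat_lit 23) (.e (nat_lit 426098) (nat_lit 1) (.e (nat_lit 164345) (nat_lit 240) .nil)))) (.g (nat_lit 0) (.e (nat_lit 98447) (nat_lit 0) .nil) .nil))) 
(.lf (nat_lit 475951) (.g (nat_lit 3842) (.e (nat_lit 1788) (nat_lit 119) (.e (nat_lit 516139) (nat_lit 7) (.e (nat_lit 409648) (nat_lit 18) (.e (nat_lit 303116) (nat_lit 2) (.e (nat_lit 196666) (nat_lit 13) (.e (nat_lit 65592) (nat_lit 9) (.e (nat_lit 335923) (nat_lit 0) .nil))))))) (.g (nat_lit 1) (.e (nat_lit 99847) (nat_lit 0) .nil) .nil))))) (.nd (nat_lit 8) (.nd (nat_lit 9) 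
(.lf (nat_lit 475311) (.g (nat_lit 1012) (.e (nat_lit 1551) (nat_lit 109) (.e (nat_lit 344117) (nat_lit 21) (.e (nat_lit 524032) (nat_lit 12) .nil))) (.g (nat_lit 0) (.e (nat_lit 98035) (nat_lit 0) .nil) .nil))) 
(.lf (nat_lit 475823) (.g (nat_lit 5551) (.e (nat_lit 1785) (nat_lit 119) (.e (nat_lit 516166) (nat_lit 12) (.e (nat_lit 450588) (nat_lit 10) (.e (nat_lit 573473) (nat_lit 12) (.e (nat_lit 57353) (nat_lit 0) .nil))))) (.g (nat_lit 0) (.e (nat_lit 99666) (nat_lit 0) .nil) .nil)))) (.nd (nat_lit 9) 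
(.lf (nat_lit 475567) (.g (nat_lit 1288) (.e (nat_lit 1673) (nat_lit 116) (.e (nat_lit 401448) (nat_lit 10) (.e (nat_lit 434272) (nat_lit 38) (.e (nat_lit 655363) (nat_lit 0) .nil)))) (.g (nat_lit 0) (.e (nat_lit 98913) (nat_lit 0) .nil) .nil))) 
(.lf (nat_lit 476079) (.g (nat_lit 3666) (.e (nat_lit 1788) (nat_lit 119) (.e (nat_lit 516166) (nat_lit 12) (.e (nat_lit 450588) (nat_lit 10) (.e (nat_lit 573449) (nat_lit 9) (.e (nat_lit 430) (nat_lit 32) .nil))))) (.g (nat_lit 0) (.e (nat_lit 100003) (nat_lit 0) .nil) .nil)))))) (.nd (nat_lit 7) (.nd (nat_lit 8) (.nd (nat_lit 9) 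
(.lf (nat_lit 475247) (.g (nat_lit 4848) (.e (nat_lit 1454) (nat_lit 108) (.e (nat_lit 336013) (nat_lit 2) (.e (nat_lit 90170) (nat_lit 13) (.e (nat_lit 172113) (nat_lit 10) (.e (nat_lit 434245) (nat_lit 28) (.e (nat_lit 573474) (nat_lit 12) (.e (nat_lit 57569) (nat_lit 53) (.e (nat_lit 761866) (nat_lit 5) .nil)))))))) (.g (nat_lit 1) (.e (nat_lit 97641) (nat_lit 0) .nil) .nil))) 
(.lf (nat_lit 475759) (.g (nat_lit 4665) (.e (nat_lit 1783) (nat_lit 119) (.e (nat_lit 516166) (nat_lit 12) (.e (nat_lit 450587) (nat_lit 10) (.e (nat_lit 573477) (nat_lit 12) (.e (nat_lit 57575) (nat_lit 55) .nil))))) (.g (nat_lit 0) (.e (nat_lit 99539) (nat_lit 0) .nil) .nil)))) (.nd (nat_lit 9) 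
(.lf (nat_lit 475503) (.g (nat_lit 2813) (.e (nat_lit 1669) (nat_lit 116) (.e (nat_lit 401457) (nat_lit 13) (.e (nat_lit 483365) (nat_lit 18) (.e (nat_lit 57666) (nat_lit 152) (.e (nat_lit 2638) (nat_lit 165) .nil))))) (.g (nat_lit 0) (.e (nat_lit 98792) (nat_lit 0) .nil) .nil))) 
(.lf (nat_lit 476015) (.g (nat_lit 3301) (.e (nat_lit 1788) (nat_lit 119) (.e (nat_lit 516139) (nat_lit 7) (.e (nat_lit 409649) (nat_lit 18) (.e (nat_lit 303118) (nat_lit 3) (.e (nat_lit 204855) (nat_lit 26) (.e (nat_lit 336099) (nat_lit 9) (.e (nat_lit 335886) (nat_lit 0) .nil))))))) (.g (nat_lit 1) (.e (nat_lit 99916) (nat_lit 0) .nil) .nil))))) (.nd (nat_lit 8) (.nd (nat_lit 9) 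
(.lf (nat_lit 475375) (.g (nat_lit 3889) (.e (nat_lit 1615) (nat_lit 113) (.e (nat_lit 376865) (nat_lit 22) (.e (nat_lit 90134) (nat_lit 9) (.e (nat_lit 2828) (nat_lit 182) (.e (nat_lit 409646) (nat_lit 18) (.e (nat_lit 303117) (nat_lit 2) (.e (nat_lit 196624) (nat_lit 9) .nil))))))) (.g (nat_lit 1) (.e (nat_lit 98219) (nat_lit 0) .nil) .nil))) 
(.lf (nat_lit 475887) (.g (nat_lit 2390) (.e (nat_lit 1788) (nat_lit 119) (.e (nat_lit 516116) (nat_lit 1) (.e (nat_lit 164332) (nat_lit 230) (.e (nat_lit 163943) (nat_lit 19) (.e (nat_lit 483341) (nat_lit 9) (.e (nat_lit 426197) (nat_lit 9) (.e (nat_lit 426402) (nat_lit 15) .nil))))))) (.g (nat_lit 1) (.e (nat_lit 99761) (nat_lit 0) .nil) .nil)))) (.nd (nat_lit 9) 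
(.lf (nat_lit 475631) (.g (nat_lit 2473) (.e (nat_lit 7936) (nat_lit 121) (.e (nat_lit 532544) (nat_lit 10) (.e (nat_lit 344133) (nat_lit 26) (.e (nat_lit 557098) (nat_lit 13) (.e (nat_lit 172066) (nat_lit 3) .nil))))) (.g (nat_lit 0) (.e (nat_lit 99295) (nat_lit 0) .nil) .nil))) 
(.lf (nat_lit 476143) (.g (nat_lit 2195) (.e (nat_lit 1792) (nat_lit 119) (.e (nat_lit 516115) (nat_lit 1) (.e (nat_lit 164399) (nat_lit 256) (.e (nat_lit 57378) (nat_lit 3) (.e (nat_lit 98376) (nat_lit 30) .nil))))) (.g (nat_lit 0) (.e (nat_lit 100101) (nat_lit 0) .nil) .nil)))))))) (.nd (nat_lit 5) (.nd (nat_lit 6) (.nd (nat_lit 7) (.nd (nat_lit 8) (.nd (nat_lit 9) 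
(.lf (nat_lit 475167) (.g (nat_lit 2837) (.e (nat_lit 1426) (nat_lit 108) (.e (nat_lit 336443) (nat_lit 32) (.e (nat_lit 466969) (nat_lit 21) (.e (nat_lit 164347) (nat_lit 240) (.e (nat_lit 2638) (nat_lit 165) (.e (nat_lit 180277) (nat_lit 32) .nil)))))) (.g (nat_lit 1) (.e (nat_lit 97354) (nat_lit 0) .nil) .nil))) 
(.lf (nat_lit 475679) (.g (nat_lit 2741) (.e (nat_lit 1781) (nat_lit 119) (.e (nat_lit 516119) (nat_lit 1) (.e (nat_lit 164403) (nat_lit 256) (.e (nat_lit 57378) (nat_lit 3) (.e (nat_lit 98366) (nat_lit 27) .nil))))) (.g (nat_lit 0) (.e (nat_lit 99419) (nat_lit 0) .nil) .nil)))) (.nd (nat_lit 9) 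
(.lf (nat_lit 475423) (.g (nat_lit 3837) (.e (nat_lit 1642) (nat_lit 114) (.e (nat_lit 385074) (nat_lit 31) (.e (nat_lit 573493) (nat_lit 15) (.e (nat_lit 81953) (nat_lit 22) (.e (nat_lit 90133) (nat_lit 9) (.e (nat_lit 2397) (nat_lit 157) (.e (nat_lit 7489) (nat_lit 402) .nil))))))) (.g (nat_lit 1) (.e (nat_lit 98398) (nat_lit 0) .nil) .nil))) 
(.lf (nat_lit 475935) (.g (nat_lit 2301) (.e (nat_lit 1788) (nat_lit 119) (.e (nat_lit 516139) (nat_lit 7) (.e (nat_lit 409646) (nat_lit 18) (.e (nat_lit 303118) (nat_lit 3) (.e (nat_lit 204866) (nat_lit 28) .nil))))) (.g (nat_lit 0) (.e (nat_lit 99831) (nat_lit 0) .nil) .nil))))) (.nd (nat_lit 8) (.nd (nat_lit 9) 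
(.lf (nat_lit 475295) (.g (nat_lit 1876) (.e (nat_lit 1515) (nat_lit 108) (.e (nat_lit 336420) (nat_lit 28) (.e (nat_lit 434181) (nat_lit 0) (.e (nat_lit 1427) (nat_lit 108) (.e (nat_lit 336421) (nat_lit 28) (.e (nat_lit 434179) (nat_lit 0) .nil)))))) (.g (nat_lit 1) (.e (nat_lit 97862) (nat_lit 0) .nil) .nil))) 
(.lf (nat_lit 475807) (.g (nat_lit 1843) (.e (nat_lit 1784) (nat_lit 119) (.e (nat_lit 516139) (nat_lit 7) (.e (nat_lit 409645) (nat_lit 18) (.e (nat_lit 303117) (nat_lit 2) .nil)))) (.g (nat_lit 0) (.e (nat_lit 99641) (nat_lit 0) .nil) .nil)))) (.nd (nat_lit 9) 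
(.lf (nat_lit 475551) (.g (nat_lit 6472) (.e (nat_lit 1673) (nat_lit 116) (.e (nat_lit 401448) (nat_lit 10) (.e (nat_lit 434238) (nat_lit 25) (.e (nat_lit 548913) (nat_lit 18) (.e (nat_lit 172094) (nat_lit 9) (.e (nat_lit 426125) (nat_lit 2) (.e (nat_lit 196632) (nat_lit 9) .nil))))))) (.g (nat_lit 1) (.e (nat_lit 98893) (nat_lit 0) .nil) .nil))) 
(.lf (nat_lit 476063) (.g (nat_lit 1149) (.e (nat_lit 1788) (nat_lit 119) (.e (nat_lit 516165) (nat_lit 12) (.e (nat_lit 450586) (nat_lit 10) (.e (nat_lit 573470) (nat_lit 11) .nil)))) (.g (nat_lit 0) (.e (nat_lit 99987) (nat_lit 0) .nil) .nil)))))) (.nd (nat_lit 7) (.nd (nat_lit 8) (.nd (nat_lit 9) 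
(.lf (nat_lit 475231) (.g (nat_lit 4482) (.e (nat_lit 1443) (nat_lit 108) (.e (nat_lit 336099) (nat_lit 9) (.e (nat_lit 336013) (nat_lit 2) (.e (nat_lit 90134) (nat_lit 9) (.e (nat_lit 2828) (nat_lit 182) (.e (nat_lit 409646) (nat_lit 18) (.e (nat_lit 303117) (nat_lit 2) (.e (nat_lit 196630) (nat_lit 9) .nil)))))))) (.g (nat_lit 1) (.e (nat_lit 97600) (nat_lit 0) .nil) .nil))) 
(.lf (nat_lit 475743) (.g (nat_lit 1875) (.e (nat_lit 1782) (nat_lit 119) (.e (nat_lit 516127) (nat_lit 2) (.e (nat_lit 213032) (nat_lit 11) (.e (nat_lit 24608) (nat_lit 3) (.e (nat_lit 98380) (nat_lit 31) (.e (nat_lit 466945) (nat_lit 0) .nil)))))) (.g (nat_lit 1) (.e (nat_lit 99513) (nat_lit 0) .nil) .nil)))) (.nd (nat_lit 9) 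
(.lf (nat_lit 475487) (.g (nat_lit 4039) (.e (nat_lit 1669) (nat_lit 116) (.e (nat_lit 401451) (nat_lit 12) (.e (nat_lit 475185) (nat_lit 29) (.e (nat_lit 557097) (nat_lit 13) .nil)))) (.g (nat_lit 0) (.e (nat_lit 98752) (nat_lit 0) .nil) .nil))) 
(.lf (nat_lit 475999) (.g (nat_lit 3005) (.e (nat_lit 1788) (nat_lit 119) (.e (nat_lit 516139) (nat_lit 7) (.e (nat_lit 409649) (nat_lit 18) (.e (nat_lit 303117) (nat_lit 2) (.e (nat_lit 196666) (nat_lit 13) (.e (nat_lit 65592) (nat_lit 9) (.e (nat_lit 335886) (nat_lit 0) .nil))))))) (.g (nat_lit 1) (.e (nat_lit 99900) (nat_lit 0) .nil) .nil))))) (.nd (nat_lit 8) (.nd (nat_lit 9) 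
(.lf (nat_lit 475359) (.g (nat_lit 3272) (.e (nat_lit 1587) (nat_lit 111) (.e (nat_lit 360475) (nat_lit 8) (.e (nat_lit 557091) (nat_lit 12) (.e (nat_lit 164022) (nat_lit 46) (.e (nat_lit 704629) (nat_lit 9) (.e (nat_lit 452) (nat_lit 33) (.e (nat_lit 434219) (nat_lit 19) (.e (nat_lit 499985) (nat_lit 14) .nil)))))))) (.g (nat_lit 1) (.e (nat_lit 98172) (nat_lit 0) .nil) .nil))) 
(.lf (nat_lit 475871) (.g (nat_lit 3896) (.e (nat_lit 1788) (nat_lit 119) (.e (nat_lit 516115) (nat_lit 1) (.e (nat_lit 164325) (nat_lit 230) (.e (nat_lit 163905) (nat_lit 12) (.e (nat_lit 426566) (nat_lit 34) (.e (nat_lit 393273) (nat_lit 23) (.e (nat_lit 426364) (nat_lit 15) .nil))))))) (.g (nat_lit 1) (.e (nat_lit 99730) (nat_lit 0) .nil) .nil)))) (.nd (nat_lit 9) 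
(.lf (nat_lit 475615) (.g (nat_lit 2781) (.e (nat_lit 7936) (nat_lit 121) (.e (nat_lit 532544) (nat_lit 10) (.e (nat_lit 344129) (nat_lit 26) (.e (nat_lit 557067) (nat_lit 9) (.e (nat_lit 2878) (nat_lit 184) .nil))))) (.g (nat_lit 0) (.e (nat_lit 99279) (nat_lit 0) .nil) .nil))) 
(.lf (nat_lit 476127) (.g (nat_lit 1986) (.e (nat_lit 1791) (nat_lit 119) (.e (nat_lit 516115) (nat_lit 1) (.e (nat_lit 164399) (nat_lit 256) (.e (nat_lit 57375) (nat_lit 2) (.e (nat_lit 90174) (nat_lit 14) .nil))))) (.g (nat_lit 0) (.e (nat_lit 100079) (nat_lit 0) .nil) .nil))))))) (.nd (nat_lit 6) (.nd (nat_lit 7) (.nd (nat_lit 8) (.nd (nat_lit 9) 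
(.lf (nat_lit 475199) (.g (nat_lit 2057) (.e (nat_lit 1428) (nat_lit 108) (.e (nat_lit 336432) (nat_lit 30) (.e (nat_lit 450565) (nat_lit 0) (.e (nat_lit 5548) (nat_lit 306) (.e (nat_lit 2639) (nat_lit 165) (.e (nat_lit 180277) (nat_lit 32) .nil)))))) (.g (nat_lit 1) (.e (nat_lit 97528) (nat_lit 0) .nil) .nil))) 
(.lf (nat_lit 475711) (.g (nat_lit 4885) (.e (nat_lit 1781) (nat_lit 119) (.e (nat_lit 516166) (nat_lit 12) (.e (nat_lit 450587) (nat_lit 10) (.e (nat_lit 573472) (nat_lit 12) .nil)))) (.g (nat_lit 0) (.e (nat_lit 99462) (nat_lit 0) .nil) .nil)))) (.nd (nat_lit 9) 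
(.lf (nat_lit 475455) (.g (nat_lit 2022) (.e (nat_lit 1659) (nat_lit 115) (.e (nat_lit 393281) (nat_lit 23) (.e (nat_lit 426107) (nat_lit 1) (.e (nat_lit 164348) (nat_lit 240) (.e (nat_lit 2640) (nat_lit 165) .nil))))) (.g (nat_lit 0) (.e (nat_lit 98484) (nat_lit 0) .nil) .nil))) 
(.lf (nat_lit 475967) (.g (nat_lit 2554) (.e (nat_lit 1788) (nat_lit 119) (.e (nat_lit 516139) (nat_lit 7) (.e (nat_lit 409648) (nat_lit 18) (.e (nat_lit 303117) (nat_lit 2) (.e (nat_lit 196666) (nat_lit 13) (.e (nat_lit 65596) (nat_lit 9) (.e (nat_lit 335925) (nat_lit 0) .nil))))))) (.g (nat_lit 1) (.e (nat_lit 99863) (nat_lit 0) .nil) .nil))))) (.nd (nat_lit 8) (.nd (nat_lit 9) 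
(.lf (nat_lit 475327) (.g (nat_lit 2223) (.e (nat_lit 1586) (nat_lit 111) (.e (nat_lit 360450) (nat_lit 0) (.e (nat_lit 7936) (nat_lit 415) (.e (nat_lit 229415) (nat_lit 15) (.e (nat_lit 450584) (nat_lit 9) (.e (nat_lit 565252) (nat_lit 0) .nil)))))) (.g (nat_lit 1) (.e (nat_lit 98129) (nat_lit 0) .nil) .nil))) 
(.lf (nat_lit 475839) (.g (nat_lit 4912) (.e (nat_lit 1787) (nat_lit 119) (.e (nat_lit 516166) (nat_lit 12) (.e (nat_lit 450587) (nat_lit 10) (.e (nat_lit 573477) (nat_lit 12) (.e (nat_lit 57574) (nat_lit 55) .nil))))) (.g (nat_lit 0) (.e (nat_lit 99685) (nat_lit 0) .nil) .nil)))) (.nd (nat_lit 9) 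
(.lf (nat_lit 475583) (.g (nat_lit 3134) (.e (nat_lit 1675) (nat_lit 116) (.e (nat_lit 401456) (nat_lit 13) (.e (nat_lit 483363) (nat_lit 18) (.e (nat_lit 57688) (nat_lit 156) (.e (nat_lit 163917) (nat_lit 13) .nil))))) (.g (nat_lit 0) (.e (nat_lit 98945) (nat_lit 0) .nil) .nil))) 
(.lf (nat_lit 476095) (.g (nat_lit 3619) (.e (nat_lit 1788) (nat_lit 119) (.e (nat_lit 516166) (nat_lit 12) (.e (nat_lit 450588) (nat_lit 10) (.e (nat_lit 573477) (nat_lit 12) .nil)))) (.g (nat_lit 0) (.e (nat_lit 100019) (nat_lit 0) .nil) .nil)))))) (.nd (nat_lit 7) (.nd (nat_lit 8) (.nd (nat_lit 9) 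
(.lf (nat_lit 475263) (.g (nat_lit 2010) (.e (nat_lit 1454) (nat_lit 108) (.e (nat_lit 336295) (nat_lit 15) (.e (nat_lit 3305) (nat_lit 202) (.e (nat_lit 573493) (nat_lit 15) .nil)))) (.g (nat_lit 0) (.e (nat_lit 97688) (nat_lit 0) .nil) .nil))) 
(.lf (nat_lit 475775) (.g (nat_lit 894) (.e (nat_lit 1786) (nat_lit 119) (.e (nat_lit 516124) (nat_lit 2) (.e (nat_lit 213030) (nat_lit 11) (.e (nat_lit 24609) (nat_lit 3) (.e (nat_lit 98380) (nat_lit 31) .nil))))) (.g (nat_lit 0) (.e (nat_lit 99583) (nat_lit 0) .nil) .nil)))) (.nd (nat_lit 9) 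
(.lf (nat_lit 475519) (.g (nat_lit 1693) (.e (nat_lit 1673) (nat_lit 116) (.e (nat_lit 401446) (nat_lit 10) (.e (nat_lit 434238) (nat_lit 25) (.e (nat_lit 548898) (nat_lit 14) .nil)))) (.g (nat_lit 0) (.e (nat_lit 98858) (nat_lit 0) .nil) .nil))) 
(.lf (nat_lit 476031) (.g (nat_lit 2731) (.e (nat_lit 1788) (nat_lit 119) (.e (nat_lit 516151) (nat_lit 9) (.e (nat_lit 426285) (nat_lit 10) (.e (nat_lit 434247) (nat_lit 28) (.e (nat_lit 573469) (nat_lit 11) .nil))))) (.g (nat_lit 0) (.e (nat_lit 99940) (nat_lit 0) .nil) .nil))))) (.nd (nat_lit 8) (.nd (nat_lit 9) 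
(.lf (nat_lit 475391) (.g (nat_lit 3002) (.e (nat_lit 1636) (nat_lit 114) (.e (nat_lit 385074) (nat_lit 31) (.e (nat_lit 573484) (nat_lit 13) (.e (nat_lit 65617) (nat_lit 10) .nil)))) (.g (nat_lit 0) (.e (nat_lit 98290) (nat_lit 0) .nil) .nil))) 
(.lf (nat_lit 475903) (.g (nat_lit 3511) (.e (nat_lit 1788) (nat_lit 119) (.e (nat_lit 516138) (nat_lit 7) (.e (nat_lit 409645) (nat_lit 18) (.e (nat_lit 303117) (nat_lit 2) (.e (nat_lit 196673) (nat_lit 15) (.e (nat_lit 81941) (nat_lit 20) .nil)))))) (.g (nat_lit 1) (.e (nat_lit 99790) (nat_lit 0) .nil) .nil)))) (.nd (nat_lit 9) 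
(.lf (nat_lit 475647) (.g (nat_lit 1784) (.e (nat_lit 1778) (nat_lit 119) (.e (nat_lit 516139) (nat_lit 7) (.e (nat_lit 409646) (nat_lit 18) (.e (nat_lit 303117) (nat_lit 2) .nil)))) (.g (nat_lit 0) (.e (nat_lit 99377) (nat_lit 0) .nil) .nil))) 
(.lf (nat_lit 476159) (.g (nat_lit 3562) (.e (nat_lit 1794) (nat_lit 119) (.e (nat_lit 516115) (nat_lit 1) (.e (nat_lit 164325) (nat_lit 230) (.e (nat_lit 163904) (nat_lit 12) .nil)))) (.g (nat_lit 0) (.e (nat_lit 100126) (nat_lit 0) .nil) .nil)))))))))))))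


end

end Pool.Agent.Lib.MP_5854e1_co.Cz
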