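import Pool.Agent.Lib.MP_5854e1_co.DtD

/-!
# Windows and cells of the rings
-/

set_option autoImplicit false
set_option maxRecDepth 100000
set_option deprecated.oldSectionVars true

namespace Pool.Agent.Lib.MP_5854e1_co.Cz

open Pool.Agent.Lib.MP_5854e1_co

noncomputable section

noncomputable def tv5525 : DT := (.nd (nat_lit 0) (.nd (nat_lit 1) (.nd (nat_lit 2) (.nd (nat_lit 3) (.nd (nat_lit 4) (.nd (nat_lit 5) (.nd (nat_lit 6) (.nd (nat_lit 7) (.nd (nat_lit 8) (.nd (nat_lit 9) 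
(.lf (nat_lit 476160) (.g (nat_lit 2084) (.e (nat_lit 1794) (nat_lit 119) (.e (nat_lit 516115) (nat_lit 1) (.e (nat_lit 164399) (nat_lit 256) (.e (nat_lit 57372) (nat_lit 2) (.e (nat_lit 90174) (nat_lit 14) .nil))))) (.g (nat_lit 0) (.e (nat_lit 100128) (nat_lit 0) .nil) .nil))) 
(.lf (nat_lit 476672) (.g (nat_lit 2512) (.e (nat_lit 1800) (nat_lit 119) (.e (nat_lit 516182) (nat_lit 15) (.e (nat_lit 475198) (nat_lit 40) (.e (nat_lit 704589) (nat_lit 3) (.e (nat_lit 163976) (nat_lit 30) (.e (nat_lit 573491) (nat_lit 15) (.e (nat_lit 89856) (nat_lit 20) .nil))))))) (.g (nat_lit 1) (.e (nat_lit 100865) (nat_lit 0) .nil) .nil)))) (.nd (nat_lit 9) 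
(.lf (nat_lit 476416) (.g (nat_lit 1798) (.e (nat_lit 1799) (nat_lit 119) (.e (nat_lit 516142) (nat_lit 8) (.e (nat_lit 417813) (nat_lit 9) (.e (nat_lit 311315) (nat_lit 3) (.e (nat_lit 204846) (nat_lit 24) (.e (nat_lit 327424) (nat_lit 16) (.e (nat_lit 286727) (nat_lit 0) .nil))))))) (.g (nat_lit 1) (.e (nat_lit 100508) (nat_lit 0) .nil) .nil))) 
(.lf (nat_lit 476928) (.g (nat_lit 3407) (.e (nat_lit 1848) (nat_lit 124) (.e (nat_lit 557097) (nat_lit 13) (.e (nat_lit 172115) (nat_lit 10) (.e (nat_lit 434244) (nat_lit 28) (.e (nat_lit 573449) (nat_lit 9) (.e (nat_lit 430) (nat_lit 32) (.e (nat_lit 426190) (nat_lit 9) (.e (nat_lit 426402) (nat_lit 15) .nil)))))))) (.g (nat_lit 1) (.e (nat_lit 101623) (nat_lit 0) .nil) .nil))))) 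
(.nd (nat_lit 8) (.nd (nat_lit 9) 
(.lf (nat_lit 476288) (.g (nat_lit 2530) (.e (nat_lit 1796) (nat_lit 119) (.e (nat_lit 516139) (nat_lit 7) (.e (nat_lit 409645) (nat_lit 18) (.e (nat_lit 303119) (nat_lit 3) (.e (nat_lit 204859) (nat_lit 26) .nil))))) (.g (nat_lit 0) (.e (nat_lit 100329) (nat_lit 0) .nil) .nil))) 
(.lf (nat_lit 476800) (.g (nat_lit 1406) (.e (nat_lit 1812) (nat_lit 120) (.e (nat_lit 524322) (nat_lit 12) (.e (nat_lit 450587) (nat_lit 10) (.e (nat_lit 573478) (nat_lit 12) (.e (nat_lit 57351) (nat_lit 0) .nil))))) (.g (nat_lit 0) (.e (nat_lit 101048) (nat_lit 0) .nil) .nil)))) (.nd (nat_lit 9) 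
(.lf (nat_lit 476544) (.g (nat_lit 2495) (.e (nat_lit 1800) (nat_lit 119) (.e (nat_lit 516119) (nat_lit 1) (.e (nat_lit 164347) (nat_lit 240) (.e (nat_lit 2601) (nat_lit 163) (.e (nat_lit 163962) (nat_lit 25) (.e (nat_lit 532544) (nat_lit 10) (.e (nat_lit 344132) (nat_lit 26) (.e (nat_lit 557101) (nat_lit 13) (.e (nat_lit 172136) (nat_lit 15) .nil))))))))) (.g (nat_lit 1) (.e (nat_lit 100692) (nat_lit 0) .nil) .nil))) 
(.lf (nat_lit 477056) (.g (nat_lit 2228) (.e (nat_lit 1853) (nat_lit 124) (.e (nat_lit 557097) (nat_lit 13) (.e (nat_lit 172115) (nat_lit 10) (.e (nat_lit 434244) (nat_lit 28) (.e (nat_lit 573450) (nat_lit 9) (.e (nat_lit 459) (nat_lit 34) (.e (nat_lit 450304) (nat_lit 0) .nil))))))) (.g (nat_lit 1) (.e (nat_lit 101775) (nat_lit 0) .nil) .nil)))))) 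
(.nd (nat_lit 7) (.nd (nat_lit 8) (.nd (nat_lit 9) 
(.lf (nat_lit 476224) (.g (nat_lit 2845) (.e (nat_lit 1795) (nat_lit 119) (.e (nat_lit 516119) (nat_lit 1) (.e (nat_lit 164403) (nat_lit 256) (.e (nat_lit 57373) (nat_lit 2) (.e (nat_lit 90167) (nat_lit 13) .nil))))) (.g (nat_lit 0) (.e (nat_lit 100211) (nat_lit 0) .nil) .nil))) 
(.lf (nat_lit 476736) (.g (nat_lit 1317) (.e (nat_lit 1802) (nat_lit 119) (.e (nat_lit 516120) (nat_lit 1) (.e (nat_lit 164329) (nat_lit 230) .nil))) (.g (nat_lit 0) (.e (nat_lit 100960) (nat_lit 0) .nil) .nil)))) (.nd (nat_lit 9) 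
(.lf (nat_lit 476480) (.g (nat_lit 2523) (.e (nat_lit 1800) (nat_lit 119) (.e (nat_lit 516115) (nat_lit 1) (.e (nat_lit 164399) (nat_lit 256) (.e (nat_lit 57377) (nat_lit 3) (.e (nat_lit 98357) (nat_lit 26) .nil))))) (.g (nat_lit 0) (.e (nat_lit 100618) (nat_lit 0) .nil) .nil))) 
(.lf (nat_lit 476992) (.g (nat_lit 2726) (.e (nat_lit 1849) (nat_lit 124) (.e (nat_lit 557097) (nat_lit 13) (.e (nat_lit 172097) (nat_lit 9) (.e (nat_lit 426125) (nat_lit 2) (.e (nat_lit 196661) (nat_lit 12) (.e (nat_lit 57749) (nat_lit 201) (.e (nat_lit 2940) (nat_lit 184) (.e (nat_lit 433920) (nat_lit 15) .nil)))))))) (.g (nat_lit 1) (.e (nat_lit 101696) (nat_lit 0) .nil) .nil))))) 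
(.nd (nat_lit 8) (.nd (nat_lit 9) 
(.lf (nat_lit 476352) (.g (nat_lit 1159) (.e (nat_lit 1798) (nat_lit 119) (.e (nat_lit 516127) (nat_lit 2) (.e (nat_lit 213032) (nat_lit 11) (.e (nat_lit 24609) (nat_lit 3) (.e (nat_lit 98380) (nat_lit 31) (.e (nat_lit 466947) (nat_lit 0) .nil)))))) (.g (nat_lit 1) (.e (nat_lit 100424) (nat_lit 0) .nil) .nil))) 
(.lf (nat_lit 476864) (.g (nat_lit 4121) (.e (nat_lit 1846) (nat_lit 124) (.e (nat_lit 557109) (nat_lit 15) (.e (nat_lit 188452) (nat_lit 23) (.e (nat_lit 204880) (nat_lit 32) .nil)))) (.g (nat_lit 0) (.e (nat_lit 101491) (nat_lit 0) .nil) .nil)))) (.nd (nat_lit 9) 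
(.lf (nat_lit 476608) (.g (nat_lit 3402) (.e (nat_lit 1800) (nat_lit 119) (.e (nat_lit 516120) (nat_lit 1) (.e (nat_lit 164403) (nat_lit 256) (.e (nat_lit 57378) (nat_lit 3) (.e (nat_lit 98368) (nat_lit 27) (.e (nat_lit 434231) (nat_lit 23) (.e (nat_lit 532514) (nat_lit 3) (.e (nat_lit 114708) (nat_lit 20) .nil)))))))) (.g (nat_lit 1) (.e (nat_lit 100766) (nat_lit 0) .nil) .nil))) 
(.lf (nat_lit 477120) (.g (nat_lit 2922) (.e (nat_lit 1853) (nat_lit 124) (.e (nat_lit 557108) (nat_lit 15) (.e (nat_lit 188452) (nat_lit 23) (.e (nat_lit 204852) (nat_lit 26) (.e (nat_lit 336327) (nat_lit 19) .nil))))) (.g (nat_lit 0) (.e (nat_lit 101840) (nat_lit 0) .nil) .nil))))))) (.nd (nat_lit 6) (.nd (nat_lit 7) (.nd (nat_lit 8) (.nd (nat_lit 9) 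
(.lf (nat_lit 476192) (.g (nat_lit 2306) (.e (nat_lit 1805) (nat_lit 119) (.e (nat_lit 516120) (nat_lit 1) (.e (nat_lit 164329) (nat_lit 230) (.e (nat_lit 163902) (nat_lit 12) (.e (nat_lit 426568) (nat_lit 34) .nil))))) (.g (nat_lit 0) (.e (nat_lit 100175) (nat_lit 0) .nil) .nil))) 
(.lf (nat_lit 476704) (.g (nat_lit 1437) (.e (nat_lit 1801) (nat_lit 119) (.e (nat_lit 516139) (nat_lit 7) (.e (nat_lit 409648) (nat_lit 18) (.e (nat_lit 303119) (nat_lit 3) .nil)))) (.g (nat_lit 0) (.e (nat_lit 100918) (nat_lit 0) .nil) .nil)))) (.nd (nat_lit 9) 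
(.lf (nat_lit 476448) (.g (nat_lit 2037) (.e (nat_lit 1800) (nat_lit 119) (.e (nat_lit 516115) (nat_lit 1) (.e (nat_lit 164325) (nat_lit 230) (.e (nat_lit 163903) (nat_lit 12) (.e (nat_lit 426568) (nat_lit 34) .nil))))) (.g (nat_lit 0) (.e (nat_lit 100563) (nat_lit 0) .nil) .nil))) 
(.lf (nat_lit 476960) (.g (nat_lit 2290) (.e (nat_lit 1848) (nat_lit 124) (.e (nat_lit 557108) (nat_lit 15) (.e (nat_lit 188449) (nat_lit 22) (.e (nat_lit 196661) (nat_lit 12) (.e (nat_lit 57748) (nat_lit 201) (.e (nat_lit 2941) (nat_lit 184) (.e (nat_lit 426401) (nat_lit 15) .nil))))))) (.g (nat_lit 1) (.e (nat_lit 101655) (nat_lit 0) .nil) .nil))))) (.nd (nat_lit 8) (.nd (nat_lit 9) 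
(.lf (nat_lit 476320) (.g (nat_lit 2376) (.e (nat_lit 1797) (nat_lit 119) (.e (nat_lit 516117) (nat_lit 1) (.e (nat_lit 164399) (nat_lit 256) (.e (nat_lit 57373) (nat_lit 2) (.e (nat_lit 90174) (nat_lit 14) .nil))))) (.g (nat_lit 0) (.e (nat_lit 100380) (nat_lit 0) .nil) .nil))) 
(.lf (nat_lit 476832) (.g (nat_lit 1482) (.e (nat_lit 7936) (nat_lit 126) (.e (nat_lit 573489) (nat_lit 14) (.e (nat_lit 73754) (nat_lit 8) (.e (nat_lit 557095) (nat_lit 13) .nil)))) (.g (nat_lit 0) (.e (nat_lit 101397) (nat_lit 0) .nil) .nil)))) (.nd (nat_lit 9) 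
(.lf (nat_lit 476576) (.g (nat_lit 2487) (.e (nat_lit 1800) (nat_lit 119) (.e (nat_lit 516120) (nat_lit 1) (.e (nat_lit 164330) (nat_lit 230) (.e (nat_lit 163902) (nat_lit 12) (.e (nat_lit 426479) (nat_lit 27) (.e (nat_lit 336426) (nat_lit 29) (.e (nat_lit 442374) (nat_lit 0) .nil))))))) (.g (nat_lit 1) (.e (nat_lit 100731) (nat_lit 0) .nil) .nil))) 
(.lf (nat_lit 477088) (.g (nat_lit 1836) (.e (nat_lit 1853) (nat_lit 124) (.e (nat_lit 557101) (nat_lit 13) (.e (nat_lit 172115) (nat_lit 10) (.e (nat_lit 434244) (nat_lit 28) (.e (nat_lit 573449) (nat_lit 9) (.e (nat_lit 457) (nat_lit 34) (.e (nat_lit 450304) (nat_lit 0) .nil))))))) (.g (nat_lit 1) (.e (nat_lit 101807) (nat_lit 0) .nil) .nil)))))) 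
(.nd (nat_lit 7) (.nd (nat_lit 8) (.nd (nat_lit 9) 
(.lf (nat_lit 476256) (.g (nat_lit 4460) (.e (nat_lit 1796) (nat_lit 119) (.e (nat_lit 516115) (nat_lit 1) (.e (nat_lit 164325) (nat_lit 230) (.e (nat_lit 163903) (nat_lit 12) (.e (nat_lit 426566) (nat_lit 34) (.e (nat_lit 393273) (nat_lit 23) (.e (nat_lit 426392) (nat_lit 15) .nil))))))) (.g (nat_lit 1) (.e (nat_lit 100263) (nat_lit 0) .nil) .nil))) 
(.lf (nat_lit 476768) (.g (nat_lit 2570) (.e (nat_lit 1803) (nat_lit 119) (.e (nat_lit 516119) (nat_lit 1) (.e (nat_lit 164403) (nat_lit 256) (.e (nat_lit 57378) (nat_lit 3) (.e (nat_lit 98376) (nat_lit 30) .nil))))) (.g (nat_lit 0) (.e (nat_lit 100998) (nat_lit 0) .nil) .nil)))) (.nd (nat_lit 9) 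
(.lf (nat_lit 476512) (.g (nat_lit 2126) (.e (nat_lit 1800) (nat_lit 119) (.e (nat_lit 516117) (nat_lit 1) (.e (nat_lit 164398) (nat_lit 256) (.e (nat_lit 57379) (nat_lit 3) (.e (nat_lit 98355) (nat_lit 26) .nil))))) (.g (nat_lit 0) (.e (nat_lit 100657) (nat_lit 0) .nil) .nil))) 
(.lf (nat_lit 477024) (.g (nat_lit 2664) (.e (nat_lit 1849) (nat_lit 124) (.e (nat_lit 557108) (nat_lit 15) (.e (nat_lit 188449) (nat_lit 22) (.e (nat_lit 196661) (nat_lit 12) (.e (nat_lit 57751) (nat_lit 201) (.e (nat_lit 2855) (nat_lit 184) (.e (nat_lit 426402) (nat_lit 15) .nil))))))) (.g (nat_lit 1) (.e (nat_lit 101730) (nat_lit 0) .nil) .nil))))) (.nd (nat_lit 8) (.nd (nat_lit 9) 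
(.lf (nat_lit 476384) (.g (nat_lit 2594) (.e (nat_lit 1799) (nat_lit 119) (.e (nat_lit 516115) (nat_lit 1) (.e (nat_lit 164325) (nat_lit 230) (.e (nat_lit 163941) (nat_lit 19) (.e (nat_lit 483341) (nat_lit 9) .nil))))) (.g (nat_lit 0) (.e (nat_lit 100466) (nat_lit 0) .nil) .nil))) 
(.lf (nat_lit 476896) (.g (nat_lit 2904) (.e (nat_lit 1848) (nat_lit 124) (.e (nat_lit 557097) (nat_lit 13) (.e (nat_lit 172097) (nat_lit 9) (.e (nat_lit 426125) (nat_lit 2) (.e (nat_lit 196661) (nat_lit 12) (.e (nat_lit 57749) (nat_lit 201) (.e (nat_lit 2941) (nat_lit 184) (.e (nat_lit 426401) (nat_lit 15) .nil)))))))) (.g (nat_lit 1) (.e (nat_lit 101591) (nat_lit 0) .nil) .nil)))) 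
(.nd (nat_lit 9) 
(.lf (nat_lit 476640) (.g (nat_lit 1487) (.e (nat_lit 1800) (nat_lit 119) (.e (nat_lit 516139) (nat_lit 7) (.e (nat_lit 409648) (nat_lit 18) (.e (nat_lit 303107) (nat_lit 0) .nil)))) (.g (nat_lit 0) (.e (nat_lit 100804) (nat_lit 0) .nil) .nil))) 
(.lf (nat_lit 477152) (.g (nat_lit 2648) (.e (nat_lit 1855) (nat_lit 124) (.e (nat_lit 557098) (nat_lit 13) (.e (nat_lit 172115) (nat_lit 10) (.e (nat_lit 434244) (nat_lit 28) (.e (nat_lit 573458) (nat_lit 9) (.e (nat_lit 7936) (nat_lit 34) (.e (nat_lit 442372) (nat_lit 0) .nil))))))) (.g (nat_lit 1) (.e (nat_lit 101908) (nat_lit 0) .nil) .nil)))))))) 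
(.nd (nat_lit 5) (.nd (nat_lit 6) (.nd (nat_lit 7) (.nd (nat_lit 8) (.nd (nat_lit 9) 
(.lf (nat_lit 476176) (.g (nat_lit 2583) (.e (nat_lit 1793) (nat_lit 119) (.e (nat_lit 516179) (nat_lit 15) (.e (nat_lit 475177) (nat_lit 24) (.e (nat_lit 516150) (nat_lit 9) (.e (nat_lit 426438) (nat_lit 18) .nil))))) (.g (nat_lit 0) (.e (nat_lit 100156) (nat_lit 0) .nil) .nil))) 
(.lf (nat_lit 476688) (.g (nat_lit 1902) (.e (nat_lit 1801) (nat_lit 119) (.e (nat_lit 516120) (nat_lit 1) (.e (nat_lit 164329) (nat_lit 230) (.e (nat_lit 163942) (nat_lit 19) .nil)))) (.g (nat_lit 0) (.e (nat_lit 100889) (nat_lit 0) .nil) .nil)))) (.nd (nat_lit 9) 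
(.lf (nat_lit 476432) (.g (nat_lit 3296) (.e (nat_lit 1800) (nat_lit 119) (.e (nat_lit 516115) (nat_lit 1) (.e (nat_lit 164325) (nat_lit 230) (.e (nat_lit 163844) (nat_lit 0) (.e (nat_lit 3248) (nat_lit 197) (.e (nat_lit 532515) (nat_lit 3) (.e (nat_lit 114716) (nat_lit 22) (.e (nat_lit 90169) (nat_lit 13) (.e (nat_lit 172133) (nat_lit 15) .nil))))))))) (.g (nat_lit 1) (.e (nat_lit 100542) (nat_lit 0) .nil) .nil))) 
(.lf (nat_lit 476944) (.g (nat_lit 2209) (.e (nat_lit 1848) (nat_lit 124) (.e (nat_lit 557107) (nat_lit 15) (.e (nat_lit 188447) (nat_lit 22) (.e (nat_lit 196661) (nat_lit 12) (.e (nat_lit 57748) (nat_lit 201) (.e (nat_lit 2939) (nat_lit 184) (.e (nat_lit 426401) (nat_lit 15) .nil))))))) (.g (nat_lit 1) (.e (nat_lit 101639) (nat_lit 0) .nil) .nil))))) (.nd (nat_lit 8) (.nd (nat_lit 9) 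
(.lf (nat_lit 476304) (.g (nat_lit 2837) (.e (nat_lit 1796) (nat_lit 119) (.e (nat_lit 516166) (nat_lit 12) (.e (nat_lit 450588) (nat_lit 10) (.e (nat_lit 573475) (nat_lit 12) (.e (nat_lit 65280) (nat_lit 57) .nil))))) (.g (nat_lit 0) (.e (nat_lit 100362) (nat_lit 0) .nil) .nil))) 
(.lf (nat_lit 476816) (.g (nat_lit 1783) (.e (nat_lit 1842) (nat_lit 123) (.e (nat_lit 548889) (nat_lit 9) (.e (nat_lit 65628) (nat_lit 14) (.e (nat_lit 401418) (nat_lit 0) .nil)))) (.g (nat_lit 0) (.e (nat_lit 101135) (nat_lit 0) .nil) .nil)))) (.nd (nat_lit 9) 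
(.lf (nat_lit 476560) (.g (nat_lit 4286) (.e (nat_lit 1800) (nat_lit 119) (.e (nat_lit 516120) (nat_lit 1) (.e (nat_lit 164305) (nat_lit 226) (.e (nat_lit 2612) (nat_lit 163) (.e (nat_lit 163979) (nat_lit 30) (.e (nat_lit 573489) (nat_lit 14) (.e (nat_lit 73755) (nat_lit 8) (.e (nat_lit 557097) (nat_lit 13) (.e (nat_lit 172133) (nat_lit 15) .nil))))))))) (.g (nat_lit 1) (.e (nat_lit 100712) (nat_lit 0) .nil) .nil))) 
(.lf (nat_lit 477072) (.g (nat_lit 3164) (.e (nat_lit 1853) (nat_lit 124) (.e (nat_lit 557100) (nat_lit 13) (.e (nat_lit 172113) (nat_lit 10) (.e (nat_lit 434245) (nat_lit 28) (.e (nat_lit 573450) (nat_lit 9) (.e (nat_lit 457) (nat_lit 34) (.e (nat_lit 450304) (nat_lit 0) .nil))))))) (.g (nat_lit 1) (.e (nat_lit 101791) (nat_lit 0) .nil) .nil)))))) 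
(.nd (nat_lit 7) (.nd (nat_lit 8) (.nd (nat_lit 9) 
(.lf (nat_lit 476240) (.g (nat_lit 2871) (.e (nat_lit 1795) (nat_lit 119) (.e (nat_lit 516131) (nat_lit 3) (.e (nat_lit 221215) (nat_lit 23) (.e (nat_lit 204861) (nat_lit 26) (.e (nat_lit 336025) (nat_lit 3) .nil))))) (.g (nat_lit 0) (.e (nat_lit 100228) (nat_lit 0) .nil) .nil))) 
(.lf (nat_lit 476752) (.g (nat_lit 3105) (.e (nat_lit 1802) (nat_lit 119) (.e (nat_lit 516179) (nat_lit 15) (.e (nat_lit 475199) (nat_lit 40) (.e (nat_lit 704589) (nat_lit 3) (.e (nat_lit 163976) (nat_lit 30) (.e (nat_lit 573491) (nat_lit 15) (.e (nat_lit 81942) (nat_lit 20) .nil))))))) (.g (nat_lit 1) (.e (nat_lit 100980) (nat_lit 0) .nil) .nil)))) (.nd (nat_lit 9) 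
(.lf (nat_lit 476496) (.g (nat_lit 2968) (.e (nat_lit 1800) (nat_lit 119) (.e (nat_lit 516117) (nat_lit 1) (.e (nat_lit 164330) (nat_lit 230) (.e (nat_lit 163941) (nat_lit 19) (.e (nat_lit 491264) (nat_lit 11) (.e (nat_lit 442374) (nat_lit 0) .nil)))))) (.g (nat_lit 1) (.e (nat_lit 100640) (nat_lit 0) .nil) .nil))) 
(.lf (nat_lit 477008) (.g (nat_lit 2283) (.e (nat_lit 1849) (nat_lit 124) (.e (nat_lit 557098) (nat_lit 13) (.e (nat_lit 172115) (nat_lit 10) (.e (nat_lit 434231) (nat_lit 23) (.e (nat_lit 532568) (nat_lit 16) .nil))))) (.g (nat_lit 0) (.e (nat_lit 101712) (nat_lit 0) .nil) .nil))))) (.nd (nat_lit 8) (.nd (nat_lit 9) 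
(.lf (nat_lit 476368) (.g (nat_lit 5617) (.e (nat_lit 1798) (nat_lit 119) (.e (nat_lit 516166) (nat_lit 12) (.e (nat_lit 450587) (nat_lit 10) (.e (nat_lit 573475) (nat_lit 12) .nil)))) (.g (nat_lit 0) (.e (nat_lit 100442) (nat_lit 0) .nil) .nil))) 
(.lf (nat_lit 476880) (.g (nat_lit 771) (.e (nat_lit 1848) (nat_lit 124) (.e (nat_lit 557087) (nat_lit 11) (.e (nat_lit 24625) (nat_lit 9) .nil))) (.g (nat_lit 0) (.e (nat_lit 101553) (nat_lit 0) .nil) .nil)))) (.nd (nat_lit 9) 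
(.lf (nat_lit 476624) (.g (nat_lit 2489) (.e (nat_lit 1800) (nat_lit 119) (.e (nat_lit 516129) (nat_lit 3) (.e (nat_lit 221210) (nat_lit 22) (.e (nat_lit 196665) (nat_lit 13) (.e (nat_lit 65637) (nat_lit 15) (.e (nat_lit 3253) (nat_lit 197) (.e (nat_lit 532504) (nat_lit 1) (.e (nat_lit 57852) (nat_lit 252) (.e (nat_lit 57361) (nat_lit 0) .nil))))))))) (.g (nat_lit 1) (.e (nat_lit 100783) (nat_lit 0) .nil) .nil))) 
(.lf (nat_lit 477136) (.g (nat_lit 4536) (.e (nat_lit 1855) (nat_lit 124) (.e (nat_lit 557070) (nat_lit 9) (.e (nat_lit 2744) (nat_lit 174) (.e (nat_lit 253991) (nat_lit 11) (.e (nat_lit 16412) (nat_lit 2) (.e (nat_lit 196674) (nat_lit 15) (.e (nat_lit 81944) (nat_lit 20) .nil))))))) (.g (nat_lit 1) (.e (nat_lit 101863) (nat_lit 0) .nil) .nil))))))) 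
(.nd (nat_lit 6) (.nd (nat_lit 7) (.nd (nat_lit 8) (.nd (nat_lit 9) 
(.lf (nat_lit 476208) (.g (nat_lit 2093) (.e (nat_lit 1795) (nat_lit 119) (.e (nat_lit 516115) (nat_lit 1) (.e (nat_lit 164399) (nat_lit 256) (.e (nat_lit 57372) (nat_lit 2) (.e (nat_lit 90174) (nat_lit 14) .nil))))) (.g (nat_lit 0) (.e (nat_lit 100195) (nat_lit 0) .nil) .nil))) 
(.lf (nat_lit 476720) (.g (nat_lit 4751) (.e (nat_lit 1801) (nat_lit 119) (.e (nat_lit 516166) (nat_lit 12) (.e (nat_lit 450588) (nat_lit 10) (.e (nat_lit 573473) (nat_lit 12) .nil)))) (.g (nat_lit 0) (.e (nat_lit 100936) (nat_lit 0) .nil) .nil)))) (.nd (nat_lit 9) 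
(.lf (nat_lit 476464) (.g (nat_lit 2436) (.e (nat_lit 1800) (nat_lit 119) (.e (nat_lit 516115) (nat_lit 1) (.e (nat_lit 164325) (nat_lit 230) (.e (nat_lit 163907) (nat_lit 12) (.e (nat_lit 426568) (nat_lit 34) (.e (nat_lit 393279) (nat_lit 23) (.e (nat_lit 426419) (nat_lit 15) .nil))))))) (.g (nat_lit 1) (.e (nat_lit 100580) (nat_lit 0) .nil) .nil))) 
(.lf (nat_lit 476976) (.g (nat_lit 5781) (.e (nat_lit 1848) (nat_lit 124) (.e (nat_lit 557109) (nat_lit 15) (.e (nat_lit 188452) (nat_lit 23) (.e (nat_lit 204884) (nat_lit 33) .nil)))) (.g (nat_lit 0) (.e (nat_lit 101671) (nat_lit 0) .nil) .nil))))) (.nd (nat_lit 8) (.nd (nat_lit 9) 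
(.lf (nat_lit 476336) (.g (nat_lit 2877) (.e (nat_lit 1797) (nat_lit 119) (.e (nat_lit 516139) (nat_lit 7) (.e (nat_lit 409646) (nat_lit 18) (.e (nat_lit 303117) (nat_lit 2) (.e (nat_lit 196674) (nat_lit 15) .nil))))) (.g (nat_lit 0) (.e (nat_lit 100400) (nat_lit 0) .nil) .nil))) 
(.lf (nat_lit 476848) (.g (nat_lit 1745) (.e (nat_lit 1846) (nat_lit 124) (.e (nat_lit 557098) (nat_lit 13) (.e (nat_lit 172115) (nat_lit 10) (.e (nat_lit 434238) (nat_lit 25) (.e (nat_lit 548897) (nat_lit 14) .nil))))) (.g (nat_lit 0) (.e (nat_lit 101475) (nat_lit 0) .nil) .nil)))) (.nd (nat_lit 9) 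
(.lf (nat_lit 476592) (.g (nat_lit 2423) (.e (nat_lit 1800) (nat_lit 119) (.e (nat_lit 516120) (nat_lit 1) (.e (nat_lit 164330) (nat_lit 230) (.e (nat_lit 163941) (nat_lit 19) (.e (nat_lit 491264) (nat_lit 11) (.e (nat_lit 450304) (nat_lit 0) .nil)))))) (.g (nat_lit 1) (.e (nat_lit 100747) (nat_lit 0) .nil) .nil))) 
(.lf (nat_lit 477104) (.g (nat_lit 2117) (.e (nat_lit 1853) (nat_lit 124) (.e (nat_lit 557107) (nat_lit 15) (.e (nat_lit 188439) (nat_lit 20) (.e (nat_lit 3272) (nat_lit 199) (.e (nat_lit 548898) (nat_lit 14) (.e (nat_lit 2988) (nat_lit 186) (.e (nat_lit 450304) (nat_lit 0) .nil))))))) (.g (nat_lit 1) (.e (nat_lit 101824) (nat_lit 0) .nil) .nil)))))) 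
(.nd (nat_lit 7) (.nd (nat_lit 8) (.nd (nat_lit 9) 
(.lf (nat_lit 476272) (.g (nat_lit 2156) (.e (nat_lit 1796) (nat_lit 119) (.e (nat_lit 516120) (nat_lit 1) (.e (nat_lit 164329) (nat_lit 230) (.e (nat_lit 163902) (nat_lit 12) (.e (nat_lit 426479) (nat_lit 27) (.e (nat_lit 336427) (nat_lit 29) (.e (nat_lit 442373) (nat_lit 0) .nil))))))) (.g (nat_lit 1) (.e (nat_lit 100308) (nat_lit 0) .nil) .nil))) 
(.lf (nat_lit 476784) (.g (nat_lit 4219) (.e (nat_lit 7936) (nat_lit 119) (.e (nat_lit 516166) (nat_lit 12) (.e (nat_lit 450587) (nat_lit 10) (.e (nat_lit 573475) (nat_lit 12) .nil)))) (.g (nat_lit 0) (.e (nat_lit 101027) (nat_lit 0) .nil) .nil)))) (.nd (nat_lit 9) 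
(.lf (nat_lit 476528) (.g (nat_lit 1769) (.e (nat_lit 1800) (nat_lit 119) (.e (nat_lit 516119) (nat_lit 1) (.e (nat_lit 164179) (nat_lit 154) (.e (nat_lit 57378) (nat_lit 3) (.e (nat_lit 98342) (nat_lit 20) .nil))))) (.g (nat_lit 0) (.e (nat_lit 100675) (nat_lit 0) .nil) .nil))) 
(.lf (nat_lit 477040) (.g (nat_lit 594) (.e (nat_lit 1853) (nat_lit 124) (.e (nat_lit 557066) (nat_lit 9) (.e (nat_lit 3031) (nat_lit 188) .nil))) (.g (nat_lit 0) (.e (nat_lit 101754) (nat_lit 0) .nil) .nil))))) (.nd (nat_lit 8) (.nd (nat_lit 9) 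
(.lf (nat_lit 476400) (.g (nat_lit 2146) (.e (nat_lit 1799) (nat_lit 119) (.e (nat_lit 516131) (nat_lit 3) (.e (nat_lit 221214) (nat_lit 23) (.e (nat_lit 204880) (nat_lit 32) (.e (nat_lit 385066) (nat_lit 26) .nil))))) (.g (nat_lit 0) (.e (nat_lit 100483) (nat_lit 0) .nil) .nil))) 
(.lf (nat_lit 476912) (.g (nat_lit 3126) (.e (nat_lit 1848) (nat_lit 124) (.e (nat_lit 557097) (nat_lit 13) (.e (nat_lit 172115) (nat_lit 10) (.e (nat_lit 434231) (nat_lit 23) (.e (nat_lit 532490) (nat_lit 0) (.e (nat_lit 6674) (nat_lit 357) (.e (nat_lit 2941) (nat_lit 184) (.e (nat_lit 426401) (nat_lit 15) .nil)))))))) (.g (nat_lit 1) (.e (nat_lit 101607) (nat_lit 0) .nil) .nil)))) 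
(.nd (nat_lit 9) 
(.lf (nat_lit 476656) (.g (nat_lit 1954) (.e (nat_lit 1800) (nat_lit 119) (.e (nat_lit 516149) (nat_lit 9) (.e (nat_lit 426323) (nat_lit 13) (.e (nat_lit 483363) (nat_lit 18) (.e (nat_lit 57652) (nat_lit 152) (.e (nat_lit 2633) (nat_lit 164) (.e (nat_lit 172133) (nat_lit 15) .nil))))))) (.g (nat_lit 1) (.e (nat_lit 100825) (nat_lit 0) .nil) .nil))) 
(.lf (nat_lit 477168) (.g (nat_lit 2436) (.e (nat_lit 1855) (nat_lit 124) (.e (nat_lit 557101) (nat_lit 13) (.e (nat_lit 172115) (nat_lit 10) (.e (nat_lit 434244) (nat_lit 28) (.e (nat_lit 573458) (nat_lit 9) (.e (nat_lit 7936) (nat_lit 34) (.e (nat_lit 442378) (nat_lit 0) .nil))))))) (.g (nat_lit 1) (.e (nat_lit 101924) (nat_lit 0) .nil) .nil))))))))) 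
(.nd (nat_lit 4) (.nd (nat_lit 5) (.nd (nat_lit 6) (.nd (nat_lit 7) (.nd (nat_lit 8) 
(.nd (nat_lit 9) 
(.lf (nat_lit 476168) (.g (nat_lit 4469) (.e (nat_lit 1794) (nat_lit 119) (.e (nat_lit 516166) (nat_lit 12) (.e (nat_lit 450587) (nat_lit 10) (.e (nat_lit 573477) (nat_lit 12) (.e (nat_lit 57575) (nat_lit 55) .nil))))) (.g (nat_lit 0) (.e (nat_lit 100136) (nat_lit 0) .nil) .nil))) 
(.lf (nat_lit 476680) (.g (nat_lit 3863) (.e (nat_lit 1801) (nat_lit 119) (.e (nat_lit 516115) (nat_lit 1) (.e (nat_lit 164325) (nat_lit 230) (.e (nat_lit 163904) (nat_lit 12) .nil)))) (.g (nat_lit 0) (.e (nat_lit 100878) (nat_lit 0) .nil) .nil)))) (.nd (nat_lit 9) 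
(.lf (nat_lit 476424) (.g (nat_lit 4741) (.e (nat_lit 1799) (nat_lit 119) (.e (nat_lit 516166) (nat_lit 12) (.e (nat_lit 450588) (nat_lit 10) (.e (nat_lit 573470) (nat_lit 11) .nil)))) (.g (nat_lit 0) (.e (nat_lit 100516) (nat_lit 0) .nil) .nil))) 
(.lf (nat_lit 476936) (.g (nat_lit 4657) (.e (nat_lit 1848) (nat_lit 124) (.e (nat_lit 557097) (nat_lit 13) (.e (nat_lit 172115) (nat_lit 10) (.e (nat_lit 434244) (nat_lit 28) (.e (nat_lit 573458) (nat_lit 9) (.e (nat_lit 426) (nat_lit 32) (.e (nat_lit 426190) (nat_lit 9) (.e (nat_lit 426402) (nat_lit 15) .nil)))))))) (.g (nat_lit 1) (.e (nat_lit 101631) (nat_lit 0) .nil) .nil))))) 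
(.nd (nat_lit 8) (.nd (nat_lit 9) 
(.lf (nat_lit 476296) (.g (nat_lit 2478) (.e (nat_lit 1796) (nat_lit 119) (.e (nat_lit 516166) (nat_lit 12) (.e (nat_lit 450587) (nat_lit 10) (.e (nat_lit 573454) (nat_lit 9) (.e (nat_lit 7936) (nat_lit 33) (.e (nat_lit 434178) (nat_lit 0) (.e (nat_lit 1077) (nat_lit 81) .nil))))))) (.g (nat_lit 1) (.e (nat_lit 100354) (nat_lit 0) .nil) .nil))) 
(.lf (nat_lit 476808) (.g (nat_lit 4430) (.e (nat_lit 1842) (nat_lit 123) (.e (nat_lit 548873) (nat_lit 5) (.e (nat_lit 1401) (nat_lit 106) (.e (nat_lit 319538) (nat_lit 19) (.e (nat_lit 311315) (nat_lit 3) (.e (nat_lit 204846) (nat_lit 24) (.e (nat_lit 319533) (nat_lit 16) (.e (nat_lit 286724) (nat_lit 0) .nil)))))))) (.g (nat_lit 1) (.e (nat_lit 101102) (nat_lit 0) .nil) .nil)))) 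
(.nd (nat_lit 9) 
(.lf (nat_lit 476552) (.g (nat_lit 2579) (.e (nat_lit 1800) (nat_lit 119) (.e (nat_lit 516119) (nat_lit 1) (.e (nat_lit 164403) (nat_lit 256) (.e (nat_lit 57373) (nat_lit 2) (.e (nat_lit 90167) (nat_lit 13) .nil))))) (.g (nat_lit 0) (.e (nat_lit 100703) (nat_lit 0) .nil) .nil))) 
(.lf (nat_lit 477064) (.g (nat_lit 2742) (.e (nat_lit 1853) (nat_lit 124) (.e (nat_lit 557098) (nat_lit 13) (.e (nat_lit 172115) (nat_lit 10) (.e (nat_lit 434244) (nat_lit 28) (.e (nat_lit 573450) (nat_lit 9) (.e (nat_lit 455) (nat_lit 34) (.e (nat_lit 442373) (nat_lit 0) .nil))))))) (.g (nat_lit 1) (.e (nat_lit 101783) (nat_lit 0) .nil) .nil)))))) 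
(.nd (nat_lit 7) (.nd (nat_lit 8) (.nd (nat_lit 9) 
(.lf (nat_lit 476232) (.g (nat_lit 1406) (.e (nat_lit 1795) (nat_lit 119) (.e (nat_lit 516120) (nat_lit 1) (.e (nat_lit 164329) (nat_lit 230) (.e (nat_lit 163942) (nat_lit 19) .nil)))) (.g (nat_lit 0) (.e (nat_lit 100220) (nat_lit 0) .nil) .nil))) 
(.lf (nat_lit 476744) (.g (nat_lit 3664) (.e (nat_lit 1802) (nat_lit 119) (.e (nat_lit 516151) (nat_lit 9) (.e (nat_lit 426211) (nat_lit 9) (.e (nat_lit 426140) (nat_lit 3) (.e (nat_lit 204845) (nat_lit 24) .nil))))) (.g (nat_lit 0) (.e (nat_lit 100969) (nat_lit 0) .nil) .nil)))) (.nd (nat_lit 9) 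
(.lf (nat_lit 476488) (.g (nat_lit 4671) (.e (nat_lit 1800) (nat_lit 119) (.e (nat_lit 516117) (nat_lit 1) (.e (nat_lit 164305) (nat_lit 226) (.e (nat_lit 2612) (nat_lit 163) (.e (nat_lit 163978) (nat_lit 30) (.e (nat_lit 573489) (nat_lit 14) (.e (nat_lit 73755) (nat_lit 8) (.e (nat_lit 557098) (nat_lit 13) (.e (nat_lit 172136) (nat_lit 15) .nil))))))))) (.g (nat_lit 1) (.e (nat_lit 100632) (nat_lit 0) .nil) .nil))) 
(.lf (nat_lit 477000) (.g (nat_lit 4376) (.e (nat_lit 1849) (nat_lit 124) (.e (nat_lit 557097) (nat_lit 13) (.e (nat_lit 172115) (nat_lit 10) (.e (nat_lit 434244) (nat_lit 28) (.e (nat_lit 573458) (nat_lit 9) (.e (nat_lit 426) (nat_lit 32) (.e (nat_lit 426198) (nat_lit 9) (.e (nat_lit 426402) (nat_lit 15) .nil)))))))) (.g (nat_lit 1) (.e (nat_lit 101704) (nat_lit 0) .nil) .nil))))) 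
(.nd (nat_lit 8) (.nd (nat_lit 9) 
(.lf (nat_lit 476360) (.g (nat_lit 3006) (.e (nat_lit 1798) (nat_lit 119) (.e (nat_lit 516151) (nat_lit 9) (.e (nat_lit 426211) (nat_lit 9) (.e (nat_lit 426125) (nat_lit 2) .nil)))) (.g (nat_lit 0) (.e (nat_lit 100434) (nat_lit 0) .nil) .nil))) 
(.lf (nat_lit 476872) (.g (nat_lit 1586) (.e (nat_lit 1847) (nat_lit 124) (.e (nat_lit 557098) (nat_lit 13) (.e (nat_lit 172120) (nat_lit 12) (.e (nat_lit 475185) (nat_lit 29) .nil)))) (.g (nat_lit 0) (.e (nat_lit 101502) (nat_lit 0) .nil) .nil)))) (.nd (nat_lit 9) 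
(.lf (nat_lit 476616) (.g (nat_lit 2581) (.e (nat_lit 1800) (nat_lit 119) (.e (nat_lit 516124) (nat_lit 2) (.e (nat_lit 213032) (nat_lit 11) (.e (nat_lit 24604) (nat_lit 2) (.e (nat_lit 90176) (nat_lit 15) (.e (nat_lit 188420) (nat_lit 0) .nil)))))) (.g (nat_lit 1) (.e (nat_lit 100774) (nat_lit 0) .nil) .nil))) 
(.lf (nat_lit 477128) (.g (nat_lit 4315) (.e (nat_lit 1853) (nat_lit 124) (.e (nat_lit 557109) (nat_lit 15) (.e (nat_lit 188452) (nat_lit 23) (.e (nat_lit 204884) (nat_lit 33) .nil)))) (.g (nat_lit 0) (.e (nat_lit 101848) (nat_lit 0) .nil) .nil))))))) (.nd (nat_lit 6) (.nd (nat_lit 7) (.nd (nat_lit 8) (.nd (nat_lit 9) 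
(.lf (nat_lit 476200) (.g (nat_lit 3296) (.e (nat_lit 1806) (nat_lit 119) (.e (nat_lit 516120) (nat_lit 1) (.e (nat_lit 164403) (nat_lit 256) (.e (nat_lit 57373) (nat_lit 2) (.e (nat_lit 90174) (nat_lit 14) .nil))))) (.g (nat_lit 0) (.e (nat_lit 100183) (nat_lit 0) .nil) .nil))) 
(.lf (nat_lit 476712) (.g (nat_lit 3141) (.e (nat_lit 1801) (nat_lit 119) (.e (nat_lit 516151) (nat_lit 9) (.e (nat_lit 426211) (nat_lit 9) (.e (nat_lit 433920) (nat_lit 3) .nil)))) (.g (nat_lit 0) (.e (nat_lit 100928) (nat_lit 0) .nil) .nil)))) (.nd (nat_lit 9) 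
(.lf (nat_lit 476456) (.g (nat_lit 3177) (.e (nat_lit 1800) (nat_lit 119) (.e (nat_lit 516115) (nat_lit 1) (.e (nat_lit 164325) (nat_lit 230) (.e (nat_lit 163904) (nat_lit 12) .nil)))) (.g (nat_lit 0) (.e (nat_lit 100571) (nat_lit 0) .nil) .nil))) 
(.lf (nat_lit 476968) (.g (nat_lit 3363) (.e (nat_lit 1848) (nat_lit 124) (.e (nat_lit 557108) (nat_lit 15) (.e (nat_lit 188449) (nat_lit 22) (.e (nat_lit 196661) (nat_lit 12) (.e (nat_lit 57750) (nat_lit 201) (.e (nat_lit 2857) (nat_lit 184) (.e (nat_lit 426402) (nat_lit 15) .nil))))))) (.g (nat_lit 1) (.e (nat_lit 101663) (nat_lit 0) .nil) .nil))))) (.nd (nat_lit 8) (.nd (nat_lit 9) 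
(.lf (nat_lit 476328) (.g (nat_lit 2117) (.e (nat_lit 1797) (nat_lit 119) (.e (nat_lit 516120) (nat_lit 1) (.e (nat_lit 164329) (nat_lit 230) (.e (nat_lit 163941) (nat_lit 19) .nil)))) (.g (nat_lit 0) (.e (nat_lit 100388) (nat_lit 0) .nil) .nil))) 
(.lf (nat_lit 476840) (.g (nat_lit 3706) (.e (nat_lit 1846) (nat_lit 124) (.e (nat_lit 557087) (nat_lit 11) (.e (nat_lit 24617) (nat_lit 7) (.e (nat_lit 319504) (nat_lit 10) .nil)))) (.g (nat_lit 0) (.e (nat_lit 101466) (nat_lit 0) .nil) .nil)))) (.nd (nat_lit 9) 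
(.lf (nat_lit 476584) (.g (nat_lit 2404) (.e (nat_lit 1800) (nat_lit 119) (.e (nat_lit 516120) (nat_lit 1) (.e (nat_lit 164330) (nat_lit 230) (.e (nat_lit 163941) (nat_lit 19) (.e (nat_lit 483341) (nat_lit 9) (.e (nat_lit 426198) (nat_lit 9) (.e (nat_lit 426375) (nat_lit 15) .nil))))))) (.g (nat_lit 1) (.e (nat_lit 100739) (nat_lit 0) .nil) .nil))) 
(.lf (nat_lit 477096) (.g (nat_lit 1960) (.e (nat_lit 1853) (nat_lit 124) (.e (nat_lit 557107) (nat_lit 15) (.e (nat_lit 188439) (nat_lit 20) (.e (nat_lit 3271) (nat_lit 199) (.e (nat_lit 548898) (nat_lit 14) (.e (nat_lit 2988) (nat_lit 186) (.e (nat_lit 442373) (nat_lit 0) .nil))))))) (.g (nat_lit 1) (.e (nat_lit 101816) (nat_lit 0) .nil) .nil)))))) 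
(.nd (nat_lit 7) (.nd (nat_lit 8) (.nd (nat_lit 9) 
(.lf (nat_lit 476264) (.g (nat_lit 1454) (.e (nat_lit 1796) (nat_lit 119) (.e (nat_lit 516116) (nat_lit 1) (.e (nat_lit 164329) (nat_lit 230) (.e (nat_lit 163902) (nat_lit 12) .nil)))) (.g (nat_lit 0) (.e (nat_lit 100281) (nat_lit 0) .nil) .nil))) 
(.lf (nat_lit 476776) (.g (nat_lit 4918) (.e (nat_lit 1803) (nat_lit 119) (.e (nat_lit 516166) (nat_lit 12) (.e (nat_lit 450587) (nat_lit 10) (.e (nat_lit 573477) (nat_lit 12) (.e (nat_lit 57575) (nat_lit 55) .nil))))) (.g (nat_lit 0) (.e (nat_lit 101013) (nat_lit 0) .nil) .nil)))) (.nd (nat_lit 9) 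
(.lf (nat_lit 476520) (.g (nat_lit 2332) (.e (nat_lit 1800) (nat_lit 119) (.e (nat_lit 516117) (nat_lit 1) (.e (nat_lit 164401) (nat_lit 256) (.e (nat_lit 57378) (nat_lit 3) (.e (nat_lit 98357) (nat_lit 26) .nil))))) (.g (nat_lit 0) (.e (nat_lit 100665) (nat_lit 0) .nil) .nil))) 
(.lf (nat_lit 477032) (.g (nat_lit 3148) (.e (nat_lit 1849) (nat_lit 124) (.e (nat_lit 557109) (nat_lit 15) (.e (nat_lit 188449) (nat_lit 22) (.e (nat_lit 196661) (nat_lit 12) (.e (nat_lit 57748) (nat_lit 201) (.e (nat_lit 2936) (nat_lit 184) (.e (nat_lit 426401) (nat_lit 15) .nil))))))) (.g (nat_lit 1) (.e (nat_lit 101738) (nat_lit 0) .nil) .nil))))) (.nd (nat_lit 8) (.nd (nat_lit 9) 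
(.lf (nat_lit 476392) (.g (nat_lit 1884) (.e (nat_lit 1799) (nat_lit 119) (.e (nat_lit 516117) (nat_lit 1) (.e (nat_lit 164329) (nat_lit 230) (.e (nat_lit 163941) (nat_lit 19) (.e (nat_lit 483341) (nat_lit 9) (.e (nat_lit 426200) (nat_lit 9) (.e (nat_lit 426360) (nat_lit 15) .nil))))))) (.g (nat_lit 1) (.e (nat_lit 100475) (nat_lit 0) .nil) .nil))) 
(.lf (nat_lit 476904) (.g (nat_lit 2333) (.e (nat_lit 1848) (nat_lit 124) (.e (nat_lit 557097) (nat_lit 13) (.e (nat_lit 172115) (nat_lit 10) (.e (nat_lit 434231) (nat_lit 23) (.e (nat_lit 532481) (nat_lit 0) (.e (nat_lit 6642) (nat_lit 357) (.e (nat_lit 2856) (nat_lit 184) (.e (nat_lit 426402) (nat_lit 15) .nil)))))))) (.g (nat_lit 1) (.e (nat_lit 101599) (nat_lit 0) .nil) .nil)))) 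
(.nd (nat_lit 9) 
(.lf (nat_lit 476648) (.g (nat_lit 2765) (.e (nat_lit 1800) (nat_lit 119) (.e (nat_lit 516139) (nat_lit 7) (.e (nat_lit 409649) (nat_lit 18) (.e (nat_lit 303112) (nat_lit 0) (.e (nat_lit 3252) (nat_lit 197) .nil))))) (.g (nat_lit 0) (.e (nat_lit 100813) (nat_lit 0) .nil) .nil))) 
(.lf (nat_lit 477160) (.g (nat_lit 2354) (.e (nat_lit 1855) (nat_lit 124) (.e (nat_lit 557101) (nat_lit 13) (.e (nat_lit 172115) (nat_lit 10) (.e (nat_lit 434244) (nat_lit 28) (.e (nat_lit 573449) (nat_lit 9) (.e (nat_lit 454) (nat_lit 34) (.e (nat_lit 442372) (nat_lit 0) .nil))))))) (.g (nat_lit 1) (.e (nat_lit 101916) (nat_lit 0) .nil) .nil)))))))) 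
(.nd (nat_lit 5) (.nd (nat_lit 6) (.nd (nat_lit 7) (.nd (nat_lit 8) (.nd (nat_lit 9) 
(.lf (nat_lit 476184) (.g (nat_lit 2055) (.e (nat_lit 1804) (nat_lit 119) (.e (nat_lit 516120) (nat_lit 1) (.e (nat_lit 164329) (nat_lit 230) (.e (nat_lit 163941) (nat_lit 19) .nil)))) (.g (nat_lit 0) (.e (nat_lit 100164) (nat_lit 0) .nil) .nil))) 
(.lf (nat_lit 476696) (.g (nat_lit 2717) (.e (nat_lit 1801) (nat_lit 119) (.e (nat_lit 516139) (nat_lit 7) (.e (nat_lit 409645) (nat_lit 18) (.e (nat_lit 303117) (nat_lit 2) (.e (nat_lit 196673) (nat_lit 15) .nil))))) (.g (nat_lit 0) (.e (nat_lit 100904) (nat_lit 0) .nil) .nil)))) (.nd (nat_lit 9) 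
(.lf (nat_lit 476440) (.g (nat_lit 2736) (.e (nat_lit 1800) (nat_lit 119) (.e (nat_lit 516115) (nat_lit 1) (.e (nat_lit 164325) (nat_lit 230) (.e (nat_lit 163875) (nat_lit 3) (.e (nat_lit 204838) (nat_lit 20) (.e (nat_lit 114714) (nat_lit 22) (.e (nat_lit 90170) (nat_lit 13) (.e (nat_lit 172138) (nat_lit 15) .nil)))))))) (.g (nat_lit 1) (.e (nat_lit 100552) (nat_lit 0) .nil) .nil))) 
(.lf (nat_lit 476952) (.g (nat_lit 3109) (.e (nat_lit 1848) (nat_lit 124) (.e (nat_lit 557107) (nat_lit 15) (.e (nat_lit 188447) (nat_lit 22) (.e (nat_lit 196661) (nat_lit 12) (.e (nat_lit 57750) (nat_lit 201) (.e (nat_lit 2857) (nat_lit 184) (.e (nat_lit 426402) (nat_lit 15) .nil))))))) (.g (nat_lit 1) (.e (nat_lit 101647) (nat_lit 0) .nil) .nil))))) (.nd (nat_lit 8) (.nd (nat_lit 9) 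
(.lf (nat_lit 476312) (.g (nat_lit 2385) (.e (nat_lit 1797) (nat_lit 119) (.e (nat_lit 516115) (nat_lit 1) (.e (nat_lit 164398) (nat_lit 256) (.e (nat_lit 57373) (nat_lit 2) (.e (nat_lit 90172) (nat_lit 14) .nil))))) (.g (nat_lit 0) (.e (nat_lit 100372) (nat_lit 0) .nil) .nil))) 
(.lf (nat_lit 476824) (.g (nat_lit 1363) (.e (nat_lit 1874) (nat_lit 126) (.e (nat_lit 573474) (nat_lit 12) (.e (nat_lit 57528) (nat_lit 46) .nil))) (.g (nat_lit 0) (.e (nat_lit 101234) (nat_lit 0) .nil) .nil)))) (.nd (nat_lit 9) 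
(.lf (nat_lit 476568) (.g (nat_lit 1948) (.e (nat_lit 1800) (nat_lit 119) (.e (nat_lit 516120) (nat_lit 1) (.e (nat_lit 164330) (nat_lit 230) (.e (nat_lit 163845) (nat_lit 0) .nil)))) (.g (nat_lit 0) (.e (nat_lit 100720) (nat_lit 0) .nil) .nil))) 
(.lf (nat_lit 477080) (.g (nat_lit 2301) (.e (nat_lit 1853) (nat_lit 124) (.e (nat_lit 557101) (nat_lit 13) (.e (nat_lit 172115) (nat_lit 10) (.e (nat_lit 434238) (nat_lit 25) (.e (nat_lit 548897) (nat_lit 14) (.e (nat_lit 2988) (nat_lit 186) (.e (nat_lit 450304) (nat_lit 0) .nil))))))) (.g (nat_lit 1) (.e (nat_lit 101799) (nat_lit 0) .nil) .nil)))))) 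
(.nd (nat_lit 7) (.nd (nat_lit 8) (.nd (nat_lit 9) 
(.lf (nat_lit 476248) (.g (nat_lit 787) (.e (nat_lit 1796) (nat_lit 119) (.e (nat_lit 516106) (nat_lit 0) (.e (nat_lit 2458) (nat_lit 157) .nil))) (.g (nat_lit 0) (.e (nat_lit 100253) (nat_lit 0) .nil) .nil))) 
(.lf (nat_lit 476760) (.g (nat_lit 1796) (.e (nat_lit 1803) (nat_lit 119) (.e (nat_lit 516116) (nat_lit 1) (.e (nat_lit 164329) (nat_lit 230) (.e (nat_lit 163902) (nat_lit 12) .nil)))) (.g (nat_lit 0) (.e (nat_lit 100989) (nat_lit 0) .nil) .nil)))) (.nd (nat_lit 9) 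
(.lf (nat_lit 476504) (.g (nat_lit 2434) (.e (nat_lit 1800) (nat_lit 119) (.e (nat_lit 516117) (nat_lit 1) (.e (nat_lit 164398) (nat_lit 256) (.e (nat_lit 57375) (nat_lit 2) (.e (nat_lit 90167) (nat_lit 13) .nil))))) (.g (nat_lit 0) (.e (nat_lit 100648) (nat_lit 0) .nil) .nil))) 
(.lf (nat_lit 477016) (.g (nat_lit 1905) (.e (nat_lit 1849) (nat_lit 124) (.e (nat_lit 557107) (nat_lit 15) (.e (nat_lit 188447) (nat_lit 22) (.e (nat_lit 196661) (nat_lit 12) (.e (nat_lit 57749) (nat_lit 201) (.e (nat_lit 2940) (nat_lit 184) (.e (nat_lit 433920) (nat_lit 15) .nil))))))) (.g (nat_lit 1) (.e (nat_lit 101722) (nat_lit 0) .nil) .nil))))) (.nd (nat_lit 8) (.nd (nat_lit 9) 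
(.lf (nat_lit 476376) (.g (nat_lit 2246) (.e (nat_lit 1798) (nat_lit 119) (.e (nat_lit 516179) (nat_lit 15) (.e (nat_lit 475199) (nat_lit 40) (.e (nat_lit 704589) (nat_lit 3) (.e (nat_lit 163976) (nat_lit 30) .nil))))) (.g (nat_lit 0) (.e (nat_lit 100452) (nat_lit 0) .nil) .nil))) 
(.lf (nat_lit 476888) (.g (nat_lit 1975) (.e (nat_lit 1848) (nat_lit 124) (.e (nat_lit 557097) (nat_lit 13) (.e (nat_lit 172097) (nat_lit 9) (.e (nat_lit 426125) (nat_lit 2) (.e (nat_lit 196661) (nat_lit 12) (.e (nat_lit 57748) (nat_lit 201) (.e (nat_lit 2936) (nat_lit 184) (.e (nat_lit 433920) (nat_lit 15) .nil)))))))) (.g (nat_lit 1) (.e (nat_lit 101583) (nat_lit 0) .nil) .nil)))) 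
(.nd (nat_lit 9) 
(.lf (nat_lit 476632) (.g (nat_lit 2439) (.e (nat_lit 1800) (nat_lit 119) (.e (nat_lit 516139) (nat_lit 7) (.e (nat_lit 409645) (nat_lit 18) (.e (nat_lit 303112) (nat_lit 0) (.e (nat_lit 3252) (nat_lit 197) .nil))))) (.g (nat_lit 0) (.e (nat_lit 100795) (nat_lit 0) .nil) .nil))) 
(.lf (nat_lit 477144) (.g (nat_lit 774) (.e (nat_lit 1855) (nat_lit 124) (.e (nat_lit 557090) (nat_lit 12) (.e (nat_lit 164020) (nat_lit 45) .nil))) (.g (nat_lit 0) (.e (nat_lit 101879) (nat_lit 0) .nil) .nil))))))) (.nd (nat_lit 6) (.nd (nat_lit 7) (.nd (nat_lit 8) (.nd (nat_lit 9) 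
(.lf (nat_lit 476216) (.g (nat_lit 1417) (.e (nat_lit 1795) (nat_lit 119) (.e (nat_lit 516119) (nat_lit 1) (.e (nat_lit 164179) (nat_lit 154) (.e (nat_lit 57407) (nat_lit 12) .nil)))) (.g (nat_lit 0) (.e (nat_lit 100203) (nat_lit 0) .nil) .nil))) 
(.lf (nat_lit 476728) (.g (nat_lit 2362) (.e (nat_lit 1801) (nat_lit 119) (.e (nat_lit 516179) (nat_lit 15) (.e (nat_lit 475199) (nat_lit 40) (.e (nat_lit 704589) (nat_lit 3) (.e (nat_lit 163979) (nat_lit 30) (.e (nat_lit 573491) (nat_lit 15) (.e (nat_lit 81947) (nat_lit 20) .nil))))))) (.g (nat_lit 1) (.e (nat_lit 100946) (nat_lit 0) .nil) .nil)))) (.nd (nat_lit 9) 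
(.lf (nat_lit 476472) (.g (nat_lit 2956) (.e (nat_lit 1800) (nat_lit 119) (.e (nat_lit 516115) (nat_lit 1) (.e (nat_lit 164327) (nat_lit 230) (.e (nat_lit 163875) (nat_lit 3) (.e (nat_lit 204838) (nat_lit 20) (.e (nat_lit 114714) (nat_lit 22) (.e (nat_lit 90169) (nat_lit 13) (.e (nat_lit 172133) (nat_lit 15) .nil)))))))) (.g (nat_lit 1) (.e (nat_lit 100609) (nat_lit 0) .nil) .nil))) 
(.lf (nat_lit 476984) (.g (nat_lit 4040) (.e (nat_lit 1849) (nat_lit 124) (.e (nat_lit 557087) (nat_lit 11) (.e (nat_lit 24662) (nat_lit 14) (.e (nat_lit 401424) (nat_lit 2) .nil)))) (.g (nat_lit 0) (.e (nat_lit 101688) (nat_lit 0) .nil) .nil))))) (.nd (nat_lit 8) (.nd (nat_lit 9) 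
(.lf (nat_lit 476344) (.g (nat_lit 1352) (.e (nat_lit 1798) (nat_lit 119) (.e (nat_lit 516117) (nat_lit 1) (.e (nat_lit 164329) (nat_lit 230) (.e (nat_lit 163902) (nat_lit 12) (.e (nat_lit 426568) (nat_lit 34) .nil))))) (.g (nat_lit 0) (.e (nat_lit 100416) (nat_lit 0) .nil) .nil))) 
(.lf (nat_lit 476856) (.g (nat_lit 1976) (.e (nat_lit 1846) (nat_lit 124) (.e (nat_lit 557101) (nat_lit 13) (.e (nat_lit 172115) (nat_lit 10) (.e (nat_lit 434244) (nat_lit 28) (.e (nat_lit 573458) (nat_lit 9) (.e (nat_lit 7936) (nat_lit 34) (.e (nat_lit 442373) (nat_lit 0) .nil))))))) (.g (nat_lit 1) (.e (nat_lit 101483) (nat_lit 0) .nil) .nil)))) (.nd (nat_lit 9) 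
(.lf (nat_lit 476600) (.g (nat_lit 2571) (.e (nat_lit 1800) (nat_lit 119) (.e (nat_lit 516120) (nat_lit 1) (.e (nat_lit 164401) (nat_lit 256) (.e (nat_lit 57378) (nat_lit 3) (.e (nat_lit 98367) (nat_lit 27) (.e (nat_lit 434231) (nat_lit 23) (.e (nat_lit 532513) (nat_lit 3) (.e (nat_lit 114708) (nat_lit 20) .nil)))))))) (.g (nat_lit 1) (.e (nat_lit 100756) (nat_lit 0) .nil) .nil))) 
(.lf (nat_lit 477112) (.g (nat_lit 2727) (.e (nat_lit 1853) (nat_lit 124) (.e (nat_lit 557107) (nat_lit 15) (.e (nat_lit 188440) (nat_lit 20) (.e (nat_lit 3272) (nat_lit 199) (.e (nat_lit 548915) (nat_lit 20) (.e (nat_lit 196352) (nat_lit 0) .nil)))))) (.g (nat_lit 1) (.e (nat_lit 101832) (nat_lit 0) .nil) .nil)))))) (.nd (nat_lit 7) (.nd (nat_lit 8) (.nd (nat_lit 9) 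
(.lf (nat_lit 476280) (.g (nat_lit 1092) (.e (nat_lit 1796) (nat_lit 119) (.e (nat_lit 516124) (nat_lit 2) (.e (nat_lit 213030) (nat_lit 11) (.e (nat_lit 24609) (nat_lit 3) (.e (nat_lit 98369) (nat_lit 28) (.e (nat_lit 442373) (nat_lit 0) .nil)))))) (.g (nat_lit 1) (.e (nat_lit 100317) (nat_lit 0) .nil) .nil))) 
(.lf (nat_lit 476792) (.g (nat_lit 1057) (.e (nat_lit 1809) (nat_lit 120) (.e (nat_lit 524322) (nat_lit 12) (.e (nat_lit 450588) (nat_lit 10) (.e (nat_lit 573470) (nat_lit 11) .nil)))) (.g (nat_lit 0) (.e (nat_lit 101035) (nat_lit 0) .nil) .nil)))) (.nd (nat_lit 9) 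
(.lf (nat_lit 476536) (.g (nat_lit 1444) (.e (nat_lit 1800) (nat_lit 119) (.e (nat_lit 516119) (nat_lit 1) (.e (nat_lit 164326) (nat_lit 230) (.e (nat_lit 163903) (nat_lit 12) (.e (nat_lit 426479) (nat_lit 27) .nil))))) (.g (nat_lit 0) (.e (nat_lit 100683) (nat_lit 0) .nil) .nil))) 
(.lf (nat_lit 477048) (.g (nat_lit 2698) (.e (nat_lit 1853) (nat_lit 124) (.e (nat_lit 557097) (nat_lit 13) (.e (nat_lit 172115) (nat_lit 10) (.e (nat_lit 434238) (nat_lit 25) (.e (nat_lit 548898) (nat_lit 14) (.e (nat_lit 2988) (nat_lit 186) (.e (nat_lit 442373) (nat_lit 0) .nil))))))) (.g (nat_lit 1) (.e (nat_lit 101767) (nat_lit 0) .nil) .nil))))) (.nd (nat_lit 8) (.nd (nat_lit 9) 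
(.lf (nat_lit 476408) (.g (nat_lit 638) (.e (nat_lit 1799) (nat_lit 119) (.e (nat_lit 516139) (nat_lit 7) (.e (nat_lit 409643) (nat_lit 18) .nil))) (.g (nat_lit 0) (.e (nat_lit 100492) (nat_lit 0) .nil) .nil))) 
(.lf (nat_lit 476920) (.g (nat_lit 2896) (.e (nat_lit 1848) (nat_lit 124) (.e (nat_lit 557097) (nat_lit 13) (.e (nat_lit 172115) (nat_lit 10) (.e (nat_lit 434238) (nat_lit 25) (.e (nat_lit 548897) (nat_lit 14) (.e (nat_lit 2999) (nat_lit 186) (.e (nat_lit 450304) (nat_lit 0) .nil))))))) (.g (nat_lit 1) (.e (nat_lit 101615) (nat_lit 0) .nil) .nil)))) (.nd (nat_lit 9) 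
(.lf (nat_lit 476664) (.g (nat_lit 3487) (.e (nat_lit 1800) (nat_lit 119) (.e (nat_lit 516179) (nat_lit 15) (.e (nat_lit 475199) (nat_lit 40) (.e (nat_lit 704589) (nat_lit 3) (.e (nat_lit 163975) (nat_lit 30) (.e (nat_lit 573491) (nat_lit 15) (.e (nat_lit 89856) (nat_lit 20) .nil))))))) (.g (nat_lit 1) (.e (nat_lit 100851) (nat_lit 0) .nil) .nil))) 
(.lf (nat_lit 477176) (.g (nat_lit 3807) (.e (nat_lit 1855) (nat_lit 124) (.e (nat_lit 557105) (nat_lit 14) (.e (nat_lit 180252) (nat_lit 10) (.e (nat_lit 573482) (nat_lit 13) (.e (nat_lit 65636) (nat_lit 15) (.e (nat_lit 3249) (nat_lit 197) (.e (nat_lit 532504) (nat_lit 1) (.e (nat_lit 57851) (nat_lit 252) (.e (nat_lit 57354) (nat_lit 0) .nil))))))))) (.g (nat_lit 1) (.e (nat_lit 101932) (nat_lit 0) .nil) .nil)))))))))) 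
(.nd (nat_lit 3) (.nd (nat_lit 4) (.nd (nat_lit 5) (.nd (nat_lit 6) (.nd (nat_lit 7) 
(.nd (nat_lit 8) (.nd (nat_lit 9) 
(.lf (nat_lit 476164) (.g (nat_lit 1796) (.e (nat_lit 1794) (nat_lit 119) (.e (nat_lit 516116) (nat_lit 1) (.e (nat_lit 164329) (nat_lit 230) (.e (nat_lit 163902) (nat_lit 12) .nil)))) (.g (nat_lit 0) (.e (nat_lit 100132) (nat_lit 0) .nil) .nil))) 
(.lf (nat_lit 476676) (.g (nat_lit 2703) (.e (nat_lit 1800) (nat_lit 119) (.e (nat_lit 516182) (nat_lit 15) (.e (nat_lit 475199) (nat_lit 40) (.e (nat_lit 704589) (nat_lit 3) (.e (nat_lit 163976) (nat_lit 30) (.e (nat_lit 573491) (nat_lit 15) (.e (nat_lit 89856) (nat_lit 20) .nil))))))) (.g (nat_lit 1) (.e (nat_lit 100872) (nat_lit 0) .nil) .nil)))) (.nd (nat_lit 9) 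
(.lf (nat_lit 476420) (.g (nat_lit 3502) (.e (nat_lit 1799) (nat_lit 119) (.e (nat_lit 516151) (nat_lit 9) (.e (nat_lit 426211) (nat_lit 9) (.e (nat_lit 426125) (nat_lit 2) (.e (nat_lit 196661) (nat_lit 12) .nil))))) (.g (nat_lit 0) (.e (nat_lit 100512) (nat_lit 0) .nil) .nil))) 
(.lf (nat_lit 476932) (.g (nat_lit 3520) (.e (nat_lit 1848) (nat_lit 124) (.e (nat_lit 557097) (nat_lit 13) (.e (nat_lit 172115) (nat_lit 10) (.e (nat_lit 434244) (nat_lit 28) (.e (nat_lit 573450) (nat_lit 9) (.e (nat_lit 455) (nat_lit 34) (.e (nat_lit 450304) (nat_lit 0) .nil))))))) (.g (nat_lit 1) (.e (nat_lit 101627) (nat_lit 0) .nil) .nil))))) (.nd (nat_lit 8) (.nd (nat_lit 9) 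
(.lf (nat_lit 476292) (.g (nat_lit 783) (.e (nat_lit 1796) (nat_lit 119) (.e (nat_lit 516158) (nat_lit 9) (.e (nat_lit 426306) (nat_lit 12) (.e (nat_lit 475179) (nat_lit 24) .nil)))) (.g (nat_lit 0) (.e (nat_lit 100333) (nat_lit 0) .nil) .nil))) 
(.lf (nat_lit 476804) (.g (nat_lit 1312) (.e (nat_lit 1841) (nat_lit 123) (.e (nat_lit 548889) (nat_lit 9) (.e (nat_lit 65586) (nat_lit 7) (.e (nat_lit 319500) (nat_lit 10) (.e (nat_lit 559) (nat_lit 41) .nil))))) (.g (nat_lit 0) (.e (nat_lit 101074) (nat_lit 0) .nil) .nil)))) (.nd (nat_lit 9) 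
(.lf (nat_lit 476548) (.g (nat_lit 4365) (.e (nat_lit 1800) (nat_lit 119) (.e (nat_lit 516119) (nat_lit 1) (.e (nat_lit 164401) (nat_lit 256) (.e (nat_lit 57378) (nat_lit 3) (.e (nat_lit 98366) (nat_lit 27) (.e (nat_lit 434231) (nat_lit 23) (.e (nat_lit 532514) (nat_lit 3) (.e (nat_lit 114708) (nat_lit 20) .nil)))))))) (.g (nat_lit 1) (.e (nat_lit 100697) (nat_lit 0) .nil) .nil))) 
(.lf (nat_lit 477060) (.g (nat_lit 1123) (.e (nat_lit 1853) (nat_lit 124) (.e (nat_lit 557098) (nat_lit 13) (.e (nat_lit 172097) (nat_lit 9) .nil))) (.g (nat_lit 0) (.e (nat_lit 101779) (nat_lit 0) .nil) .nil)))))) (.nd (nat_lit 7) (.nd (nat_lit 8) (.nd (nat_lit 9) 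
(.lf (nat_lit 476228) (.g (nat_lit 1396) (.e (nat_lit 1795) (nat_lit 119) (.e (nat_lit 516120) (nat_lit 1) (.e (nat_lit 164329) (nat_lit 230) (.e (nat_lit 163941) (nat_lit 19) .nil)))) (.g (nat_lit 0) (.e (nat_lit 100216) (nat_lit 0) .nil) .nil))) 
(.lf (nat_lit 476740) (.g (nat_lit 4542) (.e (nat_lit 1802) (nat_lit 119) (.e (nat_lit 516139) (nat_lit 7) (.e (nat_lit 409645) (nat_lit 18) (.e (nat_lit 303117) (nat_lit 2) (.e (nat_lit 196674) (nat_lit 15) (.e (nat_lit 81946) (nat_lit 20) .nil)))))) (.g (nat_lit 1) (.e (nat_lit 100965) (nat_lit 0) .nil) .nil)))) (.nd (nat_lit 9) 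
(.lf (nat_lit 476484) (.g (nat_lit 471) (.e (nat_lit 1800) (nat_lit 119) (.e (nat_lit 516117) (nat_lit 1) (.e (nat_lit 164305) (nat_lit 226) .nil))) (.g (nat_lit 0) (.e (nat_lit 100627) (nat_lit 0) .nil) .nil))) 
(.lf (nat_lit 476996) (.g (nat_lit 3230) (.e (nat_lit 1849) (nat_lit 124) (.e (nat_lit 557097) (nat_lit 13) (.e (nat_lit 172115) (nat_lit 10) (.e (nat_lit 434244) (nat_lit 28) (.e (nat_lit 573450) (nat_lit 9) (.e (nat_lit 455) (nat_lit 34) (.e (nat_lit 450304) (nat_lit 0) .nil))))))) (.g (nat_lit 1) (.e (nat_lit 101700) (nat_lit 0) .nil) .nil))))) (.nd (nat_lit 8) (.nd (nat_lit 9) 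
(.lf (nat_lit 476356) (.g (nat_lit 3257) (.e (nat_lit 1798) (nat_lit 119) (.e (nat_lit 516139) (nat_lit 7) (.e (nat_lit 409645) (nat_lit 18) (.e (nat_lit 303117) (nat_lit 2) (.e (nat_lit 196674) (nat_lit 15) (.e (nat_lit 81947) (nat_lit 20) .nil)))))) (.g (nat_lit 1) (.e (nat_lit 100429) (nat_lit 0) .nil) .nil))) 
(.lf (nat_lit 476868) (.g (nat_lit 1270) (.e (nat_lit 1847) (nat_lit 124) (.e (nat_lit 557087) (nat_lit 11) (.e (nat_lit 24617) (nat_lit 7) .nil))) (.g (nat_lit 0) (.e (nat_lit 101497) (nat_lit 0) .nil) .nil)))) (.nd (nat_lit 9) 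
(.lf (nat_lit 476612) (.g (nat_lit 2181) (.e (nat_lit 1800) (nat_lit 119) (.e (nat_lit 516122) (nat_lit 2) (.e (nat_lit 213032) (nat_lit 11) (.e (nat_lit 24608) (nat_lit 3) (.e (nat_lit 98370) (nat_lit 28) (.e (nat_lit 442374) (nat_lit 0) .nil)))))) (.g (nat_lit 1) (.e (nat_lit 100770) (nat_lit 0) .nil) .nil))) 
(.lf (nat_lit 477124) (.g (nat_lit 2644) (.e (nat_lit 1853) (nat_lit 124) (.e (nat_lit 557109) (nat_lit 15) (.e (nat_lit 188450) (nat_lit 23) (.e (nat_lit 204882) (nat_lit 32) .nil)))) (.g (nat_lit 0) (.e (nat_lit 101844) (nat_lit 0) .nil) .nil))))))) (.nd (nat_lit 6) (.nd (nat_lit 7) (.nd (nat_lit 8) (.nd (nat_lit 9) 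
(.lf (nat_lit 476196) (.g (nat_lit 2473) (.e (nat_lit 1806) (nat_lit 119) (.e (nat_lit 516119) (nat_lit 1) (.e (nat_lit 164403) (nat_lit 256) (.e (nat_lit 57373) (nat_lit 2) (.e (nat_lit 90174) (nat_lit 14) .nil))))) (.g (nat_lit 0) (.e (nat_lit 100179) (nat_lit 0) .nil) .nil))) 
(.lf (nat_lit 476708) (.g (nat_lit 3006) (.e (nat_lit 1801) (nat_lit 119) (.e (nat_lit 516151) (nat_lit 9) (.e (nat_lit 426211) (nat_lit 9) (.e (nat_lit 426125) (nat_lit 2) .nil)))) (.g (nat_lit 0) (.e (nat_lit 100924) (nat_lit 0) .nil) .nil)))) (.nd (nat_lit 9) 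
(.lf (nat_lit 476452) (.g (nat_lit 2896) (.e (nat_lit 1800) (nat_lit 119) (.e (nat_lit 516115) (nat_lit 1) (.e (nat_lit 164325) (nat_lit 230) (.e (nat_lit 163903) (nat_lit 12) (.e (nat_lit 426568) (nat_lit 34) (.e (nat_lit 393279) (nat_lit 23) (.e (nat_lit 426419) (nat_lit 15) .nil))))))) (.g (nat_lit 1) (.e (nat_lit 100567) (nat_lit 0) .nil) .nil))) 
(.lf (nat_lit 476964) (.g (nat_lit 2169) (.e (nat_lit 1848) (nat_lit 124) (.e (nat_lit 557108) (nat_lit 15) (.e (nat_lit 188449) (nat_lit 22) (.e (nat_lit 196661) (nat_lit 12) (.e (nat_lit 57749) (nat_lit 201) (.e (nat_lit 2940) (nat_lit 184) (.e (nat_lit 433920) (nat_lit 15) .nil))))))) (.g (nat_lit 1) (.e (nat_lit 101659) (nat_lit 0) .nil) .nil))))) (.nd (nat_lit 8) (.nd (nat_lit 9) 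
(.lf (nat_lit 476324) (.g (nat_lit 2653) (.e (nat_lit 1797) (nat_lit 119) (.e (nat_lit 516119) (nat_lit 1) (.e (nat_lit 164403) (nat_lit 256) (.e (nat_lit 57373) (nat_lit 2) (.e (nat_lit 90172) (nat_lit 14) .nil))))) (.g (nat_lit 0) (.e (nat_lit 100384) (nat_lit 0) .nil) .nil))) 
(.lf (nat_lit 476836) (.g (nat_lit 1874) (.e (nat_lit 7936) (nat_lit 126) (.e (nat_lit 573493) (nat_lit 15) (.e (nat_lit 81956) (nat_lit 23) (.e (nat_lit 98350) (nat_lit 24) .nil)))) (.g (nat_lit 0) (.e (nat_lit 101429) (nat_lit 0) .nil) .nil)))) (.nd (nat_lit 9) 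
(.lf (nat_lit 476580) (.g (nat_lit 1410) (.e (nat_lit 1800) (nat_lit 119) (.e (nat_lit 516120) (nat_lit 1) (.e (nat_lit 164330) (nat_lit 230) (.e (nat_lit 163913) (nat_lit 12) .nil)))) (.g (nat_lit 0) (.e (nat_lit 100735) (nat_lit 0) .nil) .nil))) 
(.lf (nat_lit 477092) (.g (nat_lit 1975) (.e (nat_lit 1853) (nat_lit 124) (.e (nat_lit 557107) (nat_lit 15) (.e (nat_lit 188439) (nat_lit 20) (.e (nat_lit 3270) (nat_lit 199) (.e (nat_lit 548898) (nat_lit 14) (.e (nat_lit 2988) (nat_lit 186) (.e (nat_lit 442373) (nat_lit 0) .nil))))))) (.g (nat_lit 1) (.e (nat_lit 101812) (nat_lit 0) .nil) .nil)))))) 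
(.nd (nat_lit 7) (.nd (nat_lit 8) (.nd (nat_lit 9) 
(.lf (nat_lit 476260) (.g (nat_lit 3466) (.e (nat_lit 1796) (nat_lit 119) (.e (nat_lit 516115) (nat_lit 1) (.e (nat_lit 164327) (nat_lit 230) (.e (nat_lit 163903) (nat_lit 12) (.e (nat_lit 426566) (nat_lit 34) (.e (nat_lit 393273) (nat_lit 23) (.e (nat_lit 426392) (nat_lit 15) .nil))))))) (.g (nat_lit 1) (.e (nat_lit 100276) (nat_lit 0) .nil) .nil))) 
(.lf (nat_lit 476772) (.g (nat_lit 1220) (.e (nat_lit 1803) (nat_lit 119) (.e (nat_lit 516139) (nat_lit 7) (.e (nat_lit 409643) (nat_lit 18) (.e (nat_lit 303117) (nat_lit 2) .nil)))) (.g (nat_lit 0) (.e (nat_lit 101004) (nat_lit 0) .nil) .nil)))) (.nd (nat_lit 9) 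
(.lf (nat_lit 476516) (.g (nat_lit 4806) (.e (nat_lit 1800) (nat_lit 119) (.e (nat_lit 516117) (nat_lit 1) (.e (nat_lit 164399) (nat_lit 256) (.e (nat_lit 57378) (nat_lit 3) (.e (nat_lit 98366) (nat_lit 27) (.e (nat_lit 434231) (nat_lit 23) (.e (nat_lit 532514) (nat_lit 3) (.e (nat_lit 114708) (nat_lit 20) .nil)))))))) (.g (nat_lit 1) (.e (nat_lit 100661) (nat_lit 0) .nil) .nil))) 
(.lf (nat_lit 477028) (.g (nat_lit 5416) (.e (nat_lit 1849) (nat_lit 124) (.e (nat_lit 557109) (nat_lit 15) (.e (nat_lit 188449) (nat_lit 22) (.e (nat_lit 196618) (nat_lit 9) .nil)))) (.g (nat_lit 0) (.e (nat_lit 101734) (nat_lit 0) .nil) .nil))))) (.nd (nat_lit 8) (.nd (nat_lit 9) 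
(.lf (nat_lit 476388) (.g (nat_lit 2943) (.e (nat_lit 1799) (nat_lit 119) (.e (nat_lit 516115) (nat_lit 1) (.e (nat_lit 164325) (nat_lit 230) (.e (nat_lit 163943) (nat_lit 19) (.e (nat_lit 483341) (nat_lit 9) .nil))))) (.g (nat_lit 0) (.e (nat_lit 100470) (nat_lit 0) .nil) .nil))) 
(.lf (nat_lit 476900) (.g (nat_lit 3396) (.e (nat_lit 1848) (nat_lit 124) (.e (nat_lit 557097) (nat_lit 13) (.e (nat_lit 172097) (nat_lit 9) (.e (nat_lit 426125) (nat_lit 2) (.e (nat_lit 196661) (nat_lit 12) (.e (nat_lit 57751) (nat_lit 201) (.e (nat_lit 2854) (nat_lit 184) (.e (nat_lit 426402) (nat_lit 15) .nil)))))))) (.g (nat_lit 1) (.e (nat_lit 101595) (nat_lit 0) .nil) .nil)))) 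
(.nd (nat_lit 9) 
(.lf (nat_lit 476644) (.g (nat_lit 2556) (.e (nat_lit 1800) (nat_lit 119) (.e (nat_lit 516139) (nat_lit 7) (.e (nat_lit 409648) (nat_lit 18) (.e (nat_lit 303116) (nat_lit 2) (.e (nat_lit 196674) (nat_lit 15) .nil))))) (.g (nat_lit 0) (.e (nat_lit 100808) (nat_lit 0) .nil) .nil))) 
(.lf (nat_lit 477156) (.g (nat_lit 1537) (.e (nat_lit 1855) (nat_lit 124) (.e (nat_lit 557100) (nat_lit 13) (.e (nat_lit 172113) (nat_lit 10) (.e (nat_lit 434245) (nat_lit 28) (.e (nat_lit 573471) (nat_lit 11) .nil))))) (.g (nat_lit 0) (.e (nat_lit 101912) (nat_lit 0) .nil) .nil)))))))) (.nd (nat_lit 5) (.nd (nat_lit 6) (.nd (nat_lit 7) (.nd (nat_lit 8) (.nd (nat_lit 9) 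
(.lf (nat_lit 476180) (.g (nat_lit 2695) (.e (nat_lit 1804) (nat_lit 119) (.e (nat_lit 516119) (nat_lit 1) (.e (nat_lit 164403) (nat_lit 256) (.e (nat_lit 57373) (nat_lit 2) (.e (nat_lit 90172) (nat_lit 14) .nil))))) (.g (nat_lit 0) (.e (nat_lit 100160) (nat_lit 0) .nil) .nil))) 
(.lf (nat_lit 476692) (.g (nat_lit 1945) (.e (nat_lit 1801) (nat_lit 119) (.e (nat_lit 516120) (nat_lit 1) (.e (nat_lit 164330) (nat_lit 230) (.e (nat_lit 163941) (nat_lit 19) (.e (nat_lit 483341) (nat_lit 9) (.e (nat_lit 426198) (nat_lit 9) (.e (nat_lit 426363) (nat_lit 15) .nil))))))) (.g (nat_lit 1) (.e (nat_lit 100893) (nat_lit 0) .nil) .nil)))) (.nd (nat_lit 9) 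
(.lf (nat_lit 476436) (.g (nat_lit 1730) (.e (nat_lit 1800) (nat_lit 119) (.e (nat_lit 516115) (nat_lit 1) (.e (nat_lit 164325) (nat_lit 230) (.e (nat_lit 163875) (nat_lit 3) .nil)))) (.g (nat_lit 0) (.e (nat_lit 100548) (nat_lit 0) .nil) .nil))) 
(.lf (nat_lit 476948) (.g (nat_lit 2069) (.e (nat_lit 1848) (nat_lit 124) (.e (nat_lit 557107) (nat_lit 15) (.e (nat_lit 188447) (nat_lit 22) (.e (nat_lit 196661) (nat_lit 12) (.e (nat_lit 57749) (nat_lit 201) (.e (nat_lit 2940) (nat_lit 184) (.e (nat_lit 433920) (nat_lit 15) .nil))))))) (.g (nat_lit 1) (.e (nat_lit 101643) (nat_lit 0) .nil) .nil))))) (.nd (nat_lit 8) (.nd (nat_lit 9) 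
(.lf (nat_lit 476308) (.g (nat_lit 1499) (.e (nat_lit 1796) (nat_lit 119) (.e (nat_lit 516179) (nat_lit 15) (.e (nat_lit 475177) (nat_lit 24) (.e (nat_lit 516148) (nat_lit 9) .nil)))) (.g (nat_lit 0) (.e (nat_lit 100366) (nat_lit 0) .nil) .nil))) 
(.lf (nat_lit 476820) (.g (nat_lit 3573) (.e (nat_lit 1872) (nat_lit 126) (.e (nat_lit 573489) (nat_lit 14) (.e (nat_lit 73755) (nat_lit 8) (.e (nat_lit 557067) (nat_lit 9) (.e (nat_lit 2878) (nat_lit 184) .nil))))) (.g (nat_lit 0) (.e (nat_lit 101147) (nat_lit 0) .nil) .nil)))) (.nd (nat_lit 9) 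
(.lf (nat_lit 476564) (.g (nat_lit 260) (.e (nat_lit 1800) (nat_lit 119) (.e (nat_lit 516120) (nat_lit 1) (.e (nat_lit 164330) (nat_lit 230) .nil))) (.g (nat_lit 0) (.e (nat_lit 100716) (nat_lit 0) .nil) .nil))) 
(.lf (nat_lit 477076) (.g (nat_lit 1913) (.e (nat_lit 1853) (nat_lit 124) (.e (nat_lit 557101) (nat_lit 13) (.e (nat_lit 172115) (nat_lit 10) (.e (nat_lit 434238) (nat_lit 25) (.e (nat_lit 548896) (nat_lit 14) .nil))))) (.g (nat_lit 0) (.e (nat_lit 101795) (nat_lit 0) .nil) .nil)))))) (.nd (nat_lit 7) (.nd (nat_lit 8) (.nd (nat_lit 9) 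
(.lf (nat_lit 476244) (.g (nat_lit 2827) (.e (nat_lit 1795) (nat_lit 119) (.e (nat_lit 516138) (nat_lit 7) (.e (nat_lit 409645) (nat_lit 18) (.e (nat_lit 303117) (nat_lit 2) (.e (nat_lit 196674) (nat_lit 15) (.e (nat_lit 81936) (nat_lit 20) .nil)))))) (.g (nat_lit 1) (.e (nat_lit 100233) (nat_lit 0) .nil) .nil))) 
(.lf (nat_lit 476756) (.g (nat_lit 2487) (.e (nat_lit 1802) (nat_lit 119) (.e (nat_lit 516179) (nat_lit 15) (.e (nat_lit 475199) (nat_lit 40) (.e (nat_lit 704589) (nat_lit 3) (.e (nat_lit 163979) (nat_lit 30) (.e (nat_lit 573491) (nat_lit 15) (.e (nat_lit 81943) (nat_lit 20) .nil))))))) (.g (nat_lit 1) (.e (nat_lit 100984) (nat_lit 0) .nil) .nil)))) (.nd (nat_lit 9) 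
(.lf (nat_lit 476500) (.g (nat_lit 1433) (.e (nat_lit 1800) (nat_lit 119) (.e (nat_lit 516117) (nat_lit 1) (.e (nat_lit 164330) (nat_lit 230) (.e (nat_lit 163943) (nat_lit 19) .nil)))) (.g (nat_lit 0) (.e (nat_lit 100644) (nat_lit 0) .nil) .nil))) 
(.lf (nat_lit 477012) (.g (nat_lit 1880) (.e (nat_lit 1849) (nat_lit 124) (.e (nat_lit 557098) (nat_lit 13) (.e (nat_lit 172115) (nat_lit 10) (.e (nat_lit 434244) (nat_lit 28) (.e (nat_lit 573450) (nat_lit 9) .nil))))) (.g (nat_lit 0) (.e (nat_lit 101716) (nat_lit 0) .nil) .nil))))) (.nd (nat_lit 8) (.nd (nat_lit 9) 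
(.lf (nat_lit 476372) (.g (nat_lit 4308) (.e (nat_lit 1798) (nat_lit 119) (.e (nat_lit 516166) (nat_lit 12) (.e (nat_lit 450588) (nat_lit 10) (.e (nat_lit 573475) (nat_lit 12) .nil)))) (.g (nat_lit 0) (.e (nat_lit 100446) (nat_lit 0) .nil) .nil))) 
(.lf (nat_lit 476884) (.g (nat_lit 3944) (.e (nat_lit 1848) (nat_lit 124) (.e (nat_lit 557087) (nat_lit 11) (.e (nat_lit 24662) (nat_lit 14) (.e (nat_lit 401424) (nat_lit 2) .nil)))) (.g (nat_lit 0) (.e (nat_lit 101572) (nat_lit 0) .nil) .nil)))) (.nd (nat_lit 9) 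
(.lf (nat_lit 476628) (.g (nat_lit 2504) (.e (nat_lit 1800) (nat_lit 119) (.e (nat_lit 516138) (nat_lit 7) (.e (nat_lit 409646) (nat_lit 18) (.e (nat_lit 303112) (nat_lit 0) (.e (nat_lit 3252) (nat_lit 197) .nil))))) (.g (nat_lit 0) (.e (nat_lit 100788) (nat_lit 0) .nil) .nil))) 
(.lf (nat_lit 477140) (.g (nat_lit 2236) (.e (nat_lit 1855) (nat_lit 124) (.e (nat_lit 557070) (nat_lit 9) (.e (nat_lit 2744) (nat_lit 174) (.e (nat_lit 253992) (nat_lit 11) (.e (nat_lit 16411) (nat_lit 2) (.e (nat_lit 196672) (nat_lit 15) (.e (nat_lit 81944) (nat_lit 20) .nil))))))) (.g (nat_lit 1) (.e (nat_lit 101867) (nat_lit 0) .nil) .nil))))))) 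
(.nd (nat_lit 6) (.nd (nat_lit 7) (.nd (nat_lit 8) (.nd (nat_lit 9) 
(.lf (nat_lit 476212) (.g (nat_lit 1274) (.e (nat_lit 1795) (nat_lit 119) (.e (nat_lit 516117) (nat_lit 1) (.e (nat_lit 164329) (nat_lit 230) (.e (nat_lit 163941) (nat_lit 19) .nil)))) (.g (nat_lit 0) (.e (nat_lit 100199) (nat_lit 0) .nil) .nil))) 
(.lf (nat_lit 476724) (.g (nat_lit 2602) (.e (nat_lit 1801) (nat_lit 119) (.e (nat_lit 516179) (nat_lit 15) (.e (nat_lit 475199) (nat_lit 40) (.e (nat_lit 704589) (nat_lit 3) (.e (nat_lit 163975) (nat_lit 30) (.e (nat_lit 573491) (nat_lit 15) (.e (nat_lit 81943) (nat_lit 20) .nil))))))) (.g (nat_lit 1) (.e (nat_lit 100940) (nat_lit 0) .nil) .nil)))) (.nd (nat_lit 9) 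
(.lf (nat_lit 476468) (.g (nat_lit 1595) (.e (nat_lit 1800) (nat_lit 119) (.e (nat_lit 516115) (nat_lit 1) (.e (nat_lit 164327) (nat_lit 230) (.e (nat_lit 163875) (nat_lit 3) .nil)))) (.g (nat_lit 0) (.e (nat_lit 100605) (nat_lit 0) .nil) .nil))) 
(.lf (nat_lit 476980) (.g (nat_lit 3024) (.e (nat_lit 1849) (nat_lit 124) (.e (nat_lit 557087) (nat_lit 11) (.e (nat_lit 24617) (nat_lit 7) (.e (nat_lit 319504) (nat_lit 10) (.e (nat_lit 7936) (nat_lit 45) (.e (nat_lit 532547) (nat_lit 11) (.e (nat_lit 352280) (nat_lit 20) .nil))))))) (.g (nat_lit 1) (.e (nat_lit 101682) (nat_lit 0) .nil) .nil))))) (.nd (nat_lit 8) (.nd (nat_lit 9) 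
(.lf (nat_lit 476340) (.g (nat_lit 2366) (.e (nat_lit 1798) (nat_lit 119) (.e (nat_lit 516115) (nat_lit 1) (.e (nat_lit 164325) (nat_lit 230) (.e (nat_lit 163907) (nat_lit 12) .nil)))) (.g (nat_lit 0) (.e (nat_lit 100407) (nat_lit 0) .nil) .nil))) 
(.lf (nat_lit 476852) (.g (nat_lit 1603) (.e (nat_lit 1846) (nat_lit 124) (.e (nat_lit 557101) (nat_lit 13) (.e (nat_lit 172115) (nat_lit 10) (.e (nat_lit 434231) (nat_lit 23) (.e (nat_lit 532482) (nat_lit 0) .nil))))) (.g (nat_lit 0) (.e (nat_lit 101479) (nat_lit 0) .nil) .nil)))) (.nd (nat_lit 9) 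
(.lf (nat_lit 476596) (.g (nat_lit 2230) (.e (nat_lit 1800) (nat_lit 119) (.e (nat_lit 516120) (nat_lit 1) (.e (nat_lit 164331) (nat_lit 230) (.e (nat_lit 163941) (nat_lit 19) (.e (nat_lit 483339) (nat_lit 9) (.e (nat_lit 426259) (nat_lit 9) (.e (nat_lit 426419) (nat_lit 15) .nil))))))) (.g (nat_lit 1) (.e (nat_lit 100751) (nat_lit 0) .nil) .nil))) 
(.lf (nat_lit 477108) (.g (nat_lit 2225) (.e (nat_lit 1853) (nat_lit 124) (.e (nat_lit 557107) (nat_lit 15) (.e (nat_lit 188440) (nat_lit 20) (.e (nat_lit 3271) (nat_lit 199) (.e (nat_lit 548898) (nat_lit 14) (.e (nat_lit 3004) (nat_lit 186) (.e (nat_lit 442373) (nat_lit 0) .nil))))))) (.g (nat_lit 1) (.e (nat_lit 101828) (nat_lit 0) .nil) .nil)))))) 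
(.nd (nat_lit 7) (.nd (nat_lit 8) (.nd (nat_lit 9) 
(.lf (nat_lit 476276) (.g (nat_lit 3706) (.e (nat_lit 1796) (nat_lit 119) (.e (nat_lit 516120) (nat_lit 1) (.e (nat_lit 164330) (nat_lit 230) (.e (nat_lit 163941) (nat_lit 19) (.e (nat_lit 483341) (nat_lit 9) (.e (nat_lit 426198) (nat_lit 9) (.e (nat_lit 426392) (nat_lit 15) .nil))))))) (.g (nat_lit 1) (.e (nat_lit 100313) (nat_lit 0) .nil) .nil))) 
(.lf (nat_lit 476788) (.g (nat_lit 1824) (.e (nat_lit 7936) (nat_lit 119) (.e (nat_lit 516179) (nat_lit 15) (.e (nat_lit 475199) (nat_lit 40) (.e (nat_lit 704589) (nat_lit 3) (.e (nat_lit 163976) (nat_lit 30) .nil))))) (.g (nat_lit 0) (.e (nat_lit 101031) (nat_lit 0) .nil) .nil)))) (.nd (nat_lit 9) 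
(.lf (nat_lit 476532) (.g (nat_lit 1967) (.e (nat_lit 1800) (nat_lit 119) (.e (nat_lit 516119) (nat_lit 1) (.e (nat_lit 164324) (nat_lit 230) (.e (nat_lit 163941) (nat_lit 19) (.e (nat_lit 483341) (nat_lit 9) .nil))))) (.g (nat_lit 0) (.e (nat_lit 100679) (nat_lit 0) .nil) .nil))) 
(.lf (nat_lit 477044) (.g (nat_lit 2629) (.e (nat_lit 1853) (nat_lit 124) (.e (nat_lit 557097) (nat_lit 13) (.e (nat_lit 172115) (nat_lit 10) (.e (nat_lit 434238) (nat_lit 25) (.e (nat_lit 548896) (nat_lit 14) (.e (nat_lit 3004) (nat_lit 186) (.e (nat_lit 450304) (nat_lit 0) .nil))))))) (.g (nat_lit 1) (.e (nat_lit 101763) (nat_lit 0) .nil) .nil))))) (.nd (nat_lit 8) (.nd (nat_lit 9) 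
(.lf (nat_lit 476404) (.g (nat_lit 2776) (.e (nat_lit 1799) (nat_lit 119) (.e (nat_lit 516138) (nat_lit 7) (.e (nat_lit 409645) (nat_lit 18) (.e (nat_lit 303117) (nat_lit 2) (.e (nat_lit 196674) (nat_lit 15) (.e (nat_lit 81940) (nat_lit 20) .nil)))))) (.g (nat_lit 1) (.e (nat_lit 100488) (nat_lit 0) .nil) .nil))) 
(.lf (nat_lit 476916) (.g (nat_lit 2472) (.e (nat_lit 1848) (nat_lit 124) (.e (nat_lit 557097) (nat_lit 13) (.e (nat_lit 172115) (nat_lit 10) (.e (nat_lit 434238) (nat_lit 25) (.e (nat_lit 548896) (nat_lit 14) (.e (nat_lit 2998) (nat_lit 186) (.e (nat_lit 450304) (nat_lit 0) .nil))))))) (.g (nat_lit 1) (.e (nat_lit 101611) (nat_lit 0) .nil) .nil)))) (.nd (nat_lit 9) 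
(.lf (nat_lit 476660) (.g (nat_lit 5582) (.e (nat_lit 1800) (nat_lit 119) (.e (nat_lit 516166) (nat_lit 12) (.e (nat_lit 450588) (nat_lit 10) (.e (nat_lit 573478) (nat_lit 12) .nil)))) (.g (nat_lit 0) (.e (nat_lit 100847) (nat_lit 0) .nil) .nil))) 
(.lf (nat_lit 477172) (.g (nat_lit 2919) (.e (nat_lit 1855) (nat_lit 124) (.e (nat_lit 557105) (nat_lit 14) (.e (nat_lit 180252) (nat_lit 10) (.e (nat_lit 573480) (nat_lit 13) (.e (nat_lit 65637) (nat_lit 15) (.e (nat_lit 3253) (nat_lit 197) (.e (nat_lit 532504) (nat_lit 1) (.e (nat_lit 57852) (nat_lit 252) (.e (nat_lit 57361) (nat_lit 0) .nil))))))))) (.g (nat_lit 1) (.e (nat_lit 101928) (nat_lit 0) .nil) .nil))))))))) 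
(.nd (nat_lit 4) (.nd (nat_lit 5) (.nd (nat_lit 6) (.nd (nat_lit 7) (.nd (nat_lit 8) 
(.nd (nat_lit 9) 
(.lf (nat_lit 476172) (.g (nat_lit 1753) (.e (nat_lit 1793) (nat_lit 119) (.e (nat_lit 516116) (nat_lit 1) (.e (nat_lit 164329) (nat_lit 230) (.e (nat_lit 163902) (nat_lit 12) .nil)))) (.g (nat_lit 0) (.e (nat_lit 100146) (nat_lit 0) .nil) .nil))) 
(.lf (nat_lit 476684) (.g (nat_lit 2193) (.e (nat_lit 1801) (nat_lit 119) (.e (nat_lit 516117) (nat_lit 1) (.e (nat_lit 164329) (nat_lit 230) (.e (nat_lit 163941) (nat_lit 19) .nil)))) (.g (nat_lit 0) (.e (nat_lit 100885) (nat_lit 0) .nil) .nil)))) (.nd (nat_lit 9) 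
(.lf (nat_lit 476428) (.g (nat_lit 791) (.e (nat_lit 1799) (nat_lit 119) (.e (nat_lit 516179) (nat_lit 15) (.e (nat_lit 475177) (nat_lit 24) .nil))) (.g (nat_lit 0) (.e (nat_lit 100520) (nat_lit 0) .nil) .nil))) 
(.lf (nat_lit 476940) (.g (nat_lit 1957) (.e (nat_lit 1848) (nat_lit 124) (.e (nat_lit 557098) (nat_lit 13) (.e (nat_lit 172115) (nat_lit 10) (.e (nat_lit 434231) (nat_lit 23) .nil)))) (.g (nat_lit 0) (.e (nat_lit 101635) (nat_lit 0) .nil) .nil))))) (.nd (nat_lit 8) (.nd (nat_lit 9) 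
(.lf (nat_lit 476300) (.g (nat_lit 1474) (.e (nat_lit 1796) (nat_lit 119) (.e (nat_lit 516166) (nat_lit 12) (.e (nat_lit 450587) (nat_lit 10) (.e (nat_lit 573457) (nat_lit 9) .nil)))) (.g (nat_lit 0) (.e (nat_lit 100358) (nat_lit 0) .nil) .nil))) 
(.lf (nat_lit 476812) (.g (nat_lit 4646) (.e (nat_lit 1842) (nat_lit 123) (.e (nat_lit 548874) (nat_lit 5) (.e (nat_lit 1401) (nat_lit 106) (.e (nat_lit 319538) (nat_lit 19) (.e (nat_lit 311315) (nat_lit 3) (.e (nat_lit 204846) (nat_lit 24) (.e (nat_lit 319533) (nat_lit 16) (.e (nat_lit 286724) (nat_lit 0) .nil)))))))) (.g (nat_lit 1) (.e (nat_lit 101106) (nat_lit 0) .nil) .nil)))) 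
(.nd (nat_lit 9) 
(.lf (nat_lit 476556) (.g (nat_lit 3236) (.e (nat_lit 1800) (nat_lit 119) (.e (nat_lit 516119) (nat_lit 1) (.e (nat_lit 164403) (nat_lit 256) (.e (nat_lit 57378) (nat_lit 3) (.e (nat_lit 98367) (nat_lit 27) (.e (nat_lit 434231) (nat_lit 23) (.e (nat_lit 532513) (nat_lit 3) (.e (nat_lit 114708) (nat_lit 20) .nil)))))))) (.g (nat_lit 1) (.e (nat_lit 100708) (nat_lit 0) .nil) .nil))) 
(.lf (nat_lit 477068) (.g (nat_lit 2628) (.e (nat_lit 1853) (nat_lit 124) (.e (nat_lit 557100) (nat_lit 13) (.e (nat_lit 172106) (nat_lit 10) (.e (nat_lit 434231) (nat_lit 23) (.e (nat_lit 532565) (nat_lit 15) .nil))))) (.g (nat_lit 0) (.e (nat_lit 101787) (nat_lit 0) .nil) .nil)))))) (.nd (nat_lit 7) (.nd (nat_lit 8) (.nd (nat_lit 9) 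
(.lf (nat_lit 476236) (.g (nat_lit 2935) (.e (nat_lit 1795) (nat_lit 119) (.e (nat_lit 516120) (nat_lit 1) (.e (nat_lit 164403) (nat_lit 256) (.e (nat_lit 57371) (nat_lit 2) (.e (nat_lit 90174) (nat_lit 14) .nil))))) (.g (nat_lit 0) (.e (nat_lit 100224) (nat_lit 0) .nil) .nil))) 
(.lf (nat_lit 476748) (.g (nat_lit 4812) (.e (nat_lit 1802) (nat_lit 119) (.e (nat_lit 516166) (nat_lit 12) (.e (nat_lit 450588) (nat_lit 10) (.e (nat_lit 573475) (nat_lit 12) .nil)))) (.g (nat_lit 0) (.e (nat_lit 100976) (nat_lit 0) .nil) .nil)))) (.nd (nat_lit 9) 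
(.lf (nat_lit 476492) (.g (nat_lit 2479) (.e (nat_lit 1800) (nat_lit 119) (.e (nat_lit 516117) (nat_lit 1) (.e (nat_lit 164329) (nat_lit 230) (.e (nat_lit 163941) (nat_lit 19) (.e (nat_lit 491264) (nat_lit 11) (.e (nat_lit 442377) (nat_lit 0) .nil)))))) (.g (nat_lit 1) (.e (nat_lit 100636) (nat_lit 0) .nil) .nil))) 
(.lf (nat_lit 477004) (.g (nat_lit 2324) (.e (nat_lit 1849) (nat_lit 124) (.e (nat_lit 557098) (nat_lit 13) (.e (nat_lit 172097) (nat_lit 9) (.e (nat_lit 426125) (nat_lit 2) (.e (nat_lit 196661) (nat_lit 12) (.e (nat_lit 57751) (nat_lit 201) (.e (nat_lit 2856) (nat_lit 184) (.e (nat_lit 426402) (nat_lit 15) .nil)))))))) (.g (nat_lit 1) (.e (nat_lit 101708) (nat_lit 0) .nil) .nil))))) 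
(.nd (nat_lit 8) (.nd (nat_lit 9) 
(.lf (nat_lit 476364) (.g (nat_lit 2527) (.e (nat_lit 1798) (nat_lit 119) (.e (nat_lit 516165) (nat_lit 12) (.e (nat_lit 450586) (nat_lit 10) (.e (nat_lit 573475) (nat_lit 12) (.e (nat_lit 57574) (nat_lit 55) .nil))))) (.g (nat_lit 0) (.e (nat_lit 100438) (nat_lit 0) .nil) .nil))) 
(.lf (nat_lit 476876) (.g (nat_lit 2879) (.e (nat_lit 1847) (nat_lit 124) (.e (nat_lit 557108) (nat_lit 15) (.e (nat_lit 188452) (nat_lit 23) (.e (nat_lit 204885) (nat_lit 33) .nil)))) (.g (nat_lit 0) (.e (nat_lit 101506) (nat_lit 0) .nil) .nil)))) (.nd (nat_lit 9) 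
(.lf (nat_lit 476620) (.g (nat_lit 2005) (.e (nat_lit 1800) (nat_lit 119) (.e (nat_lit 516126) (nat_lit 2) (.e (nat_lit 213032) (nat_lit 11) (.e (nat_lit 24604) (nat_lit 2) (.e (nat_lit 90176) (nat_lit 15) (.e (nat_lit 196352) (nat_lit 0) .nil)))))) (.g (nat_lit 1) (.e (nat_lit 100778) (nat_lit 0) .nil) .nil))) 
(.lf (nat_lit 477132) (.g (nat_lit 3667) (.e (nat_lit 1854) (nat_lit 124) (.e (nat_lit 557105) (nat_lit 14) (.e (nat_lit 180252) (nat_lit 10) (.e (nat_lit 573482) (nat_lit 13) (.e (nat_lit 65637) (nat_lit 15) .nil))))) (.g (nat_lit 0) (.e (nat_lit 101853) (nat_lit 0) .nil) .nil))))))) (.nd (nat_lit 6) (.nd (nat_lit 7) (.nd (nat_lit 8) (.nd (nat_lit 9) 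
(.lf (nat_lit 476204) (.g (nat_lit 2437) (.e (nat_lit 1807) (nat_lit 119) (.e (nat_lit 516119) (nat_lit 1) (.e (nat_lit 164403) (nat_lit 256) (.e (nat_lit 57371) (nat_lit 2) (.e (nat_lit 90174) (nat_lit 14) .nil))))) (.g (nat_lit 0) (.e (nat_lit 100188) (nat_lit 0) .nil) .nil))) 
(.lf (nat_lit 476716) (.g (nat_lit 2527) (.e (nat_lit 1801) (nat_lit 119) (.e (nat_lit 516165) (nat_lit 12) (.e (nat_lit 450586) (nat_lit 10) (.e (nat_lit 573475) (nat_lit 12) (.e (nat_lit 57574) (nat_lit 55) .nil))))) (.g (nat_lit 0) (.e (nat_lit 100932) (nat_lit 0) .nil) .nil)))) (.nd (nat_lit 9) 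
(.lf (nat_lit 476460) (.g (nat_lit 3002) (.e (nat_lit 1800) (nat_lit 119) (.e (nat_lit 516115) (nat_lit 1) (.e (nat_lit 164325) (nat_lit 230) (.e (nat_lit 163907) (nat_lit 12) (.e (nat_lit 426479) (nat_lit 27) (.e (nat_lit 336430) (nat_lit 29) (.e (nat_lit 450304) (nat_lit 0) .nil))))))) (.g (nat_lit 1) (.e (nat_lit 100575) (nat_lit 0) .nil) .nil))) 
(.lf (nat_lit 476972) (.g (nat_lit 3002) (.e (nat_lit 1848) (nat_lit 124) (.e (nat_lit 557108) (nat_lit 15) (.e (nat_lit 188449) (nat_lit 22) (.e (nat_lit 196661) (nat_lit 12) (.e (nat_lit 57751) (nat_lit 201) (.e (nat_lit 2857) (nat_lit 184) (.e (nat_lit 426402) (nat_lit 15) .nil))))))) (.g (nat_lit 1) (.e (nat_lit 101667) (nat_lit 0) .nil) .nil))))) (.nd (nat_lit 8) (.nd (nat_lit 9) 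
(.lf (nat_lit 476332) (.g (nat_lit 3296) (.e (nat_lit 1797) (nat_lit 119) (.e (nat_lit 516120) (nat_lit 1) (.e (nat_lit 164403) (nat_lit 256) (.e (nat_lit 57373) (nat_lit 2) (.e (nat_lit 90174) (nat_lit 14) .nil))))) (.g (nat_lit 0) (.e (nat_lit 100392) (nat_lit 0) .nil) .nil))) 
(.lf (nat_lit 476844) (.g (nat_lit 1275) (.e (nat_lit 1846) (nat_lit 124) (.e (nat_lit 557098) (nat_lit 13) (.e (nat_lit 172097) (nat_lit 9) (.e (nat_lit 426125) (nat_lit 2) .nil)))) (.g (nat_lit 0) (.e (nat_lit 101471) (nat_lit 0) .nil) .nil)))) (.nd (nat_lit 9) 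
(.lf (nat_lit 476588) (.g (nat_lit 2180) (.e (nat_lit 1800) (nat_lit 119) (.e (nat_lit 516120) (nat_lit 1) (.e (nat_lit 164330) (nat_lit 230) (.e (nat_lit 163941) (nat_lit 19) (.e (nat_lit 483341) (nat_lit 9) (.e (nat_lit 426198) (nat_lit 9) (.e (nat_lit 426393) (nat_lit 15) .nil))))))) (.g (nat_lit 1) (.e (nat_lit 100743) (nat_lit 0) .nil) .nil))) 
(.lf (nat_lit 477100) (.g (nat_lit 1732) (.e (nat_lit 1853) (nat_lit 124) (.e (nat_lit 557107) (nat_lit 15) (.e (nat_lit 188439) (nat_lit 20) (.e (nat_lit 3272) (nat_lit 199) (.e (nat_lit 548896) (nat_lit 14) (.e (nat_lit 3004) (nat_lit 186) (.e (nat_lit 450304) (nat_lit 0) .nil))))))) (.g (nat_lit 1) (.e (nat_lit 101820) (nat_lit 0) .nil) .nil)))))) 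
(.nd (nat_lit 7) (.nd (nat_lit 8) (.nd (nat_lit 9) 
(.lf (nat_lit 476268) (.g (nat_lit 602) (.e (nat_lit 1796) (nat_lit 119) (.e (nat_lit 516119) (nat_lit 1) (.e (nat_lit 164326) (nat_lit 230) .nil))) (.g (nat_lit 0) (.e (nat_lit 100301) (nat_lit 0) .nil) .nil))) 
(.lf (nat_lit 476780) (.g (nat_lit 6583) (.e (nat_lit 1803) (nat_lit 119) (.e (nat_lit 516166) (nat_lit 12) (.e (nat_lit 450588) (nat_lit 10) (.e (nat_lit 573474) (nat_lit 12) .nil)))) (.g (nat_lit 0) (.e (nat_lit 101017) (nat_lit 0) .nil) .nil)))) (.nd (nat_lit 9) 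
(.lf (nat_lit 476524) (.g (nat_lit 2629) (.e (nat_lit 1800) (nat_lit 119) (.e (nat_lit 516117) (nat_lit 1) (.e (nat_lit 164403) (nat_lit 256) (.e (nat_lit 57378) (nat_lit 3) (.e (nat_lit 98366) (nat_lit 27) .nil))))) (.g (nat_lit 0) (.e (nat_lit 100670) (nat_lit 0) .nil) .nil))) 
(.lf (nat_lit 477036) (.g (nat_lit 2335) (.e (nat_lit 1849) (nat_lit 124) (.e (nat_lit 557109) (nat_lit 15) (.e (nat_lit 188450) (nat_lit 23) (.e (nat_lit 204846) (nat_lit 24) .nil)))) (.g (nat_lit 0) (.e (nat_lit 101742) (nat_lit 0) .nil) .nil))))) (.nd (nat_lit 8) (.nd (nat_lit 9) 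
(.lf (nat_lit 476396) (.g (nat_lit 2343) (.e (nat_lit 1799) (nat_lit 119) (.e (nat_lit 516120) (nat_lit 1) (.e (nat_lit 164329) (nat_lit 230) (.e (nat_lit 163941) (nat_lit 19) (.e (nat_lit 483341) (nat_lit 9) (.e (nat_lit 426200) (nat_lit 9) (.e (nat_lit 426360) (nat_lit 15) .nil))))))) (.g (nat_lit 1) (.e (nat_lit 100479) (nat_lit 0) .nil) .nil))) 
(.lf (nat_lit 476908) (.g (nat_lit 2872) (.e (nat_lit 1848) (nat_lit 124) (.e (nat_lit 557097) (nat_lit 13) (.e (nat_lit 172115) (nat_lit 10) (.e (nat_lit 434231) (nat_lit 23) (.e (nat_lit 532482) (nat_lit 0) (.e (nat_lit 6696) (nat_lit 357) (.e (nat_lit 2845) (nat_lit 184) (.e (nat_lit 426402) (nat_lit 15) .nil)))))))) (.g (nat_lit 1) (.e (nat_lit 101603) (nat_lit 0) .nil) .nil)))) 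
(.nd (nat_lit 9) 
(.lf (nat_lit 476652) (.g (nat_lit 2526) (.e (nat_lit 1800) (nat_lit 119) (.e (nat_lit 516139) (nat_lit 7) (.e (nat_lit 409649) (nat_lit 18) (.e (nat_lit 303111) (nat_lit 0) (.e (nat_lit 3252) (nat_lit 197) .nil))))) (.g (nat_lit 0) (.e (nat_lit 100817) (nat_lit 0) .nil) .nil))) 
(.lf (nat_lit 477164) (.g (nat_lit 2724) (.e (nat_lit 1855) (nat_lit 124) (.e (nat_lit 557101) (nat_lit 13) (.e (nat_lit 172115) (nat_lit 10) (.e (nat_lit 434244) (nat_lit 28) (.e (nat_lit 573450) (nat_lit 9) (.e (nat_lit 454) (nat_lit 34) (.e (nat_lit 442372) (nat_lit 0) .nil))))))) (.g (nat_lit 1) (.e (nat_lit 101920) (nat_lit 0) .nil) .nil)))))))) 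
(.nd (nat_lit 5) (.nd (nat_lit 6) (.nd (nat_lit 7) (.nd (nat_lit 8) (.nd (nat_lit 9) 
(.lf (nat_lit 476188) (.g (nat_lit 2274) (.e (nat_lit 1805) (nat_lit 119) (.e (nat_lit 516119) (nat_lit 1) (.e (nat_lit 164403) (nat_lit 256) (.e (nat_lit 57370) (nat_lit 2) (.e (nat_lit 90172) (nat_lit 14) .nil))))) (.g (nat_lit 0) (.e (nat_lit 100170) (nat_lit 0) .nil) .nil))) 
(.lf (nat_lit 476700) (.g (nat_lit 1662) (.e (nat_lit 1801) (nat_lit 119) (.e (nat_lit 516139) (nat_lit 7) (.e (nat_lit 409646) (nat_lit 18) (.e (nat_lit 303119) (nat_lit 3) .nil)))) (.g (nat_lit 0) (.e (nat_lit 100910) (nat_lit 0) .nil) .nil)))) (.nd (nat_lit 9) 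
(.lf (nat_lit 476444) (.g (nat_lit 3307) (.e (nat_lit 1800) (nat_lit 119) (.e (nat_lit 516115) (nat_lit 1) (.e (nat_lit 164325) (nat_lit 230) (.e (nat_lit 163903) (nat_lit 12) (.e (nat_lit 426479) (nat_lit 27) (.e (nat_lit 336430) (nat_lit 29) (.e (nat_lit 442378) (nat_lit 0) .nil))))))) (.g (nat_lit 1) (.e (nat_lit 100557) (nat_lit 0) .nil) .nil))) 
(.lf (nat_lit 476956) (.g (nat_lit 2742) (.e (nat_lit 1848) (nat_lit 124) (.e (nat_lit 557107) (nat_lit 15) (.e (nat_lit 188447) (nat_lit 22) (.e (nat_lit 196661) (nat_lit 12) (.e (nat_lit 57751) (nat_lit 201) (.e (nat_lit 2857) (nat_lit 184) (.e (nat_lit 426402) (nat_lit 15) .nil))))))) (.g (nat_lit 1) (.e (nat_lit 101651) (nat_lit 0) .nil) .nil))))) (.nd (nat_lit 8) (.nd (nat_lit 9) 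
(.lf (nat_lit 476316) (.g (nat_lit 2685) (.e (nat_lit 1797) (nat_lit 119) (.e (nat_lit 516115) (nat_lit 1) (.e (nat_lit 164399) (nat_lit 256) (.e (nat_lit 57378) (nat_lit 3) (.e (nat_lit 98355) (nat_lit 26) .nil))))) (.g (nat_lit 0) (.e (nat_lit 100376) (nat_lit 0) .nil) .nil))) 
(.lf (nat_lit 476828) (.g (nat_lit 2510) (.e (nat_lit 1877) (nat_lit 126) (.e (nat_lit 573487) (nat_lit 14) (.e (nat_lit 73753) (nat_lit 8) (.e (nat_lit 557098) (nat_lit 13) (.e (nat_lit 172064) (nat_lit 2) .nil))))) (.g (nat_lit 0) (.e (nat_lit 101315) (nat_lit 0) .nil) .nil)))) (.nd (nat_lit 9) 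
(.lf (nat_lit 476572) (.g (nat_lit 1697) (.e (nat_lit 1800) (nat_lit 119) (.e (nat_lit 516120) (nat_lit 1) (.e (nat_lit 164330) (nat_lit 230) (.e (nat_lit 163872) (nat_lit 3) .nil)))) (.g (nat_lit 0) (.e (nat_lit 100727) (nat_lit 0) .nil) .nil))) 
(.lf (nat_lit 477084) (.g (nat_lit 2845) (.e (nat_lit 1853) (nat_lit 124) (.e (nat_lit 557101) (nat_lit 13) (.e (nat_lit 172115) (nat_lit 10) (.e (nat_lit 434238) (nat_lit 25) (.e (nat_lit 548898) (nat_lit 14) (.e (nat_lit 2988) (nat_lit 186) (.e (nat_lit 450304) (nat_lit 0) .nil))))))) (.g (nat_lit 1) (.e (nat_lit 101803) (nat_lit 0) .nil) .nil)))))) 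
(.nd (nat_lit 7) (.nd (nat_lit 8) (.nd (nat_lit 9) 
(.lf (nat_lit 476252) (.g (nat_lit 2449) (.e (nat_lit 1796) (nat_lit 119) (.e (nat_lit 516115) (nat_lit 1) (.e (nat_lit 164325) (nat_lit 230) (.e (nat_lit 163875) (nat_lit 3) .nil)))) (.g (nat_lit 0) (.e (nat_lit 100259) (nat_lit 0) .nil) .nil))) 
(.lf (nat_lit 476764) (.g (nat_lit 2377) (.e (nat_lit 1803) (nat_lit 119) (.e (nat_lit 516117) (nat_lit 1) (.e (nat_lit 164399) (nat_lit 256) (.e (nat_lit 57373) (nat_lit 2) (.e (nat_lit 90174) (nat_lit 14) .nil))))) (.g (nat_lit 0) (.e (nat_lit 100994) (nat_lit 0) .nil) .nil)))) (.nd (nat_lit 9) 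
(.lf (nat_lit 476508) (.g (nat_lit 2457) (.e (nat_lit 1800) (nat_lit 119) (.e (nat_lit 516117) (nat_lit 1) (.e (nat_lit 164398) (nat_lit 256) (.e (nat_lit 57378) (nat_lit 3) (.e (nat_lit 98366) (nat_lit 27) (.e (nat_lit 434231) (nat_lit 23) (.e (nat_lit 532513) (nat_lit 3) (.e (nat_lit 114708) (nat_lit 20) .nil)))))))) (.g (nat_lit 1) (.e (nat_lit 100653) (nat_lit 0) .nil) .nil))) 
(.lf (nat_lit 477020) (.g (nat_lit 2146) (.e (nat_lit 1849) (nat_lit 124) (.e (nat_lit 557108) (nat_lit 15) (.e (nat_lit 188449) (nat_lit 22) (.e (nat_lit 196661) (nat_lit 12) (.e (nat_lit 57749) (nat_lit 201) (.e (nat_lit 2940) (nat_lit 184) (.e (nat_lit 426401) (nat_lit 15) .nil))))))) (.g (nat_lit 1) (.e (nat_lit 101726) (nat_lit 0) .nil) .nil))))) (.nd (nat_lit 8) (.nd (nat_lit 9) 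
(.lf (nat_lit 476380) (.g (nat_lit 2456) (.e (nat_lit 1798) (nat_lit 119) (.e (nat_lit 516179) (nat_lit 15) (.e (nat_lit 475199) (nat_lit 40) (.e (nat_lit 704589) (nat_lit 3) (.e (nat_lit 163979) (nat_lit 30) (.e (nat_lit 573491) (nat_lit 15) (.e (nat_lit 81946) (nat_lit 20) .nil))))))) (.g (nat_lit 1) (.e (nat_lit 100458) (nat_lit 0) .nil) .nil))) 
(.lf (nat_lit 476892) (.g (nat_lit 1788) (.e (nat_lit 1848) (nat_lit 124) (.e (nat_lit 557097) (nat_lit 13) (.e (nat_lit 172097) (nat_lit 9) (.e (nat_lit 426125) (nat_lit 2) (.e (nat_lit 196661) (nat_lit 12) (.e (nat_lit 57749) (nat_lit 201) (.e (nat_lit 2936) (nat_lit 184) (.e (nat_lit 433920) (nat_lit 15) .nil)))))))) (.g (nat_lit 1) (.e (nat_lit 101587) (nat_lit 0) .nil) .nil)))) 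
(.nd (nat_lit 9) 
(.lf (nat_lit 476636) (.g (nat_lit 2729) (.e (nat_lit 1800) (nat_lit 119) (.e (nat_lit 516139) (nat_lit 7) (.e (nat_lit 409646) (nat_lit 18) (.e (nat_lit 303112) (nat_lit 0) (.e (nat_lit 3252) (nat_lit 197) (.e (nat_lit 532561) (nat_lit 14) (.e (nat_lit 376855) (nat_lit 20) .nil))))))) (.g (nat_lit 1) (.e (nat_lit 100799) (nat_lit 0) .nil) .nil))) 
(.lf (nat_lit 477148) (.g (nat_lit 2212) (.e (nat_lit 1855) (nat_lit 124) (.e (nat_lit 557098) (nat_lit 13) (.e (nat_lit 172115) (nat_lit 10) (.e (nat_lit 434244) (nat_lit 28) (.e (nat_lit 573449) (nat_lit 9) (.e (nat_lit 454) (nat_lit 34) (.e (nat_lit 442372) (nat_lit 0) .nil))))))) (.g (nat_lit 1) (.e (nat_lit 101904) (nat_lit 0) .nil) .nil))))))) 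
(.nd (nat_lit 6) (.nd (nat_lit 7) (.nd (nat_lit 8) (.nd (nat_lit 9) 
(.lf (nat_lit 476220) (.g (nat_lit 2285) (.e (nat_lit 1795) (nat_lit 119) (.e (nat_lit 516119) (nat_lit 1) (.e (nat_lit 164402) (nat_lit 256) (.e (nat_lit 57371) (nat_lit 2) (.e (nat_lit 90174) (nat_lit 14) .nil))))) (.g (nat_lit 0) (.e (nat_lit 100207) (nat_lit 0) .nil) .nil))) 
(.lf (nat_lit 476732) (.g (nat_lit 2337) (.e (nat_lit 1802) (nat_lit 119) (.e (nat_lit 516115) (nat_lit 1) (.e (nat_lit 164327) (nat_lit 230) (.e (nat_lit 163907) (nat_lit 12) (.e (nat_lit 426566) (nat_lit 34) (.e (nat_lit 393273) (nat_lit 23) (.e (nat_lit 426364) (nat_lit 15) .nil))))))) (.g (nat_lit 1) (.e (nat_lit 100955) (nat_lit 0) .nil) .nil)))) (.nd (nat_lit 9) 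
(.lf (nat_lit 476476) (.g (nat_lit 2406) (.e (nat_lit 1800) (nat_lit 119) (.e (nat_lit 516115) (nat_lit 1) (.e (nat_lit 164398) (nat_lit 256) (.e (nat_lit 57372) (nat_lit 2) (.e (nat_lit 90174) (nat_lit 14) .nil))))) (.g (nat_lit 0) (.e (nat_lit 100614) (nat_lit 0) .nil) .nil))) 
(.lf (nat_lit 476988) (.g (nat_lit 2912) (.e (nat_lit 1849) (nat_lit 124) (.e (nat_lit 557097) (nat_lit 13) (.e (nat_lit 172097) (nat_lit 9) (.e (nat_lit 426125) (nat_lit 2) (.e (nat_lit 196661) (nat_lit 12) (.e (nat_lit 57748) (nat_lit 201) (.e (nat_lit 2940) (nat_lit 184) (.e (nat_lit 433920) (nat_lit 15) .nil)))))))) (.g (nat_lit 1) (.e (nat_lit 101692) (nat_lit 0) .nil) .nil))))) 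
(.nd (nat_lit 8) (.nd (nat_lit 9) 
(.lf (nat_lit 476348) (.g (nat_lit 1882) (.e (nat_lit 1798) (nat_lit 119) (.e (nat_lit 516120) (nat_lit 1) (.e (nat_lit 164330) (nat_lit 230) (.e (nat_lit 163941) (nat_lit 19) (.e (nat_lit 483341) (nat_lit 9) .nil))))) (.g (nat_lit 0) (.e (nat_lit 100420) (nat_lit 0) .nil) .nil))) 
(.lf (nat_lit 476860) (.g (nat_lit 3668) (.e (nat_lit 1846) (nat_lit 124) (.e (nat_lit 557108) (nat_lit 15) (.e (nat_lit 188452) (nat_lit 23) (.e (nat_lit 204880) (nat_lit 32) .nil)))) (.g (nat_lit 0) (.e (nat_lit 101487) (nat_lit 0) .nil) .nil)))) (.nd (nat_lit 9) 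
(.lf (nat_lit 476604) (.g (nat_lit 3257) (.e (nat_lit 1800) (nat_lit 119) (.e (nat_lit 516120) (nat_lit 1) (.e (nat_lit 164403) (nat_lit 256) (.e (nat_lit 57378) (nat_lit 3) (.e (nat_lit 98366) (nat_lit 27) (.e (nat_lit 434231) (nat_lit 23) (.e (nat_lit 532513) (nat_lit 3) (.e (nat_lit 114708) (nat_lit 20) .nil)))))))) (.g (nat_lit 1) (.e (nat_lit 100762) (nat_lit 0) .nil) .nil))) 
(.lf (nat_lit 477116) (.g (nat_lit 1595) (.e (nat_lit 1853) (nat_lit 124) (.e (nat_lit 557108) (nat_lit 15) (.e (nat_lit 188452) (nat_lit 23) (.e (nat_lit 204845) (nat_lit 24) .nil)))) (.g (nat_lit 0) (.e (nat_lit 101836) (nat_lit 0) .nil) .nil)))))) (.nd (nat_lit 7) (.nd (nat_lit 8) (.nd (nat_lit 9) 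
(.lf (nat_lit 476284) (.g (nat_lit 1144) (.e (nat_lit 1796) (nat_lit 119) (.e (nat_lit 516127) (nat_lit 2) (.e (nat_lit 213032) (nat_lit 11) (.e (nat_lit 24609) (nat_lit 3) (.e (nat_lit 98381) (nat_lit 31) (.e (nat_lit 466945) (nat_lit 0) .nil)))))) (.g (nat_lit 1) (.e (nat_lit 100321) (nat_lit 0) .nil) .nil))) 
(.lf (nat_lit 476796) (.g (nat_lit 1722) (.e (nat_lit 1811) (nat_lit 120) (.e (nat_lit 524322) (nat_lit 12) (.e (nat_lit 450588) (nat_lit 10) (.e (nat_lit 573471) (nat_lit 11) .nil)))) (.g (nat_lit 0) (.e (nat_lit 101040) (nat_lit 0) .nil) .nil)))) (.nd (nat_lit 9) 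
(.lf (nat_lit 476540) (.g (nat_lit 1326) (.e (nat_lit 1800) (nat_lit 119) (.e (nat_lit 516119) (nat_lit 1) (.e (nat_lit 164327) (nat_lit 230) (.e (nat_lit 163941) (nat_lit 19) .nil)))) (.g (nat_lit 0) (.e (nat_lit 100687) (nat_lit 0) .nil) .nil))) 
(.lf (nat_lit 477052) (.g (nat_lit 3056) (.e (nat_lit 1853) (nat_lit 124) (.e (nat_lit 557097) (nat_lit 13) (.e (nat_lit 172115) (nat_lit 10) (.e (nat_lit 434238) (nat_lit 25) (.e (nat_lit 548898) (nat_lit 14) (.e (nat_lit 3004) (nat_lit 186) (.e (nat_lit 450304) (nat_lit 0) .nil))))))) (.g (nat_lit 1) (.e (nat_lit 101771) (nat_lit 0) .nil) .nil))))) (.nd (nat_lit 8) (.nd (nat_lit 9) 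
(.lf (nat_lit 476412) (.g (nat_lit 2708) (.e (nat_lit 1799) (nat_lit 119) (.e (nat_lit 516139) (nat_lit 7) (.e (nat_lit 409646) (nat_lit 18) (.e (nat_lit 303117) (nat_lit 2) (.e (nat_lit 196673) (nat_lit 15) .nil))))) (.g (nat_lit 0) (.e (nat_lit 100496) (nat_lit 0) .nil) .nil))) 
(.lf (nat_lit 476924) (.g (nat_lit 2979) (.e (nat_lit 1848) (nat_lit 124) (.e (nat_lit 557097) (nat_lit 13) (.e (nat_lit 172115) (nat_lit 10) (.e (nat_lit 434238) (nat_lit 25) (.e (nat_lit 548898) (nat_lit 14) (.e (nat_lit 2998) (nat_lit 186) (.e (nat_lit 450304) (nat_lit 0) .nil))))))) (.g (nat_lit 1) (.e (nat_lit 101619) (nat_lit 0) .nil) .nil)))) (.nd (nat_lit 9) 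
(.lf (nat_lit 476668) (.g (nat_lit 1884) (.e (nat_lit 1800) (nat_lit 119) (.e (nat_lit 516182) (nat_lit 15) (.e (nat_lit 475197) (nat_lit 40) (.e (nat_lit 704589) (nat_lit 3) (.e (nat_lit 163975) (nat_lit 30) (.e (nat_lit 573491) (nat_lit 15) (.e (nat_lit 89856) (nat_lit 20) .nil))))))) (.g (nat_lit 1) (.e (nat_lit 100860) (nat_lit 0) .nil) .nil))) 
(.lf (nat_lit 477180) (.g (nat_lit 2995) (.e (nat_lit 1855) (nat_lit 124) (.e (nat_lit 557105) (nat_lit 14) (.e (nat_lit 180252) (nat_lit 10) (.e (nat_lit 573482) (nat_lit 13) (.e (nat_lit 73472) (nat_lit 18) .nil))))) (.g (nat_lit 0) (.e (nat_lit 101936) (nat_lit 0) .nil) .nil))))))))))) 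
(.nd (nat_lit 2) (.nd (nat_lit 3) (.nd (nat_lit 4) (.nd (nat_lit 5) (.nd (nat_lit 6) 
(.nd (nat_lit 7) (.nd (nat_lit 8) (.nd (nat_lit 9) 
(.lf (nat_lit 476162) (.g (nat_lit 2602) (.e (nat_lit 1794) (nat_lit 119) (.e (nat_lit 516115) (nat_lit 1) (.e (nat_lit 164399) (nat_lit 256) (.e (nat_lit 57377) (nat_lit 3) (.e (nat_lit 98357) (nat_lit 26) .nil))))) (.g (nat_lit 0) (.e (nat_lit 100130) (nat_lit 0) .nil) .nil))) 
(.lf (nat_lit 476674) (.g (nat_lit 3147) (.e (nat_lit 1800) (nat_lit 119) (.e (nat_lit 516182) (nat_lit 15) (.e (nat_lit 475198) (nat_lit 40) (.e (nat_lit 704589) (nat_lit 3) (.e (nat_lit 163979) (nat_lit 30) (.e (nat_lit 573491) (nat_lit 15) (.e (nat_lit 89856) (nat_lit 20) .nil))))))) (.g (nat_lit 1) (.e (nat_lit 100868) (nat_lit 0) .nil) .nil)))) (.nd (nat_lit 9) 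
(.lf (nat_lit 476418) (.g (nat_lit 5176) (.e (nat_lit 1799) (nat_lit 119) (.e (nat_lit 516151) (nat_lit 9) (.e (nat_lit 426211) (nat_lit 9) (.e (nat_lit 426125) (nat_lit 2) (.e (nat_lit 196657) (nat_lit 12) .nil))))) (.g (nat_lit 0) (.e (nat_lit 100510) (nat_lit 0) .nil) .nil))) 
(.lf (nat_lit 476930) (.g (nat_lit 3742) (.e (nat_lit 1848) (nat_lit 124) (.e (nat_lit 557097) (nat_lit 13) (.e (nat_lit 172115) (nat_lit 10) (.e (nat_lit 434244) (nat_lit 28) (.e (nat_lit 573450) (nat_lit 9) (.e (nat_lit 375) (nat_lit 32) (.e (nat_lit 426201) (nat_lit 9) (.e (nat_lit 426402) (nat_lit 15) .nil)))))))) (.g (nat_lit 1) (.e (nat_lit 101625) (nat_lit 0) .nil) .nil))))) 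
(.nd (nat_lit 8) (.nd (nat_lit 9) 
(.lf (nat_lit 476290) (.g (nat_lit 2983) (.e (nat_lit 1796) (nat_lit 119) (.e (nat_lit 516139) (nat_lit 7) (.e (nat_lit 409649) (nat_lit 18) (.e (nat_lit 303119) (nat_lit 3) (.e (nat_lit 204859) (nat_lit 26) .nil))))) (.g (nat_lit 0) (.e (nat_lit 100331) (nat_lit 0) .nil) .nil))) 
(.lf (nat_lit 476802) (.g (nat_lit 3151) (.e (nat_lit 1812) (nat_lit 120) (.e (nat_lit 524322) (nat_lit 12) (.e (nat_lit 450588) (nat_lit 10) (.e (nat_lit 573475) (nat_lit 12) (.e (nat_lit 57573) (nat_lit 55) .nil))))) (.g (nat_lit 0) (.e (nat_lit 101050) (nat_lit 0) .nil) .nil)))) (.nd (nat_lit 9) 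
(.lf (nat_lit 476546) (.g (nat_lit 2566) (.e (nat_lit 1800) (nat_lit 119) (.e (nat_lit 516119) (nat_lit 1) (.e (nat_lit 164401) (nat_lit 256) (.e (nat_lit 57378) (nat_lit 3) (.e (nat_lit 98357) (nat_lit 26) .nil))))) (.g (nat_lit 0) (.e (nat_lit 100695) (nat_lit 0) .nil) .nil))) 
(.lf (nat_lit 477058) (.g (nat_lit 2546) (.e (nat_lit 1853) (nat_lit 124) (.e (nat_lit 557097) (nat_lit 13) (.e (nat_lit 172115) (nat_lit 10) (.e (nat_lit 434244) (nat_lit 28) (.e (nat_lit 573458) (nat_lit 9) (.e (nat_lit 7936) (nat_lit 37) (.e (nat_lit 466944) (nat_lit 0) .nil))))))) (.g (nat_lit 1) (.e (nat_lit 101777) (nat_lit 0) .nil) .nil)))))) 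
(.nd (nat_lit 7) (.nd (nat_lit 8) (.nd (nat_lit 9) 
(.lf (nat_lit 476226) (.g (nat_lit 2495) (.e (nat_lit 1795) (nat_lit 119) (.e (nat_lit 516119) (nat_lit 1) (.e (nat_lit 164403) (nat_lit 256) (.e (nat_lit 57373) (nat_lit 2) (.e (nat_lit 90172) (nat_lit 14) .nil))))) (.g (nat_lit 0) (.e (nat_lit 100213) (nat_lit 0) .nil) .nil))) 
(.lf (nat_lit 476738) (.g (nat_lit 4316) (.e (nat_lit 1802) (nat_lit 119) (.e (nat_lit 516138) (nat_lit 7) (.e (nat_lit 409645) (nat_lit 18) (.e (nat_lit 303117) (nat_lit 2) (.e (nat_lit 196674) (nat_lit 15) (.e (nat_lit 81946) (nat_lit 20) .nil)))))) (.g (nat_lit 1) (.e (nat_lit 100963) (nat_lit 0) .nil) .nil)))) (.nd (nat_lit 9) 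
(.lf (nat_lit 476482) (.g (nat_lit 2421) (.e (nat_lit 1800) (nat_lit 119) (.e (nat_lit 516115) (nat_lit 1) (.e (nat_lit 164399) (nat_lit 256) (.e (nat_lit 57379) (nat_lit 3) (.e (nat_lit 98354) (nat_lit 26) .nil))))) (.g (nat_lit 0) (.e (nat_lit 100622) (nat_lit 0) .nil) .nil))) 
(.lf (nat_lit 476994) (.g (nat_lit 2899) (.e (nat_lit 1849) (nat_lit 124) (.e (nat_lit 557097) (nat_lit 13) (.e (nat_lit 172115) (nat_lit 10) (.e (nat_lit 434231) (nat_lit 23) (.e (nat_lit 532490) (nat_lit 0) (.e (nat_lit 6674) (nat_lit 357) (.e (nat_lit 2940) (nat_lit 184) (.e (nat_lit 433920) (nat_lit 15) .nil)))))))) (.g (nat_lit 1) (.e (nat_lit 101698) (nat_lit 0) .nil) .nil))))) 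
(.nd (nat_lit 8) (.nd (nat_lit 9) 
(.lf (nat_lit 476354) (.g (nat_lit 651) (.e (nat_lit 1798) (nat_lit 119) (.e (nat_lit 516139) (nat_lit 7) (.e (nat_lit 409645) (nat_lit 18) .nil))) (.g (nat_lit 0) (.e (nat_lit 100427) (nat_lit 0) .nil) .nil))) 
(.lf (nat_lit 476866) (.g (nat_lit 2431) (.e (nat_lit 1847) (nat_lit 124) (.e (nat_lit 557070) (nat_lit 9) (.e (nat_lit 2744) (nat_lit 174) (.e (nat_lit 253991) (nat_lit 11) (.e (nat_lit 16409) (nat_lit 2) .nil))))) (.g (nat_lit 0) (.e (nat_lit 101495) (nat_lit 0) .nil) .nil)))) (.nd (nat_lit 9) 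
(.lf (nat_lit 476610) (.g (nat_lit 1863) (.e (nat_lit 1800) (nat_lit 119) (.e (nat_lit 516122) (nat_lit 2) (.e (nat_lit 213032) (nat_lit 11) (.e (nat_lit 24604) (nat_lit 2) (.e (nat_lit 90178) (nat_lit 15) (.e (nat_lit 188418) (nat_lit 0) .nil)))))) (.g (nat_lit 1) (.e (nat_lit 100768) (nat_lit 0) .nil) .nil))) 
(.lf (nat_lit 477122) (.g (nat_lit 3604) (.e (nat_lit 1853) (nat_lit 124) (.e (nat_lit 557109) (nat_lit 15) (.e (nat_lit 188449) (nat_lit 22) (.e (nat_lit 196666) (nat_lit 13) (.e (nat_lit 65642) (nat_lit 15) .nil))))) (.g (nat_lit 0) (.e (nat_lit 101842) (nat_lit 0) .nil) .nil))))))) (.nd (nat_lit 6) (.nd (nat_lit 7) (.nd (nat_lit 8) (.nd (nat_lit 9) 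
(.lf (nat_lit 476194) (.g (nat_lit 2384) (.e (nat_lit 1806) (nat_lit 119) (.e (nat_lit 516119) (nat_lit 1) (.e (nat_lit 164403) (nat_lit 256) (.e (nat_lit 57371) (nat_lit 2) (.e (nat_lit 90172) (nat_lit 14) .nil))))) (.g (nat_lit 0) (.e (nat_lit 100177) (nat_lit 0) .nil) .nil))) 
(.lf (nat_lit 476706) (.g (nat_lit 1607) (.e (nat_lit 1801) (nat_lit 119) (.e (nat_lit 516139) (nat_lit 7) (.e (nat_lit 409649) (nat_lit 18) (.e (nat_lit 303119) (nat_lit 3) .nil)))) (.g (nat_lit 0) (.e (nat_lit 100922) (nat_lit 0) .nil) .nil)))) (.nd (nat_lit 9) 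
(.lf (nat_lit 476450) (.g (nat_lit 2302) (.e (nat_lit 1800) (nat_lit 119) (.e (nat_lit 516115) (nat_lit 1) (.e (nat_lit 164325) (nat_lit 230) (.e (nat_lit 163903) (nat_lit 12) (.e (nat_lit 426568) (nat_lit 34) (.e (nat_lit 393275) (nat_lit 23) (.e (nat_lit 426380) (nat_lit 15) .nil))))))) (.g (nat_lit 1) (.e (nat_lit 100565) (nat_lit 0) .nil) .nil))) 
(.lf (nat_lit 476962) (.g (nat_lit 2179) (.e (nat_lit 1848) (nat_lit 124) (.e (nat_lit 557108) (nat_lit 15) (.e (nat_lit 188449) (nat_lit 22) (.e (nat_lit 196661) (nat_lit 12) (.e (nat_lit 57749) (nat_lit 201) (.e (nat_lit 2939) (nat_lit 184) (.e (nat_lit 426401) (nat_lit 15) .nil))))))) (.g (nat_lit 1) (.e (nat_lit 101657) (nat_lit 0) .nil) .nil))))) (.nd (nat_lit 8) (.nd (nat_lit 9) 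
(.lf (nat_lit 476322) (.g (nat_lit 2309) (.e (nat_lit 1797) (nat_lit 119) (.e (nat_lit 516119) (nat_lit 1) (.e (nat_lit 164403) (nat_lit 256) (.e (nat_lit 57371) (nat_lit 2) (.e (nat_lit 90167) (nat_lit 13) .nil))))) (.g (nat_lit 0) (.e (nat_lit 100382) (nat_lit 0) .nil) .nil))) 
(.lf (nat_lit 476834) (.g (nat_lit 1974) (.e (nat_lit 7936) (nat_lit 126) (.e (nat_lit 573489) (nat_lit 14) (.e (nat_lit 73755) (nat_lit 8) (.e (nat_lit 557104) (nat_lit 14) .nil)))) (.g (nat_lit 0) (.e (nat_lit 101410) (nat_lit 0) .nil) .nil)))) (.nd (nat_lit 9) 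
(.lf (nat_lit 476578) (.g (nat_lit 2659) (.e (nat_lit 1800) (nat_lit 119) (.e (nat_lit 516120) (nat_lit 1) (.e (nat_lit 164330) (nat_lit 230) (.e (nat_lit 163902) (nat_lit 12) (.e (nat_lit 426486) (nat_lit 27) .nil))))) (.g (nat_lit 0) (.e (nat_lit 100733) (nat_lit 0) .nil) .nil))) 
(.lf (nat_lit 477090) (.g (nat_lit 2501) (.e (nat_lit 1853) (nat_lit 124) (.e (nat_lit 557101) (nat_lit 13) (.e (nat_lit 172115) (nat_lit 10) (.e (nat_lit 434244) (nat_lit 28) (.e (nat_lit 573458) (nat_lit 9) (.e (nat_lit 7936) (nat_lit 34) (.e (nat_lit 442373) (nat_lit 0) .nil))))))) (.g (nat_lit 1) (.e (nat_lit 101809) (nat_lit 0) .nil) .nil)))))) 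
(.nd (nat_lit 7) (.nd (nat_lit 8) (.nd (nat_lit 9) 
(.lf (nat_lit 476258) (.g (nat_lit 1850) (.e (nat_lit 1796) (nat_lit 119) (.e (nat_lit 516115) (nat_lit 1) (.e (nat_lit 164325) (nat_lit 230) (.e (nat_lit 163907) (nat_lit 12) .nil)))) (.g (nat_lit 0) (.e (nat_lit 100265) (nat_lit 0) .nil) .nil))) 
(.lf (nat_lit 476770) (.g (nat_lit 2329) (.e (nat_lit 1803) (nat_lit 119) (.e (nat_lit 516120) (nat_lit 1) (.e (nat_lit 164329) (nat_lit 230) (.e (nat_lit 163941) (nat_lit 19) .nil)))) (.g (nat_lit 0) (.e (nat_lit 101000) (nat_lit 0) .nil) .nil)))) (.nd (nat_lit 9) 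
(.lf (nat_lit 476514) (.g (nat_lit 2379) (.e (nat_lit 1800) (nat_lit 119) (.e (nat_lit 516117) (nat_lit 1) (.e (nat_lit 164399) (nat_lit 256) (.e (nat_lit 57377) (nat_lit 3) (.e (nat_lit 98357) (nat_lit 26) .nil))))) (.g (nat_lit 0) (.e (nat_lit 100659) (nat_lit 0) .nil) .nil))) 
(.lf (nat_lit 477026) (.g (nat_lit 2737) (.e (nat_lit 1849) (nat_lit 124) (.e (nat_lit 557108) (nat_lit 15) (.e (nat_lit 188449) (nat_lit 22) (.e (nat_lit 196661) (nat_lit 12) (.e (nat_lit 57751) (nat_lit 201) (.e (nat_lit 2857) (nat_lit 184) (.e (nat_lit 426402) (nat_lit 15) .nil))))))) (.g (nat_lit 1) (.e (nat_lit 101732) (nat_lit 0) .nil) .nil))))) (.nd (nat_lit 8) (.nd (nat_lit 9) 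
(.lf (nat_lit 476386) (.g (nat_lit 1859) (.e (nat_lit 1799) (nat_lit 119) (.e (nat_lit 516115) (nat_lit 1) (.e (nat_lit 164325) (nat_lit 230) (.e (nat_lit 163942) (nat_lit 19) (.e (nat_lit 483341) (nat_lit 9) (.e (nat_lit 426199) (nat_lit 9) (.e (nat_lit 426399) (nat_lit 15) .nil))))))) (.g (nat_lit 1) (.e (nat_lit 100468) (nat_lit 0) .nil) .nil))) 
(.lf (nat_lit 476898) (.g (nat_lit 4810) (.e (nat_lit 1848) (nat_lit 124) (.e (nat_lit 557097) (nat_lit 13) (.e (nat_lit 172097) (nat_lit 9) (.e (nat_lit 426125) (nat_lit 2) (.e (nat_lit 196661) (nat_lit 12) (.e (nat_lit 57750) (nat_lit 201) (.e (nat_lit 2856) (nat_lit 184) (.e (nat_lit 426402) (nat_lit 15) .nil)))))))) (.g (nat_lit 1) (.e (nat_lit 101593) (nat_lit 0) .nil) .nil)))) 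
(.nd (nat_lit 9) 
(.lf (nat_lit 476642) (.g (nat_lit 2207) (.e (nat_lit 1800) (nat_lit 119) (.e (nat_lit 516139) (nat_lit 7) (.e (nat_lit 409648) (nat_lit 18) (.e (nat_lit 303110) (nat_lit 0) .nil)))) (.g (nat_lit 0) (.e (nat_lit 100806) (nat_lit 0) .nil) .nil))) 
(.lf (nat_lit 477154) (.g (nat_lit 1770) (.e (nat_lit 1855) (nat_lit 124) (.e (nat_lit 557098) (nat_lit 13) (.e (nat_lit 172124) (nat_lit 14) (.e (nat_lit 491540) (nat_lit 3) (.e (nat_lit 98370) (nat_lit 28) .nil))))) (.g (nat_lit 0) (.e (nat_lit 101910) (nat_lit 0) .nil) .nil)))))))) (.nd (nat_lit 5) (.nd (nat_lit 6) (.nd (nat_lit 7) (.nd (nat_lit 8) (.nd (nat_lit 9) 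
(.lf (nat_lit 476178) (.g (nat_lit 2326) (.e (nat_lit 1804) (nat_lit 119) (.e (nat_lit 516119) (nat_lit 1) (.e (nat_lit 164403) (nat_lit 256) (.e (nat_lit 57371) (nat_lit 2) (.e (nat_lit 90167) (nat_lit 13) .nil))))) (.g (nat_lit 0) (.e (nat_lit 100158) (nat_lit 0) .nil) .nil))) 
(.lf (nat_lit 476690) (.g (nat_lit 1847) (.e (nat_lit 1801) (nat_lit 119) (.e (nat_lit 516120) (nat_lit 1) (.e (nat_lit 164330) (nat_lit 230) (.e (nat_lit 163941) (nat_lit 19) (.e (nat_lit 483341) (nat_lit 9) (.e (nat_lit 426198) (nat_lit 9) (.e (nat_lit 426362) (nat_lit 15) .nil))))))) (.g (nat_lit 1) (.e (nat_lit 100891) (nat_lit 0) .nil) .nil)))) (.nd (nat_lit 9) 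
(.lf (nat_lit 476434) (.g (nat_lit 2989) (.e (nat_lit 1800) (nat_lit 119) (.e (nat_lit 516115) (nat_lit 1) (.e (nat_lit 164325) (nat_lit 230) (.e (nat_lit 163873) (nat_lit 3) .nil)))) (.g (nat_lit 0) (.e (nat_lit 100545) (nat_lit 0) .nil) .nil))) 
(.lf (nat_lit 476946) (.g (nat_lit 2027) (.e (nat_lit 1848) (nat_lit 124) (.e (nat_lit 557107) (nat_lit 15) (.e (nat_lit 188447) (nat_lit 22) (.e (nat_lit 196661) (nat_lit 12) (.e (nat_lit 57749) (nat_lit 201) (.e (nat_lit 2939) (nat_lit 184) (.e (nat_lit 426401) (nat_lit 15) .nil))))))) (.g (nat_lit 1) (.e (nat_lit 101641) (nat_lit 0) .nil) .nil))))) (.nd (nat_lit 8) (.nd (nat_lit 9) 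
(.lf (nat_lit 476306) (.g (nat_lit 3874) (.e (nat_lit 1796) (nat_lit 119) (.e (nat_lit 516166) (nat_lit 12) (.e (nat_lit 450588) (nat_lit 10) (.e (nat_lit 573478) (nat_lit 12) .nil)))) (.g (nat_lit 0) (.e (nat_lit 100364) (nat_lit 0) .nil) .nil))) 
(.lf (nat_lit 476818) (.g (nat_lit 2634) (.e (nat_lit 1842) (nat_lit 123) (.e (nat_lit 548889) (nat_lit 9) (.e (nat_lit 65630) (nat_lit 14) (.e (nat_lit 401418) (nat_lit 0) .nil)))) (.g (nat_lit 0) (.e (nat_lit 101137) (nat_lit 0) .nil) .nil)))) (.nd (nat_lit 9) 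
(.lf (nat_lit 476562) (.g (nat_lit 1106) (.e (nat_lit 1800) (nat_lit 119) (.e (nat_lit 516120) (nat_lit 1) (.e (nat_lit 164329) (nat_lit 230) (.e (nat_lit 163850) (nat_lit 0) .nil)))) (.g (nat_lit 0) (.e (nat_lit 100714) (nat_lit 0) .nil) .nil))) 
(.lf (nat_lit 477074) (.g (nat_lit 1916) (.e (nat_lit 1853) (nat_lit 124) (.e (nat_lit 557101) (nat_lit 13) (.e (nat_lit 172097) (nat_lit 9) (.e (nat_lit 426125) (nat_lit 2) (.e (nat_lit 196661) (nat_lit 12) .nil))))) (.g (nat_lit 0) (.e (nat_lit 101793) (nat_lit 0) .nil) .nil)))))) (.nd (nat_lit 7) (.nd (nat_lit 8) (.nd (nat_lit 9) 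
(.lf (nat_lit 476242) (.g (nat_lit 2067) (.e (nat_lit 1795) (nat_lit 119) (.e (nat_lit 516131) (nat_lit 3) (.e (nat_lit 221215) (nat_lit 23) (.e (nat_lit 204881) (nat_lit 32) .nil)))) (.g (nat_lit 0) (.e (nat_lit 100230) (nat_lit 0) .nil) .nil))) 
(.lf (nat_lit 476754) (.g (nat_lit 4158) (.e (nat_lit 1802) (nat_lit 119) (.e (nat_lit 516179) (nat_lit 15) (.e (nat_lit 475199) (nat_lit 40) (.e (nat_lit 704589) (nat_lit 3) (.e (nat_lit 163976) (nat_lit 30) (.e (nat_lit 573491) (nat_lit 15) (.e (nat_lit 81946) (nat_lit 20) .nil))))))) (.g (nat_lit 1) (.e (nat_lit 100982) (nat_lit 0) .nil) .nil)))) (.nd (nat_lit 9) 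
(.lf (nat_lit 476498) (.g (nat_lit 2935) (.e (nat_lit 1800) (nat_lit 119) (.e (nat_lit 516117) (nat_lit 1) (.e (nat_lit 164330) (nat_lit 230) (.e (nat_lit 163941) (nat_lit 19) (.e (nat_lit 491264) (nat_lit 14) (.e (nat_lit 466947) (nat_lit 0) .nil)))))) (.g (nat_lit 1) (.e (nat_lit 100642) (nat_lit 0) .nil) .nil))) 
(.lf (nat_lit 477010) (.g (nat_lit 1948) (.e (nat_lit 1849) (nat_lit 124) (.e (nat_lit 557098) (nat_lit 13) (.e (nat_lit 172115) (nat_lit 10) (.e (nat_lit 434238) (nat_lit 25) (.e (nat_lit 548898) (nat_lit 14) (.e (nat_lit 2999) (nat_lit 186) (.e (nat_lit 450304) (nat_lit 0) .nil))))))) (.g (nat_lit 1) (.e (nat_lit 101714) (nat_lit 0) .nil) .nil))))) (.nd (nat_lit 8) (.nd (nat_lit 9) 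
(.lf (nat_lit 476370) (.g (nat_lit 4661) (.e (nat_lit 1798) (nat_lit 119) (.e (nat_lit 516166) (nat_lit 12) (.e (nat_lit 450588) (nat_lit 10) (.e (nat_lit 573469) (nat_lit 11) .nil)))) (.g (nat_lit 0) (.e (nat_lit 100444) (nat_lit 0) .nil) .nil))) 
(.lf (nat_lit 476882) (.g (nat_lit 2189) (.e (nat_lit 1848) (nat_lit 124) (.e (nat_lit 557087) (nat_lit 11) (.e (nat_lit 24648) (nat_lit 12) (.e (nat_lit 385072) (nat_lit 31) .nil)))) (.g (nat_lit 0) (.e (nat_lit 101563) (nat_lit 0) .nil) .nil)))) (.nd (nat_lit 9) 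
(.lf (nat_lit 476626) (.g (nat_lit 3253) (.e (nat_lit 1800) (nat_lit 119) (.e (nat_lit 516138) (nat_lit 7) (.e (nat_lit 409645) (nat_lit 18) (.e (nat_lit 303112) (nat_lit 0) (.e (nat_lit 3252) (nat_lit 197) (.e (nat_lit 532561) (nat_lit 14) (.e (nat_lit 376855) (nat_lit 20) .nil))))))) (.g (nat_lit 1) (.e (nat_lit 100786) (nat_lit 0) .nil) .nil))) 
(.lf (nat_lit 477138) (.g (nat_lit 1959) (.e (nat_lit 1855) (nat_lit 124) (.e (nat_lit 557070) (nat_lit 9) (.e (nat_lit 2744) (nat_lit 174) (.e (nat_lit 253992) (nat_lit 11) (.e (nat_lit 16411) (nat_lit 2) .nil))))) (.g (nat_lit 0) (.e (nat_lit 101865) (nat_lit 0) .nil) .nil))))))) (.nd (nat_lit 6) (.nd (nat_lit 7) (.nd (nat_lit 8) (.nd (nat_lit 9) 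
(.lf (nat_lit 476210) (.g (nat_lit 1796) (.e (nat_lit 1795) (nat_lit 119) (.e (nat_lit 516116) (nat_lit 1) (.e (nat_lit 164329) (nat_lit 230) (.e (nat_lit 163902) (nat_lit 12) .nil)))) (.g (nat_lit 0) (.e (nat_lit 100197) (nat_lit 0) .nil) .nil))) 
(.lf (nat_lit 476722) (.g (nat_lit 1502) (.e (nat_lit 1801) (nat_lit 119) (.e (nat_lit 516179) (nat_lit 15) (.e (nat_lit 475199) (nat_lit 40) (.e (nat_lit 704589) (nat_lit 3) .nil)))) (.g (nat_lit 0) (.e (nat_lit 100938) (nat_lit 0) .nil) .nil)))) (.nd (nat_lit 9) 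
(.lf (nat_lit 476466) (.g (nat_lit 2247) (.e (nat_lit 1800) (nat_lit 119) (.e (nat_lit 516115) (nat_lit 1) (.e (nat_lit 164325) (nat_lit 230) (.e (nat_lit 163907) (nat_lit 12) (.e (nat_lit 426568) (nat_lit 34) (.e (nat_lit 393281) (nat_lit 23) (.e (nat_lit 426413) (nat_lit 15) .nil))))))) (.g (nat_lit 1) (.e (nat_lit 100582) (nat_lit 0) .nil) .nil))) 
(.lf (nat_lit 476978) (.g (nat_lit 446) (.e (nat_lit 1849) (nat_lit 124) (.e (nat_lit 557087) (nat_lit 11) (.e (nat_lit 24617) (nat_lit 7) .nil))) (.g (nat_lit 0) (.e (nat_lit 101680) (nat_lit 0) .nil) .nil))))) (.nd (nat_lit 8) (.nd (nat_lit 9) 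
(.lf (nat_lit 476338) (.g (nat_lit 4862) (.e (nat_lit 1798) (nat_lit 119) (.e (nat_lit 516115) (nat_lit 1) (.e (nat_lit 164325) (nat_lit 230) (.e (nat_lit 163903) (nat_lit 12) (.e (nat_lit 426566) (nat_lit 34) (.e (nat_lit 393273) (nat_lit 23) (.e (nat_lit 426364) (nat_lit 15) .nil))))))) (.g (nat_lit 1) (.e (nat_lit 100405) (nat_lit 0) .nil) .nil))) 
(.lf (nat_lit 476850) (.g (nat_lit 1930) (.e (nat_lit 1846) (nat_lit 124) (.e (nat_lit 557100) (nat_lit 13) (.e (nat_lit 172113) (nat_lit 10) (.e (nat_lit 434245) (nat_lit 28) (.e (nat_lit 573471) (nat_lit 11) .nil))))) (.g (nat_lit 0) (.e (nat_lit 101477) (nat_lit 0) .nil) .nil)))) (.nd (nat_lit 9) 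
(.lf (nat_lit 476594) (.g (nat_lit 2450) (.e (nat_lit 1800) (nat_lit 119) (.e (nat_lit 516120) (nat_lit 1) (.e (nat_lit 164330) (nat_lit 230) (.e (nat_lit 163943) (nat_lit 19) (.e (nat_lit 491264) (nat_lit 11) (.e (nat_lit 442374) (nat_lit 0) .nil)))))) (.g (nat_lit 1) (.e (nat_lit 100749) (nat_lit 0) .nil) .nil))) 
(.lf (nat_lit 477106) (.g (nat_lit 2141) (.e (nat_lit 1853) (nat_lit 124) (.e (nat_lit 557107) (nat_lit 15) (.e (nat_lit 188439) (nat_lit 20) (.e (nat_lit 3272) (nat_lit 199) (.e (nat_lit 548898) (nat_lit 14) (.e (nat_lit 3004) (nat_lit 186) (.e (nat_lit 450304) (nat_lit 0) .nil))))))) (.g (nat_lit 1) (.e (nat_lit 101826) (nat_lit 0) .nil) .nil)))))) 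
(.nd (nat_lit 7) (.nd (nat_lit 8) (.nd (nat_lit 9) 
(.lf (nat_lit 476274) (.g (nat_lit 1608) (.e (nat_lit 1796) (nat_lit 119) (.e (nat_lit 516120) (nat_lit 1) (.e (nat_lit 164329) (nat_lit 230) (.e (nat_lit 163941) (nat_lit 19) (.e (nat_lit 491264) (nat_lit 14) (.e (nat_lit 466945) (nat_lit 0) .nil)))))) (.g (nat_lit 1) (.e (nat_lit 100310) (nat_lit 0) .nil) .nil))) 
(.lf (nat_lit 476786) (.g (nat_lit 844) (.e (nat_lit 7936) (nat_lit 119) (.e (nat_lit 516166) (nat_lit 12) (.e (nat_lit 450588) (nat_lit 10) (.e (nat_lit 573469) (nat_lit 11) .nil)))) (.g (nat_lit 0) (.e (nat_lit 101029) (nat_lit 0) .nil) .nil)))) (.nd (nat_lit 9) 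
(.lf (nat_lit 476530) (.g (nat_lit 1961) (.e (nat_lit 1800) (nat_lit 119) (.e (nat_lit 516119) (nat_lit 1) (.e (nat_lit 164322) (nat_lit 230) (.e (nat_lit 163902) (nat_lit 12) (.e (nat_lit 426479) (nat_lit 27) .nil))))) (.g (nat_lit 0) (.e (nat_lit 100677) (nat_lit 0) .nil) .nil))) 
(.lf (nat_lit 477042) (.g (nat_lit 4140) (.e (nat_lit 1853) (nat_lit 124) (.e (nat_lit 557087) (nat_lit 11) (.e (nat_lit 24617) (nat_lit 7) (.e (nat_lit 319505) (nat_lit 10) (.e (nat_lit 7936) (nat_lit 45) (.e (nat_lit 532535) (nat_lit 9) (.e (nat_lit 336099) (nat_lit 9) (.e (nat_lit 343808) (nat_lit 0) .nil)))))))) (.g (nat_lit 1) (.e (nat_lit 101759) (nat_lit 0) .nil) .nil))))) 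
(.nd (nat_lit 8) (.nd (nat_lit 9) 
(.lf (nat_lit 476402) (.g (nat_lit 1966) (.e (nat_lit 1799) (nat_lit 119) (.e (nat_lit 516131) (nat_lit 3) (.e (nat_lit 221215) (nat_lit 23) (.e (nat_lit 204881) (nat_lit 32) .nil)))) (.g (nat_lit 0) (.e (nat_lit 100485) (nat_lit 0) .nil) .nil))) 
(.lf (nat_lit 476914) (.g (nat_lit 4786) (.e (nat_lit 1848) (nat_lit 124) (.e (nat_lit 557097) (nat_lit 13) (.e (nat_lit 172115) (nat_lit 10) (.e (nat_lit 434231) (nat_lit 23) (.e (nat_lit 532490) (nat_lit 0) (.e (nat_lit 6680) (nat_lit 357) (.e (nat_lit 2856) (nat_lit 184) (.e (nat_lit 426402) (nat_lit 15) .nil)))))))) (.g (nat_lit 1) (.e (nat_lit 101609) (nat_lit 0) .nil) .nil)))) 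
(.nd (nat_lit 9) 
(.lf (nat_lit 476658) (.g (nat_lit 2135) (.e (nat_lit 1800) (nat_lit 119) (.e (nat_lit 516151) (nat_lit 9) (.e (nat_lit 426286) (nat_lit 10) .nil))) (.g (nat_lit 0) (.e (nat_lit 100828) (nat_lit 0) .nil) .nil))) 
(.lf (nat_lit 477170) (.g (nat_lit 2952) (.e (nat_lit 1855) (nat_lit 124) (.e (nat_lit 557105) (nat_lit 14) (.e (nat_lit 180251) (nat_lit 10) (.e (nat_lit 573484) (nat_lit 13) (.e (nat_lit 65642) (nat_lit 15) .nil))))) (.g (nat_lit 0) (.e (nat_lit 101926) (nat_lit 0) .nil) .nil))))))))) (.nd (nat_lit 4) (.nd (nat_lit 5) (.nd (nat_lit 6) (.nd (nat_lit 7) (.nd (nat_lit 8) (.nd (nat_lit 9) 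
(.lf (nat_lit 476170) (.g (nat_lit 2563) (.e (nat_lit 1794) (nat_lit 119) (.e (nat_lit 516179) (nat_lit 15) (.e (nat_lit 475177) (nat_lit 24) (.e (nat_lit 516150) (nat_lit 9) (.e (nat_lit 426438) (nat_lit 18) .nil))))) (.g (nat_lit 0) (.e (nat_lit 100138) (nat_lit 0) .nil) .nil))) 
(.lf (nat_lit 476682) (.g (nat_lit 1772) (.e (nat_lit 1801) (nat_lit 119) (.e (nat_lit 516115) (nat_lit 1) (.e (nat_lit 164327) (nat_lit 230) (.e (nat_lit 163907) (nat_lit 12) (.e (nat_lit 426566) (nat_lit 34) .nil))))) (.g (nat_lit 0) (.e (nat_lit 100883) (nat_lit 0) .nil) .nil)))) (.nd (nat_lit 9) 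
(.lf (nat_lit 476426) (.g (nat_lit 5134) (.e (nat_lit 1799) (nat_lit 119) (.e (nat_lit 516166) (nat_lit 12) (.e (nat_lit 450588) (nat_lit 10) (.e (nat_lit 573477) (nat_lit 12) .nil)))) (.g (nat_lit 0) (.e (nat_lit 100518) (nat_lit 0) .nil) .nil))) 
(.lf (nat_lit 476938) (.g (nat_lit 1082) (.e (nat_lit 1848) (nat_lit 124) (.e (nat_lit 557098) (nat_lit 13) (.e (nat_lit 172097) (nat_lit 9) .nil))) (.g (nat_lit 0) (.e (nat_lit 101633) (nat_lit 0) .nil) .nil))))) (.nd (nat_lit 8) (.nd (nat_lit 9) 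
(.lf (nat_lit 476298) (.g (nat_lit 1494) (.e (nat_lit 1796) (nat_lit 119) (.e (nat_lit 516166) (nat_lit 12) (.e (nat_lit 450587) (nat_lit 10) (.e (nat_lit 573456) (nat_lit 9) .nil)))) (.g (nat_lit 0) (.e (nat_lit 100356) (nat_lit 0) .nil) .nil))) 
(.lf (nat_lit 476810) (.g (nat_lit 4502) (.e (nat_lit 1842) (nat_lit 123) (.e (nat_lit 548874) (nat_lit 5) (.e (nat_lit 1395) (nat_lit 106) (.e (nat_lit 319539) (nat_lit 19) (.e (nat_lit 311315) (nat_lit 3) (.e (nat_lit 204846) (nat_lit 24) (.e (nat_lit 319533) (nat_lit 16) (.e (nat_lit 286724) (nat_lit 0) .nil)))))))) (.g (nat_lit 1) (.e (nat_lit 101104) (nat_lit 0) .nil) .nil)))) 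
(.nd (nat_lit 9) 
(.lf (nat_lit 476554) (.g (nat_lit 3434) (.e (nat_lit 1800) (nat_lit 119) (.e (nat_lit 516119) (nat_lit 1) (.e (nat_lit 164403) (nat_lit 256) (.e (nat_lit 57378) (nat_lit 3) (.e (nat_lit 98366) (nat_lit 27) (.e (nat_lit 434231) (nat_lit 23) (.e (nat_lit 532513) (nat_lit 3) (.e (nat_lit 114708) (nat_lit 20) .nil)))))))) (.g (nat_lit 1) (.e (nat_lit 100706) (nat_lit 0) .nil) .nil))) 
(.lf (nat_lit 477066) (.g (nat_lit 2721) (.e (nat_lit 1853) (nat_lit 124) (.e (nat_lit 557098) (nat_lit 13) (.e (nat_lit 172115) (nat_lit 10) (.e (nat_lit 434244) (nat_lit 28) (.e (nat_lit 573458) (nat_lit 9) (.e (nat_lit 7936) (nat_lit 34) (.e (nat_lit 442373) (nat_lit 0) .nil))))))) (.g (nat_lit 1) (.e (nat_lit 101785) (nat_lit 0) .nil) .nil)))))) 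
(.nd (nat_lit 7) (.nd (nat_lit 8) (.nd (nat_lit 9) 
(.lf (nat_lit 476234) (.g (nat_lit 2596) (.e (nat_lit 1795) (nat_lit 119) (.e (nat_lit 516120) (nat_lit 1) (.e (nat_lit 164401) (nat_lit 256) (.e (nat_lit 57373) (nat_lit 2) (.e (nat_lit 90172) (nat_lit 14) .nil))))) (.g (nat_lit 0) (.e (nat_lit 100222) (nat_lit 0) .nil) .nil))) 
(.lf (nat_lit 476746) (.g (nat_lit 1174) (.e (nat_lit 1802) (nat_lit 119) (.e (nat_lit 516166) (nat_lit 12) (.e (nat_lit 450587) (nat_lit 10) .nil))) (.g (nat_lit 0) (.e (nat_lit 100974) (nat_lit 0) .nil) .nil)))) (.nd (nat_lit 9) 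
(.lf (nat_lit 476490) (.g (nat_lit 957) (.e (nat_lit 1800) (nat_lit 119) (.e (nat_lit 516117) (nat_lit 1) (.e (nat_lit 164329) (nat_lit 230) (.e (nat_lit 163941) (nat_lit 19) .nil)))) (.g (nat_lit 0) (.e (nat_lit 100634) (nat_lit 0) .nil) .nil))) 
(.lf (nat_lit 477002) (.g (nat_lit 2108) (.e (nat_lit 1849) (nat_lit 124) (.e (nat_lit 557098) (nat_lit 13) (.e (nat_lit 172097) (nat_lit 9) (.e (nat_lit 426125) (nat_lit 2) (.e (nat_lit 196661) (nat_lit 12) .nil))))) (.g (nat_lit 0) (.e (nat_lit 101706) (nat_lit 0) .nil) .nil))))) (.nd (nat_lit 8) (.nd (nat_lit 9) 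
(.lf (nat_lit 476362) (.g (nat_lit 2152) (.e (nat_lit 1798) (nat_lit 119) (.e (nat_lit 516151) (nat_lit 9) (.e (nat_lit 426286) (nat_lit 10) .nil))) (.g (nat_lit 0) (.e (nat_lit 100436) (nat_lit 0) .nil) .nil))) 
(.lf (nat_lit 476874) (.g (nat_lit 922) (.e (nat_lit 1847) (nat_lit 124) (.e (nat_lit 557098) (nat_lit 13) (.e (nat_lit 172126) (nat_lit 14) .nil))) (.g (nat_lit 0) (.e (nat_lit 101504) (nat_lit 0) .nil) .nil)))) (.nd (nat_lit 9) 
(.lf (nat_lit 476618) (.g (nat_lit 1649) (.e (nat_lit 1800) (nat_lit 119) (.e (nat_lit 516124) (nat_lit 2) (.e (nat_lit 213032) (nat_lit 11) (.e (nat_lit 24609) (nat_lit 3) (.e (nat_lit 98370) (nat_lit 28) (.e (nat_lit 442374) (nat_lit 0) .nil)))))) (.g (nat_lit 1) (.e (nat_lit 100776) (nat_lit 0) .nil) .nil))) 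
(.lf (nat_lit 477130) (.g (nat_lit 3302) (.e (nat_lit 1854) (nat_lit 124) (.e (nat_lit 557087) (nat_lit 11) (.e (nat_lit 24617) (nat_lit 7) (.e (nat_lit 319504) (nat_lit 10) .nil)))) (.g (nat_lit 0) (.e (nat_lit 101850) (nat_lit 0) .nil) .nil))))))) (.nd (nat_lit 6) (.nd (nat_lit 7) (.nd (nat_lit 8) (.nd (nat_lit 9) 
(.lf (nat_lit 476202) (.g (nat_lit 2274) (.e (nat_lit 1807) (nat_lit 119) (.e (nat_lit 516119) (nat_lit 1) (.e (nat_lit 164403) (nat_lit 256) (.e (nat_lit 57370) (nat_lit 2) (.e (nat_lit 90172) (nat_lit 14) .nil))))) (.g (nat_lit 0) (.e (nat_lit 100186) (nat_lit 0) .nil) .nil))) 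
(.lf (nat_lit 476714) (.g (nat_lit 3826) (.e (nat_lit 1801) (nat_lit 119) (.e (nat_lit 516151) (nat_lit 9) (.e (nat_lit 426286) (nat_lit 10) (.e (nat_lit 434247) (nat_lit 28) .nil)))) (.g (nat_lit 0) (.e (nat_lit 100930) (nat_lit 0) .nil) .nil)))) (.nd (nat_lit 9) 
(.lf (nat_lit 476458) (.g (nat_lit 1131) (.e (nat_lit 1800) (nat_lit 119) (.e (nat_lit 516115) (nat_lit 1) (.e (nat_lit 164325) (nat_lit 230) (.e (nat_lit 163907) (nat_lit 12) .nil)))) (.g (nat_lit 0) (.e (nat_lit 100573) (nat_lit 0) .nil) .nil))) 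
(.lf (nat_lit 476970) (.g (nat_lit 2904) (.e (nat_lit 1848) (nat_lit 124) (.e (nat_lit 557108) (nat_lit 15) (.e (nat_lit 188449) (nat_lit 22) (.e (nat_lit 196661) (nat_lit 12) (.e (nat_lit 57751) (nat_lit 201) (.e (nat_lit 2855) (nat_lit 184) (.e (nat_lit 426402) (nat_lit 15) .nil))))))) (.g (nat_lit 1) (.e (nat_lit 101665) (nat_lit 0) .nil) .nil))))) (.nd (nat_lit 8) (.nd (nat_lit 9) 
(.lf (nat_lit 476330) (.g (nat_lit 3035) (.e (nat_lit 1797) (nat_lit 119) (.e (nat_lit 516120) (nat_lit 1) (.e (nat_lit 164403) (nat_lit 256) (.e (nat_lit 57373) (nat_lit 2) (.e (nat_lit 90170) (nat_lit 13) .nil))))) (.g (nat_lit 0) (.e (nat_lit 100390) (nat_lit 0) .nil) .nil))) 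
(.lf (nat_lit 476842) (.g (nat_lit 2155) (.e (nat_lit 1846) (nat_lit 124) (.e (nat_lit 557097) (nat_lit 13) (.e (nat_lit 172115) (nat_lit 10) (.e (nat_lit 434244) (nat_lit 28) (.e (nat_lit 573450) (nat_lit 9) (.e (nat_lit 455) (nat_lit 34) (.e (nat_lit 442372) (nat_lit 0) .nil))))))) (.g (nat_lit 1) (.e (nat_lit 101469) (nat_lit 0) .nil) .nil)))) (.nd (nat_lit 9) 
(.lf (nat_lit 476586) (.g (nat_lit 2129) (.e (nat_lit 1800) (nat_lit 119) (.e (nat_lit 516120) (nat_lit 1) (.e (nat_lit 164330) (nat_lit 230) (.e (nat_lit 163941) (nat_lit 19) (.e (nat_lit 483341) (nat_lit 9) (.e (nat_lit 426198) (nat_lit 9) (.e (nat_lit 426379) (nat_lit 15) .nil))))))) (.g (nat_lit 1) (.e (nat_lit 100741) (nat_lit 0) .nil) .nil))) 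
(.lf (nat_lit 477098) (.g (nat_lit 1787) (.e (nat_lit 1853) (nat_lit 124) (.e (nat_lit 557107) (nat_lit 15) (.e (nat_lit 188439) (nat_lit 20) (.e (nat_lit 3271) (nat_lit 199) (.e (nat_lit 548898) (nat_lit 14) (.e (nat_lit 3004) (nat_lit 186) (.e (nat_lit 450304) (nat_lit 0) .nil))))))) (.g (nat_lit 1) (.e (nat_lit 101818) (nat_lit 0) .nil) .nil)))))) 
(.nd (nat_lit 7) (.nd (nat_lit 8) (.nd (nat_lit 9) 
(.lf (nat_lit 476266) (.g (nat_lit 1144) (.e (nat_lit 1796) (nat_lit 119) (.e (nat_lit 516117) (nat_lit 1) (.e (nat_lit 164329) (nat_lit 230) .nil))) (.g (nat_lit 0) (.e (nat_lit 100298) (nat_lit 0) .nil) .nil))) 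
(.lf (nat_lit 476778) (.g (nat_lit 5471) (.e (nat_lit 1803) (nat_lit 119) (.e (nat_lit 516166) (nat_lit 12) (.e (nat_lit 450588) (nat_lit 10) (.e (nat_lit 573454) (nat_lit 9) .nil)))) (.g (nat_lit 0) (.e (nat_lit 101015) (nat_lit 0) .nil) .nil)))) (.nd (nat_lit 9) 
(.lf (nat_lit 476522) (.g (nat_lit 3832) (.e (nat_lit 1800) (nat_lit 119) (.e (nat_lit 516117) (nat_lit 1) (.e (nat_lit 164401) (nat_lit 256) (.e (nat_lit 57378) (nat_lit 3) (.e (nat_lit 98367) (nat_lit 27) (.e (nat_lit 434231) (nat_lit 23) (.e (nat_lit 532514) (nat_lit 3) (.e (nat_lit 114708) (nat_lit 20) .nil)))))))) (.g (nat_lit 1) (.e (nat_lit 100667) (nat_lit 0) .nil) .nil))) 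
(.lf (nat_lit 477034) (.g (nat_lit 2689) (.e (nat_lit 1849) (nat_lit 124) (.e (nat_lit 557109) (nat_lit 15) (.e (nat_lit 188449) (nat_lit 22) (.e (nat_lit 196661) (nat_lit 12) (.e (nat_lit 57749) (nat_lit 201) (.e (nat_lit 2940) (nat_lit 184) (.e (nat_lit 433920) (nat_lit 15) .nil))))))) (.g (nat_lit 1) (.e (nat_lit 101740) (nat_lit 0) .nil) .nil))))) (.nd (nat_lit 8) (.nd (nat_lit 9) 
(.lf (nat_lit 476394) (.g (nat_lit 1615) (.e (nat_lit 1799) (nat_lit 119) (.e (nat_lit 516117) (nat_lit 1) (.e (nat_lit 164329) (nat_lit 230) (.e (nat_lit 163941) (nat_lit 19) (.e (nat_lit 483341) (nat_lit 9) (.e (nat_lit 426200) (nat_lit 9) (.e (nat_lit 426363) (nat_lit 15) .nil))))))) (.g (nat_lit 1) (.e (nat_lit 100477) (nat_lit 0) .nil) .nil))) 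
(.lf (nat_lit 476906) (.g (nat_lit 2341) (.e (nat_lit 1848) (nat_lit 124) (.e (nat_lit 557097) (nat_lit 13) (.e (nat_lit 172115) (nat_lit 10) (.e (nat_lit 434231) (nat_lit 23) (.e (nat_lit 532481) (nat_lit 0) (.e (nat_lit 6647) (nat_lit 357) (.e (nat_lit 2856) (nat_lit 184) (.e (nat_lit 426402) (nat_lit 15) .nil)))))))) (.g (nat_lit 1) (.e (nat_lit 101601) (nat_lit 0) .nil) .nil)))) 
(.nd (nat_lit 9) 
(.lf (nat_lit 476650) (.g (nat_lit 3889) (.e (nat_lit 1800) (nat_lit 119) (.e (nat_lit 516139) (nat_lit 7) (.e (nat_lit 409649) (nat_lit 18) (.e (nat_lit 303111) (nat_lit 0) (.e (nat_lit 3238) (nat_lit 197) (.e (nat_lit 532560) (nat_lit 14) (.e (nat_lit 376855) (nat_lit 20) .nil))))))) (.g (nat_lit 1) (.e (nat_lit 100815) (nat_lit 0) .nil) .nil))) 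
(.lf (nat_lit 477162) (.g (nat_lit 2987) (.e (nat_lit 1855) (nat_lit 124) (.e (nat_lit 557101) (nat_lit 13) (.e (nat_lit 172115) (nat_lit 10) (.e (nat_lit 434244) (nat_lit 28) (.e (nat_lit 573449) (nat_lit 9) (.e (nat_lit 460) (nat_lit 34) (.e (nat_lit 442377) (nat_lit 0) .nil))))))) (.g (nat_lit 1) (.e (nat_lit 101918) (nat_lit 0) .nil) .nil)))))))) 
(.nd (nat_lit 5) (.nd (nat_lit 6) (.nd (nat_lit 7) (.nd (nat_lit 8) (.nd (nat_lit 9) 
(.lf (nat_lit 476186) (.g (nat_lit 3296) (.e (nat_lit 1804) (nat_lit 119) (.e (nat_lit 516120) (nat_lit 1) (.e (nat_lit 164403) (nat_lit 256) (.e (nat_lit 57373) (nat_lit 2) (.e (nat_lit 90174) (nat_lit 14) .nil))))) (.g (nat_lit 0) (.e (nat_lit 100167) (nat_lit 0) .nil) .nil))) 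
(.lf (nat_lit 476698) (.g (nat_lit 2741) (.e (nat_lit 1801) (nat_lit 119) (.e (nat_lit 516139) (nat_lit 7) (.e (nat_lit 409646) (nat_lit 18) (.e (nat_lit 303117) (nat_lit 2) (.e (nat_lit 196673) (nat_lit 15) .nil))))) (.g (nat_lit 0) (.e (nat_lit 100907) (nat_lit 0) .nil) .nil)))) (.nd (nat_lit 9) 
(.lf (nat_lit 476442) (.g (nat_lit 1957) (.e (nat_lit 1800) (nat_lit 119) (.e (nat_lit 516115) (nat_lit 1) (.e (nat_lit 164325) (nat_lit 230) (.e (nat_lit 163901) (nat_lit 12) .nil)))) (.g (nat_lit 0) (.e (nat_lit 100554) (nat_lit 0) .nil) .nil))) 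
(.lf (nat_lit 476954) (.g (nat_lit 2646) (.e (nat_lit 1848) (nat_lit 124) (.e (nat_lit 557107) (nat_lit 15) (.e (nat_lit 188447) (nat_lit 22) (.e (nat_lit 196661) (nat_lit 12) (.e (nat_lit 57751) (nat_lit 201) (.e (nat_lit 2855) (nat_lit 184) (.e (nat_lit 426402) (nat_lit 15) .nil))))))) (.g (nat_lit 1) (.e (nat_lit 101649) (nat_lit 0) .nil) .nil))))) (.nd (nat_lit 8) (.nd (nat_lit 9) 
(.lf (nat_lit 476314) (.g (nat_lit 2163) (.e (nat_lit 1797) (nat_lit 119) (.e (nat_lit 516115) (nat_lit 1) (.e (nat_lit 164399) (nat_lit 256) (.e (nat_lit 57373) (nat_lit 2) (.e (nat_lit 90172) (nat_lit 14) .nil))))) (.g (nat_lit 0) (.e (nat_lit 100374) (nat_lit 0) .nil) .nil))) 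
(.lf (nat_lit 476826) (.g (nat_lit 2632) (.e (nat_lit 1875) (nat_lit 126) (.e (nat_lit 573489) (nat_lit 14) (.e (nat_lit 73755) (nat_lit 8) (.e (nat_lit 557104) (nat_lit 14) .nil)))) (.g (nat_lit 0) (.e (nat_lit 101281) (nat_lit 0) .nil) .nil)))) (.nd (nat_lit 9) 
(.lf (nat_lit 476570) (.g (nat_lit 1948) (.e (nat_lit 1800) (nat_lit 119) (.e (nat_lit 516120) (nat_lit 1) (.e (nat_lit 164330) (nat_lit 230) (.e (nat_lit 163853) (nat_lit 0) .nil)))) (.g (nat_lit 0) (.e (nat_lit 100723) (nat_lit 0) .nil) .nil))) 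
(.lf (nat_lit 477082) (.g (nat_lit 2381) (.e (nat_lit 1853) (nat_lit 124) (.e (nat_lit 557101) (nat_lit 13) (.e (nat_lit 172115) (nat_lit 10) (.e (nat_lit 434238) (nat_lit 25) (.e (nat_lit 548897) (nat_lit 14) (.e (nat_lit 3004) (nat_lit 186) (.e (nat_lit 450304) (nat_lit 0) .nil))))))) (.g (nat_lit 1) (.e (nat_lit 101801) (nat_lit 0) .nil) .nil)))))) 
(.nd (nat_lit 7) (.nd (nat_lit 8) (.nd (nat_lit 9) 
(.lf (nat_lit 476250) (.g (nat_lit 2642) (.e (nat_lit 1796) (nat_lit 119) (.e (nat_lit 516115) (nat_lit 1) (.e (nat_lit 164325) (nat_lit 230) (.e (nat_lit 163841) (nat_lit 0) .nil)))) (.g (nat_lit 0) (.e (nat_lit 100256) (nat_lit 0) .nil) .nil))) 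
(.lf (nat_lit 476762) (.g (nat_lit 2212) (.e (nat_lit 1803) (nat_lit 119) (.e (nat_lit 516117) (nat_lit 1) (.e (nat_lit 164329) (nat_lit 230) (.e (nat_lit 163941) (nat_lit 19) .nil)))) (.g (nat_lit 0) (.e (nat_lit 100991) (nat_lit 0) .nil) .nil)))) (.nd (nat_lit 9) 
(.lf (nat_lit 476506) (.g (nat_lit 2433) (.e (nat_lit 1800) (nat_lit 119) (.e (nat_lit 516117) (nat_lit 1) (.e (nat_lit 164398) (nat_lit 256) (.e (nat_lit 57377) (nat_lit 3) (.e (nat_lit 98357) (nat_lit 26) .nil))))) (.g (nat_lit 0) (.e (nat_lit 100650) (nat_lit 0) .nil) .nil))) 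
(.lf (nat_lit 477018) (.g (nat_lit 2117) (.e (nat_lit 1849) (nat_lit 124) (.e (nat_lit 557108) (nat_lit 15) (.e (nat_lit 188449) (nat_lit 22) (.e (nat_lit 196661) (nat_lit 12) (.e (nat_lit 57748) (nat_lit 201) (.e (nat_lit 2940) (nat_lit 184) (.e (nat_lit 433920) (nat_lit 15) .nil))))))) (.g (nat_lit 1) (.e (nat_lit 101724) (nat_lit 0) .nil) .nil))))) (.nd (nat_lit 8) (.nd (nat_lit 9) 
(.lf (nat_lit 476378) (.g (nat_lit 2220) (.e (nat_lit 1798) (nat_lit 119) (.e (nat_lit 516179) (nat_lit 15) (.e (nat_lit 475199) (nat_lit 40) (.e (nat_lit 704589) (nat_lit 3) (.e (nat_lit 163979) (nat_lit 30) .nil))))) (.g (nat_lit 0) (.e (nat_lit 100456) (nat_lit 0) .nil) .nil))) 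
(.lf (nat_lit 476890) (.g (nat_lit 3190) (.e (nat_lit 1848) (nat_lit 124) (.e (nat_lit 557097) (nat_lit 13) (.e (nat_lit 172097) (nat_lit 9) (.e (nat_lit 426125) (nat_lit 2) (.e (nat_lit 196661) (nat_lit 12) (.e (nat_lit 57748) (nat_lit 201) (.e (nat_lit 2940) (nat_lit 184) (.e (nat_lit 433920) (nat_lit 15) .nil)))))))) (.g (nat_lit 1) (.e (nat_lit 101585) (nat_lit 0) .nil) .nil)))) 
(.nd (nat_lit 9) 
(.lf (nat_lit 476634) (.g (nat_lit 3890) (.e (nat_lit 1800) (nat_lit 119) (.e (nat_lit 516139) (nat_lit 7) (.e (nat_lit 409645) (nat_lit 18) (.e (nat_lit 303117) (nat_lit 2) (.e (nat_lit 196674) (nat_lit 15) (.e (nat_lit 89856) (nat_lit 20) .nil)))))) (.g (nat_lit 1) (.e (nat_lit 100797) (nat_lit 0) .nil) .nil))) 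
(.lf (nat_lit 477146) (.g (nat_lit 2074) (.e (nat_lit 1855) (nat_lit 124) (.e (nat_lit 557098) (nat_lit 13) (.e (nat_lit 172115) (nat_lit 10) (.e (nat_lit 434231) (nat_lit 23) (.e (nat_lit 532564) (nat_lit 15) .nil))))) (.g (nat_lit 0) (.e (nat_lit 101902) (nat_lit 0) .nil) .nil))))))) (.nd (nat_lit 6) (.nd (nat_lit 7) (.nd (nat_lit 8) (.nd (nat_lit 9) 
(.lf (nat_lit 476218) (.g (nat_lit 2036) (.e (nat_lit 1795) (nat_lit 119) (.e (nat_lit 516119) (nat_lit 1) (.e (nat_lit 164401) (nat_lit 256) (.e (nat_lit 57373) (nat_lit 2) (.e (nat_lit 90172) (nat_lit 14) .nil))))) (.g (nat_lit 0) (.e (nat_lit 100205) (nat_lit 0) .nil) .nil))) 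
(.lf (nat_lit 476730) (.g (nat_lit 2279) (.e (nat_lit 1802) (nat_lit 119) (.e (nat_lit 516115) (nat_lit 1) (.e (nat_lit 164325) (nat_lit 230) (.e (nat_lit 163907) (nat_lit 12) .nil)))) (.g (nat_lit 0) (.e (nat_lit 100950) (nat_lit 0) .nil) .nil)))) (.nd (nat_lit 9) 
(.lf (nat_lit 476474) (.g (nat_lit 2795) (.e (nat_lit 1800) (nat_lit 119) (.e (nat_lit 516115) (nat_lit 1) (.e (nat_lit 164327) (nat_lit 230) (.e (nat_lit 163875) (nat_lit 3) (.e (nat_lit 204838) (nat_lit 20) (.e (nat_lit 114716) (nat_lit 22) (.e (nat_lit 90169) (nat_lit 13) (.e (nat_lit 172133) (nat_lit 15) .nil)))))))) (.g (nat_lit 1) (.e (nat_lit 100611) (nat_lit 0) .nil) .nil))) 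
(.lf (nat_lit 476986) (.g (nat_lit 1854) (.e (nat_lit 1849) (nat_lit 124) (.e (nat_lit 557090) (nat_lit 12) (.e (nat_lit 164020) (nat_lit 45) (.e (nat_lit 696344) (nat_lit 8) .nil)))) (.g (nat_lit 0) (.e (nat_lit 101690) (nat_lit 0) .nil) .nil))))) (.nd (nat_lit 8) (.nd (nat_lit 9) 
(.lf (nat_lit 476346) (.g (nat_lit 2779) (.e (nat_lit 1798) (nat_lit 119) (.e (nat_lit 516119) (nat_lit 1) (.e (nat_lit 164403) (nat_lit 256) (.e (nat_lit 57373) (nat_lit 2) (.e (nat_lit 90172) (nat_lit 14) .nil))))) (.g (nat_lit 0) (.e (nat_lit 100418) (nat_lit 0) .nil) .nil))) 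
(.lf (nat_lit 476858) (.g (nat_lit 1582) (.e (nat_lit 1846) (nat_lit 124) (.e (nat_lit 557101) (nat_lit 13) (.e (nat_lit 172126) (nat_lit 14) (.e (nat_lit 491540) (nat_lit 3) (.e (nat_lit 98370) (nat_lit 28) .nil))))) (.g (nat_lit 0) (.e (nat_lit 101485) (nat_lit 0) .nil) .nil)))) (.nd (nat_lit 9) 
(.lf (nat_lit 476602) (.g (nat_lit 3080) (.e (nat_lit 1800) (nat_lit 119) (.e (nat_lit 516120) (nat_lit 1) (.e (nat_lit 164401) (nat_lit 256) (.e (nat_lit 57378) (nat_lit 3) (.e (nat_lit 98368) (nat_lit 27) (.e (nat_lit 434231) (nat_lit 23) (.e (nat_lit 532514) (nat_lit 3) (.e (nat_lit 114708) (nat_lit 20) .nil)))))))) (.g (nat_lit 1) (.e (nat_lit 100758) (nat_lit 0) .nil) .nil))) 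
(.lf (nat_lit 477114) (.g (nat_lit 1776) (.e (nat_lit 1853) (nat_lit 124) (.e (nat_lit 557107) (nat_lit 15) (.e (nat_lit 188441) (nat_lit 20) (.e (nat_lit 3272) (nat_lit 199) (.e (nat_lit 548898) (nat_lit 14) (.e (nat_lit 2988) (nat_lit 186) (.e (nat_lit 450304) (nat_lit 0) .nil))))))) (.g (nat_lit 1) (.e (nat_lit 101834) (nat_lit 0) .nil) .nil)))))) 
(.nd (nat_lit 7) (.nd (nat_lit 8) (.nd (nat_lit 9) 
(.lf (nat_lit 476282) (.g (nat_lit 1300) (.e (nat_lit 1796) (nat_lit 119) (.e (nat_lit 516127) (nat_lit 2) (.e (nat_lit 213032) (nat_lit 11) (.e (nat_lit 24609) (nat_lit 3) (.e (nat_lit 98369) (nat_lit 28) (.e (nat_lit 442373) (nat_lit 0) .nil)))))) (.g (nat_lit 1) (.e (nat_lit 100319) (nat_lit 0) .nil) .nil))) 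
(.lf (nat_lit 476794) (.g (nat_lit 1772) (.e (nat_lit 1810) (nat_lit 120) (.e (nat_lit 524322) (nat_lit 12) (.e (nat_lit 450588) (nat_lit 10) (.e (nat_lit 573470) (nat_lit 11) .nil)))) (.g (nat_lit 0) (.e (nat_lit 101037) (nat_lit 0) .nil) .nil)))) (.nd (nat_lit 9) 
(.lf (nat_lit 476538) (.g (nat_lit 895) (.e (nat_lit 1800) (nat_lit 119) (.e (nat_lit 516119) (nat_lit 1) (.e (nat_lit 164326) (nat_lit 230) (.e (nat_lit 163941) (nat_lit 19) .nil)))) (.g (nat_lit 0) (.e (nat_lit 100685) (nat_lit 0) .nil) .nil))) 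
(.lf (nat_lit 477050) (.g (nat_lit 2433) (.e (nat_lit 1853) (nat_lit 124) (.e (nat_lit 557097) (nat_lit 13) (.e (nat_lit 172115) (nat_lit 10) (.e (nat_lit 434238) (nat_lit 25) (.e (nat_lit 548898) (nat_lit 14) (.e (nat_lit 2998) (nat_lit 186) (.e (nat_lit 450304) (nat_lit 0) .nil))))))) (.g (nat_lit 1) (.e (nat_lit 101769) (nat_lit 0) .nil) .nil))))) (.nd (nat_lit 8) (.nd (nat_lit 9) 
(.lf (nat_lit 476410) (.g (nat_lit 2583) (.e (nat_lit 1799) (nat_lit 119) (.e (nat_lit 516139) (nat_lit 7) (.e (nat_lit 409645) (nat_lit 18) (.e (nat_lit 303117) (nat_lit 2) (.e (nat_lit 196674) (nat_lit 15) .nil))))) (.g (nat_lit 0) (.e (nat_lit 100494) (nat_lit 0) .nil) .nil))) 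
(.lf (nat_lit 476922) (.g (nat_lit 3163) (.e (nat_lit 1848) (nat_lit 124) (.e (nat_lit 557097) (nat_lit 13) (.e (nat_lit 172115) (nat_lit 10) (.e (nat_lit 434238) (nat_lit 25) (.e (nat_lit 548898) (nat_lit 14) (.e (nat_lit 2988) (nat_lit 186) (.e (nat_lit 450304) (nat_lit 0) .nil))))))) (.g (nat_lit 1) (.e (nat_lit 101617) (nat_lit 0) .nil) .nil)))) (.nd (nat_lit 9) 
(.lf (nat_lit 476666) (.g (nat_lit 4850) (.e (nat_lit 1800) (nat_lit 119) (.e (nat_lit 516179) (nat_lit 15) (.e (nat_lit 475199) (nat_lit 40) (.e (nat_lit 704589) (nat_lit 3) (.e (nat_lit 163978) (nat_lit 30) (.e (nat_lit 573491) (nat_lit 15) (.e (nat_lit 89856) (nat_lit 20) .nil))))))) (.g (nat_lit 1) (.e (nat_lit 100855) (nat_lit 0) .nil) .nil))) 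
(.lf (nat_lit 477178) (.g (nat_lit 2808) (.e (nat_lit 1855) (nat_lit 124) (.e (nat_lit 557105) (nat_lit 14) (.e (nat_lit 180252) (nat_lit 10) (.e (nat_lit 573482) (nat_lit 13) (.e (nat_lit 65640) (nat_lit 15) .nil))))) (.g (nat_lit 0) (.e (nat_lit 101934) (nat_lit 0) .nil) .nil)))))))))) 
(.nd (nat_lit 3) (.nd (nat_lit 4) (.nd (nat_lit 5) (.nd (nat_lit 6) (.nd (nat_lit 7) 
(.nd (nat_lit 8) (.nd (nat_lit 9) 
(.lf (nat_lit 476166) (.g (nat_lit 1843) (.e (nat_lit 1794) (nat_lit 119) (.e (nat_lit 516139) (nat_lit 7) (.e (nat_lit 409645) (nat_lit 18) (.e (nat_lit 303117) (nat_lit 2) .nil)))) (.g (nat_lit 0) (.e (nat_lit 100134) (nat_lit 0) .nil) .nil))) 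
(.lf (nat_lit 476678) (.g (nat_lit 3384) (.e (nat_lit 1800) (nat_lit 119) (.e (nat_lit 516182) (nat_lit 15) (.e (nat_lit 475199) (nat_lit 40) (.e (nat_lit 704589) (nat_lit 3) (.e (nat_lit 163979) (nat_lit 30) (.e (nat_lit 573491) (nat_lit 15) (.e (nat_lit 89856) (nat_lit 20) .nil))))))) (.g (nat_lit 1) (.e (nat_lit 100875) (nat_lit 0) .nil) .nil)))) (.nd (nat_lit 9) 
(.lf (nat_lit 476422) (.g (nat_lit 4466) (.e (nat_lit 1799) (nat_lit 119) (.e (nat_lit 516164) (nat_lit 11) (.e (nat_lit 442406) (nat_lit 20) (.e (nat_lit 3238) (nat_lit 197) (.e (nat_lit 532523) (nat_lit 7) (.e (nat_lit 319530) (nat_lit 16) (.e (nat_lit 286727) (nat_lit 0) .nil))))))) (.g (nat_lit 1) (.e (nat_lit 100514) (nat_lit 0) .nil) .nil))) 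
(.lf (nat_lit 476934) (.g (nat_lit 2940) (.e (nat_lit 1848) (nat_lit 124) (.e (nat_lit 557097) (nat_lit 13) (.e (nat_lit 172115) (nat_lit 10) (.e (nat_lit 434244) (nat_lit 28) (.e (nat_lit 573458) (nat_lit 9) (.e (nat_lit 420) (nat_lit 32) (.e (nat_lit 426262) (nat_lit 9) (.e (nat_lit 426401) (nat_lit 15) .nil)))))))) (.g (nat_lit 1) (.e (nat_lit 101629) (nat_lit 0) .nil) .nil))))) 
(.nd (nat_lit 8) (.nd (nat_lit 9) 
(.lf (nat_lit 476294) (.g (nat_lit 3397) (.e (nat_lit 1796) (nat_lit 119) (.e (nat_lit 516165) (nat_lit 12) (.e (nat_lit 450588) (nat_lit 10) (.e (nat_lit 573475) (nat_lit 12) (.e (nat_lit 57574) (nat_lit 55) .nil))))) (.g (nat_lit 0) (.e (nat_lit 100352) (nat_lit 0) .nil) .nil))) 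
(.lf (nat_lit 476806) (.g (nat_lit 3272) (.e (nat_lit 1841) (nat_lit 123) (.e (nat_lit 548889) (nat_lit 9) (.e (nat_lit 65630) (nat_lit 14) (.e (nat_lit 401412) (nat_lit 0) (.e (nat_lit 3114) (nat_lit 193) .nil))))) (.g (nat_lit 0) (.e (nat_lit 101095) (nat_lit 0) .nil) .nil)))) (.nd (nat_lit 9) 
(.lf (nat_lit 476550) (.g (nat_lit 2130) (.e (nat_lit 1800) (nat_lit 119) (.e (nat_lit 516119) (nat_lit 1) (.e (nat_lit 164402) (nat_lit 256) (.e (nat_lit 57378) (nat_lit 3) (.e (nat_lit 98366) (nat_lit 27) .nil))))) (.g (nat_lit 0) (.e (nat_lit 100700) (nat_lit 0) .nil) .nil))) 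
(.lf (nat_lit 477062) (.g (nat_lit 2848) (.e (nat_lit 1853) (nat_lit 124) (.e (nat_lit 557098) (nat_lit 13) (.e (nat_lit 172115) (nat_lit 10) (.e (nat_lit 434238) (nat_lit 25) (.e (nat_lit 548898) (nat_lit 14) (.e (nat_lit 3004) (nat_lit 186) (.e (nat_lit 442373) (nat_lit 0) .nil))))))) (.g (nat_lit 1) (.e (nat_lit 101781) (nat_lit 0) .nil) .nil)))))) 
(.nd (nat_lit 7) (.nd (nat_lit 8) (.nd (nat_lit 9) 
(.lf (nat_lit 476230) (.g (nat_lit 1962) (.e (nat_lit 1795) (nat_lit 119) (.e (nat_lit 516120) (nat_lit 1) (.e (nat_lit 164329) (nat_lit 230) (.e (nat_lit 163941) (nat_lit 19) (.e (nat_lit 483341) (nat_lit 9) (.e (nat_lit 426200) (nat_lit 9) (.e (nat_lit 426350) (nat_lit 15) .nil))))))) (.g (nat_lit 1) (.e (nat_lit 100218) (nat_lit 0) .nil) .nil))) 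
(.lf (nat_lit 476742) (.g (nat_lit 2763) (.e (nat_lit 1802) (nat_lit 119) (.e (nat_lit 516139) (nat_lit 7) (.e (nat_lit 409648) (nat_lit 18) (.e (nat_lit 303116) (nat_lit 2) (.e (nat_lit 196674) (nat_lit 15) (.e (nat_lit 81946) (nat_lit 20) .nil)))))) (.g (nat_lit 1) (.e (nat_lit 100967) (nat_lit 0) .nil) .nil)))) (.nd (nat_lit 9) 
(.lf (nat_lit 476486) (.g (nat_lit 5190) (.e (nat_lit 1800) (nat_lit 119) (.e (nat_lit 516117) (nat_lit 1) (.e (nat_lit 164305) (nat_lit 226) (.e (nat_lit 2612) (nat_lit 163) (.e (nat_lit 163978) (nat_lit 30) (.e (nat_lit 573489) (nat_lit 14) (.e (nat_lit 73755) (nat_lit 8) (.e (nat_lit 557096) (nat_lit 13) (.e (nat_lit 172133) (nat_lit 15) .nil))))))))) (.g (nat_lit 1) (.e (nat_lit 100630) (nat_lit 0) .nil) .nil))) 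
(.lf (nat_lit 476998) (.g (nat_lit 2851) (.e (nat_lit 1849) (nat_lit 124) (.e (nat_lit 557097) (nat_lit 13) (.e (nat_lit 172115) (nat_lit 10) (.e (nat_lit 434244) (nat_lit 28) (.e (nat_lit 573458) (nat_lit 9) (.e (nat_lit 420) (nat_lit 32) (.e (nat_lit 426262) (nat_lit 9) (.e (nat_lit 426401) (nat_lit 15) .nil)))))))) (.g (nat_lit 1) (.e (nat_lit 101702) (nat_lit 0) .nil) .nil))))) 
(.nd (nat_lit 8) (.nd (nat_lit 9) 
(.lf (nat_lit 476358) (.g (nat_lit 2791) (.e (nat_lit 1798) (nat_lit 119) (.e (nat_lit 516139) (nat_lit 7) (.e (nat_lit 409646) (nat_lit 18) (.e (nat_lit 303117) (nat_lit 2) (.e (nat_lit 196674) (nat_lit 15) (.e (nat_lit 81946) (nat_lit 20) .nil)))))) (.g (nat_lit 1) (.e (nat_lit 100431) (nat_lit 0) .nil) .nil))) 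
(.lf (nat_lit 476870) (.g (nat_lit 1687) (.e (nat_lit 1847) (nat_lit 124) (.e (nat_lit 557098) (nat_lit 13) (.e (nat_lit 172097) (nat_lit 9) (.e (nat_lit 426125) (nat_lit 2) (.e (nat_lit 196666) (nat_lit 13) .nil))))) (.g (nat_lit 0) (.e (nat_lit 101500) (nat_lit 0) .nil) .nil)))) (.nd (nat_lit 9) 
(.lf (nat_lit 476614) (.g (nat_lit 1846) (.e (nat_lit 1800) (nat_lit 119) (.e (nat_lit 516124) (nat_lit 2) (.e (nat_lit 213030) (nat_lit 11) (.e (nat_lit 24605) (nat_lit 2) (.e (nat_lit 90176) (nat_lit 15) (.e (nat_lit 188420) (nat_lit 0) .nil)))))) (.g (nat_lit 1) (.e (nat_lit 100772) (nat_lit 0) .nil) .nil))) 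
(.lf (nat_lit 477126) (.g (nat_lit 3316) (.e (nat_lit 1853) (nat_lit 124) (.e (nat_lit 557109) (nat_lit 15) (.e (nat_lit 188452) (nat_lit 23) (.e (nat_lit 204882) (nat_lit 32) .nil)))) (.g (nat_lit 0) (.e (nat_lit 101846) (nat_lit 0) .nil) .nil))))))) (.nd (nat_lit 6) (.nd (nat_lit 7) (.nd (nat_lit 8) (.nd (nat_lit 9) 
(.lf (nat_lit 476198) (.g (nat_lit 2435) (.e (nat_lit 1806) (nat_lit 119) (.e (nat_lit 516120) (nat_lit 1) (.e (nat_lit 164329) (nat_lit 230) (.e (nat_lit 163902) (nat_lit 12) (.e (nat_lit 426568) (nat_lit 34) .nil))))) (.g (nat_lit 0) (.e (nat_lit 100181) (nat_lit 0) .nil) .nil))) 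
(.lf (nat_lit 476710) (.g (nat_lit 5603) (.e (nat_lit 1801) (nat_lit 119) (.e (nat_lit 516151) (nat_lit 9) (.e (nat_lit 426211) (nat_lit 9) (.e (nat_lit 426125) (nat_lit 2) (.e (nat_lit 196625) (nat_lit 9) .nil))))) (.g (nat_lit 0) (.e (nat_lit 100926) (nat_lit 0) .nil) .nil)))) (.nd (nat_lit 9) 
(.lf (nat_lit 476454) (.g (nat_lit 3103) (.e (nat_lit 1800) (nat_lit 119) (.e (nat_lit 516115) (nat_lit 1) (.e (nat_lit 164325) (nat_lit 230) (.e (nat_lit 163903) (nat_lit 12) (.e (nat_lit 426568) (nat_lit 34) (.e (nat_lit 393281) (nat_lit 23) (.e (nat_lit 426410) (nat_lit 15) .nil))))))) (.g (nat_lit 1) (.e (nat_lit 100569) (nat_lit 0) .nil) .nil))) 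
(.lf (nat_lit 476966) (.g (nat_lit 2967) (.e (nat_lit 1848) (nat_lit 124) (.e (nat_lit 557108) (nat_lit 15) (.e (nat_lit 188449) (nat_lit 22) (.e (nat_lit 196661) (nat_lit 12) (.e (nat_lit 57750) (nat_lit 201) (.e (nat_lit 2854) (nat_lit 184) (.e (nat_lit 426402) (nat_lit 15) .nil))))))) (.g (nat_lit 1) (.e (nat_lit 101661) (nat_lit 0) .nil) .nil))))) (.nd (nat_lit 8) (.nd (nat_lit 9) 
(.lf (nat_lit 476326) (.g (nat_lit 2501) (.e (nat_lit 1797) (nat_lit 119) (.e (nat_lit 516119) (nat_lit 1) (.e (nat_lit 164403) (nat_lit 256) (.e (nat_lit 57378) (nat_lit 3) (.e (nat_lit 98377) (nat_lit 30) .nil))))) (.g (nat_lit 0) (.e (nat_lit 100386) (nat_lit 0) .nil) .nil))) 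
(.lf (nat_lit 476838) (.g (nat_lit 942) (.e (nat_lit 1885) (nat_lit 127) (.e (nat_lit 581653) (nat_lit 6) (.e (nat_lit 188439) (nat_lit 20) (.e (nat_lit 3578) (nat_lit 223) .nil)))) (.g (nat_lit 0) (.e (nat_lit 101446) (nat_lit 0) .nil) .nil)))) (.nd (nat_lit 9) 
(.lf (nat_lit 476582) (.g (nat_lit 1887) (.e (nat_lit 1800) (nat_lit 119) (.e (nat_lit 516120) (nat_lit 1) (.e (nat_lit 164330) (nat_lit 230) (.e (nat_lit 163941) (nat_lit 19) (.e (nat_lit 483339) (nat_lit 9) (.e (nat_lit 426261) (nat_lit 9) (.e (nat_lit 426419) (nat_lit 15) .nil))))))) (.g (nat_lit 1) (.e (nat_lit 100737) (nat_lit 0) .nil) .nil))) 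
(.lf (nat_lit 477094) (.g (nat_lit 1723) (.e (nat_lit 1853) (nat_lit 124) (.e (nat_lit 557107) (nat_lit 15) (.e (nat_lit 188439) (nat_lit 20) (.e (nat_lit 3270) (nat_lit 199) (.e (nat_lit 548898) (nat_lit 14) (.e (nat_lit 3004) (nat_lit 186) (.e (nat_lit 450304) (nat_lit 0) .nil))))))) (.g (nat_lit 1) (.e (nat_lit 101814) (nat_lit 0) .nil) .nil)))))) 
(.nd (nat_lit 7) (.nd (nat_lit 8) (.nd (nat_lit 9) 
(.lf (nat_lit 476262) (.g (nat_lit 2530) (.e (nat_lit 1796) (nat_lit 119) (.e (nat_lit 516115) (nat_lit 1) (.e (nat_lit 164399) (nat_lit 256) (.e (nat_lit 57377) (nat_lit 3) (.e (nat_lit 98357) (nat_lit 26) .nil))))) (.g (nat_lit 0) (.e (nat_lit 100279) (nat_lit 0) .nil) .nil))) 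
(.lf (nat_lit 476774) (.g (nat_lit 4005) (.e (nat_lit 1803) (nat_lit 119) (.e (nat_lit 516139) (nat_lit 7) (.e (nat_lit 409646) (nat_lit 18) (.e (nat_lit 303117) (nat_lit 2) (.e (nat_lit 196674) (nat_lit 15) (.e (nat_lit 81936) (nat_lit 20) .nil)))))) (.g (nat_lit 1) (.e (nat_lit 101008) (nat_lit 0) .nil) .nil)))) (.nd (nat_lit 9) 
(.lf (nat_lit 476518) (.g (nat_lit 2912) (.e (nat_lit 1800) (nat_lit 119) (.e (nat_lit 516117) (nat_lit 1) (.e (nat_lit 164399) (nat_lit 256) (.e (nat_lit 57378) (nat_lit 3) (.e (nat_lit 98368) (nat_lit 27) (.e (nat_lit 434231) (nat_lit 23) (.e (nat_lit 532514) (nat_lit 3) (.e (nat_lit 114708) (nat_lit 20) .nil)))))))) (.g (nat_lit 1) (.e (nat_lit 100663) (nat_lit 0) .nil) .nil))) 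
(.lf (nat_lit 477030) (.g (nat_lit 4768) (.e (nat_lit 1849) (nat_lit 124) (.e (nat_lit 557109) (nat_lit 15) (.e (nat_lit 188449) (nat_lit 22) (.e (nat_lit 196626) (nat_lit 9) .nil)))) (.g (nat_lit 0) (.e (nat_lit 101736) (nat_lit 0) .nil) .nil))))) (.nd (nat_lit 8) (.nd (nat_lit 9) 
(.lf (nat_lit 476390) (.g (nat_lit 1796) (.e (nat_lit 1799) (nat_lit 119) (.e (nat_lit 516116) (nat_lit 1) (.e (nat_lit 164329) (nat_lit 230) (.e (nat_lit 163902) (nat_lit 12) .nil)))) (.g (nat_lit 0) (.e (nat_lit 100472) (nat_lit 0) .nil) .nil))) 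
(.lf (nat_lit 476902) (.g (nat_lit 4118) (.e (nat_lit 1848) (nat_lit 124) (.e (nat_lit 557097) (nat_lit 13) (.e (nat_lit 172097) (nat_lit 9) (.e (nat_lit 426125) (nat_lit 2) (.e (nat_lit 196661) (nat_lit 12) (.e (nat_lit 57751) (nat_lit 201) (.e (nat_lit 2856) (nat_lit 184) (.e (nat_lit 426402) (nat_lit 15) .nil)))))))) (.g (nat_lit 1) (.e (nat_lit 101597) (nat_lit 0) .nil) .nil)))) 
(.nd (nat_lit 9) 
(.lf (nat_lit 476646) (.g (nat_lit 2621) (.e (nat_lit 1800) (nat_lit 119) (.e (nat_lit 516139) (nat_lit 7) (.e (nat_lit 409648) (nat_lit 18) (.e (nat_lit 303118) (nat_lit 3) (.e (nat_lit 204865) (nat_lit 28) (.e (nat_lit 352305) (nat_lit 20) .nil)))))) (.g (nat_lit 1) (.e (nat_lit 100810) (nat_lit 0) .nil) .nil))) 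
(.lf (nat_lit 477158) (.g (nat_lit 1421) (.e (nat_lit 1855) (nat_lit 124) (.e (nat_lit 557101) (nat_lit 13) (.e (nat_lit 172115) (nat_lit 10) (.e (nat_lit 434231) (nat_lit 23) (.e (nat_lit 532482) (nat_lit 0) .nil))))) (.g (nat_lit 0) (.e (nat_lit 101914) (nat_lit 0) .nil) .nil)))))))) (.nd (nat_lit 5) (.nd (nat_lit 6) (.nd (nat_lit 7) (.nd (nat_lit 8) (.nd (nat_lit 9) 
(.lf (nat_lit 476182) (.g (nat_lit 2462) (.e (nat_lit 1804) (nat_lit 119) (.e (nat_lit 516119) (nat_lit 1) (.e (nat_lit 164403) (nat_lit 256) (.e (nat_lit 57378) (nat_lit 3) (.e (nat_lit 98377) (nat_lit 30) .nil))))) (.g (nat_lit 0) (.e (nat_lit 100162) (nat_lit 0) .nil) .nil))) 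
(.lf (nat_lit 476694) (.g (nat_lit 2188) (.e (nat_lit 1801) (nat_lit 119) (.e (nat_lit 516139) (nat_lit 7) (.e (nat_lit 409644) (nat_lit 18) (.e (nat_lit 303117) (nat_lit 2) (.e (nat_lit 196674) (nat_lit 15) .nil))))) (.g (nat_lit 0) (.e (nat_lit 100902) (nat_lit 0) .nil) .nil)))) (.nd (nat_lit 9) 
(.lf (nat_lit 476438) (.g (nat_lit 3231) (.e (nat_lit 1800) (nat_lit 119) (.e (nat_lit 516115) (nat_lit 1) (.e (nat_lit 164325) (nat_lit 230) (.e (nat_lit 163875) (nat_lit 3) (.e (nat_lit 204837) (nat_lit 20) (.e (nat_lit 114716) (nat_lit 22) (.e (nat_lit 90169) (nat_lit 13) (.e (nat_lit 172133) (nat_lit 15) .nil)))))))) (.g (nat_lit 1) (.e (nat_lit 100550) (nat_lit 0) .nil) .nil))) 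
(.lf (nat_lit 476950) (.g (nat_lit 2717) (.e (nat_lit 1848) (nat_lit 124) (.e (nat_lit 557107) (nat_lit 15) (.e (nat_lit 188447) (nat_lit 22) (.e (nat_lit 196661) (nat_lit 12) (.e (nat_lit 57750) (nat_lit 201) (.e (nat_lit 2854) (nat_lit 184) (.e (nat_lit 426402) (nat_lit 15) .nil))))))) (.g (nat_lit 1) (.e (nat_lit 101645) (nat_lit 0) .nil) .nil))))) (.nd (nat_lit 8) (.nd (nat_lit 9) 
(.lf (nat_lit 476310) (.g (nat_lit 2266) (.e (nat_lit 1796) (nat_lit 119) (.e (nat_lit 516185) (nat_lit 16) (.e (nat_lit 491560) (nat_lit 10) (.e (nat_lit 344130) (nat_lit 26) (.e (nat_lit 557087) (nat_lit 11) .nil))))) (.g (nat_lit 0) (.e (nat_lit 100368) (nat_lit 0) .nil) .nil))) 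
(.lf (nat_lit 476822) (.g (nat_lit 1727) (.e (nat_lit 1873) (nat_lit 126) (.e (nat_lit 573488) (nat_lit 14) (.e (nat_lit 73755) (nat_lit 8) (.e (nat_lit 557097) (nat_lit 13) .nil)))) (.g (nat_lit 0) (.e (nat_lit 101186) (nat_lit 0) .nil) .nil)))) (.nd (nat_lit 9) 
(.lf (nat_lit 476566) (.g (nat_lit 1960) (.e (nat_lit 1800) (nat_lit 119) (.e (nat_lit 516120) (nat_lit 1) (.e (nat_lit 164330) (nat_lit 230) (.e (nat_lit 163843) (nat_lit 0) .nil)))) (.g (nat_lit 0) (.e (nat_lit 100718) (nat_lit 0) .nil) .nil))) 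
(.lf (nat_lit 477078) (.g (nat_lit 2488) (.e (nat_lit 1853) (nat_lit 124) (.e (nat_lit 557101) (nat_lit 13) (.e (nat_lit 172115) (nat_lit 10) (.e (nat_lit 434238) (nat_lit 25) (.e (nat_lit 548896) (nat_lit 14) (.e (nat_lit 3004) (nat_lit 186) (.e (nat_lit 450304) (nat_lit 0) .nil))))))) (.g (nat_lit 1) (.e (nat_lit 101797) (nat_lit 0) .nil) .nil)))))) 
(.nd (nat_lit 7) (.nd (nat_lit 8) (.nd (nat_lit 9) 
(.lf (nat_lit 476246) (.g (nat_lit 3664) (.e (nat_lit 1795) (nat_lit 119) (.e (nat_lit 516151) (nat_lit 9) (.e (nat_lit 426211) (nat_lit 9) (.e (nat_lit 426140) (nat_lit 3) (.e (nat_lit 204845) (nat_lit 24) .nil))))) (.g (nat_lit 0) (.e (nat_lit 100238) (nat_lit 0) .nil) .nil))) 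
(.lf (nat_lit 476758) (.g (nat_lit 2338) (.e (nat_lit 1802) (nat_lit 119) (.e (nat_lit 516179) (nat_lit 15) (.e (nat_lit 475199) (nat_lit 40) (.e (nat_lit 704589) (nat_lit 3) (.e (nat_lit 163979) (nat_lit 30) (.e (nat_lit 573491) (nat_lit 15) (.e (nat_lit 81947) (nat_lit 20) .nil))))))) (.g (nat_lit 1) (.e (nat_lit 100986) (nat_lit 0) .nil) .nil)))) (.nd (nat_lit 9) 
(.lf (nat_lit 476502) (.g (nat_lit 2345) (.e (nat_lit 1800) (nat_lit 119) (.e (nat_lit 516117) (nat_lit 1) (.e (nat_lit 164398) (nat_lit 256) (.e (nat_lit 57372) (nat_lit 2) (.e (nat_lit 90167) (nat_lit 13) .nil))))) (.g (nat_lit 0) (.e (nat_lit 100646) (nat_lit 0) .nil) .nil))) 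
(.lf (nat_lit 477014) (.g (nat_lit 3073) (.e (nat_lit 1849) (nat_lit 124) (.e (nat_lit 557098) (nat_lit 13) (.e (nat_lit 172115) (nat_lit 10) (.e (nat_lit 434244) (nat_lit 28) (.e (nat_lit 573458) (nat_lit 9) (.e (nat_lit 426) (nat_lit 32) (.e (nat_lit 426190) (nat_lit 9) (.e (nat_lit 426402) (nat_lit 15) .nil)))))))) (.g (nat_lit 1) (.e (nat_lit 101718) (nat_lit 0) .nil) .nil))))) 
(.nd (nat_lit 8) (.nd (nat_lit 9) 
(.lf (nat_lit 476374) (.g (nat_lit 2471) (.e (nat_lit 1798) (nat_lit 119) (.e (nat_lit 516179) (nat_lit 15) (.e (nat_lit 475199) (nat_lit 40) (.e (nat_lit 704589) (nat_lit 3) (.e (nat_lit 163975) (nat_lit 30) .nil))))) (.g (nat_lit 0) (.e (nat_lit 100448) (nat_lit 0) .nil) .nil))) 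
(.lf (nat_lit 476886) (.g (nat_lit 2089) (.e (nat_lit 1848) (nat_lit 124) (.e (nat_lit 557087) (nat_lit 11) (.e (nat_lit 24665) (nat_lit 14) (.e (nat_lit 401424) (nat_lit 2) .nil)))) (.g (nat_lit 0) (.e (nat_lit 101574) (nat_lit 0) .nil) .nil)))) (.nd (nat_lit 9) 
(.lf (nat_lit 476630) (.g (nat_lit 2020) (.e (nat_lit 1800) (nat_lit 119) (.e (nat_lit 516139) (nat_lit 7) (.e (nat_lit 409644) (nat_lit 18) (.e (nat_lit 303112) (nat_lit 0) (.e (nat_lit 3252) (nat_lit 197) .nil))))) (.g (nat_lit 0) (.e (nat_lit 100793) (nat_lit 0) .nil) .nil))) 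
(.lf (nat_lit 477142) (.g (nat_lit 5150) (.e (nat_lit 1855) (nat_lit 124) (.e (nat_lit 557087) (nat_lit 11) (.e (nat_lit 24662) (nat_lit 14) (.e (nat_lit 401425) (nat_lit 2) (.e (nat_lit 196674) (nat_lit 15) .nil))))) (.g (nat_lit 0) (.e (nat_lit 101870) (nat_lit 0) .nil) .nil))))))) (.nd (nat_lit 6) (.nd (nat_lit 7) (.nd (nat_lit 8) (.nd (nat_lit 9) 
(.lf (nat_lit 476214) (.g (nat_lit 1947) (.e (nat_lit 1795) (nat_lit 119) (.e (nat_lit 516117) (nat_lit 1) (.e (nat_lit 164329) (nat_lit 230) (.e (nat_lit 163941) (nat_lit 19) (.e (nat_lit 483341) (nat_lit 9) (.e (nat_lit 426200) (nat_lit 9) (.e (nat_lit 426354) (nat_lit 15) .nil))))))) (.g (nat_lit 1) (.e (nat_lit 100201) (nat_lit 0) .nil) .nil))) 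
(.lf (nat_lit 476726) (.g (nat_lit 2220) (.e (nat_lit 1801) (nat_lit 119) (.e (nat_lit 516179) (nat_lit 15) (.e (nat_lit 475199) (nat_lit 40) (.e (nat_lit 704589) (nat_lit 3) (.e (nat_lit 163979) (nat_lit 30) .nil))))) (.g (nat_lit 0) (.e (nat_lit 100944) (nat_lit 0) .nil) .nil)))) (.nd (nat_lit 9) 
(.lf (nat_lit 476470) (.g (nat_lit 3208) (.e (nat_lit 1800) (nat_lit 119) (.e (nat_lit 516115) (nat_lit 1) (.e (nat_lit 164327) (nat_lit 230) (.e (nat_lit 163875) (nat_lit 3) (.e (nat_lit 204837) (nat_lit 20) (.e (nat_lit 114714) (nat_lit 22) (.e (nat_lit 90169) (nat_lit 13) (.e (nat_lit 172133) (nat_lit 15) .nil)))))))) (.g (nat_lit 1) (.e (nat_lit 100607) (nat_lit 0) .nil) .nil))) 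
(.lf (nat_lit 476982) (.g (nat_lit 2150) (.e (nat_lit 1849) (nat_lit 124) (.e (nat_lit 557087) (nat_lit 11) (.e (nat_lit 24617) (nat_lit 7) (.e (nat_lit 319505) (nat_lit 10) (.e (nat_lit 7936) (nat_lit 45) .nil))))) (.g (nat_lit 0) (.e (nat_lit 101684) (nat_lit 0) .nil) .nil))))) (.nd (nat_lit 8) (.nd (nat_lit 9) 
(.lf (nat_lit 476342) (.g (nat_lit 2345) (.e (nat_lit 1798) (nat_lit 119) (.e (nat_lit 516115) (nat_lit 1) (.e (nat_lit 164327) (nat_lit 230) (.e (nat_lit 163903) (nat_lit 12) (.e (nat_lit 426566) (nat_lit 34) (.e (nat_lit 393273) (nat_lit 23) (.e (nat_lit 426364) (nat_lit 15) .nil))))))) (.g (nat_lit 1) (.e (nat_lit 100412) (nat_lit 0) .nil) .nil))) 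
(.lf (nat_lit 476854) (.g (nat_lit 1987) (.e (nat_lit 1846) (nat_lit 124) (.e (nat_lit 557101) (nat_lit 13) (.e (nat_lit 172115) (nat_lit 10) (.e (nat_lit 434244) (nat_lit 28) (.e (nat_lit 573449) (nat_lit 9) (.e (nat_lit 454) (nat_lit 34) (.e (nat_lit 442372) (nat_lit 0) .nil))))))) (.g (nat_lit 1) (.e (nat_lit 101481) (nat_lit 0) .nil) .nil)))) (.nd (nat_lit 9) 
(.lf (nat_lit 476598) (.g (nat_lit 2708) (.e (nat_lit 1800) (nat_lit 119) (.e (nat_lit 516120) (nat_lit 1) (.e (nat_lit 164401) (nat_lit 256) (.e (nat_lit 57378) (nat_lit 3) (.e (nat_lit 98366) (nat_lit 27) (.e (nat_lit 434231) (nat_lit 23) (.e (nat_lit 532513) (nat_lit 3) (.e (nat_lit 114708) (nat_lit 20) .nil)))))))) (.g (nat_lit 1) (.e (nat_lit 100754) (nat_lit 0) .nil) .nil))) 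
(.lf (nat_lit 477110) (.g (nat_lit 1937) (.e (nat_lit 1853) (nat_lit 124) (.e (nat_lit 557107) (nat_lit 15) (.e (nat_lit 188440) (nat_lit 20) (.e (nat_lit 3272) (nat_lit 199) (.e (nat_lit 548898) (nat_lit 14) (.e (nat_lit 2988) (nat_lit 186) (.e (nat_lit 450304) (nat_lit 0) .nil))))))) (.g (nat_lit 1) (.e (nat_lit 101830) (nat_lit 0) .nil) .nil)))))) 
(.nd (nat_lit 7) (.nd (nat_lit 8) (.nd (nat_lit 9) 
(.lf (nat_lit 476278) (.g (nat_lit 1916) (.e (nat_lit 1796) (nat_lit 119) (.e (nat_lit 516120) (nat_lit 1) (.e (nat_lit 164332) (nat_lit 230) (.e (nat_lit 163943) (nat_lit 19) .nil)))) (.g (nat_lit 0) (.e (nat_lit 100315) (nat_lit 0) .nil) .nil))) 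
(.lf (nat_lit 476790) (.g (nat_lit 1521) (.e (nat_lit 1809) (nat_lit 120) (.e (nat_lit 524322) (nat_lit 12) (.e (nat_lit 450587) (nat_lit 10) (.e (nat_lit 573478) (nat_lit 12) (.e (nat_lit 57574) (nat_lit 55) .nil))))) (.g (nat_lit 0) (.e (nat_lit 101033) (nat_lit 0) .nil) .nil)))) (.nd (nat_lit 9) 
(.lf (nat_lit 476534) (.g (nat_lit 1478) (.e (nat_lit 1800) (nat_lit 119) (.e (nat_lit 516119) (nat_lit 1) (.e (nat_lit 164324) (nat_lit 230) (.e (nat_lit 163943) (nat_lit 19) .nil)))) (.g (nat_lit 0) (.e (nat_lit 100681) (nat_lit 0) .nil) .nil))) 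
(.lf (nat_lit 477046) (.g (nat_lit 2029) (.e (nat_lit 1853) (nat_lit 124) (.e (nat_lit 557097) (nat_lit 13) (.e (nat_lit 172115) (nat_lit 10) (.e (nat_lit 434238) (nat_lit 25) (.e (nat_lit 548897) (nat_lit 14) (.e (nat_lit 2998) (nat_lit 186) (.e (nat_lit 450304) (nat_lit 0) .nil))))))) (.g (nat_lit 1) (.e (nat_lit 101765) (nat_lit 0) .nil) .nil))))) (.nd (nat_lit 8) (.nd (nat_lit 9) 
(.lf (nat_lit 476406) (.g (nat_lit 2877) (.e (nat_lit 1799) (nat_lit 119) (.e (nat_lit 516138) (nat_lit 7) (.e (nat_lit 409646) (nat_lit 18) (.e (nat_lit 303117) (nat_lit 2) (.e (nat_lit 196674) (nat_lit 15) .nil))))) (.g (nat_lit 0) (.e (nat_lit 100490) (nat_lit 0) .nil) .nil))) 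
(.lf (nat_lit 476918) (.g (nat_lit 2613) (.e (nat_lit 1848) (nat_lit 124) (.e (nat_lit 557097) (nat_lit 13) (.e (nat_lit 172115) (nat_lit 10) (.e (nat_lit 434238) (nat_lit 25) (.e (nat_lit 548897) (nat_lit 14) (.e (nat_lit 2988) (nat_lit 186) (.e (nat_lit 450304) (nat_lit 0) .nil))))))) (.g (nat_lit 1) (.e (nat_lit 101613) (nat_lit 0) .nil) .nil)))) (.nd (nat_lit 9) 
(.lf (nat_lit 476662) (.g (nat_lit 1979) (.e (nat_lit 1800) (nat_lit 119) (.e (nat_lit 516179) (nat_lit 15) (.e (nat_lit 475177) (nat_lit 24) (.e (nat_lit 516150) (nat_lit 9) (.e (nat_lit 426438) (nat_lit 18) .nil))))) (.g (nat_lit 0) (.e (nat_lit 100849) (nat_lit 0) .nil) .nil))) 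
(.lf (nat_lit 477174) (.g (nat_lit 3412) (.e (nat_lit 1855) (nat_lit 124) (.e (nat_lit 557105) (nat_lit 14) (.e (nat_lit 180252) (nat_lit 10) (.e (nat_lit 573482) (nat_lit 13) (.e (nat_lit 65635) (nat_lit 15) .nil))))) (.g (nat_lit 0) (.e (nat_lit 101930) (nat_lit 0) .nil) .nil))))))))) (.nd (nat_lit 4) (.nd (nat_lit 5) (.nd (nat_lit 6) (.nd (nat_lit 7) (.nd (nat_lit 8) (.nd (nat_lit 9) 
(.lf (nat_lit 476174) (.g (nat_lit 3878) (.e (nat_lit 1793) (nat_lit 119) (.e (nat_lit 516166) (nat_lit 12) (.e (nat_lit 450587) (nat_lit 10) (.e (nat_lit 573478) (nat_lit 12) (.e (nat_lit 57574) (nat_lit 55) .nil))))) (.g (nat_lit 0) (.e (nat_lit 100154) (nat_lit 0) .nil) .nil))) 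
(.lf (nat_lit 476686) (.g (nat_lit 2348) (.e (nat_lit 1801) (nat_lit 119) (.e (nat_lit 516120) (nat_lit 1) (.e (nat_lit 164329) (nat_lit 230) (.e (nat_lit 163902) (nat_lit 12) (.e (nat_lit 426568) (nat_lit 34) .nil))))) (.g (nat_lit 0) (.e (nat_lit 100887) (nat_lit 0) .nil) .nil)))) (.nd (nat_lit 9) 
(.lf (nat_lit 476430) (.g (nat_lit 2088) (.e (nat_lit 1800) (nat_lit 119) (.e (nat_lit 516115) (nat_lit 1) (.e (nat_lit 164325) (nat_lit 230) (.e (nat_lit 163841) (nat_lit 0) .nil)))) (.g (nat_lit 0) (.e (nat_lit 100540) (nat_lit 0) .nil) .nil))) 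
(.lf (nat_lit 476942) (.g (nat_lit 3671) (.e (nat_lit 1848) (nat_lit 124) (.e (nat_lit 557100) (nat_lit 13) (.e (nat_lit 172106) (nat_lit 10) (.e (nat_lit 434231) (nat_lit 23) (.e (nat_lit 532564) (nat_lit 15) .nil))))) (.g (nat_lit 0) (.e (nat_lit 101637) (nat_lit 0) .nil) .nil))))) (.nd (nat_lit 8) (.nd (nat_lit 9) 
(.lf (nat_lit 476302) (.g (nat_lit 2938) (.e (nat_lit 1796) (nat_lit 119) (.e (nat_lit 516166) (nat_lit 12) (.e (nat_lit 450588) (nat_lit 10) (.e (nat_lit 573473) (nat_lit 12) (.e (nat_lit 57353) (nat_lit 0) .nil))))) (.g (nat_lit 0) (.e (nat_lit 100360) (nat_lit 0) .nil) .nil))) 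
(.lf (nat_lit 476814) (.g (nat_lit 4929) (.e (nat_lit 1842) (nat_lit 123) (.e (nat_lit 548874) (nat_lit 5) (.e (nat_lit 1401) (nat_lit 106) (.e (nat_lit 319539) (nat_lit 19) (.e (nat_lit 311315) (nat_lit 3) (.e (nat_lit 204846) (nat_lit 24) (.e (nat_lit 319533) (nat_lit 16) (.e (nat_lit 286724) (nat_lit 0) .nil)))))))) (.g (nat_lit 1) (.e (nat_lit 101108) (nat_lit 0) .nil) .nil)))) 
(.nd (nat_lit 9) 
(.lf (nat_lit 476558) (.g (nat_lit 4606) (.e (nat_lit 1800) (nat_lit 119) (.e (nat_lit 516120) (nat_lit 1) (.e (nat_lit 164304) (nat_lit 226) (.e (nat_lit 2612) (nat_lit 163) (.e (nat_lit 163977) (nat_lit 30) (.e (nat_lit 573489) (nat_lit 14) (.e (nat_lit 73755) (nat_lit 8) (.e (nat_lit 557097) (nat_lit 13) (.e (nat_lit 172133) (nat_lit 15) .nil))))))))) (.g (nat_lit 1) (.e (nat_lit 100710) (nat_lit 0) .nil) .nil))) 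
(.lf (nat_lit 477070) (.g (nat_lit 4150) (.e (nat_lit 1853) (nat_lit 124) (.e (nat_lit 557100) (nat_lit 13) (.e (nat_lit 172106) (nat_lit 10) (.e (nat_lit 434244) (nat_lit 28) (.e (nat_lit 573450) (nat_lit 9) (.e (nat_lit 457) (nat_lit 34) (.e (nat_lit 442373) (nat_lit 0) .nil))))))) (.g (nat_lit 1) (.e (nat_lit 101789) (nat_lit 0) .nil) .nil)))))) 
(.nd (nat_lit 7) (.nd (nat_lit 8) (.nd (nat_lit 9) 
(.lf (nat_lit 476238) (.g (nat_lit 3300) (.e (nat_lit 1795) (nat_lit 119) (.e (nat_lit 516120) (nat_lit 1) (.e (nat_lit 164403) (nat_lit 256) (.e (nat_lit 57373) (nat_lit 2) (.e (nat_lit 90174) (nat_lit 14) .nil))))) (.g (nat_lit 0) (.e (nat_lit 100226) (nat_lit 0) .nil) .nil))) 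
(.lf (nat_lit 476750) (.g (nat_lit 3129) (.e (nat_lit 1802) (nat_lit 119) (.e (nat_lit 516179) (nat_lit 15) (.e (nat_lit 475199) (nat_lit 40) (.e (nat_lit 704589) (nat_lit 3) (.e (nat_lit 163975) (nat_lit 30) (.e (nat_lit 573491) (nat_lit 15) (.e (nat_lit 81942) (nat_lit 20) .nil))))))) (.g (nat_lit 1) (.e (nat_lit 100978) (nat_lit 0) .nil) .nil)))) (.nd (nat_lit 9) 
(.lf (nat_lit 476494) (.g (nat_lit 1666) (.e (nat_lit 1800) (nat_lit 119) (.e (nat_lit 516117) (nat_lit 1) (.e (nat_lit 164330) (nat_lit 230) (.e (nat_lit 163941) (nat_lit 19) .nil)))) (.g (nat_lit 0) (.e (nat_lit 100638) (nat_lit 0) .nil) .nil))) 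
(.lf (nat_lit 477006) (.g (nat_lit 2462) (.e (nat_lit 1849) (nat_lit 124) (.e (nat_lit 557098) (nat_lit 13) (.e (nat_lit 172115) (nat_lit 10) (.e (nat_lit 434231) (nat_lit 23) (.e (nat_lit 532486) (nat_lit 0) .nil))))) (.g (nat_lit 0) (.e (nat_lit 101710) (nat_lit 0) .nil) .nil))))) (.nd (nat_lit 8) (.nd (nat_lit 9) 
(.lf (nat_lit 476366) (.g (nat_lit 2453) (.e (nat_lit 1798) (nat_lit 119) (.e (nat_lit 516165) (nat_lit 12) (.e (nat_lit 450588) (nat_lit 10) (.e (nat_lit 573475) (nat_lit 12) .nil)))) (.g (nat_lit 0) (.e (nat_lit 100440) (nat_lit 0) .nil) .nil))) 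
(.lf (nat_lit 476878) (.g (nat_lit 2635) (.e (nat_lit 1848) (nat_lit 124) (.e (nat_lit 557087) (nat_lit 11) (.e (nat_lit 24617) (nat_lit 7) (.e (nat_lit 319505) (nat_lit 10) (.e (nat_lit 7936) (nat_lit 45) (.e (nat_lit 532547) (nat_lit 11) (.e (nat_lit 352295) (nat_lit 20) .nil))))))) (.g (nat_lit 1) (.e (nat_lit 101549) (nat_lit 0) .nil) .nil)))) (.nd (nat_lit 9) 
(.lf (nat_lit 476622) (.g (nat_lit 2078) (.e (nat_lit 1800) (nat_lit 119) (.e (nat_lit 516127) (nat_lit 2) (.e (nat_lit 213032) (nat_lit 11) (.e (nat_lit 24604) (nat_lit 2) (.e (nat_lit 90176) (nat_lit 15) (.e (nat_lit 196352) (nat_lit 0) .nil)))))) (.g (nat_lit 1) (.e (nat_lit 100780) (nat_lit 0) .nil) .nil))) 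
(.lf (nat_lit 477134) (.g (nat_lit 2625) (.e (nat_lit 1855) (nat_lit 124) (.e (nat_lit 557070) (nat_lit 9) (.e (nat_lit 2744) (nat_lit 174) (.e (nat_lit 253991) (nat_lit 11) (.e (nat_lit 16409) (nat_lit 2) (.e (nat_lit 196672) (nat_lit 15) (.e (nat_lit 81943) (nat_lit 20) .nil))))))) (.g (nat_lit 1) (.e (nat_lit 101861) (nat_lit 0) .nil) .nil))))))) 
(.nd (nat_lit 6) (.nd (nat_lit 7) (.nd (nat_lit 8) (.nd (nat_lit 9) 
(.lf (nat_lit 476206) (.g (nat_lit 2046) (.e (nat_lit 1807) (nat_lit 119) (.e (nat_lit 516120) (nat_lit 1) (.e (nat_lit 164329) (nat_lit 230) (.e (nat_lit 163941) (nat_lit 19) .nil)))) (.g (nat_lit 0) (.e (nat_lit 100190) (nat_lit 0) .nil) .nil))) 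
(.lf (nat_lit 476718) (.g (nat_lit 5748) (.e (nat_lit 1801) (nat_lit 119) (.e (nat_lit 516166) (nat_lit 12) (.e (nat_lit 450587) (nat_lit 10) (.e (nat_lit 573475) (nat_lit 12) .nil)))) (.g (nat_lit 0) (.e (nat_lit 100934) (nat_lit 0) .nil) .nil)))) (.nd (nat_lit 9) 
(.lf (nat_lit 476462) (.g (nat_lit 1606) (.e (nat_lit 1800) (nat_lit 119) (.e (nat_lit 516115) (nat_lit 1) (.e (nat_lit 164325) (nat_lit 230) (.e (nat_lit 163907) (nat_lit 12) (.e (nat_lit 426568) (nat_lit 34) .nil))))) (.g (nat_lit 0) (.e (nat_lit 100578) (nat_lit 0) .nil) .nil))) 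
(.lf (nat_lit 476974) (.g (nat_lit 2175) (.e (nat_lit 1848) (nat_lit 124) (.e (nat_lit 557108) (nat_lit 15) (.e (nat_lit 188452) (nat_lit 23) (.e (nat_lit 204885) (nat_lit 33) (.e (nat_lit 401434) (nat_lit 9) .nil))))) (.g (nat_lit 0) (.e (nat_lit 101669) (nat_lit 0) .nil) .nil))))) (.nd (nat_lit 8) (.nd (nat_lit 9) 
(.lf (nat_lit 476334) (.g (nat_lit 2832) (.e (nat_lit 1797) (nat_lit 119) (.e (nat_lit 516138) (nat_lit 7) (.e (nat_lit 409646) (nat_lit 18) (.e (nat_lit 303117) (nat_lit 2) (.e (nat_lit 196674) (nat_lit 15) .nil))))) (.g (nat_lit 0) (.e (nat_lit 100396) (nat_lit 0) .nil) .nil))) 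
(.lf (nat_lit 476846) (.g (nat_lit 1948) (.e (nat_lit 1846) (nat_lit 124) (.e (nat_lit 557098) (nat_lit 13) (.e (nat_lit 172115) (nat_lit 10) (.e (nat_lit 434231) (nat_lit 23) (.e (nat_lit 532490) (nat_lit 0) .nil))))) (.g (nat_lit 0) (.e (nat_lit 101473) (nat_lit 0) .nil) .nil)))) (.nd (nat_lit 9) 
(.lf (nat_lit 476590) (.g (nat_lit 2834) (.e (nat_lit 1800) (nat_lit 119) (.e (nat_lit 516120) (nat_lit 1) (.e (nat_lit 164330) (nat_lit 230) (.e (nat_lit 163941) (nat_lit 19) (.e (nat_lit 491264) (nat_lit 11) (.e (nat_lit 442377) (nat_lit 0) .nil)))))) (.g (nat_lit 1) (.e (nat_lit 100745) (nat_lit 0) .nil) .nil))) 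
(.lf (nat_lit 477102) (.g (nat_lit 1766) (.e (nat_lit 1853) (nat_lit 124) (.e (nat_lit 557107) (nat_lit 15) (.e (nat_lit 188439) (nat_lit 20) (.e (nat_lit 3272) (nat_lit 199) (.e (nat_lit 548897) (nat_lit 14) (.e (nat_lit 3004) (nat_lit 186) (.e (nat_lit 450304) (nat_lit 0) .nil))))))) (.g (nat_lit 1) (.e (nat_lit 101822) (nat_lit 0) .nil) .nil)))))) 
(.nd (nat_lit 7) (.nd (nat_lit 8) (.nd (nat_lit 9) 
(.lf (nat_lit 476270) (.g (nat_lit 1238) (.e (nat_lit 1796) (nat_lit 119) (.e (nat_lit 516119) (nat_lit 1) (.e (nat_lit 164326) (nat_lit 230) (.e (nat_lit 163942) (nat_lit 19) .nil)))) (.g (nat_lit 0) (.e (nat_lit 100304) (nat_lit 0) .nil) .nil))) 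
(.lf (nat_lit 476782) (.g (nat_lit 2583) (.e (nat_lit 1803) (nat_lit 119) (.e (nat_lit 516179) (nat_lit 15) (.e (nat_lit 475177) (nat_lit 24) (.e (nat_lit 516150) (nat_lit 9) (.e (nat_lit 426438) (nat_lit 18) .nil))))) (.g (nat_lit 0) (.e (nat_lit 101019) (nat_lit 0) .nil) .nil)))) (.nd (nat_lit 9) 
(.lf (nat_lit 476526) (.g (nat_lit 4103) (.e (nat_lit 1800) (nat_lit 119) (.e (nat_lit 516117) (nat_lit 1) (.e (nat_lit 164403) (nat_lit 256) (.e (nat_lit 57378) (nat_lit 3) (.e (nat_lit 98367) (nat_lit 27) (.e (nat_lit 434231) (nat_lit 23) (.e (nat_lit 532514) (nat_lit 3) (.e (nat_lit 114708) (nat_lit 20) .nil)))))))) (.g (nat_lit 1) (.e (nat_lit 100672) (nat_lit 0) .nil) .nil))) 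
(.lf (nat_lit 477038) (.g (nat_lit 3233) (.e (nat_lit 1849) (nat_lit 124) (.e (nat_lit 557109) (nat_lit 15) (.e (nat_lit 188452) (nat_lit 23) (.e (nat_lit 204884) (nat_lit 33) .nil)))) (.g (nat_lit 0) (.e (nat_lit 101744) (nat_lit 0) .nil) .nil))))) (.nd (nat_lit 8) (.nd (nat_lit 9) 
(.lf (nat_lit 476398) (.g (nat_lit 2075) (.e (nat_lit 1799) (nat_lit 119) (.e (nat_lit 516120) (nat_lit 1) (.e (nat_lit 164329) (nat_lit 230) (.e (nat_lit 163941) (nat_lit 19) (.e (nat_lit 483341) (nat_lit 9) (.e (nat_lit 426200) (nat_lit 9) (.e (nat_lit 426363) (nat_lit 15) .nil))))))) (.g (nat_lit 1) (.e (nat_lit 100481) (nat_lit 0) .nil) .nil))) 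
(.lf (nat_lit 476910) (.g (nat_lit 3129) (.e (nat_lit 1848) (nat_lit 124) (.e (nat_lit 557097) (nat_lit 13) (.e (nat_lit 172115) (nat_lit 10) (.e (nat_lit 434231) (nat_lit 23) (.e (nat_lit 532490) (nat_lit 0) (.e (nat_lit 6674) (nat_lit 357) (.e (nat_lit 2940) (nat_lit 184) (.e (nat_lit 426401) (nat_lit 15) .nil)))))))) (.g (nat_lit 1) (.e (nat_lit 101605) (nat_lit 0) .nil) .nil)))) 
(.nd (nat_lit 9) 
(.lf (nat_lit 476654) (.g (nat_lit 2717) (.e (nat_lit 1800) (nat_lit 119) (.e (nat_lit 516139) (nat_lit 7) (.e (nat_lit 409649) (nat_lit 18) (.e (nat_lit 303116) (nat_lit 2) (.e (nat_lit 196674) (nat_lit 15) .nil))))) (.g (nat_lit 0) (.e (nat_lit 100821) (nat_lit 0) .nil) .nil))) 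
(.lf (nat_lit 477166) (.g (nat_lit 2687) (.e (nat_lit 1855) (nat_lit 124) (.e (nat_lit 557101) (nat_lit 13) (.e (nat_lit 172115) (nat_lit 10) (.e (nat_lit 434244) (nat_lit 28) (.e (nat_lit 573450) (nat_lit 9) (.e (nat_lit 457) (nat_lit 34) (.e (nat_lit 442377) (nat_lit 0) .nil))))))) (.g (nat_lit 1) (.e (nat_lit 101922) (nat_lit 0) .nil) .nil)))))))) 
(.nd (nat_lit 5) (.nd (nat_lit 6) (.nd (nat_lit 7) (.nd (nat_lit 8) (.nd (nat_lit 9) 
(.lf (nat_lit 476190) (.g (nat_lit 2923) (.e (nat_lit 1805) (nat_lit 119) (.e (nat_lit 516119) (nat_lit 1) (.e (nat_lit 164403) (nat_lit 256) (.e (nat_lit 57378) (nat_lit 3) (.e (nat_lit 98366) (nat_lit 27) .nil))))) (.g (nat_lit 0) (.e (nat_lit 100172) (nat_lit 0) .nil) .nil))) 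
(.lf (nat_lit 476702) (.g (nat_lit 2579) (.e (nat_lit 1801) (nat_lit 119) (.e (nat_lit 516139) (nat_lit 7) (.e (nat_lit 409648) (nat_lit 18) (.e (nat_lit 303117) (nat_lit 2) (.e (nat_lit 196674) (nat_lit 15) .nil))))) (.g (nat_lit 0) (.e (nat_lit 100914) (nat_lit 0) .nil) .nil)))) (.nd (nat_lit 9) 
(.lf (nat_lit 476446) (.g (nat_lit 3491) (.e (nat_lit 1800) (nat_lit 119) (.e (nat_lit 516115) (nat_lit 1) (.e (nat_lit 164325) (nat_lit 230) (.e (nat_lit 163903) (nat_lit 12) (.e (nat_lit 426479) (nat_lit 27) (.e (nat_lit 336430) (nat_lit 29) (.e (nat_lit 450304) (nat_lit 0) .nil))))))) (.g (nat_lit 1) (.e (nat_lit 100559) (nat_lit 0) .nil) .nil))) 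
(.lf (nat_lit 476958) (.g (nat_lit 2453) (.e (nat_lit 1848) (nat_lit 124) (.e (nat_lit 557108) (nat_lit 15) (.e (nat_lit 188449) (nat_lit 22) (.e (nat_lit 196661) (nat_lit 12) (.e (nat_lit 57748) (nat_lit 201) (.e (nat_lit 2936) (nat_lit 184) (.e (nat_lit 426401) (nat_lit 15) .nil))))))) (.g (nat_lit 1) (.e (nat_lit 101653) (nat_lit 0) .nil) .nil))))) (.nd (nat_lit 8) (.nd (nat_lit 9) 
(.lf (nat_lit 476318) (.g (nat_lit 1442) (.e (nat_lit 1797) (nat_lit 119) (.e (nat_lit 516117) (nat_lit 1) (.e (nat_lit 164329) (nat_lit 230) .nil))) (.g (nat_lit 0) (.e (nat_lit 100378) (nat_lit 0) .nil) .nil))) 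
(.lf (nat_lit 476830) (.g (nat_lit 1072) (.e (nat_lit 7936) (nat_lit 126) (.e (nat_lit 573474) (nat_lit 12) (.e (nat_lit 57528) (nat_lit 46) .nil))) (.g (nat_lit 0) (.e (nat_lit 101368) (nat_lit 0) .nil) .nil)))) (.nd (nat_lit 9) 
(.lf (nat_lit 476574) (.g (nat_lit 2828) (.e (nat_lit 1800) (nat_lit 119) (.e (nat_lit 516120) (nat_lit 1) (.e (nat_lit 164330) (nat_lit 230) (.e (nat_lit 163902) (nat_lit 12) (.e (nat_lit 426478) (nat_lit 27) (.e (nat_lit 336428) (nat_lit 29) (.e (nat_lit 442374) (nat_lit 0) .nil))))))) (.g (nat_lit 1) (.e (nat_lit 100729) (nat_lit 0) .nil) .nil))) 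
(.lf (nat_lit 477086) (.g (nat_lit 2902) (.e (nat_lit 1853) (nat_lit 124) (.e (nat_lit 557101) (nat_lit 13) (.e (nat_lit 172115) (nat_lit 10) (.e (nat_lit 434238) (nat_lit 25) (.e (nat_lit 548898) (nat_lit 14) (.e (nat_lit 3004) (nat_lit 186) (.e (nat_lit 450304) (nat_lit 0) .nil))))))) (.g (nat_lit 1) (.e (nat_lit 101805) (nat_lit 0) .nil) .nil)))))) 
(.nd (nat_lit 7) (.nd (nat_lit 8) (.nd (nat_lit 9) 
(.lf (nat_lit 476254) (.g (nat_lit 1825) (.e (nat_lit 1796) (nat_lit 119) (.e (nat_lit 516115) (nat_lit 1) (.e (nat_lit 164325) (nat_lit 230) (.e (nat_lit 163903) (nat_lit 12) .nil)))) (.g (nat_lit 0) (.e (nat_lit 100261) (nat_lit 0) .nil) .nil))) 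
(.lf (nat_lit 476766) (.g (nat_lit 2437) (.e (nat_lit 1803) (nat_lit 119) (.e (nat_lit 516119) (nat_lit 1) (.e (nat_lit 164403) (nat_lit 256) (.e (nat_lit 57371) (nat_lit 2) (.e (nat_lit 90174) (nat_lit 14) .nil))))) (.g (nat_lit 0) (.e (nat_lit 100996) (nat_lit 0) .nil) .nil)))) (.nd (nat_lit 9) 
(.lf (nat_lit 476510) (.g (nat_lit 2714) (.e (nat_lit 1800) (nat_lit 119) (.e (nat_lit 516117) (nat_lit 1) (.e (nat_lit 164398) (nat_lit 256) (.e (nat_lit 57378) (nat_lit 3) (.e (nat_lit 98368) (nat_lit 27) .nil))))) (.g (nat_lit 0) (.e (nat_lit 100655) (nat_lit 0) .nil) .nil))) 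
(.lf (nat_lit 477022) (.g (nat_lit 3894) (.e (nat_lit 1849) (nat_lit 124) (.e (nat_lit 557108) (nat_lit 15) (.e (nat_lit 188449) (nat_lit 22) (.e (nat_lit 196661) (nat_lit 12) (.e (nat_lit 57750) (nat_lit 201) (.e (nat_lit 2856) (nat_lit 184) (.e (nat_lit 426402) (nat_lit 15) .nil))))))) (.g (nat_lit 1) (.e (nat_lit 101728) (nat_lit 0) .nil) .nil))))) (.nd (nat_lit 8) (.nd (nat_lit 9) 
(.lf (nat_lit 476382) (.g (nat_lit 1576) (.e (nat_lit 1798) (nat_lit 119) (.e (nat_lit 516182) (nat_lit 15) (.e (nat_lit 475198) (nat_lit 40) (.e (nat_lit 704589) (nat_lit 3) (.e (nat_lit 163976) (nat_lit 30) (.e (nat_lit 573491) (nat_lit 15) (.e (nat_lit 81943) (nat_lit 20) .nil))))))) (.g (nat_lit 1) (.e (nat_lit 100463) (nat_lit 0) .nil) .nil))) 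
(.lf (nat_lit 476894) (.g (nat_lit 2934) (.e (nat_lit 1848) (nat_lit 124) (.e (nat_lit 557097) (nat_lit 13) (.e (nat_lit 172097) (nat_lit 9) (.e (nat_lit 426125) (nat_lit 2) (.e (nat_lit 196661) (nat_lit 12) (.e (nat_lit 57749) (nat_lit 201) (.e (nat_lit 2940) (nat_lit 184) (.e (nat_lit 426401) (nat_lit 15) .nil)))))))) (.g (nat_lit 1) (.e (nat_lit 101589) (nat_lit 0) .nil) .nil)))) 
(.nd (nat_lit 9) 
(.lf (nat_lit 476638) (.g (nat_lit 1309) (.e (nat_lit 1800) (nat_lit 119) (.e (nat_lit 516139) (nat_lit 7) (.e (nat_lit 409647) (nat_lit 18) (.e (nat_lit 303112) (nat_lit 0) .nil)))) (.g (nat_lit 0) (.e (nat_lit 100801) (nat_lit 0) .nil) .nil))) 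
(.lf (nat_lit 477150) (.g (nat_lit 3530) (.e (nat_lit 1855) (nat_lit 124) (.e (nat_lit 557098) (nat_lit 13) (.e (nat_lit 172115) (nat_lit 10) (.e (nat_lit 434244) (nat_lit 28) (.e (nat_lit 573450) (nat_lit 9) (.e (nat_lit 457) (nat_lit 34) (.e (nat_lit 442372) (nat_lit 0) .nil))))))) (.g (nat_lit 1) (.e (nat_lit 101906) (nat_lit 0) .nil) .nil))))))) 
(.nd (nat_lit 6) (.nd (nat_lit 7) (.nd (nat_lit 8) (.nd (nat_lit 9) 
(.lf (nat_lit 476222) (.g (nat_lit 2139) (.e (nat_lit 1795) (nat_lit 119) (.e (nat_lit 516119) (nat_lit 1) (.e (nat_lit 164403) (nat_lit 256) (.e (nat_lit 57370) (nat_lit 2) (.e (nat_lit 90172) (nat_lit 14) .nil))))) (.g (nat_lit 0) (.e (nat_lit 100209) (nat_lit 0) .nil) .nil))) 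
(.lf (nat_lit 476734) (.g (nat_lit 2133) (.e (nat_lit 1802) (nat_lit 119) (.e (nat_lit 516117) (nat_lit 1) (.e (nat_lit 164329) (nat_lit 230) (.e (nat_lit 163941) (nat_lit 19) .nil)))) (.g (nat_lit 0) (.e (nat_lit 100957) (nat_lit 0) .nil) .nil)))) (.nd (nat_lit 9) 
(.lf (nat_lit 476478) (.g (nat_lit 2263) (.e (nat_lit 1800) (nat_lit 119) (.e (nat_lit 516115) (nat_lit 1) (.e (nat_lit 164399) (nat_lit 256) (.e (nat_lit 57371) (nat_lit 2) (.e (nat_lit 90172) (nat_lit 14) .nil))))) (.g (nat_lit 0) (.e (nat_lit 100616) (nat_lit 0) .nil) .nil))) 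
(.lf (nat_lit 476990) (.g (nat_lit 1720) (.e (nat_lit 1849) (nat_lit 124) (.e (nat_lit 557097) (nat_lit 13) (.e (nat_lit 172097) (nat_lit 9) (.e (nat_lit 426125) (nat_lit 2) (.e (nat_lit 196661) (nat_lit 12) (.e (nat_lit 57749) (nat_lit 201) (.e (nat_lit 2936) (nat_lit 184) (.e (nat_lit 433920) (nat_lit 15) .nil)))))))) (.g (nat_lit 1) (.e (nat_lit 101694) (nat_lit 0) .nil) .nil))))) 
(.nd (nat_lit 8) (.nd (nat_lit 9) 
(.lf (nat_lit 476350) (.g (nat_lit 1115) (.e (nat_lit 1798) (nat_lit 119) (.e (nat_lit 516126) (nat_lit 2) (.e (nat_lit 213032) (nat_lit 11) (.e (nat_lit 24609) (nat_lit 3) (.e (nat_lit 98380) (nat_lit 31) (.e (nat_lit 466947) (nat_lit 0) .nil)))))) (.g (nat_lit 1) (.e (nat_lit 100422) (nat_lit 0) .nil) .nil))) 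
(.lf (nat_lit 476862) (.g (nat_lit 3178) (.e (nat_lit 1846) (nat_lit 124) (.e (nat_lit 557108) (nat_lit 15) (.e (nat_lit 188452) (nat_lit 23) (.e (nat_lit 204885) (nat_lit 33) .nil)))) (.g (nat_lit 0) (.e (nat_lit 101489) (nat_lit 0) .nil) .nil)))) (.nd (nat_lit 9) 
(.lf (nat_lit 476606) (.g (nat_lit 3067) (.e (nat_lit 1800) (nat_lit 119) (.e (nat_lit 516120) (nat_lit 1) (.e (nat_lit 164403) (nat_lit 256) (.e (nat_lit 57378) (nat_lit 3) (.e (nat_lit 98367) (nat_lit 27) (.e (nat_lit 434231) (nat_lit 23) (.e (nat_lit 532513) (nat_lit 3) (.e (nat_lit 114708) (nat_lit 20) .nil)))))))) (.g (nat_lit 1) (.e (nat_lit 100764) (nat_lit 0) .nil) .nil))) 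
(.lf (nat_lit 477118) (.g (nat_lit 3546) (.e (nat_lit 1853) (nat_lit 124) (.e (nat_lit 557108) (nat_lit 15) (.e (nat_lit 188452) (nat_lit 23) (.e (nat_lit 204846) (nat_lit 24) (.e (nat_lit 319504) (nat_lit 10) (.e (nat_lit 5712) (nat_lit 312) (.e (nat_lit 42) (nat_lit 0) .nil))))))) (.g (nat_lit 1) (.e (nat_lit 101838) (nat_lit 0) .nil) .nil)))))) 
(.nd (nat_lit 7) (.nd (nat_lit 8) (.nd (nat_lit 9) 
(.lf (nat_lit 476286) (.g (nat_lit 1094) (.e (nat_lit 1796) (nat_lit 119) (.e (nat_lit 516139) (nat_lit 7) (.e (nat_lit 409623) (nat_lit 10) (.e (nat_lit 5664) (nat_lit 312) .nil)))) (.g (nat_lit 0) (.e (nat_lit 100327) (nat_lit 0) .nil) .nil))) 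
(.lf (nat_lit 476798) (.g (nat_lit 4239) (.e (nat_lit 1812) (nat_lit 120) (.e (nat_lit 524319) (nat_lit 11) (.e (nat_lit 442411) (nat_lit 20) (.e (nat_lit 3272) (nat_lit 199) (.e (nat_lit 548913) (nat_lit 18) (.e (nat_lit 172126) (nat_lit 14) (.e (nat_lit 491524) (nat_lit 0) .nil))))))) (.g (nat_lit 1) (.e (nat_lit 101042) (nat_lit 0) .nil) .nil)))) (.nd (nat_lit 9) 
(.lf (nat_lit 476542) (.g (nat_lit 1527) (.e (nat_lit 1800) (nat_lit 119) (.e (nat_lit 516119) (nat_lit 1) (.e (nat_lit 164331) (nat_lit 230) (.e (nat_lit 163942) (nat_lit 19) .nil)))) (.g (nat_lit 0) (.e (nat_lit 100690) (nat_lit 0) .nil) .nil))) 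
(.lf (nat_lit 477054) (.g (nat_lit 3152) (.e (nat_lit 1853) (nat_lit 124) (.e (nat_lit 557097) (nat_lit 13) (.e (nat_lit 172115) (nat_lit 10) (.e (nat_lit 434244) (nat_lit 28) (.e (nat_lit 573450) (nat_lit 9) (.e (nat_lit 455) (nat_lit 34) (.e (nat_lit 442373) (nat_lit 0) .nil))))))) (.g (nat_lit 1) (.e (nat_lit 101773) (nat_lit 0) .nil) .nil))))) (.nd (nat_lit 8) (.nd (nat_lit 9) 
(.lf (nat_lit 476414) (.g (nat_lit 2689) (.e (nat_lit 1799) (nat_lit 119) (.e (nat_lit 516139) (nat_lit 7) (.e (nat_lit 409646) (nat_lit 18) (.e (nat_lit 303117) (nat_lit 2) (.e (nat_lit 196674) (nat_lit 15) (.e (nat_lit 81944) (nat_lit 20) .nil)))))) (.g (nat_lit 1) (.e (nat_lit 100498) (nat_lit 0) .nil) .nil))) 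
(.lf (nat_lit 476926) (.g (nat_lit 3221) (.e (nat_lit 1848) (nat_lit 124) (.e (nat_lit 557097) (nat_lit 13) (.e (nat_lit 172115) (nat_lit 10) (.e (nat_lit 434238) (nat_lit 25) (.e (nat_lit 548898) (nat_lit 14) (.e (nat_lit 3004) (nat_lit 186) (.e (nat_lit 450304) (nat_lit 0) .nil))))))) (.g (nat_lit 1) (.e (nat_lit 101621) (nat_lit 0) .nil) .nil)))) (.nd (nat_lit 9) 
(.lf (nat_lit 476670) (.g (nat_lit 3189) (.e (nat_lit 1800) (nat_lit 119) (.e (nat_lit 516182) (nat_lit 15) (.e (nat_lit 475197) (nat_lit 40) (.e (nat_lit 704589) (nat_lit 3) (.e (nat_lit 163978) (nat_lit 30) (.e (nat_lit 573491) (nat_lit 15) (.e (nat_lit 89856) (nat_lit 20) .nil))))))) (.g (nat_lit 1) (.e (nat_lit 100862) (nat_lit 0) .nil) .nil))) 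
(.lf (nat_lit 477182) (.g (nat_lit 3110) (.e (nat_lit 1855) (nat_lit 124) (.e (nat_lit 557107) (nat_lit 15) (.e (nat_lit 188450) (nat_lit 23) (.e (nat_lit 204880) (nat_lit 32) (.e (nat_lit 385104) (nat_lit 50) .nil))))) (.g (nat_lit 0) (.e (nat_lit 101938) (nat_lit 0) .nil) .nil)))))))))))) 
(.nd (nat_lit 1) (.nd (nat_lit 2) (.nd (nat_lit 3) (.nd (nat_lit 4) (.nd (nat_lit 5) 
(.nd (nat_lit 6) (.nd (nat_lit 7) (.nd (nat_lit 8) (.nd (nat_lit 9) 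
(.lf (nat_lit 476161) (.g (nat_lit 1994) (.e (nat_lit 1794) (nat_lit 119) (.e (nat_lit 516115) (nat_lit 1) (.e (nat_lit 164399) (nat_lit 256) (.e (nat_lit 57375) (nat_lit 2) (.e (nat_lit 90174) (nat_lit 14) .nil))))) (.g (nat_lit 0) (.e (nat_lit 100129) (nat_lit 0) .nil) .nil))) 
(.lf (nat_lit 476673) (.g (nat_lit 4313) (.e (nat_lit 1800) (nat_lit 119) (.e (nat_lit 516182) (nat_lit 15) (.e (nat_lit 475198) (nat_lit 40) (.e (nat_lit 704589) (nat_lit 3) (.e (nat_lit 163978) (nat_lit 30) (.e (nat_lit 573491) (nat_lit 15) (.e (nat_lit 89856) (nat_lit 20) .nil))))))) (.g (nat_lit 1) (.e (nat_lit 100867) (nat_lit 0) .nil) .nil)))) (.nd (nat_lit 9) 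
(.lf (nat_lit 476417) (.g (nat_lit 588) (.e (nat_lit 1799) (nat_lit 119) (.e (nat_lit 516150) (nat_lit 9) (.e (nat_lit 426227) (nat_lit 9) .nil))) (.g (nat_lit 0) (.e (nat_lit 100509) (nat_lit 0) .nil) .nil))) 
(.lf (nat_lit 476929) (.g (nat_lit 3354) (.e (nat_lit 1848) (nat_lit 124) (.e (nat_lit 557097) (nat_lit 13) (.e (nat_lit 172115) (nat_lit 10) (.e (nat_lit 434244) (nat_lit 28) (.e (nat_lit 573449) (nat_lit 9) (.e (nat_lit 430) (nat_lit 32) (.e (nat_lit 426198) (nat_lit 9) (.e (nat_lit 426402) (nat_lit 15) .nil)))))))) (.g (nat_lit 1) (.e (nat_lit 101624) (nat_lit 0) .nil) .nil))))) 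
(.nd (nat_lit 8) (.nd (nat_lit 9) 
(.lf (nat_lit 476289) (.g (nat_lit 2037) (.e (nat_lit 1796) (nat_lit 119) (.e (nat_lit 516139) (nat_lit 7) (.e (nat_lit 409647) (nat_lit 18) (.e (nat_lit 303118) (nat_lit 3) (.e (nat_lit 204866) (nat_lit 28) .nil))))) (.g (nat_lit 0) (.e (nat_lit 100330) (nat_lit 0) .nil) .nil))) 
(.lf (nat_lit 476801) (.g (nat_lit 1484) (.e (nat_lit 1812) (nat_lit 120) (.e (nat_lit 524322) (nat_lit 12) (.e (nat_lit 450588) (nat_lit 10) (.e (nat_lit 573474) (nat_lit 12) (.e (nat_lit 57572) (nat_lit 54) .nil))))) (.g (nat_lit 0) (.e (nat_lit 101049) (nat_lit 0) .nil) .nil)))) (.nd (nat_lit 9) 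
(.lf (nat_lit 476545) (.g (nat_lit 2251) (.e (nat_lit 1800) (nat_lit 119) (.e (nat_lit 516119) (nat_lit 1) (.e (nat_lit 164401) (nat_lit 256) (.e (nat_lit 57377) (nat_lit 3) (.e (nat_lit 98357) (nat_lit 26) .nil))))) (.g (nat_lit 0) (.e (nat_lit 100694) (nat_lit 0) .nil) .nil))) 
(.lf (nat_lit 477057) (.g (nat_lit 3104) (.e (nat_lit 1853) (nat_lit 124) (.e (nat_lit 557097) (nat_lit 13) (.e (nat_lit 172115) (nat_lit 10) (.e (nat_lit 434244) (nat_lit 28) (.e (nat_lit 573458) (nat_lit 9) (.e (nat_lit 7936) (nat_lit 34) (.e (nat_lit 442373) (nat_lit 0) .nil))))))) (.g (nat_lit 1) (.e (nat_lit 101776) (nat_lit 0) .nil) .nil)))))) 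
(.nd (nat_lit 7) (.nd (nat_lit 8) (.nd (nat_lit 9) 
(.lf (nat_lit 476225) (.g (nat_lit 2743) (.e (nat_lit 1795) (nat_lit 119) (.e (nat_lit 516119) (nat_lit 1) (.e (nat_lit 164403) (nat_lit 256) (.e (nat_lit 57373) (nat_lit 2) (.e (nat_lit 90168) (nat_lit 13) .nil))))) (.g (nat_lit 0) (.e (nat_lit 100212) (nat_lit 0) .nil) .nil))) 
(.lf (nat_lit 476737) (.g (nat_lit 2136) (.e (nat_lit 1802) (nat_lit 119) (.e (nat_lit 516120) (nat_lit 1) (.e (nat_lit 164329) (nat_lit 230) (.e (nat_lit 163941) (nat_lit 19) .nil)))) (.g (nat_lit 0) (.e (nat_lit 100961) (nat_lit 0) .nil) .nil)))) (.nd (nat_lit 9) 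
(.lf (nat_lit 476481) (.g (nat_lit 2555) (.e (nat_lit 1800) (nat_lit 119) (.e (nat_lit 516115) (nat_lit 1) (.e (nat_lit 164399) (nat_lit 256) (.e (nat_lit 57377) (nat_lit 3) (.e (nat_lit 98376) (nat_lit 30) .nil))))) (.g (nat_lit 0) (.e (nat_lit 100621) (nat_lit 0) .nil) .nil))) 
(.lf (nat_lit 476993) (.g (nat_lit 3082) (.e (nat_lit 1849) (nat_lit 124) (.e (nat_lit 557097) (nat_lit 13) (.e (nat_lit 172115) (nat_lit 10) (.e (nat_lit 434231) (nat_lit 23) (.e (nat_lit 532481) (nat_lit 0) (.e (nat_lit 6684) (nat_lit 357) (.e (nat_lit 2856) (nat_lit 184) (.e (nat_lit 426402) (nat_lit 15) .nil)))))))) (.g (nat_lit 1) (.e (nat_lit 101697) (nat_lit 0) .nil) .nil))))) 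
(.nd (nat_lit 8) (.nd (nat_lit 9) 
(.lf (nat_lit 476353) (.g (nat_lit 1153) (.e (nat_lit 1798) (nat_lit 119) (.e (nat_lit 516127) (nat_lit 2) (.e (nat_lit 213032) (nat_lit 11) (.e (nat_lit 24609) (nat_lit 3) (.e (nat_lit 98381) (nat_lit 31) (.e (nat_lit 466947) (nat_lit 0) .nil)))))) (.g (nat_lit 1) (.e (nat_lit 100425) (nat_lit 0) .nil) .nil))) 
(.lf (nat_lit 476865) (.g (nat_lit 5164) (.e (nat_lit 1846) (nat_lit 124) (.e (nat_lit 557109) (nat_lit 15) (.e (nat_lit 188452) (nat_lit 23) (.e (nat_lit 204884) (nat_lit 33) .nil)))) (.g (nat_lit 0) (.e (nat_lit 101492) (nat_lit 0) .nil) .nil)))) (.nd (nat_lit 9) 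
(.lf (nat_lit 476609) (.g (nat_lit 1901) (.e (nat_lit 1800) (nat_lit 119) (.e (nat_lit 516122) (nat_lit 2) (.e (nat_lit 213032) (nat_lit 11) (.e (nat_lit 24604) (nat_lit 2) (.e (nat_lit 90176) (nat_lit 15) (.e (nat_lit 188420) (nat_lit 0) .nil)))))) (.g (nat_lit 1) (.e (nat_lit 100767) (nat_lit 0) .nil) .nil))) 
(.lf (nat_lit 477121) (.g (nat_lit 2102) (.e (nat_lit 1853) (nat_lit 124) (.e (nat_lit 557108) (nat_lit 15) (.e (nat_lit 188452) (nat_lit 23) (.e (nat_lit 204885) (nat_lit 33) .nil)))) (.g (nat_lit 0) (.e (nat_lit 101841) (nat_lit 0) .nil) .nil))))))) (.nd (nat_lit 6) (.nd (nat_lit 7) (.nd (nat_lit 8) (.nd (nat_lit 9) 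
(.lf (nat_lit 476193) (.g (nat_lit 2007) (.e (nat_lit 1805) (nat_lit 119) (.e (nat_lit 516120) (nat_lit 1) (.e (nat_lit 164329) (nat_lit 230) (.e (nat_lit 163941) (nat_lit 19) .nil)))) (.g (nat_lit 0) (.e (nat_lit 100176) (nat_lit 0) .nil) .nil))) 
(.lf (nat_lit 476705) (.g (nat_lit 1643) (.e (nat_lit 1801) (nat_lit 119) (.e (nat_lit 516139) (nat_lit 7) (.e (nat_lit 409649) (nat_lit 18) (.e (nat_lit 303116) (nat_lit 2) .nil)))) (.g (nat_lit 0) (.e (nat_lit 100919) (nat_lit 0) .nil) .nil)))) (.nd (nat_lit 9) 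
(.lf (nat_lit 476449) (.g (nat_lit 2335) (.e (nat_lit 1800) (nat_lit 119) (.e (nat_lit 516115) (nat_lit 1) (.e (nat_lit 164325) (nat_lit 230) (.e (nat_lit 163903) (nat_lit 12) (.e (nat_lit 426568) (nat_lit 34) (.e (nat_lit 393267) (nat_lit 23) (.e (nat_lit 426382) (nat_lit 15) .nil))))))) (.g (nat_lit 1) (.e (nat_lit 100564) (nat_lit 0) .nil) .nil))) 
(.lf (nat_lit 476961) (.g (nat_lit 2263) (.e (nat_lit 1848) (nat_lit 124) (.e (nat_lit 557108) (nat_lit 15) (.e (nat_lit 188449) (nat_lit 22) (.e (nat_lit 196661) (nat_lit 12) (.e (nat_lit 57749) (nat_lit 201) (.e (nat_lit 2936) (nat_lit 184) (.e (nat_lit 426401) (nat_lit 15) .nil))))))) (.g (nat_lit 1) (.e (nat_lit 101656) (nat_lit 0) .nil) .nil))))) (.nd (nat_lit 8) (.nd (nat_lit 9) 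
(.lf (nat_lit 476321) (.g (nat_lit 2269) (.e (nat_lit 1797) (nat_lit 119) (.e (nat_lit 516119) (nat_lit 1) (.e (nat_lit 164403) (nat_lit 256) (.e (nat_lit 57370) (nat_lit 2) (.e (nat_lit 90172) (nat_lit 14) .nil))))) (.g (nat_lit 0) (.e (nat_lit 100381) (nat_lit 0) .nil) .nil))) 
(.lf (nat_lit 476833) (.g (nat_lit 1330) (.e (nat_lit 7936) (nat_lit 126) (.e (nat_lit 573489) (nat_lit 14) (.e (nat_lit 73755) (nat_lit 8) (.e (nat_lit 557098) (nat_lit 13) .nil)))) (.g (nat_lit 0) (.e (nat_lit 101402) (nat_lit 0) .nil) .nil)))) (.nd (nat_lit 9) 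
(.lf (nat_lit 476577) (.g (nat_lit 2573) (.e (nat_lit 1800) (nat_lit 119) (.e (nat_lit 516120) (nat_lit 1) (.e (nat_lit 164330) (nat_lit 230) (.e (nat_lit 163902) (nat_lit 12) (.e (nat_lit 426479) (nat_lit 27) (.e (nat_lit 336427) (nat_lit 29) (.e (nat_lit 442374) (nat_lit 0) .nil))))))) (.g (nat_lit 1) (.e (nat_lit 100732) (nat_lit 0) .nil) .nil))) 
(.lf (nat_lit 477089) (.g (nat_lit 3311) (.e (nat_lit 1853) (nat_lit 124) (.e (nat_lit 557101) (nat_lit 13) (.e (nat_lit 172115) (nat_lit 10) (.e (nat_lit 434244) (nat_lit 28) (.e (nat_lit 573450) (nat_lit 9) (.e (nat_lit 457) (nat_lit 34) (.e (nat_lit 450304) (nat_lit 0) .nil))))))) (.g (nat_lit 1) (.e (nat_lit 101808) (nat_lit 0) .nil) .nil)))))) 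
(.nd (nat_lit 7) (.nd (nat_lit 8) (.nd (nat_lit 9) 
(.lf (nat_lit 476257) (.g (nat_lit 2814) (.e (nat_lit 1796) (nat_lit 119) (.e (nat_lit 516115) (nat_lit 1) (.e (nat_lit 164325) (nat_lit 230) (.e (nat_lit 163904) (nat_lit 12) .nil)))) (.g (nat_lit 0) (.e (nat_lit 100264) (nat_lit 0) .nil) .nil))) 
(.lf (nat_lit 476769) (.g (nat_lit 1370) (.e (nat_lit 1803) (nat_lit 119) (.e (nat_lit 516120) (nat_lit 1) (.e (nat_lit 164329) (nat_lit 230) .nil))) (.g (nat_lit 0) (.e (nat_lit 100999) (nat_lit 0) .nil) .nil)))) (.nd (nat_lit 9) 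
(.lf (nat_lit 476513) (.g (nat_lit 2330) (.e (nat_lit 1800) (nat_lit 119) (.e (nat_lit 516117) (nat_lit 1) (.e (nat_lit 164399) (nat_lit 256) (.e (nat_lit 57375) (nat_lit 2) (.e (nat_lit 90168) (nat_lit 13) .nil))))) (.g (nat_lit 0) (.e (nat_lit 100658) (nat_lit 0) .nil) .nil))) 
(.lf (nat_lit 477025) (.g (nat_lit 3148) (.e (nat_lit 1849) (nat_lit 124) (.e (nat_lit 557108) (nat_lit 15) (.e (nat_lit 188449) (nat_lit 22) (.e (nat_lit 196661) (nat_lit 12) (.e (nat_lit 57751) (nat_lit 201) (.e (nat_lit 2856) (nat_lit 184) (.e (nat_lit 426402) (nat_lit 15) .nil))))))) (.g (nat_lit 1) (.e (nat_lit 101731) (nat_lit 0) .nil) .nil))))) (.nd (nat_lit 8) (.nd (nat_lit 9) 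
(.lf (nat_lit 476385) (.g (nat_lit 2627) (.e (nat_lit 1799) (nat_lit 119) (.e (nat_lit 516115) (nat_lit 1) (.e (nat_lit 164325) (nat_lit 230) (.e (nat_lit 163941) (nat_lit 19) (.e (nat_lit 483341) (nat_lit 9) (.e (nat_lit 426198) (nat_lit 9) (.e (nat_lit 426364) (nat_lit 15) .nil))))))) (.g (nat_lit 1) (.e (nat_lit 100467) (nat_lit 0) .nil) .nil))) 
(.lf (nat_lit 476897) (.g (nat_lit 3682) (.e (nat_lit 1848) (nat_lit 124) (.e (nat_lit 557097) (nat_lit 13) (.e (nat_lit 172097) (nat_lit 9) (.e (nat_lit 426125) (nat_lit 2) (.e (nat_lit 196661) (nat_lit 12) (.e (nat_lit 57750) (nat_lit 201) (.e (nat_lit 2854) (nat_lit 184) (.e (nat_lit 426402) (nat_lit 15) .nil)))))))) (.g (nat_lit 1) (.e (nat_lit 101592) (nat_lit 0) .nil) .nil)))) 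
(.nd (nat_lit 9) 
(.lf (nat_lit 476641) (.g (nat_lit 1711) (.e (nat_lit 1800) (nat_lit 119) (.e (nat_lit 516139) (nat_lit 7) (.e (nat_lit 409648) (nat_lit 18) (.e (nat_lit 303109) (nat_lit 0) .nil)))) (.g (nat_lit 0) (.e (nat_lit 100805) (nat_lit 0) .nil) .nil))) 
(.lf (nat_lit 477153) (.g (nat_lit 2273) (.e (nat_lit 1855) (nat_lit 124) (.e (nat_lit 557098) (nat_lit 13) (.e (nat_lit 172115) (nat_lit 10) (.e (nat_lit 434244) (nat_lit 28) (.e (nat_lit 573458) (nat_lit 9) (.e (nat_lit 7936) (nat_lit 34) (.e (nat_lit 442378) (nat_lit 0) .nil))))))) (.g (nat_lit 1) (.e (nat_lit 101909) (nat_lit 0) .nil) .nil)))))))) 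
(.nd (nat_lit 5) (.nd (nat_lit 6) (.nd (nat_lit 7) (.nd (nat_lit 8) (.nd (nat_lit 9) 
(.lf (nat_lit 476177) (.g (nat_lit 2269) (.e (nat_lit 1804) (nat_lit 119) (.e (nat_lit 516119) (nat_lit 1) (.e (nat_lit 164403) (nat_lit 256) (.e (nat_lit 57370) (nat_lit 2) (.e (nat_lit 90172) (nat_lit 14) .nil))))) (.g (nat_lit 0) (.e (nat_lit 100157) (nat_lit 0) .nil) .nil))) 
(.lf (nat_lit 476689) (.g (nat_lit 1988) (.e (nat_lit 1801) (nat_lit 119) (.e (nat_lit 516120) (nat_lit 1) (.e (nat_lit 164330) (nat_lit 230) (.e (nat_lit 163941) (nat_lit 19) (.e (nat_lit 483341) (nat_lit 9) (.e (nat_lit 426198) (nat_lit 9) (.e (nat_lit 426360) (nat_lit 15) .nil))))))) (.g (nat_lit 1) (.e (nat_lit 100890) (nat_lit 0) .nil) .nil)))) (.nd (nat_lit 9) 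
(.lf (nat_lit 476433) (.g (nat_lit 2082) (.e (nat_lit 1800) (nat_lit 119) (.e (nat_lit 516115) (nat_lit 1) (.e (nat_lit 164325) (nat_lit 230) (.e (nat_lit 163851) (nat_lit 0) .nil)))) (.g (nat_lit 0) (.e (nat_lit 100543) (nat_lit 0) .nil) .nil))) 
(.lf (nat_lit 476945) (.g (nat_lit 2215) (.e (nat_lit 1848) (nat_lit 124) (.e (nat_lit 557107) (nat_lit 15) (.e (nat_lit 188447) (nat_lit 22) (.e (nat_lit 196661) (nat_lit 12) (.e (nat_lit 57748) (nat_lit 201) (.e (nat_lit 2940) (nat_lit 184) (.e (nat_lit 433920) (nat_lit 15) .nil))))))) (.g (nat_lit 1) (.e (nat_lit 101640) (nat_lit 0) .nil) .nil))))) (.nd (nat_lit 8) (.nd (nat_lit 9) 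
(.lf (nat_lit 476305) (.g (nat_lit 4042) (.e (nat_lit 1796) (nat_lit 119) (.e (nat_lit 516166) (nat_lit 12) (.e (nat_lit 450588) (nat_lit 10) (.e (nat_lit 573477) (nat_lit 12) .nil)))) (.g (nat_lit 0) (.e (nat_lit 100363) (nat_lit 0) .nil) .nil))) 
(.lf (nat_lit 476817) (.g (nat_lit 2660) (.e (nat_lit 1842) (nat_lit 123) (.e (nat_lit 548889) (nat_lit 9) (.e (nat_lit 65630) (nat_lit 14) (.e (nat_lit 401412) (nat_lit 0) (.e (nat_lit 3114) (nat_lit 193) .nil))))) (.g (nat_lit 0) (.e (nat_lit 101136) (nat_lit 0) .nil) .nil)))) (.nd (nat_lit 9) 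
(.lf (nat_lit 476561) (.g (nat_lit 1343) (.e (nat_lit 1800) (nat_lit 119) (.e (nat_lit 516120) (nat_lit 1) (.e (nat_lit 164322) (nat_lit 230) (.e (nat_lit 163942) (nat_lit 19) .nil)))) (.g (nat_lit 0) (.e (nat_lit 100713) (nat_lit 0) .nil) .nil))) 
(.lf (nat_lit 477073) (.g (nat_lit 1714) (.e (nat_lit 1853) (nat_lit 124) (.e (nat_lit 557100) (nat_lit 13) (.e (nat_lit 172113) (nat_lit 10) (.e (nat_lit 434245) (nat_lit 28) (.e (nat_lit 573471) (nat_lit 11) .nil))))) (.g (nat_lit 0) (.e (nat_lit 101792) (nat_lit 0) .nil) .nil)))))) (.nd (nat_lit 7) (.nd (nat_lit 8) (.nd (nat_lit 9) 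
(.lf (nat_lit 476241) (.g (nat_lit 2871) (.e (nat_lit 1795) (nat_lit 119) (.e (nat_lit 516131) (nat_lit 3) (.e (nat_lit 221215) (nat_lit 23) (.e (nat_lit 204861) (nat_lit 26) (.e (nat_lit 336026) (nat_lit 3) .nil))))) (.g (nat_lit 0) (.e (nat_lit 100229) (nat_lit 0) .nil) .nil))) 
(.lf (nat_lit 476753) (.g (nat_lit 2040) (.e (nat_lit 1802) (nat_lit 119) (.e (nat_lit 516179) (nat_lit 15) (.e (nat_lit 475199) (nat_lit 40) (.e (nat_lit 704589) (nat_lit 3) (.e (nat_lit 163976) (nat_lit 30) (.e (nat_lit 573491) (nat_lit 15) (.e (nat_lit 81943) (nat_lit 20) .nil))))))) (.g (nat_lit 1) (.e (nat_lit 100981) (nat_lit 0) .nil) .nil)))) (.nd (nat_lit 9) 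
(.lf (nat_lit 476497) (.g (nat_lit 2843) (.e (nat_lit 1800) (nat_lit 119) (.e (nat_lit 516117) (nat_lit 1) (.e (nat_lit 164330) (nat_lit 230) (.e (nat_lit 163941) (nat_lit 19) (.e (nat_lit 491264) (nat_lit 11) (.e (nat_lit 442379) (nat_lit 0) .nil)))))) (.g (nat_lit 1) (.e (nat_lit 100641) (nat_lit 0) .nil) .nil))) 
(.lf (nat_lit 477009) (.g (nat_lit 2008) (.e (nat_lit 1849) (nat_lit 124) (.e (nat_lit 557098) (nat_lit 13) (.e (nat_lit 172115) (nat_lit 10) (.e (nat_lit 434231) (nat_lit 23) (.e (nat_lit 532569) (nat_lit 16) .nil))))) (.g (nat_lit 0) (.e (nat_lit 101713) (nat_lit 0) .nil) .nil))))) (.nd (nat_lit 8) (.nd (nat_lit 9) 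
(.lf (nat_lit 476369) (.g (nat_lit 4093) (.e (nat_lit 1798) (nat_lit 119) (.e (nat_lit 516166) (nat_lit 12) (.e (nat_lit 450587) (nat_lit 10) (.e (nat_lit 573478) (nat_lit 12) .nil)))) (.g (nat_lit 0) (.e (nat_lit 100443) (nat_lit 0) .nil) .nil))) 
(.lf (nat_lit 476881) (.g (nat_lit 4254) (.e (nat_lit 1848) (nat_lit 124) (.e (nat_lit 557087) (nat_lit 11) (.e (nat_lit 24625) (nat_lit 9) (.e (nat_lit 336258) (nat_lit 15) .nil)))) (.g (nat_lit 0) (.e (nat_lit 101556) (nat_lit 0) .nil) .nil)))) (.nd (nat_lit 9) 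
(.lf (nat_lit 476625) (.g (nat_lit 3121) (.e (nat_lit 1800) (nat_lit 119) (.e (nat_lit 516138) (nat_lit 7) (.e (nat_lit 409645) (nat_lit 18) (.e (nat_lit 303112) (nat_lit 0) (.e (nat_lit 3252) (nat_lit 197) .nil))))) (.g (nat_lit 0) (.e (nat_lit 100785) (nat_lit 0) .nil) .nil))) 
(.lf (nat_lit 477137) (.g (nat_lit 3537) (.e (nat_lit 1855) (nat_lit 124) (.e (nat_lit 557070) (nat_lit 9) (.e (nat_lit 2744) (nat_lit 174) (.e (nat_lit 253991) (nat_lit 11) (.e (nat_lit 16416) (nat_lit 3) (.e (nat_lit 204877) (nat_lit 31) (.e (nat_lit 376855) (nat_lit 20) .nil))))))) (.g (nat_lit 1) (.e (nat_lit 101864) (nat_lit 0) .nil) .nil))))))) 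
(.nd (nat_lit 6) (.nd (nat_lit 7) (.nd (nat_lit 8) (.nd (nat_lit 9) 
(.lf (nat_lit 476209) (.g (nat_lit 2182) (.e (nat_lit 1795) (nat_lit 119) (.e (nat_lit 516115) (nat_lit 1) (.e (nat_lit 164399) (nat_lit 256) (.e (nat_lit 57373) (nat_lit 2) (.e (nat_lit 90172) (nat_lit 14) .nil))))) (.g (nat_lit 0) (.e (nat_lit 100196) (nat_lit 0) .nil) .nil))) 
(.lf (nat_lit 476721) (.g (nat_lit 4314) (.e (nat_lit 1801) (nat_lit 119) (.e (nat_lit 516166) (nat_lit 12) (.e (nat_lit 450588) (nat_lit 10) (.e (nat_lit 573475) (nat_lit 12) .nil)))) (.g (nat_lit 0) (.e (nat_lit 100937) (nat_lit 0) .nil) .nil)))) (.nd (nat_lit 9) 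
(.lf (nat_lit 476465) (.g (nat_lit 2676) (.e (nat_lit 1800) (nat_lit 119) (.e (nat_lit 516115) (nat_lit 1) (.e (nat_lit 164325) (nat_lit 230) (.e (nat_lit 163907) (nat_lit 12) (.e (nat_lit 426568) (nat_lit 34) (.e (nat_lit 393281) (nat_lit 23) (.e (nat_lit 426410) (nat_lit 15) .nil))))))) (.g (nat_lit 1) (.e (nat_lit 100581) (nat_lit 0) .nil) .nil))) 
(.lf (nat_lit 476977) (.g (nat_lit 5683) (.e (nat_lit 1848) (nat_lit 124) (.e (nat_lit 557109) (nat_lit 15) (.e (nat_lit 188452) (nat_lit 23) (.e (nat_lit 204885) (nat_lit 33) .nil)))) (.g (nat_lit 0) (.e (nat_lit 101672) (nat_lit 0) .nil) .nil))))) (.nd (nat_lit 8) (.nd (nat_lit 9) 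
(.lf (nat_lit 476337) (.g (nat_lit 5116) (.e (nat_lit 1797) (nat_lit 119) (.e (nat_lit 516166) (nat_lit 12) (.e (nat_lit 450587) (nat_lit 10) (.e (nat_lit 573477) (nat_lit 12) (.e (nat_lit 57575) (nat_lit 55) .nil))))) (.g (nat_lit 0) (.e (nat_lit 100402) (nat_lit 0) .nil) .nil))) 
(.lf (nat_lit 476849) (.g (nat_lit 1154) (.e (nat_lit 1846) (nat_lit 124) (.e (nat_lit 557098) (nat_lit 13) (.e (nat_lit 172115) (nat_lit 10) (.e (nat_lit 434244) (nat_lit 28) .nil)))) (.g (nat_lit 0) (.e (nat_lit 101476) (nat_lit 0) .nil) .nil)))) (.nd (nat_lit 9) 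
(.lf (nat_lit 476593) (.g (nat_lit 1453) (.e (nat_lit 1800) (nat_lit 119) (.e (nat_lit 516120) (nat_lit 1) (.e (nat_lit 164330) (nat_lit 230) (.e (nat_lit 163943) (nat_lit 19) .nil)))) (.g (nat_lit 0) (.e (nat_lit 100748) (nat_lit 0) .nil) .nil))) 
(.lf (nat_lit 477105) (.g (nat_lit 1698) (.e (nat_lit 1853) (nat_lit 124) (.e (nat_lit 557107) (nat_lit 15) (.e (nat_lit 188439) (nat_lit 20) (.e (nat_lit 3272) (nat_lit 199) (.e (nat_lit 548898) (nat_lit 14) (.e (nat_lit 2989) (nat_lit 186) (.e (nat_lit 450304) (nat_lit 0) .nil))))))) (.g (nat_lit 1) (.e (nat_lit 101825) (nat_lit 0) .nil) .nil)))))) 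
(.nd (nat_lit 7) (.nd (nat_lit 8) (.nd (nat_lit 9) 
(.lf (nat_lit 476273) (.g (nat_lit 1757) (.e (nat_lit 1796) (nat_lit 119) (.e (nat_lit 516120) (nat_lit 1) (.e (nat_lit 164329) (nat_lit 230) (.e (nat_lit 163941) (nat_lit 19) (.e (nat_lit 491264) (nat_lit 14) (.e (nat_lit 466944) (nat_lit 0) .nil)))))) (.g (nat_lit 1) (.e (nat_lit 100309) (nat_lit 0) .nil) .nil))) 
(.lf (nat_lit 476785) (.g (nat_lit 1589) (.e (nat_lit 7936) (nat_lit 119) (.e (nat_lit 516166) (nat_lit 12) (.e (nat_lit 450587) (nat_lit 10) (.e (nat_lit 573477) (nat_lit 12) (.e (nat_lit 57575) (nat_lit 55) .nil))))) (.g (nat_lit 0) (.e (nat_lit 101028) (nat_lit 0) .nil) .nil)))) (.nd (nat_lit 9) 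
(.lf (nat_lit 476529) (.g (nat_lit 2423) (.e (nat_lit 1800) (nat_lit 119) (.e (nat_lit 516119) (nat_lit 1) (.e (nat_lit 164322) (nat_lit 230) (.e (nat_lit 163850) (nat_lit 0) (.e (nat_lit 3252) (nat_lit 197) (.e (nat_lit 532515) (nat_lit 3) (.e (nat_lit 114716) (nat_lit 22) (.e (nat_lit 90169) (nat_lit 13) (.e (nat_lit 172133) (nat_lit 15) .nil))))))))) (.g (nat_lit 1) (.e (nat_lit 100676) (nat_lit 0) .nil) .nil))) 
(.lf (nat_lit 477041) (.g (nat_lit 4440) (.e (nat_lit 1853) (nat_lit 124) (.e (nat_lit 557087) (nat_lit 11) (.e (nat_lit 24617) (nat_lit 7) (.e (nat_lit 319504) (nat_lit 10) (.e (nat_lit 7936) (nat_lit 45) (.e (nat_lit 532535) (nat_lit 9) (.e (nat_lit 336099) (nat_lit 9) (.e (nat_lit 343808) (nat_lit 0) .nil)))))))) (.g (nat_lit 1) (.e (nat_lit 101758) (nat_lit 0) .nil) .nil))))) 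
(.nd (nat_lit 8) (.nd (nat_lit 9) 
(.lf (nat_lit 476401) (.g (nat_lit 2120) (.e (nat_lit 1799) (nat_lit 119) (.e (nat_lit 516131) (nat_lit 3) (.e (nat_lit 221215) (nat_lit 23) (.e (nat_lit 204880) (nat_lit 32) (.e (nat_lit 385066) (nat_lit 26) .nil))))) (.g (nat_lit 0) (.e (nat_lit 100484) (nat_lit 0) .nil) .nil))) 
(.lf (nat_lit 476913) (.g (nat_lit 4176) (.e (nat_lit 1848) (nat_lit 124) (.e (nat_lit 557097) (nat_lit 13) (.e (nat_lit 172115) (nat_lit 10) (.e (nat_lit 434231) (nat_lit 23) (.e (nat_lit 532490) (nat_lit 0) (.e (nat_lit 6680) (nat_lit 357) (.e (nat_lit 2854) (nat_lit 184) (.e (nat_lit 426402) (nat_lit 15) .nil)))))))) (.g (nat_lit 1) (.e (nat_lit 101608) (nat_lit 0) .nil) .nil)))) 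
(.nd (nat_lit 9) 
(.lf (nat_lit 476657) (.g (nat_lit 2583) (.e (nat_lit 1800) (nat_lit 119) (.e (nat_lit 516150) (nat_lit 9) (.e (nat_lit 426131) (nat_lit 3) (.e (nat_lit 204837) (nat_lit 20) (.e (nat_lit 114700) (nat_lit 20) .nil))))) (.g (nat_lit 0) (.e (nat_lit 100827) (nat_lit 0) .nil) .nil))) 
(.lf (nat_lit 477169) (.g (nat_lit 1994) (.e (nat_lit 1855) (nat_lit 124) (.e (nat_lit 557101) (nat_lit 13) (.e (nat_lit 172115) (nat_lit 10) (.e (nat_lit 434244) (nat_lit 28) (.e (nat_lit 573458) (nat_lit 9) (.e (nat_lit 7936) (nat_lit 37) (.e (nat_lit 466946) (nat_lit 0) .nil))))))) (.g (nat_lit 1) (.e (nat_lit 101925) (nat_lit 0) .nil) .nil))))))))) 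
(.nd (nat_lit 4) (.nd (nat_lit 5) (.nd (nat_lit 6) (.nd (nat_lit 7) (.nd (nat_lit 8) 
(.nd (nat_lit 9) 
(.lf (nat_lit 476169) (.g (nat_lit 2552) (.e (nat_lit 1794) (nat_lit 119) (.e (nat_lit 516179) (nat_lit 15) (.e (nat_lit 475177) (nat_lit 24) (.e (nat_lit 516146) (nat_lit 9) (.e (nat_lit 426438) (nat_lit 18) .nil))))) (.g (nat_lit 0) (.e (nat_lit 100137) (nat_lit 0) .nil) .nil))) 
(.lf (nat_lit 476681) (.g (nat_lit 2132) (.e (nat_lit 1801) (nat_lit 119) (.e (nat_lit 516115) (nat_lit 1) (.e (nat_lit 164327) (nat_lit 230) (.e (nat_lit 163903) (nat_lit 12) (.e (nat_lit 426566) (nat_lit 34) (.e (nat_lit 393273) (nat_lit 23) (.e (nat_lit 426364) (nat_lit 15) .nil))))))) (.g (nat_lit 1) (.e (nat_lit 100882) (nat_lit 0) .nil) .nil)))) (.nd (nat_lit 9) 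
(.lf (nat_lit 476425) (.g (nat_lit 3755) (.e (nat_lit 1799) (nat_lit 119) (.e (nat_lit 516166) (nat_lit 12) (.e (nat_lit 450588) (nat_lit 10) (.e (nat_lit 573471) (nat_lit 11) .nil)))) (.g (nat_lit 0) (.e (nat_lit 100517) (nat_lit 0) .nil) .nil))) 
(.lf (nat_lit 476937) (.g (nat_lit 2599) (.e (nat_lit 1848) (nat_lit 124) (.e (nat_lit 557097) (nat_lit 13) (.e (nat_lit 172115) (nat_lit 10) (.e (nat_lit 434244) (nat_lit 28) (.e (nat_lit 573458) (nat_lit 9) (.e (nat_lit 7936) (nat_lit 34) (.e (nat_lit 450304) (nat_lit 0) .nil))))))) (.g (nat_lit 1) (.e (nat_lit 101632) (nat_lit 0) .nil) .nil))))) (.nd (nat_lit 8) (.nd (nat_lit 9) 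
(.lf (nat_lit 476297) (.g (nat_lit 2655) (.e (nat_lit 1796) (nat_lit 119) (.e (nat_lit 516166) (nat_lit 12) (.e (nat_lit 450587) (nat_lit 10) (.e (nat_lit 573454) (nat_lit 9) (.e (nat_lit 7936) (nat_lit 33) (.e (nat_lit 434179) (nat_lit 0) (.e (nat_lit 1077) (nat_lit 81) .nil))))))) (.g (nat_lit 1) (.e (nat_lit 100355) (nat_lit 0) .nil) .nil))) 
(.lf (nat_lit 476809) (.g (nat_lit 4899) (.e (nat_lit 1842) (nat_lit 123) (.e (nat_lit 548874) (nat_lit 5) (.e (nat_lit 1395) (nat_lit 106) (.e (nat_lit 319538) (nat_lit 19) (.e (nat_lit 311315) (nat_lit 3) (.e (nat_lit 204846) (nat_lit 24) (.e (nat_lit 319533) (nat_lit 16) (.e (nat_lit 286724) (nat_lit 0) .nil)))))))) (.g (nat_lit 1) (.e (nat_lit 101103) (nat_lit 0) .nil) .nil)))) 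
(.nd (nat_lit 9) 
(.lf (nat_lit 476553) (.g (nat_lit 2477) (.e (nat_lit 1800) (nat_lit 119) (.e (nat_lit 516119) (nat_lit 1) (.e (nat_lit 164403) (nat_lit 256) (.e (nat_lit 57373) (nat_lit 2) (.e (nat_lit 90168) (nat_lit 13) .nil))))) (.g (nat_lit 0) (.e (nat_lit 100704) (nat_lit 0) .nil) .nil))) 
(.lf (nat_lit 477065) (.g (nat_lit 4042) (.e (nat_lit 1853) (nat_lit 124) (.e (nat_lit 557098) (nat_lit 13) (.e (nat_lit 172115) (nat_lit 10) (.e (nat_lit 434244) (nat_lit 28) (.e (nat_lit 573450) (nat_lit 9) (.e (nat_lit 457) (nat_lit 34) (.e (nat_lit 442373) (nat_lit 0) .nil))))))) (.g (nat_lit 1) (.e (nat_lit 101784) (nat_lit 0) .nil) .nil)))))) 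
(.nd (nat_lit 7) (.nd (nat_lit 8) (.nd (nat_lit 9) 
(.lf (nat_lit 476233) (.g (nat_lit 1531) (.e (nat_lit 1795) (nat_lit 119) (.e (nat_lit 516120) (nat_lit 1) (.e (nat_lit 164330) (nat_lit 230) (.e (nat_lit 163941) (nat_lit 19) .nil)))) (.g (nat_lit 0) (.e (nat_lit 100221) (nat_lit 0) .nil) .nil))) 
(.lf (nat_lit 476745) (.g (nat_lit 1286) (.e (nat_lit 1802) (nat_lit 119) (.e (nat_lit 516163) (nat_lit 11) (.e (nat_lit 442427) (nat_lit 23) (.e (nat_lit 204845) (nat_lit 24) .nil)))) (.g (nat_lit 0) (.e (nat_lit 100971) (nat_lit 0) .nil) .nil)))) (.nd (nat_lit 9) 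
(.lf (nat_lit 476489) (.g (nat_lit 452) (.e (nat_lit 1800) (nat_lit 119) (.e (nat_lit 516117) (nat_lit 1) (.e (nat_lit 164329) (nat_lit 230) .nil))) (.g (nat_lit 0) (.e (nat_lit 100633) (nat_lit 0) .nil) .nil))) 
(.lf (nat_lit 477001) (.g (nat_lit 2300) (.e (nat_lit 1849) (nat_lit 124) (.e (nat_lit 557097) (nat_lit 13) (.e (nat_lit 172115) (nat_lit 10) (.e (nat_lit 434244) (nat_lit 28) (.e (nat_lit 573458) (nat_lit 9) (.e (nat_lit 7936) (nat_lit 34) (.e (nat_lit 450304) (nat_lit 0) .nil))))))) (.g (nat_lit 1) (.e (nat_lit 101705) (nat_lit 0) .nil) .nil))))) (.nd (nat_lit 8) (.nd (nat_lit 9) 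
(.lf (nat_lit 476361) (.g (nat_lit 5447) (.e (nat_lit 1798) (nat_lit 119) (.e (nat_lit 516151) (nat_lit 9) (.e (nat_lit 426211) (nat_lit 9) (.e (nat_lit 426125) (nat_lit 2) (.e (nat_lit 196626) (nat_lit 9) .nil))))) (.g (nat_lit 0) (.e (nat_lit 100435) (nat_lit 0) .nil) .nil))) 
(.lf (nat_lit 476873) (.g (nat_lit 2897) (.e (nat_lit 1847) (nat_lit 124) (.e (nat_lit 557098) (nat_lit 13) (.e (nat_lit 172120) (nat_lit 12) (.e (nat_lit 475185) (nat_lit 29) (.e (nat_lit 557109) (nat_lit 15) .nil))))) (.g (nat_lit 0) (.e (nat_lit 101503) (nat_lit 0) .nil) .nil)))) (.nd (nat_lit 9) 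
(.lf (nat_lit 476617) (.g (nat_lit 1784) (.e (nat_lit 1800) (nat_lit 119) (.e (nat_lit 516124) (nat_lit 2) (.e (nat_lit 213032) (nat_lit 11) (.e (nat_lit 24605) (nat_lit 2) (.e (nat_lit 90178) (nat_lit 15) (.e (nat_lit 188418) (nat_lit 0) .nil)))))) (.g (nat_lit 1) (.e (nat_lit 100775) (nat_lit 0) .nil) .nil))) 
(.lf (nat_lit 477129) (.g (nat_lit 3403) (.e (nat_lit 1853) (nat_lit 124) (.e (nat_lit 557109) (nat_lit 15) (.e (nat_lit 188452) (nat_lit 23) (.e (nat_lit 204885) (nat_lit 33) .nil)))) (.g (nat_lit 0) (.e (nat_lit 101849) (nat_lit 0) .nil) .nil))))))) (.nd (nat_lit 6) (.nd (nat_lit 7) (.nd (nat_lit 8) (.nd (nat_lit 9) 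
(.lf (nat_lit 476201) (.g (nat_lit 2695) (.e (nat_lit 1806) (nat_lit 119) (.e (nat_lit 516138) (nat_lit 7) (.e (nat_lit 409645) (nat_lit 18) (.e (nat_lit 303117) (nat_lit 2) (.e (nat_lit 196674) (nat_lit 15) (.e (nat_lit 81936) (nat_lit 20) .nil)))))) (.g (nat_lit 1) (.e (nat_lit 100185) (nat_lit 0) .nil) .nil))) 
(.lf (nat_lit 476713) (.g (nat_lit 4063) (.e (nat_lit 1801) (nat_lit 119) (.e (nat_lit 516151) (nat_lit 9) (.e (nat_lit 426286) (nat_lit 10) (.e (nat_lit 434245) (nat_lit 28) .nil)))) (.g (nat_lit 0) (.e (nat_lit 100929) (nat_lit 0) .nil) .nil)))) (.nd (nat_lit 9) 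
(.lf (nat_lit 476457) (.g (nat_lit 1760) (.e (nat_lit 1800) (nat_lit 119) (.e (nat_lit 516115) (nat_lit 1) (.e (nat_lit 164325) (nat_lit 230) (.e (nat_lit 163905) (nat_lit 12) .nil)))) (.g (nat_lit 0) (.e (nat_lit 100572) (nat_lit 0) .nil) .nil))) 
(.lf (nat_lit 476969) (.g (nat_lit 2686) (.e (nat_lit 1848) (nat_lit 124) (.e (nat_lit 557108) (nat_lit 15) (.e (nat_lit 188449) (nat_lit 22) (.e (nat_lit 196661) (nat_lit 12) (.e (nat_lit 57751) (nat_lit 201) (.e (nat_lit 2854) (nat_lit 184) (.e (nat_lit 426402) (nat_lit 15) .nil))))))) (.g (nat_lit 1) (.e (nat_lit 101664) (nat_lit 0) .nil) .nil))))) (.nd (nat_lit 8) (.nd (nat_lit 9) 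
(.lf (nat_lit 476329) (.g (nat_lit 2592) (.e (nat_lit 1797) (nat_lit 119) (.e (nat_lit 516120) (nat_lit 1) (.e (nat_lit 164401) (nat_lit 256) (.e (nat_lit 57373) (nat_lit 2) (.e (nat_lit 90172) (nat_lit 14) .nil))))) (.g (nat_lit 0) (.e (nat_lit 100389) (nat_lit 0) .nil) .nil))) 
(.lf (nat_lit 476841) (.g (nat_lit 2089) (.e (nat_lit 1846) (nat_lit 124) (.e (nat_lit 557097) (nat_lit 13) (.e (nat_lit 172115) (nat_lit 10) (.e (nat_lit 434244) (nat_lit 28) (.e (nat_lit 573450) (nat_lit 9) .nil))))) (.g (nat_lit 0) (.e (nat_lit 101468) (nat_lit 0) .nil) .nil)))) (.nd (nat_lit 9) 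
(.lf (nat_lit 476585) (.g (nat_lit 2421) (.e (nat_lit 1800) (nat_lit 119) (.e (nat_lit 516120) (nat_lit 1) (.e (nat_lit 164330) (nat_lit 230) (.e (nat_lit 163941) (nat_lit 19) (.e (nat_lit 483341) (nat_lit 9) (.e (nat_lit 426198) (nat_lit 9) (.e (nat_lit 426376) (nat_lit 15) .nil))))))) (.g (nat_lit 1) (.e (nat_lit 100740) (nat_lit 0) .nil) .nil))) 
(.lf (nat_lit 477097) (.g (nat_lit 1689) (.e (nat_lit 1853) (nat_lit 124) (.e (nat_lit 557107) (nat_lit 15) (.e (nat_lit 188439) (nat_lit 20) (.e (nat_lit 3271) (nat_lit 199) (.e (nat_lit 548898) (nat_lit 14) (.e (nat_lit 2988) (nat_lit 186) (.e (nat_lit 450304) (nat_lit 0) .nil))))))) (.g (nat_lit 1) (.e (nat_lit 101817) (nat_lit 0) .nil) .nil)))))) 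
(.nd (nat_lit 7) (.nd (nat_lit 8) (.nd (nat_lit 9) 
(.lf (nat_lit 476265) (.g (nat_lit 2555) (.e (nat_lit 1796) (nat_lit 119) (.e (nat_lit 516116) (nat_lit 1) (.e (nat_lit 164332) (nat_lit 230) (.e (nat_lit 163905) (nat_lit 12) (.e (nat_lit 426566) (nat_lit 34) (.e (nat_lit 393273) (nat_lit 23) (.e (nat_lit 426392) (nat_lit 15) .nil))))))) (.g (nat_lit 1) (.e (nat_lit 100296) (nat_lit 0) .nil) .nil))) 
(.lf (nat_lit 476777) (.g (nat_lit 4455) (.e (nat_lit 1803) (nat_lit 119) (.e (nat_lit 516166) (nat_lit 12) (.e (nat_lit 450587) (nat_lit 10) (.e (nat_lit 573478) (nat_lit 12) (.e (nat_lit 57574) (nat_lit 55) .nil))))) (.g (nat_lit 0) (.e (nat_lit 101014) (nat_lit 0) .nil) .nil)))) (.nd (nat_lit 9) 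
(.lf (nat_lit 476521) (.g (nat_lit 4024) (.e (nat_lit 1800) (nat_lit 119) (.e (nat_lit 516117) (nat_lit 1) (.e (nat_lit 164401) (nat_lit 256) (.e (nat_lit 57378) (nat_lit 3) (.e (nat_lit 98366) (nat_lit 27) (.e (nat_lit 434231) (nat_lit 23) (.e (nat_lit 532514) (nat_lit 3) (.e (nat_lit 114708) (nat_lit 20) .nil)))))))) (.g (nat_lit 1) (.e (nat_lit 100666) (nat_lit 0) .nil) .nil))) 
(.lf (nat_lit 477033) (.g (nat_lit 2818) (.e (nat_lit 1849) (nat_lit 124) (.e (nat_lit 557109) (nat_lit 15) (.e (nat_lit 188449) (nat_lit 22) (.e (nat_lit 196661) (nat_lit 12) (.e (nat_lit 57748) (nat_lit 201) (.e (nat_lit 2940) (nat_lit 184) (.e (nat_lit 433920) (nat_lit 15) .nil))))))) (.g (nat_lit 1) (.e (nat_lit 101739) (nat_lit 0) .nil) .nil))))) (.nd (nat_lit 8) (.nd (nat_lit 9) 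
(.lf (nat_lit 476393) (.g (nat_lit 1628) (.e (nat_lit 1799) (nat_lit 119) (.e (nat_lit 516117) (nat_lit 1) (.e (nat_lit 164329) (nat_lit 230) (.e (nat_lit 163941) (nat_lit 19) (.e (nat_lit 483341) (nat_lit 9) (.e (nat_lit 426200) (nat_lit 9) (.e (nat_lit 426362) (nat_lit 15) .nil))))))) (.g (nat_lit 1) (.e (nat_lit 100476) (nat_lit 0) .nil) .nil))) 
(.lf (nat_lit 476905) (.g (nat_lit 2315) (.e (nat_lit 1848) (nat_lit 124) (.e (nat_lit 557097) (nat_lit 13) (.e (nat_lit 172115) (nat_lit 10) (.e (nat_lit 434231) (nat_lit 23) (.e (nat_lit 532481) (nat_lit 0) (.e (nat_lit 6643) (nat_lit 357) (.e (nat_lit 2856) (nat_lit 184) (.e (nat_lit 426402) (nat_lit 15) .nil)))))))) (.g (nat_lit 1) (.e (nat_lit 101600) (nat_lit 0) .nil) .nil)))) 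
(.nd (nat_lit 9) 
(.lf (nat_lit 476649) (.g (nat_lit 2763) (.e (nat_lit 1800) (nat_lit 119) (.e (nat_lit 516139) (nat_lit 7) (.e (nat_lit 409649) (nat_lit 18) (.e (nat_lit 303111) (nat_lit 0) (.e (nat_lit 3238) (nat_lit 197) (.e (nat_lit 532559) (nat_lit 14) (.e (nat_lit 376855) (nat_lit 20) .nil))))))) (.g (nat_lit 1) (.e (nat_lit 100814) (nat_lit 0) .nil) .nil))) 
(.lf (nat_lit 477161) (.g (nat_lit 2872) (.e (nat_lit 1855) (nat_lit 124) (.e (nat_lit 557101) (nat_lit 13) (.e (nat_lit 172115) (nat_lit 10) (.e (nat_lit 434244) (nat_lit 28) (.e (nat_lit 573449) (nat_lit 9) (.e (nat_lit 455) (nat_lit 34) (.e (nat_lit 442372) (nat_lit 0) .nil))))))) (.g (nat_lit 1) (.e (nat_lit 101917) (nat_lit 0) .nil) .nil)))))))) 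
(.nd (nat_lit 5) (.nd (nat_lit 6) (.nd (nat_lit 7) (.nd (nat_lit 8) (.nd (nat_lit 9) 
(.lf (nat_lit 476185) (.g (nat_lit 3448) (.e (nat_lit 1804) (nat_lit 119) (.e (nat_lit 516120) (nat_lit 1) (.e (nat_lit 164403) (nat_lit 256) (.e (nat_lit 57373) (nat_lit 2) (.e (nat_lit 90172) (nat_lit 14) .nil))))) (.g (nat_lit 0) (.e (nat_lit 100166) (nat_lit 0) .nil) .nil))) 
(.lf (nat_lit 476697) (.g (nat_lit 3620) (.e (nat_lit 1801) (nat_lit 119) (.e (nat_lit 516139) (nat_lit 7) (.e (nat_lit 409645) (nat_lit 18) (.e (nat_lit 303117) (nat_lit 2) (.e (nat_lit 196674) (nat_lit 15) (.e (nat_lit 81944) (nat_lit 20) .nil)))))) (.g (nat_lit 1) (.e (nat_lit 100905) (nat_lit 0) .nil) .nil)))) (.nd (nat_lit 9) 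
(.lf (nat_lit 476441) (.g (nat_lit 3890) (.e (nat_lit 1800) (nat_lit 119) (.e (nat_lit 516115) (nat_lit 1) (.e (nat_lit 164325) (nat_lit 230) (.e (nat_lit 163875) (nat_lit 3) (.e (nat_lit 204838) (nat_lit 20) (.e (nat_lit 114716) (nat_lit 22) (.e (nat_lit 90169) (nat_lit 13) (.e (nat_lit 172133) (nat_lit 15) .nil)))))))) (.g (nat_lit 1) (.e (nat_lit 100553) (nat_lit 0) .nil) .nil))) 
(.lf (nat_lit 476953) (.g (nat_lit 2424) (.e (nat_lit 1848) (nat_lit 124) (.e (nat_lit 557107) (nat_lit 15) (.e (nat_lit 188447) (nat_lit 22) (.e (nat_lit 196661) (nat_lit 12) (.e (nat_lit 57751) (nat_lit 201) (.e (nat_lit 2854) (nat_lit 184) (.e (nat_lit 426402) (nat_lit 15) .nil))))))) (.g (nat_lit 1) (.e (nat_lit 101648) (nat_lit 0) .nil) .nil))))) (.nd (nat_lit 8) (.nd (nat_lit 9) 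
(.lf (nat_lit 476313) (.g (nat_lit 2097) (.e (nat_lit 1797) (nat_lit 119) (.e (nat_lit 516115) (nat_lit 1) (.e (nat_lit 164399) (nat_lit 256) (.e (nat_lit 57372) (nat_lit 2) (.e (nat_lit 90167) (nat_lit 13) .nil))))) (.g (nat_lit 0) (.e (nat_lit 100373) (nat_lit 0) .nil) .nil))) 
(.lf (nat_lit 476825) (.g (nat_lit 3573) (.e (nat_lit 1875) (nat_lit 126) (.e (nat_lit 573489) (nat_lit 14) (.e (nat_lit 73755) (nat_lit 8) (.e (nat_lit 557067) (nat_lit 9) (.e (nat_lit 2878) (nat_lit 184) .nil))))) (.g (nat_lit 0) (.e (nat_lit 101280) (nat_lit 0) .nil) .nil)))) (.nd (nat_lit 9) 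
(.lf (nat_lit 476569) (.g (nat_lit 1933) (.e (nat_lit 1800) (nat_lit 119) (.e (nat_lit 516120) (nat_lit 1) (.e (nat_lit 164330) (nat_lit 230) (.e (nat_lit 163851) (nat_lit 0) .nil)))) (.g (nat_lit 0) (.e (nat_lit 100722) (nat_lit 0) .nil) .nil))) 
(.lf (nat_lit 477081) (.g (nat_lit 1881) (.e (nat_lit 1853) (nat_lit 124) (.e (nat_lit 557101) (nat_lit 13) (.e (nat_lit 172115) (nat_lit 10) (.e (nat_lit 434238) (nat_lit 25) (.e (nat_lit 548897) (nat_lit 14) (.e (nat_lit 2998) (nat_lit 186) (.e (nat_lit 450304) (nat_lit 0) .nil))))))) (.g (nat_lit 1) (.e (nat_lit 101800) (nat_lit 0) .nil) .nil)))))) 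
(.nd (nat_lit 7) (.nd (nat_lit 8) (.nd (nat_lit 9) 
(.lf (nat_lit 476249) (.g (nat_lit 419) (.e (nat_lit 1796) (nat_lit 119) (.e (nat_lit 516115) (nat_lit 1) (.e (nat_lit 164325) (nat_lit 230) .nil))) (.g (nat_lit 0) (.e (nat_lit 100255) (nat_lit 0) .nil) .nil))) 
(.lf (nat_lit 476761) (.g (nat_lit 1371) (.e (nat_lit 1803) (nat_lit 119) (.e (nat_lit 516117) (nat_lit 1) (.e (nat_lit 164329) (nat_lit 230) .nil))) (.g (nat_lit 0) (.e (nat_lit 100990) (nat_lit 0) .nil) .nil)))) (.nd (nat_lit 9) 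
(.lf (nat_lit 476505) (.g (nat_lit 1836) (.e (nat_lit 1800) (nat_lit 119) (.e (nat_lit 516117) (nat_lit 1) (.e (nat_lit 164398) (nat_lit 256) (.e (nat_lit 57375) (nat_lit 2) (.e (nat_lit 90174) (nat_lit 14) .nil))))) (.g (nat_lit 0) (.e (nat_lit 100649) (nat_lit 0) .nil) .nil))) 
(.lf (nat_lit 477017) (.g (nat_lit 1783) (.e (nat_lit 1849) (nat_lit 124) (.e (nat_lit 557107) (nat_lit 15) (.e (nat_lit 188450) (nat_lit 23) (.e (nat_lit 204819) (nat_lit 17) (.e (nat_lit 6113) (nat_lit 332) .nil))))) (.g (nat_lit 0) (.e (nat_lit 101723) (nat_lit 0) .nil) .nil))))) (.nd (nat_lit 8) (.nd (nat_lit 9) 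
(.lf (nat_lit 476377) (.g (nat_lit 2752) (.e (nat_lit 1798) (nat_lit 119) (.e (nat_lit 516179) (nat_lit 15) (.e (nat_lit 475199) (nat_lit 40) (.e (nat_lit 704589) (nat_lit 3) (.e (nat_lit 163976) (nat_lit 30) (.e (nat_lit 573491) (nat_lit 15) (.e (nat_lit 81943) (nat_lit 20) .nil))))))) (.g (nat_lit 1) (.e (nat_lit 100453) (nat_lit 0) .nil) .nil))) 
(.lf (nat_lit 476889) (.g (nat_lit 1887) (.e (nat_lit 1848) (nat_lit 124) (.e (nat_lit 557097) (nat_lit 13) (.e (nat_lit 172097) (nat_lit 9) (.e (nat_lit 426125) (nat_lit 2) (.e (nat_lit 196661) (nat_lit 12) (.e (nat_lit 57748) (nat_lit 201) (.e (nat_lit 2939) (nat_lit 184) (.e (nat_lit 433920) (nat_lit 15) .nil)))))))) (.g (nat_lit 1) (.e (nat_lit 101584) (nat_lit 0) .nil) .nil)))) 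
(.nd (nat_lit 9) 
(.lf (nat_lit 476633) (.g (nat_lit 2748) (.e (nat_lit 1800) (nat_lit 119) (.e (nat_lit 516139) (nat_lit 7) (.e (nat_lit 409645) (nat_lit 18) (.e (nat_lit 303112) (nat_lit 0) (.e (nat_lit 3252) (nat_lit 197) (.e (nat_lit 532560) (nat_lit 14) (.e (nat_lit 376855) (nat_lit 20) .nil))))))) (.g (nat_lit 1) (.e (nat_lit 100796) (nat_lit 0) .nil) .nil))) 
(.lf (nat_lit 477145) (.g (nat_lit 2042) (.e (nat_lit 1855) (nat_lit 124) (.e (nat_lit 557098) (nat_lit 13) (.e (nat_lit 172115) (nat_lit 10) (.e (nat_lit 434231) (nat_lit 23) (.e (nat_lit 532535) (nat_lit 9) .nil))))) (.g (nat_lit 0) (.e (nat_lit 101901) (nat_lit 0) .nil) .nil))))))) (.nd (nat_lit 6) (.nd (nat_lit 7) (.nd (nat_lit 8) (.nd (nat_lit 9) 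
(.lf (nat_lit 476217) (.g (nat_lit 1966) (.e (nat_lit 1795) (nat_lit 119) (.e (nat_lit 516119) (nat_lit 1) (.e (nat_lit 164396) (nat_lit 256) (.e (nat_lit 57371) (nat_lit 2) (.e (nat_lit 90172) (nat_lit 14) .nil))))) (.g (nat_lit 0) (.e (nat_lit 100204) (nat_lit 0) .nil) .nil))) 
(.lf (nat_lit 476729) (.g (nat_lit 1308) (.e (nat_lit 1801) (nat_lit 119) (.e (nat_lit 516182) (nat_lit 15) (.e (nat_lit 475198) (nat_lit 40) (.e (nat_lit 704589) (nat_lit 3) (.e (nat_lit 163976) (nat_lit 30) (.e (nat_lit 573491) (nat_lit 15) (.e (nat_lit 81943) (nat_lit 20) .nil))))))) (.g (nat_lit 1) (.e (nat_lit 100948) (nat_lit 0) .nil) .nil)))) (.nd (nat_lit 9) 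
(.lf (nat_lit 476473) (.g (nat_lit 3212) (.e (nat_lit 1800) (nat_lit 119) (.e (nat_lit 516115) (nat_lit 1) (.e (nat_lit 164327) (nat_lit 230) (.e (nat_lit 163875) (nat_lit 3) (.e (nat_lit 204838) (nat_lit 20) (.e (nat_lit 114715) (nat_lit 22) (.e (nat_lit 90170) (nat_lit 13) (.e (nat_lit 172138) (nat_lit 15) .nil)))))))) (.g (nat_lit 1) (.e (nat_lit 100610) (nat_lit 0) .nil) .nil))) 
(.lf (nat_lit 476985) (.g (nat_lit 2129) (.e (nat_lit 1849) (nat_lit 124) (.e (nat_lit 557087) (nat_lit 11) (.e (nat_lit 24665) (nat_lit 14) (.e (nat_lit 401424) (nat_lit 2) .nil)))) (.g (nat_lit 0) (.e (nat_lit 101689) (nat_lit 0) .nil) .nil))))) (.nd (nat_lit 8) (.nd (nat_lit 9) 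
(.lf (nat_lit 476345) (.g (nat_lit 1619) (.e (nat_lit 1798) (nat_lit 119) (.e (nat_lit 516117) (nat_lit 1) (.e (nat_lit 164329) (nat_lit 230) (.e (nat_lit 163941) (nat_lit 19) (.e (nat_lit 483341) (nat_lit 9) (.e (nat_lit 426200) (nat_lit 9) (.e (nat_lit 426360) (nat_lit 15) .nil))))))) (.g (nat_lit 1) (.e (nat_lit 100417) (nat_lit 0) .nil) .nil))) 
(.lf (nat_lit 476857) (.g (nat_lit 843) (.e (nat_lit 1846) (nat_lit 124) (.e (nat_lit 557101) (nat_lit 13) (.e (nat_lit 172124) (nat_lit 14) (.e (nat_lit 491540) (nat_lit 3) .nil)))) (.g (nat_lit 0) (.e (nat_lit 101484) (nat_lit 0) .nil) .nil)))) (.nd (nat_lit 9) 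
(.lf (nat_lit 476601) (.g (nat_lit 4493) (.e (nat_lit 1800) (nat_lit 119) (.e (nat_lit 516120) (nat_lit 1) (.e (nat_lit 164401) (nat_lit 256) (.e (nat_lit 57378) (nat_lit 3) (.e (nat_lit 98367) (nat_lit 27) (.e (nat_lit 434231) (nat_lit 23) (.e (nat_lit 532514) (nat_lit 3) (.e (nat_lit 114708) (nat_lit 20) .nil)))))))) (.g (nat_lit 1) (.e (nat_lit 100757) (nat_lit 0) .nil) .nil))) 
(.lf (nat_lit 477113) (.g (nat_lit 1152) (.e (nat_lit 1853) (nat_lit 124) (.e (nat_lit 557107) (nat_lit 15) (.e (nat_lit 188441) (nat_lit 20) (.e (nat_lit 3271) (nat_lit 199) .nil)))) (.g (nat_lit 0) (.e (nat_lit 101833) (nat_lit 0) .nil) .nil)))))) (.nd (nat_lit 7) (.nd (nat_lit 8) (.nd (nat_lit 9) 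
(.lf (nat_lit 476281) (.g (nat_lit 1065) (.e (nat_lit 1796) (nat_lit 119) (.e (nat_lit 516127) (nat_lit 2) (.e (nat_lit 213030) (nat_lit 11) (.e (nat_lit 24609) (nat_lit 3) (.e (nat_lit 98369) (nat_lit 28) (.e (nat_lit 442373) (nat_lit 0) .nil)))))) (.g (nat_lit 1) (.e (nat_lit 100318) (nat_lit 0) .nil) .nil))) 
(.lf (nat_lit 476793) (.g (nat_lit 2555) (.e (nat_lit 1809) (nat_lit 120) (.e (nat_lit 524322) (nat_lit 12) (.e (nat_lit 450588) (nat_lit 10) (.e (nat_lit 573475) (nat_lit 12) (.e (nat_lit 57574) (nat_lit 55) .nil))))) (.g (nat_lit 0) (.e (nat_lit 101036) (nat_lit 0) .nil) .nil)))) (.nd (nat_lit 9) 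
(.lf (nat_lit 476537) (.g (nat_lit 1728) (.e (nat_lit 1800) (nat_lit 119) (.e (nat_lit 516119) (nat_lit 1) (.e (nat_lit 164326) (nat_lit 230) (.e (nat_lit 163903) (nat_lit 12) (.e (nat_lit 426479) (nat_lit 27) (.e (nat_lit 336427) (nat_lit 29) (.e (nat_lit 442374) (nat_lit 0) .nil))))))) (.g (nat_lit 1) (.e (nat_lit 100684) (nat_lit 0) .nil) .nil))) 
(.lf (nat_lit 477049) (.g (nat_lit 2999) (.e (nat_lit 1853) (nat_lit 124) (.e (nat_lit 557097) (nat_lit 13) (.e (nat_lit 172115) (nat_lit 10) (.e (nat_lit 434238) (nat_lit 25) (.e (nat_lit 548898) (nat_lit 14) (.e (nat_lit 2988) (nat_lit 186) (.e (nat_lit 450304) (nat_lit 0) .nil))))))) (.g (nat_lit 1) (.e (nat_lit 101768) (nat_lit 0) .nil) .nil))))) (.nd (nat_lit 8) (.nd (nat_lit 9) 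
(.lf (nat_lit 476409) (.g (nat_lit 626) (.e (nat_lit 1799) (nat_lit 119) (.e (nat_lit 516139) (nat_lit 7) (.e (nat_lit 409645) (nat_lit 18) .nil))) (.g (nat_lit 0) (.e (nat_lit 100493) (nat_lit 0) .nil) .nil))) 
(.lf (nat_lit 476921) (.g (nat_lit 2694) (.e (nat_lit 1848) (nat_lit 124) (.e (nat_lit 557097) (nat_lit 13) (.e (nat_lit 172115) (nat_lit 10) (.e (nat_lit 434238) (nat_lit 25) (.e (nat_lit 548897) (nat_lit 14) (.e (nat_lit 3004) (nat_lit 186) (.e (nat_lit 450304) (nat_lit 0) .nil))))))) (.g (nat_lit 1) (.e (nat_lit 101616) (nat_lit 0) .nil) .nil)))) (.nd (nat_lit 9) 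
(.lf (nat_lit 476665) (.g (nat_lit 3169) (.e (nat_lit 1800) (nat_lit 119) (.e (nat_lit 516179) (nat_lit 15) (.e (nat_lit 475199) (nat_lit 40) (.e (nat_lit 704589) (nat_lit 3) (.e (nat_lit 163976) (nat_lit 30) (.e (nat_lit 573491) (nat_lit 15) (.e (nat_lit 89856) (nat_lit 20) .nil))))))) (.g (nat_lit 1) (.e (nat_lit 100853) (nat_lit 0) .nil) .nil))) 
(.lf (nat_lit 477177) (.g (nat_lit 2910) (.e (nat_lit 1855) (nat_lit 124) (.e (nat_lit 557105) (nat_lit 14) (.e (nat_lit 180252) (nat_lit 10) (.e (nat_lit 573482) (nat_lit 13) (.e (nat_lit 65637) (nat_lit 15) .nil))))) (.g (nat_lit 0) (.e (nat_lit 101933) (nat_lit 0) .nil) .nil)))))))))) 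
(.nd (nat_lit 3) (.nd (nat_lit 4) (.nd (nat_lit 5) (.nd (nat_lit 6) (.nd (nat_lit 7) 
(.nd (nat_lit 8) (.nd (nat_lit 9) 
(.lf (nat_lit 476165) (.g (nat_lit 2854) (.e (nat_lit 1794) (nat_lit 119) (.e (nat_lit 516138) (nat_lit 7) (.e (nat_lit 409645) (nat_lit 18) (.e (nat_lit 303117) (nat_lit 2) (.e (nat_lit 196674) (nat_lit 15) (.e (nat_lit 81936) (nat_lit 20) .nil)))))) (.g (nat_lit 1) (.e (nat_lit 100133) (nat_lit 0) .nil) .nil))) 
(.lf (nat_lit 476677) (.g (nat_lit 4453) (.e (nat_lit 1800) (nat_lit 119) (.e (nat_lit 516182) (nat_lit 15) (.e (nat_lit 475199) (nat_lit 40) (.e (nat_lit 704589) (nat_lit 3) (.e (nat_lit 163978) (nat_lit 30) (.e (nat_lit 573491) (nat_lit 15) (.e (nat_lit 89856) (nat_lit 20) .nil))))))) (.g (nat_lit 1) (.e (nat_lit 100874) (nat_lit 0) .nil) .nil)))) (.nd (nat_lit 9) 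
(.lf (nat_lit 476421) (.g (nat_lit 3589) (.e (nat_lit 1799) (nat_lit 119) (.e (nat_lit 516151) (nat_lit 9) (.e (nat_lit 426211) (nat_lit 9) (.e (nat_lit 426140) (nat_lit 3) (.e (nat_lit 204845) (nat_lit 24) .nil))))) (.g (nat_lit 0) (.e (nat_lit 100513) (nat_lit 0) .nil) .nil))) 
(.lf (nat_lit 476933) (.g (nat_lit 3287) (.e (nat_lit 1848) (nat_lit 124) (.e (nat_lit 557097) (nat_lit 13) (.e (nat_lit 172115) (nat_lit 10) (.e (nat_lit 434244) (nat_lit 28) (.e (nat_lit 573450) (nat_lit 9) (.e (nat_lit 457) (nat_lit 34) (.e (nat_lit 450304) (nat_lit 0) .nil))))))) (.g (nat_lit 1) (.e (nat_lit 101628) (nat_lit 0) .nil) .nil))))) (.nd (nat_lit 8) (.nd (nat_lit 9) 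
(.lf (nat_lit 476293) (.g (nat_lit 2274) (.e (nat_lit 1796) (nat_lit 119) (.e (nat_lit 516165) (nat_lit 12) (.e (nat_lit 450586) (nat_lit 10) (.e (nat_lit 573475) (nat_lit 12) (.e (nat_lit 57574) (nat_lit 55) .nil))))) (.g (nat_lit 0) (.e (nat_lit 100351) (nat_lit 0) .nil) .nil))) 
(.lf (nat_lit 476805) (.g (nat_lit 1288) (.e (nat_lit 1841) (nat_lit 123) (.e (nat_lit 548889) (nat_lit 9) (.e (nat_lit 65629) (nat_lit 14) (.e (nat_lit 401412) (nat_lit 0) (.e (nat_lit 3114) (nat_lit 193) .nil))))) (.g (nat_lit 0) (.e (nat_lit 101094) (nat_lit 0) .nil) .nil)))) (.nd (nat_lit 9) 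
(.lf (nat_lit 476549) (.g (nat_lit 4173) (.e (nat_lit 1800) (nat_lit 119) (.e (nat_lit 516119) (nat_lit 1) (.e (nat_lit 164401) (nat_lit 256) (.e (nat_lit 57378) (nat_lit 3) (.e (nat_lit 98367) (nat_lit 27) (.e (nat_lit 434231) (nat_lit 23) (.e (nat_lit 532514) (nat_lit 3) (.e (nat_lit 114708) (nat_lit 20) .nil)))))))) (.g (nat_lit 1) (.e (nat_lit 100698) (nat_lit 0) .nil) .nil))) 
(.lf (nat_lit 477061) (.g (nat_lit 869) (.e (nat_lit 1853) (nat_lit 124) (.e (nat_lit 557098) (nat_lit 13) (.e (nat_lit 172115) (nat_lit 10) .nil))) (.g (nat_lit 0) (.e (nat_lit 101780) (nat_lit 0) .nil) .nil)))))) (.nd (nat_lit 7) (.nd (nat_lit 8) (.nd (nat_lit 9) 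
(.lf (nat_lit 476229) (.g (nat_lit 1658) (.e (nat_lit 1795) (nat_lit 119) (.e (nat_lit 516120) (nat_lit 1) (.e (nat_lit 164329) (nat_lit 230) (.e (nat_lit 163941) (nat_lit 19) (.e (nat_lit 483339) (nat_lit 9) (.e (nat_lit 426260) (nat_lit 9) (.e (nat_lit 426349) (nat_lit 15) .nil))))))) (.g (nat_lit 1) (.e (nat_lit 100217) (nat_lit 0) .nil) .nil))) 
(.lf (nat_lit 476741) (.g (nat_lit 1467) (.e (nat_lit 1802) (nat_lit 119) (.e (nat_lit 516139) (nat_lit 7) (.e (nat_lit 409647) (nat_lit 18) (.e (nat_lit 303116) (nat_lit 2) .nil)))) (.g (nat_lit 0) (.e (nat_lit 100966) (nat_lit 0) .nil) .nil)))) (.nd (nat_lit 9) 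
(.lf (nat_lit 476485) (.g (nat_lit 4317) (.e (nat_lit 1800) (nat_lit 119) (.e (nat_lit 516117) (nat_lit 1) (.e (nat_lit 164305) (nat_lit 226) (.e (nat_lit 2612) (nat_lit 163) (.e (nat_lit 163977) (nat_lit 30) (.e (nat_lit 573489) (nat_lit 14) (.e (nat_lit 73755) (nat_lit 8) (.e (nat_lit 557097) (nat_lit 13) (.e (nat_lit 172133) (nat_lit 15) .nil))))))))) (.g (nat_lit 1) (.e (nat_lit 100629) (nat_lit 0) .nil) .nil))) 
(.lf (nat_lit 476997) (.g (nat_lit 2988) (.e (nat_lit 1849) (nat_lit 124) (.e (nat_lit 557097) (nat_lit 13) (.e (nat_lit 172115) (nat_lit 10) (.e (nat_lit 434244) (nat_lit 28) (.e (nat_lit 573450) (nat_lit 9) (.e (nat_lit 457) (nat_lit 34) (.e (nat_lit 450304) (nat_lit 0) .nil))))))) (.g (nat_lit 1) (.e (nat_lit 101701) (nat_lit 0) .nil) .nil))))) (.nd (nat_lit 8) (.nd (nat_lit 9) 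
(.lf (nat_lit 476357) (.g (nat_lit 1738) (.e (nat_lit 1798) (nat_lit 119) (.e (nat_lit 516139) (nat_lit 7) (.e (nat_lit 409646) (nat_lit 18) (.e (nat_lit 303117) (nat_lit 2) .nil)))) (.g (nat_lit 0) (.e (nat_lit 100430) (nat_lit 0) .nil) .nil))) 
(.lf (nat_lit 476869) (.g (nat_lit 734) (.e (nat_lit 1847) (nat_lit 124) (.e (nat_lit 557095) (nat_lit 13) (.e (nat_lit 172115) (nat_lit 10) (.e (nat_lit 434238) (nat_lit 25) .nil)))) (.g (nat_lit 0) (.e (nat_lit 101499) (nat_lit 0) .nil) .nil)))) (.nd (nat_lit 9) 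
(.lf (nat_lit 476613) (.g (nat_lit 2172) (.e (nat_lit 1800) (nat_lit 119) (.e (nat_lit 516124) (nat_lit 2) (.e (nat_lit 213030) (nat_lit 11) (.e (nat_lit 24604) (nat_lit 2) (.e (nat_lit 90176) (nat_lit 15) (.e (nat_lit 188420) (nat_lit 0) .nil)))))) (.g (nat_lit 1) (.e (nat_lit 100771) (nat_lit 0) .nil) .nil))) 
(.lf (nat_lit 477125) (.g (nat_lit 3192) (.e (nat_lit 1853) (nat_lit 124) (.e (nat_lit 557109) (nat_lit 15) (.e (nat_lit 188452) (nat_lit 23) (.e (nat_lit 204880) (nat_lit 32) .nil)))) (.g (nat_lit 0) (.e (nat_lit 101845) (nat_lit 0) .nil) .nil))))))) (.nd (nat_lit 6) (.nd (nat_lit 7) (.nd (nat_lit 8) (.nd (nat_lit 9) 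
(.lf (nat_lit 476197) (.g (nat_lit 1304) (.e (nat_lit 1806) (nat_lit 119) (.e (nat_lit 516120) (nat_lit 1) (.e (nat_lit 164329) (nat_lit 230) .nil))) (.g (nat_lit 0) (.e (nat_lit 100180) (nat_lit 0) .nil) .nil))) 
(.lf (nat_lit 476709) (.g (nat_lit 5242) (.e (nat_lit 1801) (nat_lit 119) (.e (nat_lit 516151) (nat_lit 9) (.e (nat_lit 426211) (nat_lit 9) (.e (nat_lit 426125) (nat_lit 2) (.e (nat_lit 196617) (nat_lit 9) .nil))))) (.g (nat_lit 0) (.e (nat_lit 100925) (nat_lit 0) .nil) .nil)))) (.nd (nat_lit 9) 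
(.lf (nat_lit 476453) (.g (nat_lit 2346) (.e (nat_lit 1800) (nat_lit 119) (.e (nat_lit 516115) (nat_lit 1) (.e (nat_lit 164325) (nat_lit 230) (.e (nat_lit 163903) (nat_lit 12) (.e (nat_lit 426568) (nat_lit 34) (.e (nat_lit 393281) (nat_lit 23) (.e (nat_lit 426387) (nat_lit 15) .nil))))))) (.g (nat_lit 1) (.e (nat_lit 100568) (nat_lit 0) .nil) .nil))) 
(.lf (nat_lit 476965) (.g (nat_lit 2123) (.e (nat_lit 1848) (nat_lit 124) (.e (nat_lit 557108) (nat_lit 15) (.e (nat_lit 188449) (nat_lit 22) (.e (nat_lit 196661) (nat_lit 12) (.e (nat_lit 57749) (nat_lit 201) (.e (nat_lit 2941) (nat_lit 184) (.e (nat_lit 426401) (nat_lit 15) .nil))))))) (.g (nat_lit 1) (.e (nat_lit 101660) (nat_lit 0) .nil) .nil))))) (.nd (nat_lit 8) (.nd (nat_lit 9) 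
(.lf (nat_lit 476325) (.g (nat_lit 2566) (.e (nat_lit 1797) (nat_lit 119) (.e (nat_lit 516119) (nat_lit 1) (.e (nat_lit 164403) (nat_lit 256) (.e (nat_lit 57378) (nat_lit 3) (.e (nat_lit 98376) (nat_lit 30) .nil))))) (.g (nat_lit 0) (.e (nat_lit 100385) (nat_lit 0) .nil) .nil))) 
(.lf (nat_lit 476837) (.g (nat_lit 507) (.e (nat_lit 1885) (nat_lit 127) (.e (nat_lit 581636) (nat_lit 0) (.e (nat_lit 3022) (nat_lit 187) (.e (nat_lit 450605) (nat_lit 27) .nil)))) (.g (nat_lit 0) (.e (nat_lit 101444) (nat_lit 0) .nil) .nil)))) (.nd (nat_lit 9) 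
(.lf (nat_lit 476581) (.g (nat_lit 933) (.e (nat_lit 1800) (nat_lit 119) (.e (nat_lit 516120) (nat_lit 1) (.e (nat_lit 164330) (nat_lit 230) (.e (nat_lit 163941) (nat_lit 19) .nil)))) (.g (nat_lit 0) (.e (nat_lit 100736) (nat_lit 0) .nil) .nil))) 
(.lf (nat_lit 477093) (.g (nat_lit 1711) (.e (nat_lit 1853) (nat_lit 124) (.e (nat_lit 557107) (nat_lit 15) (.e (nat_lit 188439) (nat_lit 20) (.e (nat_lit 3270) (nat_lit 199) (.e (nat_lit 548898) (nat_lit 14) (.e (nat_lit 2988) (nat_lit 186) (.e (nat_lit 450304) (nat_lit 0) .nil))))))) (.g (nat_lit 1) (.e (nat_lit 101813) (nat_lit 0) .nil) .nil)))))) 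
(.nd (nat_lit 7) (.nd (nat_lit 8) (.nd (nat_lit 9) 
(.lf (nat_lit 476261) (.g (nat_lit 2670) (.e (nat_lit 1796) (nat_lit 119) (.e (nat_lit 516115) (nat_lit 1) (.e (nat_lit 164398) (nat_lit 256) (.e (nat_lit 57372) (nat_lit 2) (.e (nat_lit 90174) (nat_lit 14) .nil))))) (.g (nat_lit 0) (.e (nat_lit 100278) (nat_lit 0) .nil) .nil))) 
(.lf (nat_lit 476773) (.g (nat_lit 3614) (.e (nat_lit 1803) (nat_lit 119) (.e (nat_lit 516139) (nat_lit 7) (.e (nat_lit 409645) (nat_lit 18) (.e (nat_lit 303117) (nat_lit 2) (.e (nat_lit 196674) (nat_lit 15) (.e (nat_lit 81936) (nat_lit 20) .nil)))))) (.g (nat_lit 1) (.e (nat_lit 101006) (nat_lit 0) .nil) .nil)))) (.nd (nat_lit 9) 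
(.lf (nat_lit 476517) (.g (nat_lit 4961) (.e (nat_lit 1800) (nat_lit 119) (.e (nat_lit 516117) (nat_lit 1) (.e (nat_lit 164399) (nat_lit 256) (.e (nat_lit 57378) (nat_lit 3) (.e (nat_lit 98367) (nat_lit 27) (.e (nat_lit 434231) (nat_lit 23) (.e (nat_lit 532514) (nat_lit 3) (.e (nat_lit 114708) (nat_lit 20) .nil)))))))) (.g (nat_lit 1) (.e (nat_lit 100662) (nat_lit 0) .nil) .nil))) 
(.lf (nat_lit 477029) (.g (nat_lit 5430) (.e (nat_lit 1849) (nat_lit 124) (.e (nat_lit 557109) (nat_lit 15) (.e (nat_lit 188449) (nat_lit 22) (.e (nat_lit 196622) (nat_lit 9) .nil)))) (.g (nat_lit 0) (.e (nat_lit 101735) (nat_lit 0) .nil) .nil))))) (.nd (nat_lit 8) (.nd (nat_lit 9) 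
(.lf (nat_lit 476389) (.g (nat_lit 1288) (.e (nat_lit 1799) (nat_lit 119) (.e (nat_lit 516115) (nat_lit 1) (.e (nat_lit 164327) (nat_lit 230) (.e (nat_lit 163941) (nat_lit 19) .nil)))) (.g (nat_lit 0) (.e (nat_lit 100471) (nat_lit 0) .nil) .nil))) 
(.lf (nat_lit 476901) (.g (nat_lit 3621) (.e (nat_lit 1848) (nat_lit 124) (.e (nat_lit 557097) (nat_lit 13) (.e (nat_lit 172097) (nat_lit 9) (.e (nat_lit 426125) (nat_lit 2) (.e (nat_lit 196661) (nat_lit 12) (.e (nat_lit 57751) (nat_lit 201) (.e (nat_lit 2855) (nat_lit 184) (.e (nat_lit 426402) (nat_lit 15) .nil)))))))) (.g (nat_lit 1) (.e (nat_lit 101596) (nat_lit 0) .nil) .nil)))) 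
(.nd (nat_lit 9) 
(.lf (nat_lit 476645) (.g (nat_lit 3201) (.e (nat_lit 1800) (nat_lit 119) (.e (nat_lit 516139) (nat_lit 7) (.e (nat_lit 409648) (nat_lit 18) (.e (nat_lit 303117) (nat_lit 2) (.e (nat_lit 196674) (nat_lit 15) (.e (nat_lit 89856) (nat_lit 20) .nil)))))) (.g (nat_lit 1) (.e (nat_lit 100809) (nat_lit 0) .nil) .nil))) 
(.lf (nat_lit 477157) (.g (nat_lit 1533) (.e (nat_lit 1855) (nat_lit 124) (.e (nat_lit 557101) (nat_lit 13) (.e (nat_lit 172115) (nat_lit 10) (.e (nat_lit 434231) (nat_lit 23) (.e (nat_lit 532481) (nat_lit 0) .nil))))) (.g (nat_lit 0) (.e (nat_lit 101913) (nat_lit 0) .nil) .nil)))))))) (.nd (nat_lit 5) (.nd (nat_lit 6) (.nd (nat_lit 7) (.nd (nat_lit 8) (.nd (nat_lit 9) 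
(.lf (nat_lit 476181) (.g (nat_lit 2526) (.e (nat_lit 1804) (nat_lit 119) (.e (nat_lit 516119) (nat_lit 1) (.e (nat_lit 164403) (nat_lit 256) (.e (nat_lit 57378) (nat_lit 3) (.e (nat_lit 98376) (nat_lit 30) .nil))))) (.g (nat_lit 0) (.e (nat_lit 100161) (nat_lit 0) .nil) .nil))) 
(.lf (nat_lit 476693) (.g (nat_lit 1644) (.e (nat_lit 1801) (nat_lit 119) (.e (nat_lit 516138) (nat_lit 7) (.e (nat_lit 409645) (nat_lit 18) (.e (nat_lit 303117) (nat_lit 2) .nil)))) (.g (nat_lit 0) (.e (nat_lit 100895) (nat_lit 0) .nil) .nil)))) (.nd (nat_lit 9) 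
(.lf (nat_lit 476437) (.g (nat_lit 3930) (.e (nat_lit 1800) (nat_lit 119) (.e (nat_lit 516115) (nat_lit 1) (.e (nat_lit 164325) (nat_lit 230) (.e (nat_lit 163875) (nat_lit 3) (.e (nat_lit 204837) (nat_lit 20) (.e (nat_lit 114714) (nat_lit 22) (.e (nat_lit 90169) (nat_lit 13) (.e (nat_lit 172133) (nat_lit 15) .nil)))))))) (.g (nat_lit 1) (.e (nat_lit 100549) (nat_lit 0) .nil) .nil))) 
(.lf (nat_lit 476949) (.g (nat_lit 1971) (.e (nat_lit 1848) (nat_lit 124) (.e (nat_lit 557107) (nat_lit 15) (.e (nat_lit 188447) (nat_lit 22) (.e (nat_lit 196661) (nat_lit 12) (.e (nat_lit 57749) (nat_lit 201) (.e (nat_lit 2941) (nat_lit 184) (.e (nat_lit 426401) (nat_lit 15) .nil))))))) (.g (nat_lit 1) (.e (nat_lit 101644) (nat_lit 0) .nil) .nil))))) (.nd (nat_lit 8) (.nd (nat_lit 9) 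
(.lf (nat_lit 476309) (.g (nat_lit 2320) (.e (nat_lit 1796) (nat_lit 119) (.e (nat_lit 516185) (nat_lit 16) (.e (nat_lit 491560) (nat_lit 10) (.e (nat_lit 344129) (nat_lit 26) (.e (nat_lit 557087) (nat_lit 11) .nil))))) (.g (nat_lit 0) (.e (nat_lit 100367) (nat_lit 0) .nil) .nil))) 
(.lf (nat_lit 476821) (.g (nat_lit 2604) (.e (nat_lit 1872) (nat_lit 126) (.e (nat_lit 573489) (nat_lit 14) (.e (nat_lit 73755) (nat_lit 8) (.e (nat_lit 557097) (nat_lit 13) .nil)))) (.g (nat_lit 0) (.e (nat_lit 101148) (nat_lit 0) .nil) .nil)))) (.nd (nat_lit 9) 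
(.lf (nat_lit 476565) (.g (nat_lit 1923) (.e (nat_lit 1800) (nat_lit 119) (.e (nat_lit 516120) (nat_lit 1) (.e (nat_lit 164330) (nat_lit 230) (.e (nat_lit 163841) (nat_lit 0) .nil)))) (.g (nat_lit 0) (.e (nat_lit 100717) (nat_lit 0) .nil) .nil))) 
(.lf (nat_lit 477077) (.g (nat_lit 2210) (.e (nat_lit 1853) (nat_lit 124) (.e (nat_lit 557101) (nat_lit 13) (.e (nat_lit 172115) (nat_lit 10) (.e (nat_lit 434238) (nat_lit 25) (.e (nat_lit 548896) (nat_lit 14) (.e (nat_lit 3004) (nat_lit 186) (.e (nat_lit 442373) (nat_lit 0) .nil))))))) (.g (nat_lit 1) (.e (nat_lit 101796) (nat_lit 0) .nil) .nil)))))) 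
(.nd (nat_lit 7) (.nd (nat_lit 8) (.nd (nat_lit 9) 
(.lf (nat_lit 476245) (.g (nat_lit 2975) (.e (nat_lit 1795) (nat_lit 119) (.e (nat_lit 516139) (nat_lit 7) (.e (nat_lit 409645) (nat_lit 18) (.e (nat_lit 303117) (nat_lit 2) (.e (nat_lit 196674) (nat_lit 15) (.e (nat_lit 81936) (nat_lit 20) .nil)))))) (.g (nat_lit 1) (.e (nat_lit 100235) (nat_lit 0) .nil) .nil))) 
(.lf (nat_lit 476757) (.g (nat_lit 4680) (.e (nat_lit 1802) (nat_lit 119) (.e (nat_lit 516179) (nat_lit 15) (.e (nat_lit 475199) (nat_lit 40) (.e (nat_lit 704589) (nat_lit 3) (.e (nat_lit 163979) (nat_lit 30) (.e (nat_lit 573491) (nat_lit 15) (.e (nat_lit 81946) (nat_lit 20) .nil))))))) (.g (nat_lit 1) (.e (nat_lit 100985) (nat_lit 0) .nil) .nil)))) (.nd (nat_lit 9) 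
(.lf (nat_lit 476501) (.g (nat_lit 2238) (.e (nat_lit 1800) (nat_lit 119) (.e (nat_lit 516117) (nat_lit 1) (.e (nat_lit 164398) (nat_lit 256) (.e (nat_lit 57371) (nat_lit 2) (.e (nat_lit 90172) (nat_lit 14) .nil))))) (.g (nat_lit 0) (.e (nat_lit 100645) (nat_lit 0) .nil) .nil))) 
(.lf (nat_lit 477013) (.g (nat_lit 2145) (.e (nat_lit 1849) (nat_lit 124) (.e (nat_lit 557098) (nat_lit 13) (.e (nat_lit 172115) (nat_lit 10) (.e (nat_lit 434244) (nat_lit 28) (.e (nat_lit 573458) (nat_lit 9) .nil))))) (.g (nat_lit 0) (.e (nat_lit 101717) (nat_lit 0) .nil) .nil))))) (.nd (nat_lit 8) (.nd (nat_lit 9) 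
(.lf (nat_lit 476373) (.g (nat_lit 6214) (.e (nat_lit 1798) (nat_lit 119) (.e (nat_lit 516166) (nat_lit 12) (.e (nat_lit 450588) (nat_lit 10) (.e (nat_lit 573478) (nat_lit 12) .nil)))) (.g (nat_lit 0) (.e (nat_lit 100447) (nat_lit 0) .nil) .nil))) 
(.lf (nat_lit 476885) (.g (nat_lit 905) (.e (nat_lit 1848) (nat_lit 124) (.e (nat_lit 557087) (nat_lit 11) (.e (nat_lit 24663) (nat_lit 14) .nil))) (.g (nat_lit 0) (.e (nat_lit 101573) (nat_lit 0) .nil) .nil)))) (.nd (nat_lit 9) 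
(.lf (nat_lit 476629) (.g (nat_lit 1669) (.e (nat_lit 1800) (nat_lit 119) (.e (nat_lit 516139) (nat_lit 7) (.e (nat_lit 409643) (nat_lit 18) (.e (nat_lit 303112) (nat_lit 0) (.e (nat_lit 3252) (nat_lit 197) (.e (nat_lit 532561) (nat_lit 14) (.e (nat_lit 376855) (nat_lit 20) .nil))))))) (.g (nat_lit 1) (.e (nat_lit 100792) (nat_lit 0) .nil) .nil))) 
(.lf (nat_lit 477141) (.g (nat_lit 3232) (.e (nat_lit 1855) (nat_lit 124) (.e (nat_lit 557070) (nat_lit 9) (.e (nat_lit 2744) (nat_lit 174) (.e (nat_lit 253992) (nat_lit 11) (.e (nat_lit 16416) (nat_lit 3) (.e (nat_lit 204877) (nat_lit 31) (.e (nat_lit 376855) (nat_lit 20) .nil))))))) (.g (nat_lit 1) (.e (nat_lit 101868) (nat_lit 0) .nil) .nil))))))) 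
(.nd (nat_lit 6) (.nd (nat_lit 7) (.nd (nat_lit 8) (.nd (nat_lit 9) 
(.lf (nat_lit 476213) (.g (nat_lit 1743) (.e (nat_lit 1795) (nat_lit 119) (.e (nat_lit 516117) (nat_lit 1) (.e (nat_lit 164329) (nat_lit 230) (.e (nat_lit 163941) (nat_lit 19) (.e (nat_lit 483341) (nat_lit 9) .nil))))) (.g (nat_lit 0) (.e (nat_lit 100200) (nat_lit 0) .nil) .nil))) 
(.lf (nat_lit 476725) (.g (nat_lit 2574) (.e (nat_lit 1801) (nat_lit 119) (.e (nat_lit 516179) (nat_lit 15) (.e (nat_lit 475199) (nat_lit 40) (.e (nat_lit 704589) (nat_lit 3) (.e (nat_lit 163976) (nat_lit 30) (.e (nat_lit 573491) (nat_lit 15) (.e (nat_lit 81943) (nat_lit 20) .nil))))))) (.g (nat_lit 1) (.e (nat_lit 100941) (nat_lit 0) .nil) .nil)))) (.nd (nat_lit 9) 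
(.lf (nat_lit 476469) (.g (nat_lit 2689) (.e (nat_lit 1800) (nat_lit 119) (.e (nat_lit 516115) (nat_lit 1) (.e (nat_lit 164327) (nat_lit 230) (.e (nat_lit 163875) (nat_lit 3) (.e (nat_lit 204837) (nat_lit 20) .nil))))) (.g (nat_lit 0) (.e (nat_lit 100606) (nat_lit 0) .nil) .nil))) 
(.lf (nat_lit 476981) (.g (nat_lit 3215) (.e (nat_lit 1849) (nat_lit 124) (.e (nat_lit 557087) (nat_lit 11) (.e (nat_lit 24617) (nat_lit 7) (.e (nat_lit 319504) (nat_lit 10) (.e (nat_lit 7936) (nat_lit 45) (.e (nat_lit 532547) (nat_lit 11) (.e (nat_lit 352303) (nat_lit 20) .nil))))))) (.g (nat_lit 1) (.e (nat_lit 101683) (nat_lit 0) .nil) .nil))))) (.nd (nat_lit 8) (.nd (nat_lit 9) 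
(.lf (nat_lit 476341) (.g (nat_lit 4298) (.e (nat_lit 1798) (nat_lit 119) (.e (nat_lit 516115) (nat_lit 1) (.e (nat_lit 164325) (nat_lit 230) (.e (nat_lit 163907) (nat_lit 12) (.e (nat_lit 426566) (nat_lit 34) (.e (nat_lit 393273) (nat_lit 23) (.e (nat_lit 426364) (nat_lit 15) .nil))))))) (.g (nat_lit 1) (.e (nat_lit 100408) (nat_lit 0) .nil) .nil))) 
(.lf (nat_lit 476853) (.g (nat_lit 1910) (.e (nat_lit 1846) (nat_lit 124) (.e (nat_lit 557101) (nat_lit 13) (.e (nat_lit 172115) (nat_lit 10) (.e (nat_lit 434238) (nat_lit 25) (.e (nat_lit 548898) (nat_lit 14) (.e (nat_lit 3004) (nat_lit 186) (.e (nat_lit 442373) (nat_lit 0) .nil))))))) (.g (nat_lit 1) (.e (nat_lit 101480) (nat_lit 0) .nil) .nil)))) (.nd (nat_lit 9) 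
(.lf (nat_lit 476597) (.g (nat_lit 2432) (.e (nat_lit 1800) (nat_lit 119) (.e (nat_lit 516120) (nat_lit 1) (.e (nat_lit 164331) (nat_lit 230) (.e (nat_lit 163941) (nat_lit 19) (.e (nat_lit 491264) (nat_lit 11) (.e (nat_lit 442377) (nat_lit 0) .nil)))))) (.g (nat_lit 1) (.e (nat_lit 100752) (nat_lit 0) .nil) .nil))) 
(.lf (nat_lit 477109) (.g (nat_lit 2196) (.e (nat_lit 1853) (nat_lit 124) (.e (nat_lit 557107) (nat_lit 15) (.e (nat_lit 188440) (nat_lit 20) (.e (nat_lit 3272) (nat_lit 199) (.e (nat_lit 548898) (nat_lit 14) (.e (nat_lit 2988) (nat_lit 186) (.e (nat_lit 442373) (nat_lit 0) .nil))))))) (.g (nat_lit 1) (.e (nat_lit 101829) (nat_lit 0) .nil) .nil)))))) 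
(.nd (nat_lit 7) (.nd (nat_lit 8) (.nd (nat_lit 9) 
(.lf (nat_lit 476277) (.g (nat_lit 1793) (.e (nat_lit 1796) (nat_lit 119) (.e (nat_lit 516120) (nat_lit 1) (.e (nat_lit 164330) (nat_lit 230) (.e (nat_lit 163943) (nat_lit 19) .nil)))) (.g (nat_lit 0) (.e (nat_lit 100314) (nat_lit 0) .nil) .nil))) 
(.lf (nat_lit 476789) (.g (nat_lit 1798) (.e (nat_lit 7936) (nat_lit 119) (.e (nat_lit 516179) (nat_lit 15) (.e (nat_lit 475199) (nat_lit 40) (.e (nat_lit 704589) (nat_lit 3) (.e (nat_lit 163979) (nat_lit 30) .nil))))) (.g (nat_lit 0) (.e (nat_lit 101032) (nat_lit 0) .nil) .nil)))) (.nd (nat_lit 9) 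
(.lf (nat_lit 476533) (.g (nat_lit 1455) (.e (nat_lit 1800) (nat_lit 119) (.e (nat_lit 516119) (nat_lit 1) (.e (nat_lit 164324) (nat_lit 230) (.e (nat_lit 163942) (nat_lit 19) .nil)))) (.g (nat_lit 0) (.e (nat_lit 100680) (nat_lit 0) .nil) .nil))) 
(.lf (nat_lit 477045) (.g (nat_lit 2449) (.e (nat_lit 1853) (nat_lit 124) (.e (nat_lit 557097) (nat_lit 13) (.e (nat_lit 172115) (nat_lit 10) (.e (nat_lit 434238) (nat_lit 25) (.e (nat_lit 548897) (nat_lit 14) (.e (nat_lit 2988) (nat_lit 186) (.e (nat_lit 450304) (nat_lit 0) .nil))))))) (.g (nat_lit 1) (.e (nat_lit 101764) (nat_lit 0) .nil) .nil))))) (.nd (nat_lit 8) (.nd (nat_lit 9) 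
(.lf (nat_lit 476405) (.g (nat_lit 1816) (.e (nat_lit 1799) (nat_lit 119) (.e (nat_lit 516138) (nat_lit 7) (.e (nat_lit 409646) (nat_lit 18) (.e (nat_lit 303117) (nat_lit 2) .nil)))) (.g (nat_lit 0) (.e (nat_lit 100489) (nat_lit 0) .nil) .nil))) 
(.lf (nat_lit 476917) (.g (nat_lit 2794) (.e (nat_lit 1848) (nat_lit 124) (.e (nat_lit 557097) (nat_lit 13) (.e (nat_lit 172115) (nat_lit 10) (.e (nat_lit 434238) (nat_lit 25) (.e (nat_lit 548896) (nat_lit 14) (.e (nat_lit 3004) (nat_lit 186) (.e (nat_lit 450304) (nat_lit 0) .nil))))))) (.g (nat_lit 1) (.e (nat_lit 101612) (nat_lit 0) .nil) .nil)))) (.nd (nat_lit 9) 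
(.lf (nat_lit 476661) (.g (nat_lit 1943) (.e (nat_lit 1800) (nat_lit 119) (.e (nat_lit 516179) (nat_lit 15) (.e (nat_lit 475177) (nat_lit 24) (.e (nat_lit 516146) (nat_lit 9) (.e (nat_lit 426438) (nat_lit 18) .nil))))) (.g (nat_lit 0) (.e (nat_lit 100848) (nat_lit 0) .nil) .nil))) 
(.lf (nat_lit 477173) (.g (nat_lit 2224) (.e (nat_lit 1855) (nat_lit 124) (.e (nat_lit 557105) (nat_lit 14) (.e (nat_lit 180252) (nat_lit 10) (.e (nat_lit 573480) (nat_lit 13) (.e (nat_lit 73472) (nat_lit 18) .nil))))) (.g (nat_lit 0) (.e (nat_lit 101929) (nat_lit 0) .nil) .nil))))))))) (.nd (nat_lit 4) (.nd (nat_lit 5) (.nd (nat_lit 6) (.nd (nat_lit 7) (.nd (nat_lit 8) (.nd (nat_lit 9) 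
(.lf (nat_lit 476173) (.g (nat_lit 4047) (.e (nat_lit 1793) (nat_lit 119) (.e (nat_lit 516166) (nat_lit 12) (.e (nat_lit 450587) (nat_lit 10) (.e (nat_lit 573477) (nat_lit 12) (.e (nat_lit 57574) (nat_lit 55) .nil))))) (.g (nat_lit 0) (.e (nat_lit 100153) (nat_lit 0) .nil) .nil))) 
(.lf (nat_lit 476685) (.g (nat_lit 2582) (.e (nat_lit 1801) (nat_lit 119) (.e (nat_lit 516119) (nat_lit 1) (.e (nat_lit 164403) (nat_lit 256) (.e (nat_lit 57373) (nat_lit 2) (.e (nat_lit 90174) (nat_lit 14) .nil))))) (.g (nat_lit 0) (.e (nat_lit 100886) (nat_lit 0) .nil) .nil)))) (.nd (nat_lit 9) 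
(.lf (nat_lit 476429) (.g (nat_lit 323) (.e (nat_lit 1800) (nat_lit 119) (.e (nat_lit 516115) (nat_lit 1) (.e (nat_lit 164325) (nat_lit 230) .nil))) (.g (nat_lit 0) (.e (nat_lit 100539) (nat_lit 0) .nil) .nil))) 
(.lf (nat_lit 476941) (.g (nat_lit 3200) (.e (nat_lit 1848) (nat_lit 124) (.e (nat_lit 557100) (nat_lit 13) (.e (nat_lit 172106) (nat_lit 10) (.e (nat_lit 434231) (nat_lit 23) (.e (nat_lit 532563) (nat_lit 15) .nil))))) (.g (nat_lit 0) (.e (nat_lit 101636) (nat_lit 0) .nil) .nil))))) (.nd (nat_lit 8) (.nd (nat_lit 9) 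
(.lf (nat_lit 476301) (.g (nat_lit 2129) (.e (nat_lit 1796) (nat_lit 119) (.e (nat_lit 516166) (nat_lit 12) (.e (nat_lit 450587) (nat_lit 10) (.e (nat_lit 573457) (nat_lit 9) (.e (nat_lit 430) (nat_lit 32) (.e (nat_lit 426343) (nat_lit 14) (.e (nat_lit 491530) (nat_lit 0) .nil))))))) (.g (nat_lit 1) (.e (nat_lit 100359) (nat_lit 0) .nil) .nil))) 
(.lf (nat_lit 476813) (.g (nat_lit 4691) (.e (nat_lit 1842) (nat_lit 123) (.e (nat_lit 548874) (nat_lit 5) (.e (nat_lit 1401) (nat_lit 106) (.e (nat_lit 319538) (nat_lit 19) (.e (nat_lit 311315) (nat_lit 3) (.e (nat_lit 204846) (nat_lit 24) (.e (nat_lit 319534) (nat_lit 16) (.e (nat_lit 286728) (nat_lit 0) .nil)))))))) (.g (nat_lit 1) (.e (nat_lit 101107) (nat_lit 0) .nil) .nil)))) 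
(.nd (nat_lit 9) 
(.lf (nat_lit 476557) (.g (nat_lit 2060) (.e (nat_lit 1800) (nat_lit 119) (.e (nat_lit 516119) (nat_lit 1) (.e (nat_lit 164403) (nat_lit 256) (.e (nat_lit 57378) (nat_lit 3) (.e (nat_lit 98376) (nat_lit 30) .nil))))) (.g (nat_lit 0) (.e (nat_lit 100709) (nat_lit 0) .nil) .nil))) 
(.lf (nat_lit 477069) (.g (nat_lit 2739) (.e (nat_lit 1853) (nat_lit 124) (.e (nat_lit 557100) (nat_lit 13) (.e (nat_lit 172106) (nat_lit 10) (.e (nat_lit 434244) (nat_lit 28) (.e (nat_lit 573450) (nat_lit 9) (.e (nat_lit 455) (nat_lit 34) (.e (nat_lit 442373) (nat_lit 0) .nil))))))) (.g (nat_lit 1) (.e (nat_lit 101788) (nat_lit 0) .nil) .nil)))))) 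
(.nd (nat_lit 7) (.nd (nat_lit 8) (.nd (nat_lit 9) 
(.lf (nat_lit 476237) (.g (nat_lit 3452) (.e (nat_lit 1795) (nat_lit 119) (.e (nat_lit 516120) (nat_lit 1) (.e (nat_lit 164403) (nat_lit 256) (.e (nat_lit 57373) (nat_lit 2) (.e (nat_lit 90172) (nat_lit 14) .nil))))) (.g (nat_lit 0) (.e (nat_lit 100225) (nat_lit 0) .nil) .nil))) 
(.lf (nat_lit 476749) (.g (nat_lit 2104) (.e (nat_lit 1802) (nat_lit 119) (.e (nat_lit 516179) (nat_lit 15) (.e (nat_lit 475199) (nat_lit 40) (.e (nat_lit 704589) (nat_lit 3) (.e (nat_lit 163975) (nat_lit 30) .nil))))) (.g (nat_lit 0) (.e (nat_lit 100977) (nat_lit 0) .nil) .nil)))) (.nd (nat_lit 9) 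
(.lf (nat_lit 476493) (.g (nat_lit 2140) (.e (nat_lit 1800) (nat_lit 119) (.e (nat_lit 516117) (nat_lit 1) (.e (nat_lit 164329) (nat_lit 230) (.e (nat_lit 163941) (nat_lit 19) (.e (nat_lit 491264) (nat_lit 11) (.e (nat_lit 450304) (nat_lit 0) .nil)))))) (.g (nat_lit 1) (.e (nat_lit 100637) (nat_lit 0) .nil) .nil))) 
(.lf (nat_lit 477005) (.g (nat_lit 2088) (.e (nat_lit 1849) (nat_lit 124) (.e (nat_lit 557098) (nat_lit 13) (.e (nat_lit 172115) (nat_lit 10) (.e (nat_lit 434231) (nat_lit 23) (.e (nat_lit 532481) (nat_lit 0) .nil))))) (.g (nat_lit 0) (.e (nat_lit 101709) (nat_lit 0) .nil) .nil))))) (.nd (nat_lit 8) (.nd (nat_lit 9) 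
(.lf (nat_lit 476365) (.g (nat_lit 1698) (.e (nat_lit 1798) (nat_lit 119) (.e (nat_lit 516165) (nat_lit 12) (.e (nat_lit 450586) (nat_lit 10) (.e (nat_lit 573478) (nat_lit 12) .nil)))) (.g (nat_lit 0) (.e (nat_lit 100439) (nat_lit 0) .nil) .nil))) 
(.lf (nat_lit 476877) (.g (nat_lit 1965) (.e (nat_lit 1848) (nat_lit 124) (.e (nat_lit 557087) (nat_lit 11) (.e (nat_lit 24617) (nat_lit 7) (.e (nat_lit 319503) (nat_lit 10) .nil)))) (.g (nat_lit 0) (.e (nat_lit 101548) (nat_lit 0) .nil) .nil)))) (.nd (nat_lit 9) 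
(.lf (nat_lit 476621) (.g (nat_lit 1979) (.e (nat_lit 1800) (nat_lit 119) (.e (nat_lit 516126) (nat_lit 2) (.e (nat_lit 213032) (nat_lit 11) (.e (nat_lit 24604) (nat_lit 2) (.e (nat_lit 90178) (nat_lit 15) (.e (nat_lit 196352) (nat_lit 0) .nil)))))) (.g (nat_lit 1) (.e (nat_lit 100779) (nat_lit 0) .nil) .nil))) 
(.lf (nat_lit 477133) (.g (nat_lit 1724) (.e (nat_lit 1855) (nat_lit 124) (.e (nat_lit 557066) (nat_lit 9) (.e (nat_lit 232) (nat_lit 21) (.e (nat_lit 336060) (nat_lit 7) .nil)))) (.g (nat_lit 0) (.e (nat_lit 101854) (nat_lit 0) .nil) .nil))))))) (.nd (nat_lit 6) (.nd (nat_lit 7) (.nd (nat_lit 8) (.nd (nat_lit 9) 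
(.lf (nat_lit 476205) (.g (nat_lit 2779) (.e (nat_lit 1807) (nat_lit 119) (.e (nat_lit 516119) (nat_lit 1) (.e (nat_lit 164403) (nat_lit 256) (.e (nat_lit 57373) (nat_lit 2) (.e (nat_lit 90172) (nat_lit 14) .nil))))) (.g (nat_lit 0) (.e (nat_lit 100189) (nat_lit 0) .nil) .nil))) 
(.lf (nat_lit 476717) (.g (nat_lit 4098) (.e (nat_lit 1801) (nat_lit 119) (.e (nat_lit 516166) (nat_lit 12) (.e (nat_lit 450587) (nat_lit 10) (.e (nat_lit 573456) (nat_lit 9) .nil)))) (.g (nat_lit 0) (.e (nat_lit 100933) (nat_lit 0) .nil) .nil)))) (.nd (nat_lit 9) 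
(.lf (nat_lit 476461) (.g (nat_lit 2259) (.e (nat_lit 1800) (nat_lit 119) (.e (nat_lit 516115) (nat_lit 1) (.e (nat_lit 164325) (nat_lit 230) (.e (nat_lit 163907) (nat_lit 12) (.e (nat_lit 426566) (nat_lit 34) (.e (nat_lit 393273) (nat_lit 23) (.e (nat_lit 426382) (nat_lit 15) .nil))))))) (.g (nat_lit 1) (.e (nat_lit 100577) (nat_lit 0) .nil) .nil))) 
(.lf (nat_lit 476973) (.g (nat_lit 1944) (.e (nat_lit 1848) (nat_lit 124) (.e (nat_lit 557108) (nat_lit 15) (.e (nat_lit 188452) (nat_lit 23) (.e (nat_lit 204880) (nat_lit 32) .nil)))) (.g (nat_lit 0) (.e (nat_lit 101668) (nat_lit 0) .nil) .nil))))) (.nd (nat_lit 8) (.nd (nat_lit 9) 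
(.lf (nat_lit 476333) (.g (nat_lit 2768) (.e (nat_lit 1797) (nat_lit 119) (.e (nat_lit 516120) (nat_lit 1) (.e (nat_lit 164403) (nat_lit 256) (.e (nat_lit 57378) (nat_lit 3) (.e (nat_lit 98358) (nat_lit 26) .nil))))) (.g (nat_lit 0) (.e (nat_lit 100393) (nat_lit 0) .nil) .nil))) 
(.lf (nat_lit 476845) (.g (nat_lit 1277) (.e (nat_lit 1846) (nat_lit 124) (.e (nat_lit 557098) (nat_lit 13) (.e (nat_lit 172097) (nat_lit 9) (.e (nat_lit 426140) (nat_lit 3) .nil)))) (.g (nat_lit 0) (.e (nat_lit 101472) (nat_lit 0) .nil) .nil)))) (.nd (nat_lit 9) 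
(.lf (nat_lit 476589) (.g (nat_lit 2014) (.e (nat_lit 1800) (nat_lit 119) (.e (nat_lit 516120) (nat_lit 1) (.e (nat_lit 164330) (nat_lit 230) (.e (nat_lit 163941) (nat_lit 19) (.e (nat_lit 483341) (nat_lit 9) (.e (nat_lit 426198) (nat_lit 9) (.e (nat_lit 426420) (nat_lit 15) .nil))))))) (.g (nat_lit 1) (.e (nat_lit 100744) (nat_lit 0) .nil) .nil))) 
(.lf (nat_lit 477101) (.g (nat_lit 1743) (.e (nat_lit 1853) (nat_lit 124) (.e (nat_lit 557107) (nat_lit 15) (.e (nat_lit 188439) (nat_lit 20) (.e (nat_lit 3272) (nat_lit 199) (.e (nat_lit 548897) (nat_lit 14) (.e (nat_lit 2988) (nat_lit 186) (.e (nat_lit 450304) (nat_lit 0) .nil))))))) (.g (nat_lit 1) (.e (nat_lit 101821) (nat_lit 0) .nil) .nil)))))) 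
(.nd (nat_lit 7) (.nd (nat_lit 8) (.nd (nat_lit 9) 
(.lf (nat_lit 476269) (.g (nat_lit 1676) (.e (nat_lit 1796) (nat_lit 119) (.e (nat_lit 516119) (nat_lit 1) (.e (nat_lit 164326) (nat_lit 230) (.e (nat_lit 163903) (nat_lit 12) (.e (nat_lit 426568) (nat_lit 34) .nil))))) (.g (nat_lit 0) (.e (nat_lit 100303) (nat_lit 0) .nil) .nil))) 
(.lf (nat_lit 476781) (.g (nat_lit 2578) (.e (nat_lit 1803) (nat_lit 119) (.e (nat_lit 516179) (nat_lit 15) (.e (nat_lit 475177) (nat_lit 24) (.e (nat_lit 516146) (nat_lit 9) (.e (nat_lit 426438) (nat_lit 18) .nil))))) (.g (nat_lit 0) (.e (nat_lit 101018) (nat_lit 0) .nil) .nil)))) (.nd (nat_lit 9) 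
(.lf (nat_lit 476525) (.g (nat_lit 4348) (.e (nat_lit 1800) (nat_lit 119) (.e (nat_lit 516117) (nat_lit 1) (.e (nat_lit 164403) (nat_lit 256) (.e (nat_lit 57378) (nat_lit 3) (.e (nat_lit 98366) (nat_lit 27) (.e (nat_lit 434231) (nat_lit 23) (.e (nat_lit 532514) (nat_lit 3) (.e (nat_lit 114708) (nat_lit 20) .nil)))))))) (.g (nat_lit 1) (.e (nat_lit 100671) (nat_lit 0) .nil) .nil))) 
(.lf (nat_lit 477037) (.g (nat_lit 2546) (.e (nat_lit 1849) (nat_lit 124) (.e (nat_lit 557109) (nat_lit 15) (.e (nat_lit 188450) (nat_lit 23) (.e (nat_lit 204884) (nat_lit 33) .nil)))) (.g (nat_lit 0) (.e (nat_lit 101743) (nat_lit 0) .nil) .nil))))) (.nd (nat_lit 8) (.nd (nat_lit 9) 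
(.lf (nat_lit 476397) (.g (nat_lit 2088) (.e (nat_lit 1799) (nat_lit 119) (.e (nat_lit 516120) (nat_lit 1) (.e (nat_lit 164329) (nat_lit 230) (.e (nat_lit 163941) (nat_lit 19) (.e (nat_lit 483341) (nat_lit 9) (.e (nat_lit 426200) (nat_lit 9) (.e (nat_lit 426362) (nat_lit 15) .nil))))))) (.g (nat_lit 1) (.e (nat_lit 100480) (nat_lit 0) .nil) .nil))) 
(.lf (nat_lit 476909) (.g (nat_lit 3142) (.e (nat_lit 1848) (nat_lit 124) (.e (nat_lit 557097) (nat_lit 13) (.e (nat_lit 172115) (nat_lit 10) (.e (nat_lit 434231) (nat_lit 23) (.e (nat_lit 532490) (nat_lit 0) (.e (nat_lit 6674) (nat_lit 357) (.e (nat_lit 2939) (nat_lit 184) (.e (nat_lit 426401) (nat_lit 15) .nil)))))))) (.g (nat_lit 1) (.e (nat_lit 101604) (nat_lit 0) .nil) .nil)))) 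
(.nd (nat_lit 9) 
(.lf (nat_lit 476653) (.g (nat_lit 3556) (.e (nat_lit 1800) (nat_lit 119) (.e (nat_lit 516139) (nat_lit 7) (.e (nat_lit 409649) (nat_lit 18) (.e (nat_lit 303111) (nat_lit 0) (.e (nat_lit 3255) (nat_lit 197) (.e (nat_lit 532560) (nat_lit 14) (.e (nat_lit 376855) (nat_lit 20) .nil))))))) (.g (nat_lit 1) (.e (nat_lit 100818) (nat_lit 0) .nil) .nil))) 
(.lf (nat_lit 477165) (.g (nat_lit 3683) (.e (nat_lit 1855) (nat_lit 124) (.e (nat_lit 557101) (nat_lit 13) (.e (nat_lit 172115) (nat_lit 10) (.e (nat_lit 434244) (nat_lit 28) (.e (nat_lit 573450) (nat_lit 9) (.e (nat_lit 457) (nat_lit 34) (.e (nat_lit 442372) (nat_lit 0) .nil))))))) (.g (nat_lit 1) (.e (nat_lit 101921) (nat_lit 0) .nil) .nil)))))))) 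
(.nd (nat_lit 5) (.nd (nat_lit 6) (.nd (nat_lit 7) (.nd (nat_lit 8) (.nd (nat_lit 9) 
(.lf (nat_lit 476189) (.g (nat_lit 2779) (.e (nat_lit 1805) (nat_lit 119) (.e (nat_lit 516119) (nat_lit 1) (.e (nat_lit 164403) (nat_lit 256) (.e (nat_lit 57373) (nat_lit 2) (.e (nat_lit 90172) (nat_lit 14) .nil))))) (.g (nat_lit 0) (.e (nat_lit 100171) (nat_lit 0) .nil) .nil))) 
(.lf (nat_lit 476701) (.g (nat_lit 2519) (.e (nat_lit 1801) (nat_lit 119) (.e (nat_lit 516139) (nat_lit 7) (.e (nat_lit 409648) (nat_lit 18) (.e (nat_lit 303116) (nat_lit 2) (.e (nat_lit 196674) (nat_lit 15) .nil))))) (.g (nat_lit 0) (.e (nat_lit 100913) (nat_lit 0) .nil) .nil)))) (.nd (nat_lit 9) 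
(.lf (nat_lit 476445) (.g (nat_lit 3282) (.e (nat_lit 1800) (nat_lit 119) (.e (nat_lit 516115) (nat_lit 1) (.e (nat_lit 164325) (nat_lit 230) (.e (nat_lit 163903) (nat_lit 12) (.e (nat_lit 426479) (nat_lit 27) (.e (nat_lit 336430) (nat_lit 29) (.e (nat_lit 442379) (nat_lit 0) .nil))))))) (.g (nat_lit 1) (.e (nat_lit 100558) (nat_lit 0) .nil) .nil))) 
(.lf (nat_lit 476957) (.g (nat_lit 1170) (.e (nat_lit 1848) (nat_lit 124) (.e (nat_lit 557107) (nat_lit 15) (.e (nat_lit 188450) (nat_lit 23) (.e (nat_lit 204881) (nat_lit 32) .nil)))) (.g (nat_lit 0) (.e (nat_lit 101652) (nat_lit 0) .nil) .nil))))) (.nd (nat_lit 8) (.nd (nat_lit 9) 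
(.lf (nat_lit 476317) (.g (nat_lit 2803) (.e (nat_lit 1797) (nat_lit 119) (.e (nat_lit 516115) (nat_lit 1) (.e (nat_lit 164399) (nat_lit 256) (.e (nat_lit 57378) (nat_lit 3) (.e (nat_lit 98357) (nat_lit 26) .nil))))) (.g (nat_lit 0) (.e (nat_lit 100377) (nat_lit 0) .nil) .nil))) 
(.lf (nat_lit 476829) (.g (nat_lit 2762) (.e (nat_lit 1877) (nat_lit 126) (.e (nat_lit 573492) (nat_lit 15) (.e (nat_lit 81956) (nat_lit 23) (.e (nat_lit 98350) (nat_lit 24) .nil)))) (.g (nat_lit 0) (.e (nat_lit 101323) (nat_lit 0) .nil) .nil)))) (.nd (nat_lit 9) 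
(.lf (nat_lit 476573) (.g (nat_lit 2710) (.e (nat_lit 1800) (nat_lit 119) (.e (nat_lit 516120) (nat_lit 1) (.e (nat_lit 164330) (nat_lit 230) (.e (nat_lit 163902) (nat_lit 12) (.e (nat_lit 426478) (nat_lit 27) (.e (nat_lit 336426) (nat_lit 29) (.e (nat_lit 442374) (nat_lit 0) .nil))))))) (.g (nat_lit 1) (.e (nat_lit 100728) (nat_lit 0) .nil) .nil))) 
(.lf (nat_lit 477085) (.g (nat_lit 2676) (.e (nat_lit 1853) (nat_lit 124) (.e (nat_lit 557101) (nat_lit 13) (.e (nat_lit 172115) (nat_lit 10) (.e (nat_lit 434238) (nat_lit 25) (.e (nat_lit 548898) (nat_lit 14) (.e (nat_lit 3004) (nat_lit 186) (.e (nat_lit 442373) (nat_lit 0) .nil))))))) (.g (nat_lit 1) (.e (nat_lit 101804) (nat_lit 0) .nil) .nil)))))) 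
(.nd (nat_lit 7) (.nd (nat_lit 8) (.nd (nat_lit 9) 
(.lf (nat_lit 476253) (.g (nat_lit 2762) (.e (nat_lit 1796) (nat_lit 119) (.e (nat_lit 516115) (nat_lit 1) (.e (nat_lit 164325) (nat_lit 230) (.e (nat_lit 163875) (nat_lit 3) (.e (nat_lit 204838) (nat_lit 20) .nil))))) (.g (nat_lit 0) (.e (nat_lit 100260) (nat_lit 0) .nil) .nil))) 
(.lf (nat_lit 476765) (.g (nat_lit 2400) (.e (nat_lit 1803) (nat_lit 119) (.e (nat_lit 516119) (nat_lit 1) (.e (nat_lit 164403) (nat_lit 256) (.e (nat_lit 57371) (nat_lit 2) (.e (nat_lit 90172) (nat_lit 14) .nil))))) (.g (nat_lit 0) (.e (nat_lit 100995) (nat_lit 0) .nil) .nil)))) (.nd (nat_lit 9) 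
(.lf (nat_lit 476509) (.g (nat_lit 4319) (.e (nat_lit 1800) (nat_lit 119) (.e (nat_lit 516117) (nat_lit 1) (.e (nat_lit 164398) (nat_lit 256) (.e (nat_lit 57378) (nat_lit 3) (.e (nat_lit 98367) (nat_lit 27) (.e (nat_lit 434231) (nat_lit 23) (.e (nat_lit 532514) (nat_lit 3) (.e (nat_lit 114708) (nat_lit 20) .nil)))))))) (.g (nat_lit 1) (.e (nat_lit 100654) (nat_lit 0) .nil) .nil))) 
(.lf (nat_lit 477021) (.g (nat_lit 1978) (.e (nat_lit 1849) (nat_lit 124) (.e (nat_lit 557108) (nat_lit 15) (.e (nat_lit 188449) (nat_lit 22) (.e (nat_lit 196661) (nat_lit 12) (.e (nat_lit 57749) (nat_lit 201) (.e (nat_lit 2940) (nat_lit 184) (.e (nat_lit 433920) (nat_lit 15) .nil))))))) (.g (nat_lit 1) (.e (nat_lit 101727) (nat_lit 0) .nil) .nil))))) (.nd (nat_lit 8) (.nd (nat_lit 9) 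
(.lf (nat_lit 476381) (.g (nat_lit 2756) (.e (nat_lit 1798) (nat_lit 119) (.e (nat_lit 516179) (nat_lit 15) (.e (nat_lit 475199) (nat_lit 40) (.e (nat_lit 704589) (nat_lit 3) (.e (nat_lit 163979) (nat_lit 30) (.e (nat_lit 573491) (nat_lit 15) (.e (nat_lit 81947) (nat_lit 20) .nil))))))) (.g (nat_lit 1) (.e (nat_lit 100459) (nat_lit 0) .nil) .nil))) 
(.lf (nat_lit 476893) (.g (nat_lit 2958) (.e (nat_lit 1848) (nat_lit 124) (.e (nat_lit 557097) (nat_lit 13) (.e (nat_lit 172097) (nat_lit 9) (.e (nat_lit 426125) (nat_lit 2) (.e (nat_lit 196661) (nat_lit 12) (.e (nat_lit 57749) (nat_lit 201) (.e (nat_lit 2939) (nat_lit 184) (.e (nat_lit 426401) (nat_lit 15) .nil)))))))) (.g (nat_lit 1) (.e (nat_lit 101588) (nat_lit 0) .nil) .nil)))) 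
(.nd (nat_lit 9) 
(.lf (nat_lit 476637) (.g (nat_lit 3983) (.e (nat_lit 1800) (nat_lit 119) (.e (nat_lit 516139) (nat_lit 7) (.e (nat_lit 409646) (nat_lit 18) (.e (nat_lit 303117) (nat_lit 2) (.e (nat_lit 196674) (nat_lit 15) (.e (nat_lit 89856) (nat_lit 20) .nil)))))) (.g (nat_lit 1) (.e (nat_lit 100800) (nat_lit 0) .nil) .nil))) 
(.lf (nat_lit 477149) (.g (nat_lit 3673) (.e (nat_lit 1855) (nat_lit 124) (.e (nat_lit 557098) (nat_lit 13) (.e (nat_lit 172115) (nat_lit 10) (.e (nat_lit 434244) (nat_lit 28) (.e (nat_lit 573450) (nat_lit 9) (.e (nat_lit 455) (nat_lit 34) (.e (nat_lit 442372) (nat_lit 0) .nil))))))) (.g (nat_lit 1) (.e (nat_lit 101905) (nat_lit 0) .nil) .nil))))))) 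
(.nd (nat_lit 6) (.nd (nat_lit 7) (.nd (nat_lit 8) (.nd (nat_lit 9) 
(.lf (nat_lit 476221) (.g (nat_lit 2151) (.e (nat_lit 1795) (nat_lit 119) (.e (nat_lit 516119) (nat_lit 1) (.e (nat_lit 164402) (nat_lit 256) (.e (nat_lit 57373) (nat_lit 2) (.e (nat_lit 90172) (nat_lit 14) .nil))))) (.g (nat_lit 0) (.e (nat_lit 100208) (nat_lit 0) .nil) .nil))) 
(.lf (nat_lit 476733) (.g (nat_lit 1271) (.e (nat_lit 1802) (nat_lit 119) (.e (nat_lit 516117) (nat_lit 1) (.e (nat_lit 164329) (nat_lit 230) .nil))) (.g (nat_lit 0) (.e (nat_lit 100956) (nat_lit 0) .nil) .nil)))) (.nd (nat_lit 9) 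
(.lf (nat_lit 476477) (.g (nat_lit 2592) (.e (nat_lit 1800) (nat_lit 119) (.e (nat_lit 516115) (nat_lit 1) (.e (nat_lit 164398) (nat_lit 256) (.e (nat_lit 57378) (nat_lit 3) (.e (nat_lit 98355) (nat_lit 26) .nil))))) (.g (nat_lit 0) (.e (nat_lit 100615) (nat_lit 0) .nil) .nil))) 
(.lf (nat_lit 476989) (.g (nat_lit 1735) (.e (nat_lit 1849) (nat_lit 124) (.e (nat_lit 557097) (nat_lit 13) (.e (nat_lit 172097) (nat_lit 9) (.e (nat_lit 426125) (nat_lit 2) (.e (nat_lit 196661) (nat_lit 12) (.e (nat_lit 57748) (nat_lit 201) (.e (nat_lit 2941) (nat_lit 184) (.e (nat_lit 433920) (nat_lit 15) .nil)))))))) (.g (nat_lit 1) (.e (nat_lit 101693) (nat_lit 0) .nil) .nil))))) 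
(.nd (nat_lit 8) (.nd (nat_lit 9) 
(.lf (nat_lit 476349) (.g (nat_lit 2062) (.e (nat_lit 1798) (nat_lit 119) (.e (nat_lit 516120) (nat_lit 1) (.e (nat_lit 164330) (nat_lit 230) (.e (nat_lit 163941) (nat_lit 19) (.e (nat_lit 483341) (nat_lit 9) (.e (nat_lit 426198) (nat_lit 9) (.e (nat_lit 426364) (nat_lit 15) .nil))))))) (.g (nat_lit 1) (.e (nat_lit 100421) (nat_lit 0) .nil) .nil))) 
(.lf (nat_lit 476861) (.g (nat_lit 3414) (.e (nat_lit 1846) (nat_lit 124) (.e (nat_lit 557108) (nat_lit 15) (.e (nat_lit 188452) (nat_lit 23) (.e (nat_lit 204884) (nat_lit 33) .nil)))) (.g (nat_lit 0) (.e (nat_lit 101488) (nat_lit 0) .nil) .nil)))) (.nd (nat_lit 9) 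
(.lf (nat_lit 476605) (.g (nat_lit 5234) (.e (nat_lit 1800) (nat_lit 119) (.e (nat_lit 516120) (nat_lit 1) (.e (nat_lit 164403) (nat_lit 256) (.e (nat_lit 57378) (nat_lit 3) (.e (nat_lit 98366) (nat_lit 27) (.e (nat_lit 434231) (nat_lit 23) (.e (nat_lit 532514) (nat_lit 3) (.e (nat_lit 114708) (nat_lit 20) .nil)))))))) (.g (nat_lit 1) (.e (nat_lit 100763) (nat_lit 0) .nil) .nil))) 
(.lf (nat_lit 477117) (.g (nat_lit 2792) (.e (nat_lit 1853) (nat_lit 124) (.e (nat_lit 557108) (nat_lit 15) (.e (nat_lit 188452) (nat_lit 23) (.e (nat_lit 204846) (nat_lit 24) (.e (nat_lit 319504) (nat_lit 10) .nil))))) (.g (nat_lit 0) (.e (nat_lit 101837) (nat_lit 0) .nil) .nil)))))) (.nd (nat_lit 7) (.nd (nat_lit 8) (.nd (nat_lit 9) 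
(.lf (nat_lit 476285) (.g (nat_lit 2484) (.e (nat_lit 1796) (nat_lit 119) (.e (nat_lit 516138) (nat_lit 7) (.e (nat_lit 409645) (nat_lit 18) (.e (nat_lit 303117) (nat_lit 2) (.e (nat_lit 196674) (nat_lit 15) .nil))))) (.g (nat_lit 0) (.e (nat_lit 100322) (nat_lit 0) .nil) .nil))) 
(.lf (nat_lit 476797) (.g (nat_lit 2730) (.e (nat_lit 1811) (nat_lit 120) (.e (nat_lit 524322) (nat_lit 12) (.e (nat_lit 450588) (nat_lit 10) (.e (nat_lit 573475) (nat_lit 12) (.e (nat_lit 57574) (nat_lit 55) .nil))))) (.g (nat_lit 0) (.e (nat_lit 101041) (nat_lit 0) .nil) .nil)))) (.nd (nat_lit 9) 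
(.lf (nat_lit 476541) (.g (nat_lit 1495) (.e (nat_lit 1800) (nat_lit 119) (.e (nat_lit 516119) (nat_lit 1) (.e (nat_lit 164331) (nat_lit 230) (.e (nat_lit 163941) (nat_lit 19) .nil)))) (.g (nat_lit 0) (.e (nat_lit 100689) (nat_lit 0) .nil) .nil))) 
(.lf (nat_lit 477053) (.g (nat_lit 2181) (.e (nat_lit 1853) (nat_lit 124) (.e (nat_lit 557097) (nat_lit 13) (.e (nat_lit 172115) (nat_lit 10) (.e (nat_lit 434244) (nat_lit 28) (.e (nat_lit 573449) (nat_lit 9) .nil))))) (.g (nat_lit 0) (.e (nat_lit 101772) (nat_lit 0) .nil) .nil))))) (.nd (nat_lit 8) (.nd (nat_lit 9) 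
(.lf (nat_lit 476413) (.g (nat_lit 2522) (.e (nat_lit 1799) (nat_lit 119) (.e (nat_lit 516139) (nat_lit 7) (.e (nat_lit 409646) (nat_lit 18) (.e (nat_lit 303117) (nat_lit 2) (.e (nat_lit 196674) (nat_lit 15) (.e (nat_lit 81946) (nat_lit 20) .nil)))))) (.g (nat_lit 1) (.e (nat_lit 100497) (nat_lit 0) .nil) .nil))) 
(.lf (nat_lit 476925) (.g (nat_lit 3622) (.e (nat_lit 1848) (nat_lit 124) (.e (nat_lit 557097) (nat_lit 13) (.e (nat_lit 172115) (nat_lit 10) (.e (nat_lit 434238) (nat_lit 25) (.e (nat_lit 548898) (nat_lit 14) (.e (nat_lit 2999) (nat_lit 186) (.e (nat_lit 450304) (nat_lit 0) .nil))))))) (.g (nat_lit 1) (.e (nat_lit 101620) (nat_lit 0) .nil) .nil)))) (.nd (nat_lit 9) 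
(.lf (nat_lit 476669) (.g (nat_lit 1497) (.e (nat_lit 1800) (nat_lit 119) (.e (nat_lit 516182) (nat_lit 15) (.e (nat_lit 475197) (nat_lit 40) (.e (nat_lit 704589) (nat_lit 3) (.e (nat_lit 163976) (nat_lit 30) (.e (nat_lit 573491) (nat_lit 15) (.e (nat_lit 89856) (nat_lit 20) .nil))))))) (.g (nat_lit 1) (.e (nat_lit 100861) (nat_lit 0) .nil) .nil))) 
(.lf (nat_lit 477181) (.g (nat_lit 2789) (.e (nat_lit 1855) (nat_lit 124) (.e (nat_lit 557107) (nat_lit 15) (.e (nat_lit 188447) (nat_lit 22) (.e (nat_lit 196666) (nat_lit 13) (.e (nat_lit 65573) (nat_lit 4) .nil))))) (.g (nat_lit 0) (.e (nat_lit 101937) (nat_lit 0) .nil) .nil))))))))))) 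
(.nd (nat_lit 2) (.nd (nat_lit 3) (.nd (nat_lit 4) (.nd (nat_lit 5) (.nd (nat_lit 6) 
(.nd (nat_lit 7) (.nd (nat_lit 8) (.nd (nat_lit 9) 
(.lf (nat_lit 476163) (.g (nat_lit 2195) (.e (nat_lit 1794) (nat_lit 119) (.e (nat_lit 516115) (nat_lit 1) (.e (nat_lit 164399) (nat_lit 256) (.e (nat_lit 57378) (nat_lit 3) (.e (nat_lit 98376) (nat_lit 30) .nil))))) (.g (nat_lit 0) (.e (nat_lit 100131) (nat_lit 0) .nil) .nil))) 
(.lf (nat_lit 476675) (.g (nat_lit 3085) (.e (nat_lit 1800) (nat_lit 119) (.e (nat_lit 516182) (nat_lit 15) (.e (nat_lit 475199) (nat_lit 40) (.e (nat_lit 704589) (nat_lit 3) (.e (nat_lit 163975) (nat_lit 30) (.e (nat_lit 573491) (nat_lit 15) (.e (nat_lit 89856) (nat_lit 20) .nil))))))) (.g (nat_lit 1) (.e (nat_lit 100870) (nat_lit 0) .nil) .nil)))) (.nd (nat_lit 9) 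
(.lf (nat_lit 476419) (.g (nat_lit 5447) (.e (nat_lit 1799) (nat_lit 119) (.e (nat_lit 516151) (nat_lit 9) (.e (nat_lit 426211) (nat_lit 9) (.e (nat_lit 426125) (nat_lit 2) (.e (nat_lit 196660) (nat_lit 12) .nil))))) (.g (nat_lit 0) (.e (nat_lit 100511) (nat_lit 0) .nil) .nil))) 
(.lf (nat_lit 476931) (.g (nat_lit 2947) (.e (nat_lit 1848) (nat_lit 124) (.e (nat_lit 557097) (nat_lit 13) (.e (nat_lit 172115) (nat_lit 10) (.e (nat_lit 434244) (nat_lit 28) (.e (nat_lit 573450) (nat_lit 9) (.e (nat_lit 454) (nat_lit 34) (.e (nat_lit 450304) (nat_lit 0) .nil))))))) (.g (nat_lit 1) (.e (nat_lit 101626) (nat_lit 0) .nil) .nil))))) (.nd (nat_lit 8) (.nd (nat_lit 9) 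
(.lf (nat_lit 476291) (.g (nat_lit 1069) (.e (nat_lit 1796) (nat_lit 119) (.e (nat_lit 516158) (nat_lit 9) (.e (nat_lit 426188) (nat_lit 9) (.e (nat_lit 426436) (nat_lit 18) .nil)))) (.g (nat_lit 0) (.e (nat_lit 100332) (nat_lit 0) .nil) .nil))) 
(.lf (nat_lit 476803) (.g (nat_lit 819) (.e (nat_lit 1840) (nat_lit 123) (.e (nat_lit 548889) (nat_lit 9) (.e (nat_lit 65537) (nat_lit 0) (.e (nat_lit 6677) (nat_lit 357) .nil)))) (.g (nat_lit 0) (.e (nat_lit 101058) (nat_lit 0) .nil) .nil)))) (.nd (nat_lit 9) 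
(.lf (nat_lit 476547) (.g (nat_lit 2379) (.e (nat_lit 1800) (nat_lit 119) (.e (nat_lit 516119) (nat_lit 1) (.e (nat_lit 164401) (nat_lit 256) (.e (nat_lit 57378) (nat_lit 3) (.e (nat_lit 98366) (nat_lit 27) (.e (nat_lit 434231) (nat_lit 23) (.e (nat_lit 532513) (nat_lit 3) (.e (nat_lit 114708) (nat_lit 20) .nil)))))))) (.g (nat_lit 1) (.e (nat_lit 100696) (nat_lit 0) .nil) .nil))) 
(.lf (nat_lit 477059) (.g (nat_lit 2025) (.e (nat_lit 1853) (nat_lit 124) (.e (nat_lit 557097) (nat_lit 13) (.e (nat_lit 172115) (nat_lit 10) (.e (nat_lit 434244) (nat_lit 28) (.e (nat_lit 573471) (nat_lit 11) .nil))))) (.g (nat_lit 0) (.e (nat_lit 101778) (nat_lit 0) .nil) .nil)))))) (.nd (nat_lit 7) (.nd (nat_lit 8) (.nd (nat_lit 9) 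
(.lf (nat_lit 476227) (.g (nat_lit 932) (.e (nat_lit 1795) (nat_lit 119) (.e (nat_lit 516120) (nat_lit 1) (.e (nat_lit 164183) (nat_lit 154) .nil))) (.g (nat_lit 0) (.e (nat_lit 100214) (nat_lit 0) .nil) .nil))) 
(.lf (nat_lit 476739) (.g (nat_lit 3844) (.e (nat_lit 1802) (nat_lit 119) (.e (nat_lit 516138) (nat_lit 7) (.e (nat_lit 409646) (nat_lit 18) (.e (nat_lit 303117) (nat_lit 2) (.e (nat_lit 196674) (nat_lit 15) (.e (nat_lit 81946) (nat_lit 20) .nil)))))) (.g (nat_lit 1) (.e (nat_lit 100964) (nat_lit 0) .nil) .nil)))) (.nd (nat_lit 9) 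
(.lf (nat_lit 476483) (.g (nat_lit 2794) (.e (nat_lit 1800) (nat_lit 119) (.e (nat_lit 516115) (nat_lit 1) (.e (nat_lit 164403) (nat_lit 256) (.e (nat_lit 57373) (nat_lit 2) (.e (nat_lit 90168) (nat_lit 13) .nil))))) (.g (nat_lit 0) (.e (nat_lit 100623) (nat_lit 0) .nil) .nil))) 
(.lf (nat_lit 476995) (.g (nat_lit 2871) (.e (nat_lit 1849) (nat_lit 124) (.e (nat_lit 557097) (nat_lit 13) (.e (nat_lit 172115) (nat_lit 10) (.e (nat_lit 434244) (nat_lit 28) (.e (nat_lit 573450) (nat_lit 9) (.e (nat_lit 454) (nat_lit 34) (.e (nat_lit 450304) (nat_lit 0) .nil))))))) (.g (nat_lit 1) (.e (nat_lit 101699) (nat_lit 0) .nil) .nil))))) (.nd (nat_lit 8) (.nd (nat_lit 9) 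
(.lf (nat_lit 476355) (.g (nat_lit 2750) (.e (nat_lit 1798) (nat_lit 119) (.e (nat_lit 516139) (nat_lit 7) (.e (nat_lit 409645) (nat_lit 18) (.e (nat_lit 303117) (nat_lit 2) (.e (nat_lit 196674) (nat_lit 15) .nil))))) (.g (nat_lit 0) (.e (nat_lit 100428) (nat_lit 0) .nil) .nil))) 
(.lf (nat_lit 476867) (.g (nat_lit 384) (.e (nat_lit 1847) (nat_lit 124) (.e (nat_lit 557072) (nat_lit 9) (.e (nat_lit 2741) (nat_lit 174) .nil))) (.g (nat_lit 0) (.e (nat_lit 101496) (nat_lit 0) .nil) .nil)))) (.nd (nat_lit 9) 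
(.lf (nat_lit 476611) (.g (nat_lit 1964) (.e (nat_lit 1800) (nat_lit 119) (.e (nat_lit 516122) (nat_lit 2) (.e (nat_lit 213032) (nat_lit 11) (.e (nat_lit 24608) (nat_lit 3) (.e (nat_lit 98369) (nat_lit 28) (.e (nat_lit 442374) (nat_lit 0) .nil)))))) (.g (nat_lit 1) (.e (nat_lit 100769) (nat_lit 0) .nil) .nil))) 
(.lf (nat_lit 477123) (.g (nat_lit 2845) (.e (nat_lit 1853) (nat_lit 124) (.e (nat_lit 557109) (nat_lit 15) (.e (nat_lit 188450) (nat_lit 23) (.e (nat_lit 204880) (nat_lit 32) .nil)))) (.g (nat_lit 0) (.e (nat_lit 101843) (nat_lit 0) .nil) .nil))))))) (.nd (nat_lit 6) (.nd (nat_lit 7) (.nd (nat_lit 8) (.nd (nat_lit 9) 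
(.lf (nat_lit 476195) (.g (nat_lit 2421) (.e (nat_lit 1806) (nat_lit 119) (.e (nat_lit 516119) (nat_lit 1) (.e (nat_lit 164403) (nat_lit 256) (.e (nat_lit 57371) (nat_lit 2) (.e (nat_lit 90174) (nat_lit 14) .nil))))) (.g (nat_lit 0) (.e (nat_lit 100178) (nat_lit 0) .nil) .nil))) 
(.lf (nat_lit 476707) (.g (nat_lit 624) (.e (nat_lit 1801) (nat_lit 119) (.e (nat_lit 516139) (nat_lit 7) (.e (nat_lit 417536) (nat_lit 18) .nil))) (.g (nat_lit 0) (.e (nat_lit 100923) (nat_lit 0) .nil) .nil)))) (.nd (nat_lit 9) 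
(.lf (nat_lit 476451) (.g (nat_lit 3416) (.e (nat_lit 1800) (nat_lit 119) (.e (nat_lit 516115) (nat_lit 1) (.e (nat_lit 164325) (nat_lit 230) (.e (nat_lit 163903) (nat_lit 12) (.e (nat_lit 426568) (nat_lit 34) (.e (nat_lit 393275) (nat_lit 23) (.e (nat_lit 426396) (nat_lit 15) .nil))))))) (.g (nat_lit 1) (.e (nat_lit 100566) (nat_lit 0) .nil) .nil))) 
(.lf (nat_lit 476963) (.g (nat_lit 2156) (.e (nat_lit 1848) (nat_lit 124) (.e (nat_lit 557108) (nat_lit 15) (.e (nat_lit 188449) (nat_lit 22) (.e (nat_lit 196661) (nat_lit 12) (.e (nat_lit 57749) (nat_lit 201) (.e (nat_lit 2940) (nat_lit 184) (.e (nat_lit 426401) (nat_lit 15) .nil))))))) (.g (nat_lit 1) (.e (nat_lit 101658) (nat_lit 0) .nil) .nil))))) (.nd (nat_lit 8) (.nd (nat_lit 9) 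
(.lf (nat_lit 476323) (.g (nat_lit 2397) (.e (nat_lit 1797) (nat_lit 119) (.e (nat_lit 516119) (nat_lit 1) (.e (nat_lit 164403) (nat_lit 256) (.e (nat_lit 57371) (nat_lit 2) (.e (nat_lit 90174) (nat_lit 14) .nil))))) (.g (nat_lit 0) (.e (nat_lit 100383) (nat_lit 0) .nil) .nil))) 
(.lf (nat_lit 476835) (.g (nat_lit 1911) (.e (nat_lit 7936) (nat_lit 126) (.e (nat_lit 573492) (nat_lit 15) (.e (nat_lit 81956) (nat_lit 23) (.e (nat_lit 98350) (nat_lit 24) .nil)))) (.g (nat_lit 0) (.e (nat_lit 101421) (nat_lit 0) .nil) .nil)))) (.nd (nat_lit 9) 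
(.lf (nat_lit 476579) (.g (nat_lit 2326) (.e (nat_lit 1800) (nat_lit 119) (.e (nat_lit 516120) (nat_lit 1) (.e (nat_lit 164330) (nat_lit 230) (.e (nat_lit 163905) (nat_lit 12) (.e (nat_lit 426478) (nat_lit 27) .nil))))) (.g (nat_lit 0) (.e (nat_lit 100734) (nat_lit 0) .nil) .nil))) 
(.lf (nat_lit 477091) (.g (nat_lit 2234) (.e (nat_lit 1853) (nat_lit 124) (.e (nat_lit 557101) (nat_lit 13) (.e (nat_lit 172115) (nat_lit 10) (.e (nat_lit 434244) (nat_lit 28) (.e (nat_lit 573458) (nat_lit 9) (.e (nat_lit 7936) (nat_lit 37) (.e (nat_lit 466944) (nat_lit 0) .nil))))))) (.g (nat_lit 1) (.e (nat_lit 101810) (nat_lit 0) .nil) .nil)))))) 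
(.nd (nat_lit 7) (.nd (nat_lit 8) (.nd (nat_lit 9) 
(.lf (nat_lit 476259) (.g (nat_lit 4071) (.e (nat_lit 1796) (nat_lit 119) (.e (nat_lit 516115) (nat_lit 1) (.e (nat_lit 164325) (nat_lit 230) (.e (nat_lit 163907) (nat_lit 12) (.e (nat_lit 426566) (nat_lit 34) (.e (nat_lit 393273) (nat_lit 23) (.e (nat_lit 426392) (nat_lit 15) .nil))))))) (.g (nat_lit 1) (.e (nat_lit 100266) (nat_lit 0) .nil) .nil))) 
(.lf (nat_lit 476771) (.g (nat_lit 2836) (.e (nat_lit 1803) (nat_lit 119) (.e (nat_lit 516138) (nat_lit 7) (.e (nat_lit 409645) (nat_lit 18) (.e (nat_lit 303117) (nat_lit 2) (.e (nat_lit 196674) (nat_lit 15) (.e (nat_lit 81936) (nat_lit 20) .nil)))))) (.g (nat_lit 1) (.e (nat_lit 101003) (nat_lit 0) .nil) .nil)))) (.nd (nat_lit 9) 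
(.lf (nat_lit 476515) (.g (nat_lit 2829) (.e (nat_lit 1800) (nat_lit 119) (.e (nat_lit 516117) (nat_lit 1) (.e (nat_lit 164399) (nat_lit 256) (.e (nat_lit 57378) (nat_lit 3) (.e (nat_lit 98366) (nat_lit 27) (.e (nat_lit 434231) (nat_lit 23) (.e (nat_lit 532513) (nat_lit 3) (.e (nat_lit 114708) (nat_lit 20) .nil)))))))) (.g (nat_lit 1) (.e (nat_lit 100660) (nat_lit 0) .nil) .nil))) 
(.lf (nat_lit 477027) (.g (nat_lit 2652) (.e (nat_lit 1849) (nat_lit 124) (.e (nat_lit 557109) (nat_lit 15) (.e (nat_lit 188447) (nat_lit 22) (.e (nat_lit 196661) (nat_lit 12) (.e (nat_lit 57750) (nat_lit 201) .nil))))) (.g (nat_lit 0) (.e (nat_lit 101733) (nat_lit 0) .nil) .nil))))) (.nd (nat_lit 8) (.nd (nat_lit 9) 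
(.lf (nat_lit 476387) (.g (nat_lit 1685) (.e (nat_lit 1799) (nat_lit 119) (.e (nat_lit 516115) (nat_lit 1) (.e (nat_lit 164325) (nat_lit 230) (.e (nat_lit 163942) (nat_lit 19) (.e (nat_lit 491264) (nat_lit 11) (.e (nat_lit 450304) (nat_lit 0) .nil)))))) (.g (nat_lit 1) (.e (nat_lit 100469) (nat_lit 0) .nil) .nil))) 
(.lf (nat_lit 476899) (.g (nat_lit 4064) (.e (nat_lit 1848) (nat_lit 124) (.e (nat_lit 557097) (nat_lit 13) (.e (nat_lit 172097) (nat_lit 9) (.e (nat_lit 426125) (nat_lit 2) (.e (nat_lit 196661) (nat_lit 12) (.e (nat_lit 57750) (nat_lit 201) (.e (nat_lit 2857) (nat_lit 184) (.e (nat_lit 426402) (nat_lit 15) .nil)))))))) (.g (nat_lit 1) (.e (nat_lit 101594) (nat_lit 0) .nil) .nil)))) 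
(.nd (nat_lit 9) 
(.lf (nat_lit 476643) (.g (nat_lit 2820) (.e (nat_lit 1800) (nat_lit 119) (.e (nat_lit 516139) (nat_lit 7) (.e (nat_lit 409648) (nat_lit 18) (.e (nat_lit 303112) (nat_lit 0) (.e (nat_lit 3252) (nat_lit 197) .nil))))) (.g (nat_lit 0) (.e (nat_lit 100807) (nat_lit 0) .nil) .nil))) 
(.lf (nat_lit 477155) (.g (nat_lit 2260) (.e (nat_lit 1855) (nat_lit 124) (.e (nat_lit 557100) (nat_lit 13) (.e (nat_lit 172106) (nat_lit 10) (.e (nat_lit 434244) (nat_lit 28) (.e (nat_lit 573471) (nat_lit 11) .nil))))) (.g (nat_lit 0) (.e (nat_lit 101911) (nat_lit 0) .nil) .nil)))))))) (.nd (nat_lit 5) (.nd (nat_lit 6) (.nd (nat_lit 7) (.nd (nat_lit 8) (.nd (nat_lit 9) 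
(.lf (nat_lit 476179) (.g (nat_lit 2232) (.e (nat_lit 1804) (nat_lit 119) (.e (nat_lit 516119) (nat_lit 1) (.e (nat_lit 164403) (nat_lit 256) (.e (nat_lit 57373) (nat_lit 2) (.e (nat_lit 90170) (nat_lit 13) .nil))))) (.g (nat_lit 0) (.e (nat_lit 100159) (nat_lit 0) .nil) .nil))) 
(.lf (nat_lit 476691) (.g (nat_lit 1964) (.e (nat_lit 1801) (nat_lit 119) (.e (nat_lit 516120) (nat_lit 1) (.e (nat_lit 164330) (nat_lit 230) (.e (nat_lit 163941) (nat_lit 19) (.e (nat_lit 483341) (nat_lit 9) (.e (nat_lit 426198) (nat_lit 9) (.e (nat_lit 426364) (nat_lit 15) .nil))))))) (.g (nat_lit 1) (.e (nat_lit 100892) (nat_lit 0) .nil) .nil)))) (.nd (nat_lit 9) 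
(.lf (nat_lit 476435) (.g (nat_lit 2026) (.e (nat_lit 1800) (nat_lit 119) (.e (nat_lit 516115) (nat_lit 1) (.e (nat_lit 164325) (nat_lit 230) (.e (nat_lit 163874) (nat_lit 3) .nil)))) (.g (nat_lit 0) (.e (nat_lit 100547) (nat_lit 0) .nil) .nil))) 
(.lf (nat_lit 476947) (.g (nat_lit 2001) (.e (nat_lit 1848) (nat_lit 124) (.e (nat_lit 557107) (nat_lit 15) (.e (nat_lit 188447) (nat_lit 22) (.e (nat_lit 196661) (nat_lit 12) (.e (nat_lit 57749) (nat_lit 201) (.e (nat_lit 2940) (nat_lit 184) (.e (nat_lit 426401) (nat_lit 15) .nil))))))) (.g (nat_lit 1) (.e (nat_lit 101642) (nat_lit 0) .nil) .nil))))) (.nd (nat_lit 8) (.nd (nat_lit 9) 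
(.lf (nat_lit 476307) (.g (nat_lit 2132) (.e (nat_lit 1796) (nat_lit 119) (.e (nat_lit 516177) (nat_lit 14) (.e (nat_lit 466977) (nat_lit 22) (.e (nat_lit 196681) (nat_lit 17) (.e (nat_lit 131089) (nat_lit 1) .nil))))) (.g (nat_lit 0) (.e (nat_lit 100365) (nat_lit 0) .nil) .nil))) 
(.lf (nat_lit 476819) (.g (nat_lit 797) (.e (nat_lit 1872) (nat_lit 126) (.e (nat_lit 573488) (nat_lit 14) (.e (nat_lit 73755) (nat_lit 8) .nil))) (.g (nat_lit 0) (.e (nat_lit 101144) (nat_lit 0) .nil) .nil)))) (.nd (nat_lit 9) 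
(.lf (nat_lit 476563) (.g (nat_lit 1980) (.e (nat_lit 1800) (nat_lit 119) (.e (nat_lit 516120) (nat_lit 1) (.e (nat_lit 164329) (nat_lit 230) (.e (nat_lit 163941) (nat_lit 19) (.e (nat_lit 491264) (nat_lit 11) (.e (nat_lit 450304) (nat_lit 0) .nil)))))) (.g (nat_lit 1) (.e (nat_lit 100715) (nat_lit 0) .nil) .nil))) 
(.lf (nat_lit 477075) (.g (nat_lit 1135) (.e (nat_lit 1853) (nat_lit 124) (.e (nat_lit 557101) (nat_lit 13) (.e (nat_lit 172115) (nat_lit 10) (.e (nat_lit 434231) (nat_lit 23) .nil)))) (.g (nat_lit 0) (.e (nat_lit 101794) (nat_lit 0) .nil) .nil)))))) (.nd (nat_lit 7) (.nd (nat_lit 8) (.nd (nat_lit 9) 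
(.lf (nat_lit 476243) (.g (nat_lit 2067) (.e (nat_lit 1795) (nat_lit 119) (.e (nat_lit 516131) (nat_lit 3) (.e (nat_lit 221215) (nat_lit 23) (.e (nat_lit 204882) (nat_lit 32) .nil)))) (.g (nat_lit 0) (.e (nat_lit 100231) (nat_lit 0) .nil) .nil))) 
(.lf (nat_lit 476755) (.g (nat_lit 3644) (.e (nat_lit 1802) (nat_lit 119) (.e (nat_lit 516179) (nat_lit 15) (.e (nat_lit 475199) (nat_lit 40) (.e (nat_lit 704589) (nat_lit 3) (.e (nat_lit 163979) (nat_lit 30) (.e (nat_lit 573491) (nat_lit 15) (.e (nat_lit 81942) (nat_lit 20) .nil))))))) (.g (nat_lit 1) (.e (nat_lit 100983) (nat_lit 0) .nil) .nil)))) (.nd (nat_lit 9) 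
(.lf (nat_lit 476499) (.g (nat_lit 2636) (.e (nat_lit 1800) (nat_lit 119) (.e (nat_lit 516117) (nat_lit 1) (.e (nat_lit 164330) (nat_lit 230) (.e (nat_lit 163942) (nat_lit 19) (.e (nat_lit 491264) (nat_lit 11) .nil))))) (.g (nat_lit 0) (.e (nat_lit 100643) (nat_lit 0) .nil) .nil))) 
(.lf (nat_lit 477011) (.g (nat_lit 2076) (.e (nat_lit 1849) (nat_lit 124) (.e (nat_lit 557098) (nat_lit 13) (.e (nat_lit 172115) (nat_lit 10) (.e (nat_lit 434244) (nat_lit 28) (.e (nat_lit 573449) (nat_lit 9) .nil))))) (.g (nat_lit 0) (.e (nat_lit 101715) (nat_lit 0) .nil) .nil))))) (.nd (nat_lit 8) (.nd (nat_lit 9) 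
(.lf (nat_lit 476371) (.g (nat_lit 4701) (.e (nat_lit 1798) (nat_lit 119) (.e (nat_lit 516166) (nat_lit 12) (.e (nat_lit 450588) (nat_lit 10) (.e (nat_lit 573473) (nat_lit 12) .nil)))) (.g (nat_lit 0) (.e (nat_lit 100445) (nat_lit 0) .nil) .nil))) 
(.lf (nat_lit 476883) (.g (nat_lit 2142) (.e (nat_lit 1848) (nat_lit 124) (.e (nat_lit 557087) (nat_lit 11) (.e (nat_lit 24648) (nat_lit 12) (.e (nat_lit 385074) (nat_lit 31) .nil)))) (.g (nat_lit 0) (.e (nat_lit 101565) (nat_lit 0) .nil) .nil)))) (.nd (nat_lit 9) 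
(.lf (nat_lit 476627) (.g (nat_lit 2460) (.e (nat_lit 1800) (nat_lit 119) (.e (nat_lit 516138) (nat_lit 7) (.e (nat_lit 409645) (nat_lit 18) (.e (nat_lit 303117) (nat_lit 2) (.e (nat_lit 196674) (nat_lit 15) (.e (nat_lit 89856) (nat_lit 20) .nil)))))) (.g (nat_lit 1) (.e (nat_lit 100787) (nat_lit 0) .nil) .nil))) 
(.lf (nat_lit 477139) (.g (nat_lit 2230) (.e (nat_lit 1855) (nat_lit 124) (.e (nat_lit 557070) (nat_lit 9) (.e (nat_lit 2744) (nat_lit 174) (.e (nat_lit 253992) (nat_lit 11) (.e (nat_lit 16411) (nat_lit 2) (.e (nat_lit 196672) (nat_lit 15) (.e (nat_lit 81928) (nat_lit 20) .nil))))))) (.g (nat_lit 1) (.e (nat_lit 101866) (nat_lit 0) .nil) .nil))))))) 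
(.nd (nat_lit 6) (.nd (nat_lit 7) (.nd (nat_lit 8) (.nd (nat_lit 9) 
(.lf (nat_lit 476211) (.g (nat_lit 770) (.e (nat_lit 1795) (nat_lit 119) (.e (nat_lit 516117) (nat_lit 1) (.e (nat_lit 164329) (nat_lit 230) .nil))) (.g (nat_lit 0) (.e (nat_lit 100198) (nat_lit 0) .nil) .nil))) 
(.lf (nat_lit 476723) (.g (nat_lit 2471) (.e (nat_lit 1801) (nat_lit 119) (.e (nat_lit 516179) (nat_lit 15) (.e (nat_lit 475199) (nat_lit 40) (.e (nat_lit 704589) (nat_lit 3) (.e (nat_lit 163975) (nat_lit 30) .nil))))) (.g (nat_lit 0) (.e (nat_lit 100939) (nat_lit 0) .nil) .nil)))) (.nd (nat_lit 9) 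
(.lf (nat_lit 476467) (.g (nat_lit 664) (.e (nat_lit 1800) (nat_lit 119) (.e (nat_lit 516115) (nat_lit 1) (.e (nat_lit 164327) (nat_lit 230) .nil))) (.g (nat_lit 0) (.e (nat_lit 100604) (nat_lit 0) .nil) .nil))) 
(.lf (nat_lit 476979) (.g (nat_lit 2307) (.e (nat_lit 1849) (nat_lit 124) (.e (nat_lit 557087) (nat_lit 11) (.e (nat_lit 24617) (nat_lit 7) (.e (nat_lit 319504) (nat_lit 10) (.e (nat_lit 7936) (nat_lit 45) .nil))))) (.g (nat_lit 0) (.e (nat_lit 101681) (nat_lit 0) .nil) .nil))))) (.nd (nat_lit 8) (.nd (nat_lit 9) 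
(.lf (nat_lit 476339) (.g (nat_lit 2372) (.e (nat_lit 1798) (nat_lit 119) (.e (nat_lit 516115) (nat_lit 1) (.e (nat_lit 164325) (nat_lit 230) (.e (nat_lit 163904) (nat_lit 12) .nil)))) (.g (nat_lit 0) (.e (nat_lit 100406) (nat_lit 0) .nil) .nil))) 
(.lf (nat_lit 476851) (.g (nat_lit 1698) (.e (nat_lit 1846) (nat_lit 124) (.e (nat_lit 557101) (nat_lit 13) (.e (nat_lit 172097) (nat_lit 9) (.e (nat_lit 426125) (nat_lit 2) (.e (nat_lit 196661) (nat_lit 12) .nil))))) (.g (nat_lit 0) (.e (nat_lit 101478) (nat_lit 0) .nil) .nil)))) (.nd (nat_lit 9) 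
(.lf (nat_lit 476595) (.g (nat_lit 2419) (.e (nat_lit 1800) (nat_lit 119) (.e (nat_lit 516120) (nat_lit 1) (.e (nat_lit 164330) (nat_lit 230) (.e (nat_lit 163943) (nat_lit 19) (.e (nat_lit 491264) (nat_lit 14) (.e (nat_lit 466947) (nat_lit 0) .nil)))))) (.g (nat_lit 1) (.e (nat_lit 100750) (nat_lit 0) .nil) .nil))) 
(.lf (nat_lit 477107) (.g (nat_lit 2506) (.e (nat_lit 1853) (nat_lit 124) (.e (nat_lit 557107) (nat_lit 15) (.e (nat_lit 188439) (nat_lit 20) (.e (nat_lit 3272) (nat_lit 199) (.e (nat_lit 548915) (nat_lit 20) (.e (nat_lit 196352) (nat_lit 0) .nil)))))) (.g (nat_lit 1) (.e (nat_lit 101827) (nat_lit 0) .nil) .nil)))))) (.nd (nat_lit 7) (.nd (nat_lit 8) (.nd (nat_lit 9) 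
(.lf (nat_lit 476275) (.g (nat_lit 525) (.e (nat_lit 1796) (nat_lit 119) (.e (nat_lit 516120) (nat_lit 1) (.e (nat_lit 164330) (nat_lit 230) .nil))) (.g (nat_lit 0) (.e (nat_lit 100311) (nat_lit 0) .nil) .nil))) 
(.lf (nat_lit 476787) (.g (nat_lit 1189) (.e (nat_lit 7936) (nat_lit 119) (.e (nat_lit 516166) (nat_lit 12) (.e (nat_lit 450588) (nat_lit 10) (.e (nat_lit 573475) (nat_lit 12) (.e (nat_lit 57574) (nat_lit 55) .nil))))) (.g (nat_lit 0) (.e (nat_lit 101030) (nat_lit 0) .nil) .nil)))) (.nd (nat_lit 9) 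
(.lf (nat_lit 476531) (.g (nat_lit 1211) (.e (nat_lit 1800) (nat_lit 119) (.e (nat_lit 516119) (nat_lit 1) (.e (nat_lit 164322) (nat_lit 230) (.e (nat_lit 163941) (nat_lit 19) .nil)))) (.g (nat_lit 0) (.e (nat_lit 100678) (nat_lit 0) .nil) .nil))) 
(.lf (nat_lit 477043) (.g (nat_lit 1926) (.e (nat_lit 1853) (nat_lit 124) (.e (nat_lit 557097) (nat_lit 13) (.e (nat_lit 172115) (nat_lit 10) (.e (nat_lit 434238) (nat_lit 25) (.e (nat_lit 548896) (nat_lit 14) (.e (nat_lit 2998) (nat_lit 186) (.e (nat_lit 450304) (nat_lit 0) .nil))))))) (.g (nat_lit 1) (.e (nat_lit 101762) (nat_lit 0) .nil) .nil))))) (.nd (nat_lit 8) (.nd (nat_lit 9) 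
(.lf (nat_lit 476403) (.g (nat_lit 2708) (.e (nat_lit 1799) (nat_lit 119) (.e (nat_lit 516138) (nat_lit 7) (.e (nat_lit 409645) (nat_lit 18) (.e (nat_lit 303117) (nat_lit 2) (.e (nat_lit 196674) (nat_lit 15) .nil))))) (.g (nat_lit 0) (.e (nat_lit 100487) (nat_lit 0) .nil) .nil))) 
(.lf (nat_lit 476915) (.g (nat_lit 4542) (.e (nat_lit 1848) (nat_lit 124) (.e (nat_lit 557097) (nat_lit 13) (.e (nat_lit 172115) (nat_lit 10) (.e (nat_lit 434231) (nat_lit 23) (.e (nat_lit 532490) (nat_lit 0) (.e (nat_lit 6680) (nat_lit 357) (.e (nat_lit 2857) (nat_lit 184) (.e (nat_lit 426402) (nat_lit 15) .nil)))))))) (.g (nat_lit 1) (.e (nat_lit 101610) (nat_lit 0) .nil) .nil)))) 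
(.nd (nat_lit 9) 
(.lf (nat_lit 476659) (.g (nat_lit 6132) (.e (nat_lit 1800) (nat_lit 119) (.e (nat_lit 516166) (nat_lit 12) (.e (nat_lit 450588) (nat_lit 10) (.e (nat_lit 573477) (nat_lit 12) .nil)))) (.g (nat_lit 0) (.e (nat_lit 100846) (nat_lit 0) .nil) .nil))) 
(.lf (nat_lit 477171) (.g (nat_lit 2707) (.e (nat_lit 1855) (nat_lit 124) (.e (nat_lit 557105) (nat_lit 14) (.e (nat_lit 180252) (nat_lit 10) (.e (nat_lit 573480) (nat_lit 13) (.e (nat_lit 65637) (nat_lit 15) (.e (nat_lit 3253) (nat_lit 197) (.e (nat_lit 532504) (nat_lit 1) (.e (nat_lit 57852) (nat_lit 252) (.e (nat_lit 57357) (nat_lit 0) .nil))))))))) (.g (nat_lit 1) (.e (nat_lit 101927) (nat_lit 0) .nil) .nil))))))))) 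
(.nd (nat_lit 4) (.nd (nat_lit 5) (.nd (nat_lit 6) (.nd (nat_lit 7) (.nd (nat_lit 8) 
(.nd (nat_lit 9) 
(.lf (nat_lit 476171) (.g (nat_lit 3405) (.e (nat_lit 1793) (nat_lit 119) (.e (nat_lit 516115) (nat_lit 1) (.e (nat_lit 164325) (nat_lit 230) (.e (nat_lit 163904) (nat_lit 12) .nil)))) (.g (nat_lit 0) (.e (nat_lit 100144) (nat_lit 0) .nil) .nil))) 
(.lf (nat_lit 476683) (.g (nat_lit 1394) (.e (nat_lit 1801) (nat_lit 119) (.e (nat_lit 516117) (nat_lit 1) (.e (nat_lit 164329) (nat_lit 230) .nil))) (.g (nat_lit 0) (.e (nat_lit 100884) (nat_lit 0) .nil) .nil)))) (.nd (nat_lit 9) 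
(.lf (nat_lit 476427) (.g (nat_lit 5120) (.e (nat_lit 1799) (nat_lit 119) (.e (nat_lit 516166) (nat_lit 12) (.e (nat_lit 450588) (nat_lit 10) (.e (nat_lit 573478) (nat_lit 12) .nil)))) (.g (nat_lit 0) (.e (nat_lit 100519) (nat_lit 0) .nil) .nil))) 
(.lf (nat_lit 476939) (.g (nat_lit 1056) (.e (nat_lit 1848) (nat_lit 124) (.e (nat_lit 557098) (nat_lit 13) (.e (nat_lit 172115) (nat_lit 10) .nil))) (.g (nat_lit 0) (.e (nat_lit 101634) (nat_lit 0) .nil) .nil))))) (.nd (nat_lit 8) (.nd (nat_lit 9) 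
(.lf (nat_lit 476299) (.g (nat_lit 2444) (.e (nat_lit 1796) (nat_lit 119) (.e (nat_lit 516166) (nat_lit 12) (.e (nat_lit 450587) (nat_lit 10) (.e (nat_lit 573456) (nat_lit 9) (.e (nat_lit 430) (nat_lit 32) (.e (nat_lit 426343) (nat_lit 14) (.e (nat_lit 491530) (nat_lit 0) .nil))))))) (.g (nat_lit 1) (.e (nat_lit 100357) (nat_lit 0) .nil) .nil))) 
(.lf (nat_lit 476811) (.g (nat_lit 5031) (.e (nat_lit 1842) (nat_lit 123) (.e (nat_lit 548874) (nat_lit 5) (.e (nat_lit 1401) (nat_lit 106) (.e (nat_lit 319537) (nat_lit 19) (.e (nat_lit 311315) (nat_lit 3) (.e (nat_lit 204846) (nat_lit 24) (.e (nat_lit 319534) (nat_lit 16) (.e (nat_lit 286728) (nat_lit 0) .nil)))))))) (.g (nat_lit 1) (.e (nat_lit 101105) (nat_lit 0) .nil) .nil)))) 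
(.nd (nat_lit 9) 
(.lf (nat_lit 476555) (.g (nat_lit 5420) (.e (nat_lit 1800) (nat_lit 119) (.e (nat_lit 516119) (nat_lit 1) (.e (nat_lit 164403) (nat_lit 256) (.e (nat_lit 57378) (nat_lit 3) (.e (nat_lit 98366) (nat_lit 27) (.e (nat_lit 434231) (nat_lit 23) (.e (nat_lit 532514) (nat_lit 3) (.e (nat_lit 114708) (nat_lit 20) .nil)))))))) (.g (nat_lit 1) (.e (nat_lit 100707) (nat_lit 0) .nil) .nil))) 
(.lf (nat_lit 477067) (.g (nat_lit 2955) (.e (nat_lit 1853) (nat_lit 124) (.e (nat_lit 557098) (nat_lit 13) (.e (nat_lit 172115) (nat_lit 10) (.e (nat_lit 434244) (nat_lit 28) (.e (nat_lit 573458) (nat_lit 9) (.e (nat_lit 7936) (nat_lit 37) (.e (nat_lit 466945) (nat_lit 0) .nil))))))) (.g (nat_lit 1) (.e (nat_lit 101786) (nat_lit 0) .nil) .nil)))))) 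
(.nd (nat_lit 7) (.nd (nat_lit 8) (.nd (nat_lit 9) 
(.lf (nat_lit 476235) (.g (nat_lit 2899) (.e (nat_lit 1795) (nat_lit 119) (.e (nat_lit 516120) (nat_lit 1) (.e (nat_lit 164403) (nat_lit 256) (.e (nat_lit 57371) (nat_lit 2) (.e (nat_lit 90172) (nat_lit 14) .nil))))) (.g (nat_lit 0) (.e (nat_lit 100223) (nat_lit 0) .nil) .nil))) 
(.lf (nat_lit 476747) (.g (nat_lit 4775) (.e (nat_lit 1802) (nat_lit 119) (.e (nat_lit 516166) (nat_lit 12) (.e (nat_lit 450588) (nat_lit 10) (.e (nat_lit 573473) (nat_lit 12) .nil)))) (.g (nat_lit 0) (.e (nat_lit 100975) (nat_lit 0) .nil) .nil)))) (.nd (nat_lit 9) 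
(.lf (nat_lit 476491) (.g (nat_lit 2636) (.e (nat_lit 1800) (nat_lit 119) (.e (nat_lit 516117) (nat_lit 1) (.e (nat_lit 164329) (nat_lit 230) (.e (nat_lit 163941) (nat_lit 19) (.e (nat_lit 483339) (nat_lit 9) (.e (nat_lit 426259) (nat_lit 9) (.e (nat_lit 426419) (nat_lit 15) .nil))))))) (.g (nat_lit 1) (.e (nat_lit 100635) (nat_lit 0) .nil) .nil))) 
(.lf (nat_lit 477003) (.g (nat_lit 2267) (.e (nat_lit 1849) (nat_lit 124) (.e (nat_lit 557098) (nat_lit 13) (.e (nat_lit 172097) (nat_lit 9) (.e (nat_lit 426125) (nat_lit 2) (.e (nat_lit 196661) (nat_lit 12) (.e (nat_lit 57750) (nat_lit 201) (.e (nat_lit 2857) (nat_lit 184) (.e (nat_lit 426402) (nat_lit 15) .nil)))))))) (.g (nat_lit 1) (.e (nat_lit 101707) (nat_lit 0) .nil) .nil))))) 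
(.nd (nat_lit 8) (.nd (nat_lit 9) 
(.lf (nat_lit 476363) (.g (nat_lit 1683) (.e (nat_lit 1798) (nat_lit 119) (.e (nat_lit 516163) (nat_lit 11) (.e (nat_lit 442427) (nat_lit 23) (.e (nat_lit 204846) (nat_lit 24) .nil)))) (.g (nat_lit 0) (.e (nat_lit 100437) (nat_lit 0) .nil) .nil))) 
(.lf (nat_lit 476875) (.g (nat_lit 1742) (.e (nat_lit 1847) (nat_lit 124) (.e (nat_lit 557101) (nat_lit 13) (.e (nat_lit 172097) (nat_lit 9) (.e (nat_lit 426125) (nat_lit 2) (.e (nat_lit 196661) (nat_lit 12) .nil))))) (.g (nat_lit 0) (.e (nat_lit 101505) (nat_lit 0) .nil) .nil)))) (.nd (nat_lit 9) 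
(.lf (nat_lit 476619) (.g (nat_lit 1563) (.e (nat_lit 1800) (nat_lit 119) (.e (nat_lit 516125) (nat_lit 2) (.e (nat_lit 213032) (nat_lit 11) (.e (nat_lit 24608) (nat_lit 3) (.e (nat_lit 98380) (nat_lit 31) .nil))))) (.g (nat_lit 0) (.e (nat_lit 100777) (nat_lit 0) .nil) .nil))) 
(.lf (nat_lit 477131) (.g (nat_lit 3031) (.e (nat_lit 1854) (nat_lit 124) (.e (nat_lit 557105) (nat_lit 14) (.e (nat_lit 180252) (nat_lit 10) (.e (nat_lit 573481) (nat_lit 13) (.e (nat_lit 65637) (nat_lit 15) .nil))))) (.g (nat_lit 0) (.e (nat_lit 101852) (nat_lit 0) .nil) .nil))))))) (.nd (nat_lit 6) (.nd (nat_lit 7) (.nd (nat_lit 8) (.nd (nat_lit 9) 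
(.lf (nat_lit 476203) (.g (nat_lit 2400) (.e (nat_lit 1807) (nat_lit 119) (.e (nat_lit 516119) (nat_lit 1) (.e (nat_lit 164403) (nat_lit 256) (.e (nat_lit 57371) (nat_lit 2) (.e (nat_lit 90172) (nat_lit 14) .nil))))) (.g (nat_lit 0) (.e (nat_lit 100187) (nat_lit 0) .nil) .nil))) 
(.lf (nat_lit 476715) (.g (nat_lit 3822) (.e (nat_lit 1801) (nat_lit 119) (.e (nat_lit 516151) (nat_lit 9) (.e (nat_lit 426286) (nat_lit 10) (.e (nat_lit 434248) (nat_lit 28) .nil)))) (.g (nat_lit 0) (.e (nat_lit 100931) (nat_lit 0) .nil) .nil)))) (.nd (nat_lit 9) 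
(.lf (nat_lit 476459) (.g (nat_lit 2796) (.e (nat_lit 1800) (nat_lit 119) (.e (nat_lit 516115) (nat_lit 1) (.e (nat_lit 164325) (nat_lit 230) (.e (nat_lit 163907) (nat_lit 12) (.e (nat_lit 426479) (nat_lit 27) (.e (nat_lit 336430) (nat_lit 29) (.e (nat_lit 442379) (nat_lit 0) .nil))))))) (.g (nat_lit 1) (.e (nat_lit 100574) (nat_lit 0) .nil) .nil))) 
(.lf (nat_lit 476971) (.g (nat_lit 3412) (.e (nat_lit 1848) (nat_lit 124) (.e (nat_lit 557108) (nat_lit 15) (.e (nat_lit 188449) (nat_lit 22) (.e (nat_lit 196661) (nat_lit 12) (.e (nat_lit 57751) (nat_lit 201) (.e (nat_lit 2856) (nat_lit 184) (.e (nat_lit 426402) (nat_lit 15) .nil))))))) (.g (nat_lit 1) (.e (nat_lit 101666) (nat_lit 0) .nil) .nil))))) (.nd (nat_lit 8) (.nd (nat_lit 9) 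
(.lf (nat_lit 476331) (.g (nat_lit 3448) (.e (nat_lit 1797) (nat_lit 119) (.e (nat_lit 516120) (nat_lit 1) (.e (nat_lit 164403) (nat_lit 256) (.e (nat_lit 57373) (nat_lit 2) (.e (nat_lit 90172) (nat_lit 14) .nil))))) (.g (nat_lit 0) (.e (nat_lit 100391) (nat_lit 0) .nil) .nil))) 
(.lf (nat_lit 476843) (.g (nat_lit 590) (.e (nat_lit 1846) (nat_lit 124) (.e (nat_lit 557097) (nat_lit 13) (.e (nat_lit 172124) (nat_lit 14) .nil))) (.g (nat_lit 0) (.e (nat_lit 101470) (nat_lit 0) .nil) .nil)))) (.nd (nat_lit 9) 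
(.lf (nat_lit 476587) (.g (nat_lit 3386) (.e (nat_lit 1800) (nat_lit 119) (.e (nat_lit 516120) (nat_lit 1) (.e (nat_lit 164330) (nat_lit 230) (.e (nat_lit 163941) (nat_lit 19) (.e (nat_lit 483341) (nat_lit 9) (.e (nat_lit 426198) (nat_lit 9) (.e (nat_lit 426382) (nat_lit 15) .nil))))))) (.g (nat_lit 1) (.e (nat_lit 100742) (nat_lit 0) .nil) .nil))) 
(.lf (nat_lit 477099) (.g (nat_lit 2292) (.e (nat_lit 1853) (nat_lit 124) (.e (nat_lit 557107) (nat_lit 15) (.e (nat_lit 188439) (nat_lit 20) (.e (nat_lit 3271) (nat_lit 199) (.e (nat_lit 548915) (nat_lit 20) (.e (nat_lit 196352) (nat_lit 0) .nil)))))) (.g (nat_lit 1) (.e (nat_lit 101819) (nat_lit 0) .nil) .nil)))))) (.nd (nat_lit 7) (.nd (nat_lit 8) (.nd (nat_lit 9) 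
(.lf (nat_lit 476267) (.g (nat_lit 554) (.e (nat_lit 1796) (nat_lit 119) (.e (nat_lit 516119) (nat_lit 1) (.e (nat_lit 164325) (nat_lit 230) .nil))) (.g (nat_lit 0) (.e (nat_lit 100300) (nat_lit 0) .nil) .nil))) 
(.lf (nat_lit 476779) (.g (nat_lit 4839) (.e (nat_lit 1803) (nat_lit 119) (.e (nat_lit 516166) (nat_lit 12) (.e (nat_lit 450588) (nat_lit 10) (.e (nat_lit 573470) (nat_lit 11) .nil)))) (.g (nat_lit 0) (.e (nat_lit 101016) (nat_lit 0) .nil) .nil)))) (.nd (nat_lit 9) 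
(.lf (nat_lit 476523) (.g (nat_lit 2252) (.e (nat_lit 1800) (nat_lit 119) (.e (nat_lit 516117) (nat_lit 1) (.e (nat_lit 164403) (nat_lit 256) (.e (nat_lit 57371) (nat_lit 2) (.e (nat_lit 90168) (nat_lit 13) .nil))))) (.g (nat_lit 0) (.e (nat_lit 100668) (nat_lit 0) .nil) .nil))) 
(.lf (nat_lit 477035) (.g (nat_lit 2944) (.e (nat_lit 1849) (nat_lit 124) (.e (nat_lit 557109) (nat_lit 15) (.e (nat_lit 188450) (nat_lit 23) (.e (nat_lit 204819) (nat_lit 17) (.e (nat_lit 6113) (nat_lit 332) .nil))))) (.g (nat_lit 0) (.e (nat_lit 101741) (nat_lit 0) .nil) .nil))))) (.nd (nat_lit 8) (.nd (nat_lit 9) 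
(.lf (nat_lit 476395) (.g (nat_lit 743) (.e (nat_lit 1799) (nat_lit 119) (.e (nat_lit 516120) (nat_lit 1) (.e (nat_lit 164329) (nat_lit 230) .nil))) (.g (nat_lit 0) (.e (nat_lit 100478) (nat_lit 0) .nil) .nil))) 
(.lf (nat_lit 476907) (.g (nat_lit 3285) (.e (nat_lit 1848) (nat_lit 124) (.e (nat_lit 557097) (nat_lit 13) (.e (nat_lit 172115) (nat_lit 10) (.e (nat_lit 434231) (nat_lit 23) (.e (nat_lit 532481) (nat_lit 0) (.e (nat_lit 6684) (nat_lit 357) (.e (nat_lit 2856) (nat_lit 184) (.e (nat_lit 426402) (nat_lit 15) .nil)))))))) (.g (nat_lit 1) (.e (nat_lit 101602) (nat_lit 0) .nil) .nil)))) 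
(.nd (nat_lit 9) 
(.lf (nat_lit 476651) (.g (nat_lit 2494) (.e (nat_lit 1800) (nat_lit 119) (.e (nat_lit 516139) (nat_lit 7) (.e (nat_lit 409649) (nat_lit 18) (.e (nat_lit 303111) (nat_lit 0) (.e (nat_lit 3238) (nat_lit 197) (.e (nat_lit 532561) (nat_lit 14) (.e (nat_lit 376855) (nat_lit 20) .nil))))))) (.g (nat_lit 1) (.e (nat_lit 100816) (nat_lit 0) .nil) .nil))) 
(.lf (nat_lit 477163) (.g (nat_lit 3166) (.e (nat_lit 1855) (nat_lit 124) (.e (nat_lit 557101) (nat_lit 13) (.e (nat_lit 172115) (nat_lit 10) (.e (nat_lit 434244) (nat_lit 28) (.e (nat_lit 573449) (nat_lit 9) (.e (nat_lit 460) (nat_lit 34) (.e (nat_lit 442378) (nat_lit 0) .nil))))))) (.g (nat_lit 1) (.e (nat_lit 101919) (nat_lit 0) .nil) .nil)))))))) 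
(.nd (nat_lit 5) (.nd (nat_lit 6) (.nd (nat_lit 7) (.nd (nat_lit 8) (.nd (nat_lit 9) 
(.lf (nat_lit 476187) (.g (nat_lit 2714) (.e (nat_lit 1804) (nat_lit 119) (.e (nat_lit 516138) (nat_lit 7) (.e (nat_lit 409645) (nat_lit 18) (.e (nat_lit 303117) (nat_lit 2) (.e (nat_lit 196674) (nat_lit 15) (.e (nat_lit 81936) (nat_lit 20) .nil)))))) (.g (nat_lit 1) (.e (nat_lit 100169) (nat_lit 0) .nil) .nil))) 
(.lf (nat_lit 476699) (.g (nat_lit 3801) (.e (nat_lit 1801) (nat_lit 119) (.e (nat_lit 516139) (nat_lit 7) (.e (nat_lit 409646) (nat_lit 18) (.e (nat_lit 303117) (nat_lit 2) (.e (nat_lit 196674) (nat_lit 15) (.e (nat_lit 81944) (nat_lit 20) .nil)))))) (.g (nat_lit 1) (.e (nat_lit 100908) (nat_lit 0) .nil) .nil)))) (.nd (nat_lit 9) 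
(.lf (nat_lit 476443) (.g (nat_lit 2030) (.e (nat_lit 1800) (nat_lit 119) (.e (nat_lit 516115) (nat_lit 1) (.e (nat_lit 164325) (nat_lit 230) (.e (nat_lit 163902) (nat_lit 12) .nil)))) (.g (nat_lit 0) (.e (nat_lit 100555) (nat_lit 0) .nil) .nil))) 
(.lf (nat_lit 476955) (.g (nat_lit 3152) (.e (nat_lit 1848) (nat_lit 124) (.e (nat_lit 557107) (nat_lit 15) (.e (nat_lit 188447) (nat_lit 22) (.e (nat_lit 196661) (nat_lit 12) (.e (nat_lit 57751) (nat_lit 201) (.e (nat_lit 2856) (nat_lit 184) (.e (nat_lit 426402) (nat_lit 15) .nil))))))) (.g (nat_lit 1) (.e (nat_lit 101650) (nat_lit 0) .nil) .nil))))) (.nd (nat_lit 8) (.nd (nat_lit 9) 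
(.lf (nat_lit 476315) (.g (nat_lit 1993) (.e (nat_lit 1797) (nat_lit 119) (.e (nat_lit 516115) (nat_lit 1) (.e (nat_lit 164399) (nat_lit 256) (.e (nat_lit 57375) (nat_lit 2) (.e (nat_lit 90174) (nat_lit 14) .nil))))) (.g (nat_lit 0) (.e (nat_lit 100375) (nat_lit 0) .nil) .nil))) 
(.lf (nat_lit 476827) (.g (nat_lit 2062) (.e (nat_lit 1877) (nat_lit 126) (.e (nat_lit 573451) (nat_lit 9) (.e (nat_lit 1595) (nat_lit 111) (.e (nat_lit 360467) (nat_lit 3) (.e (nat_lit 516158) (nat_lit 9) .nil))))) (.g (nat_lit 0) (.e (nat_lit 101314) (nat_lit 0) .nil) .nil)))) (.nd (nat_lit 9) 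
(.lf (nat_lit 476571) (.g (nat_lit 1718) (.e (nat_lit 1800) (nat_lit 119) (.e (nat_lit 516120) (nat_lit 1) (.e (nat_lit 164330) (nat_lit 230) (.e (nat_lit 163857) (nat_lit 0) .nil)))) (.g (nat_lit 0) (.e (nat_lit 100724) (nat_lit 0) .nil) .nil))) 
(.lf (nat_lit 477083) (.g (nat_lit 2227) (.e (nat_lit 1853) (nat_lit 124) (.e (nat_lit 557101) (nat_lit 13) (.e (nat_lit 172115) (nat_lit 10) (.e (nat_lit 434238) (nat_lit 25) (.e (nat_lit 548898) (nat_lit 14) (.e (nat_lit 2988) (nat_lit 186) (.e (nat_lit 442373) (nat_lit 0) .nil))))))) (.g (nat_lit 1) (.e (nat_lit 101802) (nat_lit 0) .nil) .nil)))))) 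
(.nd (nat_lit 7) (.nd (nat_lit 8) (.nd (nat_lit 9) 
(.lf (nat_lit 476251) (.g (nat_lit 2649) (.e (nat_lit 1796) (nat_lit 119) (.e (nat_lit 516115) (nat_lit 1) (.e (nat_lit 164325) (nat_lit 230) (.e (nat_lit 163844) (nat_lit 0) .nil)))) (.g (nat_lit 0) (.e (nat_lit 100257) (nat_lit 0) .nil) .nil))) 
(.lf (nat_lit 476763) (.g (nat_lit 2616) (.e (nat_lit 1803) (nat_lit 119) (.e (nat_lit 516117) (nat_lit 1) (.e (nat_lit 164399) (nat_lit 256) (.e (nat_lit 57373) (nat_lit 2) (.e (nat_lit 90172) (nat_lit 14) .nil))))) (.g (nat_lit 0) (.e (nat_lit 100993) (nat_lit 0) .nil) .nil)))) (.nd (nat_lit 9) 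
(.lf (nat_lit 476507) (.g (nat_lit 2704) (.e (nat_lit 1800) (nat_lit 119) (.e (nat_lit 516117) (nat_lit 1) (.e (nat_lit 164398) (nat_lit 256) (.e (nat_lit 57378) (nat_lit 3) (.e (nat_lit 98357) (nat_lit 26) .nil))))) (.g (nat_lit 0) (.e (nat_lit 100652) (nat_lit 0) .nil) .nil))) 
(.lf (nat_lit 477019) (.g (nat_lit 2235) (.e (nat_lit 1849) (nat_lit 124) (.e (nat_lit 557108) (nat_lit 15) (.e (nat_lit 188449) (nat_lit 22) (.e (nat_lit 196661) (nat_lit 12) (.e (nat_lit 57749) (nat_lit 201) (.e (nat_lit 2936) (nat_lit 184) (.e (nat_lit 426401) (nat_lit 15) .nil))))))) (.g (nat_lit 1) (.e (nat_lit 101725) (nat_lit 0) .nil) .nil))))) (.nd (nat_lit 8) (.nd (nat_lit 9) 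
(.lf (nat_lit 476379) (.g (nat_lit 3199) (.e (nat_lit 1798) (nat_lit 119) (.e (nat_lit 516179) (nat_lit 15) (.e (nat_lit 475199) (nat_lit 40) (.e (nat_lit 704589) (nat_lit 3) (.e (nat_lit 163979) (nat_lit 30) (.e (nat_lit 573491) (nat_lit 15) (.e (nat_lit 81943) (nat_lit 20) .nil))))))) (.g (nat_lit 1) (.e (nat_lit 100457) (nat_lit 0) .nil) .nil))) 
(.lf (nat_lit 476891) (.g (nat_lit 1783) (.e (nat_lit 1848) (nat_lit 124) (.e (nat_lit 557097) (nat_lit 13) (.e (nat_lit 172097) (nat_lit 9) (.e (nat_lit 426125) (nat_lit 2) (.e (nat_lit 196661) (nat_lit 12) (.e (nat_lit 57748) (nat_lit 201) (.e (nat_lit 2941) (nat_lit 184) (.e (nat_lit 433920) (nat_lit 15) .nil)))))))) (.g (nat_lit 1) (.e (nat_lit 101586) (nat_lit 0) .nil) .nil)))) 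
(.nd (nat_lit 9) 
(.lf (nat_lit 476635) (.g (nat_lit 2434) (.e (nat_lit 1800) (nat_lit 119) (.e (nat_lit 516139) (nat_lit 7) (.e (nat_lit 409646) (nat_lit 18) (.e (nat_lit 303112) (nat_lit 0) (.e (nat_lit 3252) (nat_lit 197) .nil))))) (.g (nat_lit 0) (.e (nat_lit 100798) (nat_lit 0) .nil) .nil))) 
(.lf (nat_lit 477147) (.g (nat_lit 1809) (.e (nat_lit 1855) (nat_lit 124) (.e (nat_lit 557098) (nat_lit 13) (.e (nat_lit 172115) (nat_lit 10) (.e (nat_lit 434231) (nat_lit 23) (.e (nat_lit 532569) (nat_lit 16) .nil))))) (.g (nat_lit 0) (.e (nat_lit 101903) (nat_lit 0) .nil) .nil))))))) (.nd (nat_lit 6) (.nd (nat_lit 7) (.nd (nat_lit 8) (.nd (nat_lit 9) 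
(.lf (nat_lit 476219) (.g (nat_lit 2294) (.e (nat_lit 1795) (nat_lit 119) (.e (nat_lit 516119) (nat_lit 1) (.e (nat_lit 164402) (nat_lit 256) (.e (nat_lit 57371) (nat_lit 2) (.e (nat_lit 90172) (nat_lit 14) .nil))))) (.g (nat_lit 0) (.e (nat_lit 100206) (nat_lit 0) .nil) .nil))) 
(.lf (nat_lit 476731) (.g (nat_lit 2816) (.e (nat_lit 1802) (nat_lit 119) (.e (nat_lit 516115) (nat_lit 1) (.e (nat_lit 164327) (nat_lit 230) (.e (nat_lit 163903) (nat_lit 12) (.e (nat_lit 426566) (nat_lit 34) (.e (nat_lit 393273) (nat_lit 23) (.e (nat_lit 426364) (nat_lit 15) .nil))))))) (.g (nat_lit 1) (.e (nat_lit 100954) (nat_lit 0) .nil) .nil)))) (.nd (nat_lit 9) 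
(.lf (nat_lit 476475) (.g (nat_lit 699) (.e (nat_lit 1800) (nat_lit 119) (.e (nat_lit 516115) (nat_lit 1) (.e (nat_lit 164332) (nat_lit 230) .nil))) (.g (nat_lit 0) (.e (nat_lit 100613) (nat_lit 0) .nil) .nil))) 
(.lf (nat_lit 476987) (.g (nat_lit 1907) (.e (nat_lit 1849) (nat_lit 124) (.e (nat_lit 557097) (nat_lit 13) (.e (nat_lit 172097) (nat_lit 9) (.e (nat_lit 426125) (nat_lit 2) (.e (nat_lit 196661) (nat_lit 12) (.e (nat_lit 57748) (nat_lit 201) (.e (nat_lit 2936) (nat_lit 184) (.e (nat_lit 433920) (nat_lit 15) .nil)))))))) (.g (nat_lit 1) (.e (nat_lit 101691) (nat_lit 0) .nil) .nil))))) 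
(.nd (nat_lit 8) (.nd (nat_lit 9) 
(.lf (nat_lit 476347) (.g (nat_lit 1417) (.e (nat_lit 1798) (nat_lit 119) (.e (nat_lit 516120) (nat_lit 1) (.e (nat_lit 164329) (nat_lit 230) (.e (nat_lit 163902) (nat_lit 12) (.e (nat_lit 426568) (nat_lit 34) .nil))))) (.g (nat_lit 0) (.e (nat_lit 100419) (nat_lit 0) .nil) .nil))) 
(.lf (nat_lit 476859) (.g (nat_lit 3329) (.e (nat_lit 1846) (nat_lit 124) (.e (nat_lit 557108) (nat_lit 15) (.e (nat_lit 188452) (nat_lit 23) (.e (nat_lit 204815) (nat_lit 17) .nil)))) (.g (nat_lit 0) (.e (nat_lit 101486) (nat_lit 0) .nil) .nil)))) (.nd (nat_lit 9) 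
(.lf (nat_lit 476603) (.g (nat_lit 2874) (.e (nat_lit 1800) (nat_lit 119) (.e (nat_lit 516120) (nat_lit 1) (.e (nat_lit 164403) (nat_lit 256) (.e (nat_lit 57378) (nat_lit 3) (.e (nat_lit 98357) (nat_lit 26) .nil))))) (.g (nat_lit 0) (.e (nat_lit 100761) (nat_lit 0) .nil) .nil))) 
(.lf (nat_lit 477115) (.g (nat_lit 1898) (.e (nat_lit 1853) (nat_lit 124) (.e (nat_lit 557107) (nat_lit 15) (.e (nat_lit 188441) (nat_lit 20) (.e (nat_lit 3272) (nat_lit 199) (.e (nat_lit 548898) (nat_lit 14) (.e (nat_lit 3004) (nat_lit 186) (.e (nat_lit 450304) (nat_lit 0) .nil))))))) (.g (nat_lit 1) (.e (nat_lit 101835) (nat_lit 0) .nil) .nil)))))) 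
(.nd (nat_lit 7) (.nd (nat_lit 8) (.nd (nat_lit 9) 
(.lf (nat_lit 476283) (.g (nat_lit 1186) (.e (nat_lit 1796) (nat_lit 119) (.e (nat_lit 516127) (nat_lit 2) (.e (nat_lit 213032) (nat_lit 11) (.e (nat_lit 24609) (nat_lit 3) (.e (nat_lit 98370) (nat_lit 28) (.e (nat_lit 442373) (nat_lit 0) .nil)))))) (.g (nat_lit 1) (.e (nat_lit 100320) (nat_lit 0) .nil) .nil))) 
(.lf (nat_lit 476795) (.g (nat_lit 2801) (.e (nat_lit 1810) (nat_lit 120) (.e (nat_lit 524322) (nat_lit 12) (.e (nat_lit 450588) (nat_lit 10) (.e (nat_lit 573475) (nat_lit 12) (.e (nat_lit 57574) (nat_lit 55) .nil))))) (.g (nat_lit 0) (.e (nat_lit 101038) (nat_lit 0) .nil) .nil)))) (.nd (nat_lit 9) 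
(.lf (nat_lit 476539) (.g (nat_lit 2576) (.e (nat_lit 1800) (nat_lit 119) (.e (nat_lit 516119) (nat_lit 1) (.e (nat_lit 164327) (nat_lit 230) (.e (nat_lit 163875) (nat_lit 3) (.e (nat_lit 204809) (nat_lit 9) .nil))))) (.g (nat_lit 0) (.e (nat_lit 100686) (nat_lit 0) .nil) .nil))) 
(.lf (nat_lit 477051) (.g (nat_lit 3147) (.e (nat_lit 1853) (nat_lit 124) (.e (nat_lit 557097) (nat_lit 13) (.e (nat_lit 172115) (nat_lit 10) (.e (nat_lit 434238) (nat_lit 25) (.e (nat_lit 548898) (nat_lit 14) (.e (nat_lit 3004) (nat_lit 186) (.e (nat_lit 442373) (nat_lit 0) .nil))))))) (.g (nat_lit 1) (.e (nat_lit 101770) (nat_lit 0) .nil) .nil))))) (.nd (nat_lit 8) (.nd (nat_lit 9) 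
(.lf (nat_lit 476411) (.g (nat_lit 2763) (.e (nat_lit 1799) (nat_lit 119) (.e (nat_lit 516139) (nat_lit 7) (.e (nat_lit 409645) (nat_lit 18) (.e (nat_lit 303117) (nat_lit 2) (.e (nat_lit 196674) (nat_lit 15) (.e (nat_lit 81944) (nat_lit 20) .nil)))))) (.g (nat_lit 1) (.e (nat_lit 100495) (nat_lit 0) .nil) .nil))) 
(.lf (nat_lit 476923) (.g (nat_lit 1838) (.e (nat_lit 1848) (nat_lit 124) (.e (nat_lit 557097) (nat_lit 13) (.e (nat_lit 172115) (nat_lit 10) (.e (nat_lit 434238) (nat_lit 25) (.e (nat_lit 548898) (nat_lit 14) (.e (nat_lit 2989) (nat_lit 186) (.e (nat_lit 450304) (nat_lit 0) .nil))))))) (.g (nat_lit 1) (.e (nat_lit 101618) (nat_lit 0) .nil) .nil)))) (.nd (nat_lit 9) 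
(.lf (nat_lit 476667) (.g (nat_lit 3816) (.e (nat_lit 1800) (nat_lit 119) (.e (nat_lit 516179) (nat_lit 15) (.e (nat_lit 475199) (nat_lit 40) (.e (nat_lit 704589) (nat_lit 3) (.e (nat_lit 163979) (nat_lit 30) (.e (nat_lit 573491) (nat_lit 15) (.e (nat_lit 89856) (nat_lit 20) .nil))))))) (.g (nat_lit 1) (.e (nat_lit 100857) (nat_lit 0) .nil) .nil))) 
(.lf (nat_lit 477179) (.g (nat_lit 3317) (.e (nat_lit 1855) (nat_lit 124) (.e (nat_lit 557105) (nat_lit 14) (.e (nat_lit 180252) (nat_lit 10) (.e (nat_lit 573482) (nat_lit 13) (.e (nat_lit 73472) (nat_lit 15) (.e (nat_lit 3253) (nat_lit 197) (.e (nat_lit 532501) (nat_lit 1) (.e (nat_lit 57851) (nat_lit 252) (.e (nat_lit 57354) (nat_lit 0) .nil))))))))) (.g (nat_lit 1) (.e (nat_lit 101935) (nat_lit 0) .nil) .nil)))))))))) 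
(.nd (nat_lit 3) (.nd (nat_lit 4) (.nd (nat_lit 5) (.nd (nat_lit 6) (.nd (nat_lit 7) 
(.nd (nat_lit 8) (.nd (nat_lit 9) 
(.lf (nat_lit 476167) (.g (nat_lit 3137) (.e (nat_lit 1794) (nat_lit 119) (.e (nat_lit 516151) (nat_lit 9) (.e (nat_lit 426211) (nat_lit 9) (.e (nat_lit 426140) (nat_lit 3) (.e (nat_lit 204845) (nat_lit 24) .nil))))) (.g (nat_lit 0) (.e (nat_lit 100135) (nat_lit 0) .nil) .nil))) 
(.lf (nat_lit 476679) (.g (nat_lit 4510) (.e (nat_lit 1801) (nat_lit 119) (.e (nat_lit 516115) (nat_lit 1) (.e (nat_lit 164325) (nat_lit 230) (.e (nat_lit 163903) (nat_lit 12) (.e (nat_lit 426566) (nat_lit 34) (.e (nat_lit 393273) (nat_lit 23) (.e (nat_lit 426364) (nat_lit 15) .nil))))))) (.g (nat_lit 1) (.e (nat_lit 100877) (nat_lit 0) .nil) .nil)))) (.nd (nat_lit 9) 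
(.lf (nat_lit 476423) (.g (nat_lit 4505) (.e (nat_lit 1799) (nat_lit 119) (.e (nat_lit 516166) (nat_lit 12) (.e (nat_lit 450587) (nat_lit 10) (.e (nat_lit 573475) (nat_lit 12) .nil)))) (.g (nat_lit 0) (.e (nat_lit 100515) (nat_lit 0) .nil) .nil))) 
(.lf (nat_lit 476935) (.g (nat_lit 3218) (.e (nat_lit 1848) (nat_lit 124) (.e (nat_lit 557097) (nat_lit 13) (.e (nat_lit 172115) (nat_lit 10) (.e (nat_lit 434244) (nat_lit 28) (.e (nat_lit 573458) (nat_lit 9) (.e (nat_lit 426) (nat_lit 32) (.e (nat_lit 426188) (nat_lit 9) (.e (nat_lit 426402) (nat_lit 15) .nil)))))))) (.g (nat_lit 1) (.e (nat_lit 101630) (nat_lit 0) .nil) .nil))))) 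
(.nd (nat_lit 8) (.nd (nat_lit 9) 
(.lf (nat_lit 476295) (.g (nat_lit 2551) (.e (nat_lit 1796) (nat_lit 119) (.e (nat_lit 516166) (nat_lit 12) (.e (nat_lit 450587) (nat_lit 10) (.e (nat_lit 573454) (nat_lit 9) (.e (nat_lit 441) (nat_lit 33) (.e (nat_lit 434179) (nat_lit 0) (.e (nat_lit 1077) (nat_lit 81) .nil))))))) (.g (nat_lit 1) (.e (nat_lit 100353) (nat_lit 0) .nil) .nil))) 
(.lf (nat_lit 476807) (.g (nat_lit 2256) (.e (nat_lit 1841) (nat_lit 123) (.e (nat_lit 548890) (nat_lit 10) (.e (nat_lit 73781) (nat_lit 32) (.e (nat_lit 2664) (nat_lit 167) (.e (nat_lit 196674) (nat_lit 15) (.e (nat_lit 81947) (nat_lit 20) .nil)))))) (.g (nat_lit 1) (.e (nat_lit 101097) (nat_lit 0) .nil) .nil)))) (.nd (nat_lit 9) 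
(.lf (nat_lit 476551) (.g (nat_lit 2754) (.e (nat_lit 1800) (nat_lit 119) (.e (nat_lit 516119) (nat_lit 1) (.e (nat_lit 164402) (nat_lit 256) (.e (nat_lit 57378) (nat_lit 3) (.e (nat_lit 98367) (nat_lit 27) (.e (nat_lit 434231) (nat_lit 23) (.e (nat_lit 532514) (nat_lit 3) (.e (nat_lit 114708) (nat_lit 20) .nil)))))))) (.g (nat_lit 1) (.e (nat_lit 100701) (nat_lit 0) .nil) .nil))) 
(.lf (nat_lit 477063) (.g (nat_lit 2715) (.e (nat_lit 1853) (nat_lit 124) (.e (nat_lit 557098) (nat_lit 13) (.e (nat_lit 172115) (nat_lit 10) (.e (nat_lit 434244) (nat_lit 28) (.e (nat_lit 573449) (nat_lit 9) (.e (nat_lit 457) (nat_lit 34) (.e (nat_lit 442373) (nat_lit 0) .nil))))))) (.g (nat_lit 1) (.e (nat_lit 101782) (nat_lit 0) .nil) .nil)))))) 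
(.nd (nat_lit 7) (.nd (nat_lit 8) (.nd (nat_lit 9) 
(.lf (nat_lit 476231) (.g (nat_lit 1968) (.e (nat_lit 1795) (nat_lit 119) (.e (nat_lit 516120) (nat_lit 1) (.e (nat_lit 164329) (nat_lit 230) (.e (nat_lit 163941) (nat_lit 19) (.e (nat_lit 483341) (nat_lit 9) (.e (nat_lit 426200) (nat_lit 9) (.e (nat_lit 426360) (nat_lit 15) .nil))))))) (.g (nat_lit 1) (.e (nat_lit 100219) (nat_lit 0) .nil) .nil))) 
(.lf (nat_lit 476743) (.g (nat_lit 2773) (.e (nat_lit 1802) (nat_lit 119) (.e (nat_lit 516139) (nat_lit 7) (.e (nat_lit 409649) (nat_lit 18) (.e (nat_lit 303116) (nat_lit 2) (.e (nat_lit 196674) (nat_lit 15) .nil))))) (.g (nat_lit 0) (.e (nat_lit 100968) (nat_lit 0) .nil) .nil)))) (.nd (nat_lit 9) 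
(.lf (nat_lit 476487) (.g (nat_lit 5681) (.e (nat_lit 1800) (nat_lit 119) (.e (nat_lit 516117) (nat_lit 1) (.e (nat_lit 164305) (nat_lit 226) (.e (nat_lit 2612) (nat_lit 163) (.e (nat_lit 163978) (nat_lit 30) (.e (nat_lit 573489) (nat_lit 14) (.e (nat_lit 73755) (nat_lit 8) (.e (nat_lit 557097) (nat_lit 13) (.e (nat_lit 172133) (nat_lit 15) .nil))))))))) (.g (nat_lit 1) (.e (nat_lit 100631) (nat_lit 0) .nil) .nil))) 
(.lf (nat_lit 476999) (.g (nat_lit 4445) (.e (nat_lit 1849) (nat_lit 124) (.e (nat_lit 557097) (nat_lit 13) (.e (nat_lit 172115) (nat_lit 10) (.e (nat_lit 434244) (nat_lit 28) (.e (nat_lit 573458) (nat_lit 9) (.e (nat_lit 426) (nat_lit 32) (.e (nat_lit 426190) (nat_lit 9) (.e (nat_lit 426402) (nat_lit 15) .nil)))))))) (.g (nat_lit 1) (.e (nat_lit 101703) (nat_lit 0) .nil) .nil))))) 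
(.nd (nat_lit 8) (.nd (nat_lit 9) 
(.lf (nat_lit 476359) (.g (nat_lit 1631) (.e (nat_lit 1798) (nat_lit 119) (.e (nat_lit 516139) (nat_lit 7) (.e (nat_lit 409648) (nat_lit 18) (.e (nat_lit 303118) (nat_lit 3) .nil)))) (.g (nat_lit 0) (.e (nat_lit 100432) (nat_lit 0) .nil) .nil))) 
(.lf (nat_lit 476871) (.g (nat_lit 2974) (.e (nat_lit 1847) (nat_lit 124) (.e (nat_lit 557098) (nat_lit 13) (.e (nat_lit 172115) (nat_lit 10) (.e (nat_lit 434244) (nat_lit 28) (.e (nat_lit 573450) (nat_lit 9) (.e (nat_lit 457) (nat_lit 34) (.e (nat_lit 450304) (nat_lit 0) .nil))))))) (.g (nat_lit 1) (.e (nat_lit 101501) (nat_lit 0) .nil) .nil)))) (.nd (nat_lit 9) 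
(.lf (nat_lit 476615) (.g (nat_lit 1664) (.e (nat_lit 1800) (nat_lit 119) (.e (nat_lit 516124) (nat_lit 2) (.e (nat_lit 213032) (nat_lit 11) (.e (nat_lit 24604) (nat_lit 2) (.e (nat_lit 90176) (nat_lit 15) .nil))))) (.g (nat_lit 0) (.e (nat_lit 100773) (nat_lit 0) .nil) .nil))) 
(.lf (nat_lit 477127) (.g (nat_lit 3113) (.e (nat_lit 1853) (nat_lit 124) (.e (nat_lit 557109) (nat_lit 15) (.e (nat_lit 188452) (nat_lit 23) (.e (nat_lit 212736) (nat_lit 32) .nil)))) (.g (nat_lit 0) (.e (nat_lit 101847) (nat_lit 0) .nil) .nil))))))) (.nd (nat_lit 6) (.nd (nat_lit 7) (.nd (nat_lit 8) (.nd (nat_lit 9) 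
(.lf (nat_lit 476199) (.g (nat_lit 2141) (.e (nat_lit 1806) (nat_lit 119) (.e (nat_lit 516120) (nat_lit 1) (.e (nat_lit 164329) (nat_lit 230) (.e (nat_lit 163941) (nat_lit 19) .nil)))) (.g (nat_lit 0) (.e (nat_lit 100182) (nat_lit 0) .nil) .nil))) 
(.lf (nat_lit 476711) (.g (nat_lit 5447) (.e (nat_lit 1801) (nat_lit 119) (.e (nat_lit 516151) (nat_lit 9) (.e (nat_lit 426211) (nat_lit 9) (.e (nat_lit 426125) (nat_lit 2) (.e (nat_lit 196626) (nat_lit 9) .nil))))) (.g (nat_lit 0) (.e (nat_lit 100927) (nat_lit 0) .nil) .nil)))) (.nd (nat_lit 9) 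
(.lf (nat_lit 476455) (.g (nat_lit 2674) (.e (nat_lit 1800) (nat_lit 119) (.e (nat_lit 516115) (nat_lit 1) (.e (nat_lit 164325) (nat_lit 230) (.e (nat_lit 163903) (nat_lit 12) (.e (nat_lit 426568) (nat_lit 34) (.e (nat_lit 393281) (nat_lit 23) (.e (nat_lit 426413) (nat_lit 15) .nil))))))) (.g (nat_lit 1) (.e (nat_lit 100570) (nat_lit 0) .nil) .nil))) 
(.lf (nat_lit 476967) (.g (nat_lit 4134) (.e (nat_lit 1848) (nat_lit 124) (.e (nat_lit 557108) (nat_lit 15) (.e (nat_lit 188449) (nat_lit 22) (.e (nat_lit 196661) (nat_lit 12) (.e (nat_lit 57750) (nat_lit 201) (.e (nat_lit 2856) (nat_lit 184) (.e (nat_lit 426402) (nat_lit 15) .nil))))))) (.g (nat_lit 1) (.e (nat_lit 101662) (nat_lit 0) .nil) .nil))))) (.nd (nat_lit 8) (.nd (nat_lit 9) 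
(.lf (nat_lit 476327) (.g (nat_lit 1308) (.e (nat_lit 1797) (nat_lit 119) (.e (nat_lit 516120) (nat_lit 1) (.e (nat_lit 164329) (nat_lit 230) .nil))) (.g (nat_lit 0) (.e (nat_lit 100387) (nat_lit 0) .nil) .nil))) 
(.lf (nat_lit 476839) (.g (nat_lit 1951) (.e (nat_lit 1846) (nat_lit 124) (.e (nat_lit 557070) (nat_lit 9) (.e (nat_lit 2744) (nat_lit 174) (.e (nat_lit 253992) (nat_lit 11) (.e (nat_lit 16411) (nat_lit 2) .nil))))) (.g (nat_lit 0) (.e (nat_lit 101465) (nat_lit 0) .nil) .nil)))) (.nd (nat_lit 9) 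
(.lf (nat_lit 476583) (.g (nat_lit 2506) (.e (nat_lit 1800) (nat_lit 119) (.e (nat_lit 516120) (nat_lit 1) (.e (nat_lit 164330) (nat_lit 230) (.e (nat_lit 163941) (nat_lit 19) (.e (nat_lit 483341) (nat_lit 9) (.e (nat_lit 426197) (nat_lit 9) (.e (nat_lit 426382) (nat_lit 15) .nil))))))) (.g (nat_lit 1) (.e (nat_lit 100738) (nat_lit 0) .nil) .nil))) 
(.lf (nat_lit 477095) (.g (nat_lit 2138) (.e (nat_lit 1853) (nat_lit 124) (.e (nat_lit 557107) (nat_lit 15) (.e (nat_lit 188439) (nat_lit 20) (.e (nat_lit 3270) (nat_lit 199) (.e (nat_lit 548915) (nat_lit 20) (.e (nat_lit 196352) (nat_lit 0) .nil)))))) (.g (nat_lit 1) (.e (nat_lit 101815) (nat_lit 0) .nil) .nil)))))) (.nd (nat_lit 7) (.nd (nat_lit 8) (.nd (nat_lit 9) 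
(.lf (nat_lit 476263) (.g (nat_lit 2848) (.e (nat_lit 1796) (nat_lit 119) (.e (nat_lit 516115) (nat_lit 1) (.e (nat_lit 164403) (nat_lit 256) (.e (nat_lit 57373) (nat_lit 2) (.e (nat_lit 90174) (nat_lit 14) .nil))))) (.g (nat_lit 0) (.e (nat_lit 100280) (nat_lit 0) .nil) .nil))) 
(.lf (nat_lit 476775) (.g (nat_lit 3859) (.e (nat_lit 1803) (nat_lit 119) (.e (nat_lit 516166) (nat_lit 12) (.e (nat_lit 450587) (nat_lit 10) (.e (nat_lit 573456) (nat_lit 9) .nil)))) (.g (nat_lit 0) (.e (nat_lit 101012) (nat_lit 0) .nil) .nil)))) (.nd (nat_lit 9) 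
(.lf (nat_lit 476519) (.g (nat_lit 2337) (.e (nat_lit 1800) (nat_lit 119) (.e (nat_lit 516117) (nat_lit 1) (.e (nat_lit 164399) (nat_lit 256) (.e (nat_lit 57379) (nat_lit 3) (.e (nat_lit 98354) (nat_lit 26) .nil))))) (.g (nat_lit 0) (.e (nat_lit 100664) (nat_lit 0) .nil) .nil))) 
(.lf (nat_lit 477031) (.g (nat_lit 3208) (.e (nat_lit 1849) (nat_lit 124) (.e (nat_lit 557109) (nat_lit 15) (.e (nat_lit 188449) (nat_lit 22) (.e (nat_lit 196630) (nat_lit 9) (.e (nat_lit 1667) (nat_lit 116) .nil))))) (.g (nat_lit 0) (.e (nat_lit 101737) (nat_lit 0) .nil) .nil))))) (.nd (nat_lit 8) (.nd (nat_lit 9) 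
(.lf (nat_lit 476391) (.g (nat_lit 1553) (.e (nat_lit 1799) (nat_lit 119) (.e (nat_lit 516117) (nat_lit 1) (.e (nat_lit 164329) (nat_lit 230) (.e (nat_lit 163902) (nat_lit 12) (.e (nat_lit 426568) (nat_lit 34) .nil))))) (.g (nat_lit 0) (.e (nat_lit 100474) (nat_lit 0) .nil) .nil))) 
(.lf (nat_lit 476903) (.g (nat_lit 3703) (.e (nat_lit 1848) (nat_lit 124) (.e (nat_lit 557097) (nat_lit 13) (.e (nat_lit 172097) (nat_lit 9) (.e (nat_lit 426125) (nat_lit 2) (.e (nat_lit 196661) (nat_lit 12) (.e (nat_lit 57751) (nat_lit 201) (.e (nat_lit 2857) (nat_lit 184) (.e (nat_lit 426402) (nat_lit 15) .nil)))))))) (.g (nat_lit 1) (.e (nat_lit 101598) (nat_lit 0) .nil) .nil)))) 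
(.nd (nat_lit 9) 
(.lf (nat_lit 476647) (.g (nat_lit 2346) (.e (nat_lit 1800) (nat_lit 119) (.e (nat_lit 516139) (nat_lit 7) (.e (nat_lit 409649) (nat_lit 18) (.e (nat_lit 303107) (nat_lit 0) .nil)))) (.g (nat_lit 0) (.e (nat_lit 100812) (nat_lit 0) .nil) .nil))) 
(.lf (nat_lit 477159) (.g (nat_lit 1503) (.e (nat_lit 1855) (nat_lit 124) (.e (nat_lit 557101) (nat_lit 13) (.e (nat_lit 172115) (nat_lit 10) (.e (nat_lit 434231) (nat_lit 23) (.e (nat_lit 532569) (nat_lit 16) .nil))))) (.g (nat_lit 0) (.e (nat_lit 101915) (nat_lit 0) .nil) .nil)))))))) (.nd (nat_lit 5) (.nd (nat_lit 6) (.nd (nat_lit 7) (.nd (nat_lit 8) (.nd (nat_lit 9) 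
(.lf (nat_lit 476183) (.g (nat_lit 1899) (.e (nat_lit 1804) (nat_lit 119) (.e (nat_lit 516120) (nat_lit 1) (.e (nat_lit 164329) (nat_lit 230) (.e (nat_lit 163902) (nat_lit 12) .nil)))) (.g (nat_lit 0) (.e (nat_lit 100163) (nat_lit 0) .nil) .nil))) 
(.lf (nat_lit 476695) (.g (nat_lit 615) (.e (nat_lit 1801) (nat_lit 119) (.e (nat_lit 516139) (nat_lit 7) (.e (nat_lit 409645) (nat_lit 18) .nil))) (.g (nat_lit 0) (.e (nat_lit 100903) (nat_lit 0) .nil) .nil)))) (.nd (nat_lit 9) 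
(.lf (nat_lit 476439) (.g (nat_lit 3677) (.e (nat_lit 1800) (nat_lit 119) (.e (nat_lit 516115) (nat_lit 1) (.e (nat_lit 164325) (nat_lit 230) (.e (nat_lit 163875) (nat_lit 3) (.e (nat_lit 204838) (nat_lit 20) (.e (nat_lit 114714) (nat_lit 22) (.e (nat_lit 90169) (nat_lit 13) (.e (nat_lit 172133) (nat_lit 15) .nil)))))))) (.g (nat_lit 1) (.e (nat_lit 100551) (nat_lit 0) .nil) .nil))) 
(.lf (nat_lit 476951) (.g (nat_lit 3880) (.e (nat_lit 1848) (nat_lit 124) (.e (nat_lit 557107) (nat_lit 15) (.e (nat_lit 188447) (nat_lit 22) (.e (nat_lit 196661) (nat_lit 12) (.e (nat_lit 57750) (nat_lit 201) (.e (nat_lit 2856) (nat_lit 184) (.e (nat_lit 426402) (nat_lit 15) .nil))))))) (.g (nat_lit 1) (.e (nat_lit 101646) (nat_lit 0) .nil) .nil))))) (.nd (nat_lit 8) (.nd (nat_lit 9) 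
(.lf (nat_lit 476311) (.g (nat_lit 3910) (.e (nat_lit 1797) (nat_lit 119) (.e (nat_lit 516115) (nat_lit 1) (.e (nat_lit 164325) (nat_lit 230) (.e (nat_lit 163904) (nat_lit 12) .nil)))) (.g (nat_lit 0) (.e (nat_lit 100369) (nat_lit 0) .nil) .nil))) 
(.lf (nat_lit 476823) (.g (nat_lit 1505) (.e (nat_lit 1873) (nat_lit 126) (.e (nat_lit 573489) (nat_lit 14) (.e (nat_lit 73755) (nat_lit 8) (.e (nat_lit 557098) (nat_lit 13) .nil)))) (.g (nat_lit 0) (.e (nat_lit 101188) (nat_lit 0) .nil) .nil)))) (.nd (nat_lit 9) 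
(.lf (nat_lit 476567) (.g (nat_lit 2906) (.e (nat_lit 1800) (nat_lit 119) (.e (nat_lit 516120) (nat_lit 1) (.e (nat_lit 164330) (nat_lit 230) (.e (nat_lit 163843) (nat_lit 0) (.e (nat_lit 3248) (nat_lit 197) (.e (nat_lit 532515) (nat_lit 3) (.e (nat_lit 114716) (nat_lit 22) (.e (nat_lit 90169) (nat_lit 13) (.e (nat_lit 172133) (nat_lit 15) .nil))))))))) (.g (nat_lit 1) (.e (nat_lit 100719) (nat_lit 0) .nil) .nil))) 
(.lf (nat_lit 477079) (.g (nat_lit 1800) (.e (nat_lit 1853) (nat_lit 124) (.e (nat_lit 557101) (nat_lit 13) (.e (nat_lit 172115) (nat_lit 10) (.e (nat_lit 434238) (nat_lit 25) (.e (nat_lit 548897) (nat_lit 14) .nil))))) (.g (nat_lit 0) (.e (nat_lit 101798) (nat_lit 0) .nil) .nil)))))) (.nd (nat_lit 7) (.nd (nat_lit 8) (.nd (nat_lit 9) 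
(.lf (nat_lit 476247) (.g (nat_lit 4905) (.e (nat_lit 1795) (nat_lit 119) (.e (nat_lit 516166) (nat_lit 12) (.e (nat_lit 450588) (nat_lit 10) (.e (nat_lit 573475) (nat_lit 12) (.e (nat_lit 57574) (nat_lit 55) .nil))))) (.g (nat_lit 0) (.e (nat_lit 100239) (nat_lit 0) .nil) .nil))) 
(.lf (nat_lit 476759) (.g (nat_lit 3789) (.e (nat_lit 1803) (nat_lit 119) (.e (nat_lit 516115) (nat_lit 1) (.e (nat_lit 164325) (nat_lit 230) (.e (nat_lit 163904) (nat_lit 12) .nil)))) (.g (nat_lit 0) (.e (nat_lit 100987) (nat_lit 0) .nil) .nil)))) (.nd (nat_lit 9) 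
(.lf (nat_lit 476503) (.g (nat_lit 2161) (.e (nat_lit 1800) (nat_lit 119) (.e (nat_lit 516117) (nat_lit 1) (.e (nat_lit 164398) (nat_lit 256) (.e (nat_lit 57373) (nat_lit 2) (.e (nat_lit 90167) (nat_lit 13) .nil))))) (.g (nat_lit 0) (.e (nat_lit 100647) (nat_lit 0) .nil) .nil))) 
(.lf (nat_lit 477015) (.g (nat_lit 2051) (.e (nat_lit 1849) (nat_lit 124) (.e (nat_lit 557107) (nat_lit 15) (.e (nat_lit 188447) (nat_lit 22) (.e (nat_lit 196661) (nat_lit 12) (.e (nat_lit 57748) (nat_lit 201) (.e (nat_lit 2940) (nat_lit 184) (.e (nat_lit 433920) (nat_lit 15) .nil))))))) (.g (nat_lit 1) (.e (nat_lit 101721) (nat_lit 0) .nil) .nil))))) (.nd (nat_lit 8) (.nd (nat_lit 9) 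
(.lf (nat_lit 476375) (.g (nat_lit 2780) (.e (nat_lit 1798) (nat_lit 119) (.e (nat_lit 516179) (nat_lit 15) (.e (nat_lit 475199) (nat_lit 40) (.e (nat_lit 704589) (nat_lit 3) (.e (nat_lit 163975) (nat_lit 30) (.e (nat_lit 573491) (nat_lit 15) (.e (nat_lit 81943) (nat_lit 20) .nil))))))) (.g (nat_lit 1) (.e (nat_lit 100449) (nat_lit 0) .nil) .nil))) 
(.lf (nat_lit 476887) (.g (nat_lit 3285) (.e (nat_lit 1848) (nat_lit 124) (.e (nat_lit 557097) (nat_lit 13) (.e (nat_lit 172097) (nat_lit 9) (.e (nat_lit 426125) (nat_lit 2) (.e (nat_lit 196661) (nat_lit 12) (.e (nat_lit 57748) (nat_lit 201) (.e (nat_lit 2936) (nat_lit 184) (.e (nat_lit 426401) (nat_lit 15) .nil)))))))) (.g (nat_lit 1) (.e (nat_lit 101582) (nat_lit 0) .nil) .nil)))) 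
(.nd (nat_lit 9) 
(.lf (nat_lit 476631) (.g (nat_lit 3220) (.e (nat_lit 1800) (nat_lit 119) (.e (nat_lit 516139) (nat_lit 7) (.e (nat_lit 409644) (nat_lit 18) (.e (nat_lit 303119) (nat_lit 3) (.e (nat_lit 204878) (nat_lit 31) (.e (nat_lit 376855) (nat_lit 20) .nil)))))) (.g (nat_lit 1) (.e (nat_lit 100794) (nat_lit 0) .nil) .nil))) 
(.lf (nat_lit 477143) (.g (nat_lit 4130) (.e (nat_lit 1855) (nat_lit 124) (.e (nat_lit 557087) (nat_lit 11) (.e (nat_lit 24662) (nat_lit 14) (.e (nat_lit 401428) (nat_lit 3) .nil)))) (.g (nat_lit 0) (.e (nat_lit 101871) (nat_lit 0) .nil) .nil))))))) (.nd (nat_lit 6) (.nd (nat_lit 7) (.nd (nat_lit 8) (.nd (nat_lit 9) 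
(.lf (nat_lit 476215) (.g (nat_lit 2436) (.e (nat_lit 1795) (nat_lit 119) (.e (nat_lit 516117) (nat_lit 1) (.e (nat_lit 164399) (nat_lit 256) (.e (nat_lit 57372) (nat_lit 2) (.e (nat_lit 90174) (nat_lit 14) .nil))))) (.g (nat_lit 0) (.e (nat_lit 100202) (nat_lit 0) .nil) .nil))) 
(.lf (nat_lit 476727) (.g (nat_lit 3021) (.e (nat_lit 1801) (nat_lit 119) (.e (nat_lit 516179) (nat_lit 15) (.e (nat_lit 475199) (nat_lit 40) (.e (nat_lit 704589) (nat_lit 3) (.e (nat_lit 163979) (nat_lit 30) (.e (nat_lit 573491) (nat_lit 15) (.e (nat_lit 81943) (nat_lit 20) .nil))))))) (.g (nat_lit 1) (.e (nat_lit 100945) (nat_lit 0) .nil) .nil)))) (.nd (nat_lit 9) 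
(.lf (nat_lit 476471) (.g (nat_lit 3292) (.e (nat_lit 1800) (nat_lit 119) (.e (nat_lit 516115) (nat_lit 1) (.e (nat_lit 164327) (nat_lit 230) (.e (nat_lit 163875) (nat_lit 3) (.e (nat_lit 204837) (nat_lit 20) (.e (nat_lit 114715) (nat_lit 22) (.e (nat_lit 90170) (nat_lit 13) (.e (nat_lit 172138) (nat_lit 15) .nil)))))))) (.g (nat_lit 1) (.e (nat_lit 100608) (nat_lit 0) .nil) .nil))) 
(.lf (nat_lit 476983) (.g (nat_lit 2987) (.e (nat_lit 1849) (nat_lit 124) (.e (nat_lit 557087) (nat_lit 11) (.e (nat_lit 24617) (nat_lit 7) (.e (nat_lit 319505) (nat_lit 10) (.e (nat_lit 7936) (nat_lit 45) (.e (nat_lit 532547) (nat_lit 11) (.e (nat_lit 352296) (nat_lit 20) .nil))))))) (.g (nat_lit 1) (.e (nat_lit 101685) (nat_lit 0) .nil) .nil))))) (.nd (nat_lit 8) (.nd (nat_lit 9) 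
(.lf (nat_lit 476343) (.g (nat_lit 1866) (.e (nat_lit 1798) (nat_lit 119) (.e (nat_lit 516115) (nat_lit 1) (.e (nat_lit 164327) (nat_lit 230) (.e (nat_lit 163907) (nat_lit 12) (.e (nat_lit 426566) (nat_lit 34) (.e (nat_lit 393273) (nat_lit 23) (.e (nat_lit 426364) (nat_lit 15) .nil))))))) (.g (nat_lit 1) (.e (nat_lit 100413) (nat_lit 0) .nil) .nil))) 
(.lf (nat_lit 476855) (.g (nat_lit 2033) (.e (nat_lit 1846) (nat_lit 124) (.e (nat_lit 557101) (nat_lit 13) (.e (nat_lit 172115) (nat_lit 10) (.e (nat_lit 434244) (nat_lit 28) (.e (nat_lit 573449) (nat_lit 9) (.e (nat_lit 457) (nat_lit 34) (.e (nat_lit 442373) (nat_lit 0) .nil))))))) (.g (nat_lit 1) (.e (nat_lit 101482) (nat_lit 0) .nil) .nil)))) (.nd (nat_lit 9) 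
(.lf (nat_lit 476599) (.g (nat_lit 4685) (.e (nat_lit 1800) (nat_lit 119) (.e (nat_lit 516120) (nat_lit 1) (.e (nat_lit 164401) (nat_lit 256) (.e (nat_lit 57378) (nat_lit 3) (.e (nat_lit 98366) (nat_lit 27) (.e (nat_lit 434231) (nat_lit 23) (.e (nat_lit 532514) (nat_lit 3) (.e (nat_lit 114708) (nat_lit 20) .nil)))))))) (.g (nat_lit 1) (.e (nat_lit 100755) (nat_lit 0) .nil) .nil))) 
(.lf (nat_lit 477111) (.g (nat_lit 1945) (.e (nat_lit 1853) (nat_lit 124) (.e (nat_lit 557107) (nat_lit 15) (.e (nat_lit 188440) (nat_lit 20) (.e (nat_lit 3272) (nat_lit 199) (.e (nat_lit 548898) (nat_lit 14) (.e (nat_lit 3004) (nat_lit 186) (.e (nat_lit 450304) (nat_lit 0) .nil))))))) (.g (nat_lit 1) (.e (nat_lit 101831) (nat_lit 0) .nil) .nil)))))) 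
(.nd (nat_lit 7) (.nd (nat_lit 8) (.nd (nat_lit 9) 
(.lf (nat_lit 476279) (.g (nat_lit 3311) (.e (nat_lit 1796) (nat_lit 119) (.e (nat_lit 516120) (nat_lit 1) (.e (nat_lit 164403) (nat_lit 256) (.e (nat_lit 57373) (nat_lit 2) (.e (nat_lit 90174) (nat_lit 14) .nil))))) (.g (nat_lit 0) (.e (nat_lit 100316) (nat_lit 0) .nil) .nil))) 
(.lf (nat_lit 476791) (.g (nat_lit 2274) (.e (nat_lit 1809) (nat_lit 120) (.e (nat_lit 524322) (nat_lit 12) (.e (nat_lit 450588) (nat_lit 10) (.e (nat_lit 573469) (nat_lit 11) .nil)))) (.g (nat_lit 0) (.e (nat_lit 101034) (nat_lit 0) .nil) .nil)))) (.nd (nat_lit 9) 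
(.lf (nat_lit 476535) (.g (nat_lit 1514) (.e (nat_lit 1800) (nat_lit 119) (.e (nat_lit 516119) (nat_lit 1) (.e (nat_lit 164325) (nat_lit 230) (.e (nat_lit 163903) (nat_lit 12) (.e (nat_lit 426479) (nat_lit 27) .nil))))) (.g (nat_lit 0) (.e (nat_lit 100682) (nat_lit 0) .nil) .nil))) 
(.lf (nat_lit 477047) (.g (nat_lit 2529) (.e (nat_lit 1853) (nat_lit 124) (.e (nat_lit 557097) (nat_lit 13) (.e (nat_lit 172115) (nat_lit 10) (.e (nat_lit 434238) (nat_lit 25) (.e (nat_lit 548897) (nat_lit 14) (.e (nat_lit 3004) (nat_lit 186) (.e (nat_lit 450304) (nat_lit 0) .nil))))))) (.g (nat_lit 1) (.e (nat_lit 101766) (nat_lit 0) .nil) .nil))))) (.nd (nat_lit 8) (.nd (nat_lit 9) 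
(.lf (nat_lit 476407) (.g (nat_lit 2889) (.e (nat_lit 1799) (nat_lit 119) (.e (nat_lit 516138) (nat_lit 7) (.e (nat_lit 409646) (nat_lit 18) (.e (nat_lit 303117) (nat_lit 2) (.e (nat_lit 196674) (nat_lit 15) (.e (nat_lit 81947) (nat_lit 20) .nil)))))) (.g (nat_lit 1) (.e (nat_lit 100491) (nat_lit 0) .nil) .nil))) 
(.lf (nat_lit 476919) (.g (nat_lit 2575) (.e (nat_lit 1848) (nat_lit 124) (.e (nat_lit 557097) (nat_lit 13) (.e (nat_lit 172115) (nat_lit 10) (.e (nat_lit 434238) (nat_lit 25) (.e (nat_lit 548897) (nat_lit 14) (.e (nat_lit 2998) (nat_lit 186) (.e (nat_lit 450304) (nat_lit 0) .nil))))))) (.g (nat_lit 1) (.e (nat_lit 101614) (nat_lit 0) .nil) .nil)))) (.nd (nat_lit 9) 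
(.lf (nat_lit 476663) (.g (nat_lit 656) (.e (nat_lit 1800) (nat_lit 119) (.e (nat_lit 516179) (nat_lit 15) (.e (nat_lit 475179) (nat_lit 24) .nil))) (.g (nat_lit 0) (.e (nat_lit 100850) (nat_lit 0) .nil) .nil))) 
(.lf (nat_lit 477175) (.g (nat_lit 3338) (.e (nat_lit 1855) (nat_lit 124) (.e (nat_lit 557105) (nat_lit 14) (.e (nat_lit 180252) (nat_lit 10) (.e (nat_lit 573482) (nat_lit 13) (.e (nat_lit 65636) (nat_lit 15) .nil))))) (.g (nat_lit 0) (.e (nat_lit 101931) (nat_lit 0) .nil) .nil))))))))) (.nd (nat_lit 4) (.nd (nat_lit 5) (.nd (nat_lit 6) (.nd (nat_lit 7) (.nd (nat_lit 8) (.nd (nat_lit 9) 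
(.lf (nat_lit 476175) (.g (nat_lit 6885) (.e (nat_lit 1793) (nat_lit 119) (.e (nat_lit 516166) (nat_lit 12) (.e (nat_lit 450588) (nat_lit 10) (.e (nat_lit 573474) (nat_lit 12) .nil)))) (.g (nat_lit 0) (.e (nat_lit 100155) (nat_lit 0) .nil) .nil))) 
(.lf (nat_lit 476687) (.g (nat_lit 2333) (.e (nat_lit 1801) (nat_lit 119) (.e (nat_lit 516120) (nat_lit 1) (.e (nat_lit 164329) (nat_lit 230) (.e (nat_lit 163941) (nat_lit 19) (.e (nat_lit 483341) (nat_lit 9) .nil))))) (.g (nat_lit 0) (.e (nat_lit 100888) (nat_lit 0) .nil) .nil)))) (.nd (nat_lit 9) 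
(.lf (nat_lit 476431) (.g (nat_lit 2095) (.e (nat_lit 1800) (nat_lit 119) (.e (nat_lit 516115) (nat_lit 1) (.e (nat_lit 164325) (nat_lit 230) (.e (nat_lit 163844) (nat_lit 0) .nil)))) (.g (nat_lit 0) (.e (nat_lit 100541) (nat_lit 0) .nil) .nil))) 
(.lf (nat_lit 476943) (.g (nat_lit 2329) (.e (nat_lit 1848) (nat_lit 124) (.e (nat_lit 557107) (nat_lit 15) (.e (nat_lit 188447) (nat_lit 22) (.e (nat_lit 196661) (nat_lit 12) (.e (nat_lit 57748) (nat_lit 201) (.e (nat_lit 2936) (nat_lit 184) (.e (nat_lit 426401) (nat_lit 15) .nil))))))) (.g (nat_lit 1) (.e (nat_lit 101638) (nat_lit 0) .nil) .nil))))) (.nd (nat_lit 8) (.nd (nat_lit 9) 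
(.lf (nat_lit 476303) (.g (nat_lit 3116) (.e (nat_lit 1796) (nat_lit 119) (.e (nat_lit 516166) (nat_lit 12) (.e (nat_lit 450588) (nat_lit 10) (.e (nat_lit 573473) (nat_lit 12) (.e (nat_lit 65280) (nat_lit 57) .nil))))) (.g (nat_lit 0) (.e (nat_lit 100361) (nat_lit 0) .nil) .nil))) 
(.lf (nat_lit 476815) (.g (nat_lit 3244) (.e (nat_lit 1842) (nat_lit 123) (.e (nat_lit 548889) (nat_lit 9) (.e (nat_lit 65545) (nat_lit 0) (.e (nat_lit 6684) (nat_lit 357) (.e (nat_lit 2664) (nat_lit 167) (.e (nat_lit 196672) (nat_lit 15) (.e (nat_lit 81943) (nat_lit 20) .nil))))))) (.g (nat_lit 1) (.e (nat_lit 101113) (nat_lit 0) .nil) .nil)))) (.nd (nat_lit 9) 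
(.lf (nat_lit 476559) (.g (nat_lit 4879) (.e (nat_lit 1800) (nat_lit 119) (.e (nat_lit 516120) (nat_lit 1) (.e (nat_lit 164304) (nat_lit 226) (.e (nat_lit 2612) (nat_lit 163) (.e (nat_lit 163979) (nat_lit 30) (.e (nat_lit 573489) (nat_lit 14) (.e (nat_lit 73755) (nat_lit 8) (.e (nat_lit 557097) (nat_lit 13) (.e (nat_lit 172133) (nat_lit 15) .nil))))))))) (.g (nat_lit 1) (.e (nat_lit 100711) (nat_lit 0) .nil) .nil))) 
(.lf (nat_lit 477071) (.g (nat_lit 2311) (.e (nat_lit 1853) (nat_lit 124) (.e (nat_lit 557100) (nat_lit 13) (.e (nat_lit 172106) (nat_lit 10) (.e (nat_lit 434244) (nat_lit 28) (.e (nat_lit 573471) (nat_lit 11) .nil))))) (.g (nat_lit 0) (.e (nat_lit 101790) (nat_lit 0) .nil) .nil)))))) (.nd (nat_lit 7) (.nd (nat_lit 8) (.nd (nat_lit 9) 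
(.lf (nat_lit 476239) (.g (nat_lit 1243) (.e (nat_lit 1795) (nat_lit 119) (.e (nat_lit 516131) (nat_lit 3) (.e (nat_lit 221212) (nat_lit 22) (.e (nat_lit 196669) (nat_lit 14) .nil)))) (.g (nat_lit 0) (.e (nat_lit 100227) (nat_lit 0) .nil) .nil))) 
(.lf (nat_lit 476751) (.g (nat_lit 4272) (.e (nat_lit 1802) (nat_lit 119) (.e (nat_lit 516179) (nat_lit 15) (.e (nat_lit 475199) (nat_lit 40) (.e (nat_lit 704589) (nat_lit 3) (.e (nat_lit 163975) (nat_lit 30) (.e (nat_lit 573491) (nat_lit 15) (.e (nat_lit 81946) (nat_lit 20) .nil))))))) (.g (nat_lit 1) (.e (nat_lit 100979) (nat_lit 0) .nil) .nil)))) (.nd (nat_lit 9) 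
(.lf (nat_lit 476495) (.g (nat_lit 2496) (.e (nat_lit 1800) (nat_lit 119) (.e (nat_lit 516117) (nat_lit 1) (.e (nat_lit 164330) (nat_lit 230) (.e (nat_lit 163941) (nat_lit 19) (.e (nat_lit 491264) (nat_lit 11) .nil))))) (.g (nat_lit 0) (.e (nat_lit 100639) (nat_lit 0) .nil) .nil))) 
(.lf (nat_lit 477007) (.g (nat_lit 2183) (.e (nat_lit 1849) (nat_lit 124) (.e (nat_lit 557098) (nat_lit 13) (.e (nat_lit 172115) (nat_lit 10) (.e (nat_lit 434231) (nat_lit 23) (.e (nat_lit 532490) (nat_lit 0) .nil))))) (.g (nat_lit 0) (.e (nat_lit 101711) (nat_lit 0) .nil) .nil))))) (.nd (nat_lit 8) (.nd (nat_lit 9) 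
(.lf (nat_lit 476367) (.g (nat_lit 4280) (.e (nat_lit 1798) (nat_lit 119) (.e (nat_lit 516166) (nat_lit 12) (.e (nat_lit 450587) (nat_lit 10) (.e (nat_lit 573469) (nat_lit 11) .nil)))) (.g (nat_lit 0) (.e (nat_lit 100441) (nat_lit 0) .nil) .nil))) 
(.lf (nat_lit 476879) (.g (nat_lit 2676) (.e (nat_lit 1848) (nat_lit 124) (.e (nat_lit 557087) (nat_lit 11) (.e (nat_lit 24617) (nat_lit 7) (.e (nat_lit 319505) (nat_lit 10) (.e (nat_lit 7936) (nat_lit 45) (.e (nat_lit 532547) (nat_lit 11) (.e (nat_lit 352296) (nat_lit 20) .nil))))))) (.g (nat_lit 1) (.e (nat_lit 101550) (nat_lit 0) .nil) .nil)))) (.nd (nat_lit 9) 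
(.lf (nat_lit 476623) (.g (nat_lit 2051) (.e (nat_lit 1800) (nat_lit 119) (.e (nat_lit 516127) (nat_lit 2) (.e (nat_lit 213032) (nat_lit 11) (.e (nat_lit 24604) (nat_lit 2) (.e (nat_lit 90178) (nat_lit 15) (.e (nat_lit 196352) (nat_lit 0) .nil)))))) (.g (nat_lit 1) (.e (nat_lit 100781) (nat_lit 0) .nil) .nil))) 
(.lf (nat_lit 477135) (.g (nat_lit 3660) (.e (nat_lit 1855) (nat_lit 124) (.e (nat_lit 557070) (nat_lit 9) (.e (nat_lit 2744) (nat_lit 174) (.e (nat_lit 253991) (nat_lit 11) (.e (nat_lit 16412) (nat_lit 2) (.e (nat_lit 196672) (nat_lit 15) (.e (nat_lit 81943) (nat_lit 20) .nil))))))) (.g (nat_lit 1) (.e (nat_lit 101862) (nat_lit 0) .nil) .nil))))))) 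
(.nd (nat_lit 6) (.nd (nat_lit 7) (.nd (nat_lit 8) (.nd (nat_lit 9) 
(.lf (nat_lit 476207) (.g (nat_lit 3824) (.e (nat_lit 1795) (nat_lit 119) (.e (nat_lit 516115) (nat_lit 1) (.e (nat_lit 164325) (nat_lit 230) (.e (nat_lit 163904) (nat_lit 12) .nil)))) (.g (nat_lit 0) (.e (nat_lit 100193) (nat_lit 0) .nil) .nil))) 
(.lf (nat_lit 476719) (.g (nat_lit 5143) (.e (nat_lit 1801) (nat_lit 119) (.e (nat_lit 516166) (nat_lit 12) (.e (nat_lit 450587) (nat_lit 10) (.e (nat_lit 573477) (nat_lit 12) (.e (nat_lit 57575) (nat_lit 55) .nil))))) (.g (nat_lit 0) (.e (nat_lit 100935) (nat_lit 0) .nil) .nil)))) (.nd (nat_lit 9) 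
(.lf (nat_lit 476463) (.g (nat_lit 2932) (.e (nat_lit 1800) (nat_lit 119) (.e (nat_lit 516115) (nat_lit 1) (.e (nat_lit 164325) (nat_lit 230) (.e (nat_lit 163907) (nat_lit 12) (.e (nat_lit 426568) (nat_lit 34) (.e (nat_lit 393275) (nat_lit 23) (.e (nat_lit 426396) (nat_lit 15) .nil))))))) (.g (nat_lit 1) (.e (nat_lit 100579) (nat_lit 0) .nil) .nil))) 
(.lf (nat_lit 476975) (.g (nat_lit 3619) (.e (nat_lit 1848) (nat_lit 124) (.e (nat_lit 557109) (nat_lit 15) (.e (nat_lit 188449) (nat_lit 22) (.e (nat_lit 196630) (nat_lit 9) .nil)))) (.g (nat_lit 0) (.e (nat_lit 101670) (nat_lit 0) .nil) .nil))))) (.nd (nat_lit 8) (.nd (nat_lit 9) 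
(.lf (nat_lit 476335) (.g (nat_lit 2723) (.e (nat_lit 1797) (nat_lit 119) (.e (nat_lit 516139) (nat_lit 7) (.e (nat_lit 409645) (nat_lit 18) (.e (nat_lit 303117) (nat_lit 2) (.e (nat_lit 196674) (nat_lit 15) .nil))))) (.g (nat_lit 0) (.e (nat_lit 100398) (nat_lit 0) .nil) .nil))) 
(.lf (nat_lit 476847) (.g (nat_lit 1850) (.e (nat_lit 1846) (nat_lit 124) (.e (nat_lit 557098) (nat_lit 13) (.e (nat_lit 172115) (nat_lit 10) (.e (nat_lit 434238) (nat_lit 25) (.e (nat_lit 548896) (nat_lit 14) .nil))))) (.g (nat_lit 0) (.e (nat_lit 101474) (nat_lit 0) .nil) .nil)))) (.nd (nat_lit 9) 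
(.lf (nat_lit 476591) (.g (nat_lit 2942) (.e (nat_lit 1800) (nat_lit 119) (.e (nat_lit 516120) (nat_lit 1) (.e (nat_lit 164330) (nat_lit 230) (.e (nat_lit 163941) (nat_lit 19) (.e (nat_lit 491264) (nat_lit 11) (.e (nat_lit 442378) (nat_lit 0) .nil)))))) (.g (nat_lit 1) (.e (nat_lit 100746) (nat_lit 0) .nil) .nil))) 
(.lf (nat_lit 477103) (.g (nat_lit 2379) (.e (nat_lit 1853) (nat_lit 124) (.e (nat_lit 557107) (nat_lit 15) (.e (nat_lit 188439) (nat_lit 20) (.e (nat_lit 3272) (nat_lit 199) (.e (nat_lit 548898) (nat_lit 14) (.e (nat_lit 2988) (nat_lit 186) (.e (nat_lit 442373) (nat_lit 0) .nil))))))) (.g (nat_lit 1) (.e (nat_lit 101823) (nat_lit 0) .nil) .nil)))))) 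
(.nd (nat_lit 7) (.nd (nat_lit 8) (.nd (nat_lit 9) 
(.lf (nat_lit 476271) (.g (nat_lit 436) (.e (nat_lit 1796) (nat_lit 119) (.e (nat_lit 516120) (nat_lit 1) (.e (nat_lit 164329) (nat_lit 230) .nil))) (.g (nat_lit 0) (.e (nat_lit 100307) (nat_lit 0) .nil) .nil))) 
(.lf (nat_lit 476783) (.g (nat_lit 2445) (.e (nat_lit 1803) (nat_lit 119) (.e (nat_lit 516179) (nat_lit 15) (.e (nat_lit 475199) (nat_lit 40) (.e (nat_lit 704589) (nat_lit 3) (.e (nat_lit 163979) (nat_lit 30) (.e (nat_lit 573491) (nat_lit 15) (.e (nat_lit 81928) (nat_lit 20) .nil))))))) (.g (nat_lit 1) (.e (nat_lit 101022) (nat_lit 0) .nil) .nil)))) (.nd (nat_lit 9) 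
(.lf (nat_lit 476527) (.g (nat_lit 2183) (.e (nat_lit 1800) (nat_lit 119) (.e (nat_lit 516117) (nat_lit 1) (.e (nat_lit 164403) (nat_lit 256) (.e (nat_lit 57378) (nat_lit 3) (.e (nat_lit 98376) (nat_lit 30) .nil))))) (.g (nat_lit 0) (.e (nat_lit 100673) (nat_lit 0) .nil) .nil))) 
(.lf (nat_lit 477039) (.g (nat_lit 579) (.e (nat_lit 1849) (nat_lit 124) (.e (nat_lit 557109) (nat_lit 15) (.e (nat_lit 188455) (nat_lit 24) .nil))) (.g (nat_lit 0) (.e (nat_lit 101745) (nat_lit 0) .nil) .nil))))) (.nd (nat_lit 8) (.nd (nat_lit 9) 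
(.lf (nat_lit 476399) (.g (nat_lit 3015) (.e (nat_lit 1799) (nat_lit 119) (.e (nat_lit 516129) (nat_lit 3) (.e (nat_lit 221210) (nat_lit 22) (.e (nat_lit 196666) (nat_lit 13) (.e (nat_lit 65642) (nat_lit 15) .nil))))) (.g (nat_lit 0) (.e (nat_lit 100482) (nat_lit 0) .nil) .nil))) 
(.lf (nat_lit 476911) (.g (nat_lit 3188) (.e (nat_lit 1848) (nat_lit 124) (.e (nat_lit 557097) (nat_lit 13) (.e (nat_lit 172115) (nat_lit 10) (.e (nat_lit 434231) (nat_lit 23) (.e (nat_lit 532490) (nat_lit 0) (.e (nat_lit 6674) (nat_lit 357) (.e (nat_lit 2940) (nat_lit 184) (.e (nat_lit 433920) (nat_lit 15) .nil)))))))) (.g (nat_lit 1) (.e (nat_lit 101606) (nat_lit 0) .nil) .nil)))) 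
(.nd (nat_lit 9) 
(.lf (nat_lit 476655) (.g (nat_lit 4467) (.e (nat_lit 1800) (nat_lit 119) (.e (nat_lit 516139) (nat_lit 7) (.e (nat_lit 409649) (nat_lit 18) (.e (nat_lit 303117) (nat_lit 2) (.e (nat_lit 196672) (nat_lit 15) (.e (nat_lit 89856) (nat_lit 20) .nil)))))) (.g (nat_lit 1) (.e (nat_lit 100822) (nat_lit 0) .nil) .nil))) 
(.lf (nat_lit 477167) (.g (nat_lit 2831) (.e (nat_lit 1855) (nat_lit 124) (.e (nat_lit 557101) (nat_lit 13) (.e (nat_lit 172115) (nat_lit 10) (.e (nat_lit 434244) (nat_lit 28) (.e (nat_lit 573450) (nat_lit 9) (.e (nat_lit 457) (nat_lit 34) (.e (nat_lit 450304) (nat_lit 0) .nil))))))) (.g (nat_lit 1) (.e (nat_lit 101923) (nat_lit 0) .nil) .nil)))))))) 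
(.nd (nat_lit 5) (.nd (nat_lit 6) (.nd (nat_lit 7) (.nd (nat_lit 8) (.nd (nat_lit 9) 
(.lf (nat_lit 476191) (.g (nat_lit 2593) (.e (nat_lit 1805) (nat_lit 119) (.e (nat_lit 516119) (nat_lit 1) (.e (nat_lit 164403) (nat_lit 256) (.e (nat_lit 57378) (nat_lit 3) (.e (nat_lit 98367) (nat_lit 27) .nil))))) (.g (nat_lit 0) (.e (nat_lit 100173) (nat_lit 0) .nil) .nil))) 
(.lf (nat_lit 476703) (.g (nat_lit 1337) (.e (nat_lit 1801) (nat_lit 119) (.e (nat_lit 516139) (nat_lit 7) (.e (nat_lit 409648) (nat_lit 18) (.e (nat_lit 303118) (nat_lit 3) .nil)))) (.g (nat_lit 0) (.e (nat_lit 100915) (nat_lit 0) .nil) .nil)))) (.nd (nat_lit 9) 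
(.lf (nat_lit 476447) (.g (nat_lit 2828) (.e (nat_lit 1800) (nat_lit 119) (.e (nat_lit 516115) (nat_lit 1) (.e (nat_lit 164325) (nat_lit 230) (.e (nat_lit 163903) (nat_lit 12) (.e (nat_lit 426566) (nat_lit 34) (.e (nat_lit 393273) (nat_lit 23) (.e (nat_lit 426382) (nat_lit 15) .nil))))))) (.g (nat_lit 1) (.e (nat_lit 100562) (nat_lit 0) .nil) .nil))) 
(.lf (nat_lit 476959) (.g (nat_lit 2308) (.e (nat_lit 1848) (nat_lit 124) (.e (nat_lit 557108) (nat_lit 15) (.e (nat_lit 188449) (nat_lit 22) (.e (nat_lit 196661) (nat_lit 12) (.e (nat_lit 57748) (nat_lit 201) (.e (nat_lit 2940) (nat_lit 184) (.e (nat_lit 433920) (nat_lit 15) .nil))))))) (.g (nat_lit 1) (.e (nat_lit 101654) (nat_lit 0) .nil) .nil))))) (.nd (nat_lit 8) (.nd (nat_lit 9) 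
(.lf (nat_lit 476319) (.g (nat_lit 2290) (.e (nat_lit 1797) (nat_lit 119) (.e (nat_lit 516117) (nat_lit 1) (.e (nat_lit 164398) (nat_lit 256) (.e (nat_lit 57373) (nat_lit 2) (.e (nat_lit 90174) (nat_lit 14) .nil))))) (.g (nat_lit 0) (.e (nat_lit 100379) (nat_lit 0) .nil) .nil))) 
(.lf (nat_lit 476831) (.g (nat_lit 1681) (.e (nat_lit 7936) (nat_lit 126) (.e (nat_lit 573488) (nat_lit 14) (.e (nat_lit 73755) (nat_lit 8) (.e (nat_lit 557097) (nat_lit 13) (.e (nat_lit 172064) (nat_lit 2) .nil))))) (.g (nat_lit 0) (.e (nat_lit 101393) (nat_lit 0) .nil) .nil)))) (.nd (nat_lit 9) 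
(.lf (nat_lit 476575) (.g (nat_lit 2398) (.e (nat_lit 1800) (nat_lit 119) (.e (nat_lit 516120) (nat_lit 1) (.e (nat_lit 164330) (nat_lit 230) (.e (nat_lit 163902) (nat_lit 12) (.e (nat_lit 426479) (nat_lit 27) .nil))))) (.g (nat_lit 0) (.e (nat_lit 100730) (nat_lit 0) .nil) .nil))) 
(.lf (nat_lit 477087) (.g (nat_lit 2468) (.e (nat_lit 1853) (nat_lit 124) (.e (nat_lit 557101) (nat_lit 13) (.e (nat_lit 172115) (nat_lit 10) (.e (nat_lit 434244) (nat_lit 28) (.e (nat_lit 573449) (nat_lit 9) (.e (nat_lit 457) (nat_lit 34) (.e (nat_lit 442373) (nat_lit 0) .nil))))))) (.g (nat_lit 1) (.e (nat_lit 101806) (nat_lit 0) .nil) .nil)))))) 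
(.nd (nat_lit 7) (.nd (nat_lit 8) (.nd (nat_lit 9) 
(.lf (nat_lit 476255) (.g (nat_lit 2646) (.e (nat_lit 1796) (nat_lit 119) (.e (nat_lit 516115) (nat_lit 1) (.e (nat_lit 164325) (nat_lit 230) (.e (nat_lit 163903) (nat_lit 12) (.e (nat_lit 426566) (nat_lit 34) .nil))))) (.g (nat_lit 0) (.e (nat_lit 100262) (nat_lit 0) .nil) .nil))) 
(.lf (nat_lit 476767) (.g (nat_lit 2779) (.e (nat_lit 1803) (nat_lit 119) (.e (nat_lit 516119) (nat_lit 1) (.e (nat_lit 164403) (nat_lit 256) (.e (nat_lit 57373) (nat_lit 2) (.e (nat_lit 90172) (nat_lit 14) .nil))))) (.g (nat_lit 0) (.e (nat_lit 100997) (nat_lit 0) .nil) .nil)))) (.nd (nat_lit 9) 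
(.lf (nat_lit 476511) (.g (nat_lit 2461) (.e (nat_lit 1800) (nat_lit 119) (.e (nat_lit 516117) (nat_lit 1) (.e (nat_lit 164398) (nat_lit 256) (.e (nat_lit 57379) (nat_lit 3) (.e (nat_lit 98354) (nat_lit 26) .nil))))) (.g (nat_lit 0) (.e (nat_lit 100656) (nat_lit 0) .nil) .nil))) 
(.lf (nat_lit 477023) (.g (nat_lit 2432) (.e (nat_lit 1849) (nat_lit 124) (.e (nat_lit 557108) (nat_lit 15) (.e (nat_lit 188449) (nat_lit 22) (.e (nat_lit 196661) (nat_lit 12) (.e (nat_lit 57751) (nat_lit 201) (.e (nat_lit 2854) (nat_lit 184) (.e (nat_lit 426402) (nat_lit 15) .nil))))))) (.g (nat_lit 1) (.e (nat_lit 101729) (nat_lit 0) .nil) .nil))))) (.nd (nat_lit 8) (.nd (nat_lit 9) 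
(.lf (nat_lit 476383) (.g (nat_lit 2106) (.e (nat_lit 1798) (nat_lit 119) (.e (nat_lit 516182) (nat_lit 15) (.e (nat_lit 475199) (nat_lit 40) (.e (nat_lit 704589) (nat_lit 3) (.e (nat_lit 163975) (nat_lit 30) (.e (nat_lit 573491) (nat_lit 15) (.e (nat_lit 81943) (nat_lit 20) .nil))))))) (.g (nat_lit 1) (.e (nat_lit 100464) (nat_lit 0) .nil) .nil))) 
(.lf (nat_lit 476895) (.g (nat_lit 3004) (.e (nat_lit 1848) (nat_lit 124) (.e (nat_lit 557097) (nat_lit 13) (.e (nat_lit 172097) (nat_lit 9) (.e (nat_lit 426125) (nat_lit 2) (.e (nat_lit 196661) (nat_lit 12) (.e (nat_lit 57749) (nat_lit 201) (.e (nat_lit 2940) (nat_lit 184) (.e (nat_lit 433920) (nat_lit 15) .nil)))))))) (.g (nat_lit 1) (.e (nat_lit 101590) (nat_lit 0) .nil) .nil)))) 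
(.nd (nat_lit 9) 
(.lf (nat_lit 476639) (.g (nat_lit 1276) (.e (nat_lit 1800) (nat_lit 119) (.e (nat_lit 516139) (nat_lit 7) (.e (nat_lit 409647) (nat_lit 18) (.e (nat_lit 303116) (nat_lit 2) .nil)))) (.g (nat_lit 0) (.e (nat_lit 100802) (nat_lit 0) .nil) .nil))) 
(.lf (nat_lit 477151) (.g (nat_lit 2678) (.e (nat_lit 1855) (nat_lit 124) (.e (nat_lit 557098) (nat_lit 13) (.e (nat_lit 172115) (nat_lit 10) (.e (nat_lit 434244) (nat_lit 28) (.e (nat_lit 573450) (nat_lit 9) (.e (nat_lit 457) (nat_lit 34) (.e (nat_lit 450304) (nat_lit 0) .nil))))))) (.g (nat_lit 1) (.e (nat_lit 101907) (nat_lit 0) .nil) .nil))))))) 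
(.nd (nat_lit 6) (.nd (nat_lit 7) (.nd (nat_lit 8) (.nd (nat_lit 9) 
(.lf (nat_lit 476223) (.g (nat_lit 2164) (.e (nat_lit 1795) (nat_lit 119) (.e (nat_lit 516119) (nat_lit 1) (.e (nat_lit 164403) (nat_lit 256) (.e (nat_lit 57371) (nat_lit 2) (.e (nat_lit 90167) (nat_lit 13) .nil))))) (.g (nat_lit 0) (.e (nat_lit 100210) (nat_lit 0) .nil) .nil))) 
(.lf (nat_lit 476735) (.g (nat_lit 1906) (.e (nat_lit 1802) (nat_lit 119) (.e (nat_lit 516117) (nat_lit 1) (.e (nat_lit 164330) (nat_lit 230) (.e (nat_lit 163941) (nat_lit 19) .nil)))) (.g (nat_lit 0) (.e (nat_lit 100959) (nat_lit 0) .nil) .nil)))) (.nd (nat_lit 9) 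
(.lf (nat_lit 476479) (.g (nat_lit 2440) (.e (nat_lit 1800) (nat_lit 119) (.e (nat_lit 516115) (nat_lit 1) (.e (nat_lit 164399) (nat_lit 256) (.e (nat_lit 57375) (nat_lit 2) (.e (nat_lit 90168) (nat_lit 13) .nil))))) (.g (nat_lit 0) (.e (nat_lit 100617) (nat_lit 0) .nil) .nil))) 
(.lf (nat_lit 476991) (.g (nat_lit 1813) (.e (nat_lit 1849) (nat_lit 124) (.e (nat_lit 557097) (nat_lit 13) (.e (nat_lit 172097) (nat_lit 9) (.e (nat_lit 426125) (nat_lit 2) (.e (nat_lit 196661) (nat_lit 12) (.e (nat_lit 57749) (nat_lit 201) (.e (nat_lit 2939) (nat_lit 184) (.e (nat_lit 433920) (nat_lit 15) .nil)))))))) (.g (nat_lit 1) (.e (nat_lit 101695) (nat_lit 0) .nil) .nil))))) 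
(.nd (nat_lit 8) (.nd (nat_lit 9) 
(.lf (nat_lit 476351) (.g (nat_lit 1109) (.e (nat_lit 1798) (nat_lit 119) (.e (nat_lit 516126) (nat_lit 2) (.e (nat_lit 213032) (nat_lit 11) (.e (nat_lit 24609) (nat_lit 3) (.e (nat_lit 98381) (nat_lit 31) (.e (nat_lit 466947) (nat_lit 0) .nil)))))) (.g (nat_lit 1) (.e (nat_lit 100423) (nat_lit 0) .nil) .nil))) 
(.lf (nat_lit 476863) (.g (nat_lit 4298) (.e (nat_lit 1846) (nat_lit 124) (.e (nat_lit 557109) (nat_lit 15) (.e (nat_lit 188452) (nat_lit 23) (.e (nat_lit 204815) (nat_lit 17) .nil)))) (.g (nat_lit 0) (.e (nat_lit 101490) (nat_lit 0) .nil) .nil)))) (.nd (nat_lit 9) 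
(.lf (nat_lit 476607) (.g (nat_lit 4989) (.e (nat_lit 1800) (nat_lit 119) (.e (nat_lit 516120) (nat_lit 1) (.e (nat_lit 164403) (nat_lit 256) (.e (nat_lit 57378) (nat_lit 3) (.e (nat_lit 98367) (nat_lit 27) (.e (nat_lit 434231) (nat_lit 23) (.e (nat_lit 532514) (nat_lit 3) (.e (nat_lit 114708) (nat_lit 20) .nil)))))))) (.g (nat_lit 1) (.e (nat_lit 100765) (nat_lit 0) .nil) .nil))) 
(.lf (nat_lit 477119) (.g (nat_lit 5115) (.e (nat_lit 1853) (nat_lit 124) (.e (nat_lit 557108) (nat_lit 15) (.e (nat_lit 188452) (nat_lit 23) (.e (nat_lit 204846) (nat_lit 24) (.e (nat_lit 319505) (nat_lit 10) (.e (nat_lit 5712) (nat_lit 312) (.e (nat_lit 42) (nat_lit 0) .nil))))))) (.g (nat_lit 1) (.e (nat_lit 101839) (nat_lit 0) .nil) .nil)))))) 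
(.nd (nat_lit 7) (.nd (nat_lit 8) (.nd (nat_lit 9) 
(.lf (nat_lit 476287) (.g (nat_lit 2743) (.e (nat_lit 1796) (nat_lit 119) (.e (nat_lit 516139) (nat_lit 7) (.e (nat_lit 409645) (nat_lit 18) (.e (nat_lit 303112) (nat_lit 0) (.e (nat_lit 3252) (nat_lit 197) .nil))))) (.g (nat_lit 0) (.e (nat_lit 100328) (nat_lit 0) .nil) .nil))) 
(.lf (nat_lit 476799) (.g (nat_lit 1523) (.e (nat_lit 1812) (nat_lit 120) (.e (nat_lit 524322) (nat_lit 12) (.e (nat_lit 450587) (nat_lit 10) (.e (nat_lit 573477) (nat_lit 12) (.e (nat_lit 57352) (nat_lit 0) .nil))))) (.g (nat_lit 0) (.e (nat_lit 101047) (nat_lit 0) .nil) .nil)))) (.nd (nat_lit 9) 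
(.lf (nat_lit 476543) (.g (nat_lit 778) (.e (nat_lit 1800) (nat_lit 119) (.e (nat_lit 516119) (nat_lit 1) (.e (nat_lit 164347) (nat_lit 240) .nil))) (.g (nat_lit 0) (.e (nat_lit 100691) (nat_lit 0) .nil) .nil))) 
(.lf (nat_lit 477055) (.g (nat_lit 3628) (.e (nat_lit 1853) (nat_lit 124) (.e (nat_lit 557097) (nat_lit 13) (.e (nat_lit 172115) (nat_lit 10) (.e (nat_lit 434244) (nat_lit 28) (.e (nat_lit 573450) (nat_lit 9) (.e (nat_lit 457) (nat_lit 34) (.e (nat_lit 450304) (nat_lit 0) .nil))))))) (.g (nat_lit 1) (.e (nat_lit 101774) (nat_lit 0) .nil) .nil))))) (.nd (nat_lit 8) (.nd (nat_lit 9) 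
(.lf (nat_lit 476415) (.g (nat_lit 1695) (.e (nat_lit 1799) (nat_lit 119) (.e (nat_lit 516139) (nat_lit 7) (.e (nat_lit 409649) (nat_lit 18) (.e (nat_lit 303119) (nat_lit 3) .nil)))) (.g (nat_lit 0) (.e (nat_lit 100506) (nat_lit 0) .nil) .nil))) 
(.lf (nat_lit 476927) (.g (nat_lit 2022) (.e (nat_lit 1848) (nat_lit 124) (.e (nat_lit 557097) (nat_lit 13) (.e (nat_lit 172115) (nat_lit 10) (.e (nat_lit 434244) (nat_lit 28) (.e (nat_lit 573449) (nat_lit 9) (.e (nat_lit 396) (nat_lit 32) (.e (nat_lit 426197) (nat_lit 9) (.e (nat_lit 426402) (nat_lit 15) .nil)))))))) (.g (nat_lit 1) (.e (nat_lit 101622) (nat_lit 0) .nil) .nil)))) 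
(.nd (nat_lit 9) 
(.lf (nat_lit 476671) (.g (nat_lit 3111) (.e (nat_lit 1800) (nat_lit 119) (.e (nat_lit 516182) (nat_lit 15) (.e (nat_lit 475198) (nat_lit 40) (.e (nat_lit 704589) (nat_lit 3) (.e (nat_lit 163975) (nat_lit 30) (.e (nat_lit 573491) (nat_lit 15) (.e (nat_lit 89856) (nat_lit 20) .nil))))))) (.g (nat_lit 1) (.e (nat_lit 100863) (nat_lit 0) .nil) .nil))) 
(.lf (nat_lit 477183) (.g (nat_lit 6107) (.e (nat_lit 1855) (nat_lit 124) (.e (nat_lit 557108) (nat_lit 15) (.e (nat_lit 188449) (nat_lit 22) (.e (nat_lit 196663) (nat_lit 13) .nil)))) (.g (nat_lit 0) (.e (nat_lit 101939) (nat_lit 0) .nil) .nil)))))))))))))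

noncomputable def tv5526 : DT := (.nd (nat_lit 0) (.nd (nat_lit 1) (.nd (nat_lit 2) (.nd (nat_lit 3) (.nd (nat_lit 4) (.nd (nat_lit 5) (.nd (nat_lit 6) (.nd (nat_lit 7) (.nd (nat_lit 8) (.nd (nat_lit 9) 
(.lf (nat_lit 477184) (.g (nat_lit 3887) (.e (nat_lit 1855) (nat_lit 124) (.e (nat_lit 557108) (nat_lit 15) (.e (nat_lit 188449) (nat_lit 22) (.e (nat_lit 196666) (nat_lit 13) .nil)))) (.g (nat_lit 0) (.e (nat_lit 101940) (nat_lit 0) .nil) .nil))) 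
(.lf (nat_lit 477696) (.g (nat_lit 2023) (.e (nat_lit 1994) (nat_lit 137) (.e (nat_lit 663567) (nat_lit 4) (.e (nat_lit 65610) (nat_lit 10) (.e (nat_lit 344169) (nat_lit 40) (.e (nat_lit 671764) (nat_lit 6) (.e (nat_lit 81934) (nat_lit 20) .nil)))))) (.g (nat_lit 1) (.e (nat_lit 102721) (nat_lit 0) .nil) .nil)))) (.nd (nat_lit 9) 
(.lf (nat_lit 477440) (.g (nat_lit 4516) (.e (nat_lit 1859) (nat_lit 124) (.e (nat_lit 557098) (nat_lit 13) (.e (nat_lit 172115) (nat_lit 10) (.e (nat_lit 434231) (nat_lit 23) (.e (nat_lit 532490) (nat_lit 0) (.e (nat_lit 6680) (nat_lit 357) (.e (nat_lit 2857) (nat_lit 184) (.e (nat_lit 426402) (nat_lit 15) .nil)))))))) (.g (nat_lit 1) (.e (nat_lit 102305) (nat_lit 0) .nil) .nil))) 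
(.lf (nat_lit 477952) (.g (nat_lit 2638) (.e (nat_lit 2292) (nat_lit 151) (.e (nat_lit 778459) (nat_lit 11) (.e (nat_lit 24660) (nat_lit 13) (.e (nat_lit 393260) (nat_lit 21) (.e (nat_lit 409623) (nat_lit 10) (.e (nat_lit 5293) (nat_lit 298) (.e (nat_lit 1001) (nat_lit 81) .nil))))))) (.g (nat_lit 1) (.e (nat_lit 103285) (nat_lit 0) .nil) .nil))))) (.nd (nat_lit 8) (.nd (nat_lit 9) 
(.lf (nat_lit 477312) (.g (nat_lit 3784) (.e (nat_lit 1858) (nat_lit 124) (.e (nat_lit 557101) (nat_lit 13) (.e (nat_lit 172097) (nat_lit 9) (.e (nat_lit 426140) (nat_lit 3) (.e (nat_lit 204821) (nat_lit 17) (.e (nat_lit 6680) (nat_lit 357) (.e (nat_lit 2857) (nat_lit 184) (.e (nat_lit 426402) (nat_lit 15) .nil)))))))) (.g (nat_lit 1) (.e (nat_lit 102146) (nat_lit 0) .nil) .nil))) 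
(.lf (nat_lit 477824) (.g (nat_lit 2441) (.e (nat_lit 2006) (nat_lit 138) (.e (nat_lit 671762) (nat_lit 4) (.e (nat_lit 65629) (nat_lit 14) (.e (nat_lit 401459) (nat_lit 13) (.e (nat_lit 483387) (nat_lit 23) .nil))))) (.g (nat_lit 0) (.e (nat_lit 102862) (nat_lit 0) .nil) .nil)))) (.nd (nat_lit 9) 
(.lf (nat_lit 477568) (.g (nat_lit 4804) (.e (nat_lit 1860) (nat_lit 124) (.e (nat_lit 557100) (nat_lit 13) (.e (nat_lit 172113) (nat_lit 10) (.e (nat_lit 434245) (nat_lit 28) (.e (nat_lit 573470) (nat_lit 11) (.e (nat_lit 16436) (nat_lit 9) (.e (nat_lit 426354) (nat_lit 15) .nil))))))) (.g (nat_lit 1) (.e (nat_lit 102434) (nat_lit 0) .nil) .nil))) 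
(.lf (nat_lit 478080) (.g (nat_lit 3559) (.e (nat_lit 2344) (nat_lit 151) (.e (nat_lit 778466) (nat_lit 11) (.e (nat_lit 24617) (nat_lit 7) (.e (nat_lit 319533) (nat_lit 16) (.e (nat_lit 286753) (nat_lit 10) .nil))))) (.g (nat_lit 0) (.e (nat_lit 103451) (nat_lit 0) .nil) .nil)))))) (.nd (nat_lit 7) (.nd (nat_lit 8) (.nd (nat_lit 9) 
(.lf (nat_lit 477248) (.g (nat_lit 3097) (.e (nat_lit 1856) (nat_lit 124) (.e (nat_lit 557101) (nat_lit 13) (.e (nat_lit 172115) (nat_lit 10) (.e (nat_lit 434244) (nat_lit 28) (.e (nat_lit 573449) (nat_lit 9) (.e (nat_lit 7936) (nat_lit 34) (.e (nat_lit 442379) (nat_lit 0) .nil))))))) (.g (nat_lit 1) (.e (nat_lit 102060) (nat_lit 0) .nil) .nil))) 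
(.lf (nat_lit 477760) (.g (nat_lit 1607) (.e (nat_lit 1996) (nat_lit 137) (.e (nat_lit 663569) (nat_lit 6) (.e (nat_lit 81924) (nat_lit 0) (.e (nat_lit 3631) (nat_lit 227) (.e (nat_lit 778326) (nat_lit 6) (.e (nat_lit 81935) (nat_lit 20) .nil)))))) (.g (nat_lit 1) (.e (nat_lit 102790) (nat_lit 0) .nil) .nil)))) (.nd (nat_lit 9) 
(.lf (nat_lit 477504) (.g (nat_lit 1729) (.e (nat_lit 1859) (nat_lit 124) (.e (nat_lit 557107) (nat_lit 15) (.e (nat_lit 188440) (nat_lit 20) (.e (nat_lit 3272) (nat_lit 199) (.e (nat_lit 548898) (nat_lit 14) (.e (nat_lit 2989) (nat_lit 186) (.e (nat_lit 450304) (nat_lit 0) .nil))))))) (.g (nat_lit 1) (.e (nat_lit 102370) (nat_lit 0) .nil) .nil))) 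
(.lf (nat_lit 478016) (.g (nat_lit 2823) (.e (nat_lit 2328) (nat_lit 151) (.e (nat_lit 778466) (nat_lit 11) (.e (nat_lit 24617) (nat_lit 7) (.e (nat_lit 319533) (nat_lit 16) (.e (nat_lit 286753) (nat_lit 10) .nil))))) (.g (nat_lit 0) (.e (nat_lit 103365) (nat_lit 0) .nil) .nil))))) (.nd (nat_lit 8) (.nd (nat_lit 9) 
(.lf (nat_lit 477376) (.g (nat_lit 3401) (.e (nat_lit 1858) (nat_lit 124) (.e (nat_lit 557105) (nat_lit 14) (.e (nat_lit 180252) (nat_lit 10) (.e (nat_lit 573482) (nat_lit 13) (.e (nat_lit 65635) (nat_lit 15) (.e (nat_lit 3253) (nat_lit 197) (.e (nat_lit 532504) (nat_lit 1) (.e (nat_lit 57852) (nat_lit 252) (.e (nat_lit 57355) (nat_lit 0) .nil))))))))) (.g (nat_lit 1) (.e (nat_lit 102229) (nat_lit 0) .nil) .nil))) 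
(.lf (nat_lit 477888) (.g (nat_lit 4951) (.e (nat_lit 2270) (nat_lit 149) (.e (nat_lit 761899) (nat_lit 15) (.e (nat_lit 163978) (nat_lit 30) (.e (nat_lit 573489) (nat_lit 14) (.e (nat_lit 73755) (nat_lit 8) (.e (nat_lit 557098) (nat_lit 13) (.e (nat_lit 172067) (nat_lit 3) (.e (nat_lit 204821) (nat_lit 17) .nil)))))))) (.g (nat_lit 1) (.e (nat_lit 103128) (nat_lit 0) .nil) .nil)))) 
(.nd (nat_lit 9) 
(.lf (nat_lit 477632) (.g (nat_lit 1692) (.e (nat_lit 1860) (nat_lit 124) (.e (nat_lit 557101) (nat_lit 13) (.e (nat_lit 172115) (nat_lit 10) (.e (nat_lit 434244) (nat_lit 28) (.e (nat_lit 573449) (nat_lit 9) .nil))))) (.g (nat_lit 0) (.e (nat_lit 102498) (nat_lit 0) .nil) .nil))) 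
(.lf (nat_lit 478144) (.g (nat_lit 1440) (.e (nat_lit 2391) (nat_lit 156) (.e (nat_lit 819221) (nat_lit 6) (.e (nat_lit 188439) (nat_lit 20) (.e (nat_lit 3289) (nat_lit 201) (.e (nat_lit 565269) (nat_lit 6) (.e (nat_lit 81939) (nat_lit 20) .nil)))))) (.g (nat_lit 1) (.e (nat_lit 103834) (nat_lit 0) .nil) .nil))))))) (.nd (nat_lit 6) (.nd (nat_lit 7) (.nd (nat_lit 8) (.nd (nat_lit 9) 
(.lf (nat_lit 477216) (.g (nat_lit 1351) (.e (nat_lit 1856) (nat_lit 124) (.e (nat_lit 557100) (nat_lit 13) (.e (nat_lit 172106) (nat_lit 10) (.e (nat_lit 434219) (nat_lit 19) .nil)))) (.g (nat_lit 0) (.e (nat_lit 102027) (nat_lit 0) .nil) .nil))) 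
(.lf (nat_lit 477728) (.g (nat_lit 1383) (.e (nat_lit 1994) (nat_lit 137) (.e (nat_lit 663569) (nat_lit 6) (.e (nat_lit 81946) (nat_lit 20) (.e (nat_lit 2006) (nat_lit 138) (.e (nat_lit 671764) (nat_lit 6) (.e (nat_lit 81934) (nat_lit 20) .nil)))))) (.g (nat_lit 1) (.e (nat_lit 102753) (nat_lit 0) .nil) .nil)))) (.nd (nat_lit 9) 
(.lf (nat_lit 477472) (.g (nat_lit 3241) (.e (nat_lit 1859) (nat_lit 124) (.e (nat_lit 557098) (nat_lit 13) (.e (nat_lit 172115) (nat_lit 10) (.e (nat_lit 434244) (nat_lit 28) (.e (nat_lit 573450) (nat_lit 9) (.e (nat_lit 457) (nat_lit 34) (.e (nat_lit 450304) (nat_lit 0) .nil))))))) (.g (nat_lit 1) (.e (nat_lit 102337) (nat_lit 0) .nil) .nil))) 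
(.lf (nat_lit 477984) (.g (nat_lit 3097) (.e (nat_lit 2309) (nat_lit 151) (.e (nat_lit 778466) (nat_lit 11) (.e (nat_lit 24617) (nat_lit 7) (.e (nat_lit 319533) (nat_lit 16) (.e (nat_lit 286753) (nat_lit 10) (.e (nat_lit 344160) (nat_lit 37) (.e (nat_lit 647196) (nat_lit 9) (.e (nat_lit 1003) (nat_lit 81) .nil)))))))) (.g (nat_lit 1) (.e (nat_lit 103323) (nat_lit 0) .nil) .nil))))) 
(.nd (nat_lit 8) (.nd (nat_lit 9) 
(.lf (nat_lit 477344) (.g (nat_lit 2168) (.e (nat_lit 1858) (nat_lit 124) (.e (nat_lit 557101) (nat_lit 13) (.e (nat_lit 172115) (nat_lit 10) (.e (nat_lit 434244) (nat_lit 28) (.e (nat_lit 573449) (nat_lit 9) (.e (nat_lit 396) (nat_lit 32) (.e (nat_lit 426190) (nat_lit 9) (.e (nat_lit 426402) (nat_lit 15) .nil)))))))) (.g (nat_lit 1) (.e (nat_lit 102178) (nat_lit 0) .nil) .nil))) 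
(.lf (nat_lit 477856) (.g (nat_lit 2363) (.e (nat_lit 2270) (nat_lit 149) (.e (nat_lit 761898) (nat_lit 15) (.e (nat_lit 163978) (nat_lit 30) (.e (nat_lit 573489) (nat_lit 14) (.e (nat_lit 73754) (nat_lit 8) (.e (nat_lit 557101) (nat_lit 13) (.e (nat_lit 172066) (nat_lit 3) (.e (nat_lit 204814) (nat_lit 17) .nil)))))))) (.g (nat_lit 1) (.e (nat_lit 103092) (nat_lit 0) .nil) .nil)))) 
(.nd (nat_lit 9) 
(.lf (nat_lit 477600) (.g (nat_lit 4878) (.e (nat_lit 1860) (nat_lit 124) (.e (nat_lit 557100) (nat_lit 13) (.e (nat_lit 172113) (nat_lit 10) (.e (nat_lit 434248) (nat_lit 28) (.e (nat_lit 573470) (nat_lit 11) (.e (nat_lit 16436) (nat_lit 9) (.e (nat_lit 426354) (nat_lit 15) .nil))))))) (.g (nat_lit 1) (.e (nat_lit 102466) (nat_lit 0) .nil) .nil))) 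
(.lf (nat_lit 478112) (.g (nat_lit 417) (.e (nat_lit 2388) (nat_lit 156) (.e (nat_lit 819204) (nat_lit 0) (.e (nat_lit 3015) (nat_lit 187) .nil))) (.g (nat_lit 0) (.e (nat_lit 103679) (nat_lit 0) .nil) .nil)))))) (.nd (nat_lit 7) (.nd (nat_lit 8) (.nd (nat_lit 9) 
(.lf (nat_lit 477280) (.g (nat_lit 2142) (.e (nat_lit 1858) (nat_lit 124) (.e (nat_lit 557070) (nat_lit 9) (.e (nat_lit 2744) (nat_lit 174) (.e (nat_lit 253992) (nat_lit 11) (.e (nat_lit 16409) (nat_lit 2) .nil))))) (.g (nat_lit 0) (.e (nat_lit 102096) (nat_lit 0) .nil) .nil))) 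
(.lf (nat_lit 477792) (.g (nat_lit 1623) (.e (nat_lit 1999) (nat_lit 137) (.e (nat_lit 663567) (nat_lit 4) (.e (nat_lit 65630) (nat_lit 14) (.e (nat_lit 401436) (nat_lit 9) (.e (nat_lit 426543) (nat_lit 29) .nil))))) (.g (nat_lit 0) (.e (nat_lit 102824) (nat_lit 0) .nil) .nil)))) (.nd (nat_lit 9) 
(.lf (nat_lit 477536) (.g (nat_lit 2759) (.e (nat_lit 1859) (nat_lit 124) (.e (nat_lit 557109) (nat_lit 15) (.e (nat_lit 188449) (nat_lit 22) (.e (nat_lit 196661) (nat_lit 12) (.e (nat_lit 57749) (nat_lit 201) (.e (nat_lit 2940) (nat_lit 184) (.e (nat_lit 433920) (nat_lit 15) .nil))))))) (.g (nat_lit 1) (.e (nat_lit 102402) (nat_lit 0) .nil) .nil))) 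
(.lf (nat_lit 478048) (.g (nat_lit 4364) (.e (nat_lit 2342) (nat_lit 151) (.e (nat_lit 778466) (nat_lit 11) (.e (nat_lit 24617) (nat_lit 7) (.e (nat_lit 319534) (nat_lit 16) (.e (nat_lit 286756) (nat_lit 10) (.e (nat_lit 344160) (nat_lit 37) (.e (nat_lit 647190) (nat_lit 9) (.e (nat_lit 1027) (nat_lit 81) .nil)))))))) (.g (nat_lit 1) (.e (nat_lit 103400) (nat_lit 0) .nil) .nil))))) 
(.nd (nat_lit 8) (.nd (nat_lit 9) 
(.lf (nat_lit 477408) (.g (nat_lit 2253) (.e (nat_lit 1859) (nat_lit 124) (.e (nat_lit 557098) (nat_lit 13) (.e (nat_lit 172097) (nat_lit 9) (.e (nat_lit 426125) (nat_lit 2) (.e (nat_lit 196661) (nat_lit 12) (.e (nat_lit 57748) (nat_lit 201) (.e (nat_lit 2939) (nat_lit 184) (.e (nat_lit 433920) (nat_lit 15) .nil)))))))) (.g (nat_lit 1) (.e (nat_lit 102273) (nat_lit 0) .nil) .nil))) 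
(.lf (nat_lit 477920) (.g (nat_lit 1523) (.e (nat_lit 2281) (nat_lit 150) (.e (nat_lit 770072) (nat_lit 8) (.e (nat_lit 65617) (nat_lit 10) (.e (nat_lit 344091) (nat_lit 18) (.e (nat_lit 7125) (nat_lit 382) .nil))))) (.g (nat_lit 0) (.e (nat_lit 103223) (nat_lit 0) .nil) .nil)))) (.nd (nat_lit 9) 
(.lf (nat_lit 477664) (.g (nat_lit 3421) (.e (nat_lit 1860) (nat_lit 124) (.e (nat_lit 557105) (nat_lit 14) (.e (nat_lit 180252) (nat_lit 10) (.e (nat_lit 573482) (nat_lit 13) (.e (nat_lit 65635) (nat_lit 15) .nil))))) (.g (nat_lit 0) (.e (nat_lit 102530) (nat_lit 0) .nil) .nil))) 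
(.lf (nat_lit 478176) (.g (nat_lit 3228) (.e (nat_lit 2056) (nat_lit 142) (.e (nat_lit 704589) (nat_lit 3) (.e (nat_lit 163975) (nat_lit 30) (.e (nat_lit 573492) (nat_lit 15) (.e (nat_lit 81956) (nat_lit 23) (.e (nat_lit 98355) (nat_lit 26) (.e (nat_lit 426393) (nat_lit 15) .nil))))))) (.g (nat_lit 1) (.e (nat_lit 103953) (nat_lit 0) .nil) .nil)))))))) 
(.nd (nat_lit 5) (.nd (nat_lit 6) (.nd (nat_lit 7) (.nd (nat_lit 8) (.nd (nat_lit 9) 
(.lf (nat_lit 477200) (.g (nat_lit 3073) (.e (nat_lit 1855) (nat_lit 124) (.e (nat_lit 557109) (nat_lit 15) (.e (nat_lit 188452) (nat_lit 23) (.e (nat_lit 204885) (nat_lit 33) .nil)))) (.g (nat_lit 0) (.e (nat_lit 101956) (nat_lit 0) .nil) .nil))) 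
(.lf (nat_lit 477712) (.g (nat_lit 2748) (.e (nat_lit 1994) (nat_lit 137) (.e (nat_lit 663567) (nat_lit 4) (.e (nat_lit 65628) (nat_lit 14) (.e (nat_lit 401438) (nat_lit 9) (.e (nat_lit 426542) (nat_lit 29) (.e (nat_lit 352287) (nat_lit 20) .nil)))))) (.g (nat_lit 1) (.e (nat_lit 102737) (nat_lit 0) .nil) .nil)))) (.nd (nat_lit 9) 
(.lf (nat_lit 477456) (.g (nat_lit 3640) (.e (nat_lit 1859) (nat_lit 124) (.e (nat_lit 557098) (nat_lit 13) (.e (nat_lit 172115) (nat_lit 10) (.e (nat_lit 434238) (nat_lit 25) (.e (nat_lit 548898) (nat_lit 14) (.e (nat_lit 2999) (nat_lit 186) (.e (nat_lit 450304) (nat_lit 0) .nil))))))) (.g (nat_lit 1) (.e (nat_lit 102321) (nat_lit 0) .nil) .nil))) 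
(.lf (nat_lit 477968) (.g (nat_lit 3480) (.e (nat_lit 2305) (nat_lit 151) (.e (nat_lit 778466) (nat_lit 11) (.e (nat_lit 24617) (nat_lit 7) (.e (nat_lit 319533) (nat_lit 16) (.e (nat_lit 286753) (nat_lit 10) (.e (nat_lit 344160) (nat_lit 37) (.e (nat_lit 647195) (nat_lit 9) (.e (nat_lit 7936) (nat_lit 81) .nil)))))))) (.g (nat_lit 1) (.e (nat_lit 103306) (nat_lit 0) .nil) .nil))))) 
(.nd (nat_lit 8) (.nd (nat_lit 9) 
(.lf (nat_lit 477328) (.g (nat_lit 4552) (.e (nat_lit 1858) (nat_lit 124) (.e (nat_lit 557101) (nat_lit 13) (.e (nat_lit 172115) (nat_lit 10) (.e (nat_lit 434231) (nat_lit 23) (.e (nat_lit 532490) (nat_lit 0) (.e (nat_lit 6680) (nat_lit 357) (.e (nat_lit 2857) (nat_lit 184) (.e (nat_lit 426402) (nat_lit 15) .nil)))))))) (.g (nat_lit 1) (.e (nat_lit 102162) (nat_lit 0) .nil) .nil))) 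
(.lf (nat_lit 477840) (.g (nat_lit 2260) (.e (nat_lit 2270) (nat_lit 149) (.e (nat_lit 761898) (nat_lit 15) (.e (nat_lit 163977) (nat_lit 30) (.e (nat_lit 573489) (nat_lit 14) (.e (nat_lit 73754) (nat_lit 8) (.e (nat_lit 557101) (nat_lit 13) (.e (nat_lit 172066) (nat_lit 3) (.e (nat_lit 204821) (nat_lit 17) .nil)))))))) (.g (nat_lit 1) (.e (nat_lit 103076) (nat_lit 0) .nil) .nil)))) 
(.nd (nat_lit 9) 
(.lf (nat_lit 477584) (.g (nat_lit 4073) (.e (nat_lit 1860) (nat_lit 124) (.e (nat_lit 557100) (nat_lit 13) (.e (nat_lit 172113) (nat_lit 10) (.e (nat_lit 434245) (nat_lit 28) (.e (nat_lit 573471) (nat_lit 11) (.e (nat_lit 16438) (nat_lit 9) (.e (nat_lit 426354) (nat_lit 15) .nil))))))) (.g (nat_lit 1) (.e (nat_lit 102450) (nat_lit 0) .nil) .nil))) 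
(.lf (nat_lit 478096) (.g (nat_lit 2084) (.e (nat_lit 2358) (nat_lit 152) (.e (nat_lit 786481) (nat_lit 30) (.e (nat_lit 360473) (nat_lit 8) (.e (nat_lit 557091) (nat_lit 12) (.e (nat_lit 164007) (nat_lit 41) .nil))))) (.g (nat_lit 0) (.e (nat_lit 103508) (nat_lit 0) .nil) .nil)))))) (.nd (nat_lit 7) (.nd (nat_lit 8) (.nd (nat_lit 9) 
(.lf (nat_lit 477264) (.g (nat_lit 2048) (.e (nat_lit 1856) (nat_lit 124) (.e (nat_lit 557109) (nat_lit 15) (.e (nat_lit 188452) (nat_lit 23) (.e (nat_lit 204816) (nat_lit 17) .nil)))) (.g (nat_lit 0) (.e (nat_lit 102079) (nat_lit 0) .nil) .nil))) 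
(.lf (nat_lit 477776) (.g (nat_lit 1716) (.e (nat_lit 1999) (nat_lit 137) (.e (nat_lit 663567) (nat_lit 4) (.e (nat_lit 65616) (nat_lit 10) (.e (nat_lit 344169) (nat_lit 40) (.e (nat_lit 671764) (nat_lit 6) (.e (nat_lit 81933) (nat_lit 20) .nil)))))) (.g (nat_lit 1) (.e (nat_lit 102808) (nat_lit 0) .nil) .nil)))) (.nd (nat_lit 9) 
(.lf (nat_lit 477520) (.g (nat_lit 2259) (.e (nat_lit 1859) (nat_lit 124) (.e (nat_lit 557107) (nat_lit 15) (.e (nat_lit 188450) (nat_lit 23) (.e (nat_lit 204882) (nat_lit 32) (.e (nat_lit 385104) (nat_lit 50) .nil))))) (.g (nat_lit 0) (.e (nat_lit 102386) (nat_lit 0) .nil) .nil))) 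
(.lf (nat_lit 478032) (.g (nat_lit 2319) (.e (nat_lit 2336) (nat_lit 151) (.e (nat_lit 778469) (nat_lit 11) (.e (nat_lit 24660) (nat_lit 13) (.e (nat_lit 393260) (nat_lit 21) (.e (nat_lit 409623) (nat_lit 10) (.e (nat_lit 5293) (nat_lit 298) (.e (nat_lit 7936) (nat_lit 81) .nil))))))) (.g (nat_lit 1) (.e (nat_lit 103382) (nat_lit 0) .nil) .nil))))) (.nd (nat_lit 8) (.nd (nat_lit 9) 
(.lf (nat_lit 477392) (.g (nat_lit 5108) (.e (nat_lit 1858) (nat_lit 124) (.e (nat_lit 557108) (nat_lit 15) (.e (nat_lit 188452) (nat_lit 23) (.e (nat_lit 204885) (nat_lit 33) .nil)))) (.g (nat_lit 0) (.e (nat_lit 102247) (nat_lit 0) .nil) .nil))) 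
(.lf (nat_lit 477904) (.g (nat_lit 4688) (.e (nat_lit 2271) (nat_lit 149) (.e (nat_lit 761898) (nat_lit 15) (.e (nat_lit 163979) (nat_lit 30) (.e (nat_lit 573489) (nat_lit 14) (.e (nat_lit 73755) (nat_lit 8) (.e (nat_lit 557097) (nat_lit 13) (.e (nat_lit 172067) (nat_lit 3) (.e (nat_lit 204815) (nat_lit 17) .nil)))))))) (.g (nat_lit 1) (.e (nat_lit 103175) (nat_lit 0) .nil) .nil)))) 
(.nd (nat_lit 9) 
(.lf (nat_lit 477648) (.g (nat_lit 3137) (.e (nat_lit 1860) (nat_lit 124) (.e (nat_lit 557101) (nat_lit 13) (.e (nat_lit 172115) (nat_lit 10) (.e (nat_lit 434244) (nat_lit 28) (.e (nat_lit 573458) (nat_lit 9) (.e (nat_lit 394) (nat_lit 32) (.e (nat_lit 426200) (nat_lit 9) (.e (nat_lit 426354) (nat_lit 15) .nil)))))))) (.g (nat_lit 1) (.e (nat_lit 102514) (nat_lit 0) .nil) .nil))) 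
(.lf (nat_lit 478160) (.g (nat_lit 2340) (.e (nat_lit 2044) (nat_lit 142) (.e (nat_lit 704734) (nat_lit 11) (.e (nat_lit 16416) (nat_lit 3) (.e (nat_lit 204866) (nat_lit 28) (.e (nat_lit 360192) (nat_lit 3) .nil))))) (.g (nat_lit 0) (.e (nat_lit 103926) (nat_lit 0) .nil) .nil))))))) (.nd (nat_lit 6) (.nd (nat_lit 7) (.nd (nat_lit 8) (.nd (nat_lit 9) 
(.lf (nat_lit 477232) (.g (nat_lit 2478) (.e (nat_lit 1856) (nat_lit 124) (.e (nat_lit 557100) (nat_lit 13) (.e (nat_lit 172113) (nat_lit 10) (.e (nat_lit 434245) (nat_lit 28) (.e (nat_lit 581376) (nat_lit 9) (.e (nat_lit 461) (nat_lit 34) (.e (nat_lit 442379) (nat_lit 0) .nil))))))) (.g (nat_lit 1) (.e (nat_lit 102044) (nat_lit 0) .nil) .nil))) 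
(.lf (nat_lit 477744) (.g (nat_lit 2450) (.e (nat_lit 1996) (nat_lit 137) (.e (nat_lit 663567) (nat_lit 4) (.e (nat_lit 65617) (nat_lit 10) (.e (nat_lit 344169) (nat_lit 40) (.e (nat_lit 671764) (nat_lit 6) (.e (nat_lit 81935) (nat_lit 20) .nil)))))) (.g (nat_lit 1) (.e (nat_lit 102774) (nat_lit 0) .nil) .nil)))) (.nd (nat_lit 9) 
(.lf (nat_lit 477488) (.g (nat_lit 2028) (.e (nat_lit 1859) (nat_lit 124) (.e (nat_lit 557107) (nat_lit 15) (.e (nat_lit 188439) (nat_lit 20) (.e (nat_lit 3270) (nat_lit 199) (.e (nat_lit 548898) (nat_lit 14) (.e (nat_lit 2999) (nat_lit 186) (.e (nat_lit 450304) (nat_lit 0) .nil))))))) (.g (nat_lit 1) (.e (nat_lit 102354) (nat_lit 0) .nil) .nil))) 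
(.lf (nat_lit 478000) (.g (nat_lit 3086) (.e (nat_lit 2314) (nat_lit 151) (.e (nat_lit 778466) (nat_lit 11) (.e (nat_lit 24617) (nat_lit 7) (.e (nat_lit 319505) (nat_lit 10) (.e (nat_lit 720) (nat_lit 64) .nil))))) (.g (nat_lit 0) (.e (nat_lit 103343) (nat_lit 0) .nil) .nil))))) (.nd (nat_lit 8) (.nd (nat_lit 9) 
(.lf (nat_lit 477360) (.g (nat_lit 3338) (.e (nat_lit 1858) (nat_lit 124) (.e (nat_lit 557101) (nat_lit 13) (.e (nat_lit 172115) (nat_lit 10) (.e (nat_lit 434244) (nat_lit 28) (.e (nat_lit 573458) (nat_lit 9) (.e (nat_lit 420) (nat_lit 32) (.e (nat_lit 426262) (nat_lit 9) (.e (nat_lit 426401) (nat_lit 15) .nil)))))))) (.g (nat_lit 1) (.e (nat_lit 102194) (nat_lit 0) .nil) .nil))) 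
(.lf (nat_lit 477872) (.g (nat_lit 2591) (.e (nat_lit 2270) (nat_lit 149) (.e (nat_lit 761898) (nat_lit 15) (.e (nat_lit 163979) (nat_lit 30) (.e (nat_lit 573489) (nat_lit 14) (.e (nat_lit 73754) (nat_lit 8) (.e (nat_lit 557101) (nat_lit 13) (.e (nat_lit 172066) (nat_lit 3) (.e (nat_lit 204821) (nat_lit 17) .nil)))))))) (.g (nat_lit 1) (.e (nat_lit 103108) (nat_lit 0) .nil) .nil)))) 
(.nd (nat_lit 9) 
(.lf (nat_lit 477616) (.g (nat_lit 2352) (.e (nat_lit 1860) (nat_lit 124) (.e (nat_lit 557101) (nat_lit 13) (.e (nat_lit 172115) (nat_lit 10) (.e (nat_lit 434231) (nat_lit 23) (.e (nat_lit 532490) (nat_lit 0) (.e (nat_lit 6674) (nat_lit 357) (.e (nat_lit 2936) (nat_lit 184) (.e (nat_lit 433920) (nat_lit 15) .nil)))))))) (.g (nat_lit 1) (.e (nat_lit 102482) (nat_lit 0) .nil) .nil))) 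
(.lf (nat_lit 478128) (.g (nat_lit 1796) (.e (nat_lit 2390) (nat_lit 156) (.e (nat_lit 819221) (nat_lit 6) (.e (nat_lit 188441) (nat_lit 20) (.e (nat_lit 3289) (nat_lit 201) (.e (nat_lit 565269) (nat_lit 6) (.e (nat_lit 81946) (nat_lit 20) .nil)))))) (.g (nat_lit 1) (.e (nat_lit 103754) (nat_lit 0) .nil) .nil)))))) (.nd (nat_lit 7) (.nd (nat_lit 8) (.nd (nat_lit 9) 
(.lf (nat_lit 477296) (.g (nat_lit 2018) (.e (nat_lit 1858) (nat_lit 124) (.e (nat_lit 557101) (nat_lit 13) (.e (nat_lit 172097) (nat_lit 9) (.e (nat_lit 426125) (nat_lit 2) (.e (nat_lit 196661) (nat_lit 12) (.e (nat_lit 57749) (nat_lit 201) (.e (nat_lit 2941) (nat_lit 184) (.e (nat_lit 433920) (nat_lit 15) .nil)))))))) (.g (nat_lit 1) (.e (nat_lit 102130) (nat_lit 0) .nil) .nil))) 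
(.lf (nat_lit 477808) (.g (nat_lit 1515) (.e (nat_lit 2004) (nat_lit 138) (.e (nat_lit 671759) (nat_lit 3) (.e (nat_lit 57479) (nat_lit 28) (.e (nat_lit 557099) (nat_lit 13) .nil)))) (.g (nat_lit 0) (.e (nat_lit 102841) (nat_lit 0) .nil) .nil)))) (.nd (nat_lit 9) 
(.lf (nat_lit 477552) (.g (nat_lit 1724) (.e (nat_lit 1860) (nat_lit 124) (.e (nat_lit 557066) (nat_lit 9) (.e (nat_lit 232) (nat_lit 21) (.e (nat_lit 336060) (nat_lit 7) .nil)))) (.g (nat_lit 0) (.e (nat_lit 102418) (nat_lit 0) .nil) .nil))) 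
(.lf (nat_lit 478064) (.g (nat_lit 3025) (.e (nat_lit 2346) (nat_lit 151) (.e (nat_lit 778466) (nat_lit 11) (.e (nat_lit 24617) (nat_lit 7) (.e (nat_lit 319534) (nat_lit 16) (.e (nat_lit 286756) (nat_lit 10) (.e (nat_lit 344160) (nat_lit 37) (.e (nat_lit 647196) (nat_lit 9) (.e (nat_lit 1023) (nat_lit 81) .nil)))))))) (.g (nat_lit 1) (.e (nat_lit 103434) (nat_lit 0) .nil) .nil))))) 
(.nd (nat_lit 8) (.nd (nat_lit 9) 
(.lf (nat_lit 477424) (.g (nat_lit 2630) (.e (nat_lit 1859) (nat_lit 124) (.e (nat_lit 557098) (nat_lit 13) (.e (nat_lit 172097) (nat_lit 9) (.e (nat_lit 426140) (nat_lit 3) (.e (nat_lit 204821) (nat_lit 17) (.e (nat_lit 6676) (nat_lit 357) (.e (nat_lit 2854) (nat_lit 184) (.e (nat_lit 426402) (nat_lit 15) .nil)))))))) (.g (nat_lit 1) (.e (nat_lit 102289) (nat_lit 0) .nil) .nil))) 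
(.lf (nat_lit 477936) (.g (nat_lit 1746) (.e (nat_lit 2283) (nat_lit 150) (.e (nat_lit 770071) (nat_lit 8) (.e (nat_lit 65586) (nat_lit 7) (.e (nat_lit 319533) (nat_lit 16) (.e (nat_lit 286753) (nat_lit 10) .nil))))) (.g (nat_lit 0) (.e (nat_lit 103245) (nat_lit 0) .nil) .nil)))) (.nd (nat_lit 9) 
(.lf (nat_lit 477680) (.g (nat_lit 1573) (.e (nat_lit 7936) (nat_lit 124) (.e (nat_lit 557098) (nat_lit 13) (.e (nat_lit 172124) (nat_lit 14) (.e (nat_lit 491540) (nat_lit 3) .nil)))) (.g (nat_lit 0) (.e (nat_lit 102562) (nat_lit 0) .nil) .nil))) 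
(.lf (nat_lit 478192) (.g (nat_lit 2783) (.e (nat_lit 2056) (nat_lit 142) (.e (nat_lit 704589) (nat_lit 3) (.e (nat_lit 163978) (nat_lit 30) (.e (nat_lit 573485) (nat_lit 13) (.e (nat_lit 65619) (nat_lit 10) (.e (nat_lit 344117) (nat_lit 21) (.e (nat_lit 516147) (nat_lit 9) (.e (nat_lit 426375) (nat_lit 15) .nil)))))))) (.g (nat_lit 1) (.e (nat_lit 103969) (nat_lit 0) .nil) .nil))))))))) 
(.nd (nat_lit 4) (.nd (nat_lit 5) (.nd (nat_lit 6) (.nd (nat_lit 7) (.nd (nat_lit 8) 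
(.nd (nat_lit 9) 
(.lf (nat_lit 477192) (.g (nat_lit 2442) (.e (nat_lit 1855) (nat_lit 124) (.e (nat_lit 557109) (nat_lit 15) (.e (nat_lit 188450) (nat_lit 23) (.e (nat_lit 204882) (nat_lit 32) .nil)))) (.g (nat_lit 0) (.e (nat_lit 101948) (nat_lit 0) .nil) .nil))) 
(.lf (nat_lit 477704) (.g (nat_lit 2650) (.e (nat_lit 1994) (nat_lit 137) (.e (nat_lit 663567) (nat_lit 4) (.e (nat_lit 65617) (nat_lit 10) (.e (nat_lit 344169) (nat_lit 40) (.e (nat_lit 671764) (nat_lit 6) (.e (nat_lit 81935) (nat_lit 20) .nil)))))) (.g (nat_lit 1) (.e (nat_lit 102729) (nat_lit 0) .nil) .nil)))) (.nd (nat_lit 9) 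
(.lf (nat_lit 477448) (.g (nat_lit 2629) (.e (nat_lit 1859) (nat_lit 124) (.e (nat_lit 557098) (nat_lit 13) (.e (nat_lit 172115) (nat_lit 10) (.e (nat_lit 434238) (nat_lit 25) (.e (nat_lit 548897) (nat_lit 14) (.e (nat_lit 2988) (nat_lit 186) (.e (nat_lit 450304) (nat_lit 0) .nil))))))) (.g (nat_lit 1) (.e (nat_lit 102313) (nat_lit 0) .nil) .nil))) 
(.lf (nat_lit 477960) (.g (nat_lit 2986) (.e (nat_lit 2304) (nat_lit 151) (.e (nat_lit 778466) (nat_lit 11) (.e (nat_lit 24617) (nat_lit 7) (.e (nat_lit 319534) (nat_lit 16) (.e (nat_lit 286756) (nat_lit 10) (.e (nat_lit 344160) (nat_lit 37) (.e (nat_lit 647188) (nat_lit 9) (.e (nat_lit 972) (nat_lit 81) .nil)))))))) (.g (nat_lit 1) (.e (nat_lit 103294) (nat_lit 0) .nil) .nil))))) 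
(.nd (nat_lit 8) (.nd (nat_lit 9) 
(.lf (nat_lit 477320) (.g (nat_lit 2036) (.e (nat_lit 1858) (nat_lit 124) (.e (nat_lit 557101) (nat_lit 13) (.e (nat_lit 172115) (nat_lit 10) (.e (nat_lit 434231) (nat_lit 23) (.e (nat_lit 532490) (nat_lit 0) (.e (nat_lit 6674) (nat_lit 357) (.e (nat_lit 2936) (nat_lit 184) (.e (nat_lit 433920) (nat_lit 15) .nil)))))))) (.g (nat_lit 1) (.e (nat_lit 102154) (nat_lit 0) .nil) .nil))) 
(.lf (nat_lit 477832) (.g (nat_lit 2072) (.e (nat_lit 2265) (nat_lit 149) (.e (nat_lit 761910) (nat_lit 17) (.e (nat_lit 180252) (nat_lit 10) (.e (nat_lit 573452) (nat_lit 9) (.e (nat_lit 1667) (nat_lit 116) .nil))))) (.g (nat_lit 0) (.e (nat_lit 102992) (nat_lit 0) .nil) .nil)))) (.nd (nat_lit 9) 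
(.lf (nat_lit 477576) (.g (nat_lit 3731) (.e (nat_lit 1860) (nat_lit 124) (.e (nat_lit 557100) (nat_lit 13) (.e (nat_lit 172113) (nat_lit 10) (.e (nat_lit 434245) (nat_lit 28) (.e (nat_lit 573471) (nat_lit 11) (.e (nat_lit 16433) (nat_lit 9) (.e (nat_lit 433920) (nat_lit 15) .nil))))))) (.g (nat_lit 1) (.e (nat_lit 102442) (nat_lit 0) .nil) .nil))) 
(.lf (nat_lit 478088) (.g (nat_lit 2433) (.e (nat_lit 2349) (nat_lit 151) (.e (nat_lit 778466) (nat_lit 11) (.e (nat_lit 24617) (nat_lit 7) (.e (nat_lit 319534) (nat_lit 16) (.e (nat_lit 286756) (nat_lit 10) .nil))))) (.g (nat_lit 0) (.e (nat_lit 103459) (nat_lit 0) .nil) .nil)))))) (.nd (nat_lit 7) (.nd (nat_lit 8) (.nd (nat_lit 9) 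
(.lf (nat_lit 477256) (.g (nat_lit 2826) (.e (nat_lit 1856) (nat_lit 124) (.e (nat_lit 557107) (nat_lit 15) (.e (nat_lit 188441) (nat_lit 20) (.e (nat_lit 3272) (nat_lit 199) (.e (nat_lit 548915) (nat_lit 20) (.e (nat_lit 188418) (nat_lit 0) .nil)))))) (.g (nat_lit 1) (.e (nat_lit 102071) (nat_lit 0) .nil) .nil))) 
(.lf (nat_lit 477768) (.g (nat_lit 1544) (.e (nat_lit 1999) (nat_lit 137) (.e (nat_lit 663567) (nat_lit 4) (.e (nat_lit 65604) (nat_lit 9) (.e (nat_lit 335907) (nat_lit 0) (.e (nat_lit 1996) (nat_lit 137) .nil))))) (.g (nat_lit 0) (.e (nat_lit 102800) (nat_lit 0) .nil) .nil)))) (.nd (nat_lit 9) 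
(.lf (nat_lit 477512) (.g (nat_lit 1850) (.e (nat_lit 1859) (nat_lit 124) (.e (nat_lit 557107) (nat_lit 15) (.e (nat_lit 188441) (nat_lit 20) (.e (nat_lit 3272) (nat_lit 199) (.e (nat_lit 548898) (nat_lit 14) (.e (nat_lit 2989) (nat_lit 186) (.e (nat_lit 450304) (nat_lit 0) .nil))))))) (.g (nat_lit 1) (.e (nat_lit 102378) (nat_lit 0) .nil) .nil))) 
(.lf (nat_lit 478024) (.g (nat_lit 2801) (.e (nat_lit 2332) (nat_lit 151) (.e (nat_lit 778466) (nat_lit 11) (.e (nat_lit 24617) (nat_lit 7) (.e (nat_lit 319534) (nat_lit 16) (.e (nat_lit 286756) (nat_lit 10) .nil))))) (.g (nat_lit 0) (.e (nat_lit 103374) (nat_lit 0) .nil) .nil))))) (.nd (nat_lit 8) (.nd (nat_lit 9) 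
(.lf (nat_lit 477384) (.g (nat_lit 3691) (.e (nat_lit 1858) (nat_lit 124) (.e (nat_lit 557105) (nat_lit 14) (.e (nat_lit 180252) (nat_lit 10) (.e (nat_lit 573482) (nat_lit 13) (.e (nat_lit 65640) (nat_lit 15) (.e (nat_lit 3253) (nat_lit 197) (.e (nat_lit 532504) (nat_lit 1) (.e (nat_lit 57852) (nat_lit 252) (.e (nat_lit 57344) (nat_lit 0) .nil))))))))) (.g (nat_lit 1) (.e (nat_lit 102237) (nat_lit 0) .nil) .nil))) 
(.lf (nat_lit 477896) (.g (nat_lit 4245) (.e (nat_lit 2270) (nat_lit 149) (.e (nat_lit 761906) (nat_lit 16) (.e (nat_lit 172097) (nat_lit 9) (.e (nat_lit 426160) (nat_lit 6) (.e (nat_lit 253990) (nat_lit 11) (.e (nat_lit 16473) (nat_lit 14) (.e (nat_lit 491526) (nat_lit 0) .nil))))))) (.g (nat_lit 1) (.e (nat_lit 103151) (nat_lit 0) .nil) .nil)))) (.nd (nat_lit 9) 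
(.lf (nat_lit 477640) (.g (nat_lit 2817) (.e (nat_lit 1860) (nat_lit 124) (.e (nat_lit 557101) (nat_lit 13) (.e (nat_lit 172115) (nat_lit 10) (.e (nat_lit 434244) (nat_lit 28) (.e (nat_lit 573450) (nat_lit 9) (.e (nat_lit 433) (nat_lit 32) (.e (nat_lit 426232) (nat_lit 9) (.e (nat_lit 426353) (nat_lit 15) .nil)))))))) (.g (nat_lit 1) (.e (nat_lit 102506) (nat_lit 0) .nil) .nil))) 
(.lf (nat_lit 478152) (.g (nat_lit 1662) (.e (nat_lit 2031) (nat_lit 140) (.e (nat_lit 688177) (nat_lit 16) (.e (nat_lit 65617) (nat_lit 10) (.e (nat_lit 344091) (nat_lit 18) (.e (nat_lit 5110) (nat_lit 292) .nil))))) (.g (nat_lit 0) (.e (nat_lit 103855) (nat_lit 0) .nil) .nil))))))) (.nd (nat_lit 6) (.nd (nat_lit 7) (.nd (nat_lit 8) (.nd (nat_lit 9) 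
(.lf (nat_lit 477224) (.g (nat_lit 2804) (.e (nat_lit 1856) (nat_lit 124) (.e (nat_lit 557100) (nat_lit 13) (.e (nat_lit 172106) (nat_lit 10) (.e (nat_lit 434244) (nat_lit 28) (.e (nat_lit 573450) (nat_lit 9) (.e (nat_lit 459) (nat_lit 34) (.e (nat_lit 442377) (nat_lit 0) .nil))))))) (.g (nat_lit 1) (.e (nat_lit 102035) (nat_lit 0) .nil) .nil))) 
(.lf (nat_lit 477736) (.g (nat_lit 1500) (.e (nat_lit 1996) (nat_lit 137) (.e (nat_lit 663567) (nat_lit 4) (.e (nat_lit 65604) (nat_lit 9) (.e (nat_lit 335907) (nat_lit 0) (.e (nat_lit 1994) (nat_lit 137) .nil))))) (.g (nat_lit 0) (.e (nat_lit 102766) (nat_lit 0) .nil) .nil)))) (.nd (nat_lit 9) 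
(.lf (nat_lit 477480) (.g (nat_lit 2580) (.e (nat_lit 1859) (nat_lit 124) (.e (nat_lit 557098) (nat_lit 13) (.e (nat_lit 172115) (nat_lit 10) (.e (nat_lit 434244) (nat_lit 28) (.e (nat_lit 573458) (nat_lit 9) (.e (nat_lit 7936) (nat_lit 34) (.e (nat_lit 450304) (nat_lit 0) .nil))))))) (.g (nat_lit 1) (.e (nat_lit 102345) (nat_lit 0) .nil) .nil))) 
(.lf (nat_lit 477992) (.g (nat_lit 3717) (.e (nat_lit 2310) (nat_lit 151) (.e (nat_lit 778466) (nat_lit 11) (.e (nat_lit 24617) (nat_lit 7) (.e (nat_lit 319534) (nat_lit 16) (.e (nat_lit 286756) (nat_lit 10) (.e (nat_lit 344160) (nat_lit 37) (.e (nat_lit 647196) (nat_lit 9) (.e (nat_lit 991) (nat_lit 81) .nil)))))))) (.g (nat_lit 1) (.e (nat_lit 103335) (nat_lit 0) .nil) .nil))))) 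
(.nd (nat_lit 8) (.nd (nat_lit 9) 
(.lf (nat_lit 477352) (.g (nat_lit 2038) (.e (nat_lit 1858) (nat_lit 124) (.e (nat_lit 557101) (nat_lit 13) (.e (nat_lit 172115) (nat_lit 10) (.e (nat_lit 434244) (nat_lit 28) (.e (nat_lit 573450) (nat_lit 9) (.e (nat_lit 389) (nat_lit 32) (.e (nat_lit 426196) (nat_lit 9) (.e (nat_lit 426402) (nat_lit 15) .nil)))))))) (.g (nat_lit 1) (.e (nat_lit 102186) (nat_lit 0) .nil) .nil))) 
(.lf (nat_lit 477864) (.g (nat_lit 3601) (.e (nat_lit 2270) (nat_lit 149) (.e (nat_lit 761898) (nat_lit 15) (.e (nat_lit 163978) (nat_lit 30) (.e (nat_lit 573489) (nat_lit 14) (.e (nat_lit 73755) (nat_lit 8) (.e (nat_lit 557103) (nat_lit 14) (.e (nat_lit 180244) (nat_lit 5) (.e (nat_lit 532491) (nat_lit 0) .nil)))))))) (.g (nat_lit 1) (.e (nat_lit 103100) (nat_lit 0) .nil) .nil)))) 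
(.nd (nat_lit 9) 
(.lf (nat_lit 477608) (.g (nat_lit 2352) (.e (nat_lit 1860) (nat_lit 124) (.e (nat_lit 557101) (nat_lit 13) (.e (nat_lit 172097) (nat_lit 9) (.e (nat_lit 426125) (nat_lit 2) (.e (nat_lit 196661) (nat_lit 12) (.e (nat_lit 57748) (nat_lit 201) (.e (nat_lit 2941) (nat_lit 184) (.e (nat_lit 426353) (nat_lit 15) .nil)))))))) (.g (nat_lit 1) (.e (nat_lit 102474) (nat_lit 0) .nil) .nil))) 
(.lf (nat_lit 478120) (.g (nat_lit 1506) (.e (nat_lit 2390) (nat_lit 156) (.e (nat_lit 819204) (nat_lit 0) (.e (nat_lit 3016) (nat_lit 187) (.e (nat_lit 450584) (nat_lit 9) (.e (nat_lit 573184) (nat_lit 6) .nil))))) (.g (nat_lit 0) (.e (nat_lit 103713) (nat_lit 0) .nil) .nil)))))) (.nd (nat_lit 7) (.nd (nat_lit 8) (.nd (nat_lit 9) 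
(.lf (nat_lit 477288) (.g (nat_lit 3763) (.e (nat_lit 1858) (nat_lit 124) (.e (nat_lit 557100) (nat_lit 13) (.e (nat_lit 172106) (nat_lit 10) (.e (nat_lit 434231) (nat_lit 23) (.e (nat_lit 532490) (nat_lit 0) (.e (nat_lit 6674) (nat_lit 357) (.e (nat_lit 2940) (nat_lit 184) (.e (nat_lit 433920) (nat_lit 15) .nil)))))))) (.g (nat_lit 1) (.e (nat_lit 102122) (nat_lit 0) .nil) .nil))) 
(.lf (nat_lit 477800) (.g (nat_lit 1547) (.e (nat_lit 2003) (nat_lit 138) (.e (nat_lit 671763) (nat_lit 5) (.e (nat_lit 73781) (nat_lit 32) (.e (nat_lit 2854) (nat_lit 184) (.e (nat_lit 426542) (nat_lit 29) (.e (nat_lit 352290) (nat_lit 20) .nil)))))) (.g (nat_lit 1) (.e (nat_lit 102833) (nat_lit 0) .nil) .nil)))) (.nd (nat_lit 9) 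
(.lf (nat_lit 477544) (.g (nat_lit 2172) (.e (nat_lit 1859) (nat_lit 124) (.e (nat_lit 557109) (nat_lit 15) (.e (nat_lit 188450) (nat_lit 23) (.e (nat_lit 204882) (nat_lit 32) .nil)))) (.g (nat_lit 0) (.e (nat_lit 102410) (nat_lit 0) .nil) .nil))) 
(.lf (nat_lit 478056) (.g (nat_lit 519) (.e (nat_lit 2346) (nat_lit 151) (.e (nat_lit 778465) (nat_lit 11) (.e (nat_lit 24584) (nat_lit 0) .nil))) (.g (nat_lit 0) (.e (nat_lit 103408) (nat_lit 0) .nil) .nil))))) (.nd (nat_lit 8) (.nd (nat_lit 9) 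
(.lf (nat_lit 477416) (.g (nat_lit 4235) (.e (nat_lit 1859) (nat_lit 124) (.e (nat_lit 557098) (nat_lit 13) (.e (nat_lit 172097) (nat_lit 9) (.e (nat_lit 426125) (nat_lit 2) (.e (nat_lit 196661) (nat_lit 12) (.e (nat_lit 57750) (nat_lit 201) (.e (nat_lit 2857) (nat_lit 184) (.e (nat_lit 426402) (nat_lit 15) .nil)))))))) (.g (nat_lit 1) (.e (nat_lit 102281) (nat_lit 0) .nil) .nil))) 
(.lf (nat_lit 477928) (.g (nat_lit 371) (.e (nat_lit 2281) (nat_lit 150) (.e (nat_lit 770072) (nat_lit 8) (.e (nat_lit 65627) (nat_lit 13) .nil))) (.g (nat_lit 0) (.e (nat_lit 103232) (nat_lit 0) .nil) .nil)))) (.nd (nat_lit 9) 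
(.lf (nat_lit 477672) (.g (nat_lit 4310) (.e (nat_lit 1860) (nat_lit 124) (.e (nat_lit 557108) (nat_lit 15) (.e (nat_lit 188452) (nat_lit 23) (.e (nat_lit 204846) (nat_lit 24) (.e (nat_lit 319504) (nat_lit 10) (.e (nat_lit 7936) (nat_lit 312) (.e (nat_lit 4) (nat_lit 0) .nil))))))) (.g (nat_lit 1) (.e (nat_lit 102538) (nat_lit 0) .nil) .nil))) 
(.lf (nat_lit 478184) (.g (nat_lit 2883) (.e (nat_lit 2056) (nat_lit 142) (.e (nat_lit 704589) (nat_lit 3) (.e (nat_lit 163976) (nat_lit 30) (.e (nat_lit 573491) (nat_lit 15) (.e (nat_lit 81954) (nat_lit 23) (.e (nat_lit 98356) (nat_lit 26) (.e (nat_lit 426416) (nat_lit 15) .nil))))))) (.g (nat_lit 1) (.e (nat_lit 103961) (nat_lit 0) .nil) .nil)))))))) 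
(.nd (nat_lit 5) (.nd (nat_lit 6) (.nd (nat_lit 7) (.nd (nat_lit 8) (.nd (nat_lit 9) 
(.lf (nat_lit 477208) (.g (nat_lit 969) (.e (nat_lit 1856) (nat_lit 124) (.e (nat_lit 557098) (nat_lit 13) (.e (nat_lit 172112) (nat_lit 10) .nil))) (.g (nat_lit 0) (.e (nat_lit 102014) (nat_lit 0) .nil) .nil))) 
(.lf (nat_lit 477720) (.g (nat_lit 1861) (.e (nat_lit 1994) (nat_lit 137) (.e (nat_lit 663569) (nat_lit 6) (.e (nat_lit 81922) (nat_lit 0) (.e (nat_lit 3631) (nat_lit 227) (.e (nat_lit 778326) (nat_lit 6) (.e (nat_lit 81935) (nat_lit 20) .nil)))))) (.g (nat_lit 1) (.e (nat_lit 102745) (nat_lit 0) .nil) .nil)))) (.nd (nat_lit 9) 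
(.lf (nat_lit 477464) (.g (nat_lit 2883) (.e (nat_lit 1859) (nat_lit 124) (.e (nat_lit 557098) (nat_lit 13) (.e (nat_lit 172115) (nat_lit 10) (.e (nat_lit 434244) (nat_lit 28) (.e (nat_lit 573449) (nat_lit 9) (.e (nat_lit 454) (nat_lit 34) (.e (nat_lit 450304) (nat_lit 0) .nil))))))) (.g (nat_lit 1) (.e (nat_lit 102329) (nat_lit 0) .nil) .nil))) 
(.lf (nat_lit 477976) (.g (nat_lit 2236) (.e (nat_lit 2309) (nat_lit 151) (.e (nat_lit 778464) (nat_lit 11) (.e (nat_lit 24617) (nat_lit 7) (.e (nat_lit 319533) (nat_lit 16) (.e (nat_lit 286753) (nat_lit 10) (.e (nat_lit 344160) (nat_lit 37) (.e (nat_lit 647190) (nat_lit 9) (.e (nat_lit 983) (nat_lit 81) .nil)))))))) (.g (nat_lit 1) (.e (nat_lit 103315) (nat_lit 0) .nil) .nil))))) 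
(.nd (nat_lit 8) (.nd (nat_lit 9) 
(.lf (nat_lit 477336) (.g (nat_lit 2723) (.e (nat_lit 1858) (nat_lit 124) (.e (nat_lit 557101) (nat_lit 13) (.e (nat_lit 172115) (nat_lit 10) (.e (nat_lit 434238) (nat_lit 25) (.e (nat_lit 548897) (nat_lit 14) (.e (nat_lit 3004) (nat_lit 186) (.e (nat_lit 450304) (nat_lit 0) .nil))))))) (.g (nat_lit 1) (.e (nat_lit 102170) (nat_lit 0) .nil) .nil))) 
(.lf (nat_lit 477848) (.g (nat_lit 3335) (.e (nat_lit 2270) (nat_lit 149) (.e (nat_lit 761898) (nat_lit 15) (.e (nat_lit 163978) (nat_lit 30) (.e (nat_lit 573487) (nat_lit 14) (.e (nat_lit 73753) (nat_lit 8) (.e (nat_lit 557098) (nat_lit 13) (.e (nat_lit 172066) (nat_lit 3) (.e (nat_lit 204821) (nat_lit 17) .nil)))))))) (.g (nat_lit 1) (.e (nat_lit 103084) (nat_lit 0) .nil) .nil)))) 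
(.nd (nat_lit 9) 
(.lf (nat_lit 477592) (.g (nat_lit 2380) (.e (nat_lit 1860) (nat_lit 124) (.e (nat_lit 557100) (nat_lit 13) (.e (nat_lit 172113) (nat_lit 10) (.e (nat_lit 434248) (nat_lit 28) (.e (nat_lit 573469) (nat_lit 11) (.e (nat_lit 16435) (nat_lit 9) (.e (nat_lit 426350) (nat_lit 15) .nil))))))) (.g (nat_lit 1) (.e (nat_lit 102458) (nat_lit 0) .nil) .nil))) 
(.lf (nat_lit 478104) (.g (nat_lit 753) (.e (nat_lit 2384) (nat_lit 155) (.e (nat_lit 811011) (nat_lit 0) (.e (nat_lit 5777) (nat_lit 317) (.e (nat_lit 180241) (nat_lit 4) (.e (nat_lit 524340) (nat_lit 28) (.e (nat_lit 352286) (nat_lit 20) .nil)))))) (.g (nat_lit 1) (.e (nat_lit 103662) (nat_lit 0) .nil) .nil)))))) (.nd (nat_lit 7) (.nd (nat_lit 8) (.nd (nat_lit 9) 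
(.lf (nat_lit 477272) (.g (nat_lit 3065) (.e (nat_lit 1857) (nat_lit 124) (.e (nat_lit 557105) (nat_lit 14) (.e (nat_lit 180252) (nat_lit 10) (.e (nat_lit 573480) (nat_lit 13) (.e (nat_lit 65637) (nat_lit 15) .nil))))) (.g (nat_lit 0) (.e (nat_lit 102087) (nat_lit 0) .nil) .nil))) 
(.lf (nat_lit 477784) (.g (nat_lit 1759) (.e (nat_lit 1999) (nat_lit 137) (.e (nat_lit 663567) (nat_lit 4) (.e (nat_lit 65620) (nat_lit 10) (.e (nat_lit 344169) (nat_lit 40) (.e (nat_lit 671764) (nat_lit 6) (.e (nat_lit 81933) (nat_lit 20) .nil)))))) (.g (nat_lit 1) (.e (nat_lit 102816) (nat_lit 0) .nil) .nil)))) (.nd (nat_lit 9) 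
(.lf (nat_lit 477528) (.g (nat_lit 2948) (.e (nat_lit 1859) (nat_lit 124) (.e (nat_lit 557109) (nat_lit 15) (.e (nat_lit 188447) (nat_lit 22) (.e (nat_lit 196661) (nat_lit 12) (.e (nat_lit 57751) (nat_lit 201) (.e (nat_lit 2855) (nat_lit 184) (.e (nat_lit 426402) (nat_lit 15) .nil))))))) (.g (nat_lit 1) (.e (nat_lit 102394) (nat_lit 0) .nil) .nil))) 
(.lf (nat_lit 478040) (.g (nat_lit 2785) (.e (nat_lit 2342) (nat_lit 151) (.e (nat_lit 778466) (nat_lit 11) (.e (nat_lit 24617) (nat_lit 7) (.e (nat_lit 319533) (nat_lit 16) (.e (nat_lit 286753) (nat_lit 10) (.e (nat_lit 344160) (nat_lit 37) (.e (nat_lit 647190) (nat_lit 9) (.e (nat_lit 1044) (nat_lit 81) .nil)))))))) (.g (nat_lit 1) (.e (nat_lit 103390) (nat_lit 0) .nil) .nil))))) 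
(.nd (nat_lit 8) (.nd (nat_lit 9) 
(.lf (nat_lit 477400) (.g (nat_lit 2477) (.e (nat_lit 1859) (nat_lit 124) (.e (nat_lit 557087) (nat_lit 11) (.e (nat_lit 24617) (nat_lit 7) (.e (nat_lit 319505) (nat_lit 10) .nil)))) (.g (nat_lit 0) (.e (nat_lit 102258) (nat_lit 0) .nil) .nil))) 
(.lf (nat_lit 477912) (.g (nat_lit 1785) (.e (nat_lit 2276) (nat_lit 150) (.e (nat_lit 770071) (nat_lit 8) (.e (nat_lit 65583) (nat_lit 7) (.e (nat_lit 319530) (nat_lit 16) (.e (nat_lit 286755) (nat_lit 10) .nil))))) (.g (nat_lit 0) (.e (nat_lit 103204) (nat_lit 0) .nil) .nil)))) (.nd (nat_lit 9) 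
(.lf (nat_lit 477656) (.g (nat_lit 2195) (.e (nat_lit 1860) (nat_lit 124) (.e (nat_lit 557101) (nat_lit 13) (.e (nat_lit 172115) (nat_lit 10) (.e (nat_lit 434244) (nat_lit 28) (.e (nat_lit 573458) (nat_lit 9) (.e (nat_lit 426) (nat_lit 32) (.e (nat_lit 426258) (nat_lit 9) (.e (nat_lit 426353) (nat_lit 15) .nil)))))))) (.g (nat_lit 1) (.e (nat_lit 102522) (nat_lit 0) .nil) .nil))) 
(.lf (nat_lit 478168) (.g (nat_lit 1492) (.e (nat_lit 2056) (nat_lit 142) (.e (nat_lit 704589) (nat_lit 3) (.e (nat_lit 163975) (nat_lit 30) (.e (nat_lit 573491) (nat_lit 15) (.e (nat_lit 81954) (nat_lit 23) (.e (nat_lit 98355) (nat_lit 26) (.e (nat_lit 426379) (nat_lit 15) .nil))))))) (.g (nat_lit 1) (.e (nat_lit 103944) (nat_lit 0) .nil) .nil))))))) 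
(.nd (nat_lit 6) (.nd (nat_lit 7) (.nd (nat_lit 8) (.nd (nat_lit 9) 
(.lf (nat_lit 477240) (.g (nat_lit 2288) (.e (nat_lit 1856) (nat_lit 124) (.e (nat_lit 557101) (nat_lit 13) (.e (nat_lit 172097) (nat_lit 9) (.e (nat_lit 426140) (nat_lit 3) (.e (nat_lit 204821) (nat_lit 17) (.e (nat_lit 6671) (nat_lit 357) (.e (nat_lit 2939) (nat_lit 184) (.e (nat_lit 426419) (nat_lit 15) .nil)))))))) (.g (nat_lit 1) (.e (nat_lit 102052) (nat_lit 0) .nil) .nil))) 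
(.lf (nat_lit 477752) (.g (nat_lit 1554) (.e (nat_lit 1996) (nat_lit 137) (.e (nat_lit 663567) (nat_lit 4) (.e (nat_lit 65630) (nat_lit 14) (.e (nat_lit 401454) (nat_lit 12) .nil)))) (.g (nat_lit 0) (.e (nat_lit 102782) (nat_lit 0) .nil) .nil)))) (.nd (nat_lit 9) 
(.lf (nat_lit 477496) (.g (nat_lit 1670) (.e (nat_lit 1859) (nat_lit 124) (.e (nat_lit 557107) (nat_lit 15) (.e (nat_lit 188439) (nat_lit 20) (.e (nat_lit 3272) (nat_lit 199) (.e (nat_lit 548897) (nat_lit 14) (.e (nat_lit 3004) (nat_lit 186) (.e (nat_lit 450304) (nat_lit 0) .nil))))))) (.g (nat_lit 1) (.e (nat_lit 102362) (nat_lit 0) .nil) .nil))) 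
(.lf (nat_lit 478008) (.g (nat_lit 2401) (.e (nat_lit 2350) (nat_lit 151) (.e (nat_lit 778464) (nat_lit 11) (.e (nat_lit 24617) (nat_lit 7) (.e (nat_lit 319533) (nat_lit 16) (.e (nat_lit 286753) (nat_lit 10) (.e (nat_lit 344160) (nat_lit 37) (.e (nat_lit 647190) (nat_lit 9) (.e (nat_lit 1007) (nat_lit 81) .nil)))))))) (.g (nat_lit 1) (.e (nat_lit 103353) (nat_lit 0) .nil) .nil))))) 
(.nd (nat_lit 8) (.nd (nat_lit 9) 
(.lf (nat_lit 477368) (.g (nat_lit 3277) (.e (nat_lit 1858) (nat_lit 124) (.e (nat_lit 557105) (nat_lit 14) (.e (nat_lit 180251) (nat_lit 10) (.e (nat_lit 573484) (nat_lit 13) (.e (nat_lit 65642) (nat_lit 15) (.e (nat_lit 3253) (nat_lit 197) (.e (nat_lit 532504) (nat_lit 1) (.e (nat_lit 57852) (nat_lit 252) (.e (nat_lit 57357) (nat_lit 0) .nil))))))))) (.g (nat_lit 1) (.e (nat_lit 102206) (nat_lit 0) .nil) .nil))) 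
(.lf (nat_lit 477880) (.g (nat_lit 3517) (.e (nat_lit 2270) (nat_lit 149) (.e (nat_lit 761899) (nat_lit 15) (.e (nat_lit 163977) (nat_lit 30) (.e (nat_lit 573489) (nat_lit 14) (.e (nat_lit 73755) (nat_lit 8) (.e (nat_lit 557097) (nat_lit 13) (.e (nat_lit 172065) (nat_lit 3) (.e (nat_lit 204821) (nat_lit 17) .nil)))))))) (.g (nat_lit 1) (.e (nat_lit 103116) (nat_lit 0) .nil) .nil)))) 
(.nd (nat_lit 9) 
(.lf (nat_lit 477624) (.g (nat_lit 2714) (.e (nat_lit 1860) (nat_lit 124) (.e (nat_lit 557101) (nat_lit 13) (.e (nat_lit 172115) (nat_lit 10) (.e (nat_lit 434238) (nat_lit 25) (.e (nat_lit 548897) (nat_lit 14) (.e (nat_lit 2998) (nat_lit 186) (.e (nat_lit 450304) (nat_lit 0) .nil))))))) (.g (nat_lit 1) (.e (nat_lit 102490) (nat_lit 0) .nil) .nil))) 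
(.lf (nat_lit 478136) (.g (nat_lit 1554) (.e (nat_lit 2391) (nat_lit 156) (.e (nat_lit 819204) (nat_lit 0) (.e (nat_lit 3022) (nat_lit 187) (.e (nat_lit 450584) (nat_lit 9) (.e (nat_lit 573184) (nat_lit 6) .nil))))) (.g (nat_lit 0) (.e (nat_lit 103807) (nat_lit 0) .nil) .nil)))))) (.nd (nat_lit 7) (.nd (nat_lit 8) (.nd (nat_lit 9) 
(.lf (nat_lit 477304) (.g (nat_lit 2107) (.e (nat_lit 1858) (nat_lit 124) (.e (nat_lit 557101) (nat_lit 13) (.e (nat_lit 172097) (nat_lit 9) (.e (nat_lit 426140) (nat_lit 3) (.e (nat_lit 204821) (nat_lit 17) (.e (nat_lit 6671) (nat_lit 357) (.e (nat_lit 2939) (nat_lit 184) (.e (nat_lit 426401) (nat_lit 15) .nil)))))))) (.g (nat_lit 1) (.e (nat_lit 102138) (nat_lit 0) .nil) .nil))) 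
(.lf (nat_lit 477816) (.g (nat_lit 1858) (.e (nat_lit 2006) (nat_lit 138) (.e (nat_lit 671762) (nat_lit 4) (.e (nat_lit 65598) (nat_lit 9) (.e (nat_lit 335907) (nat_lit 0) (.e (nat_lit 1994) (nat_lit 137) .nil))))) (.g (nat_lit 0) (.e (nat_lit 102853) (nat_lit 0) .nil) .nil)))) (.nd (nat_lit 9) 
(.lf (nat_lit 477560) (.g (nat_lit 2315) (.e (nat_lit 1860) (nat_lit 124) (.e (nat_lit 557100) (nat_lit 13) (.e (nat_lit 172113) (nat_lit 10) (.e (nat_lit 434242) (nat_lit 28) (.e (nat_lit 573469) (nat_lit 11) (.e (nat_lit 16433) (nat_lit 9) (.e (nat_lit 426354) (nat_lit 15) .nil))))))) (.g (nat_lit 1) (.e (nat_lit 102426) (nat_lit 0) .nil) .nil))) 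
(.lf (nat_lit 478072) (.g (nat_lit 2442) (.e (nat_lit 2347) (nat_lit 151) (.e (nat_lit 778466) (nat_lit 11) (.e (nat_lit 24617) (nat_lit 7) (.e (nat_lit 319505) (nat_lit 10) (.e (nat_lit 720) (nat_lit 64) (.e (nat_lit 688178) (nat_lit 16) (.e (nat_lit 65604) (nat_lit 9) (.e (nat_lit 335887) (nat_lit 0) .nil)))))))) (.g (nat_lit 1) (.e (nat_lit 103442) (nat_lit 0) .nil) .nil))))) 
(.nd (nat_lit 8) (.nd (nat_lit 9) 
(.lf (nat_lit 477432) (.g (nat_lit 2356) (.e (nat_lit 1859) (nat_lit 124) (.e (nat_lit 557098) (nat_lit 13) (.e (nat_lit 172115) (nat_lit 10) (.e (nat_lit 434231) (nat_lit 23) (.e (nat_lit 532481) (nat_lit 0) (.e (nat_lit 6647) (nat_lit 357) (.e (nat_lit 2856) (nat_lit 184) (.e (nat_lit 426402) (nat_lit 15) .nil)))))))) (.g (nat_lit 1) (.e (nat_lit 102297) (nat_lit 0) .nil) .nil))) 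
(.lf (nat_lit 477944) (.g (nat_lit 2579) (.e (nat_lit 2283) (nat_lit 150) (.e (nat_lit 770072) (nat_lit 8) (.e (nat_lit 65571) (nat_lit 3) (.e (nat_lit 98359) (nat_lit 26) (.e (nat_lit 426286) (nat_lit 10) .nil))))) (.g (nat_lit 0) (.e (nat_lit 103263) (nat_lit 0) .nil) .nil)))) (.nd (nat_lit 9) 
(.lf (nat_lit 477688) (.g (nat_lit 962) (.e (nat_lit 1963) (nat_lit 134) (.e (nat_lit 639001) (nat_lit 10) (.e (nat_lit 188440) (nat_lit 20) (.e (nat_lit 3391) (nat_lit 210) (.e (nat_lit 639023) (nat_lit 18) (.e (nat_lit 81942) (nat_lit 20) .nil)))))) (.g (nat_lit 1) (.e (nat_lit 102694) (nat_lit 0) .nil) .nil))) 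
(.lf (nat_lit 478200) (.g (nat_lit 4423) (.e (nat_lit 2056) (nat_lit 142) (.e (nat_lit 704589) (nat_lit 3) (.e (nat_lit 163979) (nat_lit 30) (.e (nat_lit 573493) (nat_lit 15) (.e (nat_lit 81953) (nat_lit 22) (.e (nat_lit 90170) (nat_lit 13) (.e (nat_lit 172138) (nat_lit 15) .nil))))))) (.g (nat_lit 1) (.e (nat_lit 103977) (nat_lit 0) .nil) .nil)))))))))) 
(.nd (nat_lit 3) (.nd (nat_lit 4) (.nd (nat_lit 5) (.nd (nat_lit 6) (.nd (nat_lit 7) 
(.nd (nat_lit 8) (.nd (nat_lit 9) 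
(.lf (nat_lit 477188) (.g (nat_lit 2960) (.e (nat_lit 1855) (nat_lit 124) (.e (nat_lit 557109) (nat_lit 15) (.e (nat_lit 188449) (nat_lit 22) (.e (nat_lit 196666) (nat_lit 13) (.e (nat_lit 65572) (nat_lit 4) .nil))))) (.g (nat_lit 0) (.e (nat_lit 101944) (nat_lit 0) .nil) .nil))) 
(.lf (nat_lit 477700) (.g (nat_lit 1680) (.e (nat_lit 1994) (nat_lit 137) (.e (nat_lit 663567) (nat_lit 4) (.e (nat_lit 65616) (nat_lit 10) (.e (nat_lit 344169) (nat_lit 40) (.e (nat_lit 671764) (nat_lit 6) (.e (nat_lit 81934) (nat_lit 20) .nil)))))) (.g (nat_lit 1) (.e (nat_lit 102725) (nat_lit 0) .nil) .nil)))) (.nd (nat_lit 9) 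
(.lf (nat_lit 477444) (.g (nat_lit 2407) (.e (nat_lit 1859) (nat_lit 124) (.e (nat_lit 557098) (nat_lit 13) (.e (nat_lit 172115) (nat_lit 10) (.e (nat_lit 434238) (nat_lit 25) (.e (nat_lit 548896) (nat_lit 14) (.e (nat_lit 2982) (nat_lit 186) (.e (nat_lit 450304) (nat_lit 0) .nil))))))) (.g (nat_lit 1) (.e (nat_lit 102309) (nat_lit 0) .nil) .nil))) 
(.lf (nat_lit 477956) (.g (nat_lit 4353) (.e (nat_lit 2303) (nat_lit 151) (.e (nat_lit 778466) (nat_lit 11) (.e (nat_lit 24617) (nat_lit 7) (.e (nat_lit 319534) (nat_lit 16) (.e (nat_lit 286756) (nat_lit 10) (.e (nat_lit 344160) (nat_lit 37) (.e (nat_lit 647195) (nat_lit 9) (.e (nat_lit 1086) (nat_lit 81) .nil)))))))) (.g (nat_lit 1) (.e (nat_lit 103290) (nat_lit 0) .nil) .nil))))) 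
(.nd (nat_lit 8) (.nd (nat_lit 9) 
(.lf (nat_lit 477316) (.g (nat_lit 2385) (.e (nat_lit 1858) (nat_lit 124) (.e (nat_lit 557101) (nat_lit 13) (.e (nat_lit 172115) (nat_lit 10) (.e (nat_lit 434231) (nat_lit 23) (.e (nat_lit 532481) (nat_lit 0) (.e (nat_lit 6647) (nat_lit 357) (.e (nat_lit 2856) (nat_lit 184) (.e (nat_lit 426402) (nat_lit 15) .nil)))))))) (.g (nat_lit 1) (.e (nat_lit 102150) (nat_lit 0) .nil) .nil))) 
(.lf (nat_lit 477828) (.g (nat_lit 1290) (.e (nat_lit 2006) (nat_lit 138) (.e (nat_lit 671764) (nat_lit 6) (.e (nat_lit 81924) (nat_lit 0) (.e (nat_lit 3631) (nat_lit 227) (.e (nat_lit 778326) (nat_lit 6) (.e (nat_lit 81939) (nat_lit 20) .nil)))))) (.g (nat_lit 1) (.e (nat_lit 102866) (nat_lit 0) .nil) .nil)))) (.nd (nat_lit 9) 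
(.lf (nat_lit 477572) (.g (nat_lit 4198) (.e (nat_lit 1860) (nat_lit 124) (.e (nat_lit 557100) (nat_lit 13) (.e (nat_lit 172113) (nat_lit 10) (.e (nat_lit 434245) (nat_lit 28) (.e (nat_lit 573471) (nat_lit 11) (.e (nat_lit 16432) (nat_lit 9) (.e (nat_lit 426354) (nat_lit 15) .nil))))))) (.g (nat_lit 1) (.e (nat_lit 102438) (nat_lit 0) .nil) .nil))) 
(.lf (nat_lit 478084) (.g (nat_lit 2271) (.e (nat_lit 2345) (nat_lit 151) (.e (nat_lit 778464) (nat_lit 11) (.e (nat_lit 24617) (nat_lit 7) (.e (nat_lit 319533) (nat_lit 16) (.e (nat_lit 286753) (nat_lit 10) (.e (nat_lit 344160) (nat_lit 37) (.e (nat_lit 647195) (nat_lit 9) (.e (nat_lit 982) (nat_lit 81) .nil)))))))) (.g (nat_lit 1) (.e (nat_lit 103455) (nat_lit 0) .nil) .nil)))))) 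
(.nd (nat_lit 7) (.nd (nat_lit 8) (.nd (nat_lit 9) 
(.lf (nat_lit 477252) (.g (nat_lit 2382) (.e (nat_lit 1856) (nat_lit 124) (.e (nat_lit 557101) (nat_lit 13) (.e (nat_lit 172115) (nat_lit 10) (.e (nat_lit 434244) (nat_lit 28) (.e (nat_lit 573458) (nat_lit 9) (.e (nat_lit 7936) (nat_lit 37) (.e (nat_lit 466949) (nat_lit 0) .nil))))))) (.g (nat_lit 1) (.e (nat_lit 102064) (nat_lit 0) .nil) .nil))) 
(.lf (nat_lit 477764) (.g (nat_lit 1804) (.e (nat_lit 1996) (nat_lit 137) (.e (nat_lit 663569) (nat_lit 6) (.e (nat_lit 81946) (nat_lit 20) (.e (nat_lit 2006) (nat_lit 138) (.e (nat_lit 671764) (nat_lit 6) (.e (nat_lit 81935) (nat_lit 20) .nil)))))) (.g (nat_lit 1) (.e (nat_lit 102794) (nat_lit 0) .nil) .nil)))) (.nd (nat_lit 9) 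
(.lf (nat_lit 477508) (.g (nat_lit 1993) (.e (nat_lit 1859) (nat_lit 124) (.e (nat_lit 557107) (nat_lit 15) (.e (nat_lit 188441) (nat_lit 20) (.e (nat_lit 3272) (nat_lit 199) (.e (nat_lit 548897) (nat_lit 14) (.e (nat_lit 2988) (nat_lit 186) (.e (nat_lit 450304) (nat_lit 0) .nil))))))) (.g (nat_lit 1) (.e (nat_lit 102374) (nat_lit 0) .nil) .nil))) 
(.lf (nat_lit 478020) (.g (nat_lit 4344) (.e (nat_lit 2328) (nat_lit 151) (.e (nat_lit 778466) (nat_lit 11) (.e (nat_lit 24617) (nat_lit 7) (.e (nat_lit 319534) (nat_lit 16) (.e (nat_lit 286756) (nat_lit 10) (.e (nat_lit 344160) (nat_lit 37) (.e (nat_lit 647195) (nat_lit 9) (.e (nat_lit 1008) (nat_lit 81) .nil)))))))) (.g (nat_lit 1) (.e (nat_lit 103370) (nat_lit 0) .nil) .nil))))) 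
(.nd (nat_lit 8) (.nd (nat_lit 9) 
(.lf (nat_lit 477380) (.g (nat_lit 3780) (.e (nat_lit 1858) (nat_lit 124) (.e (nat_lit 557105) (nat_lit 14) (.e (nat_lit 180252) (nat_lit 10) (.e (nat_lit 573482) (nat_lit 13) (.e (nat_lit 65637) (nat_lit 15) (.e (nat_lit 3253) (nat_lit 197) (.e (nat_lit 532501) (nat_lit 1) (.e (nat_lit 57852) (nat_lit 252) (.e (nat_lit 57357) (nat_lit 0) .nil))))))))) (.g (nat_lit 1) (.e (nat_lit 102233) (nat_lit 0) .nil) .nil))) 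
(.lf (nat_lit 477892) (.g (nat_lit 2605) (.e (nat_lit 2270) (nat_lit 149) (.e (nat_lit 761904) (nat_lit 16) (.e (nat_lit 172091) (nat_lit 9) (.e (nat_lit 426160) (nat_lit 6) (.e (nat_lit 253990) (nat_lit 11) (.e (nat_lit 16473) (nat_lit 14) (.e (nat_lit 491525) (nat_lit 0) .nil))))))) (.g (nat_lit 1) (.e (nat_lit 103133) (nat_lit 0) .nil) .nil)))) (.nd (nat_lit 9) 
(.lf (nat_lit 477636) (.g (nat_lit 3387) (.e (nat_lit 1860) (nat_lit 124) (.e (nat_lit 557101) (nat_lit 13) (.e (nat_lit 172115) (nat_lit 10) (.e (nat_lit 434244) (nat_lit 28) (.e (nat_lit 573449) (nat_lit 9) (.e (nat_lit 460) (nat_lit 34) (.e (nat_lit 450304) (nat_lit 0) .nil))))))) (.g (nat_lit 1) (.e (nat_lit 102502) (nat_lit 0) .nil) .nil))) 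
(.lf (nat_lit 478148) (.g (nat_lit 1615) (.e (nat_lit 2030) (nat_lit 140) (.e (nat_lit 688185) (nat_lit 18) (.e (nat_lit 81950) (nat_lit 21) (.e (nat_lit 57830) (nat_lit 250) (.e (nat_lit 7936) (nat_lit 166) (.e (nat_lit 196352) (nat_lit 0) .nil)))))) (.g (nat_lit 1) (.e (nat_lit 103848) (nat_lit 0) .nil) .nil))))))) (.nd (nat_lit 6) (.nd (nat_lit 7) (.nd (nat_lit 8) (.nd (nat_lit 9) 
(.lf (nat_lit 477220) (.g (nat_lit 1678) (.e (nat_lit 1856) (nat_lit 124) (.e (nat_lit 557100) (nat_lit 13) (.e (nat_lit 172106) (nat_lit 10) (.e (nat_lit 434231) (nat_lit 23) (.e (nat_lit 532568) (nat_lit 16) .nil))))) (.g (nat_lit 0) (.e (nat_lit 102031) (nat_lit 0) .nil) .nil))) 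
(.lf (nat_lit 477732) (.g (nat_lit 2258) (.e (nat_lit 1994) (nat_lit 137) (.e (nat_lit 663569) (nat_lit 6) (.e (nat_lit 81947) (nat_lit 20) (.e (nat_lit 2006) (nat_lit 138) (.e (nat_lit 671764) (nat_lit 6) (.e (nat_lit 81935) (nat_lit 20) .nil)))))) (.g (nat_lit 1) (.e (nat_lit 102757) (nat_lit 0) .nil) .nil)))) (.nd (nat_lit 9) 
(.lf (nat_lit 477476) (.g (nat_lit 2852) (.e (nat_lit 1859) (nat_lit 124) (.e (nat_lit 557098) (nat_lit 13) (.e (nat_lit 172115) (nat_lit 10) (.e (nat_lit 434244) (nat_lit 28) (.e (nat_lit 573458) (nat_lit 9) (.e (nat_lit 426) (nat_lit 32) (.e (nat_lit 426186) (nat_lit 9) (.e (nat_lit 426402) (nat_lit 15) .nil)))))))) (.g (nat_lit 1) (.e (nat_lit 102341) (nat_lit 0) .nil) .nil))) 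
(.lf (nat_lit 477988) (.g (nat_lit 3043) (.e (nat_lit 2310) (nat_lit 151) (.e (nat_lit 778466) (nat_lit 11) (.e (nat_lit 24617) (nat_lit 7) (.e (nat_lit 319533) (nat_lit 16) (.e (nat_lit 286753) (nat_lit 10) .nil))))) (.g (nat_lit 0) (.e (nat_lit 103331) (nat_lit 0) .nil) .nil))))) (.nd (nat_lit 8) (.nd (nat_lit 9) 
(.lf (nat_lit 477348) (.g (nat_lit 2846) (.e (nat_lit 1858) (nat_lit 124) (.e (nat_lit 557101) (nat_lit 13) (.e (nat_lit 172115) (nat_lit 10) (.e (nat_lit 434244) (nat_lit 28) (.e (nat_lit 573449) (nat_lit 9) (.e (nat_lit 454) (nat_lit 34) (.e (nat_lit 450304) (nat_lit 0) .nil))))))) (.g (nat_lit 1) (.e (nat_lit 102182) (nat_lit 0) .nil) .nil))) 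
(.lf (nat_lit 477860) (.g (nat_lit 4184) (.e (nat_lit 2270) (nat_lit 149) (.e (nat_lit 761898) (nat_lit 15) (.e (nat_lit 163978) (nat_lit 30) (.e (nat_lit 573489) (nat_lit 14) (.e (nat_lit 73755) (nat_lit 8) (.e (nat_lit 557097) (nat_lit 13) (.e (nat_lit 172066) (nat_lit 3) (.e (nat_lit 204821) (nat_lit 17) .nil)))))))) (.g (nat_lit 1) (.e (nat_lit 103096) (nat_lit 0) .nil) .nil)))) 
(.nd (nat_lit 9) 
(.lf (nat_lit 477604) (.g (nat_lit 2495) (.e (nat_lit 1860) (nat_lit 124) (.e (nat_lit 557100) (nat_lit 13) (.e (nat_lit 172113) (nat_lit 10) (.e (nat_lit 434248) (nat_lit 28) (.e (nat_lit 573471) (nat_lit 11) (.e (nat_lit 16435) (nat_lit 9) (.e (nat_lit 426354) (nat_lit 15) .nil))))))) (.g (nat_lit 1) (.e (nat_lit 102470) (nat_lit 0) .nil) .nil))) 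
(.lf (nat_lit 478116) (.g (nat_lit 722) (.e (nat_lit 2389) (nat_lit 156) (.e (nat_lit 819203) (nat_lit 0) (.e (nat_lit 3015) (nat_lit 187) (.e (nat_lit 458496) (nat_lit 3) .nil)))) (.g (nat_lit 0) (.e (nat_lit 103690) (nat_lit 0) .nil) .nil)))))) (.nd (nat_lit 7) (.nd (nat_lit 8) (.nd (nat_lit 9) 
(.lf (nat_lit 477284) (.g (nat_lit 2581) (.e (nat_lit 1858) (nat_lit 124) (.e (nat_lit 557093) (nat_lit 12) (.e (nat_lit 164238) (nat_lit 187) (.e (nat_lit 1427) (nat_lit 108) (.e (nat_lit 336425) (nat_lit 28) .nil))))) (.g (nat_lit 0) (.e (nat_lit 102114) (nat_lit 0) .nil) .nil))) 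
(.lf (nat_lit 477796) (.g (nat_lit 2045) (.e (nat_lit 7936) (nat_lit 137) (.e (nat_lit 663565) (nat_lit 3) (.e (nat_lit 57479) (nat_lit 28) (.e (nat_lit 557101) (nat_lit 13) (.e (nat_lit 172115) (nat_lit 10) .nil))))) (.g (nat_lit 0) (.e (nat_lit 102828) (nat_lit 0) .nil) .nil)))) (.nd (nat_lit 9) 
(.lf (nat_lit 477540) (.g (nat_lit 3826) (.e (nat_lit 1859) (nat_lit 124) (.e (nat_lit 557109) (nat_lit 15) (.e (nat_lit 188449) (nat_lit 22) (.e (nat_lit 196661) (nat_lit 12) (.e (nat_lit 57751) (nat_lit 201) (.e (nat_lit 2856) (nat_lit 184) (.e (nat_lit 426402) (nat_lit 15) .nil))))))) (.g (nat_lit 1) (.e (nat_lit 102406) (nat_lit 0) .nil) .nil))) 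
(.lf (nat_lit 478052) (.g (nat_lit 3045) (.e (nat_lit 2343) (nat_lit 151) (.e (nat_lit 778466) (nat_lit 11) (.e (nat_lit 24617) (nat_lit 7) (.e (nat_lit 319533) (nat_lit 16) (.e (nat_lit 286753) (nat_lit 10) .nil))))) (.g (nat_lit 0) (.e (nat_lit 103404) (nat_lit 0) .nil) .nil))))) (.nd (nat_lit 8) (.nd (nat_lit 9) 
(.lf (nat_lit 477412) (.g (nat_lit 2072) (.e (nat_lit 1859) (nat_lit 124) (.e (nat_lit 557098) (nat_lit 13) (.e (nat_lit 172097) (nat_lit 9) (.e (nat_lit 426125) (nat_lit 2) (.e (nat_lit 196661) (nat_lit 12) (.e (nat_lit 57749) (nat_lit 201) (.e (nat_lit 2939) (nat_lit 184) (.e (nat_lit 433920) (nat_lit 15) .nil)))))))) (.g (nat_lit 1) (.e (nat_lit 102277) (nat_lit 0) .nil) .nil))) 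
(.lf (nat_lit 477924) (.g (nat_lit 911) (.e (nat_lit 2281) (nat_lit 150) (.e (nat_lit 770072) (nat_lit 8) (.e (nat_lit 65619) (nat_lit 10) (.e (nat_lit 344090) (nat_lit 18) .nil)))) (.g (nat_lit 0) (.e (nat_lit 103227) (nat_lit 0) .nil) .nil)))) (.nd (nat_lit 9) 
(.lf (nat_lit 477668) (.g (nat_lit 3503) (.e (nat_lit 1860) (nat_lit 124) (.e (nat_lit 557105) (nat_lit 14) (.e (nat_lit 180252) (nat_lit 10) (.e (nat_lit 573482) (nat_lit 13) (.e (nat_lit 65637) (nat_lit 15) (.e (nat_lit 3253) (nat_lit 197) (.e (nat_lit 532504) (nat_lit 1) (.e (nat_lit 57852) (nat_lit 252) (.e (nat_lit 57349) (nat_lit 0) .nil))))))))) (.g (nat_lit 1) (.e (nat_lit 102534) (nat_lit 0) .nil) .nil))) 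
(.lf (nat_lit 478180) (.g (nat_lit 4002) (.e (nat_lit 2056) (nat_lit 142) (.e (nat_lit 704589) (nat_lit 3) (.e (nat_lit 163975) (nat_lit 30) (.e (nat_lit 573492) (nat_lit 15) (.e (nat_lit 81956) (nat_lit 23) (.e (nat_lit 98359) (nat_lit 26) (.e (nat_lit 426412) (nat_lit 15) .nil))))))) (.g (nat_lit 1) (.e (nat_lit 103957) (nat_lit 0) .nil) .nil)))))))) 
(.nd (nat_lit 5) (.nd (nat_lit 6) (.nd (nat_lit 7) (.nd (nat_lit 8) (.nd (nat_lit 9) 
(.lf (nat_lit 477204) (.g (nat_lit 2037) (.e (nat_lit 1856) (nat_lit 124) (.e (nat_lit 557098) (nat_lit 13) (.e (nat_lit 172094) (nat_lit 9) (.e (nat_lit 426125) (nat_lit 2) .nil)))) (.g (nat_lit 0) (.e (nat_lit 102010) (nat_lit 0) .nil) .nil))) 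
(.lf (nat_lit 477716) (.g (nat_lit 2769) (.e (nat_lit 1994) (nat_lit 137) (.e (nat_lit 663567) (nat_lit 4) (.e (nat_lit 65630) (nat_lit 14) (.e (nat_lit 401438) (nat_lit 9) (.e (nat_lit 426542) (nat_lit 29) (.e (nat_lit 352283) (nat_lit 20) .nil)))))) (.g (nat_lit 1) (.e (nat_lit 102741) (nat_lit 0) .nil) .nil)))) (.nd (nat_lit 9) 
(.lf (nat_lit 477460) (.g (nat_lit 2169) (.e (nat_lit 1859) (nat_lit 124) (.e (nat_lit 557098) (nat_lit 13) (.e (nat_lit 172115) (nat_lit 10) (.e (nat_lit 434244) (nat_lit 28) (.e (nat_lit 573449) (nat_lit 9) (.e (nat_lit 396) (nat_lit 32) (.e (nat_lit 426190) (nat_lit 9) (.e (nat_lit 426402) (nat_lit 15) .nil)))))))) (.g (nat_lit 1) (.e (nat_lit 102325) (nat_lit 0) .nil) .nil))) 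
(.lf (nat_lit 477972) (.g (nat_lit 3360) (.e (nat_lit 2308) (nat_lit 151) (.e (nat_lit 778466) (nat_lit 11) (.e (nat_lit 24617) (nat_lit 7) (.e (nat_lit 319533) (nat_lit 16) (.e (nat_lit 286753) (nat_lit 10) .nil))))) (.g (nat_lit 0) (.e (nat_lit 103310) (nat_lit 0) .nil) .nil))))) (.nd (nat_lit 8) (.nd (nat_lit 9) 
(.lf (nat_lit 477332) (.g (nat_lit 2642) (.e (nat_lit 1858) (nat_lit 124) (.e (nat_lit 557101) (nat_lit 13) (.e (nat_lit 172115) (nat_lit 10) (.e (nat_lit 434238) (nat_lit 25) (.e (nat_lit 548897) (nat_lit 14) (.e (nat_lit 2988) (nat_lit 186) (.e (nat_lit 450304) (nat_lit 0) .nil))))))) (.g (nat_lit 1) (.e (nat_lit 102166) (nat_lit 0) .nil) .nil))) 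
(.lf (nat_lit 477844) (.g (nat_lit 4159) (.e (nat_lit 2270) (nat_lit 149) (.e (nat_lit 761898) (nat_lit 15) (.e (nat_lit 163977) (nat_lit 30) (.e (nat_lit 573489) (nat_lit 14) (.e (nat_lit 73755) (nat_lit 8) (.e (nat_lit 557097) (nat_lit 13) (.e (nat_lit 172067) (nat_lit 3) (.e (nat_lit 204821) (nat_lit 17) .nil)))))))) (.g (nat_lit 1) (.e (nat_lit 103080) (nat_lit 0) .nil) .nil)))) 
(.nd (nat_lit 9) 
(.lf (nat_lit 477588) (.g (nat_lit 5115) (.e (nat_lit 1860) (nat_lit 124) (.e (nat_lit 557100) (nat_lit 13) (.e (nat_lit 172113) (nat_lit 10) (.e (nat_lit 434247) (nat_lit 28) (.e (nat_lit 573469) (nat_lit 11) (.e (nat_lit 16438) (nat_lit 9) (.e (nat_lit 426354) (nat_lit 15) .nil))))))) (.g (nat_lit 1) (.e (nat_lit 102454) (nat_lit 0) .nil) .nil))) 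
(.lf (nat_lit 478100) (.g (nat_lit 3054) (.e (nat_lit 2367) (nat_lit 153) (.e (nat_lit 794684) (nat_lit 25) (.e (nat_lit 221215) (nat_lit 23) (.e (nat_lit 204883) (nat_lit 33) (.e (nat_lit 401459) (nat_lit 13) (.e (nat_lit 483344) (nat_lit 17) .nil)))))) (.g (nat_lit 1) (.e (nat_lit 103632) (nat_lit 0) .nil) .nil)))))) (.nd (nat_lit 7) (.nd (nat_lit 8) (.nd (nat_lit 9) 
(.lf (nat_lit 477268) (.g (nat_lit 1951) (.e (nat_lit 1857) (nat_lit 124) (.e (nat_lit 557070) (nat_lit 9) (.e (nat_lit 2744) (nat_lit 174) (.e (nat_lit 253992) (nat_lit 11) (.e (nat_lit 16411) (nat_lit 2) .nil))))) (.g (nat_lit 0) (.e (nat_lit 102083) (nat_lit 0) .nil) .nil))) 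
(.lf (nat_lit 477780) (.g (nat_lit 2211) (.e (nat_lit 1999) (nat_lit 137) (.e (nat_lit 663567) (nat_lit 4) (.e (nat_lit 65619) (nat_lit 10) (.e (nat_lit 344169) (nat_lit 40) (.e (nat_lit 671764) (nat_lit 6) (.e (nat_lit 81931) (nat_lit 20) .nil)))))) (.g (nat_lit 1) (.e (nat_lit 102812) (nat_lit 0) .nil) .nil)))) (.nd (nat_lit 9) 
(.lf (nat_lit 477524) (.g (nat_lit 1696) (.e (nat_lit 1859) (nat_lit 124) (.e (nat_lit 557108) (nat_lit 15) (.e (nat_lit 188452) (nat_lit 23) (.e (nat_lit 204884) (nat_lit 33) .nil)))) (.g (nat_lit 0) (.e (nat_lit 102390) (nat_lit 0) .nil) .nil))) 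
(.lf (nat_lit 478036) (.g (nat_lit 2584) (.e (nat_lit 2342) (nat_lit 151) (.e (nat_lit 778466) (nat_lit 11) (.e (nat_lit 24617) (nat_lit 7) (.e (nat_lit 319533) (nat_lit 16) (.e (nat_lit 286753) (nat_lit 10) (.e (nat_lit 344160) (nat_lit 37) (.e (nat_lit 647190) (nat_lit 9) (.e (nat_lit 985) (nat_lit 81) .nil)))))))) (.g (nat_lit 1) (.e (nat_lit 103386) (nat_lit 0) .nil) .nil))))) 
(.nd (nat_lit 8) (.nd (nat_lit 9) 
(.lf (nat_lit 477396) (.g (nat_lit 3234) (.e (nat_lit 1858) (nat_lit 124) (.e (nat_lit 557109) (nat_lit 15) (.e (nat_lit 188450) (nat_lit 23) (.e (nat_lit 204884) (nat_lit 33) .nil)))) (.g (nat_lit 0) (.e (nat_lit 102251) (nat_lit 0) .nil) .nil))) 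
(.lf (nat_lit 477908) (.g (nat_lit 1807) (.e (nat_lit 7936) (nat_lit 149) (.e (nat_lit 761897) (nat_lit 15) (.e (nat_lit 163979) (nat_lit 30) (.e (nat_lit 573489) (nat_lit 14) (.e (nat_lit 73754) (nat_lit 8) .nil))))) (.g (nat_lit 0) (.e (nat_lit 103196) (nat_lit 0) .nil) .nil)))) (.nd (nat_lit 9) 
(.lf (nat_lit 477652) (.g (nat_lit 3143) (.e (nat_lit 1860) (nat_lit 124) (.e (nat_lit 557101) (nat_lit 13) (.e (nat_lit 172115) (nat_lit 10) (.e (nat_lit 434244) (nat_lit 28) (.e (nat_lit 573458) (nat_lit 9) (.e (nat_lit 420) (nat_lit 32) (.e (nat_lit 426259) (nat_lit 9) (.e (nat_lit 426353) (nat_lit 15) .nil)))))))) (.g (nat_lit 1) (.e (nat_lit 102518) (nat_lit 0) .nil) .nil))) 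
(.lf (nat_lit 478164) (.g (nat_lit 4099) (.e (nat_lit 2056) (nat_lit 142) (.e (nat_lit 704589) (nat_lit 3) (.e (nat_lit 163975) (nat_lit 30) (.e (nat_lit 573481) (nat_lit 13) (.e (nat_lit 65604) (nat_lit 9) (.e (nat_lit 336028) (nat_lit 3) (.e (nat_lit 98359) (nat_lit 26) (.e (nat_lit 426412) (nat_lit 15) .nil)))))))) (.g (nat_lit 1) (.e (nat_lit 103940) (nat_lit 0) .nil) .nil))))))) 
(.nd (nat_lit 6) (.nd (nat_lit 7) (.nd (nat_lit 8) (.nd (nat_lit 9) 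
(.lf (nat_lit 477236) (.g (nat_lit 2400) (.e (nat_lit 1856) (nat_lit 124) (.e (nat_lit 557100) (nat_lit 13) (.e (nat_lit 172113) (nat_lit 10) (.e (nat_lit 434248) (nat_lit 28) (.e (nat_lit 581376) (nat_lit 9) (.e (nat_lit 461) (nat_lit 34) (.e (nat_lit 442379) (nat_lit 0) .nil))))))) (.g (nat_lit 1) (.e (nat_lit 102048) (nat_lit 0) .nil) .nil))) 
(.lf (nat_lit 477748) (.g (nat_lit 383) (.e (nat_lit 1996) (nat_lit 137) (.e (nat_lit 663567) (nat_lit 4) (.e (nat_lit 65628) (nat_lit 14) .nil))) (.g (nat_lit 0) (.e (nat_lit 102778) (nat_lit 0) .nil) .nil)))) (.nd (nat_lit 9) 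
(.lf (nat_lit 477492) (.g (nat_lit 1698) (.e (nat_lit 1859) (nat_lit 124) (.e (nat_lit 557107) (nat_lit 15) (.e (nat_lit 188439) (nat_lit 20) (.e (nat_lit 3271) (nat_lit 199) (.e (nat_lit 548898) (nat_lit 14) (.e (nat_lit 3004) (nat_lit 186) (.e (nat_lit 450304) (nat_lit 0) .nil))))))) (.g (nat_lit 1) (.e (nat_lit 102358) (nat_lit 0) .nil) .nil))) 
(.lf (nat_lit 478004) (.g (nat_lit 3551) (.e (nat_lit 2314) (nat_lit 151) (.e (nat_lit 778466) (nat_lit 11) (.e (nat_lit 24617) (nat_lit 7) (.e (nat_lit 319534) (nat_lit 16) (.e (nat_lit 286756) (nat_lit 10) (.e (nat_lit 344160) (nat_lit 37) (.e (nat_lit 647196) (nat_lit 9) (.e (nat_lit 990) (nat_lit 81) .nil)))))))) (.g (nat_lit 1) (.e (nat_lit 103347) (nat_lit 0) .nil) .nil))))) 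
(.nd (nat_lit 8) (.nd (nat_lit 9) 
(.lf (nat_lit 477364) (.g (nat_lit 2571) (.e (nat_lit 1858) (nat_lit 124) (.e (nat_lit 557101) (nat_lit 13) (.e (nat_lit 172115) (nat_lit 10) (.e (nat_lit 434244) (nat_lit 28) (.e (nat_lit 573458) (nat_lit 9) (.e (nat_lit 7936) (nat_lit 34) (.e (nat_lit 450304) (nat_lit 0) .nil))))))) (.g (nat_lit 1) (.e (nat_lit 102198) (nat_lit 0) .nil) .nil))) 
(.lf (nat_lit 477876) (.g (nat_lit 4154) (.e (nat_lit 2270) (nat_lit 149) (.e (nat_lit 761898) (nat_lit 15) (.e (nat_lit 163979) (nat_lit 30) (.e (nat_lit 573489) (nat_lit 14) (.e (nat_lit 73755) (nat_lit 8) (.e (nat_lit 557097) (nat_lit 13) (.e (nat_lit 172067) (nat_lit 3) (.e (nat_lit 204821) (nat_lit 17) .nil)))))))) (.g (nat_lit 1) (.e (nat_lit 103112) (nat_lit 0) .nil) .nil)))) 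
(.nd (nat_lit 9) 
(.lf (nat_lit 477620) (.g (nat_lit 2618) (.e (nat_lit 1860) (nat_lit 124) (.e (nat_lit 557101) (nat_lit 13) (.e (nat_lit 172115) (nat_lit 10) (.e (nat_lit 434238) (nat_lit 25) (.e (nat_lit 548896) (nat_lit 14) (.e (nat_lit 2998) (nat_lit 186) (.e (nat_lit 450304) (nat_lit 0) .nil))))))) (.g (nat_lit 1) (.e (nat_lit 102486) (nat_lit 0) .nil) .nil))) 
(.lf (nat_lit 478132) (.g (nat_lit 4520) (.e (nat_lit 2391) (nat_lit 156) (.e (nat_lit 819204) (nat_lit 0) (.e (nat_lit 2685) (nat_lit 168) (.e (nat_lit 204862) (nat_lit 27) (.e (nat_lit 344129) (nat_lit 26) (.e (nat_lit 557097) (nat_lit 13) (.e (nat_lit 172066) (nat_lit 3) (.e (nat_lit 204821) (nat_lit 17) .nil)))))))) (.g (nat_lit 1) (.e (nat_lit 103776) (nat_lit 0) .nil) .nil)))))) 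
(.nd (nat_lit 7) (.nd (nat_lit 8) (.nd (nat_lit 9) 
(.lf (nat_lit 477300) (.g (nat_lit 3638) (.e (nat_lit 1858) (nat_lit 124) (.e (nat_lit 557101) (nat_lit 13) (.e (nat_lit 172097) (nat_lit 9) (.e (nat_lit 426125) (nat_lit 2) (.e (nat_lit 196661) (nat_lit 12) (.e (nat_lit 57751) (nat_lit 201) (.e (nat_lit 2854) (nat_lit 184) (.e (nat_lit 426402) (nat_lit 15) .nil)))))))) (.g (nat_lit 1) (.e (nat_lit 102134) (nat_lit 0) .nil) .nil))) 
(.lf (nat_lit 477812) (.g (nat_lit 1592) (.e (nat_lit 2006) (nat_lit 138) (.e (nat_lit 671760) (nat_lit 4) (.e (nat_lit 65624) (nat_lit 12) (.e (nat_lit 385106) (nat_lit 50) (.e (nat_lit 786480) (nat_lit 29) .nil))))) (.g (nat_lit 0) (.e (nat_lit 102849) (nat_lit 0) .nil) .nil)))) (.nd (nat_lit 9) 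
(.lf (nat_lit 477556) (.g (nat_lit 1857) (.e (nat_lit 1860) (nat_lit 124) (.e (nat_lit 557098) (nat_lit 13) (.e (nat_lit 172115) (nat_lit 10) (.e (nat_lit 434244) (nat_lit 28) .nil)))) (.g (nat_lit 0) (.e (nat_lit 102422) (nat_lit 0) .nil) .nil))) 
(.lf (nat_lit 478068) (.g (nat_lit 2325) (.e (nat_lit 2347) (nat_lit 151) (.e (nat_lit 778466) (nat_lit 11) (.e (nat_lit 24617) (nat_lit 7) (.e (nat_lit 319505) (nat_lit 10) (.e (nat_lit 720) (nat_lit 64) .nil))))) (.g (nat_lit 0) (.e (nat_lit 103438) (nat_lit 0) .nil) .nil))))) (.nd (nat_lit 8) (.nd (nat_lit 9) 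
(.lf (nat_lit 477428) (.g (nat_lit 3954) (.e (nat_lit 1859) (nat_lit 124) (.e (nat_lit 557098) (nat_lit 13) (.e (nat_lit 172097) (nat_lit 9) (.e (nat_lit 426140) (nat_lit 3) (.e (nat_lit 204821) (nat_lit 17) (.e (nat_lit 6680) (nat_lit 357) (.e (nat_lit 2856) (nat_lit 184) (.e (nat_lit 426402) (nat_lit 15) .nil)))))))) (.g (nat_lit 1) (.e (nat_lit 102293) (nat_lit 0) .nil) .nil))) 
(.lf (nat_lit 477940) (.g (nat_lit 924) (.e (nat_lit 2283) (nat_lit 150) (.e (nat_lit 770071) (nat_lit 8) (.e (nat_lit 65610) (nat_lit 10) (.e (nat_lit 344177) (nat_lit 43) .nil)))) (.g (nat_lit 0) (.e (nat_lit 103253) (nat_lit 0) .nil) .nil)))) (.nd (nat_lit 9) 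
(.lf (nat_lit 477684) (.g (nat_lit 1696) (.e (nat_lit 1962) (nat_lit 134) (.e (nat_lit 638998) (nat_lit 8) (.e (nat_lit 172123) (nat_lit 13) (.e (nat_lit 483396) (nat_lit 24) (.e (nat_lit 344161) (nat_lit 37) .nil))))) (.g (nat_lit 0) (.e (nat_lit 102654) (nat_lit 0) .nil) .nil))) 
(.lf (nat_lit 478196) (.g (nat_lit 2387) (.e (nat_lit 2056) (nat_lit 142) (.e (nat_lit 704589) (nat_lit 3) (.e (nat_lit 163979) (nat_lit 30) (.e (nat_lit 573491) (nat_lit 15) (.e (nat_lit 81954) (nat_lit 23) (.e (nat_lit 98355) (nat_lit 26) (.e (nat_lit 426376) (nat_lit 15) .nil))))))) (.g (nat_lit 1) (.e (nat_lit 103973) (nat_lit 0) .nil) .nil))))))))) 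
(.nd (nat_lit 4) (.nd (nat_lit 5) (.nd (nat_lit 6) (.nd (nat_lit 7) (.nd (nat_lit 8) 
(.nd (nat_lit 9) 
(.lf (nat_lit 477196) (.g (nat_lit 4465) (.e (nat_lit 1855) (nat_lit 124) (.e (nat_lit 557109) (nat_lit 15) (.e (nat_lit 188452) (nat_lit 23) (.e (nat_lit 204880) (nat_lit 32) (.e (nat_lit 385105) (nat_lit 50) .nil))))) (.g (nat_lit 0) (.e (nat_lit 101952) (nat_lit 0) .nil) .nil))) 
(.lf (nat_lit 477708) (.g (nat_lit 2237) (.e (nat_lit 1994) (nat_lit 137) (.e (nat_lit 663567) (nat_lit 4) (.e (nat_lit 65620) (nat_lit 10) (.e (nat_lit 344169) (nat_lit 40) (.e (nat_lit 671764) (nat_lit 6) (.e (nat_lit 81935) (nat_lit 20) .nil)))))) (.g (nat_lit 1) (.e (nat_lit 102733) (nat_lit 0) .nil) .nil)))) (.nd (nat_lit 9) 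
(.lf (nat_lit 477452) (.g (nat_lit 2594) (.e (nat_lit 1859) (nat_lit 124) (.e (nat_lit 557098) (nat_lit 13) (.e (nat_lit 172115) (nat_lit 10) (.e (nat_lit 434238) (nat_lit 25) (.e (nat_lit 548897) (nat_lit 14) (.e (nat_lit 3005) (nat_lit 186) (.e (nat_lit 450304) (nat_lit 0) .nil))))))) (.g (nat_lit 1) (.e (nat_lit 102317) (nat_lit 0) .nil) .nil))) 
(.lf (nat_lit 477964) (.g (nat_lit 3563) (.e (nat_lit 2307) (nat_lit 151) (.e (nat_lit 778466) (nat_lit 11) (.e (nat_lit 24617) (nat_lit 7) (.e (nat_lit 319533) (nat_lit 16) (.e (nat_lit 286753) (nat_lit 10) .nil))))) (.g (nat_lit 0) (.e (nat_lit 103302) (nat_lit 0) .nil) .nil))))) (.nd (nat_lit 8) (.nd (nat_lit 9) 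
(.lf (nat_lit 477324) (.g (nat_lit 3504) (.e (nat_lit 1858) (nat_lit 124) (.e (nat_lit 557101) (nat_lit 13) (.e (nat_lit 172115) (nat_lit 10) (.e (nat_lit 434231) (nat_lit 23) (.e (nat_lit 532490) (nat_lit 0) (.e (nat_lit 6676) (nat_lit 357) (.e (nat_lit 2856) (nat_lit 184) (.e (nat_lit 426402) (nat_lit 15) .nil)))))))) (.g (nat_lit 1) (.e (nat_lit 102158) (nat_lit 0) .nil) .nil))) 
(.lf (nat_lit 477836) (.g (nat_lit 2860) (.e (nat_lit 2270) (nat_lit 149) (.e (nat_lit 761897) (nat_lit 15) (.e (nat_lit 163977) (nat_lit 30) (.e (nat_lit 573489) (nat_lit 14) (.e (nat_lit 73755) (nat_lit 8) (.e (nat_lit 557097) (nat_lit 13) (.e (nat_lit 172067) (nat_lit 3) (.e (nat_lit 204821) (nat_lit 17) .nil)))))))) (.g (nat_lit 1) (.e (nat_lit 103072) (nat_lit 0) .nil) .nil)))) 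
(.nd (nat_lit 9) 
(.lf (nat_lit 477580) (.g (nat_lit 2699) (.e (nat_lit 1860) (nat_lit 124) (.e (nat_lit 557100) (nat_lit 13) (.e (nat_lit 172113) (nat_lit 10) (.e (nat_lit 434245) (nat_lit 28) (.e (nat_lit 573471) (nat_lit 11) (.e (nat_lit 16434) (nat_lit 9) (.e (nat_lit 433920) (nat_lit 15) .nil))))))) (.g (nat_lit 1) (.e (nat_lit 102446) (nat_lit 0) .nil) .nil))) 
(.lf (nat_lit 478092) (.g (nat_lit 919) (.e (nat_lit 7936) (nat_lit 151) (.e (nat_lit 778326) (nat_lit 6) (.e (nat_lit 81954) (nat_lit 23) (.e (nat_lit 98334) (nat_lit 18) .nil)))) (.g (nat_lit 0) (.e (nat_lit 103465) (nat_lit 0) .nil) .nil)))))) (.nd (nat_lit 7) (.nd (nat_lit 8) (.nd (nat_lit 9) 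
(.lf (nat_lit 477260) (.g (nat_lit 2331) (.e (nat_lit 1856) (nat_lit 124) (.e (nat_lit 557107) (nat_lit 15) (.e (nat_lit 188452) (nat_lit 23) (.e (nat_lit 204816) (nat_lit 17) .nil)))) (.g (nat_lit 0) (.e (nat_lit 102075) (nat_lit 0) .nil) .nil))) 
(.lf (nat_lit 477772) (.g (nat_lit 1958) (.e (nat_lit 1999) (nat_lit 137) (.e (nat_lit 663567) (nat_lit 4) (.e (nat_lit 65611) (nat_lit 10) (.e (nat_lit 344169) (nat_lit 40) (.e (nat_lit 671764) (nat_lit 6) (.e (nat_lit 81931) (nat_lit 20) .nil)))))) (.g (nat_lit 1) (.e (nat_lit 102804) (nat_lit 0) .nil) .nil)))) (.nd (nat_lit 9) 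
(.lf (nat_lit 477516) (.g (nat_lit 2174) (.e (nat_lit 1859) (nat_lit 124) (.e (nat_lit 557107) (nat_lit 15) (.e (nat_lit 188447) (nat_lit 22) (.e (nat_lit 196661) (nat_lit 12) (.e (nat_lit 57748) (nat_lit 201) (.e (nat_lit 2940) (nat_lit 184) (.e (nat_lit 433920) (nat_lit 15) .nil))))))) (.g (nat_lit 1) (.e (nat_lit 102382) (nat_lit 0) .nil) .nil))) 
(.lf (nat_lit 478028) (.g (nat_lit 1838) (.e (nat_lit 2334) (nat_lit 151) (.e (nat_lit 778325) (nat_lit 6) (.e (nat_lit 81956) (nat_lit 23) (.e (nat_lit 98321) (nat_lit 17) (.e (nat_lit 7936) (nat_lit 216) (.e (nat_lit 688178) (nat_lit 16) (.e (nat_lit 65559) (nat_lit 0) .nil))))))) (.g (nat_lit 1) (.e (nat_lit 103378) (nat_lit 0) .nil) .nil))))) (.nd (nat_lit 8) (.nd (nat_lit 9) 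
(.lf (nat_lit 477388) (.g (nat_lit 1660) (.e (nat_lit 1858) (nat_lit 124) (.e (nat_lit 557105) (nat_lit 14) (.e (nat_lit 180266) (nat_lit 22) (.e (nat_lit 671762) (nat_lit 4) (.e (nat_lit 65580) (nat_lit 6) .nil))))) (.g (nat_lit 0) (.e (nat_lit 102243) (nat_lit 0) .nil) .nil))) 
(.lf (nat_lit 477900) (.g (nat_lit 3171) (.e (nat_lit 2271) (nat_lit 149) (.e (nat_lit 761898) (nat_lit 15) (.e (nat_lit 163978) (nat_lit 30) (.e (nat_lit 573487) (nat_lit 14) (.e (nat_lit 73753) (nat_lit 8) (.e (nat_lit 557096) (nat_lit 13) (.e (nat_lit 172067) (nat_lit 3) (.e (nat_lit 204815) (nat_lit 17) .nil)))))))) (.g (nat_lit 1) (.e (nat_lit 103170) (nat_lit 0) .nil) .nil)))) 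
(.nd (nat_lit 9) 
(.lf (nat_lit 477644) (.g (nat_lit 2978) (.e (nat_lit 1860) (nat_lit 124) (.e (nat_lit 557101) (nat_lit 13) (.e (nat_lit 172115) (nat_lit 10) (.e (nat_lit 434244) (nat_lit 28) (.e (nat_lit 573450) (nat_lit 9) (.e (nat_lit 459) (nat_lit 34) (.e (nat_lit 450304) (nat_lit 0) .nil))))))) (.g (nat_lit 1) (.e (nat_lit 102510) (nat_lit 0) .nil) .nil))) 
(.lf (nat_lit 478156) (.g (nat_lit 2958) (.e (nat_lit 2031) (nat_lit 140) (.e (nat_lit 688177) (nat_lit 16) (.e (nat_lit 65624) (nat_lit 12) (.e (nat_lit 385088) (nat_lit 47) (.e (nat_lit 761912) (nat_lit 18) (.e (nat_lit 196352) (nat_lit 0) .nil)))))) (.g (nat_lit 1) (.e (nat_lit 103859) (nat_lit 0) .nil) .nil))))))) (.nd (nat_lit 6) (.nd (nat_lit 7) (.nd (nat_lit 8) (.nd (nat_lit 9) 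
(.lf (nat_lit 477228) (.g (nat_lit 1645) (.e (nat_lit 1856) (nat_lit 124) (.e (nat_lit 557100) (nat_lit 13) (.e (nat_lit 172113) (nat_lit 10) (.e (nat_lit 434208) (nat_lit 18) (.e (nat_lit 3948) (nat_lit 239) .nil))))) (.g (nat_lit 0) (.e (nat_lit 102039) (nat_lit 0) .nil) .nil))) 
(.lf (nat_lit 477740) (.g (nat_lit 2107) (.e (nat_lit 1996) (nat_lit 137) (.e (nat_lit 663567) (nat_lit 4) (.e (nat_lit 65611) (nat_lit 10) (.e (nat_lit 344169) (nat_lit 40) (.e (nat_lit 671764) (nat_lit 6) (.e (nat_lit 81935) (nat_lit 20) .nil)))))) (.g (nat_lit 1) (.e (nat_lit 102770) (nat_lit 0) .nil) .nil)))) (.nd (nat_lit 9) 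
(.lf (nat_lit 477484) (.g (nat_lit 2553) (.e (nat_lit 1859) (nat_lit 124) (.e (nat_lit 557105) (nat_lit 14) (.e (nat_lit 180252) (nat_lit 10) (.e (nat_lit 573480) (nat_lit 13) (.e (nat_lit 65637) (nat_lit 15) (.e (nat_lit 3253) (nat_lit 197) (.e (nat_lit 532504) (nat_lit 1) (.e (nat_lit 57852) (nat_lit 252) (.e (nat_lit 57357) (nat_lit 0) .nil))))))))) (.g (nat_lit 1) (.e (nat_lit 102350) (nat_lit 0) .nil) .nil))) 
(.lf (nat_lit 477996) (.g (nat_lit 4550) (.e (nat_lit 2312) (nat_lit 151) (.e (nat_lit 778466) (nat_lit 11) (.e (nat_lit 24617) (nat_lit 7) (.e (nat_lit 319534) (nat_lit 16) (.e (nat_lit 286756) (nat_lit 10) (.e (nat_lit 344160) (nat_lit 37) (.e (nat_lit 647190) (nat_lit 9) (.e (nat_lit 984) (nat_lit 81) .nil)))))))) (.g (nat_lit 1) (.e (nat_lit 103339) (nat_lit 0) .nil) .nil))))) 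
(.nd (nat_lit 8) (.nd (nat_lit 9) 
(.lf (nat_lit 477356) (.g (nat_lit 3222) (.e (nat_lit 1858) (nat_lit 124) (.e (nat_lit 557101) (nat_lit 13) (.e (nat_lit 172115) (nat_lit 10) (.e (nat_lit 434244) (nat_lit 28) (.e (nat_lit 573450) (nat_lit 9) (.e (nat_lit 457) (nat_lit 34) (.e (nat_lit 450304) (nat_lit 0) .nil))))))) (.g (nat_lit 1) (.e (nat_lit 102190) (nat_lit 0) .nil) .nil))) 
(.lf (nat_lit 477868) (.g (nat_lit 3470) (.e (nat_lit 2270) (nat_lit 149) (.e (nat_lit 761898) (nat_lit 15) (.e (nat_lit 163979) (nat_lit 30) (.e (nat_lit 573487) (nat_lit 14) (.e (nat_lit 73753) (nat_lit 8) (.e (nat_lit 557098) (nat_lit 13) (.e (nat_lit 172067) (nat_lit 3) (.e (nat_lit 204821) (nat_lit 17) .nil)))))))) (.g (nat_lit 1) (.e (nat_lit 103104) (nat_lit 0) .nil) .nil)))) 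
(.nd (nat_lit 9) 
(.lf (nat_lit 477612) (.g (nat_lit 2175) (.e (nat_lit 1860) (nat_lit 124) (.e (nat_lit 557101) (nat_lit 13) (.e (nat_lit 172097) (nat_lit 9) (.e (nat_lit 426125) (nat_lit 2) (.e (nat_lit 196661) (nat_lit 12) (.e (nat_lit 57749) (nat_lit 201) (.e (nat_lit 2941) (nat_lit 184) (.e (nat_lit 426353) (nat_lit 15) .nil)))))))) (.g (nat_lit 1) (.e (nat_lit 102478) (nat_lit 0) .nil) .nil))) 
(.lf (nat_lit 478124) (.g (nat_lit 313) (.e (nat_lit 2390) (nat_lit 156) (.e (nat_lit 819221) (nat_lit 6) (.e (nat_lit 188427) (nat_lit 20) (.e (nat_lit 3277) (nat_lit 200) .nil)))) (.g (nat_lit 0) (.e (nat_lit 103750) (nat_lit 0) .nil) .nil)))))) (.nd (nat_lit 7) (.nd (nat_lit 8) (.nd (nat_lit 9) 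
(.lf (nat_lit 477292) (.g (nat_lit 2195) (.e (nat_lit 1858) (nat_lit 124) (.e (nat_lit 557101) (nat_lit 13) (.e (nat_lit 172097) (nat_lit 9) (.e (nat_lit 426125) (nat_lit 2) (.e (nat_lit 196661) (nat_lit 12) (.e (nat_lit 57748) (nat_lit 201) (.e (nat_lit 2941) (nat_lit 184) (.e (nat_lit 433920) (nat_lit 15) .nil)))))))) (.g (nat_lit 1) (.e (nat_lit 102126) (nat_lit 0) .nil) .nil))) 
(.lf (nat_lit 477804) (.g (nat_lit 1786) (.e (nat_lit 2003) (nat_lit 138) (.e (nat_lit 671763) (nat_lit 5) (.e (nat_lit 73782) (nat_lit 32) (.e (nat_lit 2855) (nat_lit 184) (.e (nat_lit 426542) (nat_lit 29) (.e (nat_lit 352290) (nat_lit 20) .nil)))))) (.g (nat_lit 1) (.e (nat_lit 102837) (nat_lit 0) .nil) .nil)))) (.nd (nat_lit 9) 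
(.lf (nat_lit 477548) (.g (nat_lit 3569) (.e (nat_lit 1859) (nat_lit 124) (.e (nat_lit 557109) (nat_lit 15) (.e (nat_lit 188452) (nat_lit 23) (.e (nat_lit 204863) (nat_lit 27) (.e (nat_lit 344168) (nat_lit 40) .nil))))) (.g (nat_lit 0) (.e (nat_lit 102414) (nat_lit 0) .nil) .nil))) 
(.lf (nat_lit 478060) (.g (nat_lit 2517) (.e (nat_lit 2346) (nat_lit 151) (.e (nat_lit 778466) (nat_lit 11) (.e (nat_lit 24617) (nat_lit 7) (.e (nat_lit 319533) (nat_lit 16) (.e (nat_lit 286753) (nat_lit 10) (.e (nat_lit 344160) (nat_lit 37) (.e (nat_lit 647190) (nat_lit 9) (.e (nat_lit 1025) (nat_lit 81) .nil)))))))) (.g (nat_lit 1) (.e (nat_lit 103418) (nat_lit 0) .nil) .nil))))) 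
(.nd (nat_lit 8) (.nd (nat_lit 9) 
(.lf (nat_lit 477420) (.g (nat_lit 3883) (.e (nat_lit 1859) (nat_lit 124) (.e (nat_lit 557098) (nat_lit 13) (.e (nat_lit 172097) (nat_lit 9) (.e (nat_lit 426125) (nat_lit 2) (.e (nat_lit 196661) (nat_lit 12) (.e (nat_lit 57751) (nat_lit 201) (.e (nat_lit 2857) (nat_lit 184) (.e (nat_lit 426402) (nat_lit 15) .nil)))))))) (.g (nat_lit 1) (.e (nat_lit 102285) (nat_lit 0) .nil) .nil))) 
(.lf (nat_lit 477932) (.g (nat_lit 2174) (.e (nat_lit 2283) (nat_lit 150) (.e (nat_lit 770071) (nat_lit 8) (.e (nat_lit 65583) (nat_lit 7) (.e (nat_lit 319533) (nat_lit 16) (.e (nat_lit 286753) (nat_lit 10) .nil))))) (.g (nat_lit 0) (.e (nat_lit 103240) (nat_lit 0) .nil) .nil)))) (.nd (nat_lit 9) 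
(.lf (nat_lit 477676) (.g (nat_lit 3139) (.e (nat_lit 1860) (nat_lit 124) (.e (nat_lit 557109) (nat_lit 15) (.e (nat_lit 188452) (nat_lit 23) (.e (nat_lit 204885) (nat_lit 33) .nil)))) (.g (nat_lit 0) (.e (nat_lit 102542) (nat_lit 0) .nil) .nil))) 
(.lf (nat_lit 478188) (.g (nat_lit 3687) (.e (nat_lit 2056) (nat_lit 142) (.e (nat_lit 704589) (nat_lit 3) (.e (nat_lit 163976) (nat_lit 30) (.e (nat_lit 573492) (nat_lit 15) (.e (nat_lit 81956) (nat_lit 23) (.e (nat_lit 98356) (nat_lit 26) (.e (nat_lit 426416) (nat_lit 15) .nil))))))) (.g (nat_lit 1) (.e (nat_lit 103965) (nat_lit 0) .nil) .nil)))))))) 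
(.nd (nat_lit 5) (.nd (nat_lit 6) (.nd (nat_lit 7) (.nd (nat_lit 8) (.nd (nat_lit 9) 
(.lf (nat_lit 477212) (.g (nat_lit 1360) (.e (nat_lit 1856) (nat_lit 124) (.e (nat_lit 557098) (nat_lit 13) (.e (nat_lit 172115) (nat_lit 10) (.e (nat_lit 434238) (nat_lit 25) .nil)))) (.g (nat_lit 0) (.e (nat_lit 102018) (nat_lit 0) .nil) .nil))) 
(.lf (nat_lit 477724) (.g (nat_lit 1099) (.e (nat_lit 1994) (nat_lit 137) (.e (nat_lit 663569) (nat_lit 6) (.e (nat_lit 81939) (nat_lit 20) (.e (nat_lit 2006) (nat_lit 138) (.e (nat_lit 671764) (nat_lit 6) (.e (nat_lit 81934) (nat_lit 20) .nil)))))) (.g (nat_lit 1) (.e (nat_lit 102749) (nat_lit 0) .nil) .nil)))) (.nd (nat_lit 9) 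
(.lf (nat_lit 477468) (.g (nat_lit 2020) (.e (nat_lit 1859) (nat_lit 124) (.e (nat_lit 557098) (nat_lit 13) (.e (nat_lit 172115) (nat_lit 10) (.e (nat_lit 434244) (nat_lit 28) (.e (nat_lit 573450) (nat_lit 9) (.e (nat_lit 389) (nat_lit 32) (.e (nat_lit 426196) (nat_lit 9) (.e (nat_lit 426402) (nat_lit 15) .nil)))))))) (.g (nat_lit 1) (.e (nat_lit 102333) (nat_lit 0) .nil) .nil))) 
(.lf (nat_lit 477980) (.g (nat_lit 2558) (.e (nat_lit 2309) (nat_lit 151) (.e (nat_lit 778465) (nat_lit 11) (.e (nat_lit 24640) (nat_lit 10) (.e (nat_lit 344177) (nat_lit 43) .nil)))) (.g (nat_lit 0) (.e (nat_lit 103319) (nat_lit 0) .nil) .nil))))) (.nd (nat_lit 8) (.nd (nat_lit 9) 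
(.lf (nat_lit 477340) (.g (nat_lit 3100) (.e (nat_lit 1858) (nat_lit 124) (.e (nat_lit 557101) (nat_lit 13) (.e (nat_lit 172115) (nat_lit 10) (.e (nat_lit 434238) (nat_lit 25) (.e (nat_lit 548898) (nat_lit 14) (.e (nat_lit 2998) (nat_lit 186) (.e (nat_lit 450304) (nat_lit 0) .nil))))))) (.g (nat_lit 1) (.e (nat_lit 102174) (nat_lit 0) .nil) .nil))) 
(.lf (nat_lit 477852) (.g (nat_lit 3273) (.e (nat_lit 2270) (nat_lit 149) (.e (nat_lit 761898) (nat_lit 15) (.e (nat_lit 163978) (nat_lit 30) (.e (nat_lit 573487) (nat_lit 14) (.e (nat_lit 73753) (nat_lit 8) (.e (nat_lit 557101) (nat_lit 13) (.e (nat_lit 172066) (nat_lit 3) (.e (nat_lit 204821) (nat_lit 17) .nil)))))))) (.g (nat_lit 1) (.e (nat_lit 103088) (nat_lit 0) .nil) .nil)))) 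
(.nd (nat_lit 9) 
(.lf (nat_lit 477596) (.g (nat_lit 3320) (.e (nat_lit 1860) (nat_lit 124) (.e (nat_lit 557100) (nat_lit 13) (.e (nat_lit 172113) (nat_lit 10) (.e (nat_lit 434248) (nat_lit 28) (.e (nat_lit 573470) (nat_lit 11) (.e (nat_lit 16432) (nat_lit 9) (.e (nat_lit 426354) (nat_lit 15) .nil))))))) (.g (nat_lit 1) (.e (nat_lit 102462) (nat_lit 0) .nil) .nil))) 
(.lf (nat_lit 478108) (.g (nat_lit 713) (.e (nat_lit 2384) (nat_lit 155) (.e (nat_lit 811011) (nat_lit 0) (.e (nat_lit 5780) (nat_lit 317) (.e (nat_lit 180241) (nat_lit 4) (.e (nat_lit 524340) (nat_lit 28) (.e (nat_lit 352286) (nat_lit 20) .nil)))))) (.g (nat_lit 1) (.e (nat_lit 103668) (nat_lit 0) .nil) .nil)))))) (.nd (nat_lit 7) (.nd (nat_lit 8) (.nd (nat_lit 9) 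
(.lf (nat_lit 477276) (.g (nat_lit 3771) (.e (nat_lit 1857) (nat_lit 124) (.e (nat_lit 557105) (nat_lit 14) (.e (nat_lit 180252) (nat_lit 10) (.e (nat_lit 573482) (nat_lit 13) (.e (nat_lit 65637) (nat_lit 15) (.e (nat_lit 3253) (nat_lit 197) (.e (nat_lit 532504) (nat_lit 1) (.e (nat_lit 57851) (nat_lit 252) (.e (nat_lit 57354) (nat_lit 0) .nil))))))))) (.g (nat_lit 1) (.e (nat_lit 102091) (nat_lit 0) .nil) .nil))) 
(.lf (nat_lit 477788) (.g (nat_lit 1325) (.e (nat_lit 1999) (nat_lit 137) (.e (nat_lit 663567) (nat_lit 4) (.e (nat_lit 65628) (nat_lit 14) (.e (nat_lit 401436) (nat_lit 9) (.e (nat_lit 426543) (nat_lit 29) .nil))))) (.g (nat_lit 0) (.e (nat_lit 102820) (nat_lit 0) .nil) .nil)))) (.nd (nat_lit 9) 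
(.lf (nat_lit 477532) (.g (nat_lit 1568) (.e (nat_lit 1859) (nat_lit 124) (.e (nat_lit 557109) (nat_lit 15) (.e (nat_lit 188449) (nat_lit 22) (.e (nat_lit 196630) (nat_lit 9) .nil)))) (.g (nat_lit 0) (.e (nat_lit 102398) (nat_lit 0) .nil) .nil))) 
(.lf (nat_lit 478044) (.g (nat_lit 3841) (.e (nat_lit 2342) (nat_lit 151) (.e (nat_lit 778466) (nat_lit 11) (.e (nat_lit 24617) (nat_lit 7) (.e (nat_lit 319534) (nat_lit 16) (.e (nat_lit 286756) (nat_lit 10) (.e (nat_lit 344160) (nat_lit 37) (.e (nat_lit 647190) (nat_lit 9) (.e (nat_lit 983) (nat_lit 81) .nil)))))))) (.g (nat_lit 1) (.e (nat_lit 103396) (nat_lit 0) .nil) .nil))))) 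
(.nd (nat_lit 8) (.nd (nat_lit 9) 
(.lf (nat_lit 477404) (.g (nat_lit 5997) (.e (nat_lit 1859) (nat_lit 124) (.e (nat_lit 557087) (nat_lit 11) (.e (nat_lit 24662) (nat_lit 14) (.e (nat_lit 401425) (nat_lit 2) (.e (nat_lit 196674) (nat_lit 15) .nil))))) (.g (nat_lit 0) (.e (nat_lit 102265) (nat_lit 0) .nil) .nil))) 
(.lf (nat_lit 477916) (.g (nat_lit 2081) (.e (nat_lit 2280) (nat_lit 150) (.e (nat_lit 770072) (nat_lit 8) (.e (nat_lit 65571) (nat_lit 3) (.e (nat_lit 98359) (nat_lit 26) .nil)))) (.g (nat_lit 0) (.e (nat_lit 103209) (nat_lit 0) .nil) .nil)))) (.nd (nat_lit 9) 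
(.lf (nat_lit 477660) (.g (nat_lit 2869) (.e (nat_lit 1860) (nat_lit 124) (.e (nat_lit 557105) (nat_lit 14) (.e (nat_lit 180252) (nat_lit 10) (.e (nat_lit 573480) (nat_lit 13) (.e (nat_lit 65637) (nat_lit 15) (.e (nat_lit 3253) (nat_lit 197) (.e (nat_lit 532504) (nat_lit 1) (.e (nat_lit 57852) (nat_lit 252) (.e (nat_lit 57345) (nat_lit 0) .nil))))))))) (.g (nat_lit 1) (.e (nat_lit 102526) (nat_lit 0) .nil) .nil))) 
(.lf (nat_lit 478172) (.g (nat_lit 3311) (.e (nat_lit 2056) (nat_lit 142) (.e (nat_lit 704589) (nat_lit 3) (.e (nat_lit 163975) (nat_lit 30) (.e (nat_lit 573491) (nat_lit 15) (.e (nat_lit 81954) (nat_lit 23) (.e (nat_lit 98359) (nat_lit 26) (.e (nat_lit 426412) (nat_lit 15) .nil))))))) (.g (nat_lit 1) (.e (nat_lit 103948) (nat_lit 0) .nil) .nil))))))) 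
(.nd (nat_lit 6) (.nd (nat_lit 7) (.nd (nat_lit 8) (.nd (nat_lit 9) 
(.lf (nat_lit 477244) (.g (nat_lit 1129) (.e (nat_lit 1856) (nat_lit 124) (.e (nat_lit 557101) (nat_lit 13) (.e (nat_lit 172115) (nat_lit 10) (.e (nat_lit 434238) (nat_lit 25) .nil)))) (.g (nat_lit 0) (.e (nat_lit 102056) (nat_lit 0) .nil) .nil))) 
(.lf (nat_lit 477756) (.g (nat_lit 1020) (.e (nat_lit 1996) (nat_lit 137) (.e (nat_lit 663569) (nat_lit 6) (.e (nat_lit 81921) (nat_lit 0) (.e (nat_lit 3716) (nat_lit 227) (.e (nat_lit 778325) (nat_lit 6) (.e (nat_lit 81935) (nat_lit 20) .nil)))))) (.g (nat_lit 1) (.e (nat_lit 102786) (nat_lit 0) .nil) .nil)))) (.nd (nat_lit 9) 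
(.lf (nat_lit 477500) (.g (nat_lit 2045) (.e (nat_lit 1859) (nat_lit 124) (.e (nat_lit 557107) (nat_lit 15) (.e (nat_lit 188439) (nat_lit 20) (.e (nat_lit 3272) (nat_lit 199) (.e (nat_lit 548898) (nat_lit 14) (.e (nat_lit 3004) (nat_lit 186) (.e (nat_lit 450304) (nat_lit 0) .nil))))))) (.g (nat_lit 1) (.e (nat_lit 102366) (nat_lit 0) .nil) .nil))) 
(.lf (nat_lit 478012) (.g (nat_lit 3972) (.e (nat_lit 2350) (nat_lit 151) (.e (nat_lit 778464) (nat_lit 11) (.e (nat_lit 24617) (nat_lit 7) (.e (nat_lit 319534) (nat_lit 16) (.e (nat_lit 286756) (nat_lit 10) (.e (nat_lit 344160) (nat_lit 37) (.e (nat_lit 647195) (nat_lit 9) (.e (nat_lit 1015) (nat_lit 81) .nil)))))))) (.g (nat_lit 1) (.e (nat_lit 103357) (nat_lit 0) .nil) .nil))))) 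
(.nd (nat_lit 8) (.nd (nat_lit 9) 
(.lf (nat_lit 477372) (.g (nat_lit 3182) (.e (nat_lit 1858) (nat_lit 124) (.e (nat_lit 557105) (nat_lit 14) (.e (nat_lit 180252) (nat_lit 10) (.e (nat_lit 573480) (nat_lit 13) (.e (nat_lit 65637) (nat_lit 15) (.e (nat_lit 3253) (nat_lit 197) (.e (nat_lit 532501) (nat_lit 1) (.e (nat_lit 57852) (nat_lit 252) (.e (nat_lit 57355) (nat_lit 0) .nil))))))))) (.g (nat_lit 1) (.e (nat_lit 102225) (nat_lit 0) .nil) .nil))) 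
(.lf (nat_lit 477884) (.g (nat_lit 3157) (.e (nat_lit 2270) (nat_lit 149) (.e (nat_lit 761899) (nat_lit 15) (.e (nat_lit 163978) (nat_lit 30) (.e (nat_lit 573489) (nat_lit 14) (.e (nat_lit 73754) (nat_lit 8) (.e (nat_lit 557101) (nat_lit 13) (.e (nat_lit 172066) (nat_lit 3) (.e (nat_lit 204821) (nat_lit 17) .nil)))))))) (.g (nat_lit 1) (.e (nat_lit 103124) (nat_lit 0) .nil) .nil)))) 
(.nd (nat_lit 9) 
(.lf (nat_lit 477628) (.g (nat_lit 3357) (.e (nat_lit 1860) (nat_lit 124) (.e (nat_lit 557101) (nat_lit 13) (.e (nat_lit 172115) (nat_lit 10) (.e (nat_lit 434238) (nat_lit 25) (.e (nat_lit 548898) (nat_lit 14) (.e (nat_lit 2989) (nat_lit 186) (.e (nat_lit 450304) (nat_lit 0) .nil))))))) (.g (nat_lit 1) (.e (nat_lit 102494) (nat_lit 0) .nil) .nil))) 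
(.lf (nat_lit 478140) (.g (nat_lit 3577) (.e (nat_lit 2391) (nat_lit 156) (.e (nat_lit 819219) (nat_lit 4) (.e (nat_lit 172082) (nat_lit 7) (.e (nat_lit 409617) (nat_lit 10) (.e (nat_lit 632) (nat_lit 50) (.e (nat_lit 573491) (nat_lit 15) (.e (nat_lit 81946) (nat_lit 20) .nil))))))) (.g (nat_lit 1) (.e (nat_lit 103823) (nat_lit 0) .nil) .nil)))))) 
(.nd (nat_lit 7) (.nd (nat_lit 8) (.nd (nat_lit 9) 
(.lf (nat_lit 477308) (.g (nat_lit 2978) (.e (nat_lit 1858) (nat_lit 124) (.e (nat_lit 557101) (nat_lit 13) (.e (nat_lit 172097) (nat_lit 9) (.e (nat_lit 426140) (nat_lit 3) (.e (nat_lit 204821) (nat_lit 17) (.e (nat_lit 6674) (nat_lit 357) (.e (nat_lit 2940) (nat_lit 184) (.e (nat_lit 433920) (nat_lit 15) .nil)))))))) (.g (nat_lit 1) (.e (nat_lit 102142) (nat_lit 0) .nil) .nil))) 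
(.lf (nat_lit 477820) (.g (nat_lit 364) (.e (nat_lit 2006) (nat_lit 138) (.e (nat_lit 671762) (nat_lit 4) (.e (nat_lit 65624) (nat_lit 12) .nil))) (.g (nat_lit 0) (.e (nat_lit 102858) (nat_lit 0) .nil) .nil)))) (.nd (nat_lit 9) 
(.lf (nat_lit 477564) (.g (nat_lit 3165) (.e (nat_lit 1860) (nat_lit 124) (.e (nat_lit 557100) (nat_lit 13) (.e (nat_lit 172113) (nat_lit 10) (.e (nat_lit 434245) (nat_lit 28) (.e (nat_lit 573470) (nat_lit 11) (.e (nat_lit 16432) (nat_lit 9) (.e (nat_lit 426354) (nat_lit 15) .nil))))))) (.g (nat_lit 1) (.e (nat_lit 102430) (nat_lit 0) .nil) .nil))) 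
(.lf (nat_lit 478076) (.g (nat_lit 3389) (.e (nat_lit 2347) (nat_lit 151) (.e (nat_lit 778466) (nat_lit 11) (.e (nat_lit 24617) (nat_lit 7) (.e (nat_lit 319534) (nat_lit 16) (.e (nat_lit 286756) (nat_lit 10) (.e (nat_lit 344160) (nat_lit 37) (.e (nat_lit 647188) (nat_lit 9) (.e (nat_lit 986) (nat_lit 81) .nil)))))))) (.g (nat_lit 1) (.e (nat_lit 103446) (nat_lit 0) .nil) .nil))))) 
(.nd (nat_lit 8) (.nd (nat_lit 9) 
(.lf (nat_lit 477436) (.g (nat_lit 3128) (.e (nat_lit 1859) (nat_lit 124) (.e (nat_lit 557098) (nat_lit 13) (.e (nat_lit 172115) (nat_lit 10) (.e (nat_lit 434231) (nat_lit 23) (.e (nat_lit 532490) (nat_lit 0) (.e (nat_lit 6674) (nat_lit 357) (.e (nat_lit 2940) (nat_lit 184) (.e (nat_lit 433920) (nat_lit 15) .nil)))))))) (.g (nat_lit 1) (.e (nat_lit 102301) (nat_lit 0) .nil) .nil))) 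
(.lf (nat_lit 477948) (.g (nat_lit 1805) (.e (nat_lit 2283) (nat_lit 150) (.e (nat_lit 770072) (nat_lit 8) (.e (nat_lit 65586) (nat_lit 7) (.e (nat_lit 319533) (nat_lit 16) (.e (nat_lit 286753) (nat_lit 10) .nil))))) (.g (nat_lit 0) (.e (nat_lit 103270) (nat_lit 0) .nil) .nil)))) (.nd (nat_lit 9) 
(.lf (nat_lit 477692) (.g (nat_lit 1462) (.e (nat_lit 1994) (nat_lit 137) (.e (nat_lit 663567) (nat_lit 4) (.e (nat_lit 65604) (nat_lit 9) (.e (nat_lit 335907) (nat_lit 0) (.e (nat_lit 1994) (nat_lit 137) .nil))))) (.g (nat_lit 0) (.e (nat_lit 102717) (nat_lit 0) .nil) .nil))) 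
(.lf (nat_lit 478204) (.g (nat_lit 4754) (.e (nat_lit 2056) (nat_lit 142) (.e (nat_lit 704589) (nat_lit 3) (.e (nat_lit 163979) (nat_lit 30) (.e (nat_lit 573493) (nat_lit 15) (.e (nat_lit 81956) (nat_lit 23) (.e (nat_lit 98356) (nat_lit 26) (.e (nat_lit 426363) (nat_lit 15) .nil))))))) (.g (nat_lit 1) (.e (nat_lit 103981) (nat_lit 0) .nil) .nil))))))))))) 
(.nd (nat_lit 2) (.nd (nat_lit 3) (.nd (nat_lit 4) (.nd (nat_lit 5) (.nd (nat_lit 6) 
(.nd (nat_lit 7) (.nd (nat_lit 8) (.nd (nat_lit 9) 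
(.lf (nat_lit 477186) (.g (nat_lit 2677) (.e (nat_lit 1855) (nat_lit 124) (.e (nat_lit 557109) (nat_lit 15) (.e (nat_lit 188447) (nat_lit 22) (.e (nat_lit 196666) (nat_lit 13) .nil)))) (.g (nat_lit 0) (.e (nat_lit 101942) (nat_lit 0) .nil) .nil))) 
(.lf (nat_lit 477698) (.g (nat_lit 1841) (.e (nat_lit 1994) (nat_lit 137) (.e (nat_lit 663567) (nat_lit 4) (.e (nat_lit 65611) (nat_lit 10) (.e (nat_lit 344169) (nat_lit 40) (.e (nat_lit 671764) (nat_lit 6) (.e (nat_lit 81934) (nat_lit 20) .nil)))))) (.g (nat_lit 1) (.e (nat_lit 102723) (nat_lit 0) .nil) .nil)))) (.nd (nat_lit 9) 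
(.lf (nat_lit 477442) (.g (nat_lit 2034) (.e (nat_lit 1859) (nat_lit 124) (.e (nat_lit 557098) (nat_lit 13) (.e (nat_lit 172115) (nat_lit 10) (.e (nat_lit 434231) (nat_lit 23) (.e (nat_lit 532531) (nat_lit 9) .nil))))) (.g (nat_lit 0) (.e (nat_lit 102307) (nat_lit 0) .nil) .nil))) 
(.lf (nat_lit 477954) (.g (nat_lit 3687) (.e (nat_lit 2303) (nat_lit 151) (.e (nat_lit 778466) (nat_lit 11) (.e (nat_lit 24617) (nat_lit 7) (.e (nat_lit 319533) (nat_lit 16) (.e (nat_lit 286753) (nat_lit 10) (.e (nat_lit 344160) (nat_lit 37) (.e (nat_lit 647195) (nat_lit 9) (.e (nat_lit 1086) (nat_lit 81) .nil)))))))) (.g (nat_lit 1) (.e (nat_lit 103287) (nat_lit 0) .nil) .nil))))) 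
(.nd (nat_lit 8) (.nd (nat_lit 9) 
(.lf (nat_lit 477314) (.g (nat_lit 2084) (.e (nat_lit 1858) (nat_lit 124) (.e (nat_lit 557101) (nat_lit 13) (.e (nat_lit 172115) (nat_lit 10) (.e (nat_lit 434231) (nat_lit 23) (.e (nat_lit 532481) (nat_lit 0) (.e (nat_lit 6642) (nat_lit 357) (.e (nat_lit 2857) (nat_lit 184) (.e (nat_lit 426402) (nat_lit 15) .nil)))))))) (.g (nat_lit 1) (.e (nat_lit 102148) (nat_lit 0) .nil) .nil))) 
(.lf (nat_lit 477826) (.g (nat_lit 2740) (.e (nat_lit 2006) (nat_lit 138) (.e (nat_lit 671762) (nat_lit 4) (.e (nat_lit 65630) (nat_lit 14) (.e (nat_lit 401457) (nat_lit 13) (.e (nat_lit 483386) (nat_lit 23) .nil))))) (.g (nat_lit 0) (.e (nat_lit 102864) (nat_lit 0) .nil) .nil)))) (.nd (nat_lit 9) 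
(.lf (nat_lit 477570) (.g (nat_lit 3152) (.e (nat_lit 1860) (nat_lit 124) (.e (nat_lit 557100) (nat_lit 13) (.e (nat_lit 172113) (nat_lit 10) (.e (nat_lit 434245) (nat_lit 28) (.e (nat_lit 573471) (nat_lit 11) (.e (nat_lit 16431) (nat_lit 9) (.e (nat_lit 426354) (nat_lit 15) .nil))))))) (.g (nat_lit 1) (.e (nat_lit 102436) (nat_lit 0) .nil) .nil))) 
(.lf (nat_lit 478082) (.g (nat_lit 2195) (.e (nat_lit 2345) (nat_lit 151) (.e (nat_lit 778464) (nat_lit 11) (.e (nat_lit 24617) (nat_lit 7) (.e (nat_lit 319533) (nat_lit 16) (.e (nat_lit 286753) (nat_lit 10) (.e (nat_lit 344160) (nat_lit 37) (.e (nat_lit 647190) (nat_lit 9) (.e (nat_lit 983) (nat_lit 81) .nil)))))))) (.g (nat_lit 1) (.e (nat_lit 103453) (nat_lit 0) .nil) .nil)))))) 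
(.nd (nat_lit 7) (.nd (nat_lit 8) (.nd (nat_lit 9) 
(.lf (nat_lit 477250) (.g (nat_lit 3651) (.e (nat_lit 1856) (nat_lit 124) (.e (nat_lit 557101) (nat_lit 13) (.e (nat_lit 172115) (nat_lit 10) (.e (nat_lit 434244) (nat_lit 28) (.e (nat_lit 573454) (nat_lit 9) (.e (nat_lit 458) (nat_lit 34) (.e (nat_lit 442379) (nat_lit 0) .nil))))))) (.g (nat_lit 1) (.e (nat_lit 102062) (nat_lit 0) .nil) .nil))) 
(.lf (nat_lit 477762) (.g (nat_lit 1482) (.e (nat_lit 1996) (nat_lit 137) (.e (nat_lit 663569) (nat_lit 6) (.e (nat_lit 81939) (nat_lit 20) (.e (nat_lit 2006) (nat_lit 138) (.e (nat_lit 671764) (nat_lit 6) (.e (nat_lit 81935) (nat_lit 20) .nil)))))) (.g (nat_lit 1) (.e (nat_lit 102792) (nat_lit 0) .nil) .nil)))) (.nd (nat_lit 9) 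
(.lf (nat_lit 477506) (.g (nat_lit 1963) (.e (nat_lit 1859) (nat_lit 124) (.e (nat_lit 557107) (nat_lit 15) (.e (nat_lit 188440) (nat_lit 20) (.e (nat_lit 3272) (nat_lit 199) (.e (nat_lit 548898) (nat_lit 14) (.e (nat_lit 3004) (nat_lit 186) (.e (nat_lit 450304) (nat_lit 0) .nil))))))) (.g (nat_lit 1) (.e (nat_lit 102372) (nat_lit 0) .nil) .nil))) 
(.lf (nat_lit 478018) (.g (nat_lit 3053) (.e (nat_lit 2328) (nat_lit 151) (.e (nat_lit 778466) (nat_lit 11) (.e (nat_lit 24617) (nat_lit 7) (.e (nat_lit 319533) (nat_lit 16) (.e (nat_lit 286753) (nat_lit 10) (.e (nat_lit 344160) (nat_lit 37) (.e (nat_lit 647195) (nat_lit 9) (.e (nat_lit 1014) (nat_lit 81) .nil)))))))) (.g (nat_lit 1) (.e (nat_lit 103367) (nat_lit 0) .nil) .nil))))) 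
(.nd (nat_lit 8) (.nd (nat_lit 9) 
(.lf (nat_lit 477378) (.g (nat_lit 3022) (.e (nat_lit 1858) (nat_lit 124) (.e (nat_lit 557105) (nat_lit 14) (.e (nat_lit 180252) (nat_lit 10) (.e (nat_lit 573482) (nat_lit 13) (.e (nat_lit 65636) (nat_lit 15) .nil))))) (.g (nat_lit 0) (.e (nat_lit 102231) (nat_lit 0) .nil) .nil))) 
(.lf (nat_lit 477890) (.g (nat_lit 3655) (.e (nat_lit 2270) (nat_lit 149) (.e (nat_lit 761899) (nat_lit 15) (.e (nat_lit 163979) (nat_lit 30) (.e (nat_lit 573489) (nat_lit 14) (.e (nat_lit 73755) (nat_lit 8) (.e (nat_lit 557097) (nat_lit 13) (.e (nat_lit 172066) (nat_lit 3) (.e (nat_lit 204821) (nat_lit 17) .nil)))))))) (.g (nat_lit 1) (.e (nat_lit 103131) (nat_lit 0) .nil) .nil)))) 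
(.nd (nat_lit 9) 
(.lf (nat_lit 477634) (.g (nat_lit 2928) (.e (nat_lit 1860) (nat_lit 124) (.e (nat_lit 557101) (nat_lit 13) (.e (nat_lit 172115) (nat_lit 10) (.e (nat_lit 434244) (nat_lit 28) (.e (nat_lit 573449) (nat_lit 9) (.e (nat_lit 454) (nat_lit 34) (.e (nat_lit 450304) (nat_lit 0) .nil))))))) (.g (nat_lit 1) (.e (nat_lit 102500) (nat_lit 0) .nil) .nil))) 
(.lf (nat_lit 478146) (.g (nat_lit 1704) (.e (nat_lit 2391) (nat_lit 156) (.e (nat_lit 819221) (nat_lit 6) (.e (nat_lit 188441) (nat_lit 20) (.e (nat_lit 3289) (nat_lit 201) (.e (nat_lit 565269) (nat_lit 6) (.e (nat_lit 81942) (nat_lit 20) .nil)))))) (.g (nat_lit 1) (.e (nat_lit 103836) (nat_lit 0) .nil) .nil))))))) (.nd (nat_lit 6) (.nd (nat_lit 7) (.nd (nat_lit 8) (.nd (nat_lit 9) 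
(.lf (nat_lit 477218) (.g (nat_lit 4813) (.e (nat_lit 1856) (nat_lit 124) (.e (nat_lit 557100) (nat_lit 13) (.e (nat_lit 172106) (nat_lit 10) (.e (nat_lit 434231) (nat_lit 23) (.e (nat_lit 532490) (nat_lit 0) (.e (nat_lit 6674) (nat_lit 357) (.e (nat_lit 2936) (nat_lit 184) (.e (nat_lit 426419) (nat_lit 15) .nil)))))))) (.g (nat_lit 1) (.e (nat_lit 102029) (nat_lit 0) .nil) .nil))) 
(.lf (nat_lit 477730) (.g (nat_lit 2104) (.e (nat_lit 1994) (nat_lit 137) (.e (nat_lit 663569) (nat_lit 6) (.e (nat_lit 81947) (nat_lit 20) (.e (nat_lit 2006) (nat_lit 138) (.e (nat_lit 671764) (nat_lit 6) (.e (nat_lit 81931) (nat_lit 20) .nil)))))) (.g (nat_lit 1) (.e (nat_lit 102755) (nat_lit 0) .nil) .nil)))) (.nd (nat_lit 9) 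
(.lf (nat_lit 477474) (.g (nat_lit 2178) (.e (nat_lit 1859) (nat_lit 124) (.e (nat_lit 557098) (nat_lit 13) (.e (nat_lit 172115) (nat_lit 10) (.e (nat_lit 434244) (nat_lit 28) (.e (nat_lit 573458) (nat_lit 9) (.e (nat_lit 420) (nat_lit 32) (.e (nat_lit 426261) (nat_lit 9) (.e (nat_lit 426401) (nat_lit 15) .nil)))))))) (.g (nat_lit 1) (.e (nat_lit 102339) (nat_lit 0) .nil) .nil))) 
(.lf (nat_lit 477986) (.g (nat_lit 3190) (.e (nat_lit 2309) (nat_lit 151) (.e (nat_lit 778466) (nat_lit 11) (.e (nat_lit 24617) (nat_lit 7) (.e (nat_lit 319534) (nat_lit 16) (.e (nat_lit 286756) (nat_lit 10) (.e (nat_lit 344160) (nat_lit 37) (.e (nat_lit 647196) (nat_lit 9) (.e (nat_lit 1003) (nat_lit 81) .nil)))))))) (.g (nat_lit 1) (.e (nat_lit 103325) (nat_lit 0) .nil) .nil))))) 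
(.nd (nat_lit 8) (.nd (nat_lit 9) 
(.lf (nat_lit 477346) (.g (nat_lit 2159) (.e (nat_lit 1858) (nat_lit 124) (.e (nat_lit 557101) (nat_lit 13) (.e (nat_lit 172115) (nat_lit 10) (.e (nat_lit 434244) (nat_lit 28) (.e (nat_lit 573449) (nat_lit 9) (.e (nat_lit 396) (nat_lit 32) (.e (nat_lit 426198) (nat_lit 9) (.e (nat_lit 426402) (nat_lit 15) .nil)))))))) (.g (nat_lit 1) (.e (nat_lit 102180) (nat_lit 0) .nil) .nil))) 
(.lf (nat_lit 477858) (.g (nat_lit 2544) (.e (nat_lit 2270) (nat_lit 149) (.e (nat_lit 761898) (nat_lit 15) (.e (nat_lit 163978) (nat_lit 30) (.e (nat_lit 573489) (nat_lit 14) (.e (nat_lit 73754) (nat_lit 8) (.e (nat_lit 557101) (nat_lit 13) (.e (nat_lit 172066) (nat_lit 3) (.e (nat_lit 204822) (nat_lit 17) .nil)))))))) (.g (nat_lit 1) (.e (nat_lit 103094) (nat_lit 0) .nil) .nil)))) 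
(.nd (nat_lit 9) 
(.lf (nat_lit 477602) (.g (nat_lit 5829) (.e (nat_lit 1860) (nat_lit 124) (.e (nat_lit 557100) (nat_lit 13) (.e (nat_lit 172113) (nat_lit 10) (.e (nat_lit 434248) (nat_lit 28) (.e (nat_lit 573471) (nat_lit 11) (.e (nat_lit 16433) (nat_lit 9) (.e (nat_lit 426354) (nat_lit 15) .nil))))))) (.g (nat_lit 1) (.e (nat_lit 102468) (nat_lit 0) .nil) .nil))) 
(.lf (nat_lit 478114) (.g (nat_lit 552) (.e (nat_lit 2388) (nat_lit 156) (.e (nat_lit 819204) (nat_lit 0) (.e (nat_lit 3022) (nat_lit 187) .nil))) (.g (nat_lit 0) (.e (nat_lit 103682) (nat_lit 0) .nil) .nil)))))) (.nd (nat_lit 7) (.nd (nat_lit 8) (.nd (nat_lit 9) 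
(.lf (nat_lit 477282) (.g (nat_lit 1778) (.e (nat_lit 1858) (nat_lit 124) (.e (nat_lit 557090) (nat_lit 12) (.e (nat_lit 164020) (nat_lit 45) (.e (nat_lit 696344) (nat_lit 8) .nil)))) (.g (nat_lit 0) (.e (nat_lit 102101) (nat_lit 0) .nil) .nil))) 
(.lf (nat_lit 477794) (.g (nat_lit 1666) (.e (nat_lit 1999) (nat_lit 137) (.e (nat_lit 663567) (nat_lit 4) (.e (nat_lit 65630) (nat_lit 14) (.e (nat_lit 401437) (nat_lit 9) (.e (nat_lit 426542) (nat_lit 29) .nil))))) (.g (nat_lit 0) (.e (nat_lit 102826) (nat_lit 0) .nil) .nil)))) (.nd (nat_lit 9) 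
(.lf (nat_lit 477538) (.g (nat_lit 3092) (.e (nat_lit 1859) (nat_lit 124) (.e (nat_lit 557109) (nat_lit 15) (.e (nat_lit 188449) (nat_lit 22) (.e (nat_lit 196661) (nat_lit 12) (.e (nat_lit 57751) (nat_lit 201) (.e (nat_lit 2854) (nat_lit 184) (.e (nat_lit 426402) (nat_lit 15) .nil))))))) (.g (nat_lit 1) (.e (nat_lit 102404) (nat_lit 0) .nil) .nil))) 
(.lf (nat_lit 478050) (.g (nat_lit 2860) (.e (nat_lit 2342) (nat_lit 151) (.e (nat_lit 778466) (nat_lit 11) (.e (nat_lit 24617) (nat_lit 7) (.e (nat_lit 319534) (nat_lit 16) (.e (nat_lit 286756) (nat_lit 10) (.e (nat_lit 344160) (nat_lit 37) (.e (nat_lit 647195) (nat_lit 9) (.e (nat_lit 7936) (nat_lit 81) .nil)))))))) (.g (nat_lit 1) (.e (nat_lit 103402) (nat_lit 0) .nil) .nil))))) 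
(.nd (nat_lit 8) (.nd (nat_lit 9) 
(.lf (nat_lit 477410) (.g (nat_lit 2178) (.e (nat_lit 1859) (nat_lit 124) (.e (nat_lit 557098) (nat_lit 13) (.e (nat_lit 172097) (nat_lit 9) (.e (nat_lit 426125) (nat_lit 2) (.e (nat_lit 196661) (nat_lit 12) (.e (nat_lit 57748) (nat_lit 201) (.e (nat_lit 2941) (nat_lit 184) (.e (nat_lit 433920) (nat_lit 15) .nil)))))))) (.g (nat_lit 1) (.e (nat_lit 102275) (nat_lit 0) .nil) .nil))) 
(.lf (nat_lit 477922) (.g (nat_lit 1624) (.e (nat_lit 2281) (nat_lit 150) (.e (nat_lit 770072) (nat_lit 8) (.e (nat_lit 65617) (nat_lit 10) (.e (nat_lit 344096) (nat_lit 18) (.e (nat_lit 7125) (nat_lit 382) .nil))))) (.g (nat_lit 0) (.e (nat_lit 103225) (nat_lit 0) .nil) .nil)))) (.nd (nat_lit 9) 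
(.lf (nat_lit 477666) (.g (nat_lit 3003) (.e (nat_lit 1860) (nat_lit 124) (.e (nat_lit 557105) (nat_lit 14) (.e (nat_lit 180252) (nat_lit 10) (.e (nat_lit 573482) (nat_lit 13) (.e (nat_lit 65637) (nat_lit 15) (.e (nat_lit 3253) (nat_lit 197) (.e (nat_lit 532499) (nat_lit 1) (.e (nat_lit 57847) (nat_lit 252) (.e (nat_lit 57349) (nat_lit 0) .nil))))))))) (.g (nat_lit 1) (.e (nat_lit 102532) (nat_lit 0) .nil) .nil))) 
(.lf (nat_lit 478178) (.g (nat_lit 4399) (.e (nat_lit 2056) (nat_lit 142) (.e (nat_lit 704589) (nat_lit 3) (.e (nat_lit 163975) (nat_lit 30) (.e (nat_lit 573492) (nat_lit 15) (.e (nat_lit 81956) (nat_lit 23) (.e (nat_lit 98356) (nat_lit 26) (.e (nat_lit 426363) (nat_lit 15) .nil))))))) (.g (nat_lit 1) (.e (nat_lit 103955) (nat_lit 0) .nil) .nil)))))))) 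
(.nd (nat_lit 5) (.nd (nat_lit 6) (.nd (nat_lit 7) (.nd (nat_lit 8) (.nd (nat_lit 9) 
(.lf (nat_lit 477202) (.g (nat_lit 674) (.e (nat_lit 1856) (nat_lit 124) (.e (nat_lit 557097) (nat_lit 13) (.e (nat_lit 172115) (nat_lit 10) .nil))) (.g (nat_lit 0) (.e (nat_lit 102008) (nat_lit 0) .nil) .nil))) 
(.lf (nat_lit 477714) (.g (nat_lit 3032) (.e (nat_lit 1994) (nat_lit 137) (.e (nat_lit 663567) (nat_lit 4) (.e (nat_lit 65630) (nat_lit 14) (.e (nat_lit 401437) (nat_lit 9) (.e (nat_lit 426542) (nat_lit 29) (.e (nat_lit 352283) (nat_lit 20) .nil)))))) (.g (nat_lit 1) (.e (nat_lit 102739) (nat_lit 0) .nil) .nil)))) (.nd (nat_lit 9) 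
(.lf (nat_lit 477458) (.g (nat_lit 3229) (.e (nat_lit 1859) (nat_lit 124) (.e (nat_lit 557098) (nat_lit 13) (.e (nat_lit 172115) (nat_lit 10) (.e (nat_lit 434238) (nat_lit 25) (.e (nat_lit 548898) (nat_lit 14) (.e (nat_lit 3005) (nat_lit 186) (.e (nat_lit 450304) (nat_lit 0) .nil))))))) (.g (nat_lit 1) (.e (nat_lit 102323) (nat_lit 0) .nil) .nil))) 
(.lf (nat_lit 477970) (.g (nat_lit 4359) (.e (nat_lit 2305) (nat_lit 151) (.e (nat_lit 778466) (nat_lit 11) (.e (nat_lit 24617) (nat_lit 7) (.e (nat_lit 319534) (nat_lit 16) (.e (nat_lit 286756) (nat_lit 10) (.e (nat_lit 344160) (nat_lit 37) (.e (nat_lit 647190) (nat_lit 9) (.e (nat_lit 7936) (nat_lit 81) .nil)))))))) (.g (nat_lit 1) (.e (nat_lit 103308) (nat_lit 0) .nil) .nil))))) 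
(.nd (nat_lit 8) (.nd (nat_lit 9) 
(.lf (nat_lit 477330) (.g (nat_lit 2830) (.e (nat_lit 1858) (nat_lit 124) (.e (nat_lit 557101) (nat_lit 13) (.e (nat_lit 172115) (nat_lit 10) (.e (nat_lit 434238) (nat_lit 25) (.e (nat_lit 548896) (nat_lit 14) (.e (nat_lit 3004) (nat_lit 186) (.e (nat_lit 450304) (nat_lit 0) .nil))))))) (.g (nat_lit 1) (.e (nat_lit 102164) (nat_lit 0) .nil) .nil))) 
(.lf (nat_lit 477842) (.g (nat_lit 3033) (.e (nat_lit 2270) (nat_lit 149) (.e (nat_lit 761898) (nat_lit 15) (.e (nat_lit 163977) (nat_lit 30) (.e (nat_lit 573489) (nat_lit 14) (.e (nat_lit 73755) (nat_lit 8) (.e (nat_lit 557097) (nat_lit 13) (.e (nat_lit 172065) (nat_lit 3) (.e (nat_lit 204821) (nat_lit 17) .nil)))))))) (.g (nat_lit 1) (.e (nat_lit 103078) (nat_lit 0) .nil) .nil)))) 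
(.nd (nat_lit 9) 
(.lf (nat_lit 477586) (.g (nat_lit 3397) (.e (nat_lit 1860) (nat_lit 124) (.e (nat_lit 557100) (nat_lit 13) (.e (nat_lit 172113) (nat_lit 10) (.e (nat_lit 434245) (nat_lit 28) (.e (nat_lit 573471) (nat_lit 11) (.e (nat_lit 16444) (nat_lit 9) (.e (nat_lit 433920) (nat_lit 15) .nil))))))) (.g (nat_lit 1) (.e (nat_lit 102452) (nat_lit 0) .nil) .nil))) 
(.lf (nat_lit 478098) (.g (nat_lit 3259) (.e (nat_lit 2367) (nat_lit 153) (.e (nat_lit 794684) (nat_lit 25) (.e (nat_lit 221215) (nat_lit 23) (.e (nat_lit 204883) (nat_lit 33) (.e (nat_lit 401457) (nat_lit 13) (.e (nat_lit 483346) (nat_lit 17) .nil)))))) (.g (nat_lit 1) (.e (nat_lit 103630) (nat_lit 0) .nil) .nil)))))) (.nd (nat_lit 7) (.nd (nat_lit 8) (.nd (nat_lit 9) 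
(.lf (nat_lit 477266) (.g (nat_lit 1598) (.e (nat_lit 1856) (nat_lit 124) (.e (nat_lit 557109) (nat_lit 15) (.e (nat_lit 188453) (nat_lit 24) (.e (nat_lit 237312) (nat_lit 134) .nil)))) (.g (nat_lit 0) (.e (nat_lit 102081) (nat_lit 0) .nil) .nil))) 
(.lf (nat_lit 477778) (.g (nat_lit 2141) (.e (nat_lit 1999) (nat_lit 137) (.e (nat_lit 663567) (nat_lit 4) (.e (nat_lit 65617) (nat_lit 10) (.e (nat_lit 344169) (nat_lit 40) (.e (nat_lit 671764) (nat_lit 6) (.e (nat_lit 81933) (nat_lit 20) .nil)))))) (.g (nat_lit 1) (.e (nat_lit 102810) (nat_lit 0) .nil) .nil)))) (.nd (nat_lit 9) 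
(.lf (nat_lit 477522) (.g (nat_lit 2168) (.e (nat_lit 1859) (nat_lit 124) (.e (nat_lit 557107) (nat_lit 15) (.e (nat_lit 188452) (nat_lit 23) (.e (nat_lit 204884) (nat_lit 33) .nil)))) (.g (nat_lit 0) (.e (nat_lit 102388) (nat_lit 0) .nil) .nil))) 
(.lf (nat_lit 478034) (.g (nat_lit 2605) (.e (nat_lit 2342) (nat_lit 151) (.e (nat_lit 778466) (nat_lit 11) (.e (nat_lit 24617) (nat_lit 7) (.e (nat_lit 319505) (nat_lit 10) (.e (nat_lit 720) (nat_lit 64) .nil))))) (.g (nat_lit 0) (.e (nat_lit 103384) (nat_lit 0) .nil) .nil))))) (.nd (nat_lit 8) (.nd (nat_lit 9) 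
(.lf (nat_lit 477394) (.g (nat_lit 2964) (.e (nat_lit 1858) (nat_lit 124) (.e (nat_lit 557109) (nat_lit 15) (.e (nat_lit 188450) (nat_lit 23) (.e (nat_lit 204863) (nat_lit 27) .nil)))) (.g (nat_lit 0) (.e (nat_lit 102249) (nat_lit 0) .nil) .nil))) 
(.lf (nat_lit 477906) (.g (nat_lit 4329) (.e (nat_lit 2271) (nat_lit 149) (.e (nat_lit 761899) (nat_lit 15) (.e (nat_lit 163977) (nat_lit 30) (.e (nat_lit 573489) (nat_lit 14) (.e (nat_lit 73755) (nat_lit 8) (.e (nat_lit 557097) (nat_lit 13) (.e (nat_lit 172067) (nat_lit 3) (.e (nat_lit 204815) (nat_lit 17) .nil)))))))) (.g (nat_lit 1) (.e (nat_lit 103177) (nat_lit 0) .nil) .nil)))) 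
(.nd (nat_lit 9) 
(.lf (nat_lit 477650) (.g (nat_lit 3143) (.e (nat_lit 1860) (nat_lit 124) (.e (nat_lit 557101) (nat_lit 13) (.e (nat_lit 172115) (nat_lit 10) (.e (nat_lit 434244) (nat_lit 28) (.e (nat_lit 573458) (nat_lit 9) (.e (nat_lit 420) (nat_lit 32) (.e (nat_lit 426228) (nat_lit 9) (.e (nat_lit 426353) (nat_lit 15) .nil)))))))) (.g (nat_lit 1) (.e (nat_lit 102516) (nat_lit 0) .nil) .nil))) 
(.lf (nat_lit 478162) (.g (nat_lit 433) (.e (nat_lit 2047) (nat_lit 142) (.e (nat_lit 704599) (nat_lit 6) (.e (nat_lit 196352) (nat_lit 8) (.e (nat_lit 155652) (nat_lit 0) (.e (nat_lit 2984) (nat_lit 186) (.e (nat_lit 450304) (nat_lit 0) .nil)))))) (.g (nat_lit 1) (.e (nat_lit 103932) (nat_lit 0) .nil) .nil))))))) (.nd (nat_lit 6) (.nd (nat_lit 7) (.nd (nat_lit 8) (.nd (nat_lit 9) 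
(.lf (nat_lit 477234) (.g (nat_lit 2590) (.e (nat_lit 1856) (nat_lit 124) (.e (nat_lit 557100) (nat_lit 13) (.e (nat_lit 172113) (nat_lit 10) (.e (nat_lit 434247) (nat_lit 28) (.e (nat_lit 573448) (nat_lit 9) (.e (nat_lit 459) (nat_lit 34) (.e (nat_lit 442379) (nat_lit 0) .nil))))))) (.g (nat_lit 1) (.e (nat_lit 102046) (nat_lit 0) .nil) .nil))) 
(.lf (nat_lit 477746) (.g (nat_lit 1653) (.e (nat_lit 1996) (nat_lit 137) (.e (nat_lit 663567) (nat_lit 4) (.e (nat_lit 65620) (nat_lit 10) (.e (nat_lit 344169) (nat_lit 40) (.e (nat_lit 671764) (nat_lit 6) (.e (nat_lit 81934) (nat_lit 20) .nil)))))) (.g (nat_lit 1) (.e (nat_lit 102776) (nat_lit 0) .nil) .nil)))) (.nd (nat_lit 9) 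
(.lf (nat_lit 477490) (.g (nat_lit 1599) (.e (nat_lit 1859) (nat_lit 124) (.e (nat_lit 557107) (nat_lit 15) (.e (nat_lit 188439) (nat_lit 20) (.e (nat_lit 3271) (nat_lit 199) (.e (nat_lit 548898) (nat_lit 14) (.e (nat_lit 2988) (nat_lit 186) (.e (nat_lit 450304) (nat_lit 0) .nil))))))) (.g (nat_lit 1) (.e (nat_lit 102356) (nat_lit 0) .nil) .nil))) 
(.lf (nat_lit 478002) (.g (nat_lit 3263) (.e (nat_lit 2314) (nat_lit 151) (.e (nat_lit 778466) (nat_lit 11) (.e (nat_lit 24617) (nat_lit 7) (.e (nat_lit 319533) (nat_lit 16) (.e (nat_lit 286753) (nat_lit 10) .nil))))) (.g (nat_lit 0) (.e (nat_lit 103345) (nat_lit 0) .nil) .nil))))) (.nd (nat_lit 8) (.nd (nat_lit 9) 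
(.lf (nat_lit 477362) (.g (nat_lit 4826) (.e (nat_lit 1858) (nat_lit 124) (.e (nat_lit 557101) (nat_lit 13) (.e (nat_lit 172115) (nat_lit 10) (.e (nat_lit 434244) (nat_lit 28) (.e (nat_lit 573458) (nat_lit 9) (.e (nat_lit 426) (nat_lit 32) (.e (nat_lit 426190) (nat_lit 9) (.e (nat_lit 426402) (nat_lit 15) .nil)))))))) (.g (nat_lit 1) (.e (nat_lit 102196) (nat_lit 0) .nil) .nil))) 
(.lf (nat_lit 477874) (.g (nat_lit 2430) (.e (nat_lit 2270) (nat_lit 149) (.e (nat_lit 761898) (nat_lit 15) (.e (nat_lit 163979) (nat_lit 30) (.e (nat_lit 573489) (nat_lit 14) (.e (nat_lit 73755) (nat_lit 8) (.e (nat_lit 557097) (nat_lit 13) (.e (nat_lit 172066) (nat_lit 3) (.e (nat_lit 204814) (nat_lit 17) .nil)))))))) (.g (nat_lit 1) (.e (nat_lit 103110) (nat_lit 0) .nil) .nil)))) 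
(.nd (nat_lit 9) 
(.lf (nat_lit 477618) (.g (nat_lit 2260) (.e (nat_lit 1860) (nat_lit 124) (.e (nat_lit 557101) (nat_lit 13) (.e (nat_lit 172115) (nat_lit 10) (.e (nat_lit 434231) (nat_lit 23) (.e (nat_lit 532490) (nat_lit 0) (.e (nat_lit 6674) (nat_lit 357) (.e (nat_lit 2940) (nat_lit 184) (.e (nat_lit 433920) (nat_lit 15) .nil)))))))) (.g (nat_lit 1) (.e (nat_lit 102484) (nat_lit 0) .nil) .nil))) 
(.lf (nat_lit 478130) (.g (nat_lit 2036) (.e (nat_lit 2391) (nat_lit 156) (.e (nat_lit 819203) (nat_lit 0) (.e (nat_lit 3015) (nat_lit 187) (.e (nat_lit 450584) (nat_lit 9) (.e (nat_lit 573184) (nat_lit 6) (.e (nat_lit 81938) (nat_lit 20) .nil)))))) (.g (nat_lit 1) (.e (nat_lit 103758) (nat_lit 0) .nil) .nil)))))) (.nd (nat_lit 7) (.nd (nat_lit 8) (.nd (nat_lit 9) 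
(.lf (nat_lit 477298) (.g (nat_lit 5096) (.e (nat_lit 1858) (nat_lit 124) (.e (nat_lit 557101) (nat_lit 13) (.e (nat_lit 172097) (nat_lit 9) (.e (nat_lit 426125) (nat_lit 2) (.e (nat_lit 196661) (nat_lit 12) (.e (nat_lit 57750) (nat_lit 201) (.e (nat_lit 2856) (nat_lit 184) (.e (nat_lit 426402) (nat_lit 15) .nil)))))))) (.g (nat_lit 1) (.e (nat_lit 102132) (nat_lit 0) .nil) .nil))) 
(.lf (nat_lit 477810) (.g (nat_lit 2830) (.e (nat_lit 2006) (nat_lit 138) (.e (nat_lit 671759) (nat_lit 3) (.e (nat_lit 57479) (nat_lit 28) (.e (nat_lit 557097) (nat_lit 13) (.e (nat_lit 172097) (nat_lit 9) .nil))))) (.g (nat_lit 0) (.e (nat_lit 102847) (nat_lit 0) .nil) .nil)))) (.nd (nat_lit 9) 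
(.lf (nat_lit 477554) (.g (nat_lit 3614) (.e (nat_lit 1860) (nat_lit 124) (.e (nat_lit 557087) (nat_lit 11) (.e (nat_lit 24617) (nat_lit 7) (.e (nat_lit 319505) (nat_lit 10) .nil)))) (.g (nat_lit 0) (.e (nat_lit 102420) (nat_lit 0) .nil) .nil))) 
(.lf (nat_lit 478066) (.g (nat_lit 4088) (.e (nat_lit 2346) (nat_lit 151) (.e (nat_lit 778466) (nat_lit 11) (.e (nat_lit 24617) (nat_lit 7) (.e (nat_lit 319534) (nat_lit 16) (.e (nat_lit 286756) (nat_lit 10) (.e (nat_lit 344160) (nat_lit 37) (.e (nat_lit 647195) (nat_lit 9) (.e (nat_lit 1043) (nat_lit 81) .nil)))))))) (.g (nat_lit 1) (.e (nat_lit 103436) (nat_lit 0) .nil) .nil))))) 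
(.nd (nat_lit 8) (.nd (nat_lit 9) 
(.lf (nat_lit 477426) (.g (nat_lit 3364) (.e (nat_lit 1859) (nat_lit 124) (.e (nat_lit 557098) (nat_lit 13) (.e (nat_lit 172097) (nat_lit 9) (.e (nat_lit 426140) (nat_lit 3) (.e (nat_lit 204821) (nat_lit 17) (.e (nat_lit 6680) (nat_lit 357) (.e (nat_lit 2854) (nat_lit 184) (.e (nat_lit 426402) (nat_lit 15) .nil)))))))) (.g (nat_lit 1) (.e (nat_lit 102291) (nat_lit 0) .nil) .nil))) 
(.lf (nat_lit 477938) (.g (nat_lit 1919) (.e (nat_lit 2283) (nat_lit 150) (.e (nat_lit 770071) (nat_lit 8) (.e (nat_lit 65586) (nat_lit 7) (.e (nat_lit 319534) (nat_lit 16) (.e (nat_lit 286756) (nat_lit 10) .nil))))) (.g (nat_lit 0) (.e (nat_lit 103247) (nat_lit 0) .nil) .nil)))) (.nd (nat_lit 9) 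
(.lf (nat_lit 477682) (.g (nat_lit 3850) (.e (nat_lit 1927) (nat_lit 131) (.e (nat_lit 614420) (nat_lit 6) (.e (nat_lit 188455) (nat_lit 24) (.e (nat_lit 229708) (nat_lit 256) (.e (nat_lit 57400) (nat_lit 10) (.e (nat_lit 319534) (nat_lit 16) (.e (nat_lit 286728) (nat_lit 0) .nil))))))) (.g (nat_lit 1) (.e (nat_lit 102581) (nat_lit 0) .nil) .nil))) 
(.lf (nat_lit 478194) (.g (nat_lit 3851) (.e (nat_lit 2056) (nat_lit 142) (.e (nat_lit 704589) (nat_lit 3) (.e (nat_lit 163979) (nat_lit 30) (.e (nat_lit 573482) (nat_lit 13) (.e (nat_lit 65619) (nat_lit 10) (.e (nat_lit 344117) (nat_lit 21) (.e (nat_lit 516144) (nat_lit 9) (.e (nat_lit 426375) (nat_lit 15) .nil)))))))) (.g (nat_lit 1) (.e (nat_lit 103971) (nat_lit 0) .nil) .nil))))))))) 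
(.nd (nat_lit 4) (.nd (nat_lit 5) (.nd (nat_lit 6) (.nd (nat_lit 7) (.nd (nat_lit 8) 
(.nd (nat_lit 9) 
(.lf (nat_lit 477194) (.g (nat_lit 5068) (.e (nat_lit 1855) (nat_lit 124) (.e (nat_lit 557109) (nat_lit 15) (.e (nat_lit 188452) (nat_lit 23) (.e (nat_lit 204880) (nat_lit 32) (.e (nat_lit 385103) (nat_lit 50) .nil))))) (.g (nat_lit 0) (.e (nat_lit 101950) (nat_lit 0) .nil) .nil))) 
(.lf (nat_lit 477706) (.g (nat_lit 2072) (.e (nat_lit 1994) (nat_lit 137) (.e (nat_lit 663567) (nat_lit 4) (.e (nat_lit 65620) (nat_lit 10) (.e (nat_lit 344169) (nat_lit 40) (.e (nat_lit 671764) (nat_lit 6) (.e (nat_lit 81931) (nat_lit 20) .nil)))))) (.g (nat_lit 1) (.e (nat_lit 102731) (nat_lit 0) .nil) .nil)))) (.nd (nat_lit 9) 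
(.lf (nat_lit 477450) (.g (nat_lit 2894) (.e (nat_lit 1859) (nat_lit 124) (.e (nat_lit 557098) (nat_lit 13) (.e (nat_lit 172115) (nat_lit 10) (.e (nat_lit 434238) (nat_lit 25) (.e (nat_lit 548897) (nat_lit 14) (.e (nat_lit 2999) (nat_lit 186) (.e (nat_lit 450304) (nat_lit 0) .nil))))))) (.g (nat_lit 1) (.e (nat_lit 102315) (nat_lit 0) .nil) .nil))) 
(.lf (nat_lit 477962) (.g (nat_lit 3130) (.e (nat_lit 2304) (nat_lit 151) (.e (nat_lit 778466) (nat_lit 11) (.e (nat_lit 24617) (nat_lit 7) (.e (nat_lit 319534) (nat_lit 16) (.e (nat_lit 286756) (nat_lit 10) (.e (nat_lit 344160) (nat_lit 37) (.e (nat_lit 647189) (nat_lit 9) (.e (nat_lit 973) (nat_lit 81) .nil)))))))) (.g (nat_lit 1) (.e (nat_lit 103296) (nat_lit 0) .nil) .nil))))) 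
(.nd (nat_lit 8) (.nd (nat_lit 9) 
(.lf (nat_lit 477322) (.g (nat_lit 3108) (.e (nat_lit 1858) (nat_lit 124) (.e (nat_lit 557101) (nat_lit 13) (.e (nat_lit 172115) (nat_lit 10) (.e (nat_lit 434231) (nat_lit 23) (.e (nat_lit 532490) (nat_lit 0) (.e (nat_lit 6674) (nat_lit 357) (.e (nat_lit 2940) (nat_lit 184) (.e (nat_lit 433920) (nat_lit 15) .nil)))))))) (.g (nat_lit 1) (.e (nat_lit 102156) (nat_lit 0) .nil) .nil))) 
(.lf (nat_lit 477834) (.g (nat_lit 2564) (.e (nat_lit 2272) (nat_lit 149) (.e (nat_lit 761898) (nat_lit 15) (.e (nat_lit 163978) (nat_lit 30) (.e (nat_lit 573487) (nat_lit 14) (.e (nat_lit 73753) (nat_lit 8) (.e (nat_lit 557101) (nat_lit 13) (.e (nat_lit 172065) (nat_lit 3) (.e (nat_lit 204817) (nat_lit 17) .nil)))))))) (.g (nat_lit 1) (.e (nat_lit 103057) (nat_lit 0) .nil) .nil)))) 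
(.nd (nat_lit 9) 
(.lf (nat_lit 477578) (.g (nat_lit 4103) (.e (nat_lit 1860) (nat_lit 124) (.e (nat_lit 557100) (nat_lit 13) (.e (nat_lit 172113) (nat_lit 10) (.e (nat_lit 434245) (nat_lit 28) (.e (nat_lit 573471) (nat_lit 11) (.e (nat_lit 16434) (nat_lit 9) (.e (nat_lit 426354) (nat_lit 15) .nil))))))) (.g (nat_lit 1) (.e (nat_lit 102444) (nat_lit 0) .nil) .nil))) 
(.lf (nat_lit 478090) (.g (nat_lit 2589) (.e (nat_lit 2349) (nat_lit 151) (.e (nat_lit 778466) (nat_lit 11) (.e (nat_lit 24617) (nat_lit 7) (.e (nat_lit 319534) (nat_lit 16) (.e (nat_lit 286756) (nat_lit 10) (.e (nat_lit 344160) (nat_lit 37) (.e (nat_lit 647194) (nat_lit 9) (.e (nat_lit 991) (nat_lit 81) .nil)))))))) (.g (nat_lit 1) (.e (nat_lit 103461) (nat_lit 0) .nil) .nil)))))) 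
(.nd (nat_lit 7) (.nd (nat_lit 8) (.nd (nat_lit 9) 
(.lf (nat_lit 477258) (.g (nat_lit 2549) (.e (nat_lit 1856) (nat_lit 124) (.e (nat_lit 557107) (nat_lit 15) (.e (nat_lit 188450) (nat_lit 23) (.e (nat_lit 204821) (nat_lit 17) (.e (nat_lit 6674) (nat_lit 357) (.e (nat_lit 2936) (nat_lit 184) (.e (nat_lit 426419) (nat_lit 15) .nil))))))) (.g (nat_lit 1) (.e (nat_lit 102073) (nat_lit 0) .nil) .nil))) 
(.lf (nat_lit 477770) (.g (nat_lit 2053) (.e (nat_lit 1999) (nat_lit 137) (.e (nat_lit 663567) (nat_lit 4) (.e (nat_lit 65610) (nat_lit 10) (.e (nat_lit 344169) (nat_lit 40) (.e (nat_lit 671764) (nat_lit 6) (.e (nat_lit 81933) (nat_lit 20) .nil)))))) (.g (nat_lit 1) (.e (nat_lit 102802) (nat_lit 0) .nil) .nil)))) (.nd (nat_lit 9) 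
(.lf (nat_lit 477514) (.g (nat_lit 2455) (.e (nat_lit 1859) (nat_lit 124) (.e (nat_lit 557107) (nat_lit 15) (.e (nat_lit 188441) (nat_lit 20) (.e (nat_lit 3272) (nat_lit 199) (.e (nat_lit 548898) (nat_lit 14) (.e (nat_lit 3004) (nat_lit 186) (.e (nat_lit 450304) (nat_lit 0) .nil))))))) (.g (nat_lit 1) (.e (nat_lit 102380) (nat_lit 0) .nil) .nil))) 
(.lf (nat_lit 478026) (.g (nat_lit 5065) (.e (nat_lit 2332) (nat_lit 151) (.e (nat_lit 778466) (nat_lit 11) (.e (nat_lit 24617) (nat_lit 7) (.e (nat_lit 319534) (nat_lit 16) (.e (nat_lit 286756) (nat_lit 10) (.e (nat_lit 344160) (nat_lit 37) (.e (nat_lit 647195) (nat_lit 9) (.e (nat_lit 7936) (nat_lit 81) .nil)))))))) (.g (nat_lit 1) (.e (nat_lit 103376) (nat_lit 0) .nil) .nil))))) 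
(.nd (nat_lit 8) (.nd (nat_lit 9) 
(.lf (nat_lit 477386) (.g (nat_lit 3333) (.e (nat_lit 1858) (nat_lit 124) (.e (nat_lit 557105) (nat_lit 14) (.e (nat_lit 180252) (nat_lit 10) (.e (nat_lit 573482) (nat_lit 13) (.e (nat_lit 73472) (nat_lit 15) (.e (nat_lit 3253) (nat_lit 197) (.e (nat_lit 532504) (nat_lit 1) (.e (nat_lit 57852) (nat_lit 252) (.e (nat_lit 57355) (nat_lit 0) .nil))))))))) (.g (nat_lit 1) (.e (nat_lit 102239) (nat_lit 0) .nil) .nil))) 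
(.lf (nat_lit 477898) (.g (nat_lit 5460) (.e (nat_lit 2271) (nat_lit 149) (.e (nat_lit 761898) (nat_lit 15) (.e (nat_lit 163977) (nat_lit 30) (.e (nat_lit 573489) (nat_lit 14) (.e (nat_lit 73755) (nat_lit 8) (.e (nat_lit 557104) (nat_lit 14) (.e (nat_lit 180244) (nat_lit 5) (.e (nat_lit 532481) (nat_lit 0) .nil)))))))) (.g (nat_lit 1) (.e (nat_lit 103168) (nat_lit 0) .nil) .nil)))) 
(.nd (nat_lit 9) 
(.lf (nat_lit 477642) (.g (nat_lit 3579) (.e (nat_lit 1860) (nat_lit 124) (.e (nat_lit 557101) (nat_lit 13) (.e (nat_lit 172115) (nat_lit 10) (.e (nat_lit 434244) (nat_lit 28) (.e (nat_lit 573450) (nat_lit 9) (.e (nat_lit 455) (nat_lit 34) (.e (nat_lit 450304) (nat_lit 0) .nil))))))) (.g (nat_lit 1) (.e (nat_lit 102508) (nat_lit 0) .nil) .nil))) 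
(.lf (nat_lit 478154) (.g (nat_lit 1523) (.e (nat_lit 2031) (nat_lit 140) (.e (nat_lit 688177) (nat_lit 16) (.e (nat_lit 65617) (nat_lit 10) (.e (nat_lit 344096) (nat_lit 18) (.e (nat_lit 5110) (nat_lit 292) .nil))))) (.g (nat_lit 0) (.e (nat_lit 103857) (nat_lit 0) .nil) .nil))))))) (.nd (nat_lit 6) (.nd (nat_lit 7) (.nd (nat_lit 8) (.nd (nat_lit 9) 
(.lf (nat_lit 477226) (.g (nat_lit 1878) (.e (nat_lit 1856) (nat_lit 124) (.e (nat_lit 557100) (nat_lit 13) (.e (nat_lit 172106) (nat_lit 10) (.e (nat_lit 434244) (nat_lit 28) (.e (nat_lit 573471) (nat_lit 11) .nil))))) (.g (nat_lit 0) (.e (nat_lit 102037) (nat_lit 0) .nil) .nil))) 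
(.lf (nat_lit 477738) (.g (nat_lit 2289) (.e (nat_lit 1996) (nat_lit 137) (.e (nat_lit 663567) (nat_lit 4) (.e (nat_lit 65610) (nat_lit 10) (.e (nat_lit 344169) (nat_lit 40) (.e (nat_lit 671764) (nat_lit 6) (.e (nat_lit 81935) (nat_lit 20) .nil)))))) (.g (nat_lit 1) (.e (nat_lit 102768) (nat_lit 0) .nil) .nil)))) (.nd (nat_lit 9) 
(.lf (nat_lit 477482) (.g (nat_lit 3610) (.e (nat_lit 1859) (nat_lit 124) (.e (nat_lit 557098) (nat_lit 13) (.e (nat_lit 172115) (nat_lit 10) (.e (nat_lit 434244) (nat_lit 28) (.e (nat_lit 573468) (nat_lit 10) (.e (nat_lit 8525) (nat_lit 205) (.e (nat_lit 2857) (nat_lit 184) (.e (nat_lit 426402) (nat_lit 15) .nil)))))))) (.g (nat_lit 1) (.e (nat_lit 102347) (nat_lit 0) .nil) .nil))) 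
(.lf (nat_lit 477994) (.g (nat_lit 3538) (.e (nat_lit 2312) (nat_lit 151) (.e (nat_lit 778466) (nat_lit 11) (.e (nat_lit 24617) (nat_lit 7) (.e (nat_lit 319533) (nat_lit 16) (.e (nat_lit 286753) (nat_lit 10) .nil))))) (.g (nat_lit 0) (.e (nat_lit 103337) (nat_lit 0) .nil) .nil))))) (.nd (nat_lit 8) (.nd (nat_lit 9) 
(.lf (nat_lit 477354) (.g (nat_lit 3100) (.e (nat_lit 1858) (nat_lit 124) (.e (nat_lit 557101) (nat_lit 13) (.e (nat_lit 172115) (nat_lit 10) (.e (nat_lit 434244) (nat_lit 28) (.e (nat_lit 573450) (nat_lit 9) (.e (nat_lit 454) (nat_lit 34) (.e (nat_lit 450304) (nat_lit 0) .nil))))))) (.g (nat_lit 1) (.e (nat_lit 102188) (nat_lit 0) .nil) .nil))) 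
(.lf (nat_lit 477866) (.g (nat_lit 2305) (.e (nat_lit 2270) (nat_lit 149) (.e (nat_lit 761898) (nat_lit 15) (.e (nat_lit 163978) (nat_lit 30) (.e (nat_lit 573489) (nat_lit 14) (.e (nat_lit 73755) (nat_lit 8) (.e (nat_lit 557105) (nat_lit 14) (.e (nat_lit 180245) (nat_lit 5) (.e (nat_lit 532490) (nat_lit 0) .nil)))))))) (.g (nat_lit 1) (.e (nat_lit 103102) (nat_lit 0) .nil) .nil)))) 
(.nd (nat_lit 9) 
(.lf (nat_lit 477610) (.g (nat_lit 2426) (.e (nat_lit 1860) (nat_lit 124) (.e (nat_lit 557101) (nat_lit 13) (.e (nat_lit 172097) (nat_lit 9) (.e (nat_lit 426125) (nat_lit 2) (.e (nat_lit 196661) (nat_lit 12) (.e (nat_lit 57749) (nat_lit 201) (.e (nat_lit 2936) (nat_lit 184) (.e (nat_lit 433920) (nat_lit 15) .nil)))))))) (.g (nat_lit 1) (.e (nat_lit 102476) (nat_lit 0) .nil) .nil))) 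
(.lf (nat_lit 478122) (.g (nat_lit 1532) (.e (nat_lit 2390) (nat_lit 156) (.e (nat_lit 819204) (nat_lit 0) (.e (nat_lit 3027) (nat_lit 187) (.e (nat_lit 450584) (nat_lit 9) (.e (nat_lit 573184) (nat_lit 6) .nil))))) (.g (nat_lit 0) (.e (nat_lit 103726) (nat_lit 0) .nil) .nil)))))) (.nd (nat_lit 7) (.nd (nat_lit 8) (.nd (nat_lit 9) 
(.lf (nat_lit 477290) (.g (nat_lit 2419) (.e (nat_lit 1858) (nat_lit 124) (.e (nat_lit 557101) (nat_lit 13) (.e (nat_lit 172097) (nat_lit 9) (.e (nat_lit 426125) (nat_lit 2) (.e (nat_lit 196661) (nat_lit 12) (.e (nat_lit 57748) (nat_lit 201) (.e (nat_lit 2939) (nat_lit 184) (.e (nat_lit 433920) (nat_lit 15) .nil)))))))) (.g (nat_lit 1) (.e (nat_lit 102124) (nat_lit 0) .nil) .nil))) 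
(.lf (nat_lit 477802) (.g (nat_lit 2127) (.e (nat_lit 2003) (nat_lit 138) (.e (nat_lit 671763) (nat_lit 5) (.e (nat_lit 73781) (nat_lit 32) (.e (nat_lit 2857) (nat_lit 184) (.e (nat_lit 426542) (nat_lit 29) (.e (nat_lit 352290) (nat_lit 20) .nil)))))) (.g (nat_lit 1) (.e (nat_lit 102835) (nat_lit 0) .nil) .nil)))) (.nd (nat_lit 9) 
(.lf (nat_lit 477546) (.g (nat_lit 3409) (.e (nat_lit 1859) (nat_lit 124) (.e (nat_lit 557109) (nat_lit 15) (.e (nat_lit 188452) (nat_lit 23) (.e (nat_lit 204814) (nat_lit 17) (.e (nat_lit 6113) (nat_lit 332) .nil))))) (.g (nat_lit 0) (.e (nat_lit 102412) (nat_lit 0) .nil) .nil))) 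
(.lf (nat_lit 478058) (.g (nat_lit 1977) (.e (nat_lit 2346) (nat_lit 151) (.e (nat_lit 778466) (nat_lit 11) (.e (nat_lit 24584) (nat_lit 0) (.e (nat_lit 2357) (nat_lit 152) .nil)))) (.g (nat_lit 0) (.e (nat_lit 103410) (nat_lit 0) .nil) .nil))))) (.nd (nat_lit 8) (.nd (nat_lit 9) 
(.lf (nat_lit 477418) (.g (nat_lit 3807) (.e (nat_lit 1859) (nat_lit 124) (.e (nat_lit 557098) (nat_lit 13) (.e (nat_lit 172097) (nat_lit 9) (.e (nat_lit 426125) (nat_lit 2) (.e (nat_lit 196661) (nat_lit 12) (.e (nat_lit 57751) (nat_lit 201) (.e (nat_lit 2855) (nat_lit 184) (.e (nat_lit 426402) (nat_lit 15) .nil)))))))) (.g (nat_lit 1) (.e (nat_lit 102283) (nat_lit 0) .nil) .nil))) 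
(.lf (nat_lit 477930) (.g (nat_lit 1513) (.e (nat_lit 2283) (nat_lit 150) (.e (nat_lit 770071) (nat_lit 8) (.e (nat_lit 65583) (nat_lit 7) (.e (nat_lit 319530) (nat_lit 16) (.e (nat_lit 286751) (nat_lit 10) .nil))))) (.g (nat_lit 0) (.e (nat_lit 103238) (nat_lit 0) .nil) .nil)))) (.nd (nat_lit 9) 
(.lf (nat_lit 477674) (.g (nat_lit 3770) (.e (nat_lit 1860) (nat_lit 124) (.e (nat_lit 557108) (nat_lit 15) (.e (nat_lit 188452) (nat_lit 23) (.e (nat_lit 204885) (nat_lit 33) .nil)))) (.g (nat_lit 0) (.e (nat_lit 102540) (nat_lit 0) .nil) .nil))) 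
(.lf (nat_lit 478186) (.g (nat_lit 3943) (.e (nat_lit 2056) (nat_lit 142) (.e (nat_lit 704589) (nat_lit 3) (.e (nat_lit 163976) (nat_lit 30) (.e (nat_lit 573492) (nat_lit 15) (.e (nat_lit 81956) (nat_lit 23) (.e (nat_lit 98356) (nat_lit 26) (.e (nat_lit 426360) (nat_lit 15) .nil))))))) (.g (nat_lit 1) (.e (nat_lit 103963) (nat_lit 0) .nil) .nil)))))))) 
(.nd (nat_lit 5) (.nd (nat_lit 6) (.nd (nat_lit 7) (.nd (nat_lit 8) (.nd (nat_lit 9) 
(.lf (nat_lit 477210) (.g (nat_lit 1842) (.e (nat_lit 1856) (nat_lit 124) (.e (nat_lit 557098) (nat_lit 13) (.e (nat_lit 172115) (nat_lit 10) (.e (nat_lit 434231) (nat_lit 23) (.e (nat_lit 532481) (nat_lit 0) .nil))))) (.g (nat_lit 0) (.e (nat_lit 102016) (nat_lit 0) .nil) .nil))) 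
(.lf (nat_lit 477722) (.g (nat_lit 1779) (.e (nat_lit 1994) (nat_lit 137) (.e (nat_lit 663569) (nat_lit 6) (.e (nat_lit 81924) (nat_lit 0) (.e (nat_lit 3632) (nat_lit 227) (.e (nat_lit 778326) (nat_lit 6) (.e (nat_lit 81931) (nat_lit 20) .nil)))))) (.g (nat_lit 1) (.e (nat_lit 102747) (nat_lit 0) .nil) .nil)))) (.nd (nat_lit 9) 
(.lf (nat_lit 477466) (.g (nat_lit 4344) (.e (nat_lit 1859) (nat_lit 124) (.e (nat_lit 557098) (nat_lit 13) (.e (nat_lit 172115) (nat_lit 10) (.e (nat_lit 434244) (nat_lit 28) (.e (nat_lit 573450) (nat_lit 9) (.e (nat_lit 375) (nat_lit 32) (.e (nat_lit 426201) (nat_lit 9) (.e (nat_lit 426363) (nat_lit 15) .nil)))))))) (.g (nat_lit 1) (.e (nat_lit 102331) (nat_lit 0) .nil) .nil))) 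
(.lf (nat_lit 477978) (.g (nat_lit 1986) (.e (nat_lit 2309) (nat_lit 151) (.e (nat_lit 778465) (nat_lit 11) (.e (nat_lit 24617) (nat_lit 7) (.e (nat_lit 319534) (nat_lit 16) (.e (nat_lit 286756) (nat_lit 10) (.e (nat_lit 344160) (nat_lit 37) (.e (nat_lit 647190) (nat_lit 9) (.e (nat_lit 983) (nat_lit 81) .nil)))))))) (.g (nat_lit 1) (.e (nat_lit 103317) (nat_lit 0) .nil) .nil))))) 
(.nd (nat_lit 8) (.nd (nat_lit 9) 
(.lf (nat_lit 477338) (.g (nat_lit 3186) (.e (nat_lit 1858) (nat_lit 124) (.e (nat_lit 557101) (nat_lit 13) (.e (nat_lit 172115) (nat_lit 10) (.e (nat_lit 434238) (nat_lit 25) (.e (nat_lit 548898) (nat_lit 14) (.e (nat_lit 2988) (nat_lit 186) (.e (nat_lit 450304) (nat_lit 0) .nil))))))) (.g (nat_lit 1) (.e (nat_lit 102172) (nat_lit 0) .nil) .nil))) 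
(.lf (nat_lit 477850) (.g (nat_lit 3125) (.e (nat_lit 2270) (nat_lit 149) (.e (nat_lit 761898) (nat_lit 15) (.e (nat_lit 163978) (nat_lit 30) (.e (nat_lit 573487) (nat_lit 14) (.e (nat_lit 73753) (nat_lit 8) (.e (nat_lit 557098) (nat_lit 13) (.e (nat_lit 172067) (nat_lit 3) (.e (nat_lit 204814) (nat_lit 17) .nil)))))))) (.g (nat_lit 1) (.e (nat_lit 103086) (nat_lit 0) .nil) .nil)))) 
(.nd (nat_lit 9) 
(.lf (nat_lit 477594) (.g (nat_lit 4580) (.e (nat_lit 1860) (nat_lit 124) (.e (nat_lit 557100) (nat_lit 13) (.e (nat_lit 172113) (nat_lit 10) (.e (nat_lit 434248) (nat_lit 28) (.e (nat_lit 573469) (nat_lit 11) (.e (nat_lit 16436) (nat_lit 9) (.e (nat_lit 426354) (nat_lit 15) .nil))))))) (.g (nat_lit 1) (.e (nat_lit 102460) (nat_lit 0) .nil) .nil))) 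
(.lf (nat_lit 478106) (.g (nat_lit 911) (.e (nat_lit 2384) (nat_lit 155) (.e (nat_lit 811011) (nat_lit 0) (.e (nat_lit 5779) (nat_lit 317) (.e (nat_lit 180241) (nat_lit 4) (.e (nat_lit 524340) (nat_lit 28) (.e (nat_lit 352286) (nat_lit 20) .nil)))))) (.g (nat_lit 1) (.e (nat_lit 103664) (nat_lit 0) .nil) .nil)))))) (.nd (nat_lit 7) (.nd (nat_lit 8) (.nd (nat_lit 9) 
(.lf (nat_lit 477274) (.g (nat_lit 4121) (.e (nat_lit 1857) (nat_lit 124) (.e (nat_lit 557105) (nat_lit 14) (.e (nat_lit 180252) (nat_lit 10) (.e (nat_lit 573482) (nat_lit 13) (.e (nat_lit 65636) (nat_lit 15) .nil))))) (.g (nat_lit 0) (.e (nat_lit 102089) (nat_lit 0) .nil) .nil))) 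
(.lf (nat_lit 477786) (.g (nat_lit 1632) (.e (nat_lit 1999) (nat_lit 137) (.e (nat_lit 663567) (nat_lit 4) (.e (nat_lit 65624) (nat_lit 12) (.e (nat_lit 385093) (nat_lit 49) (.e (nat_lit 778327) (nat_lit 6) .nil))))) (.g (nat_lit 0) (.e (nat_lit 102818) (nat_lit 0) .nil) .nil)))) (.nd (nat_lit 9) 
(.lf (nat_lit 477530) (.g (nat_lit 3983) (.e (nat_lit 1859) (nat_lit 124) (.e (nat_lit 557109) (nat_lit 15) (.e (nat_lit 188449) (nat_lit 22) (.e (nat_lit 196617) (nat_lit 9) .nil)))) (.g (nat_lit 0) (.e (nat_lit 102396) (nat_lit 0) .nil) .nil))) 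
(.lf (nat_lit 478042) (.g (nat_lit 3213) (.e (nat_lit 2342) (nat_lit 151) (.e (nat_lit 778466) (nat_lit 11) (.e (nat_lit 24617) (nat_lit 7) (.e (nat_lit 319533) (nat_lit 16) (.e (nat_lit 286753) (nat_lit 10) (.e (nat_lit 344160) (nat_lit 37) (.e (nat_lit 647195) (nat_lit 9) (.e (nat_lit 1042) (nat_lit 81) .nil)))))))) (.g (nat_lit 1) (.e (nat_lit 103392) (nat_lit 0) .nil) .nil))))) 
(.nd (nat_lit 8) (.nd (nat_lit 9) 
(.lf (nat_lit 477402) (.g (nat_lit 3993) (.e (nat_lit 1859) (nat_lit 124) (.e (nat_lit 557087) (nat_lit 11) (.e (nat_lit 24662) (nat_lit 14) (.e (nat_lit 401423) (nat_lit 2) .nil)))) (.g (nat_lit 0) (.e (nat_lit 102263) (nat_lit 0) .nil) .nil))) 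
(.lf (nat_lit 477914) (.g (nat_lit 2776) (.e (nat_lit 2276) (nat_lit 150) (.e (nat_lit 770071) (nat_lit 8) (.e (nat_lit 65628) (nat_lit 14) (.e (nat_lit 401454) (nat_lit 12) (.e (nat_lit 475212) (nat_lit 42) .nil))))) (.g (nat_lit 0) (.e (nat_lit 103206) (nat_lit 0) .nil) .nil)))) (.nd (nat_lit 9) 
(.lf (nat_lit 477658) (.g (nat_lit 2299) (.e (nat_lit 1860) (nat_lit 124) (.e (nat_lit 557101) (nat_lit 13) (.e (nat_lit 172115) (nat_lit 10) (.e (nat_lit 434244) (nat_lit 28) (.e (nat_lit 573458) (nat_lit 9) (.e (nat_lit 7936) (nat_lit 32) (.e (nat_lit 426234) (nat_lit 9) (.e (nat_lit 426353) (nat_lit 15) .nil)))))))) (.g (nat_lit 1) (.e (nat_lit 102524) (nat_lit 0) .nil) .nil))) 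
(.lf (nat_lit 478170) (.g (nat_lit 3405) (.e (nat_lit 2056) (nat_lit 142) (.e (nat_lit 704589) (nat_lit 3) (.e (nat_lit 163975) (nat_lit 30) (.e (nat_lit 573491) (nat_lit 15) (.e (nat_lit 81954) (nat_lit 23) (.e (nat_lit 98356) (nat_lit 26) (.e (nat_lit 426363) (nat_lit 15) .nil))))))) (.g (nat_lit 1) (.e (nat_lit 103946) (nat_lit 0) .nil) .nil))))))) 
(.nd (nat_lit 6) (.nd (nat_lit 7) (.nd (nat_lit 8) (.nd (nat_lit 9) 
(.lf (nat_lit 477242) (.g (nat_lit 1521) (.e (nat_lit 1856) (nat_lit 124) (.e (nat_lit 557101) (nat_lit 13) (.e (nat_lit 172115) (nat_lit 10) (.e (nat_lit 434231) (nat_lit 23) (.e (nat_lit 532482) (nat_lit 0) .nil))))) (.g (nat_lit 0) (.e (nat_lit 102054) (nat_lit 0) .nil) .nil))) 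
(.lf (nat_lit 477754) (.g (nat_lit 1939) (.e (nat_lit 1996) (nat_lit 137) (.e (nat_lit 663567) (nat_lit 4) (.e (nat_lit 65630) (nat_lit 14) (.e (nat_lit 401458) (nat_lit 13) (.e (nat_lit 483386) (nat_lit 23) .nil))))) (.g (nat_lit 0) (.e (nat_lit 102784) (nat_lit 0) .nil) .nil)))) (.nd (nat_lit 9) 
(.lf (nat_lit 477498) (.g (nat_lit 1732) (.e (nat_lit 1859) (nat_lit 124) (.e (nat_lit 557107) (nat_lit 15) (.e (nat_lit 188439) (nat_lit 20) (.e (nat_lit 3272) (nat_lit 199) (.e (nat_lit 548898) (nat_lit 14) (.e (nat_lit 2989) (nat_lit 186) (.e (nat_lit 450304) (nat_lit 0) .nil))))))) (.g (nat_lit 1) (.e (nat_lit 102364) (nat_lit 0) .nil) .nil))) 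
(.lf (nat_lit 478010) (.g (nat_lit 2745) (.e (nat_lit 2350) (nat_lit 151) (.e (nat_lit 778464) (nat_lit 11) (.e (nat_lit 24617) (nat_lit 7) (.e (nat_lit 319534) (nat_lit 16) (.e (nat_lit 286756) (nat_lit 10) (.e (nat_lit 344160) (nat_lit 37) (.e (nat_lit 647190) (nat_lit 9) (.e (nat_lit 1007) (nat_lit 81) .nil)))))))) (.g (nat_lit 1) (.e (nat_lit 103355) (nat_lit 0) .nil) .nil))))) 
(.nd (nat_lit 8) (.nd (nat_lit 9) 
(.lf (nat_lit 477370) (.g (nat_lit 1934) (.e (nat_lit 1858) (nat_lit 124) (.e (nat_lit 557105) (nat_lit 14) (.e (nat_lit 180252) (nat_lit 10) (.e (nat_lit 573474) (nat_lit 12) .nil)))) (.g (nat_lit 0) (.e (nat_lit 102215) (nat_lit 0) .nil) .nil))) 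
(.lf (nat_lit 477882) (.g (nat_lit 3980) (.e (nat_lit 2270) (nat_lit 149) (.e (nat_lit 761899) (nat_lit 15) (.e (nat_lit 163977) (nat_lit 30) (.e (nat_lit 573489) (nat_lit 14) (.e (nat_lit 73755) (nat_lit 8) (.e (nat_lit 557097) (nat_lit 13) (.e (nat_lit 172067) (nat_lit 3) (.e (nat_lit 204814) (nat_lit 17) .nil)))))))) (.g (nat_lit 1) (.e (nat_lit 103118) (nat_lit 0) .nil) .nil)))) 
(.nd (nat_lit 9) 
(.lf (nat_lit 477626) (.g (nat_lit 2807) (.e (nat_lit 1860) (nat_lit 124) (.e (nat_lit 557101) (nat_lit 13) (.e (nat_lit 172115) (nat_lit 10) (.e (nat_lit 434238) (nat_lit 25) (.e (nat_lit 548897) (nat_lit 14) (.e (nat_lit 3004) (nat_lit 186) (.e (nat_lit 450304) (nat_lit 0) .nil))))))) (.g (nat_lit 1) (.e (nat_lit 102492) (nat_lit 0) .nil) .nil))) 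
(.lf (nat_lit 478138) (.g (nat_lit 2128) (.e (nat_lit 2391) (nat_lit 156) (.e (nat_lit 819219) (nat_lit 4) (.e (nat_lit 172079) (nat_lit 7) (.e (nat_lit 409617) (nat_lit 10) (.e (nat_lit 632) (nat_lit 50) (.e (nat_lit 573491) (nat_lit 15) (.e (nat_lit 81943) (nat_lit 20) .nil))))))) (.g (nat_lit 1) (.e (nat_lit 103820) (nat_lit 0) .nil) .nil)))))) 
(.nd (nat_lit 7) (.nd (nat_lit 8) (.nd (nat_lit 9) 
(.lf (nat_lit 477306) (.g (nat_lit 1927) (.e (nat_lit 1858) (nat_lit 124) (.e (nat_lit 557101) (nat_lit 13) (.e (nat_lit 172097) (nat_lit 9) (.e (nat_lit 426140) (nat_lit 3) (.e (nat_lit 204821) (nat_lit 17) (.e (nat_lit 6674) (nat_lit 357) (.e (nat_lit 2936) (nat_lit 184) (.e (nat_lit 433920) (nat_lit 15) .nil)))))))) (.g (nat_lit 1) (.e (nat_lit 102140) (nat_lit 0) .nil) .nil))) 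
(.lf (nat_lit 477818) (.g (nat_lit 1188) (.e (nat_lit 2006) (nat_lit 138) (.e (nat_lit 671762) (nat_lit 4) (.e (nat_lit 65617) (nat_lit 10) (.e (nat_lit 344167) (nat_lit 40) .nil)))) (.g (nat_lit 0) (.e (nat_lit 102856) (nat_lit 0) .nil) .nil)))) (.nd (nat_lit 9) 
(.lf (nat_lit 477562) (.g (nat_lit 4679) (.e (nat_lit 1860) (nat_lit 124) (.e (nat_lit 557100) (nat_lit 13) (.e (nat_lit 172113) (nat_lit 10) (.e (nat_lit 434245) (nat_lit 28) (.e (nat_lit 573469) (nat_lit 11) (.e (nat_lit 16436) (nat_lit 9) (.e (nat_lit 426354) (nat_lit 15) .nil))))))) (.g (nat_lit 1) (.e (nat_lit 102428) (nat_lit 0) .nil) .nil))) 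
(.lf (nat_lit 478074) (.g (nat_lit 3010) (.e (nat_lit 2347) (nat_lit 151) (.e (nat_lit 778466) (nat_lit 11) (.e (nat_lit 24617) (nat_lit 7) (.e (nat_lit 319533) (nat_lit 16) (.e (nat_lit 286753) (nat_lit 10) (.e (nat_lit 344160) (nat_lit 37) (.e (nat_lit 647190) (nat_lit 9) (.e (nat_lit 985) (nat_lit 81) .nil)))))))) (.g (nat_lit 1) (.e (nat_lit 103444) (nat_lit 0) .nil) .nil))))) 
(.nd (nat_lit 8) (.nd (nat_lit 9) 
(.lf (nat_lit 477434) (.g (nat_lit 2306) (.e (nat_lit 1859) (nat_lit 124) (.e (nat_lit 557098) (nat_lit 13) (.e (nat_lit 172115) (nat_lit 10) (.e (nat_lit 434231) (nat_lit 23) (.e (nat_lit 532486) (nat_lit 0) .nil))))) (.g (nat_lit 0) (.e (nat_lit 102299) (nat_lit 0) .nil) .nil))) 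
(.lf (nat_lit 477946) (.g (nat_lit 2396) (.e (nat_lit 2283) (nat_lit 150) (.e (nat_lit 770072) (nat_lit 8) (.e (nat_lit 65583) (nat_lit 7) (.e (nat_lit 319533) (nat_lit 16) (.e (nat_lit 286753) (nat_lit 10) .nil))))) (.g (nat_lit 0) (.e (nat_lit 103267) (nat_lit 0) .nil) .nil)))) (.nd (nat_lit 9) 
(.lf (nat_lit 477690) (.g (nat_lit 1015) (.e (nat_lit 1963) (nat_lit 134) (.e (nat_lit 639001) (nat_lit 10) (.e (nat_lit 188441) (nat_lit 20) (.e (nat_lit 3391) (nat_lit 210) (.e (nat_lit 639023) (nat_lit 18) (.e (nat_lit 81942) (nat_lit 20) .nil)))))) (.g (nat_lit 1) (.e (nat_lit 102696) (nat_lit 0) .nil) .nil))) 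
(.lf (nat_lit 478202) (.g (nat_lit 3605) (.e (nat_lit 2056) (nat_lit 142) (.e (nat_lit 704589) (nat_lit 3) (.e (nat_lit 163979) (nat_lit 30) (.e (nat_lit 573493) (nat_lit 15) (.e (nat_lit 81956) (nat_lit 23) (.e (nat_lit 98355) (nat_lit 26) (.e (nat_lit 426376) (nat_lit 15) .nil))))))) (.g (nat_lit 1) (.e (nat_lit 103979) (nat_lit 0) .nil) .nil)))))))))) 
(.nd (nat_lit 3) (.nd (nat_lit 4) (.nd (nat_lit 5) (.nd (nat_lit 6) (.nd (nat_lit 7) 
(.nd (nat_lit 8) (.nd (nat_lit 9) 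
(.lf (nat_lit 477190) (.g (nat_lit 4912) (.e (nat_lit 1855) (nat_lit 124) (.e (nat_lit 557109) (nat_lit 15) (.e (nat_lit 188450) (nat_lit 23) (.e (nat_lit 204880) (nat_lit 32) (.e (nat_lit 385104) (nat_lit 50) .nil))))) (.g (nat_lit 0) (.e (nat_lit 101946) (nat_lit 0) .nil) .nil))) 
(.lf (nat_lit 477702) (.g (nat_lit 2482) (.e (nat_lit 1994) (nat_lit 137) (.e (nat_lit 663567) (nat_lit 4) (.e (nat_lit 65617) (nat_lit 10) (.e (nat_lit 344169) (nat_lit 40) (.e (nat_lit 671764) (nat_lit 6) (.e (nat_lit 81931) (nat_lit 20) .nil)))))) (.g (nat_lit 1) (.e (nat_lit 102727) (nat_lit 0) .nil) .nil)))) (.nd (nat_lit 9) 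
(.lf (nat_lit 477446) (.g (nat_lit 2808) (.e (nat_lit 1859) (nat_lit 124) (.e (nat_lit 557098) (nat_lit 13) (.e (nat_lit 172115) (nat_lit 10) (.e (nat_lit 434238) (nat_lit 25) (.e (nat_lit 548896) (nat_lit 14) (.e (nat_lit 3004) (nat_lit 186) (.e (nat_lit 450304) (nat_lit 0) .nil))))))) (.g (nat_lit 1) (.e (nat_lit 102311) (nat_lit 0) .nil) .nil))) 
(.lf (nat_lit 477958) (.g (nat_lit 3559) (.e (nat_lit 2304) (nat_lit 151) (.e (nat_lit 778466) (nat_lit 11) (.e (nat_lit 24617) (nat_lit 7) (.e (nat_lit 319533) (nat_lit 16) (.e (nat_lit 286753) (nat_lit 10) .nil))))) (.g (nat_lit 0) (.e (nat_lit 103292) (nat_lit 0) .nil) .nil))))) (.nd (nat_lit 8) (.nd (nat_lit 9) 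
(.lf (nat_lit 477318) (.g (nat_lit 3329) (.e (nat_lit 1858) (nat_lit 124) (.e (nat_lit 557101) (nat_lit 13) (.e (nat_lit 172115) (nat_lit 10) (.e (nat_lit 434231) (nat_lit 23) (.e (nat_lit 532481) (nat_lit 0) (.e (nat_lit 6684) (nat_lit 357) (.e (nat_lit 2856) (nat_lit 184) (.e (nat_lit 426402) (nat_lit 15) .nil)))))))) (.g (nat_lit 1) (.e (nat_lit 102152) (nat_lit 0) .nil) .nil))) 
(.lf (nat_lit 477830) (.g (nat_lit 3838) (.e (nat_lit 2264) (nat_lit 149) (.e (nat_lit 761899) (nat_lit 15) (.e (nat_lit 163979) (nat_lit 30) (.e (nat_lit 573489) (nat_lit 14) (.e (nat_lit 73755) (nat_lit 8) (.e (nat_lit 557097) (nat_lit 13) (.e (nat_lit 172067) (nat_lit 3) (.e (nat_lit 204821) (nat_lit 17) .nil)))))))) (.g (nat_lit 1) (.e (nat_lit 102929) (nat_lit 0) .nil) .nil)))) 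
(.nd (nat_lit 9) 
(.lf (nat_lit 477574) (.g (nat_lit 4881) (.e (nat_lit 1860) (nat_lit 124) (.e (nat_lit 557100) (nat_lit 13) (.e (nat_lit 172113) (nat_lit 10) (.e (nat_lit 434245) (nat_lit 28) (.e (nat_lit 573471) (nat_lit 11) (.e (nat_lit 16433) (nat_lit 9) (.e (nat_lit 426350) (nat_lit 15) .nil))))))) (.g (nat_lit 1) (.e (nat_lit 102440) (nat_lit 0) .nil) .nil))) 
(.lf (nat_lit 478086) (.g (nat_lit 2306) (.e (nat_lit 2349) (nat_lit 151) (.e (nat_lit 778466) (nat_lit 11) (.e (nat_lit 24617) (nat_lit 7) (.e (nat_lit 319533) (nat_lit 16) .nil)))) (.g (nat_lit 0) (.e (nat_lit 103457) (nat_lit 0) .nil) .nil)))))) (.nd (nat_lit 7) (.nd (nat_lit 8) (.nd (nat_lit 9) 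
(.lf (nat_lit 477254) (.g (nat_lit 613) (.e (nat_lit 1856) (nat_lit 124) (.e (nat_lit 557107) (nat_lit 15) (.e (nat_lit 188434) (nat_lit 20) .nil))) (.g (nat_lit 0) (.e (nat_lit 102069) (nat_lit 0) .nil) .nil))) 
(.lf (nat_lit 477766) (.g (nat_lit 2537) (.e (nat_lit 1996) (nat_lit 137) (.e (nat_lit 663569) (nat_lit 6) (.e (nat_lit 81959) (nat_lit 24) (.e (nat_lit 123182) (nat_lit 264) (.e (nat_lit 7936) (nat_lit 90) .nil))))) (.g (nat_lit 0) (.e (nat_lit 102796) (nat_lit 0) .nil) .nil)))) (.nd (nat_lit 9) 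
(.lf (nat_lit 477510) (.g (nat_lit 2021) (.e (nat_lit 1859) (nat_lit 124) (.e (nat_lit 557107) (nat_lit 15) (.e (nat_lit 188441) (nat_lit 20) (.e (nat_lit 3272) (nat_lit 199) (.e (nat_lit 548897) (nat_lit 14) (.e (nat_lit 3004) (nat_lit 186) (.e (nat_lit 450304) (nat_lit 0) .nil))))))) (.g (nat_lit 1) (.e (nat_lit 102376) (nat_lit 0) .nil) .nil))) 
(.lf (nat_lit 478022) (.g (nat_lit 3436) (.e (nat_lit 2332) (nat_lit 151) (.e (nat_lit 778466) (nat_lit 11) (.e (nat_lit 24617) (nat_lit 7) (.e (nat_lit 319533) (nat_lit 16) (.e (nat_lit 286753) (nat_lit 10) .nil))))) (.g (nat_lit 0) (.e (nat_lit 103372) (nat_lit 0) .nil) .nil))))) (.nd (nat_lit 8) (.nd (nat_lit 9) 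
(.lf (nat_lit 477382) (.g (nat_lit 3563) (.e (nat_lit 1858) (nat_lit 124) (.e (nat_lit 557105) (nat_lit 14) (.e (nat_lit 180252) (nat_lit 10) (.e (nat_lit 573482) (nat_lit 13) (.e (nat_lit 65637) (nat_lit 15) (.e (nat_lit 3253) (nat_lit 197) (.e (nat_lit 532503) (nat_lit 1) (.e (nat_lit 57848) (nat_lit 252) (.e (nat_lit 57355) (nat_lit 0) .nil))))))))) (.g (nat_lit 1) (.e (nat_lit 102235) (nat_lit 0) .nil) .nil))) 
(.lf (nat_lit 477894) (.g (nat_lit 3449) (.e (nat_lit 2270) (nat_lit 149) (.e (nat_lit 761906) (nat_lit 16) (.e (nat_lit 172086) (nat_lit 9) (.e (nat_lit 426482) (nat_lit 27) (.e (nat_lit 336060) (nat_lit 7) (.e (nat_lit 319534) (nat_lit 16) (.e (nat_lit 286728) (nat_lit 0) .nil))))))) (.g (nat_lit 1) (.e (nat_lit 103149) (nat_lit 0) .nil) .nil)))) (.nd (nat_lit 9) 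
(.lf (nat_lit 477638) (.g (nat_lit 3519) (.e (nat_lit 1860) (nat_lit 124) (.e (nat_lit 557101) (nat_lit 13) (.e (nat_lit 172115) (nat_lit 10) (.e (nat_lit 434244) (nat_lit 28) (.e (nat_lit 573449) (nat_lit 9) (.e (nat_lit 481) (nat_lit 37) (.e (nat_lit 474880) (nat_lit 0) .nil))))))) (.g (nat_lit 1) (.e (nat_lit 102504) (nat_lit 0) .nil) .nil))) 
(.lf (nat_lit 478150) (.g (nat_lit 1636) (.e (nat_lit 2030) (nat_lit 140) (.e (nat_lit 688186) (nat_lit 18) (.e (nat_lit 89856) (nat_lit 0) (.e (nat_lit 3605) (nat_lit 225) (.e (nat_lit 761912) (nat_lit 18) (.e (nat_lit 196352) (nat_lit 0) .nil)))))) (.g (nat_lit 1) (.e (nat_lit 103850) (nat_lit 0) .nil) .nil))))))) (.nd (nat_lit 6) (.nd (nat_lit 7) (.nd (nat_lit 8) (.nd (nat_lit 9) 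
(.lf (nat_lit 477222) (.g (nat_lit 3433) (.e (nat_lit 1856) (nat_lit 124) (.e (nat_lit 557100) (nat_lit 13) (.e (nat_lit 172106) (nat_lit 10) (.e (nat_lit 434244) (nat_lit 28) (.e (nat_lit 573448) (nat_lit 9) (.e (nat_lit 459) (nat_lit 34) (.e (nat_lit 442379) (nat_lit 0) .nil))))))) (.g (nat_lit 1) (.e (nat_lit 102033) (nat_lit 0) .nil) .nil))) 
(.lf (nat_lit 477734) (.g (nat_lit 1271) (.e (nat_lit 1996) (nat_lit 137) (.e (nat_lit 663567) (nat_lit 4) (.e (nat_lit 65593) (nat_lit 9) (.e (nat_lit 335907) (nat_lit 0) (.e (nat_lit 1996) (nat_lit 137) .nil))))) (.g (nat_lit 0) (.e (nat_lit 102764) (nat_lit 0) .nil) .nil)))) (.nd (nat_lit 9) 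
(.lf (nat_lit 477478) (.g (nat_lit 4806) (.e (nat_lit 1859) (nat_lit 124) (.e (nat_lit 557098) (nat_lit 13) (.e (nat_lit 172115) (nat_lit 10) (.e (nat_lit 434244) (nat_lit 28) (.e (nat_lit 573458) (nat_lit 9) (.e (nat_lit 426) (nat_lit 32) (.e (nat_lit 426190) (nat_lit 9) (.e (nat_lit 426402) (nat_lit 15) .nil)))))))) (.g (nat_lit 1) (.e (nat_lit 102343) (nat_lit 0) .nil) .nil))) 
(.lf (nat_lit 477990) (.g (nat_lit 2353) (.e (nat_lit 2310) (nat_lit 151) (.e (nat_lit 778466) (nat_lit 11) (.e (nat_lit 24617) (nat_lit 7) (.e (nat_lit 319534) (nat_lit 16) (.e (nat_lit 286756) (nat_lit 10) (.e (nat_lit 344160) (nat_lit 37) (.e (nat_lit 647192) (nat_lit 9) (.e (nat_lit 991) (nat_lit 81) .nil)))))))) (.g (nat_lit 1) (.e (nat_lit 103333) (nat_lit 0) .nil) .nil))))) 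
(.nd (nat_lit 8) (.nd (nat_lit 9) 
(.lf (nat_lit 477350) (.g (nat_lit 4032) (.e (nat_lit 1858) (nat_lit 124) (.e (nat_lit 557101) (nat_lit 13) (.e (nat_lit 172115) (nat_lit 10) (.e (nat_lit 434244) (nat_lit 28) (.e (nat_lit 573450) (nat_lit 9) (.e (nat_lit 375) (nat_lit 32) (.e (nat_lit 426201) (nat_lit 9) (.e (nat_lit 426399) (nat_lit 15) .nil)))))))) (.g (nat_lit 1) (.e (nat_lit 102184) (nat_lit 0) .nil) .nil))) 
(.lf (nat_lit 477862) (.g (nat_lit 4639) (.e (nat_lit 2270) (nat_lit 149) (.e (nat_lit 761898) (nat_lit 15) (.e (nat_lit 163978) (nat_lit 30) (.e (nat_lit 573489) (nat_lit 14) (.e (nat_lit 73755) (nat_lit 8) (.e (nat_lit 557098) (nat_lit 13) (.e (nat_lit 172065) (nat_lit 3) (.e (nat_lit 204821) (nat_lit 17) .nil)))))))) (.g (nat_lit 1) (.e (nat_lit 103098) (nat_lit 0) .nil) .nil)))) 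
(.nd (nat_lit 9) 
(.lf (nat_lit 477606) (.g (nat_lit 2755) (.e (nat_lit 1860) (nat_lit 124) (.e (nat_lit 557101) (nat_lit 13) (.e (nat_lit 172097) (nat_lit 9) (.e (nat_lit 426125) (nat_lit 2) (.e (nat_lit 196661) (nat_lit 12) (.e (nat_lit 57748) (nat_lit 201) (.e (nat_lit 2940) (nat_lit 184) (.e (nat_lit 426353) (nat_lit 15) .nil)))))))) (.g (nat_lit 1) (.e (nat_lit 102472) (nat_lit 0) .nil) .nil))) 
(.lf (nat_lit 478118) (.g (nat_lit 1849) (.e (nat_lit 2390) (nat_lit 156) (.e (nat_lit 819204) (nat_lit 0) (.e (nat_lit 3015) (nat_lit 187) (.e (nat_lit 450584) (nat_lit 9) (.e (nat_lit 573184) (nat_lit 6) .nil))))) (.g (nat_lit 0) (.e (nat_lit 103710) (nat_lit 0) .nil) .nil)))))) (.nd (nat_lit 7) (.nd (nat_lit 8) (.nd (nat_lit 9) 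
(.lf (nat_lit 477286) (.g (nat_lit 2466) (.e (nat_lit 1858) (nat_lit 124) (.e (nat_lit 557100) (nat_lit 13) (.e (nat_lit 172106) (nat_lit 10) (.e (nat_lit 434231) (nat_lit 23) (.e (nat_lit 532483) (nat_lit 0) (.e (nat_lit 6684) (nat_lit 357) (.e (nat_lit 2855) (nat_lit 184) (.e (nat_lit 426402) (nat_lit 15) .nil)))))))) (.g (nat_lit 1) (.e (nat_lit 102120) (nat_lit 0) .nil) .nil))) 
(.lf (nat_lit 477798) (.g (nat_lit 2072) (.e (nat_lit 2003) (nat_lit 138) (.e (nat_lit 671759) (nat_lit 3) (.e (nat_lit 57479) (nat_lit 28) (.e (nat_lit 557099) (nat_lit 13) .nil)))) (.g (nat_lit 0) (.e (nat_lit 102831) (nat_lit 0) .nil) .nil)))) (.nd (nat_lit 9) 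
(.lf (nat_lit 477542) (.g (nat_lit 2209) (.e (nat_lit 1859) (nat_lit 124) (.e (nat_lit 557109) (nat_lit 15) (.e (nat_lit 188450) (nat_lit 23) (.e (nat_lit 204863) (nat_lit 27) .nil)))) (.g (nat_lit 0) (.e (nat_lit 102408) (nat_lit 0) .nil) .nil))) 
(.lf (nat_lit 478054) (.g (nat_lit 2395) (.e (nat_lit 2343) (nat_lit 151) (.e (nat_lit 778466) (nat_lit 11) (.e (nat_lit 24617) (nat_lit 7) (.e (nat_lit 319534) (nat_lit 16) (.e (nat_lit 286756) (nat_lit 10) (.e (nat_lit 344160) (nat_lit 37) (.e (nat_lit 647190) (nat_lit 9) (.e (nat_lit 1002) (nat_lit 81) .nil)))))))) (.g (nat_lit 1) (.e (nat_lit 103406) (nat_lit 0) .nil) .nil))))) 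
(.nd (nat_lit 8) (.nd (nat_lit 9) 
(.lf (nat_lit 477414) (.g (nat_lit 2001) (.e (nat_lit 1859) (nat_lit 124) (.e (nat_lit 557098) (nat_lit 13) (.e (nat_lit 172097) (nat_lit 9) (.e (nat_lit 426125) (nat_lit 2) (.e (nat_lit 196661) (nat_lit 12) (.e (nat_lit 57749) (nat_lit 201) (.e (nat_lit 2941) (nat_lit 184) (.e (nat_lit 433920) (nat_lit 15) .nil)))))))) (.g (nat_lit 1) (.e (nat_lit 102279) (nat_lit 0) .nil) .nil))) 
(.lf (nat_lit 477926) (.g (nat_lit 1778) (.e (nat_lit 2281) (nat_lit 150) (.e (nat_lit 770072) (nat_lit 8) (.e (nat_lit 65619) (nat_lit 10) (.e (nat_lit 344097) (nat_lit 18) (.e (nat_lit 7160) (nat_lit 382) .nil))))) (.g (nat_lit 0) (.e (nat_lit 103229) (nat_lit 0) .nil) .nil)))) (.nd (nat_lit 9) 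
(.lf (nat_lit 477670) (.g (nat_lit 3004) (.e (nat_lit 1860) (nat_lit 124) (.e (nat_lit 557105) (nat_lit 14) (.e (nat_lit 180252) (nat_lit 10) (.e (nat_lit 573482) (nat_lit 13) (.e (nat_lit 73472) (nat_lit 18) .nil))))) (.g (nat_lit 0) (.e (nat_lit 102536) (nat_lit 0) .nil) .nil))) 
(.lf (nat_lit 478182) (.g (nat_lit 1822) (.e (nat_lit 2056) (nat_lit 142) (.e (nat_lit 704589) (nat_lit 3) (.e (nat_lit 163976) (nat_lit 30) (.e (nat_lit 573491) (nat_lit 15) (.e (nat_lit 81954) (nat_lit 23) (.e (nat_lit 98355) (nat_lit 26) (.e (nat_lit 426376) (nat_lit 15) .nil))))))) (.g (nat_lit 1) (.e (nat_lit 103959) (nat_lit 0) .nil) .nil)))))))) 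
(.nd (nat_lit 5) (.nd (nat_lit 6) (.nd (nat_lit 7) (.nd (nat_lit 8) (.nd (nat_lit 9) 
(.lf (nat_lit 477206) (.g (nat_lit 1323) (.e (nat_lit 1856) (nat_lit 124) (.e (nat_lit 557098) (nat_lit 13) (.e (nat_lit 172097) (nat_lit 9) (.e (nat_lit 426125) (nat_lit 2) .nil)))) (.g (nat_lit 0) (.e (nat_lit 102012) (nat_lit 0) .nil) .nil))) 
(.lf (nat_lit 477718) (.g (nat_lit 717) (.e (nat_lit 1994) (nat_lit 137) (.e (nat_lit 663569) (nat_lit 6) (.e (nat_lit 81922) (nat_lit 0) (.e (nat_lit 3629) (nat_lit 227) .nil)))) (.g (nat_lit 0) (.e (nat_lit 102743) (nat_lit 0) .nil) .nil)))) (.nd (nat_lit 9) 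
(.lf (nat_lit 477462) (.g (nat_lit 2158) (.e (nat_lit 1859) (nat_lit 124) (.e (nat_lit 557098) (nat_lit 13) (.e (nat_lit 172115) (nat_lit 10) (.e (nat_lit 434244) (nat_lit 28) (.e (nat_lit 573449) (nat_lit 9) (.e (nat_lit 396) (nat_lit 32) (.e (nat_lit 426198) (nat_lit 9) (.e (nat_lit 426402) (nat_lit 15) .nil)))))))) (.g (nat_lit 1) (.e (nat_lit 102327) (nat_lit 0) .nil) .nil))) 
(.lf (nat_lit 477974) (.g (nat_lit 3435) (.e (nat_lit 2308) (nat_lit 151) (.e (nat_lit 778466) (nat_lit 11) (.e (nat_lit 24617) (nat_lit 7) (.e (nat_lit 319533) (nat_lit 16) (.e (nat_lit 286753) (nat_lit 10) (.e (nat_lit 344160) (nat_lit 37) (.e (nat_lit 647196) (nat_lit 9) (.e (nat_lit 991) (nat_lit 81) .nil)))))))) (.g (nat_lit 1) (.e (nat_lit 103312) (nat_lit 0) .nil) .nil))))) 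
(.nd (nat_lit 8) (.nd (nat_lit 9) 
(.lf (nat_lit 477334) (.g (nat_lit 2702) (.e (nat_lit 1858) (nat_lit 124) (.e (nat_lit 557101) (nat_lit 13) (.e (nat_lit 172115) (nat_lit 10) (.e (nat_lit 434238) (nat_lit 25) (.e (nat_lit 548897) (nat_lit 14) (.e (nat_lit 2998) (nat_lit 186) (.e (nat_lit 450304) (nat_lit 0) .nil))))))) (.g (nat_lit 1) (.e (nat_lit 102168) (nat_lit 0) .nil) .nil))) 
(.lf (nat_lit 477846) (.g (nat_lit 2811) (.e (nat_lit 2270) (nat_lit 149) (.e (nat_lit 761898) (nat_lit 15) (.e (nat_lit 163978) (nat_lit 30) (.e (nat_lit 573487) (nat_lit 14) (.e (nat_lit 73753) (nat_lit 8) (.e (nat_lit 557096) (nat_lit 13) (.e (nat_lit 172067) (nat_lit 3) (.e (nat_lit 204821) (nat_lit 17) .nil)))))))) (.g (nat_lit 1) (.e (nat_lit 103082) (nat_lit 0) .nil) .nil)))) 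
(.nd (nat_lit 9) 
(.lf (nat_lit 477590) (.g (nat_lit 4849) (.e (nat_lit 1860) (nat_lit 124) (.e (nat_lit 557100) (nat_lit 13) (.e (nat_lit 172113) (nat_lit 10) (.e (nat_lit 434248) (nat_lit 28) (.e (nat_lit 573469) (nat_lit 11) (.e (nat_lit 16433) (nat_lit 9) (.e (nat_lit 426354) (nat_lit 15) .nil))))))) (.g (nat_lit 1) (.e (nat_lit 102456) (nat_lit 0) .nil) .nil))) 
(.lf (nat_lit 478102) (.g (nat_lit 872) (.e (nat_lit 2384) (nat_lit 155) (.e (nat_lit 811011) (nat_lit 0) (.e (nat_lit 5776) (nat_lit 317) (.e (nat_lit 180241) (nat_lit 4) (.e (nat_lit 524340) (nat_lit 28) (.e (nat_lit 352286) (nat_lit 20) .nil)))))) (.g (nat_lit 1) (.e (nat_lit 103660) (nat_lit 0) .nil) .nil)))))) (.nd (nat_lit 7) (.nd (nat_lit 8) (.nd (nat_lit 9) 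
(.lf (nat_lit 477270) (.g (nat_lit 3653) (.e (nat_lit 1857) (nat_lit 124) (.e (nat_lit 557087) (nat_lit 11) (.e (nat_lit 24617) (nat_lit 7) (.e (nat_lit 319505) (nat_lit 10) .nil)))) (.g (nat_lit 0) (.e (nat_lit 102085) (nat_lit 0) .nil) .nil))) 
(.lf (nat_lit 477782) (.g (nat_lit 1876) (.e (nat_lit 1999) (nat_lit 137) (.e (nat_lit 663567) (nat_lit 4) (.e (nat_lit 65619) (nat_lit 10) (.e (nat_lit 344169) (nat_lit 40) (.e (nat_lit 671764) (nat_lit 6) (.e (nat_lit 81934) (nat_lit 20) .nil)))))) (.g (nat_lit 1) (.e (nat_lit 102814) (nat_lit 0) .nil) .nil)))) (.nd (nat_lit 9) 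
(.lf (nat_lit 477526) (.g (nat_lit 4262) (.e (nat_lit 1859) (nat_lit 124) (.e (nat_lit 557109) (nat_lit 15) (.e (nat_lit 188447) (nat_lit 22) (.e (nat_lit 196661) (nat_lit 12) (.e (nat_lit 57750) (nat_lit 201) (.e (nat_lit 2856) (nat_lit 184) (.e (nat_lit 426402) (nat_lit 15) .nil))))))) (.g (nat_lit 1) (.e (nat_lit 102392) (nat_lit 0) .nil) .nil))) 
(.lf (nat_lit 478038) (.g (nat_lit 3173) (.e (nat_lit 2342) (nat_lit 151) (.e (nat_lit 778466) (nat_lit 11) (.e (nat_lit 24617) (nat_lit 7) (.e (nat_lit 319533) (nat_lit 16) (.e (nat_lit 286753) (nat_lit 10) (.e (nat_lit 344160) (nat_lit 37) (.e (nat_lit 647190) (nat_lit 9) (.e (nat_lit 1027) (nat_lit 81) .nil)))))))) (.g (nat_lit 1) (.e (nat_lit 103388) (nat_lit 0) .nil) .nil))))) 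
(.nd (nat_lit 8) (.nd (nat_lit 9) 
(.lf (nat_lit 477398) (.g (nat_lit 2041) (.e (nat_lit 1858) (nat_lit 124) (.e (nat_lit 557109) (nat_lit 15) (.e (nat_lit 188452) (nat_lit 23) (.e (nat_lit 204884) (nat_lit 33) .nil)))) (.g (nat_lit 0) (.e (nat_lit 102253) (nat_lit 0) .nil) .nil))) 
(.lf (nat_lit 477910) (.g (nat_lit 2558) (.e (nat_lit 7936) (nat_lit 149) (.e (nat_lit 761898) (nat_lit 15) (.e (nat_lit 163979) (nat_lit 30) (.e (nat_lit 573488) (nat_lit 14) (.e (nat_lit 73753) (nat_lit 8) .nil))))) (.g (nat_lit 0) (.e (nat_lit 103198) (nat_lit 0) .nil) .nil)))) (.nd (nat_lit 9) 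
(.lf (nat_lit 477654) (.g (nat_lit 2118) (.e (nat_lit 1860) (nat_lit 124) (.e (nat_lit 557101) (nat_lit 13) (.e (nat_lit 172115) (nat_lit 10) (.e (nat_lit 434244) (nat_lit 28) (.e (nat_lit 573458) (nat_lit 9) (.e (nat_lit 420) (nat_lit 32) (.e (nat_lit 426262) (nat_lit 9) (.e (nat_lit 433920) (nat_lit 15) .nil)))))))) (.g (nat_lit 1) (.e (nat_lit 102520) (nat_lit 0) .nil) .nil))) 
(.lf (nat_lit 478166) (.g (nat_lit 4854) (.e (nat_lit 2056) (nat_lit 142) (.e (nat_lit 704589) (nat_lit 3) (.e (nat_lit 163975) (nat_lit 30) (.e (nat_lit 573481) (nat_lit 13) (.e (nat_lit 65619) (nat_lit 10) (.e (nat_lit 344117) (nat_lit 21) (.e (nat_lit 516151) (nat_lit 9) (.e (nat_lit 426412) (nat_lit 15) .nil)))))))) (.g (nat_lit 1) (.e (nat_lit 103942) (nat_lit 0) .nil) .nil))))))) 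
(.nd (nat_lit 6) (.nd (nat_lit 7) (.nd (nat_lit 8) (.nd (nat_lit 9) 
(.lf (nat_lit 477238) (.g (nat_lit 2141) (.e (nat_lit 1856) (nat_lit 124) (.e (nat_lit 557100) (nat_lit 13) (.e (nat_lit 172115) (nat_lit 10) (.e (nat_lit 434231) (nat_lit 23) (.e (nat_lit 532569) (nat_lit 16) .nil))))) (.g (nat_lit 0) (.e (nat_lit 102050) (nat_lit 0) .nil) .nil))) 
(.lf (nat_lit 477750) (.g (nat_lit 385) (.e (nat_lit 1996) (nat_lit 137) (.e (nat_lit 663567) (nat_lit 4) (.e (nat_lit 65630) (nat_lit 14) .nil))) (.g (nat_lit 0) (.e (nat_lit 102780) (nat_lit 0) .nil) .nil)))) (.nd (nat_lit 9) 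
(.lf (nat_lit 477494) (.g (nat_lit 1646) (.e (nat_lit 1859) (nat_lit 124) (.e (nat_lit 557107) (nat_lit 15) (.e (nat_lit 188439) (nat_lit 20) (.e (nat_lit 3272) (nat_lit 199) (.e (nat_lit 548897) (nat_lit 14) (.e (nat_lit 2988) (nat_lit 186) (.e (nat_lit 450304) (nat_lit 0) .nil))))))) (.g (nat_lit 1) (.e (nat_lit 102360) (nat_lit 0) .nil) .nil))) 
(.lf (nat_lit 478006) (.g (nat_lit 3553) (.e (nat_lit 2314) (nat_lit 151) (.e (nat_lit 778466) (nat_lit 11) (.e (nat_lit 24617) (nat_lit 7) (.e (nat_lit 319534) (nat_lit 16) (.e (nat_lit 286756) (nat_lit 10) (.e (nat_lit 344160) (nat_lit 37) (.e (nat_lit 647195) (nat_lit 9) (.e (nat_lit 7936) (nat_lit 81) .nil)))))))) (.g (nat_lit 1) (.e (nat_lit 103349) (nat_lit 0) .nil) .nil))))) 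
(.nd (nat_lit 8) (.nd (nat_lit 9) 
(.lf (nat_lit 477366) (.g (nat_lit 3012) (.e (nat_lit 1858) (nat_lit 124) (.e (nat_lit 557105) (nat_lit 14) (.e (nat_lit 180251) (nat_lit 10) (.e (nat_lit 573484) (nat_lit 13) (.e (nat_lit 65642) (nat_lit 15) (.e (nat_lit 3253) (nat_lit 197) (.e (nat_lit 532504) (nat_lit 1) (.e (nat_lit 57852) (nat_lit 252) (.e (nat_lit 57344) (nat_lit 0) .nil))))))))) (.g (nat_lit 1) (.e (nat_lit 102204) (nat_lit 0) .nil) .nil))) 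
(.lf (nat_lit 477878) (.g (nat_lit 2890) (.e (nat_lit 2270) (nat_lit 149) (.e (nat_lit 761898) (nat_lit 15) (.e (nat_lit 163979) (nat_lit 30) (.e (nat_lit 573489) (nat_lit 14) (.e (nat_lit 73755) (nat_lit 8) (.e (nat_lit 557104) (nat_lit 14) (.e (nat_lit 180244) (nat_lit 5) (.e (nat_lit 532491) (nat_lit 0) .nil)))))))) (.g (nat_lit 1) (.e (nat_lit 103114) (nat_lit 0) .nil) .nil)))) 
(.nd (nat_lit 9) 
(.lf (nat_lit 477622) (.g (nat_lit 2752) (.e (nat_lit 1860) (nat_lit 124) (.e (nat_lit 557101) (nat_lit 13) (.e (nat_lit 172115) (nat_lit 10) (.e (nat_lit 434238) (nat_lit 25) (.e (nat_lit 548897) (nat_lit 14) (.e (nat_lit 2988) (nat_lit 186) (.e (nat_lit 450304) (nat_lit 0) .nil))))))) (.g (nat_lit 1) (.e (nat_lit 102488) (nat_lit 0) .nil) .nil))) 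
(.lf (nat_lit 478134) (.g (nat_lit 2360) (.e (nat_lit 2391) (nat_lit 156) (.e (nat_lit 819204) (nat_lit 0) (.e (nat_lit 3015) (nat_lit 187) (.e (nat_lit 450584) (nat_lit 9) (.e (nat_lit 573184) (nat_lit 6) (.e (nat_lit 81938) (nat_lit 20) .nil)))))) (.g (nat_lit 1) (.e (nat_lit 103789) (nat_lit 0) .nil) .nil)))))) (.nd (nat_lit 7) (.nd (nat_lit 8) (.nd (nat_lit 9) 
(.lf (nat_lit 477302) (.g (nat_lit 4395) (.e (nat_lit 1858) (nat_lit 124) (.e (nat_lit 557101) (nat_lit 13) (.e (nat_lit 172097) (nat_lit 9) (.e (nat_lit 426125) (nat_lit 2) (.e (nat_lit 196661) (nat_lit 12) (.e (nat_lit 57751) (nat_lit 201) (.e (nat_lit 2856) (nat_lit 184) (.e (nat_lit 426402) (nat_lit 15) .nil)))))))) (.g (nat_lit 1) (.e (nat_lit 102136) (nat_lit 0) .nil) .nil))) 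
(.lf (nat_lit 477814) (.g (nat_lit 1492) (.e (nat_lit 2006) (nat_lit 138) (.e (nat_lit 671762) (nat_lit 4) (.e (nat_lit 65593) (nat_lit 9) (.e (nat_lit 335907) (nat_lit 0) (.e (nat_lit 1994) (nat_lit 137) .nil))))) (.g (nat_lit 0) (.e (nat_lit 102851) (nat_lit 0) .nil) .nil)))) (.nd (nat_lit 9) 
(.lf (nat_lit 477558) (.g (nat_lit 2444) (.e (nat_lit 1860) (nat_lit 124) (.e (nat_lit 557100) (nat_lit 13) (.e (nat_lit 172106) (nat_lit 10) (.e (nat_lit 434244) (nat_lit 28) (.e (nat_lit 573470) (nat_lit 11) .nil))))) (.g (nat_lit 0) (.e (nat_lit 102424) (nat_lit 0) .nil) .nil))) 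
(.lf (nat_lit 478070) (.g (nat_lit 2706) (.e (nat_lit 2347) (nat_lit 151) (.e (nat_lit 778466) (nat_lit 11) (.e (nat_lit 24617) (nat_lit 7) (.e (nat_lit 319505) (nat_lit 10) (.e (nat_lit 720) (nat_lit 64) (.e (nat_lit 688177) (nat_lit 16) (.e (nat_lit 65598) (nat_lit 9) (.e (nat_lit 335891) (nat_lit 0) .nil)))))))) (.g (nat_lit 1) (.e (nat_lit 103440) (nat_lit 0) .nil) .nil))))) 
(.nd (nat_lit 8) (.nd (nat_lit 9) 
(.lf (nat_lit 477430) (.g (nat_lit 2391) (.e (nat_lit 1859) (nat_lit 124) (.e (nat_lit 557098) (nat_lit 13) (.e (nat_lit 172115) (nat_lit 10) (.e (nat_lit 434231) (nat_lit 23) (.e (nat_lit 532481) (nat_lit 0) (.e (nat_lit 6642) (nat_lit 357) (.e (nat_lit 2856) (nat_lit 184) (.e (nat_lit 426402) (nat_lit 15) .nil)))))))) (.g (nat_lit 1) (.e (nat_lit 102295) (nat_lit 0) .nil) .nil))) 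
(.lf (nat_lit 477942) (.g (nat_lit 1143) (.e (nat_lit 2283) (nat_lit 150) (.e (nat_lit 770071) (nat_lit 8) (.e (nat_lit 65617) (nat_lit 10) (.e (nat_lit 344177) (nat_lit 43) .nil)))) (.g (nat_lit 0) (.e (nat_lit 103257) (nat_lit 0) .nil) .nil)))) (.nd (nat_lit 9) 
(.lf (nat_lit 477686) (.g (nat_lit 728) (.e (nat_lit 1963) (nat_lit 134) (.e (nat_lit 639001) (nat_lit 10) (.e (nat_lit 188439) (nat_lit 20) (.e (nat_lit 3391) (nat_lit 210) (.e (nat_lit 639023) (nat_lit 18) (.e (nat_lit 81942) (nat_lit 20) .nil)))))) (.g (nat_lit 1) (.e (nat_lit 102692) (nat_lit 0) .nil) .nil))) 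
(.lf (nat_lit 478198) (.g (nat_lit 3455) (.e (nat_lit 2056) (nat_lit 142) (.e (nat_lit 704589) (nat_lit 3) (.e (nat_lit 163979) (nat_lit 30) (.e (nat_lit 573491) (nat_lit 15) (.e (nat_lit 81954) (nat_lit 23) (.e (nat_lit 98356) (nat_lit 26) (.e (nat_lit 426416) (nat_lit 15) .nil))))))) (.g (nat_lit 1) (.e (nat_lit 103975) (nat_lit 0) .nil) .nil))))))))) 
(.nd (nat_lit 4) (.nd (nat_lit 5) (.nd (nat_lit 6) (.nd (nat_lit 7) (.nd (nat_lit 8) 
(.nd (nat_lit 9) 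
(.lf (nat_lit 477198) (.g (nat_lit 2194) (.e (nat_lit 1855) (nat_lit 124) (.e (nat_lit 557109) (nat_lit 15) (.e (nat_lit 188452) (nat_lit 23) (.e (nat_lit 204883) (nat_lit 33) .nil)))) (.g (nat_lit 0) (.e (nat_lit 101954) (nat_lit 0) .nil) .nil))) 
(.lf (nat_lit 477710) (.g (nat_lit 2990) (.e (nat_lit 1994) (nat_lit 137) (.e (nat_lit 663567) (nat_lit 4) (.e (nat_lit 65628) (nat_lit 14) (.e (nat_lit 401437) (nat_lit 9) (.e (nat_lit 426542) (nat_lit 29) (.e (nat_lit 352287) (nat_lit 20) .nil)))))) (.g (nat_lit 1) (.e (nat_lit 102735) (nat_lit 0) .nil) .nil)))) (.nd (nat_lit 9) 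
(.lf (nat_lit 477454) (.g (nat_lit 2076) (.e (nat_lit 1859) (nat_lit 124) (.e (nat_lit 557098) (nat_lit 13) (.e (nat_lit 172115) (nat_lit 10) (.e (nat_lit 434238) (nat_lit 25) (.e (nat_lit 548898) (nat_lit 14) (.e (nat_lit 2989) (nat_lit 186) (.e (nat_lit 450304) (nat_lit 0) .nil))))))) (.g (nat_lit 1) (.e (nat_lit 102319) (nat_lit 0) .nil) .nil))) 
(.lf (nat_lit 477966) (.g (nat_lit 4710) (.e (nat_lit 2307) (nat_lit 151) (.e (nat_lit 778466) (nat_lit 11) (.e (nat_lit 24617) (nat_lit 7) (.e (nat_lit 319534) (nat_lit 16) (.e (nat_lit 286756) (nat_lit 10) (.e (nat_lit 344160) (nat_lit 37) (.e (nat_lit 647195) (nat_lit 9) (.e (nat_lit 7936) (nat_lit 81) .nil)))))))) (.g (nat_lit 1) (.e (nat_lit 103304) (nat_lit 0) .nil) .nil))))) 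
(.nd (nat_lit 8) (.nd (nat_lit 9) 
(.lf (nat_lit 477326) (.g (nat_lit 2574) (.e (nat_lit 1858) (nat_lit 124) (.e (nat_lit 557101) (nat_lit 13) (.e (nat_lit 172115) (nat_lit 10) (.e (nat_lit 434231) (nat_lit 23) (.e (nat_lit 532490) (nat_lit 0) (.e (nat_lit 6680) (nat_lit 357) (.e (nat_lit 2856) (nat_lit 184) (.e (nat_lit 426364) (nat_lit 15) .nil)))))))) (.g (nat_lit 1) (.e (nat_lit 102160) (nat_lit 0) .nil) .nil))) 
(.lf (nat_lit 477838) (.g (nat_lit 2901) (.e (nat_lit 2270) (nat_lit 149) (.e (nat_lit 761898) (nat_lit 15) (.e (nat_lit 163977) (nat_lit 30) (.e (nat_lit 573487) (nat_lit 14) (.e (nat_lit 73753) (nat_lit 8) (.e (nat_lit 557098) (nat_lit 13) (.e (nat_lit 172065) (nat_lit 3) (.e (nat_lit 204821) (nat_lit 17) .nil)))))))) (.g (nat_lit 1) (.e (nat_lit 103074) (nat_lit 0) .nil) .nil)))) 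
(.nd (nat_lit 9) 
(.lf (nat_lit 477582) (.g (nat_lit 4417) (.e (nat_lit 1860) (nat_lit 124) (.e (nat_lit 557100) (nat_lit 13) (.e (nat_lit 172113) (nat_lit 10) (.e (nat_lit 434245) (nat_lit 28) (.e (nat_lit 573471) (nat_lit 11) (.e (nat_lit 16436) (nat_lit 9) (.e (nat_lit 426354) (nat_lit 15) .nil))))))) (.g (nat_lit 1) (.e (nat_lit 102448) (nat_lit 0) .nil) .nil))) 
(.lf (nat_lit 478094) (.g (nat_lit 1647) (.e (nat_lit 2355) (nat_lit 152) (.e (nat_lit 786483) (nat_lit 30) (.e (nat_lit 360475) (nat_lit 8) (.e (nat_lit 557091) (nat_lit 12) .nil)))) (.g (nat_lit 0) (.e (nat_lit 103487) (nat_lit 0) .nil) .nil)))))) (.nd (nat_lit 7) (.nd (nat_lit 8) (.nd (nat_lit 9) 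
(.lf (nat_lit 477262) (.g (nat_lit 1754) (.e (nat_lit 1856) (nat_lit 124) (.e (nat_lit 557109) (nat_lit 15) (.e (nat_lit 188447) (nat_lit 22) (.e (nat_lit 204544) (nat_lit 18) .nil)))) (.g (nat_lit 0) (.e (nat_lit 102077) (nat_lit 0) .nil) .nil))) 
(.lf (nat_lit 477774) (.g (nat_lit 1699) (.e (nat_lit 1999) (nat_lit 137) (.e (nat_lit 663567) (nat_lit 4) (.e (nat_lit 65611) (nat_lit 10) (.e (nat_lit 344169) (nat_lit 40) (.e (nat_lit 671764) (nat_lit 6) (.e (nat_lit 81934) (nat_lit 20) .nil)))))) (.g (nat_lit 1) (.e (nat_lit 102806) (nat_lit 0) .nil) .nil)))) (.nd (nat_lit 9) 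
(.lf (nat_lit 477518) (.g (nat_lit 2703) (.e (nat_lit 1859) (nat_lit 124) (.e (nat_lit 557107) (nat_lit 15) (.e (nat_lit 188450) (nat_lit 23) (.e (nat_lit 204880) (nat_lit 32) (.e (nat_lit 385102) (nat_lit 50) .nil))))) (.g (nat_lit 0) (.e (nat_lit 102384) (nat_lit 0) .nil) .nil))) 
(.lf (nat_lit 478030) (.g (nat_lit 2479) (.e (nat_lit 2334) (nat_lit 151) (.e (nat_lit 778469) (nat_lit 11) (.e (nat_lit 24604) (nat_lit 2) (.e (nat_lit 90170) (nat_lit 13) (.e (nat_lit 172106) (nat_lit 10) (.e (nat_lit 434244) (nat_lit 28) (.e (nat_lit 573458) (nat_lit 9) (.e (nat_lit 1086) (nat_lit 81) .nil)))))))) (.g (nat_lit 1) (.e (nat_lit 103380) (nat_lit 0) .nil) .nil))))) 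
(.nd (nat_lit 8) (.nd (nat_lit 9) 
(.lf (nat_lit 477390) (.g (nat_lit 2402) (.e (nat_lit 1858) (nat_lit 124) (.e (nat_lit 557107) (nat_lit 15) (.e (nat_lit 188452) (nat_lit 23) (.e (nat_lit 204885) (nat_lit 33) .nil)))) (.g (nat_lit 0) (.e (nat_lit 102245) (nat_lit 0) .nil) .nil))) 
(.lf (nat_lit 477902) (.g (nat_lit 4133) (.e (nat_lit 2271) (nat_lit 149) (.e (nat_lit 761898) (nat_lit 15) (.e (nat_lit 163978) (nat_lit 30) (.e (nat_lit 573487) (nat_lit 14) (.e (nat_lit 73753) (nat_lit 8) (.e (nat_lit 557103) (nat_lit 14) (.e (nat_lit 180243) (nat_lit 5) (.e (nat_lit 532484) (nat_lit 0) .nil)))))))) (.g (nat_lit 1) (.e (nat_lit 103172) (nat_lit 0) .nil) .nil)))) 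
(.nd (nat_lit 9) 
(.lf (nat_lit 477646) (.g (nat_lit 3130) (.e (nat_lit 1860) (nat_lit 124) (.e (nat_lit 557101) (nat_lit 13) (.e (nat_lit 172115) (nat_lit 10) (.e (nat_lit 434244) (nat_lit 28) (.e (nat_lit 573450) (nat_lit 9) (.e (nat_lit 481) (nat_lit 37) (.e (nat_lit 474880) (nat_lit 0) .nil))))))) (.g (nat_lit 1) (.e (nat_lit 102512) (nat_lit 0) .nil) .nil))) 
(.lf (nat_lit 478158) (.g (nat_lit 1288) (.e (nat_lit 2031) (nat_lit 140) (.e (nat_lit 688184) (nat_lit 18) (.e (nat_lit 89856) (nat_lit 0) (.e (nat_lit 3603) (nat_lit 225) (.e (nat_lit 761912) (nat_lit 18) (.e (nat_lit 196352) (nat_lit 0) .nil)))))) (.g (nat_lit 1) (.e (nat_lit 103861) (nat_lit 0) .nil) .nil))))))) (.nd (nat_lit 6) (.nd (nat_lit 7) (.nd (nat_lit 8) (.nd (nat_lit 9) 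
(.lf (nat_lit 477230) (.g (nat_lit 2891) (.e (nat_lit 1856) (nat_lit 124) (.e (nat_lit 557100) (nat_lit 13) (.e (nat_lit 172113) (nat_lit 10) (.e (nat_lit 434245) (nat_lit 28) (.e (nat_lit 573450) (nat_lit 9) (.e (nat_lit 457) (nat_lit 34) (.e (nat_lit 442372) (nat_lit 0) .nil))))))) (.g (nat_lit 1) (.e (nat_lit 102042) (nat_lit 0) .nil) .nil))) 
(.lf (nat_lit 477742) (.g (nat_lit 2018) (.e (nat_lit 1996) (nat_lit 137) (.e (nat_lit 663567) (nat_lit 4) (.e (nat_lit 65616) (nat_lit 10) (.e (nat_lit 344169) (nat_lit 40) (.e (nat_lit 671764) (nat_lit 6) (.e (nat_lit 81935) (nat_lit 20) .nil)))))) (.g (nat_lit 1) (.e (nat_lit 102772) (nat_lit 0) .nil) .nil)))) (.nd (nat_lit 9) 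
(.lf (nat_lit 477486) (.g (nat_lit 3521) (.e (nat_lit 1859) (nat_lit 124) (.e (nat_lit 557105) (nat_lit 14) (.e (nat_lit 180252) (nat_lit 10) (.e (nat_lit 573482) (nat_lit 13) (.e (nat_lit 65637) (nat_lit 15) (.e (nat_lit 3253) (nat_lit 197) (.e (nat_lit 532504) (nat_lit 1) (.e (nat_lit 57852) (nat_lit 252) (.e (nat_lit 57357) (nat_lit 0) .nil))))))))) (.g (nat_lit 1) (.e (nat_lit 102352) (nat_lit 0) .nil) .nil))) 
(.lf (nat_lit 477998) (.g (nat_lit 4842) (.e (nat_lit 2312) (nat_lit 151) (.e (nat_lit 778466) (nat_lit 11) (.e (nat_lit 24617) (nat_lit 7) (.e (nat_lit 319534) (nat_lit 16) (.e (nat_lit 286756) (nat_lit 10) (.e (nat_lit 344160) (nat_lit 37) (.e (nat_lit 647195) (nat_lit 9) (.e (nat_lit 7936) (nat_lit 81) .nil)))))))) (.g (nat_lit 1) (.e (nat_lit 103341) (nat_lit 0) .nil) .nil))))) 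
(.nd (nat_lit 8) (.nd (nat_lit 9) 
(.lf (nat_lit 477358) (.g (nat_lit 3298) (.e (nat_lit 1858) (nat_lit 124) (.e (nat_lit 557101) (nat_lit 13) (.e (nat_lit 172115) (nat_lit 10) (.e (nat_lit 434244) (nat_lit 28) (.e (nat_lit 573458) (nat_lit 9) (.e (nat_lit 394) (nat_lit 32) (.e (nat_lit 426198) (nat_lit 9) (.e (nat_lit 426402) (nat_lit 15) .nil)))))))) (.g (nat_lit 1) (.e (nat_lit 102192) (nat_lit 0) .nil) .nil))) 
(.lf (nat_lit 477870) (.g (nat_lit 2626) (.e (nat_lit 2270) (nat_lit 149) (.e (nat_lit 761898) (nat_lit 15) (.e (nat_lit 163979) (nat_lit 30) (.e (nat_lit 573489) (nat_lit 14) (.e (nat_lit 73754) (nat_lit 8) (.e (nat_lit 557100) (nat_lit 13) (.e (nat_lit 172067) (nat_lit 3) (.e (nat_lit 204821) (nat_lit 17) .nil)))))))) (.g (nat_lit 1) (.e (nat_lit 103106) (nat_lit 0) .nil) .nil)))) 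
(.nd (nat_lit 9) 
(.lf (nat_lit 477614) (.g (nat_lit 1719) (.e (nat_lit 1860) (nat_lit 124) (.e (nat_lit 557101) (nat_lit 13) (.e (nat_lit 172115) (nat_lit 10) (.e (nat_lit 434231) (nat_lit 23) (.e (nat_lit 532481) (nat_lit 0) .nil))))) (.g (nat_lit 0) (.e (nat_lit 102480) (nat_lit 0) .nil) .nil))) 
(.lf (nat_lit 478126) (.g (nat_lit 1585) (.e (nat_lit 2390) (nat_lit 156) (.e (nat_lit 819221) (nat_lit 6) (.e (nat_lit 188439) (nat_lit 20) (.e (nat_lit 3289) (nat_lit 201) (.e (nat_lit 565269) (nat_lit 6) (.e (nat_lit 81946) (nat_lit 20) .nil)))))) (.g (nat_lit 1) (.e (nat_lit 103752) (nat_lit 0) .nil) .nil)))))) (.nd (nat_lit 7) (.nd (nat_lit 8) (.nd (nat_lit 9) 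
(.lf (nat_lit 477294) (.g (nat_lit 2238) (.e (nat_lit 1858) (nat_lit 124) (.e (nat_lit 557101) (nat_lit 13) (.e (nat_lit 172097) (nat_lit 9) (.e (nat_lit 426125) (nat_lit 2) (.e (nat_lit 196661) (nat_lit 12) (.e (nat_lit 57749) (nat_lit 201) (.e (nat_lit 2939) (nat_lit 184) (.e (nat_lit 433920) (nat_lit 15) .nil)))))))) (.g (nat_lit 1) (.e (nat_lit 102128) (nat_lit 0) .nil) .nil))) 
(.lf (nat_lit 477806) (.g (nat_lit 2218) (.e (nat_lit 2003) (nat_lit 138) (.e (nat_lit 671763) (nat_lit 5) (.e (nat_lit 73782) (nat_lit 32) (.e (nat_lit 2857) (nat_lit 184) (.e (nat_lit 426542) (nat_lit 29) (.e (nat_lit 352290) (nat_lit 20) .nil)))))) (.g (nat_lit 1) (.e (nat_lit 102839) (nat_lit 0) .nil) .nil)))) (.nd (nat_lit 9) 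
(.lf (nat_lit 477550) (.g (nat_lit 4676) (.e (nat_lit 1859) (nat_lit 124) (.e (nat_lit 557109) (nat_lit 15) (.e (nat_lit 188452) (nat_lit 23) (.e (nat_lit 204880) (nat_lit 32) (.e (nat_lit 385104) (nat_lit 50) .nil))))) (.g (nat_lit 0) (.e (nat_lit 102416) (nat_lit 0) .nil) .nil))) 
(.lf (nat_lit 478062) (.g (nat_lit 2683) (.e (nat_lit 2346) (nat_lit 151) (.e (nat_lit 778466) (nat_lit 11) (.e (nat_lit 24617) (nat_lit 7) (.e (nat_lit 319533) (nat_lit 16) (.e (nat_lit 286753) (nat_lit 10) (.e (nat_lit 344160) (nat_lit 37) (.e (nat_lit 647195) (nat_lit 9) (.e (nat_lit 1043) (nat_lit 81) .nil)))))))) (.g (nat_lit 1) (.e (nat_lit 103420) (nat_lit 0) .nil) .nil))))) 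
(.nd (nat_lit 8) (.nd (nat_lit 9) 
(.lf (nat_lit 477422) (.g (nat_lit 2248) (.e (nat_lit 1859) (nat_lit 124) (.e (nat_lit 557098) (nat_lit 13) (.e (nat_lit 172097) (nat_lit 9) (.e (nat_lit 426140) (nat_lit 3) (.e (nat_lit 204821) (nat_lit 17) (.e (nat_lit 6671) (nat_lit 357) (.e (nat_lit 2940) (nat_lit 184) (.e (nat_lit 433920) (nat_lit 15) .nil)))))))) (.g (nat_lit 1) (.e (nat_lit 102287) (nat_lit 0) .nil) .nil))) 
(.lf (nat_lit 477934) (.g (nat_lit 2305) (.e (nat_lit 2283) (nat_lit 150) (.e (nat_lit 770071) (nat_lit 8) (.e (nat_lit 65586) (nat_lit 7) (.e (nat_lit 319531) (nat_lit 16) (.e (nat_lit 286751) (nat_lit 10) .nil))))) (.g (nat_lit 0) (.e (nat_lit 103242) (nat_lit 0) .nil) .nil)))) (.nd (nat_lit 9) 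
(.lf (nat_lit 477678) (.g (nat_lit 4612) (.e (nat_lit 1862) (nat_lit 124) (.e (nat_lit 557108) (nat_lit 15) (.e (nat_lit 188452) (nat_lit 23) (.e (nat_lit 204885) (nat_lit 33) .nil)))) (.g (nat_lit 0) (.e (nat_lit 102556) (nat_lit 0) .nil) .nil))) 
(.lf (nat_lit 478190) (.g (nat_lit 2858) (.e (nat_lit 2056) (nat_lit 142) (.e (nat_lit 704589) (nat_lit 3) (.e (nat_lit 163978) (nat_lit 30) (.e (nat_lit 573479) (nat_lit 13) (.e (nat_lit 65619) (nat_lit 10) .nil))))) (.g (nat_lit 0) (.e (nat_lit 103967) (nat_lit 0) .nil) .nil)))))))) (.nd (nat_lit 5) (.nd (nat_lit 6) (.nd (nat_lit 7) (.nd (nat_lit 8) (.nd (nat_lit 9) 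
(.lf (nat_lit 477214) (.g (nat_lit 2348) (.e (nat_lit 1856) (nat_lit 124) (.e (nat_lit 557098) (nat_lit 13) (.e (nat_lit 172115) (nat_lit 10) (.e (nat_lit 434244) (nat_lit 28) (.e (nat_lit 573458) (nat_lit 9) (.e (nat_lit 7936) (nat_lit 37) (.e (nat_lit 466947) (nat_lit 0) .nil))))))) (.g (nat_lit 1) (.e (nat_lit 102020) (nat_lit 0) .nil) .nil))) 
(.lf (nat_lit 477726) (.g (nat_lit 1272) (.e (nat_lit 1994) (nat_lit 137) (.e (nat_lit 663569) (nat_lit 6) (.e (nat_lit 81943) (nat_lit 20) (.e (nat_lit 2006) (nat_lit 138) (.e (nat_lit 671764) (nat_lit 6) (.e (nat_lit 81934) (nat_lit 20) .nil)))))) (.g (nat_lit 1) (.e (nat_lit 102751) (nat_lit 0) .nil) .nil)))) (.nd (nat_lit 9) 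
(.lf (nat_lit 477470) (.g (nat_lit 3126) (.e (nat_lit 1859) (nat_lit 124) (.e (nat_lit 557098) (nat_lit 13) (.e (nat_lit 172115) (nat_lit 10) (.e (nat_lit 434244) (nat_lit 28) (.e (nat_lit 573450) (nat_lit 9) (.e (nat_lit 454) (nat_lit 34) (.e (nat_lit 450304) (nat_lit 0) .nil))))))) (.g (nat_lit 1) (.e (nat_lit 102335) (nat_lit 0) .nil) .nil))) 
(.lf (nat_lit 477982) (.g (nat_lit 3076) (.e (nat_lit 2309) (nat_lit 151) (.e (nat_lit 778466) (nat_lit 11) (.e (nat_lit 24617) (nat_lit 7) (.e (nat_lit 319505) (nat_lit 10) (.e (nat_lit 720) (nat_lit 64) (.e (nat_lit 688178) (nat_lit 16) (.e (nat_lit 65604) (nat_lit 9) (.e (nat_lit 335907) (nat_lit 0) .nil)))))))) (.g (nat_lit 1) (.e (nat_lit 103321) (nat_lit 0) .nil) .nil))))) 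
(.nd (nat_lit 8) (.nd (nat_lit 9) 
(.lf (nat_lit 477342) (.g (nat_lit 3244) (.e (nat_lit 1858) (nat_lit 124) (.e (nat_lit 557101) (nat_lit 13) (.e (nat_lit 172115) (nat_lit 10) (.e (nat_lit 434238) (nat_lit 25) (.e (nat_lit 548898) (nat_lit 14) (.e (nat_lit 3004) (nat_lit 186) (.e (nat_lit 450304) (nat_lit 0) .nil))))))) (.g (nat_lit 1) (.e (nat_lit 102176) (nat_lit 0) .nil) .nil))) 
(.lf (nat_lit 477854) (.g (nat_lit 3041) (.e (nat_lit 2270) (nat_lit 149) (.e (nat_lit 761898) (nat_lit 15) (.e (nat_lit 163978) (nat_lit 30) (.e (nat_lit 573487) (nat_lit 14) (.e (nat_lit 73753) (nat_lit 8) (.e (nat_lit 557101) (nat_lit 13) (.e (nat_lit 172067) (nat_lit 3) (.e (nat_lit 204821) (nat_lit 17) .nil)))))))) (.g (nat_lit 1) (.e (nat_lit 103090) (nat_lit 0) .nil) .nil)))) 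
(.nd (nat_lit 9) 
(.lf (nat_lit 477598) (.g (nat_lit 3001) (.e (nat_lit 1860) (nat_lit 124) (.e (nat_lit 557100) (nat_lit 13) (.e (nat_lit 172113) (nat_lit 10) (.e (nat_lit 434248) (nat_lit 28) (.e (nat_lit 573470) (nat_lit 11) (.e (nat_lit 16435) (nat_lit 9) (.e (nat_lit 426350) (nat_lit 15) .nil))))))) (.g (nat_lit 1) (.e (nat_lit 102464) (nat_lit 0) .nil) .nil))) 
(.lf (nat_lit 478110) (.g (nat_lit 675) (.e (nat_lit 2384) (nat_lit 155) (.e (nat_lit 811012) (nat_lit 0) (.e (nat_lit 5777) (nat_lit 317) (.e (nat_lit 180241) (nat_lit 4) (.e (nat_lit 524340) (nat_lit 28) (.e (nat_lit 352285) (nat_lit 20) .nil)))))) (.g (nat_lit 1) (.e (nat_lit 103670) (nat_lit 0) .nil) .nil)))))) (.nd (nat_lit 7) (.nd (nat_lit 8) (.nd (nat_lit 9) 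
(.lf (nat_lit 477278) (.g (nat_lit 583) (.e (nat_lit 1858) (nat_lit 124) (.e (nat_lit 557066) (nat_lit 9) (.e (nat_lit 232) (nat_lit 21) .nil))) (.g (nat_lit 0) (.e (nat_lit 102093) (nat_lit 0) .nil) .nil))) 
(.lf (nat_lit 477790) (.g (nat_lit 2379) (.e (nat_lit 1999) (nat_lit 137) (.e (nat_lit 663567) (nat_lit 4) (.e (nat_lit 65628) (nat_lit 14) (.e (nat_lit 401437) (nat_lit 9) (.e (nat_lit 426540) (nat_lit 29) (.e (nat_lit 352287) (nat_lit 20) .nil)))))) (.g (nat_lit 1) (.e (nat_lit 102822) (nat_lit 0) .nil) .nil)))) (.nd (nat_lit 9) 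
(.lf (nat_lit 477534) (.g (nat_lit 2888) (.e (nat_lit 1859) (nat_lit 124) (.e (nat_lit 557109) (nat_lit 15) (.e (nat_lit 188449) (nat_lit 22) (.e (nat_lit 196661) (nat_lit 12) (.e (nat_lit 57748) (nat_lit 201) (.e (nat_lit 2940) (nat_lit 184) (.e (nat_lit 433920) (nat_lit 15) .nil))))))) (.g (nat_lit 1) (.e (nat_lit 102400) (nat_lit 0) .nil) .nil))) 
(.lf (nat_lit 478046) (.g (nat_lit 3053) (.e (nat_lit 2342) (nat_lit 151) (.e (nat_lit 778466) (nat_lit 11) (.e (nat_lit 24617) (nat_lit 7) (.e (nat_lit 319534) (nat_lit 16) (.e (nat_lit 286756) (nat_lit 10) (.e (nat_lit 344160) (nat_lit 37) (.e (nat_lit 647190) (nat_lit 9) (.e (nat_lit 1002) (nat_lit 81) .nil)))))))) (.g (nat_lit 1) (.e (nat_lit 103398) (nat_lit 0) .nil) .nil))))) 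
(.nd (nat_lit 8) (.nd (nat_lit 9) 
(.lf (nat_lit 477406) (.g (nat_lit 665) (.e (nat_lit 1859) (nat_lit 124) (.e (nat_lit 557091) (nat_lit 12) (.e (nat_lit 164022) (nat_lit 46) .nil))) (.g (nat_lit 0) (.e (nat_lit 102271) (nat_lit 0) .nil) .nil))) 
(.lf (nat_lit 477918) (.g (nat_lit 2341) (.e (nat_lit 2281) (nat_lit 150) (.e (nat_lit 770072) (nat_lit 8) (.e (nat_lit 65568) (nat_lit 2) (.e (nat_lit 90170) (nat_lit 13) (.e (nat_lit 172113) (nat_lit 10) .nil))))) (.g (nat_lit 0) (.e (nat_lit 103219) (nat_lit 0) .nil) .nil)))) (.nd (nat_lit 9) 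
(.lf (nat_lit 477662) (.g (nat_lit 2749) (.e (nat_lit 1860) (nat_lit 124) (.e (nat_lit 557105) (nat_lit 14) (.e (nat_lit 180252) (nat_lit 10) (.e (nat_lit 573481) (nat_lit 13) (.e (nat_lit 65637) (nat_lit 15) (.e (nat_lit 3253) (nat_lit 197) (.e (nat_lit 532503) (nat_lit 1) (.e (nat_lit 57847) (nat_lit 252) (.e (nat_lit 57345) (nat_lit 0) .nil))))))))) (.g (nat_lit 1) (.e (nat_lit 102528) (nat_lit 0) .nil) .nil))) 
(.lf (nat_lit 478174) (.g (nat_lit 3276) (.e (nat_lit 2056) (nat_lit 142) (.e (nat_lit 704589) (nat_lit 3) (.e (nat_lit 163975) (nat_lit 30) (.e (nat_lit 573492) (nat_lit 15) (.e (nat_lit 81956) (nat_lit 23) (.e (nat_lit 98355) (nat_lit 26) (.e (nat_lit 426375) (nat_lit 15) .nil))))))) (.g (nat_lit 1) (.e (nat_lit 103951) (nat_lit 0) .nil) .nil))))))) 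
(.nd (nat_lit 6) (.nd (nat_lit 7) (.nd (nat_lit 8) (.nd (nat_lit 9) 
(.lf (nat_lit 477246) (.g (nat_lit 3223) (.e (nat_lit 1856) (nat_lit 124) (.e (nat_lit 557101) (nat_lit 13) (.e (nat_lit 172115) (nat_lit 10) (.e (nat_lit 434244) (nat_lit 28) (.e (nat_lit 573449) (nat_lit 9) (.e (nat_lit 457) (nat_lit 34) (.e (nat_lit 442374) (nat_lit 0) .nil))))))) (.g (nat_lit 1) (.e (nat_lit 102058) (nat_lit 0) .nil) .nil))) 
(.lf (nat_lit 477758) (.g (nat_lit 1730) (.e (nat_lit 1996) (nat_lit 137) (.e (nat_lit 663569) (nat_lit 6) (.e (nat_lit 81922) (nat_lit 0) (.e (nat_lit 3632) (nat_lit 227) (.e (nat_lit 778326) (nat_lit 6) (.e (nat_lit 81935) (nat_lit 20) .nil)))))) (.g (nat_lit 1) (.e (nat_lit 102788) (nat_lit 0) .nil) .nil)))) (.nd (nat_lit 9) 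
(.lf (nat_lit 477502) (.g (nat_lit 1641) (.e (nat_lit 1859) (nat_lit 124) (.e (nat_lit 557107) (nat_lit 15) (.e (nat_lit 188440) (nat_lit 20) (.e (nat_lit 3271) (nat_lit 199) (.e (nat_lit 548898) (nat_lit 14) (.e (nat_lit 3004) (nat_lit 186) (.e (nat_lit 450304) (nat_lit 0) .nil))))))) (.g (nat_lit 1) (.e (nat_lit 102368) (nat_lit 0) .nil) .nil))) 
(.lf (nat_lit 478014) (.g (nat_lit 2147) (.e (nat_lit 2328) (nat_lit 151) (.e (nat_lit 778464) (nat_lit 11) (.e (nat_lit 24617) (nat_lit 7) (.e (nat_lit 319533) (nat_lit 16) (.e (nat_lit 286753) (nat_lit 10) .nil))))) (.g (nat_lit 0) (.e (nat_lit 103359) (nat_lit 0) .nil) .nil))))) (.nd (nat_lit 8) (.nd (nat_lit 9) 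
(.lf (nat_lit 477374) (.g (nat_lit 1573) (.e (nat_lit 1858) (nat_lit 124) (.e (nat_lit 557105) (nat_lit 14) (.e (nat_lit 180252) (nat_lit 10) (.e (nat_lit 573482) (nat_lit 13) .nil)))) (.g (nat_lit 0) (.e (nat_lit 102227) (nat_lit 0) .nil) .nil))) 
(.lf (nat_lit 477886) (.g (nat_lit 4605) (.e (nat_lit 2270) (nat_lit 149) (.e (nat_lit 761899) (nat_lit 15) (.e (nat_lit 163978) (nat_lit 30) (.e (nat_lit 573489) (nat_lit 14) (.e (nat_lit 73755) (nat_lit 8) (.e (nat_lit 557097) (nat_lit 13) (.e (nat_lit 172067) (nat_lit 3) (.e (nat_lit 204821) (nat_lit 17) .nil)))))))) (.g (nat_lit 1) (.e (nat_lit 103126) (nat_lit 0) .nil) .nil)))) 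
(.nd (nat_lit 9) 
(.lf (nat_lit 477630) (.g (nat_lit 3128) (.e (nat_lit 1860) (nat_lit 124) (.e (nat_lit 557101) (nat_lit 13) (.e (nat_lit 172115) (nat_lit 10) (.e (nat_lit 434238) (nat_lit 25) (.e (nat_lit 548898) (nat_lit 14) (.e (nat_lit 2999) (nat_lit 186) (.e (nat_lit 450304) (nat_lit 0) .nil))))))) (.g (nat_lit 1) (.e (nat_lit 102496) (nat_lit 0) .nil) .nil))) 
(.lf (nat_lit 478142) (.g (nat_lit 1384) (.e (nat_lit 2391) (nat_lit 156) (.e (nat_lit 819221) (nat_lit 6) (.e (nat_lit 188435) (nat_lit 20) (.e (nat_lit 3289) (nat_lit 201) (.e (nat_lit 565269) (nat_lit 6) (.e (nat_lit 81942) (nat_lit 20) .nil)))))) (.g (nat_lit 1) (.e (nat_lit 103832) (nat_lit 0) .nil) .nil)))))) (.nd (nat_lit 7) (.nd (nat_lit 8) (.nd (nat_lit 9) 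
(.lf (nat_lit 477310) (.g (nat_lit 3549) (.e (nat_lit 1858) (nat_lit 124) (.e (nat_lit 557101) (nat_lit 13) (.e (nat_lit 172097) (nat_lit 9) (.e (nat_lit 426140) (nat_lit 3) (.e (nat_lit 204821) (nat_lit 17) (.e (nat_lit 6680) (nat_lit 357) (.e (nat_lit 2855) (nat_lit 184) (.e (nat_lit 426402) (nat_lit 15) .nil)))))))) (.g (nat_lit 1) (.e (nat_lit 102144) (nat_lit 0) .nil) .nil))) 
(.lf (nat_lit 477822) (.g (nat_lit 2494) (.e (nat_lit 2006) (nat_lit 138) (.e (nat_lit 671762) (nat_lit 4) (.e (nat_lit 65629) (nat_lit 14) (.e (nat_lit 401459) (nat_lit 13) (.e (nat_lit 483378) (nat_lit 23) .nil))))) (.g (nat_lit 0) (.e (nat_lit 102860) (nat_lit 0) .nil) .nil)))) (.nd (nat_lit 9) 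
(.lf (nat_lit 477566) (.g (nat_lit 2862) (.e (nat_lit 1860) (nat_lit 124) (.e (nat_lit 557100) (nat_lit 13) (.e (nat_lit 172113) (nat_lit 10) (.e (nat_lit 434245) (nat_lit 28) (.e (nat_lit 573470) (nat_lit 11) (.e (nat_lit 16435) (nat_lit 9) (.e (nat_lit 426350) (nat_lit 15) .nil))))))) (.g (nat_lit 1) (.e (nat_lit 102432) (nat_lit 0) .nil) .nil))) 
(.lf (nat_lit 478078) (.g (nat_lit 4141) (.e (nat_lit 2347) (nat_lit 151) (.e (nat_lit 778466) (nat_lit 11) (.e (nat_lit 24617) (nat_lit 7) (.e (nat_lit 319534) (nat_lit 16) (.e (nat_lit 286756) (nat_lit 10) (.e (nat_lit 344160) (nat_lit 37) (.e (nat_lit 647195) (nat_lit 9) (.e (nat_lit 982) (nat_lit 81) .nil)))))))) (.g (nat_lit 1) (.e (nat_lit 103448) (nat_lit 0) .nil) .nil))))) 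
(.nd (nat_lit 8) (.nd (nat_lit 9) 
(.lf (nat_lit 477438) (.g (nat_lit 2216) (.e (nat_lit 1859) (nat_lit 124) (.e (nat_lit 557098) (nat_lit 13) (.e (nat_lit 172115) (nat_lit 10) (.e (nat_lit 434231) (nat_lit 23) (.e (nat_lit 532490) (nat_lit 0) (.e (nat_lit 6680) (nat_lit 357) (.e (nat_lit 2856) (nat_lit 184) (.e (nat_lit 426364) (nat_lit 15) .nil)))))))) (.g (nat_lit 1) (.e (nat_lit 102303) (nat_lit 0) .nil) .nil))) 
(.lf (nat_lit 477950) (.g (nat_lit 2127) (.e (nat_lit 2283) (nat_lit 150) (.e (nat_lit 770072) (nat_lit 8) (.e (nat_lit 65610) (nat_lit 10) (.e (nat_lit 344097) (nat_lit 18) (.e (nat_lit 7146) (nat_lit 382) .nil))))) (.g (nat_lit 0) (.e (nat_lit 103276) (nat_lit 0) .nil) .nil)))) (.nd (nat_lit 9) 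
(.lf (nat_lit 477694) (.g (nat_lit 1322) (.e (nat_lit 1994) (nat_lit 137) (.e (nat_lit 663567) (nat_lit 4) (.e (nat_lit 65609) (nat_lit 10) (.e (nat_lit 344169) (nat_lit 40) (.e (nat_lit 671764) (nat_lit 6) (.e (nat_lit 81931) (nat_lit 20) .nil)))))) (.g (nat_lit 1) (.e (nat_lit 102719) (nat_lit 0) .nil) .nil))) 
(.lf (nat_lit 478206) (.g (nat_lit 4479) (.e (nat_lit 2056) (nat_lit 142) (.e (nat_lit 704589) (nat_lit 3) (.e (nat_lit 163979) (nat_lit 30) (.e (nat_lit 573493) (nat_lit 15) (.e (nat_lit 81956) (nat_lit 23) (.e (nat_lit 98359) (nat_lit 26) (.e (nat_lit 426412) (nat_lit 15) .nil))))))) (.g (nat_lit 1) (.e (nat_lit 103983) (nat_lit 0) .nil) .nil)))))))))))) 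
(.nd (nat_lit 1) (.nd (nat_lit 2) (.nd (nat_lit 3) (.nd (nat_lit 4) (.nd (nat_lit 5) 
(.nd (nat_lit 6) (.nd (nat_lit 7) (.nd (nat_lit 8) (.nd (nat_lit 9) 
(.lf (nat_lit 477185) (.g (nat_lit 2948) (.e (nat_lit 1855) (nat_lit 124) (.e (nat_lit 557109) (nat_lit 15) (.e (nat_lit 188447) (nat_lit 22) (.e (nat_lit 196663) (nat_lit 13) .nil)))) (.g (nat_lit 0) (.e (nat_lit 101941) (nat_lit 0) .nil) .nil))) 
(.lf (nat_lit 477697) (.g (nat_lit 2543) (.e (nat_lit 1994) (nat_lit 137) (.e (nat_lit 663567) (nat_lit 4) (.e (nat_lit 65610) (nat_lit 10) (.e (nat_lit 344169) (nat_lit 40) (.e (nat_lit 671764) (nat_lit 6) (.e (nat_lit 81935) (nat_lit 20) .nil)))))) (.g (nat_lit 1) (.e (nat_lit 102722) (nat_lit 0) .nil) .nil)))) (.nd (nat_lit 9) 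
(.lf (nat_lit 477441) (.g (nat_lit 2381) (.e (nat_lit 1859) (nat_lit 124) (.e (nat_lit 557098) (nat_lit 13) (.e (nat_lit 172115) (nat_lit 10) (.e (nat_lit 434231) (nat_lit 23) (.e (nat_lit 532528) (nat_lit 9) .nil))))) (.g (nat_lit 0) (.e (nat_lit 102306) (nat_lit 0) .nil) .nil))) 
(.lf (nat_lit 477953) (.g (nat_lit 3076) (.e (nat_lit 2303) (nat_lit 151) (.e (nat_lit 778466) (nat_lit 11) (.e (nat_lit 24617) (nat_lit 7) (.e (nat_lit 319533) (nat_lit 16) (.e (nat_lit 286753) (nat_lit 10) .nil))))) (.g (nat_lit 0) (.e (nat_lit 103286) (nat_lit 0) .nil) .nil))))) (.nd (nat_lit 8) (.nd (nat_lit 9) 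
(.lf (nat_lit 477313) (.g (nat_lit 2377) (.e (nat_lit 1858) (nat_lit 124) (.e (nat_lit 557101) (nat_lit 13) (.e (nat_lit 172115) (nat_lit 10) (.e (nat_lit 434231) (nat_lit 23) (.e (nat_lit 532481) (nat_lit 0) (.e (nat_lit 6642) (nat_lit 357) (.e (nat_lit 2856) (nat_lit 184) (.e (nat_lit 426402) (nat_lit 15) .nil)))))))) (.g (nat_lit 1) (.e (nat_lit 102147) (nat_lit 0) .nil) .nil))) 
(.lf (nat_lit 477825) (.g (nat_lit 2849) (.e (nat_lit 2006) (nat_lit 138) (.e (nat_lit 671762) (nat_lit 4) (.e (nat_lit 65630) (nat_lit 14) (.e (nat_lit 401444) (nat_lit 9) (.e (nat_lit 426541) (nat_lit 29) .nil))))) (.g (nat_lit 0) (.e (nat_lit 102863) (nat_lit 0) .nil) .nil)))) (.nd (nat_lit 9) 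
(.lf (nat_lit 477569) (.g (nat_lit 4282) (.e (nat_lit 1860) (nat_lit 124) (.e (nat_lit 557100) (nat_lit 13) (.e (nat_lit 172113) (nat_lit 10) (.e (nat_lit 434245) (nat_lit 28) (.e (nat_lit 573470) (nat_lit 11) (.e (nat_lit 16438) (nat_lit 9) (.e (nat_lit 426354) (nat_lit 15) .nil))))))) (.g (nat_lit 1) (.e (nat_lit 102435) (nat_lit 0) .nil) .nil))) 
(.lf (nat_lit 478081) (.g (nat_lit 4271) (.e (nat_lit 2344) (nat_lit 151) (.e (nat_lit 778466) (nat_lit 11) (.e (nat_lit 24617) (nat_lit 7) (.e (nat_lit 319534) (nat_lit 16) (.e (nat_lit 286756) (nat_lit 10) (.e (nat_lit 344160) (nat_lit 37) (.e (nat_lit 647195) (nat_lit 9) (.e (nat_lit 7936) (nat_lit 81) .nil)))))))) (.g (nat_lit 1) (.e (nat_lit 103452) (nat_lit 0) .nil) .nil)))))) 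
(.nd (nat_lit 7) (.nd (nat_lit 8) (.nd (nat_lit 9) 
(.lf (nat_lit 477249) (.g (nat_lit 1515) (.e (nat_lit 1856) (nat_lit 124) (.e (nat_lit 557101) (nat_lit 13) (.e (nat_lit 172115) (nat_lit 10) (.e (nat_lit 434244) (nat_lit 28) (.e (nat_lit 573450) (nat_lit 9) .nil))))) (.g (nat_lit 0) (.e (nat_lit 102061) (nat_lit 0) .nil) .nil))) 
(.lf (nat_lit 477761) (.g (nat_lit 1728) (.e (nat_lit 1996) (nat_lit 137) (.e (nat_lit 663569) (nat_lit 6) (.e (nat_lit 81924) (nat_lit 0) (.e (nat_lit 3632) (nat_lit 227) (.e (nat_lit 778326) (nat_lit 6) (.e (nat_lit 81935) (nat_lit 20) .nil)))))) (.g (nat_lit 1) (.e (nat_lit 102791) (nat_lit 0) .nil) .nil)))) (.nd (nat_lit 9) 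
(.lf (nat_lit 477505) (.g (nat_lit 2560) (.e (nat_lit 1859) (nat_lit 124) (.e (nat_lit 557107) (nat_lit 15) (.e (nat_lit 188440) (nat_lit 20) (.e (nat_lit 3272) (nat_lit 199) (.e (nat_lit 548898) (nat_lit 14) (.e (nat_lit 2999) (nat_lit 186) (.e (nat_lit 450304) (nat_lit 0) .nil))))))) (.g (nat_lit 1) (.e (nat_lit 102371) (nat_lit 0) .nil) .nil))) 
(.lf (nat_lit 478017) (.g (nat_lit 2927) (.e (nat_lit 2328) (nat_lit 151) (.e (nat_lit 778466) (nat_lit 11) (.e (nat_lit 24617) (nat_lit 7) (.e (nat_lit 319533) (nat_lit 16) (.e (nat_lit 286753) (nat_lit 10) (.e (nat_lit 344160) (nat_lit 37) (.e (nat_lit 647195) (nat_lit 9) (.e (nat_lit 1012) (nat_lit 81) .nil)))))))) (.g (nat_lit 1) (.e (nat_lit 103366) (nat_lit 0) .nil) .nil))))) 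
(.nd (nat_lit 8) (.nd (nat_lit 9) 
(.lf (nat_lit 477377) (.g (nat_lit 3481) (.e (nat_lit 1858) (nat_lit 124) (.e (nat_lit 557105) (nat_lit 14) (.e (nat_lit 180252) (nat_lit 10) (.e (nat_lit 573482) (nat_lit 13) (.e (nat_lit 65635) (nat_lit 15) (.e (nat_lit 3253) (nat_lit 197) (.e (nat_lit 532504) (nat_lit 1) (.e (nat_lit 57852) (nat_lit 252) (.e (nat_lit 57357) (nat_lit 0) .nil))))))))) (.g (nat_lit 1) (.e (nat_lit 102230) (nat_lit 0) .nil) .nil))) 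
(.lf (nat_lit 477889) (.g (nat_lit 3135) (.e (nat_lit 2270) (nat_lit 149) (.e (nat_lit 761899) (nat_lit 15) (.e (nat_lit 163978) (nat_lit 30) (.e (nat_lit 573489) (nat_lit 14) (.e (nat_lit 73755) (nat_lit 8) (.e (nat_lit 557105) (nat_lit 14) (.e (nat_lit 180245) (nat_lit 5) (.e (nat_lit 532491) (nat_lit 0) .nil)))))))) (.g (nat_lit 1) (.e (nat_lit 103129) (nat_lit 0) .nil) .nil)))) 
(.nd (nat_lit 9) 
(.lf (nat_lit 477633) (.g (nat_lit 3234) (.e (nat_lit 1860) (nat_lit 124) (.e (nat_lit 557101) (nat_lit 13) (.e (nat_lit 172115) (nat_lit 10) (.e (nat_lit 434244) (nat_lit 28) (.e (nat_lit 573449) (nat_lit 9) (.e (nat_lit 437) (nat_lit 32) (.e (nat_lit 426187) (nat_lit 9) (.e (nat_lit 426354) (nat_lit 15) .nil)))))))) (.g (nat_lit 1) (.e (nat_lit 102499) (nat_lit 0) .nil) .nil))) 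
(.lf (nat_lit 478145) (.g (nat_lit 1659) (.e (nat_lit 2391) (nat_lit 156) (.e (nat_lit 819221) (nat_lit 6) (.e (nat_lit 188441) (nat_lit 20) (.e (nat_lit 3289) (nat_lit 201) (.e (nat_lit 565269) (nat_lit 6) (.e (nat_lit 81939) (nat_lit 20) .nil)))))) (.g (nat_lit 1) (.e (nat_lit 103835) (nat_lit 0) .nil) .nil))))))) (.nd (nat_lit 6) (.nd (nat_lit 7) (.nd (nat_lit 8) (.nd (nat_lit 9) 
(.lf (nat_lit 477217) (.g (nat_lit 2137) (.e (nat_lit 1856) (nat_lit 124) (.e (nat_lit 557100) (nat_lit 13) (.e (nat_lit 172106) (nat_lit 10) (.e (nat_lit 434231) (nat_lit 23) (.e (nat_lit 532482) (nat_lit 0) .nil))))) (.g (nat_lit 0) (.e (nat_lit 102028) (nat_lit 0) .nil) .nil))) 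
(.lf (nat_lit 477729) (.g (nat_lit 1921) (.e (nat_lit 1994) (nat_lit 137) (.e (nat_lit 663569) (nat_lit 6) (.e (nat_lit 81946) (nat_lit 20) (.e (nat_lit 2006) (nat_lit 138) (.e (nat_lit 671764) (nat_lit 6) (.e (nat_lit 81935) (nat_lit 20) .nil)))))) (.g (nat_lit 1) (.e (nat_lit 102754) (nat_lit 0) .nil) .nil)))) (.nd (nat_lit 9) 
(.lf (nat_lit 477473) (.g (nat_lit 3276) (.e (nat_lit 1859) (nat_lit 124) (.e (nat_lit 557098) (nat_lit 13) (.e (nat_lit 172115) (nat_lit 10) (.e (nat_lit 434244) (nat_lit 28) (.e (nat_lit 573458) (nat_lit 9) (.e (nat_lit 394) (nat_lit 32) (.e (nat_lit 426198) (nat_lit 9) (.e (nat_lit 426402) (nat_lit 15) .nil)))))))) (.g (nat_lit 1) (.e (nat_lit 102338) (nat_lit 0) .nil) .nil))) 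
(.lf (nat_lit 477985) (.g (nat_lit 2500) (.e (nat_lit 2309) (nat_lit 151) (.e (nat_lit 778466) (nat_lit 11) (.e (nat_lit 24617) (nat_lit 7) (.e (nat_lit 319534) (nat_lit 16) (.e (nat_lit 286756) (nat_lit 10) (.e (nat_lit 344160) (nat_lit 37) (.e (nat_lit 647190) (nat_lit 9) (.e (nat_lit 1005) (nat_lit 81) .nil)))))))) (.g (nat_lit 1) (.e (nat_lit 103324) (nat_lit 0) .nil) .nil))))) 
(.nd (nat_lit 8) (.nd (nat_lit 9) 
(.lf (nat_lit 477345) (.g (nat_lit 2130) (.e (nat_lit 1858) (nat_lit 124) (.e (nat_lit 557101) (nat_lit 13) (.e (nat_lit 172115) (nat_lit 10) (.e (nat_lit 434244) (nat_lit 28) (.e (nat_lit 573449) (nat_lit 9) (.e (nat_lit 396) (nat_lit 32) (.e (nat_lit 426197) (nat_lit 9) (.e (nat_lit 426402) (nat_lit 15) .nil)))))))) (.g (nat_lit 1) (.e (nat_lit 102179) (nat_lit 0) .nil) .nil))) 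
(.lf (nat_lit 477857) (.g (nat_lit 3410) (.e (nat_lit 2270) (nat_lit 149) (.e (nat_lit 761898) (nat_lit 15) (.e (nat_lit 163978) (nat_lit 30) (.e (nat_lit 573489) (nat_lit 14) (.e (nat_lit 73754) (nat_lit 8) (.e (nat_lit 557101) (nat_lit 13) (.e (nat_lit 172066) (nat_lit 3) (.e (nat_lit 204821) (nat_lit 17) .nil)))))))) (.g (nat_lit 1) (.e (nat_lit 103093) (nat_lit 0) .nil) .nil)))) 
(.nd (nat_lit 9) 
(.lf (nat_lit 477601) (.g (nat_lit 4502) (.e (nat_lit 1860) (nat_lit 124) (.e (nat_lit 557100) (nat_lit 13) (.e (nat_lit 172113) (nat_lit 10) (.e (nat_lit 434248) (nat_lit 28) (.e (nat_lit 573470) (nat_lit 11) (.e (nat_lit 16438) (nat_lit 9) (.e (nat_lit 426354) (nat_lit 15) .nil))))))) (.g (nat_lit 1) (.e (nat_lit 102467) (nat_lit 0) .nil) .nil))) 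
(.lf (nat_lit 478113) (.g (nat_lit 463) (.e (nat_lit 2388) (nat_lit 156) (.e (nat_lit 819204) (nat_lit 0) (.e (nat_lit 3016) (nat_lit 187) .nil))) (.g (nat_lit 0) (.e (nat_lit 103680) (nat_lit 0) .nil) .nil)))))) (.nd (nat_lit 7) (.nd (nat_lit 8) (.nd (nat_lit 9) 
(.lf (nat_lit 477281) (.g (nat_lit 4725) (.e (nat_lit 1858) (nat_lit 124) (.e (nat_lit 557087) (nat_lit 11) (.e (nat_lit 24662) (nat_lit 14) (.e (nat_lit 401425) (nat_lit 2) .nil)))) (.g (nat_lit 0) (.e (nat_lit 102098) (nat_lit 0) .nil) .nil))) 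
(.lf (nat_lit 477793) (.g (nat_lit 1938) (.e (nat_lit 1999) (nat_lit 137) (.e (nat_lit 663567) (nat_lit 4) (.e (nat_lit 65630) (nat_lit 14) (.e (nat_lit 401437) (nat_lit 9) (.e (nat_lit 426538) (nat_lit 29) (.e (nat_lit 352285) (nat_lit 20) .nil)))))) (.g (nat_lit 1) (.e (nat_lit 102825) (nat_lit 0) .nil) .nil)))) (.nd (nat_lit 9) 
(.lf (nat_lit 477537) (.g (nat_lit 4569) (.e (nat_lit 1859) (nat_lit 124) (.e (nat_lit 557109) (nat_lit 15) (.e (nat_lit 188449) (nat_lit 22) (.e (nat_lit 196661) (nat_lit 12) (.e (nat_lit 57750) (nat_lit 201) (.e (nat_lit 2856) (nat_lit 184) (.e (nat_lit 426402) (nat_lit 15) .nil))))))) (.g (nat_lit 1) (.e (nat_lit 102403) (nat_lit 0) .nil) .nil))) 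
(.lf (nat_lit 478049) (.g (nat_lit 1773) (.e (nat_lit 2342) (nat_lit 151) (.e (nat_lit 778466) (nat_lit 11) (.e (nat_lit 24617) (nat_lit 7) (.e (nat_lit 319534) (nat_lit 16) (.e (nat_lit 286756) (nat_lit 10) (.e (nat_lit 344160) (nat_lit 37) (.e (nat_lit 647196) (nat_lit 9) (.e (nat_lit 1043) (nat_lit 81) .nil)))))))) (.g (nat_lit 1) (.e (nat_lit 103401) (nat_lit 0) .nil) .nil))))) 
(.nd (nat_lit 8) (.nd (nat_lit 9) 
(.lf (nat_lit 477409) (.g (nat_lit 3354) (.e (nat_lit 1859) (nat_lit 124) (.e (nat_lit 557098) (nat_lit 13) (.e (nat_lit 172097) (nat_lit 9) (.e (nat_lit 426125) (nat_lit 2) (.e (nat_lit 196661) (nat_lit 12) (.e (nat_lit 57748) (nat_lit 201) (.e (nat_lit 2940) (nat_lit 184) (.e (nat_lit 433920) (nat_lit 15) .nil)))))))) (.g (nat_lit 1) (.e (nat_lit 102274) (nat_lit 0) .nil) .nil))) 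
(.lf (nat_lit 477921) (.g (nat_lit 1670) (.e (nat_lit 2281) (nat_lit 150) (.e (nat_lit 770072) (nat_lit 8) (.e (nat_lit 65617) (nat_lit 10) (.e (nat_lit 344091) (nat_lit 18) (.e (nat_lit 7132) (nat_lit 382) .nil))))) (.g (nat_lit 0) (.e (nat_lit 103224) (nat_lit 0) .nil) .nil)))) (.nd (nat_lit 9) 
(.lf (nat_lit 477665) (.g (nat_lit 2919) (.e (nat_lit 1860) (nat_lit 124) (.e (nat_lit 557105) (nat_lit 14) (.e (nat_lit 180252) (nat_lit 10) (.e (nat_lit 573482) (nat_lit 13) (.e (nat_lit 65637) (nat_lit 15) .nil))))) (.g (nat_lit 0) (.e (nat_lit 102531) (nat_lit 0) .nil) .nil))) 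
(.lf (nat_lit 478177) (.g (nat_lit 4334) (.e (nat_lit 2056) (nat_lit 142) (.e (nat_lit 704589) (nat_lit 3) (.e (nat_lit 163975) (nat_lit 30) (.e (nat_lit 573492) (nat_lit 15) (.e (nat_lit 81956) (nat_lit 23) (.e (nat_lit 98356) (nat_lit 26) (.e (nat_lit 426360) (nat_lit 15) .nil))))))) (.g (nat_lit 1) (.e (nat_lit 103954) (nat_lit 0) .nil) .nil)))))))) 
(.nd (nat_lit 5) (.nd (nat_lit 6) (.nd (nat_lit 7) (.nd (nat_lit 8) (.nd (nat_lit 9) 
(.lf (nat_lit 477201) (.g (nat_lit 3760) (.e (nat_lit 1856) (nat_lit 124) (.e (nat_lit 557087) (nat_lit 11) (.e (nat_lit 24617) (nat_lit 7) (.e (nat_lit 319504) (nat_lit 10) .nil)))) (.g (nat_lit 0) (.e (nat_lit 101958) (nat_lit 0) .nil) .nil))) 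
(.lf (nat_lit 477713) (.g (nat_lit 417) (.e (nat_lit 1994) (nat_lit 137) (.e (nat_lit 663567) (nat_lit 4) (.e (nat_lit 65630) (nat_lit 14) .nil))) (.g (nat_lit 0) (.e (nat_lit 102738) (nat_lit 0) .nil) .nil)))) (.nd (nat_lit 9) 
(.lf (nat_lit 477457) (.g (nat_lit 3257) (.e (nat_lit 1859) (nat_lit 124) (.e (nat_lit 557098) (nat_lit 13) (.e (nat_lit 172115) (nat_lit 10) (.e (nat_lit 434238) (nat_lit 25) (.e (nat_lit 548898) (nat_lit 14) (.e (nat_lit 3004) (nat_lit 186) (.e (nat_lit 450304) (nat_lit 0) .nil))))))) (.g (nat_lit 1) (.e (nat_lit 102322) (nat_lit 0) .nil) .nil))) 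
(.lf (nat_lit 477969) (.g (nat_lit 2258) (.e (nat_lit 2305) (nat_lit 151) (.e (nat_lit 778466) (nat_lit 11) (.e (nat_lit 24617) (nat_lit 7) (.e (nat_lit 319534) (nat_lit 16) .nil)))) (.g (nat_lit 0) (.e (nat_lit 103307) (nat_lit 0) .nil) .nil))))) (.nd (nat_lit 8) (.nd (nat_lit 9) 
(.lf (nat_lit 477329) (.g (nat_lit 2606) (.e (nat_lit 1858) (nat_lit 124) (.e (nat_lit 557101) (nat_lit 13) (.e (nat_lit 172115) (nat_lit 10) (.e (nat_lit 434238) (nat_lit 25) (.e (nat_lit 548896) (nat_lit 14) (.e (nat_lit 2998) (nat_lit 186) (.e (nat_lit 450304) (nat_lit 0) .nil))))))) (.g (nat_lit 1) (.e (nat_lit 102163) (nat_lit 0) .nil) .nil))) 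
(.lf (nat_lit 477841) (.g (nat_lit 2838) (.e (nat_lit 2270) (nat_lit 149) (.e (nat_lit 761898) (nat_lit 15) (.e (nat_lit 163977) (nat_lit 30) (.e (nat_lit 573489) (nat_lit 14) (.e (nat_lit 73755) (nat_lit 8) (.e (nat_lit 557096) (nat_lit 13) (.e (nat_lit 172067) (nat_lit 3) (.e (nat_lit 204821) (nat_lit 17) .nil)))))))) (.g (nat_lit 1) (.e (nat_lit 103077) (nat_lit 0) .nil) .nil)))) 
(.nd (nat_lit 9) 
(.lf (nat_lit 477585) (.g (nat_lit 2624) (.e (nat_lit 1860) (nat_lit 124) (.e (nat_lit 557100) (nat_lit 13) (.e (nat_lit 172113) (nat_lit 10) (.e (nat_lit 434245) (nat_lit 28) (.e (nat_lit 573471) (nat_lit 11) (.e (nat_lit 16439) (nat_lit 9) (.e (nat_lit 433920) (nat_lit 15) .nil))))))) (.g (nat_lit 1) (.e (nat_lit 102451) (nat_lit 0) .nil) .nil))) 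
(.lf (nat_lit 478097) (.g (nat_lit 1197) (.e (nat_lit 2367) (nat_lit 153) (.e (nat_lit 794684) (nat_lit 25) (.e (nat_lit 221215) (nat_lit 23) (.e (nat_lit 204883) (nat_lit 33) (.e (nat_lit 401456) (nat_lit 13) .nil))))) (.g (nat_lit 0) (.e (nat_lit 103629) (nat_lit 0) .nil) .nil)))))) (.nd (nat_lit 7) (.nd (nat_lit 8) (.nd (nat_lit 9) 
(.lf (nat_lit 477265) (.g (nat_lit 3552) (.e (nat_lit 1856) (nat_lit 124) (.e (nat_lit 557109) (nat_lit 15) (.e (nat_lit 188452) (nat_lit 23) (.e (nat_lit 204821) (nat_lit 17) (.e (nat_lit 6674) (nat_lit 357) (.e (nat_lit 2936) (nat_lit 184) (.e (nat_lit 426419) (nat_lit 15) .nil))))))) (.g (nat_lit 1) (.e (nat_lit 102080) (nat_lit 0) .nil) .nil))) 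
(.lf (nat_lit 477777) (.g (nat_lit 1679) (.e (nat_lit 1999) (nat_lit 137) (.e (nat_lit 663567) (nat_lit 4) (.e (nat_lit 65616) (nat_lit 10) (.e (nat_lit 344169) (nat_lit 40) (.e (nat_lit 671764) (nat_lit 6) (.e (nat_lit 81934) (nat_lit 20) .nil)))))) (.g (nat_lit 1) (.e (nat_lit 102809) (nat_lit 0) .nil) .nil)))) (.nd (nat_lit 9) 
(.lf (nat_lit 477521) (.g (nat_lit 2005) (.e (nat_lit 1859) (nat_lit 124) (.e (nat_lit 557107) (nat_lit 15) (.e (nat_lit 188452) (nat_lit 23) (.e (nat_lit 204821) (nat_lit 17) (.e (nat_lit 6114) (nat_lit 332) .nil))))) (.g (nat_lit 0) (.e (nat_lit 102387) (nat_lit 0) .nil) .nil))) 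
(.lf (nat_lit 478033) (.g (nat_lit 2347) (.e (nat_lit 2342) (nat_lit 151) (.e (nat_lit 778466) (nat_lit 11) (.e (nat_lit 24604) (nat_lit 2) (.e (nat_lit 90170) (nat_lit 13) (.e (nat_lit 172106) (nat_lit 10) .nil))))) (.g (nat_lit 0) (.e (nat_lit 103383) (nat_lit 0) .nil) .nil))))) (.nd (nat_lit 8) (.nd (nat_lit 9) 
(.lf (nat_lit 477393) (.g (nat_lit 2710) (.e (nat_lit 1858) (nat_lit 124) (.e (nat_lit 557109) (nat_lit 15) (.e (nat_lit 188450) (nat_lit 23) (.e (nat_lit 204845) (nat_lit 24) .nil)))) (.g (nat_lit 0) (.e (nat_lit 102248) (nat_lit 0) .nil) .nil))) 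
(.lf (nat_lit 477905) (.g (nat_lit 5459) (.e (nat_lit 2271) (nat_lit 149) (.e (nat_lit 761898) (nat_lit 15) (.e (nat_lit 163979) (nat_lit 30) (.e (nat_lit 573489) (nat_lit 14) (.e (nat_lit 73755) (nat_lit 8) (.e (nat_lit 557104) (nat_lit 14) (.e (nat_lit 180244) (nat_lit 5) (.e (nat_lit 532481) (nat_lit 0) .nil)))))))) (.g (nat_lit 1) (.e (nat_lit 103176) (nat_lit 0) .nil) .nil)))) 
(.nd (nat_lit 9) 
(.lf (nat_lit 477649) (.g (nat_lit 2295) (.e (nat_lit 1860) (nat_lit 124) (.e (nat_lit 557101) (nat_lit 13) (.e (nat_lit 172115) (nat_lit 10) (.e (nat_lit 434244) (nat_lit 28) (.e (nat_lit 573458) (nat_lit 9) (.e (nat_lit 420) (nat_lit 32) (.e (nat_lit 426225) (nat_lit 9) (.e (nat_lit 426353) (nat_lit 15) .nil)))))))) (.g (nat_lit 1) (.e (nat_lit 102515) (nat_lit 0) .nil) .nil))) 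
(.lf (nat_lit 478161) (.g (nat_lit 1942) (.e (nat_lit 2045) (nat_lit 142) (.e (nat_lit 704589) (nat_lit 3) (.e (nat_lit 163978) (nat_lit 30) (.e (nat_lit 573485) (nat_lit 13) (.e (nat_lit 65619) (nat_lit 10) (.e (nat_lit 344117) (nat_lit 21) (.e (nat_lit 516147) (nat_lit 9) (.e (nat_lit 426402) (nat_lit 15) .nil)))))))) (.g (nat_lit 1) (.e (nat_lit 103927) (nat_lit 0) .nil) .nil))))))) 
(.nd (nat_lit 6) (.nd (nat_lit 7) (.nd (nat_lit 8) (.nd (nat_lit 9) 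
(.lf (nat_lit 477233) (.g (nat_lit 1320) (.e (nat_lit 1856) (nat_lit 124) (.e (nat_lit 557100) (nat_lit 13) (.e (nat_lit 172113) (nat_lit 10) (.e (nat_lit 434245) (nat_lit 28) (.e (nat_lit 573471) (nat_lit 11) .nil))))) (.g (nat_lit 0) (.e (nat_lit 102045) (nat_lit 0) .nil) .nil))) 
(.lf (nat_lit 477745) (.g (nat_lit 2325) (.e (nat_lit 1996) (nat_lit 137) (.e (nat_lit 663567) (nat_lit 4) (.e (nat_lit 65619) (nat_lit 10) (.e (nat_lit 344169) (nat_lit 40) (.e (nat_lit 671764) (nat_lit 6) (.e (nat_lit 81935) (nat_lit 20) .nil)))))) (.g (nat_lit 1) (.e (nat_lit 102775) (nat_lit 0) .nil) .nil)))) (.nd (nat_lit 9) 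
(.lf (nat_lit 477489) (.g (nat_lit 1620) (.e (nat_lit 1859) (nat_lit 124) (.e (nat_lit 557107) (nat_lit 15) (.e (nat_lit 188439) (nat_lit 20) (.e (nat_lit 3270) (nat_lit 199) (.e (nat_lit 548898) (nat_lit 14) (.e (nat_lit 3004) (nat_lit 186) (.e (nat_lit 450304) (nat_lit 0) .nil))))))) (.g (nat_lit 1) (.e (nat_lit 102355) (nat_lit 0) .nil) .nil))) 
(.lf (nat_lit 478001) (.g (nat_lit 2232) (.e (nat_lit 2314) (nat_lit 151) (.e (nat_lit 778466) (nat_lit 11) (.e (nat_lit 24617) (nat_lit 7) (.e (nat_lit 319533) (nat_lit 16) .nil)))) (.g (nat_lit 0) (.e (nat_lit 103344) (nat_lit 0) .nil) .nil))))) (.nd (nat_lit 8) (.nd (nat_lit 9) 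
(.lf (nat_lit 477361) (.g (nat_lit 2880) (.e (nat_lit 1858) (nat_lit 124) (.e (nat_lit 557101) (nat_lit 13) (.e (nat_lit 172115) (nat_lit 10) (.e (nat_lit 434244) (nat_lit 28) (.e (nat_lit 573458) (nat_lit 9) (.e (nat_lit 426) (nat_lit 32) (.e (nat_lit 426186) (nat_lit 9) (.e (nat_lit 426402) (nat_lit 15) .nil)))))))) (.g (nat_lit 1) (.e (nat_lit 102195) (nat_lit 0) .nil) .nil))) 
(.lf (nat_lit 477873) (.g (nat_lit 3028) (.e (nat_lit 2270) (nat_lit 149) (.e (nat_lit 761898) (nat_lit 15) (.e (nat_lit 163979) (nat_lit 30) (.e (nat_lit 573489) (nat_lit 14) (.e (nat_lit 73755) (nat_lit 8) (.e (nat_lit 557097) (nat_lit 13) (.e (nat_lit 172065) (nat_lit 3) (.e (nat_lit 204821) (nat_lit 17) .nil)))))))) (.g (nat_lit 1) (.e (nat_lit 103109) (nat_lit 0) .nil) .nil)))) 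
(.nd (nat_lit 9) 
(.lf (nat_lit 477617) (.g (nat_lit 2500) (.e (nat_lit 1860) (nat_lit 124) (.e (nat_lit 557101) (nat_lit 13) (.e (nat_lit 172115) (nat_lit 10) (.e (nat_lit 434231) (nat_lit 23) (.e (nat_lit 532490) (nat_lit 0) (.e (nat_lit 6674) (nat_lit 357) (.e (nat_lit 2940) (nat_lit 184) (.e (nat_lit 426353) (nat_lit 15) .nil)))))))) (.g (nat_lit 1) (.e (nat_lit 102483) (nat_lit 0) .nil) .nil))) 
(.lf (nat_lit 478129) (.g (nat_lit 1564) (.e (nat_lit 2391) (nat_lit 156) (.e (nat_lit 819203) (nat_lit 0) (.e (nat_lit 3015) (nat_lit 187) (.e (nat_lit 450584) (nat_lit 9) (.e (nat_lit 573184) (nat_lit 6) .nil))))) (.g (nat_lit 0) (.e (nat_lit 103757) (nat_lit 0) .nil) .nil)))))) (.nd (nat_lit 7) (.nd (nat_lit 8) (.nd (nat_lit 9) 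
(.lf (nat_lit 477297) (.g (nat_lit 3924) (.e (nat_lit 1858) (nat_lit 124) (.e (nat_lit 557101) (nat_lit 13) (.e (nat_lit 172097) (nat_lit 9) (.e (nat_lit 426125) (nat_lit 2) (.e (nat_lit 196661) (nat_lit 12) (.e (nat_lit 57750) (nat_lit 201) (.e (nat_lit 2854) (nat_lit 184) (.e (nat_lit 426402) (nat_lit 15) .nil)))))))) (.g (nat_lit 1) (.e (nat_lit 102131) (nat_lit 0) .nil) .nil))) 
(.lf (nat_lit 477809) (.g (nat_lit 1972) (.e (nat_lit 2004) (nat_lit 138) (.e (nat_lit 671759) (nat_lit 3) (.e (nat_lit 57480) (nat_lit 28) (.e (nat_lit 557095) (nat_lit 13) .nil)))) (.g (nat_lit 0) (.e (nat_lit 102842) (nat_lit 0) .nil) .nil)))) (.nd (nat_lit 9) 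
(.lf (nat_lit 477553) (.g (nat_lit 3742) (.e (nat_lit 1860) (nat_lit 124) (.e (nat_lit 557087) (nat_lit 11) (.e (nat_lit 24617) (nat_lit 7) (.e (nat_lit 319504) (nat_lit 10) .nil)))) (.g (nat_lit 0) (.e (nat_lit 102419) (nat_lit 0) .nil) .nil))) 
(.lf (nat_lit 478065) (.g (nat_lit 4307) (.e (nat_lit 2346) (nat_lit 151) (.e (nat_lit 778466) (nat_lit 11) (.e (nat_lit 24617) (nat_lit 7) (.e (nat_lit 319534) (nat_lit 16) (.e (nat_lit 286756) (nat_lit 10) (.e (nat_lit 344160) (nat_lit 37) (.e (nat_lit 647195) (nat_lit 9) (.e (nat_lit 1039) (nat_lit 81) .nil)))))))) (.g (nat_lit 1) (.e (nat_lit 103435) (nat_lit 0) .nil) .nil))))) 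
(.nd (nat_lit 8) (.nd (nat_lit 9) 
(.lf (nat_lit 477425) (.g (nat_lit 3944) (.e (nat_lit 1859) (nat_lit 124) (.e (nat_lit 557098) (nat_lit 13) (.e (nat_lit 172097) (nat_lit 9) (.e (nat_lit 426140) (nat_lit 3) (.e (nat_lit 204821) (nat_lit 17) (.e (nat_lit 6676) (nat_lit 357) (.e (nat_lit 2856) (nat_lit 184) (.e (nat_lit 426402) (nat_lit 15) .nil)))))))) (.g (nat_lit 1) (.e (nat_lit 102290) (nat_lit 0) .nil) .nil))) 
(.lf (nat_lit 477937) (.g (nat_lit 2805) (.e (nat_lit 2283) (nat_lit 150) (.e (nat_lit 770071) (nat_lit 8) (.e (nat_lit 65586) (nat_lit 7) (.e (nat_lit 319534) (nat_lit 16) (.e (nat_lit 286751) (nat_lit 10) .nil))))) (.g (nat_lit 0) (.e (nat_lit 103246) (nat_lit 0) .nil) .nil)))) (.nd (nat_lit 9) 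
(.lf (nat_lit 477681) (.g (nat_lit 2074) (.e (nat_lit 7936) (nat_lit 124) (.e (nat_lit 557109) (nat_lit 15) (.e (nat_lit 188452) (nat_lit 23) (.e (nat_lit 204885) (nat_lit 33) .nil)))) (.g (nat_lit 0) (.e (nat_lit 102563) (nat_lit 0) .nil) .nil))) 
(.lf (nat_lit 478193) (.g (nat_lit 1932) (.e (nat_lit 2056) (nat_lit 142) (.e (nat_lit 704589) (nat_lit 3) (.e (nat_lit 163978) (nat_lit 30) (.e (nat_lit 573485) (nat_lit 13) (.e (nat_lit 65619) (nat_lit 10) (.e (nat_lit 344117) (nat_lit 21) (.e (nat_lit 516147) (nat_lit 9) (.e (nat_lit 426402) (nat_lit 15) .nil)))))))) (.g (nat_lit 1) (.e (nat_lit 103970) (nat_lit 0) .nil) .nil))))))))) 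
(.nd (nat_lit 4) (.nd (nat_lit 5) (.nd (nat_lit 6) (.nd (nat_lit 7) (.nd (nat_lit 8) 
(.nd (nat_lit 9) 
(.lf (nat_lit 477193) (.g (nat_lit 2902) (.e (nat_lit 1855) (nat_lit 124) (.e (nat_lit 557109) (nat_lit 15) (.e (nat_lit 188452) (nat_lit 23) (.e (nat_lit 204879) (nat_lit 32) .nil)))) (.g (nat_lit 0) (.e (nat_lit 101949) (nat_lit 0) .nil) .nil))) 
(.lf (nat_lit 477705) (.g (nat_lit 2013) (.e (nat_lit 1994) (nat_lit 137) (.e (nat_lit 663567) (nat_lit 4) (.e (nat_lit 65619) (nat_lit 10) (.e (nat_lit 344169) (nat_lit 40) (.e (nat_lit 671764) (nat_lit 6) (.e (nat_lit 81934) (nat_lit 20) .nil)))))) (.g (nat_lit 1) (.e (nat_lit 102730) (nat_lit 0) .nil) .nil)))) (.nd (nat_lit 9) 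
(.lf (nat_lit 477449) (.g (nat_lit 2689) (.e (nat_lit 1859) (nat_lit 124) (.e (nat_lit 557098) (nat_lit 13) (.e (nat_lit 172115) (nat_lit 10) (.e (nat_lit 434238) (nat_lit 25) (.e (nat_lit 548897) (nat_lit 14) (.e (nat_lit 2998) (nat_lit 186) (.e (nat_lit 450304) (nat_lit 0) .nil))))))) (.g (nat_lit 1) (.e (nat_lit 102314) (nat_lit 0) .nil) .nil))) 
(.lf (nat_lit 477961) (.g (nat_lit 3062) (.e (nat_lit 2304) (nat_lit 151) (.e (nat_lit 778466) (nat_lit 11) (.e (nat_lit 24617) (nat_lit 7) (.e (nat_lit 319534) (nat_lit 16) (.e (nat_lit 286756) (nat_lit 10) (.e (nat_lit 344160) (nat_lit 37) (.e (nat_lit 647188) (nat_lit 9) (.e (nat_lit 973) (nat_lit 81) .nil)))))))) (.g (nat_lit 1) (.e (nat_lit 103295) (nat_lit 0) .nil) .nil))))) 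
(.nd (nat_lit 8) (.nd (nat_lit 9) 
(.lf (nat_lit 477321) (.g (nat_lit 2141) (.e (nat_lit 1858) (nat_lit 124) (.e (nat_lit 557101) (nat_lit 13) (.e (nat_lit 172115) (nat_lit 10) (.e (nat_lit 434231) (nat_lit 23) (.e (nat_lit 532490) (nat_lit 0) (.e (nat_lit 6674) (nat_lit 357) (.e (nat_lit 2939) (nat_lit 184) (.e (nat_lit 433920) (nat_lit 15) .nil)))))))) (.g (nat_lit 1) (.e (nat_lit 102155) (nat_lit 0) .nil) .nil))) 
(.lf (nat_lit 477833) (.g (nat_lit 1739) (.e (nat_lit 2265) (nat_lit 149) (.e (nat_lit 761910) (nat_lit 17) (.e (nat_lit 180252) (nat_lit 10) (.e (nat_lit 573456) (nat_lit 9) .nil)))) (.g (nat_lit 0) (.e (nat_lit 102993) (nat_lit 0) .nil) .nil)))) (.nd (nat_lit 9) 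
(.lf (nat_lit 477577) (.g (nat_lit 2808) (.e (nat_lit 1860) (nat_lit 124) (.e (nat_lit 557100) (nat_lit 13) (.e (nat_lit 172113) (nat_lit 10) (.e (nat_lit 434245) (nat_lit 28) (.e (nat_lit 573471) (nat_lit 11) (.e (nat_lit 16434) (nat_lit 9) (.e (nat_lit 426350) (nat_lit 15) .nil))))))) (.g (nat_lit 1) (.e (nat_lit 102443) (nat_lit 0) .nil) .nil))) 
(.lf (nat_lit 478089) (.g (nat_lit 2465) (.e (nat_lit 2349) (nat_lit 151) (.e (nat_lit 778466) (nat_lit 11) (.e (nat_lit 24617) (nat_lit 7) (.e (nat_lit 319534) (nat_lit 16) (.e (nat_lit 286756) (nat_lit 10) (.e (nat_lit 344160) (nat_lit 37) (.e (nat_lit 647192) (nat_lit 9) (.e (nat_lit 991) (nat_lit 81) .nil)))))))) (.g (nat_lit 1) (.e (nat_lit 103460) (nat_lit 0) .nil) .nil)))))) 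
(.nd (nat_lit 7) (.nd (nat_lit 8) (.nd (nat_lit 9) 
(.lf (nat_lit 477257) (.g (nat_lit 2793) (.e (nat_lit 1856) (nat_lit 124) (.e (nat_lit 557107) (nat_lit 15) (.e (nat_lit 188441) (nat_lit 20) (.e (nat_lit 3272) (nat_lit 199) (.e (nat_lit 548915) (nat_lit 20) (.e (nat_lit 188420) (nat_lit 0) .nil)))))) (.g (nat_lit 1) (.e (nat_lit 102072) (nat_lit 0) .nil) .nil))) 
(.lf (nat_lit 477769) (.g (nat_lit 1283) (.e (nat_lit 1999) (nat_lit 137) (.e (nat_lit 663567) (nat_lit 4) (.e (nat_lit 65609) (nat_lit 10) (.e (nat_lit 344169) (nat_lit 40) (.e (nat_lit 671764) (nat_lit 6) .nil))))) (.g (nat_lit 0) (.e (nat_lit 102801) (nat_lit 0) .nil) .nil)))) (.nd (nat_lit 9) 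
(.lf (nat_lit 477513) (.g (nat_lit 2661) (.e (nat_lit 1859) (nat_lit 124) (.e (nat_lit 557107) (nat_lit 15) (.e (nat_lit 188441) (nat_lit 20) (.e (nat_lit 3272) (nat_lit 199) (.e (nat_lit 548898) (nat_lit 14) (.e (nat_lit 2999) (nat_lit 186) (.e (nat_lit 450304) (nat_lit 0) .nil))))))) (.g (nat_lit 1) (.e (nat_lit 102379) (nat_lit 0) .nil) .nil))) 
(.lf (nat_lit 478025) (.g (nat_lit 4163) (.e (nat_lit 2332) (nat_lit 151) (.e (nat_lit 778466) (nat_lit 11) (.e (nat_lit 24617) (nat_lit 7) (.e (nat_lit 319534) (nat_lit 16) (.e (nat_lit 286756) (nat_lit 10) (.e (nat_lit 344160) (nat_lit 37) (.e (nat_lit 647190) (nat_lit 9) (.e (nat_lit 7936) (nat_lit 81) .nil)))))))) (.g (nat_lit 1) (.e (nat_lit 103375) (nat_lit 0) .nil) .nil))))) 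
(.nd (nat_lit 8) (.nd (nat_lit 9) 
(.lf (nat_lit 477385) (.g (nat_lit 3382) (.e (nat_lit 1858) (nat_lit 124) (.e (nat_lit 557105) (nat_lit 14) (.e (nat_lit 180252) (nat_lit 10) (.e (nat_lit 573482) (nat_lit 13) (.e (nat_lit 73472) (nat_lit 15) (.e (nat_lit 3253) (nat_lit 197) (.e (nat_lit 532499) (nat_lit 1) (.e (nat_lit 57847) (nat_lit 252) (.e (nat_lit 57355) (nat_lit 0) .nil))))))))) (.g (nat_lit 1) (.e (nat_lit 102238) (nat_lit 0) .nil) .nil))) 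
(.lf (nat_lit 477897) (.g (nat_lit 4677) (.e (nat_lit 2271) (nat_lit 149) (.e (nat_lit 761898) (nat_lit 15) (.e (nat_lit 163977) (nat_lit 30) (.e (nat_lit 573489) (nat_lit 14) (.e (nat_lit 73755) (nat_lit 8) (.e (nat_lit 557097) (nat_lit 13) (.e (nat_lit 172067) (nat_lit 3) (.e (nat_lit 204815) (nat_lit 17) .nil)))))))) (.g (nat_lit 1) (.e (nat_lit 103167) (nat_lit 0) .nil) .nil)))) 
(.nd (nat_lit 9) 
(.lf (nat_lit 477641) (.g (nat_lit 3182) (.e (nat_lit 1860) (nat_lit 124) (.e (nat_lit 557101) (nat_lit 13) (.e (nat_lit 172115) (nat_lit 10) (.e (nat_lit 434244) (nat_lit 28) (.e (nat_lit 573450) (nat_lit 9) (.e (nat_lit 454) (nat_lit 34) (.e (nat_lit 450304) (nat_lit 0) .nil))))))) (.g (nat_lit 1) (.e (nat_lit 102507) (nat_lit 0) .nil) .nil))) 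
(.lf (nat_lit 478153) (.g (nat_lit 1662) (.e (nat_lit 2031) (nat_lit 140) (.e (nat_lit 688177) (nat_lit 16) (.e (nat_lit 65617) (nat_lit 10) (.e (nat_lit 344091) (nat_lit 18) (.e (nat_lit 5160) (nat_lit 292) .nil))))) (.g (nat_lit 0) (.e (nat_lit 103856) (nat_lit 0) .nil) .nil))))))) (.nd (nat_lit 6) (.nd (nat_lit 7) (.nd (nat_lit 8) (.nd (nat_lit 9) 
(.lf (nat_lit 477225) (.g (nat_lit 3307) (.e (nat_lit 1856) (nat_lit 124) (.e (nat_lit 557100) (nat_lit 13) (.e (nat_lit 172106) (nat_lit 10) (.e (nat_lit 434244) (nat_lit 28) (.e (nat_lit 573464) (nat_lit 9) (.e (nat_lit 461) (nat_lit 34) (.e (nat_lit 442379) (nat_lit 0) .nil))))))) (.g (nat_lit 1) (.e (nat_lit 102036) (nat_lit 0) .nil) .nil))) 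
(.lf (nat_lit 477737) (.g (nat_lit 386) (.e (nat_lit 1996) (nat_lit 137) (.e (nat_lit 663567) (nat_lit 4) (.e (nat_lit 65610) (nat_lit 10) .nil))) (.g (nat_lit 0) (.e (nat_lit 102767) (nat_lit 0) .nil) .nil)))) (.nd (nat_lit 9) 
(.lf (nat_lit 477481) (.g (nat_lit 2559) (.e (nat_lit 1859) (nat_lit 124) (.e (nat_lit 557098) (nat_lit 13) (.e (nat_lit 172115) (nat_lit 10) (.e (nat_lit 434244) (nat_lit 28) (.e (nat_lit 573458) (nat_lit 9) (.e (nat_lit 7936) (nat_lit 37) (.e (nat_lit 474880) (nat_lit 0) .nil))))))) (.g (nat_lit 1) (.e (nat_lit 102346) (nat_lit 0) .nil) .nil))) 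
(.lf (nat_lit 477993) (.g (nat_lit 3657) (.e (nat_lit 2310) (nat_lit 151) (.e (nat_lit 778466) (nat_lit 11) (.e (nat_lit 24617) (nat_lit 7) (.e (nat_lit 319534) (nat_lit 16) (.e (nat_lit 286756) (nat_lit 10) (.e (nat_lit 344160) (nat_lit 37) (.e (nat_lit 647195) (nat_lit 9) (.e (nat_lit 7936) (nat_lit 81) .nil)))))))) (.g (nat_lit 1) (.e (nat_lit 103336) (nat_lit 0) .nil) .nil))))) 
(.nd (nat_lit 8) (.nd (nat_lit 9) 
(.lf (nat_lit 477353) (.g (nat_lit 2930) (.e (nat_lit 1858) (nat_lit 124) (.e (nat_lit 557101) (nat_lit 13) (.e (nat_lit 172115) (nat_lit 10) (.e (nat_lit 434244) (nat_lit 28) (.e (nat_lit 573450) (nat_lit 9) (.e (nat_lit 389) (nat_lit 32) (.e (nat_lit 426197) (nat_lit 9) (.e (nat_lit 426402) (nat_lit 15) .nil)))))))) (.g (nat_lit 1) (.e (nat_lit 102187) (nat_lit 0) .nil) .nil))) 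
(.lf (nat_lit 477865) (.g (nat_lit 2007) (.e (nat_lit 2270) (nat_lit 149) (.e (nat_lit 761898) (nat_lit 15) (.e (nat_lit 163978) (nat_lit 30) (.e (nat_lit 573489) (nat_lit 14) (.e (nat_lit 73755) (nat_lit 8) (.e (nat_lit 557105) (nat_lit 14) (.e (nat_lit 180245) (nat_lit 5) (.e (nat_lit 532480) (nat_lit 0) .nil)))))))) (.g (nat_lit 1) (.e (nat_lit 103101) (nat_lit 0) .nil) .nil)))) 
(.nd (nat_lit 9) 
(.lf (nat_lit 477609) (.g (nat_lit 2473) (.e (nat_lit 1860) (nat_lit 124) (.e (nat_lit 557101) (nat_lit 13) (.e (nat_lit 172097) (nat_lit 9) (.e (nat_lit 426125) (nat_lit 2) (.e (nat_lit 196661) (nat_lit 12) (.e (nat_lit 57748) (nat_lit 201) (.e (nat_lit 2941) (nat_lit 184) (.e (nat_lit 433920) (nat_lit 15) .nil)))))))) (.g (nat_lit 1) (.e (nat_lit 102475) (nat_lit 0) .nil) .nil))) 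
(.lf (nat_lit 478121) (.g (nat_lit 1552) (.e (nat_lit 2390) (nat_lit 156) (.e (nat_lit 819204) (nat_lit 0) (.e (nat_lit 3022) (nat_lit 187) (.e (nat_lit 450584) (nat_lit 9) (.e (nat_lit 573184) (nat_lit 6) .nil))))) (.g (nat_lit 0) (.e (nat_lit 103720) (nat_lit 0) .nil) .nil)))))) (.nd (nat_lit 7) (.nd (nat_lit 8) (.nd (nat_lit 9) 
(.lf (nat_lit 477289) (.g (nat_lit 2352) (.e (nat_lit 1858) (nat_lit 124) (.e (nat_lit 557101) (nat_lit 13) (.e (nat_lit 172097) (nat_lit 9) (.e (nat_lit 426125) (nat_lit 2) (.e (nat_lit 196661) (nat_lit 12) (.e (nat_lit 57748) (nat_lit 201) (.e (nat_lit 2936) (nat_lit 184) (.e (nat_lit 433920) (nat_lit 15) .nil)))))))) (.g (nat_lit 1) (.e (nat_lit 102123) (nat_lit 0) .nil) .nil))) 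
(.lf (nat_lit 477801) (.g (nat_lit 2589) (.e (nat_lit 2003) (nat_lit 138) (.e (nat_lit 671763) (nat_lit 5) (.e (nat_lit 73781) (nat_lit 32) (.e (nat_lit 2856) (nat_lit 184) (.e (nat_lit 426542) (nat_lit 29) (.e (nat_lit 352290) (nat_lit 20) .nil)))))) (.g (nat_lit 1) (.e (nat_lit 102834) (nat_lit 0) .nil) .nil)))) (.nd (nat_lit 9) 
(.lf (nat_lit 477545) (.g (nat_lit 2313) (.e (nat_lit 1859) (nat_lit 124) (.e (nat_lit 557109) (nat_lit 15) (.e (nat_lit 188450) (nat_lit 23) (.e (nat_lit 204885) (nat_lit 33) .nil)))) (.g (nat_lit 0) (.e (nat_lit 102411) (nat_lit 0) .nil) .nil))) 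
(.lf (nat_lit 478057) (.g (nat_lit 2201) (.e (nat_lit 2346) (nat_lit 151) (.e (nat_lit 778466) (nat_lit 11) (.e (nat_lit 24584) (nat_lit 0) (.e (nat_lit 2355) (nat_lit 152) .nil)))) (.g (nat_lit 0) (.e (nat_lit 103409) (nat_lit 0) .nil) .nil))))) (.nd (nat_lit 8) (.nd (nat_lit 9) 
(.lf (nat_lit 477417) (.g (nat_lit 3578) (.e (nat_lit 1859) (nat_lit 124) (.e (nat_lit 557098) (nat_lit 13) (.e (nat_lit 172097) (nat_lit 9) (.e (nat_lit 426125) (nat_lit 2) (.e (nat_lit 196661) (nat_lit 12) (.e (nat_lit 57751) (nat_lit 201) (.e (nat_lit 2854) (nat_lit 184) (.e (nat_lit 426402) (nat_lit 15) .nil)))))))) (.g (nat_lit 1) (.e (nat_lit 102282) (nat_lit 0) .nil) .nil))) 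
(.lf (nat_lit 477929) (.g (nat_lit 1593) (.e (nat_lit 2283) (nat_lit 150) (.e (nat_lit 770071) (nat_lit 8) (.e (nat_lit 65583) (nat_lit 7) (.e (nat_lit 319530) (nat_lit 16) (.e (nat_lit 286748) (nat_lit 9) .nil))))) (.g (nat_lit 0) (.e (nat_lit 103237) (nat_lit 0) .nil) .nil)))) (.nd (nat_lit 9) 
(.lf (nat_lit 477673) (.g (nat_lit 4729) (.e (nat_lit 1860) (nat_lit 124) (.e (nat_lit 557108) (nat_lit 15) (.e (nat_lit 188452) (nat_lit 23) (.e (nat_lit 204884) (nat_lit 33) .nil)))) (.g (nat_lit 0) (.e (nat_lit 102539) (nat_lit 0) .nil) .nil))) 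
(.lf (nat_lit 478185) (.g (nat_lit 2905) (.e (nat_lit 2056) (nat_lit 142) (.e (nat_lit 704589) (nat_lit 3) (.e (nat_lit 163976) (nat_lit 30) (.e (nat_lit 573492) (nat_lit 15) (.e (nat_lit 81956) (nat_lit 23) (.e (nat_lit 98355) (nat_lit 26) (.e (nat_lit 426376) (nat_lit 15) .nil))))))) (.g (nat_lit 1) (.e (nat_lit 103962) (nat_lit 0) .nil) .nil)))))))) 
(.nd (nat_lit 5) (.nd (nat_lit 6) (.nd (nat_lit 7) (.nd (nat_lit 8) (.nd (nat_lit 9) 
(.lf (nat_lit 477209) (.g (nat_lit 1357) (.e (nat_lit 1856) (nat_lit 124) (.e (nat_lit 557098) (nat_lit 13) (.e (nat_lit 172115) (nat_lit 10) (.e (nat_lit 434227) (nat_lit 20) .nil)))) (.g (nat_lit 0) (.e (nat_lit 102015) (nat_lit 0) .nil) .nil))) 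
(.lf (nat_lit 477721) (.g (nat_lit 1638) (.e (nat_lit 1994) (nat_lit 137) (.e (nat_lit 663569) (nat_lit 6) (.e (nat_lit 81924) (nat_lit 0) (.e (nat_lit 3631) (nat_lit 227) (.e (nat_lit 778326) (nat_lit 6) (.e (nat_lit 81931) (nat_lit 20) .nil)))))) (.g (nat_lit 1) (.e (nat_lit 102746) (nat_lit 0) .nil) .nil)))) (.nd (nat_lit 9) 
(.lf (nat_lit 477465) (.g (nat_lit 2283) (.e (nat_lit 1859) (nat_lit 124) (.e (nat_lit 557098) (nat_lit 13) (.e (nat_lit 172115) (nat_lit 10) (.e (nat_lit 434244) (nat_lit 28) (.e (nat_lit 573449) (nat_lit 9) (.e (nat_lit 7936) (nat_lit 34) (.e (nat_lit 450304) (nat_lit 0) .nil))))))) (.g (nat_lit 1) (.e (nat_lit 102330) (nat_lit 0) .nil) .nil))) 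
(.lf (nat_lit 477977) (.g (nat_lit 2263) (.e (nat_lit 2309) (nat_lit 151) (.e (nat_lit 778465) (nat_lit 11) (.e (nat_lit 24617) (nat_lit 7) (.e (nat_lit 319533) (nat_lit 16) (.e (nat_lit 286753) (nat_lit 10) .nil))))) (.g (nat_lit 0) (.e (nat_lit 103316) (nat_lit 0) .nil) .nil))))) (.nd (nat_lit 8) (.nd (nat_lit 9) 
(.lf (nat_lit 477337) (.g (nat_lit 2737) (.e (nat_lit 1858) (nat_lit 124) (.e (nat_lit 557101) (nat_lit 13) (.e (nat_lit 172115) (nat_lit 10) (.e (nat_lit 434238) (nat_lit 25) (.e (nat_lit 548897) (nat_lit 14) (.e (nat_lit 3005) (nat_lit 186) (.e (nat_lit 450304) (nat_lit 0) .nil))))))) (.g (nat_lit 1) (.e (nat_lit 102171) (nat_lit 0) .nil) .nil))) 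
(.lf (nat_lit 477849) (.g (nat_lit 2469) (.e (nat_lit 2270) (nat_lit 149) (.e (nat_lit 761898) (nat_lit 15) (.e (nat_lit 163978) (nat_lit 30) (.e (nat_lit 573487) (nat_lit 14) (.e (nat_lit 73753) (nat_lit 8) (.e (nat_lit 557098) (nat_lit 13) (.e (nat_lit 172066) (nat_lit 3) (.e (nat_lit 204822) (nat_lit 17) .nil)))))))) (.g (nat_lit 1) (.e (nat_lit 103085) (nat_lit 0) .nil) .nil)))) 
(.nd (nat_lit 9) 
(.lf (nat_lit 477593) (.g (nat_lit 3960) (.e (nat_lit 1860) (nat_lit 124) (.e (nat_lit 557100) (nat_lit 13) (.e (nat_lit 172113) (nat_lit 10) (.e (nat_lit 434248) (nat_lit 28) (.e (nat_lit 573469) (nat_lit 11) (.e (nat_lit 16435) (nat_lit 9) (.e (nat_lit 426354) (nat_lit 15) .nil))))))) (.g (nat_lit 1) (.e (nat_lit 102459) (nat_lit 0) .nil) .nil))) 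
(.lf (nat_lit 478105) (.g (nat_lit 888) (.e (nat_lit 2384) (nat_lit 155) (.e (nat_lit 811011) (nat_lit 0) (.e (nat_lit 5779) (nat_lit 317) (.e (nat_lit 180241) (nat_lit 4) (.e (nat_lit 524340) (nat_lit 28) (.e (nat_lit 352285) (nat_lit 20) .nil)))))) (.g (nat_lit 1) (.e (nat_lit 103663) (nat_lit 0) .nil) .nil)))))) (.nd (nat_lit 7) (.nd (nat_lit 8) (.nd (nat_lit 9) 
(.lf (nat_lit 477273) (.g (nat_lit 3082) (.e (nat_lit 1857) (nat_lit 124) (.e (nat_lit 557105) (nat_lit 14) (.e (nat_lit 180252) (nat_lit 10) (.e (nat_lit 573481) (nat_lit 13) (.e (nat_lit 65637) (nat_lit 15) .nil))))) (.g (nat_lit 0) (.e (nat_lit 102088) (nat_lit 0) .nil) .nil))) 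
(.lf (nat_lit 477785) (.g (nat_lit 1722) (.e (nat_lit 1999) (nat_lit 137) (.e (nat_lit 663567) (nat_lit 4) (.e (nat_lit 65620) (nat_lit 10) (.e (nat_lit 344169) (nat_lit 40) (.e (nat_lit 671764) (nat_lit 6) (.e (nat_lit 81934) (nat_lit 20) .nil)))))) (.g (nat_lit 1) (.e (nat_lit 102817) (nat_lit 0) .nil) .nil)))) (.nd (nat_lit 9) 
(.lf (nat_lit 477529) (.g (nat_lit 3017) (.e (nat_lit 1859) (nat_lit 124) (.e (nat_lit 557109) (nat_lit 15) (.e (nat_lit 188447) (nat_lit 22) (.e (nat_lit 196661) (nat_lit 12) (.e (nat_lit 57751) (nat_lit 201) (.e (nat_lit 2857) (nat_lit 184) (.e (nat_lit 426402) (nat_lit 15) .nil))))))) (.g (nat_lit 1) (.e (nat_lit 102395) (nat_lit 0) .nil) .nil))) 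
(.lf (nat_lit 478041) (.g (nat_lit 3242) (.e (nat_lit 2342) (nat_lit 151) (.e (nat_lit 778466) (nat_lit 11) (.e (nat_lit 24617) (nat_lit 7) (.e (nat_lit 319533) (nat_lit 16) (.e (nat_lit 286753) (nat_lit 10) (.e (nat_lit 344160) (nat_lit 37) (.e (nat_lit 647195) (nat_lit 9) (.e (nat_lit 1039) (nat_lit 81) .nil)))))))) (.g (nat_lit 1) (.e (nat_lit 103391) (nat_lit 0) .nil) .nil))))) 
(.nd (nat_lit 8) (.nd (nat_lit 9) 
(.lf (nat_lit 477401) (.g (nat_lit 1634) (.e (nat_lit 1859) (nat_lit 124) (.e (nat_lit 557087) (nat_lit 11) (.e (nat_lit 24647) (nat_lit 12) (.e (nat_lit 385074) (nat_lit 31) .nil)))) (.g (nat_lit 0) (.e (nat_lit 102262) (nat_lit 0) .nil) .nil))) 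
(.lf (nat_lit 477913) (.g (nat_lit 2377) (.e (nat_lit 2276) (nat_lit 150) (.e (nat_lit 770071) (nat_lit 8) (.e (nat_lit 65586) (nat_lit 7) (.e (nat_lit 319531) (nat_lit 16) (.e (nat_lit 286755) (nat_lit 10) .nil))))) (.g (nat_lit 0) (.e (nat_lit 103205) (nat_lit 0) .nil) .nil)))) (.nd (nat_lit 9) 
(.lf (nat_lit 477657) (.g (nat_lit 2080) (.e (nat_lit 1860) (nat_lit 124) (.e (nat_lit 557101) (nat_lit 13) (.e (nat_lit 172115) (nat_lit 10) (.e (nat_lit 434244) (nat_lit 28) (.e (nat_lit 573458) (nat_lit 9) (.e (nat_lit 7936) (nat_lit 32) (.e (nat_lit 426230) (nat_lit 9) (.e (nat_lit 426353) (nat_lit 15) .nil)))))))) (.g (nat_lit 1) (.e (nat_lit 102523) (nat_lit 0) .nil) .nil))) 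
(.lf (nat_lit 478169) (.g (nat_lit 3024) (.e (nat_lit 2056) (nat_lit 142) (.e (nat_lit 704589) (nat_lit 3) (.e (nat_lit 163975) (nat_lit 30) (.e (nat_lit 573491) (nat_lit 15) (.e (nat_lit 81954) (nat_lit 23) (.e (nat_lit 98356) (nat_lit 26) (.e (nat_lit 426360) (nat_lit 15) .nil))))))) (.g (nat_lit 1) (.e (nat_lit 103945) (nat_lit 0) .nil) .nil))))))) 
(.nd (nat_lit 6) (.nd (nat_lit 7) (.nd (nat_lit 8) (.nd (nat_lit 9) 
(.lf (nat_lit 477241) (.g (nat_lit 1633) (.e (nat_lit 1856) (nat_lit 124) (.e (nat_lit 557101) (nat_lit 13) (.e (nat_lit 172115) (nat_lit 10) (.e (nat_lit 434231) (nat_lit 23) (.e (nat_lit 532481) (nat_lit 0) .nil))))) (.g (nat_lit 0) (.e (nat_lit 102053) (nat_lit 0) .nil) .nil))) 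
(.lf (nat_lit 477753) (.g (nat_lit 1290) (.e (nat_lit 1996) (nat_lit 137) (.e (nat_lit 663567) (nat_lit 4) (.e (nat_lit 65630) (nat_lit 14) (.e (nat_lit 401456) (nat_lit 13) .nil)))) (.g (nat_lit 0) (.e (nat_lit 102783) (nat_lit 0) .nil) .nil)))) (.nd (nat_lit 9) 
(.lf (nat_lit 477497) (.g (nat_lit 2020) (.e (nat_lit 1859) (nat_lit 124) (.e (nat_lit 557107) (nat_lit 15) (.e (nat_lit 188439) (nat_lit 20) (.e (nat_lit 3272) (nat_lit 199) (.e (nat_lit 548898) (nat_lit 14) (.e (nat_lit 2988) (nat_lit 186) (.e (nat_lit 450304) (nat_lit 0) .nil))))))) (.g (nat_lit 1) (.e (nat_lit 102363) (nat_lit 0) .nil) .nil))) 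
(.lf (nat_lit 478009) (.g (nat_lit 2837) (.e (nat_lit 2350) (nat_lit 151) (.e (nat_lit 778464) (nat_lit 11) (.e (nat_lit 24617) (nat_lit 7) (.e (nat_lit 319533) (nat_lit 16) (.e (nat_lit 286753) (nat_lit 10) (.e (nat_lit 344160) (nat_lit 37) (.e (nat_lit 647190) (nat_lit 9) (.e (nat_lit 1016) (nat_lit 81) .nil)))))))) (.g (nat_lit 1) (.e (nat_lit 103354) (nat_lit 0) .nil) .nil))))) 
(.nd (nat_lit 8) (.nd (nat_lit 9) 
(.lf (nat_lit 477369) (.g (nat_lit 1423) (.e (nat_lit 1858) (nat_lit 124) (.e (nat_lit 557105) (nat_lit 14) (.e (nat_lit 180252) (nat_lit 10) (.e (nat_lit 573473) (nat_lit 12) .nil)))) (.g (nat_lit 0) (.e (nat_lit 102212) (nat_lit 0) .nil) .nil))) 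
(.lf (nat_lit 477881) (.g (nat_lit 3966) (.e (nat_lit 2270) (nat_lit 149) (.e (nat_lit 761899) (nat_lit 15) (.e (nat_lit 163977) (nat_lit 30) (.e (nat_lit 573489) (nat_lit 14) (.e (nat_lit 73755) (nat_lit 8) (.e (nat_lit 557097) (nat_lit 13) (.e (nat_lit 172066) (nat_lit 3) (.e (nat_lit 204821) (nat_lit 17) .nil)))))))) (.g (nat_lit 1) (.e (nat_lit 103117) (nat_lit 0) .nil) .nil)))) 
(.nd (nat_lit 9) 
(.lf (nat_lit 477625) (.g (nat_lit 2408) (.e (nat_lit 1860) (nat_lit 124) (.e (nat_lit 557101) (nat_lit 13) (.e (nat_lit 172115) (nat_lit 10) (.e (nat_lit 434238) (nat_lit 25) (.e (nat_lit 548897) (nat_lit 14) (.e (nat_lit 2999) (nat_lit 186) (.e (nat_lit 450304) (nat_lit 0) .nil))))))) (.g (nat_lit 1) (.e (nat_lit 102491) (nat_lit 0) .nil) .nil))) 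
(.lf (nat_lit 478137) (.g (nat_lit 1542) (.e (nat_lit 2391) (nat_lit 156) (.e (nat_lit 819204) (nat_lit 0) (.e (nat_lit 3027) (nat_lit 187) (.e (nat_lit 450584) (nat_lit 9) (.e (nat_lit 573184) (nat_lit 6) .nil))))) (.g (nat_lit 0) (.e (nat_lit 103814) (nat_lit 0) .nil) .nil)))))) (.nd (nat_lit 7) (.nd (nat_lit 8) (.nd (nat_lit 9) 
(.lf (nat_lit 477305) (.g (nat_lit 2273) (.e (nat_lit 1858) (nat_lit 124) (.e (nat_lit 557101) (nat_lit 13) (.e (nat_lit 172097) (nat_lit 9) (.e (nat_lit 426140) (nat_lit 3) (.e (nat_lit 204821) (nat_lit 17) (.e (nat_lit 6671) (nat_lit 357) (.e (nat_lit 2940) (nat_lit 184) (.e (nat_lit 433920) (nat_lit 15) .nil)))))))) (.g (nat_lit 1) (.e (nat_lit 102139) (nat_lit 0) .nil) .nil))) 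
(.lf (nat_lit 477817) (.g (nat_lit 1880) (.e (nat_lit 2006) (nat_lit 138) (.e (nat_lit 671762) (nat_lit 4) (.e (nat_lit 65598) (nat_lit 9) (.e (nat_lit 335907) (nat_lit 0) (.e (nat_lit 1996) (nat_lit 137) .nil))))) (.g (nat_lit 0) (.e (nat_lit 102854) (nat_lit 0) .nil) .nil)))) (.nd (nat_lit 9) 
(.lf (nat_lit 477561) (.g (nat_lit 4136) (.e (nat_lit 1860) (nat_lit 124) (.e (nat_lit 557100) (nat_lit 13) (.e (nat_lit 172113) (nat_lit 10) (.e (nat_lit 434245) (nat_lit 28) (.e (nat_lit 573469) (nat_lit 11) (.e (nat_lit 16435) (nat_lit 9) (.e (nat_lit 426354) (nat_lit 15) .nil))))))) (.g (nat_lit 1) (.e (nat_lit 102427) (nat_lit 0) .nil) .nil))) 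
(.lf (nat_lit 478073) (.g (nat_lit 2507) (.e (nat_lit 2347) (nat_lit 151) (.e (nat_lit 778466) (nat_lit 11) (.e (nat_lit 24617) (nat_lit 7) (.e (nat_lit 319533) (nat_lit 16) (.e (nat_lit 286753) (nat_lit 10) .nil))))) (.g (nat_lit 0) (.e (nat_lit 103443) (nat_lit 0) .nil) .nil))))) (.nd (nat_lit 8) (.nd (nat_lit 9) 
(.lf (nat_lit 477433) (.g (nat_lit 3341) (.e (nat_lit 1859) (nat_lit 124) (.e (nat_lit 557098) (nat_lit 13) (.e (nat_lit 172115) (nat_lit 10) (.e (nat_lit 434231) (nat_lit 23) (.e (nat_lit 532481) (nat_lit 0) (.e (nat_lit 6684) (nat_lit 357) (.e (nat_lit 2856) (nat_lit 184) (.e (nat_lit 426402) (nat_lit 15) .nil)))))))) (.g (nat_lit 1) (.e (nat_lit 102298) (nat_lit 0) .nil) .nil))) 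
(.lf (nat_lit 477945) (.g (nat_lit 1927) (.e (nat_lit 2283) (nat_lit 150) (.e (nat_lit 770072) (nat_lit 8) (.e (nat_lit 65583) (nat_lit 7) (.e (nat_lit 319530) (nat_lit 16) (.e (nat_lit 286748) (nat_lit 9) .nil))))) (.g (nat_lit 0) (.e (nat_lit 103265) (nat_lit 0) .nil) .nil)))) (.nd (nat_lit 9) 
(.lf (nat_lit 477689) (.g (nat_lit 1002) (.e (nat_lit 1963) (nat_lit 134) (.e (nat_lit 639001) (nat_lit 10) (.e (nat_lit 188441) (nat_lit 20) (.e (nat_lit 3391) (nat_lit 210) (.e (nat_lit 639023) (nat_lit 18) (.e (nat_lit 81939) (nat_lit 20) .nil)))))) (.g (nat_lit 1) (.e (nat_lit 102695) (nat_lit 0) .nil) .nil))) 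
(.lf (nat_lit 478201) (.g (nat_lit 3514) (.e (nat_lit 2056) (nat_lit 142) (.e (nat_lit 704589) (nat_lit 3) (.e (nat_lit 163979) (nat_lit 30) (.e (nat_lit 573493) (nat_lit 15) (.e (nat_lit 81956) (nat_lit 23) (.e (nat_lit 98355) (nat_lit 26) (.e (nat_lit 426375) (nat_lit 15) .nil))))))) (.g (nat_lit 1) (.e (nat_lit 103978) (nat_lit 0) .nil) .nil)))))))))) 
(.nd (nat_lit 3) (.nd (nat_lit 4) (.nd (nat_lit 5) (.nd (nat_lit 6) (.nd (nat_lit 7) 
(.nd (nat_lit 8) (.nd (nat_lit 9) 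
(.lf (nat_lit 477189) (.g (nat_lit 2989) (.e (nat_lit 1855) (nat_lit 124) (.e (nat_lit 557109) (nat_lit 15) (.e (nat_lit 188449) (nat_lit 22) (.e (nat_lit 196666) (nat_lit 13) (.e (nat_lit 65574) (nat_lit 4) .nil))))) (.g (nat_lit 0) (.e (nat_lit 101945) (nat_lit 0) .nil) .nil))) 
(.lf (nat_lit 477701) (.g (nat_lit 2219) (.e (nat_lit 1994) (nat_lit 137) (.e (nat_lit 663567) (nat_lit 4) (.e (nat_lit 65616) (nat_lit 10) (.e (nat_lit 344169) (nat_lit 40) (.e (nat_lit 671764) (nat_lit 6) (.e (nat_lit 81935) (nat_lit 20) .nil)))))) (.g (nat_lit 1) (.e (nat_lit 102726) (nat_lit 0) .nil) .nil)))) (.nd (nat_lit 9) 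
(.lf (nat_lit 477445) (.g (nat_lit 2584) (.e (nat_lit 1859) (nat_lit 124) (.e (nat_lit 557098) (nat_lit 13) (.e (nat_lit 172115) (nat_lit 10) (.e (nat_lit 434238) (nat_lit 25) (.e (nat_lit 548896) (nat_lit 14) (.e (nat_lit 2998) (nat_lit 186) (.e (nat_lit 450304) (nat_lit 0) .nil))))))) (.g (nat_lit 1) (.e (nat_lit 102310) (nat_lit 0) .nil) .nil))) 
(.lf (nat_lit 477957) (.g (nat_lit 3990) (.e (nat_lit 2303) (nat_lit 151) (.e (nat_lit 778466) (nat_lit 11) (.e (nat_lit 24617) (nat_lit 7) (.e (nat_lit 319534) (nat_lit 16) (.e (nat_lit 286756) (nat_lit 10) (.e (nat_lit 344160) (nat_lit 37) (.e (nat_lit 647195) (nat_lit 9) (.e (nat_lit 7936) (nat_lit 81) .nil)))))))) (.g (nat_lit 1) (.e (nat_lit 103291) (nat_lit 0) .nil) .nil))))) 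
(.nd (nat_lit 8) (.nd (nat_lit 9) 
(.lf (nat_lit 477317) (.g (nat_lit 2952) (.e (nat_lit 1858) (nat_lit 124) (.e (nat_lit 557101) (nat_lit 13) (.e (nat_lit 172115) (nat_lit 10) (.e (nat_lit 434231) (nat_lit 23) (.e (nat_lit 532481) (nat_lit 0) (.e (nat_lit 6691) (nat_lit 357) (.e (nat_lit 2854) (nat_lit 184) (.e (nat_lit 426402) (nat_lit 15) .nil)))))))) (.g (nat_lit 1) (.e (nat_lit 102151) (nat_lit 0) .nil) .nil))) 
(.lf (nat_lit 477829) (.g (nat_lit 4080) (.e (nat_lit 2264) (nat_lit 149) (.e (nat_lit 761899) (nat_lit 15) (.e (nat_lit 163977) (nat_lit 30) (.e (nat_lit 573489) (nat_lit 14) (.e (nat_lit 73755) (nat_lit 8) (.e (nat_lit 557097) (nat_lit 13) (.e (nat_lit 172067) (nat_lit 3) (.e (nat_lit 204821) (nat_lit 17) .nil)))))))) (.g (nat_lit 1) (.e (nat_lit 102928) (nat_lit 0) .nil) .nil)))) 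
(.nd (nat_lit 9) 
(.lf (nat_lit 477573) (.g (nat_lit 2724) (.e (nat_lit 1860) (nat_lit 124) (.e (nat_lit 557100) (nat_lit 13) (.e (nat_lit 172113) (nat_lit 10) (.e (nat_lit 434245) (nat_lit 28) (.e (nat_lit 573471) (nat_lit 11) (.e (nat_lit 16432) (nat_lit 9) (.e (nat_lit 426361) (nat_lit 15) .nil))))))) (.g (nat_lit 1) (.e (nat_lit 102439) (nat_lit 0) .nil) .nil))) 
(.lf (nat_lit 478085) (.g (nat_lit 2668) (.e (nat_lit 2345) (nat_lit 151) (.e (nat_lit 778464) (nat_lit 11) (.e (nat_lit 24617) (nat_lit 7) (.e (nat_lit 319534) (nat_lit 16) (.e (nat_lit 286756) (nat_lit 10) (.e (nat_lit 344160) (nat_lit 37) (.e (nat_lit 647195) (nat_lit 9) (.e (nat_lit 982) (nat_lit 81) .nil)))))))) (.g (nat_lit 1) (.e (nat_lit 103456) (nat_lit 0) .nil) .nil)))))) 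
(.nd (nat_lit 7) (.nd (nat_lit 8) (.nd (nat_lit 9) 
(.lf (nat_lit 477253) (.g (nat_lit 2726) (.e (nat_lit 1856) (nat_lit 124) (.e (nat_lit 557101) (nat_lit 13) (.e (nat_lit 172115) (nat_lit 10) (.e (nat_lit 434244) (nat_lit 28) (.e (nat_lit 573464) (nat_lit 9) (.e (nat_lit 461) (nat_lit 34) (.e (nat_lit 442379) (nat_lit 0) .nil))))))) (.g (nat_lit 1) (.e (nat_lit 102065) (nat_lit 0) .nil) .nil))) 
(.lf (nat_lit 477765) (.g (nat_lit 2159) (.e (nat_lit 1996) (nat_lit 137) (.e (nat_lit 663569) (nat_lit 6) (.e (nat_lit 81947) (nat_lit 20) (.e (nat_lit 2006) (nat_lit 138) (.e (nat_lit 671764) (nat_lit 6) (.e (nat_lit 81935) (nat_lit 20) .nil)))))) (.g (nat_lit 1) (.e (nat_lit 102795) (nat_lit 0) .nil) .nil)))) (.nd (nat_lit 9) 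
(.lf (nat_lit 477509) (.g (nat_lit 2007) (.e (nat_lit 1859) (nat_lit 124) (.e (nat_lit 557107) (nat_lit 15) (.e (nat_lit 188441) (nat_lit 20) (.e (nat_lit 3272) (nat_lit 199) (.e (nat_lit 548897) (nat_lit 14) (.e (nat_lit 2999) (nat_lit 186) (.e (nat_lit 450304) (nat_lit 0) .nil))))))) (.g (nat_lit 1) (.e (nat_lit 102375) (nat_lit 0) .nil) .nil))) 
(.lf (nat_lit 478021) (.g (nat_lit 2471) (.e (nat_lit 2328) (nat_lit 151) (.e (nat_lit 778466) (nat_lit 11) (.e (nat_lit 24617) (nat_lit 7) (.e (nat_lit 319534) (nat_lit 16) (.e (nat_lit 286756) (nat_lit 10) (.e (nat_lit 344160) (nat_lit 37) (.e (nat_lit 647195) (nat_lit 9) (.e (nat_lit 7936) (nat_lit 81) .nil)))))))) (.g (nat_lit 1) (.e (nat_lit 103371) (nat_lit 0) .nil) .nil))))) 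
(.nd (nat_lit 8) (.nd (nat_lit 9) 
(.lf (nat_lit 477381) (.g (nat_lit 3195) (.e (nat_lit 1858) (nat_lit 124) (.e (nat_lit 557105) (nat_lit 14) (.e (nat_lit 180252) (nat_lit 10) (.e (nat_lit 573482) (nat_lit 13) (.e (nat_lit 65637) (nat_lit 15) (.e (nat_lit 3253) (nat_lit 197) (.e (nat_lit 532503) (nat_lit 1) (.e (nat_lit 57847) (nat_lit 252) (.e (nat_lit 57355) (nat_lit 0) .nil))))))))) (.g (nat_lit 1) (.e (nat_lit 102234) (nat_lit 0) .nil) .nil))) 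
(.lf (nat_lit 477893) (.g (nat_lit 3530) (.e (nat_lit 2270) (nat_lit 149) (.e (nat_lit 761906) (nat_lit 16) (.e (nat_lit 172085) (nat_lit 9) (.e (nat_lit 426482) (nat_lit 27) (.e (nat_lit 336060) (nat_lit 7) (.e (nat_lit 319534) (nat_lit 16) (.e (nat_lit 286728) (nat_lit 0) .nil))))))) (.g (nat_lit 1) (.e (nat_lit 103148) (nat_lit 0) .nil) .nil)))) (.nd (nat_lit 9) 
(.lf (nat_lit 477637) (.g (nat_lit 3696) (.e (nat_lit 1860) (nat_lit 124) (.e (nat_lit 557101) (nat_lit 13) (.e (nat_lit 172115) (nat_lit 10) (.e (nat_lit 434244) (nat_lit 28) (.e (nat_lit 573449) (nat_lit 9) (.e (nat_lit 479) (nat_lit 37) (.e (nat_lit 474880) (nat_lit 0) .nil))))))) (.g (nat_lit 1) (.e (nat_lit 102503) (nat_lit 0) .nil) .nil))) 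
(.lf (nat_lit 478149) (.g (nat_lit 971) (.e (nat_lit 2030) (nat_lit 140) (.e (nat_lit 688185) (nat_lit 18) (.e (nat_lit 81950) (nat_lit 21) (.e (nat_lit 57834) (nat_lit 250) .nil)))) (.g (nat_lit 0) (.e (nat_lit 103849) (nat_lit 0) .nil) .nil))))))) (.nd (nat_lit 6) (.nd (nat_lit 7) (.nd (nat_lit 8) (.nd (nat_lit 9) 
(.lf (nat_lit 477221) (.g (nat_lit 2066) (.e (nat_lit 1856) (nat_lit 124) (.e (nat_lit 557100) (nat_lit 13) (.e (nat_lit 172106) (nat_lit 10) (.e (nat_lit 434231) (nat_lit 23) (.e (nat_lit 532569) (nat_lit 16) .nil))))) (.g (nat_lit 0) (.e (nat_lit 102032) (nat_lit 0) .nil) .nil))) 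
(.lf (nat_lit 477733) (.g (nat_lit 3988) (.e (nat_lit 1994) (nat_lit 137) (.e (nat_lit 663585) (nat_lit 12) (.e (nat_lit 164050) (nat_lit 55) (.e (nat_lit 778464) (nat_lit 11) (.e (nat_lit 24617) (nat_lit 7) (.e (nat_lit 319534) (nat_lit 16) (.e (nat_lit 286749) (nat_lit 9) (.e (nat_lit 335907) (nat_lit 0) .nil)))))))) (.g (nat_lit 1) (.e (nat_lit 102758) (nat_lit 0) .nil) .nil)))) 
(.nd (nat_lit 9) 
(.lf (nat_lit 477477) (.g (nat_lit 2355) (.e (nat_lit 1859) (nat_lit 124) (.e (nat_lit 557098) (nat_lit 13) (.e (nat_lit 172115) (nat_lit 10) (.e (nat_lit 434244) (nat_lit 28) (.e (nat_lit 573458) (nat_lit 9) (.e (nat_lit 426) (nat_lit 32) (.e (nat_lit 426188) (nat_lit 9) (.e (nat_lit 426360) (nat_lit 15) .nil)))))))) (.g (nat_lit 1) (.e (nat_lit 102342) (nat_lit 0) .nil) .nil))) 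
(.lf (nat_lit 477989) (.g (nat_lit 2141) (.e (nat_lit 2310) (nat_lit 151) (.e (nat_lit 778466) (nat_lit 11) (.e (nat_lit 24617) (nat_lit 7) (.e (nat_lit 319534) (nat_lit 16) (.e (nat_lit 286756) (nat_lit 10) .nil))))) (.g (nat_lit 0) (.e (nat_lit 103332) (nat_lit 0) .nil) .nil))))) (.nd (nat_lit 8) (.nd (nat_lit 9) 
(.lf (nat_lit 477349) (.g (nat_lit 2253) (.e (nat_lit 1858) (nat_lit 124) (.e (nat_lit 557101) (nat_lit 13) (.e (nat_lit 172115) (nat_lit 10) (.e (nat_lit 434244) (nat_lit 28) (.e (nat_lit 573449) (nat_lit 9) (.e (nat_lit 7936) (nat_lit 34) (.e (nat_lit 450304) (nat_lit 0) .nil))))))) (.g (nat_lit 1) (.e (nat_lit 102183) (nat_lit 0) .nil) .nil))) 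
(.lf (nat_lit 477861) (.g (nat_lit 4183) (.e (nat_lit 2270) (nat_lit 149) (.e (nat_lit 761898) (nat_lit 15) (.e (nat_lit 163978) (nat_lit 30) (.e (nat_lit 573489) (nat_lit 14) (.e (nat_lit 73755) (nat_lit 8) (.e (nat_lit 557097) (nat_lit 13) (.e (nat_lit 172067) (nat_lit 3) (.e (nat_lit 204814) (nat_lit 17) .nil)))))))) (.g (nat_lit 1) (.e (nat_lit 103097) (nat_lit 0) .nil) .nil)))) 
(.nd (nat_lit 9) 
(.lf (nat_lit 477605) (.g (nat_lit 2613) (.e (nat_lit 1860) (nat_lit 124) (.e (nat_lit 557101) (nat_lit 13) (.e (nat_lit 172097) (nat_lit 9) (.e (nat_lit 426125) (nat_lit 2) (.e (nat_lit 196661) (nat_lit 12) (.e (nat_lit 57748) (nat_lit 201) (.e (nat_lit 2936) (nat_lit 184) (.e (nat_lit 433920) (nat_lit 15) .nil)))))))) (.g (nat_lit 1) (.e (nat_lit 102471) (nat_lit 0) .nil) .nil))) 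
(.lf (nat_lit 478117) (.g (nat_lit 1185) (.e (nat_lit 2390) (nat_lit 156) (.e (nat_lit 819203) (nat_lit 0) (.e (nat_lit 3016) (nat_lit 187) (.e (nat_lit 450584) (nat_lit 9) (.e (nat_lit 573184) (nat_lit 6) .nil))))) (.g (nat_lit 0) (.e (nat_lit 103703) (nat_lit 0) .nil) .nil)))))) (.nd (nat_lit 7) (.nd (nat_lit 8) (.nd (nat_lit 9) 
(.lf (nat_lit 477285) (.g (nat_lit 589) (.e (nat_lit 1858) (nat_lit 124) (.e (nat_lit 557100) (nat_lit 13) (.e (nat_lit 172065) (nat_lit 3) .nil))) (.g (nat_lit 0) (.e (nat_lit 102116) (nat_lit 0) .nil) .nil))) 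
(.lf (nat_lit 477797) (.g (nat_lit 2046) (.e (nat_lit 2003) (nat_lit 138) (.e (nat_lit 671759) (nat_lit 3) (.e (nat_lit 57478) (nat_lit 28) (.e (nat_lit 557097) (nat_lit 13) (.e (nat_lit 172097) (nat_lit 9) .nil))))) (.g (nat_lit 0) (.e (nat_lit 102830) (nat_lit 0) .nil) .nil)))) (.nd (nat_lit 9) 
(.lf (nat_lit 477541) (.g (nat_lit 3394) (.e (nat_lit 1859) (nat_lit 124) (.e (nat_lit 557109) (nat_lit 15) (.e (nat_lit 188449) (nat_lit 22) (.e (nat_lit 196661) (nat_lit 12) (.e (nat_lit 57751) (nat_lit 201) (.e (nat_lit 2857) (nat_lit 184) (.e (nat_lit 426402) (nat_lit 15) .nil))))))) (.g (nat_lit 1) (.e (nat_lit 102407) (nat_lit 0) .nil) .nil))) 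
(.lf (nat_lit 478053) (.g (nat_lit 2335) (.e (nat_lit 2343) (nat_lit 151) (.e (nat_lit 778466) (nat_lit 11) (.e (nat_lit 24617) (nat_lit 7) (.e (nat_lit 319534) (nat_lit 16) (.e (nat_lit 286756) (nat_lit 10) .nil))))) (.g (nat_lit 0) (.e (nat_lit 103405) (nat_lit 0) .nil) .nil))))) (.nd (nat_lit 8) (.nd (nat_lit 9) 
(.lf (nat_lit 477413) (.g (nat_lit 3168) (.e (nat_lit 1859) (nat_lit 124) (.e (nat_lit 557098) (nat_lit 13) (.e (nat_lit 172097) (nat_lit 9) (.e (nat_lit 426125) (nat_lit 2) (.e (nat_lit 196661) (nat_lit 12) (.e (nat_lit 57749) (nat_lit 201) (.e (nat_lit 2940) (nat_lit 184) (.e (nat_lit 433920) (nat_lit 15) .nil)))))))) (.g (nat_lit 1) (.e (nat_lit 102278) (nat_lit 0) .nil) .nil))) 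
(.lf (nat_lit 477925) (.g (nat_lit 1366) (.e (nat_lit 2281) (nat_lit 150) (.e (nat_lit 770072) (nat_lit 8) (.e (nat_lit 65619) (nat_lit 10) (.e (nat_lit 344090) (nat_lit 18) (.e (nat_lit 7125) (nat_lit 382) .nil))))) (.g (nat_lit 0) (.e (nat_lit 103228) (nat_lit 0) .nil) .nil)))) (.nd (nat_lit 9) 
(.lf (nat_lit 477669) (.g (nat_lit 3004) (.e (nat_lit 1860) (nat_lit 124) (.e (nat_lit 557105) (nat_lit 14) (.e (nat_lit 180252) (nat_lit 10) (.e (nat_lit 573482) (nat_lit 13) (.e (nat_lit 73472) (nat_lit 15) .nil))))) (.g (nat_lit 0) (.e (nat_lit 102535) (nat_lit 0) .nil) .nil))) 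
(.lf (nat_lit 478181) (.g (nat_lit 3230) (.e (nat_lit 2056) (nat_lit 142) (.e (nat_lit 704589) (nat_lit 3) (.e (nat_lit 163976) (nat_lit 30) (.e (nat_lit 573481) (nat_lit 13) (.e (nat_lit 65619) (nat_lit 10) (.e (nat_lit 344117) (nat_lit 21) (.e (nat_lit 516144) (nat_lit 9) (.e (nat_lit 426375) (nat_lit 15) .nil)))))))) (.g (nat_lit 1) (.e (nat_lit 103958) (nat_lit 0) .nil) .nil)))))))) 
(.nd (nat_lit 5) (.nd (nat_lit 6) (.nd (nat_lit 7) (.nd (nat_lit 8) (.nd (nat_lit 9) 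
(.lf (nat_lit 477205) (.g (nat_lit 3800) (.e (nat_lit 1856) (nat_lit 124) (.e (nat_lit 557098) (nat_lit 13) (.e (nat_lit 172094) (nat_lit 9) (.e (nat_lit 426125) (nat_lit 2) (.e (nat_lit 196686) (nat_lit 18) .nil))))) (.g (nat_lit 0) (.e (nat_lit 102011) (nat_lit 0) .nil) .nil))) 
(.lf (nat_lit 477717) (.g (nat_lit 2788) (.e (nat_lit 1994) (nat_lit 137) (.e (nat_lit 663567) (nat_lit 4) (.e (nat_lit 65630) (nat_lit 14) (.e (nat_lit 401438) (nat_lit 9) (.e (nat_lit 426542) (nat_lit 29) (.e (nat_lit 352287) (nat_lit 20) .nil)))))) (.g (nat_lit 1) (.e (nat_lit 102742) (nat_lit 0) .nil) .nil)))) (.nd (nat_lit 9) 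
(.lf (nat_lit 477461) (.g (nat_lit 2147) (.e (nat_lit 1859) (nat_lit 124) (.e (nat_lit 557098) (nat_lit 13) (.e (nat_lit 172115) (nat_lit 10) (.e (nat_lit 434244) (nat_lit 28) (.e (nat_lit 573449) (nat_lit 9) (.e (nat_lit 396) (nat_lit 32) (.e (nat_lit 426197) (nat_lit 9) (.e (nat_lit 426402) (nat_lit 15) .nil)))))))) (.g (nat_lit 1) (.e (nat_lit 102326) (nat_lit 0) .nil) .nil))) 
(.lf (nat_lit 477973) (.g (nat_lit 3465) (.e (nat_lit 2308) (nat_lit 151) (.e (nat_lit 778466) (nat_lit 11) (.e (nat_lit 24617) (nat_lit 7) (.e (nat_lit 319533) (nat_lit 16) (.e (nat_lit 286753) (nat_lit 10) (.e (nat_lit 344160) (nat_lit 37) (.e (nat_lit 647190) (nat_lit 9) (.e (nat_lit 984) (nat_lit 81) .nil)))))))) (.g (nat_lit 1) (.e (nat_lit 103311) (nat_lit 0) .nil) .nil))))) 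
(.nd (nat_lit 8) (.nd (nat_lit 9) 
(.lf (nat_lit 477333) (.g (nat_lit 2240) (.e (nat_lit 1858) (nat_lit 124) (.e (nat_lit 557101) (nat_lit 13) (.e (nat_lit 172115) (nat_lit 10) (.e (nat_lit 434238) (nat_lit 25) (.e (nat_lit 548897) (nat_lit 14) (.e (nat_lit 2989) (nat_lit 186) (.e (nat_lit 450304) (nat_lit 0) .nil))))))) (.g (nat_lit 1) (.e (nat_lit 102167) (nat_lit 0) .nil) .nil))) 
(.lf (nat_lit 477845) (.g (nat_lit 2403) (.e (nat_lit 2270) (nat_lit 149) (.e (nat_lit 761898) (nat_lit 15) (.e (nat_lit 163978) (nat_lit 30) (.e (nat_lit 573487) (nat_lit 14) (.e (nat_lit 73753) (nat_lit 8) .nil))))) (.g (nat_lit 0) (.e (nat_lit 103081) (nat_lit 0) .nil) .nil)))) (.nd (nat_lit 9) 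
(.lf (nat_lit 477589) (.g (nat_lit 2488) (.e (nat_lit 1860) (nat_lit 124) (.e (nat_lit 557100) (nat_lit 13) (.e (nat_lit 172113) (nat_lit 10) (.e (nat_lit 434247) (nat_lit 28) (.e (nat_lit 573469) (nat_lit 11) (.e (nat_lit 16438) (nat_lit 9) (.e (nat_lit 426361) (nat_lit 15) .nil))))))) (.g (nat_lit 1) (.e (nat_lit 102455) (nat_lit 0) .nil) .nil))) 
(.lf (nat_lit 478101) (.g (nat_lit 847) (.e (nat_lit 2384) (nat_lit 155) (.e (nat_lit 811011) (nat_lit 0) (.e (nat_lit 5776) (nat_lit 317) (.e (nat_lit 180241) (nat_lit 4) (.e (nat_lit 524340) (nat_lit 28) (.e (nat_lit 352285) (nat_lit 20) .nil)))))) (.g (nat_lit 1) (.e (nat_lit 103659) (nat_lit 0) .nil) .nil)))))) (.nd (nat_lit 7) (.nd (nat_lit 8) (.nd (nat_lit 9) 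
(.lf (nat_lit 477269) (.g (nat_lit 3754) (.e (nat_lit 1857) (nat_lit 124) (.e (nat_lit 557087) (nat_lit 11) (.e (nat_lit 24617) (nat_lit 7) (.e (nat_lit 319504) (nat_lit 10) .nil)))) (.g (nat_lit 0) (.e (nat_lit 102084) (nat_lit 0) .nil) .nil))) 
(.lf (nat_lit 477781) (.g (nat_lit 1891) (.e (nat_lit 1999) (nat_lit 137) (.e (nat_lit 663567) (nat_lit 4) (.e (nat_lit 65619) (nat_lit 10) (.e (nat_lit 344169) (nat_lit 40) (.e (nat_lit 671764) (nat_lit 6) (.e (nat_lit 81933) (nat_lit 20) .nil)))))) (.g (nat_lit 1) (.e (nat_lit 102813) (nat_lit 0) .nil) .nil)))) (.nd (nat_lit 9) 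
(.lf (nat_lit 477525) (.g (nat_lit 3070) (.e (nat_lit 1859) (nat_lit 124) (.e (nat_lit 557109) (nat_lit 15) (.e (nat_lit 188447) (nat_lit 22) (.e (nat_lit 196661) (nat_lit 12) (.e (nat_lit 57750) (nat_lit 201) (.e (nat_lit 2854) (nat_lit 184) (.e (nat_lit 426402) (nat_lit 15) .nil))))))) (.g (nat_lit 1) (.e (nat_lit 102391) (nat_lit 0) .nil) .nil))) 
(.lf (nat_lit 478037) (.g (nat_lit 3158) (.e (nat_lit 2342) (nat_lit 151) (.e (nat_lit 778466) (nat_lit 11) (.e (nat_lit 24617) (nat_lit 7) (.e (nat_lit 319533) (nat_lit 16) (.e (nat_lit 286753) (nat_lit 10) (.e (nat_lit 344160) (nat_lit 37) (.e (nat_lit 647190) (nat_lit 9) (.e (nat_lit 1025) (nat_lit 81) .nil)))))))) (.g (nat_lit 1) (.e (nat_lit 103387) (nat_lit 0) .nil) .nil))))) 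
(.nd (nat_lit 8) (.nd (nat_lit 9) 
(.lf (nat_lit 477397) (.g (nat_lit 3186) (.e (nat_lit 1858) (nat_lit 124) (.e (nat_lit 557109) (nat_lit 15) (.e (nat_lit 188450) (nat_lit 23) (.e (nat_lit 204885) (nat_lit 33) .nil)))) (.g (nat_lit 0) (.e (nat_lit 102252) (nat_lit 0) .nil) .nil))) 
(.lf (nat_lit 477909) (.g (nat_lit 2402) (.e (nat_lit 7936) (nat_lit 149) (.e (nat_lit 761898) (nat_lit 15) (.e (nat_lit 163978) (nat_lit 30) (.e (nat_lit 573487) (nat_lit 14) (.e (nat_lit 73753) (nat_lit 8) .nil))))) (.g (nat_lit 0) (.e (nat_lit 103197) (nat_lit 0) .nil) .nil)))) (.nd (nat_lit 9) 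
(.lf (nat_lit 477653) (.g (nat_lit 3927) (.e (nat_lit 1860) (nat_lit 124) (.e (nat_lit 557101) (nat_lit 13) (.e (nat_lit 172115) (nat_lit 10) (.e (nat_lit 434244) (nat_lit 28) (.e (nat_lit 573458) (nat_lit 9) (.e (nat_lit 420) (nat_lit 32) (.e (nat_lit 426260) (nat_lit 9) (.e (nat_lit 426353) (nat_lit 15) .nil)))))))) (.g (nat_lit 1) (.e (nat_lit 102519) (nat_lit 0) .nil) .nil))) 
(.lf (nat_lit 478165) (.g (nat_lit 3506) (.e (nat_lit 2056) (nat_lit 142) (.e (nat_lit 704589) (nat_lit 3) (.e (nat_lit 163975) (nat_lit 30) (.e (nat_lit 573481) (nat_lit 13) (.e (nat_lit 65619) (nat_lit 10) (.e (nat_lit 344117) (nat_lit 21) (.e (nat_lit 516144) (nat_lit 9) (.e (nat_lit 426375) (nat_lit 15) .nil)))))))) (.g (nat_lit 1) (.e (nat_lit 103941) (nat_lit 0) .nil) .nil))))))) 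
(.nd (nat_lit 6) (.nd (nat_lit 7) (.nd (nat_lit 8) (.nd (nat_lit 9) 
(.lf (nat_lit 477237) (.g (nat_lit 2064) (.e (nat_lit 1856) (nat_lit 124) (.e (nat_lit 557100) (nat_lit 13) (.e (nat_lit 172115) (nat_lit 10) (.e (nat_lit 434231) (nat_lit 23) (.e (nat_lit 532481) (nat_lit 0) .nil))))) (.g (nat_lit 0) (.e (nat_lit 102049) (nat_lit 0) .nil) .nil))) 
(.lf (nat_lit 477749) (.g (nat_lit 968) (.e (nat_lit 1996) (nat_lit 137) (.e (nat_lit 663567) (nat_lit 4) (.e (nat_lit 65628) (nat_lit 14) (.e (nat_lit 401436) (nat_lit 9) .nil)))) (.g (nat_lit 0) (.e (nat_lit 102779) (nat_lit 0) .nil) .nil)))) (.nd (nat_lit 9) 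
(.lf (nat_lit 477493) (.g (nat_lit 1636) (.e (nat_lit 1859) (nat_lit 124) (.e (nat_lit 557107) (nat_lit 15) (.e (nat_lit 188439) (nat_lit 20) (.e (nat_lit 3272) (nat_lit 199) (.e (nat_lit 548896) (nat_lit 14) (.e (nat_lit 3004) (nat_lit 186) (.e (nat_lit 450304) (nat_lit 0) .nil))))))) (.g (nat_lit 1) (.e (nat_lit 102359) (nat_lit 0) .nil) .nil))) 
(.lf (nat_lit 478005) (.g (nat_lit 2255) (.e (nat_lit 2314) (nat_lit 151) (.e (nat_lit 778466) (nat_lit 11) (.e (nat_lit 24617) (nat_lit 7) (.e (nat_lit 319534) (nat_lit 16) (.e (nat_lit 286756) (nat_lit 10) (.e (nat_lit 344160) (nat_lit 37) (.e (nat_lit 647195) (nat_lit 9) (.e (nat_lit 982) (nat_lit 81) .nil)))))))) (.g (nat_lit 1) (.e (nat_lit 103348) (nat_lit 0) .nil) .nil))))) 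
(.nd (nat_lit 8) (.nd (nat_lit 9) 
(.lf (nat_lit 477365) (.g (nat_lit 3315) (.e (nat_lit 1858) (nat_lit 124) (.e (nat_lit 557105) (nat_lit 14) (.e (nat_lit 180251) (nat_lit 10) (.e (nat_lit 573484) (nat_lit 13) (.e (nat_lit 65642) (nat_lit 15) (.e (nat_lit 3253) (nat_lit 197) (.e (nat_lit 532499) (nat_lit 1) (.e (nat_lit 57847) (nat_lit 252) (.e (nat_lit 57355) (nat_lit 0) .nil))))))))) (.g (nat_lit 1) (.e (nat_lit 102203) (nat_lit 0) .nil) .nil))) 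
(.lf (nat_lit 477877) (.g (nat_lit 2356) (.e (nat_lit 2270) (nat_lit 149) (.e (nat_lit 761898) (nat_lit 15) (.e (nat_lit 163979) (nat_lit 30) (.e (nat_lit 573489) (nat_lit 14) (.e (nat_lit 73755) (nat_lit 8) (.e (nat_lit 557104) (nat_lit 14) (.e (nat_lit 180244) (nat_lit 5) (.e (nat_lit 532480) (nat_lit 0) .nil)))))))) (.g (nat_lit 1) (.e (nat_lit 103113) (nat_lit 0) .nil) .nil)))) 
(.nd (nat_lit 9) 
(.lf (nat_lit 477621) (.g (nat_lit 2914) (.e (nat_lit 1860) (nat_lit 124) (.e (nat_lit 557101) (nat_lit 13) (.e (nat_lit 172115) (nat_lit 10) (.e (nat_lit 434238) (nat_lit 25) (.e (nat_lit 548896) (nat_lit 14) (.e (nat_lit 3004) (nat_lit 186) (.e (nat_lit 450304) (nat_lit 0) .nil))))))) (.g (nat_lit 1) (.e (nat_lit 102487) (nat_lit 0) .nil) .nil))) 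
(.lf (nat_lit 478133) (.g (nat_lit 1844) (.e (nat_lit 2391) (nat_lit 156) (.e (nat_lit 819204) (nat_lit 0) (.e (nat_lit 3015) (nat_lit 187) (.e (nat_lit 450584) (nat_lit 9) (.e (nat_lit 573184) (nat_lit 6) .nil))))) (.g (nat_lit 0) (.e (nat_lit 103788) (nat_lit 0) .nil) .nil)))))) (.nd (nat_lit 7) (.nd (nat_lit 8) (.nd (nat_lit 9) 
(.lf (nat_lit 477301) (.g (nat_lit 3873) (.e (nat_lit 1858) (nat_lit 124) (.e (nat_lit 557101) (nat_lit 13) (.e (nat_lit 172097) (nat_lit 9) (.e (nat_lit 426125) (nat_lit 2) (.e (nat_lit 196661) (nat_lit 12) (.e (nat_lit 57751) (nat_lit 201) (.e (nat_lit 2855) (nat_lit 184) (.e (nat_lit 426402) (nat_lit 15) .nil)))))))) (.g (nat_lit 1) (.e (nat_lit 102135) (nat_lit 0) .nil) .nil))) 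
(.lf (nat_lit 477813) (.g (nat_lit 1114) (.e (nat_lit 2006) (nat_lit 138) (.e (nat_lit 671762) (nat_lit 4) (.e (nat_lit 65586) (nat_lit 7) (.e (nat_lit 319538) (nat_lit 19) .nil)))) (.g (nat_lit 0) (.e (nat_lit 102850) (nat_lit 0) .nil) .nil)))) (.nd (nat_lit 9) 
(.lf (nat_lit 477557) (.g (nat_lit 1661) (.e (nat_lit 1860) (nat_lit 124) (.e (nat_lit 557100) (nat_lit 13) (.e (nat_lit 172106) (nat_lit 10) (.e (nat_lit 434231) (nat_lit 23) (.e (nat_lit 532568) (nat_lit 16) .nil))))) (.g (nat_lit 0) (.e (nat_lit 102423) (nat_lit 0) .nil) .nil))) 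
(.lf (nat_lit 478069) (.g (nat_lit 2851) (.e (nat_lit 2347) (nat_lit 151) (.e (nat_lit 778466) (nat_lit 11) (.e (nat_lit 24617) (nat_lit 7) (.e (nat_lit 319505) (nat_lit 10) (.e (nat_lit 720) (nat_lit 64) (.e (nat_lit 688177) (nat_lit 16) (.e (nat_lit 65598) (nat_lit 9) (.e (nat_lit 335887) (nat_lit 0) .nil)))))))) (.g (nat_lit 1) (.e (nat_lit 103439) (nat_lit 0) .nil) .nil))))) 
(.nd (nat_lit 8) (.nd (nat_lit 9) 
(.lf (nat_lit 477429) (.g (nat_lit 3713) (.e (nat_lit 1859) (nat_lit 124) (.e (nat_lit 557098) (nat_lit 13) (.e (nat_lit 172097) (nat_lit 9) (.e (nat_lit 426140) (nat_lit 3) (.e (nat_lit 204821) (nat_lit 17) (.e (nat_lit 6680) (nat_lit 357) (.e (nat_lit 2857) (nat_lit 184) (.e (nat_lit 426402) (nat_lit 15) .nil)))))))) (.g (nat_lit 1) (.e (nat_lit 102294) (nat_lit 0) .nil) .nil))) 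
(.lf (nat_lit 477941) (.g (nat_lit 1110) (.e (nat_lit 2283) (nat_lit 150) (.e (nat_lit 770071) (nat_lit 8) (.e (nat_lit 65617) (nat_lit 10) (.e (nat_lit 344091) (nat_lit 18) .nil)))) (.g (nat_lit 0) (.e (nat_lit 103254) (nat_lit 0) .nil) .nil)))) (.nd (nat_lit 9) 
(.lf (nat_lit 477685) (.g (nat_lit 715) (.e (nat_lit 1963) (nat_lit 134) (.e (nat_lit 639001) (nat_lit 10) (.e (nat_lit 188439) (nat_lit 20) (.e (nat_lit 3391) (nat_lit 210) (.e (nat_lit 639023) (nat_lit 18) (.e (nat_lit 81939) (nat_lit 20) .nil)))))) (.g (nat_lit 1) (.e (nat_lit 102691) (nat_lit 0) .nil) .nil))) 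
(.lf (nat_lit 478197) (.g (nat_lit 3762) (.e (nat_lit 2056) (nat_lit 142) (.e (nat_lit 704589) (nat_lit 3) (.e (nat_lit 163979) (nat_lit 30) (.e (nat_lit 573491) (nat_lit 15) (.e (nat_lit 81954) (nat_lit 23) (.e (nat_lit 98356) (nat_lit 26) (.e (nat_lit 426363) (nat_lit 15) .nil))))))) (.g (nat_lit 1) (.e (nat_lit 103974) (nat_lit 0) .nil) .nil))))))))) 
(.nd (nat_lit 4) (.nd (nat_lit 5) (.nd (nat_lit 6) (.nd (nat_lit 7) (.nd (nat_lit 8) 
(.nd (nat_lit 9) 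
(.lf (nat_lit 477197) (.g (nat_lit 3606) (.e (nat_lit 1855) (nat_lit 124) (.e (nat_lit 557109) (nat_lit 15) (.e (nat_lit 188452) (nat_lit 23) (.e (nat_lit 204881) (nat_lit 32) .nil)))) (.g (nat_lit 0) (.e (nat_lit 101953) (nat_lit 0) .nil) .nil))) 
(.lf (nat_lit 477709) (.g (nat_lit 438) (.e (nat_lit 1994) (nat_lit 137) (.e (nat_lit 663567) (nat_lit 4) (.e (nat_lit 65628) (nat_lit 14) .nil))) (.g (nat_lit 0) (.e (nat_lit 102734) (nat_lit 0) .nil) .nil)))) (.nd (nat_lit 9) 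
(.lf (nat_lit 477453) (.g (nat_lit 3199) (.e (nat_lit 1859) (nat_lit 124) (.e (nat_lit 557098) (nat_lit 13) (.e (nat_lit 172115) (nat_lit 10) (.e (nat_lit 434238) (nat_lit 25) (.e (nat_lit 548898) (nat_lit 14) (.e (nat_lit 2988) (nat_lit 186) (.e (nat_lit 450304) (nat_lit 0) .nil))))))) (.g (nat_lit 1) (.e (nat_lit 102318) (nat_lit 0) .nil) .nil))) 
(.lf (nat_lit 477965) (.g (nat_lit 2900) (.e (nat_lit 2307) (nat_lit 151) (.e (nat_lit 778466) (nat_lit 11) (.e (nat_lit 24617) (nat_lit 7) (.e (nat_lit 319534) (nat_lit 16) (.e (nat_lit 286756) (nat_lit 10) .nil))))) (.g (nat_lit 0) (.e (nat_lit 103303) (nat_lit 0) .nil) .nil))))) (.nd (nat_lit 8) (.nd (nat_lit 9) 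
(.lf (nat_lit 477325) (.g (nat_lit 4187) (.e (nat_lit 1858) (nat_lit 124) (.e (nat_lit 557101) (nat_lit 13) (.e (nat_lit 172115) (nat_lit 10) (.e (nat_lit 434231) (nat_lit 23) (.e (nat_lit 532490) (nat_lit 0) (.e (nat_lit 6680) (nat_lit 357) (.e (nat_lit 2854) (nat_lit 184) (.e (nat_lit 426402) (nat_lit 15) .nil)))))))) (.g (nat_lit 1) (.e (nat_lit 102159) (nat_lit 0) .nil) .nil))) 
(.lf (nat_lit 477837) (.g (nat_lit 3811) (.e (nat_lit 2270) (nat_lit 149) (.e (nat_lit 761897) (nat_lit 15) (.e (nat_lit 163978) (nat_lit 30) (.e (nat_lit 573489) (nat_lit 14) (.e (nat_lit 73755) (nat_lit 8) (.e (nat_lit 557097) (nat_lit 13) (.e (nat_lit 172067) (nat_lit 3) (.e (nat_lit 204821) (nat_lit 17) .nil)))))))) (.g (nat_lit 1) (.e (nat_lit 103073) (nat_lit 0) .nil) .nil)))) 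
(.nd (nat_lit 9) 
(.lf (nat_lit 477581) (.g (nat_lit 3941) (.e (nat_lit 1860) (nat_lit 124) (.e (nat_lit 557100) (nat_lit 13) (.e (nat_lit 172113) (nat_lit 10) (.e (nat_lit 434245) (nat_lit 28) (.e (nat_lit 573471) (nat_lit 11) (.e (nat_lit 16435) (nat_lit 9) (.e (nat_lit 426354) (nat_lit 15) .nil))))))) (.g (nat_lit 1) (.e (nat_lit 102447) (nat_lit 0) .nil) .nil))) 
(.lf (nat_lit 478093) (.g (nat_lit 1635) (.e (nat_lit 2355) (nat_lit 152) (.e (nat_lit 786483) (nat_lit 30) (.e (nat_lit 360475) (nat_lit 8) (.e (nat_lit 557090) (nat_lit 12) .nil)))) (.g (nat_lit 0) (.e (nat_lit 103478) (nat_lit 0) .nil) .nil)))))) (.nd (nat_lit 7) (.nd (nat_lit 8) (.nd (nat_lit 9) 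
(.lf (nat_lit 477261) (.g (nat_lit 774) (.e (nat_lit 1856) (nat_lit 124) (.e (nat_lit 557109) (nat_lit 15) (.e (nat_lit 188446) (nat_lit 21) .nil))) (.g (nat_lit 0) (.e (nat_lit 102076) (nat_lit 0) .nil) .nil))) 
(.lf (nat_lit 477773) (.g (nat_lit 1733) (.e (nat_lit 1999) (nat_lit 137) (.e (nat_lit 663567) (nat_lit 4) (.e (nat_lit 65611) (nat_lit 10) (.e (nat_lit 344169) (nat_lit 40) (.e (nat_lit 671764) (nat_lit 6) (.e (nat_lit 81933) (nat_lit 20) .nil)))))) (.g (nat_lit 1) (.e (nat_lit 102805) (nat_lit 0) .nil) .nil)))) (.nd (nat_lit 9) 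
(.lf (nat_lit 477517) (.g (nat_lit 2028) (.e (nat_lit 1859) (nat_lit 124) (.e (nat_lit 557107) (nat_lit 15) (.e (nat_lit 188447) (nat_lit 22) (.e (nat_lit 196661) (nat_lit 12) (.e (nat_lit 57749) (nat_lit 201) (.e (nat_lit 2940) (nat_lit 184) (.e (nat_lit 433920) (nat_lit 15) .nil))))))) (.g (nat_lit 1) (.e (nat_lit 102383) (nat_lit 0) .nil) .nil))) 
(.lf (nat_lit 478029) (.g (nat_lit 1761) (.e (nat_lit 2334) (nat_lit 151) (.e (nat_lit 778325) (nat_lit 6) (.e (nat_lit 81956) (nat_lit 23) (.e (nat_lit 98321) (nat_lit 17) (.e (nat_lit 7936) (nat_lit 216) (.e (nat_lit 688178) (nat_lit 16) (.e (nat_lit 65556) (nat_lit 0) .nil))))))) (.g (nat_lit 1) (.e (nat_lit 103379) (nat_lit 0) .nil) .nil))))) (.nd (nat_lit 8) (.nd (nat_lit 9) 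
(.lf (nat_lit 477389) (.g (nat_lit 2542) (.e (nat_lit 1858) (nat_lit 124) (.e (nat_lit 557107) (nat_lit 15) (.e (nat_lit 188452) (nat_lit 23) (.e (nat_lit 204884) (nat_lit 33) .nil)))) (.g (nat_lit 0) (.e (nat_lit 102244) (nat_lit 0) .nil) .nil))) 
(.lf (nat_lit 477901) (.g (nat_lit 2536) (.e (nat_lit 2271) (nat_lit 149) (.e (nat_lit 761898) (nat_lit 15) (.e (nat_lit 163978) (nat_lit 30) (.e (nat_lit 573487) (nat_lit 14) (.e (nat_lit 73753) (nat_lit 8) (.e (nat_lit 557101) (nat_lit 13) (.e (nat_lit 172065) (nat_lit 3) (.e (nat_lit 204817) (nat_lit 17) .nil)))))))) (.g (nat_lit 1) (.e (nat_lit 103171) (nat_lit 0) .nil) .nil)))) 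
(.nd (nat_lit 9) 
(.lf (nat_lit 477645) (.g (nat_lit 3503) (.e (nat_lit 1860) (nat_lit 124) (.e (nat_lit 557101) (nat_lit 13) (.e (nat_lit 172115) (nat_lit 10) (.e (nat_lit 434244) (nat_lit 28) (.e (nat_lit 573450) (nat_lit 9) (.e (nat_lit 479) (nat_lit 37) (.e (nat_lit 474880) (nat_lit 0) .nil))))))) (.g (nat_lit 1) (.e (nat_lit 102511) (nat_lit 0) .nil) .nil))) 
(.lf (nat_lit 478157) (.g (nat_lit 2897) (.e (nat_lit 2031) (nat_lit 140) (.e (nat_lit 688178) (nat_lit 16) (.e (nat_lit 65623) (nat_lit 12) (.e (nat_lit 385088) (nat_lit 47) (.e (nat_lit 761912) (nat_lit 18) (.e (nat_lit 196352) (nat_lit 0) .nil)))))) (.g (nat_lit 1) (.e (nat_lit 103860) (nat_lit 0) .nil) .nil))))))) (.nd (nat_lit 6) (.nd (nat_lit 7) (.nd (nat_lit 8) (.nd (nat_lit 9) 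
(.lf (nat_lit 477229) (.g (nat_lit 3001) (.e (nat_lit 1856) (nat_lit 124) (.e (nat_lit 557100) (nat_lit 13) (.e (nat_lit 172113) (nat_lit 10) (.e (nat_lit 434245) (nat_lit 28) (.e (nat_lit 573450) (nat_lit 9) (.e (nat_lit 455) (nat_lit 34) (.e (nat_lit 442372) (nat_lit 0) .nil))))))) (.g (nat_lit 1) (.e (nat_lit 102041) (nat_lit 0) .nil) .nil))) 
(.lf (nat_lit 477741) (.g (nat_lit 1673) (.e (nat_lit 1996) (nat_lit 137) (.e (nat_lit 663567) (nat_lit 4) (.e (nat_lit 65616) (nat_lit 10) (.e (nat_lit 344169) (nat_lit 40) (.e (nat_lit 671764) (nat_lit 6) (.e (nat_lit 81934) (nat_lit 20) .nil)))))) (.g (nat_lit 1) (.e (nat_lit 102771) (nat_lit 0) .nil) .nil)))) (.nd (nat_lit 9) 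
(.lf (nat_lit 477485) (.g (nat_lit 3182) (.e (nat_lit 1859) (nat_lit 124) (.e (nat_lit 557105) (nat_lit 14) (.e (nat_lit 180252) (nat_lit 10) (.e (nat_lit 573482) (nat_lit 13) (.e (nat_lit 65637) (nat_lit 15) .nil))))) (.g (nat_lit 0) (.e (nat_lit 102351) (nat_lit 0) .nil) .nil))) 
(.lf (nat_lit 477997) (.g (nat_lit 2991) (.e (nat_lit 2312) (nat_lit 151) (.e (nat_lit 778466) (nat_lit 11) (.e (nat_lit 24617) (nat_lit 7) (.e (nat_lit 319534) (nat_lit 16) (.e (nat_lit 286756) (nat_lit 10) (.e (nat_lit 344160) (nat_lit 37) (.e (nat_lit 647190) (nat_lit 9) (.e (nat_lit 7936) (nat_lit 81) .nil)))))))) (.g (nat_lit 1) (.e (nat_lit 103340) (nat_lit 0) .nil) .nil))))) 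
(.nd (nat_lit 8) (.nd (nat_lit 9) 
(.lf (nat_lit 477357) (.g (nat_lit 2687) (.e (nat_lit 1858) (nat_lit 124) (.e (nat_lit 557101) (nat_lit 13) (.e (nat_lit 172115) (nat_lit 10) (.e (nat_lit 434244) (nat_lit 28) (.e (nat_lit 573450) (nat_lit 9) (.e (nat_lit 459) (nat_lit 34) (.e (nat_lit 450304) (nat_lit 0) .nil))))))) (.g (nat_lit 1) (.e (nat_lit 102191) (nat_lit 0) .nil) .nil))) 
(.lf (nat_lit 477869) (.g (nat_lit 2510) (.e (nat_lit 2270) (nat_lit 149) (.e (nat_lit 761898) (nat_lit 15) (.e (nat_lit 163979) (nat_lit 30) (.e (nat_lit 573487) (nat_lit 14) (.e (nat_lit 73753) (nat_lit 8) (.e (nat_lit 557101) (nat_lit 13) (.e (nat_lit 172067) (nat_lit 3) (.e (nat_lit 204821) (nat_lit 17) .nil)))))))) (.g (nat_lit 1) (.e (nat_lit 103105) (nat_lit 0) .nil) .nil)))) 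
(.nd (nat_lit 9) 
(.lf (nat_lit 477613) (.g (nat_lit 2296) (.e (nat_lit 1860) (nat_lit 124) (.e (nat_lit 557101) (nat_lit 13) (.e (nat_lit 172097) (nat_lit 9) (.e (nat_lit 426125) (nat_lit 2) (.e (nat_lit 196661) (nat_lit 12) (.e (nat_lit 57749) (nat_lit 201) (.e (nat_lit 2941) (nat_lit 184) (.e (nat_lit 433920) (nat_lit 15) .nil)))))))) (.g (nat_lit 1) (.e (nat_lit 102479) (nat_lit 0) .nil) .nil))) 
(.lf (nat_lit 478125) (.g (nat_lit 1130) (.e (nat_lit 2390) (nat_lit 156) (.e (nat_lit 819221) (nat_lit 6) (.e (nat_lit 188439) (nat_lit 20) (.e (nat_lit 3289) (nat_lit 201) (.e (nat_lit 565269) (nat_lit 6) (.e (nat_lit 81939) (nat_lit 20) .nil)))))) (.g (nat_lit 1) (.e (nat_lit 103751) (nat_lit 0) .nil) .nil)))))) (.nd (nat_lit 7) (.nd (nat_lit 8) (.nd (nat_lit 9) 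
(.lf (nat_lit 477293) (.g (nat_lit 2165) (.e (nat_lit 1858) (nat_lit 124) (.e (nat_lit 557101) (nat_lit 13) (.e (nat_lit 172097) (nat_lit 9) (.e (nat_lit 426125) (nat_lit 2) (.e (nat_lit 196661) (nat_lit 12) (.e (nat_lit 57749) (nat_lit 201) (.e (nat_lit 2936) (nat_lit 184) (.e (nat_lit 433920) (nat_lit 15) .nil)))))))) (.g (nat_lit 1) (.e (nat_lit 102127) (nat_lit 0) .nil) .nil))) 
(.lf (nat_lit 477805) (.g (nat_lit 2612) (.e (nat_lit 2003) (nat_lit 138) (.e (nat_lit 671763) (nat_lit 5) (.e (nat_lit 73782) (nat_lit 32) (.e (nat_lit 2856) (nat_lit 184) (.e (nat_lit 426542) (nat_lit 29) (.e (nat_lit 352290) (nat_lit 20) .nil)))))) (.g (nat_lit 1) (.e (nat_lit 102838) (nat_lit 0) .nil) .nil)))) (.nd (nat_lit 9) 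
(.lf (nat_lit 477549) (.g (nat_lit 3767) (.e (nat_lit 1859) (nat_lit 124) (.e (nat_lit 557109) (nat_lit 15) (.e (nat_lit 188452) (nat_lit 23) (.e (nat_lit 204879) (nat_lit 32) .nil)))) (.g (nat_lit 0) (.e (nat_lit 102415) (nat_lit 0) .nil) .nil))) 
(.lf (nat_lit 478061) (.g (nat_lit 3102) (.e (nat_lit 2346) (nat_lit 151) (.e (nat_lit 778466) (nat_lit 11) (.e (nat_lit 24617) (nat_lit 7) (.e (nat_lit 319533) (nat_lit 16) (.e (nat_lit 286753) (nat_lit 10) (.e (nat_lit 344160) (nat_lit 37) (.e (nat_lit 647195) (nat_lit 9) (.e (nat_lit 1042) (nat_lit 81) .nil)))))))) (.g (nat_lit 1) (.e (nat_lit 103419) (nat_lit 0) .nil) .nil))))) 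
(.nd (nat_lit 8) (.nd (nat_lit 9) 
(.lf (nat_lit 477421) (.g (nat_lit 1765) (.e (nat_lit 1859) (nat_lit 124) (.e (nat_lit 557098) (nat_lit 13) (.e (nat_lit 172097) (nat_lit 9) (.e (nat_lit 426125) (nat_lit 2) (.e (nat_lit 196666) (nat_lit 13) .nil))))) (.g (nat_lit 0) (.e (nat_lit 102286) (nat_lit 0) .nil) .nil))) 
(.lf (nat_lit 477933) (.g (nat_lit 1819) (.e (nat_lit 2283) (nat_lit 150) (.e (nat_lit 770071) (nat_lit 8) (.e (nat_lit 65586) (nat_lit 7) (.e (nat_lit 319531) (nat_lit 16) (.e (nat_lit 286748) (nat_lit 9) .nil))))) (.g (nat_lit 0) (.e (nat_lit 103241) (nat_lit 0) .nil) .nil)))) (.nd (nat_lit 9) 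
(.lf (nat_lit 477677) (.g (nat_lit 709) (.e (nat_lit 1862) (nat_lit 124) (.e (nat_lit 557107) (nat_lit 15) (.e (nat_lit 188439) (nat_lit 20) .nil))) (.g (nat_lit 0) (.e (nat_lit 102555) (nat_lit 0) .nil) .nil))) 
(.lf (nat_lit 478189) (.g (nat_lit 6125) (.e (nat_lit 2056) (nat_lit 142) (.e (nat_lit 704589) (nat_lit 3) (.e (nat_lit 163978) (nat_lit 30) (.e (nat_lit 573479) (nat_lit 13) (.e (nat_lit 65610) (nat_lit 10) (.e (nat_lit 344117) (nat_lit 21) (.e (nat_lit 516151) (nat_lit 9) (.e (nat_lit 426412) (nat_lit 15) .nil)))))))) (.g (nat_lit 1) (.e (nat_lit 103966) (nat_lit 0) .nil) .nil)))))))) 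
(.nd (nat_lit 5) (.nd (nat_lit 6) (.nd (nat_lit 7) (.nd (nat_lit 8) (.nd (nat_lit 9) 
(.lf (nat_lit 477213) (.g (nat_lit 2992) (.e (nat_lit 1856) (nat_lit 124) (.e (nat_lit 557098) (nat_lit 13) (.e (nat_lit 172115) (nat_lit 10) (.e (nat_lit 434244) (nat_lit 28) (.e (nat_lit 573450) (nat_lit 9) (.e (nat_lit 459) (nat_lit 34) (.e (nat_lit 442379) (nat_lit 0) .nil))))))) (.g (nat_lit 1) (.e (nat_lit 102019) (nat_lit 0) .nil) .nil))) 
(.lf (nat_lit 477725) (.g (nat_lit 1640) (.e (nat_lit 1994) (nat_lit 137) (.e (nat_lit 663569) (nat_lit 6) (.e (nat_lit 81943) (nat_lit 20) (.e (nat_lit 2006) (nat_lit 138) (.e (nat_lit 671764) (nat_lit 6) (.e (nat_lit 81931) (nat_lit 20) .nil)))))) (.g (nat_lit 1) (.e (nat_lit 102750) (nat_lit 0) .nil) .nil)))) (.nd (nat_lit 9) 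
(.lf (nat_lit 477469) (.g (nat_lit 2936) (.e (nat_lit 1859) (nat_lit 124) (.e (nat_lit 557098) (nat_lit 13) (.e (nat_lit 172115) (nat_lit 10) (.e (nat_lit 434244) (nat_lit 28) (.e (nat_lit 573450) (nat_lit 9) (.e (nat_lit 389) (nat_lit 32) (.e (nat_lit 426197) (nat_lit 9) (.e (nat_lit 426402) (nat_lit 15) .nil)))))))) (.g (nat_lit 1) (.e (nat_lit 102334) (nat_lit 0) .nil) .nil))) 
(.lf (nat_lit 477981) (.g (nat_lit 2868) (.e (nat_lit 2309) (nat_lit 151) (.e (nat_lit 778466) (nat_lit 11) (.e (nat_lit 24617) (nat_lit 7) (.e (nat_lit 319505) (nat_lit 10) (.e (nat_lit 720) (nat_lit 64) .nil))))) (.g (nat_lit 0) (.e (nat_lit 103320) (nat_lit 0) .nil) .nil))))) (.nd (nat_lit 8) (.nd (nat_lit 9) 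
(.lf (nat_lit 477341) (.g (nat_lit 3649) (.e (nat_lit 1858) (nat_lit 124) (.e (nat_lit 557101) (nat_lit 13) (.e (nat_lit 172115) (nat_lit 10) (.e (nat_lit 434238) (nat_lit 25) (.e (nat_lit 548898) (nat_lit 14) (.e (nat_lit 2999) (nat_lit 186) (.e (nat_lit 450304) (nat_lit 0) .nil))))))) (.g (nat_lit 1) (.e (nat_lit 102175) (nat_lit 0) .nil) .nil))) 
(.lf (nat_lit 477853) (.g (nat_lit 2407) (.e (nat_lit 2270) (nat_lit 149) (.e (nat_lit 761898) (nat_lit 15) (.e (nat_lit 163978) (nat_lit 30) (.e (nat_lit 573487) (nat_lit 14) (.e (nat_lit 73753) (nat_lit 8) (.e (nat_lit 557101) (nat_lit 13) (.e (nat_lit 172066) (nat_lit 3) (.e (nat_lit 204822) (nat_lit 17) .nil)))))))) (.g (nat_lit 1) (.e (nat_lit 103089) (nat_lit 0) .nil) .nil)))) 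
(.nd (nat_lit 9) 
(.lf (nat_lit 477597) (.g (nat_lit 3880) (.e (nat_lit 1860) (nat_lit 124) (.e (nat_lit 557100) (nat_lit 13) (.e (nat_lit 172113) (nat_lit 10) (.e (nat_lit 434248) (nat_lit 28) (.e (nat_lit 573470) (nat_lit 11) (.e (nat_lit 16433) (nat_lit 9) (.e (nat_lit 426354) (nat_lit 15) .nil))))))) (.g (nat_lit 1) (.e (nat_lit 102463) (nat_lit 0) .nil) .nil))) 
(.lf (nat_lit 478109) (.g (nat_lit 797) (.e (nat_lit 2384) (nat_lit 155) (.e (nat_lit 811012) (nat_lit 0) (.e (nat_lit 5776) (nat_lit 317) (.e (nat_lit 180241) (nat_lit 4) (.e (nat_lit 524340) (nat_lit 28) (.e (nat_lit 352285) (nat_lit 20) .nil)))))) (.g (nat_lit 1) (.e (nat_lit 103669) (nat_lit 0) .nil) .nil)))))) (.nd (nat_lit 7) (.nd (nat_lit 8) (.nd (nat_lit 9) 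
(.lf (nat_lit 477277) (.g (nat_lit 3591) (.e (nat_lit 1857) (nat_lit 124) (.e (nat_lit 557105) (nat_lit 14) (.e (nat_lit 180252) (nat_lit 10) (.e (nat_lit 573482) (nat_lit 13) (.e (nat_lit 65640) (nat_lit 15) .nil))))) (.g (nat_lit 0) (.e (nat_lit 102092) (nat_lit 0) .nil) .nil))) 
(.lf (nat_lit 477789) (.g (nat_lit 2002) (.e (nat_lit 1999) (nat_lit 137) (.e (nat_lit 663567) (nat_lit 4) (.e (nat_lit 65628) (nat_lit 14) (.e (nat_lit 401437) (nat_lit 9) (.e (nat_lit 426538) (nat_lit 29) (.e (nat_lit 352285) (nat_lit 20) .nil)))))) (.g (nat_lit 1) (.e (nat_lit 102821) (nat_lit 0) .nil) .nil)))) (.nd (nat_lit 9) 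
(.lf (nat_lit 477533) (.g (nat_lit 5015) (.e (nat_lit 1859) (nat_lit 124) (.e (nat_lit 557109) (nat_lit 15) (.e (nat_lit 188449) (nat_lit 22) (.e (nat_lit 196631) (nat_lit 9) .nil)))) (.g (nat_lit 0) (.e (nat_lit 102399) (nat_lit 0) .nil) .nil))) 
(.lf (nat_lit 478045) (.g (nat_lit 3074) (.e (nat_lit 2342) (nat_lit 151) (.e (nat_lit 778466) (nat_lit 11) (.e (nat_lit 24617) (nat_lit 7) (.e (nat_lit 319534) (nat_lit 16) (.e (nat_lit 286756) (nat_lit 10) (.e (nat_lit 344160) (nat_lit 37) (.e (nat_lit 647190) (nat_lit 9) (.e (nat_lit 985) (nat_lit 81) .nil)))))))) (.g (nat_lit 1) (.e (nat_lit 103397) (nat_lit 0) .nil) .nil))))) 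
(.nd (nat_lit 8) (.nd (nat_lit 9) 
(.lf (nat_lit 477405) (.g (nat_lit 2750) (.e (nat_lit 1859) (nat_lit 124) (.e (nat_lit 557087) (nat_lit 11) (.e (nat_lit 24665) (nat_lit 14) (.e (nat_lit 401423) (nat_lit 2) (.e (nat_lit 196674) (nat_lit 15) .nil))))) (.g (nat_lit 0) (.e (nat_lit 102267) (nat_lit 0) .nil) .nil))) 
(.lf (nat_lit 477917) (.g (nat_lit 1253) (.e (nat_lit 2280) (nat_lit 150) (.e (nat_lit 770072) (nat_lit 8) (.e (nat_lit 65610) (nat_lit 10) (.e (nat_lit 344175) (nat_lit 43) .nil)))) (.g (nat_lit 0) (.e (nat_lit 103211) (nat_lit 0) .nil) .nil)))) (.nd (nat_lit 9) 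
(.lf (nat_lit 477661) (.g (nat_lit 2240) (.e (nat_lit 1860) (nat_lit 124) (.e (nat_lit 557105) (nat_lit 14) (.e (nat_lit 180252) (nat_lit 10) (.e (nat_lit 573480) (nat_lit 13) (.e (nat_lit 73472) (nat_lit 18) .nil))))) (.g (nat_lit 0) (.e (nat_lit 102527) (nat_lit 0) .nil) .nil))) 
(.lf (nat_lit 478173) (.g (nat_lit 3936) (.e (nat_lit 2056) (nat_lit 142) (.e (nat_lit 704589) (nat_lit 3) (.e (nat_lit 163975) (nat_lit 30) (.e (nat_lit 573492) (nat_lit 15) (.e (nat_lit 81953) (nat_lit 22) (.e (nat_lit 90170) (nat_lit 13) (.e (nat_lit 172138) (nat_lit 15) .nil))))))) (.g (nat_lit 1) (.e (nat_lit 103950) (nat_lit 0) .nil) .nil))))))) 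
(.nd (nat_lit 6) (.nd (nat_lit 7) (.nd (nat_lit 8) (.nd (nat_lit 9) 
(.lf (nat_lit 477245) (.g (nat_lit 2822) (.e (nat_lit 1856) (nat_lit 124) (.e (nat_lit 557101) (nat_lit 13) (.e (nat_lit 172115) (nat_lit 10) (.e (nat_lit 434244) (nat_lit 28) (.e (nat_lit 573448) (nat_lit 9) (.e (nat_lit 459) (nat_lit 34) (.e (nat_lit 442379) (nat_lit 0) .nil))))))) (.g (nat_lit 1) (.e (nat_lit 102057) (nat_lit 0) .nil) .nil))) 
(.lf (nat_lit 477757) (.g (nat_lit 1730) (.e (nat_lit 1996) (nat_lit 137) (.e (nat_lit 663569) (nat_lit 6) (.e (nat_lit 81922) (nat_lit 0) (.e (nat_lit 3631) (nat_lit 227) (.e (nat_lit 778326) (nat_lit 6) (.e (nat_lit 81935) (nat_lit 20) .nil)))))) (.g (nat_lit 1) (.e (nat_lit 102787) (nat_lit 0) .nil) .nil)))) (.nd (nat_lit 9) 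
(.lf (nat_lit 477501) (.g (nat_lit 1553) (.e (nat_lit 1859) (nat_lit 124) (.e (nat_lit 557107) (nat_lit 15) (.e (nat_lit 188440) (nat_lit 20) (.e (nat_lit 3271) (nat_lit 199) (.e (nat_lit 548898) (nat_lit 14) (.e (nat_lit 2988) (nat_lit 186) (.e (nat_lit 450304) (nat_lit 0) .nil))))))) (.g (nat_lit 1) (.e (nat_lit 102367) (nat_lit 0) .nil) .nil))) 
(.lf (nat_lit 478013) (.g (nat_lit 2137) (.e (nat_lit 2354) (nat_lit 151) (.e (nat_lit 778464) (nat_lit 11) (.e (nat_lit 24617) (nat_lit 7) (.e (nat_lit 319533) (nat_lit 16) (.e (nat_lit 286753) (nat_lit 10) .nil))))) (.g (nat_lit 0) (.e (nat_lit 103358) (nat_lit 0) .nil) .nil))))) (.nd (nat_lit 8) (.nd (nat_lit 9) 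
(.lf (nat_lit 477373) (.g (nat_lit 3013) (.e (nat_lit 1858) (nat_lit 124) (.e (nat_lit 557105) (nat_lit 14) (.e (nat_lit 180252) (nat_lit 10) (.e (nat_lit 573480) (nat_lit 13) (.e (nat_lit 65637) (nat_lit 15) (.e (nat_lit 3253) (nat_lit 197) (.e (nat_lit 532503) (nat_lit 1) (.e (nat_lit 57848) (nat_lit 252) (.e (nat_lit 57355) (nat_lit 0) .nil))))))))) (.g (nat_lit 1) (.e (nat_lit 102226) (nat_lit 0) .nil) .nil))) 
(.lf (nat_lit 477885) (.g (nat_lit 2722) (.e (nat_lit 2270) (nat_lit 149) (.e (nat_lit 761899) (nat_lit 15) (.e (nat_lit 163978) (nat_lit 30) (.e (nat_lit 573489) (nat_lit 14) (.e (nat_lit 73754) (nat_lit 8) (.e (nat_lit 557101) (nat_lit 13) (.e (nat_lit 172067) (nat_lit 3) (.e (nat_lit 204821) (nat_lit 17) .nil)))))))) (.g (nat_lit 1) (.e (nat_lit 103125) (nat_lit 0) .nil) .nil)))) 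
(.nd (nat_lit 9) 
(.lf (nat_lit 477629) (.g (nat_lit 3112) (.e (nat_lit 1860) (nat_lit 124) (.e (nat_lit 557101) (nat_lit 13) (.e (nat_lit 172115) (nat_lit 10) (.e (nat_lit 434238) (nat_lit 25) (.e (nat_lit 548898) (nat_lit 14) (.e (nat_lit 2998) (nat_lit 186) (.e (nat_lit 450304) (nat_lit 0) .nil))))))) (.g (nat_lit 1) (.e (nat_lit 102495) (nat_lit 0) .nil) .nil))) 
(.lf (nat_lit 478141) (.g (nat_lit 1552) (.e (nat_lit 2391) (nat_lit 156) (.e (nat_lit 819219) (nat_lit 4) (.e (nat_lit 172094) (nat_lit 9) (.e (nat_lit 426125) (nat_lit 2) (.e (nat_lit 204544) (nat_lit 0) .nil))))) (.g (nat_lit 0) (.e (nat_lit 103825) (nat_lit 0) .nil) .nil)))))) (.nd (nat_lit 7) (.nd (nat_lit 8) (.nd (nat_lit 9) 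
(.lf (nat_lit 477309) (.g (nat_lit 3432) (.e (nat_lit 1858) (nat_lit 124) (.e (nat_lit 557101) (nat_lit 13) (.e (nat_lit 172097) (nat_lit 9) (.e (nat_lit 426140) (nat_lit 3) (.e (nat_lit 204821) (nat_lit 17) (.e (nat_lit 6680) (nat_lit 357) (.e (nat_lit 2854) (nat_lit 184) (.e (nat_lit 426402) (nat_lit 15) .nil)))))))) (.g (nat_lit 1) (.e (nat_lit 102143) (nat_lit 0) .nil) .nil))) 
(.lf (nat_lit 477821) (.g (nat_lit 2083) (.e (nat_lit 2006) (nat_lit 138) (.e (nat_lit 671762) (nat_lit 4) (.e (nat_lit 65628) (nat_lit 14) (.e (nat_lit 401459) (nat_lit 13) (.e (nat_lit 483386) (nat_lit 23) .nil))))) (.g (nat_lit 0) (.e (nat_lit 102859) (nat_lit 0) .nil) .nil)))) (.nd (nat_lit 9) 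
(.lf (nat_lit 477565) (.g (nat_lit 2439) (.e (nat_lit 1860) (nat_lit 124) (.e (nat_lit 557100) (nat_lit 13) (.e (nat_lit 172113) (nat_lit 10) (.e (nat_lit 434245) (nat_lit 28) (.e (nat_lit 573470) (nat_lit 11) (.e (nat_lit 16434) (nat_lit 9) (.e (nat_lit 426354) (nat_lit 15) .nil))))))) (.g (nat_lit 1) (.e (nat_lit 102431) (nat_lit 0) .nil) .nil))) 
(.lf (nat_lit 478077) (.g (nat_lit 1817) (.e (nat_lit 2347) (nat_lit 151) (.e (nat_lit 778466) (nat_lit 11) (.e (nat_lit 24617) (nat_lit 7) (.e (nat_lit 319534) (nat_lit 16) (.e (nat_lit 286756) (nat_lit 10) (.e (nat_lit 344160) (nat_lit 37) (.e (nat_lit 647190) (nat_lit 9) (.e (nat_lit 7936) (nat_lit 81) .nil)))))))) (.g (nat_lit 1) (.e (nat_lit 103447) (nat_lit 0) .nil) .nil))))) 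
(.nd (nat_lit 8) (.nd (nat_lit 9) 
(.lf (nat_lit 477437) (.g (nat_lit 4154) (.e (nat_lit 1859) (nat_lit 124) (.e (nat_lit 557098) (nat_lit 13) (.e (nat_lit 172115) (nat_lit 10) (.e (nat_lit 434231) (nat_lit 23) (.e (nat_lit 532490) (nat_lit 0) (.e (nat_lit 6680) (nat_lit 357) (.e (nat_lit 2854) (nat_lit 184) (.e (nat_lit 426402) (nat_lit 15) .nil)))))))) (.g (nat_lit 1) (.e (nat_lit 102302) (nat_lit 0) .nil) .nil))) 
(.lf (nat_lit 477949) (.g (nat_lit 1110) (.e (nat_lit 2283) (nat_lit 150) (.e (nat_lit 770072) (nat_lit 8) (.e (nat_lit 65610) (nat_lit 10) (.e (nat_lit 344090) (nat_lit 18) .nil)))) (.g (nat_lit 0) (.e (nat_lit 103275) (nat_lit 0) .nil) .nil)))) (.nd (nat_lit 9) 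
(.lf (nat_lit 477693) (.g (nat_lit 1481) (.e (nat_lit 1994) (nat_lit 137) (.e (nat_lit 663567) (nat_lit 4) (.e (nat_lit 65604) (nat_lit 9) (.e (nat_lit 335907) (nat_lit 0) (.e (nat_lit 1996) (nat_lit 137) .nil))))) (.g (nat_lit 0) (.e (nat_lit 102718) (nat_lit 0) .nil) .nil))) 
(.lf (nat_lit 478205) (.g (nat_lit 4416) (.e (nat_lit 2056) (nat_lit 142) (.e (nat_lit 704589) (nat_lit 3) (.e (nat_lit 163979) (nat_lit 30) (.e (nat_lit 573493) (nat_lit 15) (.e (nat_lit 81956) (nat_lit 23) (.e (nat_lit 98356) (nat_lit 26) (.e (nat_lit 426416) (nat_lit 15) .nil))))))) (.g (nat_lit 1) (.e (nat_lit 103982) (nat_lit 0) .nil) .nil))))))))))) 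
(.nd (nat_lit 2) (.nd (nat_lit 3) (.nd (nat_lit 4) (.nd (nat_lit 5) (.nd (nat_lit 6) 
(.nd (nat_lit 7) (.nd (nat_lit 8) (.nd (nat_lit 9) 
(.lf (nat_lit 477187) (.g (nat_lit 4045) (.e (nat_lit 1855) (nat_lit 124) (.e (nat_lit 557109) (nat_lit 15) (.e (nat_lit 188447) (nat_lit 22) (.e (nat_lit 196666) (nat_lit 13) (.e (nat_lit 65574) (nat_lit 4) .nil))))) (.g (nat_lit 0) (.e (nat_lit 101943) (nat_lit 0) .nil) .nil))) 
(.lf (nat_lit 477699) (.g (nat_lit 2038) (.e (nat_lit 1994) (nat_lit 137) (.e (nat_lit 663567) (nat_lit 4) (.e (nat_lit 65616) (nat_lit 10) (.e (nat_lit 344169) (nat_lit 40) (.e (nat_lit 671764) (nat_lit 6) (.e (nat_lit 81931) (nat_lit 20) .nil)))))) (.g (nat_lit 1) (.e (nat_lit 102724) (nat_lit 0) .nil) .nil)))) (.nd (nat_lit 9) 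
(.lf (nat_lit 477443) (.g (nat_lit 2117) (.e (nat_lit 1859) (nat_lit 124) (.e (nat_lit 557098) (nat_lit 13) (.e (nat_lit 172115) (nat_lit 10) (.e (nat_lit 434231) (nat_lit 23) (.e (nat_lit 532564) (nat_lit 15) .nil))))) (.g (nat_lit 0) (.e (nat_lit 102308) (nat_lit 0) .nil) .nil))) 
(.lf (nat_lit 477955) (.g (nat_lit 4448) (.e (nat_lit 2303) (nat_lit 151) (.e (nat_lit 778466) (nat_lit 11) (.e (nat_lit 24617) (nat_lit 7) (.e (nat_lit 319534) (nat_lit 16) (.e (nat_lit 286756) (nat_lit 10) (.e (nat_lit 344160) (nat_lit 37) (.e (nat_lit 647195) (nat_lit 9) (.e (nat_lit 1074) (nat_lit 81) .nil)))))))) (.g (nat_lit 1) (.e (nat_lit 103289) (nat_lit 0) .nil) .nil))))) 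
(.nd (nat_lit 8) (.nd (nat_lit 9) 
(.lf (nat_lit 477315) (.g (nat_lit 2359) (.e (nat_lit 1858) (nat_lit 124) (.e (nat_lit 557101) (nat_lit 13) (.e (nat_lit 172115) (nat_lit 10) (.e (nat_lit 434231) (nat_lit 23) (.e (nat_lit 532481) (nat_lit 0) (.e (nat_lit 6643) (nat_lit 357) (.e (nat_lit 2856) (nat_lit 184) (.e (nat_lit 426402) (nat_lit 15) .nil)))))))) (.g (nat_lit 1) (.e (nat_lit 102149) (nat_lit 0) .nil) .nil))) 
(.lf (nat_lit 477827) (.g (nat_lit 1563) (.e (nat_lit 2006) (nat_lit 138) (.e (nat_lit 671764) (nat_lit 6) (.e (nat_lit 81922) (nat_lit 0) (.e (nat_lit 3631) (nat_lit 227) (.e (nat_lit 778326) (nat_lit 6) (.e (nat_lit 81939) (nat_lit 20) .nil)))))) (.g (nat_lit 1) (.e (nat_lit 102865) (nat_lit 0) .nil) .nil)))) (.nd (nat_lit 9) 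
(.lf (nat_lit 477571) (.g (nat_lit 2643) (.e (nat_lit 1860) (nat_lit 124) (.e (nat_lit 557100) (nat_lit 13) (.e (nat_lit 172113) (nat_lit 10) (.e (nat_lit 434245) (nat_lit 28) (.e (nat_lit 573471) (nat_lit 11) (.e (nat_lit 16431) (nat_lit 9) (.e (nat_lit 426361) (nat_lit 15) .nil))))))) (.g (nat_lit 1) (.e (nat_lit 102437) (nat_lit 0) .nil) .nil))) 
(.lf (nat_lit 478083) (.g (nat_lit 2331) (.e (nat_lit 2345) (nat_lit 151) (.e (nat_lit 778464) (nat_lit 11) (.e (nat_lit 24617) (nat_lit 7) (.e (nat_lit 319533) (nat_lit 16) (.e (nat_lit 286753) (nat_lit 10) (.e (nat_lit 344160) (nat_lit 37) (.e (nat_lit 647196) (nat_lit 9) (.e (nat_lit 1003) (nat_lit 81) .nil)))))))) (.g (nat_lit 1) (.e (nat_lit 103454) (nat_lit 0) .nil) .nil)))))) 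
(.nd (nat_lit 7) (.nd (nat_lit 8) (.nd (nat_lit 9) 
(.lf (nat_lit 477251) (.g (nat_lit 3164) (.e (nat_lit 1856) (nat_lit 124) (.e (nat_lit 557101) (nat_lit 13) (.e (nat_lit 172115) (nat_lit 10) (.e (nat_lit 434244) (nat_lit 28) (.e (nat_lit 573454) (nat_lit 9) (.e (nat_lit 7936) (nat_lit 34) (.e (nat_lit 442379) (nat_lit 0) .nil))))))) (.g (nat_lit 1) (.e (nat_lit 102063) (nat_lit 0) .nil) .nil))) 
(.lf (nat_lit 477763) (.g (nat_lit 1684) (.e (nat_lit 1996) (nat_lit 137) (.e (nat_lit 663569) (nat_lit 6) (.e (nat_lit 81943) (nat_lit 20) (.e (nat_lit 2006) (nat_lit 138) (.e (nat_lit 671764) (nat_lit 6) (.e (nat_lit 81935) (nat_lit 20) .nil)))))) (.g (nat_lit 1) (.e (nat_lit 102793) (nat_lit 0) .nil) .nil)))) (.nd (nat_lit 9) 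
(.lf (nat_lit 477507) (.g (nat_lit 1590) (.e (nat_lit 1859) (nat_lit 124) (.e (nat_lit 557107) (nat_lit 15) (.e (nat_lit 188441) (nat_lit 20) (.e (nat_lit 3272) (nat_lit 199) (.e (nat_lit 548896) (nat_lit 14) (.e (nat_lit 3004) (nat_lit 186) (.e (nat_lit 450304) (nat_lit 0) .nil))))))) (.g (nat_lit 1) (.e (nat_lit 102373) (nat_lit 0) .nil) .nil))) 
(.lf (nat_lit 478019) (.g (nat_lit 3286) (.e (nat_lit 2328) (nat_lit 151) (.e (nat_lit 778466) (nat_lit 11) (.e (nat_lit 24617) (nat_lit 7) (.e (nat_lit 319534) (nat_lit 16) (.e (nat_lit 286756) (nat_lit 10) (.e (nat_lit 344160) (nat_lit 37) (.e (nat_lit 647190) (nat_lit 9) (.e (nat_lit 1007) (nat_lit 81) .nil)))))))) (.g (nat_lit 1) (.e (nat_lit 103369) (nat_lit 0) .nil) .nil))))) 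
(.nd (nat_lit 8) (.nd (nat_lit 9) 
(.lf (nat_lit 477379) (.g (nat_lit 3540) (.e (nat_lit 1858) (nat_lit 124) (.e (nat_lit 557105) (nat_lit 14) (.e (nat_lit 180252) (nat_lit 10) (.e (nat_lit 573482) (nat_lit 13) (.e (nat_lit 65637) (nat_lit 15) (.e (nat_lit 3253) (nat_lit 197) (.e (nat_lit 532501) (nat_lit 1) (.e (nat_lit 57852) (nat_lit 252) (.e (nat_lit 57344) (nat_lit 0) .nil))))))))) (.g (nat_lit 1) (.e (nat_lit 102232) (nat_lit 0) .nil) .nil))) 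
(.lf (nat_lit 477891) (.g (nat_lit 4331) (.e (nat_lit 2270) (nat_lit 149) (.e (nat_lit 761899) (nat_lit 15) (.e (nat_lit 163979) (nat_lit 30) (.e (nat_lit 573489) (nat_lit 14) (.e (nat_lit 73755) (nat_lit 8) (.e (nat_lit 557097) (nat_lit 13) (.e (nat_lit 172067) (nat_lit 3) (.e (nat_lit 204821) (nat_lit 17) .nil)))))))) (.g (nat_lit 1) (.e (nat_lit 103132) (nat_lit 0) .nil) .nil)))) 
(.nd (nat_lit 9) 
(.lf (nat_lit 477635) (.g (nat_lit 1890) (.e (nat_lit 1860) (nat_lit 124) (.e (nat_lit 557101) (nat_lit 13) (.e (nat_lit 172115) (nat_lit 10) (.e (nat_lit 434244) (nat_lit 28) (.e (nat_lit 573449) (nat_lit 9) (.e (nat_lit 457) (nat_lit 34) (.e (nat_lit 450304) (nat_lit 0) .nil))))))) (.g (nat_lit 1) (.e (nat_lit 102501) (nat_lit 0) .nil) .nil))) 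
(.lf (nat_lit 478147) (.g (nat_lit 1293) (.e (nat_lit 2030) (nat_lit 140) (.e (nat_lit 688184) (nat_lit 18) (.e (nat_lit 89856) (nat_lit 0) (.e (nat_lit 3603) (nat_lit 225) (.e (nat_lit 761912) (nat_lit 18) (.e (nat_lit 196352) (nat_lit 0) .nil)))))) (.g (nat_lit 1) (.e (nat_lit 103847) (nat_lit 0) .nil) .nil))))))) (.nd (nat_lit 6) (.nd (nat_lit 7) (.nd (nat_lit 8) (.nd (nat_lit 9) 
(.lf (nat_lit 477219) (.g (nat_lit 4681) (.e (nat_lit 1856) (nat_lit 124) (.e (nat_lit 557100) (nat_lit 13) (.e (nat_lit 172106) (nat_lit 10) (.e (nat_lit 434231) (nat_lit 23) (.e (nat_lit 532490) (nat_lit 0) (.e (nat_lit 6674) (nat_lit 357) (.e (nat_lit 2939) (nat_lit 184) (.e (nat_lit 426419) (nat_lit 15) .nil)))))))) (.g (nat_lit 1) (.e (nat_lit 102030) (nat_lit 0) .nil) .nil))) 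
(.lf (nat_lit 477731) (.g (nat_lit 1710) (.e (nat_lit 1994) (nat_lit 137) (.e (nat_lit 663569) (nat_lit 6) (.e (nat_lit 81947) (nat_lit 20) (.e (nat_lit 2006) (nat_lit 138) (.e (nat_lit 671764) (nat_lit 6) (.e (nat_lit 81934) (nat_lit 20) .nil)))))) (.g (nat_lit 1) (.e (nat_lit 102756) (nat_lit 0) .nil) .nil)))) (.nd (nat_lit 9) 
(.lf (nat_lit 477475) (.g (nat_lit 3219) (.e (nat_lit 1859) (nat_lit 124) (.e (nat_lit 557098) (nat_lit 13) (.e (nat_lit 172115) (nat_lit 10) (.e (nat_lit 434244) (nat_lit 28) (.e (nat_lit 573458) (nat_lit 9) (.e (nat_lit 420) (nat_lit 32) (.e (nat_lit 426262) (nat_lit 9) (.e (nat_lit 426401) (nat_lit 15) .nil)))))))) (.g (nat_lit 1) (.e (nat_lit 102340) (nat_lit 0) .nil) .nil))) 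
(.lf (nat_lit 477987) (.g (nat_lit 3477) (.e (nat_lit 2309) (nat_lit 151) (.e (nat_lit 778466) (nat_lit 11) (.e (nat_lit 24617) (nat_lit 7) (.e (nat_lit 319534) (nat_lit 16) (.e (nat_lit 286756) (nat_lit 10) (.e (nat_lit 344160) (nat_lit 37) (.e (nat_lit 647195) (nat_lit 9) (.e (nat_lit 7936) (nat_lit 81) .nil)))))))) (.g (nat_lit 1) (.e (nat_lit 103326) (nat_lit 0) .nil) .nil))))) 
(.nd (nat_lit 8) (.nd (nat_lit 9) 
(.lf (nat_lit 477347) (.g (nat_lit 3433) (.e (nat_lit 1858) (nat_lit 124) (.e (nat_lit 557101) (nat_lit 13) (.e (nat_lit 172115) (nat_lit 10) (.e (nat_lit 434244) (nat_lit 28) (.e (nat_lit 573449) (nat_lit 9) (.e (nat_lit 430) (nat_lit 32) (.e (nat_lit 426198) (nat_lit 9) (.e (nat_lit 426402) (nat_lit 15) .nil)))))))) (.g (nat_lit 1) (.e (nat_lit 102181) (nat_lit 0) .nil) .nil))) 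
(.lf (nat_lit 477859) (.g (nat_lit 2976) (.e (nat_lit 2270) (nat_lit 149) (.e (nat_lit 761898) (nat_lit 15) (.e (nat_lit 163978) (nat_lit 30) (.e (nat_lit 573489) (nat_lit 14) (.e (nat_lit 73754) (nat_lit 8) (.e (nat_lit 557101) (nat_lit 13) (.e (nat_lit 172067) (nat_lit 3) (.e (nat_lit 204821) (nat_lit 17) .nil)))))))) (.g (nat_lit 1) (.e (nat_lit 103095) (nat_lit 0) .nil) .nil)))) 
(.nd (nat_lit 9) 
(.lf (nat_lit 477603) (.g (nat_lit 4163) (.e (nat_lit 1860) (nat_lit 124) (.e (nat_lit 557100) (nat_lit 13) (.e (nat_lit 172113) (nat_lit 10) (.e (nat_lit 434248) (nat_lit 28) (.e (nat_lit 573471) (nat_lit 11) (.e (nat_lit 16433) (nat_lit 9) (.e (nat_lit 426360) (nat_lit 15) .nil))))))) (.g (nat_lit 1) (.e (nat_lit 102469) (nat_lit 0) .nil) .nil))) 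
(.lf (nat_lit 478115) (.g (nat_lit 450) (.e (nat_lit 2388) (nat_lit 156) (.e (nat_lit 819204) (nat_lit 0) (.e (nat_lit 3027) (nat_lit 187) .nil))) (.g (nat_lit 0) (.e (nat_lit 103684) (nat_lit 0) .nil) .nil)))))) (.nd (nat_lit 7) (.nd (nat_lit 8) (.nd (nat_lit 9) 
(.lf (nat_lit 477283) (.g (nat_lit 890) (.e (nat_lit 1858) (nat_lit 124) (.e (nat_lit 557091) (nat_lit 12) (.e (nat_lit 164018) (nat_lit 45) .nil))) (.g (nat_lit 0) (.e (nat_lit 102111) (nat_lit 0) .nil) .nil))) 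
(.lf (nat_lit 477795) (.g (nat_lit 1890) (.e (nat_lit 7936) (nat_lit 137) (.e (nat_lit 663565) (nat_lit 3) (.e (nat_lit 57479) (nat_lit 28) (.e (nat_lit 557100) (nat_lit 13) (.e (nat_lit 172106) (nat_lit 10) .nil))))) (.g (nat_lit 0) (.e (nat_lit 102827) (nat_lit 0) .nil) .nil)))) (.nd (nat_lit 9) 
(.lf (nat_lit 477539) (.g (nat_lit 3325) (.e (nat_lit 1859) (nat_lit 124) (.e (nat_lit 557109) (nat_lit 15) (.e (nat_lit 188449) (nat_lit 22) (.e (nat_lit 196661) (nat_lit 12) (.e (nat_lit 57751) (nat_lit 201) (.e (nat_lit 2855) (nat_lit 184) (.e (nat_lit 426402) (nat_lit 15) .nil))))))) (.g (nat_lit 1) (.e (nat_lit 102405) (nat_lit 0) .nil) .nil))) 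
(.lf (nat_lit 478051) (.g (nat_lit 2828) (.e (nat_lit 2343) (nat_lit 151) (.e (nat_lit 778466) (nat_lit 11) (.e (nat_lit 24617) (nat_lit 7) (.e (nat_lit 319505) (nat_lit 10) (.e (nat_lit 720) (nat_lit 64) .nil))))) (.g (nat_lit 0) (.e (nat_lit 103403) (nat_lit 0) .nil) .nil))))) (.nd (nat_lit 8) (.nd (nat_lit 9) 
(.lf (nat_lit 477411) (.g (nat_lit 2154) (.e (nat_lit 1859) (nat_lit 124) (.e (nat_lit 557098) (nat_lit 13) (.e (nat_lit 172097) (nat_lit 9) (.e (nat_lit 426125) (nat_lit 2) (.e (nat_lit 196661) (nat_lit 12) (.e (nat_lit 57749) (nat_lit 201) (.e (nat_lit 2936) (nat_lit 184) (.e (nat_lit 433920) (nat_lit 15) .nil)))))))) (.g (nat_lit 1) (.e (nat_lit 102276) (nat_lit 0) .nil) .nil))) 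
(.lf (nat_lit 477923) (.g (nat_lit 1650) (.e (nat_lit 2281) (nat_lit 150) (.e (nat_lit 770072) (nat_lit 8) (.e (nat_lit 65617) (nat_lit 10) (.e (nat_lit 344096) (nat_lit 18) (.e (nat_lit 7132) (nat_lit 382) .nil))))) (.g (nat_lit 0) (.e (nat_lit 103226) (nat_lit 0) .nil) .nil)))) (.nd (nat_lit 9) 
(.lf (nat_lit 477667) (.g (nat_lit 3824) (.e (nat_lit 1860) (nat_lit 124) (.e (nat_lit 557105) (nat_lit 14) (.e (nat_lit 180252) (nat_lit 10) (.e (nat_lit 573482) (nat_lit 13) (.e (nat_lit 65637) (nat_lit 15) (.e (nat_lit 3253) (nat_lit 197) (.e (nat_lit 532504) (nat_lit 1) (.e (nat_lit 57852) (nat_lit 252) (.e (nat_lit 57345) (nat_lit 0) .nil))))))))) (.g (nat_lit 1) (.e (nat_lit 102533) (nat_lit 0) .nil) .nil))) 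
(.lf (nat_lit 478179) (.g (nat_lit 4051) (.e (nat_lit 2056) (nat_lit 142) (.e (nat_lit 704589) (nat_lit 3) (.e (nat_lit 163975) (nat_lit 30) (.e (nat_lit 573492) (nat_lit 15) (.e (nat_lit 81956) (nat_lit 23) (.e (nat_lit 98356) (nat_lit 26) (.e (nat_lit 426416) (nat_lit 15) .nil))))))) (.g (nat_lit 1) (.e (nat_lit 103956) (nat_lit 0) .nil) .nil)))))))) 
(.nd (nat_lit 5) (.nd (nat_lit 6) (.nd (nat_lit 7) (.nd (nat_lit 8) (.nd (nat_lit 9) 
(.lf (nat_lit 477203) (.g (nat_lit 2302) (.e (nat_lit 1856) (nat_lit 124) (.e (nat_lit 557098) (nat_lit 13) (.e (nat_lit 172085) (nat_lit 9) (.e (nat_lit 426125) (nat_lit 2) (.e (nat_lit 204544) (nat_lit 18) .nil))))) (.g (nat_lit 0) (.e (nat_lit 102009) (nat_lit 0) .nil) .nil))) 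
(.lf (nat_lit 477715) (.g (nat_lit 3103) (.e (nat_lit 1994) (nat_lit 137) (.e (nat_lit 663567) (nat_lit 4) (.e (nat_lit 65630) (nat_lit 14) (.e (nat_lit 401437) (nat_lit 9) (.e (nat_lit 426542) (nat_lit 29) (.e (nat_lit 352287) (nat_lit 20) .nil)))))) (.g (nat_lit 1) (.e (nat_lit 102740) (nat_lit 0) .nil) .nil)))) (.nd (nat_lit 9) 
(.lf (nat_lit 477459) (.g (nat_lit 1794) (.e (nat_lit 1859) (nat_lit 124) (.e (nat_lit 557098) (nat_lit 13) (.e (nat_lit 172115) (nat_lit 10) (.e (nat_lit 434244) (nat_lit 28) (.e (nat_lit 573449) (nat_lit 9) .nil))))) (.g (nat_lit 0) (.e (nat_lit 102324) (nat_lit 0) .nil) .nil))) 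
(.lf (nat_lit 477971) (.g (nat_lit 4824) (.e (nat_lit 2305) (nat_lit 151) (.e (nat_lit 778466) (nat_lit 11) (.e (nat_lit 24617) (nat_lit 7) (.e (nat_lit 319534) (nat_lit 16) (.e (nat_lit 286756) (nat_lit 10) (.e (nat_lit 344160) (nat_lit 37) (.e (nat_lit 647195) (nat_lit 9) (.e (nat_lit 7936) (nat_lit 81) .nil)))))))) (.g (nat_lit 1) (.e (nat_lit 103309) (nat_lit 0) .nil) .nil))))) 
(.nd (nat_lit 8) (.nd (nat_lit 9) 
(.lf (nat_lit 477331) (.g (nat_lit 2441) (.e (nat_lit 1858) (nat_lit 124) (.e (nat_lit 557101) (nat_lit 13) (.e (nat_lit 172115) (nat_lit 10) (.e (nat_lit 434238) (nat_lit 25) (.e (nat_lit 548896) (nat_lit 14) (.e (nat_lit 3005) (nat_lit 186) (.e (nat_lit 450304) (nat_lit 0) .nil))))))) (.g (nat_lit 1) (.e (nat_lit 102165) (nat_lit 0) .nil) .nil))) 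
(.lf (nat_lit 477843) (.g (nat_lit 3482) (.e (nat_lit 2270) (nat_lit 149) (.e (nat_lit 761898) (nat_lit 15) (.e (nat_lit 163977) (nat_lit 30) (.e (nat_lit 573489) (nat_lit 14) (.e (nat_lit 73755) (nat_lit 8) (.e (nat_lit 557097) (nat_lit 13) (.e (nat_lit 172066) (nat_lit 3) (.e (nat_lit 204821) (nat_lit 17) .nil)))))))) (.g (nat_lit 1) (.e (nat_lit 103079) (nat_lit 0) .nil) .nil)))) 
(.nd (nat_lit 9) 
(.lf (nat_lit 477587) (.g (nat_lit 4249) (.e (nat_lit 1860) (nat_lit 124) (.e (nat_lit 557100) (nat_lit 13) (.e (nat_lit 172113) (nat_lit 10) (.e (nat_lit 434247) (nat_lit 28) (.e (nat_lit 573469) (nat_lit 11) (.e (nat_lit 16435) (nat_lit 9) (.e (nat_lit 426354) (nat_lit 15) .nil))))))) (.g (nat_lit 1) (.e (nat_lit 102453) (nat_lit 0) .nil) .nil))) 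
(.lf (nat_lit 478099) (.g (nat_lit 2569) (.e (nat_lit 2367) (nat_lit 153) (.e (nat_lit 794684) (nat_lit 25) (.e (nat_lit 221215) (nat_lit 23) (.e (nat_lit 204883) (nat_lit 33) (.e (nat_lit 401459) (nat_lit 13) (.e (nat_lit 483343) (nat_lit 17) .nil)))))) (.g (nat_lit 1) (.e (nat_lit 103631) (nat_lit 0) .nil) .nil)))))) (.nd (nat_lit 7) (.nd (nat_lit 8) (.nd (nat_lit 9) 
(.lf (nat_lit 477267) (.g (nat_lit 1670) (.e (nat_lit 1856) (nat_lit 124) (.e (nat_lit 557109) (nat_lit 15) (.e (nat_lit 188455) (nat_lit 24) (.e (nat_lit 237312) (nat_lit 134) .nil)))) (.g (nat_lit 0) (.e (nat_lit 102082) (nat_lit 0) .nil) .nil))) 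
(.lf (nat_lit 477779) (.g (nat_lit 2102) (.e (nat_lit 1999) (nat_lit 137) (.e (nat_lit 663567) (nat_lit 4) (.e (nat_lit 65617) (nat_lit 10) (.e (nat_lit 344169) (nat_lit 40) (.e (nat_lit 671764) (nat_lit 6) (.e (nat_lit 81934) (nat_lit 20) .nil)))))) (.g (nat_lit 1) (.e (nat_lit 102811) (nat_lit 0) .nil) .nil)))) (.nd (nat_lit 9) 
(.lf (nat_lit 477523) (.g (nat_lit 1918) (.e (nat_lit 1859) (nat_lit 124) (.e (nat_lit 557107) (nat_lit 15) (.e (nat_lit 188452) (nat_lit 23) (.e (nat_lit 204885) (nat_lit 33) .nil)))) (.g (nat_lit 0) (.e (nat_lit 102389) (nat_lit 0) .nil) .nil))) 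
(.lf (nat_lit 478035) (.g (nat_lit 2581) (.e (nat_lit 2342) (nat_lit 151) (.e (nat_lit 778466) (nat_lit 11) (.e (nat_lit 24617) (nat_lit 7) (.e (nat_lit 319533) (nat_lit 16) (.e (nat_lit 286753) (nat_lit 10) .nil))))) (.g (nat_lit 0) (.e (nat_lit 103385) (nat_lit 0) .nil) .nil))))) (.nd (nat_lit 8) (.nd (nat_lit 9) 
(.lf (nat_lit 477395) (.g (nat_lit 2996) (.e (nat_lit 1858) (nat_lit 124) (.e (nat_lit 557109) (nat_lit 15) (.e (nat_lit 188450) (nat_lit 23) (.e (nat_lit 204883) (nat_lit 33) .nil)))) (.g (nat_lit 0) (.e (nat_lit 102250) (nat_lit 0) .nil) .nil))) 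
(.lf (nat_lit 477907) (.g (nat_lit 4111) (.e (nat_lit 2271) (nat_lit 149) (.e (nat_lit 761899) (nat_lit 15) (.e (nat_lit 163979) (nat_lit 30) (.e (nat_lit 573489) (nat_lit 14) (.e (nat_lit 73755) (nat_lit 8) (.e (nat_lit 557097) (nat_lit 13) (.e (nat_lit 172067) (nat_lit 3) (.e (nat_lit 204815) (nat_lit 17) .nil)))))))) (.g (nat_lit 1) (.e (nat_lit 103179) (nat_lit 0) .nil) .nil)))) 
(.nd (nat_lit 9) 
(.lf (nat_lit 477651) (.g (nat_lit 2295) (.e (nat_lit 1860) (nat_lit 124) (.e (nat_lit 557101) (nat_lit 13) (.e (nat_lit 172115) (nat_lit 10) (.e (nat_lit 434244) (nat_lit 28) (.e (nat_lit 573458) (nat_lit 9) (.e (nat_lit 420) (nat_lit 32) (.e (nat_lit 426258) (nat_lit 9) (.e (nat_lit 426353) (nat_lit 15) .nil)))))))) (.g (nat_lit 1) (.e (nat_lit 102517) (nat_lit 0) .nil) .nil))) 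
(.lf (nat_lit 478163) (.g (nat_lit 4467) (.e (nat_lit 2056) (nat_lit 142) (.e (nat_lit 704589) (nat_lit 3) (.e (nat_lit 163975) (nat_lit 30) (.e (nat_lit 573481) (nat_lit 13) (.e (nat_lit 65604) (nat_lit 9) (.e (nat_lit 336013) (nat_lit 2) (.e (nat_lit 90170) (nat_lit 13) (.e (nat_lit 172138) (nat_lit 15) .nil)))))))) (.g (nat_lit 1) (.e (nat_lit 103939) (nat_lit 0) .nil) .nil))))))) 
(.nd (nat_lit 6) (.nd (nat_lit 7) (.nd (nat_lit 8) (.nd (nat_lit 9) 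
(.lf (nat_lit 477235) (.g (nat_lit 2972) (.e (nat_lit 1856) (nat_lit 124) (.e (nat_lit 557100) (nat_lit 13) (.e (nat_lit 172113) (nat_lit 10) (.e (nat_lit 434248) (nat_lit 28) (.e (nat_lit 573449) (nat_lit 9) (.e (nat_lit 459) (nat_lit 34) (.e (nat_lit 442379) (nat_lit 0) .nil))))))) (.g (nat_lit 1) (.e (nat_lit 102047) (nat_lit 0) .nil) .nil))) 
(.lf (nat_lit 477747) (.g (nat_lit 1987) (.e (nat_lit 1996) (nat_lit 137) (.e (nat_lit 663567) (nat_lit 4) (.e (nat_lit 65620) (nat_lit 10) (.e (nat_lit 344169) (nat_lit 40) (.e (nat_lit 671764) (nat_lit 6) (.e (nat_lit 81935) (nat_lit 20) .nil)))))) (.g (nat_lit 1) (.e (nat_lit 102777) (nat_lit 0) .nil) .nil)))) (.nd (nat_lit 9) 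
(.lf (nat_lit 477491) (.g (nat_lit 2033) (.e (nat_lit 1859) (nat_lit 124) (.e (nat_lit 557107) (nat_lit 15) (.e (nat_lit 188439) (nat_lit 20) (.e (nat_lit 3271) (nat_lit 199) (.e (nat_lit 548898) (nat_lit 14) (.e (nat_lit 2999) (nat_lit 186) (.e (nat_lit 450304) (nat_lit 0) .nil))))))) (.g (nat_lit 1) (.e (nat_lit 102357) (nat_lit 0) .nil) .nil))) 
(.lf (nat_lit 478003) (.g (nat_lit 2077) (.e (nat_lit 2314) (nat_lit 151) (.e (nat_lit 778466) (nat_lit 11) (.e (nat_lit 24617) (nat_lit 7) (.e (nat_lit 319534) (nat_lit 16) (.e (nat_lit 286756) (nat_lit 10) .nil))))) (.g (nat_lit 0) (.e (nat_lit 103346) (nat_lit 0) .nil) .nil))))) (.nd (nat_lit 8) (.nd (nat_lit 9) 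
(.lf (nat_lit 477363) (.g (nat_lit 2888) (.e (nat_lit 1858) (nat_lit 124) (.e (nat_lit 557101) (nat_lit 13) (.e (nat_lit 172115) (nat_lit 10) (.e (nat_lit 434244) (nat_lit 28) (.e (nat_lit 573458) (nat_lit 9) (.e (nat_lit 426) (nat_lit 32) (.e (nat_lit 426199) (nat_lit 9) (.e (nat_lit 426402) (nat_lit 15) .nil)))))))) (.g (nat_lit 1) (.e (nat_lit 102197) (nat_lit 0) .nil) .nil))) 
(.lf (nat_lit 477875) (.g (nat_lit 3477) (.e (nat_lit 2270) (nat_lit 149) (.e (nat_lit 761898) (nat_lit 15) (.e (nat_lit 163979) (nat_lit 30) (.e (nat_lit 573489) (nat_lit 14) (.e (nat_lit 73755) (nat_lit 8) (.e (nat_lit 557097) (nat_lit 13) (.e (nat_lit 172066) (nat_lit 3) (.e (nat_lit 204821) (nat_lit 17) .nil)))))))) (.g (nat_lit 1) (.e (nat_lit 103111) (nat_lit 0) .nil) .nil)))) 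
(.nd (nat_lit 9) 
(.lf (nat_lit 477619) (.g (nat_lit 2279) (.e (nat_lit 1860) (nat_lit 124) (.e (nat_lit 557101) (nat_lit 13) (.e (nat_lit 172115) (nat_lit 10) (.e (nat_lit 434231) (nat_lit 23) (.e (nat_lit 532490) (nat_lit 0) (.e (nat_lit 6674) (nat_lit 357) (.e (nat_lit 2941) (nat_lit 184) (.e (nat_lit 433920) (nat_lit 15) .nil)))))))) (.g (nat_lit 1) (.e (nat_lit 102485) (nat_lit 0) .nil) .nil))) 
(.lf (nat_lit 478131) (.g (nat_lit 2349) (.e (nat_lit 2391) (nat_lit 156) (.e (nat_lit 819204) (nat_lit 0) (.e (nat_lit 2668) (nat_lit 167) (.e (nat_lit 196670) (nat_lit 14) (.e (nat_lit 73753) (nat_lit 8) .nil))))) (.g (nat_lit 0) (.e (nat_lit 103775) (nat_lit 0) .nil) .nil)))))) (.nd (nat_lit 7) (.nd (nat_lit 8) (.nd (nat_lit 9) 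
(.lf (nat_lit 477299) (.g (nat_lit 4299) (.e (nat_lit 1858) (nat_lit 124) (.e (nat_lit 557101) (nat_lit 13) (.e (nat_lit 172097) (nat_lit 9) (.e (nat_lit 426125) (nat_lit 2) (.e (nat_lit 196661) (nat_lit 12) (.e (nat_lit 57750) (nat_lit 201) (.e (nat_lit 2857) (nat_lit 184) (.e (nat_lit 426402) (nat_lit 15) .nil)))))))) (.g (nat_lit 1) (.e (nat_lit 102133) (nat_lit 0) .nil) .nil))) 
(.lf (nat_lit 477811) (.g (nat_lit 2052) (.e (nat_lit 2006) (nat_lit 138) (.e (nat_lit 671759) (nat_lit 3) (.e (nat_lit 57479) (nat_lit 28) (.e (nat_lit 557099) (nat_lit 13) .nil)))) (.g (nat_lit 0) (.e (nat_lit 102848) (nat_lit 0) .nil) .nil)))) (.nd (nat_lit 9) 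
(.lf (nat_lit 477555) (.g (nat_lit 1056) (.e (nat_lit 1860) (nat_lit 124) (.e (nat_lit 557098) (nat_lit 13) (.e (nat_lit 172115) (nat_lit 10) .nil))) (.g (nat_lit 0) (.e (nat_lit 102421) (nat_lit 0) .nil) .nil))) 
(.lf (nat_lit 478067) (.g (nat_lit 2474) (.e (nat_lit 2346) (nat_lit 151) (.e (nat_lit 778466) (nat_lit 11) (.e (nat_lit 24617) (nat_lit 7) (.e (nat_lit 319534) (nat_lit 16) (.e (nat_lit 286756) (nat_lit 10) (.e (nat_lit 344160) (nat_lit 37) (.e (nat_lit 647195) (nat_lit 9) (.e (nat_lit 7936) (nat_lit 81) .nil)))))))) (.g (nat_lit 1) (.e (nat_lit 103437) (nat_lit 0) .nil) .nil))))) 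
(.nd (nat_lit 8) (.nd (nat_lit 9) 
(.lf (nat_lit 477427) (.g (nat_lit 3473) (.e (nat_lit 1859) (nat_lit 124) (.e (nat_lit 557098) (nat_lit 13) (.e (nat_lit 172097) (nat_lit 9) (.e (nat_lit 426140) (nat_lit 3) (.e (nat_lit 204821) (nat_lit 17) (.e (nat_lit 6680) (nat_lit 357) (.e (nat_lit 2855) (nat_lit 184) (.e (nat_lit 426402) (nat_lit 15) .nil)))))))) (.g (nat_lit 1) (.e (nat_lit 102292) (nat_lit 0) .nil) .nil))) 
(.lf (nat_lit 477939) (.g (nat_lit 937) (.e (nat_lit 2283) (nat_lit 150) (.e (nat_lit 770071) (nat_lit 8) (.e (nat_lit 65610) (nat_lit 10) (.e (nat_lit 344090) (nat_lit 18) .nil)))) (.g (nat_lit 0) (.e (nat_lit 103251) (nat_lit 0) .nil) .nil)))) (.nd (nat_lit 9) 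
(.lf (nat_lit 477683) (.g (nat_lit 1697) (.e (nat_lit 1962) (nat_lit 134) (.e (nat_lit 638998) (nat_lit 8) (.e (nat_lit 172082) (nat_lit 7) (.e (nat_lit 409646) (nat_lit 18) (.e (nat_lit 303112) (nat_lit 0) .nil))))) (.g (nat_lit 0) (.e (nat_lit 102653) (nat_lit 0) .nil) .nil))) 
(.lf (nat_lit 478195) (.g (nat_lit 2810) (.e (nat_lit 2056) (nat_lit 142) (.e (nat_lit 704589) (nat_lit 3) (.e (nat_lit 163979) (nat_lit 30) (.e (nat_lit 573482) (nat_lit 13) (.e (nat_lit 65619) (nat_lit 10) (.e (nat_lit 344117) (nat_lit 21) (.e (nat_lit 516147) (nat_lit 9) (.e (nat_lit 426376) (nat_lit 15) .nil)))))))) (.g (nat_lit 1) (.e (nat_lit 103972) (nat_lit 0) .nil) .nil))))))))) 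
(.nd (nat_lit 4) (.nd (nat_lit 5) (.nd (nat_lit 6) (.nd (nat_lit 7) (.nd (nat_lit 8) 
(.nd (nat_lit 9) 
(.lf (nat_lit 477195) (.g (nat_lit 4872) (.e (nat_lit 1855) (nat_lit 124) (.e (nat_lit 557109) (nat_lit 15) (.e (nat_lit 188452) (nat_lit 23) (.e (nat_lit 204880) (nat_lit 32) (.e (nat_lit 385104) (nat_lit 50) .nil))))) (.g (nat_lit 0) (.e (nat_lit 101951) (nat_lit 0) .nil) .nil))) 
(.lf (nat_lit 477707) (.g (nat_lit 1698) (.e (nat_lit 1994) (nat_lit 137) (.e (nat_lit 663567) (nat_lit 4) (.e (nat_lit 65620) (nat_lit 10) (.e (nat_lit 344169) (nat_lit 40) (.e (nat_lit 671764) (nat_lit 6) (.e (nat_lit 81934) (nat_lit 20) .nil)))))) (.g (nat_lit 1) (.e (nat_lit 102732) (nat_lit 0) .nil) .nil)))) (.nd (nat_lit 9) 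
(.lf (nat_lit 477451) (.g (nat_lit 2710) (.e (nat_lit 1859) (nat_lit 124) (.e (nat_lit 557098) (nat_lit 13) (.e (nat_lit 172115) (nat_lit 10) (.e (nat_lit 434238) (nat_lit 25) (.e (nat_lit 548897) (nat_lit 14) (.e (nat_lit 3004) (nat_lit 186) (.e (nat_lit 450304) (nat_lit 0) .nil))))))) (.g (nat_lit 1) (.e (nat_lit 102316) (nat_lit 0) .nil) .nil))) 
(.lf (nat_lit 477963) (.g (nat_lit 4639) (.e (nat_lit 2304) (nat_lit 151) (.e (nat_lit 778466) (nat_lit 11) (.e (nat_lit 24617) (nat_lit 7) (.e (nat_lit 319534) (nat_lit 16) (.e (nat_lit 286756) (nat_lit 10) (.e (nat_lit 344160) (nat_lit 37) (.e (nat_lit 647195) (nat_lit 9) (.e (nat_lit 7936) (nat_lit 81) .nil)))))))) (.g (nat_lit 1) (.e (nat_lit 103297) (nat_lit 0) .nil) .nil))))) 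
(.nd (nat_lit 8) (.nd (nat_lit 9) 
(.lf (nat_lit 477323) (.g (nat_lit 1946) (.e (nat_lit 1858) (nat_lit 124) (.e (nat_lit 557101) (nat_lit 13) (.e (nat_lit 172115) (nat_lit 10) (.e (nat_lit 434231) (nat_lit 23) (.e (nat_lit 532490) (nat_lit 0) (.e (nat_lit 6674) (nat_lit 357) (.e (nat_lit 2941) (nat_lit 184) (.e (nat_lit 433920) (nat_lit 15) .nil)))))))) (.g (nat_lit 1) (.e (nat_lit 102157) (nat_lit 0) .nil) .nil))) 
(.lf (nat_lit 477835) (.g (nat_lit 4218) (.e (nat_lit 2272) (nat_lit 149) (.e (nat_lit 761899) (nat_lit 15) (.e (nat_lit 163977) (nat_lit 30) (.e (nat_lit 573489) (nat_lit 14) (.e (nat_lit 73755) (nat_lit 8) (.e (nat_lit 557097) (nat_lit 13) (.e (nat_lit 172067) (nat_lit 3) (.e (nat_lit 204817) (nat_lit 17) .nil)))))))) (.g (nat_lit 1) (.e (nat_lit 103058) (nat_lit 0) .nil) .nil)))) 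
(.nd (nat_lit 9) 
(.lf (nat_lit 477579) (.g (nat_lit 3402) (.e (nat_lit 1860) (nat_lit 124) (.e (nat_lit 557100) (nat_lit 13) (.e (nat_lit 172113) (nat_lit 10) (.e (nat_lit 434245) (nat_lit 28) (.e (nat_lit 573471) (nat_lit 11) (.e (nat_lit 16434) (nat_lit 9) (.e (nat_lit 426361) (nat_lit 15) .nil))))))) (.g (nat_lit 1) (.e (nat_lit 102445) (nat_lit 0) .nil) .nil))) 
(.lf (nat_lit 478091) (.g (nat_lit 3823) (.e (nat_lit 2349) (nat_lit 151) (.e (nat_lit 778466) (nat_lit 11) (.e (nat_lit 24617) (nat_lit 7) (.e (nat_lit 319534) (nat_lit 16) (.e (nat_lit 286756) (nat_lit 10) (.e (nat_lit 344160) (nat_lit 37) (.e (nat_lit 647196) (nat_lit 9) (.e (nat_lit 991) (nat_lit 81) .nil)))))))) (.g (nat_lit 1) (.e (nat_lit 103462) (nat_lit 0) .nil) .nil)))))) 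
(.nd (nat_lit 7) (.nd (nat_lit 8) (.nd (nat_lit 9) 
(.lf (nat_lit 477259) (.g (nat_lit 473) (.e (nat_lit 1856) (nat_lit 124) (.e (nat_lit 557107) (nat_lit 15) (.e (nat_lit 188452) (nat_lit 23) .nil))) (.g (nat_lit 0) (.e (nat_lit 102074) (nat_lit 0) .nil) .nil))) 
(.lf (nat_lit 477771) (.g (nat_lit 2027) (.e (nat_lit 1999) (nat_lit 137) (.e (nat_lit 663567) (nat_lit 4) (.e (nat_lit 65610) (nat_lit 10) (.e (nat_lit 344169) (nat_lit 40) (.e (nat_lit 671764) (nat_lit 6) (.e (nat_lit 81934) (nat_lit 20) .nil)))))) (.g (nat_lit 1) (.e (nat_lit 102803) (nat_lit 0) .nil) .nil)))) (.nd (nat_lit 9) 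
(.lf (nat_lit 477515) (.g (nat_lit 1441) (.e (nat_lit 1859) (nat_lit 124) (.e (nat_lit 557107) (nat_lit 15) (.e (nat_lit 188447) (nat_lit 22) (.e (nat_lit 196661) (nat_lit 12) (.e (nat_lit 57711) (nat_lit 176) .nil))))) (.g (nat_lit 0) (.e (nat_lit 102381) (nat_lit 0) .nil) .nil))) 
(.lf (nat_lit 478027) (.g (nat_lit 1041) (.e (nat_lit 2334) (nat_lit 151) (.e (nat_lit 778325) (nat_lit 6) (.e (nat_lit 81956) (nat_lit 23) (.e (nat_lit 98321) (nat_lit 17) .nil)))) (.g (nat_lit 0) (.e (nat_lit 103377) (nat_lit 0) .nil) .nil))))) (.nd (nat_lit 8) (.nd (nat_lit 9) 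
(.lf (nat_lit 477387) (.g (nat_lit 3413) (.e (nat_lit 1858) (nat_lit 124) (.e (nat_lit 557105) (nat_lit 14) (.e (nat_lit 180252) (nat_lit 10) (.e (nat_lit 573482) (nat_lit 13) (.e (nat_lit 73472) (nat_lit 15) (.e (nat_lit 3253) (nat_lit 197) (.e (nat_lit 532504) (nat_lit 1) (.e (nat_lit 57852) (nat_lit 252) (.e (nat_lit 57357) (nat_lit 0) .nil))))))))) (.g (nat_lit 1) (.e (nat_lit 102240) (nat_lit 0) .nil) .nil))) 
(.lf (nat_lit 477899) (.g (nat_lit 2363) (.e (nat_lit 2271) (nat_lit 149) (.e (nat_lit 761898) (nat_lit 15) (.e (nat_lit 163978) (nat_lit 30) (.e (nat_lit 573487) (nat_lit 14) (.e (nat_lit 73753) (nat_lit 8) .nil))))) (.g (nat_lit 0) (.e (nat_lit 103169) (nat_lit 0) .nil) .nil)))) (.nd (nat_lit 9) 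
(.lf (nat_lit 477643) (.g (nat_lit 3365) (.e (nat_lit 1860) (nat_lit 124) (.e (nat_lit 557101) (nat_lit 13) (.e (nat_lit 172115) (nat_lit 10) (.e (nat_lit 434244) (nat_lit 28) (.e (nat_lit 573450) (nat_lit 9) (.e (nat_lit 457) (nat_lit 34) (.e (nat_lit 450304) (nat_lit 0) .nil))))))) (.g (nat_lit 1) (.e (nat_lit 102509) (nat_lit 0) .nil) .nil))) 
(.lf (nat_lit 478155) (.g (nat_lit 2903) (.e (nat_lit 2031) (nat_lit 140) (.e (nat_lit 688177) (nat_lit 16) (.e (nat_lit 65622) (nat_lit 12) (.e (nat_lit 385088) (nat_lit 47) (.e (nat_lit 761912) (nat_lit 18) (.e (nat_lit 196352) (nat_lit 0) .nil)))))) (.g (nat_lit 1) (.e (nat_lit 103858) (nat_lit 0) .nil) .nil))))))) (.nd (nat_lit 6) (.nd (nat_lit 7) (.nd (nat_lit 8) (.nd (nat_lit 9) 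
(.lf (nat_lit 477227) (.g (nat_lit 981) (.e (nat_lit 1856) (nat_lit 124) (.e (nat_lit 557100) (nat_lit 13) (.e (nat_lit 172113) (nat_lit 10) (.e (nat_lit 434203) (nat_lit 18) .nil)))) (.g (nat_lit 0) (.e (nat_lit 102038) (nat_lit 0) .nil) .nil))) 
(.lf (nat_lit 477739) (.g (nat_lit 1772) (.e (nat_lit 1996) (nat_lit 137) (.e (nat_lit 663567) (nat_lit 4) (.e (nat_lit 65611) (nat_lit 10) (.e (nat_lit 344169) (nat_lit 40) (.e (nat_lit 671764) (nat_lit 6) (.e (nat_lit 81934) (nat_lit 20) .nil)))))) (.g (nat_lit 1) (.e (nat_lit 102769) (nat_lit 0) .nil) .nil)))) (.nd (nat_lit 9) 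
(.lf (nat_lit 477483) (.g (nat_lit 2013) (.e (nat_lit 1859) (nat_lit 124) (.e (nat_lit 557105) (nat_lit 14) (.e (nat_lit 180252) (nat_lit 10) (.e (nat_lit 573474) (nat_lit 12) .nil)))) (.g (nat_lit 0) (.e (nat_lit 102349) (nat_lit 0) .nil) .nil))) 
(.lf (nat_lit 477995) (.g (nat_lit 2811) (.e (nat_lit 2312) (nat_lit 151) (.e (nat_lit 778466) (nat_lit 11) (.e (nat_lit 24617) (nat_lit 7) (.e (nat_lit 319534) (nat_lit 16) (.e (nat_lit 286756) (nat_lit 10) .nil))))) (.g (nat_lit 0) (.e (nat_lit 103338) (nat_lit 0) .nil) .nil))))) (.nd (nat_lit 8) (.nd (nat_lit 9) 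
(.lf (nat_lit 477355) (.g (nat_lit 3368) (.e (nat_lit 1858) (nat_lit 124) (.e (nat_lit 557101) (nat_lit 13) (.e (nat_lit 172115) (nat_lit 10) (.e (nat_lit 434244) (nat_lit 28) (.e (nat_lit 573450) (nat_lit 9) (.e (nat_lit 455) (nat_lit 34) (.e (nat_lit 450304) (nat_lit 0) .nil))))))) (.g (nat_lit 1) (.e (nat_lit 102189) (nat_lit 0) .nil) .nil))) 
(.lf (nat_lit 477867) (.g (nat_lit 3264) (.e (nat_lit 2270) (nat_lit 149) (.e (nat_lit 761898) (nat_lit 15) (.e (nat_lit 163979) (nat_lit 30) (.e (nat_lit 573487) (nat_lit 14) (.e (nat_lit 73753) (nat_lit 8) (.e (nat_lit 557098) (nat_lit 13) (.e (nat_lit 172065) (nat_lit 3) (.e (nat_lit 204821) (nat_lit 17) .nil)))))))) (.g (nat_lit 1) (.e (nat_lit 103103) (nat_lit 0) .nil) .nil)))) 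
(.nd (nat_lit 9) 
(.lf (nat_lit 477611) (.g (nat_lit 2282) (.e (nat_lit 1860) (nat_lit 124) (.e (nat_lit 557101) (nat_lit 13) (.e (nat_lit 172097) (nat_lit 9) (.e (nat_lit 426125) (nat_lit 2) (.e (nat_lit 196661) (nat_lit 12) (.e (nat_lit 57749) (nat_lit 201) (.e (nat_lit 2940) (nat_lit 184) (.e (nat_lit 433920) (nat_lit 15) .nil)))))))) (.g (nat_lit 1) (.e (nat_lit 102477) (nat_lit 0) .nil) .nil))) 
(.lf (nat_lit 478123) (.g (nat_lit 1567) (.e (nat_lit 2390) (nat_lit 156) (.e (nat_lit 819219) (nat_lit 4) (.e (nat_lit 172094) (nat_lit 9) (.e (nat_lit 426125) (nat_lit 2) (.e (nat_lit 204544) (nat_lit 0) .nil))))) (.g (nat_lit 0) (.e (nat_lit 103735) (nat_lit 0) .nil) .nil)))))) (.nd (nat_lit 7) (.nd (nat_lit 8) (.nd (nat_lit 9) 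
(.lf (nat_lit 477291) (.g (nat_lit 3371) (.e (nat_lit 1858) (nat_lit 124) (.e (nat_lit 557101) (nat_lit 13) (.e (nat_lit 172097) (nat_lit 9) (.e (nat_lit 426125) (nat_lit 2) (.e (nat_lit 196661) (nat_lit 12) (.e (nat_lit 57748) (nat_lit 201) (.e (nat_lit 2940) (nat_lit 184) (.e (nat_lit 433920) (nat_lit 15) .nil)))))))) (.g (nat_lit 1) (.e (nat_lit 102125) (nat_lit 0) .nil) .nil))) 
(.lf (nat_lit 477803) (.g (nat_lit 1644) (.e (nat_lit 2003) (nat_lit 138) (.e (nat_lit 671763) (nat_lit 5) (.e (nat_lit 73782) (nat_lit 32) (.e (nat_lit 2854) (nat_lit 184) (.e (nat_lit 426542) (nat_lit 29) (.e (nat_lit 352290) (nat_lit 20) .nil)))))) (.g (nat_lit 1) (.e (nat_lit 102836) (nat_lit 0) .nil) .nil)))) (.nd (nat_lit 9) 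
(.lf (nat_lit 477547) (.g (nat_lit 3417) (.e (nat_lit 1859) (nat_lit 124) (.e (nat_lit 557109) (nat_lit 15) (.e (nat_lit 188452) (nat_lit 23) (.e (nat_lit 204862) (nat_lit 27) (.e (nat_lit 344169) (nat_lit 40) .nil))))) (.g (nat_lit 0) (.e (nat_lit 102413) (nat_lit 0) .nil) .nil))) 
(.lf (nat_lit 478059) (.g (nat_lit 2301) (.e (nat_lit 2346) (nat_lit 151) (.e (nat_lit 778466) (nat_lit 11) (.e (nat_lit 24617) (nat_lit 7) (.e (nat_lit 319533) (nat_lit 16) (.e (nat_lit 286753) (nat_lit 10) .nil))))) (.g (nat_lit 0) (.e (nat_lit 103413) (nat_lit 0) .nil) .nil))))) (.nd (nat_lit 8) (.nd (nat_lit 9) 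
(.lf (nat_lit 477419) (.g (nat_lit 4311) (.e (nat_lit 1859) (nat_lit 124) (.e (nat_lit 557098) (nat_lit 13) (.e (nat_lit 172097) (nat_lit 9) (.e (nat_lit 426125) (nat_lit 2) (.e (nat_lit 196661) (nat_lit 12) (.e (nat_lit 57751) (nat_lit 201) (.e (nat_lit 2856) (nat_lit 184) (.e (nat_lit 426402) (nat_lit 15) .nil)))))))) (.g (nat_lit 1) (.e (nat_lit 102284) (nat_lit 0) .nil) .nil))) 
(.lf (nat_lit 477931) (.g (nat_lit 1827) (.e (nat_lit 2283) (nat_lit 150) (.e (nat_lit 770071) (nat_lit 8) (.e (nat_lit 65583) (nat_lit 7) (.e (nat_lit 319530) (nat_lit 16) (.e (nat_lit 286755) (nat_lit 10) .nil))))) (.g (nat_lit 0) (.e (nat_lit 103239) (nat_lit 0) .nil) .nil)))) (.nd (nat_lit 9) 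
(.lf (nat_lit 477675) (.g (nat_lit 3930) (.e (nat_lit 1860) (nat_lit 124) (.e (nat_lit 557109) (nat_lit 15) (.e (nat_lit 188452) (nat_lit 23) (.e (nat_lit 204884) (nat_lit 33) .nil)))) (.g (nat_lit 0) (.e (nat_lit 102541) (nat_lit 0) .nil) .nil))) 
(.lf (nat_lit 478187) (.g (nat_lit 3994) (.e (nat_lit 2056) (nat_lit 142) (.e (nat_lit 704589) (nat_lit 3) (.e (nat_lit 163976) (nat_lit 30) (.e (nat_lit 573492) (nat_lit 15) (.e (nat_lit 81956) (nat_lit 23) (.e (nat_lit 98356) (nat_lit 26) (.e (nat_lit 426363) (nat_lit 15) .nil))))))) (.g (nat_lit 1) (.e (nat_lit 103964) (nat_lit 0) .nil) .nil)))))))) 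
(.nd (nat_lit 5) (.nd (nat_lit 6) (.nd (nat_lit 7) (.nd (nat_lit 8) (.nd (nat_lit 9) 
(.lf (nat_lit 477211) (.g (nat_lit 1937) (.e (nat_lit 1856) (nat_lit 124) (.e (nat_lit 557098) (nat_lit 13) (.e (nat_lit 172115) (nat_lit 10) (.e (nat_lit 434231) (nat_lit 23) (.e (nat_lit 532490) (nat_lit 0) .nil))))) (.g (nat_lit 0) (.e (nat_lit 102017) (nat_lit 0) .nil) .nil))) 
(.lf (nat_lit 477723) (.g (nat_lit 1468) (.e (nat_lit 1994) (nat_lit 137) (.e (nat_lit 663569) (nat_lit 6) (.e (nat_lit 81939) (nat_lit 20) (.e (nat_lit 2006) (nat_lit 138) (.e (nat_lit 671764) (nat_lit 6) (.e (nat_lit 81931) (nat_lit 20) .nil)))))) (.g (nat_lit 1) (.e (nat_lit 102748) (nat_lit 0) .nil) .nil)))) (.nd (nat_lit 9) 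
(.lf (nat_lit 477467) (.g (nat_lit 3864) (.e (nat_lit 1859) (nat_lit 124) (.e (nat_lit 557098) (nat_lit 13) (.e (nat_lit 172115) (nat_lit 10) (.e (nat_lit 434244) (nat_lit 28) (.e (nat_lit 573450) (nat_lit 9) (.e (nat_lit 375) (nat_lit 32) (.e (nat_lit 426201) (nat_lit 9) (.e (nat_lit 426402) (nat_lit 15) .nil)))))))) (.g (nat_lit 1) (.e (nat_lit 102332) (nat_lit 0) .nil) .nil))) 
(.lf (nat_lit 477979) (.g (nat_lit 2291) (.e (nat_lit 2309) (nat_lit 151) (.e (nat_lit 778465) (nat_lit 11) (.e (nat_lit 24640) (nat_lit 10) (.e (nat_lit 344176) (nat_lit 43) .nil)))) (.g (nat_lit 0) (.e (nat_lit 103318) (nat_lit 0) .nil) .nil))))) (.nd (nat_lit 8) (.nd (nat_lit 9) 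
(.lf (nat_lit 477339) (.g (nat_lit 2753) (.e (nat_lit 1858) (nat_lit 124) (.e (nat_lit 557101) (nat_lit 13) (.e (nat_lit 172115) (nat_lit 10) (.e (nat_lit 434238) (nat_lit 25) (.e (nat_lit 548898) (nat_lit 14) (.e (nat_lit 2989) (nat_lit 186) (.e (nat_lit 450304) (nat_lit 0) .nil))))))) (.g (nat_lit 1) (.e (nat_lit 102173) (nat_lit 0) .nil) .nil))) 
(.lf (nat_lit 477851) (.g (nat_lit 3311) (.e (nat_lit 2270) (nat_lit 149) (.e (nat_lit 761898) (nat_lit 15) (.e (nat_lit 163978) (nat_lit 30) (.e (nat_lit 573487) (nat_lit 14) (.e (nat_lit 73753) (nat_lit 8) (.e (nat_lit 557101) (nat_lit 13) (.e (nat_lit 172065) (nat_lit 3) (.e (nat_lit 204821) (nat_lit 17) .nil)))))))) (.g (nat_lit 1) (.e (nat_lit 103087) (nat_lit 0) .nil) .nil)))) 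
(.nd (nat_lit 9) 
(.lf (nat_lit 477595) (.g (nat_lit 4496) (.e (nat_lit 1860) (nat_lit 124) (.e (nat_lit 557100) (nat_lit 13) (.e (nat_lit 172113) (nat_lit 10) (.e (nat_lit 434248) (nat_lit 28) (.e (nat_lit 573469) (nat_lit 11) (.e (nat_lit 16438) (nat_lit 9) (.e (nat_lit 426354) (nat_lit 15) .nil))))))) (.g (nat_lit 1) (.e (nat_lit 102461) (nat_lit 0) .nil) .nil))) 
(.lf (nat_lit 478107) (.g (nat_lit 690) (.e (nat_lit 2384) (nat_lit 155) (.e (nat_lit 811011) (nat_lit 0) (.e (nat_lit 5780) (nat_lit 317) (.e (nat_lit 180241) (nat_lit 4) (.e (nat_lit 524340) (nat_lit 28) (.e (nat_lit 352285) (nat_lit 20) .nil)))))) (.g (nat_lit 1) (.e (nat_lit 103667) (nat_lit 0) .nil) .nil)))))) (.nd (nat_lit 7) (.nd (nat_lit 8) (.nd (nat_lit 9) 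
(.lf (nat_lit 477275) (.g (nat_lit 3692) (.e (nat_lit 1857) (nat_lit 124) (.e (nat_lit 557105) (nat_lit 14) (.e (nat_lit 180252) (nat_lit 10) (.e (nat_lit 573482) (nat_lit 13) (.e (nat_lit 65637) (nat_lit 15) .nil))))) (.g (nat_lit 0) (.e (nat_lit 102090) (nat_lit 0) .nil) .nil))) 
(.lf (nat_lit 477787) (.g (nat_lit 1454) (.e (nat_lit 1999) (nat_lit 137) (.e (nat_lit 663567) (nat_lit 4) (.e (nat_lit 65628) (nat_lit 14) (.e (nat_lit 401436) (nat_lit 9) (.e (nat_lit 426540) (nat_lit 29) .nil))))) (.g (nat_lit 0) (.e (nat_lit 102819) (nat_lit 0) .nil) .nil)))) (.nd (nat_lit 9) 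
(.lf (nat_lit 477531) (.g (nat_lit 4912) (.e (nat_lit 1859) (nat_lit 124) (.e (nat_lit 557109) (nat_lit 15) (.e (nat_lit 188449) (nat_lit 22) (.e (nat_lit 196618) (nat_lit 9) .nil)))) (.g (nat_lit 0) (.e (nat_lit 102397) (nat_lit 0) .nil) .nil))) 
(.lf (nat_lit 478043) (.g (nat_lit 2677) (.e (nat_lit 2342) (nat_lit 151) (.e (nat_lit 778466) (nat_lit 11) (.e (nat_lit 24617) (nat_lit 7) (.e (nat_lit 319533) (nat_lit 16) (.e (nat_lit 286753) (nat_lit 10) (.e (nat_lit 344160) (nat_lit 37) (.e (nat_lit 647195) (nat_lit 9) (.e (nat_lit 1086) (nat_lit 81) .nil)))))))) (.g (nat_lit 1) (.e (nat_lit 103393) (nat_lit 0) .nil) .nil))))) 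
(.nd (nat_lit 8) (.nd (nat_lit 9) 
(.lf (nat_lit 477403) (.g (nat_lit 3988) (.e (nat_lit 1859) (nat_lit 124) (.e (nat_lit 557087) (nat_lit 11) (.e (nat_lit 24662) (nat_lit 14) (.e (nat_lit 401424) (nat_lit 2) .nil)))) (.g (nat_lit 0) (.e (nat_lit 102264) (nat_lit 0) .nil) .nil))) 
(.lf (nat_lit 477915) (.g (nat_lit 2939) (.e (nat_lit 2276) (nat_lit 150) (.e (nat_lit 770071) (nat_lit 8) (.e (nat_lit 65629) (nat_lit 14) (.e (nat_lit 401454) (nat_lit 12) (.e (nat_lit 475212) (nat_lit 42) .nil))))) (.g (nat_lit 0) (.e (nat_lit 103207) (nat_lit 0) .nil) .nil)))) (.nd (nat_lit 9) 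
(.lf (nat_lit 477659) (.g (nat_lit 2672) (.e (nat_lit 1860) (nat_lit 124) (.e (nat_lit 557101) (nat_lit 13) (.e (nat_lit 172115) (nat_lit 10) (.e (nat_lit 434244) (nat_lit 28) (.e (nat_lit 573458) (nat_lit 9) (.e (nat_lit 7936) (nat_lit 37) (.e (nat_lit 474880) (nat_lit 0) .nil))))))) (.g (nat_lit 1) (.e (nat_lit 102525) (nat_lit 0) .nil) .nil))) 
(.lf (nat_lit 478171) (.g (nat_lit 3050) (.e (nat_lit 2056) (nat_lit 142) (.e (nat_lit 704589) (nat_lit 3) (.e (nat_lit 163975) (nat_lit 30) (.e (nat_lit 573491) (nat_lit 15) (.e (nat_lit 81954) (nat_lit 23) (.e (nat_lit 98356) (nat_lit 26) (.e (nat_lit 426416) (nat_lit 15) .nil))))))) (.g (nat_lit 1) (.e (nat_lit 103947) (nat_lit 0) .nil) .nil))))))) 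
(.nd (nat_lit 6) (.nd (nat_lit 7) (.nd (nat_lit 8) (.nd (nat_lit 9) 
(.lf (nat_lit 477243) (.g (nat_lit 1596) (.e (nat_lit 1856) (nat_lit 124) (.e (nat_lit 557101) (nat_lit 13) (.e (nat_lit 172115) (nat_lit 10) (.e (nat_lit 434231) (nat_lit 23) (.e (nat_lit 532569) (nat_lit 16) .nil))))) (.g (nat_lit 0) (.e (nat_lit 102055) (nat_lit 0) .nil) .nil))) 
(.lf (nat_lit 477755) (.g (nat_lit 742) (.e (nat_lit 1996) (nat_lit 137) (.e (nat_lit 663567) (nat_lit 4) (.e (nat_lit 65630) (nat_lit 14) (.e (nat_lit 401459) (nat_lit 13) .nil)))) (.g (nat_lit 0) (.e (nat_lit 102785) (nat_lit 0) .nil) .nil)))) (.nd (nat_lit 9) 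
(.lf (nat_lit 477499) (.g (nat_lit 2439) (.e (nat_lit 1859) (nat_lit 124) (.e (nat_lit 557107) (nat_lit 15) (.e (nat_lit 188439) (nat_lit 20) (.e (nat_lit 3272) (nat_lit 199) (.e (nat_lit 548898) (nat_lit 14) (.e (nat_lit 2999) (nat_lit 186) (.e (nat_lit 450304) (nat_lit 0) .nil))))))) (.g (nat_lit 1) (.e (nat_lit 102365) (nat_lit 0) .nil) .nil))) 
(.lf (nat_lit 478011) (.g (nat_lit 3827) (.e (nat_lit 2350) (nat_lit 151) (.e (nat_lit 778464) (nat_lit 11) (.e (nat_lit 24617) (nat_lit 7) (.e (nat_lit 319534) (nat_lit 16) (.e (nat_lit 286756) (nat_lit 10) (.e (nat_lit 344160) (nat_lit 37) (.e (nat_lit 647195) (nat_lit 9) (.e (nat_lit 1008) (nat_lit 81) .nil)))))))) (.g (nat_lit 1) (.e (nat_lit 103356) (nat_lit 0) .nil) .nil))))) 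
(.nd (nat_lit 8) (.nd (nat_lit 9) 
(.lf (nat_lit 477371) (.g (nat_lit 1757) (.e (nat_lit 1858) (nat_lit 124) (.e (nat_lit 557105) (nat_lit 14) (.e (nat_lit 180252) (nat_lit 10) (.e (nat_lit 573475) (nat_lit 12) .nil)))) (.g (nat_lit 0) (.e (nat_lit 102220) (nat_lit 0) .nil) .nil))) 
(.lf (nat_lit 477883) (.g (nat_lit 4642) (.e (nat_lit 2270) (nat_lit 149) (.e (nat_lit 761899) (nat_lit 15) (.e (nat_lit 163977) (nat_lit 30) (.e (nat_lit 573489) (nat_lit 14) (.e (nat_lit 73755) (nat_lit 8) (.e (nat_lit 557097) (nat_lit 13) (.e (nat_lit 172067) (nat_lit 3) (.e (nat_lit 204821) (nat_lit 17) .nil)))))))) (.g (nat_lit 1) (.e (nat_lit 103119) (nat_lit 0) .nil) .nil)))) 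
(.nd (nat_lit 9) 
(.lf (nat_lit 477627) (.g (nat_lit 3296) (.e (nat_lit 1860) (nat_lit 124) (.e (nat_lit 557101) (nat_lit 13) (.e (nat_lit 172115) (nat_lit 10) (.e (nat_lit 434238) (nat_lit 25) (.e (nat_lit 548898) (nat_lit 14) (.e (nat_lit 2988) (nat_lit 186) (.e (nat_lit 450304) (nat_lit 0) .nil))))))) (.g (nat_lit 1) (.e (nat_lit 102493) (nat_lit 0) .nil) .nil))) 
(.lf (nat_lit 478139) (.g (nat_lit 3000) (.e (nat_lit 2391) (nat_lit 156) (.e (nat_lit 819219) (nat_lit 4) (.e (nat_lit 172081) (nat_lit 7) (.e (nat_lit 409617) (nat_lit 10) (.e (nat_lit 632) (nat_lit 50) (.e (nat_lit 573491) (nat_lit 15) (.e (nat_lit 81943) (nat_lit 20) .nil))))))) (.g (nat_lit 1) (.e (nat_lit 103821) (nat_lit 0) .nil) .nil)))))) 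
(.nd (nat_lit 7) (.nd (nat_lit 8) (.nd (nat_lit 9) 
(.lf (nat_lit 477307) (.g (nat_lit 2033) (.e (nat_lit 1858) (nat_lit 124) (.e (nat_lit 557101) (nat_lit 13) (.e (nat_lit 172097) (nat_lit 9) (.e (nat_lit 426140) (nat_lit 3) (.e (nat_lit 204821) (nat_lit 17) (.e (nat_lit 6674) (nat_lit 357) (.e (nat_lit 2939) (nat_lit 184) (.e (nat_lit 433920) (nat_lit 15) .nil)))))))) (.g (nat_lit 1) (.e (nat_lit 102141) (nat_lit 0) .nil) .nil))) 
(.lf (nat_lit 477819) (.g (nat_lit 2690) (.e (nat_lit 2006) (nat_lit 138) (.e (nat_lit 671762) (nat_lit 4) (.e (nat_lit 65622) (nat_lit 12) (.e (nat_lit 385105) (nat_lit 50) (.e (nat_lit 786480) (nat_lit 29) (.e (nat_lit 352302) (nat_lit 20) .nil)))))) (.g (nat_lit 1) (.e (nat_lit 102857) (nat_lit 0) .nil) .nil)))) (.nd (nat_lit 9) 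
(.lf (nat_lit 477563) (.g (nat_lit 4311) (.e (nat_lit 1860) (nat_lit 124) (.e (nat_lit 557100) (nat_lit 13) (.e (nat_lit 172113) (nat_lit 10) (.e (nat_lit 434245) (nat_lit 28) (.e (nat_lit 573469) (nat_lit 11) (.e (nat_lit 16438) (nat_lit 9) (.e (nat_lit 426354) (nat_lit 15) .nil))))))) (.g (nat_lit 1) (.e (nat_lit 102429) (nat_lit 0) .nil) .nil))) 
(.lf (nat_lit 478075) (.g (nat_lit 2855) (.e (nat_lit 2347) (nat_lit 151) (.e (nat_lit 778466) (nat_lit 11) (.e (nat_lit 24617) (nat_lit 7) (.e (nat_lit 319533) (nat_lit 16) (.e (nat_lit 286753) (nat_lit 10) (.e (nat_lit 344160) (nat_lit 37) (.e (nat_lit 647190) (nat_lit 9) (.e (nat_lit 987) (nat_lit 81) .nil)))))))) (.g (nat_lit 1) (.e (nat_lit 103445) (nat_lit 0) .nil) .nil))))) 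
(.nd (nat_lit 8) (.nd (nat_lit 9) 
(.lf (nat_lit 477435) (.g (nat_lit 2062) (.e (nat_lit 1859) (nat_lit 124) (.e (nat_lit 557098) (nat_lit 13) (.e (nat_lit 172115) (nat_lit 10) (.e (nat_lit 434231) (nat_lit 23) (.e (nat_lit 532490) (nat_lit 0) (.e (nat_lit 6674) (nat_lit 357) (.e (nat_lit 2936) (nat_lit 184) (.e (nat_lit 433920) (nat_lit 15) .nil)))))))) (.g (nat_lit 1) (.e (nat_lit 102300) (nat_lit 0) .nil) .nil))) 
(.lf (nat_lit 477947) (.g (nat_lit 1783) (.e (nat_lit 2283) (nat_lit 150) (.e (nat_lit 770072) (nat_lit 8) (.e (nat_lit 65586) (nat_lit 7) (.e (nat_lit 319531) (nat_lit 16) (.e (nat_lit 286748) (nat_lit 9) .nil))))) (.g (nat_lit 0) (.e (nat_lit 103268) (nat_lit 0) .nil) .nil)))) (.nd (nat_lit 9) 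
(.lf (nat_lit 477691) (.g (nat_lit 1101) (.e (nat_lit 1963) (nat_lit 134) (.e (nat_lit 639001) (nat_lit 10) (.e (nat_lit 188441) (nat_lit 20) (.e (nat_lit 3391) (nat_lit 210) (.e (nat_lit 639023) (nat_lit 18) (.e (nat_lit 81943) (nat_lit 20) .nil)))))) (.g (nat_lit 1) (.e (nat_lit 102697) (nat_lit 0) .nil) .nil))) 
(.lf (nat_lit 478203) (.g (nat_lit 4629) (.e (nat_lit 2056) (nat_lit 142) (.e (nat_lit 704589) (nat_lit 3) (.e (nat_lit 163979) (nat_lit 30) (.e (nat_lit 573493) (nat_lit 15) (.e (nat_lit 81956) (nat_lit 23) (.e (nat_lit 98356) (nat_lit 26) (.e (nat_lit 426360) (nat_lit 15) .nil))))))) (.g (nat_lit 1) (.e (nat_lit 103980) (nat_lit 0) .nil) .nil)))))))))) 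
(.nd (nat_lit 3) (.nd (nat_lit 4) (.nd (nat_lit 5) (.nd (nat_lit 6) (.nd (nat_lit 7) 
(.nd (nat_lit 8) (.nd (nat_lit 9) 
(.lf (nat_lit 477191) (.g (nat_lit 4295) (.e (nat_lit 1855) (nat_lit 124) (.e (nat_lit 557109) (nat_lit 15) (.e (nat_lit 188450) (nat_lit 23) (.e (nat_lit 204880) (nat_lit 32) (.e (nat_lit 385105) (nat_lit 50) .nil))))) (.g (nat_lit 0) (.e (nat_lit 101947) (nat_lit 0) .nil) .nil))) 
(.lf (nat_lit 477703) (.g (nat_lit 2119) (.e (nat_lit 1994) (nat_lit 137) (.e (nat_lit 663567) (nat_lit 4) (.e (nat_lit 65617) (nat_lit 10) (.e (nat_lit 344169) (nat_lit 40) (.e (nat_lit 671764) (nat_lit 6) (.e (nat_lit 81934) (nat_lit 20) .nil)))))) (.g (nat_lit 1) (.e (nat_lit 102728) (nat_lit 0) .nil) .nil)))) (.nd (nat_lit 9) 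
(.lf (nat_lit 477447) (.g (nat_lit 2289) (.e (nat_lit 1859) (nat_lit 124) (.e (nat_lit 557098) (nat_lit 13) (.e (nat_lit 172115) (nat_lit 10) (.e (nat_lit 434238) (nat_lit 25) (.e (nat_lit 548896) (nat_lit 14) (.e (nat_lit 3005) (nat_lit 186) (.e (nat_lit 450304) (nat_lit 0) .nil))))))) (.g (nat_lit 1) (.e (nat_lit 102312) (nat_lit 0) .nil) .nil))) 
(.lf (nat_lit 477959) (.g (nat_lit 2880) (.e (nat_lit 2304) (nat_lit 151) (.e (nat_lit 778466) (nat_lit 11) (.e (nat_lit 24617) (nat_lit 7) (.e (nat_lit 319534) (nat_lit 16) (.e (nat_lit 286756) (nat_lit 10) .nil))))) (.g (nat_lit 0) (.e (nat_lit 103293) (nat_lit 0) .nil) .nil))))) (.nd (nat_lit 8) (.nd (nat_lit 9) 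
(.lf (nat_lit 477319) (.g (nat_lit 2900) (.e (nat_lit 1858) (nat_lit 124) (.e (nat_lit 557101) (nat_lit 13) (.e (nat_lit 172115) (nat_lit 10) (.e (nat_lit 434231) (nat_lit 23) (.e (nat_lit 532481) (nat_lit 0) (.e (nat_lit 6684) (nat_lit 357) (.e (nat_lit 2857) (nat_lit 184) (.e (nat_lit 426402) (nat_lit 15) .nil)))))))) (.g (nat_lit 1) (.e (nat_lit 102153) (nat_lit 0) .nil) .nil))) 
(.lf (nat_lit 477831) (.g (nat_lit 143) (.e (nat_lit 2265) (nat_lit 149) (.e (nat_lit 761910) (nat_lit 17) (.e (nat_lit 180252) (nat_lit 10) .nil))) (.g (nat_lit 0) (.e (nat_lit 102991) (nat_lit 0) .nil) .nil)))) (.nd (nat_lit 9) 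
(.lf (nat_lit 477575) (.g (nat_lit 4746) (.e (nat_lit 1860) (nat_lit 124) (.e (nat_lit 557100) (nat_lit 13) (.e (nat_lit 172113) (nat_lit 10) (.e (nat_lit 434245) (nat_lit 28) (.e (nat_lit 573471) (nat_lit 11) (.e (nat_lit 16433) (nat_lit 9) (.e (nat_lit 426360) (nat_lit 15) .nil))))))) (.g (nat_lit 1) (.e (nat_lit 102441) (nat_lit 0) .nil) .nil))) 
(.lf (nat_lit 478087) (.g (nat_lit 3337) (.e (nat_lit 2349) (nat_lit 151) (.e (nat_lit 778466) (nat_lit 11) (.e (nat_lit 24617) (nat_lit 7) (.e (nat_lit 319533) (nat_lit 16) (.e (nat_lit 286753) (nat_lit 10) .nil))))) (.g (nat_lit 0) (.e (nat_lit 103458) (nat_lit 0) .nil) .nil)))))) (.nd (nat_lit 7) (.nd (nat_lit 8) (.nd (nat_lit 9) 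
(.lf (nat_lit 477255) (.g (nat_lit 2784) (.e (nat_lit 1856) (nat_lit 124) (.e (nat_lit 557107) (nat_lit 15) (.e (nat_lit 188440) (nat_lit 20) (.e (nat_lit 3307) (nat_lit 202) (.e (nat_lit 573464) (nat_lit 9) (.e (nat_lit 461) (nat_lit 34) (.e (nat_lit 442379) (nat_lit 0) .nil))))))) (.g (nat_lit 1) (.e (nat_lit 102070) (nat_lit 0) .nil) .nil))) 
(.lf (nat_lit 477767) (.g (nat_lit 2428) (.e (nat_lit 1998) (nat_lit 137) (.e (nat_lit 663565) (nat_lit 3) (.e (nat_lit 57480) (nat_lit 28) (.e (nat_lit 557097) (nat_lit 13) (.e (nat_lit 172097) (nat_lit 9) .nil))))) (.g (nat_lit 0) (.e (nat_lit 102798) (nat_lit 0) .nil) .nil)))) (.nd (nat_lit 9) 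
(.lf (nat_lit 477511) (.g (nat_lit 2332) (.e (nat_lit 1859) (nat_lit 124) (.e (nat_lit 557107) (nat_lit 15) (.e (nat_lit 188441) (nat_lit 20) (.e (nat_lit 3272) (nat_lit 199) (.e (nat_lit 548898) (nat_lit 14) (.e (nat_lit 2988) (nat_lit 186) (.e (nat_lit 450304) (nat_lit 0) .nil))))))) (.g (nat_lit 1) (.e (nat_lit 102377) (nat_lit 0) .nil) .nil))) 
(.lf (nat_lit 478023) (.g (nat_lit 3666) (.e (nat_lit 2332) (nat_lit 151) (.e (nat_lit 778466) (nat_lit 11) (.e (nat_lit 24617) (nat_lit 7) (.e (nat_lit 319533) (nat_lit 16) (.e (nat_lit 286753) (nat_lit 10) (.e (nat_lit 344160) (nat_lit 37) (.e (nat_lit 647195) (nat_lit 9) (.e (nat_lit 7936) (nat_lit 81) .nil)))))))) (.g (nat_lit 1) (.e (nat_lit 103373) (nat_lit 0) .nil) .nil))))) 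
(.nd (nat_lit 8) (.nd (nat_lit 9) 
(.lf (nat_lit 477383) (.g (nat_lit 3008) (.e (nat_lit 1858) (nat_lit 124) (.e (nat_lit 557105) (nat_lit 14) (.e (nat_lit 180252) (nat_lit 10) (.e (nat_lit 573482) (nat_lit 13) (.e (nat_lit 65637) (nat_lit 15) (.e (nat_lit 3253) (nat_lit 197) (.e (nat_lit 532504) (nat_lit 1) (.e (nat_lit 57851) (nat_lit 252) (.e (nat_lit 57355) (nat_lit 0) .nil))))))))) (.g (nat_lit 1) (.e (nat_lit 102236) (nat_lit 0) .nil) .nil))) 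
(.lf (nat_lit 477895) (.g (nat_lit 3440) (.e (nat_lit 2270) (nat_lit 149) (.e (nat_lit 761906) (nat_lit 16) (.e (nat_lit 172097) (nat_lit 9) (.e (nat_lit 426160) (nat_lit 6) (.e (nat_lit 253990) (nat_lit 11) (.e (nat_lit 16473) (nat_lit 14) (.e (nat_lit 491525) (nat_lit 0) .nil))))))) (.g (nat_lit 1) (.e (nat_lit 103150) (nat_lit 0) .nil) .nil)))) (.nd (nat_lit 9) 
(.lf (nat_lit 477639) (.g (nat_lit 3339) (.e (nat_lit 1860) (nat_lit 124) (.e (nat_lit 557101) (nat_lit 13) (.e (nat_lit 172115) (nat_lit 10) (.e (nat_lit 434244) (nat_lit 28) (.e (nat_lit 573450) (nat_lit 9) (.e (nat_lit 373) (nat_lit 32) (.e (nat_lit 426195) (nat_lit 9) (.e (nat_lit 426354) (nat_lit 15) .nil)))))))) (.g (nat_lit 1) (.e (nat_lit 102505) (nat_lit 0) .nil) .nil))) 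
(.lf (nat_lit 478151) (.g (nat_lit 2254) (.e (nat_lit 2030) (nat_lit 140) (.e (nat_lit 688186) (nat_lit 18) (.e (nat_lit 81950) (nat_lit 21) (.e (nat_lit 57830) (nat_lit 250) (.e (nat_lit 7936) (nat_lit 166) (.e (nat_lit 196352) (nat_lit 0) .nil)))))) (.g (nat_lit 1) (.e (nat_lit 103851) (nat_lit 0) .nil) .nil))))))) (.nd (nat_lit 6) (.nd (nat_lit 7) (.nd (nat_lit 8) (.nd (nat_lit 9) 
(.lf (nat_lit 477223) (.g (nat_lit 2738) (.e (nat_lit 1856) (nat_lit 124) (.e (nat_lit 557100) (nat_lit 13) (.e (nat_lit 172106) (nat_lit 10) (.e (nat_lit 434244) (nat_lit 28) (.e (nat_lit 573449) (nat_lit 9) (.e (nat_lit 457) (nat_lit 34) (.e (nat_lit 442374) (nat_lit 0) .nil))))))) (.g (nat_lit 1) (.e (nat_lit 102034) (nat_lit 0) .nil) .nil))) 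
(.lf (nat_lit 477735) (.g (nat_lit 1801) (.e (nat_lit 1996) (nat_lit 137) (.e (nat_lit 663567) (nat_lit 4) (.e (nat_lit 65598) (nat_lit 9) (.e (nat_lit 335907) (nat_lit 0) (.e (nat_lit 1994) (nat_lit 137) .nil))))) (.g (nat_lit 0) (.e (nat_lit 102765) (nat_lit 0) .nil) .nil)))) (.nd (nat_lit 9) 
(.lf (nat_lit 477479) (.g (nat_lit 2860) (.e (nat_lit 1859) (nat_lit 124) (.e (nat_lit 557098) (nat_lit 13) (.e (nat_lit 172115) (nat_lit 10) (.e (nat_lit 434244) (nat_lit 28) (.e (nat_lit 573458) (nat_lit 9) (.e (nat_lit 426) (nat_lit 32) (.e (nat_lit 426199) (nat_lit 9) (.e (nat_lit 426402) (nat_lit 15) .nil)))))))) (.g (nat_lit 1) (.e (nat_lit 102344) (nat_lit 0) .nil) .nil))) 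
(.lf (nat_lit 477991) (.g (nat_lit 3696) (.e (nat_lit 2310) (nat_lit 151) (.e (nat_lit 778466) (nat_lit 11) (.e (nat_lit 24617) (nat_lit 7) (.e (nat_lit 319534) (nat_lit 16) (.e (nat_lit 286756) (nat_lit 10) (.e (nat_lit 344160) (nat_lit 37) (.e (nat_lit 647196) (nat_lit 9) (.e (nat_lit 990) (nat_lit 81) .nil)))))))) (.g (nat_lit 1) (.e (nat_lit 103334) (nat_lit 0) .nil) .nil))))) 
(.nd (nat_lit 8) (.nd (nat_lit 9) 
(.lf (nat_lit 477351) (.g (nat_lit 3882) (.e (nat_lit 1858) (nat_lit 124) (.e (nat_lit 557101) (nat_lit 13) (.e (nat_lit 172115) (nat_lit 10) (.e (nat_lit 434244) (nat_lit 28) (.e (nat_lit 573450) (nat_lit 9) (.e (nat_lit 375) (nat_lit 32) (.e (nat_lit 426201) (nat_lit 9) (.e (nat_lit 426402) (nat_lit 15) .nil)))))))) (.g (nat_lit 1) (.e (nat_lit 102185) (nat_lit 0) .nil) .nil))) 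
(.lf (nat_lit 477863) (.g (nat_lit 4265) (.e (nat_lit 2270) (nat_lit 149) (.e (nat_lit 761898) (nat_lit 15) (.e (nat_lit 163978) (nat_lit 30) (.e (nat_lit 573489) (nat_lit 14) (.e (nat_lit 73755) (nat_lit 8) (.e (nat_lit 557098) (nat_lit 13) (.e (nat_lit 172066) (nat_lit 3) (.e (nat_lit 204821) (nat_lit 17) .nil)))))))) (.g (nat_lit 1) (.e (nat_lit 103099) (nat_lit 0) .nil) .nil)))) 
(.nd (nat_lit 9) 
(.lf (nat_lit 477607) (.g (nat_lit 2468) (.e (nat_lit 1860) (nat_lit 124) (.e (nat_lit 557101) (nat_lit 13) (.e (nat_lit 172097) (nat_lit 9) (.e (nat_lit 426125) (nat_lit 2) (.e (nat_lit 196661) (nat_lit 12) (.e (nat_lit 57748) (nat_lit 201) (.e (nat_lit 2940) (nat_lit 184) (.e (nat_lit 433920) (nat_lit 15) .nil)))))))) (.g (nat_lit 1) (.e (nat_lit 102473) (nat_lit 0) .nil) .nil))) 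
(.lf (nat_lit 478119) (.g (nat_lit 1937) (.e (nat_lit 2390) (nat_lit 156) (.e (nat_lit 819204) (nat_lit 0) (.e (nat_lit 3015) (nat_lit 187) (.e (nat_lit 450584) (nat_lit 9) (.e (nat_lit 573184) (nat_lit 6) (.e (nat_lit 81938) (nat_lit 20) .nil)))))) (.g (nat_lit 1) (.e (nat_lit 103711) (nat_lit 0) .nil) .nil)))))) (.nd (nat_lit 7) (.nd (nat_lit 8) (.nd (nat_lit 9) 
(.lf (nat_lit 477287) (.g (nat_lit 2710) (.e (nat_lit 1858) (nat_lit 124) (.e (nat_lit 557100) (nat_lit 13) (.e (nat_lit 172106) (nat_lit 10) (.e (nat_lit 434231) (nat_lit 23) (.e (nat_lit 532483) (nat_lit 0) (.e (nat_lit 6684) (nat_lit 357) (.e (nat_lit 2857) (nat_lit 184) (.e (nat_lit 426364) (nat_lit 15) .nil)))))))) (.g (nat_lit 1) (.e (nat_lit 102121) (nat_lit 0) .nil) .nil))) 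
(.lf (nat_lit 477799) (.g (nat_lit 2006) (.e (nat_lit 2003) (nat_lit 138) (.e (nat_lit 671759) (nat_lit 3) (.e (nat_lit 57480) (nat_lit 28) (.e (nat_lit 557107) (nat_lit 15) (.e (nat_lit 188450) (nat_lit 23) .nil))))) (.g (nat_lit 0) (.e (nat_lit 102832) (nat_lit 0) .nil) .nil)))) (.nd (nat_lit 9) 
(.lf (nat_lit 477543) (.g (nat_lit 4642) (.e (nat_lit 1859) (nat_lit 124) (.e (nat_lit 557109) (nat_lit 15) (.e (nat_lit 188450) (nat_lit 23) (.e (nat_lit 204880) (nat_lit 32) (.e (nat_lit 385104) (nat_lit 50) .nil))))) (.g (nat_lit 0) (.e (nat_lit 102409) (nat_lit 0) .nil) .nil))) 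
(.lf (nat_lit 478055) (.g (nat_lit 3636) (.e (nat_lit 2343) (nat_lit 151) (.e (nat_lit 778466) (nat_lit 11) (.e (nat_lit 24617) (nat_lit 7) (.e (nat_lit 319534) (nat_lit 16) (.e (nat_lit 286756) (nat_lit 10) (.e (nat_lit 344160) (nat_lit 37) (.e (nat_lit 647195) (nat_lit 9) (.e (nat_lit 982) (nat_lit 81) .nil)))))))) (.g (nat_lit 1) (.e (nat_lit 103407) (nat_lit 0) .nil) .nil))))) 
(.nd (nat_lit 8) (.nd (nat_lit 9) 
(.lf (nat_lit 477415) (.g (nat_lit 5027) (.e (nat_lit 1859) (nat_lit 124) (.e (nat_lit 557098) (nat_lit 13) (.e (nat_lit 172097) (nat_lit 9) (.e (nat_lit 426125) (nat_lit 2) (.e (nat_lit 196661) (nat_lit 12) (.e (nat_lit 57750) (nat_lit 201) (.e (nat_lit 2856) (nat_lit 184) (.e (nat_lit 426402) (nat_lit 15) .nil)))))))) (.g (nat_lit 1) (.e (nat_lit 102280) (nat_lit 0) .nil) .nil))) 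
(.lf (nat_lit 477927) (.g (nat_lit 613) (.e (nat_lit 2281) (nat_lit 150) (.e (nat_lit 770072) (nat_lit 8) (.e (nat_lit 65625) (nat_lit 13) .nil))) (.g (nat_lit 0) (.e (nat_lit 103230) (nat_lit 0) .nil) .nil)))) (.nd (nat_lit 9) 
(.lf (nat_lit 477671) (.g (nat_lit 3659) (.e (nat_lit 1860) (nat_lit 124) (.e (nat_lit 557108) (nat_lit 15) (.e (nat_lit 188452) (nat_lit 23) (.e (nat_lit 204846) (nat_lit 24) .nil)))) (.g (nat_lit 0) (.e (nat_lit 102537) (nat_lit 0) .nil) .nil))) 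
(.lf (nat_lit 478183) (.g (nat_lit 3197) (.e (nat_lit 2056) (nat_lit 142) (.e (nat_lit 704589) (nat_lit 3) (.e (nat_lit 163976) (nat_lit 30) (.e (nat_lit 573491) (nat_lit 15) (.e (nat_lit 81954) (nat_lit 23) (.e (nat_lit 98356) (nat_lit 26) (.e (nat_lit 426363) (nat_lit 15) .nil))))))) (.g (nat_lit 1) (.e (nat_lit 103960) (nat_lit 0) .nil) .nil)))))))) 
(.nd (nat_lit 5) (.nd (nat_lit 6) (.nd (nat_lit 7) (.nd (nat_lit 8) (.nd (nat_lit 9) 
(.lf (nat_lit 477207) (.g (nat_lit 2043) (.e (nat_lit 1856) (nat_lit 124) (.e (nat_lit 557098) (nat_lit 13) (.e (nat_lit 172097) (nat_lit 9) (.e (nat_lit 426140) (nat_lit 3) (.e (nat_lit 204821) (nat_lit 17) .nil))))) (.g (nat_lit 0) (.e (nat_lit 102013) (nat_lit 0) .nil) .nil))) 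
(.lf (nat_lit 477719) (.g (nat_lit 1793) (.e (nat_lit 1994) (nat_lit 137) (.e (nat_lit 663569) (nat_lit 6) (.e (nat_lit 81922) (nat_lit 0) (.e (nat_lit 3631) (nat_lit 227) (.e (nat_lit 778326) (nat_lit 6) (.e (nat_lit 81931) (nat_lit 20) .nil)))))) (.g (nat_lit 1) (.e (nat_lit 102744) (nat_lit 0) .nil) .nil)))) (.nd (nat_lit 9) 
(.lf (nat_lit 477463) (.g (nat_lit 3452) (.e (nat_lit 1859) (nat_lit 124) (.e (nat_lit 557098) (nat_lit 13) (.e (nat_lit 172115) (nat_lit 10) (.e (nat_lit 434244) (nat_lit 28) (.e (nat_lit 573449) (nat_lit 9) (.e (nat_lit 430) (nat_lit 32) (.e (nat_lit 426198) (nat_lit 9) (.e (nat_lit 426402) (nat_lit 15) .nil)))))))) (.g (nat_lit 1) (.e (nat_lit 102328) (nat_lit 0) .nil) .nil))) 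
(.lf (nat_lit 477975) (.g (nat_lit 2381) (.e (nat_lit 2308) (nat_lit 151) (.e (nat_lit 778466) (nat_lit 11) (.e (nat_lit 24617) (nat_lit 7) (.e (nat_lit 319534) (nat_lit 16) (.e (nat_lit 286756) (nat_lit 10) .nil))))) (.g (nat_lit 0) (.e (nat_lit 103313) (nat_lit 0) .nil) .nil))))) (.nd (nat_lit 8) (.nd (nat_lit 9) 
(.lf (nat_lit 477335) (.g (nat_lit 2929) (.e (nat_lit 1858) (nat_lit 124) (.e (nat_lit 557101) (nat_lit 13) (.e (nat_lit 172115) (nat_lit 10) (.e (nat_lit 434238) (nat_lit 25) (.e (nat_lit 548897) (nat_lit 14) (.e (nat_lit 2999) (nat_lit 186) (.e (nat_lit 450304) (nat_lit 0) .nil))))))) (.g (nat_lit 1) (.e (nat_lit 102169) (nat_lit 0) .nil) .nil))) 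
(.lf (nat_lit 477847) (.g (nat_lit 3795) (.e (nat_lit 2270) (nat_lit 149) (.e (nat_lit 761898) (nat_lit 15) (.e (nat_lit 163978) (nat_lit 30) (.e (nat_lit 573487) (nat_lit 14) (.e (nat_lit 73753) (nat_lit 8) (.e (nat_lit 557098) (nat_lit 13) (.e (nat_lit 172065) (nat_lit 3) (.e (nat_lit 204821) (nat_lit 17) .nil)))))))) (.g (nat_lit 1) (.e (nat_lit 103083) (nat_lit 0) .nil) .nil)))) 
(.nd (nat_lit 9) 
(.lf (nat_lit 477591) (.g (nat_lit 2909) (.e (nat_lit 1860) (nat_lit 124) (.e (nat_lit 557100) (nat_lit 13) (.e (nat_lit 172113) (nat_lit 10) (.e (nat_lit 434248) (nat_lit 28) (.e (nat_lit 573469) (nat_lit 11) (.e (nat_lit 16433) (nat_lit 9) (.e (nat_lit 426361) (nat_lit 15) .nil))))))) (.g (nat_lit 1) (.e (nat_lit 102457) (nat_lit 0) .nil) .nil))) 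
(.lf (nat_lit 478103) (.g (nat_lit 729) (.e (nat_lit 2384) (nat_lit 155) (.e (nat_lit 811011) (nat_lit 0) (.e (nat_lit 5777) (nat_lit 317) (.e (nat_lit 180241) (nat_lit 4) (.e (nat_lit 524340) (nat_lit 28) (.e (nat_lit 352285) (nat_lit 20) .nil)))))) (.g (nat_lit 1) (.e (nat_lit 103661) (nat_lit 0) .nil) .nil)))))) (.nd (nat_lit 7) (.nd (nat_lit 8) (.nd (nat_lit 9) 
(.lf (nat_lit 477271) (.g (nat_lit 2526) (.e (nat_lit 1857) (nat_lit 124) (.e (nat_lit 557098) (nat_lit 13) (.e (nat_lit 172097) (nat_lit 9) (.e (nat_lit 426125) (nat_lit 2) (.e (nat_lit 196666) (nat_lit 13) .nil))))) (.g (nat_lit 0) (.e (nat_lit 102086) (nat_lit 0) .nil) .nil))) 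
(.lf (nat_lit 477783) (.g (nat_lit 2345) (.e (nat_lit 1999) (nat_lit 137) (.e (nat_lit 663567) (nat_lit 4) (.e (nat_lit 65619) (nat_lit 10) (.e (nat_lit 344169) (nat_lit 40) (.e (nat_lit 671764) (nat_lit 6) (.e (nat_lit 81935) (nat_lit 20) .nil)))))) (.g (nat_lit 1) (.e (nat_lit 102815) (nat_lit 0) .nil) .nil)))) (.nd (nat_lit 9) 
(.lf (nat_lit 477527) (.g (nat_lit 3438) (.e (nat_lit 1859) (nat_lit 124) (.e (nat_lit 557109) (nat_lit 15) (.e (nat_lit 188447) (nat_lit 22) (.e (nat_lit 196661) (nat_lit 12) (.e (nat_lit 57750) (nat_lit 201) (.e (nat_lit 2857) (nat_lit 184) (.e (nat_lit 426402) (nat_lit 15) .nil))))))) (.g (nat_lit 1) (.e (nat_lit 102393) (nat_lit 0) .nil) .nil))) 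
(.lf (nat_lit 478039) (.g (nat_lit 2721) (.e (nat_lit 2342) (nat_lit 151) (.e (nat_lit 778466) (nat_lit 11) (.e (nat_lit 24617) (nat_lit 7) (.e (nat_lit 319533) (nat_lit 16) (.e (nat_lit 286753) (nat_lit 10) (.e (nat_lit 344160) (nat_lit 37) (.e (nat_lit 647190) (nat_lit 9) (.e (nat_lit 1038) (nat_lit 81) .nil)))))))) (.g (nat_lit 1) (.e (nat_lit 103389) (nat_lit 0) .nil) .nil))))) 
(.nd (nat_lit 8) (.nd (nat_lit 9) 
(.lf (nat_lit 477399) (.g (nat_lit 2916) (.e (nat_lit 1859) (nat_lit 124) (.e (nat_lit 557087) (nat_lit 11) (.e (nat_lit 24617) (nat_lit 7) (.e (nat_lit 319504) (nat_lit 10) (.e (nat_lit 7936) (nat_lit 45) .nil))))) (.g (nat_lit 0) (.e (nat_lit 102257) (nat_lit 0) .nil) .nil))) 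
(.lf (nat_lit 477911) (.g (nat_lit 2226) (.e (nat_lit 7936) (nat_lit 149) (.e (nat_lit 761898) (nat_lit 15) (.e (nat_lit 163979) (nat_lit 30) (.e (nat_lit 573489) (nat_lit 14) (.e (nat_lit 73753) (nat_lit 8) .nil))))) (.g (nat_lit 0) (.e (nat_lit 103199) (nat_lit 0) .nil) .nil)))) (.nd (nat_lit 9) 
(.lf (nat_lit 477655) (.g (nat_lit 2893) (.e (nat_lit 1860) (nat_lit 124) (.e (nat_lit 557101) (nat_lit 13) (.e (nat_lit 172115) (nat_lit 10) (.e (nat_lit 434244) (nat_lit 28) (.e (nat_lit 573458) (nat_lit 9) (.e (nat_lit 426) (nat_lit 32) (.e (nat_lit 426189) (nat_lit 9) (.e (nat_lit 426354) (nat_lit 15) .nil)))))))) (.g (nat_lit 1) (.e (nat_lit 102521) (nat_lit 0) .nil) .nil))) 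
(.lf (nat_lit 478167) (.g (nat_lit 3696) (.e (nat_lit 2056) (nat_lit 142) (.e (nat_lit 704589) (nat_lit 3) (.e (nat_lit 163975) (nat_lit 30) (.e (nat_lit 573491) (nat_lit 15) (.e (nat_lit 81951) (nat_lit 22) (.e (nat_lit 90170) (nat_lit 13) (.e (nat_lit 172138) (nat_lit 15) .nil))))))) (.g (nat_lit 1) (.e (nat_lit 103943) (nat_lit 0) .nil) .nil))))))) 
(.nd (nat_lit 6) (.nd (nat_lit 7) (.nd (nat_lit 8) (.nd (nat_lit 9) 
(.lf (nat_lit 477239) (.g (nat_lit 1601) (.e (nat_lit 1856) (nat_lit 124) (.e (nat_lit 557101) (nat_lit 13) (.e (nat_lit 172094) (nat_lit 9) (.e (nat_lit 426125) (nat_lit 2) (.e (nat_lit 204544) (nat_lit 18) .nil))))) (.g (nat_lit 0) (.e (nat_lit 102051) (nat_lit 0) .nil) .nil))) 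
(.lf (nat_lit 477751) (.g (nat_lit 2642) (.e (nat_lit 1996) (nat_lit 137) (.e (nat_lit 663567) (nat_lit 4) (.e (nat_lit 65630) (nat_lit 14) (.e (nat_lit 401437) (nat_lit 9) (.e (nat_lit 426480) (nat_lit 27) .nil))))) (.g (nat_lit 0) (.e (nat_lit 102781) (nat_lit 0) .nil) .nil)))) (.nd (nat_lit 9) 
(.lf (nat_lit 477495) (.g (nat_lit 1892) (.e (nat_lit 1859) (nat_lit 124) (.e (nat_lit 557107) (nat_lit 15) (.e (nat_lit 188439) (nat_lit 20) (.e (nat_lit 3272) (nat_lit 199) (.e (nat_lit 548897) (nat_lit 14) (.e (nat_lit 2999) (nat_lit 186) (.e (nat_lit 450304) (nat_lit 0) .nil))))))) (.g (nat_lit 1) (.e (nat_lit 102361) (nat_lit 0) .nil) .nil))) 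
(.lf (nat_lit 478007) (.g (nat_lit 1332) (.e (nat_lit 2322) (nat_lit 151) (.e (nat_lit 778462) (nat_lit 11) (.e (nat_lit 24628) (nat_lit 9) (.e (nat_lit 335878) (nat_lit 0) .nil)))) (.g (nat_lit 0) (.e (nat_lit 103350) (nat_lit 0) .nil) .nil))))) (.nd (nat_lit 8) (.nd (nat_lit 9) 
(.lf (nat_lit 477367) (.g (nat_lit 3201) (.e (nat_lit 1858) (nat_lit 124) (.e (nat_lit 557105) (nat_lit 14) (.e (nat_lit 180251) (nat_lit 10) (.e (nat_lit 573484) (nat_lit 13) (.e (nat_lit 65642) (nat_lit 15) (.e (nat_lit 3253) (nat_lit 197) (.e (nat_lit 532504) (nat_lit 1) (.e (nat_lit 57852) (nat_lit 252) (.e (nat_lit 57355) (nat_lit 0) .nil))))))))) (.g (nat_lit 1) (.e (nat_lit 102205) (nat_lit 0) .nil) .nil))) 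
(.lf (nat_lit 477879) (.g (nat_lit 2731) (.e (nat_lit 2270) (nat_lit 149) (.e (nat_lit 761899) (nat_lit 15) (.e (nat_lit 163977) (nat_lit 30) (.e (nat_lit 573489) (nat_lit 14) (.e (nat_lit 73754) (nat_lit 8) (.e (nat_lit 557101) (nat_lit 13) (.e (nat_lit 172066) (nat_lit 3) (.e (nat_lit 204821) (nat_lit 17) .nil)))))))) (.g (nat_lit 1) (.e (nat_lit 103115) (nat_lit 0) .nil) .nil)))) 
(.nd (nat_lit 9) 
(.lf (nat_lit 477623) (.g (nat_lit 2844) (.e (nat_lit 1860) (nat_lit 124) (.e (nat_lit 557101) (nat_lit 13) (.e (nat_lit 172115) (nat_lit 10) (.e (nat_lit 434238) (nat_lit 25) (.e (nat_lit 548897) (nat_lit 14) (.e (nat_lit 2989) (nat_lit 186) (.e (nat_lit 450304) (nat_lit 0) .nil))))))) (.g (nat_lit 1) (.e (nat_lit 102489) (nat_lit 0) .nil) .nil))) 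
(.lf (nat_lit 478135) (.g (nat_lit 1516) (.e (nat_lit 2391) (nat_lit 156) (.e (nat_lit 819204) (nat_lit 0) (.e (nat_lit 3016) (nat_lit 187) (.e (nat_lit 450584) (nat_lit 9) (.e (nat_lit 573184) (nat_lit 6) .nil))))) (.g (nat_lit 0) (.e (nat_lit 103800) (nat_lit 0) .nil) .nil)))))) (.nd (nat_lit 7) (.nd (nat_lit 8) (.nd (nat_lit 9) 
(.lf (nat_lit 477303) (.g (nat_lit 3946) (.e (nat_lit 1858) (nat_lit 124) (.e (nat_lit 557101) (nat_lit 13) (.e (nat_lit 172097) (nat_lit 9) (.e (nat_lit 426125) (nat_lit 2) (.e (nat_lit 196661) (nat_lit 12) (.e (nat_lit 57751) (nat_lit 201) (.e (nat_lit 2857) (nat_lit 184) (.e (nat_lit 426402) (nat_lit 15) .nil)))))))) (.g (nat_lit 1) (.e (nat_lit 102137) (nat_lit 0) .nil) .nil))) 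
(.lf (nat_lit 477815) (.g (nat_lit 1499) (.e (nat_lit 2006) (nat_lit 138) (.e (nat_lit 671762) (nat_lit 4) (.e (nat_lit 65593) (nat_lit 9) (.e (nat_lit 335907) (nat_lit 0) (.e (nat_lit 1996) (nat_lit 137) .nil))))) (.g (nat_lit 0) (.e (nat_lit 102852) (nat_lit 0) .nil) .nil)))) (.nd (nat_lit 9) 
(.lf (nat_lit 477559) (.g (nat_lit 1707) (.e (nat_lit 1860) (nat_lit 124) (.e (nat_lit 557100) (nat_lit 13) (.e (nat_lit 172106) (nat_lit 10) (.e (nat_lit 434246) (nat_lit 28) .nil)))) (.g (nat_lit 0) (.e (nat_lit 102425) (nat_lit 0) .nil) .nil))) 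
(.lf (nat_lit 478071) (.g (nat_lit 2465) (.e (nat_lit 2347) (nat_lit 151) (.e (nat_lit 778466) (nat_lit 11) (.e (nat_lit 24617) (nat_lit 7) (.e (nat_lit 319505) (nat_lit 10) (.e (nat_lit 720) (nat_lit 64) (.e (nat_lit 688177) (nat_lit 16) (.e (nat_lit 65599) (nat_lit 9) (.e (nat_lit 335890) (nat_lit 0) .nil)))))))) (.g (nat_lit 1) (.e (nat_lit 103441) (nat_lit 0) .nil) .nil))))) 
(.nd (nat_lit 8) (.nd (nat_lit 9) 
(.lf (nat_lit 477431) (.g (nat_lit 2373) (.e (nat_lit 1859) (nat_lit 124) (.e (nat_lit 557098) (nat_lit 13) (.e (nat_lit 172115) (nat_lit 10) (.e (nat_lit 434231) (nat_lit 23) (.e (nat_lit 532481) (nat_lit 0) (.e (nat_lit 6643) (nat_lit 357) (.e (nat_lit 2856) (nat_lit 184) (.e (nat_lit 426402) (nat_lit 15) .nil)))))))) (.g (nat_lit 1) (.e (nat_lit 102296) (nat_lit 0) .nil) .nil))) 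
(.lf (nat_lit 477943) (.g (nat_lit 1414) (.e (nat_lit 2283) (nat_lit 150) (.e (nat_lit 770072) (nat_lit 8) (.e (nat_lit 65568) (nat_lit 2) (.e (nat_lit 90170) (nat_lit 13) .nil)))) (.g (nat_lit 0) (.e (nat_lit 103262) (nat_lit 0) .nil) .nil)))) (.nd (nat_lit 9) 
(.lf (nat_lit 477687) (.g (nat_lit 948) (.e (nat_lit 1963) (nat_lit 134) (.e (nat_lit 639001) (nat_lit 10) (.e (nat_lit 188440) (nat_lit 20) (.e (nat_lit 3391) (nat_lit 210) (.e (nat_lit 639023) (nat_lit 18) (.e (nat_lit 81939) (nat_lit 20) .nil)))))) (.g (nat_lit 1) (.e (nat_lit 102693) (nat_lit 0) .nil) .nil))) 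
(.lf (nat_lit 478199) (.g (nat_lit 3743) (.e (nat_lit 2056) (nat_lit 142) (.e (nat_lit 704589) (nat_lit 3) (.e (nat_lit 163979) (nat_lit 30) (.e (nat_lit 573492) (nat_lit 15) (.e (nat_lit 81956) (nat_lit 23) (.e (nat_lit 98356) (nat_lit 26) (.e (nat_lit 426416) (nat_lit 15) .nil))))))) (.g (nat_lit 1) (.e (nat_lit 103976) (nat_lit 0) .nil) .nil))))))))) 
(.nd (nat_lit 4) (.nd (nat_lit 5) (.nd (nat_lit 6) (.nd (nat_lit 7) (.nd (nat_lit 8) 
(.nd (nat_lit 9) 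
(.lf (nat_lit 477199) (.g (nat_lit 4197) (.e (nat_lit 1855) (nat_lit 124) (.e (nat_lit 557109) (nat_lit 15) (.e (nat_lit 188452) (nat_lit 23) (.e (nat_lit 204884) (nat_lit 33) .nil)))) (.g (nat_lit 0) (.e (nat_lit 101955) (nat_lit 0) .nil) .nil))) 
(.lf (nat_lit 477711) (.g (nat_lit 1794) (.e (nat_lit 1994) (nat_lit 137) (.e (nat_lit 663567) (nat_lit 4) (.e (nat_lit 65628) (nat_lit 14) (.e (nat_lit 401438) (nat_lit 9) (.e (nat_lit 426542) (nat_lit 29) (.e (nat_lit 352286) (nat_lit 20) .nil)))))) (.g (nat_lit 1) (.e (nat_lit 102736) (nat_lit 0) .nil) .nil)))) (.nd (nat_lit 9) 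
(.lf (nat_lit 477455) (.g (nat_lit 3113) (.e (nat_lit 1859) (nat_lit 124) (.e (nat_lit 557098) (nat_lit 13) (.e (nat_lit 172115) (nat_lit 10) (.e (nat_lit 434238) (nat_lit 25) (.e (nat_lit 548898) (nat_lit 14) (.e (nat_lit 2998) (nat_lit 186) (.e (nat_lit 450304) (nat_lit 0) .nil))))))) (.g (nat_lit 1) (.e (nat_lit 102320) (nat_lit 0) .nil) .nil))) 
(.lf (nat_lit 477967) (.g (nat_lit 3488) (.e (nat_lit 2305) (nat_lit 151) (.e (nat_lit 778466) (nat_lit 11) (.e (nat_lit 24617) (nat_lit 7) (.e (nat_lit 319533) (nat_lit 16) (.e (nat_lit 286753) (nat_lit 10) (.e (nat_lit 344160) (nat_lit 37) (.e (nat_lit 647190) (nat_lit 9) (.e (nat_lit 7936) (nat_lit 81) .nil)))))))) (.g (nat_lit 1) (.e (nat_lit 103305) (nat_lit 0) .nil) .nil))))) 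
(.nd (nat_lit 8) (.nd (nat_lit 9) 
(.lf (nat_lit 477327) (.g (nat_lit 4832) (.e (nat_lit 1858) (nat_lit 124) (.e (nat_lit 557101) (nat_lit 13) (.e (nat_lit 172115) (nat_lit 10) (.e (nat_lit 434231) (nat_lit 23) (.e (nat_lit 532490) (nat_lit 0) (.e (nat_lit 6680) (nat_lit 357) (.e (nat_lit 2856) (nat_lit 184) (.e (nat_lit 426402) (nat_lit 15) .nil)))))))) (.g (nat_lit 1) (.e (nat_lit 102161) (nat_lit 0) .nil) .nil))) 
(.lf (nat_lit 477839) (.g (nat_lit 2048) (.e (nat_lit 2270) (nat_lit 149) (.e (nat_lit 761898) (nat_lit 15) (.e (nat_lit 163977) (nat_lit 30) (.e (nat_lit 573489) (nat_lit 14) (.e (nat_lit 73754) (nat_lit 8) (.e (nat_lit 557101) (nat_lit 13) (.e (nat_lit 172065) (nat_lit 3) (.e (nat_lit 204821) (nat_lit 17) .nil)))))))) (.g (nat_lit 1) (.e (nat_lit 103075) (nat_lit 0) .nil) .nil)))) 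
(.nd (nat_lit 9) 
(.lf (nat_lit 477583) (.g (nat_lit 3673) (.e (nat_lit 1860) (nat_lit 124) (.e (nat_lit 557100) (nat_lit 13) (.e (nat_lit 172113) (nat_lit 10) (.e (nat_lit 434245) (nat_lit 28) (.e (nat_lit 573471) (nat_lit 11) (.e (nat_lit 16436) (nat_lit 9) (.e (nat_lit 426361) (nat_lit 15) .nil))))))) (.g (nat_lit 1) (.e (nat_lit 102449) (nat_lit 0) .nil) .nil))) 
(.lf (nat_lit 478095) (.g (nat_lit 2037) (.e (nat_lit 2358) (nat_lit 152) (.e (nat_lit 786481) (nat_lit 30) (.e (nat_lit 360473) (nat_lit 8) (.e (nat_lit 557091) (nat_lit 12) (.e (nat_lit 164006) (nat_lit 41) .nil))))) (.g (nat_lit 0) (.e (nat_lit 103507) (nat_lit 0) .nil) .nil)))))) (.nd (nat_lit 7) (.nd (nat_lit 8) (.nd (nat_lit 9) 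
(.lf (nat_lit 477263) (.g (nat_lit 2400) (.e (nat_lit 1856) (nat_lit 124) (.e (nat_lit 557109) (nat_lit 15) (.e (nat_lit 188450) (nat_lit 23) (.e (nat_lit 204815) (nat_lit 17) .nil)))) (.g (nat_lit 0) (.e (nat_lit 102078) (nat_lit 0) .nil) .nil))) 
(.lf (nat_lit 477775) (.g (nat_lit 2156) (.e (nat_lit 1999) (nat_lit 137) (.e (nat_lit 663567) (nat_lit 4) (.e (nat_lit 65611) (nat_lit 10) (.e (nat_lit 344169) (nat_lit 40) (.e (nat_lit 671764) (nat_lit 6) (.e (nat_lit 81935) (nat_lit 20) .nil)))))) (.g (nat_lit 1) (.e (nat_lit 102807) (nat_lit 0) .nil) .nil)))) (.nd (nat_lit 9) 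
(.lf (nat_lit 477519) (.g (nat_lit 1137) (.e (nat_lit 1859) (nat_lit 124) (.e (nat_lit 557107) (nat_lit 15) (.e (nat_lit 188450) (nat_lit 23) (.e (nat_lit 204881) (nat_lit 32) .nil)))) (.g (nat_lit 0) (.e (nat_lit 102385) (nat_lit 0) .nil) .nil))) 
(.lf (nat_lit 478031) (.g (nat_lit 1748) (.e (nat_lit 2335) (nat_lit 151) (.e (nat_lit 778325) (nat_lit 6) (.e (nat_lit 81956) (nat_lit 23) (.e (nat_lit 98321) (nat_lit 17) (.e (nat_lit 7936) (nat_lit 216) .nil))))) (.g (nat_lit 0) (.e (nat_lit 103381) (nat_lit 0) .nil) .nil))))) (.nd (nat_lit 8) (.nd (nat_lit 9) 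
(.lf (nat_lit 477391) (.g (nat_lit 5134) (.e (nat_lit 1858) (nat_lit 124) (.e (nat_lit 557108) (nat_lit 15) (.e (nat_lit 188452) (nat_lit 23) (.e (nat_lit 204884) (nat_lit 33) .nil)))) (.g (nat_lit 0) (.e (nat_lit 102246) (nat_lit 0) .nil) .nil))) 
(.lf (nat_lit 477903) (.g (nat_lit 4426) (.e (nat_lit 2271) (nat_lit 149) (.e (nat_lit 761898) (nat_lit 15) (.e (nat_lit 163978) (nat_lit 30) (.e (nat_lit 573489) (nat_lit 14) (.e (nat_lit 73755) (nat_lit 8) (.e (nat_lit 557105) (nat_lit 14) (.e (nat_lit 180245) (nat_lit 5) (.e (nat_lit 532481) (nat_lit 0) .nil)))))))) (.g (nat_lit 1) (.e (nat_lit 103174) (nat_lit 0) .nil) .nil)))) 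
(.nd (nat_lit 9) 
(.lf (nat_lit 477647) (.g (nat_lit 1749) (.e (nat_lit 1860) (nat_lit 124) (.e (nat_lit 557101) (nat_lit 13) (.e (nat_lit 172115) (nat_lit 10) (.e (nat_lit 434244) (nat_lit 28) (.e (nat_lit 573458) (nat_lit 9) .nil))))) (.g (nat_lit 0) (.e (nat_lit 102513) (nat_lit 0) .nil) .nil))) 
(.lf (nat_lit 478159) (.g (nat_lit 1874) (.e (nat_lit 2044) (nat_lit 142) (.e (nat_lit 704734) (nat_lit 11) (.e (nat_lit 16416) (nat_lit 3) (.e (nat_lit 204861) (nat_lit 26) (.e (nat_lit 336075) (nat_lit 9) .nil))))) (.g (nat_lit 0) (.e (nat_lit 103925) (nat_lit 0) .nil) .nil))))))) (.nd (nat_lit 6) (.nd (nat_lit 7) (.nd (nat_lit 8) (.nd (nat_lit 9) 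
(.lf (nat_lit 477231) (.g (nat_lit 2546) (.e (nat_lit 1856) (nat_lit 124) (.e (nat_lit 557100) (nat_lit 13) (.e (nat_lit 172113) (nat_lit 10) (.e (nat_lit 434245) (nat_lit 28) (.e (nat_lit 573450) (nat_lit 9) (.e (nat_lit 459) (nat_lit 34) (.e (nat_lit 442378) (nat_lit 0) .nil))))))) (.g (nat_lit 1) (.e (nat_lit 102043) (nat_lit 0) .nil) .nil))) 
(.lf (nat_lit 477743) (.g (nat_lit 2116) (.e (nat_lit 1996) (nat_lit 137) (.e (nat_lit 663567) (nat_lit 4) (.e (nat_lit 65617) (nat_lit 10) (.e (nat_lit 344169) (nat_lit 40) (.e (nat_lit 671764) (nat_lit 6) (.e (nat_lit 81934) (nat_lit 20) .nil)))))) (.g (nat_lit 1) (.e (nat_lit 102773) (nat_lit 0) .nil) .nil)))) (.nd (nat_lit 9) 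
(.lf (nat_lit 477487) (.g (nat_lit 1607) (.e (nat_lit 1859) (nat_lit 124) (.e (nat_lit 557107) (nat_lit 15) (.e (nat_lit 188439) (nat_lit 20) (.e (nat_lit 3270) (nat_lit 199) (.e (nat_lit 548898) (nat_lit 14) (.e (nat_lit 2988) (nat_lit 186) (.e (nat_lit 450304) (nat_lit 0) .nil))))))) (.g (nat_lit 1) (.e (nat_lit 102353) (nat_lit 0) .nil) .nil))) 
(.lf (nat_lit 477999) (.g (nat_lit 2137) (.e (nat_lit 2313) (nat_lit 151) (.e (nat_lit 778464) (nat_lit 11) (.e (nat_lit 24617) (nat_lit 7) (.e (nat_lit 319533) (nat_lit 16) (.e (nat_lit 286753) (nat_lit 10) .nil))))) (.g (nat_lit 0) (.e (nat_lit 103342) (nat_lit 0) .nil) .nil))))) (.nd (nat_lit 8) (.nd (nat_lit 9) 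
(.lf (nat_lit 477359) (.g (nat_lit 2401) (.e (nat_lit 1858) (nat_lit 124) (.e (nat_lit 557101) (nat_lit 13) (.e (nat_lit 172115) (nat_lit 10) (.e (nat_lit 434244) (nat_lit 28) (.e (nat_lit 573458) (nat_lit 9) (.e (nat_lit 420) (nat_lit 32) (.e (nat_lit 426261) (nat_lit 9) (.e (nat_lit 426401) (nat_lit 15) .nil)))))))) (.g (nat_lit 1) (.e (nat_lit 102193) (nat_lit 0) .nil) .nil))) 
(.lf (nat_lit 477871) (.g (nat_lit 2379) (.e (nat_lit 2270) (nat_lit 149) (.e (nat_lit 761898) (nat_lit 15) (.e (nat_lit 163979) (nat_lit 30) (.e (nat_lit 573489) (nat_lit 14) (.e (nat_lit 73754) (nat_lit 8) (.e (nat_lit 557101) (nat_lit 13) (.e (nat_lit 172065) (nat_lit 3) (.e (nat_lit 204821) (nat_lit 17) .nil)))))))) (.g (nat_lit 1) (.e (nat_lit 103107) (nat_lit 0) .nil) .nil)))) 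
(.nd (nat_lit 9) 
(.lf (nat_lit 477615) (.g (nat_lit 1607) (.e (nat_lit 1860) (nat_lit 124) (.e (nat_lit 557101) (nat_lit 13) (.e (nat_lit 172115) (nat_lit 10) (.e (nat_lit 434231) (nat_lit 23) (.e (nat_lit 532482) (nat_lit 0) .nil))))) (.g (nat_lit 0) (.e (nat_lit 102481) (nat_lit 0) .nil) .nil))) 
(.lf (nat_lit 478127) (.g (nat_lit 1343) (.e (nat_lit 2390) (nat_lit 156) (.e (nat_lit 819221) (nat_lit 6) (.e (nat_lit 188441) (nat_lit 20) (.e (nat_lit 3289) (nat_lit 201) (.e (nat_lit 565269) (nat_lit 6) (.e (nat_lit 81939) (nat_lit 20) .nil)))))) (.g (nat_lit 1) (.e (nat_lit 103753) (nat_lit 0) .nil) .nil)))))) (.nd (nat_lit 7) (.nd (nat_lit 8) (.nd (nat_lit 9) 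
(.lf (nat_lit 477295) (.g (nat_lit 3185) (.e (nat_lit 1858) (nat_lit 124) (.e (nat_lit 557101) (nat_lit 13) (.e (nat_lit 172097) (nat_lit 9) (.e (nat_lit 426125) (nat_lit 2) (.e (nat_lit 196661) (nat_lit 12) (.e (nat_lit 57749) (nat_lit 201) (.e (nat_lit 2940) (nat_lit 184) (.e (nat_lit 433920) (nat_lit 15) .nil)))))))) (.g (nat_lit 1) (.e (nat_lit 102129) (nat_lit 0) .nil) .nil))) 
(.lf (nat_lit 477807) (.g (nat_lit 2241) (.e (nat_lit 2004) (nat_lit 138) (.e (nat_lit 671759) (nat_lit 3) (.e (nat_lit 57478) (nat_lit 28) (.e (nat_lit 557097) (nat_lit 13) (.e (nat_lit 172097) (nat_lit 9) .nil))))) (.g (nat_lit 0) (.e (nat_lit 102840) (nat_lit 0) .nil) .nil)))) (.nd (nat_lit 9) 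
(.lf (nat_lit 477551) (.g (nat_lit 4261) (.e (nat_lit 1859) (nat_lit 124) (.e (nat_lit 557109) (nat_lit 15) (.e (nat_lit 188452) (nat_lit 23) (.e (nat_lit 204881) (nat_lit 32) (.e (nat_lit 385104) (nat_lit 50) .nil))))) (.g (nat_lit 0) (.e (nat_lit 102417) (nat_lit 0) .nil) .nil))) 
(.lf (nat_lit 478063) (.g (nat_lit 4073) (.e (nat_lit 2346) (nat_lit 151) (.e (nat_lit 778466) (nat_lit 11) (.e (nat_lit 24617) (nat_lit 7) (.e (nat_lit 319534) (nat_lit 16) (.e (nat_lit 286756) (nat_lit 10) (.e (nat_lit 344160) (nat_lit 37) (.e (nat_lit 647190) (nat_lit 9) (.e (nat_lit 1047) (nat_lit 81) .nil)))))))) (.g (nat_lit 1) (.e (nat_lit 103433) (nat_lit 0) .nil) .nil))))) 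
(.nd (nat_lit 8) (.nd (nat_lit 9) 
(.lf (nat_lit 477423) (.g (nat_lit 2953) (.e (nat_lit 1859) (nat_lit 124) (.e (nat_lit 557098) (nat_lit 13) (.e (nat_lit 172097) (nat_lit 9) (.e (nat_lit 426140) (nat_lit 3) (.e (nat_lit 204821) (nat_lit 17) (.e (nat_lit 6674) (nat_lit 357) (.e (nat_lit 2940) (nat_lit 184) (.e (nat_lit 433920) (nat_lit 15) .nil)))))))) (.g (nat_lit 1) (.e (nat_lit 102288) (nat_lit 0) .nil) .nil))) 
(.lf (nat_lit 477935) (.g (nat_lit 2405) (.e (nat_lit 2283) (nat_lit 150) (.e (nat_lit 770071) (nat_lit 8) (.e (nat_lit 65586) (nat_lit 7) (.e (nat_lit 319531) (nat_lit 16) (.e (nat_lit 286755) (nat_lit 10) .nil))))) (.g (nat_lit 0) (.e (nat_lit 103243) (nat_lit 0) .nil) .nil)))) (.nd (nat_lit 9) 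
(.lf (nat_lit 477679) (.g (nat_lit 4037) (.e (nat_lit 1863) (nat_lit 124) (.e (nat_lit 557097) (nat_lit 13) (.e (nat_lit 172115) (nat_lit 10) (.e (nat_lit 434244) (nat_lit 28) (.e (nat_lit 573450) (nat_lit 9) (.e (nat_lit 457) (nat_lit 34) (.e (nat_lit 442368) (nat_lit 0) .nil))))))) (.g (nat_lit 1) (.e (nat_lit 102560) (nat_lit 0) .nil) .nil))) 
(.lf (nat_lit 478191) (.g (nat_lit 3746) (.e (nat_lit 2056) (nat_lit 142) (.e (nat_lit 704589) (nat_lit 3) (.e (nat_lit 163978) (nat_lit 30) (.e (nat_lit 573485) (nat_lit 13) (.e (nat_lit 65619) (nat_lit 10) (.e (nat_lit 344117) (nat_lit 21) (.e (nat_lit 516144) (nat_lit 9) (.e (nat_lit 426375) (nat_lit 15) .nil)))))))) (.g (nat_lit 1) (.e (nat_lit 103968) (nat_lit 0) .nil) .nil)))))))) 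
(.nd (nat_lit 5) (.nd (nat_lit 6) (.nd (nat_lit 7) (.nd (nat_lit 8) (.nd (nat_lit 9) 
(.lf (nat_lit 477215) (.g (nat_lit 1339) (.e (nat_lit 1856) (nat_lit 124) (.e (nat_lit 557100) (nat_lit 13) (.e (nat_lit 172106) (nat_lit 10) (.e (nat_lit 434209) (nat_lit 18) .nil)))) (.g (nat_lit 0) (.e (nat_lit 102025) (nat_lit 0) .nil) .nil))) 
(.lf (nat_lit 477727) (.g (nat_lit 1738) (.e (nat_lit 1994) (nat_lit 137) (.e (nat_lit 663569) (nat_lit 6) (.e (nat_lit 81946) (nat_lit 20) (.e (nat_lit 2006) (nat_lit 138) (.e (nat_lit 671764) (nat_lit 6) (.e (nat_lit 81931) (nat_lit 20) .nil)))))) (.g (nat_lit 1) (.e (nat_lit 102752) (nat_lit 0) .nil) .nil)))) (.nd (nat_lit 9) 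
(.lf (nat_lit 477471) (.g (nat_lit 3483) (.e (nat_lit 1859) (nat_lit 124) (.e (nat_lit 557098) (nat_lit 13) (.e (nat_lit 172115) (nat_lit 10) (.e (nat_lit 434244) (nat_lit 28) (.e (nat_lit 573450) (nat_lit 9) (.e (nat_lit 455) (nat_lit 34) (.e (nat_lit 450304) (nat_lit 0) .nil))))))) (.g (nat_lit 1) (.e (nat_lit 102336) (nat_lit 0) .nil) .nil))) 
(.lf (nat_lit 477983) (.g (nat_lit 2535) (.e (nat_lit 2309) (nat_lit 151) (.e (nat_lit 778466) (nat_lit 11) (.e (nat_lit 24617) (nat_lit 7) (.e (nat_lit 319533) (nat_lit 16) (.e (nat_lit 286753) (nat_lit 10) .nil))))) (.g (nat_lit 0) (.e (nat_lit 103322) (nat_lit 0) .nil) .nil))))) (.nd (nat_lit 8) (.nd (nat_lit 9) 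
(.lf (nat_lit 477343) (.g (nat_lit 3346) (.e (nat_lit 1858) (nat_lit 124) (.e (nat_lit 557101) (nat_lit 13) (.e (nat_lit 172115) (nat_lit 10) (.e (nat_lit 434238) (nat_lit 25) (.e (nat_lit 548898) (nat_lit 14) (.e (nat_lit 3005) (nat_lit 186) (.e (nat_lit 450304) (nat_lit 0) .nil))))))) (.g (nat_lit 1) (.e (nat_lit 102177) (nat_lit 0) .nil) .nil))) 
(.lf (nat_lit 477855) (.g (nat_lit 3198) (.e (nat_lit 2270) (nat_lit 149) (.e (nat_lit 761898) (nat_lit 15) (.e (nat_lit 163978) (nat_lit 30) (.e (nat_lit 573489) (nat_lit 14) (.e (nat_lit 73754) (nat_lit 8) (.e (nat_lit 557101) (nat_lit 13) (.e (nat_lit 172065) (nat_lit 3) (.e (nat_lit 204821) (nat_lit 17) .nil)))))))) (.g (nat_lit 1) (.e (nat_lit 103091) (nat_lit 0) .nil) .nil)))) 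
(.nd (nat_lit 9) 
(.lf (nat_lit 477599) (.g (nat_lit 2926) (.e (nat_lit 1860) (nat_lit 124) (.e (nat_lit 557100) (nat_lit 13) (.e (nat_lit 172113) (nat_lit 10) (.e (nat_lit 434248) (nat_lit 28) (.e (nat_lit 573470) (nat_lit 11) (.e (nat_lit 16435) (nat_lit 9) (.e (nat_lit 433920) (nat_lit 15) .nil))))))) (.g (nat_lit 1) (.e (nat_lit 102465) (nat_lit 0) .nil) .nil))) 
(.lf (nat_lit 478111) (.g (nat_lit 852) (.e (nat_lit 2384) (nat_lit 155) (.e (nat_lit 811012) (nat_lit 0) (.e (nat_lit 5779) (nat_lit 317) (.e (nat_lit 180241) (nat_lit 4) (.e (nat_lit 524340) (nat_lit 28) (.e (nat_lit 352285) (nat_lit 20) .nil)))))) (.g (nat_lit 1) (.e (nat_lit 103671) (nat_lit 0) .nil) .nil)))))) (.nd (nat_lit 7) (.nd (nat_lit 8) (.nd (nat_lit 9) 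
(.lf (nat_lit 477279) (.g (nat_lit 2750) (.e (nat_lit 1858) (nat_lit 124) (.e (nat_lit 557070) (nat_lit 9) (.e (nat_lit 2744) (nat_lit 174) (.e (nat_lit 253991) (nat_lit 11) (.e (nat_lit 16411) (nat_lit 2) .nil))))) (.g (nat_lit 0) (.e (nat_lit 102095) (nat_lit 0) .nil) .nil))) 
(.lf (nat_lit 477791) (.g (nat_lit 840) (.e (nat_lit 1999) (nat_lit 137) (.e (nat_lit 663567) (nat_lit 4) (.e (nat_lit 65628) (nat_lit 14) (.e (nat_lit 401438) (nat_lit 9) .nil)))) (.g (nat_lit 0) (.e (nat_lit 102823) (nat_lit 0) .nil) .nil)))) (.nd (nat_lit 9) 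
(.lf (nat_lit 477535) (.g (nat_lit 2791) (.e (nat_lit 1859) (nat_lit 124) (.e (nat_lit 557109) (nat_lit 15) (.e (nat_lit 188449) (nat_lit 22) (.e (nat_lit 196661) (nat_lit 12) (.e (nat_lit 57749) (nat_lit 201) (.e (nat_lit 2940) (nat_lit 184) (.e (nat_lit 426401) (nat_lit 15) .nil))))))) (.g (nat_lit 1) (.e (nat_lit 102401) (nat_lit 0) .nil) .nil))) 
(.lf (nat_lit 478047) (.g (nat_lit 4326) (.e (nat_lit 2342) (nat_lit 151) (.e (nat_lit 778466) (nat_lit 11) (.e (nat_lit 24617) (nat_lit 7) (.e (nat_lit 319534) (nat_lit 16) (.e (nat_lit 286756) (nat_lit 10) (.e (nat_lit 344160) (nat_lit 37) (.e (nat_lit 647190) (nat_lit 9) (.e (nat_lit 1025) (nat_lit 81) .nil)))))))) (.g (nat_lit 1) (.e (nat_lit 103399) (nat_lit 0) .nil) .nil))))) 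
(.nd (nat_lit 8) (.nd (nat_lit 9) 
(.lf (nat_lit 477407) (.g (nat_lit 2341) (.e (nat_lit 1859) (nat_lit 124) (.e (nat_lit 557098) (nat_lit 13) (.e (nat_lit 172097) (nat_lit 9) (.e (nat_lit 426125) (nat_lit 2) (.e (nat_lit 196661) (nat_lit 12) (.e (nat_lit 57748) (nat_lit 201) (.e (nat_lit 2936) (nat_lit 184) (.e (nat_lit 433920) (nat_lit 15) .nil)))))))) (.g (nat_lit 1) (.e (nat_lit 102272) (nat_lit 0) .nil) .nil))) 
(.lf (nat_lit 477919) (.g (nat_lit 391) (.e (nat_lit 2281) (nat_lit 150) (.e (nat_lit 770072) (nat_lit 8) (.e (nat_lit 65617) (nat_lit 10) .nil))) (.g (nat_lit 0) (.e (nat_lit 103222) (nat_lit 0) .nil) .nil)))) (.nd (nat_lit 9) 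
(.lf (nat_lit 477663) (.g (nat_lit 2155) (.e (nat_lit 1860) (nat_lit 124) (.e (nat_lit 557105) (nat_lit 14) (.e (nat_lit 180252) (nat_lit 10) (.e (nat_lit 573481) (nat_lit 13) (.e (nat_lit 73472) (nat_lit 18) .nil))))) (.g (nat_lit 0) (.e (nat_lit 102529) (nat_lit 0) .nil) .nil))) 
(.lf (nat_lit 478175) (.g (nat_lit 3375) (.e (nat_lit 2056) (nat_lit 142) (.e (nat_lit 704589) (nat_lit 3) (.e (nat_lit 163975) (nat_lit 30) (.e (nat_lit 573492) (nat_lit 15) (.e (nat_lit 81956) (nat_lit 23) (.e (nat_lit 98355) (nat_lit 26) (.e (nat_lit 426376) (nat_lit 15) .nil))))))) (.g (nat_lit 1) (.e (nat_lit 103952) (nat_lit 0) .nil) .nil))))))) 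
(.nd (nat_lit 6) (.nd (nat_lit 7) (.nd (nat_lit 8) (.nd (nat_lit 9) 
(.lf (nat_lit 477247) (.g (nat_lit 3347) (.e (nat_lit 1856) (nat_lit 124) (.e (nat_lit 557101) (nat_lit 13) (.e (nat_lit 172115) (nat_lit 10) (.e (nat_lit 434244) (nat_lit 28) (.e (nat_lit 573449) (nat_lit 9) (.e (nat_lit 459) (nat_lit 34) (.e (nat_lit 442379) (nat_lit 0) .nil))))))) (.g (nat_lit 1) (.e (nat_lit 102059) (nat_lit 0) .nil) .nil))) 
(.lf (nat_lit 477759) (.g (nat_lit 1115) (.e (nat_lit 1996) (nat_lit 137) (.e (nat_lit 663569) (nat_lit 6) (.e (nat_lit 81924) (nat_lit 0) (.e (nat_lit 3629) (nat_lit 227) (.e (nat_lit 778326) (nat_lit 6) (.e (nat_lit 81935) (nat_lit 20) .nil)))))) (.g (nat_lit 1) (.e (nat_lit 102789) (nat_lit 0) .nil) .nil)))) (.nd (nat_lit 9) 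
(.lf (nat_lit 477503) (.g (nat_lit 1954) (.e (nat_lit 1859) (nat_lit 124) (.e (nat_lit 557107) (nat_lit 15) (.e (nat_lit 188440) (nat_lit 20) (.e (nat_lit 3272) (nat_lit 199) (.e (nat_lit 548898) (nat_lit 14) (.e (nat_lit 2988) (nat_lit 186) (.e (nat_lit 450304) (nat_lit 0) .nil))))))) (.g (nat_lit 1) (.e (nat_lit 102369) (nat_lit 0) .nil) .nil))) 
(.lf (nat_lit 478015) (.g (nat_lit 3703) (.e (nat_lit 2328) (nat_lit 151) (.e (nat_lit 778464) (nat_lit 11) (.e (nat_lit 24617) (nat_lit 7) (.e (nat_lit 319534) (nat_lit 16) (.e (nat_lit 286756) (nat_lit 10) (.e (nat_lit 344160) (nat_lit 37) (.e (nat_lit 647195) (nat_lit 9) (.e (nat_lit 1015) (nat_lit 81) .nil)))))))) (.g (nat_lit 1) (.e (nat_lit 103360) (nat_lit 0) .nil) .nil))))) 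
(.nd (nat_lit 8) (.nd (nat_lit 9) 
(.lf (nat_lit 477375) (.g (nat_lit 3216) (.e (nat_lit 1858) (nat_lit 124) (.e (nat_lit 557105) (nat_lit 14) (.e (nat_lit 180252) (nat_lit 10) (.e (nat_lit 573482) (nat_lit 13) (.e (nat_lit 65635) (nat_lit 15) (.e (nat_lit 3253) (nat_lit 197) (.e (nat_lit 532504) (nat_lit 1) (.e (nat_lit 57852) (nat_lit 252) (.e (nat_lit 57344) (nat_lit 0) .nil))))))))) (.g (nat_lit 1) (.e (nat_lit 102228) (nat_lit 0) .nil) .nil))) 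
(.lf (nat_lit 477887) (.g (nat_lit 4010) (.e (nat_lit 2270) (nat_lit 149) (.e (nat_lit 761899) (nat_lit 15) (.e (nat_lit 163978) (nat_lit 30) (.e (nat_lit 573489) (nat_lit 14) (.e (nat_lit 73755) (nat_lit 8) (.e (nat_lit 557098) (nat_lit 13) (.e (nat_lit 172066) (nat_lit 3) (.e (nat_lit 204821) (nat_lit 17) .nil)))))))) (.g (nat_lit 1) (.e (nat_lit 103127) (nat_lit 0) .nil) .nil)))) 
(.nd (nat_lit 9) 
(.lf (nat_lit 477631) (.g (nat_lit 3328) (.e (nat_lit 1860) (nat_lit 124) (.e (nat_lit 557101) (nat_lit 13) (.e (nat_lit 172115) (nat_lit 10) (.e (nat_lit 434238) (nat_lit 25) (.e (nat_lit 548898) (nat_lit 14) (.e (nat_lit 3004) (nat_lit 186) (.e (nat_lit 450304) (nat_lit 0) .nil))))))) (.g (nat_lit 1) (.e (nat_lit 102497) (nat_lit 0) .nil) .nil))) 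
(.lf (nat_lit 478143) (.g (nat_lit 1386) (.e (nat_lit 2391) (nat_lit 156) (.e (nat_lit 819221) (nat_lit 6) (.e (nat_lit 188438) (nat_lit 20) (.e (nat_lit 3289) (nat_lit 201) (.e (nat_lit 565269) (nat_lit 6) (.e (nat_lit 81942) (nat_lit 20) .nil)))))) (.g (nat_lit 1) (.e (nat_lit 103833) (nat_lit 0) .nil) .nil)))))) (.nd (nat_lit 7) (.nd (nat_lit 8) (.nd (nat_lit 9) 
(.lf (nat_lit 477311) (.g (nat_lit 4041) (.e (nat_lit 1858) (nat_lit 124) (.e (nat_lit 557101) (nat_lit 13) (.e (nat_lit 172097) (nat_lit 9) (.e (nat_lit 426140) (nat_lit 3) (.e (nat_lit 204821) (nat_lit 17) (.e (nat_lit 6680) (nat_lit 357) (.e (nat_lit 2856) (nat_lit 184) (.e (nat_lit 426402) (nat_lit 15) .nil)))))))) (.g (nat_lit 1) (.e (nat_lit 102145) (nat_lit 0) .nil) .nil))) 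
(.lf (nat_lit 477823) (.g (nat_lit 2657) (.e (nat_lit 2006) (nat_lit 138) (.e (nat_lit 671762) (nat_lit 4) (.e (nat_lit 65629) (nat_lit 14) (.e (nat_lit 401459) (nat_lit 13) (.e (nat_lit 483386) (nat_lit 23) .nil))))) (.g (nat_lit 0) (.e (nat_lit 102861) (nat_lit 0) .nil) .nil)))) (.nd (nat_lit 9) 
(.lf (nat_lit 477567) (.g (nat_lit 2809) (.e (nat_lit 1860) (nat_lit 124) (.e (nat_lit 557100) (nat_lit 13) (.e (nat_lit 172113) (nat_lit 10) (.e (nat_lit 434245) (nat_lit 28) (.e (nat_lit 573470) (nat_lit 11) (.e (nat_lit 16435) (nat_lit 9) (.e (nat_lit 433920) (nat_lit 15) .nil))))))) (.g (nat_lit 1) (.e (nat_lit 102433) (nat_lit 0) .nil) .nil))) 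
(.lf (nat_lit 478079) (.g (nat_lit 3520) (.e (nat_lit 2347) (nat_lit 151) (.e (nat_lit 778466) (nat_lit 11) (.e (nat_lit 24617) (nat_lit 7) (.e (nat_lit 319534) (nat_lit 16) (.e (nat_lit 286756) (nat_lit 10) (.e (nat_lit 344160) (nat_lit 37) (.e (nat_lit 647195) (nat_lit 9) (.e (nat_lit 7936) (nat_lit 81) .nil)))))))) (.g (nat_lit 1) (.e (nat_lit 103449) (nat_lit 0) .nil) .nil))))) 
(.nd (nat_lit 8) (.nd (nat_lit 9) 
(.lf (nat_lit 477439) (.g (nat_lit 4780) (.e (nat_lit 1859) (nat_lit 124) (.e (nat_lit 557098) (nat_lit 13) (.e (nat_lit 172115) (nat_lit 10) (.e (nat_lit 434231) (nat_lit 23) (.e (nat_lit 532490) (nat_lit 0) (.e (nat_lit 6680) (nat_lit 357) (.e (nat_lit 2856) (nat_lit 184) (.e (nat_lit 426402) (nat_lit 15) .nil)))))))) (.g (nat_lit 1) (.e (nat_lit 102304) (nat_lit 0) .nil) .nil))) 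
(.lf (nat_lit 477951) (.g (nat_lit 2090) (.e (nat_lit 2283) (nat_lit 150) (.e (nat_lit 770072) (nat_lit 8) (.e (nat_lit 65610) (nat_lit 10) (.e (nat_lit 344097) (nat_lit 18) (.e (nat_lit 7147) (nat_lit 382) .nil))))) (.g (nat_lit 0) (.e (nat_lit 103277) (nat_lit 0) .nil) .nil)))) (.nd (nat_lit 9) 
(.lf (nat_lit 477695) (.g (nat_lit 1482) (.e (nat_lit 1994) (nat_lit 137) (.e (nat_lit 663567) (nat_lit 4) (.e (nat_lit 65609) (nat_lit 10) (.e (nat_lit 344169) (nat_lit 40) (.e (nat_lit 671764) (nat_lit 6) (.e (nat_lit 81935) (nat_lit 20) .nil)))))) (.g (nat_lit 1) (.e (nat_lit 102720) (nat_lit 0) .nil) .nil))) 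
(.lf (nat_lit 478207) (.g (nat_lit 3836) (.e (nat_lit 2056) (nat_lit 142) (.e (nat_lit 704589) (nat_lit 3) (.e (nat_lit 163979) (nat_lit 30) (.e (nat_lit 573493) (nat_lit 15) (.e (nat_lit 81956) (nat_lit 23) (.e (nat_lit 98360) (nat_lit 26) (.e (nat_lit 426411) (nat_lit 15) .nil))))))) (.g (nat_lit 1) (.e (nat_lit 103984) (nat_lit 0) .nil) .nil)))))))))))))

noncomputable def tv5527 : DT := (.nd (nat_lit 0) (.nd (nat_lit 1) (.nd (nat_lit 2) (.nd (nat_lit 3) (.nd (nat_lit 4) (.nd (nat_lit 5) (.nd (nat_lit 6) (.nd (nat_lit 7) (.nd (nat_lit 8) (.nd (nat_lit 9) 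
(.lf (nat_lit 478208) (.g (nat_lit 5085) (.e (nat_lit 2056) (nat_lit 142) (.e (nat_lit 704589) (nat_lit 3) (.e (nat_lit 163979) (nat_lit 30) (.e (nat_lit 573493) (nat_lit 15) (.e (nat_lit 81956) (nat_lit 23) (.e (nat_lit 98362) (nat_lit 26) (.e (nat_lit 426412) (nat_lit 15) .nil))))))) (.g (nat_lit 1) (.e (nat_lit 103985) (nat_lit 0) .nil) .nil))) 
(.lf (nat_lit 478720) (.g (nat_lit 2955) (.e (nat_lit 2059) (nat_lit 142) (.e (nat_lit 704589) (nat_lit 3) (.e (nat_lit 163979) (nat_lit 30) (.e (nat_lit 573482) (nat_lit 13) (.e (nat_lit 65619) (nat_lit 10) (.e (nat_lit 344117) (nat_lit 21) (.e (nat_lit 516147) (nat_lit 9) (.e (nat_lit 426420) (nat_lit 15) .nil)))))))) (.g (nat_lit 1) (.e (nat_lit 104635) (nat_lit 0) .nil) .nil)))) 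
(.nd (nat_lit 9) 
(.lf (nat_lit 478464) (.g (nat_lit 3732) (.e (nat_lit 2058) (nat_lit 142) (.e (nat_lit 704589) (nat_lit 3) (.e (nat_lit 163979) (nat_lit 30) (.e (nat_lit 573492) (nat_lit 15) (.e (nat_lit 81956) (nat_lit 23) (.e (nat_lit 98355) (nat_lit 26) (.e (nat_lit 426393) (nat_lit 15) .nil))))))) (.g (nat_lit 1) (.e (nat_lit 104304) (nat_lit 0) .nil) .nil))) 
(.lf (nat_lit 478976) (.g (nat_lit 705) (.e (nat_lit 2175) (nat_lit 143) (.e (nat_lit 712752) (nat_lit 29) (.e (nat_lit 442429) (nat_lit 24) .nil))) (.g (nat_lit 0) (.e (nat_lit 105181) (nat_lit 0) .nil) .nil))))) (.nd (nat_lit 8) (.nd (nat_lit 9) 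
(.lf (nat_lit 478336) (.g (nat_lit 4258) (.e (nat_lit 2058) (nat_lit 142) (.e (nat_lit 704589) (nat_lit 3) (.e (nat_lit 163975) (nat_lit 30) (.e (nat_lit 573492) (nat_lit 15) (.e (nat_lit 81956) (nat_lit 23) (.e (nat_lit 98363) (nat_lit 26) (.e (nat_lit 426419) (nat_lit 15) .nil))))))) (.g (nat_lit 1) (.e (nat_lit 104168) (nat_lit 0) .nil) .nil))) 
(.lf (nat_lit 478848) (.g (nat_lit 1526) (.e (nat_lit 2147) (nat_lit 142) (.e (nat_lit 704597) (nat_lit 6) (.e (nat_lit 188446) (nat_lit 21) (.e (nat_lit 164346) (nat_lit 240) (.e (nat_lit 2648) (nat_lit 166) (.e (nat_lit 188416) (nat_lit 0) .nil)))))) (.g (nat_lit 1) (.e (nat_lit 104981) (nat_lit 0) .nil) .nil)))) (.nd (nat_lit 9) 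
(.lf (nat_lit 478592) (.g (nat_lit 3604) (.e (nat_lit 2059) (nat_lit 142) (.e (nat_lit 704589) (nat_lit 3) (.e (nat_lit 163975) (nat_lit 30) (.e (nat_lit 573492) (nat_lit 15) (.e (nat_lit 81956) (nat_lit 23) (.e (nat_lit 98360) (nat_lit 26) (.e (nat_lit 426411) (nat_lit 15) .nil))))))) (.g (nat_lit 1) (.e (nat_lit 104491) (nat_lit 0) .nil) .nil))) 
(.lf (nat_lit 479104) (.g (nat_lit 4528) (.e (nat_lit 4849) (nat_lit 285) (.e (nat_lit 163870) (nat_lit 2) (.e (nat_lit 196666) (nat_lit 13) (.e (nat_lit 65610) (nat_lit 10) (.e (nat_lit 344117) (nat_lit 21) (.e (nat_lit 516151) (nat_lit 9) (.e (nat_lit 426043) (nat_lit 0) (.e (nat_lit 2424) (nat_lit 157) .nil)))))))) (.g (nat_lit 1) (.e (nat_lit 106492) (nat_lit 0) .nil) .nil)))))) 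
(.nd (nat_lit 7) (.nd (nat_lit 8) (.nd (nat_lit 9) 
(.lf (nat_lit 478272) (.g (nat_lit 1983) (.e (nat_lit 2057) (nat_lit 142) (.e (nat_lit 704598) (nat_lit 6) (.e (nat_lit 188444) (nat_lit 21) (.e (nat_lit 164348) (nat_lit 240) (.e (nat_lit 2648) (nat_lit 166) (.e (nat_lit 188420) (nat_lit 0) .nil)))))) (.g (nat_lit 1) (.e (nat_lit 104095) (nat_lit 0) .nil) .nil))) 
(.lf (nat_lit 478784) (.g (nat_lit 5555) (.e (nat_lit 2059) (nat_lit 142) (.e (nat_lit 704589) (nat_lit 3) (.e (nat_lit 163979) (nat_lit 30) (.e (nat_lit 573493) (nat_lit 15) (.e (nat_lit 81956) (nat_lit 23) (.e (nat_lit 98362) (nat_lit 26) (.e (nat_lit 426411) (nat_lit 15) .nil))))))) (.g (nat_lit 1) (.e (nat_lit 104715) (nat_lit 0) .nil) .nil)))) (.nd (nat_lit 9) 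
(.lf (nat_lit 478528) (.g (nat_lit 2839) (.e (nat_lit 2059) (nat_lit 142) (.e (nat_lit 704589) (nat_lit 3) (.e (nat_lit 163975) (nat_lit 30) (.e (nat_lit 573481) (nat_lit 13) (.e (nat_lit 65604) (nat_lit 9) (.e (nat_lit 336028) (nat_lit 3) (.e (nat_lit 106240) (nat_lit 26) (.e (nat_lit 426391) (nat_lit 15) .nil)))))))) (.g (nat_lit 1) (.e (nat_lit 104415) (nat_lit 0) .nil) .nil))) 
(.lf (nat_lit 479040) (.g (nat_lit 975) (.e (nat_lit 4423) (nat_lit 261) (.e (nat_lit 163875) (nat_lit 3) (.e (nat_lit 204846) (nat_lit 24) .nil))) (.g (nat_lit 0) (.e (nat_lit 105949) (nat_lit 0) .nil) .nil))))) (.nd (nat_lit 8) (.nd (nat_lit 9) 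
(.lf (nat_lit 478400) (.g (nat_lit 5415) (.e (nat_lit 2058) (nat_lit 142) (.e (nat_lit 704589) (nat_lit 3) (.e (nat_lit 163978) (nat_lit 30) (.e (nat_lit 573485) (nat_lit 13) (.e (nat_lit 65610) (nat_lit 10) (.e (nat_lit 344117) (nat_lit 21) (.e (nat_lit 516151) (nat_lit 9) (.e (nat_lit 426412) (nat_lit 15) .nil)))))))) (.g (nat_lit 1) (.e (nat_lit 104240) (nat_lit 0) .nil) .nil))) 
(.lf (nat_lit 478912) (.g (nat_lit 2456) (.e (nat_lit 2174) (nat_lit 143) (.e (nat_lit 712745) (nat_lit 27) (.e (nat_lit 426347) (nat_lit 14) (.e (nat_lit 491571) (nat_lit 13) (.e (nat_lit 393274) (nat_lit 23) (.e (nat_lit 426396) (nat_lit 15) .nil)))))) (.g (nat_lit 1) (.e (nat_lit 105109) (nat_lit 0) .nil) .nil)))) (.nd (nat_lit 9) 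
(.lf (nat_lit 478656) (.g (nat_lit 2921) (.e (nat_lit 2059) (nat_lit 142) (.e (nat_lit 704589) (nat_lit 3) (.e (nat_lit 163976) (nat_lit 30) (.e (nat_lit 573492) (nat_lit 15) (.e (nat_lit 81956) (nat_lit 23) (.e (nat_lit 98360) (nat_lit 26) (.e (nat_lit 426411) (nat_lit 15) .nil))))))) (.g (nat_lit 1) (.e (nat_lit 104566) (nat_lit 0) .nil) .nil))) 
(.lf (nat_lit 479168) (.g (nat_lit 419) (.e (nat_lit 5223) (nat_lit 296) (.e (nat_lit 163868) (nat_lit 2) (.e (nat_lit 196654) (nat_lit 11) .nil))) (.g (nat_lit 0) (.e (nat_lit 107188) (nat_lit 0) .nil) .nil))))))) (.nd (nat_lit 6) (.nd (nat_lit 7) (.nd (nat_lit 8) (.nd (nat_lit 9) 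
(.lf (nat_lit 478240) (.g (nat_lit 3630) (.e (nat_lit 2057) (nat_lit 142) (.e (nat_lit 704589) (nat_lit 3) (.e (nat_lit 163976) (nat_lit 30) (.e (nat_lit 573492) (nat_lit 15) (.e (nat_lit 81956) (nat_lit 23) (.e (nat_lit 98356) (nat_lit 26) (.e (nat_lit 426416) (nat_lit 15) .nil))))))) (.g (nat_lit 1) (.e (nat_lit 104038) (nat_lit 0) .nil) .nil))) 
(.lf (nat_lit 478752) (.g (nat_lit 3599) (.e (nat_lit 2059) (nat_lit 142) (.e (nat_lit 704589) (nat_lit 3) (.e (nat_lit 163979) (nat_lit 30) (.e (nat_lit 573492) (nat_lit 15) (.e (nat_lit 81956) (nat_lit 23) (.e (nat_lit 98355) (nat_lit 26) (.e (nat_lit 426374) (nat_lit 15) .nil))))))) (.g (nat_lit 1) (.e (nat_lit 104668) (nat_lit 0) .nil) .nil)))) (.nd (nat_lit 9) 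
(.lf (nat_lit 478496) (.g (nat_lit 2081) (.e (nat_lit 2058) (nat_lit 142) (.e (nat_lit 704592) (nat_lit 4) (.e (nat_lit 172120) (nat_lit 12) (.e (nat_lit 475198) (nat_lit 40) (.e (nat_lit 704598) (nat_lit 6) (.e (nat_lit 188418) (nat_lit 0) .nil)))))) (.g (nat_lit 1) (.e (nat_lit 104349) (nat_lit 0) .nil) .nil))) 
(.lf (nat_lit 479008) (.g (nat_lit 4222) (.e (nat_lit 3978) (nat_lit 239) (.e (nat_lit 2628) (nat_lit 164) (.e (nat_lit 172126) (nat_lit 14) (.e (nat_lit 491540) (nat_lit 3) (.e (nat_lit 98373) (nat_lit 29) (.e (nat_lit 450567) (nat_lit 0) .nil)))))) (.g (nat_lit 1) (.e (nat_lit 105438) (nat_lit 0) .nil) .nil))))) (.nd (nat_lit 8) (.nd (nat_lit 9) 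
(.lf (nat_lit 478368) (.g (nat_lit 1805) (.e (nat_lit 2058) (nat_lit 142) (.e (nat_lit 704589) (nat_lit 3) (.e (nat_lit 163976) (nat_lit 30) (.e (nat_lit 573491) (nat_lit 15) (.e (nat_lit 81954) (nat_lit 23) (.e (nat_lit 98363) (nat_lit 26) (.e (nat_lit 426419) (nat_lit 15) .nil))))))) (.g (nat_lit 1) (.e (nat_lit 104203) (nat_lit 0) .nil) .nil))) 
(.lf (nat_lit 478880) (.g (nat_lit 2028) (.e (nat_lit 2174) (nat_lit 143) (.e (nat_lit 712745) (nat_lit 27) (.e (nat_lit 426347) (nat_lit 14) (.e (nat_lit 491556) (nat_lit 9) (.e (nat_lit 336429) (nat_lit 29) (.e (nat_lit 442379) (nat_lit 0) .nil)))))) (.g (nat_lit 1) (.e (nat_lit 105077) (nat_lit 0) .nil) .nil)))) (.nd (nat_lit 9) 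
(.lf (nat_lit 478624) (.g (nat_lit 3907) (.e (nat_lit 2059) (nat_lit 142) (.e (nat_lit 704589) (nat_lit 3) (.e (nat_lit 163976) (nat_lit 30) (.e (nat_lit 573491) (nat_lit 15) (.e (nat_lit 81954) (nat_lit 23) (.e (nat_lit 98356) (nat_lit 26) (.e (nat_lit 426374) (nat_lit 15) .nil))))))) (.g (nat_lit 1) (.e (nat_lit 104528) (nat_lit 0) .nil) .nil))) 
(.lf (nat_lit 479136) (.g (nat_lit 419) (.e (nat_lit 5048) (nat_lit 292) (.e (nat_lit 2652) (nat_lit 166) (.e (nat_lit 188435) (nat_lit 20) (.e (nat_lit 3391) (nat_lit 210) .nil)))) (.g (nat_lit 0) (.e (nat_lit 106772) (nat_lit 0) .nil) .nil)))))) (.nd (nat_lit 7) (.nd (nat_lit 8) (.nd (nat_lit 9) 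
(.lf (nat_lit 478304) (.g (nat_lit 2352) (.e (nat_lit 2058) (nat_lit 142) (.e (nat_lit 704589) (nat_lit 3) (.e (nat_lit 163975) (nat_lit 30) (.e (nat_lit 573491) (nat_lit 15) (.e (nat_lit 81954) (nat_lit 23) (.e (nat_lit 98355) (nat_lit 26) (.e (nat_lit 426379) (nat_lit 15) .nil))))))) (.g (nat_lit 1) (.e (nat_lit 104131) (nat_lit 0) .nil) .nil))) 
(.lf (nat_lit 478816) (.g (nat_lit 2128) (.e (nat_lit 2077) (nat_lit 142) (.e (nat_lit 704734) (nat_lit 11) (.e (nat_lit 16416) (nat_lit 3) (.e (nat_lit 204861) (nat_lit 26) (.e (nat_lit 336075) (nat_lit 9) .nil))))) (.g (nat_lit 0) (.e (nat_lit 104800) (nat_lit 0) .nil) .nil)))) (.nd (nat_lit 9) 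
(.lf (nat_lit 478560) (.g (nat_lit 4618) (.e (nat_lit 2059) (nat_lit 142) (.e (nat_lit 704589) (nat_lit 3) (.e (nat_lit 163975) (nat_lit 30) (.e (nat_lit 573491) (nat_lit 15) (.e (nat_lit 81954) (nat_lit 23) (.e (nat_lit 98359) (nat_lit 26) (.e (nat_lit 426396) (nat_lit 15) .nil))))))) (.g (nat_lit 1) (.e (nat_lit 104447) (nat_lit 0) .nil) .nil))) 
(.lf (nat_lit 479072) (.g (nat_lit 490) (.e (nat_lit 4539) (nat_lit 267) (.e (nat_lit 163871) (nat_lit 2) (.e (nat_lit 196656) (nat_lit 11) .nil))) (.g (nat_lit 0) (.e (nat_lit 106153) (nat_lit 0) .nil) .nil))))) (.nd (nat_lit 8) (.nd (nat_lit 9) 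
(.lf (nat_lit 478432) (.g (nat_lit 3523) (.e (nat_lit 2058) (nat_lit 142) (.e (nat_lit 704589) (nat_lit 3) (.e (nat_lit 163979) (nat_lit 30) (.e (nat_lit 573482) (nat_lit 13) (.e (nat_lit 65619) (nat_lit 10) (.e (nat_lit 344117) (nat_lit 21) (.e (nat_lit 516147) (nat_lit 9) (.e (nat_lit 426376) (nat_lit 15) .nil)))))))) (.g (nat_lit 1) (.e (nat_lit 104272) (nat_lit 0) .nil) .nil))) 
(.lf (nat_lit 478944) (.g (nat_lit 2781) (.e (nat_lit 2175) (nat_lit 143) (.e (nat_lit 712722) (nat_lit 15) (.e (nat_lit 3302) (nat_lit 202) (.e (nat_lit 573484) (nat_lit 13) (.e (nat_lit 65610) (nat_lit 10) (.e (nat_lit 344117) (nat_lit 21) (.e (nat_lit 516151) (nat_lit 9) (.e (nat_lit 426396) (nat_lit 15) .nil)))))))) (.g (nat_lit 1) (.e (nat_lit 105145) (nat_lit 0) .nil) .nil)))) 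
(.nd (nat_lit 9) 
(.lf (nat_lit 478688) (.g (nat_lit 4237) (.e (nat_lit 2059) (nat_lit 142) (.e (nat_lit 704589) (nat_lit 3) (.e (nat_lit 163978) (nat_lit 30) (.e (nat_lit 573485) (nat_lit 13) (.e (nat_lit 65619) (nat_lit 10) (.e (nat_lit 344117) (nat_lit 21) (.e (nat_lit 516152) (nat_lit 9) (.e (nat_lit 426396) (nat_lit 15) .nil)))))))) (.g (nat_lit 1) (.e (nat_lit 104603) (nat_lit 0) .nil) .nil))) 
(.lf (nat_lit 479200) (.g (nat_lit 735) (.e (nat_lit 5223) (nat_lit 296) (.e (nat_lit 163903) (nat_lit 12) (.e (nat_lit 426479) (nat_lit 27) .nil))) (.g (nat_lit 0) (.e (nat_lit 107292) (nat_lit 0) .nil) .nil)))))))) (.nd (nat_lit 5) (.nd (nat_lit 6) (.nd (nat_lit 7) (.nd (nat_lit 8) (.nd (nat_lit 9) 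
(.lf (nat_lit 478224) (.g (nat_lit 3647) (.e (nat_lit 2057) (nat_lit 142) (.e (nat_lit 704589) (nat_lit 3) (.e (nat_lit 163975) (nat_lit 30) (.e (nat_lit 573491) (nat_lit 15) (.e (nat_lit 81951) (nat_lit 22) (.e (nat_lit 90170) (nat_lit 13) (.e (nat_lit 172138) (nat_lit 15) .nil))))))) (.g (nat_lit 1) (.e (nat_lit 104021) (nat_lit 0) .nil) .nil))) 
(.lf (nat_lit 478736) (.g (nat_lit 4636) (.e (nat_lit 2059) (nat_lit 142) (.e (nat_lit 704589) (nat_lit 3) (.e (nat_lit 163979) (nat_lit 30) (.e (nat_lit 573491) (nat_lit 15) (.e (nat_lit 81954) (nat_lit 23) (.e (nat_lit 98356) (nat_lit 26) (.e (nat_lit 426374) (nat_lit 15) .nil))))))) (.g (nat_lit 1) (.e (nat_lit 104651) (nat_lit 0) .nil) .nil)))) (.nd (nat_lit 9) 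
(.lf (nat_lit 478480) (.g (nat_lit 5237) (.e (nat_lit 2058) (nat_lit 142) (.e (nat_lit 704589) (nat_lit 3) (.e (nat_lit 163979) (nat_lit 30) (.e (nat_lit 573493) (nat_lit 15) (.e (nat_lit 81956) (nat_lit 23) (.e (nat_lit 98356) (nat_lit 26) (.e (nat_lit 426376) (nat_lit 15) .nil))))))) (.g (nat_lit 1) (.e (nat_lit 104322) (nat_lit 0) .nil) .nil))) 
(.lf (nat_lit 478992) (.g (nat_lit 1630) (.e (nat_lit 2198) (nat_lit 144) (.e (nat_lit 720941) (nat_lit 22) (.e (nat_lit 90174) (nat_lit 14) (.e (nat_lit 180243) (nat_lit 5) (.e (nat_lit 532501) (nat_lit 1) .nil))))) (.g (nat_lit 0) (.e (nat_lit 105237) (nat_lit 0) .nil) .nil))))) (.nd (nat_lit 8) (.nd (nat_lit 9) 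
(.lf (nat_lit 478352) (.g (nat_lit 1971) (.e (nat_lit 2058) (nat_lit 142) (.e (nat_lit 704589) (nat_lit 3) (.e (nat_lit 163976) (nat_lit 30) (.e (nat_lit 573491) (nat_lit 15) (.e (nat_lit 81954) (nat_lit 23) (.e (nat_lit 98355) (nat_lit 26) (.e (nat_lit 426374) (nat_lit 15) .nil))))))) (.g (nat_lit 1) (.e (nat_lit 104187) (nat_lit 0) .nil) .nil))) 
(.lf (nat_lit 478864) (.g (nat_lit 2859) (.e (nat_lit 2156) (nat_lit 142) (.e (nat_lit 704738) (nat_lit 11) (.e (nat_lit 16425) (nat_lit 7) (.e (nat_lit 409649) (nat_lit 18) (.e (nat_lit 303140) (nat_lit 10) .nil))))) (.g (nat_lit 0) (.e (nat_lit 105022) (nat_lit 0) .nil) .nil)))) (.nd (nat_lit 9) 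
(.lf (nat_lit 478608) (.g (nat_lit 3598) (.e (nat_lit 2059) (nat_lit 142) (.e (nat_lit 704589) (nat_lit 3) (.e (nat_lit 163976) (nat_lit 30) (.e (nat_lit 573481) (nat_lit 13) (.e (nat_lit 65619) (nat_lit 10) (.e (nat_lit 344117) (nat_lit 21) (.e (nat_lit 516144) (nat_lit 9) (.e (nat_lit 426420) (nat_lit 15) .nil)))))))) (.g (nat_lit 1) (.e (nat_lit 104512) (nat_lit 0) .nil) .nil))) 
(.lf (nat_lit 479120) (.g (nat_lit 2745) (.e (nat_lit 4931) (nat_lit 287) (.e (nat_lit 2797) (nat_lit 180) (.e (nat_lit 303145) (nat_lit 13) (.e (nat_lit 483405) (nat_lit 26) (.e (nat_lit 385096) (nat_lit 49) .nil))))) (.g (nat_lit 0) (.e (nat_lit 106573) (nat_lit 0) .nil) .nil)))))) (.nd (nat_lit 7) (.nd (nat_lit 8) (.nd (nat_lit 9) 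
(.lf (nat_lit 478288) (.g (nat_lit 5523) (.e (nat_lit 2058) (nat_lit 142) (.e (nat_lit 704589) (nat_lit 3) (.e (nat_lit 163975) (nat_lit 30) (.e (nat_lit 573481) (nat_lit 13) (.e (nat_lit 65604) (nat_lit 9) (.e (nat_lit 336013) (nat_lit 2) (.e (nat_lit 90170) (nat_lit 13) (.e (nat_lit 172136) (nat_lit 15) .nil)))))))) (.g (nat_lit 1) (.e (nat_lit 104115) (nat_lit 0) .nil) .nil))) 
(.lf (nat_lit 478800) (.g (nat_lit 3076) (.e (nat_lit 2059) (nat_lit 142) (.e (nat_lit 704598) (nat_lit 6) (.e (nat_lit 188453) (nat_lit 24) (.e (nat_lit 229678) (nat_lit 244) (.e (nat_lit 163919) (nat_lit 14) (.e (nat_lit 442374) (nat_lit 0) .nil)))))) (.g (nat_lit 1) (.e (nat_lit 104778) (nat_lit 0) .nil) .nil)))) (.nd (nat_lit 9) 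
(.lf (nat_lit 478544) (.g (nat_lit 3321) (.e (nat_lit 2059) (nat_lit 142) (.e (nat_lit 704589) (nat_lit 3) (.e (nat_lit 163975) (nat_lit 30) (.e (nat_lit 573481) (nat_lit 13) (.e (nat_lit 65619) (nat_lit 10) (.e (nat_lit 344117) (nat_lit 21) (.e (nat_lit 516152) (nat_lit 9) (.e (nat_lit 426411) (nat_lit 15) .nil)))))))) (.g (nat_lit 1) (.e (nat_lit 104431) (nat_lit 0) .nil) .nil))) 
(.lf (nat_lit 479056) (.g (nat_lit 3939) (.e (nat_lit 4506) (nat_lit 263) (.e (nat_lit 2619) (nat_lit 164) (.e (nat_lit 172064) (nat_lit 2) (.e (nat_lit 196666) (nat_lit 13) (.e (nat_lit 65610) (nat_lit 10) (.e (nat_lit 344117) (nat_lit 21) (.e (nat_lit 516099) (nat_lit 0) (.e (nat_lit 2497) (nat_lit 157) .nil)))))))) (.g (nat_lit 1) (.e (nat_lit 106069) (nat_lit 0) .nil) .nil))))) 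
(.nd (nat_lit 8) (.nd (nat_lit 9) 
(.lf (nat_lit 478416) (.g (nat_lit 2593) (.e (nat_lit 2058) (nat_lit 142) (.e (nat_lit 704589) (nat_lit 3) (.e (nat_lit 163979) (nat_lit 30) (.e (nat_lit 573481) (nat_lit 13) (.e (nat_lit 65604) (nat_lit 9) .nil))))) (.g (nat_lit 0) (.e (nat_lit 104256) (nat_lit 0) .nil) .nil))) 
(.lf (nat_lit 478928) (.g (nat_lit 2873) (.e (nat_lit 2174) (nat_lit 143) (.e (nat_lit 712752) (nat_lit 29) (.e (nat_lit 442421) (nat_lit 21) (.e (nat_lit 164347) (nat_lit 240) (.e (nat_lit 2650) (nat_lit 166) (.e (nat_lit 188419) (nat_lit 0) .nil)))))) (.g (nat_lit 1) (.e (nat_lit 105128) (nat_lit 0) .nil) .nil)))) (.nd (nat_lit 9) 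
(.lf (nat_lit 478672) (.g (nat_lit 3291) (.e (nat_lit 2059) (nat_lit 142) (.e (nat_lit 704589) (nat_lit 3) (.e (nat_lit 163978) (nat_lit 30) (.e (nat_lit 573485) (nat_lit 13) (.e (nat_lit 65604) (nat_lit 9) (.e (nat_lit 336028) (nat_lit 3) (.e (nat_lit 98363) (nat_lit 26) (.e (nat_lit 426419) (nat_lit 15) .nil)))))))) (.g (nat_lit 1) (.e (nat_lit 104586) (nat_lit 0) .nil) .nil))) 
(.lf (nat_lit 479184) (.g (nat_lit 2063) (.e (nat_lit 5223) (nat_lit 296) (.e (nat_lit 163871) (nat_lit 2) (.e (nat_lit 196656) (nat_lit 11) (.e (nat_lit 16463) (nat_lit 13) (.e (nat_lit 491264) (nat_lit 10) .nil))))) (.g (nat_lit 0) (.e (nat_lit 107260) (nat_lit 0) .nil) .nil))))))) (.nd (nat_lit 6) (.nd (nat_lit 7) (.nd (nat_lit 8) (.nd (nat_lit 9) 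
(.lf (nat_lit 478256) (.g (nat_lit 4364) (.e (nat_lit 2057) (nat_lit 142) (.e (nat_lit 704589) (nat_lit 3) (.e (nat_lit 163979) (nat_lit 30) (.e (nat_lit 573493) (nat_lit 15) (.e (nat_lit 81956) (nat_lit 23) (.e (nat_lit 98356) (nat_lit 26) (.e (nat_lit 426416) (nat_lit 15) .nil))))))) (.g (nat_lit 1) (.e (nat_lit 104054) (nat_lit 0) .nil) .nil))) 
(.lf (nat_lit 478768) (.g (nat_lit 4056) (.e (nat_lit 2059) (nat_lit 142) (.e (nat_lit 704589) (nat_lit 3) (.e (nat_lit 163979) (nat_lit 30) (.e (nat_lit 573493) (nat_lit 15) (.e (nat_lit 81956) (nat_lit 23) (.e (nat_lit 98355) (nat_lit 26) (.e (nat_lit 426374) (nat_lit 15) .nil))))))) (.g (nat_lit 1) (.e (nat_lit 104699) (nat_lit 0) .nil) .nil)))) (.nd (nat_lit 9) 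
(.lf (nat_lit 478512) (.g (nat_lit 2345) (.e (nat_lit 2058) (nat_lit 142) (.e (nat_lit 704598) (nat_lit 6) (.e (nat_lit 188446) (nat_lit 21) (.e (nat_lit 164347) (nat_lit 240) (.e (nat_lit 2650) (nat_lit 166) (.e (nat_lit 188419) (nat_lit 0) .nil)))))) (.g (nat_lit 1) (.e (nat_lit 104399) (nat_lit 0) .nil) .nil))) 
(.lf (nat_lit 479024) (.g (nat_lit 1951) (.e (nat_lit 3966) (nat_lit 239) (.e (nat_lit 2625) (nat_lit 164) (.e (nat_lit 172126) (nat_lit 14) (.e (nat_lit 491540) (nat_lit 3) (.e (nat_lit 98374) (nat_lit 29) .nil))))) (.g (nat_lit 0) (.e (nat_lit 105543) (nat_lit 0) .nil) .nil))))) (.nd (nat_lit 8) (.nd (nat_lit 9) 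
(.lf (nat_lit 478384) (.g (nat_lit 3787) (.e (nat_lit 2058) (nat_lit 142) (.e (nat_lit 704589) (nat_lit 3) (.e (nat_lit 163976) (nat_lit 30) (.e (nat_lit 573492) (nat_lit 15) (.e (nat_lit 81956) (nat_lit 23) (.e (nat_lit 98359) (nat_lit 26) (.e (nat_lit 426410) (nat_lit 15) .nil))))))) (.g (nat_lit 1) (.e (nat_lit 104221) (nat_lit 0) .nil) .nil))) 
(.lf (nat_lit 478896) (.g (nat_lit 2842) (.e (nat_lit 2174) (nat_lit 143) (.e (nat_lit 712745) (nat_lit 27) (.e (nat_lit 426347) (nat_lit 14) (.e (nat_lit 491570) (nat_lit 13) (.e (nat_lit 393281) (nat_lit 23) (.e (nat_lit 426387) (nat_lit 15) .nil)))))) (.g (nat_lit 1) (.e (nat_lit 105093) (nat_lit 0) .nil) .nil)))) (.nd (nat_lit 9) 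
(.lf (nat_lit 478640) (.g (nat_lit 4396) (.e (nat_lit 2059) (nat_lit 142) (.e (nat_lit 704589) (nat_lit 3) (.e (nat_lit 163976) (nat_lit 30) (.e (nat_lit 573492) (nat_lit 15) (.e (nat_lit 81951) (nat_lit 22) (.e (nat_lit 90169) (nat_lit 13) (.e (nat_lit 172133) (nat_lit 15) .nil))))))) (.g (nat_lit 1) (.e (nat_lit 104544) (nat_lit 0) .nil) .nil))) 
(.lf (nat_lit 479152) (.g (nat_lit 2017) (.e (nat_lit 5221) (nat_lit 296) (.e (nat_lit 163933) (nat_lit 17) (.e (nat_lit 466972) (nat_lit 21) (.e (nat_lit 164305) (nat_lit 226) (.e (nat_lit 7936) (nat_lit 90) .nil))))) (.g (nat_lit 0) (.e (nat_lit 107017) (nat_lit 0) .nil) .nil)))))) (.nd (nat_lit 7) (.nd (nat_lit 8) (.nd (nat_lit 9) 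
(.lf (nat_lit 478320) (.g (nat_lit 3903) (.e (nat_lit 2058) (nat_lit 142) (.e (nat_lit 704589) (nat_lit 3) (.e (nat_lit 163975) (nat_lit 30) (.e (nat_lit 573492) (nat_lit 15) (.e (nat_lit 81956) (nat_lit 23) (.e (nat_lit 98355) (nat_lit 26) (.e (nat_lit 426375) (nat_lit 15) .nil))))))) (.g (nat_lit 1) (.e (nat_lit 104152) (nat_lit 0) .nil) .nil))) 
(.lf (nat_lit 478832) (.g (nat_lit 2298) (.e (nat_lit 2146) (nat_lit 142) (.e (nat_lit 704591) (nat_lit 4) (.e (nat_lit 172126) (nat_lit 14) (.e (nat_lit 491550) (nat_lit 9) (.e (nat_lit 336430) (nat_lit 29) (.e (nat_lit 442376) (nat_lit 0) .nil)))))) (.g (nat_lit 1) (.e (nat_lit 104915) (nat_lit 0) .nil) .nil)))) (.nd (nat_lit 9) 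
(.lf (nat_lit 478576) (.g (nat_lit 2032) (.e (nat_lit 2059) (nat_lit 142) (.e (nat_lit 704589) (nat_lit 3) (.e (nat_lit 163975) (nat_lit 30) (.e (nat_lit 573492) (nat_lit 15) (.e (nat_lit 81954) (nat_lit 23) .nil))))) (.g (nat_lit 0) (.e (nat_lit 104475) (nat_lit 0) .nil) .nil))) 
(.lf (nat_lit 479088) (.g (nat_lit 1474) (.e (nat_lit 4764) (nat_lit 281) (.e (nat_lit 2425) (nat_lit 157) (.e (nat_lit 314) (nat_lit 23) (.e (nat_lit 352267) (nat_lit 0) (.e (nat_lit 3733) (nat_lit 228) .nil))))) (.g (nat_lit 0) (.e (nat_lit 106413) (nat_lit 0) .nil) .nil))))) (.nd (nat_lit 8) (.nd (nat_lit 9) 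
(.lf (nat_lit 478448) (.g (nat_lit 3599) (.e (nat_lit 2058) (nat_lit 142) (.e (nat_lit 704589) (nat_lit 3) (.e (nat_lit 163979) (nat_lit 30) (.e (nat_lit 573491) (nat_lit 15) (.e (nat_lit 81954) (nat_lit 23) (.e (nat_lit 98356) (nat_lit 26) (.e (nat_lit 426379) (nat_lit 15) .nil))))))) (.g (nat_lit 1) (.e (nat_lit 104288) (nat_lit 0) .nil) .nil))) 
(.lf (nat_lit 478960) (.g (nat_lit 3068) (.e (nat_lit 2175) (nat_lit 143) (.e (nat_lit 712745) (nat_lit 27) (.e (nat_lit 426347) (nat_lit 14) (.e (nat_lit 491571) (nat_lit 13) (.e (nat_lit 393275) (nat_lit 23) (.e (nat_lit 426411) (nat_lit 15) .nil)))))) (.g (nat_lit 1) (.e (nat_lit 105165) (nat_lit 0) .nil) .nil)))) (.nd (nat_lit 9) 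
(.lf (nat_lit 478704) (.g (nat_lit 3360) (.e (nat_lit 2059) (nat_lit 142) (.e (nat_lit 704589) (nat_lit 3) (.e (nat_lit 163979) (nat_lit 30) (.e (nat_lit 573482) (nat_lit 13) (.e (nat_lit 65604) (nat_lit 9) (.e (nat_lit 336028) (nat_lit 3) (.e (nat_lit 106240) (nat_lit 26) (.e (nat_lit 426391) (nat_lit 15) .nil)))))))) (.g (nat_lit 1) (.e (nat_lit 104619) (nat_lit 0) .nil) .nil))) 
(.lf (nat_lit 479216) (.g (nat_lit 323) (.e (nat_lit 5224) (nat_lit 296) (.e (nat_lit 163871) (nat_lit 2) (.e (nat_lit 196653) (nat_lit 11) .nil))) (.g (nat_lit 0) (.e (nat_lit 107444) (nat_lit 0) .nil) .nil))))))))) (.nd (nat_lit 4) (.nd (nat_lit 5) (.nd (nat_lit 6) (.nd (nat_lit 7) (.nd (nat_lit 8) (.nd (nat_lit 9) 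
(.lf (nat_lit 478216) (.g (nat_lit 3129) (.e (nat_lit 2056) (nat_lit 142) (.e (nat_lit 704598) (nat_lit 6) (.e (nat_lit 188453) (nat_lit 24) (.e (nat_lit 229663) (nat_lit 240) (.e (nat_lit 2651) (nat_lit 166) (.e (nat_lit 188420) (nat_lit 0) .nil)))))) (.g (nat_lit 1) (.e (nat_lit 104013) (nat_lit 0) .nil) .nil))) 
(.lf (nat_lit 478728) (.g (nat_lit 4017) (.e (nat_lit 2059) (nat_lit 142) (.e (nat_lit 704589) (nat_lit 3) (.e (nat_lit 163979) (nat_lit 30) (.e (nat_lit 573491) (nat_lit 15) (.e (nat_lit 81951) (nat_lit 22) (.e (nat_lit 90170) (nat_lit 13) (.e (nat_lit 172136) (nat_lit 15) .nil))))))) (.g (nat_lit 1) (.e (nat_lit 104643) (nat_lit 0) .nil) .nil)))) (.nd (nat_lit 9) 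
(.lf (nat_lit 478472) (.g (nat_lit 3727) (.e (nat_lit 2058) (nat_lit 142) (.e (nat_lit 704589) (nat_lit 3) (.e (nat_lit 163979) (nat_lit 30) (.e (nat_lit 573493) (nat_lit 15) (.e (nat_lit 81956) (nat_lit 23) (.e (nat_lit 98355) (nat_lit 26) (.e (nat_lit 426374) (nat_lit 15) .nil))))))) (.g (nat_lit 1) (.e (nat_lit 104314) (nat_lit 0) .nil) .nil))) 
(.lf (nat_lit 478984) (.g (nat_lit 2306) (.e (nat_lit 2175) (nat_lit 143) (.e (nat_lit 712755) (nat_lit 30) (.e (nat_lit 450564) (nat_lit 0) (.e (nat_lit 5546) (nat_lit 306) (.e (nat_lit 2648) (nat_lit 166) (.e (nat_lit 188420) (nat_lit 0) .nil)))))) (.g (nat_lit 1) (.e (nat_lit 105190) (nat_lit 0) .nil) .nil))))) (.nd (nat_lit 8) (.nd (nat_lit 9) 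
(.lf (nat_lit 478344) (.g (nat_lit 3352) (.e (nat_lit 2058) (nat_lit 142) (.e (nat_lit 704589) (nat_lit 3) (.e (nat_lit 163976) (nat_lit 30) (.e (nat_lit 573481) (nat_lit 13) (.e (nat_lit 65619) (nat_lit 10) (.e (nat_lit 344117) (nat_lit 21) (.e (nat_lit 516144) (nat_lit 9) (.e (nat_lit 426420) (nat_lit 15) .nil)))))))) (.g (nat_lit 1) (.e (nat_lit 104179) (nat_lit 0) .nil) .nil))) 
(.lf (nat_lit 478856) (.g (nat_lit 1408) (.e (nat_lit 2148) (nat_lit 142) (.e (nat_lit 704597) (nat_lit 6) (.e (nat_lit 188446) (nat_lit 21) (.e (nat_lit 164345) (nat_lit 240) (.e (nat_lit 2648) (nat_lit 166) (.e (nat_lit 188417) (nat_lit 0) .nil)))))) (.g (nat_lit 1) (.e (nat_lit 104999) (nat_lit 0) .nil) .nil)))) (.nd (nat_lit 9) 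
(.lf (nat_lit 478600) (.g (nat_lit 480) (.e (nat_lit 2059) (nat_lit 142) (.e (nat_lit 704589) (nat_lit 3) (.e (nat_lit 163976) (nat_lit 30) .nil))) (.g (nat_lit 0) (.e (nat_lit 104503) (nat_lit 0) .nil) .nil))) 
(.lf (nat_lit 479112) (.g (nat_lit 1635) (.e (nat_lit 4926) (nat_lit 287) (.e (nat_lit 2797) (nat_lit 180) (.e (nat_lit 303145) (nat_lit 13) (.e (nat_lit 483405) (nat_lit 26) .nil)))) (.g (nat_lit 0) (.e (nat_lit 106558) (nat_lit 0) .nil) .nil)))))) (.nd (nat_lit 7) (.nd (nat_lit 8) (.nd (nat_lit 9) 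
(.lf (nat_lit 478280) (.g (nat_lit 2857) (.e (nat_lit 2057) (nat_lit 142) (.e (nat_lit 704598) (nat_lit 6) (.e (nat_lit 188455) (nat_lit 24) (.e (nat_lit 229663) (nat_lit 240) (.e (nat_lit 2653) (nat_lit 166) (.e (nat_lit 188418) (nat_lit 0) .nil)))))) (.g (nat_lit 1) (.e (nat_lit 104104) (nat_lit 0) .nil) .nil))) 
(.lf (nat_lit 478792) (.g (nat_lit 150) (.e (nat_lit 2059) (nat_lit 142) (.e (nat_lit 704596) (nat_lit 5) (.e (nat_lit 180277) (nat_lit 32) .nil))) (.g (nat_lit 0) (.e (nat_lit 104767) (nat_lit 0) .nil) .nil)))) (.nd (nat_lit 9) 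
(.lf (nat_lit 478536) (.g (nat_lit 4439) (.e (nat_lit 2059) (nat_lit 142) (.e (nat_lit 704589) (nat_lit 3) (.e (nat_lit 163975) (nat_lit 30) (.e (nat_lit 573481) (nat_lit 13) (.e (nat_lit 65619) (nat_lit 10) (.e (nat_lit 344117) (nat_lit 21) (.e (nat_lit 516145) (nat_lit 9) (.e (nat_lit 426416) (nat_lit 15) .nil)))))))) (.g (nat_lit 1) (.e (nat_lit 104423) (nat_lit 0) .nil) .nil))) 
(.lf (nat_lit 479048) (.g (nat_lit 2442) (.e (nat_lit 4413) (nat_lit 259) (.e (nat_lit 57373) (nat_lit 2) (.e (nat_lit 90170) (nat_lit 13) (.e (nat_lit 172106) (nat_lit 10) (.e (nat_lit 434244) (nat_lit 28) (.e (nat_lit 573471) (nat_lit 11) (.e (nat_lit 16392) (nat_lit 0) (.e (nat_lit 2402) (nat_lit 157) .nil)))))))) (.g (nat_lit 1) (.e (nat_lit 106003) (nat_lit 0) .nil) .nil))))) 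
(.nd (nat_lit 8) (.nd (nat_lit 9) 
(.lf (nat_lit 478408) (.g (nat_lit 4794) (.e (nat_lit 2058) (nat_lit 142) (.e (nat_lit 704589) (nat_lit 3) (.e (nat_lit 163978) (nat_lit 30) (.e (nat_lit 573485) (nat_lit 13) (.e (nat_lit 65619) (nat_lit 10) (.e (nat_lit 344117) (nat_lit 21) (.e (nat_lit 516145) (nat_lit 9) (.e (nat_lit 426416) (nat_lit 15) .nil)))))))) (.g (nat_lit 1) (.e (nat_lit 104248) (nat_lit 0) .nil) .nil))) 
(.lf (nat_lit 478920) (.g (nat_lit 2362) (.e (nat_lit 2174) (nat_lit 143) (.e (nat_lit 712745) (nat_lit 27) (.e (nat_lit 426347) (nat_lit 14) (.e (nat_lit 491571) (nat_lit 13) (.e (nat_lit 393279) (nat_lit 23) (.e (nat_lit 426419) (nat_lit 15) .nil)))))) (.g (nat_lit 1) (.e (nat_lit 105117) (nat_lit 0) .nil) .nil)))) (.nd (nat_lit 9) 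
(.lf (nat_lit 478664) (.g (nat_lit 3279) (.e (nat_lit 2059) (nat_lit 142) (.e (nat_lit 704589) (nat_lit 3) (.e (nat_lit 163978) (nat_lit 30) (.e (nat_lit 573479) (nat_lit 13) (.e (nat_lit 65619) (nat_lit 10) (.e (nat_lit 344117) (nat_lit 21) (.e (nat_lit 516145) (nat_lit 9) (.e (nat_lit 426375) (nat_lit 15) .nil)))))))) (.g (nat_lit 1) (.e (nat_lit 104578) (nat_lit 0) .nil) .nil))) 
(.lf (nat_lit 479176) (.g (nat_lit 1603) (.e (nat_lit 5223) (nat_lit 296) (.e (nat_lit 163871) (nat_lit 2) (.e (nat_lit 196655) (nat_lit 11) (.e (nat_lit 16465) (nat_lit 13) (.e (nat_lit 483339) (nat_lit 9) (.e (nat_lit 426072) (nat_lit 0) (.e (nat_lit 2475) (nat_lit 157) .nil))))))) (.g (nat_lit 1) (.e (nat_lit 107234) (nat_lit 0) .nil) .nil))))))) 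
(.nd (nat_lit 6) (.nd (nat_lit 7) (.nd (nat_lit 8) (.nd (nat_lit 9) 
(.lf (nat_lit 478248) (.g (nat_lit 4413) (.e (nat_lit 2057) (nat_lit 142) (.e (nat_lit 704589) (nat_lit 3) (.e (nat_lit 163979) (nat_lit 30) (.e (nat_lit 573482) (nat_lit 13) (.e (nat_lit 65604) (nat_lit 9) (.e (nat_lit 336028) (nat_lit 3) (.e (nat_lit 98359) (nat_lit 26) (.e (nat_lit 426412) (nat_lit 15) .nil)))))))) (.g (nat_lit 1) (.e (nat_lit 104046) (nat_lit 0) .nil) .nil))) 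
(.lf (nat_lit 478760) (.g (nat_lit 5592) (.e (nat_lit 2059) (nat_lit 142) (.e (nat_lit 704589) (nat_lit 3) (.e (nat_lit 163979) (nat_lit 30) (.e (nat_lit 573493) (nat_lit 15) (.e (nat_lit 81951) (nat_lit 22) (.e (nat_lit 90167) (nat_lit 13) (.e (nat_lit 172133) (nat_lit 15) .nil))))))) (.g (nat_lit 1) (.e (nat_lit 104686) (nat_lit 0) .nil) .nil)))) (.nd (nat_lit 9) 
(.lf (nat_lit 478504) (.g (nat_lit 285) (.e (nat_lit 2058) (nat_lit 142) (.e (nat_lit 704595) (nat_lit 5) (.e (nat_lit 180278) (nat_lit 32) .nil))) (.g (nat_lit 0) (.e (nat_lit 104389) (nat_lit 0) .nil) .nil))) 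
(.lf (nat_lit 479016) (.g (nat_lit 4237) (.e (nat_lit 3991) (nat_lit 239) (.e (nat_lit 2638) (nat_lit 165) (.e (nat_lit 180277) (nat_lit 32) (.e (nat_lit 1253) (nat_lit 92) (.e (nat_lit 98373) (nat_lit 29) (.e (nat_lit 450560) (nat_lit 0) .nil)))))) (.g (nat_lit 1) (.e (nat_lit 105512) (nat_lit 0) .nil) .nil))))) (.nd (nat_lit 8) (.nd (nat_lit 9) 
(.lf (nat_lit 478376) (.g (nat_lit 2998) (.e (nat_lit 2058) (nat_lit 142) (.e (nat_lit 704589) (nat_lit 3) (.e (nat_lit 163976) (nat_lit 30) (.e (nat_lit 573492) (nat_lit 15) (.e (nat_lit 81956) (nat_lit 23) (.e (nat_lit 98355) (nat_lit 26) (.e (nat_lit 426420) (nat_lit 15) .nil))))))) (.g (nat_lit 1) (.e (nat_lit 104213) (nat_lit 0) .nil) .nil))) 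
(.lf (nat_lit 478888) (.g (nat_lit 2996) (.e (nat_lit 2174) (nat_lit 143) (.e (nat_lit 712745) (nat_lit 27) (.e (nat_lit 426347) (nat_lit 14) (.e (nat_lit 491570) (nat_lit 13) (.e (nat_lit 393271) (nat_lit 23) (.e (nat_lit 426393) (nat_lit 15) .nil)))))) (.g (nat_lit 1) (.e (nat_lit 105085) (nat_lit 0) .nil) .nil)))) (.nd (nat_lit 9) 
(.lf (nat_lit 478632) (.g (nat_lit 2578) (.e (nat_lit 2059) (nat_lit 142) (.e (nat_lit 704589) (nat_lit 3) (.e (nat_lit 163976) (nat_lit 30) (.e (nat_lit 573491) (nat_lit 15) (.e (nat_lit 81954) (nat_lit 23) (.e (nat_lit 98360) (nat_lit 26) (.e (nat_lit 426396) (nat_lit 15) .nil))))))) (.g (nat_lit 1) (.e (nat_lit 104536) (nat_lit 0) .nil) .nil))) 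
(.lf (nat_lit 479144) (.g (nat_lit 1435) (.e (nat_lit 5170) (nat_lit 292) (.e (nat_lit 2649) (nat_lit 166) (.e (nat_lit 188434) (nat_lit 20) (.e (nat_lit 3390) (nat_lit 210) .nil)))) (.g (nat_lit 0) (.e (nat_lit 106930) (nat_lit 0) .nil) .nil)))))) (.nd (nat_lit 7) (.nd (nat_lit 8) (.nd (nat_lit 9) 
(.lf (nat_lit 478312) (.g (nat_lit 3562) (.e (nat_lit 2058) (nat_lit 142) (.e (nat_lit 704589) (nat_lit 3) (.e (nat_lit 163975) (nat_lit 30) (.e (nat_lit 573491) (nat_lit 15) (.e (nat_lit 81954) (nat_lit 23) (.e (nat_lit 98359) (nat_lit 26) (.e (nat_lit 426410) (nat_lit 15) .nil))))))) (.g (nat_lit 1) (.e (nat_lit 104139) (nat_lit 0) .nil) .nil))) 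
(.lf (nat_lit 478824) (.g (nat_lit 2055) (.e (nat_lit 2095) (nat_lit 142) (.e (nat_lit 704734) (nat_lit 11) (.e (nat_lit 16416) (nat_lit 3) (.e (nat_lit 204861) (nat_lit 26) (.e (nat_lit 336075) (nat_lit 9) .nil))))) (.g (nat_lit 0) (.e (nat_lit 104814) (nat_lit 0) .nil) .nil)))) (.nd (nat_lit 9) 
(.lf (nat_lit 478568) (.g (nat_lit 3066) (.e (nat_lit 2059) (nat_lit 142) (.e (nat_lit 704589) (nat_lit 3) (.e (nat_lit 163975) (nat_lit 30) (.e (nat_lit 573491) (nat_lit 15) (.e (nat_lit 81954) (nat_lit 23) (.e (nat_lit 98365) (nat_lit 26) (.e (nat_lit 426413) (nat_lit 15) .nil))))))) (.g (nat_lit 1) (.e (nat_lit 104455) (nat_lit 0) .nil) .nil))) 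
(.lf (nat_lit 479080) (.g (nat_lit 3152) (.e (nat_lit 4539) (nat_lit 267) (.e (nat_lit 163871) (nat_lit 2) (.e (nat_lit 196656) (nat_lit 11) (.e (nat_lit 16473) (nat_lit 14) (.e (nat_lit 499456) (nat_lit 27) .nil))))) (.g (nat_lit 0) (.e (nat_lit 106161) (nat_lit 0) .nil) .nil))))) (.nd (nat_lit 8) (.nd (nat_lit 9) 
(.lf (nat_lit 478440) (.g (nat_lit 2851) (.e (nat_lit 2058) (nat_lit 142) (.e (nat_lit 704589) (nat_lit 3) (.e (nat_lit 163979) (nat_lit 30) (.e (nat_lit 573491) (nat_lit 15) (.e (nat_lit 81954) (nat_lit 23) (.e (nat_lit 98355) (nat_lit 26) (.e (nat_lit 426375) (nat_lit 15) .nil))))))) (.g (nat_lit 1) (.e (nat_lit 104280) (nat_lit 0) .nil) .nil))) 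
(.lf (nat_lit 478952) (.g (nat_lit 3099) (.e (nat_lit 2175) (nat_lit 143) (.e (nat_lit 712745) (nat_lit 27) (.e (nat_lit 426347) (nat_lit 14) (.e (nat_lit 491571) (nat_lit 13) (.e (nat_lit 393268) (nat_lit 23) (.e (nat_lit 426416) (nat_lit 15) .nil)))))) (.g (nat_lit 1) (.e (nat_lit 105157) (nat_lit 0) .nil) .nil)))) (.nd (nat_lit 9) 
(.lf (nat_lit 478696) (.g (nat_lit 3002) (.e (nat_lit 2059) (nat_lit 142) (.e (nat_lit 704589) (nat_lit 3) (.e (nat_lit 163979) (nat_lit 30) (.e (nat_lit 573481) (nat_lit 13) (.e (nat_lit 65619) (nat_lit 10) (.e (nat_lit 344117) (nat_lit 21) (.e (nat_lit 516151) (nat_lit 9) (.e (nat_lit 426412) (nat_lit 15) .nil)))))))) (.g (nat_lit 1) (.e (nat_lit 104611) (nat_lit 0) .nil) .nil))) 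
(.lf (nat_lit 479208) (.g (nat_lit 1384) (.e (nat_lit 5224) (nat_lit 296) (.e (nat_lit 163868) (nat_lit 2) (.e (nat_lit 196654) (nat_lit 11) (.e (nat_lit 16466) (nat_lit 13) (.e (nat_lit 491264) (nat_lit 10) (.e (nat_lit 434211) (nat_lit 18) .nil)))))) (.g (nat_lit 1) (.e (nat_lit 107401) (nat_lit 0) .nil) .nil)))))))) 
(.nd (nat_lit 5) (.nd (nat_lit 6) (.nd (nat_lit 7) (.nd (nat_lit 8) (.nd (nat_lit 9) 
(.lf (nat_lit 478232) (.g (nat_lit 3893) (.e (nat_lit 2057) (nat_lit 142) (.e (nat_lit 704589) (nat_lit 3) (.e (nat_lit 163975) (nat_lit 30) (.e (nat_lit 573492) (nat_lit 15) (.e (nat_lit 81956) (nat_lit 23) (.e (nat_lit 98359) (nat_lit 26) (.e (nat_lit 426412) (nat_lit 15) .nil))))))) (.g (nat_lit 1) (.e (nat_lit 104030) (nat_lit 0) .nil) .nil))) 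
(.lf (nat_lit 478744) (.g (nat_lit 3188) (.e (nat_lit 2059) (nat_lit 142) (.e (nat_lit 704589) (nat_lit 3) (.e (nat_lit 163979) (nat_lit 30) (.e (nat_lit 573491) (nat_lit 15) (.e (nat_lit 81954) (nat_lit 23) (.e (nat_lit 98360) (nat_lit 26) (.e (nat_lit 426396) (nat_lit 15) .nil))))))) (.g (nat_lit 1) (.e (nat_lit 104659) (nat_lit 0) .nil) .nil)))) (.nd (nat_lit 9) 
(.lf (nat_lit 478488) (.g (nat_lit 4539) (.e (nat_lit 2058) (nat_lit 142) (.e (nat_lit 704589) (nat_lit 3) (.e (nat_lit 163979) (nat_lit 30) (.e (nat_lit 573493) (nat_lit 15) (.e (nat_lit 81956) (nat_lit 23) (.e (nat_lit 98360) (nat_lit 26) (.e (nat_lit 426410) (nat_lit 15) .nil))))))) (.g (nat_lit 1) (.e (nat_lit 104330) (nat_lit 0) .nil) .nil))) 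
(.lf (nat_lit 479000) (.g (nat_lit 2554) (.e (nat_lit 3929) (nat_lit 239) (.e (nat_lit 2641) (nat_lit 165) (.e (nat_lit 180278) (nat_lit 32) (.e (nat_lit 1253) (nat_lit 92) (.e (nat_lit 98373) (nat_lit 29) (.e (nat_lit 458496) (nat_lit 0) .nil)))))) (.g (nat_lit 1) (.e (nat_lit 105337) (nat_lit 0) .nil) .nil))))) (.nd (nat_lit 8) (.nd (nat_lit 9) 
(.lf (nat_lit 478360) (.g (nat_lit 3676) (.e (nat_lit 2058) (nat_lit 142) (.e (nat_lit 704589) (nat_lit 3) (.e (nat_lit 163976) (nat_lit 30) (.e (nat_lit 573491) (nat_lit 15) (.e (nat_lit 81954) (nat_lit 23) (.e (nat_lit 98356) (nat_lit 26) (.e (nat_lit 426376) (nat_lit 15) .nil))))))) (.g (nat_lit 1) (.e (nat_lit 104195) (nat_lit 0) .nil) .nil))) 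
(.lf (nat_lit 478872) (.g (nat_lit 2975) (.e (nat_lit 2160) (nat_lit 143) (.e (nat_lit 712755) (nat_lit 30) (.e (nat_lit 450565) (nat_lit 0) (.e (nat_lit 5548) (nat_lit 306) (.e (nat_lit 2650) (nat_lit 166) (.e (nat_lit 188419) (nat_lit 0) .nil)))))) (.g (nat_lit 1) (.e (nat_lit 105040) (nat_lit 0) .nil) .nil)))) (.nd (nat_lit 9) 
(.lf (nat_lit 478616) (.g (nat_lit 2952) (.e (nat_lit 2059) (nat_lit 142) (.e (nat_lit 704589) (nat_lit 3) (.e (nat_lit 163976) (nat_lit 30) (.e (nat_lit 573481) (nat_lit 13) (.e (nat_lit 65619) (nat_lit 10) (.e (nat_lit 344117) (nat_lit 21) (.e (nat_lit 516152) (nat_lit 9) (.e (nat_lit 426411) (nat_lit 15) .nil)))))))) (.g (nat_lit 1) (.e (nat_lit 104520) (nat_lit 0) .nil) .nil))) 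
(.lf (nat_lit 479128) (.g (nat_lit 1568) (.e (nat_lit 4981) (nat_lit 287) (.e (nat_lit 2798) (nat_lit 180) (.e (nat_lit 303145) (nat_lit 13) (.e (nat_lit 483382) (nat_lit 23) .nil)))) (.g (nat_lit 0) (.e (nat_lit 106658) (nat_lit 0) .nil) .nil)))))) (.nd (nat_lit 7) (.nd (nat_lit 8) (.nd (nat_lit 9) 
(.lf (nat_lit 478296) (.g (nat_lit 3114) (.e (nat_lit 2058) (nat_lit 142) (.e (nat_lit 704589) (nat_lit 3) (.e (nat_lit 163975) (nat_lit 30) (.e (nat_lit 573481) (nat_lit 13) (.e (nat_lit 65619) (nat_lit 10) (.e (nat_lit 344117) (nat_lit 21) (.e (nat_lit 516147) (nat_lit 9) (.e (nat_lit 426376) (nat_lit 15) .nil)))))))) (.g (nat_lit 1) (.e (nat_lit 104123) (nat_lit 0) .nil) .nil))) 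
(.lf (nat_lit 478808) (.g (nat_lit 3585) (.e (nat_lit 2061) (nat_lit 142) (.e (nat_lit 704589) (nat_lit 3) (.e (nat_lit 163976) (nat_lit 30) (.e (nat_lit 573492) (nat_lit 15) (.e (nat_lit 81956) (nat_lit 23) (.e (nat_lit 98356) (nat_lit 26) (.e (nat_lit 426363) (nat_lit 15) .nil))))))) (.g (nat_lit 1) (.e (nat_lit 104787) (nat_lit 0) .nil) .nil)))) (.nd (nat_lit 9) 
(.lf (nat_lit 478552) (.g (nat_lit 2121) (.e (nat_lit 2059) (nat_lit 142) (.e (nat_lit 704589) (nat_lit 3) (.e (nat_lit 163975) (nat_lit 30) (.e (nat_lit 573491) (nat_lit 15) (.e (nat_lit 81954) (nat_lit 23) (.e (nat_lit 98355) (nat_lit 26) (.e (nat_lit 426376) (nat_lit 15) .nil))))))) (.g (nat_lit 1) (.e (nat_lit 104439) (nat_lit 0) .nil) .nil))) 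
(.lf (nat_lit 479064) (.g (nat_lit 4408) (.e (nat_lit 4516) (nat_lit 263) (.e (nat_lit 2629) (nat_lit 164) (.e (nat_lit 172064) (nat_lit 2) (.e (nat_lit 196666) (nat_lit 13) (.e (nat_lit 65610) (nat_lit 10) (.e (nat_lit 344117) (nat_lit 21) (.e (nat_lit 516106) (nat_lit 0) (.e (nat_lit 2425) (nat_lit 157) .nil)))))))) (.g (nat_lit 1) (.e (nat_lit 106117) (nat_lit 0) .nil) .nil))))) 
(.nd (nat_lit 8) (.nd (nat_lit 9) 
(.lf (nat_lit 478424) (.g (nat_lit 4472) (.e (nat_lit 2058) (nat_lit 142) (.e (nat_lit 704589) (nat_lit 3) (.e (nat_lit 163979) (nat_lit 30) (.e (nat_lit 573482) (nat_lit 13) (.e (nat_lit 65619) (nat_lit 10) (.e (nat_lit 344117) (nat_lit 21) (.e (nat_lit 516144) (nat_lit 9) (.e (nat_lit 426376) (nat_lit 15) .nil)))))))) (.g (nat_lit 1) (.e (nat_lit 104264) (nat_lit 0) .nil) .nil))) 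
(.lf (nat_lit 478936) (.g (nat_lit 316) (.e (nat_lit 2174) (nat_lit 143) (.e (nat_lit 712753) (nat_lit 30) (.e (nat_lit 458496) (nat_lit 0) .nil))) (.g (nat_lit 0) (.e (nat_lit 105136) (nat_lit 0) .nil) .nil)))) (.nd (nat_lit 9) 
(.lf (nat_lit 478680) (.g (nat_lit 4350) (.e (nat_lit 2059) (nat_lit 142) (.e (nat_lit 704589) (nat_lit 3) (.e (nat_lit 163978) (nat_lit 30) (.e (nat_lit 573485) (nat_lit 13) (.e (nat_lit 65619) (nat_lit 10) (.e (nat_lit 344117) (nat_lit 21) (.e (nat_lit 516145) (nat_lit 9) (.e (nat_lit 426416) (nat_lit 15) .nil)))))))) (.g (nat_lit 1) (.e (nat_lit 104595) (nat_lit 0) .nil) .nil))) 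
(.lf (nat_lit 479192) (.g (nat_lit 2368) (.e (nat_lit 5223) (nat_lit 296) (.e (nat_lit 163881) (nat_lit 4) (.e (nat_lit 213032) (nat_lit 11) (.e (nat_lit 24660) (nat_lit 13) (.e (nat_lit 393282) (nat_lit 24) (.e (nat_lit 434209) (nat_lit 18) .nil)))))) (.g (nat_lit 1) (.e (nat_lit 107283) (nat_lit 0) .nil) .nil))))))) (.nd (nat_lit 6) (.nd (nat_lit 7) (.nd (nat_lit 8) (.nd (nat_lit 9) 
(.lf (nat_lit 478264) (.g (nat_lit 2681) (.e (nat_lit 2057) (nat_lit 142) (.e (nat_lit 704595) (nat_lit 5) (.e (nat_lit 180278) (nat_lit 32) (.e (nat_lit 1428) (nat_lit 108) (.e (nat_lit 336430) (nat_lit 29) (.e (nat_lit 442379) (nat_lit 0) .nil)))))) (.g (nat_lit 1) (.e (nat_lit 104069) (nat_lit 0) .nil) .nil))) 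
(.lf (nat_lit 478776) (.g (nat_lit 5081) (.e (nat_lit 2059) (nat_lit 142) (.e (nat_lit 704589) (nat_lit 3) (.e (nat_lit 163979) (nat_lit 30) (.e (nat_lit 573493) (nat_lit 15) (.e (nat_lit 81956) (nat_lit 23) (.e (nat_lit 98356) (nat_lit 26) (.e (nat_lit 426416) (nat_lit 15) .nil))))))) (.g (nat_lit 1) (.e (nat_lit 104707) (nat_lit 0) .nil) .nil)))) (.nd (nat_lit 9) 
(.lf (nat_lit 478520) (.g (nat_lit 546) (.e (nat_lit 2059) (nat_lit 142) (.e (nat_lit 704589) (nat_lit 3) (.e (nat_lit 163975) (nat_lit 30) .nil))) (.g (nat_lit 0) (.e (nat_lit 104407) (nat_lit 0) .nil) .nil))) 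
(.lf (nat_lit 479032) (.g (nat_lit 1788) (.e (nat_lit 4120) (nat_lit 245) (.e (nat_lit 1220) (nat_lit 90) (.e (nat_lit 81938) (nat_lit 20) (.e (nat_lit 2391) (nat_lit 156) (.e (nat_lit 819203) (nat_lit 0) .nil))))) (.g (nat_lit 0) (.e (nat_lit 105873) (nat_lit 0) .nil) .nil))))) (.nd (nat_lit 8) (.nd (nat_lit 9) 
(.lf (nat_lit 478392) (.g (nat_lit 3010) (.e (nat_lit 2058) (nat_lit 142) (.e (nat_lit 704589) (nat_lit 3) (.e (nat_lit 163978) (nat_lit 30) (.e (nat_lit 573479) (nat_lit 13) (.e (nat_lit 65619) (nat_lit 10) (.e (nat_lit 344117) (nat_lit 21) (.e (nat_lit 516151) (nat_lit 9) (.e (nat_lit 426410) (nat_lit 15) .nil)))))))) (.g (nat_lit 1) (.e (nat_lit 104232) (nat_lit 0) .nil) .nil))) 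
(.lf (nat_lit 478904) (.g (nat_lit 3437) (.e (nat_lit 2174) (nat_lit 143) (.e (nat_lit 712745) (nat_lit 27) (.e (nat_lit 426347) (nat_lit 14) (.e (nat_lit 491571) (nat_lit 13) (.e (nat_lit 393269) (nat_lit 23) (.e (nat_lit 426375) (nat_lit 15) .nil)))))) (.g (nat_lit 1) (.e (nat_lit 105101) (nat_lit 0) .nil) .nil)))) (.nd (nat_lit 9) 
(.lf (nat_lit 478648) (.g (nat_lit 3239) (.e (nat_lit 2059) (nat_lit 142) (.e (nat_lit 704589) (nat_lit 3) (.e (nat_lit 163976) (nat_lit 30) (.e (nat_lit 573492) (nat_lit 15) (.e (nat_lit 81956) (nat_lit 23) (.e (nat_lit 98355) (nat_lit 26) (.e (nat_lit 426420) (nat_lit 15) .nil))))))) (.g (nat_lit 1) (.e (nat_lit 104558) (nat_lit 0) .nil) .nil))) 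
(.lf (nat_lit 479160) (.g (nat_lit 1162) (.e (nat_lit 5222) (nat_lit 296) (.e (nat_lit 163903) (nat_lit 12) (.e (nat_lit 426479) (nat_lit 27) (.e (nat_lit 336434) (nat_lit 30) (.e (nat_lit 450586) (nat_lit 10) (.e (nat_lit 573478) (nat_lit 12) (.e (nat_lit 65280) (nat_lit 0) .nil))))))) (.g (nat_lit 1) (.e (nat_lit 107064) (nat_lit 0) .nil) .nil)))))) 
(.nd (nat_lit 7) (.nd (nat_lit 8) (.nd (nat_lit 9) 
(.lf (nat_lit 478328) (.g (nat_lit 4798) (.e (nat_lit 2058) (nat_lit 142) (.e (nat_lit 704589) (nat_lit 3) (.e (nat_lit 163975) (nat_lit 30) (.e (nat_lit 573492) (nat_lit 15) (.e (nat_lit 81956) (nat_lit 23) (.e (nat_lit 98356) (nat_lit 26) (.e (nat_lit 426393) (nat_lit 15) .nil))))))) (.g (nat_lit 1) (.e (nat_lit 104160) (nat_lit 0) .nil) .nil))) 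
(.lf (nat_lit 478840) (.g (nat_lit 1380) (.e (nat_lit 2147) (nat_lit 142) (.e (nat_lit 704597) (nat_lit 6) (.e (nat_lit 188441) (nat_lit 20) (.e (nat_lit 3408) (nat_lit 212) (.e (nat_lit 655380) (nat_lit 6) (.e (nat_lit 188417) (nat_lit 0) .nil)))))) (.g (nat_lit 1) (.e (nat_lit 104973) (nat_lit 0) .nil) .nil)))) (.nd (nat_lit 9) 
(.lf (nat_lit 478584) (.g (nat_lit 3925) (.e (nat_lit 2059) (nat_lit 142) (.e (nat_lit 704589) (nat_lit 3) (.e (nat_lit 163975) (nat_lit 30) (.e (nat_lit 573492) (nat_lit 15) (.e (nat_lit 81956) (nat_lit 23) (.e (nat_lit 98355) (nat_lit 26) (.e (nat_lit 426420) (nat_lit 15) .nil))))))) (.g (nat_lit 1) (.e (nat_lit 104483) (nat_lit 0) .nil) .nil))) 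
(.lf (nat_lit 479096) (.g (nat_lit 2376) (.e (nat_lit 4848) (nat_lit 285) (.e (nat_lit 163869) (nat_lit 2) (.e (nat_lit 196666) (nat_lit 13) (.e (nat_lit 65610) (nat_lit 10) (.e (nat_lit 344117) (nat_lit 21) (.e (nat_lit 516145) (nat_lit 9) (.e (nat_lit 425986) (nat_lit 0) (.e (nat_lit 2430) (nat_lit 157) .nil)))))))) (.g (nat_lit 1) (.e (nat_lit 106468) (nat_lit 0) .nil) .nil))))) 
(.nd (nat_lit 8) (.nd (nat_lit 9) 
(.lf (nat_lit 478456) (.g (nat_lit 2839) (.e (nat_lit 2058) (nat_lit 142) (.e (nat_lit 704589) (nat_lit 3) (.e (nat_lit 163979) (nat_lit 30) (.e (nat_lit 573491) (nat_lit 15) (.e (nat_lit 81954) (nat_lit 23) (.e (nat_lit 98362) (nat_lit 26) (.e (nat_lit 426411) (nat_lit 15) .nil))))))) (.g (nat_lit 1) (.e (nat_lit 104296) (nat_lit 0) .nil) .nil))) 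
(.lf (nat_lit 478968) (.g (nat_lit 1072) (.e (nat_lit 2175) (nat_lit 143) (.e (nat_lit 712752) (nat_lit 29) (.e (nat_lit 442421) (nat_lit 21) (.e (nat_lit 164345) (nat_lit 240) .nil)))) (.g (nat_lit 0) (.e (nat_lit 105173) (nat_lit 0) .nil) .nil)))) (.nd (nat_lit 9) 
(.lf (nat_lit 478712) (.g (nat_lit 4249) (.e (nat_lit 2059) (nat_lit 142) (.e (nat_lit 704589) (nat_lit 3) (.e (nat_lit 163979) (nat_lit 30) (.e (nat_lit 573482) (nat_lit 13) (.e (nat_lit 65619) (nat_lit 10) (.e (nat_lit 344117) (nat_lit 21) (.e (nat_lit 516144) (nat_lit 9) (.e (nat_lit 426393) (nat_lit 15) .nil)))))))) (.g (nat_lit 1) (.e (nat_lit 104627) (nat_lit 0) .nil) .nil))) 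
(.lf (nat_lit 479224) (.g (nat_lit 1451) (.e (nat_lit 5224) (nat_lit 296) (.e (nat_lit 163871) (nat_lit 2) (.e (nat_lit 196654) (nat_lit 11) (.e (nat_lit 16466) (nat_lit 13) (.e (nat_lit 491264) (nat_lit 10) (.e (nat_lit 434211) (nat_lit 18) .nil)))))) (.g (nat_lit 1) (.e (nat_lit 107472) (nat_lit 0) .nil) .nil)))))))))) 
(.nd (nat_lit 3) (.nd (nat_lit 4) (.nd (nat_lit 5) (.nd (nat_lit 6) (.nd (nat_lit 7) 
(.nd (nat_lit 8) (.nd (nat_lit 9) 
(.lf (nat_lit 478212) (.g (nat_lit 1278) (.e (nat_lit 2056) (nat_lit 142) (.e (nat_lit 704598) (nat_lit 6) (.e (nat_lit 188431) (nat_lit 20) (.e (nat_lit 3401) (nat_lit 211) (.e (nat_lit 647185) (nat_lit 6) (.e (nat_lit 188420) (nat_lit 0) .nil)))))) (.g (nat_lit 1) (.e (nat_lit 104009) (nat_lit 0) .nil) .nil))) 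
(.lf (nat_lit 478724) (.g (nat_lit 3982) (.e (nat_lit 2059) (nat_lit 142) (.e (nat_lit 704589) (nat_lit 3) (.e (nat_lit 163979) (nat_lit 30) (.e (nat_lit 573482) (nat_lit 13) (.e (nat_lit 65619) (nat_lit 10) (.e (nat_lit 344117) (nat_lit 21) (.e (nat_lit 516152) (nat_lit 9) (.e (nat_lit 426410) (nat_lit 15) .nil)))))))) (.g (nat_lit 1) (.e (nat_lit 104639) (nat_lit 0) .nil) .nil)))) 
(.nd (nat_lit 9) 
(.lf (nat_lit 478468) (.g (nat_lit 4663) (.e (nat_lit 2058) (nat_lit 142) (.e (nat_lit 704589) (nat_lit 3) (.e (nat_lit 163979) (nat_lit 30) (.e (nat_lit 573493) (nat_lit 15) (.e (nat_lit 81953) (nat_lit 22) (.e (nat_lit 90170) (nat_lit 13) (.e (nat_lit 172136) (nat_lit 15) .nil))))))) (.g (nat_lit 1) (.e (nat_lit 104309) (nat_lit 0) .nil) .nil))) 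
(.lf (nat_lit 478980) (.g (nat_lit 1512) (.e (nat_lit 2175) (nat_lit 143) (.e (nat_lit 712753) (nat_lit 30) (.e (nat_lit 450561) (nat_lit 0) (.e (nat_lit 5537) (nat_lit 306) (.e (nat_lit 7936) (nat_lit 166) (.e (nat_lit 188420) (nat_lit 0) .nil)))))) (.g (nat_lit 1) (.e (nat_lit 105185) (nat_lit 0) .nil) .nil))))) (.nd (nat_lit 8) (.nd (nat_lit 9) 
(.lf (nat_lit 478340) (.g (nat_lit 3792) (.e (nat_lit 2058) (nat_lit 142) (.e (nat_lit 704589) (nat_lit 3) (.e (nat_lit 163976) (nat_lit 30) (.e (nat_lit 573481) (nat_lit 13) (.e (nat_lit 65619) (nat_lit 10) (.e (nat_lit 344117) (nat_lit 21) (.e (nat_lit 516144) (nat_lit 9) (.e (nat_lit 426375) (nat_lit 15) .nil)))))))) (.g (nat_lit 1) (.e (nat_lit 104175) (nat_lit 0) .nil) .nil))) 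
(.lf (nat_lit 478852) (.g (nat_lit 2026) (.e (nat_lit 2147) (nat_lit 142) (.e (nat_lit 704597) (nat_lit 6) (.e (nat_lit 188455) (nat_lit 24) (.e (nat_lit 229665) (nat_lit 240) (.e (nat_lit 2653) (nat_lit 166) (.e (nat_lit 188416) (nat_lit 0) .nil)))))) (.g (nat_lit 1) (.e (nat_lit 104985) (nat_lit 0) .nil) .nil)))) (.nd (nat_lit 9) 
(.lf (nat_lit 478596) (.g (nat_lit 5141) (.e (nat_lit 2059) (nat_lit 142) (.e (nat_lit 704589) (nat_lit 3) (.e (nat_lit 163975) (nat_lit 30) (.e (nat_lit 573492) (nat_lit 15) (.e (nat_lit 81956) (nat_lit 23) (.e (nat_lit 98365) (nat_lit 26) (.e (nat_lit 426413) (nat_lit 15) .nil))))))) (.g (nat_lit 1) (.e (nat_lit 104495) (nat_lit 0) .nil) .nil))) 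
(.lf (nat_lit 479108) (.g (nat_lit 3697) (.e (nat_lit 4849) (nat_lit 285) (.e (nat_lit 163871) (nat_lit 2) (.e (nat_lit 196666) (nat_lit 13) (.e (nat_lit 65610) (nat_lit 10) (.e (nat_lit 344117) (nat_lit 21) .nil))))) (.g (nat_lit 0) (.e (nat_lit 106496) (nat_lit 0) .nil) .nil)))))) (.nd (nat_lit 7) (.nd (nat_lit 8) (.nd (nat_lit 9) 
(.lf (nat_lit 478276) (.g (nat_lit 2864) (.e (nat_lit 2057) (nat_lit 142) (.e (nat_lit 704598) (nat_lit 6) (.e (nat_lit 188453) (nat_lit 24) (.e (nat_lit 229665) (nat_lit 240) (.e (nat_lit 2651) (nat_lit 166) (.e (nat_lit 188420) (nat_lit 0) .nil)))))) (.g (nat_lit 1) (.e (nat_lit 104100) (nat_lit 0) .nil) .nil))) 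
(.lf (nat_lit 478788) (.g (nat_lit 3095) (.e (nat_lit 2059) (nat_lit 142) (.e (nat_lit 704592) (nat_lit 4) (.e (nat_lit 172126) (nat_lit 14) (.e (nat_lit 491550) (nat_lit 9) (.e (nat_lit 336430) (nat_lit 29) (.e (nat_lit 442377) (nat_lit 0) .nil)))))) (.g (nat_lit 1) (.e (nat_lit 104733) (nat_lit 0) .nil) .nil)))) (.nd (nat_lit 9) 
(.lf (nat_lit 478532) (.g (nat_lit 4685) (.e (nat_lit 2059) (nat_lit 142) (.e (nat_lit 704589) (nat_lit 3) (.e (nat_lit 163975) (nat_lit 30) (.e (nat_lit 573481) (nat_lit 13) (.e (nat_lit 65619) (nat_lit 10) (.e (nat_lit 344117) (nat_lit 21) (.e (nat_lit 516144) (nat_lit 9) (.e (nat_lit 426375) (nat_lit 15) .nil)))))))) (.g (nat_lit 1) (.e (nat_lit 104419) (nat_lit 0) .nil) .nil))) 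
(.lf (nat_lit 479044) (.g (nat_lit 3550) (.e (nat_lit 4425) (nat_lit 261) (.e (nat_lit 163871) (nat_lit 2) (.e (nat_lit 196666) (nat_lit 13) (.e (nat_lit 65610) (nat_lit 10) (.e (nat_lit 344129) (nat_lit 26) .nil))))) (.g (nat_lit 0) (.e (nat_lit 105963) (nat_lit 0) .nil) .nil))))) (.nd (nat_lit 8) (.nd (nat_lit 9) 
(.lf (nat_lit 478404) (.g (nat_lit 3086) (.e (nat_lit 2058) (nat_lit 142) (.e (nat_lit 704589) (nat_lit 3) (.e (nat_lit 163978) (nat_lit 30) (.e (nat_lit 573485) (nat_lit 13) (.e (nat_lit 65619) (nat_lit 10) (.e (nat_lit 344117) (nat_lit 21) (.e (nat_lit 516144) (nat_lit 9) (.e (nat_lit 426382) (nat_lit 15) .nil)))))))) (.g (nat_lit 1) (.e (nat_lit 104244) (nat_lit 0) .nil) .nil))) 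
(.lf (nat_lit 478916) (.g (nat_lit 3168) (.e (nat_lit 2174) (nat_lit 143) (.e (nat_lit 712745) (nat_lit 27) (.e (nat_lit 426347) (nat_lit 14) (.e (nat_lit 491571) (nat_lit 13) (.e (nat_lit 393275) (nat_lit 23) (.e (nat_lit 426410) (nat_lit 15) .nil)))))) (.g (nat_lit 1) (.e (nat_lit 105113) (nat_lit 0) .nil) .nil)))) (.nd (nat_lit 9) 
(.lf (nat_lit 478660) (.g (nat_lit 3539) (.e (nat_lit 2059) (nat_lit 142) (.e (nat_lit 704589) (nat_lit 3) (.e (nat_lit 163978) (nat_lit 30) (.e (nat_lit 573479) (nat_lit 13) (.e (nat_lit 65610) (nat_lit 10) (.e (nat_lit 344117) (nat_lit 21) (.e (nat_lit 516151) (nat_lit 9) (.e (nat_lit 426396) (nat_lit 15) .nil)))))))) (.g (nat_lit 1) (.e (nat_lit 104574) (nat_lit 0) .nil) .nil))) 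
(.lf (nat_lit 479172) (.g (nat_lit 1594) (.e (nat_lit 5223) (nat_lit 296) (.e (nat_lit 163868) (nat_lit 2) (.e (nat_lit 196655) (nat_lit 11) (.e (nat_lit 16465) (nat_lit 13) (.e (nat_lit 491264) (nat_lit 10) (.e (nat_lit 434212) (nat_lit 18) .nil)))))) (.g (nat_lit 1) (.e (nat_lit 107196) (nat_lit 0) .nil) .nil))))))) (.nd (nat_lit 6) (.nd (nat_lit 7) (.nd (nat_lit 8) (.nd (nat_lit 9) 
(.lf (nat_lit 478244) (.g (nat_lit 4474) (.e (nat_lit 2057) (nat_lit 142) (.e (nat_lit 704589) (nat_lit 3) (.e (nat_lit 163978) (nat_lit 30) (.e (nat_lit 573485) (nat_lit 13) (.e (nat_lit 65604) (nat_lit 9) (.e (nat_lit 336028) (nat_lit 3) (.e (nat_lit 98359) (nat_lit 26) (.e (nat_lit 426412) (nat_lit 15) .nil)))))))) (.g (nat_lit 1) (.e (nat_lit 104042) (nat_lit 0) .nil) .nil))) 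
(.lf (nat_lit 478756) (.g (nat_lit 2983) (.e (nat_lit 2059) (nat_lit 142) (.e (nat_lit 704589) (nat_lit 3) (.e (nat_lit 163979) (nat_lit 30) (.e (nat_lit 573492) (nat_lit 15) (.e (nat_lit 81956) (nat_lit 23) (.e (nat_lit 98355) (nat_lit 26) (.e (nat_lit 426405) (nat_lit 15) .nil))))))) (.g (nat_lit 1) (.e (nat_lit 104672) (nat_lit 0) .nil) .nil)))) (.nd (nat_lit 9) 
(.lf (nat_lit 478500) (.g (nat_lit 3153) (.e (nat_lit 2058) (nat_lit 142) (.e (nat_lit 704592) (nat_lit 4) (.e (nat_lit 172126) (nat_lit 14) (.e (nat_lit 491550) (nat_lit 9) (.e (nat_lit 336430) (nat_lit 29) (.e (nat_lit 442377) (nat_lit 0) .nil)))))) (.g (nat_lit 1) (.e (nat_lit 104356) (nat_lit 0) .nil) .nil))) 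
(.lf (nat_lit 479012) (.g (nat_lit 1939) (.e (nat_lit 3982) (nat_lit 239) (.e (nat_lit 1197) (nat_lit 88) (.e (nat_lit 65630) (nat_lit 14) (.e (nat_lit 401428) (nat_lit 3) (.e (nat_lit 204870) (nat_lit 29) .nil))))) (.g (nat_lit 0) (.e (nat_lit 105476) (nat_lit 0) .nil) .nil))))) (.nd (nat_lit 8) (.nd (nat_lit 9) 
(.lf (nat_lit 478372) (.g (nat_lit 3384) (.e (nat_lit 2058) (nat_lit 142) (.e (nat_lit 704589) (nat_lit 3) (.e (nat_lit 163976) (nat_lit 30) (.e (nat_lit 573492) (nat_lit 15) (.e (nat_lit 81956) (nat_lit 23) (.e (nat_lit 98355) (nat_lit 26) (.e (nat_lit 426375) (nat_lit 15) .nil))))))) (.g (nat_lit 1) (.e (nat_lit 104209) (nat_lit 0) .nil) .nil))) 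
(.lf (nat_lit 478884) (.g (nat_lit 2288) (.e (nat_lit 2174) (nat_lit 143) (.e (nat_lit 712745) (nat_lit 27) (.e (nat_lit 426347) (nat_lit 14) (.e (nat_lit 491570) (nat_lit 13) (.e (nat_lit 393267) (nat_lit 23) (.e (nat_lit 426378) (nat_lit 15) .nil)))))) (.g (nat_lit 1) (.e (nat_lit 105081) (nat_lit 0) .nil) .nil)))) (.nd (nat_lit 9) 
(.lf (nat_lit 478628) (.g (nat_lit 3671) (.e (nat_lit 2059) (nat_lit 142) (.e (nat_lit 704589) (nat_lit 3) (.e (nat_lit 163976) (nat_lit 30) (.e (nat_lit 573491) (nat_lit 15) (.e (nat_lit 81954) (nat_lit 23) (.e (nat_lit 98356) (nat_lit 26) (.e (nat_lit 426420) (nat_lit 15) .nil))))))) (.g (nat_lit 1) (.e (nat_lit 104532) (nat_lit 0) .nil) .nil))) 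
(.lf (nat_lit 479140) (.g (nat_lit 1923) (.e (nat_lit 5122) (nat_lit 292) (.e (nat_lit 2649) (nat_lit 166) (.e (nat_lit 188434) (nat_lit 20) (.e (nat_lit 3391) (nat_lit 210) (.e (nat_lit 639008) (nat_lit 13) (.e (nat_lit 1598) (nat_lit 111) (.e (nat_lit 368384) (nat_lit 0) .nil))))))) (.g (nat_lit 1) (.e (nat_lit 106869) (nat_lit 0) .nil) .nil)))))) 
(.nd (nat_lit 7) (.nd (nat_lit 8) (.nd (nat_lit 9) 
(.lf (nat_lit 478308) (.g (nat_lit 3654) (.e (nat_lit 2058) (nat_lit 142) (.e (nat_lit 704589) (nat_lit 3) (.e (nat_lit 163975) (nat_lit 30) (.e (nat_lit 573491) (nat_lit 15) (.e (nat_lit 81954) (nat_lit 23) (.e (nat_lit 98356) (nat_lit 26) (.e (nat_lit 426375) (nat_lit 15) .nil))))))) (.g (nat_lit 1) (.e (nat_lit 104135) (nat_lit 0) .nil) .nil))) 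
(.lf (nat_lit 478820) (.g (nat_lit 2143) (.e (nat_lit 2083) (nat_lit 142) (.e (nat_lit 704734) (nat_lit 11) (.e (nat_lit 16416) (nat_lit 3) (.e (nat_lit 204861) (nat_lit 26) (.e (nat_lit 336075) (nat_lit 9) .nil))))) (.g (nat_lit 0) (.e (nat_lit 104810) (nat_lit 0) .nil) .nil)))) (.nd (nat_lit 9) 
(.lf (nat_lit 478564) (.g (nat_lit 2149) (.e (nat_lit 2059) (nat_lit 142) (.e (nat_lit 704589) (nat_lit 3) (.e (nat_lit 163975) (nat_lit 30) (.e (nat_lit 573491) (nat_lit 15) (.e (nat_lit 81954) (nat_lit 23) (.e (nat_lit 98362) (nat_lit 26) (.e (nat_lit 426410) (nat_lit 15) .nil))))))) (.g (nat_lit 1) (.e (nat_lit 104451) (nat_lit 0) .nil) .nil))) 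
(.lf (nat_lit 479076) (.g (nat_lit 2071) (.e (nat_lit 4539) (nat_lit 267) (.e (nat_lit 163871) (nat_lit 2) (.e (nat_lit 196656) (nat_lit 11) (.e (nat_lit 16473) (nat_lit 14) .nil)))) (.g (nat_lit 0) (.e (nat_lit 106157) (nat_lit 0) .nil) .nil))))) (.nd (nat_lit 8) (.nd (nat_lit 9) 
(.lf (nat_lit 478436) (.g (nat_lit 6827) (.e (nat_lit 2058) (nat_lit 142) (.e (nat_lit 704589) (nat_lit 3) (.e (nat_lit 163979) (nat_lit 30) (.e (nat_lit 573484) (nat_lit 13) (.e (nat_lit 65610) (nat_lit 10) (.e (nat_lit 344117) (nat_lit 21) (.e (nat_lit 516151) (nat_lit 9) (.e (nat_lit 426412) (nat_lit 15) .nil)))))))) (.g (nat_lit 1) (.e (nat_lit 104276) (nat_lit 0) .nil) .nil))) 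
(.lf (nat_lit 478948) (.g (nat_lit 2226) (.e (nat_lit 2175) (nat_lit 143) (.e (nat_lit 712745) (nat_lit 27) (.e (nat_lit 426347) (nat_lit 14) (.e (nat_lit 491570) (nat_lit 13) (.e (nat_lit 393274) (nat_lit 23) .nil))))) (.g (nat_lit 0) (.e (nat_lit 105153) (nat_lit 0) .nil) .nil)))) (.nd (nat_lit 9) 
(.lf (nat_lit 478692) (.g (nat_lit 5490) (.e (nat_lit 2059) (nat_lit 142) (.e (nat_lit 704589) (nat_lit 3) (.e (nat_lit 163979) (nat_lit 30) (.e (nat_lit 573480) (nat_lit 13) (.e (nat_lit 65610) (nat_lit 10) (.e (nat_lit 344117) (nat_lit 21) (.e (nat_lit 516151) (nat_lit 9) (.e (nat_lit 426412) (nat_lit 15) .nil)))))))) (.g (nat_lit 1) (.e (nat_lit 104607) (nat_lit 0) .nil) .nil))) 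
(.lf (nat_lit 479204) (.g (nat_lit 1836) (.e (nat_lit 5224) (nat_lit 296) (.e (nat_lit 163868) (nat_lit 2) (.e (nat_lit 196654) (nat_lit 11) (.e (nat_lit 16438) (nat_lit 9) (.e (nat_lit 426479) (nat_lit 27) (.e (nat_lit 336421) (nat_lit 28) (.e (nat_lit 434212) (nat_lit 18) .nil))))))) (.g (nat_lit 1) (.e (nat_lit 107386) (nat_lit 0) .nil) .nil)))))))) 
(.nd (nat_lit 5) (.nd (nat_lit 6) (.nd (nat_lit 7) (.nd (nat_lit 8) (.nd (nat_lit 9) 
(.lf (nat_lit 478228) (.g (nat_lit 3857) (.e (nat_lit 2057) (nat_lit 142) (.e (nat_lit 704589) (nat_lit 3) (.e (nat_lit 163975) (nat_lit 30) (.e (nat_lit 573492) (nat_lit 15) (.e (nat_lit 81953) (nat_lit 22) (.e (nat_lit 90170) (nat_lit 13) (.e (nat_lit 172138) (nat_lit 15) .nil))))))) (.g (nat_lit 1) (.e (nat_lit 104026) (nat_lit 0) .nil) .nil))) 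
(.lf (nat_lit 478740) (.g (nat_lit 4377) (.e (nat_lit 2059) (nat_lit 142) (.e (nat_lit 704589) (nat_lit 3) (.e (nat_lit 163979) (nat_lit 30) (.e (nat_lit 573491) (nat_lit 15) (.e (nat_lit 81954) (nat_lit 23) (.e (nat_lit 98356) (nat_lit 26) (.e (nat_lit 426420) (nat_lit 15) .nil))))))) (.g (nat_lit 1) (.e (nat_lit 104655) (nat_lit 0) .nil) .nil)))) (.nd (nat_lit 9) 
(.lf (nat_lit 478484) (.g (nat_lit 5048) (.e (nat_lit 2058) (nat_lit 142) (.e (nat_lit 704589) (nat_lit 3) (.e (nat_lit 163979) (nat_lit 30) (.e (nat_lit 573493) (nat_lit 15) (.e (nat_lit 81956) (nat_lit 23) (.e (nat_lit 98356) (nat_lit 26) (.e (nat_lit 426420) (nat_lit 15) .nil))))))) (.g (nat_lit 1) (.e (nat_lit 104326) (nat_lit 0) .nil) .nil))) 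
(.lf (nat_lit 478996) (.g (nat_lit 1917) (.e (nat_lit 3913) (nat_lit 239) (.e (nat_lit 2630) (nat_lit 164) (.e (nat_lit 172126) (nat_lit 14) (.e (nat_lit 491540) (nat_lit 3) .nil)))) (.g (nat_lit 0) (.e (nat_lit 105313) (nat_lit 0) .nil) .nil))))) (.nd (nat_lit 8) (.nd (nat_lit 9) 
(.lf (nat_lit 478356) (.g (nat_lit 2351) (.e (nat_lit 2058) (nat_lit 142) (.e (nat_lit 704589) (nat_lit 3) (.e (nat_lit 163976) (nat_lit 30) (.e (nat_lit 573491) (nat_lit 15) (.e (nat_lit 81954) (nat_lit 23) (.e (nat_lit 98355) (nat_lit 26) (.e (nat_lit 426393) (nat_lit 15) .nil))))))) (.g (nat_lit 1) (.e (nat_lit 104191) (nat_lit 0) .nil) .nil))) 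
(.lf (nat_lit 478868) (.g (nat_lit 3389) (.e (nat_lit 2160) (nat_lit 143) (.e (nat_lit 712742) (nat_lit 27) (.e (nat_lit 426338) (nat_lit 14) (.e (nat_lit 491570) (nat_lit 13) (.e (nat_lit 393271) (nat_lit 23) (.e (nat_lit 426364) (nat_lit 15) .nil)))))) (.g (nat_lit 1) (.e (nat_lit 105033) (nat_lit 0) .nil) .nil)))) (.nd (nat_lit 9) 
(.lf (nat_lit 478612) (.g (nat_lit 5713) (.e (nat_lit 2059) (nat_lit 142) (.e (nat_lit 704589) (nat_lit 3) (.e (nat_lit 163976) (nat_lit 30) (.e (nat_lit 573481) (nat_lit 13) (.e (nat_lit 65619) (nat_lit 10) (.e (nat_lit 344117) (nat_lit 21) (.e (nat_lit 516151) (nat_lit 9) (.e (nat_lit 426396) (nat_lit 15) .nil)))))))) (.g (nat_lit 1) (.e (nat_lit 104516) (nat_lit 0) .nil) .nil))) 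
(.lf (nat_lit 479124) (.g (nat_lit 1987) (.e (nat_lit 4934) (nat_lit 287) (.e (nat_lit 2797) (nat_lit 180) (.e (nat_lit 303119) (nat_lit 3) (.e (nat_lit 204869) (nat_lit 29) (.e (nat_lit 360450) (nat_lit 0) .nil))))) (.g (nat_lit 0) (.e (nat_lit 106579) (nat_lit 0) .nil) .nil)))))) (.nd (nat_lit 7) (.nd (nat_lit 8) (.nd (nat_lit 9) 
(.lf (nat_lit 478292) (.g (nat_lit 3790) (.e (nat_lit 2058) (nat_lit 142) (.e (nat_lit 704589) (nat_lit 3) (.e (nat_lit 163975) (nat_lit 30) (.e (nat_lit 573481) (nat_lit 13) (.e (nat_lit 65619) (nat_lit 10) (.e (nat_lit 344117) (nat_lit 21) (.e (nat_lit 516144) (nat_lit 9) (.e (nat_lit 426379) (nat_lit 15) .nil)))))))) (.g (nat_lit 1) (.e (nat_lit 104119) (nat_lit 0) .nil) .nil))) 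
(.lf (nat_lit 478804) (.g (nat_lit 1935) (.e (nat_lit 2059) (nat_lit 142) (.e (nat_lit 704599) (nat_lit 6) (.e (nat_lit 188446) (nat_lit 21) (.e (nat_lit 164348) (nat_lit 240) (.e (nat_lit 2648) (nat_lit 166) (.e (nat_lit 188418) (nat_lit 0) .nil)))))) (.g (nat_lit 1) (.e (nat_lit 104782) (nat_lit 0) .nil) .nil)))) (.nd (nat_lit 9) 
(.lf (nat_lit 478548) (.g (nat_lit 3074) (.e (nat_lit 2059) (nat_lit 142) (.e (nat_lit 704589) (nat_lit 3) (.e (nat_lit 163975) (nat_lit 30) (.e (nat_lit 573491) (nat_lit 15) (.e (nat_lit 81951) (nat_lit 22) (.e (nat_lit 90170) (nat_lit 13) (.e (nat_lit 172137) (nat_lit 15) .nil))))))) (.g (nat_lit 1) (.e (nat_lit 104435) (nat_lit 0) .nil) .nil))) 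
(.lf (nat_lit 479060) (.g (nat_lit 3633) (.e (nat_lit 4507) (nat_lit 263) (.e (nat_lit 2619) (nat_lit 164) (.e (nat_lit 172064) (nat_lit 2) (.e (nat_lit 196666) (nat_lit 13) (.e (nat_lit 65610) (nat_lit 10) (.e (nat_lit 344117) (nat_lit 21) (.e (nat_lit 516098) (nat_lit 0) (.e (nat_lit 2398) (nat_lit 157) .nil)))))))) (.g (nat_lit 1) (.e (nat_lit 106087) (nat_lit 0) .nil) .nil))))) 
(.nd (nat_lit 8) (.nd (nat_lit 9) 
(.lf (nat_lit 478420) (.g (nat_lit 4332) (.e (nat_lit 2058) (nat_lit 142) (.e (nat_lit 704589) (nat_lit 3) (.e (nat_lit 163979) (nat_lit 30) (.e (nat_lit 573482) (nat_lit 13) (.e (nat_lit 65604) (nat_lit 9) (.e (nat_lit 336028) (nat_lit 3) (.e (nat_lit 98359) (nat_lit 26) (.e (nat_lit 426396) (nat_lit 15) .nil)))))))) (.g (nat_lit 1) (.e (nat_lit 104260) (nat_lit 0) .nil) .nil))) 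
(.lf (nat_lit 478932) (.g (nat_lit 3370) (.e (nat_lit 2174) (nat_lit 143) (.e (nat_lit 712752) (nat_lit 29) (.e (nat_lit 442430) (nat_lit 24) (.e (nat_lit 229665) (nat_lit 240) (.e (nat_lit 2651) (nat_lit 166) (.e (nat_lit 188420) (nat_lit 0) .nil)))))) (.g (nat_lit 1) (.e (nat_lit 105132) (nat_lit 0) .nil) .nil)))) (.nd (nat_lit 9) 
(.lf (nat_lit 478676) (.g (nat_lit 4884) (.e (nat_lit 2059) (nat_lit 142) (.e (nat_lit 704589) (nat_lit 3) (.e (nat_lit 163978) (nat_lit 30) (.e (nat_lit 573485) (nat_lit 13) (.e (nat_lit 65619) (nat_lit 10) (.e (nat_lit 344117) (nat_lit 21) (.e (nat_lit 516143) (nat_lit 9) (.e (nat_lit 426396) (nat_lit 15) .nil)))))))) (.g (nat_lit 1) (.e (nat_lit 104591) (nat_lit 0) .nil) .nil))) 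
(.lf (nat_lit 479188) (.g (nat_lit 2349) (.e (nat_lit 5223) (nat_lit 296) (.e (nat_lit 163879) (nat_lit 4) (.e (nat_lit 213030) (nat_lit 11) (.e (nat_lit 24659) (nat_lit 13) (.e (nat_lit 393283) (nat_lit 24) (.e (nat_lit 434209) (nat_lit 18) .nil)))))) (.g (nat_lit 1) (.e (nat_lit 107279) (nat_lit 0) .nil) .nil))))))) (.nd (nat_lit 6) (.nd (nat_lit 7) (.nd (nat_lit 8) (.nd (nat_lit 9) 
(.lf (nat_lit 478260) (.g (nat_lit 310) (.e (nat_lit 2057) (nat_lit 142) (.e (nat_lit 704595) (nat_lit 5) (.e (nat_lit 180276) (nat_lit 32) .nil))) (.g (nat_lit 0) (.e (nat_lit 104063) (nat_lit 0) .nil) .nil))) 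
(.lf (nat_lit 478772) (.g (nat_lit 4108) (.e (nat_lit 2059) (nat_lit 142) (.e (nat_lit 704589) (nat_lit 3) (.e (nat_lit 163979) (nat_lit 30) (.e (nat_lit 573493) (nat_lit 15) (.e (nat_lit 81956) (nat_lit 23) (.e (nat_lit 98355) (nat_lit 26) (.e (nat_lit 426420) (nat_lit 15) .nil))))))) (.g (nat_lit 1) (.e (nat_lit 104703) (nat_lit 0) .nil) .nil)))) (.nd (nat_lit 9) 
(.lf (nat_lit 478516) (.g (nat_lit 1909) (.e (nat_lit 2058) (nat_lit 142) (.e (nat_lit 704599) (nat_lit 6) (.e (nat_lit 188446) (nat_lit 21) (.e (nat_lit 164348) (nat_lit 240) (.e (nat_lit 2648) (nat_lit 166) (.e (nat_lit 188418) (nat_lit 0) .nil)))))) (.g (nat_lit 1) (.e (nat_lit 104403) (nat_lit 0) .nil) .nil))) 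
(.lf (nat_lit 479028) (.g (nat_lit 813) (.e (nat_lit 4001) (nat_lit 241) (.e (nat_lit 57411) (nat_lit 12) (.e (nat_lit 336208) (nat_lit 12) .nil))) (.g (nat_lit 0) (.e (nat_lit 105644) (nat_lit 0) .nil) .nil))))) (.nd (nat_lit 8) (.nd (nat_lit 9) 
(.lf (nat_lit 478388) (.g (nat_lit 4134) (.e (nat_lit 2058) (nat_lit 142) (.e (nat_lit 704589) (nat_lit 3) (.e (nat_lit 163976) (nat_lit 30) (.e (nat_lit 573492) (nat_lit 15) (.e (nat_lit 81956) (nat_lit 23) (.e (nat_lit 98363) (nat_lit 26) (.e (nat_lit 426419) (nat_lit 15) .nil))))))) (.g (nat_lit 1) (.e (nat_lit 104225) (nat_lit 0) .nil) .nil))) 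
(.lf (nat_lit 478900) (.g (nat_lit 2427) (.e (nat_lit 2174) (nat_lit 143) (.e (nat_lit 712745) (nat_lit 27) (.e (nat_lit 426347) (nat_lit 14) (.e (nat_lit 491571) (nat_lit 13) (.e (nat_lit 393267) (nat_lit 23) (.e (nat_lit 426378) (nat_lit 15) .nil)))))) (.g (nat_lit 1) (.e (nat_lit 105097) (nat_lit 0) .nil) .nil)))) (.nd (nat_lit 9) 
(.lf (nat_lit 478644) (.g (nat_lit 3187) (.e (nat_lit 2059) (nat_lit 142) (.e (nat_lit 704589) (nat_lit 3) (.e (nat_lit 163976) (nat_lit 30) (.e (nat_lit 573492) (nat_lit 15) (.e (nat_lit 81956) (nat_lit 23) (.e (nat_lit 98355) (nat_lit 26) (.e (nat_lit 426374) (nat_lit 15) .nil))))))) (.g (nat_lit 1) (.e (nat_lit 104554) (nat_lit 0) .nil) .nil))) 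
(.lf (nat_lit 479156) (.g (nat_lit 930) (.e (nat_lit 5222) (nat_lit 296) (.e (nat_lit 163881) (nat_lit 4) (.e (nat_lit 213032) (nat_lit 11) (.e (nat_lit 24629) (nat_lit 9) (.e (nat_lit 336434) (nat_lit 30) (.e (nat_lit 450564) (nat_lit 0) .nil)))))) (.g (nat_lit 1) (.e (nat_lit 107055) (nat_lit 0) .nil) .nil)))))) (.nd (nat_lit 7) (.nd (nat_lit 8) (.nd (nat_lit 9) 
(.lf (nat_lit 478324) (.g (nat_lit 3385) (.e (nat_lit 2058) (nat_lit 142) (.e (nat_lit 704589) (nat_lit 3) (.e (nat_lit 163975) (nat_lit 30) (.e (nat_lit 573492) (nat_lit 15) (.e (nat_lit 81956) (nat_lit 23) (.e (nat_lit 98355) (nat_lit 26) (.e (nat_lit 426420) (nat_lit 15) .nil))))))) (.g (nat_lit 1) (.e (nat_lit 104156) (nat_lit 0) .nil) .nil))) 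
(.lf (nat_lit 478836) (.g (nat_lit 747) (.e (nat_lit 2146) (nat_lit 142) (.e (nat_lit 704597) (nat_lit 6) (.e (nat_lit 188418) (nat_lit 0) (.e (nat_lit 2057) (nat_lit 142) (.e (nat_lit 704598) (nat_lit 6) (.e (nat_lit 188417) (nat_lit 0) .nil)))))) (.g (nat_lit 1) (.e (nat_lit 104945) (nat_lit 0) .nil) .nil)))) (.nd (nat_lit 9) 
(.lf (nat_lit 478580) (.g (nat_lit 3899) (.e (nat_lit 2059) (nat_lit 142) (.e (nat_lit 704589) (nat_lit 3) (.e (nat_lit 163975) (nat_lit 30) (.e (nat_lit 573492) (nat_lit 15) (.e (nat_lit 81956) (nat_lit 23) (.e (nat_lit 98355) (nat_lit 26) (.e (nat_lit 426374) (nat_lit 15) .nil))))))) (.g (nat_lit 1) (.e (nat_lit 104479) (nat_lit 0) .nil) .nil))) 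
(.lf (nat_lit 479092) (.g (nat_lit 3543) (.e (nat_lit 4847) (nat_lit 285) (.e (nat_lit 163869) (nat_lit 2) (.e (nat_lit 196666) (nat_lit 13) (.e (nat_lit 65610) (nat_lit 10) (.e (nat_lit 344117) (nat_lit 21) (.e (nat_lit 516151) (nat_lit 9) (.e (nat_lit 426023) (nat_lit 0) (.e (nat_lit 2403) (nat_lit 157) .nil)))))))) (.g (nat_lit 1) (.e (nat_lit 106446) (nat_lit 0) .nil) .nil))))) 
(.nd (nat_lit 8) (.nd (nat_lit 9) 
(.lf (nat_lit 478452) (.g (nat_lit 3679) (.e (nat_lit 2058) (nat_lit 142) (.e (nat_lit 704589) (nat_lit 3) (.e (nat_lit 163979) (nat_lit 30) (.e (nat_lit 573491) (nat_lit 15) (.e (nat_lit 81954) (nat_lit 23) (.e (nat_lit 98359) (nat_lit 26) (.e (nat_lit 426396) (nat_lit 15) .nil))))))) (.g (nat_lit 1) (.e (nat_lit 104292) (nat_lit 0) .nil) .nil))) 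
(.lf (nat_lit 478964) (.g (nat_lit 2460) (.e (nat_lit 2175) (nat_lit 143) (.e (nat_lit 712750) (nat_lit 29) (.e (nat_lit 442421) (nat_lit 21) (.e (nat_lit 164347) (nat_lit 240) (.e (nat_lit 2648) (nat_lit 166) (.e (nat_lit 188420) (nat_lit 0) .nil)))))) (.g (nat_lit 1) (.e (nat_lit 105169) (nat_lit 0) .nil) .nil)))) (.nd (nat_lit 9) 
(.lf (nat_lit 478708) (.g (nat_lit 4917) (.e (nat_lit 2059) (nat_lit 142) (.e (nat_lit 704589) (nat_lit 3) (.e (nat_lit 163979) (nat_lit 30) (.e (nat_lit 573482) (nat_lit 13) (.e (nat_lit 65619) (nat_lit 10) (.e (nat_lit 344107) (nat_lit 19) (.e (nat_lit 499915) (nat_lit 9) (.e (nat_lit 172133) (nat_lit 15) .nil)))))))) (.g (nat_lit 1) (.e (nat_lit 104623) (nat_lit 0) .nil) .nil))) 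
(.lf (nat_lit 479220) (.g (nat_lit 1746) (.e (nat_lit 5224) (nat_lit 296) (.e (nat_lit 163871) (nat_lit 2) (.e (nat_lit 196654) (nat_lit 11) (.e (nat_lit 16438) (nat_lit 9) (.e (nat_lit 426479) (nat_lit 27) (.e (nat_lit 336421) (nat_lit 28) (.e (nat_lit 434212) (nat_lit 18) .nil))))))) (.g (nat_lit 1) (.e (nat_lit 107456) (nat_lit 0) .nil) .nil))))))))) 
(.nd (nat_lit 4) (.nd (nat_lit 5) (.nd (nat_lit 6) (.nd (nat_lit 7) (.nd (nat_lit 8) 
(.nd (nat_lit 9) 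
(.lf (nat_lit 478220) (.g (nat_lit 4380) (.e (nat_lit 2057) (nat_lit 142) (.e (nat_lit 704589) (nat_lit 3) (.e (nat_lit 163975) (nat_lit 30) (.e (nat_lit 573481) (nat_lit 13) (.e (nat_lit 65604) (nat_lit 9) (.e (nat_lit 336013) (nat_lit 2) (.e (nat_lit 90170) (nat_lit 13) (.e (nat_lit 172138) (nat_lit 15) .nil)))))))) (.g (nat_lit 1) (.e (nat_lit 104017) (nat_lit 0) .nil) .nil))) 
(.lf (nat_lit 478732) (.g (nat_lit 2271) (.e (nat_lit 2059) (nat_lit 142) (.e (nat_lit 704589) (nat_lit 3) (.e (nat_lit 163979) (nat_lit 30) (.e (nat_lit 573491) (nat_lit 15) (.e (nat_lit 81954) (nat_lit 23) (.e (nat_lit 98355) (nat_lit 26) (.e (nat_lit 426382) (nat_lit 15) .nil))))))) (.g (nat_lit 1) (.e (nat_lit 104647) (nat_lit 0) .nil) .nil)))) (.nd (nat_lit 9) 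
(.lf (nat_lit 478476) (.g (nat_lit 4134) (.e (nat_lit 2058) (nat_lit 142) (.e (nat_lit 704589) (nat_lit 3) (.e (nat_lit 163979) (nat_lit 30) (.e (nat_lit 573493) (nat_lit 15) (.e (nat_lit 81956) (nat_lit 23) (.e (nat_lit 98355) (nat_lit 26) (.e (nat_lit 426393) (nat_lit 15) .nil))))))) (.g (nat_lit 1) (.e (nat_lit 104318) (nat_lit 0) .nil) .nil))) 
(.lf (nat_lit 478988) (.g (nat_lit 1664) (.e (nat_lit 2198) (nat_lit 144) (.e (nat_lit 720940) (nat_lit 22) (.e (nat_lit 90170) (nat_lit 13) (.e (nat_lit 172062) (nat_lit 2) .nil)))) (.g (nat_lit 0) (.e (nat_lit 105233) (nat_lit 0) .nil) .nil))))) (.nd (nat_lit 8) (.nd (nat_lit 9) 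
(.lf (nat_lit 478348) (.g (nat_lit 4696) (.e (nat_lit 2058) (nat_lit 142) (.e (nat_lit 704589) (nat_lit 3) (.e (nat_lit 163976) (nat_lit 30) (.e (nat_lit 573481) (nat_lit 13) (.e (nat_lit 65619) (nat_lit 10) (.e (nat_lit 344117) (nat_lit 21) (.e (nat_lit 516151) (nat_lit 9) (.e (nat_lit 426410) (nat_lit 15) .nil)))))))) (.g (nat_lit 1) (.e (nat_lit 104183) (nat_lit 0) .nil) .nil))) 
(.lf (nat_lit 478860) (.g (nat_lit 1875) (.e (nat_lit 2148) (nat_lit 142) (.e (nat_lit 704597) (nat_lit 6) (.e (nat_lit 188455) (nat_lit 24) (.e (nat_lit 229680) (nat_lit 244) (.e (nat_lit 163919) (nat_lit 14) (.e (nat_lit 442371) (nat_lit 0) .nil)))))) (.g (nat_lit 1) (.e (nat_lit 105003) (nat_lit 0) .nil) .nil)))) (.nd (nat_lit 9) 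
(.lf (nat_lit 478604) (.g (nat_lit 2087) (.e (nat_lit 2059) (nat_lit 142) (.e (nat_lit 704589) (nat_lit 3) (.e (nat_lit 163976) (nat_lit 30) (.e (nat_lit 573481) (nat_lit 13) (.e (nat_lit 65604) (nat_lit 9) (.e (nat_lit 336028) (nat_lit 3) (.e (nat_lit 98359) (nat_lit 26) (.e (nat_lit 426414) (nat_lit 15) .nil)))))))) (.g (nat_lit 1) (.e (nat_lit 104507) (nat_lit 0) .nil) .nil))) 
(.lf (nat_lit 479116) (.g (nat_lit 625) (.e (nat_lit 4931) (nat_lit 287) (.e (nat_lit 2797) (nat_lit 180) (.e (nat_lit 303145) (nat_lit 13) .nil))) (.g (nat_lit 0) (.e (nat_lit 106568) (nat_lit 0) .nil) .nil)))))) (.nd (nat_lit 7) (.nd (nat_lit 8) (.nd (nat_lit 9) 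
(.lf (nat_lit 478284) (.g (nat_lit 415) (.e (nat_lit 2057) (nat_lit 142) (.e (nat_lit 704599) (nat_lit 6) (.e (nat_lit 188418) (nat_lit 0) (.e (nat_lit 2057) (nat_lit 142) .nil)))) (.g (nat_lit 0) (.e (nat_lit 104108) (nat_lit 0) .nil) .nil))) 
(.lf (nat_lit 478796) (.g (nat_lit 2522) (.e (nat_lit 2059) (nat_lit 142) (.e (nat_lit 704598) (nat_lit 6) (.e (nat_lit 188444) (nat_lit 21) (.e (nat_lit 164348) (nat_lit 240) (.e (nat_lit 2648) (nat_lit 166) (.e (nat_lit 188418) (nat_lit 0) .nil)))))) (.g (nat_lit 1) (.e (nat_lit 104774) (nat_lit 0) .nil) .nil)))) (.nd (nat_lit 9) 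
(.lf (nat_lit 478540) (.g (nat_lit 6156) (.e (nat_lit 2059) (nat_lit 142) (.e (nat_lit 704589) (nat_lit 3) (.e (nat_lit 163975) (nat_lit 30) (.e (nat_lit 573481) (nat_lit 13) (.e (nat_lit 65619) (nat_lit 10) (.e (nat_lit 344117) (nat_lit 21) (.e (nat_lit 516151) (nat_lit 9) (.e (nat_lit 426396) (nat_lit 15) .nil)))))))) (.g (nat_lit 1) (.e (nat_lit 104427) (nat_lit 0) .nil) .nil))) 
(.lf (nat_lit 479052) (.g (nat_lit 1816) (.e (nat_lit 4506) (nat_lit 263) (.e (nat_lit 2619) (nat_lit 164) (.e (nat_lit 172064) (nat_lit 2) (.e (nat_lit 196666) (nat_lit 13) (.e (nat_lit 65610) (nat_lit 10) .nil))))) (.g (nat_lit 0) (.e (nat_lit 106065) (nat_lit 0) .nil) .nil))))) (.nd (nat_lit 8) (.nd (nat_lit 9) 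
(.lf (nat_lit 478412) (.g (nat_lit 2951) (.e (nat_lit 2058) (nat_lit 142) (.e (nat_lit 704589) (nat_lit 3) (.e (nat_lit 163978) (nat_lit 30) (.e (nat_lit 573485) (nat_lit 13) (.e (nat_lit 65619) (nat_lit 10) (.e (nat_lit 344117) (nat_lit 21) (.e (nat_lit 516147) (nat_lit 9) (.e (nat_lit 426393) (nat_lit 15) .nil)))))))) (.g (nat_lit 1) (.e (nat_lit 104252) (nat_lit 0) .nil) .nil))) 
(.lf (nat_lit 478924) (.g (nat_lit 1257) (.e (nat_lit 2174) (nat_lit 143) (.e (nat_lit 712752) (nat_lit 29) (.e (nat_lit 442421) (nat_lit 21) (.e (nat_lit 164345) (nat_lit 240) .nil)))) (.g (nat_lit 0) (.e (nat_lit 105124) (nat_lit 0) .nil) .nil)))) (.nd (nat_lit 9) 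
(.lf (nat_lit 478668) (.g (nat_lit 5574) (.e (nat_lit 2059) (nat_lit 142) (.e (nat_lit 704589) (nat_lit 3) (.e (nat_lit 163978) (nat_lit 30) (.e (nat_lit 573485) (nat_lit 13) (.e (nat_lit 65604) (nat_lit 9) (.e (nat_lit 336028) (nat_lit 3) (.e (nat_lit 98359) (nat_lit 26) (.e (nat_lit 426396) (nat_lit 15) .nil)))))))) (.g (nat_lit 1) (.e (nat_lit 104582) (nat_lit 0) .nil) .nil))) 
(.lf (nat_lit 479180) (.g (nat_lit 1759) (.e (nat_lit 5223) (nat_lit 296) (.e (nat_lit 163871) (nat_lit 2) (.e (nat_lit 196656) (nat_lit 11) (.e (nat_lit 16416) (nat_lit 3) .nil)))) (.g (nat_lit 0) (.e (nat_lit 107248) (nat_lit 0) .nil) .nil))))))) (.nd (nat_lit 6) (.nd (nat_lit 7) (.nd (nat_lit 8) (.nd (nat_lit 9) 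
(.lf (nat_lit 478252) (.g (nat_lit 3593) (.e (nat_lit 2057) (nat_lit 142) (.e (nat_lit 704589) (nat_lit 3) (.e (nat_lit 163979) (nat_lit 30) (.e (nat_lit 573491) (nat_lit 15) (.e (nat_lit 81954) (nat_lit 23) (.e (nat_lit 98359) (nat_lit 26) (.e (nat_lit 426412) (nat_lit 15) .nil))))))) (.g (nat_lit 1) (.e (nat_lit 104050) (nat_lit 0) .nil) .nil))) 
(.lf (nat_lit 478764) (.g (nat_lit 4750) (.e (nat_lit 2059) (nat_lit 142) (.e (nat_lit 704589) (nat_lit 3) (.e (nat_lit 163979) (nat_lit 30) (.e (nat_lit 573493) (nat_lit 15) (.e (nat_lit 81953) (nat_lit 22) (.e (nat_lit 90170) (nat_lit 13) (.e (nat_lit 172136) (nat_lit 15) .nil))))))) (.g (nat_lit 1) (.e (nat_lit 104690) (nat_lit 0) .nil) .nil)))) (.nd (nat_lit 9) 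
(.lf (nat_lit 478508) (.g (nat_lit 236) (.e (nat_lit 2058) (nat_lit 142) (.e (nat_lit 704595) (nat_lit 5) (.e (nat_lit 188160) (nat_lit 32) .nil))) (.g (nat_lit 0) (.e (nat_lit 104394) (nat_lit 0) .nil) .nil))) 
(.lf (nat_lit 479020) (.g (nat_lit 2029) (.e (nat_lit 3962) (nat_lit 239) (.e (nat_lit 1200) (nat_lit 88) (.e (nat_lit 65630) (nat_lit 14) (.e (nat_lit 401428) (nat_lit 3) (.e (nat_lit 204868) (nat_lit 29) .nil))))) (.g (nat_lit 0) (.e (nat_lit 105536) (nat_lit 0) .nil) .nil))))) (.nd (nat_lit 8) (.nd (nat_lit 9) 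
(.lf (nat_lit 478380) (.g (nat_lit 3758) (.e (nat_lit 2058) (nat_lit 142) (.e (nat_lit 704589) (nat_lit 3) (.e (nat_lit 163976) (nat_lit 30) (.e (nat_lit 573492) (nat_lit 15) (.e (nat_lit 81956) (nat_lit 23) (.e (nat_lit 98356) (nat_lit 26) (.e (nat_lit 426379) (nat_lit 15) .nil))))))) (.g (nat_lit 1) (.e (nat_lit 104217) (nat_lit 0) .nil) .nil))) 
(.lf (nat_lit 478892) (.g (nat_lit 2590) (.e (nat_lit 2174) (nat_lit 143) (.e (nat_lit 712745) (nat_lit 27) (.e (nat_lit 426347) (nat_lit 14) (.e (nat_lit 491570) (nat_lit 13) (.e (nat_lit 393275) (nat_lit 23) (.e (nat_lit 426411) (nat_lit 15) .nil)))))) (.g (nat_lit 1) (.e (nat_lit 105089) (nat_lit 0) .nil) .nil)))) (.nd (nat_lit 9) 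
(.lf (nat_lit 478636) (.g (nat_lit 2770) (.e (nat_lit 2059) (nat_lit 142) (.e (nat_lit 704589) (nat_lit 3) (.e (nat_lit 163976) (nat_lit 30) (.e (nat_lit 573491) (nat_lit 15) (.e (nat_lit 81954) (nat_lit 23) (.e (nat_lit 98363) (nat_lit 26) (.e (nat_lit 426419) (nat_lit 15) .nil))))))) (.g (nat_lit 1) (.e (nat_lit 104540) (nat_lit 0) .nil) .nil))) 
(.lf (nat_lit 479148) (.g (nat_lit 1073) (.e (nat_lit 5219) (nat_lit 296) (.e (nat_lit 163903) (nat_lit 12) (.e (nat_lit 426479) (nat_lit 27) (.e (nat_lit 336432) (nat_lit 30) .nil)))) (.g (nat_lit 0) (.e (nat_lit 106982) (nat_lit 0) .nil) .nil)))))) (.nd (nat_lit 7) (.nd (nat_lit 8) (.nd (nat_lit 9) 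
(.lf (nat_lit 478316) (.g (nat_lit 2033) (.e (nat_lit 2058) (nat_lit 142) (.e (nat_lit 704589) (nat_lit 3) (.e (nat_lit 163975) (nat_lit 30) (.e (nat_lit 573491) (nat_lit 15) (.e (nat_lit 81954) (nat_lit 23) (.e (nat_lit 98363) (nat_lit 26) (.e (nat_lit 426419) (nat_lit 15) .nil))))))) (.g (nat_lit 1) (.e (nat_lit 104143) (nat_lit 0) .nil) .nil))) 
(.lf (nat_lit 478828) (.g (nat_lit 607) (.e (nat_lit 2143) (nat_lit 142) (.e (nat_lit 704597) (nat_lit 6) (.e (nat_lit 188416) (nat_lit 0) (.e (nat_lit 2147) (nat_lit 142) (.e (nat_lit 704597) (nat_lit 6) (.e (nat_lit 188417) (nat_lit 0) .nil)))))) (.g (nat_lit 1) (.e (nat_lit 104892) (nat_lit 0) .nil) .nil)))) (.nd (nat_lit 9) 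
(.lf (nat_lit 478572) (.g (nat_lit 4330) (.e (nat_lit 2059) (nat_lit 142) (.e (nat_lit 704589) (nat_lit 3) (.e (nat_lit 163975) (nat_lit 30) (.e (nat_lit 573492) (nat_lit 15) (.e (nat_lit 81951) (nat_lit 22) (.e (nat_lit 90168) (nat_lit 13) (.e (nat_lit 172133) (nat_lit 15) .nil))))))) (.g (nat_lit 1) (.e (nat_lit 104466) (nat_lit 0) .nil) .nil))) 
(.lf (nat_lit 479084) (.g (nat_lit 923) (.e (nat_lit 4567) (nat_lit 269) (.e (nat_lit 2552) (nat_lit 159) (.e (nat_lit 24604) (nat_lit 2) (.e (nat_lit 90176) (nat_lit 15) .nil)))) (.g (nat_lit 0) (.e (nat_lit 106400) (nat_lit 0) .nil) .nil))))) (.nd (nat_lit 8) (.nd (nat_lit 9) 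
(.lf (nat_lit 478444) (.g (nat_lit 2504) (.e (nat_lit 2058) (nat_lit 142) (.e (nat_lit 704589) (nat_lit 3) (.e (nat_lit 163979) (nat_lit 30) (.e (nat_lit 573491) (nat_lit 15) (.e (nat_lit 81954) (nat_lit 23) (.e (nat_lit 98355) (nat_lit 26) (.e (nat_lit 426420) (nat_lit 15) .nil))))))) (.g (nat_lit 1) (.e (nat_lit 104284) (nat_lit 0) .nil) .nil))) 
(.lf (nat_lit 478956) (.g (nat_lit 3343) (.e (nat_lit 2175) (nat_lit 143) (.e (nat_lit 712745) (nat_lit 27) (.e (nat_lit 426347) (nat_lit 14) (.e (nat_lit 491571) (nat_lit 13) (.e (nat_lit 393269) (nat_lit 23) (.e (nat_lit 426405) (nat_lit 15) .nil)))))) (.g (nat_lit 1) (.e (nat_lit 105161) (nat_lit 0) .nil) .nil)))) (.nd (nat_lit 9) 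
(.lf (nat_lit 478700) (.g (nat_lit 4673) (.e (nat_lit 2059) (nat_lit 142) (.e (nat_lit 704589) (nat_lit 3) (.e (nat_lit 163979) (nat_lit 30) (.e (nat_lit 573482) (nat_lit 13) (.e (nat_lit 65604) (nat_lit 9) (.e (nat_lit 336028) (nat_lit 3) (.e (nat_lit 98359) (nat_lit 26) (.e (nat_lit 426410) (nat_lit 15) .nil)))))))) (.g (nat_lit 1) (.e (nat_lit 104615) (nat_lit 0) .nil) .nil))) 
(.lf (nat_lit 479212) (.g (nat_lit 621) (.e (nat_lit 5224) (nat_lit 296) (.e (nat_lit 163868) (nat_lit 2) (.e (nat_lit 196656) (nat_lit 11) .nil))) (.g (nat_lit 0) (.e (nat_lit 107411) (nat_lit 0) .nil) .nil)))))))) (.nd (nat_lit 5) (.nd (nat_lit 6) (.nd (nat_lit 7) (.nd (nat_lit 8) (.nd (nat_lit 9) 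
(.lf (nat_lit 478236) (.g (nat_lit 3392) (.e (nat_lit 2057) (nat_lit 142) (.e (nat_lit 704589) (nat_lit 3) (.e (nat_lit 163976) (nat_lit 30) (.e (nat_lit 573491) (nat_lit 15) (.e (nat_lit 81951) (nat_lit 22) (.e (nat_lit 90170) (nat_lit 13) (.e (nat_lit 172138) (nat_lit 15) .nil))))))) (.g (nat_lit 1) (.e (nat_lit 104034) (nat_lit 0) .nil) .nil))) 
(.lf (nat_lit 478748) (.g (nat_lit 2818) (.e (nat_lit 2059) (nat_lit 142) (.e (nat_lit 704589) (nat_lit 3) (.e (nat_lit 163979) (nat_lit 30) (.e (nat_lit 573491) (nat_lit 15) (.e (nat_lit 81954) (nat_lit 23) (.e (nat_lit 98363) (nat_lit 26) (.e (nat_lit 426391) (nat_lit 15) .nil))))))) (.g (nat_lit 1) (.e (nat_lit 104663) (nat_lit 0) .nil) .nil)))) (.nd (nat_lit 9) 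
(.lf (nat_lit 478492) (.g (nat_lit 5867) (.e (nat_lit 2058) (nat_lit 142) (.e (nat_lit 704589) (nat_lit 3) (.e (nat_lit 163979) (nat_lit 30) (.e (nat_lit 573493) (nat_lit 15) (.e (nat_lit 81956) (nat_lit 23) (.e (nat_lit 98362) (nat_lit 26) (.e (nat_lit 426412) (nat_lit 15) .nil))))))) (.g (nat_lit 1) (.e (nat_lit 104334) (nat_lit 0) .nil) .nil))) 
(.lf (nat_lit 479004) (.g (nat_lit 3134) (.e (nat_lit 3922) (nat_lit 239) (.e (nat_lit 1201) (nat_lit 88) (.e (nat_lit 65630) (nat_lit 14) (.e (nat_lit 401425) (nat_lit 2) (.e (nat_lit 196666) (nat_lit 13) .nil))))) (.g (nat_lit 0) (.e (nat_lit 105404) (nat_lit 0) .nil) .nil))))) (.nd (nat_lit 8) (.nd (nat_lit 9) 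
(.lf (nat_lit 478364) (.g (nat_lit 3563) (.e (nat_lit 2058) (nat_lit 142) (.e (nat_lit 704589) (nat_lit 3) (.e (nat_lit 163976) (nat_lit 30) (.e (nat_lit 573491) (nat_lit 15) (.e (nat_lit 81954) (nat_lit 23) (.e (nat_lit 98359) (nat_lit 26) (.e (nat_lit 426410) (nat_lit 15) .nil))))))) (.g (nat_lit 1) (.e (nat_lit 104199) (nat_lit 0) .nil) .nil))) 
(.lf (nat_lit 478876) (.g (nat_lit 1697) (.e (nat_lit 2174) (nat_lit 143) (.e (nat_lit 712745) (nat_lit 27) (.e (nat_lit 426318) (nat_lit 12) (.e (nat_lit 475199) (nat_lit 40) (.e (nat_lit 704598) (nat_lit 6) (.e (nat_lit 188418) (nat_lit 0) .nil)))))) (.g (nat_lit 1) (.e (nat_lit 105072) (nat_lit 0) .nil) .nil)))) (.nd (nat_lit 9) 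
(.lf (nat_lit 478620) (.g (nat_lit 2729) (.e (nat_lit 2059) (nat_lit 142) (.e (nat_lit 704589) (nat_lit 3) (.e (nat_lit 163976) (nat_lit 30) (.e (nat_lit 573491) (nat_lit 15) (.e (nat_lit 81954) (nat_lit 23) (.e (nat_lit 98355) (nat_lit 26) (.e (nat_lit 426375) (nat_lit 15) .nil))))))) (.g (nat_lit 1) (.e (nat_lit 104524) (nat_lit 0) .nil) .nil))) 
(.lf (nat_lit 479132) (.g (nat_lit 888) (.e (nat_lit 5060) (nat_lit 292) (.e (nat_lit 1216) (nat_lit 90) (.e (nat_lit 81938) (nat_lit 20) (.e (nat_lit 1963) (nat_lit 134) .nil)))) (.g (nat_lit 0) (.e (nat_lit 106732) (nat_lit 0) .nil) .nil)))))) (.nd (nat_lit 7) (.nd (nat_lit 8) (.nd (nat_lit 9) 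
(.lf (nat_lit 478300) (.g (nat_lit 3711) (.e (nat_lit 2058) (nat_lit 142) (.e (nat_lit 704589) (nat_lit 3) (.e (nat_lit 163975) (nat_lit 30) (.e (nat_lit 573491) (nat_lit 15) (.e (nat_lit 81951) (nat_lit 22) (.e (nat_lit 90170) (nat_lit 13) (.e (nat_lit 172137) (nat_lit 15) .nil))))))) (.g (nat_lit 1) (.e (nat_lit 104127) (nat_lit 0) .nil) .nil))) 
(.lf (nat_lit 478812) (.g (nat_lit 2108) (.e (nat_lit 2061) (nat_lit 142) (.e (nat_lit 704742) (nat_lit 11) (.e (nat_lit 16436) (nat_lit 9) (.e (nat_lit 426555) (nat_lit 32) (.e (nat_lit 376860) (nat_lit 21) .nil))))) (.g (nat_lit 0) (.e (nat_lit 104793) (nat_lit 0) .nil) .nil)))) (.nd (nat_lit 9) 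
(.lf (nat_lit 478556) (.g (nat_lit 4152) (.e (nat_lit 2059) (nat_lit 142) (.e (nat_lit 704589) (nat_lit 3) (.e (nat_lit 163975) (nat_lit 30) (.e (nat_lit 573491) (nat_lit 15) (.e (nat_lit 81954) (nat_lit 23) (.e (nat_lit 98356) (nat_lit 26) (.e (nat_lit 426375) (nat_lit 15) .nil))))))) (.g (nat_lit 1) (.e (nat_lit 104443) (nat_lit 0) .nil) .nil))) 
(.lf (nat_lit 479068) (.g (nat_lit 2031) (.e (nat_lit 4539) (nat_lit 267) (.e (nat_lit 163869) (nat_lit 2) (.e (nat_lit 196656) (nat_lit 11) (.e (nat_lit 16473) (nat_lit 14) .nil)))) (.g (nat_lit 0) (.e (nat_lit 106149) (nat_lit 0) .nil) .nil))))) (.nd (nat_lit 8) (.nd (nat_lit 9) 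
(.lf (nat_lit 478428) (.g (nat_lit 3213) (.e (nat_lit 2058) (nat_lit 142) (.e (nat_lit 704589) (nat_lit 3) (.e (nat_lit 163979) (nat_lit 30) (.e (nat_lit 573482) (nat_lit 13) (.e (nat_lit 65619) (nat_lit 10) (.e (nat_lit 344117) (nat_lit 21) (.e (nat_lit 516144) (nat_lit 9) (.e (nat_lit 426405) (nat_lit 15) .nil)))))))) (.g (nat_lit 1) (.e (nat_lit 104268) (nat_lit 0) .nil) .nil))) 
(.lf (nat_lit 478940) (.g (nat_lit 2972) (.e (nat_lit 2174) (nat_lit 143) (.e (nat_lit 712755) (nat_lit 30) (.e (nat_lit 450565) (nat_lit 0) (.e (nat_lit 5548) (nat_lit 306) (.e (nat_lit 2648) (nat_lit 166) (.e (nat_lit 188420) (nat_lit 0) .nil)))))) (.g (nat_lit 1) (.e (nat_lit 105141) (nat_lit 0) .nil) .nil)))) (.nd (nat_lit 9) 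
(.lf (nat_lit 478684) (.g (nat_lit 2148) (.e (nat_lit 2059) (nat_lit 142) (.e (nat_lit 704589) (nat_lit 3) (.e (nat_lit 163978) (nat_lit 30) (.e (nat_lit 573485) (nat_lit 13) (.e (nat_lit 65619) (nat_lit 10) (.e (nat_lit 344117) (nat_lit 21) (.e (nat_lit 516147) (nat_lit 9) (.e (nat_lit 426405) (nat_lit 15) .nil)))))))) (.g (nat_lit 1) (.e (nat_lit 104599) (nat_lit 0) .nil) .nil))) 
(.lf (nat_lit 479196) (.g (nat_lit 2199) (.e (nat_lit 5223) (nat_lit 296) (.e (nat_lit 163882) (nat_lit 4) (.e (nat_lit 213030) (nat_lit 11) (.e (nat_lit 24660) (nat_lit 13) (.e (nat_lit 393283) (nat_lit 24) (.e (nat_lit 434209) (nat_lit 18) .nil)))))) (.g (nat_lit 1) (.e (nat_lit 107287) (nat_lit 0) .nil) .nil))))))) (.nd (nat_lit 6) (.nd (nat_lit 7) (.nd (nat_lit 8) (.nd (nat_lit 9) 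
(.lf (nat_lit 478268) (.g (nat_lit 1032) (.e (nat_lit 2057) (nat_lit 142) (.e (nat_lit 704598) (nat_lit 6) (.e (nat_lit 188439) (nat_lit 20) (.e (nat_lit 3406) (nat_lit 212) (.e (nat_lit 655380) (nat_lit 6) (.e (nat_lit 188420) (nat_lit 0) .nil)))))) (.g (nat_lit 1) (.e (nat_lit 104090) (nat_lit 0) .nil) .nil))) 
(.lf (nat_lit 478780) (.g (nat_lit 4815) (.e (nat_lit 2059) (nat_lit 142) (.e (nat_lit 704589) (nat_lit 3) (.e (nat_lit 163979) (nat_lit 30) (.e (nat_lit 573493) (nat_lit 15) (.e (nat_lit 81956) (nat_lit 23) (.e (nat_lit 98360) (nat_lit 26) (.e (nat_lit 426410) (nat_lit 15) .nil))))))) (.g (nat_lit 1) (.e (nat_lit 104711) (nat_lit 0) .nil) .nil)))) (.nd (nat_lit 9) 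
(.lf (nat_lit 478524) (.g (nat_lit 5222) (.e (nat_lit 2059) (nat_lit 142) (.e (nat_lit 704589) (nat_lit 3) (.e (nat_lit 163975) (nat_lit 30) (.e (nat_lit 573481) (nat_lit 13) (.e (nat_lit 65604) (nat_lit 9) (.e (nat_lit 336028) (nat_lit 3) (.e (nat_lit 98359) (nat_lit 26) (.e (nat_lit 426396) (nat_lit 15) .nil)))))))) (.g (nat_lit 1) (.e (nat_lit 104411) (nat_lit 0) .nil) .nil))) 
(.lf (nat_lit 479036) (.g (nat_lit 955) (.e (nat_lit 4421) (nat_lit 261) (.e (nat_lit 163875) (nat_lit 3) (.e (nat_lit 204846) (nat_lit 24) .nil))) (.g (nat_lit 0) (.e (nat_lit 105932) (nat_lit 0) .nil) .nil))))) (.nd (nat_lit 8) (.nd (nat_lit 9) 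
(.lf (nat_lit 478396) (.g (nat_lit 4388) (.e (nat_lit 2058) (nat_lit 142) (.e (nat_lit 704589) (nat_lit 3) (.e (nat_lit 163978) (nat_lit 30) (.e (nat_lit 573485) (nat_lit 13) (.e (nat_lit 65604) (nat_lit 9) (.e (nat_lit 336028) (nat_lit 3) (.e (nat_lit 98359) (nat_lit 26) (.e (nat_lit 426396) (nat_lit 15) .nil)))))))) (.g (nat_lit 1) (.e (nat_lit 104236) (nat_lit 0) .nil) .nil))) 
(.lf (nat_lit 478908) (.g (nat_lit 3447) (.e (nat_lit 2174) (nat_lit 143) (.e (nat_lit 712745) (nat_lit 27) (.e (nat_lit 426347) (nat_lit 14) (.e (nat_lit 491571) (nat_lit 13) (.e (nat_lit 393269) (nat_lit 23) (.e (nat_lit 426382) (nat_lit 15) .nil)))))) (.g (nat_lit 1) (.e (nat_lit 105105) (nat_lit 0) .nil) .nil)))) (.nd (nat_lit 9) 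
(.lf (nat_lit 478652) (.g (nat_lit 4317) (.e (nat_lit 2059) (nat_lit 142) (.e (nat_lit 704589) (nat_lit 3) (.e (nat_lit 163976) (nat_lit 30) (.e (nat_lit 573492) (nat_lit 15) (.e (nat_lit 81956) (nat_lit 23) (.e (nat_lit 98356) (nat_lit 26) (.e (nat_lit 426416) (nat_lit 15) .nil))))))) (.g (nat_lit 1) (.e (nat_lit 104562) (nat_lit 0) .nil) .nil))) 
(.lf (nat_lit 479164) (.g (nat_lit 1675) (.e (nat_lit 5222) (nat_lit 296) (.e (nat_lit 163933) (nat_lit 17) (.e (nat_lit 466971) (nat_lit 21) (.e (nat_lit 164319) (nat_lit 228) (.e (nat_lit 57427) (nat_lit 15) .nil))))) (.g (nat_lit 0) (.e (nat_lit 107090) (nat_lit 0) .nil) .nil)))))) (.nd (nat_lit 7) (.nd (nat_lit 8) (.nd (nat_lit 9) 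
(.lf (nat_lit 478332) (.g (nat_lit 3900) (.e (nat_lit 2058) (nat_lit 142) (.e (nat_lit 704589) (nat_lit 3) (.e (nat_lit 163975) (nat_lit 30) (.e (nat_lit 573492) (nat_lit 15) (.e (nat_lit 81956) (nat_lit 23) (.e (nat_lit 98359) (nat_lit 26) (.e (nat_lit 426410) (nat_lit 15) .nil))))))) (.g (nat_lit 1) (.e (nat_lit 104164) (nat_lit 0) .nil) .nil))) 
(.lf (nat_lit 478844) (.g (nat_lit 2359) (.e (nat_lit 2147) (nat_lit 142) (.e (nat_lit 704597) (nat_lit 6) (.e (nat_lit 188444) (nat_lit 21) (.e (nat_lit 164347) (nat_lit 240) (.e (nat_lit 2648) (nat_lit 166) (.e (nat_lit 188416) (nat_lit 0) .nil)))))) (.g (nat_lit 1) (.e (nat_lit 104977) (nat_lit 0) .nil) .nil)))) (.nd (nat_lit 9) 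
(.lf (nat_lit 478588) (.g (nat_lit 4835) (.e (nat_lit 2059) (nat_lit 142) (.e (nat_lit 704589) (nat_lit 3) (.e (nat_lit 163975) (nat_lit 30) (.e (nat_lit 573492) (nat_lit 15) (.e (nat_lit 81956) (nat_lit 23) (.e (nat_lit 98356) (nat_lit 26) (.e (nat_lit 426416) (nat_lit 15) .nil))))))) (.g (nat_lit 1) (.e (nat_lit 104487) (nat_lit 0) .nil) .nil))) 
(.lf (nat_lit 479100) (.g (nat_lit 2350) (.e (nat_lit 4849) (nat_lit 285) (.e (nat_lit 163869) (nat_lit 2) (.e (nat_lit 196666) (nat_lit 13) (.e (nat_lit 65610) (nat_lit 10) (.e (nat_lit 344117) (nat_lit 21) (.e (nat_lit 516145) (nat_lit 9) (.e (nat_lit 426093) (nat_lit 0) (.e (nat_lit 2422) (nat_lit 157) .nil)))))))) (.g (nat_lit 1) (.e (nat_lit 106485) (nat_lit 0) .nil) .nil))))) 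
(.nd (nat_lit 8) (.nd (nat_lit 9) 
(.lf (nat_lit 478460) (.g (nat_lit 3325) (.e (nat_lit 2058) (nat_lit 142) (.e (nat_lit 704589) (nat_lit 3) (.e (nat_lit 163979) (nat_lit 30) (.e (nat_lit 573492) (nat_lit 15) (.e (nat_lit 81956) (nat_lit 23) (.e (nat_lit 98355) (nat_lit 26) (.e (nat_lit 426374) (nat_lit 15) .nil))))))) (.g (nat_lit 1) (.e (nat_lit 104300) (nat_lit 0) .nil) .nil))) 
(.lf (nat_lit 478972) (.g (nat_lit 2444) (.e (nat_lit 2175) (nat_lit 143) (.e (nat_lit 712752) (nat_lit 29) (.e (nat_lit 442421) (nat_lit 21) (.e (nat_lit 164347) (nat_lit 240) (.e (nat_lit 2650) (nat_lit 166) (.e (nat_lit 188418) (nat_lit 0) .nil)))))) (.g (nat_lit 1) (.e (nat_lit 105177) (nat_lit 0) .nil) .nil)))) (.nd (nat_lit 9) 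
(.lf (nat_lit 478716) (.g (nat_lit 2972) (.e (nat_lit 2059) (nat_lit 142) (.e (nat_lit 704589) (nat_lit 3) (.e (nat_lit 163979) (nat_lit 30) (.e (nat_lit 573482) (nat_lit 13) (.e (nat_lit 65619) (nat_lit 10) (.e (nat_lit 344117) (nat_lit 21) (.e (nat_lit 516147) (nat_lit 9) (.e (nat_lit 426376) (nat_lit 15) .nil)))))))) (.g (nat_lit 1) (.e (nat_lit 104631) (nat_lit 0) .nil) .nil))) 
(.lf (nat_lit 479228) (.g (nat_lit 1488) (.e (nat_lit 5224) (nat_lit 296) (.e (nat_lit 163871) (nat_lit 2) (.e (nat_lit 196655) (nat_lit 11) (.e (nat_lit 16465) (nat_lit 13) (.e (nat_lit 491264) (nat_lit 10) .nil))))) (.g (nat_lit 0) (.e (nat_lit 107482) (nat_lit 0) .nil) .nil))))))))))) 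
(.nd (nat_lit 2) (.nd (nat_lit 3) (.nd (nat_lit 4) (.nd (nat_lit 5) (.nd (nat_lit 6) 
(.nd (nat_lit 7) (.nd (nat_lit 8) (.nd (nat_lit 9) 
(.lf (nat_lit 478210) (.g (nat_lit 277) (.e (nat_lit 2056) (nat_lit 142) (.e (nat_lit 704595) (nat_lit 5) (.e (nat_lit 180278) (nat_lit 32) .nil))) (.g (nat_lit 0) (.e (nat_lit 104002) (nat_lit 0) .nil) .nil))) 
(.lf (nat_lit 478722) (.g (nat_lit 5457) (.e (nat_lit 2059) (nat_lit 142) (.e (nat_lit 704589) (nat_lit 3) (.e (nat_lit 163979) (nat_lit 30) (.e (nat_lit 573482) (nat_lit 13) (.e (nat_lit 65619) (nat_lit 10) (.e (nat_lit 344117) (nat_lit 21) (.e (nat_lit 516151) (nat_lit 9) (.e (nat_lit 426410) (nat_lit 15) .nil)))))))) (.g (nat_lit 1) (.e (nat_lit 104637) (nat_lit 0) .nil) .nil)))) 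
(.nd (nat_lit 9) 
(.lf (nat_lit 478466) (.g (nat_lit 4465) (.e (nat_lit 2058) (nat_lit 142) (.e (nat_lit 704589) (nat_lit 3) (.e (nat_lit 163979) (nat_lit 30) (.e (nat_lit 573492) (nat_lit 15) (.e (nat_lit 81956) (nat_lit 23) (.e (nat_lit 98356) (nat_lit 26) (.e (nat_lit 426416) (nat_lit 15) .nil))))))) (.g (nat_lit 1) (.e (nat_lit 104306) (nat_lit 0) .nil) .nil))) 
(.lf (nat_lit 478978) (.g (nat_lit 1835) (.e (nat_lit 2175) (nat_lit 143) (.e (nat_lit 712752) (nat_lit 29) (.e (nat_lit 442430) (nat_lit 24) (.e (nat_lit 229666) (nat_lit 240) (.e (nat_lit 2653) (nat_lit 166) (.e (nat_lit 188418) (nat_lit 0) .nil)))))) (.g (nat_lit 1) (.e (nat_lit 105183) (nat_lit 0) .nil) .nil))))) (.nd (nat_lit 8) (.nd (nat_lit 9) 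
(.lf (nat_lit 478338) (.g (nat_lit 5311) (.e (nat_lit 2058) (nat_lit 142) (.e (nat_lit 704589) (nat_lit 3) (.e (nat_lit 163976) (nat_lit 30) (.e (nat_lit 573481) (nat_lit 13) (.e (nat_lit 65604) (nat_lit 9) (.e (nat_lit 336013) (nat_lit 2) (.e (nat_lit 90170) (nat_lit 13) (.e (nat_lit 172136) (nat_lit 15) .nil)))))))) (.g (nat_lit 1) (.e (nat_lit 104173) (nat_lit 0) .nil) .nil))) 
(.lf (nat_lit 478850) (.g (nat_lit 2435) (.e (nat_lit 2147) (nat_lit 142) (.e (nat_lit 704597) (nat_lit 6) (.e (nat_lit 188446) (nat_lit 21) (.e (nat_lit 164347) (nat_lit 240) (.e (nat_lit 2650) (nat_lit 166) (.e (nat_lit 188416) (nat_lit 0) .nil)))))) (.g (nat_lit 1) (.e (nat_lit 104983) (nat_lit 0) .nil) .nil)))) (.nd (nat_lit 9) 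
(.lf (nat_lit 478594) (.g (nat_lit 5279) (.e (nat_lit 2059) (nat_lit 142) (.e (nat_lit 704589) (nat_lit 3) (.e (nat_lit 163975) (nat_lit 30) (.e (nat_lit 573492) (nat_lit 15) (.e (nat_lit 81956) (nat_lit 23) (.e (nat_lit 98362) (nat_lit 26) (.e (nat_lit 426412) (nat_lit 15) .nil))))))) (.g (nat_lit 1) (.e (nat_lit 104493) (nat_lit 0) .nil) .nil))) 
(.lf (nat_lit 479106) (.g (nat_lit 4707) (.e (nat_lit 4849) (nat_lit 285) (.e (nat_lit 163870) (nat_lit 2) (.e (nat_lit 196666) (nat_lit 13) (.e (nat_lit 65610) (nat_lit 10) (.e (nat_lit 344117) (nat_lit 21) (.e (nat_lit 516160) (nat_lit 10) (.e (nat_lit 434200) (nat_lit 18) .nil))))))) (.g (nat_lit 1) (.e (nat_lit 106494) (nat_lit 0) .nil) .nil)))))) 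
(.nd (nat_lit 7) (.nd (nat_lit 8) (.nd (nat_lit 9) 
(.lf (nat_lit 478274) (.g (nat_lit 3149) (.e (nat_lit 2057) (nat_lit 142) (.e (nat_lit 704598) (nat_lit 6) (.e (nat_lit 188453) (nat_lit 24) (.e (nat_lit 229663) (nat_lit 240) (.e (nat_lit 2651) (nat_lit 166) (.e (nat_lit 188420) (nat_lit 0) .nil)))))) (.g (nat_lit 1) (.e (nat_lit 104098) (nat_lit 0) .nil) .nil))) 
(.lf (nat_lit 478786) (.g (nat_lit 6105) (.e (nat_lit 2059) (nat_lit 142) (.e (nat_lit 704589) (nat_lit 3) (.e (nat_lit 163979) (nat_lit 30) (.e (nat_lit 573493) (nat_lit 15) (.e (nat_lit 81956) (nat_lit 23) (.e (nat_lit 98365) (nat_lit 26) (.e (nat_lit 426413) (nat_lit 15) .nil))))))) (.g (nat_lit 1) (.e (nat_lit 104717) (nat_lit 0) .nil) .nil)))) (.nd (nat_lit 9) 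
(.lf (nat_lit 478530) (.g (nat_lit 4798) (.e (nat_lit 2059) (nat_lit 142) (.e (nat_lit 704589) (nat_lit 3) (.e (nat_lit 163975) (nat_lit 30) (.e (nat_lit 573481) (nat_lit 13) (.e (nat_lit 65619) (nat_lit 10) (.e (nat_lit 344117) (nat_lit 21) (.e (nat_lit 516143) (nat_lit 9) (.e (nat_lit 426396) (nat_lit 15) .nil)))))))) (.g (nat_lit 1) (.e (nat_lit 104417) (nat_lit 0) .nil) .nil))) 
(.lf (nat_lit 479042) (.g (nat_lit 2371) (.e (nat_lit 4425) (nat_lit 261) (.e (nat_lit 163869) (nat_lit 2) (.e (nat_lit 196666) (nat_lit 13) (.e (nat_lit 65610) (nat_lit 10) (.e (nat_lit 344129) (nat_lit 26) .nil))))) (.g (nat_lit 0) (.e (nat_lit 105961) (nat_lit 0) .nil) .nil))))) (.nd (nat_lit 8) (.nd (nat_lit 9) 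
(.lf (nat_lit 478402) (.g (nat_lit 4346) (.e (nat_lit 2058) (nat_lit 142) (.e (nat_lit 704589) (nat_lit 3) (.e (nat_lit 163978) (nat_lit 30) (.e (nat_lit 573485) (nat_lit 13) (.e (nat_lit 65619) (nat_lit 10) (.e (nat_lit 344117) (nat_lit 21) (.e (nat_lit 516144) (nat_lit 9) (.e (nat_lit 426376) (nat_lit 15) .nil)))))))) (.g (nat_lit 1) (.e (nat_lit 104242) (nat_lit 0) .nil) .nil))) 
(.lf (nat_lit 478914) (.g (nat_lit 2213) (.e (nat_lit 2174) (nat_lit 143) (.e (nat_lit 712745) (nat_lit 27) (.e (nat_lit 426347) (nat_lit 14) (.e (nat_lit 491571) (nat_lit 13) (.e (nat_lit 393274) (nat_lit 23) (.e (nat_lit 426414) (nat_lit 15) .nil)))))) (.g (nat_lit 1) (.e (nat_lit 105111) (nat_lit 0) .nil) .nil)))) (.nd (nat_lit 9) 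
(.lf (nat_lit 478658) (.g (nat_lit 1999) (.e (nat_lit 2059) (nat_lit 142) (.e (nat_lit 704589) (nat_lit 3) (.e (nat_lit 163976) (nat_lit 30) (.e (nat_lit 573492) (nat_lit 15) (.e (nat_lit 81956) (nat_lit 23) (.e (nat_lit 106240) (nat_lit 26) (.e (nat_lit 426419) (nat_lit 15) .nil))))))) (.g (nat_lit 1) (.e (nat_lit 104568) (nat_lit 0) .nil) .nil))) 
(.lf (nat_lit 479170) (.g (nat_lit 1705) (.e (nat_lit 5223) (nat_lit 296) (.e (nat_lit 163868) (nat_lit 2) (.e (nat_lit 196655) (nat_lit 11) (.e (nat_lit 16465) (nat_lit 13) (.e (nat_lit 483339) (nat_lit 9) (.e (nat_lit 426072) (nat_lit 0) (.e (nat_lit 2475) (nat_lit 157) .nil))))))) (.g (nat_lit 1) (.e (nat_lit 107194) (nat_lit 0) .nil) .nil))))))) 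
(.nd (nat_lit 6) (.nd (nat_lit 7) (.nd (nat_lit 8) (.nd (nat_lit 9) 
(.lf (nat_lit 478242) (.g (nat_lit 2865) (.e (nat_lit 2057) (nat_lit 142) (.e (nat_lit 704589) (nat_lit 3) (.e (nat_lit 163978) (nat_lit 30) (.e (nat_lit 573479) (nat_lit 13) (.e (nat_lit 65619) (nat_lit 10) .nil))))) (.g (nat_lit 0) (.e (nat_lit 104040) (nat_lit 0) .nil) .nil))) 
(.lf (nat_lit 478754) (.g (nat_lit 3035) (.e (nat_lit 2059) (nat_lit 142) (.e (nat_lit 704589) (nat_lit 3) (.e (nat_lit 163979) (nat_lit 30) (.e (nat_lit 573492) (nat_lit 15) (.e (nat_lit 81956) (nat_lit 23) (.e (nat_lit 98355) (nat_lit 26) (.e (nat_lit 426382) (nat_lit 15) .nil))))))) (.g (nat_lit 1) (.e (nat_lit 104670) (nat_lit 0) .nil) .nil)))) (.nd (nat_lit 9) 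
(.lf (nat_lit 478498) (.g (nat_lit 2976) (.e (nat_lit 2058) (nat_lit 142) (.e (nat_lit 704592) (nat_lit 4) (.e (nat_lit 172120) (nat_lit 12) (.e (nat_lit 475199) (nat_lit 40) (.e (nat_lit 704598) (nat_lit 6) (.e (nat_lit 188420) (nat_lit 0) .nil)))))) (.g (nat_lit 1) (.e (nat_lit 104351) (nat_lit 0) .nil) .nil))) 
(.lf (nat_lit 479010) (.g (nat_lit 4463) (.e (nat_lit 3978) (nat_lit 239) (.e (nat_lit 2638) (nat_lit 165) (.e (nat_lit 180278) (nat_lit 32) (.e (nat_lit 1253) (nat_lit 92) (.e (nat_lit 98373) (nat_lit 29) (.e (nat_lit 450567) (nat_lit 0) .nil)))))) (.g (nat_lit 1) (.e (nat_lit 105443) (nat_lit 0) .nil) .nil))))) (.nd (nat_lit 8) (.nd (nat_lit 9) 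
(.lf (nat_lit 478370) (.g (nat_lit 4169) (.e (nat_lit 2058) (nat_lit 142) (.e (nat_lit 704589) (nat_lit 3) (.e (nat_lit 163976) (nat_lit 30) (.e (nat_lit 573492) (nat_lit 15) (.e (nat_lit 81953) (nat_lit 22) (.e (nat_lit 90170) (nat_lit 13) (.e (nat_lit 172137) (nat_lit 15) .nil))))))) (.g (nat_lit 1) (.e (nat_lit 104205) (nat_lit 0) .nil) .nil))) 
(.lf (nat_lit 478882) (.g (nat_lit 2615) (.e (nat_lit 2174) (nat_lit 143) (.e (nat_lit 712745) (nat_lit 27) (.e (nat_lit 426347) (nat_lit 14) (.e (nat_lit 491569) (nat_lit 13) (.e (nat_lit 393281) (nat_lit 23) (.e (nat_lit 426387) (nat_lit 15) .nil)))))) (.g (nat_lit 1) (.e (nat_lit 105079) (nat_lit 0) .nil) .nil)))) (.nd (nat_lit 9) 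
(.lf (nat_lit 478626) (.g (nat_lit 3621) (.e (nat_lit 2059) (nat_lit 142) (.e (nat_lit 704589) (nat_lit 3) (.e (nat_lit 163976) (nat_lit 30) (.e (nat_lit 573491) (nat_lit 15) (.e (nat_lit 81954) (nat_lit 23) (.e (nat_lit 98356) (nat_lit 26) (.e (nat_lit 426393) (nat_lit 15) .nil))))))) (.g (nat_lit 1) (.e (nat_lit 104530) (nat_lit 0) .nil) .nil))) 
(.lf (nat_lit 479138) (.g (nat_lit 2210) (.e (nat_lit 5122) (nat_lit 292) (.e (nat_lit 2649) (nat_lit 166) (.e (nat_lit 188434) (nat_lit 20) (.e (nat_lit 3391) (nat_lit 210) (.e (nat_lit 639008) (nat_lit 13) (.e (nat_lit 1586) (nat_lit 111) (.e (nat_lit 368384) (nat_lit 0) .nil))))))) (.g (nat_lit 1) (.e (nat_lit 106867) (nat_lit 0) .nil) .nil)))))) 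
(.nd (nat_lit 7) (.nd (nat_lit 8) (.nd (nat_lit 9) 
(.lf (nat_lit 478306) (.g (nat_lit 1925) (.e (nat_lit 2058) (nat_lit 142) (.e (nat_lit 704589) (nat_lit 3) (.e (nat_lit 163975) (nat_lit 30) (.e (nat_lit 573491) (nat_lit 15) (.e (nat_lit 81954) (nat_lit 23) (.e (nat_lit 98355) (nat_lit 26) (.e (nat_lit 426420) (nat_lit 15) .nil))))))) (.g (nat_lit 1) (.e (nat_lit 104133) (nat_lit 0) .nil) .nil))) 
(.lf (nat_lit 478818) (.g (nat_lit 2129) (.e (nat_lit 2076) (nat_lit 142) (.e (nat_lit 704734) (nat_lit 11) (.e (nat_lit 16416) (nat_lit 3) (.e (nat_lit 204861) (nat_lit 26) (.e (nat_lit 336075) (nat_lit 9) .nil))))) (.g (nat_lit 0) (.e (nat_lit 104802) (nat_lit 0) .nil) .nil)))) (.nd (nat_lit 9) 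
(.lf (nat_lit 478562) (.g (nat_lit 2359) (.e (nat_lit 2059) (nat_lit 142) (.e (nat_lit 704589) (nat_lit 3) (.e (nat_lit 163975) (nat_lit 30) (.e (nat_lit 573491) (nat_lit 15) (.e (nat_lit 81954) (nat_lit 23) (.e (nat_lit 98359) (nat_lit 26) (.e (nat_lit 426414) (nat_lit 15) .nil))))))) (.g (nat_lit 1) (.e (nat_lit 104449) (nat_lit 0) .nil) .nil))) 
(.lf (nat_lit 479074) (.g (nat_lit 1782) (.e (nat_lit 4539) (nat_lit 267) (.e (nat_lit 163871) (nat_lit 2) (.e (nat_lit 196656) (nat_lit 11) (.e (nat_lit 16425) (nat_lit 7) .nil)))) (.g (nat_lit 0) (.e (nat_lit 106155) (nat_lit 0) .nil) .nil))))) (.nd (nat_lit 8) (.nd (nat_lit 9) 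
(.lf (nat_lit 478434) (.g (nat_lit 2954) (.e (nat_lit 2058) (nat_lit 142) (.e (nat_lit 704589) (nat_lit 3) (.e (nat_lit 163979) (nat_lit 30) (.e (nat_lit 573482) (nat_lit 13) (.e (nat_lit 65619) (nat_lit 10) (.e (nat_lit 344117) (nat_lit 21) (.e (nat_lit 516147) (nat_lit 9) (.e (nat_lit 426393) (nat_lit 15) .nil)))))))) (.g (nat_lit 1) (.e (nat_lit 104274) (nat_lit 0) .nil) .nil))) 
(.lf (nat_lit 478946) (.g (nat_lit 2994) (.e (nat_lit 2175) (nat_lit 143) (.e (nat_lit 712745) (nat_lit 27) (.e (nat_lit 426347) (nat_lit 14) (.e (nat_lit 491569) (nat_lit 13) (.e (nat_lit 393279) (nat_lit 23) (.e (nat_lit 426419) (nat_lit 15) .nil)))))) (.g (nat_lit 1) (.e (nat_lit 105151) (nat_lit 0) .nil) .nil)))) (.nd (nat_lit 9) 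
(.lf (nat_lit 478690) (.g (nat_lit 3467) (.e (nat_lit 2059) (nat_lit 142) (.e (nat_lit 704589) (nat_lit 3) (.e (nat_lit 163978) (nat_lit 30) (.e (nat_lit 573485) (nat_lit 13) (.e (nat_lit 65619) (nat_lit 10) (.e (nat_lit 344117) (nat_lit 21) (.e (nat_lit 516152) (nat_lit 9) (.e (nat_lit 426411) (nat_lit 15) .nil)))))))) (.g (nat_lit 1) (.e (nat_lit 104605) (nat_lit 0) .nil) .nil))) 
(.lf (nat_lit 479202) (.g (nat_lit 1825) (.e (nat_lit 5223) (nat_lit 296) (.e (nat_lit 163903) (nat_lit 12) (.e (nat_lit 426566) (nat_lit 34) (.e (nat_lit 393271) (nat_lit 23) .nil)))) (.g (nat_lit 0) (.e (nat_lit 107294) (nat_lit 0) .nil) .nil)))))))) (.nd (nat_lit 5) (.nd (nat_lit 6) (.nd (nat_lit 7) (.nd (nat_lit 8) (.nd (nat_lit 9) 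
(.lf (nat_lit 478226) (.g (nat_lit 2974) (.e (nat_lit 2057) (nat_lit 142) (.e (nat_lit 704589) (nat_lit 3) (.e (nat_lit 163975) (nat_lit 30) (.e (nat_lit 573491) (nat_lit 15) (.e (nat_lit 81954) (nat_lit 23) (.e (nat_lit 98356) (nat_lit 26) (.e (nat_lit 426416) (nat_lit 15) .nil))))))) (.g (nat_lit 1) (.e (nat_lit 104023) (nat_lit 0) .nil) .nil))) 
(.lf (nat_lit 478738) (.g (nat_lit 4223) (.e (nat_lit 2059) (nat_lit 142) (.e (nat_lit 704589) (nat_lit 3) (.e (nat_lit 163979) (nat_lit 30) (.e (nat_lit 573491) (nat_lit 15) (.e (nat_lit 81954) (nat_lit 23) (.e (nat_lit 98356) (nat_lit 26) (.e (nat_lit 426393) (nat_lit 15) .nil))))))) (.g (nat_lit 1) (.e (nat_lit 104653) (nat_lit 0) .nil) .nil)))) (.nd (nat_lit 9) 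
(.lf (nat_lit 478482) (.g (nat_lit 5259) (.e (nat_lit 2058) (nat_lit 142) (.e (nat_lit 704589) (nat_lit 3) (.e (nat_lit 163979) (nat_lit 30) (.e (nat_lit 573493) (nat_lit 15) (.e (nat_lit 81956) (nat_lit 23) (.e (nat_lit 98356) (nat_lit 26) (.e (nat_lit 426393) (nat_lit 15) .nil))))))) (.g (nat_lit 1) (.e (nat_lit 104324) (nat_lit 0) .nil) .nil))) 
(.lf (nat_lit 478994) (.g (nat_lit 4454) (.e (nat_lit 2198) (nat_lit 144) (.e (nat_lit 720945) (nat_lit 23) (.e (nat_lit 98333) (nat_lit 18) (.e (nat_lit 164327) (nat_lit 230) (.e (nat_lit 163875) (nat_lit 3) (.e (nat_lit 204809) (nat_lit 9) (.e (nat_lit 426139) (nat_lit 3) (.e (nat_lit 204817) (nat_lit 17) .nil)))))))) (.g (nat_lit 1) (.e (nat_lit 105239) (nat_lit 0) .nil) .nil))))) 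
(.nd (nat_lit 8) (.nd (nat_lit 9) 
(.lf (nat_lit 478354) (.g (nat_lit 2533) (.e (nat_lit 2058) (nat_lit 142) (.e (nat_lit 704589) (nat_lit 3) (.e (nat_lit 163976) (nat_lit 30) (.e (nat_lit 573491) (nat_lit 15) (.e (nat_lit 81954) (nat_lit 23) (.e (nat_lit 98355) (nat_lit 26) (.e (nat_lit 426376) (nat_lit 15) .nil))))))) (.g (nat_lit 1) (.e (nat_lit 104189) (nat_lit 0) .nil) .nil))) 
(.lf (nat_lit 478866) (.g (nat_lit 1811) (.e (nat_lit 7936) (nat_lit 142) (.e (nat_lit 704734) (nat_lit 11) (.e (nat_lit 16416) (nat_lit 3) (.e (nat_lit 204861) (nat_lit 26) (.e (nat_lit 336075) (nat_lit 9) .nil))))) (.g (nat_lit 0) (.e (nat_lit 105029) (nat_lit 0) .nil) .nil)))) (.nd (nat_lit 9) 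
(.lf (nat_lit 478610) (.g (nat_lit 3191) (.e (nat_lit 2059) (nat_lit 142) (.e (nat_lit 704589) (nat_lit 3) (.e (nat_lit 163976) (nat_lit 30) (.e (nat_lit 573481) (nat_lit 13) (.e (nat_lit 65619) (nat_lit 10) (.e (nat_lit 344117) (nat_lit 21) (.e (nat_lit 516147) (nat_lit 9) (.e (nat_lit 426375) (nat_lit 15) .nil)))))))) (.g (nat_lit 1) (.e (nat_lit 104514) (nat_lit 0) .nil) .nil))) 
(.lf (nat_lit 479122) (.g (nat_lit 2843) (.e (nat_lit 4931) (nat_lit 287) (.e (nat_lit 2797) (nat_lit 180) (.e (nat_lit 303145) (nat_lit 13) (.e (nat_lit 483405) (nat_lit 26) (.e (nat_lit 385101) (nat_lit 49) .nil))))) (.g (nat_lit 0) (.e (nat_lit 106575) (nat_lit 0) .nil) .nil)))))) (.nd (nat_lit 7) (.nd (nat_lit 8) (.nd (nat_lit 9) 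
(.lf (nat_lit 478290) (.g (nat_lit 4117) (.e (nat_lit 2058) (nat_lit 142) (.e (nat_lit 704589) (nat_lit 3) (.e (nat_lit 163975) (nat_lit 30) (.e (nat_lit 573481) (nat_lit 13) (.e (nat_lit 65619) (nat_lit 10) (.e (nat_lit 344117) (nat_lit 21) (.e (nat_lit 516144) (nat_lit 9) (.e (nat_lit 426375) (nat_lit 15) .nil)))))))) (.g (nat_lit 1) (.e (nat_lit 104117) (nat_lit 0) .nil) .nil))) 
(.lf (nat_lit 478802) (.g (nat_lit 1764) (.e (nat_lit 2059) (nat_lit 142) (.e (nat_lit 704599) (nat_lit 6) (.e (nat_lit 188444) (nat_lit 21) (.e (nat_lit 164347) (nat_lit 240) (.e (nat_lit 2648) (nat_lit 166) (.e (nat_lit 188420) (nat_lit 0) .nil)))))) (.g (nat_lit 1) (.e (nat_lit 104780) (nat_lit 0) .nil) .nil)))) (.nd (nat_lit 9) 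
(.lf (nat_lit 478546) (.g (nat_lit 1071) (.e (nat_lit 2059) (nat_lit 142) (.e (nat_lit 704589) (nat_lit 3) (.e (nat_lit 163975) (nat_lit 30) (.e (nat_lit 573491) (nat_lit 15) .nil)))) (.g (nat_lit 0) (.e (nat_lit 104433) (nat_lit 0) .nil) .nil))) 
(.lf (nat_lit 479058) (.g (nat_lit 3515) (.e (nat_lit 4507) (nat_lit 263) (.e (nat_lit 2619) (nat_lit 164) (.e (nat_lit 172062) (nat_lit 2) (.e (nat_lit 196666) (nat_lit 13) (.e (nat_lit 65610) (nat_lit 10) (.e (nat_lit 344117) (nat_lit 21) (.e (nat_lit 516102) (nat_lit 0) (.e (nat_lit 2403) (nat_lit 157) .nil)))))))) (.g (nat_lit 1) (.e (nat_lit 106082) (nat_lit 0) .nil) .nil))))) 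
(.nd (nat_lit 8) (.nd (nat_lit 9) 
(.lf (nat_lit 478418) (.g (nat_lit 6117) (.e (nat_lit 2058) (nat_lit 142) (.e (nat_lit 704589) (nat_lit 3) (.e (nat_lit 163979) (nat_lit 30) (.e (nat_lit 573482) (nat_lit 13) (.e (nat_lit 65604) (nat_lit 9) (.e (nat_lit 336013) (nat_lit 2) (.e (nat_lit 90170) (nat_lit 13) (.e (nat_lit 172136) (nat_lit 15) .nil)))))))) (.g (nat_lit 1) (.e (nat_lit 104258) (nat_lit 0) .nil) .nil))) 
(.lf (nat_lit 478930) (.g (nat_lit 2688) (.e (nat_lit 2174) (nat_lit 143) (.e (nat_lit 712752) (nat_lit 29) (.e (nat_lit 442421) (nat_lit 21) (.e (nat_lit 164348) (nat_lit 240) (.e (nat_lit 2648) (nat_lit 166) (.e (nat_lit 188420) (nat_lit 0) .nil)))))) (.g (nat_lit 1) (.e (nat_lit 105130) (nat_lit 0) .nil) .nil)))) (.nd (nat_lit 9) 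
(.lf (nat_lit 478674) (.g (nat_lit 2312) (.e (nat_lit 2059) (nat_lit 142) (.e (nat_lit 704589) (nat_lit 3) (.e (nat_lit 163978) (nat_lit 30) (.e (nat_lit 573485) (nat_lit 13) (.e (nat_lit 65604) (nat_lit 9) (.e (nat_lit 336028) (nat_lit 3) (.e (nat_lit 106240) (nat_lit 26) (.e (nat_lit 426419) (nat_lit 15) .nil)))))))) (.g (nat_lit 1) (.e (nat_lit 104588) (nat_lit 0) .nil) .nil))) 
(.lf (nat_lit 479186) (.g (nat_lit 2140) (.e (nat_lit 5223) (nat_lit 296) (.e (nat_lit 163871) (nat_lit 2) (.e (nat_lit 196656) (nat_lit 11) (.e (nat_lit 16465) (nat_lit 13) (.e (nat_lit 491264) (nat_lit 10) .nil))))) (.g (nat_lit 0) (.e (nat_lit 107262) (nat_lit 0) .nil) .nil))))))) (.nd (nat_lit 6) (.nd (nat_lit 7) (.nd (nat_lit 8) (.nd (nat_lit 9) 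
(.lf (nat_lit 478258) (.g (nat_lit 2726) (.e (nat_lit 2057) (nat_lit 142) (.e (nat_lit 704592) (nat_lit 4) (.e (nat_lit 172126) (nat_lit 14) (.e (nat_lit 491549) (nat_lit 9) (.e (nat_lit 336430) (nat_lit 29) (.e (nat_lit 442379) (nat_lit 0) .nil)))))) (.g (nat_lit 1) (.e (nat_lit 104058) (nat_lit 0) .nil) .nil))) 
(.lf (nat_lit 478770) (.g (nat_lit 3763) (.e (nat_lit 2059) (nat_lit 142) (.e (nat_lit 704589) (nat_lit 3) (.e (nat_lit 163979) (nat_lit 30) (.e (nat_lit 573493) (nat_lit 15) (.e (nat_lit 81956) (nat_lit 23) (.e (nat_lit 98355) (nat_lit 26) (.e (nat_lit 426376) (nat_lit 15) .nil))))))) (.g (nat_lit 1) (.e (nat_lit 104701) (nat_lit 0) .nil) .nil)))) (.nd (nat_lit 9) 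
(.lf (nat_lit 478514) (.g (nat_lit 1657) (.e (nat_lit 2058) (nat_lit 142) (.e (nat_lit 704599) (nat_lit 6) (.e (nat_lit 188445) (nat_lit 21) (.e (nat_lit 164345) (nat_lit 240) (.e (nat_lit 2648) (nat_lit 166) (.e (nat_lit 188420) (nat_lit 0) .nil)))))) (.g (nat_lit 1) (.e (nat_lit 104401) (nat_lit 0) .nil) .nil))) 
(.lf (nat_lit 479026) (.g (nat_lit 1253) (.e (nat_lit 7936) (nat_lit 239) (.e (nat_lit 1209) (nat_lit 89) (.e (nat_lit 73781) (nat_lit 32) (.e (nat_lit 2681) (nat_lit 168) .nil)))) (.g (nat_lit 0) (.e (nat_lit 105573) (nat_lit 0) .nil) .nil))))) (.nd (nat_lit 8) (.nd (nat_lit 9) 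
(.lf (nat_lit 478386) (.g (nat_lit 3042) (.e (nat_lit 2058) (nat_lit 142) (.e (nat_lit 704589) (nat_lit 3) (.e (nat_lit 163976) (nat_lit 30) (.e (nat_lit 573492) (nat_lit 15) (.e (nat_lit 81956) (nat_lit 23) (.e (nat_lit 98360) (nat_lit 26) (.e (nat_lit 426411) (nat_lit 15) .nil))))))) (.g (nat_lit 1) (.e (nat_lit 104223) (nat_lit 0) .nil) .nil))) 
(.lf (nat_lit 478898) (.g (nat_lit 2027) (.e (nat_lit 2174) (nat_lit 143) (.e (nat_lit 712745) (nat_lit 27) (.e (nat_lit 426347) (nat_lit 14) (.e (nat_lit 491571) (nat_lit 13) (.e (nat_lit 393267) (nat_lit 23) (.e (nat_lit 426375) (nat_lit 15) .nil)))))) (.g (nat_lit 1) (.e (nat_lit 105095) (nat_lit 0) .nil) .nil)))) (.nd (nat_lit 9) 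
(.lf (nat_lit 478642) (.g (nat_lit 5356) (.e (nat_lit 2059) (nat_lit 142) (.e (nat_lit 704589) (nat_lit 3) (.e (nat_lit 163976) (nat_lit 30) (.e (nat_lit 573492) (nat_lit 15) (.e (nat_lit 81953) (nat_lit 22) (.e (nat_lit 90167) (nat_lit 13) (.e (nat_lit 172138) (nat_lit 15) .nil))))))) (.g (nat_lit 1) (.e (nat_lit 104546) (nat_lit 0) .nil) .nil))) 
(.lf (nat_lit 479154) (.g (nat_lit 2313) (.e (nat_lit 5222) (nat_lit 296) (.e (nat_lit 163868) (nat_lit 2) (.e (nat_lit 196656) (nat_lit 11) (.e (nat_lit 16465) (nat_lit 13) .nil)))) (.g (nat_lit 0) (.e (nat_lit 107034) (nat_lit 0) .nil) .nil)))))) (.nd (nat_lit 7) (.nd (nat_lit 8) (.nd (nat_lit 9) 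
(.lf (nat_lit 478322) (.g (nat_lit 3835) (.e (nat_lit 2058) (nat_lit 142) (.e (nat_lit 704589) (nat_lit 3) (.e (nat_lit 163975) (nat_lit 30) (.e (nat_lit 573492) (nat_lit 15) (.e (nat_lit 81956) (nat_lit 23) (.e (nat_lit 98355) (nat_lit 26) (.e (nat_lit 426379) (nat_lit 15) .nil))))))) (.g (nat_lit 1) (.e (nat_lit 104154) (nat_lit 0) .nil) .nil))) 
(.lf (nat_lit 478834) (.g (nat_lit 794) (.e (nat_lit 2146) (nat_lit 142) (.e (nat_lit 704597) (nat_lit 6) (.e (nat_lit 188417) (nat_lit 0) (.e (nat_lit 2147) (nat_lit 142) (.e (nat_lit 704597) (nat_lit 6) (.e (nat_lit 188417) (nat_lit 0) .nil)))))) (.g (nat_lit 1) (.e (nat_lit 104943) (nat_lit 0) .nil) .nil)))) (.nd (nat_lit 9) 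
(.lf (nat_lit 478578) (.g (nat_lit 2362) (.e (nat_lit 2059) (nat_lit 142) (.e (nat_lit 704589) (nat_lit 3) (.e (nat_lit 163975) (nat_lit 30) (.e (nat_lit 573492) (nat_lit 15) (.e (nat_lit 81954) (nat_lit 23) (.e (nat_lit 98359) (nat_lit 26) (.e (nat_lit 426412) (nat_lit 15) .nil))))))) (.g (nat_lit 1) (.e (nat_lit 104477) (nat_lit 0) .nil) .nil))) 
(.lf (nat_lit 479090) (.g (nat_lit 1737) (.e (nat_lit 4823) (nat_lit 281) (.e (nat_lit 2555) (nat_lit 159) (.e (nat_lit 24651) (nat_lit 12) (.e (nat_lit 385106) (nat_lit 50) (.e (nat_lit 786483) (nat_lit 30) .nil))))) (.g (nat_lit 0) (.e (nat_lit 106426) (nat_lit 0) .nil) .nil))))) (.nd (nat_lit 8) (.nd (nat_lit 9) 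
(.lf (nat_lit 478450) (.g (nat_lit 4103) (.e (nat_lit 2058) (nat_lit 142) (.e (nat_lit 704589) (nat_lit 3) (.e (nat_lit 163979) (nat_lit 30) (.e (nat_lit 573491) (nat_lit 15) (.e (nat_lit 81954) (nat_lit 23) (.e (nat_lit 98356) (nat_lit 26) (.e (nat_lit 426416) (nat_lit 15) .nil))))))) (.g (nat_lit 1) (.e (nat_lit 104290) (nat_lit 0) .nil) .nil))) 
(.lf (nat_lit 478962) (.g (nat_lit 3234) (.e (nat_lit 2175) (nat_lit 143) (.e (nat_lit 712745) (nat_lit 27) (.e (nat_lit 426347) (nat_lit 14) (.e (nat_lit 491571) (nat_lit 13) (.e (nat_lit 393279) (nat_lit 23) (.e (nat_lit 426419) (nat_lit 15) .nil)))))) (.g (nat_lit 1) (.e (nat_lit 105167) (nat_lit 0) .nil) .nil)))) (.nd (nat_lit 9) 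
(.lf (nat_lit 478706) (.g (nat_lit 4755) (.e (nat_lit 2059) (nat_lit 142) (.e (nat_lit 704589) (nat_lit 3) (.e (nat_lit 163979) (nat_lit 30) (.e (nat_lit 573482) (nat_lit 13) (.e (nat_lit 65609) (nat_lit 10) (.e (nat_lit 344117) (nat_lit 21) (.e (nat_lit 516151) (nat_lit 9) (.e (nat_lit 426412) (nat_lit 15) .nil)))))))) (.g (nat_lit 1) (.e (nat_lit 104621) (nat_lit 0) .nil) .nil))) 
(.lf (nat_lit 479218) (.g (nat_lit 2727) (.e (nat_lit 5224) (nat_lit 296) (.e (nat_lit 163871) (nat_lit 2) (.e (nat_lit 196654) (nat_lit 11) (.e (nat_lit 16416) (nat_lit 3) (.e (nat_lit 204838) (nat_lit 20) (.e (nat_lit 114715) (nat_lit 22) (.e (nat_lit 90165) (nat_lit 12) (.e (nat_lit 163853) (nat_lit 0) .nil)))))))) (.g (nat_lit 1) (.e (nat_lit 107451) (nat_lit 0) .nil) .nil))))))))) 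
(.nd (nat_lit 4) (.nd (nat_lit 5) (.nd (nat_lit 6) (.nd (nat_lit 7) (.nd (nat_lit 8) 
(.nd (nat_lit 9) 
(.lf (nat_lit 478218) (.g (nat_lit 2794) (.e (nat_lit 2056) (nat_lit 142) (.e (nat_lit 704599) (nat_lit 6) (.e (nat_lit 188453) (nat_lit 24) (.e (nat_lit 229665) (nat_lit 240) (.e (nat_lit 2651) (nat_lit 166) (.e (nat_lit 188420) (nat_lit 0) .nil)))))) (.g (nat_lit 1) (.e (nat_lit 104015) (nat_lit 0) .nil) .nil))) 
(.lf (nat_lit 478730) (.g (nat_lit 3417) (.e (nat_lit 2059) (nat_lit 142) (.e (nat_lit 704589) (nat_lit 3) (.e (nat_lit 163979) (nat_lit 30) (.e (nat_lit 573491) (nat_lit 15) (.e (nat_lit 81954) (nat_lit 23) (.e (nat_lit 98355) (nat_lit 26) (.e (nat_lit 426375) (nat_lit 15) .nil))))))) (.g (nat_lit 1) (.e (nat_lit 104645) (nat_lit 0) .nil) .nil)))) (.nd (nat_lit 9) 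
(.lf (nat_lit 478474) (.g (nat_lit 4317) (.e (nat_lit 2058) (nat_lit 142) (.e (nat_lit 704589) (nat_lit 3) (.e (nat_lit 163979) (nat_lit 30) (.e (nat_lit 573493) (nat_lit 15) (.e (nat_lit 81956) (nat_lit 23) (.e (nat_lit 98355) (nat_lit 26) (.e (nat_lit 426376) (nat_lit 15) .nil))))))) (.g (nat_lit 1) (.e (nat_lit 104316) (nat_lit 0) .nil) .nil))) 
(.lf (nat_lit 478986) (.g (nat_lit 2918) (.e (nat_lit 2175) (nat_lit 143) (.e (nat_lit 712755) (nat_lit 30) (.e (nat_lit 450565) (nat_lit 0) (.e (nat_lit 5548) (nat_lit 306) (.e (nat_lit 2648) (nat_lit 166) (.e (nat_lit 188420) (nat_lit 0) .nil)))))) (.g (nat_lit 1) (.e (nat_lit 105192) (nat_lit 0) .nil) .nil))))) (.nd (nat_lit 8) (.nd (nat_lit 9) 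
(.lf (nat_lit 478346) (.g (nat_lit 2846) (.e (nat_lit 2058) (nat_lit 142) (.e (nat_lit 704589) (nat_lit 3) (.e (nat_lit 163976) (nat_lit 30) (.e (nat_lit 573481) (nat_lit 13) (.e (nat_lit 65619) (nat_lit 10) (.e (nat_lit 344117) (nat_lit 21) (.e (nat_lit 516147) (nat_lit 9) (.e (nat_lit 426375) (nat_lit 15) .nil)))))))) (.g (nat_lit 1) (.e (nat_lit 104181) (nat_lit 0) .nil) .nil))) 
(.lf (nat_lit 478858) (.g (nat_lit 2368) (.e (nat_lit 2148) (nat_lit 142) (.e (nat_lit 704597) (nat_lit 6) (.e (nat_lit 188455) (nat_lit 24) (.e (nat_lit 229665) (nat_lit 240) (.e (nat_lit 2651) (nat_lit 166) (.e (nat_lit 188417) (nat_lit 0) .nil)))))) (.g (nat_lit 1) (.e (nat_lit 105001) (nat_lit 0) .nil) .nil)))) (.nd (nat_lit 9) 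
(.lf (nat_lit 478602) (.g (nat_lit 5344) (.e (nat_lit 2059) (nat_lit 142) (.e (nat_lit 704589) (nat_lit 3) (.e (nat_lit 163976) (nat_lit 30) (.e (nat_lit 573481) (nat_lit 13) (.e (nat_lit 65604) (nat_lit 9) (.e (nat_lit 336013) (nat_lit 2) (.e (nat_lit 90170) (nat_lit 13) (.e (nat_lit 172136) (nat_lit 15) .nil)))))))) (.g (nat_lit 1) (.e (nat_lit 104505) (nat_lit 0) .nil) .nil))) 
(.lf (nat_lit 479114) (.g (nat_lit 1440) (.e (nat_lit 4929) (nat_lit 287) (.e (nat_lit 2797) (nat_lit 180) (.e (nat_lit 303145) (nat_lit 13) (.e (nat_lit 483405) (nat_lit 26) .nil)))) (.g (nat_lit 0) (.e (nat_lit 106561) (nat_lit 0) .nil) .nil)))))) (.nd (nat_lit 7) (.nd (nat_lit 8) (.nd (nat_lit 9) 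
(.lf (nat_lit 478282) (.g (nat_lit 661) (.e (nat_lit 2057) (nat_lit 142) (.e (nat_lit 704599) (nat_lit 6) (.e (nat_lit 188416) (nat_lit 0) (.e (nat_lit 2147) (nat_lit 142) (.e (nat_lit 704597) (nat_lit 6) .nil))))) (.g (nat_lit 0) (.e (nat_lit 104106) (nat_lit 0) .nil) .nil))) 
(.lf (nat_lit 478794) (.g (nat_lit 2346) (.e (nat_lit 2059) (nat_lit 142) (.e (nat_lit 704598) (nat_lit 6) (.e (nat_lit 188444) (nat_lit 21) (.e (nat_lit 164347) (nat_lit 240) (.e (nat_lit 2648) (nat_lit 166) (.e (nat_lit 188418) (nat_lit 0) .nil)))))) (.g (nat_lit 1) (.e (nat_lit 104772) (nat_lit 0) .nil) .nil)))) (.nd (nat_lit 9) 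
(.lf (nat_lit 478538) (.g (nat_lit 2670) (.e (nat_lit 2059) (nat_lit 142) (.e (nat_lit 704589) (nat_lit 3) (.e (nat_lit 163975) (nat_lit 30) (.e (nat_lit 573481) (nat_lit 13) (.e (nat_lit 65619) (nat_lit 10) (.e (nat_lit 344117) (nat_lit 21) (.e (nat_lit 516147) (nat_lit 9) (.e (nat_lit 426376) (nat_lit 15) .nil)))))))) (.g (nat_lit 1) (.e (nat_lit 104425) (nat_lit 0) .nil) .nil))) 
(.lf (nat_lit 479050) (.g (nat_lit 3668) (.e (nat_lit 4413) (nat_lit 259) (.e (nat_lit 57379) (nat_lit 3) (.e (nat_lit 98350) (nat_lit 24) (.e (nat_lit 409645) (nat_lit 18) (.e (nat_lit 303119) (nat_lit 3) .nil))))) (.g (nat_lit 0) (.e (nat_lit 106005) (nat_lit 0) .nil) .nil))))) (.nd (nat_lit 8) (.nd (nat_lit 9) 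
(.lf (nat_lit 478410) (.g (nat_lit 3512) (.e (nat_lit 2058) (nat_lit 142) (.e (nat_lit 704589) (nat_lit 3) (.e (nat_lit 163978) (nat_lit 30) (.e (nat_lit 573485) (nat_lit 13) (.e (nat_lit 65619) (nat_lit 10) (.e (nat_lit 344117) (nat_lit 21) (.e (nat_lit 516147) (nat_lit 9) (.e (nat_lit 426376) (nat_lit 15) .nil)))))))) (.g (nat_lit 1) (.e (nat_lit 104250) (nat_lit 0) .nil) .nil))) 
(.lf (nat_lit 478922) (.g (nat_lit 2615) (.e (nat_lit 2174) (nat_lit 143) (.e (nat_lit 712745) (nat_lit 27) (.e (nat_lit 426347) (nat_lit 14) (.e (nat_lit 491571) (nat_lit 13) (.e (nat_lit 393281) (nat_lit 23) (.e (nat_lit 426413) (nat_lit 15) .nil)))))) (.g (nat_lit 1) (.e (nat_lit 105119) (nat_lit 0) .nil) .nil)))) (.nd (nat_lit 9) 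
(.lf (nat_lit 478666) (.g (nat_lit 3743) (.e (nat_lit 2059) (nat_lit 142) (.e (nat_lit 704589) (nat_lit 3) (.e (nat_lit 163978) (nat_lit 30) (.e (nat_lit 573479) (nat_lit 13) (.e (nat_lit 65619) (nat_lit 10) (.e (nat_lit 344117) (nat_lit 21) (.e (nat_lit 516151) (nat_lit 9) (.e (nat_lit 426412) (nat_lit 15) .nil)))))))) (.g (nat_lit 1) (.e (nat_lit 104580) (nat_lit 0) .nil) .nil))) 
(.lf (nat_lit 479178) (.g (nat_lit 1519) (.e (nat_lit 5223) (nat_lit 296) (.e (nat_lit 163871) (nat_lit 2) (.e (nat_lit 196655) (nat_lit 11) (.e (nat_lit 16465) (nat_lit 13) (.e (nat_lit 491264) (nat_lit 10) (.e (nat_lit 434212) (nat_lit 18) .nil)))))) (.g (nat_lit 1) (.e (nat_lit 107236) (nat_lit 0) .nil) .nil))))))) (.nd (nat_lit 6) (.nd (nat_lit 7) (.nd (nat_lit 8) (.nd (nat_lit 9) 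
(.lf (nat_lit 478250) (.g (nat_lit 3960) (.e (nat_lit 2057) (nat_lit 142) (.e (nat_lit 704589) (nat_lit 3) (.e (nat_lit 163979) (nat_lit 30) (.e (nat_lit 573491) (nat_lit 15) (.e (nat_lit 81951) (nat_lit 22) (.e (nat_lit 90170) (nat_lit 13) (.e (nat_lit 172138) (nat_lit 15) .nil))))))) (.g (nat_lit 1) (.e (nat_lit 104048) (nat_lit 0) .nil) .nil))) 
(.lf (nat_lit 478762) (.g (nat_lit 5067) (.e (nat_lit 2059) (nat_lit 142) (.e (nat_lit 704589) (nat_lit 3) (.e (nat_lit 163979) (nat_lit 30) (.e (nat_lit 573493) (nat_lit 15) (.e (nat_lit 81953) (nat_lit 22) (.e (nat_lit 90166) (nat_lit 13) (.e (nat_lit 172138) (nat_lit 15) .nil))))))) (.g (nat_lit 1) (.e (nat_lit 104688) (nat_lit 0) .nil) .nil)))) (.nd (nat_lit 9) 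
(.lf (nat_lit 478506) (.g (nat_lit 2067) (.e (nat_lit 2058) (nat_lit 142) (.e (nat_lit 704595) (nat_lit 5) (.e (nat_lit 180278) (nat_lit 32) (.e (nat_lit 1426) (nat_lit 108) (.e (nat_lit 336430) (nat_lit 29) (.e (nat_lit 442377) (nat_lit 0) .nil)))))) (.g (nat_lit 1) (.e (nat_lit 104391) (nat_lit 0) .nil) .nil))) 
(.lf (nat_lit 479018) (.g (nat_lit 2129) (.e (nat_lit 3962) (nat_lit 239) (.e (nat_lit 1190) (nat_lit 88) (.e (nat_lit 65630) (nat_lit 14) (.e (nat_lit 401428) (nat_lit 3) (.e (nat_lit 204868) (nat_lit 29) .nil))))) (.g (nat_lit 0) (.e (nat_lit 105534) (nat_lit 0) .nil) .nil))))) (.nd (nat_lit 8) (.nd (nat_lit 9) 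
(.lf (nat_lit 478378) (.g (nat_lit 4432) (.e (nat_lit 2058) (nat_lit 142) (.e (nat_lit 704589) (nat_lit 3) (.e (nat_lit 163976) (nat_lit 30) (.e (nat_lit 573492) (nat_lit 15) (.e (nat_lit 81956) (nat_lit 23) (.e (nat_lit 98356) (nat_lit 26) (.e (nat_lit 426375) (nat_lit 15) .nil))))))) (.g (nat_lit 1) (.e (nat_lit 104215) (nat_lit 0) .nil) .nil))) 
(.lf (nat_lit 478890) (.g (nat_lit 2514) (.e (nat_lit 2174) (nat_lit 143) (.e (nat_lit 712745) (nat_lit 27) (.e (nat_lit 426347) (nat_lit 14) (.e (nat_lit 491570) (nat_lit 13) (.e (nat_lit 393275) (nat_lit 23) (.e (nat_lit 426380) (nat_lit 15) .nil)))))) (.g (nat_lit 1) (.e (nat_lit 105087) (nat_lit 0) .nil) .nil)))) (.nd (nat_lit 9) 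
(.lf (nat_lit 478634) (.g (nat_lit 2063) (.e (nat_lit 2059) (nat_lit 142) (.e (nat_lit 704589) (nat_lit 3) (.e (nat_lit 163976) (nat_lit 30) (.e (nat_lit 573491) (nat_lit 15) (.e (nat_lit 81954) (nat_lit 23) (.e (nat_lit 98362) (nat_lit 26) (.e (nat_lit 426411) (nat_lit 15) .nil))))))) (.g (nat_lit 1) (.e (nat_lit 104538) (nat_lit 0) .nil) .nil))) 
(.lf (nat_lit 479146) (.g (nat_lit 532) (.e (nat_lit 5153) (nat_lit 292) (.e (nat_lit 1221) (nat_lit 90) (.e (nat_lit 81938) (nat_lit 20) .nil))) (.g (nat_lit 0) (.e (nat_lit 106950) (nat_lit 0) .nil) .nil)))))) (.nd (nat_lit 7) (.nd (nat_lit 8) (.nd (nat_lit 9) 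
(.lf (nat_lit 478314) (.g (nat_lit 2268) (.e (nat_lit 2058) (nat_lit 142) (.e (nat_lit 704589) (nat_lit 3) (.e (nat_lit 163975) (nat_lit 30) (.e (nat_lit 573491) (nat_lit 15) (.e (nat_lit 81954) (nat_lit 23) (.e (nat_lit 98362) (nat_lit 26) (.e (nat_lit 426411) (nat_lit 15) .nil))))))) (.g (nat_lit 1) (.e (nat_lit 104141) (nat_lit 0) .nil) .nil))) 
(.lf (nat_lit 478826) (.g (nat_lit 2196) (.e (nat_lit 2086) (nat_lit 142) (.e (nat_lit 704734) (nat_lit 11) (.e (nat_lit 16416) (nat_lit 3) (.e (nat_lit 204861) (nat_lit 26) (.e (nat_lit 336076) (nat_lit 9) .nil))))) (.g (nat_lit 0) (.e (nat_lit 104816) (nat_lit 0) .nil) .nil)))) (.nd (nat_lit 9) 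
(.lf (nat_lit 478570) (.g (nat_lit 1843) (.e (nat_lit 2059) (nat_lit 142) (.e (nat_lit 704589) (nat_lit 3) (.e (nat_lit 163975) (nat_lit 30) (.e (nat_lit 573491) (nat_lit 15) (.e (nat_lit 81956) (nat_lit 23) .nil))))) (.g (nat_lit 0) (.e (nat_lit 104457) (nat_lit 0) .nil) .nil))) 
(.lf (nat_lit 479082) (.g (nat_lit 736) (.e (nat_lit 4527) (nat_lit 265) (.e (nat_lit 57373) (nat_lit 2) (.e (nat_lit 90160) (nat_lit 11) .nil))) (.g (nat_lit 0) (.e (nat_lit 106186) (nat_lit 0) .nil) .nil))))) (.nd (nat_lit 8) (.nd (nat_lit 9) 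
(.lf (nat_lit 478442) (.g (nat_lit 2931) (.e (nat_lit 2058) (nat_lit 142) (.e (nat_lit 704589) (nat_lit 3) (.e (nat_lit 163979) (nat_lit 30) (.e (nat_lit 573491) (nat_lit 15) (.e (nat_lit 81954) (nat_lit 23) (.e (nat_lit 98355) (nat_lit 26) (.e (nat_lit 426379) (nat_lit 15) .nil))))))) (.g (nat_lit 1) (.e (nat_lit 104282) (nat_lit 0) .nil) .nil))) 
(.lf (nat_lit 478954) (.g (nat_lit 2685) (.e (nat_lit 2175) (nat_lit 143) (.e (nat_lit 712745) (nat_lit 27) (.e (nat_lit 426347) (nat_lit 14) (.e (nat_lit 491571) (nat_lit 13) (.e (nat_lit 393269) (nat_lit 23) (.e (nat_lit 426376) (nat_lit 15) .nil)))))) (.g (nat_lit 1) (.e (nat_lit 105159) (nat_lit 0) .nil) .nil)))) (.nd (nat_lit 9) 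
(.lf (nat_lit 478698) (.g (nat_lit 6209) (.e (nat_lit 2059) (nat_lit 142) (.e (nat_lit 704589) (nat_lit 3) (.e (nat_lit 163979) (nat_lit 30) (.e (nat_lit 573482) (nat_lit 13) (.e (nat_lit 65604) (nat_lit 9) (.e (nat_lit 336013) (nat_lit 2) (.e (nat_lit 90170) (nat_lit 13) (.e (nat_lit 172136) (nat_lit 15) .nil)))))))) (.g (nat_lit 1) (.e (nat_lit 104613) (nat_lit 0) .nil) .nil))) 
(.lf (nat_lit 479210) (.g (nat_lit 2335) (.e (nat_lit 5224) (nat_lit 296) (.e (nat_lit 163868) (nat_lit 2) (.e (nat_lit 196655) (nat_lit 11) (.e (nat_lit 16465) (nat_lit 13) (.e (nat_lit 491264) (nat_lit 10) (.e (nat_lit 434209) (nat_lit 18) .nil)))))) (.g (nat_lit 1) (.e (nat_lit 107409) (nat_lit 0) .nil) .nil)))))))) 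
(.nd (nat_lit 5) (.nd (nat_lit 6) (.nd (nat_lit 7) (.nd (nat_lit 8) (.nd (nat_lit 9) 
(.lf (nat_lit 478234) (.g (nat_lit 3622) (.e (nat_lit 2057) (nat_lit 142) (.e (nat_lit 704589) (nat_lit 3) (.e (nat_lit 163976) (nat_lit 30) (.e (nat_lit 573481) (nat_lit 13) (.e (nat_lit 65604) (nat_lit 9) (.e (nat_lit 336028) (nat_lit 3) (.e (nat_lit 98359) (nat_lit 26) (.e (nat_lit 426412) (nat_lit 15) .nil)))))))) (.g (nat_lit 1) (.e (nat_lit 104032) (nat_lit 0) .nil) .nil))) 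
(.lf (nat_lit 478746) (.g (nat_lit 2470) (.e (nat_lit 2059) (nat_lit 142) (.e (nat_lit 704589) (nat_lit 3) (.e (nat_lit 163979) (nat_lit 30) (.e (nat_lit 573491) (nat_lit 15) (.e (nat_lit 81954) (nat_lit 23) (.e (nat_lit 98362) (nat_lit 26) (.e (nat_lit 426410) (nat_lit 15) .nil))))))) (.g (nat_lit 1) (.e (nat_lit 104661) (nat_lit 0) .nil) .nil)))) (.nd (nat_lit 9) 
(.lf (nat_lit 478490) (.g (nat_lit 5082) (.e (nat_lit 2058) (nat_lit 142) (.e (nat_lit 704589) (nat_lit 3) (.e (nat_lit 163979) (nat_lit 30) (.e (nat_lit 573493) (nat_lit 15) (.e (nat_lit 81956) (nat_lit 23) (.e (nat_lit 98362) (nat_lit 26) (.e (nat_lit 426410) (nat_lit 15) .nil))))))) (.g (nat_lit 1) (.e (nat_lit 104332) (nat_lit 0) .nil) .nil))) 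
(.lf (nat_lit 479002) (.g (nat_lit 2373) (.e (nat_lit 3929) (nat_lit 239) (.e (nat_lit 2643) (nat_lit 165) (.e (nat_lit 180277) (nat_lit 32) (.e (nat_lit 1253) (nat_lit 92) (.e (nat_lit 98373) (nat_lit 29) (.e (nat_lit 458496) (nat_lit 0) .nil)))))) (.g (nat_lit 1) (.e (nat_lit 105339) (nat_lit 0) .nil) .nil))))) (.nd (nat_lit 8) (.nd (nat_lit 9) 
(.lf (nat_lit 478362) (.g (nat_lit 3552) (.e (nat_lit 2058) (nat_lit 142) (.e (nat_lit 704589) (nat_lit 3) (.e (nat_lit 163976) (nat_lit 30) (.e (nat_lit 573491) (nat_lit 15) (.e (nat_lit 81954) (nat_lit 23) (.e (nat_lit 98356) (nat_lit 26) (.e (nat_lit 426416) (nat_lit 15) .nil))))))) (.g (nat_lit 1) (.e (nat_lit 104197) (nat_lit 0) .nil) .nil))) 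
(.lf (nat_lit 478874) (.g (nat_lit 1922) (.e (nat_lit 2174) (nat_lit 143) (.e (nat_lit 712745) (nat_lit 27) (.e (nat_lit 426318) (nat_lit 12) (.e (nat_lit 475198) (nat_lit 40) (.e (nat_lit 704598) (nat_lit 6) (.e (nat_lit 188420) (nat_lit 0) .nil)))))) (.g (nat_lit 1) (.e (nat_lit 105070) (nat_lit 0) .nil) .nil)))) (.nd (nat_lit 9) 
(.lf (nat_lit 478618) (.g (nat_lit 3389) (.e (nat_lit 2059) (nat_lit 142) (.e (nat_lit 704589) (nat_lit 3) (.e (nat_lit 163976) (nat_lit 30) (.e (nat_lit 573491) (nat_lit 15) (.e (nat_lit 81951) (nat_lit 22) (.e (nat_lit 90170) (nat_lit 13) (.e (nat_lit 172136) (nat_lit 15) .nil))))))) (.g (nat_lit 1) (.e (nat_lit 104522) (nat_lit 0) .nil) .nil))) 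
(.lf (nat_lit 479130) (.g (nat_lit 1942) (.e (nat_lit 4981) (nat_lit 287) (.e (nat_lit 2798) (nat_lit 180) (.e (nat_lit 303145) (nat_lit 13) (.e (nat_lit 483405) (nat_lit 26) (.e (nat_lit 385099) (nat_lit 49) (.e (nat_lit 778535) (nat_lit 14) (.e (nat_lit 2442) (nat_lit 157) .nil))))))) (.g (nat_lit 1) (.e (nat_lit 106666) (nat_lit 0) .nil) .nil)))))) 
(.nd (nat_lit 7) (.nd (nat_lit 8) (.nd (nat_lit 9) 
(.lf (nat_lit 478298) (.g (nat_lit 2550) (.e (nat_lit 2058) (nat_lit 142) (.e (nat_lit 704589) (nat_lit 3) (.e (nat_lit 163975) (nat_lit 30) (.e (nat_lit 573482) (nat_lit 13) (.e (nat_lit 65604) (nat_lit 9) .nil))))) (.g (nat_lit 0) (.e (nat_lit 104125) (nat_lit 0) .nil) .nil))) 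
(.lf (nat_lit 478810) (.g (nat_lit 2046) (.e (nat_lit 2061) (nat_lit 142) (.e (nat_lit 704731) (nat_lit 11) (.e (nat_lit 16436) (nat_lit 9) (.e (nat_lit 426555) (nat_lit 32) (.e (nat_lit 376857) (nat_lit 21) .nil))))) (.g (nat_lit 0) (.e (nat_lit 104791) (nat_lit 0) .nil) .nil)))) (.nd (nat_lit 9) 
(.lf (nat_lit 478554) (.g (nat_lit 2471) (.e (nat_lit 2059) (nat_lit 142) (.e (nat_lit 704589) (nat_lit 3) (.e (nat_lit 163975) (nat_lit 30) (.e (nat_lit 573491) (nat_lit 15) (.e (nat_lit 81954) (nat_lit 23) (.e (nat_lit 98355) (nat_lit 26) (.e (nat_lit 426420) (nat_lit 15) .nil))))))) (.g (nat_lit 1) (.e (nat_lit 104441) (nat_lit 0) .nil) .nil))) 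
(.lf (nat_lit 479066) (.g (nat_lit 2336) (.e (nat_lit 4539) (nat_lit 267) (.e (nat_lit 163869) (nat_lit 2) (.e (nat_lit 196654) (nat_lit 11) (.e (nat_lit 16459) (nat_lit 12) .nil)))) (.g (nat_lit 0) (.e (nat_lit 106146) (nat_lit 0) .nil) .nil))))) (.nd (nat_lit 8) (.nd (nat_lit 9) 
(.lf (nat_lit 478426) (.g (nat_lit 3225) (.e (nat_lit 2058) (nat_lit 142) (.e (nat_lit 704589) (nat_lit 3) (.e (nat_lit 163979) (nat_lit 30) (.e (nat_lit 573482) (nat_lit 13) (.e (nat_lit 65619) (nat_lit 10) (.e (nat_lit 344117) (nat_lit 21) (.e (nat_lit 516144) (nat_lit 9) (.e (nat_lit 426382) (nat_lit 15) .nil)))))))) (.g (nat_lit 1) (.e (nat_lit 104266) (nat_lit 0) .nil) .nil))) 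
(.lf (nat_lit 478938) (.g (nat_lit 2351) (.e (nat_lit 2174) (nat_lit 143) (.e (nat_lit 712755) (nat_lit 30) (.e (nat_lit 450564) (nat_lit 0) (.e (nat_lit 5546) (nat_lit 306) (.e (nat_lit 2648) (nat_lit 166) (.e (nat_lit 188418) (nat_lit 0) .nil)))))) (.g (nat_lit 1) (.e (nat_lit 105139) (nat_lit 0) .nil) .nil)))) (.nd (nat_lit 9) 
(.lf (nat_lit 478682) (.g (nat_lit 2846) (.e (nat_lit 2059) (nat_lit 142) (.e (nat_lit 704589) (nat_lit 3) (.e (nat_lit 163978) (nat_lit 30) (.e (nat_lit 573485) (nat_lit 13) (.e (nat_lit 65619) (nat_lit 10) (.e (nat_lit 344117) (nat_lit 21) (.e (nat_lit 516147) (nat_lit 9) (.e (nat_lit 426376) (nat_lit 15) .nil)))))))) (.g (nat_lit 1) (.e (nat_lit 104597) (nat_lit 0) .nil) .nil))) 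
(.lf (nat_lit 479194) (.g (nat_lit 2356) (.e (nat_lit 5223) (nat_lit 296) (.e (nat_lit 163882) (nat_lit 4) (.e (nat_lit 213030) (nat_lit 11) (.e (nat_lit 24659) (nat_lit 13) (.e (nat_lit 393283) (nat_lit 24) (.e (nat_lit 434209) (nat_lit 18) .nil)))))) (.g (nat_lit 1) (.e (nat_lit 107285) (nat_lit 0) .nil) .nil))))))) (.nd (nat_lit 6) (.nd (nat_lit 7) (.nd (nat_lit 8) (.nd (nat_lit 9) 
(.lf (nat_lit 478266) (.g (nat_lit 680) (.e (nat_lit 2057) (nat_lit 142) (.e (nat_lit 704598) (nat_lit 6) (.e (nat_lit 188417) (nat_lit 0) (.e (nat_lit 2146) (nat_lit 142) (.e (nat_lit 704597) (nat_lit 6) (.e (nat_lit 188420) (nat_lit 0) .nil)))))) (.g (nat_lit 1) (.e (nat_lit 104085) (nat_lit 0) .nil) .nil))) 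
(.lf (nat_lit 478778) (.g (nat_lit 5788) (.e (nat_lit 2059) (nat_lit 142) (.e (nat_lit 704589) (nat_lit 3) (.e (nat_lit 163979) (nat_lit 30) (.e (nat_lit 573493) (nat_lit 15) (.e (nat_lit 81956) (nat_lit 23) (.e (nat_lit 98359) (nat_lit 26) (.e (nat_lit 426396) (nat_lit 15) .nil))))))) (.g (nat_lit 1) (.e (nat_lit 104709) (nat_lit 0) .nil) .nil)))) (.nd (nat_lit 9) 
(.lf (nat_lit 478522) (.g (nat_lit 5214) (.e (nat_lit 2059) (nat_lit 142) (.e (nat_lit 704589) (nat_lit 3) (.e (nat_lit 163975) (nat_lit 30) (.e (nat_lit 573481) (nat_lit 13) (.e (nat_lit 65598) (nat_lit 9) (.e (nat_lit 336013) (nat_lit 2) (.e (nat_lit 90169) (nat_lit 13) (.e (nat_lit 172133) (nat_lit 15) .nil)))))))) (.g (nat_lit 1) (.e (nat_lit 104409) (nat_lit 0) .nil) .nil))) 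
(.lf (nat_lit 479034) (.g (nat_lit 2448) (.e (nat_lit 4421) (nat_lit 261) (.e (nat_lit 163869) (nat_lit 2) (.e (nat_lit 196666) (nat_lit 13) (.e (nat_lit 65610) (nat_lit 10) (.e (nat_lit 344129) (nat_lit 26) .nil))))) (.g (nat_lit 0) (.e (nat_lit 105926) (nat_lit 0) .nil) .nil))))) (.nd (nat_lit 8) (.nd (nat_lit 9) 
(.lf (nat_lit 478394) (.g (nat_lit 6185) (.e (nat_lit 2058) (nat_lit 142) (.e (nat_lit 704589) (nat_lit 3) (.e (nat_lit 163978) (nat_lit 30) (.e (nat_lit 573485) (nat_lit 13) (.e (nat_lit 65604) (nat_lit 9) (.e (nat_lit 336013) (nat_lit 2) (.e (nat_lit 90170) (nat_lit 13) (.e (nat_lit 172136) (nat_lit 15) .nil)))))))) (.g (nat_lit 1) (.e (nat_lit 104234) (nat_lit 0) .nil) .nil))) 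
(.lf (nat_lit 478906) (.g (nat_lit 3465) (.e (nat_lit 2174) (nat_lit 143) (.e (nat_lit 712745) (nat_lit 27) (.e (nat_lit 426347) (nat_lit 14) (.e (nat_lit 491571) (nat_lit 13) (.e (nat_lit 393269) (nat_lit 23) (.e (nat_lit 426376) (nat_lit 15) .nil)))))) (.g (nat_lit 1) (.e (nat_lit 105103) (nat_lit 0) .nil) .nil)))) (.nd (nat_lit 9) 
(.lf (nat_lit 478650) (.g (nat_lit 4772) (.e (nat_lit 2059) (nat_lit 142) (.e (nat_lit 704589) (nat_lit 3) (.e (nat_lit 163976) (nat_lit 30) (.e (nat_lit 573492) (nat_lit 15) (.e (nat_lit 81956) (nat_lit 23) (.e (nat_lit 98356) (nat_lit 26) (.e (nat_lit 426375) (nat_lit 15) .nil))))))) (.g (nat_lit 1) (.e (nat_lit 104560) (nat_lit 0) .nil) .nil))) 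
(.lf (nat_lit 479162) (.g (nat_lit 531) (.e (nat_lit 5222) (nat_lit 296) (.e (nat_lit 163922) (nat_lit 15) (.e (nat_lit 450592) (nat_lit 14) .nil))) (.g (nat_lit 0) (.e (nat_lit 107079) (nat_lit 0) .nil) .nil)))))) (.nd (nat_lit 7) (.nd (nat_lit 8) (.nd (nat_lit 9) 
(.lf (nat_lit 478330) (.g (nat_lit 4565) (.e (nat_lit 2058) (nat_lit 142) (.e (nat_lit 704589) (nat_lit 3) (.e (nat_lit 163975) (nat_lit 30) (.e (nat_lit 573492) (nat_lit 15) (.e (nat_lit 81956) (nat_lit 23) (.e (nat_lit 98356) (nat_lit 26) (.e (nat_lit 426420) (nat_lit 15) .nil))))))) (.g (nat_lit 1) (.e (nat_lit 104162) (nat_lit 0) .nil) .nil))) 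
(.lf (nat_lit 478842) (.g (nat_lit 1554) (.e (nat_lit 2147) (nat_lit 142) (.e (nat_lit 704597) (nat_lit 6) (.e (nat_lit 188441) (nat_lit 20) (.e (nat_lit 3409) (nat_lit 212) (.e (nat_lit 655380) (nat_lit 6) (.e (nat_lit 188417) (nat_lit 0) .nil)))))) (.g (nat_lit 1) (.e (nat_lit 104975) (nat_lit 0) .nil) .nil)))) (.nd (nat_lit 9) 
(.lf (nat_lit 478586) (.g (nat_lit 5258) (.e (nat_lit 2059) (nat_lit 142) (.e (nat_lit 704589) (nat_lit 3) (.e (nat_lit 163975) (nat_lit 30) (.e (nat_lit 573492) (nat_lit 15) (.e (nat_lit 81956) (nat_lit 23) (.e (nat_lit 98356) (nat_lit 26) (.e (nat_lit 426375) (nat_lit 15) .nil))))))) (.g (nat_lit 1) (.e (nat_lit 104485) (nat_lit 0) .nil) .nil))) 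
(.lf (nat_lit 479098) (.g (nat_lit 5106) (.e (nat_lit 4848) (nat_lit 285) (.e (nat_lit 163870) (nat_lit 2) (.e (nat_lit 196666) (nat_lit 13) (.e (nat_lit 65610) (nat_lit 10) (.e (nat_lit 344117) (nat_lit 21) (.e (nat_lit 516151) (nat_lit 9) (.e (nat_lit 426042) (nat_lit 0) (.e (nat_lit 2423) (nat_lit 157) .nil)))))))) (.g (nat_lit 1) (.e (nat_lit 106470) (nat_lit 0) .nil) .nil))))) 
(.nd (nat_lit 8) (.nd (nat_lit 9) 
(.lf (nat_lit 478458) (.g (nat_lit 2374) (.e (nat_lit 2058) (nat_lit 142) (.e (nat_lit 704589) (nat_lit 3) (.e (nat_lit 163979) (nat_lit 30) (.e (nat_lit 573491) (nat_lit 15) (.e (nat_lit 81954) (nat_lit 23) (.e (nat_lit 98363) (nat_lit 26) (.e (nat_lit 426419) (nat_lit 15) .nil))))))) (.g (nat_lit 1) (.e (nat_lit 104298) (nat_lit 0) .nil) .nil))) 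
(.lf (nat_lit 478970) (.g (nat_lit 2593) (.e (nat_lit 2175) (nat_lit 143) (.e (nat_lit 712752) (nat_lit 29) (.e (nat_lit 442421) (nat_lit 21) (.e (nat_lit 164346) (nat_lit 240) (.e (nat_lit 2648) (nat_lit 166) (.e (nat_lit 188418) (nat_lit 0) .nil)))))) (.g (nat_lit 1) (.e (nat_lit 105175) (nat_lit 0) .nil) .nil)))) (.nd (nat_lit 9) 
(.lf (nat_lit 478714) (.g (nat_lit 4616) (.e (nat_lit 2059) (nat_lit 142) (.e (nat_lit 704589) (nat_lit 3) (.e (nat_lit 163979) (nat_lit 30) (.e (nat_lit 573482) (nat_lit 13) (.e (nat_lit 65619) (nat_lit 10) (.e (nat_lit 344117) (nat_lit 21) (.e (nat_lit 516145) (nat_lit 9) (.e (nat_lit 426416) (nat_lit 15) .nil)))))))) (.g (nat_lit 1) (.e (nat_lit 104629) (nat_lit 0) .nil) .nil))) 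
(.lf (nat_lit 479226) (.g (nat_lit 1577) (.e (nat_lit 5224) (nat_lit 296) (.e (nat_lit 163871) (nat_lit 2) (.e (nat_lit 196655) (nat_lit 11) (.e (nat_lit 16465) (nat_lit 13) (.e (nat_lit 483339) (nat_lit 9) .nil))))) (.g (nat_lit 0) (.e (nat_lit 107480) (nat_lit 0) .nil) .nil)))))))))) 
(.nd (nat_lit 3) (.nd (nat_lit 4) (.nd (nat_lit 5) (.nd (nat_lit 6) (.nd (nat_lit 7) 
(.nd (nat_lit 8) (.nd (nat_lit 9) 
(.lf (nat_lit 478214) (.g (nat_lit 1325) (.e (nat_lit 2056) (nat_lit 142) (.e (nat_lit 704598) (nat_lit 6) (.e (nat_lit 188434) (nat_lit 20) (.e (nat_lit 3408) (nat_lit 212) (.e (nat_lit 655380) (nat_lit 6) (.e (nat_lit 188420) (nat_lit 0) .nil)))))) (.g (nat_lit 1) (.e (nat_lit 104011) (nat_lit 0) .nil) .nil))) 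
(.lf (nat_lit 478726) (.g (nat_lit 2378) (.e (nat_lit 2059) (nat_lit 142) (.e (nat_lit 704589) (nat_lit 3) (.e (nat_lit 163979) (nat_lit 30) (.e (nat_lit 573482) (nat_lit 13) (.e (nat_lit 65619) (nat_lit 10) (.e (nat_lit 344117) (nat_lit 21) (.e (nat_lit 516152) (nat_lit 9) (.e (nat_lit 426414) (nat_lit 15) .nil)))))))) (.g (nat_lit 1) (.e (nat_lit 104641) (nat_lit 0) .nil) .nil)))) 
(.nd (nat_lit 9) 
(.lf (nat_lit 478470) (.g (nat_lit 4070) (.e (nat_lit 2058) (nat_lit 142) (.e (nat_lit 704589) (nat_lit 3) (.e (nat_lit 163979) (nat_lit 30) (.e (nat_lit 573493) (nat_lit 15) (.e (nat_lit 81954) (nat_lit 23) (.e (nat_lit 98359) (nat_lit 26) (.e (nat_lit 426396) (nat_lit 15) .nil))))))) (.g (nat_lit 1) (.e (nat_lit 104312) (nat_lit 0) .nil) .nil))) 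
(.lf (nat_lit 478982) (.g (nat_lit 1756) (.e (nat_lit 2175) (nat_lit 143) (.e (nat_lit 712755) (nat_lit 30) (.e (nat_lit 450563) (nat_lit 0) (.e (nat_lit 5539) (nat_lit 306) (.e (nat_lit 2647) (nat_lit 166) (.e (nat_lit 188420) (nat_lit 0) .nil)))))) (.g (nat_lit 1) (.e (nat_lit 105188) (nat_lit 0) .nil) .nil))))) (.nd (nat_lit 8) (.nd (nat_lit 9) 
(.lf (nat_lit 478342) (.g (nat_lit 3597) (.e (nat_lit 2058) (nat_lit 142) (.e (nat_lit 704589) (nat_lit 3) (.e (nat_lit 163976) (nat_lit 30) (.e (nat_lit 573481) (nat_lit 13) (.e (nat_lit 65619) (nat_lit 10) (.e (nat_lit 344117) (nat_lit 21) (.e (nat_lit 516144) (nat_lit 9) (.e (nat_lit 426379) (nat_lit 15) .nil)))))))) (.g (nat_lit 1) (.e (nat_lit 104177) (nat_lit 0) .nil) .nil))) 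
(.lf (nat_lit 478854) (.g (nat_lit 1744) (.e (nat_lit 2147) (nat_lit 142) (.e (nat_lit 704597) (nat_lit 6) (.e (nat_lit 188455) (nat_lit 24) (.e (nat_lit 229666) (nat_lit 240) (.e (nat_lit 2653) (nat_lit 166) (.e (nat_lit 188416) (nat_lit 0) .nil)))))) (.g (nat_lit 1) (.e (nat_lit 104987) (nat_lit 0) .nil) .nil)))) (.nd (nat_lit 9) 
(.lf (nat_lit 478598) (.g (nat_lit 2383) (.e (nat_lit 2059) (nat_lit 142) (.e (nat_lit 704589) (nat_lit 3) (.e (nat_lit 163975) (nat_lit 30) (.e (nat_lit 573492) (nat_lit 15) (.e (nat_lit 81956) (nat_lit 23) (.e (nat_lit 106240) (nat_lit 26) (.e (nat_lit 426419) (nat_lit 15) .nil))))))) (.g (nat_lit 1) (.e (nat_lit 104497) (nat_lit 0) .nil) .nil))) 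
(.lf (nat_lit 479110) (.g (nat_lit 1519) (.e (nat_lit 7936) (nat_lit 285) (.e (nat_lit 163870) (nat_lit 2) (.e (nat_lit 196666) (nat_lit 13) (.e (nat_lit 65610) (nat_lit 10) .nil)))) (.g (nat_lit 0) (.e (nat_lit 106531) (nat_lit 0) .nil) .nil)))))) (.nd (nat_lit 7) (.nd (nat_lit 8) (.nd (nat_lit 9) 
(.lf (nat_lit 478278) (.g (nat_lit 2152) (.e (nat_lit 2057) (nat_lit 142) (.e (nat_lit 704598) (nat_lit 6) (.e (nat_lit 188453) (nat_lit 24) (.e (nat_lit 229666) (nat_lit 240) (.e (nat_lit 2651) (nat_lit 166) (.e (nat_lit 188420) (nat_lit 0) .nil)))))) (.g (nat_lit 1) (.e (nat_lit 104102) (nat_lit 0) .nil) .nil))) 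
(.lf (nat_lit 478790) (.g (nat_lit 1689) (.e (nat_lit 2059) (nat_lit 142) (.e (nat_lit 704595) (nat_lit 5) (.e (nat_lit 188160) (nat_lit 38) (.e (nat_lit 122936) (nat_lit 23) (.e (nat_lit 516131) (nat_lit 3) (.e (nat_lit 221219) (nat_lit 24) (.e (nat_lit 213008) (nat_lit 9) (.e (nat_lit 56) (nat_lit 0) .nil)))))))) (.g (nat_lit 1) (.e (nat_lit 104765) (nat_lit 0) .nil) .nil)))) (.nd (nat_lit 9) 
(.lf (nat_lit 478534) (.g (nat_lit 3934) (.e (nat_lit 2059) (nat_lit 142) (.e (nat_lit 704589) (nat_lit 3) (.e (nat_lit 163975) (nat_lit 30) (.e (nat_lit 573481) (nat_lit 13) (.e (nat_lit 65619) (nat_lit 10) (.e (nat_lit 344117) (nat_lit 21) (.e (nat_lit 516144) (nat_lit 9) (.e (nat_lit 426393) (nat_lit 15) .nil)))))))) (.g (nat_lit 1) (.e (nat_lit 104421) (nat_lit 0) .nil) .nil))) 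
(.lf (nat_lit 479046) (.g (nat_lit 3668) (.e (nat_lit 4409) (nat_lit 259) (.e (nat_lit 57379) (nat_lit 3) (.e (nat_lit 98350) (nat_lit 24) (.e (nat_lit 409645) (nat_lit 18) (.e (nat_lit 303119) (nat_lit 3) .nil))))) (.g (nat_lit 0) (.e (nat_lit 106001) (nat_lit 0) .nil) .nil))))) (.nd (nat_lit 8) (.nd (nat_lit 9) 
(.lf (nat_lit 478406) (.g (nat_lit 3074) (.e (nat_lit 2058) (nat_lit 142) (.e (nat_lit 704589) (nat_lit 3) (.e (nat_lit 163978) (nat_lit 30) (.e (nat_lit 573485) (nat_lit 13) (.e (nat_lit 65619) (nat_lit 10) (.e (nat_lit 344117) (nat_lit 21) (.e (nat_lit 516144) (nat_lit 9) (.e (nat_lit 426405) (nat_lit 15) .nil)))))))) (.g (nat_lit 1) (.e (nat_lit 104246) (nat_lit 0) .nil) .nil))) 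
(.lf (nat_lit 478918) (.g (nat_lit 3040) (.e (nat_lit 2174) (nat_lit 143) (.e (nat_lit 712745) (nat_lit 27) (.e (nat_lit 426347) (nat_lit 14) (.e (nat_lit 491571) (nat_lit 13) (.e (nat_lit 393275) (nat_lit 23) (.e (nat_lit 426414) (nat_lit 15) .nil)))))) (.g (nat_lit 1) (.e (nat_lit 105115) (nat_lit 0) .nil) .nil)))) (.nd (nat_lit 9) 
(.lf (nat_lit 478662) (.g (nat_lit 3139) (.e (nat_lit 2059) (nat_lit 142) (.e (nat_lit 704589) (nat_lit 3) (.e (nat_lit 163978) (nat_lit 30) (.e (nat_lit 573479) (nat_lit 13) (.e (nat_lit 65619) (nat_lit 10) .nil))))) (.g (nat_lit 0) (.e (nat_lit 104576) (nat_lit 0) .nil) .nil))) 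
(.lf (nat_lit 479174) (.g (nat_lit 2137) (.e (nat_lit 5223) (nat_lit 296) (.e (nat_lit 163868) (nat_lit 2) (.e (nat_lit 196656) (nat_lit 11) (.e (nat_lit 16465) (nat_lit 13) .nil)))) (.g (nat_lit 0) (.e (nat_lit 107217) (nat_lit 0) .nil) .nil))))))) (.nd (nat_lit 6) (.nd (nat_lit 7) (.nd (nat_lit 8) (.nd (nat_lit 9) 
(.lf (nat_lit 478246) (.g (nat_lit 4927) (.e (nat_lit 2057) (nat_lit 142) (.e (nat_lit 704589) (nat_lit 3) (.e (nat_lit 163978) (nat_lit 30) (.e (nat_lit 573485) (nat_lit 13) (.e (nat_lit 65619) (nat_lit 10) (.e (nat_lit 344117) (nat_lit 21) (.e (nat_lit 516151) (nat_lit 9) (.e (nat_lit 426412) (nat_lit 15) .nil)))))))) (.g (nat_lit 1) (.e (nat_lit 104044) (nat_lit 0) .nil) .nil))) 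
(.lf (nat_lit 478758) (.g (nat_lit 4587) (.e (nat_lit 2059) (nat_lit 142) (.e (nat_lit 704589) (nat_lit 3) (.e (nat_lit 163979) (nat_lit 30) (.e (nat_lit 573492) (nat_lit 15) (.e (nat_lit 81956) (nat_lit 23) (.e (nat_lit 98356) (nat_lit 26) (.e (nat_lit 426393) (nat_lit 15) .nil))))))) (.g (nat_lit 1) (.e (nat_lit 104674) (nat_lit 0) .nil) .nil)))) (.nd (nat_lit 9) 
(.lf (nat_lit 478502) (.g (nat_lit 285) (.e (nat_lit 2058) (nat_lit 142) (.e (nat_lit 704595) (nat_lit 5) (.e (nat_lit 180277) (nat_lit 32) .nil))) (.g (nat_lit 0) (.e (nat_lit 104387) (nat_lit 0) .nil) .nil))) 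
(.lf (nat_lit 479014) (.g (nat_lit 3804) (.e (nat_lit 3991) (nat_lit 239) (.e (nat_lit 2617) (nat_lit 164) (.e (nat_lit 172126) (nat_lit 14) (.e (nat_lit 491540) (nat_lit 3) (.e (nat_lit 98373) (nat_lit 29) (.e (nat_lit 450560) (nat_lit 0) .nil)))))) (.g (nat_lit 1) (.e (nat_lit 105508) (nat_lit 0) .nil) .nil))))) (.nd (nat_lit 8) (.nd (nat_lit 9) 
(.lf (nat_lit 478374) (.g (nat_lit 3448) (.e (nat_lit 2058) (nat_lit 142) (.e (nat_lit 704589) (nat_lit 3) (.e (nat_lit 163976) (nat_lit 30) (.e (nat_lit 573492) (nat_lit 15) (.e (nat_lit 81956) (nat_lit 23) (.e (nat_lit 98355) (nat_lit 26) (.e (nat_lit 426379) (nat_lit 15) .nil))))))) (.g (nat_lit 1) (.e (nat_lit 104211) (nat_lit 0) .nil) .nil))) 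
(.lf (nat_lit 478886) (.g (nat_lit 3595) (.e (nat_lit 2174) (nat_lit 143) (.e (nat_lit 712745) (nat_lit 27) (.e (nat_lit 426347) (nat_lit 14) (.e (nat_lit 491570) (nat_lit 13) (.e (nat_lit 393271) (nat_lit 23) (.e (nat_lit 426375) (nat_lit 15) .nil)))))) (.g (nat_lit 1) (.e (nat_lit 105083) (nat_lit 0) .nil) .nil)))) (.nd (nat_lit 9) 
(.lf (nat_lit 478630) (.g (nat_lit 3850) (.e (nat_lit 2059) (nat_lit 142) (.e (nat_lit 704589) (nat_lit 3) (.e (nat_lit 163976) (nat_lit 30) (.e (nat_lit 573491) (nat_lit 15) (.e (nat_lit 81954) (nat_lit 23) (.e (nat_lit 98359) (nat_lit 26) (.e (nat_lit 426410) (nat_lit 15) .nil))))))) (.g (nat_lit 1) (.e (nat_lit 104534) (nat_lit 0) .nil) .nil))) 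
(.lf (nat_lit 479142) (.g (nat_lit 1410) (.e (nat_lit 5169) (nat_lit 292) (.e (nat_lit 2649) (nat_lit 166) (.e (nat_lit 188434) (nat_lit 20) (.e (nat_lit 3390) (nat_lit 210) .nil)))) (.g (nat_lit 0) (.e (nat_lit 106925) (nat_lit 0) .nil) .nil)))))) (.nd (nat_lit 7) (.nd (nat_lit 8) (.nd (nat_lit 9) 
(.lf (nat_lit 478310) (.g (nat_lit 3737) (.e (nat_lit 2058) (nat_lit 142) (.e (nat_lit 704589) (nat_lit 3) (.e (nat_lit 163975) (nat_lit 30) (.e (nat_lit 573491) (nat_lit 15) (.e (nat_lit 81954) (nat_lit 23) (.e (nat_lit 98356) (nat_lit 26) (.e (nat_lit 426393) (nat_lit 15) .nil))))))) (.g (nat_lit 1) (.e (nat_lit 104137) (nat_lit 0) .nil) .nil))) 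
(.lf (nat_lit 478822) (.g (nat_lit 2126) (.e (nat_lit 2093) (nat_lit 142) (.e (nat_lit 704734) (nat_lit 11) (.e (nat_lit 16416) (nat_lit 3) (.e (nat_lit 204861) (nat_lit 26) (.e (nat_lit 336075) (nat_lit 9) .nil))))) (.g (nat_lit 0) (.e (nat_lit 104812) (nat_lit 0) .nil) .nil)))) (.nd (nat_lit 9) 
(.lf (nat_lit 478566) (.g (nat_lit 2635) (.e (nat_lit 2059) (nat_lit 142) (.e (nat_lit 704589) (nat_lit 3) (.e (nat_lit 163975) (nat_lit 30) (.e (nat_lit 573491) (nat_lit 15) (.e (nat_lit 81954) (nat_lit 23) (.e (nat_lit 98363) (nat_lit 26) (.e (nat_lit 426391) (nat_lit 15) .nil))))))) (.g (nat_lit 1) (.e (nat_lit 104453) (nat_lit 0) .nil) .nil))) 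
(.lf (nat_lit 479078) (.g (nat_lit 3154) (.e (nat_lit 4539) (nat_lit 267) (.e (nat_lit 163871) (nat_lit 2) (.e (nat_lit 196656) (nat_lit 11) (.e (nat_lit 16473) (nat_lit 14) (.e (nat_lit 491580) (nat_lit 27) .nil))))) (.g (nat_lit 0) (.e (nat_lit 106159) (nat_lit 0) .nil) .nil))))) (.nd (nat_lit 8) (.nd (nat_lit 9) 
(.lf (nat_lit 478438) (.g (nat_lit 4272) (.e (nat_lit 2058) (nat_lit 142) (.e (nat_lit 704589) (nat_lit 3) (.e (nat_lit 163979) (nat_lit 30) (.e (nat_lit 573491) (nat_lit 15) (.e (nat_lit 81951) (nat_lit 22) (.e (nat_lit 90170) (nat_lit 13) (.e (nat_lit 172137) (nat_lit 15) .nil))))))) (.g (nat_lit 1) (.e (nat_lit 104278) (nat_lit 0) .nil) .nil))) 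
(.lf (nat_lit 478950) (.g (nat_lit 2353) (.e (nat_lit 2175) (nat_lit 143) (.e (nat_lit 712745) (nat_lit 27) (.e (nat_lit 426347) (nat_lit 14) (.e (nat_lit 491570) (nat_lit 13) (.e (nat_lit 393275) (nat_lit 23) (.e (nat_lit 426411) (nat_lit 15) .nil)))))) (.g (nat_lit 1) (.e (nat_lit 105155) (nat_lit 0) .nil) .nil)))) (.nd (nat_lit 9) 
(.lf (nat_lit 478694) (.g (nat_lit 2768) (.e (nat_lit 2059) (nat_lit 142) (.e (nat_lit 704589) (nat_lit 3) (.e (nat_lit 163979) (nat_lit 30) (.e (nat_lit 573481) (nat_lit 13) (.e (nat_lit 65609) (nat_lit 10) .nil))))) (.g (nat_lit 0) (.e (nat_lit 104609) (nat_lit 0) .nil) .nil))) 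
(.lf (nat_lit 479206) (.g (nat_lit 1954) (.e (nat_lit 5224) (nat_lit 296) (.e (nat_lit 163868) (nat_lit 2) (.e (nat_lit 196654) (nat_lit 11) (.e (nat_lit 16463) (nat_lit 13) (.e (nat_lit 491264) (nat_lit 10) (.e (nat_lit 434213) (nat_lit 18) .nil)))))) (.g (nat_lit 1) (.e (nat_lit 107391) (nat_lit 0) .nil) .nil)))))))) 
(.nd (nat_lit 5) (.nd (nat_lit 6) (.nd (nat_lit 7) (.nd (nat_lit 8) (.nd (nat_lit 9) 
(.lf (nat_lit 478230) (.g (nat_lit 3265) (.e (nat_lit 2057) (nat_lit 142) (.e (nat_lit 704589) (nat_lit 3) (.e (nat_lit 163975) (nat_lit 30) (.e (nat_lit 573492) (nat_lit 15) (.e (nat_lit 81956) (nat_lit 23) (.e (nat_lit 98355) (nat_lit 26) (.e (nat_lit 426376) (nat_lit 15) .nil))))))) (.g (nat_lit 1) (.e (nat_lit 104028) (nat_lit 0) .nil) .nil))) 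
(.lf (nat_lit 478742) (.g (nat_lit 4396) (.e (nat_lit 2059) (nat_lit 142) (.e (nat_lit 704589) (nat_lit 3) (.e (nat_lit 163979) (nat_lit 30) (.e (nat_lit 573491) (nat_lit 15) (.e (nat_lit 81954) (nat_lit 23) (.e (nat_lit 98359) (nat_lit 26) (.e (nat_lit 426410) (nat_lit 15) .nil))))))) (.g (nat_lit 1) (.e (nat_lit 104657) (nat_lit 0) .nil) .nil)))) (.nd (nat_lit 9) 
(.lf (nat_lit 478486) (.g (nat_lit 4589) (.e (nat_lit 2058) (nat_lit 142) (.e (nat_lit 704589) (nat_lit 3) (.e (nat_lit 163979) (nat_lit 30) (.e (nat_lit 573493) (nat_lit 15) (.e (nat_lit 81956) (nat_lit 23) (.e (nat_lit 98359) (nat_lit 26) (.e (nat_lit 426410) (nat_lit 15) .nil))))))) (.g (nat_lit 1) (.e (nat_lit 104328) (nat_lit 0) .nil) .nil))) 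
(.lf (nat_lit 478998) (.g (nat_lit 2558) (.e (nat_lit 3928) (nat_lit 239) (.e (nat_lit 2641) (nat_lit 165) (.e (nat_lit 180278) (nat_lit 32) (.e (nat_lit 1253) (nat_lit 92) (.e (nat_lit 98373) (nat_lit 29) (.e (nat_lit 458496) (nat_lit 0) .nil)))))) (.g (nat_lit 1) (.e (nat_lit 105332) (nat_lit 0) .nil) .nil))))) (.nd (nat_lit 8) (.nd (nat_lit 9) 
(.lf (nat_lit 478358) (.g (nat_lit 3706) (.e (nat_lit 2058) (nat_lit 142) (.e (nat_lit 704589) (nat_lit 3) (.e (nat_lit 163976) (nat_lit 30) (.e (nat_lit 573491) (nat_lit 15) (.e (nat_lit 81954) (nat_lit 23) (.e (nat_lit 98356) (nat_lit 26) (.e (nat_lit 426374) (nat_lit 15) .nil))))))) (.g (nat_lit 1) (.e (nat_lit 104193) (nat_lit 0) .nil) .nil))) 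
(.lf (nat_lit 478870) (.g (nat_lit 3106) (.e (nat_lit 2160) (nat_lit 143) (.e (nat_lit 712755) (nat_lit 30) (.e (nat_lit 450564) (nat_lit 0) (.e (nat_lit 5548) (nat_lit 306) (.e (nat_lit 2650) (nat_lit 166) (.e (nat_lit 188419) (nat_lit 0) .nil)))))) (.g (nat_lit 1) (.e (nat_lit 105038) (nat_lit 0) .nil) .nil)))) (.nd (nat_lit 9) 
(.lf (nat_lit 478614) (.g (nat_lit 3751) (.e (nat_lit 2059) (nat_lit 142) (.e (nat_lit 704589) (nat_lit 3) (.e (nat_lit 163976) (nat_lit 30) (.e (nat_lit 573481) (nat_lit 13) (.e (nat_lit 65619) (nat_lit 10) (.e (nat_lit 344117) (nat_lit 21) (.e (nat_lit 516152) (nat_lit 9) (.e (nat_lit 426396) (nat_lit 15) .nil)))))))) (.g (nat_lit 1) (.e (nat_lit 104518) (nat_lit 0) .nil) .nil))) 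
(.lf (nat_lit 479126) (.g (nat_lit 1674) (.e (nat_lit 4934) (nat_lit 287) (.e (nat_lit 2798) (nat_lit 180) (.e (nat_lit 303145) (nat_lit 13) (.e (nat_lit 483405) (nat_lit 26) .nil)))) (.g (nat_lit 0) (.e (nat_lit 106583) (nat_lit 0) .nil) .nil)))))) (.nd (nat_lit 7) (.nd (nat_lit 8) (.nd (nat_lit 9) 
(.lf (nat_lit 478294) (.g (nat_lit 4513) (.e (nat_lit 2058) (nat_lit 142) (.e (nat_lit 704589) (nat_lit 3) (.e (nat_lit 163975) (nat_lit 30) (.e (nat_lit 573481) (nat_lit 13) (.e (nat_lit 65619) (nat_lit 10) (.e (nat_lit 344117) (nat_lit 21) (.e (nat_lit 516145) (nat_lit 9) (.e (nat_lit 426416) (nat_lit 15) .nil)))))))) (.g (nat_lit 1) (.e (nat_lit 104121) (nat_lit 0) .nil) .nil))) 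
(.lf (nat_lit 478806) (.g (nat_lit 3035) (.e (nat_lit 2059) (nat_lit 142) (.e (nat_lit 704599) (nat_lit 6) (.e (nat_lit 188453) (nat_lit 24) (.e (nat_lit 229663) (nat_lit 240) (.e (nat_lit 2653) (nat_lit 166) (.e (nat_lit 188418) (nat_lit 0) .nil)))))) (.g (nat_lit 1) (.e (nat_lit 104784) (nat_lit 0) .nil) .nil)))) (.nd (nat_lit 9) 
(.lf (nat_lit 478550) (.g (nat_lit 2422) (.e (nat_lit 2059) (nat_lit 142) (.e (nat_lit 704589) (nat_lit 3) (.e (nat_lit 163975) (nat_lit 30) (.e (nat_lit 573491) (nat_lit 15) (.e (nat_lit 81954) (nat_lit 23) (.e (nat_lit 98355) (nat_lit 26) (.e (nat_lit 426374) (nat_lit 15) .nil))))))) (.g (nat_lit 1) (.e (nat_lit 104437) (nat_lit 0) .nil) .nil))) 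
(.lf (nat_lit 479062) (.g (nat_lit 3977) (.e (nat_lit 4507) (nat_lit 263) (.e (nat_lit 2619) (nat_lit 164) (.e (nat_lit 172064) (nat_lit 2) (.e (nat_lit 196666) (nat_lit 13) (.e (nat_lit 65610) (nat_lit 10) (.e (nat_lit 344117) (nat_lit 21) (.e (nat_lit 516099) (nat_lit 0) (.e (nat_lit 7936) (nat_lit 157) .nil)))))))) (.g (nat_lit 1) (.e (nat_lit 106089) (nat_lit 0) .nil) .nil))))) 
(.nd (nat_lit 8) (.nd (nat_lit 9) 
(.lf (nat_lit 478422) (.g (nat_lit 3237) (.e (nat_lit 2058) (nat_lit 142) (.e (nat_lit 704589) (nat_lit 3) (.e (nat_lit 163979) (nat_lit 30) (.e (nat_lit 573482) (nat_lit 13) (.e (nat_lit 65604) (nat_lit 9) (.e (nat_lit 336028) (nat_lit 3) (.e (nat_lit 98359) (nat_lit 26) (.e (nat_lit 426414) (nat_lit 15) .nil)))))))) (.g (nat_lit 1) (.e (nat_lit 104262) (nat_lit 0) .nil) .nil))) 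
(.lf (nat_lit 478934) (.g (nat_lit 1760) (.e (nat_lit 2174) (nat_lit 143) (.e (nat_lit 712753) (nat_lit 30) (.e (nat_lit 450561) (nat_lit 0) (.e (nat_lit 5537) (nat_lit 306) (.e (nat_lit 7936) (nat_lit 166) (.e (nat_lit 188420) (nat_lit 0) .nil)))))) (.g (nat_lit 1) (.e (nat_lit 105134) (nat_lit 0) .nil) .nil)))) (.nd (nat_lit 9) 
(.lf (nat_lit 478678) (.g (nat_lit 3975) (.e (nat_lit 2059) (nat_lit 142) (.e (nat_lit 704589) (nat_lit 3) (.e (nat_lit 163978) (nat_lit 30) (.e (nat_lit 573485) (nat_lit 13) (.e (nat_lit 65619) (nat_lit 10) (.e (nat_lit 344117) (nat_lit 21) (.e (nat_lit 516144) (nat_lit 9) (.e (nat_lit 426393) (nat_lit 15) .nil)))))))) (.g (nat_lit 1) (.e (nat_lit 104593) (nat_lit 0) .nil) .nil))) 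
(.lf (nat_lit 479190) (.g (nat_lit 2209) (.e (nat_lit 5223) (nat_lit 296) (.e (nat_lit 163879) (nat_lit 4) (.e (nat_lit 213030) (nat_lit 11) (.e (nat_lit 24660) (nat_lit 13) (.e (nat_lit 393283) (nat_lit 24) (.e (nat_lit 434209) (nat_lit 18) .nil)))))) (.g (nat_lit 1) (.e (nat_lit 107281) (nat_lit 0) .nil) .nil))))))) (.nd (nat_lit 6) (.nd (nat_lit 7) (.nd (nat_lit 8) (.nd (nat_lit 9) 
(.lf (nat_lit 478262) (.g (nat_lit 280) (.e (nat_lit 2057) (nat_lit 142) (.e (nat_lit 704595) (nat_lit 5) (.e (nat_lit 180278) (nat_lit 32) .nil))) (.g (nat_lit 0) (.e (nat_lit 104067) (nat_lit 0) .nil) .nil))) 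
(.lf (nat_lit 478774) (.g (nat_lit 5571) (.e (nat_lit 2059) (nat_lit 142) (.e (nat_lit 704589) (nat_lit 3) (.e (nat_lit 163979) (nat_lit 30) (.e (nat_lit 573493) (nat_lit 15) (.e (nat_lit 81956) (nat_lit 23) (.e (nat_lit 98356) (nat_lit 26) (.e (nat_lit 426375) (nat_lit 15) .nil))))))) (.g (nat_lit 1) (.e (nat_lit 104705) (nat_lit 0) .nil) .nil)))) (.nd (nat_lit 9) 
(.lf (nat_lit 478518) (.g (nat_lit 1521) (.e (nat_lit 2058) (nat_lit 142) (.e (nat_lit 704599) (nat_lit 6) (.e (nat_lit 188453) (nat_lit 24) (.e (nat_lit 229680) (nat_lit 244) (.e (nat_lit 163931) (nat_lit 17) (.e (nat_lit 466947) (nat_lit 0) .nil)))))) (.g (nat_lit 1) (.e (nat_lit 104405) (nat_lit 0) .nil) .nil))) 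
(.lf (nat_lit 479030) (.g (nat_lit 915) (.e (nat_lit 4298) (nat_lit 256) (.e (nat_lit 229415) (nat_lit 15) (.e (nat_lit 450563) (nat_lit 0) .nil))) (.g (nat_lit 0) (.e (nat_lit 105666) (nat_lit 0) .nil) .nil))))) (.nd (nat_lit 8) (.nd (nat_lit 9) 
(.lf (nat_lit 478390) (.g (nat_lit 6579) (.e (nat_lit 2058) (nat_lit 142) (.e (nat_lit 704589) (nat_lit 3) (.e (nat_lit 163978) (nat_lit 30) (.e (nat_lit 573479) (nat_lit 13) (.e (nat_lit 65610) (nat_lit 10) (.e (nat_lit 344117) (nat_lit 21) (.e (nat_lit 516151) (nat_lit 9) (.e (nat_lit 426412) (nat_lit 15) .nil)))))))) (.g (nat_lit 1) (.e (nat_lit 104230) (nat_lit 0) .nil) .nil))) 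
(.lf (nat_lit 478902) (.g (nat_lit 3576) (.e (nat_lit 2174) (nat_lit 143) (.e (nat_lit 712745) (nat_lit 27) (.e (nat_lit 426347) (nat_lit 14) (.e (nat_lit 491571) (nat_lit 13) (.e (nat_lit 393268) (nat_lit 23) (.e (nat_lit 426377) (nat_lit 15) .nil)))))) (.g (nat_lit 1) (.e (nat_lit 105099) (nat_lit 0) .nil) .nil)))) (.nd (nat_lit 9) 
(.lf (nat_lit 478646) (.g (nat_lit 3021) (.e (nat_lit 2059) (nat_lit 142) (.e (nat_lit 704589) (nat_lit 3) (.e (nat_lit 163976) (nat_lit 30) (.e (nat_lit 573492) (nat_lit 15) (.e (nat_lit 81956) (nat_lit 23) (.e (nat_lit 98355) (nat_lit 26) (.e (nat_lit 426376) (nat_lit 15) .nil))))))) (.g (nat_lit 1) (.e (nat_lit 104556) (nat_lit 0) .nil) .nil))) 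
(.lf (nat_lit 479158) (.g (nat_lit 430) (.e (nat_lit 5222) (nat_lit 296) (.e (nat_lit 163903) (nat_lit 12) (.e (nat_lit 426479) (nat_lit 27) .nil))) (.g (nat_lit 0) (.e (nat_lit 107062) (nat_lit 0) .nil) .nil)))))) (.nd (nat_lit 7) (.nd (nat_lit 8) (.nd (nat_lit 9) 
(.lf (nat_lit 478326) (.g (nat_lit 4766) (.e (nat_lit 2058) (nat_lit 142) (.e (nat_lit 704589) (nat_lit 3) (.e (nat_lit 163975) (nat_lit 30) (.e (nat_lit 573492) (nat_lit 15) (.e (nat_lit 81956) (nat_lit 23) (.e (nat_lit 98356) (nat_lit 26) (.e (nat_lit 426375) (nat_lit 15) .nil))))))) (.g (nat_lit 1) (.e (nat_lit 104158) (nat_lit 0) .nil) .nil))) 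
(.lf (nat_lit 478838) (.g (nat_lit 1288) (.e (nat_lit 2146) (nat_lit 142) (.e (nat_lit 704597) (nat_lit 6) (.e (nat_lit 188431) (nat_lit 20) (.e (nat_lit 3397) (nat_lit 211) (.e (nat_lit 647185) (nat_lit 6) (.e (nat_lit 188417) (nat_lit 0) .nil)))))) (.g (nat_lit 1) (.e (nat_lit 104947) (nat_lit 0) .nil) .nil)))) (.nd (nat_lit 9) 
(.lf (nat_lit 478582) (.g (nat_lit 3598) (.e (nat_lit 2059) (nat_lit 142) (.e (nat_lit 704589) (nat_lit 3) (.e (nat_lit 163975) (nat_lit 30) (.e (nat_lit 573492) (nat_lit 15) (.e (nat_lit 81956) (nat_lit 23) (.e (nat_lit 98355) (nat_lit 26) (.e (nat_lit 426376) (nat_lit 15) .nil))))))) (.g (nat_lit 1) (.e (nat_lit 104481) (nat_lit 0) .nil) .nil))) 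
(.lf (nat_lit 479094) (.g (nat_lit 4557) (.e (nat_lit 4847) (nat_lit 285) (.e (nat_lit 163870) (nat_lit 2) (.e (nat_lit 196666) (nat_lit 13) (.e (nat_lit 65610) (nat_lit 10) (.e (nat_lit 344117) (nat_lit 21) (.e (nat_lit 516151) (nat_lit 9) (.e (nat_lit 426023) (nat_lit 0) (.e (nat_lit 2400) (nat_lit 157) .nil)))))))) (.g (nat_lit 1) (.e (nat_lit 106449) (nat_lit 0) .nil) .nil))))) 
(.nd (nat_lit 8) (.nd (nat_lit 9) 
(.lf (nat_lit 478454) (.g (nat_lit 3050) (.e (nat_lit 2058) (nat_lit 142) (.e (nat_lit 704589) (nat_lit 3) (.e (nat_lit 163979) (nat_lit 30) (.e (nat_lit 573491) (nat_lit 15) (.e (nat_lit 81954) (nat_lit 23) (.e (nat_lit 98359) (nat_lit 26) (.e (nat_lit 426414) (nat_lit 15) .nil))))))) (.g (nat_lit 1) (.e (nat_lit 104294) (nat_lit 0) .nil) .nil))) 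
(.lf (nat_lit 478966) (.g (nat_lit 2169) (.e (nat_lit 2175) (nat_lit 143) (.e (nat_lit 712751) (nat_lit 29) (.e (nat_lit 442421) (nat_lit 21) (.e (nat_lit 164347) (nat_lit 240) (.e (nat_lit 2648) (nat_lit 166) (.e (nat_lit 188420) (nat_lit 0) .nil)))))) (.g (nat_lit 1) (.e (nat_lit 105171) (nat_lit 0) .nil) .nil)))) (.nd (nat_lit 9) 
(.lf (nat_lit 478710) (.g (nat_lit 4124) (.e (nat_lit 2059) (nat_lit 142) (.e (nat_lit 704589) (nat_lit 3) (.e (nat_lit 163979) (nat_lit 30) (.e (nat_lit 573482) (nat_lit 13) (.e (nat_lit 65619) (nat_lit 10) (.e (nat_lit 344117) (nat_lit 21) (.e (nat_lit 516144) (nat_lit 9) (.e (nat_lit 426374) (nat_lit 15) .nil)))))))) (.g (nat_lit 1) (.e (nat_lit 104625) (nat_lit 0) .nil) .nil))) 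
(.lf (nat_lit 479222) (.g (nat_lit 2012) (.e (nat_lit 5224) (nat_lit 296) (.e (nat_lit 163871) (nat_lit 2) (.e (nat_lit 196654) (nat_lit 11) (.e (nat_lit 16463) (nat_lit 13) (.e (nat_lit 491264) (nat_lit 10) (.e (nat_lit 434213) (nat_lit 18) .nil)))))) (.g (nat_lit 1) (.e (nat_lit 107462) (nat_lit 0) .nil) .nil))))))))) 
(.nd (nat_lit 4) (.nd (nat_lit 5) (.nd (nat_lit 6) (.nd (nat_lit 7) (.nd (nat_lit 8) 
(.nd (nat_lit 9) 
(.lf (nat_lit 478222) (.g (nat_lit 4733) (.e (nat_lit 2057) (nat_lit 142) (.e (nat_lit 704589) (nat_lit 3) (.e (nat_lit 163975) (nat_lit 30) (.e (nat_lit 573481) (nat_lit 13) (.e (nat_lit 65619) (nat_lit 10) (.e (nat_lit 344117) (nat_lit 21) (.e (nat_lit 516151) (nat_lit 9) (.e (nat_lit 426412) (nat_lit 15) .nil)))))))) (.g (nat_lit 1) (.e (nat_lit 104019) (nat_lit 0) .nil) .nil))) 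
(.lf (nat_lit 478734) (.g (nat_lit 2219) (.e (nat_lit 2059) (nat_lit 142) (.e (nat_lit 704589) (nat_lit 3) (.e (nat_lit 163979) (nat_lit 30) (.e (nat_lit 573491) (nat_lit 15) (.e (nat_lit 81954) (nat_lit 23) (.e (nat_lit 98355) (nat_lit 26) (.e (nat_lit 426405) (nat_lit 15) .nil))))))) (.g (nat_lit 1) (.e (nat_lit 104649) (nat_lit 0) .nil) .nil)))) (.nd (nat_lit 9) 
(.lf (nat_lit 478478) (.g (nat_lit 5261) (.e (nat_lit 2058) (nat_lit 142) (.e (nat_lit 704589) (nat_lit 3) (.e (nat_lit 163979) (nat_lit 30) (.e (nat_lit 573493) (nat_lit 15) (.e (nat_lit 81956) (nat_lit 23) (.e (nat_lit 98356) (nat_lit 26) (.e (nat_lit 426374) (nat_lit 15) .nil))))))) (.g (nat_lit 1) (.e (nat_lit 104320) (nat_lit 0) .nil) .nil))) 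
(.lf (nat_lit 478990) (.g (nat_lit 1321) (.e (nat_lit 2198) (nat_lit 144) (.e (nat_lit 720941) (nat_lit 22) (.e (nat_lit 90172) (nat_lit 14) (.e (nat_lit 180244) (nat_lit 5) (.e (nat_lit 532501) (nat_lit 1) .nil))))) (.g (nat_lit 0) (.e (nat_lit 105235) (nat_lit 0) .nil) .nil))))) (.nd (nat_lit 8) (.nd (nat_lit 9) 
(.lf (nat_lit 478350) (.g (nat_lit 3362) (.e (nat_lit 2058) (nat_lit 142) (.e (nat_lit 704589) (nat_lit 3) (.e (nat_lit 163976) (nat_lit 30) (.e (nat_lit 573491) (nat_lit 15) (.e (nat_lit 81951) (nat_lit 22) (.e (nat_lit 90170) (nat_lit 13) (.e (nat_lit 172136) (nat_lit 15) .nil))))))) (.g (nat_lit 1) (.e (nat_lit 104185) (nat_lit 0) .nil) .nil))) 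
(.lf (nat_lit 478862) (.g (nat_lit 1400) (.e (nat_lit 2151) (nat_lit 142) (.e (nat_lit 704738) (nat_lit 11) (.e (nat_lit 16416) (nat_lit 3) (.e (nat_lit 204861) (nat_lit 26) .nil)))) (.g (nat_lit 0) (.e (nat_lit 105007) (nat_lit 0) .nil) .nil)))) (.nd (nat_lit 9) 
(.lf (nat_lit 478606) (.g (nat_lit 4237) (.e (nat_lit 2059) (nat_lit 142) (.e (nat_lit 704589) (nat_lit 3) (.e (nat_lit 163976) (nat_lit 30) (.e (nat_lit 573481) (nat_lit 13) (.e (nat_lit 65619) (nat_lit 10) (.e (nat_lit 344117) (nat_lit 21) (.e (nat_lit 516144) (nat_lit 9) (.e (nat_lit 426375) (nat_lit 15) .nil)))))))) (.g (nat_lit 1) (.e (nat_lit 104510) (nat_lit 0) .nil) .nil))) 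
(.lf (nat_lit 479118) (.g (nat_lit 2511) (.e (nat_lit 4931) (nat_lit 287) (.e (nat_lit 2797) (nat_lit 180) (.e (nat_lit 303145) (nat_lit 13) (.e (nat_lit 483405) (nat_lit 26) (.e (nat_lit 385091) (nat_lit 49) .nil))))) (.g (nat_lit 0) (.e (nat_lit 106571) (nat_lit 0) .nil) .nil)))))) (.nd (nat_lit 7) (.nd (nat_lit 8) (.nd (nat_lit 9) 
(.lf (nat_lit 478286) (.g (nat_lit 1064) (.e (nat_lit 2057) (nat_lit 142) (.e (nat_lit 704599) (nat_lit 6) (.e (nat_lit 188418) (nat_lit 0) (.e (nat_lit 2058) (nat_lit 142) (.e (nat_lit 704599) (nat_lit 6) (.e (nat_lit 188418) (nat_lit 0) .nil)))))) (.g (nat_lit 1) (.e (nat_lit 104110) (nat_lit 0) .nil) .nil))) 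
(.lf (nat_lit 478798) (.g (nat_lit 2294) (.e (nat_lit 2059) (nat_lit 142) (.e (nat_lit 704598) (nat_lit 6) (.e (nat_lit 188446) (nat_lit 21) (.e (nat_lit 164347) (nat_lit 240) (.e (nat_lit 2650) (nat_lit 166) (.e (nat_lit 188419) (nat_lit 0) .nil)))))) (.g (nat_lit 1) (.e (nat_lit 104776) (nat_lit 0) .nil) .nil)))) (.nd (nat_lit 9) 
(.lf (nat_lit 478542) (.g (nat_lit 4194) (.e (nat_lit 2059) (nat_lit 142) (.e (nat_lit 704589) (nat_lit 3) (.e (nat_lit 163975) (nat_lit 30) (.e (nat_lit 573481) (nat_lit 13) (.e (nat_lit 65619) (nat_lit 10) (.e (nat_lit 344117) (nat_lit 21) (.e (nat_lit 516152) (nat_lit 9) (.e (nat_lit 426396) (nat_lit 15) .nil)))))))) (.g (nat_lit 1) (.e (nat_lit 104429) (nat_lit 0) .nil) .nil))) 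
(.lf (nat_lit 479054) (.g (nat_lit 4178) (.e (nat_lit 4506) (nat_lit 263) (.e (nat_lit 2619) (nat_lit 164) (.e (nat_lit 172064) (nat_lit 2) (.e (nat_lit 196666) (nat_lit 13) (.e (nat_lit 65610) (nat_lit 10) (.e (nat_lit 344117) (nat_lit 21) (.e (nat_lit 516098) (nat_lit 0) (.e (nat_lit 2409) (nat_lit 157) .nil)))))))) (.g (nat_lit 1) (.e (nat_lit 106067) (nat_lit 0) .nil) .nil))))) 
(.nd (nat_lit 8) (.nd (nat_lit 9) 
(.lf (nat_lit 478414) (.g (nat_lit 402) (.e (nat_lit 2058) (nat_lit 142) (.e (nat_lit 704589) (nat_lit 3) (.e (nat_lit 163979) (nat_lit 30) .nil))) (.g (nat_lit 0) (.e (nat_lit 104254) (nat_lit 0) .nil) .nil))) 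
(.lf (nat_lit 478926) (.g (nat_lit 3326) (.e (nat_lit 2174) (nat_lit 143) (.e (nat_lit 712752) (nat_lit 29) (.e (nat_lit 442421) (nat_lit 21) (.e (nat_lit 164347) (nat_lit 240) (.e (nat_lit 2648) (nat_lit 166) (.e (nat_lit 188418) (nat_lit 0) .nil)))))) (.g (nat_lit 1) (.e (nat_lit 105126) (nat_lit 0) .nil) .nil)))) (.nd (nat_lit 9) 
(.lf (nat_lit 478670) (.g (nat_lit 2782) (.e (nat_lit 2059) (nat_lit 142) (.e (nat_lit 704589) (nat_lit 3) (.e (nat_lit 163978) (nat_lit 30) (.e (nat_lit 573485) (nat_lit 13) (.e (nat_lit 65604) (nat_lit 9) (.e (nat_lit 336028) (nat_lit 3) (.e (nat_lit 98359) (nat_lit 26) (.e (nat_lit 426414) (nat_lit 15) .nil)))))))) (.g (nat_lit 1) (.e (nat_lit 104584) (nat_lit 0) .nil) .nil))) 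
(.lf (nat_lit 479182) (.g (nat_lit 2734) (.e (nat_lit 5223) (nat_lit 296) (.e (nat_lit 163871) (nat_lit 2) (.e (nat_lit 196656) (nat_lit 11) (.e (nat_lit 16416) (nat_lit 3) (.e (nat_lit 204838) (nat_lit 20) .nil))))) (.g (nat_lit 0) (.e (nat_lit 107252) (nat_lit 0) .nil) .nil))))))) (.nd (nat_lit 6) (.nd (nat_lit 7) (.nd (nat_lit 8) (.nd (nat_lit 9) 
(.lf (nat_lit 478254) (.g (nat_lit 3741) (.e (nat_lit 2057) (nat_lit 142) (.e (nat_lit 704589) (nat_lit 3) (.e (nat_lit 163979) (nat_lit 30) (.e (nat_lit 573492) (nat_lit 15) (.e (nat_lit 81956) (nat_lit 23) (.e (nat_lit 98356) (nat_lit 26) (.e (nat_lit 426416) (nat_lit 15) .nil))))))) (.g (nat_lit 1) (.e (nat_lit 104052) (nat_lit 0) .nil) .nil))) 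
(.lf (nat_lit 478766) (.g (nat_lit 4333) (.e (nat_lit 2059) (nat_lit 142) (.e (nat_lit 704589) (nat_lit 3) (.e (nat_lit 163979) (nat_lit 30) (.e (nat_lit 573493) (nat_lit 15) (.e (nat_lit 81954) (nat_lit 23) (.e (nat_lit 98359) (nat_lit 26) (.e (nat_lit 426410) (nat_lit 15) .nil))))))) (.g (nat_lit 1) (.e (nat_lit 104697) (nat_lit 0) .nil) .nil)))) (.nd (nat_lit 9) 
(.lf (nat_lit 478510) (.g (nat_lit 2273) (.e (nat_lit 2058) (nat_lit 142) (.e (nat_lit 704598) (nat_lit 6) (.e (nat_lit 188444) (nat_lit 21) (.e (nat_lit 164347) (nat_lit 240) (.e (nat_lit 2650) (nat_lit 166) (.e (nat_lit 188419) (nat_lit 0) .nil)))))) (.g (nat_lit 1) (.e (nat_lit 104397) (nat_lit 0) .nil) .nil))) 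
(.lf (nat_lit 479022) (.g (nat_lit 1196) (.e (nat_lit 3962) (nat_lit 239) (.e (nat_lit 1209) (nat_lit 89) (.e (nat_lit 73782) (nat_lit 32) (.e (nat_lit 2681) (nat_lit 168) .nil)))) (.g (nat_lit 0) (.e (nat_lit 105538) (nat_lit 0) .nil) .nil))))) (.nd (nat_lit 8) (.nd (nat_lit 9) 
(.lf (nat_lit 478382) (.g (nat_lit 4363) (.e (nat_lit 2058) (nat_lit 142) (.e (nat_lit 704589) (nat_lit 3) (.e (nat_lit 163976) (nat_lit 30) (.e (nat_lit 573492) (nat_lit 15) (.e (nat_lit 81956) (nat_lit 23) (.e (nat_lit 98356) (nat_lit 26) (.e (nat_lit 426420) (nat_lit 15) .nil))))))) (.g (nat_lit 1) (.e (nat_lit 104219) (nat_lit 0) .nil) .nil))) 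
(.lf (nat_lit 478894) (.g (nat_lit 1974) (.e (nat_lit 2174) (nat_lit 143) (.e (nat_lit 712745) (nat_lit 27) (.e (nat_lit 426347) (nat_lit 14) (.e (nat_lit 491570) (nat_lit 13) (.e (nat_lit 393279) (nat_lit 23) (.e (nat_lit 426387) (nat_lit 15) .nil)))))) (.g (nat_lit 1) (.e (nat_lit 105091) (nat_lit 0) .nil) .nil)))) (.nd (nat_lit 9) 
(.lf (nat_lit 478638) (.g (nat_lit 1874) (.e (nat_lit 2059) (nat_lit 142) (.e (nat_lit 704589) (nat_lit 3) (.e (nat_lit 163976) (nat_lit 30) (.e (nat_lit 573491) (nat_lit 15) (.e (nat_lit 81954) (nat_lit 23) (.e (nat_lit 106240) (nat_lit 26) (.e (nat_lit 426391) (nat_lit 15) .nil))))))) (.g (nat_lit 1) (.e (nat_lit 104542) (nat_lit 0) .nil) .nil))) 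
(.lf (nat_lit 479150) (.g (nat_lit 648) (.e (nat_lit 5219) (nat_lit 296) (.e (nat_lit 163923) (nat_lit 15) (.e (nat_lit 450596) (nat_lit 17) .nil))) (.g (nat_lit 0) (.e (nat_lit 106994) (nat_lit 0) .nil) .nil)))))) (.nd (nat_lit 7) (.nd (nat_lit 8) (.nd (nat_lit 9) 
(.lf (nat_lit 478318) (.g (nat_lit 4354) (.e (nat_lit 2058) (nat_lit 142) (.e (nat_lit 704589) (nat_lit 3) (.e (nat_lit 163975) (nat_lit 30) (.e (nat_lit 573492) (nat_lit 15) (.e (nat_lit 81953) (nat_lit 22) (.e (nat_lit 90170) (nat_lit 13) (.e (nat_lit 172137) (nat_lit 15) .nil))))))) (.g (nat_lit 1) (.e (nat_lit 104148) (nat_lit 0) .nil) .nil))) 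
(.lf (nat_lit 478830) (.g (nat_lit 840) (.e (nat_lit 2143) (nat_lit 142) (.e (nat_lit 704597) (nat_lit 6) (.e (nat_lit 188418) (nat_lit 0) (.e (nat_lit 2057) (nat_lit 142) (.e (nat_lit 704598) (nat_lit 6) (.e (nat_lit 188417) (nat_lit 0) .nil)))))) (.g (nat_lit 1) (.e (nat_lit 104895) (nat_lit 0) .nil) .nil)))) (.nd (nat_lit 9) 
(.lf (nat_lit 478574) (.g (nat_lit 5790) (.e (nat_lit 2059) (nat_lit 142) (.e (nat_lit 704589) (nat_lit 3) (.e (nat_lit 163975) (nat_lit 30) (.e (nat_lit 573492) (nat_lit 15) (.e (nat_lit 81953) (nat_lit 22) (.e (nat_lit 90167) (nat_lit 13) (.e (nat_lit 172138) (nat_lit 15) .nil))))))) (.g (nat_lit 1) (.e (nat_lit 104468) (nat_lit 0) .nil) .nil))) 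
(.lf (nat_lit 479086) (.g (nat_lit 762) (.e (nat_lit 4761) (nat_lit 281) (.e (nat_lit 2551) (nat_lit 159) (.e (nat_lit 24653) (nat_lit 12) (.e (nat_lit 385102) (nat_lit 50) (.e (nat_lit 786483) (nat_lit 30) .nil))))) (.g (nat_lit 0) (.e (nat_lit 106410) (nat_lit 0) .nil) .nil))))) (.nd (nat_lit 8) (.nd (nat_lit 9) 
(.lf (nat_lit 478446) (.g (nat_lit 4087) (.e (nat_lit 2058) (nat_lit 142) (.e (nat_lit 704589) (nat_lit 3) (.e (nat_lit 163979) (nat_lit 30) (.e (nat_lit 573491) (nat_lit 15) (.e (nat_lit 81954) (nat_lit 23) (.e (nat_lit 98356) (nat_lit 26) (.e (nat_lit 426375) (nat_lit 15) .nil))))))) (.g (nat_lit 1) (.e (nat_lit 104286) (nat_lit 0) .nil) .nil))) 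
(.lf (nat_lit 478958) (.g (nat_lit 3341) (.e (nat_lit 2175) (nat_lit 143) (.e (nat_lit 712745) (nat_lit 27) (.e (nat_lit 426347) (nat_lit 14) (.e (nat_lit 491571) (nat_lit 13) (.e (nat_lit 393274) (nat_lit 23) (.e (nat_lit 426412) (nat_lit 15) .nil)))))) (.g (nat_lit 1) (.e (nat_lit 105163) (nat_lit 0) .nil) .nil)))) (.nd (nat_lit 9) 
(.lf (nat_lit 478702) (.g (nat_lit 2664) (.e (nat_lit 2059) (nat_lit 142) (.e (nat_lit 704589) (nat_lit 3) (.e (nat_lit 163979) (nat_lit 30) (.e (nat_lit 573482) (nat_lit 13) (.e (nat_lit 65604) (nat_lit 9) (.e (nat_lit 336028) (nat_lit 3) (.e (nat_lit 98363) (nat_lit 26) (.e (nat_lit 426391) (nat_lit 15) .nil)))))))) (.g (nat_lit 1) (.e (nat_lit 104617) (nat_lit 0) .nil) .nil))) 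
(.lf (nat_lit 479214) (.g (nat_lit 2818) (.e (nat_lit 5224) (nat_lit 296) (.e (nat_lit 163868) (nat_lit 2) (.e (nat_lit 196656) (nat_lit 11) (.e (nat_lit 16465) (nat_lit 13) (.e (nat_lit 491264) (nat_lit 10) .nil))))) (.g (nat_lit 0) (.e (nat_lit 107424) (nat_lit 0) .nil) .nil)))))))) (.nd (nat_lit 5) (.nd (nat_lit 6) (.nd (nat_lit 7) (.nd (nat_lit 8) (.nd (nat_lit 9) 
(.lf (nat_lit 478238) (.g (nat_lit 3022) (.e (nat_lit 2057) (nat_lit 142) (.e (nat_lit 704589) (nat_lit 3) (.e (nat_lit 163976) (nat_lit 30) (.e (nat_lit 573491) (nat_lit 15) (.e (nat_lit 81954) (nat_lit 23) (.e (nat_lit 98359) (nat_lit 26) (.e (nat_lit 426412) (nat_lit 15) .nil))))))) (.g (nat_lit 1) (.e (nat_lit 104036) (nat_lit 0) .nil) .nil))) 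
(.lf (nat_lit 478750) (.g (nat_lit 3338) (.e (nat_lit 2059) (nat_lit 142) (.e (nat_lit 704589) (nat_lit 3) (.e (nat_lit 163979) (nat_lit 30) (.e (nat_lit 573491) (nat_lit 15) (.e (nat_lit 81954) (nat_lit 23) (.e (nat_lit 98365) (nat_lit 26) (.e (nat_lit 426413) (nat_lit 15) .nil))))))) (.g (nat_lit 1) (.e (nat_lit 104665) (nat_lit 0) .nil) .nil)))) (.nd (nat_lit 9) 
(.lf (nat_lit 478494) (.g (nat_lit 1646) (.e (nat_lit 2058) (nat_lit 142) (.e (nat_lit 704592) (nat_lit 4) (.e (nat_lit 172120) (nat_lit 12) (.e (nat_lit 475197) (nat_lit 40) (.e (nat_lit 704598) (nat_lit 6) (.e (nat_lit 188418) (nat_lit 0) .nil)))))) (.g (nat_lit 1) (.e (nat_lit 104346) (nat_lit 0) .nil) .nil))) 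
(.lf (nat_lit 479006) (.g (nat_lit 3743) (.e (nat_lit 3978) (nat_lit 239) (.e (nat_lit 2617) (nat_lit 164) (.e (nat_lit 172126) (nat_lit 14) (.e (nat_lit 491540) (nat_lit 3) (.e (nat_lit 98373) (nat_lit 29) (.e (nat_lit 450567) (nat_lit 0) .nil)))))) (.g (nat_lit 1) (.e (nat_lit 105430) (nat_lit 0) .nil) .nil))))) (.nd (nat_lit 8) (.nd (nat_lit 9) 
(.lf (nat_lit 478366) (.g (nat_lit 1579) (.e (nat_lit 2058) (nat_lit 142) (.e (nat_lit 704589) (nat_lit 3) (.e (nat_lit 163976) (nat_lit 30) (.e (nat_lit 573491) (nat_lit 15) (.e (nat_lit 81954) (nat_lit 23) (.e (nat_lit 98362) (nat_lit 26) (.e (nat_lit 426410) (nat_lit 15) .nil))))))) (.g (nat_lit 1) (.e (nat_lit 104201) (nat_lit 0) .nil) .nil))) 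
(.lf (nat_lit 478878) (.g (nat_lit 3200) (.e (nat_lit 2174) (nat_lit 143) (.e (nat_lit 712745) (nat_lit 27) (.e (nat_lit 426347) (nat_lit 14) (.e (nat_lit 491549) (nat_lit 9) (.e (nat_lit 336428) (nat_lit 29) (.e (nat_lit 442372) (nat_lit 0) .nil)))))) (.g (nat_lit 1) (.e (nat_lit 105075) (nat_lit 0) .nil) .nil)))) (.nd (nat_lit 9) 
(.lf (nat_lit 478622) (.g (nat_lit 2185) (.e (nat_lit 2059) (nat_lit 142) (.e (nat_lit 704589) (nat_lit 3) (.e (nat_lit 163976) (nat_lit 30) (.e (nat_lit 573491) (nat_lit 15) (.e (nat_lit 81954) (nat_lit 23) (.e (nat_lit 98355) (nat_lit 26) (.e (nat_lit 426393) (nat_lit 15) .nil))))))) (.g (nat_lit 1) (.e (nat_lit 104526) (nat_lit 0) .nil) .nil))) 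
(.lf (nat_lit 479134) (.g (nat_lit 880) (.e (nat_lit 5048) (nat_lit 292) (.e (nat_lit 2652) (nat_lit 166) (.e (nat_lit 188434) (nat_lit 20) (.e (nat_lit 3391) (nat_lit 210) .nil)))) (.g (nat_lit 0) (.e (nat_lit 106770) (nat_lit 0) .nil) .nil)))))) (.nd (nat_lit 7) (.nd (nat_lit 8) (.nd (nat_lit 9) 
(.lf (nat_lit 478302) (.g (nat_lit 2405) (.e (nat_lit 2058) (nat_lit 142) (.e (nat_lit 704589) (nat_lit 3) (.e (nat_lit 163975) (nat_lit 30) (.e (nat_lit 573491) (nat_lit 15) (.e (nat_lit 81954) (nat_lit 23) (.e (nat_lit 98355) (nat_lit 26) (.e (nat_lit 426375) (nat_lit 15) .nil))))))) (.g (nat_lit 1) (.e (nat_lit 104129) (nat_lit 0) .nil) .nil))) 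
(.lf (nat_lit 478814) (.g (nat_lit 2191) (.e (nat_lit 2074) (nat_lit 142) (.e (nat_lit 704734) (nat_lit 11) (.e (nat_lit 16416) (nat_lit 3) (.e (nat_lit 204861) (nat_lit 26) (.e (nat_lit 336076) (nat_lit 9) .nil))))) (.g (nat_lit 0) (.e (nat_lit 104798) (nat_lit 0) .nil) .nil)))) (.nd (nat_lit 9) 
(.lf (nat_lit 478558) (.g (nat_lit 3837) (.e (nat_lit 2059) (nat_lit 142) (.e (nat_lit 704589) (nat_lit 3) (.e (nat_lit 163975) (nat_lit 30) (.e (nat_lit 573491) (nat_lit 15) (.e (nat_lit 81954) (nat_lit 23) (.e (nat_lit 98356) (nat_lit 26) (.e (nat_lit 426416) (nat_lit 15) .nil))))))) (.g (nat_lit 1) (.e (nat_lit 104445) (nat_lit 0) .nil) .nil))) 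
(.lf (nat_lit 479070) (.g (nat_lit 3155) (.e (nat_lit 4539) (nat_lit 267) (.e (nat_lit 163869) (nat_lit 2) (.e (nat_lit 196656) (nat_lit 11) (.e (nat_lit 16473) (nat_lit 14) (.e (nat_lit 499456) (nat_lit 27) .nil))))) (.g (nat_lit 0) (.e (nat_lit 106151) (nat_lit 0) .nil) .nil))))) (.nd (nat_lit 8) (.nd (nat_lit 9) 
(.lf (nat_lit 478430) (.g (nat_lit 4887) (.e (nat_lit 2058) (nat_lit 142) (.e (nat_lit 704589) (nat_lit 3) (.e (nat_lit 163979) (nat_lit 30) (.e (nat_lit 573482) (nat_lit 13) (.e (nat_lit 65619) (nat_lit 10) (.e (nat_lit 344117) (nat_lit 21) (.e (nat_lit 516145) (nat_lit 9) (.e (nat_lit 426416) (nat_lit 15) .nil)))))))) (.g (nat_lit 1) (.e (nat_lit 104270) (nat_lit 0) .nil) .nil))) 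
(.lf (nat_lit 478942) (.g (nat_lit 2243) (.e (nat_lit 2174) (nat_lit 143) (.e (nat_lit 712755) (nat_lit 30) (.e (nat_lit 458496) (nat_lit 0) (.e (nat_lit 5546) (nat_lit 306) (.e (nat_lit 2648) (nat_lit 166) (.e (nat_lit 188418) (nat_lit 0) .nil)))))) (.g (nat_lit 1) (.e (nat_lit 105143) (nat_lit 0) .nil) .nil)))) (.nd (nat_lit 9) 
(.lf (nat_lit 478686) (.g (nat_lit 6212) (.e (nat_lit 2059) (nat_lit 142) (.e (nat_lit 704589) (nat_lit 3) (.e (nat_lit 163978) (nat_lit 30) (.e (nat_lit 573485) (nat_lit 13) (.e (nat_lit 65619) (nat_lit 10) (.e (nat_lit 344117) (nat_lit 21) (.e (nat_lit 516151) (nat_lit 9) (.e (nat_lit 426396) (nat_lit 15) .nil)))))))) (.g (nat_lit 1) (.e (nat_lit 104601) (nat_lit 0) .nil) .nil))) 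
(.lf (nat_lit 479198) (.g (nat_lit 2534) (.e (nat_lit 5223) (nat_lit 296) (.e (nat_lit 163882) (nat_lit 4) (.e (nat_lit 213032) (nat_lit 11) (.e (nat_lit 24660) (nat_lit 13) (.e (nat_lit 393282) (nat_lit 24) (.e (nat_lit 434209) (nat_lit 18) .nil)))))) (.g (nat_lit 1) (.e (nat_lit 107290) (nat_lit 0) .nil) .nil))))))) (.nd (nat_lit 6) (.nd (nat_lit 7) (.nd (nat_lit 8) (.nd (nat_lit 9) 
(.lf (nat_lit 478270) (.g (nat_lit 1162) (.e (nat_lit 2057) (nat_lit 142) (.e (nat_lit 704598) (nat_lit 6) (.e (nat_lit 188439) (nat_lit 20) (.e (nat_lit 3409) (nat_lit 212) (.e (nat_lit 655380) (nat_lit 6) (.e (nat_lit 188420) (nat_lit 0) .nil)))))) (.g (nat_lit 1) (.e (nat_lit 104092) (nat_lit 0) .nil) .nil))) 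
(.lf (nat_lit 478782) (.g (nat_lit 5035) (.e (nat_lit 2059) (nat_lit 142) (.e (nat_lit 704589) (nat_lit 3) (.e (nat_lit 163979) (nat_lit 30) (.e (nat_lit 573493) (nat_lit 15) (.e (nat_lit 81956) (nat_lit 23) (.e (nat_lit 98361) (nat_lit 26) (.e (nat_lit 426412) (nat_lit 15) .nil))))))) (.g (nat_lit 1) (.e (nat_lit 104713) (nat_lit 0) .nil) .nil)))) (.nd (nat_lit 9) 
(.lf (nat_lit 478526) (.g (nat_lit 2475) (.e (nat_lit 2059) (nat_lit 142) (.e (nat_lit 704589) (nat_lit 3) (.e (nat_lit 163975) (nat_lit 30) (.e (nat_lit 573481) (nat_lit 13) (.e (nat_lit 65604) (nat_lit 9) (.e (nat_lit 336028) (nat_lit 3) (.e (nat_lit 98359) (nat_lit 26) (.e (nat_lit 426414) (nat_lit 15) .nil)))))))) (.g (nat_lit 1) (.e (nat_lit 104413) (nat_lit 0) .nil) .nil))) 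
(.lf (nat_lit 479038) (.g (nat_lit 3571) (.e (nat_lit 4423) (nat_lit 261) (.e (nat_lit 163871) (nat_lit 2) (.e (nat_lit 196666) (nat_lit 13) (.e (nat_lit 65610) (nat_lit 10) (.e (nat_lit 344129) (nat_lit 26) .nil))))) (.g (nat_lit 0) (.e (nat_lit 105942) (nat_lit 0) .nil) .nil))))) (.nd (nat_lit 8) (.nd (nat_lit 9) 
(.lf (nat_lit 478398) (.g (nat_lit 3286) (.e (nat_lit 2058) (nat_lit 142) (.e (nat_lit 704589) (nat_lit 3) (.e (nat_lit 163978) (nat_lit 30) (.e (nat_lit 573485) (nat_lit 13) (.e (nat_lit 65604) (nat_lit 9) (.e (nat_lit 336028) (nat_lit 3) (.e (nat_lit 98359) (nat_lit 26) (.e (nat_lit 426414) (nat_lit 15) .nil)))))))) (.g (nat_lit 1) (.e (nat_lit 104238) (nat_lit 0) .nil) .nil))) 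
(.lf (nat_lit 478910) (.g (nat_lit 2841) (.e (nat_lit 2174) (nat_lit 143) (.e (nat_lit 712745) (nat_lit 27) (.e (nat_lit 426347) (nat_lit 14) (.e (nat_lit 491571) (nat_lit 13) (.e (nat_lit 393269) (nat_lit 23) (.e (nat_lit 426420) (nat_lit 15) .nil)))))) (.g (nat_lit 1) (.e (nat_lit 105107) (nat_lit 0) .nil) .nil)))) (.nd (nat_lit 9) 
(.lf (nat_lit 478654) (.g (nat_lit 4935) (.e (nat_lit 2059) (nat_lit 142) (.e (nat_lit 704589) (nat_lit 3) (.e (nat_lit 163976) (nat_lit 30) (.e (nat_lit 573492) (nat_lit 15) (.e (nat_lit 81956) (nat_lit 23) (.e (nat_lit 98359) (nat_lit 26) (.e (nat_lit 426396) (nat_lit 15) .nil))))))) (.g (nat_lit 1) (.e (nat_lit 104564) (nat_lit 0) .nil) .nil))) 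
(.lf (nat_lit 479166) (.g (nat_lit 1580) (.e (nat_lit 5222) (nat_lit 296) (.e (nat_lit 163933) (nat_lit 17) (.e (nat_lit 466972) (nat_lit 21) (.e (nat_lit 164307) (nat_lit 226) (.e (nat_lit 7936) (nat_lit 90) .nil))))) (.g (nat_lit 0) (.e (nat_lit 107095) (nat_lit 0) .nil) .nil)))))) (.nd (nat_lit 7) (.nd (nat_lit 8) (.nd (nat_lit 9) 
(.lf (nat_lit 478334) (.g (nat_lit 3520) (.e (nat_lit 2058) (nat_lit 142) (.e (nat_lit 704589) (nat_lit 3) (.e (nat_lit 163975) (nat_lit 30) (.e (nat_lit 573492) (nat_lit 15) (.e (nat_lit 81956) (nat_lit 23) (.e (nat_lit 98360) (nat_lit 26) (.e (nat_lit 426411) (nat_lit 15) .nil))))))) (.g (nat_lit 1) (.e (nat_lit 104166) (nat_lit 0) .nil) .nil))) 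
(.lf (nat_lit 478846) (.g (nat_lit 1753) (.e (nat_lit 2147) (nat_lit 142) (.e (nat_lit 704597) (nat_lit 6) (.e (nat_lit 188446) (nat_lit 21) (.e (nat_lit 164345) (nat_lit 240) (.e (nat_lit 2648) (nat_lit 166) (.e (nat_lit 188416) (nat_lit 0) .nil)))))) (.g (nat_lit 1) (.e (nat_lit 104979) (nat_lit 0) .nil) .nil)))) (.nd (nat_lit 9) 
(.lf (nat_lit 478590) (.g (nat_lit 4398) (.e (nat_lit 2059) (nat_lit 142) (.e (nat_lit 704589) (nat_lit 3) (.e (nat_lit 163975) (nat_lit 30) (.e (nat_lit 573492) (nat_lit 15) (.e (nat_lit 81956) (nat_lit 23) (.e (nat_lit 98359) (nat_lit 26) (.e (nat_lit 426410) (nat_lit 15) .nil))))))) (.g (nat_lit 1) (.e (nat_lit 104489) (nat_lit 0) .nil) .nil))) 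
(.lf (nat_lit 479102) (.g (nat_lit 4521) (.e (nat_lit 4849) (nat_lit 285) (.e (nat_lit 163869) (nat_lit 2) (.e (nat_lit 196666) (nat_lit 13) (.e (nat_lit 65610) (nat_lit 10) (.e (nat_lit 344117) (nat_lit 21) (.e (nat_lit 516160) (nat_lit 10) (.e (nat_lit 434200) (nat_lit 18) .nil))))))) (.g (nat_lit 1) (.e (nat_lit 106487) (nat_lit 0) .nil) .nil))))) (.nd (nat_lit 8) (.nd (nat_lit 9) 
(.lf (nat_lit 478462) (.g (nat_lit 3915) (.e (nat_lit 2058) (nat_lit 142) (.e (nat_lit 704589) (nat_lit 3) (.e (nat_lit 163979) (nat_lit 30) (.e (nat_lit 573492) (nat_lit 15) (.e (nat_lit 81956) (nat_lit 23) (.e (nat_lit 98355) (nat_lit 26) (.e (nat_lit 426376) (nat_lit 15) .nil))))))) (.g (nat_lit 1) (.e (nat_lit 104302) (nat_lit 0) .nil) .nil))) 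
(.lf (nat_lit 478974) (.g (nat_lit 2824) (.e (nat_lit 2175) (nat_lit 143) (.e (nat_lit 712752) (nat_lit 29) (.e (nat_lit 442421) (nat_lit 21) (.e (nat_lit 164348) (nat_lit 240) (.e (nat_lit 2648) (nat_lit 166) (.e (nat_lit 188418) (nat_lit 0) .nil)))))) (.g (nat_lit 1) (.e (nat_lit 105179) (nat_lit 0) .nil) .nil)))) (.nd (nat_lit 9) 
(.lf (nat_lit 478718) (.g (nat_lit 2829) (.e (nat_lit 2059) (nat_lit 142) (.e (nat_lit 704589) (nat_lit 3) (.e (nat_lit 163979) (nat_lit 30) (.e (nat_lit 573482) (nat_lit 13) (.e (nat_lit 65619) (nat_lit 10) (.e (nat_lit 344117) (nat_lit 21) (.e (nat_lit 516147) (nat_lit 9) (.e (nat_lit 426393) (nat_lit 15) .nil)))))))) (.g (nat_lit 1) (.e (nat_lit 104633) (nat_lit 0) .nil) .nil))) 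
(.lf (nat_lit 479230) (.g (nat_lit 400) (.e (nat_lit 5224) (nat_lit 296) (.e (nat_lit 163871) (nat_lit 2) (.e (nat_lit 196656) (nat_lit 11) .nil))) (.g (nat_lit 0) (.e (nat_lit 107484) (nat_lit 0) .nil) .nil)))))))))))) (.nd (nat_lit 1) (.nd (nat_lit 2) (.nd (nat_lit 3) (.nd (nat_lit 4) (.nd (nat_lit 5) (.nd (nat_lit 6) (.nd (nat_lit 7) (.nd (nat_lit 8) (.nd (nat_lit 9) 
(.lf (nat_lit 478209) (.g (nat_lit 315) (.e (nat_lit 2056) (nat_lit 142) (.e (nat_lit 704595) (nat_lit 5) (.e (nat_lit 180277) (nat_lit 32) .nil))) (.g (nat_lit 0) (.e (nat_lit 104000) (nat_lit 0) .nil) .nil))) 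
(.lf (nat_lit 478721) (.g (nat_lit 6366) (.e (nat_lit 2059) (nat_lit 142) (.e (nat_lit 704589) (nat_lit 3) (.e (nat_lit 163979) (nat_lit 30) (.e (nat_lit 573482) (nat_lit 13) (.e (nat_lit 65619) (nat_lit 10) (.e (nat_lit 344117) (nat_lit 21) (.e (nat_lit 516151) (nat_lit 9) (.e (nat_lit 426396) (nat_lit 15) .nil)))))))) (.g (nat_lit 1) (.e (nat_lit 104636) (nat_lit 0) .nil) .nil)))) 
(.nd (nat_lit 9) 
(.lf (nat_lit 478465) (.g (nat_lit 3295) (.e (nat_lit 2058) (nat_lit 142) (.e (nat_lit 704589) (nat_lit 3) (.e (nat_lit 163979) (nat_lit 30) (.e (nat_lit 573492) (nat_lit 15) (.e (nat_lit 81956) (nat_lit 23) (.e (nat_lit 98355) (nat_lit 26) (.e (nat_lit 426420) (nat_lit 15) .nil))))))) (.g (nat_lit 1) (.e (nat_lit 104305) (nat_lit 0) .nil) .nil))) 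
(.lf (nat_lit 478977) (.g (nat_lit 2589) (.e (nat_lit 2175) (nat_lit 143) (.e (nat_lit 712752) (nat_lit 29) (.e (nat_lit 442430) (nat_lit 24) (.e (nat_lit 229663) (nat_lit 240) (.e (nat_lit 2653) (nat_lit 166) (.e (nat_lit 188418) (nat_lit 0) .nil)))))) (.g (nat_lit 1) (.e (nat_lit 105182) (nat_lit 0) .nil) .nil))))) (.nd (nat_lit 8) (.nd (nat_lit 9) 
(.lf (nat_lit 478337) (.g (nat_lit 417) (.e (nat_lit 2058) (nat_lit 142) (.e (nat_lit 704589) (nat_lit 3) (.e (nat_lit 163976) (nat_lit 30) .nil))) (.g (nat_lit 0) (.e (nat_lit 104172) (nat_lit 0) .nil) .nil))) 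
(.lf (nat_lit 478849) (.g (nat_lit 1427) (.e (nat_lit 2147) (nat_lit 142) (.e (nat_lit 704597) (nat_lit 6) (.e (nat_lit 188446) (nat_lit 21) (.e (nat_lit 164346) (nat_lit 240) (.e (nat_lit 2648) (nat_lit 166) (.e (nat_lit 188417) (nat_lit 0) .nil)))))) (.g (nat_lit 1) (.e (nat_lit 104982) (nat_lit 0) .nil) .nil)))) (.nd (nat_lit 9) 
(.lf (nat_lit 478593) (.g (nat_lit 4154) (.e (nat_lit 2059) (nat_lit 142) (.e (nat_lit 704589) (nat_lit 3) (.e (nat_lit 163975) (nat_lit 30) (.e (nat_lit 573492) (nat_lit 15) (.e (nat_lit 81956) (nat_lit 23) (.e (nat_lit 98361) (nat_lit 26) (.e (nat_lit 426412) (nat_lit 15) .nil))))))) (.g (nat_lit 1) (.e (nat_lit 104492) (nat_lit 0) .nil) .nil))) 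
(.lf (nat_lit 479105) (.g (nat_lit 3894) (.e (nat_lit 4849) (nat_lit 285) (.e (nat_lit 163870) (nat_lit 2) (.e (nat_lit 196666) (nat_lit 13) (.e (nat_lit 65610) (nat_lit 10) (.e (nat_lit 344117) (nat_lit 21) (.e (nat_lit 516159) (nat_lit 10) (.e (nat_lit 434200) (nat_lit 18) .nil))))))) (.g (nat_lit 1) (.e (nat_lit 106493) (nat_lit 0) .nil) .nil)))))) 
(.nd (nat_lit 7) (.nd (nat_lit 8) (.nd (nat_lit 9) 
(.lf (nat_lit 478273) (.g (nat_lit 2067) (.e (nat_lit 2057) (nat_lit 142) (.e (nat_lit 704598) (nat_lit 6) (.e (nat_lit 188446) (nat_lit 21) (.e (nat_lit 164348) (nat_lit 240) (.e (nat_lit 2648) (nat_lit 166) (.e (nat_lit 188420) (nat_lit 0) .nil)))))) (.g (nat_lit 1) (.e (nat_lit 104097) (nat_lit 0) .nil) .nil))) 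
(.lf (nat_lit 478785) (.g (nat_lit 5708) (.e (nat_lit 2059) (nat_lit 142) (.e (nat_lit 704589) (nat_lit 3) (.e (nat_lit 163979) (nat_lit 30) (.e (nat_lit 573493) (nat_lit 15) (.e (nat_lit 81956) (nat_lit 23) (.e (nat_lit 98363) (nat_lit 26) (.e (nat_lit 426419) (nat_lit 15) .nil))))))) (.g (nat_lit 1) (.e (nat_lit 104716) (nat_lit 0) .nil) .nil)))) (.nd (nat_lit 9) 
(.lf (nat_lit 478529) (.g (nat_lit 1871) (.e (nat_lit 2059) (nat_lit 142) (.e (nat_lit 704589) (nat_lit 3) (.e (nat_lit 163975) (nat_lit 30) (.e (nat_lit 573481) (nat_lit 13) (.e (nat_lit 65604) (nat_lit 9) (.e (nat_lit 336028) (nat_lit 3) (.e (nat_lit 106240) (nat_lit 26) (.e (nat_lit 426419) (nat_lit 15) .nil)))))))) (.g (nat_lit 1) (.e (nat_lit 104416) (nat_lit 0) .nil) .nil))) 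
(.lf (nat_lit 479041) (.g (nat_lit 2457) (.e (nat_lit 4424) (nat_lit 261) (.e (nat_lit 163870) (nat_lit 2) (.e (nat_lit 196666) (nat_lit 13) (.e (nat_lit 65610) (nat_lit 10) (.e (nat_lit 344129) (nat_lit 26) .nil))))) (.g (nat_lit 0) (.e (nat_lit 105957) (nat_lit 0) .nil) .nil))))) (.nd (nat_lit 8) (.nd (nat_lit 9) 
(.lf (nat_lit 478401) (.g (nat_lit 4403) (.e (nat_lit 2058) (nat_lit 142) (.e (nat_lit 704589) (nat_lit 3) (.e (nat_lit 163978) (nat_lit 30) (.e (nat_lit 573485) (nat_lit 13) (.e (nat_lit 65619) (nat_lit 10) (.e (nat_lit 344117) (nat_lit 21) (.e (nat_lit 516144) (nat_lit 9) (.e (nat_lit 426375) (nat_lit 15) .nil)))))))) (.g (nat_lit 1) (.e (nat_lit 104241) (nat_lit 0) .nil) .nil))) 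
(.lf (nat_lit 478913) (.g (nat_lit 2672) (.e (nat_lit 2174) (nat_lit 143) (.e (nat_lit 712745) (nat_lit 27) (.e (nat_lit 426347) (nat_lit 14) (.e (nat_lit 491571) (nat_lit 13) (.e (nat_lit 393274) (nat_lit 23) (.e (nat_lit 426410) (nat_lit 15) .nil)))))) (.g (nat_lit 1) (.e (nat_lit 105110) (nat_lit 0) .nil) .nil)))) (.nd (nat_lit 9) 
(.lf (nat_lit 478657) (.g (nat_lit 2999) (.e (nat_lit 2059) (nat_lit 142) (.e (nat_lit 704589) (nat_lit 3) (.e (nat_lit 163976) (nat_lit 30) (.e (nat_lit 573492) (nat_lit 15) (.e (nat_lit 81956) (nat_lit 23) (.e (nat_lit 106240) (nat_lit 26) (.e (nat_lit 426391) (nat_lit 15) .nil))))))) (.g (nat_lit 1) (.e (nat_lit 104567) (nat_lit 0) .nil) .nil))) 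
(.lf (nat_lit 479169) (.g (nat_lit 1521) (.e (nat_lit 5223) (nat_lit 296) (.e (nat_lit 163868) (nat_lit 2) (.e (nat_lit 196655) (nat_lit 11) (.e (nat_lit 16465) (nat_lit 13) (.e (nat_lit 483339) (nat_lit 9) .nil))))) (.g (nat_lit 0) (.e (nat_lit 107193) (nat_lit 0) .nil) .nil))))))) (.nd (nat_lit 6) (.nd (nat_lit 7) (.nd (nat_lit 8) (.nd (nat_lit 9) 
(.lf (nat_lit 478241) (.g (nat_lit 3605) (.e (nat_lit 2057) (nat_lit 142) (.e (nat_lit 704589) (nat_lit 3) (.e (nat_lit 163976) (nat_lit 30) (.e (nat_lit 573492) (nat_lit 15) (.e (nat_lit 81956) (nat_lit 23) (.e (nat_lit 98359) (nat_lit 26) (.e (nat_lit 426412) (nat_lit 15) .nil))))))) (.g (nat_lit 1) (.e (nat_lit 104039) (nat_lit 0) .nil) .nil))) 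
(.lf (nat_lit 478753) (.g (nat_lit 4196) (.e (nat_lit 2059) (nat_lit 142) (.e (nat_lit 704589) (nat_lit 3) (.e (nat_lit 163979) (nat_lit 30) (.e (nat_lit 573492) (nat_lit 15) (.e (nat_lit 81956) (nat_lit 23) (.e (nat_lit 98355) (nat_lit 26) (.e (nat_lit 426375) (nat_lit 15) .nil))))))) (.g (nat_lit 1) (.e (nat_lit 104669) (nat_lit 0) .nil) .nil)))) (.nd (nat_lit 9) 
(.lf (nat_lit 478497) (.g (nat_lit 2746) (.e (nat_lit 2058) (nat_lit 142) (.e (nat_lit 704592) (nat_lit 4) (.e (nat_lit 172120) (nat_lit 12) (.e (nat_lit 475198) (nat_lit 40) (.e (nat_lit 704599) (nat_lit 6) (.e (nat_lit 188418) (nat_lit 0) .nil)))))) (.g (nat_lit 1) (.e (nat_lit 104350) (nat_lit 0) .nil) .nil))) 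
(.lf (nat_lit 479009) (.g (nat_lit 640) (.e (nat_lit 3978) (nat_lit 239) (.e (nat_lit 2638) (nat_lit 165) (.e (nat_lit 180277) (nat_lit 32) .nil))) (.g (nat_lit 0) (.e (nat_lit 105442) (nat_lit 0) .nil) .nil))))) (.nd (nat_lit 8) (.nd (nat_lit 9) 
(.lf (nat_lit 478369) (.g (nat_lit 3845) (.e (nat_lit 2058) (nat_lit 142) (.e (nat_lit 704589) (nat_lit 3) (.e (nat_lit 163976) (nat_lit 30) (.e (nat_lit 573492) (nat_lit 15) (.e (nat_lit 81953) (nat_lit 22) (.e (nat_lit 90170) (nat_lit 13) (.e (nat_lit 172136) (nat_lit 15) .nil))))))) (.g (nat_lit 1) (.e (nat_lit 104204) (nat_lit 0) .nil) .nil))) 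
(.lf (nat_lit 478881) (.g (nat_lit 2122) (.e (nat_lit 2174) (nat_lit 143) (.e (nat_lit 712745) (nat_lit 27) (.e (nat_lit 426347) (nat_lit 14) (.e (nat_lit 491569) (nat_lit 13) (.e (nat_lit 393279) (nat_lit 23) (.e (nat_lit 426419) (nat_lit 15) .nil)))))) (.g (nat_lit 1) (.e (nat_lit 105078) (nat_lit 0) .nil) .nil)))) (.nd (nat_lit 9) 
(.lf (nat_lit 478625) (.g (nat_lit 3864) (.e (nat_lit 2059) (nat_lit 142) (.e (nat_lit 704589) (nat_lit 3) (.e (nat_lit 163976) (nat_lit 30) (.e (nat_lit 573491) (nat_lit 15) (.e (nat_lit 81954) (nat_lit 23) (.e (nat_lit 98356) (nat_lit 26) (.e (nat_lit 426375) (nat_lit 15) .nil))))))) (.g (nat_lit 1) (.e (nat_lit 104529) (nat_lit 0) .nil) .nil))) 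
(.lf (nat_lit 479137) (.g (nat_lit 1986) (.e (nat_lit 5122) (nat_lit 292) (.e (nat_lit 2649) (nat_lit 166) (.e (nat_lit 188434) (nat_lit 20) (.e (nat_lit 3390) (nat_lit 210) (.e (nat_lit 639007) (nat_lit 13) (.e (nat_lit 1598) (nat_lit 111) (.e (nat_lit 368384) (nat_lit 0) .nil))))))) (.g (nat_lit 1) (.e (nat_lit 106864) (nat_lit 0) .nil) .nil)))))) 
(.nd (nat_lit 7) (.nd (nat_lit 8) (.nd (nat_lit 9) 
(.lf (nat_lit 478305) (.g (nat_lit 2360) (.e (nat_lit 2058) (nat_lit 142) (.e (nat_lit 704589) (nat_lit 3) (.e (nat_lit 163975) (nat_lit 30) (.e (nat_lit 573491) (nat_lit 15) (.e (nat_lit 81954) (nat_lit 23) (.e (nat_lit 98355) (nat_lit 26) (.e (nat_lit 426393) (nat_lit 15) .nil))))))) (.g (nat_lit 1) (.e (nat_lit 104132) (nat_lit 0) .nil) .nil))) 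
(.lf (nat_lit 478817) (.g (nat_lit 2188) (.e (nat_lit 2077) (nat_lit 142) (.e (nat_lit 704734) (nat_lit 11) (.e (nat_lit 16416) (nat_lit 3) (.e (nat_lit 204861) (nat_lit 26) (.e (nat_lit 336076) (nat_lit 9) .nil))))) (.g (nat_lit 0) (.e (nat_lit 104801) (nat_lit 0) .nil) .nil)))) (.nd (nat_lit 9) 
(.lf (nat_lit 478561) (.g (nat_lit 4066) (.e (nat_lit 2059) (nat_lit 142) (.e (nat_lit 704589) (nat_lit 3) (.e (nat_lit 163975) (nat_lit 30) (.e (nat_lit 573491) (nat_lit 15) (.e (nat_lit 81954) (nat_lit 23) (.e (nat_lit 98359) (nat_lit 26) (.e (nat_lit 426410) (nat_lit 15) .nil))))))) (.g (nat_lit 1) (.e (nat_lit 104448) (nat_lit 0) .nil) .nil))) 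
(.lf (nat_lit 479073) (.g (nat_lit 1929) (.e (nat_lit 4539) (nat_lit 267) (.e (nat_lit 163871) (nat_lit 2) (.e (nat_lit 196656) (nat_lit 11) (.e (nat_lit 16392) (nat_lit 0) .nil)))) (.g (nat_lit 0) (.e (nat_lit 106154) (nat_lit 0) .nil) .nil))))) (.nd (nat_lit 8) (.nd (nat_lit 9) 
(.lf (nat_lit 478433) (.g (nat_lit 2926) (.e (nat_lit 2058) (nat_lit 142) (.e (nat_lit 704589) (nat_lit 3) (.e (nat_lit 163979) (nat_lit 30) (.e (nat_lit 573482) (nat_lit 13) (.e (nat_lit 65619) (nat_lit 10) (.e (nat_lit 344117) (nat_lit 21) (.e (nat_lit 516147) (nat_lit 9) (.e (nat_lit 426379) (nat_lit 15) .nil)))))))) (.g (nat_lit 1) (.e (nat_lit 104273) (nat_lit 0) .nil) .nil))) 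
(.lf (nat_lit 478945) (.g (nat_lit 547) (.e (nat_lit 2175) (nat_lit 143) (.e (nat_lit 712745) (nat_lit 27) (.e (nat_lit 425987) (nat_lit 0) (.e (nat_lit 7586) (nat_lit 406) .nil)))) (.g (nat_lit 0) (.e (nat_lit 105149) (nat_lit 0) .nil) .nil)))) (.nd (nat_lit 9) 
(.lf (nat_lit 478689) (.g (nat_lit 3844) (.e (nat_lit 2059) (nat_lit 142) (.e (nat_lit 704589) (nat_lit 3) (.e (nat_lit 163978) (nat_lit 30) (.e (nat_lit 573485) (nat_lit 13) (.e (nat_lit 65619) (nat_lit 10) (.e (nat_lit 344117) (nat_lit 21) (.e (nat_lit 516152) (nat_lit 9) (.e (nat_lit 426410) (nat_lit 15) .nil)))))))) (.g (nat_lit 1) (.e (nat_lit 104604) (nat_lit 0) .nil) .nil))) 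
(.lf (nat_lit 479201) (.g (nat_lit 1852) (.e (nat_lit 5223) (nat_lit 296) (.e (nat_lit 163903) (nat_lit 12) (.e (nat_lit 426566) (nat_lit 34) (.e (nat_lit 393268) (nat_lit 23) .nil)))) (.g (nat_lit 0) (.e (nat_lit 107293) (nat_lit 0) .nil) .nil)))))))) (.nd (nat_lit 5) (.nd (nat_lit 6) (.nd (nat_lit 7) (.nd (nat_lit 8) (.nd (nat_lit 9) 
(.lf (nat_lit 478225) (.g (nat_lit 2141) (.e (nat_lit 2057) (nat_lit 142) (.e (nat_lit 704589) (nat_lit 3) (.e (nat_lit 163975) (nat_lit 30) (.e (nat_lit 573491) (nat_lit 15) (.e (nat_lit 81954) (nat_lit 23) (.e (nat_lit 98355) (nat_lit 26) (.e (nat_lit 426375) (nat_lit 15) .nil))))))) (.g (nat_lit 1) (.e (nat_lit 104022) (nat_lit 0) .nil) .nil))) 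
(.lf (nat_lit 478737) (.g (nat_lit 4554) (.e (nat_lit 2059) (nat_lit 142) (.e (nat_lit 704589) (nat_lit 3) (.e (nat_lit 163979) (nat_lit 30) (.e (nat_lit 573491) (nat_lit 15) (.e (nat_lit 81954) (nat_lit 23) (.e (nat_lit 98356) (nat_lit 26) (.e (nat_lit 426375) (nat_lit 15) .nil))))))) (.g (nat_lit 1) (.e (nat_lit 104652) (nat_lit 0) .nil) .nil)))) (.nd (nat_lit 9) 
(.lf (nat_lit 478481) (.g (nat_lit 4546) (.e (nat_lit 2058) (nat_lit 142) (.e (nat_lit 704589) (nat_lit 3) (.e (nat_lit 163979) (nat_lit 30) (.e (nat_lit 573493) (nat_lit 15) (.e (nat_lit 81956) (nat_lit 23) (.e (nat_lit 98356) (nat_lit 26) (.e (nat_lit 426379) (nat_lit 15) .nil))))))) (.g (nat_lit 1) (.e (nat_lit 104323) (nat_lit 0) .nil) .nil))) 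
(.lf (nat_lit 478993) (.g (nat_lit 1653) (.e (nat_lit 2198) (nat_lit 144) (.e (nat_lit 720941) (nat_lit 22) (.e (nat_lit 90174) (nat_lit 14) (.e (nat_lit 180243) (nat_lit 5) (.e (nat_lit 532503) (nat_lit 1) .nil))))) (.g (nat_lit 0) (.e (nat_lit 105238) (nat_lit 0) .nil) .nil))))) (.nd (nat_lit 8) (.nd (nat_lit 9) 
(.lf (nat_lit 478353) (.g (nat_lit 2289) (.e (nat_lit 2058) (nat_lit 142) (.e (nat_lit 704589) (nat_lit 3) (.e (nat_lit 163976) (nat_lit 30) (.e (nat_lit 573491) (nat_lit 15) (.e (nat_lit 81954) (nat_lit 23) (.e (nat_lit 98355) (nat_lit 26) (.e (nat_lit 426375) (nat_lit 15) .nil))))))) (.g (nat_lit 1) (.e (nat_lit 104188) (nat_lit 0) .nil) .nil))) 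
(.lf (nat_lit 478865) (.g (nat_lit 3190) (.e (nat_lit 7936) (nat_lit 142) (.e (nat_lit 704589) (nat_lit 3) (.e (nat_lit 163978) (nat_lit 30) (.e (nat_lit 573479) (nat_lit 13) (.e (nat_lit 65619) (nat_lit 10) .nil))))) (.g (nat_lit 0) (.e (nat_lit 105027) (nat_lit 0) .nil) .nil)))) (.nd (nat_lit 9) 
(.lf (nat_lit 478609) (.g (nat_lit 3959) (.e (nat_lit 2059) (nat_lit 142) (.e (nat_lit 704589) (nat_lit 3) (.e (nat_lit 163976) (nat_lit 30) (.e (nat_lit 573481) (nat_lit 13) (.e (nat_lit 65619) (nat_lit 10) (.e (nat_lit 344117) (nat_lit 21) (.e (nat_lit 516145) (nat_lit 9) (.e (nat_lit 426416) (nat_lit 15) .nil)))))))) (.g (nat_lit 1) (.e (nat_lit 104513) (nat_lit 0) .nil) .nil))) 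
(.lf (nat_lit 479121) (.g (nat_lit 2586) (.e (nat_lit 4931) (nat_lit 287) (.e (nat_lit 2797) (nat_lit 180) (.e (nat_lit 303145) (nat_lit 13) (.e (nat_lit 483405) (nat_lit 26) (.e (nat_lit 385099) (nat_lit 49) .nil))))) (.g (nat_lit 0) (.e (nat_lit 106574) (nat_lit 0) .nil) .nil)))))) (.nd (nat_lit 7) (.nd (nat_lit 8) (.nd (nat_lit 9) 
(.lf (nat_lit 478289) (.g (nat_lit 3790) (.e (nat_lit 2058) (nat_lit 142) (.e (nat_lit 704589) (nat_lit 3) (.e (nat_lit 163975) (nat_lit 30) (.e (nat_lit 573481) (nat_lit 13) (.e (nat_lit 65604) (nat_lit 9) (.e (nat_lit 336028) (nat_lit 3) (.e (nat_lit 98359) (nat_lit 26) (.e (nat_lit 426410) (nat_lit 15) .nil)))))))) (.g (nat_lit 1) (.e (nat_lit 104116) (nat_lit 0) .nil) .nil))) 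
(.lf (nat_lit 478801) (.g (nat_lit 2121) (.e (nat_lit 2059) (nat_lit 142) (.e (nat_lit 704598) (nat_lit 6) (.e (nat_lit 188454) (nat_lit 24) (.e (nat_lit 229665) (nat_lit 240) (.e (nat_lit 2651) (nat_lit 166) (.e (nat_lit 188420) (nat_lit 0) .nil)))))) (.g (nat_lit 1) (.e (nat_lit 104779) (nat_lit 0) .nil) .nil)))) (.nd (nat_lit 9) 
(.lf (nat_lit 478545) (.g (nat_lit 2682) (.e (nat_lit 2059) (nat_lit 142) (.e (nat_lit 704589) (nat_lit 3) (.e (nat_lit 163975) (nat_lit 30) (.e (nat_lit 573482) (nat_lit 13) (.e (nat_lit 65604) (nat_lit 9) .nil))))) (.g (nat_lit 0) (.e (nat_lit 104432) (nat_lit 0) .nil) .nil))) 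
(.lf (nat_lit 479057) (.g (nat_lit 4104) (.e (nat_lit 4507) (nat_lit 263) (.e (nat_lit 2619) (nat_lit 164) (.e (nat_lit 172062) (nat_lit 2) (.e (nat_lit 196666) (nat_lit 13) (.e (nat_lit 65610) (nat_lit 10) (.e (nat_lit 344117) (nat_lit 21) (.e (nat_lit 516098) (nat_lit 0) (.e (nat_lit 2401) (nat_lit 157) .nil)))))))) (.g (nat_lit 1) (.e (nat_lit 106081) (nat_lit 0) .nil) .nil))))) 
(.nd (nat_lit 8) (.nd (nat_lit 9) 
(.lf (nat_lit 478417) (.g (nat_lit 2669) (.e (nat_lit 2058) (nat_lit 142) (.e (nat_lit 704589) (nat_lit 3) (.e (nat_lit 163979) (nat_lit 30) (.e (nat_lit 573481) (nat_lit 13) (.e (nat_lit 65609) (nat_lit 10) .nil))))) (.g (nat_lit 0) (.e (nat_lit 104257) (nat_lit 0) .nil) .nil))) 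
(.lf (nat_lit 478929) (.g (nat_lit 2836) (.e (nat_lit 2174) (nat_lit 143) (.e (nat_lit 712752) (nat_lit 29) (.e (nat_lit 442421) (nat_lit 21) (.e (nat_lit 164348) (nat_lit 240) (.e (nat_lit 2648) (nat_lit 166) (.e (nat_lit 188418) (nat_lit 0) .nil)))))) (.g (nat_lit 1) (.e (nat_lit 105129) (nat_lit 0) .nil) .nil)))) (.nd (nat_lit 9) 
(.lf (nat_lit 478673) (.g (nat_lit 3255) (.e (nat_lit 2059) (nat_lit 142) (.e (nat_lit 704589) (nat_lit 3) (.e (nat_lit 163978) (nat_lit 30) (.e (nat_lit 573485) (nat_lit 13) (.e (nat_lit 65604) (nat_lit 9) (.e (nat_lit 336028) (nat_lit 3) (.e (nat_lit 106240) (nat_lit 26) (.e (nat_lit 426391) (nat_lit 15) .nil)))))))) (.g (nat_lit 1) (.e (nat_lit 104587) (nat_lit 0) .nil) .nil))) 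
(.lf (nat_lit 479185) (.g (nat_lit 2212) (.e (nat_lit 5223) (nat_lit 296) (.e (nat_lit 163871) (nat_lit 2) (.e (nat_lit 196656) (nat_lit 11) (.e (nat_lit 16465) (nat_lit 13) (.e (nat_lit 483339) (nat_lit 9) .nil))))) (.g (nat_lit 0) (.e (nat_lit 107261) (nat_lit 0) .nil) .nil))))))) (.nd (nat_lit 6) (.nd (nat_lit 7) (.nd (nat_lit 8) (.nd (nat_lit 9) 
(.lf (nat_lit 478257) (.g (nat_lit 4380) (.e (nat_lit 2057) (nat_lit 142) (.e (nat_lit 704589) (nat_lit 3) (.e (nat_lit 163979) (nat_lit 30) (.e (nat_lit 573493) (nat_lit 15) (.e (nat_lit 81956) (nat_lit 23) (.e (nat_lit 98359) (nat_lit 26) (.e (nat_lit 426412) (nat_lit 15) .nil))))))) (.g (nat_lit 1) (.e (nat_lit 104055) (nat_lit 0) .nil) .nil))) 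
(.lf (nat_lit 478769) (.g (nat_lit 4653) (.e (nat_lit 2059) (nat_lit 142) (.e (nat_lit 704589) (nat_lit 3) (.e (nat_lit 163979) (nat_lit 30) (.e (nat_lit 573493) (nat_lit 15) (.e (nat_lit 81956) (nat_lit 23) (.e (nat_lit 98355) (nat_lit 26) (.e (nat_lit 426375) (nat_lit 15) .nil))))))) (.g (nat_lit 1) (.e (nat_lit 104700) (nat_lit 0) .nil) .nil)))) (.nd (nat_lit 9) 
(.lf (nat_lit 478513) (.g (nat_lit 1925) (.e (nat_lit 2058) (nat_lit 142) (.e (nat_lit 704598) (nat_lit 6) (.e (nat_lit 188453) (nat_lit 24) (.e (nat_lit 229680) (nat_lit 244) (.e (nat_lit 163931) (nat_lit 17) (.e (nat_lit 466947) (nat_lit 0) .nil)))))) (.g (nat_lit 1) (.e (nat_lit 104400) (nat_lit 0) .nil) .nil))) 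
(.lf (nat_lit 479025) (.g (nat_lit 1972) (.e (nat_lit 3969) (nat_lit 239) (.e (nat_lit 2625) (nat_lit 164) (.e (nat_lit 172120) (nat_lit 12) (.e (nat_lit 475185) (nat_lit 29) (.e (nat_lit 557100) (nat_lit 13) .nil))))) (.g (nat_lit 0) (.e (nat_lit 105550) (nat_lit 0) .nil) .nil))))) (.nd (nat_lit 8) (.nd (nat_lit 9) 
(.lf (nat_lit 478385) (.g (nat_lit 3955) (.e (nat_lit 2058) (nat_lit 142) (.e (nat_lit 704589) (nat_lit 3) (.e (nat_lit 163976) (nat_lit 30) (.e (nat_lit 573492) (nat_lit 15) (.e (nat_lit 81956) (nat_lit 23) (.e (nat_lit 98359) (nat_lit 26) (.e (nat_lit 426414) (nat_lit 15) .nil))))))) (.g (nat_lit 1) (.e (nat_lit 104222) (nat_lit 0) .nil) .nil))) 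
(.lf (nat_lit 478897) (.g (nat_lit 2322) (.e (nat_lit 2174) (nat_lit 143) (.e (nat_lit 712745) (nat_lit 27) (.e (nat_lit 426347) (nat_lit 14) (.e (nat_lit 491571) (nat_lit 13) (.e (nat_lit 393267) (nat_lit 23) (.e (nat_lit 426374) (nat_lit 15) .nil)))))) (.g (nat_lit 1) (.e (nat_lit 105094) (nat_lit 0) .nil) .nil)))) (.nd (nat_lit 9) 
(.lf (nat_lit 478641) (.g (nat_lit 4427) (.e (nat_lit 2059) (nat_lit 142) (.e (nat_lit 704589) (nat_lit 3) (.e (nat_lit 163976) (nat_lit 30) (.e (nat_lit 573492) (nat_lit 15) (.e (nat_lit 81953) (nat_lit 22) (.e (nat_lit 90166) (nat_lit 13) (.e (nat_lit 172138) (nat_lit 15) .nil))))))) (.g (nat_lit 1) (.e (nat_lit 104545) (nat_lit 0) .nil) .nil))) 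
(.lf (nat_lit 479153) (.g (nat_lit 609) (.e (nat_lit 5222) (nat_lit 296) (.e (nat_lit 163868) (nat_lit 2) (.e (nat_lit 196656) (nat_lit 11) .nil))) (.g (nat_lit 0) (.e (nat_lit 107033) (nat_lit 0) .nil) .nil)))))) (.nd (nat_lit 7) (.nd (nat_lit 8) (.nd (nat_lit 9) 
(.lf (nat_lit 478321) (.g (nat_lit 4018) (.e (nat_lit 2058) (nat_lit 142) (.e (nat_lit 704589) (nat_lit 3) (.e (nat_lit 163975) (nat_lit 30) (.e (nat_lit 573492) (nat_lit 15) (.e (nat_lit 81956) (nat_lit 23) (.e (nat_lit 98355) (nat_lit 26) (.e (nat_lit 426376) (nat_lit 15) .nil))))))) (.g (nat_lit 1) (.e (nat_lit 104153) (nat_lit 0) .nil) .nil))) 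
(.lf (nat_lit 478833) (.g (nat_lit 498) (.e (nat_lit 2146) (nat_lit 142) (.e (nat_lit 704597) (nat_lit 6) (.e (nat_lit 188416) (nat_lit 0) (.e (nat_lit 2147) (nat_lit 142) (.e (nat_lit 704597) (nat_lit 6) (.e (nat_lit 188417) (nat_lit 0) .nil)))))) (.g (nat_lit 1) (.e (nat_lit 104940) (nat_lit 0) .nil) .nil)))) (.nd (nat_lit 9) 
(.lf (nat_lit 478577) (.g (nat_lit 2607) (.e (nat_lit 2059) (nat_lit 142) (.e (nat_lit 704589) (nat_lit 3) (.e (nat_lit 163975) (nat_lit 30) (.e (nat_lit 573492) (nat_lit 15) (.e (nat_lit 81954) (nat_lit 23) (.e (nat_lit 98359) (nat_lit 26) (.e (nat_lit 426396) (nat_lit 15) .nil))))))) (.g (nat_lit 1) (.e (nat_lit 104476) (nat_lit 0) .nil) .nil))) 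
(.lf (nat_lit 479089) (.g (nat_lit 1702) (.e (nat_lit 4764) (nat_lit 281) (.e (nat_lit 2557) (nat_lit 159) (.e (nat_lit 24651) (nat_lit 12) (.e (nat_lit 385106) (nat_lit 50) (.e (nat_lit 786483) (nat_lit 30) .nil))))) (.g (nat_lit 0) (.e (nat_lit 106417) (nat_lit 0) .nil) .nil))))) (.nd (nat_lit 8) (.nd (nat_lit 9) 
(.lf (nat_lit 478449) (.g (nat_lit 4282) (.e (nat_lit 2058) (nat_lit 142) (.e (nat_lit 704589) (nat_lit 3) (.e (nat_lit 163979) (nat_lit 30) (.e (nat_lit 573491) (nat_lit 15) (.e (nat_lit 81954) (nat_lit 23) (.e (nat_lit 98356) (nat_lit 26) (.e (nat_lit 426393) (nat_lit 15) .nil))))))) (.g (nat_lit 1) (.e (nat_lit 104289) (nat_lit 0) .nil) .nil))) 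
(.lf (nat_lit 478961) (.g (nat_lit 2334) (.e (nat_lit 2175) (nat_lit 143) (.e (nat_lit 712745) (nat_lit 27) (.e (nat_lit 426347) (nat_lit 14) (.e (nat_lit 491571) (nat_lit 13) (.e (nat_lit 393275) (nat_lit 23) (.e (nat_lit 426414) (nat_lit 15) .nil)))))) (.g (nat_lit 1) (.e (nat_lit 105166) (nat_lit 0) .nil) .nil)))) (.nd (nat_lit 9) 
(.lf (nat_lit 478705) (.g (nat_lit 2327) (.e (nat_lit 2059) (nat_lit 142) (.e (nat_lit 704589) (nat_lit 3) (.e (nat_lit 163979) (nat_lit 30) (.e (nat_lit 573482) (nat_lit 13) (.e (nat_lit 65604) (nat_lit 9) (.e (nat_lit 336028) (nat_lit 3) (.e (nat_lit 106240) (nat_lit 26) (.e (nat_lit 426419) (nat_lit 15) .nil)))))))) (.g (nat_lit 1) (.e (nat_lit 104620) (nat_lit 0) .nil) .nil))) 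
(.lf (nat_lit 479217) (.g (nat_lit 1766) (.e (nat_lit 5224) (nat_lit 296) (.e (nat_lit 163871) (nat_lit 2) (.e (nat_lit 196653) (nat_lit 11) (.e (nat_lit 16465) (nat_lit 13) (.e (nat_lit 491264) (nat_lit 10) (.e (nat_lit 434213) (nat_lit 18) .nil)))))) (.g (nat_lit 1) (.e (nat_lit 107445) (nat_lit 0) .nil) .nil))))))))) 
(.nd (nat_lit 4) (.nd (nat_lit 5) (.nd (nat_lit 6) (.nd (nat_lit 7) (.nd (nat_lit 8) 
(.nd (nat_lit 9) 
(.lf (nat_lit 478217) (.g (nat_lit 2824) (.e (nat_lit 2056) (nat_lit 142) (.e (nat_lit 704598) (nat_lit 6) (.e (nat_lit 188453) (nat_lit 24) (.e (nat_lit 229665) (nat_lit 240) (.e (nat_lit 2651) (nat_lit 166) (.e (nat_lit 188420) (nat_lit 0) .nil)))))) (.g (nat_lit 1) (.e (nat_lit 104014) (nat_lit 0) .nil) .nil))) 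
(.lf (nat_lit 478729) (.g (nat_lit 2835) (.e (nat_lit 2059) (nat_lit 142) (.e (nat_lit 704589) (nat_lit 3) (.e (nat_lit 163979) (nat_lit 30) (.e (nat_lit 573491) (nat_lit 15) (.e (nat_lit 81954) (nat_lit 23) (.e (nat_lit 98355) (nat_lit 26) (.e (nat_lit 426374) (nat_lit 15) .nil))))))) (.g (nat_lit 1) (.e (nat_lit 104644) (nat_lit 0) .nil) .nil)))) (.nd (nat_lit 9) 
(.lf (nat_lit 478473) (.g (nat_lit 4082) (.e (nat_lit 2058) (nat_lit 142) (.e (nat_lit 704589) (nat_lit 3) (.e (nat_lit 163979) (nat_lit 30) (.e (nat_lit 573493) (nat_lit 15) (.e (nat_lit 81956) (nat_lit 23) (.e (nat_lit 98355) (nat_lit 26) (.e (nat_lit 426375) (nat_lit 15) .nil))))))) (.g (nat_lit 1) (.e (nat_lit 104315) (nat_lit 0) .nil) .nil))) 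
(.lf (nat_lit 478985) (.g (nat_lit 2933) (.e (nat_lit 2175) (nat_lit 143) (.e (nat_lit 712755) (nat_lit 30) (.e (nat_lit 450565) (nat_lit 0) (.e (nat_lit 5548) (nat_lit 306) (.e (nat_lit 2648) (nat_lit 166) (.e (nat_lit 188418) (nat_lit 0) .nil)))))) (.g (nat_lit 1) (.e (nat_lit 105191) (nat_lit 0) .nil) .nil))))) (.nd (nat_lit 8) (.nd (nat_lit 9) 
(.lf (nat_lit 478345) (.g (nat_lit 4283) (.e (nat_lit 2058) (nat_lit 142) (.e (nat_lit 704589) (nat_lit 3) (.e (nat_lit 163976) (nat_lit 30) (.e (nat_lit 573481) (nat_lit 13) (.e (nat_lit 65619) (nat_lit 10) (.e (nat_lit 344117) (nat_lit 21) (.e (nat_lit 516145) (nat_lit 9) (.e (nat_lit 426416) (nat_lit 15) .nil)))))))) (.g (nat_lit 1) (.e (nat_lit 104180) (nat_lit 0) .nil) .nil))) 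
(.lf (nat_lit 478857) (.g (nat_lit 2619) (.e (nat_lit 2148) (nat_lit 142) (.e (nat_lit 704597) (nat_lit 6) (.e (nat_lit 188453) (nat_lit 24) (.e (nat_lit 229678) (nat_lit 244) (.e (nat_lit 163919) (nat_lit 14) (.e (nat_lit 442371) (nat_lit 0) .nil)))))) (.g (nat_lit 1) (.e (nat_lit 105000) (nat_lit 0) .nil) .nil)))) (.nd (nat_lit 9) 
(.lf (nat_lit 478601) (.g (nat_lit 4854) (.e (nat_lit 2059) (nat_lit 142) (.e (nat_lit 704589) (nat_lit 3) (.e (nat_lit 163976) (nat_lit 30) (.e (nat_lit 573480) (nat_lit 13) (.e (nat_lit 65610) (nat_lit 10) (.e (nat_lit 344117) (nat_lit 21) (.e (nat_lit 516151) (nat_lit 9) (.e (nat_lit 426412) (nat_lit 15) .nil)))))))) (.g (nat_lit 1) (.e (nat_lit 104504) (nat_lit 0) .nil) .nil))) 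
(.lf (nat_lit 479113) (.g (nat_lit 574) (.e (nat_lit 4929) (nat_lit 287) (.e (nat_lit 2797) (nat_lit 180) (.e (nat_lit 303145) (nat_lit 13) .nil))) (.g (nat_lit 0) (.e (nat_lit 106559) (nat_lit 0) .nil) .nil)))))) (.nd (nat_lit 7) (.nd (nat_lit 8) (.nd (nat_lit 9) 
(.lf (nat_lit 478281) (.g (nat_lit 2051) (.e (nat_lit 2057) (nat_lit 142) (.e (nat_lit 704598) (nat_lit 6) (.e (nat_lit 188455) (nat_lit 24) (.e (nat_lit 229666) (nat_lit 240) (.e (nat_lit 2651) (nat_lit 166) (.e (nat_lit 188420) (nat_lit 0) .nil)))))) (.g (nat_lit 1) (.e (nat_lit 104105) (nat_lit 0) .nil) .nil))) 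
(.lf (nat_lit 478793) (.g (nat_lit 569) (.e (nat_lit 2059) (nat_lit 142) (.e (nat_lit 704598) (nat_lit 6) (.e (nat_lit 188418) (nat_lit 0) (.e (nat_lit 2057) (nat_lit 142) .nil)))) (.g (nat_lit 0) (.e (nat_lit 104771) (nat_lit 0) .nil) .nil)))) (.nd (nat_lit 9) 
(.lf (nat_lit 478537) (.g (nat_lit 3639) (.e (nat_lit 2059) (nat_lit 142) (.e (nat_lit 704589) (nat_lit 3) (.e (nat_lit 163975) (nat_lit 30) (.e (nat_lit 573481) (nat_lit 13) (.e (nat_lit 65619) (nat_lit 10) (.e (nat_lit 344117) (nat_lit 21) (.e (nat_lit 516147) (nat_lit 9) (.e (nat_lit 426375) (nat_lit 15) .nil)))))))) (.g (nat_lit 1) (.e (nat_lit 104424) (nat_lit 0) .nil) .nil))) 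
(.lf (nat_lit 479049) (.g (nat_lit 3389) (.e (nat_lit 4413) (nat_lit 259) (.e (nat_lit 57373) (nat_lit 2) (.e (nat_lit 90170) (nat_lit 13) (.e (nat_lit 172113) (nat_lit 10) (.e (nat_lit 434245) (nat_lit 28) .nil))))) (.g (nat_lit 0) (.e (nat_lit 106004) (nat_lit 0) .nil) .nil))))) (.nd (nat_lit 8) (.nd (nat_lit 9) 
(.lf (nat_lit 478409) (.g (nat_lit 3559) (.e (nat_lit 2058) (nat_lit 142) (.e (nat_lit 704589) (nat_lit 3) (.e (nat_lit 163978) (nat_lit 30) (.e (nat_lit 573485) (nat_lit 13) (.e (nat_lit 65619) (nat_lit 10) (.e (nat_lit 344117) (nat_lit 21) (.e (nat_lit 516147) (nat_lit 9) (.e (nat_lit 426375) (nat_lit 15) .nil)))))))) (.g (nat_lit 1) (.e (nat_lit 104249) (nat_lit 0) .nil) .nil))) 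
(.lf (nat_lit 478921) (.g (nat_lit 2969) (.e (nat_lit 2174) (nat_lit 143) (.e (nat_lit 712745) (nat_lit 27) (.e (nat_lit 426347) (nat_lit 14) (.e (nat_lit 491571) (nat_lit 13) (.e (nat_lit 393281) (nat_lit 23) (.e (nat_lit 426387) (nat_lit 15) .nil)))))) (.g (nat_lit 1) (.e (nat_lit 105118) (nat_lit 0) .nil) .nil)))) (.nd (nat_lit 9) 
(.lf (nat_lit 478665) (.g (nat_lit 3918) (.e (nat_lit 2059) (nat_lit 142) (.e (nat_lit 704589) (nat_lit 3) (.e (nat_lit 163978) (nat_lit 30) (.e (nat_lit 573479) (nat_lit 13) (.e (nat_lit 65619) (nat_lit 10) (.e (nat_lit 344117) (nat_lit 21) (.e (nat_lit 516151) (nat_lit 9) (.e (nat_lit 426396) (nat_lit 15) .nil)))))))) (.g (nat_lit 1) (.e (nat_lit 104579) (nat_lit 0) .nil) .nil))) 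
(.lf (nat_lit 479177) (.g (nat_lit 1455) (.e (nat_lit 5223) (nat_lit 296) (.e (nat_lit 163871) (nat_lit 2) (.e (nat_lit 196655) (nat_lit 11) (.e (nat_lit 16465) (nat_lit 13) (.e (nat_lit 491264) (nat_lit 10) (.e (nat_lit 434199) (nat_lit 18) .nil)))))) (.g (nat_lit 1) (.e (nat_lit 107235) (nat_lit 0) .nil) .nil))))))) (.nd (nat_lit 6) (.nd (nat_lit 7) (.nd (nat_lit 8) (.nd (nat_lit 9) 
(.lf (nat_lit 478249) (.g (nat_lit 4965) (.e (nat_lit 2057) (nat_lit 142) (.e (nat_lit 704589) (nat_lit 3) (.e (nat_lit 163979) (nat_lit 30) (.e (nat_lit 573482) (nat_lit 13) (.e (nat_lit 65619) (nat_lit 10) (.e (nat_lit 344117) (nat_lit 21) (.e (nat_lit 516151) (nat_lit 9) (.e (nat_lit 426412) (nat_lit 15) .nil)))))))) (.g (nat_lit 1) (.e (nat_lit 104047) (nat_lit 0) .nil) .nil))) 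
(.lf (nat_lit 478761) (.g (nat_lit 5903) (.e (nat_lit 2059) (nat_lit 142) (.e (nat_lit 704589) (nat_lit 3) (.e (nat_lit 163979) (nat_lit 30) (.e (nat_lit 573493) (nat_lit 15) (.e (nat_lit 81951) (nat_lit 22) (.e (nat_lit 90168) (nat_lit 13) (.e (nat_lit 172133) (nat_lit 15) .nil))))))) (.g (nat_lit 1) (.e (nat_lit 104687) (nat_lit 0) .nil) .nil)))) (.nd (nat_lit 9) 
(.lf (nat_lit 478505) (.g (nat_lit 1985) (.e (nat_lit 2058) (nat_lit 142) (.e (nat_lit 704595) (nat_lit 5) (.e (nat_lit 180278) (nat_lit 32) (.e (nat_lit 1425) (nat_lit 108) (.e (nat_lit 336430) (nat_lit 29) (.e (nat_lit 442377) (nat_lit 0) .nil)))))) (.g (nat_lit 1) (.e (nat_lit 104390) (nat_lit 0) .nil) .nil))) 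
(.lf (nat_lit 479017) (.g (nat_lit 4242) (.e (nat_lit 3991) (nat_lit 239) (.e (nat_lit 2638) (nat_lit 165) (.e (nat_lit 180278) (nat_lit 32) (.e (nat_lit 1253) (nat_lit 92) (.e (nat_lit 98373) (nat_lit 29) (.e (nat_lit 450560) (nat_lit 0) .nil)))))) (.g (nat_lit 1) (.e (nat_lit 105513) (nat_lit 0) .nil) .nil))))) (.nd (nat_lit 8) (.nd (nat_lit 9) 
(.lf (nat_lit 478377) (.g (nat_lit 4601) (.e (nat_lit 2058) (nat_lit 142) (.e (nat_lit 704589) (nat_lit 3) (.e (nat_lit 163976) (nat_lit 30) (.e (nat_lit 573492) (nat_lit 15) (.e (nat_lit 81956) (nat_lit 23) (.e (nat_lit 98356) (nat_lit 26) (.e (nat_lit 426374) (nat_lit 15) .nil))))))) (.g (nat_lit 1) (.e (nat_lit 104214) (nat_lit 0) .nil) .nil))) 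
(.lf (nat_lit 478889) (.g (nat_lit 3066) (.e (nat_lit 2174) (nat_lit 143) (.e (nat_lit 712745) (nat_lit 27) (.e (nat_lit 426347) (nat_lit 14) (.e (nat_lit 491570) (nat_lit 13) (.e (nat_lit 393271) (nat_lit 23) (.e (nat_lit 426405) (nat_lit 15) .nil)))))) (.g (nat_lit 1) (.e (nat_lit 105086) (nat_lit 0) .nil) .nil)))) (.nd (nat_lit 9) 
(.lf (nat_lit 478633) (.g (nat_lit 1925) (.e (nat_lit 2059) (nat_lit 142) (.e (nat_lit 704589) (nat_lit 3) (.e (nat_lit 163976) (nat_lit 30) (.e (nat_lit 573491) (nat_lit 15) (.e (nat_lit 81954) (nat_lit 23) (.e (nat_lit 98362) (nat_lit 26) (.e (nat_lit 426410) (nat_lit 15) .nil))))))) (.g (nat_lit 1) (.e (nat_lit 104537) (nat_lit 0) .nil) .nil))) 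
(.lf (nat_lit 479145) (.g (nat_lit 1347) (.e (nat_lit 5170) (nat_lit 292) (.e (nat_lit 2649) (nat_lit 166) (.e (nat_lit 188434) (nat_lit 20) (.e (nat_lit 3391) (nat_lit 210) .nil)))) (.g (nat_lit 0) (.e (nat_lit 106932) (nat_lit 0) .nil) .nil)))))) (.nd (nat_lit 7) (.nd (nat_lit 8) (.nd (nat_lit 9) 
(.lf (nat_lit 478313) (.g (nat_lit 2472) (.e (nat_lit 2058) (nat_lit 142) (.e (nat_lit 704589) (nat_lit 3) (.e (nat_lit 163975) (nat_lit 30) (.e (nat_lit 573491) (nat_lit 15) (.e (nat_lit 81954) (nat_lit 23) (.e (nat_lit 98359) (nat_lit 26) (.e (nat_lit 426414) (nat_lit 15) .nil))))))) (.g (nat_lit 1) (.e (nat_lit 104140) (nat_lit 0) .nil) .nil))) 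
(.lf (nat_lit 478825) (.g (nat_lit 2136) (.e (nat_lit 2086) (nat_lit 142) (.e (nat_lit 704734) (nat_lit 11) (.e (nat_lit 16416) (nat_lit 3) (.e (nat_lit 204861) (nat_lit 26) (.e (nat_lit 336075) (nat_lit 9) .nil))))) (.g (nat_lit 0) (.e (nat_lit 104815) (nat_lit 0) .nil) .nil)))) (.nd (nat_lit 9) 
(.lf (nat_lit 478569) (.g (nat_lit 2119) (.e (nat_lit 2059) (nat_lit 142) (.e (nat_lit 704589) (nat_lit 3) (.e (nat_lit 163975) (nat_lit 30) (.e (nat_lit 573491) (nat_lit 15) (.e (nat_lit 81954) (nat_lit 23) (.e (nat_lit 106240) (nat_lit 26) (.e (nat_lit 426391) (nat_lit 15) .nil))))))) (.g (nat_lit 1) (.e (nat_lit 104456) (nat_lit 0) .nil) .nil))) 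
(.lf (nat_lit 479081) (.g (nat_lit 1215) (.e (nat_lit 4527) (nat_lit 265) (.e (nat_lit 57373) (nat_lit 2) (.e (nat_lit 90158) (nat_lit 11) .nil))) (.g (nat_lit 0) (.e (nat_lit 106185) (nat_lit 0) .nil) .nil))))) (.nd (nat_lit 8) (.nd (nat_lit 9) 
(.lf (nat_lit 478441) (.g (nat_lit 3101) (.e (nat_lit 2058) (nat_lit 142) (.e (nat_lit 704589) (nat_lit 3) (.e (nat_lit 163979) (nat_lit 30) (.e (nat_lit 573491) (nat_lit 15) (.e (nat_lit 81954) (nat_lit 23) (.e (nat_lit 98355) (nat_lit 26) (.e (nat_lit 426376) (nat_lit 15) .nil))))))) (.g (nat_lit 1) (.e (nat_lit 104281) (nat_lit 0) .nil) .nil))) 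
(.lf (nat_lit 478953) (.g (nat_lit 3049) (.e (nat_lit 2175) (nat_lit 143) (.e (nat_lit 712745) (nat_lit 27) (.e (nat_lit 426347) (nat_lit 14) (.e (nat_lit 491571) (nat_lit 13) (.e (nat_lit 393269) (nat_lit 23) (.e (nat_lit 426375) (nat_lit 15) .nil)))))) (.g (nat_lit 1) (.e (nat_lit 105158) (nat_lit 0) .nil) .nil)))) (.nd (nat_lit 9) 
(.lf (nat_lit 478697) (.g (nat_lit 6248) (.e (nat_lit 2059) (nat_lit 142) (.e (nat_lit 704589) (nat_lit 3) (.e (nat_lit 163979) (nat_lit 30) (.e (nat_lit 573482) (nat_lit 13) (.e (nat_lit 65604) (nat_lit 9) (.e (nat_lit 336013) (nat_lit 2) (.e (nat_lit 90168) (nat_lit 13) (.e (nat_lit 172133) (nat_lit 15) .nil)))))))) (.g (nat_lit 1) (.e (nat_lit 104612) (nat_lit 0) .nil) .nil))) 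
(.lf (nat_lit 479209) (.g (nat_lit 2288) (.e (nat_lit 5224) (nat_lit 296) (.e (nat_lit 163868) (nat_lit 2) (.e (nat_lit 196655) (nat_lit 11) (.e (nat_lit 16465) (nat_lit 13) (.e (nat_lit 483339) (nat_lit 9) .nil))))) (.g (nat_lit 0) (.e (nat_lit 107408) (nat_lit 0) .nil) .nil)))))))) (.nd (nat_lit 5) (.nd (nat_lit 6) (.nd (nat_lit 7) (.nd (nat_lit 8) (.nd (nat_lit 9) 
(.lf (nat_lit 478233) (.g (nat_lit 3989) (.e (nat_lit 2057) (nat_lit 142) (.e (nat_lit 704589) (nat_lit 3) (.e (nat_lit 163976) (nat_lit 30) (.e (nat_lit 573481) (nat_lit 13) (.e (nat_lit 65604) (nat_lit 9) (.e (nat_lit 336013) (nat_lit 2) (.e (nat_lit 90170) (nat_lit 13) (.e (nat_lit 172138) (nat_lit 15) .nil)))))))) (.g (nat_lit 1) (.e (nat_lit 104031) (nat_lit 0) .nil) .nil))) 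
(.lf (nat_lit 478745) (.g (nat_lit 2040) (.e (nat_lit 2059) (nat_lit 142) (.e (nat_lit 704589) (nat_lit 3) (.e (nat_lit 163979) (nat_lit 30) (.e (nat_lit 573491) (nat_lit 15) (.e (nat_lit 81954) (nat_lit 23) (.e (nat_lit 98360) (nat_lit 26) (.e (nat_lit 426411) (nat_lit 15) .nil))))))) (.g (nat_lit 1) (.e (nat_lit 104660) (nat_lit 0) .nil) .nil)))) (.nd (nat_lit 9) 
(.lf (nat_lit 478489) (.g (nat_lit 5041) (.e (nat_lit 2058) (nat_lit 142) (.e (nat_lit 704589) (nat_lit 3) (.e (nat_lit 163979) (nat_lit 30) (.e (nat_lit 573493) (nat_lit 15) (.e (nat_lit 81956) (nat_lit 23) (.e (nat_lit 98360) (nat_lit 26) (.e (nat_lit 426411) (nat_lit 15) .nil))))))) (.g (nat_lit 1) (.e (nat_lit 104331) (nat_lit 0) .nil) .nil))) 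
(.lf (nat_lit 479001) (.g (nat_lit 1277) (.e (nat_lit 3929) (nat_lit 239) (.e (nat_lit 2643) (nat_lit 165) (.e (nat_lit 180277) (nat_lit 32) (.e (nat_lit 1235) (nat_lit 91) (.e (nat_lit 90170) (nat_lit 13) .nil))))) (.g (nat_lit 0) (.e (nat_lit 105338) (nat_lit 0) .nil) .nil))))) (.nd (nat_lit 8) (.nd (nat_lit 9) 
(.lf (nat_lit 478361) (.g (nat_lit 3713) (.e (nat_lit 2058) (nat_lit 142) (.e (nat_lit 704589) (nat_lit 3) (.e (nat_lit 163976) (nat_lit 30) (.e (nat_lit 573491) (nat_lit 15) (.e (nat_lit 81954) (nat_lit 23) (.e (nat_lit 98356) (nat_lit 26) (.e (nat_lit 426393) (nat_lit 15) .nil))))))) (.g (nat_lit 1) (.e (nat_lit 104196) (nat_lit 0) .nil) .nil))) 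
(.lf (nat_lit 478873) (.g (nat_lit 1318) (.e (nat_lit 2160) (nat_lit 143) (.e (nat_lit 712755) (nat_lit 30) (.e (nat_lit 450566) (nat_lit 0) (.e (nat_lit 5548) (nat_lit 306) (.e (nat_lit 2648) (nat_lit 166) .nil))))) (.g (nat_lit 0) (.e (nat_lit 105041) (nat_lit 0) .nil) .nil)))) (.nd (nat_lit 9) 
(.lf (nat_lit 478617) (.g (nat_lit 2223) (.e (nat_lit 2059) (nat_lit 142) (.e (nat_lit 704589) (nat_lit 3) (.e (nat_lit 163976) (nat_lit 30) (.e (nat_lit 573482) (nat_lit 13) (.e (nat_lit 65604) (nat_lit 9) .nil))))) (.g (nat_lit 0) (.e (nat_lit 104521) (nat_lit 0) .nil) .nil))) 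
(.lf (nat_lit 479129) (.g (nat_lit 1269) (.e (nat_lit 4981) (nat_lit 287) (.e (nat_lit 2798) (nat_lit 180) (.e (nat_lit 303145) (nat_lit 13) (.e (nat_lit 483405) (nat_lit 26) .nil)))) (.g (nat_lit 0) (.e (nat_lit 106664) (nat_lit 0) .nil) .nil)))))) (.nd (nat_lit 7) (.nd (nat_lit 8) (.nd (nat_lit 9) 
(.lf (nat_lit 478297) (.g (nat_lit 4902) (.e (nat_lit 2058) (nat_lit 142) (.e (nat_lit 704589) (nat_lit 3) (.e (nat_lit 163975) (nat_lit 30) (.e (nat_lit 573481) (nat_lit 13) (.e (nat_lit 65619) (nat_lit 10) (.e (nat_lit 344117) (nat_lit 21) (.e (nat_lit 516151) (nat_lit 9) (.e (nat_lit 426410) (nat_lit 15) .nil)))))))) (.g (nat_lit 1) (.e (nat_lit 104124) (nat_lit 0) .nil) .nil))) 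
(.lf (nat_lit 478809) (.g (nat_lit 1717) (.e (nat_lit 2061) (nat_lit 142) (.e (nat_lit 704599) (nat_lit 6) (.e (nat_lit 188452) (nat_lit 23) (.e (nat_lit 204809) (nat_lit 9) .nil)))) (.g (nat_lit 0) (.e (nat_lit 104790) (nat_lit 0) .nil) .nil)))) (.nd (nat_lit 9) 
(.lf (nat_lit 478553) (.g (nat_lit 2364) (.e (nat_lit 2059) (nat_lit 142) (.e (nat_lit 704589) (nat_lit 3) (.e (nat_lit 163975) (nat_lit 30) (.e (nat_lit 573491) (nat_lit 15) (.e (nat_lit 81954) (nat_lit 23) (.e (nat_lit 98355) (nat_lit 26) (.e (nat_lit 426393) (nat_lit 15) .nil))))))) (.g (nat_lit 1) (.e (nat_lit 104440) (nat_lit 0) .nil) .nil))) 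
(.lf (nat_lit 479065) (.g (nat_lit 3283) (.e (nat_lit 4495) (nat_lit 263) (.e (nat_lit 2625) (nat_lit 164) (.e (nat_lit 172064) (nat_lit 2) (.e (nat_lit 196666) (nat_lit 13) (.e (nat_lit 65610) (nat_lit 10) (.e (nat_lit 344117) (nat_lit 21) (.e (nat_lit 516099) (nat_lit 0) (.e (nat_lit 2474) (nat_lit 157) .nil)))))))) (.g (nat_lit 1) (.e (nat_lit 106135) (nat_lit 0) .nil) .nil))))) 
(.nd (nat_lit 8) (.nd (nat_lit 9) 
(.lf (nat_lit 478425) (.g (nat_lit 4225) (.e (nat_lit 2058) (nat_lit 142) (.e (nat_lit 704589) (nat_lit 3) (.e (nat_lit 163979) (nat_lit 30) (.e (nat_lit 573482) (nat_lit 13) (.e (nat_lit 65619) (nat_lit 10) (.e (nat_lit 344117) (nat_lit 21) (.e (nat_lit 516144) (nat_lit 9) (.e (nat_lit 426379) (nat_lit 15) .nil)))))))) (.g (nat_lit 1) (.e (nat_lit 104265) (nat_lit 0) .nil) .nil))) 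
(.lf (nat_lit 478937) (.g (nat_lit 654) (.e (nat_lit 2174) (nat_lit 143) (.e (nat_lit 712755) (nat_lit 30) (.e (nat_lit 450560) (nat_lit 0) .nil))) (.g (nat_lit 0) (.e (nat_lit 105138) (nat_lit 0) .nil) .nil)))) (.nd (nat_lit 9) 
(.lf (nat_lit 478681) (.g (nat_lit 3758) (.e (nat_lit 2059) (nat_lit 142) (.e (nat_lit 704589) (nat_lit 3) (.e (nat_lit 163978) (nat_lit 30) (.e (nat_lit 573485) (nat_lit 13) (.e (nat_lit 65619) (nat_lit 10) (.e (nat_lit 344117) (nat_lit 21) (.e (nat_lit 516147) (nat_lit 9) (.e (nat_lit 426375) (nat_lit 15) .nil)))))))) (.g (nat_lit 1) (.e (nat_lit 104596) (nat_lit 0) .nil) .nil))) 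
(.lf (nat_lit 479193) (.g (nat_lit 2216) (.e (nat_lit 5223) (nat_lit 296) (.e (nat_lit 163881) (nat_lit 4) (.e (nat_lit 213032) (nat_lit 11) (.e (nat_lit 24660) (nat_lit 13) (.e (nat_lit 393283) (nat_lit 24) (.e (nat_lit 434209) (nat_lit 18) .nil)))))) (.g (nat_lit 1) (.e (nat_lit 107284) (nat_lit 0) .nil) .nil))))))) (.nd (nat_lit 6) (.nd (nat_lit 7) (.nd (nat_lit 8) (.nd (nat_lit 9) 
(.lf (nat_lit 478265) (.g (nat_lit 772) (.e (nat_lit 2057) (nat_lit 142) (.e (nat_lit 704598) (nat_lit 6) (.e (nat_lit 188417) (nat_lit 0) (.e (nat_lit 2143) (nat_lit 142) (.e (nat_lit 704597) (nat_lit 6) (.e (nat_lit 188420) (nat_lit 0) .nil)))))) (.g (nat_lit 1) (.e (nat_lit 104084) (nat_lit 0) .nil) .nil))) 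
(.lf (nat_lit 478777) (.g (nat_lit 5436) (.e (nat_lit 2059) (nat_lit 142) (.e (nat_lit 704589) (nat_lit 3) (.e (nat_lit 163979) (nat_lit 30) (.e (nat_lit 573493) (nat_lit 15) (.e (nat_lit 81956) (nat_lit 23) (.e (nat_lit 98356) (nat_lit 26) (.e (nat_lit 426420) (nat_lit 15) .nil))))))) (.g (nat_lit 1) (.e (nat_lit 104708) (nat_lit 0) .nil) .nil)))) (.nd (nat_lit 9) 
(.lf (nat_lit 478521) (.g (nat_lit 5095) (.e (nat_lit 2059) (nat_lit 142) (.e (nat_lit 704589) (nat_lit 3) (.e (nat_lit 163975) (nat_lit 30) (.e (nat_lit 573480) (nat_lit 13) (.e (nat_lit 65610) (nat_lit 10) (.e (nat_lit 344117) (nat_lit 21) (.e (nat_lit 516151) (nat_lit 9) (.e (nat_lit 426412) (nat_lit 15) .nil)))))))) (.g (nat_lit 1) (.e (nat_lit 104408) (nat_lit 0) .nil) .nil))) 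
(.lf (nat_lit 479033) (.g (nat_lit 1768) (.e (nat_lit 4120) (nat_lit 245) (.e (nat_lit 1220) (nat_lit 90) (.e (nat_lit 81938) (nat_lit 20) (.e (nat_lit 2391) (nat_lit 156) (.e (nat_lit 819204) (nat_lit 0) .nil))))) (.g (nat_lit 0) (.e (nat_lit 105874) (nat_lit 0) .nil) .nil))))) (.nd (nat_lit 8) (.nd (nat_lit 9) 
(.lf (nat_lit 478393) (.g (nat_lit 3229) (.e (nat_lit 2058) (nat_lit 142) (.e (nat_lit 704589) (nat_lit 3) (.e (nat_lit 163978) (nat_lit 30) (.e (nat_lit 573479) (nat_lit 13) (.e (nat_lit 65619) (nat_lit 10) (.e (nat_lit 344117) (nat_lit 21) (.e (nat_lit 516151) (nat_lit 9) (.e (nat_lit 426412) (nat_lit 15) .nil)))))))) (.g (nat_lit 1) (.e (nat_lit 104233) (nat_lit 0) .nil) .nil))) 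
(.lf (nat_lit 478905) (.g (nat_lit 3108) (.e (nat_lit 2174) (nat_lit 143) (.e (nat_lit 712745) (nat_lit 27) (.e (nat_lit 426347) (nat_lit 14) (.e (nat_lit 491571) (nat_lit 13) (.e (nat_lit 393269) (nat_lit 23) (.e (nat_lit 426377) (nat_lit 15) .nil)))))) (.g (nat_lit 1) (.e (nat_lit 105102) (nat_lit 0) .nil) .nil)))) (.nd (nat_lit 9) 
(.lf (nat_lit 478649) (.g (nat_lit 4806) (.e (nat_lit 2059) (nat_lit 142) (.e (nat_lit 704589) (nat_lit 3) (.e (nat_lit 163976) (nat_lit 30) (.e (nat_lit 573492) (nat_lit 15) (.e (nat_lit 81956) (nat_lit 23) (.e (nat_lit 98356) (nat_lit 26) (.e (nat_lit 426374) (nat_lit 15) .nil))))))) (.g (nat_lit 1) (.e (nat_lit 104559) (nat_lit 0) .nil) .nil))) 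
(.lf (nat_lit 479161) (.g (nat_lit 2990) (.e (nat_lit 5222) (nat_lit 296) (.e (nat_lit 163907) (nat_lit 12) (.e (nat_lit 426294) (nat_lit 11) (.e (nat_lit 466688) (nat_lit 18) (.e (nat_lit 5195) (nat_lit 294) (.e (nat_lit 57411) (nat_lit 12) (.e (nat_lit 336182) (nat_lit 11) (.e (nat_lit 376576) (nat_lit 18) .nil)))))))) (.g (nat_lit 1) (.e (nat_lit 107076) (nat_lit 0) .nil) .nil)))))) 
(.nd (nat_lit 7) (.nd (nat_lit 8) (.nd (nat_lit 9) 
(.lf (nat_lit 478329) (.g (nat_lit 4631) (.e (nat_lit 2058) (nat_lit 142) (.e (nat_lit 704589) (nat_lit 3) (.e (nat_lit 163975) (nat_lit 30) (.e (nat_lit 573492) (nat_lit 15) (.e (nat_lit 81956) (nat_lit 23) (.e (nat_lit 98356) (nat_lit 26) (.e (nat_lit 426416) (nat_lit 15) .nil))))))) (.g (nat_lit 1) (.e (nat_lit 104161) (nat_lit 0) .nil) .nil))) 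
(.lf (nat_lit 478841) (.g (nat_lit 1571) (.e (nat_lit 2147) (nat_lit 142) (.e (nat_lit 704597) (nat_lit 6) (.e (nat_lit 188441) (nat_lit 20) (.e (nat_lit 3409) (nat_lit 212) (.e (nat_lit 655380) (nat_lit 6) (.e (nat_lit 188416) (nat_lit 0) .nil)))))) (.g (nat_lit 1) (.e (nat_lit 104974) (nat_lit 0) .nil) .nil)))) (.nd (nat_lit 9) 
(.lf (nat_lit 478585) (.g (nat_lit 5333) (.e (nat_lit 2059) (nat_lit 142) (.e (nat_lit 704589) (nat_lit 3) (.e (nat_lit 163975) (nat_lit 30) (.e (nat_lit 573492) (nat_lit 15) (.e (nat_lit 81956) (nat_lit 23) (.e (nat_lit 98356) (nat_lit 26) (.e (nat_lit 426374) (nat_lit 15) .nil))))))) (.g (nat_lit 1) (.e (nat_lit 104484) (nat_lit 0) .nil) .nil))) 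
(.lf (nat_lit 479097) (.g (nat_lit 3812) (.e (nat_lit 4848) (nat_lit 285) (.e (nat_lit 163869) (nat_lit 2) (.e (nat_lit 196666) (nat_lit 13) (.e (nat_lit 65610) (nat_lit 10) (.e (nat_lit 344117) (nat_lit 21) (.e (nat_lit 516151) (nat_lit 9) (.e (nat_lit 426043) (nat_lit 0) (.e (nat_lit 2423) (nat_lit 157) .nil)))))))) (.g (nat_lit 1) (.e (nat_lit 106469) (nat_lit 0) .nil) .nil))))) 
(.nd (nat_lit 8) (.nd (nat_lit 9) 
(.lf (nat_lit 478457) (.g (nat_lit 2896) (.e (nat_lit 2058) (nat_lit 142) (.e (nat_lit 704589) (nat_lit 3) (.e (nat_lit 163979) (nat_lit 30) (.e (nat_lit 573491) (nat_lit 15) (.e (nat_lit 81954) (nat_lit 23) (.e (nat_lit 98362) (nat_lit 26) (.e (nat_lit 426412) (nat_lit 15) .nil))))))) (.g (nat_lit 1) (.e (nat_lit 104297) (nat_lit 0) .nil) .nil))) 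
(.lf (nat_lit 478969) (.g (nat_lit 2449) (.e (nat_lit 2175) (nat_lit 143) (.e (nat_lit 712752) (nat_lit 29) (.e (nat_lit 442421) (nat_lit 21) (.e (nat_lit 164345) (nat_lit 240) (.e (nat_lit 2648) (nat_lit 166) (.e (nat_lit 188418) (nat_lit 0) .nil)))))) (.g (nat_lit 1) (.e (nat_lit 105174) (nat_lit 0) .nil) .nil)))) (.nd (nat_lit 9) 
(.lf (nat_lit 478713) (.g (nat_lit 4371) (.e (nat_lit 2059) (nat_lit 142) (.e (nat_lit 704589) (nat_lit 3) (.e (nat_lit 163979) (nat_lit 30) (.e (nat_lit 573482) (nat_lit 13) (.e (nat_lit 65619) (nat_lit 10) (.e (nat_lit 344117) (nat_lit 21) (.e (nat_lit 516144) (nat_lit 9) (.e (nat_lit 426420) (nat_lit 15) .nil)))))))) (.g (nat_lit 1) (.e (nat_lit 104628) (nat_lit 0) .nil) .nil))) 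
(.lf (nat_lit 479225) (.g (nat_lit 434) (.e (nat_lit 5224) (nat_lit 296) (.e (nat_lit 163871) (nat_lit 2) (.e (nat_lit 196655) (nat_lit 11) .nil))) (.g (nat_lit 0) (.e (nat_lit 107479) (nat_lit 0) .nil) .nil)))))))))) (.nd (nat_lit 3) (.nd (nat_lit 4) (.nd (nat_lit 5) (.nd (nat_lit 6) (.nd (nat_lit 7) (.nd (nat_lit 8) (.nd (nat_lit 9) 
(.lf (nat_lit 478213) (.g (nat_lit 1321) (.e (nat_lit 2056) (nat_lit 142) (.e (nat_lit 704598) (nat_lit 6) (.e (nat_lit 188431) (nat_lit 20) (.e (nat_lit 3402) (nat_lit 211) (.e (nat_lit 647185) (nat_lit 6) (.e (nat_lit 188420) (nat_lit 0) .nil)))))) (.g (nat_lit 1) (.e (nat_lit 104010) (nat_lit 0) .nil) .nil))) 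
(.lf (nat_lit 478725) (.g (nat_lit 3596) (.e (nat_lit 2059) (nat_lit 142) (.e (nat_lit 704589) (nat_lit 3) (.e (nat_lit 163979) (nat_lit 30) (.e (nat_lit 573482) (nat_lit 13) (.e (nat_lit 65619) (nat_lit 10) (.e (nat_lit 344117) (nat_lit 21) (.e (nat_lit 516152) (nat_lit 9) (.e (nat_lit 426411) (nat_lit 15) .nil)))))))) (.g (nat_lit 1) (.e (nat_lit 104640) (nat_lit 0) .nil) .nil)))) 
(.nd (nat_lit 9) 
(.lf (nat_lit 478469) (.g (nat_lit 4919) (.e (nat_lit 2058) (nat_lit 142) (.e (nat_lit 704589) (nat_lit 3) (.e (nat_lit 163979) (nat_lit 30) (.e (nat_lit 573493) (nat_lit 15) (.e (nat_lit 81953) (nat_lit 22) (.e (nat_lit 90170) (nat_lit 13) (.e (nat_lit 172137) (nat_lit 15) .nil))))))) (.g (nat_lit 1) (.e (nat_lit 104310) (nat_lit 0) .nil) .nil))) 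
(.lf (nat_lit 478981) (.g (nat_lit 2138) (.e (nat_lit 2175) (nat_lit 143) (.e (nat_lit 712755) (nat_lit 30) (.e (nat_lit 450562) (nat_lit 0) (.e (nat_lit 5539) (nat_lit 306) (.e (nat_lit 7936) (nat_lit 166) (.e (nat_lit 188420) (nat_lit 0) .nil)))))) (.g (nat_lit 1) (.e (nat_lit 105186) (nat_lit 0) .nil) .nil))))) (.nd (nat_lit 8) (.nd (nat_lit 9) 
(.lf (nat_lit 478341) (.g (nat_lit 3839) (.e (nat_lit 2058) (nat_lit 142) (.e (nat_lit 704589) (nat_lit 3) (.e (nat_lit 163976) (nat_lit 30) (.e (nat_lit 573481) (nat_lit 13) (.e (nat_lit 65619) (nat_lit 10) (.e (nat_lit 344117) (nat_lit 21) (.e (nat_lit 516144) (nat_lit 9) (.e (nat_lit 426376) (nat_lit 15) .nil)))))))) (.g (nat_lit 1) (.e (nat_lit 104176) (nat_lit 0) .nil) .nil))) 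
(.lf (nat_lit 478853) (.g (nat_lit 2114) (.e (nat_lit 2147) (nat_lit 142) (.e (nat_lit 704597) (nat_lit 6) (.e (nat_lit 188455) (nat_lit 24) (.e (nat_lit 229666) (nat_lit 240) (.e (nat_lit 2651) (nat_lit 166) (.e (nat_lit 188417) (nat_lit 0) .nil)))))) (.g (nat_lit 1) (.e (nat_lit 104986) (nat_lit 0) .nil) .nil)))) (.nd (nat_lit 9) 
(.lf (nat_lit 478597) (.g (nat_lit 3351) (.e (nat_lit 2059) (nat_lit 142) (.e (nat_lit 704589) (nat_lit 3) (.e (nat_lit 163975) (nat_lit 30) (.e (nat_lit 573492) (nat_lit 15) (.e (nat_lit 81956) (nat_lit 23) (.e (nat_lit 106240) (nat_lit 26) (.e (nat_lit 426391) (nat_lit 15) .nil))))))) (.g (nat_lit 1) (.e (nat_lit 104496) (nat_lit 0) .nil) .nil))) 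
(.lf (nat_lit 479109) (.g (nat_lit 2597) (.e (nat_lit 7936) (nat_lit 285) (.e (nat_lit 163869) (nat_lit 2) (.e (nat_lit 196666) (nat_lit 13) (.e (nat_lit 65610) (nat_lit 10) (.e (nat_lit 344117) (nat_lit 21) .nil))))) (.g (nat_lit 0) (.e (nat_lit 106527) (nat_lit 0) .nil) .nil)))))) (.nd (nat_lit 7) (.nd (nat_lit 8) (.nd (nat_lit 9) 
(.lf (nat_lit 478277) (.g (nat_lit 2153) (.e (nat_lit 2057) (nat_lit 142) (.e (nat_lit 704598) (nat_lit 6) (.e (nat_lit 188453) (nat_lit 24) (.e (nat_lit 229665) (nat_lit 240) (.e (nat_lit 2653) (nat_lit 166) (.e (nat_lit 188418) (nat_lit 0) .nil)))))) (.g (nat_lit 1) (.e (nat_lit 104101) (nat_lit 0) .nil) .nil))) 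
(.lf (nat_lit 478789) (.g (nat_lit 273) (.e (nat_lit 2059) (nat_lit 142) (.e (nat_lit 704595) (nat_lit 5) (.e (nat_lit 188160) (nat_lit 36) .nil))) (.g (nat_lit 0) (.e (nat_lit 104764) (nat_lit 0) .nil) .nil)))) (.nd (nat_lit 9) 
(.lf (nat_lit 478533) (.g (nat_lit 3656) (.e (nat_lit 2059) (nat_lit 142) (.e (nat_lit 704589) (nat_lit 3) (.e (nat_lit 163975) (nat_lit 30) (.e (nat_lit 573481) (nat_lit 13) (.e (nat_lit 65619) (nat_lit 10) (.e (nat_lit 344117) (nat_lit 21) (.e (nat_lit 516144) (nat_lit 9) (.e (nat_lit 426382) (nat_lit 15) .nil)))))))) (.g (nat_lit 1) (.e (nat_lit 104420) (nat_lit 0) .nil) .nil))) 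
(.lf (nat_lit 479045) (.g (nat_lit 3239) (.e (nat_lit 4409) (nat_lit 259) (.e (nat_lit 57374) (nat_lit 2) (.e (nat_lit 90170) (nat_lit 13) (.e (nat_lit 172106) (nat_lit 10) (.e (nat_lit 434244) (nat_lit 28) (.e (nat_lit 573471) (nat_lit 11) (.e (nat_lit 16392) (nat_lit 0) (.e (nat_lit 2400) (nat_lit 157) .nil)))))))) (.g (nat_lit 1) (.e (nat_lit 106000) (nat_lit 0) .nil) .nil))))) 
(.nd (nat_lit 8) (.nd (nat_lit 9) 
(.lf (nat_lit 478405) (.g (nat_lit 4311) (.e (nat_lit 2058) (nat_lit 142) (.e (nat_lit 704589) (nat_lit 3) (.e (nat_lit 163978) (nat_lit 30) (.e (nat_lit 573485) (nat_lit 13) (.e (nat_lit 65619) (nat_lit 10) (.e (nat_lit 344117) (nat_lit 21) (.e (nat_lit 516144) (nat_lit 9) (.e (nat_lit 426393) (nat_lit 15) .nil)))))))) (.g (nat_lit 1) (.e (nat_lit 104245) (nat_lit 0) .nil) .nil))) 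
(.lf (nat_lit 478917) (.g (nat_lit 3308) (.e (nat_lit 2174) (nat_lit 143) (.e (nat_lit 712745) (nat_lit 27) (.e (nat_lit 426347) (nat_lit 14) (.e (nat_lit 491571) (nat_lit 13) (.e (nat_lit 393275) (nat_lit 23) (.e (nat_lit 426411) (nat_lit 15) .nil)))))) (.g (nat_lit 1) (.e (nat_lit 105114) (nat_lit 0) .nil) .nil)))) (.nd (nat_lit 9) 
(.lf (nat_lit 478661) (.g (nat_lit 7093) (.e (nat_lit 2059) (nat_lit 142) (.e (nat_lit 704589) (nat_lit 3) (.e (nat_lit 163978) (nat_lit 30) (.e (nat_lit 573479) (nat_lit 13) (.e (nat_lit 65610) (nat_lit 10) (.e (nat_lit 344117) (nat_lit 21) (.e (nat_lit 516151) (nat_lit 9) (.e (nat_lit 426412) (nat_lit 15) .nil)))))))) (.g (nat_lit 1) (.e (nat_lit 104575) (nat_lit 0) .nil) .nil))) 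
(.lf (nat_lit 479173) (.g (nat_lit 502) (.e (nat_lit 5223) (nat_lit 296) (.e (nat_lit 163868) (nat_lit 2) (.e (nat_lit 196656) (nat_lit 11) .nil))) (.g (nat_lit 0) (.e (nat_lit 107197) (nat_lit 0) .nil) .nil))))))) (.nd (nat_lit 6) (.nd (nat_lit 7) (.nd (nat_lit 8) (.nd (nat_lit 9) 
(.lf (nat_lit 478245) (.g (nat_lit 2708) (.e (nat_lit 2057) (nat_lit 142) (.e (nat_lit 704589) (nat_lit 3) (.e (nat_lit 163978) (nat_lit 30) (.e (nat_lit 573485) (nat_lit 13) (.e (nat_lit 65619) (nat_lit 10) (.e (nat_lit 344117) (nat_lit 21) (.e (nat_lit 516147) (nat_lit 9) (.e (nat_lit 426376) (nat_lit 15) .nil)))))))) (.g (nat_lit 1) (.e (nat_lit 104043) (nat_lit 0) .nil) .nil))) 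
(.lf (nat_lit 478757) (.g (nat_lit 3628) (.e (nat_lit 2059) (nat_lit 142) (.e (nat_lit 704589) (nat_lit 3) (.e (nat_lit 163979) (nat_lit 30) (.e (nat_lit 573492) (nat_lit 15) (.e (nat_lit 81956) (nat_lit 23) (.e (nat_lit 98355) (nat_lit 26) (.e (nat_lit 426420) (nat_lit 15) .nil))))))) (.g (nat_lit 1) (.e (nat_lit 104673) (nat_lit 0) .nil) .nil)))) (.nd (nat_lit 9) 
(.lf (nat_lit 478501) (.g (nat_lit 2801) (.e (nat_lit 2058) (nat_lit 142) (.e (nat_lit 704592) (nat_lit 4) (.e (nat_lit 172126) (nat_lit 14) (.e (nat_lit 491550) (nat_lit 9) (.e (nat_lit 336430) (nat_lit 29) (.e (nat_lit 442378) (nat_lit 0) .nil)))))) (.g (nat_lit 1) (.e (nat_lit 104357) (nat_lit 0) .nil) .nil))) 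
(.lf (nat_lit 479013) (.g (nat_lit 2069) (.e (nat_lit 3987) (nat_lit 239) (.e (nat_lit 2628) (nat_lit 164) (.e (nat_lit 172126) (nat_lit 14) (.e (nat_lit 491537) (nat_lit 2) (.e (nat_lit 90170) (nat_lit 13) .nil))))) (.g (nat_lit 0) (.e (nat_lit 105479) (nat_lit 0) .nil) .nil))))) (.nd (nat_lit 8) (.nd (nat_lit 9) 
(.lf (nat_lit 478373) (.g (nat_lit 3613) (.e (nat_lit 2058) (nat_lit 142) (.e (nat_lit 704589) (nat_lit 3) (.e (nat_lit 163976) (nat_lit 30) (.e (nat_lit 573492) (nat_lit 15) (.e (nat_lit 81956) (nat_lit 23) (.e (nat_lit 98355) (nat_lit 26) (.e (nat_lit 426376) (nat_lit 15) .nil))))))) (.g (nat_lit 1) (.e (nat_lit 104210) (nat_lit 0) .nil) .nil))) 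
(.lf (nat_lit 478885) (.g (nat_lit 1896) (.e (nat_lit 2174) (nat_lit 143) (.e (nat_lit 712745) (nat_lit 27) (.e (nat_lit 426347) (nat_lit 14) (.e (nat_lit 491570) (nat_lit 13) (.e (nat_lit 393268) (nat_lit 23) .nil))))) (.g (nat_lit 0) (.e (nat_lit 105082) (nat_lit 0) .nil) .nil)))) (.nd (nat_lit 9) 
(.lf (nat_lit 478629) (.g (nat_lit 4348) (.e (nat_lit 2059) (nat_lit 142) (.e (nat_lit 704589) (nat_lit 3) (.e (nat_lit 163976) (nat_lit 30) (.e (nat_lit 573491) (nat_lit 15) (.e (nat_lit 81954) (nat_lit 23) (.e (nat_lit 98359) (nat_lit 26) (.e (nat_lit 426396) (nat_lit 15) .nil))))))) (.g (nat_lit 1) (.e (nat_lit 104533) (nat_lit 0) .nil) .nil))) 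
(.lf (nat_lit 479141) (.g (nat_lit 680) (.e (nat_lit 5125) (nat_lit 292) (.e (nat_lit 1078) (nat_lit 81) (.e (nat_lit 1597) (nat_lit 111) (.e (nat_lit 360452) (nat_lit 0) .nil)))) (.g (nat_lit 0) (.e (nat_lit 106884) (nat_lit 0) .nil) .nil)))))) (.nd (nat_lit 7) (.nd (nat_lit 8) (.nd (nat_lit 9) 
(.lf (nat_lit 478309) (.g (nat_lit 3693) (.e (nat_lit 2058) (nat_lit 142) (.e (nat_lit 704589) (nat_lit 3) (.e (nat_lit 163975) (nat_lit 30) (.e (nat_lit 573491) (nat_lit 15) (.e (nat_lit 81954) (nat_lit 23) (.e (nat_lit 98356) (nat_lit 26) (.e (nat_lit 426376) (nat_lit 15) .nil))))))) (.g (nat_lit 1) (.e (nat_lit 104136) (nat_lit 0) .nil) .nil))) 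
(.lf (nat_lit 478821) (.g (nat_lit 2203) (.e (nat_lit 2083) (nat_lit 142) (.e (nat_lit 704734) (nat_lit 11) (.e (nat_lit 16416) (nat_lit 3) (.e (nat_lit 204861) (nat_lit 26) (.e (nat_lit 336076) (nat_lit 9) .nil))))) (.g (nat_lit 0) (.e (nat_lit 104811) (nat_lit 0) .nil) .nil)))) (.nd (nat_lit 9) 
(.lf (nat_lit 478565) (.g (nat_lit 2267) (.e (nat_lit 2059) (nat_lit 142) (.e (nat_lit 704589) (nat_lit 3) (.e (nat_lit 163975) (nat_lit 30) (.e (nat_lit 573491) (nat_lit 15) (.e (nat_lit 81954) (nat_lit 23) (.e (nat_lit 98362) (nat_lit 26) (.e (nat_lit 426411) (nat_lit 15) .nil))))))) (.g (nat_lit 1) (.e (nat_lit 104452) (nat_lit 0) .nil) .nil))) 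
(.lf (nat_lit 479077) (.g (nat_lit 3420) (.e (nat_lit 4539) (nat_lit 267) (.e (nat_lit 163871) (nat_lit 2) (.e (nat_lit 196656) (nat_lit 11) (.e (nat_lit 16473) (nat_lit 14) (.e (nat_lit 491579) (nat_lit 27) .nil))))) (.g (nat_lit 0) (.e (nat_lit 106158) (nat_lit 0) .nil) .nil))))) (.nd (nat_lit 8) (.nd (nat_lit 9) 
(.lf (nat_lit 478437) (.g (nat_lit 3935) (.e (nat_lit 2058) (nat_lit 142) (.e (nat_lit 704589) (nat_lit 3) (.e (nat_lit 163979) (nat_lit 30) (.e (nat_lit 573491) (nat_lit 15) (.e (nat_lit 81951) (nat_lit 22) (.e (nat_lit 90170) (nat_lit 13) (.e (nat_lit 172136) (nat_lit 15) .nil))))))) (.g (nat_lit 1) (.e (nat_lit 104277) (nat_lit 0) .nil) .nil))) 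
(.lf (nat_lit 478949) (.g (nat_lit 2662) (.e (nat_lit 2175) (nat_lit 143) (.e (nat_lit 712745) (nat_lit 27) (.e (nat_lit 426347) (nat_lit 14) (.e (nat_lit 491570) (nat_lit 13) (.e (nat_lit 393275) (nat_lit 23) (.e (nat_lit 426396) (nat_lit 15) .nil)))))) (.g (nat_lit 1) (.e (nat_lit 105154) (nat_lit 0) .nil) .nil)))) (.nd (nat_lit 9) 
(.lf (nat_lit 478693) (.g (nat_lit 2691) (.e (nat_lit 2059) (nat_lit 142) (.e (nat_lit 704589) (nat_lit 3) (.e (nat_lit 163979) (nat_lit 30) (.e (nat_lit 573481) (nat_lit 13) (.e (nat_lit 65604) (nat_lit 9) .nil))))) (.g (nat_lit 0) (.e (nat_lit 104608) (nat_lit 0) .nil) .nil))) 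
(.lf (nat_lit 479205) (.g (nat_lit 1575) (.e (nat_lit 5224) (nat_lit 296) (.e (nat_lit 163868) (nat_lit 2) (.e (nat_lit 196654) (nat_lit 11) (.e (nat_lit 16463) (nat_lit 13) (.e (nat_lit 491264) (nat_lit 10) .nil))))) (.g (nat_lit 0) (.e (nat_lit 107390) (nat_lit 0) .nil) .nil)))))))) (.nd (nat_lit 5) (.nd (nat_lit 6) (.nd (nat_lit 7) (.nd (nat_lit 8) (.nd (nat_lit 9) 
(.lf (nat_lit 478229) (.g (nat_lit 3605) (.e (nat_lit 2057) (nat_lit 142) (.e (nat_lit 704589) (nat_lit 3) (.e (nat_lit 163975) (nat_lit 30) (.e (nat_lit 573492) (nat_lit 15) (.e (nat_lit 81956) (nat_lit 23) (.e (nat_lit 98355) (nat_lit 26) (.e (nat_lit 426375) (nat_lit 15) .nil))))))) (.g (nat_lit 1) (.e (nat_lit 104027) (nat_lit 0) .nil) .nil))) 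
(.lf (nat_lit 478741) (.g (nat_lit 4946) (.e (nat_lit 2059) (nat_lit 142) (.e (nat_lit 704589) (nat_lit 3) (.e (nat_lit 163979) (nat_lit 30) (.e (nat_lit 573491) (nat_lit 15) (.e (nat_lit 81954) (nat_lit 23) (.e (nat_lit 98359) (nat_lit 26) (.e (nat_lit 426396) (nat_lit 15) .nil))))))) (.g (nat_lit 1) (.e (nat_lit 104656) (nat_lit 0) .nil) .nil)))) (.nd (nat_lit 9) 
(.lf (nat_lit 478485) (.g (nat_lit 4534) (.e (nat_lit 2058) (nat_lit 142) (.e (nat_lit 704589) (nat_lit 3) (.e (nat_lit 163979) (nat_lit 30) (.e (nat_lit 573493) (nat_lit 15) (.e (nat_lit 81956) (nat_lit 23) (.e (nat_lit 98359) (nat_lit 26) (.e (nat_lit 426396) (nat_lit 15) .nil))))))) (.g (nat_lit 1) (.e (nat_lit 104327) (nat_lit 0) .nil) .nil))) 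
(.lf (nat_lit 478997) (.g (nat_lit 3055) (.e (nat_lit 3915) (nat_lit 239) (.e (nat_lit 1201) (nat_lit 88) (.e (nat_lit 65630) (nat_lit 14) (.e (nat_lit 401425) (nat_lit 2) (.e (nat_lit 196666) (nat_lit 13) .nil))))) (.g (nat_lit 0) (.e (nat_lit 105317) (nat_lit 0) .nil) .nil))))) (.nd (nat_lit 8) (.nd (nat_lit 9) 
(.lf (nat_lit 478357) (.g (nat_lit 1941) (.e (nat_lit 2058) (nat_lit 142) (.e (nat_lit 704589) (nat_lit 3) (.e (nat_lit 163976) (nat_lit 30) (.e (nat_lit 573491) (nat_lit 15) (.e (nat_lit 81954) (nat_lit 23) (.e (nat_lit 98355) (nat_lit 26) (.e (nat_lit 426420) (nat_lit 15) .nil))))))) (.g (nat_lit 1) (.e (nat_lit 104192) (nat_lit 0) .nil) .nil))) 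
(.lf (nat_lit 478869) (.g (nat_lit 2619) (.e (nat_lit 2160) (nat_lit 143) (.e (nat_lit 712753) (nat_lit 30) (.e (nat_lit 450565) (nat_lit 0) (.e (nat_lit 5548) (nat_lit 306) (.e (nat_lit 2650) (nat_lit 166) (.e (nat_lit 188419) (nat_lit 0) .nil)))))) (.g (nat_lit 1) (.e (nat_lit 105037) (nat_lit 0) .nil) .nil)))) (.nd (nat_lit 9) 
(.lf (nat_lit 478613) (.g (nat_lit 4856) (.e (nat_lit 2059) (nat_lit 142) (.e (nat_lit 704589) (nat_lit 3) (.e (nat_lit 163976) (nat_lit 30) (.e (nat_lit 573481) (nat_lit 13) (.e (nat_lit 65619) (nat_lit 10) (.e (nat_lit 344117) (nat_lit 21) (.e (nat_lit 516151) (nat_lit 9) (.e (nat_lit 426410) (nat_lit 15) .nil)))))))) (.g (nat_lit 1) (.e (nat_lit 104517) (nat_lit 0) .nil) .nil))) 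
(.lf (nat_lit 479125) (.g (nat_lit 693) (.e (nat_lit 4934) (nat_lit 287) (.e (nat_lit 2797) (nat_lit 180) (.e (nat_lit 303145) (nat_lit 13) .nil))) (.g (nat_lit 0) (.e (nat_lit 106581) (nat_lit 0) .nil) .nil)))))) (.nd (nat_lit 7) (.nd (nat_lit 8) (.nd (nat_lit 9) 
(.lf (nat_lit 478293) (.g (nat_lit 4015) (.e (nat_lit 2058) (nat_lit 142) (.e (nat_lit 704589) (nat_lit 3) (.e (nat_lit 163975) (nat_lit 30) (.e (nat_lit 573481) (nat_lit 13) (.e (nat_lit 65619) (nat_lit 10) (.e (nat_lit 344117) (nat_lit 21) (.e (nat_lit 516144) (nat_lit 9) (.e (nat_lit 426393) (nat_lit 15) .nil)))))))) (.g (nat_lit 1) (.e (nat_lit 104120) (nat_lit 0) .nil) .nil))) 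
(.lf (nat_lit 478805) (.g (nat_lit 1950) (.e (nat_lit 2059) (nat_lit 142) (.e (nat_lit 704599) (nat_lit 6) (.e (nat_lit 188446) (nat_lit 21) (.e (nat_lit 164348) (nat_lit 240) (.e (nat_lit 2648) (nat_lit 166) (.e (nat_lit 188420) (nat_lit 0) .nil)))))) (.g (nat_lit 1) (.e (nat_lit 104783) (nat_lit 0) .nil) .nil)))) (.nd (nat_lit 9) 
(.lf (nat_lit 478549) (.g (nat_lit 1522) (.e (nat_lit 2059) (nat_lit 142) (.e (nat_lit 704589) (nat_lit 3) (.e (nat_lit 163975) (nat_lit 30) (.e (nat_lit 573491) (nat_lit 15) (.e (nat_lit 81954) (nat_lit 23) .nil))))) (.g (nat_lit 0) (.e (nat_lit 104436) (nat_lit 0) .nil) .nil))) 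
(.lf (nat_lit 479061) (.g (nat_lit 4790) (.e (nat_lit 4507) (nat_lit 263) (.e (nat_lit 2619) (nat_lit 164) (.e (nat_lit 172064) (nat_lit 2) (.e (nat_lit 196666) (nat_lit 13) (.e (nat_lit 65610) (nat_lit 10) (.e (nat_lit 344117) (nat_lit 21) (.e (nat_lit 516098) (nat_lit 0) (.e (nat_lit 2401) (nat_lit 157) .nil)))))))) (.g (nat_lit 1) (.e (nat_lit 106088) (nat_lit 0) .nil) .nil))))) 
(.nd (nat_lit 8) (.nd (nat_lit 9) 
(.lf (nat_lit 478421) (.g (nat_lit 4400) (.e (nat_lit 2058) (nat_lit 142) (.e (nat_lit 704589) (nat_lit 3) (.e (nat_lit 163979) (nat_lit 30) (.e (nat_lit 573482) (nat_lit 13) (.e (nat_lit 65604) (nat_lit 9) (.e (nat_lit 336028) (nat_lit 3) (.e (nat_lit 98359) (nat_lit 26) (.e (nat_lit 426410) (nat_lit 15) .nil)))))))) (.g (nat_lit 1) (.e (nat_lit 104261) (nat_lit 0) .nil) .nil))) 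
(.lf (nat_lit 478933) (.g (nat_lit 1810) (.e (nat_lit 2174) (nat_lit 143) (.e (nat_lit 712753) (nat_lit 30) (.e (nat_lit 450561) (nat_lit 0) (.e (nat_lit 5537) (nat_lit 306) (.e (nat_lit 7936) (nat_lit 166) (.e (nat_lit 188418) (nat_lit 0) .nil)))))) (.g (nat_lit 1) (.e (nat_lit 105133) (nat_lit 0) .nil) .nil)))) (.nd (nat_lit 9) 
(.lf (nat_lit 478677) (.g (nat_lit 4702) (.e (nat_lit 2059) (nat_lit 142) (.e (nat_lit 704589) (nat_lit 3) (.e (nat_lit 163978) (nat_lit 30) (.e (nat_lit 573485) (nat_lit 13) (.e (nat_lit 65619) (nat_lit 10) (.e (nat_lit 344117) (nat_lit 21) (.e (nat_lit 516144) (nat_lit 9) (.e (nat_lit 426375) (nat_lit 15) .nil)))))))) (.g (nat_lit 1) (.e (nat_lit 104592) (nat_lit 0) .nil) .nil))) 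
(.lf (nat_lit 479189) (.g (nat_lit 2366) (.e (nat_lit 5223) (nat_lit 296) (.e (nat_lit 163879) (nat_lit 4) (.e (nat_lit 213030) (nat_lit 11) (.e (nat_lit 24660) (nat_lit 13) (.e (nat_lit 393282) (nat_lit 24) (.e (nat_lit 434209) (nat_lit 18) .nil)))))) (.g (nat_lit 1) (.e (nat_lit 107280) (nat_lit 0) .nil) .nil))))))) (.nd (nat_lit 6) (.nd (nat_lit 7) (.nd (nat_lit 8) (.nd (nat_lit 9) 
(.lf (nat_lit 478261) (.g (nat_lit 332) (.e (nat_lit 2057) (nat_lit 142) (.e (nat_lit 704595) (nat_lit 5) (.e (nat_lit 180277) (nat_lit 32) .nil))) (.g (nat_lit 0) (.e (nat_lit 104066) (nat_lit 0) .nil) .nil))) 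
(.lf (nat_lit 478773) (.g (nat_lit 5659) (.e (nat_lit 2059) (nat_lit 142) (.e (nat_lit 704589) (nat_lit 3) (.e (nat_lit 163979) (nat_lit 30) (.e (nat_lit 573493) (nat_lit 15) (.e (nat_lit 81956) (nat_lit 23) (.e (nat_lit 98356) (nat_lit 26) (.e (nat_lit 426374) (nat_lit 15) .nil))))))) (.g (nat_lit 1) (.e (nat_lit 104704) (nat_lit 0) .nil) .nil)))) (.nd (nat_lit 9) 
(.lf (nat_lit 478517) (.g (nat_lit 3095) (.e (nat_lit 2058) (nat_lit 142) (.e (nat_lit 704599) (nat_lit 6) (.e (nat_lit 188453) (nat_lit 24) (.e (nat_lit 229663) (nat_lit 240) (.e (nat_lit 2653) (nat_lit 166) (.e (nat_lit 188418) (nat_lit 0) .nil)))))) (.g (nat_lit 1) (.e (nat_lit 104404) (nat_lit 0) .nil) .nil))) 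
(.lf (nat_lit 479029) (.g (nat_lit 682) (.e (nat_lit 4217) (nat_lit 251) (.e (nat_lit 1128) (nat_lit 83) (.e (nat_lit 16436) (nat_lit 9) (.e (nat_lit 426131) (nat_lit 3) .nil)))) (.g (nat_lit 0) (.e (nat_lit 105645) (nat_lit 0) .nil) .nil))))) (.nd (nat_lit 8) (.nd (nat_lit 9) 
(.lf (nat_lit 478389) (.g (nat_lit 3096) (.e (nat_lit 2058) (nat_lit 142) (.e (nat_lit 704589) (nat_lit 3) (.e (nat_lit 163978) (nat_lit 30) (.e (nat_lit 573479) (nat_lit 13) (.e (nat_lit 65604) (nat_lit 9) .nil))))) (.g (nat_lit 0) (.e (nat_lit 104229) (nat_lit 0) .nil) .nil))) 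
(.lf (nat_lit 478901) (.g (nat_lit 3944) (.e (nat_lit 2174) (nat_lit 143) (.e (nat_lit 712745) (nat_lit 27) (.e (nat_lit 426347) (nat_lit 14) (.e (nat_lit 491571) (nat_lit 13) (.e (nat_lit 393268) (nat_lit 23) (.e (nat_lit 426374) (nat_lit 15) .nil)))))) (.g (nat_lit 1) (.e (nat_lit 105098) (nat_lit 0) .nil) .nil)))) (.nd (nat_lit 9) 
(.lf (nat_lit 478645) (.g (nat_lit 3823) (.e (nat_lit 2059) (nat_lit 142) (.e (nat_lit 704589) (nat_lit 3) (.e (nat_lit 163976) (nat_lit 30) (.e (nat_lit 573492) (nat_lit 15) (.e (nat_lit 81956) (nat_lit 23) (.e (nat_lit 98355) (nat_lit 26) (.e (nat_lit 426375) (nat_lit 15) .nil))))))) (.g (nat_lit 1) (.e (nat_lit 104555) (nat_lit 0) .nil) .nil))) 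
(.lf (nat_lit 479157) (.g (nat_lit 1534) (.e (nat_lit 5222) (nat_lit 296) (.e (nat_lit 163884) (nat_lit 5) (.e (nat_lit 221194) (nat_lit 11) (.e (nat_lit 336087) (nat_lit 9) .nil)))) (.g (nat_lit 0) (.e (nat_lit 107056) (nat_lit 0) .nil) .nil)))))) (.nd (nat_lit 7) (.nd (nat_lit 8) (.nd (nat_lit 9) 
(.lf (nat_lit 478325) (.g (nat_lit 4812) (.e (nat_lit 2058) (nat_lit 142) (.e (nat_lit 704589) (nat_lit 3) (.e (nat_lit 163975) (nat_lit 30) (.e (nat_lit 573492) (nat_lit 15) (.e (nat_lit 81956) (nat_lit 23) (.e (nat_lit 98356) (nat_lit 26) (.e (nat_lit 426374) (nat_lit 15) .nil))))))) (.g (nat_lit 1) (.e (nat_lit 104157) (nat_lit 0) .nil) .nil))) 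
(.lf (nat_lit 478837) (.g (nat_lit 1114) (.e (nat_lit 2146) (nat_lit 142) (.e (nat_lit 704597) (nat_lit 6) (.e (nat_lit 188420) (nat_lit 0) (.e (nat_lit 2058) (nat_lit 142) (.e (nat_lit 704598) (nat_lit 6) (.e (nat_lit 188417) (nat_lit 0) .nil)))))) (.g (nat_lit 1) (.e (nat_lit 104946) (nat_lit 0) .nil) .nil)))) (.nd (nat_lit 9) 
(.lf (nat_lit 478581) (.g (nat_lit 4494) (.e (nat_lit 2059) (nat_lit 142) (.e (nat_lit 704589) (nat_lit 3) (.e (nat_lit 163975) (nat_lit 30) (.e (nat_lit 573492) (nat_lit 15) (.e (nat_lit 81956) (nat_lit 23) (.e (nat_lit 98355) (nat_lit 26) (.e (nat_lit 426375) (nat_lit 15) .nil))))))) (.g (nat_lit 1) (.e (nat_lit 104480) (nat_lit 0) .nil) .nil))) 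
(.lf (nat_lit 479093) (.g (nat_lit 5578) (.e (nat_lit 4847) (nat_lit 285) (.e (nat_lit 163870) (nat_lit 2) (.e (nat_lit 196666) (nat_lit 13) (.e (nat_lit 65610) (nat_lit 10) (.e (nat_lit 344117) (nat_lit 21) (.e (nat_lit 516151) (nat_lit 9) (.e (nat_lit 426022) (nat_lit 0) (.e (nat_lit 2397) (nat_lit 157) .nil)))))))) (.g (nat_lit 1) (.e (nat_lit 106448) (nat_lit 0) .nil) .nil))))) 
(.nd (nat_lit 8) (.nd (nat_lit 9) 
(.lf (nat_lit 478453) (.g (nat_lit 4131) (.e (nat_lit 2058) (nat_lit 142) (.e (nat_lit 704589) (nat_lit 3) (.e (nat_lit 163979) (nat_lit 30) (.e (nat_lit 573491) (nat_lit 15) (.e (nat_lit 81954) (nat_lit 23) (.e (nat_lit 98359) (nat_lit 26) (.e (nat_lit 426410) (nat_lit 15) .nil))))))) (.g (nat_lit 1) (.e (nat_lit 104293) (nat_lit 0) .nil) .nil))) 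
(.lf (nat_lit 478965) (.g (nat_lit 2793) (.e (nat_lit 2175) (nat_lit 143) (.e (nat_lit 712750) (nat_lit 29) (.e (nat_lit 442430) (nat_lit 24) (.e (nat_lit 229680) (nat_lit 244) (.e (nat_lit 163920) (nat_lit 14) (.e (nat_lit 442374) (nat_lit 0) .nil)))))) (.g (nat_lit 1) (.e (nat_lit 105170) (nat_lit 0) .nil) .nil)))) (.nd (nat_lit 9) 
(.lf (nat_lit 478709) (.g (nat_lit 5006) (.e (nat_lit 2059) (nat_lit 142) (.e (nat_lit 704589) (nat_lit 3) (.e (nat_lit 163979) (nat_lit 30) (.e (nat_lit 573482) (nat_lit 13) (.e (nat_lit 65619) (nat_lit 10) (.e (nat_lit 344117) (nat_lit 21) (.e (nat_lit 516143) (nat_lit 9) (.e (nat_lit 426396) (nat_lit 15) .nil)))))))) (.g (nat_lit 1) (.e (nat_lit 104624) (nat_lit 0) .nil) .nil))) 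
(.lf (nat_lit 479221) (.g (nat_lit 1590) (.e (nat_lit 5224) (nat_lit 296) (.e (nat_lit 163871) (nat_lit 2) (.e (nat_lit 196654) (nat_lit 11) (.e (nat_lit 16463) (nat_lit 13) (.e (nat_lit 491264) (nat_lit 10) .nil))))) (.g (nat_lit 0) (.e (nat_lit 107461) (nat_lit 0) .nil) .nil))))))))) (.nd (nat_lit 4) (.nd (nat_lit 5) (.nd (nat_lit 6) (.nd (nat_lit 7) (.nd (nat_lit 8) (.nd (nat_lit 9) 
(.lf (nat_lit 478221) (.g (nat_lit 3984) (.e (nat_lit 2057) (nat_lit 142) (.e (nat_lit 704589) (nat_lit 3) (.e (nat_lit 163975) (nat_lit 30) (.e (nat_lit 573481) (nat_lit 13) (.e (nat_lit 65604) (nat_lit 9) (.e (nat_lit 336028) (nat_lit 3) (.e (nat_lit 98359) (nat_lit 26) (.e (nat_lit 426412) (nat_lit 15) .nil)))))))) (.g (nat_lit 1) (.e (nat_lit 104018) (nat_lit 0) .nil) .nil))) 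
(.lf (nat_lit 478733) (.g (nat_lit 2785) (.e (nat_lit 2059) (nat_lit 142) (.e (nat_lit 704589) (nat_lit 3) (.e (nat_lit 163979) (nat_lit 30) (.e (nat_lit 573491) (nat_lit 15) (.e (nat_lit 81954) (nat_lit 23) (.e (nat_lit 98355) (nat_lit 26) (.e (nat_lit 426393) (nat_lit 15) .nil))))))) (.g (nat_lit 1) (.e (nat_lit 104648) (nat_lit 0) .nil) .nil)))) (.nd (nat_lit 9) 
(.lf (nat_lit 478477) (.g (nat_lit 3720) (.e (nat_lit 2058) (nat_lit 142) (.e (nat_lit 704589) (nat_lit 3) (.e (nat_lit 163979) (nat_lit 30) (.e (nat_lit 573493) (nat_lit 15) (.e (nat_lit 81956) (nat_lit 23) (.e (nat_lit 98355) (nat_lit 26) (.e (nat_lit 426420) (nat_lit 15) .nil))))))) (.g (nat_lit 1) (.e (nat_lit 104319) (nat_lit 0) .nil) .nil))) 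
(.lf (nat_lit 478989) (.g (nat_lit 1986) (.e (nat_lit 2198) (nat_lit 144) (.e (nat_lit 720940) (nat_lit 22) (.e (nat_lit 90170) (nat_lit 13) (.e (nat_lit 172067) (nat_lit 3) (.e (nat_lit 204830) (nat_lit 18) .nil))))) (.g (nat_lit 0) (.e (nat_lit 105234) (nat_lit 0) .nil) .nil))))) (.nd (nat_lit 8) (.nd (nat_lit 9) 
(.lf (nat_lit 478349) (.g (nat_lit 6130) (.e (nat_lit 2058) (nat_lit 142) (.e (nat_lit 704589) (nat_lit 3) (.e (nat_lit 163976) (nat_lit 30) (.e (nat_lit 573484) (nat_lit 13) (.e (nat_lit 65610) (nat_lit 10) (.e (nat_lit 344117) (nat_lit 21) (.e (nat_lit 516151) (nat_lit 9) (.e (nat_lit 426412) (nat_lit 15) .nil)))))))) (.g (nat_lit 1) (.e (nat_lit 104184) (nat_lit 0) .nil) .nil))) 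
(.lf (nat_lit 478861) (.g (nat_lit 1607) (.e (nat_lit 2148) (nat_lit 142) (.e (nat_lit 704597) (nat_lit 6) (.e (nat_lit 188455) (nat_lit 24) (.e (nat_lit 229681) (nat_lit 244) (.e (nat_lit 163919) (nat_lit 14) (.e (nat_lit 442371) (nat_lit 0) .nil)))))) (.g (nat_lit 1) (.e (nat_lit 105004) (nat_lit 0) .nil) .nil)))) (.nd (nat_lit 9) 
(.lf (nat_lit 478605) (.g (nat_lit 2506) (.e (nat_lit 2059) (nat_lit 142) (.e (nat_lit 704589) (nat_lit 3) (.e (nat_lit 163976) (nat_lit 30) (.e (nat_lit 573481) (nat_lit 13) (.e (nat_lit 65604) (nat_lit 9) (.e (nat_lit 336028) (nat_lit 3) (.e (nat_lit 106240) (nat_lit 26) (.e (nat_lit 426391) (nat_lit 15) .nil)))))))) (.g (nat_lit 1) (.e (nat_lit 104508) (nat_lit 0) .nil) .nil))) 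
(.lf (nat_lit 479117) (.g (nat_lit 1486) (.e (nat_lit 4931) (nat_lit 287) (.e (nat_lit 2797) (nat_lit 180) (.e (nat_lit 303145) (nat_lit 13) (.e (nat_lit 483405) (nat_lit 26) .nil)))) (.g (nat_lit 0) (.e (nat_lit 106570) (nat_lit 0) .nil) .nil)))))) (.nd (nat_lit 7) (.nd (nat_lit 8) (.nd (nat_lit 9) 
(.lf (nat_lit 478285) (.g (nat_lit 897) (.e (nat_lit 2057) (nat_lit 142) (.e (nat_lit 704599) (nat_lit 6) (.e (nat_lit 188418) (nat_lit 0) (.e (nat_lit 2058) (nat_lit 142) (.e (nat_lit 704598) (nat_lit 6) (.e (nat_lit 188420) (nat_lit 0) .nil)))))) (.g (nat_lit 1) (.e (nat_lit 104109) (nat_lit 0) .nil) .nil))) 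
(.lf (nat_lit 478797) (.g (nat_lit 2429) (.e (nat_lit 2059) (nat_lit 142) (.e (nat_lit 704598) (nat_lit 6) (.e (nat_lit 188446) (nat_lit 21) (.e (nat_lit 164347) (nat_lit 240) (.e (nat_lit 2648) (nat_lit 166) (.e (nat_lit 188418) (nat_lit 0) .nil)))))) (.g (nat_lit 1) (.e (nat_lit 104775) (nat_lit 0) .nil) .nil)))) (.nd (nat_lit 9) 
(.lf (nat_lit 478541) (.g (nat_lit 5245) (.e (nat_lit 2059) (nat_lit 142) (.e (nat_lit 704589) (nat_lit 3) (.e (nat_lit 163975) (nat_lit 30) (.e (nat_lit 573481) (nat_lit 13) (.e (nat_lit 65619) (nat_lit 10) (.e (nat_lit 344117) (nat_lit 21) (.e (nat_lit 516151) (nat_lit 9) (.e (nat_lit 426410) (nat_lit 15) .nil)))))))) (.g (nat_lit 1) (.e (nat_lit 104428) (nat_lit 0) .nil) .nil))) 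
(.lf (nat_lit 479053) (.g (nat_lit 5236) (.e (nat_lit 4506) (nat_lit 263) (.e (nat_lit 2619) (nat_lit 164) (.e (nat_lit 172064) (nat_lit 2) (.e (nat_lit 196666) (nat_lit 13) (.e (nat_lit 65610) (nat_lit 10) (.e (nat_lit 344117) (nat_lit 21) (.e (nat_lit 516097) (nat_lit 0) (.e (nat_lit 2409) (nat_lit 157) .nil)))))))) (.g (nat_lit 1) (.e (nat_lit 106066) (nat_lit 0) .nil) .nil))))) 
(.nd (nat_lit 8) (.nd (nat_lit 9) 
(.lf (nat_lit 478413) (.g (nat_lit 5283) (.e (nat_lit 2058) (nat_lit 142) (.e (nat_lit 704589) (nat_lit 3) (.e (nat_lit 163978) (nat_lit 30) (.e (nat_lit 573485) (nat_lit 13) (.e (nat_lit 65619) (nat_lit 10) (.e (nat_lit 344117) (nat_lit 21) (.e (nat_lit 516151) (nat_lit 9) (.e (nat_lit 426410) (nat_lit 15) .nil)))))))) (.g (nat_lit 1) (.e (nat_lit 104253) (nat_lit 0) .nil) .nil))) 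
(.lf (nat_lit 478925) (.g (nat_lit 2790) (.e (nat_lit 2174) (nat_lit 143) (.e (nat_lit 712752) (nat_lit 29) (.e (nat_lit 442421) (nat_lit 21) (.e (nat_lit 164345) (nat_lit 240) (.e (nat_lit 2648) (nat_lit 166) (.e (nat_lit 188420) (nat_lit 0) .nil)))))) (.g (nat_lit 1) (.e (nat_lit 105125) (nat_lit 0) .nil) .nil)))) (.nd (nat_lit 9) 
(.lf (nat_lit 478669) (.g (nat_lit 4659) (.e (nat_lit 2059) (nat_lit 142) (.e (nat_lit 704589) (nat_lit 3) (.e (nat_lit 163978) (nat_lit 30) (.e (nat_lit 573485) (nat_lit 13) (.e (nat_lit 65604) (nat_lit 9) (.e (nat_lit 336028) (nat_lit 3) (.e (nat_lit 98359) (nat_lit 26) (.e (nat_lit 426410) (nat_lit 15) .nil)))))))) (.g (nat_lit 1) (.e (nat_lit 104583) (nat_lit 0) .nil) .nil))) 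
(.lf (nat_lit 479181) (.g (nat_lit 2661) (.e (nat_lit 5223) (nat_lit 296) (.e (nat_lit 163871) (nat_lit 2) (.e (nat_lit 196656) (nat_lit 11) (.e (nat_lit 16416) (nat_lit 3) (.e (nat_lit 204837) (nat_lit 20) .nil))))) (.g (nat_lit 0) (.e (nat_lit 107249) (nat_lit 0) .nil) .nil))))))) (.nd (nat_lit 6) (.nd (nat_lit 7) (.nd (nat_lit 8) (.nd (nat_lit 9) 
(.lf (nat_lit 478253) (.g (nat_lit 3388) (.e (nat_lit 2057) (nat_lit 142) (.e (nat_lit 704589) (nat_lit 3) (.e (nat_lit 163979) (nat_lit 30) (.e (nat_lit 573492) (nat_lit 15) (.e (nat_lit 81956) (nat_lit 23) (.e (nat_lit 98355) (nat_lit 26) (.e (nat_lit 426375) (nat_lit 15) .nil))))))) (.g (nat_lit 1) (.e (nat_lit 104051) (nat_lit 0) .nil) .nil))) 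
(.lf (nat_lit 478765) (.g (nat_lit 5342) (.e (nat_lit 2059) (nat_lit 142) (.e (nat_lit 704589) (nat_lit 3) (.e (nat_lit 163979) (nat_lit 30) (.e (nat_lit 573493) (nat_lit 15) (.e (nat_lit 81954) (nat_lit 23) (.e (nat_lit 98359) (nat_lit 26) (.e (nat_lit 426396) (nat_lit 15) .nil))))))) (.g (nat_lit 1) (.e (nat_lit 104696) (nat_lit 0) .nil) .nil)))) (.nd (nat_lit 9) 
(.lf (nat_lit 478509) (.g (nat_lit 2286) (.e (nat_lit 2058) (nat_lit 142) (.e (nat_lit 704598) (nat_lit 6) (.e (nat_lit 188444) (nat_lit 21) (.e (nat_lit 164347) (nat_lit 240) (.e (nat_lit 2648) (nat_lit 166) (.e (nat_lit 188418) (nat_lit 0) .nil)))))) (.g (nat_lit 1) (.e (nat_lit 104396) (nat_lit 0) .nil) .nil))) 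
(.lf (nat_lit 479021) (.g (nat_lit 1482) (.e (nat_lit 3962) (nat_lit 239) (.e (nat_lit 1209) (nat_lit 89) (.e (nat_lit 73781) (nat_lit 32) (.e (nat_lit 2681) (nat_lit 168) (.e (nat_lit 204869) (nat_lit 29) .nil))))) (.g (nat_lit 0) (.e (nat_lit 105537) (nat_lit 0) .nil) .nil))))) (.nd (nat_lit 8) (.nd (nat_lit 9) 
(.lf (nat_lit 478381) (.g (nat_lit 4571) (.e (nat_lit 2058) (nat_lit 142) (.e (nat_lit 704589) (nat_lit 3) (.e (nat_lit 163976) (nat_lit 30) (.e (nat_lit 573492) (nat_lit 15) (.e (nat_lit 81956) (nat_lit 23) (.e (nat_lit 98356) (nat_lit 26) (.e (nat_lit 426393) (nat_lit 15) .nil))))))) (.g (nat_lit 1) (.e (nat_lit 104218) (nat_lit 0) .nil) .nil))) 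
(.lf (nat_lit 478893) (.g (nat_lit 2252) (.e (nat_lit 2174) (nat_lit 143) (.e (nat_lit 712745) (nat_lit 27) (.e (nat_lit 426347) (nat_lit 14) (.e (nat_lit 491570) (nat_lit 13) (.e (nat_lit 393275) (nat_lit 23) (.e (nat_lit 426414) (nat_lit 15) .nil)))))) (.g (nat_lit 1) (.e (nat_lit 105090) (nat_lit 0) .nil) .nil)))) (.nd (nat_lit 9) 
(.lf (nat_lit 478637) (.g (nat_lit 2790) (.e (nat_lit 2059) (nat_lit 142) (.e (nat_lit 704589) (nat_lit 3) (.e (nat_lit 163976) (nat_lit 30) (.e (nat_lit 573491) (nat_lit 15) (.e (nat_lit 81954) (nat_lit 23) (.e (nat_lit 98365) (nat_lit 26) (.e (nat_lit 426413) (nat_lit 15) .nil))))))) (.g (nat_lit 1) (.e (nat_lit 104541) (nat_lit 0) .nil) .nil))) 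
(.lf (nat_lit 479149) (.g (nat_lit 2032) (.e (nat_lit 5219) (nat_lit 296) (.e (nat_lit 163903) (nat_lit 12) (.e (nat_lit 426479) (nat_lit 27) (.e (nat_lit 336434) (nat_lit 30) (.e (nat_lit 450586) (nat_lit 10) (.e (nat_lit 573473) (nat_lit 12) (.e (nat_lit 57350) (nat_lit 0) .nil))))))) (.g (nat_lit 1) (.e (nat_lit 106983) (nat_lit 0) .nil) .nil)))))) 
(.nd (nat_lit 7) (.nd (nat_lit 8) (.nd (nat_lit 9) 
(.lf (nat_lit 478317) (.g (nat_lit 4072) (.e (nat_lit 2058) (nat_lit 142) (.e (nat_lit 704589) (nat_lit 3) (.e (nat_lit 163975) (nat_lit 30) (.e (nat_lit 573492) (nat_lit 15) (.e (nat_lit 81953) (nat_lit 22) (.e (nat_lit 90170) (nat_lit 13) (.e (nat_lit 172136) (nat_lit 15) .nil))))))) (.g (nat_lit 1) (.e (nat_lit 104147) (nat_lit 0) .nil) .nil))) 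
(.lf (nat_lit 478829) (.g (nat_lit 905) (.e (nat_lit 2143) (nat_lit 142) (.e (nat_lit 704597) (nat_lit 6) (.e (nat_lit 188417) (nat_lit 0) (.e (nat_lit 2147) (nat_lit 142) (.e (nat_lit 704597) (nat_lit 6) (.e (nat_lit 188417) (nat_lit 0) .nil)))))) (.g (nat_lit 1) (.e (nat_lit 104894) (nat_lit 0) .nil) .nil)))) (.nd (nat_lit 9) 
(.lf (nat_lit 478573) (.g (nat_lit 4906) (.e (nat_lit 2059) (nat_lit 142) (.e (nat_lit 704589) (nat_lit 3) (.e (nat_lit 163975) (nat_lit 30) (.e (nat_lit 573492) (nat_lit 15) (.e (nat_lit 81951) (nat_lit 22) (.e (nat_lit 90169) (nat_lit 13) (.e (nat_lit 172133) (nat_lit 15) .nil))))))) (.g (nat_lit 1) (.e (nat_lit 104467) (nat_lit 0) .nil) .nil))) 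
(.lf (nat_lit 479085) (.g (nat_lit 3484) (.e (nat_lit 4761) (nat_lit 281) (.e (nat_lit 2461) (nat_lit 157) (.e (nat_lit 2666) (nat_lit 167) (.e (nat_lit 196666) (nat_lit 13) (.e (nat_lit 65610) (nat_lit 10) (.e (nat_lit 344117) (nat_lit 21) (.e (nat_lit 516151) (nat_lit 9) (.e (nat_lit 426023) (nat_lit 0) (.e (nat_lit 2403) (nat_lit 157) .nil))))))))) (.g (nat_lit 1) (.e (nat_lit 106406) (nat_lit 0) .nil) .nil))))) 
(.nd (nat_lit 8) (.nd (nat_lit 9) 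
(.lf (nat_lit 478445) (.g (nat_lit 4248) (.e (nat_lit 2058) (nat_lit 142) (.e (nat_lit 704589) (nat_lit 3) (.e (nat_lit 163979) (nat_lit 30) (.e (nat_lit 573491) (nat_lit 15) (.e (nat_lit 81954) (nat_lit 23) (.e (nat_lit 98356) (nat_lit 26) (.e (nat_lit 426374) (nat_lit 15) .nil))))))) (.g (nat_lit 1) (.e (nat_lit 104285) (nat_lit 0) .nil) .nil))) 
(.lf (nat_lit 478957) (.g (nat_lit 1986) (.e (nat_lit 2175) (nat_lit 143) (.e (nat_lit 712745) (nat_lit 27) (.e (nat_lit 426347) (nat_lit 14) (.e (nat_lit 491571) (nat_lit 13) (.e (nat_lit 393274) (nat_lit 23) (.e (nat_lit 426410) (nat_lit 15) .nil)))))) (.g (nat_lit 1) (.e (nat_lit 105162) (nat_lit 0) .nil) .nil)))) (.nd (nat_lit 9) 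
(.lf (nat_lit 478701) (.g (nat_lit 2969) (.e (nat_lit 2059) (nat_lit 142) (.e (nat_lit 704589) (nat_lit 3) (.e (nat_lit 163979) (nat_lit 30) (.e (nat_lit 573482) (nat_lit 13) (.e (nat_lit 65604) (nat_lit 9) (.e (nat_lit 336028) (nat_lit 3) (.e (nat_lit 98359) (nat_lit 26) (.e (nat_lit 426414) (nat_lit 15) .nil)))))))) (.g (nat_lit 1) (.e (nat_lit 104616) (nat_lit 0) .nil) .nil))) 
(.lf (nat_lit 479213) (.g (nat_lit 2878) (.e (nat_lit 5224) (nat_lit 296) (.e (nat_lit 163868) (nat_lit 2) (.e (nat_lit 196656) (nat_lit 11) (.e (nat_lit 16465) (nat_lit 13) (.e (nat_lit 483339) (nat_lit 9) .nil))))) (.g (nat_lit 0) (.e (nat_lit 107423) (nat_lit 0) .nil) .nil)))))))) (.nd (nat_lit 5) (.nd (nat_lit 6) (.nd (nat_lit 7) (.nd (nat_lit 8) (.nd (nat_lit 9) 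
(.lf (nat_lit 478237) (.g (nat_lit 2829) (.e (nat_lit 2057) (nat_lit 142) (.e (nat_lit 704589) (nat_lit 3) (.e (nat_lit 163976) (nat_lit 30) (.e (nat_lit 573491) (nat_lit 15) (.e (nat_lit 81954) (nat_lit 23) (.e (nat_lit 98356) (nat_lit 26) (.e (nat_lit 426416) (nat_lit 15) .nil))))))) (.g (nat_lit 1) (.e (nat_lit 104035) (nat_lit 0) .nil) .nil))) 
(.lf (nat_lit 478749) (.g (nat_lit 3346) (.e (nat_lit 2059) (nat_lit 142) (.e (nat_lit 704589) (nat_lit 3) (.e (nat_lit 163979) (nat_lit 30) (.e (nat_lit 573491) (nat_lit 15) (.e (nat_lit 81954) (nat_lit 23) (.e (nat_lit 98363) (nat_lit 26) (.e (nat_lit 426419) (nat_lit 15) .nil))))))) (.g (nat_lit 1) (.e (nat_lit 104664) (nat_lit 0) .nil) .nil)))) (.nd (nat_lit 9) 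
(.lf (nat_lit 478493) (.g (nat_lit 4770) (.e (nat_lit 2058) (nat_lit 142) (.e (nat_lit 704589) (nat_lit 3) (.e (nat_lit 163979) (nat_lit 30) (.e (nat_lit 573493) (nat_lit 15) (.e (nat_lit 81956) (nat_lit 23) (.e (nat_lit 98363) (nat_lit 26) (.e (nat_lit 426419) (nat_lit 15) .nil))))))) (.g (nat_lit 1) (.e (nat_lit 104335) (nat_lit 0) .nil) .nil))) 
(.lf (nat_lit 479005) (.g (nat_lit 1454) (.e (nat_lit 3925) (nat_lit 239) (.e (nat_lit 1200) (nat_lit 88) (.e (nat_lit 65630) (nat_lit 14) (.e (nat_lit 401425) (nat_lit 2) .nil)))) (.g (nat_lit 0) (.e (nat_lit 105405) (nat_lit 0) .nil) .nil))))) (.nd (nat_lit 8) (.nd (nat_lit 9) 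
(.lf (nat_lit 478365) (.g (nat_lit 2486) (.e (nat_lit 2058) (nat_lit 142) (.e (nat_lit 704589) (nat_lit 3) (.e (nat_lit 163976) (nat_lit 30) (.e (nat_lit 573491) (nat_lit 15) (.e (nat_lit 81954) (nat_lit 23) (.e (nat_lit 98359) (nat_lit 26) (.e (nat_lit 426414) (nat_lit 15) .nil))))))) (.g (nat_lit 1) (.e (nat_lit 104200) (nat_lit 0) .nil) .nil))) 
(.lf (nat_lit 478877) (.g (nat_lit 2321) (.e (nat_lit 2174) (nat_lit 143) (.e (nat_lit 712745) (nat_lit 27) (.e (nat_lit 426318) (nat_lit 12) (.e (nat_lit 475199) (nat_lit 40) (.e (nat_lit 704598) (nat_lit 6) (.e (nat_lit 188420) (nat_lit 0) .nil)))))) (.g (nat_lit 1) (.e (nat_lit 105073) (nat_lit 0) .nil) .nil)))) (.nd (nat_lit 9) 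
(.lf (nat_lit 478621) (.g (nat_lit 1942) (.e (nat_lit 2059) (nat_lit 142) (.e (nat_lit 704589) (nat_lit 3) (.e (nat_lit 163976) (nat_lit 30) (.e (nat_lit 573491) (nat_lit 15) (.e (nat_lit 81954) (nat_lit 23) (.e (nat_lit 98355) (nat_lit 26) (.e (nat_lit 426376) (nat_lit 15) .nil))))))) (.g (nat_lit 1) (.e (nat_lit 104525) (nat_lit 0) .nil) .nil))) 
(.lf (nat_lit 479133) (.g (nat_lit 867) (.e (nat_lit 5048) (nat_lit 292) (.e (nat_lit 2652) (nat_lit 166) (.e (nat_lit 188434) (nat_lit 20) (.e (nat_lit 3390) (nat_lit 210) .nil)))) (.g (nat_lit 0) (.e (nat_lit 106769) (nat_lit 0) .nil) .nil)))))) (.nd (nat_lit 7) (.nd (nat_lit 8) (.nd (nat_lit 9) 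
(.lf (nat_lit 478301) (.g (nat_lit 1964) (.e (nat_lit 2058) (nat_lit 142) (.e (nat_lit 704589) (nat_lit 3) (.e (nat_lit 163975) (nat_lit 30) (.e (nat_lit 573491) (nat_lit 15) (.e (nat_lit 81954) (nat_lit 23) (.e (nat_lit 98355) (nat_lit 26) (.e (nat_lit 426374) (nat_lit 15) .nil))))))) (.g (nat_lit 1) (.e (nat_lit 104128) (nat_lit 0) .nil) .nil))) 
(.lf (nat_lit 478813) (.g (nat_lit 2132) (.e (nat_lit 2074) (nat_lit 142) (.e (nat_lit 704734) (nat_lit 11) (.e (nat_lit 16416) (nat_lit 3) (.e (nat_lit 204861) (nat_lit 26) (.e (nat_lit 336075) (nat_lit 9) .nil))))) (.g (nat_lit 0) (.e (nat_lit 104797) (nat_lit 0) .nil) .nil)))) (.nd (nat_lit 9) 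
(.lf (nat_lit 478557) (.g (nat_lit 3815) (.e (nat_lit 2059) (nat_lit 142) (.e (nat_lit 704589) (nat_lit 3) (.e (nat_lit 163975) (nat_lit 30) (.e (nat_lit 573491) (nat_lit 15) (.e (nat_lit 81954) (nat_lit 23) (.e (nat_lit 98356) (nat_lit 26) (.e (nat_lit 426393) (nat_lit 15) .nil))))))) (.g (nat_lit 1) (.e (nat_lit 104444) (nat_lit 0) .nil) .nil))) 
(.lf (nat_lit 479069) (.g (nat_lit 3529) (.e (nat_lit 4539) (nat_lit 267) (.e (nat_lit 163869) (nat_lit 2) (.e (nat_lit 196656) (nat_lit 11) (.e (nat_lit 16473) (nat_lit 14) (.e (nat_lit 491582) (nat_lit 27) .nil))))) (.g (nat_lit 0) (.e (nat_lit 106150) (nat_lit 0) .nil) .nil))))) (.nd (nat_lit 8) (.nd (nat_lit 9) 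
(.lf (nat_lit 478429) (.g (nat_lit 3980) (.e (nat_lit 2058) (nat_lit 142) (.e (nat_lit 704589) (nat_lit 3) (.e (nat_lit 163979) (nat_lit 30) (.e (nat_lit 573482) (nat_lit 13) (.e (nat_lit 65619) (nat_lit 10) (.e (nat_lit 344117) (nat_lit 21) (.e (nat_lit 516144) (nat_lit 9) (.e (nat_lit 426420) (nat_lit 15) .nil)))))))) (.g (nat_lit 1) (.e (nat_lit 104269) (nat_lit 0) .nil) .nil))) 
(.lf (nat_lit 478941) (.g (nat_lit 425) (.e (nat_lit 2174) (nat_lit 143) (.e (nat_lit 712755) (nat_lit 30) (.e (nat_lit 458496) (nat_lit 0) .nil))) (.g (nat_lit 0) (.e (nat_lit 105142) (nat_lit 0) .nil) .nil)))) (.nd (nat_lit 9) 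
(.lf (nat_lit 478685) (.g (nat_lit 2796) (.e (nat_lit 2059) (nat_lit 142) (.e (nat_lit 704589) (nat_lit 3) (.e (nat_lit 163978) (nat_lit 30) (.e (nat_lit 573485) (nat_lit 13) (.e (nat_lit 65619) (nat_lit 10) (.e (nat_lit 344117) (nat_lit 21) (.e (nat_lit 516147) (nat_lit 9) (.e (nat_lit 426420) (nat_lit 15) .nil)))))))) (.g (nat_lit 1) (.e (nat_lit 104600) (nat_lit 0) .nil) .nil))) 
(.lf (nat_lit 479197) (.g (nat_lit 2478) (.e (nat_lit 5223) (nat_lit 296) (.e (nat_lit 163882) (nat_lit 4) (.e (nat_lit 213032) (nat_lit 11) (.e (nat_lit 24659) (nat_lit 13) (.e (nat_lit 393283) (nat_lit 24) (.e (nat_lit 434209) (nat_lit 18) .nil)))))) (.g (nat_lit 1) (.e (nat_lit 107289) (nat_lit 0) .nil) .nil))))))) (.nd (nat_lit 6) (.nd (nat_lit 7) (.nd (nat_lit 8) (.nd (nat_lit 9) 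
(.lf (nat_lit 478269) (.g (nat_lit 1152) (.e (nat_lit 2057) (nat_lit 142) (.e (nat_lit 704598) (nat_lit 6) (.e (nat_lit 188439) (nat_lit 20) (.e (nat_lit 3408) (nat_lit 212) (.e (nat_lit 655380) (nat_lit 6) (.e (nat_lit 188420) (nat_lit 0) .nil)))))) (.g (nat_lit 1) (.e (nat_lit 104091) (nat_lit 0) .nil) .nil))) 
(.lf (nat_lit 478781) (.g (nat_lit 4937) (.e (nat_lit 2059) (nat_lit 142) (.e (nat_lit 704589) (nat_lit 3) (.e (nat_lit 163979) (nat_lit 30) (.e (nat_lit 573493) (nat_lit 15) (.e (nat_lit 81956) (nat_lit 23) (.e (nat_lit 98360) (nat_lit 26) (.e (nat_lit 426411) (nat_lit 15) .nil))))))) (.g (nat_lit 1) (.e (nat_lit 104712) (nat_lit 0) .nil) .nil)))) (.nd (nat_lit 9) 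
(.lf (nat_lit 478525) (.g (nat_lit 4264) (.e (nat_lit 2059) (nat_lit 142) (.e (nat_lit 704589) (nat_lit 3) (.e (nat_lit 163975) (nat_lit 30) (.e (nat_lit 573481) (nat_lit 13) (.e (nat_lit 65604) (nat_lit 9) (.e (nat_lit 336028) (nat_lit 3) (.e (nat_lit 98359) (nat_lit 26) (.e (nat_lit 426410) (nat_lit 15) .nil)))))))) (.g (nat_lit 1) (.e (nat_lit 104412) (nat_lit 0) .nil) .nil))) 
(.lf (nat_lit 479037) (.g (nat_lit 2450) (.e (nat_lit 4423) (nat_lit 261) (.e (nat_lit 163869) (nat_lit 2) (.e (nat_lit 196666) (nat_lit 13) (.e (nat_lit 65610) (nat_lit 10) (.e (nat_lit 344129) (nat_lit 26) .nil))))) (.g (nat_lit 0) (.e (nat_lit 105941) (nat_lit 0) .nil) .nil))))) (.nd (nat_lit 8) (.nd (nat_lit 9) 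
(.lf (nat_lit 478397) (.g (nat_lit 4467) (.e (nat_lit 2058) (nat_lit 142) (.e (nat_lit 704589) (nat_lit 3) (.e (nat_lit 163978) (nat_lit 30) (.e (nat_lit 573485) (nat_lit 13) (.e (nat_lit 65604) (nat_lit 9) (.e (nat_lit 336028) (nat_lit 3) (.e (nat_lit 98359) (nat_lit 26) (.e (nat_lit 426410) (nat_lit 15) .nil)))))))) (.g (nat_lit 1) (.e (nat_lit 104237) (nat_lit 0) .nil) .nil))) 
(.lf (nat_lit 478909) (.g (nat_lit 3435) (.e (nat_lit 2174) (nat_lit 143) (.e (nat_lit 712745) (nat_lit 27) (.e (nat_lit 426347) (nat_lit 14) (.e (nat_lit 491571) (nat_lit 13) (.e (nat_lit 393269) (nat_lit 23) (.e (nat_lit 426405) (nat_lit 15) .nil)))))) (.g (nat_lit 1) (.e (nat_lit 105106) (nat_lit 0) .nil) .nil)))) (.nd (nat_lit 9) 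
(.lf (nat_lit 478653) (.g (nat_lit 4604) (.e (nat_lit 2059) (nat_lit 142) (.e (nat_lit 704589) (nat_lit 3) (.e (nat_lit 163976) (nat_lit 30) (.e (nat_lit 573492) (nat_lit 15) (.e (nat_lit 81956) (nat_lit 23) (.e (nat_lit 98356) (nat_lit 26) (.e (nat_lit 426420) (nat_lit 15) .nil))))))) (.g (nat_lit 1) (.e (nat_lit 104563) (nat_lit 0) .nil) .nil))) 
(.lf (nat_lit 479165) (.g (nat_lit 1879) (.e (nat_lit 5222) (nat_lit 296) (.e (nat_lit 163933) (nat_lit 17) (.e (nat_lit 466972) (nat_lit 21) (.e (nat_lit 164305) (nat_lit 226) (.e (nat_lit 7936) (nat_lit 90) .nil))))) (.g (nat_lit 0) (.e (nat_lit 107091) (nat_lit 0) .nil) .nil)))))) (.nd (nat_lit 7) (.nd (nat_lit 8) (.nd (nat_lit 9) 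
(.lf (nat_lit 478333) (.g (nat_lit 4055) (.e (nat_lit 2058) (nat_lit 142) (.e (nat_lit 704589) (nat_lit 3) (.e (nat_lit 163975) (nat_lit 30) (.e (nat_lit 573492) (nat_lit 15) (.e (nat_lit 81956) (nat_lit 23) (.e (nat_lit 98359) (nat_lit 26) (.e (nat_lit 426414) (nat_lit 15) .nil))))))) (.g (nat_lit 1) (.e (nat_lit 104165) (nat_lit 0) .nil) .nil))) 
(.lf (nat_lit 478845) (.g (nat_lit 2124) (.e (nat_lit 2147) (nat_lit 142) (.e (nat_lit 704597) (nat_lit 6) (.e (nat_lit 188444) (nat_lit 21) (.e (nat_lit 164347) (nat_lit 240) (.e (nat_lit 2650) (nat_lit 166) (.e (nat_lit 188416) (nat_lit 0) .nil)))))) (.g (nat_lit 1) (.e (nat_lit 104978) (nat_lit 0) .nil) .nil)))) (.nd (nat_lit 9) 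
(.lf (nat_lit 478589) (.g (nat_lit 5105) (.e (nat_lit 2059) (nat_lit 142) (.e (nat_lit 704589) (nat_lit 3) (.e (nat_lit 163975) (nat_lit 30) (.e (nat_lit 573492) (nat_lit 15) (.e (nat_lit 81956) (nat_lit 23) (.e (nat_lit 98356) (nat_lit 26) (.e (nat_lit 426420) (nat_lit 15) .nil))))))) (.g (nat_lit 1) (.e (nat_lit 104488) (nat_lit 0) .nil) .nil))) 
(.lf (nat_lit 479101) (.g (nat_lit 3397) (.e (nat_lit 4849) (nat_lit 285) (.e (nat_lit 163869) (nat_lit 2) (.e (nat_lit 196666) (nat_lit 13) (.e (nat_lit 65610) (nat_lit 10) (.e (nat_lit 344117) (nat_lit 21) (.e (nat_lit 516159) (nat_lit 10) (.e (nat_lit 434201) (nat_lit 18) .nil))))))) (.g (nat_lit 1) (.e (nat_lit 106486) (nat_lit 0) .nil) .nil))))) (.nd (nat_lit 8) (.nd (nat_lit 9) 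
(.lf (nat_lit 478461) (.g (nat_lit 3680) (.e (nat_lit 2058) (nat_lit 142) (.e (nat_lit 704589) (nat_lit 3) (.e (nat_lit 163979) (nat_lit 30) (.e (nat_lit 573492) (nat_lit 15) (.e (nat_lit 81956) (nat_lit 23) (.e (nat_lit 98355) (nat_lit 26) (.e (nat_lit 426375) (nat_lit 15) .nil))))))) (.g (nat_lit 1) (.e (nat_lit 104301) (nat_lit 0) .nil) .nil))) 
(.lf (nat_lit 478973) (.g (nat_lit 2431) (.e (nat_lit 2175) (nat_lit 143) (.e (nat_lit 712752) (nat_lit 29) (.e (nat_lit 442421) (nat_lit 21) (.e (nat_lit 164347) (nat_lit 240) (.e (nat_lit 2650) (nat_lit 166) (.e (nat_lit 188419) (nat_lit 0) .nil)))))) (.g (nat_lit 1) (.e (nat_lit 105178) (nat_lit 0) .nil) .nil)))) (.nd (nat_lit 9) 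
(.lf (nat_lit 478717) (.g (nat_lit 2366) (.e (nat_lit 2059) (nat_lit 142) (.e (nat_lit 704589) (nat_lit 3) (.e (nat_lit 163979) (nat_lit 30) (.e (nat_lit 573482) (nat_lit 13) (.e (nat_lit 65619) (nat_lit 10) (.e (nat_lit 344117) (nat_lit 21) (.e (nat_lit 516147) (nat_lit 9) (.e (nat_lit 426382) (nat_lit 15) .nil)))))))) (.g (nat_lit 1) (.e (nat_lit 104632) (nat_lit 0) .nil) .nil))) 
(.lf (nat_lit 479229) (.g (nat_lit 1907) (.e (nat_lit 5224) (nat_lit 296) (.e (nat_lit 163871) (nat_lit 2) (.e (nat_lit 196655) (nat_lit 11) (.e (nat_lit 16465) (nat_lit 13) (.e (nat_lit 491264) (nat_lit 10) (.e (nat_lit 434213) (nat_lit 18) .nil)))))) (.g (nat_lit 1) (.e (nat_lit 107483) (nat_lit 0) .nil) .nil))))))))))) 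
(.nd (nat_lit 2) (.nd (nat_lit 3) (.nd (nat_lit 4) (.nd (nat_lit 5) (.nd (nat_lit 6) 
(.nd (nat_lit 7) (.nd (nat_lit 8) (.nd (nat_lit 9) 
(.lf (nat_lit 478211) (.g (nat_lit 295) (.e (nat_lit 2056) (nat_lit 142) (.e (nat_lit 704595) (nat_lit 5) (.e (nat_lit 188160) (nat_lit 32) .nil))) (.g (nat_lit 0) (.e (nat_lit 104004) (nat_lit 0) .nil) .nil))) 
(.lf (nat_lit 478723) (.g (nat_lit 4416) (.e (nat_lit 2059) (nat_lit 142) (.e (nat_lit 704589) (nat_lit 3) (.e (nat_lit 163979) (nat_lit 30) (.e (nat_lit 573482) (nat_lit 13) (.e (nat_lit 65619) (nat_lit 10) (.e (nat_lit 344117) (nat_lit 21) (.e (nat_lit 516152) (nat_lit 9) (.e (nat_lit 426396) (nat_lit 15) .nil)))))))) (.g (nat_lit 1) (.e (nat_lit 104638) (nat_lit 0) .nil) .nil)))) 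
(.nd (nat_lit 9) 
(.lf (nat_lit 478467) (.g (nat_lit 4450) (.e (nat_lit 2058) (nat_lit 142) (.e (nat_lit 704589) (nat_lit 3) (.e (nat_lit 163979) (nat_lit 30) (.e (nat_lit 573492) (nat_lit 15) (.e (nat_lit 81956) (nat_lit 23) (.e (nat_lit 98356) (nat_lit 26) (.e (nat_lit 426420) (nat_lit 15) .nil))))))) (.g (nat_lit 1) (.e (nat_lit 104307) (nat_lit 0) .nil) .nil))) 
(.lf (nat_lit 478979) (.g (nat_lit 1657) (.e (nat_lit 2175) (nat_lit 143) (.e (nat_lit 712753) (nat_lit 30) (.e (nat_lit 450561) (nat_lit 0) (.e (nat_lit 5537) (nat_lit 306) (.e (nat_lit 7936) (nat_lit 166) (.e (nat_lit 188418) (nat_lit 0) .nil)))))) (.g (nat_lit 1) (.e (nat_lit 105184) (nat_lit 0) .nil) .nil))))) (.nd (nat_lit 8) (.nd (nat_lit 9) 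
(.lf (nat_lit 478339) (.g (nat_lit 3608) (.e (nat_lit 2058) (nat_lit 142) (.e (nat_lit 704589) (nat_lit 3) (.e (nat_lit 163976) (nat_lit 30) (.e (nat_lit 573481) (nat_lit 13) (.e (nat_lit 65604) (nat_lit 9) (.e (nat_lit 336028) (nat_lit 3) (.e (nat_lit 98359) (nat_lit 26) (.e (nat_lit 426410) (nat_lit 15) .nil)))))))) (.g (nat_lit 1) (.e (nat_lit 104174) (nat_lit 0) .nil) .nil))) 
(.lf (nat_lit 478851) (.g (nat_lit 2591) (.e (nat_lit 2147) (nat_lit 142) (.e (nat_lit 704597) (nat_lit 6) (.e (nat_lit 188455) (nat_lit 24) (.e (nat_lit 229665) (nat_lit 240) (.e (nat_lit 2651) (nat_lit 166) (.e (nat_lit 188417) (nat_lit 0) .nil)))))) (.g (nat_lit 1) (.e (nat_lit 104984) (nat_lit 0) .nil) .nil)))) (.nd (nat_lit 9) 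
(.lf (nat_lit 478595) (.g (nat_lit 5093) (.e (nat_lit 2059) (nat_lit 142) (.e (nat_lit 704589) (nat_lit 3) (.e (nat_lit 163975) (nat_lit 30) (.e (nat_lit 573492) (nat_lit 15) (.e (nat_lit 81956) (nat_lit 23) (.e (nat_lit 98363) (nat_lit 26) (.e (nat_lit 426391) (nat_lit 15) .nil))))))) (.g (nat_lit 1) (.e (nat_lit 104494) (nat_lit 0) .nil) .nil))) 
(.lf (nat_lit 479107) (.g (nat_lit 4354) (.e (nat_lit 4849) (nat_lit 285) (.e (nat_lit 163870) (nat_lit 2) (.e (nat_lit 196666) (nat_lit 13) (.e (nat_lit 65610) (nat_lit 10) (.e (nat_lit 344117) (nat_lit 21) (.e (nat_lit 516160) (nat_lit 10) (.e (nat_lit 434201) (nat_lit 18) .nil))))))) (.g (nat_lit 1) (.e (nat_lit 106495) (nat_lit 0) .nil) .nil)))))) 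
(.nd (nat_lit 7) (.nd (nat_lit 8) (.nd (nat_lit 9) 
(.lf (nat_lit 478275) (.g (nat_lit 2674) (.e (nat_lit 2057) (nat_lit 142) (.e (nat_lit 704598) (nat_lit 6) (.e (nat_lit 188453) (nat_lit 24) (.e (nat_lit 229663) (nat_lit 240) (.e (nat_lit 2653) (nat_lit 166) (.e (nat_lit 188418) (nat_lit 0) .nil)))))) (.g (nat_lit 1) (.e (nat_lit 104099) (nat_lit 0) .nil) .nil))) 
(.lf (nat_lit 478787) (.g (nat_lit 4260) (.e (nat_lit 2059) (nat_lit 142) (.e (nat_lit 704589) (nat_lit 3) (.e (nat_lit 163979) (nat_lit 30) (.e (nat_lit 573493) (nat_lit 15) (.e (nat_lit 81956) (nat_lit 23) (.e (nat_lit 106240) (nat_lit 26) (.e (nat_lit 426391) (nat_lit 15) .nil))))))) (.g (nat_lit 1) (.e (nat_lit 104718) (nat_lit 0) .nil) .nil)))) (.nd (nat_lit 9) 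
(.lf (nat_lit 478531) (.g (nat_lit 3817) (.e (nat_lit 2059) (nat_lit 142) (.e (nat_lit 704589) (nat_lit 3) (.e (nat_lit 163975) (nat_lit 30) (.e (nat_lit 573481) (nat_lit 13) (.e (nat_lit 65619) (nat_lit 10) (.e (nat_lit 344117) (nat_lit 21) (.e (nat_lit 516144) (nat_lit 9) (.e (nat_lit 426374) (nat_lit 15) .nil)))))))) (.g (nat_lit 1) (.e (nat_lit 104418) (nat_lit 0) .nil) .nil))) 
(.lf (nat_lit 479043) (.g (nat_lit 2053) (.e (nat_lit 4425) (nat_lit 261) (.e (nat_lit 163870) (nat_lit 2) (.e (nat_lit 196666) (nat_lit 13) (.e (nat_lit 65610) (nat_lit 10) (.e (nat_lit 344129) (nat_lit 26) .nil))))) (.g (nat_lit 0) (.e (nat_lit 105962) (nat_lit 0) .nil) .nil))))) (.nd (nat_lit 8) (.nd (nat_lit 9) 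
(.lf (nat_lit 478403) (.g (nat_lit 4086) (.e (nat_lit 2058) (nat_lit 142) (.e (nat_lit 704589) (nat_lit 3) (.e (nat_lit 163978) (nat_lit 30) (.e (nat_lit 573485) (nat_lit 13) (.e (nat_lit 65619) (nat_lit 10) (.e (nat_lit 344117) (nat_lit 21) (.e (nat_lit 516144) (nat_lit 9) (.e (nat_lit 426379) (nat_lit 15) .nil)))))))) (.g (nat_lit 1) (.e (nat_lit 104243) (nat_lit 0) .nil) .nil))) 
(.lf (nat_lit 478915) (.g (nat_lit 3206) (.e (nat_lit 2174) (nat_lit 143) (.e (nat_lit 712745) (nat_lit 27) (.e (nat_lit 426347) (nat_lit 14) (.e (nat_lit 491571) (nat_lit 13) (.e (nat_lit 393275) (nat_lit 23) (.e (nat_lit 426380) (nat_lit 15) .nil)))))) (.g (nat_lit 1) (.e (nat_lit 105112) (nat_lit 0) .nil) .nil)))) (.nd (nat_lit 9) 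
(.lf (nat_lit 478659) (.g (nat_lit 3300) (.e (nat_lit 2059) (nat_lit 142) (.e (nat_lit 704589) (nat_lit 3) (.e (nat_lit 163978) (nat_lit 30) (.e (nat_lit 573479) (nat_lit 13) (.e (nat_lit 65604) (nat_lit 9) .nil))))) (.g (nat_lit 0) (.e (nat_lit 104573) (nat_lit 0) .nil) .nil))) 
(.lf (nat_lit 479171) (.g (nat_lit 1530) (.e (nat_lit 5223) (nat_lit 296) (.e (nat_lit 163868) (nat_lit 2) (.e (nat_lit 196655) (nat_lit 11) (.e (nat_lit 16465) (nat_lit 13) (.e (nat_lit 491264) (nat_lit 10) (.e (nat_lit 434199) (nat_lit 18) .nil)))))) (.g (nat_lit 1) (.e (nat_lit 107195) (nat_lit 0) .nil) .nil))))))) (.nd (nat_lit 6) (.nd (nat_lit 7) (.nd (nat_lit 8) (.nd (nat_lit 9) 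
(.lf (nat_lit 478243) (.g (nat_lit 4842) (.e (nat_lit 2057) (nat_lit 142) (.e (nat_lit 704589) (nat_lit 3) (.e (nat_lit 163978) (nat_lit 30) (.e (nat_lit 573485) (nat_lit 13) (.e (nat_lit 65604) (nat_lit 9) (.e (nat_lit 336013) (nat_lit 2) (.e (nat_lit 90170) (nat_lit 13) (.e (nat_lit 172138) (nat_lit 15) .nil)))))))) (.g (nat_lit 1) (.e (nat_lit 104041) (nat_lit 0) .nil) .nil))) 
(.lf (nat_lit 478755) (.g (nat_lit 3549) (.e (nat_lit 2059) (nat_lit 142) (.e (nat_lit 704589) (nat_lit 3) (.e (nat_lit 163979) (nat_lit 30) (.e (nat_lit 573492) (nat_lit 15) (.e (nat_lit 81956) (nat_lit 23) (.e (nat_lit 98355) (nat_lit 26) (.e (nat_lit 426393) (nat_lit 15) .nil))))))) (.g (nat_lit 1) (.e (nat_lit 104671) (nat_lit 0) .nil) .nil)))) (.nd (nat_lit 9) 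
(.lf (nat_lit 478499) (.g (nat_lit 3139) (.e (nat_lit 2058) (nat_lit 142) (.e (nat_lit 704592) (nat_lit 4) (.e (nat_lit 172126) (nat_lit 14) (.e (nat_lit 491549) (nat_lit 9) (.e (nat_lit 336430) (nat_lit 29) (.e (nat_lit 442379) (nat_lit 0) .nil)))))) (.g (nat_lit 1) (.e (nat_lit 104354) (nat_lit 0) .nil) .nil))) 
(.lf (nat_lit 479011) (.g (nat_lit 462) (.e (nat_lit 3978) (nat_lit 239) (.e (nat_lit 2638) (nat_lit 165) (.e (nat_lit 188160) (nat_lit 32) .nil))) (.g (nat_lit 0) (.e (nat_lit 105444) (nat_lit 0) .nil) .nil))))) (.nd (nat_lit 8) (.nd (nat_lit 9) 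
(.lf (nat_lit 478371) (.g (nat_lit 3051) (.e (nat_lit 2058) (nat_lit 142) (.e (nat_lit 704589) (nat_lit 3) (.e (nat_lit 163976) (nat_lit 30) (.e (nat_lit 573492) (nat_lit 15) (.e (nat_lit 81956) (nat_lit 23) (.e (nat_lit 98355) (nat_lit 26) (.e (nat_lit 426374) (nat_lit 15) .nil))))))) (.g (nat_lit 1) (.e (nat_lit 104208) (nat_lit 0) .nil) .nil))) 
(.lf (nat_lit 478883) (.g (nat_lit 1939) (.e (nat_lit 2174) (nat_lit 143) (.e (nat_lit 712745) (nat_lit 27) (.e (nat_lit 426347) (nat_lit 14) (.e (nat_lit 491570) (nat_lit 13) (.e (nat_lit 393267) (nat_lit 23) .nil))))) (.g (nat_lit 0) (.e (nat_lit 105080) (nat_lit 0) .nil) .nil)))) (.nd (nat_lit 9) 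
(.lf (nat_lit 478627) (.g (nat_lit 3517) (.e (nat_lit 2059) (nat_lit 142) (.e (nat_lit 704589) (nat_lit 3) (.e (nat_lit 163976) (nat_lit 30) (.e (nat_lit 573491) (nat_lit 15) (.e (nat_lit 81954) (nat_lit 23) (.e (nat_lit 98356) (nat_lit 26) (.e (nat_lit 426416) (nat_lit 15) .nil))))))) (.g (nat_lit 1) (.e (nat_lit 104531) (nat_lit 0) .nil) .nil))) 
(.lf (nat_lit 479139) (.g (nat_lit 2153) (.e (nat_lit 5122) (nat_lit 292) (.e (nat_lit 2649) (nat_lit 166) (.e (nat_lit 188434) (nat_lit 20) (.e (nat_lit 3391) (nat_lit 210) (.e (nat_lit 639008) (nat_lit 13) (.e (nat_lit 1595) (nat_lit 111) (.e (nat_lit 368384) (nat_lit 0) .nil))))))) (.g (nat_lit 1) (.e (nat_lit 106868) (nat_lit 0) .nil) .nil)))))) 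
(.nd (nat_lit 7) (.nd (nat_lit 8) (.nd (nat_lit 9) 
(.lf (nat_lit 478307) (.g (nat_lit 3714) (.e (nat_lit 2058) (nat_lit 142) (.e (nat_lit 704589) (nat_lit 3) (.e (nat_lit 163975) (nat_lit 30) (.e (nat_lit 573491) (nat_lit 15) (.e (nat_lit 81954) (nat_lit 23) (.e (nat_lit 98356) (nat_lit 26) (.e (nat_lit 426374) (nat_lit 15) .nil))))))) (.g (nat_lit 1) (.e (nat_lit 104134) (nat_lit 0) .nil) .nil))) 
(.lf (nat_lit 478819) (.g (nat_lit 2189) (.e (nat_lit 2076) (nat_lit 142) (.e (nat_lit 704734) (nat_lit 11) (.e (nat_lit 16416) (nat_lit 3) (.e (nat_lit 204861) (nat_lit 26) (.e (nat_lit 336076) (nat_lit 9) .nil))))) (.g (nat_lit 0) (.e (nat_lit 104803) (nat_lit 0) .nil) .nil)))) (.nd (nat_lit 9) 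
(.lf (nat_lit 478563) (.g (nat_lit 2852) (.e (nat_lit 2059) (nat_lit 142) (.e (nat_lit 704589) (nat_lit 3) (.e (nat_lit 163975) (nat_lit 30) (.e (nat_lit 573491) (nat_lit 15) (.e (nat_lit 81954) (nat_lit 23) (.e (nat_lit 98360) (nat_lit 26) (.e (nat_lit 426396) (nat_lit 15) .nil))))))) (.g (nat_lit 1) (.e (nat_lit 104450) (nat_lit 0) .nil) .nil))) 
(.lf (nat_lit 479075) (.g (nat_lit 2480) (.e (nat_lit 4539) (nat_lit 267) (.e (nat_lit 163871) (nat_lit 2) (.e (nat_lit 196656) (nat_lit 11) (.e (nat_lit 16425) (nat_lit 7) (.e (nat_lit 409616) (nat_lit 10) .nil))))) (.g (nat_lit 0) (.e (nat_lit 106156) (nat_lit 0) .nil) .nil))))) (.nd (nat_lit 8) (.nd (nat_lit 9) 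
(.lf (nat_lit 478435) (.g (nat_lit 5315) (.e (nat_lit 2058) (nat_lit 142) (.e (nat_lit 704589) (nat_lit 3) (.e (nat_lit 163979) (nat_lit 30) (.e (nat_lit 573482) (nat_lit 13) (.e (nat_lit 65619) (nat_lit 10) (.e (nat_lit 344117) (nat_lit 21) (.e (nat_lit 516151) (nat_lit 9) (.e (nat_lit 426410) (nat_lit 15) .nil)))))))) (.g (nat_lit 1) (.e (nat_lit 104275) (nat_lit 0) .nil) .nil))) 
(.lf (nat_lit 478947) (.g (nat_lit 3592) (.e (nat_lit 2175) (nat_lit 143) (.e (nat_lit 712745) (nat_lit 27) (.e (nat_lit 426347) (nat_lit 14) (.e (nat_lit 491570) (nat_lit 13) (.e (nat_lit 393271) (nat_lit 23) (.e (nat_lit 426376) (nat_lit 15) .nil)))))) (.g (nat_lit 1) (.e (nat_lit 105152) (nat_lit 0) .nil) .nil)))) (.nd (nat_lit 9) 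
(.lf (nat_lit 478691) (.g (nat_lit 480) (.e (nat_lit 2059) (nat_lit 142) (.e (nat_lit 704589) (nat_lit 3) (.e (nat_lit 163979) (nat_lit 30) .nil))) (.g (nat_lit 0) (.e (nat_lit 104606) (nat_lit 0) .nil) .nil))) 
(.lf (nat_lit 479203) (.g (nat_lit 2971) (.e (nat_lit 5224) (nat_lit 296) (.e (nat_lit 163868) (nat_lit 2) (.e (nat_lit 196654) (nat_lit 11) (.e (nat_lit 16436) (nat_lit 9) (.e (nat_lit 426479) (nat_lit 27) (.e (nat_lit 336421) (nat_lit 28) (.e (nat_lit 434212) (nat_lit 18) .nil))))))) (.g (nat_lit 1) (.e (nat_lit 107384) (nat_lit 0) .nil) .nil)))))))) 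
(.nd (nat_lit 5) (.nd (nat_lit 6) (.nd (nat_lit 7) (.nd (nat_lit 8) (.nd (nat_lit 9) 
(.lf (nat_lit 478227) (.g (nat_lit 3233) (.e (nat_lit 2057) (nat_lit 142) (.e (nat_lit 704589) (nat_lit 3) (.e (nat_lit 163975) (nat_lit 30) (.e (nat_lit 573491) (nat_lit 15) (.e (nat_lit 81954) (nat_lit 23) (.e (nat_lit 98359) (nat_lit 26) (.e (nat_lit 426412) (nat_lit 15) .nil))))))) (.g (nat_lit 1) (.e (nat_lit 104024) (nat_lit 0) .nil) .nil))) 
(.lf (nat_lit 478739) (.g (nat_lit 4117) (.e (nat_lit 2059) (nat_lit 142) (.e (nat_lit 704589) (nat_lit 3) (.e (nat_lit 163979) (nat_lit 30) (.e (nat_lit 573491) (nat_lit 15) (.e (nat_lit 81954) (nat_lit 23) (.e (nat_lit 98356) (nat_lit 26) (.e (nat_lit 426416) (nat_lit 15) .nil))))))) (.g (nat_lit 1) (.e (nat_lit 104654) (nat_lit 0) .nil) .nil)))) (.nd (nat_lit 9) 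
(.lf (nat_lit 478483) (.g (nat_lit 5101) (.e (nat_lit 2058) (nat_lit 142) (.e (nat_lit 704589) (nat_lit 3) (.e (nat_lit 163979) (nat_lit 30) (.e (nat_lit 573493) (nat_lit 15) (.e (nat_lit 81956) (nat_lit 23) (.e (nat_lit 98356) (nat_lit 26) (.e (nat_lit 426416) (nat_lit 15) .nil))))))) (.g (nat_lit 1) (.e (nat_lit 104325) (nat_lit 0) .nil) .nil))) 
(.lf (nat_lit 478995) (.g (nat_lit 3427) (.e (nat_lit 2233) (nat_lit 146) (.e (nat_lit 737318) (nat_lit 15) (.e (nat_lit 49189) (nat_lit 11) (.e (nat_lit 16425) (nat_lit 7) (.e (nat_lit 409646) (nat_lit 18) (.e (nat_lit 303133) (nat_lit 9) (.e (nat_lit 426412) (nat_lit 15) .nil))))))) (.g (nat_lit 1) (.e (nat_lit 105272) (nat_lit 0) .nil) .nil))))) (.nd (nat_lit 8) (.nd (nat_lit 9) 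
(.lf (nat_lit 478355) (.g (nat_lit 2368) (.e (nat_lit 2058) (nat_lit 142) (.e (nat_lit 704589) (nat_lit 3) (.e (nat_lit 163976) (nat_lit 30) (.e (nat_lit 573491) (nat_lit 15) (.e (nat_lit 81954) (nat_lit 23) (.e (nat_lit 98355) (nat_lit 26) (.e (nat_lit 426379) (nat_lit 15) .nil))))))) (.g (nat_lit 1) (.e (nat_lit 104190) (nat_lit 0) .nil) .nil))) 
(.lf (nat_lit 478867) (.g (nat_lit 1799) (.e (nat_lit 2160) (nat_lit 143) (.e (nat_lit 712742) (nat_lit 27) (.e (nat_lit 426338) (nat_lit 14) (.e (nat_lit 491570) (nat_lit 13) (.e (nat_lit 393267) (nat_lit 23) (.e (nat_lit 426364) (nat_lit 15) .nil)))))) (.g (nat_lit 1) (.e (nat_lit 105032) (nat_lit 0) .nil) .nil)))) (.nd (nat_lit 9) 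
(.lf (nat_lit 478611) (.g (nat_lit 2173) (.e (nat_lit 2059) (nat_lit 142) (.e (nat_lit 704589) (nat_lit 3) (.e (nat_lit 163976) (nat_lit 30) (.e (nat_lit 573481) (nat_lit 13) (.e (nat_lit 65619) (nat_lit 10) (.e (nat_lit 344117) (nat_lit 21) (.e (nat_lit 516147) (nat_lit 9) (.e (nat_lit 426393) (nat_lit 15) .nil)))))))) (.g (nat_lit 1) (.e (nat_lit 104515) (nat_lit 0) .nil) .nil))) 
(.lf (nat_lit 479123) (.g (nat_lit 1155) (.e (nat_lit 4934) (nat_lit 287) (.e (nat_lit 2579) (nat_lit 161) (.e (nat_lit 40993) (nat_lit 11) (.e (nat_lit 24657) (nat_lit 13) (.e (nat_lit 393259) (nat_lit 21) .nil))))) (.g (nat_lit 0) (.e (nat_lit 106578) (nat_lit 0) .nil) .nil)))))) (.nd (nat_lit 7) (.nd (nat_lit 8) (.nd (nat_lit 9) 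
(.lf (nat_lit 478291) (.g (nat_lit 4050) (.e (nat_lit 2058) (nat_lit 142) (.e (nat_lit 704589) (nat_lit 3) (.e (nat_lit 163975) (nat_lit 30) (.e (nat_lit 573481) (nat_lit 13) (.e (nat_lit 65619) (nat_lit 10) (.e (nat_lit 344117) (nat_lit 21) (.e (nat_lit 516144) (nat_lit 9) (.e (nat_lit 426376) (nat_lit 15) .nil)))))))) (.g (nat_lit 1) (.e (nat_lit 104118) (nat_lit 0) .nil) .nil))) 
(.lf (nat_lit 478803) (.g (nat_lit 2432) (.e (nat_lit 2059) (nat_lit 142) (.e (nat_lit 704599) (nat_lit 6) (.e (nat_lit 188446) (nat_lit 21) (.e (nat_lit 164347) (nat_lit 240) (.e (nat_lit 2648) (nat_lit 166) (.e (nat_lit 188420) (nat_lit 0) .nil)))))) (.g (nat_lit 1) (.e (nat_lit 104781) (nat_lit 0) .nil) .nil)))) (.nd (nat_lit 9) 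
(.lf (nat_lit 478547) (.g (nat_lit 3664) (.e (nat_lit 2059) (nat_lit 142) (.e (nat_lit 704589) (nat_lit 3) (.e (nat_lit 163975) (nat_lit 30) (.e (nat_lit 573491) (nat_lit 15) (.e (nat_lit 81951) (nat_lit 22) (.e (nat_lit 90170) (nat_lit 13) (.e (nat_lit 172136) (nat_lit 15) .nil))))))) (.g (nat_lit 1) (.e (nat_lit 104434) (nat_lit 0) .nil) .nil))) 
(.lf (nat_lit 479059) (.g (nat_lit 1845) (.e (nat_lit 4507) (nat_lit 263) (.e (nat_lit 2619) (nat_lit 164) (.e (nat_lit 172064) (nat_lit 2) (.e (nat_lit 196666) (nat_lit 13) (.e (nat_lit 65610) (nat_lit 10) .nil))))) (.g (nat_lit 0) (.e (nat_lit 106086) (nat_lit 0) .nil) .nil))))) (.nd (nat_lit 8) (.nd (nat_lit 9) 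
(.lf (nat_lit 478419) (.g (nat_lit 2279) (.e (nat_lit 2058) (nat_lit 142) (.e (nat_lit 704589) (nat_lit 3) (.e (nat_lit 163979) (nat_lit 30) (.e (nat_lit 573482) (nat_lit 13) (.e (nat_lit 65604) (nat_lit 9) (.e (nat_lit 336028) (nat_lit 3) (.e (nat_lit 98359) (nat_lit 26) (.e (nat_lit 426380) (nat_lit 15) .nil)))))))) (.g (nat_lit 1) (.e (nat_lit 104259) (nat_lit 0) .nil) .nil))) 
(.lf (nat_lit 478931) (.g (nat_lit 2710) (.e (nat_lit 2174) (nat_lit 143) (.e (nat_lit 712752) (nat_lit 29) (.e (nat_lit 442430) (nat_lit 24) (.e (nat_lit 229663) (nat_lit 240) (.e (nat_lit 2653) (nat_lit 166) (.e (nat_lit 188418) (nat_lit 0) .nil)))))) (.g (nat_lit 1) (.e (nat_lit 105131) (nat_lit 0) .nil) .nil)))) (.nd (nat_lit 9) 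
(.lf (nat_lit 478675) (.g (nat_lit 5950) (.e (nat_lit 2059) (nat_lit 142) (.e (nat_lit 704589) (nat_lit 3) (.e (nat_lit 163978) (nat_lit 30) (.e (nat_lit 573485) (nat_lit 13) (.e (nat_lit 65610) (nat_lit 10) (.e (nat_lit 344117) (nat_lit 21) (.e (nat_lit 516151) (nat_lit 9) (.e (nat_lit 426412) (nat_lit 15) .nil)))))))) (.g (nat_lit 1) (.e (nat_lit 104589) (nat_lit 0) .nil) .nil))) 
(.lf (nat_lit 479187) (.g (nat_lit 1647) (.e (nat_lit 5223) (nat_lit 296) (.e (nat_lit 163871) (nat_lit 2) (.e (nat_lit 196656) (nat_lit 11) (.e (nat_lit 16466) (nat_lit 13) .nil)))) (.g (nat_lit 0) (.e (nat_lit 107263) (nat_lit 0) .nil) .nil))))))) (.nd (nat_lit 6) (.nd (nat_lit 7) (.nd (nat_lit 8) (.nd (nat_lit 9) 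
(.lf (nat_lit 478259) (.g (nat_lit 345) (.e (nat_lit 2057) (nat_lit 142) (.e (nat_lit 704595) (nat_lit 5) (.e (nat_lit 180275) (nat_lit 32) .nil))) (.g (nat_lit 0) (.e (nat_lit 104062) (nat_lit 0) .nil) .nil))) 
(.lf (nat_lit 478771) (.g (nat_lit 4006) (.e (nat_lit 2059) (nat_lit 142) (.e (nat_lit 704589) (nat_lit 3) (.e (nat_lit 163979) (nat_lit 30) (.e (nat_lit 573493) (nat_lit 15) (.e (nat_lit 81956) (nat_lit 23) (.e (nat_lit 98355) (nat_lit 26) (.e (nat_lit 426393) (nat_lit 15) .nil))))))) (.g (nat_lit 1) (.e (nat_lit 104702) (nat_lit 0) .nil) .nil)))) (.nd (nat_lit 9) 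
(.lf (nat_lit 478515) (.g (nat_lit 2194) (.e (nat_lit 2058) (nat_lit 142) (.e (nat_lit 704599) (nat_lit 6) (.e (nat_lit 188446) (nat_lit 21) (.e (nat_lit 164347) (nat_lit 240) (.e (nat_lit 2648) (nat_lit 166) (.e (nat_lit 188420) (nat_lit 0) .nil)))))) (.g (nat_lit 1) (.e (nat_lit 104402) (nat_lit 0) .nil) .nil))) 
(.lf (nat_lit 479027) (.g (nat_lit 546) (.e (nat_lit 4013) (nat_lit 243) (.e (nat_lit 163908) (nat_lit 12) (.e (nat_lit 426338) (nat_lit 14) .nil))) (.g (nat_lit 0) (.e (nat_lit 105580) (nat_lit 0) .nil) .nil))))) (.nd (nat_lit 8) (.nd (nat_lit 9) 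
(.lf (nat_lit 478387) (.g (nat_lit 3887) (.e (nat_lit 2058) (nat_lit 142) (.e (nat_lit 704589) (nat_lit 3) (.e (nat_lit 163976) (nat_lit 30) (.e (nat_lit 573492) (nat_lit 15) (.e (nat_lit 81956) (nat_lit 23) (.e (nat_lit 98362) (nat_lit 26) (.e (nat_lit 426411) (nat_lit 15) .nil))))))) (.g (nat_lit 1) (.e (nat_lit 104224) (nat_lit 0) .nil) .nil))) 
(.lf (nat_lit 478899) (.g (nat_lit 2270) (.e (nat_lit 2174) (nat_lit 143) (.e (nat_lit 712745) (nat_lit 27) (.e (nat_lit 426347) (nat_lit 14) (.e (nat_lit 491571) (nat_lit 13) (.e (nat_lit 393267) (nat_lit 23) (.e (nat_lit 426376) (nat_lit 15) .nil)))))) (.g (nat_lit 1) (.e (nat_lit 105096) (nat_lit 0) .nil) .nil)))) (.nd (nat_lit 9) 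
(.lf (nat_lit 478643) (.g (nat_lit 3871) (.e (nat_lit 2059) (nat_lit 142) (.e (nat_lit 704589) (nat_lit 3) (.e (nat_lit 163976) (nat_lit 30) (.e (nat_lit 573492) (nat_lit 15) (.e (nat_lit 81953) (nat_lit 22) (.e (nat_lit 90170) (nat_lit 13) (.e (nat_lit 172136) (nat_lit 15) .nil))))))) (.g (nat_lit 1) (.e (nat_lit 104547) (nat_lit 0) .nil) .nil))) 
(.lf (nat_lit 479155) (.g (nat_lit 1571) (.e (nat_lit 5222) (nat_lit 296) (.e (nat_lit 163871) (nat_lit 2) (.e (nat_lit 196656) (nat_lit 11) (.e (nat_lit 16465) (nat_lit 13) .nil)))) (.g (nat_lit 0) (.e (nat_lit 107038) (nat_lit 0) .nil) .nil)))))) (.nd (nat_lit 7) (.nd (nat_lit 8) (.nd (nat_lit 9) 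
(.lf (nat_lit 478323) (.g (nat_lit 3843) (.e (nat_lit 2058) (nat_lit 142) (.e (nat_lit 704589) (nat_lit 3) (.e (nat_lit 163975) (nat_lit 30) (.e (nat_lit 573492) (nat_lit 15) (.e (nat_lit 81956) (nat_lit 23) (.e (nat_lit 98355) (nat_lit 26) (.e (nat_lit 426393) (nat_lit 15) .nil))))))) (.g (nat_lit 1) (.e (nat_lit 104155) (nat_lit 0) .nil) .nil))) 
(.lf (nat_lit 478835) (.g (nat_lit 561) (.e (nat_lit 2146) (nat_lit 142) (.e (nat_lit 704597) (nat_lit 6) (.e (nat_lit 188417) (nat_lit 0) (.e (nat_lit 2148) (nat_lit 142) (.e (nat_lit 704597) (nat_lit 6) (.e (nat_lit 188417) (nat_lit 0) .nil)))))) (.g (nat_lit 1) (.e (nat_lit 104944) (nat_lit 0) .nil) .nil)))) (.nd (nat_lit 9) 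
(.lf (nat_lit 478579) (.g (nat_lit 2192) (.e (nat_lit 2059) (nat_lit 142) (.e (nat_lit 704589) (nat_lit 3) (.e (nat_lit 163975) (nat_lit 30) (.e (nat_lit 573492) (nat_lit 15) (.e (nat_lit 81956) (nat_lit 23) (.e (nat_lit 98354) (nat_lit 26) (.e (nat_lit 426396) (nat_lit 15) .nil))))))) (.g (nat_lit 1) (.e (nat_lit 104478) (nat_lit 0) .nil) .nil))) 
(.lf (nat_lit 479091) (.g (nat_lit 1981) (.e (nat_lit 4823) (nat_lit 281) (.e (nat_lit 2555) (nat_lit 159) (.e (nat_lit 24653) (nat_lit 12) (.e (nat_lit 385102) (nat_lit 50) (.e (nat_lit 786483) (nat_lit 30) (.e (nat_lit 360451) (nat_lit 0) .nil)))))) (.g (nat_lit 1) (.e (nat_lit 106427) (nat_lit 0) .nil) .nil))))) (.nd (nat_lit 8) (.nd (nat_lit 9) 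
(.lf (nat_lit 478451) (.g (nat_lit 3994) (.e (nat_lit 2058) (nat_lit 142) (.e (nat_lit 704589) (nat_lit 3) (.e (nat_lit 163979) (nat_lit 30) (.e (nat_lit 573491) (nat_lit 15) (.e (nat_lit 81954) (nat_lit 23) (.e (nat_lit 98356) (nat_lit 26) (.e (nat_lit 426420) (nat_lit 15) .nil))))))) (.g (nat_lit 1) (.e (nat_lit 104291) (nat_lit 0) .nil) .nil))) 
(.lf (nat_lit 478963) (.g (nat_lit 1598) (.e (nat_lit 2175) (nat_lit 143) (.e (nat_lit 712750) (nat_lit 29) (.e (nat_lit 442421) (nat_lit 21) (.e (nat_lit 164346) (nat_lit 240) (.e (nat_lit 2648) (nat_lit 166) (.e (nat_lit 188420) (nat_lit 0) .nil)))))) (.g (nat_lit 1) (.e (nat_lit 105168) (nat_lit 0) .nil) .nil)))) (.nd (nat_lit 9) 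
(.lf (nat_lit 478707) (.g (nat_lit 2038) (.e (nat_lit 2059) (nat_lit 142) (.e (nat_lit 704589) (nat_lit 3) (.e (nat_lit 163979) (nat_lit 30) (.e (nat_lit 573482) (nat_lit 13) (.e (nat_lit 65616) (nat_lit 10) (.e (nat_lit 344105) (nat_lit 19) (.e (nat_lit 499919) (nat_lit 9) (.e (nat_lit 172138) (nat_lit 15) .nil)))))))) (.g (nat_lit 1) (.e (nat_lit 104622) (nat_lit 0) .nil) .nil))) 
(.lf (nat_lit 479219) (.g (nat_lit 3000) (.e (nat_lit 5224) (nat_lit 296) (.e (nat_lit 163871) (nat_lit 2) (.e (nat_lit 196654) (nat_lit 11) (.e (nat_lit 16436) (nat_lit 9) (.e (nat_lit 426479) (nat_lit 27) (.e (nat_lit 336421) (nat_lit 28) (.e (nat_lit 434212) (nat_lit 18) .nil))))))) (.g (nat_lit 1) (.e (nat_lit 107454) (nat_lit 0) .nil) .nil))))))))) 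
(.nd (nat_lit 4) (.nd (nat_lit 5) (.nd (nat_lit 6) (.nd (nat_lit 7) (.nd (nat_lit 8) 
(.nd (nat_lit 9) 
(.lf (nat_lit 478219) (.g (nat_lit 2059) (.e (nat_lit 2056) (nat_lit 142) (.e (nat_lit 704599) (nat_lit 6) (.e (nat_lit 188455) (nat_lit 24) (.e (nat_lit 229666) (nat_lit 240) (.e (nat_lit 2651) (nat_lit 166) (.e (nat_lit 188420) (nat_lit 0) .nil)))))) (.g (nat_lit 1) (.e (nat_lit 104016) (nat_lit 0) .nil) .nil))) 
(.lf (nat_lit 478731) (.g (nat_lit 2542) (.e (nat_lit 2059) (nat_lit 142) (.e (nat_lit 704589) (nat_lit 3) (.e (nat_lit 163979) (nat_lit 30) (.e (nat_lit 573491) (nat_lit 15) (.e (nat_lit 81954) (nat_lit 23) (.e (nat_lit 98355) (nat_lit 26) (.e (nat_lit 426376) (nat_lit 15) .nil))))))) (.g (nat_lit 1) (.e (nat_lit 104646) (nat_lit 0) .nil) .nil)))) (.nd (nat_lit 9) 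
(.lf (nat_lit 478475) (.g (nat_lit 4147) (.e (nat_lit 2058) (nat_lit 142) (.e (nat_lit 704589) (nat_lit 3) (.e (nat_lit 163979) (nat_lit 30) (.e (nat_lit 573493) (nat_lit 15) (.e (nat_lit 81956) (nat_lit 23) (.e (nat_lit 98355) (nat_lit 26) (.e (nat_lit 426379) (nat_lit 15) .nil))))))) (.g (nat_lit 1) (.e (nat_lit 104317) (nat_lit 0) .nil) .nil))) 
(.lf (nat_lit 478987) (.g (nat_lit 2189) (.e (nat_lit 2175) (nat_lit 143) (.e (nat_lit 712755) (nat_lit 30) (.e (nat_lit 458496) (nat_lit 0) (.e (nat_lit 5546) (nat_lit 306) (.e (nat_lit 2648) (nat_lit 166) (.e (nat_lit 188418) (nat_lit 0) .nil)))))) (.g (nat_lit 1) (.e (nat_lit 105194) (nat_lit 0) .nil) .nil))))) (.nd (nat_lit 8) (.nd (nat_lit 9) 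
(.lf (nat_lit 478347) (.g (nat_lit 2903) (.e (nat_lit 2058) (nat_lit 142) (.e (nat_lit 704589) (nat_lit 3) (.e (nat_lit 163976) (nat_lit 30) (.e (nat_lit 573481) (nat_lit 13) (.e (nat_lit 65619) (nat_lit 10) (.e (nat_lit 344117) (nat_lit 21) (.e (nat_lit 516147) (nat_lit 9) (.e (nat_lit 426376) (nat_lit 15) .nil)))))))) (.g (nat_lit 1) (.e (nat_lit 104182) (nat_lit 0) .nil) .nil))) 
(.lf (nat_lit 478859) (.g (nat_lit 1882) (.e (nat_lit 2148) (nat_lit 142) (.e (nat_lit 704597) (nat_lit 6) (.e (nat_lit 188455) (nat_lit 24) (.e (nat_lit 229666) (nat_lit 240) (.e (nat_lit 2651) (nat_lit 166) (.e (nat_lit 188417) (nat_lit 0) .nil)))))) (.g (nat_lit 1) (.e (nat_lit 105002) (nat_lit 0) .nil) .nil)))) (.nd (nat_lit 9) 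
(.lf (nat_lit 478603) (.g (nat_lit 3899) (.e (nat_lit 2059) (nat_lit 142) (.e (nat_lit 704589) (nat_lit 3) (.e (nat_lit 163976) (nat_lit 30) (.e (nat_lit 573481) (nat_lit 13) (.e (nat_lit 65604) (nat_lit 9) (.e (nat_lit 336028) (nat_lit 3) (.e (nat_lit 98359) (nat_lit 26) (.e (nat_lit 426410) (nat_lit 15) .nil)))))))) (.g (nat_lit 1) (.e (nat_lit 104506) (nat_lit 0) .nil) .nil))) 
(.lf (nat_lit 479115) (.g (nat_lit 2527) (.e (nat_lit 4929) (nat_lit 287) (.e (nat_lit 2797) (nat_lit 180) (.e (nat_lit 303145) (nat_lit 13) (.e (nat_lit 483405) (nat_lit 26) (.e (nat_lit 385099) (nat_lit 49) .nil))))) (.g (nat_lit 0) (.e (nat_lit 106562) (nat_lit 0) .nil) .nil)))))) (.nd (nat_lit 7) (.nd (nat_lit 8) (.nd (nat_lit 9) 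
(.lf (nat_lit 478283) (.g (nat_lit 147) (.e (nat_lit 2057) (nat_lit 142) (.e (nat_lit 704599) (nat_lit 6) (.e (nat_lit 188418) (nat_lit 0) .nil))) (.g (nat_lit 0) (.e (nat_lit 104107) (nat_lit 0) .nil) .nil))) 
(.lf (nat_lit 478795) (.g (nat_lit 2242) (.e (nat_lit 2059) (nat_lit 142) (.e (nat_lit 704598) (nat_lit 6) (.e (nat_lit 188444) (nat_lit 21) (.e (nat_lit 164347) (nat_lit 240) (.e (nat_lit 2650) (nat_lit 166) (.e (nat_lit 188419) (nat_lit 0) .nil)))))) (.g (nat_lit 1) (.e (nat_lit 104773) (nat_lit 0) .nil) .nil)))) (.nd (nat_lit 9) 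
(.lf (nat_lit 478539) (.g (nat_lit 2527) (.e (nat_lit 2059) (nat_lit 142) (.e (nat_lit 704589) (nat_lit 3) (.e (nat_lit 163975) (nat_lit 30) (.e (nat_lit 573481) (nat_lit 13) (.e (nat_lit 65619) (nat_lit 10) (.e (nat_lit 344117) (nat_lit 21) (.e (nat_lit 516147) (nat_lit 9) (.e (nat_lit 426393) (nat_lit 15) .nil)))))))) (.g (nat_lit 1) (.e (nat_lit 104426) (nat_lit 0) .nil) .nil))) 
(.lf (nat_lit 479051) (.g (nat_lit 1519) (.e (nat_lit 7936) (nat_lit 259) (.e (nat_lit 57374) (nat_lit 2) (.e (nat_lit 90170) (nat_lit 13) (.e (nat_lit 172106) (nat_lit 10) .nil)))) (.g (nat_lit 0) (.e (nat_lit 106006) (nat_lit 0) .nil) .nil))))) (.nd (nat_lit 8) (.nd (nat_lit 9) 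
(.lf (nat_lit 478411) (.g (nat_lit 2902) (.e (nat_lit 2058) (nat_lit 142) (.e (nat_lit 704589) (nat_lit 3) (.e (nat_lit 163978) (nat_lit 30) (.e (nat_lit 573485) (nat_lit 13) (.e (nat_lit 65619) (nat_lit 10) (.e (nat_lit 344117) (nat_lit 21) (.e (nat_lit 516147) (nat_lit 9) (.e (nat_lit 426379) (nat_lit 15) .nil)))))))) (.g (nat_lit 1) (.e (nat_lit 104251) (nat_lit 0) .nil) .nil))) 
(.lf (nat_lit 478923) (.g (nat_lit 768) (.e (nat_lit 2174) (nat_lit 143) (.e (nat_lit 712752) (nat_lit 29) (.e (nat_lit 442420) (nat_lit 21) .nil))) (.g (nat_lit 0) (.e (nat_lit 105123) (nat_lit 0) .nil) .nil)))) (.nd (nat_lit 9) 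
(.lf (nat_lit 478667) (.g (nat_lit 6126) (.e (nat_lit 2059) (nat_lit 142) (.e (nat_lit 704589) (nat_lit 3) (.e (nat_lit 163978) (nat_lit 30) (.e (nat_lit 573485) (nat_lit 13) (.e (nat_lit 65604) (nat_lit 9) (.e (nat_lit 336013) (nat_lit 2) (.e (nat_lit 90170) (nat_lit 13) (.e (nat_lit 172136) (nat_lit 15) .nil)))))))) (.g (nat_lit 1) (.e (nat_lit 104581) (nat_lit 0) .nil) .nil))) 
(.lf (nat_lit 479179) (.g (nat_lit 422) (.e (nat_lit 5223) (nat_lit 296) (.e (nat_lit 163871) (nat_lit 2) (.e (nat_lit 196656) (nat_lit 11) .nil))) (.g (nat_lit 0) (.e (nat_lit 107237) (nat_lit 0) .nil) .nil))))))) (.nd (nat_lit 6) (.nd (nat_lit 7) (.nd (nat_lit 8) (.nd (nat_lit 9) 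
(.lf (nat_lit 478251) (.g (nat_lit 3406) (.e (nat_lit 2057) (nat_lit 142) (.e (nat_lit 704589) (nat_lit 3) (.e (nat_lit 163979) (nat_lit 30) (.e (nat_lit 573491) (nat_lit 15) (.e (nat_lit 81954) (nat_lit 23) (.e (nat_lit 98356) (nat_lit 26) (.e (nat_lit 426416) (nat_lit 15) .nil))))))) (.g (nat_lit 1) (.e (nat_lit 104049) (nat_lit 0) .nil) .nil))) 
(.lf (nat_lit 478763) (.g (nat_lit 5565) (.e (nat_lit 2059) (nat_lit 142) (.e (nat_lit 704589) (nat_lit 3) (.e (nat_lit 163979) (nat_lit 30) (.e (nat_lit 573493) (nat_lit 15) (.e (nat_lit 81953) (nat_lit 22) (.e (nat_lit 90167) (nat_lit 13) (.e (nat_lit 172138) (nat_lit 15) .nil))))))) (.g (nat_lit 1) (.e (nat_lit 104689) (nat_lit 0) .nil) .nil)))) (.nd (nat_lit 9) 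
(.lf (nat_lit 478507) (.g (nat_lit 2380) (.e (nat_lit 2058) (nat_lit 142) (.e (nat_lit 704595) (nat_lit 5) (.e (nat_lit 180278) (nat_lit 32) (.e (nat_lit 1428) (nat_lit 108) (.e (nat_lit 336430) (nat_lit 29) (.e (nat_lit 442377) (nat_lit 0) .nil)))))) (.g (nat_lit 1) (.e (nat_lit 104393) (nat_lit 0) .nil) .nil))) 
(.lf (nat_lit 479019) (.g (nat_lit 1290) (.e (nat_lit 3962) (nat_lit 239) (.e (nat_lit 1199) (nat_lit 88) (.e (nat_lit 65630) (nat_lit 14) (.e (nat_lit 401428) (nat_lit 3) .nil)))) (.g (nat_lit 0) (.e (nat_lit 105535) (nat_lit 0) .nil) .nil))))) (.nd (nat_lit 8) (.nd (nat_lit 9) 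
(.lf (nat_lit 478379) (.g (nat_lit 4541) (.e (nat_lit 2058) (nat_lit 142) (.e (nat_lit 704589) (nat_lit 3) (.e (nat_lit 163976) (nat_lit 30) (.e (nat_lit 573492) (nat_lit 15) (.e (nat_lit 81956) (nat_lit 23) (.e (nat_lit 98356) (nat_lit 26) (.e (nat_lit 426376) (nat_lit 15) .nil))))))) (.g (nat_lit 1) (.e (nat_lit 104216) (nat_lit 0) .nil) .nil))) 
(.lf (nat_lit 478891) (.g (nat_lit 2446) (.e (nat_lit 2174) (nat_lit 143) (.e (nat_lit 712745) (nat_lit 27) (.e (nat_lit 426347) (nat_lit 14) (.e (nat_lit 491570) (nat_lit 13) (.e (nat_lit 393275) (nat_lit 23) (.e (nat_lit 426410) (nat_lit 15) .nil)))))) (.g (nat_lit 1) (.e (nat_lit 105088) (nat_lit 0) .nil) .nil)))) (.nd (nat_lit 9) 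
(.lf (nat_lit 478635) (.g (nat_lit 2209) (.e (nat_lit 2059) (nat_lit 142) (.e (nat_lit 704589) (nat_lit 3) (.e (nat_lit 163976) (nat_lit 30) (.e (nat_lit 573491) (nat_lit 15) (.e (nat_lit 81954) (nat_lit 23) (.e (nat_lit 98363) (nat_lit 26) (.e (nat_lit 426391) (nat_lit 15) .nil))))))) (.g (nat_lit 1) (.e (nat_lit 104539) (nat_lit 0) .nil) .nil))) 
(.lf (nat_lit 479147) (.g (nat_lit 569) (.e (nat_lit 5153) (nat_lit 292) (.e (nat_lit 1221) (nat_lit 90) (.e (nat_lit 81959) (nat_lit 24) .nil))) (.g (nat_lit 0) (.e (nat_lit 106951) (nat_lit 0) .nil) .nil)))))) (.nd (nat_lit 7) (.nd (nat_lit 8) (.nd (nat_lit 9) 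
(.lf (nat_lit 478315) (.g (nat_lit 2468) (.e (nat_lit 2058) (nat_lit 142) (.e (nat_lit 704589) (nat_lit 3) (.e (nat_lit 163975) (nat_lit 30) (.e (nat_lit 573491) (nat_lit 15) (.e (nat_lit 81954) (nat_lit 23) (.e (nat_lit 98362) (nat_lit 26) (.e (nat_lit 426412) (nat_lit 15) .nil))))))) (.g (nat_lit 1) (.e (nat_lit 104142) (nat_lit 0) .nil) .nil))) 
(.lf (nat_lit 478827) (.g (nat_lit 1883) (.e (nat_lit 2116) (nat_lit 142) (.e (nat_lit 704738) (nat_lit 11) (.e (nat_lit 16416) (nat_lit 3) (.e (nat_lit 204861) (nat_lit 26) (.e (nat_lit 336194) (nat_lit 12) .nil))))) (.g (nat_lit 0) (.e (nat_lit 104836) (nat_lit 0) .nil) .nil)))) (.nd (nat_lit 9) 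
(.lf (nat_lit 478571) (.g (nat_lit 1260) (.e (nat_lit 2059) (nat_lit 142) (.e (nat_lit 704589) (nat_lit 3) (.e (nat_lit 163975) (nat_lit 30) (.e (nat_lit 573492) (nat_lit 15) .nil)))) (.g (nat_lit 0) (.e (nat_lit 104458) (nat_lit 0) .nil) .nil))) 
(.lf (nat_lit 479083) (.g (nat_lit 2358) (.e (nat_lit 4527) (nat_lit 265) (.e (nat_lit 57375) (nat_lit 2) (.e (nat_lit 90160) (nat_lit 11) (.e (nat_lit 24651) (nat_lit 12) .nil)))) (.g (nat_lit 0) (.e (nat_lit 106188) (nat_lit 0) .nil) .nil))))) (.nd (nat_lit 8) (.nd (nat_lit 9) 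
(.lf (nat_lit 478443) (.g (nat_lit 2918) (.e (nat_lit 2058) (nat_lit 142) (.e (nat_lit 704589) (nat_lit 3) (.e (nat_lit 163979) (nat_lit 30) (.e (nat_lit 573491) (nat_lit 15) (.e (nat_lit 81954) (nat_lit 23) (.e (nat_lit 98355) (nat_lit 26) (.e (nat_lit 426393) (nat_lit 15) .nil))))))) (.g (nat_lit 1) (.e (nat_lit 104283) (nat_lit 0) .nil) .nil))) 
(.lf (nat_lit 478955) (.g (nat_lit 3062) (.e (nat_lit 2175) (nat_lit 143) (.e (nat_lit 712745) (nat_lit 27) (.e (nat_lit 426347) (nat_lit 14) (.e (nat_lit 491571) (nat_lit 13) (.e (nat_lit 393269) (nat_lit 23) (.e (nat_lit 426382) (nat_lit 15) .nil)))))) (.g (nat_lit 1) (.e (nat_lit 105160) (nat_lit 0) .nil) .nil)))) (.nd (nat_lit 9) 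
(.lf (nat_lit 478699) (.g (nat_lit 5629) (.e (nat_lit 2059) (nat_lit 142) (.e (nat_lit 704589) (nat_lit 3) (.e (nat_lit 163979) (nat_lit 30) (.e (nat_lit 573482) (nat_lit 13) (.e (nat_lit 65604) (nat_lit 9) (.e (nat_lit 336028) (nat_lit 3) (.e (nat_lit 98359) (nat_lit 26) (.e (nat_lit 426396) (nat_lit 15) .nil)))))))) (.g (nat_lit 1) (.e (nat_lit 104614) (nat_lit 0) .nil) .nil))) 
(.lf (nat_lit 479211) (.g (nat_lit 2204) (.e (nat_lit 5224) (nat_lit 296) (.e (nat_lit 163868) (nat_lit 2) (.e (nat_lit 196655) (nat_lit 11) (.e (nat_lit 16465) (nat_lit 13) (.e (nat_lit 491264) (nat_lit 13) .nil))))) (.g (nat_lit 0) (.e (nat_lit 107410) (nat_lit 0) .nil) .nil)))))))) (.nd (nat_lit 5) (.nd (nat_lit 6) (.nd (nat_lit 7) (.nd (nat_lit 8) (.nd (nat_lit 9) 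
(.lf (nat_lit 478235) (.g (nat_lit 4347) (.e (nat_lit 2057) (nat_lit 142) (.e (nat_lit 704589) (nat_lit 3) (.e (nat_lit 163976) (nat_lit 30) (.e (nat_lit 573481) (nat_lit 13) (.e (nat_lit 65619) (nat_lit 10) (.e (nat_lit 344117) (nat_lit 21) (.e (nat_lit 516151) (nat_lit 9) (.e (nat_lit 426412) (nat_lit 15) .nil)))))))) (.g (nat_lit 1) (.e (nat_lit 104033) (nat_lit 0) .nil) .nil))) 
(.lf (nat_lit 478747) (.g (nat_lit 2639) (.e (nat_lit 2059) (nat_lit 142) (.e (nat_lit 704589) (nat_lit 3) (.e (nat_lit 163979) (nat_lit 30) (.e (nat_lit 573491) (nat_lit 15) (.e (nat_lit 81954) (nat_lit 23) (.e (nat_lit 98362) (nat_lit 26) (.e (nat_lit 426411) (nat_lit 15) .nil))))))) (.g (nat_lit 1) (.e (nat_lit 104662) (nat_lit 0) .nil) .nil)))) (.nd (nat_lit 9) 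
(.lf (nat_lit 478491) (.g (nat_lit 5750) (.e (nat_lit 2058) (nat_lit 142) (.e (nat_lit 704589) (nat_lit 3) (.e (nat_lit 163979) (nat_lit 30) (.e (nat_lit 573493) (nat_lit 15) (.e (nat_lit 81956) (nat_lit 23) (.e (nat_lit 98362) (nat_lit 26) (.e (nat_lit 426411) (nat_lit 15) .nil))))))) (.g (nat_lit 1) (.e (nat_lit 104333) (nat_lit 0) .nil) .nil))) 
(.lf (nat_lit 479003) (.g (nat_lit 1540) (.e (nat_lit 3931) (nat_lit 239) (.e (nat_lit 2630) (nat_lit 164) (.e (nat_lit 172124) (nat_lit 14) (.e (nat_lit 491540) (nat_lit 3) .nil)))) (.g (nat_lit 0) (.e (nat_lit 105364) (nat_lit 0) .nil) .nil))))) (.nd (nat_lit 8) (.nd (nat_lit 9) 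
(.lf (nat_lit 478363) (.g (nat_lit 3429) (.e (nat_lit 2058) (nat_lit 142) (.e (nat_lit 704589) (nat_lit 3) (.e (nat_lit 163976) (nat_lit 30) (.e (nat_lit 573491) (nat_lit 15) (.e (nat_lit 81954) (nat_lit 23) (.e (nat_lit 98356) (nat_lit 26) (.e (nat_lit 426420) (nat_lit 15) .nil))))))) (.g (nat_lit 1) (.e (nat_lit 104198) (nat_lit 0) .nil) .nil))) 
(.lf (nat_lit 478875) (.g (nat_lit 2126) (.e (nat_lit 2174) (nat_lit 143) (.e (nat_lit 712745) (nat_lit 27) (.e (nat_lit 426318) (nat_lit 12) (.e (nat_lit 475198) (nat_lit 40) (.e (nat_lit 704599) (nat_lit 6) (.e (nat_lit 188418) (nat_lit 0) .nil)))))) (.g (nat_lit 1) (.e (nat_lit 105071) (nat_lit 0) .nil) .nil)))) (.nd (nat_lit 9) 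
(.lf (nat_lit 478619) (.g (nat_lit 2108) (.e (nat_lit 2059) (nat_lit 142) (.e (nat_lit 704589) (nat_lit 3) (.e (nat_lit 163976) (nat_lit 30) (.e (nat_lit 573491) (nat_lit 15) (.e (nat_lit 81954) (nat_lit 23) (.e (nat_lit 98355) (nat_lit 26) (.e (nat_lit 426374) (nat_lit 15) .nil))))))) (.g (nat_lit 1) (.e (nat_lit 104523) (nat_lit 0) .nil) .nil))) 
(.lf (nat_lit 479131) (.g (nat_lit 538) (.e (nat_lit 5019) (nat_lit 290) (.e (nat_lit 164359) (nat_lit 246) (.e (nat_lit 2877) (nat_lit 184) .nil))) (.g (nat_lit 0) (.e (nat_lit 106675) (nat_lit 0) .nil) .nil)))))) (.nd (nat_lit 7) (.nd (nat_lit 8) (.nd (nat_lit 9) 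
(.lf (nat_lit 478299) (.g (nat_lit 3406) (.e (nat_lit 2058) (nat_lit 142) (.e (nat_lit 704589) (nat_lit 3) (.e (nat_lit 163975) (nat_lit 30) (.e (nat_lit 573491) (nat_lit 15) (.e (nat_lit 81951) (nat_lit 22) (.e (nat_lit 90170) (nat_lit 13) (.e (nat_lit 172136) (nat_lit 15) .nil))))))) (.g (nat_lit 1) (.e (nat_lit 104126) (nat_lit 0) .nil) .nil))) 
(.lf (nat_lit 478811) (.g (nat_lit 1952) (.e (nat_lit 2061) (nat_lit 142) (.e (nat_lit 704742) (nat_lit 11) (.e (nat_lit 16436) (nat_lit 9) (.e (nat_lit 426555) (nat_lit 32) (.e (nat_lit 376857) (nat_lit 21) .nil))))) (.g (nat_lit 0) (.e (nat_lit 104792) (nat_lit 0) .nil) .nil)))) (.nd (nat_lit 9) 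
(.lf (nat_lit 478555) (.g (nat_lit 4236) (.e (nat_lit 2059) (nat_lit 142) (.e (nat_lit 704589) (nat_lit 3) (.e (nat_lit 163975) (nat_lit 30) (.e (nat_lit 573491) (nat_lit 15) (.e (nat_lit 81954) (nat_lit 23) (.e (nat_lit 98356) (nat_lit 26) (.e (nat_lit 426374) (nat_lit 15) .nil))))))) (.g (nat_lit 1) (.e (nat_lit 104442) (nat_lit 0) .nil) .nil))) 
(.lf (nat_lit 479067) (.g (nat_lit 1876) (.e (nat_lit 4539) (nat_lit 267) (.e (nat_lit 163869) (nat_lit 2) (.e (nat_lit 196656) (nat_lit 11) (.e (nat_lit 16425) (nat_lit 7) .nil)))) (.g (nat_lit 0) (.e (nat_lit 106148) (nat_lit 0) .nil) .nil))))) (.nd (nat_lit 8) (.nd (nat_lit 9) 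
(.lf (nat_lit 478427) (.g (nat_lit 4429) (.e (nat_lit 2058) (nat_lit 142) (.e (nat_lit 704589) (nat_lit 3) (.e (nat_lit 163979) (nat_lit 30) (.e (nat_lit 573482) (nat_lit 13) (.e (nat_lit 65619) (nat_lit 10) (.e (nat_lit 344117) (nat_lit 21) (.e (nat_lit 516144) (nat_lit 9) (.e (nat_lit 426393) (nat_lit 15) .nil)))))))) (.g (nat_lit 1) (.e (nat_lit 104267) (nat_lit 0) .nil) .nil))) 
(.lf (nat_lit 478939) (.g (nat_lit 2612) (.e (nat_lit 2174) (nat_lit 143) (.e (nat_lit 712755) (nat_lit 30) (.e (nat_lit 450564) (nat_lit 0) (.e (nat_lit 5546) (nat_lit 306) (.e (nat_lit 2648) (nat_lit 166) (.e (nat_lit 188420) (nat_lit 0) .nil)))))) (.g (nat_lit 1) (.e (nat_lit 105140) (nat_lit 0) .nil) .nil)))) (.nd (nat_lit 9) 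
(.lf (nat_lit 478683) (.g (nat_lit 2240) (.e (nat_lit 2059) (nat_lit 142) (.e (nat_lit 704589) (nat_lit 3) (.e (nat_lit 163978) (nat_lit 30) (.e (nat_lit 573485) (nat_lit 13) (.e (nat_lit 65619) (nat_lit 10) (.e (nat_lit 344117) (nat_lit 21) (.e (nat_lit 516147) (nat_lit 9) (.e (nat_lit 426382) (nat_lit 15) .nil)))))))) (.g (nat_lit 1) (.e (nat_lit 104598) (nat_lit 0) .nil) .nil))) 
(.lf (nat_lit 479195) (.g (nat_lit 2356) (.e (nat_lit 5223) (nat_lit 296) (.e (nat_lit 163882) (nat_lit 4) (.e (nat_lit 213030) (nat_lit 11) (.e (nat_lit 24660) (nat_lit 13) (.e (nat_lit 393282) (nat_lit 24) (.e (nat_lit 434209) (nat_lit 18) .nil)))))) (.g (nat_lit 1) (.e (nat_lit 107286) (nat_lit 0) .nil) .nil))))))) (.nd (nat_lit 6) (.nd (nat_lit 7) (.nd (nat_lit 8) (.nd (nat_lit 9) 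
(.lf (nat_lit 478267) (.g (nat_lit 871) (.e (nat_lit 2057) (nat_lit 142) (.e (nat_lit 704598) (nat_lit 6) (.e (nat_lit 188435) (nat_lit 20) (.e (nat_lit 3409) (nat_lit 212) (.e (nat_lit 655380) (nat_lit 6) (.e (nat_lit 188420) (nat_lit 0) .nil)))))) (.g (nat_lit 1) (.e (nat_lit 104089) (nat_lit 0) .nil) .nil))) 
(.lf (nat_lit 478779) (.g (nat_lit 4859) (.e (nat_lit 2059) (nat_lit 142) (.e (nat_lit 704589) (nat_lit 3) (.e (nat_lit 163979) (nat_lit 30) (.e (nat_lit 573493) (nat_lit 15) (.e (nat_lit 81956) (nat_lit 23) (.e (nat_lit 98359) (nat_lit 26) (.e (nat_lit 426410) (nat_lit 15) .nil))))))) (.g (nat_lit 1) (.e (nat_lit 104710) (nat_lit 0) .nil) .nil)))) (.nd (nat_lit 9) 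
(.lf (nat_lit 478523) (.g (nat_lit 5753) (.e (nat_lit 2059) (nat_lit 142) (.e (nat_lit 704589) (nat_lit 3) (.e (nat_lit 163975) (nat_lit 30) (.e (nat_lit 573481) (nat_lit 13) (.e (nat_lit 65604) (nat_lit 9) (.e (nat_lit 336013) (nat_lit 2) (.e (nat_lit 90170) (nat_lit 13) (.e (nat_lit 172136) (nat_lit 15) .nil)))))))) (.g (nat_lit 1) (.e (nat_lit 104410) (nat_lit 0) .nil) .nil))) 
(.lf (nat_lit 479035) (.g (nat_lit 2475) (.e (nat_lit 4421) (nat_lit 261) (.e (nat_lit 163870) (nat_lit 2) (.e (nat_lit 196666) (nat_lit 13) (.e (nat_lit 65610) (nat_lit 10) (.e (nat_lit 344129) (nat_lit 26) .nil))))) (.g (nat_lit 0) (.e (nat_lit 105927) (nat_lit 0) .nil) .nil))))) (.nd (nat_lit 8) (.nd (nat_lit 9) 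
(.lf (nat_lit 478395) (.g (nat_lit 2320) (.e (nat_lit 2058) (nat_lit 142) (.e (nat_lit 704589) (nat_lit 3) (.e (nat_lit 163978) (nat_lit 30) (.e (nat_lit 573485) (nat_lit 13) (.e (nat_lit 65604) (nat_lit 9) (.e (nat_lit 336028) (nat_lit 3) (.e (nat_lit 98359) (nat_lit 26) (.e (nat_lit 426380) (nat_lit 15) .nil)))))))) (.g (nat_lit 1) (.e (nat_lit 104235) (nat_lit 0) .nil) .nil))) 
(.lf (nat_lit 478907) (.g (nat_lit 3415) (.e (nat_lit 2174) (nat_lit 143) (.e (nat_lit 712745) (nat_lit 27) (.e (nat_lit 426347) (nat_lit 14) (.e (nat_lit 491571) (nat_lit 13) (.e (nat_lit 393269) (nat_lit 23) (.e (nat_lit 426378) (nat_lit 15) .nil)))))) (.g (nat_lit 1) (.e (nat_lit 105104) (nat_lit 0) .nil) .nil)))) (.nd (nat_lit 9) 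
(.lf (nat_lit 478651) (.g (nat_lit 4512) (.e (nat_lit 2059) (nat_lit 142) (.e (nat_lit 704589) (nat_lit 3) (.e (nat_lit 163976) (nat_lit 30) (.e (nat_lit 573492) (nat_lit 15) (.e (nat_lit 81956) (nat_lit 23) (.e (nat_lit 98356) (nat_lit 26) (.e (nat_lit 426393) (nat_lit 15) .nil))))))) (.g (nat_lit 1) (.e (nat_lit 104561) (nat_lit 0) .nil) .nil))) 
(.lf (nat_lit 479163) (.g (nat_lit 1510) (.e (nat_lit 5222) (nat_lit 296) (.e (nat_lit 163933) (nat_lit 17) (.e (nat_lit 466971) (nat_lit 21) (.e (nat_lit 164300) (nat_lit 226) .nil)))) (.g (nat_lit 0) (.e (nat_lit 107089) (nat_lit 0) .nil) .nil)))))) (.nd (nat_lit 7) (.nd (nat_lit 8) (.nd (nat_lit 9) 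
(.lf (nat_lit 478331) (.g (nat_lit 3819) (.e (nat_lit 2058) (nat_lit 142) (.e (nat_lit 704589) (nat_lit 3) (.e (nat_lit 163975) (nat_lit 30) (.e (nat_lit 573492) (nat_lit 15) (.e (nat_lit 81956) (nat_lit 23) (.e (nat_lit 98359) (nat_lit 26) (.e (nat_lit 426396) (nat_lit 15) .nil))))))) (.g (nat_lit 1) (.e (nat_lit 104163) (nat_lit 0) .nil) .nil))) 
(.lf (nat_lit 478843) (.g (nat_lit 1608) (.e (nat_lit 2147) (nat_lit 142) (.e (nat_lit 704597) (nat_lit 6) (.e (nat_lit 188444) (nat_lit 21) (.e (nat_lit 164345) (nat_lit 240) (.e (nat_lit 2648) (nat_lit 166) (.e (nat_lit 188416) (nat_lit 0) .nil)))))) (.g (nat_lit 1) (.e (nat_lit 104976) (nat_lit 0) .nil) .nil)))) (.nd (nat_lit 9) 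
(.lf (nat_lit 478587) (.g (nat_lit 4904) (.e (nat_lit 2059) (nat_lit 142) (.e (nat_lit 704589) (nat_lit 3) (.e (nat_lit 163975) (nat_lit 30) (.e (nat_lit 573492) (nat_lit 15) (.e (nat_lit 81956) (nat_lit 23) (.e (nat_lit 98356) (nat_lit 26) (.e (nat_lit 426393) (nat_lit 15) .nil))))))) (.g (nat_lit 1) (.e (nat_lit 104486) (nat_lit 0) .nil) .nil))) 
(.lf (nat_lit 479099) (.g (nat_lit 4196) (.e (nat_lit 4848) (nat_lit 285) (.e (nat_lit 163870) (nat_lit 2) (.e (nat_lit 196666) (nat_lit 13) (.e (nat_lit 65610) (nat_lit 10) (.e (nat_lit 344117) (nat_lit 21) (.e (nat_lit 516151) (nat_lit 9) (.e (nat_lit 426043) (nat_lit 0) (.e (nat_lit 2422) (nat_lit 157) .nil)))))))) (.g (nat_lit 1) (.e (nat_lit 106471) (nat_lit 0) .nil) .nil))))) 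
(.nd (nat_lit 8) (.nd (nat_lit 9) 
(.lf (nat_lit 478459) (.g (nat_lit 2448) (.e (nat_lit 2058) (nat_lit 142) (.e (nat_lit 704589) (nat_lit 3) (.e (nat_lit 163979) (nat_lit 30) (.e (nat_lit 573491) (nat_lit 15) (.e (nat_lit 81954) (nat_lit 23) (.e (nat_lit 98365) (nat_lit 26) (.e (nat_lit 426413) (nat_lit 15) .nil))))))) (.g (nat_lit 1) (.e (nat_lit 104299) (nat_lit 0) .nil) .nil))) 
(.lf (nat_lit 478971) (.g (nat_lit 3296) (.e (nat_lit 2175) (nat_lit 143) (.e (nat_lit 712752) (nat_lit 29) (.e (nat_lit 442421) (nat_lit 21) (.e (nat_lit 164347) (nat_lit 240) (.e (nat_lit 2648) (nat_lit 166) (.e (nat_lit 188418) (nat_lit 0) .nil)))))) (.g (nat_lit 1) (.e (nat_lit 105176) (nat_lit 0) .nil) .nil)))) (.nd (nat_lit 9) 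
(.lf (nat_lit 478715) (.g (nat_lit 3935) (.e (nat_lit 2059) (nat_lit 142) (.e (nat_lit 704589) (nat_lit 3) (.e (nat_lit 163979) (nat_lit 30) (.e (nat_lit 573482) (nat_lit 13) (.e (nat_lit 65619) (nat_lit 10) (.e (nat_lit 344117) (nat_lit 21) (.e (nat_lit 516147) (nat_lit 9) (.e (nat_lit 426375) (nat_lit 15) .nil)))))))) (.g (nat_lit 1) (.e (nat_lit 104630) (nat_lit 0) .nil) .nil))) 
(.lf (nat_lit 479227) (.g (nat_lit 2070) (.e (nat_lit 5224) (nat_lit 296) (.e (nat_lit 163871) (nat_lit 2) (.e (nat_lit 196655) (nat_lit 11) (.e (nat_lit 16465) (nat_lit 13) (.e (nat_lit 483339) (nat_lit 9) (.e (nat_lit 426072) (nat_lit 0) (.e (nat_lit 2475) (nat_lit 157) .nil))))))) (.g (nat_lit 1) (.e (nat_lit 107481) (nat_lit 0) .nil) .nil)))))))))) 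
(.nd (nat_lit 3) (.nd (nat_lit 4) (.nd (nat_lit 5) (.nd (nat_lit 6) (.nd (nat_lit 7) 
(.nd (nat_lit 8) (.nd (nat_lit 9) 
(.lf (nat_lit 478215) (.g (nat_lit 1117) (.e (nat_lit 2056) (nat_lit 142) (.e (nat_lit 704598) (nat_lit 6) (.e (nat_lit 188439) (nat_lit 20) (.e (nat_lit 3408) (nat_lit 212) (.e (nat_lit 655380) (nat_lit 6) (.e (nat_lit 188420) (nat_lit 0) .nil)))))) (.g (nat_lit 1) (.e (nat_lit 104012) (nat_lit 0) .nil) .nil))) 
(.lf (nat_lit 478727) (.g (nat_lit 1055) (.e (nat_lit 2059) (nat_lit 142) (.e (nat_lit 704589) (nat_lit 3) (.e (nat_lit 163979) (nat_lit 30) (.e (nat_lit 573491) (nat_lit 15) .nil)))) (.g (nat_lit 0) (.e (nat_lit 104642) (nat_lit 0) .nil) .nil)))) (.nd (nat_lit 9) 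
(.lf (nat_lit 478471) (.g (nat_lit 4610) (.e (nat_lit 2058) (nat_lit 142) (.e (nat_lit 704589) (nat_lit 3) (.e (nat_lit 163979) (nat_lit 30) (.e (nat_lit 573493) (nat_lit 15) (.e (nat_lit 81954) (nat_lit 23) (.e (nat_lit 98359) (nat_lit 26) (.e (nat_lit 426412) (nat_lit 15) .nil))))))) (.g (nat_lit 1) (.e (nat_lit 104313) (nat_lit 0) .nil) .nil))) 
(.lf (nat_lit 478983) (.g (nat_lit 2237) (.e (nat_lit 2175) (nat_lit 143) (.e (nat_lit 712755) (nat_lit 30) (.e (nat_lit 450564) (nat_lit 0) (.e (nat_lit 5546) (nat_lit 306) (.e (nat_lit 2648) (nat_lit 166) (.e (nat_lit 188418) (nat_lit 0) .nil)))))) (.g (nat_lit 1) (.e (nat_lit 105189) (nat_lit 0) .nil) .nil))))) (.nd (nat_lit 8) (.nd (nat_lit 9) 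
(.lf (nat_lit 478343) (.g (nat_lit 3797) (.e (nat_lit 2058) (nat_lit 142) (.e (nat_lit 704589) (nat_lit 3) (.e (nat_lit 163976) (nat_lit 30) (.e (nat_lit 573481) (nat_lit 13) (.e (nat_lit 65619) (nat_lit 10) (.e (nat_lit 344117) (nat_lit 21) (.e (nat_lit 516144) (nat_lit 9) (.e (nat_lit 426393) (nat_lit 15) .nil)))))))) (.g (nat_lit 1) (.e (nat_lit 104178) (nat_lit 0) .nil) .nil))) 
(.lf (nat_lit 478855) (.g (nat_lit 2321) (.e (nat_lit 2148) (nat_lit 142) (.e (nat_lit 704591) (nat_lit 4) (.e (nat_lit 172126) (nat_lit 14) (.e (nat_lit 491549) (nat_lit 9) (.e (nat_lit 336430) (nat_lit 29) (.e (nat_lit 442376) (nat_lit 0) .nil)))))) (.g (nat_lit 1) (.e (nat_lit 104989) (nat_lit 0) .nil) .nil)))) (.nd (nat_lit 9) 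
(.lf (nat_lit 478599) (.g (nat_lit 2595) (.e (nat_lit 2059) (nat_lit 142) (.e (nat_lit 704589) (nat_lit 3) (.e (nat_lit 163975) (nat_lit 30) (.e (nat_lit 573493) (nat_lit 15) (.e (nat_lit 81956) (nat_lit 23) .nil))))) (.g (nat_lit 0) (.e (nat_lit 104502) (nat_lit 0) .nil) .nil))) 
(.lf (nat_lit 479111) (.g (nat_lit 2351) (.e (nat_lit 4841) (nat_lit 283) (.e (nat_lit 57373) (nat_lit 2) (.e (nat_lit 90170) (nat_lit 13) (.e (nat_lit 172106) (nat_lit 10) (.e (nat_lit 434231) (nat_lit 23) .nil))))) (.g (nat_lit 0) (.e (nat_lit 106546) (nat_lit 0) .nil) .nil)))))) (.nd (nat_lit 7) (.nd (nat_lit 8) (.nd (nat_lit 9) 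
(.lf (nat_lit 478279) (.g (nat_lit 2944) (.e (nat_lit 2057) (nat_lit 142) (.e (nat_lit 704598) (nat_lit 6) (.e (nat_lit 188455) (nat_lit 24) (.e (nat_lit 229663) (nat_lit 240) (.e (nat_lit 2651) (nat_lit 166) (.e (nat_lit 188420) (nat_lit 0) .nil)))))) (.g (nat_lit 1) (.e (nat_lit 104103) (nat_lit 0) .nil) .nil))) 
(.lf (nat_lit 478791) (.g (nat_lit 586) (.e (nat_lit 2059) (nat_lit 142) (.e (nat_lit 704595) (nat_lit 5) (.e (nat_lit 180287) (nat_lit 45) .nil))) (.g (nat_lit 0) (.e (nat_lit 104766) (nat_lit 0) .nil) .nil)))) (.nd (nat_lit 9) 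
(.lf (nat_lit 478535) (.g (nat_lit 4061) (.e (nat_lit 2059) (nat_lit 142) (.e (nat_lit 704589) (nat_lit 3) (.e (nat_lit 163975) (nat_lit 30) (.e (nat_lit 573481) (nat_lit 13) (.e (nat_lit 65619) (nat_lit 10) (.e (nat_lit 344117) (nat_lit 21) (.e (nat_lit 516144) (nat_lit 9) (.e (nat_lit 426420) (nat_lit 15) .nil)))))))) (.g (nat_lit 1) (.e (nat_lit 104422) (nat_lit 0) .nil) .nil))) 
(.lf (nat_lit 479047) (.g (nat_lit 3699) (.e (nat_lit 4411) (nat_lit 259) (.e (nat_lit 57379) (nat_lit 3) (.e (nat_lit 98350) (nat_lit 24) (.e (nat_lit 409645) (nat_lit 18) (.e (nat_lit 303119) (nat_lit 3) .nil))))) (.g (nat_lit 0) (.e (nat_lit 106002) (nat_lit 0) .nil) .nil))))) (.nd (nat_lit 8) (.nd (nat_lit 9) 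
(.lf (nat_lit 478407) (.g (nat_lit 3841) (.e (nat_lit 2058) (nat_lit 142) (.e (nat_lit 704589) (nat_lit 3) (.e (nat_lit 163978) (nat_lit 30) (.e (nat_lit 573485) (nat_lit 13) (.e (nat_lit 65619) (nat_lit 10) (.e (nat_lit 344117) (nat_lit 21) (.e (nat_lit 516144) (nat_lit 9) (.e (nat_lit 426420) (nat_lit 15) .nil)))))))) (.g (nat_lit 1) (.e (nat_lit 104247) (nat_lit 0) .nil) .nil))) 
(.lf (nat_lit 478919) (.g (nat_lit 2149) (.e (nat_lit 2174) (nat_lit 143) (.e (nat_lit 712745) (nat_lit 27) (.e (nat_lit 426347) (nat_lit 14) (.e (nat_lit 491571) (nat_lit 13) (.e (nat_lit 393279) (nat_lit 23) (.e (nat_lit 426387) (nat_lit 15) .nil)))))) (.g (nat_lit 1) (.e (nat_lit 105116) (nat_lit 0) .nil) .nil)))) (.nd (nat_lit 9) 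
(.lf (nat_lit 478663) (.g (nat_lit 3536) (.e (nat_lit 2059) (nat_lit 142) (.e (nat_lit 704589) (nat_lit 3) (.e (nat_lit 163978) (nat_lit 30) (.e (nat_lit 573479) (nat_lit 13) (.e (nat_lit 65619) (nat_lit 10) (.e (nat_lit 344107) (nat_lit 19) (.e (nat_lit 499916) (nat_lit 9) (.e (nat_lit 172133) (nat_lit 15) .nil)))))))) (.g (nat_lit 1) (.e (nat_lit 104577) (nat_lit 0) .nil) .nil))) 
(.lf (nat_lit 479175) (.g (nat_lit 1221) (.e (nat_lit 5223) (nat_lit 296) (.e (nat_lit 163871) (nat_lit 2) (.e (nat_lit 196653) (nat_lit 11) (.e (nat_lit 16465) (nat_lit 13) .nil)))) (.g (nat_lit 0) (.e (nat_lit 107231) (nat_lit 0) .nil) .nil))))))) (.nd (nat_lit 6) (.nd (nat_lit 7) (.nd (nat_lit 8) (.nd (nat_lit 9) 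
(.lf (nat_lit 478247) (.g (nat_lit 4786) (.e (nat_lit 2057) (nat_lit 142) (.e (nat_lit 704589) (nat_lit 3) (.e (nat_lit 163979) (nat_lit 30) (.e (nat_lit 573482) (nat_lit 13) (.e (nat_lit 65604) (nat_lit 9) (.e (nat_lit 336013) (nat_lit 2) (.e (nat_lit 90170) (nat_lit 13) (.e (nat_lit 172138) (nat_lit 15) .nil)))))))) (.g (nat_lit 1) (.e (nat_lit 104045) (nat_lit 0) .nil) .nil))) 
(.lf (nat_lit 478759) (.g (nat_lit 4390) (.e (nat_lit 2059) (nat_lit 142) (.e (nat_lit 704589) (nat_lit 3) (.e (nat_lit 163979) (nat_lit 30) (.e (nat_lit 573492) (nat_lit 15) (.e (nat_lit 81956) (nat_lit 23) (.e (nat_lit 98356) (nat_lit 26) (.e (nat_lit 426416) (nat_lit 15) .nil))))))) (.g (nat_lit 1) (.e (nat_lit 104675) (nat_lit 0) .nil) .nil)))) (.nd (nat_lit 9) 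
(.lf (nat_lit 478503) (.g (nat_lit 2271) (.e (nat_lit 2058) (nat_lit 142) (.e (nat_lit 704595) (nat_lit 5) (.e (nat_lit 180277) (nat_lit 32) (.e (nat_lit 1428) (nat_lit 108) (.e (nat_lit 336430) (nat_lit 29) (.e (nat_lit 442377) (nat_lit 0) .nil)))))) (.g (nat_lit 1) (.e (nat_lit 104388) (nat_lit 0) .nil) .nil))) 
(.lf (nat_lit 479015) (.g (nat_lit 4263) (.e (nat_lit 3991) (nat_lit 239) (.e (nat_lit 2619) (nat_lit 164) (.e (nat_lit 172126) (nat_lit 14) (.e (nat_lit 491540) (nat_lit 3) (.e (nat_lit 98373) (nat_lit 29) (.e (nat_lit 450560) (nat_lit 0) .nil)))))) (.g (nat_lit 1) (.e (nat_lit 105510) (nat_lit 0) .nil) .nil))))) (.nd (nat_lit 8) (.nd (nat_lit 9) 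
(.lf (nat_lit 478375) (.g (nat_lit 3431) (.e (nat_lit 2058) (nat_lit 142) (.e (nat_lit 704589) (nat_lit 3) (.e (nat_lit 163976) (nat_lit 30) (.e (nat_lit 573492) (nat_lit 15) (.e (nat_lit 81956) (nat_lit 23) (.e (nat_lit 98355) (nat_lit 26) (.e (nat_lit 426393) (nat_lit 15) .nil))))))) (.g (nat_lit 1) (.e (nat_lit 104212) (nat_lit 0) .nil) .nil))) 
(.lf (nat_lit 478887) (.g (nat_lit 4380) (.e (nat_lit 2174) (nat_lit 143) (.e (nat_lit 712745) (nat_lit 27) (.e (nat_lit 426347) (nat_lit 14) (.e (nat_lit 491570) (nat_lit 13) (.e (nat_lit 393271) (nat_lit 23) (.e (nat_lit 426376) (nat_lit 15) .nil)))))) (.g (nat_lit 1) (.e (nat_lit 105084) (nat_lit 0) .nil) .nil)))) (.nd (nat_lit 9) 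
(.lf (nat_lit 478631) (.g (nat_lit 2120) (.e (nat_lit 2059) (nat_lit 142) (.e (nat_lit 704589) (nat_lit 3) (.e (nat_lit 163976) (nat_lit 30) (.e (nat_lit 573491) (nat_lit 15) (.e (nat_lit 81954) (nat_lit 23) (.e (nat_lit 98359) (nat_lit 26) (.e (nat_lit 426414) (nat_lit 15) .nil))))))) (.g (nat_lit 1) (.e (nat_lit 104535) (nat_lit 0) .nil) .nil))) 
(.lf (nat_lit 479143) (.g (nat_lit 1327) (.e (nat_lit 5169) (nat_lit 292) (.e (nat_lit 2649) (nat_lit 166) (.e (nat_lit 188434) (nat_lit 20) (.e (nat_lit 3391) (nat_lit 210) .nil)))) (.g (nat_lit 0) (.e (nat_lit 106926) (nat_lit 0) .nil) .nil)))))) (.nd (nat_lit 7) (.nd (nat_lit 8) (.nd (nat_lit 9) 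
(.lf (nat_lit 478311) (.g (nat_lit 3588) (.e (nat_lit 2058) (nat_lit 142) (.e (nat_lit 704589) (nat_lit 3) (.e (nat_lit 163975) (nat_lit 30) (.e (nat_lit 573491) (nat_lit 15) (.e (nat_lit 81954) (nat_lit 23) (.e (nat_lit 98356) (nat_lit 26) (.e (nat_lit 426416) (nat_lit 15) .nil))))))) (.g (nat_lit 1) (.e (nat_lit 104138) (nat_lit 0) .nil) .nil))) 
(.lf (nat_lit 478823) (.g (nat_lit 2186) (.e (nat_lit 2093) (nat_lit 142) (.e (nat_lit 704734) (nat_lit 11) (.e (nat_lit 16416) (nat_lit 3) (.e (nat_lit 204861) (nat_lit 26) (.e (nat_lit 336076) (nat_lit 9) .nil))))) (.g (nat_lit 0) (.e (nat_lit 104813) (nat_lit 0) .nil) .nil)))) (.nd (nat_lit 9) 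
(.lf (nat_lit 478567) (.g (nat_lit 3228) (.e (nat_lit 2059) (nat_lit 142) (.e (nat_lit 704589) (nat_lit 3) (.e (nat_lit 163975) (nat_lit 30) (.e (nat_lit 573491) (nat_lit 15) (.e (nat_lit 81954) (nat_lit 23) (.e (nat_lit 98363) (nat_lit 26) (.e (nat_lit 426419) (nat_lit 15) .nil))))))) (.g (nat_lit 1) (.e (nat_lit 104454) (nat_lit 0) .nil) .nil))) 
(.lf (nat_lit 479079) (.g (nat_lit 3941) (.e (nat_lit 4539) (nat_lit 267) (.e (nat_lit 163871) (nat_lit 2) (.e (nat_lit 196656) (nat_lit 11) (.e (nat_lit 16473) (nat_lit 14) (.e (nat_lit 491582) (nat_lit 27) (.e (nat_lit 426532) (nat_lit 28) (.e (nat_lit 344096) (nat_lit 18) .nil))))))) (.g (nat_lit 1) (.e (nat_lit 106160) (nat_lit 0) .nil) .nil))))) (.nd (nat_lit 8) (.nd (nat_lit 9) 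
(.lf (nat_lit 478439) (.g (nat_lit 2511) (.e (nat_lit 2058) (nat_lit 142) (.e (nat_lit 704589) (nat_lit 3) (.e (nat_lit 163979) (nat_lit 30) (.e (nat_lit 573491) (nat_lit 15) (.e (nat_lit 81954) (nat_lit 23) (.e (nat_lit 98355) (nat_lit 26) (.e (nat_lit 426374) (nat_lit 15) .nil))))))) (.g (nat_lit 1) (.e (nat_lit 104279) (nat_lit 0) .nil) .nil))) 
(.lf (nat_lit 478951) (.g (nat_lit 3069) (.e (nat_lit 2175) (nat_lit 143) (.e (nat_lit 712745) (nat_lit 27) (.e (nat_lit 426347) (nat_lit 14) (.e (nat_lit 491570) (nat_lit 13) (.e (nat_lit 393279) (nat_lit 23) (.e (nat_lit 426419) (nat_lit 15) .nil)))))) (.g (nat_lit 1) (.e (nat_lit 105156) (nat_lit 0) .nil) .nil)))) (.nd (nat_lit 9) 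
(.lf (nat_lit 478695) (.g (nat_lit 3180) (.e (nat_lit 2059) (nat_lit 142) (.e (nat_lit 704589) (nat_lit 3) (.e (nat_lit 163979) (nat_lit 30) (.e (nat_lit 573481) (nat_lit 13) (.e (nat_lit 65619) (nat_lit 10) (.e (nat_lit 344117) (nat_lit 21) (.e (nat_lit 516151) (nat_lit 9) (.e (nat_lit 426396) (nat_lit 15) .nil)))))))) (.g (nat_lit 1) (.e (nat_lit 104610) (nat_lit 0) .nil) .nil))) 
(.lf (nat_lit 479207) (.g (nat_lit 1365) (.e (nat_lit 5224) (nat_lit 296) (.e (nat_lit 163868) (nat_lit 2) (.e (nat_lit 196654) (nat_lit 11) (.e (nat_lit 16466) (nat_lit 13) (.e (nat_lit 491264) (nat_lit 10) .nil))))) (.g (nat_lit 0) (.e (nat_lit 107400) (nat_lit 0) .nil) .nil)))))))) (.nd (nat_lit 5) (.nd (nat_lit 6) (.nd (nat_lit 7) (.nd (nat_lit 8) (.nd (nat_lit 9) 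
(.lf (nat_lit 478231) (.g (nat_lit 3941) (.e (nat_lit 2057) (nat_lit 142) (.e (nat_lit 704589) (nat_lit 3) (.e (nat_lit 163975) (nat_lit 30) (.e (nat_lit 573492) (nat_lit 15) (.e (nat_lit 81956) (nat_lit 23) (.e (nat_lit 98356) (nat_lit 26) (.e (nat_lit 426416) (nat_lit 15) .nil))))))) (.g (nat_lit 1) (.e (nat_lit 104029) (nat_lit 0) .nil) .nil))) 
(.lf (nat_lit 478743) (.g (nat_lit 2774) (.e (nat_lit 2059) (nat_lit 142) (.e (nat_lit 704589) (nat_lit 3) (.e (nat_lit 163979) (nat_lit 30) (.e (nat_lit 573491) (nat_lit 15) (.e (nat_lit 81954) (nat_lit 23) (.e (nat_lit 98359) (nat_lit 26) (.e (nat_lit 426414) (nat_lit 15) .nil))))))) (.g (nat_lit 1) (.e (nat_lit 104658) (nat_lit 0) .nil) .nil)))) (.nd (nat_lit 9) 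
(.lf (nat_lit 478487) (.g (nat_lit 4667) (.e (nat_lit 2058) (nat_lit 142) (.e (nat_lit 704589) (nat_lit 3) (.e (nat_lit 163979) (nat_lit 30) (.e (nat_lit 573493) (nat_lit 15) (.e (nat_lit 81956) (nat_lit 23) (.e (nat_lit 98359) (nat_lit 26) (.e (nat_lit 426414) (nat_lit 15) .nil))))))) (.g (nat_lit 1) (.e (nat_lit 104329) (nat_lit 0) .nil) .nil))) 
(.lf (nat_lit 478999) (.g (nat_lit 1073) (.e (nat_lit 3929) (nat_lit 239) (.e (nat_lit 2641) (nat_lit 165) (.e (nat_lit 180278) (nat_lit 32) (.e (nat_lit 1235) (nat_lit 91) .nil)))) (.g (nat_lit 0) (.e (nat_lit 105336) (nat_lit 0) .nil) .nil))))) (.nd (nat_lit 8) (.nd (nat_lit 9) 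
(.lf (nat_lit 478359) (.g (nat_lit 3523) (.e (nat_lit 2058) (nat_lit 142) (.e (nat_lit 704589) (nat_lit 3) (.e (nat_lit 163976) (nat_lit 30) (.e (nat_lit 573491) (nat_lit 15) (.e (nat_lit 81954) (nat_lit 23) (.e (nat_lit 98356) (nat_lit 26) (.e (nat_lit 426375) (nat_lit 15) .nil))))))) (.g (nat_lit 1) (.e (nat_lit 104194) (nat_lit 0) .nil) .nil))) 
(.lf (nat_lit 478871) (.g (nat_lit 1841) (.e (nat_lit 2160) (nat_lit 143) (.e (nat_lit 712755) (nat_lit 30) (.e (nat_lit 450565) (nat_lit 0) (.e (nat_lit 5548) (nat_lit 306) (.e (nat_lit 2648) (nat_lit 166) .nil))))) (.g (nat_lit 0) (.e (nat_lit 105039) (nat_lit 0) .nil) .nil)))) (.nd (nat_lit 9) 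
(.lf (nat_lit 478615) (.g (nat_lit 3369) (.e (nat_lit 2059) (nat_lit 142) (.e (nat_lit 704589) (nat_lit 3) (.e (nat_lit 163976) (nat_lit 30) (.e (nat_lit 573481) (nat_lit 13) (.e (nat_lit 65619) (nat_lit 10) (.e (nat_lit 344117) (nat_lit 21) (.e (nat_lit 516152) (nat_lit 9) (.e (nat_lit 426410) (nat_lit 15) .nil)))))))) (.g (nat_lit 1) (.e (nat_lit 104519) (nat_lit 0) .nil) .nil))) 
(.lf (nat_lit 479127) (.g (nat_lit 617) (.e (nat_lit 4979) (nat_lit 287) (.e (nat_lit 2797) (nat_lit 180) (.e (nat_lit 303145) (nat_lit 13) .nil))) (.g (nat_lit 0) (.e (nat_lit 106631) (nat_lit 0) .nil) .nil)))))) (.nd (nat_lit 7) (.nd (nat_lit 8) (.nd (nat_lit 9) 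
(.lf (nat_lit 478295) (.g (nat_lit 3171) (.e (nat_lit 2058) (nat_lit 142) (.e (nat_lit 704589) (nat_lit 3) (.e (nat_lit 163975) (nat_lit 30) (.e (nat_lit 573481) (nat_lit 13) (.e (nat_lit 65619) (nat_lit 10) (.e (nat_lit 344117) (nat_lit 21) (.e (nat_lit 516147) (nat_lit 9) (.e (nat_lit 426375) (nat_lit 15) .nil)))))))) (.g (nat_lit 1) (.e (nat_lit 104122) (nat_lit 0) .nil) .nil))) 
(.lf (nat_lit 478807) (.g (nat_lit 3929) (.e (nat_lit 2061) (nat_lit 142) (.e (nat_lit 704589) (nat_lit 3) (.e (nat_lit 163975) (nat_lit 30) (.e (nat_lit 573492) (nat_lit 15) (.e (nat_lit 81956) (nat_lit 23) (.e (nat_lit 98356) (nat_lit 26) (.e (nat_lit 426363) (nat_lit 15) .nil))))))) (.g (nat_lit 1) (.e (nat_lit 104786) (nat_lit 0) .nil) .nil)))) (.nd (nat_lit 9) 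
(.lf (nat_lit 478551) (.g (nat_lit 3002) (.e (nat_lit 2059) (nat_lit 142) (.e (nat_lit 704589) (nat_lit 3) (.e (nat_lit 163975) (nat_lit 30) (.e (nat_lit 573491) (nat_lit 15) (.e (nat_lit 81954) (nat_lit 23) (.e (nat_lit 98355) (nat_lit 26) (.e (nat_lit 426375) (nat_lit 15) .nil))))))) (.g (nat_lit 1) (.e (nat_lit 104438) (nat_lit 0) .nil) .nil))) 
(.lf (nat_lit 479063) (.g (nat_lit 4019) (.e (nat_lit 4507) (nat_lit 263) (.e (nat_lit 2619) (nat_lit 164) (.e (nat_lit 172064) (nat_lit 2) (.e (nat_lit 196666) (nat_lit 13) (.e (nat_lit 65610) (nat_lit 10) (.e (nat_lit 344117) (nat_lit 21) (.e (nat_lit 516106) (nat_lit 0) (.e (nat_lit 7936) (nat_lit 157) .nil)))))))) (.g (nat_lit 1) (.e (nat_lit 106090) (nat_lit 0) .nil) .nil))))) 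
(.nd (nat_lit 8) (.nd (nat_lit 9) 
(.lf (nat_lit 478423) (.g (nat_lit 4419) (.e (nat_lit 2058) (nat_lit 142) (.e (nat_lit 704589) (nat_lit 3) (.e (nat_lit 163979) (nat_lit 30) (.e (nat_lit 573482) (nat_lit 13) (.e (nat_lit 65619) (nat_lit 10) (.e (nat_lit 344117) (nat_lit 21) (.e (nat_lit 516144) (nat_lit 9) (.e (nat_lit 426375) (nat_lit 15) .nil)))))))) (.g (nat_lit 1) (.e (nat_lit 104263) (nat_lit 0) .nil) .nil))) 
(.lf (nat_lit 478935) (.g (nat_lit 2442) (.e (nat_lit 2174) (nat_lit 143) (.e (nat_lit 712753) (nat_lit 30) (.e (nat_lit 450564) (nat_lit 0) (.e (nat_lit 5546) (nat_lit 306) (.e (nat_lit 2648) (nat_lit 166) (.e (nat_lit 188418) (nat_lit 0) .nil)))))) (.g (nat_lit 1) (.e (nat_lit 105135) (nat_lit 0) .nil) .nil)))) (.nd (nat_lit 9) 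
(.lf (nat_lit 478679) (.g (nat_lit 4097) (.e (nat_lit 2059) (nat_lit 142) (.e (nat_lit 704589) (nat_lit 3) (.e (nat_lit 163978) (nat_lit 30) (.e (nat_lit 573485) (nat_lit 13) (.e (nat_lit 65619) (nat_lit 10) (.e (nat_lit 344117) (nat_lit 21) (.e (nat_lit 516144) (nat_lit 9) (.e (nat_lit 426420) (nat_lit 15) .nil)))))))) (.g (nat_lit 1) (.e (nat_lit 104594) (nat_lit 0) .nil) .nil))) 
(.lf (nat_lit 479191) (.g (nat_lit 1074) (.e (nat_lit 5223) (nat_lit 296) (.e (nat_lit 163881) (nat_lit 4) (.e (nat_lit 213030) (nat_lit 11) (.e (nat_lit 24629) (nat_lit 9) (.e (nat_lit 336434) (nat_lit 30) (.e (nat_lit 450564) (nat_lit 0) .nil)))))) (.g (nat_lit 1) (.e (nat_lit 107282) (nat_lit 0) .nil) .nil))))))) (.nd (nat_lit 6) (.nd (nat_lit 7) (.nd (nat_lit 8) (.nd (nat_lit 9) 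
(.lf (nat_lit 478263) (.g (nat_lit 2119) (.e (nat_lit 2057) (nat_lit 142) (.e (nat_lit 704595) (nat_lit 5) (.e (nat_lit 180278) (nat_lit 32) (.e (nat_lit 1425) (nat_lit 108) (.e (nat_lit 336430) (nat_lit 29) (.e (nat_lit 442379) (nat_lit 0) .nil)))))) (.g (nat_lit 1) (.e (nat_lit 104068) (nat_lit 0) .nil) .nil))) 
(.lf (nat_lit 478775) (.g (nat_lit 5239) (.e (nat_lit 2059) (nat_lit 142) (.e (nat_lit 704589) (nat_lit 3) (.e (nat_lit 163979) (nat_lit 30) (.e (nat_lit 573493) (nat_lit 15) (.e (nat_lit 81956) (nat_lit 23) (.e (nat_lit 98356) (nat_lit 26) (.e (nat_lit 426393) (nat_lit 15) .nil))))))) (.g (nat_lit 1) (.e (nat_lit 104706) (nat_lit 0) .nil) .nil)))) (.nd (nat_lit 9) 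
(.lf (nat_lit 478519) (.g (nat_lit 2471) (.e (nat_lit 2059) (nat_lit 142) (.e (nat_lit 704589) (nat_lit 3) (.e (nat_lit 163962) (nat_lit 25) (.e (nat_lit 532544) (nat_lit 10) (.e (nat_lit 344133) (nat_lit 26) (.e (nat_lit 557098) (nat_lit 13) (.e (nat_lit 179968) (nat_lit 18) (.e (nat_lit 98307) (nat_lit 0) .nil)))))))) (.g (nat_lit 1) (.e (nat_lit 104406) (nat_lit 0) .nil) .nil))) 
(.lf (nat_lit 479031) (.g (nat_lit 3020) (.e (nat_lit 4040) (nat_lit 245) (.e (nat_lit 2630) (nat_lit 164) (.e (nat_lit 172126) (nat_lit 14) (.e (nat_lit 491537) (nat_lit 2) (.e (nat_lit 90170) (nat_lit 13) .nil))))) (.g (nat_lit 0) (.e (nat_lit 105731) (nat_lit 0) .nil) .nil))))) (.nd (nat_lit 8) (.nd (nat_lit 9) 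
(.lf (nat_lit 478391) (.g (nat_lit 2935) (.e (nat_lit 2058) (nat_lit 142) (.e (nat_lit 704589) (nat_lit 3) (.e (nat_lit 163978) (nat_lit 30) (.e (nat_lit 573479) (nat_lit 13) (.e (nat_lit 65619) (nat_lit 10) .nil))))) (.g (nat_lit 0) (.e (nat_lit 104231) (nat_lit 0) .nil) .nil))) 
(.lf (nat_lit 478903) (.g (nat_lit 3705) (.e (nat_lit 2174) (nat_lit 143) (.e (nat_lit 712745) (nat_lit 27) (.e (nat_lit 426347) (nat_lit 14) (.e (nat_lit 491571) (nat_lit 13) (.e (nat_lit 393268) (nat_lit 23) (.e (nat_lit 426376) (nat_lit 15) .nil)))))) (.g (nat_lit 1) (.e (nat_lit 105100) (nat_lit 0) .nil) .nil)))) (.nd (nat_lit 9) 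
(.lf (nat_lit 478647) (.g (nat_lit 3264) (.e (nat_lit 2059) (nat_lit 142) (.e (nat_lit 704589) (nat_lit 3) (.e (nat_lit 163976) (nat_lit 30) (.e (nat_lit 573492) (nat_lit 15) (.e (nat_lit 81956) (nat_lit 23) (.e (nat_lit 98355) (nat_lit 26) (.e (nat_lit 426393) (nat_lit 15) .nil))))))) (.g (nat_lit 1) (.e (nat_lit 104557) (nat_lit 0) .nil) .nil))) 
(.lf (nat_lit 479159) (.g (nat_lit 1336) (.e (nat_lit 5222) (nat_lit 296) (.e (nat_lit 163903) (nat_lit 12) (.e (nat_lit 426479) (nat_lit 27) (.e (nat_lit 336432) (nat_lit 30) (.e (nat_lit 450586) (nat_lit 10) (.e (nat_lit 573478) (nat_lit 12) (.e (nat_lit 65280) (nat_lit 0) .nil))))))) (.g (nat_lit 1) (.e (nat_lit 107063) (nat_lit 0) .nil) .nil)))))) 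
(.nd (nat_lit 7) (.nd (nat_lit 8) (.nd (nat_lit 9) 
(.lf (nat_lit 478327) (.g (nat_lit 4761) (.e (nat_lit 2058) (nat_lit 142) (.e (nat_lit 704589) (nat_lit 3) (.e (nat_lit 163975) (nat_lit 30) (.e (nat_lit 573492) (nat_lit 15) (.e (nat_lit 81956) (nat_lit 23) (.e (nat_lit 98356) (nat_lit 26) (.e (nat_lit 426376) (nat_lit 15) .nil))))))) (.g (nat_lit 1) (.e (nat_lit 104159) (nat_lit 0) .nil) .nil))) 
(.lf (nat_lit 478839) (.g (nat_lit 1446) (.e (nat_lit 2147) (nat_lit 142) (.e (nat_lit 704597) (nat_lit 6) (.e (nat_lit 188441) (nat_lit 20) (.e (nat_lit 3408) (nat_lit 212) (.e (nat_lit 655380) (nat_lit 6) (.e (nat_lit 188416) (nat_lit 0) .nil)))))) (.g (nat_lit 1) (.e (nat_lit 104972) (nat_lit 0) .nil) .nil)))) (.nd (nat_lit 9) 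
(.lf (nat_lit 478583) (.g (nat_lit 3841) (.e (nat_lit 2059) (nat_lit 142) (.e (nat_lit 704589) (nat_lit 3) (.e (nat_lit 163975) (nat_lit 30) (.e (nat_lit 573492) (nat_lit 15) (.e (nat_lit 81956) (nat_lit 23) (.e (nat_lit 98355) (nat_lit 26) (.e (nat_lit 426393) (nat_lit 15) .nil))))))) (.g (nat_lit 1) (.e (nat_lit 104482) (nat_lit 0) .nil) .nil))) 
(.lf (nat_lit 479095) (.g (nat_lit 2662) (.e (nat_lit 4848) (nat_lit 285) (.e (nat_lit 163866) (nat_lit 2) (.e (nat_lit 196666) (nat_lit 13) (.e (nat_lit 65610) (nat_lit 10) (.e (nat_lit 344117) (nat_lit 21) (.e (nat_lit 516151) (nat_lit 9) (.e (nat_lit 426042) (nat_lit 0) (.e (nat_lit 2425) (nat_lit 157) .nil)))))))) (.g (nat_lit 1) (.e (nat_lit 106455) (nat_lit 0) .nil) .nil))))) 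
(.nd (nat_lit 8) (.nd (nat_lit 9) 
(.lf (nat_lit 478455) (.g (nat_lit 2149) (.e (nat_lit 2058) (nat_lit 142) (.e (nat_lit 704589) (nat_lit 3) (.e (nat_lit 163979) (nat_lit 30) (.e (nat_lit 573491) (nat_lit 15) (.e (nat_lit 81954) (nat_lit 23) (.e (nat_lit 98360) (nat_lit 26) (.e (nat_lit 426411) (nat_lit 15) .nil))))))) (.g (nat_lit 1) (.e (nat_lit 104295) (nat_lit 0) .nil) .nil))) 
(.lf (nat_lit 478967) (.g (nat_lit 705) (.e (nat_lit 2175) (nat_lit 143) (.e (nat_lit 712752) (nat_lit 29) (.e (nat_lit 442420) (nat_lit 21) .nil))) (.g (nat_lit 0) (.e (nat_lit 105172) (nat_lit 0) .nil) .nil)))) (.nd (nat_lit 9) 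
(.lf (nat_lit 478711) (.g (nat_lit 4994) (.e (nat_lit 2059) (nat_lit 142) (.e (nat_lit 704589) (nat_lit 3) (.e (nat_lit 163979) (nat_lit 30) (.e (nat_lit 573482) (nat_lit 13) (.e (nat_lit 65619) (nat_lit 10) (.e (nat_lit 344117) (nat_lit 21) (.e (nat_lit 516144) (nat_lit 9) (.e (nat_lit 426375) (nat_lit 15) .nil)))))))) (.g (nat_lit 1) (.e (nat_lit 104626) (nat_lit 0) .nil) .nil))) 
(.lf (nat_lit 479223) (.g (nat_lit 1374) (.e (nat_lit 5224) (nat_lit 296) (.e (nat_lit 163871) (nat_lit 2) (.e (nat_lit 196654) (nat_lit 11) (.e (nat_lit 16466) (nat_lit 13) (.e (nat_lit 491264) (nat_lit 10) .nil))))) (.g (nat_lit 0) (.e (nat_lit 107471) (nat_lit 0) .nil) .nil))))))))) (.nd (nat_lit 4) (.nd (nat_lit 5) (.nd (nat_lit 6) (.nd (nat_lit 7) (.nd (nat_lit 8) (.nd (nat_lit 9) 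
(.lf (nat_lit 478223) (.g (nat_lit 4465) (.e (nat_lit 2057) (nat_lit 142) (.e (nat_lit 704589) (nat_lit 3) (.e (nat_lit 163975) (nat_lit 30) (.e (nat_lit 573484) (nat_lit 13) (.e (nat_lit 65610) (nat_lit 10) (.e (nat_lit 344117) (nat_lit 21) (.e (nat_lit 516151) (nat_lit 9) (.e (nat_lit 426412) (nat_lit 15) .nil)))))))) (.g (nat_lit 1) (.e (nat_lit 104020) (nat_lit 0) .nil) .nil))) 
(.lf (nat_lit 478735) (.g (nat_lit 2887) (.e (nat_lit 2059) (nat_lit 142) (.e (nat_lit 704589) (nat_lit 3) (.e (nat_lit 163979) (nat_lit 30) (.e (nat_lit 573491) (nat_lit 15) (.e (nat_lit 81954) (nat_lit 23) (.e (nat_lit 98355) (nat_lit 26) (.e (nat_lit 426420) (nat_lit 15) .nil))))))) (.g (nat_lit 1) (.e (nat_lit 104650) (nat_lit 0) .nil) .nil)))) (.nd (nat_lit 9) 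
(.lf (nat_lit 478479) (.g (nat_lit 5099) (.e (nat_lit 2058) (nat_lit 142) (.e (nat_lit 704589) (nat_lit 3) (.e (nat_lit 163979) (nat_lit 30) (.e (nat_lit 573493) (nat_lit 15) (.e (nat_lit 81956) (nat_lit 23) (.e (nat_lit 98356) (nat_lit 26) (.e (nat_lit 426375) (nat_lit 15) .nil))))))) (.g (nat_lit 1) (.e (nat_lit 104321) (nat_lit 0) .nil) .nil))) 
(.lf (nat_lit 478991) (.g (nat_lit 1741) (.e (nat_lit 2198) (nat_lit 144) (.e (nat_lit 720941) (nat_lit 22) (.e (nat_lit 90172) (nat_lit 14) (.e (nat_lit 180244) (nat_lit 5) (.e (nat_lit 532503) (nat_lit 1) .nil))))) (.g (nat_lit 0) (.e (nat_lit 105236) (nat_lit 0) .nil) .nil))))) (.nd (nat_lit 8) (.nd (nat_lit 9) 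
(.lf (nat_lit 478351) (.g (nat_lit 3709) (.e (nat_lit 2058) (nat_lit 142) (.e (nat_lit 704589) (nat_lit 3) (.e (nat_lit 163976) (nat_lit 30) (.e (nat_lit 573491) (nat_lit 15) (.e (nat_lit 81951) (nat_lit 22) (.e (nat_lit 90170) (nat_lit 13) (.e (nat_lit 172137) (nat_lit 15) .nil))))))) (.g (nat_lit 1) (.e (nat_lit 104186) (nat_lit 0) .nil) .nil))) 
(.lf (nat_lit 478863) (.g (nat_lit 3559) (.e (nat_lit 2156) (nat_lit 142) (.e (nat_lit 704738) (nat_lit 11) (.e (nat_lit 16425) (nat_lit 7) (.e (nat_lit 409648) (nat_lit 18) (.e (nat_lit 303137) (nat_lit 10) .nil))))) (.g (nat_lit 0) (.e (nat_lit 105021) (nat_lit 0) .nil) .nil)))) (.nd (nat_lit 9) 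
(.lf (nat_lit 478607) (.g (nat_lit 3580) (.e (nat_lit 2059) (nat_lit 142) (.e (nat_lit 704589) (nat_lit 3) (.e (nat_lit 163976) (nat_lit 30) (.e (nat_lit 573481) (nat_lit 13) (.e (nat_lit 65619) (nat_lit 10) (.e (nat_lit 344117) (nat_lit 21) (.e (nat_lit 516144) (nat_lit 9) (.e (nat_lit 426393) (nat_lit 15) .nil)))))))) (.g (nat_lit 1) (.e (nat_lit 104511) (nat_lit 0) .nil) .nil))) 
(.lf (nat_lit 479119) (.g (nat_lit 2387) (.e (nat_lit 4931) (nat_lit 287) (.e (nat_lit 2797) (nat_lit 180) (.e (nat_lit 303145) (nat_lit 13) (.e (nat_lit 483405) (nat_lit 26) (.e (nat_lit 385093) (nat_lit 49) .nil))))) (.g (nat_lit 0) (.e (nat_lit 106572) (nat_lit 0) .nil) .nil)))))) (.nd (nat_lit 7) (.nd (nat_lit 8) (.nd (nat_lit 9) 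
(.lf (nat_lit 478287) (.g (nat_lit 465) (.e (nat_lit 2058) (nat_lit 142) (.e (nat_lit 704589) (nat_lit 3) (.e (nat_lit 163975) (nat_lit 30) .nil))) (.g (nat_lit 0) (.e (nat_lit 104114) (nat_lit 0) .nil) .nil))) 
(.lf (nat_lit 478799) (.g (nat_lit 3413) (.e (nat_lit 2059) (nat_lit 142) (.e (nat_lit 704598) (nat_lit 6) (.e (nat_lit 188453) (nat_lit 24) (.e (nat_lit 229665) (nat_lit 240) (.e (nat_lit 2651) (nat_lit 166) (.e (nat_lit 188420) (nat_lit 0) .nil)))))) (.g (nat_lit 1) (.e (nat_lit 104777) (nat_lit 0) .nil) .nil)))) (.nd (nat_lit 9) 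
(.lf (nat_lit 478543) (.g (nat_lit 3758) (.e (nat_lit 2059) (nat_lit 142) (.e (nat_lit 704589) (nat_lit 3) (.e (nat_lit 163975) (nat_lit 30) (.e (nat_lit 573481) (nat_lit 13) (.e (nat_lit 65619) (nat_lit 10) (.e (nat_lit 344117) (nat_lit 21) (.e (nat_lit 516152) (nat_lit 9) (.e (nat_lit 426410) (nat_lit 15) .nil)))))))) (.g (nat_lit 1) (.e (nat_lit 104430) (nat_lit 0) .nil) .nil))) 
(.lf (nat_lit 479055) (.g (nat_lit 3651) (.e (nat_lit 4506) (nat_lit 263) (.e (nat_lit 2619) (nat_lit 164) (.e (nat_lit 172064) (nat_lit 2) (.e (nat_lit 196666) (nat_lit 13) (.e (nat_lit 65610) (nat_lit 10) (.e (nat_lit 344117) (nat_lit 21) (.e (nat_lit 516098) (nat_lit 0) (.e (nat_lit 2407) (nat_lit 157) .nil)))))))) (.g (nat_lit 1) (.e (nat_lit 106068) (nat_lit 0) .nil) .nil))))) 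
(.nd (nat_lit 8) (.nd (nat_lit 9) 
(.lf (nat_lit 478415) (.g (nat_lit 4873) (.e (nat_lit 2058) (nat_lit 142) (.e (nat_lit 704589) (nat_lit 3) (.e (nat_lit 163979) (nat_lit 30) (.e (nat_lit 573480) (nat_lit 13) (.e (nat_lit 65610) (nat_lit 10) (.e (nat_lit 344117) (nat_lit 21) (.e (nat_lit 516151) (nat_lit 9) (.e (nat_lit 426412) (nat_lit 15) .nil)))))))) (.g (nat_lit 1) (.e (nat_lit 104255) (nat_lit 0) .nil) .nil))) 
(.lf (nat_lit 478927) (.g (nat_lit 2383) (.e (nat_lit 2174) (nat_lit 143) (.e (nat_lit 712752) (nat_lit 29) (.e (nat_lit 442421) (nat_lit 21) (.e (nat_lit 164347) (nat_lit 240) (.e (nat_lit 2650) (nat_lit 166) (.e (nat_lit 188418) (nat_lit 0) .nil)))))) (.g (nat_lit 1) (.e (nat_lit 105127) (nat_lit 0) .nil) .nil)))) (.nd (nat_lit 9) 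
(.lf (nat_lit 478671) (.g (nat_lit 2521) (.e (nat_lit 2059) (nat_lit 142) (.e (nat_lit 704589) (nat_lit 3) (.e (nat_lit 163978) (nat_lit 30) (.e (nat_lit 573485) (nat_lit 13) (.e (nat_lit 65604) (nat_lit 9) (.e (nat_lit 336028) (nat_lit 3) (.e (nat_lit 98363) (nat_lit 26) (.e (nat_lit 426391) (nat_lit 15) .nil)))))))) (.g (nat_lit 1) (.e (nat_lit 104585) (nat_lit 0) .nil) .nil))) 
(.lf (nat_lit 479183) (.g (nat_lit 1646) (.e (nat_lit 5223) (nat_lit 296) (.e (nat_lit 163871) (nat_lit 2) (.e (nat_lit 196656) (nat_lit 11) (.e (nat_lit 16463) (nat_lit 13) .nil)))) (.g (nat_lit 0) (.e (nat_lit 107259) (nat_lit 0) .nil) .nil))))))) (.nd (nat_lit 6) (.nd (nat_lit 7) (.nd (nat_lit 8) (.nd (nat_lit 9) 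
(.lf (nat_lit 478255) (.g (nat_lit 4336) (.e (nat_lit 2057) (nat_lit 142) (.e (nat_lit 704589) (nat_lit 3) (.e (nat_lit 163979) (nat_lit 30) (.e (nat_lit 573493) (nat_lit 15) (.e (nat_lit 81953) (nat_lit 22) (.e (nat_lit 90170) (nat_lit 13) (.e (nat_lit 172138) (nat_lit 15) .nil))))))) (.g (nat_lit 1) (.e (nat_lit 104053) (nat_lit 0) .nil) .nil))) 
(.lf (nat_lit 478767) (.g (nat_lit 5090) (.e (nat_lit 2059) (nat_lit 142) (.e (nat_lit 704589) (nat_lit 3) (.e (nat_lit 163979) (nat_lit 30) (.e (nat_lit 573493) (nat_lit 15) (.e (nat_lit 81954) (nat_lit 23) (.e (nat_lit 98359) (nat_lit 26) (.e (nat_lit 426412) (nat_lit 15) .nil))))))) (.g (nat_lit 1) (.e (nat_lit 104698) (nat_lit 0) .nil) .nil)))) (.nd (nat_lit 9) 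
(.lf (nat_lit 478511) (.g (nat_lit 2394) (.e (nat_lit 2058) (nat_lit 142) (.e (nat_lit 704598) (nat_lit 6) (.e (nat_lit 188446) (nat_lit 21) (.e (nat_lit 164347) (nat_lit 240) (.e (nat_lit 2648) (nat_lit 166) (.e (nat_lit 188418) (nat_lit 0) .nil)))))) (.g (nat_lit 1) (.e (nat_lit 104398) (nat_lit 0) .nil) .nil))) 
(.lf (nat_lit 479023) (.g (nat_lit 1352) (.e (nat_lit 3966) (nat_lit 239) (.e (nat_lit 2625) (nat_lit 164) (.e (nat_lit 172126) (nat_lit 14) (.e (nat_lit 491539) (nat_lit 3) .nil)))) (.g (nat_lit 0) (.e (nat_lit 105542) (nat_lit 0) .nil) .nil))))) (.nd (nat_lit 8) (.nd (nat_lit 9) 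
(.lf (nat_lit 478383) (.g (nat_lit 3719) (.e (nat_lit 2058) (nat_lit 142) (.e (nat_lit 704589) (nat_lit 3) (.e (nat_lit 163976) (nat_lit 30) (.e (nat_lit 573492) (nat_lit 15) (.e (nat_lit 81956) (nat_lit 23) (.e (nat_lit 98359) (nat_lit 26) (.e (nat_lit 426396) (nat_lit 15) .nil))))))) (.g (nat_lit 1) (.e (nat_lit 104220) (nat_lit 0) .nil) .nil))) 
(.lf (nat_lit 478895) (.g (nat_lit 2194) (.e (nat_lit 2174) (nat_lit 143) (.e (nat_lit 712745) (nat_lit 27) (.e (nat_lit 426347) (nat_lit 14) (.e (nat_lit 491570) (nat_lit 13) (.e (nat_lit 393279) (nat_lit 23) (.e (nat_lit 426419) (nat_lit 15) .nil)))))) (.g (nat_lit 1) (.e (nat_lit 105092) (nat_lit 0) .nil) .nil)))) (.nd (nat_lit 9) 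
(.lf (nat_lit 478639) (.g (nat_lit 3820) (.e (nat_lit 2059) (nat_lit 142) (.e (nat_lit 704589) (nat_lit 3) (.e (nat_lit 163976) (nat_lit 30) (.e (nat_lit 573492) (nat_lit 15) (.e (nat_lit 81951) (nat_lit 22) (.e (nat_lit 90168) (nat_lit 13) (.e (nat_lit 172133) (nat_lit 15) .nil))))))) (.g (nat_lit 1) (.e (nat_lit 104543) (nat_lit 0) .nil) .nil))) 
(.lf (nat_lit 479151) (.g (nat_lit 1100) (.e (nat_lit 5219) (nat_lit 296) (.e (nat_lit 163923) (nat_lit 15) (.e (nat_lit 450597) (nat_lit 17) (.e (nat_lit 663580) (nat_lit 9) .nil)))) (.g (nat_lit 0) (.e (nat_lit 106995) (nat_lit 0) .nil) .nil)))))) (.nd (nat_lit 7) (.nd (nat_lit 8) (.nd (nat_lit 9) 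
(.lf (nat_lit 478319) (.g (nat_lit 3447) (.e (nat_lit 2058) (nat_lit 142) (.e (nat_lit 704589) (nat_lit 3) (.e (nat_lit 163975) (nat_lit 30) (.e (nat_lit 573492) (nat_lit 15) (.e (nat_lit 81956) (nat_lit 23) (.e (nat_lit 98355) (nat_lit 26) (.e (nat_lit 426374) (nat_lit 15) .nil))))))) (.g (nat_lit 1) (.e (nat_lit 104151) (nat_lit 0) .nil) .nil))) 
(.lf (nat_lit 478831) (.g (nat_lit 1224) (.e (nat_lit 2143) (nat_lit 142) (.e (nat_lit 704597) (nat_lit 6) (.e (nat_lit 188420) (nat_lit 0) (.e (nat_lit 2058) (nat_lit 142) (.e (nat_lit 704598) (nat_lit 6) (.e (nat_lit 188417) (nat_lit 0) .nil)))))) (.g (nat_lit 1) (.e (nat_lit 104896) (nat_lit 0) .nil) .nil)))) (.nd (nat_lit 9) 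
(.lf (nat_lit 478575) (.g (nat_lit 4324) (.e (nat_lit 2059) (nat_lit 142) (.e (nat_lit 704589) (nat_lit 3) (.e (nat_lit 163975) (nat_lit 30) (.e (nat_lit 573492) (nat_lit 15) (.e (nat_lit 81953) (nat_lit 22) (.e (nat_lit 90170) (nat_lit 13) (.e (nat_lit 172136) (nat_lit 15) .nil))))))) (.g (nat_lit 1) (.e (nat_lit 104469) (nat_lit 0) .nil) .nil))) 
(.lf (nat_lit 479087) (.g (nat_lit 3252) (.e (nat_lit 4762) (nat_lit 281) (.e (nat_lit 2463) (nat_lit 157) (.e (nat_lit 2666) (nat_lit 167) (.e (nat_lit 196666) (nat_lit 13) (.e (nat_lit 65610) (nat_lit 10) (.e (nat_lit 344117) (nat_lit 21) (.e (nat_lit 516151) (nat_lit 9) (.e (nat_lit 426043) (nat_lit 0) (.e (nat_lit 2425) (nat_lit 157) .nil))))))))) (.g (nat_lit 1) (.e (nat_lit 106412) (nat_lit 0) .nil) .nil))))) 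
(.nd (nat_lit 8) (.nd (nat_lit 9) 
(.lf (nat_lit 478447) (.g (nat_lit 4246) (.e (nat_lit 2058) (nat_lit 142) (.e (nat_lit 704589) (nat_lit 3) (.e (nat_lit 163979) (nat_lit 30) (.e (nat_lit 573491) (nat_lit 15) (.e (nat_lit 81954) (nat_lit 23) (.e (nat_lit 98356) (nat_lit 26) (.e (nat_lit 426376) (nat_lit 15) .nil))))))) (.g (nat_lit 1) (.e (nat_lit 104287) (nat_lit 0) .nil) .nil))) 
(.lf (nat_lit 478959) (.g (nat_lit 2517) (.e (nat_lit 2175) (nat_lit 143) (.e (nat_lit 712745) (nat_lit 27) (.e (nat_lit 426347) (nat_lit 14) (.e (nat_lit 491571) (nat_lit 13) (.e (nat_lit 393275) (nat_lit 23) (.e (nat_lit 426410) (nat_lit 15) .nil)))))) (.g (nat_lit 1) (.e (nat_lit 105164) (nat_lit 0) .nil) .nil)))) (.nd (nat_lit 9) 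
(.lf (nat_lit 478703) (.g (nat_lit 3344) (.e (nat_lit 2059) (nat_lit 142) (.e (nat_lit 704589) (nat_lit 3) (.e (nat_lit 163979) (nat_lit 30) (.e (nat_lit 573482) (nat_lit 13) (.e (nat_lit 65604) (nat_lit 9) (.e (nat_lit 336028) (nat_lit 3) (.e (nat_lit 98363) (nat_lit 26) (.e (nat_lit 426419) (nat_lit 15) .nil)))))))) (.g (nat_lit 1) (.e (nat_lit 104618) (nat_lit 0) .nil) .nil))) 
(.lf (nat_lit 479215) (.g (nat_lit 1678) (.e (nat_lit 5224) (nat_lit 296) (.e (nat_lit 163868) (nat_lit 2) (.e (nat_lit 196656) (nat_lit 11) (.e (nat_lit 16466) (nat_lit 13) .nil)))) (.g (nat_lit 0) (.e (nat_lit 107425) (nat_lit 0) .nil) .nil)))))))) (.nd (nat_lit 5) (.nd (nat_lit 6) (.nd (nat_lit 7) (.nd (nat_lit 8) (.nd (nat_lit 9) 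
(.lf (nat_lit 478239) (.g (nat_lit 3456) (.e (nat_lit 2057) (nat_lit 142) (.e (nat_lit 704589) (nat_lit 3) (.e (nat_lit 163976) (nat_lit 30) (.e (nat_lit 573492) (nat_lit 15) (.e (nat_lit 81953) (nat_lit 22) (.e (nat_lit 90170) (nat_lit 13) (.e (nat_lit 172138) (nat_lit 15) .nil))))))) (.g (nat_lit 1) (.e (nat_lit 104037) (nat_lit 0) .nil) .nil))) 
(.lf (nat_lit 478751) (.g (nat_lit 2486) (.e (nat_lit 2059) (nat_lit 142) (.e (nat_lit 704589) (nat_lit 3) (.e (nat_lit 163979) (nat_lit 30) (.e (nat_lit 573491) (nat_lit 15) (.e (nat_lit 81954) (nat_lit 23) (.e (nat_lit 106240) (nat_lit 26) (.e (nat_lit 426391) (nat_lit 15) .nil))))))) (.g (nat_lit 1) (.e (nat_lit 104666) (nat_lit 0) .nil) .nil)))) (.nd (nat_lit 9) 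
(.lf (nat_lit 478495) (.g (nat_lit 2309) (.e (nat_lit 2058) (nat_lit 142) (.e (nat_lit 704592) (nat_lit 4) (.e (nat_lit 172120) (nat_lit 12) (.e (nat_lit 475197) (nat_lit 40) (.e (nat_lit 704598) (nat_lit 6) (.e (nat_lit 188420) (nat_lit 0) .nil)))))) (.g (nat_lit 1) (.e (nat_lit 104347) (nat_lit 0) .nil) .nil))) 
(.lf (nat_lit 479007) (.g (nat_lit 4402) (.e (nat_lit 3978) (nat_lit 239) (.e (nat_lit 2619) (nat_lit 164) (.e (nat_lit 172126) (nat_lit 14) (.e (nat_lit 491540) (nat_lit 3) (.e (nat_lit 98373) (nat_lit 29) (.e (nat_lit 450567) (nat_lit 0) .nil)))))) (.g (nat_lit 1) (.e (nat_lit 105436) (nat_lit 0) .nil) .nil))))) (.nd (nat_lit 8) (.nd (nat_lit 9) 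
(.lf (nat_lit 478367) (.g (nat_lit 2274) (.e (nat_lit 2058) (nat_lit 142) (.e (nat_lit 704589) (nat_lit 3) (.e (nat_lit 163976) (nat_lit 30) (.e (nat_lit 573491) (nat_lit 15) (.e (nat_lit 81954) (nat_lit 23) (.e (nat_lit 98362) (nat_lit 26) (.e (nat_lit 426411) (nat_lit 15) .nil))))))) (.g (nat_lit 1) (.e (nat_lit 104202) (nat_lit 0) .nil) .nil))) 
(.lf (nat_lit 478879) (.g (nat_lit 4433) (.e (nat_lit 2174) (nat_lit 143) (.e (nat_lit 712745) (nat_lit 27) (.e (nat_lit 426347) (nat_lit 14) (.e (nat_lit 491549) (nat_lit 9) (.e (nat_lit 336428) (nat_lit 29) (.e (nat_lit 442374) (nat_lit 0) .nil)))))) (.g (nat_lit 1) (.e (nat_lit 105076) (nat_lit 0) .nil) .nil)))) (.nd (nat_lit 9) 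
(.lf (nat_lit 478623) (.g (nat_lit 2183) (.e (nat_lit 2059) (nat_lit 142) (.e (nat_lit 704589) (nat_lit 3) (.e (nat_lit 163976) (nat_lit 30) (.e (nat_lit 573491) (nat_lit 15) (.e (nat_lit 81954) (nat_lit 23) (.e (nat_lit 98355) (nat_lit 26) (.e (nat_lit 426420) (nat_lit 15) .nil))))))) (.g (nat_lit 1) (.e (nat_lit 104527) (nat_lit 0) .nil) .nil))) 
(.lf (nat_lit 479135) (.g (nat_lit 419) (.e (nat_lit 5048) (nat_lit 292) (.e (nat_lit 2652) (nat_lit 166) (.e (nat_lit 188435) (nat_lit 20) (.e (nat_lit 3390) (nat_lit 210) .nil)))) (.g (nat_lit 0) (.e (nat_lit 106771) (nat_lit 0) .nil) .nil)))))) (.nd (nat_lit 7) (.nd (nat_lit 8) (.nd (nat_lit 9) 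
(.lf (nat_lit 478303) (.g (nat_lit 2535) (.e (nat_lit 2058) (nat_lit 142) (.e (nat_lit 704589) (nat_lit 3) (.e (nat_lit 163975) (nat_lit 30) (.e (nat_lit 573491) (nat_lit 15) (.e (nat_lit 81954) (nat_lit 23) (.e (nat_lit 98355) (nat_lit 26) (.e (nat_lit 426376) (nat_lit 15) .nil))))))) (.g (nat_lit 1) (.e (nat_lit 104130) (nat_lit 0) .nil) .nil))) 
(.lf (nat_lit 478815) (.g (nat_lit 1493) (.e (nat_lit 2074) (nat_lit 142) (.e (nat_lit 704734) (nat_lit 11) (.e (nat_lit 16436) (nat_lit 9) (.e (nat_lit 426555) (nat_lit 32) (.e (nat_lit 376857) (nat_lit 21) .nil))))) (.g (nat_lit 0) (.e (nat_lit 104799) (nat_lit 0) .nil) .nil)))) (.nd (nat_lit 9) 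
(.lf (nat_lit 478559) (.g (nat_lit 3974) (.e (nat_lit 2059) (nat_lit 142) (.e (nat_lit 704589) (nat_lit 3) (.e (nat_lit 163975) (nat_lit 30) (.e (nat_lit 573491) (nat_lit 15) (.e (nat_lit 81954) (nat_lit 23) (.e (nat_lit 98356) (nat_lit 26) (.e (nat_lit 426420) (nat_lit 15) .nil))))))) (.g (nat_lit 1) (.e (nat_lit 104446) (nat_lit 0) .nil) .nil))) 
(.lf (nat_lit 479071) (.g (nat_lit 3616) (.e (nat_lit 4539) (nat_lit 267) (.e (nat_lit 163869) (nat_lit 2) (.e (nat_lit 196656) (nat_lit 11) (.e (nat_lit 16473) (nat_lit 14) (.e (nat_lit 499456) (nat_lit 27) (.e (nat_lit 426533) (nat_lit 28) (.e (nat_lit 344096) (nat_lit 18) .nil))))))) (.g (nat_lit 1) (.e (nat_lit 106152) (nat_lit 0) .nil) .nil))))) (.nd (nat_lit 8) (.nd (nat_lit 9) 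
(.lf (nat_lit 478431) (.g (nat_lit 3460) (.e (nat_lit 2058) (nat_lit 142) (.e (nat_lit 704589) (nat_lit 3) (.e (nat_lit 163979) (nat_lit 30) (.e (nat_lit 573482) (nat_lit 13) (.e (nat_lit 65619) (nat_lit 10) (.e (nat_lit 344117) (nat_lit 21) (.e (nat_lit 516147) (nat_lit 9) (.e (nat_lit 426375) (nat_lit 15) .nil)))))))) (.g (nat_lit 1) (.e (nat_lit 104271) (nat_lit 0) .nil) .nil))) 
(.lf (nat_lit 478943) (.g (nat_lit 1309) (.e (nat_lit 2174) (nat_lit 143) (.e (nat_lit 712755) (nat_lit 30) (.e (nat_lit 450593) (nat_lit 16) (.e (nat_lit 655364) (nat_lit 0) .nil)))) (.g (nat_lit 0) (.e (nat_lit 105144) (nat_lit 0) .nil) .nil)))) (.nd (nat_lit 9) 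
(.lf (nat_lit 478687) (.g (nat_lit 5344) (.e (nat_lit 2059) (nat_lit 142) (.e (nat_lit 704589) (nat_lit 3) (.e (nat_lit 163978) (nat_lit 30) (.e (nat_lit 573485) (nat_lit 13) (.e (nat_lit 65619) (nat_lit 10) (.e (nat_lit 344117) (nat_lit 21) (.e (nat_lit 516151) (nat_lit 9) (.e (nat_lit 426410) (nat_lit 15) .nil)))))))) (.g (nat_lit 1) (.e (nat_lit 104602) (nat_lit 0) .nil) .nil))) 
(.lf (nat_lit 479199) (.g (nat_lit 1886) (.e (nat_lit 5223) (nat_lit 296) (.e (nat_lit 163884) (nat_lit 5) (.e (nat_lit 221194) (nat_lit 11) (.e (nat_lit 336087) (nat_lit 9) (.e (nat_lit 336434) (nat_lit 30) (.e (nat_lit 450564) (nat_lit 0) .nil)))))) (.g (nat_lit 1) (.e (nat_lit 107291) (nat_lit 0) .nil) .nil))))))) (.nd (nat_lit 6) (.nd (nat_lit 7) (.nd (nat_lit 8) (.nd (nat_lit 9) 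
(.lf (nat_lit 478271) (.g (nat_lit 2232) (.e (nat_lit 2057) (nat_lit 142) (.e (nat_lit 704598) (nat_lit 6) (.e (nat_lit 188444) (nat_lit 21) (.e (nat_lit 164347) (nat_lit 240) (.e (nat_lit 2648) (nat_lit 166) (.e (nat_lit 188420) (nat_lit 0) .nil)))))) (.g (nat_lit 1) (.e (nat_lit 104094) (nat_lit 0) .nil) .nil))) 
(.lf (nat_lit 478783) (.g (nat_lit 5411) (.e (nat_lit 2059) (nat_lit 142) (.e (nat_lit 704589) (nat_lit 3) (.e (nat_lit 163979) (nat_lit 30) (.e (nat_lit 573493) (nat_lit 15) (.e (nat_lit 81956) (nat_lit 23) (.e (nat_lit 98362) (nat_lit 26) (.e (nat_lit 426410) (nat_lit 15) .nil))))))) (.g (nat_lit 1) (.e (nat_lit 104714) (nat_lit 0) .nil) .nil)))) (.nd (nat_lit 9) 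
(.lf (nat_lit 478527) (.g (nat_lit 2923) (.e (nat_lit 2059) (nat_lit 142) (.e (nat_lit 704589) (nat_lit 3) (.e (nat_lit 163975) (nat_lit 30) (.e (nat_lit 573481) (nat_lit 13) (.e (nat_lit 65604) (nat_lit 9) (.e (nat_lit 336028) (nat_lit 3) (.e (nat_lit 98363) (nat_lit 26) (.e (nat_lit 426419) (nat_lit 15) .nil)))))))) (.g (nat_lit 1) (.e (nat_lit 104414) (nat_lit 0) .nil) .nil))) 
(.lf (nat_lit 479039) (.g (nat_lit 770) (.e (nat_lit 4423) (nat_lit 261) (.e (nat_lit 163871) (nat_lit 2) (.e (nat_lit 196668) (nat_lit 14) .nil))) (.g (nat_lit 0) (.e (nat_lit 105943) (nat_lit 0) .nil) .nil))))) (.nd (nat_lit 8) (.nd (nat_lit 9) 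
(.lf (nat_lit 478399) (.g (nat_lit 2323) (.e (nat_lit 2058) (nat_lit 142) (.e (nat_lit 704589) (nat_lit 3) (.e (nat_lit 163978) (nat_lit 30) (.e (nat_lit 573485) (nat_lit 13) (.e (nat_lit 65604) (nat_lit 9) (.e (nat_lit 336028) (nat_lit 3) (.e (nat_lit 98363) (nat_lit 26) (.e (nat_lit 426419) (nat_lit 15) .nil)))))))) (.g (nat_lit 1) (.e (nat_lit 104239) (nat_lit 0) .nil) .nil))) 
(.lf (nat_lit 478911) (.g (nat_lit 2928) (.e (nat_lit 2174) (nat_lit 143) (.e (nat_lit 712745) (nat_lit 27) (.e (nat_lit 426347) (nat_lit 14) (.e (nat_lit 491571) (nat_lit 13) (.e (nat_lit 393274) (nat_lit 23) (.e (nat_lit 426380) (nat_lit 15) .nil)))))) (.g (nat_lit 1) (.e (nat_lit 105108) (nat_lit 0) .nil) .nil)))) (.nd (nat_lit 9) 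
(.lf (nat_lit 478655) (.g (nat_lit 4073) (.e (nat_lit 2059) (nat_lit 142) (.e (nat_lit 704589) (nat_lit 3) (.e (nat_lit 163976) (nat_lit 30) (.e (nat_lit 573492) (nat_lit 15) (.e (nat_lit 81956) (nat_lit 23) (.e (nat_lit 98359) (nat_lit 26) (.e (nat_lit 426410) (nat_lit 15) .nil))))))) (.g (nat_lit 1) (.e (nat_lit 104565) (nat_lit 0) .nil) .nil))) 
(.lf (nat_lit 479167) (.g (nat_lit 1707) (.e (nat_lit 5222) (nat_lit 296) (.e (nat_lit 163933) (nat_lit 17) (.e (nat_lit 466972) (nat_lit 21) (.e (nat_lit 164319) (nat_lit 228) (.e (nat_lit 57427) (nat_lit 15) (.e (nat_lit 368384) (nat_lit 0) .nil)))))) (.g (nat_lit 1) (.e (nat_lit 107096) (nat_lit 0) .nil) .nil)))))) (.nd (nat_lit 7) (.nd (nat_lit 8) (.nd (nat_lit 9) 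
(.lf (nat_lit 478335) (.g (nat_lit 4436) (.e (nat_lit 2058) (nat_lit 142) (.e (nat_lit 704589) (nat_lit 3) (.e (nat_lit 163975) (nat_lit 30) (.e (nat_lit 573492) (nat_lit 15) (.e (nat_lit 81956) (nat_lit 23) (.e (nat_lit 98362) (nat_lit 26) (.e (nat_lit 426412) (nat_lit 15) .nil))))))) (.g (nat_lit 1) (.e (nat_lit 104167) (nat_lit 0) .nil) .nil))) 
(.lf (nat_lit 478847) (.g (nat_lit 1635) (.e (nat_lit 2147) (nat_lit 142) (.e (nat_lit 704597) (nat_lit 6) (.e (nat_lit 188446) (nat_lit 21) (.e (nat_lit 164345) (nat_lit 240) (.e (nat_lit 2648) (nat_lit 166) (.e (nat_lit 188417) (nat_lit 0) .nil)))))) (.g (nat_lit 1) (.e (nat_lit 104980) (nat_lit 0) .nil) .nil)))) (.nd (nat_lit 9) 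
(.lf (nat_lit 478591) (.g (nat_lit 3538) (.e (nat_lit 2059) (nat_lit 142) (.e (nat_lit 704589) (nat_lit 3) (.e (nat_lit 163975) (nat_lit 30) (.e (nat_lit 573492) (nat_lit 15) (.e (nat_lit 81956) (nat_lit 23) (.e (nat_lit 98360) (nat_lit 26) (.e (nat_lit 426410) (nat_lit 15) .nil))))))) (.g (nat_lit 1) (.e (nat_lit 104490) (nat_lit 0) .nil) .nil))) 
(.lf (nat_lit 479103) (.g (nat_lit 4143) (.e (nat_lit 4849) (nat_lit 285) (.e (nat_lit 163869) (nat_lit 2) (.e (nat_lit 196666) (nat_lit 13) (.e (nat_lit 65610) (nat_lit 10) (.e (nat_lit 344117) (nat_lit 21) (.e (nat_lit 516160) (nat_lit 10) (.e (nat_lit 434201) (nat_lit 18) .nil))))))) (.g (nat_lit 1) (.e (nat_lit 106488) (nat_lit 0) .nil) .nil))))) (.nd (nat_lit 8) (.nd (nat_lit 9) 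
(.lf (nat_lit 478463) (.g (nat_lit 3745) (.e (nat_lit 2058) (nat_lit 142) (.e (nat_lit 704589) (nat_lit 3) (.e (nat_lit 163979) (nat_lit 30) (.e (nat_lit 573492) (nat_lit 15) (.e (nat_lit 81956) (nat_lit 23) (.e (nat_lit 98355) (nat_lit 26) (.e (nat_lit 426379) (nat_lit 15) .nil))))))) (.g (nat_lit 1) (.e (nat_lit 104303) (nat_lit 0) .nil) .nil))) 
(.lf (nat_lit 478975) (.g (nat_lit 2554) (.e (nat_lit 2175) (nat_lit 143) (.e (nat_lit 712752) (nat_lit 29) (.e (nat_lit 442421) (nat_lit 21) (.e (nat_lit 164348) (nat_lit 240) (.e (nat_lit 2648) (nat_lit 166) (.e (nat_lit 188420) (nat_lit 0) .nil)))))) (.g (nat_lit 1) (.e (nat_lit 105180) (nat_lit 0) .nil) .nil)))) (.nd (nat_lit 9) 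
(.lf (nat_lit 478719) (.g (nat_lit 2274) (.e (nat_lit 2059) (nat_lit 142) (.e (nat_lit 704589) (nat_lit 3) (.e (nat_lit 163979) (nat_lit 30) (.e (nat_lit 573482) (nat_lit 13) (.e (nat_lit 65619) (nat_lit 10) (.e (nat_lit 344117) (nat_lit 21) (.e (nat_lit 516147) (nat_lit 9) (.e (nat_lit 426405) (nat_lit 15) .nil)))))))) (.g (nat_lit 1) (.e (nat_lit 104634) (nat_lit 0) .nil) .nil))) 
(.lf (nat_lit 479231) (.g (nat_lit 2624) (.e (nat_lit 5224) (nat_lit 296) (.e (nat_lit 163871) (nat_lit 2) (.e (nat_lit 196656) (nat_lit 11) (.e (nat_lit 16416) (nat_lit 3) (.e (nat_lit 204837) (nat_lit 20) .nil))))) (.g (nat_lit 0) (.e (nat_lit 107498) (nat_lit 0) .nil) .nil)))))))))))))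

noncomputable def tv5528 : DT := (.nd (nat_lit 0) (.nd (nat_lit 1) (.nd (nat_lit 2) (.nd (nat_lit 3) (.nd (nat_lit 4) (.nd (nat_lit 5) (.nd (nat_lit 6) (.nd (nat_lit 7) (.nd (nat_lit 8) (.nd (nat_lit 9) 
(.lf (nat_lit 479232) (.g (nat_lit 3001) (.e (nat_lit 5224) (nat_lit 296) (.e (nat_lit 163871) (nat_lit 2) (.e (nat_lit 196656) (nat_lit 11) (.e (nat_lit 16416) (nat_lit 3) (.e (nat_lit 204837) (nat_lit 20) (.e (nat_lit 114715) (nat_lit 22) (.e (nat_lit 90165) (nat_lit 12) (.e (nat_lit 163853) (nat_lit 0) .nil)))))))) (.g (nat_lit 1) (.e (nat_lit 107501) (nat_lit 0) .nil) .nil))) 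
(.lf (nat_lit 479744) (.g (nat_lit 2458) (.e (nat_lit 5748) (nat_lit 314) (.e (nat_lit 24662) (nat_lit 14) (.e (nat_lit 401459) (nat_lit 13) (.e (nat_lit 483350) (nat_lit 17) .nil)))) (.g (nat_lit 0) (.e (nat_lit 109579) (nat_lit 0) .nil) .nil)))) (.nd (nat_lit 9) 
(.lf (nat_lit 479488) (.g (nat_lit 4604) (.e (nat_lit 5626) (nat_lit 312) (.e (nat_lit 2668) (nat_lit 167) (.e (nat_lit 196666) (nat_lit 13) (.e (nat_lit 65610) (nat_lit 10) (.e (nat_lit 344117) (nat_lit 21) (.e (nat_lit 516106) (nat_lit 0) (.e (nat_lit 6986) (nat_lit 377) (.e (nat_lit 7936) (nat_lit 157) .nil)))))))) (.g (nat_lit 1) (.e (nat_lit 108499) (nat_lit 0) .nil) .nil))) 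
(.lf (nat_lit 480000) (.g (nat_lit 1989) (.e (nat_lit 5813) (nat_lit 320) (.e (nat_lit 1201) (nat_lit 88) (.e (nat_lit 65630) (nat_lit 14) (.e (nat_lit 401438) (nat_lit 9) (.e (nat_lit 426546) (nat_lit 30) .nil))))) (.g (nat_lit 0) (.e (nat_lit 111219) (nat_lit 0) .nil) .nil))))) (.nd (nat_lit 8) (.nd (nat_lit 9) 
(.lf (nat_lit 479360) (.g (nat_lit 1721) (.e (nat_lit 5195) (nat_lit 294) (.e (nat_lit 57427) (nat_lit 15) (.e (nat_lit 360480) (nat_lit 14) (.e (nat_lit 638986) (nat_lit 5) (.e (nat_lit 3027) (nat_lit 187) (.e (nat_lit 458496) (nat_lit 0) .nil)))))) (.g (nat_lit 1) (.e (nat_lit 108288) (nat_lit 0) .nil) .nil))) 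
(.lf (nat_lit 479872) (.g (nat_lit 1878) (.e (nat_lit 5761) (nat_lit 315) (.e (nat_lit 163962) (nat_lit 25) (.e (nat_lit 532550) (nat_lit 12) (.e (nat_lit 360474) (nat_lit 8) (.e (nat_lit 557073) (nat_lit 9) (.e (nat_lit 7936) (nat_lit 19) (.e (nat_lit 319492) (nat_lit 0) .nil))))))) (.g (nat_lit 1) (.e (nat_lit 110014) (nat_lit 0) .nil) .nil)))) (.nd (nat_lit 9) 
(.lf (nat_lit 479616) (.g (nat_lit 3434) (.e (nat_lit 5664) (nat_lit 312) (.e (nat_lit 2679) (nat_lit 168) (.e (nat_lit 204865) (nat_lit 28) (.e (nat_lit 352315) (nat_lit 23) (.e (nat_lit 98350) (nat_lit 24) (.e (nat_lit 409623) (nat_lit 10) .nil)))))) (.g (nat_lit 1) (.e (nat_lit 108876) (nat_lit 0) .nil) .nil))) 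
(.lf (nat_lit 480128) (.g (nat_lit 2417) (.e (nat_lit 5933) (nat_lit 322) (.e (nat_lit 57373) (nat_lit 2) (.e (nat_lit 90174) (nat_lit 14) (.e (nat_lit 180243) (nat_lit 5) (.e (nat_lit 532513) (nat_lit 3) .nil))))) (.g (nat_lit 0) (.e (nat_lit 111454) (nat_lit 0) .nil) .nil)))))) (.nd (nat_lit 7) (.nd (nat_lit 8) (.nd (nat_lit 9) 
(.lf (nat_lit 479296) (.g (nat_lit 1617) (.e (nat_lit 5228) (nat_lit 296) (.e (nat_lit 163871) (nat_lit 2) (.e (nat_lit 196656) (nat_lit 11) (.e (nat_lit 16465) (nat_lit 13) .nil)))) (.g (nat_lit 0) (.e (nat_lit 107957) (nat_lit 0) .nil) .nil))) 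
(.lf (nat_lit 479808) (.g (nat_lit 4498) (.e (nat_lit 5756) (nat_lit 315) (.e (nat_lit 163962) (nat_lit 25) (.e (nat_lit 532547) (nat_lit 11) (.e (nat_lit 352315) (nat_lit 23) (.e (nat_lit 98350) (nat_lit 24) (.e (nat_lit 409616) (nat_lit 10) .nil)))))) (.g (nat_lit 1) (.e (nat_lit 109821) (nat_lit 0) .nil) .nil)))) (.nd (nat_lit 9) 
(.lf (nat_lit 479552) (.g (nat_lit 2032) (.e (nat_lit 5627) (nat_lit 312) (.e (nat_lit 2668) (nat_lit 167) (.e (nat_lit 196666) (nat_lit 13) (.e (nat_lit 65610) (nat_lit 10) (.e (nat_lit 344117) (nat_lit 21) (.e (nat_lit 516106) (nat_lit 0) (.e (nat_lit 6966) (nat_lit 377) (.e (nat_lit 2450) (nat_lit 157) .nil)))))))) (.g (nat_lit 1) (.e (nat_lit 108690) (nat_lit 0) .nil) .nil))) 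
(.lf (nat_lit 480064) (.g (nat_lit 1931) (.e (nat_lit 5906) (nat_lit 320) (.e (nat_lit 1190) (nat_lit 88) (.e (nat_lit 65630) (nat_lit 14) (.e (nat_lit 401438) (nat_lit 9) (.e (nat_lit 426546) (nat_lit 30) .nil))))) (.g (nat_lit 0) (.e (nat_lit 111312) (nat_lit 0) .nil) .nil))))) (.nd (nat_lit 8) (.nd (nat_lit 9) 
(.lf (nat_lit 479424) (.g (nat_lit 3358) (.e (nat_lit 5613) (nat_lit 312) (.e (nat_lit 2668) (nat_lit 167) (.e (nat_lit 196666) (nat_lit 13) (.e (nat_lit 65610) (nat_lit 10) (.e (nat_lit 344116) (nat_lit 21) .nil))))) (.g (nat_lit 0) (.e (nat_lit 108400) (nat_lit 0) .nil) .nil))) 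
(.lf (nat_lit 479936) (.g (nat_lit 835) (.e (nat_lit 5771) (nat_lit 316) (.e (nat_lit 172130) (nat_lit 15) (.e (nat_lit 6243) (nat_lit 336) (.e (nat_lit 229694) (nat_lit 250) (.e (nat_lit 172143) (nat_lit 25) (.e (nat_lit 319493) (nat_lit 0) .nil)))))) (.g (nat_lit 1) (.e (nat_lit 110262) (nat_lit 0) .nil) .nil)))) (.nd (nat_lit 9) 
(.lf (nat_lit 479680) (.g (nat_lit 1552) (.e (nat_lit 5667) (nat_lit 312) (.e (nat_lit 3085) (nat_lit 191) (.e (nat_lit 483403) (nat_lit 26) (.e (nat_lit 385114) (nat_lit 53) .nil)))) (.g (nat_lit 0) (.e (nat_lit 109105) (nat_lit 0) .nil) .nil))) 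
(.lf (nat_lit 480192) (.g (nat_lit 2595) (.e (nat_lit 5934) (nat_lit 322) (.e (nat_lit 57375) (nat_lit 2) (.e (nat_lit 90172) (nat_lit 14) (.e (nat_lit 180252) (nat_lit 10) (.e (nat_lit 573489) (nat_lit 14) .nil))))) (.g (nat_lit 0) (.e (nat_lit 111518) (nat_lit 0) .nil) .nil))))))) (.nd (nat_lit 6) (.nd (nat_lit 7) (.nd (nat_lit 8) (.nd (nat_lit 9) 
(.lf (nat_lit 479264) (.g (nat_lit 2225) (.e (nat_lit 5224) (nat_lit 296) (.e (nat_lit 163884) (nat_lit 5) (.e (nat_lit 221194) (nat_lit 11) (.e (nat_lit 336075) (nat_lit 9) (.e (nat_lit 336432) (nat_lit 30) (.e (nat_lit 450565) (nat_lit 0) .nil)))))) (.g (nat_lit 1) (.e (nat_lit 107790) (nat_lit 0) .nil) .nil))) 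
(.lf (nat_lit 479776) (.g (nat_lit 1330) (.e (nat_lit 7936) (nat_lit 314) (.e (nat_lit 24662) (nat_lit 14) (.e (nat_lit 401438) (nat_lit 9) (.e (nat_lit 426533) (nat_lit 28) (.e (nat_lit 344074) (nat_lit 13) .nil))))) (.g (nat_lit 0) (.e (nat_lit 109716) (nat_lit 0) .nil) .nil)))) (.nd (nat_lit 9) 
(.lf (nat_lit 479520) (.g (nat_lit 2632) (.e (nat_lit 5626) (nat_lit 312) (.e (nat_lit 2685) (nat_lit 168) (.e (nat_lit 204846) (nat_lit 24) (.e (nat_lit 327424) (nat_lit 16) (.e (nat_lit 286735) (nat_lit 3) (.e (nat_lit 98323) (nat_lit 17) (.e (nat_lit 6989) (nat_lit 377) (.e (nat_lit 977) (nat_lit 81) .nil)))))))) (.g (nat_lit 1) (.e (nat_lit 108580) (nat_lit 0) .nil) .nil))) 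
(.lf (nat_lit 480032) (.g (nat_lit 2204) (.e (nat_lit 5902) (nat_lit 320) (.e (nat_lit 1209) (nat_lit 89) (.e (nat_lit 73782) (nat_lit 32) (.e (nat_lit 2856) (nat_lit 184) (.e (nat_lit 426546) (nat_lit 30) (.e (nat_lit 368384) (nat_lit 0) .nil)))))) (.g (nat_lit 1) (.e (nat_lit 111276) (nat_lit 0) .nil) .nil))))) (.nd (nat_lit 8) (.nd (nat_lit 9) 
(.lf (nat_lit 479392) (.g (nat_lit 1292) (.e (nat_lit 7936) (nat_lit 295) (.e (nat_lit 122919) (nat_lit 15) (.e (nat_lit 360484) (nat_lit 15) (.e (nat_lit 647190) (nat_lit 9) (.e (nat_lit 7936) (nat_lit 35) .nil))))) (.g (nat_lit 0) (.e (nat_lit 108343) (nat_lit 0) .nil) .nil))) 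
(.lf (nat_lit 479904) (.g (nat_lit 2312) (.e (nat_lit 5763) (nat_lit 315) (.e (nat_lit 163962) (nat_lit 25) (.e (nat_lit 532535) (nat_lit 9) (.e (nat_lit 336163) (nat_lit 10) .nil)))) (.g (nat_lit 0) (.e (nat_lit 110100) (nat_lit 0) .nil) .nil)))) (.nd (nat_lit 9) 
(.lf (nat_lit 479648) (.g (nat_lit 2453) (.e (nat_lit 5664) (nat_lit 312) (.e (nat_lit 3085) (nat_lit 191) (.e (nat_lit 483346) (nat_lit 17) (.e (nat_lit 6720) (nat_lit 361) (.e (nat_lit 172143) (nat_lit 25) (.e (nat_lit 319492) (nat_lit 0) .nil)))))) (.g (nat_lit 1) (.e (nat_lit 108947) (nat_lit 0) .nil) .nil))) 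
(.lf (nat_lit 480160) (.g (nat_lit 5229) (.e (nat_lit 5934) (nat_lit 322) (.e (nat_lit 57371) (nat_lit 2) (.e (nat_lit 90174) (nat_lit 14) (.e (nat_lit 180250) (nat_lit 10) (.e (nat_lit 573489) (nat_lit 14) (.e (nat_lit 73755) (nat_lit 8) (.e (nat_lit 557090) (nat_lit 12) (.e (nat_lit 163844) (nat_lit 0) .nil)))))))) (.g (nat_lit 1) (.e (nat_lit 111486) (nat_lit 0) .nil) .nil)))))) 
(.nd (nat_lit 7) (.nd (nat_lit 8) (.nd (nat_lit 9) 
(.lf (nat_lit 479328) (.g (nat_lit 1739) (.e (nat_lit 5190) (nat_lit 294) (.e (nat_lit 57412) (nat_lit 12) (.e (nat_lit 336176) (nat_lit 10) (.e (nat_lit 344157) (nat_lit 36) (.e (nat_lit 638986) (nat_lit 5) (.e (nat_lit 3027) (nat_lit 187) (.e (nat_lit 458496) (nat_lit 0) .nil))))))) (.g (nat_lit 1) (.e (nat_lit 108155) (nat_lit 0) .nil) .nil))) 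
(.lf (nat_lit 479840) (.g (nat_lit 3999) (.e (nat_lit 5761) (nat_lit 315) (.e (nat_lit 163962) (nat_lit 25) (.e (nat_lit 532523) (nat_lit 7) (.e (nat_lit 319530) (nat_lit 16) (.e (nat_lit 286735) (nat_lit 3) (.e (nat_lit 98350) (nat_lit 24) (.e (nat_lit 409602) (nat_lit 0) .nil))))))) (.g (nat_lit 1) (.e (nat_lit 109923) (nat_lit 0) .nil) .nil)))) (.nd (nat_lit 9) 
(.lf (nat_lit 479584) (.g (nat_lit 2213) (.e (nat_lit 5663) (nat_lit 312) (.e (nat_lit 3062) (nat_lit 190) (.e (nat_lit 475185) (nat_lit 29) (.e (nat_lit 557101) (nat_lit 13) (.e (nat_lit 172115) (nat_lit 10) .nil))))) (.g (nat_lit 0) (.e (nat_lit 108834) (nat_lit 0) .nil) .nil))) 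
(.lf (nat_lit 480096) (.g (nat_lit 1769) (.e (nat_lit 5964) (nat_lit 324) (.e (nat_lit 163871) (nat_lit 2) (.e (nat_lit 196668) (nat_lit 14) (.e (nat_lit 73737) (nat_lit 0) .nil)))) (.g (nat_lit 0) (.e (nat_lit 111367) (nat_lit 0) .nil) .nil))))) (.nd (nat_lit 8) (.nd (nat_lit 9) 
(.lf (nat_lit 479456) (.g (nat_lit 2688) (.e (nat_lit 5626) (nat_lit 312) (.e (nat_lit 290) (nat_lit 21) (.e (nat_lit 336231) (nat_lit 14) (.e (nat_lit 401458) (nat_lit 13) (.e (nat_lit 483350) (nat_lit 17) .nil))))) (.g (nat_lit 0) (.e (nat_lit 108455) (nat_lit 0) .nil) .nil))) 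
(.lf (nat_lit 479968) (.g (nat_lit 3358) (.e (nat_lit 5776) (nat_lit 317) (.e (nat_lit 180244) (nat_lit 5) (.e (nat_lit 532569) (nat_lit 16) (.e (nat_lit 401448) (nat_lit 10) (.e (nat_lit 434227) (nat_lit 20) (.e (nat_lit 507929) (nat_lit 10) .nil)))))) (.g (nat_lit 1) (.e (nat_lit 110517) (nat_lit 0) .nil) .nil)))) (.nd (nat_lit 9) 
(.lf (nat_lit 479712) (.g (nat_lit 2315) (.e (nat_lit 5714) (nat_lit 312) (.e (nat_lit 2682) (nat_lit 168) (.e (nat_lit 204846) (nat_lit 24) (.e (nat_lit 319504) (nat_lit 10) (.e (nat_lit 7936) (nat_lit 315) (.e (nat_lit 163962) (nat_lit 25) (.e (nat_lit 532523) (nat_lit 7) (.e (nat_lit 319505) (nat_lit 10) .nil)))))))) (.g (nat_lit 1) (.e (nat_lit 109280) (nat_lit 0) .nil) .nil))) 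
(.lf (nat_lit 480224) (.g (nat_lit 2210) (.e (nat_lit 5934) (nat_lit 322) (.e (nat_lit 57378) (nat_lit 3) (.e (nat_lit 98365) (nat_lit 26) (.e (nat_lit 426326) (nat_lit 13) .nil)))) (.g (nat_lit 0) (.e (nat_lit 111550) (nat_lit 0) .nil) .nil)))))))) (.nd (nat_lit 5) (.nd (nat_lit 6) (.nd (nat_lit 7) (.nd (nat_lit 8) (.nd (nat_lit 9) 
(.lf (nat_lit 479248) (.g (nat_lit 2610) (.e (nat_lit 5224) (nat_lit 296) (.e (nat_lit 163875) (nat_lit 3) (.e (nat_lit 204829) (nat_lit 18) (.e (nat_lit 57927) (nat_lit 282) (.e (nat_lit 164084) (nat_lit 73) (.e (nat_lit 336027) (nat_lit 3) (.e (nat_lit 98377) (nat_lit 30) (.e (nat_lit 458774) (nat_lit 18) .nil)))))))) (.g (nat_lit 1) (.e (nat_lit 107764) (nat_lit 0) .nil) .nil))) 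
(.lf (nat_lit 479760) (.g (nat_lit 860) (.e (nat_lit 5752) (nat_lit 314) (.e (nat_lit 24664) (nat_lit 14) (.e (nat_lit 401435) (nat_lit 9) .nil))) (.g (nat_lit 0) (.e (nat_lit 109658) (nat_lit 0) .nil) .nil)))) (.nd (nat_lit 9) 
(.lf (nat_lit 479504) (.g (nat_lit 2218) (.e (nat_lit 5626) (nat_lit 312) (.e (nat_lit 2668) (nat_lit 167) (.e (nat_lit 196666) (nat_lit 13) (.e (nat_lit 65617) (nat_lit 10) (.e (nat_lit 344130) (nat_lit 26) .nil))))) (.g (nat_lit 0) (.e (nat_lit 108535) (nat_lit 0) .nil) .nil))) 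
(.lf (nat_lit 480016) (.g (nat_lit 1292) (.e (nat_lit 5818) (nat_lit 320) (.e (nat_lit 1222) (nat_lit 90) (.e (nat_lit 81922) (nat_lit 0) (.e (nat_lit 3748) (nat_lit 228) (.e (nat_lit 786483) (nat_lit 30) .nil))))) (.g (nat_lit 0) (.e (nat_lit 111242) (nat_lit 0) .nil) .nil))))) (.nd (nat_lit 8) (.nd (nat_lit 9) 
(.lf (nat_lit 479376) (.g (nat_lit 1878) (.e (nat_lit 5200) (nat_lit 294) (.e (nat_lit 57412) (nat_lit 12) (.e (nat_lit 336176) (nat_lit 10) (.e (nat_lit 344157) (nat_lit 36) (.e (nat_lit 638986) (nat_lit 5) (.e (nat_lit 3015) (nat_lit 187) (.e (nat_lit 458496) (nat_lit 0) .nil))))))) (.g (nat_lit 1) (.e (nat_lit 108315) (nat_lit 0) .nil) .nil))) 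
(.lf (nat_lit 479888) (.g (nat_lit 3064) (.e (nat_lit 5762) (nat_lit 315) (.e (nat_lit 163962) (nat_lit 25) (.e (nat_lit 532546) (nat_lit 11) (.e (nat_lit 352313) (nat_lit 23) (.e (nat_lit 98350) (nat_lit 24) (.e (nat_lit 409617) (nat_lit 10) .nil)))))) (.g (nat_lit 1) (.e (nat_lit 110062) (nat_lit 0) .nil) .nil)))) (.nd (nat_lit 9) 
(.lf (nat_lit 479632) (.g (nat_lit 796) (.e (nat_lit 5664) (nat_lit 312) (.e (nat_lit 3062) (nat_lit 190) (.e (nat_lit 475213) (nat_lit 42) .nil))) (.g (nat_lit 0) (.e (nat_lit 108930) (nat_lit 0) .nil) .nil))) 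
(.lf (nat_lit 480144) (.g (nat_lit 2164) (.e (nat_lit 5934) (nat_lit 322) (.e (nat_lit 57371) (nat_lit 2) (.e (nat_lit 90171) (nat_lit 14) (.e (nat_lit 180252) (nat_lit 10) (.e (nat_lit 573489) (nat_lit 14) (.e (nat_lit 73755) (nat_lit 8) (.e (nat_lit 557090) (nat_lit 12) (.e (nat_lit 163841) (nat_lit 0) .nil)))))))) (.g (nat_lit 1) (.e (nat_lit 111470) (nat_lit 0) .nil) .nil)))))) 
(.nd (nat_lit 7) (.nd (nat_lit 8) (.nd (nat_lit 9) 
(.lf (nat_lit 479312) (.g (nat_lit 1144) (.e (nat_lit 5233) (nat_lit 296) (.e (nat_lit 163923) (nat_lit 15) (.e (nat_lit 450597) (nat_lit 17) (.e (nat_lit 663574) (nat_lit 9) .nil)))) (.g (nat_lit 0) (.e (nat_lit 108033) (nat_lit 0) .nil) .nil))) 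
(.lf (nat_lit 479824) (.g (nat_lit 2068) (.e (nat_lit 5757) (nat_lit 315) (.e (nat_lit 163962) (nat_lit 25) (.e (nat_lit 532535) (nat_lit 9) (.e (nat_lit 336099) (nat_lit 9) .nil)))) (.g (nat_lit 0) (.e (nat_lit 109856) (nat_lit 0) .nil) .nil)))) (.nd (nat_lit 9) 
(.lf (nat_lit 479568) (.g (nat_lit 2511) (.e (nat_lit 5628) (nat_lit 312) (.e (nat_lit 2668) (nat_lit 167) (.e (nat_lit 196666) (nat_lit 13) (.e (nat_lit 65617) (nat_lit 10) (.e (nat_lit 344119) (nat_lit 21) .nil))))) (.g (nat_lit 0) (.e (nat_lit 108737) (nat_lit 0) .nil) .nil))) 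
(.lf (nat_lit 480080) (.g (nat_lit 2019) (.e (nat_lit 5907) (nat_lit 320) (.e (nat_lit 1190) (nat_lit 88) (.e (nat_lit 65628) (nat_lit 14) (.e (nat_lit 401435) (nat_lit 9) (.e (nat_lit 426544) (nat_lit 30) .nil))))) (.g (nat_lit 0) (.e (nat_lit 111338) (nat_lit 0) .nil) .nil))))) (.nd (nat_lit 8) (.nd (nat_lit 9) 
(.lf (nat_lit 479440) (.g (nat_lit 1329) (.e (nat_lit 5616) (nat_lit 312) (.e (nat_lit 2668) (nat_lit 167) (.e (nat_lit 196674) (nat_lit 15) (.e (nat_lit 81955) (nat_lit 23) .nil)))) (.g (nat_lit 0) (.e (nat_lit 108427) (nat_lit 0) .nil) .nil))) 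
(.lf (nat_lit 479952) (.g (nat_lit 938) (.e (nat_lit 5771) (nat_lit 316) (.e (nat_lit 172150) (nat_lit 27) (.e (nat_lit 335895) (nat_lit 0) (.e (nat_lit 7936) (nat_lit 361) .nil)))) (.g (nat_lit 0) (.e (nat_lit 110280) (nat_lit 0) .nil) .nil)))) (.nd (nat_lit 9) 
(.lf (nat_lit 479696) (.g (nat_lit 4195) (.e (nat_lit 5738) (nat_lit 312) (.e (nat_lit 2663) (nat_lit 167) (.e (nat_lit 196666) (nat_lit 13) (.e (nat_lit 65610) (nat_lit 10) (.e (nat_lit 344117) (nat_lit 21) (.e (nat_lit 516106) (nat_lit 0) (.e (nat_lit 7008) (nat_lit 377) (.e (nat_lit 2425) (nat_lit 157) .nil)))))))) (.g (nat_lit 1) (.e (nat_lit 109215) (nat_lit 0) .nil) .nil))) 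
(.lf (nat_lit 480208) (.g (nat_lit 4556) (.e (nat_lit 5934) (nat_lit 322) (.e (nat_lit 57375) (nat_lit 2) (.e (nat_lit 90174) (nat_lit 14) (.e (nat_lit 180250) (nat_lit 10) (.e (nat_lit 573489) (nat_lit 14) (.e (nat_lit 73755) (nat_lit 8) (.e (nat_lit 557090) (nat_lit 12) (.e (nat_lit 163843) (nat_lit 0) .nil)))))))) (.g (nat_lit 1) (.e (nat_lit 111534) (nat_lit 0) .nil) .nil))))))) 
(.nd (nat_lit 6) (.nd (nat_lit 7) (.nd (nat_lit 8) (.nd (nat_lit 9) 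
(.lf (nat_lit 479280) (.g (nat_lit 2527) (.e (nat_lit 5224) (nat_lit 296) (.e (nat_lit 163903) (nat_lit 12) (.e (nat_lit 426566) (nat_lit 34) (.e (nat_lit 393273) (nat_lit 23) (.e (nat_lit 426428) (nat_lit 17) (.e (nat_lit 90165) (nat_lit 12) (.e (nat_lit 163853) (nat_lit 0) .nil))))))) (.g (nat_lit 1) (.e (nat_lit 107813) (nat_lit 0) .nil) .nil))) 
(.lf (nat_lit 479792) (.g (nat_lit 3940) (.e (nat_lit 5756) (nat_lit 315) (.e (nat_lit 163962) (nat_lit 25) (.e (nat_lit 532523) (nat_lit 7) (.e (nat_lit 319490) (nat_lit 0) (.e (nat_lit 5664) (nat_lit 312) (.e (nat_lit 2679) (nat_lit 168) (.e (nat_lit 204846) (nat_lit 24) (.e (nat_lit 319490) (nat_lit 0) .nil)))))))) (.g (nat_lit 1) (.e (nat_lit 109746) (nat_lit 0) .nil) .nil)))) 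
(.nd (nat_lit 9) 
(.lf (nat_lit 479536) (.g (nat_lit 5071) (.e (nat_lit 5626) (nat_lit 312) (.e (nat_lit 2685) (nat_lit 168) (.e (nat_lit 204869) (nat_lit 29) (.e (nat_lit 360475) (nat_lit 8) (.e (nat_lit 557067) (nat_lit 9) (.e (nat_lit 214) (nat_lit 19) (.e (nat_lit 319490) (nat_lit 0) .nil))))))) (.g (nat_lit 1) (.e (nat_lit 108661) (nat_lit 0) .nil) .nil))) 
(.lf (nat_lit 480048) (.g (nat_lit 1639) (.e (nat_lit 5905) (nat_lit 320) (.e (nat_lit 1199) (nat_lit 88) (.e (nat_lit 65630) (nat_lit 14) (.e (nat_lit 401438) (nat_lit 9) (.e (nat_lit 426546) (nat_lit 30) .nil))))) (.g (nat_lit 0) (.e (nat_lit 111295) (nat_lit 0) .nil) .nil))))) (.nd (nat_lit 8) (.nd (nat_lit 9) 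
(.lf (nat_lit 479408) (.g (nat_lit 4187) (.e (nat_lit 5612) (nat_lit 312) (.e (nat_lit 2668) (nat_lit 167) (.e (nat_lit 196666) (nat_lit 13) (.e (nat_lit 65610) (nat_lit 10) (.e (nat_lit 344117) (nat_lit 21) (.e (nat_lit 516141) (nat_lit 8) (.e (nat_lit 417816) (nat_lit 10) .nil))))))) (.g (nat_lit 1) (.e (nat_lit 108360) (nat_lit 0) .nil) .nil))) 
(.lf (nat_lit 479920) (.g (nat_lit 1156) (.e (nat_lit 5766) (nat_lit 316) (.e (nat_lit 172150) (nat_lit 27) (.e (nat_lit 335894) (nat_lit 0) (.e (nat_lit 6720) (nat_lit 361) .nil)))) (.g (nat_lit 0) (.e (nat_lit 110159) (nat_lit 0) .nil) .nil)))) (.nd (nat_lit 9) 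
(.lf (nat_lit 479664) (.g (nat_lit 1598) (.e (nat_lit 5664) (nat_lit 312) (.e (nat_lit 3085) (nat_lit 191) (.e (nat_lit 483412) (nat_lit 27) (.e (nat_lit 401440) (nat_lit 9) (.e (nat_lit 433920) (nat_lit 25) .nil))))) (.g (nat_lit 0) (.e (nat_lit 109009) (nat_lit 0) .nil) .nil))) 
(.lf (nat_lit 480176) (.g (nat_lit 2390) (.e (nat_lit 5934) (nat_lit 322) (.e (nat_lit 57372) (nat_lit 2) (.e (nat_lit 90174) (nat_lit 14) (.e (nat_lit 180243) (nat_lit 5) (.e (nat_lit 532513) (nat_lit 3) .nil))))) (.g (nat_lit 0) (.e (nat_lit 111502) (nat_lit 0) .nil) .nil)))))) (.nd (nat_lit 7) (.nd (nat_lit 8) (.nd (nat_lit 9) 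
(.lf (nat_lit 479344) (.g (nat_lit 2204) (.e (nat_lit 5195) (nat_lit 294) (.e (nat_lit 57372) (nat_lit 2) (.e (nat_lit 90159) (nat_lit 11) (.e (nat_lit 24657) (nat_lit 13) (.e (nat_lit 401152) (nat_lit 10) .nil))))) (.g (nat_lit 0) (.e (nat_lit 108214) (nat_lit 0) .nil) .nil))) 
(.lf (nat_lit 479856) (.g (nat_lit 4072) (.e (nat_lit 5761) (nat_lit 315) (.e (nat_lit 163962) (nat_lit 25) (.e (nat_lit 532535) (nat_lit 9) (.e (nat_lit 336176) (nat_lit 10) (.e (nat_lit 344130) (nat_lit 26) (.e (nat_lit 557067) (nat_lit 9) (.e (nat_lit 214) (nat_lit 19) (.e (nat_lit 319493) (nat_lit 0) .nil)))))))) (.g (nat_lit 1) (.e (nat_lit 109968) (nat_lit 0) .nil) .nil)))) (.nd (nat_lit 9) 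
(.lf (nat_lit 479600) (.g (nat_lit 1555) (.e (nat_lit 5664) (nat_lit 312) (.e (nat_lit 2661) (nat_lit 167) (.e (nat_lit 196681) (nat_lit 17) (.e (nat_lit 131109) (nat_lit 9) (.e (nat_lit 336018) (nat_lit 3) .nil))))) (.g (nat_lit 0) (.e (nat_lit 108853) (nat_lit 0) .nil) .nil))) 
(.lf (nat_lit 480112) (.g (nat_lit 1926) (.e (nat_lit 5969) (nat_lit 324) (.e (nat_lit 163874) (nat_lit 3) (.e (nat_lit 204880) (nat_lit 32) (.e (nat_lit 385096) (nat_lit 49) .nil)))) (.g (nat_lit 0) (.e (nat_lit 111428) (nat_lit 0) .nil) .nil))))) (.nd (nat_lit 8) (.nd (nat_lit 9) 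
(.lf (nat_lit 479472) (.g (nat_lit 3017) (.e (nat_lit 5626) (nat_lit 312) (.e (nat_lit 2668) (nat_lit 167) (.e (nat_lit 196666) (nat_lit 13) (.e (nat_lit 65610) (nat_lit 10) (.e (nat_lit 344117) (nat_lit 21) (.e (nat_lit 516102) (nat_lit 0) (.e (nat_lit 6989) (nat_lit 377) (.e (nat_lit 2408) (nat_lit 157) .nil)))))))) (.g (nat_lit 1) (.e (nat_lit 108483) (nat_lit 0) .nil) .nil))) 
(.lf (nat_lit 479984) (.g (nat_lit 2001) (.e (nat_lit 5779) (nat_lit 317) (.e (nat_lit 180263) (nat_lit 21) (.e (nat_lit 663583) (nat_lit 11) (.e (nat_lit 24617) (nat_lit 7) (.e (nat_lit 319526) (nat_lit 15) (.e (nat_lit 278529) (nat_lit 0) .nil)))))) (.g (nat_lit 1) (.e (nat_lit 111047) (nat_lit 0) .nil) .nil)))) (.nd (nat_lit 9) 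
(.lf (nat_lit 479728) (.g (nat_lit 1709) (.e (nat_lit 7936) (nat_lit 312) (.e (nat_lit 2668) (nat_lit 167) (.e (nat_lit 196666) (nat_lit 13) (.e (nat_lit 65614) (nat_lit 10) .nil)))) (.g (nat_lit 0) (.e (nat_lit 109535) (nat_lit 0) .nil) .nil))) 
(.lf (nat_lit 480240) (.g (nat_lit 2302) (.e (nat_lit 5935) (nat_lit 322) (.e (nat_lit 57375) (nat_lit 2) (.e (nat_lit 90174) (nat_lit 14) (.e (nat_lit 180252) (nat_lit 10) (.e (nat_lit 573489) (nat_lit 14) .nil))))) (.g (nat_lit 0) (.e (nat_lit 111566) (nat_lit 0) .nil) .nil))))))))) (.nd (nat_lit 4) (.nd (nat_lit 5) (.nd (nat_lit 6) (.nd (nat_lit 7) (.nd (nat_lit 8) (.nd (nat_lit 9) 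
(.lf (nat_lit 479240) (.g (nat_lit 2018) (.e (nat_lit 5224) (nat_lit 296) (.e (nat_lit 163871) (nat_lit 2) (.e (nat_lit 196656) (nat_lit 11) (.e (nat_lit 16465) (nat_lit 13) (.e (nat_lit 483339) (nat_lit 9) .nil))))) (.g (nat_lit 0) (.e (nat_lit 107528) (nat_lit 0) .nil) .nil))) 
(.lf (nat_lit 479752) (.g (nat_lit 2076) (.e (nat_lit 5750) (nat_lit 314) (.e (nat_lit 24662) (nat_lit 14) (.e (nat_lit 401459) (nat_lit 13) (.e (nat_lit 483350) (nat_lit 17) .nil)))) (.g (nat_lit 0) (.e (nat_lit 109613) (nat_lit 0) .nil) .nil)))) (.nd (nat_lit 9) 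
(.lf (nat_lit 479496) (.g (nat_lit 2286) (.e (nat_lit 5626) (nat_lit 312) (.e (nat_lit 2668) (nat_lit 167) (.e (nat_lit 196666) (nat_lit 13) (.e (nat_lit 65610) (nat_lit 10) (.e (nat_lit 344117) (nat_lit 21) (.e (nat_lit 516106) (nat_lit 0) (.e (nat_lit 7936) (nat_lit 377) (.e (nat_lit 2507) (nat_lit 157) .nil)))))))) (.g (nat_lit 1) (.e (nat_lit 108507) (nat_lit 0) .nil) .nil))) 
(.lf (nat_lit 480008) (.g (nat_lit 2004) (.e (nat_lit 5818) (nat_lit 320) (.e (nat_lit 1183) (nat_lit 87) (.e (nat_lit 57479) (nat_lit 28) (.e (nat_lit 557107) (nat_lit 15) .nil)))) (.g (nat_lit 0) (.e (nat_lit 111231) (nat_lit 0) .nil) .nil))))) (.nd (nat_lit 8) (.nd (nat_lit 9) 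
(.lf (nat_lit 479368) (.g (nat_lit 1325) (.e (nat_lit 5199) (nat_lit 294) (.e (nat_lit 57388) (nat_lit 5) (.e (nat_lit 114698) (nat_lit 11) (.e (nat_lit 426197) (nat_lit 9) .nil)))) (.g (nat_lit 0) (.e (nat_lit 108306) (nat_lit 0) .nil) .nil))) 
(.lf (nat_lit 479880) (.g (nat_lit 2726) (.e (nat_lit 5762) (nat_lit 315) (.e (nat_lit 163962) (nat_lit 25) (.e (nat_lit 532535) (nat_lit 9) (.e (nat_lit 336099) (nat_lit 9) (.e (nat_lit 336028) (nat_lit 3) .nil))))) (.g (nat_lit 0) (.e (nat_lit 110045) (nat_lit 0) .nil) .nil)))) (.nd (nat_lit 9) 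
(.lf (nat_lit 479624) (.g (nat_lit 1638) (.e (nat_lit 5664) (nat_lit 312) (.e (nat_lit 2679) (nat_lit 168) (.e (nat_lit 204869) (nat_lit 29) (.e (nat_lit 368384) (nat_lit 3) .nil)))) (.g (nat_lit 0) (.e (nat_lit 108887) (nat_lit 0) .nil) .nil))) 
(.lf (nat_lit 480136) (.g (nat_lit 1687) (.e (nat_lit 5933) (nat_lit 322) (.e (nat_lit 57375) (nat_lit 2) (.e (nat_lit 90174) (nat_lit 14) (.e (nat_lit 180243) (nat_lit 5) (.e (nat_lit 532515) (nat_lit 3) .nil))))) (.g (nat_lit 0) (.e (nat_lit 111462) (nat_lit 0) .nil) .nil)))))) (.nd (nat_lit 7) (.nd (nat_lit 8) (.nd (nat_lit 9) 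
(.lf (nat_lit 479304) (.g (nat_lit 1609) (.e (nat_lit 5229) (nat_lit 296) (.e (nat_lit 163923) (nat_lit 15) (.e (nat_lit 450597) (nat_lit 17) (.e (nat_lit 663574) (nat_lit 9) (.e (nat_lit 7936) (nat_lit 24) .nil))))) (.g (nat_lit 0) (.e (nat_lit 107982) (nat_lit 0) .nil) .nil))) 
(.lf (nat_lit 479816) (.g (nat_lit 2932) (.e (nat_lit 5756) (nat_lit 315) (.e (nat_lit 163962) (nat_lit 25) (.e (nat_lit 532549) (nat_lit 12) (.e (nat_lit 360466) (nat_lit 3) (.e (nat_lit 516142) (nat_lit 8) (.e (nat_lit 417815) (nat_lit 10) .nil)))))) (.g (nat_lit 1) (.e (nat_lit 109831) (nat_lit 0) .nil) .nil)))) (.nd (nat_lit 9) 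
(.lf (nat_lit 479560) (.g (nat_lit 2600) (.e (nat_lit 5627) (nat_lit 312) (.e (nat_lit 2668) (nat_lit 167) (.e (nat_lit 196666) (nat_lit 13) (.e (nat_lit 65610) (nat_lit 10) (.e (nat_lit 344117) (nat_lit 21) (.e (nat_lit 516106) (nat_lit 0) (.e (nat_lit 7016) (nat_lit 377) (.e (nat_lit 2449) (nat_lit 157) .nil)))))))) (.g (nat_lit 1) (.e (nat_lit 108698) (nat_lit 0) .nil) .nil))) 
(.lf (nat_lit 480072) (.g (nat_lit 484) (.e (nat_lit 5906) (nat_lit 320) (.e (nat_lit 1209) (nat_lit 89) (.e (nat_lit 81664) (nat_lit 32) .nil))) (.g (nat_lit 0) (.e (nat_lit 111320) (nat_lit 0) .nil) .nil))))) (.nd (nat_lit 8) (.nd (nat_lit 9) 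
(.lf (nat_lit 479432) (.g (nat_lit 2600) (.e (nat_lit 5616) (nat_lit 312) (.e (nat_lit 2668) (nat_lit 167) (.e (nat_lit 196666) (nat_lit 13) (.e (nat_lit 65610) (nat_lit 10) (.e (nat_lit 344117) (nat_lit 21) (.e (nat_lit 516106) (nat_lit 0) (.e (nat_lit 7008) (nat_lit 377) (.e (nat_lit 2427) (nat_lit 157) .nil)))))))) (.g (nat_lit 1) (.e (nat_lit 108419) (nat_lit 0) .nil) .nil))) 
(.lf (nat_lit 479944) (.g (nat_lit 450) (.e (nat_lit 5771) (nat_lit 316) (.e (nat_lit 172149) (nat_lit 27) (.e (nat_lit 335876) (nat_lit 0) (.e (nat_lit 6719) (nat_lit 361) (.e (nat_lit 172143) (nat_lit 25) (.e (nat_lit 319493) (nat_lit 0) .nil)))))) (.g (nat_lit 1) (.e (nat_lit 110272) (nat_lit 0) .nil) .nil)))) (.nd (nat_lit 9) 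
(.lf (nat_lit 479688) (.g (nat_lit 2558) (.e (nat_lit 5689) (nat_lit 312) (.e (nat_lit 2664) (nat_lit 167) (.e (nat_lit 196666) (nat_lit 13) (.e (nat_lit 65610) (nat_lit 10) (.e (nat_lit 344117) (nat_lit 21) (.e (nat_lit 516106) (nat_lit 0) (.e (nat_lit 6986) (nat_lit 377) (.e (nat_lit 2402) (nat_lit 157) .nil)))))))) (.g (nat_lit 1) (.e (nat_lit 109145) (nat_lit 0) .nil) .nil))) 
(.lf (nat_lit 480200) (.g (nat_lit 2661) (.e (nat_lit 5934) (nat_lit 322) (.e (nat_lit 57375) (nat_lit 2) (.e (nat_lit 90174) (nat_lit 14) (.e (nat_lit 180243) (nat_lit 5) (.e (nat_lit 532513) (nat_lit 3) (.e (nat_lit 114714) (nat_lit 22) (.e (nat_lit 90181) (nat_lit 16) (.e (nat_lit 229380) (nat_lit 0) .nil)))))))) (.g (nat_lit 1) (.e (nat_lit 111526) (nat_lit 0) .nil) .nil))))))) 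
(.nd (nat_lit 6) (.nd (nat_lit 7) (.nd (nat_lit 8) (.nd (nat_lit 9) 
(.lf (nat_lit 479272) (.g (nat_lit 2493) (.e (nat_lit 5224) (nat_lit 296) (.e (nat_lit 163903) (nat_lit 12) (.e (nat_lit 426479) (nat_lit 27) (.e (nat_lit 336434) (nat_lit 30) (.e (nat_lit 450586) (nat_lit 10) (.e (nat_lit 573475) (nat_lit 12) (.e (nat_lit 65280) (nat_lit 0) .nil))))))) (.g (nat_lit 1) (.e (nat_lit 107805) (nat_lit 0) .nil) .nil))) 
(.lf (nat_lit 479784) (.g (nat_lit 3450) (.e (nat_lit 7936) (nat_lit 314) (.e (nat_lit 24662) (nat_lit 14) (.e (nat_lit 401459) (nat_lit 13) (.e (nat_lit 483372) (nat_lit 21) (.e (nat_lit 319503) (nat_lit 10) .nil))))) (.g (nat_lit 0) (.e (nat_lit 109728) (nat_lit 0) .nil) .nil)))) (.nd (nat_lit 9) 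
(.lf (nat_lit 479528) (.g (nat_lit 1317) (.e (nat_lit 5626) (nat_lit 312) (.e (nat_lit 2685) (nat_lit 168) (.e (nat_lit 204869) (nat_lit 29) (.e (nat_lit 360473) (nat_lit 8) .nil)))) (.g (nat_lit 0) (.e (nat_lit 108650) (nat_lit 0) .nil) .nil))) 
(.lf (nat_lit 480040) (.g (nat_lit 1159) (.e (nat_lit 5902) (nat_lit 320) (.e (nat_lit 1211) (nat_lit 89) (.e (nat_lit 73781) (nat_lit 32) (.e (nat_lit 2857) (nat_lit 184) (.e (nat_lit 426546) (nat_lit 30) .nil))))) (.g (nat_lit 0) (.e (nat_lit 111284) (nat_lit 0) .nil) .nil))))) (.nd (nat_lit 8) (.nd (nat_lit 9) 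
(.lf (nat_lit 479400) (.g (nat_lit 2157) (.e (nat_lit 5612) (nat_lit 312) (.e (nat_lit 2668) (nat_lit 167) (.e (nat_lit 196666) (nat_lit 13) (.e (nat_lit 65610) (nat_lit 10) (.e (nat_lit 344117) (nat_lit 21) (.e (nat_lit 516106) (nat_lit 0) (.e (nat_lit 6986) (nat_lit 377) (.e (nat_lit 2507) (nat_lit 157) .nil)))))))) (.g (nat_lit 1) (.e (nat_lit 108352) (nat_lit 0) .nil) .nil))) 
(.lf (nat_lit 479912) (.g (nat_lit 1948) (.e (nat_lit 7936) (nat_lit 315) (.e (nat_lit 163962) (nat_lit 25) (.e (nat_lit 532535) (nat_lit 9) (.e (nat_lit 336099) (nat_lit 9) .nil)))) (.g (nat_lit 0) (.e (nat_lit 110116) (nat_lit 0) .nil) .nil)))) (.nd (nat_lit 9) 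
(.lf (nat_lit 479656) (.g (nat_lit 728) (.e (nat_lit 5664) (nat_lit 312) (.e (nat_lit 3085) (nat_lit 191) (.e (nat_lit 483377) (nat_lit 22) (.e (nat_lit 327708) (nat_lit 10) .nil)))) (.g (nat_lit 0) (.e (nat_lit 108969) (nat_lit 0) .nil) .nil))) 
(.lf (nat_lit 480168) (.g (nat_lit 4127) (.e (nat_lit 5934) (nat_lit 322) (.e (nat_lit 57371) (nat_lit 2) (.e (nat_lit 90174) (nat_lit 14) (.e (nat_lit 180252) (nat_lit 10) (.e (nat_lit 573489) (nat_lit 14) (.e (nat_lit 73755) (nat_lit 8) (.e (nat_lit 557090) (nat_lit 12) (.e (nat_lit 163844) (nat_lit 0) .nil)))))))) (.g (nat_lit 1) (.e (nat_lit 111494) (nat_lit 0) .nil) .nil)))))) 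
(.nd (nat_lit 7) (.nd (nat_lit 8) (.nd (nat_lit 9) 
(.lf (nat_lit 479336) (.g (nat_lit 1513) (.e (nat_lit 5194) (nat_lit 294) (.e (nat_lit 57372) (nat_lit 2) (.e (nat_lit 90160) (nat_lit 11) (.e (nat_lit 24655) (nat_lit 13) .nil)))) (.g (nat_lit 0) (.e (nat_lit 108194) (nat_lit 0) .nil) .nil))) 
(.lf (nat_lit 479848) (.g (nat_lit 2722) (.e (nat_lit 5761) (nat_lit 315) (.e (nat_lit 163962) (nat_lit 25) (.e (nat_lit 532535) (nat_lit 9) (.e (nat_lit 336099) (nat_lit 9) (.e (nat_lit 336013) (nat_lit 2) .nil))))) (.g (nat_lit 0) (.e (nat_lit 109943) (nat_lit 0) .nil) .nil)))) (.nd (nat_lit 9) 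
(.lf (nat_lit 479592) (.g (nat_lit 3304) (.e (nat_lit 5664) (nat_lit 312) (.e (nat_lit 2661) (nat_lit 167) (.e (nat_lit 196666) (nat_lit 13) (.e (nat_lit 65610) (nat_lit 10) (.e (nat_lit 344117) (nat_lit 21) (.e (nat_lit 516138) (nat_lit 7) (.e (nat_lit 417536) (nat_lit 10) .nil))))))) (.g (nat_lit 1) (.e (nat_lit 108845) (nat_lit 0) .nil) .nil))) 
(.lf (nat_lit 480104) (.g (nat_lit 1982) (.e (nat_lit 5968) (nat_lit 324) (.e (nat_lit 163871) (nat_lit 2) (.e (nat_lit 196665) (nat_lit 13) (.e (nat_lit 65637) (nat_lit 15) (.e (nat_lit 3748) (nat_lit 228) .nil))))) (.g (nat_lit 0) (.e (nat_lit 111406) (nat_lit 0) .nil) .nil))))) (.nd (nat_lit 8) (.nd (nat_lit 9) 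
(.lf (nat_lit 479464) (.g (nat_lit 3222) (.e (nat_lit 5626) (nat_lit 312) (.e (nat_lit 2668) (nat_lit 167) (.e (nat_lit 196666) (nat_lit 13) (.e (nat_lit 65610) (nat_lit 10) (.e (nat_lit 344117) (nat_lit 21) (.e (nat_lit 516098) (nat_lit 0) (.e (nat_lit 6964) (nat_lit 377) (.e (nat_lit 2510) (nat_lit 157) .nil)))))))) (.g (nat_lit 1) (.e (nat_lit 108475) (nat_lit 0) .nil) .nil))) 
(.lf (nat_lit 479976) (.g (nat_lit 3200) (.e (nat_lit 5779) (nat_lit 317) (.e (nat_lit 180243) (nat_lit 5) (.e (nat_lit 532569) (nat_lit 16) (.e (nat_lit 401448) (nat_lit 10) (.e (nat_lit 434227) (nat_lit 20) (.e (nat_lit 507928) (nat_lit 10) .nil)))))) (.g (nat_lit 1) (.e (nat_lit 110938) (nat_lit 0) .nil) .nil)))) (.nd (nat_lit 9) 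
(.lf (nat_lit 479720) (.g (nat_lit 2553) (.e (nat_lit 7936) (nat_lit 312) (.e (nat_lit 2667) (nat_lit 167) (.e (nat_lit 196674) (nat_lit 15) (.e (nat_lit 81956) (nat_lit 23) (.e (nat_lit 98350) (nat_lit 24) .nil))))) (.g (nat_lit 0) (.e (nat_lit 109522) (nat_lit 0) .nil) .nil))) 
(.lf (nat_lit 480232) (.g (nat_lit 2217) (.e (nat_lit 5935) (nat_lit 322) (.e (nat_lit 57371) (nat_lit 2) (.e (nat_lit 90174) (nat_lit 14) (.e (nat_lit 180243) (nat_lit 5) (.e (nat_lit 532513) (nat_lit 3) .nil))))) (.g (nat_lit 0) (.e (nat_lit 111558) (nat_lit 0) .nil) .nil)))))))) (.nd (nat_lit 5) (.nd (nat_lit 6) (.nd (nat_lit 7) (.nd (nat_lit 8) (.nd (nat_lit 9) 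
(.lf (nat_lit 479256) (.g (nat_lit 1645) (.e (nat_lit 5224) (nat_lit 296) (.e (nat_lit 163877) (nat_lit 4) (.e (nat_lit 213032) (nat_lit 11) (.e (nat_lit 24660) (nat_lit 13) (.e (nat_lit 393283) (nat_lit 24) (.e (nat_lit 434209) (nat_lit 18) .nil)))))) (.g (nat_lit 1) (.e (nat_lit 107778) (nat_lit 0) .nil) .nil))) 
(.lf (nat_lit 479768) (.g (nat_lit 1412) (.e (nat_lit 5751) (nat_lit 314) (.e (nat_lit 24665) (nat_lit 14) (.e (nat_lit 401435) (nat_lit 9) .nil))) (.g (nat_lit 0) (.e (nat_lit 109693) (nat_lit 0) .nil) .nil)))) (.nd (nat_lit 9) 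
(.lf (nat_lit 479512) (.g (nat_lit 2839) (.e (nat_lit 5626) (nat_lit 312) (.e (nat_lit 2685) (nat_lit 168) (.e (nat_lit 204846) (nat_lit 24) (.e (nat_lit 319528) (nat_lit 16) (.e (nat_lit 286735) (nat_lit 3) (.e (nat_lit 98323) (nat_lit 17) (.e (nat_lit 6989) (nat_lit 377) (.e (nat_lit 977) (nat_lit 81) .nil)))))))) (.g (nat_lit 1) (.e (nat_lit 108569) (nat_lit 0) .nil) .nil))) 
(.lf (nat_lit 480024) (.g (nat_lit 1747) (.e (nat_lit 5898) (nat_lit 320) (.e (nat_lit 1196) (nat_lit 88) (.e (nat_lit 65624) (nat_lit 12) (.e (nat_lit 385102) (nat_lit 50) (.e (nat_lit 786483) (nat_lit 30) .nil))))) (.g (nat_lit 0) (.e (nat_lit 111268) (nat_lit 0) .nil) .nil))))) (.nd (nat_lit 8) (.nd (nat_lit 9) 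
(.lf (nat_lit 479384) (.g (nat_lit 839) (.e (nat_lit 5202) (nat_lit 294) (.e (nat_lit 57427) (nat_lit 15) (.e (nat_lit 360480) (nat_lit 14) (.e (nat_lit 638986) (nat_lit 5) .nil)))) (.g (nat_lit 0) (.e (nat_lit 108326) (nat_lit 0) .nil) .nil))) 
(.lf (nat_lit 479896) (.g (nat_lit 3953) (.e (nat_lit 5762) (nat_lit 315) (.e (nat_lit 163962) (nat_lit 25) (.e (nat_lit 532549) (nat_lit 12) (.e (nat_lit 360466) (nat_lit 3) (.e (nat_lit 516139) (nat_lit 7) (.e (nat_lit 409616) (nat_lit 10) .nil)))))) (.g (nat_lit 1) (.e (nat_lit 110085) (nat_lit 0) .nil) .nil)))) (.nd (nat_lit 9) 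
(.lf (nat_lit 479640) (.g (nat_lit 2388) (.e (nat_lit 5664) (nat_lit 312) (.e (nat_lit 3078) (nat_lit 191) (.e (nat_lit 483413) (nat_lit 27) (.e (nat_lit 401444) (nat_lit 9) (.e (nat_lit 433920) (nat_lit 25) (.e (nat_lit 319491) (nat_lit 0) .nil)))))) (.g (nat_lit 1) (.e (nat_lit 108938) (nat_lit 0) .nil) .nil))) 
(.lf (nat_lit 480152) (.g (nat_lit 2248) (.e (nat_lit 5934) (nat_lit 322) (.e (nat_lit 57371) (nat_lit 2) (.e (nat_lit 90174) (nat_lit 14) (.e (nat_lit 180243) (nat_lit 5) (.e (nat_lit 532515) (nat_lit 3) .nil))))) (.g (nat_lit 0) (.e (nat_lit 111478) (nat_lit 0) .nil) .nil)))))) (.nd (nat_lit 7) (.nd (nat_lit 8) (.nd (nat_lit 9) 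
(.lf (nat_lit 479320) (.g (nat_lit 1722) (.e (nat_lit 5236) (nat_lit 297) (.e (nat_lit 229415) (nat_lit 15) (.e (nat_lit 450597) (nat_lit 17) (.e (nat_lit 663580) (nat_lit 9) (.e (nat_lit 7936) (nat_lit 24) .nil))))) (.g (nat_lit 0) (.e (nat_lit 108120) (nat_lit 0) .nil) .nil))) 
(.lf (nat_lit 479832) (.g (nat_lit 1911) (.e (nat_lit 5758) (nat_lit 315) (.e (nat_lit 163962) (nat_lit 25) (.e (nat_lit 532550) (nat_lit 12) (.e (nat_lit 360474) (nat_lit 8) (.e (nat_lit 557073) (nat_lit 9) .nil))))) (.g (nat_lit 0) (.e (nat_lit 109870) (nat_lit 0) .nil) .nil)))) (.nd (nat_lit 9) 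
(.lf (nat_lit 479576) (.g (nat_lit 1708) (.e (nat_lit 5642) (nat_lit 312) (.e (nat_lit 2679) (nat_lit 168) (.e (nat_lit 204868) (nat_lit 29) (.e (nat_lit 360466) (nat_lit 3) (.e (nat_lit 516142) (nat_lit 8) .nil))))) (.g (nat_lit 0) (.e (nat_lit 108758) (nat_lit 0) .nil) .nil))) 
(.lf (nat_lit 480088) (.g (nat_lit 2067) (.e (nat_lit 5909) (nat_lit 320) (.e (nat_lit 1200) (nat_lit 88) (.e (nat_lit 65628) (nat_lit 14) (.e (nat_lit 401437) (nat_lit 9) (.e (nat_lit 426546) (nat_lit 30) .nil))))) (.g (nat_lit 0) (.e (nat_lit 111349) (nat_lit 0) .nil) .nil))))) (.nd (nat_lit 8) (.nd (nat_lit 9) 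
(.lf (nat_lit 479448) (.g (nat_lit 1831) (.e (nat_lit 5629) (nat_lit 312) (.e (nat_lit 351) (nat_lit 28) (.e (nat_lit 393251) (nat_lit 18) (.e (nat_lit 164325) (nat_lit 230) (.e (nat_lit 163875) (nat_lit 3) .nil))))) (.g (nat_lit 0) (.e (nat_lit 108447) (nat_lit 0) .nil) .nil))) 
(.lf (nat_lit 479960) (.g (nat_lit 1720) (.e (nat_lit 5771) (nat_lit 316) (.e (nat_lit 172150) (nat_lit 27) (.e (nat_lit 336232) (nat_lit 14) (.e (nat_lit 401440) (nat_lit 9) (.e (nat_lit 426470) (nat_lit 25) (.e (nat_lit 319491) (nat_lit 0) .nil)))))) (.g (nat_lit 1) (.e (nat_lit 110290) (nat_lit 0) .nil) .nil)))) (.nd (nat_lit 9) 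
(.lf (nat_lit 479704) (.g (nat_lit 1900) (.e (nat_lit 5710) (nat_lit 312) (.e (nat_lit 2663) (nat_lit 167) (.e (nat_lit 196666) (nat_lit 13) (.e (nat_lit 65619) (nat_lit 10) .nil)))) (.g (nat_lit 0) (.e (nat_lit 109234) (nat_lit 0) .nil) .nil))) 
(.lf (nat_lit 480216) (.g (nat_lit 2276) (.e (nat_lit 5934) (nat_lit 322) (.e (nat_lit 57375) (nat_lit 2) (.e (nat_lit 90174) (nat_lit 14) (.e (nat_lit 180252) (nat_lit 10) (.e (nat_lit 573489) (nat_lit 14) (.e (nat_lit 73755) (nat_lit 8) (.e (nat_lit 557090) (nat_lit 12) (.e (nat_lit 163845) (nat_lit 0) .nil)))))))) (.g (nat_lit 1) (.e (nat_lit 111542) (nat_lit 0) .nil) .nil))))))) 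
(.nd (nat_lit 6) (.nd (nat_lit 7) (.nd (nat_lit 8) (.nd (nat_lit 9) 
(.lf (nat_lit 479288) (.g (nat_lit 682) (.e (nat_lit 5224) (nat_lit 296) (.e (nat_lit 163923) (nat_lit 15) (.e (nat_lit 450597) (nat_lit 17) .nil))) (.g (nat_lit 0) (.e (nat_lit 107852) (nat_lit 0) .nil) .nil))) 
(.lf (nat_lit 479800) (.g (nat_lit 3289) (.e (nat_lit 5756) (nat_lit 315) (.e (nat_lit 163962) (nat_lit 25) (.e (nat_lit 532535) (nat_lit 9) (.e (nat_lit 336099) (nat_lit 9) (.e (nat_lit 343808) (nat_lit 3) .nil))))) (.g (nat_lit 0) (.e (nat_lit 109762) (nat_lit 0) .nil) .nil)))) (.nd (nat_lit 9) 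
(.lf (nat_lit 479544) (.g (nat_lit 1433) (.e (nat_lit 5626) (nat_lit 312) (.e (nat_lit 3094) (nat_lit 191) (.e (nat_lit 483413) (nat_lit 27) (.e (nat_lit 401443) (nat_lit 9) (.e (nat_lit 433920) (nat_lit 25) .nil))))) (.g (nat_lit 0) (.e (nat_lit 108679) (nat_lit 0) .nil) .nil))) 
(.lf (nat_lit 480056) (.g (nat_lit 1034) (.e (nat_lit 5905) (nat_lit 320) (.e (nat_lit 1209) (nat_lit 89) (.e (nat_lit 73782) (nat_lit 32) (.e (nat_lit 3089) (nat_lit 191) .nil)))) (.g (nat_lit 0) (.e (nat_lit 111303) (nat_lit 0) .nil) .nil))))) (.nd (nat_lit 8) (.nd (nat_lit 9) 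
(.lf (nat_lit 479416) (.g (nat_lit 784) (.e (nat_lit 5612) (nat_lit 312) (.e (nat_lit 3062) (nat_lit 190) (.e (nat_lit 475185) (nat_lit 29) .nil))) (.g (nat_lit 0) (.e (nat_lit 108382) (nat_lit 0) .nil) .nil))) 
(.lf (nat_lit 479928) (.g (nat_lit 1187) (.e (nat_lit 5766) (nat_lit 316) (.e (nat_lit 172150) (nat_lit 27) (.e (nat_lit 336231) (nat_lit 14) (.e (nat_lit 401440) (nat_lit 9) .nil)))) (.g (nat_lit 0) (.e (nat_lit 110173) (nat_lit 0) .nil) .nil)))) (.nd (nat_lit 9) 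
(.lf (nat_lit 479672) (.g (nat_lit 3167) (.e (nat_lit 5664) (nat_lit 312) (.e (nat_lit 3085) (nat_lit 191) (.e (nat_lit 483413) (nat_lit 27) (.e (nat_lit 401443) (nat_lit 9) (.e (nat_lit 433920) (nat_lit 25) (.e (nat_lit 319491) (nat_lit 0) .nil)))))) (.g (nat_lit 1) (.e (nat_lit 109040) (nat_lit 0) .nil) .nil))) 
(.lf (nat_lit 480184) (.g (nat_lit 2860) (.e (nat_lit 5934) (nat_lit 322) (.e (nat_lit 57372) (nat_lit 2) (.e (nat_lit 90174) (nat_lit 14) (.e (nat_lit 180251) (nat_lit 10) (.e (nat_lit 573489) (nat_lit 14) (.e (nat_lit 73755) (nat_lit 8) (.e (nat_lit 557089) (nat_lit 12) (.e (nat_lit 163849) (nat_lit 0) .nil)))))))) (.g (nat_lit 1) (.e (nat_lit 111510) (nat_lit 0) .nil) .nil)))))) 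
(.nd (nat_lit 7) (.nd (nat_lit 8) (.nd (nat_lit 9) 
(.lf (nat_lit 479352) (.g (nat_lit 1533) (.e (nat_lit 5195) (nat_lit 294) (.e (nat_lit 57388) (nat_lit 5) (.e (nat_lit 114698) (nat_lit 11) (.e (nat_lit 426186) (nat_lit 9) .nil)))) (.g (nat_lit 0) (.e (nat_lit 108249) (nat_lit 0) .nil) .nil))) 
(.lf (nat_lit 479864) (.g (nat_lit 2306) (.e (nat_lit 5761) (nat_lit 315) (.e (nat_lit 163962) (nat_lit 25) (.e (nat_lit 532545) (nat_lit 10) (.e (nat_lit 352000) (nat_lit 3) (.e (nat_lit 163962) (nat_lit 25) (.e (nat_lit 532523) (nat_lit 7) (.e (nat_lit 319492) (nat_lit 0) .nil))))))) (.g (nat_lit 1) (.e (nat_lit 109984) (nat_lit 0) .nil) .nil)))) (.nd (nat_lit 9) 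
(.lf (nat_lit 479608) (.g (nat_lit 1116) (.e (nat_lit 5664) (nat_lit 312) (.e (nat_lit 2679) (nat_lit 168) (.e (nat_lit 204846) (nat_lit 24) (.e (nat_lit 319504) (nat_lit 10) .nil)))) (.g (nat_lit 0) (.e (nat_lit 108864) (nat_lit 0) .nil) .nil))) 
(.lf (nat_lit 480120) (.g (nat_lit 2944) (.e (nat_lit 5932) (nat_lit 322) (.e (nat_lit 57372) (nat_lit 2) (.e (nat_lit 90172) (nat_lit 14) (.e (nat_lit 180250) (nat_lit 10) (.e (nat_lit 573488) (nat_lit 14) .nil))))) (.g (nat_lit 0) (.e (nat_lit 111446) (nat_lit 0) .nil) .nil))))) (.nd (nat_lit 8) (.nd (nat_lit 9) 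
(.lf (nat_lit 479480) (.g (nat_lit 2933) (.e (nat_lit 5626) (nat_lit 312) (.e (nat_lit 2668) (nat_lit 167) (.e (nat_lit 196666) (nat_lit 13) (.e (nat_lit 65610) (nat_lit 10) (.e (nat_lit 344117) (nat_lit 21) (.e (nat_lit 516106) (nat_lit 0) (.e (nat_lit 6966) (nat_lit 377) (.e (nat_lit 2500) (nat_lit 157) .nil)))))))) (.g (nat_lit 1) (.e (nat_lit 108491) (nat_lit 0) .nil) .nil))) 
(.lf (nat_lit 479992) (.g (nat_lit 2044) (.e (nat_lit 5796) (nat_lit 320) (.e (nat_lit 2558) (nat_lit 159) (.e (nat_lit 24640) (nat_lit 10) (.e (nat_lit 344156) (nat_lit 36) (.e (nat_lit 638999) (nat_lit 8) .nil))))) (.g (nat_lit 0) (.e (nat_lit 111202) (nat_lit 0) .nil) .nil)))) (.nd (nat_lit 9) 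
(.lf (nat_lit 479736) (.g (nat_lit 1420) (.e (nat_lit 5747) (nat_lit 314) (.e (nat_lit 24648) (nat_lit 12) (.e (nat_lit 385094) (nat_lit 49) (.e (nat_lit 778323) (nat_lit 5) .nil)))) (.g (nat_lit 0) (.e (nat_lit 109556) (nat_lit 0) .nil) .nil))) 
(.lf (nat_lit 480248) (.g (nat_lit 2545) (.e (nat_lit 5936) (nat_lit 322) (.e (nat_lit 57378) (nat_lit 3) (.e (nat_lit 98365) (nat_lit 26) (.e (nat_lit 426325) (nat_lit 13) (.e (nat_lit 483341) (nat_lit 9) .nil))))) (.g (nat_lit 0) (.e (nat_lit 111574) (nat_lit 0) .nil) .nil)))))))))) 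
(.nd (nat_lit 3) (.nd (nat_lit 4) (.nd (nat_lit 5) (.nd (nat_lit 6) (.nd (nat_lit 7) 
(.nd (nat_lit 8) (.nd (nat_lit 9) 
(.lf (nat_lit 479236) (.g (nat_lit 2392) (.e (nat_lit 5224) (nat_lit 296) (.e (nat_lit 163871) (nat_lit 2) (.e (nat_lit 196656) (nat_lit 11) (.e (nat_lit 16463) (nat_lit 13) (.e (nat_lit 483339) (nat_lit 9) .nil))))) (.g (nat_lit 0) (.e (nat_lit 107523) (nat_lit 0) .nil) .nil))) 
(.lf (nat_lit 479748) (.g (nat_lit 1382) (.e (nat_lit 5750) (nat_lit 314) (.e (nat_lit 24628) (nat_lit 9) (.e (nat_lit 336019) (nat_lit 3) (.e (nat_lit 106240) (nat_lit 15) .nil)))) (.g (nat_lit 0) (.e (nat_lit 109605) (nat_lit 0) .nil) .nil)))) (.nd (nat_lit 9) 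
(.lf (nat_lit 479492) (.g (nat_lit 3186) (.e (nat_lit 5626) (nat_lit 312) (.e (nat_lit 2668) (nat_lit 167) (.e (nat_lit 196666) (nat_lit 13) (.e (nat_lit 65610) (nat_lit 10) (.e (nat_lit 344117) (nat_lit 21) (.e (nat_lit 516106) (nat_lit 0) (.e (nat_lit 7936) (nat_lit 377) (.e (nat_lit 2398) (nat_lit 157) .nil)))))))) (.g (nat_lit 1) (.e (nat_lit 108503) (nat_lit 0) .nil) .nil))) 
(.lf (nat_lit 480004) (.g (nat_lit 1964) (.e (nat_lit 5817) (nat_lit 320) (.e (nat_lit 1201) (nat_lit 88) (.e (nat_lit 65628) (nat_lit 14) (.e (nat_lit 401437) (nat_lit 9) (.e (nat_lit 426546) (nat_lit 30) .nil))))) (.g (nat_lit 0) (.e (nat_lit 111226) (nat_lit 0) .nil) .nil))))) (.nd (nat_lit 8) (.nd (nat_lit 9) 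
(.lf (nat_lit 479364) (.g (nat_lit 1971) (.e (nat_lit 5195) (nat_lit 294) (.e (nat_lit 57427) (nat_lit 15) (.e (nat_lit 360484) (nat_lit 15) (.e (nat_lit 647196) (nat_lit 9) (.e (nat_lit 7936) (nat_lit 35) (.e (nat_lit 458496) (nat_lit 0) .nil)))))) (.g (nat_lit 1) (.e (nat_lit 108292) (nat_lit 0) .nil) .nil))) 
(.lf (nat_lit 479876) (.g (nat_lit 2265) (.e (nat_lit 5762) (nat_lit 315) (.e (nat_lit 163962) (nat_lit 25) (.e (nat_lit 532535) (nat_lit 9) (.e (nat_lit 336073) (nat_lit 9) (.e (nat_lit 336019) (nat_lit 3) .nil))))) (.g (nat_lit 0) (.e (nat_lit 110036) (nat_lit 0) .nil) .nil)))) (.nd (nat_lit 9) 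
(.lf (nat_lit 479620) (.g (nat_lit 3360) (.e (nat_lit 5664) (nat_lit 312) (.e (nat_lit 2679) (nat_lit 168) (.e (nat_lit 204868) (nat_lit 29) (.e (nat_lit 360466) (nat_lit 3) (.e (nat_lit 516142) (nat_lit 8) (.e (nat_lit 425728) (nat_lit 10) .nil)))))) (.g (nat_lit 1) (.e (nat_lit 108881) (nat_lit 0) .nil) .nil))) 
(.lf (nat_lit 480132) (.g (nat_lit 2167) (.e (nat_lit 5933) (nat_lit 322) (.e (nat_lit 57374) (nat_lit 2) (.e (nat_lit 90174) (nat_lit 14) (.e (nat_lit 180251) (nat_lit 10) (.e (nat_lit 573489) (nat_lit 14) .nil))))) (.g (nat_lit 0) (.e (nat_lit 111458) (nat_lit 0) .nil) .nil)))))) (.nd (nat_lit 7) (.nd (nat_lit 8) (.nd (nat_lit 9) 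
(.lf (nat_lit 479300) (.g (nat_lit 2052) (.e (nat_lit 5229) (nat_lit 296) (.e (nat_lit 163920) (nat_lit 14) (.e (nat_lit 442430) (nat_lit 24) (.e (nat_lit 229637) (nat_lit 228) .nil)))) (.g (nat_lit 0) (.e (nat_lit 107978) (nat_lit 0) .nil) .nil))) 
(.lf (nat_lit 479812) (.g (nat_lit 3890) (.e (nat_lit 5756) (nat_lit 315) (.e (nat_lit 163962) (nat_lit 25) (.e (nat_lit 532549) (nat_lit 12) (.e (nat_lit 360466) (nat_lit 3) (.e (nat_lit 516139) (nat_lit 7) (.e (nat_lit 409616) (nat_lit 10) .nil)))))) (.g (nat_lit 1) (.e (nat_lit 109827) (nat_lit 0) .nil) .nil)))) (.nd (nat_lit 9) 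
(.lf (nat_lit 479556) (.g (nat_lit 2735) (.e (nat_lit 5627) (nat_lit 312) (.e (nat_lit 2668) (nat_lit 167) (.e (nat_lit 196666) (nat_lit 13) (.e (nat_lit 65610) (nat_lit 10) (.e (nat_lit 344117) (nat_lit 21) (.e (nat_lit 516106) (nat_lit 0) (.e (nat_lit 7008) (nat_lit 377) (.e (nat_lit 2447) (nat_lit 157) .nil)))))))) (.g (nat_lit 1) (.e (nat_lit 108694) (nat_lit 0) .nil) .nil))) 
(.lf (nat_lit 480068) (.g (nat_lit 1883) (.e (nat_lit 5906) (nat_lit 320) (.e (nat_lit 1200) (nat_lit 88) (.e (nat_lit 65630) (nat_lit 14) (.e (nat_lit 401438) (nat_lit 9) (.e (nat_lit 426546) (nat_lit 30) .nil))))) (.g (nat_lit 0) (.e (nat_lit 111316) (nat_lit 0) .nil) .nil))))) (.nd (nat_lit 8) (.nd (nat_lit 9) 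
(.lf (nat_lit 479428) (.g (nat_lit 1974) (.e (nat_lit 5615) (nat_lit 312) (.e (nat_lit 2668) (nat_lit 167) (.e (nat_lit 196666) (nat_lit 13) (.e (nat_lit 65617) (nat_lit 10) .nil)))) (.g (nat_lit 0) (.e (nat_lit 108410) (nat_lit 0) .nil) .nil))) 
(.lf (nat_lit 479940) (.g (nat_lit 619) (.e (nat_lit 5771) (nat_lit 316) (.e (nat_lit 172144) (nat_lit 26) (.e (nat_lit 327683) (nat_lit 0) (.e (nat_lit 5772) (nat_lit 316) (.e (nat_lit 172143) (nat_lit 25) (.e (nat_lit 319493) (nat_lit 0) .nil)))))) (.g (nat_lit 1) (.e (nat_lit 110268) (nat_lit 0) .nil) .nil)))) (.nd (nat_lit 9) 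
(.lf (nat_lit 479684) (.g (nat_lit 2544) (.e (nat_lit 5683) (nat_lit 312) (.e (nat_lit 2668) (nat_lit 167) (.e (nat_lit 196666) (nat_lit 13) (.e (nat_lit 65610) (nat_lit 10) (.e (nat_lit 344117) (nat_lit 21) .nil))))) (.g (nat_lit 0) (.e (nat_lit 109119) (nat_lit 0) .nil) .nil))) 
(.lf (nat_lit 480196) (.g (nat_lit 2031) (.e (nat_lit 5934) (nat_lit 322) (.e (nat_lit 57375) (nat_lit 2) (.e (nat_lit 90174) (nat_lit 14) (.e (nat_lit 180243) (nat_lit 5) (.e (nat_lit 532513) (nat_lit 3) (.e (nat_lit 114714) (nat_lit 22) (.e (nat_lit 90165) (nat_lit 12) (.e (nat_lit 163854) (nat_lit 0) .nil)))))))) (.g (nat_lit 1) (.e (nat_lit 111522) (nat_lit 0) .nil) .nil))))))) 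
(.nd (nat_lit 6) (.nd (nat_lit 7) (.nd (nat_lit 8) (.nd (nat_lit 9) 
(.lf (nat_lit 479268) (.g (nat_lit 2134) (.e (nat_lit 5224) (nat_lit 296) (.e (nat_lit 163903) (nat_lit 12) (.e (nat_lit 426479) (nat_lit 27) (.e (nat_lit 336432) (nat_lit 30) (.e (nat_lit 450586) (nat_lit 10) (.e (nat_lit 573473) (nat_lit 12) (.e (nat_lit 65280) (nat_lit 0) .nil))))))) (.g (nat_lit 1) (.e (nat_lit 107800) (nat_lit 0) .nil) .nil))) 
(.lf (nat_lit 479780) (.g (nat_lit 689) (.e (nat_lit 7936) (nat_lit 314) (.e (nat_lit 24662) (nat_lit 14) (.e (nat_lit 401459) (nat_lit 13) (.e (nat_lit 483350) (nat_lit 17) .nil)))) (.g (nat_lit 0) (.e (nat_lit 109724) (nat_lit 0) .nil) .nil)))) (.nd (nat_lit 9) 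
(.lf (nat_lit 479524) (.g (nat_lit 2694) (.e (nat_lit 5626) (nat_lit 312) (.e (nat_lit 2685) (nat_lit 168) (.e (nat_lit 204868) (nat_lit 29) (.e (nat_lit 360473) (nat_lit 8) (.e (nat_lit 557073) (nat_lit 9) (.e (nat_lit 214) (nat_lit 19) (.e (nat_lit 319493) (nat_lit 0) .nil))))))) (.g (nat_lit 1) (.e (nat_lit 108642) (nat_lit 0) .nil) .nil))) 
(.lf (nat_lit 480036) (.g (nat_lit 578) (.e (nat_lit 5902) (nat_lit 320) (.e (nat_lit 1211) (nat_lit 89) (.e (nat_lit 73781) (nat_lit 32) (.e (nat_lit 2855) (nat_lit 184) .nil)))) (.g (nat_lit 0) (.e (nat_lit 111280) (nat_lit 0) .nil) .nil))))) (.nd (nat_lit 8) (.nd (nat_lit 9) 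
(.lf (nat_lit 479396) (.g (nat_lit 1547) (.e (nat_lit 5612) (nat_lit 312) (.e (nat_lit 293) (nat_lit 21) (.e (nat_lit 336235) (nat_lit 14) (.e (nat_lit 401459) (nat_lit 13) (.e (nat_lit 483372) (nat_lit 21) .nil))))) (.g (nat_lit 0) (.e (nat_lit 108348) (nat_lit 0) .nil) .nil))) 
(.lf (nat_lit 479908) (.g (nat_lit 2837) (.e (nat_lit 5763) (nat_lit 315) (.e (nat_lit 163962) (nat_lit 25) (.e (nat_lit 532549) (nat_lit 12) (.e (nat_lit 360466) (nat_lit 3) (.e (nat_lit 516142) (nat_lit 8) (.e (nat_lit 417815) (nat_lit 10) .nil)))))) (.g (nat_lit 1) (.e (nat_lit 110109) (nat_lit 0) .nil) .nil)))) (.nd (nat_lit 9) 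
(.lf (nat_lit 479652) (.g (nat_lit 447) (.e (nat_lit 5664) (nat_lit 312) (.e (nat_lit 3085) (nat_lit 191) (.e (nat_lit 483371) (nat_lit 21) .nil))) (.g (nat_lit 0) (.e (nat_lit 108958) (nat_lit 0) .nil) .nil))) 
(.lf (nat_lit 480164) (.g (nat_lit 4335) (.e (nat_lit 5934) (nat_lit 322) (.e (nat_lit 57371) (nat_lit 2) (.e (nat_lit 90174) (nat_lit 14) (.e (nat_lit 180251) (nat_lit 10) (.e (nat_lit 573489) (nat_lit 14) (.e (nat_lit 73755) (nat_lit 8) (.e (nat_lit 557090) (nat_lit 12) (.e (nat_lit 163841) (nat_lit 0) .nil)))))))) (.g (nat_lit 1) (.e (nat_lit 111490) (nat_lit 0) .nil) .nil)))))) 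
(.nd (nat_lit 7) (.nd (nat_lit 8) (.nd (nat_lit 9) 
(.lf (nat_lit 479332) (.g (nat_lit 1693) (.e (nat_lit 5193) (nat_lit 294) (.e (nat_lit 57388) (nat_lit 5) (.e (nat_lit 114698) (nat_lit 11) (.e (nat_lit 426198) (nat_lit 9) (.e (nat_lit 426546) (nat_lit 30) .nil))))) (.g (nat_lit 0) (.e (nat_lit 108160) (nat_lit 0) .nil) .nil))) 
(.lf (nat_lit 479844) (.g (nat_lit 1760) (.e (nat_lit 5761) (nat_lit 315) (.e (nat_lit 163962) (nat_lit 25) (.e (nat_lit 532535) (nat_lit 9) (.e (nat_lit 336061) (nat_lit 7) .nil)))) (.g (nat_lit 0) (.e (nat_lit 109932) (nat_lit 0) .nil) .nil)))) (.nd (nat_lit 9) 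
(.lf (nat_lit 479588) (.g (nat_lit 2328) (.e (nat_lit 5664) (nat_lit 312) (.e (nat_lit 2661) (nat_lit 167) (.e (nat_lit 196666) (nat_lit 13) (.e (nat_lit 65610) (nat_lit 10) (.e (nat_lit 344117) (nat_lit 21) (.e (nat_lit 516102) (nat_lit 0) (.e (nat_lit 6989) (nat_lit 377) (.e (nat_lit 7936) (nat_lit 157) .nil)))))))) (.g (nat_lit 1) (.e (nat_lit 108841) (nat_lit 0) .nil) .nil))) 
(.lf (nat_lit 480100) (.g (nat_lit 2315) (.e (nat_lit 5966) (nat_lit 324) (.e (nat_lit 163875) (nat_lit 3) (.e (nat_lit 204883) (nat_lit 33) (.e (nat_lit 401457) (nat_lit 13) (.e (nat_lit 491264) (nat_lit 10) .nil))))) (.g (nat_lit 0) (.e (nat_lit 111384) (nat_lit 0) .nil) .nil))))) (.nd (nat_lit 8) (.nd (nat_lit 9) 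
(.lf (nat_lit 479460) (.g (nat_lit 3143) (.e (nat_lit 5626) (nat_lit 312) (.e (nat_lit 2668) (nat_lit 167) (.e (nat_lit 196666) (nat_lit 13) (.e (nat_lit 65610) (nat_lit 10) (.e (nat_lit 344117) (nat_lit 21) (.e (nat_lit 516098) (nat_lit 0) (.e (nat_lit 6961) (nat_lit 377) (.e (nat_lit 2509) (nat_lit 157) .nil)))))))) (.g (nat_lit 1) (.e (nat_lit 108471) (nat_lit 0) .nil) .nil))) 
(.lf (nat_lit 479972) (.g (nat_lit 2510) (.e (nat_lit 5777) (nat_lit 317) (.e (nat_lit 180244) (nat_lit 5) (.e (nat_lit 532569) (nat_lit 16) (.e (nat_lit 401448) (nat_lit 10) (.e (nat_lit 434226) (nat_lit 20) .nil))))) (.g (nat_lit 0) (.e (nat_lit 110604) (nat_lit 0) .nil) .nil)))) (.nd (nat_lit 9) 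
(.lf (nat_lit 479716) (.g (nat_lit 2532) (.e (nat_lit 5726) (nat_lit 312) (.e (nat_lit 2663) (nat_lit 167) (.e (nat_lit 196672) (nat_lit 15) (.e (nat_lit 81954) (nat_lit 23) (.e (nat_lit 98350) (nat_lit 24) .nil))))) (.g (nat_lit 0) (.e (nat_lit 109455) (nat_lit 0) .nil) .nil))) 
(.lf (nat_lit 480228) (.g (nat_lit 911) (.e (nat_lit 5934) (nat_lit 322) (.e (nat_lit 57424) (nat_lit 14) (.e (nat_lit 352262) (nat_lit 0) .nil))) (.g (nat_lit 0) (.e (nat_lit 111554) (nat_lit 0) .nil) .nil)))))))) (.nd (nat_lit 5) (.nd (nat_lit 6) (.nd (nat_lit 7) (.nd (nat_lit 8) (.nd (nat_lit 9) 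
(.lf (nat_lit 479252) (.g (nat_lit 2343) (.e (nat_lit 5224) (nat_lit 296) (.e (nat_lit 163875) (nat_lit 3) (.e (nat_lit 204830) (nat_lit 18) (.e (nat_lit 57929) (nat_lit 282) (.e (nat_lit 164084) (nat_lit 73) (.e (nat_lit 336027) (nat_lit 3) (.e (nat_lit 98376) (nat_lit 30) (.e (nat_lit 458774) (nat_lit 18) .nil)))))))) (.g (nat_lit 1) (.e (nat_lit 107769) (nat_lit 0) .nil) .nil))) 
(.lf (nat_lit 479764) (.g (nat_lit 2205) (.e (nat_lit 5753) (nat_lit 314) (.e (nat_lit 24662) (nat_lit 14) (.e (nat_lit 401459) (nat_lit 13) (.e (nat_lit 483354) (nat_lit 17) .nil)))) (.g (nat_lit 0) (.e (nat_lit 109682) (nat_lit 0) .nil) .nil)))) (.nd (nat_lit 9) 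
(.lf (nat_lit 479508) (.g (nat_lit 3294) (.e (nat_lit 5626) (nat_lit 312) (.e (nat_lit 2668) (nat_lit 167) (.e (nat_lit 196666) (nat_lit 13) (.e (nat_lit 65619) (nat_lit 10) (.e (nat_lit 344117) (nat_lit 21) (.e (nat_lit 516106) (nat_lit 0) (.e (nat_lit 6986) (nat_lit 377) (.e (nat_lit 2512) (nat_lit 157) .nil)))))))) (.g (nat_lit 1) (.e (nat_lit 108560) (nat_lit 0) .nil) .nil))) 
(.lf (nat_lit 480020) (.g (nat_lit 1897) (.e (nat_lit 5861) (nat_lit 320) (.e (nat_lit 1209) (nat_lit 89) (.e (nat_lit 73781) (nat_lit 32) (.e (nat_lit 3090) (nat_lit 191) (.e (nat_lit 483396) (nat_lit 24) .nil))))) (.g (nat_lit 0) (.e (nat_lit 111259) (nat_lit 0) .nil) .nil))))) (.nd (nat_lit 8) (.nd (nat_lit 9) 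
(.lf (nat_lit 479380) (.g (nat_lit 1160) (.e (nat_lit 5201) (nat_lit 294) (.e (nat_lit 57412) (nat_lit 12) (.e (nat_lit 336176) (nat_lit 10) (.e (nat_lit 344157) (nat_lit 36) .nil)))) (.g (nat_lit 0) (.e (nat_lit 108322) (nat_lit 0) .nil) .nil))) 
(.lf (nat_lit 479892) (.g (nat_lit 2612) (.e (nat_lit 5762) (nat_lit 315) (.e (nat_lit 163962) (nat_lit 25) (.e (nat_lit 532547) (nat_lit 11) (.e (nat_lit 352315) (nat_lit 23) (.e (nat_lit 98349) (nat_lit 24) (.e (nat_lit 417536) (nat_lit 10) .nil)))))) (.g (nat_lit 1) (.e (nat_lit 110074) (nat_lit 0) .nil) .nil)))) (.nd (nat_lit 9) 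
(.lf (nat_lit 479636) (.g (nat_lit 1951) (.e (nat_lit 5664) (nat_lit 312) (.e (nat_lit 3078) (nat_lit 191) (.e (nat_lit 483413) (nat_lit 27) (.e (nat_lit 401434) (nat_lit 9) (.e (nat_lit 426470) (nat_lit 25) .nil))))) (.g (nat_lit 0) (.e (nat_lit 108934) (nat_lit 0) .nil) .nil))) 
(.lf (nat_lit 480148) (.g (nat_lit 3310) (.e (nat_lit 5934) (nat_lit 322) (.e (nat_lit 57371) (nat_lit 2) (.e (nat_lit 90173) (nat_lit 14) (.e (nat_lit 180252) (nat_lit 10) (.e (nat_lit 573489) (nat_lit 14) (.e (nat_lit 73755) (nat_lit 8) (.e (nat_lit 557090) (nat_lit 12) (.e (nat_lit 163841) (nat_lit 0) .nil)))))))) (.g (nat_lit 1) (.e (nat_lit 111474) (nat_lit 0) .nil) .nil)))))) 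
(.nd (nat_lit 7) (.nd (nat_lit 8) (.nd (nat_lit 9) 
(.lf (nat_lit 479316) (.g (nat_lit 713) (.e (nat_lit 5236) (nat_lit 297) (.e (nat_lit 229412) (nat_lit 14) (.e (nat_lit 442421) (nat_lit 21) .nil))) (.g (nat_lit 0) (.e (nat_lit 108114) (nat_lit 0) .nil) .nil))) 
(.lf (nat_lit 479828) (.g (nat_lit 2736) (.e (nat_lit 5757) (nat_lit 315) (.e (nat_lit 163962) (nat_lit 25) (.e (nat_lit 532549) (nat_lit 12) (.e (nat_lit 360466) (nat_lit 3) (.e (nat_lit 516142) (nat_lit 8) (.e (nat_lit 417815) (nat_lit 10) .nil)))))) (.g (nat_lit 1) (.e (nat_lit 109863) (nat_lit 0) .nil) .nil)))) (.nd (nat_lit 9) 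
(.lf (nat_lit 479572) (.g (nat_lit 3482) (.e (nat_lit 5642) (nat_lit 312) (.e (nat_lit 2661) (nat_lit 167) (.e (nat_lit 196666) (nat_lit 13) (.e (nat_lit 65610) (nat_lit 10) (.e (nat_lit 344117) (nat_lit 21) (.e (nat_lit 516139) (nat_lit 7) (.e (nat_lit 417536) (nat_lit 10) .nil))))))) (.g (nat_lit 1) (.e (nat_lit 108754) (nat_lit 0) .nil) .nil))) 
(.lf (nat_lit 480084) (.g (nat_lit 1147) (.e (nat_lit 5907) (nat_lit 320) (.e (nat_lit 1209) (nat_lit 89) (.e (nat_lit 73782) (nat_lit 32) (.e (nat_lit 2842) (nat_lit 184) (.e (nat_lit 426546) (nat_lit 30) .nil))))) (.g (nat_lit 0) (.e (nat_lit 111345) (nat_lit 0) .nil) .nil))))) (.nd (nat_lit 8) (.nd (nat_lit 9) 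
(.lf (nat_lit 479444) (.g (nat_lit 1528) (.e (nat_lit 5629) (nat_lit 312) (.e (nat_lit 226) (nat_lit 21) (.e (nat_lit 336430) (nat_lit 29) (.e (nat_lit 442425) (nat_lit 23) .nil)))) (.g (nat_lit 0) (.e (nat_lit 108443) (nat_lit 0) .nil) .nil))) 
(.lf (nat_lit 479956) (.g (nat_lit 2029) (.e (nat_lit 5771) (nat_lit 316) (.e (nat_lit 172150) (nat_lit 27) (.e (nat_lit 336231) (nat_lit 14) (.e (nat_lit 401434) (nat_lit 9) (.e (nat_lit 433920) (nat_lit 25) (.e (nat_lit 319492) (nat_lit 0) .nil)))))) (.g (nat_lit 1) (.e (nat_lit 110285) (nat_lit 0) .nil) .nil)))) (.nd (nat_lit 9) 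
(.lf (nat_lit 479700) (.g (nat_lit 1385) (.e (nat_lit 5738) (nat_lit 312) (.e (nat_lit 2663) (nat_lit 167) (.e (nat_lit 196672) (nat_lit 15) (.e (nat_lit 81956) (nat_lit 23) .nil)))) (.g (nat_lit 0) (.e (nat_lit 109226) (nat_lit 0) .nil) .nil))) 
(.lf (nat_lit 480212) (.g (nat_lit 3179) (.e (nat_lit 5934) (nat_lit 322) (.e (nat_lit 57375) (nat_lit 2) (.e (nat_lit 90174) (nat_lit 14) (.e (nat_lit 180251) (nat_lit 10) (.e (nat_lit 573489) (nat_lit 14) (.e (nat_lit 73755) (nat_lit 8) (.e (nat_lit 557091) (nat_lit 12) (.e (nat_lit 163841) (nat_lit 0) .nil)))))))) (.g (nat_lit 1) (.e (nat_lit 111538) (nat_lit 0) .nil) .nil))))))) 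
(.nd (nat_lit 6) (.nd (nat_lit 7) (.nd (nat_lit 8) (.nd (nat_lit 9) 
(.lf (nat_lit 479284) (.g (nat_lit 1911) (.e (nat_lit 5224) (nat_lit 296) (.e (nat_lit 163907) (nat_lit 12) (.e (nat_lit 426566) (nat_lit 34) (.e (nat_lit 393268) (nat_lit 23) (.e (nat_lit 426428) (nat_lit 17) .nil))))) (.g (nat_lit 0) (.e (nat_lit 107848) (nat_lit 0) .nil) .nil))) 
(.lf (nat_lit 479796) (.g (nat_lit 2978) (.e (nat_lit 5756) (nat_lit 315) (.e (nat_lit 163962) (nat_lit 25) (.e (nat_lit 532535) (nat_lit 9) (.e (nat_lit 336099) (nat_lit 9) (.e (nat_lit 336028) (nat_lit 3) .nil))))) (.g (nat_lit 0) (.e (nat_lit 109758) (nat_lit 0) .nil) .nil)))) (.nd (nat_lit 9) 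
(.lf (nat_lit 479540) (.g (nat_lit 4207) (.e (nat_lit 5626) (nat_lit 312) (.e (nat_lit 2685) (nat_lit 168) (.e (nat_lit 204869) (nat_lit 29) (.e (nat_lit 360475) (nat_lit 8) (.e (nat_lit 557073) (nat_lit 9) (.e (nat_lit 214) (nat_lit 19) (.e (nat_lit 319492) (nat_lit 0) .nil))))))) (.g (nat_lit 1) (.e (nat_lit 108666) (nat_lit 0) .nil) .nil))) 
(.lf (nat_lit 480052) (.g (nat_lit 935) (.e (nat_lit 5905) (nat_lit 320) (.e (nat_lit 1209) (nat_lit 89) (.e (nat_lit 73781) (nat_lit 32) (.e (nat_lit 3089) (nat_lit 191) .nil)))) (.g (nat_lit 0) (.e (nat_lit 111299) (nat_lit 0) .nil) .nil))))) (.nd (nat_lit 8) (.nd (nat_lit 9) 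
(.lf (nat_lit 479412) (.g (nat_lit 2669) (.e (nat_lit 5612) (nat_lit 312) (.e (nat_lit 2685) (nat_lit 168) (.e (nat_lit 204846) (nat_lit 24) (.e (nat_lit 319530) (nat_lit 16) (.e (nat_lit 286735) (nat_lit 3) .nil))))) (.g (nat_lit 0) (.e (nat_lit 108364) (nat_lit 0) .nil) .nil))) 
(.lf (nat_lit 479924) (.g (nat_lit 1152) (.e (nat_lit 5766) (nat_lit 316) (.e (nat_lit 172150) (nat_lit 27) (.e (nat_lit 335895) (nat_lit 0) (.e (nat_lit 6720) (nat_lit 361) .nil)))) (.g (nat_lit 0) (.e (nat_lit 110167) (nat_lit 0) .nil) .nil)))) (.nd (nat_lit 9) 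
(.lf (nat_lit 479668) (.g (nat_lit 1066) (.e (nat_lit 5664) (nat_lit 312) (.e (nat_lit 3085) (nat_lit 191) (.e (nat_lit 483412) (nat_lit 27) (.e (nat_lit 409344) (nat_lit 9) .nil)))) (.g (nat_lit 0) (.e (nat_lit 109013) (nat_lit 0) .nil) .nil))) 
(.lf (nat_lit 480180) (.g (nat_lit 3054) (.e (nat_lit 5934) (nat_lit 322) (.e (nat_lit 57372) (nat_lit 2) (.e (nat_lit 90174) (nat_lit 14) (.e (nat_lit 180250) (nat_lit 10) (.e (nat_lit 573489) (nat_lit 14) (.e (nat_lit 73755) (nat_lit 8) (.e (nat_lit 557090) (nat_lit 12) (.e (nat_lit 163841) (nat_lit 0) .nil)))))))) (.g (nat_lit 1) (.e (nat_lit 111506) (nat_lit 0) .nil) .nil)))))) 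
(.nd (nat_lit 7) (.nd (nat_lit 8) (.nd (nat_lit 9) 
(.lf (nat_lit 479348) (.g (nat_lit 1512) (.e (nat_lit 5195) (nat_lit 294) (.e (nat_lit 57375) (nat_lit 2) (.e (nat_lit 90160) (nat_lit 11) (.e (nat_lit 24655) (nat_lit 13) .nil)))) (.g (nat_lit 0) (.e (nat_lit 108221) (nat_lit 0) .nil) .nil))) 
(.lf (nat_lit 479860) (.g (nat_lit 2663) (.e (nat_lit 5761) (nat_lit 315) (.e (nat_lit 163962) (nat_lit 25) (.e (nat_lit 532535) (nat_lit 9) (.e (nat_lit 336176) (nat_lit 10) (.e (nat_lit 344132) (nat_lit 26) (.e (nat_lit 557073) (nat_lit 9) (.e (nat_lit 7936) (nat_lit 19) (.e (nat_lit 319492) (nat_lit 0) .nil)))))))) (.g (nat_lit 1) (.e (nat_lit 109973) (nat_lit 0) .nil) .nil)))) 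
(.nd (nat_lit 9) 
(.lf (nat_lit 479604) (.g (nat_lit 3379) (.e (nat_lit 5664) (nat_lit 312) (.e (nat_lit 2679) (nat_lit 168) (.e (nat_lit 204845) (nat_lit 24) (.e (nat_lit 319531) (nat_lit 16) (.e (nat_lit 286735) (nat_lit 3) (.e (nat_lit 98323) (nat_lit 17) (.e (nat_lit 6989) (nat_lit 377) (.e (nat_lit 977) (nat_lit 81) .nil)))))))) (.g (nat_lit 1) (.e (nat_lit 108860) (nat_lit 0) .nil) .nil))) 
(.lf (nat_lit 480116) (.g (nat_lit 3001) (.e (nat_lit 5931) (nat_lit 322) (.e (nat_lit 57373) (nat_lit 2) (.e (nat_lit 90174) (nat_lit 14) (.e (nat_lit 180251) (nat_lit 10) (.e (nat_lit 573489) (nat_lit 14) .nil))))) (.g (nat_lit 0) (.e (nat_lit 111442) (nat_lit 0) .nil) .nil))))) (.nd (nat_lit 8) (.nd (nat_lit 9) 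
(.lf (nat_lit 479476) (.g (nat_lit 2327) (.e (nat_lit 5626) (nat_lit 312) (.e (nat_lit 2668) (nat_lit 167) (.e (nat_lit 196666) (nat_lit 13) (.e (nat_lit 65610) (nat_lit 10) (.e (nat_lit 344117) (nat_lit 21) (.e (nat_lit 516106) (nat_lit 0) (.e (nat_lit 6966) (nat_lit 377) (.e (nat_lit 2397) (nat_lit 157) .nil)))))))) (.g (nat_lit 1) (.e (nat_lit 108487) (nat_lit 0) .nil) .nil))) 
(.lf (nat_lit 479988) (.g (nat_lit 3171) (.e (nat_lit 5780) (nat_lit 317) (.e (nat_lit 180245) (nat_lit 5) (.e (nat_lit 532569) (nat_lit 16) (.e (nat_lit 401448) (nat_lit 10) (.e (nat_lit 434227) (nat_lit 20) (.e (nat_lit 507930) (nat_lit 10) .nil)))))) (.g (nat_lit 1) (.e (nat_lit 111121) (nat_lit 0) .nil) .nil)))) (.nd (nat_lit 9) 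
(.lf (nat_lit 479732) (.g (nat_lit 471) (.e (nat_lit 5742) (nat_lit 313) (.e (nat_lit 8326) (nat_lit 69) (.e (nat_lit 557109) (nat_lit 15) .nil))) (.g (nat_lit 0) (.e (nat_lit 109552) (nat_lit 0) .nil) .nil))) 
(.lf (nat_lit 480244) (.g (nat_lit 2181) (.e (nat_lit 5936) (nat_lit 322) (.e (nat_lit 57373) (nat_lit 2) (.e (nat_lit 90174) (nat_lit 14) (.e (nat_lit 180251) (nat_lit 10) .nil)))) (.g (nat_lit 0) (.e (nat_lit 111570) (nat_lit 0) .nil) .nil))))))))) (.nd (nat_lit 4) (.nd (nat_lit 5) (.nd (nat_lit 6) (.nd (nat_lit 7) (.nd (nat_lit 8) (.nd (nat_lit 9) 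
(.lf (nat_lit 479244) (.g (nat_lit 2337) (.e (nat_lit 5224) (nat_lit 296) (.e (nat_lit 163871) (nat_lit 2) (.e (nat_lit 196656) (nat_lit 11) (.e (nat_lit 16466) (nat_lit 13) (.e (nat_lit 483339) (nat_lit 9) .nil))))) (.g (nat_lit 0) (.e (nat_lit 107532) (nat_lit 0) .nil) .nil))) 
(.lf (nat_lit 479756) (.g (nat_lit 2487) (.e (nat_lit 5750) (nat_lit 314) (.e (nat_lit 24662) (nat_lit 14) (.e (nat_lit 401459) (nat_lit 13) (.e (nat_lit 483371) (nat_lit 21) .nil)))) (.g (nat_lit 0) (.e (nat_lit 109617) (nat_lit 0) .nil) .nil)))) (.nd (nat_lit 9) 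
(.lf (nat_lit 479500) (.g (nat_lit 4178) (.e (nat_lit 5626) (nat_lit 312) (.e (nat_lit 2668) (nat_lit 167) (.e (nat_lit 196666) (nat_lit 13) (.e (nat_lit 65610) (nat_lit 10) (.e (nat_lit 344117) (nat_lit 21) (.e (nat_lit 516139) (nat_lit 7) (.e (nat_lit 417536) (nat_lit 10) .nil))))))) (.g (nat_lit 1) (.e (nat_lit 108511) (nat_lit 0) .nil) .nil))) 
(.lf (nat_lit 480012) (.g (nat_lit 1681) (.e (nat_lit 5818) (nat_lit 320) (.e (nat_lit 1193) (nat_lit 88) (.e (nat_lit 65628) (nat_lit 14) (.e (nat_lit 401438) (nat_lit 9) (.e (nat_lit 426544) (nat_lit 30) .nil))))) (.g (nat_lit 0) (.e (nat_lit 111236) (nat_lit 0) .nil) .nil))))) (.nd (nat_lit 8) (.nd (nat_lit 9) 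
(.lf (nat_lit 479372) (.g (nat_lit 1457) (.e (nat_lit 5200) (nat_lit 294) (.e (nat_lit 57412) (nat_lit 12) (.e (nat_lit 336173) (nat_lit 10) (.e (nat_lit 344157) (nat_lit 36) (.e (nat_lit 638985) (nat_lit 5) .nil))))) (.g (nat_lit 0) (.e (nat_lit 108311) (nat_lit 0) .nil) .nil))) 
(.lf (nat_lit 479884) (.g (nat_lit 3023) (.e (nat_lit 5762) (nat_lit 315) (.e (nat_lit 163962) (nat_lit 25) (.e (nat_lit 532535) (nat_lit 9) (.e (nat_lit 336163) (nat_lit 10) (.e (nat_lit 344117) (nat_lit 21) (.e (nat_lit 516139) (nat_lit 7) (.e (nat_lit 409615) (nat_lit 10) .nil))))))) (.g (nat_lit 1) (.e (nat_lit 110052) (nat_lit 0) .nil) .nil)))) (.nd (nat_lit 9) 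
(.lf (nat_lit 479628) (.g (nat_lit 3526) (.e (nat_lit 5664) (nat_lit 312) (.e (nat_lit 3062) (nat_lit 190) (.e (nat_lit 475185) (nat_lit 29) (.e (nat_lit 557109) (nat_lit 15) (.e (nat_lit 188458) (nat_lit 25) .nil))))) (.g (nat_lit 0) (.e (nat_lit 108905) (nat_lit 0) .nil) .nil))) 
(.lf (nat_lit 480140) (.g (nat_lit 2389) (.e (nat_lit 5933) (nat_lit 322) (.e (nat_lit 57379) (nat_lit 3) (.e (nat_lit 98366) (nat_lit 27) (.e (nat_lit 434248) (nat_lit 28) (.e (nat_lit 573487) (nat_lit 14) .nil))))) (.g (nat_lit 0) (.e (nat_lit 111466) (nat_lit 0) .nil) .nil)))))) (.nd (nat_lit 7) (.nd (nat_lit 8) (.nd (nat_lit 9) 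
(.lf (nat_lit 479308) (.g (nat_lit 1163) (.e (nat_lit 5231) (nat_lit 296) (.e (nat_lit 163923) (nat_lit 15) (.e (nat_lit 450597) (nat_lit 17) (.e (nat_lit 663574) (nat_lit 9) .nil)))) (.g (nat_lit 0) (.e (nat_lit 108008) (nat_lit 0) .nil) .nil))) 
(.lf (nat_lit 479820) (.g (nat_lit 3537) (.e (nat_lit 5756) (nat_lit 315) (.e (nat_lit 163962) (nat_lit 25) (.e (nat_lit 532549) (nat_lit 12) (.e (nat_lit 360466) (nat_lit 3) (.e (nat_lit 516142) (nat_lit 8) (.e (nat_lit 417820) (nat_lit 10) .nil)))))) (.g (nat_lit 1) (.e (nat_lit 109835) (nat_lit 0) .nil) .nil)))) (.nd (nat_lit 9) 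
(.lf (nat_lit 479564) (.g (nat_lit 2411) (.e (nat_lit 5628) (nat_lit 312) (.e (nat_lit 2668) (nat_lit 167) (.e (nat_lit 196666) (nat_lit 13) (.e (nat_lit 65592) (nat_lit 9) .nil)))) (.g (nat_lit 0) (.e (nat_lit 108733) (nat_lit 0) .nil) .nil))) 
(.lf (nat_lit 480076) (.g (nat_lit 565) (.e (nat_lit 5906) (nat_lit 320) (.e (nat_lit 1221) (nat_lit 90) (.e (nat_lit 81922) (nat_lit 0) .nil))) (.g (nat_lit 0) (.e (nat_lit 111327) (nat_lit 0) .nil) .nil))))) (.nd (nat_lit 8) (.nd (nat_lit 9) 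
(.lf (nat_lit 479436) (.g (nat_lit 3999) (.e (nat_lit 5616) (nat_lit 312) (.e (nat_lit 2668) (nat_lit 167) (.e (nat_lit 196666) (nat_lit 13) (.e (nat_lit 65610) (nat_lit 10) (.e (nat_lit 344117) (nat_lit 21) (.e (nat_lit 516142) (nat_lit 8) (.e (nat_lit 417814) (nat_lit 10) .nil))))))) (.g (nat_lit 1) (.e (nat_lit 108423) (nat_lit 0) .nil) .nil))) 
(.lf (nat_lit 479948) (.g (nat_lit 1389) (.e (nat_lit 5771) (nat_lit 316) (.e (nat_lit 172150) (nat_lit 27) (.e (nat_lit 335894) (nat_lit 0) (.e (nat_lit 7936) (nat_lit 361) .nil)))) (.g (nat_lit 0) (.e (nat_lit 110276) (nat_lit 0) .nil) .nil)))) (.nd (nat_lit 9) 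
(.lf (nat_lit 479692) (.g (nat_lit 3498) (.e (nat_lit 5738) (nat_lit 312) (.e (nat_lit 2663) (nat_lit 167) (.e (nat_lit 196666) (nat_lit 13) (.e (nat_lit 65610) (nat_lit 10) (.e (nat_lit 344117) (nat_lit 21) (.e (nat_lit 516102) (nat_lit 0) (.e (nat_lit 6989) (nat_lit 377) (.e (nat_lit 2397) (nat_lit 157) .nil)))))))) (.g (nat_lit 1) (.e (nat_lit 109211) (nat_lit 0) .nil) .nil))) 
(.lf (nat_lit 480204) (.g (nat_lit 2505) (.e (nat_lit 5934) (nat_lit 322) (.e (nat_lit 57375) (nat_lit 2) (.e (nat_lit 90174) (nat_lit 14) (.e (nat_lit 180243) (nat_lit 5) (.e (nat_lit 532515) (nat_lit 3) (.e (nat_lit 114715) (nat_lit 22) (.e (nat_lit 90165) (nat_lit 12) (.e (nat_lit 163857) (nat_lit 0) .nil)))))))) (.g (nat_lit 1) (.e (nat_lit 111530) (nat_lit 0) .nil) .nil))))))) 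
(.nd (nat_lit 6) (.nd (nat_lit 7) (.nd (nat_lit 8) (.nd (nat_lit 9) 
(.lf (nat_lit 479276) (.g (nat_lit 2438) (.e (nat_lit 5224) (nat_lit 296) (.e (nat_lit 163903) (nat_lit 12) (.e (nat_lit 426566) (nat_lit 34) (.e (nat_lit 393273) (nat_lit 23) (.e (nat_lit 426392) (nat_lit 15) (.e (nat_lit 1796) (nat_lit 119) (.e (nat_lit 516106) (nat_lit 0) (.e (nat_lit 2478) (nat_lit 157) .nil)))))))) (.g (nat_lit 1) (.e (nat_lit 107809) (nat_lit 0) .nil) .nil))) 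
(.lf (nat_lit 479788) (.g (nat_lit 1532) (.e (nat_lit 7936) (nat_lit 314) (.e (nat_lit 24662) (nat_lit 14) (.e (nat_lit 401459) (nat_lit 13) (.e (nat_lit 483375) (nat_lit 22) .nil)))) (.g (nat_lit 0) (.e (nat_lit 109732) (nat_lit 0) .nil) .nil)))) (.nd (nat_lit 9) 
(.lf (nat_lit 479532) (.g (nat_lit 2360) (.e (nat_lit 5626) (nat_lit 312) (.e (nat_lit 2685) (nat_lit 168) (.e (nat_lit 204869) (nat_lit 29) (.e (nat_lit 360474) (nat_lit 8) (.e (nat_lit 557072) (nat_lit 9) (.e (nat_lit 214) (nat_lit 19) (.e (nat_lit 319492) (nat_lit 0) .nil))))))) (.g (nat_lit 1) (.e (nat_lit 108654) (nat_lit 0) .nil) .nil))) 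
(.lf (nat_lit 480044) (.g (nat_lit 1544) (.e (nat_lit 5905) (nat_lit 320) (.e (nat_lit 1190) (nat_lit 88) (.e (nat_lit 65624) (nat_lit 12) (.e (nat_lit 385104) (nat_lit 50) .nil)))) (.g (nat_lit 0) (.e (nat_lit 111291) (nat_lit 0) .nil) .nil))))) (.nd (nat_lit 8) (.nd (nat_lit 9) 
(.lf (nat_lit 479404) (.g (nat_lit 2709) (.e (nat_lit 5612) (nat_lit 312) (.e (nat_lit 2668) (nat_lit 167) (.e (nat_lit 196666) (nat_lit 13) (.e (nat_lit 65610) (nat_lit 10) (.e (nat_lit 344117) (nat_lit 21) (.e (nat_lit 516106) (nat_lit 0) (.e (nat_lit 7008) (nat_lit 377) (.e (nat_lit 2429) (nat_lit 157) .nil)))))))) (.g (nat_lit 1) (.e (nat_lit 108356) (nat_lit 0) .nil) .nil))) 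
(.lf (nat_lit 479916) (.g (nat_lit 1745) (.e (nat_lit 5766) (nat_lit 316) (.e (nat_lit 172133) (nat_lit 15) (.e (nat_lit 2059) (nat_lit 142) (.e (nat_lit 704593) (nat_lit 4) .nil)))) (.g (nat_lit 0) (.e (nat_lit 110151) (nat_lit 0) .nil) .nil)))) (.nd (nat_lit 9) 
(.lf (nat_lit 479660) (.g (nat_lit 1597) (.e (nat_lit 5664) (nat_lit 312) (.e (nat_lit 3085) (nat_lit 191) (.e (nat_lit 483410) (nat_lit 27) (.e (nat_lit 401440) (nat_lit 9) .nil)))) (.g (nat_lit 0) (.e (nat_lit 108991) (nat_lit 0) .nil) .nil))) 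
(.lf (nat_lit 480172) (.g (nat_lit 2634) (.e (nat_lit 5934) (nat_lit 322) (.e (nat_lit 57372) (nat_lit 2) (.e (nat_lit 90172) (nat_lit 14) (.e (nat_lit 180250) (nat_lit 10) (.e (nat_lit 573487) (nat_lit 14) (.e (nat_lit 73753) (nat_lit 8) (.e (nat_lit 557090) (nat_lit 12) (.e (nat_lit 163843) (nat_lit 0) .nil)))))))) (.g (nat_lit 1) (.e (nat_lit 111498) (nat_lit 0) .nil) .nil)))))) 
(.nd (nat_lit 7) (.nd (nat_lit 8) (.nd (nat_lit 9) 
(.lf (nat_lit 479340) (.g (nat_lit 1160) (.e (nat_lit 5194) (nat_lit 294) (.e (nat_lit 57412) (nat_lit 12) (.e (nat_lit 336176) (nat_lit 10) (.e (nat_lit 344157) (nat_lit 36) .nil)))) (.g (nat_lit 0) (.e (nat_lit 108209) (nat_lit 0) .nil) .nil))) 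
(.lf (nat_lit 479852) (.g (nat_lit 2582) (.e (nat_lit 5761) (nat_lit 315) (.e (nat_lit 163962) (nat_lit 25) (.e (nat_lit 532535) (nat_lit 9) (.e (nat_lit 336173) (nat_lit 10) (.e (nat_lit 344126) (nat_lit 25) .nil))))) (.g (nat_lit 0) (.e (nat_lit 109961) (nat_lit 0) .nil) .nil)))) (.nd (nat_lit 9) 
(.lf (nat_lit 479596) (.g (nat_lit 1679) (.e (nat_lit 5664) (nat_lit 312) (.e (nat_lit 2661) (nat_lit 167) (.e (nat_lit 196666) (nat_lit 13) (.e (nat_lit 65619) (nat_lit 10) (.e (nat_lit 344117) (nat_lit 21) .nil))))) (.g (nat_lit 0) (.e (nat_lit 108849) (nat_lit 0) .nil) .nil))) 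
(.lf (nat_lit 480108) (.g (nat_lit 3051) (.e (nat_lit 5968) (nat_lit 324) (.e (nat_lit 163874) (nat_lit 3) (.e (nat_lit 204882) (nat_lit 32) (.e (nat_lit 385106) (nat_lit 50) (.e (nat_lit 786473) (nat_lit 27) .nil))))) (.g (nat_lit 0) (.e (nat_lit 111415) (nat_lit 0) .nil) .nil))))) (.nd (nat_lit 8) (.nd (nat_lit 9) 
(.lf (nat_lit 479468) (.g (nat_lit 3973) (.e (nat_lit 5626) (nat_lit 312) (.e (nat_lit 2668) (nat_lit 167) (.e (nat_lit 196666) (nat_lit 13) (.e (nat_lit 65610) (nat_lit 10) (.e (nat_lit 344117) (nat_lit 21) (.e (nat_lit 516099) (nat_lit 0) (.e (nat_lit 7936) (nat_lit 377) (.e (nat_lit 2510) (nat_lit 157) .nil)))))))) (.g (nat_lit 1) (.e (nat_lit 108479) (nat_lit 0) .nil) .nil))) 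
(.lf (nat_lit 479980) (.g (nat_lit 1256) (.e (nat_lit 5779) (nat_lit 317) (.e (nat_lit 180241) (nat_lit 4) (.e (nat_lit 524340) (nat_lit 28) (.e (nat_lit 352287) (nat_lit 20) (.e (nat_lit 2384) (nat_lit 155) (.e (nat_lit 811011) (nat_lit 0) .nil)))))) (.g (nat_lit 1) (.e (nat_lit 110945) (nat_lit 0) .nil) .nil)))) (.nd (nat_lit 9) 
(.lf (nat_lit 479724) (.g (nat_lit 1923) (.e (nat_lit 7936) (nat_lit 312) (.e (nat_lit 2668) (nat_lit 167) (.e (nat_lit 196666) (nat_lit 13) (.e (nat_lit 65599) (nat_lit 9) .nil)))) (.g (nat_lit 0) (.e (nat_lit 109529) (nat_lit 0) .nil) .nil))) 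
(.lf (nat_lit 480236) (.g (nat_lit 2000) (.e (nat_lit 5935) (nat_lit 322) (.e (nat_lit 57375) (nat_lit 2) (.e (nat_lit 90174) (nat_lit 14) (.e (nat_lit 180243) (nat_lit 5) (.e (nat_lit 532513) (nat_lit 3) .nil))))) (.g (nat_lit 0) (.e (nat_lit 111562) (nat_lit 0) .nil) .nil)))))))) (.nd (nat_lit 5) (.nd (nat_lit 6) (.nd (nat_lit 7) (.nd (nat_lit 8) (.nd (nat_lit 9) 
(.lf (nat_lit 479260) (.g (nat_lit 2508) (.e (nat_lit 5224) (nat_lit 296) (.e (nat_lit 163882) (nat_lit 4) (.e (nat_lit 213030) (nat_lit 11) (.e (nat_lit 24659) (nat_lit 13) (.e (nat_lit 393283) (nat_lit 24) (.e (nat_lit 434209) (nat_lit 18) .nil)))))) (.g (nat_lit 1) (.e (nat_lit 107786) (nat_lit 0) .nil) .nil))) 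
(.lf (nat_lit 479772) (.g (nat_lit 1491) (.e (nat_lit 7936) (nat_lit 314) (.e (nat_lit 24651) (nat_lit 12) (.e (nat_lit 385106) (nat_lit 50) (.e (nat_lit 786467) (nat_lit 27) (.e (nat_lit 336060) (nat_lit 7) .nil))))) (.g (nat_lit 0) (.e (nat_lit 109712) (nat_lit 0) .nil) .nil)))) (.nd (nat_lit 9) 
(.lf (nat_lit 479516) (.g (nat_lit 3026) (.e (nat_lit 5626) (nat_lit 312) (.e (nat_lit 2685) (nat_lit 168) (.e (nat_lit 204846) (nat_lit 24) (.e (nat_lit 319531) (nat_lit 16) (.e (nat_lit 286735) (nat_lit 3) (.e (nat_lit 98323) (nat_lit 17) (.e (nat_lit 6989) (nat_lit 377) (.e (nat_lit 1076) (nat_lit 81) .nil)))))))) (.g (nat_lit 1) (.e (nat_lit 108575) (nat_lit 0) .nil) .nil))) 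
(.lf (nat_lit 480028) (.g (nat_lit 2079) (.e (nat_lit 5902) (nat_lit 320) (.e (nat_lit 1190) (nat_lit 88) (.e (nat_lit 65630) (nat_lit 14) (.e (nat_lit 401438) (nat_lit 9) (.e (nat_lit 426546) (nat_lit 30) .nil))))) (.g (nat_lit 0) (.e (nat_lit 111272) (nat_lit 0) .nil) .nil))))) (.nd (nat_lit 8) (.nd (nat_lit 9) 
(.lf (nat_lit 479388) (.g (nat_lit 1297) (.e (nat_lit 5205) (nat_lit 294) (.e (nat_lit 57389) (nat_lit 5) (.e (nat_lit 114698) (nat_lit 11) (.e (nat_lit 426198) (nat_lit 9) .nil)))) (.g (nat_lit 0) (.e (nat_lit 108330) (nat_lit 0) .nil) .nil))) 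
(.lf (nat_lit 479900) (.g (nat_lit 821) (.e (nat_lit 5762) (nat_lit 315) (.e (nat_lit 163962) (nat_lit 25) (.e (nat_lit 532559) (nat_lit 14) (.e (nat_lit 376869) (nat_lit 23) (.e (nat_lit 98349) (nat_lit 24) .nil))))) (.g (nat_lit 0) (.e (nat_lit 110091) (nat_lit 0) .nil) .nil)))) (.nd (nat_lit 9) 
(.lf (nat_lit 479644) (.g (nat_lit 1536) (.e (nat_lit 5664) (nat_lit 312) (.e (nat_lit 3085) (nat_lit 191) (.e (nat_lit 483346) (nat_lit 17) (.e (nat_lit 6617) (nat_lit 357) .nil)))) (.g (nat_lit 0) (.e (nat_lit 108942) (nat_lit 0) .nil) .nil))) 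
(.lf (nat_lit 480156) (.g (nat_lit 2317) (.e (nat_lit 5934) (nat_lit 322) (.e (nat_lit 57371) (nat_lit 2) (.e (nat_lit 90174) (nat_lit 14) (.e (nat_lit 180250) (nat_lit 10) (.e (nat_lit 573487) (nat_lit 14) .nil))))) (.g (nat_lit 0) (.e (nat_lit 111482) (nat_lit 0) .nil) .nil)))))) (.nd (nat_lit 7) (.nd (nat_lit 8) (.nd (nat_lit 9) 
(.lf (nat_lit 479324) (.g (nat_lit 1125) (.e (nat_lit 5190) (nat_lit 294) (.e (nat_lit 57412) (nat_lit 12) (.e (nat_lit 336173) (nat_lit 10) (.e (nat_lit 344157) (nat_lit 36) .nil)))) (.g (nat_lit 0) (.e (nat_lit 108151) (nat_lit 0) .nil) .nil))) 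
(.lf (nat_lit 479836) (.g (nat_lit 838) (.e (nat_lit 5760) (nat_lit 315) (.e (nat_lit 163979) (nat_lit 30) (.e (nat_lit 573488) (nat_lit 14) .nil))) (.g (nat_lit 0) (.e (nat_lit 109898) (nat_lit 0) .nil) .nil)))) (.nd (nat_lit 9) 
(.lf (nat_lit 479580) (.g (nat_lit 1796) (.e (nat_lit 5647) (nat_lit 312) (.e (nat_lit 2661) (nat_lit 167) (.e (nat_lit 196673) (nat_lit 15) (.e (nat_lit 81956) (nat_lit 23) (.e (nat_lit 98353) (nat_lit 25) .nil))))) (.g (nat_lit 0) (.e (nat_lit 108816) (nat_lit 0) .nil) .nil))) 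
(.lf (nat_lit 480092) (.g (nat_lit 2075) (.e (nat_lit 7936) (nat_lit 320) (.e (nat_lit 1201) (nat_lit 88) (.e (nat_lit 65624) (nat_lit 12) (.e (nat_lit 385105) (nat_lit 50) (.e (nat_lit 786483) (nat_lit 30) .nil))))) (.g (nat_lit 0) (.e (nat_lit 111353) (nat_lit 0) .nil) .nil))))) (.nd (nat_lit 8) (.nd (nat_lit 9) 
(.lf (nat_lit 479452) (.g (nat_lit 1161) (.e (nat_lit 5631) (nat_lit 312) (.e (nat_lit 226) (nat_lit 21) (.e (nat_lit 336430) (nat_lit 29) (.e (nat_lit 442427) (nat_lit 23) .nil)))) (.g (nat_lit 0) (.e (nat_lit 108451) (nat_lit 0) .nil) .nil))) 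
(.lf (nat_lit 479964) (.g (nat_lit 675) (.e (nat_lit 5772) (nat_lit 316) (.e (nat_lit 172143) (nat_lit 25) (.e (nat_lit 319492) (nat_lit 0) (.e (nat_lit 5771) (nat_lit 316) (.e (nat_lit 172144) (nat_lit 26) (.e (nat_lit 327683) (nat_lit 0) .nil)))))) (.g (nat_lit 1) (.e (nat_lit 110317) (nat_lit 0) .nil) .nil)))) (.nd (nat_lit 9) 
(.lf (nat_lit 479708) (.g (nat_lit 1661) (.e (nat_lit 5712) (nat_lit 312) (.e (nat_lit 2505) (nat_lit 157) (.e (nat_lit 3249) (nat_lit 197) (.e (nat_lit 532569) (nat_lit 16) (.e (nat_lit 401440) (nat_lit 9) .nil))))) (.g (nat_lit 0) (.e (nat_lit 109267) (nat_lit 0) .nil) .nil))) 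
(.lf (nat_lit 480220) (.g (nat_lit 1431) (.e (nat_lit 5934) (nat_lit 322) (.e (nat_lit 57377) (nat_lit 3) (.e (nat_lit 98365) (nat_lit 26) (.e (nat_lit 426326) (nat_lit 13) .nil)))) (.g (nat_lit 0) (.e (nat_lit 111546) (nat_lit 0) .nil) .nil))))))) (.nd (nat_lit 6) (.nd (nat_lit 7) (.nd (nat_lit 8) (.nd (nat_lit 9) 
(.lf (nat_lit 479292) (.g (nat_lit 749) (.e (nat_lit 5228) (nat_lit 296) (.e (nat_lit 163868) (nat_lit 2) (.e (nat_lit 196656) (nat_lit 11) .nil))) (.g (nat_lit 0) (.e (nat_lit 107941) (nat_lit 0) .nil) .nil))) 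
(.lf (nat_lit 479804) (.g (nat_lit 2777) (.e (nat_lit 5756) (nat_lit 315) (.e (nat_lit 163962) (nat_lit 25) (.e (nat_lit 532547) (nat_lit 11) (.e (nat_lit 352315) (nat_lit 23) (.e (nat_lit 98349) (nat_lit 24) (.e (nat_lit 409609) (nat_lit 10) .nil)))))) (.g (nat_lit 1) (.e (nat_lit 109817) (nat_lit 0) .nil) .nil)))) (.nd (nat_lit 9) 
(.lf (nat_lit 479548) (.g (nat_lit 3834) (.e (nat_lit 5627) (nat_lit 312) (.e (nat_lit 2668) (nat_lit 167) (.e (nat_lit 196666) (nat_lit 13) (.e (nat_lit 65610) (nat_lit 10) (.e (nat_lit 344117) (nat_lit 21) (.e (nat_lit 516099) (nat_lit 0) (.e (nat_lit 7062) (nat_lit 377) (.e (nat_lit 2443) (nat_lit 157) .nil)))))))) (.g (nat_lit 1) (.e (nat_lit 108686) (nat_lit 0) .nil) .nil))) 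
(.lf (nat_lit 480060) (.g (nat_lit 690) (.e (nat_lit 5905) (nat_lit 320) (.e (nat_lit 1221) (nat_lit 90) (.e (nat_lit 81922) (nat_lit 0) (.e (nat_lit 3747) (nat_lit 228) .nil)))) (.g (nat_lit 0) (.e (nat_lit 111308) (nat_lit 0) .nil) .nil))))) (.nd (nat_lit 8) (.nd (nat_lit 9) 
(.lf (nat_lit 479420) (.g (nat_lit 2520) (.e (nat_lit 5612) (nat_lit 312) (.e (nat_lit 3098) (nat_lit 192) (.e (nat_lit 491537) (nat_lit 2) (.e (nat_lit 90170) (nat_lit 13) (.e (nat_lit 172106) (nat_lit 10) .nil))))) (.g (nat_lit 0) (.e (nat_lit 108395) (nat_lit 0) .nil) .nil))) 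
(.lf (nat_lit 479932) (.g (nat_lit 1188) (.e (nat_lit 5766) (nat_lit 316) (.e (nat_lit 172150) (nat_lit 27) (.e (nat_lit 336232) (nat_lit 14) (.e (nat_lit 401440) (nat_lit 9) .nil)))) (.g (nat_lit 0) (.e (nat_lit 110178) (nat_lit 0) .nil) .nil)))) (.nd (nat_lit 9) 
(.lf (nat_lit 479676) (.g (nat_lit 1458) (.e (nat_lit 5664) (nat_lit 312) (.e (nat_lit 3085) (nat_lit 191) (.e (nat_lit 483413) (nat_lit 27) (.e (nat_lit 409344) (nat_lit 9) .nil)))) (.g (nat_lit 0) (.e (nat_lit 109044) (nat_lit 0) .nil) .nil))) 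
(.lf (nat_lit 480188) (.g (nat_lit 2016) (.e (nat_lit 5934) (nat_lit 322) (.e (nat_lit 57373) (nat_lit 2) (.e (nat_lit 90173) (nat_lit 14) (.e (nat_lit 180252) (nat_lit 10) (.e (nat_lit 573489) (nat_lit 14) (.e (nat_lit 73755) (nat_lit 8) (.e (nat_lit 557090) (nat_lit 12) (.e (nat_lit 163844) (nat_lit 0) .nil)))))))) (.g (nat_lit 1) (.e (nat_lit 111514) (nat_lit 0) .nil) .nil)))))) 
(.nd (nat_lit 7) (.nd (nat_lit 8) (.nd (nat_lit 9) 
(.lf (nat_lit 479356) (.g (nat_lit 1845) (.e (nat_lit 5195) (nat_lit 294) (.e (nat_lit 57407) (nat_lit 12) (.e (nat_lit 336316) (nat_lit 17) (.e (nat_lit 196666) (nat_lit 13) .nil)))) (.g (nat_lit 0) (.e (nat_lit 108275) (nat_lit 0) .nil) .nil))) 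
(.lf (nat_lit 479868) (.g (nat_lit 2698) (.e (nat_lit 5761) (nat_lit 315) (.e (nat_lit 163962) (nat_lit 25) (.e (nat_lit 532549) (nat_lit 12) (.e (nat_lit 360468) (nat_lit 3) (.e (nat_lit 516139) (nat_lit 7) (.e (nat_lit 409623) (nat_lit 10) .nil)))))) (.g (nat_lit 1) (.e (nat_lit 110007) (nat_lit 0) .nil) .nil)))) (.nd (nat_lit 9) 
(.lf (nat_lit 479612) (.g (nat_lit 3708) (.e (nat_lit 5664) (nat_lit 312) (.e (nat_lit 2679) (nat_lit 168) (.e (nat_lit 204846) (nat_lit 24) (.e (nat_lit 319534) (nat_lit 16) (.e (nat_lit 286735) (nat_lit 3) (.e (nat_lit 98323) (nat_lit 17) (.e (nat_lit 6989) (nat_lit 377) (.e (nat_lit 977) (nat_lit 81) .nil)))))))) (.g (nat_lit 1) (.e (nat_lit 108872) (nat_lit 0) .nil) .nil))) 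
(.lf (nat_lit 480124) (.g (nat_lit 1990) (.e (nat_lit 5932) (nat_lit 322) (.e (nat_lit 57373) (nat_lit 2) (.e (nat_lit 90173) (nat_lit 14) (.e (nat_lit 180252) (nat_lit 10) (.e (nat_lit 573489) (nat_lit 14) .nil))))) (.g (nat_lit 0) (.e (nat_lit 111450) (nat_lit 0) .nil) .nil))))) (.nd (nat_lit 8) (.nd (nat_lit 9) 
(.lf (nat_lit 479484) (.g (nat_lit 4667) (.e (nat_lit 5626) (nat_lit 312) (.e (nat_lit 2668) (nat_lit 167) (.e (nat_lit 196666) (nat_lit 13) (.e (nat_lit 65610) (nat_lit 10) (.e (nat_lit 344117) (nat_lit 21) (.e (nat_lit 516106) (nat_lit 0) (.e (nat_lit 6986) (nat_lit 377) (.e (nat_lit 2406) (nat_lit 157) .nil)))))))) (.g (nat_lit 1) (.e (nat_lit 108495) (nat_lit 0) .nil) .nil))) 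
(.lf (nat_lit 479996) (.g (nat_lit 920) (.e (nat_lit 5813) (nat_lit 320) (.e (nat_lit 1193) (nat_lit 88) (.e (nat_lit 65628) (nat_lit 14) (.e (nat_lit 401437) (nat_lit 9) .nil)))) (.g (nat_lit 0) (.e (nat_lit 111215) (nat_lit 0) .nil) .nil)))) (.nd (nat_lit 9) 
(.lf (nat_lit 479740) (.g (nat_lit 2517) (.e (nat_lit 5748) (nat_lit 314) (.e (nat_lit 24648) (nat_lit 12) (.e (nat_lit 385094) (nat_lit 49) (.e (nat_lit 778323) (nat_lit 5) (.e (nat_lit 73788) (nat_lit 45) .nil))))) (.g (nat_lit 0) (.e (nat_lit 109574) (nat_lit 0) .nil) .nil))) 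
(.lf (nat_lit 480252) (.g (nat_lit 1539) (.e (nat_lit 5936) (nat_lit 322) (.e (nat_lit 57411) (nat_lit 12) (.e (nat_lit 336208) (nat_lit 12) (.e (nat_lit 385103) (nat_lit 50) .nil)))) (.g (nat_lit 0) (.e (nat_lit 111580) (nat_lit 0) .nil) .nil))))))))))) (.nd (nat_lit 2) (.nd (nat_lit 3) (.nd (nat_lit 4) (.nd (nat_lit 5) (.nd (nat_lit 6) (.nd (nat_lit 7) (.nd (nat_lit 8) (.nd (nat_lit 9) 
(.lf (nat_lit 479234) (.g (nat_lit 3078) (.e (nat_lit 5224) (nat_lit 296) (.e (nat_lit 163871) (nat_lit 2) (.e (nat_lit 196656) (nat_lit 11) (.e (nat_lit 16436) (nat_lit 9) (.e (nat_lit 426479) (nat_lit 27) (.e (nat_lit 336421) (nat_lit 28) (.e (nat_lit 434212) (nat_lit 18) .nil))))))) (.g (nat_lit 1) (.e (nat_lit 107513) (nat_lit 0) .nil) .nil))) 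
(.lf (nat_lit 479746) (.g (nat_lit 3164) (.e (nat_lit 5749) (nat_lit 314) (.e (nat_lit 24662) (nat_lit 14) (.e (nat_lit 401459) (nat_lit 13) (.e (nat_lit 483350) (nat_lit 17) (.e (nat_lit 6113) (nat_lit 332) .nil))))) (.g (nat_lit 0) (.e (nat_lit 109591) (nat_lit 0) .nil) .nil)))) (.nd (nat_lit 9) 
(.lf (nat_lit 479490) (.g (nat_lit 3030) (.e (nat_lit 5626) (nat_lit 312) (.e (nat_lit 2668) (nat_lit 167) (.e (nat_lit 196666) (nat_lit 13) (.e (nat_lit 65610) (nat_lit 10) (.e (nat_lit 344117) (nat_lit 21) (.e (nat_lit 516106) (nat_lit 0) (.e (nat_lit 7008) (nat_lit 377) (.e (nat_lit 7936) (nat_lit 157) .nil)))))))) (.g (nat_lit 1) (.e (nat_lit 108501) (nat_lit 0) .nil) .nil))) 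
(.lf (nat_lit 480002) (.g (nat_lit 2149) (.e (nat_lit 5816) (nat_lit 320) (.e (nat_lit 1201) (nat_lit 88) (.e (nat_lit 65630) (nat_lit 14) (.e (nat_lit 401437) (nat_lit 9) (.e (nat_lit 426544) (nat_lit 30) .nil))))) (.g (nat_lit 0) (.e (nat_lit 111224) (nat_lit 0) .nil) .nil))))) (.nd (nat_lit 8) (.nd (nat_lit 9) 
(.lf (nat_lit 479362) (.g (nat_lit 1449) (.e (nat_lit 5195) (nat_lit 294) (.e (nat_lit 57427) (nat_lit 15) (.e (nat_lit 360483) (nat_lit 15) (.e (nat_lit 647193) (nat_lit 9) (.e (nat_lit 7936) (nat_lit 35) (.e (nat_lit 458496) (nat_lit 0) .nil)))))) (.g (nat_lit 1) (.e (nat_lit 108290) (nat_lit 0) .nil) .nil))) 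
(.lf (nat_lit 479874) (.g (nat_lit 1952) (.e (nat_lit 5762) (nat_lit 315) (.e (nat_lit 163850) (nat_lit 0) (.e (nat_lit 5547) (nat_lit 306) (.e (nat_lit 2650) (nat_lit 166) (.e (nat_lit 188455) (nat_lit 24) .nil))))) (.g (nat_lit 0) (.e (nat_lit 110018) (nat_lit 0) .nil) .nil)))) (.nd (nat_lit 9) 
(.lf (nat_lit 479618) (.g (nat_lit 1799) (.e (nat_lit 5664) (nat_lit 312) (.e (nat_lit 2679) (nat_lit 168) (.e (nat_lit 204868) (nat_lit 29) (.e (nat_lit 360465) (nat_lit 3) (.e (nat_lit 516139) (nat_lit 7) .nil))))) (.g (nat_lit 0) (.e (nat_lit 108878) (nat_lit 0) .nil) .nil))) 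
(.lf (nat_lit 480130) (.g (nat_lit 2400) (.e (nat_lit 5933) (nat_lit 322) (.e (nat_lit 57373) (nat_lit 2) (.e (nat_lit 90174) (nat_lit 14) (.e (nat_lit 180250) (nat_lit 10) (.e (nat_lit 573489) (nat_lit 14) .nil))))) (.g (nat_lit 0) (.e (nat_lit 111456) (nat_lit 0) .nil) .nil)))))) (.nd (nat_lit 7) (.nd (nat_lit 8) (.nd (nat_lit 9) 
(.lf (nat_lit 479298) (.g (nat_lit 1216) (.e (nat_lit 5228) (nat_lit 296) (.e (nat_lit 163903) (nat_lit 12) (.e (nat_lit 426479) (nat_lit 27) (.e (nat_lit 336432) (nat_lit 30) .nil)))) (.g (nat_lit 0) (.e (nat_lit 107962) (nat_lit 0) .nil) .nil))) 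
(.lf (nat_lit 479810) (.g (nat_lit 3210) (.e (nat_lit 5756) (nat_lit 315) (.e (nat_lit 163962) (nat_lit 25) (.e (nat_lit 532549) (nat_lit 12) (.e (nat_lit 360466) (nat_lit 3) (.e (nat_lit 516138) (nat_lit 7) (.e (nat_lit 409612) (nat_lit 10) .nil)))))) (.g (nat_lit 1) (.e (nat_lit 109825) (nat_lit 0) .nil) .nil)))) (.nd (nat_lit 9) 
(.lf (nat_lit 479554) (.g (nat_lit 2097) (.e (nat_lit 5627) (nat_lit 312) (.e (nat_lit 2668) (nat_lit 167) (.e (nat_lit 196666) (nat_lit 13) (.e (nat_lit 65610) (nat_lit 10) (.e (nat_lit 344117) (nat_lit 21) (.e (nat_lit 516106) (nat_lit 0) (.e (nat_lit 6998) (nat_lit 377) (.e (nat_lit 2447) (nat_lit 157) .nil)))))))) (.g (nat_lit 1) (.e (nat_lit 108692) (nat_lit 0) .nil) .nil))) 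
(.lf (nat_lit 480066) (.g (nat_lit 1854) (.e (nat_lit 5906) (nat_lit 320) (.e (nat_lit 1199) (nat_lit 88) (.e (nat_lit 65630) (nat_lit 14) (.e (nat_lit 401435) (nat_lit 9) (.e (nat_lit 426544) (nat_lit 30) .nil))))) (.g (nat_lit 0) (.e (nat_lit 111314) (nat_lit 0) .nil) .nil))))) (.nd (nat_lit 8) (.nd (nat_lit 9) 
(.lf (nat_lit 479426) (.g (nat_lit 3020) (.e (nat_lit 5613) (nat_lit 312) (.e (nat_lit 2668) (nat_lit 167) (.e (nat_lit 196666) (nat_lit 13) (.e (nat_lit 65617) (nat_lit 10) (.e (nat_lit 344119) (nat_lit 21) .nil))))) (.g (nat_lit 0) (.e (nat_lit 108402) (nat_lit 0) .nil) .nil))) 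
(.lf (nat_lit 479938) (.g (nat_lit 1774) (.e (nat_lit 5771) (nat_lit 316) (.e (nat_lit 172133) (nat_lit 15) (.e (nat_lit 2059) (nat_lit 142) (.e (nat_lit 704593) (nat_lit 4) .nil)))) (.g (nat_lit 0) (.e (nat_lit 110264) (nat_lit 0) .nil) .nil)))) (.nd (nat_lit 9) 
(.lf (nat_lit 479682) (.g (nat_lit 1714) (.e (nat_lit 5667) (nat_lit 312) (.e (nat_lit 3085) (nat_lit 191) (.e (nat_lit 483403) (nat_lit 26) (.e (nat_lit 385115) (nat_lit 53) .nil)))) (.g (nat_lit 0) (.e (nat_lit 109107) (nat_lit 0) .nil) .nil))) 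
(.lf (nat_lit 480194) (.g (nat_lit 3690) (.e (nat_lit 5934) (nat_lit 322) (.e (nat_lit 57375) (nat_lit 2) (.e (nat_lit 90174) (nat_lit 14) (.e (nat_lit 180243) (nat_lit 5) (.e (nat_lit 532513) (nat_lit 3) (.e (nat_lit 114714) (nat_lit 22) (.e (nat_lit 90162) (nat_lit 12) (.e (nat_lit 163849) (nat_lit 0) .nil)))))))) (.g (nat_lit 1) (.e (nat_lit 111520) (nat_lit 0) .nil) .nil))))))) 
(.nd (nat_lit 6) (.nd (nat_lit 7) (.nd (nat_lit 8) (.nd (nat_lit 9) 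
(.lf (nat_lit 479266) (.g (nat_lit 2274) (.e (nat_lit 5224) (nat_lit 296) (.e (nat_lit 163886) (nat_lit 5) (.e (nat_lit 221194) (nat_lit 11) (.e (nat_lit 336087) (nat_lit 9) (.e (nat_lit 336432) (nat_lit 30) (.e (nat_lit 450565) (nat_lit 0) .nil)))))) (.g (nat_lit 1) (.e (nat_lit 107792) (nat_lit 0) .nil) .nil))) 
(.lf (nat_lit 479778) (.g (nat_lit 1768) (.e (nat_lit 7936) (nat_lit 314) (.e (nat_lit 24662) (nat_lit 14) (.e (nat_lit 401459) (nat_lit 13) (.e (nat_lit 483343) (nat_lit 17) (.e (nat_lit 6084) (nat_lit 332) .nil))))) (.g (nat_lit 0) (.e (nat_lit 109722) (nat_lit 0) .nil) .nil)))) (.nd (nat_lit 9) 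
(.lf (nat_lit 479522) (.g (nat_lit 3008) (.e (nat_lit 5626) (nat_lit 312) (.e (nat_lit 2685) (nat_lit 168) (.e (nat_lit 204868) (nat_lit 29) (.e (nat_lit 360473) (nat_lit 8) (.e (nat_lit 557068) (nat_lit 9) (.e (nat_lit 214) (nat_lit 19) (.e (nat_lit 319492) (nat_lit 0) .nil))))))) (.g (nat_lit 1) (.e (nat_lit 108638) (nat_lit 0) .nil) .nil))) 
(.lf (nat_lit 480034) (.g (nat_lit 692) (.e (nat_lit 5902) (nat_lit 320) (.e (nat_lit 1210) (nat_lit 89) (.e (nat_lit 73781) (nat_lit 32) (.e (nat_lit 2855) (nat_lit 184) (.e (nat_lit 426546) (nat_lit 30) .nil))))) (.g (nat_lit 0) (.e (nat_lit 111278) (nat_lit 0) .nil) .nil))))) (.nd (nat_lit 8) (.nd (nat_lit 9) 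
(.lf (nat_lit 479394) (.g (nat_lit 1426) (.e (nat_lit 7936) (nat_lit 295) (.e (nat_lit 122919) (nat_lit 15) (.e (nat_lit 360484) (nat_lit 15) (.e (nat_lit 647195) (nat_lit 9) (.e (nat_lit 7936) (nat_lit 35) .nil))))) (.g (nat_lit 0) (.e (nat_lit 108345) (nat_lit 0) .nil) .nil))) 
(.lf (nat_lit 479906) (.g (nat_lit 2534) (.e (nat_lit 5763) (nat_lit 315) (.e (nat_lit 163962) (nat_lit 25) (.e (nat_lit 532535) (nat_lit 9) (.e (nat_lit 336176) (nat_lit 10) (.e (nat_lit 344120) (nat_lit 21) (.e (nat_lit 516139) (nat_lit 7) (.e (nat_lit 409616) (nat_lit 10) .nil))))))) (.g (nat_lit 1) (.e (nat_lit 110103) (nat_lit 0) .nil) .nil)))) (.nd (nat_lit 9) 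
(.lf (nat_lit 479650) (.g (nat_lit 1610) (.e (nat_lit 5664) (nat_lit 312) (.e (nat_lit 3085) (nat_lit 191) (.e (nat_lit 483346) (nat_lit 17) (.e (nat_lit 6732) (nat_lit 364) .nil)))) (.g (nat_lit 0) (.e (nat_lit 108956) (nat_lit 0) .nil) .nil))) 
(.lf (nat_lit 480162) (.g (nat_lit 2625) (.e (nat_lit 5934) (nat_lit 322) (.e (nat_lit 57371) (nat_lit 2) (.e (nat_lit 90174) (nat_lit 14) (.e (nat_lit 180251) (nat_lit 10) (.e (nat_lit 573489) (nat_lit 14) (.e (nat_lit 73754) (nat_lit 8) (.e (nat_lit 557093) (nat_lit 12) (.e (nat_lit 163857) (nat_lit 0) .nil)))))))) (.g (nat_lit 1) (.e (nat_lit 111488) (nat_lit 0) .nil) .nil)))))) 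
(.nd (nat_lit 7) (.nd (nat_lit 8) (.nd (nat_lit 9) 
(.lf (nat_lit 479330) (.g (nat_lit 1718) (.e (nat_lit 5192) (nat_lit 294) (.e (nat_lit 57437) (nat_lit 17) (.e (nat_lit 376860) (nat_lit 21) (.e (nat_lit 57832) (nat_lit 250) (.e (nat_lit 7936) (nat_lit 166) .nil))))) (.g (nat_lit 0) (.e (nat_lit 108158) (nat_lit 0) .nil) .nil))) 
(.lf (nat_lit 479842) (.g (nat_lit 2507) (.e (nat_lit 5761) (nat_lit 315) (.e (nat_lit 163962) (nat_lit 25) (.e (nat_lit 532535) (nat_lit 9) (.e (nat_lit 336058) (nat_lit 7) (.e (nat_lit 319519) (nat_lit 12) .nil))))) (.g (nat_lit 0) (.e (nat_lit 109928) (nat_lit 0) .nil) .nil)))) (.nd (nat_lit 9) 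
(.lf (nat_lit 479586) (.g (nat_lit 2963) (.e (nat_lit 5664) (nat_lit 312) (.e (nat_lit 2661) (nat_lit 167) (.e (nat_lit 196666) (nat_lit 13) (.e (nat_lit 65610) (nat_lit 10) (.e (nat_lit 344117) (nat_lit 21) (.e (nat_lit 516102) (nat_lit 0) (.e (nat_lit 6989) (nat_lit 377) (.e (nat_lit 2404) (nat_lit 157) .nil)))))))) (.g (nat_lit 1) (.e (nat_lit 108839) (nat_lit 0) .nil) .nil))) 
(.lf (nat_lit 480098) (.g (nat_lit 1858) (.e (nat_lit 5965) (nat_lit 324) (.e (nat_lit 163875) (nat_lit 3) (.e (nat_lit 204880) (nat_lit 32) (.e (nat_lit 385096) (nat_lit 49) .nil)))) (.g (nat_lit 0) (.e (nat_lit 111374) (nat_lit 0) .nil) .nil))))) (.nd (nat_lit 8) (.nd (nat_lit 9) 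
(.lf (nat_lit 479458) (.g (nat_lit 2573) (.e (nat_lit 5626) (nat_lit 312) (.e (nat_lit 2668) (nat_lit 167) (.e (nat_lit 196666) (nat_lit 13) (.e (nat_lit 65610) (nat_lit 10) (.e (nat_lit 344117) (nat_lit 21) (.e (nat_lit 516098) (nat_lit 0) (.e (nat_lit 6961) (nat_lit 377) (.e (nat_lit 2409) (nat_lit 157) .nil)))))))) (.g (nat_lit 1) (.e (nat_lit 108469) (nat_lit 0) .nil) .nil))) 
(.lf (nat_lit 479970) (.g (nat_lit 1406) (.e (nat_lit 5776) (nat_lit 317) (.e (nat_lit 180260) (nat_lit 18) (.e (nat_lit 639020) (nat_lit 16) (.e (nat_lit 65583) (nat_lit 7) (.e (nat_lit 319527) (nat_lit 15) (.e (nat_lit 278531) (nat_lit 0) .nil)))))) (.g (nat_lit 1) (.e (nat_lit 110550) (nat_lit 0) .nil) .nil)))) (.nd (nat_lit 9) 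
(.lf (nat_lit 479714) (.g (nat_lit 2306) (.e (nat_lit 5714) (nat_lit 312) (.e (nat_lit 2682) (nat_lit 168) (.e (nat_lit 204885) (nat_lit 33) (.e (nat_lit 401448) (nat_lit 10) (.e (nat_lit 434234) (nat_lit 23) .nil))))) (.g (nat_lit 0) (.e (nat_lit 109283) (nat_lit 0) .nil) .nil))) 
(.lf (nat_lit 480226) (.g (nat_lit 2087) (.e (nat_lit 5934) (nat_lit 322) (.e (nat_lit 57379) (nat_lit 3) (.e (nat_lit 98367) (nat_lit 27) (.e (nat_lit 434231) (nat_lit 23) (.e (nat_lit 532514) (nat_lit 3) (.e (nat_lit 114719) (nat_lit 23) (.e (nat_lit 98325) (nat_lit 17) (.e (nat_lit 2515) (nat_lit 157) .nil)))))))) (.g (nat_lit 1) (.e (nat_lit 111552) (nat_lit 0) .nil) .nil)))))))) 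
(.nd (nat_lit 5) (.nd (nat_lit 6) (.nd (nat_lit 7) (.nd (nat_lit 8) (.nd (nat_lit 9) 
(.lf (nat_lit 479250) (.g (nat_lit 2802) (.e (nat_lit 5224) (nat_lit 296) (.e (nat_lit 163875) (nat_lit 3) (.e (nat_lit 204830) (nat_lit 18) (.e (nat_lit 57926) (nat_lit 282) (.e (nat_lit 164084) (nat_lit 73) .nil))))) (.g (nat_lit 0) (.e (nat_lit 107767) (nat_lit 0) .nil) .nil))) 
(.lf (nat_lit 479762) (.g (nat_lit 689) (.e (nat_lit 5753) (nat_lit 314) (.e (nat_lit 24662) (nat_lit 14) (.e (nat_lit 401459) (nat_lit 13) .nil))) (.g (nat_lit 0) (.e (nat_lit 109680) (nat_lit 0) .nil) .nil)))) (.nd (nat_lit 9) 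
(.lf (nat_lit 479506) (.g (nat_lit 2212) (.e (nat_lit 5626) (nat_lit 312) (.e (nat_lit 2668) (nat_lit 167) (.e (nat_lit 196666) (nat_lit 13) (.e (nat_lit 65617) (nat_lit 10) (.e (nat_lit 344133) (nat_lit 26) .nil))))) (.g (nat_lit 0) (.e (nat_lit 108552) (nat_lit 0) .nil) .nil))) 
(.lf (nat_lit 480018) (.g (nat_lit 541) (.e (nat_lit 5818) (nat_lit 320) (.e (nat_lit 1296) (nat_lit 96) (.e (nat_lit 131129) (nat_lit 14) .nil))) (.g (nat_lit 0) (.e (nat_lit 111248) (nat_lit 0) .nil) .nil))))) (.nd (nat_lit 8) (.nd (nat_lit 9) 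
(.lf (nat_lit 479378) (.g (nat_lit 678) (.e (nat_lit 5200) (nat_lit 294) (.e (nat_lit 57427) (nat_lit 15) (.e (nat_lit 360480) (nat_lit 14) (.e (nat_lit 638986) (nat_lit 5) .nil)))) (.g (nat_lit 0) (.e (nat_lit 108320) (nat_lit 0) .nil) .nil))) 
(.lf (nat_lit 479890) (.g (nat_lit 3444) (.e (nat_lit 5762) (nat_lit 315) (.e (nat_lit 163962) (nat_lit 25) (.e (nat_lit 532547) (nat_lit 11) (.e (nat_lit 352313) (nat_lit 23) (.e (nat_lit 98350) (nat_lit 24) (.e (nat_lit 409617) (nat_lit 10) .nil)))))) (.g (nat_lit 1) (.e (nat_lit 110069) (nat_lit 0) .nil) .nil)))) (.nd (nat_lit 9) 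
(.lf (nat_lit 479634) (.g (nat_lit 1864) (.e (nat_lit 5664) (nat_lit 312) (.e (nat_lit 3062) (nat_lit 190) (.e (nat_lit 475214) (nat_lit 42) (.e (nat_lit 720956) (nat_lit 25) .nil)))) (.g (nat_lit 0) (.e (nat_lit 108932) (nat_lit 0) .nil) .nil))) 
(.lf (nat_lit 480146) (.g (nat_lit 1794) (.e (nat_lit 5934) (nat_lit 322) (.e (nat_lit 57371) (nat_lit 2) (.e (nat_lit 90173) (nat_lit 14) (.e (nat_lit 180251) (nat_lit 10) (.e (nat_lit 573489) (nat_lit 14) .nil))))) (.g (nat_lit 0) (.e (nat_lit 111472) (nat_lit 0) .nil) .nil)))))) (.nd (nat_lit 7) (.nd (nat_lit 8) (.nd (nat_lit 9) 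
(.lf (nat_lit 479314) (.g (nat_lit 2012) (.e (nat_lit 5234) (nat_lit 296) (.e (nat_lit 163905) (nat_lit 12) (.e (nat_lit 426566) (nat_lit 34) (.e (nat_lit 393273) (nat_lit 23) .nil)))) (.g (nat_lit 0) (.e (nat_lit 108074) (nat_lit 0) .nil) .nil))) 
(.lf (nat_lit 479826) (.g (nat_lit 2973) (.e (nat_lit 5757) (nat_lit 315) (.e (nat_lit 163962) (nat_lit 25) (.e (nat_lit 532535) (nat_lit 9) (.e (nat_lit 336163) (nat_lit 10) (.e (nat_lit 344119) (nat_lit 21) .nil))))) (.g (nat_lit 0) (.e (nat_lit 109861) (nat_lit 0) .nil) .nil)))) (.nd (nat_lit 9) 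
(.lf (nat_lit 479570) (.g (nat_lit 1752) (.e (nat_lit 5628) (nat_lit 312) (.e (nat_lit 3071) (nat_lit 190) (.e (nat_lit 475185) (nat_lit 29) (.e (nat_lit 557101) (nat_lit 13) (.e (nat_lit 172115) (nat_lit 10) .nil))))) (.g (nat_lit 0) (.e (nat_lit 108741) (nat_lit 0) .nil) .nil))) 
(.lf (nat_lit 480082) (.g (nat_lit 2007) (.e (nat_lit 5907) (nat_lit 320) (.e (nat_lit 1200) (nat_lit 88) (.e (nat_lit 65628) (nat_lit 14) (.e (nat_lit 401435) (nat_lit 9) (.e (nat_lit 426544) (nat_lit 30) .nil))))) (.g (nat_lit 0) (.e (nat_lit 111342) (nat_lit 0) .nil) .nil))))) (.nd (nat_lit 8) (.nd (nat_lit 9) 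
(.lf (nat_lit 479442) (.g (nat_lit 779) (.e (nat_lit 5629) (nat_lit 312) (.e (nat_lit 112) (nat_lit 3) (.e (nat_lit 98335) (nat_lit 18) (.e (nat_lit 164324) (nat_lit 230) .nil)))) (.g (nat_lit 0) (.e (nat_lit 108441) (nat_lit 0) .nil) .nil))) 
(.lf (nat_lit 479954) (.g (nat_lit 2147) (.e (nat_lit 5771) (nat_lit 316) (.e (nat_lit 172150) (nat_lit 27) (.e (nat_lit 336231) (nat_lit 14) (.e (nat_lit 401434) (nat_lit 9) (.e (nat_lit 426470) (nat_lit 25) (.e (nat_lit 319491) (nat_lit 0) .nil)))))) (.g (nat_lit 1) (.e (nat_lit 110282) (nat_lit 0) .nil) .nil)))) (.nd (nat_lit 9) 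
(.lf (nat_lit 479698) (.g (nat_lit 2290) (.e (nat_lit 5738) (nat_lit 312) (.e (nat_lit 2663) (nat_lit 167) (.e (nat_lit 196672) (nat_lit 15) (.e (nat_lit 81954) (nat_lit 23) (.e (nat_lit 98349) (nat_lit 24) .nil))))) (.g (nat_lit 0) (.e (nat_lit 109222) (nat_lit 0) .nil) .nil))) 
(.lf (nat_lit 480210) (.g (nat_lit 2999) (.e (nat_lit 5934) (nat_lit 322) (.e (nat_lit 57375) (nat_lit 2) (.e (nat_lit 90174) (nat_lit 14) (.e (nat_lit 180251) (nat_lit 10) (.e (nat_lit 573489) (nat_lit 14) (.e (nat_lit 73755) (nat_lit 8) (.e (nat_lit 557089) (nat_lit 12) (.e (nat_lit 163849) (nat_lit 0) .nil)))))))) (.g (nat_lit 1) (.e (nat_lit 111536) (nat_lit 0) .nil) .nil))))))) 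
(.nd (nat_lit 6) (.nd (nat_lit 7) (.nd (nat_lit 8) (.nd (nat_lit 9) 
(.lf (nat_lit 479282) (.g (nat_lit 2453) (.e (nat_lit 5224) (nat_lit 296) (.e (nat_lit 163903) (nat_lit 12) (.e (nat_lit 426568) (nat_lit 34) (.e (nat_lit 393268) (nat_lit 23) (.e (nat_lit 426428) (nat_lit 17) .nil))))) (.g (nat_lit 0) (.e (nat_lit 107817) (nat_lit 0) .nil) .nil))) 
(.lf (nat_lit 479794) (.g (nat_lit 1874) (.e (nat_lit 5756) (nat_lit 315) (.e (nat_lit 163962) (nat_lit 25) (.e (nat_lit 532535) (nat_lit 9) (.e (nat_lit 336058) (nat_lit 7) .nil)))) (.g (nat_lit 0) (.e (nat_lit 109749) (nat_lit 0) .nil) .nil)))) (.nd (nat_lit 9) 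
(.lf (nat_lit 479538) (.g (nat_lit 3974) (.e (nat_lit 5626) (nat_lit 312) (.e (nat_lit 2685) (nat_lit 168) (.e (nat_lit 204869) (nat_lit 29) (.e (nat_lit 360475) (nat_lit 8) (.e (nat_lit 557068) (nat_lit 9) (.e (nat_lit 214) (nat_lit 19) (.e (nat_lit 319493) (nat_lit 0) .nil))))))) (.g (nat_lit 1) (.e (nat_lit 108663) (nat_lit 0) .nil) .nil))) 
(.lf (nat_lit 480050) (.g (nat_lit 2007) (.e (nat_lit 5905) (nat_lit 320) (.e (nat_lit 1200) (nat_lit 88) (.e (nat_lit 65630) (nat_lit 14) (.e (nat_lit 401438) (nat_lit 9) (.e (nat_lit 426544) (nat_lit 30) .nil))))) (.g (nat_lit 0) (.e (nat_lit 111297) (nat_lit 0) .nil) .nil))))) (.nd (nat_lit 8) (.nd (nat_lit 9) 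
(.lf (nat_lit 479410) (.g (nat_lit 2411) (.e (nat_lit 5612) (nat_lit 312) (.e (nat_lit 2668) (nat_lit 167) (.e (nat_lit 196666) (nat_lit 13) (.e (nat_lit 65619) (nat_lit 10) (.e (nat_lit 344117) (nat_lit 21) .nil))))) (.g (nat_lit 0) (.e (nat_lit 108362) (nat_lit 0) .nil) .nil))) 
(.lf (nat_lit 479922) (.g (nat_lit 1445) (.e (nat_lit 5766) (nat_lit 316) (.e (nat_lit 172150) (nat_lit 27) (.e (nat_lit 335894) (nat_lit 0) (.e (nat_lit 7936) (nat_lit 361) .nil)))) (.g (nat_lit 0) (.e (nat_lit 110161) (nat_lit 0) .nil) .nil)))) (.nd (nat_lit 9) 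
(.lf (nat_lit 479666) (.g (nat_lit 2198) (.e (nat_lit 5664) (nat_lit 312) (.e (nat_lit 3085) (nat_lit 191) (.e (nat_lit 483412) (nat_lit 27) (.e (nat_lit 401443) (nat_lit 9) (.e (nat_lit 433920) (nat_lit 25) (.e (nat_lit 319492) (nat_lit 0) .nil)))))) (.g (nat_lit 1) (.e (nat_lit 109011) (nat_lit 0) .nil) .nil))) 
(.lf (nat_lit 480178) (.g (nat_lit 2433) (.e (nat_lit 5934) (nat_lit 322) (.e (nat_lit 57372) (nat_lit 2) (.e (nat_lit 90174) (nat_lit 14) (.e (nat_lit 180243) (nat_lit 5) (.e (nat_lit 532515) (nat_lit 3) .nil))))) (.g (nat_lit 0) (.e (nat_lit 111504) (nat_lit 0) .nil) .nil)))))) (.nd (nat_lit 7) (.nd (nat_lit 8) (.nd (nat_lit 9) 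
(.lf (nat_lit 479346) (.g (nat_lit 1409) (.e (nat_lit 5195) (nat_lit 294) (.e (nat_lit 57375) (nat_lit 2) (.e (nat_lit 90157) (nat_lit 11) (.e (nat_lit 24657) (nat_lit 13) (.e (nat_lit 401152) (nat_lit 10) .nil))))) (.g (nat_lit 0) (.e (nat_lit 108219) (nat_lit 0) .nil) .nil))) 
(.lf (nat_lit 479858) (.g (nat_lit 3123) (.e (nat_lit 5761) (nat_lit 315) (.e (nat_lit 163962) (nat_lit 25) (.e (nat_lit 532535) (nat_lit 9) (.e (nat_lit 336176) (nat_lit 10) (.e (nat_lit 344130) (nat_lit 26) (.e (nat_lit 557067) (nat_lit 9) (.e (nat_lit 7936) (nat_lit 19) (.e (nat_lit 319492) (nat_lit 0) .nil)))))))) (.g (nat_lit 1) (.e (nat_lit 109970) (nat_lit 0) .nil) .nil)))) 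
(.nd (nat_lit 9) 
(.lf (nat_lit 479602) (.g (nat_lit 3274) (.e (nat_lit 5664) (nat_lit 312) (.e (nat_lit 2679) (nat_lit 168) (.e (nat_lit 204819) (nat_lit 17) (.e (nat_lit 6113) (nat_lit 332) (.e (nat_lit 1361) (nat_lit 102) (.e (nat_lit 286735) (nat_lit 3) (.e (nat_lit 98323) (nat_lit 17) (.e (nat_lit 6989) (nat_lit 377) (.e (nat_lit 977) (nat_lit 81) .nil))))))))) (.g (nat_lit 1) (.e (nat_lit 108857) (nat_lit 0) .nil) .nil))) 
(.lf (nat_lit 480114) (.g (nat_lit 1895) (.e (nat_lit 5931) (nat_lit 322) (.e (nat_lit 57371) (nat_lit 2) (.e (nat_lit 90173) (nat_lit 14) (.e (nat_lit 180252) (nat_lit 10) (.e (nat_lit 573489) (nat_lit 14) (.e (nat_lit 73755) (nat_lit 8) (.e (nat_lit 557090) (nat_lit 12) (.e (nat_lit 163840) (nat_lit 0) .nil)))))))) (.g (nat_lit 1) (.e (nat_lit 111440) (nat_lit 0) .nil) .nil))))) 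
(.nd (nat_lit 8) (.nd (nat_lit 9) 
(.lf (nat_lit 479474) (.g (nat_lit 2841) (.e (nat_lit 5626) (nat_lit 312) (.e (nat_lit 2668) (nat_lit 167) (.e (nat_lit 196666) (nat_lit 13) (.e (nat_lit 65610) (nat_lit 10) (.e (nat_lit 344117) (nat_lit 21) (.e (nat_lit 516102) (nat_lit 0) (.e (nat_lit 6989) (nat_lit 377) (.e (nat_lit 2512) (nat_lit 157) .nil)))))))) (.g (nat_lit 1) (.e (nat_lit 108485) (nat_lit 0) .nil) .nil))) 
(.lf (nat_lit 479986) (.g (nat_lit 2798) (.e (nat_lit 5780) (nat_lit 317) (.e (nat_lit 180245) (nat_lit 5) (.e (nat_lit 532569) (nat_lit 16) (.e (nat_lit 401448) (nat_lit 10) (.e (nat_lit 434226) (nat_lit 20) .nil))))) (.g (nat_lit 0) (.e (nat_lit 111119) (nat_lit 0) .nil) .nil)))) (.nd (nat_lit 9) 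
(.lf (nat_lit 479730) (.g (nat_lit 377) (.e (nat_lit 7936) (nat_lit 312) (.e (nat_lit 2682) (nat_lit 168) (.e (nat_lit 204868) (nat_lit 29) .nil))) (.g (nat_lit 0) (.e (nat_lit 109541) (nat_lit 0) .nil) .nil))) 
(.lf (nat_lit 480242) (.g (nat_lit 2642) (.e (nat_lit 5935) (nat_lit 322) (.e (nat_lit 57379) (nat_lit 3) (.e (nat_lit 98366) (nat_lit 27) (.e (nat_lit 434231) (nat_lit 23) (.e (nat_lit 532507) (nat_lit 2) (.e (nat_lit 106517) (nat_lit 9) (.e (nat_lit 1255) (nat_lit 92) (.e (nat_lit 98321) (nat_lit 17) (.e (nat_lit 2464) (nat_lit 157) .nil))))))))) (.g (nat_lit 1) (.e (nat_lit 111568) (nat_lit 0) .nil) .nil))))))))) 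
(.nd (nat_lit 4) (.nd (nat_lit 5) (.nd (nat_lit 6) (.nd (nat_lit 7) (.nd (nat_lit 8) 
(.nd (nat_lit 9) 
(.lf (nat_lit 479242) (.g (nat_lit 2394) (.e (nat_lit 5224) (nat_lit 296) (.e (nat_lit 163871) (nat_lit 2) (.e (nat_lit 196656) (nat_lit 11) (.e (nat_lit 16465) (nat_lit 13) (.e (nat_lit 491264) (nat_lit 10) (.e (nat_lit 434213) (nat_lit 18) .nil)))))) (.g (nat_lit 1) (.e (nat_lit 107530) (nat_lit 0) .nil) .nil))) 
(.lf (nat_lit 479754) (.g (nat_lit 2825) (.e (nat_lit 5750) (nat_lit 314) (.e (nat_lit 24662) (nat_lit 14) (.e (nat_lit 401459) (nat_lit 13) (.e (nat_lit 483350) (nat_lit 17) (.e (nat_lit 6113) (nat_lit 332) .nil))))) (.g (nat_lit 0) (.e (nat_lit 109615) (nat_lit 0) .nil) .nil)))) (.nd (nat_lit 9) 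
(.lf (nat_lit 479498) (.g (nat_lit 3337) (.e (nat_lit 5626) (nat_lit 312) (.e (nat_lit 2668) (nat_lit 167) (.e (nat_lit 196666) (nat_lit 13) (.e (nat_lit 65610) (nat_lit 10) (.e (nat_lit 344117) (nat_lit 21) (.e (nat_lit 516138) (nat_lit 7) (.e (nat_lit 409623) (nat_lit 10) .nil))))))) (.g (nat_lit 1) (.e (nat_lit 108509) (nat_lit 0) .nil) .nil))) 
(.lf (nat_lit 480010) (.g (nat_lit 3260) (.e (nat_lit 5818) (nat_lit 320) (.e (nat_lit 1183) (nat_lit 87) (.e (nat_lit 57480) (nat_lit 28) (.e (nat_lit 557108) (nat_lit 15) (.e (nat_lit 188447) (nat_lit 22) .nil))))) (.g (nat_lit 0) (.e (nat_lit 111233) (nat_lit 0) .nil) .nil))))) (.nd (nat_lit 8) (.nd (nat_lit 9) 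
(.lf (nat_lit 479370) (.g (nat_lit 1618) (.e (nat_lit 5199) (nat_lit 294) (.e (nat_lit 57388) (nat_lit 5) (.e (nat_lit 114698) (nat_lit 11) (.e (nat_lit 426198) (nat_lit 9) (.e (nat_lit 426546) (nat_lit 30) .nil))))) (.g (nat_lit 0) (.e (nat_lit 108308) (nat_lit 0) .nil) .nil))) 
(.lf (nat_lit 479882) (.g (nat_lit 1699) (.e (nat_lit 5762) (nat_lit 315) (.e (nat_lit 163962) (nat_lit 25) (.e (nat_lit 532535) (nat_lit 9) (.e (nat_lit 336111) (nat_lit 9) .nil)))) (.g (nat_lit 0) (.e (nat_lit 110048) (nat_lit 0) .nil) .nil)))) (.nd (nat_lit 9) 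
(.lf (nat_lit 479626) (.g (nat_lit 2862) (.e (nat_lit 5664) (nat_lit 312) (.e (nat_lit 3062) (nat_lit 190) (.e (nat_lit 475185) (nat_lit 29) (.e (nat_lit 557100) (nat_lit 13) (.e (nat_lit 172106) (nat_lit 10) (.e (nat_lit 434227) (nat_lit 20) (.e (nat_lit 515840) (nat_lit 10) .nil))))))) (.g (nat_lit 1) (.e (nat_lit 108903) (nat_lit 0) .nil) .nil))) 
(.lf (nat_lit 480138) (.g (nat_lit 2463) (.e (nat_lit 5933) (nat_lit 322) (.e (nat_lit 57375) (nat_lit 2) (.e (nat_lit 90174) (nat_lit 14) (.e (nat_lit 180251) (nat_lit 10) (.e (nat_lit 573489) (nat_lit 14) .nil))))) (.g (nat_lit 0) (.e (nat_lit 111464) (nat_lit 0) .nil) .nil)))))) (.nd (nat_lit 7) (.nd (nat_lit 8) (.nd (nat_lit 9) 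
(.lf (nat_lit 479306) (.g (nat_lit 744) (.e (nat_lit 5230) (nat_lit 296) (.e (nat_lit 163923) (nat_lit 15) (.e (nat_lit 450596) (nat_lit 17) .nil))) (.g (nat_lit 0) (.e (nat_lit 107997) (nat_lit 0) .nil) .nil))) 
(.lf (nat_lit 479818) (.g (nat_lit 2754) (.e (nat_lit 5756) (nat_lit 315) (.e (nat_lit 163962) (nat_lit 25) (.e (nat_lit 532549) (nat_lit 12) (.e (nat_lit 360466) (nat_lit 3) (.e (nat_lit 516142) (nat_lit 8) (.e (nat_lit 417818) (nat_lit 10) .nil)))))) (.g (nat_lit 1) (.e (nat_lit 109833) (nat_lit 0) .nil) .nil)))) (.nd (nat_lit 9) 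
(.lf (nat_lit 479562) (.g (nat_lit 3758) (.e (nat_lit 5627) (nat_lit 312) (.e (nat_lit 2668) (nat_lit 167) (.e (nat_lit 196666) (nat_lit 13) (.e (nat_lit 65610) (nat_lit 10) (.e (nat_lit 344117) (nat_lit 21) (.e (nat_lit 516139) (nat_lit 7) (.e (nat_lit 417536) (nat_lit 10) .nil))))))) (.g (nat_lit 1) (.e (nat_lit 108700) (nat_lit 0) .nil) .nil))) 
(.lf (nat_lit 480074) (.g (nat_lit 1018) (.e (nat_lit 5906) (nat_lit 320) (.e (nat_lit 1211) (nat_lit 89) (.e (nat_lit 73782) (nat_lit 32) (.e (nat_lit 2855) (nat_lit 184) (.e (nat_lit 426544) (nat_lit 30) .nil))))) (.g (nat_lit 0) (.e (nat_lit 111322) (nat_lit 0) .nil) .nil))))) (.nd (nat_lit 8) (.nd (nat_lit 9) 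
(.lf (nat_lit 479434) (.g (nat_lit 4053) (.e (nat_lit 5616) (nat_lit 312) (.e (nat_lit 2668) (nat_lit 167) (.e (nat_lit 196666) (nat_lit 13) (.e (nat_lit 65610) (nat_lit 10) (.e (nat_lit 344117) (nat_lit 21) (.e (nat_lit 516106) (nat_lit 0) (.e (nat_lit 7008) (nat_lit 377) (.e (nat_lit 2429) (nat_lit 157) .nil)))))))) (.g (nat_lit 1) (.e (nat_lit 108421) (nat_lit 0) .nil) .nil))) 
(.lf (nat_lit 479946) (.g (nat_lit 1975) (.e (nat_lit 5771) (nat_lit 316) (.e (nat_lit 172150) (nat_lit 27) (.e (nat_lit 335894) (nat_lit 0) (.e (nat_lit 6718) (nat_lit 361) (.e (nat_lit 172143) (nat_lit 25) .nil))))) (.g (nat_lit 0) (.e (nat_lit 110274) (nat_lit 0) .nil) .nil)))) (.nd (nat_lit 9) 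
(.lf (nat_lit 479690) (.g (nat_lit 3544) (.e (nat_lit 5732) (nat_lit 312) (.e (nat_lit 2663) (nat_lit 167) (.e (nat_lit 196666) (nat_lit 13) (.e (nat_lit 65610) (nat_lit 10) (.e (nat_lit 344117) (nat_lit 21) (.e (nat_lit 516106) (nat_lit 0) (.e (nat_lit 7008) (nat_lit 377) (.e (nat_lit 2422) (nat_lit 157) .nil)))))))) (.g (nat_lit 1) (.e (nat_lit 109197) (nat_lit 0) .nil) .nil))) 
(.lf (nat_lit 480202) (.g (nat_lit 2470) (.e (nat_lit 5934) (nat_lit 322) (.e (nat_lit 57375) (nat_lit 2) (.e (nat_lit 90174) (nat_lit 14) (.e (nat_lit 180243) (nat_lit 5) (.e (nat_lit 532515) (nat_lit 3) (.e (nat_lit 114715) (nat_lit 22) (.e (nat_lit 90165) (nat_lit 12) (.e (nat_lit 163849) (nat_lit 0) .nil)))))))) (.g (nat_lit 1) (.e (nat_lit 111528) (nat_lit 0) .nil) .nil))))))) 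
(.nd (nat_lit 6) (.nd (nat_lit 7) (.nd (nat_lit 8) (.nd (nat_lit 9) 
(.lf (nat_lit 479274) (.g (nat_lit 2637) (.e (nat_lit 5224) (nat_lit 296) (.e (nat_lit 163903) (nat_lit 12) (.e (nat_lit 426566) (nat_lit 34) (.e (nat_lit 393271) (nat_lit 23) (.e (nat_lit 426428) (nat_lit 17) (.e (nat_lit 90165) (nat_lit 12) (.e (nat_lit 163853) (nat_lit 0) .nil))))))) (.g (nat_lit 1) (.e (nat_lit 107807) (nat_lit 0) .nil) .nil))) 
(.lf (nat_lit 479786) (.g (nat_lit 1976) (.e (nat_lit 7936) (nat_lit 314) (.e (nat_lit 24662) (nat_lit 14) (.e (nat_lit 401459) (nat_lit 13) (.e (nat_lit 483374) (nat_lit 22) (.e (nat_lit 327704) (nat_lit 10) .nil))))) (.g (nat_lit 0) (.e (nat_lit 109730) (nat_lit 0) .nil) .nil)))) (.nd (nat_lit 9) 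
(.lf (nat_lit 479530) (.g (nat_lit 2881) (.e (nat_lit 5626) (nat_lit 312) (.e (nat_lit 2685) (nat_lit 168) (.e (nat_lit 204869) (nat_lit 29) (.e (nat_lit 360474) (nat_lit 8) (.e (nat_lit 557064) (nat_lit 9) .nil))))) (.g (nat_lit 0) (.e (nat_lit 108652) (nat_lit 0) .nil) .nil))) 
(.lf (nat_lit 480042) (.g (nat_lit 1719) (.e (nat_lit 5904) (nat_lit 320) (.e (nat_lit 1209) (nat_lit 89) (.e (nat_lit 73781) (nat_lit 32) (.e (nat_lit 3089) (nat_lit 191) (.e (nat_lit 483396) (nat_lit 24) .nil))))) (.g (nat_lit 0) (.e (nat_lit 111286) (nat_lit 0) .nil) .nil))))) (.nd (nat_lit 8) (.nd (nat_lit 9) 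
(.lf (nat_lit 479402) (.g (nat_lit 3376) (.e (nat_lit 5612) (nat_lit 312) (.e (nat_lit 2668) (nat_lit 167) (.e (nat_lit 196666) (nat_lit 13) (.e (nat_lit 65610) (nat_lit 10) (.e (nat_lit 344117) (nat_lit 21) (.e (nat_lit 516106) (nat_lit 0) (.e (nat_lit 6986) (nat_lit 377) (.e (nat_lit 2518) (nat_lit 157) .nil)))))))) (.g (nat_lit 1) (.e (nat_lit 108354) (nat_lit 0) .nil) .nil))) 
(.lf (nat_lit 479914) (.g (nat_lit 2064) (.e (nat_lit 7936) (nat_lit 315) (.e (nat_lit 163962) (nat_lit 25) (.e (nat_lit 532535) (nat_lit 9) (.e (nat_lit 336111) (nat_lit 9) (.e (nat_lit 336028) (nat_lit 3) .nil))))) (.g (nat_lit 0) (.e (nat_lit 110118) (nat_lit 0) .nil) .nil)))) (.nd (nat_lit 9) 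
(.lf (nat_lit 479658) (.g (nat_lit 1948) (.e (nat_lit 5664) (nat_lit 312) (.e (nat_lit 3085) (nat_lit 191) (.e (nat_lit 483383) (nat_lit 23) (.e (nat_lit 336036) (nat_lit 4) .nil)))) (.g (nat_lit 0) (.e (nat_lit 108978) (nat_lit 0) .nil) .nil))) 
(.lf (nat_lit 480170) (.g (nat_lit 2805) (.e (nat_lit 5934) (nat_lit 322) (.e (nat_lit 57371) (nat_lit 2) (.e (nat_lit 90174) (nat_lit 14) (.e (nat_lit 180252) (nat_lit 10) (.e (nat_lit 573489) (nat_lit 14) (.e (nat_lit 73755) (nat_lit 8) (.e (nat_lit 557090) (nat_lit 12) (.e (nat_lit 163851) (nat_lit 0) .nil)))))))) (.g (nat_lit 1) (.e (nat_lit 111496) (nat_lit 0) .nil) .nil)))))) 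
(.nd (nat_lit 7) (.nd (nat_lit 8) (.nd (nat_lit 9) 
(.lf (nat_lit 479338) (.g (nat_lit 1324) (.e (nat_lit 5194) (nat_lit 294) (.e (nat_lit 57388) (nat_lit 5) (.e (nat_lit 114698) (nat_lit 11) (.e (nat_lit 426198) (nat_lit 9) (.e (nat_lit 426544) (nat_lit 30) .nil))))) (.g (nat_lit 0) (.e (nat_lit 108203) (nat_lit 0) .nil) .nil))) 
(.lf (nat_lit 479850) (.g (nat_lit 2831) (.e (nat_lit 5761) (nat_lit 315) (.e (nat_lit 163962) (nat_lit 25) (.e (nat_lit 532535) (nat_lit 9) (.e (nat_lit 336099) (nat_lit 9) (.e (nat_lit 336028) (nat_lit 3) (.e (nat_lit 98349) (nat_lit 24) (.e (nat_lit 417536) (nat_lit 10) .nil))))))) (.g (nat_lit 1) (.e (nat_lit 109945) (nat_lit 0) .nil) .nil)))) (.nd (nat_lit 9) 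
(.lf (nat_lit 479594) (.g (nat_lit 3489) (.e (nat_lit 5664) (nat_lit 312) (.e (nat_lit 2661) (nat_lit 167) (.e (nat_lit 196666) (nat_lit 13) (.e (nat_lit 65610) (nat_lit 10) (.e (nat_lit 344117) (nat_lit 21) (.e (nat_lit 516141) (nat_lit 8) (.e (nat_lit 425728) (nat_lit 10) .nil))))))) (.g (nat_lit 1) (.e (nat_lit 108847) (nat_lit 0) .nil) .nil))) 
(.lf (nat_lit 480106) (.g (nat_lit 456) (.e (nat_lit 5968) (nat_lit 324) (.e (nat_lit 163871) (nat_lit 2) (.e (nat_lit 196668) (nat_lit 14) .nil))) (.g (nat_lit 0) (.e (nat_lit 111408) (nat_lit 0) .nil) .nil))))) (.nd (nat_lit 8) (.nd (nat_lit 9) 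
(.lf (nat_lit 479466) (.g (nat_lit 4116) (.e (nat_lit 5626) (nat_lit 312) (.e (nat_lit 2668) (nat_lit 167) (.e (nat_lit 196666) (nat_lit 13) (.e (nat_lit 65610) (nat_lit 10) (.e (nat_lit 344117) (nat_lit 21) (.e (nat_lit 516099) (nat_lit 0) (.e (nat_lit 7062) (nat_lit 377) (.e (nat_lit 2505) (nat_lit 157) .nil)))))))) (.g (nat_lit 1) (.e (nat_lit 108477) (nat_lit 0) .nil) .nil))) 
(.lf (nat_lit 479978) (.g (nat_lit 3197) (.e (nat_lit 5779) (nat_lit 317) (.e (nat_lit 180243) (nat_lit 5) (.e (nat_lit 532569) (nat_lit 16) (.e (nat_lit 401448) (nat_lit 10) (.e (nat_lit 434227) (nat_lit 20) (.e (nat_lit 507930) (nat_lit 10) .nil)))))) (.g (nat_lit 1) (.e (nat_lit 110940) (nat_lit 0) .nil) .nil)))) (.nd (nat_lit 9) 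
(.lf (nat_lit 479722) (.g (nat_lit 2155) (.e (nat_lit 7936) (nat_lit 312) (.e (nat_lit 2668) (nat_lit 167) (.e (nat_lit 196666) (nat_lit 13) (.e (nat_lit 65589) (nat_lit 9) (.e (nat_lit 336023) (nat_lit 3) .nil))))) (.g (nat_lit 0) (.e (nat_lit 109525) (nat_lit 0) .nil) .nil))) 
(.lf (nat_lit 480234) (.g (nat_lit 2979) (.e (nat_lit 5935) (nat_lit 322) (.e (nat_lit 57373) (nat_lit 2) (.e (nat_lit 90174) (nat_lit 14) (.e (nat_lit 180251) (nat_lit 10) (.e (nat_lit 573489) (nat_lit 14) .nil))))) (.g (nat_lit 0) (.e (nat_lit 111560) (nat_lit 0) .nil) .nil)))))))) (.nd (nat_lit 5) (.nd (nat_lit 6) (.nd (nat_lit 7) (.nd (nat_lit 8) (.nd (nat_lit 9) 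
(.lf (nat_lit 479258) (.g (nat_lit 2459) (.e (nat_lit 5224) (nat_lit 296) (.e (nat_lit 163881) (nat_lit 4) (.e (nat_lit 213030) (nat_lit 11) (.e (nat_lit 24659) (nat_lit 13) (.e (nat_lit 393283) (nat_lit 24) (.e (nat_lit 434209) (nat_lit 18) .nil)))))) (.g (nat_lit 1) (.e (nat_lit 107784) (nat_lit 0) .nil) .nil))) 
(.lf (nat_lit 479770) (.g (nat_lit 1050) (.e (nat_lit 7936) (nat_lit 314) (.e (nat_lit 24651) (nat_lit 12) (.e (nat_lit 385094) (nat_lit 49) (.e (nat_lit 778323) (nat_lit 5) .nil)))) (.g (nat_lit 0) (.e (nat_lit 109710) (nat_lit 0) .nil) .nil)))) (.nd (nat_lit 9) 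
(.lf (nat_lit 479514) (.g (nat_lit 3225) (.e (nat_lit 5626) (nat_lit 312) (.e (nat_lit 2685) (nat_lit 168) (.e (nat_lit 204846) (nat_lit 24) (.e (nat_lit 319530) (nat_lit 16) (.e (nat_lit 286735) (nat_lit 3) (.e (nat_lit 98323) (nat_lit 17) (.e (nat_lit 6989) (nat_lit 377) (.e (nat_lit 1076) (nat_lit 81) .nil)))))))) (.g (nat_lit 1) (.e (nat_lit 108573) (nat_lit 0) .nil) .nil))) 
(.lf (nat_lit 480026) (.g (nat_lit 1905) (.e (nat_lit 5902) (nat_lit 320) (.e (nat_lit 1190) (nat_lit 88) (.e (nat_lit 65630) (nat_lit 14) (.e (nat_lit 401437) (nat_lit 9) (.e (nat_lit 426544) (nat_lit 30) .nil))))) (.g (nat_lit 0) (.e (nat_lit 111270) (nat_lit 0) .nil) .nil))))) (.nd (nat_lit 8) (.nd (nat_lit 9) 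
(.lf (nat_lit 479386) (.g (nat_lit 1355) (.e (nat_lit 5205) (nat_lit 294) (.e (nat_lit 57388) (nat_lit 5) (.e (nat_lit 114698) (nat_lit 11) (.e (nat_lit 426198) (nat_lit 9) .nil)))) (.g (nat_lit 0) (.e (nat_lit 108328) (nat_lit 0) .nil) .nil))) 
(.lf (nat_lit 479898) (.g (nat_lit 2751) (.e (nat_lit 5762) (nat_lit 315) (.e (nat_lit 163962) (nat_lit 25) (.e (nat_lit 532550) (nat_lit 12) (.e (nat_lit 360475) (nat_lit 8) (.e (nat_lit 557073) (nat_lit 9) (.e (nat_lit 220) (nat_lit 20) (.e (nat_lit 327681) (nat_lit 0) .nil))))))) (.g (nat_lit 1) (.e (nat_lit 110088) (nat_lit 0) .nil) .nil)))) (.nd (nat_lit 9) 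
(.lf (nat_lit 479642) (.g (nat_lit 809) (.e (nat_lit 5664) (nat_lit 312) (.e (nat_lit 3085) (nat_lit 191) (.e (nat_lit 483345) (nat_lit 17) (.e (nat_lit 6720) (nat_lit 361) .nil)))) (.g (nat_lit 0) (.e (nat_lit 108940) (nat_lit 0) .nil) .nil))) 
(.lf (nat_lit 480154) (.g (nat_lit 2293) (.e (nat_lit 5934) (nat_lit 322) (.e (nat_lit 57371) (nat_lit 2) (.e (nat_lit 90174) (nat_lit 14) (.e (nat_lit 180243) (nat_lit 5) (.e (nat_lit 532515) (nat_lit 3) (.e (nat_lit 114715) (nat_lit 22) (.e (nat_lit 90165) (nat_lit 12) (.e (nat_lit 163857) (nat_lit 0) .nil)))))))) (.g (nat_lit 1) (.e (nat_lit 111480) (nat_lit 0) .nil) .nil)))))) 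
(.nd (nat_lit 7) (.nd (nat_lit 8) (.nd (nat_lit 9) 
(.lf (nat_lit 479322) (.g (nat_lit 1940) (.e (nat_lit 5243) (nat_lit 297) (.e (nat_lit 229415) (nat_lit 15) (.e (nat_lit 450563) (nat_lit 0) (.e (nat_lit 5130) (nat_lit 292) .nil)))) (.g (nat_lit 0) (.e (nat_lit 108136) (nat_lit 0) .nil) .nil))) 
(.lf (nat_lit 479834) (.g (nat_lit 1068) (.e (nat_lit 5760) (nat_lit 315) (.e (nat_lit 163976) (nat_lit 30) (.e (nat_lit 573488) (nat_lit 14) (.e (nat_lit 73762) (nat_lit 16) .nil)))) (.g (nat_lit 0) (.e (nat_lit 109879) (nat_lit 0) .nil) .nil)))) (.nd (nat_lit 9) 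
(.lf (nat_lit 479578) (.g (nat_lit 495) (.e (nat_lit 5642) (nat_lit 312) (.e (nat_lit 3085) (nat_lit 191) (.e (nat_lit 483412) (nat_lit 27) .nil))) (.g (nat_lit 0) (.e (nat_lit 108786) (nat_lit 0) .nil) .nil))) 
(.lf (nat_lit 480090) (.g (nat_lit 663) (.e (nat_lit 5909) (nat_lit 320) (.e (nat_lit 1209) (nat_lit 89) (.e (nat_lit 73781) (nat_lit 32) .nil))) (.g (nat_lit 0) (.e (nat_lit 111351) (nat_lit 0) .nil) .nil))))) (.nd (nat_lit 8) (.nd (nat_lit 9) 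
(.lf (nat_lit 479450) (.g (nat_lit 1045) (.e (nat_lit 5629) (nat_lit 312) (.e (nat_lit 351) (nat_lit 28) (.e (nat_lit 393253) (nat_lit 18) (.e (nat_lit 164331) (nat_lit 230) .nil)))) (.g (nat_lit 0) (.e (nat_lit 108449) (nat_lit 0) .nil) .nil))) 
(.lf (nat_lit 479962) (.g (nat_lit 1459) (.e (nat_lit 5772) (nat_lit 316) (.e (nat_lit 172143) (nat_lit 25) (.e (nat_lit 319490) (nat_lit 0) (.e (nat_lit 5771) (nat_lit 316) (.e (nat_lit 172144) (nat_lit 26) (.e (nat_lit 327684) (nat_lit 0) .nil)))))) (.g (nat_lit 1) (.e (nat_lit 110314) (nat_lit 0) .nil) .nil)))) (.nd (nat_lit 9) 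
(.lf (nat_lit 479706) (.g (nat_lit 4230) (.e (nat_lit 5710) (nat_lit 312) (.e (nat_lit 2664) (nat_lit 167) (.e (nat_lit 196666) (nat_lit 13) (.e (nat_lit 65610) (nat_lit 10) (.e (nat_lit 344117) (nat_lit 21) (.e (nat_lit 516138) (nat_lit 7) (.e (nat_lit 409612) (nat_lit 10) .nil))))))) (.g (nat_lit 1) (.e (nat_lit 109243) (nat_lit 0) .nil) .nil))) 
(.lf (nat_lit 480218) (.g (nat_lit 1348) (.e (nat_lit 5934) (nat_lit 322) (.e (nat_lit 57377) (nat_lit 3) (.e (nat_lit 98365) (nat_lit 26) (.e (nat_lit 426325) (nat_lit 13) .nil)))) (.g (nat_lit 0) (.e (nat_lit 111544) (nat_lit 0) .nil) .nil))))))) (.nd (nat_lit 6) (.nd (nat_lit 7) (.nd (nat_lit 8) (.nd (nat_lit 9) 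
(.lf (nat_lit 479290) (.g (nat_lit 2156) (.e (nat_lit 5224) (nat_lit 296) (.e (nat_lit 163933) (nat_lit 17) (.e (nat_lit 466971) (nat_lit 21) (.e (nat_lit 164319) (nat_lit 228) (.e (nat_lit 57427) (nat_lit 15) (.e (nat_lit 368384) (nat_lit 0) .nil)))))) (.g (nat_lit 1) (.e (nat_lit 107891) (nat_lit 0) .nil) .nil))) 
(.lf (nat_lit 479802) (.g (nat_lit 2431) (.e (nat_lit 5756) (nat_lit 315) (.e (nat_lit 163962) (nat_lit 25) (.e (nat_lit 532535) (nat_lit 9) (.e (nat_lit 336178) (nat_lit 10) (.e (nat_lit 344117) (nat_lit 21) .nil))))) (.g (nat_lit 0) (.e (nat_lit 109792) (nat_lit 0) .nil) .nil)))) (.nd (nat_lit 9) 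
(.lf (nat_lit 479546) (.g (nat_lit 4423) (.e (nat_lit 5627) (nat_lit 312) (.e (nat_lit 2668) (nat_lit 167) (.e (nat_lit 196666) (nat_lit 13) (.e (nat_lit 65610) (nat_lit 10) (.e (nat_lit 344117) (nat_lit 21) (.e (nat_lit 516098) (nat_lit 0) (.e (nat_lit 7073) (nat_lit 377) (.e (nat_lit 2442) (nat_lit 157) .nil)))))))) (.g (nat_lit 1) (.e (nat_lit 108684) (nat_lit 0) .nil) .nil))) 
(.lf (nat_lit 480058) (.g (nat_lit 1802) (.e (nat_lit 5905) (nat_lit 320) (.e (nat_lit 1211) (nat_lit 89) (.e (nat_lit 73782) (nat_lit 32) (.e (nat_lit 2856) (nat_lit 184) (.e (nat_lit 426546) (nat_lit 30) (.e (nat_lit 368384) (nat_lit 0) .nil)))))) (.g (nat_lit 1) (.e (nat_lit 111306) (nat_lit 0) .nil) .nil))))) (.nd (nat_lit 8) (.nd (nat_lit 9) 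
(.lf (nat_lit 479418) (.g (nat_lit 3412) (.e (nat_lit 5612) (nat_lit 312) (.e (nat_lit 3062) (nat_lit 190) (.e (nat_lit 475185) (nat_lit 29) (.e (nat_lit 557100) (nat_lit 13) (.e (nat_lit 172106) (nat_lit 10) (.e (nat_lit 434227) (nat_lit 20) (.e (nat_lit 507930) (nat_lit 10) .nil))))))) (.g (nat_lit 1) (.e (nat_lit 108384) (nat_lit 0) .nil) .nil))) 
(.lf (nat_lit 479930) (.g (nat_lit 1654) (.e (nat_lit 5766) (nat_lit 316) (.e (nat_lit 172150) (nat_lit 27) (.e (nat_lit 336231) (nat_lit 14) (.e (nat_lit 401440) (nat_lit 9) (.e (nat_lit 426470) (nat_lit 25) (.e (nat_lit 319491) (nat_lit 0) .nil)))))) (.g (nat_lit 1) (.e (nat_lit 110175) (nat_lit 0) .nil) .nil)))) (.nd (nat_lit 9) 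
(.lf (nat_lit 479674) (.g (nat_lit 2418) (.e (nat_lit 5664) (nat_lit 312) (.e (nat_lit 3085) (nat_lit 191) (.e (nat_lit 483413) (nat_lit 27) (.e (nat_lit 401444) (nat_lit 9) (.e (nat_lit 433920) (nat_lit 25) (.e (nat_lit 319492) (nat_lit 0) .nil)))))) (.g (nat_lit 1) (.e (nat_lit 109042) (nat_lit 0) .nil) .nil))) 
(.lf (nat_lit 480186) (.g (nat_lit 2692) (.e (nat_lit 5934) (nat_lit 322) (.e (nat_lit 57372) (nat_lit 2) (.e (nat_lit 90174) (nat_lit 14) (.e (nat_lit 180252) (nat_lit 10) (.e (nat_lit 573489) (nat_lit 14) (.e (nat_lit 73755) (nat_lit 8) (.e (nat_lit 557090) (nat_lit 12) (.e (nat_lit 163847) (nat_lit 0) .nil)))))))) (.g (nat_lit 1) (.e (nat_lit 111512) (nat_lit 0) .nil) .nil)))))) 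
(.nd (nat_lit 7) (.nd (nat_lit 8) (.nd (nat_lit 9) 
(.lf (nat_lit 479354) (.g (nat_lit 2299) (.e (nat_lit 5195) (nat_lit 294) (.e (nat_lit 57388) (nat_lit 5) (.e (nat_lit 114698) (nat_lit 11) (.e (nat_lit 426188) (nat_lit 9) (.e (nat_lit 426546) (nat_lit 30) .nil))))) (.g (nat_lit 0) (.e (nat_lit 108251) (nat_lit 0) .nil) .nil))) 
(.lf (nat_lit 479866) (.g (nat_lit 2788) (.e (nat_lit 5761) (nat_lit 315) (.e (nat_lit 163962) (nat_lit 25) (.e (nat_lit 532549) (nat_lit 12) (.e (nat_lit 360466) (nat_lit 3) (.e (nat_lit 516141) (nat_lit 8) (.e (nat_lit 417820) (nat_lit 10) .nil)))))) (.g (nat_lit 1) (.e (nat_lit 110005) (nat_lit 0) .nil) .nil)))) (.nd (nat_lit 9) 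
(.lf (nat_lit 479610) (.g (nat_lit 3278) (.e (nat_lit 5664) (nat_lit 312) (.e (nat_lit 2679) (nat_lit 168) (.e (nat_lit 204846) (nat_lit 24) (.e (nat_lit 319533) (nat_lit 16) (.e (nat_lit 286734) (nat_lit 3) (.e (nat_lit 98323) (nat_lit 17) (.e (nat_lit 6989) (nat_lit 377) (.e (nat_lit 977) (nat_lit 81) .nil)))))))) (.g (nat_lit 1) (.e (nat_lit 108870) (nat_lit 0) .nil) .nil))) 
(.lf (nat_lit 480122) (.g (nat_lit 3119) (.e (nat_lit 5932) (nat_lit 322) (.e (nat_lit 57372) (nat_lit 2) (.e (nat_lit 90174) (nat_lit 14) (.e (nat_lit 180250) (nat_lit 10) (.e (nat_lit 573489) (nat_lit 14) (.e (nat_lit 73755) (nat_lit 8) (.e (nat_lit 557090) (nat_lit 12) (.e (nat_lit 163842) (nat_lit 0) .nil)))))))) (.g (nat_lit 1) (.e (nat_lit 111448) (nat_lit 0) .nil) .nil))))) 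
(.nd (nat_lit 8) (.nd (nat_lit 9) 
(.lf (nat_lit 479482) (.g (nat_lit 2081) (.e (nat_lit 5626) (nat_lit 312) (.e (nat_lit 2668) (nat_lit 167) (.e (nat_lit 196666) (nat_lit 13) (.e (nat_lit 65610) (nat_lit 10) (.e (nat_lit 344117) (nat_lit 21) (.e (nat_lit 516106) (nat_lit 0) (.e (nat_lit 6966) (nat_lit 377) (.e (nat_lit 2512) (nat_lit 157) .nil)))))))) (.g (nat_lit 1) (.e (nat_lit 108493) (nat_lit 0) .nil) .nil))) 
(.lf (nat_lit 479994) (.g (nat_lit 2171) (.e (nat_lit 5799) (nat_lit 320) (.e (nat_lit 2553) (nat_lit 159) (.e (nat_lit 24640) (nat_lit 10) (.e (nat_lit 344156) (nat_lit 36) (.e (nat_lit 638985) (nat_lit 5) .nil))))) (.g (nat_lit 0) (.e (nat_lit 111210) (nat_lit 0) .nil) .nil)))) (.nd (nat_lit 9) 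
(.lf (nat_lit 479738) (.g (nat_lit 2663) (.e (nat_lit 5747) (nat_lit 314) (.e (nat_lit 24662) (nat_lit 14) (.e (nat_lit 401459) (nat_lit 13) (.e (nat_lit 483371) (nat_lit 21) .nil)))) (.g (nat_lit 0) (.e (nat_lit 109560) (nat_lit 0) .nil) .nil))) 
(.lf (nat_lit 480250) (.g (nat_lit 2252) (.e (nat_lit 5936) (nat_lit 322) (.e (nat_lit 57379) (nat_lit 3) (.e (nat_lit 98366) (nat_lit 27) (.e (nat_lit 434231) (nat_lit 23) (.e (nat_lit 532514) (nat_lit 3) (.e (nat_lit 114716) (nat_lit 22) (.e (nat_lit 90181) (nat_lit 16) (.e (nat_lit 229376) (nat_lit 0) .nil)))))))) (.g (nat_lit 1) (.e (nat_lit 111576) (nat_lit 0) .nil) .nil)))))))))) 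
(.nd (nat_lit 3) (.nd (nat_lit 4) (.nd (nat_lit 5) (.nd (nat_lit 6) (.nd (nat_lit 7) 
(.nd (nat_lit 8) (.nd (nat_lit 9) 
(.lf (nat_lit 479238) (.g (nat_lit 2272) (.e (nat_lit 5224) (nat_lit 296) (.e (nat_lit 163871) (nat_lit 2) (.e (nat_lit 196656) (nat_lit 11) (.e (nat_lit 16463) (nat_lit 13) (.e (nat_lit 491264) (nat_lit 10) (.e (nat_lit 434212) (nat_lit 18) .nil)))))) (.g (nat_lit 1) (.e (nat_lit 107525) (nat_lit 0) .nil) .nil))) 
(.lf (nat_lit 479750) (.g (nat_lit 2031) (.e (nat_lit 5750) (nat_lit 314) (.e (nat_lit 24662) (nat_lit 14) (.e (nat_lit 401438) (nat_lit 9) (.e (nat_lit 426533) (nat_lit 28) .nil)))) (.g (nat_lit 0) (.e (nat_lit 109607) (nat_lit 0) .nil) .nil)))) (.nd (nat_lit 9) 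
(.lf (nat_lit 479494) (.g (nat_lit 2810) (.e (nat_lit 5626) (nat_lit 312) (.e (nat_lit 2668) (nat_lit 167) (.e (nat_lit 196666) (nat_lit 13) (.e (nat_lit 65610) (nat_lit 10) (.e (nat_lit 344117) (nat_lit 21) (.e (nat_lit 516106) (nat_lit 0) (.e (nat_lit 7936) (nat_lit 377) (.e (nat_lit 2499) (nat_lit 157) .nil)))))))) (.g (nat_lit 1) (.e (nat_lit 108505) (nat_lit 0) .nil) .nil))) 
(.lf (nat_lit 480006) (.g (nat_lit 2179) (.e (nat_lit 5817) (nat_lit 320) (.e (nat_lit 1201) (nat_lit 88) (.e (nat_lit 65630) (nat_lit 14) (.e (nat_lit 401437) (nat_lit 9) (.e (nat_lit 426546) (nat_lit 30) .nil))))) (.g (nat_lit 0) (.e (nat_lit 111228) (nat_lit 0) .nil) .nil))))) (.nd (nat_lit 8) (.nd (nat_lit 9) 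
(.lf (nat_lit 479366) (.g (nat_lit 1756) (.e (nat_lit 5195) (nat_lit 294) (.e (nat_lit 57428) (nat_lit 15) (.e (nat_lit 360480) (nat_lit 14) (.e (nat_lit 638986) (nat_lit 5) (.e (nat_lit 3022) (nat_lit 187) (.e (nat_lit 458496) (nat_lit 0) .nil)))))) (.g (nat_lit 1) (.e (nat_lit 108294) (nat_lit 0) .nil) .nil))) 
(.lf (nat_lit 479878) (.g (nat_lit 1623) (.e (nat_lit 5762) (nat_lit 315) (.e (nat_lit 163962) (nat_lit 25) (.e (nat_lit 532535) (nat_lit 9) (.e (nat_lit 336099) (nat_lit 9) .nil)))) (.g (nat_lit 0) (.e (nat_lit 110043) (nat_lit 0) .nil) .nil)))) (.nd (nat_lit 9) 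
(.lf (nat_lit 479622) (.g (nat_lit 1088) (.e (nat_lit 5664) (nat_lit 312) (.e (nat_lit 2679) (nat_lit 168) (.e (nat_lit 204868) (nat_lit 29) (.e (nat_lit 360473) (nat_lit 8) .nil)))) (.g (nat_lit 0) (.e (nat_lit 108883) (nat_lit 0) .nil) .nil))) 
(.lf (nat_lit 480134) (.g (nat_lit 2723) (.e (nat_lit 5933) (nat_lit 322) (.e (nat_lit 57375) (nat_lit 2) (.e (nat_lit 90172) (nat_lit 14) (.e (nat_lit 180252) (nat_lit 10) (.e (nat_lit 573489) (nat_lit 14) .nil))))) (.g (nat_lit 0) (.e (nat_lit 111460) (nat_lit 0) .nil) .nil)))))) (.nd (nat_lit 7) (.nd (nat_lit 8) (.nd (nat_lit 9) 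
(.lf (nat_lit 479302) (.g (nat_lit 644) (.e (nat_lit 5229) (nat_lit 296) (.e (nat_lit 163923) (nat_lit 15) (.e (nat_lit 450596) (nat_lit 17) .nil))) (.g (nat_lit 0) (.e (nat_lit 107980) (nat_lit 0) .nil) .nil))) 
(.lf (nat_lit 479814) (.g (nat_lit 2364) (.e (nat_lit 5756) (nat_lit 315) (.e (nat_lit 163962) (nat_lit 25) (.e (nat_lit 532549) (nat_lit 12) (.e (nat_lit 360466) (nat_lit 3) (.e (nat_lit 516141) (nat_lit 8) (.e (nat_lit 417817) (nat_lit 10) .nil)))))) (.g (nat_lit 1) (.e (nat_lit 109829) (nat_lit 0) .nil) .nil)))) (.nd (nat_lit 9) 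
(.lf (nat_lit 479558) (.g (nat_lit 3659) (.e (nat_lit 5627) (nat_lit 312) (.e (nat_lit 2668) (nat_lit 167) (.e (nat_lit 196666) (nat_lit 13) (.e (nat_lit 65610) (nat_lit 10) (.e (nat_lit 344117) (nat_lit 21) (.e (nat_lit 516106) (nat_lit 0) (.e (nat_lit 7016) (nat_lit 377) (.e (nat_lit 2442) (nat_lit 157) .nil)))))))) (.g (nat_lit 1) (.e (nat_lit 108696) (nat_lit 0) .nil) .nil))) 
(.lf (nat_lit 480070) (.g (nat_lit 2412) (.e (nat_lit 5906) (nat_lit 320) (.e (nat_lit 1209) (nat_lit 89) (.e (nat_lit 73782) (nat_lit 32) (.e (nat_lit 2856) (nat_lit 184) (.e (nat_lit 426544) (nat_lit 30) (.e (nat_lit 368384) (nat_lit 0) .nil)))))) (.g (nat_lit 1) (.e (nat_lit 111318) (nat_lit 0) .nil) .nil))))) (.nd (nat_lit 8) (.nd (nat_lit 9) 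
(.lf (nat_lit 479430) (.g (nat_lit 1900) (.e (nat_lit 5616) (nat_lit 312) (.e (nat_lit 2668) (nat_lit 167) (.e (nat_lit 196666) (nat_lit 13) (.e (nat_lit 65610) (nat_lit 10) (.e (nat_lit 344117) (nat_lit 21) (.e (nat_lit 516106) (nat_lit 0) (.e (nat_lit 7008) (nat_lit 377) (.e (nat_lit 2416) (nat_lit 157) .nil)))))))) (.g (nat_lit 1) (.e (nat_lit 108417) (nat_lit 0) .nil) .nil))) 
(.lf (nat_lit 479942) (.g (nat_lit 1247) (.e (nat_lit 5771) (nat_lit 316) (.e (nat_lit 172144) (nat_lit 26) (.e (nat_lit 327700) (nat_lit 8) (.e (nat_lit 303132) (nat_lit 9) (.e (nat_lit 426470) (nat_lit 25) .nil))))) (.g (nat_lit 0) (.e (nat_lit 110270) (nat_lit 0) .nil) .nil)))) (.nd (nat_lit 9) 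
(.lf (nat_lit 479686) (.g (nat_lit 3396) (.e (nat_lit 5687) (nat_lit 312) (.e (nat_lit 2663) (nat_lit 167) (.e (nat_lit 196666) (nat_lit 13) (.e (nat_lit 65610) (nat_lit 10) (.e (nat_lit 344117) (nat_lit 21) (.e (nat_lit 516106) (nat_lit 0) (.e (nat_lit 7008) (nat_lit 377) (.e (nat_lit 2423) (nat_lit 157) .nil)))))))) (.g (nat_lit 1) (.e (nat_lit 109121) (nat_lit 0) .nil) .nil))) 
(.lf (nat_lit 480198) (.g (nat_lit 3405) (.e (nat_lit 5934) (nat_lit 322) (.e (nat_lit 57375) (nat_lit 2) (.e (nat_lit 90174) (nat_lit 14) (.e (nat_lit 180243) (nat_lit 5) (.e (nat_lit 532513) (nat_lit 3) (.e (nat_lit 114714) (nat_lit 22) (.e (nat_lit 90165) (nat_lit 12) (.e (nat_lit 163857) (nat_lit 0) .nil)))))))) (.g (nat_lit 1) (.e (nat_lit 111524) (nat_lit 0) .nil) .nil))))))) 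
(.nd (nat_lit 6) (.nd (nat_lit 7) (.nd (nat_lit 8) (.nd (nat_lit 9) 
(.lf (nat_lit 479270) (.g (nat_lit 3372) (.e (nat_lit 5224) (nat_lit 296) (.e (nat_lit 163903) (nat_lit 12) (.e (nat_lit 426479) (nat_lit 27) (.e (nat_lit 336432) (nat_lit 30) (.e (nat_lit 450588) (nat_lit 10) (.e (nat_lit 573473) (nat_lit 12) (.e (nat_lit 65280) (nat_lit 0) .nil))))))) (.g (nat_lit 1) (.e (nat_lit 107802) (nat_lit 0) .nil) .nil))) 
(.lf (nat_lit 479782) (.g (nat_lit 2121) (.e (nat_lit 7936) (nat_lit 314) (.e (nat_lit 24662) (nat_lit 14) (.e (nat_lit 401459) (nat_lit 13) (.e (nat_lit 483371) (nat_lit 21) (.e (nat_lit 319500) (nat_lit 10) .nil))))) (.g (nat_lit 0) (.e (nat_lit 109726) (nat_lit 0) .nil) .nil)))) (.nd (nat_lit 9) 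
(.lf (nat_lit 479526) (.g (nat_lit 3806) (.e (nat_lit 5626) (nat_lit 312) (.e (nat_lit 2685) (nat_lit 168) (.e (nat_lit 204868) (nat_lit 29) (.e (nat_lit 360475) (nat_lit 8) (.e (nat_lit 557068) (nat_lit 9) (.e (nat_lit 214) (nat_lit 19) (.e (nat_lit 319492) (nat_lit 0) .nil))))))) (.g (nat_lit 1) (.e (nat_lit 108645) (nat_lit 0) .nil) .nil))) 
(.lf (nat_lit 480038) (.g (nat_lit 1365) (.e (nat_lit 5902) (nat_lit 320) (.e (nat_lit 1211) (nat_lit 89) (.e (nat_lit 73781) (nat_lit 32) (.e (nat_lit 2856) (nat_lit 184) (.e (nat_lit 426546) (nat_lit 30) .nil))))) (.g (nat_lit 0) (.e (nat_lit 111282) (nat_lit 0) .nil) .nil))))) (.nd (nat_lit 8) (.nd (nat_lit 9) 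
(.lf (nat_lit 479398) (.g (nat_lit 2631) (.e (nat_lit 5612) (nat_lit 312) (.e (nat_lit 2668) (nat_lit 167) (.e (nat_lit 196666) (nat_lit 13) (.e (nat_lit 65610) (nat_lit 10) (.e (nat_lit 344117) (nat_lit 21) (.e (nat_lit 516106) (nat_lit 0) (.e (nat_lit 6986) (nat_lit 377) (.e (nat_lit 2397) (nat_lit 157) .nil)))))))) (.g (nat_lit 1) (.e (nat_lit 108350) (nat_lit 0) .nil) .nil))) 
(.lf (nat_lit 479910) (.g (nat_lit 2345) (.e (nat_lit 5763) (nat_lit 315) (.e (nat_lit 164023) (nat_lit 46) (.e (nat_lit 704735) (nat_lit 11) (.e (nat_lit 16468) (nat_lit 13) (.e (nat_lit 483372) (nat_lit 21) (.e (nat_lit 327424) (nat_lit 10) .nil)))))) (.g (nat_lit 1) (.e (nat_lit 110112) (nat_lit 0) .nil) .nil)))) (.nd (nat_lit 9) 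
(.lf (nat_lit 479654) (.g (nat_lit 466) (.e (nat_lit 5664) (nat_lit 312) (.e (nat_lit 3085) (nat_lit 191) (.e (nat_lit 483376) (nat_lit 22) .nil))) (.g (nat_lit 0) (.e (nat_lit 108967) (nat_lit 0) .nil) .nil))) 
(.lf (nat_lit 480166) (.g (nat_lit 3998) (.e (nat_lit 5934) (nat_lit 322) (.e (nat_lit 57371) (nat_lit 2) (.e (nat_lit 90174) (nat_lit 14) (.e (nat_lit 180251) (nat_lit 10) (.e (nat_lit 573489) (nat_lit 14) (.e (nat_lit 73755) (nat_lit 8) (.e (nat_lit 557091) (nat_lit 12) (.e (nat_lit 163841) (nat_lit 0) .nil)))))))) (.g (nat_lit 1) (.e (nat_lit 111492) (nat_lit 0) .nil) .nil)))))) 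
(.nd (nat_lit 7) (.nd (nat_lit 8) (.nd (nat_lit 9) 
(.lf (nat_lit 479334) (.g (nat_lit 517) (.e (nat_lit 5193) (nat_lit 294) (.e (nat_lit 57412) (nat_lit 12) (.e (nat_lit 336176) (nat_lit 10) .nil))) (.g (nat_lit 0) (.e (nat_lit 108173) (nat_lit 0) .nil) .nil))) 
(.lf (nat_lit 479846) (.g (nat_lit 2450) (.e (nat_lit 5761) (nat_lit 315) (.e (nat_lit 163962) (nat_lit 25) (.e (nat_lit 532535) (nat_lit 9) (.e (nat_lit 336061) (nat_lit 7) (.e (nat_lit 319519) (nat_lit 12) .nil))))) (.g (nat_lit 0) (.e (nat_lit 109934) (nat_lit 0) .nil) .nil)))) (.nd (nat_lit 9) 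
(.lf (nat_lit 479590) (.g (nat_lit 3466) (.e (nat_lit 5664) (nat_lit 312) (.e (nat_lit 2661) (nat_lit 167) (.e (nat_lit 196666) (nat_lit 13) (.e (nat_lit 65610) (nat_lit 10) (.e (nat_lit 344117) (nat_lit 21) (.e (nat_lit 516106) (nat_lit 0) (.e (nat_lit 6986) (nat_lit 377) (.e (nat_lit 7936) (nat_lit 157) .nil)))))))) (.g (nat_lit 1) (.e (nat_lit 108843) (nat_lit 0) .nil) .nil))) 
(.lf (nat_lit 480102) (.g (nat_lit 2484) (.e (nat_lit 5968) (nat_lit 324) (.e (nat_lit 163870) (nat_lit 2) (.e (nat_lit 196666) (nat_lit 13) (.e (nat_lit 65642) (nat_lit 15) .nil)))) (.g (nat_lit 0) (.e (nat_lit 111395) (nat_lit 0) .nil) .nil))))) (.nd (nat_lit 8) (.nd (nat_lit 9) 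
(.lf (nat_lit 479462) (.g (nat_lit 3093) (.e (nat_lit 5626) (nat_lit 312) (.e (nat_lit 2668) (nat_lit 167) (.e (nat_lit 196666) (nat_lit 13) (.e (nat_lit 65610) (nat_lit 10) (.e (nat_lit 344117) (nat_lit 21) (.e (nat_lit 516098) (nat_lit 0) (.e (nat_lit 6963) (nat_lit 377) (.e (nat_lit 2510) (nat_lit 157) .nil)))))))) (.g (nat_lit 1) (.e (nat_lit 108473) (nat_lit 0) .nil) .nil))) 
(.lf (nat_lit 479974) (.g (nat_lit 2798) (.e (nat_lit 5779) (nat_lit 317) (.e (nat_lit 180243) (nat_lit 5) (.e (nat_lit 532569) (nat_lit 16) (.e (nat_lit 401448) (nat_lit 10) (.e (nat_lit 434226) (nat_lit 20) .nil))))) (.g (nat_lit 0) (.e (nat_lit 110936) (nat_lit 0) .nil) .nil)))) (.nd (nat_lit 9) 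
(.lf (nat_lit 479718) (.g (nat_lit 2464) (.e (nat_lit 5728) (nat_lit 312) (.e (nat_lit 2663) (nat_lit 167) (.e (nat_lit 196666) (nat_lit 13) (.e (nat_lit 65619) (nat_lit 10) (.e (nat_lit 344117) (nat_lit 21) .nil))))) (.g (nat_lit 0) (.e (nat_lit 109485) (nat_lit 0) .nil) .nil))) 
(.lf (nat_lit 480230) (.g (nat_lit 1963) (.e (nat_lit 5934) (nat_lit 322) (.e (nat_lit 57451) (nat_lit 20) (.e (nat_lit 401451) (nat_lit 12) (.e (nat_lit 475207) (nat_lit 41) .nil)))) (.g (nat_lit 0) (.e (nat_lit 111556) (nat_lit 0) .nil) .nil)))))))) (.nd (nat_lit 5) (.nd (nat_lit 6) (.nd (nat_lit 7) (.nd (nat_lit 8) (.nd (nat_lit 9) 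
(.lf (nat_lit 479254) (.g (nat_lit 2046) (.e (nat_lit 5224) (nat_lit 296) (.e (nat_lit 163877) (nat_lit 4) (.e (nat_lit 213032) (nat_lit 11) (.e (nat_lit 24630) (nat_lit 9) (.e (nat_lit 336434) (nat_lit 30) (.e (nat_lit 450564) (nat_lit 0) .nil)))))) (.g (nat_lit 1) (.e (nat_lit 107776) (nat_lit 0) .nil) .nil))) 
(.lf (nat_lit 479766) (.g (nat_lit 622) (.e (nat_lit 5751) (nat_lit 314) (.e (nat_lit 24662) (nat_lit 14) (.e (nat_lit 401459) (nat_lit 13) .nil))) (.g (nat_lit 0) (.e (nat_lit 109689) (nat_lit 0) .nil) .nil)))) (.nd (nat_lit 9) 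
(.lf (nat_lit 479510) (.g (nat_lit 2972) (.e (nat_lit 5626) (nat_lit 312) (.e (nat_lit 2668) (nat_lit 167) (.e (nat_lit 196672) (nat_lit 15) (.e (nat_lit 81954) (nat_lit 23) (.e (nat_lit 98350) (nat_lit 24) .nil))))) (.g (nat_lit 0) (.e (nat_lit 108563) (nat_lit 0) .nil) .nil))) 
(.lf (nat_lit 480022) (.g (nat_lit 1724) (.e (nat_lit 5920) (nat_lit 320) (.e (nat_lit 1196) (nat_lit 88) (.e (nat_lit 65624) (nat_lit 12) (.e (nat_lit 385102) (nat_lit 50) (.e (nat_lit 786483) (nat_lit 30) .nil))))) (.g (nat_lit 0) (.e (nat_lit 111261) (nat_lit 0) .nil) .nil))))) (.nd (nat_lit 8) (.nd (nat_lit 9) 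
(.lf (nat_lit 479382) (.g (nat_lit 507) (.e (nat_lit 5202) (nat_lit 294) (.e (nat_lit 57412) (nat_lit 12) (.e (nat_lit 336173) (nat_lit 10) .nil))) (.g (nat_lit 0) (.e (nat_lit 108324) (nat_lit 0) .nil) .nil))) 
(.lf (nat_lit 479894) (.g (nat_lit 3977) (.e (nat_lit 5762) (nat_lit 315) (.e (nat_lit 163962) (nat_lit 25) (.e (nat_lit 532547) (nat_lit 11) (.e (nat_lit 352315) (nat_lit 23) (.e (nat_lit 98350) (nat_lit 24) (.e (nat_lit 409617) (nat_lit 10) .nil)))))) (.g (nat_lit 1) (.e (nat_lit 110076) (nat_lit 0) .nil) .nil)))) (.nd (nat_lit 9) 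
(.lf (nat_lit 479638) (.g (nat_lit 1712) (.e (nat_lit 5664) (nat_lit 312) (.e (nat_lit 3078) (nat_lit 191) (.e (nat_lit 483413) (nat_lit 27) (.e (nat_lit 401439) (nat_lit 9) (.e (nat_lit 426470) (nat_lit 25) (.e (nat_lit 319491) (nat_lit 0) .nil)))))) (.g (nat_lit 1) (.e (nat_lit 108936) (nat_lit 0) .nil) .nil))) 
(.lf (nat_lit 480150) (.g (nat_lit 2426) (.e (nat_lit 5934) (nat_lit 322) (.e (nat_lit 57371) (nat_lit 2) (.e (nat_lit 90174) (nat_lit 14) (.e (nat_lit 180243) (nat_lit 5) (.e (nat_lit 532513) (nat_lit 3) (.e (nat_lit 114714) (nat_lit 22) (.e (nat_lit 90165) (nat_lit 12) (.e (nat_lit 163853) (nat_lit 0) .nil)))))))) (.g (nat_lit 1) (.e (nat_lit 111476) (nat_lit 0) .nil) .nil)))))) 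
(.nd (nat_lit 7) (.nd (nat_lit 8) (.nd (nat_lit 9) 
(.lf (nat_lit 479318) (.g (nat_lit 712) (.e (nat_lit 5236) (nat_lit 297) (.e (nat_lit 229415) (nat_lit 15) (.e (nat_lit 450597) (nat_lit 17) .nil))) (.g (nat_lit 0) (.e (nat_lit 108117) (nat_lit 0) .nil) .nil))) 
(.lf (nat_lit 479830) (.g (nat_lit 2246) (.e (nat_lit 5758) (nat_lit 315) (.e (nat_lit 163962) (nat_lit 25) (.e (nat_lit 532535) (nat_lit 9) (.e (nat_lit 336173) (nat_lit 10) .nil)))) (.g (nat_lit 0) (.e (nat_lit 109867) (nat_lit 0) .nil) .nil)))) (.nd (nat_lit 9) 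
(.lf (nat_lit 479574) (.g (nat_lit 1891) (.e (nat_lit 5642) (nat_lit 312) (.e (nat_lit 2679) (nat_lit 168) (.e (nat_lit 204846) (nat_lit 24) (.e (nat_lit 319533) (nat_lit 16) (.e (nat_lit 286734) (nat_lit 3) .nil))))) (.g (nat_lit 0) (.e (nat_lit 108756) (nat_lit 0) .nil) .nil))) 
(.lf (nat_lit 480086) (.g (nat_lit 1076) (.e (nat_lit 5909) (nat_lit 320) (.e (nat_lit 1190) (nat_lit 88) (.e (nat_lit 65628) (nat_lit 14) (.e (nat_lit 401437) (nat_lit 9) .nil)))) (.g (nat_lit 0) (.e (nat_lit 111347) (nat_lit 0) .nil) .nil))))) (.nd (nat_lit 8) (.nd (nat_lit 9) 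
(.lf (nat_lit 479446) (.g (nat_lit 1830) (.e (nat_lit 5629) (nat_lit 312) (.e (nat_lit 226) (nat_lit 21) (.e (nat_lit 336432) (nat_lit 30) (.e (nat_lit 450580) (nat_lit 5) (.e (nat_lit 532575) (nat_lit 17) .nil))))) (.g (nat_lit 0) (.e (nat_lit 108445) (nat_lit 0) .nil) .nil))) 
(.lf (nat_lit 479958) (.g (nat_lit 1225) (.e (nat_lit 5771) (nat_lit 316) (.e (nat_lit 172150) (nat_lit 27) (.e (nat_lit 336232) (nat_lit 14) (.e (nat_lit 401434) (nat_lit 9) .nil)))) (.g (nat_lit 0) (.e (nat_lit 110288) (nat_lit 0) .nil) .nil)))) (.nd (nat_lit 9) 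
(.lf (nat_lit 479702) (.g (nat_lit 3356) (.e (nat_lit 5710) (nat_lit 312) (.e (nat_lit 2663) (nat_lit 167) (.e (nat_lit 196666) (nat_lit 13) (.e (nat_lit 65610) (nat_lit 10) (.e (nat_lit 344117) (nat_lit 21) (.e (nat_lit 516106) (nat_lit 0) (.e (nat_lit 7008) (nat_lit 377) (.e (nat_lit 2426) (nat_lit 157) .nil)))))))) (.g (nat_lit 1) (.e (nat_lit 109232) (nat_lit 0) .nil) .nil))) 
(.lf (nat_lit 480214) (.g (nat_lit 2438) (.e (nat_lit 5934) (nat_lit 322) (.e (nat_lit 57375) (nat_lit 2) (.e (nat_lit 90174) (nat_lit 14) (.e (nat_lit 180251) (nat_lit 10) (.e (nat_lit 573489) (nat_lit 14) (.e (nat_lit 73755) (nat_lit 8) (.e (nat_lit 557091) (nat_lit 12) (.e (nat_lit 163856) (nat_lit 0) .nil)))))))) (.g (nat_lit 1) (.e (nat_lit 111540) (nat_lit 0) .nil) .nil))))))) 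
(.nd (nat_lit 6) (.nd (nat_lit 7) (.nd (nat_lit 8) (.nd (nat_lit 9) 
(.lf (nat_lit 479286) (.g (nat_lit 1900) (.e (nat_lit 5224) (nat_lit 296) (.e (nat_lit 163907) (nat_lit 12) (.e (nat_lit 426566) (nat_lit 34) (.e (nat_lit 393273) (nat_lit 23) (.e (nat_lit 426437) (nat_lit 18) (.e (nat_lit 98325) (nat_lit 17) (.e (nat_lit 2478) (nat_lit 157) .nil))))))) (.g (nat_lit 1) (.e (nat_lit 107850) (nat_lit 0) .nil) .nil))) 
(.lf (nat_lit 479798) (.g (nat_lit 3805) (.e (nat_lit 5756) (nat_lit 315) (.e (nat_lit 163962) (nat_lit 25) (.e (nat_lit 532535) (nat_lit 9) (.e (nat_lit 336099) (nat_lit 9) (.e (nat_lit 336028) (nat_lit 3) (.e (nat_lit 98349) (nat_lit 24) (.e (nat_lit 409618) (nat_lit 10) .nil))))))) (.g (nat_lit 1) (.e (nat_lit 109760) (nat_lit 0) .nil) .nil)))) (.nd (nat_lit 9) 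
(.lf (nat_lit 479542) (.g (nat_lit 1951) (.e (nat_lit 5626) (nat_lit 312) (.e (nat_lit 3094) (nat_lit 191) (.e (nat_lit 483413) (nat_lit 27) (.e (nat_lit 401434) (nat_lit 9) (.e (nat_lit 433920) (nat_lit 25) .nil))))) (.g (nat_lit 0) (.e (nat_lit 108676) (nat_lit 0) .nil) .nil))) 
(.lf (nat_lit 480054) (.g (nat_lit 2342) (.e (nat_lit 5905) (nat_lit 320) (.e (nat_lit 1209) (nat_lit 89) (.e (nat_lit 73782) (nat_lit 32) (.e (nat_lit 2856) (nat_lit 184) (.e (nat_lit 426544) (nat_lit 30) (.e (nat_lit 368384) (nat_lit 0) .nil)))))) (.g (nat_lit 1) (.e (nat_lit 111301) (nat_lit 0) .nil) .nil))))) (.nd (nat_lit 8) (.nd (nat_lit 9) 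
(.lf (nat_lit 479414) (.g (nat_lit 2573) (.e (nat_lit 5612) (nat_lit 312) (.e (nat_lit 2685) (nat_lit 168) (.e (nat_lit 204868) (nat_lit 29) (.e (nat_lit 360466) (nat_lit 3) (.e (nat_lit 516142) (nat_lit 8) (.e (nat_lit 417819) (nat_lit 10) .nil)))))) (.g (nat_lit 1) (.e (nat_lit 108371) (nat_lit 0) .nil) .nil))) 
(.lf (nat_lit 479926) (.g (nat_lit 1215) (.e (nat_lit 5766) (nat_lit 316) (.e (nat_lit 172150) (nat_lit 27) (.e (nat_lit 335895) (nat_lit 0) (.e (nat_lit 7936) (nat_lit 361) .nil)))) (.g (nat_lit 0) (.e (nat_lit 110170) (nat_lit 0) .nil) .nil)))) (.nd (nat_lit 9) 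
(.lf (nat_lit 479670) (.g (nat_lit 2342) (.e (nat_lit 5664) (nat_lit 312) (.e (nat_lit 3085) (nat_lit 191) (.e (nat_lit 483413) (nat_lit 27) (.e (nat_lit 401439) (nat_lit 9) (.e (nat_lit 433920) (nat_lit 25) .nil))))) (.g (nat_lit 0) (.e (nat_lit 109030) (nat_lit 0) .nil) .nil))) 
(.lf (nat_lit 480182) (.g (nat_lit 3654) (.e (nat_lit 5934) (nat_lit 322) (.e (nat_lit 57372) (nat_lit 2) (.e (nat_lit 90174) (nat_lit 14) (.e (nat_lit 180250) (nat_lit 10) (.e (nat_lit 573489) (nat_lit 14) (.e (nat_lit 73755) (nat_lit 8) (.e (nat_lit 557090) (nat_lit 12) (.e (nat_lit 163847) (nat_lit 0) .nil)))))))) (.g (nat_lit 1) (.e (nat_lit 111508) (nat_lit 0) .nil) .nil)))))) 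
(.nd (nat_lit 7) (.nd (nat_lit 8) (.nd (nat_lit 9) 
(.lf (nat_lit 479350) (.g (nat_lit 747) (.e (nat_lit 5195) (nat_lit 294) (.e (nat_lit 57379) (nat_lit 3) (.e (nat_lit 98334) (nat_lit 18) .nil))) (.g (nat_lit 0) (.e (nat_lit 108233) (nat_lit 0) .nil) .nil))) 
(.lf (nat_lit 479862) (.g (nat_lit 3833) (.e (nat_lit 5761) (nat_lit 315) (.e (nat_lit 163962) (nat_lit 25) (.e (nat_lit 532535) (nat_lit 9) (.e (nat_lit 336176) (nat_lit 10) (.e (nat_lit 344133) (nat_lit 26) (.e (nat_lit 557068) (nat_lit 9) (.e (nat_lit 214) (nat_lit 19) (.e (nat_lit 319493) (nat_lit 0) .nil)))))))) (.g (nat_lit 1) (.e (nat_lit 109975) (nat_lit 0) .nil) .nil)))) (.nd (nat_lit 9) 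
(.lf (nat_lit 479606) (.g (nat_lit 2566) (.e (nat_lit 5664) (nat_lit 312) (.e (nat_lit 2679) (nat_lit 168) (.e (nat_lit 204845) (nat_lit 24) (.e (nat_lit 319531) (nat_lit 16) (.e (nat_lit 286735) (nat_lit 3) (.e (nat_lit 98325) (nat_lit 17) (.e (nat_lit 6986) (nat_lit 377) (.e (nat_lit 1076) (nat_lit 81) .nil)))))))) (.g (nat_lit 1) (.e (nat_lit 108862) (nat_lit 0) .nil) .nil))) 
(.lf (nat_lit 480118) (.g (nat_lit 3811) (.e (nat_lit 5932) (nat_lit 322) (.e (nat_lit 57371) (nat_lit 2) (.e (nat_lit 90174) (nat_lit 14) (.e (nat_lit 180252) (nat_lit 10) (.e (nat_lit 573489) (nat_lit 14) (.e (nat_lit 73755) (nat_lit 8) (.e (nat_lit 557090) (nat_lit 12) (.e (nat_lit 163842) (nat_lit 0) .nil)))))))) (.g (nat_lit 1) (.e (nat_lit 111444) (nat_lit 0) .nil) .nil))))) 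
(.nd (nat_lit 8) (.nd (nat_lit 9) 
(.lf (nat_lit 479478) (.g (nat_lit 3299) (.e (nat_lit 5626) (nat_lit 312) (.e (nat_lit 2668) (nat_lit 167) (.e (nat_lit 196666) (nat_lit 13) (.e (nat_lit 65610) (nat_lit 10) (.e (nat_lit 344117) (nat_lit 21) (.e (nat_lit 516106) (nat_lit 0) (.e (nat_lit 6966) (nat_lit 377) (.e (nat_lit 2405) (nat_lit 157) .nil)))))))) (.g (nat_lit 1) (.e (nat_lit 108489) (nat_lit 0) .nil) .nil))) 
(.lf (nat_lit 479990) (.g (nat_lit 2736) (.e (nat_lit 5780) (nat_lit 317) (.e (nat_lit 180271) (nat_lit 26) (.e (nat_lit 704738) (nat_lit 11) (.e (nat_lit 16470) (nat_lit 14) (.e (nat_lit 499456) (nat_lit 25) .nil))))) (.g (nat_lit 0) (.e (nat_lit 111174) (nat_lit 0) .nil) .nil)))) (.nd (nat_lit 9) 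
(.lf (nat_lit 479734) (.g (nat_lit 1983) (.e (nat_lit 7936) (nat_lit 313) (.e (nat_lit 8326) (nat_lit 69) (.e (nat_lit 557098) (nat_lit 13) (.e (nat_lit 172109) (nat_lit 10) .nil)))) (.g (nat_lit 0) (.e (nat_lit 109554) (nat_lit 0) .nil) .nil))) 
(.lf (nat_lit 480246) (.g (nat_lit 3102) (.e (nat_lit 5936) (nat_lit 322) (.e (nat_lit 57373) (nat_lit 2) (.e (nat_lit 90174) (nat_lit 14) (.e (nat_lit 180252) (nat_lit 10) (.e (nat_lit 573489) (nat_lit 14) .nil))))) (.g (nat_lit 0) (.e (nat_lit 111572) (nat_lit 0) .nil) .nil))))))))) (.nd (nat_lit 4) (.nd (nat_lit 5) (.nd (nat_lit 6) (.nd (nat_lit 7) (.nd (nat_lit 8) (.nd (nat_lit 9) 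
(.lf (nat_lit 479246) (.g (nat_lit 2321) (.e (nat_lit 5224) (nat_lit 296) (.e (nat_lit 163871) (nat_lit 2) (.e (nat_lit 196656) (nat_lit 11) (.e (nat_lit 16466) (nat_lit 13) (.e (nat_lit 491264) (nat_lit 13) .nil))))) (.g (nat_lit 0) (.e (nat_lit 107534) (nat_lit 0) .nil) .nil))) 
(.lf (nat_lit 479758) (.g (nat_lit 1434) (.e (nat_lit 5750) (nat_lit 314) (.e (nat_lit 24665) (nat_lit 14) (.e (nat_lit 401444) (nat_lit 9) .nil))) (.g (nat_lit 0) (.e (nat_lit 109625) (nat_lit 0) .nil) .nil)))) (.nd (nat_lit 9) 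
(.lf (nat_lit 479502) (.g (nat_lit 1471) (.e (nat_lit 5626) (nat_lit 312) (.e (nat_lit 2668) (nat_lit 167) (.e (nat_lit 196666) (nat_lit 13) (.e (nat_lit 65617) (nat_lit 10) .nil)))) (.g (nat_lit 0) (.e (nat_lit 108526) (nat_lit 0) .nil) .nil))) 
(.lf (nat_lit 480014) (.g (nat_lit 638) (.e (nat_lit 5818) (nat_lit 320) (.e (nat_lit 1222) (nat_lit 90) (.e (nat_lit 81922) (nat_lit 0) .nil))) (.g (nat_lit 0) (.e (nat_lit 111240) (nat_lit 0) .nil) .nil))))) (.nd (nat_lit 8) (.nd (nat_lit 9) 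
(.lf (nat_lit 479374) (.g (nat_lit 1261) (.e (nat_lit 5200) (nat_lit 294) (.e (nat_lit 57412) (nat_lit 12) (.e (nat_lit 336176) (nat_lit 10) (.e (nat_lit 344157) (nat_lit 36) (.e (nat_lit 638985) (nat_lit 5) .nil))))) (.g (nat_lit 0) (.e (nat_lit 108313) (nat_lit 0) .nil) .nil))) 
(.lf (nat_lit 479886) (.g (nat_lit 2249) (.e (nat_lit 5762) (nat_lit 315) (.e (nat_lit 163962) (nat_lit 25) (.e (nat_lit 532535) (nat_lit 9) (.e (nat_lit 336177) (nat_lit 10) .nil)))) (.g (nat_lit 0) (.e (nat_lit 110058) (nat_lit 0) .nil) .nil)))) (.nd (nat_lit 9) 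
(.lf (nat_lit 479630) (.g (nat_lit 1513) (.e (nat_lit 5664) (nat_lit 312) (.e (nat_lit 3062) (nat_lit 190) (.e (nat_lit 475198) (nat_lit 40) (.e (nat_lit 704836) (nat_lit 14) .nil)))) (.g (nat_lit 0) (.e (nat_lit 108908) (nat_lit 0) .nil) .nil))) 
(.lf (nat_lit 480142) (.g (nat_lit 1575) (.e (nat_lit 5933) (nat_lit 322) (.e (nat_lit 57411) (nat_lit 12) (.e (nat_lit 336208) (nat_lit 12) (.e (nat_lit 385102) (nat_lit 50) .nil)))) (.g (nat_lit 0) (.e (nat_lit 111468) (nat_lit 0) .nil) .nil)))))) (.nd (nat_lit 7) (.nd (nat_lit 8) (.nd (nat_lit 9) 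
(.lf (nat_lit 479310) (.g (nat_lit 713) (.e (nat_lit 5233) (nat_lit 296) (.e (nat_lit 163923) (nat_lit 15) (.e (nat_lit 450596) (nat_lit 17) .nil))) (.g (nat_lit 0) (.e (nat_lit 108031) (nat_lit 0) .nil) .nil))) 
(.lf (nat_lit 479822) (.g (nat_lit 3071) (.e (nat_lit 5756) (nat_lit 315) (.e (nat_lit 163962) (nat_lit 25) (.e (nat_lit 532551) (nat_lit 12) (.e (nat_lit 360467) (nat_lit 3) (.e (nat_lit 516139) (nat_lit 7) (.e (nat_lit 409616) (nat_lit 10) .nil)))))) (.g (nat_lit 1) (.e (nat_lit 109848) (nat_lit 0) .nil) .nil)))) (.nd (nat_lit 9) 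
(.lf (nat_lit 479566) (.g (nat_lit 1518) (.e (nat_lit 5628) (nat_lit 312) (.e (nat_lit 2668) (nat_lit 167) (.e (nat_lit 196666) (nat_lit 13) (.e (nat_lit 65599) (nat_lit 9) .nil)))) (.g (nat_lit 0) (.e (nat_lit 108735) (nat_lit 0) .nil) .nil))) 
(.lf (nat_lit 480078) (.g (nat_lit 2264) (.e (nat_lit 5907) (nat_lit 320) (.e (nat_lit 1189) (nat_lit 88) (.e (nat_lit 65630) (nat_lit 14) (.e (nat_lit 401437) (nat_lit 9) (.e (nat_lit 426546) (nat_lit 30) .nil))))) (.g (nat_lit 0) (.e (nat_lit 111335) (nat_lit 0) .nil) .nil))))) (.nd (nat_lit 8) (.nd (nat_lit 9) 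
(.lf (nat_lit 479438) (.g (nat_lit 1960) (.e (nat_lit 5616) (nat_lit 312) (.e (nat_lit 2668) (nat_lit 167) (.e (nat_lit 196666) (nat_lit 13) (.e (nat_lit 65617) (nat_lit 10) .nil)))) (.g (nat_lit 0) (.e (nat_lit 108425) (nat_lit 0) .nil) .nil))) 
(.lf (nat_lit 479950) (.g (nat_lit 2357) (.e (nat_lit 5771) (nat_lit 316) (.e (nat_lit 172150) (nat_lit 27) (.e (nat_lit 335895) (nat_lit 0) (.e (nat_lit 6720) (nat_lit 361) (.e (nat_lit 172143) (nat_lit 25) (.e (nat_lit 319490) (nat_lit 0) .nil)))))) (.g (nat_lit 1) (.e (nat_lit 110278) (nat_lit 0) .nil) .nil)))) (.nd (nat_lit 9) 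
(.lf (nat_lit 479694) (.g (nat_lit 5786) (.e (nat_lit 5738) (nat_lit 312) (.e (nat_lit 2663) (nat_lit 167) (.e (nat_lit 196666) (nat_lit 13) (.e (nat_lit 65610) (nat_lit 10) (.e (nat_lit 344117) (nat_lit 21) (.e (nat_lit 516106) (nat_lit 0) (.e (nat_lit 7008) (nat_lit 377) (.e (nat_lit 2423) (nat_lit 157) .nil)))))))) (.g (nat_lit 1) (.e (nat_lit 109213) (nat_lit 0) .nil) .nil))) 
(.lf (nat_lit 480206) (.g (nat_lit 2897) (.e (nat_lit 5934) (nat_lit 322) (.e (nat_lit 57375) (nat_lit 2) (.e (nat_lit 90174) (nat_lit 14) (.e (nat_lit 180243) (nat_lit 5) (.e (nat_lit 532515) (nat_lit 3) (.e (nat_lit 114716) (nat_lit 22) (.e (nat_lit 90181) (nat_lit 16) (.e (nat_lit 229380) (nat_lit 0) .nil)))))))) (.g (nat_lit 1) (.e (nat_lit 111532) (nat_lit 0) .nil) .nil))))))) 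
(.nd (nat_lit 6) (.nd (nat_lit 7) (.nd (nat_lit 8) (.nd (nat_lit 9) 
(.lf (nat_lit 479278) (.g (nat_lit 4128) (.e (nat_lit 5224) (nat_lit 296) (.e (nat_lit 163903) (nat_lit 12) (.e (nat_lit 426566) (nat_lit 34) (.e (nat_lit 393273) (nat_lit 23) (.e (nat_lit 426402) (nat_lit 15) (.e (nat_lit 1788) (nat_lit 119) (.e (nat_lit 516106) (nat_lit 0) (.e (nat_lit 2478) (nat_lit 157) .nil)))))))) (.g (nat_lit 1) (.e (nat_lit 107811) (nat_lit 0) .nil) .nil))) 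
(.lf (nat_lit 479790) (.g (nat_lit 1613) (.e (nat_lit 7936) (nat_lit 314) (.e (nat_lit 24665) (nat_lit 14) (.e (nat_lit 401443) (nat_lit 9) (.e (nat_lit 426500) (nat_lit 27) .nil)))) (.g (nat_lit 0) (.e (nat_lit 109738) (nat_lit 0) .nil) .nil)))) (.nd (nat_lit 9) 
(.lf (nat_lit 479534) (.g (nat_lit 3295) (.e (nat_lit 5626) (nat_lit 312) (.e (nat_lit 2685) (nat_lit 168) (.e (nat_lit 204869) (nat_lit 29) (.e (nat_lit 360475) (nat_lit 8) (.e (nat_lit 557064) (nat_lit 9) .nil))))) (.g (nat_lit 0) (.e (nat_lit 108659) (nat_lit 0) .nil) .nil))) 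
(.lf (nat_lit 480046) (.g (nat_lit 1917) (.e (nat_lit 5905) (nat_lit 320) (.e (nat_lit 1199) (nat_lit 88) (.e (nat_lit 65630) (nat_lit 14) (.e (nat_lit 401435) (nat_lit 9) (.e (nat_lit 426546) (nat_lit 30) .nil))))) (.g (nat_lit 0) (.e (nat_lit 111293) (nat_lit 0) .nil) .nil))))) (.nd (nat_lit 8) (.nd (nat_lit 9) 
(.lf (nat_lit 479406) (.g (nat_lit 2046) (.e (nat_lit 5612) (nat_lit 312) (.e (nat_lit 2668) (nat_lit 167) (.e (nat_lit 196666) (nat_lit 13) (.e (nat_lit 65610) (nat_lit 10) (.e (nat_lit 344117) (nat_lit 21) (.e (nat_lit 516106) (nat_lit 0) (.e (nat_lit 7008) (nat_lit 377) (.e (nat_lit 2477) (nat_lit 157) .nil)))))))) (.g (nat_lit 1) (.e (nat_lit 108358) (nat_lit 0) .nil) .nil))) 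
(.lf (nat_lit 479918) (.g (nat_lit 935) (.e (nat_lit 5766) (nat_lit 316) (.e (nat_lit 172150) (nat_lit 27) (.e (nat_lit 335893) (nat_lit 0) (.e (nat_lit 6720) (nat_lit 361) (.e (nat_lit 172143) (nat_lit 25) (.e (nat_lit 319491) (nat_lit 0) .nil)))))) (.g (nat_lit 1) (.e (nat_lit 110156) (nat_lit 0) .nil) .nil)))) (.nd (nat_lit 9) 
(.lf (nat_lit 479662) (.g (nat_lit 264) (.e (nat_lit 5664) (nat_lit 312) (.e (nat_lit 3085) (nat_lit 191) (.e (nat_lit 483412) (nat_lit 27) .nil))) (.g (nat_lit 0) (.e (nat_lit 108996) (nat_lit 0) .nil) .nil))) 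
(.lf (nat_lit 480174) (.g (nat_lit 2518) (.e (nat_lit 5934) (nat_lit 322) (.e (nat_lit 57372) (nat_lit 2) (.e (nat_lit 90173) (nat_lit 14) (.e (nat_lit 180252) (nat_lit 10) (.e (nat_lit 573489) (nat_lit 14) (.e (nat_lit 73755) (nat_lit 8) (.e (nat_lit 557090) (nat_lit 12) (.e (nat_lit 163847) (nat_lit 0) .nil)))))))) (.g (nat_lit 1) (.e (nat_lit 111500) (nat_lit 0) .nil) .nil)))))) 
(.nd (nat_lit 7) (.nd (nat_lit 8) (.nd (nat_lit 9) 
(.lf (nat_lit 479342) (.g (nat_lit 664) (.e (nat_lit 5194) (nat_lit 294) (.e (nat_lit 57427) (nat_lit 15) (.e (nat_lit 360480) (nat_lit 14) .nil))) (.g (nat_lit 0) (.e (nat_lit 108211) (nat_lit 0) .nil) .nil))) 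
(.lf (nat_lit 479854) (.g (nat_lit 1729) (.e (nat_lit 5761) (nat_lit 315) (.e (nat_lit 163962) (nat_lit 25) (.e (nat_lit 532535) (nat_lit 9) (.e (nat_lit 336176) (nat_lit 10) (.e (nat_lit 344126) (nat_lit 25) .nil))))) (.g (nat_lit 0) (.e (nat_lit 109966) (nat_lit 0) .nil) .nil)))) (.nd (nat_lit 9) 
(.lf (nat_lit 479598) (.g (nat_lit 3068) (.e (nat_lit 5664) (nat_lit 312) (.e (nat_lit 2661) (nat_lit 167) (.e (nat_lit 196674) (nat_lit 15) (.e (nat_lit 81953) (nat_lit 22) (.e (nat_lit 90130) (nat_lit 9) .nil))))) (.g (nat_lit 0) (.e (nat_lit 108851) (nat_lit 0) .nil) .nil))) 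
(.lf (nat_lit 480110) (.g (nat_lit 2625) (.e (nat_lit 5968) (nat_lit 324) (.e (nat_lit 163875) (nat_lit 3) (.e (nat_lit 204883) (nat_lit 33) (.e (nat_lit 401457) (nat_lit 13) (.e (nat_lit 483341) (nat_lit 9) .nil))))) (.g (nat_lit 0) (.e (nat_lit 111419) (nat_lit 0) .nil) .nil))))) (.nd (nat_lit 8) (.nd (nat_lit 9) 
(.lf (nat_lit 479470) (.g (nat_lit 4784) (.e (nat_lit 5626) (nat_lit 312) (.e (nat_lit 2668) (nat_lit 167) (.e (nat_lit 196666) (nat_lit 13) (.e (nat_lit 65610) (nat_lit 10) (.e (nat_lit 344117) (nat_lit 21) (.e (nat_lit 516102) (nat_lit 0) (.e (nat_lit 6989) (nat_lit 377) (.e (nat_lit 2404) (nat_lit 157) .nil)))))))) (.g (nat_lit 1) (.e (nat_lit 108481) (nat_lit 0) .nil) .nil))) 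
(.lf (nat_lit 479982) (.g (nat_lit 1433) (.e (nat_lit 5779) (nat_lit 317) (.e (nat_lit 180260) (nat_lit 18) (.e (nat_lit 639020) (nat_lit 16) (.e (nat_lit 65583) (nat_lit 7) (.e (nat_lit 319527) (nat_lit 15) (.e (nat_lit 278531) (nat_lit 0) .nil)))))) (.g (nat_lit 1) (.e (nat_lit 111045) (nat_lit 0) .nil) .nil)))) (.nd (nat_lit 9) 
(.lf (nat_lit 479726) (.g (nat_lit 2868) (.e (nat_lit 7936) (nat_lit 312) (.e (nat_lit 2668) (nat_lit 167) (.e (nat_lit 196666) (nat_lit 13) (.e (nat_lit 65610) (nat_lit 10) (.e (nat_lit 344116) (nat_lit 21) .nil))))) (.g (nat_lit 0) (.e (nat_lit 109532) (nat_lit 0) .nil) .nil))) 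
(.lf (nat_lit 480238) (.g (nat_lit 2097) (.e (nat_lit 5935) (nat_lit 322) (.e (nat_lit 57375) (nat_lit 2) (.e (nat_lit 90174) (nat_lit 14) (.e (nat_lit 180243) (nat_lit 5) (.e (nat_lit 532513) (nat_lit 3) (.e (nat_lit 114714) (nat_lit 22) (.e (nat_lit 90181) (nat_lit 16) (.e (nat_lit 229378) (nat_lit 0) .nil)))))))) (.g (nat_lit 1) (.e (nat_lit 111564) (nat_lit 0) .nil) .nil)))))))) 
(.nd (nat_lit 5) (.nd (nat_lit 6) (.nd (nat_lit 7) (.nd (nat_lit 8) (.nd (nat_lit 9) 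
(.lf (nat_lit 479262) (.g (nat_lit 2455) (.e (nat_lit 5224) (nat_lit 296) (.e (nat_lit 163884) (nat_lit 5) (.e (nat_lit 221193) (nat_lit 11) (.e (nat_lit 336087) (nat_lit 9) (.e (nat_lit 336432) (nat_lit 30) (.e (nat_lit 450565) (nat_lit 0) .nil)))))) (.g (nat_lit 1) (.e (nat_lit 107788) (nat_lit 0) .nil) .nil))) 
(.lf (nat_lit 479774) (.g (nat_lit 1670) (.e (nat_lit 7936) (nat_lit 314) (.e (nat_lit 24661) (nat_lit 14) (.e (nat_lit 401435) (nat_lit 9) (.e (nat_lit 426482) (nat_lit 27) (.e (nat_lit 336060) (nat_lit 7) .nil))))) (.g (nat_lit 0) (.e (nat_lit 109714) (nat_lit 0) .nil) .nil)))) (.nd (nat_lit 9) 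
(.lf (nat_lit 479518) (.g (nat_lit 2900) (.e (nat_lit 5626) (nat_lit 312) (.e (nat_lit 2685) (nat_lit 168) (.e (nat_lit 204846) (nat_lit 24) (.e (nat_lit 319533) (nat_lit 16) (.e (nat_lit 286735) (nat_lit 3) (.e (nat_lit 98323) (nat_lit 17) (.e (nat_lit 6989) (nat_lit 377) (.e (nat_lit 977) (nat_lit 81) .nil)))))))) (.g (nat_lit 1) (.e (nat_lit 108578) (nat_lit 0) .nil) .nil))) 
(.lf (nat_lit 480030) (.g (nat_lit 1031) (.e (nat_lit 5902) (nat_lit 320) (.e (nat_lit 1209) (nat_lit 89) (.e (nat_lit 73781) (nat_lit 32) (.e (nat_lit 2854) (nat_lit 184) .nil)))) (.g (nat_lit 0) (.e (nat_lit 111274) (nat_lit 0) .nil) .nil))))) (.nd (nat_lit 8) (.nd (nat_lit 9) 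
(.lf (nat_lit 479390) (.g (nat_lit 1013) (.e (nat_lit 5205) (nat_lit 294) (.e (nat_lit 57409) (nat_lit 12) (.e (nat_lit 336454) (nat_lit 34) .nil))) (.g (nat_lit 0) (.e (nat_lit 108336) (nat_lit 0) .nil) .nil))) 
(.lf (nat_lit 479902) (.g (nat_lit 2148) (.e (nat_lit 5763) (nat_lit 315) (.e (nat_lit 163962) (nat_lit 25) (.e (nat_lit 532535) (nat_lit 9) (.e (nat_lit 336099) (nat_lit 9) .nil)))) (.g (nat_lit 0) (.e (nat_lit 110095) (nat_lit 0) .nil) .nil)))) (.nd (nat_lit 9) 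
(.lf (nat_lit 479646) (.g (nat_lit 2456) (.e (nat_lit 5664) (nat_lit 312) (.e (nat_lit 3085) (nat_lit 191) (.e (nat_lit 483346) (nat_lit 17) (.e (nat_lit 6718) (nat_lit 361) (.e (nat_lit 172143) (nat_lit 25) (.e (nat_lit 319491) (nat_lit 0) .nil)))))) (.g (nat_lit 1) (.e (nat_lit 108944) (nat_lit 0) .nil) .nil))) 
(.lf (nat_lit 480158) (.g (nat_lit 2475) (.e (nat_lit 5934) (nat_lit 322) (.e (nat_lit 57371) (nat_lit 2) (.e (nat_lit 90174) (nat_lit 14) (.e (nat_lit 180250) (nat_lit 10) (.e (nat_lit 573487) (nat_lit 14) (.e (nat_lit 73753) (nat_lit 8) (.e (nat_lit 557094) (nat_lit 12) (.e (nat_lit 163847) (nat_lit 0) .nil)))))))) (.g (nat_lit 1) (.e (nat_lit 111484) (nat_lit 0) .nil) .nil)))))) 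
(.nd (nat_lit 7) (.nd (nat_lit 8) (.nd (nat_lit 9) 
(.lf (nat_lit 479326) (.g (nat_lit 1744) (.e (nat_lit 5190) (nat_lit 294) (.e (nat_lit 57412) (nat_lit 12) (.e (nat_lit 336176) (nat_lit 10) (.e (nat_lit 344157) (nat_lit 36) (.e (nat_lit 638985) (nat_lit 5) (.e (nat_lit 3027) (nat_lit 187) (.e (nat_lit 458496) (nat_lit 0) .nil))))))) (.g (nat_lit 1) (.e (nat_lit 108153) (nat_lit 0) .nil) .nil))) 
(.lf (nat_lit 479838) (.g (nat_lit 2658) (.e (nat_lit 5761) (nat_lit 315) (.e (nat_lit 163962) (nat_lit 25) (.e (nat_lit 532522) (nat_lit 7) (.e (nat_lit 319531) (nat_lit 16) (.e (nat_lit 286735) (nat_lit 3) (.e (nat_lit 98350) (nat_lit 24) (.e (nat_lit 409602) (nat_lit 0) .nil))))))) (.g (nat_lit 1) (.e (nat_lit 109915) (nat_lit 0) .nil) .nil)))) (.nd (nat_lit 9) 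
(.lf (nat_lit 479582) (.g (nat_lit 2213) (.e (nat_lit 5646) (nat_lit 312) (.e (nat_lit 3062) (nat_lit 190) (.e (nat_lit 475185) (nat_lit 29) (.e (nat_lit 557101) (nat_lit 13) (.e (nat_lit 172115) (nat_lit 10) .nil))))) (.g (nat_lit 0) (.e (nat_lit 108819) (nat_lit 0) .nil) .nil))) 
(.lf (nat_lit 480094) (.g (nat_lit 1196) (.e (nat_lit 7936) (nat_lit 320) (.e (nat_lit 1222) (nat_lit 90) (.e (nat_lit 81924) (nat_lit 0) (.e (nat_lit 3748) (nat_lit 228) (.e (nat_lit 786483) (nat_lit 30) .nil))))) (.g (nat_lit 0) (.e (nat_lit 111356) (nat_lit 0) .nil) .nil))))) (.nd (nat_lit 8) (.nd (nat_lit 9) 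
(.lf (nat_lit 479454) (.g (nat_lit 1319) (.e (nat_lit 5638) (nat_lit 312) (.e (nat_lit 226) (nat_lit 21) (.e (nat_lit 336430) (nat_lit 29) (.e (nat_lit 442425) (nat_lit 23) .nil)))) (.g (nat_lit 0) (.e (nat_lit 108453) (nat_lit 0) .nil) .nil))) 
(.lf (nat_lit 479966) (.g (nat_lit 2606) (.e (nat_lit 5774) (nat_lit 317) (.e (nat_lit 180244) (nat_lit 5) (.e (nat_lit 532569) (nat_lit 16) (.e (nat_lit 401448) (nat_lit 10) (.e (nat_lit 434227) (nat_lit 20) .nil))))) (.g (nat_lit 0) (.e (nat_lit 110422) (nat_lit 0) .nil) .nil)))) (.nd (nat_lit 9) 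
(.lf (nat_lit 479710) (.g (nat_lit 335) (.e (nat_lit 5714) (nat_lit 312) (.e (nat_lit 2682) (nat_lit 168) (.e (nat_lit 204845) (nat_lit 24) .nil))) (.g (nat_lit 0) (.e (nat_lit 109276) (nat_lit 0) .nil) .nil))) 
(.lf (nat_lit 480222) (.g (nat_lit 2029) (.e (nat_lit 5934) (nat_lit 322) (.e (nat_lit 57377) (nat_lit 3) (.e (nat_lit 98365) (nat_lit 26) (.e (nat_lit 426327) (nat_lit 13) (.e (nat_lit 491264) (nat_lit 10) (.e (nat_lit 434208) (nat_lit 18) .nil)))))) (.g (nat_lit 1) (.e (nat_lit 111548) (nat_lit 0) .nil) .nil))))))) (.nd (nat_lit 6) (.nd (nat_lit 7) (.nd (nat_lit 8) (.nd (nat_lit 9) 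
(.lf (nat_lit 479294) (.g (nat_lit 604) (.e (nat_lit 5228) (nat_lit 296) (.e (nat_lit 163871) (nat_lit 2) (.e (nat_lit 196656) (nat_lit 11) .nil))) (.g (nat_lit 0) (.e (nat_lit 107952) (nat_lit 0) .nil) .nil))) 
(.lf (nat_lit 479806) (.g (nat_lit 3212) (.e (nat_lit 5756) (nat_lit 315) (.e (nat_lit 163962) (nat_lit 25) (.e (nat_lit 532547) (nat_lit 11) (.e (nat_lit 352315) (nat_lit 23) (.e (nat_lit 98349) (nat_lit 24) (.e (nat_lit 409612) (nat_lit 10) .nil)))))) (.g (nat_lit 1) (.e (nat_lit 109819) (nat_lit 0) .nil) .nil)))) (.nd (nat_lit 9) 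
(.lf (nat_lit 479550) (.g (nat_lit 2046) (.e (nat_lit 5627) (nat_lit 312) (.e (nat_lit 2668) (nat_lit 167) (.e (nat_lit 196666) (nat_lit 13) (.e (nat_lit 65610) (nat_lit 10) (.e (nat_lit 344117) (nat_lit 21) (.e (nat_lit 516106) (nat_lit 0) (.e (nat_lit 6966) (nat_lit 377) (.e (nat_lit 2430) (nat_lit 157) .nil)))))))) (.g (nat_lit 1) (.e (nat_lit 108688) (nat_lit 0) .nil) .nil))) 
(.lf (nat_lit 480062) (.g (nat_lit 2112) (.e (nat_lit 5906) (nat_lit 320) (.e (nat_lit 1181) (nat_lit 87) (.e (nat_lit 57479) (nat_lit 28) (.e (nat_lit 557100) (nat_lit 13) (.e (nat_lit 172106) (nat_lit 10) .nil))))) (.g (nat_lit 0) (.e (nat_lit 111310) (nat_lit 0) .nil) .nil))))) (.nd (nat_lit 8) (.nd (nat_lit 9) 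
(.lf (nat_lit 479422) (.g (nat_lit 2820) (.e (nat_lit 5613) (nat_lit 312) (.e (nat_lit 2668) (nat_lit 167) (.e (nat_lit 196666) (nat_lit 13) (.e (nat_lit 65592) (nat_lit 9) .nil)))) (.g (nat_lit 0) (.e (nat_lit 108398) (nat_lit 0) .nil) .nil))) 
(.lf (nat_lit 479934) (.g (nat_lit 835) (.e (nat_lit 5768) (nat_lit 316) (.e (nat_lit 172143) (nat_lit 25) (.e (nat_lit 319490) (nat_lit 0) (.e (nat_lit 5771) (nat_lit 316) (.e (nat_lit 172144) (nat_lit 26) .nil))))) (.g (nat_lit 0) (.e (nat_lit 110211) (nat_lit 0) .nil) .nil)))) (.nd (nat_lit 9) 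
(.lf (nat_lit 479678) (.g (nat_lit 909) (.e (nat_lit 5667) (nat_lit 312) (.e (nat_lit 2661) (nat_lit 167) (.e (nat_lit 196674) (nat_lit 15) (.e (nat_lit 81954) (nat_lit 23) .nil)))) (.g (nat_lit 0) (.e (nat_lit 109095) (nat_lit 0) .nil) .nil))) 
(.lf (nat_lit 480190) (.g (nat_lit 3286) (.e (nat_lit 5934) (nat_lit 322) (.e (nat_lit 57373) (nat_lit 2) (.e (nat_lit 90174) (nat_lit 14) (.e (nat_lit 180252) (nat_lit 10) (.e (nat_lit 573489) (nat_lit 14) .nil))))) (.g (nat_lit 0) (.e (nat_lit 111516) (nat_lit 0) .nil) .nil)))))) (.nd (nat_lit 7) (.nd (nat_lit 8) (.nd (nat_lit 9) 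
(.lf (nat_lit 479358) (.g (nat_lit 1960) (.e (nat_lit 5195) (nat_lit 294) (.e (nat_lit 57427) (nat_lit 15) (.e (nat_lit 360480) (nat_lit 14) (.e (nat_lit 638986) (nat_lit 5) (.e (nat_lit 3015) (nat_lit 187) (.e (nat_lit 458496) (nat_lit 0) .nil)))))) (.g (nat_lit 1) (.e (nat_lit 108286) (nat_lit 0) .nil) .nil))) 
(.lf (nat_lit 479870) (.g (nat_lit 1791) (.e (nat_lit 5761) (nat_lit 315) (.e (nat_lit 163962) (nat_lit 25) (.e (nat_lit 532549) (nat_lit 12) (.e (nat_lit 360473) (nat_lit 8) (.e (nat_lit 557073) (nat_lit 9) (.e (nat_lit 7936) (nat_lit 19) (.e (nat_lit 319492) (nat_lit 0) .nil))))))) (.g (nat_lit 1) (.e (nat_lit 110009) (nat_lit 0) .nil) .nil)))) (.nd (nat_lit 9) 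
(.lf (nat_lit 479614) (.g (nat_lit 2027) (.e (nat_lit 5664) (nat_lit 312) (.e (nat_lit 2679) (nat_lit 168) (.e (nat_lit 204854) (nat_lit 26) (.e (nat_lit 336115) (nat_lit 9) (.e (nat_lit 343808) (nat_lit 3) .nil))))) (.g (nat_lit 0) (.e (nat_lit 108874) (nat_lit 0) .nil) .nil))) 
(.lf (nat_lit 480126) (.g (nat_lit 2889) (.e (nat_lit 5933) (nat_lit 322) (.e (nat_lit 57373) (nat_lit 2) (.e (nat_lit 90172) (nat_lit 14) (.e (nat_lit 180250) (nat_lit 10) (.e (nat_lit 573487) (nat_lit 14) .nil))))) (.g (nat_lit 0) (.e (nat_lit 111452) (nat_lit 0) .nil) .nil))))) (.nd (nat_lit 8) (.nd (nat_lit 9) 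
(.lf (nat_lit 479486) (.g (nat_lit 4667) (.e (nat_lit 5626) (nat_lit 312) (.e (nat_lit 2668) (nat_lit 167) (.e (nat_lit 196666) (nat_lit 13) (.e (nat_lit 65610) (nat_lit 10) (.e (nat_lit 344117) (nat_lit 21) (.e (nat_lit 516106) (nat_lit 0) (.e (nat_lit 6986) (nat_lit 377) (.e (nat_lit 2507) (nat_lit 157) .nil)))))))) (.g (nat_lit 1) (.e (nat_lit 108497) (nat_lit 0) .nil) .nil))) 
(.lf (nat_lit 479998) (.g (nat_lit 2212) (.e (nat_lit 5813) (nat_lit 320) (.e (nat_lit 1201) (nat_lit 88) (.e (nat_lit 65630) (nat_lit 14) (.e (nat_lit 401437) (nat_lit 9) (.e (nat_lit 426546) (nat_lit 30) .nil))))) (.g (nat_lit 0) (.e (nat_lit 111217) (nat_lit 0) .nil) .nil)))) (.nd (nat_lit 9) 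
(.lf (nat_lit 479742) (.g (nat_lit 2792) (.e (nat_lit 5748) (nat_lit 314) (.e (nat_lit 24662) (nat_lit 14) (.e (nat_lit 401438) (nat_lit 9) (.e (nat_lit 426533) (nat_lit 28) .nil)))) (.g (nat_lit 0) (.e (nat_lit 109576) (nat_lit 0) .nil) .nil))) 
(.lf (nat_lit 480254) (.g (nat_lit 2197) (.e (nat_lit 5936) (nat_lit 322) (.e (nat_lit 57435) (nat_lit 17) (.e (nat_lit 376835) (nat_lit 0) (.e (nat_lit 3746) (nat_lit 228) (.e (nat_lit 786483) (nat_lit 30) (.e (nat_lit 368384) (nat_lit 0) .nil)))))) (.g (nat_lit 1) (.e (nat_lit 111584) (nat_lit 0) .nil) .nil)))))))))))) 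
(.nd (nat_lit 1) (.nd (nat_lit 2) (.nd (nat_lit 3) (.nd (nat_lit 4) (.nd (nat_lit 5) 
(.nd (nat_lit 6) (.nd (nat_lit 7) (.nd (nat_lit 8) (.nd (nat_lit 9) 
(.lf (nat_lit 479233) (.g (nat_lit 2697) (.e (nat_lit 5224) (nat_lit 296) (.e (nat_lit 163871) (nat_lit 2) (.e (nat_lit 196656) (nat_lit 11) (.e (nat_lit 16416) (nat_lit 3) (.e (nat_lit 204838) (nat_lit 20) .nil))))) (.g (nat_lit 0) (.e (nat_lit 107502) (nat_lit 0) .nil) .nil))) 
(.lf (nat_lit 479745) (.g (nat_lit 875) (.e (nat_lit 5749) (nat_lit 314) (.e (nat_lit 24662) (nat_lit 14) (.e (nat_lit 401459) (nat_lit 13) .nil))) (.g (nat_lit 0) (.e (nat_lit 109590) (nat_lit 0) .nil) .nil)))) (.nd (nat_lit 9) 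
(.lf (nat_lit 479489) (.g (nat_lit 3597) (.e (nat_lit 5626) (nat_lit 312) (.e (nat_lit 2668) (nat_lit 167) (.e (nat_lit 196666) (nat_lit 13) (.e (nat_lit 65610) (nat_lit 10) (.e (nat_lit 344117) (nat_lit 21) (.e (nat_lit 516106) (nat_lit 0) (.e (nat_lit 7008) (nat_lit 377) (.e (nat_lit 2505) (nat_lit 157) .nil)))))))) (.g (nat_lit 1) (.e (nat_lit 108500) (nat_lit 0) .nil) .nil))) 
(.lf (nat_lit 480001) (.g (nat_lit 622) (.e (nat_lit 5813) (nat_lit 320) (.e (nat_lit 1296) (nat_lit 96) (.e (nat_lit 131121) (nat_lit 12) .nil))) (.g (nat_lit 0) (.e (nat_lit 111220) (nat_lit 0) .nil) .nil))))) (.nd (nat_lit 8) (.nd (nat_lit 9) 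
(.lf (nat_lit 479361) (.g (nat_lit 1615) (.e (nat_lit 5195) (nat_lit 294) (.e (nat_lit 57427) (nat_lit 15) (.e (nat_lit 360483) (nat_lit 15) (.e (nat_lit 647190) (nat_lit 9) (.e (nat_lit 7936) (nat_lit 35) (.e (nat_lit 458496) (nat_lit 0) .nil)))))) (.g (nat_lit 1) (.e (nat_lit 108289) (nat_lit 0) .nil) .nil))) 
(.lf (nat_lit 479873) (.g (nat_lit 2653) (.e (nat_lit 5761) (nat_lit 315) (.e (nat_lit 163962) (nat_lit 25) (.e (nat_lit 532550) (nat_lit 12) (.e (nat_lit 360475) (nat_lit 8) (.e (nat_lit 557068) (nat_lit 9) (.e (nat_lit 7936) (nat_lit 19) (.e (nat_lit 319492) (nat_lit 0) .nil))))))) (.g (nat_lit 1) (.e (nat_lit 110015) (nat_lit 0) .nil) .nil)))) (.nd (nat_lit 9) 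
(.lf (nat_lit 479617) (.g (nat_lit 3127) (.e (nat_lit 5664) (nat_lit 312) (.e (nat_lit 2679) (nat_lit 168) (.e (nat_lit 204866) (nat_lit 28) (.e (nat_lit 352314) (nat_lit 23) (.e (nat_lit 98350) (nat_lit 24) (.e (nat_lit 409623) (nat_lit 10) .nil)))))) (.g (nat_lit 1) (.e (nat_lit 108877) (nat_lit 0) .nil) .nil))) 
(.lf (nat_lit 480129) (.g (nat_lit 2533) (.e (nat_lit 5933) (nat_lit 322) (.e (nat_lit 57373) (nat_lit 2) (.e (nat_lit 90174) (nat_lit 14) (.e (nat_lit 180250) (nat_lit 10) (.e (nat_lit 573487) (nat_lit 14) .nil))))) (.g (nat_lit 0) (.e (nat_lit 111455) (nat_lit 0) .nil) .nil)))))) (.nd (nat_lit 7) (.nd (nat_lit 8) (.nd (nat_lit 9) 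
(.lf (nat_lit 479297) (.g (nat_lit 1461) (.e (nat_lit 5228) (nat_lit 296) (.e (nat_lit 163884) (nat_lit 5) (.e (nat_lit 221194) (nat_lit 11) (.e (nat_lit 336087) (nat_lit 9) .nil)))) (.g (nat_lit 0) (.e (nat_lit 107961) (nat_lit 0) .nil) .nil))) 
(.lf (nat_lit 479809) (.g (nat_lit 273) (.e (nat_lit 5756) (nat_lit 315) (.e (nat_lit 163962) (nat_lit 25) (.e (nat_lit 532548) (nat_lit 11) .nil))) (.g (nat_lit 0) (.e (nat_lit 109823) (nat_lit 0) .nil) .nil)))) (.nd (nat_lit 9) 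
(.lf (nat_lit 479553) (.g (nat_lit 3528) (.e (nat_lit 5627) (nat_lit 312) (.e (nat_lit 2668) (nat_lit 167) (.e (nat_lit 196666) (nat_lit 13) (.e (nat_lit 65610) (nat_lit 10) (.e (nat_lit 344117) (nat_lit 21) (.e (nat_lit 516106) (nat_lit 0) (.e (nat_lit 6998) (nat_lit 377) (.e (nat_lit 2442) (nat_lit 157) .nil)))))))) (.g (nat_lit 1) (.e (nat_lit 108691) (nat_lit 0) .nil) .nil))) 
(.lf (nat_lit 480065) (.g (nat_lit 2222) (.e (nat_lit 5906) (nat_lit 320) (.e (nat_lit 1199) (nat_lit 88) (.e (nat_lit 65628) (nat_lit 14) (.e (nat_lit 401456) (nat_lit 13) (.e (nat_lit 483395) (nat_lit 24) .nil))))) (.g (nat_lit 0) (.e (nat_lit 111313) (nat_lit 0) .nil) .nil))))) (.nd (nat_lit 8) (.nd (nat_lit 9) 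
(.lf (nat_lit 479425) (.g (nat_lit 4468) (.e (nat_lit 5613) (nat_lit 312) (.e (nat_lit 2668) (nat_lit 167) (.e (nat_lit 196666) (nat_lit 13) (.e (nat_lit 65610) (nat_lit 10) (.e (nat_lit 344117) (nat_lit 21) (.e (nat_lit 516138) (nat_lit 7) (.e (nat_lit 409612) (nat_lit 10) .nil))))))) (.g (nat_lit 1) (.e (nat_lit 108401) (nat_lit 0) .nil) .nil))) 
(.lf (nat_lit 479937) (.g (nat_lit 824) (.e (nat_lit 5771) (nat_lit 316) (.e (nat_lit 172130) (nat_lit 15) (.e (nat_lit 6244) (nat_lit 336) (.e (nat_lit 229694) (nat_lit 250) (.e (nat_lit 172143) (nat_lit 25) (.e (nat_lit 319493) (nat_lit 0) .nil)))))) (.g (nat_lit 1) (.e (nat_lit 110263) (nat_lit 0) .nil) .nil)))) (.nd (nat_lit 9) 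
(.lf (nat_lit 479681) (.g (nat_lit 2230) (.e (nat_lit 5667) (nat_lit 312) (.e (nat_lit 3085) (nat_lit 191) (.e (nat_lit 483403) (nat_lit 26) (.e (nat_lit 385114) (nat_lit 53) (.e (nat_lit 811024) (nat_lit 5) (.e (nat_lit 270344) (nat_lit 0) .nil)))))) (.g (nat_lit 1) (.e (nat_lit 109106) (nat_lit 0) .nil) .nil))) 
(.lf (nat_lit 480193) (.g (nat_lit 2919) (.e (nat_lit 5934) (nat_lit 322) (.e (nat_lit 57375) (nat_lit 2) (.e (nat_lit 90173) (nat_lit 14) (.e (nat_lit 180252) (nat_lit 10) (.e (nat_lit 573489) (nat_lit 14) (.e (nat_lit 73755) (nat_lit 8) (.e (nat_lit 557090) (nat_lit 12) (.e (nat_lit 163844) (nat_lit 0) .nil)))))))) (.g (nat_lit 1) (.e (nat_lit 111519) (nat_lit 0) .nil) .nil))))))) 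
(.nd (nat_lit 6) (.nd (nat_lit 7) (.nd (nat_lit 8) (.nd (nat_lit 9) 
(.lf (nat_lit 479265) (.g (nat_lit 2891) (.e (nat_lit 5224) (nat_lit 296) (.e (nat_lit 163884) (nat_lit 5) (.e (nat_lit 221194) (nat_lit 11) (.e (nat_lit 336087) (nat_lit 9) (.e (nat_lit 336432) (nat_lit 30) (.e (nat_lit 450565) (nat_lit 0) .nil)))))) (.g (nat_lit 1) (.e (nat_lit 107791) (nat_lit 0) .nil) .nil))) 
(.lf (nat_lit 479777) (.g (nat_lit 419) (.e (nat_lit 7936) (nat_lit 314) (.e (nat_lit 24662) (nat_lit 14) (.e (nat_lit 401459) (nat_lit 13) .nil))) (.g (nat_lit 0) (.e (nat_lit 109721) (nat_lit 0) .nil) .nil)))) (.nd (nat_lit 9) 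
(.lf (nat_lit 479521) (.g (nat_lit 2208) (.e (nat_lit 5626) (nat_lit 312) (.e (nat_lit 2685) (nat_lit 168) (.e (nat_lit 204868) (nat_lit 29) (.e (nat_lit 360466) (nat_lit 3) (.e (nat_lit 516142) (nat_lit 8) (.e (nat_lit 425728) (nat_lit 10) .nil)))))) (.g (nat_lit 1) (.e (nat_lit 108636) (nat_lit 0) .nil) .nil))) 
(.lf (nat_lit 480033) (.g (nat_lit 433) (.e (nat_lit 5902) (nat_lit 320) (.e (nat_lit 1209) (nat_lit 89) (.e (nat_lit 81664) (nat_lit 32) .nil))) (.g (nat_lit 0) (.e (nat_lit 111277) (nat_lit 0) .nil) .nil))))) (.nd (nat_lit 8) (.nd (nat_lit 9) 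
(.lf (nat_lit 479393) (.g (nat_lit 788) (.e (nat_lit 7936) (nat_lit 295) (.e (nat_lit 122919) (nat_lit 15) (.e (nat_lit 360484) (nat_lit 15) (.e (nat_lit 647196) (nat_lit 9) .nil)))) (.g (nat_lit 0) (.e (nat_lit 108344) (nat_lit 0) .nil) .nil))) 
(.lf (nat_lit 479905) (.g (nat_lit 2838) (.e (nat_lit 5763) (nat_lit 315) (.e (nat_lit 163962) (nat_lit 25) (.e (nat_lit 532535) (nat_lit 9) (.e (nat_lit 336176) (nat_lit 10) (.e (nat_lit 344119) (nat_lit 21) (.e (nat_lit 516139) (nat_lit 7) (.e (nat_lit 409616) (nat_lit 10) .nil))))))) (.g (nat_lit 1) (.e (nat_lit 110102) (nat_lit 0) .nil) .nil)))) (.nd (nat_lit 9) 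
(.lf (nat_lit 479649) (.g (nat_lit 1100) (.e (nat_lit 5664) (nat_lit 312) (.e (nat_lit 3085) (nat_lit 191) (.e (nat_lit 483346) (nat_lit 17) (.e (nat_lit 7936) (nat_lit 361) .nil)))) (.g (nat_lit 0) (.e (nat_lit 108950) (nat_lit 0) .nil) .nil))) 
(.lf (nat_lit 480161) (.g (nat_lit 2344) (.e (nat_lit 5934) (nat_lit 322) (.e (nat_lit 57371) (nat_lit 2) (.e (nat_lit 90174) (nat_lit 14) (.e (nat_lit 180250) (nat_lit 10) (.e (nat_lit 573489) (nat_lit 14) (.e (nat_lit 73755) (nat_lit 8) (.e (nat_lit 557091) (nat_lit 12) (.e (nat_lit 163856) (nat_lit 0) .nil)))))))) (.g (nat_lit 1) (.e (nat_lit 111487) (nat_lit 0) .nil) .nil)))))) 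
(.nd (nat_lit 7) (.nd (nat_lit 8) (.nd (nat_lit 9) 
(.lf (nat_lit 479329) (.g (nat_lit 652) (.e (nat_lit 5190) (nat_lit 294) (.e (nat_lit 57427) (nat_lit 15) (.e (nat_lit 360480) (nat_lit 14) .nil))) (.g (nat_lit 0) (.e (nat_lit 108156) (nat_lit 0) .nil) .nil))) 
(.lf (nat_lit 479841) (.g (nat_lit 1376) (.e (nat_lit 5761) (nat_lit 315) (.e (nat_lit 163962) (nat_lit 25) (.e (nat_lit 532523) (nat_lit 7) (.e (nat_lit 327424) (nat_lit 16) .nil)))) (.g (nat_lit 0) (.e (nat_lit 109924) (nat_lit 0) .nil) .nil)))) (.nd (nat_lit 9) 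
(.lf (nat_lit 479585) (.g (nat_lit 3631) (.e (nat_lit 5664) (nat_lit 312) (.e (nat_lit 2661) (nat_lit 167) (.e (nat_lit 196666) (nat_lit 13) (.e (nat_lit 65610) (nat_lit 10) (.e (nat_lit 344117) (nat_lit 21) (.e (nat_lit 516099) (nat_lit 0) (.e (nat_lit 7060) (nat_lit 377) (.e (nat_lit 2505) (nat_lit 157) .nil)))))))) (.g (nat_lit 1) (.e (nat_lit 108838) (nat_lit 0) .nil) .nil))) 
(.lf (nat_lit 480097) (.g (nat_lit 1858) (.e (nat_lit 5964) (nat_lit 324) (.e (nat_lit 163875) (nat_lit 3) (.e (nat_lit 204880) (nat_lit 32) (.e (nat_lit 385096) (nat_lit 49) .nil)))) (.g (nat_lit 0) (.e (nat_lit 111370) (nat_lit 0) .nil) .nil))))) (.nd (nat_lit 8) (.nd (nat_lit 9) 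
(.lf (nat_lit 479457) (.g (nat_lit 4951) (.e (nat_lit 5626) (nat_lit 312) (.e (nat_lit 2668) (nat_lit 167) (.e (nat_lit 196666) (nat_lit 13) (.e (nat_lit 65610) (nat_lit 10) (.e (nat_lit 344117) (nat_lit 21) (.e (nat_lit 516097) (nat_lit 0) (.e (nat_lit 7026) (nat_lit 377) (.e (nat_lit 2505) (nat_lit 157) .nil)))))))) (.g (nat_lit 1) (.e (nat_lit 108468) (nat_lit 0) .nil) .nil))) 
(.lf (nat_lit 479969) (.g (nat_lit 3331) (.e (nat_lit 5776) (nat_lit 317) (.e (nat_lit 180244) (nat_lit 5) (.e (nat_lit 532569) (nat_lit 16) (.e (nat_lit 401448) (nat_lit 10) (.e (nat_lit 434227) (nat_lit 20) (.e (nat_lit 507930) (nat_lit 10) .nil)))))) (.g (nat_lit 1) (.e (nat_lit 110518) (nat_lit 0) .nil) .nil)))) (.nd (nat_lit 9) 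
(.lf (nat_lit 479713) (.g (nat_lit 2064) (.e (nat_lit 5714) (nat_lit 312) (.e (nat_lit 2682) (nat_lit 168) (.e (nat_lit 204846) (nat_lit 24) (.e (nat_lit 319533) (nat_lit 16) (.e (nat_lit 286724) (nat_lit 0) .nil))))) (.g (nat_lit 0) (.e (nat_lit 109282) (nat_lit 0) .nil) .nil))) 
(.lf (nat_lit 480225) (.g (nat_lit 2184) (.e (nat_lit 5934) (nat_lit 322) (.e (nat_lit 57378) (nat_lit 3) (.e (nat_lit 98365) (nat_lit 26) (.e (nat_lit 426327) (nat_lit 13) .nil)))) (.g (nat_lit 0) (.e (nat_lit 111551) (nat_lit 0) .nil) .nil)))))))) (.nd (nat_lit 5) (.nd (nat_lit 6) (.nd (nat_lit 7) (.nd (nat_lit 8) (.nd (nat_lit 9) 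
(.lf (nat_lit 479249) (.g (nat_lit 1945) (.e (nat_lit 5224) (nat_lit 296) (.e (nat_lit 163875) (nat_lit 3) (.e (nat_lit 204830) (nat_lit 18) (.e (nat_lit 57908) (nat_lit 278) .nil)))) (.g (nat_lit 0) (.e (nat_lit 107765) (nat_lit 0) .nil) .nil))) 
(.lf (nat_lit 479761) (.g (nat_lit 2203) (.e (nat_lit 5753) (nat_lit 314) (.e (nat_lit 24662) (nat_lit 14) (.e (nat_lit 401438) (nat_lit 9) (.e (nat_lit 426533) (nat_lit 28) .nil)))) (.g (nat_lit 0) (.e (nat_lit 109677) (nat_lit 0) .nil) .nil)))) (.nd (nat_lit 9) 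
(.lf (nat_lit 479505) (.g (nat_lit 2295) (.e (nat_lit 5626) (nat_lit 312) (.e (nat_lit 2668) (nat_lit 167) (.e (nat_lit 196666) (nat_lit 13) (.e (nat_lit 65617) (nat_lit 10) (.e (nat_lit 344132) (nat_lit 26) .nil))))) (.g (nat_lit 0) (.e (nat_lit 108551) (nat_lit 0) .nil) .nil))) 
(.lf (nat_lit 480017) (.g (nat_lit 577) (.e (nat_lit 5818) (nat_lit 320) (.e (nat_lit 1296) (nat_lit 96) (.e (nat_lit 131086) (nat_lit 1) .nil))) (.g (nat_lit 0) (.e (nat_lit 111245) (nat_lit 0) .nil) .nil))))) (.nd (nat_lit 8) (.nd (nat_lit 9) 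
(.lf (nat_lit 479377) (.g (nat_lit 1259) (.e (nat_lit 5200) (nat_lit 294) (.e (nat_lit 57412) (nat_lit 12) (.e (nat_lit 336176) (nat_lit 10) (.e (nat_lit 344157) (nat_lit 36) (.e (nat_lit 638986) (nat_lit 5) (.e (nat_lit 3016) (nat_lit 187) (.e (nat_lit 458496) (nat_lit 0) .nil))))))) (.g (nat_lit 1) (.e (nat_lit 108316) (nat_lit 0) .nil) .nil))) 
(.lf (nat_lit 479889) (.g (nat_lit 777) (.e (nat_lit 5762) (nat_lit 315) (.e (nat_lit 163962) (nat_lit 25) (.e (nat_lit 532547) (nat_lit 11) (.e (nat_lit 352312) (nat_lit 22) .nil)))) (.g (nat_lit 0) (.e (nat_lit 110065) (nat_lit 0) .nil) .nil)))) (.nd (nat_lit 9) 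
(.lf (nat_lit 479633) (.g (nat_lit 2202) (.e (nat_lit 5664) (nat_lit 312) (.e (nat_lit 3062) (nat_lit 190) (.e (nat_lit 475214) (nat_lit 42) (.e (nat_lit 720955) (nat_lit 25) .nil)))) (.g (nat_lit 0) (.e (nat_lit 108931) (nat_lit 0) .nil) .nil))) 
(.lf (nat_lit 480145) (.g (nat_lit 2694) (.e (nat_lit 5934) (nat_lit 322) (.e (nat_lit 57371) (nat_lit 2) (.e (nat_lit 90172) (nat_lit 14) (.e (nat_lit 180250) (nat_lit 10) (.e (nat_lit 573487) (nat_lit 14) (.e (nat_lit 73753) (nat_lit 8) (.e (nat_lit 557090) (nat_lit 12) (.e (nat_lit 163843) (nat_lit 0) .nil)))))))) (.g (nat_lit 1) (.e (nat_lit 111471) (nat_lit 0) .nil) .nil)))))) 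
(.nd (nat_lit 7) (.nd (nat_lit 8) (.nd (nat_lit 9) 
(.lf (nat_lit 479313) (.g (nat_lit 675) (.e (nat_lit 5234) (nat_lit 296) (.e (nat_lit 163869) (nat_lit 2) (.e (nat_lit 196655) (nat_lit 11) .nil))) (.g (nat_lit 0) (.e (nat_lit 108055) (nat_lit 0) .nil) .nil))) 
(.lf (nat_lit 479825) (.g (nat_lit 3356) (.e (nat_lit 5757) (nat_lit 315) (.e (nat_lit 163962) (nat_lit 25) (.e (nat_lit 532535) (nat_lit 9) (.e (nat_lit 336099) (nat_lit 9) (.e (nat_lit 336028) (nat_lit 3) .nil))))) (.g (nat_lit 0) (.e (nat_lit 109857) (nat_lit 0) .nil) .nil)))) (.nd (nat_lit 9) 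
(.lf (nat_lit 479569) (.g (nat_lit 1501) (.e (nat_lit 5628) (nat_lit 312) (.e (nat_lit 3071) (nat_lit 190) (.e (nat_lit 475185) (nat_lit 29) (.e (nat_lit 557100) (nat_lit 13) (.e (nat_lit 172106) (nat_lit 10) .nil))))) (.g (nat_lit 0) (.e (nat_lit 108740) (nat_lit 0) .nil) .nil))) 
(.lf (nat_lit 480081) (.g (nat_lit 2075) (.e (nat_lit 5907) (nat_lit 320) (.e (nat_lit 1199) (nat_lit 88) (.e (nat_lit 65630) (nat_lit 14) (.e (nat_lit 401456) (nat_lit 13) (.e (nat_lit 483394) (nat_lit 24) .nil))))) (.g (nat_lit 0) (.e (nat_lit 111340) (nat_lit 0) .nil) .nil))))) (.nd (nat_lit 8) (.nd (nat_lit 9) 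
(.lf (nat_lit 479441) (.g (nat_lit 1605) (.e (nat_lit 5629) (nat_lit 312) (.e (nat_lit 110) (nat_lit 3) (.e (nat_lit 98334) (nat_lit 18) (.e (nat_lit 164332) (nat_lit 230) (.e (nat_lit 163943) (nat_lit 19) .nil))))) (.g (nat_lit 0) (.e (nat_lit 108440) (nat_lit 0) .nil) .nil))) 
(.lf (nat_lit 479953) (.g (nat_lit 991) (.e (nat_lit 5771) (nat_lit 316) (.e (nat_lit 172150) (nat_lit 27) (.e (nat_lit 336230) (nat_lit 14) (.e (nat_lit 401440) (nat_lit 9) (.e (nat_lit 426470) (nat_lit 25) (.e (nat_lit 319490) (nat_lit 0) .nil)))))) (.g (nat_lit 1) (.e (nat_lit 110281) (nat_lit 0) .nil) .nil)))) (.nd (nat_lit 9) 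
(.lf (nat_lit 479697) (.g (nat_lit 1909) (.e (nat_lit 5738) (nat_lit 312) (.e (nat_lit 2663) (nat_lit 167) (.e (nat_lit 196666) (nat_lit 13) (.e (nat_lit 65619) (nat_lit 10) .nil)))) (.g (nat_lit 0) (.e (nat_lit 109216) (nat_lit 0) .nil) .nil))) 
(.lf (nat_lit 480209) (.g (nat_lit 2331) (.e (nat_lit 5934) (nat_lit 322) (.e (nat_lit 57375) (nat_lit 2) (.e (nat_lit 90174) (nat_lit 14) (.e (nat_lit 180251) (nat_lit 10) (.e (nat_lit 573489) (nat_lit 14) .nil))))) (.g (nat_lit 0) (.e (nat_lit 111535) (nat_lit 0) .nil) .nil))))))) (.nd (nat_lit 6) (.nd (nat_lit 7) (.nd (nat_lit 8) (.nd (nat_lit 9) 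
(.lf (nat_lit 479281) (.g (nat_lit 3041) (.e (nat_lit 5224) (nat_lit 296) (.e (nat_lit 163903) (nat_lit 12) (.e (nat_lit 426567) (nat_lit 34) (.e (nat_lit 393268) (nat_lit 23) (.e (nat_lit 426428) (nat_lit 17) .nil))))) (.g (nat_lit 0) (.e (nat_lit 107815) (nat_lit 0) .nil) .nil))) 
(.lf (nat_lit 479793) (.g (nat_lit 3233) (.e (nat_lit 5756) (nat_lit 315) (.e (nat_lit 163962) (nat_lit 25) (.e (nat_lit 532523) (nat_lit 7) (.e (nat_lit 319531) (nat_lit 16) (.e (nat_lit 286735) (nat_lit 3) (.e (nat_lit 98350) (nat_lit 24) (.e (nat_lit 409602) (nat_lit 0) .nil))))))) (.g (nat_lit 1) (.e (nat_lit 109748) (nat_lit 0) .nil) .nil)))) (.nd (nat_lit 9) 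
(.lf (nat_lit 479537) (.g (nat_lit 4126) (.e (nat_lit 5626) (nat_lit 312) (.e (nat_lit 2685) (nat_lit 168) (.e (nat_lit 204869) (nat_lit 29) (.e (nat_lit 360475) (nat_lit 8) (.e (nat_lit 557068) (nat_lit 9) (.e (nat_lit 214) (nat_lit 19) (.e (nat_lit 319492) (nat_lit 0) .nil))))))) (.g (nat_lit 1) (.e (nat_lit 108662) (nat_lit 0) .nil) .nil))) 
(.lf (nat_lit 480049) (.g (nat_lit 1899) (.e (nat_lit 5905) (nat_lit 320) (.e (nat_lit 1200) (nat_lit 88) (.e (nat_lit 65630) (nat_lit 14) (.e (nat_lit 401435) (nat_lit 9) (.e (nat_lit 426546) (nat_lit 30) .nil))))) (.g (nat_lit 0) (.e (nat_lit 111296) (nat_lit 0) .nil) .nil))))) (.nd (nat_lit 8) (.nd (nat_lit 9) 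
(.lf (nat_lit 479409) (.g (nat_lit 1967) (.e (nat_lit 5612) (nat_lit 312) (.e (nat_lit 2668) (nat_lit 167) (.e (nat_lit 196666) (nat_lit 13) (.e (nat_lit 65617) (nat_lit 10) (.e (nat_lit 344117) (nat_lit 21) .nil))))) (.g (nat_lit 0) (.e (nat_lit 108361) (nat_lit 0) .nil) .nil))) 
(.lf (nat_lit 479921) (.g (nat_lit 2344) (.e (nat_lit 5766) (nat_lit 316) (.e (nat_lit 172150) (nat_lit 27) (.e (nat_lit 335894) (nat_lit 0) (.e (nat_lit 6720) (nat_lit 361) (.e (nat_lit 172143) (nat_lit 25) (.e (nat_lit 319490) (nat_lit 0) .nil)))))) (.g (nat_lit 1) (.e (nat_lit 110160) (nat_lit 0) .nil) .nil)))) (.nd (nat_lit 9) 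
(.lf (nat_lit 479665) (.g (nat_lit 1175) (.e (nat_lit 5664) (nat_lit 312) (.e (nat_lit 3085) (nat_lit 191) (.e (nat_lit 483412) (nat_lit 27) (.e (nat_lit 401443) (nat_lit 9) .nil)))) (.g (nat_lit 0) (.e (nat_lit 109010) (nat_lit 0) .nil) .nil))) 
(.lf (nat_lit 480177) (.g (nat_lit 2477) (.e (nat_lit 5934) (nat_lit 322) (.e (nat_lit 57372) (nat_lit 2) (.e (nat_lit 90174) (nat_lit 14) (.e (nat_lit 180243) (nat_lit 5) (.e (nat_lit 532513) (nat_lit 3) (.e (nat_lit 114718) (nat_lit 23) (.e (nat_lit 98325) (nat_lit 17) (.e (nat_lit 2515) (nat_lit 157) .nil)))))))) (.g (nat_lit 1) (.e (nat_lit 111503) (nat_lit 0) .nil) .nil)))))) 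
(.nd (nat_lit 7) (.nd (nat_lit 8) (.nd (nat_lit 9) 
(.lf (nat_lit 479345) (.g (nat_lit 1662) (.e (nat_lit 5195) (nat_lit 294) (.e (nat_lit 57372) (nat_lit 2) (.e (nat_lit 90160) (nat_lit 11) (.e (nat_lit 24655) (nat_lit 13) .nil)))) (.g (nat_lit 0) (.e (nat_lit 108215) (nat_lit 0) .nil) .nil))) 
(.lf (nat_lit 479857) (.g (nat_lit 2436) (.e (nat_lit 5761) (nat_lit 315) (.e (nat_lit 163962) (nat_lit 25) (.e (nat_lit 532535) (nat_lit 9) (.e (nat_lit 336176) (nat_lit 10) (.e (nat_lit 344130) (nat_lit 26) (.e (nat_lit 557067) (nat_lit 9) (.e (nat_lit 7936) (nat_lit 19) (.e (nat_lit 319491) (nat_lit 0) .nil)))))))) (.g (nat_lit 1) (.e (nat_lit 109969) (nat_lit 0) .nil) .nil)))) 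
(.nd (nat_lit 9) 
(.lf (nat_lit 479601) (.g (nat_lit 834) (.e (nat_lit 5664) (nat_lit 312) (.e (nat_lit 2675) (nat_lit 168) (.e (nat_lit 204861) (nat_lit 26) (.e (nat_lit 336186) (nat_lit 11) .nil)))) (.g (nat_lit 0) (.e (nat_lit 108854) (nat_lit 0) .nil) .nil))) 
(.lf (nat_lit 480113) (.g (nat_lit 2055) (.e (nat_lit 5971) (nat_lit 324) (.e (nat_lit 163891) (nat_lit 8) (.e (nat_lit 253992) (nat_lit 11) (.e (nat_lit 16425) (nat_lit 7) (.e (nat_lit 409648) (nat_lit 18) .nil))))) (.g (nat_lit 0) (.e (nat_lit 111438) (nat_lit 0) .nil) .nil))))) (.nd (nat_lit 8) (.nd (nat_lit 9) 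
(.lf (nat_lit 479473) (.g (nat_lit 3064) (.e (nat_lit 5626) (nat_lit 312) (.e (nat_lit 2668) (nat_lit 167) (.e (nat_lit 196666) (nat_lit 13) (.e (nat_lit 65610) (nat_lit 10) (.e (nat_lit 344117) (nat_lit 21) (.e (nat_lit 516102) (nat_lit 0) (.e (nat_lit 6989) (nat_lit 377) (.e (nat_lit 2505) (nat_lit 157) .nil)))))))) (.g (nat_lit 1) (.e (nat_lit 108484) (nat_lit 0) .nil) .nil))) 
(.lf (nat_lit 479985) (.g (nat_lit 2053) (.e (nat_lit 5779) (nat_lit 317) (.e (nat_lit 180271) (nat_lit 26) (.e (nat_lit 704737) (nat_lit 11) (.e (nat_lit 16473) (nat_lit 14) (.e (nat_lit 499456) (nat_lit 25) .nil))))) (.g (nat_lit 0) (.e (nat_lit 111079) (nat_lit 0) .nil) .nil)))) (.nd (nat_lit 9) 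
(.lf (nat_lit 479729) (.g (nat_lit 728) (.e (nat_lit 7936) (nat_lit 312) (.e (nat_lit 2668) (nat_lit 167) (.e (nat_lit 196667) (nat_lit 14) .nil))) (.g (nat_lit 0) (.e (nat_lit 109537) (nat_lit 0) .nil) .nil))) 
(.lf (nat_lit 480241) (.g (nat_lit 1962) (.e (nat_lit 5935) (nat_lit 322) (.e (nat_lit 57379) (nat_lit 3) (.e (nat_lit 98365) (nat_lit 26) (.e (nat_lit 426325) (nat_lit 13) (.e (nat_lit 483337) (nat_lit 9) .nil))))) (.g (nat_lit 0) (.e (nat_lit 111567) (nat_lit 0) .nil) .nil))))))))) (.nd (nat_lit 4) (.nd (nat_lit 5) (.nd (nat_lit 6) (.nd (nat_lit 7) (.nd (nat_lit 8) (.nd (nat_lit 9) 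
(.lf (nat_lit 479241) (.g (nat_lit 1946) (.e (nat_lit 5224) (nat_lit 296) (.e (nat_lit 163871) (nat_lit 2) (.e (nat_lit 196656) (nat_lit 11) (.e (nat_lit 16465) (nat_lit 13) (.e (nat_lit 491264) (nat_lit 10) .nil))))) (.g (nat_lit 0) (.e (nat_lit 107529) (nat_lit 0) .nil) .nil))) 
(.lf (nat_lit 479753) (.g (nat_lit 3130) (.e (nat_lit 5750) (nat_lit 314) (.e (nat_lit 24662) (nat_lit 14) (.e (nat_lit 401459) (nat_lit 13) (.e (nat_lit 483350) (nat_lit 17) (.e (nat_lit 6097) (nat_lit 332) .nil))))) (.g (nat_lit 0) (.e (nat_lit 109614) (nat_lit 0) .nil) .nil)))) (.nd (nat_lit 9) 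
(.lf (nat_lit 479497) (.g (nat_lit 4330) (.e (nat_lit 5626) (nat_lit 312) (.e (nat_lit 2668) (nat_lit 167) (.e (nat_lit 196666) (nat_lit 13) (.e (nat_lit 65610) (nat_lit 10) (.e (nat_lit 344117) (nat_lit 21) (.e (nat_lit 516106) (nat_lit 0) (.e (nat_lit 7936) (nat_lit 377) (.e (nat_lit 2508) (nat_lit 157) .nil)))))))) (.g (nat_lit 1) (.e (nat_lit 108508) (nat_lit 0) .nil) .nil))) 
(.lf (nat_lit 480009) (.g (nat_lit 2066) (.e (nat_lit 5818) (nat_lit 320) (.e (nat_lit 1183) (nat_lit 87) (.e (nat_lit 57480) (nat_lit 28) (.e (nat_lit 557098) (nat_lit 13) (.e (nat_lit 172097) (nat_lit 9) .nil))))) (.g (nat_lit 0) (.e (nat_lit 111232) (nat_lit 0) .nil) .nil))))) (.nd (nat_lit 8) (.nd (nat_lit 9) 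
(.lf (nat_lit 479369) (.g (nat_lit 1605) (.e (nat_lit 5199) (nat_lit 294) (.e (nat_lit 57388) (nat_lit 5) (.e (nat_lit 114698) (nat_lit 11) (.e (nat_lit 426198) (nat_lit 9) (.e (nat_lit 426544) (nat_lit 30) .nil))))) (.g (nat_lit 0) (.e (nat_lit 108307) (nat_lit 0) .nil) .nil))) 
(.lf (nat_lit 479881) (.g (nat_lit 2183) (.e (nat_lit 5762) (nat_lit 315) (.e (nat_lit 163962) (nat_lit 25) (.e (nat_lit 532535) (nat_lit 9) (.e (nat_lit 336110) (nat_lit 9) .nil)))) (.g (nat_lit 0) (.e (nat_lit 110047) (nat_lit 0) .nil) .nil)))) (.nd (nat_lit 9) 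
(.lf (nat_lit 479625) (.g (nat_lit 2218) (.e (nat_lit 5664) (nat_lit 312) (.e (nat_lit 2679) (nat_lit 168) (.e (nat_lit 204885) (nat_lit 33) (.e (nat_lit 401448) (nat_lit 10) (.e (nat_lit 434234) (nat_lit 23) .nil))))) (.g (nat_lit 0) (.e (nat_lit 108888) (nat_lit 0) .nil) .nil))) 
(.lf (nat_lit 480137) (.g (nat_lit 2491) (.e (nat_lit 5933) (nat_lit 322) (.e (nat_lit 57375) (nat_lit 2) (.e (nat_lit 90174) (nat_lit 14) (.e (nat_lit 180250) (nat_lit 10) (.e (nat_lit 573487) (nat_lit 14) .nil))))) (.g (nat_lit 0) (.e (nat_lit 111463) (nat_lit 0) .nil) .nil)))))) (.nd (nat_lit 7) (.nd (nat_lit 8) (.nd (nat_lit 9) 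
(.lf (nat_lit 479305) (.g (nat_lit 1074) (.e (nat_lit 5229) (nat_lit 296) (.e (nat_lit 163923) (nat_lit 15) (.e (nat_lit 450597) (nat_lit 17) (.e (nat_lit 663579) (nat_lit 9) .nil)))) (.g (nat_lit 0) (.e (nat_lit 107983) (nat_lit 0) .nil) .nil))) 
(.lf (nat_lit 479817) (.g (nat_lit 2734) (.e (nat_lit 5756) (nat_lit 315) (.e (nat_lit 163962) (nat_lit 25) (.e (nat_lit 532549) (nat_lit 12) (.e (nat_lit 360466) (nat_lit 3) (.e (nat_lit 516142) (nat_lit 8) (.e (nat_lit 417816) (nat_lit 10) .nil)))))) (.g (nat_lit 1) (.e (nat_lit 109832) (nat_lit 0) .nil) .nil)))) (.nd (nat_lit 9) 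
(.lf (nat_lit 479561) (.g (nat_lit 4374) (.e (nat_lit 5627) (nat_lit 312) (.e (nat_lit 2668) (nat_lit 167) (.e (nat_lit 196666) (nat_lit 13) (.e (nat_lit 65610) (nat_lit 10) (.e (nat_lit 344117) (nat_lit 21) (.e (nat_lit 516106) (nat_lit 0) (.e (nat_lit 7038) (nat_lit 377) (.e (nat_lit 2443) (nat_lit 157) .nil)))))))) (.g (nat_lit 1) (.e (nat_lit 108699) (nat_lit 0) .nil) .nil))) 
(.lf (nat_lit 480073) (.g (nat_lit 767) (.e (nat_lit 5906) (nat_lit 320) (.e (nat_lit 1211) (nat_lit 89) (.e (nat_lit 73782) (nat_lit 32) (.e (nat_lit 2854) (nat_lit 184) .nil)))) (.g (nat_lit 0) (.e (nat_lit 111321) (nat_lit 0) .nil) .nil))))) (.nd (nat_lit 8) (.nd (nat_lit 9) 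
(.lf (nat_lit 479433) (.g (nat_lit 2712) (.e (nat_lit 5616) (nat_lit 312) (.e (nat_lit 2668) (nat_lit 167) (.e (nat_lit 196666) (nat_lit 13) (.e (nat_lit 65610) (nat_lit 10) (.e (nat_lit 344117) (nat_lit 21) (.e (nat_lit 516106) (nat_lit 0) (.e (nat_lit 7008) (nat_lit 377) (.e (nat_lit 2428) (nat_lit 157) .nil)))))))) (.g (nat_lit 1) (.e (nat_lit 108420) (nat_lit 0) .nil) .nil))) 
(.lf (nat_lit 479945) (.g (nat_lit 1136) (.e (nat_lit 5771) (nat_lit 316) (.e (nat_lit 172150) (nat_lit 27) (.e (nat_lit 335894) (nat_lit 0) (.e (nat_lit 6718) (nat_lit 361) .nil)))) (.g (nat_lit 0) (.e (nat_lit 110273) (nat_lit 0) .nil) .nil)))) (.nd (nat_lit 9) 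
(.lf (nat_lit 479689) (.g (nat_lit 3093) (.e (nat_lit 5689) (nat_lit 312) (.e (nat_lit 2664) (nat_lit 167) (.e (nat_lit 196666) (nat_lit 13) (.e (nat_lit 65610) (nat_lit 10) (.e (nat_lit 344117) (nat_lit 21) (.e (nat_lit 516106) (nat_lit 0) (.e (nat_lit 6986) (nat_lit 377) (.e (nat_lit 2403) (nat_lit 157) .nil)))))))) (.g (nat_lit 1) (.e (nat_lit 109146) (nat_lit 0) .nil) .nil))) 
(.lf (nat_lit 480201) (.g (nat_lit 1607) (.e (nat_lit 5934) (nat_lit 322) (.e (nat_lit 57375) (nat_lit 2) (.e (nat_lit 90174) (nat_lit 14) (.e (nat_lit 180243) (nat_lit 5) (.e (nat_lit 532515) (nat_lit 3) .nil))))) (.g (nat_lit 0) (.e (nat_lit 111527) (nat_lit 0) .nil) .nil))))))) (.nd (nat_lit 6) (.nd (nat_lit 7) (.nd (nat_lit 8) (.nd (nat_lit 9) 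
(.lf (nat_lit 479273) (.g (nat_lit 2206) (.e (nat_lit 5224) (nat_lit 296) (.e (nat_lit 163903) (nat_lit 12) (.e (nat_lit 426566) (nat_lit 34) (.e (nat_lit 393268) (nat_lit 23) (.e (nat_lit 426428) (nat_lit 17) (.e (nat_lit 90164) (nat_lit 12) (.e (nat_lit 163850) (nat_lit 0) .nil))))))) (.g (nat_lit 1) (.e (nat_lit 107806) (nat_lit 0) .nil) .nil))) 
(.lf (nat_lit 479785) (.g (nat_lit 1968) (.e (nat_lit 7936) (nat_lit 314) (.e (nat_lit 24662) (nat_lit 14) (.e (nat_lit 401459) (nat_lit 13) (.e (nat_lit 483374) (nat_lit 22) (.e (nat_lit 327702) (nat_lit 10) .nil))))) (.g (nat_lit 0) (.e (nat_lit 109729) (nat_lit 0) .nil) .nil)))) (.nd (nat_lit 9) 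
(.lf (nat_lit 479529) (.g (nat_lit 2005) (.e (nat_lit 5626) (nat_lit 312) (.e (nat_lit 2685) (nat_lit 168) (.e (nat_lit 204869) (nat_lit 29) (.e (nat_lit 360473) (nat_lit 8) (.e (nat_lit 557068) (nat_lit 9) .nil))))) (.g (nat_lit 0) (.e (nat_lit 108651) (nat_lit 0) .nil) .nil))) 
(.lf (nat_lit 480041) (.g (nat_lit 534) (.e (nat_lit 5902) (nat_lit 320) (.e (nat_lit 1220) (nat_lit 90) (.e (nat_lit 81924) (nat_lit 0) .nil))) (.g (nat_lit 0) (.e (nat_lit 111285) (nat_lit 0) .nil) .nil))))) (.nd (nat_lit 8) (.nd (nat_lit 9) 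
(.lf (nat_lit 479401) (.g (nat_lit 2918) (.e (nat_lit 5612) (nat_lit 312) (.e (nat_lit 2668) (nat_lit 167) (.e (nat_lit 196666) (nat_lit 13) (.e (nat_lit 65610) (nat_lit 10) (.e (nat_lit 344117) (nat_lit 21) (.e (nat_lit 516106) (nat_lit 0) (.e (nat_lit 6986) (nat_lit 377) (.e (nat_lit 2513) (nat_lit 157) .nil)))))))) (.g (nat_lit 1) (.e (nat_lit 108353) (nat_lit 0) .nil) .nil))) 
(.lf (nat_lit 479913) (.g (nat_lit 2010) (.e (nat_lit 7936) (nat_lit 315) (.e (nat_lit 163962) (nat_lit 25) (.e (nat_lit 532535) (nat_lit 9) (.e (nat_lit 336110) (nat_lit 9) .nil)))) (.g (nat_lit 0) (.e (nat_lit 110117) (nat_lit 0) .nil) .nil)))) (.nd (nat_lit 9) 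
(.lf (nat_lit 479657) (.g (nat_lit 2610) (.e (nat_lit 5664) (nat_lit 312) (.e (nat_lit 3085) (nat_lit 191) (.e (nat_lit 483377) (nat_lit 22) (.e (nat_lit 327708) (nat_lit 10) (.e (nat_lit 5626) (nat_lit 312) (.e (nat_lit 214) (nat_lit 19) (.e (nat_lit 319492) (nat_lit 0) .nil))))))) (.g (nat_lit 1) (.e (nat_lit 108970) (nat_lit 0) .nil) .nil))) 
(.lf (nat_lit 480169) (.g (nat_lit 3648) (.e (nat_lit 5934) (nat_lit 322) (.e (nat_lit 57371) (nat_lit 2) (.e (nat_lit 90174) (nat_lit 14) (.e (nat_lit 180252) (nat_lit 10) (.e (nat_lit 573489) (nat_lit 14) (.e (nat_lit 73755) (nat_lit 8) (.e (nat_lit 557090) (nat_lit 12) (.e (nat_lit 163847) (nat_lit 0) .nil)))))))) (.g (nat_lit 1) (.e (nat_lit 111495) (nat_lit 0) .nil) .nil)))))) 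
(.nd (nat_lit 7) (.nd (nat_lit 8) (.nd (nat_lit 9) 
(.lf (nat_lit 479337) (.g (nat_lit 1085) (.e (nat_lit 5194) (nat_lit 294) (.e (nat_lit 57388) (nat_lit 5) (.e (nat_lit 114698) (nat_lit 11) (.e (nat_lit 426197) (nat_lit 9) .nil)))) (.g (nat_lit 0) (.e (nat_lit 108202) (nat_lit 0) .nil) .nil))) 
(.lf (nat_lit 479849) (.g (nat_lit 2766) (.e (nat_lit 5761) (nat_lit 315) (.e (nat_lit 163962) (nat_lit 25) (.e (nat_lit 532535) (nat_lit 9) (.e (nat_lit 336099) (nat_lit 9) (.e (nat_lit 336028) (nat_lit 3) .nil))))) (.g (nat_lit 0) (.e (nat_lit 109944) (nat_lit 0) .nil) .nil)))) (.nd (nat_lit 9) 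
(.lf (nat_lit 479593) (.g (nat_lit 3970) (.e (nat_lit 5664) (nat_lit 312) (.e (nat_lit 2661) (nat_lit 167) (.e (nat_lit 196666) (nat_lit 13) (.e (nat_lit 65610) (nat_lit 10) (.e (nat_lit 344117) (nat_lit 21) (.e (nat_lit 516139) (nat_lit 7) (.e (nat_lit 417536) (nat_lit 10) .nil))))))) (.g (nat_lit 1) (.e (nat_lit 108846) (nat_lit 0) .nil) .nil))) 
(.lf (nat_lit 480105) (.g (nat_lit 1996) (.e (nat_lit 5968) (nat_lit 324) (.e (nat_lit 163871) (nat_lit 2) (.e (nat_lit 196665) (nat_lit 13) (.e (nat_lit 65637) (nat_lit 15) (.e (nat_lit 3748) (nat_lit 228) (.e (nat_lit 786473) (nat_lit 27) (.e (nat_lit 336420) (nat_lit 28) (.e (nat_lit 434199) (nat_lit 18) .nil)))))))) (.g (nat_lit 1) (.e (nat_lit 111407) (nat_lit 0) .nil) .nil))))) 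
(.nd (nat_lit 8) (.nd (nat_lit 9) 
(.lf (nat_lit 479465) (.g (nat_lit 5053) (.e (nat_lit 5626) (nat_lit 312) (.e (nat_lit 2668) (nat_lit 167) (.e (nat_lit 196666) (nat_lit 13) (.e (nat_lit 65610) (nat_lit 10) (.e (nat_lit 344117) (nat_lit 21) (.e (nat_lit 516099) (nat_lit 0) (.e (nat_lit 7060) (nat_lit 377) (.e (nat_lit 2509) (nat_lit 157) .nil)))))))) (.g (nat_lit 1) (.e (nat_lit 108476) (nat_lit 0) .nil) .nil))) 
(.lf (nat_lit 479977) (.g (nat_lit 3184) (.e (nat_lit 5779) (nat_lit 317) (.e (nat_lit 180243) (nat_lit 5) (.e (nat_lit 532569) (nat_lit 16) (.e (nat_lit 401448) (nat_lit 10) (.e (nat_lit 434227) (nat_lit 20) (.e (nat_lit 507929) (nat_lit 10) .nil)))))) (.g (nat_lit 1) (.e (nat_lit 110939) (nat_lit 0) .nil) .nil)))) (.nd (nat_lit 9) 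
(.lf (nat_lit 479721) (.g (nat_lit 1727) (.e (nat_lit 7936) (nat_lit 312) (.e (nat_lit 2668) (nat_lit 167) (.e (nat_lit 196666) (nat_lit 13) (.e (nat_lit 65589) (nat_lit 9) .nil)))) (.g (nat_lit 0) (.e (nat_lit 109524) (nat_lit 0) .nil) .nil))) 
(.lf (nat_lit 480233) (.g (nat_lit 2785) (.e (nat_lit 5935) (nat_lit 322) (.e (nat_lit 57371) (nat_lit 2) (.e (nat_lit 90174) (nat_lit 14) (.e (nat_lit 180252) (nat_lit 10) (.e (nat_lit 573489) (nat_lit 14) (.e (nat_lit 73755) (nat_lit 8) (.e (nat_lit 557090) (nat_lit 12) (.e (nat_lit 163840) (nat_lit 0) .nil)))))))) (.g (nat_lit 1) (.e (nat_lit 111559) (nat_lit 0) .nil) .nil)))))))) 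
(.nd (nat_lit 5) (.nd (nat_lit 6) (.nd (nat_lit 7) (.nd (nat_lit 8) (.nd (nat_lit 9) 
(.lf (nat_lit 479257) (.g (nat_lit 1469) (.e (nat_lit 5224) (nat_lit 296) (.e (nat_lit 163877) (nat_lit 4) (.e (nat_lit 213032) (nat_lit 11) (.e (nat_lit 24660) (nat_lit 13) (.e (nat_lit 393287) (nat_lit 25) (.e (nat_lit 458774) (nat_lit 18) .nil)))))) (.g (nat_lit 1) (.e (nat_lit 107779) (nat_lit 0) .nil) .nil))) 
(.lf (nat_lit 479769) (.g (nat_lit 1404) (.e (nat_lit 5751) (nat_lit 314) (.e (nat_lit 24665) (nat_lit 14) (.e (nat_lit 401444) (nat_lit 9) .nil))) (.g (nat_lit 0) (.e (nat_lit 109695) (nat_lit 0) .nil) .nil)))) (.nd (nat_lit 9) 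
(.lf (nat_lit 479513) (.g (nat_lit 4232) (.e (nat_lit 5626) (nat_lit 312) (.e (nat_lit 2685) (nat_lit 168) (.e (nat_lit 204846) (nat_lit 24) (.e (nat_lit 319530) (nat_lit 16) (.e (nat_lit 286735) (nat_lit 3) (.e (nat_lit 98323) (nat_lit 17) (.e (nat_lit 6989) (nat_lit 377) (.e (nat_lit 977) (nat_lit 81) .nil)))))))) (.g (nat_lit 1) (.e (nat_lit 108572) (nat_lit 0) .nil) .nil))) 
(.lf (nat_lit 480025) (.g (nat_lit 2183) (.e (nat_lit 5902) (nat_lit 320) (.e (nat_lit 1181) (nat_lit 87) (.e (nat_lit 57479) (nat_lit 28) (.e (nat_lit 557100) (nat_lit 13) (.e (nat_lit 172106) (nat_lit 10) .nil))))) (.g (nat_lit 0) (.e (nat_lit 111269) (nat_lit 0) .nil) .nil))))) (.nd (nat_lit 8) (.nd (nat_lit 9) 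
(.lf (nat_lit 479385) (.g (nat_lit 564) (.e (nat_lit 5204) (nat_lit 294) (.e (nat_lit 57427) (nat_lit 15) (.e (nat_lit 360480) (nat_lit 14) .nil))) (.g (nat_lit 0) (.e (nat_lit 108327) (nat_lit 0) .nil) .nil))) 
(.lf (nat_lit 479897) (.g (nat_lit 3172) (.e (nat_lit 5762) (nat_lit 315) (.e (nat_lit 163962) (nat_lit 25) (.e (nat_lit 532549) (nat_lit 12) (.e (nat_lit 360467) (nat_lit 3) (.e (nat_lit 516139) (nat_lit 7) (.e (nat_lit 409617) (nat_lit 10) .nil)))))) (.g (nat_lit 1) (.e (nat_lit 110086) (nat_lit 0) .nil) .nil)))) (.nd (nat_lit 9) 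
(.lf (nat_lit 479641) (.g (nat_lit 399) (.e (nat_lit 5664) (nat_lit 312) (.e (nat_lit 3085) (nat_lit 191) (.e (nat_lit 483345) (nat_lit 17) .nil))) (.g (nat_lit 0) (.e (nat_lit 108939) (nat_lit 0) .nil) .nil))) 
(.lf (nat_lit 480153) (.g (nat_lit 2266) (.e (nat_lit 5934) (nat_lit 322) (.e (nat_lit 57371) (nat_lit 2) (.e (nat_lit 90174) (nat_lit 14) (.e (nat_lit 180243) (nat_lit 5) (.e (nat_lit 532515) (nat_lit 3) (.e (nat_lit 114715) (nat_lit 22) (.e (nat_lit 90165) (nat_lit 12) (.e (nat_lit 163849) (nat_lit 0) .nil)))))))) (.g (nat_lit 1) (.e (nat_lit 111479) (nat_lit 0) .nil) .nil)))))) 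
(.nd (nat_lit 7) (.nd (nat_lit 8) (.nd (nat_lit 9) 
(.lf (nat_lit 479321) (.g (nat_lit 660) (.e (nat_lit 5243) (nat_lit 297) (.e (nat_lit 229415) (nat_lit 15) (.e (nat_lit 450563) (nat_lit 0) .nil))) (.g (nat_lit 0) (.e (nat_lit 108134) (nat_lit 0) .nil) .nil))) 
(.lf (nat_lit 479833) (.g (nat_lit 2070) (.e (nat_lit 5758) (nat_lit 315) (.e (nat_lit 163962) (nat_lit 25) (.e (nat_lit 532550) (nat_lit 12) (.e (nat_lit 360475) (nat_lit 8) (.e (nat_lit 557068) (nat_lit 9) .nil))))) (.g (nat_lit 0) (.e (nat_lit 109871) (nat_lit 0) .nil) .nil)))) (.nd (nat_lit 9) 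
(.lf (nat_lit 479577) (.g (nat_lit 447) (.e (nat_lit 5642) (nat_lit 312) (.e (nat_lit 3085) (nat_lit 191) (.e (nat_lit 483377) (nat_lit 22) .nil))) (.g (nat_lit 0) (.e (nat_lit 108785) (nat_lit 0) .nil) .nil))) 
(.lf (nat_lit 480089) (.g (nat_lit 1716) (.e (nat_lit 5909) (nat_lit 320) (.e (nat_lit 1200) (nat_lit 88) (.e (nat_lit 65630) (nat_lit 14) (.e (nat_lit 401437) (nat_lit 9) (.e (nat_lit 426544) (nat_lit 30) .nil))))) (.g (nat_lit 0) (.e (nat_lit 111350) (nat_lit 0) .nil) .nil))))) (.nd (nat_lit 8) (.nd (nat_lit 9) 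
(.lf (nat_lit 479449) (.g (nat_lit 1740) (.e (nat_lit 5629) (nat_lit 312) (.e (nat_lit 351) (nat_lit 28) (.e (nat_lit 393252) (nat_lit 18) (.e (nat_lit 164330) (nat_lit 230) (.e (nat_lit 163874) (nat_lit 3) .nil))))) (.g (nat_lit 0) (.e (nat_lit 108448) (nat_lit 0) .nil) .nil))) 
(.lf (nat_lit 479961) (.g (nat_lit 1753) (.e (nat_lit 5771) (nat_lit 316) (.e (nat_lit 172150) (nat_lit 27) (.e (nat_lit 336232) (nat_lit 14) (.e (nat_lit 401444) (nat_lit 9) (.e (nat_lit 433920) (nat_lit 25) .nil))))) (.g (nat_lit 0) (.e (nat_lit 110291) (nat_lit 0) .nil) .nil)))) (.nd (nat_lit 9) 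
(.lf (nat_lit 479705) (.g (nat_lit 2366) (.e (nat_lit 5710) (nat_lit 312) (.e (nat_lit 2664) (nat_lit 167) (.e (nat_lit 196666) (nat_lit 13) (.e (nat_lit 65610) (nat_lit 10) (.e (nat_lit 344117) (nat_lit 21) (.e (nat_lit 516106) (nat_lit 0) (.e (nat_lit 7016) (nat_lit 377) (.e (nat_lit 2416) (nat_lit 157) .nil)))))))) (.g (nat_lit 1) (.e (nat_lit 109242) (nat_lit 0) .nil) .nil))) 
(.lf (nat_lit 480217) (.g (nat_lit 2206) (.e (nat_lit 5934) (nat_lit 322) (.e (nat_lit 57377) (nat_lit 3) (.e (nat_lit 98365) (nat_lit 26) (.e (nat_lit 426188) (nat_lit 9) (.e (nat_lit 426479) (nat_lit 27) .nil))))) (.g (nat_lit 0) (.e (nat_lit 111543) (nat_lit 0) .nil) .nil))))))) (.nd (nat_lit 6) (.nd (nat_lit 7) (.nd (nat_lit 8) (.nd (nat_lit 9) 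
(.lf (nat_lit 479289) (.g (nat_lit 1812) (.e (nat_lit 5224) (nat_lit 296) (.e (nat_lit 163923) (nat_lit 15) (.e (nat_lit 450597) (nat_lit 17) (.e (nat_lit 663580) (nat_lit 9) (.e (nat_lit 7936) (nat_lit 24) .nil))))) (.g (nat_lit 0) (.e (nat_lit 107853) (nat_lit 0) .nil) .nil))) 
(.lf (nat_lit 479801) (.g (nat_lit 2054) (.e (nat_lit 5756) (nat_lit 315) (.e (nat_lit 163962) (nat_lit 25) (.e (nat_lit 532535) (nat_lit 9) (.e (nat_lit 336177) (nat_lit 10) .nil)))) (.g (nat_lit 0) (.e (nat_lit 109791) (nat_lit 0) .nil) .nil)))) (.nd (nat_lit 9) 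
(.lf (nat_lit 479545) (.g (nat_lit 5184) (.e (nat_lit 5627) (nat_lit 312) (.e (nat_lit 2668) (nat_lit 167) (.e (nat_lit 196666) (nat_lit 13) (.e (nat_lit 65610) (nat_lit 10) (.e (nat_lit 344117) (nat_lit 21) (.e (nat_lit 516097) (nat_lit 0) (.e (nat_lit 7026) (nat_lit 377) (.e (nat_lit 2444) (nat_lit 157) .nil)))))))) (.g (nat_lit 1) (.e (nat_lit 108683) (nat_lit 0) .nil) .nil))) 
(.lf (nat_lit 480057) (.g (nat_lit 1521) (.e (nat_lit 5905) (nat_lit 320) (.e (nat_lit 1211) (nat_lit 89) (.e (nat_lit 73782) (nat_lit 32) (.e (nat_lit 2856) (nat_lit 184) (.e (nat_lit 426533) (nat_lit 28) .nil))))) (.g (nat_lit 0) (.e (nat_lit 111305) (nat_lit 0) .nil) .nil))))) (.nd (nat_lit 8) (.nd (nat_lit 9) 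
(.lf (nat_lit 479417) (.g (nat_lit 3197) (.e (nat_lit 5612) (nat_lit 312) (.e (nat_lit 3062) (nat_lit 190) (.e (nat_lit 475185) (nat_lit 29) (.e (nat_lit 557100) (nat_lit 13) (.e (nat_lit 172106) (nat_lit 10) (.e (nat_lit 434227) (nat_lit 20) (.e (nat_lit 507929) (nat_lit 10) .nil))))))) (.g (nat_lit 1) (.e (nat_lit 108383) (nat_lit 0) .nil) .nil))) 
(.lf (nat_lit 479929) (.g (nat_lit 2119) (.e (nat_lit 5766) (nat_lit 316) (.e (nat_lit 172150) (nat_lit 27) (.e (nat_lit 336231) (nat_lit 14) (.e (nat_lit 401440) (nat_lit 9) (.e (nat_lit 426470) (nat_lit 25) (.e (nat_lit 319490) (nat_lit 0) .nil)))))) (.g (nat_lit 1) (.e (nat_lit 110174) (nat_lit 0) .nil) .nil)))) (.nd (nat_lit 9) 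
(.lf (nat_lit 479673) (.g (nat_lit 2307) (.e (nat_lit 5664) (nat_lit 312) (.e (nat_lit 3085) (nat_lit 191) (.e (nat_lit 483413) (nat_lit 27) (.e (nat_lit 401444) (nat_lit 9) (.e (nat_lit 433920) (nat_lit 25) .nil))))) (.g (nat_lit 0) (.e (nat_lit 109041) (nat_lit 0) .nil) .nil))) 
(.lf (nat_lit 480185) (.g (nat_lit 3024) (.e (nat_lit 5934) (nat_lit 322) (.e (nat_lit 57372) (nat_lit 2) (.e (nat_lit 90174) (nat_lit 14) (.e (nat_lit 180251) (nat_lit 10) (.e (nat_lit 573489) (nat_lit 14) (.e (nat_lit 73755) (nat_lit 8) (.e (nat_lit 557091) (nat_lit 12) (.e (nat_lit 163841) (nat_lit 0) .nil)))))))) (.g (nat_lit 1) (.e (nat_lit 111511) (nat_lit 0) .nil) .nil)))))) 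
(.nd (nat_lit 7) (.nd (nat_lit 8) (.nd (nat_lit 9) 
(.lf (nat_lit 479353) (.g (nat_lit 2568) (.e (nat_lit 5195) (nat_lit 294) (.e (nat_lit 57388) (nat_lit 5) (.e (nat_lit 114698) (nat_lit 11) (.e (nat_lit 426188) (nat_lit 9) (.e (nat_lit 426544) (nat_lit 30) (.e (nat_lit 360453) (nat_lit 0) .nil)))))) (.g (nat_lit 1) (.e (nat_lit 108250) (nat_lit 0) .nil) .nil))) 
(.lf (nat_lit 479865) (.g (nat_lit 2798) (.e (nat_lit 5761) (nat_lit 315) (.e (nat_lit 163962) (nat_lit 25) (.e (nat_lit 532549) (nat_lit 12) (.e (nat_lit 360466) (nat_lit 3) (.e (nat_lit 516140) (nat_lit 8) (.e (nat_lit 417820) (nat_lit 10) .nil)))))) (.g (nat_lit 1) (.e (nat_lit 110004) (nat_lit 0) .nil) .nil)))) (.nd (nat_lit 9) 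
(.lf (nat_lit 479609) (.g (nat_lit 3053) (.e (nat_lit 5664) (nat_lit 312) (.e (nat_lit 2679) (nat_lit 168) (.e (nat_lit 204846) (nat_lit 24) (.e (nat_lit 319531) (nat_lit 16) (.e (nat_lit 286735) (nat_lit 3) (.e (nat_lit 98325) (nat_lit 17) (.e (nat_lit 6986) (nat_lit 377) (.e (nat_lit 1076) (nat_lit 81) .nil)))))))) (.g (nat_lit 1) (.e (nat_lit 108868) (nat_lit 0) .nil) .nil))) 
(.lf (nat_lit 480121) (.g (nat_lit 2261) (.e (nat_lit 5932) (nat_lit 322) (.e (nat_lit 57372) (nat_lit 2) (.e (nat_lit 90173) (nat_lit 14) (.e (nat_lit 180252) (nat_lit 10) (.e (nat_lit 573489) (nat_lit 14) .nil))))) (.g (nat_lit 0) (.e (nat_lit 111447) (nat_lit 0) .nil) .nil))))) (.nd (nat_lit 8) (.nd (nat_lit 9) 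
(.lf (nat_lit 479481) (.g (nat_lit 2521) (.e (nat_lit 5626) (nat_lit 312) (.e (nat_lit 2668) (nat_lit 167) (.e (nat_lit 196666) (nat_lit 13) (.e (nat_lit 65610) (nat_lit 10) (.e (nat_lit 344117) (nat_lit 21) (.e (nat_lit 516106) (nat_lit 0) (.e (nat_lit 6966) (nat_lit 377) (.e (nat_lit 2511) (nat_lit 157) .nil)))))))) (.g (nat_lit 1) (.e (nat_lit 108492) (nat_lit 0) .nil) .nil))) 
(.lf (nat_lit 479993) (.g (nat_lit 2154) (.e (nat_lit 5798) (nat_lit 320) (.e (nat_lit 2551) (nat_lit 159) (.e (nat_lit 24640) (nat_lit 10) (.e (nat_lit 344156) (nat_lit 36) (.e (nat_lit 638999) (nat_lit 8) .nil))))) (.g (nat_lit 0) (.e (nat_lit 111209) (nat_lit 0) .nil) .nil)))) (.nd (nat_lit 9) 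
(.lf (nat_lit 479737) (.g (nat_lit 2815) (.e (nat_lit 5747) (nat_lit 314) (.e (nat_lit 24662) (nat_lit 14) (.e (nat_lit 401459) (nat_lit 13) (.e (nat_lit 483350) (nat_lit 17) .nil)))) (.g (nat_lit 0) (.e (nat_lit 109559) (nat_lit 0) .nil) .nil))) 
(.lf (nat_lit 480249) (.g (nat_lit 2210) (.e (nat_lit 5936) (nat_lit 322) (.e (nat_lit 57379) (nat_lit 3) (.e (nat_lit 98366) (nat_lit 27) (.e (nat_lit 434231) (nat_lit 23) (.e (nat_lit 532507) (nat_lit 2) .nil))))) (.g (nat_lit 0) (.e (nat_lit 111575) (nat_lit 0) .nil) .nil)))))))))) 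
(.nd (nat_lit 3) (.nd (nat_lit 4) (.nd (nat_lit 5) (.nd (nat_lit 6) (.nd (nat_lit 7) 
(.nd (nat_lit 8) (.nd (nat_lit 9) 
(.lf (nat_lit 479237) (.g (nat_lit 1928) (.e (nat_lit 5224) (nat_lit 296) (.e (nat_lit 163871) (nat_lit 2) (.e (nat_lit 196656) (nat_lit 11) (.e (nat_lit 16463) (nat_lit 13) (.e (nat_lit 491264) (nat_lit 10) .nil))))) (.g (nat_lit 0) (.e (nat_lit 107524) (nat_lit 0) .nil) .nil))) 
(.lf (nat_lit 479749) (.g (nat_lit 4384) (.e (nat_lit 5750) (nat_lit 314) (.e (nat_lit 24661) (nat_lit 14) (.e (nat_lit 401459) (nat_lit 13) (.e (nat_lit 483372) (nat_lit 21) (.e (nat_lit 319511) (nat_lit 10) .nil))))) (.g (nat_lit 0) (.e (nat_lit 109606) (nat_lit 0) .nil) .nil)))) (.nd (nat_lit 9) 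
(.lf (nat_lit 479493) (.g (nat_lit 3920) (.e (nat_lit 5626) (nat_lit 312) (.e (nat_lit 2668) (nat_lit 167) (.e (nat_lit 196666) (nat_lit 13) (.e (nat_lit 65610) (nat_lit 10) (.e (nat_lit 344117) (nat_lit 21) (.e (nat_lit 516106) (nat_lit 0) (.e (nat_lit 7936) (nat_lit 377) (.e (nat_lit 2406) (nat_lit 157) .nil)))))))) (.g (nat_lit 1) (.e (nat_lit 108504) (nat_lit 0) .nil) .nil))) 
(.lf (nat_lit 480005) (.g (nat_lit 2133) (.e (nat_lit 5817) (nat_lit 320) (.e (nat_lit 1201) (nat_lit 88) (.e (nat_lit 65630) (nat_lit 14) (.e (nat_lit 401437) (nat_lit 9) (.e (nat_lit 426544) (nat_lit 30) .nil))))) (.g (nat_lit 0) (.e (nat_lit 111227) (nat_lit 0) .nil) .nil))))) (.nd (nat_lit 8) (.nd (nat_lit 9) 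
(.lf (nat_lit 479365) (.g (nat_lit 1774) (.e (nat_lit 5195) (nat_lit 294) (.e (nat_lit 57428) (nat_lit 15) (.e (nat_lit 360480) (nat_lit 14) (.e (nat_lit 638986) (nat_lit 5) (.e (nat_lit 3015) (nat_lit 187) (.e (nat_lit 458496) (nat_lit 0) .nil)))))) (.g (nat_lit 1) (.e (nat_lit 108293) (nat_lit 0) .nil) .nil))) 
(.lf (nat_lit 479877) (.g (nat_lit 3914) (.e (nat_lit 5762) (nat_lit 315) (.e (nat_lit 163962) (nat_lit 25) (.e (nat_lit 532535) (nat_lit 9) (.e (nat_lit 336073) (nat_lit 9) (.e (nat_lit 336028) (nat_lit 3) (.e (nat_lit 98350) (nat_lit 24) (.e (nat_lit 409616) (nat_lit 10) .nil))))))) (.g (nat_lit 1) (.e (nat_lit 110037) (nat_lit 0) .nil) .nil)))) (.nd (nat_lit 9) 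
(.lf (nat_lit 479621) (.g (nat_lit 3638) (.e (nat_lit 5664) (nat_lit 312) (.e (nat_lit 2679) (nat_lit 168) (.e (nat_lit 204868) (nat_lit 29) (.e (nat_lit 360467) (nat_lit 3) (.e (nat_lit 516139) (nat_lit 7) (.e (nat_lit 409623) (nat_lit 10) .nil)))))) (.g (nat_lit 1) (.e (nat_lit 108882) (nat_lit 0) .nil) .nil))) 
(.lf (nat_lit 480133) (.g (nat_lit 3446) (.e (nat_lit 5933) (nat_lit 322) (.e (nat_lit 57375) (nat_lit 2) (.e (nat_lit 90172) (nat_lit 14) (.e (nat_lit 180250) (nat_lit 10) (.e (nat_lit 573487) (nat_lit 14) (.e (nat_lit 73753) (nat_lit 8) (.e (nat_lit 557090) (nat_lit 12) (.e (nat_lit 163841) (nat_lit 0) .nil)))))))) (.g (nat_lit 1) (.e (nat_lit 111459) (nat_lit 0) .nil) .nil)))))) 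
(.nd (nat_lit 7) (.nd (nat_lit 8) (.nd (nat_lit 9) 
(.lf (nat_lit 479301) (.g (nat_lit 1999) (.e (nat_lit 5229) (nat_lit 296) (.e (nat_lit 163920) (nat_lit 14) (.e (nat_lit 442430) (nat_lit 24) (.e (nat_lit 229638) (nat_lit 228) .nil)))) (.g (nat_lit 0) (.e (nat_lit 107979) (nat_lit 0) .nil) .nil))) 
(.lf (nat_lit 479813) (.g (nat_lit 2431) (.e (nat_lit 5756) (nat_lit 315) (.e (nat_lit 163962) (nat_lit 25) (.e (nat_lit 532549) (nat_lit 12) (.e (nat_lit 360466) (nat_lit 3) (.e (nat_lit 516141) (nat_lit 8) (.e (nat_lit 417816) (nat_lit 10) .nil)))))) (.g (nat_lit 1) (.e (nat_lit 109828) (nat_lit 0) .nil) .nil)))) (.nd (nat_lit 9) 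
(.lf (nat_lit 479557) (.g (nat_lit 1900) (.e (nat_lit 5627) (nat_lit 312) (.e (nat_lit 2668) (nat_lit 167) (.e (nat_lit 196666) (nat_lit 13) (.e (nat_lit 65610) (nat_lit 10) (.e (nat_lit 344117) (nat_lit 21) (.e (nat_lit 516106) (nat_lit 0) (.e (nat_lit 7016) (nat_lit 377) (.e (nat_lit 2416) (nat_lit 157) .nil)))))))) (.g (nat_lit 1) (.e (nat_lit 108695) (nat_lit 0) .nil) .nil))) 
(.lf (nat_lit 480069) (.g (nat_lit 2448) (.e (nat_lit 5906) (nat_lit 320) (.e (nat_lit 1209) (nat_lit 89) (.e (nat_lit 73781) (nat_lit 32) (.e (nat_lit 3090) (nat_lit 191) (.e (nat_lit 483396) (nat_lit 24) (.e (nat_lit 344100) (nat_lit 18) .nil)))))) (.g (nat_lit 1) (.e (nat_lit 111317) (nat_lit 0) .nil) .nil))))) (.nd (nat_lit 8) (.nd (nat_lit 9) 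
(.lf (nat_lit 479429) (.g (nat_lit 2753) (.e (nat_lit 5616) (nat_lit 312) (.e (nat_lit 2668) (nat_lit 167) (.e (nat_lit 196666) (nat_lit 13) (.e (nat_lit 65592) (nat_lit 9) .nil)))) (.g (nat_lit 0) (.e (nat_lit 108416) (nat_lit 0) .nil) .nil))) 
(.lf (nat_lit 479941) (.g (nat_lit 939) (.e (nat_lit 5771) (nat_lit 316) (.e (nat_lit 172144) (nat_lit 26) (.e (nat_lit 327684) (nat_lit 0) (.e (nat_lit 5772) (nat_lit 316) (.e (nat_lit 172143) (nat_lit 25) (.e (nat_lit 319493) (nat_lit 0) .nil)))))) (.g (nat_lit 1) (.e (nat_lit 110269) (nat_lit 0) .nil) .nil)))) (.nd (nat_lit 9) 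
(.lf (nat_lit 479685) (.g (nat_lit 743) (.e (nat_lit 5672) (nat_lit 312) (.e (nat_lit 357) (nat_lit 29) (.e (nat_lit 401460) (nat_lit 14) (.e (nat_lit 491571) (nat_lit 13) .nil)))) (.g (nat_lit 0) (.e (nat_lit 109120) (nat_lit 0) .nil) .nil))) 
(.lf (nat_lit 480197) (.g (nat_lit 1957) (.e (nat_lit 5934) (nat_lit 322) (.e (nat_lit 57375) (nat_lit 2) (.e (nat_lit 90174) (nat_lit 14) (.e (nat_lit 180243) (nat_lit 5) (.e (nat_lit 532513) (nat_lit 3) (.e (nat_lit 114714) (nat_lit 22) (.e (nat_lit 90165) (nat_lit 12) (.e (nat_lit 163856) (nat_lit 0) .nil)))))))) (.g (nat_lit 1) (.e (nat_lit 111523) (nat_lit 0) .nil) .nil))))))) 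
(.nd (nat_lit 6) (.nd (nat_lit 7) (.nd (nat_lit 8) (.nd (nat_lit 9) 
(.lf (nat_lit 479269) (.g (nat_lit 2452) (.e (nat_lit 5224) (nat_lit 296) (.e (nat_lit 163903) (nat_lit 12) (.e (nat_lit 426479) (nat_lit 27) (.e (nat_lit 336432) (nat_lit 30) (.e (nat_lit 450586) (nat_lit 10) (.e (nat_lit 573475) (nat_lit 12) (.e (nat_lit 65280) (nat_lit 0) .nil))))))) (.g (nat_lit 1) (.e (nat_lit 107801) (nat_lit 0) .nil) .nil))) 
(.lf (nat_lit 479781) (.g (nat_lit 1100) (.e (nat_lit 7936) (nat_lit 314) (.e (nat_lit 24662) (nat_lit 14) (.e (nat_lit 401459) (nat_lit 13) (.e (nat_lit 483371) (nat_lit 21) .nil)))) (.g (nat_lit 0) (.e (nat_lit 109725) (nat_lit 0) .nil) .nil)))) (.nd (nat_lit 9) 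
(.lf (nat_lit 479525) (.g (nat_lit 3856) (.e (nat_lit 5626) (nat_lit 312) (.e (nat_lit 2685) (nat_lit 168) (.e (nat_lit 204868) (nat_lit 29) (.e (nat_lit 360475) (nat_lit 8) (.e (nat_lit 557068) (nat_lit 9) (.e (nat_lit 214) (nat_lit 19) (.e (nat_lit 319491) (nat_lit 0) .nil))))))) (.g (nat_lit 1) (.e (nat_lit 108644) (nat_lit 0) .nil) .nil))) 
(.lf (nat_lit 480037) (.g (nat_lit 1308) (.e (nat_lit 5902) (nat_lit 320) (.e (nat_lit 1211) (nat_lit 89) (.e (nat_lit 73781) (nat_lit 32) (.e (nat_lit 2856) (nat_lit 184) (.e (nat_lit 426544) (nat_lit 30) .nil))))) (.g (nat_lit 0) (.e (nat_lit 111281) (nat_lit 0) .nil) .nil))))) (.nd (nat_lit 8) (.nd (nat_lit 9) 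
(.lf (nat_lit 479397) (.g (nat_lit 2965) (.e (nat_lit 5612) (nat_lit 312) (.e (nat_lit 2668) (nat_lit 167) (.e (nat_lit 196666) (nat_lit 13) (.e (nat_lit 65610) (nat_lit 10) (.e (nat_lit 344117) (nat_lit 21) (.e (nat_lit 516102) (nat_lit 0) (.e (nat_lit 6989) (nat_lit 377) (.e (nat_lit 2404) (nat_lit 157) .nil)))))))) (.g (nat_lit 1) (.e (nat_lit 108349) (nat_lit 0) .nil) .nil))) 
(.lf (nat_lit 479909) (.g (nat_lit 3252) (.e (nat_lit 5763) (nat_lit 315) (.e (nat_lit 163962) (nat_lit 25) (.e (nat_lit 532551) (nat_lit 12) (.e (nat_lit 360467) (nat_lit 3) (.e (nat_lit 516139) (nat_lit 7) (.e (nat_lit 409616) (nat_lit 10) .nil)))))) (.g (nat_lit 1) (.e (nat_lit 110110) (nat_lit 0) .nil) .nil)))) (.nd (nat_lit 9) 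
(.lf (nat_lit 479653) (.g (nat_lit 509) (.e (nat_lit 5664) (nat_lit 312) (.e (nat_lit 3085) (nat_lit 191) (.e (nat_lit 483375) (nat_lit 22) .nil))) (.g (nat_lit 0) (.e (nat_lit 108966) (nat_lit 0) .nil) .nil))) 
(.lf (nat_lit 480165) (.g (nat_lit 5407) (.e (nat_lit 5934) (nat_lit 322) (.e (nat_lit 57371) (nat_lit 2) (.e (nat_lit 90174) (nat_lit 14) (.e (nat_lit 180251) (nat_lit 10) (.e (nat_lit 573489) (nat_lit 14) (.e (nat_lit 73755) (nat_lit 8) (.e (nat_lit 557090) (nat_lit 12) (.e (nat_lit 163844) (nat_lit 0) .nil)))))))) (.g (nat_lit 1) (.e (nat_lit 111491) (nat_lit 0) .nil) .nil)))))) 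
(.nd (nat_lit 7) (.nd (nat_lit 8) (.nd (nat_lit 9) 
(.lf (nat_lit 479333) (.g (nat_lit 1118) (.e (nat_lit 5193) (nat_lit 294) (.e (nat_lit 57407) (nat_lit 12) (.e (nat_lit 336367) (nat_lit 27) (.e (nat_lit 426546) (nat_lit 30) (.e (nat_lit 360473) (nat_lit 8) .nil))))) (.g (nat_lit 0) (.e (nat_lit 108162) (nat_lit 0) .nil) .nil))) 
(.lf (nat_lit 479845) (.g (nat_lit 2448) (.e (nat_lit 5761) (nat_lit 315) (.e (nat_lit 163962) (nat_lit 25) (.e (nat_lit 532535) (nat_lit 9) (.e (nat_lit 336061) (nat_lit 7) (.e (nat_lit 319518) (nat_lit 12) .nil))))) (.g (nat_lit 0) (.e (nat_lit 109933) (nat_lit 0) .nil) .nil)))) (.nd (nat_lit 9) 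
(.lf (nat_lit 479589) (.g (nat_lit 2009) (.e (nat_lit 5664) (nat_lit 312) (.e (nat_lit 2661) (nat_lit 167) (.e (nat_lit 196666) (nat_lit 13) (.e (nat_lit 65610) (nat_lit 10) (.e (nat_lit 344117) (nat_lit 21) (.e (nat_lit 516106) (nat_lit 0) (.e (nat_lit 6986) (nat_lit 377) (.e (nat_lit 2408) (nat_lit 157) .nil)))))))) (.g (nat_lit 1) (.e (nat_lit 108842) (nat_lit 0) .nil) .nil))) 
(.lf (nat_lit 480101) (.g (nat_lit 404) (.e (nat_lit 5968) (nat_lit 324) (.e (nat_lit 163868) (nat_lit 2) (.e (nat_lit 196668) (nat_lit 14) .nil))) (.g (nat_lit 0) (.e (nat_lit 111393) (nat_lit 0) .nil) .nil))))) (.nd (nat_lit 8) (.nd (nat_lit 9) 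
(.lf (nat_lit 479461) (.g (nat_lit 3609) (.e (nat_lit 5626) (nat_lit 312) (.e (nat_lit 2668) (nat_lit 167) (.e (nat_lit 196666) (nat_lit 13) (.e (nat_lit 65610) (nat_lit 10) (.e (nat_lit 344117) (nat_lit 21) (.e (nat_lit 516098) (nat_lit 0) (.e (nat_lit 6961) (nat_lit 377) (.e (nat_lit 2510) (nat_lit 157) .nil)))))))) (.g (nat_lit 1) (.e (nat_lit 108472) (nat_lit 0) .nil) .nil))) 
(.lf (nat_lit 479973) (.g (nat_lit 2632) (.e (nat_lit 5777) (nat_lit 317) (.e (nat_lit 180244) (nat_lit 5) (.e (nat_lit 532569) (nat_lit 16) (.e (nat_lit 401448) (nat_lit 10) (.e (nat_lit 434226) (nat_lit 20) (.e (nat_lit 507929) (nat_lit 10) .nil)))))) (.g (nat_lit 1) (.e (nat_lit 110605) (nat_lit 0) .nil) .nil)))) (.nd (nat_lit 9) 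
(.lf (nat_lit 479717) (.g (nat_lit 1784) (.e (nat_lit 5726) (nat_lit 312) (.e (nat_lit 2664) (nat_lit 167) (.e (nat_lit 196672) (nat_lit 15) (.e (nat_lit 81954) (nat_lit 23) (.e (nat_lit 98352) (nat_lit 25) .nil))))) (.g (nat_lit 0) (.e (nat_lit 109456) (nat_lit 0) .nil) .nil))) 
(.lf (nat_lit 480229) (.g (nat_lit 808) (.e (nat_lit 5934) (nat_lit 322) (.e (nat_lit 57437) (nat_lit 17) (.e (nat_lit 376835) (nat_lit 0) .nil))) (.g (nat_lit 0) (.e (nat_lit 111555) (nat_lit 0) .nil) .nil)))))))) (.nd (nat_lit 5) (.nd (nat_lit 6) (.nd (nat_lit 7) (.nd (nat_lit 8) (.nd (nat_lit 9) 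
(.lf (nat_lit 479253) (.g (nat_lit 1891) (.e (nat_lit 5224) (nat_lit 296) (.e (nat_lit 163877) (nat_lit 4) (.e (nat_lit 213032) (nat_lit 11) (.e (nat_lit 24629) (nat_lit 9) (.e (nat_lit 336432) (nat_lit 30) (.e (nat_lit 450565) (nat_lit 0) .nil)))))) (.g (nat_lit 1) (.e (nat_lit 107774) (nat_lit 0) .nil) .nil))) 
(.lf (nat_lit 479765) (.g (nat_lit 2235) (.e (nat_lit 5751) (nat_lit 314) (.e (nat_lit 24662) (nat_lit 14) (.e (nat_lit 401438) (nat_lit 9) (.e (nat_lit 426533) (nat_lit 28) .nil)))) (.g (nat_lit 0) (.e (nat_lit 109687) (nat_lit 0) .nil) .nil)))) (.nd (nat_lit 9) 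
(.lf (nat_lit 479509) (.g (nat_lit 2659) (.e (nat_lit 5626) (nat_lit 312) (.e (nat_lit 2668) (nat_lit 167) (.e (nat_lit 196666) (nat_lit 13) (.e (nat_lit 65630) (nat_lit 14) (.e (nat_lit 401428) (nat_lit 3) .nil))))) (.g (nat_lit 0) (.e (nat_lit 108561) (nat_lit 0) .nil) .nil))) 
(.lf (nat_lit 480021) (.g (nat_lit 1157) (.e (nat_lit 5861) (nat_lit 320) (.e (nat_lit 1209) (nat_lit 89) (.e (nat_lit 73782) (nat_lit 32) (.e (nat_lit 3089) (nat_lit 191) .nil)))) (.g (nat_lit 0) (.e (nat_lit 111260) (nat_lit 0) .nil) .nil))))) (.nd (nat_lit 8) (.nd (nat_lit 9) 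
(.lf (nat_lit 479381) (.g (nat_lit 664) (.e (nat_lit 5201) (nat_lit 294) (.e (nat_lit 57427) (nat_lit 15) (.e (nat_lit 360480) (nat_lit 14) .nil))) (.g (nat_lit 0) (.e (nat_lit 108323) (nat_lit 0) .nil) .nil))) 
(.lf (nat_lit 479893) (.g (nat_lit 4383) (.e (nat_lit 5762) (nat_lit 315) (.e (nat_lit 163962) (nat_lit 25) (.e (nat_lit 532547) (nat_lit 11) (.e (nat_lit 352315) (nat_lit 23) (.e (nat_lit 98350) (nat_lit 24) (.e (nat_lit 409616) (nat_lit 10) .nil)))))) (.g (nat_lit 1) (.e (nat_lit 110075) (nat_lit 0) .nil) .nil)))) (.nd (nat_lit 9) 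
(.lf (nat_lit 479637) (.g (nat_lit 2342) (.e (nat_lit 5664) (nat_lit 312) (.e (nat_lit 3078) (nat_lit 191) (.e (nat_lit 483413) (nat_lit 27) (.e (nat_lit 401434) (nat_lit 9) (.e (nat_lit 426470) (nat_lit 25) (.e (nat_lit 319490) (nat_lit 0) .nil)))))) (.g (nat_lit 1) (.e (nat_lit 108935) (nat_lit 0) .nil) .nil))) 
(.lf (nat_lit 480149) (.g (nat_lit 4386) (.e (nat_lit 5934) (nat_lit 322) (.e (nat_lit 57371) (nat_lit 2) (.e (nat_lit 90173) (nat_lit 14) (.e (nat_lit 180252) (nat_lit 10) (.e (nat_lit 573489) (nat_lit 14) (.e (nat_lit 73755) (nat_lit 8) (.e (nat_lit 557090) (nat_lit 12) (.e (nat_lit 163844) (nat_lit 0) .nil)))))))) (.g (nat_lit 1) (.e (nat_lit 111475) (nat_lit 0) .nil) .nil)))))) 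
(.nd (nat_lit 7) (.nd (nat_lit 8) (.nd (nat_lit 9) 
(.lf (nat_lit 479317) (.g (nat_lit 698) (.e (nat_lit 5236) (nat_lit 297) (.e (nat_lit 229415) (nat_lit 15) (.e (nat_lit 450562) (nat_lit 0) .nil))) (.g (nat_lit 0) (.e (nat_lit 108115) (nat_lit 0) .nil) .nil))) 
(.lf (nat_lit 479829) (.g (nat_lit 3418) (.e (nat_lit 5758) (nat_lit 315) (.e (nat_lit 163962) (nat_lit 25) (.e (nat_lit 532535) (nat_lit 9) (.e (nat_lit 336099) (nat_lit 9) (.e (nat_lit 336028) (nat_lit 3) .nil))))) (.g (nat_lit 0) (.e (nat_lit 109865) (nat_lit 0) .nil) .nil)))) (.nd (nat_lit 9) 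
(.lf (nat_lit 479573) (.g (nat_lit 134) (.e (nat_lit 5642) (nat_lit 312) (.e (nat_lit 2661) (nat_lit 167) (.e (nat_lit 196672) (nat_lit 15) .nil))) (.g (nat_lit 0) (.e (nat_lit 108755) (nat_lit 0) .nil) .nil))) 
(.lf (nat_lit 480085) (.g (nat_lit 1635) (.e (nat_lit 5907) (nat_lit 320) (.e (nat_lit 1211) (nat_lit 89) (.e (nat_lit 73781) (nat_lit 32) (.e (nat_lit 3090) (nat_lit 191) (.e (nat_lit 483397) (nat_lit 25) .nil))))) (.g (nat_lit 0) (.e (nat_lit 111346) (nat_lit 0) .nil) .nil))))) (.nd (nat_lit 8) (.nd (nat_lit 9) 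
(.lf (nat_lit 479445) (.g (nat_lit 1447) (.e (nat_lit 5629) (nat_lit 312) (.e (nat_lit 226) (nat_lit 21) (.e (nat_lit 336430) (nat_lit 29) (.e (nat_lit 442427) (nat_lit 23) .nil)))) (.g (nat_lit 0) (.e (nat_lit 108444) (nat_lit 0) .nil) .nil))) 
(.lf (nat_lit 479957) (.g (nat_lit 1699) (.e (nat_lit 5771) (nat_lit 316) (.e (nat_lit 172150) (nat_lit 27) (.e (nat_lit 336231) (nat_lit 14) (.e (nat_lit 401444) (nat_lit 9) (.e (nat_lit 433920) (nat_lit 25) .nil))))) (.g (nat_lit 0) (.e (nat_lit 110287) (nat_lit 0) .nil) .nil)))) (.nd (nat_lit 9) 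
(.lf (nat_lit 479701) (.g (nat_lit 3631) (.e (nat_lit 5710) (nat_lit 312) (.e (nat_lit 2663) (nat_lit 167) (.e (nat_lit 196666) (nat_lit 13) (.e (nat_lit 65610) (nat_lit 10) (.e (nat_lit 344117) (nat_lit 21) (.e (nat_lit 516098) (nat_lit 0) (.e (nat_lit 7073) (nat_lit 377) (.e (nat_lit 2416) (nat_lit 157) .nil)))))))) (.g (nat_lit 1) (.e (nat_lit 109231) (nat_lit 0) .nil) .nil))) 
(.lf (nat_lit 480213) (.g (nat_lit 2492) (.e (nat_lit 5934) (nat_lit 322) (.e (nat_lit 57375) (nat_lit 2) (.e (nat_lit 90174) (nat_lit 14) (.e (nat_lit 180251) (nat_lit 10) (.e (nat_lit 573489) (nat_lit 14) (.e (nat_lit 73755) (nat_lit 8) (.e (nat_lit 557091) (nat_lit 12) (.e (nat_lit 163844) (nat_lit 0) .nil)))))))) (.g (nat_lit 1) (.e (nat_lit 111539) (nat_lit 0) .nil) .nil))))))) 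
(.nd (nat_lit 6) (.nd (nat_lit 7) (.nd (nat_lit 8) (.nd (nat_lit 9) 
(.lf (nat_lit 479285) (.g (nat_lit 3151) (.e (nat_lit 5224) (nat_lit 296) (.e (nat_lit 163907) (nat_lit 12) (.e (nat_lit 426566) (nat_lit 34) (.e (nat_lit 393273) (nat_lit 23) (.e (nat_lit 426402) (nat_lit 15) (.e (nat_lit 1788) (nat_lit 119) (.e (nat_lit 516106) (nat_lit 0) (.e (nat_lit 2478) (nat_lit 157) .nil)))))))) (.g (nat_lit 1) (.e (nat_lit 107849) (nat_lit 0) .nil) .nil))) 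
(.lf (nat_lit 479797) (.g (nat_lit 3014) (.e (nat_lit 5756) (nat_lit 315) (.e (nat_lit 163962) (nat_lit 25) (.e (nat_lit 532535) (nat_lit 9) (.e (nat_lit 336099) (nat_lit 9) (.e (nat_lit 336028) (nat_lit 3) (.e (nat_lit 98349) (nat_lit 24) (.e (nat_lit 409617) (nat_lit 10) .nil))))))) (.g (nat_lit 1) (.e (nat_lit 109759) (nat_lit 0) .nil) .nil)))) (.nd (nat_lit 9) 
(.lf (nat_lit 479541) (.g (nat_lit 4035) (.e (nat_lit 5626) (nat_lit 312) (.e (nat_lit 2685) (nat_lit 168) (.e (nat_lit 204869) (nat_lit 29) (.e (nat_lit 360475) (nat_lit 8) (.e (nat_lit 557073) (nat_lit 9) (.e (nat_lit 214) (nat_lit 19) (.e (nat_lit 319493) (nat_lit 0) .nil))))))) (.g (nat_lit 1) (.e (nat_lit 108667) (nat_lit 0) .nil) .nil))) 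
(.lf (nat_lit 480053) (.g (nat_lit 1604) (.e (nat_lit 5905) (nat_lit 320) (.e (nat_lit 1209) (nat_lit 89) (.e (nat_lit 73781) (nat_lit 32) (.e (nat_lit 3089) (nat_lit 191) (.e (nat_lit 483396) (nat_lit 24) .nil))))) (.g (nat_lit 0) (.e (nat_lit 111300) (nat_lit 0) .nil) .nil))))) (.nd (nat_lit 8) (.nd (nat_lit 9) 
(.lf (nat_lit 479413) (.g (nat_lit 2369) (.e (nat_lit 5612) (nat_lit 312) (.e (nat_lit 2685) (nat_lit 168) (.e (nat_lit 204868) (nat_lit 29) (.e (nat_lit 360466) (nat_lit 3) (.e (nat_lit 516142) (nat_lit 8) (.e (nat_lit 417816) (nat_lit 10) .nil)))))) (.g (nat_lit 1) (.e (nat_lit 108370) (nat_lit 0) .nil) .nil))) 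
(.lf (nat_lit 479925) (.g (nat_lit 2244) (.e (nat_lit 5766) (nat_lit 316) (.e (nat_lit 172150) (nat_lit 27) (.e (nat_lit 335895) (nat_lit 0) (.e (nat_lit 6720) (nat_lit 361) (.e (nat_lit 172143) (nat_lit 25) (.e (nat_lit 319490) (nat_lit 0) .nil)))))) (.g (nat_lit 1) (.e (nat_lit 110168) (nat_lit 0) .nil) .nil)))) (.nd (nat_lit 9) 
(.lf (nat_lit 479669) (.g (nat_lit 2317) (.e (nat_lit 5664) (nat_lit 312) (.e (nat_lit 3085) (nat_lit 191) (.e (nat_lit 483413) (nat_lit 27) (.e (nat_lit 401434) (nat_lit 9) (.e (nat_lit 433920) (nat_lit 25) .nil))))) (.g (nat_lit 0) (.e (nat_lit 109023) (nat_lit 0) .nil) .nil))) 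
(.lf (nat_lit 480181) (.g (nat_lit 3182) (.e (nat_lit 5934) (nat_lit 322) (.e (nat_lit 57372) (nat_lit 2) (.e (nat_lit 90174) (nat_lit 14) (.e (nat_lit 180250) (nat_lit 10) (.e (nat_lit 573489) (nat_lit 14) (.e (nat_lit 73755) (nat_lit 8) (.e (nat_lit 557090) (nat_lit 12) (.e (nat_lit 163845) (nat_lit 0) .nil)))))))) (.g (nat_lit 1) (.e (nat_lit 111507) (nat_lit 0) .nil) .nil)))))) 
(.nd (nat_lit 7) (.nd (nat_lit 8) (.nd (nat_lit 9) 
(.lf (nat_lit 479349) (.g (nat_lit 699) (.e (nat_lit 5195) (nat_lit 294) (.e (nat_lit 57379) (nat_lit 3) (.e (nat_lit 98333) (nat_lit 18) .nil))) (.g (nat_lit 0) (.e (nat_lit 108227) (nat_lit 0) .nil) .nil))) 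
(.lf (nat_lit 479861) (.g (nat_lit 3877) (.e (nat_lit 5761) (nat_lit 315) (.e (nat_lit 163962) (nat_lit 25) (.e (nat_lit 532535) (nat_lit 9) (.e (nat_lit 336176) (nat_lit 10) (.e (nat_lit 344133) (nat_lit 26) (.e (nat_lit 557068) (nat_lit 9) (.e (nat_lit 214) (nat_lit 19) (.e (nat_lit 319492) (nat_lit 0) .nil)))))))) (.g (nat_lit 1) (.e (nat_lit 109974) (nat_lit 0) .nil) .nil)))) (.nd (nat_lit 9) 
(.lf (nat_lit 479605) (.g (nat_lit 3329) (.e (nat_lit 5664) (nat_lit 312) (.e (nat_lit 2679) (nat_lit 168) (.e (nat_lit 204845) (nat_lit 24) (.e (nat_lit 319531) (nat_lit 16) (.e (nat_lit 286735) (nat_lit 3) (.e (nat_lit 98323) (nat_lit 17) (.e (nat_lit 6989) (nat_lit 377) (.e (nat_lit 1076) (nat_lit 81) .nil)))))))) (.g (nat_lit 1) (.e (nat_lit 108861) (nat_lit 0) .nil) .nil))) 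
(.lf (nat_lit 480117) (.g (nat_lit 2631) (.e (nat_lit 5931) (nat_lit 322) (.e (nat_lit 57375) (nat_lit 2) (.e (nat_lit 90174) (nat_lit 14) (.e (nat_lit 180251) (nat_lit 10) (.e (nat_lit 573489) (nat_lit 14) .nil))))) (.g (nat_lit 0) (.e (nat_lit 111443) (nat_lit 0) .nil) .nil))))) (.nd (nat_lit 8) (.nd (nat_lit 9) 
(.lf (nat_lit 479477) (.g (nat_lit 2918) (.e (nat_lit 5626) (nat_lit 312) (.e (nat_lit 2668) (nat_lit 167) (.e (nat_lit 196666) (nat_lit 13) (.e (nat_lit 65610) (nat_lit 10) (.e (nat_lit 344117) (nat_lit 21) (.e (nat_lit 516106) (nat_lit 0) (.e (nat_lit 6966) (nat_lit 377) (.e (nat_lit 2398) (nat_lit 157) .nil)))))))) (.g (nat_lit 1) (.e (nat_lit 108488) (nat_lit 0) .nil) .nil))) 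
(.lf (nat_lit 479989) (.g (nat_lit 2614) (.e (nat_lit 5780) (nat_lit 317) (.e (nat_lit 180271) (nat_lit 26) (.e (nat_lit 704737) (nat_lit 11) (.e (nat_lit 16470) (nat_lit 14) (.e (nat_lit 499456) (nat_lit 25) .nil))))) (.g (nat_lit 0) (.e (nat_lit 111161) (nat_lit 0) .nil) .nil)))) (.nd (nat_lit 9) 
(.lf (nat_lit 479733) (.g (nat_lit 2000) (.e (nat_lit 5741) (nat_lit 313) (.e (nat_lit 8326) (nat_lit 69) (.e (nat_lit 557109) (nat_lit 15) (.e (nat_lit 188452) (nat_lit 23) (.e (nat_lit 204845) (nat_lit 24) .nil))))) (.g (nat_lit 0) (.e (nat_lit 109553) (nat_lit 0) .nil) .nil))) 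
(.lf (nat_lit 480245) (.g (nat_lit 2851) (.e (nat_lit 5936) (nat_lit 322) (.e (nat_lit 57373) (nat_lit 2) (.e (nat_lit 90174) (nat_lit 14) (.e (nat_lit 180251) (nat_lit 10) (.e (nat_lit 573489) (nat_lit 14) (.e (nat_lit 73755) (nat_lit 8) (.e (nat_lit 557091) (nat_lit 12) (.e (nat_lit 163851) (nat_lit 0) .nil)))))))) (.g (nat_lit 1) (.e (nat_lit 111571) (nat_lit 0) .nil) .nil))))))))) 
(.nd (nat_lit 4) (.nd (nat_lit 5) (.nd (nat_lit 6) (.nd (nat_lit 7) (.nd (nat_lit 8) 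
(.nd (nat_lit 9) 
(.lf (nat_lit 479245) (.g (nat_lit 2321) (.e (nat_lit 5224) (nat_lit 296) (.e (nat_lit 163871) (nat_lit 2) (.e (nat_lit 196656) (nat_lit 11) (.e (nat_lit 16466) (nat_lit 13) (.e (nat_lit 491264) (nat_lit 10) .nil))))) (.g (nat_lit 0) (.e (nat_lit 107533) (nat_lit 0) .nil) .nil))) 
(.lf (nat_lit 479757) (.g (nat_lit 2650) (.e (nat_lit 5750) (nat_lit 314) (.e (nat_lit 24662) (nat_lit 14) (.e (nat_lit 401459) (nat_lit 13) (.e (nat_lit 483375) (nat_lit 22) .nil)))) (.g (nat_lit 0) (.e (nat_lit 109618) (nat_lit 0) .nil) .nil)))) (.nd (nat_lit 9) 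
(.lf (nat_lit 479501) (.g (nat_lit 4232) (.e (nat_lit 5626) (nat_lit 312) (.e (nat_lit 2668) (nat_lit 167) (.e (nat_lit 196666) (nat_lit 13) (.e (nat_lit 65610) (nat_lit 10) (.e (nat_lit 344117) (nat_lit 21) (.e (nat_lit 516142) (nat_lit 8) (.e (nat_lit 425728) (nat_lit 10) .nil))))))) (.g (nat_lit 1) (.e (nat_lit 108512) (nat_lit 0) .nil) .nil))) 
(.lf (nat_lit 480013) (.g (nat_lit 2221) (.e (nat_lit 5818) (nat_lit 320) (.e (nat_lit 1201) (nat_lit 88) (.e (nat_lit 65630) (nat_lit 14) (.e (nat_lit 401435) (nat_lit 9) (.e (nat_lit 426544) (nat_lit 30) .nil))))) (.g (nat_lit 0) (.e (nat_lit 111237) (nat_lit 0) .nil) .nil))))) (.nd (nat_lit 8) (.nd (nat_lit 9) 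
(.lf (nat_lit 479373) (.g (nat_lit 1469) (.e (nat_lit 5200) (nat_lit 294) (.e (nat_lit 57412) (nat_lit 12) (.e (nat_lit 336173) (nat_lit 10) (.e (nat_lit 344157) (nat_lit 36) (.e (nat_lit 638986) (nat_lit 5) .nil))))) (.g (nat_lit 0) (.e (nat_lit 108312) (nat_lit 0) .nil) .nil))) 
(.lf (nat_lit 479885) (.g (nat_lit 2973) (.e (nat_lit 5762) (nat_lit 315) (.e (nat_lit 163962) (nat_lit 25) (.e (nat_lit 532535) (nat_lit 9) (.e (nat_lit 336163) (nat_lit 10) (.e (nat_lit 344117) (nat_lit 21) (.e (nat_lit 516139) (nat_lit 7) (.e (nat_lit 417536) (nat_lit 10) .nil))))))) (.g (nat_lit 1) (.e (nat_lit 110053) (nat_lit 0) .nil) .nil)))) (.nd (nat_lit 9) 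
(.lf (nat_lit 479629) (.g (nat_lit 1513) (.e (nat_lit 5664) (nat_lit 312) (.e (nat_lit 3062) (nat_lit 190) (.e (nat_lit 475198) (nat_lit 40) (.e (nat_lit 704770) (nat_lit 14) .nil)))) (.g (nat_lit 0) (.e (nat_lit 108907) (nat_lit 0) .nil) .nil))) 
(.lf (nat_lit 480141) (.g (nat_lit 2360) (.e (nat_lit 5933) (nat_lit 322) (.e (nat_lit 57379) (nat_lit 3) (.e (nat_lit 98367) (nat_lit 27) (.e (nat_lit 434247) (nat_lit 28) (.e (nat_lit 573489) (nat_lit 14) .nil))))) (.g (nat_lit 0) (.e (nat_lit 111467) (nat_lit 0) .nil) .nil)))))) (.nd (nat_lit 7) (.nd (nat_lit 8) (.nd (nat_lit 9) 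
(.lf (nat_lit 479309) (.g (nat_lit 1150) (.e (nat_lit 5231) (nat_lit 296) (.e (nat_lit 163923) (nat_lit 15) (.e (nat_lit 450597) (nat_lit 17) (.e (nat_lit 663579) (nat_lit 9) .nil)))) (.g (nat_lit 0) (.e (nat_lit 108009) (nat_lit 0) .nil) .nil))) 
(.lf (nat_lit 479821) (.g (nat_lit 1917) (.e (nat_lit 5756) (nat_lit 315) (.e (nat_lit 163962) (nat_lit 25) (.e (nat_lit 532550) (nat_lit 12) (.e (nat_lit 360475) (nat_lit 8) (.e (nat_lit 557068) (nat_lit 9) .nil))))) (.g (nat_lit 0) (.e (nat_lit 109847) (nat_lit 0) .nil) .nil)))) (.nd (nat_lit 9) 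
(.lf (nat_lit 479565) (.g (nat_lit 1519) (.e (nat_lit 5628) (nat_lit 312) (.e (nat_lit 2668) (nat_lit 167) (.e (nat_lit 196666) (nat_lit 13) (.e (nat_lit 65596) (nat_lit 9) .nil)))) (.g (nat_lit 0) (.e (nat_lit 108734) (nat_lit 0) .nil) .nil))) 
(.lf (nat_lit 480077) (.g (nat_lit 1916) (.e (nat_lit 5907) (nat_lit 320) (.e (nat_lit 1181) (nat_lit 87) (.e (nat_lit 57478) (nat_lit 28) (.e (nat_lit 557095) (nat_lit 13) (.e (nat_lit 172115) (nat_lit 10) .nil))))) (.g (nat_lit 0) (.e (nat_lit 111332) (nat_lit 0) .nil) .nil))))) (.nd (nat_lit 8) (.nd (nat_lit 9) 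
(.lf (nat_lit 479437) (.g (nat_lit 4613) (.e (nat_lit 5616) (nat_lit 312) (.e (nat_lit 2668) (nat_lit 167) (.e (nat_lit 196666) (nat_lit 13) (.e (nat_lit 65610) (nat_lit 10) (.e (nat_lit 344117) (nat_lit 21) (.e (nat_lit 516142) (nat_lit 8) (.e (nat_lit 417815) (nat_lit 10) .nil))))))) (.g (nat_lit 1) (.e (nat_lit 108424) (nat_lit 0) .nil) .nil))) 
(.lf (nat_lit 479949) (.g (nat_lit 786) (.e (nat_lit 5771) (nat_lit 316) (.e (nat_lit 172150) (nat_lit 27) (.e (nat_lit 335895) (nat_lit 0) (.e (nat_lit 6718) (nat_lit 361) (.e (nat_lit 179968) (nat_lit 25) .nil))))) (.g (nat_lit 0) (.e (nat_lit 110277) (nat_lit 0) .nil) .nil)))) (.nd (nat_lit 9) 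
(.lf (nat_lit 479693) (.g (nat_lit 4951) (.e (nat_lit 5738) (nat_lit 312) (.e (nat_lit 2663) (nat_lit 167) (.e (nat_lit 196666) (nat_lit 13) (.e (nat_lit 65610) (nat_lit 10) (.e (nat_lit 344117) (nat_lit 21) (.e (nat_lit 516106) (nat_lit 0) (.e (nat_lit 6986) (nat_lit 377) (.e (nat_lit 2397) (nat_lit 157) .nil)))))))) (.g (nat_lit 1) (.e (nat_lit 109212) (nat_lit 0) .nil) .nil))) 
(.lf (nat_lit 480205) (.g (nat_lit 2820) (.e (nat_lit 5934) (nat_lit 322) (.e (nat_lit 57375) (nat_lit 2) (.e (nat_lit 90174) (nat_lit 14) (.e (nat_lit 180243) (nat_lit 5) (.e (nat_lit 532515) (nat_lit 3) (.e (nat_lit 114716) (nat_lit 22) (.e (nat_lit 90181) (nat_lit 16) (.e (nat_lit 229377) (nat_lit 0) .nil)))))))) (.g (nat_lit 1) (.e (nat_lit 111531) (nat_lit 0) .nil) .nil))))))) 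
(.nd (nat_lit 6) (.nd (nat_lit 7) (.nd (nat_lit 8) (.nd (nat_lit 9) 
(.lf (nat_lit 479277) (.g (nat_lit 2345) (.e (nat_lit 5224) (nat_lit 296) (.e (nat_lit 163903) (nat_lit 12) (.e (nat_lit 426566) (nat_lit 34) (.e (nat_lit 393273) (nat_lit 23) (.e (nat_lit 426402) (nat_lit 15) (.e (nat_lit 1788) (nat_lit 119) (.e (nat_lit 516106) (nat_lit 0) (.e (nat_lit 2458) (nat_lit 157) .nil)))))))) (.g (nat_lit 1) (.e (nat_lit 107810) (nat_lit 0) .nil) .nil))) 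
(.lf (nat_lit 479789) (.g (nat_lit 2495) (.e (nat_lit 7936) (nat_lit 314) (.e (nat_lit 24662) (nat_lit 14) (.e (nat_lit 401459) (nat_lit 13) (.e (nat_lit 483375) (nat_lit 22) (.e (nat_lit 327702) (nat_lit 10) .nil))))) (.g (nat_lit 0) (.e (nat_lit 109733) (nat_lit 0) .nil) .nil)))) (.nd (nat_lit 9) 
(.lf (nat_lit 479533) (.g (nat_lit 3391) (.e (nat_lit 5626) (nat_lit 312) (.e (nat_lit 2685) (nat_lit 168) (.e (nat_lit 204869) (nat_lit 29) (.e (nat_lit 360474) (nat_lit 8) (.e (nat_lit 557073) (nat_lit 9) (.e (nat_lit 214) (nat_lit 19) (.e (nat_lit 319493) (nat_lit 0) .nil))))))) (.g (nat_lit 1) (.e (nat_lit 108657) (nat_lit 0) .nil) .nil))) 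
(.lf (nat_lit 480045) (.g (nat_lit 2082) (.e (nat_lit 5905) (nat_lit 320) (.e (nat_lit 1190) (nat_lit 88) (.e (nat_lit 65630) (nat_lit 14) (.e (nat_lit 401438) (nat_lit 9) (.e (nat_lit 426546) (nat_lit 30) .nil))))) (.g (nat_lit 0) (.e (nat_lit 111292) (nat_lit 0) .nil) .nil))))) (.nd (nat_lit 8) (.nd (nat_lit 9) 
(.lf (nat_lit 479405) (.g (nat_lit 2032) (.e (nat_lit 5612) (nat_lit 312) (.e (nat_lit 2668) (nat_lit 167) (.e (nat_lit 196666) (nat_lit 13) (.e (nat_lit 65610) (nat_lit 10) (.e (nat_lit 344117) (nat_lit 21) (.e (nat_lit 516106) (nat_lit 0) (.e (nat_lit 7008) (nat_lit 377) (.e (nat_lit 2458) (nat_lit 157) .nil)))))))) (.g (nat_lit 1) (.e (nat_lit 108357) (nat_lit 0) .nil) .nil))) 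
(.lf (nat_lit 479917) (.g (nat_lit 798) (.e (nat_lit 5766) (nat_lit 316) (.e (nat_lit 172150) (nat_lit 27) (.e (nat_lit 335892) (nat_lit 0) (.e (nat_lit 6720) (nat_lit 361) (.e (nat_lit 172143) (nat_lit 25) (.e (nat_lit 319491) (nat_lit 0) .nil)))))) (.g (nat_lit 1) (.e (nat_lit 110153) (nat_lit 0) .nil) .nil)))) (.nd (nat_lit 9) 
(.lf (nat_lit 479661) (.g (nat_lit 1491) (.e (nat_lit 5664) (nat_lit 312) (.e (nat_lit 3085) (nat_lit 191) (.e (nat_lit 483411) (nat_lit 27) (.e (nat_lit 401440) (nat_lit 9) .nil)))) (.g (nat_lit 0) (.e (nat_lit 108994) (nat_lit 0) .nil) .nil))) 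
(.lf (nat_lit 480173) (.g (nat_lit 3393) (.e (nat_lit 5934) (nat_lit 322) (.e (nat_lit 57372) (nat_lit 2) (.e (nat_lit 90173) (nat_lit 14) (.e (nat_lit 180252) (nat_lit 10) (.e (nat_lit 573489) (nat_lit 14) (.e (nat_lit 73755) (nat_lit 8) (.e (nat_lit 557090) (nat_lit 12) (.e (nat_lit 163843) (nat_lit 0) .nil)))))))) (.g (nat_lit 1) (.e (nat_lit 111499) (nat_lit 0) .nil) .nil)))))) 
(.nd (nat_lit 7) (.nd (nat_lit 8) (.nd (nat_lit 9) 
(.lf (nat_lit 479341) (.g (nat_lit 531) (.e (nat_lit 5194) (nat_lit 294) (.e (nat_lit 57426) (nat_lit 15) (.e (nat_lit 360480) (nat_lit 14) .nil))) (.g (nat_lit 0) (.e (nat_lit 108210) (nat_lit 0) .nil) .nil))) 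
(.lf (nat_lit 479853) (.g (nat_lit 4323) (.e (nat_lit 5761) (nat_lit 315) (.e (nat_lit 163962) (nat_lit 25) (.e (nat_lit 532535) (nat_lit 9) (.e (nat_lit 336173) (nat_lit 10) (.e (nat_lit 344126) (nat_lit 25) (.e (nat_lit 548874) (nat_lit 5) (.e (nat_lit 1396) (nat_lit 106) (.e (nat_lit 319493) (nat_lit 0) .nil)))))))) (.g (nat_lit 1) (.e (nat_lit 109962) (nat_lit 0) .nil) .nil)))) 
(.nd (nat_lit 9) 
(.lf (nat_lit 479597) (.g (nat_lit 2122) (.e (nat_lit 5664) (nat_lit 312) (.e (nat_lit 2661) (nat_lit 167) (.e (nat_lit 196672) (nat_lit 15) (.e (nat_lit 81956) (nat_lit 23) (.e (nat_lit 98353) (nat_lit 25) .nil))))) (.g (nat_lit 0) (.e (nat_lit 108850) (nat_lit 0) .nil) .nil))) 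
(.lf (nat_lit 480109) (.g (nat_lit 1151) (.e (nat_lit 5968) (nat_lit 324) (.e (nat_lit 163874) (nat_lit 3) (.e (nat_lit 204883) (nat_lit 33) .nil))) (.g (nat_lit 0) (.e (nat_lit 111416) (nat_lit 0) .nil) .nil))))) (.nd (nat_lit 8) (.nd (nat_lit 9) 
(.lf (nat_lit 479469) (.g (nat_lit 2754) (.e (nat_lit 5626) (nat_lit 312) (.e (nat_lit 2668) (nat_lit 167) (.e (nat_lit 196666) (nat_lit 13) (.e (nat_lit 65610) (nat_lit 10) (.e (nat_lit 344117) (nat_lit 21) (.e (nat_lit 516102) (nat_lit 0) (.e (nat_lit 6970) (nat_lit 377) (.e (nat_lit 7936) (nat_lit 157) .nil)))))))) (.g (nat_lit 1) (.e (nat_lit 108480) (nat_lit 0) .nil) .nil))) 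
(.lf (nat_lit 479981) (.g (nat_lit 1183) (.e (nat_lit 5779) (nat_lit 317) (.e (nat_lit 180260) (nat_lit 18) (.e (nat_lit 639020) (nat_lit 16) (.e (nat_lit 65583) (nat_lit 7) (.e (nat_lit 319526) (nat_lit 15) .nil))))) (.g (nat_lit 0) (.e (nat_lit 111044) (nat_lit 0) .nil) .nil)))) (.nd (nat_lit 9) 
(.lf (nat_lit 479725) (.g (nat_lit 2395) (.e (nat_lit 7936) (nat_lit 312) (.e (nat_lit 2668) (nat_lit 167) (.e (nat_lit 196666) (nat_lit 13) (.e (nat_lit 65599) (nat_lit 9) (.e (nat_lit 336020) (nat_lit 3) .nil))))) (.g (nat_lit 0) (.e (nat_lit 109530) (nat_lit 0) .nil) .nil))) 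
(.lf (nat_lit 480237) (.g (nat_lit 2782) (.e (nat_lit 5935) (nat_lit 322) (.e (nat_lit 57375) (nat_lit 2) (.e (nat_lit 90174) (nat_lit 14) (.e (nat_lit 180243) (nat_lit 5) (.e (nat_lit 532513) (nat_lit 3) (.e (nat_lit 114714) (nat_lit 22) (.e (nat_lit 90181) (nat_lit 16) (.e (nat_lit 229376) (nat_lit 0) .nil)))))))) (.g (nat_lit 1) (.e (nat_lit 111563) (nat_lit 0) .nil) .nil)))))))) 
(.nd (nat_lit 5) (.nd (nat_lit 6) (.nd (nat_lit 7) (.nd (nat_lit 8) (.nd (nat_lit 9) 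
(.lf (nat_lit 479261) (.g (nat_lit 2703) (.e (nat_lit 5224) (nat_lit 296) (.e (nat_lit 163882) (nat_lit 4) (.e (nat_lit 213032) (nat_lit 11) (.e (nat_lit 24659) (nat_lit 13) (.e (nat_lit 393283) (nat_lit 24) (.e (nat_lit 434209) (nat_lit 18) .nil)))))) (.g (nat_lit 1) (.e (nat_lit 107787) (nat_lit 0) .nil) .nil))) 
(.lf (nat_lit 479773) (.g (nat_lit 1696) (.e (nat_lit 7936) (nat_lit 314) (.e (nat_lit 24651) (nat_lit 12) (.e (nat_lit 385106) (nat_lit 50) (.e (nat_lit 786470) (nat_lit 27) (.e (nat_lit 336060) (nat_lit 7) .nil))))) (.g (nat_lit 0) (.e (nat_lit 109713) (nat_lit 0) .nil) .nil)))) (.nd (nat_lit 9) 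
(.lf (nat_lit 479517) (.g (nat_lit 2549) (.e (nat_lit 5626) (nat_lit 312) (.e (nat_lit 2685) (nat_lit 168) (.e (nat_lit 204846) (nat_lit 24) (.e (nat_lit 319533) (nat_lit 16) (.e (nat_lit 286734) (nat_lit 3) (.e (nat_lit 98323) (nat_lit 17) (.e (nat_lit 6989) (nat_lit 377) (.e (nat_lit 977) (nat_lit 81) .nil)))))))) (.g (nat_lit 1) (.e (nat_lit 108577) (nat_lit 0) .nil) .nil))) 
(.lf (nat_lit 480029) (.g (nat_lit 1984) (.e (nat_lit 5902) (nat_lit 320) (.e (nat_lit 1200) (nat_lit 88) (.e (nat_lit 65630) (nat_lit 14) (.e (nat_lit 401438) (nat_lit 9) (.e (nat_lit 426546) (nat_lit 30) .nil))))) (.g (nat_lit 0) (.e (nat_lit 111273) (nat_lit 0) .nil) .nil))))) (.nd (nat_lit 8) (.nd (nat_lit 9) 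
(.lf (nat_lit 479389) (.g (nat_lit 2886) (.e (nat_lit 5205) (nat_lit 294) (.e (nat_lit 57406) (nat_lit 12) (.e (nat_lit 336454) (nat_lit 34) (.e (nat_lit 483383) (nat_lit 23) .nil)))) (.g (nat_lit 0) (.e (nat_lit 108333) (nat_lit 0) .nil) .nil))) 
(.lf (nat_lit 479901) (.g (nat_lit 4288) (.e (nat_lit 5763) (nat_lit 315) (.e (nat_lit 163962) (nat_lit 25) (.e (nat_lit 532535) (nat_lit 9) (.e (nat_lit 336073) (nat_lit 9) (.e (nat_lit 336028) (nat_lit 3) (.e (nat_lit 98350) (nat_lit 24) (.e (nat_lit 409616) (nat_lit 10) .nil))))))) (.g (nat_lit 1) (.e (nat_lit 110093) (nat_lit 0) .nil) .nil)))) (.nd (nat_lit 9) 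
(.lf (nat_lit 479645) (.g (nat_lit 1237) (.e (nat_lit 5664) (nat_lit 312) (.e (nat_lit 3085) (nat_lit 191) (.e (nat_lit 483346) (nat_lit 17) (.e (nat_lit 6718) (nat_lit 361) .nil)))) (.g (nat_lit 0) (.e (nat_lit 108943) (nat_lit 0) .nil) .nil))) 
(.lf (nat_lit 480157) (.g (nat_lit 2326) (.e (nat_lit 5934) (nat_lit 322) (.e (nat_lit 57371) (nat_lit 2) (.e (nat_lit 90174) (nat_lit 14) (.e (nat_lit 180250) (nat_lit 10) (.e (nat_lit 573487) (nat_lit 14) (.e (nat_lit 73753) (nat_lit 8) (.e (nat_lit 557090) (nat_lit 12) (.e (nat_lit 163847) (nat_lit 0) .nil)))))))) (.g (nat_lit 1) (.e (nat_lit 111483) (nat_lit 0) .nil) .nil)))))) 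
(.nd (nat_lit 7) (.nd (nat_lit 8) (.nd (nat_lit 9) 
(.lf (nat_lit 479325) (.g (nat_lit 1096) (.e (nat_lit 5190) (nat_lit 294) (.e (nat_lit 57412) (nat_lit 12) (.e (nat_lit 336176) (nat_lit 10) (.e (nat_lit 344157) (nat_lit 36) .nil)))) (.g (nat_lit 0) (.e (nat_lit 108152) (nat_lit 0) .nil) .nil))) 
(.lf (nat_lit 479837) (.g (nat_lit 1416) (.e (nat_lit 5760) (nat_lit 315) (.e (nat_lit 163979) (nat_lit 30) (.e (nat_lit 573489) (nat_lit 14) (.e (nat_lit 73762) (nat_lit 16) .nil)))) (.g (nat_lit 0) (.e (nat_lit 109907) (nat_lit 0) .nil) .nil)))) (.nd (nat_lit 9) 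
(.lf (nat_lit 479581) (.g (nat_lit 1672) (.e (nat_lit 5646) (nat_lit 312) (.e (nat_lit 3062) (nat_lit 190) (.e (nat_lit 475185) (nat_lit 29) (.e (nat_lit 557100) (nat_lit 13) (.e (nat_lit 172106) (nat_lit 10) .nil))))) (.g (nat_lit 0) (.e (nat_lit 108818) (nat_lit 0) .nil) .nil))) 
(.lf (nat_lit 480093) (.g (nat_lit 840) (.e (nat_lit 7936) (nat_lit 320) (.e (nat_lit 1222) (nat_lit 90) (.e (nat_lit 81924) (nat_lit 0) (.e (nat_lit 3747) (nat_lit 228) .nil)))) (.g (nat_lit 0) (.e (nat_lit 111355) (nat_lit 0) .nil) .nil))))) (.nd (nat_lit 8) (.nd (nat_lit 9) 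
(.lf (nat_lit 479453) (.g (nat_lit 1823) (.e (nat_lit 5631) (nat_lit 312) (.e (nat_lit 226) (nat_lit 21) (.e (nat_lit 336432) (nat_lit 30) (.e (nat_lit 450580) (nat_lit 5) (.e (nat_lit 540416) (nat_lit 24) .nil))))) (.g (nat_lit 0) (.e (nat_lit 108452) (nat_lit 0) .nil) .nil))) 
(.lf (nat_lit 479965) (.g (nat_lit 991) (.e (nat_lit 5772) (nat_lit 316) (.e (nat_lit 172143) (nat_lit 25) (.e (nat_lit 319492) (nat_lit 0) (.e (nat_lit 5771) (nat_lit 316) (.e (nat_lit 172144) (nat_lit 26) (.e (nat_lit 327684) (nat_lit 0) .nil)))))) (.g (nat_lit 1) (.e (nat_lit 110318) (nat_lit 0) .nil) .nil)))) (.nd (nat_lit 9) 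
(.lf (nat_lit 479709) (.g (nat_lit 1615) (.e (nat_lit 5714) (nat_lit 312) (.e (nat_lit 2681) (nat_lit 168) (.e (nat_lit 204885) (nat_lit 33) (.e (nat_lit 401448) (nat_lit 10) (.e (nat_lit 434232) (nat_lit 23) .nil))))) (.g (nat_lit 0) (.e (nat_lit 109275) (nat_lit 0) .nil) .nil))) 
(.lf (nat_lit 480221) (.g (nat_lit 1369) (.e (nat_lit 5934) (nat_lit 322) (.e (nat_lit 57377) (nat_lit 3) (.e (nat_lit 98365) (nat_lit 26) (.e (nat_lit 426327) (nat_lit 13) .nil)))) (.g (nat_lit 0) (.e (nat_lit 111547) (nat_lit 0) .nil) .nil))))))) (.nd (nat_lit 6) (.nd (nat_lit 7) (.nd (nat_lit 8) (.nd (nat_lit 9) 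
(.lf (nat_lit 479293) (.g (nat_lit 2595) (.e (nat_lit 5228) (nat_lit 296) (.e (nat_lit 163868) (nat_lit 2) (.e (nat_lit 196656) (nat_lit 11) (.e (nat_lit 16465) (nat_lit 13) .nil)))) (.g (nat_lit 0) (.e (nat_lit 107943) (nat_lit 0) .nil) .nil))) 
(.lf (nat_lit 479805) (.g (nat_lit 2646) (.e (nat_lit 5756) (nat_lit 315) (.e (nat_lit 163962) (nat_lit 25) (.e (nat_lit 532547) (nat_lit 11) (.e (nat_lit 352315) (nat_lit 23) (.e (nat_lit 98349) (nat_lit 24) (.e (nat_lit 409611) (nat_lit 10) .nil)))))) (.g (nat_lit 1) (.e (nat_lit 109818) (nat_lit 0) .nil) .nil)))) (.nd (nat_lit 9) 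
(.lf (nat_lit 479549) (.g (nat_lit 1892) (.e (nat_lit 5627) (nat_lit 312) (.e (nat_lit 2668) (nat_lit 167) (.e (nat_lit 196666) (nat_lit 13) (.e (nat_lit 65610) (nat_lit 10) (.e (nat_lit 344117) (nat_lit 21) (.e (nat_lit 516102) (nat_lit 0) (.e (nat_lit 6989) (nat_lit 377) (.e (nat_lit 7936) (nat_lit 157) .nil)))))))) (.g (nat_lit 1) (.e (nat_lit 108687) (nat_lit 0) .nil) .nil))) 
(.lf (nat_lit 480061) (.g (nat_lit 450) (.e (nat_lit 5905) (nat_lit 320) (.e (nat_lit 1221) (nat_lit 90) (.e (nat_lit 81924) (nat_lit 0) .nil))) (.g (nat_lit 0) (.e (nat_lit 111309) (nat_lit 0) .nil) .nil))))) (.nd (nat_lit 8) (.nd (nat_lit 9) 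
(.lf (nat_lit 479421) (.g (nat_lit 1871) (.e (nat_lit 5613) (nat_lit 312) (.e (nat_lit 113) (nat_lit 3) (.e (nat_lit 98367) (nat_lit 27) (.e (nat_lit 434247) (nat_lit 28) (.e (nat_lit 573489) (nat_lit 14) .nil))))) (.g (nat_lit 0) (.e (nat_lit 108397) (nat_lit 0) .nil) .nil))) 
(.lf (nat_lit 479933) (.g (nat_lit 2214) (.e (nat_lit 5766) (nat_lit 316) (.e (nat_lit 172150) (nat_lit 27) (.e (nat_lit 336232) (nat_lit 14) (.e (nat_lit 401440) (nat_lit 9) (.e (nat_lit 426470) (nat_lit 25) (.e (nat_lit 319490) (nat_lit 0) .nil)))))) (.g (nat_lit 1) (.e (nat_lit 110179) (nat_lit 0) .nil) .nil)))) (.nd (nat_lit 9) 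
(.lf (nat_lit 479677) (.g (nat_lit 1189) (.e (nat_lit 5665) (nat_lit 312) (.e (nat_lit 2679) (nat_lit 168) (.e (nat_lit 204868) (nat_lit 29) (.e (nat_lit 360467) (nat_lit 3) .nil)))) (.g (nat_lit 0) (.e (nat_lit 109091) (nat_lit 0) .nil) .nil))) 
(.lf (nat_lit 480189) (.g (nat_lit 2364) (.e (nat_lit 5934) (nat_lit 322) (.e (nat_lit 57373) (nat_lit 2) (.e (nat_lit 90174) (nat_lit 14) (.e (nat_lit 180251) (nat_lit 10) .nil)))) (.g (nat_lit 0) (.e (nat_lit 111515) (nat_lit 0) .nil) .nil)))))) (.nd (nat_lit 7) (.nd (nat_lit 8) (.nd (nat_lit 9) 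
(.lf (nat_lit 479357) (.g (nat_lit 1272) (.e (nat_lit 5195) (nat_lit 294) (.e (nat_lit 57426) (nat_lit 15) (.e (nat_lit 360480) (nat_lit 14) (.e (nat_lit 638986) (nat_lit 5) (.e (nat_lit 3027) (nat_lit 187) (.e (nat_lit 458496) (nat_lit 0) .nil)))))) (.g (nat_lit 1) (.e (nat_lit 108284) (nat_lit 0) .nil) .nil))) 
(.lf (nat_lit 479869) (.g (nat_lit 1915) (.e (nat_lit 5761) (nat_lit 315) (.e (nat_lit 163962) (nat_lit 25) (.e (nat_lit 532549) (nat_lit 12) (.e (nat_lit 360473) (nat_lit 8) (.e (nat_lit 557068) (nat_lit 9) (.e (nat_lit 7936) (nat_lit 19) (.e (nat_lit 319492) (nat_lit 0) .nil))))))) (.g (nat_lit 1) (.e (nat_lit 110008) (nat_lit 0) .nil) .nil)))) (.nd (nat_lit 9) 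
(.lf (nat_lit 479613) (.g (nat_lit 3026) (.e (nat_lit 5664) (nat_lit 312) (.e (nat_lit 2679) (nat_lit 168) (.e (nat_lit 204846) (nat_lit 24) (.e (nat_lit 319534) (nat_lit 16) (.e (nat_lit 286735) (nat_lit 3) (.e (nat_lit 98325) (nat_lit 17) (.e (nat_lit 6986) (nat_lit 377) (.e (nat_lit 977) (nat_lit 81) .nil)))))))) (.g (nat_lit 1) (.e (nat_lit 108873) (nat_lit 0) .nil) .nil))) 
(.lf (nat_lit 480125) (.g (nat_lit 3016) (.e (nat_lit 5932) (nat_lit 322) (.e (nat_lit 57373) (nat_lit 2) (.e (nat_lit 90174) (nat_lit 14) (.e (nat_lit 180251) (nat_lit 10) (.e (nat_lit 573489) (nat_lit 14) .nil))))) (.g (nat_lit 0) (.e (nat_lit 111451) (nat_lit 0) .nil) .nil))))) (.nd (nat_lit 8) (.nd (nat_lit 9) 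
(.lf (nat_lit 479485) (.g (nat_lit 4331) (.e (nat_lit 5626) (nat_lit 312) (.e (nat_lit 2668) (nat_lit 167) (.e (nat_lit 196666) (nat_lit 13) (.e (nat_lit 65610) (nat_lit 10) (.e (nat_lit 344117) (nat_lit 21) (.e (nat_lit 516106) (nat_lit 0) (.e (nat_lit 6986) (nat_lit 377) (.e (nat_lit 2408) (nat_lit 157) .nil)))))))) (.g (nat_lit 1) (.e (nat_lit 108496) (nat_lit 0) .nil) .nil))) 
(.lf (nat_lit 479997) (.g (nat_lit 2166) (.e (nat_lit 5813) (nat_lit 320) (.e (nat_lit 1201) (nat_lit 88) (.e (nat_lit 65630) (nat_lit 14) (.e (nat_lit 401437) (nat_lit 9) (.e (nat_lit 426544) (nat_lit 30) .nil))))) (.g (nat_lit 0) (.e (nat_lit 111216) (nat_lit 0) .nil) .nil)))) (.nd (nat_lit 9) 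
(.lf (nat_lit 479741) (.g (nat_lit 2357) (.e (nat_lit 5748) (nat_lit 314) (.e (nat_lit 24651) (nat_lit 12) (.e (nat_lit 385094) (nat_lit 49) (.e (nat_lit 778323) (nat_lit 5) (.e (nat_lit 73788) (nat_lit 45) .nil))))) (.g (nat_lit 0) (.e (nat_lit 109575) (nat_lit 0) .nil) .nil))) 
(.lf (nat_lit 480253) (.g (nat_lit 1770) (.e (nat_lit 5936) (nat_lit 322) (.e (nat_lit 57435) (nat_lit 17) (.e (nat_lit 376835) (nat_lit 0) (.e (nat_lit 3746) (nat_lit 228) (.e (nat_lit 786481) (nat_lit 30) (.e (nat_lit 368384) (nat_lit 0) .nil)))))) (.g (nat_lit 1) (.e (nat_lit 111583) (nat_lit 0) .nil) .nil))))))))))) 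
(.nd (nat_lit 2) (.nd (nat_lit 3) (.nd (nat_lit 4) (.nd (nat_lit 5) (.nd (nat_lit 6) 
(.nd (nat_lit 7) (.nd (nat_lit 8) (.nd (nat_lit 9) 
(.lf (nat_lit 479235) (.g (nat_lit 1959) (.e (nat_lit 5224) (nat_lit 296) (.e (nat_lit 163871) (nat_lit 2) (.e (nat_lit 196656) (nat_lit 11) (.e (nat_lit 16438) (nat_lit 9) .nil)))) (.g (nat_lit 0) (.e (nat_lit 107515) (nat_lit 0) .nil) .nil))) 
(.lf (nat_lit 479747) (.g (nat_lit 1813) (.e (nat_lit 5750) (nat_lit 314) (.e (nat_lit 24623) (nat_lit 9) (.e (nat_lit 336028) (nat_lit 3) (.e (nat_lit 106240) (nat_lit 15) .nil)))) (.g (nat_lit 0) (.e (nat_lit 109604) (nat_lit 0) .nil) .nil)))) (.nd (nat_lit 9) 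
(.lf (nat_lit 479491) (.g (nat_lit 3555) (.e (nat_lit 5626) (nat_lit 312) (.e (nat_lit 2668) (nat_lit 167) (.e (nat_lit 196666) (nat_lit 13) (.e (nat_lit 65610) (nat_lit 10) (.e (nat_lit 344117) (nat_lit 21) (.e (nat_lit 516106) (nat_lit 0) (.e (nat_lit 7016) (nat_lit 377) (.e (nat_lit 2505) (nat_lit 157) .nil)))))))) (.g (nat_lit 1) (.e (nat_lit 108502) (nat_lit 0) .nil) .nil))) 
(.lf (nat_lit 480003) (.g (nat_lit 1899) (.e (nat_lit 5817) (nat_lit 320) (.e (nat_lit 1201) (nat_lit 88) (.e (nat_lit 65628) (nat_lit 14) (.e (nat_lit 401437) (nat_lit 9) (.e (nat_lit 426544) (nat_lit 30) .nil))))) (.g (nat_lit 0) (.e (nat_lit 111225) (nat_lit 0) .nil) .nil))))) (.nd (nat_lit 8) (.nd (nat_lit 9) 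
(.lf (nat_lit 479363) (.g (nat_lit 2254) (.e (nat_lit 5195) (nat_lit 294) (.e (nat_lit 57427) (nat_lit 15) (.e (nat_lit 360484) (nat_lit 15) (.e (nat_lit 647190) (nat_lit 9) (.e (nat_lit 7936) (nat_lit 35) (.e (nat_lit 458496) (nat_lit 0) .nil)))))) (.g (nat_lit 1) (.e (nat_lit 108291) (nat_lit 0) .nil) .nil))) 
(.lf (nat_lit 479875) (.g (nat_lit 1861) (.e (nat_lit 5762) (nat_lit 315) (.e (nat_lit 163962) (nat_lit 25) (.e (nat_lit 532535) (nat_lit 9) (.e (nat_lit 336073) (nat_lit 9) .nil)))) (.g (nat_lit 0) (.e (nat_lit 110034) (nat_lit 0) .nil) .nil)))) (.nd (nat_lit 9) 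
(.lf (nat_lit 479619) (.g (nat_lit 921) (.e (nat_lit 5664) (nat_lit 312) (.e (nat_lit 2679) (nat_lit 168) (.e (nat_lit 204868) (nat_lit 29) (.e (nat_lit 360466) (nat_lit 3) .nil)))) (.g (nat_lit 0) (.e (nat_lit 108879) (nat_lit 0) .nil) .nil))) 
(.lf (nat_lit 480131) (.g (nat_lit 2828) (.e (nat_lit 5933) (nat_lit 322) (.e (nat_lit 57373) (nat_lit 2) (.e (nat_lit 90174) (nat_lit 14) (.e (nat_lit 180251) (nat_lit 10) (.e (nat_lit 573489) (nat_lit 14) .nil))))) (.g (nat_lit 0) (.e (nat_lit 111457) (nat_lit 0) .nil) .nil)))))) (.nd (nat_lit 7) (.nd (nat_lit 8) (.nd (nat_lit 9) 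
(.lf (nat_lit 479299) (.g (nat_lit 1673) (.e (nat_lit 5228) (nat_lit 296) (.e (nat_lit 163903) (nat_lit 12) (.e (nat_lit 426479) (nat_lit 27) (.e (nat_lit 336434) (nat_lit 30) (.e (nat_lit 450586) (nat_lit 10) (.e (nat_lit 573475) (nat_lit 12) (.e (nat_lit 65280) (nat_lit 0) .nil))))))) (.g (nat_lit 1) (.e (nat_lit 107963) (nat_lit 0) .nil) .nil))) 
(.lf (nat_lit 479811) (.g (nat_lit 1428) (.e (nat_lit 5756) (nat_lit 315) (.e (nat_lit 163962) (nat_lit 25) (.e (nat_lit 532549) (nat_lit 12) (.e (nat_lit 360466) (nat_lit 3) (.e (nat_lit 516139) (nat_lit 7) .nil))))) (.g (nat_lit 0) (.e (nat_lit 109826) (nat_lit 0) .nil) .nil)))) (.nd (nat_lit 9) 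
(.lf (nat_lit 479555) (.g (nat_lit 2735) (.e (nat_lit 5627) (nat_lit 312) (.e (nat_lit 2668) (nat_lit 167) (.e (nat_lit 196666) (nat_lit 13) (.e (nat_lit 65610) (nat_lit 10) (.e (nat_lit 344117) (nat_lit 21) (.e (nat_lit 516106) (nat_lit 0) (.e (nat_lit 7008) (nat_lit 377) (.e (nat_lit 2429) (nat_lit 157) .nil)))))))) (.g (nat_lit 1) (.e (nat_lit 108693) (nat_lit 0) .nil) .nil))) 
(.lf (nat_lit 480067) (.g (nat_lit 2192) (.e (nat_lit 5906) (nat_lit 320) (.e (nat_lit 1199) (nat_lit 88) (.e (nat_lit 65630) (nat_lit 14) (.e (nat_lit 401456) (nat_lit 13) (.e (nat_lit 483394) (nat_lit 24) .nil))))) (.g (nat_lit 0) (.e (nat_lit 111315) (nat_lit 0) .nil) .nil))))) (.nd (nat_lit 8) (.nd (nat_lit 9) 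
(.lf (nat_lit 479427) (.g (nat_lit 2617) (.e (nat_lit 5613) (nat_lit 312) (.e (nat_lit 2668) (nat_lit 167) (.e (nat_lit 196666) (nat_lit 13) (.e (nat_lit 65617) (nat_lit 10) (.e (nat_lit 344120) (nat_lit 21) .nil))))) (.g (nat_lit 0) (.e (nat_lit 108403) (nat_lit 0) .nil) .nil))) 
(.lf (nat_lit 479939) (.g (nat_lit 629) (.e (nat_lit 5771) (nat_lit 316) (.e (nat_lit 172144) (nat_lit 26) (.e (nat_lit 327683) (nat_lit 0) (.e (nat_lit 5772) (nat_lit 316) (.e (nat_lit 172143) (nat_lit 25) (.e (nat_lit 319491) (nat_lit 0) .nil)))))) (.g (nat_lit 1) (.e (nat_lit 110267) (nat_lit 0) .nil) .nil)))) (.nd (nat_lit 9) 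
(.lf (nat_lit 479683) (.g (nat_lit 1597) (.e (nat_lit 5669) (nat_lit 312) (.e (nat_lit 2654) (nat_lit 167) (.e (nat_lit 196672) (nat_lit 15) (.e (nat_lit 81954) (nat_lit 23) (.e (nat_lit 98350) (nat_lit 24) .nil))))) (.g (nat_lit 0) (.e (nat_lit 109114) (nat_lit 0) .nil) .nil))) 
(.lf (nat_lit 480195) (.g (nat_lit 2690) (.e (nat_lit 5934) (nat_lit 322) (.e (nat_lit 57375) (nat_lit 2) (.e (nat_lit 90174) (nat_lit 14) (.e (nat_lit 180243) (nat_lit 5) (.e (nat_lit 532513) (nat_lit 3) (.e (nat_lit 114714) (nat_lit 22) (.e (nat_lit 90165) (nat_lit 12) (.e (nat_lit 163853) (nat_lit 0) .nil)))))))) (.g (nat_lit 1) (.e (nat_lit 111521) (nat_lit 0) .nil) .nil))))))) 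
(.nd (nat_lit 6) (.nd (nat_lit 7) (.nd (nat_lit 8) (.nd (nat_lit 9) 
(.lf (nat_lit 479267) (.g (nat_lit 827) (.e (nat_lit 5224) (nat_lit 296) (.e (nat_lit 163903) (nat_lit 12) (.e (nat_lit 426479) (nat_lit 27) .nil))) (.g (nat_lit 0) (.e (nat_lit 107799) (nat_lit 0) .nil) .nil))) 
(.lf (nat_lit 479779) (.g (nat_lit 2536) (.e (nat_lit 7936) (nat_lit 314) (.e (nat_lit 24662) (nat_lit 14) (.e (nat_lit 401459) (nat_lit 13) (.e (nat_lit 483344) (nat_lit 17) (.e (nat_lit 6192) (nat_lit 332) .nil))))) (.g (nat_lit 0) (.e (nat_lit 109723) (nat_lit 0) .nil) .nil)))) (.nd (nat_lit 9) 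
(.lf (nat_lit 479523) (.g (nat_lit 2850) (.e (nat_lit 5626) (nat_lit 312) (.e (nat_lit 2685) (nat_lit 168) (.e (nat_lit 204868) (nat_lit 29) (.e (nat_lit 360473) (nat_lit 8) (.e (nat_lit 557068) (nat_lit 9) (.e (nat_lit 214) (nat_lit 19) (.e (nat_lit 319493) (nat_lit 0) .nil))))))) (.g (nat_lit 1) (.e (nat_lit 108639) (nat_lit 0) .nil) .nil))) 
(.lf (nat_lit 480035) (.g (nat_lit 553) (.e (nat_lit 5902) (nat_lit 320) (.e (nat_lit 1211) (nat_lit 89) (.e (nat_lit 73781) (nat_lit 32) (.e (nat_lit 2854) (nat_lit 184) .nil)))) (.g (nat_lit 0) (.e (nat_lit 111279) (nat_lit 0) .nil) .nil))))) (.nd (nat_lit 8) (.nd (nat_lit 9) 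
(.lf (nat_lit 479395) (.g (nat_lit 2885) (.e (nat_lit 5612) (nat_lit 312) (.e (nat_lit 290) (nat_lit 21) (.e (nat_lit 336231) (nat_lit 14) (.e (nat_lit 401458) (nat_lit 13) (.e (nat_lit 483372) (nat_lit 21) .nil))))) (.g (nat_lit 0) (.e (nat_lit 108347) (nat_lit 0) .nil) .nil))) 
(.lf (nat_lit 479907) (.g (nat_lit 4445) (.e (nat_lit 5763) (nat_lit 315) (.e (nat_lit 163962) (nat_lit 25) (.e (nat_lit 532547) (nat_lit 11) (.e (nat_lit 352315) (nat_lit 23) (.e (nat_lit 98350) (nat_lit 24) (.e (nat_lit 409616) (nat_lit 10) .nil)))))) (.g (nat_lit 1) (.e (nat_lit 110108) (nat_lit 0) .nil) .nil)))) (.nd (nat_lit 9) 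
(.lf (nat_lit 479651) (.g (nat_lit 1790) (.e (nat_lit 5664) (nat_lit 312) (.e (nat_lit 3085) (nat_lit 191) (.e (nat_lit 483346) (nat_lit 17) (.e (nat_lit 6735) (nat_lit 364) (.e (nat_lit 245504) (nat_lit 25) .nil))))) (.g (nat_lit 0) (.e (nat_lit 108957) (nat_lit 0) .nil) .nil))) 
(.lf (nat_lit 480163) (.g (nat_lit 1748) (.e (nat_lit 5934) (nat_lit 322) (.e (nat_lit 57371) (nat_lit 2) (.e (nat_lit 90174) (nat_lit 14) (.e (nat_lit 180251) (nat_lit 10) (.e (nat_lit 573489) (nat_lit 14) (.e (nat_lit 73754) (nat_lit 8) (.e (nat_lit 557094) (nat_lit 12) (.e (nat_lit 163840) (nat_lit 0) .nil)))))))) (.g (nat_lit 1) (.e (nat_lit 111489) (nat_lit 0) .nil) .nil)))))) 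
(.nd (nat_lit 7) (.nd (nat_lit 8) (.nd (nat_lit 9) 
(.lf (nat_lit 479331) (.g (nat_lit 1243) (.e (nat_lit 5193) (nat_lit 294) (.e (nat_lit 57388) (nat_lit 5) (.e (nat_lit 114698) (nat_lit 11) (.e (nat_lit 426198) (nat_lit 9) .nil)))) (.g (nat_lit 0) (.e (nat_lit 108159) (nat_lit 0) .nil) .nil))) 
(.lf (nat_lit 479843) (.g (nat_lit 3256) (.e (nat_lit 5761) (nat_lit 315) (.e (nat_lit 163962) (nat_lit 25) (.e (nat_lit 532535) (nat_lit 9) (.e (nat_lit 336058) (nat_lit 7) (.e (nat_lit 319519) (nat_lit 12) (.e (nat_lit 32774) (nat_lit 5) (.e (nat_lit 1396) (nat_lit 106) (.e (nat_lit 319493) (nat_lit 0) .nil)))))))) (.g (nat_lit 1) (.e (nat_lit 109930) (nat_lit 0) .nil) .nil)))) (.nd (nat_lit 9) 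
(.lf (nat_lit 479587) (.g (nat_lit 2963) (.e (nat_lit 5664) (nat_lit 312) (.e (nat_lit 2661) (nat_lit 167) (.e (nat_lit 196666) (nat_lit 13) (.e (nat_lit 65610) (nat_lit 10) (.e (nat_lit 344117) (nat_lit 21) (.e (nat_lit 516102) (nat_lit 0) (.e (nat_lit 6989) (nat_lit 377) (.e (nat_lit 2506) (nat_lit 157) .nil)))))))) (.g (nat_lit 1) (.e (nat_lit 108840) (nat_lit 0) .nil) .nil))) 
(.lf (nat_lit 480099) (.g (nat_lit 1268) (.e (nat_lit 5965) (nat_lit 324) (.e (nat_lit 163875) (nat_lit 3) (.e (nat_lit 204883) (nat_lit 33) (.e (nat_lit 401457) (nat_lit 13) .nil)))) (.g (nat_lit 0) (.e (nat_lit 111375) (nat_lit 0) .nil) .nil))))) (.nd (nat_lit 8) (.nd (nat_lit 9) 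
(.lf (nat_lit 479459) (.g (nat_lit 2681) (.e (nat_lit 5626) (nat_lit 312) (.e (nat_lit 2668) (nat_lit 167) (.e (nat_lit 196666) (nat_lit 13) (.e (nat_lit 65610) (nat_lit 10) (.e (nat_lit 344117) (nat_lit 21) (.e (nat_lit 516098) (nat_lit 0) (.e (nat_lit 6961) (nat_lit 377) (.e (nat_lit 2499) (nat_lit 157) .nil)))))))) (.g (nat_lit 1) (.e (nat_lit 108470) (nat_lit 0) .nil) .nil))) 
(.lf (nat_lit 479971) (.g (nat_lit 938) (.e (nat_lit 5776) (nat_lit 317) (.e (nat_lit 180260) (nat_lit 18) (.e (nat_lit 639020) (nat_lit 16) (.e (nat_lit 65585) (nat_lit 7) (.e (nat_lit 319527) (nat_lit 15) (.e (nat_lit 278531) (nat_lit 0) .nil)))))) (.g (nat_lit 1) (.e (nat_lit 110551) (nat_lit 0) .nil) .nil)))) (.nd (nat_lit 9) 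
(.lf (nat_lit 479715) (.g (nat_lit 2322) (.e (nat_lit 5721) (nat_lit 312) (.e (nat_lit 300) (nat_lit 22) (.e (nat_lit 344069) (nat_lit 0) (.e (nat_lit 3090) (nat_lit 191) (.e (nat_lit 483372) (nat_lit 21) (.e (nat_lit 327424) (nat_lit 10) .nil)))))) (.g (nat_lit 1) (.e (nat_lit 109454) (nat_lit 0) .nil) .nil))) 
(.lf (nat_lit 480227) (.g (nat_lit 3326) (.e (nat_lit 5934) (nat_lit 322) (.e (nat_lit 57412) (nat_lit 12) (.e (nat_lit 336226) (nat_lit 14) (.e (nat_lit 401437) (nat_lit 9) (.e (nat_lit 426544) (nat_lit 30) (.e (nat_lit 360457) (nat_lit 0) .nil)))))) (.g (nat_lit 1) (.e (nat_lit 111553) (nat_lit 0) .nil) .nil)))))))) 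
(.nd (nat_lit 5) (.nd (nat_lit 6) (.nd (nat_lit 7) (.nd (nat_lit 8) (.nd (nat_lit 9) 
(.lf (nat_lit 479251) (.g (nat_lit 2760) (.e (nat_lit 5224) (nat_lit 296) (.e (nat_lit 163875) (nat_lit 3) (.e (nat_lit 204830) (nat_lit 18) (.e (nat_lit 57927) (nat_lit 282) (.e (nat_lit 164084) (nat_lit 73) (.e (nat_lit 336027) (nat_lit 3) (.e (nat_lit 98377) (nat_lit 30) (.e (nat_lit 458774) (nat_lit 18) .nil)))))))) (.g (nat_lit 1) (.e (nat_lit 107768) (nat_lit 0) .nil) .nil))) 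
(.lf (nat_lit 479763) (.g (nat_lit 3289) (.e (nat_lit 5753) (nat_lit 314) (.e (nat_lit 24662) (nat_lit 14) (.e (nat_lit 401459) (nat_lit 13) (.e (nat_lit 483350) (nat_lit 17) (.e (nat_lit 6113) (nat_lit 332) .nil))))) (.g (nat_lit 0) (.e (nat_lit 109681) (nat_lit 0) .nil) .nil)))) (.nd (nat_lit 9) 
(.lf (nat_lit 479507) (.g (nat_lit 2225) (.e (nat_lit 5626) (nat_lit 312) (.e (nat_lit 2668) (nat_lit 167) (.e (nat_lit 196666) (nat_lit 13) (.e (nat_lit 65619) (nat_lit 10) .nil)))) (.g (nat_lit 0) (.e (nat_lit 108559) (nat_lit 0) .nil) .nil))) 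
(.lf (nat_lit 480019) (.g (nat_lit 2171) (.e (nat_lit 5811) (nat_lit 320) (.e (nat_lit 2553) (nat_lit 159) (.e (nat_lit 24640) (nat_lit 10) (.e (nat_lit 344156) (nat_lit 36) (.e (nat_lit 638985) (nat_lit 5) .nil))))) (.g (nat_lit 0) (.e (nat_lit 111251) (nat_lit 0) .nil) .nil))))) (.nd (nat_lit 8) (.nd (nat_lit 9) 
(.lf (nat_lit 479379) (.g (nat_lit 956) (.e (nat_lit 5201) (nat_lit 294) (.e (nat_lit 57409) (nat_lit 12) (.e (nat_lit 336454) (nat_lit 34) .nil))) (.g (nat_lit 0) (.e (nat_lit 108321) (nat_lit 0) .nil) .nil))) 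
(.lf (nat_lit 479891) (.g (nat_lit 3163) (.e (nat_lit 5762) (nat_lit 315) (.e (nat_lit 163962) (nat_lit 25) (.e (nat_lit 532547) (nat_lit 11) (.e (nat_lit 352314) (nat_lit 23) (.e (nat_lit 98350) (nat_lit 24) (.e (nat_lit 409617) (nat_lit 10) .nil)))))) (.g (nat_lit 1) (.e (nat_lit 110070) (nat_lit 0) .nil) .nil)))) (.nd (nat_lit 9) 
(.lf (nat_lit 479635) (.g (nat_lit 2060) (.e (nat_lit 5664) (nat_lit 312) (.e (nat_lit 3078) (nat_lit 191) (.e (nat_lit 483412) (nat_lit 27) (.e (nat_lit 401444) (nat_lit 9) (.e (nat_lit 433920) (nat_lit 25) (.e (nat_lit 319491) (nat_lit 0) .nil)))))) (.g (nat_lit 1) (.e (nat_lit 108933) (nat_lit 0) .nil) .nil))) 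
(.lf (nat_lit 480147) (.g (nat_lit 2019) (.e (nat_lit 5934) (nat_lit 322) (.e (nat_lit 57371) (nat_lit 2) (.e (nat_lit 90173) (nat_lit 14) (.e (nat_lit 180251) (nat_lit 10) (.e (nat_lit 573489) (nat_lit 14) (.e (nat_lit 73755) (nat_lit 8) (.e (nat_lit 557091) (nat_lit 12) (.e (nat_lit 163847) (nat_lit 0) .nil)))))))) (.g (nat_lit 1) (.e (nat_lit 111473) (nat_lit 0) .nil) .nil)))))) 
(.nd (nat_lit 7) (.nd (nat_lit 8) (.nd (nat_lit 9) 
(.lf (nat_lit 479315) (.g (nat_lit 1532) (.e (nat_lit 5235) (nat_lit 296) (.e (nat_lit 163932) (nat_lit 17) (.e (nat_lit 466972) (nat_lit 21) (.e (nat_lit 164319) (nat_lit 228) .nil)))) (.g (nat_lit 0) (.e (nat_lit 108110) (nat_lit 0) .nil) .nil))) 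
(.lf (nat_lit 479827) (.g (nat_lit 2167) (.e (nat_lit 5757) (nat_lit 315) (.e (nat_lit 163962) (nat_lit 25) (.e (nat_lit 532535) (nat_lit 9) (.e (nat_lit 336178) (nat_lit 10) .nil)))) (.g (nat_lit 0) (.e (nat_lit 109862) (nat_lit 0) .nil) .nil)))) (.nd (nat_lit 9) 
(.lf (nat_lit 479571) (.g (nat_lit 1679) (.e (nat_lit 5640) (nat_lit 312) (.e (nat_lit 2679) (nat_lit 168) (.e (nat_lit 204868) (nat_lit 29) (.e (nat_lit 360466) (nat_lit 3) (.e (nat_lit 516142) (nat_lit 8) .nil))))) (.g (nat_lit 0) (.e (nat_lit 108744) (nat_lit 0) .nil) .nil))) 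
(.lf (nat_lit 480083) (.g (nat_lit 2349) (.e (nat_lit 5907) (nat_lit 320) (.e (nat_lit 1209) (nat_lit 89) (.e (nat_lit 73781) (nat_lit 32) (.e (nat_lit 3090) (nat_lit 191) (.e (nat_lit 483394) (nat_lit 24) (.e (nat_lit 344100) (nat_lit 18) .nil)))))) (.g (nat_lit 1) (.e (nat_lit 111344) (nat_lit 0) .nil) .nil))))) (.nd (nat_lit 8) (.nd (nat_lit 9) 
(.lf (nat_lit 479443) (.g (nat_lit 2612) (.e (nat_lit 5629) (nat_lit 312) (.e (nat_lit 216) (nat_lit 19) (.e (nat_lit 319490) (nat_lit 0) (.e (nat_lit 5664) (nat_lit 312) (.e (nat_lit 3085) (nat_lit 191) (.e (nat_lit 483377) (nat_lit 22) (.e (nat_lit 335616) (nat_lit 10) .nil))))))) (.g (nat_lit 1) (.e (nat_lit 108442) (nat_lit 0) .nil) .nil))) 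
(.lf (nat_lit 479955) (.g (nat_lit 1962) (.e (nat_lit 5771) (nat_lit 316) (.e (nat_lit 172150) (nat_lit 27) (.e (nat_lit 336231) (nat_lit 14) (.e (nat_lit 401434) (nat_lit 9) (.e (nat_lit 433920) (nat_lit 25) .nil))))) (.g (nat_lit 0) (.e (nat_lit 110284) (nat_lit 0) .nil) .nil)))) (.nd (nat_lit 9) 
(.lf (nat_lit 479699) (.g (nat_lit 2543) (.e (nat_lit 5738) (nat_lit 312) (.e (nat_lit 2663) (nat_lit 167) (.e (nat_lit 196672) (nat_lit 15) (.e (nat_lit 81954) (nat_lit 23) (.e (nat_lit 98350) (nat_lit 24) .nil))))) (.g (nat_lit 0) (.e (nat_lit 109223) (nat_lit 0) .nil) .nil))) 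
(.lf (nat_lit 480211) (.g (nat_lit 2355) (.e (nat_lit 5934) (nat_lit 322) (.e (nat_lit 57375) (nat_lit 2) (.e (nat_lit 90174) (nat_lit 14) (.e (nat_lit 180251) (nat_lit 10) (.e (nat_lit 573489) (nat_lit 14) (.e (nat_lit 73755) (nat_lit 8) (.e (nat_lit 557091) (nat_lit 12) (.e (nat_lit 163840) (nat_lit 0) .nil)))))))) (.g (nat_lit 1) (.e (nat_lit 111537) (nat_lit 0) .nil) .nil))))))) 
(.nd (nat_lit 6) (.nd (nat_lit 7) (.nd (nat_lit 8) (.nd (nat_lit 9) 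
(.lf (nat_lit 479283) (.g (nat_lit 1129) (.e (nat_lit 5224) (nat_lit 296) (.e (nat_lit 163907) (nat_lit 12) (.e (nat_lit 426479) (nat_lit 27) .nil))) (.g (nat_lit 0) (.e (nat_lit 107847) (nat_lit 0) .nil) .nil))) 
(.lf (nat_lit 479795) (.g (nat_lit 1755) (.e (nat_lit 5756) (nat_lit 315) (.e (nat_lit 163962) (nat_lit 25) (.e (nat_lit 532535) (nat_lit 9) (.e (nat_lit 336099) (nat_lit 9) .nil)))) (.g (nat_lit 0) (.e (nat_lit 109756) (nat_lit 0) .nil) .nil)))) (.nd (nat_lit 9) 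
(.lf (nat_lit 479539) (.g (nat_lit 4271) (.e (nat_lit 5626) (nat_lit 312) (.e (nat_lit 2685) (nat_lit 168) (.e (nat_lit 204869) (nat_lit 29) (.e (nat_lit 360475) (nat_lit 8) (.e (nat_lit 557073) (nat_lit 9) (.e (nat_lit 214) (nat_lit 19) (.e (nat_lit 319491) (nat_lit 0) .nil))))))) (.g (nat_lit 1) (.e (nat_lit 108665) (nat_lit 0) .nil) .nil))) 
(.lf (nat_lit 480051) (.g (nat_lit 2004) (.e (nat_lit 5905) (nat_lit 320) (.e (nat_lit 1200) (nat_lit 88) (.e (nat_lit 65630) (nat_lit 14) (.e (nat_lit 401438) (nat_lit 9) (.e (nat_lit 426546) (nat_lit 30) .nil))))) (.g (nat_lit 0) (.e (nat_lit 111298) (nat_lit 0) .nil) .nil))))) (.nd (nat_lit 8) (.nd (nat_lit 9) 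
(.lf (nat_lit 479411) (.g (nat_lit 1858) (.e (nat_lit 5612) (nat_lit 312) (.e (nat_lit 2668) (nat_lit 167) (.e (nat_lit 196666) (nat_lit 13) (.e (nat_lit 65630) (nat_lit 14) .nil)))) (.g (nat_lit 0) (.e (nat_lit 108363) (nat_lit 0) .nil) .nil))) 
(.lf (nat_lit 479923) (.g (nat_lit 1692) (.e (nat_lit 5766) (nat_lit 316) (.e (nat_lit 172150) (nat_lit 27) (.e (nat_lit 335895) (nat_lit 0) (.e (nat_lit 6718) (nat_lit 361) (.e (nat_lit 172143) (nat_lit 25) .nil))))) (.g (nat_lit 0) (.e (nat_lit 110164) (nat_lit 0) .nil) .nil)))) (.nd (nat_lit 9) 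
(.lf (nat_lit 479667) (.g (nat_lit 2208) (.e (nat_lit 5664) (nat_lit 312) (.e (nat_lit 3085) (nat_lit 191) (.e (nat_lit 483412) (nat_lit 27) (.e (nat_lit 401444) (nat_lit 9) (.e (nat_lit 433920) (nat_lit 25) .nil))))) (.g (nat_lit 0) (.e (nat_lit 109012) (nat_lit 0) .nil) .nil))) 
(.lf (nat_lit 480179) (.g (nat_lit 2881) (.e (nat_lit 5934) (nat_lit 322) (.e (nat_lit 57372) (nat_lit 2) (.e (nat_lit 90174) (nat_lit 14) (.e (nat_lit 180250) (nat_lit 10) (.e (nat_lit 573489) (nat_lit 14) .nil))))) (.g (nat_lit 0) (.e (nat_lit 111505) (nat_lit 0) .nil) .nil)))))) (.nd (nat_lit 7) (.nd (nat_lit 8) (.nd (nat_lit 9) 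
(.lf (nat_lit 479347) (.g (nat_lit 1422) (.e (nat_lit 5195) (nat_lit 294) (.e (nat_lit 57375) (nat_lit 2) (.e (nat_lit 90158) (nat_lit 11) (.e (nat_lit 24658) (nat_lit 13) (.e (nat_lit 393229) (nat_lit 9) .nil))))) (.g (nat_lit 0) (.e (nat_lit 108220) (nat_lit 0) .nil) .nil))) 
(.lf (nat_lit 479859) (.g (nat_lit 3230) (.e (nat_lit 5761) (nat_lit 315) (.e (nat_lit 163962) (nat_lit 25) (.e (nat_lit 532535) (nat_lit 9) (.e (nat_lit 336176) (nat_lit 10) (.e (nat_lit 344132) (nat_lit 26) (.e (nat_lit 557073) (nat_lit 9) (.e (nat_lit 214) (nat_lit 19) (.e (nat_lit 319493) (nat_lit 0) .nil)))))))) (.g (nat_lit 1) (.e (nat_lit 109972) (nat_lit 0) .nil) .nil)))) (.nd (nat_lit 9) 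
(.lf (nat_lit 479603) (.g (nat_lit 3328) (.e (nat_lit 5664) (nat_lit 312) (.e (nat_lit 2679) (nat_lit 168) (.e (nat_lit 204845) (nat_lit 24) (.e (nat_lit 319530) (nat_lit 16) (.e (nat_lit 286735) (nat_lit 3) (.e (nat_lit 98323) (nat_lit 17) (.e (nat_lit 6989) (nat_lit 377) (.e (nat_lit 977) (nat_lit 81) .nil)))))))) (.g (nat_lit 1) (.e (nat_lit 108859) (nat_lit 0) .nil) .nil))) 
(.lf (nat_lit 480115) (.g (nat_lit 2705) (.e (nat_lit 5931) (nat_lit 322) (.e (nat_lit 57373) (nat_lit 2) (.e (nat_lit 90174) (nat_lit 14) (.e (nat_lit 180250) (nat_lit 10) (.e (nat_lit 573489) (nat_lit 14) .nil))))) (.g (nat_lit 0) (.e (nat_lit 111441) (nat_lit 0) .nil) .nil))))) (.nd (nat_lit 8) (.nd (nat_lit 9) 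
(.lf (nat_lit 479475) (.g (nat_lit 3466) (.e (nat_lit 5626) (nat_lit 312) (.e (nat_lit 2668) (nat_lit 167) (.e (nat_lit 196666) (nat_lit 13) (.e (nat_lit 65610) (nat_lit 10) (.e (nat_lit 344117) (nat_lit 21) (.e (nat_lit 516102) (nat_lit 0) (.e (nat_lit 6989) (nat_lit 377) (.e (nat_lit 7936) (nat_lit 157) .nil)))))))) (.g (nat_lit 1) (.e (nat_lit 108486) (nat_lit 0) .nil) .nil))) 
(.lf (nat_lit 479987) (.g (nat_lit 3155) (.e (nat_lit 5780) (nat_lit 317) (.e (nat_lit 180245) (nat_lit 5) (.e (nat_lit 532569) (nat_lit 16) (.e (nat_lit 401448) (nat_lit 10) (.e (nat_lit 434227) (nat_lit 20) (.e (nat_lit 507929) (nat_lit 10) .nil)))))) (.g (nat_lit 1) (.e (nat_lit 111120) (nat_lit 0) .nil) .nil)))) (.nd (nat_lit 9) 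
(.lf (nat_lit 479731) (.g (nat_lit 1332) (.e (nat_lit 7936) (nat_lit 312) (.e (nat_lit 2685) (nat_lit 168) (.e (nat_lit 204868) (nat_lit 29) (.e (nat_lit 360466) (nat_lit 3) (.e (nat_lit 516142) (nat_lit 8) .nil))))) (.g (nat_lit 0) (.e (nat_lit 109548) (nat_lit 0) .nil) .nil))) 
(.lf (nat_lit 480243) (.g (nat_lit 2422) (.e (nat_lit 5936) (nat_lit 322) (.e (nat_lit 57373) (nat_lit 2) (.e (nat_lit 90174) (nat_lit 14) (.e (nat_lit 180250) (nat_lit 10) (.e (nat_lit 573489) (nat_lit 14) .nil))))) (.g (nat_lit 0) (.e (nat_lit 111569) (nat_lit 0) .nil) .nil))))))))) (.nd (nat_lit 4) (.nd (nat_lit 5) (.nd (nat_lit 6) (.nd (nat_lit 7) (.nd (nat_lit 8) (.nd (nat_lit 9) 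
(.lf (nat_lit 479243) (.g (nat_lit 1520) (.e (nat_lit 5224) (nat_lit 296) (.e (nat_lit 163871) (nat_lit 2) (.e (nat_lit 196656) (nat_lit 11) (.e (nat_lit 16466) (nat_lit 13) .nil)))) (.g (nat_lit 0) (.e (nat_lit 107531) (nat_lit 0) .nil) .nil))) 
(.lf (nat_lit 479755) (.g (nat_lit 2324) (.e (nat_lit 5750) (nat_lit 314) (.e (nat_lit 24662) (nat_lit 14) (.e (nat_lit 401459) (nat_lit 13) (.e (nat_lit 483354) (nat_lit 17) .nil)))) (.g (nat_lit 0) (.e (nat_lit 109616) (nat_lit 0) .nil) .nil)))) (.nd (nat_lit 9) 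
(.lf (nat_lit 479499) (.g (nat_lit 4008) (.e (nat_lit 5626) (nat_lit 312) (.e (nat_lit 2668) (nat_lit 167) (.e (nat_lit 196666) (nat_lit 13) (.e (nat_lit 65610) (nat_lit 10) (.e (nat_lit 344117) (nat_lit 21) (.e (nat_lit 516138) (nat_lit 7) (.e (nat_lit 417536) (nat_lit 10) .nil))))))) (.g (nat_lit 1) (.e (nat_lit 108510) (nat_lit 0) .nil) .nil))) 
(.lf (nat_lit 480011) (.g (nat_lit 1336) (.e (nat_lit 5818) (nat_lit 320) (.e (nat_lit 1193) (nat_lit 88) (.e (nat_lit 65623) (nat_lit 12) (.e (nat_lit 385106) (nat_lit 50) (.e (nat_lit 786481) (nat_lit 30) .nil))))) (.g (nat_lit 0) (.e (nat_lit 111235) (nat_lit 0) .nil) .nil))))) (.nd (nat_lit 8) (.nd (nat_lit 9) 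
(.lf (nat_lit 479371) (.g (nat_lit 1160) (.e (nat_lit 5199) (nat_lit 294) (.e (nat_lit 57412) (nat_lit 12) (.e (nat_lit 336176) (nat_lit 10) (.e (nat_lit 344157) (nat_lit 36) .nil)))) (.g (nat_lit 0) (.e (nat_lit 108310) (nat_lit 0) .nil) .nil))) 
(.lf (nat_lit 479883) (.g (nat_lit 2251) (.e (nat_lit 5762) (nat_lit 315) (.e (nat_lit 163962) (nat_lit 25) (.e (nat_lit 532535) (nat_lit 9) (.e (nat_lit 336163) (nat_lit 10) .nil)))) (.g (nat_lit 0) (.e (nat_lit 110051) (nat_lit 0) .nil) .nil)))) (.nd (nat_lit 9) 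
(.lf (nat_lit 479627) (.g (nat_lit 3112) (.e (nat_lit 5664) (nat_lit 312) (.e (nat_lit 3062) (nat_lit 190) (.e (nat_lit 475185) (nat_lit 29) (.e (nat_lit 557101) (nat_lit 13) (.e (nat_lit 172115) (nat_lit 10) (.e (nat_lit 434227) (nat_lit 20) (.e (nat_lit 515840) (nat_lit 10) .nil))))))) (.g (nat_lit 1) (.e (nat_lit 108904) (nat_lit 0) .nil) .nil))) 
(.lf (nat_lit 480139) (.g (nat_lit 4491) (.e (nat_lit 5933) (nat_lit 322) (.e (nat_lit 57375) (nat_lit 2) (.e (nat_lit 90174) (nat_lit 14) (.e (nat_lit 180251) (nat_lit 10) (.e (nat_lit 573489) (nat_lit 14) (.e (nat_lit 73755) (nat_lit 8) (.e (nat_lit 557091) (nat_lit 12) (.e (nat_lit 163841) (nat_lit 0) .nil)))))))) (.g (nat_lit 1) (.e (nat_lit 111465) (nat_lit 0) .nil) .nil)))))) 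
(.nd (nat_lit 7) (.nd (nat_lit 8) (.nd (nat_lit 9) 
(.lf (nat_lit 479307) (.g (nat_lit 744) (.e (nat_lit 5231) (nat_lit 296) (.e (nat_lit 163923) (nat_lit 15) (.e (nat_lit 450596) (nat_lit 17) .nil))) (.g (nat_lit 0) (.e (nat_lit 108007) (nat_lit 0) .nil) .nil))) 
(.lf (nat_lit 479819) (.g (nat_lit 2827) (.e (nat_lit 5756) (nat_lit 315) (.e (nat_lit 163962) (nat_lit 25) (.e (nat_lit 532549) (nat_lit 12) (.e (nat_lit 360466) (nat_lit 3) (.e (nat_lit 516142) (nat_lit 8) (.e (nat_lit 417819) (nat_lit 10) .nil)))))) (.g (nat_lit 1) (.e (nat_lit 109834) (nat_lit 0) .nil) .nil)))) (.nd (nat_lit 9) 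
(.lf (nat_lit 479563) (.g (nat_lit 2478) (.e (nat_lit 5627) (nat_lit 312) (.e (nat_lit 2668) (nat_lit 167) (.e (nat_lit 196666) (nat_lit 13) (.e (nat_lit 65619) (nat_lit 10) (.e (nat_lit 344117) (nat_lit 21) .nil))))) (.g (nat_lit 0) (.e (nat_lit 108701) (nat_lit 0) .nil) .nil))) 
(.lf (nat_lit 480075) (.g (nat_lit 1520) (.e (nat_lit 5906) (nat_lit 320) (.e (nat_lit 1211) (nat_lit 89) (.e (nat_lit 73782) (nat_lit 32) (.e (nat_lit 3090) (nat_lit 191) (.e (nat_lit 483400) (nat_lit 25) .nil))))) (.g (nat_lit 0) (.e (nat_lit 111323) (nat_lit 0) .nil) .nil))))) (.nd (nat_lit 8) (.nd (nat_lit 9) 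
(.lf (nat_lit 479435) (.g (nat_lit 3997) (.e (nat_lit 5616) (nat_lit 312) (.e (nat_lit 2668) (nat_lit 167) (.e (nat_lit 196666) (nat_lit 13) (.e (nat_lit 65610) (nat_lit 10) (.e (nat_lit 344117) (nat_lit 21) (.e (nat_lit 516139) (nat_lit 7) (.e (nat_lit 409609) (nat_lit 10) .nil))))))) (.g (nat_lit 1) (.e (nat_lit 108422) (nat_lit 0) .nil) .nil))) 
(.lf (nat_lit 479947) (.g (nat_lit 2400) (.e (nat_lit 5771) (nat_lit 316) (.e (nat_lit 172150) (nat_lit 27) (.e (nat_lit 335894) (nat_lit 0) (.e (nat_lit 6720) (nat_lit 361) (.e (nat_lit 172143) (nat_lit 25) (.e (nat_lit 319490) (nat_lit 0) .nil)))))) (.g (nat_lit 1) (.e (nat_lit 110275) (nat_lit 0) .nil) .nil)))) (.nd (nat_lit 9) 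
(.lf (nat_lit 479691) (.g (nat_lit 1104) (.e (nat_lit 5736) (nat_lit 312) (.e (nat_lit 299) (nat_lit 22) (.e (nat_lit 344069) (nat_lit 0) (.e (nat_lit 3090) (nat_lit 191) (.e (nat_lit 483372) (nat_lit 21) .nil))))) (.g (nat_lit 0) (.e (nat_lit 109206) (nat_lit 0) .nil) .nil))) 
(.lf (nat_lit 480203) (.g (nat_lit 1737) (.e (nat_lit 5934) (nat_lit 322) (.e (nat_lit 57375) (nat_lit 2) (.e (nat_lit 90174) (nat_lit 14) (.e (nat_lit 180243) (nat_lit 5) (.e (nat_lit 532515) (nat_lit 3) (.e (nat_lit 114715) (nat_lit 22) (.e (nat_lit 90165) (nat_lit 12) (.e (nat_lit 163853) (nat_lit 0) .nil)))))))) (.g (nat_lit 1) (.e (nat_lit 111529) (nat_lit 0) .nil) .nil))))))) 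
(.nd (nat_lit 6) (.nd (nat_lit 7) (.nd (nat_lit 8) (.nd (nat_lit 9) 
(.lf (nat_lit 479275) (.g (nat_lit 2255) (.e (nat_lit 5224) (nat_lit 296) (.e (nat_lit 163903) (nat_lit 12) (.e (nat_lit 426566) (nat_lit 34) (.e (nat_lit 393273) (nat_lit 23) (.e (nat_lit 426364) (nat_lit 15) (.e (nat_lit 1788) (nat_lit 119) (.e (nat_lit 516106) (nat_lit 0) (.e (nat_lit 2478) (nat_lit 157) .nil)))))))) (.g (nat_lit 1) (.e (nat_lit 107808) (nat_lit 0) .nil) .nil))) 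
(.lf (nat_lit 479787) (.g (nat_lit 1619) (.e (nat_lit 7936) (nat_lit 314) (.e (nat_lit 24662) (nat_lit 14) (.e (nat_lit 401459) (nat_lit 13) (.e (nat_lit 483374) (nat_lit 22) (.e (nat_lit 327705) (nat_lit 10) .nil))))) (.g (nat_lit 0) (.e (nat_lit 109731) (nat_lit 0) .nil) .nil)))) (.nd (nat_lit 9) 
(.lf (nat_lit 479531) (.g (nat_lit 2940) (.e (nat_lit 5626) (nat_lit 312) (.e (nat_lit 2685) (nat_lit 168) (.e (nat_lit 204869) (nat_lit 29) (.e (nat_lit 360474) (nat_lit 8) (.e (nat_lit 557064) (nat_lit 9) (.e (nat_lit 214) (nat_lit 19) (.e (nat_lit 319492) (nat_lit 0) .nil))))))) (.g (nat_lit 1) (.e (nat_lit 108653) (nat_lit 0) .nil) .nil))) 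
(.lf (nat_lit 480043) (.g (nat_lit 1761) (.e (nat_lit 5904) (nat_lit 320) (.e (nat_lit 1209) (nat_lit 89) (.e (nat_lit 73782) (nat_lit 32) (.e (nat_lit 3089) (nat_lit 191) (.e (nat_lit 483396) (nat_lit 24) .nil))))) (.g (nat_lit 0) (.e (nat_lit 111287) (nat_lit 0) .nil) .nil))))) (.nd (nat_lit 8) (.nd (nat_lit 9) 
(.lf (nat_lit 479403) (.g (nat_lit 2894) (.e (nat_lit 5612) (nat_lit 312) (.e (nat_lit 2668) (nat_lit 167) (.e (nat_lit 196666) (nat_lit 13) (.e (nat_lit 65610) (nat_lit 10) (.e (nat_lit 344117) (nat_lit 21) (.e (nat_lit 516106) (nat_lit 0) (.e (nat_lit 7008) (nat_lit 377) (.e (nat_lit 2422) (nat_lit 157) .nil)))))))) (.g (nat_lit 1) (.e (nat_lit 108355) (nat_lit 0) .nil) .nil))) 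
(.lf (nat_lit 479915) (.g (nat_lit 2813) (.e (nat_lit 7936) (nat_lit 315) (.e (nat_lit 163962) (nat_lit 25) (.e (nat_lit 532535) (nat_lit 9) (.e (nat_lit 336163) (nat_lit 10) (.e (nat_lit 344119) (nat_lit 21) .nil))))) (.g (nat_lit 0) (.e (nat_lit 110120) (nat_lit 0) .nil) .nil)))) (.nd (nat_lit 9) 
(.lf (nat_lit 479659) (.g (nat_lit 1086) (.e (nat_lit 5664) (nat_lit 312) (.e (nat_lit 3085) (nat_lit 191) (.e (nat_lit 483394) (nat_lit 24) (.e (nat_lit 344103) (nat_lit 18) .nil)))) (.g (nat_lit 0) (.e (nat_lit 108981) (nat_lit 0) .nil) .nil))) 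
(.lf (nat_lit 480171) (.g (nat_lit 2729) (.e (nat_lit 5934) (nat_lit 322) (.e (nat_lit 57371) (nat_lit 2) (.e (nat_lit 90174) (nat_lit 14) (.e (nat_lit 180252) (nat_lit 10) (.e (nat_lit 573489) (nat_lit 14) (.e (nat_lit 73755) (nat_lit 8) (.e (nat_lit 557090) (nat_lit 12) (.e (nat_lit 163854) (nat_lit 0) .nil)))))))) (.g (nat_lit 1) (.e (nat_lit 111497) (nat_lit 0) .nil) .nil)))))) 
(.nd (nat_lit 7) (.nd (nat_lit 8) (.nd (nat_lit 9) 
(.lf (nat_lit 479339) (.g (nat_lit 2087) (.e (nat_lit 5194) (nat_lit 294) (.e (nat_lit 57388) (nat_lit 5) (.e (nat_lit 114698) (nat_lit 11) (.e (nat_lit 426198) (nat_lit 9) (.e (nat_lit 426546) (nat_lit 30) (.e (nat_lit 360452) (nat_lit 0) .nil)))))) (.g (nat_lit 1) (.e (nat_lit 108204) (nat_lit 0) .nil) .nil))) 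
(.lf (nat_lit 479851) (.g (nat_lit 2221) (.e (nat_lit 5761) (nat_lit 315) (.e (nat_lit 163962) (nat_lit 25) (.e (nat_lit 532535) (nat_lit 9) (.e (nat_lit 336163) (nat_lit 10) .nil)))) (.g (nat_lit 0) (.e (nat_lit 109953) (nat_lit 0) .nil) .nil)))) (.nd (nat_lit 9) 
(.lf (nat_lit 479595) (.g (nat_lit 3901) (.e (nat_lit 5664) (nat_lit 312) (.e (nat_lit 2661) (nat_lit 167) (.e (nat_lit 196666) (nat_lit 13) (.e (nat_lit 65610) (nat_lit 10) (.e (nat_lit 344117) (nat_lit 21) (.e (nat_lit 516142) (nat_lit 8) (.e (nat_lit 425728) (nat_lit 10) .nil))))))) (.g (nat_lit 1) (.e (nat_lit 108848) (nat_lit 0) .nil) .nil))) 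
(.lf (nat_lit 480107) (.g (nat_lit 1338) (.e (nat_lit 5968) (nat_lit 324) (.e (nat_lit 163871) (nat_lit 2) (.e (nat_lit 196668) (nat_lit 14) (.e (nat_lit 73737) (nat_lit 0) .nil)))) (.g (nat_lit 0) (.e (nat_lit 111409) (nat_lit 0) .nil) .nil))))) (.nd (nat_lit 8) (.nd (nat_lit 9) 
(.lf (nat_lit 479467) (.g (nat_lit 4018) (.e (nat_lit 5626) (nat_lit 312) (.e (nat_lit 2668) (nat_lit 167) (.e (nat_lit 196666) (nat_lit 13) (.e (nat_lit 65610) (nat_lit 10) (.e (nat_lit 344117) (nat_lit 21) (.e (nat_lit 516099) (nat_lit 0) (.e (nat_lit 7936) (nat_lit 377) (.e (nat_lit 2508) (nat_lit 157) .nil)))))))) (.g (nat_lit 1) (.e (nat_lit 108478) (nat_lit 0) .nil) .nil))) 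
(.lf (nat_lit 479979) (.g (nat_lit 2697) (.e (nat_lit 5779) (nat_lit 317) (.e (nat_lit 188160) (nat_lit 5) (.e (nat_lit 532569) (nat_lit 16) (.e (nat_lit 401448) (nat_lit 10) (.e (nat_lit 434227) (nat_lit 20) (.e (nat_lit 507928) (nat_lit 10) .nil)))))) (.g (nat_lit 1) (.e (nat_lit 110944) (nat_lit 0) .nil) .nil)))) (.nd (nat_lit 9) 
(.lf (nat_lit 479723) (.g (nat_lit 2585) (.e (nat_lit 7936) (nat_lit 312) (.e (nat_lit 2668) (nat_lit 167) (.e (nat_lit 196666) (nat_lit 13) (.e (nat_lit 65592) (nat_lit 9) .nil)))) (.g (nat_lit 0) (.e (nat_lit 109526) (nat_lit 0) .nil) .nil))) 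
(.lf (nat_lit 480235) (.g (nat_lit 3249) (.e (nat_lit 5935) (nat_lit 322) (.e (nat_lit 57373) (nat_lit 2) (.e (nat_lit 90174) (nat_lit 14) (.e (nat_lit 180252) (nat_lit 10) (.e (nat_lit 573489) (nat_lit 14) .nil))))) (.g (nat_lit 0) (.e (nat_lit 111561) (nat_lit 0) .nil) .nil)))))))) (.nd (nat_lit 5) (.nd (nat_lit 6) (.nd (nat_lit 7) (.nd (nat_lit 8) (.nd (nat_lit 9) 
(.lf (nat_lit 479259) (.g (nat_lit 2459) (.e (nat_lit 5224) (nat_lit 296) (.e (nat_lit 163881) (nat_lit 4) (.e (nat_lit 213032) (nat_lit 11) (.e (nat_lit 24659) (nat_lit 13) (.e (nat_lit 393283) (nat_lit 24) (.e (nat_lit 434209) (nat_lit 18) .nil)))))) (.g (nat_lit 1) (.e (nat_lit 107785) (nat_lit 0) .nil) .nil))) 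
(.lf (nat_lit 479771) (.g (nat_lit 1686) (.e (nat_lit 7936) (nat_lit 314) (.e (nat_lit 24651) (nat_lit 12) (.e (nat_lit 385094) (nat_lit 49) (.e (nat_lit 778324) (nat_lit 5) (.e (nat_lit 73791) (nat_lit 45) .nil))))) (.g (nat_lit 0) (.e (nat_lit 109711) (nat_lit 0) .nil) .nil)))) (.nd (nat_lit 9) 
(.lf (nat_lit 479515) (.g (nat_lit 4033) (.e (nat_lit 5626) (nat_lit 312) (.e (nat_lit 2685) (nat_lit 168) (.e (nat_lit 204846) (nat_lit 24) (.e (nat_lit 319531) (nat_lit 16) (.e (nat_lit 286735) (nat_lit 3) (.e (nat_lit 98323) (nat_lit 17) (.e (nat_lit 6989) (nat_lit 377) (.e (nat_lit 977) (nat_lit 81) .nil)))))))) (.g (nat_lit 1) (.e (nat_lit 108574) (nat_lit 0) .nil) .nil))) 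
(.lf (nat_lit 480027) (.g (nat_lit 2106) (.e (nat_lit 5902) (nat_lit 320) (.e (nat_lit 1190) (nat_lit 88) (.e (nat_lit 65630) (nat_lit 14) (.e (nat_lit 401438) (nat_lit 9) (.e (nat_lit 426544) (nat_lit 30) .nil))))) (.g (nat_lit 0) (.e (nat_lit 111271) (nat_lit 0) .nil) .nil))))) (.nd (nat_lit 8) (.nd (nat_lit 9) 
(.lf (nat_lit 479387) (.g (nat_lit 608) (.e (nat_lit 5205) (nat_lit 294) (.e (nat_lit 57389) (nat_lit 5) (.e (nat_lit 114698) (nat_lit 11) .nil))) (.g (nat_lit 0) (.e (nat_lit 108329) (nat_lit 0) .nil) .nil))) 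
(.lf (nat_lit 479899) (.g (nat_lit 2946) (.e (nat_lit 5762) (nat_lit 315) (.e (nat_lit 163962) (nat_lit 25) (.e (nat_lit 532551) (nat_lit 12) (.e (nat_lit 360467) (nat_lit 3) (.e (nat_lit 516139) (nat_lit 7) (.e (nat_lit 409617) (nat_lit 10) .nil)))))) (.g (nat_lit 1) (.e (nat_lit 110089) (nat_lit 0) .nil) .nil)))) (.nd (nat_lit 9) 
(.lf (nat_lit 479643) (.g (nat_lit 1539) (.e (nat_lit 5664) (nat_lit 312) (.e (nat_lit 3085) (nat_lit 191) (.e (nat_lit 483346) (nat_lit 17) (.e (nat_lit 6084) (nat_lit 332) .nil)))) (.g (nat_lit 0) (.e (nat_lit 108941) (nat_lit 0) .nil) .nil))) 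
(.lf (nat_lit 480155) (.g (nat_lit 2549) (.e (nat_lit 5934) (nat_lit 322) (.e (nat_lit 57371) (nat_lit 2) (.e (nat_lit 90174) (nat_lit 14) (.e (nat_lit 180243) (nat_lit 5) (.e (nat_lit 532515) (nat_lit 3) (.e (nat_lit 114719) (nat_lit 23) (.e (nat_lit 98325) (nat_lit 17) (.e (nat_lit 2515) (nat_lit 157) .nil)))))))) (.g (nat_lit 1) (.e (nat_lit 111481) (nat_lit 0) .nil) .nil)))))) 
(.nd (nat_lit 7) (.nd (nat_lit 8) (.nd (nat_lit 9) 
(.lf (nat_lit 479323) (.g (nat_lit 1088) (.e (nat_lit 5190) (nat_lit 294) (.e (nat_lit 57407) (nat_lit 12) (.e (nat_lit 336367) (nat_lit 27) (.e (nat_lit 426546) (nat_lit 30) .nil)))) (.g (nat_lit 0) (.e (nat_lit 108149) (nat_lit 0) .nil) .nil))) 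
(.lf (nat_lit 479835) (.g (nat_lit 808) (.e (nat_lit 5760) (nat_lit 315) (.e (nat_lit 163978) (nat_lit 30) (.e (nat_lit 573489) (nat_lit 14) .nil))) (.g (nat_lit 0) (.e (nat_lit 109882) (nat_lit 0) .nil) .nil)))) (.nd (nat_lit 9) 
(.lf (nat_lit 479579) (.g (nat_lit 2213) (.e (nat_lit 5645) (nat_lit 312) (.e (nat_lit 3062) (nat_lit 190) (.e (nat_lit 475185) (nat_lit 29) (.e (nat_lit 557101) (nat_lit 13) (.e (nat_lit 172115) (nat_lit 10) .nil))))) (.g (nat_lit 0) (.e (nat_lit 108814) (nat_lit 0) .nil) .nil))) 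
(.lf (nat_lit 480091) (.g (nat_lit 1308) (.e (nat_lit 7936) (nat_lit 320) (.e (nat_lit 1196) (nat_lit 88) (.e (nat_lit 65624) (nat_lit 12) (.e (nat_lit 385102) (nat_lit 50) .nil)))) (.g (nat_lit 0) (.e (nat_lit 111352) (nat_lit 0) .nil) .nil))))) (.nd (nat_lit 8) (.nd (nat_lit 9) 
(.lf (nat_lit 479451) (.g (nat_lit 1957) (.e (nat_lit 5629) (nat_lit 312) (.e (nat_lit 351) (nat_lit 28) (.e (nat_lit 393301) (nat_lit 27) (.e (nat_lit 491577) (nat_lit 15) .nil)))) (.g (nat_lit 0) (.e (nat_lit 108450) (nat_lit 0) .nil) .nil))) 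
(.lf (nat_lit 479963) (.g (nat_lit 946) (.e (nat_lit 5772) (nat_lit 316) (.e (nat_lit 172143) (nat_lit 25) (.e (nat_lit 319491) (nat_lit 0) (.e (nat_lit 5771) (nat_lit 316) (.e (nat_lit 172144) (nat_lit 26) (.e (nat_lit 327684) (nat_lit 0) .nil)))))) (.g (nat_lit 1) (.e (nat_lit 110316) (nat_lit 0) .nil) .nil)))) (.nd (nat_lit 9) 
(.lf (nat_lit 479707) (.g (nat_lit 1782) (.e (nat_lit 5710) (nat_lit 312) (.e (nat_lit 2664) (nat_lit 167) (.e (nat_lit 196672) (nat_lit 15) (.e (nat_lit 81954) (nat_lit 23) (.e (nat_lit 98353) (nat_lit 25) .nil))))) (.g (nat_lit 0) (.e (nat_lit 109244) (nat_lit 0) .nil) .nil))) 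
(.lf (nat_lit 480219) (.g (nat_lit 2072) (.e (nat_lit 5934) (nat_lit 322) (.e (nat_lit 57377) (nat_lit 3) (.e (nat_lit 98365) (nat_lit 26) (.e (nat_lit 426325) (nat_lit 13) (.e (nat_lit 491264) (nat_lit 10) (.e (nat_lit 434208) (nat_lit 18) .nil)))))) (.g (nat_lit 1) (.e (nat_lit 111545) (nat_lit 0) .nil) .nil))))))) (.nd (nat_lit 6) (.nd (nat_lit 7) (.nd (nat_lit 8) (.nd (nat_lit 9) 
(.lf (nat_lit 479291) (.g (nat_lit 2065) (.e (nat_lit 5224) (nat_lit 296) (.e (nat_lit 163933) (nat_lit 17) (.e (nat_lit 466972) (nat_lit 21) (.e (nat_lit 164319) (nat_lit 228) (.e (nat_lit 57427) (nat_lit 15) (.e (nat_lit 368384) (nat_lit 0) .nil)))))) (.g (nat_lit 1) (.e (nat_lit 107892) (nat_lit 0) .nil) .nil))) 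
(.lf (nat_lit 479803) (.g (nat_lit 3263) (.e (nat_lit 5756) (nat_lit 315) (.e (nat_lit 163962) (nat_lit 25) (.e (nat_lit 532547) (nat_lit 11) (.e (nat_lit 352314) (nat_lit 23) (.e (nat_lit 98350) (nat_lit 24) (.e (nat_lit 409616) (nat_lit 10) .nil)))))) (.g (nat_lit 1) (.e (nat_lit 109813) (nat_lit 0) .nil) .nil)))) (.nd (nat_lit 9) 
(.lf (nat_lit 479547) (.g (nat_lit 3894) (.e (nat_lit 5627) (nat_lit 312) (.e (nat_lit 2668) (nat_lit 167) (.e (nat_lit 196666) (nat_lit 13) (.e (nat_lit 65610) (nat_lit 10) (.e (nat_lit 344117) (nat_lit 21) (.e (nat_lit 516099) (nat_lit 0) (.e (nat_lit 7062) (nat_lit 377) (.e (nat_lit 2442) (nat_lit 157) .nil)))))))) (.g (nat_lit 1) (.e (nat_lit 108685) (nat_lit 0) .nil) .nil))) 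
(.lf (nat_lit 480059) (.g (nat_lit 450) (.e (nat_lit 5905) (nat_lit 320) (.e (nat_lit 1221) (nat_lit 90) (.e (nat_lit 81922) (nat_lit 0) .nil))) (.g (nat_lit 0) (.e (nat_lit 111307) (nat_lit 0) .nil) .nil))))) (.nd (nat_lit 8) (.nd (nat_lit 9) 
(.lf (nat_lit 479419) (.g (nat_lit 2882) (.e (nat_lit 5612) (nat_lit 312) (.e (nat_lit 3062) (nat_lit 190) (.e (nat_lit 475185) (nat_lit 29) (.e (nat_lit 557100) (nat_lit 13) (.e (nat_lit 172113) (nat_lit 10) .nil))))) (.g (nat_lit 0) (.e (nat_lit 108385) (nat_lit 0) .nil) .nil))) 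
(.lf (nat_lit 479931) (.g (nat_lit 1917) (.e (nat_lit 5766) (nat_lit 316) (.e (nat_lit 172150) (nat_lit 27) (.e (nat_lit 336231) (nat_lit 14) (.e (nat_lit 401444) (nat_lit 9) (.e (nat_lit 433920) (nat_lit 25) .nil))))) (.g (nat_lit 0) (.e (nat_lit 110177) (nat_lit 0) .nil) .nil)))) (.nd (nat_lit 9) 
(.lf (nat_lit 479675) (.g (nat_lit 2213) (.e (nat_lit 5664) (nat_lit 312) (.e (nat_lit 3085) (nat_lit 191) (.e (nat_lit 483413) (nat_lit 27) (.e (nat_lit 401445) (nat_lit 9) .nil)))) (.g (nat_lit 0) (.e (nat_lit 109043) (nat_lit 0) .nil) .nil))) 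
(.lf (nat_lit 480187) (.g (nat_lit 2642) (.e (nat_lit 5934) (nat_lit 322) (.e (nat_lit 57372) (nat_lit 2) (.e (nat_lit 90174) (nat_lit 14) (.e (nat_lit 180252) (nat_lit 10) (.e (nat_lit 573489) (nat_lit 14) (.e (nat_lit 73755) (nat_lit 8) (.e (nat_lit 557090) (nat_lit 12) (.e (nat_lit 163849) (nat_lit 0) .nil)))))))) (.g (nat_lit 1) (.e (nat_lit 111513) (nat_lit 0) .nil) .nil)))))) 
(.nd (nat_lit 7) (.nd (nat_lit 8) (.nd (nat_lit 9) 
(.lf (nat_lit 479355) (.g (nat_lit 1738) (.e (nat_lit 5195) (nat_lit 294) (.e (nat_lit 57390) (nat_lit 5) (.e (nat_lit 114697) (nat_lit 11) (.e (nat_lit 426197) (nat_lit 9) (.e (nat_lit 426544) (nat_lit 30) (.e (nat_lit 360453) (nat_lit 0) .nil)))))) (.g (nat_lit 1) (.e (nat_lit 108262) (nat_lit 0) .nil) .nil))) 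
(.lf (nat_lit 479867) (.g (nat_lit 3302) (.e (nat_lit 5761) (nat_lit 315) (.e (nat_lit 163962) (nat_lit 25) (.e (nat_lit 532549) (nat_lit 12) (.e (nat_lit 360466) (nat_lit 3) (.e (nat_lit 516142) (nat_lit 8) (.e (nat_lit 417820) (nat_lit 10) .nil)))))) (.g (nat_lit 1) (.e (nat_lit 110006) (nat_lit 0) .nil) .nil)))) (.nd (nat_lit 9) 
(.lf (nat_lit 479611) (.g (nat_lit 3329) (.e (nat_lit 5664) (nat_lit 312) (.e (nat_lit 2679) (nat_lit 168) (.e (nat_lit 204846) (nat_lit 24) (.e (nat_lit 319534) (nat_lit 16) (.e (nat_lit 286734) (nat_lit 3) (.e (nat_lit 98323) (nat_lit 17) (.e (nat_lit 6989) (nat_lit 377) (.e (nat_lit 977) (nat_lit 81) .nil)))))))) (.g (nat_lit 1) (.e (nat_lit 108871) (nat_lit 0) .nil) .nil))) 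
(.lf (nat_lit 480123) (.g (nat_lit 2775) (.e (nat_lit 5932) (nat_lit 322) (.e (nat_lit 57372) (nat_lit 2) (.e (nat_lit 90174) (nat_lit 14) (.e (nat_lit 180251) (nat_lit 10) (.e (nat_lit 573489) (nat_lit 14) .nil))))) (.g (nat_lit 0) (.e (nat_lit 111449) (nat_lit 0) .nil) .nil))))) (.nd (nat_lit 8) (.nd (nat_lit 9) 
(.lf (nat_lit 479483) (.g (nat_lit 3246) (.e (nat_lit 5626) (nat_lit 312) (.e (nat_lit 2668) (nat_lit 167) (.e (nat_lit 196666) (nat_lit 13) (.e (nat_lit 65610) (nat_lit 10) (.e (nat_lit 344117) (nat_lit 21) (.e (nat_lit 516106) (nat_lit 0) (.e (nat_lit 6966) (nat_lit 377) (.e (nat_lit 2503) (nat_lit 157) .nil)))))))) (.g (nat_lit 1) (.e (nat_lit 108494) (nat_lit 0) .nil) .nil))) 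
(.lf (nat_lit 479995) (.g (nat_lit 1683) (.e (nat_lit 5799) (nat_lit 320) (.e (nat_lit 2553) (nat_lit 159) (.e (nat_lit 24640) (nat_lit 10) (.e (nat_lit 344156) (nat_lit 36) (.e (nat_lit 638998) (nat_lit 8) .nil))))) (.g (nat_lit 0) (.e (nat_lit 111211) (nat_lit 0) .nil) .nil)))) (.nd (nat_lit 9) 
(.lf (nat_lit 479739) (.g (nat_lit 4942) (.e (nat_lit 5747) (nat_lit 314) (.e (nat_lit 24662) (nat_lit 14) (.e (nat_lit 401459) (nat_lit 13) (.e (nat_lit 483372) (nat_lit 21) (.e (nat_lit 319502) (nat_lit 10) .nil))))) (.g (nat_lit 0) (.e (nat_lit 109561) (nat_lit 0) .nil) .nil))) 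
(.lf (nat_lit 480251) (.g (nat_lit 1560) (.e (nat_lit 5936) (nat_lit 322) (.e (nat_lit 57411) (nat_lit 12) (.e (nat_lit 336208) (nat_lit 12) (.e (nat_lit 385102) (nat_lit 50) .nil)))) (.g (nat_lit 0) (.e (nat_lit 111579) (nat_lit 0) .nil) .nil)))))))))) (.nd (nat_lit 3) (.nd (nat_lit 4) (.nd (nat_lit 5) (.nd (nat_lit 6) (.nd (nat_lit 7) (.nd (nat_lit 8) (.nd (nat_lit 9) 
(.lf (nat_lit 479239) (.g (nat_lit 2081) (.e (nat_lit 5224) (nat_lit 296) (.e (nat_lit 163871) (nat_lit 2) (.e (nat_lit 196656) (nat_lit 11) (.e (nat_lit 16463) (nat_lit 13) (.e (nat_lit 491264) (nat_lit 10) (.e (nat_lit 434213) (nat_lit 18) .nil)))))) (.g (nat_lit 1) (.e (nat_lit 107526) (nat_lit 0) .nil) .nil))) 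
(.lf (nat_lit 479751) (.g (nat_lit 520) (.e (nat_lit 5750) (nat_lit 314) (.e (nat_lit 24662) (nat_lit 14) (.e (nat_lit 401459) (nat_lit 13) .nil))) (.g (nat_lit 0) (.e (nat_lit 109612) (nat_lit 0) .nil) .nil)))) (.nd (nat_lit 9) 
(.lf (nat_lit 479495) (.g (nat_lit 2847) (.e (nat_lit 5626) (nat_lit 312) (.e (nat_lit 2668) (nat_lit 167) (.e (nat_lit 196666) (nat_lit 13) (.e (nat_lit 65610) (nat_lit 10) (.e (nat_lit 344117) (nat_lit 21) (.e (nat_lit 516106) (nat_lit 0) (.e (nat_lit 7936) (nat_lit 377) (.e (nat_lit 2505) (nat_lit 157) .nil)))))))) (.g (nat_lit 1) (.e (nat_lit 108506) (nat_lit 0) .nil) .nil))) 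
(.lf (nat_lit 480007) (.g (nat_lit 2228) (.e (nat_lit 5818) (nat_lit 320) (.e (nat_lit 1183) (nat_lit 87) (.e (nat_lit 57479) (nat_lit 28) (.e (nat_lit 557095) (nat_lit 13) (.e (nat_lit 172115) (nat_lit 10) .nil))))) (.g (nat_lit 0) (.e (nat_lit 111230) (nat_lit 0) .nil) .nil))))) (.nd (nat_lit 8) (.nd (nat_lit 9) 
(.lf (nat_lit 479367) (.g (nat_lit 1538) (.e (nat_lit 5195) (nat_lit 294) (.e (nat_lit 57428) (nat_lit 15) (.e (nat_lit 360480) (nat_lit 14) (.e (nat_lit 638986) (nat_lit 5) (.e (nat_lit 3027) (nat_lit 187) (.e (nat_lit 458496) (nat_lit 0) .nil)))))) (.g (nat_lit 1) (.e (nat_lit 108295) (nat_lit 0) .nil) .nil))) 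
(.lf (nat_lit 479879) (.g (nat_lit 2682) (.e (nat_lit 5762) (nat_lit 315) (.e (nat_lit 163962) (nat_lit 25) (.e (nat_lit 532535) (nat_lit 9) (.e (nat_lit 336099) (nat_lit 9) (.e (nat_lit 336013) (nat_lit 2) .nil))))) (.g (nat_lit 0) (.e (nat_lit 110044) (nat_lit 0) .nil) .nil)))) (.nd (nat_lit 9) 
(.lf (nat_lit 479623) (.g (nat_lit 2592) (.e (nat_lit 5664) (nat_lit 312) (.e (nat_lit 2679) (nat_lit 168) (.e (nat_lit 204869) (nat_lit 29) (.e (nat_lit 360465) (nat_lit 3) (.e (nat_lit 516139) (nat_lit 7) .nil))))) (.g (nat_lit 0) (.e (nat_lit 108886) (nat_lit 0) .nil) .nil))) 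
(.lf (nat_lit 480135) (.g (nat_lit 3283) (.e (nat_lit 5933) (nat_lit 322) (.e (nat_lit 57375) (nat_lit 2) (.e (nat_lit 90173) (nat_lit 14) (.e (nat_lit 180252) (nat_lit 10) (.e (nat_lit 573489) (nat_lit 14) (.e (nat_lit 73755) (nat_lit 8) (.e (nat_lit 557090) (nat_lit 12) (.e (nat_lit 163841) (nat_lit 0) .nil)))))))) (.g (nat_lit 1) (.e (nat_lit 111461) (nat_lit 0) .nil) .nil)))))) 
(.nd (nat_lit 7) (.nd (nat_lit 8) (.nd (nat_lit 9) 
(.lf (nat_lit 479303) (.g (nat_lit 971) (.e (nat_lit 5229) (nat_lit 296) (.e (nat_lit 163923) (nat_lit 15) (.e (nat_lit 450596) (nat_lit 17) (.e (nat_lit 663574) (nat_lit 9) .nil)))) (.g (nat_lit 0) (.e (nat_lit 107981) (nat_lit 0) .nil) .nil))) 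
(.lf (nat_lit 479815) (.g (nat_lit 2480) (.e (nat_lit 5756) (nat_lit 315) (.e (nat_lit 163962) (nat_lit 25) (.e (nat_lit 532549) (nat_lit 12) (.e (nat_lit 360466) (nat_lit 3) (.e (nat_lit 516142) (nat_lit 8) (.e (nat_lit 417814) (nat_lit 10) .nil)))))) (.g (nat_lit 1) (.e (nat_lit 109830) (nat_lit 0) .nil) .nil)))) (.nd (nat_lit 9) 
(.lf (nat_lit 479559) (.g (nat_lit 2712) (.e (nat_lit 5627) (nat_lit 312) (.e (nat_lit 2668) (nat_lit 167) (.e (nat_lit 196666) (nat_lit 13) (.e (nat_lit 65610) (nat_lit 10) (.e (nat_lit 344117) (nat_lit 21) (.e (nat_lit 516106) (nat_lit 0) (.e (nat_lit 7016) (nat_lit 377) (.e (nat_lit 2446) (nat_lit 157) .nil)))))))) (.g (nat_lit 1) (.e (nat_lit 108697) (nat_lit 0) .nil) .nil))) 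
(.lf (nat_lit 480071) (.g (nat_lit 2231) (.e (nat_lit 5906) (nat_lit 320) (.e (nat_lit 1209) (nat_lit 89) (.e (nat_lit 73782) (nat_lit 32) (.e (nat_lit 2856) (nat_lit 184) (.e (nat_lit 426546) (nat_lit 30) (.e (nat_lit 368384) (nat_lit 0) .nil)))))) (.g (nat_lit 1) (.e (nat_lit 111319) (nat_lit 0) .nil) .nil))))) (.nd (nat_lit 8) (.nd (nat_lit 9) 
(.lf (nat_lit 479431) (.g (nat_lit 3659) (.e (nat_lit 5616) (nat_lit 312) (.e (nat_lit 2668) (nat_lit 167) (.e (nat_lit 196666) (nat_lit 13) (.e (nat_lit 65610) (nat_lit 10) (.e (nat_lit 344117) (nat_lit 21) (.e (nat_lit 516106) (nat_lit 0) (.e (nat_lit 7008) (nat_lit 377) (.e (nat_lit 2422) (nat_lit 157) .nil)))))))) (.g (nat_lit 1) (.e (nat_lit 108418) (nat_lit 0) .nil) .nil))) 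
(.lf (nat_lit 479943) (.g (nat_lit 494) (.e (nat_lit 5771) (nat_lit 316) (.e (nat_lit 172149) (nat_lit 27) (.e (nat_lit 335872) (nat_lit 0) (.e (nat_lit 6719) (nat_lit 361) (.e (nat_lit 172143) (nat_lit 25) (.e (nat_lit 319493) (nat_lit 0) .nil)))))) (.g (nat_lit 1) (.e (nat_lit 110271) (nat_lit 0) .nil) .nil)))) (.nd (nat_lit 9) 
(.lf (nat_lit 479687) (.g (nat_lit 3143) (.e (nat_lit 5688) (nat_lit 312) (.e (nat_lit 2664) (nat_lit 167) (.e (nat_lit 196666) (nat_lit 13) (.e (nat_lit 65610) (nat_lit 10) (.e (nat_lit 344117) (nat_lit 21) (.e (nat_lit 516106) (nat_lit 0) (.e (nat_lit 6986) (nat_lit 377) (.e (nat_lit 2402) (nat_lit 157) .nil)))))))) (.g (nat_lit 1) (.e (nat_lit 109126) (nat_lit 0) .nil) .nil))) 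
(.lf (nat_lit 480199) (.g (nat_lit 2777) (.e (nat_lit 5934) (nat_lit 322) (.e (nat_lit 57375) (nat_lit 2) (.e (nat_lit 90174) (nat_lit 14) (.e (nat_lit 180243) (nat_lit 5) (.e (nat_lit 532513) (nat_lit 3) (.e (nat_lit 114714) (nat_lit 22) (.e (nat_lit 90181) (nat_lit 16) (.e (nat_lit 229376) (nat_lit 0) .nil)))))))) (.g (nat_lit 1) (.e (nat_lit 111525) (nat_lit 0) .nil) .nil))))))) 
(.nd (nat_lit 6) (.nd (nat_lit 7) (.nd (nat_lit 8) (.nd (nat_lit 9) 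
(.lf (nat_lit 479271) (.g (nat_lit 2059) (.e (nat_lit 5224) (nat_lit 296) (.e (nat_lit 163903) (nat_lit 12) (.e (nat_lit 426479) (nat_lit 27) (.e (nat_lit 336434) (nat_lit 30) (.e (nat_lit 450586) (nat_lit 10) (.e (nat_lit 573473) (nat_lit 12) (.e (nat_lit 65280) (nat_lit 0) .nil))))))) (.g (nat_lit 1) (.e (nat_lit 107804) (nat_lit 0) .nil) .nil))) 
(.lf (nat_lit 479783) (.g (nat_lit 2106) (.e (nat_lit 7936) (nat_lit 314) (.e (nat_lit 24662) (nat_lit 14) (.e (nat_lit 401459) (nat_lit 13) (.e (nat_lit 483371) (nat_lit 21) (.e (nat_lit 319502) (nat_lit 10) .nil))))) (.g (nat_lit 0) (.e (nat_lit 109727) (nat_lit 0) .nil) .nil)))) (.nd (nat_lit 9) 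
(.lf (nat_lit 479527) (.g (nat_lit 3648) (.e (nat_lit 5626) (nat_lit 312) (.e (nat_lit 2685) (nat_lit 168) (.e (nat_lit 204868) (nat_lit 29) (.e (nat_lit 360475) (nat_lit 8) (.e (nat_lit 557068) (nat_lit 9) (.e (nat_lit 214) (nat_lit 19) (.e (nat_lit 319493) (nat_lit 0) .nil))))))) (.g (nat_lit 1) (.e (nat_lit 108646) (nat_lit 0) .nil) .nil))) 
(.lf (nat_lit 480039) (.g (nat_lit 1134) (.e (nat_lit 5902) (nat_lit 320) (.e (nat_lit 1211) (nat_lit 89) (.e (nat_lit 73781) (nat_lit 32) (.e (nat_lit 2857) (nat_lit 184) (.e (nat_lit 426544) (nat_lit 30) .nil))))) (.g (nat_lit 0) (.e (nat_lit 111283) (nat_lit 0) .nil) .nil))))) (.nd (nat_lit 8) (.nd (nat_lit 9) 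
(.lf (nat_lit 479399) (.g (nat_lit 2081) (.e (nat_lit 5612) (nat_lit 312) (.e (nat_lit 2668) (nat_lit 167) (.e (nat_lit 196666) (nat_lit 13) (.e (nat_lit 65610) (nat_lit 10) (.e (nat_lit 344117) (nat_lit 21) (.e (nat_lit 516106) (nat_lit 0) (.e (nat_lit 6986) (nat_lit 377) (.e (nat_lit 2410) (nat_lit 157) .nil)))))))) (.g (nat_lit 1) (.e (nat_lit 108351) (nat_lit 0) .nil) .nil))) 
(.lf (nat_lit 479911) (.g (nat_lit 2305) (.e (nat_lit 5763) (nat_lit 315) (.e (nat_lit 164023) (nat_lit 46) (.e (nat_lit 704737) (nat_lit 11) (.e (nat_lit 16468) (nat_lit 13) (.e (nat_lit 483372) (nat_lit 21) (.e (nat_lit 327424) (nat_lit 10) .nil)))))) (.g (nat_lit 1) (.e (nat_lit 110113) (nat_lit 0) .nil) .nil)))) (.nd (nat_lit 9) 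
(.lf (nat_lit 479655) (.g (nat_lit 359) (.e (nat_lit 5664) (nat_lit 312) (.e (nat_lit 3085) (nat_lit 191) (.e (nat_lit 483377) (nat_lit 22) .nil))) (.g (nat_lit 0) (.e (nat_lit 108968) (nat_lit 0) .nil) .nil))) 
(.lf (nat_lit 480167) (.g (nat_lit 4279) (.e (nat_lit 5934) (nat_lit 322) (.e (nat_lit 57371) (nat_lit 2) (.e (nat_lit 90174) (nat_lit 14) (.e (nat_lit 180251) (nat_lit 10) (.e (nat_lit 573489) (nat_lit 14) (.e (nat_lit 73755) (nat_lit 8) (.e (nat_lit 557091) (nat_lit 12) (.e (nat_lit 163847) (nat_lit 0) .nil)))))))) (.g (nat_lit 1) (.e (nat_lit 111493) (nat_lit 0) .nil) .nil)))))) 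
(.nd (nat_lit 7) (.nd (nat_lit 8) (.nd (nat_lit 9) 
(.lf (nat_lit 479335) (.g (nat_lit 848) (.e (nat_lit 5194) (nat_lit 294) (.e (nat_lit 57372) (nat_lit 2) (.e (nat_lit 90159) (nat_lit 11) (.e (nat_lit 24657) (nat_lit 13) .nil)))) (.g (nat_lit 0) (.e (nat_lit 108192) (nat_lit 0) .nil) .nil))) 
(.lf (nat_lit 479847) (.g (nat_lit 1571) (.e (nat_lit 5761) (nat_lit 315) (.e (nat_lit 163962) (nat_lit 25) (.e (nat_lit 532535) (nat_lit 9) (.e (nat_lit 336099) (nat_lit 9) .nil)))) (.g (nat_lit 0) (.e (nat_lit 109942) (nat_lit 0) .nil) .nil)))) (.nd (nat_lit 9) 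
(.lf (nat_lit 479591) (.g (nat_lit 1892) (.e (nat_lit 5664) (nat_lit 312) (.e (nat_lit 2661) (nat_lit 167) (.e (nat_lit 196666) (nat_lit 13) (.e (nat_lit 65610) (nat_lit 10) (.e (nat_lit 344117) (nat_lit 21) (.e (nat_lit 516106) (nat_lit 0) (.e (nat_lit 7008) (nat_lit 377) (.e (nat_lit 7936) (nat_lit 157) .nil)))))))) (.g (nat_lit 1) (.e (nat_lit 108844) (nat_lit 0) .nil) .nil))) 
(.lf (nat_lit 480103) (.g (nat_lit 2103) (.e (nat_lit 5968) (nat_lit 324) (.e (nat_lit 163871) (nat_lit 2) (.e (nat_lit 196665) (nat_lit 13) (.e (nat_lit 65637) (nat_lit 15) (.e (nat_lit 3747) (nat_lit 228) .nil))))) (.g (nat_lit 0) (.e (nat_lit 111405) (nat_lit 0) .nil) .nil))))) (.nd (nat_lit 8) (.nd (nat_lit 9) 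
(.lf (nat_lit 479463) (.g (nat_lit 3330) (.e (nat_lit 5626) (nat_lit 312) (.e (nat_lit 2668) (nat_lit 167) (.e (nat_lit 196666) (nat_lit 13) (.e (nat_lit 65610) (nat_lit 10) (.e (nat_lit 344117) (nat_lit 21) (.e (nat_lit 516098) (nat_lit 0) (.e (nat_lit 6965) (nat_lit 377) (.e (nat_lit 2509) (nat_lit 157) .nil)))))))) (.g (nat_lit 1) (.e (nat_lit 108474) (nat_lit 0) .nil) .nil))) 
(.lf (nat_lit 479975) (.g (nat_lit 2899) (.e (nat_lit 5779) (nat_lit 317) (.e (nat_lit 180243) (nat_lit 5) (.e (nat_lit 532569) (nat_lit 16) (.e (nat_lit 401448) (nat_lit 10) (.e (nat_lit 434226) (nat_lit 20) (.e (nat_lit 507929) (nat_lit 10) .nil)))))) (.g (nat_lit 1) (.e (nat_lit 110937) (nat_lit 0) .nil) .nil)))) (.nd (nat_lit 9) 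
(.lf (nat_lit 479719) (.g (nat_lit 1505) (.e (nat_lit 7936) (nat_lit 312) (.e (nat_lit 2663) (nat_lit 167) (.e (nat_lit 196666) (nat_lit 13) (.e (nat_lit 65617) (nat_lit 10) .nil)))) (.g (nat_lit 0) (.e (nat_lit 109511) (nat_lit 0) .nil) .nil))) 
(.lf (nat_lit 480231) (.g (nat_lit 3566) (.e (nat_lit 5934) (nat_lit 322) (.e (nat_lit 57451) (nat_lit 20) (.e (nat_lit 401451) (nat_lit 12) (.e (nat_lit 475207) (nat_lit 41) (.e (nat_lit 712755) (nat_lit 30) (.e (nat_lit 450563) (nat_lit 0) .nil)))))) (.g (nat_lit 1) (.e (nat_lit 111557) (nat_lit 0) .nil) .nil)))))))) 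
(.nd (nat_lit 5) (.nd (nat_lit 6) (.nd (nat_lit 7) (.nd (nat_lit 8) (.nd (nat_lit 9) 
(.lf (nat_lit 479255) (.g (nat_lit 1811) (.e (nat_lit 5224) (nat_lit 296) (.e (nat_lit 163877) (nat_lit 4) (.e (nat_lit 213032) (nat_lit 11) (.e (nat_lit 24660) (nat_lit 13) (.e (nat_lit 393282) (nat_lit 24) (.e (nat_lit 434209) (nat_lit 18) .nil)))))) (.g (nat_lit 1) (.e (nat_lit 107777) (nat_lit 0) .nil) .nil))) 
(.lf (nat_lit 479767) (.g (nat_lit 2190) (.e (nat_lit 5751) (nat_lit 314) (.e (nat_lit 24662) (nat_lit 14) (.e (nat_lit 401459) (nat_lit 13) (.e (nat_lit 483350) (nat_lit 17) .nil)))) (.g (nat_lit 0) (.e (nat_lit 109691) (nat_lit 0) .nil) .nil)))) (.nd (nat_lit 9) 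
(.lf (nat_lit 479511) (.g (nat_lit 2214) (.e (nat_lit 5626) (nat_lit 312) (.e (nat_lit 2668) (nat_lit 167) (.e (nat_lit 196674) (nat_lit 15) (.e (nat_lit 81955) (nat_lit 23) (.e (nat_lit 98353) (nat_lit 25) .nil))))) (.g (nat_lit 0) (.e (nat_lit 108565) (nat_lit 0) .nil) .nil))) 
(.lf (nat_lit 480023) (.g (nat_lit 1580) (.e (nat_lit 5896) (nat_lit 320) (.e (nat_lit 1190) (nat_lit 88) (.e (nat_lit 65628) (nat_lit 14) (.e (nat_lit 401437) (nat_lit 9) (.e (nat_lit 426544) (nat_lit 30) .nil))))) (.g (nat_lit 0) (.e (nat_lit 111266) (nat_lit 0) .nil) .nil))))) (.nd (nat_lit 8) (.nd (nat_lit 9) 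
(.lf (nat_lit 479383) (.g (nat_lit 1160) (.e (nat_lit 5202) (nat_lit 294) (.e (nat_lit 57412) (nat_lit 12) (.e (nat_lit 336176) (nat_lit 10) (.e (nat_lit 344157) (nat_lit 36) .nil)))) (.g (nat_lit 0) (.e (nat_lit 108325) (nat_lit 0) .nil) .nil))) 
(.lf (nat_lit 479895) (.g (nat_lit 3040) (.e (nat_lit 5762) (nat_lit 315) (.e (nat_lit 163962) (nat_lit 25) (.e (nat_lit 532549) (nat_lit 12) (.e (nat_lit 360466) (nat_lit 3) (.e (nat_lit 516138) (nat_lit 7) (.e (nat_lit 409612) (nat_lit 10) .nil)))))) (.g (nat_lit 1) (.e (nat_lit 110084) (nat_lit 0) .nil) .nil)))) (.nd (nat_lit 9) 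
(.lf (nat_lit 479639) (.g (nat_lit 1827) (.e (nat_lit 5664) (nat_lit 312) (.e (nat_lit 3078) (nat_lit 191) (.e (nat_lit 483413) (nat_lit 27) (.e (nat_lit 401440) (nat_lit 9) (.e (nat_lit 433920) (nat_lit 25) .nil))))) (.g (nat_lit 0) (.e (nat_lit 108937) (nat_lit 0) .nil) .nil))) 
(.lf (nat_lit 480151) (.g (nat_lit 3152) (.e (nat_lit 5934) (nat_lit 322) (.e (nat_lit 57371) (nat_lit 2) (.e (nat_lit 90174) (nat_lit 14) (.e (nat_lit 180243) (nat_lit 5) (.e (nat_lit 532513) (nat_lit 3) (.e (nat_lit 114714) (nat_lit 22) (.e (nat_lit 90165) (nat_lit 12) (.e (nat_lit 163857) (nat_lit 0) .nil)))))))) (.g (nat_lit 1) (.e (nat_lit 111477) (nat_lit 0) .nil) .nil)))))) 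
(.nd (nat_lit 7) (.nd (nat_lit 8) (.nd (nat_lit 9) 
(.lf (nat_lit 479319) (.g (nat_lit 1581) (.e (nat_lit 5236) (nat_lit 297) (.e (nat_lit 229415) (nat_lit 15) (.e (nat_lit 450597) (nat_lit 17) (.e (nat_lit 663574) (nat_lit 9) (.e (nat_lit 7936) (nat_lit 24) .nil))))) (.g (nat_lit 0) (.e (nat_lit 108118) (nat_lit 0) .nil) .nil))) 
(.lf (nat_lit 479831) (.g (nat_lit 1920) (.e (nat_lit 5758) (nat_lit 315) (.e (nat_lit 163962) (nat_lit 25) (.e (nat_lit 532550) (nat_lit 12) (.e (nat_lit 360474) (nat_lit 8) (.e (nat_lit 557072) (nat_lit 9) .nil))))) (.g (nat_lit 0) (.e (nat_lit 109869) (nat_lit 0) .nil) .nil)))) (.nd (nat_lit 9) 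
(.lf (nat_lit 479575) (.g (nat_lit 1476) (.e (nat_lit 5642) (nat_lit 312) (.e (nat_lit 2679) (nat_lit 168) (.e (nat_lit 204868) (nat_lit 29) (.e (nat_lit 360466) (nat_lit 3) (.e (nat_lit 516138) (nat_lit 7) .nil))))) (.g (nat_lit 0) (.e (nat_lit 108757) (nat_lit 0) .nil) .nil))) 
(.lf (nat_lit 480087) (.g (nat_lit 1928) (.e (nat_lit 5909) (nat_lit 320) (.e (nat_lit 1200) (nat_lit 88) (.e (nat_lit 65628) (nat_lit 14) (.e (nat_lit 401437) (nat_lit 9) (.e (nat_lit 426544) (nat_lit 30) .nil))))) (.g (nat_lit 0) (.e (nat_lit 111348) (nat_lit 0) .nil) .nil))))) (.nd (nat_lit 8) (.nd (nat_lit 9) 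
(.lf (nat_lit 479447) (.g (nat_lit 1289) (.e (nat_lit 5629) (nat_lit 312) (.e (nat_lit 226) (nat_lit 21) (.e (nat_lit 336434) (nat_lit 30) (.e (nat_lit 450579) (nat_lit 5) (.e (nat_lit 532575) (nat_lit 17) .nil))))) (.g (nat_lit 0) (.e (nat_lit 108446) (nat_lit 0) .nil) .nil))) 
(.lf (nat_lit 479959) (.g (nat_lit 1198) (.e (nat_lit 5771) (nat_lit 316) (.e (nat_lit 172150) (nat_lit 27) (.e (nat_lit 336232) (nat_lit 14) (.e (nat_lit 401440) (nat_lit 9) .nil)))) (.g (nat_lit 0) (.e (nat_lit 110289) (nat_lit 0) .nil) .nil)))) (.nd (nat_lit 9) 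
(.lf (nat_lit 479703) (.g (nat_lit 1954) (.e (nat_lit 5710) (nat_lit 312) (.e (nat_lit 2663) (nat_lit 167) (.e (nat_lit 196666) (nat_lit 13) (.e (nat_lit 65617) (nat_lit 10) (.e (nat_lit 344120) (nat_lit 21) .nil))))) (.g (nat_lit 0) (.e (nat_lit 109233) (nat_lit 0) .nil) .nil))) 
(.lf (nat_lit 480215) (.g (nat_lit 3326) (.e (nat_lit 5934) (nat_lit 322) (.e (nat_lit 57375) (nat_lit 2) (.e (nat_lit 90174) (nat_lit 14) (.e (nat_lit 180252) (nat_lit 10) (.e (nat_lit 573489) (nat_lit 14) (.e (nat_lit 73755) (nat_lit 8) (.e (nat_lit 557090) (nat_lit 12) (.e (nat_lit 163844) (nat_lit 0) .nil)))))))) (.g (nat_lit 1) (.e (nat_lit 111541) (nat_lit 0) .nil) .nil))))))) 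
(.nd (nat_lit 6) (.nd (nat_lit 7) (.nd (nat_lit 8) (.nd (nat_lit 9) 
(.lf (nat_lit 479287) (.g (nat_lit 1080) (.e (nat_lit 5224) (nat_lit 296) (.e (nat_lit 163923) (nat_lit 15) (.e (nat_lit 450596) (nat_lit 17) (.e (nat_lit 663576) (nat_lit 9) .nil)))) (.g (nat_lit 0) (.e (nat_lit 107851) (nat_lit 0) .nil) .nil))) 
(.lf (nat_lit 479799) (.g (nat_lit 3121) (.e (nat_lit 5756) (nat_lit 315) (.e (nat_lit 163962) (nat_lit 25) (.e (nat_lit 532535) (nat_lit 9) (.e (nat_lit 336099) (nat_lit 9) (.e (nat_lit 336028) (nat_lit 3) (.e (nat_lit 98350) (nat_lit 24) (.e (nat_lit 409617) (nat_lit 10) .nil))))))) (.g (nat_lit 1) (.e (nat_lit 109761) (nat_lit 0) .nil) .nil)))) (.nd (nat_lit 9) 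
(.lf (nat_lit 479543) (.g (nat_lit 1627) (.e (nat_lit 5626) (nat_lit 312) (.e (nat_lit 3094) (nat_lit 191) (.e (nat_lit 483413) (nat_lit 27) (.e (nat_lit 401440) (nat_lit 9) (.e (nat_lit 433920) (nat_lit 25) (.e (nat_lit 319492) (nat_lit 0) .nil)))))) (.g (nat_lit 1) (.e (nat_lit 108678) (nat_lit 0) .nil) .nil))) 
(.lf (nat_lit 480055) (.g (nat_lit 2420) (.e (nat_lit 5905) (nat_lit 320) (.e (nat_lit 1209) (nat_lit 89) (.e (nat_lit 73782) (nat_lit 32) (.e (nat_lit 2856) (nat_lit 184) (.e (nat_lit 426546) (nat_lit 30) (.e (nat_lit 368384) (nat_lit 0) .nil)))))) (.g (nat_lit 1) (.e (nat_lit 111302) (nat_lit 0) .nil) .nil))))) (.nd (nat_lit 8) (.nd (nat_lit 9) 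
(.lf (nat_lit 479415) (.g (nat_lit 1578) (.e (nat_lit 5612) (nat_lit 312) (.e (nat_lit 2685) (nat_lit 168) (.e (nat_lit 204868) (nat_lit 29) (.e (nat_lit 360473) (nat_lit 8) (.e (nat_lit 557073) (nat_lit 9) .nil))))) (.g (nat_lit 0) (.e (nat_lit 108372) (nat_lit 0) .nil) .nil))) 
(.lf (nat_lit 479927) (.g (nat_lit 2132) (.e (nat_lit 5766) (nat_lit 316) (.e (nat_lit 172150) (nat_lit 27) (.e (nat_lit 336231) (nat_lit 14) (.e (nat_lit 401434) (nat_lit 9) (.e (nat_lit 426470) (nat_lit 25) (.e (nat_lit 319491) (nat_lit 0) .nil)))))) (.g (nat_lit 1) (.e (nat_lit 110172) (nat_lit 0) .nil) .nil)))) (.nd (nat_lit 9) 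
(.lf (nat_lit 479671) (.g (nat_lit 2427) (.e (nat_lit 5664) (nat_lit 312) (.e (nat_lit 3085) (nat_lit 191) (.e (nat_lit 483413) (nat_lit 27) (.e (nat_lit 401441) (nat_lit 9) (.e (nat_lit 433920) (nat_lit 25) .nil))))) (.g (nat_lit 0) (.e (nat_lit 109037) (nat_lit 0) .nil) .nil))) 
(.lf (nat_lit 480183) (.g (nat_lit 2727) (.e (nat_lit 5934) (nat_lit 322) (.e (nat_lit 57372) (nat_lit 2) (.e (nat_lit 90174) (nat_lit 14) (.e (nat_lit 180251) (nat_lit 10) (.e (nat_lit 573489) (nat_lit 14) .nil))))) (.g (nat_lit 0) (.e (nat_lit 111509) (nat_lit 0) .nil) .nil)))))) (.nd (nat_lit 7) (.nd (nat_lit 8) (.nd (nat_lit 9) 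
(.lf (nat_lit 479351) (.g (nat_lit 1970) (.e (nat_lit 5195) (nat_lit 294) (.e (nat_lit 57388) (nat_lit 5) (.e (nat_lit 114697) (nat_lit 11) (.e (nat_lit 426197) (nat_lit 9) (.e (nat_lit 426544) (nat_lit 30) (.e (nat_lit 360453) (nat_lit 0) .nil)))))) (.g (nat_lit 1) (.e (nat_lit 108245) (nat_lit 0) .nil) .nil))) 
(.lf (nat_lit 479863) (.g (nat_lit 3106) (.e (nat_lit 5761) (nat_lit 315) (.e (nat_lit 163962) (nat_lit 25) (.e (nat_lit 532535) (nat_lit 9) (.e (nat_lit 336176) (nat_lit 10) (.e (nat_lit 344133) (nat_lit 26) (.e (nat_lit 557068) (nat_lit 9) (.e (nat_lit 7936) (nat_lit 19) (.e (nat_lit 319492) (nat_lit 0) .nil)))))))) (.g (nat_lit 1) (.e (nat_lit 109976) (nat_lit 0) .nil) .nil)))) 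
(.nd (nat_lit 9) 
(.lf (nat_lit 479607) (.g (nat_lit 197) (.e (nat_lit 5664) (nat_lit 312) (.e (nat_lit 2679) (nat_lit 168) (.e (nat_lit 204846) (nat_lit 24) .nil))) (.g (nat_lit 0) (.e (nat_lit 108863) (nat_lit 0) .nil) .nil))) 
(.lf (nat_lit 480119) (.g (nat_lit 3056) (.e (nat_lit 5932) (nat_lit 322) (.e (nat_lit 57372) (nat_lit 2) (.e (nat_lit 90172) (nat_lit 14) (.e (nat_lit 180250) (nat_lit 10) (.e (nat_lit 573487) (nat_lit 14) .nil))))) (.g (nat_lit 0) (.e (nat_lit 111445) (nat_lit 0) .nil) .nil))))) (.nd (nat_lit 8) (.nd (nat_lit 9) 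
(.lf (nat_lit 479479) (.g (nat_lit 2157) (.e (nat_lit 5626) (nat_lit 312) (.e (nat_lit 2668) (nat_lit 167) (.e (nat_lit 196666) (nat_lit 13) (.e (nat_lit 65610) (nat_lit 10) (.e (nat_lit 344117) (nat_lit 21) (.e (nat_lit 516106) (nat_lit 0) (.e (nat_lit 6966) (nat_lit 377) (.e (nat_lit 2406) (nat_lit 157) .nil)))))))) (.g (nat_lit 1) (.e (nat_lit 108490) (nat_lit 0) .nil) .nil))) 
(.lf (nat_lit 479991) (.g (nat_lit 874) (.e (nat_lit 7936) (nat_lit 317) (.e (nat_lit 180244) (nat_lit 5) (.e (nat_lit 532569) (nat_lit 16) (.e (nat_lit 401448) (nat_lit 10) .nil)))) (.g (nat_lit 0) (.e (nat_lit 111184) (nat_lit 0) .nil) .nil)))) (.nd (nat_lit 9) 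
(.lf (nat_lit 479735) (.g (nat_lit 2426) (.e (nat_lit 7936) (nat_lit 313) (.e (nat_lit 8326) (nat_lit 69) (.e (nat_lit 557100) (nat_lit 13) (.e (nat_lit 172113) (nat_lit 10) (.e (nat_lit 434234) (nat_lit 23) .nil))))) (.g (nat_lit 0) (.e (nat_lit 109555) (nat_lit 0) .nil) .nil))) 
(.lf (nat_lit 480247) (.g (nat_lit 1837) (.e (nat_lit 5936) (nat_lit 322) (.e (nat_lit 57375) (nat_lit 2) (.e (nat_lit 90174) (nat_lit 14) (.e (nat_lit 180243) (nat_lit 5) (.e (nat_lit 532515) (nat_lit 3) .nil))))) (.g (nat_lit 0) (.e (nat_lit 111573) (nat_lit 0) .nil) .nil))))))))) (.nd (nat_lit 4) (.nd (nat_lit 5) (.nd (nat_lit 6) (.nd (nat_lit 7) (.nd (nat_lit 8) (.nd (nat_lit 9) 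
(.lf (nat_lit 479247) (.g (nat_lit 2153) (.e (nat_lit 5224) (nat_lit 296) (.e (nat_lit 163873) (nat_lit 3) (.e (nat_lit 204829) (nat_lit 18) (.e (nat_lit 57927) (nat_lit 282) (.e (nat_lit 164084) (nat_lit 73) (.e (nat_lit 336027) (nat_lit 3) (.e (nat_lit 98376) (nat_lit 30) (.e (nat_lit 458774) (nat_lit 18) .nil)))))))) (.g (nat_lit 1) (.e (nat_lit 107684) (nat_lit 0) .nil) .nil))) 
(.lf (nat_lit 479759) (.g (nat_lit 2584) (.e (nat_lit 5752) (nat_lit 314) (.e (nat_lit 24662) (nat_lit 14) (.e (nat_lit 401459) (nat_lit 13) (.e (nat_lit 483371) (nat_lit 21) .nil)))) (.g (nat_lit 0) (.e (nat_lit 109656) (nat_lit 0) .nil) .nil)))) (.nd (nat_lit 9) 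
(.lf (nat_lit 479503) (.g (nat_lit 2065) (.e (nat_lit 5626) (nat_lit 312) (.e (nat_lit 2668) (nat_lit 167) (.e (nat_lit 196666) (nat_lit 13) (.e (nat_lit 65617) (nat_lit 10) (.e (nat_lit 344127) (nat_lit 26) .nil))))) (.g (nat_lit 0) (.e (nat_lit 108534) (nat_lit 0) .nil) .nil))) 
(.lf (nat_lit 480015) (.g (nat_lit 875) (.e (nat_lit 5818) (nat_lit 320) (.e (nat_lit 1222) (nat_lit 90) (.e (nat_lit 81922) (nat_lit 0) (.e (nat_lit 3747) (nat_lit 228) .nil)))) (.g (nat_lit 0) (.e (nat_lit 111241) (nat_lit 0) .nil) .nil))))) (.nd (nat_lit 8) (.nd (nat_lit 9) 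
(.lf (nat_lit 479375) (.g (nat_lit 1243) (.e (nat_lit 5200) (nat_lit 294) (.e (nat_lit 57412) (nat_lit 12) (.e (nat_lit 336176) (nat_lit 10) (.e (nat_lit 344157) (nat_lit 36) (.e (nat_lit 638986) (nat_lit 5) .nil))))) (.g (nat_lit 0) (.e (nat_lit 108314) (nat_lit 0) .nil) .nil))) 
(.lf (nat_lit 479887) (.g (nat_lit 1947) (.e (nat_lit 5762) (nat_lit 315) (.e (nat_lit 163962) (nat_lit 25) (.e (nat_lit 532535) (nat_lit 9) (.e (nat_lit 336178) (nat_lit 10) .nil)))) (.g (nat_lit 0) (.e (nat_lit 110059) (nat_lit 0) .nil) .nil)))) (.nd (nat_lit 9) 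
(.lf (nat_lit 479631) (.g (nat_lit 821) (.e (nat_lit 5664) (nat_lit 312) (.e (nat_lit 3062) (nat_lit 190) (.e (nat_lit 475207) (nat_lit 41) .nil))) (.g (nat_lit 0) (.e (nat_lit 108914) (nat_lit 0) .nil) .nil))) 
(.lf (nat_lit 480143) (.g (nat_lit 2202) (.e (nat_lit 5934) (nat_lit 322) (.e (nat_lit 57371) (nat_lit 2) (.e (nat_lit 90171) (nat_lit 14) (.e (nat_lit 180251) (nat_lit 10) (.e (nat_lit 573489) (nat_lit 14) (.e (nat_lit 73755) (nat_lit 8) (.e (nat_lit 557091) (nat_lit 12) (.e (nat_lit 163841) (nat_lit 0) .nil)))))))) (.g (nat_lit 1) (.e (nat_lit 111469) (nat_lit 0) .nil) .nil)))))) 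
(.nd (nat_lit 7) (.nd (nat_lit 8) (.nd (nat_lit 9) 
(.lf (nat_lit 479311) (.g (nat_lit 661) (.e (nat_lit 5233) (nat_lit 296) (.e (nat_lit 163923) (nat_lit 15) (.e (nat_lit 450597) (nat_lit 17) .nil))) (.g (nat_lit 0) (.e (nat_lit 108032) (nat_lit 0) .nil) .nil))) 
(.lf (nat_lit 479823) (.g (nat_lit 2130) (.e (nat_lit 5757) (nat_lit 315) (.e (nat_lit 163962) (nat_lit 25) (.e (nat_lit 532535) (nat_lit 9) (.e (nat_lit 336073) (nat_lit 9) .nil)))) (.g (nat_lit 0) (.e (nat_lit 109852) (nat_lit 0) .nil) .nil)))) (.nd (nat_lit 9) 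
(.lf (nat_lit 479567) (.g (nat_lit 2713) (.e (nat_lit 5628) (nat_lit 312) (.e (nat_lit 2668) (nat_lit 167) (.e (nat_lit 196666) (nat_lit 13) (.e (nat_lit 65610) (nat_lit 10) (.e (nat_lit 344116) (nat_lit 21) .nil))))) (.g (nat_lit 0) (.e (nat_lit 108736) (nat_lit 0) .nil) .nil))) 
(.lf (nat_lit 480079) (.g (nat_lit 1844) (.e (nat_lit 5907) (nat_lit 320) (.e (nat_lit 1189) (nat_lit 88) (.e (nat_lit 65630) (nat_lit 14) (.e (nat_lit 401438) (nat_lit 9) (.e (nat_lit 426546) (nat_lit 30) .nil))))) (.g (nat_lit 0) (.e (nat_lit 111336) (nat_lit 0) .nil) .nil))))) (.nd (nat_lit 8) (.nd (nat_lit 9) 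
(.lf (nat_lit 479439) (.g (nat_lit 2816) (.e (nat_lit 5616) (nat_lit 312) (.e (nat_lit 2668) (nat_lit 167) (.e (nat_lit 196666) (nat_lit 13) (.e (nat_lit 65619) (nat_lit 10) (.e (nat_lit 344117) (nat_lit 21) .nil))))) (.g (nat_lit 0) (.e (nat_lit 108426) (nat_lit 0) .nil) .nil))) 
(.lf (nat_lit 479951) (.g (nat_lit 1883) (.e (nat_lit 5771) (nat_lit 316) (.e (nat_lit 172150) (nat_lit 27) (.e (nat_lit 335895) (nat_lit 0) (.e (nat_lit 6720) (nat_lit 361) (.e (nat_lit 172143) (nat_lit 25) (.e (nat_lit 319492) (nat_lit 0) .nil)))))) (.g (nat_lit 1) (.e (nat_lit 110279) (nat_lit 0) .nil) .nil)))) (.nd (nat_lit 9) 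
(.lf (nat_lit 479695) (.g (nat_lit 5184) (.e (nat_lit 5738) (nat_lit 312) (.e (nat_lit 2663) (nat_lit 167) (.e (nat_lit 196666) (nat_lit 13) (.e (nat_lit 65610) (nat_lit 10) (.e (nat_lit 344117) (nat_lit 21) (.e (nat_lit 516106) (nat_lit 0) (.e (nat_lit 7008) (nat_lit 377) (.e (nat_lit 2424) (nat_lit 157) .nil)))))))) (.g (nat_lit 1) (.e (nat_lit 109214) (nat_lit 0) .nil) .nil))) 
(.lf (nat_lit 480207) (.g (nat_lit 2370) (.e (nat_lit 5934) (nat_lit 322) (.e (nat_lit 57375) (nat_lit 2) (.e (nat_lit 90174) (nat_lit 14) (.e (nat_lit 180250) (nat_lit 10) (.e (nat_lit 573489) (nat_lit 14) .nil))))) (.g (nat_lit 0) (.e (nat_lit 111533) (nat_lit 0) .nil) .nil))))))) (.nd (nat_lit 6) (.nd (nat_lit 7) (.nd (nat_lit 8) (.nd (nat_lit 9) 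
(.lf (nat_lit 479279) (.g (nat_lit 2239) (.e (nat_lit 5224) (nat_lit 296) (.e (nat_lit 163903) (nat_lit 12) (.e (nat_lit 426566) (nat_lit 34) (.e (nat_lit 393273) (nat_lit 23) (.e (nat_lit 426428) (nat_lit 17) .nil))))) (.g (nat_lit 0) (.e (nat_lit 107812) (nat_lit 0) .nil) .nil))) 
(.lf (nat_lit 479791) (.g (nat_lit 1834) (.e (nat_lit 7936) (nat_lit 314) (.e (nat_lit 24665) (nat_lit 14) (.e (nat_lit 401448) (nat_lit 10) (.e (nat_lit 434200) (nat_lit 18) .nil)))) (.g (nat_lit 0) (.e (nat_lit 109740) (nat_lit 0) .nil) .nil)))) (.nd (nat_lit 9) 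
(.lf (nat_lit 479535) (.g (nat_lit 3770) (.e (nat_lit 5626) (nat_lit 312) (.e (nat_lit 2685) (nat_lit 168) (.e (nat_lit 204869) (nat_lit 29) (.e (nat_lit 360475) (nat_lit 8) (.e (nat_lit 557065) (nat_lit 9) (.e (nat_lit 214) (nat_lit 19) (.e (nat_lit 319490) (nat_lit 0) .nil))))))) (.g (nat_lit 1) (.e (nat_lit 108660) (nat_lit 0) .nil) .nil))) 
(.lf (nat_lit 480047) (.g (nat_lit 1653) (.e (nat_lit 5905) (nat_lit 320) (.e (nat_lit 1199) (nat_lit 88) (.e (nat_lit 65630) (nat_lit 14) (.e (nat_lit 401438) (nat_lit 9) (.e (nat_lit 426544) (nat_lit 30) .nil))))) (.g (nat_lit 0) (.e (nat_lit 111294) (nat_lit 0) .nil) .nil))))) (.nd (nat_lit 8) (.nd (nat_lit 9) 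
(.lf (nat_lit 479407) (.g (nat_lit 4128) (.e (nat_lit 5612) (nat_lit 312) (.e (nat_lit 2668) (nat_lit 167) (.e (nat_lit 196666) (nat_lit 13) (.e (nat_lit 65610) (nat_lit 10) (.e (nat_lit 344117) (nat_lit 21) (.e (nat_lit 516138) (nat_lit 7) (.e (nat_lit 409612) (nat_lit 10) .nil))))))) (.g (nat_lit 1) (.e (nat_lit 108359) (nat_lit 0) .nil) .nil))) 
(.lf (nat_lit 479919) (.g (nat_lit 1223) (.e (nat_lit 5766) (nat_lit 316) (.e (nat_lit 172150) (nat_lit 27) (.e (nat_lit 335894) (nat_lit 0) (.e (nat_lit 6718) (nat_lit 361) .nil)))) (.g (nat_lit 0) (.e (nat_lit 110158) (nat_lit 0) .nil) .nil)))) (.nd (nat_lit 9) 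
(.lf (nat_lit 479663) (.g (nat_lit 2306) (.e (nat_lit 5664) (nat_lit 312) (.e (nat_lit 3085) (nat_lit 191) (.e (nat_lit 483412) (nat_lit 27) (.e (nat_lit 401434) (nat_lit 9) (.e (nat_lit 433920) (nat_lit 25) (.e (nat_lit 319491) (nat_lit 0) .nil)))))) (.g (nat_lit 1) (.e (nat_lit 108997) (nat_lit 0) .nil) .nil))) 
(.lf (nat_lit 480175) (.g (nat_lit 2468) (.e (nat_lit 5934) (nat_lit 322) (.e (nat_lit 57372) (nat_lit 2) (.e (nat_lit 90173) (nat_lit 14) (.e (nat_lit 180252) (nat_lit 10) (.e (nat_lit 573489) (nat_lit 14) (.e (nat_lit 73755) (nat_lit 8) (.e (nat_lit 557090) (nat_lit 12) (.e (nat_lit 163849) (nat_lit 0) .nil)))))))) (.g (nat_lit 1) (.e (nat_lit 111501) (nat_lit 0) .nil) .nil)))))) 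
(.nd (nat_lit 7) (.nd (nat_lit 8) (.nd (nat_lit 9) 
(.lf (nat_lit 479343) (.g (nat_lit 701) (.e (nat_lit 5194) (nat_lit 294) (.e (nat_lit 57437) (nat_lit 17) (.e (nat_lit 376860) (nat_lit 21) .nil))) (.g (nat_lit 0) (.e (nat_lit 108212) (nat_lit 0) .nil) .nil))) 
(.lf (nat_lit 479855) (.g (nat_lit 1576) (.e (nat_lit 5761) (nat_lit 315) (.e (nat_lit 163962) (nat_lit 25) (.e (nat_lit 532535) (nat_lit 9) (.e (nat_lit 336176) (nat_lit 10) (.e (nat_lit 344130) (nat_lit 26) .nil))))) (.g (nat_lit 0) (.e (nat_lit 109967) (nat_lit 0) .nil) .nil)))) (.nd (nat_lit 9) 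
(.lf (nat_lit 479599) (.g (nat_lit 964) (.e (nat_lit 5664) (nat_lit 312) (.e (nat_lit 2661) (nat_lit 167) (.e (nat_lit 196674) (nat_lit 15) (.e (nat_lit 81962) (nat_lit 25) .nil)))) (.g (nat_lit 0) (.e (nat_lit 108852) (nat_lit 0) .nil) .nil))) 
(.lf (nat_lit 480111) (.g (nat_lit 2195) (.e (nat_lit 5968) (nat_lit 324) (.e (nat_lit 163875) (nat_lit 3) (.e (nat_lit 204883) (nat_lit 33) (.e (nat_lit 401457) (nat_lit 13) (.e (nat_lit 491264) (nat_lit 10) .nil))))) (.g (nat_lit 0) (.e (nat_lit 111420) (nat_lit 0) .nil) .nil))))) (.nd (nat_lit 8) (.nd (nat_lit 9) 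
(.lf (nat_lit 479471) (.g (nat_lit 3260) (.e (nat_lit 5626) (nat_lit 312) (.e (nat_lit 2668) (nat_lit 167) (.e (nat_lit 196666) (nat_lit 13) (.e (nat_lit 65610) (nat_lit 10) (.e (nat_lit 344117) (nat_lit 21) (.e (nat_lit 516102) (nat_lit 0) (.e (nat_lit 6989) (nat_lit 377) (.e (nat_lit 2406) (nat_lit 157) .nil)))))))) (.g (nat_lit 1) (.e (nat_lit 108482) (nat_lit 0) .nil) .nil))) 
(.lf (nat_lit 479983) (.g (nat_lit 956) (.e (nat_lit 5779) (nat_lit 317) (.e (nat_lit 180260) (nat_lit 18) (.e (nat_lit 639020) (nat_lit 16) (.e (nat_lit 65585) (nat_lit 7) (.e (nat_lit 319527) (nat_lit 15) (.e (nat_lit 278531) (nat_lit 0) .nil)))))) (.g (nat_lit 1) (.e (nat_lit 111046) (nat_lit 0) .nil) .nil)))) (.nd (nat_lit 9) 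
(.lf (nat_lit 479727) (.g (nat_lit 2958) (.e (nat_lit 7936) (nat_lit 312) (.e (nat_lit 2668) (nat_lit 167) (.e (nat_lit 196666) (nat_lit 13) (.e (nat_lit 65610) (nat_lit 10) (.e (nat_lit 344118) (nat_lit 21) .nil))))) (.g (nat_lit 0) (.e (nat_lit 109533) (nat_lit 0) .nil) .nil))) 
(.lf (nat_lit 480239) (.g (nat_lit 2518) (.e (nat_lit 5935) (nat_lit 322) (.e (nat_lit 57375) (nat_lit 2) (.e (nat_lit 90174) (nat_lit 14) (.e (nat_lit 180251) (nat_lit 10) (.e (nat_lit 573489) (nat_lit 14) .nil))))) (.g (nat_lit 0) (.e (nat_lit 111565) (nat_lit 0) .nil) .nil)))))))) (.nd (nat_lit 5) (.nd (nat_lit 6) (.nd (nat_lit 7) (.nd (nat_lit 8) (.nd (nat_lit 9) 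
(.lf (nat_lit 479263) (.g (nat_lit 1509) (.e (nat_lit 5224) (nat_lit 296) (.e (nat_lit 163884) (nat_lit 5) (.e (nat_lit 221194) (nat_lit 11) (.e (nat_lit 336075) (nat_lit 9) .nil)))) (.g (nat_lit 0) (.e (nat_lit 107789) (nat_lit 0) .nil) .nil))) 
(.lf (nat_lit 479775) (.g (nat_lit 2675) (.e (nat_lit 7936) (nat_lit 314) (.e (nat_lit 24662) (nat_lit 14) (.e (nat_lit 401435) (nat_lit 9) (.e (nat_lit 426482) (nat_lit 27) (.e (nat_lit 336060) (nat_lit 7) .nil))))) (.g (nat_lit 0) (.e (nat_lit 109715) (nat_lit 0) .nil) .nil)))) (.nd (nat_lit 9) 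
(.lf (nat_lit 479519) (.g (nat_lit 3053) (.e (nat_lit 5626) (nat_lit 312) (.e (nat_lit 2685) (nat_lit 168) (.e (nat_lit 204846) (nat_lit 24) (.e (nat_lit 319534) (nat_lit 16) (.e (nat_lit 286735) (nat_lit 3) (.e (nat_lit 98323) (nat_lit 17) (.e (nat_lit 6989) (nat_lit 377) (.e (nat_lit 977) (nat_lit 81) .nil)))))))) (.g (nat_lit 1) (.e (nat_lit 108579) (nat_lit 0) .nil) .nil))) 
(.lf (nat_lit 480031) (.g (nat_lit 2177) (.e (nat_lit 5902) (nat_lit 320) (.e (nat_lit 1209) (nat_lit 89) (.e (nat_lit 73782) (nat_lit 32) (.e (nat_lit 2856) (nat_lit 184) (.e (nat_lit 426544) (nat_lit 30) (.e (nat_lit 368384) (nat_lit 0) .nil)))))) (.g (nat_lit 1) (.e (nat_lit 111275) (nat_lit 0) .nil) .nil))))) (.nd (nat_lit 8) (.nd (nat_lit 9) 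
(.lf (nat_lit 479391) (.g (nat_lit 761) (.e (nat_lit 5207) (nat_lit 295) (.e (nat_lit 122919) (nat_lit 15) (.e (nat_lit 360480) (nat_lit 14) .nil))) (.g (nat_lit 0) (.e (nat_lit 108339) (nat_lit 0) .nil) .nil))) 
(.lf (nat_lit 479903) (.g (nat_lit 3372) (.e (nat_lit 5763) (nat_lit 315) (.e (nat_lit 163962) (nat_lit 25) (.e (nat_lit 532535) (nat_lit 9) (.e (nat_lit 336099) (nat_lit 9) (.e (nat_lit 336028) (nat_lit 3) .nil))))) (.g (nat_lit 0) (.e (nat_lit 110096) (nat_lit 0) .nil) .nil)))) (.nd (nat_lit 9) 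
(.lf (nat_lit 479647) (.g (nat_lit 1981) (.e (nat_lit 5664) (nat_lit 312) (.e (nat_lit 3085) (nat_lit 191) (.e (nat_lit 483346) (nat_lit 17) (.e (nat_lit 6720) (nat_lit 361) (.e (nat_lit 172143) (nat_lit 25) .nil))))) (.g (nat_lit 0) (.e (nat_lit 108946) (nat_lit 0) .nil) .nil))) 
(.lf (nat_lit 480159) (.g (nat_lit 2187) (.e (nat_lit 5934) (nat_lit 322) (.e (nat_lit 57371) (nat_lit 2) (.e (nat_lit 90174) (nat_lit 14) (.e (nat_lit 180250) (nat_lit 10) (.e (nat_lit 573489) (nat_lit 14) .nil))))) (.g (nat_lit 0) (.e (nat_lit 111485) (nat_lit 0) .nil) .nil)))))) (.nd (nat_lit 7) (.nd (nat_lit 8) (.nd (nat_lit 9) 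
(.lf (nat_lit 479327) (.g (nat_lit 1255) (.e (nat_lit 5190) (nat_lit 294) (.e (nat_lit 57412) (nat_lit 12) (.e (nat_lit 336176) (nat_lit 10) (.e (nat_lit 344157) (nat_lit 36) (.e (nat_lit 638986) (nat_lit 5) .nil))))) (.g (nat_lit 0) (.e (nat_lit 108154) (nat_lit 0) .nil) .nil))) 
(.lf (nat_lit 479839) (.g (nat_lit 1882) (.e (nat_lit 5761) (nat_lit 315) (.e (nat_lit 163962) (nat_lit 25) (.e (nat_lit 532523) (nat_lit 7) (.e (nat_lit 319528) (nat_lit 16) (.e (nat_lit 286735) (nat_lit 3) (.e (nat_lit 98350) (nat_lit 24) (.e (nat_lit 409602) (nat_lit 0) .nil))))))) (.g (nat_lit 1) (.e (nat_lit 109922) (nat_lit 0) .nil) .nil)))) (.nd (nat_lit 9) 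
(.lf (nat_lit 479583) (.g (nat_lit 2213) (.e (nat_lit 5653) (nat_lit 312) (.e (nat_lit 3062) (nat_lit 190) (.e (nat_lit 475185) (nat_lit 29) (.e (nat_lit 557101) (nat_lit 13) (.e (nat_lit 172115) (nat_lit 10) .nil))))) (.g (nat_lit 0) (.e (nat_lit 108828) (nat_lit 0) .nil) .nil))) 
(.lf (nat_lit 480095) (.g (nat_lit 2772) (.e (nat_lit 5924) (nat_lit 321) (.e (nat_lit 8213) (nat_lit 9) (.e (nat_lit 303143) (nat_lit 12) (.e (nat_lit 475211) (nat_lit 41) (.e (nat_lit 712755) (nat_lit 30) (.e (nat_lit 450563) (nat_lit 0) .nil)))))) (.g (nat_lit 1) (.e (nat_lit 111358) (nat_lit 0) .nil) .nil))))) (.nd (nat_lit 8) (.nd (nat_lit 9) 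
(.lf (nat_lit 479455) (.g (nat_lit 1894) (.e (nat_lit 5638) (nat_lit 312) (.e (nat_lit 226) (nat_lit 21) (.e (nat_lit 336430) (nat_lit 29) (.e (nat_lit 442427) (nat_lit 23) (.e (nat_lit 212736) (nat_lit 7) .nil))))) (.g (nat_lit 0) (.e (nat_lit 108454) (nat_lit 0) .nil) .nil))) 
(.lf (nat_lit 479967) (.g (nat_lit 2198) (.e (nat_lit 5774) (nat_lit 317) (.e (nat_lit 180271) (nat_lit 26) (.e (nat_lit 704737) (nat_lit 11) (.e (nat_lit 16473) (nat_lit 14) (.e (nat_lit 499456) (nat_lit 25) .nil))))) (.g (nat_lit 0) (.e (nat_lit 110446) (nat_lit 0) .nil) .nil)))) (.nd (nat_lit 9) 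
(.lf (nat_lit 479711) (.g (nat_lit 2169) (.e (nat_lit 5714) (nat_lit 312) (.e (nat_lit 2682) (nat_lit 168) (.e (nat_lit 204846) (nat_lit 24) (.e (nat_lit 319504) (nat_lit 10) (.e (nat_lit 7936) (nat_lit 315) .nil))))) (.g (nat_lit 0) (.e (nat_lit 109279) (nat_lit 0) .nil) .nil))) 
(.lf (nat_lit 480223) (.g (nat_lit 2710) (.e (nat_lit 5934) (nat_lit 322) (.e (nat_lit 57378) (nat_lit 3) (.e (nat_lit 98365) (nat_lit 26) (.e (nat_lit 426325) (nat_lit 13) (.e (nat_lit 491264) (nat_lit 10) .nil))))) (.g (nat_lit 0) (.e (nat_lit 111549) (nat_lit 0) .nil) .nil))))))) (.nd (nat_lit 6) (.nd (nat_lit 7) (.nd (nat_lit 8) (.nd (nat_lit 9) 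
(.lf (nat_lit 479295) (.g (nat_lit 1824) (.e (nat_lit 5228) (nat_lit 296) (.e (nat_lit 163871) (nat_lit 2) (.e (nat_lit 196656) (nat_lit 11) (.e (nat_lit 16463) (nat_lit 13) .nil)))) (.g (nat_lit 0) (.e (nat_lit 107956) (nat_lit 0) .nil) .nil))) 
(.lf (nat_lit 479807) (.g (nat_lit 1643) (.e (nat_lit 5756) (nat_lit 315) (.e (nat_lit 163962) (nat_lit 25) (.e (nat_lit 532547) (nat_lit 11) (.e (nat_lit 352315) (nat_lit 23) (.e (nat_lit 98350) (nat_lit 24) .nil))))) (.g (nat_lit 0) (.e (nat_lit 109820) (nat_lit 0) .nil) .nil)))) (.nd (nat_lit 9) 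
(.lf (nat_lit 479551) (.g (nat_lit 2709) (.e (nat_lit 5627) (nat_lit 312) (.e (nat_lit 2668) (nat_lit 167) (.e (nat_lit 196666) (nat_lit 13) (.e (nat_lit 65610) (nat_lit 10) (.e (nat_lit 344117) (nat_lit 21) (.e (nat_lit 516106) (nat_lit 0) (.e (nat_lit 6966) (nat_lit 377) (.e (nat_lit 2447) (nat_lit 157) .nil)))))))) (.g (nat_lit 1) (.e (nat_lit 108689) (nat_lit 0) .nil) .nil))) 
(.lf (nat_lit 480063) (.g (nat_lit 1684) (.e (nat_lit 5906) (nat_lit 320) (.e (nat_lit 1190) (nat_lit 88) (.e (nat_lit 65628) (nat_lit 14) (.e (nat_lit 401437) (nat_lit 9) (.e (nat_lit 426544) (nat_lit 30) .nil))))) (.g (nat_lit 0) (.e (nat_lit 111311) (nat_lit 0) .nil) .nil))))) (.nd (nat_lit 8) (.nd (nat_lit 9) 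
(.lf (nat_lit 479423) (.g (nat_lit 2454) (.e (nat_lit 5613) (nat_lit 312) (.e (nat_lit 2668) (nat_lit 167) (.e (nat_lit 196666) (nat_lit 13) (.e (nat_lit 65599) (nat_lit 9) (.e (nat_lit 336028) (nat_lit 3) .nil))))) (.g (nat_lit 0) (.e (nat_lit 108399) (nat_lit 0) .nil) .nil))) 
(.lf (nat_lit 479935) (.g (nat_lit 706) (.e (nat_lit 5771) (nat_lit 316) (.e (nat_lit 172130) (nat_lit 15) (.e (nat_lit 6241) (nat_lit 336) (.e (nat_lit 229694) (nat_lit 250) (.e (nat_lit 172143) (nat_lit 25) (.e (nat_lit 319493) (nat_lit 0) .nil)))))) (.g (nat_lit 1) (.e (nat_lit 110261) (nat_lit 0) .nil) .nil)))) (.nd (nat_lit 9) 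
(.lf (nat_lit 479679) (.g (nat_lit 811) (.e (nat_lit 5667) (nat_lit 312) (.e (nat_lit 3062) (nat_lit 190) (.e (nat_lit 475207) (nat_lit 41) .nil))) (.g (nat_lit 0) (.e (nat_lit 109097) (nat_lit 0) .nil) .nil))) 
(.lf (nat_lit 480191) (.g (nat_lit 3210) (.e (nat_lit 5934) (nat_lit 322) (.e (nat_lit 57375) (nat_lit 2) (.e (nat_lit 90172) (nat_lit 14) (.e (nat_lit 180250) (nat_lit 10) (.e (nat_lit 573487) (nat_lit 14) (.e (nat_lit 73753) (nat_lit 8) (.e (nat_lit 557090) (nat_lit 12) (.e (nat_lit 163844) (nat_lit 0) .nil)))))))) (.g (nat_lit 1) (.e (nat_lit 111517) (nat_lit 0) .nil) .nil)))))) 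
(.nd (nat_lit 7) (.nd (nat_lit 8) (.nd (nat_lit 9) 
(.lf (nat_lit 479359) (.g (nat_lit 1942) (.e (nat_lit 5195) (nat_lit 294) (.e (nat_lit 57427) (nat_lit 15) (.e (nat_lit 360480) (nat_lit 14) (.e (nat_lit 638986) (nat_lit 5) (.e (nat_lit 3022) (nat_lit 187) (.e (nat_lit 458496) (nat_lit 0) .nil)))))) (.g (nat_lit 1) (.e (nat_lit 108287) (nat_lit 0) .nil) .nil))) 
(.lf (nat_lit 479871) (.g (nat_lit 1522) (.e (nat_lit 5761) (nat_lit 315) (.e (nat_lit 163962) (nat_lit 25) (.e (nat_lit 532550) (nat_lit 12) (.e (nat_lit 360474) (nat_lit 8) (.e (nat_lit 557072) (nat_lit 9) .nil))))) (.g (nat_lit 0) (.e (nat_lit 110013) (nat_lit 0) .nil) .nil)))) (.nd (nat_lit 9) 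
(.lf (nat_lit 479615) (.g (nat_lit 1928) (.e (nat_lit 5664) (nat_lit 312) (.e (nat_lit 2679) (nat_lit 168) (.e (nat_lit 204854) (nat_lit 26) (.e (nat_lit 336160) (nat_lit 10) (.e (nat_lit 344119) (nat_lit 21) .nil))))) (.g (nat_lit 0) (.e (nat_lit 108875) (nat_lit 0) .nil) .nil))) 
(.lf (nat_lit 480127) (.g (nat_lit 2032) (.e (nat_lit 5933) (nat_lit 322) (.e (nat_lit 57373) (nat_lit 2) (.e (nat_lit 90173) (nat_lit 14) (.e (nat_lit 180252) (nat_lit 10) (.e (nat_lit 573489) (nat_lit 14) (.e (nat_lit 73755) (nat_lit 8) (.e (nat_lit 557090) (nat_lit 12) (.e (nat_lit 163840) (nat_lit 0) .nil)))))))) (.g (nat_lit 1) (.e (nat_lit 111453) (nat_lit 0) .nil) .nil))))) 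
(.nd (nat_lit 8) (.nd (nat_lit 9) 
(.lf (nat_lit 479487) (.g (nat_lit 4331) (.e (nat_lit 5626) (nat_lit 312) (.e (nat_lit 2668) (nat_lit 167) (.e (nat_lit 196666) (nat_lit 13) (.e (nat_lit 65610) (nat_lit 10) (.e (nat_lit 344117) (nat_lit 21) (.e (nat_lit 516106) (nat_lit 0) (.e (nat_lit 6986) (nat_lit 377) (.e (nat_lit 2511) (nat_lit 157) .nil)))))))) (.g (nat_lit 1) (.e (nat_lit 108498) (nat_lit 0) .nil) .nil))) 
(.lf (nat_lit 479999) (.g (nat_lit 2002) (.e (nat_lit 5813) (nat_lit 320) (.e (nat_lit 1201) (nat_lit 88) (.e (nat_lit 65630) (nat_lit 14) (.e (nat_lit 401438) (nat_lit 9) (.e (nat_lit 426544) (nat_lit 30) .nil))))) (.g (nat_lit 0) (.e (nat_lit 111218) (nat_lit 0) .nil) .nil)))) (.nd (nat_lit 9) 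
(.lf (nat_lit 479743) (.g (nat_lit 610) (.e (nat_lit 5748) (nat_lit 314) (.e (nat_lit 24662) (nat_lit 14) (.e (nat_lit 401459) (nat_lit 13) .nil))) (.g (nat_lit 0) (.e (nat_lit 109578) (nat_lit 0) .nil) .nil))) 
(.lf (nat_lit 480255) (.g (nat_lit 1768) (.e (nat_lit 5936) (nat_lit 322) (.e (nat_lit 57435) (nat_lit 17) (.e (nat_lit 376835) (nat_lit 0) (.e (nat_lit 3748) (nat_lit 228) (.e (nat_lit 786481) (nat_lit 30) (.e (nat_lit 368384) (nat_lit 0) .nil)))))) (.g (nat_lit 1) (.e (nat_lit 111585) (nat_lit 0) .nil) .nil)))))))))))))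

noncomputable def tv5529 : DT := (.nd (nat_lit 0) (.nd (nat_lit 1) (.nd (nat_lit 2) (.nd (nat_lit 3) (.nd (nat_lit 4) (.nd (nat_lit 5) (.nd (nat_lit 6) (.nd (nat_lit 7) (.nd (nat_lit 8) (.nd (nat_lit 9) 
(.lf (nat_lit 480256) (.g (nat_lit 1608) (.e (nat_lit 5936) (nat_lit 322) (.e (nat_lit 57437) (nat_lit 17) (.e (nat_lit 376835) (nat_lit 0) (.e (nat_lit 3748) (nat_lit 228) (.e (nat_lit 786481) (nat_lit 30) (.e (nat_lit 368384) (nat_lit 0) .nil)))))) (.g (nat_lit 1) (.e (nat_lit 111588) (nat_lit 0) .nil) .nil))) 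
(.lf (nat_lit 480768) (.g (nat_lit 2542) (.e (nat_lit 5946) (nat_lit 322) (.e (nat_lit 57371) (nat_lit 2) (.e (nat_lit 90174) (nat_lit 14) (.e (nat_lit 180243) (nat_lit 5) (.e (nat_lit 532513) (nat_lit 3) (.e (nat_lit 114718) (nat_lit 23) (.e (nat_lit 98325) (nat_lit 17) (.e (nat_lit 2515) (nat_lit 157) .nil)))))))) (.g (nat_lit 1) (.e (nat_lit 112118) (nat_lit 0) .nil) .nil)))) (.nd (nat_lit 9) 
(.lf (nat_lit 480512) (.g (nat_lit 2393) (.e (nat_lit 5940) (nat_lit 322) (.e (nat_lit 57371) (nat_lit 2) (.e (nat_lit 90174) (nat_lit 14) (.e (nat_lit 180250) (nat_lit 10) (.e (nat_lit 573487) (nat_lit 14) .nil))))) (.g (nat_lit 0) (.e (nat_lit 111859) (nat_lit 0) .nil) .nil))) 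
(.lf (nat_lit 481024) (.g (nat_lit 2422) (.e (nat_lit 5950) (nat_lit 322) (.e (nat_lit 57371) (nat_lit 2) (.e (nat_lit 90174) (nat_lit 14) (.e (nat_lit 180250) (nat_lit 10) (.e (nat_lit 573487) (nat_lit 14) (.e (nat_lit 73753) (nat_lit 8) (.e (nat_lit 557094) (nat_lit 12) (.e (nat_lit 163840) (nat_lit 0) .nil)))))))) (.g (nat_lit 1) (.e (nat_lit 112406) (nat_lit 0) .nil) .nil))))) 
(.nd (nat_lit 8) (.nd (nat_lit 9) 
(.lf (nat_lit 480384) (.g (nat_lit 1777) (.e (nat_lit 5938) (nat_lit 322) (.e (nat_lit 57375) (nat_lit 2) (.e (nat_lit 90174) (nat_lit 14) (.e (nat_lit 180243) (nat_lit 5) (.e (nat_lit 532515) (nat_lit 3) .nil))))) (.g (nat_lit 0) (.e (nat_lit 111730) (nat_lit 0) .nil) .nil))) 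
(.lf (nat_lit 480896) (.g (nat_lit 2600) (.e (nat_lit 5948) (nat_lit 322) (.e (nat_lit 57419) (nat_lit 12) (.e (nat_lit 336194) (nat_lit 12) (.e (nat_lit 385102) (nat_lit 50) (.e (nat_lit 786483) (nat_lit 30) (.e (nat_lit 360457) (nat_lit 0) .nil)))))) (.g (nat_lit 1) (.e (nat_lit 112251) (nat_lit 0) .nil) .nil)))) (.nd (nat_lit 9) 
(.lf (nat_lit 480640) (.g (nat_lit 2987) (.e (nat_lit 5943) (nat_lit 322) (.e (nat_lit 57372) (nat_lit 2) (.e (nat_lit 90174) (nat_lit 14) (.e (nat_lit 180250) (nat_lit 10) (.e (nat_lit 573489) (nat_lit 14) (.e (nat_lit 73755) (nat_lit 8) (.e (nat_lit 557091) (nat_lit 12) (.e (nat_lit 163841) (nat_lit 0) .nil)))))))) (.g (nat_lit 1) (.e (nat_lit 111989) (nat_lit 0) .nil) .nil))) 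
(.lf (nat_lit 481152) (.g (nat_lit 2607) (.e (nat_lit 5258) (nat_lit 298) (.e (nat_lit 1239) (nat_lit 91) (.e (nat_lit 90170) (nat_lit 13) (.e (nat_lit 172113) (nat_lit 10) (.e (nat_lit 434234) (nat_lit 23) .nil))))) (.g (nat_lit 0) (.e (nat_lit 112554) (nat_lit 0) .nil) .nil)))))) (.nd (nat_lit 7) (.nd (nat_lit 8) (.nd (nat_lit 9) 
(.lf (nat_lit 480320) (.g (nat_lit 2328) (.e (nat_lit 5937) (nat_lit 322) (.e (nat_lit 57378) (nat_lit 3) (.e (nat_lit 98368) (nat_lit 27) (.e (nat_lit 434245) (nat_lit 28) (.e (nat_lit 573487) (nat_lit 14) (.e (nat_lit 73753) (nat_lit 8) (.e (nat_lit 557093) (nat_lit 12) (.e (nat_lit 171776) (nat_lit 0) .nil)))))))) (.g (nat_lit 1) (.e (nat_lit 111656) (nat_lit 0) .nil) .nil))) 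
(.lf (nat_lit 480832) (.g (nat_lit 2364) (.e (nat_lit 5947) (nat_lit 322) (.e (nat_lit 57373) (nat_lit 2) (.e (nat_lit 90174) (nat_lit 14) (.e (nat_lit 180251) (nat_lit 10) .nil)))) (.g (nat_lit 0) (.e (nat_lit 112185) (nat_lit 0) .nil) .nil)))) (.nd (nat_lit 9) 
(.lf (nat_lit 480576) (.g (nat_lit 2667) (.e (nat_lit 5941) (nat_lit 322) (.e (nat_lit 57372) (nat_lit 2) (.e (nat_lit 90174) (nat_lit 14) (.e (nat_lit 180251) (nat_lit 10) (.e (nat_lit 573489) (nat_lit 14) (.e (nat_lit 73755) (nat_lit 8) (.e (nat_lit 557091) (nat_lit 12) (.e (nat_lit 163845) (nat_lit 0) .nil)))))))) (.g (nat_lit 1) (.e (nat_lit 111923) (nat_lit 0) .nil) .nil))) 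
(.lf (nat_lit 481088) (.g (nat_lit 4996) (.e (nat_lit 5953) (nat_lit 322) (.e (nat_lit 57373) (nat_lit 2) (.e (nat_lit 90174) (nat_lit 14) (.e (nat_lit 180251) (nat_lit 10) (.e (nat_lit 573489) (nat_lit 14) (.e (nat_lit 73755) (nat_lit 8) (.e (nat_lit 557091) (nat_lit 12) (.e (nat_lit 163852) (nat_lit 0) .nil)))))))) (.g (nat_lit 1) (.e (nat_lit 112470) (nat_lit 0) .nil) .nil))))) 
(.nd (nat_lit 8) (.nd (nat_lit 9) 
(.lf (nat_lit 480448) (.g (nat_lit 2405) (.e (nat_lit 5939) (nat_lit 322) (.e (nat_lit 57379) (nat_lit 3) (.e (nat_lit 98366) (nat_lit 27) (.e (nat_lit 434231) (nat_lit 23) (.e (nat_lit 532507) (nat_lit 2) (.e (nat_lit 106517) (nat_lit 9) (.e (nat_lit 1255) (nat_lit 92) (.e (nat_lit 98322) (nat_lit 17) (.e (nat_lit 2456) (nat_lit 157) .nil))))))))) (.g (nat_lit 1) (.e (nat_lit 111795) (nat_lit 0) .nil) .nil))) 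
(.lf (nat_lit 480960) (.g (nat_lit 2486) (.e (nat_lit 5949) (nat_lit 322) (.e (nat_lit 57378) (nat_lit 3) (.e (nat_lit 98367) (nat_lit 27) (.e (nat_lit 434247) (nat_lit 28) (.e (nat_lit 573489) (nat_lit 14) .nil))))) (.g (nat_lit 0) (.e (nat_lit 112316) (nat_lit 0) .nil) .nil)))) (.nd (nat_lit 9) 
(.lf (nat_lit 480704) (.g (nat_lit 3195) (.e (nat_lit 5943) (nat_lit 322) (.e (nat_lit 57379) (nat_lit 3) (.e (nat_lit 98367) (nat_lit 27) (.e (nat_lit 434245) (nat_lit 28) (.e (nat_lit 573487) (nat_lit 14) (.e (nat_lit 73753) (nat_lit 8) (.e (nat_lit 557090) (nat_lit 12) (.e (nat_lit 163844) (nat_lit 0) .nil)))))))) (.g (nat_lit 1) (.e (nat_lit 112054) (nat_lit 0) .nil) .nil))) 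
(.lf (nat_lit 481216) (.g (nat_lit 2886) (.e (nat_lit 5281) (nat_lit 298) (.e (nat_lit 1633) (nat_lit 114) (.e (nat_lit 385074) (nat_lit 31) (.e (nat_lit 573484) (nat_lit 13) (.e (nat_lit 65617) (nat_lit 10) .nil))))) (.g (nat_lit 0) (.e (nat_lit 112769) (nat_lit 0) .nil) .nil))))))) (.nd (nat_lit 6) (.nd (nat_lit 7) (.nd (nat_lit 8) (.nd (nat_lit 9) 
(.lf (nat_lit 480288) (.g (nat_lit 2049) (.e (nat_lit 5937) (nat_lit 322) (.e (nat_lit 57375) (nat_lit 2) (.e (nat_lit 90173) (nat_lit 14) (.e (nat_lit 180252) (nat_lit 10) (.e (nat_lit 573489) (nat_lit 14) (.e (nat_lit 73755) (nat_lit 8) (.e (nat_lit 557090) (nat_lit 12) (.e (nat_lit 163840) (nat_lit 0) .nil)))))))) (.g (nat_lit 1) (.e (nat_lit 111620) (nat_lit 0) .nil) .nil))) 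
(.lf (nat_lit 480800) (.g (nat_lit 2443) (.e (nat_lit 5946) (nat_lit 322) (.e (nat_lit 57378) (nat_lit 3) (.e (nat_lit 98365) (nat_lit 26) (.e (nat_lit 426326) (nat_lit 13) (.e (nat_lit 491264) (nat_lit 10) (.e (nat_lit 434216) (nat_lit 18) .nil)))))) (.g (nat_lit 1) (.e (nat_lit 112150) (nat_lit 0) .nil) .nil)))) (.nd (nat_lit 9) 
(.lf (nat_lit 480544) (.g (nat_lit 1931) (.e (nat_lit 5940) (nat_lit 322) (.e (nat_lit 57375) (nat_lit 2) (.e (nat_lit 90174) (nat_lit 14) (.e (nat_lit 180243) (nat_lit 5) (.e (nat_lit 532515) (nat_lit 3) (.e (nat_lit 114716) (nat_lit 22) (.e (nat_lit 90181) (nat_lit 16) (.e (nat_lit 229376) (nat_lit 0) .nil)))))))) (.g (nat_lit 1) (.e (nat_lit 111891) (nat_lit 0) .nil) .nil))) 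
(.lf (nat_lit 481056) (.g (nat_lit 2257) (.e (nat_lit 5952) (nat_lit 322) (.e (nat_lit 57373) (nat_lit 2) (.e (nat_lit 90174) (nat_lit 14) (.e (nat_lit 180243) (nat_lit 5) (.e (nat_lit 532515) (nat_lit 3) .nil))))) (.g (nat_lit 0) (.e (nat_lit 112438) (nat_lit 0) .nil) .nil))))) (.nd (nat_lit 8) (.nd (nat_lit 9) 
(.lf (nat_lit 480416) (.g (nat_lit 3087) (.e (nat_lit 5939) (nat_lit 322) (.e (nat_lit 57375) (nat_lit 2) (.e (nat_lit 90173) (nat_lit 14) (.e (nat_lit 180252) (nat_lit 10) (.e (nat_lit 573489) (nat_lit 14) (.e (nat_lit 73755) (nat_lit 8) (.e (nat_lit 557090) (nat_lit 12) (.e (nat_lit 163840) (nat_lit 0) .nil)))))))) (.g (nat_lit 1) (.e (nat_lit 111762) (nat_lit 0) .nil) .nil))) 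
(.lf (nat_lit 480928) (.g (nat_lit 3262) (.e (nat_lit 5949) (nat_lit 322) (.e (nat_lit 57373) (nat_lit 2) (.e (nat_lit 90172) (nat_lit 14) (.e (nat_lit 180250) (nat_lit 10) (.e (nat_lit 573487) (nat_lit 14) (.e (nat_lit 73753) (nat_lit 8) (.e (nat_lit 557094) (nat_lit 12) (.e (nat_lit 163856) (nat_lit 0) .nil)))))))) (.g (nat_lit 1) (.e (nat_lit 112284) (nat_lit 0) .nil) .nil)))) (.nd (nat_lit 9) 
(.lf (nat_lit 480672) (.g (nat_lit 2906) (.e (nat_lit 5943) (nat_lit 322) (.e (nat_lit 57375) (nat_lit 2) (.e (nat_lit 90174) (nat_lit 14) (.e (nat_lit 180243) (nat_lit 5) (.e (nat_lit 532513) (nat_lit 3) (.e (nat_lit 114714) (nat_lit 22) (.e (nat_lit 90162) (nat_lit 12) (.e (nat_lit 163844) (nat_lit 0) .nil)))))))) (.g (nat_lit 1) (.e (nat_lit 112021) (nat_lit 0) .nil) .nil))) 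
(.lf (nat_lit 481184) (.g (nat_lit 3542) (.e (nat_lit 5270) (nat_lit 298) (.e (nat_lit 1239) (nat_lit 91) (.e (nat_lit 90170) (nat_lit 13) (.e (nat_lit 172113) (nat_lit 10) (.e (nat_lit 434247) (nat_lit 28) (.e (nat_lit 573457) (nat_lit 9) (.e (nat_lit 7936) (nat_lit 30) (.e (nat_lit 409603) (nat_lit 0) .nil)))))))) (.g (nat_lit 1) (.e (nat_lit 112606) (nat_lit 0) .nil) .nil)))))) 
(.nd (nat_lit 7) (.nd (nat_lit 8) (.nd (nat_lit 9) 
(.lf (nat_lit 480352) (.g (nat_lit 1815) (.e (nat_lit 5937) (nat_lit 322) (.e (nat_lit 57410) (nat_lit 12) (.e (nat_lit 336208) (nat_lit 12) (.e (nat_lit 385102) (nat_lit 50) (.e (nat_lit 786481) (nat_lit 30) (.e (nat_lit 368384) (nat_lit 0) .nil)))))) (.g (nat_lit 1) (.e (nat_lit 111692) (nat_lit 0) .nil) .nil))) 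
(.lf (nat_lit 480864) (.g (nat_lit 4593) (.e (nat_lit 5948) (nat_lit 322) (.e (nat_lit 57373) (nat_lit 2) (.e (nat_lit 90174) (nat_lit 14) (.e (nat_lit 180243) (nat_lit 5) (.e (nat_lit 532513) (nat_lit 3) (.e (nat_lit 114714) (nat_lit 22) (.e (nat_lit 90165) (nat_lit 12) (.e (nat_lit 163857) (nat_lit 0) .nil)))))))) (.g (nat_lit 1) (.e (nat_lit 112218) (nat_lit 0) .nil) .nil)))) (.nd (nat_lit 9) 
(.lf (nat_lit 480608) (.g (nat_lit 2245) (.e (nat_lit 5942) (nat_lit 322) (.e (nat_lit 57375) (nat_lit 2) (.e (nat_lit 90173) (nat_lit 14) (.e (nat_lit 180252) (nat_lit 10) (.e (nat_lit 573489) (nat_lit 14) (.e (nat_lit 73755) (nat_lit 8) (.e (nat_lit 557090) (nat_lit 12) (.e (nat_lit 163841) (nat_lit 0) .nil)))))))) (.g (nat_lit 1) (.e (nat_lit 111957) (nat_lit 0) .nil) .nil))) 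
(.lf (nat_lit 481120) (.g (nat_lit 4558) (.e (nat_lit 5954) (nat_lit 322) (.e (nat_lit 57373) (nat_lit 2) (.e (nat_lit 90174) (nat_lit 14) (.e (nat_lit 180250) (nat_lit 10) (.e (nat_lit 573489) (nat_lit 14) (.e (nat_lit 73755) (nat_lit 8) (.e (nat_lit 557090) (nat_lit 12) (.e (nat_lit 163845) (nat_lit 0) .nil)))))))) (.g (nat_lit 1) (.e (nat_lit 112506) (nat_lit 0) .nil) .nil))))) 
(.nd (nat_lit 8) (.nd (nat_lit 9) 
(.lf (nat_lit 480480) (.g (nat_lit 2849) (.e (nat_lit 5939) (nat_lit 322) (.e (nat_lit 57379) (nat_lit 3) (.e (nat_lit 98367) (nat_lit 27) (.e (nat_lit 434231) (nat_lit 23) (.e (nat_lit 532514) (nat_lit 3) (.e (nat_lit 114715) (nat_lit 22) (.e (nat_lit 90165) (nat_lit 12) (.e (nat_lit 171776) (nat_lit 0) .nil)))))))) (.g (nat_lit 1) (.e (nat_lit 111827) (nat_lit 0) .nil) .nil))) 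
(.lf (nat_lit 480992) (.g (nat_lit 3095) (.e (nat_lit 5949) (nat_lit 322) (.e (nat_lit 57409) (nat_lit 12) (.e (nat_lit 336443) (nat_lit 32) (.e (nat_lit 466977) (nat_lit 22) (.e (nat_lit 196656) (nat_lit 11) (.e (nat_lit 16392) (nat_lit 0) (.e (nat_lit 2514) (nat_lit 157) .nil))))))) (.g (nat_lit 1) (.e (nat_lit 112359) (nat_lit 0) .nil) .nil)))) (.nd (nat_lit 9) 
(.lf (nat_lit 480736) (.g (nat_lit 2625) (.e (nat_lit 5944) (nat_lit 322) (.e (nat_lit 57378) (nat_lit 3) (.e (nat_lit 98367) (nat_lit 27) (.e (nat_lit 434247) (nat_lit 28) (.e (nat_lit 573489) (nat_lit 14) .nil))))) (.g (nat_lit 0) (.e (nat_lit 112086) (nat_lit 0) .nil) .nil))) 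
(.lf (nat_lit 481248) (.g (nat_lit 2392) (.e (nat_lit 5355) (nat_lit 298) (.e (nat_lit 1253) (nat_lit 92) (.e (nat_lit 98350) (nat_lit 24) (.e (nat_lit 409641) (nat_lit 17) (.e (nat_lit 294928) (nat_lit 2) .nil))))) (.g (nat_lit 0) (.e (nat_lit 112817) (nat_lit 0) .nil) .nil)))))))) (.nd (nat_lit 5) (.nd (nat_lit 6) (.nd (nat_lit 7) (.nd (nat_lit 8) (.nd (nat_lit 9) 
(.lf (nat_lit 480272) (.g (nat_lit 2495) (.e (nat_lit 5937) (nat_lit 322) (.e (nat_lit 57373) (nat_lit 2) (.e (nat_lit 90174) (nat_lit 14) (.e (nat_lit 180243) (nat_lit 5) (.e (nat_lit 532513) (nat_lit 3) (.e (nat_lit 114714) (nat_lit 22) (.e (nat_lit 90164) (nat_lit 12) (.e (nat_lit 171776) (nat_lit 0) .nil)))))))) (.g (nat_lit 1) (.e (nat_lit 111604) (nat_lit 0) .nil) .nil))) 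
(.lf (nat_lit 480784) (.g (nat_lit 2680) (.e (nat_lit 5946) (nat_lit 322) (.e (nat_lit 57373) (nat_lit 2) (.e (nat_lit 90174) (nat_lit 14) (.e (nat_lit 180250) (nat_lit 10) (.e (nat_lit 573487) (nat_lit 14) .nil))))) (.g (nat_lit 0) (.e (nat_lit 112134) (nat_lit 0) .nil) .nil)))) (.nd (nat_lit 9) 
(.lf (nat_lit 480528) (.g (nat_lit 2986) (.e (nat_lit 5940) (nat_lit 322) (.e (nat_lit 57373) (nat_lit 2) (.e (nat_lit 90174) (nat_lit 14) (.e (nat_lit 180251) (nat_lit 10) (.e (nat_lit 573489) (nat_lit 14) .nil))))) (.g (nat_lit 0) (.e (nat_lit 111875) (nat_lit 0) .nil) .nil))) 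
(.lf (nat_lit 481040) (.g (nat_lit 4488) (.e (nat_lit 5951) (nat_lit 322) (.e (nat_lit 57371) (nat_lit 2) (.e (nat_lit 90174) (nat_lit 14) (.e (nat_lit 180251) (nat_lit 10) (.e (nat_lit 573489) (nat_lit 14) (.e (nat_lit 73755) (nat_lit 8) (.e (nat_lit 557090) (nat_lit 12) (.e (nat_lit 163852) (nat_lit 0) .nil)))))))) (.g (nat_lit 1) (.e (nat_lit 112422) (nat_lit 0) .nil) .nil))))) 
(.nd (nat_lit 8) (.nd (nat_lit 9) 
(.lf (nat_lit 480400) (.g (nat_lit 2731) (.e (nat_lit 5939) (nat_lit 322) (.e (nat_lit 57372) (nat_lit 2) (.e (nat_lit 90174) (nat_lit 14) (.e (nat_lit 180243) (nat_lit 5) (.e (nat_lit 532515) (nat_lit 3) (.e (nat_lit 114716) (nat_lit 22) (.e (nat_lit 90180) (nat_lit 16) (.e (nat_lit 229379) (nat_lit 0) .nil)))))))) (.g (nat_lit 1) (.e (nat_lit 111746) (nat_lit 0) .nil) .nil))) 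
(.lf (nat_lit 480912) (.g (nat_lit 1642) (.e (nat_lit 5949) (nat_lit 322) (.e (nat_lit 57346) (nat_lit 0) (.e (nat_lit 6203) (nat_lit 332) (.e (nat_lit 2798) (nat_lit 180) (.e (nat_lit 303133) (nat_lit 9) (.e (nat_lit 426412) (nat_lit 15) (.e (nat_lit 7936) (nat_lit 348) (.e (nat_lit 73736) (nat_lit 0) .nil)))))))) (.g (nat_lit 1) (.e (nat_lit 112268) (nat_lit 0) .nil) .nil)))) (.nd (nat_lit 9) 
(.lf (nat_lit 480656) (.g (nat_lit 2223) (.e (nat_lit 5943) (nat_lit 322) (.e (nat_lit 57374) (nat_lit 2) (.e (nat_lit 90173) (nat_lit 14) (.e (nat_lit 180252) (nat_lit 10) (.e (nat_lit 573489) (nat_lit 14) (.e (nat_lit 73755) (nat_lit 8) (.e (nat_lit 557090) (nat_lit 12) (.e (nat_lit 163841) (nat_lit 0) .nil)))))))) (.g (nat_lit 1) (.e (nat_lit 112005) (nat_lit 0) .nil) .nil))) 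
(.lf (nat_lit 481168) (.g (nat_lit 2367) (.e (nat_lit 5270) (nat_lit 298) (.e (nat_lit 1239) (nat_lit 91) (.e (nat_lit 90170) (nat_lit 13) (.e (nat_lit 172113) (nat_lit 10) (.e (nat_lit 434245) (nat_lit 28) (.e (nat_lit 573449) (nat_lit 9) (.e (nat_lit 362) (nat_lit 30) (.e (nat_lit 409605) (nat_lit 0) .nil)))))))) (.g (nat_lit 1) (.e (nat_lit 112590) (nat_lit 0) .nil) .nil)))))) 
(.nd (nat_lit 7) (.nd (nat_lit 8) (.nd (nat_lit 9) 
(.lf (nat_lit 480336) (.g (nat_lit 2075) (.e (nat_lit 5937) (nat_lit 322) (.e (nat_lit 57379) (nat_lit 3) (.e (nat_lit 98366) (nat_lit 27) (.e (nat_lit 434231) (nat_lit 23) (.e (nat_lit 532507) (nat_lit 2) .nil))))) (.g (nat_lit 0) (.e (nat_lit 111672) (nat_lit 0) .nil) .nil))) 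
(.lf (nat_lit 480848) (.g (nat_lit 4790) (.e (nat_lit 5948) (nat_lit 322) (.e (nat_lit 57371) (nat_lit 2) (.e (nat_lit 90174) (nat_lit 14) (.e (nat_lit 180243) (nat_lit 5) (.e (nat_lit 532513) (nat_lit 3) (.e (nat_lit 114714) (nat_lit 22) (.e (nat_lit 90165) (nat_lit 12) (.e (nat_lit 163857) (nat_lit 0) .nil)))))))) (.g (nat_lit 1) (.e (nat_lit 112202) (nat_lit 0) .nil) .nil)))) (.nd (nat_lit 9) 
(.lf (nat_lit 480592) (.g (nat_lit 482) (.e (nat_lit 5941) (nat_lit 322) (.e (nat_lit 57435) (nat_lit 17) (.e (nat_lit 376835) (nat_lit 0) .nil))) (.g (nat_lit 0) (.e (nat_lit 111939) (nat_lit 0) .nil) .nil))) 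
(.lf (nat_lit 481104) (.g (nat_lit 1482) (.e (nat_lit 5953) (nat_lit 322) (.e (nat_lit 57436) (nat_lit 17) (.e (nat_lit 376835) (nat_lit 0) (.e (nat_lit 3746) (nat_lit 228) (.e (nat_lit 786483) (nat_lit 30) (.e (nat_lit 368384) (nat_lit 0) .nil)))))) (.g (nat_lit 1) (.e (nat_lit 112489) (nat_lit 0) .nil) .nil))))) (.nd (nat_lit 8) (.nd (nat_lit 9) 
(.lf (nat_lit 480464) (.g (nat_lit 3827) (.e (nat_lit 5939) (nat_lit 322) (.e (nat_lit 57379) (nat_lit 3) (.e (nat_lit 98366) (nat_lit 27) (.e (nat_lit 434231) (nat_lit 23) (.e (nat_lit 532514) (nat_lit 3) (.e (nat_lit 114716) (nat_lit 22) (.e (nat_lit 90181) (nat_lit 16) (.e (nat_lit 229376) (nat_lit 0) .nil)))))))) (.g (nat_lit 1) (.e (nat_lit 111811) (nat_lit 0) .nil) .nil))) 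
(.lf (nat_lit 480976) (.g (nat_lit 2354) (.e (nat_lit 5949) (nat_lit 322) (.e (nat_lit 57409) (nat_lit 12) (.e (nat_lit 336443) (nat_lit 32) (.e (nat_lit 466974) (nat_lit 22) (.e (nat_lit 196654) (nat_lit 11) (.e (nat_lit 16386) (nat_lit 0) (.e (nat_lit 2486) (nat_lit 157) .nil))))))) (.g (nat_lit 1) (.e (nat_lit 112343) (nat_lit 0) .nil) .nil)))) (.nd (nat_lit 9) 
(.lf (nat_lit 480720) (.g (nat_lit 2132) (.e (nat_lit 5944) (nat_lit 322) (.e (nat_lit 57373) (nat_lit 2) (.e (nat_lit 90174) (nat_lit 14) (.e (nat_lit 180243) (nat_lit 5) (.e (nat_lit 532513) (nat_lit 3) .nil))))) (.g (nat_lit 0) (.e (nat_lit 112070) (nat_lit 0) .nil) .nil))) 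
(.lf (nat_lit 481232) (.g (nat_lit 3644) (.e (nat_lit 5293) (nat_lit 298) (.e (nat_lit 1250) (nat_lit 92) (.e (nat_lit 98372) (nat_lit 29) (.e (nat_lit 450588) (nat_lit 10) (.e (nat_lit 573452) (nat_lit 9) (.e (nat_lit 359) (nat_lit 30) (.e (nat_lit 409603) (nat_lit 0) .nil))))))) (.g (nat_lit 1) (.e (nat_lit 112790) (nat_lit 0) .nil) .nil))))))) 
(.nd (nat_lit 6) (.nd (nat_lit 7) (.nd (nat_lit 8) (.nd (nat_lit 9) 
(.lf (nat_lit 480304) (.g (nat_lit 1838) (.e (nat_lit 5937) (nat_lit 322) (.e (nat_lit 57377) (nat_lit 3) (.e (nat_lit 98365) (nat_lit 26) (.e (nat_lit 426327) (nat_lit 13) (.e (nat_lit 491264) (nat_lit 10) .nil))))) (.g (nat_lit 0) (.e (nat_lit 111636) (nat_lit 0) .nil) .nil))) 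
(.lf (nat_lit 480816) (.g (nat_lit 629) (.e (nat_lit 5947) (nat_lit 322) (.e (nat_lit 57371) (nat_lit 2) (.e (nat_lit 90171) (nat_lit 14) .nil))) (.g (nat_lit 0) (.e (nat_lit 112169) (nat_lit 0) .nil) .nil)))) (.nd (nat_lit 9) 
(.lf (nat_lit 480560) (.g (nat_lit 4117) (.e (nat_lit 5940) (nat_lit 322) (.e (nat_lit 57379) (nat_lit 3) (.e (nat_lit 98367) (nat_lit 27) (.e (nat_lit 434246) (nat_lit 28) (.e (nat_lit 573489) (nat_lit 14) (.e (nat_lit 73755) (nat_lit 8) (.e (nat_lit 557090) (nat_lit 12) (.e (nat_lit 163843) (nat_lit 0) .nil)))))))) (.g (nat_lit 1) (.e (nat_lit 111907) (nat_lit 0) .nil) .nil))) 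
(.lf (nat_lit 481072) (.g (nat_lit 4447) (.e (nat_lit 5953) (nat_lit 322) (.e (nat_lit 57373) (nat_lit 2) (.e (nat_lit 90173) (nat_lit 14) (.e (nat_lit 180252) (nat_lit 10) (.e (nat_lit 573489) (nat_lit 14) (.e (nat_lit 73755) (nat_lit 8) (.e (nat_lit 557090) (nat_lit 12) (.e (nat_lit 163852) (nat_lit 0) .nil)))))))) (.g (nat_lit 1) (.e (nat_lit 112454) (nat_lit 0) .nil) .nil))))) 
(.nd (nat_lit 8) (.nd (nat_lit 9) 
(.lf (nat_lit 480432) (.g (nat_lit 2661) (.e (nat_lit 5939) (nat_lit 322) (.e (nat_lit 57375) (nat_lit 2) (.e (nat_lit 90174) (nat_lit 14) (.e (nat_lit 180251) (nat_lit 10) (.e (nat_lit 573489) (nat_lit 14) (.e (nat_lit 73755) (nat_lit 8) (.e (nat_lit 557089) (nat_lit 12) (.e (nat_lit 163850) (nat_lit 0) .nil)))))))) (.g (nat_lit 1) (.e (nat_lit 111778) (nat_lit 0) .nil) .nil))) 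
(.lf (nat_lit 480944) (.g (nat_lit 3724) (.e (nat_lit 5949) (nat_lit 322) (.e (nat_lit 57373) (nat_lit 2) (.e (nat_lit 90174) (nat_lit 14) (.e (nat_lit 180250) (nat_lit 10) (.e (nat_lit 573487) (nat_lit 14) (.e (nat_lit 73753) (nat_lit 8) (.e (nat_lit 557091) (nat_lit 12) (.e (nat_lit 163856) (nat_lit 0) .nil)))))))) (.g (nat_lit 1) (.e (nat_lit 112300) (nat_lit 0) .nil) .nil)))) (.nd (nat_lit 9) 
(.lf (nat_lit 480688) (.g (nat_lit 2932) (.e (nat_lit 5943) (nat_lit 322) (.e (nat_lit 57375) (nat_lit 2) (.e (nat_lit 90174) (nat_lit 14) (.e (nat_lit 180251) (nat_lit 10) (.e (nat_lit 573489) (nat_lit 14) (.e (nat_lit 73755) (nat_lit 8) (.e (nat_lit 557091) (nat_lit 12) (.e (nat_lit 163845) (nat_lit 0) .nil)))))))) (.g (nat_lit 1) (.e (nat_lit 112037) (nat_lit 0) .nil) .nil))) 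
(.lf (nat_lit 481200) (.g (nat_lit 1005) (.e (nat_lit 5270) (nat_lit 298) (.e (nat_lit 1665) (nat_lit 115) (.e (nat_lit 393301) (nat_lit 27) (.e (nat_lit 491551) (nat_lit 9) .nil)))) (.g (nat_lit 0) (.e (nat_lit 112622) (nat_lit 0) .nil) .nil)))))) (.nd (nat_lit 7) (.nd (nat_lit 8) (.nd (nat_lit 9) 
(.lf (nat_lit 480368) (.g (nat_lit 2987) (.e (nat_lit 5937) (nat_lit 322) (.e (nat_lit 57449) (nat_lit 20) (.e (nat_lit 401454) (nat_lit 12) (.e (nat_lit 475210) (nat_lit 41) (.e (nat_lit 712755) (nat_lit 30) (.e (nat_lit 450560) (nat_lit 0) .nil)))))) (.g (nat_lit 1) (.e (nat_lit 111714) (nat_lit 0) .nil) .nil))) 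
(.lf (nat_lit 480880) (.g (nat_lit 2207) (.e (nat_lit 5948) (nat_lit 322) (.e (nat_lit 57378) (nat_lit 3) (.e (nat_lit 98365) (nat_lit 26) (.e (nat_lit 426326) (nat_lit 13) (.e (nat_lit 491264) (nat_lit 10) (.e (nat_lit 434216) (nat_lit 18) .nil)))))) (.g (nat_lit 1) (.e (nat_lit 112235) (nat_lit 0) .nil) .nil)))) (.nd (nat_lit 9) 
(.lf (nat_lit 480624) (.g (nat_lit 5143) (.e (nat_lit 5943) (nat_lit 322) (.e (nat_lit 57372) (nat_lit 2) (.e (nat_lit 90172) (nat_lit 14) (.e (nat_lit 180250) (nat_lit 10) (.e (nat_lit 573488) (nat_lit 14) (.e (nat_lit 73755) (nat_lit 8) (.e (nat_lit 557090) (nat_lit 12) (.e (nat_lit 163844) (nat_lit 0) .nil)))))))) (.g (nat_lit 1) (.e (nat_lit 111973) (nat_lit 0) .nil) .nil))) 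
(.lf (nat_lit 481136) (.g (nat_lit 2474) (.e (nat_lit 5954) (nat_lit 322) (.e (nat_lit 57412) (nat_lit 12) (.e (nat_lit 336226) (nat_lit 14) (.e (nat_lit 401437) (nat_lit 9) (.e (nat_lit 426546) (nat_lit 30) (.e (nat_lit 368384) (nat_lit 0) .nil)))))) (.g (nat_lit 1) (.e (nat_lit 112522) (nat_lit 0) .nil) .nil))))) (.nd (nat_lit 8) (.nd (nat_lit 9) 
(.lf (nat_lit 480496) (.g (nat_lit 2273) (.e (nat_lit 5939) (nat_lit 322) (.e (nat_lit 57379) (nat_lit 3) (.e (nat_lit 98368) (nat_lit 27) (.e (nat_lit 434245) (nat_lit 28) (.e (nat_lit 573488) (nat_lit 14) (.e (nat_lit 73755) (nat_lit 8) (.e (nat_lit 557091) (nat_lit 12) (.e (nat_lit 163840) (nat_lit 0) .nil)))))))) (.g (nat_lit 1) (.e (nat_lit 111843) (nat_lit 0) .nil) .nil))) 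
(.lf (nat_lit 481008) (.g (nat_lit 1438) (.e (nat_lit 5949) (nat_lit 322) (.e (nat_lit 57436) (nat_lit 17) (.e (nat_lit 376835) (nat_lit 0) (.e (nat_lit 3747) (nat_lit 228) (.e (nat_lit 786481) (nat_lit 30) .nil))))) (.g (nat_lit 0) (.e (nat_lit 112387) (nat_lit 0) .nil) .nil)))) (.nd (nat_lit 9) 
(.lf (nat_lit 480752) (.g (nat_lit 5243) (.e (nat_lit 5945) (nat_lit 322) (.e (nat_lit 57371) (nat_lit 2) (.e (nat_lit 90174) (nat_lit 14) (.e (nat_lit 180250) (nat_lit 10) (.e (nat_lit 573489) (nat_lit 14) (.e (nat_lit 73755) (nat_lit 8) (.e (nat_lit 557090) (nat_lit 12) (.e (nat_lit 163844) (nat_lit 0) .nil)))))))) (.g (nat_lit 1) (.e (nat_lit 112102) (nat_lit 0) .nil) .nil))) 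
(.lf (nat_lit 481264) (.g (nat_lit 2272) (.e (nat_lit 5381) (nat_lit 300) (.e (nat_lit 16461) (nat_lit 12) (.e (nat_lit 475198) (nat_lit 40) (.e (nat_lit 704595) (nat_lit 5) (.e (nat_lit 180285) (nat_lit 45) (.e (nat_lit 2425) (nat_lit 157) .nil)))))) (.g (nat_lit 1) (.e (nat_lit 112862) (nat_lit 0) .nil) .nil))))))))) 
(.nd (nat_lit 4) (.nd (nat_lit 5) (.nd (nat_lit 6) (.nd (nat_lit 7) (.nd (nat_lit 8) 
(.nd (nat_lit 9) 
(.lf (nat_lit 480264) (.g (nat_lit 3102) (.e (nat_lit 5937) (nat_lit 322) (.e (nat_lit 57372) (nat_lit 2) (.e (nat_lit 90172) (nat_lit 14) (.e (nat_lit 180250) (nat_lit 10) (.e (nat_lit 573487) (nat_lit 14) .nil))))) (.g (nat_lit 0) (.e (nat_lit 111596) (nat_lit 0) .nil) .nil))) 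
(.lf (nat_lit 480776) (.g (nat_lit 2820) (.e (nat_lit 5946) (nat_lit 322) (.e (nat_lit 57371) (nat_lit 2) (.e (nat_lit 90174) (nat_lit 14) (.e (nat_lit 180252) (nat_lit 10) (.e (nat_lit 573489) (nat_lit 14) (.e (nat_lit 73755) (nat_lit 8) (.e (nat_lit 557090) (nat_lit 12) (.e (nat_lit 163854) (nat_lit 0) .nil)))))))) (.g (nat_lit 1) (.e (nat_lit 112126) (nat_lit 0) .nil) .nil)))) (.nd (nat_lit 9) 
(.lf (nat_lit 480520) (.g (nat_lit 2887) (.e (nat_lit 5940) (nat_lit 322) (.e (nat_lit 57372) (nat_lit 2) (.e (nat_lit 90174) (nat_lit 14) (.e (nat_lit 180250) (nat_lit 10) (.e (nat_lit 573489) (nat_lit 14) .nil))))) (.g (nat_lit 0) (.e (nat_lit 111867) (nat_lit 0) .nil) .nil))) 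
(.lf (nat_lit 481032) (.g (nat_lit 2728) (.e (nat_lit 5951) (nat_lit 322) (.e (nat_lit 57371) (nat_lit 2) (.e (nat_lit 90172) (nat_lit 14) (.e (nat_lit 180250) (nat_lit 10) (.e (nat_lit 573487) (nat_lit 14) (.e (nat_lit 73753) (nat_lit 8) (.e (nat_lit 557090) (nat_lit 12) (.e (nat_lit 163850) (nat_lit 0) .nil)))))))) (.g (nat_lit 1) (.e (nat_lit 112414) (nat_lit 0) .nil) .nil))))) 
(.nd (nat_lit 8) (.nd (nat_lit 9) 
(.lf (nat_lit 480392) (.g (nat_lit 2910) (.e (nat_lit 5939) (nat_lit 322) (.e (nat_lit 57372) (nat_lit 2) (.e (nat_lit 90174) (nat_lit 14) (.e (nat_lit 180243) (nat_lit 5) (.e (nat_lit 532513) (nat_lit 3) (.e (nat_lit 114714) (nat_lit 22) (.e (nat_lit 90181) (nat_lit 16) (.e (nat_lit 229378) (nat_lit 0) .nil)))))))) (.g (nat_lit 1) (.e (nat_lit 111738) (nat_lit 0) .nil) .nil))) 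
(.lf (nat_lit 480904) (.g (nat_lit 762) (.e (nat_lit 5948) (nat_lit 322) (.e (nat_lit 57423) (nat_lit 14) (.e (nat_lit 352265) (nat_lit 0) .nil))) (.g (nat_lit 0) (.e (nat_lit 112259) (nat_lit 0) .nil) .nil)))) (.nd (nat_lit 9) 
(.lf (nat_lit 480648) (.g (nat_lit 3951) (.e (nat_lit 5943) (nat_lit 322) (.e (nat_lit 57372) (nat_lit 2) (.e (nat_lit 90174) (nat_lit 14) (.e (nat_lit 180252) (nat_lit 10) (.e (nat_lit 573489) (nat_lit 14) (.e (nat_lit 73755) (nat_lit 8) (.e (nat_lit 557090) (nat_lit 12) (.e (nat_lit 163843) (nat_lit 0) .nil)))))))) (.g (nat_lit 1) (.e (nat_lit 111997) (nat_lit 0) .nil) .nil))) 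
(.lf (nat_lit 481160) (.g (nat_lit 3066) (.e (nat_lit 5270) (nat_lit 298) (.e (nat_lit 1239) (nat_lit 91) (.e (nat_lit 90170) (nat_lit 13) (.e (nat_lit 172106) (nat_lit 10) (.e (nat_lit 434244) (nat_lit 28) (.e (nat_lit 573451) (nat_lit 9) (.e (nat_lit 7936) (nat_lit 30) (.e (nat_lit 409603) (nat_lit 0) .nil)))))))) (.g (nat_lit 1) (.e (nat_lit 112582) (nat_lit 0) .nil) .nil)))))) 
(.nd (nat_lit 7) (.nd (nat_lit 8) (.nd (nat_lit 9) 
(.lf (nat_lit 480328) (.g (nat_lit 2438) (.e (nat_lit 5937) (nat_lit 322) (.e (nat_lit 57378) (nat_lit 3) (.e (nat_lit 98368) (nat_lit 27) (.e (nat_lit 434248) (nat_lit 28) (.e (nat_lit 573487) (nat_lit 14) (.e (nat_lit 73753) (nat_lit 8) (.e (nat_lit 557090) (nat_lit 12) (.e (nat_lit 163840) (nat_lit 0) .nil)))))))) (.g (nat_lit 1) (.e (nat_lit 111664) (nat_lit 0) .nil) .nil))) 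
(.lf (nat_lit 480840) (.g (nat_lit 2908) (.e (nat_lit 5947) (nat_lit 322) (.e (nat_lit 57409) (nat_lit 12) (.e (nat_lit 336443) (nat_lit 32) (.e (nat_lit 466977) (nat_lit 22) (.e (nat_lit 196656) (nat_lit 11) .nil))))) (.g (nat_lit 0) (.e (nat_lit 112193) (nat_lit 0) .nil) .nil)))) (.nd (nat_lit 9) 
(.lf (nat_lit 480584) (.g (nat_lit 2934) (.e (nat_lit 5941) (nat_lit 322) (.e (nat_lit 57374) (nat_lit 2) (.e (nat_lit 90173) (nat_lit 14) (.e (nat_lit 180252) (nat_lit 10) (.e (nat_lit 573489) (nat_lit 14) (.e (nat_lit 73755) (nat_lit 8) (.e (nat_lit 557090) (nat_lit 12) (.e (nat_lit 163843) (nat_lit 0) .nil)))))))) (.g (nat_lit 1) (.e (nat_lit 111931) (nat_lit 0) .nil) .nil))) 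
(.lf (nat_lit 481096) (.g (nat_lit 1801) (.e (nat_lit 5953) (nat_lit 322) (.e (nat_lit 57378) (nat_lit 3) (.e (nat_lit 98365) (nat_lit 26) (.e (nat_lit 426327) (nat_lit 13) .nil)))) (.g (nat_lit 0) (.e (nat_lit 112478) (nat_lit 0) .nil) .nil))))) (.nd (nat_lit 8) (.nd (nat_lit 9) 
(.lf (nat_lit 480456) (.g (nat_lit 1995) (.e (nat_lit 5939) (nat_lit 322) (.e (nat_lit 57379) (nat_lit 3) (.e (nat_lit 98366) (nat_lit 27) (.e (nat_lit 434231) (nat_lit 23) (.e (nat_lit 532507) (nat_lit 2) (.e (nat_lit 106517) (nat_lit 9) (.e (nat_lit 1255) (nat_lit 92) (.e (nat_lit 98326) (nat_lit 17) (.e (nat_lit 2458) (nat_lit 157) .nil))))))))) (.g (nat_lit 1) (.e (nat_lit 111803) (nat_lit 0) .nil) .nil))) 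
(.lf (nat_lit 480968) (.g (nat_lit 4877) (.e (nat_lit 5949) (nat_lit 322) (.e (nat_lit 57389) (nat_lit 5) (.e (nat_lit 114712) (nat_lit 21) (.e (nat_lit 57930) (nat_lit 282) (.e (nat_lit 163923) (nat_lit 15) (.e (nat_lit 450587) (nat_lit 10) (.e (nat_lit 573477) (nat_lit 12) (.e (nat_lit 57360) (nat_lit 0) .nil)))))))) (.g (nat_lit 1) (.e (nat_lit 112326) (nat_lit 0) .nil) .nil)))) 
(.nd (nat_lit 9) 
(.lf (nat_lit 480712) (.g (nat_lit 3849) (.e (nat_lit 5943) (nat_lit 322) (.e (nat_lit 57379) (nat_lit 3) (.e (nat_lit 98368) (nat_lit 27) (.e (nat_lit 434245) (nat_lit 28) (.e (nat_lit 573488) (nat_lit 14) (.e (nat_lit 73755) (nat_lit 8) (.e (nat_lit 557090) (nat_lit 12) (.e (nat_lit 163844) (nat_lit 0) .nil)))))))) (.g (nat_lit 1) (.e (nat_lit 112062) (nat_lit 0) .nil) .nil))) 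
(.lf (nat_lit 481224) (.g (nat_lit 2051) (.e (nat_lit 5293) (nat_lit 298) (.e (nat_lit 1232) (nat_lit 91) (.e (nat_lit 90170) (nat_lit 13) (.e (nat_lit 172113) (nat_lit 10) (.e (nat_lit 434247) (nat_lit 28) .nil))))) (.g (nat_lit 0) (.e (nat_lit 112782) (nat_lit 0) .nil) .nil))))))) (.nd (nat_lit 6) (.nd (nat_lit 7) (.nd (nat_lit 8) (.nd (nat_lit 9) 
(.lf (nat_lit 480296) (.g (nat_lit 3322) (.e (nat_lit 5937) (nat_lit 322) (.e (nat_lit 57375) (nat_lit 2) (.e (nat_lit 90174) (nat_lit 14) (.e (nat_lit 180251) (nat_lit 10) (.e (nat_lit 573489) (nat_lit 14) (.e (nat_lit 73755) (nat_lit 8) (.e (nat_lit 557091) (nat_lit 12) (.e (nat_lit 163840) (nat_lit 0) .nil)))))))) (.g (nat_lit 1) (.e (nat_lit 111628) (nat_lit 0) .nil) .nil))) 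
(.lf (nat_lit 480808) (.g (nat_lit 1733) (.e (nat_lit 5946) (nat_lit 322) (.e (nat_lit 57409) (nat_lit 12) (.e (nat_lit 336443) (nat_lit 32) (.e (nat_lit 466977) (nat_lit 22) .nil)))) (.g (nat_lit 0) (.e (nat_lit 112158) (nat_lit 0) .nil) .nil)))) (.nd (nat_lit 9) 
(.lf (nat_lit 480552) (.g (nat_lit 5873) (.e (nat_lit 5940) (nat_lit 322) (.e (nat_lit 57375) (nat_lit 2) (.e (nat_lit 90174) (nat_lit 14) (.e (nat_lit 180251) (nat_lit 10) (.e (nat_lit 573489) (nat_lit 14) (.e (nat_lit 73755) (nat_lit 8) (.e (nat_lit 557090) (nat_lit 12) (.e (nat_lit 163843) (nat_lit 0) .nil)))))))) (.g (nat_lit 1) (.e (nat_lit 111899) (nat_lit 0) .nil) .nil))) 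
(.lf (nat_lit 481064) (.g (nat_lit 4422) (.e (nat_lit 5953) (nat_lit 322) (.e (nat_lit 57371) (nat_lit 2) (.e (nat_lit 90174) (nat_lit 14) (.e (nat_lit 180251) (nat_lit 10) (.e (nat_lit 573489) (nat_lit 14) (.e (nat_lit 73755) (nat_lit 8) (.e (nat_lit 557090) (nat_lit 12) (.e (nat_lit 163852) (nat_lit 0) .nil)))))))) (.g (nat_lit 1) (.e (nat_lit 112446) (nat_lit 0) .nil) .nil))))) 
(.nd (nat_lit 8) (.nd (nat_lit 9) 
(.lf (nat_lit 480424) (.g (nat_lit 3683) (.e (nat_lit 5939) (nat_lit 322) (.e (nat_lit 57375) (nat_lit 2) (.e (nat_lit 90174) (nat_lit 14) (.e (nat_lit 180243) (nat_lit 5) (.e (nat_lit 532515) (nat_lit 3) (.e (nat_lit 114716) (nat_lit 22) (.e (nat_lit 90164) (nat_lit 12) (.e (nat_lit 163850) (nat_lit 0) .nil)))))))) (.g (nat_lit 1) (.e (nat_lit 111770) (nat_lit 0) .nil) .nil))) 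
(.lf (nat_lit 480936) (.g (nat_lit 4826) (.e (nat_lit 5949) (nat_lit 322) (.e (nat_lit 57373) (nat_lit 2) (.e (nat_lit 90174) (nat_lit 14) (.e (nat_lit 180243) (nat_lit 5) (.e (nat_lit 532513) (nat_lit 3) (.e (nat_lit 114714) (nat_lit 22) (.e (nat_lit 90165) (nat_lit 12) (.e (nat_lit 163857) (nat_lit 0) .nil)))))))) (.g (nat_lit 1) (.e (nat_lit 112292) (nat_lit 0) .nil) .nil)))) (.nd (nat_lit 9) 
(.lf (nat_lit 480680) (.g (nat_lit 2762) (.e (nat_lit 5943) (nat_lit 322) (.e (nat_lit 57375) (nat_lit 2) (.e (nat_lit 90174) (nat_lit 14) (.e (nat_lit 180250) (nat_lit 10) (.e (nat_lit 573489) (nat_lit 14) (.e (nat_lit 73755) (nat_lit 8) (.e (nat_lit 557091) (nat_lit 12) (.e (nat_lit 163844) (nat_lit 0) .nil)))))))) (.g (nat_lit 1) (.e (nat_lit 112029) (nat_lit 0) .nil) .nil))) 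
(.lf (nat_lit 481192) (.g (nat_lit 5013) (.e (nat_lit 5270) (nat_lit 298) (.e (nat_lit 1239) (nat_lit 91) (.e (nat_lit 90170) (nat_lit 13) (.e (nat_lit 172113) (nat_lit 10) (.e (nat_lit 434248) (nat_lit 28) (.e (nat_lit 573452) (nat_lit 9) (.e (nat_lit 359) (nat_lit 30) (.e (nat_lit 409605) (nat_lit 0) .nil)))))))) (.g (nat_lit 1) (.e (nat_lit 112614) (nat_lit 0) .nil) .nil)))))) 
(.nd (nat_lit 7) (.nd (nat_lit 8) (.nd (nat_lit 9) 
(.lf (nat_lit 480360) (.g (nat_lit 3234) (.e (nat_lit 5937) (nat_lit 322) (.e (nat_lit 57412) (nat_lit 12) (.e (nat_lit 336226) (nat_lit 14) (.e (nat_lit 401437) (nat_lit 9) (.e (nat_lit 426546) (nat_lit 30) (.e (nat_lit 368384) (nat_lit 0) .nil)))))) (.g (nat_lit 1) (.e (nat_lit 111703) (nat_lit 0) .nil) .nil))) 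
(.lf (nat_lit 480872) (.g (nat_lit 2849) (.e (nat_lit 5948) (nat_lit 322) (.e (nat_lit 57373) (nat_lit 2) (.e (nat_lit 90174) (nat_lit 14) (.e (nat_lit 180251) (nat_lit 10) (.e (nat_lit 573489) (nat_lit 14) .nil))))) (.g (nat_lit 0) (.e (nat_lit 112226) (nat_lit 0) .nil) .nil)))) (.nd (nat_lit 9) 
(.lf (nat_lit 480616) (.g (nat_lit 2825) (.e (nat_lit 5942) (nat_lit 322) (.e (nat_lit 57378) (nat_lit 3) (.e (nat_lit 98367) (nat_lit 27) (.e (nat_lit 434247) (nat_lit 28) (.e (nat_lit 573489) (nat_lit 14) (.e (nat_lit 73755) (nat_lit 8) (.e (nat_lit 557090) (nat_lit 12) (.e (nat_lit 163843) (nat_lit 0) .nil)))))))) (.g (nat_lit 1) (.e (nat_lit 111965) (nat_lit 0) .nil) .nil))) 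
(.lf (nat_lit 481128) (.g (nat_lit 3650) (.e (nat_lit 5954) (nat_lit 322) (.e (nat_lit 57373) (nat_lit 2) (.e (nat_lit 90174) (nat_lit 14) (.e (nat_lit 180252) (nat_lit 10) (.e (nat_lit 573489) (nat_lit 14) (.e (nat_lit 73755) (nat_lit 8) (.e (nat_lit 557090) (nat_lit 12) (.e (nat_lit 163845) (nat_lit 0) .nil)))))))) (.g (nat_lit 1) (.e (nat_lit 112514) (nat_lit 0) .nil) .nil))))) 
(.nd (nat_lit 8) (.nd (nat_lit 9) 
(.lf (nat_lit 480488) (.g (nat_lit 1810) (.e (nat_lit 5939) (nat_lit 322) (.e (nat_lit 57379) (nat_lit 3) (.e (nat_lit 98367) (nat_lit 27) (.e (nat_lit 434234) (nat_lit 23) .nil)))) (.g (nat_lit 0) (.e (nat_lit 111835) (nat_lit 0) .nil) .nil))) 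
(.lf (nat_lit 481000) (.g (nat_lit 872) (.e (nat_lit 5949) (nat_lit 322) (.e (nat_lit 57421) (nat_lit 13) (.e (nat_lit 344068) (nat_lit 0) (.e (nat_lit 2857) (nat_lit 184) .nil)))) (.g (nat_lit 0) (.e (nat_lit 112370) (nat_lit 0) .nil) .nil)))) (.nd (nat_lit 9) 
(.lf (nat_lit 480744) (.g (nat_lit 3045) (.e (nat_lit 5944) (nat_lit 322) (.e (nat_lit 57412) (nat_lit 12) (.e (nat_lit 336226) (nat_lit 14) (.e (nat_lit 401437) (nat_lit 9) (.e (nat_lit 426546) (nat_lit 30) (.e (nat_lit 368384) (nat_lit 0) .nil)))))) (.g (nat_lit 1) (.e (nat_lit 112094) (nat_lit 0) .nil) .nil))) 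
(.lf (nat_lit 481256) (.g (nat_lit 2955) (.e (nat_lit 5373) (nat_lit 299) (.e (nat_lit 8234) (nat_lit 20) (.e (nat_lit 573482) (nat_lit 13) (.e (nat_lit 65619) (nat_lit 10) (.e (nat_lit 344117) (nat_lit 21) .nil))))) (.g (nat_lit 0) (.e (nat_lit 112839) (nat_lit 0) .nil) .nil)))))))) (.nd (nat_lit 5) (.nd (nat_lit 6) (.nd (nat_lit 7) (.nd (nat_lit 8) (.nd (nat_lit 9) 
(.lf (nat_lit 480280) (.g (nat_lit 2677) (.e (nat_lit 5937) (nat_lit 322) (.e (nat_lit 57373) (nat_lit 2) (.e (nat_lit 90174) (nat_lit 14) (.e (nat_lit 180250) (nat_lit 10) (.e (nat_lit 573487) (nat_lit 14) (.e (nat_lit 73753) (nat_lit 8) (.e (nat_lit 557094) (nat_lit 12) (.e (nat_lit 171776) (nat_lit 0) .nil)))))))) (.g (nat_lit 1) (.e (nat_lit 111612) (nat_lit 0) .nil) .nil))) 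
(.lf (nat_lit 480792) (.g (nat_lit 2957) (.e (nat_lit 5946) (nat_lit 322) (.e (nat_lit 57373) (nat_lit 2) (.e (nat_lit 90174) (nat_lit 14) (.e (nat_lit 180251) (nat_lit 10) (.e (nat_lit 573489) (nat_lit 14) (.e (nat_lit 73754) (nat_lit 8) (.e (nat_lit 557094) (nat_lit 12) (.e (nat_lit 163840) (nat_lit 0) .nil)))))))) (.g (nat_lit 1) (.e (nat_lit 112142) (nat_lit 0) .nil) .nil)))) (.nd (nat_lit 9) 
(.lf (nat_lit 480536) (.g (nat_lit 4883) (.e (nat_lit 5940) (nat_lit 322) (.e (nat_lit 57374) (nat_lit 2) (.e (nat_lit 90174) (nat_lit 14) (.e (nat_lit 180251) (nat_lit 10) (.e (nat_lit 573489) (nat_lit 14) (.e (nat_lit 73755) (nat_lit 8) (.e (nat_lit 557090) (nat_lit 12) (.e (nat_lit 163843) (nat_lit 0) .nil)))))))) (.g (nat_lit 1) (.e (nat_lit 111883) (nat_lit 0) .nil) .nil))) 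
(.lf (nat_lit 481048) (.g (nat_lit 3116) (.e (nat_lit 5951) (nat_lit 322) (.e (nat_lit 57373) (nat_lit 2) (.e (nat_lit 90174) (nat_lit 14) (.e (nat_lit 180252) (nat_lit 10) (.e (nat_lit 573489) (nat_lit 14) .nil))))) (.g (nat_lit 0) (.e (nat_lit 112430) (nat_lit 0) .nil) .nil))))) (.nd (nat_lit 8) (.nd (nat_lit 9) 
(.lf (nat_lit 480408) (.g (nat_lit 3108) (.e (nat_lit 5939) (nat_lit 322) (.e (nat_lit 57372) (nat_lit 2) (.e (nat_lit 90174) (nat_lit 14) (.e (nat_lit 180251) (nat_lit 10) (.e (nat_lit 573489) (nat_lit 14) (.e (nat_lit 73755) (nat_lit 8) (.e (nat_lit 557091) (nat_lit 12) (.e (nat_lit 163851) (nat_lit 0) .nil)))))))) (.g (nat_lit 1) (.e (nat_lit 111754) (nat_lit 0) .nil) .nil))) 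
(.lf (nat_lit 480920) (.g (nat_lit 2820) (.e (nat_lit 5949) (nat_lit 322) (.e (nat_lit 57371) (nat_lit 2) (.e (nat_lit 90174) (nat_lit 14) (.e (nat_lit 180250) (nat_lit 10) (.e (nat_lit 573487) (nat_lit 14) (.e (nat_lit 73753) (nat_lit 8) (.e (nat_lit 557093) (nat_lit 12) (.e (nat_lit 163857) (nat_lit 0) .nil)))))))) (.g (nat_lit 1) (.e (nat_lit 112276) (nat_lit 0) .nil) .nil)))) (.nd (nat_lit 9) 
(.lf (nat_lit 480664) (.g (nat_lit 2743) (.e (nat_lit 5943) (nat_lit 322) (.e (nat_lit 57374) (nat_lit 2) (.e (nat_lit 90174) (nat_lit 14) (.e (nat_lit 180252) (nat_lit 10) (.e (nat_lit 573489) (nat_lit 14) (.e (nat_lit 73755) (nat_lit 8) (.e (nat_lit 557090) (nat_lit 12) (.e (nat_lit 163843) (nat_lit 0) .nil)))))))) (.g (nat_lit 1) (.e (nat_lit 112013) (nat_lit 0) .nil) .nil))) 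
(.lf (nat_lit 481176) (.g (nat_lit 3269) (.e (nat_lit 5270) (nat_lit 298) (.e (nat_lit 1239) (nat_lit 91) (.e (nat_lit 90170) (nat_lit 13) (.e (nat_lit 172113) (nat_lit 10) (.e (nat_lit 434245) (nat_lit 28) (.e (nat_lit 573458) (nat_lit 9) (.e (nat_lit 7936) (nat_lit 30) (.e (nat_lit 409603) (nat_lit 0) .nil)))))))) (.g (nat_lit 1) (.e (nat_lit 112598) (nat_lit 0) .nil) .nil)))))) 
(.nd (nat_lit 7) (.nd (nat_lit 8) (.nd (nat_lit 9) 
(.lf (nat_lit 480344) (.g (nat_lit 2820) (.e (nat_lit 5937) (nat_lit 322) (.e (nat_lit 57379) (nat_lit 3) (.e (nat_lit 98367) (nat_lit 27) (.e (nat_lit 434231) (nat_lit 23) (.e (nat_lit 532514) (nat_lit 3) (.e (nat_lit 114716) (nat_lit 22) (.e (nat_lit 90181) (nat_lit 16) (.e (nat_lit 229376) (nat_lit 0) .nil)))))))) (.g (nat_lit 1) (.e (nat_lit 111680) (nat_lit 0) .nil) .nil))) 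
(.lf (nat_lit 480856) (.g (nat_lit 2532) (.e (nat_lit 5948) (nat_lit 322) (.e (nat_lit 57371) (nat_lit 2) (.e (nat_lit 90174) (nat_lit 14) (.e (nat_lit 180250) (nat_lit 10) (.e (nat_lit 573487) (nat_lit 14) (.e (nat_lit 73753) (nat_lit 8) (.e (nat_lit 557094) (nat_lit 12) (.e (nat_lit 163856) (nat_lit 0) .nil)))))))) (.g (nat_lit 1) (.e (nat_lit 112210) (nat_lit 0) .nil) .nil)))) (.nd (nat_lit 9) 
(.lf (nat_lit 480600) (.g (nat_lit 5649) (.e (nat_lit 5942) (nat_lit 322) (.e (nat_lit 57373) (nat_lit 2) (.e (nat_lit 90174) (nat_lit 14) (.e (nat_lit 180251) (nat_lit 10) (.e (nat_lit 573489) (nat_lit 14) (.e (nat_lit 73755) (nat_lit 8) (.e (nat_lit 557090) (nat_lit 12) (.e (nat_lit 163843) (nat_lit 0) .nil)))))))) (.g (nat_lit 1) (.e (nat_lit 111949) (nat_lit 0) .nil) .nil))) 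
(.lf (nat_lit 481112) (.g (nat_lit 4606) (.e (nat_lit 5954) (nat_lit 322) (.e (nat_lit 57371) (nat_lit 2) (.e (nat_lit 90174) (nat_lit 14) (.e (nat_lit 180251) (nat_lit 10) (.e (nat_lit 573489) (nat_lit 14) (.e (nat_lit 73755) (nat_lit 8) (.e (nat_lit 557090) (nat_lit 12) (.e (nat_lit 163841) (nat_lit 0) .nil)))))))) (.g (nat_lit 1) (.e (nat_lit 112498) (nat_lit 0) .nil) .nil))))) 
(.nd (nat_lit 8) (.nd (nat_lit 9) 
(.lf (nat_lit 480472) (.g (nat_lit 3486) (.e (nat_lit 5939) (nat_lit 322) (.e (nat_lit 57379) (nat_lit 3) (.e (nat_lit 98366) (nat_lit 27) (.e (nat_lit 434247) (nat_lit 28) (.e (nat_lit 573489) (nat_lit 14) (.e (nat_lit 73755) (nat_lit 8) (.e (nat_lit 557091) (nat_lit 12) (.e (nat_lit 163840) (nat_lit 0) .nil)))))))) (.g (nat_lit 1) (.e (nat_lit 111819) (nat_lit 0) .nil) .nil))) 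
(.lf (nat_lit 480984) (.g (nat_lit 2244) (.e (nat_lit 5949) (nat_lit 322) (.e (nat_lit 57409) (nat_lit 12) (.e (nat_lit 336443) (nat_lit 32) (.e (nat_lit 466977) (nat_lit 22) (.e (nat_lit 196654) (nat_lit 11) (.e (nat_lit 16386) (nat_lit 0) (.e (nat_lit 2486) (nat_lit 157) .nil))))))) (.g (nat_lit 1) (.e (nat_lit 112351) (nat_lit 0) .nil) .nil)))) (.nd (nat_lit 9) 
(.lf (nat_lit 480728) (.g (nat_lit 4181) (.e (nat_lit 5944) (nat_lit 322) (.e (nat_lit 57373) (nat_lit 2) (.e (nat_lit 90174) (nat_lit 14) (.e (nat_lit 180251) (nat_lit 10) (.e (nat_lit 573489) (nat_lit 14) (.e (nat_lit 73755) (nat_lit 8) (.e (nat_lit 557091) (nat_lit 12) (.e (nat_lit 163855) (nat_lit 0) .nil)))))))) (.g (nat_lit 1) (.e (nat_lit 112078) (nat_lit 0) .nil) .nil))) 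
(.lf (nat_lit 481240) (.g (nat_lit 1783) (.e (nat_lit 5293) (nat_lit 298) (.e (nat_lit 1626) (nat_lit 114) (.e (nat_lit 385109) (nat_lit 51) (.e (nat_lit 794677) (nat_lit 24) (.e (nat_lit 213030) (nat_lit 11) .nil))))) (.g (nat_lit 0) (.e (nat_lit 112801) (nat_lit 0) .nil) .nil))))))) (.nd (nat_lit 6) (.nd (nat_lit 7) (.nd (nat_lit 8) (.nd (nat_lit 9) 
(.lf (nat_lit 480312) (.g (nat_lit 2466) (.e (nat_lit 5937) (nat_lit 322) (.e (nat_lit 57378) (nat_lit 3) (.e (nat_lit 98365) (nat_lit 26) (.e (nat_lit 426325) (nat_lit 13) (.e (nat_lit 491264) (nat_lit 10) .nil))))) (.g (nat_lit 0) (.e (nat_lit 111648) (nat_lit 0) .nil) .nil))) 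
(.lf (nat_lit 480824) (.g (nat_lit 3824) (.e (nat_lit 5947) (nat_lit 322) (.e (nat_lit 57371) (nat_lit 2) (.e (nat_lit 90174) (nat_lit 14) (.e (nat_lit 180250) (nat_lit 10) (.e (nat_lit 573487) (nat_lit 14) (.e (nat_lit 73753) (nat_lit 8) (.e (nat_lit 557093) (nat_lit 12) (.e (nat_lit 163857) (nat_lit 0) .nil)))))))) (.g (nat_lit 1) (.e (nat_lit 112177) (nat_lit 0) .nil) .nil)))) (.nd (nat_lit 9) 
(.lf (nat_lit 480568) (.g (nat_lit 3132) (.e (nat_lit 5941) (nat_lit 322) (.e (nat_lit 57372) (nat_lit 2) (.e (nat_lit 90172) (nat_lit 14) (.e (nat_lit 180252) (nat_lit 10) (.e (nat_lit 573489) (nat_lit 14) (.e (nat_lit 73755) (nat_lit 8) (.e (nat_lit 557090) (nat_lit 12) (.e (nat_lit 163843) (nat_lit 0) .nil)))))))) (.g (nat_lit 1) (.e (nat_lit 111915) (nat_lit 0) .nil) .nil))) 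
(.lf (nat_lit 481080) (.g (nat_lit 1869) (.e (nat_lit 5953) (nat_lit 322) (.e (nat_lit 57373) (nat_lit 2) (.e (nat_lit 90174) (nat_lit 14) (.e (nat_lit 180251) (nat_lit 10) .nil)))) (.g (nat_lit 0) (.e (nat_lit 112462) (nat_lit 0) .nil) .nil))))) (.nd (nat_lit 8) (.nd (nat_lit 9) 
(.lf (nat_lit 480440) (.g (nat_lit 3139) (.e (nat_lit 5939) (nat_lit 322) (.e (nat_lit 57379) (nat_lit 3) (.e (nat_lit 98365) (nat_lit 26) (.e (nat_lit 426325) (nat_lit 13) (.e (nat_lit 483341) (nat_lit 9) (.e (nat_lit 426009) (nat_lit 0) (.e (nat_lit 2469) (nat_lit 157) .nil))))))) (.g (nat_lit 1) (.e (nat_lit 111787) (nat_lit 0) .nil) .nil))) 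
(.lf (nat_lit 480952) (.g (nat_lit 5345) (.e (nat_lit 5949) (nat_lit 322) (.e (nat_lit 57373) (nat_lit 2) (.e (nat_lit 90174) (nat_lit 14) (.e (nat_lit 180251) (nat_lit 10) (.e (nat_lit 573489) (nat_lit 14) (.e (nat_lit 73755) (nat_lit 8) (.e (nat_lit 557091) (nat_lit 12) (.e (nat_lit 163856) (nat_lit 0) .nil)))))))) (.g (nat_lit 1) (.e (nat_lit 112308) (nat_lit 0) .nil) .nil)))) (.nd (nat_lit 9) 
(.lf (nat_lit 480696) (.g (nat_lit 4992) (.e (nat_lit 5943) (nat_lit 322) (.e (nat_lit 57379) (nat_lit 3) (.e (nat_lit 98366) (nat_lit 27) (.e (nat_lit 434247) (nat_lit 28) (.e (nat_lit 573489) (nat_lit 14) (.e (nat_lit 73755) (nat_lit 8) (.e (nat_lit 557090) (nat_lit 12) (.e (nat_lit 163844) (nat_lit 0) .nil)))))))) (.g (nat_lit 1) (.e (nat_lit 112046) (nat_lit 0) .nil) .nil))) 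
(.lf (nat_lit 481208) (.g (nat_lit 4598) (.e (nat_lit 5259) (nat_lit 298) (.e (nat_lit 162) (nat_lit 11) (.e (nat_lit 196670) (nat_lit 14) (.e (nat_lit 73754) (nat_lit 8) (.e (nat_lit 557105) (nat_lit 14) (.e (nat_lit 180252) (nat_lit 10) (.e (nat_lit 573503) (nat_lit 18) (.e (nat_lit 7936) (nat_lit 81) .nil)))))))) (.g (nat_lit 1) (.e (nat_lit 112643) (nat_lit 0) .nil) .nil)))))) 
(.nd (nat_lit 7) (.nd (nat_lit 8) (.nd (nat_lit 9) 
(.lf (nat_lit 480376) (.g (nat_lit 2653) (.e (nat_lit 5938) (nat_lit 322) (.e (nat_lit 57372) (nat_lit 2) (.e (nat_lit 90174) (nat_lit 14) (.e (nat_lit 180250) (nat_lit 10) (.e (nat_lit 573489) (nat_lit 14) .nil))))) (.g (nat_lit 0) (.e (nat_lit 111722) (nat_lit 0) .nil) .nil))) 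
(.lf (nat_lit 480888) (.g (nat_lit 2923) (.e (nat_lit 5948) (nat_lit 322) (.e (nat_lit 57409) (nat_lit 12) (.e (nat_lit 336443) (nat_lit 32) (.e (nat_lit 466977) (nat_lit 22) (.e (nat_lit 196656) (nat_lit 11) (.e (nat_lit 16396) (nat_lit 0) (.e (nat_lit 2515) (nat_lit 157) .nil))))))) (.g (nat_lit 1) (.e (nat_lit 112243) (nat_lit 0) .nil) .nil)))) (.nd (nat_lit 9) 
(.lf (nat_lit 480632) (.g (nat_lit 4342) (.e (nat_lit 5943) (nat_lit 322) (.e (nat_lit 57372) (nat_lit 2) (.e (nat_lit 90173) (nat_lit 14) (.e (nat_lit 180252) (nat_lit 10) (.e (nat_lit 573489) (nat_lit 14) (.e (nat_lit 73755) (nat_lit 8) (.e (nat_lit 557090) (nat_lit 12) (.e (nat_lit 163844) (nat_lit 0) .nil)))))))) (.g (nat_lit 1) (.e (nat_lit 111981) (nat_lit 0) .nil) .nil))) 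
(.lf (nat_lit 481144) (.g (nat_lit 2075) (.e (nat_lit 5245) (nat_lit 298) (.e (nat_lit 1239) (nat_lit 91) (.e (nat_lit 90170) (nat_lit 13) (.e (nat_lit 172113) (nat_lit 10) (.e (nat_lit 434247) (nat_lit 28) (.e (nat_lit 573457) (nat_lit 9) (.e (nat_lit 359) (nat_lit 30) (.e (nat_lit 409603) (nat_lit 0) .nil)))))))) (.g (nat_lit 1) (.e (nat_lit 112546) (nat_lit 0) .nil) .nil))))) 
(.nd (nat_lit 8) (.nd (nat_lit 9) 
(.lf (nat_lit 480504) (.g (nat_lit 1709) (.e (nat_lit 5939) (nat_lit 322) (.e (nat_lit 57437) (nat_lit 17) (.e (nat_lit 376835) (nat_lit 0) (.e (nat_lit 3746) (nat_lit 228) (.e (nat_lit 786483) (nat_lit 30) (.e (nat_lit 368384) (nat_lit 0) .nil)))))) (.g (nat_lit 1) (.e (nat_lit 111851) (nat_lit 0) .nil) .nil))) 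
(.lf (nat_lit 481016) (.g (nat_lit 3379) (.e (nat_lit 5950) (nat_lit 322) (.e (nat_lit 57371) (nat_lit 2) (.e (nat_lit 90173) (nat_lit 14) (.e (nat_lit 180252) (nat_lit 10) (.e (nat_lit 573489) (nat_lit 14) (.e (nat_lit 73755) (nat_lit 8) (.e (nat_lit 557090) (nat_lit 12) (.e (nat_lit 163840) (nat_lit 0) .nil)))))))) (.g (nat_lit 1) (.e (nat_lit 112398) (nat_lit 0) .nil) .nil)))) (.nd (nat_lit 9) 
(.lf (nat_lit 480760) (.g (nat_lit 2452) (.e (nat_lit 5945) (nat_lit 322) (.e (nat_lit 57373) (nat_lit 2) (.e (nat_lit 90174) (nat_lit 14) (.e (nat_lit 180250) (nat_lit 10) (.e (nat_lit 573489) (nat_lit 14) (.e (nat_lit 73755) (nat_lit 8) (.e (nat_lit 557091) (nat_lit 12) (.e (nat_lit 163841) (nat_lit 0) .nil)))))))) (.g (nat_lit 1) (.e (nat_lit 112110) (nat_lit 0) .nil) .nil))) 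
(.lf (nat_lit 481272) (.g (nat_lit 1310) (.e (nat_lit 7936) (nat_lit 300) (.e (nat_lit 16470) (nat_lit 14) (.e (nat_lit 491571) (nat_lit 13) (.e (nat_lit 393231) (nat_lit 17) .nil)))) (.g (nat_lit 0) (.e (nat_lit 112886) (nat_lit 0) .nil) .nil)))))))))) (.nd (nat_lit 3) (.nd (nat_lit 4) (.nd (nat_lit 5) (.nd (nat_lit 6) (.nd (nat_lit 7) (.nd (nat_lit 8) (.nd (nat_lit 9) 
(.lf (nat_lit 480260) (.g (nat_lit 2418) (.e (nat_lit 5937) (nat_lit 322) (.e (nat_lit 57371) (nat_lit 2) (.e (nat_lit 90174) (nat_lit 14) (.e (nat_lit 180250) (nat_lit 10) (.e (nat_lit 573489) (nat_lit 14) (.e (nat_lit 73755) (nat_lit 8) (.e (nat_lit 557089) (nat_lit 12) (.e (nat_lit 171776) (nat_lit 0) .nil)))))))) (.g (nat_lit 1) (.e (nat_lit 111592) (nat_lit 0) .nil) .nil))) 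
(.lf (nat_lit 480772) (.g (nat_lit 2563) (.e (nat_lit 5946) (nat_lit 322) (.e (nat_lit 57371) (nat_lit 2) (.e (nat_lit 90174) (nat_lit 14) (.e (nat_lit 180250) (nat_lit 10) (.e (nat_lit 573489) (nat_lit 14) (.e (nat_lit 73754) (nat_lit 8) (.e (nat_lit 557093) (nat_lit 12) (.e (nat_lit 163856) (nat_lit 0) .nil)))))))) (.g (nat_lit 1) (.e (nat_lit 112122) (nat_lit 0) .nil) .nil)))) (.nd (nat_lit 9) 
(.lf (nat_lit 480516) (.g (nat_lit 2599) (.e (nat_lit 5940) (nat_lit 322) (.e (nat_lit 57371) (nat_lit 2) (.e (nat_lit 90174) (nat_lit 14) (.e (nat_lit 180251) (nat_lit 10) (.e (nat_lit 573489) (nat_lit 14) (.e (nat_lit 73755) (nat_lit 8) (.e (nat_lit 557091) (nat_lit 12) (.e (nat_lit 163840) (nat_lit 0) .nil)))))))) (.g (nat_lit 1) (.e (nat_lit 111863) (nat_lit 0) .nil) .nil))) 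
(.lf (nat_lit 481028) (.g (nat_lit 3016) (.e (nat_lit 5950) (nat_lit 322) (.e (nat_lit 57373) (nat_lit 2) (.e (nat_lit 90174) (nat_lit 14) (.e (nat_lit 180251) (nat_lit 10) (.e (nat_lit 573489) (nat_lit 14) .nil))))) (.g (nat_lit 0) (.e (nat_lit 112410) (nat_lit 0) .nil) .nil))))) (.nd (nat_lit 8) (.nd (nat_lit 9) 
(.lf (nat_lit 480388) (.g (nat_lit 2699) (.e (nat_lit 5939) (nat_lit 322) (.e (nat_lit 57372) (nat_lit 2) (.e (nat_lit 90172) (nat_lit 14) (.e (nat_lit 180250) (nat_lit 10) (.e (nat_lit 573487) (nat_lit 14) (.e (nat_lit 73753) (nat_lit 8) (.e (nat_lit 557091) (nat_lit 12) (.e (nat_lit 163850) (nat_lit 0) .nil)))))))) (.g (nat_lit 1) (.e (nat_lit 111734) (nat_lit 0) .nil) .nil))) 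
(.lf (nat_lit 480900) (.g (nat_lit 2114) (.e (nat_lit 5948) (nat_lit 322) (.e (nat_lit 57419) (nat_lit 12) (.e (nat_lit 336194) (nat_lit 12) (.e (nat_lit 385106) (nat_lit 50) (.e (nat_lit 786483) (nat_lit 30) (.e (nat_lit 360456) (nat_lit 0) .nil)))))) (.g (nat_lit 1) (.e (nat_lit 112255) (nat_lit 0) .nil) .nil)))) (.nd (nat_lit 9) 
(.lf (nat_lit 480644) (.g (nat_lit 5220) (.e (nat_lit 5943) (nat_lit 322) (.e (nat_lit 57372) (nat_lit 2) (.e (nat_lit 90174) (nat_lit 14) (.e (nat_lit 180251) (nat_lit 10) (.e (nat_lit 573489) (nat_lit 14) (.e (nat_lit 73755) (nat_lit 8) (.e (nat_lit 557090) (nat_lit 12) (.e (nat_lit 163843) (nat_lit 0) .nil)))))))) (.g (nat_lit 1) (.e (nat_lit 111993) (nat_lit 0) .nil) .nil))) 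
(.lf (nat_lit 481156) (.g (nat_lit 1886) (.e (nat_lit 5270) (nat_lit 298) (.e (nat_lit 1239) (nat_lit 91) (.e (nat_lit 90170) (nat_lit 13) (.e (nat_lit 172106) (nat_lit 10) (.e (nat_lit 434244) (nat_lit 28) (.e (nat_lit 573449) (nat_lit 9) (.e (nat_lit 359) (nat_lit 30) (.e (nat_lit 409604) (nat_lit 0) .nil)))))))) (.g (nat_lit 1) (.e (nat_lit 112578) (nat_lit 0) .nil) .nil)))))) 
(.nd (nat_lit 7) (.nd (nat_lit 8) (.nd (nat_lit 9) 
(.lf (nat_lit 480324) (.g (nat_lit 2355) (.e (nat_lit 5937) (nat_lit 322) (.e (nat_lit 57378) (nat_lit 3) (.e (nat_lit 98368) (nat_lit 27) (.e (nat_lit 434247) (nat_lit 28) (.e (nat_lit 573489) (nat_lit 14) (.e (nat_lit 73754) (nat_lit 8) (.e (nat_lit 557094) (nat_lit 12) (.e (nat_lit 171776) (nat_lit 0) .nil)))))))) (.g (nat_lit 1) (.e (nat_lit 111660) (nat_lit 0) .nil) .nil))) 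
(.lf (nat_lit 480836) (.g (nat_lit 1431) (.e (nat_lit 5947) (nat_lit 322) (.e (nat_lit 57377) (nat_lit 3) (.e (nat_lit 98365) (nat_lit 26) (.e (nat_lit 426326) (nat_lit 13) .nil)))) (.g (nat_lit 0) (.e (nat_lit 112189) (nat_lit 0) .nil) .nil)))) (.nd (nat_lit 9) 
(.lf (nat_lit 480580) (.g (nat_lit 4258) (.e (nat_lit 5941) (nat_lit 322) (.e (nat_lit 57373) (nat_lit 2) (.e (nat_lit 90173) (nat_lit 14) (.e (nat_lit 180252) (nat_lit 10) (.e (nat_lit 573489) (nat_lit 14) (.e (nat_lit 73755) (nat_lit 8) (.e (nat_lit 557090) (nat_lit 12) (.e (nat_lit 163844) (nat_lit 0) .nil)))))))) (.g (nat_lit 1) (.e (nat_lit 111927) (nat_lit 0) .nil) .nil))) 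
(.lf (nat_lit 481092) (.g (nat_lit 2158) (.e (nat_lit 5953) (nat_lit 322) (.e (nat_lit 57378) (nat_lit 3) (.e (nat_lit 98365) (nat_lit 26) (.e (nat_lit 426325) (nat_lit 13) (.e (nat_lit 483337) (nat_lit 9) .nil))))) (.g (nat_lit 0) (.e (nat_lit 112474) (nat_lit 0) .nil) .nil))))) (.nd (nat_lit 8) (.nd (nat_lit 9) 
(.lf (nat_lit 480452) (.g (nat_lit 2434) (.e (nat_lit 5939) (nat_lit 322) (.e (nat_lit 57379) (nat_lit 3) (.e (nat_lit 98366) (nat_lit 27) (.e (nat_lit 434231) (nat_lit 23) (.e (nat_lit 532507) (nat_lit 2) (.e (nat_lit 106517) (nat_lit 9) (.e (nat_lit 1255) (nat_lit 92) (.e (nat_lit 98322) (nat_lit 17) (.e (nat_lit 2469) (nat_lit 157) .nil))))))))) (.g (nat_lit 1) (.e (nat_lit 111799) (nat_lit 0) .nil) .nil))) 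
(.lf (nat_lit 480964) (.g (nat_lit 2689) (.e (nat_lit 5949) (nat_lit 322) (.e (nat_lit 57378) (nat_lit 3) (.e (nat_lit 98368) (nat_lit 27) (.e (nat_lit 434247) (nat_lit 28) (.e (nat_lit 573489) (nat_lit 14) (.e (nat_lit 73754) (nat_lit 8) (.e (nat_lit 557093) (nat_lit 12) (.e (nat_lit 163856) (nat_lit 0) .nil)))))))) (.g (nat_lit 1) (.e (nat_lit 112320) (nat_lit 0) .nil) .nil)))) (.nd (nat_lit 9) 
(.lf (nat_lit 480708) (.g (nat_lit 2262) (.e (nat_lit 5943) (nat_lit 322) (.e (nat_lit 57379) (nat_lit 3) (.e (nat_lit 98367) (nat_lit 27) (.e (nat_lit 434247) (nat_lit 28) (.e (nat_lit 573489) (nat_lit 14) (.e (nat_lit 73755) (nat_lit 8) (.e (nat_lit 557091) (nat_lit 12) (.e (nat_lit 163840) (nat_lit 0) .nil)))))))) (.g (nat_lit 1) (.e (nat_lit 112058) (nat_lit 0) .nil) .nil))) 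
(.lf (nat_lit 481220) (.g (nat_lit 5254) (.e (nat_lit 5293) (nat_lit 298) (.e (nat_lit 1232) (nat_lit 91) (.e (nat_lit 90170) (nat_lit 13) (.e (nat_lit 172106) (nat_lit 10) (.e (nat_lit 434244) (nat_lit 28) (.e (nat_lit 573451) (nat_lit 9) (.e (nat_lit 359) (nat_lit 30) (.e (nat_lit 409603) (nat_lit 0) .nil)))))))) (.g (nat_lit 1) (.e (nat_lit 112778) (nat_lit 0) .nil) .nil))))))) 
(.nd (nat_lit 6) (.nd (nat_lit 7) (.nd (nat_lit 8) (.nd (nat_lit 9) 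
(.lf (nat_lit 480292) (.g (nat_lit 3328) (.e (nat_lit 5937) (nat_lit 322) (.e (nat_lit 57375) (nat_lit 2) (.e (nat_lit 90174) (nat_lit 14) (.e (nat_lit 180243) (nat_lit 5) (.e (nat_lit 532515) (nat_lit 3) (.e (nat_lit 114716) (nat_lit 22) (.e (nat_lit 90181) (nat_lit 16) (.e (nat_lit 229376) (nat_lit 0) .nil)))))))) (.g (nat_lit 1) (.e (nat_lit 111624) (nat_lit 0) .nil) .nil))) 
(.lf (nat_lit 480804) (.g (nat_lit 2473) (.e (nat_lit 5946) (nat_lit 322) (.e (nat_lit 57378) (nat_lit 3) (.e (nat_lit 98368) (nat_lit 27) (.e (nat_lit 434247) (nat_lit 28) (.e (nat_lit 573489) (nat_lit 14) (.e (nat_lit 73755) (nat_lit 8) (.e (nat_lit 557091) (nat_lit 12) (.e (nat_lit 163856) (nat_lit 0) .nil)))))))) (.g (nat_lit 1) (.e (nat_lit 112154) (nat_lit 0) .nil) .nil)))) (.nd (nat_lit 9) 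
(.lf (nat_lit 480548) (.g (nat_lit 5047) (.e (nat_lit 5940) (nat_lit 322) (.e (nat_lit 57375) (nat_lit 2) (.e (nat_lit 90174) (nat_lit 14) (.e (nat_lit 180250) (nat_lit 10) (.e (nat_lit 573489) (nat_lit 14) (.e (nat_lit 73755) (nat_lit 8) (.e (nat_lit 557090) (nat_lit 12) (.e (nat_lit 163844) (nat_lit 0) .nil)))))))) (.g (nat_lit 1) (.e (nat_lit 111895) (nat_lit 0) .nil) .nil))) 
(.lf (nat_lit 481060) (.g (nat_lit 3069) (.e (nat_lit 5953) (nat_lit 322) (.e (nat_lit 57371) (nat_lit 2) (.e (nat_lit 90174) (nat_lit 14) (.e (nat_lit 180243) (nat_lit 5) (.e (nat_lit 532513) (nat_lit 3) (.e (nat_lit 114714) (nat_lit 22) (.e (nat_lit 90165) (nat_lit 12) (.e (nat_lit 163853) (nat_lit 0) .nil)))))))) (.g (nat_lit 1) (.e (nat_lit 112442) (nat_lit 0) .nil) .nil))))) 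
(.nd (nat_lit 8) (.nd (nat_lit 9) 
(.lf (nat_lit 480420) (.g (nat_lit 2624) (.e (nat_lit 5939) (nat_lit 322) (.e (nat_lit 57375) (nat_lit 2) (.e (nat_lit 90174) (nat_lit 14) (.e (nat_lit 180243) (nat_lit 5) (.e (nat_lit 532513) (nat_lit 3) (.e (nat_lit 114718) (nat_lit 23) (.e (nat_lit 98325) (nat_lit 17) (.e (nat_lit 2458) (nat_lit 157) .nil)))))))) (.g (nat_lit 1) (.e (nat_lit 111766) (nat_lit 0) .nil) .nil))) 
(.lf (nat_lit 480932) (.g (nat_lit 2338) (.e (nat_lit 5949) (nat_lit 322) (.e (nat_lit 57373) (nat_lit 2) (.e (nat_lit 90173) (nat_lit 14) (.e (nat_lit 180252) (nat_lit 10) (.e (nat_lit 573487) (nat_lit 14) (.e (nat_lit 73753) (nat_lit 8) (.e (nat_lit 557093) (nat_lit 12) (.e (nat_lit 163857) (nat_lit 0) .nil)))))))) (.g (nat_lit 1) (.e (nat_lit 112288) (nat_lit 0) .nil) .nil)))) (.nd (nat_lit 9) 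
(.lf (nat_lit 480676) (.g (nat_lit 2457) (.e (nat_lit 5943) (nat_lit 322) (.e (nat_lit 57375) (nat_lit 2) (.e (nat_lit 90174) (nat_lit 14) (.e (nat_lit 180250) (nat_lit 10) (.e (nat_lit 573487) (nat_lit 14) (.e (nat_lit 73753) (nat_lit 8) (.e (nat_lit 557091) (nat_lit 12) (.e (nat_lit 163841) (nat_lit 0) .nil)))))))) (.g (nat_lit 1) (.e (nat_lit 112025) (nat_lit 0) .nil) .nil))) 
(.lf (nat_lit 481188) (.g (nat_lit 3743) (.e (nat_lit 5270) (nat_lit 298) (.e (nat_lit 1239) (nat_lit 91) (.e (nat_lit 90170) (nat_lit 13) (.e (nat_lit 172113) (nat_lit 10) (.e (nat_lit 434248) (nat_lit 28) (.e (nat_lit 573449) (nat_lit 9) (.e (nat_lit 359) (nat_lit 30) (.e (nat_lit 409603) (nat_lit 0) .nil)))))))) (.g (nat_lit 1) (.e (nat_lit 112610) (nat_lit 0) .nil) .nil)))))) 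
(.nd (nat_lit 7) (.nd (nat_lit 8) (.nd (nat_lit 9) 
(.lf (nat_lit 480356) (.g (nat_lit 2400) (.e (nat_lit 5937) (nat_lit 322) (.e (nat_lit 57411) (nat_lit 12) (.e (nat_lit 336208) (nat_lit 12) (.e (nat_lit 385103) (nat_lit 50) (.e (nat_lit 786483) (nat_lit 30) (.e (nat_lit 368384) (nat_lit 0) .nil)))))) (.g (nat_lit 1) (.e (nat_lit 111699) (nat_lit 0) .nil) .nil))) 
(.lf (nat_lit 480868) (.g (nat_lit 2661) (.e (nat_lit 5948) (nat_lit 322) (.e (nat_lit 57373) (nat_lit 2) (.e (nat_lit 90174) (nat_lit 14) (.e (nat_lit 180250) (nat_lit 10) (.e (nat_lit 573487) (nat_lit 14) .nil))))) (.g (nat_lit 0) (.e (nat_lit 112222) (nat_lit 0) .nil) .nil)))) (.nd (nat_lit 9) 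
(.lf (nat_lit 480612) (.g (nat_lit 2733) (.e (nat_lit 5942) (nat_lit 322) (.e (nat_lit 57375) (nat_lit 2) (.e (nat_lit 90174) (nat_lit 14) (.e (nat_lit 180250) (nat_lit 10) (.e (nat_lit 573487) (nat_lit 14) (.e (nat_lit 73753) (nat_lit 8) (.e (nat_lit 557090) (nat_lit 12) (.e (nat_lit 163844) (nat_lit 0) .nil)))))))) (.g (nat_lit 1) (.e (nat_lit 111961) (nat_lit 0) .nil) .nil))) 
(.lf (nat_lit 481124) (.g (nat_lit 3320) (.e (nat_lit 5954) (nat_lit 322) (.e (nat_lit 57373) (nat_lit 2) (.e (nat_lit 90174) (nat_lit 14) (.e (nat_lit 180251) (nat_lit 10) (.e (nat_lit 573489) (nat_lit 14) (.e (nat_lit 73755) (nat_lit 8) (.e (nat_lit 557091) (nat_lit 12) (.e (nat_lit 163840) (nat_lit 0) .nil)))))))) (.g (nat_lit 1) (.e (nat_lit 112510) (nat_lit 0) .nil) .nil))))) 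
(.nd (nat_lit 8) (.nd (nat_lit 9) 
(.lf (nat_lit 480484) (.g (nat_lit 3200) (.e (nat_lit 5939) (nat_lit 322) (.e (nat_lit 57379) (nat_lit 3) (.e (nat_lit 98367) (nat_lit 27) (.e (nat_lit 434231) (nat_lit 23) (.e (nat_lit 532514) (nat_lit 3) (.e (nat_lit 114716) (nat_lit 22) (.e (nat_lit 90181) (nat_lit 16) (.e (nat_lit 229376) (nat_lit 0) .nil)))))))) (.g (nat_lit 1) (.e (nat_lit 111831) (nat_lit 0) .nil) .nil))) 
(.lf (nat_lit 480996) (.g (nat_lit 1693) (.e (nat_lit 5949) (nat_lit 322) (.e (nat_lit 57419) (nat_lit 12) (.e (nat_lit 336194) (nat_lit 12) (.e (nat_lit 385103) (nat_lit 50) (.e (nat_lit 786481) (nat_lit 30) (.e (nat_lit 360457) (nat_lit 0) .nil)))))) (.g (nat_lit 1) (.e (nat_lit 112365) (nat_lit 0) .nil) .nil)))) (.nd (nat_lit 9) 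
(.lf (nat_lit 480740) (.g (nat_lit 2294) (.e (nat_lit 5944) (nat_lit 322) (.e (nat_lit 57409) (nat_lit 12) (.e (nat_lit 336443) (nat_lit 32) (.e (nat_lit 466974) (nat_lit 22) (.e (nat_lit 196656) (nat_lit 11) (.e (nat_lit 16392) (nat_lit 0) (.e (nat_lit 2404) (nat_lit 157) .nil))))))) (.g (nat_lit 1) (.e (nat_lit 112090) (nat_lit 0) .nil) .nil))) 
(.lf (nat_lit 481252) (.g (nat_lit 2038) (.e (nat_lit 7936) (nat_lit 298) (.e (nat_lit 1239) (nat_lit 91) (.e (nat_lit 90170) (nat_lit 13) (.e (nat_lit 172106) (nat_lit 10) (.e (nat_lit 434231) (nat_lit 23) .nil))))) (.g (nat_lit 0) (.e (nat_lit 112835) (nat_lit 0) .nil) .nil)))))))) (.nd (nat_lit 5) (.nd (nat_lit 6) (.nd (nat_lit 7) (.nd (nat_lit 8) (.nd (nat_lit 9) 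
(.lf (nat_lit 480276) (.g (nat_lit 2665) (.e (nat_lit 5937) (nat_lit 322) (.e (nat_lit 57373) (nat_lit 2) (.e (nat_lit 90174) (nat_lit 14) (.e (nat_lit 180250) (nat_lit 10) (.e (nat_lit 573487) (nat_lit 14) (.e (nat_lit 73753) (nat_lit 8) (.e (nat_lit 557090) (nat_lit 12) (.e (nat_lit 163840) (nat_lit 0) .nil)))))))) (.g (nat_lit 1) (.e (nat_lit 111608) (nat_lit 0) .nil) .nil))) 
(.lf (nat_lit 480788) (.g (nat_lit 4599) (.e (nat_lit 5946) (nat_lit 322) (.e (nat_lit 57373) (nat_lit 2) (.e (nat_lit 90174) (nat_lit 14) (.e (nat_lit 180250) (nat_lit 10) (.e (nat_lit 573489) (nat_lit 14) (.e (nat_lit 73755) (nat_lit 8) (.e (nat_lit 557090) (nat_lit 12) (.e (nat_lit 163840) (nat_lit 0) .nil)))))))) (.g (nat_lit 1) (.e (nat_lit 112138) (nat_lit 0) .nil) .nil)))) (.nd (nat_lit 9) 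
(.lf (nat_lit 480532) (.g (nat_lit 2270) (.e (nat_lit 5940) (nat_lit 322) (.e (nat_lit 57374) (nat_lit 2) (.e (nat_lit 90173) (nat_lit 14) (.e (nat_lit 180252) (nat_lit 10) (.e (nat_lit 573489) (nat_lit 14) (.e (nat_lit 73755) (nat_lit 8) (.e (nat_lit 557090) (nat_lit 12) (.e (nat_lit 163841) (nat_lit 0) .nil)))))))) (.g (nat_lit 1) (.e (nat_lit 111879) (nat_lit 0) .nil) .nil))) 
(.lf (nat_lit 481044) (.g (nat_lit 2209) (.e (nat_lit 5951) (nat_lit 322) (.e (nat_lit 57373) (nat_lit 2) (.e (nat_lit 90174) (nat_lit 14) (.e (nat_lit 180243) (nat_lit 5) (.e (nat_lit 532513) (nat_lit 3) (.e (nat_lit 114714) (nat_lit 22) (.e (nat_lit 90162) (nat_lit 12) (.e (nat_lit 163850) (nat_lit 0) .nil)))))))) (.g (nat_lit 1) (.e (nat_lit 112426) (nat_lit 0) .nil) .nil))))) 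
(.nd (nat_lit 8) (.nd (nat_lit 9) 
(.lf (nat_lit 480404) (.g (nat_lit 3448) (.e (nat_lit 5939) (nat_lit 322) (.e (nat_lit 57372) (nat_lit 2) (.e (nat_lit 90174) (nat_lit 14) (.e (nat_lit 180250) (nat_lit 10) (.e (nat_lit 573487) (nat_lit 14) (.e (nat_lit 73753) (nat_lit 8) (.e (nat_lit 557090) (nat_lit 12) (.e (nat_lit 163850) (nat_lit 0) .nil)))))))) (.g (nat_lit 1) (.e (nat_lit 111750) (nat_lit 0) .nil) .nil))) 
(.lf (nat_lit 480916) (.g (nat_lit 2399) (.e (nat_lit 5949) (nat_lit 322) (.e (nat_lit 57371) (nat_lit 2) (.e (nat_lit 90174) (nat_lit 14) (.e (nat_lit 180243) (nat_lit 5) (.e (nat_lit 532515) (nat_lit 3) .nil))))) (.g (nat_lit 0) (.e (nat_lit 112272) (nat_lit 0) .nil) .nil)))) (.nd (nat_lit 9) 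
(.lf (nat_lit 480660) (.g (nat_lit 2183) (.e (nat_lit 5943) (nat_lit 322) (.e (nat_lit 57374) (nat_lit 2) (.e (nat_lit 90174) (nat_lit 14) (.e (nat_lit 180251) (nat_lit 10) (.e (nat_lit 573489) (nat_lit 14) .nil))))) (.g (nat_lit 0) (.e (nat_lit 112009) (nat_lit 0) .nil) .nil))) 
(.lf (nat_lit 481172) (.g (nat_lit 3752) (.e (nat_lit 5270) (nat_lit 298) (.e (nat_lit 1239) (nat_lit 91) (.e (nat_lit 90170) (nat_lit 13) (.e (nat_lit 172113) (nat_lit 10) (.e (nat_lit 434245) (nat_lit 28) (.e (nat_lit 573451) (nat_lit 9) (.e (nat_lit 7936) (nat_lit 30) (.e (nat_lit 409603) (nat_lit 0) .nil)))))))) (.g (nat_lit 1) (.e (nat_lit 112594) (nat_lit 0) .nil) .nil)))))) 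
(.nd (nat_lit 7) (.nd (nat_lit 8) (.nd (nat_lit 9) 
(.lf (nat_lit 480340) (.g (nat_lit 3265) (.e (nat_lit 5937) (nat_lit 322) (.e (nat_lit 57379) (nat_lit 3) (.e (nat_lit 98366) (nat_lit 27) (.e (nat_lit 434231) (nat_lit 23) (.e (nat_lit 532514) (nat_lit 3) (.e (nat_lit 114716) (nat_lit 22) (.e (nat_lit 90181) (nat_lit 16) (.e (nat_lit 229376) (nat_lit 0) .nil)))))))) (.g (nat_lit 1) (.e (nat_lit 111676) (nat_lit 0) .nil) .nil))) 
(.lf (nat_lit 480852) (.g (nat_lit 4215) (.e (nat_lit 5948) (nat_lit 322) (.e (nat_lit 57371) (nat_lit 2) (.e (nat_lit 90174) (nat_lit 14) (.e (nat_lit 180243) (nat_lit 5) (.e (nat_lit 532515) (nat_lit 3) (.e (nat_lit 114719) (nat_lit 23) (.e (nat_lit 98325) (nat_lit 17) (.e (nat_lit 2515) (nat_lit 157) .nil)))))))) (.g (nat_lit 1) (.e (nat_lit 112206) (nat_lit 0) .nil) .nil)))) (.nd (nat_lit 9) 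
(.lf (nat_lit 480596) (.g (nat_lit 2892) (.e (nat_lit 5942) (nat_lit 322) (.e (nat_lit 57373) (nat_lit 2) (.e (nat_lit 90172) (nat_lit 14) (.e (nat_lit 180250) (nat_lit 10) (.e (nat_lit 573487) (nat_lit 14) .nil))))) (.g (nat_lit 0) (.e (nat_lit 111945) (nat_lit 0) .nil) .nil))) 
(.lf (nat_lit 481108) (.g (nat_lit 3443) (.e (nat_lit 5954) (nat_lit 322) (.e (nat_lit 57371) (nat_lit 2) (.e (nat_lit 90174) (nat_lit 14) (.e (nat_lit 180250) (nat_lit 10) (.e (nat_lit 573489) (nat_lit 14) (.e (nat_lit 73755) (nat_lit 8) (.e (nat_lit 557090) (nat_lit 12) (.e (nat_lit 163840) (nat_lit 0) .nil)))))))) (.g (nat_lit 1) (.e (nat_lit 112494) (nat_lit 0) .nil) .nil))))) 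
(.nd (nat_lit 8) (.nd (nat_lit 9) 
(.lf (nat_lit 480468) (.g (nat_lit 1342) (.e (nat_lit 5939) (nat_lit 322) (.e (nat_lit 57379) (nat_lit 3) (.e (nat_lit 98366) (nat_lit 27) (.e (nat_lit 434232) (nat_lit 23) .nil)))) (.g (nat_lit 0) (.e (nat_lit 111815) (nat_lit 0) .nil) .nil))) 
(.lf (nat_lit 480980) (.g (nat_lit 2776) (.e (nat_lit 5949) (nat_lit 322) (.e (nat_lit 57409) (nat_lit 12) (.e (nat_lit 336443) (nat_lit 32) (.e (nat_lit 466974) (nat_lit 22) (.e (nat_lit 196656) (nat_lit 11) (.e (nat_lit 16392) (nat_lit 0) (.e (nat_lit 2514) (nat_lit 157) .nil))))))) (.g (nat_lit 1) (.e (nat_lit 112347) (nat_lit 0) .nil) .nil)))) (.nd (nat_lit 9) 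
(.lf (nat_lit 480724) (.g (nat_lit 3219) (.e (nat_lit 5944) (nat_lit 322) (.e (nat_lit 57373) (nat_lit 2) (.e (nat_lit 90174) (nat_lit 14) (.e (nat_lit 180243) (nat_lit 5) (.e (nat_lit 532515) (nat_lit 3) (.e (nat_lit 114715) (nat_lit 22) (.e (nat_lit 90165) (nat_lit 12) (.e (nat_lit 163855) (nat_lit 0) .nil)))))))) (.g (nat_lit 1) (.e (nat_lit 112074) (nat_lit 0) .nil) .nil))) 
(.lf (nat_lit 481236) (.g (nat_lit 2436) (.e (nat_lit 5293) (nat_lit 298) (.e (nat_lit 1250) (nat_lit 92) (.e (nat_lit 98373) (nat_lit 29) (.e (nat_lit 450587) (nat_lit 10) (.e (nat_lit 573457) (nat_lit 9) (.e (nat_lit 7936) (nat_lit 30) (.e (nat_lit 409603) (nat_lit 0) .nil))))))) (.g (nat_lit 1) (.e (nat_lit 112794) (nat_lit 0) .nil) .nil))))))) 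
(.nd (nat_lit 6) (.nd (nat_lit 7) (.nd (nat_lit 8) (.nd (nat_lit 9) 
(.lf (nat_lit 480308) (.g (nat_lit 2358) (.e (nat_lit 5937) (nat_lit 322) (.e (nat_lit 57378) (nat_lit 3) (.e (nat_lit 98365) (nat_lit 26) (.e (nat_lit 426325) (nat_lit 13) (.e (nat_lit 483337) (nat_lit 9) (.e (nat_lit 426030) (nat_lit 0) (.e (nat_lit 2466) (nat_lit 157) .nil))))))) (.g (nat_lit 1) (.e (nat_lit 111644) (nat_lit 0) .nil) .nil))) 
(.lf (nat_lit 480820) (.g (nat_lit 4443) (.e (nat_lit 5947) (nat_lit 322) (.e (nat_lit 57371) (nat_lit 2) (.e (nat_lit 90174) (nat_lit 14) (.e (nat_lit 180243) (nat_lit 5) (.e (nat_lit 532513) (nat_lit 3) (.e (nat_lit 114719) (nat_lit 23) (.e (nat_lit 98325) (nat_lit 17) (.e (nat_lit 2515) (nat_lit 157) .nil)))))))) (.g (nat_lit 1) (.e (nat_lit 112173) (nat_lit 0) .nil) .nil)))) (.nd (nat_lit 9) 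
(.lf (nat_lit 480564) (.g (nat_lit 2879) (.e (nat_lit 5940) (nat_lit 322) (.e (nat_lit 57409) (nat_lit 12) (.e (nat_lit 336443) (nat_lit 32) (.e (nat_lit 466977) (nat_lit 22) (.e (nat_lit 196656) (nat_lit 11) .nil))))) (.g (nat_lit 0) (.e (nat_lit 111911) (nat_lit 0) .nil) .nil))) 
(.lf (nat_lit 481076) (.g (nat_lit 2885) (.e (nat_lit 5953) (nat_lit 322) (.e (nat_lit 57373) (nat_lit 2) (.e (nat_lit 90174) (nat_lit 14) (.e (nat_lit 180243) (nat_lit 5) (.e (nat_lit 532515) (nat_lit 3) (.e (nat_lit 114715) (nat_lit 22) (.e (nat_lit 90165) (nat_lit 12) (.e (nat_lit 171776) (nat_lit 0) .nil)))))))) (.g (nat_lit 1) (.e (nat_lit 112458) (nat_lit 0) .nil) .nil))))) 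
(.nd (nat_lit 8) (.nd (nat_lit 9) 
(.lf (nat_lit 480436) (.g (nat_lit 1471) (.e (nat_lit 5939) (nat_lit 322) (.e (nat_lit 57379) (nat_lit 3) (.e (nat_lit 98365) (nat_lit 26) (.e (nat_lit 426325) (nat_lit 13) (.e (nat_lit 483337) (nat_lit 9) .nil))))) (.g (nat_lit 0) (.e (nat_lit 111783) (nat_lit 0) .nil) .nil))) 
(.lf (nat_lit 480948) (.g (nat_lit 4405) (.e (nat_lit 5949) (nat_lit 322) (.e (nat_lit 57373) (nat_lit 2) (.e (nat_lit 90174) (nat_lit 14) (.e (nat_lit 180251) (nat_lit 10) (.e (nat_lit 573489) (nat_lit 14) (.e (nat_lit 73754) (nat_lit 8) (.e (nat_lit 557093) (nat_lit 12) (.e (nat_lit 163856) (nat_lit 0) .nil)))))))) (.g (nat_lit 1) (.e (nat_lit 112304) (nat_lit 0) .nil) .nil)))) (.nd (nat_lit 9) 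
(.lf (nat_lit 480692) (.g (nat_lit 3400) (.e (nat_lit 5943) (nat_lit 322) (.e (nat_lit 57379) (nat_lit 3) (.e (nat_lit 98366) (nat_lit 27) (.e (nat_lit 434244) (nat_lit 28) (.e (nat_lit 573487) (nat_lit 14) (.e (nat_lit 73753) (nat_lit 8) (.e (nat_lit 557090) (nat_lit 12) (.e (nat_lit 163843) (nat_lit 0) .nil)))))))) (.g (nat_lit 1) (.e (nat_lit 112042) (nat_lit 0) .nil) .nil))) 
(.lf (nat_lit 481204) (.g (nat_lit 1692) (.e (nat_lit 5271) (nat_lit 298) (.e (nat_lit 1239) (nat_lit 91) (.e (nat_lit 90170) (nat_lit 13) (.e (nat_lit 172113) (nat_lit 10) (.e (nat_lit 434242) (nat_lit 28) (.e (nat_lit 573456) (nat_lit 9) (.e (nat_lit 365) (nat_lit 31) (.e (nat_lit 417796) (nat_lit 0) .nil)))))))) (.g (nat_lit 1) (.e (nat_lit 112628) (nat_lit 0) .nil) .nil)))))) 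
(.nd (nat_lit 7) (.nd (nat_lit 8) (.nd (nat_lit 9) 
(.lf (nat_lit 480372) (.g (nat_lit 2162) (.e (nat_lit 5938) (nat_lit 322) (.e (nat_lit 57372) (nat_lit 2) (.e (nat_lit 90174) (nat_lit 14) (.e (nat_lit 180243) (nat_lit 5) (.e (nat_lit 532513) (nat_lit 3) .nil))))) (.g (nat_lit 0) (.e (nat_lit 111718) (nat_lit 0) .nil) .nil))) 
(.lf (nat_lit 480884) (.g (nat_lit 2157) (.e (nat_lit 5948) (nat_lit 322) (.e (nat_lit 57406) (nat_lit 12) (.e (nat_lit 336433) (nat_lit 30) (.e (nat_lit 450588) (nat_lit 10) (.e (nat_lit 581376) (nat_lit 5) .nil))))) (.g (nat_lit 0) (.e (nat_lit 112239) (nat_lit 0) .nil) .nil)))) (.nd (nat_lit 9) 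
(.lf (nat_lit 480628) (.g (nat_lit 3085) (.e (nat_lit 5943) (nat_lit 322) (.e (nat_lit 57372) (nat_lit 2) (.e (nat_lit 90172) (nat_lit 14) (.e (nat_lit 180251) (nat_lit 10) (.e (nat_lit 573489) (nat_lit 14) (.e (nat_lit 73755) (nat_lit 8) (.e (nat_lit 557091) (nat_lit 12) (.e (nat_lit 163841) (nat_lit 0) .nil)))))))) (.g (nat_lit 1) (.e (nat_lit 111977) (nat_lit 0) .nil) .nil))) 
(.lf (nat_lit 481140) (.g (nat_lit 587) (.e (nat_lit 7936) (nat_lit 322) (.e (nat_lit 57423) (nat_lit 14) (.e (nat_lit 352262) (nat_lit 0) .nil))) (.g (nat_lit 0) (.e (nat_lit 112531) (nat_lit 0) .nil) .nil))))) (.nd (nat_lit 8) (.nd (nat_lit 9) 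
(.lf (nat_lit 480500) (.g (nat_lit 4436) (.e (nat_lit 5939) (nat_lit 322) (.e (nat_lit 57379) (nat_lit 3) (.e (nat_lit 98368) (nat_lit 27) (.e (nat_lit 434248) (nat_lit 28) (.e (nat_lit 573489) (nat_lit 14) (.e (nat_lit 73755) (nat_lit 8) (.e (nat_lit 557090) (nat_lit 12) (.e (nat_lit 163850) (nat_lit 0) .nil)))))))) (.g (nat_lit 1) (.e (nat_lit 111847) (nat_lit 0) .nil) .nil))) 
(.lf (nat_lit 481012) (.g (nat_lit 1924) (.e (nat_lit 5949) (nat_lit 322) (.e (nat_lit 57447) (nat_lit 19) (.e (nat_lit 393234) (nat_lit 17) (.e (nat_lit 2399) (nat_lit 157) (.e (nat_lit 5968) (nat_lit 324) .nil))))) (.g (nat_lit 0) (.e (nat_lit 112394) (nat_lit 0) .nil) .nil)))) (.nd (nat_lit 9) 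
(.lf (nat_lit 480756) (.g (nat_lit 4026) (.e (nat_lit 5945) (nat_lit 322) (.e (nat_lit 57371) (nat_lit 2) (.e (nat_lit 90174) (nat_lit 14) (.e (nat_lit 180251) (nat_lit 10) (.e (nat_lit 573489) (nat_lit 14) (.e (nat_lit 73755) (nat_lit 8) (.e (nat_lit 557091) (nat_lit 12) (.e (nat_lit 163841) (nat_lit 0) .nil)))))))) (.g (nat_lit 1) (.e (nat_lit 112106) (nat_lit 0) .nil) .nil))) 
(.lf (nat_lit 481268) (.g (nat_lit 2991) (.e (nat_lit 5386) (nat_lit 300) (.e (nat_lit 16470) (nat_lit 14) (.e (nat_lit 491571) (nat_lit 13) (.e (nat_lit 393238) (nat_lit 17) (.e (nat_lit 6989) (nat_lit 377) (.e (nat_lit 2397) (nat_lit 157) .nil)))))) (.g (nat_lit 1) (.e (nat_lit 112871) (nat_lit 0) .nil) .nil))))))))) 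
(.nd (nat_lit 4) (.nd (nat_lit 5) (.nd (nat_lit 6) (.nd (nat_lit 7) (.nd (nat_lit 8) 
(.nd (nat_lit 9) 
(.lf (nat_lit 480268) (.g (nat_lit 2690) (.e (nat_lit 5937) (nat_lit 322) (.e (nat_lit 57372) (nat_lit 2) (.e (nat_lit 90174) (nat_lit 14) (.e (nat_lit 180251) (nat_lit 10) (.e (nat_lit 573489) (nat_lit 14) (.e (nat_lit 73755) (nat_lit 8) (.e (nat_lit 557091) (nat_lit 12) (.e (nat_lit 163840) (nat_lit 0) .nil)))))))) (.g (nat_lit 1) (.e (nat_lit 111600) (nat_lit 0) .nil) .nil))) 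
(.lf (nat_lit 480780) (.g (nat_lit 2745) (.e (nat_lit 5946) (nat_lit 322) (.e (nat_lit 57373) (nat_lit 2) (.e (nat_lit 90174) (nat_lit 14) (.e (nat_lit 180243) (nat_lit 5) (.e (nat_lit 532515) (nat_lit 3) (.e (nat_lit 114715) (nat_lit 22) (.e (nat_lit 90165) (nat_lit 12) (.e (nat_lit 163853) (nat_lit 0) .nil)))))))) (.g (nat_lit 1) (.e (nat_lit 112130) (nat_lit 0) .nil) .nil)))) (.nd (nat_lit 9) 
(.lf (nat_lit 480524) (.g (nat_lit 2218) (.e (nat_lit 5940) (nat_lit 322) (.e (nat_lit 57373) (nat_lit 2) (.e (nat_lit 90173) (nat_lit 14) (.e (nat_lit 180252) (nat_lit 10) (.e (nat_lit 573489) (nat_lit 14) (.e (nat_lit 73755) (nat_lit 8) (.e (nat_lit 557090) (nat_lit 12) (.e (nat_lit 163845) (nat_lit 0) .nil)))))))) (.g (nat_lit 1) (.e (nat_lit 111871) (nat_lit 0) .nil) .nil))) 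
(.lf (nat_lit 481036) (.g (nat_lit 2323) (.e (nat_lit 5951) (nat_lit 322) (.e (nat_lit 57371) (nat_lit 2) (.e (nat_lit 90174) (nat_lit 14) (.e (nat_lit 180250) (nat_lit 10) (.e (nat_lit 573487) (nat_lit 14) .nil))))) (.g (nat_lit 0) (.e (nat_lit 112418) (nat_lit 0) .nil) .nil))))) (.nd (nat_lit 8) (.nd (nat_lit 9) 
(.lf (nat_lit 480396) (.g (nat_lit 2183) (.e (nat_lit 5939) (nat_lit 322) (.e (nat_lit 57372) (nat_lit 2) (.e (nat_lit 90174) (nat_lit 14) (.e (nat_lit 180243) (nat_lit 5) (.e (nat_lit 532515) (nat_lit 3) (.e (nat_lit 114715) (nat_lit 22) (.e (nat_lit 90165) (nat_lit 12) (.e (nat_lit 171776) (nat_lit 0) .nil)))))))) (.g (nat_lit 1) (.e (nat_lit 111742) (nat_lit 0) .nil) .nil))) 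
(.lf (nat_lit 480908) (.g (nat_lit 920) (.e (nat_lit 5948) (nat_lit 322) (.e (nat_lit 57424) (nat_lit 14) (.e (nat_lit 352265) (nat_lit 0) .nil))) (.g (nat_lit 0) (.e (nat_lit 112264) (nat_lit 0) .nil) .nil)))) (.nd (nat_lit 9) 
(.lf (nat_lit 480652) (.g (nat_lit 2601) (.e (nat_lit 5943) (nat_lit 322) (.e (nat_lit 57373) (nat_lit 2) (.e (nat_lit 90174) (nat_lit 14) (.e (nat_lit 180250) (nat_lit 10) (.e (nat_lit 573489) (nat_lit 14) .nil))))) (.g (nat_lit 0) (.e (nat_lit 112001) (nat_lit 0) .nil) .nil))) 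
(.lf (nat_lit 481164) (.g (nat_lit 3038) (.e (nat_lit 5270) (nat_lit 298) (.e (nat_lit 1239) (nat_lit 91) (.e (nat_lit 90170) (nat_lit 13) (.e (nat_lit 172113) (nat_lit 10) (.e (nat_lit 434242) (nat_lit 28) (.e (nat_lit 573451) (nat_lit 9) (.e (nat_lit 359) (nat_lit 30) (.e (nat_lit 409605) (nat_lit 0) .nil)))))))) (.g (nat_lit 1) (.e (nat_lit 112586) (nat_lit 0) .nil) .nil)))))) 
(.nd (nat_lit 7) (.nd (nat_lit 8) (.nd (nat_lit 9) 
(.lf (nat_lit 480332) (.g (nat_lit 3576) (.e (nat_lit 5937) (nat_lit 322) (.e (nat_lit 57378) (nat_lit 3) (.e (nat_lit 98368) (nat_lit 27) (.e (nat_lit 434248) (nat_lit 28) (.e (nat_lit 573489) (nat_lit 14) (.e (nat_lit 73755) (nat_lit 8) (.e (nat_lit 557091) (nat_lit 12) (.e (nat_lit 171776) (nat_lit 0) .nil)))))))) (.g (nat_lit 1) (.e (nat_lit 111668) (nat_lit 0) .nil) .nil))) 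
(.lf (nat_lit 480844) (.g (nat_lit 2895) (.e (nat_lit 5947) (nat_lit 322) (.e (nat_lit 57449) (nat_lit 20) (.e (nat_lit 401454) (nat_lit 12) (.e (nat_lit 475210) (nat_lit 41) (.e (nat_lit 712753) (nat_lit 30) (.e (nat_lit 450569) (nat_lit 0) .nil)))))) (.g (nat_lit 1) (.e (nat_lit 112198) (nat_lit 0) .nil) .nil)))) (.nd (nat_lit 9) 
(.lf (nat_lit 480588) (.g (nat_lit 2405) (.e (nat_lit 5941) (nat_lit 322) (.e (nat_lit 57378) (nat_lit 3) (.e (nat_lit 98368) (nat_lit 27) (.e (nat_lit 434247) (nat_lit 28) (.e (nat_lit 573489) (nat_lit 14) (.e (nat_lit 73755) (nat_lit 8) (.e (nat_lit 557091) (nat_lit 12) (.e (nat_lit 163841) (nat_lit 0) .nil)))))))) (.g (nat_lit 1) (.e (nat_lit 111935) (nat_lit 0) .nil) .nil))) 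
(.lf (nat_lit 481100) (.g (nat_lit 2634) (.e (nat_lit 5953) (nat_lit 322) (.e (nat_lit 57378) (nat_lit 3) (.e (nat_lit 98368) (nat_lit 27) (.e (nat_lit 434247) (nat_lit 28) (.e (nat_lit 573489) (nat_lit 14) (.e (nat_lit 73755) (nat_lit 8) (.e (nat_lit 557091) (nat_lit 12) (.e (nat_lit 163852) (nat_lit 0) .nil)))))))) (.g (nat_lit 1) (.e (nat_lit 112482) (nat_lit 0) .nil) .nil))))) 
(.nd (nat_lit 8) (.nd (nat_lit 9) 
(.lf (nat_lit 480460) (.g (nat_lit 1925) (.e (nat_lit 5939) (nat_lit 322) (.e (nat_lit 57379) (nat_lit 3) (.e (nat_lit 98366) (nat_lit 27) (.e (nat_lit 434231) (nat_lit 23) (.e (nat_lit 532514) (nat_lit 3) (.e (nat_lit 114715) (nat_lit 22) (.e (nat_lit 90180) (nat_lit 16) (.e (nat_lit 229379) (nat_lit 0) .nil)))))))) (.g (nat_lit 1) (.e (nat_lit 111807) (nat_lit 0) .nil) .nil))) 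
(.lf (nat_lit 480972) (.g (nat_lit 2895) (.e (nat_lit 5949) (nat_lit 322) (.e (nat_lit 57400) (nat_lit 10) (.e (nat_lit 319490) (nat_lit 0) (.e (nat_lit 5664) (nat_lit 312) (.e (nat_lit 3085) (nat_lit 191) (.e (nat_lit 483401) (nat_lit 25) (.e (nat_lit 368664) (nat_lit 18) .nil))))))) (.g (nat_lit 1) (.e (nat_lit 112330) (nat_lit 0) .nil) .nil)))) (.nd (nat_lit 9) 
(.lf (nat_lit 480716) (.g (nat_lit 4796) (.e (nat_lit 5943) (nat_lit 322) (.e (nat_lit 57379) (nat_lit 3) (.e (nat_lit 98368) (nat_lit 27) (.e (nat_lit 434248) (nat_lit 28) (.e (nat_lit 573489) (nat_lit 14) (.e (nat_lit 73755) (nat_lit 8) (.e (nat_lit 557090) (nat_lit 12) (.e (nat_lit 163844) (nat_lit 0) .nil)))))))) (.g (nat_lit 1) (.e (nat_lit 112066) (nat_lit 0) .nil) .nil))) 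
(.lf (nat_lit 481228) (.g (nat_lit 1785) (.e (nat_lit 5293) (nat_lit 298) (.e (nat_lit 1250) (nat_lit 92) (.e (nat_lit 98372) (nat_lit 29) (.e (nat_lit 450586) (nat_lit 10) (.e (nat_lit 573452) (nat_lit 9) (.e (nat_lit 7936) (nat_lit 30) (.e (nat_lit 409603) (nat_lit 0) .nil))))))) (.g (nat_lit 1) (.e (nat_lit 112786) (nat_lit 0) .nil) .nil))))))) 
(.nd (nat_lit 6) (.nd (nat_lit 7) (.nd (nat_lit 8) (.nd (nat_lit 9) 
(.lf (nat_lit 480300) (.g (nat_lit 2972) (.e (nat_lit 5937) (nat_lit 322) (.e (nat_lit 57377) (nat_lit 3) (.e (nat_lit 98365) (nat_lit 26) (.e (nat_lit 426325) (nat_lit 13) (.e (nat_lit 483337) (nat_lit 9) (.e (nat_lit 426031) (nat_lit 0) (.e (nat_lit 2466) (nat_lit 157) .nil))))))) (.g (nat_lit 1) (.e (nat_lit 111632) (nat_lit 0) .nil) .nil))) 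
(.lf (nat_lit 480812) (.g (nat_lit 2671) (.e (nat_lit 5946) (nat_lit 322) (.e (nat_lit 57409) (nat_lit 12) (.e (nat_lit 336443) (nat_lit 32) (.e (nat_lit 466977) (nat_lit 22) (.e (nat_lit 196656) (nat_lit 11) (.e (nat_lit 16392) (nat_lit 0) (.e (nat_lit 2514) (nat_lit 157) .nil))))))) (.g (nat_lit 1) (.e (nat_lit 112162) (nat_lit 0) .nil) .nil)))) (.nd (nat_lit 9) 
(.lf (nat_lit 480556) (.g (nat_lit 4505) (.e (nat_lit 5940) (nat_lit 322) (.e (nat_lit 57375) (nat_lit 2) (.e (nat_lit 90174) (nat_lit 14) (.e (nat_lit 180252) (nat_lit 10) (.e (nat_lit 573489) (nat_lit 14) (.e (nat_lit 73755) (nat_lit 8) (.e (nat_lit 557090) (nat_lit 12) (.e (nat_lit 163843) (nat_lit 0) .nil)))))))) (.g (nat_lit 1) (.e (nat_lit 111903) (nat_lit 0) .nil) .nil))) 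
(.lf (nat_lit 481068) (.g (nat_lit 3015) (.e (nat_lit 5953) (nat_lit 322) (.e (nat_lit 57371) (nat_lit 2) (.e (nat_lit 90174) (nat_lit 14) (.e (nat_lit 180252) (nat_lit 10) (.e (nat_lit 573489) (nat_lit 14) (.e (nat_lit 73755) (nat_lit 8) (.e (nat_lit 557090) (nat_lit 12) (.e (nat_lit 163851) (nat_lit 0) .nil)))))))) (.g (nat_lit 1) (.e (nat_lit 112450) (nat_lit 0) .nil) .nil))))) 
(.nd (nat_lit 8) (.nd (nat_lit 9) 
(.lf (nat_lit 480428) (.g (nat_lit 2269) (.e (nat_lit 5939) (nat_lit 322) (.e (nat_lit 57375) (nat_lit 2) (.e (nat_lit 90174) (nat_lit 14) (.e (nat_lit 180243) (nat_lit 5) (.e (nat_lit 532515) (nat_lit 3) (.e (nat_lit 114719) (nat_lit 23) (.e (nat_lit 98325) (nat_lit 17) (.e (nat_lit 2458) (nat_lit 157) .nil)))))))) (.g (nat_lit 1) (.e (nat_lit 111774) (nat_lit 0) .nil) .nil))) 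
(.lf (nat_lit 480940) (.g (nat_lit 2973) (.e (nat_lit 5949) (nat_lit 322) (.e (nat_lit 57373) (nat_lit 2) (.e (nat_lit 90174) (nat_lit 14) (.e (nat_lit 180243) (nat_lit 5) (.e (nat_lit 532515) (nat_lit 3) (.e (nat_lit 114715) (nat_lit 22) (.e (nat_lit 90165) (nat_lit 12) (.e (nat_lit 163856) (nat_lit 0) .nil)))))))) (.g (nat_lit 1) (.e (nat_lit 112296) (nat_lit 0) .nil) .nil)))) (.nd (nat_lit 9) 
(.lf (nat_lit 480684) (.g (nat_lit 3330) (.e (nat_lit 5943) (nat_lit 322) (.e (nat_lit 57375) (nat_lit 2) (.e (nat_lit 90174) (nat_lit 14) (.e (nat_lit 180251) (nat_lit 10) (.e (nat_lit 573489) (nat_lit 14) (.e (nat_lit 73755) (nat_lit 8) (.e (nat_lit 557091) (nat_lit 12) (.e (nat_lit 163840) (nat_lit 0) .nil)))))))) (.g (nat_lit 1) (.e (nat_lit 112033) (nat_lit 0) .nil) .nil))) 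
(.lf (nat_lit 481196) (.g (nat_lit 3528) (.e (nat_lit 5270) (nat_lit 298) (.e (nat_lit 1239) (nat_lit 91) (.e (nat_lit 90170) (nat_lit 13) (.e (nat_lit 172113) (nat_lit 10) (.e (nat_lit 434248) (nat_lit 28) (.e (nat_lit 573457) (nat_lit 9) (.e (nat_lit 359) (nat_lit 30) (.e (nat_lit 409603) (nat_lit 0) .nil)))))))) (.g (nat_lit 1) (.e (nat_lit 112618) (nat_lit 0) .nil) .nil)))))) 
(.nd (nat_lit 7) (.nd (nat_lit 8) (.nd (nat_lit 9) 
(.lf (nat_lit 480364) (.g (nat_lit 2077) (.e (nat_lit 5937) (nat_lit 322) (.e (nat_lit 57435) (nat_lit 17) (.e (nat_lit 376835) (nat_lit 0) (.e (nat_lit 3748) (nat_lit 228) (.e (nat_lit 786483) (nat_lit 30) (.e (nat_lit 368384) (nat_lit 0) .nil)))))) (.g (nat_lit 1) (.e (nat_lit 111709) (nat_lit 0) .nil) .nil))) 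
(.lf (nat_lit 480876) (.g (nat_lit 2658) (.e (nat_lit 5948) (nat_lit 322) (.e (nat_lit 57377) (nat_lit 3) (.e (nat_lit 98365) (nat_lit 26) (.e (nat_lit 426187) (nat_lit 9) (.e (nat_lit 426479) (nat_lit 27) (.e (nat_lit 336421) (nat_lit 28) (.e (nat_lit 434216) (nat_lit 18) .nil))))))) (.g (nat_lit 1) (.e (nat_lit 112230) (nat_lit 0) .nil) .nil)))) (.nd (nat_lit 9) 
(.lf (nat_lit 480620) (.g (nat_lit 2818) (.e (nat_lit 5943) (nat_lit 322) (.e (nat_lit 57371) (nat_lit 2) (.e (nat_lit 90174) (nat_lit 14) (.e (nat_lit 180252) (nat_lit 10) (.e (nat_lit 573489) (nat_lit 14) (.e (nat_lit 73755) (nat_lit 8) (.e (nat_lit 557090) (nat_lit 12) (.e (nat_lit 163844) (nat_lit 0) .nil)))))))) (.g (nat_lit 1) (.e (nat_lit 111969) (nat_lit 0) .nil) .nil))) 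
(.lf (nat_lit 481132) (.g (nat_lit 2861) (.e (nat_lit 5954) (nat_lit 322) (.e (nat_lit 57409) (nat_lit 12) (.e (nat_lit 336443) (nat_lit 32) (.e (nat_lit 466977) (nat_lit 22) (.e (nat_lit 196654) (nat_lit 11) .nil))))) (.g (nat_lit 0) (.e (nat_lit 112518) (nat_lit 0) .nil) .nil))))) (.nd (nat_lit 8) (.nd (nat_lit 9) 
(.lf (nat_lit 480492) (.g (nat_lit 3359) (.e (nat_lit 5939) (nat_lit 322) (.e (nat_lit 57379) (nat_lit 3) (.e (nat_lit 98367) (nat_lit 27) (.e (nat_lit 434247) (nat_lit 28) (.e (nat_lit 573489) (nat_lit 14) (.e (nat_lit 73755) (nat_lit 8) (.e (nat_lit 557091) (nat_lit 12) (.e (nat_lit 163840) (nat_lit 0) .nil)))))))) (.g (nat_lit 1) (.e (nat_lit 111839) (nat_lit 0) .nil) .nil))) 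
(.lf (nat_lit 481004) (.g (nat_lit 1009) (.e (nat_lit 5949) (nat_lit 322) (.e (nat_lit 57424) (nat_lit 14) (.e (nat_lit 352262) (nat_lit 0) (.e (nat_lit 3747) (nat_lit 228) .nil)))) (.g (nat_lit 0) (.e (nat_lit 112380) (nat_lit 0) .nil) .nil)))) (.nd (nat_lit 9) 
(.lf (nat_lit 480748) (.g (nat_lit 2405) (.e (nat_lit 5945) (nat_lit 322) (.e (nat_lit 57371) (nat_lit 2) (.e (nat_lit 90174) (nat_lit 14) (.e (nat_lit 180243) (nat_lit 5) (.e (nat_lit 532515) (nat_lit 3) .nil))))) (.g (nat_lit 0) (.e (nat_lit 112098) (nat_lit 0) .nil) .nil))) 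
(.lf (nat_lit 481260) (.g (nat_lit 796) (.e (nat_lit 5380) (nat_lit 300) (.e (nat_lit 16392) (nat_lit 0) (.e (nat_lit 6989) (nat_lit 377) .nil))) (.g (nat_lit 0) (.e (nat_lit 112853) (nat_lit 0) .nil) .nil)))))))) (.nd (nat_lit 5) (.nd (nat_lit 6) (.nd (nat_lit 7) (.nd (nat_lit 8) (.nd (nat_lit 9) 
(.lf (nat_lit 480284) (.g (nat_lit 1944) (.e (nat_lit 5937) (nat_lit 322) (.e (nat_lit 57374) (nat_lit 2) (.e (nat_lit 90173) (nat_lit 14) (.e (nat_lit 180252) (nat_lit 10) (.e (nat_lit 573489) (nat_lit 14) .nil))))) (.g (nat_lit 0) (.e (nat_lit 111616) (nat_lit 0) .nil) .nil))) 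
(.lf (nat_lit 480796) (.g (nat_lit 3071) (.e (nat_lit 5946) (nat_lit 322) (.e (nat_lit 57373) (nat_lit 2) (.e (nat_lit 90174) (nat_lit 14) (.e (nat_lit 180252) (nat_lit 10) (.e (nat_lit 573489) (nat_lit 14) (.e (nat_lit 73755) (nat_lit 8) (.e (nat_lit 557090) (nat_lit 12) (.e (nat_lit 163851) (nat_lit 0) .nil)))))))) (.g (nat_lit 1) (.e (nat_lit 112146) (nat_lit 0) .nil) .nil)))) (.nd (nat_lit 9) 
(.lf (nat_lit 480540) (.g (nat_lit 3518) (.e (nat_lit 5940) (nat_lit 322) (.e (nat_lit 57375) (nat_lit 2) (.e (nat_lit 90172) (nat_lit 14) (.e (nat_lit 180252) (nat_lit 10) (.e (nat_lit 573489) (nat_lit 14) (.e (nat_lit 73755) (nat_lit 8) (.e (nat_lit 557090) (nat_lit 12) (.e (nat_lit 163844) (nat_lit 0) .nil)))))))) (.g (nat_lit 1) (.e (nat_lit 111887) (nat_lit 0) .nil) .nil))) 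
(.lf (nat_lit 481052) (.g (nat_lit 2350) (.e (nat_lit 5951) (nat_lit 322) (.e (nat_lit 57378) (nat_lit 3) (.e (nat_lit 98367) (nat_lit 27) (.e (nat_lit 434231) (nat_lit 23) (.e (nat_lit 532514) (nat_lit 3) .nil))))) (.g (nat_lit 0) (.e (nat_lit 112434) (nat_lit 0) .nil) .nil))))) (.nd (nat_lit 8) (.nd (nat_lit 9) 
(.lf (nat_lit 480412) (.g (nat_lit 3431) (.e (nat_lit 5939) (nat_lit 322) (.e (nat_lit 57373) (nat_lit 2) (.e (nat_lit 90174) (nat_lit 14) (.e (nat_lit 180251) (nat_lit 10) (.e (nat_lit 573489) (nat_lit 14) (.e (nat_lit 73755) (nat_lit 8) (.e (nat_lit 557090) (nat_lit 12) (.e (nat_lit 163850) (nat_lit 0) .nil)))))))) (.g (nat_lit 1) (.e (nat_lit 111758) (nat_lit 0) .nil) .nil))) 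
(.lf (nat_lit 480924) (.g (nat_lit 4197) (.e (nat_lit 5949) (nat_lit 322) (.e (nat_lit 57371) (nat_lit 2) (.e (nat_lit 90174) (nat_lit 14) (.e (nat_lit 180251) (nat_lit 10) (.e (nat_lit 573489) (nat_lit 14) (.e (nat_lit 73755) (nat_lit 8) (.e (nat_lit 557091) (nat_lit 12) (.e (nat_lit 163856) (nat_lit 0) .nil)))))))) (.g (nat_lit 1) (.e (nat_lit 112280) (nat_lit 0) .nil) .nil)))) (.nd (nat_lit 9) 
(.lf (nat_lit 480668) (.g (nat_lit 5181) (.e (nat_lit 5943) (nat_lit 322) (.e (nat_lit 57375) (nat_lit 2) (.e (nat_lit 90172) (nat_lit 14) (.e (nat_lit 180250) (nat_lit 10) (.e (nat_lit 573488) (nat_lit 14) (.e (nat_lit 73755) (nat_lit 8) (.e (nat_lit 557090) (nat_lit 12) (.e (nat_lit 163844) (nat_lit 0) .nil)))))))) (.g (nat_lit 1) (.e (nat_lit 112017) (nat_lit 0) .nil) .nil))) 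
(.lf (nat_lit 481180) (.g (nat_lit 3601) (.e (nat_lit 5270) (nat_lit 298) (.e (nat_lit 1239) (nat_lit 91) (.e (nat_lit 90170) (nat_lit 13) (.e (nat_lit 172113) (nat_lit 10) (.e (nat_lit 434247) (nat_lit 28) (.e (nat_lit 573456) (nat_lit 9) (.e (nat_lit 7936) (nat_lit 30) (.e (nat_lit 409603) (nat_lit 0) .nil)))))))) (.g (nat_lit 1) (.e (nat_lit 112602) (nat_lit 0) .nil) .nil)))))) 
(.nd (nat_lit 7) (.nd (nat_lit 8) (.nd (nat_lit 9) 
(.lf (nat_lit 480348) (.g (nat_lit 2427) (.e (nat_lit 5937) (nat_lit 322) (.e (nat_lit 57379) (nat_lit 3) (.e (nat_lit 98368) (nat_lit 27) (.e (nat_lit 434247) (nat_lit 28) (.e (nat_lit 573489) (nat_lit 14) (.e (nat_lit 73755) (nat_lit 8) (.e (nat_lit 557091) (nat_lit 12) (.e (nat_lit 163840) (nat_lit 0) .nil)))))))) (.g (nat_lit 1) (.e (nat_lit 111684) (nat_lit 0) .nil) .nil))) 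
(.lf (nat_lit 480860) (.g (nat_lit 4366) (.e (nat_lit 5948) (nat_lit 322) (.e (nat_lit 57371) (nat_lit 2) (.e (nat_lit 90174) (nat_lit 14) (.e (nat_lit 180251) (nat_lit 10) (.e (nat_lit 573489) (nat_lit 14) (.e (nat_lit 73754) (nat_lit 8) (.e (nat_lit 557093) (nat_lit 12) (.e (nat_lit 163857) (nat_lit 0) .nil)))))))) (.g (nat_lit 1) (.e (nat_lit 112214) (nat_lit 0) .nil) .nil)))) (.nd (nat_lit 9) 
(.lf (nat_lit 480604) (.g (nat_lit 4255) (.e (nat_lit 5942) (nat_lit 322) (.e (nat_lit 57373) (nat_lit 2) (.e (nat_lit 90174) (nat_lit 14) (.e (nat_lit 180252) (nat_lit 10) (.e (nat_lit 573489) (nat_lit 14) (.e (nat_lit 73755) (nat_lit 8) (.e (nat_lit 557090) (nat_lit 12) (.e (nat_lit 163844) (nat_lit 0) .nil)))))))) (.g (nat_lit 1) (.e (nat_lit 111953) (nat_lit 0) .nil) .nil))) 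
(.lf (nat_lit 481116) (.g (nat_lit 2212) (.e (nat_lit 5954) (nat_lit 322) (.e (nat_lit 57373) (nat_lit 2) (.e (nat_lit 90173) (nat_lit 14) (.e (nat_lit 180252) (nat_lit 10) (.e (nat_lit 573489) (nat_lit 14) (.e (nat_lit 73755) (nat_lit 8) (.e (nat_lit 557090) (nat_lit 12) (.e (nat_lit 163840) (nat_lit 0) .nil)))))))) (.g (nat_lit 1) (.e (nat_lit 112502) (nat_lit 0) .nil) .nil))))) 
(.nd (nat_lit 8) (.nd (nat_lit 9) 
(.lf (nat_lit 480476) (.g (nat_lit 3050) (.e (nat_lit 5939) (nat_lit 322) (.e (nat_lit 57379) (nat_lit 3) (.e (nat_lit 98366) (nat_lit 27) (.e (nat_lit 434248) (nat_lit 28) (.e (nat_lit 573487) (nat_lit 14) (.e (nat_lit 73753) (nat_lit 8) (.e (nat_lit 557094) (nat_lit 12) (.e (nat_lit 163840) (nat_lit 0) .nil)))))))) (.g (nat_lit 1) (.e (nat_lit 111823) (nat_lit 0) .nil) .nil))) 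
(.lf (nat_lit 480988) (.g (nat_lit 2099) (.e (nat_lit 5949) (nat_lit 322) (.e (nat_lit 57409) (nat_lit 12) (.e (nat_lit 336443) (nat_lit 32) (.e (nat_lit 466977) (nat_lit 22) (.e (nat_lit 196656) (nat_lit 11) .nil))))) (.g (nat_lit 0) (.e (nat_lit 112355) (nat_lit 0) .nil) .nil)))) (.nd (nat_lit 9) 
(.lf (nat_lit 480732) (.g (nat_lit 2573) (.e (nat_lit 5944) (nat_lit 322) (.e (nat_lit 57378) (nat_lit 3) (.e (nat_lit 98358) (nat_lit 26) (.e (nat_lit 426131) (nat_lit 3) (.e (nat_lit 204838) (nat_lit 20) (.e (nat_lit 114715) (nat_lit 22) (.e (nat_lit 90165) (nat_lit 12) (.e (nat_lit 163855) (nat_lit 0) .nil)))))))) (.g (nat_lit 1) (.e (nat_lit 112082) (nat_lit 0) .nil) .nil))) 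
(.lf (nat_lit 481244) (.g (nat_lit 2886) (.e (nat_lit 5300) (nat_lit 298) (.e (nat_lit 1633) (nat_lit 114) (.e (nat_lit 385074) (nat_lit 31) (.e (nat_lit 573484) (nat_lit 13) (.e (nat_lit 65617) (nat_lit 10) .nil))))) (.g (nat_lit 0) (.e (nat_lit 112812) (nat_lit 0) .nil) .nil))))))) (.nd (nat_lit 6) (.nd (nat_lit 7) (.nd (nat_lit 8) (.nd (nat_lit 9) 
(.lf (nat_lit 480316) (.g (nat_lit 2942) (.e (nat_lit 5937) (nat_lit 322) (.e (nat_lit 57378) (nat_lit 3) (.e (nat_lit 98367) (nat_lit 27) (.e (nat_lit 434247) (nat_lit 28) (.e (nat_lit 573489) (nat_lit 14) (.e (nat_lit 73755) (nat_lit 8) (.e (nat_lit 557091) (nat_lit 12) (.e (nat_lit 163840) (nat_lit 0) .nil)))))))) (.g (nat_lit 1) (.e (nat_lit 111652) (nat_lit 0) .nil) .nil))) 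
(.lf (nat_lit 480828) (.g (nat_lit 4200) (.e (nat_lit 5947) (nat_lit 322) (.e (nat_lit 57371) (nat_lit 2) (.e (nat_lit 90174) (nat_lit 14) (.e (nat_lit 180251) (nat_lit 10) (.e (nat_lit 573489) (nat_lit 14) (.e (nat_lit 73755) (nat_lit 8) (.e (nat_lit 557091) (nat_lit 12) (.e (nat_lit 163856) (nat_lit 0) .nil)))))))) (.g (nat_lit 1) (.e (nat_lit 112181) (nat_lit 0) .nil) .nil)))) (.nd (nat_lit 9) 
(.lf (nat_lit 480572) (.g (nat_lit 2898) (.e (nat_lit 5941) (nat_lit 322) (.e (nat_lit 57372) (nat_lit 2) (.e (nat_lit 90174) (nat_lit 14) (.e (nat_lit 180250) (nat_lit 10) (.e (nat_lit 573487) (nat_lit 14) (.e (nat_lit 73753) (nat_lit 8) (.e (nat_lit 557090) (nat_lit 12) (.e (nat_lit 163844) (nat_lit 0) .nil)))))))) (.g (nat_lit 1) (.e (nat_lit 111919) (nat_lit 0) .nil) .nil))) 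
(.lf (nat_lit 481084) (.g (nat_lit 5377) (.e (nat_lit 5953) (nat_lit 322) (.e (nat_lit 57373) (nat_lit 2) (.e (nat_lit 90174) (nat_lit 14) (.e (nat_lit 180251) (nat_lit 10) (.e (nat_lit 573489) (nat_lit 14) (.e (nat_lit 73755) (nat_lit 8) (.e (nat_lit 557090) (nat_lit 12) (.e (nat_lit 163851) (nat_lit 0) .nil)))))))) (.g (nat_lit 1) (.e (nat_lit 112466) (nat_lit 0) .nil) .nil))))) 
(.nd (nat_lit 8) (.nd (nat_lit 9) 
(.lf (nat_lit 480444) (.g (nat_lit 1758) (.e (nat_lit 5939) (nat_lit 322) (.e (nat_lit 57379) (nat_lit 3) (.e (nat_lit 98365) (nat_lit 26) (.e (nat_lit 426327) (nat_lit 13) (.e (nat_lit 491264) (nat_lit 13) .nil))))) (.g (nat_lit 0) (.e (nat_lit 111791) (nat_lit 0) .nil) .nil))) 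
(.lf (nat_lit 480956) (.g (nat_lit 2154) (.e (nat_lit 5949) (nat_lit 322) (.e (nat_lit 57378) (nat_lit 3) (.e (nat_lit 98366) (nat_lit 27) (.e (nat_lit 434231) (nat_lit 23) (.e (nat_lit 532514) (nat_lit 3) (.e (nat_lit 114715) (nat_lit 22) (.e (nat_lit 90165) (nat_lit 12) (.e (nat_lit 163857) (nat_lit 0) .nil)))))))) (.g (nat_lit 1) (.e (nat_lit 112312) (nat_lit 0) .nil) .nil)))) (.nd (nat_lit 9) 
(.lf (nat_lit 480700) (.g (nat_lit 2303) (.e (nat_lit 5943) (nat_lit 322) (.e (nat_lit 57379) (nat_lit 3) (.e (nat_lit 98366) (nat_lit 27) (.e (nat_lit 434248) (nat_lit 28) (.e (nat_lit 573487) (nat_lit 14) (.e (nat_lit 73753) (nat_lit 8) (.e (nat_lit 557090) (nat_lit 12) (.e (nat_lit 163841) (nat_lit 0) .nil)))))))) (.g (nat_lit 1) (.e (nat_lit 112050) (nat_lit 0) .nil) .nil))) 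
(.lf (nat_lit 481212) (.g (nat_lit 3319) (.e (nat_lit 5259) (nat_lit 298) (.e (nat_lit 496) (nat_lit 39) (.e (nat_lit 483365) (nat_lit 18) (.e (nat_lit 57854) (nat_lit 252) (.e (nat_lit 57378) (nat_lit 3) (.e (nat_lit 98309) (nat_lit 0) (.e (nat_lit 6112) (nat_lit 332) (.e (nat_lit 2507) (nat_lit 157) .nil)))))))) (.g (nat_lit 1) (.e (nat_lit 112696) (nat_lit 0) .nil) .nil)))))) 
(.nd (nat_lit 7) (.nd (nat_lit 8) (.nd (nat_lit 9) 
(.lf (nat_lit 480380) (.g (nat_lit 2585) (.e (nat_lit 5938) (nat_lit 322) (.e (nat_lit 57372) (nat_lit 2) (.e (nat_lit 90174) (nat_lit 14) (.e (nat_lit 180252) (nat_lit 10) (.e (nat_lit 573489) (nat_lit 14) (.e (nat_lit 73755) (nat_lit 8) (.e (nat_lit 557090) (nat_lit 12) (.e (nat_lit 163851) (nat_lit 0) .nil)))))))) (.g (nat_lit 1) (.e (nat_lit 111726) (nat_lit 0) .nil) .nil))) 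
(.lf (nat_lit 480892) (.g (nat_lit 1571) (.e (nat_lit 5948) (nat_lit 322) (.e (nat_lit 57417) (nat_lit 12) (.e (nat_lit 336429) (nat_lit 29) (.e (nat_lit 442427) (nat_lit 23) (.e (nat_lit 212736) (nat_lit 10) (.e (nat_lit 434216) (nat_lit 18) .nil)))))) (.g (nat_lit 1) (.e (nat_lit 112247) (nat_lit 0) .nil) .nil)))) (.nd (nat_lit 9) 
(.lf (nat_lit 480636) (.g (nat_lit 2569) (.e (nat_lit 5943) (nat_lit 322) (.e (nat_lit 57372) (nat_lit 2) (.e (nat_lit 90174) (nat_lit 14) (.e (nat_lit 180250) (nat_lit 10) (.e (nat_lit 573489) (nat_lit 14) .nil))))) (.g (nat_lit 0) (.e (nat_lit 111985) (nat_lit 0) .nil) .nil))) 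
(.lf (nat_lit 481148) (.g (nat_lit 1781) (.e (nat_lit 5245) (nat_lit 298) (.e (nat_lit 1256) (nat_lit 92) (.e (nat_lit 98372) (nat_lit 29) (.e (nat_lit 450586) (nat_lit 10) (.e (nat_lit 573452) (nat_lit 9) (.e (nat_lit 359) (nat_lit 30) (.e (nat_lit 409602) (nat_lit 0) .nil))))))) (.g (nat_lit 1) (.e (nat_lit 112550) (nat_lit 0) .nil) .nil))))) (.nd (nat_lit 8) (.nd (nat_lit 9) 
(.lf (nat_lit 480508) (.g (nat_lit 1808) (.e (nat_lit 5940) (nat_lit 322) (.e (nat_lit 57371) (nat_lit 2) (.e (nat_lit 90173) (nat_lit 14) (.e (nat_lit 180251) (nat_lit 10) (.e (nat_lit 573489) (nat_lit 14) .nil))))) (.g (nat_lit 0) (.e (nat_lit 111855) (nat_lit 0) .nil) .nil))) 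
(.lf (nat_lit 481020) (.g (nat_lit 2792) (.e (nat_lit 5950) (nat_lit 322) (.e (nat_lit 57371) (nat_lit 2) (.e (nat_lit 90174) (nat_lit 14) (.e (nat_lit 180243) (nat_lit 5) (.e (nat_lit 532515) (nat_lit 3) (.e (nat_lit 114715) (nat_lit 22) (.e (nat_lit 90165) (nat_lit 12) (.e (nat_lit 163853) (nat_lit 0) .nil)))))))) (.g (nat_lit 1) (.e (nat_lit 112402) (nat_lit 0) .nil) .nil)))) (.nd (nat_lit 9) 
(.lf (nat_lit 480764) (.g (nat_lit 3234) (.e (nat_lit 5945) (nat_lit 322) (.e (nat_lit 57373) (nat_lit 2) (.e (nat_lit 90174) (nat_lit 14) (.e (nat_lit 180252) (nat_lit 10) (.e (nat_lit 573489) (nat_lit 14) .nil))))) (.g (nat_lit 0) (.e (nat_lit 112114) (nat_lit 0) .nil) .nil))) 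
(.lf (nat_lit 481276) (.g (nat_lit 1441) (.e (nat_lit 5389) (nat_lit 301) (.e (nat_lit 57464) (nat_lit 23) (.e (nat_lit 516165) (nat_lit 12) (.e (nat_lit 450586) (nat_lit 10) (.e (nat_lit 573452) (nat_lit 9) .nil))))) (.g (nat_lit 0) (.e (nat_lit 112891) (nat_lit 0) .nil) .nil))))))))))) 
(.nd (nat_lit 2) (.nd (nat_lit 3) (.nd (nat_lit 4) (.nd (nat_lit 5) (.nd (nat_lit 6) 
(.nd (nat_lit 7) (.nd (nat_lit 8) (.nd (nat_lit 9) 
(.lf (nat_lit 480258) (.g (nat_lit 1934) (.e (nat_lit 5937) (nat_lit 322) (.e (nat_lit 57350) (nat_lit 0) (.e (nat_lit 6113) (nat_lit 332) (.e (nat_lit 2810) (nat_lit 180) (.e (nat_lit 303145) (nat_lit 13) (.e (nat_lit 483401) (nat_lit 25) (.e (nat_lit 376576) (nat_lit 18) .nil))))))) (.g (nat_lit 1) (.e (nat_lit 111590) (nat_lit 0) .nil) .nil))) 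
(.lf (nat_lit 480770) (.g (nat_lit 2449) (.e (nat_lit 5946) (nat_lit 322) (.e (nat_lit 57371) (nat_lit 2) (.e (nat_lit 90174) (nat_lit 14) (.e (nat_lit 180250) (nat_lit 10) (.e (nat_lit 573487) (nat_lit 14) .nil))))) (.g (nat_lit 0) (.e (nat_lit 112120) (nat_lit 0) .nil) .nil)))) (.nd (nat_lit 9) 
(.lf (nat_lit 480514) (.g (nat_lit 4375) (.e (nat_lit 5940) (nat_lit 322) (.e (nat_lit 57371) (nat_lit 2) (.e (nat_lit 90174) (nat_lit 14) (.e (nat_lit 180251) (nat_lit 10) (.e (nat_lit 573489) (nat_lit 14) (.e (nat_lit 73755) (nat_lit 8) (.e (nat_lit 557090) (nat_lit 12) (.e (nat_lit 163841) (nat_lit 0) .nil)))))))) (.g (nat_lit 1) (.e (nat_lit 111861) (nat_lit 0) .nil) .nil))) 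
(.lf (nat_lit 481026) (.g (nat_lit 2702) (.e (nat_lit 5950) (nat_lit 322) (.e (nat_lit 57371) (nat_lit 2) (.e (nat_lit 90174) (nat_lit 14) (.e (nat_lit 180252) (nat_lit 10) (.e (nat_lit 573489) (nat_lit 14) .nil))))) (.g (nat_lit 0) (.e (nat_lit 112408) (nat_lit 0) .nil) .nil))))) (.nd (nat_lit 8) (.nd (nat_lit 9) 
(.lf (nat_lit 480386) (.g (nat_lit 2415) (.e (nat_lit 5938) (nat_lit 322) (.e (nat_lit 57375) (nat_lit 2) (.e (nat_lit 90174) (nat_lit 14) (.e (nat_lit 180251) (nat_lit 10) (.e (nat_lit 573489) (nat_lit 14) .nil))))) (.g (nat_lit 0) (.e (nat_lit 111732) (nat_lit 0) .nil) .nil))) 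
(.lf (nat_lit 480898) (.g (nat_lit 2489) (.e (nat_lit 5948) (nat_lit 322) (.e (nat_lit 57419) (nat_lit 12) (.e (nat_lit 336194) (nat_lit 12) (.e (nat_lit 385105) (nat_lit 50) (.e (nat_lit 786483) (nat_lit 30) (.e (nat_lit 360456) (nat_lit 0) .nil)))))) (.g (nat_lit 1) (.e (nat_lit 112253) (nat_lit 0) .nil) .nil)))) (.nd (nat_lit 9) 
(.lf (nat_lit 480642) (.g (nat_lit 2415) (.e (nat_lit 5943) (nat_lit 322) (.e (nat_lit 57372) (nat_lit 2) (.e (nat_lit 90174) (nat_lit 14) (.e (nat_lit 180251) (nat_lit 10) (.e (nat_lit 573489) (nat_lit 14) .nil))))) (.g (nat_lit 0) (.e (nat_lit 111991) (nat_lit 0) .nil) .nil))) 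
(.lf (nat_lit 481154) (.g (nat_lit 1389) (.e (nat_lit 5258) (nat_lit 298) (.e (nat_lit 1256) (nat_lit 92) (.e (nat_lit 98372) (nat_lit 29) (.e (nat_lit 450579) (nat_lit 5) (.e (nat_lit 532522) (nat_lit 7) .nil))))) (.g (nat_lit 0) (.e (nat_lit 112556) (nat_lit 0) .nil) .nil)))))) (.nd (nat_lit 7) (.nd (nat_lit 8) (.nd (nat_lit 9) 
(.lf (nat_lit 480322) (.g (nat_lit 2387) (.e (nat_lit 5937) (nat_lit 322) (.e (nat_lit 57378) (nat_lit 3) (.e (nat_lit 98368) (nat_lit 27) (.e (nat_lit 434245) (nat_lit 28) (.e (nat_lit 573487) (nat_lit 14) (.e (nat_lit 73753) (nat_lit 8) (.e (nat_lit 557094) (nat_lit 12) (.e (nat_lit 171776) (nat_lit 0) .nil)))))))) (.g (nat_lit 1) (.e (nat_lit 111658) (nat_lit 0) .nil) .nil))) 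
(.lf (nat_lit 480834) (.g (nat_lit 3093) (.e (nat_lit 5947) (nat_lit 322) (.e (nat_lit 57373) (nat_lit 2) (.e (nat_lit 90174) (nat_lit 14) (.e (nat_lit 180251) (nat_lit 10) (.e (nat_lit 573489) (nat_lit 14) (.e (nat_lit 73755) (nat_lit 8) (.e (nat_lit 557091) (nat_lit 12) (.e (nat_lit 163856) (nat_lit 0) .nil)))))))) (.g (nat_lit 1) (.e (nat_lit 112187) (nat_lit 0) .nil) .nil)))) (.nd (nat_lit 9) 
(.lf (nat_lit 480578) (.g (nat_lit 4214) (.e (nat_lit 5941) (nat_lit 322) (.e (nat_lit 57372) (nat_lit 2) (.e (nat_lit 90174) (nat_lit 14) (.e (nat_lit 180252) (nat_lit 10) (.e (nat_lit 573489) (nat_lit 14) (.e (nat_lit 73755) (nat_lit 8) (.e (nat_lit 557090) (nat_lit 12) (.e (nat_lit 163843) (nat_lit 0) .nil)))))))) (.g (nat_lit 1) (.e (nat_lit 111925) (nat_lit 0) .nil) .nil))) 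
(.lf (nat_lit 481090) (.g (nat_lit 1849) (.e (nat_lit 5953) (nat_lit 322) (.e (nat_lit 57377) (nat_lit 3) (.e (nat_lit 98365) (nat_lit 26) (.e (nat_lit 426187) (nat_lit 9) (.e (nat_lit 426479) (nat_lit 27) (.e (nat_lit 336421) (nat_lit 28) (.e (nat_lit 434212) (nat_lit 18) .nil))))))) (.g (nat_lit 1) (.e (nat_lit 112472) (nat_lit 0) .nil) .nil))))) (.nd (nat_lit 8) (.nd (nat_lit 9) 
(.lf (nat_lit 480450) (.g (nat_lit 1830) (.e (nat_lit 5939) (nat_lit 322) (.e (nat_lit 57379) (nat_lit 3) (.e (nat_lit 98366) (nat_lit 27) (.e (nat_lit 434231) (nat_lit 23) (.e (nat_lit 532507) (nat_lit 2) (.e (nat_lit 106517) (nat_lit 9) (.e (nat_lit 1255) (nat_lit 92) (.e (nat_lit 98322) (nat_lit 17) (.e (nat_lit 2457) (nat_lit 157) .nil))))))))) (.g (nat_lit 1) (.e (nat_lit 111797) (nat_lit 0) .nil) .nil))) 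
(.lf (nat_lit 480962) (.g (nat_lit 3220) (.e (nat_lit 5949) (nat_lit 322) (.e (nat_lit 57378) (nat_lit 3) (.e (nat_lit 98367) (nat_lit 27) (.e (nat_lit 434248) (nat_lit 28) (.e (nat_lit 573489) (nat_lit 14) (.e (nat_lit 73755) (nat_lit 8) (.e (nat_lit 557090) (nat_lit 12) (.e (nat_lit 163856) (nat_lit 0) .nil)))))))) (.g (nat_lit 1) (.e (nat_lit 112318) (nat_lit 0) .nil) .nil)))) (.nd (nat_lit 9) 
(.lf (nat_lit 480706) (.g (nat_lit 4594) (.e (nat_lit 5943) (nat_lit 322) (.e (nat_lit 57379) (nat_lit 3) (.e (nat_lit 98367) (nat_lit 27) (.e (nat_lit 434246) (nat_lit 28) (.e (nat_lit 573489) (nat_lit 14) (.e (nat_lit 73755) (nat_lit 8) (.e (nat_lit 557090) (nat_lit 12) (.e (nat_lit 163844) (nat_lit 0) .nil)))))))) (.g (nat_lit 1) (.e (nat_lit 112056) (nat_lit 0) .nil) .nil))) 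
(.lf (nat_lit 481218) (.g (nat_lit 1274) (.e (nat_lit 5293) (nat_lit 298) (.e (nat_lit 1232) (nat_lit 91) (.e (nat_lit 90170) (nat_lit 13) (.e (nat_lit 172106) (nat_lit 10) (.e (nat_lit 434244) (nat_lit 28) .nil))))) (.g (nat_lit 0) (.e (nat_lit 112776) (nat_lit 0) .nil) .nil))))))) (.nd (nat_lit 6) (.nd (nat_lit 7) (.nd (nat_lit 8) (.nd (nat_lit 9) 
(.lf (nat_lit 480290) (.g (nat_lit 3480) (.e (nat_lit 5937) (nat_lit 322) (.e (nat_lit 57375) (nat_lit 2) (.e (nat_lit 90174) (nat_lit 14) (.e (nat_lit 180243) (nat_lit 5) (.e (nat_lit 532513) (nat_lit 3) (.e (nat_lit 114714) (nat_lit 22) (.e (nat_lit 90165) (nat_lit 12) (.e (nat_lit 171776) (nat_lit 0) .nil)))))))) (.g (nat_lit 1) (.e (nat_lit 111622) (nat_lit 0) .nil) .nil))) 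
(.lf (nat_lit 480802) (.g (nat_lit 2548) (.e (nat_lit 5946) (nat_lit 322) (.e (nat_lit 57378) (nat_lit 3) (.e (nat_lit 98367) (nat_lit 27) (.e (nat_lit 434231) (nat_lit 23) (.e (nat_lit 532514) (nat_lit 3) (.e (nat_lit 114719) (nat_lit 23) (.e (nat_lit 98325) (nat_lit 17) (.e (nat_lit 2515) (nat_lit 157) .nil)))))))) (.g (nat_lit 1) (.e (nat_lit 112152) (nat_lit 0) .nil) .nil)))) (.nd (nat_lit 9) 
(.lf (nat_lit 480546) (.g (nat_lit 2710) (.e (nat_lit 5940) (nat_lit 322) (.e (nat_lit 57375) (nat_lit 2) (.e (nat_lit 90174) (nat_lit 14) (.e (nat_lit 180250) (nat_lit 10) (.e (nat_lit 573487) (nat_lit 14) (.e (nat_lit 73753) (nat_lit 8) (.e (nat_lit 557090) (nat_lit 12) (.e (nat_lit 163843) (nat_lit 0) .nil)))))))) (.g (nat_lit 1) (.e (nat_lit 111893) (nat_lit 0) .nil) .nil))) 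
(.lf (nat_lit 481058) (.g (nat_lit 3010) (.e (nat_lit 5952) (nat_lit 322) (.e (nat_lit 57373) (nat_lit 2) (.e (nat_lit 90174) (nat_lit 14) (.e (nat_lit 180251) (nat_lit 10) (.e (nat_lit 573489) (nat_lit 14) .nil))))) (.g (nat_lit 0) (.e (nat_lit 112440) (nat_lit 0) .nil) .nil))))) (.nd (nat_lit 8) (.nd (nat_lit 9) 
(.lf (nat_lit 480418) (.g (nat_lit 1953) (.e (nat_lit 5939) (nat_lit 322) (.e (nat_lit 57375) (nat_lit 2) (.e (nat_lit 90174) (nat_lit 14) (.e (nat_lit 180243) (nat_lit 5) (.e (nat_lit 532513) (nat_lit 3) (.e (nat_lit 114714) (nat_lit 22) (.e (nat_lit 90164) (nat_lit 12) (.e (nat_lit 163851) (nat_lit 0) .nil)))))))) (.g (nat_lit 1) (.e (nat_lit 111764) (nat_lit 0) .nil) .nil))) 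
(.lf (nat_lit 480930) (.g (nat_lit 2363) (.e (nat_lit 5949) (nat_lit 322) (.e (nat_lit 57373) (nat_lit 2) (.e (nat_lit 90173) (nat_lit 14) (.e (nat_lit 180251) (nat_lit 10) (.e (nat_lit 573489) (nat_lit 14) (.e (nat_lit 73754) (nat_lit 8) (.e (nat_lit 557094) (nat_lit 12) (.e (nat_lit 163856) (nat_lit 0) .nil)))))))) (.g (nat_lit 1) (.e (nat_lit 112286) (nat_lit 0) .nil) .nil)))) (.nd (nat_lit 9) 
(.lf (nat_lit 480674) (.g (nat_lit 1951) (.e (nat_lit 5943) (nat_lit 322) (.e (nat_lit 57375) (nat_lit 2) (.e (nat_lit 90174) (nat_lit 14) (.e (nat_lit 180243) (nat_lit 5) (.e (nat_lit 532515) (nat_lit 3) (.e (nat_lit 114716) (nat_lit 22) (.e (nat_lit 90181) (nat_lit 16) (.e (nat_lit 229376) (nat_lit 0) .nil)))))))) (.g (nat_lit 1) (.e (nat_lit 112023) (nat_lit 0) .nil) .nil))) 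
(.lf (nat_lit 481186) (.g (nat_lit 2524) (.e (nat_lit 5270) (nat_lit 298) (.e (nat_lit 1239) (nat_lit 91) (.e (nat_lit 90170) (nat_lit 13) (.e (nat_lit 172113) (nat_lit 10) (.e (nat_lit 434248) (nat_lit 28) (.e (nat_lit 573448) (nat_lit 9) (.e (nat_lit 359) (nat_lit 30) (.e (nat_lit 409603) (nat_lit 0) .nil)))))))) (.g (nat_lit 1) (.e (nat_lit 112608) (nat_lit 0) .nil) .nil)))))) 
(.nd (nat_lit 7) (.nd (nat_lit 8) (.nd (nat_lit 9) 
(.lf (nat_lit 480354) (.g (nat_lit 1836) (.e (nat_lit 5937) (nat_lit 322) (.e (nat_lit 57411) (nat_lit 12) (.e (nat_lit 336207) (nat_lit 12) (.e (nat_lit 385106) (nat_lit 50) (.e (nat_lit 786483) (nat_lit 30) (.e (nat_lit 368384) (nat_lit 0) .nil)))))) (.g (nat_lit 1) (.e (nat_lit 111697) (nat_lit 0) .nil) .nil))) 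
(.lf (nat_lit 480866) (.g (nat_lit 3713) (.e (nat_lit 5948) (nat_lit 322) (.e (nat_lit 57373) (nat_lit 2) (.e (nat_lit 90174) (nat_lit 14) (.e (nat_lit 180243) (nat_lit 5) (.e (nat_lit 532515) (nat_lit 3) (.e (nat_lit 114715) (nat_lit 22) (.e (nat_lit 90165) (nat_lit 12) (.e (nat_lit 163857) (nat_lit 0) .nil)))))))) (.g (nat_lit 1) (.e (nat_lit 112220) (nat_lit 0) .nil) .nil)))) (.nd (nat_lit 9) 
(.lf (nat_lit 480610) (.g (nat_lit 1993) (.e (nat_lit 5942) (nat_lit 322) (.e (nat_lit 57375) (nat_lit 2) (.e (nat_lit 90174) (nat_lit 14) (.e (nat_lit 180243) (nat_lit 5) (.e (nat_lit 532513) (nat_lit 3) .nil))))) (.g (nat_lit 0) (.e (nat_lit 111959) (nat_lit 0) .nil) .nil))) 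
(.lf (nat_lit 481122) (.g (nat_lit 2905) (.e (nat_lit 5954) (nat_lit 322) (.e (nat_lit 57373) (nat_lit 2) (.e (nat_lit 90174) (nat_lit 14) (.e (nat_lit 180250) (nat_lit 10) (.e (nat_lit 573489) (nat_lit 14) (.e (nat_lit 73755) (nat_lit 8) (.e (nat_lit 557091) (nat_lit 12) (.e (nat_lit 163845) (nat_lit 0) .nil)))))))) (.g (nat_lit 1) (.e (nat_lit 112508) (nat_lit 0) .nil) .nil))))) 
(.nd (nat_lit 8) (.nd (nat_lit 9) 
(.lf (nat_lit 480482) (.g (nat_lit 2036) (.e (nat_lit 5939) (nat_lit 322) (.e (nat_lit 57379) (nat_lit 3) (.e (nat_lit 98367) (nat_lit 27) (.e (nat_lit 434231) (nat_lit 23) (.e (nat_lit 532514) (nat_lit 3) (.e (nat_lit 114716) (nat_lit 22) (.e (nat_lit 90179) (nat_lit 16) (.e (nat_lit 229379) (nat_lit 0) .nil)))))))) (.g (nat_lit 1) (.e (nat_lit 111829) (nat_lit 0) .nil) .nil))) 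
(.lf (nat_lit 480994) (.g (nat_lit 2003) (.e (nat_lit 5949) (nat_lit 322) (.e (nat_lit 57417) (nat_lit 12) (.e (nat_lit 336206) (nat_lit 12) (.e (nat_lit 385102) (nat_lit 50) (.e (nat_lit 786481) (nat_lit 30) (.e (nat_lit 360457) (nat_lit 0) .nil)))))) (.g (nat_lit 1) (.e (nat_lit 112361) (nat_lit 0) .nil) .nil)))) (.nd (nat_lit 9) 
(.lf (nat_lit 480738) (.g (nat_lit 2152) (.e (nat_lit 5944) (nat_lit 322) (.e (nat_lit 57378) (nat_lit 3) (.e (nat_lit 98368) (nat_lit 27) (.e (nat_lit 434245) (nat_lit 28) (.e (nat_lit 573488) (nat_lit 14) .nil))))) (.g (nat_lit 0) (.e (nat_lit 112088) (nat_lit 0) .nil) .nil))) 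
(.lf (nat_lit 481250) (.g (nat_lit 3371) (.e (nat_lit 5345) (nat_lit 298) (.e (nat_lit 1234) (nat_lit 91) (.e (nat_lit 90170) (nat_lit 13) (.e (nat_lit 172106) (nat_lit 10) (.e (nat_lit 434231) (nat_lit 23) .nil))))) (.g (nat_lit 0) (.e (nat_lit 112821) (nat_lit 0) .nil) .nil)))))))) (.nd (nat_lit 5) (.nd (nat_lit 6) (.nd (nat_lit 7) (.nd (nat_lit 8) (.nd (nat_lit 9) 
(.lf (nat_lit 480274) (.g (nat_lit 2113) (.e (nat_lit 5937) (nat_lit 322) (.e (nat_lit 57373) (nat_lit 2) (.e (nat_lit 90174) (nat_lit 14) (.e (nat_lit 180243) (nat_lit 5) (.e (nat_lit 532515) (nat_lit 3) .nil))))) (.g (nat_lit 0) (.e (nat_lit 111606) (nat_lit 0) .nil) .nil))) 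
(.lf (nat_lit 480786) (.g (nat_lit 2647) (.e (nat_lit 5946) (nat_lit 322) (.e (nat_lit 57373) (nat_lit 2) (.e (nat_lit 90174) (nat_lit 14) (.e (nat_lit 180250) (nat_lit 10) (.e (nat_lit 573489) (nat_lit 14) (.e (nat_lit 73754) (nat_lit 8) (.e (nat_lit 557093) (nat_lit 12) (.e (nat_lit 163857) (nat_lit 0) .nil)))))))) (.g (nat_lit 1) (.e (nat_lit 112136) (nat_lit 0) .nil) .nil)))) (.nd (nat_lit 9) 
(.lf (nat_lit 480530) (.g (nat_lit 3256) (.e (nat_lit 5940) (nat_lit 322) (.e (nat_lit 57373) (nat_lit 2) (.e (nat_lit 90174) (nat_lit 14) (.e (nat_lit 180252) (nat_lit 10) (.e (nat_lit 573489) (nat_lit 14) .nil))))) (.g (nat_lit 0) (.e (nat_lit 111877) (nat_lit 0) .nil) .nil))) 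
(.lf (nat_lit 481042) (.g (nat_lit 2798) (.e (nat_lit 5951) (nat_lit 322) (.e (nat_lit 57373) (nat_lit 2) (.e (nat_lit 90172) (nat_lit 14) (.e (nat_lit 180250) (nat_lit 10) (.e (nat_lit 573487) (nat_lit 14) .nil))))) (.g (nat_lit 0) (.e (nat_lit 112424) (nat_lit 0) .nil) .nil))))) (.nd (nat_lit 8) (.nd (nat_lit 9) 
(.lf (nat_lit 480402) (.g (nat_lit 2999) (.e (nat_lit 5939) (nat_lit 322) (.e (nat_lit 57372) (nat_lit 2) (.e (nat_lit 90174) (nat_lit 14) (.e (nat_lit 180243) (nat_lit 5) (.e (nat_lit 532515) (nat_lit 3) (.e (nat_lit 114716) (nat_lit 22) (.e (nat_lit 90182) (nat_lit 16) (.e (nat_lit 229379) (nat_lit 0) .nil)))))))) (.g (nat_lit 1) (.e (nat_lit 111748) (nat_lit 0) .nil) .nil))) 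
(.lf (nat_lit 480914) (.g (nat_lit 2368) (.e (nat_lit 5949) (nat_lit 322) (.e (nat_lit 57350) (nat_lit 0) (.e (nat_lit 6113) (nat_lit 332) (.e (nat_lit 2810) (nat_lit 180) (.e (nat_lit 303145) (nat_lit 13) (.e (nat_lit 483401) (nat_lit 25) (.e (nat_lit 368664) (nat_lit 18) .nil))))))) (.g (nat_lit 1) (.e (nat_lit 112270) (nat_lit 0) .nil) .nil)))) (.nd (nat_lit 9) 
(.lf (nat_lit 480658) (.g (nat_lit 3788) (.e (nat_lit 5943) (nat_lit 322) (.e (nat_lit 57374) (nat_lit 2) (.e (nat_lit 90173) (nat_lit 14) (.e (nat_lit 180252) (nat_lit 10) (.e (nat_lit 573489) (nat_lit 14) (.e (nat_lit 73755) (nat_lit 8) (.e (nat_lit 557090) (nat_lit 12) (.e (nat_lit 163844) (nat_lit 0) .nil)))))))) (.g (nat_lit 1) (.e (nat_lit 112007) (nat_lit 0) .nil) .nil))) 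
(.lf (nat_lit 481170) (.g (nat_lit 3432) (.e (nat_lit 5270) (nat_lit 298) (.e (nat_lit 1239) (nat_lit 91) (.e (nat_lit 90170) (nat_lit 13) (.e (nat_lit 172113) (nat_lit 10) (.e (nat_lit 434245) (nat_lit 28) (.e (nat_lit 573450) (nat_lit 9) (.e (nat_lit 362) (nat_lit 30) (.e (nat_lit 409605) (nat_lit 0) .nil)))))))) (.g (nat_lit 1) (.e (nat_lit 112592) (nat_lit 0) .nil) .nil)))))) 
(.nd (nat_lit 7) (.nd (nat_lit 8) (.nd (nat_lit 9) 
(.lf (nat_lit 480338) (.g (nat_lit 2791) (.e (nat_lit 5937) (nat_lit 322) (.e (nat_lit 57379) (nat_lit 3) (.e (nat_lit 98366) (nat_lit 27) (.e (nat_lit 434231) (nat_lit 23) (.e (nat_lit 532507) (nat_lit 2) (.e (nat_lit 106517) (nat_lit 9) (.e (nat_lit 1255) (nat_lit 92) (.e (nat_lit 98322) (nat_lit 17) (.e (nat_lit 2466) (nat_lit 157) .nil))))))))) (.g (nat_lit 1) (.e (nat_lit 111674) (nat_lit 0) .nil) .nil))) 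
(.lf (nat_lit 480850) (.g (nat_lit 3928) (.e (nat_lit 5948) (nat_lit 322) (.e (nat_lit 57371) (nat_lit 2) (.e (nat_lit 90174) (nat_lit 14) (.e (nat_lit 180243) (nat_lit 5) (.e (nat_lit 532515) (nat_lit 3) (.e (nat_lit 114715) (nat_lit 22) (.e (nat_lit 90165) (nat_lit 12) (.e (nat_lit 163857) (nat_lit 0) .nil)))))))) (.g (nat_lit 1) (.e (nat_lit 112204) (nat_lit 0) .nil) .nil)))) (.nd (nat_lit 9) 
(.lf (nat_lit 480594) (.g (nat_lit 1375) (.e (nat_lit 5941) (nat_lit 322) (.e (nat_lit 57437) (nat_lit 17) (.e (nat_lit 376835) (nat_lit 0) (.e (nat_lit 3746) (nat_lit 228) (.e (nat_lit 786481) (nat_lit 30) .nil))))) (.g (nat_lit 0) (.e (nat_lit 111943) (nat_lit 0) .nil) .nil))) 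
(.lf (nat_lit 481106) (.g (nat_lit 3219) (.e (nat_lit 5954) (nat_lit 322) (.e (nat_lit 57371) (nat_lit 2) (.e (nat_lit 90173) (nat_lit 14) (.e (nat_lit 180252) (nat_lit 10) (.e (nat_lit 573489) (nat_lit 14) (.e (nat_lit 73755) (nat_lit 8) (.e (nat_lit 557090) (nat_lit 12) (.e (nat_lit 163841) (nat_lit 0) .nil)))))))) (.g (nat_lit 1) (.e (nat_lit 112492) (nat_lit 0) .nil) .nil))))) 
(.nd (nat_lit 8) (.nd (nat_lit 9) 
(.lf (nat_lit 480466) (.g (nat_lit 2930) (.e (nat_lit 5939) (nat_lit 322) (.e (nat_lit 57379) (nat_lit 3) (.e (nat_lit 98366) (nat_lit 27) (.e (nat_lit 434231) (nat_lit 23) (.e (nat_lit 532514) (nat_lit 3) (.e (nat_lit 114716) (nat_lit 22) (.e (nat_lit 90182) (nat_lit 16) (.e (nat_lit 229379) (nat_lit 0) .nil)))))))) (.g (nat_lit 1) (.e (nat_lit 111813) (nat_lit 0) .nil) .nil))) 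
(.lf (nat_lit 480978) (.g (nat_lit 2581) (.e (nat_lit 5949) (nat_lit 322) (.e (nat_lit 57409) (nat_lit 12) (.e (nat_lit 336443) (nat_lit 32) (.e (nat_lit 466974) (nat_lit 22) (.e (nat_lit 196654) (nat_lit 11) (.e (nat_lit 16388) (nat_lit 0) (.e (nat_lit 2485) (nat_lit 157) .nil))))))) (.g (nat_lit 1) (.e (nat_lit 112345) (nat_lit 0) .nil) .nil)))) (.nd (nat_lit 9) 
(.lf (nat_lit 480722) (.g (nat_lit 2293) (.e (nat_lit 5944) (nat_lit 322) (.e (nat_lit 57373) (nat_lit 2) (.e (nat_lit 90174) (nat_lit 14) (.e (nat_lit 180243) (nat_lit 5) (.e (nat_lit 532513) (nat_lit 3) (.e (nat_lit 114718) (nat_lit 23) (.e (nat_lit 98325) (nat_lit 17) (.e (nat_lit 2505) (nat_lit 157) .nil)))))))) (.g (nat_lit 1) (.e (nat_lit 112072) (nat_lit 0) .nil) .nil))) 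
(.lf (nat_lit 481234) (.g (nat_lit 2682) (.e (nat_lit 5293) (nat_lit 298) (.e (nat_lit 1250) (nat_lit 92) (.e (nat_lit 98373) (nat_lit 29) (.e (nat_lit 450587) (nat_lit 10) (.e (nat_lit 573456) (nat_lit 9) (.e (nat_lit 7936) (nat_lit 30) (.e (nat_lit 409603) (nat_lit 0) .nil))))))) (.g (nat_lit 1) (.e (nat_lit 112792) (nat_lit 0) .nil) .nil))))))) 
(.nd (nat_lit 6) (.nd (nat_lit 7) (.nd (nat_lit 8) (.nd (nat_lit 9) 
(.lf (nat_lit 480306) (.g (nat_lit 2313) (.e (nat_lit 5937) (nat_lit 322) (.e (nat_lit 57378) (nat_lit 3) (.e (nat_lit 98365) (nat_lit 26) (.e (nat_lit 426325) (nat_lit 13) (.e (nat_lit 483337) (nat_lit 9) .nil))))) (.g (nat_lit 0) (.e (nat_lit 111642) (nat_lit 0) .nil) .nil))) 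
(.lf (nat_lit 480818) (.g (nat_lit 2024) (.e (nat_lit 5947) (nat_lit 322) (.e (nat_lit 57371) (nat_lit 2) (.e (nat_lit 90174) (nat_lit 14) (.e (nat_lit 180243) (nat_lit 5) (.e (nat_lit 532513) (nat_lit 3) .nil))))) (.g (nat_lit 0) (.e (nat_lit 112171) (nat_lit 0) .nil) .nil)))) (.nd (nat_lit 9) 
(.lf (nat_lit 480562) (.g (nat_lit 4685) (.e (nat_lit 5940) (nat_lit 322) (.e (nat_lit 57379) (nat_lit 3) (.e (nat_lit 98367) (nat_lit 27) (.e (nat_lit 434248) (nat_lit 28) (.e (nat_lit 573489) (nat_lit 14) (.e (nat_lit 73755) (nat_lit 8) (.e (nat_lit 557090) (nat_lit 12) (.e (nat_lit 163843) (nat_lit 0) .nil)))))))) (.g (nat_lit 1) (.e (nat_lit 111909) (nat_lit 0) .nil) .nil))) 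
(.lf (nat_lit 481074) (.g (nat_lit 3746) (.e (nat_lit 5953) (nat_lit 322) (.e (nat_lit 57373) (nat_lit 2) (.e (nat_lit 90174) (nat_lit 14) (.e (nat_lit 180243) (nat_lit 5) (.e (nat_lit 532513) (nat_lit 3) (.e (nat_lit 114718) (nat_lit 23) (.e (nat_lit 98325) (nat_lit 17) (.e (nat_lit 2478) (nat_lit 157) .nil)))))))) (.g (nat_lit 1) (.e (nat_lit 112456) (nat_lit 0) .nil) .nil))))) 
(.nd (nat_lit 8) (.nd (nat_lit 9) 
(.lf (nat_lit 480434) (.g (nat_lit 3105) (.e (nat_lit 5939) (nat_lit 322) (.e (nat_lit 57375) (nat_lit 2) (.e (nat_lit 90174) (nat_lit 14) (.e (nat_lit 180251) (nat_lit 10) (.e (nat_lit 573489) (nat_lit 14) (.e (nat_lit 73755) (nat_lit 8) (.e (nat_lit 557091) (nat_lit 12) (.e (nat_lit 163851) (nat_lit 0) .nil)))))))) (.g (nat_lit 1) (.e (nat_lit 111780) (nat_lit 0) .nil) .nil))) 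
(.lf (nat_lit 480946) (.g (nat_lit 4285) (.e (nat_lit 5949) (nat_lit 322) (.e (nat_lit 57373) (nat_lit 2) (.e (nat_lit 90174) (nat_lit 14) (.e (nat_lit 180250) (nat_lit 10) (.e (nat_lit 573489) (nat_lit 14) (.e (nat_lit 73755) (nat_lit 8) (.e (nat_lit 557091) (nat_lit 12) (.e (nat_lit 163856) (nat_lit 0) .nil)))))))) (.g (nat_lit 1) (.e (nat_lit 112302) (nat_lit 0) .nil) .nil)))) (.nd (nat_lit 9) 
(.lf (nat_lit 480690) (.g (nat_lit 4198) (.e (nat_lit 5943) (nat_lit 322) (.e (nat_lit 57375) (nat_lit 2) (.e (nat_lit 90174) (nat_lit 14) (.e (nat_lit 180252) (nat_lit 10) (.e (nat_lit 573489) (nat_lit 14) (.e (nat_lit 73755) (nat_lit 8) (.e (nat_lit 557090) (nat_lit 12) (.e (nat_lit 163843) (nat_lit 0) .nil)))))))) (.g (nat_lit 1) (.e (nat_lit 112039) (nat_lit 0) .nil) .nil))) 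
(.lf (nat_lit 481202) (.g (nat_lit 1716) (.e (nat_lit 5271) (nat_lit 298) (.e (nat_lit 1239) (nat_lit 91) (.e (nat_lit 90170) (nat_lit 13) (.e (nat_lit 172113) (nat_lit 10) (.e (nat_lit 434242) (nat_lit 28) (.e (nat_lit 573451) (nat_lit 9) (.e (nat_lit 365) (nat_lit 31) (.e (nat_lit 417794) (nat_lit 0) .nil)))))))) (.g (nat_lit 1) (.e (nat_lit 112626) (nat_lit 0) .nil) .nil)))))) 
(.nd (nat_lit 7) (.nd (nat_lit 8) (.nd (nat_lit 9) 
(.lf (nat_lit 480370) (.g (nat_lit 2302) (.e (nat_lit 5938) (nat_lit 322) (.e (nat_lit 57372) (nat_lit 2) (.e (nat_lit 90173) (nat_lit 14) (.e (nat_lit 180252) (nat_lit 10) (.e (nat_lit 573489) (nat_lit 14) (.e (nat_lit 73755) (nat_lit 8) (.e (nat_lit 557090) (nat_lit 12) (.e (nat_lit 163840) (nat_lit 0) .nil)))))))) (.g (nat_lit 1) (.e (nat_lit 111716) (nat_lit 0) .nil) .nil))) 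
(.lf (nat_lit 480882) (.g (nat_lit 2397) (.e (nat_lit 5948) (nat_lit 322) (.e (nat_lit 57378) (nat_lit 3) (.e (nat_lit 98367) (nat_lit 27) (.e (nat_lit 434231) (nat_lit 23) (.e (nat_lit 532514) (nat_lit 3) (.e (nat_lit 114718) (nat_lit 23) (.e (nat_lit 98325) (nat_lit 17) (.e (nat_lit 2515) (nat_lit 157) .nil)))))))) (.g (nat_lit 1) (.e (nat_lit 112237) (nat_lit 0) .nil) .nil)))) (.nd (nat_lit 9) 
(.lf (nat_lit 480626) (.g (nat_lit 4787) (.e (nat_lit 5943) (nat_lit 322) (.e (nat_lit 57372) (nat_lit 2) (.e (nat_lit 90172) (nat_lit 14) (.e (nat_lit 180251) (nat_lit 10) (.e (nat_lit 573489) (nat_lit 14) (.e (nat_lit 73755) (nat_lit 8) (.e (nat_lit 557090) (nat_lit 12) (.e (nat_lit 163844) (nat_lit 0) .nil)))))))) (.g (nat_lit 1) (.e (nat_lit 111975) (nat_lit 0) .nil) .nil))) 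
(.lf (nat_lit 481138) (.g (nat_lit 1313) (.e (nat_lit 5954) (nat_lit 322) (.e (nat_lit 57436) (nat_lit 17) (.e (nat_lit 376835) (nat_lit 0) (.e (nat_lit 3746) (nat_lit 228) (.e (nat_lit 786481) (nat_lit 30) .nil))))) (.g (nat_lit 0) (.e (nat_lit 112524) (nat_lit 0) .nil) .nil))))) (.nd (nat_lit 8) (.nd (nat_lit 9) 
(.lf (nat_lit 480498) (.g (nat_lit 3158) (.e (nat_lit 5939) (nat_lit 322) (.e (nat_lit 57379) (nat_lit 3) (.e (nat_lit 98368) (nat_lit 27) (.e (nat_lit 434247) (nat_lit 28) (.e (nat_lit 573489) (nat_lit 14) (.e (nat_lit 73755) (nat_lit 8) (.e (nat_lit 557091) (nat_lit 12) (.e (nat_lit 163840) (nat_lit 0) .nil)))))))) (.g (nat_lit 1) (.e (nat_lit 111845) (nat_lit 0) .nil) .nil))) 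
(.lf (nat_lit 481010) (.g (nat_lit 3173) (.e (nat_lit 5949) (nat_lit 322) (.e (nat_lit 57436) (nat_lit 17) (.e (nat_lit 376860) (nat_lit 21) (.e (nat_lit 57931) (nat_lit 282) (.e (nat_lit 163842) (nat_lit 0) (.e (nat_lit 7593) (nat_lit 407) (.e (nat_lit 73736) (nat_lit 0) .nil))))))) (.g (nat_lit 1) (.e (nat_lit 112390) (nat_lit 0) .nil) .nil)))) (.nd (nat_lit 9) 
(.lf (nat_lit 480754) (.g (nat_lit 5418) (.e (nat_lit 5945) (nat_lit 322) (.e (nat_lit 57371) (nat_lit 2) (.e (nat_lit 90174) (nat_lit 14) (.e (nat_lit 180251) (nat_lit 10) (.e (nat_lit 573489) (nat_lit 14) (.e (nat_lit 73755) (nat_lit 8) (.e (nat_lit 557090) (nat_lit 12) (.e (nat_lit 163844) (nat_lit 0) .nil)))))))) (.g (nat_lit 1) (.e (nat_lit 112104) (nat_lit 0) .nil) .nil))) 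
(.lf (nat_lit 481266) (.g (nat_lit 1352) (.e (nat_lit 5383) (nat_lit 300) (.e (nat_lit 16473) (nat_lit 14) (.e (nat_lit 491547) (nat_lit 9) .nil))) (.g (nat_lit 0) (.e (nat_lit 112869) (nat_lit 0) .nil) .nil))))))))) (.nd (nat_lit 4) (.nd (nat_lit 5) (.nd (nat_lit 6) (.nd (nat_lit 7) (.nd (nat_lit 8) (.nd (nat_lit 9) 
(.lf (nat_lit 480266) (.g (nat_lit 2486) (.e (nat_lit 5937) (nat_lit 322) (.e (nat_lit 57372) (nat_lit 2) (.e (nat_lit 90174) (nat_lit 14) (.e (nat_lit 180243) (nat_lit 5) (.e (nat_lit 532513) (nat_lit 3) .nil))))) (.g (nat_lit 0) (.e (nat_lit 111598) (nat_lit 0) .nil) .nil))) 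
(.lf (nat_lit 480778) (.g (nat_lit 3118) (.e (nat_lit 5946) (nat_lit 322) (.e (nat_lit 57373) (nat_lit 2) (.e (nat_lit 90173) (nat_lit 14) (.e (nat_lit 180252) (nat_lit 10) (.e (nat_lit 573489) (nat_lit 14) (.e (nat_lit 73755) (nat_lit 8) (.e (nat_lit 557090) (nat_lit 12) (.e (nat_lit 163850) (nat_lit 0) .nil)))))))) (.g (nat_lit 1) (.e (nat_lit 112128) (nat_lit 0) .nil) .nil)))) (.nd (nat_lit 9) 
(.lf (nat_lit 480522) (.g (nat_lit 2986) (.e (nat_lit 5940) (nat_lit 322) (.e (nat_lit 57372) (nat_lit 2) (.e (nat_lit 90174) (nat_lit 14) (.e (nat_lit 180251) (nat_lit 10) (.e (nat_lit 573489) (nat_lit 14) (.e (nat_lit 73755) (nat_lit 8) (.e (nat_lit 557090) (nat_lit 12) (.e (nat_lit 163844) (nat_lit 0) .nil)))))))) (.g (nat_lit 1) (.e (nat_lit 111869) (nat_lit 0) .nil) .nil))) 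
(.lf (nat_lit 481034) (.g (nat_lit 2421) (.e (nat_lit 5951) (nat_lit 322) (.e (nat_lit 57371) (nat_lit 2) (.e (nat_lit 90174) (nat_lit 14) (.e (nat_lit 180243) (nat_lit 5) (.e (nat_lit 532515) (nat_lit 3) (.e (nat_lit 114716) (nat_lit 22) (.e (nat_lit 90163) (nat_lit 12) (.e (nat_lit 163850) (nat_lit 0) .nil)))))))) (.g (nat_lit 1) (.e (nat_lit 112416) (nat_lit 0) .nil) .nil))))) 
(.nd (nat_lit 8) (.nd (nat_lit 9) 
(.lf (nat_lit 480394) (.g (nat_lit 2197) (.e (nat_lit 5939) (nat_lit 322) (.e (nat_lit 57372) (nat_lit 2) (.e (nat_lit 90174) (nat_lit 14) (.e (nat_lit 180243) (nat_lit 5) (.e (nat_lit 532513) (nat_lit 3) (.e (nat_lit 114718) (nat_lit 23) (.e (nat_lit 98325) (nat_lit 17) (.e (nat_lit 2458) (nat_lit 157) .nil)))))))) (.g (nat_lit 1) (.e (nat_lit 111740) (nat_lit 0) .nil) .nil))) 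
(.lf (nat_lit 480906) (.g (nat_lit 2155) (.e (nat_lit 5948) (nat_lit 322) (.e (nat_lit 57424) (nat_lit 14) (.e (nat_lit 352262) (nat_lit 0) (.e (nat_lit 3748) (nat_lit 228) (.e (nat_lit 786483) (nat_lit 30) (.e (nat_lit 360456) (nat_lit 0) .nil)))))) (.g (nat_lit 1) (.e (nat_lit 112262) (nat_lit 0) .nil) .nil)))) (.nd (nat_lit 9) 
(.lf (nat_lit 480650) (.g (nat_lit 2303) (.e (nat_lit 5943) (nat_lit 322) (.e (nat_lit 57372) (nat_lit 2) (.e (nat_lit 90174) (nat_lit 14) (.e (nat_lit 180252) (nat_lit 10) (.e (nat_lit 573489) (nat_lit 14) (.e (nat_lit 73755) (nat_lit 8) (.e (nat_lit 557090) (nat_lit 12) (.e (nat_lit 163845) (nat_lit 0) .nil)))))))) (.g (nat_lit 1) (.e (nat_lit 111999) (nat_lit 0) .nil) .nil))) 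
(.lf (nat_lit 481162) (.g (nat_lit 2719) (.e (nat_lit 5270) (nat_lit 298) (.e (nat_lit 1239) (nat_lit 91) (.e (nat_lit 90170) (nat_lit 13) (.e (nat_lit 172106) (nat_lit 10) (.e (nat_lit 434244) (nat_lit 28) (.e (nat_lit 573458) (nat_lit 9) (.e (nat_lit 7936) (nat_lit 30) (.e (nat_lit 409603) (nat_lit 0) .nil)))))))) (.g (nat_lit 1) (.e (nat_lit 112584) (nat_lit 0) .nil) .nil)))))) 
(.nd (nat_lit 7) (.nd (nat_lit 8) (.nd (nat_lit 9) 
(.lf (nat_lit 480330) (.g (nat_lit 2441) (.e (nat_lit 5937) (nat_lit 322) (.e (nat_lit 57378) (nat_lit 3) (.e (nat_lit 98368) (nat_lit 27) (.e (nat_lit 434248) (nat_lit 28) (.e (nat_lit 573487) (nat_lit 14) (.e (nat_lit 73753) (nat_lit 8) (.e (nat_lit 557094) (nat_lit 12) (.e (nat_lit 163840) (nat_lit 0) .nil)))))))) (.g (nat_lit 1) (.e (nat_lit 111666) (nat_lit 0) .nil) .nil))) 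
(.lf (nat_lit 480842) (.g (nat_lit 721) (.e (nat_lit 5947) (nat_lit 322) (.e (nat_lit 57423) (nat_lit 14) (.e (nat_lit 352262) (nat_lit 0) .nil))) (.g (nat_lit 0) (.e (nat_lit 112195) (nat_lit 0) .nil) .nil)))) (.nd (nat_lit 9) 
(.lf (nat_lit 480586) (.g (nat_lit 2678) (.e (nat_lit 5941) (nat_lit 322) (.e (nat_lit 57374) (nat_lit 2) (.e (nat_lit 90174) (nat_lit 14) (.e (nat_lit 180252) (nat_lit 10) (.e (nat_lit 573489) (nat_lit 14) .nil))))) (.g (nat_lit 0) (.e (nat_lit 111933) (nat_lit 0) .nil) .nil))) 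
(.lf (nat_lit 481098) (.g (nat_lit 2377) (.e (nat_lit 5953) (nat_lit 322) (.e (nat_lit 57378) (nat_lit 3) (.e (nat_lit 98368) (nat_lit 27) (.e (nat_lit 434245) (nat_lit 28) (.e (nat_lit 573488) (nat_lit 14) (.e (nat_lit 73755) (nat_lit 8) (.e (nat_lit 557090) (nat_lit 12) (.e (nat_lit 163852) (nat_lit 0) .nil)))))))) (.g (nat_lit 1) (.e (nat_lit 112480) (nat_lit 0) .nil) .nil))))) 
(.nd (nat_lit 8) (.nd (nat_lit 9) 
(.lf (nat_lit 480458) (.g (nat_lit 3578) (.e (nat_lit 5939) (nat_lit 322) (.e (nat_lit 57379) (nat_lit 3) (.e (nat_lit 98366) (nat_lit 27) (.e (nat_lit 434231) (nat_lit 23) (.e (nat_lit 532514) (nat_lit 3) (.e (nat_lit 114715) (nat_lit 22) (.e (nat_lit 90165) (nat_lit 12) (.e (nat_lit 171776) (nat_lit 0) .nil)))))))) (.g (nat_lit 1) (.e (nat_lit 111805) (nat_lit 0) .nil) .nil))) 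
(.lf (nat_lit 480970) (.g (nat_lit 2802) (.e (nat_lit 5949) (nat_lit 322) (.e (nat_lit 57400) (nat_lit 10) (.e (nat_lit 319490) (nat_lit 0) (.e (nat_lit 5664) (nat_lit 312) (.e (nat_lit 3085) (nat_lit 191) (.e (nat_lit 483396) (nat_lit 24) (.e (nat_lit 344103) (nat_lit 18) .nil))))))) (.g (nat_lit 1) (.e (nat_lit 112328) (nat_lit 0) .nil) .nil)))) (.nd (nat_lit 9) 
(.lf (nat_lit 480714) (.g (nat_lit 1960) (.e (nat_lit 5943) (nat_lit 322) (.e (nat_lit 57379) (nat_lit 3) (.e (nat_lit 98368) (nat_lit 27) (.e (nat_lit 434247) (nat_lit 28) (.e (nat_lit 573489) (nat_lit 14) (.e (nat_lit 73755) (nat_lit 8) (.e (nat_lit 557091) (nat_lit 12) (.e (nat_lit 163840) (nat_lit 0) .nil)))))))) (.g (nat_lit 1) (.e (nat_lit 112064) (nat_lit 0) .nil) .nil))) 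
(.lf (nat_lit 481226) (.g (nat_lit 1870) (.e (nat_lit 5293) (nat_lit 298) (.e (nat_lit 1250) (nat_lit 92) (.e (nat_lit 98349) (nat_lit 24) (.e (nat_lit 409646) (nat_lit 18) (.e (nat_lit 303119) (nat_lit 3) .nil))))) (.g (nat_lit 0) (.e (nat_lit 112784) (nat_lit 0) .nil) .nil))))))) (.nd (nat_lit 6) (.nd (nat_lit 7) (.nd (nat_lit 8) (.nd (nat_lit 9) 
(.lf (nat_lit 480298) (.g (nat_lit 2654) (.e (nat_lit 5937) (nat_lit 322) (.e (nat_lit 57375) (nat_lit 2) (.e (nat_lit 90174) (nat_lit 14) (.e (nat_lit 180252) (nat_lit 10) (.e (nat_lit 573489) (nat_lit 14) (.e (nat_lit 73755) (nat_lit 8) (.e (nat_lit 557090) (nat_lit 12) (.e (nat_lit 171776) (nat_lit 0) .nil)))))))) (.g (nat_lit 1) (.e (nat_lit 111630) (nat_lit 0) .nil) .nil))) 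
(.lf (nat_lit 480810) (.g (nat_lit 2577) (.e (nat_lit 5946) (nat_lit 322) (.e (nat_lit 57409) (nat_lit 12) (.e (nat_lit 336443) (nat_lit 32) (.e (nat_lit 466977) (nat_lit 22) (.e (nat_lit 196656) (nat_lit 11) .nil))))) (.g (nat_lit 0) (.e (nat_lit 112160) (nat_lit 0) .nil) .nil)))) (.nd (nat_lit 9) 
(.lf (nat_lit 480554) (.g (nat_lit 2673) (.e (nat_lit 5940) (nat_lit 322) (.e (nat_lit 57375) (nat_lit 2) (.e (nat_lit 90174) (nat_lit 14) (.e (nat_lit 180251) (nat_lit 10) (.e (nat_lit 573489) (nat_lit 14) (.e (nat_lit 73755) (nat_lit 8) (.e (nat_lit 557091) (nat_lit 12) (.e (nat_lit 163840) (nat_lit 0) .nil)))))))) (.g (nat_lit 1) (.e (nat_lit 111901) (nat_lit 0) .nil) .nil))) 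
(.lf (nat_lit 481066) (.g (nat_lit 1926) (.e (nat_lit 5953) (nat_lit 322) (.e (nat_lit 57371) (nat_lit 2) (.e (nat_lit 90174) (nat_lit 14) (.e (nat_lit 180251) (nat_lit 10) (.e (nat_lit 573489) (nat_lit 14) (.e (nat_lit 73755) (nat_lit 8) (.e (nat_lit 557091) (nat_lit 12) (.e (nat_lit 171776) (nat_lit 0) .nil)))))))) (.g (nat_lit 1) (.e (nat_lit 112448) (nat_lit 0) .nil) .nil))))) 
(.nd (nat_lit 8) (.nd (nat_lit 9) 
(.lf (nat_lit 480426) (.g (nat_lit 3431) (.e (nat_lit 5939) (nat_lit 322) (.e (nat_lit 57375) (nat_lit 2) (.e (nat_lit 90174) (nat_lit 14) (.e (nat_lit 180243) (nat_lit 5) (.e (nat_lit 532515) (nat_lit 3) (.e (nat_lit 114716) (nat_lit 22) (.e (nat_lit 90181) (nat_lit 16) (.e (nat_lit 229378) (nat_lit 0) .nil)))))))) (.g (nat_lit 1) (.e (nat_lit 111772) (nat_lit 0) .nil) .nil))) 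
(.lf (nat_lit 480938) (.g (nat_lit 2021) (.e (nat_lit 5949) (nat_lit 322) (.e (nat_lit 57373) (nat_lit 2) (.e (nat_lit 90174) (nat_lit 14) (.e (nat_lit 180243) (nat_lit 5) (.e (nat_lit 532513) (nat_lit 3) (.e (nat_lit 114715) (nat_lit 22) (.e (nat_lit 90165) (nat_lit 12) (.e (nat_lit 163857) (nat_lit 0) .nil)))))))) (.g (nat_lit 1) (.e (nat_lit 112294) (nat_lit 0) .nil) .nil)))) (.nd (nat_lit 9) 
(.lf (nat_lit 480682) (.g (nat_lit 3708) (.e (nat_lit 5943) (nat_lit 322) (.e (nat_lit 57375) (nat_lit 2) (.e (nat_lit 90174) (nat_lit 14) (.e (nat_lit 180251) (nat_lit 10) (.e (nat_lit 573489) (nat_lit 14) (.e (nat_lit 73755) (nat_lit 8) (.e (nat_lit 557089) (nat_lit 12) (.e (nat_lit 163844) (nat_lit 0) .nil)))))))) (.g (nat_lit 1) (.e (nat_lit 112031) (nat_lit 0) .nil) .nil))) 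
(.lf (nat_lit 481194) (.g (nat_lit 4408) (.e (nat_lit 5270) (nat_lit 298) (.e (nat_lit 1239) (nat_lit 91) (.e (nat_lit 90170) (nat_lit 13) (.e (nat_lit 172113) (nat_lit 10) (.e (nat_lit 434248) (nat_lit 28) (.e (nat_lit 573452) (nat_lit 9) (.e (nat_lit 7936) (nat_lit 30) (.e (nat_lit 409604) (nat_lit 0) .nil)))))))) (.g (nat_lit 1) (.e (nat_lit 112616) (nat_lit 0) .nil) .nil)))))) 
(.nd (nat_lit 7) (.nd (nat_lit 8) (.nd (nat_lit 9) 
(.lf (nat_lit 480362) (.g (nat_lit 2249) (.e (nat_lit 5937) (nat_lit 322) (.e (nat_lit 57435) (nat_lit 17) (.e (nat_lit 376835) (nat_lit 0) (.e (nat_lit 3746) (nat_lit 228) (.e (nat_lit 786483) (nat_lit 30) (.e (nat_lit 368384) (nat_lit 0) .nil)))))) (.g (nat_lit 1) (.e (nat_lit 111707) (nat_lit 0) .nil) .nil))) 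
(.lf (nat_lit 480874) (.g (nat_lit 754) (.e (nat_lit 5948) (nat_lit 322) (.e (nat_lit 57377) (nat_lit 3) (.e (nat_lit 98355) (nat_lit 26) .nil))) (.g (nat_lit 0) (.e (nat_lit 112228) (nat_lit 0) .nil) .nil)))) (.nd (nat_lit 9) 
(.lf (nat_lit 480618) (.g (nat_lit 2341) (.e (nat_lit 5942) (nat_lit 322) (.e (nat_lit 57378) (nat_lit 3) (.e (nat_lit 98368) (nat_lit 27) (.e (nat_lit 434245) (nat_lit 28) (.e (nat_lit 573488) (nat_lit 14) (.e (nat_lit 73755) (nat_lit 8) (.e (nat_lit 557090) (nat_lit 12) (.e (nat_lit 163844) (nat_lit 0) .nil)))))))) (.g (nat_lit 1) (.e (nat_lit 111967) (nat_lit 0) .nil) .nil))) 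
(.lf (nat_lit 481130) (.g (nat_lit 2814) (.e (nat_lit 5954) (nat_lit 322) (.e (nat_lit 57409) (nat_lit 12) (.e (nat_lit 336443) (nat_lit 32) (.e (nat_lit 466974) (nat_lit 22) (.e (nat_lit 196654) (nat_lit 11) .nil))))) (.g (nat_lit 0) (.e (nat_lit 112516) (nat_lit 0) .nil) .nil))))) (.nd (nat_lit 8) (.nd (nat_lit 9) 
(.lf (nat_lit 480490) (.g (nat_lit 2346) (.e (nat_lit 5939) (nat_lit 322) (.e (nat_lit 57379) (nat_lit 3) (.e (nat_lit 98367) (nat_lit 27) (.e (nat_lit 434242) (nat_lit 28) (.e (nat_lit 573488) (nat_lit 14) (.e (nat_lit 73755) (nat_lit 8) (.e (nat_lit 557090) (nat_lit 12) (.e (nat_lit 163850) (nat_lit 0) .nil)))))))) (.g (nat_lit 1) (.e (nat_lit 111837) (nat_lit 0) .nil) .nil))) 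
(.lf (nat_lit 481002) (.g (nat_lit 1095) (.e (nat_lit 5949) (nat_lit 322) (.e (nat_lit 57423) (nat_lit 14) (.e (nat_lit 352262) (nat_lit 0) (.e (nat_lit 3747) (nat_lit 228) .nil)))) (.g (nat_lit 0) (.e (nat_lit 112377) (nat_lit 0) .nil) .nil)))) (.nd (nat_lit 9) 
(.lf (nat_lit 480746) (.g (nat_lit 2976) (.e (nat_lit 5945) (nat_lit 322) (.e (nat_lit 57371) (nat_lit 2) (.e (nat_lit 90173) (nat_lit 14) (.e (nat_lit 180252) (nat_lit 10) (.e (nat_lit 573489) (nat_lit 14) (.e (nat_lit 73755) (nat_lit 8) (.e (nat_lit 557090) (nat_lit 12) (.e (nat_lit 163841) (nat_lit 0) .nil)))))))) (.g (nat_lit 1) (.e (nat_lit 112096) (nat_lit 0) .nil) .nil))) 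
(.lf (nat_lit 481258) (.g (nat_lit 522) (.e (nat_lit 5376) (nat_lit 299) (.e (nat_lit 8234) (nat_lit 20) (.e (nat_lit 573491) (nat_lit 15) .nil))) (.g (nat_lit 0) (.e (nat_lit 112847) (nat_lit 0) .nil) .nil)))))))) (.nd (nat_lit 5) (.nd (nat_lit 6) (.nd (nat_lit 7) (.nd (nat_lit 8) (.nd (nat_lit 9) 
(.lf (nat_lit 480282) (.g (nat_lit 2772) (.e (nat_lit 5937) (nat_lit 322) (.e (nat_lit 57373) (nat_lit 2) (.e (nat_lit 90174) (nat_lit 14) (.e (nat_lit 180251) (nat_lit 10) (.e (nat_lit 573489) (nat_lit 14) .nil))))) (.g (nat_lit 0) (.e (nat_lit 111614) (nat_lit 0) .nil) .nil))) 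
(.lf (nat_lit 480794) (.g (nat_lit 3059) (.e (nat_lit 5946) (nat_lit 322) (.e (nat_lit 57373) (nat_lit 2) (.e (nat_lit 90174) (nat_lit 14) (.e (nat_lit 180252) (nat_lit 10) (.e (nat_lit 573489) (nat_lit 14) .nil))))) (.g (nat_lit 0) (.e (nat_lit 112144) (nat_lit 0) .nil) .nil)))) (.nd (nat_lit 9) 
(.lf (nat_lit 480538) (.g (nat_lit 2404) (.e (nat_lit 5940) (nat_lit 322) (.e (nat_lit 57374) (nat_lit 2) (.e (nat_lit 90174) (nat_lit 14) (.e (nat_lit 180251) (nat_lit 10) (.e (nat_lit 573489) (nat_lit 14) (.e (nat_lit 73755) (nat_lit 8) (.e (nat_lit 557091) (nat_lit 12) (.e (nat_lit 163845) (nat_lit 0) .nil)))))))) (.g (nat_lit 1) (.e (nat_lit 111885) (nat_lit 0) .nil) .nil))) 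
(.lf (nat_lit 481050) (.g (nat_lit 3053) (.e (nat_lit 5951) (nat_lit 322) (.e (nat_lit 57377) (nat_lit 3) (.e (nat_lit 98365) (nat_lit 26) (.e (nat_lit 426188) (nat_lit 9) (.e (nat_lit 426479) (nat_lit 27) (.e (nat_lit 336421) (nat_lit 28) (.e (nat_lit 434212) (nat_lit 18) .nil))))))) (.g (nat_lit 1) (.e (nat_lit 112432) (nat_lit 0) .nil) .nil))))) (.nd (nat_lit 8) (.nd (nat_lit 9) 
(.lf (nat_lit 480410) (.g (nat_lit 3388) (.e (nat_lit 5939) (nat_lit 322) (.e (nat_lit 57373) (nat_lit 2) (.e (nat_lit 90174) (nat_lit 14) (.e (nat_lit 180250) (nat_lit 10) (.e (nat_lit 573489) (nat_lit 14) (.e (nat_lit 73755) (nat_lit 8) (.e (nat_lit 557090) (nat_lit 12) (.e (nat_lit 163850) (nat_lit 0) .nil)))))))) (.g (nat_lit 1) (.e (nat_lit 111756) (nat_lit 0) .nil) .nil))) 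
(.lf (nat_lit 480922) (.g (nat_lit 2820) (.e (nat_lit 5949) (nat_lit 322) (.e (nat_lit 57371) (nat_lit 2) (.e (nat_lit 90174) (nat_lit 14) (.e (nat_lit 180250) (nat_lit 10) (.e (nat_lit 573489) (nat_lit 14) (.e (nat_lit 73754) (nat_lit 8) (.e (nat_lit 557094) (nat_lit 12) (.e (nat_lit 163856) (nat_lit 0) .nil)))))))) (.g (nat_lit 1) (.e (nat_lit 112278) (nat_lit 0) .nil) .nil)))) (.nd (nat_lit 9) 
(.lf (nat_lit 480666) (.g (nat_lit 2428) (.e (nat_lit 5943) (nat_lit 322) (.e (nat_lit 57375) (nat_lit 2) (.e (nat_lit 90172) (nat_lit 14) (.e (nat_lit 180250) (nat_lit 10) (.e (nat_lit 573487) (nat_lit 14) (.e (nat_lit 73753) (nat_lit 8) (.e (nat_lit 557091) (nat_lit 12) (.e (nat_lit 163845) (nat_lit 0) .nil)))))))) (.g (nat_lit 1) (.e (nat_lit 112015) (nat_lit 0) .nil) .nil))) 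
(.lf (nat_lit 481178) (.g (nat_lit 2447) (.e (nat_lit 5270) (nat_lit 298) (.e (nat_lit 1239) (nat_lit 91) (.e (nat_lit 90170) (nat_lit 13) (.e (nat_lit 172113) (nat_lit 10) (.e (nat_lit 434247) (nat_lit 28) (.e (nat_lit 573455) (nat_lit 9) (.e (nat_lit 359) (nat_lit 30) (.e (nat_lit 409604) (nat_lit 0) .nil)))))))) (.g (nat_lit 1) (.e (nat_lit 112600) (nat_lit 0) .nil) .nil)))))) 
(.nd (nat_lit 7) (.nd (nat_lit 8) (.nd (nat_lit 9) 
(.lf (nat_lit 480346) (.g (nat_lit 1958) (.e (nat_lit 5937) (nat_lit 322) (.e (nat_lit 57379) (nat_lit 3) (.e (nat_lit 98367) (nat_lit 27) (.e (nat_lit 434234) (nat_lit 23) .nil)))) (.g (nat_lit 0) (.e (nat_lit 111682) (nat_lit 0) .nil) .nil))) 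
(.lf (nat_lit 480858) (.g (nat_lit 2568) (.e (nat_lit 5948) (nat_lit 322) (.e (nat_lit 57371) (nat_lit 2) (.e (nat_lit 90174) (nat_lit 14) (.e (nat_lit 180250) (nat_lit 10) (.e (nat_lit 573489) (nat_lit 14) (.e (nat_lit 73754) (nat_lit 8) (.e (nat_lit 557094) (nat_lit 12) (.e (nat_lit 163856) (nat_lit 0) .nil)))))))) (.g (nat_lit 1) (.e (nat_lit 112212) (nat_lit 0) .nil) .nil)))) (.nd (nat_lit 9) 
(.lf (nat_lit 480602) (.g (nat_lit 4103) (.e (nat_lit 5942) (nat_lit 322) (.e (nat_lit 57373) (nat_lit 2) (.e (nat_lit 90174) (nat_lit 14) (.e (nat_lit 180251) (nat_lit 10) (.e (nat_lit 573489) (nat_lit 14) (.e (nat_lit 73755) (nat_lit 8) (.e (nat_lit 557091) (nat_lit 12) (.e (nat_lit 163841) (nat_lit 0) .nil)))))))) (.g (nat_lit 1) (.e (nat_lit 111951) (nat_lit 0) .nil) .nil))) 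
(.lf (nat_lit 481114) (.g (nat_lit 3075) (.e (nat_lit 5954) (nat_lit 322) (.e (nat_lit 57371) (nat_lit 2) (.e (nat_lit 90174) (nat_lit 14) (.e (nat_lit 180251) (nat_lit 10) (.e (nat_lit 573489) (nat_lit 14) (.e (nat_lit 73755) (nat_lit 8) (.e (nat_lit 557091) (nat_lit 12) (.e (nat_lit 163840) (nat_lit 0) .nil)))))))) (.g (nat_lit 1) (.e (nat_lit 112500) (nat_lit 0) .nil) .nil))))) 
(.nd (nat_lit 8) (.nd (nat_lit 9) 
(.lf (nat_lit 480474) (.g (nat_lit 2279) (.e (nat_lit 5939) (nat_lit 322) (.e (nat_lit 57379) (nat_lit 3) (.e (nat_lit 98366) (nat_lit 27) (.e (nat_lit 434248) (nat_lit 28) (.e (nat_lit 573487) (nat_lit 14) (.e (nat_lit 73753) (nat_lit 8) (.e (nat_lit 557090) (nat_lit 12) (.e (nat_lit 163851) (nat_lit 0) .nil)))))))) (.g (nat_lit 1) (.e (nat_lit 111821) (nat_lit 0) .nil) .nil))) 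
(.lf (nat_lit 480986) (.g (nat_lit 2423) (.e (nat_lit 5949) (nat_lit 322) (.e (nat_lit 57409) (nat_lit 12) (.e (nat_lit 336443) (nat_lit 32) (.e (nat_lit 466977) (nat_lit 22) (.e (nat_lit 196654) (nat_lit 11) (.e (nat_lit 16388) (nat_lit 0) (.e (nat_lit 2504) (nat_lit 157) .nil))))))) (.g (nat_lit 1) (.e (nat_lit 112353) (nat_lit 0) .nil) .nil)))) (.nd (nat_lit 9) 
(.lf (nat_lit 480730) (.g (nat_lit 1335) (.e (nat_lit 5944) (nat_lit 322) (.e (nat_lit 57377) (nat_lit 3) (.e (nat_lit 98365) (nat_lit 26) (.e (nat_lit 426187) (nat_lit 9) .nil)))) (.g (nat_lit 0) (.e (nat_lit 112080) (nat_lit 0) .nil) .nil))) 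
(.lf (nat_lit 481242) (.g (nat_lit 1291) (.e (nat_lit 5293) (nat_lit 298) (.e (nat_lit 1633) (nat_lit 114) (.e (nat_lit 385107) (nat_lit 51) (.e (nat_lit 794676) (nat_lit 24) (.e (nat_lit 213030) (nat_lit 11) .nil))))) (.g (nat_lit 0) (.e (nat_lit 112809) (nat_lit 0) .nil) .nil))))))) (.nd (nat_lit 6) (.nd (nat_lit 7) (.nd (nat_lit 8) (.nd (nat_lit 9) 
(.lf (nat_lit 480314) (.g (nat_lit 1948) (.e (nat_lit 5937) (nat_lit 322) (.e (nat_lit 57378) (nat_lit 3) (.e (nat_lit 98365) (nat_lit 26) (.e (nat_lit 426327) (nat_lit 13) .nil)))) (.g (nat_lit 0) (.e (nat_lit 111650) (nat_lit 0) .nil) .nil))) 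
(.lf (nat_lit 480826) (.g (nat_lit 4222) (.e (nat_lit 5947) (nat_lit 322) (.e (nat_lit 57371) (nat_lit 2) (.e (nat_lit 90174) (nat_lit 14) (.e (nat_lit 180251) (nat_lit 10) (.e (nat_lit 573489) (nat_lit 14) (.e (nat_lit 73754) (nat_lit 8) (.e (nat_lit 557093) (nat_lit 12) (.e (nat_lit 163857) (nat_lit 0) .nil)))))))) (.g (nat_lit 1) (.e (nat_lit 112179) (nat_lit 0) .nil) .nil)))) (.nd (nat_lit 9) 
(.lf (nat_lit 480570) (.g (nat_lit 4109) (.e (nat_lit 5941) (nat_lit 322) (.e (nat_lit 57372) (nat_lit 2) (.e (nat_lit 90173) (nat_lit 14) (.e (nat_lit 180252) (nat_lit 10) (.e (nat_lit 573489) (nat_lit 14) (.e (nat_lit 73755) (nat_lit 8) (.e (nat_lit 557090) (nat_lit 12) (.e (nat_lit 163843) (nat_lit 0) .nil)))))))) (.g (nat_lit 1) (.e (nat_lit 111917) (nat_lit 0) .nil) .nil))) 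
(.lf (nat_lit 481082) (.g (nat_lit 3534) (.e (nat_lit 5953) (nat_lit 322) (.e (nat_lit 57373) (nat_lit 2) (.e (nat_lit 90174) (nat_lit 14) (.e (nat_lit 180251) (nat_lit 10) (.e (nat_lit 573489) (nat_lit 14) (.e (nat_lit 73754) (nat_lit 8) (.e (nat_lit 557094) (nat_lit 12) (.e (nat_lit 163840) (nat_lit 0) .nil)))))))) (.g (nat_lit 1) (.e (nat_lit 112464) (nat_lit 0) .nil) .nil))))) 
(.nd (nat_lit 8) (.nd (nat_lit 9) 
(.lf (nat_lit 480442) (.g (nat_lit 1900) (.e (nat_lit 5939) (nat_lit 322) (.e (nat_lit 57379) (nat_lit 3) (.e (nat_lit 98365) (nat_lit 26) (.e (nat_lit 426325) (nat_lit 13) (.e (nat_lit 491264) (nat_lit 13) (.e (nat_lit 458773) (nat_lit 18) .nil)))))) (.g (nat_lit 1) (.e (nat_lit 111789) (nat_lit 0) .nil) .nil))) 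
(.lf (nat_lit 480954) (.g (nat_lit 2272) (.e (nat_lit 5949) (nat_lit 322) (.e (nat_lit 57378) (nat_lit 3) (.e (nat_lit 98365) (nat_lit 26) (.e (nat_lit 426326) (nat_lit 13) (.e (nat_lit 491264) (nat_lit 10) (.e (nat_lit 434216) (nat_lit 18) .nil)))))) (.g (nat_lit 1) (.e (nat_lit 112310) (nat_lit 0) .nil) .nil)))) (.nd (nat_lit 9) 
(.lf (nat_lit 480698) (.g (nat_lit 3277) (.e (nat_lit 5943) (nat_lit 322) (.e (nat_lit 57379) (nat_lit 3) (.e (nat_lit 98366) (nat_lit 27) (.e (nat_lit 434247) (nat_lit 28) (.e (nat_lit 573489) (nat_lit 14) (.e (nat_lit 73755) (nat_lit 8) (.e (nat_lit 557091) (nat_lit 12) (.e (nat_lit 163841) (nat_lit 0) .nil)))))))) (.g (nat_lit 1) (.e (nat_lit 112048) (nat_lit 0) .nil) .nil))) 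
(.lf (nat_lit 481210) (.g (nat_lit 1079) (.e (nat_lit 5259) (nat_lit 298) (.e (nat_lit 496) (nat_lit 39) (.e (nat_lit 483365) (nat_lit 18) (.e (nat_lit 57852) (nat_lit 252) .nil)))) (.g (nat_lit 0) (.e (nat_lit 112694) (nat_lit 0) .nil) .nil)))))) (.nd (nat_lit 7) (.nd (nat_lit 8) (.nd (nat_lit 9) 
(.lf (nat_lit 480378) (.g (nat_lit 3360) (.e (nat_lit 5938) (nat_lit 322) (.e (nat_lit 57372) (nat_lit 2) (.e (nat_lit 90174) (nat_lit 14) (.e (nat_lit 180251) (nat_lit 10) (.e (nat_lit 573489) (nat_lit 14) (.e (nat_lit 73755) (nat_lit 8) (.e (nat_lit 557091) (nat_lit 12) (.e (nat_lit 163840) (nat_lit 0) .nil)))))))) (.g (nat_lit 1) (.e (nat_lit 111724) (nat_lit 0) .nil) .nil))) 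
(.lf (nat_lit 480890) (.g (nat_lit 1912) (.e (nat_lit 5948) (nat_lit 322) (.e (nat_lit 57417) (nat_lit 12) (.e (nat_lit 336206) (nat_lit 12) (.e (nat_lit 385102) (nat_lit 50) (.e (nat_lit 786483) (nat_lit 30) (.e (nat_lit 360457) (nat_lit 0) .nil)))))) (.g (nat_lit 1) (.e (nat_lit 112245) (nat_lit 0) .nil) .nil)))) (.nd (nat_lit 9) 
(.lf (nat_lit 480634) (.g (nat_lit 2539) (.e (nat_lit 5943) (nat_lit 322) (.e (nat_lit 57372) (nat_lit 2) (.e (nat_lit 90174) (nat_lit 14) (.e (nat_lit 180250) (nat_lit 10) (.e (nat_lit 573487) (nat_lit 14) .nil))))) (.g (nat_lit 0) (.e (nat_lit 111983) (nat_lit 0) .nil) .nil))) 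
(.lf (nat_lit 481146) (.g (nat_lit 2055) (.e (nat_lit 5245) (nat_lit 298) (.e (nat_lit 1256) (nat_lit 92) (.e (nat_lit 98350) (nat_lit 24) (.e (nat_lit 409646) (nat_lit 18) (.e (nat_lit 303119) (nat_lit 3) .nil))))) (.g (nat_lit 0) (.e (nat_lit 112548) (nat_lit 0) .nil) .nil))))) (.nd (nat_lit 8) (.nd (nat_lit 9) 
(.lf (nat_lit 480506) (.g (nat_lit 2667) (.e (nat_lit 5940) (nat_lit 322) (.e (nat_lit 57371) (nat_lit 2) (.e (nat_lit 90172) (nat_lit 14) (.e (nat_lit 180250) (nat_lit 10) (.e (nat_lit 573487) (nat_lit 14) .nil))))) (.g (nat_lit 0) (.e (nat_lit 111853) (nat_lit 0) .nil) .nil))) 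
(.lf (nat_lit 481018) (.g (nat_lit 3695) (.e (nat_lit 5950) (nat_lit 322) (.e (nat_lit 57371) (nat_lit 2) (.e (nat_lit 90174) (nat_lit 14) (.e (nat_lit 180243) (nat_lit 5) (.e (nat_lit 532513) (nat_lit 3) (.e (nat_lit 114714) (nat_lit 22) (.e (nat_lit 90165) (nat_lit 12) (.e (nat_lit 163853) (nat_lit 0) .nil)))))))) (.g (nat_lit 1) (.e (nat_lit 112400) (nat_lit 0) .nil) .nil)))) (.nd (nat_lit 9) 
(.lf (nat_lit 480762) (.g (nat_lit 3639) (.e (nat_lit 5945) (nat_lit 322) (.e (nat_lit 57373) (nat_lit 2) (.e (nat_lit 90174) (nat_lit 14) (.e (nat_lit 180251) (nat_lit 10) (.e (nat_lit 573489) (nat_lit 14) (.e (nat_lit 73755) (nat_lit 8) (.e (nat_lit 557091) (nat_lit 12) (.e (nat_lit 163841) (nat_lit 0) .nil)))))))) (.g (nat_lit 1) (.e (nat_lit 112112) (nat_lit 0) .nil) .nil))) 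
(.lf (nat_lit 481274) (.g (nat_lit 2935) (.e (nat_lit 5389) (nat_lit 301) (.e (nat_lit 57464) (nat_lit 23) (.e (nat_lit 516151) (nat_lit 9) (.e (nat_lit 426211) (nat_lit 9) (.e (nat_lit 426125) (nat_lit 2) .nil))))) (.g (nat_lit 0) (.e (nat_lit 112889) (nat_lit 0) .nil) .nil)))))))))) 
(.nd (nat_lit 3) (.nd (nat_lit 4) (.nd (nat_lit 5) (.nd (nat_lit 6) (.nd (nat_lit 7) 
(.nd (nat_lit 8) (.nd (nat_lit 9) 
(.lf (nat_lit 480262) (.g (nat_lit 3869) (.e (nat_lit 5937) (nat_lit 322) (.e (nat_lit 57371) (nat_lit 2) (.e (nat_lit 90174) (nat_lit 14) (.e (nat_lit 180251) (nat_lit 10) (.e (nat_lit 573489) (nat_lit 14) (.e (nat_lit 73755) (nat_lit 8) (.e (nat_lit 557091) (nat_lit 12) (.e (nat_lit 171776) (nat_lit 0) .nil)))))))) (.g (nat_lit 1) (.e (nat_lit 111594) (nat_lit 0) .nil) .nil))) 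
(.lf (nat_lit 480774) (.g (nat_lit 2719) (.e (nat_lit 5946) (nat_lit 322) (.e (nat_lit 57371) (nat_lit 2) (.e (nat_lit 90174) (nat_lit 14) (.e (nat_lit 180251) (nat_lit 10) (.e (nat_lit 573489) (nat_lit 14) (.e (nat_lit 73754) (nat_lit 8) (.e (nat_lit 557094) (nat_lit 12) (.e (nat_lit 163856) (nat_lit 0) .nil)))))))) (.g (nat_lit 1) (.e (nat_lit 112124) (nat_lit 0) .nil) .nil)))) (.nd (nat_lit 9) 
(.lf (nat_lit 480518) (.g (nat_lit 4532) (.e (nat_lit 5940) (nat_lit 322) (.e (nat_lit 57371) (nat_lit 2) (.e (nat_lit 90174) (nat_lit 14) (.e (nat_lit 180252) (nat_lit 10) (.e (nat_lit 573489) (nat_lit 14) (.e (nat_lit 73755) (nat_lit 8) (.e (nat_lit 557090) (nat_lit 12) (.e (nat_lit 163843) (nat_lit 0) .nil)))))))) (.g (nat_lit 1) (.e (nat_lit 111865) (nat_lit 0) .nil) .nil))) 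
(.lf (nat_lit 481030) (.g (nat_lit 2374) (.e (nat_lit 5950) (nat_lit 322) (.e (nat_lit 57377) (nat_lit 3) (.e (nat_lit 98365) (nat_lit 26) (.e (nat_lit 426188) (nat_lit 9) (.e (nat_lit 426479) (nat_lit 27) (.e (nat_lit 336421) (nat_lit 28) (.e (nat_lit 434212) (nat_lit 18) .nil))))))) (.g (nat_lit 1) (.e (nat_lit 112412) (nat_lit 0) .nil) .nil))))) (.nd (nat_lit 8) (.nd (nat_lit 9) 
(.lf (nat_lit 480390) (.g (nat_lit 3153) (.e (nat_lit 5939) (nat_lit 322) (.e (nat_lit 57372) (nat_lit 2) (.e (nat_lit 90174) (nat_lit 14) (.e (nat_lit 180243) (nat_lit 5) (.e (nat_lit 532513) (nat_lit 3) (.e (nat_lit 114714) (nat_lit 22) (.e (nat_lit 90165) (nat_lit 12) (.e (nat_lit 171776) (nat_lit 0) .nil)))))))) (.g (nat_lit 1) (.e (nat_lit 111736) (nat_lit 0) .nil) .nil))) 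
(.lf (nat_lit 480902) (.g (nat_lit 609) (.e (nat_lit 5948) (nat_lit 322) (.e (nat_lit 57423) (nat_lit 14) (.e (nat_lit 352262) (nat_lit 0) .nil))) (.g (nat_lit 0) (.e (nat_lit 112257) (nat_lit 0) .nil) .nil)))) (.nd (nat_lit 9) 
(.lf (nat_lit 480646) (.g (nat_lit 4089) (.e (nat_lit 5943) (nat_lit 322) (.e (nat_lit 57372) (nat_lit 2) (.e (nat_lit 90174) (nat_lit 14) (.e (nat_lit 180251) (nat_lit 10) (.e (nat_lit 573489) (nat_lit 14) (.e (nat_lit 73755) (nat_lit 8) (.e (nat_lit 557091) (nat_lit 12) (.e (nat_lit 163841) (nat_lit 0) .nil)))))))) (.g (nat_lit 1) (.e (nat_lit 111995) (nat_lit 0) .nil) .nil))) 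
(.lf (nat_lit 481158) (.g (nat_lit 3017) (.e (nat_lit 5270) (nat_lit 298) (.e (nat_lit 1239) (nat_lit 91) (.e (nat_lit 90170) (nat_lit 13) (.e (nat_lit 172106) (nat_lit 10) (.e (nat_lit 434244) (nat_lit 28) (.e (nat_lit 573450) (nat_lit 9) (.e (nat_lit 362) (nat_lit 30) (.e (nat_lit 409605) (nat_lit 0) .nil)))))))) (.g (nat_lit 1) (.e (nat_lit 112580) (nat_lit 0) .nil) .nil)))))) 
(.nd (nat_lit 7) (.nd (nat_lit 8) (.nd (nat_lit 9) 
(.lf (nat_lit 480326) (.g (nat_lit 3562) (.e (nat_lit 5937) (nat_lit 322) (.e (nat_lit 57378) (nat_lit 3) (.e (nat_lit 98368) (nat_lit 27) (.e (nat_lit 434247) (nat_lit 28) (.e (nat_lit 573489) (nat_lit 14) (.e (nat_lit 73755) (nat_lit 8) (.e (nat_lit 557091) (nat_lit 12) (.e (nat_lit 163840) (nat_lit 0) .nil)))))))) (.g (nat_lit 1) (.e (nat_lit 111662) (nat_lit 0) .nil) .nil))) 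
(.lf (nat_lit 480838) (.g (nat_lit 2210) (.e (nat_lit 5947) (nat_lit 322) (.e (nat_lit 57378) (nat_lit 3) (.e (nat_lit 98365) (nat_lit 26) (.e (nat_lit 426326) (nat_lit 13) .nil)))) (.g (nat_lit 0) (.e (nat_lit 112191) (nat_lit 0) .nil) .nil)))) (.nd (nat_lit 9) 
(.lf (nat_lit 480582) (.g (nat_lit 4215) (.e (nat_lit 5941) (nat_lit 322) (.e (nat_lit 57373) (nat_lit 2) (.e (nat_lit 90174) (nat_lit 14) (.e (nat_lit 180251) (nat_lit 10) (.e (nat_lit 573489) (nat_lit 14) (.e (nat_lit 73755) (nat_lit 8) (.e (nat_lit 557091) (nat_lit 12) (.e (nat_lit 163841) (nat_lit 0) .nil)))))))) (.g (nat_lit 1) (.e (nat_lit 111929) (nat_lit 0) .nil) .nil))) 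
(.lf (nat_lit 481094) (.g (nat_lit 2311) (.e (nat_lit 5953) (nat_lit 322) (.e (nat_lit 57378) (nat_lit 3) (.e (nat_lit 98365) (nat_lit 26) (.e (nat_lit 426325) (nat_lit 13) (.e (nat_lit 491264) (nat_lit 10) .nil))))) (.g (nat_lit 0) (.e (nat_lit 112476) (nat_lit 0) .nil) .nil))))) (.nd (nat_lit 8) (.nd (nat_lit 9) 
(.lf (nat_lit 480454) (.g (nat_lit 2152) (.e (nat_lit 5939) (nat_lit 322) (.e (nat_lit 57379) (nat_lit 3) (.e (nat_lit 98366) (nat_lit 27) (.e (nat_lit 434231) (nat_lit 23) (.e (nat_lit 532507) (nat_lit 2) (.e (nat_lit 106517) (nat_lit 9) (.e (nat_lit 1255) (nat_lit 92) (.e (nat_lit 98322) (nat_lit 17) (.e (nat_lit 2473) (nat_lit 157) .nil))))))))) (.g (nat_lit 1) (.e (nat_lit 111801) (nat_lit 0) .nil) .nil))) 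
(.lf (nat_lit 480966) (.g (nat_lit 2423) (.e (nat_lit 5949) (nat_lit 322) (.e (nat_lit 57378) (nat_lit 3) (.e (nat_lit 98368) (nat_lit 27) (.e (nat_lit 434247) (nat_lit 28) (.e (nat_lit 573489) (nat_lit 14) (.e (nat_lit 73754) (nat_lit 8) (.e (nat_lit 557094) (nat_lit 12) (.e (nat_lit 163856) (nat_lit 0) .nil)))))))) (.g (nat_lit 1) (.e (nat_lit 112322) (nat_lit 0) .nil) .nil)))) (.nd (nat_lit 9) 
(.lf (nat_lit 480710) (.g (nat_lit 3464) (.e (nat_lit 5943) (nat_lit 322) (.e (nat_lit 57379) (nat_lit 3) (.e (nat_lit 98367) (nat_lit 27) (.e (nat_lit 434248) (nat_lit 28) (.e (nat_lit 573487) (nat_lit 14) (.e (nat_lit 73753) (nat_lit 8) (.e (nat_lit 557090) (nat_lit 12) (.e (nat_lit 163844) (nat_lit 0) .nil)))))))) (.g (nat_lit 1) (.e (nat_lit 112060) (nat_lit 0) .nil) .nil))) 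
(.lf (nat_lit 481222) (.g (nat_lit 2067) (.e (nat_lit 5293) (nat_lit 298) (.e (nat_lit 1232) (nat_lit 91) (.e (nat_lit 90170) (nat_lit 13) (.e (nat_lit 172113) (nat_lit 10) (.e (nat_lit 434245) (nat_lit 28) .nil))))) (.g (nat_lit 0) (.e (nat_lit 112780) (nat_lit 0) .nil) .nil))))))) (.nd (nat_lit 6) (.nd (nat_lit 7) (.nd (nat_lit 8) (.nd (nat_lit 9) 
(.lf (nat_lit 480294) (.g (nat_lit 2695) (.e (nat_lit 5937) (nat_lit 322) (.e (nat_lit 57375) (nat_lit 2) (.e (nat_lit 90174) (nat_lit 14) (.e (nat_lit 180250) (nat_lit 10) (.e (nat_lit 573489) (nat_lit 14) .nil))))) (.g (nat_lit 0) (.e (nat_lit 111626) (nat_lit 0) .nil) .nil))) 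
(.lf (nat_lit 480806) (.g (nat_lit 2494) (.e (nat_lit 5946) (nat_lit 322) (.e (nat_lit 57409) (nat_lit 12) (.e (nat_lit 336443) (nat_lit 32) (.e (nat_lit 466974) (nat_lit 22) (.e (nat_lit 196654) (nat_lit 11) .nil))))) (.g (nat_lit 0) (.e (nat_lit 112156) (nat_lit 0) .nil) .nil)))) (.nd (nat_lit 9) 
(.lf (nat_lit 480550) (.g (nat_lit 2442) (.e (nat_lit 5940) (nat_lit 322) (.e (nat_lit 57375) (nat_lit 2) (.e (nat_lit 90174) (nat_lit 14) (.e (nat_lit 180251) (nat_lit 10) (.e (nat_lit 573489) (nat_lit 14) .nil))))) (.g (nat_lit 0) (.e (nat_lit 111897) (nat_lit 0) .nil) .nil))) 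
(.lf (nat_lit 481062) (.g (nat_lit 2396) (.e (nat_lit 5953) (nat_lit 322) (.e (nat_lit 57371) (nat_lit 2) (.e (nat_lit 90174) (nat_lit 14) (.e (nat_lit 180243) (nat_lit 5) (.e (nat_lit 532515) (nat_lit 3) (.e (nat_lit 114719) (nat_lit 23) (.e (nat_lit 98325) (nat_lit 17) (.e (nat_lit 2478) (nat_lit 157) .nil)))))))) (.g (nat_lit 1) (.e (nat_lit 112444) (nat_lit 0) .nil) .nil))))) 
(.nd (nat_lit 8) (.nd (nat_lit 9) 
(.lf (nat_lit 480422) (.g (nat_lit 2659) (.e (nat_lit 5939) (nat_lit 322) (.e (nat_lit 57375) (nat_lit 2) (.e (nat_lit 90174) (nat_lit 14) (.e (nat_lit 180243) (nat_lit 5) (.e (nat_lit 532515) (nat_lit 3) (.e (nat_lit 114715) (nat_lit 22) (.e (nat_lit 90165) (nat_lit 12) (.e (nat_lit 171776) (nat_lit 0) .nil)))))))) (.g (nat_lit 1) (.e (nat_lit 111768) (nat_lit 0) .nil) .nil))) 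
(.lf (nat_lit 480934) (.g (nat_lit 2037) (.e (nat_lit 5949) (nat_lit 322) (.e (nat_lit 57373) (nat_lit 2) (.e (nat_lit 90174) (nat_lit 14) (.e (nat_lit 180243) (nat_lit 5) (.e (nat_lit 532513) (nat_lit 3) (.e (nat_lit 114714) (nat_lit 22) (.e (nat_lit 90164) (nat_lit 12) (.e (nat_lit 163857) (nat_lit 0) .nil)))))))) (.g (nat_lit 1) (.e (nat_lit 112290) (nat_lit 0) .nil) .nil)))) (.nd (nat_lit 9) 
(.lf (nat_lit 480678) (.g (nat_lit 4993) (.e (nat_lit 5943) (nat_lit 322) (.e (nat_lit 57375) (nat_lit 2) (.e (nat_lit 90174) (nat_lit 14) (.e (nat_lit 180250) (nat_lit 10) (.e (nat_lit 573489) (nat_lit 14) (.e (nat_lit 73755) (nat_lit 8) (.e (nat_lit 557090) (nat_lit 12) (.e (nat_lit 163843) (nat_lit 0) .nil)))))))) (.g (nat_lit 1) (.e (nat_lit 112027) (nat_lit 0) .nil) .nil))) 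
(.lf (nat_lit 481190) (.g (nat_lit 2285) (.e (nat_lit 5270) (nat_lit 298) (.e (nat_lit 1239) (nat_lit 91) (.e (nat_lit 90170) (nat_lit 13) (.e (nat_lit 172113) (nat_lit 10) (.e (nat_lit 434248) (nat_lit 28) (.e (nat_lit 573449) (nat_lit 9) (.e (nat_lit 362) (nat_lit 30) (.e (nat_lit 409605) (nat_lit 0) .nil)))))))) (.g (nat_lit 1) (.e (nat_lit 112612) (nat_lit 0) .nil) .nil)))))) 
(.nd (nat_lit 7) (.nd (nat_lit 8) (.nd (nat_lit 9) 
(.lf (nat_lit 480358) (.g (nat_lit 2248) (.e (nat_lit 5937) (nat_lit 322) (.e (nat_lit 57411) (nat_lit 12) (.e (nat_lit 336433) (nat_lit 30) (.e (nat_lit 450588) (nat_lit 10) (.e (nat_lit 581376) (nat_lit 5) .nil))))) (.g (nat_lit 0) (.e (nat_lit 111701) (nat_lit 0) .nil) .nil))) 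
(.lf (nat_lit 480870) (.g (nat_lit 2584) (.e (nat_lit 5948) (nat_lit 322) (.e (nat_lit 57373) (nat_lit 2) (.e (nat_lit 90174) (nat_lit 14) (.e (nat_lit 180250) (nat_lit 10) (.e (nat_lit 573489) (nat_lit 14) (.e (nat_lit 73754) (nat_lit 8) (.e (nat_lit 557093) (nat_lit 12) (.e (nat_lit 163856) (nat_lit 0) .nil)))))))) (.g (nat_lit 1) (.e (nat_lit 112224) (nat_lit 0) .nil) .nil)))) (.nd (nat_lit 9) 
(.lf (nat_lit 480614) (.g (nat_lit 2621) (.e (nat_lit 5942) (nat_lit 322) (.e (nat_lit 57375) (nat_lit 2) (.e (nat_lit 90174) (nat_lit 14) (.e (nat_lit 180251) (nat_lit 10) (.e (nat_lit 573489) (nat_lit 14) .nil))))) (.g (nat_lit 0) (.e (nat_lit 111963) (nat_lit 0) .nil) .nil))) 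
(.lf (nat_lit 481126) (.g (nat_lit 4089) (.e (nat_lit 5954) (nat_lit 322) (.e (nat_lit 57373) (nat_lit 2) (.e (nat_lit 90174) (nat_lit 14) (.e (nat_lit 180251) (nat_lit 10) (.e (nat_lit 573489) (nat_lit 14) (.e (nat_lit 73755) (nat_lit 8) (.e (nat_lit 557091) (nat_lit 12) (.e (nat_lit 163845) (nat_lit 0) .nil)))))))) (.g (nat_lit 1) (.e (nat_lit 112512) (nat_lit 0) .nil) .nil))))) 
(.nd (nat_lit 8) (.nd (nat_lit 9) 
(.lf (nat_lit 480486) (.g (nat_lit 2306) (.e (nat_lit 5939) (nat_lit 322) (.e (nat_lit 57379) (nat_lit 3) (.e (nat_lit 98367) (nat_lit 27) (.e (nat_lit 434231) (nat_lit 23) (.e (nat_lit 532514) (nat_lit 3) (.e (nat_lit 114716) (nat_lit 22) (.e (nat_lit 90182) (nat_lit 16) (.e (nat_lit 229379) (nat_lit 0) .nil)))))))) (.g (nat_lit 1) (.e (nat_lit 111833) (nat_lit 0) .nil) .nil))) 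
(.lf (nat_lit 480998) (.g (nat_lit 2101) (.e (nat_lit 5949) (nat_lit 322) (.e (nat_lit 57419) (nat_lit 12) (.e (nat_lit 336203) (nat_lit 12) (.e (nat_lit 385102) (nat_lit 50) (.e (nat_lit 786481) (nat_lit 30) (.e (nat_lit 360457) (nat_lit 0) .nil)))))) (.g (nat_lit 1) (.e (nat_lit 112367) (nat_lit 0) .nil) .nil)))) (.nd (nat_lit 9) 
(.lf (nat_lit 480742) (.g (nat_lit 2149) (.e (nat_lit 5944) (nat_lit 322) (.e (nat_lit 57409) (nat_lit 12) (.e (nat_lit 336443) (nat_lit 32) (.e (nat_lit 466977) (nat_lit 22) (.e (nat_lit 196656) (nat_lit 11) .nil))))) (.g (nat_lit 0) (.e (nat_lit 112092) (nat_lit 0) .nil) .nil))) 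
(.lf (nat_lit 481254) (.g (nat_lit 1238) (.e (nat_lit 7936) (nat_lit 298) (.e (nat_lit 1256) (nat_lit 92) (.e (nat_lit 98372) (nat_lit 29) (.e (nat_lit 450579) (nat_lit 5) (.e (nat_lit 532522) (nat_lit 7) .nil))))) (.g (nat_lit 0) (.e (nat_lit 112837) (nat_lit 0) .nil) .nil)))))))) (.nd (nat_lit 5) (.nd (nat_lit 6) (.nd (nat_lit 7) (.nd (nat_lit 8) (.nd (nat_lit 9) 
(.lf (nat_lit 480278) (.g (nat_lit 2618) (.e (nat_lit 5937) (nat_lit 322) (.e (nat_lit 57373) (nat_lit 2) (.e (nat_lit 90174) (nat_lit 14) (.e (nat_lit 180250) (nat_lit 10) (.e (nat_lit 573487) (nat_lit 14) (.e (nat_lit 73753) (nat_lit 8) (.e (nat_lit 557093) (nat_lit 12) (.e (nat_lit 171776) (nat_lit 0) .nil)))))))) (.g (nat_lit 1) (.e (nat_lit 111610) (nat_lit 0) .nil) .nil))) 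
(.lf (nat_lit 480790) (.g (nat_lit 2205) (.e (nat_lit 5946) (nat_lit 322) (.e (nat_lit 57373) (nat_lit 2) (.e (nat_lit 90174) (nat_lit 14) (.e (nat_lit 180251) (nat_lit 10) .nil)))) (.g (nat_lit 0) (.e (nat_lit 112140) (nat_lit 0) .nil) .nil)))) (.nd (nat_lit 9) 
(.lf (nat_lit 480534) (.g (nat_lit 2139) (.e (nat_lit 5940) (nat_lit 322) (.e (nat_lit 57374) (nat_lit 2) (.e (nat_lit 90173) (nat_lit 14) (.e (nat_lit 180252) (nat_lit 10) (.e (nat_lit 573489) (nat_lit 14) (.e (nat_lit 73755) (nat_lit 8) (.e (nat_lit 557090) (nat_lit 12) (.e (nat_lit 163845) (nat_lit 0) .nil)))))))) (.g (nat_lit 1) (.e (nat_lit 111881) (nat_lit 0) .nil) .nil))) 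
(.lf (nat_lit 481046) (.g (nat_lit 3299) (.e (nat_lit 5951) (nat_lit 322) (.e (nat_lit 57373) (nat_lit 2) (.e (nat_lit 90174) (nat_lit 14) (.e (nat_lit 180250) (nat_lit 10) (.e (nat_lit 573487) (nat_lit 14) (.e (nat_lit 73753) (nat_lit 8) (.e (nat_lit 557090) (nat_lit 12) (.e (nat_lit 163850) (nat_lit 0) .nil)))))))) (.g (nat_lit 1) (.e (nat_lit 112428) (nat_lit 0) .nil) .nil))))) 
(.nd (nat_lit 8) (.nd (nat_lit 9) 
(.lf (nat_lit 480406) (.g (nat_lit 2470) (.e (nat_lit 5939) (nat_lit 322) (.e (nat_lit 57372) (nat_lit 2) (.e (nat_lit 90174) (nat_lit 14) (.e (nat_lit 180250) (nat_lit 10) (.e (nat_lit 573487) (nat_lit 14) (.e (nat_lit 73753) (nat_lit 8) (.e (nat_lit 557094) (nat_lit 12) (.e (nat_lit 163840) (nat_lit 0) .nil)))))))) (.g (nat_lit 1) (.e (nat_lit 111752) (nat_lit 0) .nil) .nil))) 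
(.lf (nat_lit 480918) (.g (nat_lit 2803) (.e (nat_lit 5949) (nat_lit 322) (.e (nat_lit 57371) (nat_lit 2) (.e (nat_lit 90174) (nat_lit 14) (.e (nat_lit 180250) (nat_lit 10) (.e (nat_lit 573487) (nat_lit 14) (.e (nat_lit 73753) (nat_lit 8) (.e (nat_lit 557091) (nat_lit 12) (.e (nat_lit 163856) (nat_lit 0) .nil)))))))) (.g (nat_lit 1) (.e (nat_lit 112274) (nat_lit 0) .nil) .nil)))) (.nd (nat_lit 9) 
(.lf (nat_lit 480662) (.g (nat_lit 3166) (.e (nat_lit 5943) (nat_lit 322) (.e (nat_lit 57374) (nat_lit 2) (.e (nat_lit 90174) (nat_lit 14) (.e (nat_lit 180251) (nat_lit 10) (.e (nat_lit 573489) (nat_lit 14) (.e (nat_lit 73755) (nat_lit 8) (.e (nat_lit 557091) (nat_lit 12) (.e (nat_lit 163841) (nat_lit 0) .nil)))))))) (.g (nat_lit 1) (.e (nat_lit 112011) (nat_lit 0) .nil) .nil))) 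
(.lf (nat_lit 481174) (.g (nat_lit 2633) (.e (nat_lit 5270) (nat_lit 298) (.e (nat_lit 1239) (nat_lit 91) (.e (nat_lit 90170) (nat_lit 13) (.e (nat_lit 172113) (nat_lit 10) (.e (nat_lit 434245) (nat_lit 28) (.e (nat_lit 573455) (nat_lit 9) (.e (nat_lit 359) (nat_lit 30) (.e (nat_lit 409603) (nat_lit 0) .nil)))))))) (.g (nat_lit 1) (.e (nat_lit 112596) (nat_lit 0) .nil) .nil)))))) 
(.nd (nat_lit 7) (.nd (nat_lit 8) (.nd (nat_lit 9) 
(.lf (nat_lit 480342) (.g (nat_lit 2387) (.e (nat_lit 5937) (nat_lit 322) (.e (nat_lit 57379) (nat_lit 3) (.e (nat_lit 98366) (nat_lit 27) (.e (nat_lit 434247) (nat_lit 28) (.e (nat_lit 573489) (nat_lit 14) (.e (nat_lit 73755) (nat_lit 8) (.e (nat_lit 557091) (nat_lit 12) (.e (nat_lit 163840) (nat_lit 0) .nil)))))))) (.g (nat_lit 1) (.e (nat_lit 111678) (nat_lit 0) .nil) .nil))) 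
(.lf (nat_lit 480854) (.g (nat_lit 2551) (.e (nat_lit 5948) (nat_lit 322) (.e (nat_lit 57371) (nat_lit 2) (.e (nat_lit 90174) (nat_lit 14) (.e (nat_lit 180250) (nat_lit 10) (.e (nat_lit 573487) (nat_lit 14) (.e (nat_lit 73753) (nat_lit 8) (.e (nat_lit 557091) (nat_lit 12) (.e (nat_lit 163856) (nat_lit 0) .nil)))))))) (.g (nat_lit 1) (.e (nat_lit 112208) (nat_lit 0) .nil) .nil)))) (.nd (nat_lit 9) 
(.lf (nat_lit 480598) (.g (nat_lit 2891) (.e (nat_lit 5942) (nat_lit 322) (.e (nat_lit 57373) (nat_lit 2) (.e (nat_lit 90174) (nat_lit 14) (.e (nat_lit 180251) (nat_lit 10) (.e (nat_lit 573489) (nat_lit 14) .nil))))) (.g (nat_lit 0) (.e (nat_lit 111947) (nat_lit 0) .nil) .nil))) 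
(.lf (nat_lit 481110) (.g (nat_lit 4630) (.e (nat_lit 5954) (nat_lit 322) (.e (nat_lit 57371) (nat_lit 2) (.e (nat_lit 90174) (nat_lit 14) (.e (nat_lit 180250) (nat_lit 10) (.e (nat_lit 573489) (nat_lit 14) (.e (nat_lit 73755) (nat_lit 8) (.e (nat_lit 557090) (nat_lit 12) (.e (nat_lit 163845) (nat_lit 0) .nil)))))))) (.g (nat_lit 1) (.e (nat_lit 112496) (nat_lit 0) .nil) .nil))))) 
(.nd (nat_lit 8) (.nd (nat_lit 9) 
(.lf (nat_lit 480470) (.g (nat_lit 2753) (.e (nat_lit 5939) (nat_lit 322) (.e (nat_lit 57379) (nat_lit 3) (.e (nat_lit 98366) (nat_lit 27) (.e (nat_lit 434245) (nat_lit 28) (.e (nat_lit 573488) (nat_lit 14) (.e (nat_lit 73755) (nat_lit 8) (.e (nat_lit 557111) (nat_lit 16) (.e (nat_lit 229379) (nat_lit 0) .nil)))))))) (.g (nat_lit 1) (.e (nat_lit 111817) (nat_lit 0) .nil) .nil))) 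
(.lf (nat_lit 480982) (.g (nat_lit 2304) (.e (nat_lit 5949) (nat_lit 322) (.e (nat_lit 57409) (nat_lit 12) (.e (nat_lit 336443) (nat_lit 32) (.e (nat_lit 466977) (nat_lit 22) (.e (nat_lit 196653) (nat_lit 11) (.e (nat_lit 16388) (nat_lit 0) (.e (nat_lit 2485) (nat_lit 157) .nil))))))) (.g (nat_lit 1) (.e (nat_lit 112349) (nat_lit 0) .nil) .nil)))) (.nd (nat_lit 9) 
(.lf (nat_lit 480726) (.g (nat_lit 2564) (.e (nat_lit 5944) (nat_lit 322) (.e (nat_lit 57373) (nat_lit 2) (.e (nat_lit 90174) (nat_lit 14) (.e (nat_lit 180250) (nat_lit 10) (.e (nat_lit 573487) (nat_lit 14) .nil))))) (.g (nat_lit 0) (.e (nat_lit 112076) (nat_lit 0) .nil) .nil))) 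
(.lf (nat_lit 481238) (.g (nat_lit 5282) (.e (nat_lit 5293) (nat_lit 298) (.e (nat_lit 1250) (nat_lit 92) (.e (nat_lit 98373) (nat_lit 29) (.e (nat_lit 450588) (nat_lit 10) (.e (nat_lit 573452) (nat_lit 9) (.e (nat_lit 359) (nat_lit 30) (.e (nat_lit 409602) (nat_lit 0) .nil))))))) (.g (nat_lit 1) (.e (nat_lit 112796) (nat_lit 0) .nil) .nil))))))) 
(.nd (nat_lit 6) (.nd (nat_lit 7) (.nd (nat_lit 8) (.nd (nat_lit 9) 
(.lf (nat_lit 480310) (.g (nat_lit 2464) (.e (nat_lit 5937) (nat_lit 322) (.e (nat_lit 57378) (nat_lit 3) (.e (nat_lit 98365) (nat_lit 26) (.e (nat_lit 426325) (nat_lit 13) (.e (nat_lit 483341) (nat_lit 9) .nil))))) (.g (nat_lit 0) (.e (nat_lit 111646) (nat_lit 0) .nil) .nil))) 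
(.lf (nat_lit 480822) (.g (nat_lit 3723) (.e (nat_lit 5947) (nat_lit 322) (.e (nat_lit 57371) (nat_lit 2) (.e (nat_lit 90174) (nat_lit 14) (.e (nat_lit 180243) (nat_lit 5) (.e (nat_lit 532515) (nat_lit 3) (.e (nat_lit 114715) (nat_lit 22) (.e (nat_lit 90165) (nat_lit 12) (.e (nat_lit 163857) (nat_lit 0) .nil)))))))) (.g (nat_lit 1) (.e (nat_lit 112175) (nat_lit 0) .nil) .nil)))) (.nd (nat_lit 9) 
(.lf (nat_lit 480566) (.g (nat_lit 2791) (.e (nat_lit 5941) (nat_lit 322) (.e (nat_lit 57371) (nat_lit 2) (.e (nat_lit 90174) (nat_lit 14) (.e (nat_lit 180252) (nat_lit 10) (.e (nat_lit 573489) (nat_lit 14) (.e (nat_lit 73755) (nat_lit 8) (.e (nat_lit 557090) (nat_lit 12) (.e (nat_lit 163841) (nat_lit 0) .nil)))))))) (.g (nat_lit 1) (.e (nat_lit 111913) (nat_lit 0) .nil) .nil))) 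
(.lf (nat_lit 481078) (.g (nat_lit 2231) (.e (nat_lit 5953) (nat_lit 322) (.e (nat_lit 57373) (nat_lit 2) (.e (nat_lit 90174) (nat_lit 14) (.e (nat_lit 180250) (nat_lit 10) (.e (nat_lit 573487) (nat_lit 14) (.e (nat_lit 73753) (nat_lit 8) (.e (nat_lit 557090) (nat_lit 12) (.e (nat_lit 163851) (nat_lit 0) .nil)))))))) (.g (nat_lit 1) (.e (nat_lit 112460) (nat_lit 0) .nil) .nil))))) 
(.nd (nat_lit 8) (.nd (nat_lit 9) 
(.lf (nat_lit 480438) (.g (nat_lit 2220) (.e (nat_lit 5939) (nat_lit 322) (.e (nat_lit 57379) (nat_lit 3) (.e (nat_lit 98365) (nat_lit 26) (.e (nat_lit 426325) (nat_lit 13) (.e (nat_lit 483339) (nat_lit 9) .nil))))) (.g (nat_lit 0) (.e (nat_lit 111785) (nat_lit 0) .nil) .nil))) 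
(.lf (nat_lit 480950) (.g (nat_lit 4245) (.e (nat_lit 5949) (nat_lit 322) (.e (nat_lit 57373) (nat_lit 2) (.e (nat_lit 90174) (nat_lit 14) (.e (nat_lit 180251) (nat_lit 10) (.e (nat_lit 573489) (nat_lit 14) (.e (nat_lit 73754) (nat_lit 8) (.e (nat_lit 557094) (nat_lit 12) (.e (nat_lit 163856) (nat_lit 0) .nil)))))))) (.g (nat_lit 1) (.e (nat_lit 112306) (nat_lit 0) .nil) .nil)))) (.nd (nat_lit 9) 
(.lf (nat_lit 480694) (.g (nat_lit 4134) (.e (nat_lit 5943) (nat_lit 322) (.e (nat_lit 57379) (nat_lit 3) (.e (nat_lit 98366) (nat_lit 27) (.e (nat_lit 434245) (nat_lit 28) (.e (nat_lit 573488) (nat_lit 14) (.e (nat_lit 73755) (nat_lit 8) (.e (nat_lit 557090) (nat_lit 12) (.e (nat_lit 163844) (nat_lit 0) .nil)))))))) (.g (nat_lit 1) (.e (nat_lit 112044) (nat_lit 0) .nil) .nil))) 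
(.lf (nat_lit 481206) (.g (nat_lit 1741) (.e (nat_lit 5272) (nat_lit 298) (.e (nat_lit 1538) (nat_lit 109) (.e (nat_lit 344138) (nat_lit 29) (.e (nat_lit 581653) (nat_lit 6) (.e (nat_lit 188431) (nat_lit 20) (.e (nat_lit 3571) (nat_lit 222) (.e (nat_lit 737282) (nat_lit 0) .nil))))))) (.g (nat_lit 1) (.e (nat_lit 112635) (nat_lit 0) .nil) .nil)))))) 
(.nd (nat_lit 7) (.nd (nat_lit 8) (.nd (nat_lit 9) 
(.lf (nat_lit 480374) (.g (nat_lit 2205) (.e (nat_lit 5938) (nat_lit 322) (.e (nat_lit 57372) (nat_lit 2) (.e (nat_lit 90174) (nat_lit 14) (.e (nat_lit 180243) (nat_lit 5) (.e (nat_lit 532515) (nat_lit 3) .nil))))) (.g (nat_lit 0) (.e (nat_lit 111720) (nat_lit 0) .nil) .nil))) 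
(.lf (nat_lit 480886) (.g (nat_lit 1861) (.e (nat_lit 5948) (nat_lit 322) (.e (nat_lit 57409) (nat_lit 12) (.e (nat_lit 336443) (nat_lit 32) (.e (nat_lit 466974) (nat_lit 22) .nil)))) (.g (nat_lit 0) (.e (nat_lit 112241) (nat_lit 0) .nil) .nil)))) (.nd (nat_lit 9) 
(.lf (nat_lit 480630) (.g (nat_lit 2116) (.e (nat_lit 5943) (nat_lit 322) (.e (nat_lit 57372) (nat_lit 2) (.e (nat_lit 90173) (nat_lit 14) (.e (nat_lit 180252) (nat_lit 10) (.e (nat_lit 573489) (nat_lit 14) .nil))))) (.g (nat_lit 0) (.e (nat_lit 111979) (nat_lit 0) .nil) .nil))) 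
(.lf (nat_lit 481142) (.g (nat_lit 1325) (.e (nat_lit 7936) (nat_lit 322) (.e (nat_lit 57436) (nat_lit 17) (.e (nat_lit 376835) (nat_lit 0) (.e (nat_lit 3746) (nat_lit 228) (.e (nat_lit 786483) (nat_lit 30) .nil))))) (.g (nat_lit 0) (.e (nat_lit 112537) (nat_lit 0) .nil) .nil))))) (.nd (nat_lit 8) (.nd (nat_lit 9) 
(.lf (nat_lit 480502) (.g (nat_lit 1612) (.e (nat_lit 5939) (nat_lit 322) (.e (nat_lit 57435) (nat_lit 17) (.e (nat_lit 376835) (nat_lit 0) (.e (nat_lit 3748) (nat_lit 228) (.e (nat_lit 786481) (nat_lit 30) .nil))))) (.g (nat_lit 0) (.e (nat_lit 111849) (nat_lit 0) .nil) .nil))) 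
(.lf (nat_lit 481014) (.g (nat_lit 1141) (.e (nat_lit 5949) (nat_lit 322) (.e (nat_lit 57447) (nat_lit 19) (.e (nat_lit 393249) (nat_lit 17) .nil))) (.g (nat_lit 0) (.e (nat_lit 112396) (nat_lit 0) .nil) .nil)))) (.nd (nat_lit 9) 
(.lf (nat_lit 480758) (.g (nat_lit 2874) (.e (nat_lit 5945) (nat_lit 322) (.e (nat_lit 57371) (nat_lit 2) (.e (nat_lit 90174) (nat_lit 14) (.e (nat_lit 180252) (nat_lit 10) (.e (nat_lit 573489) (nat_lit 14) (.e (nat_lit 73755) (nat_lit 8) (.e (nat_lit 557090) (nat_lit 12) (.e (nat_lit 163845) (nat_lit 0) .nil)))))))) (.g (nat_lit 1) (.e (nat_lit 112108) (nat_lit 0) .nil) .nil))) 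
(.lf (nat_lit 481270) (.g (nat_lit 2170) (.e (nat_lit 5384) (nat_lit 300) (.e (nat_lit 16470) (nat_lit 14) (.e (nat_lit 491571) (nat_lit 13) (.e (nat_lit 393238) (nat_lit 17) .nil)))) (.g (nat_lit 0) (.e (nat_lit 112876) (nat_lit 0) .nil) .nil))))))))) (.nd (nat_lit 4) (.nd (nat_lit 5) (.nd (nat_lit 6) (.nd (nat_lit 7) (.nd (nat_lit 8) (.nd (nat_lit 9) 
(.lf (nat_lit 480270) (.g (nat_lit 2890) (.e (nat_lit 5937) (nat_lit 322) (.e (nat_lit 57373) (nat_lit 2) (.e (nat_lit 90172) (nat_lit 14) (.e (nat_lit 180250) (nat_lit 10) (.e (nat_lit 573487) (nat_lit 14) .nil))))) (.g (nat_lit 0) (.e (nat_lit 111602) (nat_lit 0) .nil) .nil))) 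
(.lf (nat_lit 480782) (.g (nat_lit 2133) (.e (nat_lit 5946) (nat_lit 322) (.e (nat_lit 57373) (nat_lit 2) (.e (nat_lit 90174) (nat_lit 14) (.e (nat_lit 180243) (nat_lit 5) (.e (nat_lit 532515) (nat_lit 3) (.e (nat_lit 114716) (nat_lit 22) (.e (nat_lit 90165) (nat_lit 12) (.e (nat_lit 163857) (nat_lit 0) .nil)))))))) (.g (nat_lit 1) (.e (nat_lit 112132) (nat_lit 0) .nil) .nil)))) (.nd (nat_lit 9) 
(.lf (nat_lit 480526) (.g (nat_lit 2459) (.e (nat_lit 5940) (nat_lit 322) (.e (nat_lit 57373) (nat_lit 2) (.e (nat_lit 90174) (nat_lit 14) (.e (nat_lit 180250) (nat_lit 10) (.e (nat_lit 573489) (nat_lit 14) .nil))))) (.g (nat_lit 0) (.e (nat_lit 111873) (nat_lit 0) .nil) .nil))) 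
(.lf (nat_lit 481038) (.g (nat_lit 4356) (.e (nat_lit 5951) (nat_lit 322) (.e (nat_lit 57371) (nat_lit 2) (.e (nat_lit 90174) (nat_lit 14) (.e (nat_lit 180250) (nat_lit 10) (.e (nat_lit 573489) (nat_lit 14) (.e (nat_lit 73755) (nat_lit 8) (.e (nat_lit 557090) (nat_lit 12) (.e (nat_lit 163852) (nat_lit 0) .nil)))))))) (.g (nat_lit 1) (.e (nat_lit 112420) (nat_lit 0) .nil) .nil))))) 
(.nd (nat_lit 8) (.nd (nat_lit 9) 
(.lf (nat_lit 480398) (.g (nat_lit 3371) (.e (nat_lit 5939) (nat_lit 322) (.e (nat_lit 57372) (nat_lit 2) (.e (nat_lit 90174) (nat_lit 14) (.e (nat_lit 180243) (nat_lit 5) (.e (nat_lit 532515) (nat_lit 3) (.e (nat_lit 114716) (nat_lit 22) (.e (nat_lit 90164) (nat_lit 12) (.e (nat_lit 163850) (nat_lit 0) .nil)))))))) (.g (nat_lit 1) (.e (nat_lit 111744) (nat_lit 0) .nil) .nil))) 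
(.lf (nat_lit 480910) (.g (nat_lit 526) (.e (nat_lit 5948) (nat_lit 322) (.e (nat_lit 57436) (nat_lit 17) (.e (nat_lit 376835) (nat_lit 0) .nil))) (.g (nat_lit 0) (.e (nat_lit 112266) (nat_lit 0) .nil) .nil)))) (.nd (nat_lit 9) 
(.lf (nat_lit 480654) (.g (nat_lit 3099) (.e (nat_lit 5943) (nat_lit 322) (.e (nat_lit 57373) (nat_lit 2) (.e (nat_lit 90174) (nat_lit 14) (.e (nat_lit 180251) (nat_lit 10) (.e (nat_lit 573489) (nat_lit 14) (.e (nat_lit 73755) (nat_lit 8) (.e (nat_lit 557091) (nat_lit 12) (.e (nat_lit 163844) (nat_lit 0) .nil)))))))) (.g (nat_lit 1) (.e (nat_lit 112003) (nat_lit 0) .nil) .nil))) 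
(.lf (nat_lit 481166) (.g (nat_lit 3576) (.e (nat_lit 5270) (nat_lit 298) (.e (nat_lit 1239) (nat_lit 91) (.e (nat_lit 90170) (nat_lit 13) (.e (nat_lit 172113) (nat_lit 10) (.e (nat_lit 434245) (nat_lit 28) (.e (nat_lit 573448) (nat_lit 9) (.e (nat_lit 359) (nat_lit 30) (.e (nat_lit 409604) (nat_lit 0) .nil)))))))) (.g (nat_lit 1) (.e (nat_lit 112588) (nat_lit 0) .nil) .nil)))))) 
(.nd (nat_lit 7) (.nd (nat_lit 8) (.nd (nat_lit 9) 
(.lf (nat_lit 480334) (.g (nat_lit 2089) (.e (nat_lit 5937) (nat_lit 322) (.e (nat_lit 57379) (nat_lit 3) (.e (nat_lit 98365) (nat_lit 26) (.e (nat_lit 426325) (nat_lit 13) (.e (nat_lit 483341) (nat_lit 9) (.e (nat_lit 426029) (nat_lit 0) (.e (nat_lit 2466) (nat_lit 157) .nil))))))) (.g (nat_lit 1) (.e (nat_lit 111670) (nat_lit 0) .nil) .nil))) 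
(.lf (nat_lit 480846) (.g (nat_lit 2243) (.e (nat_lit 5948) (nat_lit 322) (.e (nat_lit 57371) (nat_lit 2) (.e (nat_lit 90174) (nat_lit 14) (.e (nat_lit 180243) (nat_lit 5) (.e (nat_lit 532513) (nat_lit 3) .nil))))) (.g (nat_lit 0) (.e (nat_lit 112200) (nat_lit 0) .nil) .nil)))) (.nd (nat_lit 9) 
(.lf (nat_lit 480590) (.g (nat_lit 2886) (.e (nat_lit 5941) (nat_lit 322) (.e (nat_lit 57409) (nat_lit 12) (.e (nat_lit 336443) (nat_lit 32) (.e (nat_lit 466974) (nat_lit 22) (.e (nat_lit 196656) (nat_lit 11) .nil))))) (.g (nat_lit 0) (.e (nat_lit 111937) (nat_lit 0) .nil) .nil))) 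
(.lf (nat_lit 481102) (.g (nat_lit 1613) (.e (nat_lit 5953) (nat_lit 322) (.e (nat_lit 57435) (nat_lit 17) (.e (nat_lit 376835) (nat_lit 0) (.e (nat_lit 3748) (nat_lit 228) (.e (nat_lit 786481) (nat_lit 30) .nil))))) (.g (nat_lit 0) (.e (nat_lit 112487) (nat_lit 0) .nil) .nil))))) (.nd (nat_lit 8) (.nd (nat_lit 9) 
(.lf (nat_lit 480462) (.g (nat_lit 2660) (.e (nat_lit 5939) (nat_lit 322) (.e (nat_lit 57379) (nat_lit 3) (.e (nat_lit 98366) (nat_lit 27) (.e (nat_lit 434231) (nat_lit 23) (.e (nat_lit 532514) (nat_lit 3) (.e (nat_lit 114716) (nat_lit 22) (.e (nat_lit 90179) (nat_lit 16) (.e (nat_lit 229379) (nat_lit 0) .nil)))))))) (.g (nat_lit 1) (.e (nat_lit 111809) (nat_lit 0) .nil) .nil))) 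
(.lf (nat_lit 480974) (.g (nat_lit 2282) (.e (nat_lit 5949) (nat_lit 322) (.e (nat_lit 57409) (nat_lit 12) (.e (nat_lit 336443) (nat_lit 32) (.e (nat_lit 466974) (nat_lit 22) (.e (nat_lit 196653) (nat_lit 11) .nil))))) (.g (nat_lit 0) (.e (nat_lit 112341) (nat_lit 0) .nil) .nil)))) (.nd (nat_lit 9) 
(.lf (nat_lit 480718) (.g (nat_lit 1741) (.e (nat_lit 5944) (nat_lit 322) (.e (nat_lit 57371) (nat_lit 2) (.e (nat_lit 90174) (nat_lit 14) (.e (nat_lit 180251) (nat_lit 10) (.e (nat_lit 573489) (nat_lit 14) (.e (nat_lit 73754) (nat_lit 8) (.e (nat_lit 557094) (nat_lit 12) (.e (nat_lit 163855) (nat_lit 0) .nil)))))))) (.g (nat_lit 1) (.e (nat_lit 112068) (nat_lit 0) .nil) .nil))) 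
(.lf (nat_lit 481230) (.g (nat_lit 1783) (.e (nat_lit 5293) (nat_lit 298) (.e (nat_lit 1250) (nat_lit 92) (.e (nat_lit 98372) (nat_lit 29) (.e (nat_lit 450586) (nat_lit 10) (.e (nat_lit 573457) (nat_lit 9) .nil))))) (.g (nat_lit 0) (.e (nat_lit 112788) (nat_lit 0) .nil) .nil))))))) (.nd (nat_lit 6) (.nd (nat_lit 7) (.nd (nat_lit 8) (.nd (nat_lit 9) 
(.lf (nat_lit 480302) (.g (nat_lit 1740) (.e (nat_lit 5937) (nat_lit 322) (.e (nat_lit 57377) (nat_lit 3) (.e (nat_lit 98365) (nat_lit 26) (.e (nat_lit 426325) (nat_lit 13) (.e (nat_lit 491264) (nat_lit 10) .nil))))) (.g (nat_lit 0) (.e (nat_lit 111634) (nat_lit 0) .nil) .nil))) 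
(.lf (nat_lit 480814) (.g (nat_lit 2436) (.e (nat_lit 5946) (nat_lit 322) (.e (nat_lit 57412) (nat_lit 12) (.e (nat_lit 336226) (nat_lit 14) (.e (nat_lit 401437) (nat_lit 9) (.e (nat_lit 426546) (nat_lit 30) (.e (nat_lit 360456) (nat_lit 0) .nil)))))) (.g (nat_lit 1) (.e (nat_lit 112164) (nat_lit 0) .nil) .nil)))) (.nd (nat_lit 9) 
(.lf (nat_lit 480558) (.g (nat_lit 4536) (.e (nat_lit 5940) (nat_lit 322) (.e (nat_lit 57379) (nat_lit 3) (.e (nat_lit 98366) (nat_lit 27) (.e (nat_lit 434244) (nat_lit 28) (.e (nat_lit 573488) (nat_lit 14) (.e (nat_lit 73755) (nat_lit 8) (.e (nat_lit 557090) (nat_lit 12) (.e (nat_lit 163844) (nat_lit 0) .nil)))))))) (.g (nat_lit 1) (.e (nat_lit 111905) (nat_lit 0) .nil) .nil))) 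
(.lf (nat_lit 481070) (.g (nat_lit 2457) (.e (nat_lit 5953) (nat_lit 322) (.e (nat_lit 57373) (nat_lit 2) (.e (nat_lit 90172) (nat_lit 14) (.e (nat_lit 180250) (nat_lit 10) (.e (nat_lit 573487) (nat_lit 14) .nil))))) (.g (nat_lit 0) (.e (nat_lit 112452) (nat_lit 0) .nil) .nil))))) (.nd (nat_lit 8) (.nd (nat_lit 9) 
(.lf (nat_lit 480430) (.g (nat_lit 3329) (.e (nat_lit 5939) (nat_lit 322) (.e (nat_lit 57375) (nat_lit 2) (.e (nat_lit 90174) (nat_lit 14) (.e (nat_lit 180250) (nat_lit 10) (.e (nat_lit 573487) (nat_lit 14) (.e (nat_lit 73753) (nat_lit 8) (.e (nat_lit 557090) (nat_lit 12) (.e (nat_lit 163850) (nat_lit 0) .nil)))))))) (.g (nat_lit 1) (.e (nat_lit 111776) (nat_lit 0) .nil) .nil))) 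
(.lf (nat_lit 480942) (.g (nat_lit 1382) (.e (nat_lit 5949) (nat_lit 322) (.e (nat_lit 57373) (nat_lit 2) (.e (nat_lit 90174) (nat_lit 14) (.e (nat_lit 180250) (nat_lit 10) .nil)))) (.g (nat_lit 0) (.e (nat_lit 112298) (nat_lit 0) .nil) .nil)))) (.nd (nat_lit 9) 
(.lf (nat_lit 480686) (.g (nat_lit 3500) (.e (nat_lit 5943) (nat_lit 322) (.e (nat_lit 57375) (nat_lit 2) (.e (nat_lit 90174) (nat_lit 14) (.e (nat_lit 180251) (nat_lit 10) (.e (nat_lit 573489) (nat_lit 14) (.e (nat_lit 73755) (nat_lit 8) (.e (nat_lit 557091) (nat_lit 12) (.e (nat_lit 163843) (nat_lit 0) .nil)))))))) (.g (nat_lit 1) (.e (nat_lit 112035) (nat_lit 0) .nil) .nil))) 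
(.lf (nat_lit 481198) (.g (nat_lit 2815) (.e (nat_lit 5270) (nat_lit 298) (.e (nat_lit 1239) (nat_lit 91) (.e (nat_lit 90170) (nat_lit 13) (.e (nat_lit 172113) (nat_lit 10) (.e (nat_lit 434248) (nat_lit 28) (.e (nat_lit 573457) (nat_lit 9) (.e (nat_lit 7936) (nat_lit 30) (.e (nat_lit 409604) (nat_lit 0) .nil)))))))) (.g (nat_lit 1) (.e (nat_lit 112620) (nat_lit 0) .nil) .nil)))))) 
(.nd (nat_lit 7) (.nd (nat_lit 8) (.nd (nat_lit 9) 
(.lf (nat_lit 480366) (.g (nat_lit 1954) (.e (nat_lit 5937) (nat_lit 322) (.e (nat_lit 57437) (nat_lit 17) (.e (nat_lit 376835) (nat_lit 0) (.e (nat_lit 3748) (nat_lit 228) (.e (nat_lit 786483) (nat_lit 30) (.e (nat_lit 368384) (nat_lit 0) .nil)))))) (.g (nat_lit 1) (.e (nat_lit 111712) (nat_lit 0) .nil) .nil))) 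
(.lf (nat_lit 480878) (.g (nat_lit 1791) (.e (nat_lit 5948) (nat_lit 322) (.e (nat_lit 57377) (nat_lit 3) (.e (nat_lit 98365) (nat_lit 26) (.e (nat_lit 426326) (nat_lit 13) (.e (nat_lit 491264) (nat_lit 10) (.e (nat_lit 434216) (nat_lit 18) .nil)))))) (.g (nat_lit 1) (.e (nat_lit 112232) (nat_lit 0) .nil) .nil)))) (.nd (nat_lit 9) 
(.lf (nat_lit 480622) (.g (nat_lit 5527) (.e (nat_lit 5943) (nat_lit 322) (.e (nat_lit 57372) (nat_lit 2) (.e (nat_lit 90172) (nat_lit 14) (.e (nat_lit 180250) (nat_lit 10) (.e (nat_lit 573487) (nat_lit 14) (.e (nat_lit 73753) (nat_lit 8) (.e (nat_lit 557090) (nat_lit 12) (.e (nat_lit 163844) (nat_lit 0) .nil)))))))) (.g (nat_lit 1) (.e (nat_lit 111971) (nat_lit 0) .nil) .nil))) 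
(.lf (nat_lit 481134) (.g (nat_lit 3329) (.e (nat_lit 5954) (nat_lit 322) (.e (nat_lit 57409) (nat_lit 12) (.e (nat_lit 336443) (nat_lit 32) (.e (nat_lit 466977) (nat_lit 22) (.e (nat_lit 196656) (nat_lit 11) (.e (nat_lit 16392) (nat_lit 0) (.e (nat_lit 2397) (nat_lit 157) .nil))))))) (.g (nat_lit 1) (.e (nat_lit 112520) (nat_lit 0) .nil) .nil))))) (.nd (nat_lit 8) (.nd (nat_lit 9) 
(.lf (nat_lit 480494) (.g (nat_lit 4694) (.e (nat_lit 5939) (nat_lit 322) (.e (nat_lit 57379) (nat_lit 3) (.e (nat_lit 98367) (nat_lit 27) (.e (nat_lit 434248) (nat_lit 28) (.e (nat_lit 573489) (nat_lit 14) (.e (nat_lit 73755) (nat_lit 8) (.e (nat_lit 557090) (nat_lit 12) (.e (nat_lit 163850) (nat_lit 0) .nil)))))))) (.g (nat_lit 1) (.e (nat_lit 111841) (nat_lit 0) .nil) .nil))) 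
(.lf (nat_lit 481006) (.g (nat_lit 1371) (.e (nat_lit 5949) (nat_lit 322) (.e (nat_lit 57435) (nat_lit 17) (.e (nat_lit 376835) (nat_lit 0) (.e (nat_lit 3747) (nat_lit 228) (.e (nat_lit 786481) (nat_lit 30) .nil))))) (.g (nat_lit 0) (.e (nat_lit 112383) (nat_lit 0) .nil) .nil)))) (.nd (nat_lit 9) 
(.lf (nat_lit 480750) (.g (nat_lit 2347) (.e (nat_lit 5945) (nat_lit 322) (.e (nat_lit 57371) (nat_lit 2) (.e (nat_lit 90174) (nat_lit 14) (.e (nat_lit 180250) (nat_lit 10) (.e (nat_lit 573489) (nat_lit 14) (.e (nat_lit 73755) (nat_lit 8) (.e (nat_lit 557089) (nat_lit 12) (.e (nat_lit 163848) (nat_lit 0) .nil)))))))) (.g (nat_lit 1) (.e (nat_lit 112100) (nat_lit 0) .nil) .nil))) 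
(.lf (nat_lit 481262) (.g (nat_lit 1312) (.e (nat_lit 5381) (nat_lit 300) (.e (nat_lit 16456) (nat_lit 12) (.e (nat_lit 475199) (nat_lit 40) (.e (nat_lit 704595) (nat_lit 5) .nil)))) (.g (nat_lit 0) (.e (nat_lit 112858) (nat_lit 0) .nil) .nil)))))))) (.nd (nat_lit 5) (.nd (nat_lit 6) (.nd (nat_lit 7) (.nd (nat_lit 8) (.nd (nat_lit 9) 
(.lf (nat_lit 480286) (.g (nat_lit 2539) (.e (nat_lit 5937) (nat_lit 322) (.e (nat_lit 57374) (nat_lit 2) (.e (nat_lit 90174) (nat_lit 14) (.e (nat_lit 180251) (nat_lit 10) (.e (nat_lit 573489) (nat_lit 14) (.e (nat_lit 73755) (nat_lit 8) (.e (nat_lit 557091) (nat_lit 12) (.e (nat_lit 171776) (nat_lit 0) .nil)))))))) (.g (nat_lit 1) (.e (nat_lit 111618) (nat_lit 0) .nil) .nil))) 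
(.lf (nat_lit 480798) (.g (nat_lit 2522) (.e (nat_lit 5946) (nat_lit 322) (.e (nat_lit 57377) (nat_lit 3) (.e (nat_lit 98365) (nat_lit 26) (.e (nat_lit 426188) (nat_lit 9) (.e (nat_lit 426479) (nat_lit 27) (.e (nat_lit 336421) (nat_lit 28) (.e (nat_lit 434216) (nat_lit 18) .nil))))))) (.g (nat_lit 1) (.e (nat_lit 112148) (nat_lit 0) .nil) .nil)))) (.nd (nat_lit 9) 
(.lf (nat_lit 480542) (.g (nat_lit 3811) (.e (nat_lit 5940) (nat_lit 322) (.e (nat_lit 57375) (nat_lit 2) (.e (nat_lit 90173) (nat_lit 14) (.e (nat_lit 180252) (nat_lit 10) (.e (nat_lit 573489) (nat_lit 14) (.e (nat_lit 73755) (nat_lit 8) (.e (nat_lit 557090) (nat_lit 12) (.e (nat_lit 163844) (nat_lit 0) .nil)))))))) (.g (nat_lit 1) (.e (nat_lit 111889) (nat_lit 0) .nil) .nil))) 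
(.lf (nat_lit 481054) (.g (nat_lit 1981) (.e (nat_lit 5952) (nat_lit 322) (.e (nat_lit 57371) (nat_lit 2) (.e (nat_lit 90173) (nat_lit 14) (.e (nat_lit 180252) (nat_lit 10) (.e (nat_lit 573489) (nat_lit 14) (.e (nat_lit 73755) (nat_lit 8) (.e (nat_lit 557090) (nat_lit 12) (.e (nat_lit 163840) (nat_lit 0) .nil)))))))) (.g (nat_lit 1) (.e (nat_lit 112436) (nat_lit 0) .nil) .nil))))) 
(.nd (nat_lit 8) (.nd (nat_lit 9) 
(.lf (nat_lit 480414) (.g (nat_lit 1957) (.e (nat_lit 5939) (nat_lit 322) (.e (nat_lit 57375) (nat_lit 2) (.e (nat_lit 90172) (nat_lit 14) (.e (nat_lit 180251) (nat_lit 10) (.e (nat_lit 573489) (nat_lit 14) (.e (nat_lit 73755) (nat_lit 8) (.e (nat_lit 557091) (nat_lit 12) (.e (nat_lit 163840) (nat_lit 0) .nil)))))))) (.g (nat_lit 1) (.e (nat_lit 111760) (nat_lit 0) .nil) .nil))) 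
(.lf (nat_lit 480926) (.g (nat_lit 3281) (.e (nat_lit 5949) (nat_lit 322) (.e (nat_lit 57373) (nat_lit 2) (.e (nat_lit 90172) (nat_lit 14) (.e (nat_lit 180250) (nat_lit 10) (.e (nat_lit 573487) (nat_lit 14) (.e (nat_lit 73753) (nat_lit 8) (.e (nat_lit 557091) (nat_lit 12) (.e (nat_lit 163856) (nat_lit 0) .nil)))))))) (.g (nat_lit 1) (.e (nat_lit 112282) (nat_lit 0) .nil) .nil)))) (.nd (nat_lit 9) 
(.lf (nat_lit 480670) (.g (nat_lit 3101) (.e (nat_lit 5943) (nat_lit 322) (.e (nat_lit 57375) (nat_lit 2) (.e (nat_lit 90172) (nat_lit 14) (.e (nat_lit 180251) (nat_lit 10) (.e (nat_lit 573489) (nat_lit 14) (.e (nat_lit 73755) (nat_lit 8) (.e (nat_lit 557091) (nat_lit 12) (.e (nat_lit 163841) (nat_lit 0) .nil)))))))) (.g (nat_lit 1) (.e (nat_lit 112019) (nat_lit 0) .nil) .nil))) 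
(.lf (nat_lit 481182) (.g (nat_lit 4815) (.e (nat_lit 5270) (nat_lit 298) (.e (nat_lit 1239) (nat_lit 91) (.e (nat_lit 90170) (nat_lit 13) (.e (nat_lit 172113) (nat_lit 10) (.e (nat_lit 434247) (nat_lit 28) (.e (nat_lit 573457) (nat_lit 9) (.e (nat_lit 359) (nat_lit 30) (.e (nat_lit 409604) (nat_lit 0) .nil)))))))) (.g (nat_lit 1) (.e (nat_lit 112604) (nat_lit 0) .nil) .nil)))))) 
(.nd (nat_lit 7) (.nd (nat_lit 8) (.nd (nat_lit 9) 
(.lf (nat_lit 480350) (.g (nat_lit 1895) (.e (nat_lit 5937) (nat_lit 322) (.e (nat_lit 57402) (nat_lit 11) (.e (nat_lit 327698) (nat_lit 8) (.e (nat_lit 303145) (nat_lit 13) (.e (nat_lit 483401) (nat_lit 25) (.e (nat_lit 376576) (nat_lit 18) .nil)))))) (.g (nat_lit 1) (.e (nat_lit 111686) (nat_lit 0) .nil) .nil))) 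
(.lf (nat_lit 480862) (.g (nat_lit 2946) (.e (nat_lit 5948) (nat_lit 322) (.e (nat_lit 57373) (nat_lit 2) (.e (nat_lit 90172) (nat_lit 14) (.e (nat_lit 180250) (nat_lit 10) (.e (nat_lit 573487) (nat_lit 14) (.e (nat_lit 73753) (nat_lit 8) (.e (nat_lit 557093) (nat_lit 12) (.e (nat_lit 163857) (nat_lit 0) .nil)))))))) (.g (nat_lit 1) (.e (nat_lit 112216) (nat_lit 0) .nil) .nil)))) (.nd (nat_lit 9) 
(.lf (nat_lit 480606) (.g (nat_lit 2575) (.e (nat_lit 5942) (nat_lit 322) (.e (nat_lit 57375) (nat_lit 2) (.e (nat_lit 90172) (nat_lit 14) (.e (nat_lit 180250) (nat_lit 10) (.e (nat_lit 573487) (nat_lit 14) .nil))))) (.g (nat_lit 0) (.e (nat_lit 111955) (nat_lit 0) .nil) .nil))) 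
(.lf (nat_lit 481118) (.g (nat_lit 2599) (.e (nat_lit 5954) (nat_lit 322) (.e (nat_lit 57373) (nat_lit 2) (.e (nat_lit 90174) (nat_lit 14) (.e (nat_lit 180250) (nat_lit 10) (.e (nat_lit 573487) (nat_lit 14) .nil))))) (.g (nat_lit 0) (.e (nat_lit 112504) (nat_lit 0) .nil) .nil))))) (.nd (nat_lit 8) (.nd (nat_lit 9) 
(.lf (nat_lit 480478) (.g (nat_lit 2335) (.e (nat_lit 5939) (nat_lit 322) (.e (nat_lit 57379) (nat_lit 3) (.e (nat_lit 98367) (nat_lit 27) (.e (nat_lit 434231) (nat_lit 23) (.e (nat_lit 532513) (nat_lit 3) (.e (nat_lit 114714) (nat_lit 22) (.e (nat_lit 90181) (nat_lit 16) (.e (nat_lit 229378) (nat_lit 0) .nil)))))))) (.g (nat_lit 1) (.e (nat_lit 111825) (nat_lit 0) .nil) .nil))) 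
(.lf (nat_lit 480990) (.g (nat_lit 3041) (.e (nat_lit 5949) (nat_lit 322) (.e (nat_lit 57409) (nat_lit 12) (.e (nat_lit 336443) (nat_lit 32) (.e (nat_lit 466977) (nat_lit 22) (.e (nat_lit 196656) (nat_lit 11) (.e (nat_lit 16388) (nat_lit 0) (.e (nat_lit 2504) (nat_lit 157) .nil))))))) (.g (nat_lit 1) (.e (nat_lit 112357) (nat_lit 0) .nil) .nil)))) (.nd (nat_lit 9) 
(.lf (nat_lit 480734) (.g (nat_lit 2547) (.e (nat_lit 5944) (nat_lit 322) (.e (nat_lit 57378) (nat_lit 3) (.e (nat_lit 98367) (nat_lit 27) (.e (nat_lit 434231) (nat_lit 23) (.e (nat_lit 532514) (nat_lit 3) (.e (nat_lit 114715) (nat_lit 22) (.e (nat_lit 90165) (nat_lit 12) (.e (nat_lit 163855) (nat_lit 0) .nil)))))))) (.g (nat_lit 1) (.e (nat_lit 112084) (nat_lit 0) .nil) .nil))) 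
(.lf (nat_lit 481246) (.g (nat_lit 1700) (.e (nat_lit 5351) (nat_lit 298) (.e (nat_lit 1235) (nat_lit 91) (.e (nat_lit 90176) (nat_lit 15) (.e (nat_lit 188450) (nat_lit 23) (.e (nat_lit 204821) (nat_lit 17) .nil))))) (.g (nat_lit 0) (.e (nat_lit 112815) (nat_lit 0) .nil) .nil))))))) (.nd (nat_lit 6) (.nd (nat_lit 7) (.nd (nat_lit 8) (.nd (nat_lit 9) 
(.lf (nat_lit 480318) (.g (nat_lit 3075) (.e (nat_lit 5937) (nat_lit 322) (.e (nat_lit 57378) (nat_lit 3) (.e (nat_lit 98367) (nat_lit 27) (.e (nat_lit 434248) (nat_lit 28) (.e (nat_lit 573489) (nat_lit 14) (.e (nat_lit 73755) (nat_lit 8) (.e (nat_lit 557091) (nat_lit 12) (.e (nat_lit 163840) (nat_lit 0) .nil)))))))) (.g (nat_lit 1) (.e (nat_lit 111654) (nat_lit 0) .nil) .nil))) 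
(.lf (nat_lit 480830) (.g (nat_lit 2849) (.e (nat_lit 5947) (nat_lit 322) (.e (nat_lit 57373) (nat_lit 2) (.e (nat_lit 90174) (nat_lit 14) (.e (nat_lit 180250) (nat_lit 10) (.e (nat_lit 573487) (nat_lit 14) (.e (nat_lit 73753) (nat_lit 8) (.e (nat_lit 557093) (nat_lit 12) (.e (nat_lit 163857) (nat_lit 0) .nil)))))))) (.g (nat_lit 1) (.e (nat_lit 112183) (nat_lit 0) .nil) .nil)))) (.nd (nat_lit 9) 
(.lf (nat_lit 480574) (.g (nat_lit 2671) (.e (nat_lit 5941) (nat_lit 322) (.e (nat_lit 57372) (nat_lit 2) (.e (nat_lit 90174) (nat_lit 14) (.e (nat_lit 180251) (nat_lit 10) (.e (nat_lit 573489) (nat_lit 14) (.e (nat_lit 73755) (nat_lit 8) (.e (nat_lit 557089) (nat_lit 12) (.e (nat_lit 163844) (nat_lit 0) .nil)))))))) (.g (nat_lit 1) (.e (nat_lit 111921) (nat_lit 0) .nil) .nil))) 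
(.lf (nat_lit 481086) (.g (nat_lit 4941) (.e (nat_lit 5953) (nat_lit 322) (.e (nat_lit 57373) (nat_lit 2) (.e (nat_lit 90174) (nat_lit 14) (.e (nat_lit 180251) (nat_lit 10) (.e (nat_lit 573489) (nat_lit 14) (.e (nat_lit 73755) (nat_lit 8) (.e (nat_lit 557091) (nat_lit 12) (.e (nat_lit 163840) (nat_lit 0) .nil)))))))) (.g (nat_lit 1) (.e (nat_lit 112468) (nat_lit 0) .nil) .nil))))) 
(.nd (nat_lit 8) (.nd (nat_lit 9) 
(.lf (nat_lit 480446) (.g (nat_lit 3642) (.e (nat_lit 5939) (nat_lit 322) (.e (nat_lit 57379) (nat_lit 3) (.e (nat_lit 98366) (nat_lit 27) (.e (nat_lit 434231) (nat_lit 23) (.e (nat_lit 532507) (nat_lit 2) (.e (nat_lit 106517) (nat_lit 9) (.e (nat_lit 1255) (nat_lit 92) (.e (nat_lit 98321) (nat_lit 17) (.e (nat_lit 2464) (nat_lit 157) .nil))))))))) (.g (nat_lit 1) (.e (nat_lit 111793) (nat_lit 0) .nil) .nil))) 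
(.lf (nat_lit 480958) (.g (nat_lit 2793) (.e (nat_lit 5949) (nat_lit 322) (.e (nat_lit 57378) (nat_lit 3) (.e (nat_lit 98367) (nat_lit 27) (.e (nat_lit 434231) (nat_lit 23) (.e (nat_lit 532514) (nat_lit 3) (.e (nat_lit 114715) (nat_lit 22) (.e (nat_lit 90165) (nat_lit 12) (.e (nat_lit 163857) (nat_lit 0) .nil)))))))) (.g (nat_lit 1) (.e (nat_lit 112314) (nat_lit 0) .nil) .nil)))) (.nd (nat_lit 9) 
(.lf (nat_lit 480702) (.g (nat_lit 5416) (.e (nat_lit 5943) (nat_lit 322) (.e (nat_lit 57379) (nat_lit 3) (.e (nat_lit 98366) (nat_lit 27) (.e (nat_lit 434248) (nat_lit 28) (.e (nat_lit 573489) (nat_lit 14) (.e (nat_lit 73755) (nat_lit 8) (.e (nat_lit 557090) (nat_lit 12) (.e (nat_lit 163844) (nat_lit 0) .nil)))))))) (.g (nat_lit 1) (.e (nat_lit 112052) (nat_lit 0) .nil) .nil))) 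
(.lf (nat_lit 481214) (.g (nat_lit 2311) (.e (nat_lit 5277) (nat_lit 298) (.e (nat_lit 1250) (nat_lit 92) (.e (nat_lit 98350) (nat_lit 24) (.e (nat_lit 409645) (nat_lit 18) (.e (nat_lit 303119) (nat_lit 3) .nil))))) (.g (nat_lit 0) (.e (nat_lit 112765) (nat_lit 0) .nil) .nil)))))) (.nd (nat_lit 7) (.nd (nat_lit 8) (.nd (nat_lit 9) 
(.lf (nat_lit 480382) (.g (nat_lit 2222) (.e (nat_lit 5938) (nat_lit 322) (.e (nat_lit 57375) (nat_lit 2) (.e (nat_lit 90173) (nat_lit 14) (.e (nat_lit 180252) (nat_lit 10) (.e (nat_lit 573489) (nat_lit 14) (.e (nat_lit 73755) (nat_lit 8) (.e (nat_lit 557090) (nat_lit 12) (.e (nat_lit 163840) (nat_lit 0) .nil)))))))) (.g (nat_lit 1) (.e (nat_lit 111728) (nat_lit 0) .nil) .nil))) 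
(.lf (nat_lit 480894) (.g (nat_lit 1355) (.e (nat_lit 5948) (nat_lit 322) (.e (nat_lit 57419) (nat_lit 12) (.e (nat_lit 336194) (nat_lit 12) (.e (nat_lit 385102) (nat_lit 50) (.e (nat_lit 786481) (nat_lit 30) (.e (nat_lit 360456) (nat_lit 0) .nil)))))) (.g (nat_lit 1) (.e (nat_lit 112249) (nat_lit 0) .nil) .nil)))) (.nd (nat_lit 9) 
(.lf (nat_lit 480638) (.g (nat_lit 4853) (.e (nat_lit 5943) (nat_lit 322) (.e (nat_lit 57372) (nat_lit 2) (.e (nat_lit 90174) (nat_lit 14) (.e (nat_lit 180250) (nat_lit 10) (.e (nat_lit 573489) (nat_lit 14) (.e (nat_lit 73755) (nat_lit 8) (.e (nat_lit 557090) (nat_lit 12) (.e (nat_lit 163843) (nat_lit 0) .nil)))))))) (.g (nat_lit 1) (.e (nat_lit 111987) (nat_lit 0) .nil) .nil))) 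
(.lf (nat_lit 481150) (.g (nat_lit 2342) (.e (nat_lit 5255) (nat_lit 298) (.e (nat_lit 1239) (nat_lit 91) (.e (nat_lit 90170) (nat_lit 13) (.e (nat_lit 172106) (nat_lit 10) (.e (nat_lit 434231) (nat_lit 23) .nil))))) (.g (nat_lit 0) (.e (nat_lit 112552) (nat_lit 0) .nil) .nil))))) (.nd (nat_lit 8) (.nd (nat_lit 9) 
(.lf (nat_lit 480510) (.g (nat_lit 3342) (.e (nat_lit 5940) (nat_lit 322) (.e (nat_lit 57371) (nat_lit 2) (.e (nat_lit 90173) (nat_lit 14) (.e (nat_lit 180252) (nat_lit 10) (.e (nat_lit 573489) (nat_lit 14) (.e (nat_lit 73755) (nat_lit 8) (.e (nat_lit 557090) (nat_lit 12) (.e (nat_lit 163841) (nat_lit 0) .nil)))))))) (.g (nat_lit 1) (.e (nat_lit 111857) (nat_lit 0) .nil) .nil))) 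
(.lf (nat_lit 481022) (.g (nat_lit 2419) (.e (nat_lit 5950) (nat_lit 322) (.e (nat_lit 57371) (nat_lit 2) (.e (nat_lit 90174) (nat_lit 14) (.e (nat_lit 180250) (nat_lit 10) (.e (nat_lit 573487) (nat_lit 14) (.e (nat_lit 73753) (nat_lit 8) (.e (nat_lit 557090) (nat_lit 12) (.e (nat_lit 163840) (nat_lit 0) .nil)))))))) (.g (nat_lit 1) (.e (nat_lit 112404) (nat_lit 0) .nil) .nil)))) (.nd (nat_lit 9) 
(.lf (nat_lit 480766) (.g (nat_lit 2670) (.e (nat_lit 5945) (nat_lit 322) (.e (nat_lit 57378) (nat_lit 3) (.e (nat_lit 98365) (nat_lit 26) (.e (nat_lit 426326) (nat_lit 13) (.e (nat_lit 491264) (nat_lit 10) (.e (nat_lit 434208) (nat_lit 18) .nil)))))) (.g (nat_lit 1) (.e (nat_lit 112116) (nat_lit 0) .nil) .nil))) 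
(.lf (nat_lit 481278) (.g (nat_lit 2660) (.e (nat_lit 5389) (nat_lit 301) (.e (nat_lit 57464) (nat_lit 23) (.e (nat_lit 516166) (nat_lit 12) (.e (nat_lit 450588) (nat_lit 10) (.e (nat_lit 573457) (nat_lit 9) (.e (nat_lit 359) (nat_lit 30) (.e (nat_lit 409602) (nat_lit 0) .nil))))))) (.g (nat_lit 1) (.e (nat_lit 112893) (nat_lit 0) .nil) .nil)))))))))))) 
(.nd (nat_lit 1) (.nd (nat_lit 2) (.nd (nat_lit 3) (.nd (nat_lit 4) (.nd (nat_lit 5) 
(.nd (nat_lit 6) (.nd (nat_lit 7) (.nd (nat_lit 8) (.nd (nat_lit 9) 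
(.lf (nat_lit 480257) (.g (nat_lit 3586) (.e (nat_lit 5937) (nat_lit 322) (.e (nat_lit 57346) (nat_lit 0) (.e (nat_lit 6203) (nat_lit 332) (.e (nat_lit 2798) (nat_lit 180) (.e (nat_lit 303145) (nat_lit 13) (.e (nat_lit 483401) (nat_lit 25) (.e (nat_lit 376576) (nat_lit 18) .nil))))))) (.g (nat_lit 1) (.e (nat_lit 111589) (nat_lit 0) .nil) .nil))) 
(.lf (nat_lit 480769) (.g (nat_lit 2515) (.e (nat_lit 5946) (nat_lit 322) (.e (nat_lit 57371) (nat_lit 2) (.e (nat_lit 90174) (nat_lit 14) (.e (nat_lit 180243) (nat_lit 5) (.e (nat_lit 532513) (nat_lit 3) (.e (nat_lit 114719) (nat_lit 23) (.e (nat_lit 98325) (nat_lit 17) (.e (nat_lit 2515) (nat_lit 157) .nil)))))))) (.g (nat_lit 1) (.e (nat_lit 112119) (nat_lit 0) .nil) .nil)))) (.nd (nat_lit 9) 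
(.lf (nat_lit 480513) (.g (nat_lit 5272) (.e (nat_lit 5940) (nat_lit 322) (.e (nat_lit 57371) (nat_lit 2) (.e (nat_lit 90174) (nat_lit 14) (.e (nat_lit 180250) (nat_lit 10) (.e (nat_lit 573489) (nat_lit 14) (.e (nat_lit 73755) (nat_lit 8) (.e (nat_lit 557090) (nat_lit 12) (.e (nat_lit 163844) (nat_lit 0) .nil)))))))) (.g (nat_lit 1) (.e (nat_lit 111860) (nat_lit 0) .nil) .nil))) 
(.lf (nat_lit 481025) (.g (nat_lit 2459) (.e (nat_lit 5950) (nat_lit 322) (.e (nat_lit 57371) (nat_lit 2) (.e (nat_lit 90174) (nat_lit 14) (.e (nat_lit 180250) (nat_lit 10) (.e (nat_lit 573489) (nat_lit 14) (.e (nat_lit 73755) (nat_lit 8) (.e (nat_lit 557091) (nat_lit 12) (.e (nat_lit 163852) (nat_lit 0) .nil)))))))) (.g (nat_lit 1) (.e (nat_lit 112407) (nat_lit 0) .nil) .nil))))) 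
(.nd (nat_lit 8) (.nd (nat_lit 9) 
(.lf (nat_lit 480385) (.g (nat_lit 2556) (.e (nat_lit 5938) (nat_lit 322) (.e (nat_lit 57375) (nat_lit 2) (.e (nat_lit 90174) (nat_lit 14) (.e (nat_lit 180250) (nat_lit 10) (.e (nat_lit 573489) (nat_lit 14) .nil))))) (.g (nat_lit 0) (.e (nat_lit 111731) (nat_lit 0) .nil) .nil))) 
(.lf (nat_lit 480897) (.g (nat_lit 1315) (.e (nat_lit 5948) (nat_lit 322) (.e (nat_lit 57419) (nat_lit 12) (.e (nat_lit 336194) (nat_lit 12) (.e (nat_lit 385103) (nat_lit 50) (.e (nat_lit 786481) (nat_lit 30) (.e (nat_lit 360457) (nat_lit 0) .nil)))))) (.g (nat_lit 1) (.e (nat_lit 112252) (nat_lit 0) .nil) .nil)))) (.nd (nat_lit 9) 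
(.lf (nat_lit 480641) (.g (nat_lit 2615) (.e (nat_lit 5943) (nat_lit 322) (.e (nat_lit 57372) (nat_lit 2) (.e (nat_lit 90174) (nat_lit 14) (.e (nat_lit 180250) (nat_lit 10) (.e (nat_lit 573489) (nat_lit 14) (.e (nat_lit 73755) (nat_lit 8) (.e (nat_lit 557091) (nat_lit 12) (.e (nat_lit 163844) (nat_lit 0) .nil)))))))) (.g (nat_lit 1) (.e (nat_lit 111990) (nat_lit 0) .nil) .nil))) 
(.lf (nat_lit 481153) (.g (nat_lit 3529) (.e (nat_lit 5258) (nat_lit 298) (.e (nat_lit 1239) (nat_lit 91) (.e (nat_lit 90170) (nat_lit 13) (.e (nat_lit 172113) (nat_lit 10) (.e (nat_lit 434245) (nat_lit 28) (.e (nat_lit 573451) (nat_lit 9) (.e (nat_lit 365) (nat_lit 31) (.e (nat_lit 417795) (nat_lit 0) .nil)))))))) (.g (nat_lit 1) (.e (nat_lit 112555) (nat_lit 0) .nil) .nil)))))) 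
(.nd (nat_lit 7) (.nd (nat_lit 8) (.nd (nat_lit 9) 
(.lf (nat_lit 480321) (.g (nat_lit 2372) (.e (nat_lit 5937) (nat_lit 322) (.e (nat_lit 57378) (nat_lit 3) (.e (nat_lit 98368) (nat_lit 27) (.e (nat_lit 434245) (nat_lit 28) (.e (nat_lit 573487) (nat_lit 14) (.e (nat_lit 73753) (nat_lit 8) (.e (nat_lit 557094) (nat_lit 12) (.e (nat_lit 163840) (nat_lit 0) .nil)))))))) (.g (nat_lit 1) (.e (nat_lit 111657) (nat_lit 0) .nil) .nil))) 
(.lf (nat_lit 480833) (.g (nat_lit 3184) (.e (nat_lit 5947) (nat_lit 322) (.e (nat_lit 57373) (nat_lit 2) (.e (nat_lit 90174) (nat_lit 14) (.e (nat_lit 180251) (nat_lit 10) (.e (nat_lit 573489) (nat_lit 14) (.e (nat_lit 73754) (nat_lit 8) (.e (nat_lit 557093) (nat_lit 12) (.e (nat_lit 163857) (nat_lit 0) .nil)))))))) (.g (nat_lit 1) (.e (nat_lit 112186) (nat_lit 0) .nil) .nil)))) (.nd (nat_lit 9) 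
(.lf (nat_lit 480577) (.g (nat_lit 2565) (.e (nat_lit 5941) (nat_lit 322) (.e (nat_lit 57372) (nat_lit 2) (.e (nat_lit 90174) (nat_lit 14) (.e (nat_lit 180252) (nat_lit 10) (.e (nat_lit 573489) (nat_lit 14) .nil))))) (.g (nat_lit 0) (.e (nat_lit 111924) (nat_lit 0) .nil) .nil))) 
(.lf (nat_lit 481089) (.g (nat_lit 3852) (.e (nat_lit 5953) (nat_lit 322) (.e (nat_lit 57373) (nat_lit 2) (.e (nat_lit 90174) (nat_lit 14) (.e (nat_lit 180252) (nat_lit 10) (.e (nat_lit 573489) (nat_lit 14) (.e (nat_lit 73755) (nat_lit 8) (.e (nat_lit 557090) (nat_lit 12) (.e (nat_lit 163840) (nat_lit 0) .nil)))))))) (.g (nat_lit 1) (.e (nat_lit 112471) (nat_lit 0) .nil) .nil))))) 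
(.nd (nat_lit 8) (.nd (nat_lit 9) 
(.lf (nat_lit 480449) (.g (nat_lit 2205) (.e (nat_lit 5939) (nat_lit 322) (.e (nat_lit 57379) (nat_lit 3) (.e (nat_lit 98366) (nat_lit 27) (.e (nat_lit 434231) (nat_lit 23) (.e (nat_lit 532507) (nat_lit 2) (.e (nat_lit 106517) (nat_lit 9) (.e (nat_lit 1255) (nat_lit 92) (.e (nat_lit 98322) (nat_lit 17) (.e (nat_lit 2459) (nat_lit 157) .nil))))))))) (.g (nat_lit 1) (.e (nat_lit 111796) (nat_lit 0) .nil) .nil))) 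
(.lf (nat_lit 480961) (.g (nat_lit 3090) (.e (nat_lit 5949) (nat_lit 322) (.e (nat_lit 57378) (nat_lit 3) (.e (nat_lit 98367) (nat_lit 27) (.e (nat_lit 434247) (nat_lit 28) (.e (nat_lit 573489) (nat_lit 14) (.e (nat_lit 73755) (nat_lit 8) (.e (nat_lit 557091) (nat_lit 12) (.e (nat_lit 163856) (nat_lit 0) .nil)))))))) (.g (nat_lit 1) (.e (nat_lit 112317) (nat_lit 0) .nil) .nil)))) (.nd (nat_lit 9) 
(.lf (nat_lit 480705) (.g (nat_lit 3629) (.e (nat_lit 5943) (nat_lit 322) (.e (nat_lit 57379) (nat_lit 3) (.e (nat_lit 98367) (nat_lit 27) (.e (nat_lit 434245) (nat_lit 28) (.e (nat_lit 573488) (nat_lit 14) (.e (nat_lit 73755) (nat_lit 8) (.e (nat_lit 557090) (nat_lit 12) (.e (nat_lit 163844) (nat_lit 0) .nil)))))))) (.g (nat_lit 1) (.e (nat_lit 112055) (nat_lit 0) .nil) .nil))) 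
(.lf (nat_lit 481217) (.g (nat_lit 1754) (.e (nat_lit 5291) (nat_lit 298) (.e (nat_lit 1225) (nat_lit 91) (.e (nat_lit 90176) (nat_lit 15) (.e (nat_lit 188450) (nat_lit 23) (.e (nat_lit 204845) (nat_lit 24) .nil))))) (.g (nat_lit 0) (.e (nat_lit 112771) (nat_lit 0) .nil) .nil))))))) (.nd (nat_lit 6) (.nd (nat_lit 7) (.nd (nat_lit 8) (.nd (nat_lit 9) 
(.lf (nat_lit 480289) (.g (nat_lit 1995) (.e (nat_lit 5937) (nat_lit 322) (.e (nat_lit 57375) (nat_lit 2) (.e (nat_lit 90174) (nat_lit 14) (.e (nat_lit 180243) (nat_lit 5) (.e (nat_lit 532513) (nat_lit 3) (.e (nat_lit 114714) (nat_lit 22) (.e (nat_lit 90164) (nat_lit 12) (.e (nat_lit 171776) (nat_lit 0) .nil)))))))) (.g (nat_lit 1) (.e (nat_lit 111621) (nat_lit 0) .nil) .nil))) 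
(.lf (nat_lit 480801) (.g (nat_lit 2797) (.e (nat_lit 5946) (nat_lit 322) (.e (nat_lit 57378) (nat_lit 3) (.e (nat_lit 98365) (nat_lit 26) (.e (nat_lit 426327) (nat_lit 13) (.e (nat_lit 491264) (nat_lit 10) (.e (nat_lit 434216) (nat_lit 18) .nil)))))) (.g (nat_lit 1) (.e (nat_lit 112151) (nat_lit 0) .nil) .nil)))) (.nd (nat_lit 9) 
(.lf (nat_lit 480545) (.g (nat_lit 2439) (.e (nat_lit 5940) (nat_lit 322) (.e (nat_lit 57375) (nat_lit 2) (.e (nat_lit 90174) (nat_lit 14) (.e (nat_lit 180250) (nat_lit 10) (.e (nat_lit 573487) (nat_lit 14) .nil))))) (.g (nat_lit 0) (.e (nat_lit 111892) (nat_lit 0) .nil) .nil))) 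
(.lf (nat_lit 481057) (.g (nat_lit 2683) (.e (nat_lit 5952) (nat_lit 322) (.e (nat_lit 57373) (nat_lit 2) (.e (nat_lit 90174) (nat_lit 14) (.e (nat_lit 180250) (nat_lit 10) (.e (nat_lit 573489) (nat_lit 14) .nil))))) (.g (nat_lit 0) (.e (nat_lit 112439) (nat_lit 0) .nil) .nil))))) (.nd (nat_lit 8) (.nd (nat_lit 9) 
(.lf (nat_lit 480417) (.g (nat_lit 4588) (.e (nat_lit 5939) (nat_lit 322) (.e (nat_lit 57375) (nat_lit 2) (.e (nat_lit 90174) (nat_lit 14) (.e (nat_lit 180243) (nat_lit 5) (.e (nat_lit 532513) (nat_lit 3) (.e (nat_lit 114714) (nat_lit 22) (.e (nat_lit 90164) (nat_lit 12) (.e (nat_lit 163850) (nat_lit 0) .nil)))))))) (.g (nat_lit 1) (.e (nat_lit 111763) (nat_lit 0) .nil) .nil))) 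
(.lf (nat_lit 480929) (.g (nat_lit 2847) (.e (nat_lit 5949) (nat_lit 322) (.e (nat_lit 57373) (nat_lit 2) (.e (nat_lit 90172) (nat_lit 14) (.e (nat_lit 180250) (nat_lit 10) (.e (nat_lit 573489) (nat_lit 14) .nil))))) (.g (nat_lit 0) (.e (nat_lit 112285) (nat_lit 0) .nil) .nil)))) (.nd (nat_lit 9) 
(.lf (nat_lit 480673) (.g (nat_lit 2041) (.e (nat_lit 5943) (nat_lit 322) (.e (nat_lit 57375) (nat_lit 2) (.e (nat_lit 90174) (nat_lit 14) (.e (nat_lit 180243) (nat_lit 5) (.e (nat_lit 532513) (nat_lit 3) (.e (nat_lit 114714) (nat_lit 22) (.e (nat_lit 90181) (nat_lit 16) (.e (nat_lit 229376) (nat_lit 0) .nil)))))))) (.g (nat_lit 1) (.e (nat_lit 112022) (nat_lit 0) .nil) .nil))) 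
(.lf (nat_lit 481185) (.g (nat_lit 4178) (.e (nat_lit 5270) (nat_lit 298) (.e (nat_lit 1239) (nat_lit 91) (.e (nat_lit 90170) (nat_lit 13) (.e (nat_lit 172113) (nat_lit 10) (.e (nat_lit 434247) (nat_lit 28) (.e (nat_lit 573457) (nat_lit 9) (.e (nat_lit 7936) (nat_lit 30) (.e (nat_lit 409604) (nat_lit 0) .nil)))))))) (.g (nat_lit 1) (.e (nat_lit 112607) (nat_lit 0) .nil) .nil)))))) 
(.nd (nat_lit 7) (.nd (nat_lit 8) (.nd (nat_lit 9) 
(.lf (nat_lit 480353) (.g (nat_lit 1692) (.e (nat_lit 5937) (nat_lit 322) (.e (nat_lit 57410) (nat_lit 12) (.e (nat_lit 336208) (nat_lit 12) (.e (nat_lit 385103) (nat_lit 50) (.e (nat_lit 786481) (nat_lit 30) (.e (nat_lit 368384) (nat_lit 0) .nil)))))) (.g (nat_lit 1) (.e (nat_lit 111693) (nat_lit 0) .nil) .nil))) 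
(.lf (nat_lit 480865) (.g (nat_lit 4300) (.e (nat_lit 5948) (nat_lit 322) (.e (nat_lit 57373) (nat_lit 2) (.e (nat_lit 90174) (nat_lit 14) (.e (nat_lit 180243) (nat_lit 5) (.e (nat_lit 532513) (nat_lit 3) (.e (nat_lit 114719) (nat_lit 23) (.e (nat_lit 98325) (nat_lit 17) (.e (nat_lit 2515) (nat_lit 157) .nil)))))))) (.g (nat_lit 1) (.e (nat_lit 112219) (nat_lit 0) .nil) .nil)))) (.nd (nat_lit 9) 
(.lf (nat_lit 480609) (.g (nat_lit 2171) (.e (nat_lit 5942) (nat_lit 322) (.e (nat_lit 57375) (nat_lit 2) (.e (nat_lit 90173) (nat_lit 14) (.e (nat_lit 180252) (nat_lit 10) (.e (nat_lit 573489) (nat_lit 14) (.e (nat_lit 73755) (nat_lit 8) (.e (nat_lit 557090) (nat_lit 12) (.e (nat_lit 163845) (nat_lit 0) .nil)))))))) (.g (nat_lit 1) (.e (nat_lit 111958) (nat_lit 0) .nil) .nil))) 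
(.lf (nat_lit 481121) (.g (nat_lit 3330) (.e (nat_lit 5954) (nat_lit 322) (.e (nat_lit 57373) (nat_lit 2) (.e (nat_lit 90174) (nat_lit 14) (.e (nat_lit 180250) (nat_lit 10) (.e (nat_lit 573489) (nat_lit 14) (.e (nat_lit 73755) (nat_lit 8) (.e (nat_lit 557091) (nat_lit 12) (.e (nat_lit 163841) (nat_lit 0) .nil)))))))) (.g (nat_lit 1) (.e (nat_lit 112507) (nat_lit 0) .nil) .nil))))) 
(.nd (nat_lit 8) (.nd (nat_lit 9) 
(.lf (nat_lit 480481) (.g (nat_lit 2544) (.e (nat_lit 5939) (nat_lit 322) (.e (nat_lit 57379) (nat_lit 3) (.e (nat_lit 98367) (nat_lit 27) (.e (nat_lit 434231) (nat_lit 23) (.e (nat_lit 532514) (nat_lit 3) (.e (nat_lit 114716) (nat_lit 22) (.e (nat_lit 90163) (nat_lit 12) (.e (nat_lit 163850) (nat_lit 0) .nil)))))))) (.g (nat_lit 1) (.e (nat_lit 111828) (nat_lit 0) .nil) .nil))) 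
(.lf (nat_lit 480993) (.g (nat_lit 1936) (.e (nat_lit 5949) (nat_lit 322) (.e (nat_lit 57417) (nat_lit 12) (.e (nat_lit 336206) (nat_lit 12) (.e (nat_lit 385102) (nat_lit 50) (.e (nat_lit 786481) (nat_lit 30) (.e (nat_lit 360456) (nat_lit 0) .nil)))))) (.g (nat_lit 1) (.e (nat_lit 112360) (nat_lit 0) .nil) .nil)))) (.nd (nat_lit 9) 
(.lf (nat_lit 480737) (.g (nat_lit 3067) (.e (nat_lit 5944) (nat_lit 322) (.e (nat_lit 57378) (nat_lit 3) (.e (nat_lit 98367) (nat_lit 27) (.e (nat_lit 434248) (nat_lit 28) (.e (nat_lit 573489) (nat_lit 14) (.e (nat_lit 73755) (nat_lit 8) (.e (nat_lit 557090) (nat_lit 12) (.e (nat_lit 163855) (nat_lit 0) .nil)))))))) (.g (nat_lit 1) (.e (nat_lit 112087) (nat_lit 0) .nil) .nil))) 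
(.lf (nat_lit 481249) (.g (nat_lit 2959) (.e (nat_lit 5359) (nat_lit 298) (.e (nat_lit 403) (nat_lit 32) (.e (nat_lit 426340) (nat_lit 14) (.e (nat_lit 491571) (nat_lit 13) (.e (nat_lit 393260) (nat_lit 21) (.e (nat_lit 417536) (nat_lit 10) .nil)))))) (.g (nat_lit 1) (.e (nat_lit 112818) (nat_lit 0) .nil) .nil)))))))) 
(.nd (nat_lit 5) (.nd (nat_lit 6) (.nd (nat_lit 7) (.nd (nat_lit 8) (.nd (nat_lit 9) 
(.lf (nat_lit 480273) (.g (nat_lit 3980) (.e (nat_lit 5937) (nat_lit 322) (.e (nat_lit 57373) (nat_lit 2) (.e (nat_lit 90174) (nat_lit 14) (.e (nat_lit 180243) (nat_lit 5) (.e (nat_lit 532513) (nat_lit 3) (.e (nat_lit 114714) (nat_lit 22) (.e (nat_lit 90165) (nat_lit 12) (.e (nat_lit 171776) (nat_lit 0) .nil)))))))) (.g (nat_lit 1) (.e (nat_lit 111605) (nat_lit 0) .nil) .nil))) 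
(.lf (nat_lit 480785) (.g (nat_lit 2547) (.e (nat_lit 5946) (nat_lit 322) (.e (nat_lit 57373) (nat_lit 2) (.e (nat_lit 90174) (nat_lit 14) (.e (nat_lit 180250) (nat_lit 10) (.e (nat_lit 573489) (nat_lit 14) .nil))))) (.g (nat_lit 0) (.e (nat_lit 112135) (nat_lit 0) .nil) .nil)))) (.nd (nat_lit 9) 
(.lf (nat_lit 480529) (.g (nat_lit 3669) (.e (nat_lit 5940) (nat_lit 322) (.e (nat_lit 57373) (nat_lit 2) (.e (nat_lit 90174) (nat_lit 14) (.e (nat_lit 180251) (nat_lit 10) (.e (nat_lit 573489) (nat_lit 14) (.e (nat_lit 73755) (nat_lit 8) (.e (nat_lit 557091) (nat_lit 12) (.e (nat_lit 163841) (nat_lit 0) .nil)))))))) (.g (nat_lit 1) (.e (nat_lit 111876) (nat_lit 0) .nil) .nil))) 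
(.lf (nat_lit 481041) (.g (nat_lit 2629) (.e (nat_lit 5951) (nat_lit 322) (.e (nat_lit 57371) (nat_lit 2) (.e (nat_lit 90174) (nat_lit 14) (.e (nat_lit 180252) (nat_lit 10) (.e (nat_lit 573489) (nat_lit 14) .nil))))) (.g (nat_lit 0) (.e (nat_lit 112423) (nat_lit 0) .nil) .nil))))) (.nd (nat_lit 8) (.nd (nat_lit 9) 
(.lf (nat_lit 480401) (.g (nat_lit 3125) (.e (nat_lit 5939) (nat_lit 322) (.e (nat_lit 57372) (nat_lit 2) (.e (nat_lit 90174) (nat_lit 14) (.e (nat_lit 180243) (nat_lit 5) (.e (nat_lit 532515) (nat_lit 3) (.e (nat_lit 114716) (nat_lit 22) (.e (nat_lit 90181) (nat_lit 16) (.e (nat_lit 229378) (nat_lit 0) .nil)))))))) (.g (nat_lit 1) (.e (nat_lit 111747) (nat_lit 0) .nil) .nil))) 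
(.lf (nat_lit 480913) (.g (nat_lit 2081) (.e (nat_lit 5949) (nat_lit 322) (.e (nat_lit 57350) (nat_lit 0) (.e (nat_lit 6113) (nat_lit 332) (.e (nat_lit 2810) (nat_lit 180) (.e (nat_lit 303145) (nat_lit 13) (.e (nat_lit 483396) (nat_lit 24) (.e (nat_lit 344104) (nat_lit 18) .nil))))))) (.g (nat_lit 1) (.e (nat_lit 112269) (nat_lit 0) .nil) .nil)))) (.nd (nat_lit 9) 
(.lf (nat_lit 480657) (.g (nat_lit 3141) (.e (nat_lit 5943) (nat_lit 322) (.e (nat_lit 57374) (nat_lit 2) (.e (nat_lit 90173) (nat_lit 14) (.e (nat_lit 180252) (nat_lit 10) (.e (nat_lit 573489) (nat_lit 14) (.e (nat_lit 73755) (nat_lit 8) (.e (nat_lit 557090) (nat_lit 12) (.e (nat_lit 163843) (nat_lit 0) .nil)))))))) (.g (nat_lit 1) (.e (nat_lit 112006) (nat_lit 0) .nil) .nil))) 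
(.lf (nat_lit 481169) (.g (nat_lit 3412) (.e (nat_lit 5270) (nat_lit 298) (.e (nat_lit 1239) (nat_lit 91) (.e (nat_lit 90170) (nat_lit 13) (.e (nat_lit 172113) (nat_lit 10) (.e (nat_lit 434245) (nat_lit 28) (.e (nat_lit 573450) (nat_lit 9) (.e (nat_lit 362) (nat_lit 30) (.e (nat_lit 409604) (nat_lit 0) .nil)))))))) (.g (nat_lit 1) (.e (nat_lit 112591) (nat_lit 0) .nil) .nil)))))) 
(.nd (nat_lit 7) (.nd (nat_lit 8) (.nd (nat_lit 9) 
(.lf (nat_lit 480337) (.g (nat_lit 2521) (.e (nat_lit 5937) (nat_lit 322) (.e (nat_lit 57379) (nat_lit 3) (.e (nat_lit 98366) (nat_lit 27) (.e (nat_lit 434231) (nat_lit 23) (.e (nat_lit 532507) (nat_lit 2) (.e (nat_lit 106517) (nat_lit 9) (.e (nat_lit 1255) (nat_lit 92) (.e (nat_lit 98321) (nat_lit 17) (.e (nat_lit 2464) (nat_lit 157) .nil))))))))) (.g (nat_lit 1) (.e (nat_lit 111673) (nat_lit 0) .nil) .nil))) 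
(.lf (nat_lit 480849) (.g (nat_lit 4513) (.e (nat_lit 5948) (nat_lit 322) (.e (nat_lit 57371) (nat_lit 2) (.e (nat_lit 90174) (nat_lit 14) (.e (nat_lit 180243) (nat_lit 5) (.e (nat_lit 532513) (nat_lit 3) (.e (nat_lit 114719) (nat_lit 23) (.e (nat_lit 98325) (nat_lit 17) (.e (nat_lit 2515) (nat_lit 157) .nil)))))))) (.g (nat_lit 1) (.e (nat_lit 112203) (nat_lit 0) .nil) .nil)))) (.nd (nat_lit 9) 
(.lf (nat_lit 480593) (.g (nat_lit 1394) (.e (nat_lit 5941) (nat_lit 322) (.e (nat_lit 57436) (nat_lit 17) (.e (nat_lit 376835) (nat_lit 0) (.e (nat_lit 3746) (nat_lit 228) (.e (nat_lit 786483) (nat_lit 30) (.e (nat_lit 368384) (nat_lit 0) .nil)))))) (.g (nat_lit 1) (.e (nat_lit 111941) (nat_lit 0) .nil) .nil))) 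
(.lf (nat_lit 481105) (.g (nat_lit 2188) (.e (nat_lit 5954) (nat_lit 322) (.e (nat_lit 57371) (nat_lit 2) (.e (nat_lit 90173) (nat_lit 14) (.e (nat_lit 180252) (nat_lit 10) (.e (nat_lit 573489) (nat_lit 14) (.e (nat_lit 73755) (nat_lit 8) (.e (nat_lit 557090) (nat_lit 12) (.e (nat_lit 163840) (nat_lit 0) .nil)))))))) (.g (nat_lit 1) (.e (nat_lit 112491) (nat_lit 0) .nil) .nil))))) 
(.nd (nat_lit 8) (.nd (nat_lit 9) 
(.lf (nat_lit 480465) (.g (nat_lit 3728) (.e (nat_lit 5939) (nat_lit 322) (.e (nat_lit 57379) (nat_lit 3) (.e (nat_lit 98366) (nat_lit 27) (.e (nat_lit 434231) (nat_lit 23) (.e (nat_lit 532514) (nat_lit 3) (.e (nat_lit 114716) (nat_lit 22) (.e (nat_lit 90181) (nat_lit 16) (.e (nat_lit 229378) (nat_lit 0) .nil)))))))) (.g (nat_lit 1) (.e (nat_lit 111812) (nat_lit 0) .nil) .nil))) 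
(.lf (nat_lit 480977) (.g (nat_lit 2088) (.e (nat_lit 5949) (nat_lit 322) (.e (nat_lit 57409) (nat_lit 12) (.e (nat_lit 336443) (nat_lit 32) (.e (nat_lit 466974) (nat_lit 22) (.e (nat_lit 196654) (nat_lit 11) (.e (nat_lit 16386) (nat_lit 0) (.e (nat_lit 2504) (nat_lit 157) .nil))))))) (.g (nat_lit 1) (.e (nat_lit 112344) (nat_lit 0) .nil) .nil)))) (.nd (nat_lit 9) 
(.lf (nat_lit 480721) (.g (nat_lit 4124) (.e (nat_lit 5944) (nat_lit 322) (.e (nat_lit 57373) (nat_lit 2) (.e (nat_lit 90174) (nat_lit 14) (.e (nat_lit 180243) (nat_lit 5) (.e (nat_lit 532513) (nat_lit 3) (.e (nat_lit 114714) (nat_lit 22) (.e (nat_lit 90165) (nat_lit 12) (.e (nat_lit 163855) (nat_lit 0) .nil)))))))) (.g (nat_lit 1) (.e (nat_lit 112071) (nat_lit 0) .nil) .nil))) 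
(.lf (nat_lit 481233) (.g (nat_lit 3315) (.e (nat_lit 5293) (nat_lit 298) (.e (nat_lit 1250) (nat_lit 92) (.e (nat_lit 98373) (nat_lit 29) (.e (nat_lit 450587) (nat_lit 10) (.e (nat_lit 573448) (nat_lit 9) (.e (nat_lit 359) (nat_lit 30) (.e (nat_lit 409603) (nat_lit 0) .nil))))))) (.g (nat_lit 1) (.e (nat_lit 112791) (nat_lit 0) .nil) .nil))))))) 
(.nd (nat_lit 6) (.nd (nat_lit 7) (.nd (nat_lit 8) (.nd (nat_lit 9) 
(.lf (nat_lit 480305) (.g (nat_lit 2285) (.e (nat_lit 5937) (nat_lit 322) (.e (nat_lit 57378) (nat_lit 3) (.e (nat_lit 98358) (nat_lit 26) (.e (nat_lit 426131) (nat_lit 3) (.e (nat_lit 204838) (nat_lit 20) .nil))))) (.g (nat_lit 0) (.e (nat_lit 111641) (nat_lit 0) .nil) .nil))) 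
(.lf (nat_lit 480817) (.g (nat_lit 2850) (.e (nat_lit 5947) (nat_lit 322) (.e (nat_lit 57371) (nat_lit 2) (.e (nat_lit 90172) (nat_lit 14) (.e (nat_lit 180250) (nat_lit 10) (.e (nat_lit 573487) (nat_lit 14) (.e (nat_lit 73753) (nat_lit 8) (.e (nat_lit 557093) (nat_lit 12) (.e (nat_lit 163857) (nat_lit 0) .nil)))))))) (.g (nat_lit 1) (.e (nat_lit 112170) (nat_lit 0) .nil) .nil)))) (.nd (nat_lit 9) 
(.lf (nat_lit 480561) (.g (nat_lit 4547) (.e (nat_lit 5940) (nat_lit 322) (.e (nat_lit 57379) (nat_lit 3) (.e (nat_lit 98367) (nat_lit 27) (.e (nat_lit 434247) (nat_lit 28) (.e (nat_lit 573489) (nat_lit 14) (.e (nat_lit 73755) (nat_lit 8) (.e (nat_lit 557090) (nat_lit 12) (.e (nat_lit 163843) (nat_lit 0) .nil)))))))) (.g (nat_lit 1) (.e (nat_lit 111908) (nat_lit 0) .nil) .nil))) 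
(.lf (nat_lit 481073) (.g (nat_lit 3851) (.e (nat_lit 5953) (nat_lit 322) (.e (nat_lit 57373) (nat_lit 2) (.e (nat_lit 90174) (nat_lit 14) (.e (nat_lit 180243) (nat_lit 5) (.e (nat_lit 532513) (nat_lit 3) (.e (nat_lit 114714) (nat_lit 22) (.e (nat_lit 90165) (nat_lit 12) (.e (nat_lit 171776) (nat_lit 0) .nil)))))))) (.g (nat_lit 1) (.e (nat_lit 112455) (nat_lit 0) .nil) .nil))))) 
(.nd (nat_lit 8) (.nd (nat_lit 9) 
(.lf (nat_lit 480433) (.g (nat_lit 5357) (.e (nat_lit 5939) (nat_lit 322) (.e (nat_lit 57375) (nat_lit 2) (.e (nat_lit 90174) (nat_lit 14) (.e (nat_lit 180251) (nat_lit 10) (.e (nat_lit 573489) (nat_lit 14) (.e (nat_lit 73755) (nat_lit 8) (.e (nat_lit 557090) (nat_lit 12) (.e (nat_lit 163850) (nat_lit 0) .nil)))))))) (.g (nat_lit 1) (.e (nat_lit 111779) (nat_lit 0) .nil) .nil))) 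
(.lf (nat_lit 480945) (.g (nat_lit 3803) (.e (nat_lit 5949) (nat_lit 322) (.e (nat_lit 57373) (nat_lit 2) (.e (nat_lit 90174) (nat_lit 14) (.e (nat_lit 180250) (nat_lit 10) (.e (nat_lit 573487) (nat_lit 14) (.e (nat_lit 73753) (nat_lit 8) (.e (nat_lit 557093) (nat_lit 12) (.e (nat_lit 163857) (nat_lit 0) .nil)))))))) (.g (nat_lit 1) (.e (nat_lit 112301) (nat_lit 0) .nil) .nil)))) (.nd (nat_lit 9) 
(.lf (nat_lit 480689) (.g (nat_lit 2411) (.e (nat_lit 5943) (nat_lit 322) (.e (nat_lit 57375) (nat_lit 2) (.e (nat_lit 90174) (nat_lit 14) (.e (nat_lit 180252) (nat_lit 10) (.e (nat_lit 573489) (nat_lit 14) (.e (nat_lit 73755) (nat_lit 8) (.e (nat_lit 557090) (nat_lit 12) (.e (nat_lit 163840) (nat_lit 0) .nil)))))))) (.g (nat_lit 1) (.e (nat_lit 112038) (nat_lit 0) .nil) .nil))) 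
(.lf (nat_lit 481201) (.g (nat_lit 1674) (.e (nat_lit 5271) (nat_lit 298) (.e (nat_lit 1239) (nat_lit 91) (.e (nat_lit 90170) (nat_lit 13) (.e (nat_lit 172113) (nat_lit 10) (.e (nat_lit 434242) (nat_lit 28) .nil))))) (.g (nat_lit 0) (.e (nat_lit 112625) (nat_lit 0) .nil) .nil)))))) (.nd (nat_lit 7) (.nd (nat_lit 8) (.nd (nat_lit 9) 
(.lf (nat_lit 480369) (.g (nat_lit 2350) (.e (nat_lit 5937) (nat_lit 322) (.e (nat_lit 57451) (nat_lit 20) (.e (nat_lit 401451) (nat_lit 12) (.e (nat_lit 475207) (nat_lit 41) (.e (nat_lit 712755) (nat_lit 30) (.e (nat_lit 450560) (nat_lit 0) .nil)))))) (.g (nat_lit 1) (.e (nat_lit 111715) (nat_lit 0) .nil) .nil))) 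
(.lf (nat_lit 480881) (.g (nat_lit 2564) (.e (nat_lit 5948) (nat_lit 322) (.e (nat_lit 57378) (nat_lit 3) (.e (nat_lit 98365) (nat_lit 26) (.e (nat_lit 426327) (nat_lit 13) (.e (nat_lit 491264) (nat_lit 10) (.e (nat_lit 434216) (nat_lit 18) .nil)))))) (.g (nat_lit 1) (.e (nat_lit 112236) (nat_lit 0) .nil) .nil)))) (.nd (nat_lit 9) 
(.lf (nat_lit 480625) (.g (nat_lit 5697) (.e (nat_lit 5943) (nat_lit 322) (.e (nat_lit 57372) (nat_lit 2) (.e (nat_lit 90172) (nat_lit 14) (.e (nat_lit 180250) (nat_lit 10) (.e (nat_lit 573489) (nat_lit 14) (.e (nat_lit 73755) (nat_lit 8) (.e (nat_lit 557090) (nat_lit 12) (.e (nat_lit 163844) (nat_lit 0) .nil)))))))) (.g (nat_lit 1) (.e (nat_lit 111974) (nat_lit 0) .nil) .nil))) 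
(.lf (nat_lit 481137) (.g (nat_lit 884) (.e (nat_lit 5954) (nat_lit 322) (.e (nat_lit 57424) (nat_lit 14) (.e (nat_lit 352262) (nat_lit 0) .nil))) (.g (nat_lit 0) (.e (nat_lit 112523) (nat_lit 0) .nil) .nil))))) (.nd (nat_lit 8) (.nd (nat_lit 9) 
(.lf (nat_lit 480497) (.g (nat_lit 2408) (.e (nat_lit 5939) (nat_lit 322) (.e (nat_lit 57379) (nat_lit 3) (.e (nat_lit 98368) (nat_lit 27) (.e (nat_lit 434245) (nat_lit 28) (.e (nat_lit 573488) (nat_lit 14) (.e (nat_lit 73755) (nat_lit 8) (.e (nat_lit 557111) (nat_lit 16) (.e (nat_lit 229379) (nat_lit 0) .nil)))))))) (.g (nat_lit 1) (.e (nat_lit 111844) (nat_lit 0) .nil) .nil))) 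
(.lf (nat_lit 481009) (.g (nat_lit 2406) (.e (nat_lit 5949) (nat_lit 322) (.e (nat_lit 57436) (nat_lit 17) (.e (nat_lit 376860) (nat_lit 21) (.e (nat_lit 57930) (nat_lit 282) (.e (nat_lit 163842) (nat_lit 0) (.e (nat_lit 7593) (nat_lit 407) (.e (nat_lit 73736) (nat_lit 0) .nil))))))) (.g (nat_lit 1) (.e (nat_lit 112389) (nat_lit 0) .nil) .nil)))) (.nd (nat_lit 9) 
(.lf (nat_lit 480753) (.g (nat_lit 1763) (.e (nat_lit 5945) (nat_lit 322) (.e (nat_lit 57371) (nat_lit 2) (.e (nat_lit 90174) (nat_lit 14) (.e (nat_lit 180251) (nat_lit 10) (.e (nat_lit 573489) (nat_lit 14) .nil))))) (.g (nat_lit 0) (.e (nat_lit 112103) (nat_lit 0) .nil) .nil))) 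
(.lf (nat_lit 481265) (.g (nat_lit 2556) (.e (nat_lit 5383) (nat_lit 300) (.e (nat_lit 16469) (nat_lit 14) (.e (nat_lit 491571) (nat_lit 13) (.e (nat_lit 393238) (nat_lit 17) .nil)))) (.g (nat_lit 0) (.e (nat_lit 112868) (nat_lit 0) .nil) .nil))))))))) (.nd (nat_lit 4) (.nd (nat_lit 5) (.nd (nat_lit 6) (.nd (nat_lit 7) (.nd (nat_lit 8) (.nd (nat_lit 9) 
(.lf (nat_lit 480265) (.g (nat_lit 2024) (.e (nat_lit 5937) (nat_lit 322) (.e (nat_lit 57372) (nat_lit 2) (.e (nat_lit 90173) (nat_lit 14) (.e (nat_lit 180252) (nat_lit 10) (.e (nat_lit 573489) (nat_lit 14) .nil))))) (.g (nat_lit 0) (.e (nat_lit 111597) (nat_lit 0) .nil) .nil))) 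
(.lf (nat_lit 480777) (.g (nat_lit 3391) (.e (nat_lit 5946) (nat_lit 322) (.e (nat_lit 57373) (nat_lit 2) (.e (nat_lit 90173) (nat_lit 14) (.e (nat_lit 180252) (nat_lit 10) (.e (nat_lit 573489) (nat_lit 14) (.e (nat_lit 73755) (nat_lit 8) (.e (nat_lit 557090) (nat_lit 12) (.e (nat_lit 163840) (nat_lit 0) .nil)))))))) (.g (nat_lit 1) (.e (nat_lit 112127) (nat_lit 0) .nil) .nil)))) (.nd (nat_lit 9) 
(.lf (nat_lit 480521) (.g (nat_lit 3073) (.e (nat_lit 5940) (nat_lit 322) (.e (nat_lit 57372) (nat_lit 2) (.e (nat_lit 90174) (nat_lit 14) (.e (nat_lit 180250) (nat_lit 10) (.e (nat_lit 573489) (nat_lit 14) (.e (nat_lit 73755) (nat_lit 8) (.e (nat_lit 557090) (nat_lit 12) (.e (nat_lit 163843) (nat_lit 0) .nil)))))))) (.g (nat_lit 1) (.e (nat_lit 111868) (nat_lit 0) .nil) .nil))) 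
(.lf (nat_lit 481033) (.g (nat_lit 2198) (.e (nat_lit 5951) (nat_lit 322) (.e (nat_lit 57371) (nat_lit 2) (.e (nat_lit 90174) (nat_lit 14) (.e (nat_lit 180243) (nat_lit 5) (.e (nat_lit 532513) (nat_lit 3) .nil))))) (.g (nat_lit 0) (.e (nat_lit 112415) (nat_lit 0) .nil) .nil))))) (.nd (nat_lit 8) (.nd (nat_lit 9) 
(.lf (nat_lit 480393) (.g (nat_lit 2602) (.e (nat_lit 5939) (nat_lit 322) (.e (nat_lit 57372) (nat_lit 2) (.e (nat_lit 90174) (nat_lit 14) (.e (nat_lit 180243) (nat_lit 5) (.e (nat_lit 532513) (nat_lit 3) (.e (nat_lit 114714) (nat_lit 22) (.e (nat_lit 90182) (nat_lit 16) (.e (nat_lit 229379) (nat_lit 0) .nil)))))))) (.g (nat_lit 1) (.e (nat_lit 111739) (nat_lit 0) .nil) .nil))) 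
(.lf (nat_lit 480905) (.g (nat_lit 688) (.e (nat_lit 5948) (nat_lit 322) (.e (nat_lit 57424) (nat_lit 14) (.e (nat_lit 352262) (nat_lit 0) .nil))) (.g (nat_lit 0) (.e (nat_lit 112260) (nat_lit 0) .nil) .nil)))) (.nd (nat_lit 9) 
(.lf (nat_lit 480649) (.g (nat_lit 4516) (.e (nat_lit 5943) (nat_lit 322) (.e (nat_lit 57372) (nat_lit 2) (.e (nat_lit 90174) (nat_lit 14) (.e (nat_lit 180252) (nat_lit 10) (.e (nat_lit 573489) (nat_lit 14) (.e (nat_lit 73755) (nat_lit 8) (.e (nat_lit 557090) (nat_lit 12) (.e (nat_lit 163844) (nat_lit 0) .nil)))))))) (.g (nat_lit 1) (.e (nat_lit 111998) (nat_lit 0) .nil) .nil))) 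
(.lf (nat_lit 481161) (.g (nat_lit 3702) (.e (nat_lit 5270) (nat_lit 298) (.e (nat_lit 1239) (nat_lit 91) (.e (nat_lit 90170) (nat_lit 13) (.e (nat_lit 172106) (nat_lit 10) (.e (nat_lit 434244) (nat_lit 28) (.e (nat_lit 573451) (nat_lit 9) (.e (nat_lit 7936) (nat_lit 30) (.e (nat_lit 409604) (nat_lit 0) .nil)))))))) (.g (nat_lit 1) (.e (nat_lit 112583) (nat_lit 0) .nil) .nil)))))) 
(.nd (nat_lit 7) (.nd (nat_lit 8) (.nd (nat_lit 9) 
(.lf (nat_lit 480329) (.g (nat_lit 2517) (.e (nat_lit 5937) (nat_lit 322) (.e (nat_lit 57378) (nat_lit 3) (.e (nat_lit 98368) (nat_lit 27) (.e (nat_lit 434248) (nat_lit 28) (.e (nat_lit 573487) (nat_lit 14) (.e (nat_lit 73753) (nat_lit 8) (.e (nat_lit 557091) (nat_lit 12) (.e (nat_lit 163840) (nat_lit 0) .nil)))))))) (.g (nat_lit 1) (.e (nat_lit 111665) (nat_lit 0) .nil) .nil))) 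
(.lf (nat_lit 480841) (.g (nat_lit 3493) (.e (nat_lit 5947) (nat_lit 322) (.e (nat_lit 57412) (nat_lit 12) (.e (nat_lit 336226) (nat_lit 14) (.e (nat_lit 401437) (nat_lit 9) (.e (nat_lit 426544) (nat_lit 30) (.e (nat_lit 360457) (nat_lit 0) .nil)))))) (.g (nat_lit 1) (.e (nat_lit 112194) (nat_lit 0) .nil) .nil)))) (.nd (nat_lit 9) 
(.lf (nat_lit 480585) (.g (nat_lit 2872) (.e (nat_lit 5941) (nat_lit 322) (.e (nat_lit 57374) (nat_lit 2) (.e (nat_lit 90173) (nat_lit 14) (.e (nat_lit 180252) (nat_lit 10) (.e (nat_lit 573489) (nat_lit 14) (.e (nat_lit 73755) (nat_lit 8) (.e (nat_lit 557090) (nat_lit 12) (.e (nat_lit 163844) (nat_lit 0) .nil)))))))) (.g (nat_lit 1) (.e (nat_lit 111932) (nat_lit 0) .nil) .nil))) 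
(.lf (nat_lit 481097) (.g (nat_lit 2942) (.e (nat_lit 5953) (nat_lit 322) (.e (nat_lit 57378) (nat_lit 3) (.e (nat_lit 98367) (nat_lit 27) (.e (nat_lit 434248) (nat_lit 28) (.e (nat_lit 573489) (nat_lit 14) (.e (nat_lit 73755) (nat_lit 8) (.e (nat_lit 557090) (nat_lit 12) (.e (nat_lit 163852) (nat_lit 0) .nil)))))))) (.g (nat_lit 1) (.e (nat_lit 112479) (nat_lit 0) .nil) .nil))))) 
(.nd (nat_lit 8) (.nd (nat_lit 9) 
(.lf (nat_lit 480457) (.g (nat_lit 3067) (.e (nat_lit 5939) (nat_lit 322) (.e (nat_lit 57379) (nat_lit 3) (.e (nat_lit 98366) (nat_lit 27) (.e (nat_lit 434231) (nat_lit 23) (.e (nat_lit 532513) (nat_lit 3) (.e (nat_lit 114714) (nat_lit 22) (.e (nat_lit 90181) (nat_lit 16) (.e (nat_lit 229378) (nat_lit 0) .nil)))))))) (.g (nat_lit 1) (.e (nat_lit 111804) (nat_lit 0) .nil) .nil))) 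
(.lf (nat_lit 480969) (.g (nat_lit 4551) (.e (nat_lit 5949) (nat_lit 322) (.e (nat_lit 57389) (nat_lit 5) (.e (nat_lit 114712) (nat_lit 21) (.e (nat_lit 57930) (nat_lit 282) (.e (nat_lit 163923) (nat_lit 15) (.e (nat_lit 450587) (nat_lit 10) (.e (nat_lit 573478) (nat_lit 12) (.e (nat_lit 57360) (nat_lit 0) .nil)))))))) (.g (nat_lit 1) (.e (nat_lit 112327) (nat_lit 0) .nil) .nil)))) 
(.nd (nat_lit 9) 
(.lf (nat_lit 480713) (.g (nat_lit 4715) (.e (nat_lit 5943) (nat_lit 322) (.e (nat_lit 57379) (nat_lit 3) (.e (nat_lit 98368) (nat_lit 27) (.e (nat_lit 434247) (nat_lit 28) (.e (nat_lit 573489) (nat_lit 14) (.e (nat_lit 73755) (nat_lit 8) (.e (nat_lit 557090) (nat_lit 12) (.e (nat_lit 163844) (nat_lit 0) .nil)))))))) (.g (nat_lit 1) (.e (nat_lit 112063) (nat_lit 0) .nil) .nil))) 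
(.lf (nat_lit 481225) (.g (nat_lit 3234) (.e (nat_lit 5293) (nat_lit 298) (.e (nat_lit 1232) (nat_lit 91) (.e (nat_lit 90170) (nat_lit 13) (.e (nat_lit 172113) (nat_lit 10) (.e (nat_lit 434247) (nat_lit 28) (.e (nat_lit 573457) (nat_lit 9) (.e (nat_lit 359) (nat_lit 30) (.e (nat_lit 409603) (nat_lit 0) .nil)))))))) (.g (nat_lit 1) (.e (nat_lit 112783) (nat_lit 0) .nil) .nil))))))) 
(.nd (nat_lit 6) (.nd (nat_lit 7) (.nd (nat_lit 8) (.nd (nat_lit 9) 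
(.lf (nat_lit 480297) (.g (nat_lit 2394) (.e (nat_lit 5937) (nat_lit 322) (.e (nat_lit 57375) (nat_lit 2) (.e (nat_lit 90174) (nat_lit 14) (.e (nat_lit 180252) (nat_lit 10) (.e (nat_lit 573489) (nat_lit 14) .nil))))) (.g (nat_lit 0) (.e (nat_lit 111629) (nat_lit 0) .nil) .nil))) 
(.lf (nat_lit 480809) (.g (nat_lit 2530) (.e (nat_lit 5946) (nat_lit 322) (.e (nat_lit 57409) (nat_lit 12) (.e (nat_lit 336443) (nat_lit 32) (.e (nat_lit 466977) (nat_lit 22) (.e (nat_lit 196654) (nat_lit 11) .nil))))) (.g (nat_lit 0) (.e (nat_lit 112159) (nat_lit 0) .nil) .nil)))) (.nd (nat_lit 9) 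
(.lf (nat_lit 480553) (.g (nat_lit 5498) (.e (nat_lit 5940) (nat_lit 322) (.e (nat_lit 57375) (nat_lit 2) (.e (nat_lit 90174) (nat_lit 14) (.e (nat_lit 180251) (nat_lit 10) (.e (nat_lit 573489) (nat_lit 14) (.e (nat_lit 73755) (nat_lit 8) (.e (nat_lit 557090) (nat_lit 12) (.e (nat_lit 163844) (nat_lit 0) .nil)))))))) (.g (nat_lit 1) (.e (nat_lit 111900) (nat_lit 0) .nil) .nil))) 
(.lf (nat_lit 481065) (.g (nat_lit 3944) (.e (nat_lit 5953) (nat_lit 322) (.e (nat_lit 57371) (nat_lit 2) (.e (nat_lit 90174) (nat_lit 14) (.e (nat_lit 180251) (nat_lit 10) (.e (nat_lit 573489) (nat_lit 14) (.e (nat_lit 73755) (nat_lit 8) (.e (nat_lit 557091) (nat_lit 12) (.e (nat_lit 163852) (nat_lit 0) .nil)))))))) (.g (nat_lit 1) (.e (nat_lit 112447) (nat_lit 0) .nil) .nil))))) 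
(.nd (nat_lit 8) (.nd (nat_lit 9) 
(.lf (nat_lit 480425) (.g (nat_lit 3563) (.e (nat_lit 5939) (nat_lit 322) (.e (nat_lit 57375) (nat_lit 2) (.e (nat_lit 90174) (nat_lit 14) (.e (nat_lit 180243) (nat_lit 5) (.e (nat_lit 532515) (nat_lit 3) (.e (nat_lit 114716) (nat_lit 22) (.e (nat_lit 90181) (nat_lit 16) (.e (nat_lit 229376) (nat_lit 0) .nil)))))))) (.g (nat_lit 1) (.e (nat_lit 111771) (nat_lit 0) .nil) .nil))) 
(.lf (nat_lit 480937) (.g (nat_lit 2638) (.e (nat_lit 5949) (nat_lit 322) (.e (nat_lit 57373) (nat_lit 2) (.e (nat_lit 90174) (nat_lit 14) (.e (nat_lit 180243) (nat_lit 5) (.e (nat_lit 532513) (nat_lit 3) (.e (nat_lit 114714) (nat_lit 22) (.e (nat_lit 90165) (nat_lit 12) (.e (nat_lit 171776) (nat_lit 0) .nil)))))))) (.g (nat_lit 1) (.e (nat_lit 112293) (nat_lit 0) .nil) .nil)))) (.nd (nat_lit 9) 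
(.lf (nat_lit 480681) (.g (nat_lit 2655) (.e (nat_lit 5943) (nat_lit 322) (.e (nat_lit 57375) (nat_lit 2) (.e (nat_lit 90174) (nat_lit 14) (.e (nat_lit 180251) (nat_lit 10) (.e (nat_lit 573489) (nat_lit 14) (.e (nat_lit 73755) (nat_lit 8) (.e (nat_lit 557089) (nat_lit 12) (.e (nat_lit 163841) (nat_lit 0) .nil)))))))) (.g (nat_lit 1) (.e (nat_lit 112030) (nat_lit 0) .nil) .nil))) 
(.lf (nat_lit 481193) (.g (nat_lit 3772) (.e (nat_lit 5270) (nat_lit 298) (.e (nat_lit 1239) (nat_lit 91) (.e (nat_lit 90170) (nat_lit 13) (.e (nat_lit 172113) (nat_lit 10) (.e (nat_lit 434248) (nat_lit 28) (.e (nat_lit 573452) (nat_lit 9) (.e (nat_lit 7936) (nat_lit 30) (.e (nat_lit 409603) (nat_lit 0) .nil)))))))) (.g (nat_lit 1) (.e (nat_lit 112615) (nat_lit 0) .nil) .nil)))))) 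
(.nd (nat_lit 7) (.nd (nat_lit 8) (.nd (nat_lit 9) 
(.lf (nat_lit 480361) (.g (nat_lit 1990) (.e (nat_lit 5937) (nat_lit 322) (.e (nat_lit 57435) (nat_lit 17) (.e (nat_lit 376835) (nat_lit 0) (.e (nat_lit 3746) (nat_lit 228) (.e (nat_lit 786481) (nat_lit 30) (.e (nat_lit 368384) (nat_lit 0) .nil)))))) (.g (nat_lit 1) (.e (nat_lit 111706) (nat_lit 0) .nil) .nil))) 
(.lf (nat_lit 480873) (.g (nat_lit 3807) (.e (nat_lit 5948) (nat_lit 322) (.e (nat_lit 57373) (nat_lit 2) (.e (nat_lit 90174) (nat_lit 14) (.e (nat_lit 180251) (nat_lit 10) (.e (nat_lit 573489) (nat_lit 14) (.e (nat_lit 73755) (nat_lit 8) (.e (nat_lit 557091) (nat_lit 12) (.e (nat_lit 163856) (nat_lit 0) .nil)))))))) (.g (nat_lit 1) (.e (nat_lit 112227) (nat_lit 0) .nil) .nil)))) (.nd (nat_lit 9) 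
(.lf (nat_lit 480617) (.g (nat_lit 2753) (.e (nat_lit 5942) (nat_lit 322) (.e (nat_lit 57378) (nat_lit 3) (.e (nat_lit 98367) (nat_lit 27) (.e (nat_lit 434247) (nat_lit 28) (.e (nat_lit 573489) (nat_lit 14) (.e (nat_lit 73755) (nat_lit 8) (.e (nat_lit 557090) (nat_lit 12) (.e (nat_lit 163844) (nat_lit 0) .nil)))))))) (.g (nat_lit 1) (.e (nat_lit 111966) (nat_lit 0) .nil) .nil))) 
(.lf (nat_lit 481129) (.g (nat_lit 2075) (.e (nat_lit 5954) (nat_lit 322) (.e (nat_lit 57409) (nat_lit 12) (.e (nat_lit 336443) (nat_lit 32) (.e (nat_lit 466974) (nat_lit 22) .nil)))) (.g (nat_lit 0) (.e (nat_lit 112515) (nat_lit 0) .nil) .nil))))) (.nd (nat_lit 8) (.nd (nat_lit 9) 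
(.lf (nat_lit 480489) (.g (nat_lit 2098) (.e (nat_lit 5939) (nat_lit 322) (.e (nat_lit 57379) (nat_lit 3) (.e (nat_lit 98367) (nat_lit 27) (.e (nat_lit 434234) (nat_lit 23) (.e (nat_lit 532515) (nat_lit 3) (.e (nat_lit 114716) (nat_lit 22) (.e (nat_lit 90164) (nat_lit 12) (.e (nat_lit 163850) (nat_lit 0) .nil)))))))) (.g (nat_lit 1) (.e (nat_lit 111836) (nat_lit 0) .nil) .nil))) 
(.lf (nat_lit 481001) (.g (nat_lit 706) (.e (nat_lit 5949) (nat_lit 322) (.e (nat_lit 57423) (nat_lit 14) (.e (nat_lit 352256) (nat_lit 0) .nil))) (.g (nat_lit 0) (.e (nat_lit 112375) (nat_lit 0) .nil) .nil)))) (.nd (nat_lit 9) 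
(.lf (nat_lit 480745) (.g (nat_lit 814) (.e (nat_lit 5944) (nat_lit 322) (.e (nat_lit 57424) (nat_lit 14) (.e (nat_lit 352262) (nat_lit 0) .nil))) (.g (nat_lit 0) (.e (nat_lit 112095) (nat_lit 0) .nil) .nil))) 
(.lf (nat_lit 481257) (.g (nat_lit 430) (.e (nat_lit 5373) (nat_lit 299) (.e (nat_lit 8234) (nat_lit 20) (.e (nat_lit 573493) (nat_lit 15) .nil))) (.g (nat_lit 0) (.e (nat_lit 112845) (nat_lit 0) .nil) .nil)))))))) (.nd (nat_lit 5) (.nd (nat_lit 6) (.nd (nat_lit 7) (.nd (nat_lit 8) (.nd (nat_lit 9) 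
(.lf (nat_lit 480281) (.g (nat_lit 3151) (.e (nat_lit 5937) (nat_lit 322) (.e (nat_lit 57373) (nat_lit 2) (.e (nat_lit 90174) (nat_lit 14) (.e (nat_lit 180250) (nat_lit 10) (.e (nat_lit 573489) (nat_lit 14) (.e (nat_lit 73755) (nat_lit 8) (.e (nat_lit 557089) (nat_lit 12) (.e (nat_lit 171776) (nat_lit 0) .nil)))))))) (.g (nat_lit 1) (.e (nat_lit 111613) (nat_lit 0) .nil) .nil))) 
(.lf (nat_lit 480793) (.g (nat_lit 2966) (.e (nat_lit 5946) (nat_lit 322) (.e (nat_lit 57373) (nat_lit 2) (.e (nat_lit 90174) (nat_lit 14) (.e (nat_lit 180251) (nat_lit 10) (.e (nat_lit 573489) (nat_lit 14) (.e (nat_lit 73755) (nat_lit 8) (.e (nat_lit 557091) (nat_lit 12) (.e (nat_lit 163851) (nat_lit 0) .nil)))))))) (.g (nat_lit 1) (.e (nat_lit 112143) (nat_lit 0) .nil) .nil)))) (.nd (nat_lit 9) 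
(.lf (nat_lit 480537) (.g (nat_lit 3104) (.e (nat_lit 5940) (nat_lit 322) (.e (nat_lit 57374) (nat_lit 2) (.e (nat_lit 90174) (nat_lit 14) (.e (nat_lit 180251) (nat_lit 10) (.e (nat_lit 573489) (nat_lit 14) (.e (nat_lit 73755) (nat_lit 8) (.e (nat_lit 557091) (nat_lit 12) (.e (nat_lit 163841) (nat_lit 0) .nil)))))))) (.g (nat_lit 1) (.e (nat_lit 111884) (nat_lit 0) .nil) .nil))) 
(.lf (nat_lit 481049) (.g (nat_lit 2601) (.e (nat_lit 5951) (nat_lit 322) (.e (nat_lit 57377) (nat_lit 3) (.e (nat_lit 98365) (nat_lit 26) (.e (nat_lit 426187) (nat_lit 9) (.e (nat_lit 426479) (nat_lit 27) (.e (nat_lit 336421) (nat_lit 28) (.e (nat_lit 434212) (nat_lit 18) .nil))))))) (.g (nat_lit 1) (.e (nat_lit 112431) (nat_lit 0) .nil) .nil))))) (.nd (nat_lit 8) (.nd (nat_lit 9) 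
(.lf (nat_lit 480409) (.g (nat_lit 4119) (.e (nat_lit 5939) (nat_lit 322) (.e (nat_lit 57372) (nat_lit 2) (.e (nat_lit 90174) (nat_lit 14) (.e (nat_lit 180252) (nat_lit 10) (.e (nat_lit 573489) (nat_lit 14) (.e (nat_lit 73755) (nat_lit 8) (.e (nat_lit 557090) (nat_lit 12) (.e (nat_lit 163850) (nat_lit 0) .nil)))))))) (.g (nat_lit 1) (.e (nat_lit 111755) (nat_lit 0) .nil) .nil))) 
(.lf (nat_lit 480921) (.g (nat_lit 2784) (.e (nat_lit 5949) (nat_lit 322) (.e (nat_lit 57371) (nat_lit 2) (.e (nat_lit 90174) (nat_lit 14) (.e (nat_lit 180250) (nat_lit 10) (.e (nat_lit 573487) (nat_lit 14) (.e (nat_lit 73753) (nat_lit 8) (.e (nat_lit 557094) (nat_lit 12) (.e (nat_lit 163856) (nat_lit 0) .nil)))))))) (.g (nat_lit 1) (.e (nat_lit 112277) (nat_lit 0) .nil) .nil)))) (.nd (nat_lit 9) 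
(.lf (nat_lit 480665) (.g (nat_lit 5563) (.e (nat_lit 5943) (nat_lit 322) (.e (nat_lit 57375) (nat_lit 2) (.e (nat_lit 90172) (nat_lit 14) (.e (nat_lit 180250) (nat_lit 10) (.e (nat_lit 573487) (nat_lit 14) (.e (nat_lit 73753) (nat_lit 8) (.e (nat_lit 557090) (nat_lit 12) (.e (nat_lit 163844) (nat_lit 0) .nil)))))))) (.g (nat_lit 1) (.e (nat_lit 112014) (nat_lit 0) .nil) .nil))) 
(.lf (nat_lit 481177) (.g (nat_lit 3554) (.e (nat_lit 5270) (nat_lit 298) (.e (nat_lit 1239) (nat_lit 91) (.e (nat_lit 90170) (nat_lit 13) (.e (nat_lit 172113) (nat_lit 10) (.e (nat_lit 434245) (nat_lit 28) (.e (nat_lit 573458) (nat_lit 9) (.e (nat_lit 7936) (nat_lit 30) (.e (nat_lit 409604) (nat_lit 0) .nil)))))))) (.g (nat_lit 1) (.e (nat_lit 112599) (nat_lit 0) .nil) .nil)))))) 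
(.nd (nat_lit 7) (.nd (nat_lit 8) (.nd (nat_lit 9) 
(.lf (nat_lit 480345) (.g (nat_lit 2421) (.e (nat_lit 5937) (nat_lit 322) (.e (nat_lit 57379) (nat_lit 3) (.e (nat_lit 98367) (nat_lit 27) (.e (nat_lit 434231) (nat_lit 23) (.e (nat_lit 532514) (nat_lit 3) (.e (nat_lit 114716) (nat_lit 22) (.e (nat_lit 90181) (nat_lit 16) (.e (nat_lit 237312) (nat_lit 0) .nil)))))))) (.g (nat_lit 1) (.e (nat_lit 111681) (nat_lit 0) .nil) .nil))) 
(.lf (nat_lit 480857) (.g (nat_lit 2689) (.e (nat_lit 5948) (nat_lit 322) (.e (nat_lit 57371) (nat_lit 2) (.e (nat_lit 90174) (nat_lit 14) (.e (nat_lit 180250) (nat_lit 10) (.e (nat_lit 573489) (nat_lit 14) (.e (nat_lit 73754) (nat_lit 8) (.e (nat_lit 557093) (nat_lit 12) (.e (nat_lit 163856) (nat_lit 0) .nil)))))))) (.g (nat_lit 1) (.e (nat_lit 112211) (nat_lit 0) .nil) .nil)))) (.nd (nat_lit 9) 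
(.lf (nat_lit 480601) (.g (nat_lit 5582) (.e (nat_lit 5942) (nat_lit 322) (.e (nat_lit 57373) (nat_lit 2) (.e (nat_lit 90174) (nat_lit 14) (.e (nat_lit 180251) (nat_lit 10) (.e (nat_lit 573489) (nat_lit 14) (.e (nat_lit 73755) (nat_lit 8) (.e (nat_lit 557090) (nat_lit 12) (.e (nat_lit 163844) (nat_lit 0) .nil)))))))) (.g (nat_lit 1) (.e (nat_lit 111950) (nat_lit 0) .nil) .nil))) 
(.lf (nat_lit 481113) (.g (nat_lit 4762) (.e (nat_lit 5954) (nat_lit 322) (.e (nat_lit 57371) (nat_lit 2) (.e (nat_lit 90174) (nat_lit 14) (.e (nat_lit 180251) (nat_lit 10) (.e (nat_lit 573489) (nat_lit 14) (.e (nat_lit 73755) (nat_lit 8) (.e (nat_lit 557090) (nat_lit 12) (.e (nat_lit 163845) (nat_lit 0) .nil)))))))) (.g (nat_lit 1) (.e (nat_lit 112499) (nat_lit 0) .nil) .nil))))) 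
(.nd (nat_lit 8) (.nd (nat_lit 9) 
(.lf (nat_lit 480473) (.g (nat_lit 3014) (.e (nat_lit 5939) (nat_lit 322) (.e (nat_lit 57379) (nat_lit 3) (.e (nat_lit 98366) (nat_lit 27) (.e (nat_lit 434248) (nat_lit 28) (.e (nat_lit 573487) (nat_lit 14) (.e (nat_lit 73753) (nat_lit 8) (.e (nat_lit 557090) (nat_lit 12) (.e (nat_lit 163840) (nat_lit 0) .nil)))))))) (.g (nat_lit 1) (.e (nat_lit 111820) (nat_lit 0) .nil) .nil))) 
(.lf (nat_lit 480985) (.g (nat_lit 2468) (.e (nat_lit 5949) (nat_lit 322) (.e (nat_lit 57409) (nat_lit 12) (.e (nat_lit 336443) (nat_lit 32) (.e (nat_lit 466977) (nat_lit 22) (.e (nat_lit 196654) (nat_lit 11) (.e (nat_lit 16388) (nat_lit 0) (.e (nat_lit 2485) (nat_lit 157) .nil))))))) (.g (nat_lit 1) (.e (nat_lit 112352) (nat_lit 0) .nil) .nil)))) (.nd (nat_lit 9) 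
(.lf (nat_lit 480729) (.g (nat_lit 3159) (.e (nat_lit 5944) (nat_lit 322) (.e (nat_lit 57373) (nat_lit 2) (.e (nat_lit 90174) (nat_lit 14) (.e (nat_lit 180252) (nat_lit 10) (.e (nat_lit 573489) (nat_lit 14) (.e (nat_lit 73755) (nat_lit 8) (.e (nat_lit 557090) (nat_lit 12) (.e (nat_lit 163855) (nat_lit 0) .nil)))))))) (.g (nat_lit 1) (.e (nat_lit 112079) (nat_lit 0) .nil) .nil))) 
(.lf (nat_lit 481241) (.g (nat_lit 1498) (.e (nat_lit 5293) (nat_lit 298) (.e (nat_lit 1633) (nat_lit 114) (.e (nat_lit 385107) (nat_lit 51) (.e (nat_lit 794675) (nat_lit 24) (.e (nat_lit 213030) (nat_lit 11) .nil))))) (.g (nat_lit 0) (.e (nat_lit 112808) (nat_lit 0) .nil) .nil))))))) (.nd (nat_lit 6) (.nd (nat_lit 7) (.nd (nat_lit 8) (.nd (nat_lit 9) 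
(.lf (nat_lit 480313) (.g (nat_lit 1974) (.e (nat_lit 5937) (nat_lit 322) (.e (nat_lit 57378) (nat_lit 3) (.e (nat_lit 98365) (nat_lit 26) (.e (nat_lit 426326) (nat_lit 13) .nil)))) (.g (nat_lit 0) (.e (nat_lit 111649) (nat_lit 0) .nil) .nil))) 
(.lf (nat_lit 480825) (.g (nat_lit 3263) (.e (nat_lit 5947) (nat_lit 322) (.e (nat_lit 57371) (nat_lit 2) (.e (nat_lit 90174) (nat_lit 14) (.e (nat_lit 180251) (nat_lit 10) (.e (nat_lit 573489) (nat_lit 14) (.e (nat_lit 73754) (nat_lit 8) (.e (nat_lit 557093) (nat_lit 12) (.e (nat_lit 163856) (nat_lit 0) .nil)))))))) (.g (nat_lit 1) (.e (nat_lit 112178) (nat_lit 0) .nil) .nil)))) (.nd (nat_lit 9) 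
(.lf (nat_lit 480569) (.g (nat_lit 3071) (.e (nat_lit 5941) (nat_lit 322) (.e (nat_lit 57372) (nat_lit 2) (.e (nat_lit 90172) (nat_lit 14) (.e (nat_lit 180252) (nat_lit 10) (.e (nat_lit 573489) (nat_lit 14) (.e (nat_lit 73755) (nat_lit 8) (.e (nat_lit 557090) (nat_lit 12) (.e (nat_lit 163844) (nat_lit 0) .nil)))))))) (.g (nat_lit 1) (.e (nat_lit 111916) (nat_lit 0) .nil) .nil))) 
(.lf (nat_lit 481081) (.g (nat_lit 2564) (.e (nat_lit 5953) (nat_lit 322) (.e (nat_lit 57373) (nat_lit 2) (.e (nat_lit 90174) (nat_lit 14) (.e (nat_lit 180251) (nat_lit 10) (.e (nat_lit 573489) (nat_lit 14) .nil))))) (.g (nat_lit 0) (.e (nat_lit 112463) (nat_lit 0) .nil) .nil))))) (.nd (nat_lit 8) (.nd (nat_lit 9) 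
(.lf (nat_lit 480441) (.g (nat_lit 3053) (.e (nat_lit 5939) (nat_lit 322) (.e (nat_lit 57379) (nat_lit 3) (.e (nat_lit 98365) (nat_lit 26) (.e (nat_lit 426325) (nat_lit 13) (.e (nat_lit 483341) (nat_lit 9) (.e (nat_lit 426031) (nat_lit 0) (.e (nat_lit 2466) (nat_lit 157) .nil))))))) (.g (nat_lit 1) (.e (nat_lit 111788) (nat_lit 0) .nil) .nil))) 
(.lf (nat_lit 480953) (.g (nat_lit 3191) (.e (nat_lit 5949) (nat_lit 322) (.e (nat_lit 57378) (nat_lit 3) (.e (nat_lit 98365) (nat_lit 26) (.e (nat_lit 426325) (nat_lit 13) (.e (nat_lit 483337) (nat_lit 9) (.e (nat_lit 426012) (nat_lit 0) (.e (nat_lit 2504) (nat_lit 157) .nil))))))) (.g (nat_lit 1) (.e (nat_lit 112309) (nat_lit 0) .nil) .nil)))) (.nd (nat_lit 9) 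
(.lf (nat_lit 480697) (.g (nat_lit 2230) (.e (nat_lit 5943) (nat_lit 322) (.e (nat_lit 57379) (nat_lit 3) (.e (nat_lit 98366) (nat_lit 27) (.e (nat_lit 434247) (nat_lit 28) (.e (nat_lit 573489) (nat_lit 14) (.e (nat_lit 73755) (nat_lit 8) (.e (nat_lit 557091) (nat_lit 12) (.e (nat_lit 163840) (nat_lit 0) .nil)))))))) (.g (nat_lit 1) (.e (nat_lit 112047) (nat_lit 0) .nil) .nil))) 
(.lf (nat_lit 481209) (.g (nat_lit 597) (.e (nat_lit 5259) (nat_lit 298) (.e (nat_lit 371) (nat_lit 32) (.e (nat_lit 426544) (nat_lit 30) .nil))) (.g (nat_lit 0) (.e (nat_lit 112686) (nat_lit 0) .nil) .nil)))))) (.nd (nat_lit 7) (.nd (nat_lit 8) (.nd (nat_lit 9) 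
(.lf (nat_lit 480377) (.g (nat_lit 2499) (.e (nat_lit 5938) (nat_lit 322) (.e (nat_lit 57372) (nat_lit 2) (.e (nat_lit 90174) (nat_lit 14) (.e (nat_lit 180251) (nat_lit 10) (.e (nat_lit 573489) (nat_lit 14) .nil))))) (.g (nat_lit 0) (.e (nat_lit 111723) (nat_lit 0) .nil) .nil))) 
(.lf (nat_lit 480889) (.g (nat_lit 3207) (.e (nat_lit 5948) (nat_lit 322) (.e (nat_lit 57412) (nat_lit 12) (.e (nat_lit 336226) (nat_lit 14) (.e (nat_lit 401437) (nat_lit 9) (.e (nat_lit 426544) (nat_lit 30) (.e (nat_lit 360457) (nat_lit 0) .nil)))))) (.g (nat_lit 1) (.e (nat_lit 112244) (nat_lit 0) .nil) .nil)))) (.nd (nat_lit 9) 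
(.lf (nat_lit 480633) (.g (nat_lit 2045) (.e (nat_lit 5943) (nat_lit 322) (.e (nat_lit 57372) (nat_lit 2) (.e (nat_lit 90174) (nat_lit 14) (.e (nat_lit 180243) (nat_lit 5) (.e (nat_lit 532513) (nat_lit 3) (.e (nat_lit 114714) (nat_lit 22) (.e (nat_lit 90162) (nat_lit 12) (.e (nat_lit 163844) (nat_lit 0) .nil)))))))) (.g (nat_lit 1) (.e (nat_lit 111982) (nat_lit 0) .nil) .nil))) 
(.lf (nat_lit 481145) (.g (nat_lit 3061) (.e (nat_lit 5245) (nat_lit 298) (.e (nat_lit 1239) (nat_lit 91) (.e (nat_lit 90170) (nat_lit 13) (.e (nat_lit 172113) (nat_lit 10) (.e (nat_lit 434248) (nat_lit 28) (.e (nat_lit 573452) (nat_lit 9) (.e (nat_lit 359) (nat_lit 30) (.e (nat_lit 409602) (nat_lit 0) .nil)))))))) (.g (nat_lit 1) (.e (nat_lit 112547) (nat_lit 0) .nil) .nil))))) 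
(.nd (nat_lit 8) (.nd (nat_lit 9) 
(.lf (nat_lit 480505) (.g (nat_lit 2888) (.e (nat_lit 5940) (nat_lit 322) (.e (nat_lit 57371) (nat_lit 2) (.e (nat_lit 90171) (nat_lit 14) (.e (nat_lit 180252) (nat_lit 10) (.e (nat_lit 573489) (nat_lit 14) (.e (nat_lit 73755) (nat_lit 8) (.e (nat_lit 557090) (nat_lit 12) (.e (nat_lit 163844) (nat_lit 0) .nil)))))))) (.g (nat_lit 1) (.e (nat_lit 111852) (nat_lit 0) .nil) .nil))) 
(.lf (nat_lit 481017) (.g (nat_lit 2381) (.e (nat_lit 5950) (nat_lit 322) (.e (nat_lit 57371) (nat_lit 2) (.e (nat_lit 90174) (nat_lit 14) (.e (nat_lit 180243) (nat_lit 5) (.e (nat_lit 532513) (nat_lit 3) (.e (nat_lit 114714) (nat_lit 22) (.e (nat_lit 90164) (nat_lit 12) (.e (nat_lit 163850) (nat_lit 0) .nil)))))))) (.g (nat_lit 1) (.e (nat_lit 112399) (nat_lit 0) .nil) .nil)))) (.nd (nat_lit 9) 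
(.lf (nat_lit 480761) (.g (nat_lit 2952) (.e (nat_lit 5945) (nat_lit 322) (.e (nat_lit 57373) (nat_lit 2) (.e (nat_lit 90174) (nat_lit 14) (.e (nat_lit 180251) (nat_lit 10) (.e (nat_lit 573489) (nat_lit 14) .nil))))) (.g (nat_lit 0) (.e (nat_lit 112111) (nat_lit 0) .nil) .nil))) 
(.lf (nat_lit 481273) (.g (nat_lit 2639) (.e (nat_lit 5389) (nat_lit 301) (.e (nat_lit 57464) (nat_lit 23) (.e (nat_lit 516139) (nat_lit 7) (.e (nat_lit 409645) (nat_lit 18) (.e (nat_lit 303119) (nat_lit 3) .nil))))) (.g (nat_lit 0) (.e (nat_lit 112888) (nat_lit 0) .nil) .nil)))))))))) 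
(.nd (nat_lit 3) (.nd (nat_lit 4) (.nd (nat_lit 5) (.nd (nat_lit 6) (.nd (nat_lit 7) 
(.nd (nat_lit 8) (.nd (nat_lit 9) 
(.lf (nat_lit 480261) (.g (nat_lit 2534) (.e (nat_lit 5937) (nat_lit 322) (.e (nat_lit 57371) (nat_lit 2) (.e (nat_lit 90174) (nat_lit 14) (.e (nat_lit 180251) (nat_lit 10) (.e (nat_lit 573489) (nat_lit 14) (.e (nat_lit 73754) (nat_lit 8) (.e (nat_lit 557094) (nat_lit 12) (.e (nat_lit 171776) (nat_lit 0) .nil)))))))) (.g (nat_lit 1) (.e (nat_lit 111593) (nat_lit 0) .nil) .nil))) 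
(.lf (nat_lit 480773) (.g (nat_lit 2442) (.e (nat_lit 5946) (nat_lit 322) (.e (nat_lit 57371) (nat_lit 2) (.e (nat_lit 90174) (nat_lit 14) (.e (nat_lit 180250) (nat_lit 10) (.e (nat_lit 573489) (nat_lit 14) (.e (nat_lit 73754) (nat_lit 8) (.e (nat_lit 557094) (nat_lit 12) (.e (nat_lit 163856) (nat_lit 0) .nil)))))))) (.g (nat_lit 1) (.e (nat_lit 112123) (nat_lit 0) .nil) .nil)))) (.nd (nat_lit 9) 
(.lf (nat_lit 480517) (.g (nat_lit 4038) (.e (nat_lit 5940) (nat_lit 322) (.e (nat_lit 57371) (nat_lit 2) (.e (nat_lit 90174) (nat_lit 14) (.e (nat_lit 180251) (nat_lit 10) (.e (nat_lit 573489) (nat_lit 14) (.e (nat_lit 73755) (nat_lit 8) (.e (nat_lit 557091) (nat_lit 12) (.e (nat_lit 163841) (nat_lit 0) .nil)))))))) (.g (nat_lit 1) (.e (nat_lit 111864) (nat_lit 0) .nil) .nil))) 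
(.lf (nat_lit 481029) (.g (nat_lit 1912) (.e (nat_lit 5950) (nat_lit 322) (.e (nat_lit 57377) (nat_lit 3) (.e (nat_lit 98365) (nat_lit 26) (.e (nat_lit 426187) (nat_lit 9) (.e (nat_lit 426479) (nat_lit 27) (.e (nat_lit 336421) (nat_lit 28) (.e (nat_lit 434212) (nat_lit 18) .nil))))))) (.g (nat_lit 1) (.e (nat_lit 112411) (nat_lit 0) .nil) .nil))))) (.nd (nat_lit 8) (.nd (nat_lit 9) 
(.lf (nat_lit 480389) (.g (nat_lit 2799) (.e (nat_lit 5939) (nat_lit 322) (.e (nat_lit 57372) (nat_lit 2) (.e (nat_lit 90172) (nat_lit 14) (.e (nat_lit 180252) (nat_lit 10) (.e (nat_lit 573489) (nat_lit 14) (.e (nat_lit 73755) (nat_lit 8) (.e (nat_lit 557090) (nat_lit 12) (.e (nat_lit 163850) (nat_lit 0) .nil)))))))) (.g (nat_lit 1) (.e (nat_lit 111735) (nat_lit 0) .nil) .nil))) 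
(.lf (nat_lit 480901) (.g (nat_lit 3012) (.e (nat_lit 5948) (nat_lit 322) (.e (nat_lit 57419) (nat_lit 12) (.e (nat_lit 336194) (nat_lit 12) (.e (nat_lit 385106) (nat_lit 50) (.e (nat_lit 786483) (nat_lit 30) (.e (nat_lit 360457) (nat_lit 0) .nil)))))) (.g (nat_lit 1) (.e (nat_lit 112256) (nat_lit 0) .nil) .nil)))) (.nd (nat_lit 9) 
(.lf (nat_lit 480645) (.g (nat_lit 5785) (.e (nat_lit 5943) (nat_lit 322) (.e (nat_lit 57372) (nat_lit 2) (.e (nat_lit 90174) (nat_lit 14) (.e (nat_lit 180251) (nat_lit 10) (.e (nat_lit 573489) (nat_lit 14) (.e (nat_lit 73755) (nat_lit 8) (.e (nat_lit 557090) (nat_lit 12) (.e (nat_lit 163844) (nat_lit 0) .nil)))))))) (.g (nat_lit 1) (.e (nat_lit 111994) (nat_lit 0) .nil) .nil))) 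
(.lf (nat_lit 481157) (.g (nat_lit 2997) (.e (nat_lit 5270) (nat_lit 298) (.e (nat_lit 1239) (nat_lit 91) (.e (nat_lit 90170) (nat_lit 13) (.e (nat_lit 172106) (nat_lit 10) (.e (nat_lit 434244) (nat_lit 28) (.e (nat_lit 573450) (nat_lit 9) (.e (nat_lit 362) (nat_lit 30) (.e (nat_lit 409604) (nat_lit 0) .nil)))))))) (.g (nat_lit 1) (.e (nat_lit 112579) (nat_lit 0) .nil) .nil)))))) 
(.nd (nat_lit 7) (.nd (nat_lit 8) (.nd (nat_lit 9) 
(.lf (nat_lit 480325) (.g (nat_lit 3005) (.e (nat_lit 5937) (nat_lit 322) (.e (nat_lit 57378) (nat_lit 3) (.e (nat_lit 98368) (nat_lit 27) (.e (nat_lit 434247) (nat_lit 28) (.e (nat_lit 573489) (nat_lit 14) (.e (nat_lit 73755) (nat_lit 8) (.e (nat_lit 557089) (nat_lit 12) (.e (nat_lit 171776) (nat_lit 0) .nil)))))))) (.g (nat_lit 1) (.e (nat_lit 111661) (nat_lit 0) .nil) .nil))) 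
(.lf (nat_lit 480837) (.g (nat_lit 2716) (.e (nat_lit 5947) (nat_lit 322) (.e (nat_lit 57378) (nat_lit 3) (.e (nat_lit 98365) (nat_lit 26) (.e (nat_lit 426325) (nat_lit 13) (.e (nat_lit 491264) (nat_lit 10) (.e (nat_lit 434216) (nat_lit 18) .nil)))))) (.g (nat_lit 1) (.e (nat_lit 112190) (nat_lit 0) .nil) .nil)))) (.nd (nat_lit 9) 
(.lf (nat_lit 480581) (.g (nat_lit 2939) (.e (nat_lit 5941) (nat_lit 322) (.e (nat_lit 57373) (nat_lit 2) (.e (nat_lit 90174) (nat_lit 14) (.e (nat_lit 180251) (nat_lit 10) (.e (nat_lit 573489) (nat_lit 14) .nil))))) (.g (nat_lit 0) (.e (nat_lit 111928) (nat_lit 0) .nil) .nil))) 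
(.lf (nat_lit 481093) (.g (nat_lit 2521) (.e (nat_lit 5953) (nat_lit 322) (.e (nat_lit 57378) (nat_lit 3) (.e (nat_lit 98365) (nat_lit 26) (.e (nat_lit 426325) (nat_lit 13) (.e (nat_lit 483341) (nat_lit 9) (.e (nat_lit 426009) (nat_lit 0) (.e (nat_lit 2469) (nat_lit 157) .nil))))))) (.g (nat_lit 1) (.e (nat_lit 112475) (nat_lit 0) .nil) .nil))))) (.nd (nat_lit 8) (.nd (nat_lit 9) 
(.lf (nat_lit 480453) (.g (nat_lit 2478) (.e (nat_lit 5939) (nat_lit 322) (.e (nat_lit 57379) (nat_lit 3) (.e (nat_lit 98366) (nat_lit 27) (.e (nat_lit 434231) (nat_lit 23) (.e (nat_lit 532507) (nat_lit 2) (.e (nat_lit 106517) (nat_lit 9) (.e (nat_lit 1255) (nat_lit 92) (.e (nat_lit 98322) (nat_lit 17) (.e (nat_lit 2472) (nat_lit 157) .nil))))))))) (.g (nat_lit 1) (.e (nat_lit 111800) (nat_lit 0) .nil) .nil))) 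
(.lf (nat_lit 480965) (.g (nat_lit 2763) (.e (nat_lit 5949) (nat_lit 322) (.e (nat_lit 57378) (nat_lit 3) (.e (nat_lit 98368) (nat_lit 27) (.e (nat_lit 434247) (nat_lit 28) (.e (nat_lit 573489) (nat_lit 14) (.e (nat_lit 73754) (nat_lit 8) (.e (nat_lit 557093) (nat_lit 12) (.e (nat_lit 163857) (nat_lit 0) .nil)))))))) (.g (nat_lit 1) (.e (nat_lit 112321) (nat_lit 0) .nil) .nil)))) (.nd (nat_lit 9) 
(.lf (nat_lit 480709) (.g (nat_lit 3309) (.e (nat_lit 5943) (nat_lit 322) (.e (nat_lit 57379) (nat_lit 3) (.e (nat_lit 98367) (nat_lit 27) (.e (nat_lit 434247) (nat_lit 28) (.e (nat_lit 573489) (nat_lit 14) (.e (nat_lit 73755) (nat_lit 8) (.e (nat_lit 557091) (nat_lit 12) (.e (nat_lit 163841) (nat_lit 0) .nil)))))))) (.g (nat_lit 1) (.e (nat_lit 112059) (nat_lit 0) .nil) .nil))) 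
(.lf (nat_lit 481221) (.g (nat_lit 2678) (.e (nat_lit 5293) (nat_lit 298) (.e (nat_lit 1232) (nat_lit 91) (.e (nat_lit 90170) (nat_lit 13) (.e (nat_lit 172106) (nat_lit 10) (.e (nat_lit 434244) (nat_lit 28) (.e (nat_lit 573451) (nat_lit 9) (.e (nat_lit 7936) (nat_lit 30) (.e (nat_lit 409603) (nat_lit 0) .nil)))))))) (.g (nat_lit 1) (.e (nat_lit 112779) (nat_lit 0) .nil) .nil))))))) 
(.nd (nat_lit 6) (.nd (nat_lit 7) (.nd (nat_lit 8) (.nd (nat_lit 9) 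
(.lf (nat_lit 480293) (.g (nat_lit 2983) (.e (nat_lit 5937) (nat_lit 322) (.e (nat_lit 57375) (nat_lit 2) (.e (nat_lit 90174) (nat_lit 14) (.e (nat_lit 180243) (nat_lit 5) (.e (nat_lit 532515) (nat_lit 3) (.e (nat_lit 114716) (nat_lit 22) (.e (nat_lit 90181) (nat_lit 16) (.e (nat_lit 237312) (nat_lit 0) .nil)))))))) (.g (nat_lit 1) (.e (nat_lit 111625) (nat_lit 0) .nil) .nil))) 
(.lf (nat_lit 480805) (.g (nat_lit 2772) (.e (nat_lit 5946) (nat_lit 322) (.e (nat_lit 57400) (nat_lit 10) (.e (nat_lit 319490) (nat_lit 0) (.e (nat_lit 5664) (nat_lit 312) (.e (nat_lit 3085) (nat_lit 191) (.e (nat_lit 483377) (nat_lit 22) (.e (nat_lit 327680) (nat_lit 0) (.e (nat_lit 81) (nat_lit 0) .nil)))))))) (.g (nat_lit 1) (.e (nat_lit 112155) (nat_lit 0) .nil) .nil)))) (.nd (nat_lit 9) 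
(.lf (nat_lit 480549) (.g (nat_lit 2926) (.e (nat_lit 5940) (nat_lit 322) (.e (nat_lit 57375) (nat_lit 2) (.e (nat_lit 90174) (nat_lit 14) (.e (nat_lit 180250) (nat_lit 10) (.e (nat_lit 573489) (nat_lit 14) (.e (nat_lit 73755) (nat_lit 8) (.e (nat_lit 557091) (nat_lit 12) (.e (nat_lit 163841) (nat_lit 0) .nil)))))))) (.g (nat_lit 1) (.e (nat_lit 111896) (nat_lit 0) .nil) .nil))) 
(.lf (nat_lit 481061) (.g (nat_lit 2363) (.e (nat_lit 5953) (nat_lit 322) (.e (nat_lit 57371) (nat_lit 2) (.e (nat_lit 90174) (nat_lit 14) (.e (nat_lit 180243) (nat_lit 5) (.e (nat_lit 532515) (nat_lit 3) .nil))))) (.g (nat_lit 0) (.e (nat_lit 112443) (nat_lit 0) .nil) .nil))))) (.nd (nat_lit 8) (.nd (nat_lit 9) 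
(.lf (nat_lit 480421) (.g (nat_lit 1650) (.e (nat_lit 5939) (nat_lit 322) (.e (nat_lit 57375) (nat_lit 2) (.e (nat_lit 90174) (nat_lit 14) (.e (nat_lit 180243) (nat_lit 5) (.e (nat_lit 532515) (nat_lit 3) .nil))))) (.g (nat_lit 0) (.e (nat_lit 111767) (nat_lit 0) .nil) .nil))) 
(.lf (nat_lit 480933) (.g (nat_lit 4567) (.e (nat_lit 5949) (nat_lit 322) (.e (nat_lit 57373) (nat_lit 2) (.e (nat_lit 90173) (nat_lit 14) (.e (nat_lit 180252) (nat_lit 10) (.e (nat_lit 573489) (nat_lit 14) (.e (nat_lit 73755) (nat_lit 8) (.e (nat_lit 557090) (nat_lit 12) (.e (nat_lit 163856) (nat_lit 0) .nil)))))))) (.g (nat_lit 1) (.e (nat_lit 112289) (nat_lit 0) .nil) .nil)))) (.nd (nat_lit 9) 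
(.lf (nat_lit 480677) (.g (nat_lit 2591) (.e (nat_lit 5943) (nat_lit 322) (.e (nat_lit 57375) (nat_lit 2) (.e (nat_lit 90174) (nat_lit 14) (.e (nat_lit 180250) (nat_lit 10) (.e (nat_lit 573489) (nat_lit 14) .nil))))) (.g (nat_lit 0) (.e (nat_lit 112026) (nat_lit 0) .nil) .nil))) 
(.lf (nat_lit 481189) (.g (nat_lit 3677) (.e (nat_lit 5270) (nat_lit 298) (.e (nat_lit 1239) (nat_lit 91) (.e (nat_lit 90170) (nat_lit 13) (.e (nat_lit 172113) (nat_lit 10) (.e (nat_lit 434248) (nat_lit 28) (.e (nat_lit 573449) (nat_lit 9) (.e (nat_lit 359) (nat_lit 30) (.e (nat_lit 409605) (nat_lit 0) .nil)))))))) (.g (nat_lit 1) (.e (nat_lit 112611) (nat_lit 0) .nil) .nil)))))) 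
(.nd (nat_lit 7) (.nd (nat_lit 8) (.nd (nat_lit 9) 
(.lf (nat_lit 480357) (.g (nat_lit 2350) (.e (nat_lit 5937) (nat_lit 322) (.e (nat_lit 57411) (nat_lit 12) (.e (nat_lit 336432) (nat_lit 30) (.e (nat_lit 450588) (nat_lit 10) (.e (nat_lit 581376) (nat_lit 5) .nil))))) (.g (nat_lit 0) (.e (nat_lit 111700) (nat_lit 0) .nil) .nil))) 
(.lf (nat_lit 480869) (.g (nat_lit 2528) (.e (nat_lit 5948) (nat_lit 322) (.e (nat_lit 57373) (nat_lit 2) (.e (nat_lit 90174) (nat_lit 14) (.e (nat_lit 180250) (nat_lit 10) (.e (nat_lit 573489) (nat_lit 14) .nil))))) (.g (nat_lit 0) (.e (nat_lit 112223) (nat_lit 0) .nil) .nil)))) (.nd (nat_lit 9) 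
(.lf (nat_lit 480613) (.g (nat_lit 2674) (.e (nat_lit 5942) (nat_lit 322) (.e (nat_lit 57375) (nat_lit 2) (.e (nat_lit 90174) (nat_lit 14) (.e (nat_lit 180250) (nat_lit 10) (.e (nat_lit 573489) (nat_lit 14) .nil))))) (.g (nat_lit 0) (.e (nat_lit 111962) (nat_lit 0) .nil) .nil))) 
(.lf (nat_lit 481125) (.g (nat_lit 4514) (.e (nat_lit 5954) (nat_lit 322) (.e (nat_lit 57373) (nat_lit 2) (.e (nat_lit 90174) (nat_lit 14) (.e (nat_lit 180251) (nat_lit 10) (.e (nat_lit 573489) (nat_lit 14) (.e (nat_lit 73755) (nat_lit 8) (.e (nat_lit 557091) (nat_lit 12) (.e (nat_lit 163841) (nat_lit 0) .nil)))))))) (.g (nat_lit 1) (.e (nat_lit 112511) (nat_lit 0) .nil) .nil))))) 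
(.nd (nat_lit 8) (.nd (nat_lit 9) 
(.lf (nat_lit 480485) (.g (nat_lit 3101) (.e (nat_lit 5939) (nat_lit 322) (.e (nat_lit 57379) (nat_lit 3) (.e (nat_lit 98367) (nat_lit 27) (.e (nat_lit 434231) (nat_lit 23) (.e (nat_lit 532514) (nat_lit 3) (.e (nat_lit 114716) (nat_lit 22) (.e (nat_lit 90181) (nat_lit 16) (.e (nat_lit 229378) (nat_lit 0) .nil)))))))) (.g (nat_lit 1) (.e (nat_lit 111832) (nat_lit 0) .nil) .nil))) 
(.lf (nat_lit 480997) (.g (nat_lit 3210) (.e (nat_lit 5949) (nat_lit 322) (.e (nat_lit 57419) (nat_lit 12) (.e (nat_lit 336194) (nat_lit 12) (.e (nat_lit 385105) (nat_lit 50) (.e (nat_lit 786483) (nat_lit 30) (.e (nat_lit 360457) (nat_lit 0) .nil)))))) (.g (nat_lit 1) (.e (nat_lit 112366) (nat_lit 0) .nil) .nil)))) (.nd (nat_lit 9) 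
(.lf (nat_lit 480741) (.g (nat_lit 2311) (.e (nat_lit 5944) (nat_lit 322) (.e (nat_lit 57409) (nat_lit 12) (.e (nat_lit 336443) (nat_lit 32) (.e (nat_lit 466974) (nat_lit 22) (.e (nat_lit 196656) (nat_lit 11) (.e (nat_lit 16392) (nat_lit 0) (.e (nat_lit 2507) (nat_lit 157) .nil))))))) (.g (nat_lit 1) (.e (nat_lit 112091) (nat_lit 0) .nil) .nil))) 
(.lf (nat_lit 481253) (.g (nat_lit 2341) (.e (nat_lit 7936) (nat_lit 298) (.e (nat_lit 1239) (nat_lit 91) (.e (nat_lit 90170) (nat_lit 13) (.e (nat_lit 172115) (nat_lit 10) .nil)))) (.g (nat_lit 0) (.e (nat_lit 112836) (nat_lit 0) .nil) .nil)))))))) (.nd (nat_lit 5) (.nd (nat_lit 6) (.nd (nat_lit 7) (.nd (nat_lit 8) (.nd (nat_lit 9) 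
(.lf (nat_lit 480277) (.g (nat_lit 2478) (.e (nat_lit 5937) (nat_lit 322) (.e (nat_lit 57373) (nat_lit 2) (.e (nat_lit 90174) (nat_lit 14) (.e (nat_lit 180250) (nat_lit 10) (.e (nat_lit 573487) (nat_lit 14) (.e (nat_lit 73753) (nat_lit 8) (.e (nat_lit 557091) (nat_lit 12) (.e (nat_lit 171776) (nat_lit 0) .nil)))))))) (.g (nat_lit 1) (.e (nat_lit 111609) (nat_lit 0) .nil) .nil))) 
(.lf (nat_lit 480789) (.g (nat_lit 4644) (.e (nat_lit 5946) (nat_lit 322) (.e (nat_lit 57373) (nat_lit 2) (.e (nat_lit 90174) (nat_lit 14) (.e (nat_lit 180250) (nat_lit 10) (.e (nat_lit 573489) (nat_lit 14) (.e (nat_lit 73755) (nat_lit 8) (.e (nat_lit 557090) (nat_lit 12) (.e (nat_lit 163854) (nat_lit 0) .nil)))))))) (.g (nat_lit 1) (.e (nat_lit 112139) (nat_lit 0) .nil) .nil)))) (.nd (nat_lit 9) 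
(.lf (nat_lit 480533) (.g (nat_lit 3712) (.e (nat_lit 5940) (nat_lit 322) (.e (nat_lit 57374) (nat_lit 2) (.e (nat_lit 90173) (nat_lit 14) (.e (nat_lit 180252) (nat_lit 10) (.e (nat_lit 573489) (nat_lit 14) (.e (nat_lit 73755) (nat_lit 8) (.e (nat_lit 557090) (nat_lit 12) (.e (nat_lit 163843) (nat_lit 0) .nil)))))))) (.g (nat_lit 1) (.e (nat_lit 111880) (nat_lit 0) .nil) .nil))) 
(.lf (nat_lit 481045) (.g (nat_lit 2453) (.e (nat_lit 5951) (nat_lit 322) (.e (nat_lit 57373) (nat_lit 2) (.e (nat_lit 90174) (nat_lit 14) (.e (nat_lit 180250) (nat_lit 10) (.e (nat_lit 573487) (nat_lit 14) .nil))))) (.g (nat_lit 0) (.e (nat_lit 112427) (nat_lit 0) .nil) .nil))))) (.nd (nat_lit 8) (.nd (nat_lit 9) 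
(.lf (nat_lit 480405) (.g (nat_lit 2518) (.e (nat_lit 5939) (nat_lit 322) (.e (nat_lit 57372) (nat_lit 2) (.e (nat_lit 90174) (nat_lit 14) (.e (nat_lit 180250) (nat_lit 10) (.e (nat_lit 573487) (nat_lit 14) (.e (nat_lit 73753) (nat_lit 8) (.e (nat_lit 557091) (nat_lit 12) (.e (nat_lit 163840) (nat_lit 0) .nil)))))))) (.g (nat_lit 1) (.e (nat_lit 111751) (nat_lit 0) .nil) .nil))) 
(.lf (nat_lit 480917) (.g (nat_lit 2811) (.e (nat_lit 5949) (nat_lit 322) (.e (nat_lit 57371) (nat_lit 2) (.e (nat_lit 90174) (nat_lit 14) (.e (nat_lit 180243) (nat_lit 5) (.e (nat_lit 532515) (nat_lit 3) (.e (nat_lit 114715) (nat_lit 22) (.e (nat_lit 90165) (nat_lit 12) (.e (nat_lit 163857) (nat_lit 0) .nil)))))))) (.g (nat_lit 1) (.e (nat_lit 112273) (nat_lit 0) .nil) .nil)))) (.nd (nat_lit 9) 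
(.lf (nat_lit 480661) (.g (nat_lit 4954) (.e (nat_lit 5943) (nat_lit 322) (.e (nat_lit 57374) (nat_lit 2) (.e (nat_lit 90174) (nat_lit 14) (.e (nat_lit 180251) (nat_lit 10) (.e (nat_lit 573489) (nat_lit 14) (.e (nat_lit 73755) (nat_lit 8) (.e (nat_lit 557090) (nat_lit 12) (.e (nat_lit 163844) (nat_lit 0) .nil)))))))) (.g (nat_lit 1) (.e (nat_lit 112010) (nat_lit 0) .nil) .nil))) 
(.lf (nat_lit 481173) (.g (nat_lit 4388) (.e (nat_lit 5270) (nat_lit 298) (.e (nat_lit 1239) (nat_lit 91) (.e (nat_lit 90170) (nat_lit 13) (.e (nat_lit 172113) (nat_lit 10) (.e (nat_lit 434245) (nat_lit 28) (.e (nat_lit 573451) (nat_lit 9) (.e (nat_lit 7936) (nat_lit 30) (.e (nat_lit 409604) (nat_lit 0) .nil)))))))) (.g (nat_lit 1) (.e (nat_lit 112595) (nat_lit 0) .nil) .nil)))))) 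
(.nd (nat_lit 7) (.nd (nat_lit 8) (.nd (nat_lit 9) 
(.lf (nat_lit 480341) (.g (nat_lit 2590) (.e (nat_lit 5937) (nat_lit 322) (.e (nat_lit 57379) (nat_lit 3) (.e (nat_lit 98366) (nat_lit 27) (.e (nat_lit 434244) (nat_lit 28) (.e (nat_lit 573487) (nat_lit 14) (.e (nat_lit 73753) (nat_lit 8) (.e (nat_lit 557090) (nat_lit 12) (.e (nat_lit 163840) (nat_lit 0) .nil)))))))) (.g (nat_lit 1) (.e (nat_lit 111677) (nat_lit 0) .nil) .nil))) 
(.lf (nat_lit 480853) (.g (nat_lit 2172) (.e (nat_lit 5948) (nat_lit 322) (.e (nat_lit 57371) (nat_lit 2) (.e (nat_lit 90174) (nat_lit 14) (.e (nat_lit 180245) (nat_lit 5) (.e (nat_lit 532515) (nat_lit 3) .nil))))) (.g (nat_lit 0) (.e (nat_lit 112207) (nat_lit 0) .nil) .nil)))) (.nd (nat_lit 9) 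
(.lf (nat_lit 480597) (.g (nat_lit 2379) (.e (nat_lit 5942) (nat_lit 322) (.e (nat_lit 57373) (nat_lit 2) (.e (nat_lit 90174) (nat_lit 14) (.e (nat_lit 180250) (nat_lit 10) (.e (nat_lit 573489) (nat_lit 14) .nil))))) (.g (nat_lit 0) (.e (nat_lit 111946) (nat_lit 0) .nil) .nil))) 
(.lf (nat_lit 481109) (.g (nat_lit 4474) (.e (nat_lit 5954) (nat_lit 322) (.e (nat_lit 57371) (nat_lit 2) (.e (nat_lit 90174) (nat_lit 14) (.e (nat_lit 180250) (nat_lit 10) (.e (nat_lit 573489) (nat_lit 14) (.e (nat_lit 73755) (nat_lit 8) (.e (nat_lit 557090) (nat_lit 12) (.e (nat_lit 163841) (nat_lit 0) .nil)))))))) (.g (nat_lit 1) (.e (nat_lit 112495) (nat_lit 0) .nil) .nil))))) 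
(.nd (nat_lit 8) (.nd (nat_lit 9) 
(.lf (nat_lit 480469) (.g (nat_lit 3767) (.e (nat_lit 5939) (nat_lit 322) (.e (nat_lit 57379) (nat_lit 3) (.e (nat_lit 98366) (nat_lit 27) (.e (nat_lit 434244) (nat_lit 28) (.e (nat_lit 573487) (nat_lit 14) (.e (nat_lit 73753) (nat_lit 8) (.e (nat_lit 557094) (nat_lit 12) (.e (nat_lit 163840) (nat_lit 0) .nil)))))))) (.g (nat_lit 1) (.e (nat_lit 111816) (nat_lit 0) .nil) .nil))) 
(.lf (nat_lit 480981) (.g (nat_lit 2283) (.e (nat_lit 5949) (nat_lit 322) (.e (nat_lit 57409) (nat_lit 12) (.e (nat_lit 336443) (nat_lit 32) (.e (nat_lit 466977) (nat_lit 22) (.e (nat_lit 196653) (nat_lit 11) .nil))))) (.g (nat_lit 0) (.e (nat_lit 112348) (nat_lit 0) .nil) .nil)))) (.nd (nat_lit 9) 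
(.lf (nat_lit 480725) (.g (nat_lit 1961) (.e (nat_lit 5944) (nat_lit 322) (.e (nat_lit 57373) (nat_lit 2) (.e (nat_lit 90174) (nat_lit 14) (.e (nat_lit 180243) (nat_lit 5) (.e (nat_lit 532515) (nat_lit 3) (.e (nat_lit 114719) (nat_lit 23) (.e (nat_lit 98325) (nat_lit 17) (.e (nat_lit 2505) (nat_lit 157) .nil)))))))) (.g (nat_lit 1) (.e (nat_lit 112075) (nat_lit 0) .nil) .nil))) 
(.lf (nat_lit 481237) (.g (nat_lit 3425) (.e (nat_lit 5293) (nat_lit 298) (.e (nat_lit 1250) (nat_lit 92) (.e (nat_lit 98373) (nat_lit 29) (.e (nat_lit 450588) (nat_lit 10) (.e (nat_lit 573449) (nat_lit 9) (.e (nat_lit 359) (nat_lit 30) (.e (nat_lit 409603) (nat_lit 0) .nil))))))) (.g (nat_lit 1) (.e (nat_lit 112795) (nat_lit 0) .nil) .nil))))))) 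
(.nd (nat_lit 6) (.nd (nat_lit 7) (.nd (nat_lit 8) (.nd (nat_lit 9) 
(.lf (nat_lit 480309) (.g (nat_lit 3850) (.e (nat_lit 5937) (nat_lit 322) (.e (nat_lit 57378) (nat_lit 3) (.e (nat_lit 98365) (nat_lit 26) (.e (nat_lit 426325) (nat_lit 13) (.e (nat_lit 483337) (nat_lit 9) (.e (nat_lit 426031) (nat_lit 0) (.e (nat_lit 2466) (nat_lit 157) .nil))))))) (.g (nat_lit 1) (.e (nat_lit 111645) (nat_lit 0) .nil) .nil))) 
(.lf (nat_lit 480821) (.g (nat_lit 2058) (.e (nat_lit 5947) (nat_lit 322) (.e (nat_lit 57371) (nat_lit 2) (.e (nat_lit 90174) (nat_lit 14) (.e (nat_lit 180243) (nat_lit 5) (.e (nat_lit 532515) (nat_lit 3) .nil))))) (.g (nat_lit 0) (.e (nat_lit 112174) (nat_lit 0) .nil) .nil)))) (.nd (nat_lit 9) 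
(.lf (nat_lit 480565) (.g (nat_lit 3736) (.e (nat_lit 5941) (nat_lit 322) (.e (nat_lit 57371) (nat_lit 2) (.e (nat_lit 90174) (nat_lit 14) (.e (nat_lit 180251) (nat_lit 10) (.e (nat_lit 573489) (nat_lit 14) (.e (nat_lit 73755) (nat_lit 8) (.e (nat_lit 557091) (nat_lit 12) (.e (nat_lit 163841) (nat_lit 0) .nil)))))))) (.g (nat_lit 1) (.e (nat_lit 111912) (nat_lit 0) .nil) .nil))) 
(.lf (nat_lit 481077) (.g (nat_lit 3911) (.e (nat_lit 5953) (nat_lit 322) (.e (nat_lit 57373) (nat_lit 2) (.e (nat_lit 90174) (nat_lit 14) (.e (nat_lit 180243) (nat_lit 5) (.e (nat_lit 532515) (nat_lit 3) (.e (nat_lit 114719) (nat_lit 23) (.e (nat_lit 98331) (nat_lit 17) (.e (nat_lit 2479) (nat_lit 157) .nil)))))))) (.g (nat_lit 1) (.e (nat_lit 112459) (nat_lit 0) .nil) .nil))))) 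
(.nd (nat_lit 8) (.nd (nat_lit 9) 
(.lf (nat_lit 480437) (.g (nat_lit 2882) (.e (nat_lit 5939) (nat_lit 322) (.e (nat_lit 57379) (nat_lit 3) (.e (nat_lit 98365) (nat_lit 26) (.e (nat_lit 426325) (nat_lit 13) (.e (nat_lit 483337) (nat_lit 9) (.e (nat_lit 426030) (nat_lit 0) (.e (nat_lit 2470) (nat_lit 157) .nil))))))) (.g (nat_lit 1) (.e (nat_lit 111784) (nat_lit 0) .nil) .nil))) 
(.lf (nat_lit 480949) (.g (nat_lit 4420) (.e (nat_lit 5949) (nat_lit 322) (.e (nat_lit 57373) (nat_lit 2) (.e (nat_lit 90174) (nat_lit 14) (.e (nat_lit 180251) (nat_lit 10) (.e (nat_lit 573489) (nat_lit 14) (.e (nat_lit 73754) (nat_lit 8) (.e (nat_lit 557093) (nat_lit 12) (.e (nat_lit 163857) (nat_lit 0) .nil)))))))) (.g (nat_lit 1) (.e (nat_lit 112305) (nat_lit 0) .nil) .nil)))) (.nd (nat_lit 9) 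
(.lf (nat_lit 480693) (.g (nat_lit 5113) (.e (nat_lit 5943) (nat_lit 322) (.e (nat_lit 57379) (nat_lit 3) (.e (nat_lit 98366) (nat_lit 27) (.e (nat_lit 434244) (nat_lit 28) (.e (nat_lit 573488) (nat_lit 14) (.e (nat_lit 73755) (nat_lit 8) (.e (nat_lit 557090) (nat_lit 12) (.e (nat_lit 163844) (nat_lit 0) .nil)))))))) (.g (nat_lit 1) (.e (nat_lit 112043) (nat_lit 0) .nil) .nil))) 
(.lf (nat_lit 481205) (.g (nat_lit 2166) (.e (nat_lit 5272) (nat_lit 298) (.e (nat_lit 1239) (nat_lit 91) (.e (nat_lit 90170) (nat_lit 13) (.e (nat_lit 172115) (nat_lit 10) .nil)))) (.g (nat_lit 0) (.e (nat_lit 112634) (nat_lit 0) .nil) .nil)))))) (.nd (nat_lit 7) (.nd (nat_lit 8) (.nd (nat_lit 9) 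
(.lf (nat_lit 480373) (.g (nat_lit 2308) (.e (nat_lit 5938) (nat_lit 322) (.e (nat_lit 57372) (nat_lit 2) (.e (nat_lit 90174) (nat_lit 14) (.e (nat_lit 180243) (nat_lit 5) (.e (nat_lit 532513) (nat_lit 3) (.e (nat_lit 114714) (nat_lit 22) (.e (nat_lit 90181) (nat_lit 16) (.e (nat_lit 229376) (nat_lit 0) .nil)))))))) (.g (nat_lit 1) (.e (nat_lit 111719) (nat_lit 0) .nil) .nil))) 
(.lf (nat_lit 480885) (.g (nat_lit 733) (.e (nat_lit 5948) (nat_lit 322) (.e (nat_lit 57409) (nat_lit 12) (.e (nat_lit 336443) (nat_lit 32) .nil))) (.g (nat_lit 0) (.e (nat_lit 112240) (nat_lit 0) .nil) .nil)))) (.nd (nat_lit 9) 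
(.lf (nat_lit 480629) (.g (nat_lit 4601) (.e (nat_lit 5943) (nat_lit 322) (.e (nat_lit 57372) (nat_lit 2) (.e (nat_lit 90172) (nat_lit 14) (.e (nat_lit 180252) (nat_lit 10) (.e (nat_lit 573489) (nat_lit 14) (.e (nat_lit 73755) (nat_lit 8) (.e (nat_lit 557090) (nat_lit 12) (.e (nat_lit 163844) (nat_lit 0) .nil)))))))) (.g (nat_lit 1) (.e (nat_lit 111978) (nat_lit 0) .nil) .nil))) 
(.lf (nat_lit 481141) (.g (nat_lit 1401) (.e (nat_lit 7936) (nat_lit 322) (.e (nat_lit 57435) (nat_lit 17) (.e (nat_lit 376835) (nat_lit 0) (.e (nat_lit 3748) (nat_lit 228) (.e (nat_lit 786483) (nat_lit 30) .nil))))) (.g (nat_lit 0) (.e (nat_lit 112535) (nat_lit 0) .nil) .nil))))) (.nd (nat_lit 8) (.nd (nat_lit 9) 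
(.lf (nat_lit 480501) (.g (nat_lit 817) (.e (nat_lit 5939) (nat_lit 322) (.e (nat_lit 57411) (nat_lit 12) (.e (nat_lit 336208) (nat_lit 12) .nil))) (.g (nat_lit 0) (.e (nat_lit 111848) (nat_lit 0) .nil) .nil))) 
(.lf (nat_lit 481013) (.g (nat_lit 1141) (.e (nat_lit 5949) (nat_lit 322) (.e (nat_lit 57447) (nat_lit 19) (.e (nat_lit 393246) (nat_lit 17) .nil))) (.g (nat_lit 0) (.e (nat_lit 112395) (nat_lit 0) .nil) .nil)))) (.nd (nat_lit 9) 
(.lf (nat_lit 480757) (.g (nat_lit 4397) (.e (nat_lit 5945) (nat_lit 322) (.e (nat_lit 57371) (nat_lit 2) (.e (nat_lit 90174) (nat_lit 14) (.e (nat_lit 180252) (nat_lit 10) (.e (nat_lit 573489) (nat_lit 14) (.e (nat_lit 73755) (nat_lit 8) (.e (nat_lit 557090) (nat_lit 12) (.e (nat_lit 163843) (nat_lit 0) .nil)))))))) (.g (nat_lit 1) (.e (nat_lit 112107) (nat_lit 0) .nil) .nil))) 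
(.lf (nat_lit 481269) (.g (nat_lit 2235) (.e (nat_lit 5386) (nat_lit 300) (.e (nat_lit 16470) (nat_lit 14) (.e (nat_lit 491571) (nat_lit 13) (.e (nat_lit 393242) (nat_lit 17) .nil)))) (.g (nat_lit 0) (.e (nat_lit 112872) (nat_lit 0) .nil) .nil))))))))) (.nd (nat_lit 4) (.nd (nat_lit 5) (.nd (nat_lit 6) (.nd (nat_lit 7) (.nd (nat_lit 8) (.nd (nat_lit 9) 
(.lf (nat_lit 480269) (.g (nat_lit 2817) (.e (nat_lit 5937) (nat_lit 322) (.e (nat_lit 57372) (nat_lit 2) (.e (nat_lit 90174) (nat_lit 14) (.e (nat_lit 180251) (nat_lit 10) (.e (nat_lit 573489) (nat_lit 14) (.e (nat_lit 73755) (nat_lit 8) (.e (nat_lit 557091) (nat_lit 12) (.e (nat_lit 171776) (nat_lit 0) .nil)))))))) (.g (nat_lit 1) (.e (nat_lit 111601) (nat_lit 0) .nil) .nil))) 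
(.lf (nat_lit 480781) (.g (nat_lit 2958) (.e (nat_lit 5946) (nat_lit 322) (.e (nat_lit 57373) (nat_lit 2) (.e (nat_lit 90174) (nat_lit 14) (.e (nat_lit 180243) (nat_lit 5) (.e (nat_lit 532515) (nat_lit 3) (.e (nat_lit 114715) (nat_lit 22) (.e (nat_lit 90165) (nat_lit 12) (.e (nat_lit 163857) (nat_lit 0) .nil)))))))) (.g (nat_lit 1) (.e (nat_lit 112131) (nat_lit 0) .nil) .nil)))) (.nd (nat_lit 9) 
(.lf (nat_lit 480525) (.g (nat_lit 2592) (.e (nat_lit 5940) (nat_lit 322) (.e (nat_lit 57373) (nat_lit 2) (.e (nat_lit 90174) (nat_lit 14) (.e (nat_lit 180250) (nat_lit 10) (.e (nat_lit 573487) (nat_lit 14) .nil))))) (.g (nat_lit 0) (.e (nat_lit 111872) (nat_lit 0) .nil) .nil))) 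
(.lf (nat_lit 481037) (.g (nat_lit 5211) (.e (nat_lit 5951) (nat_lit 322) (.e (nat_lit 57371) (nat_lit 2) (.e (nat_lit 90174) (nat_lit 14) (.e (nat_lit 180250) (nat_lit 10) (.e (nat_lit 573489) (nat_lit 14) (.e (nat_lit 73755) (nat_lit 8) (.e (nat_lit 557090) (nat_lit 12) (.e (nat_lit 163850) (nat_lit 0) .nil)))))))) (.g (nat_lit 1) (.e (nat_lit 112419) (nat_lit 0) .nil) .nil))))) 
(.nd (nat_lit 8) (.nd (nat_lit 9) 
(.lf (nat_lit 480397) (.g (nat_lit 2944) (.e (nat_lit 5939) (nat_lit 322) (.e (nat_lit 57372) (nat_lit 2) (.e (nat_lit 90174) (nat_lit 14) (.e (nat_lit 180243) (nat_lit 5) (.e (nat_lit 532515) (nat_lit 3) (.e (nat_lit 114716) (nat_lit 22) (.e (nat_lit 90163) (nat_lit 12) (.e (nat_lit 163850) (nat_lit 0) .nil)))))))) (.g (nat_lit 1) (.e (nat_lit 111743) (nat_lit 0) .nil) .nil))) 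
(.lf (nat_lit 480909) (.g (nat_lit 473) (.e (nat_lit 5948) (nat_lit 322) (.e (nat_lit 57435) (nat_lit 17) (.e (nat_lit 376835) (nat_lit 0) .nil))) (.g (nat_lit 0) (.e (nat_lit 112265) (nat_lit 0) .nil) .nil)))) (.nd (nat_lit 9) 
(.lf (nat_lit 480653) (.g (nat_lit 2653) (.e (nat_lit 5943) (nat_lit 322) (.e (nat_lit 57373) (nat_lit 2) (.e (nat_lit 90174) (nat_lit 14) (.e (nat_lit 180250) (nat_lit 10) (.e (nat_lit 573489) (nat_lit 14) (.e (nat_lit 73755) (nat_lit 8) (.e (nat_lit 557091) (nat_lit 12) (.e (nat_lit 163841) (nat_lit 0) .nil)))))))) (.g (nat_lit 1) (.e (nat_lit 112002) (nat_lit 0) .nil) .nil))) 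
(.lf (nat_lit 481165) (.g (nat_lit 2633) (.e (nat_lit 5270) (nat_lit 298) (.e (nat_lit 1239) (nat_lit 91) (.e (nat_lit 90170) (nat_lit 13) (.e (nat_lit 172113) (nat_lit 10) (.e (nat_lit 434242) (nat_lit 28) (.e (nat_lit 573455) (nat_lit 9) (.e (nat_lit 359) (nat_lit 30) (.e (nat_lit 409603) (nat_lit 0) .nil)))))))) (.g (nat_lit 1) (.e (nat_lit 112587) (nat_lit 0) .nil) .nil)))))) 
(.nd (nat_lit 7) (.nd (nat_lit 8) (.nd (nat_lit 9) 
(.lf (nat_lit 480333) (.g (nat_lit 1432) (.e (nat_lit 5937) (nat_lit 322) (.e (nat_lit 57379) (nat_lit 3) (.e (nat_lit 98365) (nat_lit 26) (.e (nat_lit 426325) (nat_lit 13) .nil)))) (.g (nat_lit 0) (.e (nat_lit 111669) (nat_lit 0) .nil) .nil))) 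
(.lf (nat_lit 480845) (.g (nat_lit 3309) (.e (nat_lit 5947) (nat_lit 322) (.e (nat_lit 57449) (nat_lit 20) (.e (nat_lit 401454) (nat_lit 12) (.e (nat_lit 475210) (nat_lit 41) (.e (nat_lit 712755) (nat_lit 30) (.e (nat_lit 450569) (nat_lit 0) .nil)))))) (.g (nat_lit 1) (.e (nat_lit 112199) (nat_lit 0) .nil) .nil)))) (.nd (nat_lit 9) 
(.lf (nat_lit 480589) (.g (nat_lit 2073) (.e (nat_lit 5941) (nat_lit 322) (.e (nat_lit 57409) (nat_lit 12) (.e (nat_lit 336443) (nat_lit 32) (.e (nat_lit 466974) (nat_lit 22) .nil)))) (.g (nat_lit 0) (.e (nat_lit 111936) (nat_lit 0) .nil) .nil))) 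
(.lf (nat_lit 481101) (.g (nat_lit 1303) (.e (nat_lit 5953) (nat_lit 322) (.e (nat_lit 57435) (nat_lit 17) (.e (nat_lit 376835) (nat_lit 0) (.e (nat_lit 3746) (nat_lit 228) (.e (nat_lit 786481) (nat_lit 30) .nil))))) (.g (nat_lit 0) (.e (nat_lit 112486) (nat_lit 0) .nil) .nil))))) (.nd (nat_lit 8) (.nd (nat_lit 9) 
(.lf (nat_lit 480461) (.g (nat_lit 2109) (.e (nat_lit 5939) (nat_lit 322) (.e (nat_lit 57379) (nat_lit 3) (.e (nat_lit 98366) (nat_lit 27) (.e (nat_lit 434231) (nat_lit 23) (.e (nat_lit 532514) (nat_lit 3) (.e (nat_lit 114715) (nat_lit 22) (.e (nat_lit 90182) (nat_lit 16) (.e (nat_lit 229379) (nat_lit 0) .nil)))))))) (.g (nat_lit 1) (.e (nat_lit 111808) (nat_lit 0) .nil) .nil))) 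
(.lf (nat_lit 480973) (.g (nat_lit 1330) (.e (nat_lit 5949) (nat_lit 322) (.e (nat_lit 57409) (nat_lit 12) (.e (nat_lit 336421) (nat_lit 28) (.e (nat_lit 434206) (nat_lit 18) .nil)))) (.g (nat_lit 0) (.e (nat_lit 112339) (nat_lit 0) .nil) .nil)))) (.nd (nat_lit 9) 
(.lf (nat_lit 480717) (.g (nat_lit 499) (.e (nat_lit 5944) (nat_lit 322) (.e (nat_lit 57347) (nat_lit 0) (.e (nat_lit 1829) (nat_lit 122) .nil))) (.g (nat_lit 0) (.e (nat_lit 112067) (nat_lit 0) .nil) .nil))) 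
(.lf (nat_lit 481229) (.g (nat_lit 1800) (.e (nat_lit 5293) (nat_lit 298) (.e (nat_lit 1250) (nat_lit 92) (.e (nat_lit 98372) (nat_lit 29) (.e (nat_lit 450586) (nat_lit 10) (.e (nat_lit 573456) (nat_lit 9) .nil))))) (.g (nat_lit 0) (.e (nat_lit 112787) (nat_lit 0) .nil) .nil))))))) (.nd (nat_lit 6) (.nd (nat_lit 7) (.nd (nat_lit 8) (.nd (nat_lit 9) 
(.lf (nat_lit 480301) (.g (nat_lit 1750) (.e (nat_lit 5937) (nat_lit 322) (.e (nat_lit 57377) (nat_lit 3) (.e (nat_lit 98365) (nat_lit 26) (.e (nat_lit 426325) (nat_lit 13) (.e (nat_lit 483341) (nat_lit 9) .nil))))) (.g (nat_lit 0) (.e (nat_lit 111633) (nat_lit 0) .nil) .nil))) 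
(.lf (nat_lit 480813) (.g (nat_lit 3363) (.e (nat_lit 5946) (nat_lit 322) (.e (nat_lit 57412) (nat_lit 12) (.e (nat_lit 336226) (nat_lit 14) (.e (nat_lit 401437) (nat_lit 9) (.e (nat_lit 426544) (nat_lit 30) (.e (nat_lit 360457) (nat_lit 0) .nil)))))) (.g (nat_lit 1) (.e (nat_lit 112163) (nat_lit 0) .nil) .nil)))) (.nd (nat_lit 9) 
(.lf (nat_lit 480557) (.g (nat_lit 4130) (.e (nat_lit 5940) (nat_lit 322) (.e (nat_lit 57375) (nat_lit 2) (.e (nat_lit 90174) (nat_lit 14) (.e (nat_lit 180252) (nat_lit 10) (.e (nat_lit 573489) (nat_lit 14) (.e (nat_lit 73755) (nat_lit 8) (.e (nat_lit 557090) (nat_lit 12) (.e (nat_lit 163844) (nat_lit 0) .nil)))))))) (.g (nat_lit 1) (.e (nat_lit 111904) (nat_lit 0) .nil) .nil))) 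
(.lf (nat_lit 481069) (.g (nat_lit 2962) (.e (nat_lit 5953) (nat_lit 322) (.e (nat_lit 57371) (nat_lit 2) (.e (nat_lit 90174) (nat_lit 14) (.e (nat_lit 180252) (nat_lit 10) (.e (nat_lit 573489) (nat_lit 14) (.e (nat_lit 73755) (nat_lit 8) (.e (nat_lit 557090) (nat_lit 12) (.e (nat_lit 163854) (nat_lit 0) .nil)))))))) (.g (nat_lit 1) (.e (nat_lit 112451) (nat_lit 0) .nil) .nil))))) 
(.nd (nat_lit 8) (.nd (nat_lit 9) 
(.lf (nat_lit 480429) (.g (nat_lit 2451) (.e (nat_lit 5939) (nat_lit 322) (.e (nat_lit 57375) (nat_lit 2) (.e (nat_lit 90174) (nat_lit 14) (.e (nat_lit 180250) (nat_lit 10) (.e (nat_lit 573487) (nat_lit 14) .nil))))) (.g (nat_lit 0) (.e (nat_lit 111775) (nat_lit 0) .nil) .nil))) 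
(.lf (nat_lit 480941) (.g (nat_lit 2366) (.e (nat_lit 5949) (nat_lit 322) (.e (nat_lit 57373) (nat_lit 2) (.e (nat_lit 90174) (nat_lit 14) (.e (nat_lit 180243) (nat_lit 5) (.e (nat_lit 532515) (nat_lit 3) (.e (nat_lit 114718) (nat_lit 23) (.e (nat_lit 98325) (nat_lit 17) (.e (nat_lit 2515) (nat_lit 157) .nil)))))))) (.g (nat_lit 1) (.e (nat_lit 112297) (nat_lit 0) .nil) .nil)))) (.nd (nat_lit 9) 
(.lf (nat_lit 480685) (.g (nat_lit 4366) (.e (nat_lit 5943) (nat_lit 322) (.e (nat_lit 57375) (nat_lit 2) (.e (nat_lit 90174) (nat_lit 14) (.e (nat_lit 180251) (nat_lit 10) (.e (nat_lit 573489) (nat_lit 14) (.e (nat_lit 73755) (nat_lit 8) (.e (nat_lit 557091) (nat_lit 12) (.e (nat_lit 163841) (nat_lit 0) .nil)))))))) (.g (nat_lit 1) (.e (nat_lit 112034) (nat_lit 0) .nil) .nil))) 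
(.lf (nat_lit 481197) (.g (nat_lit 3426) (.e (nat_lit 5270) (nat_lit 298) (.e (nat_lit 1239) (nat_lit 91) (.e (nat_lit 90170) (nat_lit 13) (.e (nat_lit 172113) (nat_lit 10) (.e (nat_lit 434248) (nat_lit 28) (.e (nat_lit 573457) (nat_lit 9) (.e (nat_lit 359) (nat_lit 30) (.e (nat_lit 409604) (nat_lit 0) .nil)))))))) (.g (nat_lit 1) (.e (nat_lit 112619) (nat_lit 0) .nil) .nil)))))) 
(.nd (nat_lit 7) (.nd (nat_lit 8) (.nd (nat_lit 9) 
(.lf (nat_lit 480365) (.g (nat_lit 2068) (.e (nat_lit 5937) (nat_lit 322) (.e (nat_lit 57437) (nat_lit 17) (.e (nat_lit 376835) (nat_lit 0) (.e (nat_lit 3746) (nat_lit 228) (.e (nat_lit 786483) (nat_lit 30) (.e (nat_lit 368384) (nat_lit 0) .nil)))))) (.g (nat_lit 1) (.e (nat_lit 111711) (nat_lit 0) .nil) .nil))) 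
(.lf (nat_lit 480877) (.g (nat_lit 3153) (.e (nat_lit 5948) (nat_lit 322) (.e (nat_lit 57377) (nat_lit 3) (.e (nat_lit 98365) (nat_lit 26) (.e (nat_lit 426188) (nat_lit 9) (.e (nat_lit 426479) (nat_lit 27) (.e (nat_lit 336421) (nat_lit 28) (.e (nat_lit 434216) (nat_lit 18) .nil))))))) (.g (nat_lit 1) (.e (nat_lit 112231) (nat_lit 0) .nil) .nil)))) (.nd (nat_lit 9) 
(.lf (nat_lit 480621) (.g (nat_lit 2175) (.e (nat_lit 5943) (nat_lit 322) (.e (nat_lit 57372) (nat_lit 2) (.e (nat_lit 90171) (nat_lit 14) (.e (nat_lit 180252) (nat_lit 10) (.e (nat_lit 573489) (nat_lit 14) (.e (nat_lit 73755) (nat_lit 8) (.e (nat_lit 557090) (nat_lit 12) (.e (nat_lit 163844) (nat_lit 0) .nil)))))))) (.g (nat_lit 1) (.e (nat_lit 111970) (nat_lit 0) .nil) .nil))) 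
(.lf (nat_lit 481133) (.g (nat_lit 2908) (.e (nat_lit 5954) (nat_lit 322) (.e (nat_lit 57409) (nat_lit 12) (.e (nat_lit 336443) (nat_lit 32) (.e (nat_lit 466977) (nat_lit 22) (.e (nat_lit 196656) (nat_lit 11) .nil))))) (.g (nat_lit 0) (.e (nat_lit 112519) (nat_lit 0) .nil) .nil))))) (.nd (nat_lit 8) (.nd (nat_lit 9) 
(.lf (nat_lit 480493) (.g (nat_lit 2291) (.e (nat_lit 5939) (nat_lit 322) (.e (nat_lit 57379) (nat_lit 3) (.e (nat_lit 98367) (nat_lit 27) (.e (nat_lit 434247) (nat_lit 28) (.e (nat_lit 573489) (nat_lit 14) (.e (nat_lit 73755) (nat_lit 8) (.e (nat_lit 557091) (nat_lit 12) (.e (nat_lit 163851) (nat_lit 0) .nil)))))))) (.g (nat_lit 1) (.e (nat_lit 111840) (nat_lit 0) .nil) .nil))) 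
(.lf (nat_lit 481005) (.g (nat_lit 519) (.e (nat_lit 5949) (nat_lit 322) (.e (nat_lit 57427) (nat_lit 15) (.e (nat_lit 360483) (nat_lit 15) .nil))) (.g (nat_lit 0) (.e (nat_lit 112381) (nat_lit 0) .nil) .nil)))) (.nd (nat_lit 9) 
(.lf (nat_lit 480749) (.g (nat_lit 2470) (.e (nat_lit 5945) (nat_lit 322) (.e (nat_lit 57371) (nat_lit 2) (.e (nat_lit 90174) (nat_lit 14) (.e (nat_lit 180250) (nat_lit 10) (.e (nat_lit 573487) (nat_lit 14) .nil))))) (.g (nat_lit 0) (.e (nat_lit 112099) (nat_lit 0) .nil) .nil))) 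
(.lf (nat_lit 481261) (.g (nat_lit 708) (.e (nat_lit 5380) (nat_lit 300) (.e (nat_lit 16470) (nat_lit 14) (.e (nat_lit 491571) (nat_lit 13) .nil))) (.g (nat_lit 0) (.e (nat_lit 112854) (nat_lit 0) .nil) .nil)))))))) (.nd (nat_lit 5) (.nd (nat_lit 6) (.nd (nat_lit 7) (.nd (nat_lit 8) (.nd (nat_lit 9) 
(.lf (nat_lit 480285) (.g (nat_lit 2373) (.e (nat_lit 5937) (nat_lit 322) (.e (nat_lit 57374) (nat_lit 2) (.e (nat_lit 90174) (nat_lit 14) (.e (nat_lit 180251) (nat_lit 10) (.e (nat_lit 573489) (nat_lit 14) (.e (nat_lit 73755) (nat_lit 8) (.e (nat_lit 557091) (nat_lit 12) (.e (nat_lit 163840) (nat_lit 0) .nil)))))))) (.g (nat_lit 1) (.e (nat_lit 111617) (nat_lit 0) .nil) .nil))) 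
(.lf (nat_lit 480797) (.g (nat_lit 2059) (.e (nat_lit 5946) (nat_lit 322) (.e (nat_lit 57377) (nat_lit 3) (.e (nat_lit 98365) (nat_lit 26) (.e (nat_lit 426187) (nat_lit 9) (.e (nat_lit 426479) (nat_lit 27) (.e (nat_lit 336421) (nat_lit 28) (.e (nat_lit 434216) (nat_lit 18) .nil))))))) (.g (nat_lit 1) (.e (nat_lit 112147) (nat_lit 0) .nil) .nil)))) (.nd (nat_lit 9) 
(.lf (nat_lit 480541) (.g (nat_lit 4196) (.e (nat_lit 5940) (nat_lit 322) (.e (nat_lit 57375) (nat_lit 2) (.e (nat_lit 90173) (nat_lit 14) (.e (nat_lit 180252) (nat_lit 10) (.e (nat_lit 573489) (nat_lit 14) (.e (nat_lit 73755) (nat_lit 8) (.e (nat_lit 557090) (nat_lit 12) (.e (nat_lit 163843) (nat_lit 0) .nil)))))))) (.g (nat_lit 1) (.e (nat_lit 111888) (nat_lit 0) .nil) .nil))) 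
(.lf (nat_lit 481053) (.g (nat_lit 2458) (.e (nat_lit 5951) (nat_lit 322) (.e (nat_lit 57378) (nat_lit 3) (.e (nat_lit 98368) (nat_lit 27) (.e (nat_lit 434247) (nat_lit 28) (.e (nat_lit 573489) (nat_lit 14) (.e (nat_lit 73755) (nat_lit 8) (.e (nat_lit 557091) (nat_lit 12) (.e (nat_lit 163840) (nat_lit 0) .nil)))))))) (.g (nat_lit 1) (.e (nat_lit 112435) (nat_lit 0) .nil) .nil))))) 
(.nd (nat_lit 8) (.nd (nat_lit 9) 
(.lf (nat_lit 480413) (.g (nat_lit 3265) (.e (nat_lit 5939) (nat_lit 322) (.e (nat_lit 57375) (nat_lit 2) (.e (nat_lit 90172) (nat_lit 14) (.e (nat_lit 180250) (nat_lit 10) (.e (nat_lit 573487) (nat_lit 14) (.e (nat_lit 73753) (nat_lit 8) (.e (nat_lit 557091) (nat_lit 12) (.e (nat_lit 163840) (nat_lit 0) .nil)))))))) (.g (nat_lit 1) (.e (nat_lit 111759) (nat_lit 0) .nil) .nil))) 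
(.lf (nat_lit 480925) (.g (nat_lit 2747) (.e (nat_lit 5949) (nat_lit 322) (.e (nat_lit 57371) (nat_lit 2) (.e (nat_lit 90174) (nat_lit 14) (.e (nat_lit 180252) (nat_lit 10) (.e (nat_lit 573489) (nat_lit 14) (.e (nat_lit 73755) (nat_lit 8) (.e (nat_lit 557090) (nat_lit 12) (.e (nat_lit 163856) (nat_lit 0) .nil)))))))) (.g (nat_lit 1) (.e (nat_lit 112281) (nat_lit 0) .nil) .nil)))) (.nd (nat_lit 9) 
(.lf (nat_lit 480669) (.g (nat_lit 4838) (.e (nat_lit 5943) (nat_lit 322) (.e (nat_lit 57375) (nat_lit 2) (.e (nat_lit 90172) (nat_lit 14) (.e (nat_lit 180251) (nat_lit 10) (.e (nat_lit 573489) (nat_lit 14) (.e (nat_lit 73755) (nat_lit 8) (.e (nat_lit 557090) (nat_lit 12) (.e (nat_lit 163844) (nat_lit 0) .nil)))))))) (.g (nat_lit 1) (.e (nat_lit 112018) (nat_lit 0) .nil) .nil))) 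
(.lf (nat_lit 481181) (.g (nat_lit 4237) (.e (nat_lit 5270) (nat_lit 298) (.e (nat_lit 1239) (nat_lit 91) (.e (nat_lit 90170) (nat_lit 13) (.e (nat_lit 172113) (nat_lit 10) (.e (nat_lit 434247) (nat_lit 28) (.e (nat_lit 573456) (nat_lit 9) (.e (nat_lit 7936) (nat_lit 30) (.e (nat_lit 409604) (nat_lit 0) .nil)))))))) (.g (nat_lit 1) (.e (nat_lit 112603) (nat_lit 0) .nil) .nil)))))) 
(.nd (nat_lit 7) (.nd (nat_lit 8) (.nd (nat_lit 9) 
(.lf (nat_lit 480349) (.g (nat_lit 2589) (.e (nat_lit 5937) (nat_lit 322) (.e (nat_lit 57379) (nat_lit 3) (.e (nat_lit 98368) (nat_lit 27) (.e (nat_lit 434247) (nat_lit 28) (.e (nat_lit 573489) (nat_lit 14) (.e (nat_lit 73755) (nat_lit 8) (.e (nat_lit 557091) (nat_lit 12) (.e (nat_lit 171776) (nat_lit 0) .nil)))))))) (.g (nat_lit 1) (.e (nat_lit 111685) (nat_lit 0) .nil) .nil))) 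
(.lf (nat_lit 480861) (.g (nat_lit 2845) (.e (nat_lit 5948) (nat_lit 322) (.e (nat_lit 57371) (nat_lit 2) (.e (nat_lit 90174) (nat_lit 14) (.e (nat_lit 180251) (nat_lit 10) (.e (nat_lit 573489) (nat_lit 14) (.e (nat_lit 73754) (nat_lit 8) (.e (nat_lit 557094) (nat_lit 12) (.e (nat_lit 163856) (nat_lit 0) .nil)))))))) (.g (nat_lit 1) (.e (nat_lit 112215) (nat_lit 0) .nil) .nil)))) (.nd (nat_lit 9) 
(.lf (nat_lit 480605) (.g (nat_lit 2008) (.e (nat_lit 5942) (nat_lit 322) (.e (nat_lit 57374) (nat_lit 2) (.e (nat_lit 90173) (nat_lit 14) (.e (nat_lit 180252) (nat_lit 10) (.e (nat_lit 573489) (nat_lit 14) (.e (nat_lit 73755) (nat_lit 8) (.e (nat_lit 557090) (nat_lit 12) (.e (nat_lit 163844) (nat_lit 0) .nil)))))))) (.g (nat_lit 1) (.e (nat_lit 111954) (nat_lit 0) .nil) .nil))) 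
(.lf (nat_lit 481117) (.g (nat_lit 3243) (.e (nat_lit 5954) (nat_lit 322) (.e (nat_lit 57373) (nat_lit 2) (.e (nat_lit 90173) (nat_lit 14) (.e (nat_lit 180252) (nat_lit 10) (.e (nat_lit 573489) (nat_lit 14) (.e (nat_lit 73755) (nat_lit 8) (.e (nat_lit 557090) (nat_lit 12) (.e (nat_lit 163841) (nat_lit 0) .nil)))))))) (.g (nat_lit 1) (.e (nat_lit 112503) (nat_lit 0) .nil) .nil))))) 
(.nd (nat_lit 8) (.nd (nat_lit 9) 
(.lf (nat_lit 480477) (.g (nat_lit 2126) (.e (nat_lit 5939) (nat_lit 322) (.e (nat_lit 57379) (nat_lit 3) (.e (nat_lit 98367) (nat_lit 27) (.e (nat_lit 434231) (nat_lit 23) (.e (nat_lit 532513) (nat_lit 3) .nil))))) (.g (nat_lit 0) (.e (nat_lit 111824) (nat_lit 0) .nil) .nil))) 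
(.lf (nat_lit 480989) (.g (nat_lit 3158) (.e (nat_lit 5949) (nat_lit 322) (.e (nat_lit 57409) (nat_lit 12) (.e (nat_lit 336443) (nat_lit 32) (.e (nat_lit 466977) (nat_lit 22) (.e (nat_lit 196656) (nat_lit 11) (.e (nat_lit 16388) (nat_lit 0) (.e (nat_lit 2485) (nat_lit 157) .nil))))))) (.g (nat_lit 1) (.e (nat_lit 112356) (nat_lit 0) .nil) .nil)))) (.nd (nat_lit 9) 
(.lf (nat_lit 480733) (.g (nat_lit 1486) (.e (nat_lit 5944) (nat_lit 322) (.e (nat_lit 57378) (nat_lit 3) (.e (nat_lit 98365) (nat_lit 26) (.e (nat_lit 426325) (nat_lit 13) .nil)))) (.g (nat_lit 0) (.e (nat_lit 112083) (nat_lit 0) .nil) .nil))) 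
(.lf (nat_lit 481245) (.g (nat_lit 3326) (.e (nat_lit 5351) (nat_lit 298) (.e (nat_lit 1234) (nat_lit 91) (.e (nat_lit 90170) (nat_lit 13) (.e (nat_lit 172106) (nat_lit 10) (.e (nat_lit 434231) (nat_lit 23) .nil))))) (.g (nat_lit 0) (.e (nat_lit 112814) (nat_lit 0) .nil) .nil))))))) (.nd (nat_lit 6) (.nd (nat_lit 7) (.nd (nat_lit 8) (.nd (nat_lit 9) 
(.lf (nat_lit 480317) (.g (nat_lit 3104) (.e (nat_lit 5937) (nat_lit 322) (.e (nat_lit 57378) (nat_lit 3) (.e (nat_lit 98367) (nat_lit 27) (.e (nat_lit 434247) (nat_lit 28) (.e (nat_lit 573489) (nat_lit 14) (.e (nat_lit 73755) (nat_lit 8) (.e (nat_lit 557091) (nat_lit 12) (.e (nat_lit 171776) (nat_lit 0) .nil)))))))) (.g (nat_lit 1) (.e (nat_lit 111653) (nat_lit 0) .nil) .nil))) 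
(.lf (nat_lit 480829) (.g (nat_lit 2342) (.e (nat_lit 5947) (nat_lit 322) (.e (nat_lit 57373) (nat_lit 2) (.e (nat_lit 90174) (nat_lit 14) (.e (nat_lit 180243) (nat_lit 5) (.e (nat_lit 532515) (nat_lit 3) .nil))))) (.g (nat_lit 0) (.e (nat_lit 112182) (nat_lit 0) .nil) .nil)))) (.nd (nat_lit 9) 
(.lf (nat_lit 480573) (.g (nat_lit 2420) (.e (nat_lit 5941) (nat_lit 322) (.e (nat_lit 57372) (nat_lit 2) (.e (nat_lit 90174) (nat_lit 14) (.e (nat_lit 180251) (nat_lit 10) (.e (nat_lit 573489) (nat_lit 14) .nil))))) (.g (nat_lit 0) (.e (nat_lit 111920) (nat_lit 0) .nil) .nil))) 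
(.lf (nat_lit 481085) (.g (nat_lit 5324) (.e (nat_lit 5953) (nat_lit 322) (.e (nat_lit 57373) (nat_lit 2) (.e (nat_lit 90174) (nat_lit 14) (.e (nat_lit 180251) (nat_lit 10) (.e (nat_lit 573489) (nat_lit 14) (.e (nat_lit 73755) (nat_lit 8) (.e (nat_lit 557090) (nat_lit 12) (.e (nat_lit 163854) (nat_lit 0) .nil)))))))) (.g (nat_lit 1) (.e (nat_lit 112467) (nat_lit 0) .nil) .nil))))) 
(.nd (nat_lit 8) (.nd (nat_lit 9) 
(.lf (nat_lit 480445) (.g (nat_lit 1804) (.e (nat_lit 5939) (nat_lit 322) (.e (nat_lit 57379) (nat_lit 3) (.e (nat_lit 98366) (nat_lit 27) (.e (nat_lit 434231) (nat_lit 23) (.e (nat_lit 532507) (nat_lit 2) .nil))))) (.g (nat_lit 0) (.e (nat_lit 111792) (nat_lit 0) .nil) .nil))) 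
(.lf (nat_lit 480957) (.g (nat_lit 2501) (.e (nat_lit 5949) (nat_lit 322) (.e (nat_lit 57378) (nat_lit 3) (.e (nat_lit 98367) (nat_lit 27) (.e (nat_lit 434231) (nat_lit 23) (.e (nat_lit 532513) (nat_lit 3) (.e (nat_lit 114714) (nat_lit 22) (.e (nat_lit 90165) (nat_lit 12) (.e (nat_lit 163857) (nat_lit 0) .nil)))))))) (.g (nat_lit 1) (.e (nat_lit 112313) (nat_lit 0) .nil) .nil)))) (.nd (nat_lit 9) 
(.lf (nat_lit 480701) (.g (nat_lit 4783) (.e (nat_lit 5943) (nat_lit 322) (.e (nat_lit 57379) (nat_lit 3) (.e (nat_lit 98366) (nat_lit 27) (.e (nat_lit 434248) (nat_lit 28) (.e (nat_lit 573489) (nat_lit 14) (.e (nat_lit 73755) (nat_lit 8) (.e (nat_lit 557090) (nat_lit 12) (.e (nat_lit 163843) (nat_lit 0) .nil)))))))) (.g (nat_lit 1) (.e (nat_lit 112051) (nat_lit 0) .nil) .nil))) 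
(.lf (nat_lit 481213) (.g (nat_lit 1726) (.e (nat_lit 5277) (nat_lit 298) (.e (nat_lit 1250) (nat_lit 92) (.e (nat_lit 98350) (nat_lit 24) (.e (nat_lit 409644) (nat_lit 18) (.e (nat_lit 303119) (nat_lit 3) .nil))))) (.g (nat_lit 0) (.e (nat_lit 112764) (nat_lit 0) .nil) .nil)))))) (.nd (nat_lit 7) (.nd (nat_lit 8) (.nd (nat_lit 9) 
(.lf (nat_lit 480381) (.g (nat_lit 3016) (.e (nat_lit 5938) (nat_lit 322) (.e (nat_lit 57373) (nat_lit 2) (.e (nat_lit 90174) (nat_lit 14) (.e (nat_lit 180251) (nat_lit 10) (.e (nat_lit 573489) (nat_lit 14) .nil))))) (.g (nat_lit 0) (.e (nat_lit 111727) (nat_lit 0) .nil) .nil))) 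
(.lf (nat_lit 480893) (.g (nat_lit 1787) (.e (nat_lit 5948) (nat_lit 322) (.e (nat_lit 57417) (nat_lit 12) (.e (nat_lit 336440) (nat_lit 32) (.e (nat_lit 466977) (nat_lit 22) (.e (nat_lit 196656) (nat_lit 11) .nil))))) (.g (nat_lit 0) (.e (nat_lit 112248) (nat_lit 0) .nil) .nil)))) (.nd (nat_lit 9) 
(.lf (nat_lit 480637) (.g (nat_lit 3069) (.e (nat_lit 5943) (nat_lit 322) (.e (nat_lit 57372) (nat_lit 2) (.e (nat_lit 90174) (nat_lit 14) (.e (nat_lit 180250) (nat_lit 10) (.e (nat_lit 573489) (nat_lit 14) (.e (nat_lit 73755) (nat_lit 8) (.e (nat_lit 557090) (nat_lit 12) (.e (nat_lit 163840) (nat_lit 0) .nil)))))))) (.g (nat_lit 1) (.e (nat_lit 111986) (nat_lit 0) .nil) .nil))) 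
(.lf (nat_lit 481149) (.g (nat_lit 2790) (.e (nat_lit 5245) (nat_lit 298) (.e (nat_lit 1256) (nat_lit 92) (.e (nat_lit 98372) (nat_lit 29) (.e (nat_lit 450588) (nat_lit 10) (.e (nat_lit 573452) (nat_lit 9) .nil))))) (.g (nat_lit 0) (.e (nat_lit 112551) (nat_lit 0) .nil) .nil))))) (.nd (nat_lit 8) (.nd (nat_lit 9) 
(.lf (nat_lit 480509) (.g (nat_lit 2066) (.e (nat_lit 5940) (nat_lit 322) (.e (nat_lit 57371) (nat_lit 2) (.e (nat_lit 90173) (nat_lit 14) (.e (nat_lit 180252) (nat_lit 10) (.e (nat_lit 573489) (nat_lit 14) (.e (nat_lit 73755) (nat_lit 8) (.e (nat_lit 557090) (nat_lit 12) (.e (nat_lit 163840) (nat_lit 0) .nil)))))))) (.g (nat_lit 1) (.e (nat_lit 111856) (nat_lit 0) .nil) .nil))) 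
(.lf (nat_lit 481021) (.g (nat_lit 2320) (.e (nat_lit 5950) (nat_lit 322) (.e (nat_lit 57371) (nat_lit 2) (.e (nat_lit 90174) (nat_lit 14) (.e (nat_lit 180243) (nat_lit 5) (.e (nat_lit 532515) (nat_lit 3) (.e (nat_lit 114719) (nat_lit 23) (.e (nat_lit 98325) (nat_lit 17) (.e (nat_lit 2478) (nat_lit 157) .nil)))))))) (.g (nat_lit 1) (.e (nat_lit 112403) (nat_lit 0) .nil) .nil)))) (.nd (nat_lit 9) 
(.lf (nat_lit 480765) (.g (nat_lit 1931) (.e (nat_lit 5945) (nat_lit 322) (.e (nat_lit 57377) (nat_lit 3) (.e (nat_lit 98365) (nat_lit 26) (.e (nat_lit 426326) (nat_lit 13) (.e (nat_lit 491264) (nat_lit 10) (.e (nat_lit 434208) (nat_lit 18) .nil)))))) (.g (nat_lit 1) (.e (nat_lit 112115) (nat_lit 0) .nil) .nil))) 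
(.lf (nat_lit 481277) (.g (nat_lit 1758) (.e (nat_lit 5389) (nat_lit 301) (.e (nat_lit 57464) (nat_lit 23) (.e (nat_lit 516166) (nat_lit 12) (.e (nat_lit 450587) (nat_lit 10) (.e (nat_lit 573457) (nat_lit 9) .nil))))) (.g (nat_lit 0) (.e (nat_lit 112892) (nat_lit 0) .nil) .nil))))))))))) 
(.nd (nat_lit 2) (.nd (nat_lit 3) (.nd (nat_lit 4) (.nd (nat_lit 5) (.nd (nat_lit 6) 
(.nd (nat_lit 7) (.nd (nat_lit 8) (.nd (nat_lit 9) 
(.lf (nat_lit 480259) (.g (nat_lit 3037) (.e (nat_lit 5937) (nat_lit 322) (.e (nat_lit 57371) (nat_lit 2) (.e (nat_lit 90173) (nat_lit 14) (.e (nat_lit 180252) (nat_lit 10) (.e (nat_lit 573489) (nat_lit 14) (.e (nat_lit 73755) (nat_lit 8) (.e (nat_lit 557090) (nat_lit 12) (.e (nat_lit 171776) (nat_lit 0) .nil)))))))) (.g (nat_lit 1) (.e (nat_lit 111591) (nat_lit 0) .nil) .nil))) 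
(.lf (nat_lit 480771) (.g (nat_lit 2489) (.e (nat_lit 5946) (nat_lit 322) (.e (nat_lit 57371) (nat_lit 2) (.e (nat_lit 90174) (nat_lit 14) (.e (nat_lit 180250) (nat_lit 10) (.e (nat_lit 573487) (nat_lit 14) (.e (nat_lit 73753) (nat_lit 8) (.e (nat_lit 557093) (nat_lit 12) (.e (nat_lit 163856) (nat_lit 0) .nil)))))))) (.g (nat_lit 1) (.e (nat_lit 112121) (nat_lit 0) .nil) .nil)))) (.nd (nat_lit 9) 
(.lf (nat_lit 480515) (.g (nat_lit 5424) (.e (nat_lit 5940) (nat_lit 322) (.e (nat_lit 57371) (nat_lit 2) (.e (nat_lit 90174) (nat_lit 14) (.e (nat_lit 180251) (nat_lit 10) (.e (nat_lit 573489) (nat_lit 14) (.e (nat_lit 73755) (nat_lit 8) (.e (nat_lit 557090) (nat_lit 12) (.e (nat_lit 163844) (nat_lit 0) .nil)))))))) (.g (nat_lit 1) (.e (nat_lit 111862) (nat_lit 0) .nil) .nil))) 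
(.lf (nat_lit 481027) (.g (nat_lit 2787) (.e (nat_lit 5950) (nat_lit 322) (.e (nat_lit 57371) (nat_lit 2) (.e (nat_lit 90174) (nat_lit 14) (.e (nat_lit 180252) (nat_lit 10) (.e (nat_lit 573489) (nat_lit 14) (.e (nat_lit 73755) (nat_lit 8) (.e (nat_lit 557090) (nat_lit 12) (.e (nat_lit 163851) (nat_lit 0) .nil)))))))) (.g (nat_lit 1) (.e (nat_lit 112409) (nat_lit 0) .nil) .nil))))) 
(.nd (nat_lit 8) (.nd (nat_lit 9) 
(.lf (nat_lit 480387) (.g (nat_lit 2541) (.e (nat_lit 5938) (nat_lit 322) (.e (nat_lit 57375) (nat_lit 2) (.e (nat_lit 90174) (nat_lit 14) (.e (nat_lit 180251) (nat_lit 10) (.e (nat_lit 573489) (nat_lit 14) (.e (nat_lit 73755) (nat_lit 8) (.e (nat_lit 557091) (nat_lit 12) (.e (nat_lit 163851) (nat_lit 0) .nil)))))))) (.g (nat_lit 1) (.e (nat_lit 111733) (nat_lit 0) .nil) .nil))) 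
(.lf (nat_lit 480899) (.g (nat_lit 3265) (.e (nat_lit 5948) (nat_lit 322) (.e (nat_lit 57419) (nat_lit 12) (.e (nat_lit 336194) (nat_lit 12) (.e (nat_lit 385105) (nat_lit 50) (.e (nat_lit 786483) (nat_lit 30) (.e (nat_lit 360457) (nat_lit 0) .nil)))))) (.g (nat_lit 1) (.e (nat_lit 112254) (nat_lit 0) .nil) .nil)))) (.nd (nat_lit 9) 
(.lf (nat_lit 480643) (.g (nat_lit 3410) (.e (nat_lit 5943) (nat_lit 322) (.e (nat_lit 57372) (nat_lit 2) (.e (nat_lit 90174) (nat_lit 14) (.e (nat_lit 180251) (nat_lit 10) (.e (nat_lit 573489) (nat_lit 14) (.e (nat_lit 73755) (nat_lit 8) (.e (nat_lit 557089) (nat_lit 12) (.e (nat_lit 163844) (nat_lit 0) .nil)))))))) (.g (nat_lit 1) (.e (nat_lit 111992) (nat_lit 0) .nil) .nil))) 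
(.lf (nat_lit 481155) (.g (nat_lit 1977) (.e (nat_lit 5270) (nat_lit 298) (.e (nat_lit 1239) (nat_lit 91) (.e (nat_lit 90167) (nat_lit 13) (.e (nat_lit 172126) (nat_lit 14) (.e (nat_lit 491540) (nat_lit 3) .nil))))) (.g (nat_lit 0) (.e (nat_lit 112577) (nat_lit 0) .nil) .nil)))))) (.nd (nat_lit 7) (.nd (nat_lit 8) (.nd (nat_lit 9) 
(.lf (nat_lit 480323) (.g (nat_lit 2351) (.e (nat_lit 5937) (nat_lit 322) (.e (nat_lit 57378) (nat_lit 3) (.e (nat_lit 98368) (nat_lit 27) (.e (nat_lit 434247) (nat_lit 28) (.e (nat_lit 573489) (nat_lit 14) (.e (nat_lit 73754) (nat_lit 8) (.e (nat_lit 557093) (nat_lit 12) (.e (nat_lit 171776) (nat_lit 0) .nil)))))))) (.g (nat_lit 1) (.e (nat_lit 111659) (nat_lit 0) .nil) .nil))) 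
(.lf (nat_lit 480835) (.g (nat_lit 1921) (.e (nat_lit 5947) (nat_lit 322) (.e (nat_lit 57377) (nat_lit 3) (.e (nat_lit 98365) (nat_lit 26) (.e (nat_lit 426325) (nat_lit 13) (.e (nat_lit 491264) (nat_lit 10) .nil))))) (.g (nat_lit 0) (.e (nat_lit 112188) (nat_lit 0) .nil) .nil)))) (.nd (nat_lit 9) 
(.lf (nat_lit 480579) (.g (nat_lit 4206) (.e (nat_lit 5941) (nat_lit 322) (.e (nat_lit 57372) (nat_lit 2) (.e (nat_lit 90174) (nat_lit 14) (.e (nat_lit 180252) (nat_lit 10) (.e (nat_lit 573489) (nat_lit 14) (.e (nat_lit 73755) (nat_lit 8) (.e (nat_lit 557090) (nat_lit 12) (.e (nat_lit 163844) (nat_lit 0) .nil)))))))) (.g (nat_lit 1) (.e (nat_lit 111926) (nat_lit 0) .nil) .nil))) 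
(.lf (nat_lit 481091) (.g (nat_lit 2312) (.e (nat_lit 5953) (nat_lit 322) (.e (nat_lit 57377) (nat_lit 3) (.e (nat_lit 98365) (nat_lit 26) (.e (nat_lit 426188) (nat_lit 9) (.e (nat_lit 426479) (nat_lit 27) (.e (nat_lit 336421) (nat_lit 28) (.e (nat_lit 434212) (nat_lit 18) .nil))))))) (.g (nat_lit 1) (.e (nat_lit 112473) (nat_lit 0) .nil) .nil))))) (.nd (nat_lit 8) (.nd (nat_lit 9) 
(.lf (nat_lit 480451) (.g (nat_lit 2514) (.e (nat_lit 5939) (nat_lit 322) (.e (nat_lit 57379) (nat_lit 3) (.e (nat_lit 98366) (nat_lit 27) (.e (nat_lit 434231) (nat_lit 23) (.e (nat_lit 532507) (nat_lit 2) (.e (nat_lit 106517) (nat_lit 9) (.e (nat_lit 1255) (nat_lit 92) (.e (nat_lit 98322) (nat_lit 17) (.e (nat_lit 2466) (nat_lit 157) .nil))))))))) (.g (nat_lit 1) (.e (nat_lit 111798) (nat_lit 0) .nil) .nil))) 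
(.lf (nat_lit 480963) (.g (nat_lit 3223) (.e (nat_lit 5949) (nat_lit 322) (.e (nat_lit 57378) (nat_lit 3) (.e (nat_lit 98367) (nat_lit 27) (.e (nat_lit 434248) (nat_lit 28) (.e (nat_lit 573489) (nat_lit 14) (.e (nat_lit 73755) (nat_lit 8) (.e (nat_lit 557091) (nat_lit 12) (.e (nat_lit 163856) (nat_lit 0) .nil)))))))) (.g (nat_lit 1) (.e (nat_lit 112319) (nat_lit 0) .nil) .nil)))) (.nd (nat_lit 9) 
(.lf (nat_lit 480707) (.g (nat_lit 2689) (.e (nat_lit 5943) (nat_lit 322) (.e (nat_lit 57379) (nat_lit 3) (.e (nat_lit 98367) (nat_lit 27) (.e (nat_lit 434247) (nat_lit 28) (.e (nat_lit 573489) (nat_lit 14) (.e (nat_lit 73755) (nat_lit 8) (.e (nat_lit 557089) (nat_lit 12) (.e (nat_lit 163844) (nat_lit 0) .nil)))))))) (.g (nat_lit 1) (.e (nat_lit 112057) (nat_lit 0) .nil) .nil))) 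
(.lf (nat_lit 481219) (.g (nat_lit 5689) (.e (nat_lit 5293) (nat_lit 298) (.e (nat_lit 1232) (nat_lit 91) (.e (nat_lit 90170) (nat_lit 13) (.e (nat_lit 172106) (nat_lit 10) (.e (nat_lit 434244) (nat_lit 28) (.e (nat_lit 573451) (nat_lit 9) (.e (nat_lit 359) (nat_lit 30) (.e (nat_lit 409602) (nat_lit 0) .nil)))))))) (.g (nat_lit 1) (.e (nat_lit 112777) (nat_lit 0) .nil) .nil))))))) 
(.nd (nat_lit 6) (.nd (nat_lit 7) (.nd (nat_lit 8) (.nd (nat_lit 9) 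
(.lf (nat_lit 480291) (.g (nat_lit 3418) (.e (nat_lit 5937) (nat_lit 322) (.e (nat_lit 57375) (nat_lit 2) (.e (nat_lit 90174) (nat_lit 14) (.e (nat_lit 180243) (nat_lit 5) (.e (nat_lit 532513) (nat_lit 3) (.e (nat_lit 114714) (nat_lit 22) (.e (nat_lit 90181) (nat_lit 16) (.e (nat_lit 229376) (nat_lit 0) .nil)))))))) (.g (nat_lit 1) (.e (nat_lit 111623) (nat_lit 0) .nil) .nil))) 
(.lf (nat_lit 480803) (.g (nat_lit 2358) (.e (nat_lit 5946) (nat_lit 322) (.e (nat_lit 57378) (nat_lit 3) (.e (nat_lit 98368) (nat_lit 27) (.e (nat_lit 434247) (nat_lit 28) (.e (nat_lit 573489) (nat_lit 14) (.e (nat_lit 73755) (nat_lit 8) (.e (nat_lit 557091) (nat_lit 12) (.e (nat_lit 163840) (nat_lit 0) .nil)))))))) (.g (nat_lit 1) (.e (nat_lit 112153) (nat_lit 0) .nil) .nil)))) (.nd (nat_lit 9) 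
(.lf (nat_lit 480547) (.g (nat_lit 5422) (.e (nat_lit 5940) (nat_lit 322) (.e (nat_lit 57375) (nat_lit 2) (.e (nat_lit 90174) (nat_lit 14) (.e (nat_lit 180250) (nat_lit 10) (.e (nat_lit 573489) (nat_lit 14) (.e (nat_lit 73755) (nat_lit 8) (.e (nat_lit 557090) (nat_lit 12) (.e (nat_lit 163843) (nat_lit 0) .nil)))))))) (.g (nat_lit 1) (.e (nat_lit 111894) (nat_lit 0) .nil) .nil))) 
(.lf (nat_lit 481059) (.g (nat_lit 3035) (.e (nat_lit 5953) (nat_lit 322) (.e (nat_lit 57371) (nat_lit 2) (.e (nat_lit 90173) (nat_lit 14) (.e (nat_lit 180252) (nat_lit 10) (.e (nat_lit 573489) (nat_lit 14) (.e (nat_lit 73755) (nat_lit 8) (.e (nat_lit 557090) (nat_lit 12) (.e (nat_lit 163852) (nat_lit 0) .nil)))))))) (.g (nat_lit 1) (.e (nat_lit 112441) (nat_lit 0) .nil) .nil))))) 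
(.nd (nat_lit 8) (.nd (nat_lit 9) 
(.lf (nat_lit 480419) (.g (nat_lit 3667) (.e (nat_lit 5939) (nat_lit 322) (.e (nat_lit 57375) (nat_lit 2) (.e (nat_lit 90174) (nat_lit 14) (.e (nat_lit 180243) (nat_lit 5) (.e (nat_lit 532513) (nat_lit 3) (.e (nat_lit 114714) (nat_lit 22) (.e (nat_lit 90181) (nat_lit 16) (.e (nat_lit 229376) (nat_lit 0) .nil)))))))) (.g (nat_lit 1) (.e (nat_lit 111765) (nat_lit 0) .nil) .nil))) 
(.lf (nat_lit 480931) (.g (nat_lit 2396) (.e (nat_lit 5949) (nat_lit 322) (.e (nat_lit 57373) (nat_lit 2) (.e (nat_lit 90173) (nat_lit 14) (.e (nat_lit 180252) (nat_lit 10) (.e (nat_lit 573487) (nat_lit 14) (.e (nat_lit 73753) (nat_lit 8) (.e (nat_lit 557093) (nat_lit 12) (.e (nat_lit 163856) (nat_lit 0) .nil)))))))) (.g (nat_lit 1) (.e (nat_lit 112287) (nat_lit 0) .nil) .nil)))) (.nd (nat_lit 9) 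
(.lf (nat_lit 480675) (.g (nat_lit 3694) (.e (nat_lit 5943) (nat_lit 322) (.e (nat_lit 57375) (nat_lit 2) (.e (nat_lit 90174) (nat_lit 14) (.e (nat_lit 180250) (nat_lit 10) (.e (nat_lit 573487) (nat_lit 14) (.e (nat_lit 73753) (nat_lit 8) (.e (nat_lit 557090) (nat_lit 12) (.e (nat_lit 163844) (nat_lit 0) .nil)))))))) (.g (nat_lit 1) (.e (nat_lit 112024) (nat_lit 0) .nil) .nil))) 
(.lf (nat_lit 481187) (.g (nat_lit 2594) (.e (nat_lit 5270) (nat_lit 298) (.e (nat_lit 1239) (nat_lit 91) (.e (nat_lit 90170) (nat_lit 13) (.e (nat_lit 172113) (nat_lit 10) (.e (nat_lit 434248) (nat_lit 28) (.e (nat_lit 573448) (nat_lit 9) (.e (nat_lit 359) (nat_lit 30) (.e (nat_lit 409604) (nat_lit 0) .nil)))))))) (.g (nat_lit 1) (.e (nat_lit 112609) (nat_lit 0) .nil) .nil)))))) 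
(.nd (nat_lit 7) (.nd (nat_lit 8) (.nd (nat_lit 9) 
(.lf (nat_lit 480355) (.g (nat_lit 2337) (.e (nat_lit 5937) (nat_lit 322) (.e (nat_lit 57411) (nat_lit 12) (.e (nat_lit 336208) (nat_lit 12) (.e (nat_lit 385102) (nat_lit 50) (.e (nat_lit 786483) (nat_lit 30) (.e (nat_lit 368384) (nat_lit 0) .nil)))))) (.g (nat_lit 1) (.e (nat_lit 111698) (nat_lit 0) .nil) .nil))) 
(.lf (nat_lit 480867) (.g (nat_lit 2222) (.e (nat_lit 5948) (nat_lit 322) (.e (nat_lit 57373) (nat_lit 2) (.e (nat_lit 90174) (nat_lit 14) (.e (nat_lit 180245) (nat_lit 5) .nil)))) (.g (nat_lit 0) (.e (nat_lit 112221) (nat_lit 0) .nil) .nil)))) (.nd (nat_lit 9) 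
(.lf (nat_lit 480611) (.g (nat_lit 1889) (.e (nat_lit 5942) (nat_lit 322) (.e (nat_lit 57375) (nat_lit 2) (.e (nat_lit 90174) (nat_lit 14) (.e (nat_lit 180243) (nat_lit 5) (.e (nat_lit 532515) (nat_lit 3) (.e (nat_lit 114716) (nat_lit 22) (.e (nat_lit 90181) (nat_lit 16) (.e (nat_lit 229376) (nat_lit 0) .nil)))))))) (.g (nat_lit 1) (.e (nat_lit 111960) (nat_lit 0) .nil) .nil))) 
(.lf (nat_lit 481123) (.g (nat_lit 2980) (.e (nat_lit 5954) (nat_lit 322) (.e (nat_lit 57373) (nat_lit 2) (.e (nat_lit 90174) (nat_lit 14) (.e (nat_lit 180251) (nat_lit 10) (.e (nat_lit 573489) (nat_lit 14) .nil))))) (.g (nat_lit 0) (.e (nat_lit 112509) (nat_lit 0) .nil) .nil))))) (.nd (nat_lit 8) (.nd (nat_lit 9) 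
(.lf (nat_lit 480483) (.g (nat_lit 2043) (.e (nat_lit 5939) (nat_lit 322) (.e (nat_lit 57379) (nat_lit 3) (.e (nat_lit 98367) (nat_lit 27) (.e (nat_lit 434231) (nat_lit 23) (.e (nat_lit 532514) (nat_lit 3) (.e (nat_lit 114716) (nat_lit 22) (.e (nat_lit 90180) (nat_lit 16) (.e (nat_lit 229379) (nat_lit 0) .nil)))))))) (.g (nat_lit 1) (.e (nat_lit 111830) (nat_lit 0) .nil) .nil))) 
(.lf (nat_lit 480995) (.g (nat_lit 2229) (.e (nat_lit 5949) (nat_lit 322) (.e (nat_lit 57417) (nat_lit 12) (.e (nat_lit 336206) (nat_lit 12) (.e (nat_lit 385102) (nat_lit 50) (.e (nat_lit 786483) (nat_lit 30) (.e (nat_lit 360456) (nat_lit 0) .nil)))))) (.g (nat_lit 1) (.e (nat_lit 112362) (nat_lit 0) .nil) .nil)))) (.nd (nat_lit 9) 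
(.lf (nat_lit 480739) (.g (nat_lit 3080) (.e (nat_lit 5944) (nat_lit 322) (.e (nat_lit 57378) (nat_lit 3) (.e (nat_lit 98368) (nat_lit 27) (.e (nat_lit 434247) (nat_lit 28) (.e (nat_lit 573489) (nat_lit 14) (.e (nat_lit 73755) (nat_lit 8) (.e (nat_lit 557091) (nat_lit 12) (.e (nat_lit 163855) (nat_lit 0) .nil)))))))) (.g (nat_lit 1) (.e (nat_lit 112089) (nat_lit 0) .nil) .nil))) 
(.lf (nat_lit 481251) (.g (nat_lit 3370) (.e (nat_lit 5349) (nat_lit 298) (.e (nat_lit 1234) (nat_lit 91) (.e (nat_lit 90170) (nat_lit 13) (.e (nat_lit 172106) (nat_lit 10) (.e (nat_lit 434231) (nat_lit 23) .nil))))) (.g (nat_lit 0) (.e (nat_lit 112822) (nat_lit 0) .nil) .nil)))))))) (.nd (nat_lit 5) (.nd (nat_lit 6) (.nd (nat_lit 7) (.nd (nat_lit 8) (.nd (nat_lit 9) 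
(.lf (nat_lit 480275) (.g (nat_lit 3014) (.e (nat_lit 5937) (nat_lit 322) (.e (nat_lit 57373) (nat_lit 2) (.e (nat_lit 90174) (nat_lit 14) (.e (nat_lit 180243) (nat_lit 5) (.e (nat_lit 532515) (nat_lit 3) (.e (nat_lit 114715) (nat_lit 22) (.e (nat_lit 90165) (nat_lit 12) (.e (nat_lit 171776) (nat_lit 0) .nil)))))))) (.g (nat_lit 1) (.e (nat_lit 111607) (nat_lit 0) .nil) .nil))) 
(.lf (nat_lit 480787) (.g (nat_lit 2643) (.e (nat_lit 5946) (nat_lit 322) (.e (nat_lit 57373) (nat_lit 2) (.e (nat_lit 90174) (nat_lit 14) (.e (nat_lit 180250) (nat_lit 10) (.e (nat_lit 573489) (nat_lit 14) (.e (nat_lit 73754) (nat_lit 8) (.e (nat_lit 557094) (nat_lit 12) (.e (nat_lit 163840) (nat_lit 0) .nil)))))))) (.g (nat_lit 1) (.e (nat_lit 112137) (nat_lit 0) .nil) .nil)))) (.nd (nat_lit 9) 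
(.lf (nat_lit 480531) (.g (nat_lit 3441) (.e (nat_lit 5940) (nat_lit 322) (.e (nat_lit 57374) (nat_lit 2) (.e (nat_lit 90171) (nat_lit 14) (.e (nat_lit 180252) (nat_lit 10) (.e (nat_lit 573489) (nat_lit 14) (.e (nat_lit 73755) (nat_lit 8) (.e (nat_lit 557090) (nat_lit 12) (.e (nat_lit 163844) (nat_lit 0) .nil)))))))) (.g (nat_lit 1) (.e (nat_lit 111878) (nat_lit 0) .nil) .nil))) 
(.lf (nat_lit 481043) (.g (nat_lit 4443) (.e (nat_lit 5951) (nat_lit 322) (.e (nat_lit 57373) (nat_lit 2) (.e (nat_lit 90173) (nat_lit 14) (.e (nat_lit 180252) (nat_lit 10) (.e (nat_lit 573489) (nat_lit 14) (.e (nat_lit 73755) (nat_lit 8) (.e (nat_lit 557090) (nat_lit 12) (.e (nat_lit 163850) (nat_lit 0) .nil)))))))) (.g (nat_lit 1) (.e (nat_lit 112425) (nat_lit 0) .nil) .nil))))) 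
(.nd (nat_lit 8) (.nd (nat_lit 9) 
(.lf (nat_lit 480403) (.g (nat_lit 2462) (.e (nat_lit 5939) (nat_lit 322) (.e (nat_lit 57372) (nat_lit 2) (.e (nat_lit 90174) (nat_lit 14) (.e (nat_lit 180250) (nat_lit 10) (.e (nat_lit 573487) (nat_lit 14) (.e (nat_lit 73753) (nat_lit 8) (.e (nat_lit 557090) (nat_lit 12) (.e (nat_lit 163840) (nat_lit 0) .nil)))))))) (.g (nat_lit 1) (.e (nat_lit 111749) (nat_lit 0) .nil) .nil))) 
(.lf (nat_lit 480915) (.g (nat_lit 2679) (.e (nat_lit 5949) (nat_lit 322) (.e (nat_lit 57371) (nat_lit 2) (.e (nat_lit 90174) (nat_lit 14) (.e (nat_lit 180243) (nat_lit 5) (.e (nat_lit 532513) (nat_lit 3) (.e (nat_lit 114714) (nat_lit 22) (.e (nat_lit 90165) (nat_lit 12) (.e (nat_lit 163856) (nat_lit 0) .nil)))))))) (.g (nat_lit 1) (.e (nat_lit 112271) (nat_lit 0) .nil) .nil)))) (.nd (nat_lit 9) 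
(.lf (nat_lit 480659) (.g (nat_lit 4112) (.e (nat_lit 5943) (nat_lit 322) (.e (nat_lit 57374) (nat_lit 2) (.e (nat_lit 90174) (nat_lit 14) (.e (nat_lit 180250) (nat_lit 10) (.e (nat_lit 573489) (nat_lit 14) (.e (nat_lit 73755) (nat_lit 8) (.e (nat_lit 557090) (nat_lit 12) (.e (nat_lit 163843) (nat_lit 0) .nil)))))))) (.g (nat_lit 1) (.e (nat_lit 112008) (nat_lit 0) .nil) .nil))) 
(.lf (nat_lit 481171) (.g (nat_lit 5237) (.e (nat_lit 5270) (nat_lit 298) (.e (nat_lit 1239) (nat_lit 91) (.e (nat_lit 90170) (nat_lit 13) (.e (nat_lit 172113) (nat_lit 10) (.e (nat_lit 434245) (nat_lit 28) (.e (nat_lit 573451) (nat_lit 9) (.e (nat_lit 359) (nat_lit 30) (.e (nat_lit 409605) (nat_lit 0) .nil)))))))) (.g (nat_lit 1) (.e (nat_lit 112593) (nat_lit 0) .nil) .nil)))))) 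
(.nd (nat_lit 7) (.nd (nat_lit 8) (.nd (nat_lit 9) 
(.lf (nat_lit 480339) (.g (nat_lit 3155) (.e (nat_lit 5937) (nat_lit 322) (.e (nat_lit 57379) (nat_lit 3) (.e (nat_lit 98366) (nat_lit 27) (.e (nat_lit 434231) (nat_lit 23) (.e (nat_lit 532514) (nat_lit 3) (.e (nat_lit 114715) (nat_lit 22) (.e (nat_lit 90165) (nat_lit 12) (.e (nat_lit 171776) (nat_lit 0) .nil)))))))) (.g (nat_lit 1) (.e (nat_lit 111675) (nat_lit 0) .nil) .nil))) 
(.lf (nat_lit 480851) (.g (nat_lit 3107) (.e (nat_lit 5948) (nat_lit 322) (.e (nat_lit 57371) (nat_lit 2) (.e (nat_lit 90174) (nat_lit 14) (.e (nat_lit 180243) (nat_lit 5) (.e (nat_lit 532515) (nat_lit 3) (.e (nat_lit 114716) (nat_lit 22) (.e (nat_lit 90165) (nat_lit 12) (.e (nat_lit 163857) (nat_lit 0) .nil)))))))) (.g (nat_lit 1) (.e (nat_lit 112205) (nat_lit 0) .nil) .nil)))) (.nd (nat_lit 9) 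
(.lf (nat_lit 480595) (.g (nat_lit 1507) (.e (nat_lit 5941) (nat_lit 322) (.e (nat_lit 57437) (nat_lit 17) (.e (nat_lit 376835) (nat_lit 0) (.e (nat_lit 3748) (nat_lit 228) (.e (nat_lit 786481) (nat_lit 30) .nil))))) (.g (nat_lit 0) (.e (nat_lit 111944) (nat_lit 0) .nil) .nil))) 
(.lf (nat_lit 481107) (.g (nat_lit 2624) (.e (nat_lit 5954) (nat_lit 322) (.e (nat_lit 57371) (nat_lit 2) (.e (nat_lit 90174) (nat_lit 14) (.e (nat_lit 180250) (nat_lit 10) (.e (nat_lit 573487) (nat_lit 14) (.e (nat_lit 73753) (nat_lit 8) (.e (nat_lit 557091) (nat_lit 12) (.e (nat_lit 163841) (nat_lit 0) .nil)))))))) (.g (nat_lit 1) (.e (nat_lit 112493) (nat_lit 0) .nil) .nil))))) 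
(.nd (nat_lit 8) (.nd (nat_lit 9) 
(.lf (nat_lit 480467) (.g (nat_lit 2335) (.e (nat_lit 5939) (nat_lit 322) (.e (nat_lit 57379) (nat_lit 3) (.e (nat_lit 98366) (nat_lit 27) (.e (nat_lit 434231) (nat_lit 23) (.e (nat_lit 532515) (nat_lit 3) (.e (nat_lit 114716) (nat_lit 22) (.e (nat_lit 90181) (nat_lit 16) (.e (nat_lit 229376) (nat_lit 0) .nil)))))))) (.g (nat_lit 1) (.e (nat_lit 111814) (nat_lit 0) .nil) .nil))) 
(.lf (nat_lit 480979) (.g (nat_lit 2519) (.e (nat_lit 5949) (nat_lit 322) (.e (nat_lit 57409) (nat_lit 12) (.e (nat_lit 336443) (nat_lit 32) (.e (nat_lit 466974) (nat_lit 22) (.e (nat_lit 196654) (nat_lit 11) (.e (nat_lit 16388) (nat_lit 0) (.e (nat_lit 2504) (nat_lit 157) .nil))))))) (.g (nat_lit 1) (.e (nat_lit 112346) (nat_lit 0) .nil) .nil)))) (.nd (nat_lit 9) 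
(.lf (nat_lit 480723) (.g (nat_lit 1933) (.e (nat_lit 5944) (nat_lit 322) (.e (nat_lit 57373) (nat_lit 2) (.e (nat_lit 90174) (nat_lit 14) (.e (nat_lit 180243) (nat_lit 5) (.e (nat_lit 532515) (nat_lit 3) .nil))))) (.g (nat_lit 0) (.e (nat_lit 112073) (nat_lit 0) .nil) .nil))) 
(.lf (nat_lit 481235) (.g (nat_lit 4352) (.e (nat_lit 5293) (nat_lit 298) (.e (nat_lit 1250) (nat_lit 92) (.e (nat_lit 98373) (nat_lit 29) (.e (nat_lit 450587) (nat_lit 10) (.e (nat_lit 573457) (nat_lit 9) (.e (nat_lit 359) (nat_lit 30) (.e (nat_lit 409602) (nat_lit 0) .nil))))))) (.g (nat_lit 1) (.e (nat_lit 112793) (nat_lit 0) .nil) .nil))))))) 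
(.nd (nat_lit 6) (.nd (nat_lit 7) (.nd (nat_lit 8) (.nd (nat_lit 9) 
(.lf (nat_lit 480307) (.g (nat_lit 2434) (.e (nat_lit 5937) (nat_lit 322) (.e (nat_lit 57378) (nat_lit 3) (.e (nat_lit 98365) (nat_lit 26) (.e (nat_lit 426325) (nat_lit 13) (.e (nat_lit 483337) (nat_lit 9) (.e (nat_lit 426016) (nat_lit 0) (.e (nat_lit 2466) (nat_lit 157) .nil))))))) (.g (nat_lit 1) (.e (nat_lit 111643) (nat_lit 0) .nil) .nil))) 
(.lf (nat_lit 480819) (.g (nat_lit 4575) (.e (nat_lit 5947) (nat_lit 322) (.e (nat_lit 57371) (nat_lit 2) (.e (nat_lit 90174) (nat_lit 14) (.e (nat_lit 180243) (nat_lit 5) (.e (nat_lit 532513) (nat_lit 3) (.e (nat_lit 114714) (nat_lit 22) (.e (nat_lit 90165) (nat_lit 12) (.e (nat_lit 163857) (nat_lit 0) .nil)))))))) (.g (nat_lit 1) (.e (nat_lit 112172) (nat_lit 0) .nil) .nil)))) (.nd (nat_lit 9) 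
(.lf (nat_lit 480563) (.g (nat_lit 2617) (.e (nat_lit 5940) (nat_lit 322) (.e (nat_lit 57379) (nat_lit 3) (.e (nat_lit 98368) (nat_lit 27) (.e (nat_lit 434247) (nat_lit 28) (.e (nat_lit 573489) (nat_lit 14) (.e (nat_lit 73755) (nat_lit 8) (.e (nat_lit 557091) (nat_lit 12) (.e (nat_lit 163841) (nat_lit 0) .nil)))))))) (.g (nat_lit 1) (.e (nat_lit 111910) (nat_lit 0) .nil) .nil))) 
(.lf (nat_lit 481075) (.g (nat_lit 3103) (.e (nat_lit 5953) (nat_lit 322) (.e (nat_lit 57373) (nat_lit 2) (.e (nat_lit 90174) (nat_lit 14) (.e (nat_lit 180243) (nat_lit 5) (.e (nat_lit 532515) (nat_lit 3) (.e (nat_lit 114715) (nat_lit 22) (.e (nat_lit 90165) (nat_lit 12) (.e (nat_lit 163853) (nat_lit 0) .nil)))))))) (.g (nat_lit 1) (.e (nat_lit 112457) (nat_lit 0) .nil) .nil))))) 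
(.nd (nat_lit 8) (.nd (nat_lit 9) 
(.lf (nat_lit 480435) (.g (nat_lit 3994) (.e (nat_lit 5939) (nat_lit 322) (.e (nat_lit 57375) (nat_lit 2) (.e (nat_lit 90174) (nat_lit 14) (.e (nat_lit 180252) (nat_lit 10) (.e (nat_lit 573489) (nat_lit 14) (.e (nat_lit 73755) (nat_lit 8) (.e (nat_lit 557090) (nat_lit 12) (.e (nat_lit 163850) (nat_lit 0) .nil)))))))) (.g (nat_lit 1) (.e (nat_lit 111781) (nat_lit 0) .nil) .nil))) 
(.lf (nat_lit 480947) (.g (nat_lit 2545) (.e (nat_lit 5949) (nat_lit 322) (.e (nat_lit 57373) (nat_lit 2) (.e (nat_lit 90174) (nat_lit 14) (.e (nat_lit 180251) (nat_lit 10) (.e (nat_lit 573487) (nat_lit 14) .nil))))) (.g (nat_lit 0) (.e (nat_lit 112303) (nat_lit 0) .nil) .nil)))) (.nd (nat_lit 9) 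
(.lf (nat_lit 480691) (.g (nat_lit 2544) (.e (nat_lit 5943) (nat_lit 322) (.e (nat_lit 57375) (nat_lit 2) (.e (nat_lit 90174) (nat_lit 14) (.e (nat_lit 180252) (nat_lit 10) (.e (nat_lit 573489) (nat_lit 14) (.e (nat_lit 73755) (nat_lit 8) (.e (nat_lit 557090) (nat_lit 12) (.e (nat_lit 163845) (nat_lit 0) .nil)))))))) (.g (nat_lit 1) (.e (nat_lit 112040) (nat_lit 0) .nil) .nil))) 
(.lf (nat_lit 481203) (.g (nat_lit 1843) (.e (nat_lit 5271) (nat_lit 298) (.e (nat_lit 1239) (nat_lit 91) (.e (nat_lit 90170) (nat_lit 13) (.e (nat_lit 172113) (nat_lit 10) (.e (nat_lit 434242) (nat_lit 28) (.e (nat_lit 573451) (nat_lit 9) (.e (nat_lit 365) (nat_lit 31) (.e (nat_lit 417795) (nat_lit 0) .nil)))))))) (.g (nat_lit 1) (.e (nat_lit 112627) (nat_lit 0) .nil) .nil)))))) 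
(.nd (nat_lit 7) (.nd (nat_lit 8) (.nd (nat_lit 9) 
(.lf (nat_lit 480371) (.g (nat_lit 2411) (.e (nat_lit 5938) (nat_lit 322) (.e (nat_lit 57372) (nat_lit 2) (.e (nat_lit 90173) (nat_lit 14) (.e (nat_lit 180252) (nat_lit 10) (.e (nat_lit 573489) (nat_lit 14) (.e (nat_lit 73755) (nat_lit 8) (.e (nat_lit 557090) (nat_lit 12) (.e (nat_lit 163851) (nat_lit 0) .nil)))))))) (.g (nat_lit 1) (.e (nat_lit 111717) (nat_lit 0) .nil) .nil))) 
(.lf (nat_lit 480883) (.g (nat_lit 1954) (.e (nat_lit 5948) (nat_lit 322) (.e (nat_lit 57378) (nat_lit 3) (.e (nat_lit 98376) (nat_lit 30) (.e (nat_lit 458789) (nat_lit 23) (.e (nat_lit 532515) (nat_lit 3) (.e (nat_lit 114719) (nat_lit 23) (.e (nat_lit 98325) (nat_lit 17) (.e (nat_lit 2515) (nat_lit 157) .nil)))))))) (.g (nat_lit 1) (.e (nat_lit 112238) (nat_lit 0) .nil) .nil)))) (.nd (nat_lit 9) 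
(.lf (nat_lit 480627) (.g (nat_lit 2028) (.e (nat_lit 5943) (nat_lit 322) (.e (nat_lit 57372) (nat_lit 2) (.e (nat_lit 90172) (nat_lit 14) (.e (nat_lit 180251) (nat_lit 10) (.e (nat_lit 573489) (nat_lit 14) (.e (nat_lit 73755) (nat_lit 8) (.e (nat_lit 557091) (nat_lit 12) (.e (nat_lit 163840) (nat_lit 0) .nil)))))))) (.g (nat_lit 1) (.e (nat_lit 111976) (nat_lit 0) .nil) .nil))) 
(.lf (nat_lit 481139) (.g (nat_lit 2636) (.e (nat_lit 7936) (nat_lit 322) (.e (nat_lit 57375) (nat_lit 2) (.e (nat_lit 90174) (nat_lit 14) (.e (nat_lit 180250) (nat_lit 10) (.e (nat_lit 573489) (nat_lit 14) .nil))))) (.g (nat_lit 0) (.e (nat_lit 112527) (nat_lit 0) .nil) .nil))))) (.nd (nat_lit 8) (.nd (nat_lit 9) 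
(.lf (nat_lit 480499) (.g (nat_lit 3217) (.e (nat_lit 5939) (nat_lit 322) (.e (nat_lit 57379) (nat_lit 3) (.e (nat_lit 98368) (nat_lit 27) (.e (nat_lit 434248) (nat_lit 28) (.e (nat_lit 573487) (nat_lit 14) (.e (nat_lit 73753) (nat_lit 8) (.e (nat_lit 557090) (nat_lit 12) (.e (nat_lit 163850) (nat_lit 0) .nil)))))))) (.g (nat_lit 1) (.e (nat_lit 111846) (nat_lit 0) .nil) .nil))) 
(.lf (nat_lit 481011) (.g (nat_lit 1703) (.e (nat_lit 5949) (nat_lit 322) (.e (nat_lit 57447) (nat_lit 19) (.e (nat_lit 393234) (nat_lit 17) (.e (nat_lit 2398) (nat_lit 157) .nil)))) (.g (nat_lit 0) (.e (nat_lit 112393) (nat_lit 0) .nil) .nil)))) (.nd (nat_lit 9) 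
(.lf (nat_lit 480755) (.g (nat_lit 3143) (.e (nat_lit 5945) (nat_lit 322) (.e (nat_lit 57371) (nat_lit 2) (.e (nat_lit 90174) (nat_lit 14) (.e (nat_lit 180251) (nat_lit 10) (.e (nat_lit 573489) (nat_lit 14) (.e (nat_lit 73755) (nat_lit 8) (.e (nat_lit 557091) (nat_lit 12) (.e (nat_lit 163840) (nat_lit 0) .nil)))))))) (.g (nat_lit 1) (.e (nat_lit 112105) (nat_lit 0) .nil) .nil))) 
(.lf (nat_lit 481267) (.g (nat_lit 2939) (.e (nat_lit 5386) (nat_lit 300) (.e (nat_lit 16470) (nat_lit 14) (.e (nat_lit 491571) (nat_lit 13) (.e (nat_lit 393238) (nat_lit 17) (.e (nat_lit 6989) (nat_lit 377) .nil))))) (.g (nat_lit 0) (.e (nat_lit 112870) (nat_lit 0) .nil) .nil))))))))) (.nd (nat_lit 4) (.nd (nat_lit 5) (.nd (nat_lit 6) (.nd (nat_lit 7) (.nd (nat_lit 8) (.nd (nat_lit 9) 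
(.lf (nat_lit 480267) (.g (nat_lit 3044) (.e (nat_lit 5937) (nat_lit 322) (.e (nat_lit 57372) (nat_lit 2) (.e (nat_lit 90174) (nat_lit 14) (.e (nat_lit 180250) (nat_lit 10) (.e (nat_lit 573489) (nat_lit 14) (.e (nat_lit 73755) (nat_lit 8) (.e (nat_lit 557090) (nat_lit 12) (.e (nat_lit 171776) (nat_lit 0) .nil)))))))) (.g (nat_lit 1) (.e (nat_lit 111599) (nat_lit 0) .nil) .nil))) 
(.lf (nat_lit 480779) (.g (nat_lit 3835) (.e (nat_lit 5946) (nat_lit 322) (.e (nat_lit 57373) (nat_lit 2) (.e (nat_lit 90174) (nat_lit 14) (.e (nat_lit 180243) (nat_lit 5) (.e (nat_lit 532513) (nat_lit 3) (.e (nat_lit 114714) (nat_lit 22) (.e (nat_lit 90165) (nat_lit 12) (.e (nat_lit 163857) (nat_lit 0) .nil)))))))) (.g (nat_lit 1) (.e (nat_lit 112129) (nat_lit 0) .nil) .nil)))) (.nd (nat_lit 9) 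
(.lf (nat_lit 480523) (.g (nat_lit 3398) (.e (nat_lit 5940) (nat_lit 322) (.e (nat_lit 57373) (nat_lit 2) (.e (nat_lit 90173) (nat_lit 14) (.e (nat_lit 180252) (nat_lit 10) (.e (nat_lit 573489) (nat_lit 14) (.e (nat_lit 73755) (nat_lit 8) (.e (nat_lit 557090) (nat_lit 12) (.e (nat_lit 163844) (nat_lit 0) .nil)))))))) (.g (nat_lit 1) (.e (nat_lit 111870) (nat_lit 0) .nil) .nil))) 
(.lf (nat_lit 481035) (.g (nat_lit 3471) (.e (nat_lit 5951) (nat_lit 322) (.e (nat_lit 57371) (nat_lit 2) (.e (nat_lit 90174) (nat_lit 14) (.e (nat_lit 180243) (nat_lit 5) (.e (nat_lit 532515) (nat_lit 3) (.e (nat_lit 114716) (nat_lit 22) (.e (nat_lit 90164) (nat_lit 12) (.e (nat_lit 163850) (nat_lit 0) .nil)))))))) (.g (nat_lit 1) (.e (nat_lit 112417) (nat_lit 0) .nil) .nil))))) 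
(.nd (nat_lit 8) (.nd (nat_lit 9) 
(.lf (nat_lit 480395) (.g (nat_lit 2153) (.e (nat_lit 5939) (nat_lit 322) (.e (nat_lit 57372) (nat_lit 2) (.e (nat_lit 90174) (nat_lit 14) (.e (nat_lit 180243) (nat_lit 5) (.e (nat_lit 532515) (nat_lit 3) .nil))))) (.g (nat_lit 0) (.e (nat_lit 111741) (nat_lit 0) .nil) .nil))) 
(.lf (nat_lit 480907) (.g (nat_lit 3466) (.e (nat_lit 5948) (nat_lit 322) (.e (nat_lit 57424) (nat_lit 14) (.e (nat_lit 352262) (nat_lit 0) (.e (nat_lit 3748) (nat_lit 228) (.e (nat_lit 786483) (nat_lit 30) (.e (nat_lit 360457) (nat_lit 0) .nil)))))) (.g (nat_lit 1) (.e (nat_lit 112263) (nat_lit 0) .nil) .nil)))) (.nd (nat_lit 9) 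
(.lf (nat_lit 480651) (.g (nat_lit 2890) (.e (nat_lit 5943) (nat_lit 322) (.e (nat_lit 57373) (nat_lit 2) (.e (nat_lit 90172) (nat_lit 14) (.e (nat_lit 180250) (nat_lit 10) (.e (nat_lit 573487) (nat_lit 14) .nil))))) (.g (nat_lit 0) (.e (nat_lit 112000) (nat_lit 0) .nil) .nil))) 
(.lf (nat_lit 481163) (.g (nat_lit 3004) (.e (nat_lit 5270) (nat_lit 298) (.e (nat_lit 1239) (nat_lit 91) (.e (nat_lit 90170) (nat_lit 13) (.e (nat_lit 172106) (nat_lit 10) (.e (nat_lit 434244) (nat_lit 28) (.e (nat_lit 573458) (nat_lit 9) (.e (nat_lit 7936) (nat_lit 30) (.e (nat_lit 409604) (nat_lit 0) .nil)))))))) (.g (nat_lit 1) (.e (nat_lit 112585) (nat_lit 0) .nil) .nil)))))) 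
(.nd (nat_lit 7) (.nd (nat_lit 8) (.nd (nat_lit 9) 
(.lf (nat_lit 480331) (.g (nat_lit 2456) (.e (nat_lit 5937) (nat_lit 322) (.e (nat_lit 57378) (nat_lit 3) (.e (nat_lit 98368) (nat_lit 27) (.e (nat_lit 434248) (nat_lit 28) (.e (nat_lit 573487) (nat_lit 14) (.e (nat_lit 73753) (nat_lit 8) (.e (nat_lit 557094) (nat_lit 12) (.e (nat_lit 171776) (nat_lit 0) .nil)))))))) (.g (nat_lit 1) (.e (nat_lit 111667) (nat_lit 0) .nil) .nil))) 
(.lf (nat_lit 480843) (.g (nat_lit 917) (.e (nat_lit 5947) (nat_lit 322) (.e (nat_lit 57424) (nat_lit 14) (.e (nat_lit 352262) (nat_lit 0) .nil))) (.g (nat_lit 0) (.e (nat_lit 112196) (nat_lit 0) .nil) .nil)))) (.nd (nat_lit 9) 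
(.lf (nat_lit 480587) (.g (nat_lit 2600) (.e (nat_lit 5941) (nat_lit 322) (.e (nat_lit 57375) (nat_lit 2) (.e (nat_lit 90172) (nat_lit 14) (.e (nat_lit 180250) (nat_lit 10) (.e (nat_lit 573487) (nat_lit 14) .nil))))) (.g (nat_lit 0) (.e (nat_lit 111934) (nat_lit 0) .nil) .nil))) 
(.lf (nat_lit 481099) (.g (nat_lit 2552) (.e (nat_lit 5953) (nat_lit 322) (.e (nat_lit 57378) (nat_lit 3) (.e (nat_lit 98368) (nat_lit 27) (.e (nat_lit 434247) (nat_lit 28) (.e (nat_lit 573489) (nat_lit 14) (.e (nat_lit 73755) (nat_lit 8) (.e (nat_lit 557091) (nat_lit 12) (.e (nat_lit 163840) (nat_lit 0) .nil)))))))) (.g (nat_lit 1) (.e (nat_lit 112481) (nat_lit 0) .nil) .nil))))) 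
(.nd (nat_lit 8) (.nd (nat_lit 9) 
(.lf (nat_lit 480459) (.g (nat_lit 1971) (.e (nat_lit 5939) (nat_lit 322) (.e (nat_lit 57379) (nat_lit 3) (.e (nat_lit 98366) (nat_lit 27) (.e (nat_lit 434231) (nat_lit 23) (.e (nat_lit 532514) (nat_lit 3) (.e (nat_lit 114715) (nat_lit 22) (.e (nat_lit 90179) (nat_lit 16) (.e (nat_lit 229379) (nat_lit 0) .nil)))))))) (.g (nat_lit 1) (.e (nat_lit 111806) (nat_lit 0) .nil) .nil))) 
(.lf (nat_lit 480971) (.g (nat_lit 3114) (.e (nat_lit 5949) (nat_lit 322) (.e (nat_lit 57400) (nat_lit 10) (.e (nat_lit 319490) (nat_lit 0) (.e (nat_lit 5664) (nat_lit 312) (.e (nat_lit 3085) (nat_lit 191) (.e (nat_lit 483396) (nat_lit 24) (.e (nat_lit 344104) (nat_lit 18) .nil))))))) (.g (nat_lit 1) (.e (nat_lit 112329) (nat_lit 0) .nil) .nil)))) (.nd (nat_lit 9) 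
(.lf (nat_lit 480715) (.g (nat_lit 3275) (.e (nat_lit 5943) (nat_lit 322) (.e (nat_lit 57379) (nat_lit 3) (.e (nat_lit 98368) (nat_lit 27) (.e (nat_lit 434248) (nat_lit 28) (.e (nat_lit 573487) (nat_lit 14) (.e (nat_lit 73753) (nat_lit 8) (.e (nat_lit 557090) (nat_lit 12) (.e (nat_lit 163844) (nat_lit 0) .nil)))))))) (.g (nat_lit 1) (.e (nat_lit 112065) (nat_lit 0) .nil) .nil))) 
(.lf (nat_lit 481227) (.g (nat_lit 3971) (.e (nat_lit 5293) (nat_lit 298) (.e (nat_lit 1250) (nat_lit 92) (.e (nat_lit 98372) (nat_lit 29) (.e (nat_lit 450586) (nat_lit 10) (.e (nat_lit 573452) (nat_lit 9) (.e (nat_lit 359) (nat_lit 30) (.e (nat_lit 409602) (nat_lit 0) .nil))))))) (.g (nat_lit 1) (.e (nat_lit 112785) (nat_lit 0) .nil) .nil))))))) 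
(.nd (nat_lit 6) (.nd (nat_lit 7) (.nd (nat_lit 8) (.nd (nat_lit 9) 
(.lf (nat_lit 480299) (.g (nat_lit 2014) (.e (nat_lit 5937) (nat_lit 322) (.e (nat_lit 57377) (nat_lit 3) (.e (nat_lit 98365) (nat_lit 26) (.e (nat_lit 426188) (nat_lit 9) (.e (nat_lit 426479) (nat_lit 27) .nil))))) (.g (nat_lit 0) (.e (nat_lit 111631) (nat_lit 0) .nil) .nil))) 
(.lf (nat_lit 480811) (.g (nat_lit 2760) (.e (nat_lit 5946) (nat_lit 322) (.e (nat_lit 57409) (nat_lit 12) (.e (nat_lit 336443) (nat_lit 32) (.e (nat_lit 466977) (nat_lit 22) (.e (nat_lit 196656) (nat_lit 11) (.e (nat_lit 16388) (nat_lit 0) (.e (nat_lit 2504) (nat_lit 157) .nil))))))) (.g (nat_lit 1) (.e (nat_lit 112161) (nat_lit 0) .nil) .nil)))) (.nd (nat_lit 9) 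
(.lf (nat_lit 480555) (.g (nat_lit 3400) (.e (nat_lit 5940) (nat_lit 322) (.e (nat_lit 57375) (nat_lit 2) (.e (nat_lit 90174) (nat_lit 14) (.e (nat_lit 180251) (nat_lit 10) (.e (nat_lit 573489) (nat_lit 14) (.e (nat_lit 73755) (nat_lit 8) (.e (nat_lit 557091) (nat_lit 12) (.e (nat_lit 163845) (nat_lit 0) .nil)))))))) (.g (nat_lit 1) (.e (nat_lit 111902) (nat_lit 0) .nil) .nil))) 
(.lf (nat_lit 481067) (.g (nat_lit 2790) (.e (nat_lit 5953) (nat_lit 322) (.e (nat_lit 57371) (nat_lit 2) (.e (nat_lit 90174) (nat_lit 14) (.e (nat_lit 180252) (nat_lit 10) (.e (nat_lit 573489) (nat_lit 14) (.e (nat_lit 73755) (nat_lit 8) (.e (nat_lit 557090) (nat_lit 12) (.e (nat_lit 163840) (nat_lit 0) .nil)))))))) (.g (nat_lit 1) (.e (nat_lit 112449) (nat_lit 0) .nil) .nil))))) 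
(.nd (nat_lit 8) (.nd (nat_lit 9) 
(.lf (nat_lit 480427) (.g (nat_lit 3398) (.e (nat_lit 5939) (nat_lit 322) (.e (nat_lit 57375) (nat_lit 2) (.e (nat_lit 90174) (nat_lit 14) (.e (nat_lit 180243) (nat_lit 5) (.e (nat_lit 532515) (nat_lit 3) (.e (nat_lit 114716) (nat_lit 22) (.e (nat_lit 90182) (nat_lit 16) (.e (nat_lit 229379) (nat_lit 0) .nil)))))))) (.g (nat_lit 1) (.e (nat_lit 111773) (nat_lit 0) .nil) .nil))) 
(.lf (nat_lit 480939) (.g (nat_lit 3441) (.e (nat_lit 5949) (nat_lit 322) (.e (nat_lit 57373) (nat_lit 2) (.e (nat_lit 90174) (nat_lit 14) (.e (nat_lit 180243) (nat_lit 5) (.e (nat_lit 532513) (nat_lit 3) (.e (nat_lit 114719) (nat_lit 23) (.e (nat_lit 98325) (nat_lit 17) (.e (nat_lit 2515) (nat_lit 157) .nil)))))))) (.g (nat_lit 1) (.e (nat_lit 112295) (nat_lit 0) .nil) .nil)))) (.nd (nat_lit 9) 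
(.lf (nat_lit 480683) (.g (nat_lit 5513) (.e (nat_lit 5943) (nat_lit 322) (.e (nat_lit 57375) (nat_lit 2) (.e (nat_lit 90174) (nat_lit 14) (.e (nat_lit 180251) (nat_lit 10) (.e (nat_lit 573489) (nat_lit 14) (.e (nat_lit 73755) (nat_lit 8) (.e (nat_lit 557090) (nat_lit 12) (.e (nat_lit 163843) (nat_lit 0) .nil)))))))) (.g (nat_lit 1) (.e (nat_lit 112032) (nat_lit 0) .nil) .nil))) 
(.lf (nat_lit 481195) (.g (nat_lit 3796) (.e (nat_lit 5270) (nat_lit 298) (.e (nat_lit 1239) (nat_lit 91) (.e (nat_lit 90170) (nat_lit 13) (.e (nat_lit 172113) (nat_lit 10) (.e (nat_lit 434248) (nat_lit 28) (.e (nat_lit 573457) (nat_lit 9) (.e (nat_lit 359) (nat_lit 30) (.e (nat_lit 409602) (nat_lit 0) .nil)))))))) (.g (nat_lit 1) (.e (nat_lit 112617) (nat_lit 0) .nil) .nil)))))) 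
(.nd (nat_lit 7) (.nd (nat_lit 8) (.nd (nat_lit 9) 
(.lf (nat_lit 480363) (.g (nat_lit 2033) (.e (nat_lit 5937) (nat_lit 322) (.e (nat_lit 57435) (nat_lit 17) (.e (nat_lit 376835) (nat_lit 0) (.e (nat_lit 3748) (nat_lit 228) (.e (nat_lit 786481) (nat_lit 30) (.e (nat_lit 368384) (nat_lit 0) .nil)))))) (.g (nat_lit 1) (.e (nat_lit 111708) (nat_lit 0) .nil) .nil))) 
(.lf (nat_lit 480875) (.g (nat_lit 754) (.e (nat_lit 5948) (nat_lit 322) (.e (nat_lit 57377) (nat_lit 3) (.e (nat_lit 98357) (nat_lit 26) .nil))) (.g (nat_lit 0) (.e (nat_lit 112229) (nat_lit 0) .nil) .nil)))) (.nd (nat_lit 9) 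
(.lf (nat_lit 480619) (.g (nat_lit 2261) (.e (nat_lit 5942) (nat_lit 322) (.e (nat_lit 57379) (nat_lit 3) (.e (nat_lit 98366) (nat_lit 27) (.e (nat_lit 434245) (nat_lit 28) (.e (nat_lit 573488) (nat_lit 14) .nil))))) (.g (nat_lit 0) (.e (nat_lit 111968) (nat_lit 0) .nil) .nil))) 
(.lf (nat_lit 481131) (.g (nat_lit 2888) (.e (nat_lit 5954) (nat_lit 322) (.e (nat_lit 57409) (nat_lit 12) (.e (nat_lit 336443) (nat_lit 32) (.e (nat_lit 466974) (nat_lit 22) (.e (nat_lit 196656) (nat_lit 11) .nil))))) (.g (nat_lit 0) (.e (nat_lit 112517) (nat_lit 0) .nil) .nil))))) (.nd (nat_lit 8) (.nd (nat_lit 9) 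
(.lf (nat_lit 480491) (.g (nat_lit 4126) (.e (nat_lit 5939) (nat_lit 322) (.e (nat_lit 57379) (nat_lit 3) (.e (nat_lit 98367) (nat_lit 27) (.e (nat_lit 434246) (nat_lit 28) (.e (nat_lit 573489) (nat_lit 14) (.e (nat_lit 73755) (nat_lit 8) (.e (nat_lit 557090) (nat_lit 12) (.e (nat_lit 163850) (nat_lit 0) .nil)))))))) (.g (nat_lit 1) (.e (nat_lit 111838) (nat_lit 0) .nil) .nil))) 
(.lf (nat_lit 481003) (.g (nat_lit 725) (.e (nat_lit 5949) (nat_lit 322) (.e (nat_lit 57423) (nat_lit 14) (.e (nat_lit 352265) (nat_lit 0) .nil))) (.g (nat_lit 0) (.e (nat_lit 112378) (nat_lit 0) .nil) .nil)))) (.nd (nat_lit 9) 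
(.lf (nat_lit 480747) (.g (nat_lit 2366) (.e (nat_lit 5945) (nat_lit 322) (.e (nat_lit 57371) (nat_lit 2) (.e (nat_lit 90174) (nat_lit 14) (.e (nat_lit 180243) (nat_lit 5) (.e (nat_lit 532513) (nat_lit 3) .nil))))) (.g (nat_lit 0) (.e (nat_lit 112097) (nat_lit 0) .nil) .nil))) 
(.lf (nat_lit 481259) (.g (nat_lit 2712) (.e (nat_lit 7936) (nat_lit 299) (.e (nat_lit 8234) (nat_lit 20) (.e (nat_lit 573482) (nat_lit 13) (.e (nat_lit 65619) (nat_lit 10) (.e (nat_lit 344117) (nat_lit 21) .nil))))) (.g (nat_lit 0) (.e (nat_lit 112852) (nat_lit 0) .nil) .nil)))))))) (.nd (nat_lit 5) (.nd (nat_lit 6) (.nd (nat_lit 7) (.nd (nat_lit 8) (.nd (nat_lit 9) 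
(.lf (nat_lit 480283) (.g (nat_lit 3057) (.e (nat_lit 5937) (nat_lit 322) (.e (nat_lit 57373) (nat_lit 2) (.e (nat_lit 90174) (nat_lit 14) (.e (nat_lit 180252) (nat_lit 10) (.e (nat_lit 573489) (nat_lit 14) .nil))))) (.g (nat_lit 0) (.e (nat_lit 111615) (nat_lit 0) .nil) .nil))) 
(.lf (nat_lit 480795) (.g (nat_lit 3172) (.e (nat_lit 5946) (nat_lit 322) (.e (nat_lit 57373) (nat_lit 2) (.e (nat_lit 90174) (nat_lit 14) (.e (nat_lit 180252) (nat_lit 10) (.e (nat_lit 573489) (nat_lit 14) (.e (nat_lit 73755) (nat_lit 8) (.e (nat_lit 557090) (nat_lit 12) (.e (nat_lit 163850) (nat_lit 0) .nil)))))))) (.g (nat_lit 1) (.e (nat_lit 112145) (nat_lit 0) .nil) .nil)))) (.nd (nat_lit 9) 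
(.lf (nat_lit 480539) (.g (nat_lit 2926) (.e (nat_lit 5940) (nat_lit 322) (.e (nat_lit 57374) (nat_lit 2) (.e (nat_lit 90174) (nat_lit 14) (.e (nat_lit 180252) (nat_lit 10) (.e (nat_lit 573489) (nat_lit 14) (.e (nat_lit 73755) (nat_lit 8) (.e (nat_lit 557090) (nat_lit 12) (.e (nat_lit 163844) (nat_lit 0) .nil)))))))) (.g (nat_lit 1) (.e (nat_lit 111886) (nat_lit 0) .nil) .nil))) 
(.lf (nat_lit 481051) (.g (nat_lit 1741) (.e (nat_lit 5951) (nat_lit 322) (.e (nat_lit 57378) (nat_lit 3) (.e (nat_lit 98365) (nat_lit 26) (.e (nat_lit 426325) (nat_lit 13) .nil)))) (.g (nat_lit 0) (.e (nat_lit 112433) (nat_lit 0) .nil) .nil))))) (.nd (nat_lit 8) (.nd (nat_lit 9) 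
(.lf (nat_lit 480411) (.g (nat_lit 2364) (.e (nat_lit 5939) (nat_lit 322) (.e (nat_lit 57373) (nat_lit 2) (.e (nat_lit 90174) (nat_lit 14) (.e (nat_lit 180251) (nat_lit 10) .nil)))) (.g (nat_lit 0) (.e (nat_lit 111757) (nat_lit 0) .nil) .nil))) 
(.lf (nat_lit 480923) (.g (nat_lit 3330) (.e (nat_lit 5949) (nat_lit 322) (.e (nat_lit 57371) (nat_lit 2) (.e (nat_lit 90174) (nat_lit 14) (.e (nat_lit 180250) (nat_lit 10) (.e (nat_lit 573489) (nat_lit 14) (.e (nat_lit 73755) (nat_lit 8) (.e (nat_lit 557091) (nat_lit 12) (.e (nat_lit 163856) (nat_lit 0) .nil)))))))) (.g (nat_lit 1) (.e (nat_lit 112279) (nat_lit 0) .nil) .nil)))) (.nd (nat_lit 9) 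
(.lf (nat_lit 480667) (.g (nat_lit 4655) (.e (nat_lit 5943) (nat_lit 322) (.e (nat_lit 57375) (nat_lit 2) (.e (nat_lit 90172) (nat_lit 14) (.e (nat_lit 180250) (nat_lit 10) (.e (nat_lit 573488) (nat_lit 14) (.e (nat_lit 73755) (nat_lit 8) (.e (nat_lit 557090) (nat_lit 12) (.e (nat_lit 163843) (nat_lit 0) .nil)))))))) (.g (nat_lit 1) (.e (nat_lit 112016) (nat_lit 0) .nil) .nil))) 
(.lf (nat_lit 481179) (.g (nat_lit 3539) (.e (nat_lit 5270) (nat_lit 298) (.e (nat_lit 1239) (nat_lit 91) (.e (nat_lit 90170) (nat_lit 13) (.e (nat_lit 172113) (nat_lit 10) (.e (nat_lit 434247) (nat_lit 28) (.e (nat_lit 573456) (nat_lit 9) (.e (nat_lit 359) (nat_lit 30) (.e (nat_lit 409604) (nat_lit 0) .nil)))))))) (.g (nat_lit 1) (.e (nat_lit 112601) (nat_lit 0) .nil) .nil)))))) 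
(.nd (nat_lit 7) (.nd (nat_lit 8) (.nd (nat_lit 9) 
(.lf (nat_lit 480347) (.g (nat_lit 2433) (.e (nat_lit 5937) (nat_lit 322) (.e (nat_lit 57379) (nat_lit 3) (.e (nat_lit 98367) (nat_lit 27) (.e (nat_lit 434247) (nat_lit 28) (.e (nat_lit 573489) (nat_lit 14) (.e (nat_lit 73755) (nat_lit 8) (.e (nat_lit 557091) (nat_lit 12) (.e (nat_lit 163840) (nat_lit 0) .nil)))))))) (.g (nat_lit 1) (.e (nat_lit 111683) (nat_lit 0) .nil) .nil))) 
(.lf (nat_lit 480859) (.g (nat_lit 2141) (.e (nat_lit 5948) (nat_lit 322) (.e (nat_lit 57371) (nat_lit 2) (.e (nat_lit 90174) (nat_lit 14) (.e (nat_lit 180251) (nat_lit 10) (.e (nat_lit 573487) (nat_lit 14) (.e (nat_lit 73753) (nat_lit 8) (.e (nat_lit 557093) (nat_lit 12) (.e (nat_lit 163857) (nat_lit 0) .nil)))))))) (.g (nat_lit 1) (.e (nat_lit 112213) (nat_lit 0) .nil) .nil)))) (.nd (nat_lit 9) 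
(.lf (nat_lit 480603) (.g (nat_lit 3176) (.e (nat_lit 5942) (nat_lit 322) (.e (nat_lit 57373) (nat_lit 2) (.e (nat_lit 90174) (nat_lit 14) (.e (nat_lit 180252) (nat_lit 10) (.e (nat_lit 573489) (nat_lit 14) .nil))))) (.g (nat_lit 0) (.e (nat_lit 111952) (nat_lit 0) .nil) .nil))) 
(.lf (nat_lit 481115) (.g (nat_lit 1990) (.e (nat_lit 5954) (nat_lit 322) (.e (nat_lit 57373) (nat_lit 2) (.e (nat_lit 90173) (nat_lit 14) (.e (nat_lit 180252) (nat_lit 10) (.e (nat_lit 573489) (nat_lit 14) .nil))))) (.g (nat_lit 0) (.e (nat_lit 112501) (nat_lit 0) .nil) .nil))))) (.nd (nat_lit 8) (.nd (nat_lit 9) 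
(.lf (nat_lit 480475) (.g (nat_lit 3068) (.e (nat_lit 5939) (nat_lit 322) (.e (nat_lit 57379) (nat_lit 3) (.e (nat_lit 98366) (nat_lit 27) (.e (nat_lit 434248) (nat_lit 28) (.e (nat_lit 573487) (nat_lit 14) (.e (nat_lit 73753) (nat_lit 8) (.e (nat_lit 557091) (nat_lit 12) (.e (nat_lit 163840) (nat_lit 0) .nil)))))))) (.g (nat_lit 1) (.e (nat_lit 111822) (nat_lit 0) .nil) .nil))) 
(.lf (nat_lit 480987) (.g (nat_lit 2324) (.e (nat_lit 5949) (nat_lit 322) (.e (nat_lit 57409) (nat_lit 12) (.e (nat_lit 336443) (nat_lit 32) (.e (nat_lit 466977) (nat_lit 22) (.e (nat_lit 196655) (nat_lit 11) .nil))))) (.g (nat_lit 0) (.e (nat_lit 112354) (nat_lit 0) .nil) .nil)))) (.nd (nat_lit 9) 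
(.lf (nat_lit 480731) (.g (nat_lit 1158) (.e (nat_lit 5944) (nat_lit 322) (.e (nat_lit 57378) (nat_lit 3) (.e (nat_lit 98358) (nat_lit 26) .nil))) (.g (nat_lit 0) (.e (nat_lit 112081) (nat_lit 0) .nil) .nil))) 
(.lf (nat_lit 481243) (.g (nat_lit 646) (.e (nat_lit 5296) (nat_lit 298) (.e (nat_lit 1250) (nat_lit 92) (.e (nat_lit 98369) (nat_lit 28) (.e (nat_lit 442427) (nat_lit 23) .nil)))) (.g (nat_lit 0) (.e (nat_lit 112810) (nat_lit 0) .nil) .nil))))))) (.nd (nat_lit 6) (.nd (nat_lit 7) (.nd (nat_lit 8) (.nd (nat_lit 9) 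
(.lf (nat_lit 480315) (.g (nat_lit 2344) (.e (nat_lit 5937) (nat_lit 322) (.e (nat_lit 57378) (nat_lit 3) (.e (nat_lit 98367) (nat_lit 27) (.e (nat_lit 434231) (nat_lit 23) (.e (nat_lit 532514) (nat_lit 3) .nil))))) (.g (nat_lit 0) (.e (nat_lit 111651) (nat_lit 0) .nil) .nil))) 
(.lf (nat_lit 480827) (.g (nat_lit 3103) (.e (nat_lit 5947) (nat_lit 322) (.e (nat_lit 57371) (nat_lit 2) (.e (nat_lit 90174) (nat_lit 14) (.e (nat_lit 180251) (nat_lit 10) (.e (nat_lit 573489) (nat_lit 14) (.e (nat_lit 73754) (nat_lit 8) (.e (nat_lit 557094) (nat_lit 12) (.e (nat_lit 163856) (nat_lit 0) .nil)))))))) (.g (nat_lit 1) (.e (nat_lit 112180) (nat_lit 0) .nil) .nil)))) (.nd (nat_lit 9) 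
(.lf (nat_lit 480571) (.g (nat_lit 2175) (.e (nat_lit 5941) (nat_lit 322) (.e (nat_lit 57372) (nat_lit 2) (.e (nat_lit 90173) (nat_lit 14) (.e (nat_lit 180252) (nat_lit 10) (.e (nat_lit 573489) (nat_lit 14) (.e (nat_lit 73755) (nat_lit 8) (.e (nat_lit 557090) (nat_lit 12) (.e (nat_lit 163845) (nat_lit 0) .nil)))))))) (.g (nat_lit 1) (.e (nat_lit 111918) (nat_lit 0) .nil) .nil))) 
(.lf (nat_lit 481083) (.g (nat_lit 3501) (.e (nat_lit 5953) (nat_lit 322) (.e (nat_lit 57373) (nat_lit 2) (.e (nat_lit 90174) (nat_lit 14) (.e (nat_lit 180251) (nat_lit 10) (.e (nat_lit 573489) (nat_lit 14) (.e (nat_lit 73754) (nat_lit 8) (.e (nat_lit 557094) (nat_lit 12) (.e (nat_lit 163852) (nat_lit 0) .nil)))))))) (.g (nat_lit 1) (.e (nat_lit 112465) (nat_lit 0) .nil) .nil))))) 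
(.nd (nat_lit 8) (.nd (nat_lit 9) 
(.lf (nat_lit 480443) (.g (nat_lit 1280) (.e (nat_lit 5939) (nat_lit 322) (.e (nat_lit 57379) (nat_lit 3) (.e (nat_lit 98365) (nat_lit 26) (.e (nat_lit 426326) (nat_lit 13) .nil)))) (.g (nat_lit 0) (.e (nat_lit 111790) (nat_lit 0) .nil) .nil))) 
(.lf (nat_lit 480955) (.g (nat_lit 2408) (.e (nat_lit 5949) (nat_lit 322) (.e (nat_lit 57378) (nat_lit 3) (.e (nat_lit 98365) (nat_lit 26) (.e (nat_lit 426327) (nat_lit 13) (.e (nat_lit 491264) (nat_lit 10) (.e (nat_lit 434215) (nat_lit 18) .nil)))))) (.g (nat_lit 1) (.e (nat_lit 112311) (nat_lit 0) .nil) .nil)))) (.nd (nat_lit 9) 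
(.lf (nat_lit 480699) (.g (nat_lit 2433) (.e (nat_lit 5943) (nat_lit 322) (.e (nat_lit 57379) (nat_lit 3) (.e (nat_lit 98366) (nat_lit 27) (.e (nat_lit 434248) (nat_lit 28) (.e (nat_lit 573487) (nat_lit 14) (.e (nat_lit 73753) (nat_lit 8) (.e (nat_lit 557089) (nat_lit 12) (.e (nat_lit 163844) (nat_lit 0) .nil)))))))) (.g (nat_lit 1) (.e (nat_lit 112049) (nat_lit 0) .nil) .nil))) 
(.lf (nat_lit 481211) (.g (nat_lit 3301) (.e (nat_lit 5259) (nat_lit 298) (.e (nat_lit 496) (nat_lit 39) (.e (nat_lit 483365) (nat_lit 18) (.e (nat_lit 57854) (nat_lit 252) (.e (nat_lit 57378) (nat_lit 3) (.e (nat_lit 98309) (nat_lit 0) (.e (nat_lit 6112) (nat_lit 332) (.e (nat_lit 2406) (nat_lit 157) .nil)))))))) (.g (nat_lit 1) (.e (nat_lit 112695) (nat_lit 0) .nil) .nil)))))) 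
(.nd (nat_lit 7) (.nd (nat_lit 8) (.nd (nat_lit 9) 
(.lf (nat_lit 480379) (.g (nat_lit 2476) (.e (nat_lit 5938) (nat_lit 322) (.e (nat_lit 57372) (nat_lit 2) (.e (nat_lit 90174) (nat_lit 14) (.e (nat_lit 180252) (nat_lit 10) (.e (nat_lit 573489) (nat_lit 14) (.e (nat_lit 73755) (nat_lit 8) (.e (nat_lit 557090) (nat_lit 12) (.e (nat_lit 163840) (nat_lit 0) .nil)))))))) (.g (nat_lit 1) (.e (nat_lit 111725) (nat_lit 0) .nil) .nil))) 
(.lf (nat_lit 480891) (.g (nat_lit 807) (.e (nat_lit 5948) (nat_lit 322) (.e (nat_lit 57417) (nat_lit 12) (.e (nat_lit 336429) (nat_lit 29) .nil))) (.g (nat_lit 0) (.e (nat_lit 112246) (nat_lit 0) .nil) .nil)))) (.nd (nat_lit 9) 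
(.lf (nat_lit 480635) (.g (nat_lit 3483) (.e (nat_lit 5943) (nat_lit 322) (.e (nat_lit 57372) (nat_lit 2) (.e (nat_lit 90174) (nat_lit 14) (.e (nat_lit 180250) (nat_lit 10) (.e (nat_lit 573487) (nat_lit 14) (.e (nat_lit 73753) (nat_lit 8) (.e (nat_lit 557090) (nat_lit 12) (.e (nat_lit 163844) (nat_lit 0) .nil)))))))) (.g (nat_lit 1) (.e (nat_lit 111984) (nat_lit 0) .nil) .nil))) 
(.lf (nat_lit 481147) (.g (nat_lit 1571) (.e (nat_lit 5245) (nat_lit 298) (.e (nat_lit 1256) (nat_lit 92) (.e (nat_lit 98372) (nat_lit 29) (.e (nat_lit 450586) (nat_lit 10) (.e (nat_lit 573452) (nat_lit 9) .nil))))) (.g (nat_lit 0) (.e (nat_lit 112549) (nat_lit 0) .nil) .nil))))) (.nd (nat_lit 8) (.nd (nat_lit 9) 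
(.lf (nat_lit 480507) (.g (nat_lit 2857) (.e (nat_lit 5940) (nat_lit 322) (.e (nat_lit 57371) (nat_lit 2) (.e (nat_lit 90172) (nat_lit 14) (.e (nat_lit 180250) (nat_lit 10) (.e (nat_lit 573488) (nat_lit 14) (.e (nat_lit 73755) (nat_lit 8) (.e (nat_lit 557090) (nat_lit 12) (.e (nat_lit 163843) (nat_lit 0) .nil)))))))) (.g (nat_lit 1) (.e (nat_lit 111854) (nat_lit 0) .nil) .nil))) 
(.lf (nat_lit 481019) (.g (nat_lit 2443) (.e (nat_lit 5950) (nat_lit 322) (.e (nat_lit 57371) (nat_lit 2) (.e (nat_lit 90174) (nat_lit 14) (.e (nat_lit 180243) (nat_lit 5) (.e (nat_lit 532513) (nat_lit 3) (.e (nat_lit 114714) (nat_lit 22) (.e (nat_lit 90165) (nat_lit 12) (.e (nat_lit 163854) (nat_lit 0) .nil)))))))) (.g (nat_lit 1) (.e (nat_lit 112401) (nat_lit 0) .nil) .nil)))) (.nd (nat_lit 9) 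
(.lf (nat_lit 480763) (.g (nat_lit 3033) (.e (nat_lit 5945) (nat_lit 322) (.e (nat_lit 57373) (nat_lit 2) (.e (nat_lit 90174) (nat_lit 14) (.e (nat_lit 180251) (nat_lit 10) (.e (nat_lit 573489) (nat_lit 14) (.e (nat_lit 73755) (nat_lit 8) (.e (nat_lit 557091) (nat_lit 12) (.e (nat_lit 163847) (nat_lit 0) .nil)))))))) (.g (nat_lit 1) (.e (nat_lit 112113) (nat_lit 0) .nil) .nil))) 
(.lf (nat_lit 481275) (.g (nat_lit 3002) (.e (nat_lit 5389) (nat_lit 301) (.e (nat_lit 57464) (nat_lit 23) (.e (nat_lit 516151) (nat_lit 9) (.e (nat_lit 426211) (nat_lit 9) (.e (nat_lit 426125) (nat_lit 2) (.e (nat_lit 204544) (nat_lit 18) (.e (nat_lit 2771) (nat_lit 177) (.e (nat_lit 278553) (nat_lit 10) .nil)))))))) (.g (nat_lit 1) (.e (nat_lit 112890) (nat_lit 0) .nil) .nil)))))))))) 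
(.nd (nat_lit 3) (.nd (nat_lit 4) (.nd (nat_lit 5) (.nd (nat_lit 6) (.nd (nat_lit 7) 
(.nd (nat_lit 8) (.nd (nat_lit 9) 
(.lf (nat_lit 480263) (.g (nat_lit 2836) (.e (nat_lit 5937) (nat_lit 322) (.e (nat_lit 57371) (nat_lit 2) (.e (nat_lit 90174) (nat_lit 14) (.e (nat_lit 180252) (nat_lit 10) (.e (nat_lit 573489) (nat_lit 14) (.e (nat_lit 73755) (nat_lit 8) (.e (nat_lit 557090) (nat_lit 12) (.e (nat_lit 163840) (nat_lit 0) .nil)))))))) (.g (nat_lit 1) (.e (nat_lit 111595) (nat_lit 0) .nil) .nil))) 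
(.lf (nat_lit 480775) (.g (nat_lit 2806) (.e (nat_lit 5946) (nat_lit 322) (.e (nat_lit 57371) (nat_lit 2) (.e (nat_lit 90174) (nat_lit 14) (.e (nat_lit 180252) (nat_lit 10) (.e (nat_lit 573489) (nat_lit 14) (.e (nat_lit 73755) (nat_lit 8) (.e (nat_lit 557090) (nat_lit 12) (.e (nat_lit 163840) (nat_lit 0) .nil)))))))) (.g (nat_lit 1) (.e (nat_lit 112125) (nat_lit 0) .nil) .nil)))) (.nd (nat_lit 9) 
(.lf (nat_lit 480519) (.g (nat_lit 2961) (.e (nat_lit 5940) (nat_lit 322) (.e (nat_lit 57371) (nat_lit 2) (.e (nat_lit 90174) (nat_lit 14) (.e (nat_lit 180252) (nat_lit 10) (.e (nat_lit 573489) (nat_lit 14) (.e (nat_lit 73755) (nat_lit 8) (.e (nat_lit 557090) (nat_lit 12) (.e (nat_lit 163845) (nat_lit 0) .nil)))))))) (.g (nat_lit 1) (.e (nat_lit 111866) (nat_lit 0) .nil) .nil))) 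
(.lf (nat_lit 481031) (.g (nat_lit 2083) (.e (nat_lit 5950) (nat_lit 322) (.e (nat_lit 57378) (nat_lit 3) (.e (nat_lit 98365) (nat_lit 26) (.e (nat_lit 426325) (nat_lit 13) .nil)))) (.g (nat_lit 0) (.e (nat_lit 112413) (nat_lit 0) .nil) .nil))))) (.nd (nat_lit 8) (.nd (nat_lit 9) 
(.lf (nat_lit 480391) (.g (nat_lit 2539) (.e (nat_lit 5939) (nat_lit 322) (.e (nat_lit 57372) (nat_lit 2) (.e (nat_lit 90174) (nat_lit 14) (.e (nat_lit 180243) (nat_lit 5) (.e (nat_lit 532513) (nat_lit 3) (.e (nat_lit 114714) (nat_lit 22) (.e (nat_lit 90180) (nat_lit 16) (.e (nat_lit 229379) (nat_lit 0) .nil)))))))) (.g (nat_lit 1) (.e (nat_lit 111737) (nat_lit 0) .nil) .nil))) 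
(.lf (nat_lit 480903) (.g (nat_lit 2024) (.e (nat_lit 5948) (nat_lit 322) (.e (nat_lit 57423) (nat_lit 14) (.e (nat_lit 352262) (nat_lit 0) (.e (nat_lit 3748) (nat_lit 228) (.e (nat_lit 786481) (nat_lit 30) (.e (nat_lit 360456) (nat_lit 0) .nil)))))) (.g (nat_lit 1) (.e (nat_lit 112258) (nat_lit 0) .nil) .nil)))) (.nd (nat_lit 9) 
(.lf (nat_lit 480647) (.g (nat_lit 2642) (.e (nat_lit 5943) (nat_lit 322) (.e (nat_lit 57372) (nat_lit 2) (.e (nat_lit 90174) (nat_lit 14) (.e (nat_lit 180251) (nat_lit 10) (.e (nat_lit 573489) (nat_lit 14) (.e (nat_lit 73755) (nat_lit 8) (.e (nat_lit 557091) (nat_lit 12) (.e (nat_lit 163845) (nat_lit 0) .nil)))))))) (.g (nat_lit 1) (.e (nat_lit 111996) (nat_lit 0) .nil) .nil))) 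
(.lf (nat_lit 481159) (.g (nat_lit 5483) (.e (nat_lit 5270) (nat_lit 298) (.e (nat_lit 1239) (nat_lit 91) (.e (nat_lit 90170) (nat_lit 13) (.e (nat_lit 172106) (nat_lit 10) (.e (nat_lit 434244) (nat_lit 28) (.e (nat_lit 573451) (nat_lit 9) (.e (nat_lit 359) (nat_lit 30) (.e (nat_lit 409605) (nat_lit 0) .nil)))))))) (.g (nat_lit 1) (.e (nat_lit 112581) (nat_lit 0) .nil) .nil)))))) 
(.nd (nat_lit 7) (.nd (nat_lit 8) (.nd (nat_lit 9) 
(.lf (nat_lit 480327) (.g (nat_lit 3724) (.e (nat_lit 5937) (nat_lit 322) (.e (nat_lit 57378) (nat_lit 3) (.e (nat_lit 98368) (nat_lit 27) (.e (nat_lit 434247) (nat_lit 28) (.e (nat_lit 573489) (nat_lit 14) (.e (nat_lit 73755) (nat_lit 8) (.e (nat_lit 557091) (nat_lit 12) (.e (nat_lit 171776) (nat_lit 0) .nil)))))))) (.g (nat_lit 1) (.e (nat_lit 111663) (nat_lit 0) .nil) .nil))) 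
(.lf (nat_lit 480839) (.g (nat_lit 2770) (.e (nat_lit 5947) (nat_lit 322) (.e (nat_lit 57378) (nat_lit 3) (.e (nat_lit 98365) (nat_lit 26) (.e (nat_lit 426327) (nat_lit 13) (.e (nat_lit 491264) (nat_lit 10) .nil))))) (.g (nat_lit 0) (.e (nat_lit 112192) (nat_lit 0) .nil) .nil)))) (.nd (nat_lit 9) 
(.lf (nat_lit 480583) (.g (nat_lit 3225) (.e (nat_lit 5941) (nat_lit 322) (.e (nat_lit 57373) (nat_lit 2) (.e (nat_lit 90174) (nat_lit 14) (.e (nat_lit 180252) (nat_lit 10) (.e (nat_lit 573489) (nat_lit 14) (.e (nat_lit 73755) (nat_lit 8) (.e (nat_lit 557090) (nat_lit 12) (.e (nat_lit 163841) (nat_lit 0) .nil)))))))) (.g (nat_lit 1) (.e (nat_lit 111930) (nat_lit 0) .nil) .nil))) 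
(.lf (nat_lit 481095) (.g (nat_lit 1825) (.e (nat_lit 5953) (nat_lit 322) (.e (nat_lit 57378) (nat_lit 3) (.e (nat_lit 98365) (nat_lit 26) (.e (nat_lit 426326) (nat_lit 13) .nil)))) (.g (nat_lit 0) (.e (nat_lit 112477) (nat_lit 0) .nil) .nil))))) (.nd (nat_lit 8) (.nd (nat_lit 9) 
(.lf (nat_lit 480455) (.g (nat_lit 2525) (.e (nat_lit 5939) (nat_lit 322) (.e (nat_lit 57379) (nat_lit 3) (.e (nat_lit 98366) (nat_lit 27) (.e (nat_lit 434231) (nat_lit 23) (.e (nat_lit 532507) (nat_lit 2) (.e (nat_lit 106517) (nat_lit 9) (.e (nat_lit 1255) (nat_lit 92) (.e (nat_lit 98325) (nat_lit 17) (.e (nat_lit 2458) (nat_lit 157) .nil))))))))) (.g (nat_lit 1) (.e (nat_lit 111802) (nat_lit 0) .nil) .nil))) 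
(.lf (nat_lit 480967) (.g (nat_lit 5706) (.e (nat_lit 5949) (nat_lit 322) (.e (nat_lit 57389) (nat_lit 5) (.e (nat_lit 114712) (nat_lit 21) (.e (nat_lit 57930) (nat_lit 282) (.e (nat_lit 163923) (nat_lit 15) (.e (nat_lit 450587) (nat_lit 10) (.e (nat_lit 573475) (nat_lit 12) (.e (nat_lit 57360) (nat_lit 0) .nil)))))))) (.g (nat_lit 1) (.e (nat_lit 112325) (nat_lit 0) .nil) .nil)))) 
(.nd (nat_lit 9) 
(.lf (nat_lit 480711) (.g (nat_lit 3213) (.e (nat_lit 5943) (nat_lit 322) (.e (nat_lit 57379) (nat_lit 3) (.e (nat_lit 98368) (nat_lit 27) (.e (nat_lit 434245) (nat_lit 28) (.e (nat_lit 573487) (nat_lit 14) (.e (nat_lit 73753) (nat_lit 8) (.e (nat_lit 557090) (nat_lit 12) (.e (nat_lit 163844) (nat_lit 0) .nil)))))))) (.g (nat_lit 1) (.e (nat_lit 112061) (nat_lit 0) .nil) .nil))) 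
(.lf (nat_lit 481223) (.g (nat_lit 2149) (.e (nat_lit 5293) (nat_lit 298) (.e (nat_lit 1232) (nat_lit 91) (.e (nat_lit 90170) (nat_lit 13) (.e (nat_lit 172113) (nat_lit 10) (.e (nat_lit 434245) (nat_lit 28) (.e (nat_lit 573449) (nat_lit 9) (.e (nat_lit 359) (nat_lit 30) (.e (nat_lit 409603) (nat_lit 0) .nil)))))))) (.g (nat_lit 1) (.e (nat_lit 112781) (nat_lit 0) .nil) .nil))))))) 
(.nd (nat_lit 6) (.nd (nat_lit 7) (.nd (nat_lit 8) (.nd (nat_lit 9) 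
(.lf (nat_lit 480295) (.g (nat_lit 2563) (.e (nat_lit 5937) (nat_lit 322) (.e (nat_lit 57375) (nat_lit 2) (.e (nat_lit 90174) (nat_lit 14) (.e (nat_lit 180251) (nat_lit 10) (.e (nat_lit 573489) (nat_lit 14) .nil))))) (.g (nat_lit 0) (.e (nat_lit 111627) (nat_lit 0) .nil) .nil))) 
(.lf (nat_lit 480807) (.g (nat_lit 2568) (.e (nat_lit 5946) (nat_lit 322) (.e (nat_lit 57409) (nat_lit 12) (.e (nat_lit 336443) (nat_lit 32) (.e (nat_lit 466974) (nat_lit 22) (.e (nat_lit 196656) (nat_lit 11) .nil))))) (.g (nat_lit 0) (.e (nat_lit 112157) (nat_lit 0) .nil) .nil)))) (.nd (nat_lit 9) 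
(.lf (nat_lit 480551) (.g (nat_lit 2747) (.e (nat_lit 5940) (nat_lit 322) (.e (nat_lit 57375) (nat_lit 2) (.e (nat_lit 90174) (nat_lit 14) (.e (nat_lit 180251) (nat_lit 10) (.e (nat_lit 573489) (nat_lit 14) (.e (nat_lit 73755) (nat_lit 8) (.e (nat_lit 557089) (nat_lit 12) (.e (nat_lit 163844) (nat_lit 0) .nil)))))))) (.g (nat_lit 1) (.e (nat_lit 111898) (nat_lit 0) .nil) .nil))) 
(.lf (nat_lit 481063) (.g (nat_lit 2450) (.e (nat_lit 5953) (nat_lit 322) (.e (nat_lit 57371) (nat_lit 2) (.e (nat_lit 90174) (nat_lit 14) (.e (nat_lit 180250) (nat_lit 10) (.e (nat_lit 573487) (nat_lit 14) .nil))))) (.g (nat_lit 0) (.e (nat_lit 112445) (nat_lit 0) .nil) .nil))))) (.nd (nat_lit 8) (.nd (nat_lit 9) 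
(.lf (nat_lit 480423) (.g (nat_lit 1733) (.e (nat_lit 5939) (nat_lit 322) (.e (nat_lit 57375) (nat_lit 2) (.e (nat_lit 90174) (nat_lit 14) (.e (nat_lit 180243) (nat_lit 5) (.e (nat_lit 532515) (nat_lit 3) (.e (nat_lit 114715) (nat_lit 22) (.e (nat_lit 90182) (nat_lit 16) (.e (nat_lit 229379) (nat_lit 0) .nil)))))))) (.g (nat_lit 1) (.e (nat_lit 111769) (nat_lit 0) .nil) .nil))) 
(.lf (nat_lit 480935) (.g (nat_lit 3796) (.e (nat_lit 5949) (nat_lit 322) (.e (nat_lit 57373) (nat_lit 2) (.e (nat_lit 90174) (nat_lit 14) (.e (nat_lit 180243) (nat_lit 5) (.e (nat_lit 532513) (nat_lit 3) (.e (nat_lit 114714) (nat_lit 22) (.e (nat_lit 90165) (nat_lit 12) (.e (nat_lit 163856) (nat_lit 0) .nil)))))))) (.g (nat_lit 1) (.e (nat_lit 112291) (nat_lit 0) .nil) .nil)))) (.nd (nat_lit 9) 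
(.lf (nat_lit 480679) (.g (nat_lit 3111) (.e (nat_lit 5943) (nat_lit 322) (.e (nat_lit 57375) (nat_lit 2) (.e (nat_lit 90174) (nat_lit 14) (.e (nat_lit 180250) (nat_lit 10) (.e (nat_lit 573489) (nat_lit 14) (.e (nat_lit 73755) (nat_lit 8) (.e (nat_lit 557091) (nat_lit 12) (.e (nat_lit 163841) (nat_lit 0) .nil)))))))) (.g (nat_lit 1) (.e (nat_lit 112028) (nat_lit 0) .nil) .nil))) 
(.lf (nat_lit 481191) (.g (nat_lit 5216) (.e (nat_lit 5270) (nat_lit 298) (.e (nat_lit 1239) (nat_lit 91) (.e (nat_lit 90170) (nat_lit 13) (.e (nat_lit 172113) (nat_lit 10) (.e (nat_lit 434248) (nat_lit 28) (.e (nat_lit 573452) (nat_lit 9) (.e (nat_lit 359) (nat_lit 30) (.e (nat_lit 409604) (nat_lit 0) .nil)))))))) (.g (nat_lit 1) (.e (nat_lit 112613) (nat_lit 0) .nil) .nil)))))) 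
(.nd (nat_lit 7) (.nd (nat_lit 8) (.nd (nat_lit 9) 
(.lf (nat_lit 480359) (.g (nat_lit 3153) (.e (nat_lit 5937) (nat_lit 322) (.e (nat_lit 57412) (nat_lit 12) (.e (nat_lit 336226) (nat_lit 14) (.e (nat_lit 401437) (nat_lit 9) (.e (nat_lit 426544) (nat_lit 30) (.e (nat_lit 368384) (nat_lit 0) .nil)))))) (.g (nat_lit 1) (.e (nat_lit 111702) (nat_lit 0) .nil) .nil))) 
(.lf (nat_lit 480871) (.g (nat_lit 2198) (.e (nat_lit 5948) (nat_lit 322) (.e (nat_lit 57373) (nat_lit 2) (.e (nat_lit 90174) (nat_lit 14) (.e (nat_lit 180251) (nat_lit 10) .nil)))) (.g (nat_lit 0) (.e (nat_lit 112225) (nat_lit 0) .nil) .nil)))) (.nd (nat_lit 9) 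
(.lf (nat_lit 480615) (.g (nat_lit 5320) (.e (nat_lit 5942) (nat_lit 322) (.e (nat_lit 57375) (nat_lit 2) (.e (nat_lit 90174) (nat_lit 14) (.e (nat_lit 180251) (nat_lit 10) (.e (nat_lit 573489) (nat_lit 14) (.e (nat_lit 73755) (nat_lit 8) (.e (nat_lit 557090) (nat_lit 12) (.e (nat_lit 163843) (nat_lit 0) .nil)))))))) (.g (nat_lit 1) (.e (nat_lit 111964) (nat_lit 0) .nil) .nil))) 
(.lf (nat_lit 481127) (.g (nat_lit 3494) (.e (nat_lit 5954) (nat_lit 322) (.e (nat_lit 57373) (nat_lit 2) (.e (nat_lit 90174) (nat_lit 14) (.e (nat_lit 180252) (nat_lit 10) (.e (nat_lit 573489) (nat_lit 14) (.e (nat_lit 73755) (nat_lit 8) (.e (nat_lit 557090) (nat_lit 12) (.e (nat_lit 163841) (nat_lit 0) .nil)))))))) (.g (nat_lit 1) (.e (nat_lit 112513) (nat_lit 0) .nil) .nil))))) 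
(.nd (nat_lit 8) (.nd (nat_lit 9) 
(.lf (nat_lit 480487) (.g (nat_lit 3658) (.e (nat_lit 5939) (nat_lit 322) (.e (nat_lit 57379) (nat_lit 3) (.e (nat_lit 98367) (nat_lit 27) (.e (nat_lit 434231) (nat_lit 23) (.e (nat_lit 532514) (nat_lit 3) (.e (nat_lit 114719) (nat_lit 23) (.e (nat_lit 98325) (nat_lit 17) (.e (nat_lit 2458) (nat_lit 157) .nil)))))))) (.g (nat_lit 1) (.e (nat_lit 111834) (nat_lit 0) .nil) .nil))) 
(.lf (nat_lit 480999) (.g (nat_lit 2393) (.e (nat_lit 5949) (nat_lit 322) (.e (nat_lit 57419) (nat_lit 12) (.e (nat_lit 336203) (nat_lit 12) (.e (nat_lit 385102) (nat_lit 50) (.e (nat_lit 786483) (nat_lit 30) (.e (nat_lit 360457) (nat_lit 0) .nil)))))) (.g (nat_lit 1) (.e (nat_lit 112368) (nat_lit 0) .nil) .nil)))) (.nd (nat_lit 9) 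
(.lf (nat_lit 480743) (.g (nat_lit 3026) (.e (nat_lit 5944) (nat_lit 322) (.e (nat_lit 57412) (nat_lit 12) (.e (nat_lit 336226) (nat_lit 14) (.e (nat_lit 401437) (nat_lit 9) (.e (nat_lit 426544) (nat_lit 30) (.e (nat_lit 368384) (nat_lit 0) .nil)))))) (.g (nat_lit 1) (.e (nat_lit 112093) (nat_lit 0) .nil) .nil))) 
(.lf (nat_lit 481255) (.g (nat_lit 1308) (.e (nat_lit 5373) (nat_lit 299) (.e (nat_lit 8233) (nat_lit 20) (.e (nat_lit 573493) (nat_lit 15) (.e (nat_lit 81956) (nat_lit 23) .nil)))) (.g (nat_lit 0) (.e (nat_lit 112838) (nat_lit 0) .nil) .nil)))))))) (.nd (nat_lit 5) (.nd (nat_lit 6) (.nd (nat_lit 7) (.nd (nat_lit 8) (.nd (nat_lit 9) 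
(.lf (nat_lit 480279) (.g (nat_lit 2668) (.e (nat_lit 5937) (nat_lit 322) (.e (nat_lit 57373) (nat_lit 2) (.e (nat_lit 90174) (nat_lit 14) (.e (nat_lit 180250) (nat_lit 10) (.e (nat_lit 573487) (nat_lit 14) (.e (nat_lit 73753) (nat_lit 8) (.e (nat_lit 557094) (nat_lit 12) (.e (nat_lit 163840) (nat_lit 0) .nil)))))))) (.g (nat_lit 1) (.e (nat_lit 111611) (nat_lit 0) .nil) .nil))) 
(.lf (nat_lit 480791) (.g (nat_lit 3000) (.e (nat_lit 5946) (nat_lit 322) (.e (nat_lit 57373) (nat_lit 2) (.e (nat_lit 90174) (nat_lit 14) (.e (nat_lit 180251) (nat_lit 10) (.e (nat_lit 573489) (nat_lit 14) (.e (nat_lit 73754) (nat_lit 8) (.e (nat_lit 557093) (nat_lit 12) (.e (nat_lit 163857) (nat_lit 0) .nil)))))))) (.g (nat_lit 1) (.e (nat_lit 112141) (nat_lit 0) .nil) .nil)))) (.nd (nat_lit 9) 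
(.lf (nat_lit 480535) (.g (nat_lit 4376) (.e (nat_lit 5940) (nat_lit 322) (.e (nat_lit 57374) (nat_lit 2) (.e (nat_lit 90174) (nat_lit 14) (.e (nat_lit 180250) (nat_lit 10) (.e (nat_lit 573489) (nat_lit 14) (.e (nat_lit 73755) (nat_lit 8) (.e (nat_lit 557090) (nat_lit 12) (.e (nat_lit 163844) (nat_lit 0) .nil)))))))) (.g (nat_lit 1) (.e (nat_lit 111882) (nat_lit 0) .nil) .nil))) 
(.lf (nat_lit 481047) (.g (nat_lit 2831) (.e (nat_lit 5951) (nat_lit 322) (.e (nat_lit 57373) (nat_lit 2) (.e (nat_lit 90174) (nat_lit 14) (.e (nat_lit 180251) (nat_lit 10) (.e (nat_lit 573489) (nat_lit 14) .nil))))) (.g (nat_lit 0) (.e (nat_lit 112429) (nat_lit 0) .nil) .nil))))) (.nd (nat_lit 8) (.nd (nat_lit 9) 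
(.lf (nat_lit 480407) (.g (nat_lit 1480) (.e (nat_lit 5939) (nat_lit 322) (.e (nat_lit 57372) (nat_lit 2) (.e (nat_lit 90174) (nat_lit 14) (.e (nat_lit 180251) (nat_lit 10) .nil)))) (.g (nat_lit 0) (.e (nat_lit 111753) (nat_lit 0) .nil) .nil))) 
(.lf (nat_lit 480919) (.g (nat_lit 2867) (.e (nat_lit 5949) (nat_lit 322) (.e (nat_lit 57371) (nat_lit 2) (.e (nat_lit 90174) (nat_lit 14) (.e (nat_lit 180250) (nat_lit 10) (.e (nat_lit 573487) (nat_lit 14) (.e (nat_lit 73753) (nat_lit 8) (.e (nat_lit 557093) (nat_lit 12) (.e (nat_lit 163856) (nat_lit 0) .nil)))))))) (.g (nat_lit 1) (.e (nat_lit 112275) (nat_lit 0) .nil) .nil)))) (.nd (nat_lit 9) 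
(.lf (nat_lit 480663) (.g (nat_lit 2872) (.e (nat_lit 5943) (nat_lit 322) (.e (nat_lit 57374) (nat_lit 2) (.e (nat_lit 90174) (nat_lit 14) (.e (nat_lit 180251) (nat_lit 10) (.e (nat_lit 573489) (nat_lit 14) (.e (nat_lit 73755) (nat_lit 8) (.e (nat_lit 557091) (nat_lit 12) (.e (nat_lit 163844) (nat_lit 0) .nil)))))))) (.g (nat_lit 1) (.e (nat_lit 112012) (nat_lit 0) .nil) .nil))) 
(.lf (nat_lit 481175) (.g (nat_lit 2992) (.e (nat_lit 5270) (nat_lit 298) (.e (nat_lit 1239) (nat_lit 91) (.e (nat_lit 90170) (nat_lit 13) (.e (nat_lit 172113) (nat_lit 10) (.e (nat_lit 434245) (nat_lit 28) (.e (nat_lit 573455) (nat_lit 9) (.e (nat_lit 359) (nat_lit 30) (.e (nat_lit 409604) (nat_lit 0) .nil)))))))) (.g (nat_lit 1) (.e (nat_lit 112597) (nat_lit 0) .nil) .nil)))))) 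
(.nd (nat_lit 7) (.nd (nat_lit 8) (.nd (nat_lit 9) 
(.lf (nat_lit 480343) (.g (nat_lit 2408) (.e (nat_lit 5937) (nat_lit 322) (.e (nat_lit 57379) (nat_lit 3) (.e (nat_lit 98367) (nat_lit 27) (.e (nat_lit 434231) (nat_lit 23) (.e (nat_lit 532513) (nat_lit 3) .nil))))) (.g (nat_lit 0) (.e (nat_lit 111679) (nat_lit 0) .nil) .nil))) 
(.lf (nat_lit 480855) (.g (nat_lit 2615) (.e (nat_lit 5948) (nat_lit 322) (.e (nat_lit 57371) (nat_lit 2) (.e (nat_lit 90174) (nat_lit 14) (.e (nat_lit 180250) (nat_lit 10) (.e (nat_lit 573487) (nat_lit 14) (.e (nat_lit 73753) (nat_lit 8) (.e (nat_lit 557093) (nat_lit 12) (.e (nat_lit 163856) (nat_lit 0) .nil)))))))) (.g (nat_lit 1) (.e (nat_lit 112209) (nat_lit 0) .nil) .nil)))) (.nd (nat_lit 9) 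
(.lf (nat_lit 480599) (.g (nat_lit 2920) (.e (nat_lit 5942) (nat_lit 322) (.e (nat_lit 57373) (nat_lit 2) (.e (nat_lit 90174) (nat_lit 14) (.e (nat_lit 180251) (nat_lit 10) (.e (nat_lit 573489) (nat_lit 14) (.e (nat_lit 73755) (nat_lit 8) (.e (nat_lit 557089) (nat_lit 12) (.e (nat_lit 163844) (nat_lit 0) .nil)))))))) (.g (nat_lit 1) (.e (nat_lit 111948) (nat_lit 0) .nil) .nil))) 
(.lf (nat_lit 481111) (.g (nat_lit 3402) (.e (nat_lit 5954) (nat_lit 322) (.e (nat_lit 57371) (nat_lit 2) (.e (nat_lit 90174) (nat_lit 14) (.e (nat_lit 180250) (nat_lit 10) (.e (nat_lit 573489) (nat_lit 14) (.e (nat_lit 73755) (nat_lit 8) (.e (nat_lit 557091) (nat_lit 12) (.e (nat_lit 163841) (nat_lit 0) .nil)))))))) (.g (nat_lit 1) (.e (nat_lit 112497) (nat_lit 0) .nil) .nil))))) 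
(.nd (nat_lit 8) (.nd (nat_lit 9) 
(.lf (nat_lit 480471) (.g (nat_lit 2189) (.e (nat_lit 5939) (nat_lit 322) (.e (nat_lit 57379) (nat_lit 3) (.e (nat_lit 98366) (nat_lit 27) (.e (nat_lit 434247) (nat_lit 28) (.e (nat_lit 573489) (nat_lit 14) (.e (nat_lit 73754) (nat_lit 8) (.e (nat_lit 557094) (nat_lit 12) (.e (nat_lit 163840) (nat_lit 0) .nil)))))))) (.g (nat_lit 1) (.e (nat_lit 111818) (nat_lit 0) .nil) .nil))) 
(.lf (nat_lit 480983) (.g (nat_lit 2051) (.e (nat_lit 5949) (nat_lit 322) (.e (nat_lit 57409) (nat_lit 12) (.e (nat_lit 336443) (nat_lit 32) (.e (nat_lit 466977) (nat_lit 22) (.e (nat_lit 196654) (nat_lit 11) .nil))))) (.g (nat_lit 0) (.e (nat_lit 112350) (nat_lit 0) .nil) .nil)))) (.nd (nat_lit 9) 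
(.lf (nat_lit 480727) (.g (nat_lit 2755) (.e (nat_lit 5944) (nat_lit 322) (.e (nat_lit 57373) (nat_lit 2) (.e (nat_lit 90174) (nat_lit 14) (.e (nat_lit 180251) (nat_lit 10) (.e (nat_lit 573489) (nat_lit 14) .nil))))) (.g (nat_lit 0) (.e (nat_lit 112077) (nat_lit 0) .nil) .nil))) 
(.lf (nat_lit 481239) (.g (nat_lit 1467) (.e (nat_lit 5293) (nat_lit 298) (.e (nat_lit 1423) (nat_lit 108) (.e (nat_lit 336423) (nat_lit 28) (.e (nat_lit 434193) (nat_lit 13) (.e (nat_lit 2789) (nat_lit 179) (.e (nat_lit 302848) (nat_lit 25) (.e (nat_lit 409603) (nat_lit 0) .nil))))))) (.g (nat_lit 1) (.e (nat_lit 112797) (nat_lit 0) .nil) .nil))))))) 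
(.nd (nat_lit 6) (.nd (nat_lit 7) (.nd (nat_lit 8) (.nd (nat_lit 9) 
(.lf (nat_lit 480311) (.g (nat_lit 2492) (.e (nat_lit 5937) (nat_lit 322) (.e (nat_lit 57378) (nat_lit 3) (.e (nat_lit 98365) (nat_lit 26) (.e (nat_lit 426325) (nat_lit 13) (.e (nat_lit 483341) (nat_lit 9) (.e (nat_lit 426028) (nat_lit 0) (.e (nat_lit 2466) (nat_lit 157) .nil))))))) (.g (nat_lit 1) (.e (nat_lit 111647) (nat_lit 0) .nil) .nil))) 
(.lf (nat_lit 480823) (.g (nat_lit 1582) (.e (nat_lit 5947) (nat_lit 322) (.e (nat_lit 57371) (nat_lit 2) (.e (nat_lit 90174) (nat_lit 14) (.e (nat_lit 180245) (nat_lit 5) .nil)))) (.g (nat_lit 0) (.e (nat_lit 112176) (nat_lit 0) .nil) .nil)))) (.nd (nat_lit 9) 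
(.lf (nat_lit 480567) (.g (nat_lit 2746) (.e (nat_lit 5941) (nat_lit 322) (.e (nat_lit 57372) (nat_lit 2) (.e (nat_lit 90172) (nat_lit 14) (.e (nat_lit 180250) (nat_lit 10) (.e (nat_lit 573487) (nat_lit 14) .nil))))) (.g (nat_lit 0) (.e (nat_lit 111914) (nat_lit 0) .nil) .nil))) 
(.lf (nat_lit 481079) (.g (nat_lit 3148) (.e (nat_lit 5953) (nat_lit 322) (.e (nat_lit 57373) (nat_lit 2) (.e (nat_lit 90174) (nat_lit 14) (.e (nat_lit 180250) (nat_lit 10) (.e (nat_lit 573487) (nat_lit 14) (.e (nat_lit 73753) (nat_lit 8) (.e (nat_lit 557090) (nat_lit 12) (.e (nat_lit 163852) (nat_lit 0) .nil)))))))) (.g (nat_lit 1) (.e (nat_lit 112461) (nat_lit 0) .nil) .nil))))) 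
(.nd (nat_lit 8) (.nd (nat_lit 9) 
(.lf (nat_lit 480439) (.g (nat_lit 2437) (.e (nat_lit 5939) (nat_lit 322) (.e (nat_lit 57379) (nat_lit 3) (.e (nat_lit 98365) (nat_lit 26) (.e (nat_lit 426325) (nat_lit 13) (.e (nat_lit 483339) (nat_lit 9) (.e (nat_lit 426074) (nat_lit 0) (.e (nat_lit 2452) (nat_lit 157) .nil))))))) (.g (nat_lit 1) (.e (nat_lit 111786) (nat_lit 0) .nil) .nil))) 
(.lf (nat_lit 480951) (.g (nat_lit 5178) (.e (nat_lit 5949) (nat_lit 322) (.e (nat_lit 57373) (nat_lit 2) (.e (nat_lit 90174) (nat_lit 14) (.e (nat_lit 180251) (nat_lit 10) (.e (nat_lit 573489) (nat_lit 14) (.e (nat_lit 73755) (nat_lit 8) (.e (nat_lit 557090) (nat_lit 12) (.e (nat_lit 163856) (nat_lit 0) .nil)))))))) (.g (nat_lit 1) (.e (nat_lit 112307) (nat_lit 0) .nil) .nil)))) (.nd (nat_lit 9) 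
(.lf (nat_lit 480695) (.g (nat_lit 2166) (.e (nat_lit 5943) (nat_lit 322) (.e (nat_lit 57379) (nat_lit 3) (.e (nat_lit 98366) (nat_lit 27) (.e (nat_lit 434247) (nat_lit 28) (.e (nat_lit 573487) (nat_lit 14) (.e (nat_lit 73753) (nat_lit 8) (.e (nat_lit 557090) (nat_lit 12) (.e (nat_lit 163844) (nat_lit 0) .nil)))))))) (.g (nat_lit 1) (.e (nat_lit 112045) (nat_lit 0) .nil) .nil))) 
(.lf (nat_lit 481207) (.g (nat_lit 4526) (.e (nat_lit 5259) (nat_lit 298) (.e (nat_lit 162) (nat_lit 11) (.e (nat_lit 196670) (nat_lit 14) (.e (nat_lit 73753) (nat_lit 8) (.e (nat_lit 557105) (nat_lit 14) (.e (nat_lit 180252) (nat_lit 10) (.e (nat_lit 573503) (nat_lit 18) (.e (nat_lit 7936) (nat_lit 81) .nil)))))))) (.g (nat_lit 1) (.e (nat_lit 112642) (nat_lit 0) .nil) .nil)))))) 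
(.nd (nat_lit 7) (.nd (nat_lit 8) (.nd (nat_lit 9) 
(.lf (nat_lit 480375) (.g (nat_lit 2225) (.e (nat_lit 5938) (nat_lit 322) (.e (nat_lit 57372) (nat_lit 2) (.e (nat_lit 90174) (nat_lit 14) (.e (nat_lit 180243) (nat_lit 5) (.e (nat_lit 532515) (nat_lit 3) (.e (nat_lit 114716) (nat_lit 22) (.e (nat_lit 90181) (nat_lit 16) (.e (nat_lit 229376) (nat_lit 0) .nil)))))))) (.g (nat_lit 1) (.e (nat_lit 111721) (nat_lit 0) .nil) .nil))) 
(.lf (nat_lit 480887) (.g (nat_lit 1847) (.e (nat_lit 5948) (nat_lit 322) (.e (nat_lit 57409) (nat_lit 12) (.e (nat_lit 336443) (nat_lit 32) (.e (nat_lit 466977) (nat_lit 22) .nil)))) (.g (nat_lit 0) (.e (nat_lit 112242) (nat_lit 0) .nil) .nil)))) (.nd (nat_lit 9) 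
(.lf (nat_lit 480631) (.g (nat_lit 2824) (.e (nat_lit 5943) (nat_lit 322) (.e (nat_lit 57372) (nat_lit 2) (.e (nat_lit 90173) (nat_lit 14) (.e (nat_lit 180252) (nat_lit 10) (.e (nat_lit 573489) (nat_lit 14) (.e (nat_lit 73755) (nat_lit 8) (.e (nat_lit 557090) (nat_lit 12) (.e (nat_lit 163841) (nat_lit 0) .nil)))))))) (.g (nat_lit 1) (.e (nat_lit 111980) (nat_lit 0) .nil) .nil))) 
(.lf (nat_lit 481143) (.g (nat_lit 3336) (.e (nat_lit 5245) (nat_lit 298) (.e (nat_lit 1239) (nat_lit 91) (.e (nat_lit 90170) (nat_lit 13) (.e (nat_lit 172106) (nat_lit 10) (.e (nat_lit 434244) (nat_lit 28) (.e (nat_lit 573451) (nat_lit 9) (.e (nat_lit 359) (nat_lit 30) (.e (nat_lit 409602) (nat_lit 0) .nil)))))))) (.g (nat_lit 1) (.e (nat_lit 112545) (nat_lit 0) .nil) .nil))))) 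
(.nd (nat_lit 8) (.nd (nat_lit 9) 
(.lf (nat_lit 480503) (.g (nat_lit 1767) (.e (nat_lit 5939) (nat_lit 322) (.e (nat_lit 57435) (nat_lit 17) (.e (nat_lit 376835) (nat_lit 0) (.e (nat_lit 3748) (nat_lit 228) (.e (nat_lit 786483) (nat_lit 30) (.e (nat_lit 368384) (nat_lit 0) .nil)))))) (.g (nat_lit 1) (.e (nat_lit 111850) (nat_lit 0) .nil) .nil))) 
(.lf (nat_lit 481015) (.g (nat_lit 2721) (.e (nat_lit 5949) (nat_lit 322) (.e (nat_lit 57449) (nat_lit 20) (.e (nat_lit 401454) (nat_lit 12) (.e (nat_lit 475210) (nat_lit 41) (.e (nat_lit 712753) (nat_lit 30) (.e (nat_lit 450569) (nat_lit 0) .nil)))))) (.g (nat_lit 1) (.e (nat_lit 112397) (nat_lit 0) .nil) .nil)))) (.nd (nat_lit 9) 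
(.lf (nat_lit 480759) (.g (nat_lit 2570) (.e (nat_lit 5945) (nat_lit 322) (.e (nat_lit 57373) (nat_lit 2) (.e (nat_lit 90174) (nat_lit 14) (.e (nat_lit 180250) (nat_lit 10) (.e (nat_lit 573487) (nat_lit 14) .nil))))) (.g (nat_lit 0) (.e (nat_lit 112109) (nat_lit 0) .nil) .nil))) 
(.lf (nat_lit 481271) (.g (nat_lit 1127) (.e (nat_lit 7936) (nat_lit 300) (.e (nat_lit 16455) (nat_lit 12) (.e (nat_lit 475210) (nat_lit 41) (.e (nat_lit 712739) (nat_lit 27) .nil)))) (.g (nat_lit 0) (.e (nat_lit 112884) (nat_lit 0) .nil) .nil))))))))) (.nd (nat_lit 4) (.nd (nat_lit 5) (.nd (nat_lit 6) (.nd (nat_lit 7) (.nd (nat_lit 8) (.nd (nat_lit 9) 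
(.lf (nat_lit 480271) (.g (nat_lit 3386) (.e (nat_lit 5937) (nat_lit 322) (.e (nat_lit 57373) (nat_lit 2) (.e (nat_lit 90172) (nat_lit 14) (.e (nat_lit 180250) (nat_lit 10) (.e (nat_lit 573489) (nat_lit 14) (.e (nat_lit 73755) (nat_lit 8) (.e (nat_lit 557090) (nat_lit 12) (.e (nat_lit 171776) (nat_lit 0) .nil)))))))) (.g (nat_lit 1) (.e (nat_lit 111603) (nat_lit 0) .nil) .nil))) 
(.lf (nat_lit 480783) (.g (nat_lit 2277) (.e (nat_lit 5946) (nat_lit 322) (.e (nat_lit 57373) (nat_lit 2) (.e (nat_lit 90174) (nat_lit 14) (.e (nat_lit 180243) (nat_lit 5) (.e (nat_lit 532515) (nat_lit 3) (.e (nat_lit 114719) (nat_lit 23) (.e (nat_lit 98331) (nat_lit 17) (.e (nat_lit 2479) (nat_lit 157) .nil)))))))) (.g (nat_lit 1) (.e (nat_lit 112133) (nat_lit 0) .nil) .nil)))) (.nd (nat_lit 9) 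
(.lf (nat_lit 480527) (.g (nat_lit 4580) (.e (nat_lit 5940) (nat_lit 322) (.e (nat_lit 57373) (nat_lit 2) (.e (nat_lit 90174) (nat_lit 14) (.e (nat_lit 180250) (nat_lit 10) (.e (nat_lit 573489) (nat_lit 14) (.e (nat_lit 73755) (nat_lit 8) (.e (nat_lit 557090) (nat_lit 12) (.e (nat_lit 163844) (nat_lit 0) .nil)))))))) (.g (nat_lit 1) (.e (nat_lit 111874) (nat_lit 0) .nil) .nil))) 
(.lf (nat_lit 481039) (.g (nat_lit 5343) (.e (nat_lit 5951) (nat_lit 322) (.e (nat_lit 57371) (nat_lit 2) (.e (nat_lit 90174) (nat_lit 14) (.e (nat_lit 180251) (nat_lit 10) (.e (nat_lit 573489) (nat_lit 14) (.e (nat_lit 73755) (nat_lit 8) (.e (nat_lit 557090) (nat_lit 12) (.e (nat_lit 163850) (nat_lit 0) .nil)))))))) (.g (nat_lit 1) (.e (nat_lit 112421) (nat_lit 0) .nil) .nil))))) 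
(.nd (nat_lit 8) (.nd (nat_lit 9) 
(.lf (nat_lit 480399) (.g (nat_lit 2717) (.e (nat_lit 5939) (nat_lit 322) (.e (nat_lit 57372) (nat_lit 2) (.e (nat_lit 90174) (nat_lit 14) (.e (nat_lit 180243) (nat_lit 5) (.e (nat_lit 532515) (nat_lit 3) (.e (nat_lit 114716) (nat_lit 22) (.e (nat_lit 90179) (nat_lit 16) (.e (nat_lit 229379) (nat_lit 0) .nil)))))))) (.g (nat_lit 1) (.e (nat_lit 111745) (nat_lit 0) .nil) .nil))) 
(.lf (nat_lit 480911) (.g (nat_lit 2582) (.e (nat_lit 5948) (nat_lit 322) (.e (nat_lit 57449) (nat_lit 20) (.e (nat_lit 401454) (nat_lit 12) (.e (nat_lit 475210) (nat_lit 41) (.e (nat_lit 712753) (nat_lit 30) (.e (nat_lit 450569) (nat_lit 0) .nil)))))) (.g (nat_lit 1) (.e (nat_lit 112267) (nat_lit 0) .nil) .nil)))) (.nd (nat_lit 9) 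
(.lf (nat_lit 480655) (.g (nat_lit 3215) (.e (nat_lit 5943) (nat_lit 322) (.e (nat_lit 57373) (nat_lit 2) (.e (nat_lit 90174) (nat_lit 14) (.e (nat_lit 180252) (nat_lit 10) (.e (nat_lit 573489) (nat_lit 14) (.e (nat_lit 73755) (nat_lit 8) (.e (nat_lit 557090) (nat_lit 12) (.e (nat_lit 163843) (nat_lit 0) .nil)))))))) (.g (nat_lit 1) (.e (nat_lit 112004) (nat_lit 0) .nil) .nil))) 
(.lf (nat_lit 481167) (.g (nat_lit 4099) (.e (nat_lit 5270) (nat_lit 298) (.e (nat_lit 1239) (nat_lit 91) (.e (nat_lit 90170) (nat_lit 13) (.e (nat_lit 172113) (nat_lit 10) (.e (nat_lit 434245) (nat_lit 28) (.e (nat_lit 573449) (nat_lit 9) (.e (nat_lit 359) (nat_lit 30) (.e (nat_lit 409604) (nat_lit 0) .nil)))))))) (.g (nat_lit 1) (.e (nat_lit 112589) (nat_lit 0) .nil) .nil)))))) 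
(.nd (nat_lit 7) (.nd (nat_lit 8) (.nd (nat_lit 9) 
(.lf (nat_lit 480335) (.g (nat_lit 3384) (.e (nat_lit 5937) (nat_lit 322) (.e (nat_lit 57379) (nat_lit 3) (.e (nat_lit 98365) (nat_lit 26) (.e (nat_lit 426325) (nat_lit 13) (.e (nat_lit 483341) (nat_lit 9) (.e (nat_lit 426031) (nat_lit 0) (.e (nat_lit 2466) (nat_lit 157) .nil))))))) (.g (nat_lit 1) (.e (nat_lit 111671) (nat_lit 0) .nil) .nil))) 
(.lf (nat_lit 480847) (.g (nat_lit 2399) (.e (nat_lit 5948) (nat_lit 322) (.e (nat_lit 57371) (nat_lit 2) (.e (nat_lit 90174) (nat_lit 14) (.e (nat_lit 180243) (nat_lit 5) (.e (nat_lit 532513) (nat_lit 3) (.e (nat_lit 114714) (nat_lit 22) (.e (nat_lit 90165) (nat_lit 12) (.e (nat_lit 163856) (nat_lit 0) .nil)))))))) (.g (nat_lit 1) (.e (nat_lit 112201) (nat_lit 0) .nil) .nil)))) (.nd (nat_lit 9) 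
(.lf (nat_lit 480591) (.g (nat_lit 2856) (.e (nat_lit 5941) (nat_lit 322) (.e (nat_lit 57409) (nat_lit 12) (.e (nat_lit 336443) (nat_lit 32) (.e (nat_lit 466977) (nat_lit 22) (.e (nat_lit 196654) (nat_lit 11) .nil))))) (.g (nat_lit 0) (.e (nat_lit 111938) (nat_lit 0) .nil) .nil))) 
(.lf (nat_lit 481103) (.g (nat_lit 1515) (.e (nat_lit 5953) (nat_lit 322) (.e (nat_lit 57435) (nat_lit 17) (.e (nat_lit 376835) (nat_lit 0) (.e (nat_lit 3748) (nat_lit 228) (.e (nat_lit 786483) (nat_lit 30) (.e (nat_lit 368384) (nat_lit 0) .nil)))))) (.g (nat_lit 1) (.e (nat_lit 112488) (nat_lit 0) .nil) .nil))))) (.nd (nat_lit 8) (.nd (nat_lit 9) 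
(.lf (nat_lit 480463) (.g (nat_lit 2667) (.e (nat_lit 5939) (nat_lit 322) (.e (nat_lit 57379) (nat_lit 3) (.e (nat_lit 98366) (nat_lit 27) (.e (nat_lit 434231) (nat_lit 23) (.e (nat_lit 532514) (nat_lit 3) (.e (nat_lit 114716) (nat_lit 22) (.e (nat_lit 90180) (nat_lit 16) (.e (nat_lit 229379) (nat_lit 0) .nil)))))))) (.g (nat_lit 1) (.e (nat_lit 111810) (nat_lit 0) .nil) .nil))) 
(.lf (nat_lit 480975) (.g (nat_lit 2319) (.e (nat_lit 5949) (nat_lit 322) (.e (nat_lit 57409) (nat_lit 12) (.e (nat_lit 336443) (nat_lit 32) (.e (nat_lit 466974) (nat_lit 22) (.e (nat_lit 196653) (nat_lit 11) (.e (nat_lit 16388) (nat_lit 0) (.e (nat_lit 2485) (nat_lit 157) .nil))))))) (.g (nat_lit 1) (.e (nat_lit 112342) (nat_lit 0) .nil) .nil)))) (.nd (nat_lit 9) 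
(.lf (nat_lit 480719) (.g (nat_lit 2698) (.e (nat_lit 5944) (nat_lit 322) (.e (nat_lit 57371) (nat_lit 2) (.e (nat_lit 90174) (nat_lit 14) (.e (nat_lit 180252) (nat_lit 10) (.e (nat_lit 573489) (nat_lit 14) .nil))))) (.g (nat_lit 0) (.e (nat_lit 112069) (nat_lit 0) .nil) .nil))) 
(.lf (nat_lit 481231) (.g (nat_lit 3823) (.e (nat_lit 5293) (nat_lit 298) (.e (nat_lit 1250) (nat_lit 92) (.e (nat_lit 98372) (nat_lit 29) (.e (nat_lit 450586) (nat_lit 10) (.e (nat_lit 573457) (nat_lit 9) (.e (nat_lit 359) (nat_lit 30) (.e (nat_lit 409602) (nat_lit 0) .nil))))))) (.g (nat_lit 1) (.e (nat_lit 112789) (nat_lit 0) .nil) .nil))))))) 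
(.nd (nat_lit 6) (.nd (nat_lit 7) (.nd (nat_lit 8) (.nd (nat_lit 9) 
(.lf (nat_lit 480303) (.g (nat_lit 1314) (.e (nat_lit 5937) (nat_lit 322) (.e (nat_lit 57377) (nat_lit 3) (.e (nat_lit 98365) (nat_lit 26) (.e (nat_lit 426326) (nat_lit 13) .nil)))) (.g (nat_lit 0) (.e (nat_lit 111635) (nat_lit 0) .nil) .nil))) 
(.lf (nat_lit 480815) (.g (nat_lit 884) (.e (nat_lit 5946) (nat_lit 322) (.e (nat_lit 57424) (nat_lit 14) (.e (nat_lit 352262) (nat_lit 0) .nil))) (.g (nat_lit 0) (.e (nat_lit 112165) (nat_lit 0) .nil) .nil)))) (.nd (nat_lit 9) 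
(.lf (nat_lit 480559) (.g (nat_lit 2324) (.e (nat_lit 5940) (nat_lit 322) (.e (nat_lit 57379) (nat_lit 3) (.e (nat_lit 98367) (nat_lit 27) (.e (nat_lit 434242) (nat_lit 28) (.e (nat_lit 573488) (nat_lit 14) (.e (nat_lit 73755) (nat_lit 8) (.e (nat_lit 557090) (nat_lit 12) (.e (nat_lit 163843) (nat_lit 0) .nil)))))))) (.g (nat_lit 1) (.e (nat_lit 111906) (nat_lit 0) .nil) .nil))) 
(.lf (nat_lit 481071) (.g (nat_lit 2550) (.e (nat_lit 5953) (nat_lit 322) (.e (nat_lit 57373) (nat_lit 2) (.e (nat_lit 90172) (nat_lit 14) (.e (nat_lit 180250) (nat_lit 10) (.e (nat_lit 573487) (nat_lit 14) (.e (nat_lit 73753) (nat_lit 8) (.e (nat_lit 557090) (nat_lit 12) (.e (nat_lit 163852) (nat_lit 0) .nil)))))))) (.g (nat_lit 1) (.e (nat_lit 112453) (nat_lit 0) .nil) .nil))))) 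
(.nd (nat_lit 8) (.nd (nat_lit 9) 
(.lf (nat_lit 480431) (.g (nat_lit 2879) (.e (nat_lit 5939) (nat_lit 322) (.e (nat_lit 57375) (nat_lit 2) (.e (nat_lit 90174) (nat_lit 14) (.e (nat_lit 180251) (nat_lit 10) (.e (nat_lit 573489) (nat_lit 14) (.e (nat_lit 73754) (nat_lit 8) (.e (nat_lit 557094) (nat_lit 12) (.e (nat_lit 163840) (nat_lit 0) .nil)))))))) (.g (nat_lit 1) (.e (nat_lit 111777) (nat_lit 0) .nil) .nil))) 
(.lf (nat_lit 480943) (.g (nat_lit 2260) (.e (nat_lit 5949) (nat_lit 322) (.e (nat_lit 57373) (nat_lit 2) (.e (nat_lit 90174) (nat_lit 14) (.e (nat_lit 180250) (nat_lit 10) (.e (nat_lit 573487) (nat_lit 14) (.e (nat_lit 73753) (nat_lit 8) (.e (nat_lit 557090) (nat_lit 12) (.e (nat_lit 163856) (nat_lit 0) .nil)))))))) (.g (nat_lit 1) (.e (nat_lit 112299) (nat_lit 0) .nil) .nil)))) (.nd (nat_lit 9) 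
(.lf (nat_lit 480687) (.g (nat_lit 4017) (.e (nat_lit 5943) (nat_lit 322) (.e (nat_lit 57375) (nat_lit 2) (.e (nat_lit 90174) (nat_lit 14) (.e (nat_lit 180251) (nat_lit 10) (.e (nat_lit 573489) (nat_lit 14) (.e (nat_lit 73755) (nat_lit 8) (.e (nat_lit 557091) (nat_lit 12) (.e (nat_lit 163844) (nat_lit 0) .nil)))))))) (.g (nat_lit 1) (.e (nat_lit 112036) (nat_lit 0) .nil) .nil))) 
(.lf (nat_lit 481199) (.g (nat_lit 2747) (.e (nat_lit 5270) (nat_lit 298) (.e (nat_lit 1239) (nat_lit 91) (.e (nat_lit 90170) (nat_lit 13) (.e (nat_lit 172115) (nat_lit 10) (.e (nat_lit 434231) (nat_lit 23) .nil))))) (.g (nat_lit 0) (.e (nat_lit 112621) (nat_lit 0) .nil) .nil)))))) (.nd (nat_lit 7) (.nd (nat_lit 8) (.nd (nat_lit 9) 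
(.lf (nat_lit 480367) (.g (nat_lit 1715) (.e (nat_lit 5937) (nat_lit 322) (.e (nat_lit 57447) (nat_lit 19) (.e (nat_lit 393234) (nat_lit 17) (.e (nat_lit 2399) (nat_lit 157) .nil)))) (.g (nat_lit 0) (.e (nat_lit 111713) (nat_lit 0) .nil) .nil))) 
(.lf (nat_lit 480879) (.g (nat_lit 2013) (.e (nat_lit 5948) (nat_lit 322) (.e (nat_lit 57377) (nat_lit 3) (.e (nat_lit 98376) (nat_lit 30) (.e (nat_lit 458789) (nat_lit 23) (.e (nat_lit 532515) (nat_lit 3) (.e (nat_lit 114719) (nat_lit 23) (.e (nat_lit 98325) (nat_lit 17) (.e (nat_lit 2515) (nat_lit 157) .nil)))))))) (.g (nat_lit 1) (.e (nat_lit 112234) (nat_lit 0) .nil) .nil)))) (.nd (nat_lit 9) 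
(.lf (nat_lit 480623) (.g (nat_lit 2472) (.e (nat_lit 5943) (nat_lit 322) (.e (nat_lit 57372) (nat_lit 2) (.e (nat_lit 90172) (nat_lit 14) (.e (nat_lit 180250) (nat_lit 10) (.e (nat_lit 573487) (nat_lit 14) (.e (nat_lit 73753) (nat_lit 8) (.e (nat_lit 557090) (nat_lit 12) (.e (nat_lit 163845) (nat_lit 0) .nil)))))))) (.g (nat_lit 1) (.e (nat_lit 111972) (nat_lit 0) .nil) .nil))) 
(.lf (nat_lit 481135) (.g (nat_lit 2393) (.e (nat_lit 5954) (nat_lit 322) (.e (nat_lit 57412) (nat_lit 12) (.e (nat_lit 336226) (nat_lit 14) (.e (nat_lit 401437) (nat_lit 9) (.e (nat_lit 426544) (nat_lit 30) (.e (nat_lit 368384) (nat_lit 0) .nil)))))) (.g (nat_lit 1) (.e (nat_lit 112521) (nat_lit 0) .nil) .nil))))) (.nd (nat_lit 8) (.nd (nat_lit 9) 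
(.lf (nat_lit 480495) (.g (nat_lit 3568) (.e (nat_lit 5939) (nat_lit 322) (.e (nat_lit 57379) (nat_lit 3) (.e (nat_lit 98368) (nat_lit 27) (.e (nat_lit 434245) (nat_lit 28) (.e (nat_lit 573488) (nat_lit 14) (.e (nat_lit 73755) (nat_lit 8) (.e (nat_lit 557090) (nat_lit 12) (.e (nat_lit 163850) (nat_lit 0) .nil)))))))) (.g (nat_lit 1) (.e (nat_lit 111842) (nat_lit 0) .nil) .nil))) 
(.lf (nat_lit 481007) (.g (nat_lit 2545) (.e (nat_lit 5949) (nat_lit 322) (.e (nat_lit 57435) (nat_lit 17) (.e (nat_lit 376835) (nat_lit 0) (.e (nat_lit 3748) (nat_lit 228) (.e (nat_lit 786481) (nat_lit 30) (.e (nat_lit 360456) (nat_lit 0) .nil)))))) (.g (nat_lit 1) (.e (nat_lit 112384) (nat_lit 0) .nil) .nil)))) (.nd (nat_lit 9) 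
(.lf (nat_lit 480751) (.g (nat_lit 2455) (.e (nat_lit 5945) (nat_lit 322) (.e (nat_lit 57371) (nat_lit 2) (.e (nat_lit 90174) (nat_lit 14) (.e (nat_lit 180250) (nat_lit 10) (.e (nat_lit 573489) (nat_lit 14) (.e (nat_lit 73755) (nat_lit 8) (.e (nat_lit 557089) (nat_lit 12) (.e (nat_lit 163849) (nat_lit 0) .nil)))))))) (.g (nat_lit 1) (.e (nat_lit 112101) (nat_lit 0) .nil) .nil))) 
(.lf (nat_lit 481263) (.g (nat_lit 2280) (.e (nat_lit 5381) (nat_lit 300) (.e (nat_lit 16459) (nat_lit 12) (.e (nat_lit 475199) (nat_lit 40) (.e (nat_lit 704595) (nat_lit 5) (.e (nat_lit 180285) (nat_lit 45) (.e (nat_lit 2425) (nat_lit 157) .nil)))))) (.g (nat_lit 1) (.e (nat_lit 112860) (nat_lit 0) .nil) .nil)))))))) 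
(.nd (nat_lit 5) (.nd (nat_lit 6) (.nd (nat_lit 7) (.nd (nat_lit 8) (.nd (nat_lit 9) 
(.lf (nat_lit 480287) (.g (nat_lit 2669) (.e (nat_lit 5937) (nat_lit 322) (.e (nat_lit 57375) (nat_lit 2) (.e (nat_lit 90172) (nat_lit 14) (.e (nat_lit 180250) (nat_lit 10) (.e (nat_lit 573487) (nat_lit 14) .nil))))) (.g (nat_lit 0) (.e (nat_lit 111619) (nat_lit 0) .nil) .nil))) 
(.lf (nat_lit 480799) (.g (nat_lit 1431) (.e (nat_lit 5946) (nat_lit 322) (.e (nat_lit 57377) (nat_lit 3) (.e (nat_lit 98365) (nat_lit 26) (.e (nat_lit 426326) (nat_lit 13) .nil)))) (.g (nat_lit 0) (.e (nat_lit 112149) (nat_lit 0) .nil) .nil)))) (.nd (nat_lit 9) 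
(.lf (nat_lit 480543) (.g (nat_lit 2021) (.e (nat_lit 5940) (nat_lit 322) (.e (nat_lit 57375) (nat_lit 2) (.e (nat_lit 90174) (nat_lit 14) (.e (nat_lit 180243) (nat_lit 5) (.e (nat_lit 532513) (nat_lit 3) (.e (nat_lit 114714) (nat_lit 22) (.e (nat_lit 90181) (nat_lit 16) (.e (nat_lit 229376) (nat_lit 0) .nil)))))))) (.g (nat_lit 1) (.e (nat_lit 111890) (nat_lit 0) .nil) .nil))) 
(.lf (nat_lit 481055) (.g (nat_lit 2898) (.e (nat_lit 5952) (nat_lit 322) (.e (nat_lit 57371) (nat_lit 2) (.e (nat_lit 90174) (nat_lit 14) (.e (nat_lit 180251) (nat_lit 10) (.e (nat_lit 573489) (nat_lit 14) (.e (nat_lit 73755) (nat_lit 8) (.e (nat_lit 557091) (nat_lit 12) (.e (nat_lit 163840) (nat_lit 0) .nil)))))))) (.g (nat_lit 1) (.e (nat_lit 112437) (nat_lit 0) .nil) .nil))))) 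
(.nd (nat_lit 8) (.nd (nat_lit 9) 
(.lf (nat_lit 480415) (.g (nat_lit 2853) (.e (nat_lit 5939) (nat_lit 322) (.e (nat_lit 57375) (nat_lit 2) (.e (nat_lit 90172) (nat_lit 14) (.e (nat_lit 180252) (nat_lit 10) (.e (nat_lit 573489) (nat_lit 14) (.e (nat_lit 73755) (nat_lit 8) (.e (nat_lit 557090) (nat_lit 12) (.e (nat_lit 163850) (nat_lit 0) .nil)))))))) (.g (nat_lit 1) (.e (nat_lit 111761) (nat_lit 0) .nil) .nil))) 
(.lf (nat_lit 480927) (.g (nat_lit 3150) (.e (nat_lit 5949) (nat_lit 322) (.e (nat_lit 57373) (nat_lit 2) (.e (nat_lit 90172) (nat_lit 14) (.e (nat_lit 180250) (nat_lit 10) (.e (nat_lit 573487) (nat_lit 14) (.e (nat_lit 73753) (nat_lit 8) (.e (nat_lit 557093) (nat_lit 12) (.e (nat_lit 163857) (nat_lit 0) .nil)))))))) (.g (nat_lit 1) (.e (nat_lit 112283) (nat_lit 0) .nil) .nil)))) (.nd (nat_lit 9) 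
(.lf (nat_lit 480671) (.g (nat_lit 4072) (.e (nat_lit 5943) (nat_lit 322) (.e (nat_lit 57375) (nat_lit 2) (.e (nat_lit 90172) (nat_lit 14) (.e (nat_lit 180252) (nat_lit 10) (.e (nat_lit 573489) (nat_lit 14) (.e (nat_lit 73755) (nat_lit 8) (.e (nat_lit 557090) (nat_lit 12) (.e (nat_lit 163843) (nat_lit 0) .nil)))))))) (.g (nat_lit 1) (.e (nat_lit 112020) (nat_lit 0) .nil) .nil))) 
(.lf (nat_lit 481183) (.g (nat_lit 4621) (.e (nat_lit 5270) (nat_lit 298) (.e (nat_lit 1239) (nat_lit 91) (.e (nat_lit 90170) (nat_lit 13) (.e (nat_lit 172113) (nat_lit 10) (.e (nat_lit 434247) (nat_lit 28) (.e (nat_lit 573457) (nat_lit 9) (.e (nat_lit 359) (nat_lit 30) (.e (nat_lit 409605) (nat_lit 0) .nil)))))))) (.g (nat_lit 1) (.e (nat_lit 112605) (nat_lit 0) .nil) .nil)))))) 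
(.nd (nat_lit 7) (.nd (nat_lit 8) (.nd (nat_lit 9) 
(.lf (nat_lit 480351) (.g (nat_lit 1136) (.e (nat_lit 5937) (nat_lit 322) (.e (nat_lit 57407) (nat_lit 12) (.e (nat_lit 336433) (nat_lit 30) .nil))) (.g (nat_lit 0) (.e (nat_lit 111688) (nat_lit 0) .nil) .nil))) 
(.lf (nat_lit 480863) (.g (nat_lit 2166) (.e (nat_lit 5948) (nat_lit 322) (.e (nat_lit 57373) (nat_lit 2) (.e (nat_lit 90174) (nat_lit 14) (.e (nat_lit 180243) (nat_lit 5) (.e (nat_lit 532513) (nat_lit 3) .nil))))) (.g (nat_lit 0) (.e (nat_lit 112217) (nat_lit 0) .nil) .nil)))) (.nd (nat_lit 9) 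
(.lf (nat_lit 480607) (.g (nat_lit 3910) (.e (nat_lit 5942) (nat_lit 322) (.e (nat_lit 57375) (nat_lit 2) (.e (nat_lit 90172) (nat_lit 14) (.e (nat_lit 180250) (nat_lit 10) (.e (nat_lit 573488) (nat_lit 14) (.e (nat_lit 73755) (nat_lit 8) (.e (nat_lit 557090) (nat_lit 12) (.e (nat_lit 163843) (nat_lit 0) .nil)))))))) (.g (nat_lit 1) (.e (nat_lit 111956) (nat_lit 0) .nil) .nil))) 
(.lf (nat_lit 481119) (.g (nat_lit 3371) (.e (nat_lit 5954) (nat_lit 322) (.e (nat_lit 57373) (nat_lit 2) (.e (nat_lit 90174) (nat_lit 14) (.e (nat_lit 180250) (nat_lit 10) (.e (nat_lit 573489) (nat_lit 14) (.e (nat_lit 73755) (nat_lit 8) (.e (nat_lit 557090) (nat_lit 12) (.e (nat_lit 163840) (nat_lit 0) .nil)))))))) (.g (nat_lit 1) (.e (nat_lit 112505) (nat_lit 0) .nil) .nil))))) 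
(.nd (nat_lit 8) (.nd (nat_lit 9) 
(.lf (nat_lit 480479) (.g (nat_lit 1929) (.e (nat_lit 5939) (nat_lit 322) (.e (nat_lit 57379) (nat_lit 3) (.e (nat_lit 98367) (nat_lit 27) (.e (nat_lit 434231) (nat_lit 23) (.e (nat_lit 532514) (nat_lit 3) .nil))))) (.g (nat_lit 0) (.e (nat_lit 111826) (nat_lit 0) .nil) .nil))) 
(.lf (nat_lit 480991) (.g (nat_lit 3747) (.e (nat_lit 5949) (nat_lit 322) (.e (nat_lit 57409) (nat_lit 12) (.e (nat_lit 336443) (nat_lit 32) (.e (nat_lit 466977) (nat_lit 22) (.e (nat_lit 196656) (nat_lit 11) (.e (nat_lit 16392) (nat_lit 0) (.e (nat_lit 2484) (nat_lit 157) .nil))))))) (.g (nat_lit 1) (.e (nat_lit 112358) (nat_lit 0) .nil) .nil)))) (.nd (nat_lit 9) 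
(.lf (nat_lit 480735) (.g (nat_lit 2358) (.e (nat_lit 5944) (nat_lit 322) (.e (nat_lit 57378) (nat_lit 3) (.e (nat_lit 98367) (nat_lit 27) (.e (nat_lit 434231) (nat_lit 23) (.e (nat_lit 532514) (nat_lit 3) (.e (nat_lit 114719) (nat_lit 23) (.e (nat_lit 98325) (nat_lit 17) (.e (nat_lit 2505) (nat_lit 157) .nil)))))))) (.g (nat_lit 1) (.e (nat_lit 112085) (nat_lit 0) .nil) .nil))) 
(.lf (nat_lit 481247) (.g (nat_lit 3371) (.e (nat_lit 5355) (nat_lit 298) (.e (nat_lit 1234) (nat_lit 91) (.e (nat_lit 90170) (nat_lit 13) (.e (nat_lit 172106) (nat_lit 10) (.e (nat_lit 434231) (nat_lit 23) .nil))))) (.g (nat_lit 0) (.e (nat_lit 112816) (nat_lit 0) .nil) .nil))))))) (.nd (nat_lit 6) (.nd (nat_lit 7) (.nd (nat_lit 8) (.nd (nat_lit 9) 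
(.lf (nat_lit 480319) (.g (nat_lit 2448) (.e (nat_lit 5937) (nat_lit 322) (.e (nat_lit 57378) (nat_lit 3) (.e (nat_lit 98368) (nat_lit 27) (.e (nat_lit 434245) (nat_lit 28) (.e (nat_lit 573487) (nat_lit 14) (.e (nat_lit 73753) (nat_lit 8) (.e (nat_lit 557091) (nat_lit 12) (.e (nat_lit 163840) (nat_lit 0) .nil)))))))) (.g (nat_lit 1) (.e (nat_lit 111655) (nat_lit 0) .nil) .nil))) 
(.lf (nat_lit 480831) (.g (nat_lit 2704) (.e (nat_lit 5947) (nat_lit 322) (.e (nat_lit 57373) (nat_lit 2) (.e (nat_lit 90174) (nat_lit 14) (.e (nat_lit 180250) (nat_lit 10) (.e (nat_lit 573489) (nat_lit 14) .nil))))) (.g (nat_lit 0) (.e (nat_lit 112184) (nat_lit 0) .nil) .nil)))) (.nd (nat_lit 9) 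
(.lf (nat_lit 480575) (.g (nat_lit 5475) (.e (nat_lit 5941) (nat_lit 322) (.e (nat_lit 57372) (nat_lit 2) (.e (nat_lit 90174) (nat_lit 14) (.e (nat_lit 180251) (nat_lit 10) (.e (nat_lit 573489) (nat_lit 14) (.e (nat_lit 73755) (nat_lit 8) (.e (nat_lit 557090) (nat_lit 12) (.e (nat_lit 163844) (nat_lit 0) .nil)))))))) (.g (nat_lit 1) (.e (nat_lit 111922) (nat_lit 0) .nil) .nil))) 
(.lf (nat_lit 481087) (.g (nat_lit 3918) (.e (nat_lit 5953) (nat_lit 322) (.e (nat_lit 57373) (nat_lit 2) (.e (nat_lit 90174) (nat_lit 14) (.e (nat_lit 180251) (nat_lit 10) (.e (nat_lit 573489) (nat_lit 14) (.e (nat_lit 73755) (nat_lit 8) (.e (nat_lit 557091) (nat_lit 12) (.e (nat_lit 163851) (nat_lit 0) .nil)))))))) (.g (nat_lit 1) (.e (nat_lit 112469) (nat_lit 0) .nil) .nil))))) 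
(.nd (nat_lit 8) (.nd (nat_lit 9) 
(.lf (nat_lit 480447) (.g (nat_lit 1850) (.e (nat_lit 5939) (nat_lit 322) (.e (nat_lit 57379) (nat_lit 3) (.e (nat_lit 98366) (nat_lit 27) (.e (nat_lit 434231) (nat_lit 23) (.e (nat_lit 532507) (nat_lit 2) (.e (nat_lit 106517) (nat_lit 9) (.e (nat_lit 1255) (nat_lit 92) (.e (nat_lit 98321) (nat_lit 17) (.e (nat_lit 2466) (nat_lit 157) .nil))))))))) (.g (nat_lit 1) (.e (nat_lit 111794) (nat_lit 0) .nil) .nil))) 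
(.lf (nat_lit 480959) (.g (nat_lit 2878) (.e (nat_lit 5949) (nat_lit 322) (.e (nat_lit 57378) (nat_lit 3) (.e (nat_lit 98367) (nat_lit 27) (.e (nat_lit 434231) (nat_lit 23) (.e (nat_lit 532514) (nat_lit 3) (.e (nat_lit 114719) (nat_lit 23) (.e (nat_lit 98325) (nat_lit 17) (.e (nat_lit 2515) (nat_lit 157) .nil)))))))) (.g (nat_lit 1) (.e (nat_lit 112315) (nat_lit 0) .nil) .nil)))) (.nd (nat_lit 9) 
(.lf (nat_lit 480703) (.g (nat_lit 4608) (.e (nat_lit 5943) (nat_lit 322) (.e (nat_lit 57379) (nat_lit 3) (.e (nat_lit 98367) (nat_lit 27) (.e (nat_lit 434244) (nat_lit 28) (.e (nat_lit 573488) (nat_lit 14) (.e (nat_lit 73755) (nat_lit 8) (.e (nat_lit 557090) (nat_lit 12) (.e (nat_lit 163844) (nat_lit 0) .nil)))))))) (.g (nat_lit 1) (.e (nat_lit 112053) (nat_lit 0) .nil) .nil))) 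
(.lf (nat_lit 481215) (.g (nat_lit 2886) (.e (nat_lit 5278) (nat_lit 298) (.e (nat_lit 1633) (nat_lit 114) (.e (nat_lit 385074) (nat_lit 31) (.e (nat_lit 573484) (nat_lit 13) (.e (nat_lit 65617) (nat_lit 10) .nil))))) (.g (nat_lit 0) (.e (nat_lit 112767) (nat_lit 0) .nil) .nil)))))) (.nd (nat_lit 7) (.nd (nat_lit 8) (.nd (nat_lit 9) 
(.lf (nat_lit 480383) (.g (nat_lit 2331) (.e (nat_lit 5938) (nat_lit 322) (.e (nat_lit 57375) (nat_lit 2) (.e (nat_lit 90173) (nat_lit 14) (.e (nat_lit 180252) (nat_lit 10) (.e (nat_lit 573489) (nat_lit 14) (.e (nat_lit 73755) (nat_lit 8) (.e (nat_lit 557090) (nat_lit 12) (.e (nat_lit 163851) (nat_lit 0) .nil)))))))) (.g (nat_lit 1) (.e (nat_lit 111729) (nat_lit 0) .nil) .nil))) 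
(.lf (nat_lit 480895) (.g (nat_lit 1950) (.e (nat_lit 5948) (nat_lit 322) (.e (nat_lit 57419) (nat_lit 12) (.e (nat_lit 336194) (nat_lit 12) (.e (nat_lit 385102) (nat_lit 50) (.e (nat_lit 786481) (nat_lit 30) (.e (nat_lit 360457) (nat_lit 0) .nil)))))) (.g (nat_lit 1) (.e (nat_lit 112250) (nat_lit 0) .nil) .nil)))) (.nd (nat_lit 9) 
(.lf (nat_lit 480639) (.g (nat_lit 5418) (.e (nat_lit 5943) (nat_lit 322) (.e (nat_lit 57372) (nat_lit 2) (.e (nat_lit 90174) (nat_lit 14) (.e (nat_lit 180250) (nat_lit 10) (.e (nat_lit 573489) (nat_lit 14) (.e (nat_lit 73755) (nat_lit 8) (.e (nat_lit 557090) (nat_lit 12) (.e (nat_lit 163844) (nat_lit 0) .nil)))))))) (.g (nat_lit 1) (.e (nat_lit 111988) (nat_lit 0) .nil) .nil))) 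
(.lf (nat_lit 481151) (.g (nat_lit 2584) (.e (nat_lit 5257) (nat_lit 298) (.e (nat_lit 1239) (nat_lit 91) (.e (nat_lit 90170) (nat_lit 13) (.e (nat_lit 172106) (nat_lit 10) (.e (nat_lit 434231) (nat_lit 23) .nil))))) (.g (nat_lit 0) (.e (nat_lit 112553) (nat_lit 0) .nil) .nil))))) (.nd (nat_lit 8) (.nd (nat_lit 9) 
(.lf (nat_lit 480511) (.g (nat_lit 4391) (.e (nat_lit 5940) (nat_lit 322) (.e (nat_lit 57371) (nat_lit 2) (.e (nat_lit 90173) (nat_lit 14) (.e (nat_lit 180252) (nat_lit 10) (.e (nat_lit 573489) (nat_lit 14) (.e (nat_lit 73755) (nat_lit 8) (.e (nat_lit 557090) (nat_lit 12) (.e (nat_lit 163844) (nat_lit 0) .nil)))))))) (.g (nat_lit 1) (.e (nat_lit 111858) (nat_lit 0) .nil) .nil))) 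
(.lf (nat_lit 481023) (.g (nat_lit 2498) (.e (nat_lit 5950) (nat_lit 322) (.e (nat_lit 57371) (nat_lit 2) (.e (nat_lit 90174) (nat_lit 14) (.e (nat_lit 180250) (nat_lit 10) (.e (nat_lit 573487) (nat_lit 14) (.e (nat_lit 73753) (nat_lit 8) (.e (nat_lit 557091) (nat_lit 12) (.e (nat_lit 163840) (nat_lit 0) .nil)))))))) (.g (nat_lit 1) (.e (nat_lit 112405) (nat_lit 0) .nil) .nil)))) (.nd (nat_lit 9) 
(.lf (nat_lit 480767) (.g (nat_lit 2666) (.e (nat_lit 5946) (nat_lit 322) (.e (nat_lit 57371) (nat_lit 2) (.e (nat_lit 90174) (nat_lit 14) (.e (nat_lit 180243) (nat_lit 5) (.e (nat_lit 532513) (nat_lit 3) (.e (nat_lit 114714) (nat_lit 22) (.e (nat_lit 90165) (nat_lit 12) (.e (nat_lit 163853) (nat_lit 0) .nil)))))))) (.g (nat_lit 1) (.e (nat_lit 112117) (nat_lit 0) .nil) .nil))) 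
(.lf (nat_lit 481279) (.g (nat_lit 2295) (.e (nat_lit 5390) (nat_lit 301) (.e (nat_lit 57464) (nat_lit 23) (.e (nat_lit 516151) (nat_lit 9) (.e (nat_lit 426275) (nat_lit 10) .nil)))) (.g (nat_lit 0) (.e (nat_lit 112898) (nat_lit 0) .nil) .nil)))))))))))))


end

end Pool.Agent.Lib.MP_5854e1_co.Cz
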