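import Pool.Agent.Lib.MP_5854e1_co.DtD

/-!
# Windows and cells of the rings
-/

set_option autoImplicit false
set_option maxRecDepth 100000
set_option deprecated.oldSectionVars true

namespace Pool.Agent.Lib.MP_5854e1_co.Cz

open Pool.Agent.Lib.MP_5854e1_co

noncomputable section

noncomputable def tv5530 : DT := (.nd (nat_lit 0) (.nd (nat_lit 1) (.nd (nat_lit 2) (.nd (nat_lit 3) (.nd (nat_lit 4) (.nd (nat_lit 5) (.nd (nat_lit 6) (.nd (nat_lit 7) (.nd (nat_lit 8) (.nd (nat_lit 9) 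
(.lf (nat_lit 481280) (.g (nat_lit 3197) (.e (nat_lit 5390) (nat_lit 301) (.e (nat_lit 57464) (nat_lit 23) (.e (nat_lit 516151) (nat_lit 9) (.e (nat_lit 426285) (nat_lit 10) (.e (nat_lit 434233) (nat_lit 23) .nil))))) (.g (nat_lit 0) (.e (nat_lit 112899) (nat_lit 0) .nil) .nil))) 
(.lf (nat_lit 481792) (.g (nat_lit 1540) (.e (nat_lit 5566) (nat_lit 308) (.e (nat_lit 57347) (nat_lit 0) (.e (nat_lit 2283) (nat_lit 150) (.e (nat_lit 770071) (nat_lit 8) (.e (nat_lit 65583) (nat_lit 7) .nil))))) (.g (nat_lit 0) (.e (nat_lit 117689) (nat_lit 0) .nil) .nil)))) (.nd (nat_lit 9) 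
(.lf (nat_lit 481536) (.g (nat_lit 2529) (.e (nat_lit 5547) (nat_lit 306) (.e (nat_lit 2619) (nat_lit 164) (.e (nat_lit 172118) (nat_lit 12) (.e (nat_lit 475211) (nat_lit 41) (.e (nat_lit 712755) (nat_lit 30) (.e (nat_lit 458496) (nat_lit 0) .nil)))))) (.g (nat_lit 1) (.e (nat_lit 114276) (nat_lit 0) .nil) .nil))) 
(.lf (nat_lit 482048) (.g (nat_lit 2977) (.e (nat_lit 7936) (nat_lit 377) (.e (nat_lit 2802) (nat_lit 180) (.e (nat_lit 303117) (nat_lit 2) (.e (nat_lit 196666) (nat_lit 13) (.e (nat_lit 65617) (nat_lit 10) .nil))))) (.g (nat_lit 0) (.e (nat_lit 118244) (nat_lit 0) .nil) .nil))))) (.nd (nat_lit 8) (.nd (nat_lit 9) 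
(.lf (nat_lit 481408) (.g (nat_lit 585) (.e (nat_lit 5545) (nat_lit 306) (.e (nat_lit 2638) (nat_lit 165) (.e (nat_lit 180278) (nat_lit 32) .nil))) (.g (nat_lit 0) (.e (nat_lit 113706) (nat_lit 0) .nil) .nil))) 
(.lf (nat_lit 481920) (.g (nat_lit 3230) (.e (nat_lit 6998) (nat_lit 377) (.e (nat_lit 2797) (nat_lit 180) (.e (nat_lit 303117) (nat_lit 2) (.e (nat_lit 196666) (nat_lit 13) (.e (nat_lit 65604) (nat_lit 9) .nil))))) (.g (nat_lit 0) (.e (nat_lit 117987) (nat_lit 0) .nil) .nil)))) (.nd (nat_lit 9) 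
(.lf (nat_lit 481664) (.g (nat_lit 2268) (.e (nat_lit 5587) (nat_lit 310) (.e (nat_lit 163874) (nat_lit 3) (.e (nat_lit 204864) (nat_lit 27) (.e (nat_lit 344132) (nat_lit 26) (.e (nat_lit 557105) (nat_lit 14) .nil))))) (.g (nat_lit 0) (.e (nat_lit 115267) (nat_lit 0) .nil) .nil))) 
(.lf (nat_lit 482176) (.g (nat_lit 2173) (.e (nat_lit 7261) (nat_lit 384) (.e (nat_lit 57406) (nat_lit 12) (.e (nat_lit 336019) (nat_lit 3) (.e (nat_lit 98372) (nat_lit 29) (.e (nat_lit 450586) (nat_lit 10) .nil))))) (.g (nat_lit 0) (.e (nat_lit 118817) (nat_lit 0) .nil) .nil)))))) (.nd (nat_lit 7) (.nd (nat_lit 8) (.nd (nat_lit 9) 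
(.lf (nat_lit 481344) (.g (nat_lit 841) (.e (nat_lit 5413) (nat_lit 303) (.e (nat_lit 73764) (nat_lit 18) (.e (nat_lit 638998) (nat_lit 8) (.e (nat_lit 172081) (nat_lit 7) (.e (nat_lit 409639) (nat_lit 15) .nil))))) (.g (nat_lit 0) (.e (nat_lit 113101) (nat_lit 0) .nil) .nil))) 
(.lf (nat_lit 481856) (.g (nat_lit 3038) (.e (nat_lit 6966) (nat_lit 377) (.e (nat_lit 2809) (nat_lit 180) (.e (nat_lit 303117) (nat_lit 2) (.e (nat_lit 196673) (nat_lit 15) (.e (nat_lit 81956) (nat_lit 23) .nil))))) (.g (nat_lit 0) (.e (nat_lit 117842) (nat_lit 0) .nil) .nil)))) (.nd (nat_lit 9) 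
(.lf (nat_lit 481600) (.g (nat_lit 2697) (.e (nat_lit 5548) (nat_lit 306) (.e (nat_lit 2610) (nat_lit 163) (.e (nat_lit 163978) (nat_lit 30) (.e (nat_lit 573484) (nat_lit 13) (.e (nat_lit 65610) (nat_lit 10) (.e (nat_lit 344117) (nat_lit 21) (.e (nat_lit 516151) (nat_lit 9) (.e (nat_lit 426043) (nat_lit 0) (.e (nat_lit 2458) (nat_lit 157) .nil))))))))) (.g (nat_lit 1) (.e (nat_lit 114537) (nat_lit 0) .nil) .nil))) 
(.lf (nat_lit 482112) (.g (nat_lit 1318) (.e (nat_lit 7125) (nat_lit 382) (.e (nat_lit 1224) (nat_lit 90) (.e (nat_lit 81946) (nat_lit 20) (.e (nat_lit 2281) (nat_lit 150) (.e (nat_lit 770072) (nat_lit 8) .nil))))) (.g (nat_lit 0) (.e (nat_lit 118451) (nat_lit 0) .nil) .nil))))) (.nd (nat_lit 8) (.nd (nat_lit 9) 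
(.lf (nat_lit 481472) (.g (nat_lit 1898) (.e (nat_lit 5546) (nat_lit 306) (.e (nat_lit 2638) (nat_lit 165) (.e (nat_lit 180277) (nat_lit 32) (.e (nat_lit 1428) (nat_lit 108) (.e (nat_lit 336432) (nat_lit 30) (.e (nat_lit 458496) (nat_lit 0) .nil)))))) (.g (nat_lit 1) (.e (nat_lit 113991) (nat_lit 0) .nil) .nil))) 
(.lf (nat_lit 481984) (.g (nat_lit 2150) (.e (nat_lit 7071) (nat_lit 377) (.e (nat_lit 2797) (nat_lit 180) (.e (nat_lit 303117) (nat_lit 2) (.e (nat_lit 196666) (nat_lit 13) .nil)))) (.g (nat_lit 0) (.e (nat_lit 118134) (nat_lit 0) .nil) .nil)))) (.nd (nat_lit 9) 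
(.lf (nat_lit 481728) (.g (nat_lit 2116) (.e (nat_lit 5596) (nat_lit 310) (.e (nat_lit 163869) (nat_lit 2) (.e (nat_lit 196670) (nat_lit 14) (.e (nat_lit 73746) (nat_lit 3) (.e (nat_lit 516131) (nat_lit 3) .nil))))) (.g (nat_lit 0) (.e (nat_lit 116251) (nat_lit 0) .nil) .nil))) 
(.lf (nat_lit 482240) (.g (nat_lit 3711) (.e (nat_lit 7263) (nat_lit 384) (.e (nat_lit 57412) (nat_lit 12) (.e (nat_lit 336001) (nat_lit 2) (.e (nat_lit 90170) (nat_lit 13) (.e (nat_lit 172113) (nat_lit 10) (.e (nat_lit 434245) (nat_lit 28) (.e (nat_lit 573473) (nat_lit 12) (.e (nat_lit 57348) (nat_lit 0) .nil)))))))) (.g (nat_lit 1) (.e (nat_lit 118889) (nat_lit 0) .nil) .nil))))))) 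
(.nd (nat_lit 6) (.nd (nat_lit 7) (.nd (nat_lit 8) (.nd (nat_lit 9) 
(.lf (nat_lit 481312) (.g (nat_lit 4141) (.e (nat_lit 5395) (nat_lit 301) (.e (nat_lit 57464) (nat_lit 23) (.e (nat_lit 516166) (nat_lit 12) (.e (nat_lit 450588) (nat_lit 10) (.e (nat_lit 573451) (nat_lit 9) (.e (nat_lit 365) (nat_lit 31) (.e (nat_lit 417795) (nat_lit 0) .nil))))))) (.g (nat_lit 1) (.e (nat_lit 112955) (nat_lit 0) .nil) .nil))) 
(.lf (nat_lit 481824) (.g (nat_lit 3180) (.e (nat_lit 6942) (nat_lit 375) (.e (nat_lit 163936) (nat_lit 18) (.e (nat_lit 475185) (nat_lit 29) (.e (nat_lit 557100) (nat_lit 13) (.e (nat_lit 172113) (nat_lit 10) (.e (nat_lit 434245) (nat_lit 28) (.e (nat_lit 573474) (nat_lit 12) (.e (nat_lit 57347) (nat_lit 0) .nil)))))))) (.g (nat_lit 1) (.e (nat_lit 117793) (nat_lit 0) .nil) .nil)))) 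
(.nd (nat_lit 9) 
(.lf (nat_lit 481568) (.g (nat_lit 1879) (.e (nat_lit 5547) (nat_lit 306) (.e (nat_lit 2638) (nat_lit 165) (.e (nat_lit 180277) (nat_lit 32) (.e (nat_lit 1428) (nat_lit 108) (.e (nat_lit 336434) (nat_lit 30) (.e (nat_lit 458496) (nat_lit 0) .nil)))))) (.g (nat_lit 1) (.e (nat_lit 114387) (nat_lit 0) .nil) .nil))) 
(.lf (nat_lit 482080) (.g (nat_lit 1314) (.e (nat_lit 7104) (nat_lit 380) (.e (nat_lit 164358) (nat_lit 246) (.e (nat_lit 226) (nat_lit 21) (.e (nat_lit 336432) (nat_lit 30) (.e (nat_lit 450580) (nat_lit 5) .nil))))) (.g (nat_lit 0) (.e (nat_lit 118323) (nat_lit 0) .nil) .nil))))) (.nd (nat_lit 8) (.nd (nat_lit 9) 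
(.lf (nat_lit 481440) (.g (nat_lit 2768) (.e (nat_lit 5546) (nat_lit 306) (.e (nat_lit 2611) (nat_lit 163) (.e (nat_lit 163978) (nat_lit 30) (.e (nat_lit 573479) (nat_lit 13) (.e (nat_lit 65619) (nat_lit 10) .nil))))) (.g (nat_lit 0) (.e (nat_lit 113806) (nat_lit 0) .nil) .nil))) 
(.lf (nat_lit 481952) (.g (nat_lit 2258) (.e (nat_lit 7014) (nat_lit 377) (.e (nat_lit 2797) (nat_lit 180) (.e (nat_lit 303117) (nat_lit 2) (.e (nat_lit 196672) (nat_lit 15) (.e (nat_lit 81956) (nat_lit 23) .nil))))) (.g (nat_lit 0) (.e (nat_lit 118083) (nat_lit 0) .nil) .nil)))) (.nd (nat_lit 9) 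
(.lf (nat_lit 481696) (.g (nat_lit 1020) (.e (nat_lit 5589) (nat_lit 310) (.e (nat_lit 163875) (nat_lit 3) (.e (nat_lit 204861) (nat_lit 26) (.e (nat_lit 336213) (nat_lit 13) .nil)))) (.g (nat_lit 0) (.e (nat_lit 115777) (nat_lit 0) .nil) .nil))) 
(.lf (nat_lit 482208) (.g (nat_lit 4441) (.e (nat_lit 7261) (nat_lit 384) (.e (nat_lit 57412) (nat_lit 12) (.e (nat_lit 336001) (nat_lit 2) (.e (nat_lit 90170) (nat_lit 13) (.e (nat_lit 172106) (nat_lit 10) (.e (nat_lit 434244) (nat_lit 28) (.e (nat_lit 573473) (nat_lit 12) (.e (nat_lit 57348) (nat_lit 0) .nil)))))))) (.g (nat_lit 1) (.e (nat_lit 118854) (nat_lit 0) .nil) .nil)))))) 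
(.nd (nat_lit 7) (.nd (nat_lit 8) (.nd (nat_lit 9) 
(.lf (nat_lit 481376) (.g (nat_lit 2327) (.e (nat_lit 5543) (nat_lit 306) (.e (nat_lit 2617) (nat_lit 164) (.e (nat_lit 172126) (nat_lit 14) (.e (nat_lit 491549) (nat_lit 9) (.e (nat_lit 336434) (nat_lit 30) (.e (nat_lit 458496) (nat_lit 0) .nil)))))) (.g (nat_lit 1) (.e (nat_lit 113522) (nat_lit 0) .nil) .nil))) 
(.lf (nat_lit 481888) (.g (nat_lit 1783) (.e (nat_lit 6989) (nat_lit 377) (.e (nat_lit 2810) (nat_lit 180) (.e (nat_lit 303119) (nat_lit 3) (.e (nat_lit 204877) (nat_lit 31) (.e (nat_lit 376869) (nat_lit 23) .nil))))) (.g (nat_lit 0) (.e (nat_lit 117902) (nat_lit 0) .nil) .nil)))) (.nd (nat_lit 9) 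
(.lf (nat_lit 481632) (.g (nat_lit 2290) (.e (nat_lit 5548) (nat_lit 306) (.e (nat_lit 2638) (nat_lit 165) (.e (nat_lit 180278) (nat_lit 32) (.e (nat_lit 1661) (nat_lit 115) (.e (nat_lit 393282) (nat_lit 24) (.e (nat_lit 434212) (nat_lit 18) .nil)))))) (.g (nat_lit 1) (.e (nat_lit 114655) (nat_lit 0) .nil) .nil))) 
(.lf (nat_lit 482144) (.g (nat_lit 2864) (.e (nat_lit 7282) (nat_lit 386) (.e (nat_lit 163902) (nat_lit 12) (.e (nat_lit 426438) (nat_lit 18) (.e (nat_lit 98373) (nat_lit 29) (.e (nat_lit 450604) (nat_lit 22) .nil))))) (.g (nat_lit 0) (.e (nat_lit 118670) (nat_lit 0) .nil) .nil))))) (.nd (nat_lit 8) (.nd (nat_lit 9) 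
(.lf (nat_lit 481504) (.g (nat_lit 2464) (.e (nat_lit 5547) (nat_lit 306) (.e (nat_lit 2599) (nat_lit 163) (.e (nat_lit 163978) (nat_lit 30) (.e (nat_lit 573479) (nat_lit 13) (.e (nat_lit 65619) (nat_lit 10) .nil))))) (.g (nat_lit 0) (.e (nat_lit 114170) (nat_lit 0) .nil) .nil))) 
(.lf (nat_lit 482016) (.g (nat_lit 4481) (.e (nat_lit 7064) (nat_lit 377) (.e (nat_lit 1349) (nat_lit 102) (.e (nat_lit 286735) (nat_lit 3) (.e (nat_lit 98360) (nat_lit 26) (.e (nat_lit 426340) (nat_lit 14) (.e (nat_lit 491537) (nat_lit 2) (.e (nat_lit 90133) (nat_lit 9) (.e (nat_lit 2400) (nat_lit 157) .nil)))))))) (.g (nat_lit 1) (.e (nat_lit 118190) (nat_lit 0) .nil) .nil)))) (.nd (nat_lit 9) 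
(.lf (nat_lit 481760) (.g (nat_lit 2920) (.e (nat_lit 5599) (nat_lit 310) (.e (nat_lit 163905) (nat_lit 12) (.e (nat_lit 426320) (nat_lit 12) (.e (nat_lit 475210) (nat_lit 41) (.e (nat_lit 712753) (nat_lit 30) (.e (nat_lit 450569) (nat_lit 0) .nil)))))) (.g (nat_lit 1) (.e (nat_lit 117127) (nat_lit 0) .nil) .nil))) 
(.lf (nat_lit 482272) (.g (nat_lit 1558) (.e (nat_lit 7265) (nat_lit 384) (.e (nat_lit 57406) (nat_lit 12) (.e (nat_lit 336019) (nat_lit 3) (.e (nat_lit 98372) (nat_lit 29) .nil)))) (.g (nat_lit 0) (.e (nat_lit 118929) (nat_lit 0) .nil) .nil)))))))) (.nd (nat_lit 5) (.nd (nat_lit 6) (.nd (nat_lit 7) (.nd (nat_lit 8) (.nd (nat_lit 9) 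
(.lf (nat_lit 481296) (.g (nat_lit 3690) (.e (nat_lit 5394) (nat_lit 301) (.e (nat_lit 57464) (nat_lit 23) (.e (nat_lit 516166) (nat_lit 12) (.e (nat_lit 450588) (nat_lit 10) (.e (nat_lit 573452) (nat_lit 9) (.e (nat_lit 359) (nat_lit 30) (.e (nat_lit 409602) (nat_lit 0) .nil))))))) (.g (nat_lit 1) (.e (nat_lit 112935) (nat_lit 0) .nil) .nil))) 
(.lf (nat_lit 481808) (.g (nat_lit 1948) (.e (nat_lit 6938) (nat_lit 375) (.e (nat_lit 163903) (nat_lit 12) (.e (nat_lit 426436) (nat_lit 18) (.e (nat_lit 98335) (nat_lit 18) .nil)))) (.g (nat_lit 0) (.e (nat_lit 117764) (nat_lit 0) .nil) .nil)))) (.nd (nat_lit 9) 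
(.lf (nat_lit 481552) (.g (nat_lit 2792) (.e (nat_lit 5547) (nat_lit 306) (.e (nat_lit 2628) (nat_lit 164) (.e (nat_lit 172120) (nat_lit 12) (.e (nat_lit 475211) (nat_lit 41) (.e (nat_lit 712755) (nat_lit 30) (.e (nat_lit 458496) (nat_lit 0) .nil)))))) (.g (nat_lit 1) (.e (nat_lit 114324) (nat_lit 0) .nil) .nil))) 
(.lf (nat_lit 482064) (.g (nat_lit 1031) (.e (nat_lit 7098) (nat_lit 380) (.e (nat_lit 164269) (nat_lit 221) (.e (nat_lit 2576) (nat_lit 161) (.e (nat_lit 40995) (nat_lit 11) (.e (nat_lit 24657) (nat_lit 13) (.e (nat_lit 401152) (nat_lit 17) .nil)))))) (.g (nat_lit 1) (.e (nat_lit 118279) (nat_lit 0) .nil) .nil))))) (.nd (nat_lit 8) (.nd (nat_lit 9) 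
(.lf (nat_lit 481424) (.g (nat_lit 2933) (.e (nat_lit 5546) (nat_lit 306) (.e (nat_lit 2610) (nat_lit 163) (.e (nat_lit 163978) (nat_lit 30) (.e (nat_lit 573479) (nat_lit 13) (.e (nat_lit 65604) (nat_lit 9) (.e (nat_lit 336013) (nat_lit 2) (.e (nat_lit 90170) (nat_lit 13) (.e (nat_lit 172042) (nat_lit 0) (.e (nat_lit 2458) (nat_lit 157) .nil))))))))) (.g (nat_lit 1) (.e (nat_lit 113777) (nat_lit 0) .nil) .nil))) 
(.lf (nat_lit 481936) (.g (nat_lit 3238) (.e (nat_lit 7008) (nat_lit 377) (.e (nat_lit 2797) (nat_lit 180) (.e (nat_lit 303117) (nat_lit 2) (.e (nat_lit 196666) (nat_lit 13) (.e (nat_lit 65604) (nat_lit 9) .nil))))) (.g (nat_lit 0) (.e (nat_lit 118055) (nat_lit 0) .nil) .nil)))) (.nd (nat_lit 9) 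
(.lf (nat_lit 481680) (.g (nat_lit 2272) (.e (nat_lit 5587) (nat_lit 310) (.e (nat_lit 163906) (nat_lit 12) (.e (nat_lit 426320) (nat_lit 12) (.e (nat_lit 475211) (nat_lit 41) (.e (nat_lit 712755) (nat_lit 30) (.e (nat_lit 458496) (nat_lit 0) .nil)))))) (.g (nat_lit 1) (.e (nat_lit 115366) (nat_lit 0) .nil) .nil))) 
(.lf (nat_lit 482192) (.g (nat_lit 3324) (.e (nat_lit 7261) (nat_lit 384) (.e (nat_lit 57407) (nat_lit 12) (.e (nat_lit 336019) (nat_lit 3) (.e (nat_lit 98372) (nat_lit 29) (.e (nat_lit 450586) (nat_lit 10) (.e (nat_lit 573475) (nat_lit 12) (.e (nat_lit 57351) (nat_lit 0) .nil))))))) (.g (nat_lit 1) (.e (nat_lit 118838) (nat_lit 0) .nil) .nil)))))) 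
(.nd (nat_lit 7) (.nd (nat_lit 8) (.nd (nat_lit 9) 
(.lf (nat_lit 481360) (.g (nat_lit 2113) (.e (nat_lit 5448) (nat_lit 306) (.e (nat_lit 2612) (nat_lit 163) (.e (nat_lit 163978) (nat_lit 30) (.e (nat_lit 573484) (nat_lit 13) (.e (nat_lit 65610) (nat_lit 10) .nil))))) (.g (nat_lit 0) (.e (nat_lit 113302) (nat_lit 0) .nil) .nil))) 
(.lf (nat_lit 481872) (.g (nat_lit 3074) (.e (nat_lit 6988) (nat_lit 377) (.e (nat_lit 2777) (nat_lit 178) (.e (nat_lit 286733) (nat_lit 2) (.e (nat_lit 90160) (nat_lit 11) (.e (nat_lit 24584) (nat_lit 0) .nil))))) (.g (nat_lit 0) (.e (nat_lit 117878) (nat_lit 0) .nil) .nil)))) (.nd (nat_lit 9) 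
(.lf (nat_lit 481616) (.g (nat_lit 2198) (.e (nat_lit 5548) (nat_lit 306) (.e (nat_lit 2610) (nat_lit 163) (.e (nat_lit 163979) (nat_lit 30) (.e (nat_lit 573491) (nat_lit 15) (.e (nat_lit 81954) (nat_lit 23) .nil))))) (.g (nat_lit 0) (.e (nat_lit 114563) (nat_lit 0) .nil) .nil))) 
(.lf (nat_lit 482128) (.g (nat_lit 914) (.e (nat_lit 7280) (nat_lit 386) (.e (nat_lit 163875) (nat_lit 3) (.e (nat_lit 204837) (nat_lit 20) .nil))) (.g (nat_lit 0) (.e (nat_lit 118620) (nat_lit 0) .nil) .nil))))) (.nd (nat_lit 8) (.nd (nat_lit 9) 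
(.lf (nat_lit 481488) (.g (nat_lit 2288) (.e (nat_lit 5546) (nat_lit 306) (.e (nat_lit 2639) (nat_lit 165) (.e (nat_lit 180277) (nat_lit 32) (.e (nat_lit 1658) (nat_lit 115) (.e (nat_lit 393283) (nat_lit 24) (.e (nat_lit 434209) (nat_lit 18) .nil)))))) (.g (nat_lit 1) (.e (nat_lit 114012) (nat_lit 0) .nil) .nil))) 
(.lf (nat_lit 482000) (.g (nat_lit 1324) (.e (nat_lit 7073) (nat_lit 377) (.e (nat_lit 2798) (nat_lit 180) (.e (nat_lit 303118) (nat_lit 3) (.e (nat_lit 204861) (nat_lit 26) .nil)))) (.g (nat_lit 0) (.e (nat_lit 118162) (nat_lit 0) .nil) .nil)))) (.nd (nat_lit 9) 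
(.lf (nat_lit 481744) (.g (nat_lit 712) (.e (nat_lit 5599) (nat_lit 310) (.e (nat_lit 163869) (nat_lit 2) (.e (nat_lit 196669) (nat_lit 14) .nil))) (.g (nat_lit 0) (.e (nat_lit 116891) (nat_lit 0) .nil) .nil))) 
(.lf (nat_lit 482256) (.g (nat_lit 1663) (.e (nat_lit 7265) (nat_lit 384) (.e (nat_lit 57406) (nat_lit 12) (.e (nat_lit 336018) (nat_lit 3) (.e (nat_lit 98359) (nat_lit 26) (.e (nat_lit 426286) (nat_lit 10) .nil))))) (.g (nat_lit 0) (.e (nat_lit 118913) (nat_lit 0) .nil) .nil))))))) (.nd (nat_lit 6) (.nd (nat_lit 7) (.nd (nat_lit 8) (.nd (nat_lit 9) 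
(.lf (nat_lit 481328) (.g (nat_lit 1571) (.e (nat_lit 5404) (nat_lit 302) (.e (nat_lit 73472) (nat_lit 29) (.e (nat_lit 442428) (nat_lit 24) (.e (nat_lit 229678) (nat_lit 244) (.e (nat_lit 163896) (nat_lit 10) (.e (nat_lit 417536) (nat_lit 0) .nil)))))) (.g (nat_lit 1) (.e (nat_lit 113014) (nat_lit 0) .nil) .nil))) 
(.lf (nat_lit 481840) (.g (nat_lit 3693) (.e (nat_lit 6930) (nat_lit 373) (.e (nat_lit 57371) (nat_lit 2) (.e (nat_lit 90170) (nat_lit 13) (.e (nat_lit 172106) (nat_lit 10) (.e (nat_lit 434231) (nat_lit 23) .nil))))) (.g (nat_lit 0) (.e (nat_lit 117814) (nat_lit 0) .nil) .nil)))) (.nd (nat_lit 9) 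
(.lf (nat_lit 481584) (.g (nat_lit 2459) (.e (nat_lit 5548) (nat_lit 306) (.e (nat_lit 2599) (nat_lit 163) (.e (nat_lit 163978) (nat_lit 30) (.e (nat_lit 573479) (nat_lit 13) (.e (nat_lit 65619) (nat_lit 10) .nil))))) (.g (nat_lit 0) (.e (nat_lit 114513) (nat_lit 0) .nil) .nil))) 
(.lf (nat_lit 482096) (.g (nat_lit 1704) (.e (nat_lit 7107) (nat_lit 380) (.e (nat_lit 171776) (nat_lit 234) (.e (nat_lit 16470) (nat_lit 14) (.e (nat_lit 491571) (nat_lit 13) (.e (nat_lit 393230) (nat_lit 17) .nil))))) (.g (nat_lit 1) (.e (nat_lit 118394) (nat_lit 0) .nil) .nil))))) (.nd (nat_lit 8) (.nd (nat_lit 9) 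
(.lf (nat_lit 481456) (.g (nat_lit 2920) (.e (nat_lit 5546) (nat_lit 306) (.e (nat_lit 2619) (nat_lit 164) (.e (nat_lit 172118) (nat_lit 12) (.e (nat_lit 475211) (nat_lit 41) (.e (nat_lit 712755) (nat_lit 30) (.e (nat_lit 458496) (nat_lit 0) .nil)))))) (.g (nat_lit 1) (.e (nat_lit 113888) (nat_lit 0) .nil) .nil))) 
(.lf (nat_lit 481968) (.g (nat_lit 3559) (.e (nat_lit 7016) (nat_lit 377) (.e (nat_lit 2797) (nat_lit 180) (.e (nat_lit 303117) (nat_lit 2) (.e (nat_lit 196666) (nat_lit 13) (.e (nat_lit 65604) (nat_lit 9) .nil))))) (.g (nat_lit 0) (.e (nat_lit 118105) (nat_lit 0) .nil) .nil)))) (.nd (nat_lit 9) 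
(.lf (nat_lit 481712) (.g (nat_lit 2268) (.e (nat_lit 5592) (nat_lit 310) (.e (nat_lit 163874) (nat_lit 3) (.e (nat_lit 204864) (nat_lit 27) (.e (nat_lit 344132) (nat_lit 26) (.e (nat_lit 557105) (nat_lit 14) .nil))))) (.g (nat_lit 0) (.e (nat_lit 115963) (nat_lit 0) .nil) .nil))) 
(.lf (nat_lit 482224) (.g (nat_lit 5528) (.e (nat_lit 7261) (nat_lit 384) (.e (nat_lit 57431) (nat_lit 16) (.e (nat_lit 368676) (nat_lit 21) (.e (nat_lit 516166) (nat_lit 12) (.e (nat_lit 450588) (nat_lit 10) (.e (nat_lit 573473) (nat_lit 12) (.e (nat_lit 57353) (nat_lit 0) .nil))))))) (.g (nat_lit 1) (.e (nat_lit 118872) (nat_lit 0) .nil) .nil)))))) 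
(.nd (nat_lit 7) (.nd (nat_lit 8) (.nd (nat_lit 9) 
(.lf (nat_lit 481392) (.g (nat_lit 2257) (.e (nat_lit 5543) (nat_lit 306) (.e (nat_lit 2628) (nat_lit 164) (.e (nat_lit 172126) (nat_lit 14) (.e (nat_lit 491550) (nat_lit 9) (.e (nat_lit 336432) (nat_lit 30) (.e (nat_lit 458496) (nat_lit 0) .nil)))))) (.g (nat_lit 1) (.e (nat_lit 113585) (nat_lit 0) .nil) .nil))) 
(.lf (nat_lit 481904) (.g (nat_lit 2105) (.e (nat_lit 6989) (nat_lit 377) (.e (nat_lit 1361) (nat_lit 102) (.e (nat_lit 286761) (nat_lit 13) (.e (nat_lit 393293) (nat_lit 26) (.e (nat_lit 475205) (nat_lit 40) (.e (nat_lit 704521) (nat_lit 0) (.e (nat_lit 2435) (nat_lit 157) .nil))))))) (.g (nat_lit 1) (.e (nat_lit 117952) (nat_lit 0) .nil) .nil)))) (.nd (nat_lit 9) 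
(.lf (nat_lit 481648) (.g (nat_lit 2159) (.e (nat_lit 5586) (nat_lit 310) (.e (nat_lit 163869) (nat_lit 2) (.e (nat_lit 196670) (nat_lit 14) (.e (nat_lit 73746) (nat_lit 3) (.e (nat_lit 516131) (nat_lit 3) .nil))))) (.g (nat_lit 0) (.e (nat_lit 115086) (nat_lit 0) .nil) .nil))) 
(.lf (nat_lit 482160) (.g (nat_lit 1759) (.e (nat_lit 7289) (nat_lit 386) (.e (nat_lit 163907) (nat_lit 12) (.e (nat_lit 426479) (nat_lit 27) (.e (nat_lit 336430) (nat_lit 29) .nil)))) (.g (nat_lit 0) (.e (nat_lit 118744) (nat_lit 0) .nil) .nil))))) (.nd (nat_lit 8) (.nd (nat_lit 9) 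
(.lf (nat_lit 481520) (.g (nat_lit 2203) (.e (nat_lit 5547) (nat_lit 306) (.e (nat_lit 2610) (nat_lit 163) (.e (nat_lit 163978) (nat_lit 30) (.e (nat_lit 573484) (nat_lit 13) (.e (nat_lit 65610) (nat_lit 10) (.e (nat_lit 344117) (nat_lit 21) (.e (nat_lit 516151) (nat_lit 9) (.e (nat_lit 426046) (nat_lit 0) (.e (nat_lit 2458) (nat_lit 157) .nil))))))))) (.g (nat_lit 1) (.e (nat_lit 114203) (nat_lit 0) .nil) .nil))) 
(.lf (nat_lit 482032) (.g (nat_lit 351) (.e (nat_lit 7936) (nat_lit 377) (.e (nat_lit 2797) (nat_lit 180) (.e (nat_lit 303119) (nat_lit 3) .nil))) (.g (nat_lit 0) (.e (nat_lit 118211) (nat_lit 0) .nil) .nil)))) (.nd (nat_lit 9) 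
(.lf (nat_lit 481776) (.g (nat_lit 2324) (.e (nat_lit 5603) (nat_lit 310) (.e (nat_lit 163867) (nat_lit 2) (.e (nat_lit 196670) (nat_lit 14) (.e (nat_lit 73746) (nat_lit 3) (.e (nat_lit 516129) (nat_lit 3) .nil))))) (.g (nat_lit 0) (.e (nat_lit 117377) (nat_lit 0) .nil) .nil))) 
(.lf (nat_lit 482288) (.g (nat_lit 6817) (.e (nat_lit 7265) (nat_lit 384) (.e (nat_lit 57406) (nat_lit 12) (.e (nat_lit 336019) (nat_lit 3) (.e (nat_lit 98373) (nat_lit 29) (.e (nat_lit 450588) (nat_lit 10) (.e (nat_lit 573473) (nat_lit 12) (.e (nat_lit 57353) (nat_lit 0) .nil))))))) (.g (nat_lit 1) (.e (nat_lit 118945) (nat_lit 0) .nil) .nil))))))))) 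
(.nd (nat_lit 4) (.nd (nat_lit 5) (.nd (nat_lit 6) (.nd (nat_lit 7) (.nd (nat_lit 8) 
(.nd (nat_lit 9) 
(.lf (nat_lit 481288) (.g (nat_lit 2572) (.e (nat_lit 5394) (nat_lit 301) (.e (nat_lit 57464) (nat_lit 23) (.e (nat_lit 516165) (nat_lit 12) (.e (nat_lit 450586) (nat_lit 10) (.e (nat_lit 573452) (nat_lit 9) (.e (nat_lit 359) (nat_lit 30) (.e (nat_lit 409604) (nat_lit 0) .nil))))))) (.g (nat_lit 1) (.e (nat_lit 112927) (nat_lit 0) .nil) .nil))) 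
(.lf (nat_lit 481800) (.g (nat_lit 1663) (.e (nat_lit 5570) (nat_lit 308) (.e (nat_lit 57375) (nat_lit 2) (.e (nat_lit 90169) (nat_lit 13) (.e (nat_lit 172130) (nat_lit 15) .nil)))) (.g (nat_lit 0) (.e (nat_lit 117725) (nat_lit 0) .nil) .nil)))) (.nd (nat_lit 9) 
(.lf (nat_lit 481544) (.g (nat_lit 2417) (.e (nat_lit 5547) (nat_lit 306) (.e (nat_lit 2619) (nat_lit 164) (.e (nat_lit 172124) (nat_lit 14) (.e (nat_lit 491550) (nat_lit 9) (.e (nat_lit 336432) (nat_lit 30) (.e (nat_lit 458496) (nat_lit 0) .nil)))))) (.g (nat_lit 1) (.e (nat_lit 114287) (nat_lit 0) .nil) .nil))) 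
(.lf (nat_lit 482056) (.g (nat_lit 1143) (.e (nat_lit 7096) (nat_lit 380) (.e (nat_lit 164270) (nat_lit 221) (.e (nat_lit 2576) (nat_lit 161) (.e (nat_lit 40995) (nat_lit 11) (.e (nat_lit 24657) (nat_lit 13) (.e (nat_lit 401152) (nat_lit 17) .nil)))))) (.g (nat_lit 1) (.e (nat_lit 118257) (nat_lit 0) .nil) .nil))))) (.nd (nat_lit 8) (.nd (nat_lit 9) 
(.lf (nat_lit 481416) (.g (nat_lit 3629) (.e (nat_lit 5546) (nat_lit 306) (.e (nat_lit 2601) (nat_lit 163) (.e (nat_lit 163977) (nat_lit 30) (.e (nat_lit 573482) (nat_lit 13) (.e (nat_lit 65604) (nat_lit 9) (.e (nat_lit 336013) (nat_lit 2) (.e (nat_lit 90170) (nat_lit 13) (.e (nat_lit 172042) (nat_lit 0) (.e (nat_lit 2458) (nat_lit 157) .nil))))))))) (.g (nat_lit 1) (.e (nat_lit 113761) (nat_lit 0) .nil) .nil))) 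
(.lf (nat_lit 481928) (.g (nat_lit 3644) (.e (nat_lit 7006) (nat_lit 377) (.e (nat_lit 2797) (nat_lit 180) (.e (nat_lit 303119) (nat_lit 3) (.e (nat_lit 204861) (nat_lit 26) (.e (nat_lit 336186) (nat_lit 11) .nil))))) (.g (nat_lit 0) (.e (nat_lit 118005) (nat_lit 0) .nil) .nil)))) (.nd (nat_lit 9) 
(.lf (nat_lit 481672) (.g (nat_lit 2401) (.e (nat_lit 5587) (nat_lit 310) (.e (nat_lit 163903) (nat_lit 12) (.e (nat_lit 426320) (nat_lit 12) (.e (nat_lit 475211) (nat_lit 41) (.e (nat_lit 712753) (nat_lit 30) .nil))))) (.g (nat_lit 0) (.e (nat_lit 115343) (nat_lit 0) .nil) .nil))) 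
(.lf (nat_lit 482184) (.g (nat_lit 2687) (.e (nat_lit 7261) (nat_lit 384) (.e (nat_lit 57406) (nat_lit 12) (.e (nat_lit 336316) (nat_lit 17) (.e (nat_lit 196666) (nat_lit 13) (.e (nat_lit 65628) (nat_lit 14) (.e (nat_lit 401472) (nat_lit 28) (.e (nat_lit 344096) (nat_lit 18) .nil))))))) (.g (nat_lit 1) (.e (nat_lit 118827) (nat_lit 0) .nil) .nil)))))) 
(.nd (nat_lit 7) (.nd (nat_lit 8) (.nd (nat_lit 9) 
(.lf (nat_lit 481352) (.g (nat_lit 589) (.e (nat_lit 5443) (nat_lit 306) (.e (nat_lit 2725) (nat_lit 172) (.e (nat_lit 237616) (nat_lit 12) .nil))) (.g (nat_lit 0) (.e (nat_lit 113152) (nat_lit 0) .nil) .nil))) 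
(.lf (nat_lit 481864) (.g (nat_lit 950) (.e (nat_lit 6966) (nat_lit 377) (.e (nat_lit 1374) (nat_lit 104) (.e (nat_lit 303119) (nat_lit 3) .nil))) (.g (nat_lit 0) (.e (nat_lit 117859) (nat_lit 0) .nil) .nil)))) (.nd (nat_lit 9) 
(.lf (nat_lit 481608) (.g (nat_lit 4669) (.e (nat_lit 5548) (nat_lit 306) (.e (nat_lit 2610) (nat_lit 163) (.e (nat_lit 163979) (nat_lit 30) (.e (nat_lit 573482) (nat_lit 13) (.e (nat_lit 65604) (nat_lit 9) (.e (nat_lit 336013) (nat_lit 2) (.e (nat_lit 90170) (nat_lit 13) (.e (nat_lit 172042) (nat_lit 0) (.e (nat_lit 2458) (nat_lit 157) .nil))))))))) (.g (nat_lit 1) (.e (nat_lit 114550) (nat_lit 0) .nil) .nil))) 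
(.lf (nat_lit 482120) (.g (nat_lit 2667) (.e (nat_lit 7280) (nat_lit 386) (.e (nat_lit 163875) (nat_lit 3) (.e (nat_lit 204829) (nat_lit 18) (.e (nat_lit 57847) (nat_lit 252) (.e (nat_lit 57430) (nat_lit 16) .nil))))) (.g (nat_lit 0) (.e (nat_lit 118612) (nat_lit 0) .nil) .nil))))) (.nd (nat_lit 8) (.nd (nat_lit 9) 
(.lf (nat_lit 481480) (.g (nat_lit 2999) (.e (nat_lit 5546) (nat_lit 306) (.e (nat_lit 2638) (nat_lit 165) (.e (nat_lit 180278) (nat_lit 32) (.e (nat_lit 1658) (nat_lit 115) (.e (nat_lit 393283) (nat_lit 24) (.e (nat_lit 434209) (nat_lit 18) .nil)))))) (.g (nat_lit 1) (.e (nat_lit 113999) (nat_lit 0) .nil) .nil))) 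
(.lf (nat_lit 481992) (.g (nat_lit 1688) (.e (nat_lit 7073) (nat_lit 377) (.e (nat_lit 2797) (nat_lit 180) (.e (nat_lit 303117) (nat_lit 2) (.e (nat_lit 196664) (nat_lit 13) (.e (nat_lit 65619) (nat_lit 10) .nil))))) (.g (nat_lit 0) (.e (nat_lit 118147) (nat_lit 0) .nil) .nil)))) (.nd (nat_lit 9) 
(.lf (nat_lit 481736) (.g (nat_lit 740) (.e (nat_lit 5598) (nat_lit 310) (.e (nat_lit 163867) (nat_lit 2) (.e (nat_lit 196667) (nat_lit 14) .nil))) (.g (nat_lit 0) (.e (nat_lit 116559) (nat_lit 0) .nil) .nil))) 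
(.lf (nat_lit 482248) (.g (nat_lit 457) (.e (nat_lit 7263) (nat_lit 384) (.e (nat_lit 57412) (nat_lit 12) (.e (nat_lit 336082) (nat_lit 9) .nil))) (.g (nat_lit 0) (.e (nat_lit 118897) (nat_lit 0) .nil) .nil))))))) (.nd (nat_lit 6) (.nd (nat_lit 7) (.nd (nat_lit 8) (.nd (nat_lit 9) 
(.lf (nat_lit 481320) (.g (nat_lit 2000) (.e (nat_lit 7936) (nat_lit 301) (.e (nat_lit 57464) (nat_lit 23) (.e (nat_lit 516151) (nat_lit 9) (.e (nat_lit 426290) (nat_lit 10) .nil)))) (.g (nat_lit 0) (.e (nat_lit 112974) (nat_lit 0) .nil) .nil))) 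
(.lf (nat_lit 481832) (.g (nat_lit 4311) (.e (nat_lit 6943) (nat_lit 375) (.e (nat_lit 163938) (nat_lit 18) (.e (nat_lit 475185) (nat_lit 29) (.e (nat_lit 557100) (nat_lit 13) (.e (nat_lit 172113) (nat_lit 10) (.e (nat_lit 434248) (nat_lit 28) (.e (nat_lit 573475) (nat_lit 12) (.e (nat_lit 57345) (nat_lit 0) .nil)))))))) (.g (nat_lit 1) (.e (nat_lit 117803) (nat_lit 0) .nil) .nil)))) 
(.nd (nat_lit 9) 
(.lf (nat_lit 481576) (.g (nat_lit 1527) (.e (nat_lit 5547) (nat_lit 306) (.e (nat_lit 2640) (nat_lit 165) (.e (nat_lit 180277) (nat_lit 32) (.e (nat_lit 1427) (nat_lit 108) (.e (nat_lit 336434) (nat_lit 30) (.e (nat_lit 458496) (nat_lit 0) .nil)))))) (.g (nat_lit 1) (.e (nat_lit 114404) (nat_lit 0) .nil) .nil))) 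
(.lf (nat_lit 482088) (.g (nat_lit 2189) (.e (nat_lit 7105) (nat_lit 380) (.e (nat_lit 164366) (nat_lit 246) (.e (nat_lit 2664) (nat_lit 167) (.e (nat_lit 196672) (nat_lit 15) (.e (nat_lit 81954) (nat_lit 23) (.e (nat_lit 106240) (nat_lit 17) .nil)))))) (.g (nat_lit 1) (.e (nat_lit 118355) (nat_lit 0) .nil) .nil))))) (.nd (nat_lit 8) (.nd (nat_lit 9) 
(.lf (nat_lit 481448) (.g (nat_lit 2981) (.e (nat_lit 5546) (nat_lit 306) (.e (nat_lit 2618) (nat_lit 164) (.e (nat_lit 172120) (nat_lit 12) (.e (nat_lit 475211) (nat_lit 41) (.e (nat_lit 712755) (nat_lit 30) (.e (nat_lit 458496) (nat_lit 0) .nil)))))) (.g (nat_lit 1) (.e (nat_lit 113844) (nat_lit 0) .nil) .nil))) 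
(.lf (nat_lit 481960) (.g (nat_lit 3490) (.e (nat_lit 7015) (nat_lit 377) (.e (nat_lit 2797) (nat_lit 180) (.e (nat_lit 303117) (nat_lit 2) (.e (nat_lit 196666) (nat_lit 13) (.e (nat_lit 65619) (nat_lit 10) .nil))))) (.g (nat_lit 0) (.e (nat_lit 118093) (nat_lit 0) .nil) .nil)))) (.nd (nat_lit 9) 
(.lf (nat_lit 481704) (.g (nat_lit 2169) (.e (nat_lit 5589) (nat_lit 310) (.e (nat_lit 163875) (nat_lit 3) (.e (nat_lit 204864) (nat_lit 27) (.e (nat_lit 344133) (nat_lit 26) (.e (nat_lit 557103) (nat_lit 14) .nil))))) (.g (nat_lit 0) (.e (nat_lit 115788) (nat_lit 0) .nil) .nil))) 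
(.lf (nat_lit 482216) (.g (nat_lit 3735) (.e (nat_lit 7261) (nat_lit 384) (.e (nat_lit 57412) (nat_lit 12) (.e (nat_lit 336001) (nat_lit 2) (.e (nat_lit 90170) (nat_lit 13) (.e (nat_lit 172113) (nat_lit 10) (.e (nat_lit 434248) (nat_lit 28) (.e (nat_lit 573475) (nat_lit 12) (.e (nat_lit 57353) (nat_lit 0) .nil)))))))) (.g (nat_lit 1) (.e (nat_lit 118862) (nat_lit 0) .nil) .nil)))))) 
(.nd (nat_lit 7) (.nd (nat_lit 8) (.nd (nat_lit 9) 
(.lf (nat_lit 481384) (.g (nat_lit 3142) (.e (nat_lit 5543) (nat_lit 306) (.e (nat_lit 2619) (nat_lit 164) (.e (nat_lit 172120) (nat_lit 12) (.e (nat_lit 475211) (nat_lit 41) (.e (nat_lit 712755) (nat_lit 30) (.e (nat_lit 458496) (nat_lit 0) .nil)))))) (.g (nat_lit 1) (.e (nat_lit 113546) (nat_lit 0) .nil) .nil))) 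
(.lf (nat_lit 481896) (.g (nat_lit 1790) (.e (nat_lit 6989) (nat_lit 377) (.e (nat_lit 2777) (nat_lit 178) (.e (nat_lit 286765) (nat_lit 15) (.e (nat_lit 3307) (nat_lit 202) (.e (nat_lit 573484) (nat_lit 13) .nil))))) (.g (nat_lit 0) (.e (nat_lit 117936) (nat_lit 0) .nil) .nil)))) (.nd (nat_lit 9) 
(.lf (nat_lit 481640) (.g (nat_lit 2231) (.e (nat_lit 5583) (nat_lit 310) (.e (nat_lit 163875) (nat_lit 3) (.e (nat_lit 204862) (nat_lit 27) (.e (nat_lit 344130) (nat_lit 26) (.e (nat_lit 557104) (nat_lit 14) .nil))))) (.g (nat_lit 0) (.e (nat_lit 114782) (nat_lit 0) .nil) .nil))) 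
(.lf (nat_lit 482152) (.g (nat_lit 1788) (.e (nat_lit 7287) (nat_lit 386) (.e (nat_lit 163875) (nat_lit 3) (.e (nat_lit 204838) (nat_lit 20) (.e (nat_lit 114719) (nat_lit 23) .nil)))) (.g (nat_lit 0) (.e (nat_lit 118718) (nat_lit 0) .nil) .nil))))) (.nd (nat_lit 8) (.nd (nat_lit 9) 
(.lf (nat_lit 481512) (.g (nat_lit 2603) (.e (nat_lit 5547) (nat_lit 306) (.e (nat_lit 2610) (nat_lit 163) (.e (nat_lit 163978) (nat_lit 30) (.e (nat_lit 573479) (nat_lit 13) (.e (nat_lit 65619) (nat_lit 10) .nil))))) (.g (nat_lit 0) (.e (nat_lit 114195) (nat_lit 0) .nil) .nil))) 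
(.lf (nat_lit 482024) (.g (nat_lit 1883) (.e (nat_lit 7065) (nat_lit 377) (.e (nat_lit 1348) (nat_lit 102) (.e (nat_lit 286761) (nat_lit 13) (.e (nat_lit 393275) (nat_lit 23) .nil)))) (.g (nat_lit 0) (.e (nat_lit 118199) (nat_lit 0) .nil) .nil)))) (.nd (nat_lit 9) 
(.lf (nat_lit 481768) (.g (nat_lit 2237) (.e (nat_lit 5601) (nat_lit 310) (.e (nat_lit 163867) (nat_lit 2) (.e (nat_lit 196670) (nat_lit 14) (.e (nat_lit 73746) (nat_lit 3) (.e (nat_lit 516131) (nat_lit 3) .nil))))) (.g (nat_lit 0) (.e (nat_lit 117259) (nat_lit 0) .nil) .nil))) 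
(.lf (nat_lit 482280) (.g (nat_lit 3567) (.e (nat_lit 7265) (nat_lit 384) (.e (nat_lit 57406) (nat_lit 12) (.e (nat_lit 336019) (nat_lit 3) (.e (nat_lit 98372) (nat_lit 29) (.e (nat_lit 450586) (nat_lit 10) (.e (nat_lit 573478) (nat_lit 12) (.e (nat_lit 57351) (nat_lit 0) .nil))))))) (.g (nat_lit 1) (.e (nat_lit 118937) (nat_lit 0) .nil) .nil)))))))) 
(.nd (nat_lit 5) (.nd (nat_lit 6) (.nd (nat_lit 7) (.nd (nat_lit 8) (.nd (nat_lit 9) 
(.lf (nat_lit 481304) (.g (nat_lit 2929) (.e (nat_lit 5395) (nat_lit 301) (.e (nat_lit 57464) (nat_lit 23) (.e (nat_lit 516151) (nat_lit 9) (.e (nat_lit 426275) (nat_lit 10) (.e (nat_lit 434233) (nat_lit 23) .nil))))) (.g (nat_lit 0) (.e (nat_lit 112947) (nat_lit 0) .nil) .nil))) 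
(.lf (nat_lit 481816) (.g (nat_lit 4352) (.e (nat_lit 6940) (nat_lit 375) (.e (nat_lit 163938) (nat_lit 18) (.e (nat_lit 475185) (nat_lit 29) (.e (nat_lit 557100) (nat_lit 13) (.e (nat_lit 172113) (nat_lit 10) (.e (nat_lit 434248) (nat_lit 28) (.e (nat_lit 573473) (nat_lit 12) (.e (nat_lit 57348) (nat_lit 0) .nil)))))))) (.g (nat_lit 1) (.e (nat_lit 117778) (nat_lit 0) .nil) .nil)))) 
(.nd (nat_lit 9) 
(.lf (nat_lit 481560) (.g (nat_lit 2622) (.e (nat_lit 5547) (nat_lit 306) (.e (nat_lit 2629) (nat_lit 164) (.e (nat_lit 172124) (nat_lit 14) (.e (nat_lit 491549) (nat_lit 9) (.e (nat_lit 336434) (nat_lit 30) (.e (nat_lit 458496) (nat_lit 0) .nil)))))) (.g (nat_lit 1) (.e (nat_lit 114363) (nat_lit 0) .nil) .nil))) 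
(.lf (nat_lit 482072) (.g (nat_lit 888) (.e (nat_lit 7098) (nat_lit 380) (.e (nat_lit 164353) (nat_lit 246) (.e (nat_lit 226) (nat_lit 21) (.e (nat_lit 336434) (nat_lit 30) (.e (nat_lit 450579) (nat_lit 5) .nil))))) (.g (nat_lit 0) (.e (nat_lit 118302) (nat_lit 0) .nil) .nil))))) (.nd (nat_lit 8) (.nd (nat_lit 9) 
(.lf (nat_lit 481432) (.g (nat_lit 2317) (.e (nat_lit 5546) (nat_lit 306) (.e (nat_lit 2610) (nat_lit 163) (.e (nat_lit 163978) (nat_lit 30) (.e (nat_lit 573485) (nat_lit 13) (.e (nat_lit 65619) (nat_lit 10) (.e (nat_lit 344117) (nat_lit 21) (.e (nat_lit 516151) (nat_lit 9) (.e (nat_lit 426043) (nat_lit 0) (.e (nat_lit 2458) (nat_lit 157) .nil))))))))) (.g (nat_lit 1) (.e (nat_lit 113787) (nat_lit 0) .nil) .nil))) 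
(.lf (nat_lit 481944) (.g (nat_lit 1661) (.e (nat_lit 7013) (nat_lit 377) (.e (nat_lit 2797) (nat_lit 180) (.e (nat_lit 303117) (nat_lit 2) (.e (nat_lit 196672) (nat_lit 15) .nil)))) (.g (nat_lit 0) (.e (nat_lit 118069) (nat_lit 0) .nil) .nil)))) (.nd (nat_lit 9) 
(.lf (nat_lit 481688) (.g (nat_lit 3041) (.e (nat_lit 5587) (nat_lit 310) (.e (nat_lit 163907) (nat_lit 12) (.e (nat_lit 426320) (nat_lit 12) (.e (nat_lit 475211) (nat_lit 41) (.e (nat_lit 712753) (nat_lit 30) (.e (nat_lit 458496) (nat_lit 0) .nil)))))) (.g (nat_lit 1) (.e (nat_lit 115386) (nat_lit 0) .nil) .nil))) 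
(.lf (nat_lit 482200) (.g (nat_lit 1721) (.e (nat_lit 7261) (nat_lit 384) (.e (nat_lit 57407) (nat_lit 12) (.e (nat_lit 336019) (nat_lit 3) (.e (nat_lit 98373) (nat_lit 29) .nil)))) (.g (nat_lit 0) (.e (nat_lit 118846) (nat_lit 0) .nil) .nil)))))) (.nd (nat_lit 7) (.nd (nat_lit 8) (.nd (nat_lit 9) 
(.lf (nat_lit 481368) (.g (nat_lit 2901) (.e (nat_lit 5537) (nat_lit 306) (.e (nat_lit 2610) (nat_lit 163) (.e (nat_lit 163978) (nat_lit 30) (.e (nat_lit 573479) (nat_lit 13) (.e (nat_lit 65604) (nat_lit 9) .nil))))) (.g (nat_lit 0) (.e (nat_lit 113473) (nat_lit 0) .nil) .nil))) 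
(.lf (nat_lit 481880) (.g (nat_lit 2277) (.e (nat_lit 6989) (nat_lit 377) (.e (nat_lit 2810) (nat_lit 180) (.e (nat_lit 303119) (nat_lit 3) (.e (nat_lit 204852) (nat_lit 26) (.e (nat_lit 336160) (nat_lit 10) .nil))))) (.g (nat_lit 0) (.e (nat_lit 117893) (nat_lit 0) .nil) .nil)))) (.nd (nat_lit 9) 
(.lf (nat_lit 481624) (.g (nat_lit 3438) (.e (nat_lit 5548) (nat_lit 306) (.e (nat_lit 2611) (nat_lit 163) (.e (nat_lit 163977) (nat_lit 30) (.e (nat_lit 573482) (nat_lit 13) (.e (nat_lit 65604) (nat_lit 9) (.e (nat_lit 336013) (nat_lit 2) (.e (nat_lit 90170) (nat_lit 13) (.e (nat_lit 172042) (nat_lit 0) (.e (nat_lit 2458) (nat_lit 157) .nil))))))))) (.g (nat_lit 1) (.e (nat_lit 114576) (nat_lit 0) .nil) .nil))) 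
(.lf (nat_lit 482136) (.g (nat_lit 854) (.e (nat_lit 7280) (nat_lit 386) (.e (nat_lit 163903) (nat_lit 12) (.e (nat_lit 426568) (nat_lit 34) .nil))) (.g (nat_lit 0) (.e (nat_lit 118637) (nat_lit 0) .nil) .nil))))) (.nd (nat_lit 8) (.nd (nat_lit 9) 
(.lf (nat_lit 481496) (.g (nat_lit 798) (.e (nat_lit 5546) (nat_lit 306) (.e (nat_lit 2640) (nat_lit 165) (.e (nat_lit 180278) (nat_lit 32) (.e (nat_lit 1661) (nat_lit 115) .nil)))) (.g (nat_lit 0) (.e (nat_lit 114023) (nat_lit 0) .nil) .nil))) 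
(.lf (nat_lit 482008) (.g (nat_lit 2648) (.e (nat_lit 7064) (nat_lit 377) (.e (nat_lit 1349) (nat_lit 102) (.e (nat_lit 286733) (nat_lit 2) (.e (nat_lit 90174) (nat_lit 14) (.e (nat_lit 180288) (nat_lit 45) (.e (nat_lit 2571) (nat_lit 160) (.e (nat_lit 32793) (nat_lit 14) (.e (nat_lit 2400) (nat_lit 157) .nil)))))))) (.g (nat_lit 1) (.e (nat_lit 118182) (nat_lit 0) .nil) .nil)))) (.nd (nat_lit 9) 
(.lf (nat_lit 481752) (.g (nat_lit 3126) (.e (nat_lit 5599) (nat_lit 310) (.e (nat_lit 163874) (nat_lit 3) (.e (nat_lit 204864) (nat_lit 27) (.e (nat_lit 344130) (nat_lit 26) (.e (nat_lit 557097) (nat_lit 13) (.e (nat_lit 179968) (nat_lit 18) (.e (nat_lit 98325) (nat_lit 17) (.e (nat_lit 2515) (nat_lit 157) .nil)))))))) (.g (nat_lit 1) (.e (nat_lit 116990) (nat_lit 0) .nil) .nil))) 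
(.lf (nat_lit 482264) (.g (nat_lit 724) (.e (nat_lit 7265) (nat_lit 384) (.e (nat_lit 57406) (nat_lit 12) (.e (nat_lit 336019) (nat_lit 3) .nil))) (.g (nat_lit 0) (.e (nat_lit 118921) (nat_lit 0) .nil) .nil))))))) (.nd (nat_lit 6) (.nd (nat_lit 7) (.nd (nat_lit 8) (.nd (nat_lit 9) 
(.lf (nat_lit 481336) (.g (nat_lit 636) (.e (nat_lit 5410) (nat_lit 303) (.e (nat_lit 73750) (nat_lit 6) (.e (nat_lit 540724) (nat_lit 28) (.e (nat_lit 442398) (nat_lit 20) (.e (nat_lit 3572) (nat_lit 222) (.e (nat_lit 737281) (nat_lit 0) .nil)))))) (.g (nat_lit 1) (.e (nat_lit 113039) (nat_lit 0) .nil) .nil))) 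
(.lf (nat_lit 481848) (.g (nat_lit 2053) (.e (nat_lit 6966) (nat_lit 377) (.e (nat_lit 2797) (nat_lit 180) (.e (nat_lit 303116) (nat_lit 2) (.e (nat_lit 196666) (nat_lit 13) (.e (nat_lit 65610) (nat_lit 10) .nil))))) (.g (nat_lit 0) (.e (nat_lit 117825) (nat_lit 0) .nil) .nil)))) (.nd (nat_lit 9) 
(.lf (nat_lit 481592) (.g (nat_lit 4471) (.e (nat_lit 5548) (nat_lit 306) (.e (nat_lit 2610) (nat_lit 163) (.e (nat_lit 163977) (nat_lit 30) (.e (nat_lit 573493) (nat_lit 15) (.e (nat_lit 81956) (nat_lit 23) (.e (nat_lit 98366) (nat_lit 27) (.e (nat_lit 434209) (nat_lit 18) .nil))))))) (.g (nat_lit 1) (.e (nat_lit 114528) (nat_lit 0) .nil) .nil))) 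
(.lf (nat_lit 482104) (.g (nat_lit 2105) (.e (nat_lit 7081) (nat_lit 378) (.e (nat_lit 57902) (nat_lit 277) (.e (nat_lit 131140) (nat_lit 27) (.e (nat_lit 426011) (nat_lit 0) (.e (nat_lit 7587) (nat_lit 406) (.e (nat_lit 65632) (nat_lit 15) .nil)))))) (.g (nat_lit 1) (.e (nat_lit 118425) (nat_lit 0) .nil) .nil))))) (.nd (nat_lit 8) (.nd (nat_lit 9) 
(.lf (nat_lit 481464) (.g (nat_lit 2561) (.e (nat_lit 5546) (nat_lit 306) (.e (nat_lit 2619) (nat_lit 164) (.e (nat_lit 172124) (nat_lit 14) (.e (nat_lit 491550) (nat_lit 9) (.e (nat_lit 336434) (nat_lit 30) (.e (nat_lit 458496) (nat_lit 0) .nil)))))) (.g (nat_lit 1) (.e (nat_lit 113900) (nat_lit 0) .nil) .nil))) 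
(.lf (nat_lit 481976) (.g (nat_lit 1963) (.e (nat_lit 7016) (nat_lit 377) (.e (nat_lit 2798) (nat_lit 180) (.e (nat_lit 303119) (nat_lit 3) (.e (nat_lit 204867) (nat_lit 28) (.e (nat_lit 352315) (nat_lit 23) .nil))))) (.g (nat_lit 0) (.e (nat_lit 118117) (nat_lit 0) .nil) .nil)))) (.nd (nat_lit 9) 
(.lf (nat_lit 481720) (.g (nat_lit 2198) (.e (nat_lit 5594) (nat_lit 310) (.e (nat_lit 163874) (nat_lit 3) (.e (nat_lit 204862) (nat_lit 27) (.e (nat_lit 344117) (nat_lit 21) (.e (nat_lit 516130) (nat_lit 3) .nil))))) (.g (nat_lit 0) (.e (nat_lit 116089) (nat_lit 0) .nil) .nil))) 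
(.lf (nat_lit 482232) (.g (nat_lit 5974) (.e (nat_lit 7261) (nat_lit 384) (.e (nat_lit 57432) (nat_lit 16) (.e (nat_lit 368676) (nat_lit 21) (.e (nat_lit 516166) (nat_lit 12) (.e (nat_lit 450588) (nat_lit 10) (.e (nat_lit 573473) (nat_lit 12) (.e (nat_lit 57353) (nat_lit 0) .nil))))))) (.g (nat_lit 1) (.e (nat_lit 118880) (nat_lit 0) .nil) .nil)))))) 
(.nd (nat_lit 7) (.nd (nat_lit 8) (.nd (nat_lit 9) 
(.lf (nat_lit 481400) (.g (nat_lit 1426) (.e (nat_lit 5543) (nat_lit 306) (.e (nat_lit 2638) (nat_lit 165) (.e (nat_lit 180278) (nat_lit 32) (.e (nat_lit 1425) (nat_lit 108) (.e (nat_lit 336434) (nat_lit 30) (.e (nat_lit 458496) (nat_lit 0) .nil)))))) (.g (nat_lit 1) (.e (nat_lit 113618) (nat_lit 0) .nil) .nil))) 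
(.lf (nat_lit 481912) (.g (nat_lit 1824) (.e (nat_lit 6986) (nat_lit 377) (.e (nat_lit 2777) (nat_lit 178) (.e (nat_lit 286734) (nat_lit 3) (.e (nat_lit 98389) (nat_lit 33) .nil)))) (.g (nat_lit 0) (.e (nat_lit 117972) (nat_lit 0) .nil) .nil)))) (.nd (nat_lit 9) 
(.lf (nat_lit 481656) (.g (nat_lit 1865) (.e (nat_lit 5586) (nat_lit 310) (.e (nat_lit 163907) (nat_lit 12) (.e (nat_lit 426320) (nat_lit 12) (.e (nat_lit 475211) (nat_lit 41) (.e (nat_lit 712755) (nat_lit 30) .nil))))) (.g (nat_lit 0) (.e (nat_lit 115114) (nat_lit 0) .nil) .nil))) 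
(.lf (nat_lit 482168) (.g (nat_lit 1552) (.e (nat_lit 7290) (nat_lit 386) (.e (nat_lit 163905) (nat_lit 12) (.e (nat_lit 426568) (nat_lit 34) (.e (nat_lit 393277) (nat_lit 23) .nil)))) (.g (nat_lit 0) (.e (nat_lit 118759) (nat_lit 0) .nil) .nil))))) (.nd (nat_lit 8) (.nd (nat_lit 9) 
(.lf (nat_lit 481528) (.g (nat_lit 1991) (.e (nat_lit 5547) (nat_lit 306) (.e (nat_lit 2610) (nat_lit 163) (.e (nat_lit 163979) (nat_lit 30) (.e (nat_lit 573482) (nat_lit 13) (.e (nat_lit 65604) (nat_lit 9) (.e (nat_lit 336028) (nat_lit 3) (.e (nat_lit 98359) (nat_lit 26) (.e (nat_lit 426047) (nat_lit 0) (.e (nat_lit 2458) (nat_lit 157) .nil))))))))) (.g (nat_lit 1) (.e (nat_lit 114215) (nat_lit 0) .nil) .nil))) 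
(.lf (nat_lit 482040) (.g (nat_lit 1290) (.e (nat_lit 7936) (nat_lit 377) (.e (nat_lit 2797) (nat_lit 180) (.e (nat_lit 303119) (nat_lit 3) (.e (nat_lit 204865) (nat_lit 28) .nil)))) (.g (nat_lit 0) (.e (nat_lit 118220) (nat_lit 0) .nil) .nil)))) (.nd (nat_lit 9) 
(.lf (nat_lit 481784) (.g (nat_lit 1938) (.e (nat_lit 5603) (nat_lit 310) (.e (nat_lit 163905) (nat_lit 12) (.e (nat_lit 426320) (nat_lit 12) (.e (nat_lit 475211) (nat_lit 41) (.e (nat_lit 712755) (nat_lit 30) .nil))))) (.g (nat_lit 0) (.e (nat_lit 117459) (nat_lit 0) .nil) .nil))) 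
(.lf (nat_lit 482296) (.g (nat_lit 4494) (.e (nat_lit 7265) (nat_lit 384) (.e (nat_lit 57406) (nat_lit 12) (.e (nat_lit 343808) (nat_lit 3) (.e (nat_lit 98373) (nat_lit 29) (.e (nat_lit 450588) (nat_lit 10) (.e (nat_lit 573473) (nat_lit 12) (.e (nat_lit 57353) (nat_lit 0) .nil))))))) (.g (nat_lit 1) (.e (nat_lit 118953) (nat_lit 0) .nil) .nil)))))))))) 
(.nd (nat_lit 3) (.nd (nat_lit 4) (.nd (nat_lit 5) (.nd (nat_lit 6) (.nd (nat_lit 7) 
(.nd (nat_lit 8) (.nd (nat_lit 9) 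
(.lf (nat_lit 481284) (.g (nat_lit 2192) (.e (nat_lit 5393) (nat_lit 301) (.e (nat_lit 57464) (nat_lit 23) (.e (nat_lit 516151) (nat_lit 9) (.e (nat_lit 426185) (nat_lit 9) .nil)))) (.g (nat_lit 0) (.e (nat_lit 112907) (nat_lit 0) .nil) .nil))) 
(.lf (nat_lit 481796) (.g (nat_lit 2429) (.e (nat_lit 5567) (nat_lit 308) (.e (nat_lit 57379) (nat_lit 3) (.e (nat_lit 98387) (nat_lit 33) (.e (nat_lit 491570) (nat_lit 13) (.e (nat_lit 393229) (nat_lit 9) .nil))))) (.g (nat_lit 0) (.e (nat_lit 117701) (nat_lit 0) .nil) .nil)))) (.nd (nat_lit 9) 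
(.lf (nat_lit 481540) (.g (nat_lit 3010) (.e (nat_lit 5547) (nat_lit 306) (.e (nat_lit 2619) (nat_lit 164) (.e (nat_lit 172120) (nat_lit 12) (.e (nat_lit 475211) (nat_lit 41) (.e (nat_lit 712753) (nat_lit 30) (.e (nat_lit 458496) (nat_lit 0) .nil)))))) (.g (nat_lit 1) (.e (nat_lit 114280) (nat_lit 0) .nil) .nil))) 
(.lf (nat_lit 482052) (.g (nat_lit 2557) (.e (nat_lit 7096) (nat_lit 380) (.e (nat_lit 171776) (nat_lit 86) (.e (nat_lit 532514) (nat_lit 3) (.e (nat_lit 114719) (nat_lit 23) (.e (nat_lit 98365) (nat_lit 26) (.e (nat_lit 426133) (nat_lit 3) (.e (nat_lit 204805) (nat_lit 0) .nil))))))) (.g (nat_lit 1) (.e (nat_lit 118253) (nat_lit 0) .nil) .nil))))) (.nd (nat_lit 8) (.nd (nat_lit 9) 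
(.lf (nat_lit 481412) (.g (nat_lit 3766) (.e (nat_lit 5546) (nat_lit 306) (.e (nat_lit 2599) (nat_lit 163) (.e (nat_lit 163979) (nat_lit 30) (.e (nat_lit 573482) (nat_lit 13) (.e (nat_lit 65604) (nat_lit 9) (.e (nat_lit 336013) (nat_lit 2) (.e (nat_lit 90170) (nat_lit 13) (.e (nat_lit 172049) (nat_lit 0) (.e (nat_lit 2458) (nat_lit 157) .nil))))))))) (.g (nat_lit 1) (.e (nat_lit 113731) (nat_lit 0) .nil) .nil))) 
(.lf (nat_lit 481924) (.g (nat_lit 3130) (.e (nat_lit 6998) (nat_lit 377) (.e (nat_lit 2797) (nat_lit 180) (.e (nat_lit 303119) (nat_lit 3) (.e (nat_lit 204855) (nat_lit 26) (.e (nat_lit 336178) (nat_lit 10) .nil))))) (.g (nat_lit 0) (.e (nat_lit 117993) (nat_lit 0) .nil) .nil)))) (.nd (nat_lit 9) 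
(.lf (nat_lit 481668) (.g (nat_lit 2395) (.e (nat_lit 5587) (nat_lit 310) (.e (nat_lit 163875) (nat_lit 3) (.e (nat_lit 204862) (nat_lit 27) (.e (nat_lit 344133) (nat_lit 26) (.e (nat_lit 557105) (nat_lit 14) .nil))))) (.g (nat_lit 0) (.e (nat_lit 115304) (nat_lit 0) .nil) .nil))) 
(.lf (nat_lit 482180) (.g (nat_lit 2361) (.e (nat_lit 7261) (nat_lit 384) (.e (nat_lit 57406) (nat_lit 12) (.e (nat_lit 336019) (nat_lit 3) (.e (nat_lit 98372) (nat_lit 29) (.e (nat_lit 450586) (nat_lit 10) (.e (nat_lit 573475) (nat_lit 12) (.e (nat_lit 57348) (nat_lit 0) .nil))))))) (.g (nat_lit 1) (.e (nat_lit 118821) (nat_lit 0) .nil) .nil)))))) 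
(.nd (nat_lit 7) (.nd (nat_lit 8) (.nd (nat_lit 9) 
(.lf (nat_lit 481348) (.g (nat_lit 2419) (.e (nat_lit 5442) (nat_lit 306) (.e (nat_lit 1183) (nat_lit 87) (.e (nat_lit 57575) (nat_lit 55) (.e (nat_lit 778466) (nat_lit 11) (.e (nat_lit 24617) (nat_lit 7) .nil))))) (.g (nat_lit 0) (.e (nat_lit 113109) (nat_lit 0) .nil) .nil))) 
(.lf (nat_lit 481860) (.g (nat_lit 993) (.e (nat_lit 6966) (nat_lit 377) (.e (nat_lit 2819) (nat_lit 181) (.e (nat_lit 311315) (nat_lit 3) (.e (nat_lit 204865) (nat_lit 28) .nil)))) (.g (nat_lit 0) (.e (nat_lit 117849) (nat_lit 0) .nil) .nil)))) (.nd (nat_lit 9) 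
(.lf (nat_lit 481604) (.g (nat_lit 5067) (.e (nat_lit 5548) (nat_lit 306) (.e (nat_lit 2610) (nat_lit 163) (.e (nat_lit 163978) (nat_lit 30) (.e (nat_lit 573485) (nat_lit 13) (.e (nat_lit 65604) (nat_lit 9) (.e (nat_lit 336013) (nat_lit 2) (.e (nat_lit 90170) (nat_lit 13) (.e (nat_lit 172046) (nat_lit 0) (.e (nat_lit 2478) (nat_lit 157) .nil))))))))) (.g (nat_lit 1) (.e (nat_lit 114541) (nat_lit 0) .nil) .nil))) 
(.lf (nat_lit 482116) (.g (nat_lit 977) (.e (nat_lit 7280) (nat_lit 386) (.e (nat_lit 163875) (nat_lit 3) (.e (nat_lit 204829) (nat_lit 18) .nil))) (.g (nat_lit 0) (.e (nat_lit 118608) (nat_lit 0) .nil) .nil))))) (.nd (nat_lit 8) (.nd (nat_lit 9) 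
(.lf (nat_lit 481476) (.g (nat_lit 1744) (.e (nat_lit 5546) (nat_lit 306) (.e (nat_lit 2638) (nat_lit 165) (.e (nat_lit 180278) (nat_lit 32) (.e (nat_lit 1426) (nat_lit 108) (.e (nat_lit 336434) (nat_lit 30) (.e (nat_lit 458496) (nat_lit 0) .nil)))))) (.g (nat_lit 1) (.e (nat_lit 113995) (nat_lit 0) .nil) .nil))) 
(.lf (nat_lit 481988) (.g (nat_lit 3371) (.e (nat_lit 7071) (nat_lit 377) (.e (nat_lit 2797) (nat_lit 180) (.e (nat_lit 303119) (nat_lit 3) (.e (nat_lit 204861) (nat_lit 26) (.e (nat_lit 336185) (nat_lit 11) .nil))))) (.g (nat_lit 0) (.e (nat_lit 118140) (nat_lit 0) .nil) .nil)))) (.nd (nat_lit 9) 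
(.lf (nat_lit 481732) (.g (nat_lit 2542) (.e (nat_lit 5597) (nat_lit 310) (.e (nat_lit 163869) (nat_lit 2) (.e (nat_lit 196670) (nat_lit 14) (.e (nat_lit 73746) (nat_lit 3) (.e (nat_lit 516129) (nat_lit 3) .nil))))) (.g (nat_lit 0) (.e (nat_lit 116479) (nat_lit 0) .nil) .nil))) 
(.lf (nat_lit 482244) (.g (nat_lit 3573) (.e (nat_lit 7263) (nat_lit 384) (.e (nat_lit 57412) (nat_lit 12) (.e (nat_lit 336001) (nat_lit 2) (.e (nat_lit 90170) (nat_lit 13) (.e (nat_lit 172113) (nat_lit 10) (.e (nat_lit 434247) (nat_lit 28) (.e (nat_lit 573478) (nat_lit 12) (.e (nat_lit 57351) (nat_lit 0) .nil)))))))) (.g (nat_lit 1) (.e (nat_lit 118893) (nat_lit 0) .nil) .nil))))))) 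
(.nd (nat_lit 6) (.nd (nat_lit 7) (.nd (nat_lit 8) (.nd (nat_lit 9) 
(.lf (nat_lit 481316) (.g (nat_lit 2309) (.e (nat_lit 5396) (nat_lit 301) (.e (nat_lit 57464) (nat_lit 23) (.e (nat_lit 516151) (nat_lit 9) (.e (nat_lit 426289) (nat_lit 10) .nil)))) (.g (nat_lit 0) (.e (nat_lit 112959) (nat_lit 0) .nil) .nil))) 
(.lf (nat_lit 481828) (.g (nat_lit 3228) (.e (nat_lit 6943) (nat_lit 375) (.e (nat_lit 163936) (nat_lit 18) (.e (nat_lit 475185) (nat_lit 29) (.e (nat_lit 557100) (nat_lit 13) (.e (nat_lit 172113) (nat_lit 10) (.e (nat_lit 434245) (nat_lit 28) (.e (nat_lit 573474) (nat_lit 12) (.e (nat_lit 57347) (nat_lit 0) .nil)))))))) (.g (nat_lit 1) (.e (nat_lit 117799) (nat_lit 0) .nil) .nil)))) 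
(.nd (nat_lit 9) 
(.lf (nat_lit 481572) (.g (nat_lit 2284) (.e (nat_lit 5547) (nat_lit 306) (.e (nat_lit 2638) (nat_lit 165) (.e (nat_lit 180278) (nat_lit 32) (.e (nat_lit 1428) (nat_lit 108) (.e (nat_lit 336432) (nat_lit 30) (.e (nat_lit 458496) (nat_lit 0) .nil)))))) (.g (nat_lit 1) (.e (nat_lit 114392) (nat_lit 0) .nil) .nil))) 
(.lf (nat_lit 482084) (.g (nat_lit 1834) (.e (nat_lit 7105) (nat_lit 380) (.e (nat_lit 164288) (nat_lit 224) (.e (nat_lit 164092) (nat_lit 82) (.e (nat_lit 500046) (nat_lit 16) (.e (nat_lit 16466) (nat_lit 13) (.e (nat_lit 491264) (nat_lit 0) .nil)))))) (.g (nat_lit 1) (.e (nat_lit 118336) (nat_lit 0) .nil) .nil))))) (.nd (nat_lit 8) (.nd (nat_lit 9) 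
(.lf (nat_lit 481444) (.g (nat_lit 2222) (.e (nat_lit 5546) (nat_lit 306) (.e (nat_lit 2618) (nat_lit 164) (.e (nat_lit 172118) (nat_lit 12) (.e (nat_lit 475211) (nat_lit 41) (.e (nat_lit 712753) (nat_lit 30) (.e (nat_lit 458496) (nat_lit 0) .nil)))))) (.g (nat_lit 1) (.e (nat_lit 113838) (nat_lit 0) .nil) .nil))) 
(.lf (nat_lit 481956) (.g (nat_lit 812) (.e (nat_lit 7014) (nat_lit 377) (.e (nat_lit 2797) (nat_lit 180) (.e (nat_lit 303119) (nat_lit 3) .nil))) (.g (nat_lit 0) (.e (nat_lit 118087) (nat_lit 0) .nil) .nil)))) (.nd (nat_lit 9) 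
(.lf (nat_lit 481700) (.g (nat_lit 2221) (.e (nat_lit 5589) (nat_lit 310) (.e (nat_lit 163875) (nat_lit 3) (.e (nat_lit 204863) (nat_lit 27) (.e (nat_lit 344130) (nat_lit 26) (.e (nat_lit 557104) (nat_lit 14) .nil))))) (.g (nat_lit 0) (.e (nat_lit 115784) (nat_lit 0) .nil) .nil))) 
(.lf (nat_lit 482212) (.g (nat_lit 3533) (.e (nat_lit 7261) (nat_lit 384) (.e (nat_lit 57412) (nat_lit 12) (.e (nat_lit 336001) (nat_lit 2) (.e (nat_lit 90170) (nat_lit 13) (.e (nat_lit 172113) (nat_lit 10) (.e (nat_lit 434247) (nat_lit 28) (.e (nat_lit 573478) (nat_lit 12) (.e (nat_lit 57353) (nat_lit 0) .nil)))))))) (.g (nat_lit 1) (.e (nat_lit 118858) (nat_lit 0) .nil) .nil)))))) 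
(.nd (nat_lit 7) (.nd (nat_lit 8) (.nd (nat_lit 9) 
(.lf (nat_lit 481380) (.g (nat_lit 2607) (.e (nat_lit 5543) (nat_lit 306) (.e (nat_lit 2618) (nat_lit 164) (.e (nat_lit 172124) (nat_lit 14) (.e (nat_lit 491549) (nat_lit 9) (.e (nat_lit 336432) (nat_lit 30) (.e (nat_lit 458496) (nat_lit 0) .nil)))))) (.g (nat_lit 1) (.e (nat_lit 113532) (nat_lit 0) .nil) .nil))) 
(.lf (nat_lit 481892) (.g (nat_lit 1472) (.e (nat_lit 6989) (nat_lit 377) (.e (nat_lit 2810) (nat_lit 180) (.e (nat_lit 303143) (nat_lit 12) (.e (nat_lit 475212) (nat_lit 42) (.e (nat_lit 720954) (nat_lit 25) .nil))))) (.g (nat_lit 0) (.e (nat_lit 117906) (nat_lit 0) .nil) .nil)))) (.nd (nat_lit 9) 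
(.lf (nat_lit 481636) (.g (nat_lit 1665) (.e (nat_lit 5530) (nat_lit 306) (.e (nat_lit 1181) (nat_lit 87) (.e (nat_lit 57575) (nat_lit 55) (.e (nat_lit 778466) (nat_lit 11) .nil)))) (.g (nat_lit 0) (.e (nat_lit 114749) (nat_lit 0) .nil) .nil))) 
(.lf (nat_lit 482148) (.g (nat_lit 2518) (.e (nat_lit 7287) (nat_lit 386) (.e (nat_lit 163875) (nat_lit 3) (.e (nat_lit 204829) (nat_lit 18) (.e (nat_lit 57847) (nat_lit 252) (.e (nat_lit 57410) (nat_lit 12) .nil))))) (.g (nat_lit 0) (.e (nat_lit 118714) (nat_lit 0) .nil) .nil))))) (.nd (nat_lit 8) (.nd (nat_lit 9) 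
(.lf (nat_lit 481508) (.g (nat_lit 3376) (.e (nat_lit 5547) (nat_lit 306) (.e (nat_lit 2610) (nat_lit 163) (.e (nat_lit 163977) (nat_lit 30) (.e (nat_lit 573493) (nat_lit 15) (.e (nat_lit 81953) (nat_lit 22) (.e (nat_lit 90170) (nat_lit 13) (.e (nat_lit 172042) (nat_lit 0) (.e (nat_lit 2458) (nat_lit 157) .nil)))))))) (.g (nat_lit 1) (.e (nat_lit 114191) (nat_lit 0) .nil) .nil))) 
(.lf (nat_lit 482020) (.g (nat_lit 3603) (.e (nat_lit 7064) (nat_lit 377) (.e (nat_lit 1368) (nat_lit 103) (.e (nat_lit 294928) (nat_lit 2) (.e (nat_lit 90167) (nat_lit 13) (.e (nat_lit 172126) (nat_lit 14) (.e (nat_lit 491537) (nat_lit 2) (.e (nat_lit 90133) (nat_lit 9) (.e (nat_lit 2397) (nat_lit 157) .nil)))))))) (.g (nat_lit 1) (.e (nat_lit 118194) (nat_lit 0) .nil) .nil)))) (.nd (nat_lit 9) 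
(.lf (nat_lit 481764) (.g (nat_lit 628) (.e (nat_lit 5599) (nat_lit 310) (.e (nat_lit 163913) (nat_lit 12) (.e (nat_lit 426347) (nat_lit 14) .nil))) (.g (nat_lit 0) (.e (nat_lit 117141) (nat_lit 0) .nil) .nil))) 
(.lf (nat_lit 482276) (.g (nat_lit 4076) (.e (nat_lit 7265) (nat_lit 384) (.e (nat_lit 57406) (nat_lit 12) (.e (nat_lit 336019) (nat_lit 3) (.e (nat_lit 98372) (nat_lit 29) (.e (nat_lit 450586) (nat_lit 10) (.e (nat_lit 573473) (nat_lit 12) (.e (nat_lit 57353) (nat_lit 0) .nil))))))) (.g (nat_lit 1) (.e (nat_lit 118933) (nat_lit 0) .nil) .nil)))))))) 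
(.nd (nat_lit 5) (.nd (nat_lit 6) (.nd (nat_lit 7) (.nd (nat_lit 8) (.nd (nat_lit 9) 
(.lf (nat_lit 481300) (.g (nat_lit 3348) (.e (nat_lit 5394) (nat_lit 301) (.e (nat_lit 57464) (nat_lit 23) (.e (nat_lit 516166) (nat_lit 12) (.e (nat_lit 450588) (nat_lit 10) (.e (nat_lit 573457) (nat_lit 9) (.e (nat_lit 359) (nat_lit 30) (.e (nat_lit 409603) (nat_lit 0) .nil))))))) (.g (nat_lit 1) (.e (nat_lit 112939) (nat_lit 0) .nil) .nil))) 
(.lf (nat_lit 481812) (.g (nat_lit 3106) (.e (nat_lit 6940) (nat_lit 375) (.e (nat_lit 163936) (nat_lit 18) (.e (nat_lit 475185) (nat_lit 29) (.e (nat_lit 557100) (nat_lit 13) (.e (nat_lit 172113) (nat_lit 10) .nil))))) (.g (nat_lit 0) (.e (nat_lit 117773) (nat_lit 0) .nil) .nil)))) (.nd (nat_lit 9) 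
(.lf (nat_lit 481556) (.g (nat_lit 2073) (.e (nat_lit 5547) (nat_lit 306) (.e (nat_lit 2628) (nat_lit 164) (.e (nat_lit 172126) (nat_lit 14) (.e (nat_lit 491550) (nat_lit 9) (.e (nat_lit 336434) (nat_lit 30) (.e (nat_lit 458496) (nat_lit 0) .nil)))))) (.g (nat_lit 1) (.e (nat_lit 114340) (nat_lit 0) .nil) .nil))) 
(.lf (nat_lit 482068) (.g (nat_lit 1271) (.e (nat_lit 7098) (nat_lit 380) (.e (nat_lit 164294) (nat_lit 224) (.e (nat_lit 164092) (nat_lit 82) (.e (nat_lit 500046) (nat_lit 16) (.e (nat_lit 16463) (nat_lit 13) (.e (nat_lit 491264) (nat_lit 0) .nil)))))) (.g (nat_lit 1) (.e (nat_lit 118292) (nat_lit 0) .nil) .nil))))) (.nd (nat_lit 8) (.nd (nat_lit 9) 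
(.lf (nat_lit 481428) (.g (nat_lit 2263) (.e (nat_lit 5546) (nat_lit 306) (.e (nat_lit 2610) (nat_lit 163) (.e (nat_lit 163978) (nat_lit 30) (.e (nat_lit 573484) (nat_lit 13) (.e (nat_lit 65610) (nat_lit 10) .nil))))) (.g (nat_lit 0) (.e (nat_lit 113781) (nat_lit 0) .nil) .nil))) 
(.lf (nat_lit 481940) (.g (nat_lit 2415) (.e (nat_lit 7008) (nat_lit 377) (.e (nat_lit 2798) (nat_lit 180) (.e (nat_lit 303117) (nat_lit 2) (.e (nat_lit 196673) (nat_lit 15) (.e (nat_lit 81954) (nat_lit 23) .nil))))) (.g (nat_lit 0) (.e (nat_lit 118062) (nat_lit 0) .nil) .nil)))) (.nd (nat_lit 9) 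
(.lf (nat_lit 481684) (.g (nat_lit 2675) (.e (nat_lit 5587) (nat_lit 310) (.e (nat_lit 163907) (nat_lit 12) (.e (nat_lit 426320) (nat_lit 12) (.e (nat_lit 475209) (nat_lit 41) (.e (nat_lit 712753) (nat_lit 30) (.e (nat_lit 458496) (nat_lit 0) .nil)))))) (.g (nat_lit 1) (.e (nat_lit 115381) (nat_lit 0) .nil) .nil))) 
(.lf (nat_lit 482196) (.g (nat_lit 2805) (.e (nat_lit 7261) (nat_lit 384) (.e (nat_lit 57407) (nat_lit 12) (.e (nat_lit 336019) (nat_lit 3) (.e (nat_lit 98372) (nat_lit 29) (.e (nat_lit 450586) (nat_lit 10) (.e (nat_lit 573478) (nat_lit 12) (.e (nat_lit 57351) (nat_lit 0) .nil))))))) (.g (nat_lit 1) (.e (nat_lit 118842) (nat_lit 0) .nil) .nil)))))) 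
(.nd (nat_lit 7) (.nd (nat_lit 8) (.nd (nat_lit 9) 
(.lf (nat_lit 481364) (.g (nat_lit 1923) (.e (nat_lit 5448) (nat_lit 306) (.e (nat_lit 2622) (nat_lit 164) (.e (nat_lit 172124) (nat_lit 14) (.e (nat_lit 491550) (nat_lit 9) (.e (nat_lit 336434) (nat_lit 30) (.e (nat_lit 450568) (nat_lit 0) .nil)))))) (.g (nat_lit 1) (.e (nat_lit 113312) (nat_lit 0) .nil) .nil))) 
(.lf (nat_lit 481876) (.g (nat_lit 1107) (.e (nat_lit 6989) (nat_lit 377) (.e (nat_lit 2810) (nat_lit 180) (.e (nat_lit 303117) (nat_lit 2) (.e (nat_lit 196665) (nat_lit 13) .nil)))) (.g (nat_lit 0) (.e (nat_lit 117889) (nat_lit 0) .nil) .nil)))) (.nd (nat_lit 9) 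
(.lf (nat_lit 481620) (.g (nat_lit 4826) (.e (nat_lit 5548) (nat_lit 306) (.e (nat_lit 2610) (nat_lit 163) (.e (nat_lit 163979) (nat_lit 30) (.e (nat_lit 573493) (nat_lit 15) (.e (nat_lit 81953) (nat_lit 22) (.e (nat_lit 90170) (nat_lit 13) (.e (nat_lit 172046) (nat_lit 0) (.e (nat_lit 2458) (nat_lit 157) .nil)))))))) (.g (nat_lit 1) (.e (nat_lit 114569) (nat_lit 0) .nil) .nil))) 
(.lf (nat_lit 482132) (.g (nat_lit 2781) (.e (nat_lit 7280) (nat_lit 386) (.e (nat_lit 163875) (nat_lit 3) (.e (nat_lit 204837) (nat_lit 20) (.e (nat_lit 114719) (nat_lit 23) (.e (nat_lit 98354) (nat_lit 26) .nil))))) (.g (nat_lit 0) (.e (nat_lit 118624) (nat_lit 0) .nil) .nil))))) (.nd (nat_lit 8) (.nd (nat_lit 9) 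
(.lf (nat_lit 481492) (.g (nat_lit 1762) (.e (nat_lit 5546) (nat_lit 306) (.e (nat_lit 2640) (nat_lit 165) (.e (nat_lit 180277) (nat_lit 32) (.e (nat_lit 1427) (nat_lit 108) (.e (nat_lit 336432) (nat_lit 30) (.e (nat_lit 458496) (nat_lit 0) .nil)))))) (.g (nat_lit 1) (.e (nat_lit 114018) (nat_lit 0) .nil) .nil))) 
(.lf (nat_lit 482004) (.g (nat_lit 4244) (.e (nat_lit 7064) (nat_lit 377) (.e (nat_lit 1348) (nat_lit 102) (.e (nat_lit 286733) (nat_lit 2) (.e (nat_lit 90167) (nat_lit 13) (.e (nat_lit 172126) (nat_lit 14) (.e (nat_lit 491537) (nat_lit 2) (.e (nat_lit 90133) (nat_lit 9) (.e (nat_lit 2397) (nat_lit 157) .nil)))))))) (.g (nat_lit 1) (.e (nat_lit 118175) (nat_lit 0) .nil) .nil)))) (.nd (nat_lit 9) 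
(.lf (nat_lit 481748) (.g (nat_lit 1194) (.e (nat_lit 5599) (nat_lit 310) (.e (nat_lit 163874) (nat_lit 3) (.e (nat_lit 204861) (nat_lit 26) (.e (nat_lit 336213) (nat_lit 13) .nil)))) (.g (nat_lit 0) (.e (nat_lit 116985) (nat_lit 0) .nil) .nil))) 
(.lf (nat_lit 482260) (.g (nat_lit 4491) (.e (nat_lit 7265) (nat_lit 384) (.e (nat_lit 57406) (nat_lit 12) (.e (nat_lit 336018) (nat_lit 3) (.e (nat_lit 98373) (nat_lit 29) (.e (nat_lit 450587) (nat_lit 10) (.e (nat_lit 573478) (nat_lit 12) (.e (nat_lit 57351) (nat_lit 0) .nil))))))) (.g (nat_lit 1) (.e (nat_lit 118917) (nat_lit 0) .nil) .nil))))))) 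
(.nd (nat_lit 6) (.nd (nat_lit 7) (.nd (nat_lit 8) (.nd (nat_lit 9) 
(.lf (nat_lit 481332) (.g (nat_lit 737) (.e (nat_lit 5409) (nat_lit 303) (.e (nat_lit 73750) (nat_lit 6) (.e (nat_lit 540724) (nat_lit 28) (.e (nat_lit 442396) (nat_lit 20) (.e (nat_lit 3571) (nat_lit 222) (.e (nat_lit 737284) (nat_lit 0) .nil)))))) (.g (nat_lit 1) (.e (nat_lit 113032) (nat_lit 0) .nil) .nil))) 
(.lf (nat_lit 481844) (.g (nat_lit 2097) (.e (nat_lit 6948) (nat_lit 377) (.e (nat_lit 2802) (nat_lit 180) (.e (nat_lit 303117) (nat_lit 2) (.e (nat_lit 196673) (nat_lit 15) (.e (nat_lit 81956) (nat_lit 23) .nil))))) (.g (nat_lit 0) (.e (nat_lit 117820) (nat_lit 0) .nil) .nil)))) (.nd (nat_lit 9) 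
(.lf (nat_lit 481588) (.g (nat_lit 2263) (.e (nat_lit 5548) (nat_lit 306) (.e (nat_lit 2610) (nat_lit 163) (.e (nat_lit 163977) (nat_lit 30) (.e (nat_lit 573484) (nat_lit 13) (.e (nat_lit 65610) (nat_lit 10) (.e (nat_lit 344117) (nat_lit 21) (.e (nat_lit 516151) (nat_lit 9) (.e (nat_lit 426042) (nat_lit 0) (.e (nat_lit 2458) (nat_lit 157) .nil))))))))) (.g (nat_lit 1) (.e (nat_lit 114521) (nat_lit 0) .nil) .nil))) 
(.lf (nat_lit 482100) (.g (nat_lit 1198) (.e (nat_lit 7110) (nat_lit 380) (.e (nat_lit 164351) (nat_lit 246) (.e (nat_lit 2668) (nat_lit 167) (.e (nat_lit 196673) (nat_lit 15) .nil)))) (.g (nat_lit 0) (.e (nat_lit 118402) (nat_lit 0) .nil) .nil))))) (.nd (nat_lit 8) (.nd (nat_lit 9) 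
(.lf (nat_lit 481460) (.g (nat_lit 3611) (.e (nat_lit 5546) (nat_lit 306) (.e (nat_lit 2619) (nat_lit 164) (.e (nat_lit 172120) (nat_lit 12) (.e (nat_lit 475211) (nat_lit 41) (.e (nat_lit 712755) (nat_lit 30) (.e (nat_lit 458496) (nat_lit 0) .nil)))))) (.g (nat_lit 1) (.e (nat_lit 113893) (nat_lit 0) .nil) .nil))) 
(.lf (nat_lit 481972) (.g (nat_lit 1411) (.e (nat_lit 7016) (nat_lit 377) (.e (nat_lit 2798) (nat_lit 180) (.e (nat_lit 303117) (nat_lit 2) (.e (nat_lit 196672) (nat_lit 15) .nil)))) (.g (nat_lit 0) (.e (nat_lit 118112) (nat_lit 0) .nil) .nil)))) (.nd (nat_lit 9) 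
(.lf (nat_lit 481716) (.g (nat_lit 2703) (.e (nat_lit 5593) (nat_lit 310) (.e (nat_lit 163875) (nat_lit 3) (.e (nat_lit 204863) (nat_lit 27) (.e (nat_lit 344129) (nat_lit 26) (.e (nat_lit 557105) (nat_lit 14) .nil))))) (.g (nat_lit 0) (.e (nat_lit 116042) (nat_lit 0) .nil) .nil))) 
(.lf (nat_lit 482228) (.g (nat_lit 5100) (.e (nat_lit 7261) (nat_lit 384) (.e (nat_lit 57432) (nat_lit 16) (.e (nat_lit 368676) (nat_lit 21) (.e (nat_lit 516166) (nat_lit 12) (.e (nat_lit 450587) (nat_lit 10) (.e (nat_lit 573478) (nat_lit 12) (.e (nat_lit 57351) (nat_lit 0) .nil))))))) (.g (nat_lit 1) (.e (nat_lit 118876) (nat_lit 0) .nil) .nil)))))) 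
(.nd (nat_lit 7) (.nd (nat_lit 8) (.nd (nat_lit 9) 
(.lf (nat_lit 481396) (.g (nat_lit 2389) (.e (nat_lit 5543) (nat_lit 306) (.e (nat_lit 2629) (nat_lit 164) (.e (nat_lit 172124) (nat_lit 14) (.e (nat_lit 491550) (nat_lit 9) (.e (nat_lit 336432) (nat_lit 30) (.e (nat_lit 458496) (nat_lit 0) .nil)))))) (.g (nat_lit 1) (.e (nat_lit 113602) (nat_lit 0) .nil) .nil))) 
(.lf (nat_lit 481908) (.g (nat_lit 2043) (.e (nat_lit 6986) (nat_lit 377) (.e (nat_lit 2810) (nat_lit 180) (.e (nat_lit 303117) (nat_lit 2) (.e (nat_lit 196672) (nat_lit 15) (.e (nat_lit 81956) (nat_lit 23) .nil))))) (.g (nat_lit 0) (.e (nat_lit 117957) (nat_lit 0) .nil) .nil)))) (.nd (nat_lit 9) 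
(.lf (nat_lit 481652) (.g (nat_lit 1406) (.e (nat_lit 5586) (nat_lit 310) (.e (nat_lit 163905) (nat_lit 12) (.e (nat_lit 426320) (nat_lit 12) (.e (nat_lit 475211) (nat_lit 41) .nil)))) (.g (nat_lit 0) (.e (nat_lit 115107) (nat_lit 0) .nil) .nil))) 
(.lf (nat_lit 482164) (.g (nat_lit 2082) (.e (nat_lit 7290) (nat_lit 386) (.e (nat_lit 163864) (nat_lit 1) (.e (nat_lit 164332) (nat_lit 230) (.e (nat_lit 163902) (nat_lit 12) (.e (nat_lit 426472) (nat_lit 25) (.e (nat_lit 319533) (nat_lit 16) (.e (nat_lit 286753) (nat_lit 10) (.e (nat_lit 344099) (nat_lit 18) .nil)))))))) (.g (nat_lit 1) (.e (nat_lit 118753) (nat_lit 0) .nil) .nil))))) 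
(.nd (nat_lit 8) (.nd (nat_lit 9) 
(.lf (nat_lit 481524) (.g (nat_lit 2386) (.e (nat_lit 5547) (nat_lit 306) (.e (nat_lit 2610) (nat_lit 163) (.e (nat_lit 163979) (nat_lit 30) (.e (nat_lit 573482) (nat_lit 13) (.e (nat_lit 65604) (nat_lit 9) (.e (nat_lit 336013) (nat_lit 2) (.e (nat_lit 90170) (nat_lit 13) (.e (nat_lit 172032) (nat_lit 0) (.e (nat_lit 2458) (nat_lit 157) .nil))))))))) (.g (nat_lit 1) (.e (nat_lit 114211) (nat_lit 0) .nil) .nil))) 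
(.lf (nat_lit 482036) (.g (nat_lit 2841) (.e (nat_lit 7936) (nat_lit 377) (.e (nat_lit 2797) (nat_lit 180) (.e (nat_lit 303119) (nat_lit 3) (.e (nat_lit 204861) (nat_lit 26) (.e (nat_lit 336184) (nat_lit 11) .nil))))) (.g (nat_lit 0) (.e (nat_lit 118216) (nat_lit 0) .nil) .nil)))) (.nd (nat_lit 9) 
(.lf (nat_lit 481780) (.g (nat_lit 1865) (.e (nat_lit 5603) (nat_lit 310) (.e (nat_lit 163905) (nat_lit 12) (.e (nat_lit 426320) (nat_lit 12) (.e (nat_lit 475209) (nat_lit 41) (.e (nat_lit 712755) (nat_lit 30) (.e (nat_lit 458496) (nat_lit 0) .nil)))))) (.g (nat_lit 1) (.e (nat_lit 117455) (nat_lit 0) .nil) .nil))) 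
(.lf (nat_lit 482292) (.g (nat_lit 5990) (.e (nat_lit 7265) (nat_lit 384) (.e (nat_lit 57406) (nat_lit 12) (.e (nat_lit 336019) (nat_lit 3) (.e (nat_lit 98373) (nat_lit 29) (.e (nat_lit 450588) (nat_lit 10) (.e (nat_lit 573475) (nat_lit 12) (.e (nat_lit 57353) (nat_lit 0) .nil))))))) (.g (nat_lit 1) (.e (nat_lit 118949) (nat_lit 0) .nil) .nil))))))))) 
(.nd (nat_lit 4) (.nd (nat_lit 5) (.nd (nat_lit 6) (.nd (nat_lit 7) (.nd (nat_lit 8) 
(.nd (nat_lit 9) 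
(.lf (nat_lit 481292) (.g (nat_lit 2387) (.e (nat_lit 5394) (nat_lit 301) (.e (nat_lit 57464) (nat_lit 23) (.e (nat_lit 516165) (nat_lit 12) (.e (nat_lit 450586) (nat_lit 10) (.e (nat_lit 573457) (nat_lit 9) (.e (nat_lit 359) (nat_lit 30) (.e (nat_lit 409605) (nat_lit 0) .nil))))))) (.g (nat_lit 1) (.e (nat_lit 112931) (nat_lit 0) .nil) .nil))) 
(.lf (nat_lit 481804) (.g (nat_lit 4769) (.e (nat_lit 6853) (nat_lit 371) (.e (nat_lit 2450) (nat_lit 157) (.e (nat_lit 3098) (nat_lit 192) (.e (nat_lit 491569) (nat_lit 13) (.e (nat_lit 393301) (nat_lit 27) (.e (nat_lit 491559) (nat_lit 10) (.e (nat_lit 344091) (nat_lit 18) .nil))))))) (.g (nat_lit 1) (.e (nat_lit 117749) (nat_lit 0) .nil) .nil)))) (.nd (nat_lit 9) 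
(.lf (nat_lit 481548) (.g (nat_lit 2180) (.e (nat_lit 5547) (nat_lit 306) (.e (nat_lit 2628) (nat_lit 164) (.e (nat_lit 172118) (nat_lit 12) (.e (nat_lit 475211) (nat_lit 41) (.e (nat_lit 712753) (nat_lit 30) (.e (nat_lit 458496) (nat_lit 0) .nil)))))) (.g (nat_lit 1) (.e (nat_lit 114320) (nat_lit 0) .nil) .nil))) 
(.lf (nat_lit 482060) (.g (nat_lit 1442) (.e (nat_lit 7096) (nat_lit 380) (.e (nat_lit 171776) (nat_lit 234) (.e (nat_lit 16470) (nat_lit 14) (.e (nat_lit 491571) (nat_lit 13) (.e (nat_lit 401152) (nat_lit 17) .nil))))) (.g (nat_lit 1) (.e (nat_lit 118266) (nat_lit 0) .nil) .nil))))) (.nd (nat_lit 8) (.nd (nat_lit 9) 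
(.lf (nat_lit 481420) (.g (nat_lit 2045) (.e (nat_lit 5546) (nat_lit 306) (.e (nat_lit 2610) (nat_lit 163) (.e (nat_lit 163977) (nat_lit 30) (.e (nat_lit 573482) (nat_lit 13) (.e (nat_lit 65604) (nat_lit 9) .nil))))) (.g (nat_lit 0) (.e (nat_lit 113772) (nat_lit 0) .nil) .nil))) 
(.lf (nat_lit 481932) (.g (nat_lit 1769) (.e (nat_lit 7011) (nat_lit 377) (.e (nat_lit 2797) (nat_lit 180) (.e (nat_lit 303117) (nat_lit 2) (.e (nat_lit 196674) (nat_lit 15) .nil)))) (.g (nat_lit 0) (.e (nat_lit 118047) (nat_lit 0) .nil) .nil)))) (.nd (nat_lit 9) 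
(.lf (nat_lit 481676) (.g (nat_lit 2237) (.e (nat_lit 5587) (nat_lit 310) (.e (nat_lit 163906) (nat_lit 12) (.e (nat_lit 426320) (nat_lit 12) (.e (nat_lit 475209) (nat_lit 41) (.e (nat_lit 712755) (nat_lit 30) (.e (nat_lit 458496) (nat_lit 0) .nil)))))) (.g (nat_lit 1) (.e (nat_lit 115362) (nat_lit 0) .nil) .nil))) 
(.lf (nat_lit 482188) (.g (nat_lit 3564) (.e (nat_lit 7261) (nat_lit 384) (.e (nat_lit 57407) (nat_lit 12) (.e (nat_lit 336019) (nat_lit 3) (.e (nat_lit 98372) (nat_lit 29) (.e (nat_lit 450586) (nat_lit 10) (.e (nat_lit 573473) (nat_lit 12) (.e (nat_lit 57348) (nat_lit 0) .nil))))))) (.g (nat_lit 1) (.e (nat_lit 118834) (nat_lit 0) .nil) .nil)))))) 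
(.nd (nat_lit 7) (.nd (nat_lit 8) (.nd (nat_lit 9) 
(.lf (nat_lit 481356) (.g (nat_lit 4987) (.e (nat_lit 5448) (nat_lit 306) (.e (nat_lit 2612) (nat_lit 163) (.e (nat_lit 163977) (nat_lit 30) (.e (nat_lit 573493) (nat_lit 15) (.e (nat_lit 81953) (nat_lit 22) (.e (nat_lit 90174) (nat_lit 14) (.e (nat_lit 180232) (nat_lit 0) .nil))))))) (.g (nat_lit 1) (.e (nat_lit 113298) (nat_lit 0) .nil) .nil))) 
(.lf (nat_lit 481868) (.g (nat_lit 2079) (.e (nat_lit 6970) (nat_lit 377) (.e (nat_lit 1374) (nat_lit 104) (.e (nat_lit 303119) (nat_lit 3) (.e (nat_lit 204846) (nat_lit 24) (.e (nat_lit 319532) (nat_lit 16) .nil))))) (.g (nat_lit 0) (.e (nat_lit 117864) (nat_lit 0) .nil) .nil)))) (.nd (nat_lit 9) 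
(.lf (nat_lit 481612) (.g (nat_lit 3820) (.e (nat_lit 5548) (nat_lit 306) (.e (nat_lit 2610) (nat_lit 163) (.e (nat_lit 163979) (nat_lit 30) (.e (nat_lit 573482) (nat_lit 13) (.e (nat_lit 65604) (nat_lit 9) (.e (nat_lit 336028) (nat_lit 3) (.e (nat_lit 98359) (nat_lit 26) (.e (nat_lit 426039) (nat_lit 0) (.e (nat_lit 2458) (nat_lit 157) .nil))))))))) (.g (nat_lit 1) (.e (nat_lit 114554) (nat_lit 0) .nil) .nil))) 
(.lf (nat_lit 482124) (.g (nat_lit 3063) (.e (nat_lit 7280) (nat_lit 386) (.e (nat_lit 163875) (nat_lit 3) (.e (nat_lit 204830) (nat_lit 18) (.e (nat_lit 57852) (nat_lit 252) (.e (nat_lit 57409) (nat_lit 12) (.e (nat_lit 336019) (nat_lit 3) (.e (nat_lit 98384) (nat_lit 32) (.e (nat_lit 475163) (nat_lit 21) .nil)))))))) (.g (nat_lit 1) (.e (nat_lit 118616) (nat_lit 0) .nil) .nil))))) 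
(.nd (nat_lit 8) (.nd (nat_lit 9) 
(.lf (nat_lit 481484) (.g (nat_lit 3419) (.e (nat_lit 5546) (nat_lit 306) (.e (nat_lit 2638) (nat_lit 165) (.e (nat_lit 180278) (nat_lit 32) (.e (nat_lit 1661) (nat_lit 115) (.e (nat_lit 393283) (nat_lit 24) (.e (nat_lit 434209) (nat_lit 18) .nil)))))) (.g (nat_lit 1) (.e (nat_lit 114003) (nat_lit 0) .nil) .nil))) 
(.lf (nat_lit 481996) (.g (nat_lit 1940) (.e (nat_lit 7073) (nat_lit 377) (.e (nat_lit 2797) (nat_lit 180) (.e (nat_lit 303119) (nat_lit 3) (.e (nat_lit 204868) (nat_lit 29) .nil)))) (.g (nat_lit 0) (.e (nat_lit 118156) (nat_lit 0) .nil) .nil)))) (.nd (nat_lit 9) 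
(.lf (nat_lit 481740) (.g (nat_lit 870) (.e (nat_lit 5598) (nat_lit 310) (.e (nat_lit 163902) (nat_lit 12) (.e (nat_lit 426556) (nat_lit 32) (.e (nat_lit 376865) (nat_lit 22) .nil)))) (.g (nat_lit 0) (.e (nat_lit 116725) (nat_lit 0) .nil) .nil))) 
(.lf (nat_lit 482252) (.g (nat_lit 812) (.e (nat_lit 7265) (nat_lit 384) (.e (nat_lit 57389) (nat_lit 5) (.e (nat_lit 114723) (nat_lit 24) (.e (nat_lit 106533) (nat_lit 10) .nil)))) (.g (nat_lit 0) (.e (nat_lit 118908) (nat_lit 0) .nil) .nil))))))) (.nd (nat_lit 6) (.nd (nat_lit 7) (.nd (nat_lit 8) (.nd (nat_lit 9) 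
(.lf (nat_lit 481324) (.g (nat_lit 2061) (.e (nat_lit 5399) (nat_lit 302) (.e (nat_lit 65653) (nat_lit 27) (.e (nat_lit 426343) (nat_lit 14) (.e (nat_lit 491546) (nat_lit 9) (.e (nat_lit 343808) (nat_lit 25) .nil))))) (.g (nat_lit 0) (.e (nat_lit 112980) (nat_lit 0) .nil) .nil))) 
(.lf (nat_lit 481836) (.g (nat_lit 3278) (.e (nat_lit 6943) (nat_lit 375) (.e (nat_lit 163945) (nat_lit 20) (.e (nat_lit 491571) (nat_lit 13) (.e (nat_lit 393299) (nat_lit 27) (.e (nat_lit 491560) (nat_lit 10) (.e (nat_lit 344091) (nat_lit 18) .nil)))))) (.g (nat_lit 1) (.e (nat_lit 117810) (nat_lit 0) .nil) .nil)))) (.nd (nat_lit 9) 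
(.lf (nat_lit 481580) (.g (nat_lit 1630) (.e (nat_lit 5547) (nat_lit 306) (.e (nat_lit 2649) (nat_lit 166) (.e (nat_lit 188427) (nat_lit 20) (.e (nat_lit 3397) (nat_lit 211) (.e (nat_lit 647183) (nat_lit 4) .nil))))) (.g (nat_lit 0) (.e (nat_lit 114423) (nat_lit 0) .nil) .nil))) 
(.lf (nat_lit 482092) (.g (nat_lit 1459) (.e (nat_lit 7106) (nat_lit 380) (.e (nat_lit 164291) (nat_lit 224) (.e (nat_lit 164092) (nat_lit 82) (.e (nat_lit 500046) (nat_lit 16) (.e (nat_lit 16466) (nat_lit 13) (.e (nat_lit 491264) (nat_lit 0) .nil)))))) (.g (nat_lit 1) (.e (nat_lit 118363) (nat_lit 0) .nil) .nil))))) (.nd (nat_lit 8) (.nd (nat_lit 9) 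
(.lf (nat_lit 481452) (.g (nat_lit 2005) (.e (nat_lit 5546) (nat_lit 306) (.e (nat_lit 2618) (nat_lit 164) (.e (nat_lit 172124) (nat_lit 14) (.e (nat_lit 491550) (nat_lit 9) (.e (nat_lit 336434) (nat_lit 30) (.e (nat_lit 458496) (nat_lit 0) .nil)))))) (.g (nat_lit 1) (.e (nat_lit 113850) (nat_lit 0) .nil) .nil))) 
(.lf (nat_lit 481964) (.g (nat_lit 1769) (.e (nat_lit 7015) (nat_lit 377) (.e (nat_lit 2797) (nat_lit 180) (.e (nat_lit 303117) (nat_lit 2) (.e (nat_lit 196674) (nat_lit 15) .nil)))) (.g (nat_lit 0) (.e (nat_lit 118097) (nat_lit 0) .nil) .nil)))) (.nd (nat_lit 9) 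
(.lf (nat_lit 481708) (.g (nat_lit 481) (.e (nat_lit 5589) (nat_lit 310) (.e (nat_lit 163944) (nat_lit 19) (.e (nat_lit 483393) (nat_lit 23) .nil))) (.g (nat_lit 0) (.e (nat_lit 115868) (nat_lit 0) .nil) .nil))) 
(.lf (nat_lit 482220) (.g (nat_lit 5817) (.e (nat_lit 7261) (nat_lit 384) (.e (nat_lit 57430) (nat_lit 16) (.e (nat_lit 368676) (nat_lit 21) (.e (nat_lit 516166) (nat_lit 12) (.e (nat_lit 450588) (nat_lit 10) (.e (nat_lit 573473) (nat_lit 12) (.e (nat_lit 57348) (nat_lit 0) .nil))))))) (.g (nat_lit 1) (.e (nat_lit 118868) (nat_lit 0) .nil) .nil)))))) 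
(.nd (nat_lit 7) (.nd (nat_lit 8) (.nd (nat_lit 9) 
(.lf (nat_lit 481388) (.g (nat_lit 2681) (.e (nat_lit 5543) (nat_lit 306) (.e (nat_lit 2628) (nat_lit 164) (.e (nat_lit 172120) (nat_lit 12) (.e (nat_lit 475211) (nat_lit 41) (.e (nat_lit 712753) (nat_lit 30) (.e (nat_lit 458496) (nat_lit 0) .nil)))))) (.g (nat_lit 1) (.e (nat_lit 113576) (nat_lit 0) .nil) .nil))) 
(.lf (nat_lit 481900) (.g (nat_lit 1046) (.e (nat_lit 6989) (nat_lit 377) (.e (nat_lit 1361) (nat_lit 102) (.e (nat_lit 286761) (nat_lit 13) (.e (nat_lit 393270) (nat_lit 23) .nil)))) (.g (nat_lit 0) (.e (nat_lit 117948) (nat_lit 0) .nil) .nil)))) (.nd (nat_lit 9) 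
(.lf (nat_lit 481644) (.g (nat_lit 2266) (.e (nat_lit 5584) (nat_lit 310) (.e (nat_lit 163908) (nat_lit 12) (.e (nat_lit 426305) (nat_lit 12) (.e (nat_lit 475211) (nat_lit 41) (.e (nat_lit 712755) (nat_lit 30) (.e (nat_lit 450569) (nat_lit 0) .nil)))))) (.g (nat_lit 1) (.e (nat_lit 114971) (nat_lit 0) .nil) .nil))) 
(.lf (nat_lit 482156) (.g (nat_lit 2776) (.e (nat_lit 7289) (nat_lit 386) (.e (nat_lit 163875) (nat_lit 3) (.e (nat_lit 204837) (nat_lit 20) (.e (nat_lit 114719) (nat_lit 23) (.e (nat_lit 98354) (nat_lit 26) .nil))))) (.g (nat_lit 0) (.e (nat_lit 118729) (nat_lit 0) .nil) .nil))))) (.nd (nat_lit 8) (.nd (nat_lit 9) 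
(.lf (nat_lit 481516) (.g (nat_lit 2354) (.e (nat_lit 5547) (nat_lit 306) (.e (nat_lit 2610) (nat_lit 163) (.e (nat_lit 163978) (nat_lit 30) (.e (nat_lit 573484) (nat_lit 13) (.e (nat_lit 65610) (nat_lit 10) (.e (nat_lit 344117) (nat_lit 21) (.e (nat_lit 516145) (nat_lit 9) (.e (nat_lit 425992) (nat_lit 0) (.e (nat_lit 2453) (nat_lit 157) .nil))))))))) (.g (nat_lit 1) (.e (nat_lit 114199) (nat_lit 0) .nil) .nil))) 
(.lf (nat_lit 482028) (.g (nat_lit 811) (.e (nat_lit 7936) (nat_lit 377) (.e (nat_lit 2797) (nat_lit 180) (.e (nat_lit 303117) (nat_lit 2) (.e (nat_lit 196674) (nat_lit 15) .nil)))) (.g (nat_lit 0) (.e (nat_lit 118206) (nat_lit 0) .nil) .nil)))) (.nd (nat_lit 9) 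
(.lf (nat_lit 481772) (.g (nat_lit 2639) (.e (nat_lit 5601) (nat_lit 310) (.e (nat_lit 163874) (nat_lit 3) (.e (nat_lit 204863) (nat_lit 27) (.e (nat_lit 344132) (nat_lit 26) (.e (nat_lit 557105) (nat_lit 14) .nil))))) (.g (nat_lit 0) (.e (nat_lit 117287) (nat_lit 0) .nil) .nil))) 
(.lf (nat_lit 482284) (.g (nat_lit 5358) (.e (nat_lit 7265) (nat_lit 384) (.e (nat_lit 57406) (nat_lit 12) (.e (nat_lit 336019) (nat_lit 3) (.e (nat_lit 98373) (nat_lit 29) (.e (nat_lit 450587) (nat_lit 10) (.e (nat_lit 573478) (nat_lit 12) (.e (nat_lit 57351) (nat_lit 0) .nil))))))) (.g (nat_lit 1) (.e (nat_lit 118941) (nat_lit 0) .nil) .nil)))))))) 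
(.nd (nat_lit 5) (.nd (nat_lit 6) (.nd (nat_lit 7) (.nd (nat_lit 8) (.nd (nat_lit 9) 
(.lf (nat_lit 481308) (.g (nat_lit 1349) (.e (nat_lit 5395) (nat_lit 301) (.e (nat_lit 57464) (nat_lit 23) (.e (nat_lit 516163) (nat_lit 11) (.e (nat_lit 442424) (nat_lit 22) (.e (nat_lit 204544) (nat_lit 18) .nil))))) (.g (nat_lit 0) (.e (nat_lit 112951) (nat_lit 0) .nil) .nil))) 
(.lf (nat_lit 481820) (.g (nat_lit 4327) (.e (nat_lit 6940) (nat_lit 375) (.e (nat_lit 163945) (nat_lit 20) (.e (nat_lit 491569) (nat_lit 13) (.e (nat_lit 393301) (nat_lit 27) (.e (nat_lit 491559) (nat_lit 10) (.e (nat_lit 344091) (nat_lit 18) .nil)))))) (.g (nat_lit 1) (.e (nat_lit 117787) (nat_lit 0) .nil) .nil)))) (.nd (nat_lit 9) 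
(.lf (nat_lit 481564) (.g (nat_lit 557) (.e (nat_lit 5547) (nat_lit 306) (.e (nat_lit 2638) (nat_lit 165) (.e (nat_lit 180277) (nat_lit 32) .nil))) (.g (nat_lit 0) (.e (nat_lit 114382) (nat_lit 0) .nil) .nil))) 
(.lf (nat_lit 482076) (.g (nat_lit 1092) (.e (nat_lit 7098) (nat_lit 380) (.e (nat_lit 164368) (nat_lit 247) (.e (nat_lit 8318) (nat_lit 64) (.e (nat_lit 516149) (nat_lit 9) (.e (nat_lit 426323) (nat_lit 13) (.e (nat_lit 483332) (nat_lit 0) .nil)))))) (.g (nat_lit 1) (.e (nat_lit 118309) (nat_lit 0) .nil) .nil))))) (.nd (nat_lit 8) (.nd (nat_lit 9) 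
(.lf (nat_lit 481436) (.g (nat_lit 3806) (.e (nat_lit 5546) (nat_lit 306) (.e (nat_lit 2611) (nat_lit 163) (.e (nat_lit 163977) (nat_lit 30) (.e (nat_lit 573482) (nat_lit 13) (.e (nat_lit 65604) (nat_lit 9) (.e (nat_lit 336013) (nat_lit 2) (.e (nat_lit 90170) (nat_lit 13) (.e (nat_lit 172042) (nat_lit 0) (.e (nat_lit 2458) (nat_lit 157) .nil))))))))) (.g (nat_lit 1) (.e (nat_lit 113796) (nat_lit 0) .nil) .nil))) 
(.lf (nat_lit 481948) (.g (nat_lit 1774) (.e (nat_lit 7013) (nat_lit 377) (.e (nat_lit 2797) (nat_lit 180) (.e (nat_lit 303119) (nat_lit 3) (.e (nat_lit 212736) (nat_lit 26) .nil)))) (.g (nat_lit 0) (.e (nat_lit 118075) (nat_lit 0) .nil) .nil)))) (.nd (nat_lit 9) 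
(.lf (nat_lit 481692) (.g (nat_lit 459) (.e (nat_lit 5587) (nat_lit 310) (.e (nat_lit 163933) (nat_lit 17) (.e (nat_lit 474880) (nat_lit 4) .nil))) (.g (nat_lit 0) (.e (nat_lit 115426) (nat_lit 0) .nil) .nil))) 
(.lf (nat_lit 482204) (.g (nat_lit 7040) (.e (nat_lit 7261) (nat_lit 384) (.e (nat_lit 57407) (nat_lit 12) (.e (nat_lit 336019) (nat_lit 3) (.e (nat_lit 98373) (nat_lit 29) (.e (nat_lit 450588) (nat_lit 10) (.e (nat_lit 573475) (nat_lit 12) (.e (nat_lit 57347) (nat_lit 0) .nil))))))) (.g (nat_lit 1) (.e (nat_lit 118850) (nat_lit 0) .nil) .nil)))))) 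
(.nd (nat_lit 7) (.nd (nat_lit 8) (.nd (nat_lit 9) 
(.lf (nat_lit 481372) (.g (nat_lit 1457) (.e (nat_lit 5537) (nat_lit 306) (.e (nat_lit 2625) (nat_lit 164) (.e (nat_lit 172119) (nat_lit 12) (.e (nat_lit 475211) (nat_lit 41) (.e (nat_lit 712753) (nat_lit 30) .nil))))) (.g (nat_lit 0) (.e (nat_lit 113484) (nat_lit 0) .nil) .nil))) 
(.lf (nat_lit 481884) (.g (nat_lit 1703) (.e (nat_lit 6989) (nat_lit 377) (.e (nat_lit 2810) (nat_lit 180) (.e (nat_lit 303119) (nat_lit 3) (.e (nat_lit 204865) (nat_lit 28) (.e (nat_lit 352314) (nat_lit 23) .nil))))) (.g (nat_lit 0) (.e (nat_lit 117897) (nat_lit 0) .nil) .nil)))) (.nd (nat_lit 9) 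
(.lf (nat_lit 481628) (.g (nat_lit 2755) (.e (nat_lit 5548) (nat_lit 306) (.e (nat_lit 2611) (nat_lit 163) (.e (nat_lit 163979) (nat_lit 30) (.e (nat_lit 573482) (nat_lit 13) (.e (nat_lit 65604) (nat_lit 9) (.e (nat_lit 336013) (nat_lit 2) (.e (nat_lit 90170) (nat_lit 13) (.e (nat_lit 172049) (nat_lit 0) (.e (nat_lit 2458) (nat_lit 157) .nil))))))))) (.g (nat_lit 1) (.e (nat_lit 114588) (nat_lit 0) .nil) .nil))) 
(.lf (nat_lit 482140) (.g (nat_lit 2518) (.e (nat_lit 7281) (nat_lit 386) (.e (nat_lit 163875) (nat_lit 3) (.e (nat_lit 204829) (nat_lit 18) (.e (nat_lit 57847) (nat_lit 252) (.e (nat_lit 57410) (nat_lit 12) .nil))))) (.g (nat_lit 0) (.e (nat_lit 118648) (nat_lit 0) .nil) .nil))))) (.nd (nat_lit 8) (.nd (nat_lit 9) 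
(.lf (nat_lit 481500) (.g (nat_lit 2655) (.e (nat_lit 5546) (nat_lit 306) (.e (nat_lit 2648) (nat_lit 166) (.e (nat_lit 188420) (nat_lit 0) (.e (nat_lit 2174) (nat_lit 143) (.e (nat_lit 712755) (nat_lit 30) (.e (nat_lit 458496) (nat_lit 0) .nil)))))) (.g (nat_lit 1) (.e (nat_lit 114028) (nat_lit 0) .nil) .nil))) 
(.lf (nat_lit 482012) (.g (nat_lit 3925) (.e (nat_lit 7064) (nat_lit 377) (.e (nat_lit 1349) (nat_lit 102) (.e (nat_lit 286735) (nat_lit 3) (.e (nat_lit 98353) (nat_lit 25) (.e (nat_lit 417809) (nat_lit 6) (.e (nat_lit 286733) (nat_lit 2) (.e (nat_lit 90133) (nat_lit 9) (.e (nat_lit 2400) (nat_lit 157) .nil)))))))) (.g (nat_lit 1) (.e (nat_lit 118186) (nat_lit 0) .nil) .nil)))) (.nd (nat_lit 9) 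
(.lf (nat_lit 481756) (.g (nat_lit 361) (.e (nat_lit 5599) (nat_lit 310) (.e (nat_lit 163905) (nat_lit 12) (.e (nat_lit 426320) (nat_lit 12) .nil))) (.g (nat_lit 0) (.e (nat_lit 117122) (nat_lit 0) .nil) .nil))) 
(.lf (nat_lit 482268) (.g (nat_lit 4059) (.e (nat_lit 7265) (nat_lit 384) (.e (nat_lit 57406) (nat_lit 12) (.e (nat_lit 336019) (nat_lit 3) (.e (nat_lit 98359) (nat_lit 26) (.e (nat_lit 426286) (nat_lit 10) (.e (nat_lit 434245) (nat_lit 28) (.e (nat_lit 573474) (nat_lit 12) (.e (nat_lit 57347) (nat_lit 0) .nil)))))))) (.g (nat_lit 1) (.e (nat_lit 118925) (nat_lit 0) .nil) .nil))))))) 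
(.nd (nat_lit 6) (.nd (nat_lit 7) (.nd (nat_lit 8) (.nd (nat_lit 9) 
(.lf (nat_lit 481340) (.g (nat_lit 789) (.e (nat_lit 5412) (nat_lit 303) (.e (nat_lit 73750) (nat_lit 6) (.e (nat_lit 540724) (nat_lit 28) (.e (nat_lit 442396) (nat_lit 20) (.e (nat_lit 3571) (nat_lit 222) (.e (nat_lit 737284) (nat_lit 0) .nil)))))) (.g (nat_lit 1) (.e (nat_lit 113072) (nat_lit 0) .nil) .nil))) 
(.lf (nat_lit 481852) (.g (nat_lit 523) (.e (nat_lit 6966) (nat_lit 377) (.e (nat_lit 2797) (nat_lit 180) (.e (nat_lit 303119) (nat_lit 3) .nil))) (.g (nat_lit 0) (.e (nat_lit 117831) (nat_lit 0) .nil) .nil)))) (.nd (nat_lit 9) 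
(.lf (nat_lit 481596) (.g (nat_lit 2627) (.e (nat_lit 5548) (nat_lit 306) (.e (nat_lit 2610) (nat_lit 163) (.e (nat_lit 163978) (nat_lit 30) (.e (nat_lit 573479) (nat_lit 13) (.e (nat_lit 65619) (nat_lit 10) .nil))))) (.g (nat_lit 0) (.e (nat_lit 114533) (nat_lit 0) .nil) .nil))) 
(.lf (nat_lit 482108) (.g (nat_lit 1139) (.e (nat_lit 7122) (nat_lit 382) (.e (nat_lit 1201) (nat_lit 88) (.e (nat_lit 65599) (nat_lit 9) (.e (nat_lit 343808) (nat_lit 31) .nil)))) (.g (nat_lit 0) (.e (nat_lit 118446) (nat_lit 0) .nil) .nil))))) (.nd (nat_lit 8) (.nd (nat_lit 9) 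
(.lf (nat_lit 481468) (.g (nat_lit 1210) (.e (nat_lit 5546) (nat_lit 306) (.e (nat_lit 2629) (nat_lit 164) (.e (nat_lit 172124) (nat_lit 14) (.e (nat_lit 491550) (nat_lit 9) .nil)))) (.g (nat_lit 0) (.e (nat_lit 113969) (nat_lit 0) .nil) .nil))) 
(.lf (nat_lit 481980) (.g (nat_lit 812) (.e (nat_lit 7017) (nat_lit 377) (.e (nat_lit 2797) (nat_lit 180) (.e (nat_lit 303119) (nat_lit 3) .nil))) (.g (nat_lit 0) (.e (nat_lit 118121) (nat_lit 0) .nil) .nil)))) (.nd (nat_lit 9) 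
(.lf (nat_lit 481724) (.g (nat_lit 2147) (.e (nat_lit 5594) (nat_lit 310) (.e (nat_lit 163908) (nat_lit 12) (.e (nat_lit 426305) (nat_lit 12) (.e (nat_lit 475211) (nat_lit 41) (.e (nat_lit 712755) (nat_lit 30) (.e (nat_lit 458496) (nat_lit 0) .nil)))))) (.g (nat_lit 1) (.e (nat_lit 116106) (nat_lit 0) .nil) .nil))) 
(.lf (nat_lit 482236) (.g (nat_lit 1712) (.e (nat_lit 7263) (nat_lit 384) (.e (nat_lit 57409) (nat_lit 12) (.e (nat_lit 336019) (nat_lit 3) (.e (nat_lit 98372) (nat_lit 29) .nil)))) (.g (nat_lit 0) (.e (nat_lit 118885) (nat_lit 0) .nil) .nil)))))) (.nd (nat_lit 7) (.nd (nat_lit 8) (.nd (nat_lit 9) 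
(.lf (nat_lit 481404) (.g (nat_lit 1839) (.e (nat_lit 5543) (nat_lit 306) (.e (nat_lit 2648) (nat_lit 166) (.e (nat_lit 188420) (nat_lit 0) (.e (nat_lit 2174) (nat_lit 143) (.e (nat_lit 712753) (nat_lit 30) (.e (nat_lit 458496) (nat_lit 0) .nil)))))) (.g (nat_lit 1) (.e (nat_lit 113631) (nat_lit 0) .nil) .nil))) 
(.lf (nat_lit 481916) (.g (nat_lit 5237) (.e (nat_lit 6986) (nat_lit 377) (.e (nat_lit 2782) (nat_lit 178) (.e (nat_lit 286765) (nat_lit 15) (.e (nat_lit 3307) (nat_lit 202) (.e (nat_lit 573485) (nat_lit 13) (.e (nat_lit 65619) (nat_lit 10) (.e (nat_lit 344117) (nat_lit 21) (.e (nat_lit 516106) (nat_lit 0) .nil)))))))) (.g (nat_lit 1) (.e (nat_lit 117979) (nat_lit 0) .nil) .nil)))) 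
(.nd (nat_lit 9) 
(.lf (nat_lit 481660) (.g (nat_lit 560) (.e (nat_lit 5587) (nat_lit 310) (.e (nat_lit 163873) (nat_lit 3) (.e (nat_lit 204861) (nat_lit 26) .nil))) (.g (nat_lit 0) (.e (nat_lit 115248) (nat_lit 0) .nil) .nil))) 
(.lf (nat_lit 482172) (.g (nat_lit 498) (.e (nat_lit 7261) (nat_lit 384) (.e (nat_lit 57389) (nat_lit 5) (.e (nat_lit 114702) (nat_lit 20) .nil))) (.g (nat_lit 0) (.e (nat_lit 118811) (nat_lit 0) .nil) .nil))))) (.nd (nat_lit 8) (.nd (nat_lit 9) 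
(.lf (nat_lit 481532) (.g (nat_lit 4282) (.e (nat_lit 5547) (nat_lit 306) (.e (nat_lit 2611) (nat_lit 163) (.e (nat_lit 163979) (nat_lit 30) (.e (nat_lit 573482) (nat_lit 13) (.e (nat_lit 65604) (nat_lit 9) (.e (nat_lit 336013) (nat_lit 2) (.e (nat_lit 90170) (nat_lit 13) (.e (nat_lit 172042) (nat_lit 0) (.e (nat_lit 2458) (nat_lit 157) .nil))))))))) (.g (nat_lit 1) (.e (nat_lit 114235) (nat_lit 0) .nil) .nil))) 
(.lf (nat_lit 482044) (.g (nat_lit 2255) (.e (nat_lit 7936) (nat_lit 377) (.e (nat_lit 2798) (nat_lit 180) (.e (nat_lit 303117) (nat_lit 2) (.e (nat_lit 196672) (nat_lit 15) (.e (nat_lit 81956) (nat_lit 23) .nil))))) (.g (nat_lit 0) (.e (nat_lit 118236) (nat_lit 0) .nil) .nil)))) (.nd (nat_lit 9) 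
(.lf (nat_lit 481788) (.g (nat_lit 1272) (.e (nat_lit 7936) (nat_lit 310) (.e (nat_lit 163906) (nat_lit 12) (.e (nat_lit 426320) (nat_lit 12) (.e (nat_lit 475209) (nat_lit 41) (.e (nat_lit 712755) (nat_lit 30) .nil))))) (.g (nat_lit 0) (.e (nat_lit 117648) (nat_lit 0) .nil) .nil))) 
(.lf (nat_lit 482300) (.g (nat_lit 3016) (.e (nat_lit 7265) (nat_lit 384) (.e (nat_lit 57406) (nat_lit 12) (.e (nat_lit 336316) (nat_lit 17) (.e (nat_lit 196666) (nat_lit 13) (.e (nat_lit 65628) (nat_lit 14) (.e (nat_lit 401472) (nat_lit 28) (.e (nat_lit 344094) (nat_lit 18) .nil))))))) (.g (nat_lit 1) (.e (nat_lit 118957) (nat_lit 0) .nil) .nil))))))))))) 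
(.nd (nat_lit 2) (.nd (nat_lit 3) (.nd (nat_lit 4) (.nd (nat_lit 5) (.nd (nat_lit 6) 
(.nd (nat_lit 7) (.nd (nat_lit 8) (.nd (nat_lit 9) 
(.lf (nat_lit 481282) (.g (nat_lit 2194) (.e (nat_lit 5391) (nat_lit 301) (.e (nat_lit 57464) (nat_lit 23) (.e (nat_lit 516151) (nat_lit 9) (.e (nat_lit 426211) (nat_lit 9) .nil)))) (.g (nat_lit 0) (.e (nat_lit 112901) (nat_lit 0) .nil) .nil))) 
(.lf (nat_lit 481794) (.g (nat_lit 770) (.e (nat_lit 5566) (nat_lit 308) (.e (nat_lit 57375) (nat_lit 2) (.e (nat_lit 90172) (nat_lit 14) .nil))) (.g (nat_lit 0) (.e (nat_lit 117695) (nat_lit 0) .nil) .nil)))) (.nd (nat_lit 9) 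
(.lf (nat_lit 481538) (.g (nat_lit 2998) (.e (nat_lit 5547) (nat_lit 306) (.e (nat_lit 2619) (nat_lit 164) (.e (nat_lit 172120) (nat_lit 12) (.e (nat_lit 475210) (nat_lit 41) (.e (nat_lit 712753) (nat_lit 30) (.e (nat_lit 458496) (nat_lit 0) .nil)))))) (.g (nat_lit 1) (.e (nat_lit 114278) (nat_lit 0) .nil) .nil))) 
(.lf (nat_lit 482050) (.g (nat_lit 441) (.e (nat_lit 7095) (nat_lit 380) (.e (nat_lit 164359) (nat_lit 246) (.e (nat_lit 2661) (nat_lit 167) .nil))) (.g (nat_lit 0) (.e (nat_lit 118250) (nat_lit 0) .nil) .nil))))) (.nd (nat_lit 8) (.nd (nat_lit 9) 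
(.lf (nat_lit 481410) (.g (nat_lit 2976) (.e (nat_lit 5546) (nat_lit 306) (.e (nat_lit 2599) (nat_lit 163) (.e (nat_lit 163978) (nat_lit 30) (.e (nat_lit 573479) (nat_lit 13) (.e (nat_lit 65619) (nat_lit 10) (.e (nat_lit 344117) (nat_lit 21) (.e (nat_lit 516151) (nat_lit 9) (.e (nat_lit 426042) (nat_lit 0) (.e (nat_lit 2458) (nat_lit 157) .nil))))))))) (.g (nat_lit 1) (.e (nat_lit 113728) (nat_lit 0) .nil) .nil))) 
(.lf (nat_lit 481922) (.g (nat_lit 1346) (.e (nat_lit 6998) (nat_lit 377) (.e (nat_lit 2797) (nat_lit 180) (.e (nat_lit 303117) (nat_lit 2) (.e (nat_lit 196673) (nat_lit 15) .nil)))) (.g (nat_lit 0) (.e (nat_lit 117989) (nat_lit 0) .nil) .nil)))) (.nd (nat_lit 9) 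
(.lf (nat_lit 481666) (.g (nat_lit 1772) (.e (nat_lit 5587) (nat_lit 310) (.e (nat_lit 163875) (nat_lit 3) (.e (nat_lit 204861) (nat_lit 26) (.e (nat_lit 336214) (nat_lit 13) .nil)))) (.g (nat_lit 0) (.e (nat_lit 115300) (nat_lit 0) .nil) .nil))) 
(.lf (nat_lit 482178) (.g (nat_lit 2424) (.e (nat_lit 7261) (nat_lit 384) (.e (nat_lit 57406) (nat_lit 12) (.e (nat_lit 336019) (nat_lit 3) (.e (nat_lit 98372) (nat_lit 29) (.e (nat_lit 450586) (nat_lit 10) (.e (nat_lit 573473) (nat_lit 12) (.e (nat_lit 57352) (nat_lit 0) .nil))))))) (.g (nat_lit 1) (.e (nat_lit 118819) (nat_lit 0) .nil) .nil)))))) 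
(.nd (nat_lit 7) (.nd (nat_lit 8) (.nd (nat_lit 9) 
(.lf (nat_lit 481346) (.g (nat_lit 5107) (.e (nat_lit 5429) (nat_lit 306) (.e (nat_lit 1183) (nat_lit 87) (.e (nat_lit 57575) (nat_lit 55) (.e (nat_lit 778466) (nat_lit 11) (.e (nat_lit 24617) (nat_lit 7) (.e (nat_lit 319534) (nat_lit 16) (.e (nat_lit 286756) (nat_lit 10) (.e (nat_lit 344090) (nat_lit 18) .nil)))))))) (.g (nat_lit 1) (.e (nat_lit 113107) (nat_lit 0) .nil) .nil))) 
(.lf (nat_lit 481858) (.g (nat_lit 984) (.e (nat_lit 6966) (nat_lit 377) (.e (nat_lit 2810) (nat_lit 180) (.e (nat_lit 303117) (nat_lit 2) (.e (nat_lit 196674) (nat_lit 15) .nil)))) (.g (nat_lit 0) (.e (nat_lit 117844) (nat_lit 0) .nil) .nil)))) (.nd (nat_lit 9) 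
(.lf (nat_lit 481602) (.g (nat_lit 4637) (.e (nat_lit 5548) (nat_lit 306) (.e (nat_lit 2610) (nat_lit 163) (.e (nat_lit 163978) (nat_lit 30) (.e (nat_lit 573485) (nat_lit 13) (.e (nat_lit 65604) (nat_lit 9) (.e (nat_lit 336013) (nat_lit 2) (.e (nat_lit 90170) (nat_lit 13) (.e (nat_lit 172042) (nat_lit 0) (.e (nat_lit 2458) (nat_lit 157) .nil))))))))) (.g (nat_lit 1) (.e (nat_lit 114539) (nat_lit 0) .nil) .nil))) 
(.lf (nat_lit 482114) (.g (nat_lit 2490) (.e (nat_lit 7236) (nat_lit 382) (.e (nat_lit 1200) (nat_lit 88) (.e (nat_lit 65568) (nat_lit 2) (.e (nat_lit 90170) (nat_lit 13) (.e (nat_lit 172113) (nat_lit 10) .nil))))) (.g (nat_lit 0) (.e (nat_lit 118595) (nat_lit 0) .nil) .nil))))) (.nd (nat_lit 8) (.nd (nat_lit 9) 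
(.lf (nat_lit 481474) (.g (nat_lit 489) (.e (nat_lit 5546) (nat_lit 306) (.e (nat_lit 2638) (nat_lit 165) (.e (nat_lit 180278) (nat_lit 32) .nil))) (.g (nat_lit 0) (.e (nat_lit 113993) (nat_lit 0) .nil) .nil))) 
(.lf (nat_lit 481986) (.g (nat_lit 1835) (.e (nat_lit 7071) (nat_lit 377) (.e (nat_lit 2797) (nat_lit 180) (.e (nat_lit 303119) (nat_lit 3) (.e (nat_lit 204860) (nat_lit 26) .nil)))) (.g (nat_lit 0) (.e (nat_lit 118138) (nat_lit 0) .nil) .nil)))) (.nd (nat_lit 9) 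
(.lf (nat_lit 481730) (.g (nat_lit 1755) (.e (nat_lit 5596) (nat_lit 310) (.e (nat_lit 163905) (nat_lit 12) (.e (nat_lit 426555) (nat_lit 32) (.e (nat_lit 376862) (nat_lit 22) .nil)))) (.g (nat_lit 0) (.e (nat_lit 116350) (nat_lit 0) .nil) .nil))) 
(.lf (nat_lit 482242) (.g (nat_lit 4149) (.e (nat_lit 7263) (nat_lit 384) (.e (nat_lit 57412) (nat_lit 12) (.e (nat_lit 336001) (nat_lit 2) (.e (nat_lit 90170) (nat_lit 13) (.e (nat_lit 172113) (nat_lit 10) (.e (nat_lit 434245) (nat_lit 28) (.e (nat_lit 573474) (nat_lit 12) (.e (nat_lit 57351) (nat_lit 0) .nil)))))))) (.g (nat_lit 1) (.e (nat_lit 118891) (nat_lit 0) .nil) .nil))))))) 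
(.nd (nat_lit 6) (.nd (nat_lit 7) (.nd (nat_lit 8) (.nd (nat_lit 9) 
(.lf (nat_lit 481314) (.g (nat_lit 2777) (.e (nat_lit 5395) (nat_lit 301) (.e (nat_lit 57464) (nat_lit 23) (.e (nat_lit 516166) (nat_lit 12) (.e (nat_lit 450588) (nat_lit 10) (.e (nat_lit 573457) (nat_lit 9) (.e (nat_lit 365) (nat_lit 31) (.e (nat_lit 417794) (nat_lit 0) .nil))))))) (.g (nat_lit 1) (.e (nat_lit 112957) (nat_lit 0) .nil) .nil))) 
(.lf (nat_lit 481826) (.g (nat_lit 1565) (.e (nat_lit 6942) (nat_lit 375) (.e (nat_lit 163947) (nat_lit 20) (.e (nat_lit 491560) (nat_lit 10) (.e (nat_lit 344177) (nat_lit 43) .nil)))) (.g (nat_lit 0) (.e (nat_lit 117795) (nat_lit 0) .nil) .nil)))) (.nd (nat_lit 9) 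
(.lf (nat_lit 481570) (.g (nat_lit 1454) (.e (nat_lit 5547) (nat_lit 306) (.e (nat_lit 2638) (nat_lit 165) (.e (nat_lit 180278) (nat_lit 32) (.e (nat_lit 1425) (nat_lit 108) (.e (nat_lit 336434) (nat_lit 30) (.e (nat_lit 458496) (nat_lit 0) .nil)))))) (.g (nat_lit 1) (.e (nat_lit 114390) (nat_lit 0) .nil) .nil))) 
(.lf (nat_lit 482082) (.g (nat_lit 1805) (.e (nat_lit 7105) (nat_lit 380) (.e (nat_lit 164287) (nat_lit 224) (.e (nat_lit 164092) (nat_lit 82) (.e (nat_lit 500046) (nat_lit 16) (.e (nat_lit 16466) (nat_lit 13) (.e (nat_lit 491264) (nat_lit 0) .nil)))))) (.g (nat_lit 1) (.e (nat_lit 118328) (nat_lit 0) .nil) .nil))))) (.nd (nat_lit 8) (.nd (nat_lit 9) 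
(.lf (nat_lit 481442) (.g (nat_lit 3032) (.e (nat_lit 5546) (nat_lit 306) (.e (nat_lit 2611) (nat_lit 163) (.e (nat_lit 163979) (nat_lit 30) (.e (nat_lit 573482) (nat_lit 13) (.e (nat_lit 65604) (nat_lit 9) (.e (nat_lit 336013) (nat_lit 2) (.e (nat_lit 90170) (nat_lit 13) (.e (nat_lit 172049) (nat_lit 0) (.e (nat_lit 2458) (nat_lit 157) .nil))))))))) (.g (nat_lit 1) (.e (nat_lit 113811) (nat_lit 0) .nil) .nil))) 
(.lf (nat_lit 481954) (.g (nat_lit 2647) (.e (nat_lit 7014) (nat_lit 377) (.e (nat_lit 2797) (nat_lit 180) (.e (nat_lit 303117) (nat_lit 2) (.e (nat_lit 196674) (nat_lit 15) (.e (nat_lit 81954) (nat_lit 23) .nil))))) (.g (nat_lit 0) (.e (nat_lit 118085) (nat_lit 0) .nil) .nil)))) (.nd (nat_lit 9) 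
(.lf (nat_lit 481698) (.g (nat_lit 1333) (.e (nat_lit 5589) (nat_lit 310) (.e (nat_lit 163875) (nat_lit 3) (.e (nat_lit 204862) (nat_lit 27) (.e (nat_lit 344132) (nat_lit 26) .nil)))) (.g (nat_lit 0) (.e (nat_lit 115782) (nat_lit 0) .nil) .nil))) 
(.lf (nat_lit 482210) (.g (nat_lit 4764) (.e (nat_lit 7261) (nat_lit 384) (.e (nat_lit 57412) (nat_lit 12) (.e (nat_lit 336001) (nat_lit 2) (.e (nat_lit 90170) (nat_lit 13) (.e (nat_lit 172113) (nat_lit 10) (.e (nat_lit 434245) (nat_lit 28) (.e (nat_lit 573474) (nat_lit 12) (.e (nat_lit 57347) (nat_lit 0) .nil)))))))) (.g (nat_lit 1) (.e (nat_lit 118856) (nat_lit 0) .nil) .nil)))))) 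
(.nd (nat_lit 7) (.nd (nat_lit 8) (.nd (nat_lit 9) 
(.lf (nat_lit 481378) (.g (nat_lit 2300) (.e (nat_lit 5543) (nat_lit 306) (.e (nat_lit 2618) (nat_lit 164) (.e (nat_lit 172118) (nat_lit 12) (.e (nat_lit 475211) (nat_lit 41) (.e (nat_lit 712755) (nat_lit 30) (.e (nat_lit 458496) (nat_lit 0) .nil)))))) (.g (nat_lit 1) (.e (nat_lit 113530) (nat_lit 0) .nil) .nil))) 
(.lf (nat_lit 481890) (.g (nat_lit 1736) (.e (nat_lit 6989) (nat_lit 377) (.e (nat_lit 2810) (nat_lit 180) (.e (nat_lit 303143) (nat_lit 12) (.e (nat_lit 475212) (nat_lit 42) (.e (nat_lit 720950) (nat_lit 24) .nil))))) (.g (nat_lit 0) (.e (nat_lit 117904) (nat_lit 0) .nil) .nil)))) (.nd (nat_lit 9) 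
(.lf (nat_lit 481634) (.g (nat_lit 1912) (.e (nat_lit 5548) (nat_lit 306) (.e (nat_lit 2640) (nat_lit 165) (.e (nat_lit 180277) (nat_lit 32) (.e (nat_lit 1661) (nat_lit 115) (.e (nat_lit 393288) (nat_lit 25) (.e (nat_lit 458774) (nat_lit 18) .nil)))))) (.g (nat_lit 1) (.e (nat_lit 114658) (nat_lit 0) .nil) .nil))) 
(.lf (nat_lit 482146) (.g (nat_lit 1670) (.e (nat_lit 7282) (nat_lit 386) (.e (nat_lit 163903) (nat_lit 12) (.e (nat_lit 426438) (nat_lit 18) (.e (nat_lit 98374) (nat_lit 29) .nil)))) (.g (nat_lit 0) (.e (nat_lit 118686) (nat_lit 0) .nil) .nil))))) (.nd (nat_lit 8) (.nd (nat_lit 9) 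
(.lf (nat_lit 481506) (.g (nat_lit 3602) (.e (nat_lit 5547) (nat_lit 306) (.e (nat_lit 2610) (nat_lit 163) (.e (nat_lit 163977) (nat_lit 30) (.e (nat_lit 573482) (nat_lit 13) (.e (nat_lit 65604) (nat_lit 9) (.e (nat_lit 336013) (nat_lit 2) (.e (nat_lit 90170) (nat_lit 13) (.e (nat_lit 172042) (nat_lit 0) (.e (nat_lit 2458) (nat_lit 157) .nil))))))))) (.g (nat_lit 1) (.e (nat_lit 114185) (nat_lit 0) .nil) .nil))) 
(.lf (nat_lit 482018) (.g (nat_lit 3458) (.e (nat_lit 7064) (nat_lit 377) (.e (nat_lit 1349) (nat_lit 102) (.e (nat_lit 286735) (nat_lit 3) (.e (nat_lit 98367) (nat_lit 27) (.e (nat_lit 434180) (nat_lit 0) (.e (nat_lit 1235) (nat_lit 91) (.e (nat_lit 90133) (nat_lit 9) (.e (nat_lit 2397) (nat_lit 157) .nil)))))))) (.g (nat_lit 1) (.e (nat_lit 118192) (nat_lit 0) .nil) .nil)))) (.nd (nat_lit 9) 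
(.lf (nat_lit 481762) (.g (nat_lit 3000) (.e (nat_lit 5599) (nat_lit 310) (.e (nat_lit 163905) (nat_lit 12) (.e (nat_lit 426320) (nat_lit 12) (.e (nat_lit 475211) (nat_lit 41) (.e (nat_lit 712753) (nat_lit 30) (.e (nat_lit 450569) (nat_lit 0) .nil)))))) (.g (nat_lit 1) (.e (nat_lit 117129) (nat_lit 0) .nil) .nil))) 
(.lf (nat_lit 482274) (.g (nat_lit 3439) (.e (nat_lit 7265) (nat_lit 384) (.e (nat_lit 57406) (nat_lit 12) (.e (nat_lit 336019) (nat_lit 3) (.e (nat_lit 98372) (nat_lit 29) (.e (nat_lit 450586) (nat_lit 10) (.e (nat_lit 573473) (nat_lit 12) (.e (nat_lit 57347) (nat_lit 0) .nil))))))) (.g (nat_lit 1) (.e (nat_lit 118931) (nat_lit 0) .nil) .nil)))))))) 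
(.nd (nat_lit 5) (.nd (nat_lit 6) (.nd (nat_lit 7) (.nd (nat_lit 8) (.nd (nat_lit 9) 
(.lf (nat_lit 481298) (.g (nat_lit 3306) (.e (nat_lit 5394) (nat_lit 301) (.e (nat_lit 57464) (nat_lit 23) (.e (nat_lit 516166) (nat_lit 12) (.e (nat_lit 450588) (nat_lit 10) (.e (nat_lit 573452) (nat_lit 9) (.e (nat_lit 359) (nat_lit 30) (.e (nat_lit 409604) (nat_lit 0) .nil))))))) (.g (nat_lit 1) (.e (nat_lit 112937) (nat_lit 0) .nil) .nil))) 
(.lf (nat_lit 481810) (.g (nat_lit 2575) (.e (nat_lit 6938) (nat_lit 375) (.e (nat_lit 163947) (nat_lit 20) (.e (nat_lit 491560) (nat_lit 10) (.e (nat_lit 344177) (nat_lit 43) (.e (nat_lit 770071) (nat_lit 8) .nil))))) (.g (nat_lit 0) (.e (nat_lit 117769) (nat_lit 0) .nil) .nil)))) (.nd (nat_lit 9) 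
(.lf (nat_lit 481554) (.g (nat_lit 2515) (.e (nat_lit 5547) (nat_lit 306) (.e (nat_lit 2628) (nat_lit 164) (.e (nat_lit 172126) (nat_lit 14) (.e (nat_lit 491549) (nat_lit 9) (.e (nat_lit 336434) (nat_lit 30) (.e (nat_lit 458496) (nat_lit 0) .nil)))))) (.g (nat_lit 1) (.e (nat_lit 114337) (nat_lit 0) .nil) .nil))) 
(.lf (nat_lit 482066) (.g (nat_lit 1427) (.e (nat_lit 7098) (nat_lit 380) (.e (nat_lit 164291) (nat_lit 224) (.e (nat_lit 164092) (nat_lit 82) (.e (nat_lit 500046) (nat_lit 16) (.e (nat_lit 16463) (nat_lit 13) (.e (nat_lit 491264) (nat_lit 0) .nil)))))) (.g (nat_lit 1) (.e (nat_lit 118281) (nat_lit 0) .nil) .nil))))) (.nd (nat_lit 8) (.nd (nat_lit 9) 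
(.lf (nat_lit 481426) (.g (nat_lit 2729) (.e (nat_lit 5546) (nat_lit 306) (.e (nat_lit 2610) (nat_lit 163) (.e (nat_lit 163978) (nat_lit 30) (.e (nat_lit 573479) (nat_lit 13) (.e (nat_lit 65619) (nat_lit 10) .nil))))) (.g (nat_lit 0) (.e (nat_lit 113779) (nat_lit 0) .nil) .nil))) 
(.lf (nat_lit 481938) (.g (nat_lit 5140) (.e (nat_lit 7008) (nat_lit 377) (.e (nat_lit 2798) (nat_lit 180) (.e (nat_lit 303117) (nat_lit 2) (.e (nat_lit 196666) (nat_lit 13) (.e (nat_lit 65610) (nat_lit 10) (.e (nat_lit 344117) (nat_lit 21) (.e (nat_lit 516106) (nat_lit 0) .nil))))))) (.g (nat_lit 1) (.e (nat_lit 118060) (nat_lit 0) .nil) .nil)))) (.nd (nat_lit 9) 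
(.lf (nat_lit 481682) (.g (nat_lit 2626) (.e (nat_lit 5587) (nat_lit 310) (.e (nat_lit 163907) (nat_lit 12) (.e (nat_lit 426320) (nat_lit 12) (.e (nat_lit 475207) (nat_lit 41) (.e (nat_lit 712753) (nat_lit 30) (.e (nat_lit 458496) (nat_lit 0) .nil)))))) (.g (nat_lit 1) (.e (nat_lit 115379) (nat_lit 0) .nil) .nil))) 
(.lf (nat_lit 482194) (.g (nat_lit 3032) (.e (nat_lit 7261) (nat_lit 384) (.e (nat_lit 57407) (nat_lit 12) (.e (nat_lit 336019) (nat_lit 3) (.e (nat_lit 98372) (nat_lit 29) (.e (nat_lit 450586) (nat_lit 10) (.e (nat_lit 573477) (nat_lit 12) (.e (nat_lit 57352) (nat_lit 0) .nil))))))) (.g (nat_lit 1) (.e (nat_lit 118840) (nat_lit 0) .nil) .nil)))))) 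
(.nd (nat_lit 7) (.nd (nat_lit 8) (.nd (nat_lit 9) 
(.lf (nat_lit 481362) (.g (nat_lit 4957) (.e (nat_lit 5448) (nat_lit 306) (.e (nat_lit 2612) (nat_lit 163) (.e (nat_lit 163979) (nat_lit 30) (.e (nat_lit 573493) (nat_lit 15) (.e (nat_lit 81951) (nat_lit 22) (.e (nat_lit 90172) (nat_lit 14) (.e (nat_lit 180233) (nat_lit 0) .nil))))))) (.g (nat_lit 1) (.e (nat_lit 113306) (nat_lit 0) .nil) .nil))) 
(.lf (nat_lit 481874) (.g (nat_lit 1970) (.e (nat_lit 6988) (nat_lit 377) (.e (nat_lit 2777) (nat_lit 178) (.e (nat_lit 286735) (nat_lit 3) (.e (nat_lit 98389) (nat_lit 33) (.e (nat_lit 491546) (nat_lit 9) .nil))))) (.g (nat_lit 0) (.e (nat_lit 117881) (nat_lit 0) .nil) .nil)))) (.nd (nat_lit 9) 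
(.lf (nat_lit 481618) (.g (nat_lit 4307) (.e (nat_lit 5548) (nat_lit 306) (.e (nat_lit 2610) (nat_lit 163) (.e (nat_lit 163979) (nat_lit 30) (.e (nat_lit 573493) (nat_lit 15) (.e (nat_lit 81953) (nat_lit 22) (.e (nat_lit 90170) (nat_lit 13) (.e (nat_lit 172042) (nat_lit 0) (.e (nat_lit 2458) (nat_lit 157) .nil)))))))) (.g (nat_lit 1) (.e (nat_lit 114567) (nat_lit 0) .nil) .nil))) 
(.lf (nat_lit 482130) (.g (nat_lit 2537) (.e (nat_lit 7280) (nat_lit 386) (.e (nat_lit 163875) (nat_lit 3) (.e (nat_lit 204837) (nat_lit 20) (.e (nat_lit 114718) (nat_lit 23) (.e (nat_lit 98366) (nat_lit 27) (.e (nat_lit 434231) (nat_lit 23) (.e (nat_lit 532490) (nat_lit 0) (.e (nat_lit 1040) (nat_lit 81) .nil)))))))) (.g (nat_lit 1) (.e (nat_lit 118622) (nat_lit 0) .nil) .nil))))) 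
(.nd (nat_lit 8) (.nd (nat_lit 9) 
(.lf (nat_lit 481490) (.g (nat_lit 2563) (.e (nat_lit 5546) (nat_lit 306) (.e (nat_lit 2639) (nat_lit 165) (.e (nat_lit 180277) (nat_lit 32) (.e (nat_lit 1660) (nat_lit 115) (.e (nat_lit 393283) (nat_lit 24) (.e (nat_lit 434209) (nat_lit 18) .nil)))))) (.g (nat_lit 1) (.e (nat_lit 114014) (nat_lit 0) .nil) .nil))) 
(.lf (nat_lit 482002) (.g (nat_lit 3314) (.e (nat_lit 7073) (nat_lit 377) (.e (nat_lit 2808) (nat_lit 180) (.e (nat_lit 303119) (nat_lit 3) (.e (nat_lit 204868) (nat_lit 29) (.e (nat_lit 360466) (nat_lit 3) .nil))))) (.g (nat_lit 0) (.e (nat_lit 118171) (nat_lit 0) .nil) .nil)))) (.nd (nat_lit 9) 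
(.lf (nat_lit 481746) (.g (nat_lit 1945) (.e (nat_lit 5599) (nat_lit 310) (.e (nat_lit 163869) (nat_lit 2) (.e (nat_lit 196670) (nat_lit 14) (.e (nat_lit 73748) (nat_lit 3) .nil)))) (.g (nat_lit 0) (.e (nat_lit 116897) (nat_lit 0) .nil) .nil))) 
(.lf (nat_lit 482258) (.g (nat_lit 2971) (.e (nat_lit 7265) (nat_lit 384) (.e (nat_lit 57406) (nat_lit 12) (.e (nat_lit 336018) (nat_lit 3) (.e (nat_lit 98372) (nat_lit 29) (.e (nat_lit 450586) (nat_lit 10) (.e (nat_lit 573475) (nat_lit 12) (.e (nat_lit 57351) (nat_lit 0) .nil))))))) (.g (nat_lit 1) (.e (nat_lit 118915) (nat_lit 0) .nil) .nil))))))) 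
(.nd (nat_lit 6) (.nd (nat_lit 7) (.nd (nat_lit 8) (.nd (nat_lit 9) 
(.lf (nat_lit 481330) (.g (nat_lit 2544) (.e (nat_lit 5406) (nat_lit 302) (.e (nat_lit 65637) (nat_lit 15) (.e (nat_lit 3305) (nat_lit 202) (.e (nat_lit 573482) (nat_lit 13) (.e (nat_lit 65619) (nat_lit 10) (.e (nat_lit 344115) (nat_lit 20) (.e (nat_lit 507908) (nat_lit 0) .nil))))))) (.g (nat_lit 1) (.e (nat_lit 113022) (nat_lit 0) .nil) .nil))) 
(.lf (nat_lit 481842) (.g (nat_lit 1929) (.e (nat_lit 6947) (nat_lit 377) (.e (nat_lit 2809) (nat_lit 180) (.e (nat_lit 303117) (nat_lit 2) (.e (nat_lit 196673) (nat_lit 15) .nil)))) (.g (nat_lit 0) (.e (nat_lit 117816) (nat_lit 0) .nil) .nil)))) (.nd (nat_lit 9) 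
(.lf (nat_lit 481586) (.g (nat_lit 1975) (.e (nat_lit 5548) (nat_lit 306) (.e (nat_lit 2601) (nat_lit 163) (.e (nat_lit 163979) (nat_lit 30) (.e (nat_lit 573482) (nat_lit 13) (.e (nat_lit 65604) (nat_lit 9) (.e (nat_lit 336013) (nat_lit 2) (.e (nat_lit 90170) (nat_lit 13) (.e (nat_lit 172042) (nat_lit 0) (.e (nat_lit 2478) (nat_lit 157) .nil))))))))) (.g (nat_lit 1) (.e (nat_lit 114519) (nat_lit 0) .nil) .nil))) 
(.lf (nat_lit 482098) (.g (nat_lit 503) (.e (nat_lit 7108) (nat_lit 380) (.e (nat_lit 164359) (nat_lit 246) (.e (nat_lit 2654) (nat_lit 167) .nil))) (.g (nat_lit 0) (.e (nat_lit 118398) (nat_lit 0) .nil) .nil))))) (.nd (nat_lit 8) (.nd (nat_lit 9) 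
(.lf (nat_lit 481458) (.g (nat_lit 3453) (.e (nat_lit 5546) (nat_lit 306) (.e (nat_lit 2619) (nat_lit 164) (.e (nat_lit 172120) (nat_lit 12) (.e (nat_lit 475210) (nat_lit 41) (.e (nat_lit 712755) (nat_lit 30) (.e (nat_lit 458496) (nat_lit 0) .nil)))))) (.g (nat_lit 1) (.e (nat_lit 113891) (nat_lit 0) .nil) .nil))) 
(.lf (nat_lit 481970) (.g (nat_lit 2675) (.e (nat_lit 7016) (nat_lit 377) (.e (nat_lit 2797) (nat_lit 180) (.e (nat_lit 303117) (nat_lit 2) (.e (nat_lit 196674) (nat_lit 15) (.e (nat_lit 81955) (nat_lit 23) .nil))))) (.g (nat_lit 0) (.e (nat_lit 118107) (nat_lit 0) .nil) .nil)))) (.nd (nat_lit 9) 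
(.lf (nat_lit 481714) (.g (nat_lit 2179) (.e (nat_lit 5593) (nat_lit 310) (.e (nat_lit 163874) (nat_lit 3) (.e (nat_lit 204864) (nat_lit 27) (.e (nat_lit 344130) (nat_lit 26) (.e (nat_lit 557104) (nat_lit 14) .nil))))) (.g (nat_lit 0) (.e (nat_lit 116032) (nat_lit 0) .nil) .nil))) 
(.lf (nat_lit 482226) (.g (nat_lit 4856) (.e (nat_lit 7261) (nat_lit 384) (.e (nat_lit 57432) (nat_lit 16) (.e (nat_lit 368676) (nat_lit 21) (.e (nat_lit 516166) (nat_lit 12) (.e (nat_lit 450587) (nat_lit 10) (.e (nat_lit 573477) (nat_lit 12) (.e (nat_lit 57352) (nat_lit 0) .nil))))))) (.g (nat_lit 1) (.e (nat_lit 118874) (nat_lit 0) .nil) .nil)))))) 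
(.nd (nat_lit 7) (.nd (nat_lit 8) (.nd (nat_lit 9) 
(.lf (nat_lit 481394) (.g (nat_lit 2733) (.e (nat_lit 5543) (nat_lit 306) (.e (nat_lit 2629) (nat_lit 164) (.e (nat_lit 172124) (nat_lit 14) (.e (nat_lit 491549) (nat_lit 9) (.e (nat_lit 336432) (nat_lit 30) (.e (nat_lit 458496) (nat_lit 0) .nil)))))) (.g (nat_lit 1) (.e (nat_lit 113600) (nat_lit 0) .nil) .nil))) 
(.lf (nat_lit 481906) (.g (nat_lit 3572) (.e (nat_lit 6986) (nat_lit 377) (.e (nat_lit 2810) (nat_lit 180) (.e (nat_lit 303117) (nat_lit 2) (.e (nat_lit 196666) (nat_lit 13) (.e (nat_lit 65604) (nat_lit 9) .nil))))) (.g (nat_lit 0) (.e (nat_lit 117955) (nat_lit 0) .nil) .nil)))) (.nd (nat_lit 9) 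
(.lf (nat_lit 481650) (.g (nat_lit 2268) (.e (nat_lit 5586) (nat_lit 310) (.e (nat_lit 163874) (nat_lit 3) (.e (nat_lit 204864) (nat_lit 27) (.e (nat_lit 344132) (nat_lit 26) (.e (nat_lit 557105) (nat_lit 14) .nil))))) (.g (nat_lit 0) (.e (nat_lit 115099) (nat_lit 0) .nil) .nil))) 
(.lf (nat_lit 482162) (.g (nat_lit 1551) (.e (nat_lit 7290) (nat_lit 386) (.e (nat_lit 163864) (nat_lit 1) (.e (nat_lit 164329) (nat_lit 230) (.e (nat_lit 163902) (nat_lit 12) (.e (nat_lit 426472) (nat_lit 25) (.e (nat_lit 319533) (nat_lit 16) (.e (nat_lit 286753) (nat_lit 10) (.e (nat_lit 344087) (nat_lit 18) .nil)))))))) (.g (nat_lit 1) (.e (nat_lit 118751) (nat_lit 0) .nil) .nil))))) 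
(.nd (nat_lit 8) (.nd (nat_lit 9) 
(.lf (nat_lit 481522) (.g (nat_lit 2745) (.e (nat_lit 5547) (nat_lit 306) (.e (nat_lit 2610) (nat_lit 163) (.e (nat_lit 163978) (nat_lit 30) (.e (nat_lit 573490) (nat_lit 15) (.e (nat_lit 81956) (nat_lit 23) .nil))))) (.g (nat_lit 0) (.e (nat_lit 114209) (nat_lit 0) .nil) .nil))) 
(.lf (nat_lit 482034) (.g (nat_lit 2324) (.e (nat_lit 7936) (nat_lit 377) (.e (nat_lit 2797) (nat_lit 180) (.e (nat_lit 303119) (nat_lit 3) (.e (nat_lit 204856) (nat_lit 26) (.e (nat_lit 336177) (nat_lit 10) .nil))))) (.g (nat_lit 0) (.e (nat_lit 118214) (nat_lit 0) .nil) .nil)))) (.nd (nat_lit 9) 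
(.lf (nat_lit 481778) (.g (nat_lit 2573) (.e (nat_lit 5603) (nat_lit 310) (.e (nat_lit 163874) (nat_lit 3) (.e (nat_lit 204863) (nat_lit 27) (.e (nat_lit 344132) (nat_lit 26) (.e (nat_lit 557105) (nat_lit 14) .nil))))) (.g (nat_lit 0) (.e (nat_lit 117441) (nat_lit 0) .nil) .nil))) 
(.lf (nat_lit 482290) (.g (nat_lit 6635) (.e (nat_lit 7265) (nat_lit 384) (.e (nat_lit 57406) (nat_lit 12) (.e (nat_lit 336019) (nat_lit 3) (.e (nat_lit 98373) (nat_lit 29) (.e (nat_lit 450588) (nat_lit 10) (.e (nat_lit 573475) (nat_lit 12) (.e (nat_lit 57348) (nat_lit 0) .nil))))))) (.g (nat_lit 1) (.e (nat_lit 118947) (nat_lit 0) .nil) .nil))))))))) 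
(.nd (nat_lit 4) (.nd (nat_lit 5) (.nd (nat_lit 6) (.nd (nat_lit 7) (.nd (nat_lit 8) 
(.nd (nat_lit 9) 
(.lf (nat_lit 481290) (.g (nat_lit 2466) (.e (nat_lit 5394) (nat_lit 301) (.e (nat_lit 57464) (nat_lit 23) (.e (nat_lit 516165) (nat_lit 12) (.e (nat_lit 450586) (nat_lit 10) (.e (nat_lit 573457) (nat_lit 9) (.e (nat_lit 359) (nat_lit 30) (.e (nat_lit 409603) (nat_lit 0) .nil))))))) (.g (nat_lit 1) (.e (nat_lit 112929) (nat_lit 0) .nil) .nil))) 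
(.lf (nat_lit 481802) (.g (nat_lit 1892) (.e (nat_lit 6850) (nat_lit 371) (.e (nat_lit 2630) (nat_lit 164) (.e (nat_lit 172138) (nat_lit 15) (.e (nat_lit 2059) (nat_lit 142) (.e (nat_lit 704595) (nat_lit 5) .nil))))) (.g (nat_lit 0) (.e (nat_lit 117746) (nat_lit 0) .nil) .nil)))) (.nd (nat_lit 9) 
(.lf (nat_lit 481546) (.g (nat_lit 474) (.e (nat_lit 5547) (nat_lit 306) (.e (nat_lit 2619) (nat_lit 164) (.e (nat_lit 172126) (nat_lit 14) .nil))) (.g (nat_lit 0) (.e (nat_lit 114292) (nat_lit 0) .nil) .nil))) 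
(.lf (nat_lit 482058) (.g (nat_lit 1598) (.e (nat_lit 7096) (nat_lit 380) (.e (nat_lit 164287) (nat_lit 224) (.e (nat_lit 164092) (nat_lit 82) (.e (nat_lit 500046) (nat_lit 16) (.e (nat_lit 16465) (nat_lit 13) (.e (nat_lit 491264) (nat_lit 0) .nil)))))) (.g (nat_lit 1) (.e (nat_lit 118259) (nat_lit 0) .nil) .nil))))) (.nd (nat_lit 8) (.nd (nat_lit 9) 
(.lf (nat_lit 481418) (.g (nat_lit 3511) (.e (nat_lit 5546) (nat_lit 306) (.e (nat_lit 2601) (nat_lit 163) (.e (nat_lit 163977) (nat_lit 30) (.e (nat_lit 573485) (nat_lit 13) (.e (nat_lit 65604) (nat_lit 9) (.e (nat_lit 336013) (nat_lit 2) (.e (nat_lit 90170) (nat_lit 13) (.e (nat_lit 172042) (nat_lit 0) (.e (nat_lit 2458) (nat_lit 157) .nil))))))))) (.g (nat_lit 1) (.e (nat_lit 113763) (nat_lit 0) .nil) .nil))) 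
(.lf (nat_lit 481930) (.g (nat_lit 785) (.e (nat_lit 7011) (nat_lit 377) (.e (nat_lit 2797) (nat_lit 180) (.e (nat_lit 303117) (nat_lit 2) .nil))) (.g (nat_lit 0) (.e (nat_lit 118045) (nat_lit 0) .nil) .nil)))) (.nd (nat_lit 9) 
(.lf (nat_lit 481674) (.g (nat_lit 2271) (.e (nat_lit 5587) (nat_lit 310) (.e (nat_lit 163905) (nat_lit 12) (.e (nat_lit 426320) (nat_lit 12) (.e (nat_lit 475210) (nat_lit 41) (.e (nat_lit 712753) (nat_lit 30) (.e (nat_lit 458496) (nat_lit 0) .nil)))))) (.g (nat_lit 1) (.e (nat_lit 115347) (nat_lit 0) .nil) .nil))) 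
(.lf (nat_lit 482186) (.g (nat_lit 2585) (.e (nat_lit 7261) (nat_lit 384) (.e (nat_lit 57406) (nat_lit 12) (.e (nat_lit 336316) (nat_lit 17) (.e (nat_lit 196681) (nat_lit 17) (.e (nat_lit 131129) (nat_lit 14) .nil))))) (.g (nat_lit 0) (.e (nat_lit 118832) (nat_lit 0) .nil) .nil)))))) (.nd (nat_lit 7) (.nd (nat_lit 8) (.nd (nat_lit 9) 
(.lf (nat_lit 481354) (.g (nat_lit 594) (.e (nat_lit 5443) (nat_lit 306) (.e (nat_lit 2725) (nat_lit 172) (.e (nat_lit 237619) (nat_lit 12) .nil))) (.g (nat_lit 0) (.e (nat_lit 113155) (nat_lit 0) .nil) .nil))) 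
(.lf (nat_lit 481866) (.g (nat_lit 2570) (.e (nat_lit 6968) (nat_lit 377) (.e (nat_lit 2813) (nat_lit 181) (.e (nat_lit 311312) (nat_lit 2) (.e (nat_lit 196672) (nat_lit 15) (.e (nat_lit 81954) (nat_lit 23) (.e (nat_lit 98323) (nat_lit 17) .nil)))))) (.g (nat_lit 1) (.e (nat_lit 117861) (nat_lit 0) .nil) .nil)))) (.nd (nat_lit 9) 
(.lf (nat_lit 481610) (.g (nat_lit 5100) (.e (nat_lit 5548) (nat_lit 306) (.e (nat_lit 2610) (nat_lit 163) (.e (nat_lit 163979) (nat_lit 30) (.e (nat_lit 573482) (nat_lit 13) (.e (nat_lit 65604) (nat_lit 9) (.e (nat_lit 336013) (nat_lit 2) (.e (nat_lit 90170) (nat_lit 13) (.e (nat_lit 172046) (nat_lit 0) (.e (nat_lit 2478) (nat_lit 157) .nil))))))))) (.g (nat_lit 1) (.e (nat_lit 114552) (nat_lit 0) .nil) .nil))) 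
(.lf (nat_lit 482122) (.g (nat_lit 1922) (.e (nat_lit 7280) (nat_lit 386) (.e (nat_lit 163875) (nat_lit 3) (.e (nat_lit 204829) (nat_lit 18) (.e (nat_lit 57849) (nat_lit 252) .nil)))) (.g (nat_lit 0) (.e (nat_lit 118614) (nat_lit 0) .nil) .nil))))) (.nd (nat_lit 8) (.nd (nat_lit 9) 
(.lf (nat_lit 481482) (.g (nat_lit 3200) (.e (nat_lit 5546) (nat_lit 306) (.e (nat_lit 2638) (nat_lit 165) (.e (nat_lit 180278) (nat_lit 32) (.e (nat_lit 1660) (nat_lit 115) (.e (nat_lit 393283) (nat_lit 24) (.e (nat_lit 434209) (nat_lit 18) .nil)))))) (.g (nat_lit 1) (.e (nat_lit 114001) (nat_lit 0) .nil) .nil))) 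
(.lf (nat_lit 481994) (.g (nat_lit 1310) (.e (nat_lit 7073) (nat_lit 377) (.e (nat_lit 2797) (nat_lit 180) (.e (nat_lit 303117) (nat_lit 2) (.e (nat_lit 196674) (nat_lit 15) .nil)))) (.g (nat_lit 0) (.e (nat_lit 118149) (nat_lit 0) .nil) .nil)))) (.nd (nat_lit 9) 
(.lf (nat_lit 481738) (.g (nat_lit 1455) (.e (nat_lit 5598) (nat_lit 310) (.e (nat_lit 163869) (nat_lit 2) (.e (nat_lit 196670) (nat_lit 14) (.e (nat_lit 73746) (nat_lit 3) .nil)))) (.g (nat_lit 0) (.e (nat_lit 116611) (nat_lit 0) .nil) .nil))) 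
(.lf (nat_lit 482250) (.g (nat_lit 445) (.e (nat_lit 7265) (nat_lit 384) (.e (nat_lit 57347) (nat_lit 0) (.e (nat_lit 2203) (nat_lit 144) .nil))) (.g (nat_lit 0) (.e (nat_lit 118902) (nat_lit 0) .nil) .nil))))))) (.nd (nat_lit 6) (.nd (nat_lit 7) (.nd (nat_lit 8) (.nd (nat_lit 9) 
(.lf (nat_lit 481322) (.g (nat_lit 3123) (.e (nat_lit 5399) (nat_lit 302) (.e (nat_lit 65637) (nat_lit 15) (.e (nat_lit 3748) (nat_lit 228) (.e (nat_lit 786483) (nat_lit 30) (.e (nat_lit 360484) (nat_lit 15) (.e (nat_lit 647203) (nat_lit 14) (.e (nat_lit 1086) (nat_lit 81) .nil))))))) (.g (nat_lit 1) (.e (nat_lit 112976) (nat_lit 0) .nil) .nil))) 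
(.lf (nat_lit 481834) (.g (nat_lit 4262) (.e (nat_lit 6943) (nat_lit 375) (.e (nat_lit 163945) (nat_lit 20) (.e (nat_lit 491569) (nat_lit 13) (.e (nat_lit 393301) (nat_lit 27) (.e (nat_lit 491559) (nat_lit 10) (.e (nat_lit 344091) (nat_lit 18) .nil)))))) (.g (nat_lit 1) (.e (nat_lit 117808) (nat_lit 0) .nil) .nil)))) (.nd (nat_lit 9) 
(.lf (nat_lit 481578) (.g (nat_lit 1854) (.e (nat_lit 5547) (nat_lit 306) (.e (nat_lit 2648) (nat_lit 166) (.e (nat_lit 188420) (nat_lit 0) (.e (nat_lit 2174) (nat_lit 143) (.e (nat_lit 712753) (nat_lit 30) (.e (nat_lit 458496) (nat_lit 0) .nil)))))) (.g (nat_lit 1) (.e (nat_lit 114408) (nat_lit 0) .nil) .nil))) 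
(.lf (nat_lit 482090) (.g (nat_lit 829) (.e (nat_lit 7106) (nat_lit 380) (.e (nat_lit 164269) (nat_lit 221) (.e (nat_lit 2576) (nat_lit 161) (.e (nat_lit 40996) (nat_lit 11) (.e (nat_lit 24654) (nat_lit 13) (.e (nat_lit 401152) (nat_lit 17) .nil)))))) (.g (nat_lit 1) (.e (nat_lit 118361) (nat_lit 0) .nil) .nil))))) (.nd (nat_lit 8) (.nd (nat_lit 9) 
(.lf (nat_lit 481450) (.g (nat_lit 2541) (.e (nat_lit 5546) (nat_lit 306) (.e (nat_lit 2618) (nat_lit 164) (.e (nat_lit 172124) (nat_lit 14) (.e (nat_lit 491549) (nat_lit 9) (.e (nat_lit 336434) (nat_lit 30) (.e (nat_lit 458496) (nat_lit 0) .nil)))))) (.g (nat_lit 1) (.e (nat_lit 113848) (nat_lit 0) .nil) .nil))) 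
(.lf (nat_lit 481962) (.g (nat_lit 1746) (.e (nat_lit 7015) (nat_lit 377) (.e (nat_lit 2797) (nat_lit 180) (.e (nat_lit 303117) (nat_lit 2) (.e (nat_lit 196673) (nat_lit 15) .nil)))) (.g (nat_lit 0) (.e (nat_lit 118095) (nat_lit 0) .nil) .nil)))) (.nd (nat_lit 9) 
(.lf (nat_lit 481706) (.g (nat_lit 1670) (.e (nat_lit 5589) (nat_lit 310) (.e (nat_lit 163907) (nat_lit 12) (.e (nat_lit 426320) (nat_lit 12) (.e (nat_lit 475209) (nat_lit 41) .nil)))) (.g (nat_lit 0) (.e (nat_lit 115854) (nat_lit 0) .nil) .nil))) 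
(.lf (nat_lit 482218) (.g (nat_lit 4693) (.e (nat_lit 7261) (nat_lit 384) (.e (nat_lit 57412) (nat_lit 12) (.e (nat_lit 336022) (nat_lit 3) (.e (nat_lit 98373) (nat_lit 29) (.e (nat_lit 450588) (nat_lit 10) (.e (nat_lit 573473) (nat_lit 12) (.e (nat_lit 57353) (nat_lit 0) .nil))))))) (.g (nat_lit 1) (.e (nat_lit 118864) (nat_lit 0) .nil) .nil)))))) 
(.nd (nat_lit 7) (.nd (nat_lit 8) (.nd (nat_lit 9) 
(.lf (nat_lit 481386) (.g (nat_lit 2235) (.e (nat_lit 5543) (nat_lit 306) (.e (nat_lit 2628) (nat_lit 164) (.e (nat_lit 172118) (nat_lit 12) (.e (nat_lit 475211) (nat_lit 41) (.e (nat_lit 712753) (nat_lit 30) (.e (nat_lit 458496) (nat_lit 0) .nil)))))) (.g (nat_lit 1) (.e (nat_lit 113572) (nat_lit 0) .nil) .nil))) 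
(.lf (nat_lit 481898) (.g (nat_lit 3085) (.e (nat_lit 6989) (nat_lit 377) (.e (nat_lit 1361) (nat_lit 102) (.e (nat_lit 286733) (nat_lit 2) (.e (nat_lit 90170) (nat_lit 13) (.e (nat_lit 172124) (nat_lit 14) .nil))))) (.g (nat_lit 0) (.e (nat_lit 117945) (nat_lit 0) .nil) .nil)))) (.nd (nat_lit 9) 
(.lf (nat_lit 481642) (.g (nat_lit 625) (.e (nat_lit 5583) (nat_lit 310) (.e (nat_lit 163907) (nat_lit 12) (.e (nat_lit 426320) (nat_lit 12) .nil))) (.g (nat_lit 0) (.e (nat_lit 114786) (nat_lit 0) .nil) .nil))) 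
(.lf (nat_lit 482154) (.g (nat_lit 3509) (.e (nat_lit 7289) (nat_lit 386) (.e (nat_lit 163864) (nat_lit 1) (.e (nat_lit 164332) (nat_lit 230) (.e (nat_lit 163905) (nat_lit 12) (.e (nat_lit 426472) (nat_lit 25) (.e (nat_lit 319533) (nat_lit 16) (.e (nat_lit 286753) (nat_lit 10) (.e (nat_lit 344087) (nat_lit 18) .nil)))))))) (.g (nat_lit 1) (.e (nat_lit 118727) (nat_lit 0) .nil) .nil))))) 
(.nd (nat_lit 8) (.nd (nat_lit 9) 
(.lf (nat_lit 481514) (.g (nat_lit 2545) (.e (nat_lit 5547) (nat_lit 306) (.e (nat_lit 2610) (nat_lit 163) (.e (nat_lit 163978) (nat_lit 30) (.e (nat_lit 573484) (nat_lit 13) (.e (nat_lit 65610) (nat_lit 10) (.e (nat_lit 344117) (nat_lit 21) (.e (nat_lit 516145) (nat_lit 9) (.e (nat_lit 425985) (nat_lit 0) (.e (nat_lit 2453) (nat_lit 157) .nil))))))))) (.g (nat_lit 1) (.e (nat_lit 114197) (nat_lit 0) .nil) .nil))) 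
(.lf (nat_lit 482026) (.g (nat_lit 2417) (.e (nat_lit 7936) (nat_lit 377) (.e (nat_lit 2797) (nat_lit 180) (.e (nat_lit 303117) (nat_lit 2) (.e (nat_lit 196666) (nat_lit 13) (.e (nat_lit 65604) (nat_lit 9) .nil))))) (.g (nat_lit 0) (.e (nat_lit 118204) (nat_lit 0) .nil) .nil)))) (.nd (nat_lit 9) 
(.lf (nat_lit 481770) (.g (nat_lit 640) (.e (nat_lit 5601) (nat_lit 310) (.e (nat_lit 163873) (nat_lit 3) (.e (nat_lit 204861) (nat_lit 26) .nil))) (.g (nat_lit 0) (.e (nat_lit 117277) (nat_lit 0) .nil) .nil))) 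
(.lf (nat_lit 482282) (.g (nat_lit 5663) (.e (nat_lit 7265) (nat_lit 384) (.e (nat_lit 57406) (nat_lit 12) (.e (nat_lit 336019) (nat_lit 3) (.e (nat_lit 98372) (nat_lit 29) (.e (nat_lit 450588) (nat_lit 10) (.e (nat_lit 573475) (nat_lit 12) (.e (nat_lit 57347) (nat_lit 0) .nil))))))) (.g (nat_lit 1) (.e (nat_lit 118939) (nat_lit 0) .nil) .nil)))))))) 
(.nd (nat_lit 5) (.nd (nat_lit 6) (.nd (nat_lit 7) (.nd (nat_lit 8) (.nd (nat_lit 9) 
(.lf (nat_lit 481306) (.g (nat_lit 2067) (.e (nat_lit 5395) (nat_lit 301) (.e (nat_lit 57464) (nat_lit 23) (.e (nat_lit 516151) (nat_lit 9) (.e (nat_lit 426286) (nat_lit 10) (.e (nat_lit 434233) (nat_lit 23) .nil))))) (.g (nat_lit 0) (.e (nat_lit 112949) (nat_lit 0) .nil) .nil))) 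
(.lf (nat_lit 481818) (.g (nat_lit 3500) (.e (nat_lit 6940) (nat_lit 375) (.e (nat_lit 163945) (nat_lit 20) (.e (nat_lit 491569) (nat_lit 13) (.e (nat_lit 393301) (nat_lit 27) (.e (nat_lit 491558) (nat_lit 10) (.e (nat_lit 344091) (nat_lit 18) .nil)))))) (.g (nat_lit 1) (.e (nat_lit 117785) (nat_lit 0) .nil) .nil)))) (.nd (nat_lit 9) 
(.lf (nat_lit 481562) (.g (nat_lit 2065) (.e (nat_lit 5547) (nat_lit 306) (.e (nat_lit 2629) (nat_lit 164) (.e (nat_lit 172124) (nat_lit 14) (.e (nat_lit 491550) (nat_lit 9) (.e (nat_lit 336434) (nat_lit 30) (.e (nat_lit 458496) (nat_lit 0) .nil)))))) (.g (nat_lit 1) (.e (nat_lit 114365) (nat_lit 0) .nil) .nil))) 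
(.lf (nat_lit 482074) (.g (nat_lit 4117) (.e (nat_lit 7098) (nat_lit 380) (.e (nat_lit 164359) (nat_lit 246) (.e (nat_lit 2661) (nat_lit 167) (.e (nat_lit 196666) (nat_lit 13) (.e (nat_lit 65610) (nat_lit 10) (.e (nat_lit 344117) (nat_lit 21) (.e (nat_lit 524032) (nat_lit 0) .nil))))))) (.g (nat_lit 1) (.e (nat_lit 118305) (nat_lit 0) .nil) .nil))))) (.nd (nat_lit 8) (.nd (nat_lit 9) 
(.lf (nat_lit 481434) (.g (nat_lit 3516) (.e (nat_lit 5546) (nat_lit 306) (.e (nat_lit 2610) (nat_lit 163) (.e (nat_lit 163979) (nat_lit 30) (.e (nat_lit 573482) (nat_lit 13) (.e (nat_lit 65604) (nat_lit 9) (.e (nat_lit 336028) (nat_lit 3) (.e (nat_lit 98359) (nat_lit 26) (.e (nat_lit 426039) (nat_lit 0) (.e (nat_lit 2458) (nat_lit 157) .nil))))))))) (.g (nat_lit 1) (.e (nat_lit 113790) (nat_lit 0) .nil) .nil))) 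
(.lf (nat_lit 481946) (.g (nat_lit 1831) (.e (nat_lit 7013) (nat_lit 377) (.e (nat_lit 2797) (nat_lit 180) (.e (nat_lit 303119) (nat_lit 3) (.e (nat_lit 204860) (nat_lit 26) .nil)))) (.g (nat_lit 0) (.e (nat_lit 118073) (nat_lit 0) .nil) .nil)))) (.nd (nat_lit 9) 
(.lf (nat_lit 481690) (.g (nat_lit 1810) (.e (nat_lit 5587) (nat_lit 310) (.e (nat_lit 163933) (nat_lit 17) (.e (nat_lit 466947) (nat_lit 0) (.e (nat_lit 2173) (nat_lit 143) (.e (nat_lit 712753) (nat_lit 30) (.e (nat_lit 458496) (nat_lit 0) .nil)))))) (.g (nat_lit 1) (.e (nat_lit 115423) (nat_lit 0) .nil) .nil))) 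
(.lf (nat_lit 482202) (.g (nat_lit 6152) (.e (nat_lit 7261) (nat_lit 384) (.e (nat_lit 57407) (nat_lit 12) (.e (nat_lit 336019) (nat_lit 3) (.e (nat_lit 98373) (nat_lit 29) (.e (nat_lit 450588) (nat_lit 10) (.e (nat_lit 573473) (nat_lit 12) (.e (nat_lit 57352) (nat_lit 0) .nil))))))) (.g (nat_lit 1) (.e (nat_lit 118848) (nat_lit 0) .nil) .nil)))))) 
(.nd (nat_lit 7) (.nd (nat_lit 8) (.nd (nat_lit 9) 
(.lf (nat_lit 481370) (.g (nat_lit 2823) (.e (nat_lit 5537) (nat_lit 306) (.e (nat_lit 2611) (nat_lit 163) (.e (nat_lit 163978) (nat_lit 30) (.e (nat_lit 573479) (nat_lit 13) (.e (nat_lit 65604) (nat_lit 9) .nil))))) (.g (nat_lit 0) (.e (nat_lit 113477) (nat_lit 0) .nil) .nil))) 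
(.lf (nat_lit 481882) (.g (nat_lit 1197) (.e (nat_lit 6989) (nat_lit 377) (.e (nat_lit 2810) (nat_lit 180) (.e (nat_lit 303119) (nat_lit 3) (.e (nat_lit 204861) (nat_lit 26) .nil)))) (.g (nat_lit 0) (.e (nat_lit 117895) (nat_lit 0) .nil) .nil)))) (.nd (nat_lit 9) 
(.lf (nat_lit 481626) (.g (nat_lit 3284) (.e (nat_lit 5548) (nat_lit 306) (.e (nat_lit 2611) (nat_lit 163) (.e (nat_lit 163978) (nat_lit 30) (.e (nat_lit 573479) (nat_lit 13) (.e (nat_lit 65604) (nat_lit 9) (.e (nat_lit 336013) (nat_lit 2) (.e (nat_lit 90170) (nat_lit 13) (.e (nat_lit 172046) (nat_lit 0) (.e (nat_lit 2478) (nat_lit 157) .nil))))))))) (.g (nat_lit 1) (.e (nat_lit 114582) (nat_lit 0) .nil) .nil))) 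
(.lf (nat_lit 482138) (.g (nat_lit 1129) (.e (nat_lit 7281) (nat_lit 386) (.e (nat_lit 163874) (nat_lit 3) (.e (nat_lit 204829) (nat_lit 18) .nil))) (.g (nat_lit 0) (.e (nat_lit 118646) (nat_lit 0) .nil) .nil))))) (.nd (nat_lit 8) (.nd (nat_lit 9) 
(.lf (nat_lit 481498) (.g (nat_lit 1687) (.e (nat_lit 5546) (nat_lit 306) (.e (nat_lit 2648) (nat_lit 166) (.e (nat_lit 188418) (nat_lit 0) (.e (nat_lit 2175) (nat_lit 143) (.e (nat_lit 712753) (nat_lit 30) (.e (nat_lit 458496) (nat_lit 0) .nil)))))) (.g (nat_lit 1) (.e (nat_lit 114026) (nat_lit 0) .nil) .nil))) 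
(.lf (nat_lit 482010) (.g (nat_lit 1179) (.e (nat_lit 7064) (nat_lit 377) (.e (nat_lit 1349) (nat_lit 102) (.e (nat_lit 286735) (nat_lit 3) (.e (nat_lit 98353) (nat_lit 25) .nil)))) (.g (nat_lit 0) (.e (nat_lit 118184) (nat_lit 0) .nil) .nil)))) (.nd (nat_lit 9) 
(.lf (nat_lit 481754) (.g (nat_lit 2283) (.e (nat_lit 5599) (nat_lit 310) (.e (nat_lit 163900) (nat_lit 12) (.e (nat_lit 426317) (nat_lit 12) (.e (nat_lit 475211) (nat_lit 41) (.e (nat_lit 712753) (nat_lit 30) (.e (nat_lit 450569) (nat_lit 0) .nil)))))) (.g (nat_lit 1) (.e (nat_lit 117111) (nat_lit 0) .nil) .nil))) 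
(.lf (nat_lit 482266) (.g (nat_lit 3054) (.e (nat_lit 7265) (nat_lit 384) (.e (nat_lit 57406) (nat_lit 12) (.e (nat_lit 336019) (nat_lit 3) (.e (nat_lit 98359) (nat_lit 26) (.e (nat_lit 426286) (nat_lit 10) (.e (nat_lit 434245) (nat_lit 28) (.e (nat_lit 573473) (nat_lit 12) (.e (nat_lit 57348) (nat_lit 0) .nil)))))))) (.g (nat_lit 1) (.e (nat_lit 118923) (nat_lit 0) .nil) .nil))))))) 
(.nd (nat_lit 6) (.nd (nat_lit 7) (.nd (nat_lit 8) (.nd (nat_lit 9) 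
(.lf (nat_lit 481338) (.g (nat_lit 2574) (.e (nat_lit 5410) (nat_lit 303) (.e (nat_lit 73777) (nat_lit 31) (.e (nat_lit 819204) (nat_lit 0) (.e (nat_lit 3015) (nat_lit 187) (.e (nat_lit 450562) (nat_lit 0) (.e (nat_lit 4275) (nat_lit 252) (.e (nat_lit 8288) (nat_lit 51) .nil))))))) (.g (nat_lit 1) (.e (nat_lit 113056) (nat_lit 0) .nil) .nil))) 
(.lf (nat_lit 481850) (.g (nat_lit 3271) (.e (nat_lit 6966) (nat_lit 377) (.e (nat_lit 2797) (nat_lit 180) (.e (nat_lit 303117) (nat_lit 2) (.e (nat_lit 196666) (nat_lit 13) (.e (nat_lit 65604) (nat_lit 9) .nil))))) (.g (nat_lit 0) (.e (nat_lit 117829) (nat_lit 0) .nil) .nil)))) (.nd (nat_lit 9) 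
(.lf (nat_lit 481594) (.g (nat_lit 3356) (.e (nat_lit 5548) (nat_lit 306) (.e (nat_lit 2610) (nat_lit 163) (.e (nat_lit 163978) (nat_lit 30) (.e (nat_lit 573479) (nat_lit 13) (.e (nat_lit 65604) (nat_lit 9) (.e (nat_lit 336013) (nat_lit 2) (.e (nat_lit 90170) (nat_lit 13) (.e (nat_lit 172042) (nat_lit 0) (.e (nat_lit 2458) (nat_lit 157) .nil))))))))) (.g (nat_lit 1) (.e (nat_lit 114531) (nat_lit 0) .nil) .nil))) 
(.lf (nat_lit 482106) (.g (nat_lit 2087) (.e (nat_lit 7082) (nat_lit 378) (.e (nat_lit 57902) (nat_lit 277) (.e (nat_lit 131140) (nat_lit 27) (.e (nat_lit 426343) (nat_lit 14) (.e (nat_lit 491552) (nat_lit 9) (.e (nat_lit 336250) (nat_lit 15) .nil)))))) (.g (nat_lit 1) (.e (nat_lit 118431) (nat_lit 0) .nil) .nil))))) (.nd (nat_lit 8) (.nd (nat_lit 9) 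
(.lf (nat_lit 481466) (.g (nat_lit 1981) (.e (nat_lit 5546) (nat_lit 306) (.e (nat_lit 2629) (nat_lit 164) (.e (nat_lit 172120) (nat_lit 12) (.e (nat_lit 475210) (nat_lit 41) (.e (nat_lit 712753) (nat_lit 30) .nil))))) (.g (nat_lit 0) (.e (nat_lit 113966) (nat_lit 0) .nil) .nil))) 
(.lf (nat_lit 481978) (.g (nat_lit 3604) (.e (nat_lit 7016) (nat_lit 377) (.e (nat_lit 2804) (nat_lit 180) (.e (nat_lit 303117) (nat_lit 2) (.e (nat_lit 196666) (nat_lit 13) (.e (nat_lit 65619) (nat_lit 10) .nil))))) (.g (nat_lit 0) (.e (nat_lit 118119) (nat_lit 0) .nil) .nil)))) (.nd (nat_lit 9) 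
(.lf (nat_lit 481722) (.g (nat_lit 2010) (.e (nat_lit 5594) (nat_lit 310) (.e (nat_lit 163908) (nat_lit 12) (.e (nat_lit 426305) (nat_lit 12) (.e (nat_lit 475211) (nat_lit 41) (.e (nat_lit 712753) (nat_lit 30) .nil))))) (.g (nat_lit 0) (.e (nat_lit 116104) (nat_lit 0) .nil) .nil))) 
(.lf (nat_lit 482234) (.g (nat_lit 6114) (.e (nat_lit 7261) (nat_lit 384) (.e (nat_lit 57432) (nat_lit 16) (.e (nat_lit 368676) (nat_lit 21) (.e (nat_lit 516166) (nat_lit 12) (.e (nat_lit 450588) (nat_lit 10) (.e (nat_lit 573475) (nat_lit 12) (.e (nat_lit 57348) (nat_lit 0) .nil))))))) (.g (nat_lit 1) (.e (nat_lit 118882) (nat_lit 0) .nil) .nil)))))) 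
(.nd (nat_lit 7) (.nd (nat_lit 8) (.nd (nat_lit 9) 
(.lf (nat_lit 481402) (.g (nat_lit 2062) (.e (nat_lit 5543) (nat_lit 306) (.e (nat_lit 2638) (nat_lit 165) (.e (nat_lit 180278) (nat_lit 32) (.e (nat_lit 1428) (nat_lit 108) (.e (nat_lit 336432) (nat_lit 30) (.e (nat_lit 458496) (nat_lit 0) .nil)))))) (.g (nat_lit 1) (.e (nat_lit 113621) (nat_lit 0) .nil) .nil))) 
(.lf (nat_lit 481914) (.g (nat_lit 2639) (.e (nat_lit 6986) (nat_lit 377) (.e (nat_lit 2777) (nat_lit 178) (.e (nat_lit 286735) (nat_lit 3) (.e (nat_lit 98350) (nat_lit 24) (.e (nat_lit 409641) (nat_lit 17) .nil))))) (.g (nat_lit 0) (.e (nat_lit 117974) (nat_lit 0) .nil) .nil)))) (.nd (nat_lit 9) 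
(.lf (nat_lit 481658) (.g (nat_lit 1683) (.e (nat_lit 5587) (nat_lit 310) (.e (nat_lit 163868) (nat_lit 2) (.e (nat_lit 196670) (nat_lit 14) (.e (nat_lit 73746) (nat_lit 3) .nil)))) (.g (nat_lit 0) (.e (nat_lit 115167) (nat_lit 0) .nil) .nil))) 
(.lf (nat_lit 482170) (.g (nat_lit 1143) (.e (nat_lit 7291) (nat_lit 386) (.e (nat_lit 163907) (nat_lit 12) (.e (nat_lit 426568) (nat_lit 34) .nil))) (.g (nat_lit 0) (.e (nat_lit 118774) (nat_lit 0) .nil) .nil))))) (.nd (nat_lit 8) (.nd (nat_lit 9) 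
(.lf (nat_lit 481530) (.g (nat_lit 2366) (.e (nat_lit 5547) (nat_lit 306) (.e (nat_lit 2610) (nat_lit 163) (.e (nat_lit 163979) (nat_lit 30) (.e (nat_lit 573491) (nat_lit 15) (.e (nat_lit 81954) (nat_lit 23) .nil))))) (.g (nat_lit 0) (.e (nat_lit 114219) (nat_lit 0) .nil) .nil))) 
(.lf (nat_lit 482042) (.g (nat_lit 2039) (.e (nat_lit 7936) (nat_lit 377) (.e (nat_lit 2797) (nat_lit 180) (.e (nat_lit 303119) (nat_lit 3) (.e (nat_lit 204868) (nat_lit 29) (.e (nat_lit 360466) (nat_lit 3) .nil))))) (.g (nat_lit 0) (.e (nat_lit 118224) (nat_lit 0) .nil) .nil)))) (.nd (nat_lit 9) 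
(.lf (nat_lit 481786) (.g (nat_lit 2065) (.e (nat_lit 5604) (nat_lit 310) (.e (nat_lit 163905) (nat_lit 12) (.e (nat_lit 426555) (nat_lit 32) (.e (nat_lit 376865) (nat_lit 22) .nil)))) (.g (nat_lit 0) (.e (nat_lit 117579) (nat_lit 0) .nil) .nil))) 
(.lf (nat_lit 482298) (.g (nat_lit 1726) (.e (nat_lit 7265) (nat_lit 384) (.e (nat_lit 57406) (nat_lit 12) (.e (nat_lit 336161) (nat_lit 10) (.e (nat_lit 344179) (nat_lit 44) (.e (nat_lit 778465) (nat_lit 11) .nil))))) (.g (nat_lit 0) (.e (nat_lit 118955) (nat_lit 0) .nil) .nil)))))))))) 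
(.nd (nat_lit 3) (.nd (nat_lit 4) (.nd (nat_lit 5) (.nd (nat_lit 6) (.nd (nat_lit 7) 
(.nd (nat_lit 8) (.nd (nat_lit 9) 
(.lf (nat_lit 481286) (.g (nat_lit 2357) (.e (nat_lit 5393) (nat_lit 301) (.e (nat_lit 57464) (nat_lit 23) (.e (nat_lit 516151) (nat_lit 9) (.e (nat_lit 426275) (nat_lit 10) .nil)))) (.g (nat_lit 0) (.e (nat_lit 112909) (nat_lit 0) .nil) .nil))) 
(.lf (nat_lit 481798) (.g (nat_lit 858) (.e (nat_lit 5570) (nat_lit 308) (.e (nat_lit 57372) (nat_lit 2) (.e (nat_lit 90169) (nat_lit 13) .nil))) (.g (nat_lit 0) (.e (nat_lit 117716) (nat_lit 0) .nil) .nil)))) (.nd (nat_lit 9) 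
(.lf (nat_lit 481542) (.g (nat_lit 2741) (.e (nat_lit 5547) (nat_lit 306) (.e (nat_lit 2619) (nat_lit 164) (.e (nat_lit 172124) (nat_lit 14) (.e (nat_lit 491549) (nat_lit 9) (.e (nat_lit 336432) (nat_lit 30) (.e (nat_lit 458496) (nat_lit 0) .nil)))))) (.g (nat_lit 1) (.e (nat_lit 114285) (nat_lit 0) .nil) .nil))) 
(.lf (nat_lit 482054) (.g (nat_lit 2014) (.e (nat_lit 7096) (nat_lit 380) (.e (nat_lit 171776) (nat_lit 86) (.e (nat_lit 532515) (nat_lit 3) (.e (nat_lit 114716) (nat_lit 22) (.e (nat_lit 90185) (nat_lit 17) (.e (nat_lit 237594) (nat_lit 3) (.e (nat_lit 204805) (nat_lit 0) .nil))))))) (.g (nat_lit 1) (.e (nat_lit 118255) (nat_lit 0) .nil) .nil))))) (.nd (nat_lit 8) (.nd (nat_lit 9) 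
(.lf (nat_lit 481414) (.g (nat_lit 4269) (.e (nat_lit 5546) (nat_lit 306) (.e (nat_lit 2600) (nat_lit 163) (.e (nat_lit 163977) (nat_lit 30) (.e (nat_lit 573482) (nat_lit 13) (.e (nat_lit 65619) (nat_lit 10) (.e (nat_lit 344117) (nat_lit 21) (.e (nat_lit 516159) (nat_lit 10) (.e (nat_lit 434209) (nat_lit 18) .nil)))))))) (.g (nat_lit 1) (.e (nat_lit 113751) (nat_lit 0) .nil) .nil))) 
(.lf (nat_lit 481926) (.g (nat_lit 762) (.e (nat_lit 7004) (nat_lit 377) (.e (nat_lit 2797) (nat_lit 180) (.e (nat_lit 303117) (nat_lit 2) .nil))) (.g (nat_lit 0) (.e (nat_lit 118002) (nat_lit 0) .nil) .nil)))) (.nd (nat_lit 9) 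
(.lf (nat_lit 481670) (.g (nat_lit 2431) (.e (nat_lit 5587) (nat_lit 310) (.e (nat_lit 163903) (nat_lit 12) (.e (nat_lit 426320) (nat_lit 12) (.e (nat_lit 475210) (nat_lit 41) (.e (nat_lit 712753) (nat_lit 30) (.e (nat_lit 458496) (nat_lit 0) .nil)))))) (.g (nat_lit 1) (.e (nat_lit 115341) (nat_lit 0) .nil) .nil))) 
(.lf (nat_lit 482182) (.g (nat_lit 2343) (.e (nat_lit 7261) (nat_lit 384) (.e (nat_lit 57406) (nat_lit 12) (.e (nat_lit 336019) (nat_lit 3) (.e (nat_lit 98372) (nat_lit 29) (.e (nat_lit 450586) (nat_lit 10) (.e (nat_lit 573477) (nat_lit 12) (.e (nat_lit 57353) (nat_lit 0) .nil))))))) (.g (nat_lit 1) (.e (nat_lit 118823) (nat_lit 0) .nil) .nil)))))) 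
(.nd (nat_lit 7) (.nd (nat_lit 8) (.nd (nat_lit 9) 
(.lf (nat_lit 481350) (.g (nat_lit 2419) (.e (nat_lit 5456) (nat_lit 306) (.e (nat_lit 1183) (nat_lit 87) (.e (nat_lit 57575) (nat_lit 55) (.e (nat_lit 778466) (nat_lit 11) (.e (nat_lit 24617) (nat_lit 7) .nil))))) (.g (nat_lit 0) (.e (nat_lit 113128) (nat_lit 0) .nil) .nil))) 
(.lf (nat_lit 481862) (.g (nat_lit 2027) (.e (nat_lit 6966) (nat_lit 377) (.e (nat_lit 2777) (nat_lit 178) (.e (nat_lit 286765) (nat_lit 15) (.e (nat_lit 3304) (nat_lit 202) (.e (nat_lit 573485) (nat_lit 13) .nil))))) (.g (nat_lit 0) (.e (nat_lit 117857) (nat_lit 0) .nil) .nil)))) (.nd (nat_lit 9) 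
(.lf (nat_lit 481606) (.g (nat_lit 2770) (.e (nat_lit 5548) (nat_lit 306) (.e (nat_lit 2610) (nat_lit 163) (.e (nat_lit 163978) (nat_lit 30) (.e (nat_lit 573490) (nat_lit 15) (.e (nat_lit 81956) (nat_lit 23) .nil))))) (.g (nat_lit 0) (.e (nat_lit 114547) (nat_lit 0) .nil) .nil))) 
(.lf (nat_lit 482118) (.g (nat_lit 2515) (.e (nat_lit 7280) (nat_lit 386) (.e (nat_lit 163875) (nat_lit 3) (.e (nat_lit 204829) (nat_lit 18) (.e (nat_lit 57847) (nat_lit 252) (.e (nat_lit 57411) (nat_lit 12) .nil))))) (.g (nat_lit 0) (.e (nat_lit 118610) (nat_lit 0) .nil) .nil))))) (.nd (nat_lit 8) (.nd (nat_lit 9) 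
(.lf (nat_lit 481478) (.g (nat_lit 2238) (.e (nat_lit 5546) (nat_lit 306) (.e (nat_lit 2638) (nat_lit 165) (.e (nat_lit 180278) (nat_lit 32) (.e (nat_lit 1428) (nat_lit 108) (.e (nat_lit 336434) (nat_lit 30) (.e (nat_lit 458496) (nat_lit 0) .nil)))))) (.g (nat_lit 1) (.e (nat_lit 113997) (nat_lit 0) .nil) .nil))) 
(.lf (nat_lit 481990) (.g (nat_lit 2278) (.e (nat_lit 7071) (nat_lit 377) (.e (nat_lit 2797) (nat_lit 180) (.e (nat_lit 303119) (nat_lit 3) (.e (nat_lit 204868) (nat_lit 29) .nil)))) (.g (nat_lit 0) (.e (nat_lit 118143) (nat_lit 0) .nil) .nil)))) (.nd (nat_lit 9) 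
(.lf (nat_lit 481734) (.g (nat_lit 3187) (.e (nat_lit 5597) (nat_lit 310) (.e (nat_lit 163946) (nat_lit 20) (.e (nat_lit 491566) (nat_lit 12) (.e (nat_lit 385105) (nat_lit 50) (.e (nat_lit 786481) (nat_lit 30) (.e (nat_lit 360457) (nat_lit 0) .nil)))))) (.g (nat_lit 1) (.e (nat_lit 116552) (nat_lit 0) .nil) .nil))) 
(.lf (nat_lit 482246) (.g (nat_lit 3797) (.e (nat_lit 7263) (nat_lit 384) (.e (nat_lit 57412) (nat_lit 12) (.e (nat_lit 336001) (nat_lit 2) (.e (nat_lit 90170) (nat_lit 13) (.e (nat_lit 172113) (nat_lit 10) (.e (nat_lit 434248) (nat_lit 28) (.e (nat_lit 573473) (nat_lit 12) (.e (nat_lit 57352) (nat_lit 0) .nil)))))))) (.g (nat_lit 1) (.e (nat_lit 118895) (nat_lit 0) .nil) .nil))))))) 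
(.nd (nat_lit 6) (.nd (nat_lit 7) (.nd (nat_lit 8) (.nd (nat_lit 9) 
(.lf (nat_lit 481318) (.g (nat_lit 2135) (.e (nat_lit 7936) (nat_lit 301) (.e (nat_lit 57464) (nat_lit 23) (.e (nat_lit 516151) (nat_lit 9) (.e (nat_lit 426275) (nat_lit 10) .nil)))) (.g (nat_lit 0) (.e (nat_lit 112972) (nat_lit 0) .nil) .nil))) 
(.lf (nat_lit 481830) (.g (nat_lit 4111) (.e (nat_lit 6943) (nat_lit 375) (.e (nat_lit 163938) (nat_lit 18) (.e (nat_lit 475185) (nat_lit 29) (.e (nat_lit 557100) (nat_lit 13) (.e (nat_lit 172113) (nat_lit 10) (.e (nat_lit 434245) (nat_lit 28) (.e (nat_lit 573473) (nat_lit 12) (.e (nat_lit 57348) (nat_lit 0) .nil)))))))) (.g (nat_lit 1) (.e (nat_lit 117801) (nat_lit 0) .nil) .nil)))) 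
(.nd (nat_lit 9) 
(.lf (nat_lit 481574) (.g (nat_lit 2453) (.e (nat_lit 5547) (nat_lit 306) (.e (nat_lit 2638) (nat_lit 165) (.e (nat_lit 180278) (nat_lit 32) (.e (nat_lit 1661) (nat_lit 115) (.e (nat_lit 393284) (nat_lit 24) (.e (nat_lit 434212) (nat_lit 18) .nil)))))) (.g (nat_lit 1) (.e (nat_lit 114394) (nat_lit 0) .nil) .nil))) 
(.lf (nat_lit 482086) (.g (nat_lit 3060) (.e (nat_lit 7105) (nat_lit 380) (.e (nat_lit 164362) (nat_lit 246) (.e (nat_lit 2661) (nat_lit 167) (.e (nat_lit 196666) (nat_lit 13) (.e (nat_lit 65610) (nat_lit 10) (.e (nat_lit 344117) (nat_lit 21) (.e (nat_lit 524032) (nat_lit 0) .nil))))))) (.g (nat_lit 1) (.e (nat_lit 118346) (nat_lit 0) .nil) .nil))))) (.nd (nat_lit 8) (.nd (nat_lit 9) 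
(.lf (nat_lit 481446) (.g (nat_lit 2421) (.e (nat_lit 5546) (nat_lit 306) (.e (nat_lit 2618) (nat_lit 164) (.e (nat_lit 172119) (nat_lit 12) (.e (nat_lit 475211) (nat_lit 41) (.e (nat_lit 712755) (nat_lit 30) (.e (nat_lit 458496) (nat_lit 0) .nil)))))) (.g (nat_lit 1) (.e (nat_lit 113840) (nat_lit 0) .nil) .nil))) 
(.lf (nat_lit 481958) (.g (nat_lit 3291) (.e (nat_lit 7014) (nat_lit 377) (.e (nat_lit 2797) (nat_lit 180) (.e (nat_lit 303119) (nat_lit 3) (.e (nat_lit 204865) (nat_lit 28) (.e (nat_lit 352315) (nat_lit 23) .nil))))) (.g (nat_lit 0) (.e (nat_lit 118089) (nat_lit 0) .nil) .nil)))) (.nd (nat_lit 9) 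
(.lf (nat_lit 481702) (.g (nat_lit 2128) (.e (nat_lit 5589) (nat_lit 310) (.e (nat_lit 163875) (nat_lit 3) (.e (nat_lit 204863) (nat_lit 27) (.e (nat_lit 344132) (nat_lit 26) (.e (nat_lit 557105) (nat_lit 14) .nil))))) (.g (nat_lit 0) (.e (nat_lit 115786) (nat_lit 0) .nil) .nil))) 
(.lf (nat_lit 482214) (.g (nat_lit 4863) (.e (nat_lit 7261) (nat_lit 384) (.e (nat_lit 57412) (nat_lit 12) (.e (nat_lit 336001) (nat_lit 2) (.e (nat_lit 90170) (nat_lit 13) (.e (nat_lit 172113) (nat_lit 10) (.e (nat_lit 434248) (nat_lit 28) (.e (nat_lit 573475) (nat_lit 12) (.e (nat_lit 57347) (nat_lit 0) .nil)))))))) (.g (nat_lit 1) (.e (nat_lit 118860) (nat_lit 0) .nil) .nil)))))) 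
(.nd (nat_lit 7) (.nd (nat_lit 8) (.nd (nat_lit 9) 
(.lf (nat_lit 481382) (.g (nat_lit 1588) (.e (nat_lit 5543) (nat_lit 306) (.e (nat_lit 2619) (nat_lit 164) (.e (nat_lit 172119) (nat_lit 12) (.e (nat_lit 475211) (nat_lit 41) (.e (nat_lit 712753) (nat_lit 30) .nil))))) (.g (nat_lit 0) (.e (nat_lit 113544) (nat_lit 0) .nil) .nil))) 
(.lf (nat_lit 481894) (.g (nat_lit 3249) (.e (nat_lit 6989) (nat_lit 377) (.e (nat_lit 2777) (nat_lit 178) (.e (nat_lit 286733) (nat_lit 2) (.e (nat_lit 90133) (nat_lit 9) (.e (nat_lit 2397) (nat_lit 157) (.e (nat_lit 7590) (nat_lit 407) (.e (nat_lit 73748) (nat_lit 3) (.e (nat_lit 516102) (nat_lit 0) .nil)))))))) (.g (nat_lit 1) (.e (nat_lit 117934) (nat_lit 0) .nil) .nil)))) (.nd (nat_lit 9) 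
(.lf (nat_lit 481638) (.g (nat_lit 3200) (.e (nat_lit 5533) (nat_lit 306) (.e (nat_lit 1181) (nat_lit 87) (.e (nat_lit 57575) (nat_lit 55) (.e (nat_lit 778466) (nat_lit 11) (.e (nat_lit 24617) (nat_lit 7) .nil))))) (.g (nat_lit 0) (.e (nat_lit 114759) (nat_lit 0) .nil) .nil))) 
(.lf (nat_lit 482150) (.g (nat_lit 910) (.e (nat_lit 7287) (nat_lit 386) (.e (nat_lit 163875) (nat_lit 3) (.e (nat_lit 204837) (nat_lit 20) .nil))) (.g (nat_lit 0) (.e (nat_lit 118716) (nat_lit 0) .nil) .nil))))) (.nd (nat_lit 8) (.nd (nat_lit 9) 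
(.lf (nat_lit 481510) (.g (nat_lit 3650) (.e (nat_lit 5547) (nat_lit 306) (.e (nat_lit 2610) (nat_lit 163) (.e (nat_lit 163978) (nat_lit 30) (.e (nat_lit 573479) (nat_lit 13) (.e (nat_lit 65604) (nat_lit 9) (.e (nat_lit 336013) (nat_lit 2) (.e (nat_lit 90170) (nat_lit 13) (.e (nat_lit 172042) (nat_lit 0) (.e (nat_lit 2458) (nat_lit 157) .nil))))))))) (.g (nat_lit 1) (.e (nat_lit 114193) (nat_lit 0) .nil) .nil))) 
(.lf (nat_lit 482022) (.g (nat_lit 2562) (.e (nat_lit 7065) (nat_lit 377) (.e (nat_lit 1348) (nat_lit 102) (.e (nat_lit 286733) (nat_lit 2) (.e (nat_lit 90167) (nat_lit 13) (.e (nat_lit 172126) (nat_lit 14) (.e (nat_lit 491537) (nat_lit 2) (.e (nat_lit 90133) (nat_lit 9) (.e (nat_lit 2397) (nat_lit 157) .nil)))))))) (.g (nat_lit 1) (.e (nat_lit 118196) (nat_lit 0) .nil) .nil)))) (.nd (nat_lit 9) 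
(.lf (nat_lit 481766) (.g (nat_lit 2342) (.e (nat_lit 5600) (nat_lit 310) (.e (nat_lit 163869) (nat_lit 2) (.e (nat_lit 196670) (nat_lit 14) (.e (nat_lit 73746) (nat_lit 3) (.e (nat_lit 516131) (nat_lit 3) .nil))))) (.g (nat_lit 0) (.e (nat_lit 117234) (nat_lit 0) .nil) .nil))) 
(.lf (nat_lit 482278) (.g (nat_lit 3368) (.e (nat_lit 7265) (nat_lit 384) (.e (nat_lit 57406) (nat_lit 12) (.e (nat_lit 336019) (nat_lit 3) (.e (nat_lit 98372) (nat_lit 29) (.e (nat_lit 450586) (nat_lit 10) (.e (nat_lit 573475) (nat_lit 12) (.e (nat_lit 57353) (nat_lit 0) .nil))))))) (.g (nat_lit 1) (.e (nat_lit 118935) (nat_lit 0) .nil) .nil)))))))) 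
(.nd (nat_lit 5) (.nd (nat_lit 6) (.nd (nat_lit 7) (.nd (nat_lit 8) (.nd (nat_lit 9) 
(.lf (nat_lit 481302) (.g (nat_lit 2766) (.e (nat_lit 5395) (nat_lit 301) (.e (nat_lit 57464) (nat_lit 23) (.e (nat_lit 516151) (nat_lit 9) (.e (nat_lit 426211) (nat_lit 9) (.e (nat_lit 426125) (nat_lit 2) (.e (nat_lit 204544) (nat_lit 18) (.e (nat_lit 2773) (nat_lit 177) (.e (nat_lit 278550) (nat_lit 10) .nil)))))))) (.g (nat_lit 1) (.e (nat_lit 112945) (nat_lit 0) .nil) .nil))) 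
(.lf (nat_lit 481814) (.g (nat_lit 3130) (.e (nat_lit 6940) (nat_lit 375) (.e (nat_lit 163936) (nat_lit 18) (.e (nat_lit 475185) (nat_lit 29) (.e (nat_lit 557100) (nat_lit 13) (.e (nat_lit 172113) (nat_lit 10) (.e (nat_lit 434248) (nat_lit 28) (.e (nat_lit 573475) (nat_lit 12) (.e (nat_lit 57348) (nat_lit 0) .nil)))))))) (.g (nat_lit 1) (.e (nat_lit 117775) (nat_lit 0) .nil) .nil)))) 
(.nd (nat_lit 9) 
(.lf (nat_lit 481558) (.g (nat_lit 1826) (.e (nat_lit 5547) (nat_lit 306) (.e (nat_lit 2629) (nat_lit 164) (.e (nat_lit 172120) (nat_lit 12) (.e (nat_lit 475211) (nat_lit 41) (.e (nat_lit 712753) (nat_lit 30) .nil))))) (.g (nat_lit 0) (.e (nat_lit 114358) (nat_lit 0) .nil) .nil))) 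
(.lf (nat_lit 482070) (.g (nat_lit 1784) (.e (nat_lit 7098) (nat_lit 380) (.e (nat_lit 171776) (nat_lit 234) (.e (nat_lit 16470) (nat_lit 14) (.e (nat_lit 491571) (nat_lit 13) (.e (nat_lit 401152) (nat_lit 17) .nil))))) (.g (nat_lit 1) (.e (nat_lit 118299) (nat_lit 0) .nil) .nil))))) (.nd (nat_lit 8) (.nd (nat_lit 9) 
(.lf (nat_lit 481430) (.g (nat_lit 3329) (.e (nat_lit 5546) (nat_lit 306) (.e (nat_lit 2610) (nat_lit 163) (.e (nat_lit 163978) (nat_lit 30) (.e (nat_lit 573484) (nat_lit 13) (.e (nat_lit 65610) (nat_lit 10) (.e (nat_lit 344117) (nat_lit 21) (.e (nat_lit 516151) (nat_lit 9) (.e (nat_lit 426042) (nat_lit 0) (.e (nat_lit 2458) (nat_lit 157) .nil))))))))) (.g (nat_lit 1) (.e (nat_lit 113783) (nat_lit 0) .nil) .nil))) 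
(.lf (nat_lit 481942) (.g (nat_lit 4752) (.e (nat_lit 7008) (nat_lit 377) (.e (nat_lit 2817) (nat_lit 181) (.e (nat_lit 311312) (nat_lit 2) (.e (nat_lit 196666) (nat_lit 13) (.e (nat_lit 65610) (nat_lit 10) (.e (nat_lit 344117) (nat_lit 21) (.e (nat_lit 516106) (nat_lit 0) .nil))))))) (.g (nat_lit 1) (.e (nat_lit 118067) (nat_lit 0) .nil) .nil)))) (.nd (nat_lit 9) 
(.lf (nat_lit 481686) (.g (nat_lit 3027) (.e (nat_lit 5587) (nat_lit 310) (.e (nat_lit 163907) (nat_lit 12) (.e (nat_lit 426320) (nat_lit 12) (.e (nat_lit 475210) (nat_lit 41) (.e (nat_lit 712753) (nat_lit 30) (.e (nat_lit 458496) (nat_lit 0) .nil)))))) (.g (nat_lit 1) (.e (nat_lit 115384) (nat_lit 0) .nil) .nil))) 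
(.lf (nat_lit 482198) (.g (nat_lit 2736) (.e (nat_lit 7261) (nat_lit 384) (.e (nat_lit 57407) (nat_lit 12) (.e (nat_lit 336019) (nat_lit 3) (.e (nat_lit 98372) (nat_lit 29) (.e (nat_lit 450586) (nat_lit 10) (.e (nat_lit 573478) (nat_lit 12) (.e (nat_lit 57353) (nat_lit 0) .nil))))))) (.g (nat_lit 1) (.e (nat_lit 118844) (nat_lit 0) .nil) .nil)))))) 
(.nd (nat_lit 7) (.nd (nat_lit 8) (.nd (nat_lit 9) 
(.lf (nat_lit 481366) (.g (nat_lit 1203) (.e (nat_lit 5505) (nat_lit 306) (.e (nat_lit 2626) (nat_lit 164) (.e (nat_lit 172120) (nat_lit 12) (.e (nat_lit 475207) (nat_lit 41) .nil)))) (.g (nat_lit 0) (.e (nat_lit 113466) (nat_lit 0) .nil) .nil))) 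
(.lf (nat_lit 481878) (.g (nat_lit 1055) (.e (nat_lit 6989) (nat_lit 377) (.e (nat_lit 2810) (nat_lit 180) (.e (nat_lit 303117) (nat_lit 2) (.e (nat_lit 196681) (nat_lit 17) .nil)))) (.g (nat_lit 0) (.e (nat_lit 117891) (nat_lit 0) .nil) .nil)))) (.nd (nat_lit 9) 
(.lf (nat_lit 481622) (.g (nat_lit 3388) (.e (nat_lit 5548) (nat_lit 306) (.e (nat_lit 2610) (nat_lit 163) (.e (nat_lit 163979) (nat_lit 30) (.e (nat_lit 573493) (nat_lit 15) (.e (nat_lit 81953) (nat_lit 22) (.e (nat_lit 90170) (nat_lit 13) (.e (nat_lit 172049) (nat_lit 0) (.e (nat_lit 2458) (nat_lit 157) .nil)))))))) (.g (nat_lit 1) (.e (nat_lit 114571) (nat_lit 0) .nil) .nil))) 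
(.lf (nat_lit 482134) (.g (nat_lit 2504) (.e (nat_lit 7280) (nat_lit 386) (.e (nat_lit 163875) (nat_lit 3) (.e (nat_lit 204837) (nat_lit 20) (.e (nat_lit 114719) (nat_lit 23) (.e (nat_lit 98365) (nat_lit 26) (.e (nat_lit 426124) (nat_lit 2) (.e (nat_lit 196677) (nat_lit 16) (.e (nat_lit 122884) (nat_lit 0) .nil)))))))) (.g (nat_lit 1) (.e (nat_lit 118626) (nat_lit 0) .nil) .nil))))) 
(.nd (nat_lit 8) (.nd (nat_lit 9) 
(.lf (nat_lit 481494) (.g (nat_lit 1631) (.e (nat_lit 5546) (nat_lit 306) (.e (nat_lit 2640) (nat_lit 165) (.e (nat_lit 180277) (nat_lit 32) (.e (nat_lit 1428) (nat_lit 108) (.e (nat_lit 336434) (nat_lit 30) (.e (nat_lit 458496) (nat_lit 0) .nil)))))) (.g (nat_lit 1) (.e (nat_lit 114020) (nat_lit 0) .nil) .nil))) 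
(.lf (nat_lit 482006) (.g (nat_lit 3350) (.e (nat_lit 7064) (nat_lit 377) (.e (nat_lit 1348) (nat_lit 102) (.e (nat_lit 286733) (nat_lit 2) (.e (nat_lit 90170) (nat_lit 13) (.e (nat_lit 172124) (nat_lit 14) .nil))))) (.g (nat_lit 0) (.e (nat_lit 118177) (nat_lit 0) .nil) .nil)))) (.nd (nat_lit 9) 
(.lf (nat_lit 481750) (.g (nat_lit 2823) (.e (nat_lit 5599) (nat_lit 310) (.e (nat_lit 163874) (nat_lit 3) (.e (nat_lit 204863) (nat_lit 27) (.e (nat_lit 344129) (nat_lit 26) (.e (nat_lit 557097) (nat_lit 13) (.e (nat_lit 179968) (nat_lit 18) (.e (nat_lit 98325) (nat_lit 17) (.e (nat_lit 2515) (nat_lit 157) .nil)))))))) (.g (nat_lit 1) (.e (nat_lit 116988) (nat_lit 0) .nil) .nil))) 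
(.lf (nat_lit 482262) (.g (nat_lit 6698) (.e (nat_lit 7265) (nat_lit 384) (.e (nat_lit 57406) (nat_lit 12) (.e (nat_lit 336018) (nat_lit 3) (.e (nat_lit 98373) (nat_lit 29) (.e (nat_lit 450588) (nat_lit 10) (.e (nat_lit 573475) (nat_lit 12) (.e (nat_lit 57347) (nat_lit 0) .nil))))))) (.g (nat_lit 1) (.e (nat_lit 118919) (nat_lit 0) .nil) .nil))))))) 
(.nd (nat_lit 6) (.nd (nat_lit 7) (.nd (nat_lit 8) (.nd (nat_lit 9) 
(.lf (nat_lit 481334) (.g (nat_lit 732) (.e (nat_lit 5410) (nat_lit 303) (.e (nat_lit 73750) (nat_lit 6) (.e (nat_lit 540724) (nat_lit 28) (.e (nat_lit 442395) (nat_lit 20) (.e (nat_lit 3571) (nat_lit 222) (.e (nat_lit 737284) (nat_lit 0) .nil)))))) (.g (nat_lit 1) (.e (nat_lit 113037) (nat_lit 0) .nil) .nil))) 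
(.lf (nat_lit 481846) (.g (nat_lit 2979) (.e (nat_lit 6949) (nat_lit 377) (.e (nat_lit 2809) (nat_lit 180) (.e (nat_lit 303117) (nat_lit 2) (.e (nat_lit 196673) (nat_lit 15) (.e (nat_lit 81956) (nat_lit 23) .nil))))) (.g (nat_lit 0) (.e (nat_lit 117822) (nat_lit 0) .nil) .nil)))) (.nd (nat_lit 9) 
(.lf (nat_lit 481590) (.g (nat_lit 3177) (.e (nat_lit 5548) (nat_lit 306) (.e (nat_lit 2610) (nat_lit 163) (.e (nat_lit 163977) (nat_lit 30) (.e (nat_lit 573493) (nat_lit 15) (.e (nat_lit 81953) (nat_lit 22) (.e (nat_lit 90170) (nat_lit 13) (.e (nat_lit 172042) (nat_lit 0) (.e (nat_lit 2458) (nat_lit 157) .nil)))))))) (.g (nat_lit 1) (.e (nat_lit 114526) (nat_lit 0) .nil) .nil))) 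
(.lf (nat_lit 482102) (.g (nat_lit 1160) (.e (nat_lit 7112) (nat_lit 381) (.e (nat_lit 229619) (nat_lit 221) (.e (nat_lit 2578) (nat_lit 161) (.e (nat_lit 40993) (nat_lit 11) (.e (nat_lit 24657) (nat_lit 13) (.e (nat_lit 401152) (nat_lit 17) .nil)))))) (.g (nat_lit 1) (.e (nat_lit 118406) (nat_lit 0) .nil) .nil))))) (.nd (nat_lit 8) (.nd (nat_lit 9) 
(.lf (nat_lit 481462) (.g (nat_lit 3100) (.e (nat_lit 5546) (nat_lit 306) (.e (nat_lit 2619) (nat_lit 164) (.e (nat_lit 172124) (nat_lit 14) (.e (nat_lit 491549) (nat_lit 9) (.e (nat_lit 336434) (nat_lit 30) (.e (nat_lit 458496) (nat_lit 0) .nil)))))) (.g (nat_lit 1) (.e (nat_lit 113898) (nat_lit 0) .nil) .nil))) 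
(.lf (nat_lit 481974) (.g (nat_lit 1944) (.e (nat_lit 7016) (nat_lit 377) (.e (nat_lit 2798) (nat_lit 180) (.e (nat_lit 303117) (nat_lit 2) (.e (nat_lit 196674) (nat_lit 15) (.e (nat_lit 81954) (nat_lit 23) .nil))))) (.g (nat_lit 0) (.e (nat_lit 118114) (nat_lit 0) .nil) .nil)))) (.nd (nat_lit 9) 
(.lf (nat_lit 481718) (.g (nat_lit 2134) (.e (nat_lit 5593) (nat_lit 310) (.e (nat_lit 163875) (nat_lit 3) (.e (nat_lit 204863) (nat_lit 27) (.e (nat_lit 344131) (nat_lit 26) (.e (nat_lit 557105) (nat_lit 14) .nil))))) (.g (nat_lit 0) (.e (nat_lit 116044) (nat_lit 0) .nil) .nil))) 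
(.lf (nat_lit 482230) (.g (nat_lit 6164) (.e (nat_lit 7261) (nat_lit 384) (.e (nat_lit 57432) (nat_lit 16) (.e (nat_lit 368676) (nat_lit 21) (.e (nat_lit 516166) (nat_lit 12) (.e (nat_lit 450588) (nat_lit 10) (.e (nat_lit 573473) (nat_lit 12) (.e (nat_lit 57348) (nat_lit 0) .nil))))))) (.g (nat_lit 1) (.e (nat_lit 118878) (nat_lit 0) .nil) .nil)))))) 
(.nd (nat_lit 7) (.nd (nat_lit 8) (.nd (nat_lit 9) 
(.lf (nat_lit 481398) (.g (nat_lit 2495) (.e (nat_lit 5543) (nat_lit 306) (.e (nat_lit 2629) (nat_lit 164) (.e (nat_lit 172126) (nat_lit 14) (.e (nat_lit 491549) (nat_lit 9) (.e (nat_lit 336434) (nat_lit 30) (.e (nat_lit 458496) (nat_lit 0) .nil)))))) (.g (nat_lit 1) (.e (nat_lit 113612) (nat_lit 0) .nil) .nil))) 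
(.lf (nat_lit 481910) (.g (nat_lit 3342) (.e (nat_lit 6986) (nat_lit 377) (.e (nat_lit 2819) (nat_lit 181) (.e (nat_lit 311310) (nat_lit 2) (.e (nat_lit 196672) (nat_lit 15) (.e (nat_lit 81954) (nat_lit 23) (.e (nat_lit 98325) (nat_lit 17) .nil)))))) (.g (nat_lit 1) (.e (nat_lit 117961) (nat_lit 0) .nil) .nil)))) (.nd (nat_lit 9) 
(.lf (nat_lit 481654) (.g (nat_lit 1832) (.e (nat_lit 5586) (nat_lit 310) (.e (nat_lit 163907) (nat_lit 12) (.e (nat_lit 426320) (nat_lit 12) (.e (nat_lit 475209) (nat_lit 41) (.e (nat_lit 712755) (nat_lit 30) .nil))))) (.g (nat_lit 0) (.e (nat_lit 115112) (nat_lit 0) .nil) .nil))) 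
(.lf (nat_lit 482166) (.g (nat_lit 736) (.e (nat_lit 7290) (nat_lit 386) (.e (nat_lit 163905) (nat_lit 12) (.e (nat_lit 426479) (nat_lit 27) .nil))) (.g (nat_lit 0) (.e (nat_lit 118757) (nat_lit 0) .nil) .nil))))) (.nd (nat_lit 8) (.nd (nat_lit 9) 
(.lf (nat_lit 481526) (.g (nat_lit 2840) (.e (nat_lit 5547) (nat_lit 306) (.e (nat_lit 2610) (nat_lit 163) (.e (nat_lit 163979) (nat_lit 30) (.e (nat_lit 573482) (nat_lit 13) (.e (nat_lit 65604) (nat_lit 9) (.e (nat_lit 336028) (nat_lit 3) (.e (nat_lit 98359) (nat_lit 26) (.e (nat_lit 426042) (nat_lit 0) (.e (nat_lit 2458) (nat_lit 157) .nil))))))))) (.g (nat_lit 1) (.e (nat_lit 114213) (nat_lit 0) .nil) .nil))) 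
(.lf (nat_lit 482038) (.g (nat_lit 3083) (.e (nat_lit 7936) (nat_lit 377) (.e (nat_lit 2797) (nat_lit 180) (.e (nat_lit 303119) (nat_lit 3) (.e (nat_lit 204861) (nat_lit 26) (.e (nat_lit 336186) (nat_lit 11) .nil))))) (.g (nat_lit 0) (.e (nat_lit 118218) (nat_lit 0) .nil) .nil)))) (.nd (nat_lit 9) 
(.lf (nat_lit 481782) (.g (nat_lit 2076) (.e (nat_lit 5603) (nat_lit 310) (.e (nat_lit 163905) (nat_lit 12) (.e (nat_lit 426320) (nat_lit 12) (.e (nat_lit 475210) (nat_lit 41) (.e (nat_lit 712755) (nat_lit 30) .nil))))) (.g (nat_lit 0) (.e (nat_lit 117457) (nat_lit 0) .nil) .nil))) 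
(.lf (nat_lit 482294) (.g (nat_lit 3055) (.e (nat_lit 7265) (nat_lit 384) (.e (nat_lit 57406) (nat_lit 12) (.e (nat_lit 343808) (nat_lit 3) (.e (nat_lit 98373) (nat_lit 29) (.e (nat_lit 450587) (nat_lit 10) (.e (nat_lit 573473) (nat_lit 12) (.e (nat_lit 57353) (nat_lit 0) .nil))))))) (.g (nat_lit 1) (.e (nat_lit 118951) (nat_lit 0) .nil) .nil))))))))) 
(.nd (nat_lit 4) (.nd (nat_lit 5) (.nd (nat_lit 6) (.nd (nat_lit 7) (.nd (nat_lit 8) 
(.nd (nat_lit 9) 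
(.lf (nat_lit 481294) (.g (nat_lit 3520) (.e (nat_lit 5394) (nat_lit 301) (.e (nat_lit 57464) (nat_lit 23) (.e (nat_lit 516166) (nat_lit 12) (.e (nat_lit 450588) (nat_lit 10) (.e (nat_lit 573448) (nat_lit 9) .nil))))) (.g (nat_lit 0) (.e (nat_lit 112933) (nat_lit 0) .nil) .nil))) 
(.lf (nat_lit 481806) (.g (nat_lit 3685) (.e (nat_lit 6920) (nat_lit 371) (.e (nat_lit 2448) (nat_lit 157) (.e (nat_lit 3098) (nat_lit 192) (.e (nat_lit 491569) (nat_lit 13) (.e (nat_lit 393301) (nat_lit 27) (.e (nat_lit 491560) (nat_lit 10) (.e (nat_lit 344089) (nat_lit 18) .nil))))))) (.g (nat_lit 1) (.e (nat_lit 117755) (nat_lit 0) .nil) .nil)))) (.nd (nat_lit 9) 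
(.lf (nat_lit 481550) (.g (nat_lit 2563) (.e (nat_lit 5547) (nat_lit 306) (.e (nat_lit 2628) (nat_lit 164) (.e (nat_lit 172120) (nat_lit 12) (.e (nat_lit 475210) (nat_lit 41) (.e (nat_lit 712755) (nat_lit 30) (.e (nat_lit 458496) (nat_lit 0) .nil)))))) (.g (nat_lit 1) (.e (nat_lit 114322) (nat_lit 0) .nil) .nil))) 
(.lf (nat_lit 482062) (.g (nat_lit 2566) (.e (nat_lit 7096) (nat_lit 380) (.e (nat_lit 164368) (nat_lit 247) (.e (nat_lit 8318) (nat_lit 64) (.e (nat_lit 516174) (nat_lit 14) (.e (nat_lit 466954) (nat_lit 11) (.e (nat_lit 336287) (nat_lit 15) .nil)))))) (.g (nat_lit 1) (.e (nat_lit 118270) (nat_lit 0) .nil) .nil))))) (.nd (nat_lit 8) (.nd (nat_lit 9) 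
(.lf (nat_lit 481422) (.g (nat_lit 1897) (.e (nat_lit 5546) (nat_lit 306) (.e (nat_lit 2610) (nat_lit 163) (.e (nat_lit 163977) (nat_lit 30) (.e (nat_lit 573485) (nat_lit 13) (.e (nat_lit 65604) (nat_lit 9) .nil))))) (.g (nat_lit 0) (.e (nat_lit 113774) (nat_lit 0) .nil) .nil))) 
(.lf (nat_lit 481934) (.g (nat_lit 1261) (.e (nat_lit 7011) (nat_lit 377) (.e (nat_lit 2798) (nat_lit 180) (.e (nat_lit 303117) (nat_lit 2) (.e (nat_lit 196674) (nat_lit 15) .nil)))) (.g (nat_lit 0) (.e (nat_lit 118051) (nat_lit 0) .nil) .nil)))) (.nd (nat_lit 9) 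
(.lf (nat_lit 481678) (.g (nat_lit 2229) (.e (nat_lit 5587) (nat_lit 310) (.e (nat_lit 163906) (nat_lit 12) (.e (nat_lit 426320) (nat_lit 12) (.e (nat_lit 475210) (nat_lit 41) (.e (nat_lit 712755) (nat_lit 30) (.e (nat_lit 458496) (nat_lit 0) .nil)))))) (.g (nat_lit 1) (.e (nat_lit 115364) (nat_lit 0) .nil) .nil))) 
(.lf (nat_lit 482190) (.g (nat_lit 3303) (.e (nat_lit 7261) (nat_lit 384) (.e (nat_lit 57407) (nat_lit 12) (.e (nat_lit 336019) (nat_lit 3) (.e (nat_lit 98372) (nat_lit 29) (.e (nat_lit 450586) (nat_lit 10) (.e (nat_lit 573473) (nat_lit 12) (.e (nat_lit 57353) (nat_lit 0) .nil))))))) (.g (nat_lit 1) (.e (nat_lit 118836) (nat_lit 0) .nil) .nil)))))) 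
(.nd (nat_lit 7) (.nd (nat_lit 8) (.nd (nat_lit 9) 
(.lf (nat_lit 481358) (.g (nat_lit 2628) (.e (nat_lit 5448) (nat_lit 306) (.e (nat_lit 2612) (nat_lit 163) (.e (nat_lit 163978) (nat_lit 30) (.e (nat_lit 573479) (nat_lit 13) (.e (nat_lit 65619) (nat_lit 10) (.e (nat_lit 344117) (nat_lit 21) (.e (nat_lit 516159) (nat_lit 10) (.e (nat_lit 434216) (nat_lit 18) .nil)))))))) (.g (nat_lit 1) (.e (nat_lit 113300) (nat_lit 0) .nil) .nil))) 
(.lf (nat_lit 481870) (.g (nat_lit 1675) (.e (nat_lit 6983) (nat_lit 377) (.e (nat_lit 2809) (nat_lit 180) (.e (nat_lit 303117) (nat_lit 2) (.e (nat_lit 196674) (nat_lit 15) .nil)))) (.g (nat_lit 0) (.e (nat_lit 117866) (nat_lit 0) .nil) .nil)))) (.nd (nat_lit 9) 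
(.lf (nat_lit 481614) (.g (nat_lit 2375) (.e (nat_lit 5548) (nat_lit 306) (.e (nat_lit 2610) (nat_lit 163) (.e (nat_lit 163979) (nat_lit 30) (.e (nat_lit 573482) (nat_lit 13) (.e (nat_lit 65604) (nat_lit 9) (.e (nat_lit 336028) (nat_lit 3) (.e (nat_lit 98359) (nat_lit 26) (.e (nat_lit 426043) (nat_lit 0) (.e (nat_lit 2458) (nat_lit 157) .nil))))))))) (.g (nat_lit 1) (.e (nat_lit 114556) (nat_lit 0) .nil) .nil))) 
(.lf (nat_lit 482126) (.g (nat_lit 3255) (.e (nat_lit 7280) (nat_lit 386) (.e (nat_lit 163875) (nat_lit 3) (.e (nat_lit 204830) (nat_lit 18) (.e (nat_lit 57852) (nat_lit 252) (.e (nat_lit 57430) (nat_lit 16) (.e (nat_lit 368676) (nat_lit 21) (.e (nat_lit 516179) (nat_lit 15) (.e (nat_lit 475161) (nat_lit 21) .nil)))))))) (.g (nat_lit 1) (.e (nat_lit 118618) (nat_lit 0) .nil) .nil))))) 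
(.nd (nat_lit 8) (.nd (nat_lit 9) 
(.lf (nat_lit 481486) (.g (nat_lit 1569) (.e (nat_lit 5546) (nat_lit 306) (.e (nat_lit 2639) (nat_lit 165) (.e (nat_lit 180277) (nat_lit 32) (.e (nat_lit 1428) (nat_lit 108) (.e (nat_lit 336434) (nat_lit 30) (.e (nat_lit 458496) (nat_lit 0) .nil)))))) (.g (nat_lit 1) (.e (nat_lit 114010) (nat_lit 0) .nil) .nil))) 
(.lf (nat_lit 481998) (.g (nat_lit 2487) (.e (nat_lit 7073) (nat_lit 377) (.e (nat_lit 2798) (nat_lit 180) (.e (nat_lit 303117) (nat_lit 2) (.e (nat_lit 196672) (nat_lit 15) (.e (nat_lit 81954) (nat_lit 23) .nil))))) (.g (nat_lit 0) (.e (nat_lit 118160) (nat_lit 0) .nil) .nil)))) (.nd (nat_lit 9) 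
(.lf (nat_lit 481742) (.g (nat_lit 807) (.e (nat_lit 5598) (nat_lit 310) (.e (nat_lit 163913) (nat_lit 12) (.e (nat_lit 426554) (nat_lit 32) .nil))) (.g (nat_lit 0) (.e (nat_lit 116739) (nat_lit 0) .nil) .nil))) 
(.lf (nat_lit 482254) (.g (nat_lit 2353) (.e (nat_lit 7265) (nat_lit 384) (.e (nat_lit 57406) (nat_lit 12) (.e (nat_lit 336015) (nat_lit 2) (.e (nat_lit 90170) (nat_lit 13) (.e (nat_lit 172113) (nat_lit 10) .nil))))) (.g (nat_lit 0) (.e (nat_lit 118910) (nat_lit 0) .nil) .nil))))))) (.nd (nat_lit 6) (.nd (nat_lit 7) (.nd (nat_lit 8) (.nd (nat_lit 9) 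
(.lf (nat_lit 481326) (.g (nat_lit 215) (.e (nat_lit 5404) (nat_lit 302) (.e (nat_lit 65653) (nat_lit 27) (.e (nat_lit 426010) (nat_lit 0) .nil))) (.g (nat_lit 0) (.e (nat_lit 113006) (nat_lit 0) .nil) .nil))) 
(.lf (nat_lit 481838) (.g (nat_lit 2573) (.e (nat_lit 6943) (nat_lit 375) (.e (nat_lit 163947) (nat_lit 20) (.e (nat_lit 491560) (nat_lit 10) (.e (nat_lit 344177) (nat_lit 43) (.e (nat_lit 770071) (nat_lit 8) .nil))))) (.g (nat_lit 0) (.e (nat_lit 117812) (nat_lit 0) .nil) .nil)))) (.nd (nat_lit 9) 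
(.lf (nat_lit 481582) (.g (nat_lit 378) (.e (nat_lit 5547) (nat_lit 306) (.e (nat_lit 2650) (nat_lit 166) (.e (nat_lit 188455) (nat_lit 24) .nil))) (.g (nat_lit 0) (.e (nat_lit 114466) (nat_lit 0) .nil) .nil))) 
(.lf (nat_lit 482094) (.g (nat_lit 760) (.e (nat_lit 7107) (nat_lit 380) (.e (nat_lit 164281) (nat_lit 222) (.e (nat_lit 57884) (nat_lit 270) (.e (nat_lit 1533) (nat_lit 109) .nil)))) (.g (nat_lit 0) (.e (nat_lit 118390) (nat_lit 0) .nil) .nil))))) (.nd (nat_lit 8) (.nd (nat_lit 9) 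
(.lf (nat_lit 481454) (.g (nat_lit 2888) (.e (nat_lit 5546) (nat_lit 306) (.e (nat_lit 2619) (nat_lit 164) (.e (nat_lit 172118) (nat_lit 12) (.e (nat_lit 475210) (nat_lit 41) (.e (nat_lit 712755) (nat_lit 30) (.e (nat_lit 458496) (nat_lit 0) .nil)))))) (.g (nat_lit 1) (.e (nat_lit 113886) (nat_lit 0) .nil) .nil))) 
(.lf (nat_lit 481966) (.g (nat_lit 2278) (.e (nat_lit 7015) (nat_lit 377) (.e (nat_lit 2797) (nat_lit 180) (.e (nat_lit 303119) (nat_lit 3) (.e (nat_lit 204868) (nat_lit 29) .nil)))) (.g (nat_lit 0) (.e (nat_lit 118102) (nat_lit 0) .nil) .nil)))) (.nd (nat_lit 9) 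
(.lf (nat_lit 481710) (.g (nat_lit 2628) (.e (nat_lit 5591) (nat_lit 310) (.e (nat_lit 163874) (nat_lit 3) (.e (nat_lit 204863) (nat_lit 27) (.e (nat_lit 344131) (nat_lit 26) (.e (nat_lit 557105) (nat_lit 14) .nil))))) (.g (nat_lit 0) (.e (nat_lit 115932) (nat_lit 0) .nil) .nil))) 
(.lf (nat_lit 482222) (.g (nat_lit 5559) (.e (nat_lit 7261) (nat_lit 384) (.e (nat_lit 57430) (nat_lit 16) (.e (nat_lit 368676) (nat_lit 21) (.e (nat_lit 516166) (nat_lit 12) (.e (nat_lit 450588) (nat_lit 10) (.e (nat_lit 573475) (nat_lit 12) (.e (nat_lit 57351) (nat_lit 0) .nil))))))) (.g (nat_lit 1) (.e (nat_lit 118870) (nat_lit 0) .nil) .nil)))))) 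
(.nd (nat_lit 7) (.nd (nat_lit 8) (.nd (nat_lit 9) 
(.lf (nat_lit 481390) (.g (nat_lit 2486) (.e (nat_lit 5543) (nat_lit 306) (.e (nat_lit 2628) (nat_lit 164) (.e (nat_lit 172126) (nat_lit 14) (.e (nat_lit 491549) (nat_lit 9) (.e (nat_lit 336432) (nat_lit 30) (.e (nat_lit 458496) (nat_lit 0) .nil)))))) (.g (nat_lit 1) (.e (nat_lit 113583) (nat_lit 0) .nil) .nil))) 
(.lf (nat_lit 481902) (.g (nat_lit 1356) (.e (nat_lit 6989) (nat_lit 377) (.e (nat_lit 1361) (nat_lit 102) (.e (nat_lit 286761) (nat_lit 13) (.e (nat_lit 393289) (nat_lit 25) (.e (nat_lit 458804) (nat_lit 38) .nil))))) (.g (nat_lit 0) (.e (nat_lit 117950) (nat_lit 0) .nil) .nil)))) (.nd (nat_lit 9) 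
(.lf (nat_lit 481646) (.g (nat_lit 1511) (.e (nat_lit 5585) (nat_lit 310) (.e (nat_lit 163875) (nat_lit 3) (.e (nat_lit 204861) (nat_lit 26) (.e (nat_lit 336213) (nat_lit 13) .nil)))) (.g (nat_lit 0) (.e (nat_lit 115055) (nat_lit 0) .nil) .nil))) 
(.lf (nat_lit 482158) (.g (nat_lit 1701) (.e (nat_lit 7289) (nat_lit 386) (.e (nat_lit 163875) (nat_lit 3) (.e (nat_lit 204838) (nat_lit 20) (.e (nat_lit 114719) (nat_lit 23) .nil)))) (.g (nat_lit 0) (.e (nat_lit 118732) (nat_lit 0) .nil) .nil))))) (.nd (nat_lit 8) (.nd (nat_lit 9) 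
(.lf (nat_lit 481518) (.g (nat_lit 2726) (.e (nat_lit 5547) (nat_lit 306) (.e (nat_lit 2610) (nat_lit 163) (.e (nat_lit 163978) (nat_lit 30) (.e (nat_lit 573484) (nat_lit 13) (.e (nat_lit 65610) (nat_lit 10) (.e (nat_lit 344117) (nat_lit 21) (.e (nat_lit 516145) (nat_lit 9) (.e (nat_lit 425996) (nat_lit 0) (.e (nat_lit 2475) (nat_lit 157) .nil))))))))) (.g (nat_lit 1) (.e (nat_lit 114201) (nat_lit 0) .nil) .nil))) 
(.lf (nat_lit 482030) (.g (nat_lit 1631) (.e (nat_lit 7936) (nat_lit 377) (.e (nat_lit 2797) (nat_lit 180) (.e (nat_lit 303117) (nat_lit 2) (.e (nat_lit 196674) (nat_lit 15) (.e (nat_lit 81956) (nat_lit 23) .nil))))) (.g (nat_lit 0) (.e (nat_lit 118209) (nat_lit 0) .nil) .nil)))) (.nd (nat_lit 9) 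
(.lf (nat_lit 481774) (.g (nat_lit 2028) (.e (nat_lit 5602) (nat_lit 310) (.e (nat_lit 163874) (nat_lit 3) (.e (nat_lit 204861) (nat_lit 26) (.e (nat_lit 336213) (nat_lit 13) .nil)))) (.g (nat_lit 0) (.e (nat_lit 117353) (nat_lit 0) .nil) .nil))) 
(.lf (nat_lit 482286) (.g (nat_lit 6137) (.e (nat_lit 7265) (nat_lit 384) (.e (nat_lit 57406) (nat_lit 12) (.e (nat_lit 336019) (nat_lit 3) (.e (nat_lit 98373) (nat_lit 29) (.e (nat_lit 450588) (nat_lit 10) (.e (nat_lit 573473) (nat_lit 12) (.e (nat_lit 57347) (nat_lit 0) .nil))))))) (.g (nat_lit 1) (.e (nat_lit 118943) (nat_lit 0) .nil) .nil)))))))) 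
(.nd (nat_lit 5) (.nd (nat_lit 6) (.nd (nat_lit 7) (.nd (nat_lit 8) (.nd (nat_lit 9) 
(.lf (nat_lit 481310) (.g (nat_lit 1522) (.e (nat_lit 5395) (nat_lit 301) (.e (nat_lit 57464) (nat_lit 23) (.e (nat_lit 516165) (nat_lit 12) (.e (nat_lit 450579) (nat_lit 5) (.e (nat_lit 532522) (nat_lit 7) .nil))))) (.g (nat_lit 0) (.e (nat_lit 112953) (nat_lit 0) .nil) .nil))) 
(.lf (nat_lit 481822) (.g (nat_lit 2578) (.e (nat_lit 6940) (nat_lit 375) (.e (nat_lit 163947) (nat_lit 20) (.e (nat_lit 491560) (nat_lit 10) (.e (nat_lit 344177) (nat_lit 43) (.e (nat_lit 770071) (nat_lit 8) .nil))))) (.g (nat_lit 0) (.e (nat_lit 117789) (nat_lit 0) .nil) .nil)))) (.nd (nat_lit 9) 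
(.lf (nat_lit 481566) (.g (nat_lit 2134) (.e (nat_lit 5547) (nat_lit 306) (.e (nat_lit 2638) (nat_lit 165) (.e (nat_lit 180277) (nat_lit 32) (.e (nat_lit 1427) (nat_lit 108) (.e (nat_lit 336434) (nat_lit 30) (.e (nat_lit 458496) (nat_lit 0) .nil)))))) (.g (nat_lit 1) (.e (nat_lit 114384) (nat_lit 0) .nil) .nil))) 
(.lf (nat_lit 482078) (.g (nat_lit 2127) (.e (nat_lit 7098) (nat_lit 380) (.e (nat_lit 164368) (nat_lit 247) (.e (nat_lit 8318) (nat_lit 64) (.e (nat_lit 516176) (nat_lit 14) (.e (nat_lit 466954) (nat_lit 11) (.e (nat_lit 336287) (nat_lit 15) .nil)))))) (.g (nat_lit 1) (.e (nat_lit 118311) (nat_lit 0) .nil) .nil))))) (.nd (nat_lit 8) (.nd (nat_lit 9) 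
(.lf (nat_lit 481438) (.g (nat_lit 3087) (.e (nat_lit 5546) (nat_lit 306) (.e (nat_lit 2611) (nat_lit 163) (.e (nat_lit 163978) (nat_lit 30) (.e (nat_lit 573479) (nat_lit 13) (.e (nat_lit 65604) (nat_lit 9) (.e (nat_lit 336013) (nat_lit 2) (.e (nat_lit 90170) (nat_lit 13) (.e (nat_lit 172042) (nat_lit 0) (.e (nat_lit 2458) (nat_lit 157) .nil))))))))) (.g (nat_lit 1) (.e (nat_lit 113804) (nat_lit 0) .nil) .nil))) 
(.lf (nat_lit 481950) (.g (nat_lit 2183) (.e (nat_lit 7014) (nat_lit 377) (.e (nat_lit 2797) (nat_lit 180) (.e (nat_lit 303117) (nat_lit 2) (.e (nat_lit 196665) (nat_lit 13) (.e (nat_lit 65619) (nat_lit 10) .nil))))) (.g (nat_lit 0) (.e (nat_lit 118081) (nat_lit 0) .nil) .nil)))) (.nd (nat_lit 9) 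
(.lf (nat_lit 481694) (.g (nat_lit 3115) (.e (nat_lit 5587) (nat_lit 310) (.e (nat_lit 163946) (nat_lit 20) (.e (nat_lit 491566) (nat_lit 12) (.e (nat_lit 385105) (nat_lit 50) (.e (nat_lit 786483) (nat_lit 30) (.e (nat_lit 360448) (nat_lit 0) .nil)))))) (.g (nat_lit 1) (.e (nat_lit 115507) (nat_lit 0) .nil) .nil))) 
(.lf (nat_lit 482206) (.g (nat_lit 6058) (.e (nat_lit 7261) (nat_lit 384) (.e (nat_lit 57407) (nat_lit 12) (.e (nat_lit 336019) (nat_lit 3) (.e (nat_lit 98373) (nat_lit 29) (.e (nat_lit 450588) (nat_lit 10) (.e (nat_lit 573475) (nat_lit 12) (.e (nat_lit 57351) (nat_lit 0) .nil))))))) (.g (nat_lit 1) (.e (nat_lit 118852) (nat_lit 0) .nil) .nil)))))) 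
(.nd (nat_lit 7) (.nd (nat_lit 8) (.nd (nat_lit 9) 
(.lf (nat_lit 481374) (.g (nat_lit 2414) (.e (nat_lit 5543) (nat_lit 306) (.e (nat_lit 2610) (nat_lit 163) (.e (nat_lit 163979) (nat_lit 30) (.e (nat_lit 573491) (nat_lit 15) (.e (nat_lit 81954) (nat_lit 23) .nil))))) (.g (nat_lit 0) (.e (nat_lit 113519) (nat_lit 0) .nil) .nil))) 
(.lf (nat_lit 481886) (.g (nat_lit 3287) (.e (nat_lit 6989) (nat_lit 377) (.e (nat_lit 2810) (nat_lit 180) (.e (nat_lit 303119) (nat_lit 3) (.e (nat_lit 204869) (nat_lit 29) (.e (nat_lit 360466) (nat_lit 3) .nil))))) (.g (nat_lit 0) (.e (nat_lit 117899) (nat_lit 0) .nil) .nil)))) (.nd (nat_lit 9) 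
(.lf (nat_lit 481630) (.g (nat_lit 1094) (.e (nat_lit 5548) (nat_lit 306) (.e (nat_lit 2619) (nat_lit 164) (.e (nat_lit 172124) (nat_lit 14) (.e (nat_lit 491549) (nat_lit 9) .nil)))) (.g (nat_lit 0) (.e (nat_lit 114610) (nat_lit 0) .nil) .nil))) 
(.lf (nat_lit 482142) (.g (nat_lit 913) (.e (nat_lit 7282) (nat_lit 386) (.e (nat_lit 163875) (nat_lit 3) (.e (nat_lit 204837) (nat_lit 20) .nil))) (.g (nat_lit 0) (.e (nat_lit 118668) (nat_lit 0) .nil) .nil))))) (.nd (nat_lit 8) (.nd (nat_lit 9) 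
(.lf (nat_lit 481502) (.g (nat_lit 2582) (.e (nat_lit 5546) (nat_lit 306) (.e (nat_lit 2648) (nat_lit 166) (.e (nat_lit 188420) (nat_lit 0) (.e (nat_lit 2175) (nat_lit 143) (.e (nat_lit 712755) (nat_lit 30) (.e (nat_lit 458496) (nat_lit 0) .nil)))))) (.g (nat_lit 1) (.e (nat_lit 114030) (nat_lit 0) .nil) .nil))) 
(.lf (nat_lit 482014) (.g (nat_lit 5084) (.e (nat_lit 7064) (nat_lit 377) (.e (nat_lit 1349) (nat_lit 102) (.e (nat_lit 286735) (nat_lit 3) (.e (nat_lit 98359) (nat_lit 26) (.e (nat_lit 426338) (nat_lit 14) (.e (nat_lit 491537) (nat_lit 2) (.e (nat_lit 90133) (nat_lit 9) (.e (nat_lit 2397) (nat_lit 157) .nil)))))))) (.g (nat_lit 1) (.e (nat_lit 118188) (nat_lit 0) .nil) .nil)))) (.nd (nat_lit 9) 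
(.lf (nat_lit 481758) (.g (nat_lit 2684) (.e (nat_lit 5599) (nat_lit 310) (.e (nat_lit 163905) (nat_lit 12) (.e (nat_lit 426320) (nat_lit 12) (.e (nat_lit 475209) (nat_lit 41) (.e (nat_lit 712753) (nat_lit 30) (.e (nat_lit 450569) (nat_lit 0) .nil)))))) (.g (nat_lit 1) (.e (nat_lit 117124) (nat_lit 0) .nil) .nil))) 
(.lf (nat_lit 482270) (.g (nat_lit 2908) (.e (nat_lit 7265) (nat_lit 384) (.e (nat_lit 57406) (nat_lit 12) (.e (nat_lit 336019) (nat_lit 3) (.e (nat_lit 98359) (nat_lit 26) (.e (nat_lit 426286) (nat_lit 10) (.e (nat_lit 434247) (nat_lit 28) (.e (nat_lit 573477) (nat_lit 12) (.e (nat_lit 57353) (nat_lit 0) .nil)))))))) (.g (nat_lit 1) (.e (nat_lit 118927) (nat_lit 0) .nil) .nil))))))) 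
(.nd (nat_lit 6) (.nd (nat_lit 7) (.nd (nat_lit 8) (.nd (nat_lit 9) 
(.lf (nat_lit 481342) (.g (nat_lit 1026) (.e (nat_lit 5412) (nat_lit 303) (.e (nat_lit 73764) (nat_lit 18) (.e (nat_lit 638998) (nat_lit 8) (.e (nat_lit 172080) (nat_lit 7) (.e (nat_lit 409639) (nat_lit 15) .nil))))) (.g (nat_lit 0) (.e (nat_lit 113087) (nat_lit 0) .nil) .nil))) 
(.lf (nat_lit 481854) (.g (nat_lit 2410) (.e (nat_lit 6966) (nat_lit 377) (.e (nat_lit 2798) (nat_lit 180) (.e (nat_lit 303117) (nat_lit 2) (.e (nat_lit 196672) (nat_lit 15) (.e (nat_lit 81956) (nat_lit 23) .nil))))) (.g (nat_lit 0) (.e (nat_lit 117838) (nat_lit 0) .nil) .nil)))) (.nd (nat_lit 9) 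
(.lf (nat_lit 481598) (.g (nat_lit 2130) (.e (nat_lit 5548) (nat_lit 306) (.e (nat_lit 2610) (nat_lit 163) (.e (nat_lit 163978) (nat_lit 30) (.e (nat_lit 573484) (nat_lit 13) (.e (nat_lit 65610) (nat_lit 10) .nil))))) (.g (nat_lit 0) (.e (nat_lit 114535) (nat_lit 0) .nil) .nil))) 
(.lf (nat_lit 482110) (.g (nat_lit 674) (.e (nat_lit 7125) (nat_lit 382) (.e (nat_lit 1201) (nat_lit 88) (.e (nat_lit 65550) (nat_lit 0) .nil))) (.g (nat_lit 0) (.e (nat_lit 118448) (nat_lit 0) .nil) .nil))))) (.nd (nat_lit 8) (.nd (nat_lit 9) 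
(.lf (nat_lit 481470) (.g (nat_lit 2120) (.e (nat_lit 5546) (nat_lit 306) (.e (nat_lit 2638) (nat_lit 165) (.e (nat_lit 180277) (nat_lit 32) (.e (nat_lit 1427) (nat_lit 108) (.e (nat_lit 336432) (nat_lit 30) (.e (nat_lit 458496) (nat_lit 0) .nil)))))) (.g (nat_lit 1) (.e (nat_lit 113989) (nat_lit 0) .nil) .nil))) 
(.lf (nat_lit 481982) (.g (nat_lit 2180) (.e (nat_lit 7037) (nat_lit 377) (.e (nat_lit 2795) (nat_lit 180) (.e (nat_lit 303119) (nat_lit 3) (.e (nat_lit 204868) (nat_lit 29) (.e (nat_lit 360466) (nat_lit 3) .nil))))) (.g (nat_lit 0) (.e (nat_lit 118125) (nat_lit 0) .nil) .nil)))) (.nd (nat_lit 9) 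
(.lf (nat_lit 481726) (.g (nat_lit 2324) (.e (nat_lit 5596) (nat_lit 310) (.e (nat_lit 163867) (nat_lit 2) (.e (nat_lit 196670) (nat_lit 14) (.e (nat_lit 73746) (nat_lit 3) (.e (nat_lit 516129) (nat_lit 3) .nil))))) (.g (nat_lit 0) (.e (nat_lit 116225) (nat_lit 0) .nil) .nil))) 
(.lf (nat_lit 482238) (.g (nat_lit 4234) (.e (nat_lit 7263) (nat_lit 384) (.e (nat_lit 57412) (nat_lit 12) (.e (nat_lit 336001) (nat_lit 2) (.e (nat_lit 90170) (nat_lit 13) (.e (nat_lit 172106) (nat_lit 10) (.e (nat_lit 434244) (nat_lit 28) (.e (nat_lit 573473) (nat_lit 12) (.e (nat_lit 57352) (nat_lit 0) .nil)))))))) (.g (nat_lit 1) (.e (nat_lit 118887) (nat_lit 0) .nil) .nil)))))) 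
(.nd (nat_lit 7) (.nd (nat_lit 8) (.nd (nat_lit 9) 
(.lf (nat_lit 481406) (.g (nat_lit 1591) (.e (nat_lit 5543) (nat_lit 306) (.e (nat_lit 2648) (nat_lit 166) (.e (nat_lit 188420) (nat_lit 0) (.e (nat_lit 2175) (nat_lit 143) (.e (nat_lit 712753) (nat_lit 30) (.e (nat_lit 458496) (nat_lit 0) .nil)))))) (.g (nat_lit 1) (.e (nat_lit 113633) (nat_lit 0) .nil) .nil))) 
(.lf (nat_lit 481918) (.g (nat_lit 4544) (.e (nat_lit 6998) (nat_lit 377) (.e (nat_lit 2797) (nat_lit 180) (.e (nat_lit 303116) (nat_lit 2) (.e (nat_lit 196666) (nat_lit 13) (.e (nat_lit 65610) (nat_lit 10) (.e (nat_lit 344117) (nat_lit 21) (.e (nat_lit 516106) (nat_lit 0) .nil))))))) (.g (nat_lit 1) (.e (nat_lit 117984) (nat_lit 0) .nil) .nil)))) (.nd (nat_lit 9) 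
(.lf (nat_lit 481662) (.g (nat_lit 2633) (.e (nat_lit 5587) (nat_lit 310) (.e (nat_lit 163874) (nat_lit 3) (.e (nat_lit 204863) (nat_lit 27) (.e (nat_lit 344132) (nat_lit 26) (.e (nat_lit 557105) (nat_lit 14) .nil))))) (.g (nat_lit 0) (.e (nat_lit 115265) (nat_lit 0) .nil) .nil))) 
(.lf (nat_lit 482174) (.g (nat_lit 1549) (.e (nat_lit 7261) (nat_lit 384) (.e (nat_lit 57406) (nat_lit 12) (.e (nat_lit 336018) (nat_lit 3) (.e (nat_lit 98372) (nat_lit 29) (.e (nat_lit 450586) (nat_lit 10) .nil))))) (.g (nat_lit 0) (.e (nat_lit 118815) (nat_lit 0) .nil) .nil))))) (.nd (nat_lit 8) (.nd (nat_lit 9) 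
(.lf (nat_lit 481534) (.g (nat_lit 2313) (.e (nat_lit 5547) (nat_lit 306) (.e (nat_lit 2619) (nat_lit 164) (.e (nat_lit 172118) (nat_lit 12) (.e (nat_lit 475210) (nat_lit 41) (.e (nat_lit 712753) (nat_lit 30) (.e (nat_lit 458496) (nat_lit 0) .nil)))))) (.g (nat_lit 1) (.e (nat_lit 114274) (nat_lit 0) .nil) .nil))) 
(.lf (nat_lit 482046) (.g (nat_lit 1293) (.e (nat_lit 7936) (nat_lit 377) (.e (nat_lit 2798) (nat_lit 180) (.e (nat_lit 303119) (nat_lit 3) (.e (nat_lit 204861) (nat_lit 26) .nil)))) (.g (nat_lit 0) (.e (nat_lit 118241) (nat_lit 0) .nil) .nil)))) (.nd (nat_lit 9) 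
(.lf (nat_lit 481790) (.g (nat_lit 1741) (.e (nat_lit 7936) (nat_lit 310) (.e (nat_lit 163908) (nat_lit 12) (.e (nat_lit 426312) (nat_lit 12) (.e (nat_lit 475211) (nat_lit 41) (.e (nat_lit 712755) (nat_lit 30) .nil))))) (.g (nat_lit 0) (.e (nat_lit 117650) (nat_lit 0) .nil) .nil))) 
(.lf (nat_lit 482302) (.g (nat_lit 3030) (.e (nat_lit 7265) (nat_lit 384) (.e (nat_lit 57406) (nat_lit 12) (.e (nat_lit 336316) (nat_lit 17) (.e (nat_lit 196666) (nat_lit 13) (.e (nat_lit 65629) (nat_lit 14) (.e (nat_lit 401472) (nat_lit 28) (.e (nat_lit 344094) (nat_lit 18) .nil))))))) (.g (nat_lit 1) (.e (nat_lit 118959) (nat_lit 0) .nil) .nil)))))))))))) 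
(.nd (nat_lit 1) (.nd (nat_lit 2) (.nd (nat_lit 3) (.nd (nat_lit 4) (.nd (nat_lit 5) 
(.nd (nat_lit 6) (.nd (nat_lit 7) (.nd (nat_lit 8) (.nd (nat_lit 9) 
(.lf (nat_lit 481281) (.g (nat_lit 2293) (.e (nat_lit 5390) (nat_lit 301) (.e (nat_lit 57464) (nat_lit 23) (.e (nat_lit 516151) (nat_lit 9) (.e (nat_lit 426289) (nat_lit 10) .nil)))) (.g (nat_lit 0) (.e (nat_lit 112900) (nat_lit 0) .nil) .nil))) 
(.lf (nat_lit 481793) (.g (nat_lit 2193) (.e (nat_lit 5566) (nat_lit 308) (.e (nat_lit 57354) (nat_lit 0) (.e (nat_lit 2281) (nat_lit 150) (.e (nat_lit 770072) (nat_lit 8) (.e (nat_lit 65586) (nat_lit 7) .nil))))) (.g (nat_lit 0) (.e (nat_lit 117690) (nat_lit 0) .nil) .nil)))) (.nd (nat_lit 9) 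
(.lf (nat_lit 481537) (.g (nat_lit 1544) (.e (nat_lit 5547) (nat_lit 306) (.e (nat_lit 2619) (nat_lit 164) (.e (nat_lit 172119) (nat_lit 12) (.e (nat_lit 475211) (nat_lit 41) (.e (nat_lit 712753) (nat_lit 30) .nil))))) (.g (nat_lit 0) (.e (nat_lit 114277) (nat_lit 0) .nil) .nil))) 
(.lf (nat_lit 482049) (.g (nat_lit 702) (.e (nat_lit 7095) (nat_lit 380) (.e (nat_lit 164356) (nat_lit 246) (.e (nat_lit 112) (nat_lit 3) .nil))) (.g (nat_lit 0) (.e (nat_lit 118249) (nat_lit 0) .nil) .nil))))) (.nd (nat_lit 8) (.nd (nat_lit 9) 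
(.lf (nat_lit 481409) (.g (nat_lit 2475) (.e (nat_lit 5546) (nat_lit 306) (.e (nat_lit 2599) (nat_lit 163) (.e (nat_lit 163978) (nat_lit 30) (.e (nat_lit 573479) (nat_lit 13) (.e (nat_lit 65619) (nat_lit 10) .nil))))) (.g (nat_lit 0) (.e (nat_lit 113727) (nat_lit 0) .nil) .nil))) 
(.lf (nat_lit 481921) (.g (nat_lit 2623) (.e (nat_lit 6998) (nat_lit 377) (.e (nat_lit 2797) (nat_lit 180) (.e (nat_lit 303117) (nat_lit 2) (.e (nat_lit 196666) (nat_lit 13) (.e (nat_lit 65610) (nat_lit 10) .nil))))) (.g (nat_lit 0) (.e (nat_lit 117988) (nat_lit 0) .nil) .nil)))) (.nd (nat_lit 9) 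
(.lf (nat_lit 481665) (.g (nat_lit 2422) (.e (nat_lit 5587) (nat_lit 310) (.e (nat_lit 163874) (nat_lit 3) (.e (nat_lit 204864) (nat_lit 27) (.e (nat_lit 344133) (nat_lit 26) (.e (nat_lit 557103) (nat_lit 14) .nil))))) (.g (nat_lit 0) (.e (nat_lit 115268) (nat_lit 0) .nil) .nil))) 
(.lf (nat_lit 482177) (.g (nat_lit 2695) (.e (nat_lit 7261) (nat_lit 384) (.e (nat_lit 57406) (nat_lit 12) (.e (nat_lit 336019) (nat_lit 3) (.e (nat_lit 98372) (nat_lit 29) (.e (nat_lit 450586) (nat_lit 10) (.e (nat_lit 573473) (nat_lit 12) (.e (nat_lit 57348) (nat_lit 0) .nil))))))) (.g (nat_lit 1) (.e (nat_lit 118818) (nat_lit 0) .nil) .nil)))))) 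
(.nd (nat_lit 7) (.nd (nat_lit 8) (.nd (nat_lit 9) 
(.lf (nat_lit 481345) (.g (nat_lit 2419) (.e (nat_lit 5429) (nat_lit 306) (.e (nat_lit 1183) (nat_lit 87) (.e (nat_lit 57575) (nat_lit 55) (.e (nat_lit 778466) (nat_lit 11) (.e (nat_lit 24617) (nat_lit 7) .nil))))) (.g (nat_lit 0) (.e (nat_lit 113106) (nat_lit 0) .nil) .nil))) 
(.lf (nat_lit 481857) (.g (nat_lit 3699) (.e (nat_lit 6966) (nat_lit 377) (.e (nat_lit 2810) (nat_lit 180) (.e (nat_lit 303117) (nat_lit 2) (.e (nat_lit 196666) (nat_lit 13) (.e (nat_lit 65604) (nat_lit 9) .nil))))) (.g (nat_lit 0) (.e (nat_lit 117843) (nat_lit 0) .nil) .nil)))) (.nd (nat_lit 9) 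
(.lf (nat_lit 481601) (.g (nat_lit 4257) (.e (nat_lit 5548) (nat_lit 306) (.e (nat_lit 2610) (nat_lit 163) (.e (nat_lit 163978) (nat_lit 30) (.e (nat_lit 573484) (nat_lit 13) (.e (nat_lit 65610) (nat_lit 10) (.e (nat_lit 344117) (nat_lit 21) (.e (nat_lit 516169) (nat_lit 13) (.e (nat_lit 458774) (nat_lit 18) .nil)))))))) (.g (nat_lit 1) (.e (nat_lit 114538) (nat_lit 0) .nil) .nil))) 
(.lf (nat_lit 482113) (.g (nat_lit 208) (.e (nat_lit 7147) (nat_lit 382) (.e (nat_lit 1207) (nat_lit 89) (.e (nat_lit 81664) (nat_lit 3) .nil))) (.g (nat_lit 0) (.e (nat_lit 118490) (nat_lit 0) .nil) .nil))))) (.nd (nat_lit 8) (.nd (nat_lit 9) 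
(.lf (nat_lit 481473) (.g (nat_lit 1937) (.e (nat_lit 5546) (nat_lit 306) (.e (nat_lit 2638) (nat_lit 165) (.e (nat_lit 180277) (nat_lit 32) (.e (nat_lit 1428) (nat_lit 108) (.e (nat_lit 336434) (nat_lit 30) (.e (nat_lit 458496) (nat_lit 0) .nil)))))) (.g (nat_lit 1) (.e (nat_lit 113992) (nat_lit 0) .nil) .nil))) 
(.lf (nat_lit 481985) (.g (nat_lit 1661) (.e (nat_lit 7071) (nat_lit 377) (.e (nat_lit 2797) (nat_lit 180) (.e (nat_lit 303117) (nat_lit 2) (.e (nat_lit 196672) (nat_lit 15) .nil)))) (.g (nat_lit 0) (.e (nat_lit 118135) (nat_lit 0) .nil) .nil)))) (.nd (nat_lit 9) 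
(.lf (nat_lit 481729) (.g (nat_lit 1786) (.e (nat_lit 5596) (nat_lit 310) (.e (nat_lit 163874) (nat_lit 3) (.e (nat_lit 204861) (nat_lit 26) (.e (nat_lit 336213) (nat_lit 13) .nil)))) (.g (nat_lit 0) (.e (nat_lit 116268) (nat_lit 0) .nil) .nil))) 
(.lf (nat_lit 482241) (.g (nat_lit 3689) (.e (nat_lit 7263) (nat_lit 384) (.e (nat_lit 57412) (nat_lit 12) (.e (nat_lit 336001) (nat_lit 2) (.e (nat_lit 90170) (nat_lit 13) (.e (nat_lit 172113) (nat_lit 10) (.e (nat_lit 434245) (nat_lit 28) (.e (nat_lit 573473) (nat_lit 12) (.e (nat_lit 57352) (nat_lit 0) .nil)))))))) (.g (nat_lit 1) (.e (nat_lit 118890) (nat_lit 0) .nil) .nil))))))) 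
(.nd (nat_lit 6) (.nd (nat_lit 7) (.nd (nat_lit 8) (.nd (nat_lit 9) 
(.lf (nat_lit 481313) (.g (nat_lit 3114) (.e (nat_lit 5395) (nat_lit 301) (.e (nat_lit 57464) (nat_lit 23) (.e (nat_lit 516166) (nat_lit 12) (.e (nat_lit 450588) (nat_lit 10) (.e (nat_lit 573452) (nat_lit 9) (.e (nat_lit 365) (nat_lit 31) (.e (nat_lit 417795) (nat_lit 0) .nil))))))) (.g (nat_lit 1) (.e (nat_lit 112956) (nat_lit 0) .nil) .nil))) 
(.lf (nat_lit 481825) (.g (nat_lit 3230) (.e (nat_lit 6942) (nat_lit 375) (.e (nat_lit 163936) (nat_lit 18) (.e (nat_lit 475185) (nat_lit 29) (.e (nat_lit 557100) (nat_lit 13) (.e (nat_lit 172113) (nat_lit 10) (.e (nat_lit 434248) (nat_lit 28) (.e (nat_lit 573475) (nat_lit 12) (.e (nat_lit 57347) (nat_lit 0) .nil)))))))) (.g (nat_lit 1) (.e (nat_lit 117794) (nat_lit 0) .nil) .nil)))) 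
(.nd (nat_lit 9) 
(.lf (nat_lit 481569) (.g (nat_lit 457) (.e (nat_lit 5547) (nat_lit 306) (.e (nat_lit 2638) (nat_lit 165) (.e (nat_lit 180278) (nat_lit 32) .nil))) (.g (nat_lit 0) (.e (nat_lit 114389) (nat_lit 0) .nil) .nil))) 
(.lf (nat_lit 482081) (.g (nat_lit 1539) (.e (nat_lit 7105) (nat_lit 380) (.e (nat_lit 164287) (nat_lit 224) (.e (nat_lit 164092) (nat_lit 82) (.e (nat_lit 500046) (nat_lit 16) (.e (nat_lit 16463) (nat_lit 13) (.e (nat_lit 491264) (nat_lit 0) .nil)))))) (.g (nat_lit 1) (.e (nat_lit 118327) (nat_lit 0) .nil) .nil))))) (.nd (nat_lit 8) (.nd (nat_lit 9) 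
(.lf (nat_lit 481441) (.g (nat_lit 2260) (.e (nat_lit 5546) (nat_lit 306) (.e (nat_lit 2611) (nat_lit 163) (.e (nat_lit 163978) (nat_lit 30) (.e (nat_lit 573485) (nat_lit 13) (.e (nat_lit 65619) (nat_lit 10) (.e (nat_lit 344117) (nat_lit 21) (.e (nat_lit 516151) (nat_lit 9) (.e (nat_lit 426043) (nat_lit 0) (.e (nat_lit 2458) (nat_lit 157) .nil))))))))) (.g (nat_lit 1) (.e (nat_lit 113810) (nat_lit 0) .nil) .nil))) 
(.lf (nat_lit 481953) (.g (nat_lit 1769) (.e (nat_lit 7014) (nat_lit 377) (.e (nat_lit 2797) (nat_lit 180) (.e (nat_lit 303117) (nat_lit 2) (.e (nat_lit 196674) (nat_lit 15) .nil)))) (.g (nat_lit 0) (.e (nat_lit 118084) (nat_lit 0) .nil) .nil)))) (.nd (nat_lit 9) 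
(.lf (nat_lit 481697) (.g (nat_lit 2145) (.e (nat_lit 5589) (nat_lit 310) (.e (nat_lit 163875) (nat_lit 3) (.e (nat_lit 204862) (nat_lit 27) (.e (nat_lit 344117) (nat_lit 21) (.e (nat_lit 516131) (nat_lit 3) .nil))))) (.g (nat_lit 0) (.e (nat_lit 115781) (nat_lit 0) .nil) .nil))) 
(.lf (nat_lit 482209) (.g (nat_lit 3911) (.e (nat_lit 7261) (nat_lit 384) (.e (nat_lit 57412) (nat_lit 12) (.e (nat_lit 336001) (nat_lit 2) (.e (nat_lit 90170) (nat_lit 13) (.e (nat_lit 172113) (nat_lit 10) (.e (nat_lit 434245) (nat_lit 28) (.e (nat_lit 573473) (nat_lit 12) (.e (nat_lit 57348) (nat_lit 0) .nil)))))))) (.g (nat_lit 1) (.e (nat_lit 118855) (nat_lit 0) .nil) .nil)))))) 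
(.nd (nat_lit 7) (.nd (nat_lit 8) (.nd (nat_lit 9) 
(.lf (nat_lit 481377) (.g (nat_lit 1901) (.e (nat_lit 5543) (nat_lit 306) (.e (nat_lit 2618) (nat_lit 164) (.e (nat_lit 172118) (nat_lit 12) (.e (nat_lit 475211) (nat_lit 41) (.e (nat_lit 712753) (nat_lit 30) (.e (nat_lit 458496) (nat_lit 0) .nil)))))) (.g (nat_lit 1) (.e (nat_lit 113529) (nat_lit 0) .nil) .nil))) 
(.lf (nat_lit 481889) (.g (nat_lit 1753) (.e (nat_lit 6989) (nat_lit 377) (.e (nat_lit 2810) (nat_lit 180) (.e (nat_lit 303143) (nat_lit 12) (.e (nat_lit 475212) (nat_lit 42) (.e (nat_lit 720947) (nat_lit 24) .nil))))) (.g (nat_lit 0) (.e (nat_lit 117903) (nat_lit 0) .nil) .nil)))) (.nd (nat_lit 9) 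
(.lf (nat_lit 481633) (.g (nat_lit 3534) (.e (nat_lit 5548) (nat_lit 306) (.e (nat_lit 2638) (nat_lit 165) (.e (nat_lit 180278) (nat_lit 32) (.e (nat_lit 1661) (nat_lit 115) (.e (nat_lit 393283) (nat_lit 24) (.e (nat_lit 434209) (nat_lit 18) .nil)))))) (.g (nat_lit 1) (.e (nat_lit 114656) (nat_lit 0) .nil) .nil))) 
(.lf (nat_lit 482145) (.g (nat_lit 1547) (.e (nat_lit 7282) (nat_lit 386) (.e (nat_lit 163902) (nat_lit 12) (.e (nat_lit 426438) (nat_lit 18) (.e (nat_lit 98374) (nat_lit 29) .nil)))) (.g (nat_lit 0) (.e (nat_lit 118671) (nat_lit 0) .nil) .nil))))) (.nd (nat_lit 8) (.nd (nat_lit 9) 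
(.lf (nat_lit 481505) (.g (nat_lit 3783) (.e (nat_lit 5547) (nat_lit 306) (.e (nat_lit 2601) (nat_lit 163) (.e (nat_lit 163979) (nat_lit 30) (.e (nat_lit 573482) (nat_lit 13) (.e (nat_lit 65604) (nat_lit 9) (.e (nat_lit 336013) (nat_lit 2) (.e (nat_lit 90170) (nat_lit 13) (.e (nat_lit 172042) (nat_lit 0) (.e (nat_lit 2458) (nat_lit 157) .nil))))))))) (.g (nat_lit 1) (.e (nat_lit 114183) (nat_lit 0) .nil) .nil))) 
(.lf (nat_lit 482017) (.g (nat_lit 4602) (.e (nat_lit 7064) (nat_lit 377) (.e (nat_lit 1349) (nat_lit 102) (.e (nat_lit 286735) (nat_lit 3) (.e (nat_lit 98363) (nat_lit 26) (.e (nat_lit 426347) (nat_lit 14) (.e (nat_lit 491537) (nat_lit 2) (.e (nat_lit 90133) (nat_lit 9) (.e (nat_lit 2400) (nat_lit 157) .nil)))))))) (.g (nat_lit 1) (.e (nat_lit 118191) (nat_lit 0) .nil) .nil)))) (.nd (nat_lit 9) 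
(.lf (nat_lit 481761) (.g (nat_lit 3014) (.e (nat_lit 5599) (nat_lit 310) (.e (nat_lit 163905) (nat_lit 12) (.e (nat_lit 426320) (nat_lit 12) (.e (nat_lit 475211) (nat_lit 41) (.e (nat_lit 712753) (nat_lit 30) (.e (nat_lit 450568) (nat_lit 0) .nil)))))) (.g (nat_lit 1) (.e (nat_lit 117128) (nat_lit 0) .nil) .nil))) 
(.lf (nat_lit 482273) (.g (nat_lit 2168) (.e (nat_lit 7265) (nat_lit 384) (.e (nat_lit 57406) (nat_lit 12) (.e (nat_lit 336019) (nat_lit 3) (.e (nat_lit 98372) (nat_lit 29) (.e (nat_lit 450586) (nat_lit 10) .nil))))) (.g (nat_lit 0) (.e (nat_lit 118930) (nat_lit 0) .nil) .nil)))))))) (.nd (nat_lit 5) (.nd (nat_lit 6) (.nd (nat_lit 7) (.nd (nat_lit 8) (.nd (nat_lit 9) 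
(.lf (nat_lit 481297) (.g (nat_lit 3343) (.e (nat_lit 5394) (nat_lit 301) (.e (nat_lit 57464) (nat_lit 23) (.e (nat_lit 516166) (nat_lit 12) (.e (nat_lit 450588) (nat_lit 10) (.e (nat_lit 573452) (nat_lit 9) (.e (nat_lit 359) (nat_lit 30) (.e (nat_lit 409603) (nat_lit 0) .nil))))))) (.g (nat_lit 1) (.e (nat_lit 112936) (nat_lit 0) .nil) .nil))) 
(.lf (nat_lit 481809) (.g (nat_lit 2400) (.e (nat_lit 6938) (nat_lit 375) (.e (nat_lit 163939) (nat_lit 18) (.e (nat_lit 475185) (nat_lit 29) (.e (nat_lit 557100) (nat_lit 13) (.e (nat_lit 172113) (nat_lit 10) .nil))))) (.g (nat_lit 0) (.e (nat_lit 117765) (nat_lit 0) .nil) .nil)))) (.nd (nat_lit 9) 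
(.lf (nat_lit 481553) (.g (nat_lit 2580) (.e (nat_lit 5547) (nat_lit 306) (.e (nat_lit 2628) (nat_lit 164) (.e (nat_lit 172126) (nat_lit 14) (.e (nat_lit 491549) (nat_lit 9) (.e (nat_lit 336432) (nat_lit 30) (.e (nat_lit 458496) (nat_lit 0) .nil)))))) (.g (nat_lit 1) (.e (nat_lit 114336) (nat_lit 0) .nil) .nil))) 
(.lf (nat_lit 482065) (.g (nat_lit 1085) (.e (nat_lit 7098) (nat_lit 380) (.e (nat_lit 164269) (nat_lit 221) (.e (nat_lit 2576) (nat_lit 161) (.e (nat_lit 40996) (nat_lit 11) (.e (nat_lit 24654) (nat_lit 13) (.e (nat_lit 401152) (nat_lit 17) .nil)))))) (.g (nat_lit 1) (.e (nat_lit 118280) (nat_lit 0) .nil) .nil))))) (.nd (nat_lit 8) (.nd (nat_lit 9) 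
(.lf (nat_lit 481425) (.g (nat_lit 3440) (.e (nat_lit 5546) (nat_lit 306) (.e (nat_lit 2610) (nat_lit 163) (.e (nat_lit 163978) (nat_lit 30) (.e (nat_lit 573479) (nat_lit 13) (.e (nat_lit 65604) (nat_lit 9) (.e (nat_lit 336013) (nat_lit 2) (.e (nat_lit 90170) (nat_lit 13) (.e (nat_lit 172046) (nat_lit 0) (.e (nat_lit 2458) (nat_lit 157) .nil))))))))) (.g (nat_lit 1) (.e (nat_lit 113778) (nat_lit 0) .nil) .nil))) 
(.lf (nat_lit 481937) (.g (nat_lit 462) (.e (nat_lit 7008) (nat_lit 377) (.e (nat_lit 2797) (nat_lit 180) (.e (nat_lit 303119) (nat_lit 3) .nil))) (.g (nat_lit 0) (.e (nat_lit 118056) (nat_lit 0) .nil) .nil)))) (.nd (nat_lit 9) 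
(.lf (nat_lit 481681) (.g (nat_lit 797) (.e (nat_lit 5587) (nat_lit 310) (.e (nat_lit 163907) (nat_lit 12) (.e (nat_lit 426319) (nat_lit 12) .nil))) (.g (nat_lit 0) (.e (nat_lit 115376) (nat_lit 0) .nil) .nil))) 
(.lf (nat_lit 482193) (.g (nat_lit 2632) (.e (nat_lit 7261) (nat_lit 384) (.e (nat_lit 57407) (nat_lit 12) (.e (nat_lit 336019) (nat_lit 3) (.e (nat_lit 98372) (nat_lit 29) (.e (nat_lit 450586) (nat_lit 10) (.e (nat_lit 573475) (nat_lit 12) (.e (nat_lit 57353) (nat_lit 0) .nil))))))) (.g (nat_lit 1) (.e (nat_lit 118839) (nat_lit 0) .nil) .nil)))))) 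
(.nd (nat_lit 7) (.nd (nat_lit 8) (.nd (nat_lit 9) 
(.lf (nat_lit 481361) (.g (nat_lit 1860) (.e (nat_lit 5448) (nat_lit 306) (.e (nat_lit 2612) (nat_lit 163) (.e (nat_lit 163978) (nat_lit 30) (.e (nat_lit 573485) (nat_lit 13) (.e (nat_lit 65619) (nat_lit 10) .nil))))) (.g (nat_lit 0) (.e (nat_lit 113303) (nat_lit 0) .nil) .nil))) 
(.lf (nat_lit 481873) (.g (nat_lit 1794) (.e (nat_lit 6988) (nat_lit 377) (.e (nat_lit 2777) (nat_lit 178) (.e (nat_lit 286735) (nat_lit 3) (.e (nat_lit 98313) (nat_lit 9) .nil)))) (.g (nat_lit 0) (.e (nat_lit 117880) (nat_lit 0) .nil) .nil)))) (.nd (nat_lit 9) 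
(.lf (nat_lit 481617) (.g (nat_lit 2696) (.e (nat_lit 5548) (nat_lit 306) (.e (nat_lit 2610) (nat_lit 163) (.e (nat_lit 163979) (nat_lit 30) (.e (nat_lit 573491) (nat_lit 15) (.e (nat_lit 81956) (nat_lit 23) .nil))))) (.g (nat_lit 0) (.e (nat_lit 114566) (nat_lit 0) .nil) .nil))) 
(.lf (nat_lit 482129) (.g (nat_lit 1914) (.e (nat_lit 7280) (nat_lit 386) (.e (nat_lit 163875) (nat_lit 3) (.e (nat_lit 204837) (nat_lit 20) (.e (nat_lit 114718) (nat_lit 23) .nil)))) (.g (nat_lit 0) (.e (nat_lit 118621) (nat_lit 0) .nil) .nil))))) (.nd (nat_lit 8) (.nd (nat_lit 9) 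
(.lf (nat_lit 481489) (.g (nat_lit 2790) (.e (nat_lit 5546) (nat_lit 306) (.e (nat_lit 2639) (nat_lit 165) (.e (nat_lit 180277) (nat_lit 32) (.e (nat_lit 1660) (nat_lit 115) (.e (nat_lit 393282) (nat_lit 24) (.e (nat_lit 434209) (nat_lit 18) .nil)))))) (.g (nat_lit 1) (.e (nat_lit 114013) (nat_lit 0) .nil) .nil))) 
(.lf (nat_lit 482001) (.g (nat_lit 2276) (.e (nat_lit 7073) (nat_lit 377) (.e (nat_lit 2808) (nat_lit 180) (.e (nat_lit 303118) (nat_lit 3) (.e (nat_lit 204868) (nat_lit 29) (.e (nat_lit 360466) (nat_lit 3) .nil))))) (.g (nat_lit 0) (.e (nat_lit 118170) (nat_lit 0) .nil) .nil)))) (.nd (nat_lit 9) 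
(.lf (nat_lit 481745) (.g (nat_lit 1807) (.e (nat_lit 5599) (nat_lit 310) (.e (nat_lit 163869) (nat_lit 2) (.e (nat_lit 196670) (nat_lit 14) (.e (nat_lit 73746) (nat_lit 3) (.e (nat_lit 516131) (nat_lit 3) .nil))))) (.g (nat_lit 0) (.e (nat_lit 116895) (nat_lit 0) .nil) .nil))) 
(.lf (nat_lit 482257) (.g (nat_lit 2926) (.e (nat_lit 7265) (nat_lit 384) (.e (nat_lit 57406) (nat_lit 12) (.e (nat_lit 336018) (nat_lit 3) (.e (nat_lit 98372) (nat_lit 29) (.e (nat_lit 450586) (nat_lit 10) (.e (nat_lit 573473) (nat_lit 12) (.e (nat_lit 57353) (nat_lit 0) .nil))))))) (.g (nat_lit 1) (.e (nat_lit 118914) (nat_lit 0) .nil) .nil))))))) 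
(.nd (nat_lit 6) (.nd (nat_lit 7) (.nd (nat_lit 8) (.nd (nat_lit 9) 
(.lf (nat_lit 481329) (.g (nat_lit 1445) (.e (nat_lit 5404) (nat_lit 302) (.e (nat_lit 73472) (nat_lit 29) (.e (nat_lit 442430) (nat_lit 24) (.e (nat_lit 229678) (nat_lit 244) (.e (nat_lit 163896) (nat_lit 10) (.e (nat_lit 417536) (nat_lit 0) .nil)))))) (.g (nat_lit 1) (.e (nat_lit 113015) (nat_lit 0) .nil) .nil))) 
(.lf (nat_lit 481841) (.g (nat_lit 3657) (.e (nat_lit 6930) (nat_lit 373) (.e (nat_lit 57375) (nat_lit 2) (.e (nat_lit 90170) (nat_lit 13) (.e (nat_lit 172106) (nat_lit 10) (.e (nat_lit 434231) (nat_lit 23) .nil))))) (.g (nat_lit 0) (.e (nat_lit 117815) (nat_lit 0) .nil) .nil)))) (.nd (nat_lit 9) 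
(.lf (nat_lit 481585) (.g (nat_lit 2657) (.e (nat_lit 5548) (nat_lit 306) (.e (nat_lit 2599) (nat_lit 163) (.e (nat_lit 163978) (nat_lit 30) (.e (nat_lit 573485) (nat_lit 13) (.e (nat_lit 65604) (nat_lit 9) (.e (nat_lit 336013) (nat_lit 2) (.e (nat_lit 90170) (nat_lit 13) (.e (nat_lit 172049) (nat_lit 0) (.e (nat_lit 2458) (nat_lit 157) .nil))))))))) (.g (nat_lit 1) (.e (nat_lit 114514) (nat_lit 0) .nil) .nil))) 
(.lf (nat_lit 482097) (.g (nat_lit 2980) (.e (nat_lit 7107) (nat_lit 380) (.e (nat_lit 164362) (nat_lit 246) (.e (nat_lit 2679) (nat_lit 168) (.e (nat_lit 204868) (nat_lit 29) (.e (nat_lit 360466) (nat_lit 3) (.e (nat_lit 516096) (nat_lit 0) .nil)))))) (.g (nat_lit 1) (.e (nat_lit 118395) (nat_lit 0) .nil) .nil))))) (.nd (nat_lit 8) (.nd (nat_lit 9) 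
(.lf (nat_lit 481457) (.g (nat_lit 3263) (.e (nat_lit 5546) (nat_lit 306) (.e (nat_lit 2619) (nat_lit 164) (.e (nat_lit 172120) (nat_lit 12) (.e (nat_lit 475210) (nat_lit 41) (.e (nat_lit 712753) (nat_lit 30) (.e (nat_lit 458496) (nat_lit 0) .nil)))))) (.g (nat_lit 1) (.e (nat_lit 113890) (nat_lit 0) .nil) .nil))) 
(.lf (nat_lit 481969) (.g (nat_lit 2647) (.e (nat_lit 7016) (nat_lit 377) (.e (nat_lit 2797) (nat_lit 180) (.e (nat_lit 303117) (nat_lit 2) (.e (nat_lit 196674) (nat_lit 15) (.e (nat_lit 81954) (nat_lit 23) .nil))))) (.g (nat_lit 0) (.e (nat_lit 118106) (nat_lit 0) .nil) .nil)))) (.nd (nat_lit 9) 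
(.lf (nat_lit 481713) (.g (nat_lit 2898) (.e (nat_lit 5593) (nat_lit 310) (.e (nat_lit 163869) (nat_lit 2) (.e (nat_lit 196670) (nat_lit 14) (.e (nat_lit 73754) (nat_lit 8) (.e (nat_lit 557105) (nat_lit 14) .nil))))) (.g (nat_lit 0) (.e (nat_lit 115994) (nat_lit 0) .nil) .nil))) 
(.lf (nat_lit 482225) (.g (nat_lit 5472) (.e (nat_lit 7261) (nat_lit 384) (.e (nat_lit 57431) (nat_lit 16) (.e (nat_lit 368676) (nat_lit 21) (.e (nat_lit 516166) (nat_lit 12) (.e (nat_lit 450588) (nat_lit 10) (.e (nat_lit 573475) (nat_lit 12) (.e (nat_lit 57351) (nat_lit 0) .nil))))))) (.g (nat_lit 1) (.e (nat_lit 118873) (nat_lit 0) .nil) .nil)))))) 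
(.nd (nat_lit 7) (.nd (nat_lit 8) (.nd (nat_lit 9) 
(.lf (nat_lit 481393) (.g (nat_lit 2187) (.e (nat_lit 5543) (nat_lit 306) (.e (nat_lit 2628) (nat_lit 164) (.e (nat_lit 172126) (nat_lit 14) (.e (nat_lit 491550) (nat_lit 9) (.e (nat_lit 336434) (nat_lit 30) (.e (nat_lit 458496) (nat_lit 0) .nil)))))) (.g (nat_lit 1) (.e (nat_lit 113586) (nat_lit 0) .nil) .nil))) 
(.lf (nat_lit 481905) (.g (nat_lit 1307) (.e (nat_lit 6986) (nat_lit 377) (.e (nat_lit 2810) (nat_lit 180) (.e (nat_lit 303117) (nat_lit 2) (.e (nat_lit 196665) (nat_lit 13) .nil)))) (.g (nat_lit 0) (.e (nat_lit 117954) (nat_lit 0) .nil) .nil)))) (.nd (nat_lit 9) 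
(.lf (nat_lit 481649) (.g (nat_lit 1925) (.e (nat_lit 5586) (nat_lit 310) (.e (nat_lit 163874) (nat_lit 3) (.e (nat_lit 204861) (nat_lit 26) (.e (nat_lit 336213) (nat_lit 13) .nil)))) (.g (nat_lit 0) (.e (nat_lit 115098) (nat_lit 0) .nil) .nil))) 
(.lf (nat_lit 482161) (.g (nat_lit 1676) (.e (nat_lit 7289) (nat_lit 386) (.e (nat_lit 163907) (nat_lit 12) (.e (nat_lit 426568) (nat_lit 34) (.e (nat_lit 393277) (nat_lit 23) .nil)))) (.g (nat_lit 0) (.e (nat_lit 118745) (nat_lit 0) .nil) .nil))))) (.nd (nat_lit 8) (.nd (nat_lit 9) 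
(.lf (nat_lit 481521) (.g (nat_lit 2981) (.e (nat_lit 5547) (nat_lit 306) (.e (nat_lit 2610) (nat_lit 163) (.e (nat_lit 163978) (nat_lit 30) (.e (nat_lit 573485) (nat_lit 13) (.e (nat_lit 65619) (nat_lit 10) (.e (nat_lit 344117) (nat_lit 21) (.e (nat_lit 516151) (nat_lit 9) (.e (nat_lit 426043) (nat_lit 0) (.e (nat_lit 2458) (nat_lit 157) .nil))))))))) (.g (nat_lit 1) (.e (nat_lit 114208) (nat_lit 0) .nil) .nil))) 
(.lf (nat_lit 482033) (.g (nat_lit 1628) (.e (nat_lit 7936) (nat_lit 377) (.e (nat_lit 2797) (nat_lit 180) (.e (nat_lit 303119) (nat_lit 3) (.e (nat_lit 204850) (nat_lit 26) .nil)))) (.g (nat_lit 0) (.e (nat_lit 118212) (nat_lit 0) .nil) .nil)))) (.nd (nat_lit 9) 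
(.lf (nat_lit 481777) (.g (nat_lit 1689) (.e (nat_lit 5603) (nat_lit 310) (.e (nat_lit 163874) (nat_lit 3) (.e (nat_lit 204861) (nat_lit 26) (.e (nat_lit 336213) (nat_lit 13) .nil)))) (.g (nat_lit 0) (.e (nat_lit 117440) (nat_lit 0) .nil) .nil))) 
(.lf (nat_lit 482289) (.g (nat_lit 7431) (.e (nat_lit 7265) (nat_lit 384) (.e (nat_lit 57406) (nat_lit 12) (.e (nat_lit 336019) (nat_lit 3) (.e (nat_lit 98373) (nat_lit 29) (.e (nat_lit 450588) (nat_lit 10) (.e (nat_lit 573475) (nat_lit 12) (.e (nat_lit 57347) (nat_lit 0) .nil))))))) (.g (nat_lit 1) (.e (nat_lit 118946) (nat_lit 0) .nil) .nil))))))))) 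
(.nd (nat_lit 4) (.nd (nat_lit 5) (.nd (nat_lit 6) (.nd (nat_lit 7) (.nd (nat_lit 8) 
(.nd (nat_lit 9) 
(.lf (nat_lit 481289) (.g (nat_lit 2541) (.e (nat_lit 5394) (nat_lit 301) (.e (nat_lit 57464) (nat_lit 23) (.e (nat_lit 516165) (nat_lit 12) (.e (nat_lit 450586) (nat_lit 10) (.e (nat_lit 573452) (nat_lit 9) (.e (nat_lit 359) (nat_lit 30) (.e (nat_lit 409605) (nat_lit 0) .nil))))))) (.g (nat_lit 1) (.e (nat_lit 112928) (nat_lit 0) .nil) .nil))) 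
(.lf (nat_lit 481801) (.g (nat_lit 762) (.e (nat_lit 6850) (nat_lit 371) (.e (nat_lit 2630) (nat_lit 164) (.e (nat_lit 172138) (nat_lit 15) .nil))) (.g (nat_lit 0) (.e (nat_lit 117744) (nat_lit 0) .nil) .nil)))) (.nd (nat_lit 9) 
(.lf (nat_lit 481545) (.g (nat_lit 2136) (.e (nat_lit 5547) (nat_lit 306) (.e (nat_lit 2619) (nat_lit 164) (.e (nat_lit 172124) (nat_lit 14) (.e (nat_lit 491550) (nat_lit 9) (.e (nat_lit 336434) (nat_lit 30) (.e (nat_lit 458496) (nat_lit 0) .nil)))))) (.g (nat_lit 1) (.e (nat_lit 114288) (nat_lit 0) .nil) .nil))) 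
(.lf (nat_lit 482057) (.g (nat_lit 2005) (.e (nat_lit 7096) (nat_lit 380) (.e (nat_lit 164287) (nat_lit 224) (.e (nat_lit 164092) (nat_lit 82) (.e (nat_lit 500046) (nat_lit 16) (.e (nat_lit 16463) (nat_lit 13) (.e (nat_lit 491264) (nat_lit 0) .nil)))))) (.g (nat_lit 1) (.e (nat_lit 118258) (nat_lit 0) .nil) .nil))))) (.nd (nat_lit 8) (.nd (nat_lit 9) 
(.lf (nat_lit 481417) (.g (nat_lit 4136) (.e (nat_lit 5546) (nat_lit 306) (.e (nat_lit 2601) (nat_lit 163) (.e (nat_lit 163977) (nat_lit 30) (.e (nat_lit 573482) (nat_lit 13) (.e (nat_lit 65604) (nat_lit 9) (.e (nat_lit 336013) (nat_lit 2) (.e (nat_lit 90170) (nat_lit 13) (.e (nat_lit 172046) (nat_lit 0) (.e (nat_lit 2458) (nat_lit 157) .nil))))))))) (.g (nat_lit 1) (.e (nat_lit 113762) (nat_lit 0) .nil) .nil))) 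
(.lf (nat_lit 481929) (.g (nat_lit 2406) (.e (nat_lit 7007) (nat_lit 377) (.e (nat_lit 2798) (nat_lit 180) (.e (nat_lit 303117) (nat_lit 2) (.e (nat_lit 196666) (nat_lit 13) (.e (nat_lit 65610) (nat_lit 10) .nil))))) (.g (nat_lit 0) (.e (nat_lit 118006) (nat_lit 0) .nil) .nil)))) (.nd (nat_lit 9) 
(.lf (nat_lit 481673) (.g (nat_lit 2300) (.e (nat_lit 5587) (nat_lit 310) (.e (nat_lit 163903) (nat_lit 12) (.e (nat_lit 426320) (nat_lit 12) (.e (nat_lit 475211) (nat_lit 41) (.e (nat_lit 712755) (nat_lit 30) .nil))))) (.g (nat_lit 0) (.e (nat_lit 115344) (nat_lit 0) .nil) .nil))) 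
(.lf (nat_lit 482185) (.g (nat_lit 2762) (.e (nat_lit 7261) (nat_lit 384) (.e (nat_lit 57406) (nat_lit 12) (.e (nat_lit 336316) (nat_lit 17) (.e (nat_lit 196666) (nat_lit 13) (.e (nat_lit 65629) (nat_lit 14) (.e (nat_lit 401472) (nat_lit 28) (.e (nat_lit 344096) (nat_lit 18) .nil))))))) (.g (nat_lit 1) (.e (nat_lit 118828) (nat_lit 0) .nil) .nil)))))) 
(.nd (nat_lit 7) (.nd (nat_lit 8) (.nd (nat_lit 9) 
(.lf (nat_lit 481353) (.g (nat_lit 1245) (.e (nat_lit 5443) (nat_lit 306) (.e (nat_lit 2725) (nat_lit 172) (.e (nat_lit 237616) (nat_lit 12) (.e (nat_lit 475211) (nat_lit 41) (.e (nat_lit 712753) (nat_lit 30) .nil))))) (.g (nat_lit 0) (.e (nat_lit 113154) (nat_lit 0) .nil) .nil))) 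
(.lf (nat_lit 481865) (.g (nat_lit 536) (.e (nat_lit 6967) (nat_lit 377) (.e (nat_lit 2777) (nat_lit 178) (.e (nat_lit 286770) (nat_lit 28) .nil))) (.g (nat_lit 0) (.e (nat_lit 117860) (nat_lit 0) .nil) .nil)))) (.nd (nat_lit 9) 
(.lf (nat_lit 481609) (.g (nat_lit 5227) (.e (nat_lit 5548) (nat_lit 306) (.e (nat_lit 2610) (nat_lit 163) (.e (nat_lit 163979) (nat_lit 30) (.e (nat_lit 573482) (nat_lit 13) (.e (nat_lit 65604) (nat_lit 9) (.e (nat_lit 336013) (nat_lit 2) (.e (nat_lit 90170) (nat_lit 13) (.e (nat_lit 172046) (nat_lit 0) (.e (nat_lit 2458) (nat_lit 157) .nil))))))))) (.g (nat_lit 1) (.e (nat_lit 114551) (nat_lit 0) .nil) .nil))) 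
(.lf (nat_lit 482121) (.g (nat_lit 2818) (.e (nat_lit 7280) (nat_lit 386) (.e (nat_lit 163875) (nat_lit 3) (.e (nat_lit 204829) (nat_lit 18) (.e (nat_lit 57847) (nat_lit 252) (.e (nat_lit 57432) (nat_lit 16) (.e (nat_lit 368676) (nat_lit 21) (.e (nat_lit 516179) (nat_lit 15) (.e (nat_lit 475163) (nat_lit 21) .nil)))))))) (.g (nat_lit 1) (.e (nat_lit 118613) (nat_lit 0) .nil) .nil))))) 
(.nd (nat_lit 8) (.nd (nat_lit 9) 
(.lf (nat_lit 481481) (.g (nat_lit 3447) (.e (nat_lit 5546) (nat_lit 306) (.e (nat_lit 2638) (nat_lit 165) (.e (nat_lit 180278) (nat_lit 32) (.e (nat_lit 1660) (nat_lit 115) (.e (nat_lit 393282) (nat_lit 24) (.e (nat_lit 434209) (nat_lit 18) .nil)))))) (.g (nat_lit 1) (.e (nat_lit 114000) (nat_lit 0) .nil) .nil))) 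
(.lf (nat_lit 481993) (.g (nat_lit 1787) (.e (nat_lit 7073) (nat_lit 377) (.e (nat_lit 2797) (nat_lit 180) (.e (nat_lit 303117) (nat_lit 2) (.e (nat_lit 196665) (nat_lit 13) (.e (nat_lit 65619) (nat_lit 10) .nil))))) (.g (nat_lit 0) (.e (nat_lit 118148) (nat_lit 0) .nil) .nil)))) (.nd (nat_lit 9) 
(.lf (nat_lit 481737) (.g (nat_lit 1510) (.e (nat_lit 5598) (nat_lit 310) (.e (nat_lit 163867) (nat_lit 2) (.e (nat_lit 196670) (nat_lit 14) (.e (nat_lit 73746) (nat_lit 3) .nil)))) (.g (nat_lit 0) (.e (nat_lit 116575) (nat_lit 0) .nil) .nil))) 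
(.lf (nat_lit 482249) (.g (nat_lit 1061) (.e (nat_lit 7263) (nat_lit 384) (.e (nat_lit 57412) (nat_lit 12) (.e (nat_lit 336099) (nat_lit 9) (.e (nat_lit 343808) (nat_lit 31) .nil)))) (.g (nat_lit 0) (.e (nat_lit 118898) (nat_lit 0) .nil) .nil))))))) (.nd (nat_lit 6) (.nd (nat_lit 7) (.nd (nat_lit 8) (.nd (nat_lit 9) 
(.lf (nat_lit 481321) (.g (nat_lit 998) (.e (nat_lit 7936) (nat_lit 301) (.e (nat_lit 57569) (nat_lit 53) (.e (nat_lit 761866) (nat_lit 5) (.e (nat_lit 1454) (nat_lit 108) .nil)))) (.g (nat_lit 0) (.e (nat_lit 112975) (nat_lit 0) .nil) .nil))) 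
(.lf (nat_lit 481833) (.g (nat_lit 3283) (.e (nat_lit 6943) (nat_lit 375) (.e (nat_lit 163945) (nat_lit 20) (.e (nat_lit 491569) (nat_lit 13) (.e (nat_lit 393301) (nat_lit 27) (.e (nat_lit 491558) (nat_lit 10) (.e (nat_lit 344091) (nat_lit 18) .nil)))))) (.g (nat_lit 1) (.e (nat_lit 117807) (nat_lit 0) .nil) .nil)))) (.nd (nat_lit 9) 
(.lf (nat_lit 481577) (.g (nat_lit 1305) (.e (nat_lit 5547) (nat_lit 306) (.e (nat_lit 2640) (nat_lit 165) (.e (nat_lit 180277) (nat_lit 32) (.e (nat_lit 1428) (nat_lit 108) (.e (nat_lit 336434) (nat_lit 30) (.e (nat_lit 458496) (nat_lit 0) .nil)))))) (.g (nat_lit 1) (.e (nat_lit 114405) (nat_lit 0) .nil) .nil))) 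
(.lf (nat_lit 482089) (.g (nat_lit 944) (.e (nat_lit 7106) (nat_lit 380) (.e (nat_lit 164269) (nat_lit 221) (.e (nat_lit 2576) (nat_lit 161) (.e (nat_lit 40995) (nat_lit 11) (.e (nat_lit 24657) (nat_lit 13) (.e (nat_lit 401152) (nat_lit 17) .nil)))))) (.g (nat_lit 1) (.e (nat_lit 118360) (nat_lit 0) .nil) .nil))))) (.nd (nat_lit 8) (.nd (nat_lit 9) 
(.lf (nat_lit 481449) (.g (nat_lit 2952) (.e (nat_lit 5546) (nat_lit 306) (.e (nat_lit 2618) (nat_lit 164) (.e (nat_lit 172124) (nat_lit 14) (.e (nat_lit 491549) (nat_lit 9) (.e (nat_lit 336432) (nat_lit 30) (.e (nat_lit 458496) (nat_lit 0) .nil)))))) (.g (nat_lit 1) (.e (nat_lit 113847) (nat_lit 0) .nil) .nil))) 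
(.lf (nat_lit 481961) (.g (nat_lit 2054) (.e (nat_lit 7015) (nat_lit 377) (.e (nat_lit 2797) (nat_lit 180) (.e (nat_lit 303117) (nat_lit 2) (.e (nat_lit 196672) (nat_lit 15) (.e (nat_lit 81954) (nat_lit 23) .nil))))) (.g (nat_lit 0) (.e (nat_lit 118094) (nat_lit 0) .nil) .nil)))) (.nd (nat_lit 9) 
(.lf (nat_lit 481705) (.g (nat_lit 1031) (.e (nat_lit 5589) (nat_lit 310) (.e (nat_lit 163903) (nat_lit 12) (.e (nat_lit 426320) (nat_lit 12) .nil))) (.g (nat_lit 0) (.e (nat_lit 115852) (nat_lit 0) .nil) .nil))) 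
(.lf (nat_lit 482217) (.g (nat_lit 4815) (.e (nat_lit 7261) (nat_lit 384) (.e (nat_lit 57412) (nat_lit 12) (.e (nat_lit 336022) (nat_lit 3) (.e (nat_lit 98373) (nat_lit 29) (.e (nat_lit 450588) (nat_lit 10) (.e (nat_lit 573473) (nat_lit 12) (.e (nat_lit 57348) (nat_lit 0) .nil))))))) (.g (nat_lit 1) (.e (nat_lit 118863) (nat_lit 0) .nil) .nil)))))) 
(.nd (nat_lit 7) (.nd (nat_lit 8) (.nd (nat_lit 9) 
(.lf (nat_lit 481385) (.g (nat_lit 2570) (.e (nat_lit 5543) (nat_lit 306) (.e (nat_lit 2619) (nat_lit 164) (.e (nat_lit 172124) (nat_lit 14) (.e (nat_lit 491549) (nat_lit 9) (.e (nat_lit 336434) (nat_lit 30) (.e (nat_lit 458496) (nat_lit 0) .nil)))))) (.g (nat_lit 1) (.e (nat_lit 113548) (nat_lit 0) .nil) .nil))) 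
(.lf (nat_lit 481897) (.g (nat_lit 358) (.e (nat_lit 6989) (nat_lit 377) (.e (nat_lit 2777) (nat_lit 178) (.e (nat_lit 286770) (nat_lit 28) .nil))) (.g (nat_lit 0) (.e (nat_lit 117938) (nat_lit 0) .nil) .nil)))) (.nd (nat_lit 9) 
(.lf (nat_lit 481641) (.g (nat_lit 2136) (.e (nat_lit 5583) (nat_lit 310) (.e (nat_lit 163875) (nat_lit 3) (.e (nat_lit 204864) (nat_lit 27) (.e (nat_lit 344132) (nat_lit 26) (.e (nat_lit 557105) (nat_lit 14) .nil))))) (.g (nat_lit 0) (.e (nat_lit 114783) (nat_lit 0) .nil) .nil))) 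
(.lf (nat_lit 482153) (.g (nat_lit 1937) (.e (nat_lit 7289) (nat_lit 386) (.e (nat_lit 163864) (nat_lit 1) (.e (nat_lit 164332) (nat_lit 230) (.e (nat_lit 163902) (nat_lit 12) (.e (nat_lit 426472) (nat_lit 25) .nil))))) (.g (nat_lit 0) (.e (nat_lit 118726) (nat_lit 0) .nil) .nil))))) (.nd (nat_lit 8) (.nd (nat_lit 9) 
(.lf (nat_lit 481513) (.g (nat_lit 2645) (.e (nat_lit 5547) (nat_lit 306) (.e (nat_lit 2610) (nat_lit 163) (.e (nat_lit 163978) (nat_lit 30) (.e (nat_lit 573479) (nat_lit 13) (.e (nat_lit 65619) (nat_lit 10) (.e (nat_lit 344117) (nat_lit 21) (.e (nat_lit 516151) (nat_lit 9) (.e (nat_lit 426043) (nat_lit 0) (.e (nat_lit 2458) (nat_lit 157) .nil))))))))) (.g (nat_lit 1) (.e (nat_lit 114196) (nat_lit 0) .nil) .nil))) 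
(.lf (nat_lit 482025) (.g (nat_lit 2414) (.e (nat_lit 7065) (nat_lit 377) (.e (nat_lit 1348) (nat_lit 102) (.e (nat_lit 286761) (nat_lit 13) (.e (nat_lit 393289) (nat_lit 25) (.e (nat_lit 466688) (nat_lit 18) .nil))))) (.g (nat_lit 0) (.e (nat_lit 118200) (nat_lit 0) .nil) .nil)))) (.nd (nat_lit 9) 
(.lf (nat_lit 481769) (.g (nat_lit 2180) (.e (nat_lit 5601) (nat_lit 310) (.e (nat_lit 163869) (nat_lit 2) (.e (nat_lit 196670) (nat_lit 14) (.e (nat_lit 73746) (nat_lit 3) (.e (nat_lit 516129) (nat_lit 3) .nil))))) (.g (nat_lit 0) (.e (nat_lit 117270) (nat_lit 0) .nil) .nil))) 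
(.lf (nat_lit 482281) (.g (nat_lit 3472) (.e (nat_lit 7265) (nat_lit 384) (.e (nat_lit 57406) (nat_lit 12) (.e (nat_lit 336019) (nat_lit 3) (.e (nat_lit 98372) (nat_lit 29) (.e (nat_lit 450586) (nat_lit 10) (.e (nat_lit 573478) (nat_lit 12) (.e (nat_lit 57353) (nat_lit 0) .nil))))))) (.g (nat_lit 1) (.e (nat_lit 118938) (nat_lit 0) .nil) .nil)))))))) 
(.nd (nat_lit 5) (.nd (nat_lit 6) (.nd (nat_lit 7) (.nd (nat_lit 8) (.nd (nat_lit 9) 
(.lf (nat_lit 481305) (.g (nat_lit 2632) (.e (nat_lit 5395) (nat_lit 301) (.e (nat_lit 57464) (nat_lit 23) (.e (nat_lit 516151) (nat_lit 9) (.e (nat_lit 426285) (nat_lit 10) (.e (nat_lit 434233) (nat_lit 23) .nil))))) (.g (nat_lit 0) (.e (nat_lit 112948) (nat_lit 0) .nil) .nil))) 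
(.lf (nat_lit 481817) (.g (nat_lit 4478) (.e (nat_lit 6940) (nat_lit 375) (.e (nat_lit 163938) (nat_lit 18) (.e (nat_lit 475185) (nat_lit 29) (.e (nat_lit 557100) (nat_lit 13) (.e (nat_lit 172113) (nat_lit 10) (.e (nat_lit 434248) (nat_lit 28) (.e (nat_lit 573475) (nat_lit 12) (.e (nat_lit 57348) (nat_lit 0) .nil)))))))) (.g (nat_lit 1) (.e (nat_lit 117779) (nat_lit 0) .nil) .nil)))) 
(.nd (nat_lit 9) 
(.lf (nat_lit 481561) (.g (nat_lit 2343) (.e (nat_lit 5547) (nat_lit 306) (.e (nat_lit 2629) (nat_lit 164) (.e (nat_lit 172124) (nat_lit 14) (.e (nat_lit 491550) (nat_lit 9) (.e (nat_lit 336432) (nat_lit 30) (.e (nat_lit 458496) (nat_lit 0) .nil)))))) (.g (nat_lit 1) (.e (nat_lit 114364) (nat_lit 0) .nil) .nil))) 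
(.lf (nat_lit 482073) (.g (nat_lit 616) (.e (nat_lit 7098) (nat_lit 380) (.e (nat_lit 164356) (nat_lit 246) (.e (nat_lit 112) (nat_lit 3) .nil))) (.g (nat_lit 0) (.e (nat_lit 118303) (nat_lit 0) .nil) .nil))))) (.nd (nat_lit 8) (.nd (nat_lit 9) 
(.lf (nat_lit 481433) (.g (nat_lit 3535) (.e (nat_lit 5546) (nat_lit 306) (.e (nat_lit 2610) (nat_lit 163) (.e (nat_lit 163979) (nat_lit 30) (.e (nat_lit 573482) (nat_lit 13) (.e (nat_lit 65604) (nat_lit 9) (.e (nat_lit 336013) (nat_lit 2) (.e (nat_lit 90170) (nat_lit 13) (.e (nat_lit 172049) (nat_lit 0) (.e (nat_lit 2458) (nat_lit 157) .nil))))))))) (.g (nat_lit 1) (.e (nat_lit 113789) (nat_lit 0) .nil) .nil))) 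
(.lf (nat_lit 481945) (.g (nat_lit 1746) (.e (nat_lit 7013) (nat_lit 377) (.e (nat_lit 2797) (nat_lit 180) (.e (nat_lit 303117) (nat_lit 2) (.e (nat_lit 196673) (nat_lit 15) .nil)))) (.g (nat_lit 0) (.e (nat_lit 118070) (nat_lit 0) .nil) .nil)))) (.nd (nat_lit 9) 
(.lf (nat_lit 481689) (.g (nat_lit 3013) (.e (nat_lit 5587) (nat_lit 310) (.e (nat_lit 163907) (nat_lit 12) (.e (nat_lit 426320) (nat_lit 12) (.e (nat_lit 475211) (nat_lit 41) (.e (nat_lit 712755) (nat_lit 30) (.e (nat_lit 458496) (nat_lit 0) .nil)))))) (.g (nat_lit 1) (.e (nat_lit 115387) (nat_lit 0) .nil) .nil))) 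
(.lf (nat_lit 482201) (.g (nat_lit 6510) (.e (nat_lit 7261) (nat_lit 384) (.e (nat_lit 57407) (nat_lit 12) (.e (nat_lit 336019) (nat_lit 3) (.e (nat_lit 98373) (nat_lit 29) (.e (nat_lit 450588) (nat_lit 10) (.e (nat_lit 573473) (nat_lit 12) (.e (nat_lit 57348) (nat_lit 0) .nil))))))) (.g (nat_lit 1) (.e (nat_lit 118847) (nat_lit 0) .nil) .nil)))))) 
(.nd (nat_lit 7) (.nd (nat_lit 8) (.nd (nat_lit 9) 
(.lf (nat_lit 481369) (.g (nat_lit 2500) (.e (nat_lit 5537) (nat_lit 306) (.e (nat_lit 2610) (nat_lit 163) (.e (nat_lit 163979) (nat_lit 30) (.e (nat_lit 573491) (nat_lit 15) (.e (nat_lit 81954) (nat_lit 23) .nil))))) (.g (nat_lit 0) (.e (nat_lit 113474) (nat_lit 0) .nil) .nil))) 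
(.lf (nat_lit 481881) (.g (nat_lit 1166) (.e (nat_lit 6989) (nat_lit 377) (.e (nat_lit 2810) (nat_lit 180) (.e (nat_lit 303119) (nat_lit 3) (.e (nat_lit 204855) (nat_lit 26) .nil)))) (.g (nat_lit 0) (.e (nat_lit 117894) (nat_lit 0) .nil) .nil)))) (.nd (nat_lit 9) 
(.lf (nat_lit 481625) (.g (nat_lit 2929) (.e (nat_lit 5548) (nat_lit 306) (.e (nat_lit 2611) (nat_lit 163) (.e (nat_lit 163978) (nat_lit 30) (.e (nat_lit 573479) (nat_lit 13) (.e (nat_lit 65604) (nat_lit 9) (.e (nat_lit 336013) (nat_lit 2) (.e (nat_lit 90170) (nat_lit 13) (.e (nat_lit 172042) (nat_lit 0) (.e (nat_lit 2458) (nat_lit 157) .nil))))))))) (.g (nat_lit 1) (.e (nat_lit 114581) (nat_lit 0) .nil) .nil))) 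
(.lf (nat_lit 482137) (.g (nat_lit 1901) (.e (nat_lit 7281) (nat_lit 386) (.e (nat_lit 163864) (nat_lit 1) (.e (nat_lit 164332) (nat_lit 230) (.e (nat_lit 163905) (nat_lit 12) (.e (nat_lit 426472) (nat_lit 25) .nil))))) (.g (nat_lit 0) (.e (nat_lit 118645) (nat_lit 0) .nil) .nil))))) (.nd (nat_lit 8) (.nd (nat_lit 9) 
(.lf (nat_lit 481497) (.g (nat_lit 1895) (.e (nat_lit 5546) (nat_lit 306) (.e (nat_lit 2648) (nat_lit 166) (.e (nat_lit 188418) (nat_lit 0) (.e (nat_lit 2174) (nat_lit 143) (.e (nat_lit 712753) (nat_lit 30) (.e (nat_lit 458496) (nat_lit 0) .nil)))))) (.g (nat_lit 1) (.e (nat_lit 114025) (nat_lit 0) .nil) .nil))) 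
(.lf (nat_lit 482009) (.g (nat_lit 2883) (.e (nat_lit 7064) (nat_lit 377) (.e (nat_lit 1349) (nat_lit 102) (.e (nat_lit 286735) (nat_lit 3) (.e (nat_lit 98350) (nat_lit 24) (.e (nat_lit 417536) (nat_lit 6) (.e (nat_lit 286733) (nat_lit 2) (.e (nat_lit 90133) (nat_lit 9) (.e (nat_lit 2400) (nat_lit 157) .nil)))))))) (.g (nat_lit 1) (.e (nat_lit 118183) (nat_lit 0) .nil) .nil)))) (.nd (nat_lit 9) 
(.lf (nat_lit 481753) (.g (nat_lit 3531) (.e (nat_lit 5599) (nat_lit 310) (.e (nat_lit 163874) (nat_lit 3) (.e (nat_lit 204864) (nat_lit 27) (.e (nat_lit 344133) (nat_lit 26) (.e (nat_lit 557098) (nat_lit 13) (.e (nat_lit 179968) (nat_lit 18) (.e (nat_lit 98325) (nat_lit 17) (.e (nat_lit 2515) (nat_lit 157) .nil)))))))) (.g (nat_lit 1) (.e (nat_lit 116991) (nat_lit 0) .nil) .nil))) 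
(.lf (nat_lit 482265) (.g (nat_lit 2588) (.e (nat_lit 7265) (nat_lit 384) (.e (nat_lit 57406) (nat_lit 12) (.e (nat_lit 336019) (nat_lit 3) (.e (nat_lit 98359) (nat_lit 26) (.e (nat_lit 426286) (nat_lit 10) .nil))))) (.g (nat_lit 0) (.e (nat_lit 118922) (nat_lit 0) .nil) .nil))))))) (.nd (nat_lit 6) (.nd (nat_lit 7) (.nd (nat_lit 8) (.nd (nat_lit 9) 
(.lf (nat_lit 481337) (.g (nat_lit 841) (.e (nat_lit 5410) (nat_lit 303) (.e (nat_lit 73764) (nat_lit 18) (.e (nat_lit 638998) (nat_lit 8) (.e (nat_lit 172081) (nat_lit 7) (.e (nat_lit 409639) (nat_lit 15) .nil))))) (.g (nat_lit 0) (.e (nat_lit 113055) (nat_lit 0) .nil) .nil))) 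
(.lf (nat_lit 481849) (.g (nat_lit 1595) (.e (nat_lit 6966) (nat_lit 377) (.e (nat_lit 2797) (nat_lit 180) (.e (nat_lit 303117) (nat_lit 2) (.e (nat_lit 196664) (nat_lit 13) .nil)))) (.g (nat_lit 0) (.e (nat_lit 117826) (nat_lit 0) .nil) .nil)))) (.nd (nat_lit 9) 
(.lf (nat_lit 481593) (.g (nat_lit 2789) (.e (nat_lit 5548) (nat_lit 306) (.e (nat_lit 2610) (nat_lit 163) (.e (nat_lit 163978) (nat_lit 30) (.e (nat_lit 573479) (nat_lit 13) (.e (nat_lit 65604) (nat_lit 9) .nil))))) (.g (nat_lit 0) (.e (nat_lit 114530) (nat_lit 0) .nil) .nil))) 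
(.lf (nat_lit 482105) (.g (nat_lit 2112) (.e (nat_lit 7081) (nat_lit 378) (.e (nat_lit 57902) (nat_lit 277) (.e (nat_lit 131140) (nat_lit 27) (.e (nat_lit 426343) (nat_lit 14) (.e (nat_lit 491552) (nat_lit 9) (.e (nat_lit 336250) (nat_lit 15) .nil)))))) (.g (nat_lit 1) (.e (nat_lit 118426) (nat_lit 0) .nil) .nil))))) (.nd (nat_lit 8) (.nd (nat_lit 9) 
(.lf (nat_lit 481465) (.g (nat_lit 1609) (.e (nat_lit 5546) (nat_lit 306) (.e (nat_lit 2629) (nat_lit 164) (.e (nat_lit 172119) (nat_lit 12) (.e (nat_lit 475210) (nat_lit 41) (.e (nat_lit 712753) (nat_lit 30) .nil))))) (.g (nat_lit 0) (.e (nat_lit 113965) (nat_lit 0) .nil) .nil))) 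
(.lf (nat_lit 481977) (.g (nat_lit 3505) (.e (nat_lit 7016) (nat_lit 377) (.e (nat_lit 2804) (nat_lit 180) (.e (nat_lit 303117) (nat_lit 2) (.e (nat_lit 196666) (nat_lit 13) (.e (nat_lit 65617) (nat_lit 10) .nil))))) (.g (nat_lit 0) (.e (nat_lit 118118) (nat_lit 0) .nil) .nil)))) (.nd (nat_lit 9) 
(.lf (nat_lit 481721) (.g (nat_lit 517) (.e (nat_lit 5594) (nat_lit 310) (.e (nat_lit 163905) (nat_lit 12) (.e (nat_lit 426320) (nat_lit 12) .nil))) (.g (nat_lit 0) (.e (nat_lit 116097) (nat_lit 0) .nil) .nil))) 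
(.lf (nat_lit 482233) (.g (nat_lit 6705) (.e (nat_lit 7261) (nat_lit 384) (.e (nat_lit 57432) (nat_lit 16) (.e (nat_lit 368676) (nat_lit 21) (.e (nat_lit 516166) (nat_lit 12) (.e (nat_lit 450588) (nat_lit 10) (.e (nat_lit 573475) (nat_lit 12) (.e (nat_lit 57347) (nat_lit 0) .nil))))))) (.g (nat_lit 1) (.e (nat_lit 118881) (nat_lit 0) .nil) .nil)))))) 
(.nd (nat_lit 7) (.nd (nat_lit 8) (.nd (nat_lit 9) 
(.lf (nat_lit 481401) (.g (nat_lit 1528) (.e (nat_lit 5543) (nat_lit 306) (.e (nat_lit 2638) (nat_lit 165) (.e (nat_lit 180278) (nat_lit 32) (.e (nat_lit 1426) (nat_lit 108) (.e (nat_lit 336434) (nat_lit 30) (.e (nat_lit 458496) (nat_lit 0) .nil)))))) (.g (nat_lit 1) (.e (nat_lit 113619) (nat_lit 0) .nil) .nil))) 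
(.lf (nat_lit 481913) (.g (nat_lit 1608) (.e (nat_lit 6986) (nat_lit 377) (.e (nat_lit 2777) (nat_lit 178) (.e (nat_lit 286735) (nat_lit 3) (.e (nat_lit 98325) (nat_lit 17) .nil)))) (.g (nat_lit 0) (.e (nat_lit 117973) (nat_lit 0) .nil) .nil)))) (.nd (nat_lit 9) 
(.lf (nat_lit 481657) (.g (nat_lit 2371) (.e (nat_lit 5587) (nat_lit 310) (.e (nat_lit 163867) (nat_lit 2) (.e (nat_lit 196670) (nat_lit 14) (.e (nat_lit 73746) (nat_lit 3) (.e (nat_lit 516131) (nat_lit 3) .nil))))) (.g (nat_lit 0) (.e (nat_lit 115150) (nat_lit 0) .nil) .nil))) 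
(.lf (nat_lit 482169) (.g (nat_lit 1137) (.e (nat_lit 7290) (nat_lit 386) (.e (nat_lit 163907) (nat_lit 12) (.e (nat_lit 426479) (nat_lit 27) .nil))) (.g (nat_lit 0) (.e (nat_lit 118768) (nat_lit 0) .nil) .nil))))) (.nd (nat_lit 8) (.nd (nat_lit 9) 
(.lf (nat_lit 481529) (.g (nat_lit 3124) (.e (nat_lit 5547) (nat_lit 306) (.e (nat_lit 2610) (nat_lit 163) (.e (nat_lit 163979) (nat_lit 30) (.e (nat_lit 573482) (nat_lit 13) (.e (nat_lit 65619) (nat_lit 10) (.e (nat_lit 344117) (nat_lit 21) (.e (nat_lit 516151) (nat_lit 9) (.e (nat_lit 426043) (nat_lit 0) (.e (nat_lit 2458) (nat_lit 157) .nil))))))))) (.g (nat_lit 1) (.e (nat_lit 114216) (nat_lit 0) .nil) .nil))) 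
(.lf (nat_lit 482041) (.g (nat_lit 1387) (.e (nat_lit 7936) (nat_lit 377) (.e (nat_lit 2797) (nat_lit 180) (.e (nat_lit 303119) (nat_lit 3) (.e (nat_lit 204868) (nat_lit 29) .nil)))) (.g (nat_lit 0) (.e (nat_lit 118223) (nat_lit 0) .nil) .nil)))) (.nd (nat_lit 9) 
(.lf (nat_lit 481785) (.g (nat_lit 2307) (.e (nat_lit 5604) (nat_lit 310) (.e (nat_lit 163869) (nat_lit 2) (.e (nat_lit 196670) (nat_lit 14) (.e (nat_lit 73746) (nat_lit 3) (.e (nat_lit 516131) (nat_lit 3) .nil))))) (.g (nat_lit 0) (.e (nat_lit 117544) (nat_lit 0) .nil) .nil))) 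
(.lf (nat_lit 482297) (.g (nat_lit 1771) (.e (nat_lit 7265) (nat_lit 384) (.e (nat_lit 57406) (nat_lit 12) (.e (nat_lit 336115) (nat_lit 9) (.e (nat_lit 336380) (nat_lit 27) (.e (nat_lit 426343) (nat_lit 14) .nil))))) (.g (nat_lit 0) (.e (nat_lit 118954) (nat_lit 0) .nil) .nil)))))))))) 
(.nd (nat_lit 3) (.nd (nat_lit 4) (.nd (nat_lit 5) (.nd (nat_lit 6) (.nd (nat_lit 7) 
(.nd (nat_lit 8) (.nd (nat_lit 9) 
(.lf (nat_lit 481285) (.g (nat_lit 2325) (.e (nat_lit 5393) (nat_lit 301) (.e (nat_lit 57464) (nat_lit 23) (.e (nat_lit 516151) (nat_lit 9) (.e (nat_lit 426215) (nat_lit 9) .nil)))) (.g (nat_lit 0) (.e (nat_lit 112908) (nat_lit 0) .nil) .nil))) 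
(.lf (nat_lit 481797) (.g (nat_lit 1470) (.e (nat_lit 5568) (nat_lit 308) (.e (nat_lit 57378) (nat_lit 3) (.e (nat_lit 98387) (nat_lit 33) (.e (nat_lit 491569) (nat_lit 13) .nil)))) (.g (nat_lit 0) (.e (nat_lit 117703) (nat_lit 0) .nil) .nil)))) (.nd (nat_lit 9) 
(.lf (nat_lit 481541) (.g (nat_lit 3247) (.e (nat_lit 5547) (nat_lit 306) (.e (nat_lit 2619) (nat_lit 164) (.e (nat_lit 172120) (nat_lit 12) (.e (nat_lit 475211) (nat_lit 41) (.e (nat_lit 712755) (nat_lit 30) (.e (nat_lit 458496) (nat_lit 0) .nil)))))) (.g (nat_lit 1) (.e (nat_lit 114281) (nat_lit 0) .nil) .nil))) 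
(.lf (nat_lit 482053) (.g (nat_lit 1819) (.e (nat_lit 7096) (nat_lit 380) (.e (nat_lit 171776) (nat_lit 86) (.e (nat_lit 532515) (nat_lit 3) (.e (nat_lit 114716) (nat_lit 22) (.e (nat_lit 90185) (nat_lit 17) (.e (nat_lit 237592) (nat_lit 3) (.e (nat_lit 204805) (nat_lit 0) .nil))))))) (.g (nat_lit 1) (.e (nat_lit 118254) (nat_lit 0) .nil) .nil))))) (.nd (nat_lit 8) (.nd (nat_lit 9) 
(.lf (nat_lit 481413) (.g (nat_lit 4310) (.e (nat_lit 5546) (nat_lit 306) (.e (nat_lit 2600) (nat_lit 163) (.e (nat_lit 163977) (nat_lit 30) (.e (nat_lit 573482) (nat_lit 13) (.e (nat_lit 65604) (nat_lit 9) (.e (nat_lit 336028) (nat_lit 3) (.e (nat_lit 98366) (nat_lit 27) (.e (nat_lit 434209) (nat_lit 18) .nil)))))))) (.g (nat_lit 1) (.e (nat_lit 113750) (nat_lit 0) .nil) .nil))) 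
(.lf (nat_lit 481925) (.g (nat_lit 1783) (.e (nat_lit 6998) (nat_lit 377) (.e (nat_lit 2797) (nat_lit 180) (.e (nat_lit 303119) (nat_lit 3) (.e (nat_lit 204861) (nat_lit 26) .nil)))) (.g (nat_lit 0) (.e (nat_lit 117994) (nat_lit 0) .nil) .nil)))) (.nd (nat_lit 9) 
(.lf (nat_lit 481669) (.g (nat_lit 2308) (.e (nat_lit 5587) (nat_lit 310) (.e (nat_lit 163875) (nat_lit 3) (.e (nat_lit 204863) (nat_lit 27) (.e (nat_lit 344132) (nat_lit 26) (.e (nat_lit 557105) (nat_lit 14) .nil))))) (.g (nat_lit 0) (.e (nat_lit 115305) (nat_lit 0) .nil) .nil))) 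
(.lf (nat_lit 482181) (.g (nat_lit 2553) (.e (nat_lit 7261) (nat_lit 384) (.e (nat_lit 57406) (nat_lit 12) (.e (nat_lit 336019) (nat_lit 3) (.e (nat_lit 98372) (nat_lit 29) (.e (nat_lit 450586) (nat_lit 10) (.e (nat_lit 573475) (nat_lit 12) (.e (nat_lit 57351) (nat_lit 0) .nil))))))) (.g (nat_lit 1) (.e (nat_lit 118822) (nat_lit 0) .nil) .nil)))))) 
(.nd (nat_lit 7) (.nd (nat_lit 8) (.nd (nat_lit 9) 
(.lf (nat_lit 481349) (.g (nat_lit 2416) (.e (nat_lit 5455) (nat_lit 306) (.e (nat_lit 1183) (nat_lit 87) (.e (nat_lit 57575) (nat_lit 55) (.e (nat_lit 778466) (nat_lit 11) (.e (nat_lit 24617) (nat_lit 7) .nil))))) (.g (nat_lit 0) (.e (nat_lit 113127) (nat_lit 0) .nil) .nil))) 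
(.lf (nat_lit 481861) (.g (nat_lit 3351) (.e (nat_lit 6966) (nat_lit 377) (.e (nat_lit 2777) (nat_lit 178) (.e (nat_lit 286733) (nat_lit 2) (.e (nat_lit 90160) (nat_lit 11) (.e (nat_lit 24584) (nat_lit 0) .nil))))) (.g (nat_lit 0) (.e (nat_lit 117856) (nat_lit 0) .nil) .nil)))) (.nd (nat_lit 9) 
(.lf (nat_lit 481605) (.g (nat_lit 3807) (.e (nat_lit 5548) (nat_lit 306) (.e (nat_lit 2610) (nat_lit 163) (.e (nat_lit 163978) (nat_lit 30) (.e (nat_lit 573485) (nat_lit 13) (.e (nat_lit 65604) (nat_lit 9) (.e (nat_lit 336013) (nat_lit 2) (.e (nat_lit 90170) (nat_lit 13) (.e (nat_lit 172049) (nat_lit 0) (.e (nat_lit 2458) (nat_lit 157) .nil))))))))) (.g (nat_lit 1) (.e (nat_lit 114542) (nat_lit 0) .nil) .nil))) 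
(.lf (nat_lit 482117) (.g (nat_lit 2979) (.e (nat_lit 7280) (nat_lit 386) (.e (nat_lit 163875) (nat_lit 3) (.e (nat_lit 204829) (nat_lit 18) (.e (nat_lit 57847) (nat_lit 252) (.e (nat_lit 57410) (nat_lit 12) (.e (nat_lit 336019) (nat_lit 3) (.e (nat_lit 98384) (nat_lit 32) (.e (nat_lit 475163) (nat_lit 21) .nil)))))))) (.g (nat_lit 1) (.e (nat_lit 118609) (nat_lit 0) .nil) .nil))))) 
(.nd (nat_lit 8) (.nd (nat_lit 9) 
(.lf (nat_lit 481477) (.g (nat_lit 2227) (.e (nat_lit 5546) (nat_lit 306) (.e (nat_lit 2638) (nat_lit 165) (.e (nat_lit 180278) (nat_lit 32) (.e (nat_lit 1428) (nat_lit 108) (.e (nat_lit 336432) (nat_lit 30) (.e (nat_lit 458496) (nat_lit 0) .nil)))))) (.g (nat_lit 1) (.e (nat_lit 113996) (nat_lit 0) .nil) .nil))) 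
(.lf (nat_lit 481989) (.g (nat_lit 3644) (.e (nat_lit 7071) (nat_lit 377) (.e (nat_lit 2797) (nat_lit 180) (.e (nat_lit 303119) (nat_lit 3) (.e (nat_lit 204861) (nat_lit 26) (.e (nat_lit 336186) (nat_lit 11) .nil))))) (.g (nat_lit 0) (.e (nat_lit 118141) (nat_lit 0) .nil) .nil)))) (.nd (nat_lit 9) 
(.lf (nat_lit 481733) (.g (nat_lit 838) (.e (nat_lit 5597) (nat_lit 310) (.e (nat_lit 163902) (nat_lit 12) (.e (nat_lit 426556) (nat_lit 32) .nil))) (.g (nat_lit 0) (.e (nat_lit 116524) (nat_lit 0) .nil) .nil))) 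
(.lf (nat_lit 482245) (.g (nat_lit 3849) (.e (nat_lit 7263) (nat_lit 384) (.e (nat_lit 57412) (nat_lit 12) (.e (nat_lit 336001) (nat_lit 2) (.e (nat_lit 90170) (nat_lit 13) (.e (nat_lit 172113) (nat_lit 10) (.e (nat_lit 434248) (nat_lit 28) (.e (nat_lit 573473) (nat_lit 12) (.e (nat_lit 57348) (nat_lit 0) .nil)))))))) (.g (nat_lit 1) (.e (nat_lit 118894) (nat_lit 0) .nil) .nil))))))) 
(.nd (nat_lit 6) (.nd (nat_lit 7) (.nd (nat_lit 8) (.nd (nat_lit 9) 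
(.lf (nat_lit 481317) (.g (nat_lit 1754) (.e (nat_lit 7936) (nat_lit 301) (.e (nat_lit 57464) (nat_lit 23) (.e (nat_lit 516151) (nat_lit 9) (.e (nat_lit 426185) (nat_lit 9) .nil)))) (.g (nat_lit 0) (.e (nat_lit 112971) (nat_lit 0) .nil) .nil))) 
(.lf (nat_lit 481829) (.g (nat_lit 3724) (.e (nat_lit 6943) (nat_lit 375) (.e (nat_lit 163936) (nat_lit 18) (.e (nat_lit 475185) (nat_lit 29) (.e (nat_lit 557100) (nat_lit 13) (.e (nat_lit 172113) (nat_lit 10) (.e (nat_lit 434245) (nat_lit 28) (.e (nat_lit 573474) (nat_lit 12) (.e (nat_lit 57348) (nat_lit 0) .nil)))))))) (.g (nat_lit 1) (.e (nat_lit 117800) (nat_lit 0) .nil) .nil)))) 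
(.nd (nat_lit 9) 
(.lf (nat_lit 481573) (.g (nat_lit 2036) (.e (nat_lit 5547) (nat_lit 306) (.e (nat_lit 2638) (nat_lit 165) (.e (nat_lit 180278) (nat_lit 32) (.e (nat_lit 1428) (nat_lit 108) (.e (nat_lit 336434) (nat_lit 30) (.e (nat_lit 458496) (nat_lit 0) .nil)))))) (.g (nat_lit 1) (.e (nat_lit 114393) (nat_lit 0) .nil) .nil))) 
(.lf (nat_lit 482085) (.g (nat_lit 671) (.e (nat_lit 7105) (nat_lit 380) (.e (nat_lit 164356) (nat_lit 246) (.e (nat_lit 112) (nat_lit 3) (.e (nat_lit 98354) (nat_lit 26) .nil)))) (.g (nat_lit 0) (.e (nat_lit 118345) (nat_lit 0) .nil) .nil))))) (.nd (nat_lit 8) (.nd (nat_lit 9) 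
(.lf (nat_lit 481445) (.g (nat_lit 2601) (.e (nat_lit 5546) (nat_lit 306) (.e (nat_lit 2618) (nat_lit 164) (.e (nat_lit 172118) (nat_lit 12) (.e (nat_lit 475211) (nat_lit 41) (.e (nat_lit 712755) (nat_lit 30) (.e (nat_lit 458496) (nat_lit 0) .nil)))))) (.g (nat_lit 1) (.e (nat_lit 113839) (nat_lit 0) .nil) .nil))) 
(.lf (nat_lit 481957) (.g (nat_lit 3463) (.e (nat_lit 7014) (nat_lit 377) (.e (nat_lit 2797) (nat_lit 180) (.e (nat_lit 303119) (nat_lit 3) (.e (nat_lit 204855) (nat_lit 26) (.e (nat_lit 336178) (nat_lit 10) .nil))))) (.g (nat_lit 0) (.e (nat_lit 118088) (nat_lit 0) .nil) .nil)))) (.nd (nat_lit 9) 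
(.lf (nat_lit 481701) (.g (nat_lit 1809) (.e (nat_lit 5589) (nat_lit 310) (.e (nat_lit 163875) (nat_lit 3) (.e (nat_lit 204863) (nat_lit 27) (.e (nat_lit 344131) (nat_lit 26) .nil)))) (.g (nat_lit 0) (.e (nat_lit 115785) (nat_lit 0) .nil) .nil))) 
(.lf (nat_lit 482213) (.g (nat_lit 4036) (.e (nat_lit 7261) (nat_lit 384) (.e (nat_lit 57412) (nat_lit 12) (.e (nat_lit 336001) (nat_lit 2) (.e (nat_lit 90170) (nat_lit 13) (.e (nat_lit 172113) (nat_lit 10) (.e (nat_lit 434248) (nat_lit 28) (.e (nat_lit 573473) (nat_lit 12) (.e (nat_lit 57348) (nat_lit 0) .nil)))))))) (.g (nat_lit 1) (.e (nat_lit 118859) (nat_lit 0) .nil) .nil)))))) 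
(.nd (nat_lit 7) (.nd (nat_lit 8) (.nd (nat_lit 9) 
(.lf (nat_lit 481381) (.g (nat_lit 2145) (.e (nat_lit 5543) (nat_lit 306) (.e (nat_lit 2618) (nat_lit 164) (.e (nat_lit 172124) (nat_lit 14) (.e (nat_lit 491549) (nat_lit 9) (.e (nat_lit 336434) (nat_lit 30) (.e (nat_lit 458496) (nat_lit 0) .nil)))))) (.g (nat_lit 1) (.e (nat_lit 113533) (nat_lit 0) .nil) .nil))) 
(.lf (nat_lit 481893) (.g (nat_lit 3472) (.e (nat_lit 6989) (nat_lit 377) (.e (nat_lit 2777) (nat_lit 178) (.e (nat_lit 286733) (nat_lit 2) (.e (nat_lit 90133) (nat_lit 9) (.e (nat_lit 2397) (nat_lit 157) (.e (nat_lit 7590) (nat_lit 407) (.e (nat_lit 73747) (nat_lit 3) (.e (nat_lit 516102) (nat_lit 0) .nil)))))))) (.g (nat_lit 1) (.e (nat_lit 117933) (nat_lit 0) .nil) .nil)))) (.nd (nat_lit 9) 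
(.lf (nat_lit 481637) (.g (nat_lit 721) (.e (nat_lit 5531) (nat_lit 306) (.e (nat_lit 2626) (nat_lit 164) (.e (nat_lit 172119) (nat_lit 12) (.e (nat_lit 475207) (nat_lit 41) .nil)))) (.g (nat_lit 0) (.e (nat_lit 114754) (nat_lit 0) .nil) .nil))) 
(.lf (nat_lit 482149) (.g (nat_lit 2791) (.e (nat_lit 7287) (nat_lit 386) (.e (nat_lit 163875) (nat_lit 3) (.e (nat_lit 204830) (nat_lit 18) (.e (nat_lit 57852) (nat_lit 252) (.e (nat_lit 57409) (nat_lit 12) .nil))))) (.g (nat_lit 0) (.e (nat_lit 118715) (nat_lit 0) .nil) .nil))))) (.nd (nat_lit 8) (.nd (nat_lit 9) 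
(.lf (nat_lit 481509) (.g (nat_lit 2764) (.e (nat_lit 5547) (nat_lit 306) (.e (nat_lit 2610) (nat_lit 163) (.e (nat_lit 163978) (nat_lit 30) (.e (nat_lit 573479) (nat_lit 13) (.e (nat_lit 65604) (nat_lit 9) .nil))))) (.g (nat_lit 0) (.e (nat_lit 114192) (nat_lit 0) .nil) .nil))) 
(.lf (nat_lit 482021) (.g (nat_lit 1449) (.e (nat_lit 7065) (nat_lit 377) (.e (nat_lit 1348) (nat_lit 102) (.e (nat_lit 286733) (nat_lit 2) (.e (nat_lit 90128) (nat_lit 9) .nil)))) (.g (nat_lit 0) (.e (nat_lit 118195) (nat_lit 0) .nil) .nil)))) (.nd (nat_lit 9) 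
(.lf (nat_lit 481765) (.g (nat_lit 1541) (.e (nat_lit 5599) (nat_lit 310) (.e (nat_lit 163932) (nat_lit 17) (.e (nat_lit 466972) (nat_lit 21) (.e (nat_lit 164402) (nat_lit 256) .nil)))) (.g (nat_lit 0) (.e (nat_lit 117186) (nat_lit 0) .nil) .nil))) 
(.lf (nat_lit 482277) (.g (nat_lit 4054) (.e (nat_lit 7265) (nat_lit 384) (.e (nat_lit 57406) (nat_lit 12) (.e (nat_lit 336019) (nat_lit 3) (.e (nat_lit 98372) (nat_lit 29) (.e (nat_lit 450586) (nat_lit 10) (.e (nat_lit 573475) (nat_lit 12) (.e (nat_lit 57351) (nat_lit 0) .nil))))))) (.g (nat_lit 1) (.e (nat_lit 118934) (nat_lit 0) .nil) .nil)))))))) 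
(.nd (nat_lit 5) (.nd (nat_lit 6) (.nd (nat_lit 7) (.nd (nat_lit 8) (.nd (nat_lit 9) 
(.lf (nat_lit 481301) (.g (nat_lit 3300) (.e (nat_lit 5394) (nat_lit 301) (.e (nat_lit 57464) (nat_lit 23) (.e (nat_lit 516166) (nat_lit 12) (.e (nat_lit 450588) (nat_lit 10) (.e (nat_lit 573457) (nat_lit 9) (.e (nat_lit 359) (nat_lit 30) (.e (nat_lit 409604) (nat_lit 0) .nil))))))) (.g (nat_lit 1) (.e (nat_lit 112940) (nat_lit 0) .nil) .nil))) 
(.lf (nat_lit 481813) (.g (nat_lit 3460) (.e (nat_lit 6940) (nat_lit 375) (.e (nat_lit 163936) (nat_lit 18) (.e (nat_lit 475185) (nat_lit 29) (.e (nat_lit 557100) (nat_lit 13) (.e (nat_lit 172113) (nat_lit 10) (.e (nat_lit 434245) (nat_lit 28) (.e (nat_lit 573474) (nat_lit 12) (.e (nat_lit 57348) (nat_lit 0) .nil)))))))) (.g (nat_lit 1) (.e (nat_lit 117774) (nat_lit 0) .nil) .nil)))) 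
(.nd (nat_lit 9) 
(.lf (nat_lit 481557) (.g (nat_lit 1899) (.e (nat_lit 5547) (nat_lit 306) (.e (nat_lit 2629) (nat_lit 164) (.e (nat_lit 172120) (nat_lit 12) (.e (nat_lit 475210) (nat_lit 41) (.e (nat_lit 712753) (nat_lit 30) .nil))))) (.g (nat_lit 0) (.e (nat_lit 114357) (nat_lit 0) .nil) .nil))) 
(.lf (nat_lit 482069) (.g (nat_lit 1532) (.e (nat_lit 7098) (nat_lit 380) (.e (nat_lit 164294) (nat_lit 224) (.e (nat_lit 164092) (nat_lit 82) (.e (nat_lit 500046) (nat_lit 16) (.e (nat_lit 16466) (nat_lit 13) (.e (nat_lit 491264) (nat_lit 0) .nil)))))) (.g (nat_lit 1) (.e (nat_lit 118293) (nat_lit 0) .nil) .nil))))) (.nd (nat_lit 8) (.nd (nat_lit 9) 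
(.lf (nat_lit 481429) (.g (nat_lit 2750) (.e (nat_lit 5546) (nat_lit 306) (.e (nat_lit 2610) (nat_lit 163) (.e (nat_lit 163978) (nat_lit 30) (.e (nat_lit 573484) (nat_lit 13) (.e (nat_lit 65610) (nat_lit 10) (.e (nat_lit 344117) (nat_lit 21) (.e (nat_lit 516145) (nat_lit 9) (.e (nat_lit 426093) (nat_lit 0) (.e (nat_lit 2458) (nat_lit 157) .nil))))))))) (.g (nat_lit 1) (.e (nat_lit 113782) (nat_lit 0) .nil) .nil))) 
(.lf (nat_lit 481941) (.g (nat_lit 1468) (.e (nat_lit 7008) (nat_lit 377) (.e (nat_lit 2817) (nat_lit 181) (.e (nat_lit 311311) (nat_lit 2) (.e (nat_lit 196672) (nat_lit 15) (.e (nat_lit 81954) (nat_lit 23) .nil))))) (.g (nat_lit 0) (.e (nat_lit 118066) (nat_lit 0) .nil) .nil)))) (.nd (nat_lit 9) 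
(.lf (nat_lit 481685) (.g (nat_lit 3036) (.e (nat_lit 5587) (nat_lit 310) (.e (nat_lit 163907) (nat_lit 12) (.e (nat_lit 426320) (nat_lit 12) (.e (nat_lit 475209) (nat_lit 41) (.e (nat_lit 712755) (nat_lit 30) (.e (nat_lit 458496) (nat_lit 0) .nil)))))) (.g (nat_lit 1) (.e (nat_lit 115383) (nat_lit 0) .nil) .nil))) 
(.lf (nat_lit 482197) (.g (nat_lit 2588) (.e (nat_lit 7261) (nat_lit 384) (.e (nat_lit 57407) (nat_lit 12) (.e (nat_lit 336019) (nat_lit 3) (.e (nat_lit 98372) (nat_lit 29) (.e (nat_lit 450586) (nat_lit 10) (.e (nat_lit 573478) (nat_lit 12) (.e (nat_lit 57352) (nat_lit 0) .nil))))))) (.g (nat_lit 1) (.e (nat_lit 118843) (nat_lit 0) .nil) .nil)))))) 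
(.nd (nat_lit 7) (.nd (nat_lit 8) (.nd (nat_lit 9) 
(.lf (nat_lit 481365) (.g (nat_lit 3564) (.e (nat_lit 5448) (nat_lit 306) (.e (nat_lit 2630) (nat_lit 164) (.e (nat_lit 172120) (nat_lit 12) (.e (nat_lit 475211) (nat_lit 41) (.e (nat_lit 712755) (nat_lit 30) (.e (nat_lit 450569) (nat_lit 0) .nil)))))) (.g (nat_lit 1) (.e (nat_lit 113340) (nat_lit 0) .nil) .nil))) 
(.lf (nat_lit 481877) (.g (nat_lit 842) (.e (nat_lit 6989) (nat_lit 377) (.e (nat_lit 2810) (nat_lit 180) (.e (nat_lit 303117) (nat_lit 2) (.e (nat_lit 196668) (nat_lit 14) .nil)))) (.g (nat_lit 0) (.e (nat_lit 117890) (nat_lit 0) .nil) .nil)))) (.nd (nat_lit 9) 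
(.lf (nat_lit 481621) (.g (nat_lit 4699) (.e (nat_lit 5548) (nat_lit 306) (.e (nat_lit 2610) (nat_lit 163) (.e (nat_lit 163979) (nat_lit 30) (.e (nat_lit 573493) (nat_lit 15) (.e (nat_lit 81953) (nat_lit 22) (.e (nat_lit 90170) (nat_lit 13) (.e (nat_lit 172046) (nat_lit 0) (.e (nat_lit 2478) (nat_lit 157) .nil)))))))) (.g (nat_lit 1) (.e (nat_lit 114570) (nat_lit 0) .nil) .nil))) 
(.lf (nat_lit 482133) (.g (nat_lit 2453) (.e (nat_lit 7280) (nat_lit 386) (.e (nat_lit 163875) (nat_lit 3) (.e (nat_lit 204837) (nat_lit 20) (.e (nat_lit 114719) (nat_lit 23) (.e (nat_lit 98365) (nat_lit 26) (.e (nat_lit 426124) (nat_lit 2) (.e (nat_lit 196660) (nat_lit 12) (.e (nat_lit 57354) (nat_lit 0) .nil)))))))) (.g (nat_lit 1) (.e (nat_lit 118625) (nat_lit 0) .nil) .nil))))) 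
(.nd (nat_lit 8) (.nd (nat_lit 9) 
(.lf (nat_lit 481493) (.g (nat_lit 1843) (.e (nat_lit 5546) (nat_lit 306) (.e (nat_lit 2640) (nat_lit 165) (.e (nat_lit 180277) (nat_lit 32) (.e (nat_lit 1427) (nat_lit 108) (.e (nat_lit 336434) (nat_lit 30) (.e (nat_lit 458496) (nat_lit 0) .nil)))))) (.g (nat_lit 1) (.e (nat_lit 114019) (nat_lit 0) .nil) .nil))) 
(.lf (nat_lit 482005) (.g (nat_lit 4766) (.e (nat_lit 7064) (nat_lit 377) (.e (nat_lit 1348) (nat_lit 102) (.e (nat_lit 286733) (nat_lit 2) (.e (nat_lit 90167) (nat_lit 13) (.e (nat_lit 172126) (nat_lit 14) (.e (nat_lit 491537) (nat_lit 2) (.e (nat_lit 90133) (nat_lit 9) (.e (nat_lit 2400) (nat_lit 157) .nil)))))))) (.g (nat_lit 1) (.e (nat_lit 118176) (nat_lit 0) .nil) .nil)))) (.nd (nat_lit 9) 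
(.lf (nat_lit 481749) (.g (nat_lit 2754) (.e (nat_lit 5599) (nat_lit 310) (.e (nat_lit 163874) (nat_lit 3) (.e (nat_lit 204862) (nat_lit 27) (.e (nat_lit 344129) (nat_lit 26) (.e (nat_lit 557097) (nat_lit 13) (.e (nat_lit 179968) (nat_lit 18) (.e (nat_lit 98325) (nat_lit 17) (.e (nat_lit 2515) (nat_lit 157) .nil)))))))) (.g (nat_lit 1) (.e (nat_lit 116987) (nat_lit 0) .nil) .nil))) 
(.lf (nat_lit 482261) (.g (nat_lit 4380) (.e (nat_lit 7265) (nat_lit 384) (.e (nat_lit 57406) (nat_lit 12) (.e (nat_lit 336018) (nat_lit 3) (.e (nat_lit 98373) (nat_lit 29) (.e (nat_lit 450587) (nat_lit 10) (.e (nat_lit 573478) (nat_lit 12) (.e (nat_lit 57353) (nat_lit 0) .nil))))))) (.g (nat_lit 1) (.e (nat_lit 118918) (nat_lit 0) .nil) .nil))))))) 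
(.nd (nat_lit 6) (.nd (nat_lit 7) (.nd (nat_lit 8) (.nd (nat_lit 9) 
(.lf (nat_lit 481333) (.g (nat_lit 1040) (.e (nat_lit 5409) (nat_lit 303) (.e (nat_lit 73750) (nat_lit 6) (.e (nat_lit 540724) (nat_lit 28) (.e (nat_lit 442399) (nat_lit 20) (.e (nat_lit 3571) (nat_lit 222) (.e (nat_lit 737284) (nat_lit 0) .nil)))))) (.g (nat_lit 1) (.e (nat_lit 113033) (nat_lit 0) .nil) .nil))) 
(.lf (nat_lit 481845) (.g (nat_lit 3882) (.e (nat_lit 6949) (nat_lit 377) (.e (nat_lit 2809) (nat_lit 180) (.e (nat_lit 303117) (nat_lit 2) (.e (nat_lit 196666) (nat_lit 13) (.e (nat_lit 65619) (nat_lit 10) .nil))))) (.g (nat_lit 0) (.e (nat_lit 117821) (nat_lit 0) .nil) .nil)))) (.nd (nat_lit 9) 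
(.lf (nat_lit 481589) (.g (nat_lit 2237) (.e (nat_lit 5548) (nat_lit 306) (.e (nat_lit 2610) (nat_lit 163) (.e (nat_lit 163977) (nat_lit 30) (.e (nat_lit 573485) (nat_lit 13) (.e (nat_lit 65604) (nat_lit 9) (.e (nat_lit 336013) (nat_lit 2) (.e (nat_lit 90170) (nat_lit 13) (.e (nat_lit 172042) (nat_lit 0) (.e (nat_lit 2478) (nat_lit 157) .nil))))))))) (.g (nat_lit 1) (.e (nat_lit 114522) (nat_lit 0) .nil) .nil))) 
(.lf (nat_lit 482101) (.g (nat_lit 1945) (.e (nat_lit 7110) (nat_lit 380) (.e (nat_lit 164359) (nat_lit 246) (.e (nat_lit 2661) (nat_lit 167) (.e (nat_lit 196672) (nat_lit 15) (.e (nat_lit 81954) (nat_lit 23) .nil))))) (.g (nat_lit 0) (.e (nat_lit 118404) (nat_lit 0) .nil) .nil))))) (.nd (nat_lit 8) (.nd (nat_lit 9) 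
(.lf (nat_lit 481461) (.g (nat_lit 2906) (.e (nat_lit 5546) (nat_lit 306) (.e (nat_lit 2619) (nat_lit 164) (.e (nat_lit 172124) (nat_lit 14) (.e (nat_lit 491549) (nat_lit 9) (.e (nat_lit 336432) (nat_lit 30) (.e (nat_lit 458496) (nat_lit 0) .nil)))))) (.g (nat_lit 1) (.e (nat_lit 113897) (nat_lit 0) .nil) .nil))) 
(.lf (nat_lit 481973) (.g (nat_lit 2557) (.e (nat_lit 7016) (nat_lit 377) (.e (nat_lit 2798) (nat_lit 180) (.e (nat_lit 303117) (nat_lit 2) (.e (nat_lit 196672) (nat_lit 15) (.e (nat_lit 81954) (nat_lit 23) .nil))))) (.g (nat_lit 0) (.e (nat_lit 118113) (nat_lit 0) .nil) .nil)))) (.nd (nat_lit 9) 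
(.lf (nat_lit 481717) (.g (nat_lit 1780) (.e (nat_lit 5593) (nat_lit 310) (.e (nat_lit 163875) (nat_lit 3) (.e (nat_lit 204863) (nat_lit 27) (.e (nat_lit 344131) (nat_lit 26) .nil)))) (.g (nat_lit 0) (.e (nat_lit 116043) (nat_lit 0) .nil) .nil))) 
(.lf (nat_lit 482229) (.g (nat_lit 4906) (.e (nat_lit 7261) (nat_lit 384) (.e (nat_lit 57432) (nat_lit 16) (.e (nat_lit 368676) (nat_lit 21) (.e (nat_lit 516166) (nat_lit 12) (.e (nat_lit 450587) (nat_lit 10) (.e (nat_lit 573478) (nat_lit 12) (.e (nat_lit 57353) (nat_lit 0) .nil))))))) (.g (nat_lit 1) (.e (nat_lit 118877) (nat_lit 0) .nil) .nil)))))) 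
(.nd (nat_lit 7) (.nd (nat_lit 8) (.nd (nat_lit 9) 
(.lf (nat_lit 481397) (.g (nat_lit 2319) (.e (nat_lit 5543) (nat_lit 306) (.e (nat_lit 2629) (nat_lit 164) (.e (nat_lit 172124) (nat_lit 14) (.e (nat_lit 491550) (nat_lit 9) (.e (nat_lit 336434) (nat_lit 30) (.e (nat_lit 458496) (nat_lit 0) .nil)))))) (.g (nat_lit 1) (.e (nat_lit 113603) (nat_lit 0) .nil) .nil))) 
(.lf (nat_lit 481909) (.g (nat_lit 2165) (.e (nat_lit 6986) (nat_lit 377) (.e (nat_lit 2810) (nat_lit 180) (.e (nat_lit 303119) (nat_lit 3) (.e (nat_lit 204855) (nat_lit 26) (.e (nat_lit 336099) (nat_lit 9) .nil))))) (.g (nat_lit 0) (.e (nat_lit 117960) (nat_lit 0) .nil) .nil)))) (.nd (nat_lit 9) 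
(.lf (nat_lit 481653) (.g (nat_lit 1459) (.e (nat_lit 5586) (nat_lit 310) (.e (nat_lit 163907) (nat_lit 12) (.e (nat_lit 426320) (nat_lit 12) (.e (nat_lit 475209) (nat_lit 41) .nil)))) (.g (nat_lit 0) (.e (nat_lit 115111) (nat_lit 0) .nil) .nil))) 
(.lf (nat_lit 482165) (.g (nat_lit 2418) (.e (nat_lit 7290) (nat_lit 386) (.e (nat_lit 163864) (nat_lit 1) (.e (nat_lit 164332) (nat_lit 230) (.e (nat_lit 163905) (nat_lit 12) (.e (nat_lit 426472) (nat_lit 25) (.e (nat_lit 319533) (nat_lit 16) (.e (nat_lit 286753) (nat_lit 10) (.e (nat_lit 344099) (nat_lit 18) .nil)))))))) (.g (nat_lit 1) (.e (nat_lit 118754) (nat_lit 0) .nil) .nil))))) 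
(.nd (nat_lit 8) (.nd (nat_lit 9) 
(.lf (nat_lit 481525) (.g (nat_lit 2337) (.e (nat_lit 5547) (nat_lit 306) (.e (nat_lit 2610) (nat_lit 163) (.e (nat_lit 163979) (nat_lit 30) (.e (nat_lit 573482) (nat_lit 13) (.e (nat_lit 65604) (nat_lit 9) (.e (nat_lit 336028) (nat_lit 3) (.e (nat_lit 98359) (nat_lit 26) (.e (nat_lit 426018) (nat_lit 0) (.e (nat_lit 2536) (nat_lit 157) .nil))))))))) (.g (nat_lit 1) (.e (nat_lit 114212) (nat_lit 0) .nil) .nil))) 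
(.lf (nat_lit 482037) (.g (nat_lit 2807) (.e (nat_lit 7936) (nat_lit 377) (.e (nat_lit 2797) (nat_lit 180) (.e (nat_lit 303119) (nat_lit 3) (.e (nat_lit 204861) (nat_lit 26) (.e (nat_lit 336185) (nat_lit 11) .nil))))) (.g (nat_lit 0) (.e (nat_lit 118217) (nat_lit 0) .nil) .nil)))) (.nd (nat_lit 9) 
(.lf (nat_lit 481781) (.g (nat_lit 1529) (.e (nat_lit 5603) (nat_lit 310) (.e (nat_lit 163905) (nat_lit 12) (.e (nat_lit 426320) (nat_lit 12) (.e (nat_lit 475210) (nat_lit 41) .nil)))) (.g (nat_lit 0) (.e (nat_lit 117456) (nat_lit 0) .nil) .nil))) 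
(.lf (nat_lit 482293) (.g (nat_lit 1770) (.e (nat_lit 7265) (nat_lit 384) (.e (nat_lit 57406) (nat_lit 12) (.e (nat_lit 336019) (nat_lit 3) (.e (nat_lit 98374) (nat_lit 29) .nil)))) (.g (nat_lit 0) (.e (nat_lit 118950) (nat_lit 0) .nil) .nil))))))))) (.nd (nat_lit 4) (.nd (nat_lit 5) (.nd (nat_lit 6) (.nd (nat_lit 7) (.nd (nat_lit 8) (.nd (nat_lit 9) 
(.lf (nat_lit 481293) (.g (nat_lit 2564) (.e (nat_lit 5394) (nat_lit 301) (.e (nat_lit 57464) (nat_lit 23) (.e (nat_lit 516166) (nat_lit 12) (.e (nat_lit 450587) (nat_lit 10) (.e (nat_lit 573457) (nat_lit 9) (.e (nat_lit 359) (nat_lit 30) (.e (nat_lit 409605) (nat_lit 0) .nil))))))) (.g (nat_lit 1) (.e (nat_lit 112932) (nat_lit 0) .nil) .nil))) 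
(.lf (nat_lit 481805) (.g (nat_lit 1428) (.e (nat_lit 6902) (nat_lit 371) (.e (nat_lit 2445) (nat_lit 157) (.e (nat_lit 3098) (nat_lit 192) (.e (nat_lit 491569) (nat_lit 13) (.e (nat_lit 393301) (nat_lit 27) .nil))))) (.g (nat_lit 0) (.e (nat_lit 117752) (nat_lit 0) .nil) .nil)))) (.nd (nat_lit 9) 
(.lf (nat_lit 481549) (.g (nat_lit 2588) (.e (nat_lit 5547) (nat_lit 306) (.e (nat_lit 2628) (nat_lit 164) (.e (nat_lit 172120) (nat_lit 12) (.e (nat_lit 475210) (nat_lit 41) (.e (nat_lit 712753) (nat_lit 30) (.e (nat_lit 458496) (nat_lit 0) .nil)))))) (.g (nat_lit 1) (.e (nat_lit 114321) (nat_lit 0) .nil) .nil))) 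
(.lf (nat_lit 482061) (.g (nat_lit 2440) (.e (nat_lit 7096) (nat_lit 380) (.e (nat_lit 164359) (nat_lit 246) (.e (nat_lit 2679) (nat_lit 168) (.e (nat_lit 204868) (nat_lit 29) (.e (nat_lit 360466) (nat_lit 3) (.e (nat_lit 524032) (nat_lit 0) .nil)))))) (.g (nat_lit 1) (.e (nat_lit 118267) (nat_lit 0) .nil) .nil))))) (.nd (nat_lit 8) (.nd (nat_lit 9) 
(.lf (nat_lit 481421) (.g (nat_lit 2551) (.e (nat_lit 5546) (nat_lit 306) (.e (nat_lit 2610) (nat_lit 163) (.e (nat_lit 163977) (nat_lit 30) (.e (nat_lit 573482) (nat_lit 13) (.e (nat_lit 65604) (nat_lit 9) (.e (nat_lit 336013) (nat_lit 2) (.e (nat_lit 90170) (nat_lit 13) (.e (nat_lit 172042) (nat_lit 0) (.e (nat_lit 2458) (nat_lit 157) .nil))))))))) (.g (nat_lit 1) (.e (nat_lit 113773) (nat_lit 0) .nil) .nil))) 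
(.lf (nat_lit 481933) (.g (nat_lit 2647) (.e (nat_lit 7011) (nat_lit 377) (.e (nat_lit 2797) (nat_lit 180) (.e (nat_lit 303117) (nat_lit 2) (.e (nat_lit 196674) (nat_lit 15) (.e (nat_lit 81954) (nat_lit 23) .nil))))) (.g (nat_lit 0) (.e (nat_lit 118048) (nat_lit 0) .nil) .nil)))) (.nd (nat_lit 9) 
(.lf (nat_lit 481677) (.g (nat_lit 2262) (.e (nat_lit 5587) (nat_lit 310) (.e (nat_lit 163906) (nat_lit 12) (.e (nat_lit 426320) (nat_lit 12) (.e (nat_lit 475210) (nat_lit 41) (.e (nat_lit 712753) (nat_lit 30) (.e (nat_lit 458496) (nat_lit 0) .nil)))))) (.g (nat_lit 1) (.e (nat_lit 115363) (nat_lit 0) .nil) .nil))) 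
(.lf (nat_lit 482189) (.g (nat_lit 3197) (.e (nat_lit 7261) (nat_lit 384) (.e (nat_lit 57407) (nat_lit 12) (.e (nat_lit 336019) (nat_lit 3) (.e (nat_lit 98372) (nat_lit 29) (.e (nat_lit 450586) (nat_lit 10) (.e (nat_lit 573473) (nat_lit 12) (.e (nat_lit 57352) (nat_lit 0) .nil))))))) (.g (nat_lit 1) (.e (nat_lit 118835) (nat_lit 0) .nil) .nil)))))) 
(.nd (nat_lit 7) (.nd (nat_lit 8) (.nd (nat_lit 9) 
(.lf (nat_lit 481357) (.g (nat_lit 2472) (.e (nat_lit 5448) (nat_lit 306) (.e (nat_lit 2612) (nat_lit 163) (.e (nat_lit 163978) (nat_lit 30) (.e (nat_lit 573479) (nat_lit 13) (.e (nat_lit 65619) (nat_lit 10) (.e (nat_lit 344117) (nat_lit 21) (.e (nat_lit 516159) (nat_lit 10) (.e (nat_lit 434215) (nat_lit 18) .nil)))))))) (.g (nat_lit 1) (.e (nat_lit 113299) (nat_lit 0) .nil) .nil))) 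
(.lf (nat_lit 481869) (.g (nat_lit 1224) (.e (nat_lit 6982) (nat_lit 377) (.e (nat_lit 2818) (nat_lit 181) (.e (nat_lit 311312) (nat_lit 2) (.e (nat_lit 196672) (nat_lit 15) (.e (nat_lit 81954) (nat_lit 23) .nil))))) (.g (nat_lit 0) (.e (nat_lit 117865) (nat_lit 0) .nil) .nil)))) (.nd (nat_lit 9) 
(.lf (nat_lit 481613) (.g (nat_lit 2503) (.e (nat_lit 5548) (nat_lit 306) (.e (nat_lit 2610) (nat_lit 163) (.e (nat_lit 163979) (nat_lit 30) (.e (nat_lit 573482) (nat_lit 13) (.e (nat_lit 65604) (nat_lit 9) (.e (nat_lit 336028) (nat_lit 3) (.e (nat_lit 98359) (nat_lit 26) (.e (nat_lit 426042) (nat_lit 0) (.e (nat_lit 2458) (nat_lit 157) .nil))))))))) (.g (nat_lit 1) (.e (nat_lit 114555) (nat_lit 0) .nil) .nil))) 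
(.lf (nat_lit 482125) (.g (nat_lit 3174) (.e (nat_lit 7280) (nat_lit 386) (.e (nat_lit 163875) (nat_lit 3) (.e (nat_lit 204830) (nat_lit 18) (.e (nat_lit 57852) (nat_lit 252) (.e (nat_lit 57430) (nat_lit 16) .nil))))) (.g (nat_lit 0) (.e (nat_lit 118617) (nat_lit 0) .nil) .nil))))) (.nd (nat_lit 8) (.nd (nat_lit 9) 
(.lf (nat_lit 481485) (.g (nat_lit 1040) (.e (nat_lit 5546) (nat_lit 306) (.e (nat_lit 2639) (nat_lit 165) (.e (nat_lit 180277) (nat_lit 32) (.e (nat_lit 1426) (nat_lit 108) (.e (nat_lit 336434) (nat_lit 30) (.e (nat_lit 458496) (nat_lit 0) .nil)))))) (.g (nat_lit 1) (.e (nat_lit 114007) (nat_lit 0) .nil) .nil))) 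
(.lf (nat_lit 481997) (.g (nat_lit 3813) (.e (nat_lit 7073) (nat_lit 377) (.e (nat_lit 2798) (nat_lit 180) (.e (nat_lit 303117) (nat_lit 2) (.e (nat_lit 196666) (nat_lit 13) (.e (nat_lit 65617) (nat_lit 10) .nil))))) (.g (nat_lit 0) (.e (nat_lit 118159) (nat_lit 0) .nil) .nil)))) (.nd (nat_lit 9) 
(.lf (nat_lit 481741) (.g (nat_lit 1231) (.e (nat_lit 5598) (nat_lit 310) (.e (nat_lit 163913) (nat_lit 12) (.e (nat_lit 426318) (nat_lit 12) (.e (nat_lit 475211) (nat_lit 41) (.e (nat_lit 712753) (nat_lit 30) (.e (nat_lit 450568) (nat_lit 0) .nil)))))) (.g (nat_lit 1) (.e (nat_lit 116738) (nat_lit 0) .nil) .nil))) 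
(.lf (nat_lit 482253) (.g (nat_lit 1700) (.e (nat_lit 7265) (nat_lit 384) (.e (nat_lit 57406) (nat_lit 12) (.e (nat_lit 335969) (nat_lit 0) (.e (nat_lit 1788) (nat_lit 119) (.e (nat_lit 516165) (nat_lit 12) .nil))))) (.g (nat_lit 0) (.e (nat_lit 118909) (nat_lit 0) .nil) .nil))))))) (.nd (nat_lit 6) (.nd (nat_lit 7) (.nd (nat_lit 8) (.nd (nat_lit 9) 
(.lf (nat_lit 481325) (.g (nat_lit 1955) (.e (nat_lit 5399) (nat_lit 302) (.e (nat_lit 65653) (nat_lit 27) (.e (nat_lit 426344) (nat_lit 14) (.e (nat_lit 491556) (nat_lit 9) (.e (nat_lit 343808) (nat_lit 25) .nil))))) (.g (nat_lit 0) (.e (nat_lit 112981) (nat_lit 0) .nil) .nil))) 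
(.lf (nat_lit 481837) (.g (nat_lit 3395) (.e (nat_lit 6943) (nat_lit 375) (.e (nat_lit 163946) (nat_lit 20) (.e (nat_lit 491571) (nat_lit 13) (.e (nat_lit 393299) (nat_lit 27) (.e (nat_lit 491560) (nat_lit 10) (.e (nat_lit 344091) (nat_lit 18) .nil)))))) (.g (nat_lit 1) (.e (nat_lit 117811) (nat_lit 0) .nil) .nil)))) (.nd (nat_lit 9) 
(.lf (nat_lit 481581) (.g (nat_lit 1661) (.e (nat_lit 5547) (nat_lit 306) (.e (nat_lit 2649) (nat_lit 166) (.e (nat_lit 188427) (nat_lit 20) (.e (nat_lit 3402) (nat_lit 211) (.e (nat_lit 647183) (nat_lit 4) .nil))))) (.g (nat_lit 0) (.e (nat_lit 114424) (nat_lit 0) .nil) .nil))) 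
(.lf (nat_lit 482093) (.g (nat_lit 2123) (.e (nat_lit 7107) (nat_lit 380) (.e (nat_lit 164108) (nat_lit 116) (.e (nat_lit 778325) (nat_lit 6) (.e (nat_lit 81953) (nat_lit 22) (.e (nat_lit 98048) (nat_lit 2) (.e (nat_lit 16392) (nat_lit 0) .nil)))))) (.g (nat_lit 1) (.e (nat_lit 118384) (nat_lit 0) .nil) .nil))))) (.nd (nat_lit 8) (.nd (nat_lit 9) 
(.lf (nat_lit 481453) (.g (nat_lit 2591) (.e (nat_lit 5546) (nat_lit 306) (.e (nat_lit 2619) (nat_lit 164) (.e (nat_lit 172118) (nat_lit 12) (.e (nat_lit 475210) (nat_lit 41) (.e (nat_lit 712753) (nat_lit 30) (.e (nat_lit 458496) (nat_lit 0) .nil)))))) (.g (nat_lit 1) (.e (nat_lit 113885) (nat_lit 0) .nil) .nil))) 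
(.lf (nat_lit 481965) (.g (nat_lit 1985) (.e (nat_lit 7015) (nat_lit 377) (.e (nat_lit 2797) (nat_lit 180) (.e (nat_lit 303119) (nat_lit 3) (.e (nat_lit 204867) (nat_lit 28) .nil)))) (.g (nat_lit 0) (.e (nat_lit 118101) (nat_lit 0) .nil) .nil)))) (.nd (nat_lit 9) 
(.lf (nat_lit 481709) (.g (nat_lit 2333) (.e (nat_lit 5589) (nat_lit 310) (.e (nat_lit 163944) (nat_lit 19) (.e (nat_lit 483413) (nat_lit 27) (.e (nat_lit 401414) (nat_lit 0) (.e (nat_lit 3297) (nat_lit 202) .nil))))) (.g (nat_lit 0) (.e (nat_lit 115869) (nat_lit 0) .nil) .nil))) 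
(.lf (nat_lit 482221) (.g (nat_lit 5610) (.e (nat_lit 7261) (nat_lit 384) (.e (nat_lit 57430) (nat_lit 16) (.e (nat_lit 368676) (nat_lit 21) (.e (nat_lit 516166) (nat_lit 12) (.e (nat_lit 450588) (nat_lit 10) (.e (nat_lit 573473) (nat_lit 12) (.e (nat_lit 57353) (nat_lit 0) .nil))))))) (.g (nat_lit 1) (.e (nat_lit 118869) (nat_lit 0) .nil) .nil)))))) 
(.nd (nat_lit 7) (.nd (nat_lit 8) (.nd (nat_lit 9) 
(.lf (nat_lit 481389) (.g (nat_lit 3012) (.e (nat_lit 5543) (nat_lit 306) (.e (nat_lit 2628) (nat_lit 164) (.e (nat_lit 172120) (nat_lit 12) (.e (nat_lit 475211) (nat_lit 41) (.e (nat_lit 712755) (nat_lit 30) (.e (nat_lit 458496) (nat_lit 0) .nil)))))) (.g (nat_lit 1) (.e (nat_lit 113577) (nat_lit 0) .nil) .nil))) 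
(.lf (nat_lit 481901) (.g (nat_lit 1132) (.e (nat_lit 6989) (nat_lit 377) (.e (nat_lit 1361) (nat_lit 102) (.e (nat_lit 286761) (nat_lit 13) (.e (nat_lit 393282) (nat_lit 24) .nil)))) (.g (nat_lit 0) (.e (nat_lit 117949) (nat_lit 0) .nil) .nil)))) (.nd (nat_lit 9) 
(.lf (nat_lit 481645) (.g (nat_lit 987) (.e (nat_lit 5585) (nat_lit 310) (.e (nat_lit 163874) (nat_lit 3) (.e (nat_lit 204861) (nat_lit 26) .nil))) (.g (nat_lit 0) (.e (nat_lit 115045) (nat_lit 0) .nil) .nil))) 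
(.lf (nat_lit 482157) (.g (nat_lit 2414) (.e (nat_lit 7289) (nat_lit 386) (.e (nat_lit 163875) (nat_lit 3) (.e (nat_lit 204837) (nat_lit 20) (.e (nat_lit 114719) (nat_lit 23) (.e (nat_lit 98365) (nat_lit 26) .nil))))) (.g (nat_lit 0) (.e (nat_lit 118730) (nat_lit 0) .nil) .nil))))) (.nd (nat_lit 8) (.nd (nat_lit 9) 
(.lf (nat_lit 481517) (.g (nat_lit 2368) (.e (nat_lit 5547) (nat_lit 306) (.e (nat_lit 2610) (nat_lit 163) (.e (nat_lit 163978) (nat_lit 30) (.e (nat_lit 573484) (nat_lit 13) (.e (nat_lit 65610) (nat_lit 10) (.e (nat_lit 344117) (nat_lit 21) (.e (nat_lit 516145) (nat_lit 9) (.e (nat_lit 425996) (nat_lit 0) (.e (nat_lit 2453) (nat_lit 157) .nil))))))))) (.g (nat_lit 1) (.e (nat_lit 114200) (nat_lit 0) .nil) .nil))) 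
(.lf (nat_lit 482029) (.g (nat_lit 1865) (.e (nat_lit 7936) (nat_lit 377) (.e (nat_lit 2797) (nat_lit 180) (.e (nat_lit 303117) (nat_lit 2) (.e (nat_lit 196674) (nat_lit 15) (.e (nat_lit 81928) (nat_lit 20) .nil))))) (.g (nat_lit 0) (.e (nat_lit 118207) (nat_lit 0) .nil) .nil)))) (.nd (nat_lit 9) 
(.lf (nat_lit 481773) (.g (nat_lit 2457) (.e (nat_lit 5602) (nat_lit 310) (.e (nat_lit 163869) (nat_lit 2) (.e (nat_lit 196670) (nat_lit 14) (.e (nat_lit 73746) (nat_lit 3) (.e (nat_lit 516129) (nat_lit 3) .nil))))) (.g (nat_lit 0) (.e (nat_lit 117349) (nat_lit 0) .nil) .nil))) 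
(.lf (nat_lit 482285) (.g (nat_lit 5200) (.e (nat_lit 7265) (nat_lit 384) (.e (nat_lit 57406) (nat_lit 12) (.e (nat_lit 336019) (nat_lit 3) (.e (nat_lit 98373) (nat_lit 29) (.e (nat_lit 450587) (nat_lit 10) (.e (nat_lit 573478) (nat_lit 12) (.e (nat_lit 57353) (nat_lit 0) .nil))))))) (.g (nat_lit 1) (.e (nat_lit 118942) (nat_lit 0) .nil) .nil)))))))) 
(.nd (nat_lit 5) (.nd (nat_lit 6) (.nd (nat_lit 7) (.nd (nat_lit 8) (.nd (nat_lit 9) 
(.lf (nat_lit 481309) (.g (nat_lit 207) (.e (nat_lit 5395) (nat_lit 301) (.e (nat_lit 57464) (nat_lit 23) (.e (nat_lit 516164) (nat_lit 11) .nil))) (.g (nat_lit 0) (.e (nat_lit 112952) (nat_lit 0) .nil) .nil))) 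
(.lf (nat_lit 481821) (.g (nat_lit 3396) (.e (nat_lit 6940) (nat_lit 375) (.e (nat_lit 163945) (nat_lit 20) (.e (nat_lit 491571) (nat_lit 13) (.e (nat_lit 393299) (nat_lit 27) (.e (nat_lit 491560) (nat_lit 10) (.e (nat_lit 344091) (nat_lit 18) .nil)))))) (.g (nat_lit 1) (.e (nat_lit 117788) (nat_lit 0) .nil) .nil)))) (.nd (nat_lit 9) 
(.lf (nat_lit 481565) (.g (nat_lit 2321) (.e (nat_lit 5547) (nat_lit 306) (.e (nat_lit 2638) (nat_lit 165) (.e (nat_lit 180277) (nat_lit 32) (.e (nat_lit 1427) (nat_lit 108) (.e (nat_lit 336432) (nat_lit 30) (.e (nat_lit 458496) (nat_lit 0) .nil)))))) (.g (nat_lit 1) (.e (nat_lit 114383) (nat_lit 0) .nil) .nil))) 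
(.lf (nat_lit 482077) (.g (nat_lit 2286) (.e (nat_lit 7098) (nat_lit 380) (.e (nat_lit 164368) (nat_lit 247) (.e (nat_lit 8318) (nat_lit 64) (.e (nat_lit 516174) (nat_lit 14) (.e (nat_lit 466954) (nat_lit 11) (.e (nat_lit 336287) (nat_lit 15) .nil)))))) (.g (nat_lit 1) (.e (nat_lit 118310) (nat_lit 0) .nil) .nil))))) (.nd (nat_lit 8) (.nd (nat_lit 9) 
(.lf (nat_lit 481437) (.g (nat_lit 4313) (.e (nat_lit 5546) (nat_lit 306) (.e (nat_lit 2611) (nat_lit 163) (.e (nat_lit 163977) (nat_lit 30) (.e (nat_lit 573482) (nat_lit 13) (.e (nat_lit 65604) (nat_lit 9) (.e (nat_lit 336013) (nat_lit 2) (.e (nat_lit 90170) (nat_lit 13) (.e (nat_lit 172046) (nat_lit 0) (.e (nat_lit 2458) (nat_lit 157) .nil))))))))) (.g (nat_lit 1) (.e (nat_lit 113797) (nat_lit 0) .nil) .nil))) 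
(.lf (nat_lit 481949) (.g (nat_lit 2271) (.e (nat_lit 7013) (nat_lit 377) (.e (nat_lit 2808) (nat_lit 180) (.e (nat_lit 303118) (nat_lit 3) (.e (nat_lit 204868) (nat_lit 29) (.e (nat_lit 360466) (nat_lit 3) .nil))))) (.g (nat_lit 0) (.e (nat_lit 118079) (nat_lit 0) .nil) .nil)))) (.nd (nat_lit 9) 
(.lf (nat_lit 481693) (.g (nat_lit 1607) (.e (nat_lit 5587) (nat_lit 310) (.e (nat_lit 163944) (nat_lit 19) (.e (nat_lit 483346) (nat_lit 17) (.e (nat_lit 974) (nat_lit 81) .nil)))) (.g (nat_lit 0) (.e (nat_lit 115477) (nat_lit 0) .nil) .nil))) 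
(.lf (nat_lit 482205) (.g (nat_lit 6290) (.e (nat_lit 7261) (nat_lit 384) (.e (nat_lit 57407) (nat_lit 12) (.e (nat_lit 336019) (nat_lit 3) (.e (nat_lit 98373) (nat_lit 29) (.e (nat_lit 450588) (nat_lit 10) (.e (nat_lit 573475) (nat_lit 12) (.e (nat_lit 57348) (nat_lit 0) .nil))))))) (.g (nat_lit 1) (.e (nat_lit 118851) (nat_lit 0) .nil) .nil)))))) 
(.nd (nat_lit 7) (.nd (nat_lit 8) (.nd (nat_lit 9) 
(.lf (nat_lit 481373) (.g (nat_lit 2227) (.e (nat_lit 5543) (nat_lit 306) (.e (nat_lit 2610) (nat_lit 163) (.e (nat_lit 163979) (nat_lit 30) (.e (nat_lit 573482) (nat_lit 13) (.e (nat_lit 65604) (nat_lit 9) (.e (nat_lit 336013) (nat_lit 2) (.e (nat_lit 90170) (nat_lit 13) (.e (nat_lit 172042) (nat_lit 0) (.e (nat_lit 2458) (nat_lit 157) .nil))))))))) (.g (nat_lit 1) (.e (nat_lit 113518) (nat_lit 0) .nil) .nil))) 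
(.lf (nat_lit 481885) (.g (nat_lit 1997) (.e (nat_lit 6989) (nat_lit 377) (.e (nat_lit 2810) (nat_lit 180) (.e (nat_lit 303119) (nat_lit 3) (.e (nat_lit 204866) (nat_lit 28) (.e (nat_lit 352314) (nat_lit 23) .nil))))) (.g (nat_lit 0) (.e (nat_lit 117898) (nat_lit 0) .nil) .nil)))) (.nd (nat_lit 9) 
(.lf (nat_lit 481629) (.g (nat_lit 1230) (.e (nat_lit 5548) (nat_lit 306) (.e (nat_lit 2619) (nat_lit 164) (.e (nat_lit 172120) (nat_lit 12) (.e (nat_lit 475209) (nat_lit 41) .nil)))) (.g (nat_lit 0) (.e (nat_lit 114609) (nat_lit 0) .nil) .nil))) 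
(.lf (nat_lit 482141) (.g (nat_lit 2791) (.e (nat_lit 7281) (nat_lit 386) (.e (nat_lit 163875) (nat_lit 3) (.e (nat_lit 204830) (nat_lit 18) (.e (nat_lit 57852) (nat_lit 252) (.e (nat_lit 57409) (nat_lit 12) .nil))))) (.g (nat_lit 0) (.e (nat_lit 118649) (nat_lit 0) .nil) .nil))))) (.nd (nat_lit 8) (.nd (nat_lit 9) 
(.lf (nat_lit 481501) (.g (nat_lit 2062) (.e (nat_lit 5546) (nat_lit 306) (.e (nat_lit 2648) (nat_lit 166) (.e (nat_lit 188420) (nat_lit 0) (.e (nat_lit 2175) (nat_lit 143) (.e (nat_lit 712753) (nat_lit 30) (.e (nat_lit 458496) (nat_lit 0) .nil)))))) (.g (nat_lit 1) (.e (nat_lit 114029) (nat_lit 0) .nil) .nil))) 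
(.lf (nat_lit 482013) (.g (nat_lit 3285) (.e (nat_lit 7064) (nat_lit 377) (.e (nat_lit 1349) (nat_lit 102) (.e (nat_lit 286735) (nat_lit 3) (.e (nat_lit 98354) (nat_lit 26) (.e (nat_lit 426340) (nat_lit 14) (.e (nat_lit 491537) (nat_lit 2) (.e (nat_lit 90133) (nat_lit 9) (.e (nat_lit 2400) (nat_lit 157) .nil)))))))) (.g (nat_lit 1) (.e (nat_lit 118187) (nat_lit 0) .nil) .nil)))) (.nd (nat_lit 9) 
(.lf (nat_lit 481757) (.g (nat_lit 2606) (.e (nat_lit 5599) (nat_lit 310) (.e (nat_lit 163905) (nat_lit 12) (.e (nat_lit 426320) (nat_lit 12) (.e (nat_lit 475209) (nat_lit 41) (.e (nat_lit 712753) (nat_lit 30) (.e (nat_lit 450568) (nat_lit 0) .nil)))))) (.g (nat_lit 1) (.e (nat_lit 117123) (nat_lit 0) .nil) .nil))) 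
(.lf (nat_lit 482269) (.g (nat_lit 3718) (.e (nat_lit 7265) (nat_lit 384) (.e (nat_lit 57406) (nat_lit 12) (.e (nat_lit 336019) (nat_lit 3) (.e (nat_lit 98359) (nat_lit 26) (.e (nat_lit 426286) (nat_lit 10) (.e (nat_lit 434245) (nat_lit 28) (.e (nat_lit 573474) (nat_lit 12) (.e (nat_lit 57348) (nat_lit 0) .nil)))))))) (.g (nat_lit 1) (.e (nat_lit 118926) (nat_lit 0) .nil) .nil))))))) 
(.nd (nat_lit 6) (.nd (nat_lit 7) (.nd (nat_lit 8) (.nd (nat_lit 9) 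
(.lf (nat_lit 481341) (.g (nat_lit 1092) (.e (nat_lit 5412) (nat_lit 303) (.e (nat_lit 73750) (nat_lit 6) (.e (nat_lit 540724) (nat_lit 28) (.e (nat_lit 442399) (nat_lit 20) (.e (nat_lit 3571) (nat_lit 222) (.e (nat_lit 737284) (nat_lit 0) .nil)))))) (.g (nat_lit 1) (.e (nat_lit 113073) (nat_lit 0) .nil) .nil))) 
(.lf (nat_lit 481853) (.g (nat_lit 3873) (.e (nat_lit 6966) (nat_lit 377) (.e (nat_lit 2798) (nat_lit 180) (.e (nat_lit 303117) (nat_lit 2) (.e (nat_lit 196666) (nat_lit 13) (.e (nat_lit 65617) (nat_lit 10) .nil))))) (.g (nat_lit 0) (.e (nat_lit 117837) (nat_lit 0) .nil) .nil)))) (.nd (nat_lit 9) 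
(.lf (nat_lit 481597) (.g (nat_lit 2999) (.e (nat_lit 5548) (nat_lit 306) (.e (nat_lit 2610) (nat_lit 163) (.e (nat_lit 163978) (nat_lit 30) (.e (nat_lit 573479) (nat_lit 13) (.e (nat_lit 65619) (nat_lit 10) (.e (nat_lit 344117) (nat_lit 21) (.e (nat_lit 516159) (nat_lit 10) (.e (nat_lit 434212) (nat_lit 18) .nil)))))))) (.g (nat_lit 1) (.e (nat_lit 114534) (nat_lit 0) .nil) .nil))) 
(.lf (nat_lit 482109) (.g (nat_lit 1832) (.e (nat_lit 7122) (nat_lit 382) (.e (nat_lit 1222) (nat_lit 90) (.e (nat_lit 81947) (nat_lit 20) (.e (nat_lit 2281) (nat_lit 150) (.e (nat_lit 770072) (nat_lit 8) .nil))))) (.g (nat_lit 0) (.e (nat_lit 118447) (nat_lit 0) .nil) .nil))))) (.nd (nat_lit 8) (.nd (nat_lit 9) 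
(.lf (nat_lit 481469) (.g (nat_lit 523) (.e (nat_lit 5546) (nat_lit 306) (.e (nat_lit 2638) (nat_lit 165) (.e (nat_lit 180277) (nat_lit 32) .nil))) (.g (nat_lit 0) (.e (nat_lit 113988) (nat_lit 0) .nil) .nil))) 
(.lf (nat_lit 481981) (.g (nat_lit 2092) (.e (nat_lit 6961) (nat_lit 377) (.e (nat_lit 2811) (nat_lit 180) (.e (nat_lit 303117) (nat_lit 2) (.e (nat_lit 196673) (nat_lit 15) (.e (nat_lit 81956) (nat_lit 23) .nil))))) (.g (nat_lit 0) (.e (nat_lit 118122) (nat_lit 0) .nil) .nil)))) (.nd (nat_lit 9) 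
(.lf (nat_lit 481725) (.g (nat_lit 1780) (.e (nat_lit 5595) (nat_lit 310) (.e (nat_lit 163869) (nat_lit 2) (.e (nat_lit 196670) (nat_lit 14) (.e (nat_lit 73746) (nat_lit 3) .nil)))) (.g (nat_lit 0) (.e (nat_lit 116143) (nat_lit 0) .nil) .nil))) 
(.lf (nat_lit 482237) (.g (nat_lit 4248) (.e (nat_lit 7263) (nat_lit 384) (.e (nat_lit 57412) (nat_lit 12) (.e (nat_lit 336001) (nat_lit 2) (.e (nat_lit 90170) (nat_lit 13) (.e (nat_lit 172106) (nat_lit 10) (.e (nat_lit 434244) (nat_lit 28) (.e (nat_lit 573473) (nat_lit 12) (.e (nat_lit 57348) (nat_lit 0) .nil)))))))) (.g (nat_lit 1) (.e (nat_lit 118886) (nat_lit 0) .nil) .nil)))))) 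
(.nd (nat_lit 7) (.nd (nat_lit 8) (.nd (nat_lit 9) 
(.lf (nat_lit 481405) (.g (nat_lit 2200) (.e (nat_lit 5543) (nat_lit 306) (.e (nat_lit 2648) (nat_lit 166) (.e (nat_lit 188420) (nat_lit 0) (.e (nat_lit 2174) (nat_lit 143) (.e (nat_lit 712755) (nat_lit 30) (.e (nat_lit 458496) (nat_lit 0) .nil)))))) (.g (nat_lit 1) (.e (nat_lit 113632) (nat_lit 0) .nil) .nil))) 
(.lf (nat_lit 481917) (.g (nat_lit 5013) (.e (nat_lit 6986) (nat_lit 377) (.e (nat_lit 2782) (nat_lit 178) (.e (nat_lit 286765) (nat_lit 15) (.e (nat_lit 3308) (nat_lit 202) (.e (nat_lit 573482) (nat_lit 13) (.e (nat_lit 65619) (nat_lit 10) (.e (nat_lit 344117) (nat_lit 21) (.e (nat_lit 516106) (nat_lit 0) .nil)))))))) (.g (nat_lit 1) (.e (nat_lit 117980) (nat_lit 0) .nil) .nil)))) 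
(.nd (nat_lit 9) 
(.lf (nat_lit 481661) (.g (nat_lit 1223) (.e (nat_lit 5587) (nat_lit 310) (.e (nat_lit 163873) (nat_lit 3) (.e (nat_lit 204861) (nat_lit 26) (.e (nat_lit 336075) (nat_lit 9) .nil)))) (.g (nat_lit 0) (.e (nat_lit 115249) (nat_lit 0) .nil) .nil))) 
(.lf (nat_lit 482173) (.g (nat_lit 435) (.e (nat_lit 7261) (nat_lit 384) (.e (nat_lit 57389) (nat_lit 5) (.e (nat_lit 114723) (nat_lit 24) .nil))) (.g (nat_lit 0) (.e (nat_lit 118813) (nat_lit 0) .nil) .nil))))) (.nd (nat_lit 8) (.nd (nat_lit 9) 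
(.lf (nat_lit 481533) (.g (nat_lit 4875) (.e (nat_lit 5547) (nat_lit 306) (.e (nat_lit 2611) (nat_lit 163) (.e (nat_lit 163979) (nat_lit 30) (.e (nat_lit 573482) (nat_lit 13) (.e (nat_lit 65604) (nat_lit 9) (.e (nat_lit 336013) (nat_lit 2) (.e (nat_lit 90170) (nat_lit 13) (.e (nat_lit 172046) (nat_lit 0) (.e (nat_lit 2458) (nat_lit 157) .nil))))))))) (.g (nat_lit 1) (.e (nat_lit 114236) (nat_lit 0) .nil) .nil))) 
(.lf (nat_lit 482045) (.g (nat_lit 1857) (.e (nat_lit 7936) (nat_lit 377) (.e (nat_lit 2798) (nat_lit 180) (.e (nat_lit 303117) (nat_lit 2) (.e (nat_lit 196674) (nat_lit 15) (.e (nat_lit 81954) (nat_lit 23) .nil))))) (.g (nat_lit 0) (.e (nat_lit 118237) (nat_lit 0) .nil) .nil)))) (.nd (nat_lit 9) 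
(.lf (nat_lit 481789) (.g (nat_lit 1945) (.e (nat_lit 7936) (nat_lit 310) (.e (nat_lit 163907) (nat_lit 12) (.e (nat_lit 426320) (nat_lit 12) (.e (nat_lit 475210) (nat_lit 41) (.e (nat_lit 712755) (nat_lit 30) .nil))))) (.g (nat_lit 0) (.e (nat_lit 117649) (nat_lit 0) .nil) .nil))) 
(.lf (nat_lit 482301) (.g (nat_lit 4073) (.e (nat_lit 7265) (nat_lit 384) (.e (nat_lit 57406) (nat_lit 12) (.e (nat_lit 336316) (nat_lit 17) (.e (nat_lit 196666) (nat_lit 13) (.e (nat_lit 65628) (nat_lit 14) (.e (nat_lit 401472) (nat_lit 28) (.e (nat_lit 344096) (nat_lit 18) .nil))))))) (.g (nat_lit 1) (.e (nat_lit 118958) (nat_lit 0) .nil) .nil))))))))))) 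
(.nd (nat_lit 2) (.nd (nat_lit 3) (.nd (nat_lit 4) (.nd (nat_lit 5) (.nd (nat_lit 6) 
(.nd (nat_lit 7) (.nd (nat_lit 8) (.nd (nat_lit 9) 
(.lf (nat_lit 481283) (.g (nat_lit 2358) (.e (nat_lit 5391) (nat_lit 301) (.e (nat_lit 57464) (nat_lit 23) (.e (nat_lit 516151) (nat_lit 9) (.e (nat_lit 426275) (nat_lit 10) .nil)))) (.g (nat_lit 0) (.e (nat_lit 112902) (nat_lit 0) .nil) .nil))) 
(.lf (nat_lit 481795) (.g (nat_lit 683) (.e (nat_lit 5567) (nat_lit 308) (.e (nat_lit 57379) (nat_lit 3) (.e (nat_lit 98367) (nat_lit 27) .nil))) (.g (nat_lit 0) (.e (nat_lit 117700) (nat_lit 0) .nil) .nil)))) (.nd (nat_lit 9) 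
(.lf (nat_lit 481539) (.g (nat_lit 3075) (.e (nat_lit 5547) (nat_lit 306) (.e (nat_lit 2619) (nat_lit 164) (.e (nat_lit 172120) (nat_lit 12) (.e (nat_lit 475210) (nat_lit 41) (.e (nat_lit 712755) (nat_lit 30) (.e (nat_lit 458496) (nat_lit 0) .nil)))))) (.g (nat_lit 1) (.e (nat_lit 114279) (nat_lit 0) .nil) .nil))) 
(.lf (nat_lit 482051) (.g (nat_lit 2546) (.e (nat_lit 7095) (nat_lit 380) (.e (nat_lit 164366) (nat_lit 246) (.e (nat_lit 2664) (nat_lit 167) (.e (nat_lit 196666) (nat_lit 13) (.e (nat_lit 65619) (nat_lit 10) .nil))))) (.g (nat_lit 0) (.e (nat_lit 118251) (nat_lit 0) .nil) .nil))))) (.nd (nat_lit 8) (.nd (nat_lit 9) 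
(.lf (nat_lit 481411) (.g (nat_lit 3778) (.e (nat_lit 5546) (nat_lit 306) (.e (nat_lit 2599) (nat_lit 163) (.e (nat_lit 163978) (nat_lit 30) (.e (nat_lit 573485) (nat_lit 13) (.e (nat_lit 65604) (nat_lit 9) (.e (nat_lit 336013) (nat_lit 2) (.e (nat_lit 90170) (nat_lit 13) (.e (nat_lit 172049) (nat_lit 0) (.e (nat_lit 2458) (nat_lit 157) .nil))))))))) (.g (nat_lit 1) (.e (nat_lit 113729) (nat_lit 0) .nil) .nil))) 
(.lf (nat_lit 481923) (.g (nat_lit 451) (.e (nat_lit 6998) (nat_lit 377) (.e (nat_lit 2797) (nat_lit 180) (.e (nat_lit 303119) (nat_lit 3) .nil))) (.g (nat_lit 0) (.e (nat_lit 117991) (nat_lit 0) .nil) .nil)))) (.nd (nat_lit 9) 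
(.lf (nat_lit 481667) (.g (nat_lit 1543) (.e (nat_lit 5587) (nat_lit 310) (.e (nat_lit 163875) (nat_lit 3) (.e (nat_lit 204862) (nat_lit 27) (.e (nat_lit 344132) (nat_lit 26) .nil)))) (.g (nat_lit 0) (.e (nat_lit 115303) (nat_lit 0) .nil) .nil))) 
(.lf (nat_lit 482179) (.g (nat_lit 2548) (.e (nat_lit 7261) (nat_lit 384) (.e (nat_lit 57406) (nat_lit 12) (.e (nat_lit 336019) (nat_lit 3) (.e (nat_lit 98372) (nat_lit 29) (.e (nat_lit 450586) (nat_lit 10) (.e (nat_lit 573473) (nat_lit 12) (.e (nat_lit 57353) (nat_lit 0) .nil))))))) (.g (nat_lit 1) (.e (nat_lit 118820) (nat_lit 0) .nil) .nil)))))) 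
(.nd (nat_lit 7) (.nd (nat_lit 8) (.nd (nat_lit 9) 
(.lf (nat_lit 481347) (.g (nat_lit 2419) (.e (nat_lit 5441) (nat_lit 306) (.e (nat_lit 1183) (nat_lit 87) (.e (nat_lit 57575) (nat_lit 55) (.e (nat_lit 778466) (nat_lit 11) (.e (nat_lit 24617) (nat_lit 7) .nil))))) (.g (nat_lit 0) (.e (nat_lit 113108) (nat_lit 0) .nil) .nil))) 
(.lf (nat_lit 481859) (.g (nat_lit 2646) (.e (nat_lit 6966) (nat_lit 377) (.e (nat_lit 2819) (nat_lit 181) (.e (nat_lit 311312) (nat_lit 2) (.e (nat_lit 196666) (nat_lit 13) (.e (nat_lit 65619) (nat_lit 10) .nil))))) (.g (nat_lit 0) (.e (nat_lit 117848) (nat_lit 0) .nil) .nil)))) (.nd (nat_lit 9) 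
(.lf (nat_lit 481603) (.g (nat_lit 5195) (.e (nat_lit 5548) (nat_lit 306) (.e (nat_lit 2610) (nat_lit 163) (.e (nat_lit 163978) (nat_lit 30) (.e (nat_lit 573485) (nat_lit 13) (.e (nat_lit 65604) (nat_lit 9) (.e (nat_lit 336013) (nat_lit 2) (.e (nat_lit 90170) (nat_lit 13) (.e (nat_lit 172046) (nat_lit 0) (.e (nat_lit 2458) (nat_lit 157) .nil))))))))) (.g (nat_lit 1) (.e (nat_lit 114540) (nat_lit 0) .nil) .nil))) 
(.lf (nat_lit 482115) (.g (nat_lit 2599) (.e (nat_lit 7280) (nat_lit 386) (.e (nat_lit 163874) (nat_lit 3) (.e (nat_lit 204829) (nat_lit 18) (.e (nat_lit 57847) (nat_lit 252) (.e (nat_lit 57410) (nat_lit 12) .nil))))) (.g (nat_lit 0) (.e (nat_lit 118607) (nat_lit 0) .nil) .nil))))) (.nd (nat_lit 8) (.nd (nat_lit 9) 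
(.lf (nat_lit 481475) (.g (nat_lit 1642) (.e (nat_lit 5546) (nat_lit 306) (.e (nat_lit 2638) (nat_lit 165) (.e (nat_lit 180278) (nat_lit 32) (.e (nat_lit 1425) (nat_lit 108) (.e (nat_lit 336434) (nat_lit 30) (.e (nat_lit 458496) (nat_lit 0) .nil)))))) (.g (nat_lit 1) (.e (nat_lit 113994) (nat_lit 0) .nil) .nil))) 
(.lf (nat_lit 481987) (.g (nat_lit 2116) (.e (nat_lit 7071) (nat_lit 377) (.e (nat_lit 2797) (nat_lit 180) (.e (nat_lit 303119) (nat_lit 3) (.e (nat_lit 204861) (nat_lit 26) .nil)))) (.g (nat_lit 0) (.e (nat_lit 118139) (nat_lit 0) .nil) .nil)))) (.nd (nat_lit 9) 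
(.lf (nat_lit 481731) (.g (nat_lit 1927) (.e (nat_lit 5597) (nat_lit 310) (.e (nat_lit 163843) (nat_lit 0) (.e (nat_lit 3222) (nat_lit 196) (.e (nat_lit 524319) (nat_lit 11) (.e (nat_lit 450304) (nat_lit 18) (.e (nat_lit 393234) (nat_lit 17) (.e (nat_lit 2485) (nat_lit 157) .nil))))))) (.g (nat_lit 1) (.e (nat_lit 116414) (nat_lit 0) .nil) .nil))) 
(.lf (nat_lit 482243) (.g (nat_lit 3900) (.e (nat_lit 7263) (nat_lit 384) (.e (nat_lit 57412) (nat_lit 12) (.e (nat_lit 336001) (nat_lit 2) (.e (nat_lit 90170) (nat_lit 13) (.e (nat_lit 172113) (nat_lit 10) (.e (nat_lit 434247) (nat_lit 28) (.e (nat_lit 573477) (nat_lit 12) (.e (nat_lit 57352) (nat_lit 0) .nil)))))))) (.g (nat_lit 1) (.e (nat_lit 118892) (nat_lit 0) .nil) .nil))))))) 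
(.nd (nat_lit 6) (.nd (nat_lit 7) (.nd (nat_lit 8) (.nd (nat_lit 9) 
(.lf (nat_lit 481315) (.g (nat_lit 3328) (.e (nat_lit 5396) (nat_lit 301) (.e (nat_lit 57464) (nat_lit 23) (.e (nat_lit 516151) (nat_lit 9) (.e (nat_lit 426211) (nat_lit 9) (.e (nat_lit 426125) (nat_lit 2) .nil))))) (.g (nat_lit 0) (.e (nat_lit 112958) (nat_lit 0) .nil) .nil))) 
(.lf (nat_lit 481827) (.g (nat_lit 3201) (.e (nat_lit 6943) (nat_lit 375) (.e (nat_lit 163936) (nat_lit 18) (.e (nat_lit 475185) (nat_lit 29) (.e (nat_lit 557100) (nat_lit 13) (.e (nat_lit 172113) (nat_lit 10) (.e (nat_lit 434245) (nat_lit 28) (.e (nat_lit 573473) (nat_lit 12) (.e (nat_lit 57348) (nat_lit 0) .nil)))))))) (.g (nat_lit 1) (.e (nat_lit 117798) (nat_lit 0) .nil) .nil)))) 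
(.nd (nat_lit 9) 
(.lf (nat_lit 481571) (.g (nat_lit 1556) (.e (nat_lit 5547) (nat_lit 306) (.e (nat_lit 2638) (nat_lit 165) (.e (nat_lit 180278) (nat_lit 32) (.e (nat_lit 1426) (nat_lit 108) (.e (nat_lit 336434) (nat_lit 30) (.e (nat_lit 458496) (nat_lit 0) .nil)))))) (.g (nat_lit 1) (.e (nat_lit 114391) (nat_lit 0) .nil) .nil))) 
(.lf (nat_lit 482083) (.g (nat_lit 1567) (.e (nat_lit 7105) (nat_lit 380) (.e (nat_lit 164288) (nat_lit 224) (.e (nat_lit 164092) (nat_lit 82) (.e (nat_lit 500046) (nat_lit 16) (.e (nat_lit 16463) (nat_lit 13) (.e (nat_lit 491264) (nat_lit 0) .nil)))))) (.g (nat_lit 1) (.e (nat_lit 118335) (nat_lit 0) .nil) .nil))))) (.nd (nat_lit 8) (.nd (nat_lit 9) 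
(.lf (nat_lit 481443) (.g (nat_lit 2377) (.e (nat_lit 5546) (nat_lit 306) (.e (nat_lit 2617) (nat_lit 164) (.e (nat_lit 172126) (nat_lit 14) (.e (nat_lit 491549) (nat_lit 9) (.e (nat_lit 336434) (nat_lit 30) (.e (nat_lit 458496) (nat_lit 0) .nil)))))) (.g (nat_lit 1) (.e (nat_lit 113816) (nat_lit 0) .nil) .nil))) 
(.lf (nat_lit 481955) (.g (nat_lit 2590) (.e (nat_lit 7014) (nat_lit 377) (.e (nat_lit 2797) (nat_lit 180) (.e (nat_lit 303117) (nat_lit 2) (.e (nat_lit 196674) (nat_lit 15) (.e (nat_lit 81956) (nat_lit 23) .nil))))) (.g (nat_lit 0) (.e (nat_lit 118086) (nat_lit 0) .nil) .nil)))) (.nd (nat_lit 9) 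
(.lf (nat_lit 481699) (.g (nat_lit 1855) (.e (nat_lit 5589) (nat_lit 310) (.e (nat_lit 163875) (nat_lit 3) (.e (nat_lit 204863) (nat_lit 27) (.e (nat_lit 344118) (nat_lit 21) .nil)))) (.g (nat_lit 0) (.e (nat_lit 115783) (nat_lit 0) .nil) .nil))) 
(.lf (nat_lit 482211) (.g (nat_lit 3979) (.e (nat_lit 7261) (nat_lit 384) (.e (nat_lit 57412) (nat_lit 12) (.e (nat_lit 336001) (nat_lit 2) (.e (nat_lit 90170) (nat_lit 13) (.e (nat_lit 172113) (nat_lit 10) (.e (nat_lit 434247) (nat_lit 28) (.e (nat_lit 573477) (nat_lit 12) (.e (nat_lit 57353) (nat_lit 0) .nil)))))))) (.g (nat_lit 1) (.e (nat_lit 118857) (nat_lit 0) .nil) .nil)))))) 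
(.nd (nat_lit 7) (.nd (nat_lit 8) (.nd (nat_lit 9) 
(.lf (nat_lit 481379) (.g (nat_lit 2633) (.e (nat_lit 5543) (nat_lit 306) (.e (nat_lit 2618) (nat_lit 164) (.e (nat_lit 172120) (nat_lit 12) (.e (nat_lit 475211) (nat_lit 41) (.e (nat_lit 712755) (nat_lit 30) (.e (nat_lit 458496) (nat_lit 0) .nil)))))) (.g (nat_lit 1) (.e (nat_lit 113531) (nat_lit 0) .nil) .nil))) 
(.lf (nat_lit 481891) (.g (nat_lit 1569) (.e (nat_lit 6989) (nat_lit 377) (.e (nat_lit 2810) (nat_lit 180) (.e (nat_lit 303143) (nat_lit 12) (.e (nat_lit 475212) (nat_lit 42) (.e (nat_lit 720951) (nat_lit 24) .nil))))) (.g (nat_lit 0) (.e (nat_lit 117905) (nat_lit 0) .nil) .nil)))) (.nd (nat_lit 9) 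
(.lf (nat_lit 481635) (.g (nat_lit 608) (.e (nat_lit 5550) (nat_lit 306) (.e (nat_lit 2638) (nat_lit 165) (.e (nat_lit 180278) (nat_lit 32) .nil))) (.g (nat_lit 0) (.e (nat_lit 114739) (nat_lit 0) .nil) .nil))) 
(.lf (nat_lit 482147) (.g (nat_lit 1937) (.e (nat_lit 7287) (nat_lit 386) (.e (nat_lit 163864) (nat_lit 1) (.e (nat_lit 164332) (nat_lit 230) (.e (nat_lit 163902) (nat_lit 12) (.e (nat_lit 426472) (nat_lit 25) .nil))))) (.g (nat_lit 0) (.e (nat_lit 118713) (nat_lit 0) .nil) .nil))))) (.nd (nat_lit 8) (.nd (nat_lit 9) 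
(.lf (nat_lit 481507) (.g (nat_lit 2463) (.e (nat_lit 5547) (nat_lit 306) (.e (nat_lit 2610) (nat_lit 163) (.e (nat_lit 163977) (nat_lit 30) (.e (nat_lit 573484) (nat_lit 13) (.e (nat_lit 65610) (nat_lit 10) (.e (nat_lit 344117) (nat_lit 21) (.e (nat_lit 516151) (nat_lit 9) (.e (nat_lit 426042) (nat_lit 0) (.e (nat_lit 2458) (nat_lit 157) .nil))))))))) (.g (nat_lit 1) (.e (nat_lit 114186) (nat_lit 0) .nil) .nil))) 
(.lf (nat_lit 482019) (.g (nat_lit 1601) (.e (nat_lit 7064) (nat_lit 377) (.e (nat_lit 1349) (nat_lit 102) (.e (nat_lit 286761) (nat_lit 13) (.e (nat_lit 393293) (nat_lit 26) (.e (nat_lit 475196) (nat_lit 40) .nil))))) (.g (nat_lit 0) (.e (nat_lit 118193) (nat_lit 0) .nil) .nil)))) (.nd (nat_lit 9) 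
(.lf (nat_lit 481763) (.g (nat_lit 2391) (.e (nat_lit 5599) (nat_lit 310) (.e (nat_lit 163908) (nat_lit 12) (.e (nat_lit 426305) (nat_lit 12) (.e (nat_lit 475211) (nat_lit 41) (.e (nat_lit 712753) (nat_lit 30) (.e (nat_lit 450568) (nat_lit 0) .nil)))))) (.g (nat_lit 1) (.e (nat_lit 117138) (nat_lit 0) .nil) .nil))) 
(.lf (nat_lit 482275) (.g (nat_lit 4122) (.e (nat_lit 7265) (nat_lit 384) (.e (nat_lit 57406) (nat_lit 12) (.e (nat_lit 336019) (nat_lit 3) (.e (nat_lit 98372) (nat_lit 29) (.e (nat_lit 450586) (nat_lit 10) (.e (nat_lit 573473) (nat_lit 12) (.e (nat_lit 57348) (nat_lit 0) .nil))))))) (.g (nat_lit 1) (.e (nat_lit 118932) (nat_lit 0) .nil) .nil)))))))) 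
(.nd (nat_lit 5) (.nd (nat_lit 6) (.nd (nat_lit 7) (.nd (nat_lit 8) (.nd (nat_lit 9) 
(.lf (nat_lit 481299) (.g (nat_lit 3269) (.e (nat_lit 5394) (nat_lit 301) (.e (nat_lit 57464) (nat_lit 23) (.e (nat_lit 516166) (nat_lit 12) (.e (nat_lit 450588) (nat_lit 10) (.e (nat_lit 573452) (nat_lit 9) (.e (nat_lit 359) (nat_lit 30) (.e (nat_lit 409605) (nat_lit 0) .nil))))))) (.g (nat_lit 1) (.e (nat_lit 112938) (nat_lit 0) .nil) .nil))) 
(.lf (nat_lit 481811) (.g (nat_lit 2779) (.e (nat_lit 6938) (nat_lit 375) (.e (nat_lit 163947) (nat_lit 20) (.e (nat_lit 491560) (nat_lit 10) (.e (nat_lit 344177) (nat_lit 43) (.e (nat_lit 770072) (nat_lit 8) .nil))))) (.g (nat_lit 0) (.e (nat_lit 117770) (nat_lit 0) .nil) .nil)))) (.nd (nat_lit 9) 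
(.lf (nat_lit 481555) (.g (nat_lit 2351) (.e (nat_lit 5547) (nat_lit 306) (.e (nat_lit 2628) (nat_lit 164) (.e (nat_lit 172126) (nat_lit 14) (.e (nat_lit 491550) (nat_lit 9) (.e (nat_lit 336432) (nat_lit 30) (.e (nat_lit 458496) (nat_lit 0) .nil)))))) (.g (nat_lit 1) (.e (nat_lit 114339) (nat_lit 0) .nil) .nil))) 
(.lf (nat_lit 482067) (.g (nat_lit 1689) (.e (nat_lit 7098) (nat_lit 380) (.e (nat_lit 164291) (nat_lit 224) (.e (nat_lit 164092) (nat_lit 82) (.e (nat_lit 500046) (nat_lit 16) (.e (nat_lit 16466) (nat_lit 13) (.e (nat_lit 491264) (nat_lit 0) .nil)))))) (.g (nat_lit 1) (.e (nat_lit 118282) (nat_lit 0) .nil) .nil))))) (.nd (nat_lit 8) (.nd (nat_lit 9) 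
(.lf (nat_lit 481427) (.g (nat_lit 3308) (.e (nat_lit 5546) (nat_lit 306) (.e (nat_lit 2610) (nat_lit 163) (.e (nat_lit 163978) (nat_lit 30) (.e (nat_lit 573479) (nat_lit 13) (.e (nat_lit 65619) (nat_lit 10) (.e (nat_lit 344117) (nat_lit 21) (.e (nat_lit 516170) (nat_lit 13) (.e (nat_lit 458774) (nat_lit 18) .nil)))))))) (.g (nat_lit 1) (.e (nat_lit 113780) (nat_lit 0) .nil) .nil))) 
(.lf (nat_lit 481939) (.g (nat_lit 2291) (.e (nat_lit 7008) (nat_lit 377) (.e (nat_lit 2798) (nat_lit 180) (.e (nat_lit 303117) (nat_lit 2) (.e (nat_lit 196672) (nat_lit 15) (.e (nat_lit 81956) (nat_lit 23) .nil))))) (.g (nat_lit 0) (.e (nat_lit 118061) (nat_lit 0) .nil) .nil)))) (.nd (nat_lit 9) 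
(.lf (nat_lit 481683) (.g (nat_lit 2594) (.e (nat_lit 5587) (nat_lit 310) (.e (nat_lit 163907) (nat_lit 12) (.e (nat_lit 426320) (nat_lit 12) (.e (nat_lit 475208) (nat_lit 41) (.e (nat_lit 712753) (nat_lit 30) (.e (nat_lit 458496) (nat_lit 0) .nil)))))) (.g (nat_lit 1) (.e (nat_lit 115380) (nat_lit 0) .nil) .nil))) 
(.lf (nat_lit 482195) (.g (nat_lit 3097) (.e (nat_lit 7261) (nat_lit 384) (.e (nat_lit 57407) (nat_lit 12) (.e (nat_lit 336019) (nat_lit 3) (.e (nat_lit 98372) (nat_lit 29) (.e (nat_lit 450586) (nat_lit 10) (.e (nat_lit 573477) (nat_lit 12) (.e (nat_lit 57353) (nat_lit 0) .nil))))))) (.g (nat_lit 1) (.e (nat_lit 118841) (nat_lit 0) .nil) .nil)))))) 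
(.nd (nat_lit 7) (.nd (nat_lit 8) (.nd (nat_lit 9) 
(.lf (nat_lit 481363) (.g (nat_lit 4389) (.e (nat_lit 5448) (nat_lit 306) (.e (nat_lit 2612) (nat_lit 163) (.e (nat_lit 163979) (nat_lit 30) (.e (nat_lit 573493) (nat_lit 15) (.e (nat_lit 81956) (nat_lit 23) (.e (nat_lit 98367) (nat_lit 27) (.e (nat_lit 434215) (nat_lit 18) .nil))))))) (.g (nat_lit 1) (.e (nat_lit 113307) (nat_lit 0) .nil) .nil))) 
(.lf (nat_lit 481875) (.g (nat_lit 531) (.e (nat_lit 6988) (nat_lit 377) (.e (nat_lit 2777) (nat_lit 178) (.e (nat_lit 294656) (nat_lit 17) .nil))) (.g (nat_lit 0) (.e (nat_lit 117882) (nat_lit 0) .nil) .nil)))) (.nd (nat_lit 9) 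
(.lf (nat_lit 481619) (.g (nat_lit 3318) (.e (nat_lit 5548) (nat_lit 306) (.e (nat_lit 2610) (nat_lit 163) (.e (nat_lit 163979) (nat_lit 30) (.e (nat_lit 573493) (nat_lit 15) (.e (nat_lit 81953) (nat_lit 22) (.e (nat_lit 90170) (nat_lit 13) (.e (nat_lit 172042) (nat_lit 0) (.e (nat_lit 2478) (nat_lit 157) .nil)))))))) (.g (nat_lit 1) (.e (nat_lit 114568) (nat_lit 0) .nil) .nil))) 
(.lf (nat_lit 482131) (.g (nat_lit 1876) (.e (nat_lit 7280) (nat_lit 386) (.e (nat_lit 163875) (nat_lit 3) (.e (nat_lit 204837) (nat_lit 20) (.e (nat_lit 114719) (nat_lit 23) .nil)))) (.g (nat_lit 0) (.e (nat_lit 118623) (nat_lit 0) .nil) .nil))))) (.nd (nat_lit 8) (.nd (nat_lit 9) 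
(.lf (nat_lit 481491) (.g (nat_lit 1641) (.e (nat_lit 5546) (nat_lit 306) (.e (nat_lit 2639) (nat_lit 165) (.e (nat_lit 180278) (nat_lit 32) (.e (nat_lit 1428) (nat_lit 108) (.e (nat_lit 336434) (nat_lit 30) (.e (nat_lit 458496) (nat_lit 0) .nil)))))) (.g (nat_lit 1) (.e (nat_lit 114016) (nat_lit 0) .nil) .nil))) 
(.lf (nat_lit 482003) (.g (nat_lit 2425) (.e (nat_lit 7062) (nat_lit 377) (.e (nat_lit 2805) (nat_lit 180) (.e (nat_lit 303119) (nat_lit 3) (.e (nat_lit 204868) (nat_lit 29) (.e (nat_lit 360466) (nat_lit 3) .nil))))) (.g (nat_lit 0) (.e (nat_lit 118172) (nat_lit 0) .nil) .nil)))) (.nd (nat_lit 9) 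
(.lf (nat_lit 481747) (.g (nat_lit 1803) (.e (nat_lit 5599) (nat_lit 310) (.e (nat_lit 163874) (nat_lit 3) (.e (nat_lit 204854) (nat_lit 26) (.e (nat_lit 336019) (nat_lit 3) (.e (nat_lit 98342) (nat_lit 20) .nil))))) (.g (nat_lit 0) (.e (nat_lit 116936) (nat_lit 0) .nil) .nil))) 
(.lf (nat_lit 482259) (.g (nat_lit 4815) (.e (nat_lit 7265) (nat_lit 384) (.e (nat_lit 57406) (nat_lit 12) (.e (nat_lit 336018) (nat_lit 3) (.e (nat_lit 98373) (nat_lit 29) (.e (nat_lit 450587) (nat_lit 10) (.e (nat_lit 573477) (nat_lit 12) (.e (nat_lit 57353) (nat_lit 0) .nil))))))) (.g (nat_lit 1) (.e (nat_lit 118916) (nat_lit 0) .nil) .nil))))))) 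
(.nd (nat_lit 6) (.nd (nat_lit 7) (.nd (nat_lit 8) (.nd (nat_lit 9) 
(.lf (nat_lit 481331) (.g (nat_lit 1310) (.e (nat_lit 5407) (nat_lit 303) (.e (nat_lit 73775) (nat_lit 26) (.e (nat_lit 778466) (nat_lit 11) (.e (nat_lit 24632) (nat_lit 9) .nil)))) (.g (nat_lit 0) (.e (nat_lit 113026) (nat_lit 0) .nil) .nil))) 
(.lf (nat_lit 481843) (.g (nat_lit 2694) (.e (nat_lit 6947) (nat_lit 377) (.e (nat_lit 2816) (nat_lit 181) (.e (nat_lit 311312) (nat_lit 2) (.e (nat_lit 196672) (nat_lit 15) (.e (nat_lit 81954) (nat_lit 23) (.e (nat_lit 106240) (nat_lit 17) .nil)))))) (.g (nat_lit 1) (.e (nat_lit 117819) (nat_lit 0) .nil) .nil)))) (.nd (nat_lit 9) 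
(.lf (nat_lit 481587) (.g (nat_lit 2374) (.e (nat_lit 5548) (nat_lit 306) (.e (nat_lit 2610) (nat_lit 163) (.e (nat_lit 163977) (nat_lit 30) (.e (nat_lit 573482) (nat_lit 13) (.e (nat_lit 65604) (nat_lit 9) (.e (nat_lit 336013) (nat_lit 2) (.e (nat_lit 90170) (nat_lit 13) (.e (nat_lit 172042) (nat_lit 0) (.e (nat_lit 2478) (nat_lit 157) .nil))))))))) (.g (nat_lit 1) (.e (nat_lit 114520) (nat_lit 0) .nil) .nil))) 
(.lf (nat_lit 482099) (.g (nat_lit 1290) (.e (nat_lit 7108) (nat_lit 380) (.e (nat_lit 164359) (nat_lit 246) (.e (nat_lit 2661) (nat_lit 167) (.e (nat_lit 196672) (nat_lit 15) .nil)))) (.g (nat_lit 0) (.e (nat_lit 118399) (nat_lit 0) .nil) .nil))))) (.nd (nat_lit 8) (.nd (nat_lit 9) 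
(.lf (nat_lit 481459) (.g (nat_lit 3261) (.e (nat_lit 5546) (nat_lit 306) (.e (nat_lit 2619) (nat_lit 164) (.e (nat_lit 172120) (nat_lit 12) (.e (nat_lit 475211) (nat_lit 41) (.e (nat_lit 712753) (nat_lit 30) (.e (nat_lit 458496) (nat_lit 0) .nil)))))) (.g (nat_lit 1) (.e (nat_lit 113892) (nat_lit 0) .nil) .nil))) 
(.lf (nat_lit 481971) (.g (nat_lit 812) (.e (nat_lit 7016) (nat_lit 377) (.e (nat_lit 2797) (nat_lit 180) (.e (nat_lit 303119) (nat_lit 3) .nil))) (.g (nat_lit 0) (.e (nat_lit 118108) (nat_lit 0) .nil) .nil)))) (.nd (nat_lit 9) 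
(.lf (nat_lit 481715) (.g (nat_lit 1820) (.e (nat_lit 5593) (nat_lit 310) (.e (nat_lit 163875) (nat_lit 3) (.e (nat_lit 204863) (nat_lit 27) (.e (nat_lit 344128) (nat_lit 26) .nil)))) (.g (nat_lit 0) (.e (nat_lit 116041) (nat_lit 0) .nil) .nil))) 
(.lf (nat_lit 482227) (.g (nat_lit 5024) (.e (nat_lit 7261) (nat_lit 384) (.e (nat_lit 57432) (nat_lit 16) (.e (nat_lit 368676) (nat_lit 21) (.e (nat_lit 516166) (nat_lit 12) (.e (nat_lit 450587) (nat_lit 10) (.e (nat_lit 573477) (nat_lit 12) (.e (nat_lit 57353) (nat_lit 0) .nil))))))) (.g (nat_lit 1) (.e (nat_lit 118875) (nat_lit 0) .nil) .nil)))))) 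
(.nd (nat_lit 7) (.nd (nat_lit 8) (.nd (nat_lit 9) 
(.lf (nat_lit 481395) (.g (nat_lit 2874) (.e (nat_lit 5543) (nat_lit 306) (.e (nat_lit 2629) (nat_lit 164) (.e (nat_lit 172124) (nat_lit 14) (.e (nat_lit 491549) (nat_lit 9) (.e (nat_lit 336434) (nat_lit 30) (.e (nat_lit 458496) (nat_lit 0) .nil)))))) (.g (nat_lit 1) (.e (nat_lit 113601) (nat_lit 0) .nil) .nil))) 
(.lf (nat_lit 481907) (.g (nat_lit 2056) (.e (nat_lit 6986) (nat_lit 377) (.e (nat_lit 2810) (nat_lit 180) (.e (nat_lit 303117) (nat_lit 2) (.e (nat_lit 196672) (nat_lit 15) (.e (nat_lit 81954) (nat_lit 23) .nil))))) (.g (nat_lit 0) (.e (nat_lit 117956) (nat_lit 0) .nil) .nil)))) (.nd (nat_lit 9) 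
(.lf (nat_lit 481651) (.g (nat_lit 1480) (.e (nat_lit 5586) (nat_lit 310) (.e (nat_lit 163905) (nat_lit 12) (.e (nat_lit 426320) (nat_lit 12) (.e (nat_lit 475210) (nat_lit 41) .nil)))) (.g (nat_lit 0) (.e (nat_lit 115106) (nat_lit 0) .nil) .nil))) 
(.lf (nat_lit 482163) (.g (nat_lit 2970) (.e (nat_lit 7290) (nat_lit 386) (.e (nat_lit 163864) (nat_lit 1) (.e (nat_lit 164332) (nat_lit 230) (.e (nat_lit 163902) (nat_lit 12) (.e (nat_lit 426472) (nat_lit 25) (.e (nat_lit 319533) (nat_lit 16) (.e (nat_lit 286753) (nat_lit 10) (.e (nat_lit 344087) (nat_lit 18) .nil)))))))) (.g (nat_lit 1) (.e (nat_lit 118752) (nat_lit 0) .nil) .nil))))) 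
(.nd (nat_lit 8) (.nd (nat_lit 9) 
(.lf (nat_lit 481523) (.g (nat_lit 2928) (.e (nat_lit 5547) (nat_lit 306) (.e (nat_lit 2610) (nat_lit 163) (.e (nat_lit 163979) (nat_lit 30) (.e (nat_lit 573481) (nat_lit 13) (.e (nat_lit 65604) (nat_lit 9) .nil))))) (.g (nat_lit 0) (.e (nat_lit 114210) (nat_lit 0) .nil) .nil))) 
(.lf (nat_lit 482035) (.g (nat_lit 2053) (.e (nat_lit 7936) (nat_lit 377) (.e (nat_lit 2797) (nat_lit 180) (.e (nat_lit 303119) (nat_lit 3) (.e (nat_lit 204860) (nat_lit 26) (.e (nat_lit 336186) (nat_lit 11) .nil))))) (.g (nat_lit 0) (.e (nat_lit 118215) (nat_lit 0) .nil) .nil)))) (.nd (nat_lit 9) 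
(.lf (nat_lit 481779) (.g (nat_lit 1344) (.e (nat_lit 5603) (nat_lit 310) (.e (nat_lit 163905) (nat_lit 12) (.e (nat_lit 426320) (nat_lit 12) (.e (nat_lit 475209) (nat_lit 41) .nil)))) (.g (nat_lit 0) (.e (nat_lit 117454) (nat_lit 0) .nil) .nil))) 
(.lf (nat_lit 482291) (.g (nat_lit 6582) (.e (nat_lit 7265) (nat_lit 384) (.e (nat_lit 57406) (nat_lit 12) (.e (nat_lit 336019) (nat_lit 3) (.e (nat_lit 98373) (nat_lit 29) (.e (nat_lit 450588) (nat_lit 10) (.e (nat_lit 573475) (nat_lit 12) (.e (nat_lit 57351) (nat_lit 0) .nil))))))) (.g (nat_lit 1) (.e (nat_lit 118948) (nat_lit 0) .nil) .nil))))))))) 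
(.nd (nat_lit 4) (.nd (nat_lit 5) (.nd (nat_lit 6) (.nd (nat_lit 7) (.nd (nat_lit 8) 
(.nd (nat_lit 9) 
(.lf (nat_lit 481291) (.g (nat_lit 2413) (.e (nat_lit 5394) (nat_lit 301) (.e (nat_lit 57464) (nat_lit 23) (.e (nat_lit 516165) (nat_lit 12) (.e (nat_lit 450586) (nat_lit 10) (.e (nat_lit 573457) (nat_lit 9) (.e (nat_lit 359) (nat_lit 30) (.e (nat_lit 409604) (nat_lit 0) .nil))))))) (.g (nat_lit 1) (.e (nat_lit 112930) (nat_lit 0) .nil) .nil))) 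
(.lf (nat_lit 481803) (.g (nat_lit 4040) (.e (nat_lit 6853) (nat_lit 371) (.e (nat_lit 2450) (nat_lit 157) (.e (nat_lit 3098) (nat_lit 192) (.e (nat_lit 491569) (nat_lit 13) (.e (nat_lit 393301) (nat_lit 27) (.e (nat_lit 491558) (nat_lit 10) (.e (nat_lit 344091) (nat_lit 18) .nil))))))) (.g (nat_lit 1) (.e (nat_lit 117748) (nat_lit 0) .nil) .nil)))) (.nd (nat_lit 9) 
(.lf (nat_lit 481547) (.g (nat_lit 2278) (.e (nat_lit 5547) (nat_lit 306) (.e (nat_lit 2628) (nat_lit 164) (.e (nat_lit 172118) (nat_lit 12) (.e (nat_lit 475210) (nat_lit 41) (.e (nat_lit 712753) (nat_lit 30) (.e (nat_lit 458496) (nat_lit 0) .nil)))))) (.g (nat_lit 1) (.e (nat_lit 114319) (nat_lit 0) .nil) .nil))) 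
(.lf (nat_lit 482059) (.g (nat_lit 2297) (.e (nat_lit 7096) (nat_lit 380) (.e (nat_lit 164287) (nat_lit 224) (.e (nat_lit 164092) (nat_lit 82) (.e (nat_lit 500046) (nat_lit 16) (.e (nat_lit 16466) (nat_lit 13) (.e (nat_lit 491264) (nat_lit 0) .nil)))))) (.g (nat_lit 1) (.e (nat_lit 118260) (nat_lit 0) .nil) .nil))))) (.nd (nat_lit 8) (.nd (nat_lit 9) 
(.lf (nat_lit 481419) (.g (nat_lit 4018) (.e (nat_lit 5546) (nat_lit 306) (.e (nat_lit 2601) (nat_lit 163) (.e (nat_lit 163977) (nat_lit 30) (.e (nat_lit 573485) (nat_lit 13) (.e (nat_lit 65604) (nat_lit 9) (.e (nat_lit 336013) (nat_lit 2) (.e (nat_lit 90170) (nat_lit 13) (.e (nat_lit 172046) (nat_lit 0) (.e (nat_lit 2458) (nat_lit 157) .nil))))))))) (.g (nat_lit 1) (.e (nat_lit 113764) (nat_lit 0) .nil) .nil))) 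
(.lf (nat_lit 481931) (.g (nat_lit 3115) (.e (nat_lit 7011) (nat_lit 377) (.e (nat_lit 2797) (nat_lit 180) (.e (nat_lit 303117) (nat_lit 2) (.e (nat_lit 196666) (nat_lit 13) (.e (nat_lit 65610) (nat_lit 10) .nil))))) (.g (nat_lit 0) (.e (nat_lit 118046) (nat_lit 0) .nil) .nil)))) (.nd (nat_lit 9) 
(.lf (nat_lit 481675) (.g (nat_lit 1876) (.e (nat_lit 5587) (nat_lit 310) (.e (nat_lit 163906) (nat_lit 12) (.e (nat_lit 426320) (nat_lit 12) (.e (nat_lit 475209) (nat_lit 41) (.e (nat_lit 712753) (nat_lit 30) (.e (nat_lit 458496) (nat_lit 0) .nil)))))) (.g (nat_lit 1) (.e (nat_lit 115360) (nat_lit 0) .nil) .nil))) 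
(.lf (nat_lit 482187) (.g (nat_lit 2908) (.e (nat_lit 7261) (nat_lit 384) (.e (nat_lit 57407) (nat_lit 12) (.e (nat_lit 336019) (nat_lit 3) (.e (nat_lit 98372) (nat_lit 29) (.e (nat_lit 450586) (nat_lit 10) (.e (nat_lit 573473) (nat_lit 12) (.e (nat_lit 57347) (nat_lit 0) .nil))))))) (.g (nat_lit 1) (.e (nat_lit 118833) (nat_lit 0) .nil) .nil)))))) 
(.nd (nat_lit 7) (.nd (nat_lit 8) (.nd (nat_lit 9) 
(.lf (nat_lit 481355) (.g (nat_lit 5866) (.e (nat_lit 5448) (nat_lit 306) (.e (nat_lit 2612) (nat_lit 163) (.e (nat_lit 163977) (nat_lit 30) (.e (nat_lit 573493) (nat_lit 15) (.e (nat_lit 81953) (nat_lit 22) (.e (nat_lit 90173) (nat_lit 14) (.e (nat_lit 180232) (nat_lit 0) .nil))))))) (.g (nat_lit 1) (.e (nat_lit 113297) (nat_lit 0) .nil) .nil))) 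
(.lf (nat_lit 481867) (.g (nat_lit 1508) (.e (nat_lit 6970) (nat_lit 377) (.e (nat_lit 1374) (nat_lit 104) (.e (nat_lit 303119) (nat_lit 3) (.e (nat_lit 204846) (nat_lit 24) .nil)))) (.g (nat_lit 0) (.e (nat_lit 117863) (nat_lit 0) .nil) .nil)))) (.nd (nat_lit 9) 
(.lf (nat_lit 481611) (.g (nat_lit 3839) (.e (nat_lit 5548) (nat_lit 306) (.e (nat_lit 2610) (nat_lit 163) (.e (nat_lit 163979) (nat_lit 30) (.e (nat_lit 573482) (nat_lit 13) (.e (nat_lit 65604) (nat_lit 9) (.e (nat_lit 336013) (nat_lit 2) (.e (nat_lit 90170) (nat_lit 13) (.e (nat_lit 172049) (nat_lit 0) (.e (nat_lit 2458) (nat_lit 157) .nil))))))))) (.g (nat_lit 1) (.e (nat_lit 114553) (nat_lit 0) .nil) .nil))) 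
(.lf (nat_lit 482123) (.g (nat_lit 979) (.e (nat_lit 7280) (nat_lit 386) (.e (nat_lit 163875) (nat_lit 3) (.e (nat_lit 204830) (nat_lit 18) .nil))) (.g (nat_lit 0) (.e (nat_lit 118615) (nat_lit 0) .nil) .nil))))) (.nd (nat_lit 8) (.nd (nat_lit 9) 
(.lf (nat_lit 481483) (.g (nat_lit 3663) (.e (nat_lit 5546) (nat_lit 306) (.e (nat_lit 2638) (nat_lit 165) (.e (nat_lit 180278) (nat_lit 32) (.e (nat_lit 1661) (nat_lit 115) (.e (nat_lit 393282) (nat_lit 24) (.e (nat_lit 434209) (nat_lit 18) .nil)))))) (.g (nat_lit 1) (.e (nat_lit 114002) (nat_lit 0) .nil) .nil))) 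
(.lf (nat_lit 481995) (.g (nat_lit 475) (.e (nat_lit 7073) (nat_lit 377) (.e (nat_lit 2797) (nat_lit 180) (.e (nat_lit 303119) (nat_lit 3) .nil))) (.g (nat_lit 0) (.e (nat_lit 118150) (nat_lit 0) .nil) .nil)))) (.nd (nat_lit 9) 
(.lf (nat_lit 481739) (.g (nat_lit 2303) (.e (nat_lit 5598) (nat_lit 310) (.e (nat_lit 163874) (nat_lit 3) (.e (nat_lit 204854) (nat_lit 26) (.e (nat_lit 336019) (nat_lit 3) (.e (nat_lit 98342) (nat_lit 20) .nil))))) (.g (nat_lit 0) (.e (nat_lit 116628) (nat_lit 0) .nil) .nil))) 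
(.lf (nat_lit 482251) (.g (nat_lit 451) (.e (nat_lit 7265) (nat_lit 384) (.e (nat_lit 57389) (nat_lit 5) (.e (nat_lit 114702) (nat_lit 20) .nil))) (.g (nat_lit 0) (.e (nat_lit 118903) (nat_lit 0) .nil) .nil))))))) (.nd (nat_lit 6) (.nd (nat_lit 7) (.nd (nat_lit 8) (.nd (nat_lit 9) 
(.lf (nat_lit 481323) (.g (nat_lit 2077) (.e (nat_lit 5399) (nat_lit 302) (.e (nat_lit 65653) (nat_lit 27) (.e (nat_lit 426011) (nat_lit 0) (.e (nat_lit 7587) (nat_lit 406) (.e (nat_lit 65647) (nat_lit 25) .nil))))) (.g (nat_lit 0) (.e (nat_lit 112977) (nat_lit 0) .nil) .nil))) 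
(.lf (nat_lit 481835) (.g (nat_lit 3075) (.e (nat_lit 6943) (nat_lit 375) (.e (nat_lit 163945) (nat_lit 20) (.e (nat_lit 491569) (nat_lit 13) (.e (nat_lit 393301) (nat_lit 27) (.e (nat_lit 491560) (nat_lit 10) (.e (nat_lit 344088) (nat_lit 18) .nil)))))) (.g (nat_lit 1) (.e (nat_lit 117809) (nat_lit 0) .nil) .nil)))) (.nd (nat_lit 9) 
(.lf (nat_lit 481579) (.g (nat_lit 2082) (.e (nat_lit 5547) (nat_lit 306) (.e (nat_lit 2648) (nat_lit 166) (.e (nat_lit 188420) (nat_lit 0) (.e (nat_lit 2174) (nat_lit 143) (.e (nat_lit 712755) (nat_lit 30) (.e (nat_lit 458496) (nat_lit 0) .nil)))))) (.g (nat_lit 1) (.e (nat_lit 114409) (nat_lit 0) .nil) .nil))) 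
(.lf (nat_lit 482091) (.g (nat_lit 1167) (.e (nat_lit 7106) (nat_lit 380) (.e (nat_lit 164291) (nat_lit 224) (.e (nat_lit 164092) (nat_lit 82) (.e (nat_lit 500046) (nat_lit 16) (.e (nat_lit 16463) (nat_lit 13) (.e (nat_lit 491264) (nat_lit 0) .nil)))))) (.g (nat_lit 1) (.e (nat_lit 118362) (nat_lit 0) .nil) .nil))))) (.nd (nat_lit 8) (.nd (nat_lit 9) 
(.lf (nat_lit 481451) (.g (nat_lit 2120) (.e (nat_lit 5546) (nat_lit 306) (.e (nat_lit 2618) (nat_lit 164) (.e (nat_lit 172124) (nat_lit 14) (.e (nat_lit 491550) (nat_lit 9) (.e (nat_lit 336432) (nat_lit 30) (.e (nat_lit 458496) (nat_lit 0) .nil)))))) (.g (nat_lit 1) (.e (nat_lit 113849) (nat_lit 0) .nil) .nil))) 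
(.lf (nat_lit 481963) (.g (nat_lit 2080) (.e (nat_lit 7015) (nat_lit 377) (.e (nat_lit 2797) (nat_lit 180) (.e (nat_lit 303117) (nat_lit 2) (.e (nat_lit 196673) (nat_lit 15) (.e (nat_lit 81956) (nat_lit 23) .nil))))) (.g (nat_lit 0) (.e (nat_lit 118096) (nat_lit 0) .nil) .nil)))) (.nd (nat_lit 9) 
(.lf (nat_lit 481707) (.g (nat_lit 1616) (.e (nat_lit 5589) (nat_lit 310) (.e (nat_lit 163907) (nat_lit 12) (.e (nat_lit 426320) (nat_lit 12) (.e (nat_lit 475211) (nat_lit 41) .nil)))) (.g (nat_lit 0) (.e (nat_lit 115856) (nat_lit 0) .nil) .nil))) 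
(.lf (nat_lit 482219) (.g (nat_lit 1130) (.e (nat_lit 7261) (nat_lit 384) (.e (nat_lit 57412) (nat_lit 12) (.e (nat_lit 336083) (nat_lit 9) (.e (nat_lit 336438) (nat_lit 31) (.e (nat_lit 466688) (nat_lit 5) (.e (nat_lit 73730) (nat_lit 0) .nil)))))) (.g (nat_lit 1) (.e (nat_lit 118866) (nat_lit 0) .nil) .nil)))))) (.nd (nat_lit 7) (.nd (nat_lit 8) (.nd (nat_lit 9) 
(.lf (nat_lit 481387) (.g (nat_lit 2525) (.e (nat_lit 5543) (nat_lit 306) (.e (nat_lit 2628) (nat_lit 164) (.e (nat_lit 172118) (nat_lit 12) (.e (nat_lit 475211) (nat_lit 41) (.e (nat_lit 712755) (nat_lit 30) (.e (nat_lit 458496) (nat_lit 0) .nil)))))) (.g (nat_lit 1) (.e (nat_lit 113573) (nat_lit 0) .nil) .nil))) 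
(.lf (nat_lit 481899) (.g (nat_lit 1379) (.e (nat_lit 6989) (nat_lit 377) (.e (nat_lit 1361) (nat_lit 102) (.e (nat_lit 286743) (nat_lit 9) (.e (nat_lit 336430) (nat_lit 29) (.e (nat_lit 442430) (nat_lit 24) .nil))))) (.g (nat_lit 0) (.e (nat_lit 117946) (nat_lit 0) .nil) .nil)))) (.nd (nat_lit 9) 
(.lf (nat_lit 481643) (.g (nat_lit 817) (.e (nat_lit 5584) (nat_lit 310) (.e (nat_lit 163907) (nat_lit 12) (.e (nat_lit 426320) (nat_lit 12) .nil))) (.g (nat_lit 0) (.e (nat_lit 114965) (nat_lit 0) .nil) .nil))) 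
(.lf (nat_lit 482155) (.g (nat_lit 910) (.e (nat_lit 7289) (nat_lit 386) (.e (nat_lit 163875) (nat_lit 3) (.e (nat_lit 204837) (nat_lit 20) .nil))) (.g (nat_lit 0) (.e (nat_lit 118728) (nat_lit 0) .nil) .nil))))) (.nd (nat_lit 8) (.nd (nat_lit 9) 
(.lf (nat_lit 481515) (.g (nat_lit 2473) (.e (nat_lit 5547) (nat_lit 306) (.e (nat_lit 2610) (nat_lit 163) (.e (nat_lit 163978) (nat_lit 30) (.e (nat_lit 573484) (nat_lit 13) (.e (nat_lit 65610) (nat_lit 10) (.e (nat_lit 344117) (nat_lit 21) (.e (nat_lit 516145) (nat_lit 9) (.e (nat_lit 425985) (nat_lit 0) (.e (nat_lit 2475) (nat_lit 157) .nil))))))))) (.g (nat_lit 1) (.e (nat_lit 114198) (nat_lit 0) .nil) .nil))) 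
(.lf (nat_lit 482027) (.g (nat_lit 2348) (.e (nat_lit 7936) (nat_lit 377) (.e (nat_lit 2797) (nat_lit 180) (.e (nat_lit 303117) (nat_lit 2) (.e (nat_lit 196666) (nat_lit 13) (.e (nat_lit 65619) (nat_lit 10) .nil))))) (.g (nat_lit 0) (.e (nat_lit 118205) (nat_lit 0) .nil) .nil)))) (.nd (nat_lit 9) 
(.lf (nat_lit 481771) (.g (nat_lit 677) (.e (nat_lit 5601) (nat_lit 310) (.e (nat_lit 163874) (nat_lit 3) (.e (nat_lit 204861) (nat_lit 26) .nil))) (.g (nat_lit 0) (.e (nat_lit 117278) (nat_lit 0) .nil) .nil))) 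
(.lf (nat_lit 482283) (.g (nat_lit 5540) (.e (nat_lit 7265) (nat_lit 384) (.e (nat_lit 57406) (nat_lit 12) (.e (nat_lit 336019) (nat_lit 3) (.e (nat_lit 98373) (nat_lit 29) (.e (nat_lit 450587) (nat_lit 10) (.e (nat_lit 573477) (nat_lit 12) (.e (nat_lit 57353) (nat_lit 0) .nil))))))) (.g (nat_lit 1) (.e (nat_lit 118940) (nat_lit 0) .nil) .nil)))))))) 
(.nd (nat_lit 5) (.nd (nat_lit 6) (.nd (nat_lit 7) (.nd (nat_lit 8) (.nd (nat_lit 9) 
(.lf (nat_lit 481307) (.g (nat_lit 2072) (.e (nat_lit 5395) (nat_lit 301) (.e (nat_lit 57464) (nat_lit 23) (.e (nat_lit 516151) (nat_lit 9) (.e (nat_lit 426286) (nat_lit 10) (.e (nat_lit 434234) (nat_lit 23) .nil))))) (.g (nat_lit 0) (.e (nat_lit 112950) (nat_lit 0) .nil) .nil))) 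
(.lf (nat_lit 481819) (.g (nat_lit 3409) (.e (nat_lit 6940) (nat_lit 375) (.e (nat_lit 163945) (nat_lit 20) (.e (nat_lit 491569) (nat_lit 13) (.e (nat_lit 393301) (nat_lit 27) (.e (nat_lit 491558) (nat_lit 10) (.e (nat_lit 344096) (nat_lit 18) .nil)))))) (.g (nat_lit 1) (.e (nat_lit 117786) (nat_lit 0) .nil) .nil)))) (.nd (nat_lit 9) 
(.lf (nat_lit 481563) (.g (nat_lit 2310) (.e (nat_lit 5547) (nat_lit 306) (.e (nat_lit 2629) (nat_lit 164) (.e (nat_lit 172126) (nat_lit 14) (.e (nat_lit 491549) (nat_lit 9) (.e (nat_lit 336432) (nat_lit 30) (.e (nat_lit 458496) (nat_lit 0) .nil)))))) (.g (nat_lit 1) (.e (nat_lit 114376) (nat_lit 0) .nil) .nil))) 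
(.lf (nat_lit 482075) (.g (nat_lit 2305) (.e (nat_lit 7098) (nat_lit 380) (.e (nat_lit 164359) (nat_lit 246) (.e (nat_lit 2679) (nat_lit 168) (.e (nat_lit 204868) (nat_lit 29) (.e (nat_lit 360466) (nat_lit 3) (.e (nat_lit 524032) (nat_lit 0) .nil)))))) (.g (nat_lit 1) (.e (nat_lit 118306) (nat_lit 0) .nil) .nil))))) (.nd (nat_lit 8) (.nd (nat_lit 9) 
(.lf (nat_lit 481435) (.g (nat_lit 2483) (.e (nat_lit 5546) (nat_lit 306) (.e (nat_lit 2610) (nat_lit 163) (.e (nat_lit 163979) (nat_lit 30) (.e (nat_lit 573482) (nat_lit 13) (.e (nat_lit 65619) (nat_lit 10) (.e (nat_lit 344117) (nat_lit 21) (.e (nat_lit 516151) (nat_lit 9) (.e (nat_lit 426043) (nat_lit 0) (.e (nat_lit 2458) (nat_lit 157) .nil))))))))) (.g (nat_lit 1) (.e (nat_lit 113791) (nat_lit 0) .nil) .nil))) 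
(.lf (nat_lit 481947) (.g (nat_lit 3640) (.e (nat_lit 7013) (nat_lit 377) (.e (nat_lit 2797) (nat_lit 180) (.e (nat_lit 303119) (nat_lit 3) (.e (nat_lit 204861) (nat_lit 26) (.e (nat_lit 336186) (nat_lit 11) .nil))))) (.g (nat_lit 0) (.e (nat_lit 118074) (nat_lit 0) .nil) .nil)))) (.nd (nat_lit 9) 
(.lf (nat_lit 481691) (.g (nat_lit 1910) (.e (nat_lit 5587) (nat_lit 310) (.e (nat_lit 163933) (nat_lit 17) (.e (nat_lit 466947) (nat_lit 0) (.e (nat_lit 2175) (nat_lit 143) (.e (nat_lit 712753) (nat_lit 30) (.e (nat_lit 458496) (nat_lit 0) .nil)))))) (.g (nat_lit 1) (.e (nat_lit 115425) (nat_lit 0) .nil) .nil))) 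
(.lf (nat_lit 482203) (.g (nat_lit 6246) (.e (nat_lit 7261) (nat_lit 384) (.e (nat_lit 57407) (nat_lit 12) (.e (nat_lit 336019) (nat_lit 3) (.e (nat_lit 98373) (nat_lit 29) (.e (nat_lit 450588) (nat_lit 10) (.e (nat_lit 573473) (nat_lit 12) (.e (nat_lit 57353) (nat_lit 0) .nil))))))) (.g (nat_lit 1) (.e (nat_lit 118849) (nat_lit 0) .nil) .nil)))))) 
(.nd (nat_lit 7) (.nd (nat_lit 8) (.nd (nat_lit 9) 
(.lf (nat_lit 481371) (.g (nat_lit 3002) (.e (nat_lit 5537) (nat_lit 306) (.e (nat_lit 2611) (nat_lit 163) (.e (nat_lit 163978) (nat_lit 30) (.e (nat_lit 573479) (nat_lit 13) (.e (nat_lit 65619) (nat_lit 10) (.e (nat_lit 344117) (nat_lit 21) (.e (nat_lit 516151) (nat_lit 9) (.e (nat_lit 426042) (nat_lit 0) (.e (nat_lit 2427) (nat_lit 157) .nil))))))))) (.g (nat_lit 1) (.e (nat_lit 113478) (nat_lit 0) .nil) .nil))) 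
(.lf (nat_lit 481883) (.g (nat_lit 2051) (.e (nat_lit 6989) (nat_lit 377) (.e (nat_lit 2810) (nat_lit 180) (.e (nat_lit 303119) (nat_lit 3) (.e (nat_lit 204861) (nat_lit 26) (.e (nat_lit 336185) (nat_lit 11) .nil))))) (.g (nat_lit 0) (.e (nat_lit 117896) (nat_lit 0) .nil) .nil)))) (.nd (nat_lit 9) 
(.lf (nat_lit 481627) (.g (nat_lit 5159) (.e (nat_lit 5548) (nat_lit 306) (.e (nat_lit 2611) (nat_lit 163) (.e (nat_lit 163978) (nat_lit 30) (.e (nat_lit 573479) (nat_lit 13) (.e (nat_lit 65619) (nat_lit 10) (.e (nat_lit 344117) (nat_lit 21) (.e (nat_lit 516170) (nat_lit 13) (.e (nat_lit 458774) (nat_lit 18) .nil)))))))) (.g (nat_lit 1) (.e (nat_lit 114583) (nat_lit 0) .nil) .nil))) 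
(.lf (nat_lit 482139) (.g (nat_lit 2599) (.e (nat_lit 7281) (nat_lit 386) (.e (nat_lit 163874) (nat_lit 3) (.e (nat_lit 204829) (nat_lit 18) (.e (nat_lit 57847) (nat_lit 252) (.e (nat_lit 57410) (nat_lit 12) .nil))))) (.g (nat_lit 0) (.e (nat_lit 118647) (nat_lit 0) .nil) .nil))))) (.nd (nat_lit 8) (.nd (nat_lit 9) 
(.lf (nat_lit 481499) (.g (nat_lit 2314) (.e (nat_lit 5546) (nat_lit 306) (.e (nat_lit 2648) (nat_lit 166) (.e (nat_lit 188420) (nat_lit 0) (.e (nat_lit 2174) (nat_lit 143) (.e (nat_lit 712753) (nat_lit 30) (.e (nat_lit 458496) (nat_lit 0) .nil)))))) (.g (nat_lit 1) (.e (nat_lit 114027) (nat_lit 0) .nil) .nil))) 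
(.lf (nat_lit 482011) (.g (nat_lit 3252) (.e (nat_lit 7064) (nat_lit 377) (.e (nat_lit 1349) (nat_lit 102) (.e (nat_lit 286735) (nat_lit 3) (.e (nat_lit 98353) (nat_lit 25) (.e (nat_lit 417809) (nat_lit 6) (.e (nat_lit 286733) (nat_lit 2) (.e (nat_lit 90133) (nat_lit 9) (.e (nat_lit 2397) (nat_lit 157) .nil)))))))) (.g (nat_lit 1) (.e (nat_lit 118185) (nat_lit 0) .nil) .nil)))) (.nd (nat_lit 9) 
(.lf (nat_lit 481755) (.g (nat_lit 2307) (.e (nat_lit 5599) (nat_lit 310) (.e (nat_lit 163900) (nat_lit 12) (.e (nat_lit 426317) (nat_lit 12) (.e (nat_lit 475211) (nat_lit 41) (.e (nat_lit 712755) (nat_lit 30) (.e (nat_lit 450568) (nat_lit 0) .nil)))))) (.g (nat_lit 1) (.e (nat_lit 117112) (nat_lit 0) .nil) .nil))) 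
(.lf (nat_lit 482267) (.g (nat_lit 3031) (.e (nat_lit 7265) (nat_lit 384) (.e (nat_lit 57406) (nat_lit 12) (.e (nat_lit 336019) (nat_lit 3) (.e (nat_lit 98359) (nat_lit 26) (.e (nat_lit 426286) (nat_lit 10) (.e (nat_lit 434245) (nat_lit 28) (.e (nat_lit 573473) (nat_lit 12) (.e (nat_lit 57353) (nat_lit 0) .nil)))))))) (.g (nat_lit 1) (.e (nat_lit 118924) (nat_lit 0) .nil) .nil))))))) 
(.nd (nat_lit 6) (.nd (nat_lit 7) (.nd (nat_lit 8) (.nd (nat_lit 9) 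
(.lf (nat_lit 481339) (.g (nat_lit 1996) (.e (nat_lit 5411) (nat_lit 303) (.e (nat_lit 73775) (nat_lit 26) (.e (nat_lit 778466) (nat_lit 11) (.e (nat_lit 24632) (nat_lit 9) (.e (nat_lit 336358) (nat_lit 25) .nil))))) (.g (nat_lit 0) (.e (nat_lit 113057) (nat_lit 0) .nil) .nil))) 
(.lf (nat_lit 481851) (.g (nat_lit 3201) (.e (nat_lit 6966) (nat_lit 377) (.e (nat_lit 2797) (nat_lit 180) (.e (nat_lit 303117) (nat_lit 2) (.e (nat_lit 196666) (nat_lit 13) (.e (nat_lit 65619) (nat_lit 10) .nil))))) (.g (nat_lit 0) (.e (nat_lit 117830) (nat_lit 0) .nil) .nil)))) (.nd (nat_lit 9) 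
(.lf (nat_lit 481595) (.g (nat_lit 3914) (.e (nat_lit 5548) (nat_lit 306) (.e (nat_lit 2610) (nat_lit 163) (.e (nat_lit 163978) (nat_lit 30) (.e (nat_lit 573479) (nat_lit 13) (.e (nat_lit 65604) (nat_lit 9) (.e (nat_lit 336013) (nat_lit 2) (.e (nat_lit 90170) (nat_lit 13) (.e (nat_lit 172046) (nat_lit 0) (.e (nat_lit 2458) (nat_lit 157) .nil))))))))) (.g (nat_lit 1) (.e (nat_lit 114532) (nat_lit 0) .nil) .nil))) 
(.lf (nat_lit 482107) (.g (nat_lit 888) (.e (nat_lit 7085) (nat_lit 379) (.e (nat_lit 123162) (nat_lit 256) (.e (nat_lit 2685) (nat_lit 168) (.e (nat_lit 204846) (nat_lit 24) .nil)))) (.g (nat_lit 0) (.e (nat_lit 118433) (nat_lit 0) .nil) .nil))))) (.nd (nat_lit 8) (.nd (nat_lit 9) 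
(.lf (nat_lit 481467) (.g (nat_lit 2728) (.e (nat_lit 5546) (nat_lit 306) (.e (nat_lit 2629) (nat_lit 164) (.e (nat_lit 172124) (nat_lit 14) (.e (nat_lit 491549) (nat_lit 9) (.e (nat_lit 336434) (nat_lit 30) (.e (nat_lit 458496) (nat_lit 0) .nil)))))) (.g (nat_lit 1) (.e (nat_lit 113968) (nat_lit 0) .nil) .nil))) 
(.lf (nat_lit 481979) (.g (nat_lit 2568) (.e (nat_lit 7016) (nat_lit 377) (.e (nat_lit 2817) (nat_lit 181) (.e (nat_lit 311312) (nat_lit 2) (.e (nat_lit 196666) (nat_lit 13) (.e (nat_lit 65619) (nat_lit 10) .nil))))) (.g (nat_lit 0) (.e (nat_lit 118120) (nat_lit 0) .nil) .nil)))) (.nd (nat_lit 9) 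
(.lf (nat_lit 481723) (.g (nat_lit 2133) (.e (nat_lit 5594) (nat_lit 310) (.e (nat_lit 163908) (nat_lit 12) (.e (nat_lit 426305) (nat_lit 12) (.e (nat_lit 475211) (nat_lit 41) (.e (nat_lit 712753) (nat_lit 30) (.e (nat_lit 458496) (nat_lit 0) .nil)))))) (.g (nat_lit 1) (.e (nat_lit 116105) (nat_lit 0) .nil) .nil))) 
(.lf (nat_lit 482235) (.g (nat_lit 5917) (.e (nat_lit 7261) (nat_lit 384) (.e (nat_lit 57432) (nat_lit 16) (.e (nat_lit 368676) (nat_lit 21) (.e (nat_lit 516166) (nat_lit 12) (.e (nat_lit 450588) (nat_lit 10) (.e (nat_lit 573475) (nat_lit 12) (.e (nat_lit 57351) (nat_lit 0) .nil))))))) (.g (nat_lit 1) (.e (nat_lit 118883) (nat_lit 0) .nil) .nil)))))) 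
(.nd (nat_lit 7) (.nd (nat_lit 8) (.nd (nat_lit 9) 
(.lf (nat_lit 481403) (.g (nat_lit 2022) (.e (nat_lit 5543) (nat_lit 306) (.e (nat_lit 2638) (nat_lit 165) (.e (nat_lit 180278) (nat_lit 32) (.e (nat_lit 1428) (nat_lit 108) (.e (nat_lit 336434) (nat_lit 30) (.e (nat_lit 458496) (nat_lit 0) .nil)))))) (.g (nat_lit 1) (.e (nat_lit 113622) (nat_lit 0) .nil) .nil))) 
(.lf (nat_lit 481915) (.g (nat_lit 2452) (.e (nat_lit 6986) (nat_lit 377) (.e (nat_lit 2777) (nat_lit 178) (.e (nat_lit 286765) (nat_lit 15) (.e (nat_lit 3307) (nat_lit 202) (.e (nat_lit 573482) (nat_lit 13) .nil))))) (.g (nat_lit 0) (.e (nat_lit 117975) (nat_lit 0) .nil) .nil)))) (.nd (nat_lit 9) 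
(.lf (nat_lit 481659) (.g (nat_lit 1603) (.e (nat_lit 5587) (nat_lit 310) (.e (nat_lit 163869) (nat_lit 2) (.e (nat_lit 196670) (nat_lit 14) (.e (nat_lit 73746) (nat_lit 3) .nil)))) (.g (nat_lit 0) (.e (nat_lit 115186) (nat_lit 0) .nil) .nil))) 
(.lf (nat_lit 482171) (.g (nat_lit 269) (.e (nat_lit 7261) (nat_lit 384) (.e (nat_lit 57382) (nat_lit 4) (.e (nat_lit 106517) (nat_lit 9) .nil))) (.g (nat_lit 0) (.e (nat_lit 118810) (nat_lit 0) .nil) .nil))))) (.nd (nat_lit 8) (.nd (nat_lit 9) 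
(.lf (nat_lit 481531) (.g (nat_lit 2772) (.e (nat_lit 5547) (nat_lit 306) (.e (nat_lit 2611) (nat_lit 163) (.e (nat_lit 163978) (nat_lit 30) (.e (nat_lit 573479) (nat_lit 13) (.e (nat_lit 65619) (nat_lit 10) .nil))))) (.g (nat_lit 0) (.e (nat_lit 114227) (nat_lit 0) .nil) .nil))) 
(.lf (nat_lit 482043) (.g (nat_lit 1534) (.e (nat_lit 7936) (nat_lit 377) (.e (nat_lit 2797) (nat_lit 180) (.e (nat_lit 303119) (nat_lit 3) (.e (nat_lit 204875) (nat_lit 31) .nil)))) (.g (nat_lit 0) (.e (nat_lit 118230) (nat_lit 0) .nil) .nil)))) (.nd (nat_lit 9) 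
(.lf (nat_lit 481787) (.g (nat_lit 1621) (.e (nat_lit 7936) (nat_lit 310) (.e (nat_lit 163905) (nat_lit 12) (.e (nat_lit 426320) (nat_lit 12) (.e (nat_lit 475209) (nat_lit 41) (.e (nat_lit 712755) (nat_lit 30) .nil))))) (.g (nat_lit 0) (.e (nat_lit 117646) (nat_lit 0) .nil) .nil))) 
(.lf (nat_lit 482299) (.g (nat_lit 2801) (.e (nat_lit 7265) (nat_lit 384) (.e (nat_lit 57406) (nat_lit 12) (.e (nat_lit 336316) (nat_lit 17) (.e (nat_lit 196663) (nat_lit 13) (.e (nat_lit 65630) (nat_lit 14) (.e (nat_lit 401472) (nat_lit 28) (.e (nat_lit 344096) (nat_lit 18) .nil))))))) (.g (nat_lit 1) (.e (nat_lit 118956) (nat_lit 0) .nil) .nil)))))))))) 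
(.nd (nat_lit 3) (.nd (nat_lit 4) (.nd (nat_lit 5) (.nd (nat_lit 6) (.nd (nat_lit 7) 
(.nd (nat_lit 8) (.nd (nat_lit 9) 
(.lf (nat_lit 481287) (.g (nat_lit 2612) (.e (nat_lit 5394) (nat_lit 301) (.e (nat_lit 57464) (nat_lit 23) (.e (nat_lit 516165) (nat_lit 12) (.e (nat_lit 450586) (nat_lit 10) (.e (nat_lit 573452) (nat_lit 9) (.e (nat_lit 359) (nat_lit 30) (.e (nat_lit 409603) (nat_lit 0) .nil))))))) (.g (nat_lit 1) (.e (nat_lit 112926) (nat_lit 0) .nil) .nil))) 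
(.lf (nat_lit 481799) (.g (nat_lit 928) (.e (nat_lit 5570) (nat_lit 308) (.e (nat_lit 57375) (nat_lit 2) (.e (nat_lit 90169) (nat_lit 13) .nil))) (.g (nat_lit 0) (.e (nat_lit 117724) (nat_lit 0) .nil) .nil)))) (.nd (nat_lit 9) 
(.lf (nat_lit 481543) (.g (nat_lit 2676) (.e (nat_lit 5547) (nat_lit 306) (.e (nat_lit 2619) (nat_lit 164) (.e (nat_lit 172124) (nat_lit 14) (.e (nat_lit 491549) (nat_lit 9) (.e (nat_lit 336434) (nat_lit 30) (.e (nat_lit 458496) (nat_lit 0) .nil)))))) (.g (nat_lit 1) (.e (nat_lit 114286) (nat_lit 0) .nil) .nil))) 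
(.lf (nat_lit 482055) (.g (nat_lit 1114) (.e (nat_lit 7096) (nat_lit 380) (.e (nat_lit 164262) (nat_lit 221) (.e (nat_lit 2576) (nat_lit 161) (.e (nat_lit 40995) (nat_lit 11) (.e (nat_lit 24657) (nat_lit 13) (.e (nat_lit 401152) (nat_lit 17) .nil)))))) (.g (nat_lit 1) (.e (nat_lit 118256) (nat_lit 0) .nil) .nil))))) (.nd (nat_lit 8) (.nd (nat_lit 9) 
(.lf (nat_lit 481415) (.g (nat_lit 4512) (.e (nat_lit 5546) (nat_lit 306) (.e (nat_lit 2600) (nat_lit 163) (.e (nat_lit 163977) (nat_lit 30) (.e (nat_lit 573482) (nat_lit 13) (.e (nat_lit 65619) (nat_lit 10) (.e (nat_lit 344117) (nat_lit 21) (.e (nat_lit 516160) (nat_lit 10) (.e (nat_lit 434209) (nat_lit 18) .nil)))))))) (.g (nat_lit 1) (.e (nat_lit 113752) (nat_lit 0) .nil) .nil))) 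
(.lf (nat_lit 481927) (.g (nat_lit 3582) (.e (nat_lit 7004) (nat_lit 377) (.e (nat_lit 2797) (nat_lit 180) (.e (nat_lit 303119) (nat_lit 3) (.e (nat_lit 204861) (nat_lit 26) (.e (nat_lit 336186) (nat_lit 11) .nil))))) (.g (nat_lit 0) (.e (nat_lit 118004) (nat_lit 0) .nil) .nil)))) (.nd (nat_lit 9) 
(.lf (nat_lit 481671) (.g (nat_lit 2353) (.e (nat_lit 5587) (nat_lit 310) (.e (nat_lit 163903) (nat_lit 12) (.e (nat_lit 426320) (nat_lit 12) (.e (nat_lit 475210) (nat_lit 41) (.e (nat_lit 712755) (nat_lit 30) (.e (nat_lit 458496) (nat_lit 0) .nil)))))) (.g (nat_lit 1) (.e (nat_lit 115342) (nat_lit 0) .nil) .nil))) 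
(.lf (nat_lit 482183) (.g (nat_lit 5934) (.e (nat_lit 7261) (nat_lit 384) (.e (nat_lit 57406) (nat_lit 12) (.e (nat_lit 336019) (nat_lit 3) (.e (nat_lit 98373) (nat_lit 29) (.e (nat_lit 450588) (nat_lit 10) (.e (nat_lit 573475) (nat_lit 12) (.e (nat_lit 57347) (nat_lit 0) .nil))))))) (.g (nat_lit 1) (.e (nat_lit 118824) (nat_lit 0) .nil) .nil)))))) 
(.nd (nat_lit 7) (.nd (nat_lit 8) (.nd (nat_lit 9) 
(.lf (nat_lit 481351) (.g (nat_lit 3182) (.e (nat_lit 5443) (nat_lit 306) (.e (nat_lit 2630) (nat_lit 164) (.e (nat_lit 172126) (nat_lit 14) (.e (nat_lit 491549) (nat_lit 9) (.e (nat_lit 336432) (nat_lit 30) (.e (nat_lit 450567) (nat_lit 0) .nil)))))) (.g (nat_lit 1) (.e (nat_lit 113147) (nat_lit 0) .nil) .nil))) 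
(.lf (nat_lit 481863) (.g (nat_lit 429) (.e (nat_lit 6966) (nat_lit 377) (.e (nat_lit 2777) (nat_lit 178) (.e (nat_lit 286770) (nat_lit 28) .nil))) (.g (nat_lit 0) (.e (nat_lit 117858) (nat_lit 0) .nil) .nil)))) (.nd (nat_lit 9) 
(.lf (nat_lit 481607) (.g (nat_lit 2138) (.e (nat_lit 5548) (nat_lit 306) (.e (nat_lit 2610) (nat_lit 163) (.e (nat_lit 163979) (nat_lit 30) (.e (nat_lit 573482) (nat_lit 13) (.e (nat_lit 65598) (nat_lit 9) .nil))))) (.g (nat_lit 0) (.e (nat_lit 114549) (nat_lit 0) .nil) .nil))) 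
(.lf (nat_lit 482119) (.g (nat_lit 4287) (.e (nat_lit 7280) (nat_lit 386) (.e (nat_lit 163875) (nat_lit 3) (.e (nat_lit 204829) (nat_lit 18) (.e (nat_lit 57847) (nat_lit 252) (.e (nat_lit 57411) (nat_lit 12) (.e (nat_lit 336019) (nat_lit 3) (.e (nat_lit 98384) (nat_lit 32) (.e (nat_lit 475163) (nat_lit 21) .nil)))))))) (.g (nat_lit 1) (.e (nat_lit 118611) (nat_lit 0) .nil) .nil))))) 
(.nd (nat_lit 8) (.nd (nat_lit 9) 
(.lf (nat_lit 481479) (.g (nat_lit 3169) (.e (nat_lit 5546) (nat_lit 306) (.e (nat_lit 2638) (nat_lit 165) (.e (nat_lit 180278) (nat_lit 32) (.e (nat_lit 1658) (nat_lit 115) (.e (nat_lit 393282) (nat_lit 24) (.e (nat_lit 434209) (nat_lit 18) .nil)))))) (.g (nat_lit 1) (.e (nat_lit 113998) (nat_lit 0) .nil) .nil))) 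
(.lf (nat_lit 481991) (.g (nat_lit 1268) (.e (nat_lit 7073) (nat_lit 377) (.e (nat_lit 2797) (nat_lit 180) (.e (nat_lit 303117) (nat_lit 2) (.e (nat_lit 196663) (nat_lit 13) .nil)))) (.g (nat_lit 0) (.e (nat_lit 118146) (nat_lit 0) .nil) .nil)))) (.nd (nat_lit 9) 
(.lf (nat_lit 481735) (.g (nat_lit 3581) (.e (nat_lit 5597) (nat_lit 310) (.e (nat_lit 163946) (nat_lit 20) (.e (nat_lit 491566) (nat_lit 12) (.e (nat_lit 385105) (nat_lit 50) (.e (nat_lit 786483) (nat_lit 30) (.e (nat_lit 360457) (nat_lit 0) .nil)))))) (.g (nat_lit 1) (.e (nat_lit 116553) (nat_lit 0) .nil) .nil))) 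
(.lf (nat_lit 482247) (.g (nat_lit 4198) (.e (nat_lit 7263) (nat_lit 384) (.e (nat_lit 57412) (nat_lit 12) (.e (nat_lit 336001) (nat_lit 2) (.e (nat_lit 90170) (nat_lit 13) (.e (nat_lit 172113) (nat_lit 10) (.e (nat_lit 434248) (nat_lit 28) (.e (nat_lit 573475) (nat_lit 12) (.e (nat_lit 57351) (nat_lit 0) .nil)))))))) (.g (nat_lit 1) (.e (nat_lit 118896) (nat_lit 0) .nil) .nil))))))) 
(.nd (nat_lit 6) (.nd (nat_lit 7) (.nd (nat_lit 8) (.nd (nat_lit 9) 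
(.lf (nat_lit 481319) (.g (nat_lit 1969) (.e (nat_lit 7936) (nat_lit 301) (.e (nat_lit 57464) (nat_lit 23) (.e (nat_lit 516151) (nat_lit 9) (.e (nat_lit 426286) (nat_lit 10) (.e (nat_lit 434234) (nat_lit 23) .nil))))) (.g (nat_lit 0) (.e (nat_lit 112973) (nat_lit 0) .nil) .nil))) 
(.lf (nat_lit 481831) (.g (nat_lit 4197) (.e (nat_lit 6943) (nat_lit 375) (.e (nat_lit 163938) (nat_lit 18) (.e (nat_lit 475185) (nat_lit 29) (.e (nat_lit 557100) (nat_lit 13) (.e (nat_lit 172113) (nat_lit 10) (.e (nat_lit 434248) (nat_lit 28) (.e (nat_lit 573473) (nat_lit 12) (.e (nat_lit 57348) (nat_lit 0) .nil)))))))) (.g (nat_lit 1) (.e (nat_lit 117802) (nat_lit 0) .nil) .nil)))) 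
(.nd (nat_lit 9) 
(.lf (nat_lit 481575) (.g (nat_lit 1705) (.e (nat_lit 5547) (nat_lit 306) (.e (nat_lit 2640) (nat_lit 165) (.e (nat_lit 180277) (nat_lit 32) (.e (nat_lit 1427) (nat_lit 108) (.e (nat_lit 336432) (nat_lit 30) (.e (nat_lit 458496) (nat_lit 0) .nil)))))) (.g (nat_lit 1) (.e (nat_lit 114403) (nat_lit 0) .nil) .nil))) 
(.lf (nat_lit 482087) (.g (nat_lit 2213) (.e (nat_lit 7105) (nat_lit 380) (.e (nat_lit 164362) (nat_lit 246) (.e (nat_lit 2679) (nat_lit 168) (.e (nat_lit 204868) (nat_lit 29) (.e (nat_lit 360466) (nat_lit 3) (.e (nat_lit 524032) (nat_lit 0) .nil)))))) (.g (nat_lit 1) (.e (nat_lit 118347) (nat_lit 0) .nil) .nil))))) (.nd (nat_lit 8) (.nd (nat_lit 9) 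
(.lf (nat_lit 481447) (.g (nat_lit 2489) (.e (nat_lit 5546) (nat_lit 306) (.e (nat_lit 2618) (nat_lit 164) (.e (nat_lit 172120) (nat_lit 12) (.e (nat_lit 475211) (nat_lit 41) (.e (nat_lit 712753) (nat_lit 30) (.e (nat_lit 458496) (nat_lit 0) .nil)))))) (.g (nat_lit 1) (.e (nat_lit 113843) (nat_lit 0) .nil) .nil))) 
(.lf (nat_lit 481959) (.g (nat_lit 1985) (.e (nat_lit 7014) (nat_lit 377) (.e (nat_lit 2797) (nat_lit 180) (.e (nat_lit 303119) (nat_lit 3) (.e (nat_lit 204867) (nat_lit 28) .nil)))) (.g (nat_lit 0) (.e (nat_lit 118091) (nat_lit 0) .nil) .nil)))) (.nd (nat_lit 9) 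
(.lf (nat_lit 481703) (.g (nat_lit 2028) (.e (nat_lit 5589) (nat_lit 310) (.e (nat_lit 163875) (nat_lit 3) (.e (nat_lit 204864) (nat_lit 27) (.e (nat_lit 344132) (nat_lit 26) (.e (nat_lit 557105) (nat_lit 14) .nil))))) (.g (nat_lit 0) (.e (nat_lit 115787) (nat_lit 0) .nil) .nil))) 
(.lf (nat_lit 482215) (.g (nat_lit 4250) (.e (nat_lit 7261) (nat_lit 384) (.e (nat_lit 57412) (nat_lit 12) (.e (nat_lit 336001) (nat_lit 2) (.e (nat_lit 90170) (nat_lit 13) (.e (nat_lit 172113) (nat_lit 10) (.e (nat_lit 434248) (nat_lit 28) (.e (nat_lit 573475) (nat_lit 12) (.e (nat_lit 57348) (nat_lit 0) .nil)))))))) (.g (nat_lit 1) (.e (nat_lit 118861) (nat_lit 0) .nil) .nil)))))) 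
(.nd (nat_lit 7) (.nd (nat_lit 8) (.nd (nat_lit 9) 
(.lf (nat_lit 481383) (.g (nat_lit 2772) (.e (nat_lit 5543) (nat_lit 306) (.e (nat_lit 2619) (nat_lit 164) (.e (nat_lit 172120) (nat_lit 12) (.e (nat_lit 475211) (nat_lit 41) (.e (nat_lit 712753) (nat_lit 30) (.e (nat_lit 458496) (nat_lit 0) .nil)))))) (.g (nat_lit 1) (.e (nat_lit 113545) (nat_lit 0) .nil) .nil))) 
(.lf (nat_lit 481895) (.g (nat_lit 3340) (.e (nat_lit 6989) (nat_lit 377) (.e (nat_lit 2777) (nat_lit 178) (.e (nat_lit 286733) (nat_lit 2) (.e (nat_lit 90133) (nat_lit 9) (.e (nat_lit 2400) (nat_lit 157) (.e (nat_lit 7590) (nat_lit 407) (.e (nat_lit 73747) (nat_lit 3) (.e (nat_lit 516102) (nat_lit 0) .nil)))))))) (.g (nat_lit 1) (.e (nat_lit 117935) (nat_lit 0) .nil) .nil)))) (.nd (nat_lit 9) 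
(.lf (nat_lit 481639) (.g (nat_lit 2268) (.e (nat_lit 5583) (nat_lit 310) (.e (nat_lit 163874) (nat_lit 3) (.e (nat_lit 204864) (nat_lit 27) (.e (nat_lit 344132) (nat_lit 26) (.e (nat_lit 557105) (nat_lit 14) .nil))))) (.g (nat_lit 0) (.e (nat_lit 114781) (nat_lit 0) .nil) .nil))) 
(.lf (nat_lit 482151) (.g (nat_lit 1874) (.e (nat_lit 7287) (nat_lit 386) (.e (nat_lit 163875) (nat_lit 3) (.e (nat_lit 204837) (nat_lit 20) (.e (nat_lit 114719) (nat_lit 23) .nil)))) (.g (nat_lit 0) (.e (nat_lit 118717) (nat_lit 0) .nil) .nil))))) (.nd (nat_lit 8) (.nd (nat_lit 9) 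
(.lf (nat_lit 481511) (.g (nat_lit 2820) (.e (nat_lit 5547) (nat_lit 306) (.e (nat_lit 2610) (nat_lit 163) (.e (nat_lit 163978) (nat_lit 30) (.e (nat_lit 573479) (nat_lit 13) (.e (nat_lit 65604) (nat_lit 9) (.e (nat_lit 336013) (nat_lit 2) (.e (nat_lit 90170) (nat_lit 13) (.e (nat_lit 172049) (nat_lit 0) (.e (nat_lit 2458) (nat_lit 157) .nil))))))))) (.g (nat_lit 1) (.e (nat_lit 114194) (nat_lit 0) .nil) .nil))) 
(.lf (nat_lit 482023) (.g (nat_lit 2644) (.e (nat_lit 7065) (nat_lit 377) (.e (nat_lit 1348) (nat_lit 102) (.e (nat_lit 286733) (nat_lit 2) (.e (nat_lit 90174) (nat_lit 14) (.e (nat_lit 180288) (nat_lit 45) .nil))))) (.g (nat_lit 0) (.e (nat_lit 118197) (nat_lit 0) .nil) .nil)))) (.nd (nat_lit 9) 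
(.lf (nat_lit 481767) (.g (nat_lit 981) (.e (nat_lit 5600) (nat_lit 310) (.e (nat_lit 163874) (nat_lit 3) (.e (nat_lit 204861) (nat_lit 26) .nil))) (.g (nat_lit 0) (.e (nat_lit 117237) (nat_lit 0) .nil) .nil))) 
(.lf (nat_lit 482279) (.g (nat_lit 3777) (.e (nat_lit 7265) (nat_lit 384) (.e (nat_lit 57406) (nat_lit 12) (.e (nat_lit 336019) (nat_lit 3) (.e (nat_lit 98372) (nat_lit 29) (.e (nat_lit 450586) (nat_lit 10) (.e (nat_lit 573477) (nat_lit 12) (.e (nat_lit 57353) (nat_lit 0) .nil))))))) (.g (nat_lit 1) (.e (nat_lit 118936) (nat_lit 0) .nil) .nil)))))))) 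
(.nd (nat_lit 5) (.nd (nat_lit 6) (.nd (nat_lit 7) (.nd (nat_lit 8) (.nd (nat_lit 9) 
(.lf (nat_lit 481303) (.g (nat_lit 2723) (.e (nat_lit 5395) (nat_lit 301) (.e (nat_lit 57464) (nat_lit 23) (.e (nat_lit 516151) (nat_lit 9) (.e (nat_lit 426211) (nat_lit 9) (.e (nat_lit 426125) (nat_lit 2) (.e (nat_lit 204544) (nat_lit 18) (.e (nat_lit 2773) (nat_lit 177) (.e (nat_lit 278553) (nat_lit 10) .nil)))))))) (.g (nat_lit 1) (.e (nat_lit 112946) (nat_lit 0) .nil) .nil))) 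
(.lf (nat_lit 481815) (.g (nat_lit 4266) (.e (nat_lit 6940) (nat_lit 375) (.e (nat_lit 163938) (nat_lit 18) (.e (nat_lit 475185) (nat_lit 29) (.e (nat_lit 557100) (nat_lit 13) (.e (nat_lit 172113) (nat_lit 10) (.e (nat_lit 434245) (nat_lit 28) (.e (nat_lit 573473) (nat_lit 12) (.e (nat_lit 57348) (nat_lit 0) .nil)))))))) (.g (nat_lit 1) (.e (nat_lit 117777) (nat_lit 0) .nil) .nil)))) 
(.nd (nat_lit 9) 
(.lf (nat_lit 481559) (.g (nat_lit 2689) (.e (nat_lit 5547) (nat_lit 306) (.e (nat_lit 2629) (nat_lit 164) (.e (nat_lit 172124) (nat_lit 14) (.e (nat_lit 491549) (nat_lit 9) (.e (nat_lit 336432) (nat_lit 30) (.e (nat_lit 458496) (nat_lit 0) .nil)))))) (.g (nat_lit 1) (.e (nat_lit 114362) (nat_lit 0) .nil) .nil))) 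
(.lf (nat_lit 482071) (.g (nat_lit 1015) (.e (nat_lit 7098) (nat_lit 380) (.e (nat_lit 164351) (nat_lit 246) (.e (nat_lit 226) (nat_lit 21) (.e (nat_lit 336430) (nat_lit 29) .nil)))) (.g (nat_lit 0) (.e (nat_lit 118300) (nat_lit 0) .nil) .nil))))) (.nd (nat_lit 8) (.nd (nat_lit 9) 
(.lf (nat_lit 481431) (.g (nat_lit 3458) (.e (nat_lit 5546) (nat_lit 306) (.e (nat_lit 2610) (nat_lit 163) (.e (nat_lit 163978) (nat_lit 30) (.e (nat_lit 573485) (nat_lit 13) (.e (nat_lit 65604) (nat_lit 9) (.e (nat_lit 336013) (nat_lit 2) (.e (nat_lit 90170) (nat_lit 13) (.e (nat_lit 172049) (nat_lit 0) (.e (nat_lit 2458) (nat_lit 157) .nil))))))))) (.g (nat_lit 1) (.e (nat_lit 113785) (nat_lit 0) .nil) .nil))) 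
(.lf (nat_lit 481943) (.g (nat_lit 785) (.e (nat_lit 7013) (nat_lit 377) (.e (nat_lit 2797) (nat_lit 180) (.e (nat_lit 303117) (nat_lit 2) .nil))) (.g (nat_lit 0) (.e (nat_lit 118068) (nat_lit 0) .nil) .nil)))) (.nd (nat_lit 9) 
(.lf (nat_lit 481687) (.g (nat_lit 3020) (.e (nat_lit 5587) (nat_lit 310) (.e (nat_lit 163907) (nat_lit 12) (.e (nat_lit 426320) (nat_lit 12) (.e (nat_lit 475210) (nat_lit 41) (.e (nat_lit 712755) (nat_lit 30) (.e (nat_lit 458496) (nat_lit 0) .nil)))))) (.g (nat_lit 1) (.e (nat_lit 115385) (nat_lit 0) .nil) .nil))) 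
(.lf (nat_lit 482199) (.g (nat_lit 5072) (.e (nat_lit 7261) (nat_lit 384) (.e (nat_lit 57407) (nat_lit 12) (.e (nat_lit 336019) (nat_lit 3) (.e (nat_lit 98372) (nat_lit 29) (.e (nat_lit 450588) (nat_lit 10) (.e (nat_lit 573475) (nat_lit 12) (.e (nat_lit 57347) (nat_lit 0) .nil))))))) (.g (nat_lit 1) (.e (nat_lit 118845) (nat_lit 0) .nil) .nil)))))) 
(.nd (nat_lit 7) (.nd (nat_lit 8) (.nd (nat_lit 9) 
(.lf (nat_lit 481367) (.g (nat_lit 2040) (.e (nat_lit 5537) (nat_lit 306) (.e (nat_lit 2610) (nat_lit 163) (.e (nat_lit 163977) (nat_lit 30) (.e (nat_lit 573482) (nat_lit 13) (.e (nat_lit 65604) (nat_lit 9) .nil))))) (.g (nat_lit 0) (.e (nat_lit 113472) (nat_lit 0) .nil) .nil))) 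
(.lf (nat_lit 481879) (.g (nat_lit 1599) (.e (nat_lit 6989) (nat_lit 377) (.e (nat_lit 2810) (nat_lit 180) (.e (nat_lit 303119) (nat_lit 3) (.e (nat_lit 204821) (nat_lit 17) (.e (nat_lit 7936) (nat_lit 348) .nil))))) (.g (nat_lit 0) (.e (nat_lit 117892) (nat_lit 0) .nil) .nil)))) (.nd (nat_lit 9) 
(.lf (nat_lit 481623) (.g (nat_lit 5903) (.e (nat_lit 5548) (nat_lit 306) (.e (nat_lit 2610) (nat_lit 163) (.e (nat_lit 163979) (nat_lit 30) (.e (nat_lit 573493) (nat_lit 15) (.e (nat_lit 81953) (nat_lit 22) (.e (nat_lit 90172) (nat_lit 14) (.e (nat_lit 180229) (nat_lit 0) .nil))))))) (.g (nat_lit 1) (.e (nat_lit 114572) (nat_lit 0) .nil) .nil))) 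
(.lf (nat_lit 482135) (.g (nat_lit 1788) (.e (nat_lit 7280) (nat_lit 386) (.e (nat_lit 163875) (nat_lit 3) (.e (nat_lit 204838) (nat_lit 20) (.e (nat_lit 114719) (nat_lit 23) .nil)))) (.g (nat_lit 0) (.e (nat_lit 118627) (nat_lit 0) .nil) .nil))))) (.nd (nat_lit 8) (.nd (nat_lit 9) 
(.lf (nat_lit 481495) (.g (nat_lit 1639) (.e (nat_lit 5546) (nat_lit 306) (.e (nat_lit 2640) (nat_lit 165) (.e (nat_lit 180278) (nat_lit 32) (.e (nat_lit 1428) (nat_lit 108) (.e (nat_lit 336434) (nat_lit 30) (.e (nat_lit 458496) (nat_lit 0) .nil)))))) (.g (nat_lit 1) (.e (nat_lit 114022) (nat_lit 0) .nil) .nil))) 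
(.lf (nat_lit 482007) (.g (nat_lit 2543) (.e (nat_lit 7064) (nat_lit 377) (.e (nat_lit 1349) (nat_lit 102) (.e (nat_lit 286733) (nat_lit 2) (.e (nat_lit 90174) (nat_lit 14) (.e (nat_lit 180288) (nat_lit 45) .nil))))) (.g (nat_lit 0) (.e (nat_lit 118181) (nat_lit 0) .nil) .nil)))) (.nd (nat_lit 9) 
(.lf (nat_lit 481751) (.g (nat_lit 687) (.e (nat_lit 5599) (nat_lit 310) (.e (nat_lit 163874) (nat_lit 3) (.e (nat_lit 204864) (nat_lit 27) .nil))) (.g (nat_lit 0) (.e (nat_lit 116989) (nat_lit 0) .nil) .nil))) 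
(.lf (nat_lit 482263) (.g (nat_lit 5906) (.e (nat_lit 7265) (nat_lit 384) (.e (nat_lit 57406) (nat_lit 12) (.e (nat_lit 336018) (nat_lit 3) (.e (nat_lit 98373) (nat_lit 29) (.e (nat_lit 450588) (nat_lit 10) (.e (nat_lit 573475) (nat_lit 12) (.e (nat_lit 57348) (nat_lit 0) .nil))))))) (.g (nat_lit 1) (.e (nat_lit 118920) (nat_lit 0) .nil) .nil))))))) 
(.nd (nat_lit 6) (.nd (nat_lit 7) (.nd (nat_lit 8) (.nd (nat_lit 9) 
(.lf (nat_lit 481335) (.g (nat_lit 660) (.e (nat_lit 5410) (nat_lit 303) (.e (nat_lit 73750) (nat_lit 6) (.e (nat_lit 540724) (nat_lit 28) (.e (nat_lit 442396) (nat_lit 20) (.e (nat_lit 3572) (nat_lit 222) (.e (nat_lit 737281) (nat_lit 0) .nil)))))) (.g (nat_lit 1) (.e (nat_lit 113038) (nat_lit 0) .nil) .nil))) 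
(.lf (nat_lit 481847) (.g (nat_lit 2165) (.e (nat_lit 6949) (nat_lit 377) (.e (nat_lit 2816) (nat_lit 181) (.e (nat_lit 311312) (nat_lit 2) (.e (nat_lit 196666) (nat_lit 13) (.e (nat_lit 65619) (nat_lit 10) .nil))))) (.g (nat_lit 0) (.e (nat_lit 117824) (nat_lit 0) .nil) .nil)))) (.nd (nat_lit 9) 
(.lf (nat_lit 481591) (.g (nat_lit 2148) (.e (nat_lit 5548) (nat_lit 306) (.e (nat_lit 2610) (nat_lit 163) (.e (nat_lit 163977) (nat_lit 30) (.e (nat_lit 573493) (nat_lit 15) (.e (nat_lit 81953) (nat_lit 22) (.e (nat_lit 90170) (nat_lit 13) (.e (nat_lit 172042) (nat_lit 0) (.e (nat_lit 2478) (nat_lit 157) .nil)))))))) (.g (nat_lit 1) (.e (nat_lit 114527) (nat_lit 0) .nil) .nil))) 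
(.lf (nat_lit 482103) (.g (nat_lit 2079) (.e (nat_lit 7077) (nat_lit 378) (.e (nat_lit 57902) (nat_lit 277) (.e (nat_lit 131140) (nat_lit 27) (.e (nat_lit 426343) (nat_lit 14) (.e (nat_lit 491552) (nat_lit 9) (.e (nat_lit 336250) (nat_lit 15) .nil)))))) (.g (nat_lit 1) (.e (nat_lit 118415) (nat_lit 0) .nil) .nil))))) (.nd (nat_lit 8) (.nd (nat_lit 9) 
(.lf (nat_lit 481463) (.g (nat_lit 2583) (.e (nat_lit 5546) (nat_lit 306) (.e (nat_lit 2619) (nat_lit 164) (.e (nat_lit 172124) (nat_lit 14) (.e (nat_lit 491550) (nat_lit 9) (.e (nat_lit 336432) (nat_lit 30) (.e (nat_lit 458496) (nat_lit 0) .nil)))))) (.g (nat_lit 1) (.e (nat_lit 113899) (nat_lit 0) .nil) .nil))) 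
(.lf (nat_lit 481975) (.g (nat_lit 1881) (.e (nat_lit 7016) (nat_lit 377) (.e (nat_lit 2798) (nat_lit 180) (.e (nat_lit 303117) (nat_lit 2) (.e (nat_lit 196674) (nat_lit 15) (.e (nat_lit 81955) (nat_lit 23) .nil))))) (.g (nat_lit 0) (.e (nat_lit 118115) (nat_lit 0) .nil) .nil)))) (.nd (nat_lit 9) 
(.lf (nat_lit 481719) (.g (nat_lit 502) (.e (nat_lit 5594) (nat_lit 310) (.e (nat_lit 163874) (nat_lit 3) (.e (nat_lit 204861) (nat_lit 26) .nil))) (.g (nat_lit 0) (.e (nat_lit 116083) (nat_lit 0) .nil) .nil))) 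
(.lf (nat_lit 482231) (.g (nat_lit 5757) (.e (nat_lit 7261) (nat_lit 384) (.e (nat_lit 57432) (nat_lit 16) (.e (nat_lit 368676) (nat_lit 21) (.e (nat_lit 516166) (nat_lit 12) (.e (nat_lit 450588) (nat_lit 10) (.e (nat_lit 573473) (nat_lit 12) (.e (nat_lit 57352) (nat_lit 0) .nil))))))) (.g (nat_lit 1) (.e (nat_lit 118879) (nat_lit 0) .nil) .nil)))))) 
(.nd (nat_lit 7) (.nd (nat_lit 8) (.nd (nat_lit 9) 
(.lf (nat_lit 481399) (.g (nat_lit 460) (.e (nat_lit 5543) (nat_lit 306) (.e (nat_lit 2638) (nat_lit 165) (.e (nat_lit 180278) (nat_lit 32) .nil))) (.g (nat_lit 0) (.e (nat_lit 113617) (nat_lit 0) .nil) .nil))) 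
(.lf (nat_lit 481911) (.g (nat_lit 3330) (.e (nat_lit 6986) (nat_lit 377) (.e (nat_lit 2819) (nat_lit 181) (.e (nat_lit 311312) (nat_lit 2) (.e (nat_lit 196666) (nat_lit 13) (.e (nat_lit 65619) (nat_lit 10) (.e (nat_lit 344117) (nat_lit 21) (.e (nat_lit 516106) (nat_lit 0) .nil))))))) (.g (nat_lit 1) (.e (nat_lit 117963) (nat_lit 0) .nil) .nil)))) (.nd (nat_lit 9) 
(.lf (nat_lit 481655) (.g (nat_lit 1443) (.e (nat_lit 5586) (nat_lit 310) (.e (nat_lit 163907) (nat_lit 12) (.e (nat_lit 426320) (nat_lit 12) (.e (nat_lit 475210) (nat_lit 41) .nil)))) (.g (nat_lit 0) (.e (nat_lit 115113) (nat_lit 0) .nil) .nil))) 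
(.lf (nat_lit 482167) (.g (nat_lit 712) (.e (nat_lit 7290) (nat_lit 386) (.e (nat_lit 163905) (nat_lit 12) (.e (nat_lit 426568) (nat_lit 34) .nil))) (.g (nat_lit 0) (.e (nat_lit 118758) (nat_lit 0) .nil) .nil))))) (.nd (nat_lit 8) (.nd (nat_lit 9) 
(.lf (nat_lit 481527) (.g (nat_lit 2712) (.e (nat_lit 5547) (nat_lit 306) (.e (nat_lit 2610) (nat_lit 163) (.e (nat_lit 163979) (nat_lit 30) (.e (nat_lit 573482) (nat_lit 13) (.e (nat_lit 65604) (nat_lit 9) (.e (nat_lit 336028) (nat_lit 3) (.e (nat_lit 98359) (nat_lit 26) (.e (nat_lit 426043) (nat_lit 0) (.e (nat_lit 2458) (nat_lit 157) .nil))))))))) (.g (nat_lit 1) (.e (nat_lit 114214) (nat_lit 0) .nil) .nil))) 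
(.lf (nat_lit 482039) (.g (nat_lit 1105) (.e (nat_lit 7936) (nat_lit 377) (.e (nat_lit 2797) (nat_lit 180) (.e (nat_lit 303119) (nat_lit 3) (.e (nat_lit 212736) (nat_lit 26) .nil)))) (.g (nat_lit 0) (.e (nat_lit 118219) (nat_lit 0) .nil) .nil)))) (.nd (nat_lit 9) 
(.lf (nat_lit 481783) (.g (nat_lit 1456) (.e (nat_lit 5603) (nat_lit 310) (.e (nat_lit 163905) (nat_lit 12) (.e (nat_lit 426320) (nat_lit 12) (.e (nat_lit 475211) (nat_lit 41) .nil)))) (.g (nat_lit 0) (.e (nat_lit 117458) (nat_lit 0) .nil) .nil))) 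
(.lf (nat_lit 482295) (.g (nat_lit 4528) (.e (nat_lit 7265) (nat_lit 384) (.e (nat_lit 57406) (nat_lit 12) (.e (nat_lit 343808) (nat_lit 3) (.e (nat_lit 98373) (nat_lit 29) (.e (nat_lit 450588) (nat_lit 10) (.e (nat_lit 573473) (nat_lit 12) (.e (nat_lit 57348) (nat_lit 0) .nil))))))) (.g (nat_lit 1) (.e (nat_lit 118952) (nat_lit 0) .nil) .nil))))))))) 
(.nd (nat_lit 4) (.nd (nat_lit 5) (.nd (nat_lit 6) (.nd (nat_lit 7) (.nd (nat_lit 8) 
(.nd (nat_lit 9) 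
(.lf (nat_lit 481295) (.g (nat_lit 3601) (.e (nat_lit 5394) (nat_lit 301) (.e (nat_lit 57464) (nat_lit 23) (.e (nat_lit 516166) (nat_lit 12) (.e (nat_lit 450588) (nat_lit 10) (.e (nat_lit 573448) (nat_lit 9) (.e (nat_lit 359) (nat_lit 30) (.e (nat_lit 409604) (nat_lit 0) .nil))))))) (.g (nat_lit 1) (.e (nat_lit 112934) (nat_lit 0) .nil) .nil))) 
(.lf (nat_lit 481807) (.g (nat_lit 1879) (.e (nat_lit 6927) (nat_lit 372) (.e (nat_lit 8305) (nat_lit 58) (.e (nat_lit 286761) (nat_lit 13) (.e (nat_lit 393234) (nat_lit 17) (.e (nat_lit 7593) (nat_lit 407) .nil))))) (.g (nat_lit 0) (.e (nat_lit 117762) (nat_lit 0) .nil) .nil)))) (.nd (nat_lit 9) 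
(.lf (nat_lit 481551) (.g (nat_lit 2594) (.e (nat_lit 5547) (nat_lit 306) (.e (nat_lit 2628) (nat_lit 164) (.e (nat_lit 172120) (nat_lit 12) (.e (nat_lit 475211) (nat_lit 41) (.e (nat_lit 712753) (nat_lit 30) (.e (nat_lit 458496) (nat_lit 0) .nil)))))) (.g (nat_lit 1) (.e (nat_lit 114323) (nat_lit 0) .nil) .nil))) 
(.lf (nat_lit 482063) (.g (nat_lit 2408) (.e (nat_lit 7096) (nat_lit 380) (.e (nat_lit 164368) (nat_lit 247) (.e (nat_lit 8318) (nat_lit 64) (.e (nat_lit 516176) (nat_lit 14) (.e (nat_lit 466954) (nat_lit 11) (.e (nat_lit 336287) (nat_lit 15) .nil)))))) (.g (nat_lit 1) (.e (nat_lit 118271) (nat_lit 0) .nil) .nil))))) (.nd (nat_lit 8) (.nd (nat_lit 9) 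
(.lf (nat_lit 481423) (.g (nat_lit 2890) (.e (nat_lit 5546) (nat_lit 306) (.e (nat_lit 2610) (nat_lit 163) (.e (nat_lit 163978) (nat_lit 30) (.e (nat_lit 573479) (nat_lit 13) (.e (nat_lit 65604) (nat_lit 9) .nil))))) (.g (nat_lit 0) (.e (nat_lit 113776) (nat_lit 0) .nil) .nil))) 
(.lf (nat_lit 481935) (.g (nat_lit 1561) (.e (nat_lit 7008) (nat_lit 377) (.e (nat_lit 2797) (nat_lit 180) (.e (nat_lit 303117) (nat_lit 2) (.e (nat_lit 196664) (nat_lit 13) .nil)))) (.g (nat_lit 0) (.e (nat_lit 118054) (nat_lit 0) .nil) .nil)))) (.nd (nat_lit 9) 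
(.lf (nat_lit 481679) (.g (nat_lit 2300) (.e (nat_lit 5587) (nat_lit 310) (.e (nat_lit 163906) (nat_lit 12) (.e (nat_lit 426320) (nat_lit 12) (.e (nat_lit 475211) (nat_lit 41) (.e (nat_lit 712753) (nat_lit 30) (.e (nat_lit 458496) (nat_lit 0) .nil)))))) (.g (nat_lit 1) (.e (nat_lit 115365) (nat_lit 0) .nil) .nil))) 
(.lf (nat_lit 482191) (.g (nat_lit 3937) (.e (nat_lit 7261) (nat_lit 384) (.e (nat_lit 57407) (nat_lit 12) (.e (nat_lit 336019) (nat_lit 3) (.e (nat_lit 98372) (nat_lit 29) (.e (nat_lit 450586) (nat_lit 10) (.e (nat_lit 573475) (nat_lit 12) (.e (nat_lit 57347) (nat_lit 0) .nil))))))) (.g (nat_lit 1) (.e (nat_lit 118837) (nat_lit 0) .nil) .nil)))))) 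
(.nd (nat_lit 7) (.nd (nat_lit 8) (.nd (nat_lit 9) 
(.lf (nat_lit 481359) (.g (nat_lit 2632) (.e (nat_lit 5448) (nat_lit 306) (.e (nat_lit 2612) (nat_lit 163) (.e (nat_lit 163978) (nat_lit 30) (.e (nat_lit 573479) (nat_lit 13) (.e (nat_lit 65619) (nat_lit 10) (.e (nat_lit 344117) (nat_lit 21) (.e (nat_lit 516160) (nat_lit 10) (.e (nat_lit 434215) (nat_lit 18) .nil)))))))) (.g (nat_lit 1) (.e (nat_lit 113301) (nat_lit 0) .nil) .nil))) 
(.lf (nat_lit 481871) (.g (nat_lit 727) (.e (nat_lit 6988) (nat_lit 377) (.e (nat_lit 2777) (nat_lit 178) (.e (nat_lit 286731) (nat_lit 1) .nil))) (.g (nat_lit 0) (.e (nat_lit 117874) (nat_lit 0) .nil) .nil)))) (.nd (nat_lit 9) 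
(.lf (nat_lit 481615) (.g (nat_lit 2787) (.e (nat_lit 5548) (nat_lit 306) (.e (nat_lit 2610) (nat_lit 163) (.e (nat_lit 163979) (nat_lit 30) (.e (nat_lit 573482) (nat_lit 13) (.e (nat_lit 65607) (nat_lit 9) .nil))))) (.g (nat_lit 0) (.e (nat_lit 114557) (nat_lit 0) .nil) .nil))) 
(.lf (nat_lit 482127) (.g (nat_lit 3094) (.e (nat_lit 7280) (nat_lit 386) (.e (nat_lit 163875) (nat_lit 3) (.e (nat_lit 204830) (nat_lit 18) (.e (nat_lit 57852) (nat_lit 252) (.e (nat_lit 57431) (nat_lit 16) .nil))))) (.g (nat_lit 0) (.e (nat_lit 118619) (nat_lit 0) .nil) .nil))))) (.nd (nat_lit 8) (.nd (nat_lit 9) 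
(.lf (nat_lit 481487) (.g (nat_lit 2436) (.e (nat_lit 5546) (nat_lit 306) (.e (nat_lit 2639) (nat_lit 165) (.e (nat_lit 180277) (nat_lit 32) (.e (nat_lit 1658) (nat_lit 115) (.e (nat_lit 393282) (nat_lit 24) (.e (nat_lit 434209) (nat_lit 18) .nil)))))) (.g (nat_lit 1) (.e (nat_lit 114011) (nat_lit 0) .nil) .nil))) 
(.lf (nat_lit 481999) (.g (nat_lit 1174) (.e (nat_lit 7073) (nat_lit 377) (.e (nat_lit 2798) (nat_lit 180) (.e (nat_lit 303117) (nat_lit 2) (.e (nat_lit 196674) (nat_lit 15) .nil)))) (.g (nat_lit 0) (.e (nat_lit 118161) (nat_lit 0) .nil) .nil)))) (.nd (nat_lit 9) 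
(.lf (nat_lit 481743) (.g (nat_lit 1840) (.e (nat_lit 5598) (nat_lit 310) (.e (nat_lit 163920) (nat_lit 14) (.e (nat_lit 442374) (nat_lit 0) (.e (nat_lit 2175) (nat_lit 143) (.e (nat_lit 712753) (nat_lit 30) .nil))))) (.g (nat_lit 0) (.e (nat_lit 116747) (nat_lit 0) .nil) .nil))) 
(.lf (nat_lit 482255) (.g (nat_lit 934) (.e (nat_lit 7265) (nat_lit 384) (.e (nat_lit 57406) (nat_lit 12) (.e (nat_lit 336016) (nat_lit 2) .nil))) (.g (nat_lit 0) (.e (nat_lit 118911) (nat_lit 0) .nil) .nil))))))) (.nd (nat_lit 6) (.nd (nat_lit 7) (.nd (nat_lit 8) (.nd (nat_lit 9) 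
(.lf (nat_lit 481327) (.g (nat_lit 1622) (.e (nat_lit 5404) (nat_lit 302) (.e (nat_lit 65653) (nat_lit 27) (.e (nat_lit 426343) (nat_lit 14) (.e (nat_lit 491552) (nat_lit 9) (.e (nat_lit 343808) (nat_lit 25) .nil))))) (.g (nat_lit 0) (.e (nat_lit 113013) (nat_lit 0) .nil) .nil))) 
(.lf (nat_lit 481839) (.g (nat_lit 2777) (.e (nat_lit 6943) (nat_lit 375) (.e (nat_lit 163947) (nat_lit 20) (.e (nat_lit 491560) (nat_lit 10) (.e (nat_lit 344177) (nat_lit 43) (.e (nat_lit 770072) (nat_lit 8) .nil))))) (.g (nat_lit 0) (.e (nat_lit 117813) (nat_lit 0) .nil) .nil)))) (.nd (nat_lit 9) 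
(.lf (nat_lit 481583) (.g (nat_lit 955) (.e (nat_lit 5547) (nat_lit 306) (.e (nat_lit 2650) (nat_lit 166) (.e (nat_lit 188455) (nat_lit 24) (.e (nat_lit 229678) (nat_lit 244) .nil)))) (.g (nat_lit 0) (.e (nat_lit 114489) (nat_lit 0) .nil) .nil))) 
(.lf (nat_lit 482095) (.g (nat_lit 3036) (.e (nat_lit 7107) (nat_lit 380) (.e (nat_lit 164337) (nat_lit 232) (.e (nat_lit 403) (nat_lit 32) (.e (nat_lit 426340) (nat_lit 14) (.e (nat_lit 491571) (nat_lit 13) (.e (nat_lit 393238) (nat_lit 17) .nil)))))) (.g (nat_lit 1) (.e (nat_lit 118393) (nat_lit 0) .nil) .nil))))) (.nd (nat_lit 8) (.nd (nat_lit 9) 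
(.lf (nat_lit 481455) (.g (nat_lit 2545) (.e (nat_lit 5546) (nat_lit 306) (.e (nat_lit 2619) (nat_lit 164) (.e (nat_lit 172118) (nat_lit 12) (.e (nat_lit 475211) (nat_lit 41) (.e (nat_lit 712753) (nat_lit 30) (.e (nat_lit 458496) (nat_lit 0) .nil)))))) (.g (nat_lit 1) (.e (nat_lit 113887) (nat_lit 0) .nil) .nil))) 
(.lf (nat_lit 481967) (.g (nat_lit 1744) (.e (nat_lit 7016) (nat_lit 377) (.e (nat_lit 2797) (nat_lit 180) (.e (nat_lit 303117) (nat_lit 2) (.e (nat_lit 196665) (nat_lit 13) .nil)))) (.g (nat_lit 0) (.e (nat_lit 118103) (nat_lit 0) .nil) .nil)))) (.nd (nat_lit 9) 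
(.lf (nat_lit 481711) (.g (nat_lit 2230) (.e (nat_lit 5591) (nat_lit 310) (.e (nat_lit 163875) (nat_lit 3) (.e (nat_lit 204862) (nat_lit 27) (.e (nat_lit 344130) (nat_lit 26) (.e (nat_lit 557104) (nat_lit 14) .nil))))) (.g (nat_lit 0) (.e (nat_lit 115933) (nat_lit 0) .nil) .nil))) 
(.lf (nat_lit 482223) (.g (nat_lit 2896) (.e (nat_lit 7261) (nat_lit 384) (.e (nat_lit 57431) (nat_lit 16) (.e (nat_lit 368676) (nat_lit 21) (.e (nat_lit 516165) (nat_lit 12) (.e (nat_lit 450586) (nat_lit 10) (.e (nat_lit 573477) (nat_lit 12) (.e (nat_lit 57353) (nat_lit 0) .nil))))))) (.g (nat_lit 1) (.e (nat_lit 118871) (nat_lit 0) .nil) .nil)))))) 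
(.nd (nat_lit 7) (.nd (nat_lit 8) (.nd (nat_lit 9) 
(.lf (nat_lit 481391) (.g (nat_lit 2629) (.e (nat_lit 5543) (nat_lit 306) (.e (nat_lit 2628) (nat_lit 164) (.e (nat_lit 172126) (nat_lit 14) (.e (nat_lit 491549) (nat_lit 9) (.e (nat_lit 336434) (nat_lit 30) (.e (nat_lit 458496) (nat_lit 0) .nil)))))) (.g (nat_lit 1) (.e (nat_lit 113584) (nat_lit 0) .nil) .nil))) 
(.lf (nat_lit 481903) (.g (nat_lit 1815) (.e (nat_lit 6989) (nat_lit 377) (.e (nat_lit 1361) (nat_lit 102) (.e (nat_lit 286761) (nat_lit 13) (.e (nat_lit 393293) (nat_lit 26) (.e (nat_lit 475204) (nat_lit 40) (.e (nat_lit 704556) (nat_lit 0) (.e (nat_lit 2435) (nat_lit 157) .nil))))))) (.g (nat_lit 1) (.e (nat_lit 117951) (nat_lit 0) .nil) .nil)))) (.nd (nat_lit 9) 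
(.lf (nat_lit 481647) (.g (nat_lit 2359) (.e (nat_lit 5586) (nat_lit 310) (.e (nat_lit 163869) (nat_lit 2) (.e (nat_lit 196670) (nat_lit 14) (.e (nat_lit 73746) (nat_lit 3) (.e (nat_lit 516129) (nat_lit 3) .nil))))) (.g (nat_lit 0) (.e (nat_lit 115085) (nat_lit 0) .nil) .nil))) 
(.lf (nat_lit 482159) (.g (nat_lit 1828) (.e (nat_lit 7289) (nat_lit 386) (.e (nat_lit 163905) (nat_lit 12) (.e (nat_lit 426479) (nat_lit 27) (.e (nat_lit 336430) (nat_lit 29) (.e (nat_lit 442427) (nat_lit 23) .nil))))) (.g (nat_lit 0) (.e (nat_lit 118734) (nat_lit 0) .nil) .nil))))) (.nd (nat_lit 8) (.nd (nat_lit 9) 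
(.lf (nat_lit 481519) (.g (nat_lit 2559) (.e (nat_lit 5547) (nat_lit 306) (.e (nat_lit 2610) (nat_lit 163) (.e (nat_lit 163978) (nat_lit 30) (.e (nat_lit 573484) (nat_lit 13) (.e (nat_lit 65610) (nat_lit 10) (.e (nat_lit 344117) (nat_lit 21) (.e (nat_lit 516151) (nat_lit 9) (.e (nat_lit 426039) (nat_lit 0) (.e (nat_lit 2458) (nat_lit 157) .nil))))))))) (.g (nat_lit 1) (.e (nat_lit 114202) (nat_lit 0) .nil) .nil))) 
(.lf (nat_lit 482031) (.g (nat_lit 1104) (.e (nat_lit 7936) (nat_lit 377) (.e (nat_lit 2797) (nat_lit 180) (.e (nat_lit 303117) (nat_lit 2) (.e (nat_lit 196682) (nat_lit 17) .nil)))) (.g (nat_lit 0) (.e (nat_lit 118210) (nat_lit 0) .nil) .nil)))) (.nd (nat_lit 9) 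
(.lf (nat_lit 481775) (.g (nat_lit 1910) (.e (nat_lit 5602) (nat_lit 310) (.e (nat_lit 163946) (nat_lit 20) (.e (nat_lit 491566) (nat_lit 12) (.e (nat_lit 385105) (nat_lit 50) (.e (nat_lit 786483) (nat_lit 30) .nil))))) (.g (nat_lit 0) (.e (nat_lit 117367) (nat_lit 0) .nil) .nil))) 
(.lf (nat_lit 482287) (.g (nat_lit 6858) (.e (nat_lit 7265) (nat_lit 384) (.e (nat_lit 57406) (nat_lit 12) (.e (nat_lit 336019) (nat_lit 3) (.e (nat_lit 98373) (nat_lit 29) (.e (nat_lit 450588) (nat_lit 10) (.e (nat_lit 573473) (nat_lit 12) (.e (nat_lit 57348) (nat_lit 0) .nil))))))) (.g (nat_lit 1) (.e (nat_lit 118944) (nat_lit 0) .nil) .nil)))))))) 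
(.nd (nat_lit 5) (.nd (nat_lit 6) (.nd (nat_lit 7) (.nd (nat_lit 8) (.nd (nat_lit 9) 
(.lf (nat_lit 481311) (.g (nat_lit 1509) (.e (nat_lit 5395) (nat_lit 301) (.e (nat_lit 57464) (nat_lit 23) (.e (nat_lit 516165) (nat_lit 12) (.e (nat_lit 450579) (nat_lit 5) (.e (nat_lit 532526) (nat_lit 8) .nil))))) (.g (nat_lit 0) (.e (nat_lit 112954) (nat_lit 0) .nil) .nil))) 
(.lf (nat_lit 481823) (.g (nat_lit 2781) (.e (nat_lit 6940) (nat_lit 375) (.e (nat_lit 163947) (nat_lit 20) (.e (nat_lit 491560) (nat_lit 10) (.e (nat_lit 344177) (nat_lit 43) (.e (nat_lit 770072) (nat_lit 8) .nil))))) (.g (nat_lit 0) (.e (nat_lit 117790) (nat_lit 0) .nil) .nil)))) (.nd (nat_lit 9) 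
(.lf (nat_lit 481567) (.g (nat_lit 2099) (.e (nat_lit 5547) (nat_lit 306) (.e (nat_lit 2638) (nat_lit 165) (.e (nat_lit 180277) (nat_lit 32) (.e (nat_lit 1428) (nat_lit 108) (.e (nat_lit 336432) (nat_lit 30) (.e (nat_lit 458496) (nat_lit 0) .nil)))))) (.g (nat_lit 1) (.e (nat_lit 114386) (nat_lit 0) .nil) .nil))) 
(.lf (nat_lit 482079) (.g (nat_lit 780) (.e (nat_lit 7103) (nat_lit 380) (.e (nat_lit 164356) (nat_lit 246) (.e (nat_lit 112) (nat_lit 3) .nil))) (.g (nat_lit 0) (.e (nat_lit 118321) (nat_lit 0) .nil) .nil))))) (.nd (nat_lit 8) (.nd (nat_lit 9) 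
(.lf (nat_lit 481439) (.g (nat_lit 3594) (.e (nat_lit 5546) (nat_lit 306) (.e (nat_lit 2611) (nat_lit 163) (.e (nat_lit 163978) (nat_lit 30) (.e (nat_lit 573479) (nat_lit 13) (.e (nat_lit 65604) (nat_lit 9) (.e (nat_lit 336013) (nat_lit 2) (.e (nat_lit 90170) (nat_lit 13) (.e (nat_lit 172046) (nat_lit 0) (.e (nat_lit 2458) (nat_lit 157) .nil))))))))) (.g (nat_lit 1) (.e (nat_lit 113805) (nat_lit 0) .nil) .nil))) 
(.lf (nat_lit 481951) (.g (nat_lit 2150) (.e (nat_lit 7014) (nat_lit 377) (.e (nat_lit 2797) (nat_lit 180) (.e (nat_lit 303117) (nat_lit 2) (.e (nat_lit 196666) (nat_lit 13) .nil)))) (.g (nat_lit 0) (.e (nat_lit 118082) (nat_lit 0) .nil) .nil)))) (.nd (nat_lit 9) 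
(.lf (nat_lit 481695) (.g (nat_lit 1520) (.e (nat_lit 5588) (nat_lit 310) (.e (nat_lit 163875) (nat_lit 3) (.e (nat_lit 204861) (nat_lit 26) (.e (nat_lit 336213) (nat_lit 13) .nil)))) (.g (nat_lit 0) (.e (nat_lit 115557) (nat_lit 0) .nil) .nil))) 
(.lf (nat_lit 482207) (.g (nat_lit 5963) (.e (nat_lit 7261) (nat_lit 384) (.e (nat_lit 57411) (nat_lit 12) (.e (nat_lit 336019) (nat_lit 3) (.e (nat_lit 98373) (nat_lit 29) (.e (nat_lit 450588) (nat_lit 10) (.e (nat_lit 573473) (nat_lit 12) (.e (nat_lit 57348) (nat_lit 0) .nil))))))) (.g (nat_lit 1) (.e (nat_lit 118853) (nat_lit 0) .nil) .nil)))))) 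
(.nd (nat_lit 7) (.nd (nat_lit 8) (.nd (nat_lit 9) 
(.lf (nat_lit 481375) (.g (nat_lit 2767) (.e (nat_lit 5543) (nat_lit 306) (.e (nat_lit 2611) (nat_lit 163) (.e (nat_lit 163978) (nat_lit 30) (.e (nat_lit 573479) (nat_lit 13) (.e (nat_lit 65619) (nat_lit 10) .nil))))) (.g (nat_lit 0) (.e (nat_lit 113520) (nat_lit 0) .nil) .nil))) 
(.lf (nat_lit 481887) (.g (nat_lit 1968) (.e (nat_lit 6989) (nat_lit 377) (.e (nat_lit 2810) (nat_lit 180) (.e (nat_lit 303119) (nat_lit 3) (.e (nat_lit 204877) (nat_lit 31) (.e (nat_lit 376867) (nat_lit 23) .nil))))) (.g (nat_lit 0) (.e (nat_lit 117901) (nat_lit 0) .nil) .nil)))) (.nd (nat_lit 9) 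
(.lf (nat_lit 481631) (.g (nat_lit 3708) (.e (nat_lit 5548) (nat_lit 306) (.e (nat_lit 2638) (nat_lit 165) (.e (nat_lit 180278) (nat_lit 32) (.e (nat_lit 1661) (nat_lit 115) (.e (nat_lit 393282) (nat_lit 24) (.e (nat_lit 434209) (nat_lit 18) .nil)))))) (.g (nat_lit 1) (.e (nat_lit 114654) (nat_lit 0) .nil) .nil))) 
(.lf (nat_lit 482143) (.g (nat_lit 900) (.e (nat_lit 7282) (nat_lit 386) (.e (nat_lit 163875) (nat_lit 3) (.e (nat_lit 204838) (nat_lit 20) .nil))) (.g (nat_lit 0) (.e (nat_lit 118669) (nat_lit 0) .nil) .nil))))) (.nd (nat_lit 8) (.nd (nat_lit 9) 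
(.lf (nat_lit 481503) (.g (nat_lit 1220) (.e (nat_lit 5546) (nat_lit 306) (.e (nat_lit 2650) (nat_lit 166) (.e (nat_lit 188434) (nat_lit 20) (.e (nat_lit 3409) (nat_lit 212) .nil)))) (.g (nat_lit 0) (.e (nat_lit 114133) (nat_lit 0) .nil) .nil))) 
(.lf (nat_lit 482015) (.g (nat_lit 5553) (.e (nat_lit 7064) (nat_lit 377) (.e (nat_lit 1349) (nat_lit 102) (.e (nat_lit 286735) (nat_lit 3) (.e (nat_lit 98359) (nat_lit 26) (.e (nat_lit 426338) (nat_lit 14) (.e (nat_lit 491537) (nat_lit 2) (.e (nat_lit 90133) (nat_lit 9) (.e (nat_lit 2400) (nat_lit 157) .nil)))))))) (.g (nat_lit 1) (.e (nat_lit 118189) (nat_lit 0) .nil) .nil)))) (.nd (nat_lit 9) 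
(.lf (nat_lit 481759) (.g (nat_lit 2999) (.e (nat_lit 5599) (nat_lit 310) (.e (nat_lit 163905) (nat_lit 12) (.e (nat_lit 426320) (nat_lit 12) (.e (nat_lit 475210) (nat_lit 41) (.e (nat_lit 712753) (nat_lit 30) (.e (nat_lit 450568) (nat_lit 0) .nil)))))) (.g (nat_lit 1) (.e (nat_lit 117126) (nat_lit 0) .nil) .nil))) 
(.lf (nat_lit 482271) (.g (nat_lit 2895) (.e (nat_lit 7265) (nat_lit 384) (.e (nat_lit 57406) (nat_lit 12) (.e (nat_lit 336019) (nat_lit 3) (.e (nat_lit 98359) (nat_lit 26) (.e (nat_lit 426286) (nat_lit 10) (.e (nat_lit 434248) (nat_lit 28) (.e (nat_lit 573475) (nat_lit 12) (.e (nat_lit 57353) (nat_lit 0) .nil)))))))) (.g (nat_lit 1) (.e (nat_lit 118928) (nat_lit 0) .nil) .nil))))))) 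
(.nd (nat_lit 6) (.nd (nat_lit 7) (.nd (nat_lit 8) (.nd (nat_lit 9) 
(.lf (nat_lit 481343) (.g (nat_lit 703) (.e (nat_lit 5413) (nat_lit 303) (.e (nat_lit 73750) (nat_lit 6) (.e (nat_lit 540724) (nat_lit 28) (.e (nat_lit 442395) (nat_lit 20) (.e (nat_lit 3571) (nat_lit 222) (.e (nat_lit 737284) (nat_lit 0) .nil)))))) (.g (nat_lit 1) (.e (nat_lit 113090) (nat_lit 0) .nil) .nil))) 
(.lf (nat_lit 481855) (.g (nat_lit 3822) (.e (nat_lit 6966) (nat_lit 377) (.e (nat_lit 2809) (nat_lit 180) (.e (nat_lit 303117) (nat_lit 2) (.e (nat_lit 196666) (nat_lit 13) (.e (nat_lit 65619) (nat_lit 10) .nil))))) (.g (nat_lit 0) (.e (nat_lit 117841) (nat_lit 0) .nil) .nil)))) (.nd (nat_lit 9) 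
(.lf (nat_lit 481599) (.g (nat_lit 2580) (.e (nat_lit 5548) (nat_lit 306) (.e (nat_lit 2610) (nat_lit 163) (.e (nat_lit 163978) (nat_lit 30) (.e (nat_lit 573484) (nat_lit 13) (.e (nat_lit 65610) (nat_lit 10) (.e (nat_lit 344117) (nat_lit 21) (.e (nat_lit 516145) (nat_lit 9) (.e (nat_lit 426095) (nat_lit 0) (.e (nat_lit 2458) (nat_lit 157) .nil))))))))) (.g (nat_lit 1) (.e (nat_lit 114536) (nat_lit 0) .nil) .nil))) 
(.lf (nat_lit 482111) (.g (nat_lit 1071) (.e (nat_lit 7125) (nat_lit 382) (.e (nat_lit 1201) (nat_lit 88) (.e (nat_lit 65571) (nat_lit 3) (.e (nat_lit 98372) (nat_lit 29) .nil)))) (.g (nat_lit 0) (.e (nat_lit 118449) (nat_lit 0) .nil) .nil))))) (.nd (nat_lit 8) (.nd (nat_lit 9) 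
(.lf (nat_lit 481471) (.g (nat_lit 2192) (.e (nat_lit 5546) (nat_lit 306) (.e (nat_lit 2638) (nat_lit 165) (.e (nat_lit 180277) (nat_lit 32) (.e (nat_lit 1427) (nat_lit 108) (.e (nat_lit 336434) (nat_lit 30) (.e (nat_lit 458496) (nat_lit 0) .nil)))))) (.g (nat_lit 1) (.e (nat_lit 113990) (nat_lit 0) .nil) .nil))) 
(.lf (nat_lit 481983) (.g (nat_lit 812) (.e (nat_lit 7069) (nat_lit 377) (.e (nat_lit 2797) (nat_lit 180) (.e (nat_lit 303119) (nat_lit 3) .nil))) (.g (nat_lit 0) (.e (nat_lit 118130) (nat_lit 0) .nil) .nil)))) (.nd (nat_lit 9) 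
(.lf (nat_lit 481727) (.g (nat_lit 2362) (.e (nat_lit 5596) (nat_lit 310) (.e (nat_lit 163867) (nat_lit 2) (.e (nat_lit 196670) (nat_lit 14) (.e (nat_lit 73746) (nat_lit 3) (.e (nat_lit 516131) (nat_lit 3) .nil))))) (.g (nat_lit 0) (.e (nat_lit 116227) (nat_lit 0) .nil) .nil))) 
(.lf (nat_lit 482239) (.g (nat_lit 3583) (.e (nat_lit 7263) (nat_lit 384) (.e (nat_lit 57412) (nat_lit 12) (.e (nat_lit 336001) (nat_lit 2) (.e (nat_lit 90170) (nat_lit 13) (.e (nat_lit 172106) (nat_lit 10) (.e (nat_lit 434244) (nat_lit 28) (.e (nat_lit 573474) (nat_lit 12) (.e (nat_lit 57344) (nat_lit 0) .nil)))))))) (.g (nat_lit 1) (.e (nat_lit 118888) (nat_lit 0) .nil) .nil)))))) 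
(.nd (nat_lit 7) (.nd (nat_lit 8) (.nd (nat_lit 9) 
(.lf (nat_lit 481407) (.g (nat_lit 2131) (.e (nat_lit 5543) (nat_lit 306) (.e (nat_lit 2648) (nat_lit 166) (.e (nat_lit 188420) (nat_lit 0) (.e (nat_lit 2175) (nat_lit 143) (.e (nat_lit 712755) (nat_lit 30) (.e (nat_lit 458496) (nat_lit 0) .nil)))))) (.g (nat_lit 1) (.e (nat_lit 113634) (nat_lit 0) .nil) .nil))) 
(.lf (nat_lit 481919) (.g (nat_lit 1416) (.e (nat_lit 6998) (nat_lit 377) (.e (nat_lit 2797) (nat_lit 180) (.e (nat_lit 303117) (nat_lit 2) (.e (nat_lit 196665) (nat_lit 13) .nil)))) (.g (nat_lit 0) (.e (nat_lit 117985) (nat_lit 0) .nil) .nil)))) (.nd (nat_lit 9) 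
(.lf (nat_lit 481663) (.g (nat_lit 2242) (.e (nat_lit 5587) (nat_lit 310) (.e (nat_lit 163874) (nat_lit 3) (.e (nat_lit 204864) (nat_lit 27) (.e (nat_lit 344130) (nat_lit 26) (.e (nat_lit 557103) (nat_lit 14) .nil))))) (.g (nat_lit 0) (.e (nat_lit 115266) (nat_lit 0) .nil) .nil))) 
(.lf (nat_lit 482175) (.g (nat_lit 2541) (.e (nat_lit 7261) (nat_lit 384) (.e (nat_lit 57406) (nat_lit 12) (.e (nat_lit 336019) (nat_lit 3) (.e (nat_lit 98359) (nat_lit 26) (.e (nat_lit 426286) (nat_lit 10) .nil))))) (.g (nat_lit 0) (.e (nat_lit 118816) (nat_lit 0) .nil) .nil))))) (.nd (nat_lit 8) (.nd (nat_lit 9) 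
(.lf (nat_lit 481535) (.g (nat_lit 2267) (.e (nat_lit 5547) (nat_lit 306) (.e (nat_lit 2619) (nat_lit 164) (.e (nat_lit 172118) (nat_lit 12) (.e (nat_lit 475211) (nat_lit 41) (.e (nat_lit 712753) (nat_lit 30) (.e (nat_lit 458496) (nat_lit 0) .nil)))))) (.g (nat_lit 1) (.e (nat_lit 114275) (nat_lit 0) .nil) .nil))) 
(.lf (nat_lit 482047) (.g (nat_lit 2259) (.e (nat_lit 7936) (nat_lit 377) (.e (nat_lit 2798) (nat_lit 180) (.e (nat_lit 303119) (nat_lit 3) (.e (nat_lit 204868) (nat_lit 29) (.e (nat_lit 360466) (nat_lit 3) .nil))))) (.g (nat_lit 0) (.e (nat_lit 118242) (nat_lit 0) .nil) .nil)))) (.nd (nat_lit 9) 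
(.lf (nat_lit 481791) (.g (nat_lit 584) (.e (nat_lit 7936) (nat_lit 310) (.e (nat_lit 163933) (nat_lit 17) (.e (nat_lit 466947) (nat_lit 0) .nil))) (.g (nat_lit 0) (.e (nat_lit 117652) (nat_lit 0) .nil) .nil))) 
(.lf (nat_lit 482303) (.g (nat_lit 4133) (.e (nat_lit 7265) (nat_lit 384) (.e (nat_lit 57406) (nat_lit 12) (.e (nat_lit 336316) (nat_lit 17) (.e (nat_lit 196666) (nat_lit 13) (.e (nat_lit 65629) (nat_lit 14) (.e (nat_lit 401472) (nat_lit 28) (.e (nat_lit 344096) (nat_lit 18) .nil))))))) (.g (nat_lit 1) (.e (nat_lit 118960) (nat_lit 0) .nil) .nil)))))))))))))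

noncomputable def tv5531 : DT := (.nd (nat_lit 0) (.nd (nat_lit 1) (.nd (nat_lit 2) (.nd (nat_lit 3) (.nd (nat_lit 4) (.nd (nat_lit 5) (.nd (nat_lit 6) (.nd (nat_lit 7) (.nd (nat_lit 8) (.nd (nat_lit 9) 
(.lf (nat_lit 482304) (.g (nat_lit 3817) (.e (nat_lit 7265) (nat_lit 384) (.e (nat_lit 57406) (nat_lit 12) (.e (nat_lit 336316) (nat_lit 17) (.e (nat_lit 196666) (nat_lit 13) (.e (nat_lit 65630) (nat_lit 14) (.e (nat_lit 401472) (nat_lit 28) (.e (nat_lit 344094) (nat_lit 18) .nil))))))) (.g (nat_lit 1) (.e (nat_lit 118961) (nat_lit 0) .nil) .nil))) 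
(.lf (nat_lit 482816) (.g (nat_lit 3820) (.e (nat_lit 7590) (nat_lit 407) (.e (nat_lit 73748) (nat_lit 3) (.e (nat_lit 516139) (nat_lit 7) (.e (nat_lit 409641) (nat_lit 17) (.e (nat_lit 294928) (nat_lit 2) (.e (nat_lit 90133) (nat_lit 9) (.e (nat_lit 2397) (nat_lit 157) .nil))))))) (.g (nat_lit 1) (.e (nat_lit 120087) (nat_lit 0) .nil) .nil)))) (.nd (nat_lit 9) 
(.lf (nat_lit 482560) (.g (nat_lit 2164) (.e (nat_lit 7498) (nat_lit 402) (.e (nat_lit 1234) (nat_lit 91) (.e (nat_lit 90170) (nat_lit 13) (.e (nat_lit 172113) (nat_lit 10) (.e (nat_lit 434247) (nat_lit 28) .nil))))) (.g (nat_lit 0) (.e (nat_lit 119713) (nat_lit 0) .nil) .nil))) 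
(.lf (nat_lit 483072) (.g (nat_lit 1153) (.e (nat_lit 7936) (nat_lit 415) (.e (nat_lit 229415) (nat_lit 15) (.e (nat_lit 450584) (nat_lit 9) (.e (nat_lit 565252) (nat_lit 0) .nil)))) (.g (nat_lit 0) (.e (nat_lit 120783) (nat_lit 0) .nil) .nil))))) (.nd (nat_lit 8) (.nd (nat_lit 9) 
(.lf (nat_lit 482432) (.g (nat_lit 4005) (.e (nat_lit 7377) (nat_lit 390) (.e (nat_lit 24665) (nat_lit 14) (.e (nat_lit 401448) (nat_lit 10) (.e (nat_lit 434291) (nat_lit 44) (.e (nat_lit 704737) (nat_lit 11) (.e (nat_lit 16388) (nat_lit 0) .nil)))))) (.g (nat_lit 1) (.e (nat_lit 119400) (nat_lit 0) .nil) .nil))) 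
(.lf (nat_lit 482944) (.g (nat_lit 1586) (.e (nat_lit 7593) (nat_lit 407) (.e (nat_lit 73775) (nat_lit 26) (.e (nat_lit 778465) (nat_lit 11) (.e (nat_lit 24631) (nat_lit 9) (.e (nat_lit 336412) (nat_lit 27) .nil))))) (.g (nat_lit 0) (.e (nat_lit 120276) (nat_lit 0) .nil) .nil)))) (.nd (nat_lit 9) 
(.lf (nat_lit 482688) (.g (nat_lit 4740) (.e (nat_lit 7581) (nat_lit 405) (.e (nat_lit 57464) (nat_lit 23) (.e (nat_lit 516151) (nat_lit 9) (.e (nat_lit 426286) (nat_lit 10) (.e (nat_lit 434248) (nat_lit 28) (.e (nat_lit 573469) (nat_lit 11) (.e (nat_lit 16388) (nat_lit 0) .nil))))))) (.g (nat_lit 1) (.e (nat_lit 119911) (nat_lit 0) .nil) .nil))) 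
(.lf (nat_lit 483200) (.g (nat_lit 2013) (.e (nat_lit 6203) (nat_lit 332) (.e (nat_lit 2798) (nat_lit 180) (.e (nat_lit 303133) (nat_lit 9) (.e (nat_lit 426499) (nat_lit 27) (.e (nat_lit 336155) (nat_lit 9) .nil))))) (.g (nat_lit 0) (.e (nat_lit 121488) (nat_lit 0) .nil) .nil)))))) (.nd (nat_lit 7) (.nd (nat_lit 8) (.nd (nat_lit 9) 
(.lf (nat_lit 482368) (.g (nat_lit 5526) (.e (nat_lit 7266) (nat_lit 384) (.e (nat_lit 57431) (nat_lit 16) (.e (nat_lit 368676) (nat_lit 21) (.e (nat_lit 516166) (nat_lit 12) (.e (nat_lit 450588) (nat_lit 10) (.e (nat_lit 573473) (nat_lit 12) (.e (nat_lit 57353) (nat_lit 0) .nil))))))) (.g (nat_lit 1) (.e (nat_lit 119030) (nat_lit 0) .nil) .nil))) 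
(.lf (nat_lit 482880) (.g (nat_lit 1459) (.e (nat_lit 7591) (nat_lit 407) (.e (nat_lit 73776) (nat_lit 26) (.e (nat_lit 778463) (nat_lit 11) (.e (nat_lit 24657) (nat_lit 13) (.e (nat_lit 393231) (nat_lit 17) .nil))))) (.g (nat_lit 1) (.e (nat_lit 120153) (nat_lit 0) .nil) .nil)))) (.nd (nat_lit 9) 
(.lf (nat_lit 482624) (.g (nat_lit 1839) (.e (nat_lit 7557) (nat_lit 402) (.e (nat_lit 1638) (nat_lit 114) (.e (nat_lit 385074) (nat_lit 31) (.e (nat_lit 573491) (nat_lit 15) .nil)))) (.g (nat_lit 0) (.e (nat_lit 119785) (nat_lit 0) .nil) .nil))) 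
(.lf (nat_lit 483136) (.g (nat_lit 785) (.e (nat_lit 6147) (nat_lit 332) (.e (nat_lit 1348) (nat_lit 102) (.e (nat_lit 286733) (nat_lit 2) .nil))) (.g (nat_lit 0) (.e (nat_lit 121256) (nat_lit 0) .nil) .nil))))) (.nd (nat_lit 8) (.nd (nat_lit 9) 
(.lf (nat_lit 482496) (.g (nat_lit 4209) (.e (nat_lit 7388) (nat_lit 393) (.e (nat_lit 180252) (nat_lit 10) (.e (nat_lit 573474) (nat_lit 12) (.e (nat_lit 57572) (nat_lit 54) (.e (nat_lit 770072) (nat_lit 8) (.e (nat_lit 65571) (nat_lit 3) (.e (nat_lit 98320) (nat_lit 17) .nil))))))) (.g (nat_lit 1) (.e (nat_lit 119574) (nat_lit 0) .nil) .nil))) 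
(.lf (nat_lit 483008) (.g (nat_lit 1106) (.e (nat_lit 7685) (nat_lit 410) (.e (nat_lit 2649) (nat_lit 166) (.e (nat_lit 188433) (nat_lit 20) (.e (nat_lit 3223) (nat_lit 196) .nil)))) (.g (nat_lit 0) (.e (nat_lit 120509) (nat_lit 0) .nil) .nil)))) (.nd (nat_lit 9) 
(.lf (nat_lit 482752) (.g (nat_lit 773) (.e (nat_lit 7587) (nat_lit 406) (.e (nat_lit 65647) (nat_lit 25) (.e (nat_lit 409602) (nat_lit 0) (.e (nat_lit 5404) (nat_lit 302) (.e (nat_lit 65653) (nat_lit 27) .nil))))) (.g (nat_lit 0) (.e (nat_lit 120000) (nat_lit 0) .nil) .nil))) 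
(.lf (nat_lit 483264) (.g (nat_lit 3467) (.e (nat_lit 6254) (nat_lit 337) (.e (nat_lit 2630) (nat_lit 164) (.e (nat_lit 172065) (nat_lit 3) (.e (nat_lit 204869) (nat_lit 29) (.e (nat_lit 360474) (nat_lit 8) (.e (nat_lit 557094) (nat_lit 12) (.e (nat_lit 163849) (nat_lit 0) .nil))))))) (.g (nat_lit 1) (.e (nat_lit 122154) (nat_lit 0) .nil) .nil))))))) 
(.nd (nat_lit 6) (.nd (nat_lit 7) (.nd (nat_lit 8) (.nd (nat_lit 9) 
(.lf (nat_lit 482336) (.g (nat_lit 4865) (.e (nat_lit 7265) (nat_lit 384) (.e (nat_lit 57431) (nat_lit 16) (.e (nat_lit 368676) (nat_lit 21) (.e (nat_lit 516166) (nat_lit 12) (.e (nat_lit 450587) (nat_lit 10) (.e (nat_lit 573478) (nat_lit 12) (.e (nat_lit 57353) (nat_lit 0) .nil))))))) (.g (nat_lit 1) (.e (nat_lit 118996) (nat_lit 0) .nil) .nil))) 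
(.lf (nat_lit 482848) (.g (nat_lit 3063) (.e (nat_lit 7591) (nat_lit 407) (.e (nat_lit 73747) (nat_lit 3) (.e (nat_lit 516139) (nat_lit 7) (.e (nat_lit 409641) (nat_lit 17) (.e (nat_lit 294930) (nat_lit 3) .nil))))) (.g (nat_lit 0) (.e (nat_lit 120121) (nat_lit 0) .nil) .nil)))) (.nd (nat_lit 9) 
(.lf (nat_lit 482592) (.g (nat_lit 2125) (.e (nat_lit 7548) (nat_lit 402) (.e (nat_lit 1234) (nat_lit 91) (.e (nat_lit 90170) (nat_lit 13) (.e (nat_lit 172113) (nat_lit 10) (.e (nat_lit 434248) (nat_lit 28) .nil))))) (.g (nat_lit 0) (.e (nat_lit 119748) (nat_lit 0) .nil) .nil))) 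
(.lf (nat_lit 483104) (.g (nat_lit 2042) (.e (nat_lit 6092) (nat_lit 332) (.e (nat_lit 1374) (nat_lit 104) (.e (nat_lit 303119) (nat_lit 3) (.e (nat_lit 204883) (nat_lit 33) .nil)))) (.g (nat_lit 0) (.e (nat_lit 121099) (nat_lit 0) .nil) .nil))))) (.nd (nat_lit 8) (.nd (nat_lit 9) 
(.lf (nat_lit 482464) (.g (nat_lit 1989) (.e (nat_lit 7386) (nat_lit 392) (.e (nat_lit 172067) (nat_lit 3) (.e (nat_lit 204846) (nat_lit 24) (.e (nat_lit 319504) (nat_lit 10) .nil)))) (.g (nat_lit 0) (.e (nat_lit 119526) (nat_lit 0) .nil) .nil))) 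
(.lf (nat_lit 482976) (.g (nat_lit 1641) (.e (nat_lit 7936) (nat_lit 407) (.e (nat_lit 73747) (nat_lit 3) (.e (nat_lit 516139) (nat_lit 7) (.e (nat_lit 409616) (nat_lit 10) (.e (nat_lit 7936) (nat_lit 301) .nil))))) (.g (nat_lit 0) (.e (nat_lit 120311) (nat_lit 0) .nil) .nil)))) (.nd (nat_lit 9) 
(.lf (nat_lit 482720) (.g (nat_lit 1128) (.e (nat_lit 7585) (nat_lit 406) (.e (nat_lit 65578) (nat_lit 6) (.e (nat_lit 147494) (nat_lit 11) (.e (nat_lit 24657) (nat_lit 13) (.e (nat_lit 401152) (nat_lit 17) .nil))))) (.g (nat_lit 0) (.e (nat_lit 119957) (nat_lit 0) .nil) .nil))) 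
(.lf (nat_lit 483232) (.g (nat_lit 2641) (.e (nat_lit 6217) (nat_lit 333) (.e (nat_lit 57881) (nat_lit 270) (.e (nat_lit 371) (nat_lit 32) (.e (nat_lit 426544) (nat_lit 30) (.e (nat_lit 360467) (nat_lit 3) (.e (nat_lit 516191) (nat_lit 17) .nil)))))) (.g (nat_lit 1) (.e (nat_lit 121933) (nat_lit 0) .nil) .nil)))))) (.nd (nat_lit 7) (.nd (nat_lit 8) (.nd (nat_lit 9) 
(.lf (nat_lit 482400) (.g (nat_lit 1882) (.e (nat_lit 7936) (nat_lit 388) (.e (nat_lit 2610) (nat_lit 163) (.e (nat_lit 164347) (nat_lit 240) (.e (nat_lit 2610) (nat_lit 163) (.e (nat_lit 163977) (nat_lit 30) .nil))))) (.g (nat_lit 0) (.e (nat_lit 119279) (nat_lit 0) .nil) .nil))) 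
(.lf (nat_lit 482912) (.g (nat_lit 2831) (.e (nat_lit 7593) (nat_lit 407) (.e (nat_lit 73748) (nat_lit 3) (.e (nat_lit 516139) (nat_lit 7) (.e (nat_lit 409641) (nat_lit 17) (.e (nat_lit 294931) (nat_lit 3) (.e (nat_lit 98320) (nat_lit 17) .nil)))))) (.g (nat_lit 1) (.e (nat_lit 120244) (nat_lit 0) .nil) .nil)))) (.nd (nat_lit 9) 
(.lf (nat_lit 482656) (.g (nat_lit 1310) (.e (nat_lit 7936) (nat_lit 402) (.e (nat_lit 1428) (nat_lit 108) (.e (nat_lit 336421) (nat_lit 28) (.e (nat_lit 434181) (nat_lit 0) (.e (nat_lit 1661) (nat_lit 115) .nil))))) (.g (nat_lit 0) (.e (nat_lit 119818) (nat_lit 0) .nil) .nil))) 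
(.lf (nat_lit 483168) (.g (nat_lit 2859) (.e (nat_lit 6203) (nat_lit 332) (.e (nat_lit 2798) (nat_lit 180) (.e (nat_lit 303117) (nat_lit 2) (.e (nat_lit 196665) (nat_lit 13) (.e (nat_lit 65628) (nat_lit 14) (.e (nat_lit 401425) (nat_lit 2) (.e (nat_lit 196628) (nat_lit 9) (.e (nat_lit 968) (nat_lit 81) .nil)))))))) (.g (nat_lit 1) (.e (nat_lit 121433) (nat_lit 0) .nil) .nil))))) 
(.nd (nat_lit 8) (.nd (nat_lit 9) 
(.lf (nat_lit 482528) (.g (nat_lit 2647) (.e (nat_lit 7486) (nat_lit 402) (.e (nat_lit 1256) (nat_lit 92) (.e (nat_lit 98373) (nat_lit 29) (.e (nat_lit 450588) (nat_lit 10) (.e (nat_lit 573457) (nat_lit 9) .nil))))) (.g (nat_lit 0) (.e (nat_lit 119669) (nat_lit 0) .nil) .nil))) 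
(.lf (nat_lit 483040) (.g (nat_lit 955) (.e (nat_lit 7708) (nat_lit 414) (.e (nat_lit 163875) (nat_lit 3) (.e (nat_lit 204864) (nat_lit 27) .nil))) (.g (nat_lit 0) (.e (nat_lit 120601) (nat_lit 0) .nil) .nil)))) (.nd (nat_lit 9) 
(.lf (nat_lit 482784) (.g (nat_lit 2539) (.e (nat_lit 7589) (nat_lit 406) (.e (nat_lit 65653) (nat_lit 27) (.e (nat_lit 426342) (nat_lit 14) (.e (nat_lit 491570) (nat_lit 13) (.e (nat_lit 393232) (nat_lit 17) .nil))))) (.g (nat_lit 1) (.e (nat_lit 120050) (nat_lit 0) .nil) .nil))) 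
(.lf (nat_lit 483296) (.g (nat_lit 4492) (.e (nat_lit 6255) (nat_lit 337) (.e (nat_lit 2630) (nat_lit 164) (.e (nat_lit 172062) (nat_lit 2) (.e (nat_lit 196666) (nat_lit 13) (.e (nat_lit 65617) (nat_lit 10) (.e (nat_lit 344133) (nat_lit 26) (.e (nat_lit 557089) (nat_lit 12) (.e (nat_lit 163849) (nat_lit 0) .nil)))))))) (.g (nat_lit 1) (.e (nat_lit 122298) (nat_lit 0) .nil) .nil)))))))) 
(.nd (nat_lit 5) (.nd (nat_lit 6) (.nd (nat_lit 7) (.nd (nat_lit 8) (.nd (nat_lit 9) 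
(.lf (nat_lit 482320) (.g (nat_lit 4714) (.e (nat_lit 7265) (nat_lit 384) (.e (nat_lit 57412) (nat_lit 12) (.e (nat_lit 336023) (nat_lit 3) (.e (nat_lit 98373) (nat_lit 29) (.e (nat_lit 450588) (nat_lit 10) (.e (nat_lit 573473) (nat_lit 12) (.e (nat_lit 57348) (nat_lit 0) .nil))))))) (.g (nat_lit 1) (.e (nat_lit 118980) (nat_lit 0) .nil) .nil))) 
(.lf (nat_lit 482832) (.g (nat_lit 1128) (.e (nat_lit 7590) (nat_lit 407) (.e (nat_lit 73775) (nat_lit 26) (.e (nat_lit 778465) (nat_lit 11) (.e (nat_lit 24636) (nat_lit 9) .nil)))) (.g (nat_lit 0) (.e (nat_lit 120103) (nat_lit 0) .nil) .nil)))) (.nd (nat_lit 9) 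
(.lf (nat_lit 482576) (.g (nat_lit 1448) (.e (nat_lit 7521) (nat_lit 402) (.e (nat_lit 1427) (nat_lit 108) (.e (nat_lit 336395) (nat_lit 27) (.e (nat_lit 426340) (nat_lit 14) .nil)))) (.g (nat_lit 0) (.e (nat_lit 119729) (nat_lit 0) .nil) .nil))) 
(.lf (nat_lit 483088) (.g (nat_lit 2771) (.e (nat_lit 7695) (nat_lit 412) (.e (nat_lit 57379) (nat_lit 3) (.e (nat_lit 98367) (nat_lit 27) (.e (nat_lit 434231) (nat_lit 23) (.e (nat_lit 532579) (nat_lit 26) (.e (nat_lit 426124) (nat_lit 2) (.e (nat_lit 196677) (nat_lit 16) (.e (nat_lit 122880) (nat_lit 0) .nil)))))))) (.g (nat_lit 1) (.e (nat_lit 120799) (nat_lit 0) .nil) .nil))))) 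
(.nd (nat_lit 8) (.nd (nat_lit 9) 
(.lf (nat_lit 482448) (.g (nat_lit 1557) (.e (nat_lit 7379) (nat_lit 390) (.e (nat_lit 24665) (nat_lit 14) (.e (nat_lit 401448) (nat_lit 10) (.e (nat_lit 434291) (nat_lit 44) .nil)))) (.g (nat_lit 0) (.e (nat_lit 119451) (nat_lit 0) .nil) .nil))) 
(.lf (nat_lit 482960) (.g (nat_lit 1555) (.e (nat_lit 7593) (nat_lit 407) (.e (nat_lit 73775) (nat_lit 26) (.e (nat_lit 778466) (nat_lit 11) (.e (nat_lit 24632) (nat_lit 9) (.e (nat_lit 336388) (nat_lit 27) (.e (nat_lit 426009) (nat_lit 0) .nil)))))) (.g (nat_lit 1) (.e (nat_lit 120293) (nat_lit 0) .nil) .nil)))) (.nd (nat_lit 9) 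
(.lf (nat_lit 482704) (.g (nat_lit 4006) (.e (nat_lit 7583) (nat_lit 405) (.e (nat_lit 57464) (nat_lit 23) (.e (nat_lit 516151) (nat_lit 9) (.e (nat_lit 426286) (nat_lit 10) (.e (nat_lit 434245) (nat_lit 28) (.e (nat_lit 573469) (nat_lit 11) (.e (nat_lit 16388) (nat_lit 0) .nil))))))) (.g (nat_lit 1) (.e (nat_lit 119933) (nat_lit 0) .nil) .nil))) 
(.lf (nat_lit 483216) (.g (nat_lit 3303) (.e (nat_lit 6234) (nat_lit 335) (.e (nat_lit 164359) (nat_lit 246) (.e (nat_lit 2679) (nat_lit 168) (.e (nat_lit 204869) (nat_lit 29) (.e (nat_lit 360475) (nat_lit 8) (.e (nat_lit 557068) (nat_lit 9) (.e (nat_lit 20) (nat_lit 0) .nil))))))) (.g (nat_lit 1) (.e (nat_lit 121620) (nat_lit 0) .nil) .nil)))))) (.nd (nat_lit 7) (.nd (nat_lit 8) (.nd (nat_lit 9) 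
(.lf (nat_lit 482384) (.g (nat_lit 2002) (.e (nat_lit 7306) (nat_lit 388) (.e (nat_lit 3085) (nat_lit 191) (.e (nat_lit 483337) (nat_lit 9) (.e (nat_lit 426108) (nat_lit 1) (.e (nat_lit 164403) (nat_lit 256) .nil))))) (.g (nat_lit 0) (.e (nat_lit 119058) (nat_lit 0) .nil) .nil))) 
(.lf (nat_lit 482896) (.g (nat_lit 3385) (.e (nat_lit 7593) (nat_lit 407) (.e (nat_lit 73746) (nat_lit 3) (.e (nat_lit 516139) (nat_lit 7) (.e (nat_lit 409641) (nat_lit 17) (.e (nat_lit 294931) (nat_lit 3) (.e (nat_lit 98319) (nat_lit 17) .nil)))))) (.g (nat_lit 1) (.e (nat_lit 120228) (nat_lit 0) .nil) .nil)))) (.nd (nat_lit 9) 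
(.lf (nat_lit 482640) (.g (nat_lit 2548) (.e (nat_lit 7542) (nat_lit 402) (.e (nat_lit 1635) (nat_lit 114) (.e (nat_lit 385074) (nat_lit 31) (.e (nat_lit 573482) (nat_lit 13) (.e (nat_lit 65619) (nat_lit 10) .nil))))) (.g (nat_lit 0) (.e (nat_lit 119801) (nat_lit 0) .nil) .nil))) 
(.lf (nat_lit 483152) (.g (nat_lit 1745) (.e (nat_lit 6202) (nat_lit 332) (.e (nat_lit 2798) (nat_lit 180) (.e (nat_lit 303117) (nat_lit 2) (.e (nat_lit 196669) (nat_lit 14) (.e (nat_lit 73782) (nat_lit 32) .nil))))) (.g (nat_lit 0) (.e (nat_lit 121320) (nat_lit 0) .nil) .nil))))) (.nd (nat_lit 8) (.nd (nat_lit 9) 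
(.lf (nat_lit 482512) (.g (nat_lit 1512) (.e (nat_lit 7936) (nat_lit 393) (.e (nat_lit 180252) (nat_lit 10) (.e (nat_lit 573474) (nat_lit 12) (.e (nat_lit 57572) (nat_lit 54) (.e (nat_lit 770072) (nat_lit 8) .nil))))) (.g (nat_lit 0) (.e (nat_lit 119637) (nat_lit 0) .nil) .nil))) 
(.lf (nat_lit 483024) (.g (nat_lit 3018) (.e (nat_lit 7685) (nat_lit 410) (.e (nat_lit 2650) (nat_lit 166) (.e (nat_lit 188449) (nat_lit 22) (.e (nat_lit 196612) (nat_lit 0) (.e (nat_lit 7936) (nat_lit 24) (.e (nat_lit 368384) (nat_lit 0) .nil)))))) (.g (nat_lit 1) (.e (nat_lit 120529) (nat_lit 0) .nil) .nil)))) (.nd (nat_lit 9) 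
(.lf (nat_lit 482768) (.g (nat_lit 3870) (.e (nat_lit 7587) (nat_lit 406) (.e (nat_lit 65653) (nat_lit 27) (.e (nat_lit 426343) (nat_lit 14) (.e (nat_lit 491570) (nat_lit 13) (.e (nat_lit 393232) (nat_lit 17) .nil))))) (.g (nat_lit 1) (.e (nat_lit 120016) (nat_lit 0) .nil) .nil))) 
(.lf (nat_lit 483280) (.g (nat_lit 1196) (.e (nat_lit 6254) (nat_lit 337) (.e (nat_lit 2630) (nat_lit 164) (.e (nat_lit 172095) (nat_lit 9) (.e (nat_lit 433920) (nat_lit 31) .nil)))) (.g (nat_lit 0) (.e (nat_lit 122181) (nat_lit 0) .nil) .nil))))))) (.nd (nat_lit 6) (.nd (nat_lit 7) (.nd (nat_lit 8) (.nd (nat_lit 9) 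
(.lf (nat_lit 482352) (.g (nat_lit 3822) (.e (nat_lit 7266) (nat_lit 384) (.e (nat_lit 57430) (nat_lit 16) (.e (nat_lit 368676) (nat_lit 21) (.e (nat_lit 516165) (nat_lit 12) (.e (nat_lit 450586) (nat_lit 10) (.e (nat_lit 573475) (nat_lit 12) (.e (nat_lit 57351) (nat_lit 0) .nil))))))) (.g (nat_lit 1) (.e (nat_lit 119014) (nat_lit 0) .nil) .nil))) 
(.lf (nat_lit 482864) (.g (nat_lit 977) (.e (nat_lit 7591) (nat_lit 407) (.e (nat_lit 73773) (nat_lit 25) (.e (nat_lit 770072) (nat_lit 8) (.e (nat_lit 65592) (nat_lit 9) .nil)))) (.g (nat_lit 0) (.e (nat_lit 120137) (nat_lit 0) .nil) .nil)))) (.nd (nat_lit 9) 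
(.lf (nat_lit 482608) (.g (nat_lit 1182) (.e (nat_lit 7556) (nat_lit 402) (.e (nat_lit 1253) (nat_lit 92) (.e (nat_lit 98365) (nat_lit 26) (.e (nat_lit 426297) (nat_lit 11) .nil)))) (.g (nat_lit 0) (.e (nat_lit 119769) (nat_lit 0) .nil) .nil))) 
(.lf (nat_lit 483120) (.g (nat_lit 1315) (.e (nat_lit 6113) (nat_lit 332) (.e (nat_lit 2810) (nat_lit 180) (.e (nat_lit 303145) (nat_lit 13) (.e (nat_lit 483379) (nat_lit 23) .nil)))) (.g (nat_lit 0) (.e (nat_lit 121183) (nat_lit 0) .nil) .nil))))) (.nd (nat_lit 8) (.nd (nat_lit 9) 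
(.lf (nat_lit 482480) (.g (nat_lit 2835) (.e (nat_lit 7936) (nat_lit 392) (.e (nat_lit 172067) (nat_lit 3) (.e (nat_lit 204846) (nat_lit 24) (.e (nat_lit 319504) (nat_lit 10) (.e (nat_lit 5389) (nat_lit 301) .nil))))) (.g (nat_lit 0) (.e (nat_lit 119549) (nat_lit 0) .nil) .nil))) 
(.lf (nat_lit 482992) (.g (nat_lit 2006) (.e (nat_lit 7936) (nat_lit 407) (.e (nat_lit 73775) (nat_lit 26) (.e (nat_lit 778466) (nat_lit 11) (.e (nat_lit 24655) (nat_lit 13) (.e (nat_lit 393236) (nat_lit 17) .nil))))) (.g (nat_lit 0) (.e (nat_lit 120333) (nat_lit 0) .nil) .nil)))) (.nd (nat_lit 9) 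
(.lf (nat_lit 482736) (.g (nat_lit 3082) (.e (nat_lit 7586) (nat_lit 406) (.e (nat_lit 65653) (nat_lit 27) (.e (nat_lit 426305) (nat_lit 12) (.e (nat_lit 475210) (nat_lit 41) (.e (nat_lit 712745) (nat_lit 27) (.e (nat_lit 425984) (nat_lit 0) .nil)))))) (.g (nat_lit 1) (.e (nat_lit 119983) (nat_lit 0) .nil) .nil))) 
(.lf (nat_lit 483248) (.g (nat_lit 4930) (.e (nat_lit 6252) (nat_lit 337) (.e (nat_lit 2630) (nat_lit 164) (.e (nat_lit 172064) (nat_lit 2) (.e (nat_lit 196666) (nat_lit 13) (.e (nat_lit 65617) (nat_lit 10) (.e (nat_lit 344133) (nat_lit 26) (.e (nat_lit 557091) (nat_lit 12) (.e (nat_lit 163847) (nat_lit 0) .nil)))))))) (.g (nat_lit 1) (.e (nat_lit 121982) (nat_lit 0) .nil) .nil)))))) 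
(.nd (nat_lit 7) (.nd (nat_lit 8) (.nd (nat_lit 9) 
(.lf (nat_lit 482416) (.g (nat_lit 497) (.e (nat_lit 7377) (nat_lit 390) (.e (nat_lit 24648) (nat_lit 12) (.e (nat_lit 385109) (nat_lit 51) .nil))) (.g (nat_lit 0) (.e (nat_lit 119373) (nat_lit 0) .nil) .nil))) 
(.lf (nat_lit 482928) (.g (nat_lit 2785) (.e (nat_lit 7593) (nat_lit 407) (.e (nat_lit 73773) (nat_lit 25) (.e (nat_lit 770072) (nat_lit 8) (.e (nat_lit 65627) (nat_lit 13) (.e (nat_lit 393232) (nat_lit 17) .nil))))) (.g (nat_lit 1) (.e (nat_lit 120260) (nat_lit 0) .nil) .nil)))) (.nd (nat_lit 9) 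
(.lf (nat_lit 482672) (.g (nat_lit 931) (.e (nat_lit 7936) (nat_lit 402) (.e (nat_lit 1642) (nat_lit 114) (.e (nat_lit 385074) (nat_lit 31) (.e (nat_lit 573491) (nat_lit 15) .nil)))) (.g (nat_lit 0) (.e (nat_lit 119840) (nat_lit 0) .nil) .nil))) 
(.lf (nat_lit 483184) (.g (nat_lit 1363) (.e (nat_lit 6203) (nat_lit 332) (.e (nat_lit 2798) (nat_lit 180) (.e (nat_lit 303119) (nat_lit 3) (.e (nat_lit 204849) (nat_lit 25) .nil)))) (.g (nat_lit 0) (.e (nat_lit 121465) (nat_lit 0) .nil) .nil))))) (.nd (nat_lit 8) (.nd (nat_lit 9) 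
(.lf (nat_lit 482544) (.g (nat_lit 3023) (.e (nat_lit 7490) (nat_lit 402) (.e (nat_lit 1669) (nat_lit 116) (.e (nat_lit 401425) (nat_lit 2) (.e (nat_lit 196681) (nat_lit 17) (.e (nat_lit 131109) (nat_lit 9) .nil))))) (.g (nat_lit 0) (.e (nat_lit 119687) (nat_lit 0) .nil) .nil))) 
(.lf (nat_lit 483056) (.g (nat_lit 2662) (.e (nat_lit 7710) (nat_lit 414) (.e (nat_lit 163874) (nat_lit 3) (.e (nat_lit 204864) (nat_lit 27) (.e (nat_lit 344132) (nat_lit 26) (.e (nat_lit 557100) (nat_lit 13) (.e (nat_lit 172064) (nat_lit 2) (.e (nat_lit 196661) (nat_lit 12) (.e (nat_lit 57353) (nat_lit 0) .nil)))))))) (.g (nat_lit 1) (.e (nat_lit 120694) (nat_lit 0) .nil) .nil)))) 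
(.nd (nat_lit 9) 
(.lf (nat_lit 482800) (.g (nat_lit 1862) (.e (nat_lit 7936) (nat_lit 406) (.e (nat_lit 65637) (nat_lit 15) (.e (nat_lit 3305) (nat_lit 202) (.e (nat_lit 573493) (nat_lit 15) (.e (nat_lit 81954) (nat_lit 23) .nil))))) (.g (nat_lit 0) (.e (nat_lit 120068) (nat_lit 0) .nil) .nil))) 
(.lf (nat_lit 483312) (.g (nat_lit 4886) (.e (nat_lit 6255) (nat_lit 337) (.e (nat_lit 2630) (nat_lit 164) (.e (nat_lit 172067) (nat_lit 3) (.e (nat_lit 204869) (nat_lit 29) (.e (nat_lit 360475) (nat_lit 8) (.e (nat_lit 557089) (nat_lit 12) (.e (nat_lit 163849) (nat_lit 0) .nil))))))) (.g (nat_lit 1) (.e (nat_lit 122320) (nat_lit 0) .nil) .nil))))))))) 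
(.nd (nat_lit 4) (.nd (nat_lit 5) (.nd (nat_lit 6) (.nd (nat_lit 7) (.nd (nat_lit 8) 
(.nd (nat_lit 9) 
(.lf (nat_lit 482312) (.g (nat_lit 4682) (.e (nat_lit 7265) (nat_lit 384) (.e (nat_lit 57412) (nat_lit 12) (.e (nat_lit 336001) (nat_lit 2) (.e (nat_lit 90170) (nat_lit 13) (.e (nat_lit 172113) (nat_lit 10) (.e (nat_lit 434245) (nat_lit 28) (.e (nat_lit 573474) (nat_lit 12) (.e (nat_lit 57348) (nat_lit 0) .nil)))))))) (.g (nat_lit 1) (.e (nat_lit 118972) (nat_lit 0) .nil) .nil))) 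
(.lf (nat_lit 482824) (.g (nat_lit 2905) (.e (nat_lit 7590) (nat_lit 407) (.e (nat_lit 73755) (nat_lit 8) (.e (nat_lit 557087) (nat_lit 11) (.e (nat_lit 24625) (nat_lit 9) (.e (nat_lit 336016) (nat_lit 2) (.e (nat_lit 90133) (nat_lit 9) (.e (nat_lit 2400) (nat_lit 157) .nil))))))) (.g (nat_lit 1) (.e (nat_lit 120095) (nat_lit 0) .nil) .nil)))) (.nd (nat_lit 9) 
(.lf (nat_lit 482568) (.g (nat_lit 2974) (.e (nat_lit 7518) (nat_lit 402) (.e (nat_lit 1234) (nat_lit 91) (.e (nat_lit 90170) (nat_lit 13) (.e (nat_lit 172106) (nat_lit 10) (.e (nat_lit 434244) (nat_lit 28) .nil))))) (.g (nat_lit 0) (.e (nat_lit 119721) (nat_lit 0) .nil) .nil))) 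
(.lf (nat_lit 483080) (.g (nat_lit 4755) (.e (nat_lit 7695) (nat_lit 412) (.e (nat_lit 57368) (nat_lit 1) (.e (nat_lit 57854) (nat_lit 252) (.e (nat_lit 57409) (nat_lit 12) (.e (nat_lit 336316) (nat_lit 17) (.e (nat_lit 196666) (nat_lit 13) (.e (nat_lit 65617) (nat_lit 10) (.e (nat_lit 344096) (nat_lit 18) .nil)))))))) (.g (nat_lit 1) (.e (nat_lit 120791) (nat_lit 0) .nil) .nil))))) 
(.nd (nat_lit 8) (.nd (nat_lit 9) 
(.lf (nat_lit 482440) (.g (nat_lit 486) (.e (nat_lit 7379) (nat_lit 390) (.e (nat_lit 24580) (nat_lit 0) (.e (nat_lit 6724) (nat_lit 362) .nil))) (.g (nat_lit 0) (.e (nat_lit 119436) (nat_lit 0) .nil) .nil))) 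
(.lf (nat_lit 482952) (.g (nat_lit 1828) (.e (nat_lit 7593) (nat_lit 407) (.e (nat_lit 73775) (nat_lit 26) (.e (nat_lit 778465) (nat_lit 11) (.e (nat_lit 24656) (nat_lit 13) (.e (nat_lit 393232) (nat_lit 17) .nil))))) (.g (nat_lit 1) (.e (nat_lit 120285) (nat_lit 0) .nil) .nil)))) (.nd (nat_lit 9) 
(.lf (nat_lit 482696) (.g (nat_lit 3298) (.e (nat_lit 7581) (nat_lit 405) (.e (nat_lit 57464) (nat_lit 23) (.e (nat_lit 516165) (nat_lit 12) (.e (nat_lit 450588) (nat_lit 10) (.e (nat_lit 573471) (nat_lit 11) (.e (nat_lit 16387) (nat_lit 0) .nil)))))) (.g (nat_lit 1) (.e (nat_lit 119919) (nat_lit 0) .nil) .nil))) 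
(.lf (nat_lit 483208) (.g (nat_lit 1562) (.e (nat_lit 6203) (nat_lit 332) (.e (nat_lit 2798) (nat_lit 180) (.e (nat_lit 303145) (nat_lit 13) (.e (nat_lit 483382) (nat_lit 23) .nil)))) (.g (nat_lit 0) (.e (nat_lit 121503) (nat_lit 0) .nil) .nil)))))) (.nd (nat_lit 7) (.nd (nat_lit 8) (.nd (nat_lit 9) 
(.lf (nat_lit 482376) (.g (nat_lit 2707) (.e (nat_lit 7270) (nat_lit 385) (.e (nat_lit 122913) (nat_lit 13) (.e (nat_lit 344130) (nat_lit 26) (.e (nat_lit 557067) (nat_lit 9) (.e (nat_lit 2828) (nat_lit 182) (.e (nat_lit 409646) (nat_lit 18) (.e (nat_lit 303154) (nat_lit 28) (.e (nat_lit 344100) (nat_lit 18) .nil)))))))) (.g (nat_lit 1) (.e (nat_lit 119038) (nat_lit 0) .nil) .nil))) 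
(.lf (nat_lit 482888) (.g (nat_lit 1614) (.e (nat_lit 7592) (nat_lit 407) (.e (nat_lit 73775) (nat_lit 26) (.e (nat_lit 778466) (nat_lit 11) (.e (nat_lit 24656) (nat_lit 13) (.e (nat_lit 401152) (nat_lit 17) .nil))))) (.g (nat_lit 1) (.e (nat_lit 120217) (nat_lit 0) .nil) .nil)))) (.nd (nat_lit 9) 
(.lf (nat_lit 482632) (.g (nat_lit 1142) (.e (nat_lit 7562) (nat_lit 402) (.e (nat_lit 1512) (nat_lit 108) (.e (nat_lit 336017) (nat_lit 3) (.e (nat_lit 98320) (nat_lit 17) (.e (nat_lit 7593) (nat_lit 407) .nil))))) (.g (nat_lit 0) (.e (nat_lit 119793) (nat_lit 0) .nil) .nil))) 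
(.lf (nat_lit 483144) (.g (nat_lit 2585) (.e (nat_lit 6202) (nat_lit 332) (.e (nat_lit 2797) (nat_lit 180) (.e (nat_lit 303117) (nat_lit 2) (.e (nat_lit 196670) (nat_lit 14) (.e (nat_lit 73781) (nat_lit 32) (.e (nat_lit 2664) (nat_lit 167) (.e (nat_lit 196628) (nat_lit 9) (.e (nat_lit 970) (nat_lit 81) .nil)))))))) (.g (nat_lit 1) (.e (nat_lit 121302) (nat_lit 0) .nil) .nil))))) 
(.nd (nat_lit 8) (.nd (nat_lit 9) 
(.lf (nat_lit 482504) (.g (nat_lit 1062) (.e (nat_lit 7936) (nat_lit 393) (.e (nat_lit 180244) (nat_lit 5) (.e (nat_lit 532523) (nat_lit 7) (.e (nat_lit 319504) (nat_lit 10) .nil)))) (.g (nat_lit 0) (.e (nat_lit 119618) (nat_lit 0) .nil) .nil))) 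
(.lf (nat_lit 483016) (.g (nat_lit 1882) (.e (nat_lit 7685) (nat_lit 410) (.e (nat_lit 2649) (nat_lit 166) (.e (nat_lit 188434) (nat_lit 20) (.e (nat_lit 3289) (nat_lit 201) (.e (nat_lit 565252) (nat_lit 0) (.e (nat_lit 1599) (nat_lit 111) (.e (nat_lit 368384) (nat_lit 0) .nil))))))) (.g (nat_lit 1) (.e (nat_lit 120517) (nat_lit 0) .nil) .nil)))) (.nd (nat_lit 9) 
(.lf (nat_lit 482760) (.g (nat_lit 2720) (.e (nat_lit 7587) (nat_lit 406) (.e (nat_lit 65653) (nat_lit 27) (.e (nat_lit 426342) (nat_lit 14) (.e (nat_lit 491570) (nat_lit 13) (.e (nat_lit 393232) (nat_lit 17) .nil))))) (.g (nat_lit 1) (.e (nat_lit 120008) (nat_lit 0) .nil) .nil))) 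
(.lf (nat_lit 483272) (.g (nat_lit 2060) (.e (nat_lit 6254) (nat_lit 337) (.e (nat_lit 2630) (nat_lit 164) (.e (nat_lit 172067) (nat_lit 3) (.e (nat_lit 204868) (nat_lit 29) (.e (nat_lit 360473) (nat_lit 8) .nil))))) (.g (nat_lit 0) (.e (nat_lit 122163) (nat_lit 0) .nil) .nil))))))) (.nd (nat_lit 6) (.nd (nat_lit 7) (.nd (nat_lit 8) (.nd (nat_lit 9) 
(.lf (nat_lit 482344) (.g (nat_lit 2300) (.e (nat_lit 7266) (nat_lit 384) (.e (nat_lit 57409) (nat_lit 12) (.e (nat_lit 336019) (nat_lit 3) (.e (nat_lit 98372) (nat_lit 29) (.e (nat_lit 450586) (nat_lit 10) (.e (nat_lit 573473) (nat_lit 12) (.e (nat_lit 57353) (nat_lit 0) .nil))))))) (.g (nat_lit 1) (.e (nat_lit 119006) (nat_lit 0) .nil) .nil))) 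
(.lf (nat_lit 482856) (.g (nat_lit 3412) (.e (nat_lit 7591) (nat_lit 407) (.e (nat_lit 73748) (nat_lit 3) (.e (nat_lit 516139) (nat_lit 7) (.e (nat_lit 409641) (nat_lit 17) (.e (nat_lit 294931) (nat_lit 3) (.e (nat_lit 98320) (nat_lit 17) .nil)))))) (.g (nat_lit 1) (.e (nat_lit 120129) (nat_lit 0) .nil) .nil)))) (.nd (nat_lit 9) 
(.lf (nat_lit 482600) (.g (nat_lit 2821) (.e (nat_lit 7554) (nat_lit 402) (.e (nat_lit 1638) (nat_lit 114) (.e (nat_lit 385074) (nat_lit 31) (.e (nat_lit 573481) (nat_lit 13) (.e (nat_lit 65604) (nat_lit 9) .nil))))) (.g (nat_lit 0) (.e (nat_lit 119761) (nat_lit 0) .nil) .nil))) 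
(.lf (nat_lit 483112) (.g (nat_lit 774) (.e (nat_lit 6112) (nat_lit 332) (.e (nat_lit 2777) (nat_lit 178) (.e (nat_lit 286731) (nat_lit 1) .nil))) (.g (nat_lit 0) (.e (nat_lit 121149) (nat_lit 0) .nil) .nil))))) (.nd (nat_lit 8) (.nd (nat_lit 9) 
(.lf (nat_lit 482472) (.g (nat_lit 2595) (.e (nat_lit 7386) (nat_lit 392) (.e (nat_lit 172133) (nat_lit 15) (.e (nat_lit 2059) (nat_lit 142) (.e (nat_lit 704595) (nat_lit 5) (.e (nat_lit 188160) (nat_lit 36) .nil))))) (.g (nat_lit 0) (.e (nat_lit 119538) (nat_lit 0) .nil) .nil))) 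
(.lf (nat_lit 482984) (.g (nat_lit 1897) (.e (nat_lit 7936) (nat_lit 407) (.e (nat_lit 73755) (nat_lit 8) (.e (nat_lit 557087) (nat_lit 11) (.e (nat_lit 24625) (nat_lit 9) (.e (nat_lit 335971) (nat_lit 0) .nil))))) (.g (nat_lit 0) (.e (nat_lit 120323) (nat_lit 0) .nil) .nil)))) (.nd (nat_lit 9) 
(.lf (nat_lit 482728) (.g (nat_lit 2668) (.e (nat_lit 7586) (nat_lit 406) (.e (nat_lit 65571) (nat_lit 3) (.e (nat_lit 98350) (nat_lit 24) (.e (nat_lit 409617) (nat_lit 10) (.e (nat_lit 5355) (nat_lit 298) .nil))))) (.g (nat_lit 0) (.e (nat_lit 119965) (nat_lit 0) .nil) .nil))) 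
(.lf (nat_lit 483240) (.g (nat_lit 4066) (.e (nat_lit 6252) (nat_lit 337) (.e (nat_lit 2630) (nat_lit 164) (.e (nat_lit 172062) (nat_lit 2) (.e (nat_lit 196666) (nat_lit 13) (.e (nat_lit 65617) (nat_lit 10) (.e (nat_lit 344132) (nat_lit 26) (.e (nat_lit 557094) (nat_lit 12) (.e (nat_lit 163847) (nat_lit 0) .nil)))))))) (.g (nat_lit 1) (.e (nat_lit 121974) (nat_lit 0) .nil) .nil)))))) 
(.nd (nat_lit 7) (.nd (nat_lit 8) (.nd (nat_lit 9) 
(.lf (nat_lit 482408) (.g (nat_lit 4443) (.e (nat_lit 7376) (nat_lit 389) (.e (nat_lit 8319) (nat_lit 64) (.e (nat_lit 516120) (nat_lit 1) (.e (nat_lit 164329) (nat_lit 230) (.e (nat_lit 163902) (nat_lit 12) (.e (nat_lit 426568) (nat_lit 34) (.e (nat_lit 393234) (nat_lit 17) .nil))))))) (.g (nat_lit 1) (.e (nat_lit 119362) (nat_lit 0) .nil) .nil))) 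
(.lf (nat_lit 482920) (.g (nat_lit 1960) (.e (nat_lit 7593) (nat_lit 407) (.e (nat_lit 73754) (nat_lit 8) (.e (nat_lit 557085) (nat_lit 11) (.e (nat_lit 24646) (nat_lit 11) (.e (nat_lit 368676) (nat_lit 21) (.e (nat_lit 516098) (nat_lit 0) .nil)))))) (.g (nat_lit 1) (.e (nat_lit 120252) (nat_lit 0) .nil) .nil)))) (.nd (nat_lit 9) 
(.lf (nat_lit 482664) (.g (nat_lit 2513) (.e (nat_lit 7936) (nat_lit 402) (.e (nat_lit 1632) (nat_lit 114) (.e (nat_lit 385074) (nat_lit 31) (.e (nat_lit 573484) (nat_lit 13) (.e (nat_lit 65610) (nat_lit 10) .nil))))) (.g (nat_lit 0) (.e (nat_lit 119828) (nat_lit 0) .nil) .nil))) 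
(.lf (nat_lit 483176) (.g (nat_lit 1492) (.e (nat_lit 6203) (nat_lit 332) (.e (nat_lit 2798) (nat_lit 180) (.e (nat_lit 303119) (nat_lit 3) (.e (nat_lit 204819) (nat_lit 17) .nil)))) (.g (nat_lit 0) (.e (nat_lit 121447) (nat_lit 0) .nil) .nil))))) (.nd (nat_lit 8) (.nd (nat_lit 9) 
(.lf (nat_lit 482536) (.g (nat_lit 1945) (.e (nat_lit 7490) (nat_lit 402) (.e (nat_lit 1239) (nat_lit 91) (.e (nat_lit 90170) (nat_lit 13) (.e (nat_lit 172113) (nat_lit 10) (.e (nat_lit 434242) (nat_lit 28) .nil))))) (.g (nat_lit 0) (.e (nat_lit 119678) (nat_lit 0) .nil) .nil))) 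
(.lf (nat_lit 483048) (.g (nat_lit 2148) (.e (nat_lit 7710) (nat_lit 414) (.e (nat_lit 163874) (nat_lit 3) (.e (nat_lit 204863) (nat_lit 27) (.e (nat_lit 344130) (nat_lit 26) .nil)))) (.g (nat_lit 0) (.e (nat_lit 120686) (nat_lit 0) .nil) .nil)))) (.nd (nat_lit 9) 
(.lf (nat_lit 482792) (.g (nat_lit 1986) (.e (nat_lit 7589) (nat_lit 406) (.e (nat_lit 65653) (nat_lit 27) (.e (nat_lit 426344) (nat_lit 14) (.e (nat_lit 491556) (nat_lit 9) (.e (nat_lit 336390) (nat_lit 27) (.e (nat_lit 426009) (nat_lit 0) .nil)))))) (.g (nat_lit 1) (.e (nat_lit 120058) (nat_lit 0) .nil) .nil))) 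
(.lf (nat_lit 483304) (.g (nat_lit 3182) (.e (nat_lit 6255) (nat_lit 337) (.e (nat_lit 2630) (nat_lit 164) (.e (nat_lit 172066) (nat_lit 3) (.e (nat_lit 204869) (nat_lit 29) (.e (nat_lit 360474) (nat_lit 8) (.e (nat_lit 557094) (nat_lit 12) (.e (nat_lit 163849) (nat_lit 0) .nil))))))) (.g (nat_lit 1) (.e (nat_lit 122309) (nat_lit 0) .nil) .nil)))))))) 
(.nd (nat_lit 5) (.nd (nat_lit 6) (.nd (nat_lit 7) (.nd (nat_lit 8) (.nd (nat_lit 9) 
(.lf (nat_lit 482328) (.g (nat_lit 5850) (.e (nat_lit 7265) (nat_lit 384) (.e (nat_lit 57430) (nat_lit 16) (.e (nat_lit 368676) (nat_lit 21) (.e (nat_lit 516166) (nat_lit 12) (.e (nat_lit 450588) (nat_lit 10) (.e (nat_lit 573475) (nat_lit 12) (.e (nat_lit 57351) (nat_lit 0) .nil))))))) (.g (nat_lit 1) (.e (nat_lit 118988) (nat_lit 0) .nil) .nil))) 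
(.lf (nat_lit 482840) (.g (nat_lit 2579) (.e (nat_lit 7591) (nat_lit 407) (.e (nat_lit 73747) (nat_lit 3) (.e (nat_lit 516097) (nat_lit 0) (.e (nat_lit 7593) (nat_lit 407) (.e (nat_lit 73746) (nat_lit 3) .nil))))) (.g (nat_lit 0) (.e (nat_lit 120113) (nat_lit 0) .nil) .nil)))) (.nd (nat_lit 9) 
(.lf (nat_lit 482584) (.g (nat_lit 2407) (.e (nat_lit 7536) (nat_lit 402) (.e (nat_lit 1454) (nat_lit 108) (.e (nat_lit 336389) (nat_lit 27) (.e (nat_lit 426341) (nat_lit 14) (.e (nat_lit 491571) (nat_lit 13) .nil))))) (.g (nat_lit 0) (.e (nat_lit 119740) (nat_lit 0) .nil) .nil))) 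
(.lf (nat_lit 483096) (.g (nat_lit 2670) (.e (nat_lit 6058) (nat_lit 327) (.e (nat_lit 8213) (nat_lit 9) (.e (nat_lit 303119) (nat_lit 3) (.e (nat_lit 204869) (nat_lit 29) (.e (nat_lit 360474) (nat_lit 8) (.e (nat_lit 557094) (nat_lit 12) (.e (nat_lit 163847) (nat_lit 0) .nil))))))) (.g (nat_lit 1) (.e (nat_lit 120828) (nat_lit 0) .nil) .nil))))) (.nd (nat_lit 8) (.nd (nat_lit 9) 
(.lf (nat_lit 482456) (.g (nat_lit 1045) (.e (nat_lit 7936) (nat_lit 390) (.e (nat_lit 24664) (nat_lit 14) (.e (nat_lit 401448) (nat_lit 10) (.e (nat_lit 434291) (nat_lit 44) .nil)))) (.g (nat_lit 0) (.e (nat_lit 119465) (nat_lit 0) .nil) .nil))) 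
(.lf (nat_lit 482968) (.g (nat_lit 2461) (.e (nat_lit 7593) (nat_lit 407) (.e (nat_lit 73775) (nat_lit 26) (.e (nat_lit 778466) (nat_lit 11) (.e (nat_lit 24658) (nat_lit 13) (.e (nat_lit 393232) (nat_lit 17) .nil))))) (.g (nat_lit 1) (.e (nat_lit 120301) (nat_lit 0) .nil) .nil)))) (.nd (nat_lit 9) 
(.lf (nat_lit 482712) (.g (nat_lit 2339) (.e (nat_lit 7584) (nat_lit 406) (.e (nat_lit 65571) (nat_lit 3) (.e (nat_lit 98389) (nat_lit 33) (.e (nat_lit 491560) (nat_lit 10) .nil)))) (.g (nat_lit 0) (.e (nat_lit 119949) (nat_lit 0) .nil) .nil))) 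
(.lf (nat_lit 483224) (.g (nat_lit 423) (.e (nat_lit 6206) (nat_lit 333) (.e (nat_lit 57883) (nat_lit 270) (.e (nat_lit 174) (nat_lit 12) .nil))) (.g (nat_lit 0) (.e (nat_lit 121878) (nat_lit 0) .nil) .nil)))))) (.nd (nat_lit 7) (.nd (nat_lit 8) (.nd (nat_lit 9) 
(.lf (nat_lit 482392) (.g (nat_lit 549) (.e (nat_lit 7345) (nat_lit 388) (.e (nat_lit 3067) (nat_lit 190) (.e (nat_lit 475178) (nat_lit 24) .nil))) (.g (nat_lit 0) (.e (nat_lit 119185) (nat_lit 0) .nil) .nil))) 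
(.lf (nat_lit 482904) (.g (nat_lit 1963) (.e (nat_lit 7593) (nat_lit 407) (.e (nat_lit 73746) (nat_lit 3) (.e (nat_lit 516185) (nat_lit 16) (.e (nat_lit 491552) (nat_lit 9) (.e (nat_lit 336022) (nat_lit 3) (.e (nat_lit 98319) (nat_lit 17) .nil)))))) (.g (nat_lit 1) (.e (nat_lit 120236) (nat_lit 0) .nil) .nil)))) (.nd (nat_lit 9) 
(.lf (nat_lit 482648) (.g (nat_lit 1656) (.e (nat_lit 7545) (nat_lit 402) (.e (nat_lit 1238) (nat_lit 91) (.e (nat_lit 90170) (nat_lit 13) (.e (nat_lit 172113) (nat_lit 10) .nil)))) (.g (nat_lit 0) (.e (nat_lit 119810) (nat_lit 0) .nil) .nil))) 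
(.lf (nat_lit 483160) (.g (nat_lit 1029) (.e (nat_lit 6202) (nat_lit 332) (.e (nat_lit 2798) (nat_lit 180) (.e (nat_lit 303145) (nat_lit 13) (.e (nat_lit 483346) (nat_lit 17) .nil)))) (.g (nat_lit 0) (.e (nat_lit 121337) (nat_lit 0) .nil) .nil))))) (.nd (nat_lit 8) (.nd (nat_lit 9) 
(.lf (nat_lit 482520) (.g (nat_lit 2927) (.e (nat_lit 7486) (nat_lit 402) (.e (nat_lit 1239) (nat_lit 91) (.e (nat_lit 90170) (nat_lit 13) (.e (nat_lit 172113) (nat_lit 10) (.e (nat_lit 434245) (nat_lit 28) (.e (nat_lit 573451) (nat_lit 9) (.e (nat_lit 430) (nat_lit 32) (.e (nat_lit 426012) (nat_lit 0) .nil)))))))) (.g (nat_lit 1) (.e (nat_lit 119661) (nat_lit 0) .nil) .nil))) 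
(.lf (nat_lit 483032) (.g (nat_lit 2638) (.e (nat_lit 7708) (nat_lit 414) (.e (nat_lit 163875) (nat_lit 3) (.e (nat_lit 204862) (nat_lit 27) (.e (nat_lit 344129) (nat_lit 26) (.e (nat_lit 557096) (nat_lit 13) .nil))))) (.g (nat_lit 0) (.e (nat_lit 120593) (nat_lit 0) .nil) .nil)))) (.nd (nat_lit 9) 
(.lf (nat_lit 482776) (.g (nat_lit 2780) (.e (nat_lit 7588) (nat_lit 406) (.e (nat_lit 65653) (nat_lit 27) (.e (nat_lit 426315) (nat_lit 12) (.e (nat_lit 475210) (nat_lit 41) (.e (nat_lit 712745) (nat_lit 27) (.e (nat_lit 425984) (nat_lit 0) .nil)))))) (.g (nat_lit 1) (.e (nat_lit 120038) (nat_lit 0) .nil) .nil))) 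
(.lf (nat_lit 483288) (.g (nat_lit 4557) (.e (nat_lit 6254) (nat_lit 337) (.e (nat_lit 2725) (nat_lit 172) (.e (nat_lit 237589) (nat_lit 2) (.e (nat_lit 196666) (nat_lit 13) (.e (nat_lit 65617) (nat_lit 10) (.e (nat_lit 344132) (nat_lit 26) (.e (nat_lit 557093) (nat_lit 12) (.e (nat_lit 163849) (nat_lit 0) .nil)))))))) (.g (nat_lit 1) (.e (nat_lit 122283) (nat_lit 0) .nil) .nil))))))) 
(.nd (nat_lit 6) (.nd (nat_lit 7) (.nd (nat_lit 8) (.nd (nat_lit 9) 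
(.lf (nat_lit 482360) (.g (nat_lit 5999) (.e (nat_lit 7266) (nat_lit 384) (.e (nat_lit 57430) (nat_lit 16) (.e (nat_lit 368676) (nat_lit 21) (.e (nat_lit 516166) (nat_lit 12) (.e (nat_lit 450588) (nat_lit 10) (.e (nat_lit 573473) (nat_lit 12) (.e (nat_lit 57353) (nat_lit 0) .nil))))))) (.g (nat_lit 1) (.e (nat_lit 119022) (nat_lit 0) .nil) .nil))) 
(.lf (nat_lit 482872) (.g (nat_lit 2194) (.e (nat_lit 7591) (nat_lit 407) (.e (nat_lit 73775) (nat_lit 26) (.e (nat_lit 778465) (nat_lit 11) (.e (nat_lit 24623) (nat_lit 9) (.e (nat_lit 336416) (nat_lit 27) .nil))))) (.g (nat_lit 0) (.e (nat_lit 120145) (nat_lit 0) .nil) .nil)))) (.nd (nat_lit 9) 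
(.lf (nat_lit 482616) (.g (nat_lit 3031) (.e (nat_lit 7556) (nat_lit 402) (.e (nat_lit 1638) (nat_lit 114) (.e (nat_lit 385074) (nat_lit 31) (.e (nat_lit 573482) (nat_lit 13) (.e (nat_lit 65610) (nat_lit 10) .nil))))) (.g (nat_lit 0) (.e (nat_lit 119777) (nat_lit 0) .nil) .nil))) 
(.lf (nat_lit 483128) (.g (nat_lit 914) (.e (nat_lit 6113) (nat_lit 332) (.e (nat_lit 1376) (nat_lit 104) (.e (nat_lit 303118) (nat_lit 3) (.e (nat_lit 204885) (nat_lit 33) .nil)))) (.g (nat_lit 0) (.e (nat_lit 121220) (nat_lit 0) .nil) .nil))))) (.nd (nat_lit 8) (.nd (nat_lit 9) 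
(.lf (nat_lit 482488) (.g (nat_lit 1760) (.e (nat_lit 7936) (nat_lit 392) (.e (nat_lit 172133) (nat_lit 15) (.e (nat_lit 2059) (nat_lit 142) (.e (nat_lit 704595) (nat_lit 5) .nil)))) (.g (nat_lit 0) (.e (nat_lit 119563) (nat_lit 0) .nil) .nil))) 
(.lf (nat_lit 483000) (.g (nat_lit 1361) (.e (nat_lit 7607) (nat_lit 410) (.e (nat_lit 2630) (nat_lit 164) (.e (nat_lit 172113) (nat_lit 10) (.e (nat_lit 434229) (nat_lit 22) .nil)))) (.g (nat_lit 0) (.e (nat_lit 120353) (nat_lit 0) .nil) .nil)))) (.nd (nat_lit 9) 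
(.lf (nat_lit 482744) (.g (nat_lit 795) (.e (nat_lit 7587) (nat_lit 406) (.e (nat_lit 65580) (nat_lit 6) (.e (nat_lit 147493) (nat_lit 11) (.e (nat_lit 24657) (nat_lit 13) (.e (nat_lit 401152) (nat_lit 17) .nil))))) (.g (nat_lit 1) (.e (nat_lit 119991) (nat_lit 0) .nil) .nil))) 
(.lf (nat_lit 483256) (.g (nat_lit 5169) (.e (nat_lit 6252) (nat_lit 337) (.e (nat_lit 2641) (nat_lit 165) (.e (nat_lit 180244) (nat_lit 5) (.e (nat_lit 532550) (nat_lit 12) (.e (nat_lit 360475) (nat_lit 8) (.e (nat_lit 557089) (nat_lit 12) (.e (nat_lit 163844) (nat_lit 0) .nil))))))) (.g (nat_lit 1) (.e (nat_lit 122093) (nat_lit 0) .nil) .nil)))))) 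
(.nd (nat_lit 7) (.nd (nat_lit 8) (.nd (nat_lit 9) 
(.lf (nat_lit 482424) (.g (nat_lit 3008) (.e (nat_lit 7377) (nat_lit 390) (.e (nat_lit 24665) (nat_lit 14) (.e (nat_lit 401434) (nat_lit 9) (.e (nat_lit 426160) (nat_lit 6) (.e (nat_lit 253991) (nat_lit 11) (.e (nat_lit 16388) (nat_lit 0) .nil)))))) (.g (nat_lit 1) (.e (nat_lit 119381) (nat_lit 0) .nil) .nil))) 
(.lf (nat_lit 482936) (.g (nat_lit 3497) (.e (nat_lit 7593) (nat_lit 407) (.e (nat_lit 73775) (nat_lit 26) (.e (nat_lit 778465) (nat_lit 11) (.e (nat_lit 24623) (nat_lit 9) (.e (nat_lit 336389) (nat_lit 27) (.e (nat_lit 426011) (nat_lit 0) .nil)))))) (.g (nat_lit 1) (.e (nat_lit 120268) (nat_lit 0) .nil) .nil)))) (.nd (nat_lit 9) 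
(.lf (nat_lit 482680) (.g (nat_lit 4226) (.e (nat_lit 7581) (nat_lit 405) (.e (nat_lit 57463) (nat_lit 23) (.e (nat_lit 516166) (nat_lit 12) (.e (nat_lit 450588) (nat_lit 10) (.e (nat_lit 573452) (nat_lit 9) (.e (nat_lit 430) (nat_lit 32) (.e (nat_lit 426011) (nat_lit 0) .nil))))))) (.g (nat_lit 1) (.e (nat_lit 119903) (nat_lit 0) .nil) .nil))) 
(.lf (nat_lit 483192) (.g (nat_lit 2010) (.e (nat_lit 6203) (nat_lit 332) (.e (nat_lit 2798) (nat_lit 180) (.e (nat_lit 303133) (nat_lit 9) (.e (nat_lit 426499) (nat_lit 27) (.e (nat_lit 336074) (nat_lit 9) .nil))))) (.g (nat_lit 0) (.e (nat_lit 121480) (nat_lit 0) .nil) .nil))))) (.nd (nat_lit 8) (.nd (nat_lit 9) 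
(.lf (nat_lit 482552) (.g (nat_lit 3204) (.e (nat_lit 7492) (nat_lit 402) (.e (nat_lit 1633) (nat_lit 114) (.e (nat_lit 385074) (nat_lit 31) (.e (nat_lit 573493) (nat_lit 15) (.e (nat_lit 81953) (nat_lit 22) .nil))))) (.g (nat_lit 0) (.e (nat_lit 119697) (nat_lit 0) .nil) .nil))) 
(.lf (nat_lit 483064) (.g (nat_lit 1811) (.e (nat_lit 7710) (nat_lit 414) (.e (nat_lit 163908) (nat_lit 12) (.e (nat_lit 426285) (nat_lit 10) (.e (nat_lit 434241) (nat_lit 27) (.e (nat_lit 565267) (nat_lit 4) (.e (nat_lit 65616) (nat_lit 10) (.e (nat_lit 344090) (nat_lit 18) .nil))))))) (.g (nat_lit 1) (.e (nat_lit 120709) (nat_lit 0) .nil) .nil)))) (.nd (nat_lit 9) 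
(.lf (nat_lit 482808) (.g (nat_lit 3883) (.e (nat_lit 7590) (nat_lit 407) (.e (nat_lit 73747) (nat_lit 3) (.e (nat_lit 516139) (nat_lit 7) (.e (nat_lit 409640) (nat_lit 17) (.e (nat_lit 294928) (nat_lit 2) (.e (nat_lit 90133) (nat_lit 9) (.e (nat_lit 2397) (nat_lit 157) .nil))))))) (.g (nat_lit 1) (.e (nat_lit 120079) (nat_lit 0) .nil) .nil))) 
(.lf (nat_lit 483320) (.g (nat_lit 458) (.e (nat_lit 6255) (nat_lit 337) (.e (nat_lit 2643) (nat_lit 165) (.e (nat_lit 180243) (nat_lit 5) .nil))) (.g (nat_lit 0) (.e (nat_lit 122446) (nat_lit 0) .nil) .nil)))))))))) (.nd (nat_lit 3) (.nd (nat_lit 4) (.nd (nat_lit 5) (.nd (nat_lit 6) (.nd (nat_lit 7) (.nd (nat_lit 8) (.nd (nat_lit 9) 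
(.lf (nat_lit 482308) (.g (nat_lit 1712) (.e (nat_lit 7265) (nat_lit 384) (.e (nat_lit 57409) (nat_lit 12) (.e (nat_lit 336019) (nat_lit 3) (.e (nat_lit 98372) (nat_lit 29) .nil)))) (.g (nat_lit 0) (.e (nat_lit 118968) (nat_lit 0) .nil) .nil))) 
(.lf (nat_lit 482820) (.g (nat_lit 2019) (.e (nat_lit 7590) (nat_lit 407) (.e (nat_lit 73753) (nat_lit 8) (.e (nat_lit 557087) (nat_lit 11) (.e (nat_lit 24639) (nat_lit 10) .nil)))) (.g (nat_lit 0) (.e (nat_lit 120091) (nat_lit 0) .nil) .nil)))) (.nd (nat_lit 9) 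
(.lf (nat_lit 482564) (.g (nat_lit 1502) (.e (nat_lit 7500) (nat_lit 402) (.e (nat_lit 1641) (nat_lit 114) (.e (nat_lit 385074) (nat_lit 31) (.e (nat_lit 573491) (nat_lit 15) (.e (nat_lit 81954) (nat_lit 23) .nil))))) (.g (nat_lit 0) (.e (nat_lit 119717) (nat_lit 0) .nil) .nil))) 
(.lf (nat_lit 483076) (.g (nat_lit 4495) (.e (nat_lit 7695) (nat_lit 412) (.e (nat_lit 57367) (nat_lit 1) (.e (nat_lit 57847) (nat_lit 252) (.e (nat_lit 57407) (nat_lit 12) (.e (nat_lit 336316) (nat_lit 17) (.e (nat_lit 196666) (nat_lit 13) (.e (nat_lit 65617) (nat_lit 10) (.e (nat_lit 344091) (nat_lit 18) .nil)))))))) (.g (nat_lit 1) (.e (nat_lit 120787) (nat_lit 0) .nil) .nil))))) 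
(.nd (nat_lit 8) (.nd (nat_lit 9) 
(.lf (nat_lit 482436) (.g (nat_lit 2992) (.e (nat_lit 7378) (nat_lit 390) (.e (nat_lit 24663) (nat_lit 14) (.e (nat_lit 401448) (nat_lit 10) (.e (nat_lit 434289) (nat_lit 43) (.e (nat_lit 696344) (nat_lit 8) .nil))))) (.g (nat_lit 0) (.e (nat_lit 119411) (nat_lit 0) .nil) .nil))) 
(.lf (nat_lit 482948) (.g (nat_lit 1930) (.e (nat_lit 7593) (nat_lit 407) (.e (nat_lit 73775) (nat_lit 26) (.e (nat_lit 778465) (nat_lit 11) (.e (nat_lit 24638) (nat_lit 9) (.e (nat_lit 336387) (nat_lit 27) (.e (nat_lit 426010) (nat_lit 0) .nil)))))) (.g (nat_lit 1) (.e (nat_lit 120280) (nat_lit 0) .nil) .nil)))) (.nd (nat_lit 9) 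
(.lf (nat_lit 482692) (.g (nat_lit 2060) (.e (nat_lit 7581) (nat_lit 405) (.e (nat_lit 57464) (nat_lit 23) (.e (nat_lit 516165) (nat_lit 12) (.e (nat_lit 450587) (nat_lit 10) (.e (nat_lit 573469) (nat_lit 11) (.e (nat_lit 16388) (nat_lit 0) .nil)))))) (.g (nat_lit 1) (.e (nat_lit 119915) (nat_lit 0) .nil) .nil))) 
(.lf (nat_lit 483204) (.g (nat_lit 3034) (.e (nat_lit 6203) (nat_lit 332) (.e (nat_lit 2798) (nat_lit 180) (.e (nat_lit 303145) (nat_lit 13) (.e (nat_lit 483346) (nat_lit 17) (.e (nat_lit 6434) (nat_lit 343) .nil))))) (.g (nat_lit 0) (.e (nat_lit 121494) (nat_lit 0) .nil) .nil)))))) (.nd (nat_lit 7) (.nd (nat_lit 8) (.nd (nat_lit 9) 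
(.lf (nat_lit 482372) (.g (nat_lit 3928) (.e (nat_lit 7270) (nat_lit 385) (.e (nat_lit 122906) (nat_lit 12) (.e (nat_lit 336001) (nat_lit 2) (.e (nat_lit 90170) (nat_lit 13) (.e (nat_lit 172113) (nat_lit 10) (.e (nat_lit 434245) (nat_lit 28) (.e (nat_lit 573473) (nat_lit 12) (.e (nat_lit 57354) (nat_lit 0) .nil)))))))) (.g (nat_lit 1) (.e (nat_lit 119034) (nat_lit 0) .nil) .nil))) 
(.lf (nat_lit 482884) (.g (nat_lit 1225) (.e (nat_lit 7592) (nat_lit 407) (.e (nat_lit 73775) (nat_lit 26) (.e (nat_lit 778464) (nat_lit 11) (.e (nat_lit 24657) (nat_lit 13) (.e (nat_lit 401152) (nat_lit 17) .nil))))) (.g (nat_lit 0) (.e (nat_lit 120204) (nat_lit 0) .nil) .nil)))) (.nd (nat_lit 9) 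
(.lf (nat_lit 482628) (.g (nat_lit 2552) (.e (nat_lit 7562) (nat_lit 402) (.e (nat_lit 1235) (nat_lit 91) (.e (nat_lit 90170) (nat_lit 13) (.e (nat_lit 172113) (nat_lit 10) (.e (nat_lit 434248) (nat_lit 28) (.e (nat_lit 573452) (nat_lit 9) (.e (nat_lit 430) (nat_lit 32) (.e (nat_lit 426030) (nat_lit 0) .nil)))))))) (.g (nat_lit 1) (.e (nat_lit 119789) (nat_lit 0) .nil) .nil))) 
(.lf (nat_lit 483140) (.g (nat_lit 2266) (.e (nat_lit 6198) (nat_lit 332) (.e (nat_lit 2797) (nat_lit 180) (.e (nat_lit 303117) (nat_lit 2) (.e (nat_lit 196668) (nat_lit 14) (.e (nat_lit 73782) (nat_lit 32) .nil))))) (.g (nat_lit 0) (.e (nat_lit 121274) (nat_lit 0) .nil) .nil))))) (.nd (nat_lit 8) (.nd (nat_lit 9) 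
(.lf (nat_lit 482500) (.g (nat_lit 1933) (.e (nat_lit 7936) (nat_lit 393) (.e (nat_lit 180242) (nat_lit 5) (.e (nat_lit 532523) (nat_lit 7) (.e (nat_lit 319534) (nat_lit 16) (.e (nat_lit 286735) (nat_lit 3) .nil))))) (.g (nat_lit 0) (.e (nat_lit 119581) (nat_lit 0) .nil) .nil))) 
(.lf (nat_lit 483012) (.g (nat_lit 2345) (.e (nat_lit 7685) (nat_lit 410) (.e (nat_lit 2649) (nat_lit 166) (.e (nat_lit 188434) (nat_lit 20) (.e (nat_lit 3289) (nat_lit 201) (.e (nat_lit 565252) (nat_lit 0) (.e (nat_lit 1586) (nat_lit 111) (.e (nat_lit 368384) (nat_lit 0) .nil))))))) (.g (nat_lit 1) (.e (nat_lit 120513) (nat_lit 0) .nil) .nil)))) (.nd (nat_lit 9) 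
(.lf (nat_lit 482756) (.g (nat_lit 2163) (.e (nat_lit 7587) (nat_lit 406) (.e (nat_lit 65653) (nat_lit 27) (.e (nat_lit 426341) (nat_lit 14) (.e (nat_lit 491570) (nat_lit 13) (.e (nat_lit 393231) (nat_lit 17) .nil))))) (.g (nat_lit 1) (.e (nat_lit 120004) (nat_lit 0) .nil) .nil))) 
(.lf (nat_lit 483268) (.g (nat_lit 5248) (.e (nat_lit 6254) (nat_lit 337) (.e (nat_lit 2630) (nat_lit 164) (.e (nat_lit 172066) (nat_lit 3) (.e (nat_lit 204869) (nat_lit 29) (.e (nat_lit 360475) (nat_lit 8) (.e (nat_lit 557089) (nat_lit 12) (.e (nat_lit 163844) (nat_lit 0) .nil))))))) (.g (nat_lit 1) (.e (nat_lit 122158) (nat_lit 0) .nil) .nil))))))) 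
(.nd (nat_lit 6) (.nd (nat_lit 7) (.nd (nat_lit 8) (.nd (nat_lit 9) 
(.lf (nat_lit 482340) (.g (nat_lit 6023) (.e (nat_lit 7265) (nat_lit 384) (.e (nat_lit 57431) (nat_lit 16) (.e (nat_lit 368676) (nat_lit 21) (.e (nat_lit 516166) (nat_lit 12) (.e (nat_lit 450588) (nat_lit 10) (.e (nat_lit 573475) (nat_lit 12) (.e (nat_lit 57348) (nat_lit 0) .nil))))))) (.g (nat_lit 1) (.e (nat_lit 119000) (nat_lit 0) .nil) .nil))) 
(.lf (nat_lit 482852) (.g (nat_lit 3587) (.e (nat_lit 7591) (nat_lit 407) (.e (nat_lit 73747) (nat_lit 3) (.e (nat_lit 516185) (nat_lit 16) (.e (nat_lit 491560) (nat_lit 10) (.e (nat_lit 344118) (nat_lit 21) (.e (nat_lit 516098) (nat_lit 0) .nil)))))) (.g (nat_lit 1) (.e (nat_lit 120125) (nat_lit 0) .nil) .nil)))) (.nd (nat_lit 9) 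
(.lf (nat_lit 482596) (.g (nat_lit 1796) (.e (nat_lit 7554) (nat_lit 402) (.e (nat_lit 1235) (nat_lit 91) (.e (nat_lit 90178) (nat_lit 15) (.e (nat_lit 188440) (nat_lit 20) (.e (nat_lit 3272) (nat_lit 199) .nil))))) (.g (nat_lit 0) (.e (nat_lit 119754) (nat_lit 0) .nil) .nil))) 
(.lf (nat_lit 483108) (.g (nat_lit 4507) (.e (nat_lit 6114) (nat_lit 332) (.e (nat_lit 1374) (nat_lit 104) (.e (nat_lit 303118) (nat_lit 3) (.e (nat_lit 204885) (nat_lit 33) (.e (nat_lit 401434) (nat_lit 9) (.e (nat_lit 426140) (nat_lit 3) (.e (nat_lit 204821) (nat_lit 17) .nil))))))) (.g (nat_lit 1) (.e (nat_lit 121121) (nat_lit 0) .nil) .nil))))) (.nd (nat_lit 8) (.nd (nat_lit 9) 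
(.lf (nat_lit 482468) (.g (nat_lit 2975) (.e (nat_lit 7386) (nat_lit 392) (.e (nat_lit 172067) (nat_lit 3) (.e (nat_lit 204846) (nat_lit 24) (.e (nat_lit 319533) (nat_lit 16) (.e (nat_lit 286734) (nat_lit 3) .nil))))) (.g (nat_lit 0) (.e (nat_lit 119533) (nat_lit 0) .nil) .nil))) 
(.lf (nat_lit 482980) (.g (nat_lit 2453) (.e (nat_lit 7936) (nat_lit 407) (.e (nat_lit 73748) (nat_lit 3) (.e (nat_lit 516139) (nat_lit 7) (.e (nat_lit 409641) (nat_lit 17) (.e (nat_lit 294931) (nat_lit 3) .nil))))) (.g (nat_lit 0) (.e (nat_lit 120315) (nat_lit 0) .nil) .nil)))) (.nd (nat_lit 9) 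
(.lf (nat_lit 482724) (.g (nat_lit 1120) (.e (nat_lit 7586) (nat_lit 406) (.e (nat_lit 65571) (nat_lit 3) (.e (nat_lit 98320) (nat_lit 17) .nil))) (.g (nat_lit 0) (.e (nat_lit 119961) (nat_lit 0) .nil) .nil))) 
(.lf (nat_lit 483236) (.g (nat_lit 640) (.e (nat_lit 6250) (nat_lit 337) (.e (nat_lit 2725) (nat_lit 172) (.e (nat_lit 237592) (nat_lit 3) .nil))) (.g (nat_lit 0) (.e (nat_lit 121961) (nat_lit 0) .nil) .nil)))))) (.nd (nat_lit 7) (.nd (nat_lit 8) (.nd (nat_lit 9) 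
(.lf (nat_lit 482404) (.g (nat_lit 3276) (.e (nat_lit 7936) (nat_lit 388) (.e (nat_lit 2684) (nat_lit 168) (.e (nat_lit 204869) (nat_lit 29) (.e (nat_lit 360474) (nat_lit 8) (.e (nat_lit 557094) (nat_lit 12) .nil))))) (.g (nat_lit 0) (.e (nat_lit 119298) (nat_lit 0) .nil) .nil))) 
(.lf (nat_lit 482916) (.g (nat_lit 3228) (.e (nat_lit 7593) (nat_lit 407) (.e (nat_lit 73753) (nat_lit 8) (.e (nat_lit 557087) (nat_lit 11) (.e (nat_lit 24625) (nat_lit 9) (.e (nat_lit 336019) (nat_lit 3) (.e (nat_lit 98319) (nat_lit 17) .nil)))))) (.g (nat_lit 1) (.e (nat_lit 120248) (nat_lit 0) .nil) .nil)))) (.nd (nat_lit 9) 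
(.lf (nat_lit 482660) (.g (nat_lit 1596) (.e (nat_lit 7936) (nat_lit 402) (.e (nat_lit 1628) (nat_lit 114) (.e (nat_lit 385074) (nat_lit 31) (.e (nat_lit 573491) (nat_lit 15) .nil)))) (.g (nat_lit 0) (.e (nat_lit 119823) (nat_lit 0) .nil) .nil))) 
(.lf (nat_lit 483172) (.g (nat_lit 2502) (.e (nat_lit 6203) (nat_lit 332) (.e (nat_lit 2798) (nat_lit 180) (.e (nat_lit 303117) (nat_lit 2) (.e (nat_lit 196668) (nat_lit 14) (.e (nat_lit 73782) (nat_lit 32) (.e (nat_lit 2682) (nat_lit 168) (.e (nat_lit 204815) (nat_lit 17) .nil))))))) (.g (nat_lit 1) (.e (nat_lit 121438) (nat_lit 0) .nil) .nil))))) (.nd (nat_lit 8) (.nd (nat_lit 9) 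
(.lf (nat_lit 482532) (.g (nat_lit 3204) (.e (nat_lit 7489) (nat_lit 402) (.e (nat_lit 1239) (nat_lit 91) (.e (nat_lit 90170) (nat_lit 13) (.e (nat_lit 172113) (nat_lit 10) (.e (nat_lit 434247) (nat_lit 28) (.e (nat_lit 573456) (nat_lit 9) (.e (nat_lit 428) (nat_lit 32) (.e (nat_lit 425984) (nat_lit 0) .nil)))))))) (.g (nat_lit 1) (.e (nat_lit 119673) (nat_lit 0) .nil) .nil))) 
(.lf (nat_lit 483044) (.g (nat_lit 889) (.e (nat_lit 7708) (nat_lit 414) (.e (nat_lit 163924) (nat_lit 15) (.e (nat_lit 450584) (nat_lit 9) (.e (nat_lit 565252) (nat_lit 0) .nil)))) (.g (nat_lit 0) (.e (nat_lit 120624) (nat_lit 0) .nil) .nil)))) (.nd (nat_lit 9) 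
(.lf (nat_lit 482788) (.g (nat_lit 3406) (.e (nat_lit 7589) (nat_lit 406) (.e (nat_lit 65653) (nat_lit 27) (.e (nat_lit 426343) (nat_lit 14) (.e (nat_lit 491556) (nat_lit 9) (.e (nat_lit 336390) (nat_lit 27) (.e (nat_lit 426011) (nat_lit 0) .nil)))))) (.g (nat_lit 1) (.e (nat_lit 120054) (nat_lit 0) .nil) .nil))) 
(.lf (nat_lit 483300) (.g (nat_lit 4838) (.e (nat_lit 6255) (nat_lit 337) (.e (nat_lit 2630) (nat_lit 164) (.e (nat_lit 172065) (nat_lit 3) (.e (nat_lit 204869) (nat_lit 29) (.e (nat_lit 360475) (nat_lit 8) (.e (nat_lit 557089) (nat_lit 12) (.e (nat_lit 163844) (nat_lit 0) .nil))))))) (.g (nat_lit 1) (.e (nat_lit 122304) (nat_lit 0) .nil) .nil)))))))) 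
(.nd (nat_lit 5) (.nd (nat_lit 6) (.nd (nat_lit 7) (.nd (nat_lit 8) (.nd (nat_lit 9) 
(.lf (nat_lit 482324) (.g (nat_lit 5049) (.e (nat_lit 7265) (nat_lit 384) (.e (nat_lit 57430) (nat_lit 16) (.e (nat_lit 368676) (nat_lit 21) (.e (nat_lit 516166) (nat_lit 12) (.e (nat_lit 450587) (nat_lit 10) (.e (nat_lit 573478) (nat_lit 12) (.e (nat_lit 57351) (nat_lit 0) .nil))))))) (.g (nat_lit 1) (.e (nat_lit 118984) (nat_lit 0) .nil) .nil))) 
(.lf (nat_lit 482836) (.g (nat_lit 1752) (.e (nat_lit 7590) (nat_lit 407) (.e (nat_lit 73775) (nat_lit 26) (.e (nat_lit 778466) (nat_lit 11) (.e (nat_lit 24626) (nat_lit 9) (.e (nat_lit 336414) (nat_lit 27) (.e (nat_lit 425984) (nat_lit 0) .nil)))))) (.g (nat_lit 1) (.e (nat_lit 120107) (nat_lit 0) .nil) .nil)))) (.nd (nat_lit 9) 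
(.lf (nat_lit 482580) (.g (nat_lit 3371) (.e (nat_lit 7528) (nat_lit 402) (.e (nat_lit 1234) (nat_lit 91) (.e (nat_lit 90170) (nat_lit 13) (.e (nat_lit 172106) (nat_lit 10) (.e (nat_lit 434231) (nat_lit 23) .nil))))) (.g (nat_lit 0) (.e (nat_lit 119733) (nat_lit 0) .nil) .nil))) 
(.lf (nat_lit 483092) (.g (nat_lit 4322) (.e (nat_lit 7697) (nat_lit 412) (.e (nat_lit 57366) (nat_lit 1) (.e (nat_lit 57854) (nat_lit 252) (.e (nat_lit 57409) (nat_lit 12) (.e (nat_lit 336316) (nat_lit 17) (.e (nat_lit 196666) (nat_lit 13) (.e (nat_lit 65610) (nat_lit 10) (.e (nat_lit 344090) (nat_lit 18) .nil)))))))) (.g (nat_lit 1) (.e (nat_lit 120803) (nat_lit 0) .nil) .nil))))) 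
(.nd (nat_lit 8) (.nd (nat_lit 9) 
(.lf (nat_lit 482452) (.g (nat_lit 4461) (.e (nat_lit 7936) (nat_lit 390) (.e (nat_lit 24628) (nat_lit 9) (.e (nat_lit 336324) (nat_lit 18) (.e (nat_lit 204831) (nat_lit 18) (.e (nat_lit 57830) (nat_lit 250) .nil))))) (.g (nat_lit 0) (.e (nat_lit 119460) (nat_lit 0) .nil) .nil))) 
(.lf (nat_lit 482964) (.g (nat_lit 2431) (.e (nat_lit 7593) (nat_lit 407) (.e (nat_lit 73775) (nat_lit 26) (.e (nat_lit 778466) (nat_lit 11) (.e (nat_lit 24655) (nat_lit 13) (.e (nat_lit 393231) (nat_lit 17) .nil))))) (.g (nat_lit 1) (.e (nat_lit 120297) (nat_lit 0) .nil) .nil)))) (.nd (nat_lit 9) 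
(.lf (nat_lit 482708) (.g (nat_lit 3061) (.e (nat_lit 7583) (nat_lit 405) (.e (nat_lit 57464) (nat_lit 23) (.e (nat_lit 516166) (nat_lit 12) (.e (nat_lit 450588) (nat_lit 10) (.e (nat_lit 573457) (nat_lit 9) (.e (nat_lit 430) (nat_lit 32) (.e (nat_lit 426009) (nat_lit 0) .nil))))))) (.g (nat_lit 1) (.e (nat_lit 119937) (nat_lit 0) .nil) .nil))) 
(.lf (nat_lit 483220) (.g (nat_lit 1137) (.e (nat_lit 6236) (nat_lit 335) (.e (nat_lit 164377) (nat_lit 253) (.e (nat_lit 237636) (nat_lit 27) (.e (nat_lit 335892) (nat_lit 0) (.e (nat_lit 6720) (nat_lit 361) (.e (nat_lit 172128) (nat_lit 15) .nil)))))) (.g (nat_lit 1) (.e (nat_lit 121720) (nat_lit 0) .nil) .nil)))))) (.nd (nat_lit 7) (.nd (nat_lit 8) (.nd (nat_lit 9) 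
(.lf (nat_lit 482388) (.g (nat_lit 3067) (.e (nat_lit 7335) (nat_lit 388) (.e (nat_lit 3067) (nat_lit 190) (.e (nat_lit 475179) (nat_lit 24) (.e (nat_lit 516120) (nat_lit 1) (.e (nat_lit 164329) (nat_lit 230) .nil))))) (.g (nat_lit 0) (.e (nat_lit 119126) (nat_lit 0) .nil) .nil))) 
(.lf (nat_lit 482900) (.g (nat_lit 1362) (.e (nat_lit 7593) (nat_lit 407) (.e (nat_lit 73746) (nat_lit 3) (.e (nat_lit 516142) (nat_lit 8) (.e (nat_lit 417827) (nat_lit 17) .nil)))) (.g (nat_lit 0) (.e (nat_lit 120232) (nat_lit 0) .nil) .nil)))) (.nd (nat_lit 9) 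
(.lf (nat_lit 482644) (.g (nat_lit 3805) (.e (nat_lit 7545) (nat_lit 402) (.e (nat_lit 1237) (nat_lit 91) (.e (nat_lit 90170) (nat_lit 13) (.e (nat_lit 172106) (nat_lit 10) (.e (nat_lit 434244) (nat_lit 28) (.e (nat_lit 573451) (nat_lit 9) (.e (nat_lit 430) (nat_lit 32) (.e (nat_lit 426011) (nat_lit 0) .nil)))))))) (.g (nat_lit 1) (.e (nat_lit 119806) (nat_lit 0) .nil) .nil))) 
(.lf (nat_lit 483156) (.g (nat_lit 2986) (.e (nat_lit 6202) (nat_lit 332) (.e (nat_lit 2798) (nat_lit 180) (.e (nat_lit 303118) (nat_lit 3) (.e (nat_lit 204855) (nat_lit 26) (.e (nat_lit 336226) (nat_lit 14) (.e (nat_lit 401425) (nat_lit 2) (.e (nat_lit 196628) (nat_lit 9) (.e (nat_lit 970) (nat_lit 81) .nil)))))))) (.g (nat_lit 1) (.e (nat_lit 121324) (nat_lit 0) .nil) .nil))))) 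
(.nd (nat_lit 8) (.nd (nat_lit 9) 
(.lf (nat_lit 482516) (.g (nat_lit 2821) (.e (nat_lit 7485) (nat_lit 402) (.e (nat_lit 1642) (nat_lit 114) (.e (nat_lit 385074) (nat_lit 31) (.e (nat_lit 573493) (nat_lit 15) (.e (nat_lit 81953) (nat_lit 22) (.e (nat_lit 90133) (nat_lit 9) (.e (nat_lit 2400) (nat_lit 157) .nil))))))) (.g (nat_lit 1) (.e (nat_lit 119654) (nat_lit 0) .nil) .nil))) 
(.lf (nat_lit 483028) (.g (nat_lit 2391) (.e (nat_lit 7685) (nat_lit 410) (.e (nat_lit 2650) (nat_lit 166) (.e (nat_lit 188455) (nat_lit 24) (.e (nat_lit 229519) (nat_lit 125) (.e (nat_lit 122917) (nat_lit 15) (.e (nat_lit 368384) (nat_lit 0) .nil)))))) (.g (nat_lit 1) (.e (nat_lit 120536) (nat_lit 0) .nil) .nil)))) (.nd (nat_lit 9) 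
(.lf (nat_lit 482772) (.g (nat_lit 1075) (.e (nat_lit 7588) (nat_lit 406) (.e (nat_lit 65653) (nat_lit 27) (.e (nat_lit 426190) (nat_lit 9) (.e (nat_lit 426375) (nat_lit 15) .nil)))) (.g (nat_lit 0) (.e (nat_lit 120033) (nat_lit 0) .nil) .nil))) 
(.lf (nat_lit 483284) (.g (nat_lit 449) (.e (nat_lit 6254) (nat_lit 337) (.e (nat_lit 2643) (nat_lit 165) (.e (nat_lit 180243) (nat_lit 5) .nil))) (.g (nat_lit 0) (.e (nat_lit 122268) (nat_lit 0) .nil) .nil))))))) (.nd (nat_lit 6) (.nd (nat_lit 7) (.nd (nat_lit 8) (.nd (nat_lit 9) 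
(.lf (nat_lit 482356) (.g (nat_lit 5062) (.e (nat_lit 7266) (nat_lit 384) (.e (nat_lit 57430) (nat_lit 16) (.e (nat_lit 368676) (nat_lit 21) (.e (nat_lit 516166) (nat_lit 12) (.e (nat_lit 450587) (nat_lit 10) (.e (nat_lit 573477) (nat_lit 12) (.e (nat_lit 57353) (nat_lit 0) .nil))))))) (.g (nat_lit 1) (.e (nat_lit 119018) (nat_lit 0) .nil) .nil))) 
(.lf (nat_lit 482868) (.g (nat_lit 2709) (.e (nat_lit 7591) (nat_lit 407) (.e (nat_lit 73773) (nat_lit 25) (.e (nat_lit 770072) (nat_lit 8) (.e (nat_lit 65627) (nat_lit 13) (.e (nat_lit 393232) (nat_lit 17) .nil))))) (.g (nat_lit 1) (.e (nat_lit 120141) (nat_lit 0) .nil) .nil)))) (.nd (nat_lit 9) 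
(.lf (nat_lit 482612) (.g (nat_lit 211) (.e (nat_lit 7556) (nat_lit 402) (.e (nat_lit 1428) (nat_lit 108) (.e (nat_lit 336421) (nat_lit 28) .nil))) (.g (nat_lit 0) (.e (nat_lit 119773) (nat_lit 0) .nil) .nil))) 
(.lf (nat_lit 483124) (.g (nat_lit 1774) (.e (nat_lit 6113) (nat_lit 332) (.e (nat_lit 2810) (nat_lit 180) (.e (nat_lit 303145) (nat_lit 13) (.e (nat_lit 483405) (nat_lit 26) (.e (nat_lit 385099) (nat_lit 49) .nil))))) (.g (nat_lit 0) (.e (nat_lit 121188) (nat_lit 0) .nil) .nil))))) (.nd (nat_lit 8) (.nd (nat_lit 9) 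
(.lf (nat_lit 482484) (.g (nat_lit 2552) (.e (nat_lit 7936) (nat_lit 392) (.e (nat_lit 172067) (nat_lit 3) (.e (nat_lit 204846) (nat_lit 24) (.e (nat_lit 319505) (nat_lit 10) (.e (nat_lit 5395) (nat_lit 301) .nil))))) (.g (nat_lit 0) (.e (nat_lit 119553) (nat_lit 0) .nil) .nil))) 
(.lf (nat_lit 482996) (.g (nat_lit 2151) (.e (nat_lit 7936) (nat_lit 407) (.e (nat_lit 73775) (nat_lit 26) (.e (nat_lit 778466) (nat_lit 11) (.e (nat_lit 24658) (nat_lit 13) (.e (nat_lit 393247) (nat_lit 17) .nil))))) (.g (nat_lit 0) (.e (nat_lit 120337) (nat_lit 0) .nil) .nil)))) (.nd (nat_lit 9) 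
(.lf (nat_lit 482740) (.g (nat_lit 3138) (.e (nat_lit 7586) (nat_lit 406) (.e (nat_lit 65653) (nat_lit 27) (.e (nat_lit 426316) (nat_lit 12) (.e (nat_lit 475211) (nat_lit 41) (.e (nat_lit 712745) (nat_lit 27) (.e (nat_lit 425984) (nat_lit 0) .nil)))))) (.g (nat_lit 1) (.e (nat_lit 119987) (nat_lit 0) .nil) .nil))) 
(.lf (nat_lit 483252) (.g (nat_lit 4344) (.e (nat_lit 6252) (nat_lit 337) (.e (nat_lit 2630) (nat_lit 164) (.e (nat_lit 172066) (nat_lit 3) (.e (nat_lit 204869) (nat_lit 29) (.e (nat_lit 360475) (nat_lit 8) (.e (nat_lit 557089) (nat_lit 12) (.e (nat_lit 163844) (nat_lit 0) .nil))))))) (.g (nat_lit 1) (.e (nat_lit 121994) (nat_lit 0) .nil) .nil)))))) 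
(.nd (nat_lit 7) (.nd (nat_lit 8) (.nd (nat_lit 9) 
(.lf (nat_lit 482420) (.g (nat_lit 1788) (.e (nat_lit 7377) (nat_lit 390) (.e (nat_lit 24664) (nat_lit 14) (.e (nat_lit 401444) (nat_lit 9) (.e (nat_lit 426163) (nat_lit 6) (.e (nat_lit 253991) (nat_lit 11) .nil))))) (.g (nat_lit 0) (.e (nat_lit 119377) (nat_lit 0) .nil) .nil))) 
(.lf (nat_lit 482932) (.g (nat_lit 1698) (.e (nat_lit 7593) (nat_lit 407) (.e (nat_lit 73775) (nat_lit 26) (.e (nat_lit 778463) (nat_lit 11) (.e (nat_lit 24657) (nat_lit 13) (.e (nat_lit 393231) (nat_lit 17) .nil))))) (.g (nat_lit 1) (.e (nat_lit 120264) (nat_lit 0) .nil) .nil)))) (.nd (nat_lit 9) 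
(.lf (nat_lit 482676) (.g (nat_lit 818) (.e (nat_lit 7575) (nat_lit 404) (.e (nat_lit 16448) (nat_lit 10) (.e (nat_lit 434229) (nat_lit 22) .nil))) (.g (nat_lit 0) (.e (nat_lit 119859) (nat_lit 0) .nil) .nil))) 
(.lf (nat_lit 483188) (.g (nat_lit 2490) (.e (nat_lit 6203) (nat_lit 332) (.e (nat_lit 2798) (nat_lit 180) (.e (nat_lit 303119) (nat_lit 3) (.e (nat_lit 204855) (nat_lit 26) (.e (nat_lit 336226) (nat_lit 14) .nil))))) (.g (nat_lit 0) (.e (nat_lit 121470) (nat_lit 0) .nil) .nil))))) (.nd (nat_lit 8) (.nd (nat_lit 9) 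
(.lf (nat_lit 482548) (.g (nat_lit 1378) (.e (nat_lit 7495) (nat_lit 402) (.e (nat_lit 1246) (nat_lit 92) (.e (nat_lit 98372) (nat_lit 29) (.e (nat_lit 450586) (nat_lit 10) (.e (nat_lit 573469) (nat_lit 11) .nil))))) (.g (nat_lit 0) (.e (nat_lit 119693) (nat_lit 0) .nil) .nil))) 
(.lf (nat_lit 483060) (.g (nat_lit 3174) (.e (nat_lit 7710) (nat_lit 414) (.e (nat_lit 163874) (nat_lit 3) (.e (nat_lit 204864) (nat_lit 27) (.e (nat_lit 344133) (nat_lit 26) (.e (nat_lit 557098) (nat_lit 13) (.e (nat_lit 172064) (nat_lit 2) (.e (nat_lit 196661) (nat_lit 12) (.e (nat_lit 57353) (nat_lit 0) .nil)))))))) (.g (nat_lit 1) (.e (nat_lit 120698) (nat_lit 0) .nil) .nil)))) 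
(.nd (nat_lit 9) 
(.lf (nat_lit 482804) (.g (nat_lit 2202) (.e (nat_lit 7590) (nat_lit 407) (.e (nat_lit 73747) (nat_lit 3) (.e (nat_lit 516139) (nat_lit 7) (.e (nat_lit 409617) (nat_lit 10) (.e (nat_lit 5355) (nat_lit 298) .nil))))) (.g (nat_lit 0) (.e (nat_lit 120075) (nat_lit 0) .nil) .nil))) 
(.lf (nat_lit 483316) (.g (nat_lit 579) (.e (nat_lit 6255) (nat_lit 337) (.e (nat_lit 2641) (nat_lit 165) (.e (nat_lit 180239) (nat_lit 1) .nil))) (.g (nat_lit 0) (.e (nat_lit 122442) (nat_lit 0) .nil) .nil))))))))) (.nd (nat_lit 4) (.nd (nat_lit 5) (.nd (nat_lit 6) (.nd (nat_lit 7) (.nd (nat_lit 8) (.nd (nat_lit 9) 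
(.lf (nat_lit 482316) (.g (nat_lit 4379) (.e (nat_lit 7265) (nat_lit 384) (.e (nat_lit 57412) (nat_lit 12) (.e (nat_lit 336001) (nat_lit 2) (.e (nat_lit 90170) (nat_lit 13) (.e (nat_lit 172113) (nat_lit 10) (.e (nat_lit 434248) (nat_lit 28) (.e (nat_lit 573475) (nat_lit 12) (.e (nat_lit 57348) (nat_lit 0) .nil)))))))) (.g (nat_lit 1) (.e (nat_lit 118976) (nat_lit 0) .nil) .nil))) 
(.lf (nat_lit 482828) (.g (nat_lit 3607) (.e (nat_lit 7590) (nat_lit 407) (.e (nat_lit 73755) (nat_lit 8) (.e (nat_lit 557087) (nat_lit 11) (.e (nat_lit 24640) (nat_lit 10) (.e (nat_lit 344107) (nat_lit 19) (.e (nat_lit 499825) (nat_lit 5) (.e (nat_lit 2400) (nat_lit 157) .nil))))))) (.g (nat_lit 1) (.e (nat_lit 120099) (nat_lit 0) .nil) .nil)))) (.nd (nat_lit 9) 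
(.lf (nat_lit 482572) (.g (nat_lit 1415) (.e (nat_lit 7517) (nat_lit 402) (.e (nat_lit 1427) (nat_lit 108) (.e (nat_lit 336395) (nat_lit 27) (.e (nat_lit 426340) (nat_lit 14) .nil)))) (.g (nat_lit 0) (.e (nat_lit 119725) (nat_lit 0) .nil) .nil))) 
(.lf (nat_lit 483084) (.g (nat_lit 3991) (.e (nat_lit 7695) (nat_lit 412) (.e (nat_lit 57379) (nat_lit 3) (.e (nat_lit 98366) (nat_lit 27) (.e (nat_lit 434231) (nat_lit 23) (.e (nat_lit 532579) (nat_lit 26) (.e (nat_lit 426124) (nat_lit 2) (.e (nat_lit 196677) (nat_lit 16) (.e (nat_lit 122880) (nat_lit 0) .nil)))))))) (.g (nat_lit 1) (.e (nat_lit 120795) (nat_lit 0) .nil) .nil))))) 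
(.nd (nat_lit 8) (.nd (nat_lit 9) 
(.lf (nat_lit 482444) (.g (nat_lit 1993) (.e (nat_lit 7379) (nat_lit 390) (.e (nat_lit 24665) (nat_lit 14) (.e (nat_lit 401440) (nat_lit 9) (.e (nat_lit 426162) (nat_lit 6) .nil)))) (.g (nat_lit 0) (.e (nat_lit 119442) (nat_lit 0) .nil) .nil))) 
(.lf (nat_lit 482956) (.g (nat_lit 1110) (.e (nat_lit 7593) (nat_lit 407) (.e (nat_lit 73775) (nat_lit 26) (.e (nat_lit 778466) (nat_lit 11) (.e (nat_lit 24628) (nat_lit 9) .nil)))) (.g (nat_lit 0) (.e (nat_lit 120289) (nat_lit 0) .nil) .nil)))) (.nd (nat_lit 9) 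
(.lf (nat_lit 482700) (.g (nat_lit 1789) (.e (nat_lit 7581) (nat_lit 405) (.e (nat_lit 57476) (nat_lit 28) (.e (nat_lit 557067) (nat_lit 9) (.e (nat_lit 2975) (nat_lit 185) .nil)))) (.g (nat_lit 0) (.e (nat_lit 119923) (nat_lit 0) .nil) .nil))) 
(.lf (nat_lit 483212) (.g (nat_lit 1440) (.e (nat_lit 6192) (nat_lit 332) (.e (nat_lit 1348) (nat_lit 102) (.e (nat_lit 286735) (nat_lit 3) (.e (nat_lit 106240) (nat_lit 26) .nil)))) (.g (nat_lit 0) (.e (nat_lit 121519) (nat_lit 0) .nil) .nil)))))) (.nd (nat_lit 7) (.nd (nat_lit 8) (.nd (nat_lit 9) 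
(.lf (nat_lit 482380) (.g (nat_lit 6354) (.e (nat_lit 7270) (nat_lit 385) (.e (nat_lit 122920) (nat_lit 16) (.e (nat_lit 368676) (nat_lit 21) (.e (nat_lit 516166) (nat_lit 12) (.e (nat_lit 450588) (nat_lit 10) (.e (nat_lit 573475) (nat_lit 12) (.e (nat_lit 57354) (nat_lit 0) .nil))))))) (.g (nat_lit 1) (.e (nat_lit 119042) (nat_lit 0) .nil) .nil))) 
(.lf (nat_lit 482892) (.g (nat_lit 1553) (.e (nat_lit 7593) (nat_lit 407) (.e (nat_lit 73746) (nat_lit 3) (.e (nat_lit 516098) (nat_lit 0) (.e (nat_lit 7591) (nat_lit 407) (.e (nat_lit 73746) (nat_lit 3) .nil))))) (.g (nat_lit 0) (.e (nat_lit 120223) (nat_lit 0) .nil) .nil)))) (.nd (nat_lit 9) 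
(.lf (nat_lit 482636) (.g (nat_lit 2333) (.e (nat_lit 7562) (nat_lit 402) (.e (nat_lit 1638) (nat_lit 114) (.e (nat_lit 385074) (nat_lit 31) (.e (nat_lit 573491) (nat_lit 15) .nil)))) (.g (nat_lit 0) (.e (nat_lit 119797) (nat_lit 0) .nil) .nil))) 
(.lf (nat_lit 483148) (.g (nat_lit 3841) (.e (nat_lit 6202) (nat_lit 332) (.e (nat_lit 2798) (nat_lit 180) (.e (nat_lit 303117) (nat_lit 2) (.e (nat_lit 196666) (nat_lit 13) (.e (nat_lit 65624) (nat_lit 12) .nil))))) (.g (nat_lit 0) (.e (nat_lit 121316) (nat_lit 0) .nil) .nil))))) (.nd (nat_lit 8) (.nd (nat_lit 9) 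
(.lf (nat_lit 482508) (.g (nat_lit 1662) (.e (nat_lit 7936) (nat_lit 393) (.e (nat_lit 180245) (nat_lit 5) (.e (nat_lit 532523) (nat_lit 7) (.e (nat_lit 319532) (nat_lit 16) (.e (nat_lit 286735) (nat_lit 3) .nil))))) (.g (nat_lit 0) (.e (nat_lit 119632) (nat_lit 0) .nil) .nil))) 
(.lf (nat_lit 483020) (.g (nat_lit 1869) (.e (nat_lit 7685) (nat_lit 410) (.e (nat_lit 2650) (nat_lit 166) (.e (nat_lit 188434) (nat_lit 20) (.e (nat_lit 3288) (nat_lit 201) (.e (nat_lit 565252) (nat_lit 0) (.e (nat_lit 1595) (nat_lit 111) (.e (nat_lit 368384) (nat_lit 0) .nil))))))) (.g (nat_lit 1) (.e (nat_lit 120525) (nat_lit 0) .nil) .nil)))) (.nd (nat_lit 9) 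
(.lf (nat_lit 482764) (.g (nat_lit 2004) (.e (nat_lit 7587) (nat_lit 406) (.e (nat_lit 65653) (nat_lit 27) (.e (nat_lit 426343) (nat_lit 14) (.e (nat_lit 491552) (nat_lit 9) (.e (nat_lit 336412) (nat_lit 27) (.e (nat_lit 426009) (nat_lit 0) .nil)))))) (.g (nat_lit 1) (.e (nat_lit 120012) (nat_lit 0) .nil) .nil))) 
(.lf (nat_lit 483276) (.g (nat_lit 3474) (.e (nat_lit 6254) (nat_lit 337) (.e (nat_lit 2630) (nat_lit 164) (.e (nat_lit 172067) (nat_lit 3) (.e (nat_lit 204868) (nat_lit 29) (.e (nat_lit 360473) (nat_lit 8) (.e (nat_lit 557094) (nat_lit 12) (.e (nat_lit 163849) (nat_lit 0) .nil))))))) (.g (nat_lit 1) (.e (nat_lit 122167) (nat_lit 0) .nil) .nil))))))) 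
(.nd (nat_lit 6) (.nd (nat_lit 7) (.nd (nat_lit 8) (.nd (nat_lit 9) 
(.lf (nat_lit 482348) (.g (nat_lit 3858) (.e (nat_lit 7266) (nat_lit 384) (.e (nat_lit 57415) (nat_lit 12) (.e (nat_lit 336013) (nat_lit 2) (.e (nat_lit 90170) (nat_lit 13) (.e (nat_lit 172113) (nat_lit 10) (.e (nat_lit 434242) (nat_lit 28) (.e (nat_lit 573474) (nat_lit 12) (.e (nat_lit 57347) (nat_lit 0) .nil)))))))) (.g (nat_lit 1) (.e (nat_lit 119010) (nat_lit 0) .nil) .nil))) 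
(.lf (nat_lit 482860) (.g (nat_lit 1540) (.e (nat_lit 7591) (nat_lit 407) (.e (nat_lit 73753) (nat_lit 8) (.e (nat_lit 557119) (nat_lit 18) (.e (nat_lit 2798) (nat_lit 180) .nil)))) (.g (nat_lit 0) (.e (nat_lit 120133) (nat_lit 0) .nil) .nil)))) (.nd (nat_lit 9) 
(.lf (nat_lit 482604) (.g (nat_lit 1750) (.e (nat_lit 7556) (nat_lit 402) (.e (nat_lit 1234) (nat_lit 91) (.e (nat_lit 90170) (nat_lit 13) (.e (nat_lit 172115) (nat_lit 10) .nil)))) (.g (nat_lit 0) (.e (nat_lit 119765) (nat_lit 0) .nil) .nil))) 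
(.lf (nat_lit 483116) (.g (nat_lit 2403) (.e (nat_lit 6113) (nat_lit 332) (.e (nat_lit 2810) (nat_lit 180) (.e (nat_lit 303127) (nat_lit 9) (.e (nat_lit 426538) (nat_lit 29) (.e (nat_lit 352318) (nat_lit 24) (.e (nat_lit 123198) (nat_lit 266) (.e (nat_lit 57350) (nat_lit 0) .nil))))))) (.g (nat_lit 1) (.e (nat_lit 121162) (nat_lit 0) .nil) .nil))))) (.nd (nat_lit 8) (.nd (nat_lit 9) 
(.lf (nat_lit 482476) (.g (nat_lit 2679) (.e (nat_lit 7936) (nat_lit 392) (.e (nat_lit 172065) (nat_lit 3) (.e (nat_lit 204846) (nat_lit 24) (.e (nat_lit 319530) (nat_lit 16) (.e (nat_lit 286735) (nat_lit 3) .nil))))) (.g (nat_lit 0) (.e (nat_lit 119544) (nat_lit 0) .nil) .nil))) 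
(.lf (nat_lit 482988) (.g (nat_lit 1176) (.e (nat_lit 7936) (nat_lit 407) (.e (nat_lit 73775) (nat_lit 26) (.e (nat_lit 778463) (nat_lit 11) (.e (nat_lit 24657) (nat_lit 13) (.e (nat_lit 393239) (nat_lit 17) .nil))))) (.g (nat_lit 0) (.e (nat_lit 120329) (nat_lit 0) .nil) .nil)))) (.nd (nat_lit 9) 
(.lf (nat_lit 482732) (.g (nat_lit 2359) (.e (nat_lit 7586) (nat_lit 406) (.e (nat_lit 65571) (nat_lit 3) (.e (nat_lit 98350) (nat_lit 24) (.e (nat_lit 409641) (nat_lit 17) .nil)))) (.g (nat_lit 0) (.e (nat_lit 119969) (nat_lit 0) .nil) .nil))) 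
(.lf (nat_lit 483244) (.g (nat_lit 3825) (.e (nat_lit 6252) (nat_lit 337) (.e (nat_lit 2630) (nat_lit 164) (.e (nat_lit 172064) (nat_lit 2) (.e (nat_lit 196666) (nat_lit 13) (.e (nat_lit 65617) (nat_lit 10) (.e (nat_lit 344130) (nat_lit 26) (.e (nat_lit 557089) (nat_lit 12) (.e (nat_lit 163844) (nat_lit 0) .nil)))))))) (.g (nat_lit 1) (.e (nat_lit 121978) (nat_lit 0) .nil) .nil)))))) 
(.nd (nat_lit 7) (.nd (nat_lit 8) (.nd (nat_lit 9) 
(.lf (nat_lit 482412) (.g (nat_lit 2712) (.e (nat_lit 7936) (nat_lit 389) (.e (nat_lit 8326) (nat_lit 69) (.e (nat_lit 557098) (nat_lit 13) (.e (nat_lit 172115) (nat_lit 10) (.e (nat_lit 434231) (nat_lit 23) .nil))))) (.g (nat_lit 0) (.e (nat_lit 119369) (nat_lit 0) .nil) .nil))) 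
(.lf (nat_lit 482924) (.g (nat_lit 3050) (.e (nat_lit 7593) (nat_lit 407) (.e (nat_lit 73755) (nat_lit 8) (.e (nat_lit 557087) (nat_lit 11) (.e (nat_lit 24625) (nat_lit 9) (.e (nat_lit 336019) (nat_lit 3) (.e (nat_lit 98320) (nat_lit 17) .nil)))))) (.g (nat_lit 1) (.e (nat_lit 120256) (nat_lit 0) .nil) .nil)))) (.nd (nat_lit 9) 
(.lf (nat_lit 482668) (.g (nat_lit 3198) (.e (nat_lit 7936) (nat_lit 402) (.e (nat_lit 1635) (nat_lit 114) (.e (nat_lit 385074) (nat_lit 31) (.e (nat_lit 573482) (nat_lit 13) (.e (nat_lit 65604) (nat_lit 9) .nil))))) (.g (nat_lit 0) (.e (nat_lit 119833) (nat_lit 0) .nil) .nil))) 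
(.lf (nat_lit 483180) (.g (nat_lit 1341) (.e (nat_lit 6203) (nat_lit 332) (.e (nat_lit 2798) (nat_lit 180) (.e (nat_lit 303119) (nat_lit 3) (.e (nat_lit 204846) (nat_lit 24) .nil)))) (.g (nat_lit 0) (.e (nat_lit 121453) (nat_lit 0) .nil) .nil))))) (.nd (nat_lit 8) (.nd (nat_lit 9) 
(.lf (nat_lit 482540) (.g (nat_lit 937) (.e (nat_lit 7490) (nat_lit 402) (.e (nat_lit 1248) (nat_lit 92) (.e (nat_lit 98373) (nat_lit 29) (.e (nat_lit 450588) (nat_lit 10) .nil)))) (.g (nat_lit 0) (.e (nat_lit 119682) (nat_lit 0) .nil) .nil))) 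
(.lf (nat_lit 483052) (.g (nat_lit 2960) (.e (nat_lit 7710) (nat_lit 414) (.e (nat_lit 163874) (nat_lit 3) (.e (nat_lit 204863) (nat_lit 27) (.e (nat_lit 344133) (nat_lit 26) (.e (nat_lit 557098) (nat_lit 13) (.e (nat_lit 172064) (nat_lit 2) (.e (nat_lit 196661) (nat_lit 12) (.e (nat_lit 57353) (nat_lit 0) .nil)))))))) (.g (nat_lit 1) (.e (nat_lit 120690) (nat_lit 0) .nil) .nil)))) 
(.nd (nat_lit 9) 
(.lf (nat_lit 482796) (.g (nat_lit 926) (.e (nat_lit 7936) (nat_lit 406) (.e (nat_lit 65578) (nat_lit 6) (.e (nat_lit 147495) (nat_lit 11) (.e (nat_lit 24658) (nat_lit 13) .nil)))) (.g (nat_lit 0) (.e (nat_lit 120064) (nat_lit 0) .nil) .nil))) 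
(.lf (nat_lit 483308) (.g (nat_lit 3762) (.e (nat_lit 6255) (nat_lit 337) (.e (nat_lit 2630) (nat_lit 164) (.e (nat_lit 172067) (nat_lit 3) (.e (nat_lit 204868) (nat_lit 29) (.e (nat_lit 360473) (nat_lit 8) (.e (nat_lit 557094) (nat_lit 12) (.e (nat_lit 163847) (nat_lit 0) .nil))))))) (.g (nat_lit 1) (.e (nat_lit 122316) (nat_lit 0) .nil) .nil)))))))) 
(.nd (nat_lit 5) (.nd (nat_lit 6) (.nd (nat_lit 7) (.nd (nat_lit 8) (.nd (nat_lit 9) 
(.lf (nat_lit 482332) (.g (nat_lit 3225) (.e (nat_lit 7265) (nat_lit 384) (.e (nat_lit 57431) (nat_lit 16) (.e (nat_lit 368676) (nat_lit 21) (.e (nat_lit 516165) (nat_lit 12) (.e (nat_lit 450586) (nat_lit 10) (.e (nat_lit 573477) (nat_lit 12) (.e (nat_lit 57353) (nat_lit 0) .nil))))))) (.g (nat_lit 1) (.e (nat_lit 118992) (nat_lit 0) .nil) .nil))) 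
(.lf (nat_lit 482844) (.g (nat_lit 1707) (.e (nat_lit 7591) (nat_lit 407) (.e (nat_lit 73747) (nat_lit 3) (.e (nat_lit 516139) (nat_lit 7) (.e (nat_lit 409640) (nat_lit 17) .nil)))) (.g (nat_lit 0) (.e (nat_lit 120117) (nat_lit 0) .nil) .nil)))) (.nd (nat_lit 9) 
(.lf (nat_lit 482588) (.g (nat_lit 797) (.e (nat_lit 7538) (nat_lit 402) (.e (nat_lit 1427) (nat_lit 108) (.e (nat_lit 336421) (nat_lit 28) .nil))) (.g (nat_lit 0) (.e (nat_lit 119744) (nat_lit 0) .nil) .nil))) 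
(.lf (nat_lit 483100) (.g (nat_lit 3709) (.e (nat_lit 6058) (nat_lit 327) (.e (nat_lit 8213) (nat_lit 9) (.e (nat_lit 303144) (nat_lit 13) (.e (nat_lit 483413) (nat_lit 27) (.e (nat_lit 401448) (nat_lit 10) (.e (nat_lit 434200) (nat_lit 18) .nil)))))) (.g (nat_lit 1) (.e (nat_lit 120832) (nat_lit 0) .nil) .nil))))) (.nd (nat_lit 8) (.nd (nat_lit 9) 
(.lf (nat_lit 482460) (.g (nat_lit 975) (.e (nat_lit 7936) (nat_lit 390) (.e (nat_lit 24665) (nat_lit 14) (.e (nat_lit 401448) (nat_lit 10) (.e (nat_lit 434291) (nat_lit 44) .nil)))) (.g (nat_lit 0) (.e (nat_lit 119481) (nat_lit 0) .nil) .nil))) 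
(.lf (nat_lit 482972) (.g (nat_lit 3086) (.e (nat_lit 7936) (nat_lit 407) (.e (nat_lit 73746) (nat_lit 3) (.e (nat_lit 516139) (nat_lit 7) (.e (nat_lit 409641) (nat_lit 17) (.e (nat_lit 294931) (nat_lit 3) .nil))))) (.g (nat_lit 0) (.e (nat_lit 120307) (nat_lit 0) .nil) .nil)))) (.nd (nat_lit 9) 
(.lf (nat_lit 482716) (.g (nat_lit 3200) (.e (nat_lit 7585) (nat_lit 406) (.e (nat_lit 65571) (nat_lit 3) (.e (nat_lit 98350) (nat_lit 24) (.e (nat_lit 409640) (nat_lit 17) (.e (nat_lit 294928) (nat_lit 2) .nil))))) (.g (nat_lit 0) (.e (nat_lit 119953) (nat_lit 0) .nil) .nil))) 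
(.lf (nat_lit 483228) (.g (nat_lit 2412) (.e (nat_lit 6209) (nat_lit 333) (.e (nat_lit 57883) (nat_lit 270) (.e (nat_lit 371) (nat_lit 32) (.e (nat_lit 426542) (nat_lit 29) (.e (nat_lit 352315) (nat_lit 23) (.e (nat_lit 98309) (nat_lit 0) .nil)))))) (.g (nat_lit 1) (.e (nat_lit 121902) (nat_lit 0) .nil) .nil)))))) (.nd (nat_lit 7) (.nd (nat_lit 8) (.nd (nat_lit 9) 
(.lf (nat_lit 482396) (.g (nat_lit 2125) (.e (nat_lit 7366) (nat_lit 388) (.e (nat_lit 2663) (nat_lit 167) (.e (nat_lit 196666) (nat_lit 13) (.e (nat_lit 65617) (nat_lit 10) (.e (nat_lit 344133) (nat_lit 26) .nil))))) (.g (nat_lit 0) (.e (nat_lit 119196) (nat_lit 0) .nil) .nil))) 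
(.lf (nat_lit 482908) (.g (nat_lit 4495) (.e (nat_lit 7593) (nat_lit 407) (.e (nat_lit 73746) (nat_lit 3) (.e (nat_lit 516185) (nat_lit 16) (.e (nat_lit 491560) (nat_lit 10) (.e (nat_lit 344117) (nat_lit 21) (.e (nat_lit 516097) (nat_lit 0) .nil)))))) (.g (nat_lit 1) (.e (nat_lit 120240) (nat_lit 0) .nil) .nil)))) (.nd (nat_lit 9) 
(.lf (nat_lit 482652) (.g (nat_lit 2304) (.e (nat_lit 7936) (nat_lit 402) (.e (nat_lit 1255) (nat_lit 92) (.e (nat_lit 98372) (nat_lit 29) (.e (nat_lit 450588) (nat_lit 10) (.e (nat_lit 573471) (nat_lit 11) .nil))))) (.g (nat_lit 0) (.e (nat_lit 119814) (nat_lit 0) .nil) .nil))) 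
(.lf (nat_lit 483164) (.g (nat_lit 2370) (.e (nat_lit 6203) (nat_lit 332) (.e (nat_lit 2797) (nat_lit 180) (.e (nat_lit 303117) (nat_lit 2) (.e (nat_lit 196668) (nat_lit 14) (.e (nat_lit 73782) (nat_lit 32) (.e (nat_lit 2682) (nat_lit 168) (.e (nat_lit 204815) (nat_lit 17) .nil))))))) (.g (nat_lit 1) (.e (nat_lit 121383) (nat_lit 0) .nil) .nil))))) (.nd (nat_lit 8) (.nd (nat_lit 9) 
(.lf (nat_lit 482524) (.g (nat_lit 2892) (.e (nat_lit 7486) (nat_lit 402) (.e (nat_lit 1239) (nat_lit 91) (.e (nat_lit 90170) (nat_lit 13) (.e (nat_lit 172113) (nat_lit 10) (.e (nat_lit 434248) (nat_lit 28) (.e (nat_lit 573452) (nat_lit 9) (.e (nat_lit 430) (nat_lit 32) (.e (nat_lit 426012) (nat_lit 0) .nil)))))))) (.g (nat_lit 1) (.e (nat_lit 119665) (nat_lit 0) .nil) .nil))) 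
(.lf (nat_lit 483036) (.g (nat_lit 1738) (.e (nat_lit 7708) (nat_lit 414) (.e (nat_lit 163875) (nat_lit 3) (.e (nat_lit 204862) (nat_lit 27) (.e (nat_lit 344132) (nat_lit 26) .nil)))) (.g (nat_lit 0) (.e (nat_lit 120597) (nat_lit 0) .nil) .nil)))) (.nd (nat_lit 9) 
(.lf (nat_lit 482780) (.g (nat_lit 2183) (.e (nat_lit 7589) (nat_lit 406) (.e (nat_lit 65653) (nat_lit 27) (.e (nat_lit 426338) (nat_lit 14) (.e (nat_lit 491571) (nat_lit 13) (.e (nat_lit 393231) (nat_lit 17) .nil))))) (.g (nat_lit 1) (.e (nat_lit 120046) (nat_lit 0) .nil) .nil))) 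
(.lf (nat_lit 483292) (.g (nat_lit 2196) (.e (nat_lit 6254) (nat_lit 337) (.e (nat_lit 2725) (nat_lit 172) (.e (nat_lit 237593) (nat_lit 3) (.e (nat_lit 204868) (nat_lit 29) (.e (nat_lit 360473) (nat_lit 8) (.e (nat_lit 557094) (nat_lit 12) (.e (nat_lit 163847) (nat_lit 0) .nil))))))) (.g (nat_lit 1) (.e (nat_lit 122287) (nat_lit 0) .nil) .nil))))))) 
(.nd (nat_lit 6) (.nd (nat_lit 7) (.nd (nat_lit 8) (.nd (nat_lit 9) 
(.lf (nat_lit 482364) (.g (nat_lit 2910) (.e (nat_lit 7266) (nat_lit 384) (.e (nat_lit 57431) (nat_lit 16) (.e (nat_lit 368676) (nat_lit 21) (.e (nat_lit 516165) (nat_lit 12) (.e (nat_lit 450586) (nat_lit 10) (.e (nat_lit 573477) (nat_lit 12) (.e (nat_lit 57353) (nat_lit 0) .nil))))))) (.g (nat_lit 1) (.e (nat_lit 119026) (nat_lit 0) .nil) .nil))) 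
(.lf (nat_lit 482876) (.g (nat_lit 1107) (.e (nat_lit 7591) (nat_lit 407) (.e (nat_lit 73775) (nat_lit 26) (.e (nat_lit 778466) (nat_lit 11) (.e (nat_lit 24623) (nat_lit 9) .nil)))) (.g (nat_lit 0) (.e (nat_lit 120149) (nat_lit 0) .nil) .nil)))) (.nd (nat_lit 9) 
(.lf (nat_lit 482620) (.g (nat_lit 1821) (.e (nat_lit 7557) (nat_lit 402) (.e (nat_lit 1235) (nat_lit 91) (.e (nat_lit 90178) (nat_lit 15) (.e (nat_lit 188440) (nat_lit 20) (.e (nat_lit 3272) (nat_lit 199) .nil))))) (.g (nat_lit 0) (.e (nat_lit 119781) (nat_lit 0) .nil) .nil))) 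
(.lf (nat_lit 483132) (.g (nat_lit 1548) (.e (nat_lit 6126) (nat_lit 332) (.e (nat_lit 1348) (nat_lit 102) (.e (nat_lit 286733) (nat_lit 2) (.e (nat_lit 90168) (nat_lit 13) .nil)))) (.g (nat_lit 0) (.e (nat_lit 121244) (nat_lit 0) .nil) .nil))))) (.nd (nat_lit 8) (.nd (nat_lit 9) 
(.lf (nat_lit 482492) (.g (nat_lit 682) (.e (nat_lit 7388) (nat_lit 393) (.e (nat_lit 180244) (nat_lit 5) (.e (nat_lit 532523) (nat_lit 7) .nil))) (.g (nat_lit 0) (.e (nat_lit 119569) (nat_lit 0) .nil) .nil))) 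
(.lf (nat_lit 483004) (.g (nat_lit 946) (.e (nat_lit 7607) (nat_lit 410) (.e (nat_lit 2651) (nat_lit 166) (.e (nat_lit 188439) (nat_lit 20) (.e (nat_lit 3289) (nat_lit 201) .nil)))) (.g (nat_lit 0) (.e (nat_lit 120362) (nat_lit 0) .nil) .nil)))) (.nd (nat_lit 9) 
(.lf (nat_lit 482748) (.g (nat_lit 3441) (.e (nat_lit 7587) (nat_lit 406) (.e (nat_lit 65637) (nat_lit 15) (.e (nat_lit 3305) (nat_lit 202) (.e (nat_lit 573482) (nat_lit 13) (.e (nat_lit 65619) (nat_lit 10) (.e (nat_lit 344117) (nat_lit 21) (.e (nat_lit 516098) (nat_lit 0) .nil))))))) (.g (nat_lit 1) (.e (nat_lit 119996) (nat_lit 0) .nil) .nil))) 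
(.lf (nat_lit 483260) (.g (nat_lit 4022) (.e (nat_lit 6254) (nat_lit 337) (.e (nat_lit 2630) (nat_lit 164) (.e (nat_lit 172062) (nat_lit 2) (.e (nat_lit 196666) (nat_lit 13) (.e (nat_lit 65617) (nat_lit 10) (.e (nat_lit 344133) (nat_lit 26) (.e (nat_lit 557091) (nat_lit 12) (.e (nat_lit 163849) (nat_lit 0) .nil)))))))) (.g (nat_lit 1) (.e (nat_lit 122149) (nat_lit 0) .nil) .nil)))))) 
(.nd (nat_lit 7) (.nd (nat_lit 8) (.nd (nat_lit 9) 
(.lf (nat_lit 482428) (.g (nat_lit 2869) (.e (nat_lit 7377) (nat_lit 390) (.e (nat_lit 24665) (nat_lit 14) (.e (nat_lit 401446) (nat_lit 10) (.e (nat_lit 434291) (nat_lit 44) .nil)))) (.g (nat_lit 0) (.e (nat_lit 119390) (nat_lit 0) .nil) .nil))) 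
(.lf (nat_lit 482940) (.g (nat_lit 2501) (.e (nat_lit 7593) (nat_lit 407) (.e (nat_lit 73775) (nat_lit 26) (.e (nat_lit 778465) (nat_lit 11) (.e (nat_lit 24623) (nat_lit 9) (.e (nat_lit 336400) (nat_lit 27) (.e (nat_lit 426009) (nat_lit 0) .nil)))))) (.g (nat_lit 1) (.e (nat_lit 120272) (nat_lit 0) .nil) .nil)))) (.nd (nat_lit 9) 
(.lf (nat_lit 482684) (.g (nat_lit 2767) (.e (nat_lit 7581) (nat_lit 405) (.e (nat_lit 57464) (nat_lit 23) (.e (nat_lit 516151) (nat_lit 9) (.e (nat_lit 426286) (nat_lit 10) (.e (nat_lit 434245) (nat_lit 28) (.e (nat_lit 573469) (nat_lit 11) (.e (nat_lit 16387) (nat_lit 0) .nil))))))) (.g (nat_lit 1) (.e (nat_lit 119907) (nat_lit 0) .nil) .nil))) 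
(.lf (nat_lit 483196) (.g (nat_lit 2028) (.e (nat_lit 6203) (nat_lit 332) (.e (nat_lit 2798) (nat_lit 180) (.e (nat_lit 303133) (nat_lit 9) (.e (nat_lit 426499) (nat_lit 27) (.e (nat_lit 336105) (nat_lit 9) .nil))))) (.g (nat_lit 0) (.e (nat_lit 121484) (nat_lit 0) .nil) .nil))))) (.nd (nat_lit 8) (.nd (nat_lit 9) 
(.lf (nat_lit 482556) (.g (nat_lit 2675) (.e (nat_lit 7497) (nat_lit 402) (.e (nat_lit 1239) (nat_lit 91) (.e (nat_lit 90170) (nat_lit 13) (.e (nat_lit 172113) (nat_lit 10) (.e (nat_lit 434245) (nat_lit 28) .nil))))) (.g (nat_lit 0) (.e (nat_lit 119707) (nat_lit 0) .nil) .nil))) 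
(.lf (nat_lit 483068) (.g (nat_lit 961) (.e (nat_lit 7710) (nat_lit 414) (.e (nat_lit 163923) (nat_lit 15) (.e (nat_lit 450588) (nat_lit 10) (.e (nat_lit 573503) (nat_lit 18) .nil)))) (.g (nat_lit 0) (.e (nat_lit 120739) (nat_lit 0) .nil) .nil)))) (.nd (nat_lit 9) 
(.lf (nat_lit 482812) (.g (nat_lit 2913) (.e (nat_lit 7590) (nat_lit 407) (.e (nat_lit 73747) (nat_lit 3) (.e (nat_lit 516142) (nat_lit 8) (.e (nat_lit 417827) (nat_lit 17) (.e (nat_lit 294928) (nat_lit 2) (.e (nat_lit 90133) (nat_lit 9) (.e (nat_lit 2400) (nat_lit 157) .nil))))))) (.g (nat_lit 1) (.e (nat_lit 120083) (nat_lit 0) .nil) .nil))) 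
(.lf (nat_lit 483324) (.g (nat_lit 3169) (.e (nat_lit 6255) (nat_lit 337) (.e (nat_lit 2643) (nat_lit 165) (.e (nat_lit 180243) (nat_lit 5) (.e (nat_lit 532549) (nat_lit 12) (.e (nat_lit 360474) (nat_lit 8) (.e (nat_lit 557094) (nat_lit 12) (.e (nat_lit 163847) (nat_lit 0) .nil))))))) (.g (nat_lit 1) (.e (nat_lit 122453) (nat_lit 0) .nil) .nil))))))))))) 
(.nd (nat_lit 2) (.nd (nat_lit 3) (.nd (nat_lit 4) (.nd (nat_lit 5) (.nd (nat_lit 6) 
(.nd (nat_lit 7) (.nd (nat_lit 8) (.nd (nat_lit 9) 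
(.lf (nat_lit 482306) (.g (nat_lit 2837) (.e (nat_lit 7265) (nat_lit 384) (.e (nat_lit 57406) (nat_lit 12) (.e (nat_lit 336324) (nat_lit 18) (.e (nat_lit 204849) (nat_lit 25) (.e (nat_lit 327698) (nat_lit 8) (.e (nat_lit 303154) (nat_lit 28) (.e (nat_lit 344094) (nat_lit 18) .nil))))))) (.g (nat_lit 1) (.e (nat_lit 118965) (nat_lit 0) .nil) .nil))) 
(.lf (nat_lit 482818) (.g (nat_lit 2419) (.e (nat_lit 7590) (nat_lit 407) (.e (nat_lit 73753) (nat_lit 8) (.e (nat_lit 557087) (nat_lit 11) (.e (nat_lit 24625) (nat_lit 9) (.e (nat_lit 336016) (nat_lit 2) (.e (nat_lit 90133) (nat_lit 9) (.e (nat_lit 2397) (nat_lit 157) .nil))))))) (.g (nat_lit 1) (.e (nat_lit 120089) (nat_lit 0) .nil) .nil)))) (.nd (nat_lit 9) 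
(.lf (nat_lit 482562) (.g (nat_lit 4090) (.e (nat_lit 7498) (nat_lit 402) (.e (nat_lit 1252) (nat_lit 92) (.e (nat_lit 98373) (nat_lit 29) (.e (nat_lit 450588) (nat_lit 10) (.e (nat_lit 573470) (nat_lit 11) .nil))))) (.g (nat_lit 0) (.e (nat_lit 119715) (nat_lit 0) .nil) .nil))) 
(.lf (nat_lit 483074) (.g (nat_lit 4195) (.e (nat_lit 7695) (nat_lit 412) (.e (nat_lit 57366) (nat_lit 1) (.e (nat_lit 57854) (nat_lit 252) (.e (nat_lit 57406) (nat_lit 12) (.e (nat_lit 336316) (nat_lit 17) (.e (nat_lit 196666) (nat_lit 13) (.e (nat_lit 65617) (nat_lit 10) (.e (nat_lit 344096) (nat_lit 18) .nil)))))))) (.g (nat_lit 1) (.e (nat_lit 120785) (nat_lit 0) .nil) .nil))))) 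
(.nd (nat_lit 8) (.nd (nat_lit 9) 
(.lf (nat_lit 482434) (.g (nat_lit 2920) (.e (nat_lit 7378) (nat_lit 390) (.e (nat_lit 24662) (nat_lit 14) (.e (nat_lit 401459) (nat_lit 13) (.e (nat_lit 483411) (nat_lit 27) .nil)))) (.g (nat_lit 0) (.e (nat_lit 119409) (nat_lit 0) .nil) .nil))) 
(.lf (nat_lit 482946) (.g (nat_lit 1622) (.e (nat_lit 7593) (nat_lit 407) (.e (nat_lit 73775) (nat_lit 26) (.e (nat_lit 778465) (nat_lit 11) (.e (nat_lit 24636) (nat_lit 9) (.e (nat_lit 336407) (nat_lit 27) (.e (nat_lit 426012) (nat_lit 0) .nil)))))) (.g (nat_lit 1) (.e (nat_lit 120278) (nat_lit 0) .nil) .nil)))) (.nd (nat_lit 9) 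
(.lf (nat_lit 482690) (.g (nat_lit 4513) (.e (nat_lit 7581) (nat_lit 405) (.e (nat_lit 57464) (nat_lit 23) (.e (nat_lit 516151) (nat_lit 9) (.e (nat_lit 426286) (nat_lit 10) (.e (nat_lit 434248) (nat_lit 28) (.e (nat_lit 573471) (nat_lit 11) (.e (nat_lit 16387) (nat_lit 0) .nil))))))) (.g (nat_lit 1) (.e (nat_lit 119913) (nat_lit 0) .nil) .nil))) 
(.lf (nat_lit 483202) (.g (nat_lit 1050) (.e (nat_lit 6203) (nat_lit 332) (.e (nat_lit 2798) (nat_lit 180) (.e (nat_lit 303145) (nat_lit 13) (.e (nat_lit 483346) (nat_lit 17) .nil)))) (.g (nat_lit 0) (.e (nat_lit 121490) (nat_lit 0) .nil) .nil)))))) (.nd (nat_lit 7) (.nd (nat_lit 8) (.nd (nat_lit 9) 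
(.lf (nat_lit 482370) (.g (nat_lit 449) (.e (nat_lit 7266) (nat_lit 384) (.e (nat_lit 57445) (nat_lit 19) (.e (nat_lit 401152) (nat_lit 11) .nil))) (.g (nat_lit 0) (.e (nat_lit 119032) (nat_lit 0) .nil) .nil))) 
(.lf (nat_lit 482882) (.g (nat_lit 1042) (.e (nat_lit 7591) (nat_lit 407) (.e (nat_lit 73776) (nat_lit 26) (.e (nat_lit 778466) (nat_lit 11) (.e (nat_lit 24624) (nat_lit 9) .nil)))) (.g (nat_lit 0) (.e (nat_lit 120155) (nat_lit 0) .nil) .nil)))) (.nd (nat_lit 9) 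
(.lf (nat_lit 482626) (.g (nat_lit 2071) (.e (nat_lit 7562) (nat_lit 402) (.e (nat_lit 1234) (nat_lit 91) (.e (nat_lit 90170) (nat_lit 13) (.e (nat_lit 172113) (nat_lit 10) (.e (nat_lit 434245) (nat_lit 28) .nil))))) (.g (nat_lit 0) (.e (nat_lit 119787) (nat_lit 0) .nil) .nil))) 
(.lf (nat_lit 483138) (.g (nat_lit 1883) (.e (nat_lit 6148) (nat_lit 332) (.e (nat_lit 1348) (nat_lit 102) (.e (nat_lit 286733) (nat_lit 2) (.e (nat_lit 90168) (nat_lit 13) .nil)))) (.g (nat_lit 0) (.e (nat_lit 121259) (nat_lit 0) .nil) .nil))))) (.nd (nat_lit 8) (.nd (nat_lit 9) 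
(.lf (nat_lit 482498) (.g (nat_lit 4188) (.e (nat_lit 7389) (nat_lit 393) (.e (nat_lit 180250) (nat_lit 10) (.e (nat_lit 573474) (nat_lit 12) (.e (nat_lit 57572) (nat_lit 54) (.e (nat_lit 770072) (nat_lit 8) (.e (nat_lit 65571) (nat_lit 3) (.e (nat_lit 98320) (nat_lit 17) .nil))))))) (.g (nat_lit 1) (.e (nat_lit 119579) (nat_lit 0) .nil) .nil))) 
(.lf (nat_lit 483010) (.g (nat_lit 2245) (.e (nat_lit 7685) (nat_lit 410) (.e (nat_lit 2649) (nat_lit 166) (.e (nat_lit 188434) (nat_lit 20) (.e (nat_lit 3288) (nat_lit 201) (.e (nat_lit 565252) (nat_lit 0) (.e (nat_lit 1586) (nat_lit 111) (.e (nat_lit 368384) (nat_lit 0) .nil))))))) (.g (nat_lit 1) (.e (nat_lit 120511) (nat_lit 0) .nil) .nil)))) (.nd (nat_lit 9) 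
(.lf (nat_lit 482754) (.g (nat_lit 2295) (.e (nat_lit 7587) (nat_lit 406) (.e (nat_lit 65653) (nat_lit 27) (.e (nat_lit 426338) (nat_lit 14) (.e (nat_lit 491571) (nat_lit 13) (.e (nat_lit 393231) (nat_lit 17) .nil))))) (.g (nat_lit 1) (.e (nat_lit 120002) (nat_lit 0) .nil) .nil))) 
(.lf (nat_lit 483266) (.g (nat_lit 3110) (.e (nat_lit 6254) (nat_lit 337) (.e (nat_lit 2630) (nat_lit 164) (.e (nat_lit 172066) (nat_lit 3) (.e (nat_lit 204869) (nat_lit 29) (.e (nat_lit 360474) (nat_lit 8) (.e (nat_lit 557093) (nat_lit 12) (.e (nat_lit 163849) (nat_lit 0) .nil))))))) (.g (nat_lit 1) (.e (nat_lit 122156) (nat_lit 0) .nil) .nil))))))) 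
(.nd (nat_lit 6) (.nd (nat_lit 7) (.nd (nat_lit 8) (.nd (nat_lit 9) 
(.lf (nat_lit 482338) (.g (nat_lit 5957) (.e (nat_lit 7265) (nat_lit 384) (.e (nat_lit 57431) (nat_lit 16) (.e (nat_lit 368676) (nat_lit 21) (.e (nat_lit 516166) (nat_lit 12) (.e (nat_lit 450588) (nat_lit 10) (.e (nat_lit 573473) (nat_lit 12) (.e (nat_lit 57353) (nat_lit 0) .nil))))))) (.g (nat_lit 1) (.e (nat_lit 118998) (nat_lit 0) .nil) .nil))) 
(.lf (nat_lit 482850) (.g (nat_lit 2170) (.e (nat_lit 7591) (nat_lit 407) (.e (nat_lit 73747) (nat_lit 3) (.e (nat_lit 516139) (nat_lit 7) (.e (nat_lit 409642) (nat_lit 17) .nil)))) (.g (nat_lit 0) (.e (nat_lit 120123) (nat_lit 0) .nil) .nil)))) (.nd (nat_lit 9) 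
(.lf (nat_lit 482594) (.g (nat_lit 541) (.e (nat_lit 7554) (nat_lit 402) (.e (nat_lit 1234) (nat_lit 91) (.e (nat_lit 90167) (nat_lit 13) .nil))) (.g (nat_lit 0) (.e (nat_lit 119752) (nat_lit 0) .nil) .nil))) 
(.lf (nat_lit 483106) (.g (nat_lit 1577) (.e (nat_lit 6097) (nat_lit 332) (.e (nat_lit 2777) (nat_lit 178) (.e (nat_lit 286735) (nat_lit 3) (.e (nat_lit 98349) (nat_lit 24) .nil)))) (.g (nat_lit 0) (.e (nat_lit 121110) (nat_lit 0) .nil) .nil))))) (.nd (nat_lit 8) (.nd (nat_lit 9) 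
(.lf (nat_lit 482466) (.g (nat_lit 2798) (.e (nat_lit 7386) (nat_lit 392) (.e (nat_lit 172067) (nat_lit 3) (.e (nat_lit 204846) (nat_lit 24) (.e (nat_lit 319530) (nat_lit 16) .nil)))) (.g (nat_lit 0) (.e (nat_lit 119529) (nat_lit 0) .nil) .nil))) 
(.lf (nat_lit 482978) (.g (nat_lit 2654) (.e (nat_lit 7936) (nat_lit 407) (.e (nat_lit 73747) (nat_lit 3) (.e (nat_lit 516139) (nat_lit 7) (.e (nat_lit 409642) (nat_lit 17) (.e (nat_lit 294931) (nat_lit 3) .nil))))) (.g (nat_lit 0) (.e (nat_lit 120313) (nat_lit 0) .nil) .nil)))) (.nd (nat_lit 9) 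
(.lf (nat_lit 482722) (.g (nat_lit 1234) (.e (nat_lit 7585) (nat_lit 406) (.e (nat_lit 65580) (nat_lit 6) (.e (nat_lit 147492) (nat_lit 11) (.e (nat_lit 24657) (nat_lit 13) (.e (nat_lit 401152) (nat_lit 17) .nil))))) (.g (nat_lit 1) (.e (nat_lit 119959) (nat_lit 0) .nil) .nil))) 
(.lf (nat_lit 483234) (.g (nat_lit 2677) (.e (nat_lit 6218) (nat_lit 333) (.e (nat_lit 57819) (nat_lit 248) (.e (nat_lit 164359) (nat_lit 246) (.e (nat_lit 2973) (nat_lit 185) (.e (nat_lit 434268) (nat_lit 36) (.e (nat_lit 639020) (nat_lit 16) (.e (nat_lit 65542) (nat_lit 0) .nil))))))) (.g (nat_lit 1) (.e (nat_lit 121942) (nat_lit 0) .nil) .nil)))))) 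
(.nd (nat_lit 7) (.nd (nat_lit 8) (.nd (nat_lit 9) 
(.lf (nat_lit 482402) (.g (nat_lit 1835) (.e (nat_lit 7936) (nat_lit 388) (.e (nat_lit 2679) (nat_lit 168) (.e (nat_lit 204846) (nat_lit 24) (.e (nat_lit 319534) (nat_lit 16) (.e (nat_lit 286733) (nat_lit 2) .nil))))) (.g (nat_lit 0) (.e (nat_lit 119292) (nat_lit 0) .nil) .nil))) 
(.lf (nat_lit 482914) (.g (nat_lit 3038) (.e (nat_lit 7593) (nat_lit 407) (.e (nat_lit 73753) (nat_lit 8) (.e (nat_lit 557086) (nat_lit 11) (.e (nat_lit 24627) (nat_lit 9) (.e (nat_lit 336019) (nat_lit 3) (.e (nat_lit 98320) (nat_lit 17) .nil)))))) (.g (nat_lit 1) (.e (nat_lit 120246) (nat_lit 0) .nil) .nil)))) (.nd (nat_lit 9) 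
(.lf (nat_lit 482658) (.g (nat_lit 2096) (.e (nat_lit 7936) (nat_lit 402) (.e (nat_lit 1454) (nat_lit 108) (.e (nat_lit 336389) (nat_lit 27) (.e (nat_lit 426343) (nat_lit 14) (.e (nat_lit 491570) (nat_lit 13) .nil))))) (.g (nat_lit 0) (.e (nat_lit 119820) (nat_lit 0) .nil) .nil))) 
(.lf (nat_lit 483170) (.g (nat_lit 3654) (.e (nat_lit 6203) (nat_lit 332) (.e (nat_lit 2798) (nat_lit 180) (.e (nat_lit 303117) (nat_lit 2) (.e (nat_lit 196666) (nat_lit 13) (.e (nat_lit 65630) (nat_lit 14) .nil))))) (.g (nat_lit 0) (.e (nat_lit 121435) (nat_lit 0) .nil) .nil))))) (.nd (nat_lit 8) (.nd (nat_lit 9) 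
(.lf (nat_lit 482530) (.g (nat_lit 3125) (.e (nat_lit 7486) (nat_lit 402) (.e (nat_lit 1634) (nat_lit 114) (.e (nat_lit 385074) (nat_lit 31) (.e (nat_lit 573491) (nat_lit 15) (.e (nat_lit 81956) (nat_lit 23) .nil))))) (.g (nat_lit 0) (.e (nat_lit 119671) (nat_lit 0) .nil) .nil))) 
(.lf (nat_lit 483042) (.g (nat_lit 559) (.e (nat_lit 7708) (nat_lit 414) (.e (nat_lit 163923) (nat_lit 15) (.e (nat_lit 450587) (nat_lit 10) .nil))) (.g (nat_lit 0) (.e (nat_lit 120615) (nat_lit 0) .nil) .nil)))) (.nd (nat_lit 9) 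
(.lf (nat_lit 482786) (.g (nat_lit 2303) (.e (nat_lit 7589) (nat_lit 406) (.e (nat_lit 65653) (nat_lit 27) (.e (nat_lit 426343) (nat_lit 14) (.e (nat_lit 491546) (nat_lit 9) (.e (nat_lit 336412) (nat_lit 27) (.e (nat_lit 426012) (nat_lit 0) .nil)))))) (.g (nat_lit 1) (.e (nat_lit 120052) (nat_lit 0) .nil) .nil))) 
(.lf (nat_lit 483298) (.g (nat_lit 4843) (.e (nat_lit 6255) (nat_lit 337) (.e (nat_lit 2630) (nat_lit 164) (.e (nat_lit 172064) (nat_lit 2) (.e (nat_lit 196666) (nat_lit 13) (.e (nat_lit 65610) (nat_lit 10) (.e (nat_lit 344129) (nat_lit 26) (.e (nat_lit 557090) (nat_lit 12) (.e (nat_lit 163849) (nat_lit 0) .nil)))))))) (.g (nat_lit 1) (.e (nat_lit 122300) (nat_lit 0) .nil) .nil)))))))) 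
(.nd (nat_lit 5) (.nd (nat_lit 6) (.nd (nat_lit 7) (.nd (nat_lit 8) (.nd (nat_lit 9) 
(.lf (nat_lit 482322) (.g (nat_lit 2949) (.e (nat_lit 7265) (nat_lit 384) (.e (nat_lit 57430) (nat_lit 16) (.e (nat_lit 368676) (nat_lit 21) (.e (nat_lit 516165) (nat_lit 12) (.e (nat_lit 450586) (nat_lit 10) (.e (nat_lit 573477) (nat_lit 12) (.e (nat_lit 57353) (nat_lit 0) .nil))))))) (.g (nat_lit 1) (.e (nat_lit 118982) (nat_lit 0) .nil) .nil))) 
(.lf (nat_lit 482834) (.g (nat_lit 2380) (.e (nat_lit 7590) (nat_lit 407) (.e (nat_lit 73775) (nat_lit 26) (.e (nat_lit 778466) (nat_lit 11) (.e (nat_lit 24625) (nat_lit 9) (.e (nat_lit 336414) (nat_lit 27) .nil))))) (.g (nat_lit 0) (.e (nat_lit 120105) (nat_lit 0) .nil) .nil)))) (.nd (nat_lit 9) 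
(.lf (nat_lit 482578) (.g (nat_lit 797) (.e (nat_lit 7522) (nat_lit 402) (.e (nat_lit 1427) (nat_lit 108) (.e (nat_lit 336421) (nat_lit 28) .nil))) (.g (nat_lit 0) (.e (nat_lit 119731) (nat_lit 0) .nil) .nil))) 
(.lf (nat_lit 483090) (.g (nat_lit 4150) (.e (nat_lit 7697) (nat_lit 412) (.e (nat_lit 57366) (nat_lit 1) (.e (nat_lit 57854) (nat_lit 252) (.e (nat_lit 57406) (nat_lit 12) (.e (nat_lit 336316) (nat_lit 17) (.e (nat_lit 196666) (nat_lit 13) (.e (nat_lit 65610) (nat_lit 10) (.e (nat_lit 344090) (nat_lit 18) .nil)))))))) (.g (nat_lit 1) (.e (nat_lit 120801) (nat_lit 0) .nil) .nil))))) 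
(.nd (nat_lit 8) (.nd (nat_lit 9) 
(.lf (nat_lit 482450) (.g (nat_lit 472) (.e (nat_lit 7936) (nat_lit 390) (.e (nat_lit 24580) (nat_lit 0) (.e (nat_lit 6722) (nat_lit 362) .nil))) (.g (nat_lit 0) (.e (nat_lit 119457) (nat_lit 0) .nil) .nil))) 
(.lf (nat_lit 482962) (.g (nat_lit 2357) (.e (nat_lit 7593) (nat_lit 407) (.e (nat_lit 73775) (nat_lit 26) (.e (nat_lit 778466) (nat_lit 11) (.e (nat_lit 24638) (nat_lit 9) (.e (nat_lit 336387) (nat_lit 27) (.e (nat_lit 426010) (nat_lit 0) .nil)))))) (.g (nat_lit 1) (.e (nat_lit 120295) (nat_lit 0) .nil) .nil)))) (.nd (nat_lit 9) 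
(.lf (nat_lit 482706) (.g (nat_lit 3801) (.e (nat_lit 7583) (nat_lit 405) (.e (nat_lit 57464) (nat_lit 23) (.e (nat_lit 516165) (nat_lit 12) (.e (nat_lit 450588) (nat_lit 10) (.e (nat_lit 573471) (nat_lit 11) (.e (nat_lit 16388) (nat_lit 0) .nil)))))) (.g (nat_lit 1) (.e (nat_lit 119935) (nat_lit 0) .nil) .nil))) 
(.lf (nat_lit 483218) (.g (nat_lit 4521) (.e (nat_lit 6236) (nat_lit 335) (.e (nat_lit 164359) (nat_lit 246) (.e (nat_lit 2661) (nat_lit 167) (.e (nat_lit 196666) (nat_lit 13) (.e (nat_lit 65610) (nat_lit 10) (.e (nat_lit 344129) (nat_lit 26) (.e (nat_lit 557067) (nat_lit 9) (.e (nat_lit 20) (nat_lit 0) .nil)))))))) (.g (nat_lit 1) (.e (nat_lit 121695) (nat_lit 0) .nil) .nil)))))) 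
(.nd (nat_lit 7) (.nd (nat_lit 8) (.nd (nat_lit 9) 
(.lf (nat_lit 482386) (.g (nat_lit 2399) (.e (nat_lit 7335) (nat_lit 388) (.e (nat_lit 3067) (nat_lit 190) (.e (nat_lit 475179) (nat_lit 24) (.e (nat_lit 516117) (nat_lit 1) (.e (nat_lit 164332) (nat_lit 230) .nil))))) (.g (nat_lit 0) (.e (nat_lit 119123) (nat_lit 0) .nil) .nil))) 
(.lf (nat_lit 482898) (.g (nat_lit 2226) (.e (nat_lit 7593) (nat_lit 407) (.e (nat_lit 73746) (nat_lit 3) (.e (nat_lit 516139) (nat_lit 7) (.e (nat_lit 409642) (nat_lit 17) .nil)))) (.g (nat_lit 0) (.e (nat_lit 120230) (nat_lit 0) .nil) .nil)))) (.nd (nat_lit 9) 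
(.lf (nat_lit 482642) (.g (nat_lit 2071) (.e (nat_lit 7545) (nat_lit 402) (.e (nat_lit 1234) (nat_lit 91) (.e (nat_lit 90170) (nat_lit 13) (.e (nat_lit 172113) (nat_lit 10) (.e (nat_lit 434245) (nat_lit 28) .nil))))) (.g (nat_lit 0) (.e (nat_lit 119804) (nat_lit 0) .nil) .nil))) 
(.lf (nat_lit 483154) (.g (nat_lit 2780) (.e (nat_lit 6202) (nat_lit 332) (.e (nat_lit 2798) (nat_lit 180) (.e (nat_lit 303117) (nat_lit 2) (.e (nat_lit 196670) (nat_lit 14) (.e (nat_lit 73781) (nat_lit 32) (.e (nat_lit 2664) (nat_lit 167) (.e (nat_lit 196628) (nat_lit 9) (.e (nat_lit 968) (nat_lit 81) .nil)))))))) (.g (nat_lit 1) (.e (nat_lit 121322) (nat_lit 0) .nil) .nil))))) 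
(.nd (nat_lit 8) (.nd (nat_lit 9) 
(.lf (nat_lit 482514) (.g (nat_lit 2286) (.e (nat_lit 7464) (nat_lit 396) (.e (nat_lit 2551) (nat_lit 159) (.e (nat_lit 24658) (nat_lit 13) (.e (nat_lit 393301) (nat_lit 27) (.e (nat_lit 491560) (nat_lit 10) .nil))))) (.g (nat_lit 0) (.e (nat_lit 119646) (nat_lit 0) .nil) .nil))) 
(.lf (nat_lit 483026) (.g (nat_lit 2831) (.e (nat_lit 7685) (nat_lit 410) (.e (nat_lit 2650) (nat_lit 166) (.e (nat_lit 188449) (nat_lit 22) (.e (nat_lit 196615) (nat_lit 0) .nil)))) (.g (nat_lit 0) (.e (nat_lit 120531) (nat_lit 0) .nil) .nil)))) (.nd (nat_lit 9) 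
(.lf (nat_lit 482770) (.g (nat_lit 2570) (.e (nat_lit 7588) (nat_lit 406) (.e (nat_lit 65652) (nat_lit 27) (.e (nat_lit 426347) (nat_lit 14) (.e (nat_lit 491549) (nat_lit 9) (.e (nat_lit 336414) (nat_lit 27) (.e (nat_lit 425984) (nat_lit 0) .nil)))))) (.g (nat_lit 1) (.e (nat_lit 120023) (nat_lit 0) .nil) .nil))) 
(.lf (nat_lit 483282) (.g (nat_lit 5033) (.e (nat_lit 6254) (nat_lit 337) (.e (nat_lit 2641) (nat_lit 165) (.e (nat_lit 180244) (nat_lit 5) (.e (nat_lit 532550) (nat_lit 12) (.e (nat_lit 360475) (nat_lit 8) (.e (nat_lit 557089) (nat_lit 12) (.e (nat_lit 163844) (nat_lit 0) .nil))))))) (.g (nat_lit 1) (.e (nat_lit 122266) (nat_lit 0) .nil) .nil))))))) 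
(.nd (nat_lit 6) (.nd (nat_lit 7) (.nd (nat_lit 8) (.nd (nat_lit 9) 
(.lf (nat_lit 482354) (.g (nat_lit 3226) (.e (nat_lit 7266) (nat_lit 384) (.e (nat_lit 57430) (nat_lit 16) (.e (nat_lit 368676) (nat_lit 21) (.e (nat_lit 516165) (nat_lit 12) (.e (nat_lit 450586) (nat_lit 10) (.e (nat_lit 573478) (nat_lit 12) (.e (nat_lit 57351) (nat_lit 0) .nil))))))) (.g (nat_lit 1) (.e (nat_lit 119016) (nat_lit 0) .nil) .nil))) 
(.lf (nat_lit 482866) (.g (nat_lit 2312) (.e (nat_lit 7591) (nat_lit 407) (.e (nat_lit 73773) (nat_lit 25) (.e (nat_lit 770072) (nat_lit 8) (.e (nat_lit 65626) (nat_lit 13) (.e (nat_lit 393233) (nat_lit 17) .nil))))) (.g (nat_lit 1) (.e (nat_lit 120139) (nat_lit 0) .nil) .nil)))) (.nd (nat_lit 9) 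
(.lf (nat_lit 482610) (.g (nat_lit 1156) (.e (nat_lit 7556) (nat_lit 402) (.e (nat_lit 1428) (nat_lit 108) (.e (nat_lit 336369) (nat_lit 27) (.e (nat_lit 426338) (nat_lit 14) .nil)))) (.g (nat_lit 0) (.e (nat_lit 119771) (nat_lit 0) .nil) .nil))) 
(.lf (nat_lit 483122) (.g (nat_lit 1827) (.e (nat_lit 6113) (nat_lit 332) (.e (nat_lit 2810) (nat_lit 180) (.e (nat_lit 303145) (nat_lit 13) (.e (nat_lit 483387) (nat_lit 23) (.e (nat_lit 336032) (nat_lit 4) (.e (nat_lit 123198) (nat_lit 266) (.e (nat_lit 57350) (nat_lit 0) .nil))))))) (.g (nat_lit 1) (.e (nat_lit 121186) (nat_lit 0) .nil) .nil))))) (.nd (nat_lit 8) (.nd (nat_lit 9) 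
(.lf (nat_lit 482482) (.g (nat_lit 2791) (.e (nat_lit 7936) (nat_lit 392) (.e (nat_lit 172067) (nat_lit 3) (.e (nat_lit 204846) (nat_lit 24) (.e (nat_lit 319504) (nat_lit 10) (.e (nat_lit 5396) (nat_lit 301) .nil))))) (.g (nat_lit 0) (.e (nat_lit 119551) (nat_lit 0) .nil) .nil))) 
(.lf (nat_lit 482994) (.g (nat_lit 2289) (.e (nat_lit 7936) (nat_lit 407) (.e (nat_lit 73775) (nat_lit 26) (.e (nat_lit 778466) (nat_lit 11) (.e (nat_lit 24658) (nat_lit 13) (.e (nat_lit 393236) (nat_lit 17) .nil))))) (.g (nat_lit 0) (.e (nat_lit 120335) (nat_lit 0) .nil) .nil)))) (.nd (nat_lit 9) 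
(.lf (nat_lit 482738) (.g (nat_lit 3283) (.e (nat_lit 7586) (nat_lit 406) (.e (nat_lit 65653) (nat_lit 27) (.e (nat_lit 426306) (nat_lit 12) (.e (nat_lit 475211) (nat_lit 41) (.e (nat_lit 712745) (nat_lit 27) (.e (nat_lit 425984) (nat_lit 0) .nil)))))) (.g (nat_lit 1) (.e (nat_lit 119985) (nat_lit 0) .nil) .nil))) 
(.lf (nat_lit 483250) (.g (nat_lit 4551) (.e (nat_lit 6252) (nat_lit 337) (.e (nat_lit 2630) (nat_lit 164) (.e (nat_lit 172065) (nat_lit 3) (.e (nat_lit 204869) (nat_lit 29) (.e (nat_lit 360475) (nat_lit 8) (.e (nat_lit 557091) (nat_lit 12) (.e (nat_lit 163847) (nat_lit 0) .nil))))))) (.g (nat_lit 1) (.e (nat_lit 121991) (nat_lit 0) .nil) .nil)))))) 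
(.nd (nat_lit 7) (.nd (nat_lit 8) (.nd (nat_lit 9) 
(.lf (nat_lit 482418) (.g (nat_lit 2632) (.e (nat_lit 7377) (nat_lit 390) (.e (nat_lit 24662) (nat_lit 14) (.e (nat_lit 401459) (nat_lit 13) (.e (nat_lit 483411) (nat_lit 27) .nil)))) (.g (nat_lit 0) (.e (nat_lit 119375) (nat_lit 0) .nil) .nil))) 
(.lf (nat_lit 482930) (.g (nat_lit 1424) (.e (nat_lit 7593) (nat_lit 407) (.e (nat_lit 73774) (nat_lit 26) (.e (nat_lit 778469) (nat_lit 11) (.e (nat_lit 24660) (nat_lit 13) (.e (nat_lit 393231) (nat_lit 17) .nil))))) (.g (nat_lit 1) (.e (nat_lit 120262) (nat_lit 0) .nil) .nil)))) (.nd (nat_lit 9) 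
(.lf (nat_lit 482674) (.g (nat_lit 216) (.e (nat_lit 7936) (nat_lit 402) (.e (nat_lit 1659) (nat_lit 115) (.e (nat_lit 401152) (nat_lit 27) .nil))) (.g (nat_lit 0) (.e (nat_lit 119844) (nat_lit 0) .nil) .nil))) 
(.lf (nat_lit 483186) (.g (nat_lit 2238) (.e (nat_lit 6203) (nat_lit 332) (.e (nat_lit 2798) (nat_lit 180) (.e (nat_lit 303119) (nat_lit 3) (.e (nat_lit 204849) (nat_lit 25) (.e (nat_lit 327683) (nat_lit 0) .nil))))) (.g (nat_lit 0) (.e (nat_lit 121467) (nat_lit 0) .nil) .nil))))) (.nd (nat_lit 8) (.nd (nat_lit 9) 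
(.lf (nat_lit 482546) (.g (nat_lit 2428) (.e (nat_lit 7495) (nat_lit 402) (.e (nat_lit 1225) (nat_lit 91) (.e (nat_lit 90170) (nat_lit 13) (.e (nat_lit 172113) (nat_lit 10) (.e (nat_lit 434245) (nat_lit 28) .nil))))) (.g (nat_lit 0) (.e (nat_lit 119691) (nat_lit 0) .nil) .nil))) 
(.lf (nat_lit 483058) (.g (nat_lit 1704) (.e (nat_lit 7710) (nat_lit 414) (.e (nat_lit 163874) (nat_lit 3) (.e (nat_lit 204864) (nat_lit 27) (.e (nat_lit 344133) (nat_lit 26) .nil)))) (.g (nat_lit 0) (.e (nat_lit 120696) (nat_lit 0) .nil) .nil)))) (.nd (nat_lit 9) 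
(.lf (nat_lit 482802) (.g (nat_lit 634) (.e (nat_lit 7590) (nat_lit 407) (.e (nat_lit 73746) (nat_lit 3) (.e (nat_lit 516185) (nat_lit 16) .nil))) (.g (nat_lit 0) (.e (nat_lit 120072) (nat_lit 0) .nil) .nil))) 
(.lf (nat_lit 483314) (.g (nat_lit 1022) (.e (nat_lit 6255) (nat_lit 337) (.e (nat_lit 2630) (nat_lit 164) (.e (nat_lit 172085) (nat_lit 9) (.e (nat_lit 426533) (nat_lit 28) .nil)))) (.g (nat_lit 0) (.e (nat_lit 122336) (nat_lit 0) .nil) .nil))))))))) (.nd (nat_lit 4) (.nd (nat_lit 5) (.nd (nat_lit 6) (.nd (nat_lit 7) (.nd (nat_lit 8) (.nd (nat_lit 9) 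
(.lf (nat_lit 482314) (.g (nat_lit 3651) (.e (nat_lit 7265) (nat_lit 384) (.e (nat_lit 57412) (nat_lit 12) (.e (nat_lit 336001) (nat_lit 2) (.e (nat_lit 90170) (nat_lit 13) (.e (nat_lit 172113) (nat_lit 10) (.e (nat_lit 434247) (nat_lit 28) (.e (nat_lit 573478) (nat_lit 12) (.e (nat_lit 57353) (nat_lit 0) .nil)))))))) (.g (nat_lit 1) (.e (nat_lit 118974) (nat_lit 0) .nil) .nil))) 
(.lf (nat_lit 482826) (.g (nat_lit 1737) (.e (nat_lit 7590) (nat_lit 407) (.e (nat_lit 73755) (nat_lit 8) (.e (nat_lit 557087) (nat_lit 11) (.e (nat_lit 24631) (nat_lit 9) (.e (nat_lit 336001) (nat_lit 2) .nil))))) (.g (nat_lit 0) (.e (nat_lit 120097) (nat_lit 0) .nil) .nil)))) (.nd (nat_lit 9) 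
(.lf (nat_lit 482570) (.g (nat_lit 809) (.e (nat_lit 7518) (nat_lit 402) (.e (nat_lit 1427) (nat_lit 108) (.e (nat_lit 336421) (nat_lit 28) .nil))) (.g (nat_lit 0) (.e (nat_lit 119723) (nat_lit 0) .nil) .nil))) 
(.lf (nat_lit 483082) (.g (nat_lit 2152) (.e (nat_lit 7695) (nat_lit 412) (.e (nat_lit 57379) (nat_lit 3) (.e (nat_lit 98366) (nat_lit 27) (.e (nat_lit 434231) (nat_lit 23) (.e (nat_lit 532579) (nat_lit 26) .nil))))) (.g (nat_lit 0) (.e (nat_lit 120793) (nat_lit 0) .nil) .nil))))) (.nd (nat_lit 8) (.nd (nat_lit 9) 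
(.lf (nat_lit 482442) (.g (nat_lit 3610) (.e (nat_lit 7379) (nat_lit 390) (.e (nat_lit 24662) (nat_lit 14) (.e (nat_lit 401459) (nat_lit 13) (.e (nat_lit 483411) (nat_lit 27) (.e (nat_lit 401408) (nat_lit 0) .nil))))) (.g (nat_lit 0) (.e (nat_lit 119439) (nat_lit 0) .nil) .nil))) 
(.lf (nat_lit 482954) (.g (nat_lit 1729) (.e (nat_lit 7593) (nat_lit 407) (.e (nat_lit 73775) (nat_lit 26) (.e (nat_lit 778466) (nat_lit 11) (.e (nat_lit 24623) (nat_lit 9) (.e (nat_lit 336412) (nat_lit 27) .nil))))) (.g (nat_lit 0) (.e (nat_lit 120287) (nat_lit 0) .nil) .nil)))) (.nd (nat_lit 9) 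
(.lf (nat_lit 482698) (.g (nat_lit 3339) (.e (nat_lit 7581) (nat_lit 405) (.e (nat_lit 57464) (nat_lit 23) (.e (nat_lit 516166) (nat_lit 12) (.e (nat_lit 450588) (nat_lit 10) (.e (nat_lit 573457) (nat_lit 9) (.e (nat_lit 430) (nat_lit 32) (.e (nat_lit 426009) (nat_lit 0) .nil))))))) (.g (nat_lit 1) (.e (nat_lit 119921) (nat_lit 0) .nil) .nil))) 
(.lf (nat_lit 483210) (.g (nat_lit 1973) (.e (nat_lit 6203) (nat_lit 332) (.e (nat_lit 2798) (nat_lit 180) (.e (nat_lit 303145) (nat_lit 13) (.e (nat_lit 483387) (nat_lit 23) .nil)))) (.g (nat_lit 0) (.e (nat_lit 121505) (nat_lit 0) .nil) .nil)))))) (.nd (nat_lit 7) (.nd (nat_lit 8) (.nd (nat_lit 9) 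
(.lf (nat_lit 482378) (.g (nat_lit 2234) (.e (nat_lit 7270) (nat_lit 385) (.e (nat_lit 122914) (nat_lit 14) (.e (nat_lit 352277) (nat_lit 11) (.e (nat_lit 426344) (nat_lit 14) (.e (nat_lit 491560) (nat_lit 10) (.e (nat_lit 344087) (nat_lit 18) .nil)))))) (.g (nat_lit 1) (.e (nat_lit 119040) (nat_lit 0) .nil) .nil))) 
(.lf (nat_lit 482890) (.g (nat_lit 1951) (.e (nat_lit 7593) (nat_lit 407) (.e (nat_lit 73729) (nat_lit 0) (.e (nat_lit 7265) (nat_lit 384) (.e (nat_lit 57406) (nat_lit 12) (.e (nat_lit 336120) (nat_lit 9) .nil))))) (.g (nat_lit 0) (.e (nat_lit 120219) (nat_lit 0) .nil) .nil)))) (.nd (nat_lit 9) 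
(.lf (nat_lit 482634) (.g (nat_lit 2012) (.e (nat_lit 7562) (nat_lit 402) (.e (nat_lit 1637) (nat_lit 114) (.e (nat_lit 385074) (nat_lit 31) (.e (nat_lit 573491) (nat_lit 15) (.e (nat_lit 81954) (nat_lit 23) .nil))))) (.g (nat_lit 0) (.e (nat_lit 119795) (nat_lit 0) .nil) .nil))) 
(.lf (nat_lit 483146) (.g (nat_lit 4903) (.e (nat_lit 6202) (nat_lit 332) (.e (nat_lit 2798) (nat_lit 180) (.e (nat_lit 303117) (nat_lit 2) (.e (nat_lit 196665) (nat_lit 13) (.e (nat_lit 65628) (nat_lit 14) (.e (nat_lit 401425) (nat_lit 2) (.e (nat_lit 196628) (nat_lit 9) (.e (nat_lit 968) (nat_lit 81) .nil)))))))) (.g (nat_lit 1) (.e (nat_lit 121314) (nat_lit 0) .nil) .nil))))) 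
(.nd (nat_lit 8) (.nd (nat_lit 9) 
(.lf (nat_lit 482506) (.g (nat_lit 1664) (.e (nat_lit 7936) (nat_lit 393) (.e (nat_lit 180244) (nat_lit 5) (.e (nat_lit 532523) (nat_lit 7) (.e (nat_lit 327424) (nat_lit 16) .nil)))) (.g (nat_lit 0) (.e (nat_lit 119620) (nat_lit 0) .nil) .nil))) 
(.lf (nat_lit 483018) (.g (nat_lit 4001) (.e (nat_lit 7685) (nat_lit 410) (.e (nat_lit 2649) (nat_lit 166) (.e (nat_lit 188449) (nat_lit 22) (.e (nat_lit 196614) (nat_lit 0) .nil)))) (.g (nat_lit 0) (.e (nat_lit 120519) (nat_lit 0) .nil) .nil)))) (.nd (nat_lit 9) 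
(.lf (nat_lit 482762) (.g (nat_lit 2211) (.e (nat_lit 7587) (nat_lit 406) (.e (nat_lit 65653) (nat_lit 27) (.e (nat_lit 426343) (nat_lit 14) (.e (nat_lit 491546) (nat_lit 9) (.e (nat_lit 336412) (nat_lit 27) .nil))))) (.g (nat_lit 0) (.e (nat_lit 120010) (nat_lit 0) .nil) .nil))) 
(.lf (nat_lit 483274) (.g (nat_lit 3742) (.e (nat_lit 6254) (nat_lit 337) (.e (nat_lit 2630) (nat_lit 164) (.e (nat_lit 172067) (nat_lit 3) (.e (nat_lit 204868) (nat_lit 29) (.e (nat_lit 360473) (nat_lit 8) (.e (nat_lit 557093) (nat_lit 12) (.e (nat_lit 163849) (nat_lit 0) .nil))))))) (.g (nat_lit 1) (.e (nat_lit 122165) (nat_lit 0) .nil) .nil))))))) 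
(.nd (nat_lit 6) (.nd (nat_lit 7) (.nd (nat_lit 8) (.nd (nat_lit 9) 
(.lf (nat_lit 482346) (.g (nat_lit 2536) (.e (nat_lit 7266) (nat_lit 384) (.e (nat_lit 57409) (nat_lit 12) (.e (nat_lit 336019) (nat_lit 3) (.e (nat_lit 98372) (nat_lit 29) (.e (nat_lit 450586) (nat_lit 10) (.e (nat_lit 573475) (nat_lit 12) (.e (nat_lit 57351) (nat_lit 0) .nil))))))) (.g (nat_lit 1) (.e (nat_lit 119008) (nat_lit 0) .nil) .nil))) 
(.lf (nat_lit 482858) (.g (nat_lit 2309) (.e (nat_lit 7591) (nat_lit 407) (.e (nat_lit 73753) (nat_lit 8) (.e (nat_lit 557087) (nat_lit 11) (.e (nat_lit 24645) (nat_lit 11) (.e (nat_lit 368676) (nat_lit 21) (.e (nat_lit 516098) (nat_lit 0) .nil)))))) (.g (nat_lit 1) (.e (nat_lit 120131) (nat_lit 0) .nil) .nil)))) (.nd (nat_lit 9) 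
(.lf (nat_lit 482602) (.g (nat_lit 2257) (.e (nat_lit 7555) (nat_lit 402) (.e (nat_lit 1427) (nat_lit 108) (.e (nat_lit 336414) (nat_lit 27) (.e (nat_lit 426347) (nat_lit 14) (.e (nat_lit 491570) (nat_lit 13) .nil))))) (.g (nat_lit 0) (.e (nat_lit 119763) (nat_lit 0) .nil) .nil))) 
(.lf (nat_lit 483114) (.g (nat_lit 2654) (.e (nat_lit 6113) (nat_lit 332) (.e (nat_lit 2810) (nat_lit 180) (.e (nat_lit 303117) (nat_lit 2) (.e (nat_lit 196670) (nat_lit 14) (.e (nat_lit 73781) (nat_lit 32) (.e (nat_lit 2682) (nat_lit 168) (.e (nat_lit 204819) (nat_lit 17) .nil))))))) (.g (nat_lit 1) (.e (nat_lit 121159) (nat_lit 0) .nil) .nil))))) (.nd (nat_lit 8) (.nd (nat_lit 9) 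
(.lf (nat_lit 482474) (.g (nat_lit 2577) (.e (nat_lit 7387) (nat_lit 392) (.e (nat_lit 172133) (nat_lit 15) (.e (nat_lit 2059) (nat_lit 142) (.e (nat_lit 704595) (nat_lit 5) (.e (nat_lit 188160) (nat_lit 36) .nil))))) (.g (nat_lit 0) (.e (nat_lit 119541) (nat_lit 0) .nil) .nil))) 
(.lf (nat_lit 482986) (.g (nat_lit 2077) (.e (nat_lit 7936) (nat_lit 407) (.e (nat_lit 73755) (nat_lit 8) (.e (nat_lit 557119) (nat_lit 18) (.e (nat_lit 2798) (nat_lit 180) (.e (nat_lit 303145) (nat_lit 13) .nil))))) (.g (nat_lit 0) (.e (nat_lit 120325) (nat_lit 0) .nil) .nil)))) (.nd (nat_lit 9) 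
(.lf (nat_lit 482730) (.g (nat_lit 3304) (.e (nat_lit 7586) (nat_lit 406) (.e (nat_lit 65571) (nat_lit 3) (.e (nat_lit 98350) (nat_lit 24) (.e (nat_lit 409640) (nat_lit 17) (.e (nat_lit 294928) (nat_lit 2) (.e (nat_lit 90133) (nat_lit 9) (.e (nat_lit 2397) (nat_lit 157) .nil))))))) (.g (nat_lit 1) (.e (nat_lit 119967) (nat_lit 0) .nil) .nil))) 
(.lf (nat_lit 483242) (.g (nat_lit 3867) (.e (nat_lit 6252) (nat_lit 337) (.e (nat_lit 2630) (nat_lit 164) (.e (nat_lit 172062) (nat_lit 2) (.e (nat_lit 196666) (nat_lit 13) (.e (nat_lit 65617) (nat_lit 10) (.e (nat_lit 344133) (nat_lit 26) (.e (nat_lit 557091) (nat_lit 12) (.e (nat_lit 163844) (nat_lit 0) .nil)))))))) (.g (nat_lit 1) (.e (nat_lit 121976) (nat_lit 0) .nil) .nil)))))) 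
(.nd (nat_lit 7) (.nd (nat_lit 8) (.nd (nat_lit 9) 
(.lf (nat_lit 482410) (.g (nat_lit 3996) (.e (nat_lit 7376) (nat_lit 389) (.e (nat_lit 8320) (nat_lit 64) (.e (nat_lit 516119) (nat_lit 1) (.e (nat_lit 164326) (nat_lit 230) (.e (nat_lit 163903) (nat_lit 12) (.e (nat_lit 426568) (nat_lit 34) (.e (nat_lit 393234) (nat_lit 17) .nil))))))) (.g (nat_lit 1) (.e (nat_lit 119364) (nat_lit 0) .nil) .nil))) 
(.lf (nat_lit 482922) (.g (nat_lit 2844) (.e (nat_lit 7593) (nat_lit 407) (.e (nat_lit 73755) (nat_lit 8) (.e (nat_lit 557086) (nat_lit 11) (.e (nat_lit 24627) (nat_lit 9) (.e (nat_lit 336019) (nat_lit 3) (.e (nat_lit 98320) (nat_lit 17) .nil)))))) (.g (nat_lit 1) (.e (nat_lit 120254) (nat_lit 0) .nil) .nil)))) (.nd (nat_lit 9) 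
(.lf (nat_lit 482666) (.g (nat_lit 3047) (.e (nat_lit 7936) (nat_lit 402) (.e (nat_lit 1634) (nat_lit 114) (.e (nat_lit 385074) (nat_lit 31) (.e (nat_lit 573482) (nat_lit 13) (.e (nat_lit 65604) (nat_lit 9) .nil))))) (.g (nat_lit 0) (.e (nat_lit 119831) (nat_lit 0) .nil) .nil))) 
(.lf (nat_lit 483178) (.g (nat_lit 2660) (.e (nat_lit 6203) (nat_lit 332) (.e (nat_lit 2798) (nat_lit 180) (.e (nat_lit 303119) (nat_lit 3) (.e (nat_lit 204845) (nat_lit 24) (.e (nat_lit 319492) (nat_lit 0) .nil))))) (.g (nat_lit 0) (.e (nat_lit 121451) (nat_lit 0) .nil) .nil))))) (.nd (nat_lit 8) (.nd (nat_lit 9) 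
(.lf (nat_lit 482538) (.g (nat_lit 2264) (.e (nat_lit 7490) (nat_lit 402) (.e (nat_lit 1239) (nat_lit 91) (.e (nat_lit 90170) (nat_lit 13) (.e (nat_lit 172113) (nat_lit 10) (.e (nat_lit 434245) (nat_lit 28) (.e (nat_lit 573458) (nat_lit 9) (.e (nat_lit 426) (nat_lit 32) (.e (nat_lit 426009) (nat_lit 0) .nil)))))))) (.g (nat_lit 1) (.e (nat_lit 119680) (nat_lit 0) .nil) .nil))) 
(.lf (nat_lit 483050) (.g (nat_lit 2902) (.e (nat_lit 7710) (nat_lit 414) (.e (nat_lit 163874) (nat_lit 3) (.e (nat_lit 204863) (nat_lit 27) (.e (nat_lit 344132) (nat_lit 26) (.e (nat_lit 557100) (nat_lit 13) .nil))))) (.g (nat_lit 0) (.e (nat_lit 120688) (nat_lit 0) .nil) .nil)))) (.nd (nat_lit 9) 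
(.lf (nat_lit 482794) (.g (nat_lit 1459) (.e (nat_lit 7936) (nat_lit 406) (.e (nat_lit 65578) (nat_lit 6) (.e (nat_lit 147495) (nat_lit 11) (.e (nat_lit 24654) (nat_lit 13) (.e (nat_lit 393237) (nat_lit 17) .nil))))) (.g (nat_lit 0) (.e (nat_lit 120062) (nat_lit 0) .nil) .nil))) 
(.lf (nat_lit 483306) (.g (nat_lit 4442) (.e (nat_lit 6255) (nat_lit 337) (.e (nat_lit 2630) (nat_lit 164) (.e (nat_lit 172067) (nat_lit 3) (.e (nat_lit 204868) (nat_lit 29) (.e (nat_lit 360473) (nat_lit 8) (.e (nat_lit 557089) (nat_lit 12) (.e (nat_lit 163844) (nat_lit 0) .nil))))))) (.g (nat_lit 1) (.e (nat_lit 122314) (nat_lit 0) .nil) .nil)))))))) 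
(.nd (nat_lit 5) (.nd (nat_lit 6) (.nd (nat_lit 7) (.nd (nat_lit 8) (.nd (nat_lit 9) 
(.lf (nat_lit 482330) (.g (nat_lit 3711) (.e (nat_lit 7265) (nat_lit 384) (.e (nat_lit 57431) (nat_lit 16) (.e (nat_lit 368676) (nat_lit 21) (.e (nat_lit 516165) (nat_lit 12) (.e (nat_lit 450586) (nat_lit 10) (.e (nat_lit 573473) (nat_lit 12) (.e (nat_lit 57353) (nat_lit 0) .nil))))))) (.g (nat_lit 1) (.e (nat_lit 118990) (nat_lit 0) .nil) .nil))) 
(.lf (nat_lit 482842) (.g (nat_lit 1707) (.e (nat_lit 7591) (nat_lit 407) (.e (nat_lit 73747) (nat_lit 3) (.e (nat_lit 516138) (nat_lit 7) (.e (nat_lit 409640) (nat_lit 17) .nil)))) (.g (nat_lit 0) (.e (nat_lit 120115) (nat_lit 0) .nil) .nil)))) (.nd (nat_lit 9) 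
(.lf (nat_lit 482586) (.g (nat_lit 1660) (.e (nat_lit 7537) (nat_lit 402) (.e (nat_lit 1638) (nat_lit 114) (.e (nat_lit 385074) (nat_lit 31) (.e (nat_lit 573492) (nat_lit 15) .nil)))) (.g (nat_lit 0) (.e (nat_lit 119742) (nat_lit 0) .nil) .nil))) 
(.lf (nat_lit 483098) (.g (nat_lit 5197) (.e (nat_lit 6058) (nat_lit 327) (.e (nat_lit 8213) (nat_lit 9) (.e (nat_lit 303119) (nat_lit 3) (.e (nat_lit 204869) (nat_lit 29) (.e (nat_lit 360475) (nat_lit 8) (.e (nat_lit 557091) (nat_lit 12) (.e (nat_lit 163841) (nat_lit 0) .nil))))))) (.g (nat_lit 1) (.e (nat_lit 120830) (nat_lit 0) .nil) .nil))))) (.nd (nat_lit 8) (.nd (nat_lit 9) 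
(.lf (nat_lit 482458) (.g (nat_lit 1410) (.e (nat_lit 7936) (nat_lit 390) (.e (nat_lit 24665) (nat_lit 14) (.e (nat_lit 401448) (nat_lit 10) (.e (nat_lit 434289) (nat_lit 43) .nil)))) (.g (nat_lit 0) (.e (nat_lit 119479) (nat_lit 0) .nil) .nil))) 
(.lf (nat_lit 482970) (.g (nat_lit 1429) (.e (nat_lit 7936) (nat_lit 407) (.e (nat_lit 73746) (nat_lit 3) (.e (nat_lit 516106) (nat_lit 0) (.e (nat_lit 7936) (nat_lit 407) .nil)))) (.g (nat_lit 0) (.e (nat_lit 120305) (nat_lit 0) .nil) .nil)))) (.nd (nat_lit 9) 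
(.lf (nat_lit 482714) (.g (nat_lit 1992) (.e (nat_lit 7585) (nat_lit 406) (.e (nat_lit 65571) (nat_lit 3) (.e (nat_lit 98350) (nat_lit 24) (.e (nat_lit 409616) (nat_lit 10) .nil)))) (.g (nat_lit 0) (.e (nat_lit 119951) (nat_lit 0) .nil) .nil))) 
(.lf (nat_lit 483226) (.g (nat_lit 2107) (.e (nat_lit 6206) (nat_lit 333) (.e (nat_lit 57883) (nat_lit 270) (.e (nat_lit 174) (nat_lit 12) (.e (nat_lit 204877) (nat_lit 31) (.e (nat_lit 376842) (nat_lit 11) (.e (nat_lit 426413) (nat_lit 15) .nil)))))) (.g (nat_lit 1) (.e (nat_lit 121880) (nat_lit 0) .nil) .nil)))))) (.nd (nat_lit 7) (.nd (nat_lit 8) (.nd (nat_lit 9) 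
(.lf (nat_lit 482394) (.g (nat_lit 2071) (.e (nat_lit 7366) (nat_lit 388) (.e (nat_lit 2663) (nat_lit 167) (.e (nat_lit 196666) (nat_lit 13) (.e (nat_lit 65617) (nat_lit 10) (.e (nat_lit 344130) (nat_lit 26) .nil))))) (.g (nat_lit 0) (.e (nat_lit 119194) (nat_lit 0) .nil) .nil))) 
(.lf (nat_lit 482906) (.g (nat_lit 1961) (.e (nat_lit 7593) (nat_lit 407) (.e (nat_lit 73746) (nat_lit 3) (.e (nat_lit 516185) (nat_lit 16) (.e (nat_lit 491552) (nat_lit 9) (.e (nat_lit 336024) (nat_lit 3) .nil))))) (.g (nat_lit 0) (.e (nat_lit 120238) (nat_lit 0) .nil) .nil)))) (.nd (nat_lit 9) 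
(.lf (nat_lit 482650) (.g (nat_lit 1320) (.e (nat_lit 7936) (nat_lit 402) (.e (nat_lit 1253) (nat_lit 92) (.e (nat_lit 98372) (nat_lit 29) (.e (nat_lit 450586) (nat_lit 10) (.e (nat_lit 573471) (nat_lit 11) .nil))))) (.g (nat_lit 0) (.e (nat_lit 119812) (nat_lit 0) .nil) .nil))) 
(.lf (nat_lit 483162) (.g (nat_lit 1788) (.e (nat_lit 6203) (nat_lit 332) (.e (nat_lit 2797) (nat_lit 180) (.e (nat_lit 303117) (nat_lit 2) (.e (nat_lit 196666) (nat_lit 13) .nil)))) (.g (nat_lit 0) (.e (nat_lit 121379) (nat_lit 0) .nil) .nil))))) (.nd (nat_lit 8) (.nd (nat_lit 9) 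
(.lf (nat_lit 482522) (.g (nat_lit 2909) (.e (nat_lit 7486) (nat_lit 402) (.e (nat_lit 1239) (nat_lit 91) (.e (nat_lit 90170) (nat_lit 13) (.e (nat_lit 172113) (nat_lit 10) (.e (nat_lit 434247) (nat_lit 28) (.e (nat_lit 573456) (nat_lit 9) (.e (nat_lit 430) (nat_lit 32) (.e (nat_lit 426012) (nat_lit 0) .nil)))))))) (.g (nat_lit 1) (.e (nat_lit 119663) (nat_lit 0) .nil) .nil))) 
(.lf (nat_lit 483034) (.g (nat_lit 2413) (.e (nat_lit 7708) (nat_lit 414) (.e (nat_lit 163875) (nat_lit 3) (.e (nat_lit 204862) (nat_lit 27) (.e (nat_lit 344129) (nat_lit 26) (.e (nat_lit 557103) (nat_lit 14) .nil))))) (.g (nat_lit 0) (.e (nat_lit 120595) (nat_lit 0) .nil) .nil)))) (.nd (nat_lit 9) 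
(.lf (nat_lit 482778) (.g (nat_lit 1067) (.e (nat_lit 7589) (nat_lit 406) (.e (nat_lit 65578) (nat_lit 6) (.e (nat_lit 147495) (nat_lit 11) (.e (nat_lit 24657) (nat_lit 13) .nil)))) (.g (nat_lit 0) (.e (nat_lit 120042) (nat_lit 0) .nil) .nil))) 
(.lf (nat_lit 483290) (.g (nat_lit 4819) (.e (nat_lit 6254) (nat_lit 337) (.e (nat_lit 2725) (nat_lit 172) (.e (nat_lit 237589) (nat_lit 2) (.e (nat_lit 196666) (nat_lit 13) (.e (nat_lit 65617) (nat_lit 10) (.e (nat_lit 344133) (nat_lit 26) (.e (nat_lit 557091) (nat_lit 12) (.e (nat_lit 163847) (nat_lit 0) .nil)))))))) (.g (nat_lit 1) (.e (nat_lit 122285) (nat_lit 0) .nil) .nil))))))) 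
(.nd (nat_lit 6) (.nd (nat_lit 7) (.nd (nat_lit 8) (.nd (nat_lit 9) 
(.lf (nat_lit 482362) (.g (nat_lit 6181) (.e (nat_lit 7266) (nat_lit 384) (.e (nat_lit 57430) (nat_lit 16) (.e (nat_lit 368676) (nat_lit 21) (.e (nat_lit 516166) (nat_lit 12) (.e (nat_lit 450588) (nat_lit 10) (.e (nat_lit 573475) (nat_lit 12) (.e (nat_lit 57351) (nat_lit 0) .nil))))))) (.g (nat_lit 1) (.e (nat_lit 119024) (nat_lit 0) .nil) .nil))) 
(.lf (nat_lit 482874) (.g (nat_lit 2296) (.e (nat_lit 7591) (nat_lit 407) (.e (nat_lit 73775) (nat_lit 26) (.e (nat_lit 778465) (nat_lit 11) (.e (nat_lit 24623) (nat_lit 9) (.e (nat_lit 336400) (nat_lit 27) (.e (nat_lit 426011) (nat_lit 0) .nil)))))) (.g (nat_lit 1) (.e (nat_lit 120147) (nat_lit 0) .nil) .nil)))) (.nd (nat_lit 9) 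
(.lf (nat_lit 482618) (.g (nat_lit 1274) (.e (nat_lit 7557) (nat_lit 402) (.e (nat_lit 1235) (nat_lit 91) (.e (nat_lit 90176) (nat_lit 15) (.e (nat_lit 188439) (nat_lit 20) (.e (nat_lit 3271) (nat_lit 199) .nil))))) (.g (nat_lit 0) (.e (nat_lit 119779) (nat_lit 0) .nil) .nil))) 
(.lf (nat_lit 483130) (.g (nat_lit 2609) (.e (nat_lit 6113) (nat_lit 332) (.e (nat_lit 1361) (nat_lit 102) (.e (nat_lit 286735) (nat_lit 3) (.e (nat_lit 98367) (nat_lit 27) (.e (nat_lit 442112) (nat_lit 8) (.e (nat_lit 2684) (nat_lit 168) (.e (nat_lit 204819) (nat_lit 17) .nil))))))) (.g (nat_lit 1) (.e (nat_lit 121235) (nat_lit 0) .nil) .nil))))) (.nd (nat_lit 8) (.nd (nat_lit 9) 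
(.lf (nat_lit 482490) (.g (nat_lit 1625) (.e (nat_lit 7936) (nat_lit 392) (.e (nat_lit 172150) (nat_lit 27) (.e (nat_lit 335894) (nat_lit 0) (.e (nat_lit 6722) (nat_lit 362) (.e (nat_lit 180225) (nat_lit 0) .nil))))) (.g (nat_lit 0) (.e (nat_lit 119567) (nat_lit 0) .nil) .nil))) 
(.lf (nat_lit 483002) (.g (nat_lit 1352) (.e (nat_lit 7607) (nat_lit 410) (.e (nat_lit 2630) (nat_lit 164) (.e (nat_lit 172113) (nat_lit 10) (.e (nat_lit 434241) (nat_lit 27) (.e (nat_lit 565252) (nat_lit 0) .nil))))) (.g (nat_lit 0) (.e (nat_lit 120357) (nat_lit 0) .nil) .nil)))) (.nd (nat_lit 9) 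
(.lf (nat_lit 482746) (.g (nat_lit 1162) (.e (nat_lit 7587) (nat_lit 406) (.e (nat_lit 65580) (nat_lit 6) (.e (nat_lit 147494) (nat_lit 11) (.e (nat_lit 24657) (nat_lit 13) (.e (nat_lit 401152) (nat_lit 17) .nil))))) (.g (nat_lit 1) (.e (nat_lit 119993) (nat_lit 0) .nil) .nil))) 
(.lf (nat_lit 483258) (.g (nat_lit 384) (.e (nat_lit 6252) (nat_lit 337) (.e (nat_lit 2651) (nat_lit 166) (.e (nat_lit 188439) (nat_lit 20) .nil))) (.g (nat_lit 0) (.e (nat_lit 122115) (nat_lit 0) .nil) .nil)))))) (.nd (nat_lit 7) (.nd (nat_lit 8) (.nd (nat_lit 9) 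
(.lf (nat_lit 482426) (.g (nat_lit 4261) (.e (nat_lit 7377) (nat_lit 390) (.e (nat_lit 24665) (nat_lit 14) (.e (nat_lit 401444) (nat_lit 9) (.e (nat_lit 426163) (nat_lit 6) (.e (nat_lit 253991) (nat_lit 11) (.e (nat_lit 16388) (nat_lit 0) .nil)))))) (.g (nat_lit 1) (.e (nat_lit 119383) (nat_lit 0) .nil) .nil))) 
(.lf (nat_lit 482938) (.g (nat_lit 1985) (.e (nat_lit 7593) (nat_lit 407) (.e (nat_lit 73775) (nat_lit 26) (.e (nat_lit 778465) (nat_lit 11) (.e (nat_lit 24623) (nat_lit 9) (.e (nat_lit 336416) (nat_lit 27) .nil))))) (.g (nat_lit 0) (.e (nat_lit 120270) (nat_lit 0) .nil) .nil)))) (.nd (nat_lit 9) 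
(.lf (nat_lit 482682) (.g (nat_lit 2028) (.e (nat_lit 7581) (nat_lit 405) (.e (nat_lit 57464) (nat_lit 23) (.e (nat_lit 516151) (nat_lit 9) (.e (nat_lit 426286) (nat_lit 10) (.e (nat_lit 434245) (nat_lit 28) (.e (nat_lit 573458) (nat_lit 9) (.e (nat_lit 426) (nat_lit 32) (.e (nat_lit 426009) (nat_lit 0) .nil)))))))) (.g (nat_lit 1) (.e (nat_lit 119905) (nat_lit 0) .nil) .nil))) 
(.lf (nat_lit 483194) (.g (nat_lit 1978) (.e (nat_lit 6203) (nat_lit 332) (.e (nat_lit 2798) (nat_lit 180) (.e (nat_lit 303133) (nat_lit 9) (.e (nat_lit 426499) (nat_lit 27) (.e (nat_lit 336100) (nat_lit 9) .nil))))) (.g (nat_lit 0) (.e (nat_lit 121482) (nat_lit 0) .nil) .nil))))) (.nd (nat_lit 8) (.nd (nat_lit 9) 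
(.lf (nat_lit 482554) (.g (nat_lit 3644) (.e (nat_lit 7501) (nat_lit 402) (.e (nat_lit 1243) (nat_lit 92) (.e (nat_lit 98373) (nat_lit 29) (.e (nat_lit 450588) (nat_lit 10) (.e (nat_lit 573471) (nat_lit 11) .nil))))) (.g (nat_lit 0) (.e (nat_lit 119700) (nat_lit 0) .nil) .nil))) 
(.lf (nat_lit 483066) (.g (nat_lit 3630) (.e (nat_lit 7710) (nat_lit 414) (.e (nat_lit 163923) (nat_lit 15) (.e (nat_lit 450587) (nat_lit 10) (.e (nat_lit 573501) (nat_lit 18) .nil)))) (.g (nat_lit 0) (.e (nat_lit 120732) (nat_lit 0) .nil) .nil)))) (.nd (nat_lit 9) 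
(.lf (nat_lit 482810) (.g (nat_lit 2508) (.e (nat_lit 7590) (nat_lit 407) (.e (nat_lit 73747) (nat_lit 3) (.e (nat_lit 516141) (nat_lit 8) (.e (nat_lit 417827) (nat_lit 17) (.e (nat_lit 294928) (nat_lit 2) (.e (nat_lit 90133) (nat_lit 9) (.e (nat_lit 2397) (nat_lit 157) .nil))))))) (.g (nat_lit 1) (.e (nat_lit 120081) (nat_lit 0) .nil) .nil))) 
(.lf (nat_lit 483322) (.g (nat_lit 3762) (.e (nat_lit 6255) (nat_lit 337) (.e (nat_lit 2643) (nat_lit 165) (.e (nat_lit 180243) (nat_lit 5) (.e (nat_lit 532549) (nat_lit 12) (.e (nat_lit 360473) (nat_lit 8) (.e (nat_lit 557094) (nat_lit 12) (.e (nat_lit 163847) (nat_lit 0) .nil))))))) (.g (nat_lit 1) (.e (nat_lit 122451) (nat_lit 0) .nil) .nil)))))))))) 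
(.nd (nat_lit 3) (.nd (nat_lit 4) (.nd (nat_lit 5) (.nd (nat_lit 6) (.nd (nat_lit 7) 
(.nd (nat_lit 8) (.nd (nat_lit 9) 
(.lf (nat_lit 482310) (.g (nat_lit 4324) (.e (nat_lit 7265) (nat_lit 384) (.e (nat_lit 57412) (nat_lit 12) (.e (nat_lit 336001) (nat_lit 2) (.e (nat_lit 90170) (nat_lit 13) (.e (nat_lit 172106) (nat_lit 10) (.e (nat_lit 434244) (nat_lit 28) (.e (nat_lit 573474) (nat_lit 12) (.e (nat_lit 57348) (nat_lit 0) .nil)))))))) (.g (nat_lit 1) (.e (nat_lit 118970) (nat_lit 0) .nil) .nil))) 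
(.lf (nat_lit 482822) (.g (nat_lit 1256) (.e (nat_lit 7590) (nat_lit 407) (.e (nat_lit 73755) (nat_lit 8) (.e (nat_lit 557086) (nat_lit 11) (.e (nat_lit 24627) (nat_lit 9) .nil)))) (.g (nat_lit 0) (.e (nat_lit 120093) (nat_lit 0) .nil) .nil)))) (.nd (nat_lit 9) 
(.lf (nat_lit 482566) (.g (nat_lit 2164) (.e (nat_lit 7513) (nat_lit 402) (.e (nat_lit 1234) (nat_lit 91) (.e (nat_lit 90170) (nat_lit 13) (.e (nat_lit 172113) (nat_lit 10) (.e (nat_lit 434247) (nat_lit 28) .nil))))) (.g (nat_lit 0) (.e (nat_lit 119719) (nat_lit 0) .nil) .nil))) 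
(.lf (nat_lit 483078) (.g (nat_lit 4653) (.e (nat_lit 7695) (nat_lit 412) (.e (nat_lit 57368) (nat_lit 1) (.e (nat_lit 57854) (nat_lit 252) (.e (nat_lit 57406) (nat_lit 12) (.e (nat_lit 336316) (nat_lit 17) (.e (nat_lit 196666) (nat_lit 13) (.e (nat_lit 65617) (nat_lit 10) (.e (nat_lit 344096) (nat_lit 18) .nil)))))))) (.g (nat_lit 1) (.e (nat_lit 120789) (nat_lit 0) .nil) .nil))))) 
(.nd (nat_lit 8) (.nd (nat_lit 9) 
(.lf (nat_lit 482438) (.g (nat_lit 3161) (.e (nat_lit 7378) (nat_lit 390) (.e (nat_lit 24665) (nat_lit 14) (.e (nat_lit 401448) (nat_lit 10) (.e (nat_lit 434289) (nat_lit 43) .nil)))) (.g (nat_lit 0) (.e (nat_lit 119426) (nat_lit 0) .nil) .nil))) 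
(.lf (nat_lit 482950) (.g (nat_lit 2280) (.e (nat_lit 7593) (nat_lit 407) (.e (nat_lit 73775) (nat_lit 26) (.e (nat_lit 778465) (nat_lit 11) (.e (nat_lit 24655) (nat_lit 13) (.e (nat_lit 393231) (nat_lit 17) .nil))))) (.g (nat_lit 1) (.e (nat_lit 120283) (nat_lit 0) .nil) .nil)))) (.nd (nat_lit 9) 
(.lf (nat_lit 482694) (.g (nat_lit 3438) (.e (nat_lit 7581) (nat_lit 405) (.e (nat_lit 57464) (nat_lit 23) (.e (nat_lit 516165) (nat_lit 12) (.e (nat_lit 450588) (nat_lit 10) (.e (nat_lit 573452) (nat_lit 9) (.e (nat_lit 430) (nat_lit 32) (.e (nat_lit 426012) (nat_lit 0) .nil))))))) (.g (nat_lit 1) (.e (nat_lit 119917) (nat_lit 0) .nil) .nil))) 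
(.lf (nat_lit 483206) (.g (nat_lit 1563) (.e (nat_lit 6203) (nat_lit 332) (.e (nat_lit 2798) (nat_lit 180) (.e (nat_lit 303145) (nat_lit 13) (.e (nat_lit 483377) (nat_lit 22) .nil)))) (.g (nat_lit 0) (.e (nat_lit 121501) (nat_lit 0) .nil) .nil)))))) (.nd (nat_lit 7) (.nd (nat_lit 8) (.nd (nat_lit 9) 
(.lf (nat_lit 482374) (.g (nat_lit 3119) (.e (nat_lit 7270) (nat_lit 385) (.e (nat_lit 122906) (nat_lit 12) (.e (nat_lit 336008) (nat_lit 2) (.e (nat_lit 90170) (nat_lit 13) (.e (nat_lit 172113) (nat_lit 10) (.e (nat_lit 434245) (nat_lit 28) (.e (nat_lit 573473) (nat_lit 12) (.e (nat_lit 57354) (nat_lit 0) .nil)))))))) (.g (nat_lit 1) (.e (nat_lit 119036) (nat_lit 0) .nil) .nil))) 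
(.lf (nat_lit 482886) (.g (nat_lit 1721) (.e (nat_lit 7592) (nat_lit 407) (.e (nat_lit 73775) (nat_lit 26) (.e (nat_lit 778466) (nat_lit 11) (.e (nat_lit 24632) (nat_lit 9) (.e (nat_lit 336410) (nat_lit 27) (.e (nat_lit 425989) (nat_lit 0) .nil)))))) (.g (nat_lit 1) (.e (nat_lit 120213) (nat_lit 0) .nil) .nil)))) (.nd (nat_lit 9) 
(.lf (nat_lit 482630) (.g (nat_lit 2105) (.e (nat_lit 7562) (nat_lit 402) (.e (nat_lit 1235) (nat_lit 91) (.e (nat_lit 90170) (nat_lit 13) (.e (nat_lit 172120) (nat_lit 12) (.e (nat_lit 475185) (nat_lit 29) .nil))))) (.g (nat_lit 0) (.e (nat_lit 119791) (nat_lit 0) .nil) .nil))) 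
(.lf (nat_lit 483142) (.g (nat_lit 2215) (.e (nat_lit 6202) (nat_lit 332) (.e (nat_lit 2797) (nat_lit 180) (.e (nat_lit 303117) (nat_lit 2) (.e (nat_lit 196668) (nat_lit 14) (.e (nat_lit 73782) (nat_lit 32) (.e (nat_lit 2664) (nat_lit 167) (.e (nat_lit 196628) (nat_lit 9) (.e (nat_lit 970) (nat_lit 81) .nil)))))))) (.g (nat_lit 1) (.e (nat_lit 121300) (nat_lit 0) .nil) .nil))))) 
(.nd (nat_lit 8) (.nd (nat_lit 9) 
(.lf (nat_lit 482502) (.g (nat_lit 2226) (.e (nat_lit 7936) (nat_lit 393) (.e (nat_lit 180243) (nat_lit 5) (.e (nat_lit 532523) (nat_lit 7) (.e (nat_lit 319532) (nat_lit 16) (.e (nat_lit 286735) (nat_lit 3) .nil))))) (.g (nat_lit 0) (.e (nat_lit 119594) (nat_lit 0) .nil) .nil))) 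
(.lf (nat_lit 483014) (.g (nat_lit 2180) (.e (nat_lit 7685) (nat_lit 410) (.e (nat_lit 2649) (nat_lit 166) (.e (nat_lit 188434) (nat_lit 20) (.e (nat_lit 3289) (nat_lit 201) (.e (nat_lit 565252) (nat_lit 0) (.e (nat_lit 1595) (nat_lit 111) (.e (nat_lit 368384) (nat_lit 0) .nil))))))) (.g (nat_lit 1) (.e (nat_lit 120515) (nat_lit 0) .nil) .nil)))) (.nd (nat_lit 9) 
(.lf (nat_lit 482758) (.g (nat_lit 3297) (.e (nat_lit 7587) (nat_lit 406) (.e (nat_lit 65653) (nat_lit 27) (.e (nat_lit 426341) (nat_lit 14) (.e (nat_lit 491571) (nat_lit 13) (.e (nat_lit 393232) (nat_lit 17) .nil))))) (.g (nat_lit 1) (.e (nat_lit 120006) (nat_lit 0) .nil) .nil))) 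
(.lf (nat_lit 483270) (.g (nat_lit 5109) (.e (nat_lit 6254) (nat_lit 337) (.e (nat_lit 2630) (nat_lit 164) (.e (nat_lit 172066) (nat_lit 3) (.e (nat_lit 204869) (nat_lit 29) (.e (nat_lit 360475) (nat_lit 8) (.e (nat_lit 557091) (nat_lit 12) (.e (nat_lit 163844) (nat_lit 0) .nil))))))) (.g (nat_lit 1) (.e (nat_lit 122160) (nat_lit 0) .nil) .nil))))))) 
(.nd (nat_lit 6) (.nd (nat_lit 7) (.nd (nat_lit 8) (.nd (nat_lit 9) 
(.lf (nat_lit 482342) (.g (nat_lit 759) (.e (nat_lit 7266) (nat_lit 384) (.e (nat_lit 57406) (nat_lit 12) (.e (nat_lit 336316) (nat_lit 17) .nil))) (.g (nat_lit 0) (.e (nat_lit 119004) (nat_lit 0) .nil) .nil))) 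
(.lf (nat_lit 482854) (.g (nat_lit 2016) (.e (nat_lit 7591) (nat_lit 407) (.e (nat_lit 73748) (nat_lit 3) (.e (nat_lit 516139) (nat_lit 7) (.e (nat_lit 409640) (nat_lit 17) (.e (nat_lit 294931) (nat_lit 3) (.e (nat_lit 98319) (nat_lit 17) .nil)))))) (.g (nat_lit 1) (.e (nat_lit 120127) (nat_lit 0) .nil) .nil)))) (.nd (nat_lit 9) 
(.lf (nat_lit 482598) (.g (nat_lit 1093) (.e (nat_lit 7554) (nat_lit 402) (.e (nat_lit 1428) (nat_lit 108) (.e (nat_lit 336421) (nat_lit 28) (.e (nat_lit 434180) (nat_lit 0) .nil)))) (.g (nat_lit 0) (.e (nat_lit 119757) (nat_lit 0) .nil) .nil))) 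
(.lf (nat_lit 483110) (.g (nat_lit 3155) (.e (nat_lit 6112) (nat_lit 332) (.e (nat_lit 2507) (nat_lit 157) (.e (nat_lit 5259) (nat_lit 298) (.e (nat_lit 496) (nat_lit 39) (.e (nat_lit 483364) (nat_lit 18) (.e (nat_lit 57854) (nat_lit 252) (.e (nat_lit 57378) (nat_lit 3) (.e (nat_lit 98309) (nat_lit 0) .nil)))))))) (.g (nat_lit 1) (.e (nat_lit 121129) (nat_lit 0) .nil) .nil))))) 
(.nd (nat_lit 8) (.nd (nat_lit 9) 
(.lf (nat_lit 482470) (.g (nat_lit 2632) (.e (nat_lit 7386) (nat_lit 392) (.e (nat_lit 172067) (nat_lit 3) (.e (nat_lit 204846) (nat_lit 24) (.e (nat_lit 319534) (nat_lit 16) (.e (nat_lit 286735) (nat_lit 3) .nil))))) (.g (nat_lit 0) (.e (nat_lit 119535) (nat_lit 0) .nil) .nil))) 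
(.lf (nat_lit 482982) (.g (nat_lit 2246) (.e (nat_lit 7936) (nat_lit 407) (.e (nat_lit 73754) (nat_lit 8) (.e (nat_lit 557119) (nat_lit 18) (.e (nat_lit 2798) (nat_lit 180) (.e (nat_lit 303133) (nat_lit 9) .nil))))) (.g (nat_lit 0) (.e (nat_lit 120321) (nat_lit 0) .nil) .nil)))) (.nd (nat_lit 9) 
(.lf (nat_lit 482726) (.g (nat_lit 4531) (.e (nat_lit 7586) (nat_lit 406) (.e (nat_lit 65571) (nat_lit 3) (.e (nat_lit 98350) (nat_lit 24) (.e (nat_lit 409616) (nat_lit 10) (.e (nat_lit 5355) (nat_lit 298) (.e (nat_lit 1235) (nat_lit 91) (.e (nat_lit 90133) (nat_lit 9) (.e (nat_lit 2397) (nat_lit 157) .nil)))))))) (.g (nat_lit 1) (.e (nat_lit 119963) (nat_lit 0) .nil) .nil))) 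
(.lf (nat_lit 483238) (.g (nat_lit 1556) (.e (nat_lit 6250) (nat_lit 337) (.e (nat_lit 2725) (nat_lit 172) (.e (nat_lit 237594) (nat_lit 3) (.e (nat_lit 204868) (nat_lit 29) (.e (nat_lit 360473) (nat_lit 8) .nil))))) (.g (nat_lit 0) (.e (nat_lit 121963) (nat_lit 0) .nil) .nil)))))) (.nd (nat_lit 7) (.nd (nat_lit 8) (.nd (nat_lit 9) 
(.lf (nat_lit 482406) (.g (nat_lit 1335) (.e (nat_lit 7936) (nat_lit 388) (.e (nat_lit 3062) (nat_lit 190) (.e (nat_lit 475179) (nat_lit 24) (.e (nat_lit 516117) (nat_lit 1) .nil)))) (.g (nat_lit 0) (.e (nat_lit 119301) (nat_lit 0) .nil) .nil))) 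
(.lf (nat_lit 482918) (.g (nat_lit 2248) (.e (nat_lit 7593) (nat_lit 407) (.e (nat_lit 73753) (nat_lit 8) (.e (nat_lit 557087) (nat_lit 11) (.e (nat_lit 24627) (nat_lit 9) (.e (nat_lit 336019) (nat_lit 3) .nil))))) (.g (nat_lit 0) (.e (nat_lit 120250) (nat_lit 0) .nil) .nil)))) (.nd (nat_lit 9) 
(.lf (nat_lit 482662) (.g (nat_lit 2689) (.e (nat_lit 7936) (nat_lit 402) (.e (nat_lit 1630) (nat_lit 114) (.e (nat_lit 385074) (nat_lit 31) (.e (nat_lit 573491) (nat_lit 15) (.e (nat_lit 81954) (nat_lit 23) .nil))))) (.g (nat_lit 0) (.e (nat_lit 119826) (nat_lit 0) .nil) .nil))) 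
(.lf (nat_lit 483174) (.g (nat_lit 1340) (.e (nat_lit 6203) (nat_lit 332) (.e (nat_lit 2798) (nat_lit 180) (.e (nat_lit 303117) (nat_lit 2) (.e (nat_lit 196670) (nat_lit 14) .nil)))) (.g (nat_lit 0) (.e (nat_lit 121441) (nat_lit 0) .nil) .nil))))) (.nd (nat_lit 8) (.nd (nat_lit 9) 
(.lf (nat_lit 482534) (.g (nat_lit 2066) (.e (nat_lit 7489) (nat_lit 402) (.e (nat_lit 1239) (nat_lit 91) (.e (nat_lit 90170) (nat_lit 13) (.e (nat_lit 172115) (nat_lit 10) .nil)))) (.g (nat_lit 0) (.e (nat_lit 119675) (nat_lit 0) .nil) .nil))) 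
(.lf (nat_lit 483046) (.g (nat_lit 825) (.e (nat_lit 7710) (nat_lit 414) (.e (nat_lit 163874) (nat_lit 3) (.e (nat_lit 204862) (nat_lit 27) .nil))) (.g (nat_lit 0) (.e (nat_lit 120684) (nat_lit 0) .nil) .nil)))) (.nd (nat_lit 9) 
(.lf (nat_lit 482790) (.g (nat_lit 2709) (.e (nat_lit 7589) (nat_lit 406) (.e (nat_lit 65653) (nat_lit 27) (.e (nat_lit 426343) (nat_lit 14) (.e (nat_lit 491570) (nat_lit 13) (.e (nat_lit 393231) (nat_lit 17) .nil))))) (.g (nat_lit 1) (.e (nat_lit 120056) (nat_lit 0) .nil) .nil))) 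
(.lf (nat_lit 483302) (.g (nat_lit 3408) (.e (nat_lit 6255) (nat_lit 337) (.e (nat_lit 2630) (nat_lit 164) (.e (nat_lit 172066) (nat_lit 3) (.e (nat_lit 204869) (nat_lit 29) (.e (nat_lit 360474) (nat_lit 8) (.e (nat_lit 557093) (nat_lit 12) (.e (nat_lit 163849) (nat_lit 0) .nil))))))) (.g (nat_lit 1) (.e (nat_lit 122307) (nat_lit 0) .nil) .nil)))))))) 
(.nd (nat_lit 5) (.nd (nat_lit 6) (.nd (nat_lit 7) (.nd (nat_lit 8) (.nd (nat_lit 9) 
(.lf (nat_lit 482326) (.g (nat_lit 5858) (.e (nat_lit 7265) (nat_lit 384) (.e (nat_lit 57430) (nat_lit 16) (.e (nat_lit 368676) (nat_lit 21) (.e (nat_lit 516166) (nat_lit 12) (.e (nat_lit 450588) (nat_lit 10) (.e (nat_lit 573473) (nat_lit 12) (.e (nat_lit 57353) (nat_lit 0) .nil))))))) (.g (nat_lit 1) (.e (nat_lit 118986) (nat_lit 0) .nil) .nil))) 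
(.lf (nat_lit 482838) (.g (nat_lit 2487) (.e (nat_lit 7591) (nat_lit 407) (.e (nat_lit 73729) (nat_lit 0) (.e (nat_lit 7265) (nat_lit 384) (.e (nat_lit 57406) (nat_lit 12) (.e (nat_lit 336146) (nat_lit 9) .nil))))) (.g (nat_lit 0) (.e (nat_lit 120109) (nat_lit 0) .nil) .nil)))) (.nd (nat_lit 9) 
(.lf (nat_lit 482582) (.g (nat_lit 3309) (.e (nat_lit 7536) (nat_lit 402) (.e (nat_lit 1246) (nat_lit 92) (.e (nat_lit 98373) (nat_lit 29) (.e (nat_lit 450588) (nat_lit 10) (.e (nat_lit 573470) (nat_lit 11) .nil))))) (.g (nat_lit 0) (.e (nat_lit 119738) (nat_lit 0) .nil) .nil))) 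
(.lf (nat_lit 483094) (.g (nat_lit 1107) (.e (nat_lit 7936) (nat_lit 412) (.e (nat_lit 57354) (nat_lit 0) (.e (nat_lit 2281) (nat_lit 150) (.e (nat_lit 770072) (nat_lit 8) .nil)))) (.g (nat_lit 0) (.e (nat_lit 120805) (nat_lit 0) .nil) .nil))))) (.nd (nat_lit 8) (.nd (nat_lit 9) 
(.lf (nat_lit 482454) (.g (nat_lit 1781) (.e (nat_lit 7936) (nat_lit 390) (.e (nat_lit 24664) (nat_lit 14) (.e (nat_lit 401448) (nat_lit 10) (.e (nat_lit 434289) (nat_lit 43) .nil)))) (.g (nat_lit 0) (.e (nat_lit 119463) (nat_lit 0) .nil) .nil))) 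
(.lf (nat_lit 482966) (.g (nat_lit 2403) (.e (nat_lit 7593) (nat_lit 407) (.e (nat_lit 73775) (nat_lit 26) (.e (nat_lit 778466) (nat_lit 11) (.e (nat_lit 24656) (nat_lit 13) (.e (nat_lit 393232) (nat_lit 17) .nil))))) (.g (nat_lit 1) (.e (nat_lit 120299) (nat_lit 0) .nil) .nil)))) (.nd (nat_lit 9) 
(.lf (nat_lit 482710) (.g (nat_lit 1346) (.e (nat_lit 7583) (nat_lit 405) (.e (nat_lit 57466) (nat_lit 23) (.e (nat_lit 516166) (nat_lit 12) (.e (nat_lit 450587) (nat_lit 10) .nil)))) (.g (nat_lit 0) (.e (nat_lit 119939) (nat_lit 0) .nil) .nil))) 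
(.lf (nat_lit 483222) (.g (nat_lit 731) (.e (nat_lit 6242) (nat_lit 336) (.e (nat_lit 229694) (nat_lit 250) (.e (nat_lit 172143) (nat_lit 25) (.e (nat_lit 319493) (nat_lit 0) (.e (nat_lit 5771) (nat_lit 316) (.e (nat_lit 172130) (nat_lit 15) .nil)))))) (.g (nat_lit 1) (.e (nat_lit 121802) (nat_lit 0) .nil) .nil)))))) (.nd (nat_lit 7) (.nd (nat_lit 8) (.nd (nat_lit 9) 
(.lf (nat_lit 482390) (.g (nat_lit 3064) (.e (nat_lit 7337) (nat_lit 388) (.e (nat_lit 3067) (nat_lit 190) (.e (nat_lit 475179) (nat_lit 24) (.e (nat_lit 516120) (nat_lit 1) (.e (nat_lit 164329) (nat_lit 230) .nil))))) (.g (nat_lit 0) (.e (nat_lit 119159) (nat_lit 0) .nil) .nil))) 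
(.lf (nat_lit 482902) (.g (nat_lit 1969) (.e (nat_lit 7593) (nat_lit 407) (.e (nat_lit 73746) (nat_lit 3) (.e (nat_lit 516185) (nat_lit 16) (.e (nat_lit 491552) (nat_lit 9) (.e (nat_lit 335886) (nat_lit 0) .nil))))) (.g (nat_lit 0) (.e (nat_lit 120234) (nat_lit 0) .nil) .nil)))) (.nd (nat_lit 9) 
(.lf (nat_lit 482646) (.g (nat_lit 3305) (.e (nat_lit 7545) (nat_lit 402) (.e (nat_lit 1237) (nat_lit 91) (.e (nat_lit 90170) (nat_lit 13) (.e (nat_lit 172113) (nat_lit 10) (.e (nat_lit 434247) (nat_lit 28) .nil))))) (.g (nat_lit 0) (.e (nat_lit 119808) (nat_lit 0) .nil) .nil))) 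
(.lf (nat_lit 483158) (.g (nat_lit 796) (.e (nat_lit 6202) (nat_lit 332) (.e (nat_lit 2798) (nat_lit 180) (.e (nat_lit 303133) (nat_lit 9) (.e (nat_lit 426499) (nat_lit 27) .nil)))) (.g (nat_lit 0) (.e (nat_lit 121329) (nat_lit 0) .nil) .nil))))) (.nd (nat_lit 8) (.nd (nat_lit 9) 
(.lf (nat_lit 482518) (.g (nat_lit 1902) (.e (nat_lit 7486) (nat_lit 402) (.e (nat_lit 1239) (nat_lit 91) (.e (nat_lit 90170) (nat_lit 13) (.e (nat_lit 172113) (nat_lit 10) .nil)))) (.g (nat_lit 0) (.e (nat_lit 119659) (nat_lit 0) .nil) .nil))) 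
(.lf (nat_lit 483030) (.g (nat_lit 1878) (.e (nat_lit 7660) (nat_lit 410) (.e (nat_lit 1170) (nat_lit 87) (.e (nat_lit 57572) (nat_lit 54) (.e (nat_lit 770072) (nat_lit 8) (.e (nat_lit 65586) (nat_lit 7) .nil))))) (.g (nat_lit 0) (.e (nat_lit 120539) (nat_lit 0) .nil) .nil)))) (.nd (nat_lit 9) 
(.lf (nat_lit 482774) (.g (nat_lit 2264) (.e (nat_lit 7588) (nat_lit 406) (.e (nat_lit 65653) (nat_lit 27) (.e (nat_lit 426307) (nat_lit 12) (.e (nat_lit 475210) (nat_lit 41) (.e (nat_lit 712745) (nat_lit 27) (.e (nat_lit 425984) (nat_lit 0) .nil)))))) (.g (nat_lit 1) (.e (nat_lit 120036) (nat_lit 0) .nil) .nil))) 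
(.lf (nat_lit 483286) (.g (nat_lit 4381) (.e (nat_lit 6254) (nat_lit 337) (.e (nat_lit 2725) (nat_lit 172) (.e (nat_lit 237589) (nat_lit 2) (.e (nat_lit 196666) (nat_lit 13) (.e (nat_lit 65617) (nat_lit 10) (.e (nat_lit 344130) (nat_lit 26) (.e (nat_lit 557089) (nat_lit 12) (.e (nat_lit 163849) (nat_lit 0) .nil)))))))) (.g (nat_lit 1) (.e (nat_lit 122281) (nat_lit 0) .nil) .nil))))))) 
(.nd (nat_lit 6) (.nd (nat_lit 7) (.nd (nat_lit 8) (.nd (nat_lit 9) 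
(.lf (nat_lit 482358) (.g (nat_lit 5025) (.e (nat_lit 7266) (nat_lit 384) (.e (nat_lit 57430) (nat_lit 16) (.e (nat_lit 368676) (nat_lit 21) (.e (nat_lit 516166) (nat_lit 12) (.e (nat_lit 450587) (nat_lit 10) (.e (nat_lit 573478) (nat_lit 12) (.e (nat_lit 57353) (nat_lit 0) .nil))))))) (.g (nat_lit 1) (.e (nat_lit 119020) (nat_lit 0) .nil) .nil))) 
(.lf (nat_lit 482870) (.g (nat_lit 2194) (.e (nat_lit 7591) (nat_lit 407) (.e (nat_lit 73775) (nat_lit 26) (.e (nat_lit 778465) (nat_lit 11) (.e (nat_lit 24623) (nat_lit 9) (.e (nat_lit 336384) (nat_lit 27) .nil))))) (.g (nat_lit 0) (.e (nat_lit 120143) (nat_lit 0) .nil) .nil)))) (.nd (nat_lit 9) 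
(.lf (nat_lit 482614) (.g (nat_lit 2613) (.e (nat_lit 7556) (nat_lit 402) (.e (nat_lit 1636) (nat_lit 114) (.e (nat_lit 385074) (nat_lit 31) (.e (nat_lit 573482) (nat_lit 13) (.e (nat_lit 65619) (nat_lit 10) .nil))))) (.g (nat_lit 0) (.e (nat_lit 119775) (nat_lit 0) .nil) .nil))) 
(.lf (nat_lit 483126) (.g (nat_lit 4401) (.e (nat_lit 6113) (nat_lit 332) (.e (nat_lit 1374) (nat_lit 104) (.e (nat_lit 303119) (nat_lit 3) (.e (nat_lit 204846) (nat_lit 24) (.e (nat_lit 319538) (nat_lit 19) (.e (nat_lit 311314) (nat_lit 3) (.e (nat_lit 212736) (nat_lit 17) .nil))))))) (.g (nat_lit 1) (.e (nat_lit 121217) (nat_lit 0) .nil) .nil))))) (.nd (nat_lit 8) (.nd (nat_lit 9) 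
(.lf (nat_lit 482486) (.g (nat_lit 1491) (.e (nat_lit 7936) (nat_lit 392) (.e (nat_lit 172067) (nat_lit 3) (.e (nat_lit 204846) (nat_lit 24) (.e (nat_lit 319534) (nat_lit 16) .nil)))) (.g (nat_lit 0) (.e (nat_lit 119556) (nat_lit 0) .nil) .nil))) 
(.lf (nat_lit 482998) (.g (nat_lit 1702) (.e (nat_lit 7607) (nat_lit 410) (.e (nat_lit 2630) (nat_lit 164) (.e (nat_lit 172106) (nat_lit 10) (.e (nat_lit 434241) (nat_lit 27) (.e (nat_lit 565252) (nat_lit 0) .nil))))) (.g (nat_lit 0) (.e (nat_lit 120351) (nat_lit 0) .nil) .nil)))) (.nd (nat_lit 9) 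
(.lf (nat_lit 482742) (.g (nat_lit 1944) (.e (nat_lit 7587) (nat_lit 406) (.e (nat_lit 65580) (nat_lit 6) (.e (nat_lit 147492) (nat_lit 11) (.e (nat_lit 24657) (nat_lit 13) (.e (nat_lit 393231) (nat_lit 17) .nil))))) (.g (nat_lit 1) (.e (nat_lit 119989) (nat_lit 0) .nil) .nil))) 
(.lf (nat_lit 483254) (.g (nat_lit 4932) (.e (nat_lit 6252) (nat_lit 337) (.e (nat_lit 2630) (nat_lit 164) (.e (nat_lit 172066) (nat_lit 3) (.e (nat_lit 204869) (nat_lit 29) (.e (nat_lit 360475) (nat_lit 8) (.e (nat_lit 557091) (nat_lit 12) (.e (nat_lit 163847) (nat_lit 0) .nil))))))) (.g (nat_lit 1) (.e (nat_lit 121996) (nat_lit 0) .nil) .nil)))))) 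
(.nd (nat_lit 7) (.nd (nat_lit 8) (.nd (nat_lit 9) 
(.lf (nat_lit 482422) (.g (nat_lit 2054) (.e (nat_lit 7377) (nat_lit 390) (.e (nat_lit 24664) (nat_lit 14) (.e (nat_lit 401448) (nat_lit 10) (.e (nat_lit 434291) (nat_lit 44) (.e (nat_lit 704737) (nat_lit 11) .nil))))) (.g (nat_lit 0) (.e (nat_lit 119379) (nat_lit 0) .nil) .nil))) 
(.lf (nat_lit 482934) (.g (nat_lit 1985) (.e (nat_lit 7593) (nat_lit 407) (.e (nat_lit 73775) (nat_lit 26) (.e (nat_lit 778465) (nat_lit 11) (.e (nat_lit 24623) (nat_lit 9) (.e (nat_lit 336384) (nat_lit 27) .nil))))) (.g (nat_lit 0) (.e (nat_lit 120266) (nat_lit 0) .nil) .nil)))) (.nd (nat_lit 9) 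
(.lf (nat_lit 482678) (.g (nat_lit 1231) (.e (nat_lit 7936) (nat_lit 404) (.e (nat_lit 16448) (nat_lit 10) (.e (nat_lit 434229) (nat_lit 22) (.e (nat_lit 524340) (nat_lit 28) .nil)))) (.g (nat_lit 0) (.e (nat_lit 119887) (nat_lit 0) .nil) .nil))) 
(.lf (nat_lit 483190) (.g (nat_lit 2489) (.e (nat_lit 6203) (nat_lit 332) (.e (nat_lit 2798) (nat_lit 180) (.e (nat_lit 303119) (nat_lit 3) (.e (nat_lit 204863) (nat_lit 27) (.e (nat_lit 352000) (nat_lit 6) .nil))))) (.g (nat_lit 0) (.e (nat_lit 121474) (nat_lit 0) .nil) .nil))))) (.nd (nat_lit 8) (.nd (nat_lit 9) 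
(.lf (nat_lit 482550) (.g (nat_lit 2476) (.e (nat_lit 7492) (nat_lit 402) (.e (nat_lit 1633) (nat_lit 114) (.e (nat_lit 385074) (nat_lit 31) (.e (nat_lit 573491) (nat_lit 15) .nil)))) (.g (nat_lit 0) (.e (nat_lit 119695) (nat_lit 0) .nil) .nil))) 
(.lf (nat_lit 483062) (.g (nat_lit 3298) (.e (nat_lit 7710) (nat_lit 414) (.e (nat_lit 163908) (nat_lit 12) (.e (nat_lit 426285) (nat_lit 10) (.e (nat_lit 434241) (nat_lit 27) (.e (nat_lit 565267) (nat_lit 4) (.e (nat_lit 65610) (nat_lit 10) (.e (nat_lit 344090) (nat_lit 18) .nil))))))) (.g (nat_lit 1) (.e (nat_lit 120707) (nat_lit 0) .nil) .nil)))) (.nd (nat_lit 9) 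
(.lf (nat_lit 482806) (.g (nat_lit 2508) (.e (nat_lit 7590) (nat_lit 407) (.e (nat_lit 73747) (nat_lit 3) (.e (nat_lit 516139) (nat_lit 7) (.e (nat_lit 417536) (nat_lit 16) (.e (nat_lit 286733) (nat_lit 2) (.e (nat_lit 90133) (nat_lit 9) (.e (nat_lit 2397) (nat_lit 157) .nil))))))) (.g (nat_lit 1) (.e (nat_lit 120077) (nat_lit 0) .nil) .nil))) 
(.lf (nat_lit 483318) (.g (nat_lit 5158) (.e (nat_lit 6255) (nat_lit 337) (.e (nat_lit 2641) (nat_lit 165) (.e (nat_lit 180244) (nat_lit 5) (.e (nat_lit 532550) (nat_lit 12) (.e (nat_lit 360475) (nat_lit 8) (.e (nat_lit 557091) (nat_lit 12) (.e (nat_lit 163844) (nat_lit 0) .nil))))))) (.g (nat_lit 1) (.e (nat_lit 122444) (nat_lit 0) .nil) .nil))))))))) 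
(.nd (nat_lit 4) (.nd (nat_lit 5) (.nd (nat_lit 6) (.nd (nat_lit 7) (.nd (nat_lit 8) 
(.nd (nat_lit 9) 
(.lf (nat_lit 482318) (.g (nat_lit 2943) (.e (nat_lit 7265) (nat_lit 384) (.e (nat_lit 57412) (nat_lit 12) (.e (nat_lit 336008) (nat_lit 2) (.e (nat_lit 90170) (nat_lit 13) (.e (nat_lit 172113) (nat_lit 10) (.e (nat_lit 434248) (nat_lit 28) (.e (nat_lit 573473) (nat_lit 12) (.e (nat_lit 57348) (nat_lit 0) .nil)))))))) (.g (nat_lit 1) (.e (nat_lit 118978) (nat_lit 0) .nil) .nil))) 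
(.lf (nat_lit 482830) (.g (nat_lit 2858) (.e (nat_lit 7590) (nat_lit 407) (.e (nat_lit 73775) (nat_lit 26) (.e (nat_lit 778465) (nat_lit 11) (.e (nat_lit 24623) (nat_lit 9) (.e (nat_lit 336414) (nat_lit 27) (.e (nat_lit 425987) (nat_lit 0) .nil)))))) (.g (nat_lit 1) (.e (nat_lit 120101) (nat_lit 0) .nil) .nil)))) (.nd (nat_lit 9) 
(.lf (nat_lit 482574) (.g (nat_lit 1562) (.e (nat_lit 7517) (nat_lit 402) (.e (nat_lit 1427) (nat_lit 108) (.e (nat_lit 336421) (nat_lit 28) (.e (nat_lit 434181) (nat_lit 0) .nil)))) (.g (nat_lit 0) (.e (nat_lit 119727) (nat_lit 0) .nil) .nil))) 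
(.lf (nat_lit 483086) (.g (nat_lit 2667) (.e (nat_lit 7695) (nat_lit 412) (.e (nat_lit 57379) (nat_lit 3) (.e (nat_lit 98367) (nat_lit 27) (.e (nat_lit 434231) (nat_lit 23) (.e (nat_lit 532579) (nat_lit 26) .nil))))) (.g (nat_lit 0) (.e (nat_lit 120797) (nat_lit 0) .nil) .nil))))) (.nd (nat_lit 8) (.nd (nat_lit 9) 
(.lf (nat_lit 482446) (.g (nat_lit 1151) (.e (nat_lit 7379) (nat_lit 390) (.e (nat_lit 24665) (nat_lit 14) (.e (nat_lit 401446) (nat_lit 10) .nil))) (.g (nat_lit 0) (.e (nat_lit 119444) (nat_lit 0) .nil) .nil))) 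
(.lf (nat_lit 482958) (.g (nat_lit 1665) (.e (nat_lit 7593) (nat_lit 407) (.e (nat_lit 73775) (nat_lit 26) (.e (nat_lit 778466) (nat_lit 11) (.e (nat_lit 24632) (nat_lit 9) (.e (nat_lit 336386) (nat_lit 27) .nil))))) (.g (nat_lit 0) (.e (nat_lit 120291) (nat_lit 0) .nil) .nil)))) (.nd (nat_lit 9) 
(.lf (nat_lit 482702) (.g (nat_lit 2674) (.e (nat_lit 7581) (nat_lit 405) (.e (nat_lit 57750) (nat_lit 201) (.e (nat_lit 2663) (nat_lit 167) (.e (nat_lit 196666) (nat_lit 13) (.e (nat_lit 65619) (nat_lit 10) .nil))))) (.g (nat_lit 0) (.e (nat_lit 119926) (nat_lit 0) .nil) .nil))) 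
(.lf (nat_lit 483214) (.g (nat_lit 2160) (.e (nat_lit 7936) (nat_lit 332) (.e (nat_lit 1349) (nat_lit 102) (.e (nat_lit 286735) (nat_lit 3) (.e (nat_lit 98365) (nat_lit 26) (.e (nat_lit 426298) (nat_lit 11) .nil))))) (.g (nat_lit 0) (.e (nat_lit 121574) (nat_lit 0) .nil) .nil)))))) (.nd (nat_lit 7) (.nd (nat_lit 8) (.nd (nat_lit 9) 
(.lf (nat_lit 482382) (.g (nat_lit 2351) (.e (nat_lit 7306) (nat_lit 388) (.e (nat_lit 3062) (nat_lit 190) (.e (nat_lit 475185) (nat_lit 29) (.e (nat_lit 557100) (nat_lit 13) (.e (nat_lit 172113) (nat_lit 10) .nil))))) (.g (nat_lit 0) (.e (nat_lit 119052) (nat_lit 0) .nil) .nil))) 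
(.lf (nat_lit 482894) (.g (nat_lit 2510) (.e (nat_lit 7593) (nat_lit 407) (.e (nat_lit 73746) (nat_lit 3) (.e (nat_lit 516139) (nat_lit 7) (.e (nat_lit 409640) (nat_lit 17) (.e (nat_lit 294931) (nat_lit 3) (.e (nat_lit 98319) (nat_lit 17) .nil)))))) (.g (nat_lit 1) (.e (nat_lit 120226) (nat_lit 0) .nil) .nil)))) (.nd (nat_lit 9) 
(.lf (nat_lit 482638) (.g (nat_lit 1604) (.e (nat_lit 7541) (nat_lit 402) (.e (nat_lit 1234) (nat_lit 91) (.e (nat_lit 90170) (nat_lit 13) (.e (nat_lit 172124) (nat_lit 14) .nil)))) (.g (nat_lit 0) (.e (nat_lit 119799) (nat_lit 0) .nil) .nil))) 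
(.lf (nat_lit 483150) (.g (nat_lit 2342) (.e (nat_lit 6202) (nat_lit 332) (.e (nat_lit 2798) (nat_lit 180) (.e (nat_lit 303117) (nat_lit 2) (.e (nat_lit 196669) (nat_lit 14) (.e (nat_lit 73781) (nat_lit 32) (.e (nat_lit 2664) (nat_lit 167) (.e (nat_lit 196628) (nat_lit 9) (.e (nat_lit 968) (nat_lit 81) .nil)))))))) (.g (nat_lit 1) (.e (nat_lit 121318) (nat_lit 0) .nil) .nil))))) 
(.nd (nat_lit 8) (.nd (nat_lit 9) 
(.lf (nat_lit 482510) (.g (nat_lit 1178) (.e (nat_lit 7936) (nat_lit 393) (.e (nat_lit 180250) (nat_lit 10) (.e (nat_lit 573474) (nat_lit 12) (.e (nat_lit 57572) (nat_lit 54) .nil)))) (.g (nat_lit 0) (.e (nat_lit 119634) (nat_lit 0) .nil) .nil))) 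
(.lf (nat_lit 483022) (.g (nat_lit 642) (.e (nat_lit 7685) (nat_lit 410) (.e (nat_lit 2650) (nat_lit 166) (.e (nat_lit 188449) (nat_lit 22) .nil))) (.g (nat_lit 0) (.e (nat_lit 120527) (nat_lit 0) .nil) .nil)))) (.nd (nat_lit 9) 
(.lf (nat_lit 482766) (.g (nat_lit 2720) (.e (nat_lit 7587) (nat_lit 406) (.e (nat_lit 65653) (nat_lit 27) (.e (nat_lit 426343) (nat_lit 14) (.e (nat_lit 491570) (nat_lit 13) (.e (nat_lit 393230) (nat_lit 17) .nil))))) (.g (nat_lit 0) (.e (nat_lit 120014) (nat_lit 0) .nil) .nil))) 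
(.lf (nat_lit 483278) (.g (nat_lit 658) (.e (nat_lit 6254) (nat_lit 337) (.e (nat_lit 2630) (nat_lit 164) (.e (nat_lit 172095) (nat_lit 9) .nil))) (.g (nat_lit 0) (.e (nat_lit 122177) (nat_lit 0) .nil) .nil))))))) (.nd (nat_lit 6) (.nd (nat_lit 7) (.nd (nat_lit 8) (.nd (nat_lit 9) 
(.lf (nat_lit 482350) (.g (nat_lit 4223) (.e (nat_lit 7266) (nat_lit 384) (.e (nat_lit 57430) (nat_lit 16) (.e (nat_lit 368676) (nat_lit 21) (.e (nat_lit 516165) (nat_lit 12) (.e (nat_lit 450586) (nat_lit 10) (.e (nat_lit 573473) (nat_lit 12) (.e (nat_lit 57347) (nat_lit 0) .nil))))))) (.g (nat_lit 1) (.e (nat_lit 119012) (nat_lit 0) .nil) .nil))) 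
(.lf (nat_lit 482862) (.g (nat_lit 1704) (.e (nat_lit 7591) (nat_lit 407) (.e (nat_lit 73773) (nat_lit 25) (.e (nat_lit 770071) (nat_lit 8) (.e (nat_lit 65625) (nat_lit 13) (.e (nat_lit 393231) (nat_lit 17) .nil))))) (.g (nat_lit 1) (.e (nat_lit 120135) (nat_lit 0) .nil) .nil)))) (.nd (nat_lit 9) 
(.lf (nat_lit 482606) (.g (nat_lit 2048) (.e (nat_lit 7556) (nat_lit 402) (.e (nat_lit 1235) (nat_lit 91) (.e (nat_lit 90170) (nat_lit 13) (.e (nat_lit 172106) (nat_lit 10) (.e (nat_lit 434231) (nat_lit 23) .nil))))) (.g (nat_lit 0) (.e (nat_lit 119767) (nat_lit 0) .nil) .nil))) 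
(.lf (nat_lit 483118) (.g (nat_lit 892) (.e (nat_lit 6113) (nat_lit 332) (.e (nat_lit 2810) (nat_lit 180) (.e (nat_lit 303145) (nat_lit 13) (.e (nat_lit 483377) (nat_lit 22) .nil)))) (.g (nat_lit 0) (.e (nat_lit 121173) (nat_lit 0) .nil) .nil))))) (.nd (nat_lit 8) (.nd (nat_lit 9) 
(.lf (nat_lit 482478) (.g (nat_lit 2250) (.e (nat_lit 7936) (nat_lit 392) (.e (nat_lit 172067) (nat_lit 3) (.e (nat_lit 204819) (nat_lit 17) (.e (nat_lit 6113) (nat_lit 332) (.e (nat_lit 1361) (nat_lit 102) .nil))))) (.g (nat_lit 0) (.e (nat_lit 119547) (nat_lit 0) .nil) .nil))) 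
(.lf (nat_lit 482990) (.g (nat_lit 1988) (.e (nat_lit 7936) (nat_lit 407) (.e (nat_lit 73775) (nat_lit 26) (.e (nat_lit 778465) (nat_lit 11) (.e (nat_lit 24655) (nat_lit 13) (.e (nat_lit 393241) (nat_lit 17) .nil))))) (.g (nat_lit 0) (.e (nat_lit 120331) (nat_lit 0) .nil) .nil)))) (.nd (nat_lit 9) 
(.lf (nat_lit 482734) (.g (nat_lit 1770) (.e (nat_lit 7586) (nat_lit 406) (.e (nat_lit 65571) (nat_lit 3) (.e (nat_lit 98353) (nat_lit 25) (.e (nat_lit 417827) (nat_lit 17) .nil)))) (.g (nat_lit 0) (.e (nat_lit 119971) (nat_lit 0) .nil) .nil))) 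
(.lf (nat_lit 483246) (.g (nat_lit 3972) (.e (nat_lit 6252) (nat_lit 337) (.e (nat_lit 2630) (nat_lit 164) (.e (nat_lit 172064) (nat_lit 2) (.e (nat_lit 196666) (nat_lit 13) (.e (nat_lit 65617) (nat_lit 10) (.e (nat_lit 344133) (nat_lit 26) (.e (nat_lit 557089) (nat_lit 12) (.e (nat_lit 163844) (nat_lit 0) .nil)))))))) (.g (nat_lit 1) (.e (nat_lit 121980) (nat_lit 0) .nil) .nil)))))) 
(.nd (nat_lit 7) (.nd (nat_lit 8) (.nd (nat_lit 9) 
(.lf (nat_lit 482414) (.g (nat_lit 524) (.e (nat_lit 7377) (nat_lit 390) (.e (nat_lit 24580) (nat_lit 0) (.e (nat_lit 6722) (nat_lit 362) .nil))) (.g (nat_lit 0) (.e (nat_lit 119371) (nat_lit 0) .nil) .nil))) 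
(.lf (nat_lit 482926) (.g (nat_lit 2518) (.e (nat_lit 7593) (nat_lit 407) (.e (nat_lit 73773) (nat_lit 25) (.e (nat_lit 770072) (nat_lit 8) (.e (nat_lit 65625) (nat_lit 13) (.e (nat_lit 393232) (nat_lit 17) .nil))))) (.g (nat_lit 1) (.e (nat_lit 120258) (nat_lit 0) .nil) .nil)))) (.nd (nat_lit 9) 
(.lf (nat_lit 482670) (.g (nat_lit 3314) (.e (nat_lit 7936) (nat_lit 402) (.e (nat_lit 1636) (nat_lit 114) (.e (nat_lit 385074) (nat_lit 31) (.e (nat_lit 573482) (nat_lit 13) (.e (nat_lit 65604) (nat_lit 9) .nil))))) (.g (nat_lit 0) (.e (nat_lit 119835) (nat_lit 0) .nil) .nil))) 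
(.lf (nat_lit 483182) (.g (nat_lit 2881) (.e (nat_lit 6203) (nat_lit 332) (.e (nat_lit 2798) (nat_lit 180) (.e (nat_lit 303119) (nat_lit 3) (.e (nat_lit 204846) (nat_lit 24) (.e (nat_lit 319491) (nat_lit 0) .nil))))) (.g (nat_lit 0) (.e (nat_lit 121459) (nat_lit 0) .nil) .nil))))) (.nd (nat_lit 8) (.nd (nat_lit 9) 
(.lf (nat_lit 482542) (.g (nat_lit 3480) (.e (nat_lit 7490) (nat_lit 402) (.e (nat_lit 1256) (nat_lit 92) (.e (nat_lit 98373) (nat_lit 29) (.e (nat_lit 450588) (nat_lit 10) (.e (nat_lit 573457) (nat_lit 9) (.e (nat_lit 430) (nat_lit 32) (.e (nat_lit 426009) (nat_lit 0) .nil))))))) (.g (nat_lit 1) (.e (nat_lit 119684) (nat_lit 0) .nil) .nil))) 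
(.lf (nat_lit 483054) (.g (nat_lit 2774) (.e (nat_lit 7710) (nat_lit 414) (.e (nat_lit 163874) (nat_lit 3) (.e (nat_lit 204864) (nat_lit 27) (.e (nat_lit 344130) (nat_lit 26) (.e (nat_lit 557097) (nat_lit 13) (.e (nat_lit 172064) (nat_lit 2) (.e (nat_lit 196661) (nat_lit 12) (.e (nat_lit 57353) (nat_lit 0) .nil)))))))) (.g (nat_lit 1) (.e (nat_lit 120692) (nat_lit 0) .nil) .nil)))) 
(.nd (nat_lit 9) 
(.lf (nat_lit 482798) (.g (nat_lit 845) (.e (nat_lit 7936) (nat_lit 406) (.e (nat_lit 65580) (nat_lit 6) (.e (nat_lit 147493) (nat_lit 11) (.e (nat_lit 24657) (nat_lit 13) (.e (nat_lit 401152) (nat_lit 17) .nil))))) (.g (nat_lit 0) (.e (nat_lit 120066) (nat_lit 0) .nil) .nil))) 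
(.lf (nat_lit 483310) (.g (nat_lit 1102) (.e (nat_lit 6255) (nat_lit 337) (.e (nat_lit 2630) (nat_lit 164) (.e (nat_lit 172067) (nat_lit 3) (.e (nat_lit 204869) (nat_lit 29) .nil)))) (.g (nat_lit 0) (.e (nat_lit 122318) (nat_lit 0) .nil) .nil)))))))) (.nd (nat_lit 5) (.nd (nat_lit 6) (.nd (nat_lit 7) (.nd (nat_lit 8) (.nd (nat_lit 9) 
(.lf (nat_lit 482334) (.g (nat_lit 3000) (.e (nat_lit 7265) (nat_lit 384) (.e (nat_lit 57431) (nat_lit 16) (.e (nat_lit 368676) (nat_lit 21) (.e (nat_lit 516165) (nat_lit 12) (.e (nat_lit 450586) (nat_lit 10) (.e (nat_lit 573478) (nat_lit 12) (.e (nat_lit 57353) (nat_lit 0) .nil))))))) (.g (nat_lit 1) (.e (nat_lit 118994) (nat_lit 0) .nil) .nil))) 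
(.lf (nat_lit 482846) (.g (nat_lit 3199) (.e (nat_lit 7591) (nat_lit 407) (.e (nat_lit 73747) (nat_lit 3) (.e (nat_lit 516139) (nat_lit 7) (.e (nat_lit 409640) (nat_lit 17) (.e (nat_lit 294931) (nat_lit 3) (.e (nat_lit 98320) (nat_lit 17) .nil)))))) (.g (nat_lit 1) (.e (nat_lit 120119) (nat_lit 0) .nil) .nil)))) (.nd (nat_lit 9) 
(.lf (nat_lit 482590) (.g (nat_lit 2071) (.e (nat_lit 7548) (nat_lit 402) (.e (nat_lit 1234) (nat_lit 91) (.e (nat_lit 90170) (nat_lit 13) (.e (nat_lit 172113) (nat_lit 10) (.e (nat_lit 434245) (nat_lit 28) .nil))))) (.g (nat_lit 0) (.e (nat_lit 119746) (nat_lit 0) .nil) .nil))) 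
(.lf (nat_lit 483102) (.g (nat_lit 4404) (.e (nat_lit 6058) (nat_lit 327) (.e (nat_lit 8213) (nat_lit 9) (.e (nat_lit 303145) (nat_lit 13) (.e (nat_lit 483413) (nat_lit 27) (.e (nat_lit 401447) (nat_lit 10) .nil))))) (.g (nat_lit 0) (.e (nat_lit 120834) (nat_lit 0) .nil) .nil))))) (.nd (nat_lit 8) (.nd (nat_lit 9) 
(.lf (nat_lit 482462) (.g (nat_lit 2926) (.e (nat_lit 7385) (nat_lit 392) (.e (nat_lit 172067) (nat_lit 3) (.e (nat_lit 204846) (nat_lit 24) (.e (nat_lit 319535) (nat_lit 17) (.e (nat_lit 294930) (nat_lit 3) .nil))))) (.g (nat_lit 0) (.e (nat_lit 119519) (nat_lit 0) .nil) .nil))) 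
(.lf (nat_lit 482974) (.g (nat_lit 1873) (.e (nat_lit 7936) (nat_lit 407) (.e (nat_lit 73746) (nat_lit 3) (.e (nat_lit 516182) (nat_lit 15) (.e (nat_lit 475211) (nat_lit 41) (.e (nat_lit 712706) (nat_lit 0) .nil))))) (.g (nat_lit 0) (.e (nat_lit 120309) (nat_lit 0) .nil) .nil)))) (.nd (nat_lit 9) 
(.lf (nat_lit 482718) (.g (nat_lit 842) (.e (nat_lit 7585) (nat_lit 406) (.e (nat_lit 65571) (nat_lit 3) (.e (nat_lit 98353) (nat_lit 25) .nil))) (.g (nat_lit 0) (.e (nat_lit 119955) (nat_lit 0) .nil) .nil))) 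
(.lf (nat_lit 483230) (.g (nat_lit 2342) (.e (nat_lit 6217) (nat_lit 333) (.e (nat_lit 57881) (nat_lit 270) (.e (nat_lit 371) (nat_lit 32) (.e (nat_lit 426542) (nat_lit 29) (.e (nat_lit 352313) (nat_lit 23) (.e (nat_lit 98309) (nat_lit 0) .nil)))))) (.g (nat_lit 1) (.e (nat_lit 121931) (nat_lit 0) .nil) .nil)))))) (.nd (nat_lit 7) (.nd (nat_lit 8) (.nd (nat_lit 9) 
(.lf (nat_lit 482398) (.g (nat_lit 1375) (.e (nat_lit 7349) (nat_lit 388) (.e (nat_lit 2682) (nat_lit 168) (.e (nat_lit 204831) (nat_lit 18) (.e (nat_lit 57692) (nat_lit 156) .nil)))) (.g (nat_lit 0) (.e (nat_lit 119231) (nat_lit 0) .nil) .nil))) 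
(.lf (nat_lit 482910) (.g (nat_lit 1811) (.e (nat_lit 7593) (nat_lit 407) (.e (nat_lit 73748) (nat_lit 3) (.e (nat_lit 516139) (nat_lit 7) (.e (nat_lit 409640) (nat_lit 17) (.e (nat_lit 294931) (nat_lit 3) (.e (nat_lit 98320) (nat_lit 17) .nil)))))) (.g (nat_lit 1) (.e (nat_lit 120242) (nat_lit 0) .nil) .nil)))) (.nd (nat_lit 9) 
(.lf (nat_lit 482654) (.g (nat_lit 2148) (.e (nat_lit 7936) (nat_lit 402) (.e (nat_lit 1256) (nat_lit 92) (.e (nat_lit 98373) (nat_lit 29) (.e (nat_lit 450588) (nat_lit 10) (.e (nat_lit 573470) (nat_lit 11) .nil))))) (.g (nat_lit 0) (.e (nat_lit 119816) (nat_lit 0) .nil) .nil))) 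
(.lf (nat_lit 483166) (.g (nat_lit 1032) (.e (nat_lit 6203) (nat_lit 332) (.e (nat_lit 2797) (nat_lit 180) (.e (nat_lit 303145) (nat_lit 13) (.e (nat_lit 483346) (nat_lit 17) .nil)))) (.g (nat_lit 0) (.e (nat_lit 121428) (nat_lit 0) .nil) .nil))))) (.nd (nat_lit 8) (.nd (nat_lit 9) 
(.lf (nat_lit 482526) (.g (nat_lit 2658) (.e (nat_lit 7486) (nat_lit 402) (.e (nat_lit 1256) (nat_lit 92) (.e (nat_lit 98373) (nat_lit 29) (.e (nat_lit 450587) (nat_lit 10) (.e (nat_lit 573456) (nat_lit 9) (.e (nat_lit 430) (nat_lit 32) (.e (nat_lit 426010) (nat_lit 0) .nil))))))) (.g (nat_lit 1) (.e (nat_lit 119667) (nat_lit 0) .nil) .nil))) 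
(.lf (nat_lit 483038) (.g (nat_lit 2734) (.e (nat_lit 7708) (nat_lit 414) (.e (nat_lit 163875) (nat_lit 3) (.e (nat_lit 204862) (nat_lit 27) (.e (nat_lit 344133) (nat_lit 26) (.e (nat_lit 557098) (nat_lit 13) .nil))))) (.g (nat_lit 0) (.e (nat_lit 120599) (nat_lit 0) .nil) .nil)))) (.nd (nat_lit 9) 
(.lf (nat_lit 482782) (.g (nat_lit 2245) (.e (nat_lit 7589) (nat_lit 406) (.e (nat_lit 65653) (nat_lit 27) (.e (nat_lit 426341) (nat_lit 14) (.e (nat_lit 491571) (nat_lit 13) (.e (nat_lit 393231) (nat_lit 17) .nil))))) (.g (nat_lit 1) (.e (nat_lit 120048) (nat_lit 0) .nil) .nil))) 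
(.lf (nat_lit 483294) (.g (nat_lit 4454) (.e (nat_lit 6255) (nat_lit 337) (.e (nat_lit 2622) (nat_lit 164) (.e (nat_lit 172066) (nat_lit 3) (.e (nat_lit 204869) (nat_lit 29) (.e (nat_lit 360475) (nat_lit 8) (.e (nat_lit 557089) (nat_lit 12) (.e (nat_lit 163844) (nat_lit 0) .nil))))))) (.g (nat_lit 1) (.e (nat_lit 122295) (nat_lit 0) .nil) .nil))))))) 
(.nd (nat_lit 6) (.nd (nat_lit 7) (.nd (nat_lit 8) (.nd (nat_lit 9) 
(.lf (nat_lit 482366) (.g (nat_lit 4851) (.e (nat_lit 7266) (nat_lit 384) (.e (nat_lit 57431) (nat_lit 16) (.e (nat_lit 368676) (nat_lit 21) (.e (nat_lit 516166) (nat_lit 12) (.e (nat_lit 450587) (nat_lit 10) (.e (nat_lit 573478) (nat_lit 12) (.e (nat_lit 57351) (nat_lit 0) .nil))))))) (.g (nat_lit 1) (.e (nat_lit 119028) (nat_lit 0) .nil) .nil))) 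
(.lf (nat_lit 482878) (.g (nat_lit 1745) (.e (nat_lit 7591) (nat_lit 407) (.e (nat_lit 73775) (nat_lit 26) (.e (nat_lit 778466) (nat_lit 11) (.e (nat_lit 24632) (nat_lit 9) (.e (nat_lit 336386) (nat_lit 27) .nil))))) (.g (nat_lit 0) (.e (nat_lit 120151) (nat_lit 0) .nil) .nil)))) (.nd (nat_lit 9) 
(.lf (nat_lit 482622) (.g (nat_lit 1654) (.e (nat_lit 7557) (nat_lit 402) (.e (nat_lit 1638) (nat_lit 114) (.e (nat_lit 385072) (nat_lit 31) (.e (nat_lit 573491) (nat_lit 15) (.e (nat_lit 81954) (nat_lit 23) .nil))))) (.g (nat_lit 0) (.e (nat_lit 119783) (nat_lit 0) .nil) .nil))) 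
(.lf (nat_lit 483134) (.g (nat_lit 3311) (.e (nat_lit 6126) (nat_lit 332) (.e (nat_lit 1348) (nat_lit 102) (.e (nat_lit 286735) (nat_lit 3) (.e (nat_lit 98365) (nat_lit 26) (.e (nat_lit 426298) (nat_lit 11) .nil))))) (.g (nat_lit 0) (.e (nat_lit 121246) (nat_lit 0) .nil) .nil))))) (.nd (nat_lit 8) (.nd (nat_lit 9) 
(.lf (nat_lit 482494) (.g (nat_lit 1577) (.e (nat_lit 7388) (nat_lit 393) (.e (nat_lit 180244) (nat_lit 5) (.e (nat_lit 532523) (nat_lit 7) (.e (nat_lit 319532) (nat_lit 16) .nil)))) (.g (nat_lit 0) (.e (nat_lit 119571) (nat_lit 0) .nil) .nil))) 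
(.lf (nat_lit 483006) (.g (nat_lit 1463) (.e (nat_lit 7684) (nat_lit 410) (.e (nat_lit 2650) (nat_lit 166) (.e (nat_lit 188434) (nat_lit 20) (.e (nat_lit 3288) (nat_lit 201) .nil)))) (.g (nat_lit 0) (.e (nat_lit 120502) (nat_lit 0) .nil) .nil)))) (.nd (nat_lit 9) 
(.lf (nat_lit 482750) (.g (nat_lit 3774) (.e (nat_lit 7587) (nat_lit 406) (.e (nat_lit 65637) (nat_lit 15) (.e (nat_lit 3305) (nat_lit 202) (.e (nat_lit 573485) (nat_lit 13) (.e (nat_lit 65619) (nat_lit 10) (.e (nat_lit 344117) (nat_lit 21) (.e (nat_lit 516098) (nat_lit 0) .nil))))))) (.g (nat_lit 1) (.e (nat_lit 119998) (nat_lit 0) .nil) .nil))) 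
(.lf (nat_lit 483262) (.g (nat_lit 4333) (.e (nat_lit 6254) (nat_lit 337) (.e (nat_lit 2630) (nat_lit 164) (.e (nat_lit 172064) (nat_lit 2) (.e (nat_lit 196666) (nat_lit 13) (.e (nat_lit 65617) (nat_lit 10) (.e (nat_lit 344133) (nat_lit 26) (.e (nat_lit 557091) (nat_lit 12) (.e (nat_lit 163849) (nat_lit 0) .nil)))))))) (.g (nat_lit 1) (.e (nat_lit 122151) (nat_lit 0) .nil) .nil)))))) 
(.nd (nat_lit 7) (.nd (nat_lit 8) (.nd (nat_lit 9) 
(.lf (nat_lit 482430) (.g (nat_lit 1805) (.e (nat_lit 7377) (nat_lit 390) (.e (nat_lit 24665) (nat_lit 14) (.e (nat_lit 401448) (nat_lit 10) (.e (nat_lit 434291) (nat_lit 44) .nil)))) (.g (nat_lit 0) (.e (nat_lit 119397) (nat_lit 0) .nil) .nil))) 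
(.lf (nat_lit 482942) (.g (nat_lit 1429) (.e (nat_lit 7593) (nat_lit 407) (.e (nat_lit 73775) (nat_lit 26) (.e (nat_lit 778465) (nat_lit 11) (.e (nat_lit 24623) (nat_lit 9) (.e (nat_lit 336412) (nat_lit 27) .nil))))) (.g (nat_lit 0) (.e (nat_lit 120274) (nat_lit 0) .nil) .nil)))) (.nd (nat_lit 9) 
(.lf (nat_lit 482686) (.g (nat_lit 2310) (.e (nat_lit 7581) (nat_lit 405) (.e (nat_lit 57464) (nat_lit 23) (.e (nat_lit 516151) (nat_lit 9) (.e (nat_lit 426286) (nat_lit 10) (.e (nat_lit 434245) (nat_lit 28) (.e (nat_lit 573470) (nat_lit 11) (.e (nat_lit 16386) (nat_lit 0) .nil))))))) (.g (nat_lit 1) (.e (nat_lit 119909) (nat_lit 0) .nil) .nil))) 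
(.lf (nat_lit 483198) (.g (nat_lit 2469) (.e (nat_lit 6203) (nat_lit 332) (.e (nat_lit 2798) (nat_lit 180) (.e (nat_lit 303133) (nat_lit 9) (.e (nat_lit 426499) (nat_lit 27) (.e (nat_lit 336107) (nat_lit 9) (.e (nat_lit 336030) (nat_lit 4) (.e (nat_lit 123195) (nat_lit 266) (.e (nat_lit 57346) (nat_lit 0) .nil)))))))) (.g (nat_lit 1) (.e (nat_lit 121486) (nat_lit 0) .nil) .nil))))) 
(.nd (nat_lit 8) (.nd (nat_lit 9) 
(.lf (nat_lit 482558) (.g (nat_lit 2669) (.e (nat_lit 7497) (nat_lit 402) (.e (nat_lit 1239) (nat_lit 91) (.e (nat_lit 90170) (nat_lit 13) (.e (nat_lit 172113) (nat_lit 10) (.e (nat_lit 434248) (nat_lit 28) .nil))))) (.g (nat_lit 0) (.e (nat_lit 119709) (nat_lit 0) .nil) .nil))) 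
(.lf (nat_lit 483070) (.g (nat_lit 836) (.e (nat_lit 7936) (nat_lit 415) (.e (nat_lit 229415) (nat_lit 15) (.e (nat_lit 450563) (nat_lit 0) (.e (nat_lit 7936) (nat_lit 248) .nil)))) (.g (nat_lit 0) (.e (nat_lit 120781) (nat_lit 0) .nil) .nil)))) (.nd (nat_lit 9) 
(.lf (nat_lit 482814) (.g (nat_lit 2779) (.e (nat_lit 7590) (nat_lit 407) (.e (nat_lit 73747) (nat_lit 3) (.e (nat_lit 516185) (nat_lit 16) (.e (nat_lit 491558) (nat_lit 10) (.e (nat_lit 344107) (nat_lit 19) .nil))))) (.g (nat_lit 0) (.e (nat_lit 120085) (nat_lit 0) .nil) .nil))) 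
(.lf (nat_lit 483326) (.g (nat_lit 4908) (.e (nat_lit 6255) (nat_lit 337) (.e (nat_lit 2643) (nat_lit 165) (.e (nat_lit 180243) (nat_lit 5) (.e (nat_lit 532549) (nat_lit 12) (.e (nat_lit 360475) (nat_lit 8) (.e (nat_lit 557091) (nat_lit 12) (.e (nat_lit 163847) (nat_lit 0) .nil))))))) (.g (nat_lit 1) (.e (nat_lit 122455) (nat_lit 0) .nil) .nil)))))))))))) 
(.nd (nat_lit 1) (.nd (nat_lit 2) (.nd (nat_lit 3) (.nd (nat_lit 4) (.nd (nat_lit 5) 
(.nd (nat_lit 6) (.nd (nat_lit 7) (.nd (nat_lit 8) (.nd (nat_lit 9) 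
(.lf (nat_lit 482305) (.g (nat_lit 2166) (.e (nat_lit 7265) (nat_lit 384) (.e (nat_lit 57406) (nat_lit 12) (.e (nat_lit 336316) (nat_lit 17) (.e (nat_lit 196681) (nat_lit 17) (.e (nat_lit 131129) (nat_lit 14) .nil))))) (.g (nat_lit 0) (.e (nat_lit 118963) (nat_lit 0) .nil) .nil))) 
(.lf (nat_lit 482817) (.g (nat_lit 2416) (.e (nat_lit 7590) (nat_lit 407) (.e (nat_lit 73753) (nat_lit 8) (.e (nat_lit 557087) (nat_lit 11) (.e (nat_lit 24625) (nat_lit 9) (.e (nat_lit 336016) (nat_lit 2) .nil))))) (.g (nat_lit 0) (.e (nat_lit 120088) (nat_lit 0) .nil) .nil)))) (.nd (nat_lit 9) 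
(.lf (nat_lit 482561) (.g (nat_lit 2125) (.e (nat_lit 7498) (nat_lit 402) (.e (nat_lit 1234) (nat_lit 91) (.e (nat_lit 90170) (nat_lit 13) (.e (nat_lit 172113) (nat_lit 10) (.e (nat_lit 434248) (nat_lit 28) .nil))))) (.g (nat_lit 0) (.e (nat_lit 119714) (nat_lit 0) .nil) .nil))) 
(.lf (nat_lit 483073) (.g (nat_lit 2147) (.e (nat_lit 7694) (nat_lit 412) (.e (nat_lit 57368) (nat_lit 1) (.e (nat_lit 57854) (nat_lit 252) (.e (nat_lit 57409) (nat_lit 12) (.e (nat_lit 336316) (nat_lit 17) (.e (nat_lit 196666) (nat_lit 13) (.e (nat_lit 65617) (nat_lit 10) (.e (nat_lit 344087) (nat_lit 18) .nil)))))))) (.g (nat_lit 1) (.e (nat_lit 120784) (nat_lit 0) .nil) .nil))))) 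
(.nd (nat_lit 8) (.nd (nat_lit 9) 
(.lf (nat_lit 482433) (.g (nat_lit 2870) (.e (nat_lit 7378) (nat_lit 390) (.e (nat_lit 24662) (nat_lit 14) (.e (nat_lit 401459) (nat_lit 13) (.e (nat_lit 483410) (nat_lit 27) .nil)))) (.g (nat_lit 0) (.e (nat_lit 119408) (nat_lit 0) .nil) .nil))) 
(.lf (nat_lit 482945) (.g (nat_lit 981) (.e (nat_lit 7593) (nat_lit 407) (.e (nat_lit 73775) (nat_lit 26) (.e (nat_lit 778465) (nat_lit 11) (.e (nat_lit 24636) (nat_lit 9) .nil)))) (.g (nat_lit 0) (.e (nat_lit 120277) (nat_lit 0) .nil) .nil)))) (.nd (nat_lit 9) 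
(.lf (nat_lit 482689) (.g (nat_lit 2545) (.e (nat_lit 7581) (nat_lit 405) (.e (nat_lit 57464) (nat_lit 23) (.e (nat_lit 516151) (nat_lit 9) (.e (nat_lit 426286) (nat_lit 10) (.e (nat_lit 434248) (nat_lit 28) (.e (nat_lit 573470) (nat_lit 11) (.e (nat_lit 16386) (nat_lit 0) .nil))))))) (.g (nat_lit 1) (.e (nat_lit 119912) (nat_lit 0) .nil) .nil))) 
(.lf (nat_lit 483201) (.g (nat_lit 364) (.e (nat_lit 6203) (nat_lit 332) (.e (nat_lit 2798) (nat_lit 180) (.e (nat_lit 303145) (nat_lit 13) .nil))) (.g (nat_lit 0) (.e (nat_lit 121489) (nat_lit 0) .nil) .nil)))))) (.nd (nat_lit 7) (.nd (nat_lit 8) (.nd (nat_lit 9) 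
(.lf (nat_lit 482369) (.g (nat_lit 5649) (.e (nat_lit 7266) (nat_lit 384) (.e (nat_lit 57431) (nat_lit 16) (.e (nat_lit 368676) (nat_lit 21) (.e (nat_lit 516166) (nat_lit 12) (.e (nat_lit 450588) (nat_lit 10) (.e (nat_lit 573475) (nat_lit 12) (.e (nat_lit 57351) (nat_lit 0) .nil))))))) (.g (nat_lit 1) (.e (nat_lit 119031) (nat_lit 0) .nil) .nil))) 
(.lf (nat_lit 482881) (.g (nat_lit 2046) (.e (nat_lit 7591) (nat_lit 407) (.e (nat_lit 73776) (nat_lit 26) (.e (nat_lit 778463) (nat_lit 11) (.e (nat_lit 24657) (nat_lit 13) (.e (nat_lit 393232) (nat_lit 17) .nil))))) (.g (nat_lit 1) (.e (nat_lit 120154) (nat_lit 0) .nil) .nil)))) (.nd (nat_lit 9) 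
(.lf (nat_lit 482625) (.g (nat_lit 623) (.e (nat_lit 7557) (nat_lit 402) (.e (nat_lit 1661) (nat_lit 115) (.e (nat_lit 393287) (nat_lit 25) .nil))) (.g (nat_lit 0) (.e (nat_lit 119786) (nat_lit 0) .nil) .nil))) 
(.lf (nat_lit 483137) (.g (nat_lit 3644) (.e (nat_lit 6147) (nat_lit 332) (.e (nat_lit 1348) (nat_lit 102) (.e (nat_lit 286735) (nat_lit 3) (.e (nat_lit 98365) (nat_lit 26) (.e (nat_lit 426298) (nat_lit 11) .nil))))) (.g (nat_lit 0) (.e (nat_lit 121257) (nat_lit 0) .nil) .nil))))) (.nd (nat_lit 8) (.nd (nat_lit 9) 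
(.lf (nat_lit 482497) (.g (nat_lit 1507) (.e (nat_lit 7389) (nat_lit 393) (.e (nat_lit 180243) (nat_lit 5) (.e (nat_lit 532523) (nat_lit 7) (.e (nat_lit 319531) (nat_lit 16) .nil)))) (.g (nat_lit 0) (.e (nat_lit 119575) (nat_lit 0) .nil) .nil))) 
(.lf (nat_lit 483009) (.g (nat_lit 1287) (.e (nat_lit 7685) (nat_lit 410) (.e (nat_lit 2649) (nat_lit 166) (.e (nat_lit 188434) (nat_lit 20) (.e (nat_lit 3224) (nat_lit 196) .nil)))) (.g (nat_lit 0) (.e (nat_lit 120510) (nat_lit 0) .nil) .nil)))) (.nd (nat_lit 9) 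
(.lf (nat_lit 482753) (.g (nat_lit 2791) (.e (nat_lit 7587) (nat_lit 406) (.e (nat_lit 65654) (nat_lit 27) (.e (nat_lit 426338) (nat_lit 14) (.e (nat_lit 491571) (nat_lit 13) (.e (nat_lit 393232) (nat_lit 17) .nil))))) (.g (nat_lit 1) (.e (nat_lit 120001) (nat_lit 0) .nil) .nil))) 
(.lf (nat_lit 483265) (.g (nat_lit 1989) (.e (nat_lit 6254) (nat_lit 337) (.e (nat_lit 2630) (nat_lit 164) (.e (nat_lit 172066) (nat_lit 3) (.e (nat_lit 204868) (nat_lit 29) (.e (nat_lit 360473) (nat_lit 8) .nil))))) (.g (nat_lit 0) (.e (nat_lit 122155) (nat_lit 0) .nil) .nil))))))) (.nd (nat_lit 6) (.nd (nat_lit 7) (.nd (nat_lit 8) (.nd (nat_lit 9) 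
(.lf (nat_lit 482337) (.g (nat_lit 6081) (.e (nat_lit 7265) (nat_lit 384) (.e (nat_lit 57431) (nat_lit 16) (.e (nat_lit 368676) (nat_lit 21) (.e (nat_lit 516166) (nat_lit 12) (.e (nat_lit 450588) (nat_lit 10) (.e (nat_lit 573473) (nat_lit 12) (.e (nat_lit 57348) (nat_lit 0) .nil))))))) (.g (nat_lit 1) (.e (nat_lit 118997) (nat_lit 0) .nil) .nil))) 
(.lf (nat_lit 482849) (.g (nat_lit 4111) (.e (nat_lit 7591) (nat_lit 407) (.e (nat_lit 73747) (nat_lit 3) (.e (nat_lit 516139) (nat_lit 7) (.e (nat_lit 409641) (nat_lit 17) (.e (nat_lit 294931) (nat_lit 3) (.e (nat_lit 98320) (nat_lit 17) .nil)))))) (.g (nat_lit 1) (.e (nat_lit 120122) (nat_lit 0) .nil) .nil)))) (.nd (nat_lit 9) 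
(.lf (nat_lit 482593) (.g (nat_lit 1368) (.e (nat_lit 7552) (nat_lit 402) (.e (nat_lit 401) (nat_lit 32) (.e (nat_lit 426211) (nat_lit 9) (.e (nat_lit 426125) (nat_lit 2) (.e (nat_lit 204544) (nat_lit 0) .nil))))) (.g (nat_lit 0) (.e (nat_lit 119749) (nat_lit 0) .nil) .nil))) 
(.lf (nat_lit 483105) (.g (nat_lit 2619) (.e (nat_lit 6092) (nat_lit 332) (.e (nat_lit 1374) (nat_lit 104) (.e (nat_lit 303119) (nat_lit 3) (.e (nat_lit 204884) (nat_lit 33) (.e (nat_lit 401448) (nat_lit 10) .nil))))) (.g (nat_lit 0) (.e (nat_lit 121101) (nat_lit 0) .nil) .nil))))) (.nd (nat_lit 8) (.nd (nat_lit 9) 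
(.lf (nat_lit 482465) (.g (nat_lit 2263) (.e (nat_lit 7386) (nat_lit 392) (.e (nat_lit 172067) (nat_lit 3) (.e (nat_lit 204846) (nat_lit 24) (.e (nat_lit 319511) (nat_lit 10) .nil)))) (.g (nat_lit 0) (.e (nat_lit 119527) (nat_lit 0) .nil) .nil))) 
(.lf (nat_lit 482977) (.g (nat_lit 1731) (.e (nat_lit 7936) (nat_lit 407) (.e (nat_lit 73747) (nat_lit 3) (.e (nat_lit 516139) (nat_lit 7) (.e (nat_lit 409640) (nat_lit 17) .nil)))) (.g (nat_lit 0) (.e (nat_lit 120312) (nat_lit 0) .nil) .nil)))) (.nd (nat_lit 9) 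
(.lf (nat_lit 482721) (.g (nat_lit 1890) (.e (nat_lit 7585) (nat_lit 406) (.e (nat_lit 65578) (nat_lit 6) (.e (nat_lit 147495) (nat_lit 11) (.e (nat_lit 24658) (nat_lit 13) (.e (nat_lit 393233) (nat_lit 17) .nil))))) (.g (nat_lit 1) (.e (nat_lit 119958) (nat_lit 0) .nil) .nil))) 
(.lf (nat_lit 483233) (.g (nat_lit 1517) (.e (nat_lit 6218) (nat_lit 333) (.e (nat_lit 57819) (nat_lit 248) (.e (nat_lit 164359) (nat_lit 246) (.e (nat_lit 2973) (nat_lit 185) (.e (nat_lit 434266) (nat_lit 35) (.e (nat_lit 630821) (nat_lit 16) (.e (nat_lit 65542) (nat_lit 0) .nil))))))) (.g (nat_lit 1) (.e (nat_lit 121941) (nat_lit 0) .nil) .nil)))))) 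
(.nd (nat_lit 7) (.nd (nat_lit 8) (.nd (nat_lit 9) 
(.lf (nat_lit 482401) (.g (nat_lit 1936) (.e (nat_lit 7936) (nat_lit 388) (.e (nat_lit 2679) (nat_lit 168) (.e (nat_lit 204846) (nat_lit 24) (.e (nat_lit 319533) (nat_lit 16) (.e (nat_lit 286733) (nat_lit 2) .nil))))) (.g (nat_lit 0) (.e (nat_lit 119291) (nat_lit 0) .nil) .nil))) 
(.lf (nat_lit 482913) (.g (nat_lit 2789) (.e (nat_lit 7593) (nat_lit 407) (.e (nat_lit 73753) (nat_lit 8) (.e (nat_lit 557085) (nat_lit 11) (.e (nat_lit 24627) (nat_lit 9) (.e (nat_lit 336019) (nat_lit 3) (.e (nat_lit 98320) (nat_lit 17) .nil)))))) (.g (nat_lit 1) (.e (nat_lit 120245) (nat_lit 0) .nil) .nil)))) (.nd (nat_lit 9) 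
(.lf (nat_lit 482657) (.g (nat_lit 1549) (.e (nat_lit 7936) (nat_lit 402) (.e (nat_lit 1454) (nat_lit 108) (.e (nat_lit 336389) (nat_lit 27) (.e (nat_lit 426338) (nat_lit 14) .nil)))) (.g (nat_lit 0) (.e (nat_lit 119819) (nat_lit 0) .nil) .nil))) 
(.lf (nat_lit 483169) (.g (nat_lit 3225) (.e (nat_lit 6203) (nat_lit 332) (.e (nat_lit 2798) (nat_lit 180) (.e (nat_lit 303117) (nat_lit 2) (.e (nat_lit 196666) (nat_lit 13) (.e (nat_lit 65628) (nat_lit 14) .nil))))) (.g (nat_lit 0) (.e (nat_lit 121434) (nat_lit 0) .nil) .nil))))) (.nd (nat_lit 8) (.nd (nat_lit 9) 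
(.lf (nat_lit 482529) (.g (nat_lit 1875) (.e (nat_lit 7486) (nat_lit 402) (.e (nat_lit 1634) (nat_lit 114) (.e (nat_lit 385074) (nat_lit 31) (.e (nat_lit 573491) (nat_lit 15) .nil)))) (.g (nat_lit 0) (.e (nat_lit 119670) (nat_lit 0) .nil) .nil))) 
(.lf (nat_lit 483041) (.g (nat_lit 843) (.e (nat_lit 7708) (nat_lit 414) (.e (nat_lit 163907) (nat_lit 12) (.e (nat_lit 426294) (nat_lit 11) .nil))) (.g (nat_lit 0) (.e (nat_lit 120605) (nat_lit 0) .nil) .nil)))) (.nd (nat_lit 9) 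
(.lf (nat_lit 482785) (.g (nat_lit 1939) (.e (nat_lit 7589) (nat_lit 406) (.e (nat_lit 65653) (nat_lit 27) (.e (nat_lit 426343) (nat_lit 14) (.e (nat_lit 491546) (nat_lit 9) (.e (nat_lit 336412) (nat_lit 27) .nil))))) (.g (nat_lit 0) (.e (nat_lit 120051) (nat_lit 0) .nil) .nil))) 
(.lf (nat_lit 483297) (.g (nat_lit 5496) (.e (nat_lit 6255) (nat_lit 337) (.e (nat_lit 2630) (nat_lit 164) (.e (nat_lit 172064) (nat_lit 2) (.e (nat_lit 196666) (nat_lit 13) (.e (nat_lit 65610) (nat_lit 10) (.e (nat_lit 344129) (nat_lit 26) (.e (nat_lit 557089) (nat_lit 12) (.e (nat_lit 163849) (nat_lit 0) .nil)))))))) (.g (nat_lit 1) (.e (nat_lit 122299) (nat_lit 0) .nil) .nil)))))))) 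
(.nd (nat_lit 5) (.nd (nat_lit 6) (.nd (nat_lit 7) (.nd (nat_lit 8) (.nd (nat_lit 9) 
(.lf (nat_lit 482321) (.g (nat_lit 2292) (.e (nat_lit 7265) (nat_lit 384) (.e (nat_lit 57414) (nat_lit 12) (.e (nat_lit 336013) (nat_lit 2) (.e (nat_lit 90170) (nat_lit 13) (.e (nat_lit 172106) (nat_lit 10) (.e (nat_lit 434244) (nat_lit 28) (.e (nat_lit 573474) (nat_lit 12) (.e (nat_lit 57347) (nat_lit 0) .nil)))))))) (.g (nat_lit 1) (.e (nat_lit 118981) (nat_lit 0) .nil) .nil))) 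
(.lf (nat_lit 482833) (.g (nat_lit 1764) (.e (nat_lit 7590) (nat_lit 407) (.e (nat_lit 73775) (nat_lit 26) (.e (nat_lit 778466) (nat_lit 11) (.e (nat_lit 24624) (nat_lit 9) (.e (nat_lit 336414) (nat_lit 27) .nil))))) (.g (nat_lit 0) (.e (nat_lit 120104) (nat_lit 0) .nil) .nil)))) (.nd (nat_lit 9) 
(.lf (nat_lit 482577) (.g (nat_lit 2115) (.e (nat_lit 7521) (nat_lit 402) (.e (nat_lit 1427) (nat_lit 108) (.e (nat_lit 336414) (nat_lit 27) (.e (nat_lit 426347) (nat_lit 14) (.e (nat_lit 491571) (nat_lit 13) .nil))))) (.g (nat_lit 0) (.e (nat_lit 119730) (nat_lit 0) .nil) .nil))) 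
(.lf (nat_lit 483089) (.g (nat_lit 2712) (.e (nat_lit 7695) (nat_lit 412) (.e (nat_lit 57379) (nat_lit 3) (.e (nat_lit 98367) (nat_lit 27) (.e (nat_lit 434231) (nat_lit 23) (.e (nat_lit 532579) (nat_lit 26) (.e (nat_lit 426124) (nat_lit 2) (.e (nat_lit 196677) (nat_lit 16) (.e (nat_lit 122881) (nat_lit 0) .nil)))))))) (.g (nat_lit 1) (.e (nat_lit 120800) (nat_lit 0) .nil) .nil))))) 
(.nd (nat_lit 8) (.nd (nat_lit 9) 
(.lf (nat_lit 482449) (.g (nat_lit 2060) (.e (nat_lit 7379) (nat_lit 390) (.e (nat_lit 24665) (nat_lit 14) (.e (nat_lit 401448) (nat_lit 10) (.e (nat_lit 434291) (nat_lit 44) (.e (nat_lit 704737) (nat_lit 11) .nil))))) (.g (nat_lit 0) (.e (nat_lit 119453) (nat_lit 0) .nil) .nil))) 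
(.lf (nat_lit 482961) (.g (nat_lit 3339) (.e (nat_lit 7593) (nat_lit 407) (.e (nat_lit 73775) (nat_lit 26) (.e (nat_lit 778466) (nat_lit 11) (.e (nat_lit 24636) (nat_lit 9) (.e (nat_lit 336390) (nat_lit 27) (.e (nat_lit 426011) (nat_lit 0) .nil)))))) (.g (nat_lit 1) (.e (nat_lit 120294) (nat_lit 0) .nil) .nil)))) (.nd (nat_lit 9) 
(.lf (nat_lit 482705) (.g (nat_lit 5004) (.e (nat_lit 7583) (nat_lit 405) (.e (nat_lit 57464) (nat_lit 23) (.e (nat_lit 516151) (nat_lit 9) (.e (nat_lit 426286) (nat_lit 10) (.e (nat_lit 434248) (nat_lit 28) (.e (nat_lit 573471) (nat_lit 11) (.e (nat_lit 16388) (nat_lit 0) .nil))))))) (.g (nat_lit 1) (.e (nat_lit 119934) (nat_lit 0) .nil) .nil))) 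
(.lf (nat_lit 483217) (.g (nat_lit 4054) (.e (nat_lit 6234) (nat_lit 335) (.e (nat_lit 164359) (nat_lit 246) (.e (nat_lit 2679) (nat_lit 168) (.e (nat_lit 204869) (nat_lit 29) (.e (nat_lit 360475) (nat_lit 8) (.e (nat_lit 557068) (nat_lit 9) (.e (nat_lit 22) (nat_lit 0) .nil))))))) (.g (nat_lit 1) (.e (nat_lit 121621) (nat_lit 0) .nil) .nil)))))) (.nd (nat_lit 7) (.nd (nat_lit 8) (.nd (nat_lit 9) 
(.lf (nat_lit 482385) (.g (nat_lit 3407) (.e (nat_lit 7335) (nat_lit 388) (.e (nat_lit 3067) (nat_lit 190) (.e (nat_lit 475179) (nat_lit 24) (.e (nat_lit 516117) (nat_lit 1) (.e (nat_lit 164329) (nat_lit 230) .nil))))) (.g (nat_lit 0) (.e (nat_lit 119122) (nat_lit 0) .nil) .nil))) 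
(.lf (nat_lit 482897) (.g (nat_lit 3552) (.e (nat_lit 7593) (nat_lit 407) (.e (nat_lit 73746) (nat_lit 3) (.e (nat_lit 516139) (nat_lit 7) (.e (nat_lit 409641) (nat_lit 17) (.e (nat_lit 294931) (nat_lit 3) (.e (nat_lit 98320) (nat_lit 17) .nil)))))) (.g (nat_lit 1) (.e (nat_lit 120229) (nat_lit 0) .nil) .nil)))) (.nd (nat_lit 9) 
(.lf (nat_lit 482641) (.g (nat_lit 1335) (.e (nat_lit 7545) (nat_lit 402) (.e (nat_lit 1234) (nat_lit 91) (.e (nat_lit 90170) (nat_lit 13) (.e (nat_lit 172113) (nat_lit 10) .nil)))) (.g (nat_lit 0) (.e (nat_lit 119803) (nat_lit 0) .nil) .nil))) 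
(.lf (nat_lit 483153) (.g (nat_lit 2149) (.e (nat_lit 6202) (nat_lit 332) (.e (nat_lit 2798) (nat_lit 180) (.e (nat_lit 303117) (nat_lit 2) (.e (nat_lit 196669) (nat_lit 14) (.e (nat_lit 73782) (nat_lit 32) (.e (nat_lit 2664) (nat_lit 167) (.e (nat_lit 196628) (nat_lit 9) (.e (nat_lit 970) (nat_lit 81) .nil)))))))) (.g (nat_lit 1) (.e (nat_lit 121321) (nat_lit 0) .nil) .nil))))) 
(.nd (nat_lit 8) (.nd (nat_lit 9) 
(.lf (nat_lit 482513) (.g (nat_lit 3169) (.e (nat_lit 7408) (nat_lit 396) (.e (nat_lit 2558) (nat_lit 159) (.e (nat_lit 24608) (nat_lit 3) (.e (nat_lit 98373) (nat_lit 29) (.e (nat_lit 450587) (nat_lit 10) .nil))))) (.g (nat_lit 0) (.e (nat_lit 119644) (nat_lit 0) .nil) .nil))) 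
(.lf (nat_lit 483025) (.g (nat_lit 3986) (.e (nat_lit 7685) (nat_lit 410) (.e (nat_lit 2650) (nat_lit 166) (.e (nat_lit 188449) (nat_lit 22) (.e (nat_lit 196614) (nat_lit 0) .nil)))) (.g (nat_lit 0) (.e (nat_lit 120530) (nat_lit 0) .nil) .nil)))) (.nd (nat_lit 9) 
(.lf (nat_lit 482769) (.g (nat_lit 3133) (.e (nat_lit 7588) (nat_lit 406) (.e (nat_lit 65637) (nat_lit 15) (.e (nat_lit 3305) (nat_lit 202) (.e (nat_lit 573493) (nat_lit 15) (.e (nat_lit 81953) (nat_lit 22) (.e (nat_lit 90133) (nat_lit 9) (.e (nat_lit 2397) (nat_lit 157) .nil))))))) (.g (nat_lit 1) (.e (nat_lit 120020) (nat_lit 0) .nil) .nil))) 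
(.lf (nat_lit 483281) (.g (nat_lit 4075) (.e (nat_lit 6254) (nat_lit 337) (.e (nat_lit 2641) (nat_lit 165) (.e (nat_lit 180244) (nat_lit 5) (.e (nat_lit 532550) (nat_lit 12) (.e (nat_lit 360474) (nat_lit 8) (.e (nat_lit 557094) (nat_lit 12) (.e (nat_lit 163847) (nat_lit 0) .nil))))))) (.g (nat_lit 1) (.e (nat_lit 122265) (nat_lit 0) .nil) .nil))))))) 
(.nd (nat_lit 6) (.nd (nat_lit 7) (.nd (nat_lit 8) (.nd (nat_lit 9) 
(.lf (nat_lit 482353) (.g (nat_lit 3211) (.e (nat_lit 7266) (nat_lit 384) (.e (nat_lit 57430) (nat_lit 16) (.e (nat_lit 368676) (nat_lit 21) (.e (nat_lit 516165) (nat_lit 12) (.e (nat_lit 450586) (nat_lit 10) (.e (nat_lit 573477) (nat_lit 12) (.e (nat_lit 57353) (nat_lit 0) .nil))))))) (.g (nat_lit 1) (.e (nat_lit 119015) (nat_lit 0) .nil) .nil))) 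
(.lf (nat_lit 482865) (.g (nat_lit 1929) (.e (nat_lit 7591) (nat_lit 407) (.e (nat_lit 73773) (nat_lit 25) (.e (nat_lit 770072) (nat_lit 8) (.e (nat_lit 65625) (nat_lit 13) (.e (nat_lit 393231) (nat_lit 17) .nil))))) (.g (nat_lit 1) (.e (nat_lit 120138) (nat_lit 0) .nil) .nil)))) (.nd (nat_lit 9) 
(.lf (nat_lit 482609) (.g (nat_lit 1785) (.e (nat_lit 7556) (nat_lit 402) (.e (nat_lit 1427) (nat_lit 108) (.e (nat_lit 336414) (nat_lit 27) (.e (nat_lit 426347) (nat_lit 14) (.e (nat_lit 491571) (nat_lit 13) .nil))))) (.g (nat_lit 0) (.e (nat_lit 119770) (nat_lit 0) .nil) .nil))) 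
(.lf (nat_lit 483121) (.g (nat_lit 2001) (.e (nat_lit 6113) (nat_lit 332) (.e (nat_lit 2810) (nat_lit 180) (.e (nat_lit 303145) (nat_lit 13) (.e (nat_lit 483382) (nat_lit 23) (.e (nat_lit 336029) (nat_lit 4) (.e (nat_lit 123198) (nat_lit 266) (.e (nat_lit 57350) (nat_lit 0) .nil))))))) (.g (nat_lit 1) (.e (nat_lit 121184) (nat_lit 0) .nil) .nil))))) (.nd (nat_lit 8) (.nd (nat_lit 9) 
(.lf (nat_lit 482481) (.g (nat_lit 2848) (.e (nat_lit 7936) (nat_lit 392) (.e (nat_lit 172067) (nat_lit 3) (.e (nat_lit 204846) (nat_lit 24) (.e (nat_lit 319504) (nat_lit 10) (.e (nat_lit 5395) (nat_lit 301) .nil))))) (.g (nat_lit 0) (.e (nat_lit 119550) (nat_lit 0) .nil) .nil))) 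
(.lf (nat_lit 482993) (.g (nat_lit 1449) (.e (nat_lit 7936) (nat_lit 407) (.e (nat_lit 73775) (nat_lit 26) (.e (nat_lit 778466) (nat_lit 11) (.e (nat_lit 24656) (nat_lit 13) (.e (nat_lit 393236) (nat_lit 17) .nil))))) (.g (nat_lit 0) (.e (nat_lit 120334) (nat_lit 0) .nil) .nil)))) (.nd (nat_lit 9) 
(.lf (nat_lit 482737) (.g (nat_lit 3004) (.e (nat_lit 7586) (nat_lit 406) (.e (nat_lit 65653) (nat_lit 27) (.e (nat_lit 426306) (nat_lit 12) (.e (nat_lit 475210) (nat_lit 41) (.e (nat_lit 712745) (nat_lit 27) (.e (nat_lit 425984) (nat_lit 0) .nil)))))) (.g (nat_lit 1) (.e (nat_lit 119984) (nat_lit 0) .nil) .nil))) 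
(.lf (nat_lit 483249) (.g (nat_lit 3787) (.e (nat_lit 6252) (nat_lit 337) (.e (nat_lit 2630) (nat_lit 164) (.e (nat_lit 172065) (nat_lit 3) (.e (nat_lit 204869) (nat_lit 29) (.e (nat_lit 360474) (nat_lit 8) (.e (nat_lit 557094) (nat_lit 12) (.e (nat_lit 163847) (nat_lit 0) .nil))))))) (.g (nat_lit 1) (.e (nat_lit 121990) (nat_lit 0) .nil) .nil)))))) 
(.nd (nat_lit 7) (.nd (nat_lit 8) (.nd (nat_lit 9) 
(.lf (nat_lit 482417) (.g (nat_lit 2731) (.e (nat_lit 7377) (nat_lit 390) (.e (nat_lit 24662) (nat_lit 14) (.e (nat_lit 401459) (nat_lit 13) (.e (nat_lit 483410) (nat_lit 27) .nil)))) (.g (nat_lit 0) (.e (nat_lit 119374) (nat_lit 0) .nil) .nil))) 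
(.lf (nat_lit 482929) (.g (nat_lit 2393) (.e (nat_lit 7593) (nat_lit 407) (.e (nat_lit 73774) (nat_lit 26) (.e (nat_lit 778469) (nat_lit 11) (.e (nat_lit 24658) (nat_lit 13) (.e (nat_lit 393234) (nat_lit 17) .nil))))) (.g (nat_lit 1) (.e (nat_lit 120261) (nat_lit 0) .nil) .nil)))) (.nd (nat_lit 9) 
(.lf (nat_lit 482673) (.g (nat_lit 2859) (.e (nat_lit 7936) (nat_lit 402) (.e (nat_lit 1643) (nat_lit 114) (.e (nat_lit 385074) (nat_lit 31) (.e (nat_lit 573482) (nat_lit 13) (.e (nat_lit 65604) (nat_lit 9) .nil))))) (.g (nat_lit 0) (.e (nat_lit 119841) (nat_lit 0) .nil) .nil))) 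
(.lf (nat_lit 483185) (.g (nat_lit 2251) (.e (nat_lit 6203) (nat_lit 332) (.e (nat_lit 2798) (nat_lit 180) (.e (nat_lit 303119) (nat_lit 3) (.e (nat_lit 204849) (nat_lit 25) (.e (nat_lit 327682) (nat_lit 0) .nil))))) (.g (nat_lit 0) (.e (nat_lit 121466) (nat_lit 0) .nil) .nil))))) (.nd (nat_lit 8) (.nd (nat_lit 9) 
(.lf (nat_lit 482545) (.g (nat_lit 1594) (.e (nat_lit 7490) (nat_lit 402) (.e (nat_lit 1675) (nat_lit 116) (.e (nat_lit 401425) (nat_lit 2) (.e (nat_lit 196673) (nat_lit 15) .nil)))) (.g (nat_lit 0) (.e (nat_lit 119688) (nat_lit 0) .nil) .nil))) 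
(.lf (nat_lit 483057) (.g (nat_lit 2467) (.e (nat_lit 7710) (nat_lit 414) (.e (nat_lit 163874) (nat_lit 3) (.e (nat_lit 204864) (nat_lit 27) (.e (nat_lit 344132) (nat_lit 26) (.e (nat_lit 557101) (nat_lit 13) (.e (nat_lit 172064) (nat_lit 2) (.e (nat_lit 196661) (nat_lit 12) (.e (nat_lit 57353) (nat_lit 0) .nil)))))))) (.g (nat_lit 1) (.e (nat_lit 120695) (nat_lit 0) .nil) .nil)))) 
(.nd (nat_lit 9) 
(.lf (nat_lit 482801) (.g (nat_lit 606) (.e (nat_lit 7936) (nat_lit 406) (.e (nat_lit 65651) (nat_lit 27) (.e (nat_lit 426341) (nat_lit 14) (.e (nat_lit 491571) (nat_lit 13) .nil)))) (.g (nat_lit 0) (.e (nat_lit 120070) (nat_lit 0) .nil) .nil))) 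
(.lf (nat_lit 483313) (.g (nat_lit 681) (.e (nat_lit 6255) (nat_lit 337) (.e (nat_lit 2630) (nat_lit 164) (.e (nat_lit 172085) (nat_lit 9) .nil))) (.g (nat_lit 0) (.e (nat_lit 122335) (nat_lit 0) .nil) .nil))))))))) (.nd (nat_lit 4) (.nd (nat_lit 5) (.nd (nat_lit 6) (.nd (nat_lit 7) (.nd (nat_lit 8) (.nd (nat_lit 9) 
(.lf (nat_lit 482313) (.g (nat_lit 4045) (.e (nat_lit 7265) (nat_lit 384) (.e (nat_lit 57412) (nat_lit 12) (.e (nat_lit 336001) (nat_lit 2) (.e (nat_lit 90170) (nat_lit 13) (.e (nat_lit 172113) (nat_lit 10) (.e (nat_lit 434247) (nat_lit 28) (.e (nat_lit 573477) (nat_lit 12) (.e (nat_lit 57353) (nat_lit 0) .nil)))))))) (.g (nat_lit 1) (.e (nat_lit 118973) (nat_lit 0) .nil) .nil))) 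
(.lf (nat_lit 482825) (.g (nat_lit 2673) (.e (nat_lit 7590) (nat_lit 407) (.e (nat_lit 73755) (nat_lit 8) (.e (nat_lit 557087) (nat_lit 11) (.e (nat_lit 24628) (nat_lit 9) (.e (nat_lit 336016) (nat_lit 2) (.e (nat_lit 90133) (nat_lit 9) (.e (nat_lit 2400) (nat_lit 157) .nil))))))) (.g (nat_lit 1) (.e (nat_lit 120096) (nat_lit 0) .nil) .nil)))) (.nd (nat_lit 9) 
(.lf (nat_lit 482569) (.g (nat_lit 1224) (.e (nat_lit 7518) (nat_lit 402) (.e (nat_lit 1234) (nat_lit 91) (.e (nat_lit 90176) (nat_lit 15) (.e (nat_lit 188450) (nat_lit 23) .nil)))) (.g (nat_lit 0) (.e (nat_lit 119722) (nat_lit 0) .nil) .nil))) 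
(.lf (nat_lit 483081) (.g (nat_lit 2153) (.e (nat_lit 7695) (nat_lit 412) (.e (nat_lit 57378) (nat_lit 3) (.e (nat_lit 98366) (nat_lit 27) (.e (nat_lit 434231) (nat_lit 23) (.e (nat_lit 532579) (nat_lit 26) .nil))))) (.g (nat_lit 0) (.e (nat_lit 120792) (nat_lit 0) .nil) .nil))))) (.nd (nat_lit 8) (.nd (nat_lit 9) 
(.lf (nat_lit 482441) (.g (nat_lit 2653) (.e (nat_lit 7379) (nat_lit 390) (.e (nat_lit 24662) (nat_lit 14) (.e (nat_lit 401459) (nat_lit 13) (.e (nat_lit 483410) (nat_lit 27) .nil)))) (.g (nat_lit 0) (.e (nat_lit 119438) (nat_lit 0) .nil) .nil))) 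
(.lf (nat_lit 482953) (.g (nat_lit 2109) (.e (nat_lit 7593) (nat_lit 407) (.e (nat_lit 73775) (nat_lit 26) (.e (nat_lit 778465) (nat_lit 11) (.e (nat_lit 24658) (nat_lit 13) (.e (nat_lit 393231) (nat_lit 17) .nil))))) (.g (nat_lit 1) (.e (nat_lit 120286) (nat_lit 0) .nil) .nil)))) (.nd (nat_lit 9) 
(.lf (nat_lit 482697) (.g (nat_lit 4297) (.e (nat_lit 7581) (nat_lit 405) (.e (nat_lit 57464) (nat_lit 23) (.e (nat_lit 516165) (nat_lit 12) (.e (nat_lit 450588) (nat_lit 10) (.e (nat_lit 573471) (nat_lit 11) (.e (nat_lit 16388) (nat_lit 0) .nil)))))) (.g (nat_lit 1) (.e (nat_lit 119920) (nat_lit 0) .nil) .nil))) 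
(.lf (nat_lit 483209) (.g (nat_lit 2324) (.e (nat_lit 6203) (nat_lit 332) (.e (nat_lit 2798) (nat_lit 180) (.e (nat_lit 303145) (nat_lit 13) (.e (nat_lit 483382) (nat_lit 23) (.e (nat_lit 335939) (nat_lit 0) .nil))))) (.g (nat_lit 0) (.e (nat_lit 121504) (nat_lit 0) .nil) .nil)))))) (.nd (nat_lit 7) (.nd (nat_lit 8) (.nd (nat_lit 9) 
(.lf (nat_lit 482377) (.g (nat_lit 2856) (.e (nat_lit 7270) (nat_lit 385) (.e (nat_lit 122914) (nat_lit 14) (.e (nat_lit 352277) (nat_lit 11) (.e (nat_lit 426343) (nat_lit 14) (.e (nat_lit 491560) (nat_lit 10) (.e (nat_lit 344099) (nat_lit 18) .nil)))))) (.g (nat_lit 1) (.e (nat_lit 119039) (nat_lit 0) .nil) .nil))) 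
(.lf (nat_lit 482889) (.g (nat_lit 1462) (.e (nat_lit 7593) (nat_lit 407) (.e (nat_lit 73729) (nat_lit 0) (.e (nat_lit 7261) (nat_lit 384) (.e (nat_lit 57354) (nat_lit 0) (.e (nat_lit 7936) (nat_lit 347) .nil))))) (.g (nat_lit 0) (.e (nat_lit 120218) (nat_lit 0) .nil) .nil)))) (.nd (nat_lit 9) 
(.lf (nat_lit 482633) (.g (nat_lit 2247) (.e (nat_lit 7562) (nat_lit 402) (.e (nat_lit 1637) (nat_lit 114) (.e (nat_lit 385074) (nat_lit 31) (.e (nat_lit 573485) (nat_lit 13) (.e (nat_lit 65619) (nat_lit 10) .nil))))) (.g (nat_lit 0) (.e (nat_lit 119794) (nat_lit 0) .nil) .nil))) 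
(.lf (nat_lit 483145) (.g (nat_lit 2644) (.e (nat_lit 6202) (nat_lit 332) (.e (nat_lit 2797) (nat_lit 180) (.e (nat_lit 303119) (nat_lit 3) (.e (nat_lit 204846) (nat_lit 24) (.e (nat_lit 327424) (nat_lit 8) .nil))))) (.g (nat_lit 0) (.e (nat_lit 121304) (nat_lit 0) .nil) .nil))))) (.nd (nat_lit 8) (.nd (nat_lit 9) 
(.lf (nat_lit 482505) (.g (nat_lit 1381) (.e (nat_lit 7936) (nat_lit 393) (.e (nat_lit 180244) (nat_lit 5) (.e (nat_lit 532523) (nat_lit 7) (.e (nat_lit 319532) (nat_lit 16) .nil)))) (.g (nat_lit 0) (.e (nat_lit 119619) (nat_lit 0) .nil) .nil))) 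
(.lf (nat_lit 483017) (.g (nat_lit 496) (.e (nat_lit 7685) (nat_lit 410) (.e (nat_lit 2649) (nat_lit 166) (.e (nat_lit 188449) (nat_lit 22) .nil))) (.g (nat_lit 0) (.e (nat_lit 120518) (nat_lit 0) .nil) .nil)))) (.nd (nat_lit 9) 
(.lf (nat_lit 482761) (.g (nat_lit 2222) (.e (nat_lit 7587) (nat_lit 406) (.e (nat_lit 65653) (nat_lit 27) (.e (nat_lit 426343) (nat_lit 14) (.e (nat_lit 491546) (nat_lit 9) (.e (nat_lit 336389) (nat_lit 27) .nil))))) (.g (nat_lit 0) (.e (nat_lit 120009) (nat_lit 0) .nil) .nil))) 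
(.lf (nat_lit 483273) (.g (nat_lit 4099) (.e (nat_lit 6254) (nat_lit 337) (.e (nat_lit 2630) (nat_lit 164) (.e (nat_lit 172067) (nat_lit 3) (.e (nat_lit 204868) (nat_lit 29) (.e (nat_lit 360473) (nat_lit 8) (.e (nat_lit 557091) (nat_lit 12) (.e (nat_lit 163847) (nat_lit 0) .nil))))))) (.g (nat_lit 1) (.e (nat_lit 122164) (nat_lit 0) .nil) .nil))))))) 
(.nd (nat_lit 6) (.nd (nat_lit 7) (.nd (nat_lit 8) (.nd (nat_lit 9) 
(.lf (nat_lit 482345) (.g (nat_lit 2306) (.e (nat_lit 7266) (nat_lit 384) (.e (nat_lit 57409) (nat_lit 12) (.e (nat_lit 336019) (nat_lit 3) (.e (nat_lit 98372) (nat_lit 29) (.e (nat_lit 450586) (nat_lit 10) (.e (nat_lit 573475) (nat_lit 12) (.e (nat_lit 57348) (nat_lit 0) .nil))))))) (.g (nat_lit 1) (.e (nat_lit 119007) (nat_lit 0) .nil) .nil))) 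
(.lf (nat_lit 482857) (.g (nat_lit 2216) (.e (nat_lit 7591) (nat_lit 407) (.e (nat_lit 73748) (nat_lit 3) (.e (nat_lit 516139) (nat_lit 7) (.e (nat_lit 409642) (nat_lit 17) (.e (nat_lit 294931) (nat_lit 3) .nil))))) (.g (nat_lit 0) (.e (nat_lit 120130) (nat_lit 0) .nil) .nil)))) (.nd (nat_lit 9) 
(.lf (nat_lit 482601) (.g (nat_lit 1417) (.e (nat_lit 7555) (nat_lit 402) (.e (nat_lit 1427) (nat_lit 108) (.e (nat_lit 336395) (nat_lit 27) (.e (nat_lit 426338) (nat_lit 14) .nil)))) (.g (nat_lit 0) (.e (nat_lit 119762) (nat_lit 0) .nil) .nil))) 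
(.lf (nat_lit 483113) (.g (nat_lit 2369) (.e (nat_lit 6112) (nat_lit 332) (.e (nat_lit 1374) (nat_lit 104) (.e (nat_lit 303119) (nat_lit 3) (.e (nat_lit 204845) (nat_lit 24) (.e (nat_lit 319538) (nat_lit 19) .nil))))) (.g (nat_lit 0) (.e (nat_lit 121158) (nat_lit 0) .nil) .nil))))) (.nd (nat_lit 8) (.nd (nat_lit 9) 
(.lf (nat_lit 482473) (.g (nat_lit 555) (.e (nat_lit 7387) (nat_lit 392) (.e (nat_lit 172065) (nat_lit 3) (.e (nat_lit 204845) (nat_lit 24) .nil))) (.g (nat_lit 0) (.e (nat_lit 119540) (nat_lit 0) .nil) .nil))) 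
(.lf (nat_lit 482985) (.g (nat_lit 2118) (.e (nat_lit 7936) (nat_lit 407) (.e (nat_lit 73755) (nat_lit 8) (.e (nat_lit 557119) (nat_lit 18) (.e (nat_lit 2797) (nat_lit 180) (.e (nat_lit 303133) (nat_lit 9) .nil))))) (.g (nat_lit 0) (.e (nat_lit 120324) (nat_lit 0) .nil) .nil)))) (.nd (nat_lit 9) 
(.lf (nat_lit 482729) (.g (nat_lit 2490) (.e (nat_lit 7586) (nat_lit 406) (.e (nat_lit 65571) (nat_lit 3) (.e (nat_lit 98350) (nat_lit 24) (.e (nat_lit 417536) (nat_lit 16) .nil)))) (.g (nat_lit 0) (.e (nat_lit 119966) (nat_lit 0) .nil) .nil))) 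
(.lf (nat_lit 483241) (.g (nat_lit 3738) (.e (nat_lit 6252) (nat_lit 337) (.e (nat_lit 2630) (nat_lit 164) (.e (nat_lit 172062) (nat_lit 2) (.e (nat_lit 196666) (nat_lit 13) (.e (nat_lit 65617) (nat_lit 10) (.e (nat_lit 344133) (nat_lit 26) (.e (nat_lit 557089) (nat_lit 12) (.e (nat_lit 163844) (nat_lit 0) .nil)))))))) (.g (nat_lit 1) (.e (nat_lit 121975) (nat_lit 0) .nil) .nil)))))) 
(.nd (nat_lit 7) (.nd (nat_lit 8) (.nd (nat_lit 9) 
(.lf (nat_lit 482409) (.g (nat_lit 4459) (.e (nat_lit 7376) (nat_lit 389) (.e (nat_lit 8320) (nat_lit 64) (.e (nat_lit 516117) (nat_lit 1) (.e (nat_lit 164329) (nat_lit 230) (.e (nat_lit 163902) (nat_lit 12) (.e (nat_lit 426568) (nat_lit 34) (.e (nat_lit 393234) (nat_lit 17) .nil))))))) (.g (nat_lit 1) (.e (nat_lit 119363) (nat_lit 0) .nil) .nil))) 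
(.lf (nat_lit 482921) (.g (nat_lit 1727) (.e (nat_lit 7593) (nat_lit 407) (.e (nat_lit 73754) (nat_lit 8) (.e (nat_lit 557086) (nat_lit 11) (.e (nat_lit 24627) (nat_lit 9) (.e (nat_lit 336019) (nat_lit 3) (.e (nat_lit 98320) (nat_lit 17) .nil)))))) (.g (nat_lit 1) (.e (nat_lit 120253) (nat_lit 0) .nil) .nil)))) (.nd (nat_lit 9) 
(.lf (nat_lit 482665) (.g (nat_lit 2550) (.e (nat_lit 7936) (nat_lit 402) (.e (nat_lit 1632) (nat_lit 114) (.e (nat_lit 385074) (nat_lit 31) (.e (nat_lit 573485) (nat_lit 13) (.e (nat_lit 65619) (nat_lit 10) .nil))))) (.g (nat_lit 0) (.e (nat_lit 119829) (nat_lit 0) .nil) .nil))) 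
(.lf (nat_lit 483177) (.g (nat_lit 1567) (.e (nat_lit 6203) (nat_lit 332) (.e (nat_lit 2798) (nat_lit 180) (.e (nat_lit 303119) (nat_lit 3) (.e (nat_lit 204845) (nat_lit 24) .nil)))) (.g (nat_lit 0) (.e (nat_lit 121450) (nat_lit 0) .nil) .nil))))) (.nd (nat_lit 8) (.nd (nat_lit 9) 
(.lf (nat_lit 482537) (.g (nat_lit 2377) (.e (nat_lit 7490) (nat_lit 402) (.e (nat_lit 1239) (nat_lit 91) (.e (nat_lit 90170) (nat_lit 13) (.e (nat_lit 172113) (nat_lit 10) (.e (nat_lit 434245) (nat_lit 28) (.e (nat_lit 573458) (nat_lit 9) (.e (nat_lit 426) (nat_lit 32) (.e (nat_lit 426003) (nat_lit 0) .nil)))))))) (.g (nat_lit 1) (.e (nat_lit 119679) (nat_lit 0) .nil) .nil))) 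
(.lf (nat_lit 483049) (.g (nat_lit 1789) (.e (nat_lit 7710) (nat_lit 414) (.e (nat_lit 163874) (nat_lit 3) (.e (nat_lit 204863) (nat_lit 27) (.e (nat_lit 344132) (nat_lit 26) .nil)))) (.g (nat_lit 0) (.e (nat_lit 120687) (nat_lit 0) .nil) .nil)))) (.nd (nat_lit 9) 
(.lf (nat_lit 482793) (.g (nat_lit 1189) (.e (nat_lit 7936) (nat_lit 406) (.e (nat_lit 65578) (nat_lit 6) (.e (nat_lit 147492) (nat_lit 11) (.e (nat_lit 24657) (nat_lit 13) (.e (nat_lit 393249) (nat_lit 17) .nil))))) (.g (nat_lit 0) (.e (nat_lit 120061) (nat_lit 0) .nil) .nil))) 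
(.lf (nat_lit 483305) (.g (nat_lit 5389) (.e (nat_lit 6255) (nat_lit 337) (.e (nat_lit 2630) (nat_lit 164) (.e (nat_lit 172066) (nat_lit 3) (.e (nat_lit 204869) (nat_lit 29) (.e (nat_lit 360475) (nat_lit 8) (.e (nat_lit 557091) (nat_lit 12) (.e (nat_lit 163844) (nat_lit 0) .nil))))))) (.g (nat_lit 1) (.e (nat_lit 122310) (nat_lit 0) .nil) .nil)))))))) 
(.nd (nat_lit 5) (.nd (nat_lit 6) (.nd (nat_lit 7) (.nd (nat_lit 8) (.nd (nat_lit 9) 
(.lf (nat_lit 482329) (.g (nat_lit 3832) (.e (nat_lit 7265) (nat_lit 384) (.e (nat_lit 57431) (nat_lit 16) (.e (nat_lit 368676) (nat_lit 21) (.e (nat_lit 516165) (nat_lit 12) (.e (nat_lit 450586) (nat_lit 10) (.e (nat_lit 573473) (nat_lit 12) (.e (nat_lit 57348) (nat_lit 0) .nil))))))) (.g (nat_lit 1) (.e (nat_lit 118989) (nat_lit 0) .nil) .nil))) 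
(.lf (nat_lit 482841) (.g (nat_lit 691) (.e (nat_lit 7591) (nat_lit 407) (.e (nat_lit 73747) (nat_lit 3) (.e (nat_lit 516138) (nat_lit 7) .nil))) (.g (nat_lit 0) (.e (nat_lit 120114) (nat_lit 0) .nil) .nil)))) (.nd (nat_lit 9) 
(.lf (nat_lit 482585) (.g (nat_lit 2326) (.e (nat_lit 7537) (nat_lit 402) (.e (nat_lit 1638) (nat_lit 114) (.e (nat_lit 385074) (nat_lit 31) (.e (nat_lit 573491) (nat_lit 15) .nil)))) (.g (nat_lit 0) (.e (nat_lit 119741) (nat_lit 0) .nil) .nil))) 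
(.lf (nat_lit 483097) (.g (nat_lit 5065) (.e (nat_lit 6058) (nat_lit 327) (.e (nat_lit 8213) (nat_lit 9) (.e (nat_lit 303119) (nat_lit 3) (.e (nat_lit 204869) (nat_lit 29) (.e (nat_lit 360475) (nat_lit 8) (.e (nat_lit 557089) (nat_lit 12) (.e (nat_lit 163844) (nat_lit 0) .nil))))))) (.g (nat_lit 1) (.e (nat_lit 120829) (nat_lit 0) .nil) .nil))))) (.nd (nat_lit 8) (.nd (nat_lit 9) 
(.lf (nat_lit 482457) (.g (nat_lit 511) (.e (nat_lit 7936) (nat_lit 390) (.e (nat_lit 24665) (nat_lit 14) (.e (nat_lit 401448) (nat_lit 10) .nil))) (.g (nat_lit 0) (.e (nat_lit 119474) (nat_lit 0) .nil) .nil))) 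
(.lf (nat_lit 482969) (.g (nat_lit 957) (.e (nat_lit 7936) (nat_lit 407) (.e (nat_lit 73746) (nat_lit 3) (.e (nat_lit 516098) (nat_lit 0) (.e (nat_lit 7593) (nat_lit 407) .nil)))) (.g (nat_lit 0) (.e (nat_lit 120304) (nat_lit 0) .nil) .nil)))) (.nd (nat_lit 9) 
(.lf (nat_lit 482713) (.g (nat_lit 861) (.e (nat_lit 7585) (nat_lit 406) (.e (nat_lit 65571) (nat_lit 3) (.e (nat_lit 98350) (nat_lit 24) .nil))) (.g (nat_lit 0) (.e (nat_lit 119950) (nat_lit 0) .nil) .nil))) 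
(.lf (nat_lit 483225) (.g (nat_lit 2098) (.e (nat_lit 6206) (nat_lit 333) (.e (nat_lit 57883) (nat_lit 270) (.e (nat_lit 174) (nat_lit 12) (.e (nat_lit 204876) (nat_lit 31) (.e (nat_lit 376842) (nat_lit 11) (.e (nat_lit 426413) (nat_lit 15) .nil)))))) (.g (nat_lit 1) (.e (nat_lit 121879) (nat_lit 0) .nil) .nil)))))) (.nd (nat_lit 7) (.nd (nat_lit 8) (.nd (nat_lit 9) 
(.lf (nat_lit 482393) (.g (nat_lit 1930) (.e (nat_lit 7366) (nat_lit 388) (.e (nat_lit 2663) (nat_lit 167) (.e (nat_lit 196666) (nat_lit 13) (.e (nat_lit 65617) (nat_lit 10) (.e (nat_lit 344127) (nat_lit 26) .nil))))) (.g (nat_lit 0) (.e (nat_lit 119193) (nat_lit 0) .nil) .nil))) 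
(.lf (nat_lit 482905) (.g (nat_lit 2186) (.e (nat_lit 7593) (nat_lit 407) (.e (nat_lit 73746) (nat_lit 3) (.e (nat_lit 516185) (nat_lit 16) (.e (nat_lit 491552) (nat_lit 9) (.e (nat_lit 336022) (nat_lit 3) (.e (nat_lit 98320) (nat_lit 17) .nil)))))) (.g (nat_lit 1) (.e (nat_lit 120237) (nat_lit 0) .nil) .nil)))) (.nd (nat_lit 9) 
(.lf (nat_lit 482649) (.g (nat_lit 1951) (.e (nat_lit 7936) (nat_lit 402) (.e (nat_lit 1239) (nat_lit 91) (.e (nat_lit 90170) (nat_lit 13) (.e (nat_lit 172106) (nat_lit 10) (.e (nat_lit 434244) (nat_lit 28) .nil))))) (.g (nat_lit 0) (.e (nat_lit 119811) (nat_lit 0) .nil) .nil))) 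
(.lf (nat_lit 483161) (.g (nat_lit 1174) (.e (nat_lit 6202) (nat_lit 332) (.e (nat_lit 2798) (nat_lit 180) (.e (nat_lit 303145) (nat_lit 13) (.e (nat_lit 483405) (nat_lit 26) .nil)))) (.g (nat_lit 0) (.e (nat_lit 121359) (nat_lit 0) .nil) .nil))))) (.nd (nat_lit 8) (.nd (nat_lit 9) 
(.lf (nat_lit 482521) (.g (nat_lit 2736) (.e (nat_lit 7486) (nat_lit 402) (.e (nat_lit 1239) (nat_lit 91) (.e (nat_lit 90170) (nat_lit 13) (.e (nat_lit 172113) (nat_lit 10) (.e (nat_lit 434247) (nat_lit 28) .nil))))) (.g (nat_lit 0) (.e (nat_lit 119662) (nat_lit 0) .nil) .nil))) 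
(.lf (nat_lit 483033) (.g (nat_lit 2395) (.e (nat_lit 7708) (nat_lit 414) (.e (nat_lit 163875) (nat_lit 3) (.e (nat_lit 204862) (nat_lit 27) (.e (nat_lit 344129) (nat_lit 26) (.e (nat_lit 557097) (nat_lit 13) .nil))))) (.g (nat_lit 0) (.e (nat_lit 120594) (nat_lit 0) .nil) .nil)))) (.nd (nat_lit 9) 
(.lf (nat_lit 482777) (.g (nat_lit 1526) (.e (nat_lit 7589) (nat_lit 406) (.e (nat_lit 65578) (nat_lit 6) (.e (nat_lit 147494) (nat_lit 11) (.e (nat_lit 24657) (nat_lit 13) (.e (nat_lit 401152) (nat_lit 17) .nil))))) (.g (nat_lit 1) (.e (nat_lit 120041) (nat_lit 0) .nil) .nil))) 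
(.lf (nat_lit 483289) (.g (nat_lit 4529) (.e (nat_lit 6254) (nat_lit 337) (.e (nat_lit 2725) (nat_lit 172) (.e (nat_lit 237589) (nat_lit 2) (.e (nat_lit 196666) (nat_lit 13) (.e (nat_lit 65617) (nat_lit 10) (.e (nat_lit 344133) (nat_lit 26) (.e (nat_lit 557089) (nat_lit 12) (.e (nat_lit 163849) (nat_lit 0) .nil)))))))) (.g (nat_lit 1) (.e (nat_lit 122284) (nat_lit 0) .nil) .nil))))))) 
(.nd (nat_lit 6) (.nd (nat_lit 7) (.nd (nat_lit 8) (.nd (nat_lit 9) 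
(.lf (nat_lit 482361) (.g (nat_lit 6469) (.e (nat_lit 7266) (nat_lit 384) (.e (nat_lit 57430) (nat_lit 16) (.e (nat_lit 368676) (nat_lit 21) (.e (nat_lit 516166) (nat_lit 12) (.e (nat_lit 450588) (nat_lit 10) (.e (nat_lit 573475) (nat_lit 12) (.e (nat_lit 57348) (nat_lit 0) .nil))))))) (.g (nat_lit 1) (.e (nat_lit 119023) (nat_lit 0) .nil) .nil))) 
(.lf (nat_lit 482873) (.g (nat_lit 2225) (.e (nat_lit 7591) (nat_lit 407) (.e (nat_lit 73775) (nat_lit 26) (.e (nat_lit 778465) (nat_lit 11) (.e (nat_lit 24623) (nat_lit 9) (.e (nat_lit 336400) (nat_lit 27) (.e (nat_lit 426009) (nat_lit 0) .nil)))))) (.g (nat_lit 1) (.e (nat_lit 120146) (nat_lit 0) .nil) .nil)))) (.nd (nat_lit 9) 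
(.lf (nat_lit 482617) (.g (nat_lit 1001) (.e (nat_lit 7557) (nat_lit 402) (.e (nat_lit 1235) (nat_lit 91) (.e (nat_lit 90176) (nat_lit 15) (.e (nat_lit 188439) (nat_lit 20) .nil)))) (.g (nat_lit 0) (.e (nat_lit 119778) (nat_lit 0) .nil) .nil))) 
(.lf (nat_lit 483129) (.g (nat_lit 2453) (.e (nat_lit 6113) (nat_lit 332) (.e (nat_lit 1361) (nat_lit 102) (.e (nat_lit 286735) (nat_lit 3) (.e (nat_lit 98367) (nat_lit 27) (.e (nat_lit 442112) (nat_lit 8) (.e (nat_lit 2679) (nat_lit 168) (.e (nat_lit 204819) (nat_lit 17) .nil))))))) (.g (nat_lit 1) (.e (nat_lit 121234) (nat_lit 0) .nil) .nil))))) (.nd (nat_lit 8) (.nd (nat_lit 9) 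
(.lf (nat_lit 482489) (.g (nat_lit 2532) (.e (nat_lit 7936) (nat_lit 392) (.e (nat_lit 172133) (nat_lit 15) (.e (nat_lit 2059) (nat_lit 142) (.e (nat_lit 704595) (nat_lit 5) (.e (nat_lit 188160) (nat_lit 36) .nil))))) (.g (nat_lit 0) (.e (nat_lit 119564) (nat_lit 0) .nil) .nil))) 
(.lf (nat_lit 483001) (.g (nat_lit 1083) (.e (nat_lit 7607) (nat_lit 410) (.e (nat_lit 2630) (nat_lit 164) (.e (nat_lit 172113) (nat_lit 10) (.e (nat_lit 434241) (nat_lit 27) .nil)))) (.g (nat_lit 0) (.e (nat_lit 120356) (nat_lit 0) .nil) .nil)))) (.nd (nat_lit 9) 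
(.lf (nat_lit 482745) (.g (nat_lit 1454) (.e (nat_lit 7587) (nat_lit 406) (.e (nat_lit 65580) (nat_lit 6) (.e (nat_lit 147494) (nat_lit 11) (.e (nat_lit 24657) (nat_lit 13) (.e (nat_lit 393231) (nat_lit 17) .nil))))) (.g (nat_lit 1) (.e (nat_lit 119992) (nat_lit 0) .nil) .nil))) 
(.lf (nat_lit 483257) (.g (nat_lit 4982) (.e (nat_lit 6252) (nat_lit 337) (.e (nat_lit 2641) (nat_lit 165) (.e (nat_lit 180244) (nat_lit 5) (.e (nat_lit 532550) (nat_lit 12) (.e (nat_lit 360475) (nat_lit 8) (.e (nat_lit 557089) (nat_lit 12) (.e (nat_lit 163849) (nat_lit 0) .nil))))))) (.g (nat_lit 1) (.e (nat_lit 122094) (nat_lit 0) .nil) .nil)))))) 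
(.nd (nat_lit 7) (.nd (nat_lit 8) (.nd (nat_lit 9) 
(.lf (nat_lit 482425) (.g (nat_lit 1114) (.e (nat_lit 7377) (nat_lit 390) (.e (nat_lit 24665) (nat_lit 14) (.e (nat_lit 401444) (nat_lit 9) .nil))) (.g (nat_lit 0) (.e (nat_lit 119382) (nat_lit 0) .nil) .nil))) 
(.lf (nat_lit 482937) (.g (nat_lit 4291) (.e (nat_lit 7593) (nat_lit 407) (.e (nat_lit 73775) (nat_lit 26) (.e (nat_lit 778465) (nat_lit 11) (.e (nat_lit 24623) (nat_lit 9) (.e (nat_lit 336389) (nat_lit 27) (.e (nat_lit 426012) (nat_lit 0) .nil)))))) (.g (nat_lit 1) (.e (nat_lit 120269) (nat_lit 0) .nil) .nil)))) (.nd (nat_lit 9) 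
(.lf (nat_lit 482681) (.g (nat_lit 1757) (.e (nat_lit 7581) (nat_lit 405) (.e (nat_lit 57464) (nat_lit 23) (.e (nat_lit 516151) (nat_lit 9) (.e (nat_lit 426286) (nat_lit 10) (.e (nat_lit 434242) (nat_lit 28) .nil))))) (.g (nat_lit 0) (.e (nat_lit 119904) (nat_lit 0) .nil) .nil))) 
(.lf (nat_lit 483193) (.g (nat_lit 2443) (.e (nat_lit 6203) (nat_lit 332) (.e (nat_lit 2798) (nat_lit 180) (.e (nat_lit 303133) (nat_lit 9) (.e (nat_lit 426499) (nat_lit 27) (.e (nat_lit 336091) (nat_lit 9) (.e (nat_lit 336030) (nat_lit 4) (.e (nat_lit 123195) (nat_lit 266) (.e (nat_lit 57346) (nat_lit 0) .nil)))))))) (.g (nat_lit 1) (.e (nat_lit 121481) (nat_lit 0) .nil) .nil))))) 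
(.nd (nat_lit 8) (.nd (nat_lit 9) 
(.lf (nat_lit 482553) (.g (nat_lit 2929) (.e (nat_lit 7493) (nat_lit 402) (.e (nat_lit 1454) (nat_lit 108) (.e (nat_lit 336295) (nat_lit 15) (.e (nat_lit 3305) (nat_lit 202) (.e (nat_lit 573482) (nat_lit 13) .nil))))) (.g (nat_lit 0) (.e (nat_lit 119698) (nat_lit 0) .nil) .nil))) 
(.lf (nat_lit 483065) (.g (nat_lit 894) (.e (nat_lit 7710) (nat_lit 414) (.e (nat_lit 163908) (nat_lit 12) (.e (nat_lit 426286) (nat_lit 10) (.e (nat_lit 434229) (nat_lit 22) .nil)))) (.g (nat_lit 0) (.e (nat_lit 120710) (nat_lit 0) .nil) .nil)))) (.nd (nat_lit 9) 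
(.lf (nat_lit 482809) (.g (nat_lit 3153) (.e (nat_lit 7590) (nat_lit 407) (.e (nat_lit 73747) (nat_lit 3) (.e (nat_lit 516139) (nat_lit 7) (.e (nat_lit 409641) (nat_lit 17) (.e (nat_lit 294927) (nat_lit 2) .nil))))) (.g (nat_lit 0) (.e (nat_lit 120080) (nat_lit 0) .nil) .nil))) 
(.lf (nat_lit 483321) (.g (nat_lit 4299) (.e (nat_lit 6255) (nat_lit 337) (.e (nat_lit 2643) (nat_lit 165) (.e (nat_lit 180243) (nat_lit 5) (.e (nat_lit 532549) (nat_lit 12) (.e (nat_lit 360473) (nat_lit 8) (.e (nat_lit 557091) (nat_lit 12) (.e (nat_lit 163847) (nat_lit 0) .nil))))))) (.g (nat_lit 1) (.e (nat_lit 122450) (nat_lit 0) .nil) .nil)))))))))) 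
(.nd (nat_lit 3) (.nd (nat_lit 4) (.nd (nat_lit 5) (.nd (nat_lit 6) (.nd (nat_lit 7) 
(.nd (nat_lit 8) (.nd (nat_lit 9) 
(.lf (nat_lit 482309) (.g (nat_lit 4570) (.e (nat_lit 7265) (nat_lit 384) (.e (nat_lit 57412) (nat_lit 12) (.e (nat_lit 336001) (nat_lit 2) (.e (nat_lit 90170) (nat_lit 13) (.e (nat_lit 172106) (nat_lit 10) (.e (nat_lit 434244) (nat_lit 28) (.e (nat_lit 573473) (nat_lit 12) (.e (nat_lit 57348) (nat_lit 0) .nil)))))))) (.g (nat_lit 1) (.e (nat_lit 118969) (nat_lit 0) .nil) .nil))) 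
(.lf (nat_lit 482821) (.g (nat_lit 3425) (.e (nat_lit 7590) (nat_lit 407) (.e (nat_lit 73753) (nat_lit 8) (.e (nat_lit 557087) (nat_lit 11) (.e (nat_lit 24640) (nat_lit 10) (.e (nat_lit 344107) (nat_lit 19) .nil))))) (.g (nat_lit 0) (.e (nat_lit 120092) (nat_lit 0) .nil) .nil)))) (.nd (nat_lit 9) 
(.lf (nat_lit 482565) (.g (nat_lit 2315) (.e (nat_lit 7511) (nat_lit 402) (.e (nat_lit 1638) (nat_lit 114) (.e (nat_lit 385074) (nat_lit 31) (.e (nat_lit 573485) (nat_lit 13) (.e (nat_lit 65619) (nat_lit 10) .nil))))) (.g (nat_lit 0) (.e (nat_lit 119718) (nat_lit 0) .nil) .nil))) 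
(.lf (nat_lit 483077) (.g (nat_lit 4512) (.e (nat_lit 7695) (nat_lit 412) (.e (nat_lit 57367) (nat_lit 1) (.e (nat_lit 57847) (nat_lit 252) (.e (nat_lit 57407) (nat_lit 12) (.e (nat_lit 336316) (nat_lit 17) (.e (nat_lit 196666) (nat_lit 13) (.e (nat_lit 65617) (nat_lit 10) (.e (nat_lit 344096) (nat_lit 18) .nil)))))))) (.g (nat_lit 1) (.e (nat_lit 120788) (nat_lit 0) .nil) .nil))))) 
(.nd (nat_lit 8) (.nd (nat_lit 9) 
(.lf (nat_lit 482437) (.g (nat_lit 2375) (.e (nat_lit 7378) (nat_lit 390) (.e (nat_lit 24664) (nat_lit 14) (.e (nat_lit 401448) (nat_lit 10) (.e (nat_lit 434289) (nat_lit 43) .nil)))) (.g (nat_lit 0) (.e (nat_lit 119412) (nat_lit 0) .nil) .nil))) 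
(.lf (nat_lit 482949) (.g (nat_lit 2079) (.e (nat_lit 7593) (nat_lit 407) (.e (nat_lit 73775) (nat_lit 26) (.e (nat_lit 778465) (nat_lit 11) (.e (nat_lit 24638) (nat_lit 9) (.e (nat_lit 336387) (nat_lit 27) (.e (nat_lit 426011) (nat_lit 0) .nil)))))) (.g (nat_lit 1) (.e (nat_lit 120281) (nat_lit 0) .nil) .nil)))) (.nd (nat_lit 9) 
(.lf (nat_lit 482693) (.g (nat_lit 3205) (.e (nat_lit 7581) (nat_lit 405) (.e (nat_lit 57464) (nat_lit 23) (.e (nat_lit 516165) (nat_lit 12) (.e (nat_lit 450588) (nat_lit 10) (.e (nat_lit 573452) (nat_lit 9) (.e (nat_lit 430) (nat_lit 32) (.e (nat_lit 426010) (nat_lit 0) .nil))))))) (.g (nat_lit 1) (.e (nat_lit 119916) (nat_lit 0) .nil) .nil))) 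
(.lf (nat_lit 483205) (.g (nat_lit 1617) (.e (nat_lit 6203) (nat_lit 332) (.e (nat_lit 2798) (nat_lit 180) (.e (nat_lit 303145) (nat_lit 13) (.e (nat_lit 483376) (nat_lit 22) .nil)))) (.g (nat_lit 0) (.e (nat_lit 121500) (nat_lit 0) .nil) .nil)))))) (.nd (nat_lit 7) (.nd (nat_lit 8) (.nd (nat_lit 9) 
(.lf (nat_lit 482373) (.g (nat_lit 4067) (.e (nat_lit 7270) (nat_lit 385) (.e (nat_lit 122906) (nat_lit 12) (.e (nat_lit 336001) (nat_lit 2) (.e (nat_lit 90170) (nat_lit 13) (.e (nat_lit 172113) (nat_lit 10) (.e (nat_lit 434248) (nat_lit 28) (.e (nat_lit 573473) (nat_lit 12) (.e (nat_lit 57354) (nat_lit 0) .nil)))))))) (.g (nat_lit 1) (.e (nat_lit 119035) (nat_lit 0) .nil) .nil))) 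
(.lf (nat_lit 482885) (.g (nat_lit 1545) (.e (nat_lit 7592) (nat_lit 407) (.e (nat_lit 73775) (nat_lit 26) (.e (nat_lit 778465) (nat_lit 11) (.e (nat_lit 24657) (nat_lit 13) (.e (nat_lit 401152) (nat_lit 17) .nil))))) (.g (nat_lit 1) (.e (nat_lit 120208) (nat_lit 0) .nil) .nil)))) (.nd (nat_lit 9) 
(.lf (nat_lit 482629) (.g (nat_lit 3039) (.e (nat_lit 7562) (nat_lit 402) (.e (nat_lit 1235) (nat_lit 91) (.e (nat_lit 90170) (nat_lit 13) (.e (nat_lit 172113) (nat_lit 10) (.e (nat_lit 434248) (nat_lit 28) (.e (nat_lit 573452) (nat_lit 9) (.e (nat_lit 430) (nat_lit 32) (.e (nat_lit 426031) (nat_lit 0) .nil)))))))) (.g (nat_lit 1) (.e (nat_lit 119790) (nat_lit 0) .nil) .nil))) 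
(.lf (nat_lit 483141) (.g (nat_lit 5015) (.e (nat_lit 6202) (nat_lit 332) (.e (nat_lit 2797) (nat_lit 180) (.e (nat_lit 303117) (nat_lit 2) (.e (nat_lit 196665) (nat_lit 13) (.e (nat_lit 65628) (nat_lit 14) (.e (nat_lit 401425) (nat_lit 2) (.e (nat_lit 196628) (nat_lit 9) (.e (nat_lit 970) (nat_lit 81) .nil)))))))) (.g (nat_lit 1) (.e (nat_lit 121299) (nat_lit 0) .nil) .nil))))) 
(.nd (nat_lit 8) (.nd (nat_lit 9) 
(.lf (nat_lit 482501) (.g (nat_lit 479) (.e (nat_lit 7936) (nat_lit 393) (.e (nat_lit 180243) (nat_lit 5) (.e (nat_lit 532522) (nat_lit 7) .nil))) (.g (nat_lit 0) (.e (nat_lit 119593) (nat_lit 0) .nil) .nil))) 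
(.lf (nat_lit 483013) (.g (nat_lit 2226) (.e (nat_lit 7685) (nat_lit 410) (.e (nat_lit 2649) (nat_lit 166) (.e (nat_lit 188434) (nat_lit 20) (.e (nat_lit 3289) (nat_lit 201) (.e (nat_lit 565252) (nat_lit 0) (.e (nat_lit 1589) (nat_lit 111) (.e (nat_lit 368384) (nat_lit 0) .nil))))))) (.g (nat_lit 1) (.e (nat_lit 120514) (nat_lit 0) .nil) .nil)))) (.nd (nat_lit 9) 
(.lf (nat_lit 482757) (.g (nat_lit 2374) (.e (nat_lit 7587) (nat_lit 406) (.e (nat_lit 65653) (nat_lit 27) (.e (nat_lit 426341) (nat_lit 14) (.e (nat_lit 491571) (nat_lit 13) (.e (nat_lit 393231) (nat_lit 17) .nil))))) (.g (nat_lit 1) (.e (nat_lit 120005) (nat_lit 0) .nil) .nil))) 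
(.lf (nat_lit 483269) (.g (nat_lit 5798) (.e (nat_lit 6254) (nat_lit 337) (.e (nat_lit 2630) (nat_lit 164) (.e (nat_lit 172066) (nat_lit 3) (.e (nat_lit 204869) (nat_lit 29) (.e (nat_lit 360475) (nat_lit 8) (.e (nat_lit 557091) (nat_lit 12) (.e (nat_lit 163843) (nat_lit 0) .nil))))))) (.g (nat_lit 1) (.e (nat_lit 122159) (nat_lit 0) .nil) .nil))))))) 
(.nd (nat_lit 6) (.nd (nat_lit 7) (.nd (nat_lit 8) (.nd (nat_lit 9) 
(.lf (nat_lit 482341) (.g (nat_lit 1641) (.e (nat_lit 7266) (nat_lit 384) (.e (nat_lit 57406) (nat_lit 12) (.e (nat_lit 336019) (nat_lit 3) (.e (nat_lit 98372) (nat_lit 29) .nil)))) (.g (nat_lit 0) (.e (nat_lit 119001) (nat_lit 0) .nil) .nil))) 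
(.lf (nat_lit 482853) (.g (nat_lit 3666) (.e (nat_lit 7591) (nat_lit 407) (.e (nat_lit 73748) (nat_lit 3) (.e (nat_lit 516102) (nat_lit 0) (.e (nat_lit 6989) (nat_lit 377) (.e (nat_lit 2777) (nat_lit 178) (.e (nat_lit 286735) (nat_lit 3) (.e (nat_lit 98320) (nat_lit 17) .nil))))))) (.g (nat_lit 1) (.e (nat_lit 120126) (nat_lit 0) .nil) .nil)))) (.nd (nat_lit 9) 
(.lf (nat_lit 482597) (.g (nat_lit 358) (.e (nat_lit 7554) (nat_lit 402) (.e (nat_lit 1428) (nat_lit 108) (.e (nat_lit 336421) (nat_lit 28) .nil))) (.g (nat_lit 0) (.e (nat_lit 119756) (nat_lit 0) .nil) .nil))) 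
(.lf (nat_lit 483109) (.g (nat_lit 3136) (.e (nat_lit 6112) (nat_lit 332) (.e (nat_lit 2406) (nat_lit 157) (.e (nat_lit 5259) (nat_lit 298) (.e (nat_lit 496) (nat_lit 39) (.e (nat_lit 483364) (nat_lit 18) (.e (nat_lit 57854) (nat_lit 252) (.e (nat_lit 57378) (nat_lit 3) (.e (nat_lit 98309) (nat_lit 0) .nil)))))))) (.g (nat_lit 1) (.e (nat_lit 121125) (nat_lit 0) .nil) .nil))))) 
(.nd (nat_lit 8) (.nd (nat_lit 9) 
(.lf (nat_lit 482469) (.g (nat_lit 1601) (.e (nat_lit 7386) (nat_lit 392) (.e (nat_lit 172067) (nat_lit 3) (.e (nat_lit 204846) (nat_lit 24) (.e (nat_lit 319534) (nat_lit 16) .nil)))) (.g (nat_lit 0) (.e (nat_lit 119534) (nat_lit 0) .nil) .nil))) 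
(.lf (nat_lit 482981) (.g (nat_lit 2023) (.e (nat_lit 7936) (nat_lit 407) (.e (nat_lit 73753) (nat_lit 8) (.e (nat_lit 557087) (nat_lit 11) (.e (nat_lit 24625) (nat_lit 9) (.e (nat_lit 335971) (nat_lit 0) .nil))))) (.g (nat_lit 0) (.e (nat_lit 120316) (nat_lit 0) .nil) .nil)))) (.nd (nat_lit 9) 
(.lf (nat_lit 482725) (.g (nat_lit 2988) (.e (nat_lit 7586) (nat_lit 406) (.e (nat_lit 65571) (nat_lit 3) (.e (nat_lit 98350) (nat_lit 24) (.e (nat_lit 409616) (nat_lit 10) (.e (nat_lit 5355) (nat_lit 298) .nil))))) (.g (nat_lit 0) (.e (nat_lit 119962) (nat_lit 0) .nil) .nil))) 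
(.lf (nat_lit 483237) (.g (nat_lit 650) (.e (nat_lit 6250) (nat_lit 337) (.e (nat_lit 2725) (nat_lit 172) (.e (nat_lit 237593) (nat_lit 3) .nil))) (.g (nat_lit 0) (.e (nat_lit 121962) (nat_lit 0) .nil) .nil)))))) (.nd (nat_lit 7) (.nd (nat_lit 8) (.nd (nat_lit 9) 
(.lf (nat_lit 482405) (.g (nat_lit 1850) (.e (nat_lit 7936) (nat_lit 388) (.e (nat_lit 2685) (nat_lit 168) (.e (nat_lit 204846) (nat_lit 24) (.e (nat_lit 319531) (nat_lit 16) (.e (nat_lit 286733) (nat_lit 2) .nil))))) (.g (nat_lit 0) (.e (nat_lit 119299) (nat_lit 0) .nil) .nil))) 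
(.lf (nat_lit 482917) (.g (nat_lit 3302) (.e (nat_lit 7593) (nat_lit 407) (.e (nat_lit 73753) (nat_lit 8) (.e (nat_lit 557087) (nat_lit 11) (.e (nat_lit 24625) (nat_lit 9) (.e (nat_lit 336019) (nat_lit 3) (.e (nat_lit 98320) (nat_lit 17) .nil)))))) (.g (nat_lit 1) (.e (nat_lit 120249) (nat_lit 0) .nil) .nil)))) (.nd (nat_lit 9) 
(.lf (nat_lit 482661) (.g (nat_lit 2656) (.e (nat_lit 7936) (nat_lit 402) (.e (nat_lit 1629) (nat_lit 114) (.e (nat_lit 385074) (nat_lit 31) (.e (nat_lit 573491) (nat_lit 15) (.e (nat_lit 81954) (nat_lit 23) .nil))))) (.g (nat_lit 0) (.e (nat_lit 119824) (nat_lit 0) .nil) .nil))) 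
(.lf (nat_lit 483173) (.g (nat_lit 2880) (.e (nat_lit 6203) (nat_lit 332) (.e (nat_lit 2798) (nat_lit 180) (.e (nat_lit 303117) (nat_lit 2) (.e (nat_lit 196668) (nat_lit 14) (.e (nat_lit 73782) (nat_lit 32) (.e (nat_lit 2682) (nat_lit 168) (.e (nat_lit 204816) (nat_lit 17) .nil))))))) (.g (nat_lit 1) (.e (nat_lit 121439) (nat_lit 0) .nil) .nil))))) (.nd (nat_lit 8) (.nd (nat_lit 9) 
(.lf (nat_lit 482533) (.g (nat_lit 3240) (.e (nat_lit 7489) (nat_lit 402) (.e (nat_lit 1239) (nat_lit 91) (.e (nat_lit 90170) (nat_lit 13) (.e (nat_lit 172113) (nat_lit 10) (.e (nat_lit 434248) (nat_lit 28) (.e (nat_lit 573450) (nat_lit 9) (.e (nat_lit 433) (nat_lit 32) (.e (nat_lit 425984) (nat_lit 0) .nil)))))))) (.g (nat_lit 1) (.e (nat_lit 119674) (nat_lit 0) .nil) .nil))) 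
(.lf (nat_lit 483045) (.g (nat_lit 2783) (.e (nat_lit 7710) (nat_lit 414) (.e (nat_lit 163843) (nat_lit 0) (.e (nat_lit 3605) (nat_lit 225) (.e (nat_lit 761905) (nat_lit 16) (.e (nat_lit 172059) (nat_lit 1) (.e (nat_lit 164185) (nat_lit 155) (.e (nat_lit 122919) (nat_lit 15) (.e (nat_lit 360451) (nat_lit 0) .nil)))))))) (.g (nat_lit 1) (.e (nat_lit 120631) (nat_lit 0) .nil) .nil)))) 
(.nd (nat_lit 9) 
(.lf (nat_lit 482789) (.g (nat_lit 2508) (.e (nat_lit 7589) (nat_lit 406) (.e (nat_lit 65653) (nat_lit 27) (.e (nat_lit 426343) (nat_lit 14) (.e (nat_lit 491570) (nat_lit 13) (.e (nat_lit 393230) (nat_lit 17) .nil))))) (.g (nat_lit 0) (.e (nat_lit 120055) (nat_lit 0) .nil) .nil))) 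
(.lf (nat_lit 483301) (.g (nat_lit 987) (.e (nat_lit 6255) (nat_lit 337) (.e (nat_lit 2630) (nat_lit 164) (.e (nat_lit 172066) (nat_lit 3) (.e (nat_lit 204869) (nat_lit 29) .nil)))) (.g (nat_lit 0) (.e (nat_lit 122306) (nat_lit 0) .nil) .nil)))))))) (.nd (nat_lit 5) (.nd (nat_lit 6) (.nd (nat_lit 7) (.nd (nat_lit 8) (.nd (nat_lit 9) 
(.lf (nat_lit 482325) (.g (nat_lit 6086) (.e (nat_lit 7265) (nat_lit 384) (.e (nat_lit 57430) (nat_lit 16) (.e (nat_lit 368676) (nat_lit 21) (.e (nat_lit 516166) (nat_lit 12) (.e (nat_lit 450588) (nat_lit 10) (.e (nat_lit 573473) (nat_lit 12) (.e (nat_lit 57348) (nat_lit 0) .nil))))))) (.g (nat_lit 1) (.e (nat_lit 118985) (nat_lit 0) .nil) .nil))) 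
(.lf (nat_lit 482837) (.g (nat_lit 385) (.e (nat_lit 7590) (nat_lit 407) (.e (nat_lit 73776) (nat_lit 26) (.e (nat_lit 778466) (nat_lit 11) .nil))) (.g (nat_lit 0) (.e (nat_lit 120108) (nat_lit 0) .nil) .nil)))) (.nd (nat_lit 9) 
(.lf (nat_lit 482581) (.g (nat_lit 2094) (.e (nat_lit 7532) (nat_lit 402) (.e (nat_lit 1638) (nat_lit 114) (.e (nat_lit 385074) (nat_lit 31) (.e (nat_lit 573493) (nat_lit 15) .nil)))) (.g (nat_lit 0) (.e (nat_lit 119736) (nat_lit 0) .nil) .nil))) 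
(.lf (nat_lit 483093) (.g (nat_lit 4144) (.e (nat_lit 7697) (nat_lit 412) (.e (nat_lit 57366) (nat_lit 1) (.e (nat_lit 57854) (nat_lit 252) (.e (nat_lit 57409) (nat_lit 12) (.e (nat_lit 336316) (nat_lit 17) (.e (nat_lit 196666) (nat_lit 13) (.e (nat_lit 65617) (nat_lit 10) (.e (nat_lit 344091) (nat_lit 18) .nil)))))))) (.g (nat_lit 1) (.e (nat_lit 120804) (nat_lit 0) .nil) .nil))))) 
(.nd (nat_lit 8) (.nd (nat_lit 9) 
(.lf (nat_lit 482453) (.g (nat_lit 2579) (.e (nat_lit 7936) (nat_lit 390) (.e (nat_lit 24662) (nat_lit 14) (.e (nat_lit 401459) (nat_lit 13) (.e (nat_lit 483410) (nat_lit 27) (.e (nat_lit 401419) (nat_lit 0) .nil))))) (.g (nat_lit 0) (.e (nat_lit 119462) (nat_lit 0) .nil) .nil))) 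
(.lf (nat_lit 482965) (.g (nat_lit 2098) (.e (nat_lit 7593) (nat_lit 407) (.e (nat_lit 73775) (nat_lit 26) (.e (nat_lit 778466) (nat_lit 11) (.e (nat_lit 24656) (nat_lit 13) (.e (nat_lit 393231) (nat_lit 17) .nil))))) (.g (nat_lit 1) (.e (nat_lit 120298) (nat_lit 0) .nil) .nil)))) (.nd (nat_lit 9) 
(.lf (nat_lit 482709) (.g (nat_lit 4760) (.e (nat_lit 7583) (nat_lit 405) (.e (nat_lit 57464) (nat_lit 23) (.e (nat_lit 516166) (nat_lit 12) (.e (nat_lit 450588) (nat_lit 10) (.e (nat_lit 573469) (nat_lit 11) (.e (nat_lit 16388) (nat_lit 0) .nil)))))) (.g (nat_lit 1) (.e (nat_lit 119938) (nat_lit 0) .nil) .nil))) 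
(.lf (nat_lit 483221) (.g (nat_lit 2425) (.e (nat_lit 6237) (nat_lit 335) (.e (nat_lit 164366) (nat_lit 246) (.e (nat_lit 3090) (nat_lit 191) (.e (nat_lit 483372) (nat_lit 21) (.e (nat_lit 319511) (nat_lit 10) .nil))))) (.g (nat_lit 0) (.e (nat_lit 121741) (nat_lit 0) .nil) .nil)))))) (.nd (nat_lit 7) (.nd (nat_lit 8) (.nd (nat_lit 9) 
(.lf (nat_lit 482389) (.g (nat_lit 3246) (.e (nat_lit 7337) (nat_lit 388) (.e (nat_lit 3067) (nat_lit 190) (.e (nat_lit 475178) (nat_lit 24) (.e (nat_lit 516117) (nat_lit 1) (.e (nat_lit 164329) (nat_lit 230) (.e (nat_lit 163941) (nat_lit 19) (.e (nat_lit 483333) (nat_lit 0) .nil))))))) (.g (nat_lit 1) (.e (nat_lit 119158) (nat_lit 0) .nil) .nil))) 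
(.lf (nat_lit 482901) (.g (nat_lit 1790) (.e (nat_lit 7593) (nat_lit 407) (.e (nat_lit 73746) (nat_lit 3) (.e (nat_lit 516142) (nat_lit 8) (.e (nat_lit 417827) (nat_lit 17) (.e (nat_lit 294931) (nat_lit 3) .nil))))) (.g (nat_lit 0) (.e (nat_lit 120233) (nat_lit 0) .nil) .nil)))) (.nd (nat_lit 9) 
(.lf (nat_lit 482645) (.g (nat_lit 3329) (.e (nat_lit 7545) (nat_lit 402) (.e (nat_lit 1237) (nat_lit 91) (.e (nat_lit 90170) (nat_lit 13) (.e (nat_lit 172113) (nat_lit 10) (.e (nat_lit 434245) (nat_lit 28) .nil))))) (.g (nat_lit 0) (.e (nat_lit 119807) (nat_lit 0) .nil) .nil))) 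
(.lf (nat_lit 483157) (.g (nat_lit 275) (.e (nat_lit 6202) (nat_lit 332) (.e (nat_lit 2798) (nat_lit 180) (.e (nat_lit 303119) (nat_lit 3) .nil))) (.g (nat_lit 0) (.e (nat_lit 121325) (nat_lit 0) .nil) .nil))))) (.nd (nat_lit 8) (.nd (nat_lit 9) 
(.lf (nat_lit 482517) (.g (nat_lit 2574) (.e (nat_lit 7486) (nat_lit 402) (.e (nat_lit 1239) (nat_lit 91) (.e (nat_lit 90170) (nat_lit 13) (.e (nat_lit 172106) (nat_lit 10) (.e (nat_lit 434244) (nat_lit 28) .nil))))) (.g (nat_lit 0) (.e (nat_lit 119658) (nat_lit 0) .nil) .nil))) 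
(.lf (nat_lit 483029) (.g (nat_lit 1707) (.e (nat_lit 7660) (nat_lit 410) (.e (nat_lit 1122) (nat_lit 83) (.e (nat_lit 16448) (nat_lit 10) (.e (nat_lit 434268) (nat_lit 36) (.e (nat_lit 639020) (nat_lit 16) .nil))))) (.g (nat_lit 0) (.e (nat_lit 120538) (nat_lit 0) .nil) .nil)))) (.nd (nat_lit 9) 
(.lf (nat_lit 482773) (.g (nat_lit 3087) (.e (nat_lit 7588) (nat_lit 406) (.e (nat_lit 65653) (nat_lit 27) (.e (nat_lit 426306) (nat_lit 12) (.e (nat_lit 475210) (nat_lit 41) (.e (nat_lit 712745) (nat_lit 27) (.e (nat_lit 425984) (nat_lit 0) .nil)))))) (.g (nat_lit 1) (.e (nat_lit 120035) (nat_lit 0) .nil) .nil))) 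
(.lf (nat_lit 483285) (.g (nat_lit 1296) (.e (nat_lit 6254) (nat_lit 337) (.e (nat_lit 2651) (nat_lit 166) (.e (nat_lit 188434) (nat_lit 20) (.e (nat_lit 3469) (nat_lit 217) .nil)))) (.g (nat_lit 0) (.e (nat_lit 122273) (nat_lit 0) .nil) .nil))))))) (.nd (nat_lit 6) (.nd (nat_lit 7) (.nd (nat_lit 8) (.nd (nat_lit 9) 
(.lf (nat_lit 482357) (.g (nat_lit 5360) (.e (nat_lit 7266) (nat_lit 384) (.e (nat_lit 57430) (nat_lit 16) (.e (nat_lit 368676) (nat_lit 21) (.e (nat_lit 516166) (nat_lit 12) (.e (nat_lit 450587) (nat_lit 10) (.e (nat_lit 573478) (nat_lit 12) (.e (nat_lit 57351) (nat_lit 0) .nil))))))) (.g (nat_lit 1) (.e (nat_lit 119019) (nat_lit 0) .nil) .nil))) 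
(.lf (nat_lit 482869) (.g (nat_lit 1490) (.e (nat_lit 7591) (nat_lit 407) (.e (nat_lit 73775) (nat_lit 26) (.e (nat_lit 778463) (nat_lit 11) (.e (nat_lit 24657) (nat_lit 13) (.e (nat_lit 393231) (nat_lit 17) .nil))))) (.g (nat_lit 1) (.e (nat_lit 120142) (nat_lit 0) .nil) .nil)))) (.nd (nat_lit 9) 
(.lf (nat_lit 482613) (.g (nat_lit 2492) (.e (nat_lit 7556) (nat_lit 402) (.e (nat_lit 1635) (nat_lit 114) (.e (nat_lit 385074) (nat_lit 31) (.e (nat_lit 573482) (nat_lit 13) (.e (nat_lit 65619) (nat_lit 10) .nil))))) (.g (nat_lit 0) (.e (nat_lit 119774) (nat_lit 0) .nil) .nil))) 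
(.lf (nat_lit 483125) (.g (nat_lit 3470) (.e (nat_lit 6113) (nat_lit 332) (.e (nat_lit 1374) (nat_lit 104) (.e (nat_lit 303117) (nat_lit 2) (.e (nat_lit 196661) (nat_lit 12) (.e (nat_lit 57714) (nat_lit 176) (.e (nat_lit 1383) (nat_lit 105) (.e (nat_lit 311315) (nat_lit 3) (.e (nat_lit 204819) (nat_lit 17) .nil)))))))) (.g (nat_lit 1) (.e (nat_lit 121216) (nat_lit 0) .nil) .nil))))) 
(.nd (nat_lit 8) (.nd (nat_lit 9) 
(.lf (nat_lit 482485) (.g (nat_lit 1615) (.e (nat_lit 7936) (nat_lit 392) (.e (nat_lit 172067) (nat_lit 3) (.e (nat_lit 204846) (nat_lit 24) (.e (nat_lit 319533) (nat_lit 16) .nil)))) (.g (nat_lit 0) (.e (nat_lit 119555) (nat_lit 0) .nil) .nil))) 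
(.lf (nat_lit 482997) (.g (nat_lit 1616) (.e (nat_lit 7607) (nat_lit 410) (.e (nat_lit 2630) (nat_lit 164) (.e (nat_lit 172106) (nat_lit 10) (.e (nat_lit 434229) (nat_lit 22) (.e (nat_lit 532224) (nat_lit 29) .nil))))) (.g (nat_lit 0) (.e (nat_lit 120348) (nat_lit 0) .nil) .nil)))) (.nd (nat_lit 9) 
(.lf (nat_lit 482741) (.g (nat_lit 1622) (.e (nat_lit 7587) (nat_lit 406) (.e (nat_lit 65580) (nat_lit 6) (.e (nat_lit 147492) (nat_lit 11) (.e (nat_lit 24657) (nat_lit 13) (.e (nat_lit 393230) (nat_lit 17) .nil))))) (.g (nat_lit 1) (.e (nat_lit 119988) (nat_lit 0) .nil) .nil))) 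
(.lf (nat_lit 483253) (.g (nat_lit 4895) (.e (nat_lit 6252) (nat_lit 337) (.e (nat_lit 2630) (nat_lit 164) (.e (nat_lit 172066) (nat_lit 3) (.e (nat_lit 204869) (nat_lit 29) (.e (nat_lit 360475) (nat_lit 8) (.e (nat_lit 557089) (nat_lit 12) (.e (nat_lit 163848) (nat_lit 0) .nil))))))) (.g (nat_lit 1) (.e (nat_lit 121995) (nat_lit 0) .nil) .nil)))))) 
(.nd (nat_lit 7) (.nd (nat_lit 8) (.nd (nat_lit 9) 
(.lf (nat_lit 482421) (.g (nat_lit 1503) (.e (nat_lit 7377) (nat_lit 390) (.e (nat_lit 24664) (nat_lit 14) (.e (nat_lit 401448) (nat_lit 10) (.e (nat_lit 434291) (nat_lit 44) .nil)))) (.g (nat_lit 0) (.e (nat_lit 119378) (nat_lit 0) .nil) .nil))) 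
(.lf (nat_lit 482933) (.g (nat_lit 2010) (.e (nat_lit 7593) (nat_lit 407) (.e (nat_lit 73775) (nat_lit 26) (.e (nat_lit 778464) (nat_lit 11) (.e (nat_lit 24657) (nat_lit 13) (.e (nat_lit 393231) (nat_lit 17) .nil))))) (.g (nat_lit 1) (.e (nat_lit 120265) (nat_lit 0) .nil) .nil)))) (.nd (nat_lit 9) 
(.lf (nat_lit 482677) (.g (nat_lit 3075) (.e (nat_lit 7577) (nat_lit 404) (.e (nat_lit 16470) (nat_lit 14) (.e (nat_lit 491571) (nat_lit 13) (.e (nat_lit 401152) (nat_lit 1) .nil)))) (.g (nat_lit 0) (.e (nat_lit 119881) (nat_lit 0) .nil) .nil))) 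
(.lf (nat_lit 483189) (.g (nat_lit 1153) (.e (nat_lit 6203) (nat_lit 332) (.e (nat_lit 2798) (nat_lit 180) (.e (nat_lit 303119) (nat_lit 3) (.e (nat_lit 204859) (nat_lit 26) .nil)))) (.g (nat_lit 0) (.e (nat_lit 121471) (nat_lit 0) .nil) .nil))))) (.nd (nat_lit 8) (.nd (nat_lit 9) 
(.lf (nat_lit 482549) (.g (nat_lit 3400) (.e (nat_lit 7495) (nat_lit 402) (.e (nat_lit 1246) (nat_lit 92) (.e (nat_lit 98373) (nat_lit 29) (.e (nat_lit 450588) (nat_lit 10) (.e (nat_lit 573452) (nat_lit 9) .nil))))) (.g (nat_lit 0) (.e (nat_lit 119694) (nat_lit 0) .nil) .nil))) 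
(.lf (nat_lit 483061) (.g (nat_lit 829) (.e (nat_lit 7710) (nat_lit 414) (.e (nat_lit 163905) (nat_lit 12) (.e (nat_lit 426294) (nat_lit 11) (.e (nat_lit 466688) (nat_lit 21) .nil)))) (.g (nat_lit 0) (.e (nat_lit 120705) (nat_lit 0) .nil) .nil)))) (.nd (nat_lit 9) 
(.lf (nat_lit 482805) (.g (nat_lit 2311) (.e (nat_lit 7590) (nat_lit 407) (.e (nat_lit 73747) (nat_lit 3) (.e (nat_lit 516139) (nat_lit 7) (.e (nat_lit 409617) (nat_lit 10) (.e (nat_lit 5355) (nat_lit 298) (.e (nat_lit 1234) (nat_lit 91) (.e (nat_lit 90133) (nat_lit 9) (.e (nat_lit 2397) (nat_lit 157) .nil)))))))) (.g (nat_lit 1) (.e (nat_lit 120076) (nat_lit 0) .nil) .nil))) 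
(.lf (nat_lit 483317) (.g (nat_lit 4591) (.e (nat_lit 6255) (nat_lit 337) (.e (nat_lit 2641) (nat_lit 165) (.e (nat_lit 180244) (nat_lit 5) (.e (nat_lit 532550) (nat_lit 12) (.e (nat_lit 360474) (nat_lit 8) (.e (nat_lit 557094) (nat_lit 12) (.e (nat_lit 163847) (nat_lit 0) .nil))))))) (.g (nat_lit 1) (.e (nat_lit 122443) (nat_lit 0) .nil) .nil))))))))) 
(.nd (nat_lit 4) (.nd (nat_lit 5) (.nd (nat_lit 6) (.nd (nat_lit 7) (.nd (nat_lit 8) 
(.nd (nat_lit 9) 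
(.lf (nat_lit 482317) (.g (nat_lit 3873) (.e (nat_lit 7265) (nat_lit 384) (.e (nat_lit 57412) (nat_lit 12) (.e (nat_lit 336001) (nat_lit 2) (.e (nat_lit 90170) (nat_lit 13) (.e (nat_lit 172113) (nat_lit 10) (.e (nat_lit 434248) (nat_lit 28) (.e (nat_lit 573475) (nat_lit 12) (.e (nat_lit 57353) (nat_lit 0) .nil)))))))) (.g (nat_lit 1) (.e (nat_lit 118977) (nat_lit 0) .nil) .nil))) 
(.lf (nat_lit 482829) (.g (nat_lit 3184) (.e (nat_lit 7590) (nat_lit 407) (.e (nat_lit 73775) (nat_lit 26) (.e (nat_lit 778465) (nat_lit 11) (.e (nat_lit 24623) (nat_lit 9) (.e (nat_lit 336414) (nat_lit 27) (.e (nat_lit 425984) (nat_lit 0) .nil)))))) (.g (nat_lit 1) (.e (nat_lit 120100) (nat_lit 0) .nil) .nil)))) (.nd (nat_lit 9) 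
(.lf (nat_lit 482573) (.g (nat_lit 1635) (.e (nat_lit 7517) (nat_lit 402) (.e (nat_lit 1427) (nat_lit 108) (.e (nat_lit 336421) (nat_lit 28) (.e (nat_lit 434180) (nat_lit 0) .nil)))) (.g (nat_lit 0) (.e (nat_lit 119726) (nat_lit 0) .nil) .nil))) 
(.lf (nat_lit 483085) (.g (nat_lit 3932) (.e (nat_lit 7695) (nat_lit 412) (.e (nat_lit 57379) (nat_lit 3) (.e (nat_lit 98366) (nat_lit 27) (.e (nat_lit 434231) (nat_lit 23) (.e (nat_lit 532579) (nat_lit 26) (.e (nat_lit 426124) (nat_lit 2) (.e (nat_lit 196677) (nat_lit 16) (.e (nat_lit 122881) (nat_lit 0) .nil)))))))) (.g (nat_lit 1) (.e (nat_lit 120796) (nat_lit 0) .nil) .nil))))) 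
(.nd (nat_lit 8) (.nd (nat_lit 9) 
(.lf (nat_lit 482445) (.g (nat_lit 2085) (.e (nat_lit 7379) (nat_lit 390) (.e (nat_lit 24665) (nat_lit 14) (.e (nat_lit 401444) (nat_lit 9) (.e (nat_lit 426163) (nat_lit 6) .nil)))) (.g (nat_lit 0) (.e (nat_lit 119443) (nat_lit 0) .nil) .nil))) 
(.lf (nat_lit 482957) (.g (nat_lit 981) (.e (nat_lit 7593) (nat_lit 407) (.e (nat_lit 73775) (nat_lit 26) (.e (nat_lit 778466) (nat_lit 11) (.e (nat_lit 24632) (nat_lit 9) .nil)))) (.g (nat_lit 0) (.e (nat_lit 120290) (nat_lit 0) .nil) .nil)))) (.nd (nat_lit 9) 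
(.lf (nat_lit 482701) (.g (nat_lit 2607) (.e (nat_lit 7581) (nat_lit 405) (.e (nat_lit 57479) (nat_lit 28) (.e (nat_lit 557100) (nat_lit 13) (.e (nat_lit 172059) (nat_lit 1) (.e (nat_lit 164403) (nat_lit 256) .nil))))) (.g (nat_lit 0) (.e (nat_lit 119924) (nat_lit 0) .nil) .nil))) 
(.lf (nat_lit 483213) (.g (nat_lit 2002) (.e (nat_lit 7936) (nat_lit 332) (.e (nat_lit 1349) (nat_lit 102) (.e (nat_lit 286735) (nat_lit 3) (.e (nat_lit 98365) (nat_lit 26) (.e (nat_lit 426297) (nat_lit 11) .nil))))) (.g (nat_lit 0) (.e (nat_lit 121573) (nat_lit 0) .nil) .nil)))))) (.nd (nat_lit 7) (.nd (nat_lit 8) (.nd (nat_lit 9) 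
(.lf (nat_lit 482381) (.g (nat_lit 632) (.e (nat_lit 7273) (nat_lit 385) (.e (nat_lit 122916) (nat_lit 14) (.e (nat_lit 352280) (nat_lit 20) .nil))) (.g (nat_lit 0) (.e (nat_lit 119043) (nat_lit 0) .nil) .nil))) 
(.lf (nat_lit 482893) (.g (nat_lit 570) (.e (nat_lit 7593) (nat_lit 407) (.e (nat_lit 73746) (nat_lit 3) (.e (nat_lit 516102) (nat_lit 0) .nil))) (.g (nat_lit 0) (.e (nat_lit 120224) (nat_lit 0) .nil) .nil)))) (.nd (nat_lit 9) 
(.lf (nat_lit 482637) (.g (nat_lit 2094) (.e (nat_lit 7566) (nat_lit 402) (.e (nat_lit 1638) (nat_lit 114) (.e (nat_lit 385074) (nat_lit 31) (.e (nat_lit 573493) (nat_lit 15) .nil)))) (.g (nat_lit 0) (.e (nat_lit 119798) (nat_lit 0) .nil) .nil))) 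
(.lf (nat_lit 483149) (.g (nat_lit 2275) (.e (nat_lit 6202) (nat_lit 332) (.e (nat_lit 2798) (nat_lit 180) (.e (nat_lit 303117) (nat_lit 2) (.e (nat_lit 196668) (nat_lit 14) (.e (nat_lit 73782) (nat_lit 32) .nil))))) (.g (nat_lit 0) (.e (nat_lit 121317) (nat_lit 0) .nil) .nil))))) (.nd (nat_lit 8) (.nd (nat_lit 9) 
(.lf (nat_lit 482509) (.g (nat_lit 997) (.e (nat_lit 7936) (nat_lit 393) (.e (nat_lit 180245) (nat_lit 5) (.e (nat_lit 532523) (nat_lit 7) (.e (nat_lit 327424) (nat_lit 16) .nil)))) (.g (nat_lit 0) (.e (nat_lit 119633) (nat_lit 0) .nil) .nil))) 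
(.lf (nat_lit 483021) (.g (nat_lit 1909) (.e (nat_lit 7685) (nat_lit 410) (.e (nat_lit 2650) (nat_lit 166) (.e (nat_lit 188434) (nat_lit 20) (.e (nat_lit 3289) (nat_lit 201) (.e (nat_lit 565252) (nat_lit 0) (.e (nat_lit 1598) (nat_lit 111) (.e (nat_lit 368384) (nat_lit 0) .nil))))))) (.g (nat_lit 1) (.e (nat_lit 120526) (nat_lit 0) .nil) .nil)))) (.nd (nat_lit 9) 
(.lf (nat_lit 482765) (.g (nat_lit 2127) (.e (nat_lit 7587) (nat_lit 406) (.e (nat_lit 65653) (nat_lit 27) (.e (nat_lit 426343) (nat_lit 14) (.e (nat_lit 491552) (nat_lit 9) (.e (nat_lit 336412) (nat_lit 27) (.e (nat_lit 426010) (nat_lit 0) .nil)))))) (.g (nat_lit 1) (.e (nat_lit 120013) (nat_lit 0) .nil) .nil))) 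
(.lf (nat_lit 483277) (.g (nat_lit 3791) (.e (nat_lit 6254) (nat_lit 337) (.e (nat_lit 2630) (nat_lit 164) (.e (nat_lit 172067) (nat_lit 3) (.e (nat_lit 204869) (nat_lit 29) (.e (nat_lit 360474) (nat_lit 8) (.e (nat_lit 557094) (nat_lit 12) (.e (nat_lit 163849) (nat_lit 0) .nil))))))) (.g (nat_lit 1) (.e (nat_lit 122168) (nat_lit 0) .nil) .nil))))))) 
(.nd (nat_lit 6) (.nd (nat_lit 7) (.nd (nat_lit 8) (.nd (nat_lit 9) 
(.lf (nat_lit 482349) (.g (nat_lit 2730) (.e (nat_lit 7266) (nat_lit 384) (.e (nat_lit 57419) (nat_lit 12) (.e (nat_lit 336011) (nat_lit 2) (.e (nat_lit 90170) (nat_lit 13) (.e (nat_lit 172113) (nat_lit 10) .nil))))) (.g (nat_lit 0) (.e (nat_lit 119011) (nat_lit 0) .nil) .nil))) 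
(.lf (nat_lit 482861) (.g (nat_lit 2013) (.e (nat_lit 7591) (nat_lit 407) (.e (nat_lit 73755) (nat_lit 8) (.e (nat_lit 557087) (nat_lit 11) (.e (nat_lit 24645) (nat_lit 11) (.e (nat_lit 368676) (nat_lit 21) (.e (nat_lit 516098) (nat_lit 0) .nil)))))) (.g (nat_lit 1) (.e (nat_lit 120134) (nat_lit 0) .nil) .nil)))) (.nd (nat_lit 9) 
(.lf (nat_lit 482605) (.g (nat_lit 3218) (.e (nat_lit 7556) (nat_lit 402) (.e (nat_lit 1234) (nat_lit 91) (.e (nat_lit 90176) (nat_lit 15) (.e (nat_lit 188452) (nat_lit 23) (.e (nat_lit 204885) (nat_lit 33) .nil))))) (.g (nat_lit 0) (.e (nat_lit 119766) (nat_lit 0) .nil) .nil))) 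
(.lf (nat_lit 483117) (.g (nat_lit 1132) (.e (nat_lit 6113) (nat_lit 332) (.e (nat_lit 2810) (nat_lit 180) (.e (nat_lit 303145) (nat_lit 13) (.e (nat_lit 483376) (nat_lit 22) .nil)))) (.g (nat_lit 0) (.e (nat_lit 121172) (nat_lit 0) .nil) .nil))))) (.nd (nat_lit 8) (.nd (nat_lit 9) 
(.lf (nat_lit 482477) (.g (nat_lit 1340) (.e (nat_lit 7936) (nat_lit 392) (.e (nat_lit 172065) (nat_lit 3) (.e (nat_lit 204846) (nat_lit 24) (.e (nat_lit 319533) (nat_lit 16) .nil)))) (.g (nat_lit 0) (.e (nat_lit 119546) (nat_lit 0) .nil) .nil))) 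
(.lf (nat_lit 482989) (.g (nat_lit 2153) (.e (nat_lit 7936) (nat_lit 407) (.e (nat_lit 73775) (nat_lit 26) (.e (nat_lit 778465) (nat_lit 11) (.e (nat_lit 24655) (nat_lit 13) (.e (nat_lit 393237) (nat_lit 17) .nil))))) (.g (nat_lit 0) (.e (nat_lit 120330) (nat_lit 0) .nil) .nil)))) (.nd (nat_lit 9) 
(.lf (nat_lit 482733) (.g (nat_lit 4702) (.e (nat_lit 7586) (nat_lit 406) (.e (nat_lit 65571) (nat_lit 3) (.e (nat_lit 98350) (nat_lit 24) (.e (nat_lit 409641) (nat_lit 17) (.e (nat_lit 294928) (nat_lit 2) (.e (nat_lit 90133) (nat_lit 9) (.e (nat_lit 2397) (nat_lit 157) .nil))))))) (.g (nat_lit 1) (.e (nat_lit 119970) (nat_lit 0) .nil) .nil))) 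
(.lf (nat_lit 483245) (.g (nat_lit 4306) (.e (nat_lit 6252) (nat_lit 337) (.e (nat_lit 2630) (nat_lit 164) (.e (nat_lit 172064) (nat_lit 2) (.e (nat_lit 196666) (nat_lit 13) (.e (nat_lit 65617) (nat_lit 10) (.e (nat_lit 344132) (nat_lit 26) (.e (nat_lit 557094) (nat_lit 12) (.e (nat_lit 163847) (nat_lit 0) .nil)))))))) (.g (nat_lit 1) (.e (nat_lit 121979) (nat_lit 0) .nil) .nil)))))) 
(.nd (nat_lit 7) (.nd (nat_lit 8) (.nd (nat_lit 9) 
(.lf (nat_lit 482413) (.g (nat_lit 1239) (.e (nat_lit 7936) (nat_lit 389) (.e (nat_lit 8326) (nat_lit 69) (.e (nat_lit 557101) (nat_lit 13) (.e (nat_lit 172115) (nat_lit 10) (.e (nat_lit 434244) (nat_lit 28) .nil))))) (.g (nat_lit 0) (.e (nat_lit 119370) (nat_lit 0) .nil) .nil))) 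
(.lf (nat_lit 482925) (.g (nat_lit 937) (.e (nat_lit 7593) (nat_lit 407) (.e (nat_lit 73773) (nat_lit 25) (.e (nat_lit 770072) (nat_lit 8) (.e (nat_lit 65592) (nat_lit 9) .nil)))) (.g (nat_lit 0) (.e (nat_lit 120257) (nat_lit 0) .nil) .nil)))) (.nd (nat_lit 9) 
(.lf (nat_lit 482669) (.g (nat_lit 1618) (.e (nat_lit 7936) (nat_lit 402) (.e (nat_lit 1635) (nat_lit 114) (.e (nat_lit 385074) (nat_lit 31) (.e (nat_lit 573491) (nat_lit 15) (.e (nat_lit 81954) (nat_lit 23) .nil))))) (.g (nat_lit 0) (.e (nat_lit 119834) (nat_lit 0) .nil) .nil))) 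
(.lf (nat_lit 483181) (.g (nat_lit 3302) (.e (nat_lit 6203) (nat_lit 332) (.e (nat_lit 2798) (nat_lit 180) (.e (nat_lit 303119) (nat_lit 3) (.e (nat_lit 204846) (nat_lit 24) (.e (nat_lit 319489) (nat_lit 0) .nil))))) (.g (nat_lit 0) (.e (nat_lit 121454) (nat_lit 0) .nil) .nil))))) (.nd (nat_lit 8) (.nd (nat_lit 9) 
(.lf (nat_lit 482541) (.g (nat_lit 1293) (.e (nat_lit 7490) (nat_lit 402) (.e (nat_lit 1256) (nat_lit 92) (.e (nat_lit 98373) (nat_lit 29) (.e (nat_lit 450586) (nat_lit 10) .nil)))) (.g (nat_lit 0) (.e (nat_lit 119683) (nat_lit 0) .nil) .nil))) 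
(.lf (nat_lit 483053) (.g (nat_lit 1665) (.e (nat_lit 7710) (nat_lit 414) (.e (nat_lit 163874) (nat_lit 3) (.e (nat_lit 204864) (nat_lit 27) (.e (nat_lit 344130) (nat_lit 26) .nil)))) (.g (nat_lit 0) (.e (nat_lit 120691) (nat_lit 0) .nil) .nil)))) (.nd (nat_lit 9) 
(.lf (nat_lit 482797) (.g (nat_lit 1303) (.e (nat_lit 7936) (nat_lit 406) (.e (nat_lit 65580) (nat_lit 6) (.e (nat_lit 147492) (nat_lit 11) (.e (nat_lit 24657) (nat_lit 13) (.e (nat_lit 393244) (nat_lit 17) .nil))))) (.g (nat_lit 0) (.e (nat_lit 120065) (nat_lit 0) .nil) .nil))) 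
(.lf (nat_lit 483309) (.g (nat_lit 2443) (.e (nat_lit 6255) (nat_lit 337) (.e (nat_lit 2630) (nat_lit 164) (.e (nat_lit 172067) (nat_lit 3) (.e (nat_lit 204868) (nat_lit 29) (.e (nat_lit 360474) (nat_lit 8) .nil))))) (.g (nat_lit 0) (.e (nat_lit 122317) (nat_lit 0) .nil) .nil)))))))) (.nd (nat_lit 5) (.nd (nat_lit 6) (.nd (nat_lit 7) (.nd (nat_lit 8) (.nd (nat_lit 9) 
(.lf (nat_lit 482333) (.g (nat_lit 3084) (.e (nat_lit 7265) (nat_lit 384) (.e (nat_lit 57431) (nat_lit 16) (.e (nat_lit 368676) (nat_lit 21) (.e (nat_lit 516165) (nat_lit 12) (.e (nat_lit 450586) (nat_lit 10) (.e (nat_lit 573478) (nat_lit 12) (.e (nat_lit 57351) (nat_lit 0) .nil))))))) (.g (nat_lit 1) (.e (nat_lit 118993) (nat_lit 0) .nil) .nil))) 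
(.lf (nat_lit 482845) (.g (nat_lit 2730) (.e (nat_lit 7591) (nat_lit 407) (.e (nat_lit 73747) (nat_lit 3) (.e (nat_lit 516139) (nat_lit 7) (.e (nat_lit 409640) (nat_lit 17) (.e (nat_lit 294931) (nat_lit 3) (.e (nat_lit 98319) (nat_lit 17) .nil)))))) (.g (nat_lit 1) (.e (nat_lit 120118) (nat_lit 0) .nil) .nil)))) (.nd (nat_lit 9) 
(.lf (nat_lit 482589) (.g (nat_lit 941) (.e (nat_lit 7538) (nat_lit 402) (.e (nat_lit 1428) (nat_lit 108) (.e (nat_lit 336395) (nat_lit 27) (.e (nat_lit 426340) (nat_lit 14) .nil)))) (.g (nat_lit 0) (.e (nat_lit 119745) (nat_lit 0) .nil) .nil))) 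
(.lf (nat_lit 483101) (.g (nat_lit 5598) (.e (nat_lit 6058) (nat_lit 327) (.e (nat_lit 8213) (nat_lit 9) (.e (nat_lit 303145) (nat_lit 13) (.e (nat_lit 483413) (nat_lit 27) (.e (nat_lit 401446) (nat_lit 10) (.e (nat_lit 434200) (nat_lit 18) .nil)))))) (.g (nat_lit 1) (.e (nat_lit 120833) (nat_lit 0) .nil) .nil))))) (.nd (nat_lit 8) (.nd (nat_lit 9) 
(.lf (nat_lit 482461) (.g (nat_lit 636) (.e (nat_lit 7936) (nat_lit 391) (.e (nat_lit 163850) (nat_lit 0) (.e (nat_lit 6425) (nat_lit 342) (.e (nat_lit 229415) (nat_lit 15) .nil)))) (.g (nat_lit 0) (.e (nat_lit 119505) (nat_lit 0) .nil) .nil))) 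
(.lf (nat_lit 482973) (.g (nat_lit 1715) (.e (nat_lit 7936) (nat_lit 407) (.e (nat_lit 73746) (nat_lit 3) (.e (nat_lit 516179) (nat_lit 15) (.e (nat_lit 475211) (nat_lit 41) .nil)))) (.g (nat_lit 0) (.e (nat_lit 120308) (nat_lit 0) .nil) .nil)))) (.nd (nat_lit 9) 
(.lf (nat_lit 482717) (.g (nat_lit 2363) (.e (nat_lit 7585) (nat_lit 406) (.e (nat_lit 65571) (nat_lit 3) (.e (nat_lit 98350) (nat_lit 24) (.e (nat_lit 409641) (nat_lit 17) .nil)))) (.g (nat_lit 0) (.e (nat_lit 119954) (nat_lit 0) .nil) .nil))) 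
(.lf (nat_lit 483229) (.g (nat_lit 3021) (.e (nat_lit 6214) (nat_lit 333) (.e (nat_lit 57883) (nat_lit 270) (.e (nat_lit 174) (nat_lit 12) (.e (nat_lit 204861) (nat_lit 26) (.e (nat_lit 336213) (nat_lit 13) (.e (nat_lit 393219) (nat_lit 0) .nil)))))) (.g (nat_lit 1) (.e (nat_lit 121907) (nat_lit 0) .nil) .nil)))))) (.nd (nat_lit 7) (.nd (nat_lit 8) (.nd (nat_lit 9) 
(.lf (nat_lit 482397) (.g (nat_lit 3064) (.e (nat_lit 7348) (nat_lit 388) (.e (nat_lit 3067) (nat_lit 190) (.e (nat_lit 475179) (nat_lit 24) (.e (nat_lit 516120) (nat_lit 1) (.e (nat_lit 164329) (nat_lit 230) .nil))))) (.g (nat_lit 0) (.e (nat_lit 119203) (nat_lit 0) .nil) .nil))) 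
(.lf (nat_lit 482909) (.g (nat_lit 1367) (.e (nat_lit 7593) (nat_lit 407) (.e (nat_lit 73748) (nat_lit 3) (.e (nat_lit 516139) (nat_lit 7) (.e (nat_lit 409616) (nat_lit 10) (.e (nat_lit 7936) (nat_lit 301) .nil))))) (.g (nat_lit 0) (.e (nat_lit 120241) (nat_lit 0) .nil) .nil)))) (.nd (nat_lit 9) 
(.lf (nat_lit 482653) (.g (nat_lit 1989) (.e (nat_lit 7936) (nat_lit 402) (.e (nat_lit 1256) (nat_lit 92) (.e (nat_lit 98372) (nat_lit 29) (.e (nat_lit 450588) (nat_lit 10) (.e (nat_lit 573471) (nat_lit 11) .nil))))) (.g (nat_lit 0) (.e (nat_lit 119815) (nat_lit 0) .nil) .nil))) 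
(.lf (nat_lit 483165) (.g (nat_lit 2571) (.e (nat_lit 6203) (nat_lit 332) (.e (nat_lit 2797) (nat_lit 180) (.e (nat_lit 303117) (nat_lit 2) (.e (nat_lit 196668) (nat_lit 14) (.e (nat_lit 73782) (nat_lit 32) (.e (nat_lit 2682) (nat_lit 168) (.e (nat_lit 204816) (nat_lit 17) .nil))))))) (.g (nat_lit 1) (.e (nat_lit 121384) (nat_lit 0) .nil) .nil))))) (.nd (nat_lit 8) (.nd (nat_lit 9) 
(.lf (nat_lit 482525) (.g (nat_lit 1324) (.e (nat_lit 7486) (nat_lit 402) (.e (nat_lit 1256) (nat_lit 92) (.e (nat_lit 98373) (nat_lit 29) (.e (nat_lit 450586) (nat_lit 10) .nil)))) (.g (nat_lit 0) (.e (nat_lit 119666) (nat_lit 0) .nil) .nil))) 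
(.lf (nat_lit 483037) (.g (nat_lit 1801) (.e (nat_lit 7708) (nat_lit 414) (.e (nat_lit 163875) (nat_lit 3) (.e (nat_lit 204862) (nat_lit 27) (.e (nat_lit 344133) (nat_lit 26) .nil)))) (.g (nat_lit 0) (.e (nat_lit 120598) (nat_lit 0) .nil) .nil)))) (.nd (nat_lit 9) 
(.lf (nat_lit 482781) (.g (nat_lit 1780) (.e (nat_lit 7589) (nat_lit 406) (.e (nat_lit 65653) (nat_lit 27) (.e (nat_lit 426341) (nat_lit 14) (.e (nat_lit 491570) (nat_lit 13) (.e (nat_lit 393230) (nat_lit 17) .nil))))) (.g (nat_lit 0) (.e (nat_lit 120047) (nat_lit 0) .nil) .nil))) 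
(.lf (nat_lit 483293) (.g (nat_lit 3865) (.e (nat_lit 6254) (nat_lit 337) (.e (nat_lit 2725) (nat_lit 172) (.e (nat_lit 237594) (nat_lit 3) (.e (nat_lit 204869) (nat_lit 29) (.e (nat_lit 360474) (nat_lit 8) (.e (nat_lit 557094) (nat_lit 12) (.e (nat_lit 163847) (nat_lit 0) .nil))))))) (.g (nat_lit 1) (.e (nat_lit 122288) (nat_lit 0) .nil) .nil))))))) 
(.nd (nat_lit 6) (.nd (nat_lit 7) (.nd (nat_lit 8) (.nd (nat_lit 9) 
(.lf (nat_lit 482365) (.g (nat_lit 2866) (.e (nat_lit 7266) (nat_lit 384) (.e (nat_lit 57431) (nat_lit 16) (.e (nat_lit 368676) (nat_lit 21) (.e (nat_lit 516165) (nat_lit 12) (.e (nat_lit 450586) (nat_lit 10) (.e (nat_lit 573478) (nat_lit 12) (.e (nat_lit 57351) (nat_lit 0) .nil))))))) (.g (nat_lit 1) (.e (nat_lit 119027) (nat_lit 0) .nil) .nil))) 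
(.lf (nat_lit 482877) (.g (nat_lit 1199) (.e (nat_lit 7591) (nat_lit 407) (.e (nat_lit 73775) (nat_lit 26) (.e (nat_lit 778466) (nat_lit 11) (.e (nat_lit 24628) (nat_lit 9) .nil)))) (.g (nat_lit 0) (.e (nat_lit 120150) (nat_lit 0) .nil) .nil)))) (.nd (nat_lit 9) 
(.lf (nat_lit 482621) (.g (nat_lit 1792) (.e (nat_lit 7557) (nat_lit 402) (.e (nat_lit 1235) (nat_lit 91) (.e (nat_lit 90178) (nat_lit 15) (.e (nat_lit 188441) (nat_lit 20) (.e (nat_lit 3271) (nat_lit 199) .nil))))) (.g (nat_lit 0) (.e (nat_lit 119782) (nat_lit 0) .nil) .nil))) 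
(.lf (nat_lit 483133) (.g (nat_lit 2366) (.e (nat_lit 6126) (nat_lit 332) (.e (nat_lit 1348) (nat_lit 102) (.e (nat_lit 286735) (nat_lit 3) (.e (nat_lit 98364) (nat_lit 26) (.e (nat_lit 426298) (nat_lit 11) .nil))))) (.g (nat_lit 0) (.e (nat_lit 121245) (nat_lit 0) .nil) .nil))))) (.nd (nat_lit 8) (.nd (nat_lit 9) 
(.lf (nat_lit 482493) (.g (nat_lit 2885) (.e (nat_lit 7388) (nat_lit 393) (.e (nat_lit 180244) (nat_lit 5) (.e (nat_lit 532523) (nat_lit 7) (.e (nat_lit 319530) (nat_lit 16) (.e (nat_lit 286735) (nat_lit 3) .nil))))) (.g (nat_lit 0) (.e (nat_lit 119570) (nat_lit 0) .nil) .nil))) 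
(.lf (nat_lit 483005) (.g (nat_lit 1511) (.e (nat_lit 7684) (nat_lit 410) (.e (nat_lit 2649) (nat_lit 166) (.e (nat_lit 188434) (nat_lit 20) (.e (nat_lit 3288) (nat_lit 201) .nil)))) (.g (nat_lit 0) (.e (nat_lit 120497) (nat_lit 0) .nil) .nil)))) (.nd (nat_lit 9) 
(.lf (nat_lit 482749) (.g (nat_lit 4102) (.e (nat_lit 7587) (nat_lit 406) (.e (nat_lit 65637) (nat_lit 15) (.e (nat_lit 3305) (nat_lit 202) (.e (nat_lit 573485) (nat_lit 13) (.e (nat_lit 65619) (nat_lit 10) (.e (nat_lit 344117) (nat_lit 21) (.e (nat_lit 516097) (nat_lit 0) .nil))))))) (.g (nat_lit 1) (.e (nat_lit 119997) (nat_lit 0) .nil) .nil))) 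
(.lf (nat_lit 483261) (.g (nat_lit 4112) (.e (nat_lit 6254) (nat_lit 337) (.e (nat_lit 2630) (nat_lit 164) (.e (nat_lit 172064) (nat_lit 2) (.e (nat_lit 196666) (nat_lit 13) (.e (nat_lit 65617) (nat_lit 10) (.e (nat_lit 344132) (nat_lit 26) (.e (nat_lit 557094) (nat_lit 12) (.e (nat_lit 163849) (nat_lit 0) .nil)))))))) (.g (nat_lit 1) (.e (nat_lit 122150) (nat_lit 0) .nil) .nil)))))) 
(.nd (nat_lit 7) (.nd (nat_lit 8) (.nd (nat_lit 9) 
(.lf (nat_lit 482429) (.g (nat_lit 1284) (.e (nat_lit 7377) (nat_lit 390) (.e (nat_lit 24665) (nat_lit 14) (.e (nat_lit 401447) (nat_lit 10) .nil))) (.g (nat_lit 0) (.e (nat_lit 119394) (nat_lit 0) .nil) .nil))) 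
(.lf (nat_lit 482941) (.g (nat_lit 2753) (.e (nat_lit 7593) (nat_lit 407) (.e (nat_lit 73775) (nat_lit 26) (.e (nat_lit 778465) (nat_lit 11) (.e (nat_lit 24623) (nat_lit 9) (.e (nat_lit 336400) (nat_lit 27) (.e (nat_lit 426011) (nat_lit 0) .nil)))))) (.g (nat_lit 1) (.e (nat_lit 120273) (nat_lit 0) .nil) .nil)))) (.nd (nat_lit 9) 
(.lf (nat_lit 482685) (.g (nat_lit 4435) (.e (nat_lit 7581) (nat_lit 405) (.e (nat_lit 57464) (nat_lit 23) (.e (nat_lit 516151) (nat_lit 9) (.e (nat_lit 426286) (nat_lit 10) (.e (nat_lit 434245) (nat_lit 28) (.e (nat_lit 573469) (nat_lit 11) (.e (nat_lit 16388) (nat_lit 0) .nil))))))) (.g (nat_lit 1) (.e (nat_lit 119908) (nat_lit 0) .nil) .nil))) 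
(.lf (nat_lit 483197) (.g (nat_lit 2028) (.e (nat_lit 6203) (nat_lit 332) (.e (nat_lit 2798) (nat_lit 180) (.e (nat_lit 303133) (nat_lit 9) (.e (nat_lit 426499) (nat_lit 27) (.e (nat_lit 336106) (nat_lit 9) .nil))))) (.g (nat_lit 0) (.e (nat_lit 121485) (nat_lit 0) .nil) .nil))))) (.nd (nat_lit 8) (.nd (nat_lit 9) 
(.lf (nat_lit 482557) (.g (nat_lit 2751) (.e (nat_lit 7497) (nat_lit 402) (.e (nat_lit 1239) (nat_lit 91) (.e (nat_lit 90170) (nat_lit 13) (.e (nat_lit 172113) (nat_lit 10) (.e (nat_lit 434247) (nat_lit 28) .nil))))) (.g (nat_lit 0) (.e (nat_lit 119708) (nat_lit 0) .nil) .nil))) 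
(.lf (nat_lit 483069) (.g (nat_lit 832) (.e (nat_lit 7712) (nat_lit 415) (.e (nat_lit 229415) (nat_lit 15) (.e (nat_lit 450577) (nat_lit 4) .nil))) (.g (nat_lit 0) (.e (nat_lit 120755) (nat_lit 0) .nil) .nil)))) (.nd (nat_lit 9) 
(.lf (nat_lit 482813) (.g (nat_lit 1156) (.e (nat_lit 7590) (nat_lit 407) (.e (nat_lit 73747) (nat_lit 3) (.e (nat_lit 516185) (nat_lit 16) (.e (nat_lit 491552) (nat_lit 9) .nil)))) (.g (nat_lit 0) (.e (nat_lit 120084) (nat_lit 0) .nil) .nil))) 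
(.lf (nat_lit 483325) (.g (nat_lit 5264) (.e (nat_lit 6255) (nat_lit 337) (.e (nat_lit 2643) (nat_lit 165) (.e (nat_lit 180243) (nat_lit 5) (.e (nat_lit 532549) (nat_lit 12) (.e (nat_lit 360475) (nat_lit 8) (.e (nat_lit 557089) (nat_lit 12) (.e (nat_lit 163849) (nat_lit 0) .nil))))))) (.g (nat_lit 1) (.e (nat_lit 122454) (nat_lit 0) .nil) .nil))))))))))) 
(.nd (nat_lit 2) (.nd (nat_lit 3) (.nd (nat_lit 4) (.nd (nat_lit 5) (.nd (nat_lit 6) 
(.nd (nat_lit 7) (.nd (nat_lit 8) (.nd (nat_lit 9) 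
(.lf (nat_lit 482307) (.g (nat_lit 2902) (.e (nat_lit 7265) (nat_lit 384) (.e (nat_lit 57406) (nat_lit 12) (.e (nat_lit 336324) (nat_lit 18) (.e (nat_lit 204849) (nat_lit 25) (.e (nat_lit 327698) (nat_lit 8) (.e (nat_lit 303154) (nat_lit 28) (.e (nat_lit 344096) (nat_lit 18) .nil))))))) (.g (nat_lit 1) (.e (nat_lit 118966) (nat_lit 0) .nil) .nil))) 
(.lf (nat_lit 482819) (.g (nat_lit 1706) (.e (nat_lit 7590) (nat_lit 407) (.e (nat_lit 73753) (nat_lit 8) (.e (nat_lit 557087) (nat_lit 11) (.e (nat_lit 24631) (nat_lit 9) .nil)))) (.g (nat_lit 0) (.e (nat_lit 120090) (nat_lit 0) .nil) .nil)))) (.nd (nat_lit 9) 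
(.lf (nat_lit 482563) (.g (nat_lit 2501) (.e (nat_lit 7500) (nat_lit 402) (.e (nat_lit 1640) (nat_lit 114) (.e (nat_lit 385074) (nat_lit 31) (.e (nat_lit 573485) (nat_lit 13) (.e (nat_lit 65619) (nat_lit 10) .nil))))) (.g (nat_lit 0) (.e (nat_lit 119716) (nat_lit 0) .nil) .nil))) 
(.lf (nat_lit 483075) (.g (nat_lit 4372) (.e (nat_lit 7695) (nat_lit 412) (.e (nat_lit 57366) (nat_lit 1) (.e (nat_lit 57854) (nat_lit 252) (.e (nat_lit 57409) (nat_lit 12) (.e (nat_lit 336316) (nat_lit 17) (.e (nat_lit 196666) (nat_lit 13) (.e (nat_lit 65617) (nat_lit 10) (.e (nat_lit 344096) (nat_lit 18) .nil)))))))) (.g (nat_lit 1) (.e (nat_lit 120786) (nat_lit 0) .nil) .nil))))) 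
(.nd (nat_lit 8) (.nd (nat_lit 9) 
(.lf (nat_lit 482435) (.g (nat_lit 2785) (.e (nat_lit 7378) (nat_lit 390) (.e (nat_lit 24663) (nat_lit 14) (.e (nat_lit 401448) (nat_lit 10) (.e (nat_lit 434289) (nat_lit 43) (.e (nat_lit 696343) (nat_lit 8) .nil))))) (.g (nat_lit 0) (.e (nat_lit 119410) (nat_lit 0) .nil) .nil))) 
(.lf (nat_lit 482947) (.g (nat_lit 2065) (.e (nat_lit 7593) (nat_lit 407) (.e (nat_lit 73775) (nat_lit 26) (.e (nat_lit 778465) (nat_lit 11) (.e (nat_lit 24638) (nat_lit 9) (.e (nat_lit 336387) (nat_lit 27) (.e (nat_lit 426009) (nat_lit 0) .nil)))))) (.g (nat_lit 1) (.e (nat_lit 120279) (nat_lit 0) .nil) .nil)))) (.nd (nat_lit 9) 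
(.lf (nat_lit 482691) (.g (nat_lit 5387) (.e (nat_lit 7581) (nat_lit 405) (.e (nat_lit 57464) (nat_lit 23) (.e (nat_lit 516151) (nat_lit 9) (.e (nat_lit 426286) (nat_lit 10) (.e (nat_lit 434248) (nat_lit 28) (.e (nat_lit 573471) (nat_lit 11) (.e (nat_lit 16388) (nat_lit 0) .nil))))))) (.g (nat_lit 1) (.e (nat_lit 119914) (nat_lit 0) .nil) .nil))) 
(.lf (nat_lit 483203) (.g (nat_lit 2149) (.e (nat_lit 6203) (nat_lit 332) (.e (nat_lit 2798) (nat_lit 180) (.e (nat_lit 303145) (nat_lit 13) (.e (nat_lit 483346) (nat_lit 17) (.e (nat_lit 6203) (nat_lit 332) (.e (nat_lit 2540) (nat_lit 158) (.e (nat_lit 8445) (nat_lit 140) (.e (nat_lit 57346) (nat_lit 0) .nil)))))))) (.g (nat_lit 1) (.e (nat_lit 121492) (nat_lit 0) .nil) .nil)))))) 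
(.nd (nat_lit 7) (.nd (nat_lit 8) (.nd (nat_lit 9) 
(.lf (nat_lit 482371) (.g (nat_lit 3584) (.e (nat_lit 7270) (nat_lit 385) (.e (nat_lit 122905) (nat_lit 12) (.e (nat_lit 336001) (nat_lit 2) (.e (nat_lit 90170) (nat_lit 13) (.e (nat_lit 172113) (nat_lit 10) (.e (nat_lit 434245) (nat_lit 28) (.e (nat_lit 573474) (nat_lit 12) (.e (nat_lit 57354) (nat_lit 0) .nil)))))))) (.g (nat_lit 1) (.e (nat_lit 119033) (nat_lit 0) .nil) .nil))) 
(.lf (nat_lit 482883) (.g (nat_lit 2396) (.e (nat_lit 7592) (nat_lit 407) (.e (nat_lit 73729) (nat_lit 0) (.e (nat_lit 7265) (nat_lit 384) (.e (nat_lit 57406) (nat_lit 12) (.e (nat_lit 336115) (nat_lit 9) .nil))))) (.g (nat_lit 0) (.e (nat_lit 120156) (nat_lit 0) .nil) .nil)))) (.nd (nat_lit 9) 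
(.lf (nat_lit 482627) (.g (nat_lit 2965) (.e (nat_lit 7562) (nat_lit 402) (.e (nat_lit 1235) (nat_lit 91) (.e (nat_lit 90170) (nat_lit 13) (.e (nat_lit 172113) (nat_lit 10) (.e (nat_lit 434245) (nat_lit 28) (.e (nat_lit 573451) (nat_lit 9) (.e (nat_lit 430) (nat_lit 32) (.e (nat_lit 426031) (nat_lit 0) .nil)))))))) (.g (nat_lit 1) (.e (nat_lit 119788) (nat_lit 0) .nil) .nil))) 
(.lf (nat_lit 483139) (.g (nat_lit 3644) (.e (nat_lit 6148) (nat_lit 332) (.e (nat_lit 1348) (nat_lit 102) (.e (nat_lit 286735) (nat_lit 3) (.e (nat_lit 98365) (nat_lit 26) (.e (nat_lit 426298) (nat_lit 11) .nil))))) (.g (nat_lit 0) (.e (nat_lit 121260) (nat_lit 0) .nil) .nil))))) (.nd (nat_lit 8) (.nd (nat_lit 9) 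
(.lf (nat_lit 482499) (.g (nat_lit 4030) (.e (nat_lit 7389) (nat_lit 393) (.e (nat_lit 180252) (nat_lit 10) (.e (nat_lit 573474) (nat_lit 12) (.e (nat_lit 57572) (nat_lit 54) (.e (nat_lit 770072) (nat_lit 8) (.e (nat_lit 65571) (nat_lit 3) (.e (nat_lit 98320) (nat_lit 17) .nil))))))) (.g (nat_lit 1) (.e (nat_lit 119580) (nat_lit 0) .nil) .nil))) 
(.lf (nat_lit 483011) (.g (nat_lit 1769) (.e (nat_lit 7685) (nat_lit 410) (.e (nat_lit 2649) (nat_lit 166) (.e (nat_lit 188434) (nat_lit 20) (.e (nat_lit 3288) (nat_lit 201) (.e (nat_lit 565252) (nat_lit 0) (.e (nat_lit 1599) (nat_lit 111) (.e (nat_lit 368384) (nat_lit 0) .nil))))))) (.g (nat_lit 1) (.e (nat_lit 120512) (nat_lit 0) .nil) .nil)))) (.nd (nat_lit 9) 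
(.lf (nat_lit 482755) (.g (nat_lit 2883) (.e (nat_lit 7587) (nat_lit 406) (.e (nat_lit 65653) (nat_lit 27) (.e (nat_lit 426338) (nat_lit 14) (.e (nat_lit 491571) (nat_lit 13) (.e (nat_lit 393232) (nat_lit 17) .nil))))) (.g (nat_lit 1) (.e (nat_lit 120003) (nat_lit 0) .nil) .nil))) 
(.lf (nat_lit 483267) (.g (nat_lit 2981) (.e (nat_lit 6254) (nat_lit 337) (.e (nat_lit 2630) (nat_lit 164) (.e (nat_lit 172066) (nat_lit 3) (.e (nat_lit 204869) (nat_lit 29) (.e (nat_lit 360474) (nat_lit 8) (.e (nat_lit 557094) (nat_lit 12) (.e (nat_lit 163847) (nat_lit 0) .nil))))))) (.g (nat_lit 1) (.e (nat_lit 122157) (nat_lit 0) .nil) .nil))))))) 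
(.nd (nat_lit 6) (.nd (nat_lit 7) (.nd (nat_lit 8) (.nd (nat_lit 9) 
(.lf (nat_lit 482339) (.g (nat_lit 6637) (.e (nat_lit 7265) (nat_lit 384) (.e (nat_lit 57431) (nat_lit 16) (.e (nat_lit 368676) (nat_lit 21) (.e (nat_lit 516166) (nat_lit 12) (.e (nat_lit 450588) (nat_lit 10) (.e (nat_lit 573475) (nat_lit 12) (.e (nat_lit 57347) (nat_lit 0) .nil))))))) (.g (nat_lit 1) (.e (nat_lit 118999) (nat_lit 0) .nil) .nil))) 
(.lf (nat_lit 482851) (.g (nat_lit 2730) (.e (nat_lit 7591) (nat_lit 407) (.e (nat_lit 73747) (nat_lit 3) (.e (nat_lit 516139) (nat_lit 7) (.e (nat_lit 409642) (nat_lit 17) (.e (nat_lit 294931) (nat_lit 3) .nil))))) (.g (nat_lit 0) (.e (nat_lit 120124) (nat_lit 0) .nil) .nil)))) (.nd (nat_lit 9) 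
(.lf (nat_lit 482595) (.g (nat_lit 953) (.e (nat_lit 7554) (nat_lit 402) (.e (nat_lit 1235) (nat_lit 91) (.e (nat_lit 90176) (nat_lit 15) (.e (nat_lit 188439) (nat_lit 20) .nil)))) (.g (nat_lit 0) (.e (nat_lit 119753) (nat_lit 0) .nil) .nil))) 
(.lf (nat_lit 483107) (.g (nat_lit 2249) (.e (nat_lit 6097) (nat_lit 332) (.e (nat_lit 2777) (nat_lit 178) (.e (nat_lit 286735) (nat_lit 3) (.e (nat_lit 98349) (nat_lit 24) (.e (nat_lit 409645) (nat_lit 18) .nil))))) (.g (nat_lit 0) (.e (nat_lit 121111) (nat_lit 0) .nil) .nil))))) (.nd (nat_lit 8) (.nd (nat_lit 9) 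
(.lf (nat_lit 482467) (.g (nat_lit 2092) (.e (nat_lit 7386) (nat_lit 392) (.e (nat_lit 172067) (nat_lit 3) (.e (nat_lit 204846) (nat_lit 24) (.e (nat_lit 319531) (nat_lit 16) .nil)))) (.g (nat_lit 0) (.e (nat_lit 119530) (nat_lit 0) .nil) .nil))) 
(.lf (nat_lit 482979) (.g (nat_lit 1515) (.e (nat_lit 7936) (nat_lit 407) (.e (nat_lit 73748) (nat_lit 3) (.e (nat_lit 516139) (nat_lit 7) (.e (nat_lit 409640) (nat_lit 17) (.e (nat_lit 294931) (nat_lit 3) .nil))))) (.g (nat_lit 0) (.e (nat_lit 120314) (nat_lit 0) .nil) .nil)))) (.nd (nat_lit 9) 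
(.lf (nat_lit 482723) (.g (nat_lit 1196) (.e (nat_lit 7585) (nat_lit 406) (.e (nat_lit 65580) (nat_lit 6) (.e (nat_lit 147494) (nat_lit 11) (.e (nat_lit 24657) (nat_lit 13) (.e (nat_lit 401152) (nat_lit 17) .nil))))) (.g (nat_lit 0) (.e (nat_lit 119960) (nat_lit 0) .nil) .nil))) 
(.lf (nat_lit 483235) (.g (nat_lit 1465) (.e (nat_lit 6223) (nat_lit 334) (.e (nat_lit 123170) (nat_lit 256) (.e (nat_lit 2739) (nat_lit 174) (.e (nat_lit 253988) (nat_lit 11) (.e (nat_lit 16465) (nat_lit 13) (.e (nat_lit 491264) (nat_lit 17) .nil)))))) (.g (nat_lit 1) (.e (nat_lit 121950) (nat_lit 0) .nil) .nil)))))) (.nd (nat_lit 7) (.nd (nat_lit 8) (.nd (nat_lit 9) 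
(.lf (nat_lit 482403) (.g (nat_lit 3223) (.e (nat_lit 7936) (nat_lit 388) (.e (nat_lit 2684) (nat_lit 168) (.e (nat_lit 204869) (nat_lit 29) (.e (nat_lit 360474) (nat_lit 8) (.e (nat_lit 557093) (nat_lit 12) .nil))))) (.g (nat_lit 0) (.e (nat_lit 119297) (nat_lit 0) .nil) .nil))) 
(.lf (nat_lit 482915) (.g (nat_lit 1895) (.e (nat_lit 7593) (nat_lit 407) (.e (nat_lit 73753) (nat_lit 8) (.e (nat_lit 557087) (nat_lit 11) (.e (nat_lit 24625) (nat_lit 9) (.e (nat_lit 336018) (nat_lit 3) .nil))))) (.g (nat_lit 0) (.e (nat_lit 120247) (nat_lit 0) .nil) .nil)))) (.nd (nat_lit 9) 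
(.lf (nat_lit 482659) (.g (nat_lit 2588) (.e (nat_lit 7936) (nat_lit 402) (.e (nat_lit 1627) (nat_lit 114) (.e (nat_lit 385074) (nat_lit 31) (.e (nat_lit 573491) (nat_lit 15) (.e (nat_lit 81954) (nat_lit 23) .nil))))) (.g (nat_lit 0) (.e (nat_lit 119822) (nat_lit 0) .nil) .nil))) 
(.lf (nat_lit 483171) (.g (nat_lit 1332) (.e (nat_lit 6203) (nat_lit 332) (.e (nat_lit 2798) (nat_lit 180) (.e (nat_lit 303117) (nat_lit 2) (.e (nat_lit 196668) (nat_lit 14) .nil)))) (.g (nat_lit 0) (.e (nat_lit 121436) (nat_lit 0) .nil) .nil))))) (.nd (nat_lit 8) (.nd (nat_lit 9) 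
(.lf (nat_lit 482531) (.g (nat_lit 3763) (.e (nat_lit 7489) (nat_lit 402) (.e (nat_lit 1239) (nat_lit 91) (.e (nat_lit 90170) (nat_lit 13) (.e (nat_lit 172106) (nat_lit 10) (.e (nat_lit 434244) (nat_lit 28) (.e (nat_lit 573451) (nat_lit 9) (.e (nat_lit 7936) (nat_lit 32) (.e (nat_lit 425989) (nat_lit 0) .nil)))))))) (.g (nat_lit 1) (.e (nat_lit 119672) (nat_lit 0) .nil) .nil))) 
(.lf (nat_lit 483043) (.g (nat_lit 1655) (.e (nat_lit 7708) (nat_lit 414) (.e (nat_lit 163923) (nat_lit 15) (.e (nat_lit 450584) (nat_lit 9) (.e (nat_lit 565267) (nat_lit 4) (.e (nat_lit 65617) (nat_lit 10) (.e (nat_lit 344091) (nat_lit 18) .nil)))))) (.g (nat_lit 1) (.e (nat_lit 120623) (nat_lit 0) .nil) .nil)))) (.nd (nat_lit 9) 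
(.lf (nat_lit 482787) (.g (nat_lit 1941) (.e (nat_lit 7589) (nat_lit 406) (.e (nat_lit 65653) (nat_lit 27) (.e (nat_lit 426343) (nat_lit 14) (.e (nat_lit 491552) (nat_lit 9) (.e (nat_lit 336412) (nat_lit 27) (.e (nat_lit 426009) (nat_lit 0) .nil)))))) (.g (nat_lit 1) (.e (nat_lit 120053) (nat_lit 0) .nil) .nil))) 
(.lf (nat_lit 483299) (.g (nat_lit 2300) (.e (nat_lit 6255) (nat_lit 337) (.e (nat_lit 2630) (nat_lit 164) (.e (nat_lit 172065) (nat_lit 3) (.e (nat_lit 204868) (nat_lit 29) (.e (nat_lit 360473) (nat_lit 8) (.e (nat_lit 557089) (nat_lit 12) (.e (nat_lit 163848) (nat_lit 0) .nil))))))) (.g (nat_lit 1) (.e (nat_lit 122303) (nat_lit 0) .nil) .nil)))))))) 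
(.nd (nat_lit 5) (.nd (nat_lit 6) (.nd (nat_lit 7) (.nd (nat_lit 8) (.nd (nat_lit 9) 
(.lf (nat_lit 482323) (.g (nat_lit 2915) (.e (nat_lit 7265) (nat_lit 384) (.e (nat_lit 57430) (nat_lit 16) (.e (nat_lit 368676) (nat_lit 21) (.e (nat_lit 516165) (nat_lit 12) (.e (nat_lit 450586) (nat_lit 10) (.e (nat_lit 573478) (nat_lit 12) (.e (nat_lit 57351) (nat_lit 0) .nil))))))) (.g (nat_lit 1) (.e (nat_lit 118983) (nat_lit 0) .nil) .nil))) 
(.lf (nat_lit 482835) (.g (nat_lit 1677) (.e (nat_lit 7590) (nat_lit 407) (.e (nat_lit 73775) (nat_lit 26) (.e (nat_lit 778466) (nat_lit 11) (.e (nat_lit 24626) (nat_lit 9) (.e (nat_lit 336414) (nat_lit 27) .nil))))) (.g (nat_lit 0) (.e (nat_lit 120106) (nat_lit 0) .nil) .nil)))) (.nd (nat_lit 9) 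
(.lf (nat_lit 482579) (.g (nat_lit 2164) (.e (nat_lit 7523) (nat_lit 402) (.e (nat_lit 1234) (nat_lit 91) (.e (nat_lit 90170) (nat_lit 13) (.e (nat_lit 172113) (nat_lit 10) (.e (nat_lit 434247) (nat_lit 28) .nil))))) (.g (nat_lit 0) (.e (nat_lit 119732) (nat_lit 0) .nil) .nil))) 
(.lf (nat_lit 483091) (.g (nat_lit 3973) (.e (nat_lit 7697) (nat_lit 412) (.e (nat_lit 57366) (nat_lit 1) (.e (nat_lit 57854) (nat_lit 252) (.e (nat_lit 57406) (nat_lit 12) (.e (nat_lit 336316) (nat_lit 17) (.e (nat_lit 196666) (nat_lit 13) (.e (nat_lit 65617) (nat_lit 10) (.e (nat_lit 344091) (nat_lit 18) .nil)))))))) (.g (nat_lit 1) (.e (nat_lit 120802) (nat_lit 0) .nil) .nil))))) 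
(.nd (nat_lit 8) (.nd (nat_lit 9) 
(.lf (nat_lit 482451) (.g (nat_lit 369) (.e (nat_lit 7936) (nat_lit 390) (.e (nat_lit 24580) (nat_lit 0) (.e (nat_lit 6724) (nat_lit 362) .nil))) (.g (nat_lit 0) (.e (nat_lit 119458) (nat_lit 0) .nil) .nil))) 
(.lf (nat_lit 482963) (.g (nat_lit 1519) (.e (nat_lit 7593) (nat_lit 407) (.e (nat_lit 73775) (nat_lit 26) (.e (nat_lit 778466) (nat_lit 11) (.e (nat_lit 24638) (nat_lit 9) (.e (nat_lit 336405) (nat_lit 27) (.e (nat_lit 426012) (nat_lit 0) .nil)))))) (.g (nat_lit 1) (.e (nat_lit 120296) (nat_lit 0) .nil) .nil)))) (.nd (nat_lit 9) 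
(.lf (nat_lit 482707) (.g (nat_lit 1375) (.e (nat_lit 7583) (nat_lit 405) (.e (nat_lit 57464) (nat_lit 23) (.e (nat_lit 516166) (nat_lit 12) (.e (nat_lit 450587) (nat_lit 10) (.e (nat_lit 573454) (nat_lit 9) .nil))))) (.g (nat_lit 0) (.e (nat_lit 119936) (nat_lit 0) .nil) .nil))) 
(.lf (nat_lit 483219) (.g (nat_lit 3578) (.e (nat_lit 6236) (nat_lit 335) (.e (nat_lit 164359) (nat_lit 246) (.e (nat_lit 2679) (nat_lit 168) (.e (nat_lit 204869) (nat_lit 29) (.e (nat_lit 360475) (nat_lit 8) (.e (nat_lit 557068) (nat_lit 9) (.e (nat_lit 20) (nat_lit 0) .nil))))))) (.g (nat_lit 1) (.e (nat_lit 121697) (nat_lit 0) .nil) .nil)))))) (.nd (nat_lit 7) (.nd (nat_lit 8) (.nd (nat_lit 9) 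
(.lf (nat_lit 482387) (.g (nat_lit 2523) (.e (nat_lit 7335) (nat_lit 388) (.e (nat_lit 3067) (nat_lit 190) (.e (nat_lit 475179) (nat_lit 24) (.e (nat_lit 516119) (nat_lit 1) (.e (nat_lit 164326) (nat_lit 230) .nil))))) (.g (nat_lit 0) (.e (nat_lit 119125) (nat_lit 0) .nil) .nil))) 
(.lf (nat_lit 482899) (.g (nat_lit 1456) (.e (nat_lit 7593) (nat_lit 407) (.e (nat_lit 73746) (nat_lit 3) (.e (nat_lit 516141) (nat_lit 8) (.e (nat_lit 417827) (nat_lit 17) .nil)))) (.g (nat_lit 0) (.e (nat_lit 120231) (nat_lit 0) .nil) .nil)))) (.nd (nat_lit 9) 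
(.lf (nat_lit 482643) (.g (nat_lit 2900) (.e (nat_lit 7545) (nat_lit 402) (.e (nat_lit 1234) (nat_lit 91) (.e (nat_lit 90170) (nat_lit 13) (.e (nat_lit 172113) (nat_lit 10) (.e (nat_lit 434245) (nat_lit 28) (.e (nat_lit 573451) (nat_lit 9) (.e (nat_lit 430) (nat_lit 32) (.e (nat_lit 426012) (nat_lit 0) .nil)))))))) (.g (nat_lit 1) (.e (nat_lit 119805) (nat_lit 0) .nil) .nil))) 
(.lf (nat_lit 483155) (.g (nat_lit 3402) (.e (nat_lit 6202) (nat_lit 332) (.e (nat_lit 2798) (nat_lit 180) (.e (nat_lit 303117) (nat_lit 2) (.e (nat_lit 196670) (nat_lit 14) (.e (nat_lit 73781) (nat_lit 32) (.e (nat_lit 2664) (nat_lit 167) (.e (nat_lit 196628) (nat_lit 9) (.e (nat_lit 970) (nat_lit 81) .nil)))))))) (.g (nat_lit 1) (.e (nat_lit 121323) (nat_lit 0) .nil) .nil))))) 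
(.nd (nat_lit 8) (.nd (nat_lit 9) 
(.lf (nat_lit 482515) (.g (nat_lit 2627) (.e (nat_lit 7485) (nat_lit 402) (.e (nat_lit 1239) (nat_lit 91) (.e (nat_lit 90170) (nat_lit 13) (.e (nat_lit 172106) (nat_lit 10) (.e (nat_lit 434244) (nat_lit 28) .nil))))) (.g (nat_lit 0) (.e (nat_lit 119653) (nat_lit 0) .nil) .nil))) 
(.lf (nat_lit 483027) (.g (nat_lit 3602) (.e (nat_lit 7685) (nat_lit 410) (.e (nat_lit 2650) (nat_lit 166) (.e (nat_lit 188449) (nat_lit 22) (.e (nat_lit 196616) (nat_lit 0) .nil)))) (.g (nat_lit 0) (.e (nat_lit 120532) (nat_lit 0) .nil) .nil)))) (.nd (nat_lit 9) 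
(.lf (nat_lit 482771) (.g (nat_lit 293) (.e (nat_lit 7588) (nat_lit 406) (.e (nat_lit 65653) (nat_lit 27) (.e (nat_lit 426186) (nat_lit 9) .nil))) (.g (nat_lit 0) (.e (nat_lit 120032) (nat_lit 0) .nil) .nil))) 
(.lf (nat_lit 483283) (.g (nat_lit 4903) (.e (nat_lit 6254) (nat_lit 337) (.e (nat_lit 2641) (nat_lit 165) (.e (nat_lit 180244) (nat_lit 5) (.e (nat_lit 532550) (nat_lit 12) (.e (nat_lit 360475) (nat_lit 8) (.e (nat_lit 557089) (nat_lit 12) (.e (nat_lit 163849) (nat_lit 0) .nil))))))) (.g (nat_lit 1) (.e (nat_lit 122267) (nat_lit 0) .nil) .nil))))))) 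
(.nd (nat_lit 6) (.nd (nat_lit 7) (.nd (nat_lit 8) (.nd (nat_lit 9) 
(.lf (nat_lit 482355) (.g (nat_lit 2995) (.e (nat_lit 7266) (nat_lit 384) (.e (nat_lit 57430) (nat_lit 16) (.e (nat_lit 368676) (nat_lit 21) (.e (nat_lit 516165) (nat_lit 12) (.e (nat_lit 450586) (nat_lit 10) (.e (nat_lit 573478) (nat_lit 12) (.e (nat_lit 57353) (nat_lit 0) .nil))))))) (.g (nat_lit 1) (.e (nat_lit 119017) (nat_lit 0) .nil) .nil))) 
(.lf (nat_lit 482867) (.g (nat_lit 2096) (.e (nat_lit 7591) (nat_lit 407) (.e (nat_lit 73773) (nat_lit 25) (.e (nat_lit 770072) (nat_lit 8) (.e (nat_lit 65627) (nat_lit 13) (.e (nat_lit 393231) (nat_lit 17) .nil))))) (.g (nat_lit 1) (.e (nat_lit 120140) (nat_lit 0) .nil) .nil)))) (.nd (nat_lit 9) 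
(.lf (nat_lit 482611) (.g (nat_lit 426) (.e (nat_lit 7556) (nat_lit 402) (.e (nat_lit 1428) (nat_lit 108) (.e (nat_lit 336414) (nat_lit 27) .nil))) (.g (nat_lit 0) (.e (nat_lit 119772) (nat_lit 0) .nil) .nil))) 
(.lf (nat_lit 483123) (.g (nat_lit 1593) (.e (nat_lit 6113) (nat_lit 332) (.e (nat_lit 2810) (nat_lit 180) (.e (nat_lit 303145) (nat_lit 13) (.e (nat_lit 483401) (nat_lit 25) (.e (nat_lit 368664) (nat_lit 18) (.e (nat_lit 5948) (nat_lit 322) (.e (nat_lit 57350) (nat_lit 0) .nil))))))) (.g (nat_lit 1) (.e (nat_lit 121187) (nat_lit 0) .nil) .nil))))) (.nd (nat_lit 8) (.nd (nat_lit 9) 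
(.lf (nat_lit 482483) (.g (nat_lit 1564) (.e (nat_lit 7936) (nat_lit 392) (.e (nat_lit 172067) (nat_lit 3) (.e (nat_lit 204846) (nat_lit 24) (.e (nat_lit 319505) (nat_lit 10) .nil)))) (.g (nat_lit 0) (.e (nat_lit 119552) (nat_lit 0) .nil) .nil))) 
(.lf (nat_lit 482995) (.g (nat_lit 2104) (.e (nat_lit 7936) (nat_lit 407) (.e (nat_lit 73775) (nat_lit 26) (.e (nat_lit 778466) (nat_lit 11) (.e (nat_lit 24658) (nat_lit 13) (.e (nat_lit 393237) (nat_lit 17) .nil))))) (.g (nat_lit 0) (.e (nat_lit 120336) (nat_lit 0) .nil) .nil)))) (.nd (nat_lit 9) 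
(.lf (nat_lit 482739) (.g (nat_lit 2073) (.e (nat_lit 7586) (nat_lit 406) (.e (nat_lit 65653) (nat_lit 27) (.e (nat_lit 426307) (nat_lit 12) (.e (nat_lit 475210) (nat_lit 41) (.e (nat_lit 712745) (nat_lit 27) (.e (nat_lit 425984) (nat_lit 0) .nil)))))) (.g (nat_lit 1) (.e (nat_lit 119986) (nat_lit 0) .nil) .nil))) 
(.lf (nat_lit 483251) (.g (nat_lit 2845) (.e (nat_lit 6252) (nat_lit 337) (.e (nat_lit 2630) (nat_lit 164) (.e (nat_lit 172066) (nat_lit 3) (.e (nat_lit 204869) (nat_lit 29) (.e (nat_lit 360474) (nat_lit 8) (.e (nat_lit 557094) (nat_lit 12) (.e (nat_lit 163847) (nat_lit 0) .nil))))))) (.g (nat_lit 1) (.e (nat_lit 121993) (nat_lit 0) .nil) .nil)))))) 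
(.nd (nat_lit 7) (.nd (nat_lit 8) (.nd (nat_lit 9) 
(.lf (nat_lit 482419) (.g (nat_lit 1521) (.e (nat_lit 7377) (nat_lit 390) (.e (nat_lit 24664) (nat_lit 14) (.e (nat_lit 401434) (nat_lit 9) (.e (nat_lit 426160) (nat_lit 6) .nil)))) (.g (nat_lit 0) (.e (nat_lit 119376) (nat_lit 0) .nil) .nil))) 
(.lf (nat_lit 482931) (.g (nat_lit 1755) (.e (nat_lit 7593) (nat_lit 407) (.e (nat_lit 73774) (nat_lit 26) (.e (nat_lit 778469) (nat_lit 11) (.e (nat_lit 24660) (nat_lit 13) (.e (nat_lit 393232) (nat_lit 17) .nil))))) (.g (nat_lit 1) (.e (nat_lit 120263) (nat_lit 0) .nil) .nil)))) (.nd (nat_lit 9) 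
(.lf (nat_lit 482675) (.g (nat_lit 1114) (.e (nat_lit 7936) (nat_lit 402) (.e (nat_lit 1669) (nat_lit 116) (.e (nat_lit 401458) (nat_lit 13) (.e (nat_lit 483372) (nat_lit 21) .nil)))) (.g (nat_lit 0) (.e (nat_lit 119845) (nat_lit 0) .nil) .nil))) 
(.lf (nat_lit 483187) (.g (nat_lit 5426) (.e (nat_lit 6203) (nat_lit 332) (.e (nat_lit 2798) (nat_lit 180) (.e (nat_lit 303119) (nat_lit 3) (.e (nat_lit 204849) (nat_lit 25) (.e (nat_lit 327699) (nat_lit 8) (.e (nat_lit 303119) (nat_lit 3) (.e (nat_lit 204816) (nat_lit 17) .nil))))))) (.g (nat_lit 1) (.e (nat_lit 121468) (nat_lit 0) .nil) .nil))))) (.nd (nat_lit 8) (.nd (nat_lit 9) 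
(.lf (nat_lit 482547) (.g (nat_lit 2313) (.e (nat_lit 7495) (nat_lit 402) (.e (nat_lit 1225) (nat_lit 91) (.e (nat_lit 90170) (nat_lit 13) (.e (nat_lit 172113) (nat_lit 10) (.e (nat_lit 434248) (nat_lit 28) .nil))))) (.g (nat_lit 0) (.e (nat_lit 119692) (nat_lit 0) .nil) .nil))) 
(.lf (nat_lit 483059) (.g (nat_lit 2533) (.e (nat_lit 7710) (nat_lit 414) (.e (nat_lit 163874) (nat_lit 3) (.e (nat_lit 204864) (nat_lit 27) (.e (nat_lit 344133) (nat_lit 26) (.e (nat_lit 557098) (nat_lit 13) .nil))))) (.g (nat_lit 0) (.e (nat_lit 120697) (nat_lit 0) .nil) .nil)))) (.nd (nat_lit 9) 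
(.lf (nat_lit 482803) (.g (nat_lit 2356) (.e (nat_lit 7590) (nat_lit 407) (.e (nat_lit 73747) (nat_lit 3) (.e (nat_lit 516138) (nat_lit 7) (.e (nat_lit 409641) (nat_lit 17) (.e (nat_lit 294928) (nat_lit 2) (.e (nat_lit 90133) (nat_lit 9) (.e (nat_lit 2400) (nat_lit 157) .nil))))))) (.g (nat_lit 1) (.e (nat_lit 120074) (nat_lit 0) .nil) .nil))) 
(.lf (nat_lit 483315) (.g (nat_lit 662) (.e (nat_lit 6255) (nat_lit 337) (.e (nat_lit 2630) (nat_lit 164) (.e (nat_lit 172088) (nat_lit 9) .nil))) (.g (nat_lit 0) (.e (nat_lit 122337) (nat_lit 0) .nil) .nil))))))))) (.nd (nat_lit 4) (.nd (nat_lit 5) (.nd (nat_lit 6) (.nd (nat_lit 7) (.nd (nat_lit 8) (.nd (nat_lit 9) 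
(.lf (nat_lit 482315) (.g (nat_lit 4162) (.e (nat_lit 7265) (nat_lit 384) (.e (nat_lit 57412) (nat_lit 12) (.e (nat_lit 336001) (nat_lit 2) (.e (nat_lit 90170) (nat_lit 13) (.e (nat_lit 172113) (nat_lit 10) (.e (nat_lit 434248) (nat_lit 28) (.e (nat_lit 573473) (nat_lit 12) (.e (nat_lit 57348) (nat_lit 0) .nil)))))))) (.g (nat_lit 1) (.e (nat_lit 118975) (nat_lit 0) .nil) .nil))) 
(.lf (nat_lit 482827) (.g (nat_lit 2560) (.e (nat_lit 7590) (nat_lit 407) (.e (nat_lit 73755) (nat_lit 8) (.e (nat_lit 557087) (nat_lit 11) (.e (nat_lit 24639) (nat_lit 10) (.e (nat_lit 344107) (nat_lit 19) .nil))))) (.g (nat_lit 0) (.e (nat_lit 120098) (nat_lit 0) .nil) .nil)))) (.nd (nat_lit 9) 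
(.lf (nat_lit 482571) (.g (nat_lit 1578) (.e (nat_lit 7518) (nat_lit 402) (.e (nat_lit 1427) (nat_lit 108) (.e (nat_lit 336421) (nat_lit 28) (.e (nat_lit 434181) (nat_lit 0) .nil)))) (.g (nat_lit 0) (.e (nat_lit 119724) (nat_lit 0) .nil) .nil))) 
(.lf (nat_lit 483083) (.g (nat_lit 2296) (.e (nat_lit 7695) (nat_lit 412) (.e (nat_lit 57379) (nat_lit 3) (.e (nat_lit 98366) (nat_lit 27) (.e (nat_lit 434231) (nat_lit 23) (.e (nat_lit 532579) (nat_lit 26) (.e (nat_lit 426124) (nat_lit 2) (.e (nat_lit 196658) (nat_lit 12) (.e (nat_lit 57352) (nat_lit 0) .nil)))))))) (.g (nat_lit 1) (.e (nat_lit 120794) (nat_lit 0) .nil) .nil))))) 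
(.nd (nat_lit 8) (.nd (nat_lit 9) 
(.lf (nat_lit 482443) (.g (nat_lit 2992) (.e (nat_lit 7379) (nat_lit 390) (.e (nat_lit 24663) (nat_lit 14) (.e (nat_lit 401448) (nat_lit 10) (.e (nat_lit 434289) (nat_lit 43) (.e (nat_lit 696344) (nat_lit 8) .nil))))) (.g (nat_lit 0) (.e (nat_lit 119440) (nat_lit 0) .nil) .nil))) 
(.lf (nat_lit 482955) (.g (nat_lit 1785) (.e (nat_lit 7593) (nat_lit 407) (.e (nat_lit 73775) (nat_lit 26) (.e (nat_lit 778466) (nat_lit 11) (.e (nat_lit 24623) (nat_lit 9) (.e (nat_lit 336412) (nat_lit 27) (.e (nat_lit 426012) (nat_lit 0) .nil)))))) (.g (nat_lit 1) (.e (nat_lit 120288) (nat_lit 0) .nil) .nil)))) (.nd (nat_lit 9) 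
(.lf (nat_lit 482699) (.g (nat_lit 2640) (.e (nat_lit 7581) (nat_lit 405) (.e (nat_lit 57464) (nat_lit 23) (.e (nat_lit 516166) (nat_lit 12) (.e (nat_lit 450588) (nat_lit 10) (.e (nat_lit 573469) (nat_lit 11) .nil))))) (.g (nat_lit 0) (.e (nat_lit 119922) (nat_lit 0) .nil) .nil))) 
(.lf (nat_lit 483211) (.g (nat_lit 1533) (.e (nat_lit 6203) (nat_lit 332) (.e (nat_lit 2798) (nat_lit 180) (.e (nat_lit 303145) (nat_lit 13) (.e (nat_lit 483401) (nat_lit 25) .nil)))) (.g (nat_lit 0) (.e (nat_lit 121506) (nat_lit 0) .nil) .nil)))))) (.nd (nat_lit 7) (.nd (nat_lit 8) (.nd (nat_lit 9) 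
(.lf (nat_lit 482379) (.g (nat_lit 3048) (.e (nat_lit 7270) (nat_lit 385) (.e (nat_lit 122919) (nat_lit 15) (.e (nat_lit 360489) (nat_lit 21) (.e (nat_lit 770072) (nat_lit 8) (.e (nat_lit 65616) (nat_lit 10) (.e (nat_lit 344100) (nat_lit 18) .nil)))))) (.g (nat_lit 1) (.e (nat_lit 119041) (nat_lit 0) .nil) .nil))) 
(.lf (nat_lit 482891) (.g (nat_lit 3479) (.e (nat_lit 7593) (nat_lit 407) (.e (nat_lit 73746) (nat_lit 3) (.e (nat_lit 516097) (nat_lit 0) (.e (nat_lit 7593) (nat_lit 407) (.e (nat_lit 73746) (nat_lit 3) (.e (nat_lit 516098) (nat_lit 0) .nil)))))) (.g (nat_lit 1) (.e (nat_lit 120222) (nat_lit 0) .nil) .nil)))) (.nd (nat_lit 9) 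
(.lf (nat_lit 482635) (.g (nat_lit 1773) (.e (nat_lit 7562) (nat_lit 402) (.e (nat_lit 1638) (nat_lit 114) (.e (nat_lit 385074) (nat_lit 31) (.e (nat_lit 573485) (nat_lit 13) .nil)))) (.g (nat_lit 0) (.e (nat_lit 119796) (nat_lit 0) .nil) .nil))) 
(.lf (nat_lit 483147) (.g (nat_lit 5338) (.e (nat_lit 6202) (nat_lit 332) (.e (nat_lit 2798) (nat_lit 180) (.e (nat_lit 303117) (nat_lit 2) (.e (nat_lit 196665) (nat_lit 13) (.e (nat_lit 65628) (nat_lit 14) (.e (nat_lit 401425) (nat_lit 2) (.e (nat_lit 196628) (nat_lit 9) (.e (nat_lit 970) (nat_lit 81) .nil)))))))) (.g (nat_lit 1) (.e (nat_lit 121315) (nat_lit 0) .nil) .nil))))) 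
(.nd (nat_lit 8) (.nd (nat_lit 9) 
(.lf (nat_lit 482507) (.g (nat_lit 1880) (.e (nat_lit 7936) (nat_lit 393) (.e (nat_lit 180245) (nat_lit 5) (.e (nat_lit 532522) (nat_lit 7) (.e (nat_lit 319531) (nat_lit 16) (.e (nat_lit 286735) (nat_lit 3) .nil))))) (.g (nat_lit 0) (.e (nat_lit 119631) (nat_lit 0) .nil) .nil))) 
(.lf (nat_lit 483019) (.g (nat_lit 1645) (.e (nat_lit 7685) (nat_lit 410) (.e (nat_lit 2649) (nat_lit 166) (.e (nat_lit 188449) (nat_lit 22) (.e (nat_lit 204544) (nat_lit 0) .nil)))) (.g (nat_lit 0) (.e (nat_lit 120520) (nat_lit 0) .nil) .nil)))) (.nd (nat_lit 9) 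
(.lf (nat_lit 482763) (.g (nat_lit 2721) (.e (nat_lit 7587) (nat_lit 406) (.e (nat_lit 65653) (nat_lit 27) (.e (nat_lit 426343) (nat_lit 14) (.e (nat_lit 491546) (nat_lit 9) (.e (nat_lit 336412) (nat_lit 27) (.e (nat_lit 426011) (nat_lit 0) .nil)))))) (.g (nat_lit 1) (.e (nat_lit 120011) (nat_lit 0) .nil) .nil))) 
(.lf (nat_lit 483275) (.g (nat_lit 3540) (.e (nat_lit 6254) (nat_lit 337) (.e (nat_lit 2630) (nat_lit 164) (.e (nat_lit 172067) (nat_lit 3) (.e (nat_lit 204868) (nat_lit 29) (.e (nat_lit 360473) (nat_lit 8) (.e (nat_lit 557094) (nat_lit 12) (.e (nat_lit 163847) (nat_lit 0) .nil))))))) (.g (nat_lit 1) (.e (nat_lit 122166) (nat_lit 0) .nil) .nil))))))) 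
(.nd (nat_lit 6) (.nd (nat_lit 7) (.nd (nat_lit 8) (.nd (nat_lit 9) 
(.lf (nat_lit 482347) (.g (nat_lit 2724) (.e (nat_lit 7266) (nat_lit 384) (.e (nat_lit 57409) (nat_lit 12) (.e (nat_lit 336182) (nat_lit 11) (.e (nat_lit 368698) (nat_lit 43) (.e (nat_lit 770072) (nat_lit 8) (.e (nat_lit 65610) (nat_lit 10) (.e (nat_lit 344090) (nat_lit 18) .nil))))))) (.g (nat_lit 1) (.e (nat_lit 119009) (nat_lit 0) .nil) .nil))) 
(.lf (nat_lit 482859) (.g (nat_lit 2393) (.e (nat_lit 7591) (nat_lit 407) (.e (nat_lit 73753) (nat_lit 8) (.e (nat_lit 557087) (nat_lit 11) (.e (nat_lit 24646) (nat_lit 11) (.e (nat_lit 368676) (nat_lit 21) (.e (nat_lit 516098) (nat_lit 0) .nil)))))) (.g (nat_lit 1) (.e (nat_lit 120132) (nat_lit 0) .nil) .nil)))) (.nd (nat_lit 9) 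
(.lf (nat_lit 482603) (.g (nat_lit 350) (.e (nat_lit 7555) (nat_lit 402) (.e (nat_lit 1660) (nat_lit 115) (.e (nat_lit 401152) (nat_lit 27) .nil))) (.g (nat_lit 0) (.e (nat_lit 119764) (nat_lit 0) .nil) .nil))) 
(.lf (nat_lit 483115) (.g (nat_lit 184) (.e (nat_lit 6113) (nat_lit 332) (.e (nat_lit 2810) (nat_lit 180) (.e (nat_lit 303127) (nat_lit 9) .nil))) (.g (nat_lit 0) (.e (nat_lit 121161) (nat_lit 0) .nil) .nil))))) (.nd (nat_lit 8) (.nd (nat_lit 9) 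
(.lf (nat_lit 482475) (.g (nat_lit 1825) (.e (nat_lit 7936) (nat_lit 392) (.e (nat_lit 172065) (nat_lit 3) (.e (nat_lit 204819) (nat_lit 17) (.e (nat_lit 6113) (nat_lit 332) (.e (nat_lit 1361) (nat_lit 102) .nil))))) (.g (nat_lit 0) (.e (nat_lit 119543) (nat_lit 0) .nil) .nil))) 
(.lf (nat_lit 482987) (.g (nat_lit 318) (.e (nat_lit 7936) (nat_lit 407) (.e (nat_lit 73775) (nat_lit 26) (.e (nat_lit 778463) (nat_lit 11) .nil))) (.g (nat_lit 0) (.e (nat_lit 120328) (nat_lit 0) .nil) .nil)))) (.nd (nat_lit 9) 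
(.lf (nat_lit 482731) (.g (nat_lit 3226) (.e (nat_lit 7586) (nat_lit 406) (.e (nat_lit 65571) (nat_lit 3) (.e (nat_lit 98350) (nat_lit 24) (.e (nat_lit 409640) (nat_lit 17) (.e (nat_lit 294928) (nat_lit 2) (.e (nat_lit 90133) (nat_lit 9) (.e (nat_lit 2400) (nat_lit 157) .nil))))))) (.g (nat_lit 1) (.e (nat_lit 119968) (nat_lit 0) .nil) .nil))) 
(.lf (nat_lit 483243) (.g (nat_lit 4687) (.e (nat_lit 6252) (nat_lit 337) (.e (nat_lit 2630) (nat_lit 164) (.e (nat_lit 172062) (nat_lit 2) (.e (nat_lit 196666) (nat_lit 13) (.e (nat_lit 65617) (nat_lit 10) (.e (nat_lit 344133) (nat_lit 26) (.e (nat_lit 557091) (nat_lit 12) (.e (nat_lit 163847) (nat_lit 0) .nil)))))))) (.g (nat_lit 1) (.e (nat_lit 121977) (nat_lit 0) .nil) .nil)))))) 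
(.nd (nat_lit 7) (.nd (nat_lit 8) (.nd (nat_lit 9) 
(.lf (nat_lit 482411) (.g (nat_lit 3909) (.e (nat_lit 7376) (nat_lit 389) (.e (nat_lit 8320) (nat_lit 64) (.e (nat_lit 516120) (nat_lit 1) (.e (nat_lit 164329) (nat_lit 230) (.e (nat_lit 163902) (nat_lit 12) (.e (nat_lit 426568) (nat_lit 34) (.e (nat_lit 393234) (nat_lit 17) .nil))))))) (.g (nat_lit 1) (.e (nat_lit 119365) (nat_lit 0) .nil) .nil))) 
(.lf (nat_lit 482923) (.g (nat_lit 2994) (.e (nat_lit 7593) (nat_lit 407) (.e (nat_lit 73755) (nat_lit 8) (.e (nat_lit 557087) (nat_lit 11) (.e (nat_lit 24625) (nat_lit 9) (.e (nat_lit 336019) (nat_lit 3) (.e (nat_lit 98319) (nat_lit 17) .nil)))))) (.g (nat_lit 1) (.e (nat_lit 120255) (nat_lit 0) .nil) .nil)))) (.nd (nat_lit 9) 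
(.lf (nat_lit 482667) (.g (nat_lit 2480) (.e (nat_lit 7936) (nat_lit 402) (.e (nat_lit 1634) (nat_lit 114) (.e (nat_lit 385074) (nat_lit 31) (.e (nat_lit 573491) (nat_lit 15) (.e (nat_lit 81954) (nat_lit 23) .nil))))) (.g (nat_lit 0) (.e (nat_lit 119832) (nat_lit 0) .nil) .nil))) 
(.lf (nat_lit 483179) (.g (nat_lit 2629) (.e (nat_lit 6203) (nat_lit 332) (.e (nat_lit 2798) (nat_lit 180) (.e (nat_lit 303119) (nat_lit 3) (.e (nat_lit 204845) (nat_lit 24) (.e (nat_lit 319493) (nat_lit 0) .nil))))) (.g (nat_lit 0) (.e (nat_lit 121452) (nat_lit 0) .nil) .nil))))) (.nd (nat_lit 8) (.nd (nat_lit 9) 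
(.lf (nat_lit 482539) (.g (nat_lit 2175) (.e (nat_lit 7490) (nat_lit 402) (.e (nat_lit 1239) (nat_lit 91) (.e (nat_lit 90170) (nat_lit 13) (.e (nat_lit 172113) (nat_lit 10) (.e (nat_lit 434247) (nat_lit 28) .nil))))) (.g (nat_lit 0) (.e (nat_lit 119681) (nat_lit 0) .nil) .nil))) 
(.lf (nat_lit 483051) (.g (nat_lit 2762) (.e (nat_lit 7710) (nat_lit 414) (.e (nat_lit 163874) (nat_lit 3) (.e (nat_lit 204863) (nat_lit 27) (.e (nat_lit 344133) (nat_lit 26) (.e (nat_lit 557098) (nat_lit 13) .nil))))) (.g (nat_lit 0) (.e (nat_lit 120689) (nat_lit 0) .nil) .nil)))) (.nd (nat_lit 9) 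
(.lf (nat_lit 482795) (.g (nat_lit 1459) (.e (nat_lit 7936) (nat_lit 406) (.e (nat_lit 65578) (nat_lit 6) (.e (nat_lit 147495) (nat_lit 11) (.e (nat_lit 24654) (nat_lit 13) (.e (nat_lit 393249) (nat_lit 17) .nil))))) (.g (nat_lit 0) (.e (nat_lit 120063) (nat_lit 0) .nil) .nil))) 
(.lf (nat_lit 483307) (.g (nat_lit 4323) (.e (nat_lit 6255) (nat_lit 337) (.e (nat_lit 2630) (nat_lit 164) (.e (nat_lit 172067) (nat_lit 3) (.e (nat_lit 204868) (nat_lit 29) (.e (nat_lit 360473) (nat_lit 8) (.e (nat_lit 557091) (nat_lit 12) (.e (nat_lit 163847) (nat_lit 0) .nil))))))) (.g (nat_lit 1) (.e (nat_lit 122315) (nat_lit 0) .nil) .nil)))))))) 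
(.nd (nat_lit 5) (.nd (nat_lit 6) (.nd (nat_lit 7) (.nd (nat_lit 8) (.nd (nat_lit 9) 
(.lf (nat_lit 482331) (.g (nat_lit 3661) (.e (nat_lit 7265) (nat_lit 384) (.e (nat_lit 57431) (nat_lit 16) (.e (nat_lit 368676) (nat_lit 21) (.e (nat_lit 516165) (nat_lit 12) (.e (nat_lit 450586) (nat_lit 10) (.e (nat_lit 573475) (nat_lit 12) (.e (nat_lit 57351) (nat_lit 0) .nil))))))) (.g (nat_lit 1) (.e (nat_lit 118991) (nat_lit 0) .nil) .nil))) 
(.lf (nat_lit 482843) (.g (nat_lit 2394) (.e (nat_lit 7591) (nat_lit 407) (.e (nat_lit 73747) (nat_lit 3) (.e (nat_lit 516138) (nat_lit 7) (.e (nat_lit 409641) (nat_lit 17) (.e (nat_lit 294931) (nat_lit 3) (.e (nat_lit 98320) (nat_lit 17) .nil)))))) (.g (nat_lit 1) (.e (nat_lit 120116) (nat_lit 0) .nil) .nil)))) (.nd (nat_lit 9) 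
(.lf (nat_lit 482587) (.g (nat_lit 1172) (.e (nat_lit 7537) (nat_lit 402) (.e (nat_lit 1638) (nat_lit 114) (.e (nat_lit 385074) (nat_lit 31) (.e (nat_lit 573493) (nat_lit 15) .nil)))) (.g (nat_lit 0) (.e (nat_lit 119743) (nat_lit 0) .nil) .nil))) 
(.lf (nat_lit 483099) (.g (nat_lit 5761) (.e (nat_lit 6058) (nat_lit 327) (.e (nat_lit 8213) (nat_lit 9) (.e (nat_lit 303119) (nat_lit 3) (.e (nat_lit 204869) (nat_lit 29) (.e (nat_lit 360475) (nat_lit 8) (.e (nat_lit 557091) (nat_lit 12) (.e (nat_lit 163843) (nat_lit 0) .nil))))))) (.g (nat_lit 1) (.e (nat_lit 120831) (nat_lit 0) .nil) .nil))))) (.nd (nat_lit 8) (.nd (nat_lit 9) 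
(.lf (nat_lit 482459) (.g (nat_lit 2510) (.e (nat_lit 7936) (nat_lit 390) (.e (nat_lit 24665) (nat_lit 14) (.e (nat_lit 401448) (nat_lit 10) (.e (nat_lit 434289) (nat_lit 43) (.e (nat_lit 696343) (nat_lit 8) .nil))))) (.g (nat_lit 0) (.e (nat_lit 119480) (nat_lit 0) .nil) .nil))) 
(.lf (nat_lit 482971) (.g (nat_lit 1323) (.e (nat_lit 7936) (nat_lit 407) (.e (nat_lit 73746) (nat_lit 3) (.e (nat_lit 516139) (nat_lit 7) (.e (nat_lit 409616) (nat_lit 10) (.e (nat_lit 7936) (nat_lit 301) .nil))))) (.g (nat_lit 0) (.e (nat_lit 120306) (nat_lit 0) .nil) .nil)))) (.nd (nat_lit 9) 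
(.lf (nat_lit 482715) (.g (nat_lit 3740) (.e (nat_lit 7585) (nat_lit 406) (.e (nat_lit 65571) (nat_lit 3) (.e (nat_lit 98350) (nat_lit 24) (.e (nat_lit 409616) (nat_lit 10) (.e (nat_lit 5355) (nat_lit 298) (.e (nat_lit 1235) (nat_lit 91) (.e (nat_lit 90133) (nat_lit 9) (.e (nat_lit 2397) (nat_lit 157) .nil)))))))) (.g (nat_lit 1) (.e (nat_lit 119952) (nat_lit 0) .nil) .nil))) 
(.lf (nat_lit 483227) (.g (nat_lit 1886) (.e (nat_lit 6206) (nat_lit 333) (.e (nat_lit 57883) (nat_lit 270) (.e (nat_lit 371) (nat_lit 32) (.e (nat_lit 426546) (nat_lit 30) (.e (nat_lit 360466) (nat_lit 3) (.e (nat_lit 516190) (nat_lit 17) .nil)))))) (.g (nat_lit 1) (.e (nat_lit 121881) (nat_lit 0) .nil) .nil)))))) (.nd (nat_lit 7) (.nd (nat_lit 8) (.nd (nat_lit 9) 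
(.lf (nat_lit 482395) (.g (nat_lit 2164) (.e (nat_lit 7366) (nat_lit 388) (.e (nat_lit 2663) (nat_lit 167) (.e (nat_lit 196666) (nat_lit 13) (.e (nat_lit 65617) (nat_lit 10) (.e (nat_lit 344132) (nat_lit 26) .nil))))) (.g (nat_lit 0) (.e (nat_lit 119195) (nat_lit 0) .nil) .nil))) 
(.lf (nat_lit 482907) (.g (nat_lit 1088) (.e (nat_lit 7593) (nat_lit 407) (.e (nat_lit 73746) (nat_lit 3) (.e (nat_lit 516185) (nat_lit 16) (.e (nat_lit 491560) (nat_lit 10) .nil)))) (.g (nat_lit 0) (.e (nat_lit 120239) (nat_lit 0) .nil) .nil)))) (.nd (nat_lit 9) 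
(.lf (nat_lit 482651) (.g (nat_lit 1306) (.e (nat_lit 7936) (nat_lit 402) (.e (nat_lit 1255) (nat_lit 92) (.e (nat_lit 98372) (nat_lit 29) (.e (nat_lit 450586) (nat_lit 10) (.e (nat_lit 573470) (nat_lit 11) .nil))))) (.g (nat_lit 0) (.e (nat_lit 119813) (nat_lit 0) .nil) .nil))) 
(.lf (nat_lit 483163) (.g (nat_lit 1329) (.e (nat_lit 6203) (nat_lit 332) (.e (nat_lit 2797) (nat_lit 180) (.e (nat_lit 303117) (nat_lit 2) (.e (nat_lit 196668) (nat_lit 14) .nil)))) (.g (nat_lit 0) (.e (nat_lit 121381) (nat_lit 0) .nil) .nil))))) (.nd (nat_lit 8) (.nd (nat_lit 9) 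
(.lf (nat_lit 482523) (.g (nat_lit 2654) (.e (nat_lit 7486) (nat_lit 402) (.e (nat_lit 1239) (nat_lit 91) (.e (nat_lit 90170) (nat_lit 13) (.e (nat_lit 172113) (nat_lit 10) (.e (nat_lit 434248) (nat_lit 28) .nil))))) (.g (nat_lit 0) (.e (nat_lit 119664) (nat_lit 0) .nil) .nil))) 
(.lf (nat_lit 483035) (.g (nat_lit 1806) (.e (nat_lit 7708) (nat_lit 414) (.e (nat_lit 163875) (nat_lit 3) (.e (nat_lit 204862) (nat_lit 27) (.e (nat_lit 344130) (nat_lit 26) .nil)))) (.g (nat_lit 0) (.e (nat_lit 120596) (nat_lit 0) .nil) .nil)))) (.nd (nat_lit 9) 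
(.lf (nat_lit 482779) (.g (nat_lit 2421) (.e (nat_lit 7589) (nat_lit 406) (.e (nat_lit 65652) (nat_lit 27) (.e (nat_lit 426347) (nat_lit 14) (.e (nat_lit 491571) (nat_lit 13) (.e (nat_lit 393231) (nat_lit 17) .nil))))) (.g (nat_lit 1) (.e (nat_lit 120045) (nat_lit 0) .nil) .nil))) 
(.lf (nat_lit 483291) (.g (nat_lit 2351) (.e (nat_lit 6254) (nat_lit 337) (.e (nat_lit 2725) (nat_lit 172) (.e (nat_lit 237593) (nat_lit 3) (.e (nat_lit 204868) (nat_lit 29) (.e (nat_lit 360473) (nat_lit 8) (.e (nat_lit 557093) (nat_lit 12) (.e (nat_lit 163849) (nat_lit 0) .nil))))))) (.g (nat_lit 1) (.e (nat_lit 122286) (nat_lit 0) .nil) .nil))))))) 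
(.nd (nat_lit 6) (.nd (nat_lit 7) (.nd (nat_lit 8) (.nd (nat_lit 9) 
(.lf (nat_lit 482363) (.g (nat_lit 3679) (.e (nat_lit 7266) (nat_lit 384) (.e (nat_lit 57431) (nat_lit 16) (.e (nat_lit 368676) (nat_lit 21) (.e (nat_lit 516165) (nat_lit 12) (.e (nat_lit 450586) (nat_lit 10) (.e (nat_lit 573473) (nat_lit 12) (.e (nat_lit 57348) (nat_lit 0) .nil))))))) (.g (nat_lit 1) (.e (nat_lit 119025) (nat_lit 0) .nil) .nil))) 
(.lf (nat_lit 482875) (.g (nat_lit 1567) (.e (nat_lit 7591) (nat_lit 407) (.e (nat_lit 73775) (nat_lit 26) (.e (nat_lit 778465) (nat_lit 11) (.e (nat_lit 24636) (nat_lit 9) (.e (nat_lit 336407) (nat_lit 27) .nil))))) (.g (nat_lit 0) (.e (nat_lit 120148) (nat_lit 0) .nil) .nil)))) (.nd (nat_lit 9) 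
(.lf (nat_lit 482619) (.g (nat_lit 1869) (.e (nat_lit 7557) (nat_lit 402) (.e (nat_lit 1235) (nat_lit 91) (.e (nat_lit 90178) (nat_lit 15) (.e (nat_lit 188440) (nat_lit 20) (.e (nat_lit 3271) (nat_lit 199) .nil))))) (.g (nat_lit 0) (.e (nat_lit 119780) (nat_lit 0) .nil) .nil))) 
(.lf (nat_lit 483131) (.g (nat_lit 434) (.e (nat_lit 6126) (nat_lit 332) (.e (nat_lit 1348) (nat_lit 102) (.e (nat_lit 286733) (nat_lit 2) .nil))) (.g (nat_lit 0) (.e (nat_lit 121240) (nat_lit 0) .nil) .nil))))) (.nd (nat_lit 8) (.nd (nat_lit 9) 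
(.lf (nat_lit 482491) (.g (nat_lit 1786) (.e (nat_lit 7936) (nat_lit 392) (.e (nat_lit 172150) (nat_lit 27) (.e (nat_lit 335894) (nat_lit 0) (.e (nat_lit 6722) (nat_lit 362) (.e (nat_lit 180227) (nat_lit 0) .nil))))) (.g (nat_lit 0) (.e (nat_lit 119568) (nat_lit 0) .nil) .nil))) 
(.lf (nat_lit 483003) (.g (nat_lit 934) (.e (nat_lit 7607) (nat_lit 410) (.e (nat_lit 2651) (nat_lit 166) (.e (nat_lit 188431) (nat_lit 20) (.e (nat_lit 3282) (nat_lit 200) .nil)))) (.g (nat_lit 0) (.e (nat_lit 120361) (nat_lit 0) .nil) .nil)))) (.nd (nat_lit 9) 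
(.lf (nat_lit 482747) (.g (nat_lit 3729) (.e (nat_lit 7587) (nat_lit 406) (.e (nat_lit 65637) (nat_lit 15) (.e (nat_lit 3305) (nat_lit 202) (.e (nat_lit 573482) (nat_lit 13) (.e (nat_lit 65619) (nat_lit 10) (.e (nat_lit 344117) (nat_lit 21) (.e (nat_lit 516097) (nat_lit 0) .nil))))))) (.g (nat_lit 1) (.e (nat_lit 119995) (nat_lit 0) .nil) .nil))) 
(.lf (nat_lit 483259) (.g (nat_lit 3804) (.e (nat_lit 6254) (nat_lit 337) (.e (nat_lit 2630) (nat_lit 164) (.e (nat_lit 172062) (nat_lit 2) (.e (nat_lit 196666) (nat_lit 13) (.e (nat_lit 65617) (nat_lit 10) (.e (nat_lit 344132) (nat_lit 26) (.e (nat_lit 557094) (nat_lit 12) (.e (nat_lit 163849) (nat_lit 0) .nil)))))))) (.g (nat_lit 1) (.e (nat_lit 122148) (nat_lit 0) .nil) .nil)))))) 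
(.nd (nat_lit 7) (.nd (nat_lit 8) (.nd (nat_lit 9) 
(.lf (nat_lit 482427) (.g (nat_lit 1285) (.e (nat_lit 7377) (nat_lit 390) (.e (nat_lit 24665) (nat_lit 14) (.e (nat_lit 401446) (nat_lit 10) .nil))) (.g (nat_lit 0) (.e (nat_lit 119385) (nat_lit 0) .nil) .nil))) 
(.lf (nat_lit 482939) (.g (nat_lit 2097) (.e (nat_lit 7593) (nat_lit 407) (.e (nat_lit 73775) (nat_lit 26) (.e (nat_lit 778465) (nat_lit 11) (.e (nat_lit 24623) (nat_lit 9) (.e (nat_lit 336416) (nat_lit 27) (.e (nat_lit 426009) (nat_lit 0) .nil)))))) (.g (nat_lit 1) (.e (nat_lit 120271) (nat_lit 0) .nil) .nil)))) (.nd (nat_lit 9) 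
(.lf (nat_lit 482683) (.g (nat_lit 2501) (.e (nat_lit 7581) (nat_lit 405) (.e (nat_lit 57464) (nat_lit 23) (.e (nat_lit 516151) (nat_lit 9) (.e (nat_lit 426286) (nat_lit 10) (.e (nat_lit 434245) (nat_lit 28) (.e (nat_lit 573458) (nat_lit 9) (.e (nat_lit 426) (nat_lit 32) (.e (nat_lit 426010) (nat_lit 0) .nil)))))))) (.g (nat_lit 1) (.e (nat_lit 119906) (nat_lit 0) .nil) .nil))) 
(.lf (nat_lit 483195) (.g (nat_lit 2947) (.e (nat_lit 6203) (nat_lit 332) (.e (nat_lit 2798) (nat_lit 180) (.e (nat_lit 303133) (nat_lit 9) (.e (nat_lit 426499) (nat_lit 27) (.e (nat_lit 336100) (nat_lit 9) (.e (nat_lit 336032) (nat_lit 4) (.e (nat_lit 123197) (nat_lit 266) (.e (nat_lit 57346) (nat_lit 0) .nil)))))))) (.g (nat_lit 1) (.e (nat_lit 121483) (nat_lit 0) .nil) .nil))))) 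
(.nd (nat_lit 8) (.nd (nat_lit 9) 
(.lf (nat_lit 482555) (.g (nat_lit 2071) (.e (nat_lit 7496) (nat_lit 402) (.e (nat_lit 1234) (nat_lit 91) (.e (nat_lit 90170) (nat_lit 13) (.e (nat_lit 172113) (nat_lit 10) (.e (nat_lit 434245) (nat_lit 28) .nil))))) (.g (nat_lit 0) (.e (nat_lit 119706) (nat_lit 0) .nil) .nil))) 
(.lf (nat_lit 483067) (.g (nat_lit 1599) (.e (nat_lit 7710) (nat_lit 414) (.e (nat_lit 163923) (nat_lit 15) (.e (nat_lit 450587) (nat_lit 10) (.e (nat_lit 573502) (nat_lit 18) .nil)))) (.g (nat_lit 0) (.e (nat_lit 120733) (nat_lit 0) .nil) .nil)))) (.nd (nat_lit 9) 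
(.lf (nat_lit 482811) (.g (nat_lit 3043) (.e (nat_lit 7590) (nat_lit 407) (.e (nat_lit 73747) (nat_lit 3) (.e (nat_lit 516142) (nat_lit 8) (.e (nat_lit 417827) (nat_lit 17) (.e (nat_lit 294928) (nat_lit 2) (.e (nat_lit 90133) (nat_lit 9) (.e (nat_lit 2397) (nat_lit 157) .nil))))))) (.g (nat_lit 1) (.e (nat_lit 120082) (nat_lit 0) .nil) .nil))) 
(.lf (nat_lit 483323) (.g (nat_lit 3714) (.e (nat_lit 6255) (nat_lit 337) (.e (nat_lit 2643) (nat_lit 165) (.e (nat_lit 180243) (nat_lit 5) (.e (nat_lit 532549) (nat_lit 12) (.e (nat_lit 360473) (nat_lit 8) (.e (nat_lit 557094) (nat_lit 12) (.e (nat_lit 163849) (nat_lit 0) .nil))))))) (.g (nat_lit 1) (.e (nat_lit 122452) (nat_lit 0) .nil) .nil)))))))))) 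
(.nd (nat_lit 3) (.nd (nat_lit 4) (.nd (nat_lit 5) (.nd (nat_lit 6) (.nd (nat_lit 7) 
(.nd (nat_lit 8) (.nd (nat_lit 9) 
(.lf (nat_lit 482311) (.g (nat_lit 4665) (.e (nat_lit 7265) (nat_lit 384) (.e (nat_lit 57412) (nat_lit 12) (.e (nat_lit 336001) (nat_lit 2) (.e (nat_lit 90170) (nat_lit 13) (.e (nat_lit 172113) (nat_lit 10) (.e (nat_lit 434242) (nat_lit 28) (.e (nat_lit 573474) (nat_lit 12) (.e (nat_lit 57347) (nat_lit 0) .nil)))))))) (.g (nat_lit 1) (.e (nat_lit 118971) (nat_lit 0) .nil) .nil))) 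
(.lf (nat_lit 482823) (.g (nat_lit 409) (.e (nat_lit 7590) (nat_lit 407) (.e (nat_lit 73755) (nat_lit 8) (.e (nat_lit 557087) (nat_lit 11) .nil))) (.g (nat_lit 0) (.e (nat_lit 120094) (nat_lit 0) .nil) .nil)))) (.nd (nat_lit 9) 
(.lf (nat_lit 482567) (.g (nat_lit 747) (.e (nat_lit 7513) (nat_lit 402) (.e (nat_lit 1427) (nat_lit 108) (.e (nat_lit 336421) (nat_lit 28) .nil))) (.g (nat_lit 0) (.e (nat_lit 119720) (nat_lit 0) .nil) .nil))) 
(.lf (nat_lit 483079) (.g (nat_lit 4630) (.e (nat_lit 7695) (nat_lit 412) (.e (nat_lit 57368) (nat_lit 1) (.e (nat_lit 57854) (nat_lit 252) (.e (nat_lit 57409) (nat_lit 12) (.e (nat_lit 336316) (nat_lit 17) (.e (nat_lit 196666) (nat_lit 13) (.e (nat_lit 65610) (nat_lit 10) (.e (nat_lit 344090) (nat_lit 18) .nil)))))))) (.g (nat_lit 1) (.e (nat_lit 120790) (nat_lit 0) .nil) .nil))))) 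
(.nd (nat_lit 8) (.nd (nat_lit 9) 
(.lf (nat_lit 482439) (.g (nat_lit 518) (.e (nat_lit 7379) (nat_lit 390) (.e (nat_lit 24580) (nat_lit 0) (.e (nat_lit 6722) (nat_lit 362) .nil))) (.g (nat_lit 0) (.e (nat_lit 119435) (nat_lit 0) .nil) .nil))) 
(.lf (nat_lit 482951) (.g (nat_lit 3163) (.e (nat_lit 7593) (nat_lit 407) (.e (nat_lit 73775) (nat_lit 26) (.e (nat_lit 778465) (nat_lit 11) (.e (nat_lit 24655) (nat_lit 13) (.e (nat_lit 393232) (nat_lit 17) .nil))))) (.g (nat_lit 1) (.e (nat_lit 120284) (nat_lit 0) .nil) .nil)))) (.nd (nat_lit 9) 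
(.lf (nat_lit 482695) (.g (nat_lit 3259) (.e (nat_lit 7581) (nat_lit 405) (.e (nat_lit 57464) (nat_lit 23) (.e (nat_lit 516165) (nat_lit 12) (.e (nat_lit 450588) (nat_lit 10) (.e (nat_lit 573470) (nat_lit 11) (.e (nat_lit 16387) (nat_lit 0) .nil)))))) (.g (nat_lit 1) (.e (nat_lit 119918) (nat_lit 0) .nil) .nil))) 
(.lf (nat_lit 483207) (.g (nat_lit 1966) (.e (nat_lit 6203) (nat_lit 332) (.e (nat_lit 2798) (nat_lit 180) (.e (nat_lit 303145) (nat_lit 13) (.e (nat_lit 483378) (nat_lit 23) .nil)))) (.g (nat_lit 0) (.e (nat_lit 121502) (nat_lit 0) .nil) .nil)))))) (.nd (nat_lit 7) (.nd (nat_lit 8) (.nd (nat_lit 9) 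
(.lf (nat_lit 482375) (.g (nat_lit 3532) (.e (nat_lit 7270) (nat_lit 385) (.e (nat_lit 122913) (nat_lit 13) (.e (nat_lit 344129) (nat_lit 26) (.e (nat_lit 557067) (nat_lit 9) (.e (nat_lit 2828) (nat_lit 182) (.e (nat_lit 409646) (nat_lit 18) (.e (nat_lit 303154) (nat_lit 28) (.e (nat_lit 344100) (nat_lit 18) .nil)))))))) (.g (nat_lit 1) (.e (nat_lit 119037) (nat_lit 0) .nil) .nil))) 
(.lf (nat_lit 482887) (.g (nat_lit 1947) (.e (nat_lit 7592) (nat_lit 407) (.e (nat_lit 73775) (nat_lit 26) (.e (nat_lit 778466) (nat_lit 11) (.e (nat_lit 24632) (nat_lit 9) (.e (nat_lit 336410) (nat_lit 27) (.e (nat_lit 425990) (nat_lit 0) .nil)))))) (.g (nat_lit 1) (.e (nat_lit 120214) (nat_lit 0) .nil) .nil)))) (.nd (nat_lit 9) 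
(.lf (nat_lit 482631) (.g (nat_lit 3296) (.e (nat_lit 7562) (nat_lit 402) (.e (nat_lit 1253) (nat_lit 92) (.e (nat_lit 98373) (nat_lit 29) (.e (nat_lit 450586) (nat_lit 10) (.e (nat_lit 573471) (nat_lit 11) .nil))))) (.g (nat_lit 0) (.e (nat_lit 119792) (nat_lit 0) .nil) .nil))) 
(.lf (nat_lit 483143) (.g (nat_lit 1686) (.e (nat_lit 6202) (nat_lit 332) (.e (nat_lit 2797) (nat_lit 180) (.e (nat_lit 303117) (nat_lit 2) (.e (nat_lit 196669) (nat_lit 14) .nil)))) (.g (nat_lit 0) (.e (nat_lit 121301) (nat_lit 0) .nil) .nil))))) (.nd (nat_lit 8) (.nd (nat_lit 9) 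
(.lf (nat_lit 482503) (.g (nat_lit 1624) (.e (nat_lit 7936) (nat_lit 393) (.e (nat_lit 180243) (nat_lit 5) (.e (nat_lit 532523) (nat_lit 7) (.e (nat_lit 327424) (nat_lit 16) .nil)))) (.g (nat_lit 0) (.e (nat_lit 119595) (nat_lit 0) .nil) .nil))) 
(.lf (nat_lit 483015) (.g (nat_lit 1985) (.e (nat_lit 7685) (nat_lit 410) (.e (nat_lit 2649) (nat_lit 166) (.e (nat_lit 188434) (nat_lit 20) (.e (nat_lit 3289) (nat_lit 201) (.e (nat_lit 565252) (nat_lit 0) (.e (nat_lit 1598) (nat_lit 111) (.e (nat_lit 368384) (nat_lit 0) .nil))))))) (.g (nat_lit 1) (.e (nat_lit 120516) (nat_lit 0) .nil) .nil)))) (.nd (nat_lit 9) 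
(.lf (nat_lit 482759) (.g (nat_lit 1811) (.e (nat_lit 7587) (nat_lit 406) (.e (nat_lit 65653) (nat_lit 27) (.e (nat_lit 426342) (nat_lit 14) (.e (nat_lit 491570) (nat_lit 13) (.e (nat_lit 393231) (nat_lit 17) .nil))))) (.g (nat_lit 1) (.e (nat_lit 120007) (nat_lit 0) .nil) .nil))) 
(.lf (nat_lit 483271) (.g (nat_lit 5043) (.e (nat_lit 6254) (nat_lit 337) (.e (nat_lit 2630) (nat_lit 164) (.e (nat_lit 172066) (nat_lit 3) (.e (nat_lit 204869) (nat_lit 29) (.e (nat_lit 360475) (nat_lit 8) (.e (nat_lit 557091) (nat_lit 12) (.e (nat_lit 163847) (nat_lit 0) .nil))))))) (.g (nat_lit 1) (.e (nat_lit 122161) (nat_lit 0) .nil) .nil))))))) 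
(.nd (nat_lit 6) (.nd (nat_lit 7) (.nd (nat_lit 8) (.nd (nat_lit 9) 
(.lf (nat_lit 482343) (.g (nat_lit 1936) (.e (nat_lit 7266) (nat_lit 384) (.e (nat_lit 57409) (nat_lit 12) (.e (nat_lit 336019) (nat_lit 3) (.e (nat_lit 98372) (nat_lit 29) (.e (nat_lit 450586) (nat_lit 10) .nil))))) (.g (nat_lit 0) (.e (nat_lit 119005) (nat_lit 0) .nil) .nil))) 
(.lf (nat_lit 482855) (.g (nat_lit 2392) (.e (nat_lit 7591) (nat_lit 407) (.e (nat_lit 73748) (nat_lit 3) (.e (nat_lit 516139) (nat_lit 7) (.e (nat_lit 409640) (nat_lit 17) (.e (nat_lit 294931) (nat_lit 3) (.e (nat_lit 98320) (nat_lit 17) .nil)))))) (.g (nat_lit 1) (.e (nat_lit 120128) (nat_lit 0) .nil) .nil)))) (.nd (nat_lit 9) 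
(.lf (nat_lit 482599) (.g (nat_lit 3197) (.e (nat_lit 7554) (nat_lit 402) (.e (nat_lit 1635) (nat_lit 114) (.e (nat_lit 385074) (nat_lit 31) (.e (nat_lit 573482) (nat_lit 13) (.e (nat_lit 65604) (nat_lit 9) .nil))))) (.g (nat_lit 0) (.e (nat_lit 119759) (nat_lit 0) .nil) .nil))) 
(.lf (nat_lit 483111) (.g (nat_lit 997) (.e (nat_lit 6112) (nat_lit 332) (.e (nat_lit 2810) (nat_lit 180) (.e (nat_lit 303119) (nat_lit 3) (.e (nat_lit 204869) (nat_lit 29) .nil)))) (.g (nat_lit 0) (.e (nat_lit 121130) (nat_lit 0) .nil) .nil))))) (.nd (nat_lit 8) (.nd (nat_lit 9) 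
(.lf (nat_lit 482471) (.g (nat_lit 4532) (.e (nat_lit 7386) (nat_lit 392) (.e (nat_lit 172067) (nat_lit 3) (.e (nat_lit 204846) (nat_lit 24) (.e (nat_lit 319534) (nat_lit 16) (.e (nat_lit 286735) (nat_lit 3) (.e (nat_lit 98320) (nat_lit 17) .nil)))))) (.g (nat_lit 1) (.e (nat_lit 119536) (nat_lit 0) .nil) .nil))) 
(.lf (nat_lit 482983) (.g (nat_lit 2165) (.e (nat_lit 7936) (nat_lit 407) (.e (nat_lit 73754) (nat_lit 8) (.e (nat_lit 557119) (nat_lit 18) (.e (nat_lit 2798) (nat_lit 180) (.e (nat_lit 303145) (nat_lit 13) .nil))))) (.g (nat_lit 0) (.e (nat_lit 120322) (nat_lit 0) .nil) .nil)))) (.nd (nat_lit 9) 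
(.lf (nat_lit 482727) (.g (nat_lit 4482) (.e (nat_lit 7586) (nat_lit 406) (.e (nat_lit 65571) (nat_lit 3) (.e (nat_lit 98350) (nat_lit 24) (.e (nat_lit 409616) (nat_lit 10) (.e (nat_lit 5355) (nat_lit 298) (.e (nat_lit 1235) (nat_lit 91) (.e (nat_lit 90133) (nat_lit 9) (.e (nat_lit 2400) (nat_lit 157) .nil)))))))) (.g (nat_lit 1) (.e (nat_lit 119964) (nat_lit 0) .nil) .nil))) 
(.lf (nat_lit 483239) (.g (nat_lit 3590) (.e (nat_lit 6252) (nat_lit 337) (.e (nat_lit 2630) (nat_lit 164) (.e (nat_lit 172062) (nat_lit 2) (.e (nat_lit 196666) (nat_lit 13) (.e (nat_lit 65617) (nat_lit 10) (.e (nat_lit 344130) (nat_lit 26) (.e (nat_lit 557089) (nat_lit 12) (.e (nat_lit 163844) (nat_lit 0) .nil)))))))) (.g (nat_lit 1) (.e (nat_lit 121973) (nat_lit 0) .nil) .nil)))))) 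
(.nd (nat_lit 7) (.nd (nat_lit 8) (.nd (nat_lit 9) 
(.lf (nat_lit 482407) (.g (nat_lit 1395) (.e (nat_lit 7936) (nat_lit 388) (.e (nat_lit 3062) (nat_lit 190) (.e (nat_lit 475179) (nat_lit 24) (.e (nat_lit 516120) (nat_lit 1) (.e (nat_lit 164332) (nat_lit 230) .nil))))) (.g (nat_lit 0) (.e (nat_lit 119303) (nat_lit 0) .nil) .nil))) 
(.lf (nat_lit 482919) (.g (nat_lit 2195) (.e (nat_lit 7593) (nat_lit 407) (.e (nat_lit 73753) (nat_lit 8) (.e (nat_lit 557087) (nat_lit 11) (.e (nat_lit 24645) (nat_lit 11) (.e (nat_lit 368676) (nat_lit 21) (.e (nat_lit 516098) (nat_lit 0) .nil)))))) (.g (nat_lit 1) (.e (nat_lit 120251) (nat_lit 0) .nil) .nil)))) (.nd (nat_lit 9) 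
(.lf (nat_lit 482663) (.g (nat_lit 2778) (.e (nat_lit 7936) (nat_lit 402) (.e (nat_lit 1631) (nat_lit 114) (.e (nat_lit 385074) (nat_lit 31) (.e (nat_lit 573482) (nat_lit 13) (.e (nat_lit 65604) (nat_lit 9) .nil))))) (.g (nat_lit 0) (.e (nat_lit 119827) (nat_lit 0) .nil) .nil))) 
(.lf (nat_lit 483175) (.g (nat_lit 2946) (.e (nat_lit 6203) (nat_lit 332) (.e (nat_lit 2798) (nat_lit 180) (.e (nat_lit 303117) (nat_lit 2) (.e (nat_lit 196670) (nat_lit 14) (.e (nat_lit 73792) (nat_lit 45) (.e (nat_lit 1141) (nat_lit 84) (.e (nat_lit 32778) (nat_lit 5) (.e (nat_lit 991) (nat_lit 81) .nil)))))))) (.g (nat_lit 1) (.e (nat_lit 121444) (nat_lit 0) .nil) .nil))))) 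
(.nd (nat_lit 8) (.nd (nat_lit 9) 
(.lf (nat_lit 482535) (.g (nat_lit 2624) (.e (nat_lit 7489) (nat_lit 402) (.e (nat_lit 1239) (nat_lit 91) (.e (nat_lit 90170) (nat_lit 13) (.e (nat_lit 172126) (nat_lit 14) (.e (nat_lit 491537) (nat_lit 2) .nil))))) (.g (nat_lit 0) (.e (nat_lit 119676) (nat_lit 0) .nil) .nil))) 
(.lf (nat_lit 483047) (.g (nat_lit 2662) (.e (nat_lit 7710) (nat_lit 414) (.e (nat_lit 163874) (nat_lit 3) (.e (nat_lit 204863) (nat_lit 27) (.e (nat_lit 344129) (nat_lit 26) (.e (nat_lit 557097) (nat_lit 13) .nil))))) (.g (nat_lit 0) (.e (nat_lit 120685) (nat_lit 0) .nil) .nil)))) (.nd (nat_lit 9) 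
(.lf (nat_lit 482791) (.g (nat_lit 883) (.e (nat_lit 7589) (nat_lit 406) (.e (nat_lit 65653) (nat_lit 27) (.e (nat_lit 426344) (nat_lit 14) (.e (nat_lit 491552) (nat_lit 9) .nil)))) (.g (nat_lit 0) (.e (nat_lit 120057) (nat_lit 0) .nil) .nil))) 
(.lf (nat_lit 483303) (.g (nat_lit 3186) (.e (nat_lit 6255) (nat_lit 337) (.e (nat_lit 2630) (nat_lit 164) (.e (nat_lit 172066) (nat_lit 3) (.e (nat_lit 204869) (nat_lit 29) (.e (nat_lit 360474) (nat_lit 8) (.e (nat_lit 557094) (nat_lit 12) (.e (nat_lit 163847) (nat_lit 0) .nil))))))) (.g (nat_lit 1) (.e (nat_lit 122308) (nat_lit 0) .nil) .nil)))))))) 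
(.nd (nat_lit 5) (.nd (nat_lit 6) (.nd (nat_lit 7) (.nd (nat_lit 8) (.nd (nat_lit 9) 
(.lf (nat_lit 482327) (.g (nat_lit 6674) (.e (nat_lit 7265) (nat_lit 384) (.e (nat_lit 57430) (nat_lit 16) (.e (nat_lit 368676) (nat_lit 21) (.e (nat_lit 516166) (nat_lit 12) (.e (nat_lit 450588) (nat_lit 10) (.e (nat_lit 573475) (nat_lit 12) (.e (nat_lit 57347) (nat_lit 0) .nil))))))) (.g (nat_lit 1) (.e (nat_lit 118987) (nat_lit 0) .nil) .nil))) 
(.lf (nat_lit 482839) (.g (nat_lit 2249) (.e (nat_lit 7591) (nat_lit 407) (.e (nat_lit 73746) (nat_lit 3) (.e (nat_lit 516185) (nat_lit 16) (.e (nat_lit 491560) (nat_lit 10) (.e (nat_lit 344117) (nat_lit 21) (.e (nat_lit 516098) (nat_lit 0) .nil)))))) (.g (nat_lit 1) (.e (nat_lit 120112) (nat_lit 0) .nil) .nil)))) (.nd (nat_lit 9) 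
(.lf (nat_lit 482583) (.g (nat_lit 3605) (.e (nat_lit 7536) (nat_lit 402) (.e (nat_lit 1250) (nat_lit 92) (.e (nat_lit 98373) (nat_lit 29) (.e (nat_lit 450588) (nat_lit 10) (.e (nat_lit 573469) (nat_lit 11) .nil))))) (.g (nat_lit 0) (.e (nat_lit 119739) (nat_lit 0) .nil) .nil))) 
(.lf (nat_lit 483095) (.g (nat_lit 3847) (.e (nat_lit 7702) (nat_lit 413) (.e (nat_lit 122889) (nat_lit 1) (.e (nat_lit 57854) (nat_lit 252) (.e (nat_lit 57409) (nat_lit 12) (.e (nat_lit 336316) (nat_lit 17) (.e (nat_lit 196666) (nat_lit 13) (.e (nat_lit 65617) (nat_lit 10) (.e (nat_lit 344091) (nat_lit 18) .nil)))))))) (.g (nat_lit 1) (.e (nat_lit 120806) (nat_lit 0) .nil) .nil))))) 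
(.nd (nat_lit 8) (.nd (nat_lit 9) 
(.lf (nat_lit 482455) (.g (nat_lit 3047) (.e (nat_lit 7936) (nat_lit 390) (.e (nat_lit 24664) (nat_lit 14) (.e (nat_lit 401448) (nat_lit 10) (.e (nat_lit 434289) (nat_lit 43) (.e (nat_lit 696344) (nat_lit 8) .nil))))) (.g (nat_lit 0) (.e (nat_lit 119464) (nat_lit 0) .nil) .nil))) 
(.lf (nat_lit 482967) (.g (nat_lit 2474) (.e (nat_lit 7593) (nat_lit 407) (.e (nat_lit 73775) (nat_lit 26) (.e (nat_lit 778466) (nat_lit 11) (.e (nat_lit 24658) (nat_lit 13) (.e (nat_lit 393231) (nat_lit 17) .nil))))) (.g (nat_lit 1) (.e (nat_lit 120300) (nat_lit 0) .nil) .nil)))) (.nd (nat_lit 9) 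
(.lf (nat_lit 482711) (.g (nat_lit 1793) (.e (nat_lit 7583) (nat_lit 405) (.e (nat_lit 57476) (nat_lit 28) (.e (nat_lit 557067) (nat_lit 9) (.e (nat_lit 2974) (nat_lit 185) .nil)))) (.g (nat_lit 0) (.e (nat_lit 119940) (nat_lit 0) .nil) .nil))) 
(.lf (nat_lit 483223) (.g (nat_lit 104) (.e (nat_lit 6243) (nat_lit 336) (.e (nat_lit 229645) (nat_lit 232) (.e (nat_lit 464) (nat_lit 34) (.e (nat_lit 450304) (nat_lit 5) .nil)))) (.g (nat_lit 0) (.e (nat_lit 121836) (nat_lit 0) .nil) .nil)))))) (.nd (nat_lit 7) (.nd (nat_lit 8) (.nd (nat_lit 9) 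
(.lf (nat_lit 482391) (.g (nat_lit 2757) (.e (nat_lit 7343) (nat_lit 388) (.e (nat_lit 3062) (nat_lit 190) (.e (nat_lit 475185) (nat_lit 29) (.e (nat_lit 557105) (nat_lit 14) .nil)))) (.g (nat_lit 0) (.e (nat_lit 119178) (nat_lit 0) .nil) .nil))) 
(.lf (nat_lit 482903) (.g (nat_lit 1824) (.e (nat_lit 7593) (nat_lit 407) (.e (nat_lit 73746) (nat_lit 3) (.e (nat_lit 516185) (nat_lit 16) (.e (nat_lit 491552) (nat_lit 9) (.e (nat_lit 336020) (nat_lit 3) .nil))))) (.g (nat_lit 0) (.e (nat_lit 120235) (nat_lit 0) .nil) .nil)))) (.nd (nat_lit 9) 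
(.lf (nat_lit 482647) (.g (nat_lit 3230) (.e (nat_lit 7545) (nat_lit 402) (.e (nat_lit 1237) (nat_lit 91) (.e (nat_lit 90170) (nat_lit 13) (.e (nat_lit 172113) (nat_lit 10) (.e (nat_lit 434248) (nat_lit 28) .nil))))) (.g (nat_lit 0) (.e (nat_lit 119809) (nat_lit 0) .nil) .nil))) 
(.lf (nat_lit 483159) (.g (nat_lit 353) (.e (nat_lit 6202) (nat_lit 332) (.e (nat_lit 2798) (nat_lit 180) (.e (nat_lit 303145) (nat_lit 13) .nil))) (.g (nat_lit 0) (.e (nat_lit 121335) (nat_lit 0) .nil) .nil))))) (.nd (nat_lit 8) (.nd (nat_lit 9) 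
(.lf (nat_lit 482519) (.g (nat_lit 2659) (.e (nat_lit 7486) (nat_lit 402) (.e (nat_lit 1239) (nat_lit 91) (.e (nat_lit 90170) (nat_lit 13) (.e (nat_lit 172113) (nat_lit 10) (.e (nat_lit 434245) (nat_lit 28) .nil))))) (.g (nat_lit 0) (.e (nat_lit 119660) (nat_lit 0) .nil) .nil))) 
(.lf (nat_lit 483031) (.g (nat_lit 1743) (.e (nat_lit 7660) (nat_lit 410) (.e (nat_lit 1171) (nat_lit 87) (.e (nat_lit 57572) (nat_lit 54) (.e (nat_lit 770072) (nat_lit 8) (.e (nat_lit 65586) (nat_lit 7) .nil))))) (.g (nat_lit 0) (.e (nat_lit 120540) (nat_lit 0) .nil) .nil)))) (.nd (nat_lit 9) 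
(.lf (nat_lit 482775) (.g (nat_lit 2955) (.e (nat_lit 7588) (nat_lit 406) (.e (nat_lit 65653) (nat_lit 27) (.e (nat_lit 426308) (nat_lit 12) (.e (nat_lit 475210) (nat_lit 41) (.e (nat_lit 712745) (nat_lit 27) (.e (nat_lit 425984) (nat_lit 0) .nil)))))) (.g (nat_lit 1) (.e (nat_lit 120037) (nat_lit 0) .nil) .nil))) 
(.lf (nat_lit 483287) (.g (nat_lit 4734) (.e (nat_lit 6254) (nat_lit 337) (.e (nat_lit 2725) (nat_lit 172) (.e (nat_lit 237589) (nat_lit 2) (.e (nat_lit 196666) (nat_lit 13) (.e (nat_lit 65617) (nat_lit 10) (.e (nat_lit 344130) (nat_lit 26) (.e (nat_lit 557090) (nat_lit 12) (.e (nat_lit 163847) (nat_lit 0) .nil)))))))) (.g (nat_lit 1) (.e (nat_lit 122282) (nat_lit 0) .nil) .nil))))))) 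
(.nd (nat_lit 6) (.nd (nat_lit 7) (.nd (nat_lit 8) (.nd (nat_lit 9) 
(.lf (nat_lit 482359) (.g (nat_lit 6436) (.e (nat_lit 7266) (nat_lit 384) (.e (nat_lit 57430) (nat_lit 16) (.e (nat_lit 368676) (nat_lit 21) (.e (nat_lit 516166) (nat_lit 12) (.e (nat_lit 450588) (nat_lit 10) (.e (nat_lit 573473) (nat_lit 12) (.e (nat_lit 57348) (nat_lit 0) .nil))))))) (.g (nat_lit 1) (.e (nat_lit 119021) (nat_lit 0) .nil) .nil))) 
(.lf (nat_lit 482871) (.g (nat_lit 2666) (.e (nat_lit 7591) (nat_lit 407) (.e (nat_lit 73775) (nat_lit 26) (.e (nat_lit 778465) (nat_lit 11) (.e (nat_lit 24623) (nat_lit 9) (.e (nat_lit 336384) (nat_lit 27) (.e (nat_lit 426011) (nat_lit 0) .nil)))))) (.g (nat_lit 1) (.e (nat_lit 120144) (nat_lit 0) .nil) .nil)))) (.nd (nat_lit 9) 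
(.lf (nat_lit 482615) (.g (nat_lit 2619) (.e (nat_lit 7556) (nat_lit 402) (.e (nat_lit 1638) (nat_lit 114) (.e (nat_lit 385074) (nat_lit 31) (.e (nat_lit 573481) (nat_lit 13) (.e (nat_lit 65604) (nat_lit 9) .nil))))) (.g (nat_lit 0) (.e (nat_lit 119776) (nat_lit 0) .nil) .nil))) 
(.lf (nat_lit 483127) (.g (nat_lit 2017) (.e (nat_lit 6113) (nat_lit 332) (.e (nat_lit 1376) (nat_lit 104) (.e (nat_lit 303117) (nat_lit 2) (.e (nat_lit 196661) (nat_lit 12) (.e (nat_lit 65280) (nat_lit 206) (.e (nat_lit 180245) (nat_lit 5) (.e (nat_lit 532486) (nat_lit 0) .nil))))))) (.g (nat_lit 1) (.e (nat_lit 121219) (nat_lit 0) .nil) .nil))))) (.nd (nat_lit 8) (.nd (nat_lit 9) 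
(.lf (nat_lit 482487) (.g (nat_lit 2523) (.e (nat_lit 7936) (nat_lit 392) (.e (nat_lit 172067) (nat_lit 3) (.e (nat_lit 204846) (nat_lit 24) (.e (nat_lit 319534) (nat_lit 16) (.e (nat_lit 286735) (nat_lit 3) .nil))))) (.g (nat_lit 0) (.e (nat_lit 119557) (nat_lit 0) .nil) .nil))) 
(.lf (nat_lit 482999) (.g (nat_lit 411) (.e (nat_lit 7607) (nat_lit 410) (.e (nat_lit 2630) (nat_lit 164) (.e (nat_lit 172113) (nat_lit 10) .nil))) (.g (nat_lit 0) (.e (nat_lit 120352) (nat_lit 0) .nil) .nil)))) (.nd (nat_lit 9) 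
(.lf (nat_lit 482743) (.g (nat_lit 1778) (.e (nat_lit 7587) (nat_lit 406) (.e (nat_lit 65580) (nat_lit 6) (.e (nat_lit 147493) (nat_lit 11) (.e (nat_lit 24657) (nat_lit 13) (.e (nat_lit 393231) (nat_lit 17) .nil))))) (.g (nat_lit 1) (.e (nat_lit 119990) (nat_lit 0) .nil) .nil))) 
(.lf (nat_lit 483255) (.g (nat_lit 4120) (.e (nat_lit 6252) (nat_lit 337) (.e (nat_lit 2630) (nat_lit 164) (.e (nat_lit 172067) (nat_lit 3) (.e (nat_lit 204869) (nat_lit 29) (.e (nat_lit 360474) (nat_lit 8) (.e (nat_lit 557094) (nat_lit 12) (.e (nat_lit 163847) (nat_lit 0) .nil))))))) (.g (nat_lit 1) (.e (nat_lit 122005) (nat_lit 0) .nil) .nil)))))) 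
(.nd (nat_lit 7) (.nd (nat_lit 8) (.nd (nat_lit 9) 
(.lf (nat_lit 482423) (.g (nat_lit 1268) (.e (nat_lit 7377) (nat_lit 390) (.e (nat_lit 24665) (nat_lit 14) (.e (nat_lit 401434) (nat_lit 9) .nil))) (.g (nat_lit 0) (.e (nat_lit 119380) (nat_lit 0) .nil) .nil))) 
(.lf (nat_lit 482935) (.g (nat_lit 2123) (.e (nat_lit 7593) (nat_lit 407) (.e (nat_lit 73775) (nat_lit 26) (.e (nat_lit 778465) (nat_lit 11) (.e (nat_lit 24623) (nat_lit 9) (.e (nat_lit 336384) (nat_lit 27) (.e (nat_lit 426010) (nat_lit 0) .nil)))))) (.g (nat_lit 1) (.e (nat_lit 120267) (nat_lit 0) .nil) .nil)))) (.nd (nat_lit 9) 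
(.lf (nat_lit 482679) (.g (nat_lit 398) (.e (nat_lit 7936) (nat_lit 404) (.e (nat_lit 16458) (nat_lit 12) (.e (nat_lit 475181) (nat_lit 27) (.e (nat_lit 540703) (nat_lit 11) .nil)))) (.g (nat_lit 0) (.e (nat_lit 119891) (nat_lit 0) .nil) .nil))) 
(.lf (nat_lit 483191) (.g (nat_lit 1996) (.e (nat_lit 6203) (nat_lit 332) (.e (nat_lit 2798) (nat_lit 180) (.e (nat_lit 303133) (nat_lit 9) (.e (nat_lit 426499) (nat_lit 27) (.e (nat_lit 336073) (nat_lit 9) .nil))))) (.g (nat_lit 0) (.e (nat_lit 121479) (nat_lit 0) .nil) .nil))))) (.nd (nat_lit 8) (.nd (nat_lit 9) 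
(.lf (nat_lit 482551) (.g (nat_lit 3490) (.e (nat_lit 7492) (nat_lit 402) (.e (nat_lit 1633) (nat_lit 114) (.e (nat_lit 385074) (nat_lit 31) (.e (nat_lit 573493) (nat_lit 15) (.e (nat_lit 81951) (nat_lit 22) .nil))))) (.g (nat_lit 0) (.e (nat_lit 119696) (nat_lit 0) .nil) .nil))) 
(.lf (nat_lit 483063) (.g (nat_lit 1650) (.e (nat_lit 7710) (nat_lit 414) (.e (nat_lit 163908) (nat_lit 12) (.e (nat_lit 426285) (nat_lit 10) (.e (nat_lit 434241) (nat_lit 27) (.e (nat_lit 565267) (nat_lit 4) (.e (nat_lit 65611) (nat_lit 10) (.e (nat_lit 344090) (nat_lit 18) .nil))))))) (.g (nat_lit 1) (.e (nat_lit 120708) (nat_lit 0) .nil) .nil)))) (.nd (nat_lit 9) 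
(.lf (nat_lit 482807) (.g (nat_lit 2381) (.e (nat_lit 7590) (nat_lit 407) (.e (nat_lit 73747) (nat_lit 3) (.e (nat_lit 516139) (nat_lit 7) (.e (nat_lit 417536) (nat_lit 16) (.e (nat_lit 286733) (nat_lit 2) (.e (nat_lit 90133) (nat_lit 9) (.e (nat_lit 2400) (nat_lit 157) .nil))))))) (.g (nat_lit 1) (.e (nat_lit 120078) (nat_lit 0) .nil) .nil))) 
(.lf (nat_lit 483319) (.g (nat_lit 4946) (.e (nat_lit 6255) (nat_lit 337) (.e (nat_lit 2641) (nat_lit 165) (.e (nat_lit 180244) (nat_lit 5) (.e (nat_lit 532550) (nat_lit 12) (.e (nat_lit 360475) (nat_lit 8) (.e (nat_lit 557091) (nat_lit 12) (.e (nat_lit 163847) (nat_lit 0) .nil))))))) (.g (nat_lit 1) (.e (nat_lit 122445) (nat_lit 0) .nil) .nil))))))))) 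
(.nd (nat_lit 4) (.nd (nat_lit 5) (.nd (nat_lit 6) (.nd (nat_lit 7) (.nd (nat_lit 8) 
(.nd (nat_lit 9) 
(.lf (nat_lit 482319) (.g (nat_lit 4711) (.e (nat_lit 7265) (nat_lit 384) (.e (nat_lit 57412) (nat_lit 12) (.e (nat_lit 336022) (nat_lit 3) (.e (nat_lit 98373) (nat_lit 29) (.e (nat_lit 450588) (nat_lit 10) (.e (nat_lit 573473) (nat_lit 12) (.e (nat_lit 57348) (nat_lit 0) .nil))))))) (.g (nat_lit 1) (.e (nat_lit 118979) (nat_lit 0) .nil) .nil))) 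
(.lf (nat_lit 482831) (.g (nat_lit 2117) (.e (nat_lit 7590) (nat_lit 407) (.e (nat_lit 73775) (nat_lit 26) (.e (nat_lit 778465) (nat_lit 11) (.e (nat_lit 24624) (nat_lit 9) (.e (nat_lit 336414) (nat_lit 27) .nil))))) (.g (nat_lit 0) (.e (nat_lit 120102) (nat_lit 0) .nil) .nil)))) (.nd (nat_lit 9) 
(.lf (nat_lit 482575) (.g (nat_lit 2410) (.e (nat_lit 7521) (nat_lit 402) (.e (nat_lit 1225) (nat_lit 91) (.e (nat_lit 90170) (nat_lit 13) (.e (nat_lit 172113) (nat_lit 10) (.e (nat_lit 434245) (nat_lit 28) .nil))))) (.g (nat_lit 0) (.e (nat_lit 119728) (nat_lit 0) .nil) .nil))) 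
(.lf (nat_lit 483087) (.g (nat_lit 2670) (.e (nat_lit 7695) (nat_lit 412) (.e (nat_lit 57379) (nat_lit 3) (.e (nat_lit 98367) (nat_lit 27) (.e (nat_lit 434231) (nat_lit 23) (.e (nat_lit 532579) (nat_lit 26) (.e (nat_lit 426123) (nat_lit 2) (.e (nat_lit 196661) (nat_lit 12) (.e (nat_lit 57353) (nat_lit 0) .nil)))))))) (.g (nat_lit 1) (.e (nat_lit 120798) (nat_lit 0) .nil) .nil))))) 
(.nd (nat_lit 8) (.nd (nat_lit 9) 
(.lf (nat_lit 482447) (.g (nat_lit 2715) (.e (nat_lit 7379) (nat_lit 390) (.e (nat_lit 24665) (nat_lit 14) (.e (nat_lit 401446) (nat_lit 10) (.e (nat_lit 434291) (nat_lit 44) .nil)))) (.g (nat_lit 0) (.e (nat_lit 119446) (nat_lit 0) .nil) .nil))) 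
(.lf (nat_lit 482959) (.g (nat_lit 1520) (.e (nat_lit 7593) (nat_lit 407) (.e (nat_lit 73775) (nat_lit 26) (.e (nat_lit 778466) (nat_lit 11) (.e (nat_lit 24632) (nat_lit 9) (.e (nat_lit 336388) (nat_lit 27) .nil))))) (.g (nat_lit 0) (.e (nat_lit 120292) (nat_lit 0) .nil) .nil)))) (.nd (nat_lit 9) 
(.lf (nat_lit 482703) (.g (nat_lit 829) (.e (nat_lit 7582) (nat_lit 405) (.e (nat_lit 57347) (nat_lit 0) (.e (nat_lit 7265) (nat_lit 384) (.e (nat_lit 57406) (nat_lit 12) .nil)))) (.g (nat_lit 0) (.e (nat_lit 119928) (nat_lit 0) .nil) .nil))) 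
(.lf (nat_lit 483215) (.g (nat_lit 4505) (.e (nat_lit 6234) (nat_lit 335) (.e (nat_lit 164359) (nat_lit 246) (.e (nat_lit 2661) (nat_lit 167) (.e (nat_lit 196666) (nat_lit 13) (.e (nat_lit 65610) (nat_lit 10) (.e (nat_lit 344129) (nat_lit 26) (.e (nat_lit 557067) (nat_lit 9) (.e (nat_lit 22) (nat_lit 0) .nil)))))))) (.g (nat_lit 1) (.e (nat_lit 121617) (nat_lit 0) .nil) .nil)))))) 
(.nd (nat_lit 7) (.nd (nat_lit 8) (.nd (nat_lit 9) 
(.lf (nat_lit 482383) (.g (nat_lit 2337) (.e (nat_lit 7306) (nat_lit 388) (.e (nat_lit 3085) (nat_lit 191) (.e (nat_lit 483337) (nat_lit 9) (.e (nat_lit 426107) (nat_lit 1) (.e (nat_lit 164403) (nat_lit 256) .nil))))) (.g (nat_lit 0) (.e (nat_lit 119057) (nat_lit 0) .nil) .nil))) 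
(.lf (nat_lit 482895) (.g (nat_lit 2677) (.e (nat_lit 7593) (nat_lit 407) (.e (nat_lit 73746) (nat_lit 3) (.e (nat_lit 516139) (nat_lit 7) (.e (nat_lit 409640) (nat_lit 17) (.e (nat_lit 294931) (nat_lit 3) (.e (nat_lit 98320) (nat_lit 17) .nil)))))) (.g (nat_lit 1) (.e (nat_lit 120227) (nat_lit 0) .nil) .nil)))) (.nd (nat_lit 9) 
(.lf (nat_lit 482639) (.g (nat_lit 2184) (.e (nat_lit 7542) (nat_lit 402) (.e (nat_lit 1626) (nat_lit 114) (.e (nat_lit 385074) (nat_lit 31) (.e (nat_lit 573482) (nat_lit 13) (.e (nat_lit 65619) (nat_lit 10) .nil))))) (.g (nat_lit 0) (.e (nat_lit 119800) (nat_lit 0) .nil) .nil))) 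
(.lf (nat_lit 483151) (.g (nat_lit 2964) (.e (nat_lit 6202) (nat_lit 332) (.e (nat_lit 2798) (nat_lit 180) (.e (nat_lit 303117) (nat_lit 2) (.e (nat_lit 196669) (nat_lit 14) (.e (nat_lit 73781) (nat_lit 32) (.e (nat_lit 2664) (nat_lit 167) (.e (nat_lit 196628) (nat_lit 9) (.e (nat_lit 970) (nat_lit 81) .nil)))))))) (.g (nat_lit 1) (.e (nat_lit 121319) (nat_lit 0) .nil) .nil))))) 
(.nd (nat_lit 8) (.nd (nat_lit 9) 
(.lf (nat_lit 482511) (.g (nat_lit 2007) (.e (nat_lit 7936) (nat_lit 393) (.e (nat_lit 180250) (nat_lit 10) (.e (nat_lit 573474) (nat_lit 12) (.e (nat_lit 57572) (nat_lit 54) (.e (nat_lit 770072) (nat_lit 8) .nil))))) (.g (nat_lit 0) (.e (nat_lit 119635) (nat_lit 0) .nil) .nil))) 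
(.lf (nat_lit 483023) (.g (nat_lit 4180) (.e (nat_lit 7685) (nat_lit 410) (.e (nat_lit 2650) (nat_lit 166) (.e (nat_lit 188449) (nat_lit 22) (.e (nat_lit 196609) (nat_lit 0) .nil)))) (.g (nat_lit 0) (.e (nat_lit 120528) (nat_lit 0) .nil) .nil)))) (.nd (nat_lit 9) 
(.lf (nat_lit 482767) (.g (nat_lit 3068) (.e (nat_lit 7587) (nat_lit 406) (.e (nat_lit 65653) (nat_lit 27) (.e (nat_lit 426343) (nat_lit 14) (.e (nat_lit 491570) (nat_lit 13) (.e (nat_lit 393231) (nat_lit 17) .nil))))) (.g (nat_lit 1) (.e (nat_lit 120015) (nat_lit 0) .nil) .nil))) 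
(.lf (nat_lit 483279) (.g (nat_lit 1196) (.e (nat_lit 6254) (nat_lit 337) (.e (nat_lit 2630) (nat_lit 164) (.e (nat_lit 172095) (nat_lit 9) (.e (nat_lit 433920) (nat_lit 28) .nil)))) (.g (nat_lit 0) (.e (nat_lit 122180) (nat_lit 0) .nil) .nil))))))) (.nd (nat_lit 6) (.nd (nat_lit 7) (.nd (nat_lit 8) (.nd (nat_lit 9) 
(.lf (nat_lit 482351) (.g (nat_lit 4009) (.e (nat_lit 7266) (nat_lit 384) (.e (nat_lit 57430) (nat_lit 16) (.e (nat_lit 368676) (nat_lit 21) (.e (nat_lit 516165) (nat_lit 12) (.e (nat_lit 450586) (nat_lit 10) (.e (nat_lit 573473) (nat_lit 12) (.e (nat_lit 57348) (nat_lit 0) .nil))))))) (.g (nat_lit 1) (.e (nat_lit 119013) (nat_lit 0) .nil) .nil))) 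
(.lf (nat_lit 482863) (.g (nat_lit 627) (.e (nat_lit 7591) (nat_lit 407) (.e (nat_lit 73773) (nat_lit 25) (.e (nat_lit 770072) (nat_lit 8) (.e (nat_lit 65537) (nat_lit 0) .nil)))) (.g (nat_lit 0) (.e (nat_lit 120136) (nat_lit 0) .nil) .nil)))) (.nd (nat_lit 9) 
(.lf (nat_lit 482607) (.g (nat_lit 2980) (.e (nat_lit 7556) (nat_lit 402) (.e (nat_lit 1235) (nat_lit 91) (.e (nat_lit 90176) (nat_lit 15) (.e (nat_lit 188452) (nat_lit 23) (.e (nat_lit 204885) (nat_lit 33) .nil))))) (.g (nat_lit 0) (.e (nat_lit 119768) (nat_lit 0) .nil) .nil))) 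
(.lf (nat_lit 483119) (.g (nat_lit 2072) (.e (nat_lit 6113) (nat_lit 332) (.e (nat_lit 2810) (nat_lit 180) (.e (nat_lit 303145) (nat_lit 13) (.e (nat_lit 483377) (nat_lit 22) (.e (nat_lit 327692) (nat_lit 1) (.e (nat_lit 8446) (nat_lit 140) (.e (nat_lit 57350) (nat_lit 0) .nil))))))) (.g (nat_lit 1) (.e (nat_lit 121174) (nat_lit 0) .nil) .nil))))) (.nd (nat_lit 8) (.nd (nat_lit 9) 
(.lf (nat_lit 482479) (.g (nat_lit 1796) (.e (nat_lit 7936) (nat_lit 392) (.e (nat_lit 172067) (nat_lit 3) (.e (nat_lit 204846) (nat_lit 24) (.e (nat_lit 319504) (nat_lit 10) .nil)))) (.g (nat_lit 0) (.e (nat_lit 119548) (nat_lit 0) .nil) .nil))) 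
(.lf (nat_lit 482991) (.g (nat_lit 1719) (.e (nat_lit 7936) (nat_lit 407) (.e (nat_lit 73775) (nat_lit 26) (.e (nat_lit 778466) (nat_lit 11) (.e (nat_lit 24632) (nat_lit 9) (.e (nat_lit 336388) (nat_lit 27) .nil))))) (.g (nat_lit 0) (.e (nat_lit 120332) (nat_lit 0) .nil) .nil)))) (.nd (nat_lit 9) 
(.lf (nat_lit 482735) (.g (nat_lit 1918) (.e (nat_lit 7586) (nat_lit 406) (.e (nat_lit 65571) (nat_lit 3) (.e (nat_lit 98389) (nat_lit 33) (.e (nat_lit 491560) (nat_lit 10) .nil)))) (.g (nat_lit 0) (.e (nat_lit 119972) (nat_lit 0) .nil) .nil))) 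
(.lf (nat_lit 483247) (.g (nat_lit 4101) (.e (nat_lit 6252) (nat_lit 337) (.e (nat_lit 2630) (nat_lit 164) (.e (nat_lit 172064) (nat_lit 2) (.e (nat_lit 196666) (nat_lit 13) (.e (nat_lit 65617) (nat_lit 10) (.e (nat_lit 344133) (nat_lit 26) (.e (nat_lit 557091) (nat_lit 12) (.e (nat_lit 163844) (nat_lit 0) .nil)))))))) (.g (nat_lit 1) (.e (nat_lit 121981) (nat_lit 0) .nil) .nil)))))) 
(.nd (nat_lit 7) (.nd (nat_lit 8) (.nd (nat_lit 9) 
(.lf (nat_lit 482415) (.g (nat_lit 798) (.e (nat_lit 7377) (nat_lit 390) (.e (nat_lit 24627) (nat_lit 9) (.e (nat_lit 336336) (nat_lit 20) .nil))) (.g (nat_lit 0) (.e (nat_lit 119372) (nat_lit 0) .nil) .nil))) 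
(.lf (nat_lit 482927) (.g (nat_lit 2219) (.e (nat_lit 7593) (nat_lit 407) (.e (nat_lit 73773) (nat_lit 25) (.e (nat_lit 770072) (nat_lit 8) (.e (nat_lit 65627) (nat_lit 13) (.e (nat_lit 393231) (nat_lit 17) .nil))))) (.g (nat_lit 1) (.e (nat_lit 120259) (nat_lit 0) .nil) .nil)))) (.nd (nat_lit 9) 
(.lf (nat_lit 482671) (.g (nat_lit 2992) (.e (nat_lit 7936) (nat_lit 402) (.e (nat_lit 1641) (nat_lit 114) (.e (nat_lit 385074) (nat_lit 31) (.e (nat_lit 573482) (nat_lit 13) (.e (nat_lit 65604) (nat_lit 9) .nil))))) (.g (nat_lit 0) (.e (nat_lit 119839) (nat_lit 0) .nil) .nil))) 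
(.lf (nat_lit 483183) (.g (nat_lit 3244) (.e (nat_lit 6203) (nat_lit 332) (.e (nat_lit 2798) (nat_lit 180) (.e (nat_lit 303119) (nat_lit 3) (.e (nat_lit 204846) (nat_lit 24) (.e (nat_lit 319494) (nat_lit 0) .nil))))) (.g (nat_lit 0) (.e (nat_lit 121462) (nat_lit 0) .nil) .nil))))) (.nd (nat_lit 8) (.nd (nat_lit 9) 
(.lf (nat_lit 482543) (.g (nat_lit 1346) (.e (nat_lit 7490) (nat_lit 402) (.e (nat_lit 1655) (nat_lit 115) (.e (nat_lit 393297) (nat_lit 27) (.e (nat_lit 491571) (nat_lit 13) (.e (nat_lit 393232) (nat_lit 17) .nil))))) (.g (nat_lit 0) (.e (nat_lit 119685) (nat_lit 0) .nil) .nil))) 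
(.lf (nat_lit 483055) (.g (nat_lit 1574) (.e (nat_lit 7710) (nat_lit 414) (.e (nat_lit 163874) (nat_lit 3) (.e (nat_lit 204864) (nat_lit 27) (.e (nat_lit 344132) (nat_lit 26) .nil)))) (.g (nat_lit 0) (.e (nat_lit 120693) (nat_lit 0) .nil) .nil)))) (.nd (nat_lit 9) 
(.lf (nat_lit 482799) (.g (nat_lit 1405) (.e (nat_lit 7936) (nat_lit 406) (.e (nat_lit 65580) (nat_lit 6) (.e (nat_lit 147495) (nat_lit 11) (.e (nat_lit 24654) (nat_lit 13) (.e (nat_lit 393232) (nat_lit 17) .nil))))) (.g (nat_lit 0) (.e (nat_lit 120067) (nat_lit 0) .nil) .nil))) 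
(.lf (nat_lit 483311) (.g (nat_lit 2309) (.e (nat_lit 6255) (nat_lit 337) (.e (nat_lit 2630) (nat_lit 164) (.e (nat_lit 172067) (nat_lit 3) (.e (nat_lit 204869) (nat_lit 29) (.e (nat_lit 360473) (nat_lit 8) .nil))))) (.g (nat_lit 0) (.e (nat_lit 122319) (nat_lit 0) .nil) .nil)))))))) (.nd (nat_lit 5) (.nd (nat_lit 6) (.nd (nat_lit 7) (.nd (nat_lit 8) (.nd (nat_lit 9) 
(.lf (nat_lit 482335) (.g (nat_lit 5058) (.e (nat_lit 7265) (nat_lit 384) (.e (nat_lit 57431) (nat_lit 16) (.e (nat_lit 368676) (nat_lit 21) (.e (nat_lit 516166) (nat_lit 12) (.e (nat_lit 450587) (nat_lit 10) (.e (nat_lit 573478) (nat_lit 12) (.e (nat_lit 57351) (nat_lit 0) .nil))))))) (.g (nat_lit 1) (.e (nat_lit 118995) (nat_lit 0) .nil) .nil))) 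
(.lf (nat_lit 482847) (.g (nat_lit 3118) (.e (nat_lit 7591) (nat_lit 407) (.e (nat_lit 73747) (nat_lit 3) (.e (nat_lit 516139) (nat_lit 7) (.e (nat_lit 409641) (nat_lit 17) (.e (nat_lit 294928) (nat_lit 2) .nil))))) (.g (nat_lit 0) (.e (nat_lit 120120) (nat_lit 0) .nil) .nil)))) (.nd (nat_lit 9) 
(.lf (nat_lit 482591) (.g (nat_lit 2164) (.e (nat_lit 7548) (nat_lit 402) (.e (nat_lit 1234) (nat_lit 91) (.e (nat_lit 90170) (nat_lit 13) (.e (nat_lit 172113) (nat_lit 10) (.e (nat_lit 434247) (nat_lit 28) .nil))))) (.g (nat_lit 0) (.e (nat_lit 119747) (nat_lit 0) .nil) .nil))) 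
(.lf (nat_lit 483103) (.g (nat_lit 2032) (.e (nat_lit 6092) (nat_lit 332) (.e (nat_lit 1374) (nat_lit 104) (.e (nat_lit 303118) (nat_lit 3) (.e (nat_lit 204885) (nat_lit 33) .nil)))) (.g (nat_lit 0) (.e (nat_lit 121097) (nat_lit 0) .nil) .nil))))) (.nd (nat_lit 8) (.nd (nat_lit 9) 
(.lf (nat_lit 482463) (.g (nat_lit 858) (.e (nat_lit 7386) (nat_lit 392) (.e (nat_lit 172067) (nat_lit 3) (.e (nat_lit 204846) (nat_lit 24) .nil))) (.g (nat_lit 0) (.e (nat_lit 119525) (nat_lit 0) .nil) .nil))) 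
(.lf (nat_lit 482975) (.g (nat_lit 1783) (.e (nat_lit 7936) (nat_lit 407) (.e (nat_lit 73747) (nat_lit 3) (.e (nat_lit 516106) (nat_lit 0) (.e (nat_lit 7936) (nat_lit 407) .nil)))) (.g (nat_lit 0) (.e (nat_lit 120310) (nat_lit 0) .nil) .nil)))) (.nd (nat_lit 9) 
(.lf (nat_lit 482719) (.g (nat_lit 1163) (.e (nat_lit 7585) (nat_lit 406) (.e (nat_lit 65578) (nat_lit 6) (.e (nat_lit 147492) (nat_lit 11) (.e (nat_lit 24657) (nat_lit 13) (.e (nat_lit 401152) (nat_lit 17) .nil))))) (.g (nat_lit 1) (.e (nat_lit 119956) (nat_lit 0) .nil) .nil))) 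
(.lf (nat_lit 483231) (.g (nat_lit 2537) (.e (nat_lit 6217) (nat_lit 333) (.e (nat_lit 57881) (nat_lit 270) (.e (nat_lit 371) (nat_lit 32) (.e (nat_lit 426542) (nat_lit 29) (.e (nat_lit 352315) (nat_lit 23) (.e (nat_lit 98309) (nat_lit 0) .nil)))))) (.g (nat_lit 1) (.e (nat_lit 121932) (nat_lit 0) .nil) .nil)))))) (.nd (nat_lit 7) (.nd (nat_lit 8) (.nd (nat_lit 9) 
(.lf (nat_lit 482399) (.g (nat_lit 1830) (.e (nat_lit 7350) (nat_lit 388) (.e (nat_lit 2854) (nat_lit 184) (.e (nat_lit 426131) (nat_lit 3) (.e (nat_lit 204846) (nat_lit 24) (.e (nat_lit 319530) (nat_lit 16) .nil))))) (.g (nat_lit 0) (.e (nat_lit 119245) (nat_lit 0) .nil) .nil))) 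
(.lf (nat_lit 482911) (.g (nat_lit 2531) (.e (nat_lit 7593) (nat_lit 407) (.e (nat_lit 73748) (nat_lit 3) (.e (nat_lit 516139) (nat_lit 7) (.e (nat_lit 409641) (nat_lit 17) (.e (nat_lit 294931) (nat_lit 3) .nil))))) (.g (nat_lit 0) (.e (nat_lit 120243) (nat_lit 0) .nil) .nil)))) (.nd (nat_lit 9) 
(.lf (nat_lit 482655) (.g (nat_lit 1434) (.e (nat_lit 7936) (nat_lit 402) (.e (nat_lit 1428) (nat_lit 108) (.e (nat_lit 336421) (nat_lit 28) (.e (nat_lit 434180) (nat_lit 0) (.e (nat_lit 1661) (nat_lit 115) .nil))))) (.g (nat_lit 0) (.e (nat_lit 119817) (nat_lit 0) .nil) .nil))) 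
(.lf (nat_lit 483167) (.g (nat_lit 389) (.e (nat_lit 6203) (nat_lit 332) (.e (nat_lit 2798) (nat_lit 180) (.e (nat_lit 303117) (nat_lit 2) .nil))) (.g (nat_lit 0) (.e (nat_lit 121432) (nat_lit 0) .nil) .nil))))) (.nd (nat_lit 8) (.nd (nat_lit 9) 
(.lf (nat_lit 482527) (.g (nat_lit 2048) (.e (nat_lit 7486) (nat_lit 402) (.e (nat_lit 1256) (nat_lit 92) (.e (nat_lit 98373) (nat_lit 29) (.e (nat_lit 450587) (nat_lit 10) (.e (nat_lit 573457) (nat_lit 9) (.e (nat_lit 430) (nat_lit 32) (.e (nat_lit 426009) (nat_lit 0) .nil))))))) (.g (nat_lit 1) (.e (nat_lit 119668) (nat_lit 0) .nil) .nil))) 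
(.lf (nat_lit 483039) (.g (nat_lit 1569) (.e (nat_lit 7708) (nat_lit 414) (.e (nat_lit 163875) (nat_lit 3) (.e (nat_lit 204863) (nat_lit 27) (.e (nat_lit 344129) (nat_lit 26) .nil)))) (.g (nat_lit 0) (.e (nat_lit 120600) (nat_lit 0) .nil) .nil)))) (.nd (nat_lit 9) 
(.lf (nat_lit 482783) (.g (nat_lit 3167) (.e (nat_lit 7589) (nat_lit 406) (.e (nat_lit 65653) (nat_lit 27) (.e (nat_lit 426341) (nat_lit 14) (.e (nat_lit 491571) (nat_lit 13) (.e (nat_lit 393232) (nat_lit 17) .nil))))) (.g (nat_lit 1) (.e (nat_lit 120049) (nat_lit 0) .nil) .nil))) 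
(.lf (nat_lit 483295) (.g (nat_lit 5072) (.e (nat_lit 6255) (nat_lit 337) (.e (nat_lit 2630) (nat_lit 164) (.e (nat_lit 172062) (nat_lit 2) (.e (nat_lit 196666) (nat_lit 13) (.e (nat_lit 65610) (nat_lit 10) (.e (nat_lit 344129) (nat_lit 26) (.e (nat_lit 557089) (nat_lit 12) (.e (nat_lit 163849) (nat_lit 0) .nil)))))))) (.g (nat_lit 1) (.e (nat_lit 122297) (nat_lit 0) .nil) .nil))))))) 
(.nd (nat_lit 6) (.nd (nat_lit 7) (.nd (nat_lit 8) (.nd (nat_lit 9) 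
(.lf (nat_lit 482367) (.g (nat_lit 5935) (.e (nat_lit 7266) (nat_lit 384) (.e (nat_lit 57431) (nat_lit 16) (.e (nat_lit 368676) (nat_lit 21) (.e (nat_lit 516166) (nat_lit 12) (.e (nat_lit 450588) (nat_lit 10) (.e (nat_lit 573473) (nat_lit 12) (.e (nat_lit 57348) (nat_lit 0) .nil))))))) (.g (nat_lit 1) (.e (nat_lit 119029) (nat_lit 0) .nil) .nil))) 
(.lf (nat_lit 482879) (.g (nat_lit 2336) (.e (nat_lit 7591) (nat_lit 407) (.e (nat_lit 73775) (nat_lit 26) (.e (nat_lit 778466) (nat_lit 11) (.e (nat_lit 24636) (nat_lit 9) (.e (nat_lit 336390) (nat_lit 27) (.e (nat_lit 426012) (nat_lit 0) .nil)))))) (.g (nat_lit 1) (.e (nat_lit 120152) (nat_lit 0) .nil) .nil)))) (.nd (nat_lit 9) 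
(.lf (nat_lit 482623) (.g (nat_lit 2528) (.e (nat_lit 7557) (nat_lit 402) (.e (nat_lit 1638) (nat_lit 114) (.e (nat_lit 385074) (nat_lit 31) (.e (nat_lit 573484) (nat_lit 13) (.e (nat_lit 65610) (nat_lit 10) .nil))))) (.g (nat_lit 0) (.e (nat_lit 119784) (nat_lit 0) .nil) .nil))) 
(.lf (nat_lit 483135) (.g (nat_lit 3642) (.e (nat_lit 6135) (nat_lit 332) (.e (nat_lit 1348) (nat_lit 102) (.e (nat_lit 286735) (nat_lit 3) (.e (nat_lit 98365) (nat_lit 26) (.e (nat_lit 426298) (nat_lit 11) .nil))))) (.g (nat_lit 0) (.e (nat_lit 121254) (nat_lit 0) .nil) .nil))))) (.nd (nat_lit 8) (.nd (nat_lit 9) 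
(.lf (nat_lit 482495) (.g (nat_lit 1524) (.e (nat_lit 7388) (nat_lit 393) (.e (nat_lit 180252) (nat_lit 10) (.e (nat_lit 573474) (nat_lit 12) (.e (nat_lit 57572) (nat_lit 54) .nil)))) (.g (nat_lit 0) (.e (nat_lit 119573) (nat_lit 0) .nil) .nil))) 
(.lf (nat_lit 483007) (.g (nat_lit 472) (.e (nat_lit 7685) (nat_lit 410) (.e (nat_lit 2649) (nat_lit 166) (.e (nat_lit 188433) (nat_lit 20) .nil))) (.g (nat_lit 0) (.e (nat_lit 120508) (nat_lit 0) .nil) .nil)))) (.nd (nat_lit 9) 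
(.lf (nat_lit 482751) (.g (nat_lit 4204) (.e (nat_lit 7587) (nat_lit 406) (.e (nat_lit 65637) (nat_lit 15) (.e (nat_lit 3305) (nat_lit 202) (.e (nat_lit 573493) (nat_lit 15) (.e (nat_lit 81956) (nat_lit 23) (.e (nat_lit 98320) (nat_lit 17) .nil)))))) (.g (nat_lit 1) (.e (nat_lit 119999) (nat_lit 0) .nil) .nil))) 
(.lf (nat_lit 483263) (.g (nat_lit 2925) (.e (nat_lit 6254) (nat_lit 337) (.e (nat_lit 2630) (nat_lit 164) (.e (nat_lit 172065) (nat_lit 3) (.e (nat_lit 204868) (nat_lit 29) (.e (nat_lit 360473) (nat_lit 8) (.e (nat_lit 557094) (nat_lit 12) (.e (nat_lit 163849) (nat_lit 0) .nil))))))) (.g (nat_lit 1) (.e (nat_lit 122153) (nat_lit 0) .nil) .nil)))))) 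
(.nd (nat_lit 7) (.nd (nat_lit 8) (.nd (nat_lit 9) 
(.lf (nat_lit 482431) (.g (nat_lit 3927) (.e (nat_lit 7377) (nat_lit 390) (.e (nat_lit 24665) (nat_lit 14) (.e (nat_lit 401448) (nat_lit 10) (.e (nat_lit 434291) (nat_lit 44) (.e (nat_lit 704737) (nat_lit 11) (.e (nat_lit 16386) (nat_lit 0) .nil)))))) (.g (nat_lit 1) (.e (nat_lit 119399) (nat_lit 0) .nil) .nil))) 
(.lf (nat_lit 482943) (.g (nat_lit 1624) (.e (nat_lit 7593) (nat_lit 407) (.e (nat_lit 73775) (nat_lit 26) (.e (nat_lit 778465) (nat_lit 11) (.e (nat_lit 24624) (nat_lit 9) .nil)))) (.g (nat_lit 0) (.e (nat_lit 120275) (nat_lit 0) .nil) .nil)))) (.nd (nat_lit 9) 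
(.lf (nat_lit 482687) (.g (nat_lit 2095) (.e (nat_lit 7581) (nat_lit 405) (.e (nat_lit 57464) (nat_lit 23) (.e (nat_lit 516151) (nat_lit 9) (.e (nat_lit 426286) (nat_lit 10) (.e (nat_lit 434245) (nat_lit 28) (.e (nat_lit 573471) (nat_lit 11) (.e (nat_lit 16384) (nat_lit 0) .nil))))))) (.g (nat_lit 1) (.e (nat_lit 119910) (nat_lit 0) .nil) .nil))) 
(.lf (nat_lit 483199) (.g (nat_lit 2598) (.e (nat_lit 6203) (nat_lit 332) (.e (nat_lit 2798) (nat_lit 180) (.e (nat_lit 303133) (nat_lit 9) (.e (nat_lit 426499) (nat_lit 27) (.e (nat_lit 336107) (nat_lit 9) (.e (nat_lit 336032) (nat_lit 4) (.e (nat_lit 123197) (nat_lit 266) (.e (nat_lit 57346) (nat_lit 0) .nil)))))))) (.g (nat_lit 1) (.e (nat_lit 121487) (nat_lit 0) .nil) .nil))))) 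
(.nd (nat_lit 8) (.nd (nat_lit 9) 
(.lf (nat_lit 482559) (.g (nat_lit 1688) (.e (nat_lit 7497) (nat_lit 402) (.e (nat_lit 1634) (nat_lit 114) (.e (nat_lit 385074) (nat_lit 31) (.e (nat_lit 573493) (nat_lit 15) .nil)))) (.g (nat_lit 0) (.e (nat_lit 119710) (nat_lit 0) .nil) .nil))) 
(.lf (nat_lit 483071) (.g (nat_lit 660) (.e (nat_lit 7936) (nat_lit 415) (.e (nat_lit 229415) (nat_lit 15) (.e (nat_lit 450577) (nat_lit 4) (.e (nat_lit 532224) (nat_lit 29) .nil)))) (.g (nat_lit 0) (.e (nat_lit 120782) (nat_lit 0) .nil) .nil)))) (.nd (nat_lit 9) 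
(.lf (nat_lit 482815) (.g (nat_lit 3161) (.e (nat_lit 7590) (nat_lit 407) (.e (nat_lit 73748) (nat_lit 3) (.e (nat_lit 516139) (nat_lit 7) (.e (nat_lit 409617) (nat_lit 10) (.e (nat_lit 5355) (nat_lit 298) (.e (nat_lit 1235) (nat_lit 91) (.e (nat_lit 90133) (nat_lit 9) (.e (nat_lit 2400) (nat_lit 157) .nil)))))))) (.g (nat_lit 1) (.e (nat_lit 120086) (nat_lit 0) .nil) .nil))) 
(.lf (nat_lit 483327) (.g (nat_lit 4553) (.e (nat_lit 6255) (nat_lit 337) (.e (nat_lit 2643) (nat_lit 165) (.e (nat_lit 180243) (nat_lit 5) (.e (nat_lit 532550) (nat_lit 12) (.e (nat_lit 360474) (nat_lit 8) (.e (nat_lit 557094) (nat_lit 12) (.e (nat_lit 163847) (nat_lit 0) .nil))))))) (.g (nat_lit 1) (.e (nat_lit 122456) (nat_lit 0) .nil) .nil)))))))))))))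

noncomputable def tv5532 : DT := (.nd (nat_lit 0) (.nd (nat_lit 1) (.nd (nat_lit 2) (.nd (nat_lit 3) (.nd (nat_lit 4) (.nd (nat_lit 5) (.nd (nat_lit 6) (.nd (nat_lit 7) (.nd (nat_lit 8) (.nd (nat_lit 9) 
(.lf (nat_lit 483328) (.g (nat_lit 5023) (.e (nat_lit 6255) (nat_lit 337) (.e (nat_lit 2643) (nat_lit 165) (.e (nat_lit 180243) (nat_lit 5) (.e (nat_lit 532550) (nat_lit 12) (.e (nat_lit 360475) (nat_lit 8) (.e (nat_lit 557089) (nat_lit 12) (.e (nat_lit 163849) (nat_lit 0) .nil))))))) (.g (nat_lit 1) (.e (nat_lit 122457) (nat_lit 0) .nil) .nil))) 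
(.lf (nat_lit 483840) (.g (nat_lit 633) (.e (nat_lit 6681) (nat_lit 357) (.e (nat_lit 3090) (nat_lit 191) (.e (nat_lit 483396) (nat_lit 24) .nil))) (.g (nat_lit 0) (.e (nat_lit 127324) (nat_lit 0) .nil) .nil)))) (.nd (nat_lit 9) 
(.lf (nat_lit 483584) (.g (nat_lit 1184) (.e (nat_lit 6421) (nat_lit 341) (.e (nat_lit 163908) (nat_lit 12) (.e (nat_lit 426285) (nat_lit 10) (.e (nat_lit 434289) (nat_lit 43) .nil)))) (.g (nat_lit 0) (.e (nat_lit 125034) (nat_lit 0) .nil) .nil))) 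
(.lf (nat_lit 484096) (.g (nat_lit 3074) (.e (nat_lit 6724) (nat_lit 362) (.e (nat_lit 180250) (nat_lit 10) (.e (nat_lit 573470) (nat_lit 11) (.e (nat_lit 16436) (nat_lit 9) (.e (nat_lit 426131) (nat_lit 3) (.e (nat_lit 204815) (nat_lit 17) .nil)))))) (.g (nat_lit 1) (.e (nat_lit 128921) (nat_lit 0) .nil) .nil))))) (.nd (nat_lit 8) (.nd (nat_lit 9) 
(.lf (nat_lit 483456) (.g (nat_lit 3875) (.e (nat_lit 6418) (nat_lit 341) (.e (nat_lit 163900) (nat_lit 12) (.e (nat_lit 426125) (nat_lit 2) (.e (nat_lit 196666) (nat_lit 13) (.e (nat_lit 65617) (nat_lit 10) (.e (nat_lit 344133) (nat_lit 26) (.e (nat_lit 557089) (nat_lit 12) (.e (nat_lit 163848) (nat_lit 0) .nil)))))))) (.g (nat_lit 1) (.e (nat_lit 123890) (nat_lit 0) .nil) .nil))) 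
(.lf (nat_lit 483968) (.g (nat_lit 1562) (.e (nat_lit 6722) (nat_lit 362) (.e (nat_lit 180244) (nat_lit 5) (.e (nat_lit 532482) (nat_lit 0) (.e (nat_lit 6722) (nat_lit 362) (.e (nat_lit 180243) (nat_lit 5) .nil))))) (.g (nat_lit 0) (.e (nat_lit 128271) (nat_lit 0) .nil) .nil)))) (.nd (nat_lit 9) 
(.lf (nat_lit 483712) (.g (nat_lit 1970) (.e (nat_lit 6427) (nat_lit 342) (.e (nat_lit 229409) (nat_lit 13) (.e (nat_lit 434231) (nat_lit 23) (.e (nat_lit 532550) (nat_lit 12) (.e (nat_lit 360474) (nat_lit 8) (.e (nat_lit 557093) (nat_lit 12) (.e (nat_lit 163853) (nat_lit 0) .nil))))))) (.g (nat_lit 1) (.e (nat_lit 126014) (nat_lit 0) .nil) .nil))) 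
(.lf (nat_lit 484224) (.g (nat_lit 563) (.e (nat_lit 7936) (nat_lit 362) (.e (nat_lit 180251) (nat_lit 10) (.e (nat_lit 573471) (nat_lit 11) .nil))) (.g (nat_lit 0) (.e (nat_lit 129255) (nat_lit 0) .nil) .nil)))))) (.nd (nat_lit 7) (.nd (nat_lit 8) (.nd (nat_lit 9) 
(.lf (nat_lit 483392) (.g (nat_lit 1220) (.e (nat_lit 6416) (nat_lit 341) (.e (nat_lit 163908) (nat_lit 12) (.e (nat_lit 426285) (nat_lit 10) (.e (nat_lit 434287) (nat_lit 43) .nil)))) (.g (nat_lit 0) (.e (nat_lit 123267) (nat_lit 0) .nil) .nil))) 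
(.lf (nat_lit 483904) (.g (nat_lit 1741) (.e (nat_lit 6716) (nat_lit 361) (.e (nat_lit 172067) (nat_lit 3) (.e (nat_lit 204846) (nat_lit 24) (.e (nat_lit 319505) (nat_lit 10) .nil)))) (.g (nat_lit 0) (.e (nat_lit 127778) (nat_lit 0) .nil) .nil)))) (.nd (nat_lit 9) 
(.lf (nat_lit 483648) (.g (nat_lit 3409) (.e (nat_lit 6425) (nat_lit 342) (.e (nat_lit 229407) (nat_lit 13) (.e (nat_lit 434231) (nat_lit 23) (.e (nat_lit 532550) (nat_lit 12) (.e (nat_lit 360475) (nat_lit 8) (.e (nat_lit 557089) (nat_lit 12) (.e (nat_lit 163853) (nat_lit 0) .nil))))))) (.g (nat_lit 1) (.e (nat_lit 125587) (nat_lit 0) .nil) .nil))) 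
(.lf (nat_lit 484160) (.g (nat_lit 2723) (.e (nat_lit 6724) (nat_lit 362) (.e (nat_lit 180252) (nat_lit 10) (.e (nat_lit 573471) (nat_lit 11) (.e (nat_lit 16444) (nat_lit 9) (.e (nat_lit 426129) (nat_lit 3) (.e (nat_lit 204816) (nat_lit 17) .nil)))))) (.g (nat_lit 1) (.e (nat_lit 129009) (nat_lit 0) .nil) .nil))))) (.nd (nat_lit 8) (.nd (nat_lit 9) 
(.lf (nat_lit 483520) (.g (nat_lit 3264) (.e (nat_lit 6420) (nat_lit 341) (.e (nat_lit 163867) (nat_lit 2) (.e (nat_lit 196656) (nat_lit 11) (.e (nat_lit 16473) (nat_lit 14) (.e (nat_lit 499456) (nat_lit 27) .nil))))) (.g (nat_lit 0) (.e (nat_lit 124444) (nat_lit 0) .nil) .nil))) 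
(.lf (nat_lit 484032) (.g (nat_lit 2707) (.e (nat_lit 6722) (nat_lit 362) (.e (nat_lit 180271) (nat_lit 26) (.e (nat_lit 704738) (nat_lit 11) (.e (nat_lit 16446) (nat_lit 9) (.e (nat_lit 426500) (nat_lit 27) (.e (nat_lit 335895) (nat_lit 0) .nil)))))) (.g (nat_lit 1) (.e (nat_lit 128515) (nat_lit 0) .nil) .nil)))) (.nd (nat_lit 9) 
(.lf (nat_lit 483776) (.g (nat_lit 2125) (.e (nat_lit 7936) (nat_lit 347) (.e (nat_lit 65570) (nat_lit 3) (.e (nat_lit 98350) (nat_lit 24) (.e (nat_lit 409648) (nat_lit 18) (.e (nat_lit 303118) (nat_lit 3) .nil))))) (.g (nat_lit 0) (.e (nat_lit 126549) (nat_lit 0) .nil) .nil))) 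
(.lf (nat_lit 484288) (.g (nat_lit 3375) (.e (nat_lit 8300) (nat_lit 55) (.e (nat_lit 49188) (nat_lit 11) (.e (nat_lit 16416) (nat_lit 3) (.e (nat_lit 204869) (nat_lit 29) (.e (nat_lit 360450) (nat_lit 0) .nil))))) (.g (nat_lit 0) (.e (nat_lit 129621) (nat_lit 0) .nil) .nil))))))) (.nd (nat_lit 6) (.nd (nat_lit 7) (.nd (nat_lit 8) (.nd (nat_lit 9) 
(.lf (nat_lit 483360) (.g (nat_lit 4374) (.e (nat_lit 6416) (nat_lit 341) (.e (nat_lit 163900) (nat_lit 12) (.e (nat_lit 426125) (nat_lit 2) (.e (nat_lit 196666) (nat_lit 13) (.e (nat_lit 65617) (nat_lit 10) (.e (nat_lit 344133) (nat_lit 26) (.e (nat_lit 557091) (nat_lit 12) (.e (nat_lit 163844) (nat_lit 0) .nil)))))))) (.g (nat_lit 1) (.e (nat_lit 123047) (nat_lit 0) .nil) .nil))) 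
(.lf (nat_lit 483872) (.g (nat_lit 2431) (.e (nat_lit 6711) (nat_lit 360) (.e (nat_lit 163962) (nat_lit 25) (.e (nat_lit 532535) (nat_lit 9) (.e (nat_lit 336061) (nat_lit 7) (.e (nat_lit 319519) (nat_lit 12) (.e (nat_lit 32778) (nat_lit 5) (.e (nat_lit 1512) (nat_lit 108) (.e (nat_lit 335874) (nat_lit 0) .nil)))))))) (.g (nat_lit 1) (.e (nat_lit 127524) (nat_lit 0) .nil) .nil)))) (.nd (nat_lit 9) 
(.lf (nat_lit 483616) (.g (nat_lit 4359) (.e (nat_lit 6421) (nat_lit 341) (.e (nat_lit 163916) (nat_lit 13) (.e (nat_lit 434231) (nat_lit 23) (.e (nat_lit 532550) (nat_lit 12) (.e (nat_lit 360475) (nat_lit 8) (.e (nat_lit 557091) (nat_lit 12) (.e (nat_lit 163844) (nat_lit 0) .nil))))))) (.g (nat_lit 1) (.e (nat_lit 125138) (nat_lit 0) .nil) .nil))) 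
(.lf (nat_lit 484128) (.g (nat_lit 3076) (.e (nat_lit 6724) (nat_lit 362) (.e (nat_lit 180251) (nat_lit 10) (.e (nat_lit 573471) (nat_lit 11) (.e (nat_lit 16436) (nat_lit 9) (.e (nat_lit 426131) (nat_lit 3) (.e (nat_lit 204816) (nat_lit 17) .nil)))))) (.g (nat_lit 1) (.e (nat_lit 128964) (nat_lit 0) .nil) .nil))))) (.nd (nat_lit 8) (.nd (nat_lit 9) 
(.lf (nat_lit 483488) (.g (nat_lit 3566) (.e (nat_lit 6418) (nat_lit 341) (.e (nat_lit 163908) (nat_lit 12) (.e (nat_lit 426285) (nat_lit 10) (.e (nat_lit 434289) (nat_lit 43) (.e (nat_lit 696344) (nat_lit 8) (.e (nat_lit 172113) (nat_lit 10) (.e (nat_lit 434207) (nat_lit 18) .nil))))))) (.g (nat_lit 1) (.e (nat_lit 123984) (nat_lit 0) .nil) .nil))) 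
(.lf (nat_lit 484000) (.g (nat_lit 836) (.e (nat_lit 6722) (nat_lit 362) (.e (nat_lit 180252) (nat_lit 10) (.e (nat_lit 573470) (nat_lit 11) (.e (nat_lit 16452) (nat_lit 11) .nil)))) (.g (nat_lit 0) (.e (nat_lit 128407) (nat_lit 0) .nil) .nil)))) (.nd (nat_lit 9) 
(.lf (nat_lit 483744) (.g (nat_lit 1759) (.e (nat_lit 6398) (nat_lit 339) (.e (nat_lit 57411) (nat_lit 12) (.e (nat_lit 336367) (nat_lit 27) (.e (nat_lit 426542) (nat_lit 29) .nil)))) (.g (nat_lit 0) (.e (nat_lit 126486) (nat_lit 0) .nil) .nil))) 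
(.lf (nat_lit 484256) (.g (nat_lit 2289) (.e (nat_lit 7936) (nat_lit 362) (.e (nat_lit 180271) (nat_lit 26) (.e (nat_lit 704738) (nat_lit 11) (.e (nat_lit 16466) (nat_lit 13) (.e (nat_lit 483358) (nat_lit 17) .nil))))) (.g (nat_lit 0) (.e (nat_lit 129333) (nat_lit 0) .nil) .nil)))))) (.nd (nat_lit 7) (.nd (nat_lit 8) (.nd (nat_lit 9) 
(.lf (nat_lit 483424) (.g (nat_lit 2774) (.e (nat_lit 6416) (nat_lit 341) (.e (nat_lit 163909) (nat_lit 12) (.e (nat_lit 426140) (nat_lit 3) (.e (nat_lit 204868) (nat_lit 29) (.e (nat_lit 360473) (nat_lit 8) (.e (nat_lit 557094) (nat_lit 12) (.e (nat_lit 163847) (nat_lit 0) .nil))))))) (.g (nat_lit 1) (.e (nat_lit 123411) (nat_lit 0) .nil) .nil))) 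
(.lf (nat_lit 483936) (.g (nat_lit 2439) (.e (nat_lit 6719) (nat_lit 361) (.e (nat_lit 172150) (nat_lit 27) (.e (nat_lit 336230) (nat_lit 14) (.e (nat_lit 401437) (nat_lit 9) (.e (nat_lit 426530) (nat_lit 27) (.e (nat_lit 335872) (nat_lit 0) .nil)))))) (.g (nat_lit 1) (.e (nat_lit 127966) (nat_lit 0) .nil) .nil)))) (.nd (nat_lit 9) 
(.lf (nat_lit 483680) (.g (nat_lit 2465) (.e (nat_lit 6425) (nat_lit 342) (.e (nat_lit 229415) (nat_lit 15) (.e (nat_lit 450563) (nat_lit 0) (.e (nat_lit 6252) (nat_lit 337) (.e (nat_lit 2630) (nat_lit 164) .nil))))) (.g (nat_lit 0) (.e (nat_lit 125725) (nat_lit 0) .nil) .nil))) 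
(.lf (nat_lit 484192) (.g (nat_lit 3327) (.e (nat_lit 6724) (nat_lit 362) (.e (nat_lit 180271) (nat_lit 26) (.e (nat_lit 704738) (nat_lit 11) (.e (nat_lit 16439) (nat_lit 9) (.e (nat_lit 426499) (nat_lit 27) (.e (nat_lit 335895) (nat_lit 0) .nil)))))) (.g (nat_lit 1) (.e (nat_lit 129110) (nat_lit 0) .nil) .nil))))) (.nd (nat_lit 8) (.nd (nat_lit 9) 
(.lf (nat_lit 483552) (.g (nat_lit 4037) (.e (nat_lit 6420) (nat_lit 341) (.e (nat_lit 163908) (nat_lit 12) (.e (nat_lit 426132) (nat_lit 3) (.e (nat_lit 204869) (nat_lit 29) (.e (nat_lit 360475) (nat_lit 8) (.e (nat_lit 557089) (nat_lit 12) (.e (nat_lit 163844) (nat_lit 0) .nil))))))) (.g (nat_lit 1) (.e (nat_lit 124571) (nat_lit 0) .nil) .nil))) 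
(.lf (nat_lit 484064) (.g (nat_lit 2937) (.e (nat_lit 6724) (nat_lit 362) (.e (nat_lit 180243) (nat_lit 5) (.e (nat_lit 532563) (nat_lit 15) (.e (nat_lit 385105) (nat_lit 50) (.e (nat_lit 786436) (nat_lit 0) (.e (nat_lit 3238) (nat_lit 197) (.e (nat_lit 532482) (nat_lit 0) .nil))))))) (.g (nat_lit 1) (.e (nat_lit 128865) (nat_lit 0) .nil) .nil)))) (.nd (nat_lit 9) 
(.lf (nat_lit 483808) (.g (nat_lit 5825) (.e (nat_lit 6665) (nat_lit 357) (.e (nat_lit 3062) (nat_lit 190) (.e (nat_lit 475185) (nat_lit 29) (.e (nat_lit 557109) (nat_lit 15) (.e (nat_lit 188452) (nat_lit 23) (.e (nat_lit 204816) (nat_lit 17) .nil)))))) (.g (nat_lit 1) (.e (nat_lit 127072) (nat_lit 0) .nil) .nil))) 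
(.lf (nat_lit 484320) (.g (nat_lit 2118) (.e (nat_lit 8318) (nat_lit 64) (.e (nat_lit 516115) (nat_lit 1) (.e (nat_lit 164325) (nat_lit 230) (.e (nat_lit 163907) (nat_lit 12) .nil)))) (.g (nat_lit 0) (.e (nat_lit 129777) (nat_lit 0) .nil) .nil)))))))) (.nd (nat_lit 5) (.nd (nat_lit 6) (.nd (nat_lit 7) (.nd (nat_lit 8) (.nd (nat_lit 9) 
(.lf (nat_lit 483344) (.g (nat_lit 1992) (.e (nat_lit 6374) (nat_lit 337) (.e (nat_lit 2628) (nat_lit 164) (.e (nat_lit 172065) (nat_lit 3) (.e (nat_lit 204869) (nat_lit 29) (.e (nat_lit 360474) (nat_lit 8) .nil))))) (.g (nat_lit 0) (.e (nat_lit 122694) (nat_lit 0) .nil) .nil))) 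
(.lf (nat_lit 483856) (.g (nat_lit 1444) (.e (nat_lit 7936) (nat_lit 357) (.e (nat_lit 3066) (nat_lit 190) (.e (nat_lit 475185) (nat_lit 29) (.e (nat_lit 557107) (nat_lit 15) .nil)))) (.g (nat_lit 0) (.e (nat_lit 127419) (nat_lit 0) .nil) .nil)))) (.nd (nat_lit 9) 
(.lf (nat_lit 483600) (.g (nat_lit 4359) (.e (nat_lit 6421) (nat_lit 341) (.e (nat_lit 163913) (nat_lit 12) (.e (nat_lit 426129) (nat_lit 3) (.e (nat_lit 204869) (nat_lit 29) (.e (nat_lit 360474) (nat_lit 8) (.e (nat_lit 557093) (nat_lit 12) (.e (nat_lit 163849) (nat_lit 0) .nil))))))) (.g (nat_lit 1) (.e (nat_lit 125065) (nat_lit 0) .nil) .nil))) 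
(.lf (nat_lit 484112) (.g (nat_lit 1268) (.e (nat_lit 6724) (nat_lit 362) (.e (nat_lit 180251) (nat_lit 10) (.e (nat_lit 573456) (nat_lit 9) (.e (nat_lit 430) (nat_lit 32) .nil)))) (.g (nat_lit 0) (.e (nat_lit 128945) (nat_lit 0) .nil) .nil))))) (.nd (nat_lit 8) (.nd (nat_lit 9) 
(.lf (nat_lit 483472) (.g (nat_lit 2391) (.e (nat_lit 6418) (nat_lit 341) (.e (nat_lit 163908) (nat_lit 12) (.e (nat_lit 426132) (nat_lit 3) (.e (nat_lit 204868) (nat_lit 29) (.e (nat_lit 360473) (nat_lit 8) (.e (nat_lit 557094) (nat_lit 12) (.e (nat_lit 163847) (nat_lit 0) .nil))))))) (.g (nat_lit 1) (.e (nat_lit 123946) (nat_lit 0) .nil) .nil))) 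
(.lf (nat_lit 483984) (.g (nat_lit 2828) (.e (nat_lit 6722) (nat_lit 362) (.e (nat_lit 180245) (nat_lit 5) (.e (nat_lit 532569) (nat_lit 16) (.e (nat_lit 401448) (nat_lit 10) (.e (nat_lit 434232) (nat_lit 23) .nil))))) (.g (nat_lit 0) (.e (nat_lit 128300) (nat_lit 0) .nil) .nil)))) (.nd (nat_lit 9) 
(.lf (nat_lit 483728) (.g (nat_lit 2119) (.e (nat_lit 6391) (nat_lit 339) (.e (nat_lit 57378) (nat_lit 3) (.e (nat_lit 98334) (nat_lit 18) (.e (nat_lit 164330) (nat_lit 230) .nil)))) (.g (nat_lit 0) (.e (nat_lit 126467) (nat_lit 0) .nil) .nil))) 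
(.lf (nat_lit 484240) (.g (nat_lit 2154) (.e (nat_lit 7936) (nat_lit 362) (.e (nat_lit 180271) (nat_lit 26) (.e (nat_lit 704737) (nat_lit 11) (.e (nat_lit 16463) (nat_lit 13) (.e (nat_lit 483354) (nat_lit 17) .nil))))) (.g (nat_lit 0) (.e (nat_lit 129315) (nat_lit 0) .nil) .nil)))))) (.nd (nat_lit 7) (.nd (nat_lit 8) (.nd (nat_lit 9) 
(.lf (nat_lit 483408) (.g (nat_lit 5105) (.e (nat_lit 6416) (nat_lit 341) (.e (nat_lit 163909) (nat_lit 12) (.e (nat_lit 426125) (nat_lit 2) (.e (nat_lit 196666) (nat_lit 13) (.e (nat_lit 65617) (nat_lit 10) (.e (nat_lit 344132) (nat_lit 26) (.e (nat_lit 557093) (nat_lit 12) (.e (nat_lit 163849) (nat_lit 0) .nil)))))))) (.g (nat_lit 1) (.e (nat_lit 123379) (nat_lit 0) .nil) .nil))) 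
(.lf (nat_lit 483920) (.g (nat_lit 3775) (.e (nat_lit 6718) (nat_lit 361) (.e (nat_lit 172150) (nat_lit 27) (.e (nat_lit 336231) (nat_lit 14) (.e (nat_lit 401444) (nat_lit 9) (.e (nat_lit 426503) (nat_lit 27) (.e (nat_lit 335894) (nat_lit 0) .nil)))))) (.g (nat_lit 1) (.e (nat_lit 127916) (nat_lit 0) .nil) .nil)))) (.nd (nat_lit 9) 
(.lf (nat_lit 483664) (.g (nat_lit 3140) (.e (nat_lit 6425) (nat_lit 342) (.e (nat_lit 229412) (nat_lit 14) (.e (nat_lit 442390) (nat_lit 11) (.e (nat_lit 336231) (nat_lit 14) (.e (nat_lit 401448) (nat_lit 10) (.e (nat_lit 434211) (nat_lit 18) .nil)))))) (.g (nat_lit 1) (.e (nat_lit 125634) (nat_lit 0) .nil) .nil))) 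
(.lf (nat_lit 484176) (.g (nat_lit 2940) (.e (nat_lit 6724) (nat_lit 362) (.e (nat_lit 180271) (nat_lit 26) (.e (nat_lit 704737) (nat_lit 11) (.e (nat_lit 16439) (nat_lit 9) (.e (nat_lit 426499) (nat_lit 27) (.e (nat_lit 335892) (nat_lit 0) .nil)))))) (.g (nat_lit 1) (.e (nat_lit 129091) (nat_lit 0) .nil) .nil))))) (.nd (nat_lit 8) (.nd (nat_lit 9) 
(.lf (nat_lit 483536) (.g (nat_lit 904) (.e (nat_lit 6420) (nat_lit 341) (.e (nat_lit 163902) (nat_lit 12) (.e (nat_lit 426246) (nat_lit 9) .nil))) (.g (nat_lit 0) (.e (nat_lit 124470) (nat_lit 0) .nil) .nil))) 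
(.lf (nat_lit 484048) (.g (nat_lit 2011) (.e (nat_lit 6722) (nat_lit 362) (.e (nat_lit 180272) (nat_lit 26) (.e (nat_lit 704738) (nat_lit 11) (.e (nat_lit 16466) (nat_lit 13) (.e (nat_lit 483343) (nat_lit 17) .nil))))) (.g (nat_lit 1) (.e (nat_lit 128587) (nat_lit 0) .nil) .nil)))) (.nd (nat_lit 9) 
(.lf (nat_lit 483792) (.g (nat_lit 1351) (.e (nat_lit 6619) (nat_lit 357) (.e (nat_lit 2668) (nat_lit 167) (.e (nat_lit 196666) (nat_lit 13) (.e (nat_lit 65617) (nat_lit 10) .nil)))) (.g (nat_lit 0) (.e (nat_lit 126832) (nat_lit 0) .nil) .nil))) 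
(.lf (nat_lit 484304) (.g (nat_lit 2689) (.e (nat_lit 8305) (nat_lit 58) (.e (nat_lit 286761) (nat_lit 13) (.e (nat_lit 393234) (nat_lit 17) (.e (nat_lit 7591) (nat_lit 407) (.e (nat_lit 73728) (nat_lit 0) .nil))))) (.g (nat_lit 0) (.e (nat_lit 129747) (nat_lit 0) .nil) .nil))))))) (.nd (nat_lit 6) (.nd (nat_lit 7) (.nd (nat_lit 8) (.nd (nat_lit 9) 
(.lf (nat_lit 483376) (.g (nat_lit 3080) (.e (nat_lit 6416) (nat_lit 341) (.e (nat_lit 163908) (nat_lit 12) (.e (nat_lit 426132) (nat_lit 3) (.e (nat_lit 204868) (nat_lit 29) (.e (nat_lit 360473) (nat_lit 8) (.e (nat_lit 557089) (nat_lit 12) (.e (nat_lit 163844) (nat_lit 0) .nil))))))) (.g (nat_lit 1) (.e (nat_lit 123228) (nat_lit 0) .nil) .nil))) 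
(.lf (nat_lit 483888) (.g (nat_lit 2395) (.e (nat_lit 6712) (nat_lit 360) (.e (nat_lit 163979) (nat_lit 30) (.e (nat_lit 573482) (nat_lit 13) (.e (nat_lit 65563) (nat_lit 1) (.e (nat_lit 57931) (nat_lit 282) (.e (nat_lit 163941) (nat_lit 19) (.e (nat_lit 483345) (nat_lit 17) .nil))))))) (.g (nat_lit 1) (.e (nat_lit 127638) (nat_lit 0) .nil) .nil)))) (.nd (nat_lit 9) 
(.lf (nat_lit 483632) (.g (nat_lit 3583) (.e (nat_lit 6425) (nat_lit 342) (.e (nat_lit 229399) (nat_lit 12) (.e (nat_lit 426125) (nat_lit 2) (.e (nat_lit 196666) (nat_lit 13) (.e (nat_lit 65617) (nat_lit 10) (.e (nat_lit 344130) (nat_lit 26) (.e (nat_lit 557089) (nat_lit 12) (.e (nat_lit 163853) (nat_lit 0) .nil)))))))) (.g (nat_lit 1) (.e (nat_lit 125540) (nat_lit 0) .nil) .nil))) 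
(.lf (nat_lit 484144) (.g (nat_lit 2381) (.e (nat_lit 6724) (nat_lit 362) (.e (nat_lit 180252) (nat_lit 10) (.e (nat_lit 573469) (nat_lit 11) (.e (nat_lit 16436) (nat_lit 9) (.e (nat_lit 426131) (nat_lit 3) (.e (nat_lit 204815) (nat_lit 17) .nil)))))) (.g (nat_lit 1) (.e (nat_lit 128993) (nat_lit 0) .nil) .nil))))) (.nd (nat_lit 8) (.nd (nat_lit 9) 
(.lf (nat_lit 483504) (.g (nat_lit 3712) (.e (nat_lit 6418) (nat_lit 341) (.e (nat_lit 163917) (nat_lit 13) (.e (nat_lit 434231) (nat_lit 23) (.e (nat_lit 532550) (nat_lit 12) (.e (nat_lit 360475) (nat_lit 8) (.e (nat_lit 557089) (nat_lit 12) (.e (nat_lit 163848) (nat_lit 0) .nil))))))) (.g (nat_lit 1) (.e (nat_lit 124127) (nat_lit 0) .nil) .nil))) 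
(.lf (nat_lit 484016) (.g (nat_lit 2206) (.e (nat_lit 6722) (nat_lit 362) (.e (nat_lit 180271) (nat_lit 26) (.e (nat_lit 704737) (nat_lit 11) (.e (nat_lit 16463) (nat_lit 13) (.e (nat_lit 483343) (nat_lit 17) .nil))))) (.g (nat_lit 1) (.e (nat_lit 128492) (nat_lit 0) .nil) .nil)))) (.nd (nat_lit 9) 
(.lf (nat_lit 483760) (.g (nat_lit 3997) (.e (nat_lit 6437) (nat_lit 343) (.e (nat_lit 1633) (nat_lit 114) (.e (nat_lit 385074) (nat_lit 31) (.e (nat_lit 573484) (nat_lit 13) (.e (nat_lit 65610) (nat_lit 10) (.e (nat_lit 344129) (nat_lit 26) (.e (nat_lit 557067) (nat_lit 9) (.e (nat_lit 20) (nat_lit 0) .nil)))))))) (.g (nat_lit 1) (.e (nat_lit 126509) (nat_lit 0) .nil) .nil))) 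
(.lf (nat_lit 484272) (.g (nat_lit 2310) (.e (nat_lit 6841) (nat_lit 369) (.e (nat_lit 163874) (nat_lit 3) (.e (nat_lit 204862) (nat_lit 27) (.e (nat_lit 344117) (nat_lit 21) (.e (nat_lit 516195) (nat_lit 26) (.e (nat_lit 336012) (nat_lit 2) (.e (nat_lit 90181) (nat_lit 16) (.e (nat_lit 229377) (nat_lit 0) .nil)))))))) (.g (nat_lit 1) (.e (nat_lit 129516) (nat_lit 0) .nil) .nil)))))) 
(.nd (nat_lit 7) (.nd (nat_lit 8) (.nd (nat_lit 9) 
(.lf (nat_lit 483440) (.g (nat_lit 3203) (.e (nat_lit 6416) (nat_lit 341) (.e (nat_lit 163917) (nat_lit 13) (.e (nat_lit 434231) (nat_lit 23) (.e (nat_lit 532550) (nat_lit 12) (.e (nat_lit 360474) (nat_lit 8) (.e (nat_lit 557093) (nat_lit 12) (.e (nat_lit 163849) (nat_lit 0) .nil))))))) (.g (nat_lit 1) (.e (nat_lit 123466) (nat_lit 0) .nil) .nil))) 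
(.lf (nat_lit 483952) (.g (nat_lit 1733) (.e (nat_lit 7936) (nat_lit 361) (.e (nat_lit 172066) (nat_lit 3) (.e (nat_lit 204885) (nat_lit 33) (.e (nat_lit 401448) (nat_lit 10) (.e (nat_lit 434232) (nat_lit 23) .nil))))) (.g (nat_lit 0) (.e (nat_lit 128011) (nat_lit 0) .nil) .nil)))) (.nd (nat_lit 9) 
(.lf (nat_lit 483696) (.g (nat_lit 2943) (.e (nat_lit 6426) (nat_lit 342) (.e (nat_lit 229399) (nat_lit 12) (.e (nat_lit 426140) (nat_lit 3) (.e (nat_lit 204869) (nat_lit 29) (.e (nat_lit 360474) (nat_lit 8) (.e (nat_lit 557094) (nat_lit 12) (.e (nat_lit 163852) (nat_lit 0) .nil))))))) (.g (nat_lit 1) (.e (nat_lit 125829) (nat_lit 0) .nil) .nil))) 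
(.lf (nat_lit 484208) (.g (nat_lit 551) (.e (nat_lit 7936) (nat_lit 362) (.e (nat_lit 180243) (nat_lit 5) (.e (nat_lit 540416) (nat_lit 33) .nil))) (.g (nat_lit 0) (.e (nat_lit 129176) (nat_lit 0) .nil) .nil))))) (.nd (nat_lit 8) (.nd (nat_lit 9) 
(.lf (nat_lit 483568) (.g (nat_lit 3231) (.e (nat_lit 6420) (nat_lit 341) (.e (nat_lit 163917) (nat_lit 13) (.e (nat_lit 434231) (nat_lit 23) (.e (nat_lit 532550) (nat_lit 12) (.e (nat_lit 360474) (nat_lit 8) (.e (nat_lit 557093) (nat_lit 12) (.e (nat_lit 163849) (nat_lit 0) .nil))))))) (.g (nat_lit 1) (.e (nat_lit 124695) (nat_lit 0) .nil) .nil))) 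
(.lf (nat_lit 484080) (.g (nat_lit 1860) (.e (nat_lit 6724) (nat_lit 362) (.e (nat_lit 180243) (nat_lit 5) (.e (nat_lit 532569) (nat_lit 16) (.e (nat_lit 401440) (nat_lit 9) (.e (nat_lit 426135) (nat_lit 3) (.e (nat_lit 204815) (nat_lit 17) .nil)))))) (.g (nat_lit 1) (.e (nat_lit 128884) (nat_lit 0) .nil) .nil)))) (.nd (nat_lit 9) 
(.lf (nat_lit 483824) (.g (nat_lit 2706) (.e (nat_lit 6676) (nat_lit 357) (.e (nat_lit 2857) (nat_lit 184) (.e (nat_lit 426533) (nat_lit 28) (.e (nat_lit 344069) (nat_lit 0) (.e (nat_lit 3090) (nat_lit 191) (.e (nat_lit 483354) (nat_lit 17) .nil)))))) (.g (nat_lit 1) (.e (nat_lit 127197) (nat_lit 0) .nil) .nil))) 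
(.lf (nat_lit 484336) (.g (nat_lit 1824) (.e (nat_lit 8320) (nat_lit 64) (.e (nat_lit 516127) (nat_lit 2) (.e (nat_lit 213030) (nat_lit 11) (.e (nat_lit 24605) (nat_lit 2) (.e (nat_lit 90172) (nat_lit 14) (.e (nat_lit 188160) (nat_lit 41) .nil)))))) (.g (nat_lit 1) (.e (nat_lit 129821) (nat_lit 0) .nil) .nil))))))))) 
(.nd (nat_lit 4) (.nd (nat_lit 5) (.nd (nat_lit 6) (.nd (nat_lit 7) (.nd (nat_lit 8) 
(.nd (nat_lit 9) 
(.lf (nat_lit 483336) (.g (nat_lit 4328) (.e (nat_lit 6255) (nat_lit 337) (.e (nat_lit 2725) (nat_lit 172) (.e (nat_lit 237589) (nat_lit 2) (.e (nat_lit 196666) (nat_lit 13) (.e (nat_lit 65617) (nat_lit 10) (.e (nat_lit 344133) (nat_lit 26) (.e (nat_lit 557091) (nat_lit 12) (.e (nat_lit 163849) (nat_lit 0) .nil)))))))) (.g (nat_lit 1) (.e (nat_lit 122547) (nat_lit 0) .nil) .nil))) 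
(.lf (nat_lit 483848) (.g (nat_lit 1287) (.e (nat_lit 7936) (nat_lit 357) (.e (nat_lit 2856) (nat_lit 184) (.e (nat_lit 426533) (nat_lit 28) (.e (nat_lit 344068) (nat_lit 0) .nil)))) (.g (nat_lit 0) (.e (nat_lit 127400) (nat_lit 0) .nil) .nil)))) (.nd (nat_lit 9) 
(.lf (nat_lit 483592) (.g (nat_lit 3197) (.e (nat_lit 6421) (nat_lit 341) (.e (nat_lit 163913) (nat_lit 12) (.e (nat_lit 426129) (nat_lit 3) (.e (nat_lit 204868) (nat_lit 29) (.e (nat_lit 360473) (nat_lit 8) (.e (nat_lit 557089) (nat_lit 12) (.e (nat_lit 163843) (nat_lit 0) .nil))))))) (.g (nat_lit 1) (.e (nat_lit 125057) (nat_lit 0) .nil) .nil))) 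
(.lf (nat_lit 484104) (.g (nat_lit 2065) (.e (nat_lit 6724) (nat_lit 362) (.e (nat_lit 180250) (nat_lit 10) (.e (nat_lit 573471) (nat_lit 11) (.e (nat_lit 16433) (nat_lit 9) (.e (nat_lit 433920) (nat_lit 3) (.e (nat_lit 204816) (nat_lit 17) .nil)))))) (.g (nat_lit 1) (.e (nat_lit 128929) (nat_lit 0) .nil) .nil))))) (.nd (nat_lit 8) (.nd (nat_lit 9) 
(.lf (nat_lit 483464) (.g (nat_lit 2967) (.e (nat_lit 6418) (nat_lit 341) (.e (nat_lit 163900) (nat_lit 12) (.e (nat_lit 426140) (nat_lit 3) (.e (nat_lit 204869) (nat_lit 29) (.e (nat_lit 360474) (nat_lit 8) (.e (nat_lit 557094) (nat_lit 12) (.e (nat_lit 163847) (nat_lit 0) .nil))))))) (.g (nat_lit 1) (.e (nat_lit 123906) (nat_lit 0) .nil) .nil))) 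
(.lf (nat_lit 483976) (.g (nat_lit 1864) (.e (nat_lit 6722) (nat_lit 362) (.e (nat_lit 180244) (nat_lit 5) (.e (nat_lit 532563) (nat_lit 15) (.e (nat_lit 385104) (nat_lit 50) .nil)))) (.g (nat_lit 0) (.e (nat_lit 128280) (nat_lit 0) .nil) .nil)))) (.nd (nat_lit 9) 
(.lf (nat_lit 483720) (.g (nat_lit 4164) (.e (nat_lit 6428) (nat_lit 342) (.e (nat_lit 229407) (nat_lit 13) (.e (nat_lit 434231) (nat_lit 23) (.e (nat_lit 532550) (nat_lit 12) (.e (nat_lit 360475) (nat_lit 8) (.e (nat_lit 557089) (nat_lit 12) (.e (nat_lit 163850) (nat_lit 0) .nil))))))) (.g (nat_lit 1) (.e (nat_lit 126190) (nat_lit 0) .nil) .nil))) 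
(.lf (nat_lit 484232) (.g (nat_lit 315) (.e (nat_lit 7936) (nat_lit 362) (.e (nat_lit 180271) (nat_lit 26) (.e (nat_lit 704736) (nat_lit 11) .nil))) (.g (nat_lit 0) (.e (nat_lit 129306) (nat_lit 0) .nil) .nil)))))) (.nd (nat_lit 7) (.nd (nat_lit 8) (.nd (nat_lit 9) 
(.lf (nat_lit 483400) (.g (nat_lit 3719) (.e (nat_lit 6416) (nat_lit 341) (.e (nat_lit 163908) (nat_lit 12) (.e (nat_lit 426286) (nat_lit 10) (.e (nat_lit 434289) (nat_lit 43) (.e (nat_lit 696344) (nat_lit 8) (.e (nat_lit 172113) (nat_lit 10) (.e (nat_lit 434203) (nat_lit 18) .nil))))))) (.g (nat_lit 1) (.e (nat_lit 123324) (nat_lit 0) .nil) .nil))) 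
(.lf (nat_lit 483912) (.g (nat_lit 1768) (.e (nat_lit 6718) (nat_lit 361) (.e (nat_lit 172076) (nat_lit 6) (.e (nat_lit 253991) (nat_lit 11) (.e (nat_lit 16462) (nat_lit 13) (.e (nat_lit 483345) (nat_lit 17) .nil))))) (.g (nat_lit 1) (.e (nat_lit 127879) (nat_lit 0) .nil) .nil)))) (.nd (nat_lit 9) 
(.lf (nat_lit 483656) (.g (nat_lit 5722) (.e (nat_lit 6425) (nat_lit 342) (.e (nat_lit 229409) (nat_lit 13) (.e (nat_lit 434231) (nat_lit 23) (.e (nat_lit 532549) (nat_lit 12) (.e (nat_lit 360475) (nat_lit 8) (.e (nat_lit 557089) (nat_lit 12) (.e (nat_lit 163850) (nat_lit 0) .nil))))))) (.g (nat_lit 1) (.e (nat_lit 125609) (nat_lit 0) .nil) .nil))) 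
(.lf (nat_lit 484168) (.g (nat_lit 2626) (.e (nat_lit 6724) (nat_lit 362) (.e (nat_lit 180271) (nat_lit 26) (.e (nat_lit 704736) (nat_lit 11) (.e (nat_lit 16463) (nat_lit 13) (.e (nat_lit 483344) (nat_lit 17) .nil))))) (.g (nat_lit 1) (.e (nat_lit 129080) (nat_lit 0) .nil) .nil))))) (.nd (nat_lit 8) (.nd (nat_lit 9) 
(.lf (nat_lit 483528) (.g (nat_lit 3232) (.e (nat_lit 6420) (nat_lit 341) (.e (nat_lit 163900) (nat_lit 12) (.e (nat_lit 426140) (nat_lit 3) (.e (nat_lit 204869) (nat_lit 29) (.e (nat_lit 360474) (nat_lit 8) (.e (nat_lit 557093) (nat_lit 12) (.e (nat_lit 163849) (nat_lit 0) .nil))))))) (.g (nat_lit 1) (.e (nat_lit 124455) (nat_lit 0) .nil) .nil))) 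
(.lf (nat_lit 484040) (.g (nat_lit 3232) (.e (nat_lit 6722) (nat_lit 362) (.e (nat_lit 180271) (nat_lit 26) (.e (nat_lit 704738) (nat_lit 11) (.e (nat_lit 16466) (nat_lit 13) (.e (nat_lit 483346) (nat_lit 17) .nil))))) (.g (nat_lit 1) (.e (nat_lit 128525) (nat_lit 0) .nil) .nil)))) (.nd (nat_lit 9) 
(.lf (nat_lit 483784) (.g (nat_lit 3453) (.e (nat_lit 6617) (nat_lit 357) (.e (nat_lit 2685) (nat_lit 168) (.e (nat_lit 204869) (nat_lit 29) (.e (nat_lit 360475) (nat_lit 8) (.e (nat_lit 557087) (nat_lit 11) (.e (nat_lit 24578) (nat_lit 0) .nil)))))) (.g (nat_lit 1) (.e (nat_lit 126769) (nat_lit 0) .nil) .nil))) 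
(.lf (nat_lit 484296) (.g (nat_lit 2189) (.e (nat_lit 8303) (nat_lit 58) (.e (nat_lit 286759) (nat_lit 12) (.e (nat_lit 385094) (nat_lit 49) (.e (nat_lit 778326) (nat_lit 6) (.e (nat_lit 81959) (nat_lit 24) (.e (nat_lit 130816) (nat_lit 279) .nil)))))) (.g (nat_lit 1) (.e (nat_lit 129736) (nat_lit 0) .nil) .nil))))))) (.nd (nat_lit 6) (.nd (nat_lit 7) (.nd (nat_lit 8) (.nd (nat_lit 9) 
(.lf (nat_lit 483368) (.g (nat_lit 4566) (.e (nat_lit 6416) (nat_lit 341) (.e (nat_lit 163900) (nat_lit 12) (.e (nat_lit 426140) (nat_lit 3) (.e (nat_lit 204869) (nat_lit 29) (.e (nat_lit 360475) (nat_lit 8) (.e (nat_lit 557091) (nat_lit 12) (.e (nat_lit 163843) (nat_lit 0) .nil))))))) (.g (nat_lit 1) (.e (nat_lit 123061) (nat_lit 0) .nil) .nil))) 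
(.lf (nat_lit 483880) (.g (nat_lit 2342) (.e (nat_lit 6711) (nat_lit 360) (.e (nat_lit 163962) (nat_lit 25) (.e (nat_lit 532550) (nat_lit 12) (.e (nat_lit 360474) (nat_lit 8) (.e (nat_lit 557073) (nat_lit 9) (.e (nat_lit 288) (nat_lit 21) (.e (nat_lit 335874) (nat_lit 0) .nil))))))) (.g (nat_lit 1) (.e (nat_lit 127571) (nat_lit 0) .nil) .nil)))) (.nd (nat_lit 9) 
(.lf (nat_lit 483624) (.g (nat_lit 1495) (.e (nat_lit 6421) (nat_lit 341) (.e (nat_lit 163923) (nat_lit 15) (.e (nat_lit 450601) (nat_lit 21) (.e (nat_lit 696344) (nat_lit 8) (.e (nat_lit 172113) (nat_lit 10) (.e (nat_lit 434207) (nat_lit 18) .nil)))))) (.g (nat_lit 1) (.e (nat_lit 125353) (nat_lit 0) .nil) .nil))) 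
(.lf (nat_lit 484136) (.g (nat_lit 4395) (.e (nat_lit 6724) (nat_lit 362) (.e (nat_lit 180251) (nat_lit 10) (.e (nat_lit 573471) (nat_lit 11) (.e (nat_lit 16448) (nat_lit 10) (.e (nat_lit 434231) (nat_lit 23) (.e (nat_lit 532482) (nat_lit 0) .nil)))))) (.g (nat_lit 1) (.e (nat_lit 128972) (nat_lit 0) .nil) .nil))))) (.nd (nat_lit 8) (.nd (nat_lit 9) 
(.lf (nat_lit 483496) (.g (nat_lit 3110) (.e (nat_lit 6418) (nat_lit 341) (.e (nat_lit 163916) (nat_lit 13) (.e (nat_lit 434231) (nat_lit 23) (.e (nat_lit 532550) (nat_lit 12) (.e (nat_lit 360474) (nat_lit 8) (.e (nat_lit 557093) (nat_lit 12) (.e (nat_lit 163848) (nat_lit 0) .nil))))))) (.g (nat_lit 1) (.e (nat_lit 124105) (nat_lit 0) .nil) .nil))) 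
(.lf (nat_lit 484008) (.g (nat_lit 1349) (.e (nat_lit 6722) (nat_lit 362) (.e (nat_lit 180271) (nat_lit 26) (.e (nat_lit 704736) (nat_lit 11) (.e (nat_lit 16465) (nat_lit 13) (.e (nat_lit 491264) (nat_lit 17) .nil))))) (.g (nat_lit 1) (.e (nat_lit 128477) (nat_lit 0) .nil) .nil)))) (.nd (nat_lit 9) 
(.lf (nat_lit 483752) (.g (nat_lit 1129) (.e (nat_lit 6401) (nat_lit 339) (.e (nat_lit 57378) (nat_lit 3) (.e (nat_lit 98333) (nat_lit 18) .nil))) (.g (nat_lit 0) (.e (nat_lit 126496) (nat_lit 0) .nil) .nil))) 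
(.lf (nat_lit 484264) (.g (nat_lit 1259) (.e (nat_lit 6807) (nat_lit 365) (.e (nat_lit 1220) (nat_lit 90) (.e (nat_lit 81938) (nat_lit 20) (.e (nat_lit 1885) (nat_lit 127) .nil)))) (.g (nat_lit 0) (.e (nat_lit 129375) (nat_lit 0) .nil) .nil)))))) (.nd (nat_lit 7) (.nd (nat_lit 8) (.nd (nat_lit 9) 
(.lf (nat_lit 483432) (.g (nat_lit 4025) (.e (nat_lit 6416) (nat_lit 341) (.e (nat_lit 163909) (nat_lit 12) (.e (nat_lit 426140) (nat_lit 3) (.e (nat_lit 204869) (nat_lit 29) (.e (nat_lit 360475) (nat_lit 8) (.e (nat_lit 557089) (nat_lit 12) (.e (nat_lit 163848) (nat_lit 0) .nil))))))) (.g (nat_lit 1) (.e (nat_lit 123419) (nat_lit 0) .nil) .nil))) 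
(.lf (nat_lit 483944) (.g (nat_lit 971) (.e (nat_lit 6720) (nat_lit 361) (.e (nat_lit 172143) (nat_lit 25) (.e (nat_lit 319492) (nat_lit 0) (.e (nat_lit 5771) (nat_lit 316) (.e (nat_lit 172150) (nat_lit 27) (.e (nat_lit 335892) (nat_lit 0) .nil)))))) (.g (nat_lit 1) (.e (nat_lit 127981) (nat_lit 0) .nil) .nil)))) (.nd (nat_lit 9) 
(.lf (nat_lit 483688) (.g (nat_lit 3060) (.e (nat_lit 6425) (nat_lit 342) (.e (nat_lit 229415) (nat_lit 15) (.e (nat_lit 450563) (nat_lit 0) (.e (nat_lit 6420) (nat_lit 341) (.e (nat_lit 163902) (nat_lit 12) (.e (nat_lit 426274) (nat_lit 10) (.e (nat_lit 434212) (nat_lit 18) .nil))))))) (.g (nat_lit 1) (.e (nat_lit 125752) (nat_lit 0) .nil) .nil))) 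
(.lf (nat_lit 484200) (.g (nat_lit 1445) (.e (nat_lit 7936) (nat_lit 362) (.e (nat_lit 180243) (nat_lit 5) (.e (nat_lit 532481) (nat_lit 0) (.e (nat_lit 6722) (nat_lit 362) .nil)))) (.g (nat_lit 0) (.e (nat_lit 129166) (nat_lit 0) .nil) .nil))))) (.nd (nat_lit 8) (.nd (nat_lit 9) 
(.lf (nat_lit 483560) (.g (nat_lit 1066) (.e (nat_lit 6420) (nat_lit 341) (.e (nat_lit 163908) (nat_lit 12) (.e (nat_lit 426285) (nat_lit 10) (.e (nat_lit 434289) (nat_lit 43) .nil)))) (.g (nat_lit 0) (.e (nat_lit 124601) (nat_lit 0) .nil) .nil))) 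
(.lf (nat_lit 484072) (.g (nat_lit 3344) (.e (nat_lit 6724) (nat_lit 362) (.e (nat_lit 180243) (nat_lit 5) (.e (nat_lit 532567) (nat_lit 16) (.e (nat_lit 401436) (nat_lit 9) (.e (nat_lit 426131) (nat_lit 3) (.e (nat_lit 204816) (nat_lit 17) .nil)))))) (.g (nat_lit 1) (.e (nat_lit 128874) (nat_lit 0) .nil) .nil)))) (.nd (nat_lit 9) 
(.lf (nat_lit 483816) (.g (nat_lit 1851) (.e (nat_lit 6667) (nat_lit 357) (.e (nat_lit 3090) (nat_lit 191) (.e (nat_lit 483409) (nat_lit 27) (.e (nat_lit 401459) (nat_lit 13) (.e (nat_lit 483344) (nat_lit 17) .nil))))) (.g (nat_lit 0) (.e (nat_lit 127123) (nat_lit 0) .nil) .nil))) 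
(.lf (nat_lit 484328) (.g (nat_lit 466) (.e (nat_lit 8318) (nat_lit 64) (.e (nat_lit 516150) (nat_lit 9) (.e (nat_lit 426323) (nat_lit 13) .nil))) (.g (nat_lit 0) (.e (nat_lit 129787) (nat_lit 0) .nil) .nil)))))))) (.nd (nat_lit 5) (.nd (nat_lit 6) (.nd (nat_lit 7) (.nd (nat_lit 8) (.nd (nat_lit 9) 
(.lf (nat_lit 483352) (.g (nat_lit 3635) (.e (nat_lit 6416) (nat_lit 341) (.e (nat_lit 163867) (nat_lit 2) (.e (nat_lit 196656) (nat_lit 11) (.e (nat_lit 16473) (nat_lit 14) (.e (nat_lit 499456) (nat_lit 27) (.e (nat_lit 426558) (nat_lit 33) (.e (nat_lit 385045) (nat_lit 21) .nil))))))) (.g (nat_lit 1) (.e (nat_lit 123023) (nat_lit 0) .nil) .nil))) 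
(.lf (nat_lit 483864) (.g (nat_lit 2578) (.e (nat_lit 6711) (nat_lit 360) (.e (nat_lit 163962) (nat_lit 25) (.e (nat_lit 532535) (nat_lit 9) (.e (nat_lit 336058) (nat_lit 7) (.e (nat_lit 319519) (nat_lit 12) (.e (nat_lit 40704) (nat_lit 5) (.e (nat_lit 1512) (nat_lit 108) (.e (nat_lit 335872) (nat_lit 0) .nil)))))))) (.g (nat_lit 1) (.e (nat_lit 127516) (nat_lit 0) .nil) .nil)))) (.nd (nat_lit 9) 
(.lf (nat_lit 483608) (.g (nat_lit 4288) (.e (nat_lit 6421) (nat_lit 341) (.e (nat_lit 171776) (nat_lit 12) (.e (nat_lit 426139) (nat_lit 3) (.e (nat_lit 204869) (nat_lit 29) (.e (nat_lit 360474) (nat_lit 8) (.e (nat_lit 557089) (nat_lit 12) (.e (nat_lit 163849) (nat_lit 0) .nil))))))) (.g (nat_lit 1) (.e (nat_lit 125121) (nat_lit 0) .nil) .nil))) 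
(.lf (nat_lit 484120) (.g (nat_lit 3714) (.e (nat_lit 6724) (nat_lit 362) (.e (nat_lit 180251) (nat_lit 10) (.e (nat_lit 573469) (nat_lit 11) (.e (nat_lit 16448) (nat_lit 10) (.e (nat_lit 434231) (nat_lit 23) (.e (nat_lit 532482) (nat_lit 0) .nil)))))) (.g (nat_lit 1) (.e (nat_lit 128956) (nat_lit 0) .nil) .nil))))) (.nd (nat_lit 8) (.nd (nat_lit 9) 
(.lf (nat_lit 483480) (.g (nat_lit 2580) (.e (nat_lit 6418) (nat_lit 341) (.e (nat_lit 163908) (nat_lit 12) (.e (nat_lit 426136) (nat_lit 3) (.e (nat_lit 204869) (nat_lit 29) (.e (nat_lit 360474) (nat_lit 8) (.e (nat_lit 557094) (nat_lit 12) (.e (nat_lit 163847) (nat_lit 0) .nil))))))) (.g (nat_lit 1) (.e (nat_lit 123954) (nat_lit 0) .nil) .nil))) 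
(.lf (nat_lit 483992) (.g (nat_lit 1579) (.e (nat_lit 6722) (nat_lit 362) (.e (nat_lit 180251) (nat_lit 10) (.e (nat_lit 573469) (nat_lit 11) (.e (nat_lit 16451) (nat_lit 11) (.e (nat_lit 458789) (nat_lit 23) .nil))))) (.g (nat_lit 0) (.e (nat_lit 128375) (nat_lit 0) .nil) .nil)))) (.nd (nat_lit 9) 
(.lf (nat_lit 483736) (.g (nat_lit 2063) (.e (nat_lit 6392) (nat_lit 339) (.e (nat_lit 57379) (nat_lit 3) (.e (nat_lit 98334) (nat_lit 18) (.e (nat_lit 164330) (nat_lit 230) .nil)))) (.g (nat_lit 0) (.e (nat_lit 126475) (nat_lit 0) .nil) .nil))) 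
(.lf (nat_lit 484248) (.g (nat_lit 875) (.e (nat_lit 7936) (nat_lit 362) (.e (nat_lit 180271) (nat_lit 26) (.e (nat_lit 704738) (nat_lit 11) (.e (nat_lit 16436) (nat_lit 9) .nil)))) (.g (nat_lit 0) (.e (nat_lit 129324) (nat_lit 0) .nil) .nil)))))) (.nd (nat_lit 7) (.nd (nat_lit 8) (.nd (nat_lit 9) 
(.lf (nat_lit 483416) (.g (nat_lit 5313) (.e (nat_lit 6416) (nat_lit 341) (.e (nat_lit 163909) (nat_lit 12) (.e (nat_lit 426125) (nat_lit 2) (.e (nat_lit 196666) (nat_lit 13) (.e (nat_lit 65617) (nat_lit 10) (.e (nat_lit 344133) (nat_lit 26) (.e (nat_lit 557091) (nat_lit 12) (.e (nat_lit 163847) (nat_lit 0) .nil)))))))) (.g (nat_lit 1) (.e (nat_lit 123387) (nat_lit 0) .nil) .nil))) 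
(.lf (nat_lit 483928) (.g (nat_lit 455) (.e (nat_lit 6719) (nat_lit 361) (.e (nat_lit 172143) (nat_lit 25) (.e (nat_lit 319492) (nat_lit 0) (.e (nat_lit 5771) (nat_lit 316) (.e (nat_lit 172149) (nat_lit 27) (.e (nat_lit 335877) (nat_lit 0) .nil)))))) (.g (nat_lit 1) (.e (nat_lit 127931) (nat_lit 0) .nil) .nil)))) (.nd (nat_lit 9) 
(.lf (nat_lit 483672) (.g (nat_lit 3187) (.e (nat_lit 6425) (nat_lit 342) (.e (nat_lit 229413) (nat_lit 15) (.e (nat_lit 450603) (nat_lit 22) (.e (nat_lit 704738) (nat_lit 11) (.e (nat_lit 16449) (nat_lit 10) (.e (nat_lit 434212) (nat_lit 18) .nil)))))) (.g (nat_lit 1) (.e (nat_lit 125693) (nat_lit 0) .nil) .nil))) 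
(.lf (nat_lit 484184) (.g (nat_lit 1722) (.e (nat_lit 6724) (nat_lit 362) (.e (nat_lit 180271) (nat_lit 26) (.e (nat_lit 704738) (nat_lit 11) (.e (nat_lit 16384) (nat_lit 0) (.e (nat_lit 7936) (nat_lit 390) .nil))))) (.g (nat_lit 0) (.e (nat_lit 129102) (nat_lit 0) .nil) .nil))))) (.nd (nat_lit 8) (.nd (nat_lit 9) 
(.lf (nat_lit 483544) (.g (nat_lit 813) (.e (nat_lit 6420) (nat_lit 341) (.e (nat_lit 163902) (nat_lit 12) (.e (nat_lit 426294) (nat_lit 11) .nil))) (.g (nat_lit 0) (.e (nat_lit 124479) (nat_lit 0) .nil) .nil))) 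
(.lf (nat_lit 484056) (.g (nat_lit 2370) (.e (nat_lit 6724) (nat_lit 362) (.e (nat_lit 180243) (nat_lit 5) (.e (nat_lit 532523) (nat_lit 7) (.e (nat_lit 319504) (nat_lit 10) (.e (nat_lit 5714) (nat_lit 312) (.e (nat_lit 2681) (nat_lit 168) (.e (nat_lit 204816) (nat_lit 17) .nil))))))) (.g (nat_lit 1) (.e (nat_lit 128854) (nat_lit 0) .nil) .nil)))) (.nd (nat_lit 9) 
(.lf (nat_lit 483800) (.g (nat_lit 2369) (.e (nat_lit 6642) (nat_lit 357) (.e (nat_lit 3067) (nat_lit 190) (.e (nat_lit 475185) (nat_lit 29) (.e (nat_lit 557107) (nat_lit 15) .nil)))) (.g (nat_lit 0) (.e (nat_lit 126931) (nat_lit 0) .nil) .nil))) 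
(.lf (nat_lit 484312) (.g (nat_lit 2353) (.e (nat_lit 16128) (nat_lit 66) (.e (nat_lit 532569) (nat_lit 16) (.e (nat_lit 401448) (nat_lit 10) (.e (nat_lit 434232) (nat_lit 23) .nil)))) (.g (nat_lit 0) (.e (nat_lit 129758) (nat_lit 0) .nil) .nil))))))) (.nd (nat_lit 6) (.nd (nat_lit 7) (.nd (nat_lit 8) (.nd (nat_lit 9) 
(.lf (nat_lit 483384) (.g (nat_lit 3198) (.e (nat_lit 6416) (nat_lit 341) (.e (nat_lit 163908) (nat_lit 12) (.e (nat_lit 426136) (nat_lit 3) (.e (nat_lit 204869) (nat_lit 29) (.e (nat_lit 360474) (nat_lit 8) (.e (nat_lit 557093) (nat_lit 12) (.e (nat_lit 163849) (nat_lit 0) .nil))))))) (.g (nat_lit 1) (.e (nat_lit 123236) (nat_lit 0) .nil) .nil))) 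
(.lf (nat_lit 483896) (.g (nat_lit 2605) (.e (nat_lit 6713) (nat_lit 360) (.e (nat_lit 163962) (nat_lit 25) (.e (nat_lit 532535) (nat_lit 9) (.e (nat_lit 336061) (nat_lit 7) (.e (nat_lit 319519) (nat_lit 12) (.e (nat_lit 32778) (nat_lit 5) (.e (nat_lit 1512) (nat_lit 108) (.e (nat_lit 335874) (nat_lit 0) .nil)))))))) (.g (nat_lit 1) (.e (nat_lit 127699) (nat_lit 0) .nil) .nil)))) (.nd (nat_lit 9) 
(.lf (nat_lit 483640) (.g (nat_lit 3726) (.e (nat_lit 6425) (nat_lit 342) (.e (nat_lit 229399) (nat_lit 12) (.e (nat_lit 426140) (nat_lit 3) (.e (nat_lit 204869) (nat_lit 29) (.e (nat_lit 360475) (nat_lit 8) (.e (nat_lit 557091) (nat_lit 12) (.e (nat_lit 163840) (nat_lit 0) .nil))))))) (.g (nat_lit 1) (.e (nat_lit 125555) (nat_lit 0) .nil) .nil))) 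
(.lf (nat_lit 484152) (.g (nat_lit 997) (.e (nat_lit 6724) (nat_lit 362) (.e (nat_lit 180252) (nat_lit 10) (.e (nat_lit 573470) (nat_lit 11) (.e (nat_lit 16452) (nat_lit 11) .nil)))) (.g (nat_lit 0) (.e (nat_lit 129001) (nat_lit 0) .nil) .nil))))) (.nd (nat_lit 8) (.nd (nat_lit 9) 
(.lf (nat_lit 483512) (.g (nat_lit 4027) (.e (nat_lit 6420) (nat_lit 341) (.e (nat_lit 163843) (nat_lit 0) (.e (nat_lit 7366) (nat_lit 388) (.e (nat_lit 2663) (nat_lit 167) (.e (nat_lit 196666) (nat_lit 13) (.e (nat_lit 65617) (nat_lit 10) (.e (nat_lit 344132) (nat_lit 26) (.e (nat_lit 557093) (nat_lit 12) (.e (nat_lit 163849) (nat_lit 0) .nil))))))))) (.g (nat_lit 1) (.e (nat_lit 124423) (nat_lit 0) .nil) .nil))) 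
(.lf (nat_lit 484024) (.g (nat_lit 262) (.e (nat_lit 6722) (nat_lit 362) (.e (nat_lit 180271) (nat_lit 26) (.e (nat_lit 704738) (nat_lit 11) .nil))) (.g (nat_lit 0) (.e (nat_lit 128504) (nat_lit 0) .nil) .nil)))) (.nd (nat_lit 9) 
(.lf (nat_lit 483768) (.g (nat_lit 2176) (.e (nat_lit 7936) (nat_lit 343) (.e (nat_lit 1256) (nat_lit 92) (.e (nat_lit 98373) (nat_lit 29) (.e (nat_lit 450587) (nat_lit 10) (.e (nat_lit 573478) (nat_lit 12) .nil))))) (.g (nat_lit 0) (.e (nat_lit 126526) (nat_lit 0) .nil) .nil))) 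
(.lf (nat_lit 484280) (.g (nat_lit 2665) (.e (nat_lit 6830) (nat_lit 367) (.e (nat_lit 57378) (nat_lit 3) (.e (nat_lit 98368) (nat_lit 27) (.e (nat_lit 434245) (nat_lit 28) (.e (nat_lit 573481) (nat_lit 13) (.e (nat_lit 65571) (nat_lit 3) (.e (nat_lit 98319) (nat_lit 17) (.e (nat_lit 2399) (nat_lit 157) .nil)))))))) (.g (nat_lit 1) (.e (nat_lit 129540) (nat_lit 0) .nil) .nil)))))) 
(.nd (nat_lit 7) (.nd (nat_lit 8) (.nd (nat_lit 9) 
(.lf (nat_lit 483448) (.g (nat_lit 4141) (.e (nat_lit 6418) (nat_lit 341) (.e (nat_lit 163900) (nat_lit 12) (.e (nat_lit 426125) (nat_lit 2) (.e (nat_lit 196666) (nat_lit 13) (.e (nat_lit 65610) (nat_lit 10) (.e (nat_lit 344129) (nat_lit 26) (.e (nat_lit 557089) (nat_lit 12) (.e (nat_lit 163848) (nat_lit 0) .nil)))))))) (.g (nat_lit 1) (.e (nat_lit 123882) (nat_lit 0) .nil) .nil))) 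
(.lf (nat_lit 483960) (.g (nat_lit 2487) (.e (nat_lit 6722) (nat_lit 362) (.e (nat_lit 180225) (nat_lit 0) (.e (nat_lit 6420) (nat_lit 341) (.e (nat_lit 163902) (nat_lit 12) (.e (nat_lit 426251) (nat_lit 9) .nil))))) (.g (nat_lit 0) (.e (nat_lit 128184) (nat_lit 0) .nil) .nil)))) (.nd (nat_lit 9) 
(.lf (nat_lit 483704) (.g (nat_lit 2949) (.e (nat_lit 6426) (nat_lit 342) (.e (nat_lit 229409) (nat_lit 13) (.e (nat_lit 434231) (nat_lit 23) (.e (nat_lit 532550) (nat_lit 12) (.e (nat_lit 360475) (nat_lit 8) (.e (nat_lit 557091) (nat_lit 12) (.e (nat_lit 163850) (nat_lit 0) .nil))))))) (.g (nat_lit 1) (.e (nat_lit 125854) (nat_lit 0) .nil) .nil))) 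
(.lf (nat_lit 484216) (.g (nat_lit 631) (.e (nat_lit 7936) (nat_lit 362) (.e (nat_lit 180250) (nat_lit 10) (.e (nat_lit 573469) (nat_lit 11) .nil))) (.g (nat_lit 0) (.e (nat_lit 129221) (nat_lit 0) .nil) .nil))))) (.nd (nat_lit 8) (.nd (nat_lit 9) 
(.lf (nat_lit 483576) (.g (nat_lit 4748) (.e (nat_lit 6421) (nat_lit 341) (.e (nat_lit 163900) (nat_lit 12) (.e (nat_lit 426125) (nat_lit 2) (.e (nat_lit 196666) (nat_lit 13) (.e (nat_lit 65617) (nat_lit 10) (.e (nat_lit 344133) (nat_lit 26) (.e (nat_lit 557091) (nat_lit 12) (.e (nat_lit 163844) (nat_lit 0) .nil)))))))) (.g (nat_lit 1) (.e (nat_lit 124977) (nat_lit 0) .nil) .nil))) 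
(.lf (nat_lit 484088) (.g (nat_lit 2774) (.e (nat_lit 6724) (nat_lit 362) (.e (nat_lit 180245) (nat_lit 5) (.e (nat_lit 532523) (nat_lit 7) (.e (nat_lit 319505) (nat_lit 10) (.e (nat_lit 5714) (nat_lit 312) (.e (nat_lit 2681) (nat_lit 168) (.e (nat_lit 204815) (nat_lit 17) .nil))))))) (.g (nat_lit 1) (.e (nat_lit 128894) (nat_lit 0) .nil) .nil)))) (.nd (nat_lit 9) 
(.lf (nat_lit 483832) (.g (nat_lit 4481) (.e (nat_lit 6680) (nat_lit 357) (.e (nat_lit 3067) (nat_lit 190) (.e (nat_lit 475183) (nat_lit 29) (.e (nat_lit 557101) (nat_lit 13) (.e (nat_lit 172115) (nat_lit 10) (.e (nat_lit 434231) (nat_lit 23) (.e (nat_lit 532490) (nat_lit 0) .nil))))))) (.g (nat_lit 1) (.e (nat_lit 127254) (nat_lit 0) .nil) .nil))) 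
(.lf (nat_lit 484344) (.g (nat_lit 3283) (.e (nat_lit 8324) (nat_lit 69) (.e (nat_lit 557105) (nat_lit 14) (.e (nat_lit 180252) (nat_lit 10) (.e (nat_lit 573489) (nat_lit 14) (.e (nat_lit 73755) (nat_lit 8) (.e (nat_lit 557090) (nat_lit 12) (.e (nat_lit 164007) (nat_lit 41) (.e (nat_lit 663582) (nat_lit 10) .nil)))))))) (.g (nat_lit 1) (.e (nat_lit 129836) (nat_lit 0) .nil) .nil)))))))))) 
(.nd (nat_lit 3) (.nd (nat_lit 4) (.nd (nat_lit 5) (.nd (nat_lit 6) (.nd (nat_lit 7) 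
(.nd (nat_lit 8) (.nd (nat_lit 9) 
(.lf (nat_lit 483332) (.g (nat_lit 2817) (.e (nat_lit 6255) (nat_lit 337) (.e (nat_lit 2651) (nat_lit 166) (.e (nat_lit 188439) (nat_lit 20) (.e (nat_lit 3469) (nat_lit 217) (.e (nat_lit 696344) (nat_lit 8) (.e (nat_lit 172113) (nat_lit 10) (.e (nat_lit 434207) (nat_lit 18) .nil))))))) (.g (nat_lit 1) (.e (nat_lit 122500) (nat_lit 0) .nil) .nil))) 
(.lf (nat_lit 483844) (.g (nat_lit 4300) (.e (nat_lit 6684) (nat_lit 357) (.e (nat_lit 2664) (nat_lit 167) (.e (nat_lit 196666) (nat_lit 13) (.e (nat_lit 65630) (nat_lit 14) (.e (nat_lit 401425) (nat_lit 2) (.e (nat_lit 196681) (nat_lit 17) (.e (nat_lit 131073) (nat_lit 0) .nil))))))) (.g (nat_lit 1) (.e (nat_lit 127342) (nat_lit 0) .nil) .nil)))) (.nd (nat_lit 9) 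
(.lf (nat_lit 483588) (.g (nat_lit 2194) (.e (nat_lit 6421) (nat_lit 341) (.e (nat_lit 163909) (nat_lit 12) (.e (nat_lit 426140) (nat_lit 3) (.e (nat_lit 204868) (nat_lit 29) (.e (nat_lit 360473) (nat_lit 8) (.e (nat_lit 557091) (nat_lit 12) (.e (nat_lit 163844) (nat_lit 0) .nil))))))) (.g (nat_lit 1) (.e (nat_lit 125044) (nat_lit 0) .nil) .nil))) 
(.lf (nat_lit 484100) (.g (nat_lit 1739) (.e (nat_lit 6724) (nat_lit 362) (.e (nat_lit 180250) (nat_lit 10) (.e (nat_lit 573470) (nat_lit 11) (.e (nat_lit 16447) (nat_lit 10) (.e (nat_lit 434231) (nat_lit 23) .nil))))) (.g (nat_lit 0) (.e (nat_lit 128925) (nat_lit 0) .nil) .nil))))) (.nd (nat_lit 8) (.nd (nat_lit 9) 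
(.lf (nat_lit 483460) (.g (nat_lit 3003) (.e (nat_lit 6418) (nat_lit 341) (.e (nat_lit 163900) (nat_lit 12) (.e (nat_lit 426140) (nat_lit 3) (.e (nat_lit 204868) (nat_lit 29) (.e (nat_lit 360473) (nat_lit 8) (.e (nat_lit 557091) (nat_lit 12) (.e (nat_lit 163847) (nat_lit 0) .nil))))))) (.g (nat_lit 1) (.e (nat_lit 123902) (nat_lit 0) .nil) .nil))) 
(.lf (nat_lit 483972) (.g (nat_lit 3201) (.e (nat_lit 6722) (nat_lit 362) (.e (nat_lit 180244) (nat_lit 5) (.e (nat_lit 532523) (nat_lit 7) (.e (nat_lit 319504) (nat_lit 10) (.e (nat_lit 5714) (nat_lit 312) (.e (nat_lit 2682) (nat_lit 168) (.e (nat_lit 204815) (nat_lit 17) .nil))))))) (.g (nat_lit 1) (.e (nat_lit 128276) (nat_lit 0) .nil) .nil)))) (.nd (nat_lit 9) 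
(.lf (nat_lit 483716) (.g (nat_lit 4265) (.e (nat_lit 6428) (nat_lit 342) (.e (nat_lit 229399) (nat_lit 12) (.e (nat_lit 426125) (nat_lit 2) (.e (nat_lit 196666) (nat_lit 13) (.e (nat_lit 65617) (nat_lit 10) (.e (nat_lit 344130) (nat_lit 26) (.e (nat_lit 557089) (nat_lit 12) (.e (nat_lit 163850) (nat_lit 0) .nil)))))))) (.g (nat_lit 1) (.e (nat_lit 126176) (nat_lit 0) .nil) .nil))) 
(.lf (nat_lit 484228) (.g (nat_lit 1012) (.e (nat_lit 7936) (nat_lit 362) (.e (nat_lit 180252) (nat_lit 10) (.e (nat_lit 573471) (nat_lit 11) (.e (nat_lit 16439) (nat_lit 9) .nil)))) (.g (nat_lit 0) (.e (nat_lit 129276) (nat_lit 0) .nil) .nil)))))) (.nd (nat_lit 7) (.nd (nat_lit 8) (.nd (nat_lit 9) 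
(.lf (nat_lit 483396) (.g (nat_lit 3755) (.e (nat_lit 6416) (nat_lit 341) (.e (nat_lit 163908) (nat_lit 12) (.e (nat_lit 426285) (nat_lit 10) (.e (nat_lit 434289) (nat_lit 43) (.e (nat_lit 696344) (nat_lit 8) (.e (nat_lit 172113) (nat_lit 10) (.e (nat_lit 434207) (nat_lit 18) .nil))))))) (.g (nat_lit 1) (.e (nat_lit 123277) (nat_lit 0) .nil) .nil))) 
(.lf (nat_lit 483908) (.g (nat_lit 3022) (.e (nat_lit 6718) (nat_lit 361) (.e (nat_lit 172067) (nat_lit 3) (.e (nat_lit 204885) (nat_lit 33) (.e (nat_lit 401448) (nat_lit 10) (.e (nat_lit 434232) (nat_lit 23) (.e (nat_lit 532481) (nat_lit 0) .nil)))))) (.g (nat_lit 1) (.e (nat_lit 127872) (nat_lit 0) .nil) .nil)))) (.nd (nat_lit 9) 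
(.lf (nat_lit 483652) (.g (nat_lit 3760) (.e (nat_lit 6425) (nat_lit 342) (.e (nat_lit 229409) (nat_lit 13) (.e (nat_lit 434231) (nat_lit 23) (.e (nat_lit 532549) (nat_lit 12) (.e (nat_lit 360473) (nat_lit 8) (.e (nat_lit 557091) (nat_lit 12) (.e (nat_lit 163852) (nat_lit 0) .nil))))))) (.g (nat_lit 1) (.e (nat_lit 125605) (nat_lit 0) .nil) .nil))) 
(.lf (nat_lit 484164) (.g (nat_lit 252) (.e (nat_lit 6724) (nat_lit 362) (.e (nat_lit 180271) (nat_lit 26) (.e (nat_lit 704736) (nat_lit 11) .nil))) (.g (nat_lit 0) (.e (nat_lit 129075) (nat_lit 0) .nil) .nil))))) (.nd (nat_lit 8) (.nd (nat_lit 9) 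
(.lf (nat_lit 483524) (.g (nat_lit 4215) (.e (nat_lit 6420) (nat_lit 341) (.e (nat_lit 163900) (nat_lit 12) (.e (nat_lit 426125) (nat_lit 2) (.e (nat_lit 196666) (nat_lit 13) (.e (nat_lit 65617) (nat_lit 10) (.e (nat_lit 344133) (nat_lit 26) (.e (nat_lit 557089) (nat_lit 12) (.e (nat_lit 163844) (nat_lit 0) .nil)))))))) (.g (nat_lit 1) (.e (nat_lit 124448) (nat_lit 0) .nil) .nil))) 
(.lf (nat_lit 484036) (.g (nat_lit 2372) (.e (nat_lit 6722) (nat_lit 362) (.e (nat_lit 180271) (nat_lit 26) (.e (nat_lit 704738) (nat_lit 11) (.e (nat_lit 16464) (nat_lit 13) (.e (nat_lit 483344) (nat_lit 17) .nil))))) (.g (nat_lit 1) (.e (nat_lit 128521) (nat_lit 0) .nil) .nil)))) (.nd (nat_lit 9) 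
(.lf (nat_lit 483780) (.g (nat_lit 2707) (.e (nat_lit 6579) (nat_lit 351) (.e (nat_lit 1126) (nat_lit 83) (.e (nat_lit 16466) (nat_lit 13) (.e (nat_lit 483413) (nat_lit 27) (.e (nat_lit 401447) (nat_lit 10) .nil))))) (.g (nat_lit 0) (.e (nat_lit 126702) (nat_lit 0) .nil) .nil))) 
(.lf (nat_lit 484292) (.g (nat_lit 2595) (.e (nat_lit 8303) (nat_lit 58) (.e (nat_lit 286733) (nat_lit 2) (.e (nat_lit 90170) (nat_lit 13) (.e (nat_lit 172106) (nat_lit 10) .nil)))) (.g (nat_lit 0) (.e (nat_lit 129732) (nat_lit 0) .nil) .nil))))))) (.nd (nat_lit 6) (.nd (nat_lit 7) (.nd (nat_lit 8) (.nd (nat_lit 9) 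
(.lf (nat_lit 483364) (.g (nat_lit 2432) (.e (nat_lit 6416) (nat_lit 341) (.e (nat_lit 163900) (nat_lit 12) (.e (nat_lit 426140) (nat_lit 3) (.e (nat_lit 204868) (nat_lit 29) (.e (nat_lit 360473) (nat_lit 8) (.e (nat_lit 557094) (nat_lit 12) (.e (nat_lit 163849) (nat_lit 0) .nil))))))) (.g (nat_lit 1) (.e (nat_lit 123057) (nat_lit 0) .nil) .nil))) 
(.lf (nat_lit 483876) (.g (nat_lit 2607) (.e (nat_lit 6711) (nat_lit 360) (.e (nat_lit 163962) (nat_lit 25) (.e (nat_lit 532550) (nat_lit 12) (.e (nat_lit 360474) (nat_lit 8) (.e (nat_lit 557070) (nat_lit 9) (.e (nat_lit 281) (nat_lit 21) (.e (nat_lit 335872) (nat_lit 0) .nil))))))) (.g (nat_lit 1) (.e (nat_lit 127567) (nat_lit 0) .nil) .nil)))) (.nd (nat_lit 9) 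
(.lf (nat_lit 483620) (.g (nat_lit 4317) (.e (nat_lit 6421) (nat_lit 341) (.e (nat_lit 163917) (nat_lit 13) (.e (nat_lit 434231) (nat_lit 23) (.e (nat_lit 532550) (nat_lit 12) (.e (nat_lit 360475) (nat_lit 8) (.e (nat_lit 557089) (nat_lit 12) (.e (nat_lit 163844) (nat_lit 0) .nil))))))) (.g (nat_lit 1) (.e (nat_lit 125155) (nat_lit 0) .nil) .nil))) 
(.lf (nat_lit 484132) (.g (nat_lit 3695) (.e (nat_lit 6724) (nat_lit 362) (.e (nat_lit 180251) (nat_lit 10) (.e (nat_lit 573471) (nat_lit 11) (.e (nat_lit 16446) (nat_lit 9) (.e (nat_lit 426133) (nat_lit 3) (.e (nat_lit 204816) (nat_lit 17) .nil)))))) (.g (nat_lit 1) (.e (nat_lit 128968) (nat_lit 0) .nil) .nil))))) (.nd (nat_lit 8) (.nd (nat_lit 9) 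
(.lf (nat_lit 483492) (.g (nat_lit 3847) (.e (nat_lit 6418) (nat_lit 341) (.e (nat_lit 163908) (nat_lit 12) (.e (nat_lit 426286) (nat_lit 10) (.e (nat_lit 434289) (nat_lit 43) (.e (nat_lit 696344) (nat_lit 8) (.e (nat_lit 172113) (nat_lit 10) (.e (nat_lit 434203) (nat_lit 18) .nil))))))) (.g (nat_lit 1) (.e (nat_lit 124037) (nat_lit 0) .nil) .nil))) 
(.lf (nat_lit 484004) (.g (nat_lit 1900) (.e (nat_lit 6722) (nat_lit 362) (.e (nat_lit 180269) (nat_lit 25) (.e (nat_lit 696343) (nat_lit 8) (.e (nat_lit 172123) (nat_lit 13) (.e (nat_lit 483343) (nat_lit 17) .nil))))) (.g (nat_lit 1) (.e (nat_lit 128433) (nat_lit 0) .nil) .nil)))) (.nd (nat_lit 9) 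
(.lf (nat_lit 483748) (.g (nat_lit 1345) (.e (nat_lit 6400) (nat_lit 339) (.e (nat_lit 57409) (nat_lit 12) (.e (nat_lit 336367) (nat_lit 27) (.e (nat_lit 426542) (nat_lit 29) .nil)))) (.g (nat_lit 0) (.e (nat_lit 126490) (nat_lit 0) .nil) .nil))) 
(.lf (nat_lit 484260) (.g (nat_lit 1287) (.e (nat_lit 6740) (nat_lit 365) (.e (nat_lit 1201) (nat_lit 88) (.e (nat_lit 65617) (nat_lit 10) (.e (nat_lit 344136) (nat_lit 29) .nil)))) (.g (nat_lit 0) (.e (nat_lit 129359) (nat_lit 0) .nil) .nil)))))) (.nd (nat_lit 7) (.nd (nat_lit 8) (.nd (nat_lit 9) 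
(.lf (nat_lit 483428) (.g (nat_lit 3421) (.e (nat_lit 6416) (nat_lit 341) (.e (nat_lit 163909) (nat_lit 12) (.e (nat_lit 426140) (nat_lit 3) (.e (nat_lit 204869) (nat_lit 29) (.e (nat_lit 360474) (nat_lit 8) (.e (nat_lit 557093) (nat_lit 12) (.e (nat_lit 163849) (nat_lit 0) .nil))))))) (.g (nat_lit 1) (.e (nat_lit 123415) (nat_lit 0) .nil) .nil))) 
(.lf (nat_lit 483940) (.g (nat_lit 1904) (.e (nat_lit 6720) (nat_lit 361) (.e (nat_lit 172074) (nat_lit 6) (.e (nat_lit 253991) (nat_lit 11) (.e (nat_lit 16466) (nat_lit 13) (.e (nat_lit 483345) (nat_lit 17) .nil))))) (.g (nat_lit 1) (.e (nat_lit 127976) (nat_lit 0) .nil) .nil)))) (.nd (nat_lit 9) 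
(.lf (nat_lit 483684) (.g (nat_lit 962) (.e (nat_lit 6425) (nat_lit 342) (.e (nat_lit 229415) (nat_lit 15) (.e (nat_lit 450563) (nat_lit 0) (.e (nat_lit 6416) (nat_lit 341) .nil)))) (.g (nat_lit 0) (.e (nat_lit 125741) (nat_lit 0) .nil) .nil))) 
(.lf (nat_lit 484196) (.g (nat_lit 957) (.e (nat_lit 6724) (nat_lit 362) (.e (nat_lit 180271) (nat_lit 26) (.e (nat_lit 704738) (nat_lit 11) (.e (nat_lit 16464) (nat_lit 13) .nil)))) (.g (nat_lit 0) (.e (nat_lit 129114) (nat_lit 0) .nil) .nil))))) (.nd (nat_lit 8) (.nd (nat_lit 9) 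
(.lf (nat_lit 483556) (.g (nat_lit 4838) (.e (nat_lit 6420) (nat_lit 341) (.e (nat_lit 163908) (nat_lit 12) (.e (nat_lit 426136) (nat_lit 3) (.e (nat_lit 204869) (nat_lit 29) (.e (nat_lit 360475) (nat_lit 8) (.e (nat_lit 557089) (nat_lit 12) (.e (nat_lit 163844) (nat_lit 0) .nil))))))) (.g (nat_lit 1) (.e (nat_lit 124575) (nat_lit 0) .nil) .nil))) 
(.lf (nat_lit 484068) (.g (nat_lit 1622) (.e (nat_lit 6724) (nat_lit 362) (.e (nat_lit 180243) (nat_lit 5) (.e (nat_lit 532566) (nat_lit 15) (.e (nat_lit 385106) (nat_lit 50) (.e (nat_lit 794368) (nat_lit 3) .nil))))) (.g (nat_lit 0) (.e (nat_lit 128869) (nat_lit 0) .nil) .nil)))) (.nd (nat_lit 9) 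
(.lf (nat_lit 483812) (.g (nat_lit 4159) (.e (nat_lit 6666) (nat_lit 357) (.e (nat_lit 3067) (nat_lit 190) (.e (nat_lit 475185) (nat_lit 29) (.e (nat_lit 557107) (nat_lit 15) (.e (nat_lit 188450) (nat_lit 23) (.e (nat_lit 212736) (nat_lit 17) .nil)))))) (.g (nat_lit 1) (.e (nat_lit 127090) (nat_lit 0) .nil) .nil))) 
(.lf (nat_lit 484324) (.g (nat_lit 2254) (.e (nat_lit 8318) (nat_lit 64) (.e (nat_lit 516148) (nat_lit 9) (.e (nat_lit 426131) (nat_lit 3) (.e (nat_lit 204838) (nat_lit 20) (.e (nat_lit 114715) (nat_lit 22) (.e (nat_lit 98048) (nat_lit 21) (.e (nat_lit 164368) (nat_lit 247) .nil))))))) (.g (nat_lit 1) (.e (nat_lit 129783) (nat_lit 0) .nil) .nil)))))))) 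
(.nd (nat_lit 5) (.nd (nat_lit 6) (.nd (nat_lit 7) (.nd (nat_lit 8) (.nd (nat_lit 9) 
(.lf (nat_lit 483348) (.g (nat_lit 1877) (.e (nat_lit 6416) (nat_lit 341) (.e (nat_lit 163867) (nat_lit 2) (.e (nat_lit 196656) (nat_lit 11) (.e (nat_lit 16473) (nat_lit 14) .nil)))) (.g (nat_lit 0) (.e (nat_lit 123019) (nat_lit 0) .nil) .nil))) 
(.lf (nat_lit 483860) (.g (nat_lit 3926) (.e (nat_lit 6711) (nat_lit 360) (.e (nat_lit 163962) (nat_lit 25) (.e (nat_lit 532482) (nat_lit 0) (.e (nat_lit 6203) (nat_lit 332) (.e (nat_lit 2798) (nat_lit 180) (.e (nat_lit 303119) (nat_lit 3) (.e (nat_lit 204859) (nat_lit 26) (.e (nat_lit 335872) (nat_lit 0) .nil)))))))) (.g (nat_lit 1) (.e (nat_lit 127511) (nat_lit 0) .nil) .nil)))) 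
(.nd (nat_lit 9) 
(.lf (nat_lit 483604) (.g (nat_lit 4711) (.e (nat_lit 6421) (nat_lit 341) (.e (nat_lit 163913) (nat_lit 12) (.e (nat_lit 426129) (nat_lit 3) (.e (nat_lit 204869) (nat_lit 29) (.e (nat_lit 360475) (nat_lit 8) (.e (nat_lit 557091) (nat_lit 12) (.e (nat_lit 163844) (nat_lit 0) .nil))))))) (.g (nat_lit 1) (.e (nat_lit 125069) (nat_lit 0) .nil) .nil))) 
(.lf (nat_lit 484116) (.g (nat_lit 2463) (.e (nat_lit 6724) (nat_lit 362) (.e (nat_lit 180251) (nat_lit 10) (.e (nat_lit 573469) (nat_lit 11) (.e (nat_lit 16444) (nat_lit 9) (.e (nat_lit 426129) (nat_lit 3) (.e (nat_lit 204815) (nat_lit 17) .nil)))))) (.g (nat_lit 1) (.e (nat_lit 128952) (nat_lit 0) .nil) .nil))))) (.nd (nat_lit 8) (.nd (nat_lit 9) 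
(.lf (nat_lit 483476) (.g (nat_lit 3664) (.e (nat_lit 6418) (nat_lit 341) (.e (nat_lit 163908) (nat_lit 12) (.e (nat_lit 426132) (nat_lit 3) (.e (nat_lit 204869) (nat_lit 29) (.e (nat_lit 360475) (nat_lit 8) (.e (nat_lit 557089) (nat_lit 12) (.e (nat_lit 163848) (nat_lit 0) .nil))))))) (.g (nat_lit 1) (.e (nat_lit 123950) (nat_lit 0) .nil) .nil))) 
(.lf (nat_lit 483988) (.g (nat_lit 1963) (.e (nat_lit 6722) (nat_lit 362) (.e (nat_lit 180250) (nat_lit 10) (.e (nat_lit 573471) (nat_lit 11) (.e (nat_lit 16439) (nat_lit 9) (.e (nat_lit 426039) (nat_lit 0) .nil))))) (.g (nat_lit 0) (.e (nat_lit 128345) (nat_lit 0) .nil) .nil)))) (.nd (nat_lit 9) 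
(.lf (nat_lit 483732) (.g (nat_lit 2643) (.e (nat_lit 6392) (nat_lit 339) (.e (nat_lit 57377) (nat_lit 3) (.e (nat_lit 98333) (nat_lit 18) (.e (nat_lit 164325) (nat_lit 230) (.e (nat_lit 163907) (nat_lit 12) (.e (nat_lit 426131) (nat_lit 3) (.e (nat_lit 204880) (nat_lit 32) (.e (nat_lit 385049) (nat_lit 21) .nil)))))))) (.g (nat_lit 1) (.e (nat_lit 126471) (nat_lit 0) .nil) .nil))) 
(.lf (nat_lit 484244) (.g (nat_lit 2158) (.e (nat_lit 7936) (nat_lit 362) (.e (nat_lit 180271) (nat_lit 26) (.e (nat_lit 704737) (nat_lit 11) (.e (nat_lit 16465) (nat_lit 13) (.e (nat_lit 483360) (nat_lit 17) .nil))))) (.g (nat_lit 0) (.e (nat_lit 129319) (nat_lit 0) .nil) .nil)))))) (.nd (nat_lit 7) (.nd (nat_lit 8) (.nd (nat_lit 9) 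
(.lf (nat_lit 483412) (.g (nat_lit 4956) (.e (nat_lit 6416) (nat_lit 341) (.e (nat_lit 163909) (nat_lit 12) (.e (nat_lit 426125) (nat_lit 2) (.e (nat_lit 196666) (nat_lit 13) (.e (nat_lit 65617) (nat_lit 10) (.e (nat_lit 344133) (nat_lit 26) (.e (nat_lit 557089) (nat_lit 12) (.e (nat_lit 163848) (nat_lit 0) .nil)))))))) (.g (nat_lit 1) (.e (nat_lit 123383) (nat_lit 0) .nil) .nil))) 
(.lf (nat_lit 483924) (.g (nat_lit 3230) (.e (nat_lit 6718) (nat_lit 361) (.e (nat_lit 172150) (nat_lit 27) (.e (nat_lit 336231) (nat_lit 14) (.e (nat_lit 401456) (nat_lit 13) (.e (nat_lit 483346) (nat_lit 17) .nil))))) (.g (nat_lit 1) (.e (nat_lit 127920) (nat_lit 0) .nil) .nil)))) (.nd (nat_lit 9) 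
(.lf (nat_lit 483668) (.g (nat_lit 2553) (.e (nat_lit 6425) (nat_lit 342) (.e (nat_lit 229412) (nat_lit 14) (.e (nat_lit 442436) (nat_lit 26) (.e (nat_lit 253992) (nat_lit 11) (.e (nat_lit 16447) (nat_lit 10) (.e (nat_lit 434212) (nat_lit 18) .nil)))))) (.g (nat_lit 1) (.e (nat_lit 125664) (nat_lit 0) .nil) .nil))) 
(.lf (nat_lit 484180) (.g (nat_lit 2844) (.e (nat_lit 6724) (nat_lit 362) (.e (nat_lit 180271) (nat_lit 26) (.e (nat_lit 704737) (nat_lit 11) (.e (nat_lit 16463) (nat_lit 13) (.e (nat_lit 483346) (nat_lit 17) .nil))))) (.g (nat_lit 1) (.e (nat_lit 129096) (nat_lit 0) .nil) .nil))))) (.nd (nat_lit 8) (.nd (nat_lit 9) 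
(.lf (nat_lit 483540) (.g (nat_lit 1665) (.e (nat_lit 6420) (nat_lit 341) (.e (nat_lit 163902) (nat_lit 12) (.e (nat_lit 426248) (nat_lit 9) (.e (nat_lit 426499) (nat_lit 27) (.e (nat_lit 336231) (nat_lit 14) .nil))))) (.g (nat_lit 0) (.e (nat_lit 124474) (nat_lit 0) .nil) .nil))) 
(.lf (nat_lit 484052) (.g (nat_lit 2274) (.e (nat_lit 6724) (nat_lit 362) (.e (nat_lit 180243) (nat_lit 5) (.e (nat_lit 532481) (nat_lit 0) (.e (nat_lit 6722) (nat_lit 362) (.e (nat_lit 180243) (nat_lit 5) .nil))))) (.g (nat_lit 0) (.e (nat_lit 128848) (nat_lit 0) .nil) .nil)))) (.nd (nat_lit 9) 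
(.lf (nat_lit 483796) (.g (nat_lit 2387) (.e (nat_lit 6622) (nat_lit 357) (.e (nat_lit 3062) (nat_lit 190) (.e (nat_lit 475185) (nat_lit 29) (.e (nat_lit 557107) (nat_lit 15) (.e (nat_lit 188450) (nat_lit 23) .nil))))) (.g (nat_lit 0) (.e (nat_lit 126862) (nat_lit 0) .nil) .nil))) 
(.lf (nat_lit 484308) (.g (nat_lit 2374) (.e (nat_lit 8305) (nat_lit 58) (.e (nat_lit 286761) (nat_lit 13) (.e (nat_lit 393234) (nat_lit 17) (.e (nat_lit 7593) (nat_lit 407) (.e (nat_lit 73729) (nat_lit 0) .nil))))) (.g (nat_lit 0) (.e (nat_lit 129751) (nat_lit 0) .nil) .nil))))))) (.nd (nat_lit 6) (.nd (nat_lit 7) (.nd (nat_lit 8) (.nd (nat_lit 9) 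
(.lf (nat_lit 483380) (.g (nat_lit 2854) (.e (nat_lit 6416) (nat_lit 341) (.e (nat_lit 163908) (nat_lit 12) (.e (nat_lit 426132) (nat_lit 3) (.e (nat_lit 204869) (nat_lit 29) (.e (nat_lit 360474) (nat_lit 8) (.e (nat_lit 557094) (nat_lit 12) (.e (nat_lit 163849) (nat_lit 0) .nil))))))) (.g (nat_lit 1) (.e (nat_lit 123232) (nat_lit 0) .nil) .nil))) 
(.lf (nat_lit 483892) (.g (nat_lit 2407) (.e (nat_lit 6713) (nat_lit 360) (.e (nat_lit 163962) (nat_lit 25) (.e (nat_lit 532535) (nat_lit 9) (.e (nat_lit 336058) (nat_lit 7) (.e (nat_lit 319519) (nat_lit 12) .nil))))) (.g (nat_lit 0) (.e (nat_lit 127695) (nat_lit 0) .nil) .nil)))) (.nd (nat_lit 9) 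
(.lf (nat_lit 483636) (.g (nat_lit 3881) (.e (nat_lit 6425) (nat_lit 342) (.e (nat_lit 229399) (nat_lit 12) (.e (nat_lit 426125) (nat_lit 2) (.e (nat_lit 196666) (nat_lit 13) (.e (nat_lit 65619) (nat_lit 10) (.e (nat_lit 344129) (nat_lit 26) (.e (nat_lit 557090) (nat_lit 12) (.e (nat_lit 163850) (nat_lit 0) .nil)))))))) (.g (nat_lit 1) (.e (nat_lit 125544) (nat_lit 0) .nil) .nil))) 
(.lf (nat_lit 484148) (.g (nat_lit 3035) (.e (nat_lit 6724) (nat_lit 362) (.e (nat_lit 180252) (nat_lit 10) (.e (nat_lit 573470) (nat_lit 11) (.e (nat_lit 16436) (nat_lit 9) (.e (nat_lit 426131) (nat_lit 3) (.e (nat_lit 204816) (nat_lit 17) .nil)))))) (.g (nat_lit 1) (.e (nat_lit 128997) (nat_lit 0) .nil) .nil))))) (.nd (nat_lit 8) (.nd (nat_lit 9) 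
(.lf (nat_lit 483508) (.g (nat_lit 2699) (.e (nat_lit 6418) (nat_lit 341) (.e (nat_lit 163923) (nat_lit 15) (.e (nat_lit 450601) (nat_lit 21) (.e (nat_lit 696344) (nat_lit 8) (.e (nat_lit 172113) (nat_lit 10) (.e (nat_lit 434203) (nat_lit 18) .nil)))))) (.g (nat_lit 1) (.e (nat_lit 124365) (nat_lit 0) .nil) .nil))) 
(.lf (nat_lit 484020) (.g (nat_lit 2785) (.e (nat_lit 6722) (nat_lit 362) (.e (nat_lit 180271) (nat_lit 26) (.e (nat_lit 704737) (nat_lit 11) (.e (nat_lit 16465) (nat_lit 13) (.e (nat_lit 483344) (nat_lit 17) .nil))))) (.g (nat_lit 1) (.e (nat_lit 128496) (nat_lit 0) .nil) .nil)))) (.nd (nat_lit 9) 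
(.lf (nat_lit 483764) (.g (nat_lit 1524) (.e (nat_lit 7936) (nat_lit 343) (.e (nat_lit 1239) (nat_lit 91) (.e (nat_lit 90170) (nat_lit 13) (.e (nat_lit 172113) (nat_lit 10) (.e (nat_lit 434245) (nat_lit 28) .nil))))) (.g (nat_lit 0) (.e (nat_lit 126522) (nat_lit 0) .nil) .nil))) 
(.lf (nat_lit 484276) (.g (nat_lit 2513) (.e (nat_lit 6828) (nat_lit 367) (.e (nat_lit 57379) (nat_lit 3) (.e (nat_lit 98366) (nat_lit 27) (.e (nat_lit 434244) (nat_lit 28) (.e (nat_lit 573481) (nat_lit 13) (.e (nat_lit 65570) (nat_lit 3) (.e (nat_lit 98319) (nat_lit 17) (.e (nat_lit 2399) (nat_lit 157) .nil)))))))) (.g (nat_lit 1) (.e (nat_lit 129535) (nat_lit 0) .nil) .nil)))))) 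
(.nd (nat_lit 7) (.nd (nat_lit 8) (.nd (nat_lit 9) 
(.lf (nat_lit 483444) (.g (nat_lit 605) (.e (nat_lit 6416) (nat_lit 341) (.e (nat_lit 163920) (nat_lit 14) (.e (nat_lit 442411) (nat_lit 20) .nil))) (.g (nat_lit 0) (.e (nat_lit 123538) (nat_lit 0) .nil) .nil))) 
(.lf (nat_lit 483956) (.g (nat_lit 1136) (.e (nat_lit 7936) (nat_lit 361) (.e (nat_lit 172150) (nat_lit 27) (.e (nat_lit 336231) (nat_lit 14) (.e (nat_lit 401458) (nat_lit 13) .nil)))) (.g (nat_lit 0) (.e (nat_lit 128030) (nat_lit 0) .nil) .nil)))) (.nd (nat_lit 9) 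
(.lf (nat_lit 483700) (.g (nat_lit 3232) (.e (nat_lit 6426) (nat_lit 342) (.e (nat_lit 229408) (nat_lit 13) (.e (nat_lit 434231) (nat_lit 23) (.e (nat_lit 532550) (nat_lit 12) (.e (nat_lit 360474) (nat_lit 8) (.e (nat_lit 557094) (nat_lit 12) (.e (nat_lit 163852) (nat_lit 0) .nil))))))) (.g (nat_lit 1) (.e (nat_lit 125847) (nat_lit 0) .nil) .nil))) 
(.lf (nat_lit 484212) (.g (nat_lit 1537) (.e (nat_lit 7936) (nat_lit 362) (.e (nat_lit 180244) (nat_lit 5) (.e (nat_lit 532482) (nat_lit 0) (.e (nat_lit 6724) (nat_lit 362) (.e (nat_lit 180243) (nat_lit 5) .nil))))) (.g (nat_lit 0) (.e (nat_lit 129189) (nat_lit 0) .nil) .nil))))) (.nd (nat_lit 8) (.nd (nat_lit 9) 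
(.lf (nat_lit 483572) (.g (nat_lit 4003) (.e (nat_lit 6421) (nat_lit 341) (.e (nat_lit 163900) (nat_lit 12) (.e (nat_lit 426125) (nat_lit 2) (.e (nat_lit 196666) (nat_lit 13) (.e (nat_lit 65610) (nat_lit 10) (.e (nat_lit 344129) (nat_lit 26) (.e (nat_lit 557090) (nat_lit 12) (.e (nat_lit 163849) (nat_lit 0) .nil)))))))) (.g (nat_lit 1) (.e (nat_lit 124973) (nat_lit 0) .nil) .nil))) 
(.lf (nat_lit 484084) (.g (nat_lit 3180) (.e (nat_lit 6724) (nat_lit 362) (.e (nat_lit 180243) (nat_lit 5) (.e (nat_lit 532579) (nat_lit 26) (.e (nat_lit 426107) (nat_lit 1) (.e (nat_lit 164345) (nat_lit 240) (.e (nat_lit 2618) (nat_lit 164) (.e (nat_lit 172127) (nat_lit 15) .nil))))))) (.g (nat_lit 1) (.e (nat_lit 128889) (nat_lit 0) .nil) .nil)))) (.nd (nat_lit 9) 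
(.lf (nat_lit 483828) (.g (nat_lit 473) (.e (nat_lit 6677) (nat_lit 357) (.e (nat_lit 3067) (nat_lit 190) (.e (nat_lit 475185) (nat_lit 29) .nil))) (.g (nat_lit 0) (.e (nat_lit 127233) (nat_lit 0) .nil) .nil))) 
(.lf (nat_lit 484340) (.g (nat_lit 1596) (.e (nat_lit 8320) (nat_lit 64) (.e (nat_lit 516149) (nat_lit 9) (.e (nat_lit 426323) (nat_lit 13) (.e (nat_lit 483333) (nat_lit 0) (.e (nat_lit 7098) (nat_lit 380) (.e (nat_lit 171776) (nat_lit 247) .nil)))))) (.g (nat_lit 1) (.e (nat_lit 129825) (nat_lit 0) .nil) .nil))))))))) 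
(.nd (nat_lit 4) (.nd (nat_lit 5) (.nd (nat_lit 6) (.nd (nat_lit 7) (.nd (nat_lit 8) 
(.nd (nat_lit 9) 
(.lf (nat_lit 483340) (.g (nat_lit 3665) (.e (nat_lit 6255) (nat_lit 337) (.e (nat_lit 2725) (nat_lit 172) (.e (nat_lit 237594) (nat_lit 3) (.e (nat_lit 204869) (nat_lit 29) (.e (nat_lit 360474) (nat_lit 8) (.e (nat_lit 557094) (nat_lit 12) (.e (nat_lit 163847) (nat_lit 0) .nil))))))) (.g (nat_lit 1) (.e (nat_lit 122551) (nat_lit 0) .nil) .nil))) 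
(.lf (nat_lit 483852) (.g (nat_lit 2548) (.e (nat_lit 7936) (nat_lit 357) (.e (nat_lit 3060) (nat_lit 190) (.e (nat_lit 475185) (nat_lit 29) (.e (nat_lit 557107) (nat_lit 15) (.e (nat_lit 188450) (nat_lit 23) .nil))))) (.g (nat_lit 0) (.e (nat_lit 127415) (nat_lit 0) .nil) .nil)))) (.nd (nat_lit 9) 
(.lf (nat_lit 483596) (.g (nat_lit 1975) (.e (nat_lit 6421) (nat_lit 341) (.e (nat_lit 163913) (nat_lit 12) (.e (nat_lit 426129) (nat_lit 3) (.e (nat_lit 204868) (nat_lit 29) (.e (nat_lit 360473) (nat_lit 8) (.e (nat_lit 557094) (nat_lit 12) (.e (nat_lit 163847) (nat_lit 0) .nil))))))) (.g (nat_lit 1) (.e (nat_lit 125061) (nat_lit 0) .nil) .nil))) 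
(.lf (nat_lit 484108) (.g (nat_lit 3041) (.e (nat_lit 6724) (nat_lit 362) (.e (nat_lit 180250) (nat_lit 10) (.e (nat_lit 573471) (nat_lit 11) (.e (nat_lit 16449) (nat_lit 10) (.e (nat_lit 434231) (nat_lit 23) .nil))))) (.g (nat_lit 0) (.e (nat_lit 128933) (nat_lit 0) .nil) .nil))))) (.nd (nat_lit 8) (.nd (nat_lit 9) 
(.lf (nat_lit 483468) (.g (nat_lit 2889) (.e (nat_lit 6418) (nat_lit 341) (.e (nat_lit 163908) (nat_lit 12) (.e (nat_lit 426132) (nat_lit 3) (.e (nat_lit 204868) (nat_lit 29) (.e (nat_lit 360473) (nat_lit 8) (.e (nat_lit 557089) (nat_lit 12) (.e (nat_lit 163844) (nat_lit 0) .nil))))))) (.g (nat_lit 1) (.e (nat_lit 123942) (nat_lit 0) .nil) .nil))) 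
(.lf (nat_lit 483980) (.g (nat_lit 4277) (.e (nat_lit 6722) (nat_lit 362) (.e (nat_lit 180244) (nat_lit 5) (.e (nat_lit 532569) (nat_lit 16) (.e (nat_lit 401448) (nat_lit 10) (.e (nat_lit 434231) (nat_lit 23) (.e (nat_lit 532481) (nat_lit 0) .nil)))))) (.g (nat_lit 1) (.e (nat_lit 128292) (nat_lit 0) .nil) .nil)))) (.nd (nat_lit 9) 
(.lf (nat_lit 483724) (.g (nat_lit 4704) (.e (nat_lit 6428) (nat_lit 342) (.e (nat_lit 229409) (nat_lit 13) (.e (nat_lit 434231) (nat_lit 23) (.e (nat_lit 532550) (nat_lit 12) (.e (nat_lit 360475) (nat_lit 8) (.e (nat_lit 557091) (nat_lit 12) (.e (nat_lit 163850) (nat_lit 0) .nil))))))) (.g (nat_lit 1) (.e (nat_lit 126198) (nat_lit 0) .nil) .nil))) 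
(.lf (nat_lit 484236) (.g (nat_lit 666) (.e (nat_lit 7936) (nat_lit 362) (.e (nat_lit 180271) (nat_lit 26) (.e (nat_lit 704737) (nat_lit 11) (.e (nat_lit 16431) (nat_lit 9) .nil)))) (.g (nat_lit 0) (.e (nat_lit 129310) (nat_lit 0) .nil) .nil)))))) (.nd (nat_lit 7) (.nd (nat_lit 8) (.nd (nat_lit 9) 
(.lf (nat_lit 483404) (.g (nat_lit 4908) (.e (nat_lit 6416) (nat_lit 341) (.e (nat_lit 163909) (nat_lit 12) (.e (nat_lit 426125) (nat_lit 2) (.e (nat_lit 196666) (nat_lit 13) (.e (nat_lit 65617) (nat_lit 10) (.e (nat_lit 344130) (nat_lit 26) (.e (nat_lit 557089) (nat_lit 12) (.e (nat_lit 163849) (nat_lit 0) .nil)))))))) (.g (nat_lit 1) (.e (nat_lit 123375) (nat_lit 0) .nil) .nil))) 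
(.lf (nat_lit 483916) (.g (nat_lit 2549) (.e (nat_lit 6718) (nat_lit 361) (.e (nat_lit 172076) (nat_lit 6) (.e (nat_lit 253992) (nat_lit 11) (.e (nat_lit 16466) (nat_lit 13) (.e (nat_lit 483345) (nat_lit 17) .nil))))) (.g (nat_lit 1) (.e (nat_lit 127886) (nat_lit 0) .nil) .nil)))) (.nd (nat_lit 9) 
(.lf (nat_lit 483660) (.g (nat_lit 3590) (.e (nat_lit 6425) (nat_lit 342) (.e (nat_lit 229409) (nat_lit 13) (.e (nat_lit 434231) (nat_lit 23) (.e (nat_lit 532550) (nat_lit 12) (.e (nat_lit 360475) (nat_lit 8) (.e (nat_lit 557089) (nat_lit 12) (.e (nat_lit 163853) (nat_lit 0) .nil))))))) (.g (nat_lit 1) (.e (nat_lit 125613) (nat_lit 0) .nil) .nil))) 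
(.lf (nat_lit 484172) (.g (nat_lit 1470) (.e (nat_lit 6724) (nat_lit 362) (.e (nat_lit 180271) (nat_lit 26) (.e (nat_lit 704737) (nat_lit 11) (.e (nat_lit 16386) (nat_lit 0) .nil)))) (.g (nat_lit 0) (.e (nat_lit 129087) (nat_lit 0) .nil) .nil))))) (.nd (nat_lit 8) (.nd (nat_lit 9) 
(.lf (nat_lit 483532) (.g (nat_lit 934) (.e (nat_lit 6420) (nat_lit 341) (.e (nat_lit 163902) (nat_lit 12) (.e (nat_lit 426229) (nat_lit 9) .nil))) (.g (nat_lit 0) (.e (nat_lit 124464) (nat_lit 0) .nil) .nil))) 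
(.lf (nat_lit 484044) (.g (nat_lit 1054) (.e (nat_lit 6722) (nat_lit 362) (.e (nat_lit 180272) (nat_lit 26) (.e (nat_lit 704737) (nat_lit 11) (.e (nat_lit 16439) (nat_lit 9) .nil)))) (.g (nat_lit 0) (.e (nat_lit 128556) (nat_lit 0) .nil) .nil)))) (.nd (nat_lit 9) 
(.lf (nat_lit 483788) (.g (nat_lit 1969) (.e (nat_lit 6618) (nat_lit 357) (.e (nat_lit 2668) (nat_lit 167) (.e (nat_lit 196666) (nat_lit 13) (.e (nat_lit 65630) (nat_lit 14) .nil)))) (.g (nat_lit 0) (.e (nat_lit 126805) (nat_lit 0) .nil) .nil))) 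
(.lf (nat_lit 484300) (.g (nat_lit 1235) (.e (nat_lit 8305) (nat_lit 58) (.e (nat_lit 286753) (nat_lit 10) (.e (nat_lit 344169) (nat_lit 40) (.e (nat_lit 671751) (nat_lit 0) .nil)))) (.g (nat_lit 0) (.e (nat_lit 129742) (nat_lit 0) .nil) .nil))))))) (.nd (nat_lit 6) (.nd (nat_lit 7) (.nd (nat_lit 8) (.nd (nat_lit 9) 
(.lf (nat_lit 483372) (.g (nat_lit 1869) (.e (nat_lit 6416) (nat_lit 341) (.e (nat_lit 163902) (nat_lit 12) (.e (nat_lit 426436) (nat_lit 18) (.e (nat_lit 98353) (nat_lit 25) .nil)))) (.g (nat_lit 0) (.e (nat_lit 123108) (nat_lit 0) .nil) .nil))) 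
(.lf (nat_lit 483884) (.g (nat_lit 2920) (.e (nat_lit 6711) (nat_lit 360) (.e (nat_lit 163962) (nat_lit 25) (.e (nat_lit 532550) (nat_lit 12) (.e (nat_lit 360475) (nat_lit 8) (.e (nat_lit 557068) (nat_lit 9) (.e (nat_lit 288) (nat_lit 21) (.e (nat_lit 335877) (nat_lit 0) .nil))))))) (.g (nat_lit 1) (.e (nat_lit 127575) (nat_lit 0) .nil) .nil)))) (.nd (nat_lit 9) 
(.lf (nat_lit 483628) (.g (nat_lit 4250) (.e (nat_lit 6421) (nat_lit 341) (.e (nat_lit 163941) (nat_lit 19) (.e (nat_lit 483341) (nat_lit 9) (.e (nat_lit 426220) (nat_lit 9) .nil)))) (.g (nat_lit 0) (.e (nat_lit 125487) (nat_lit 0) .nil) .nil))) 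
(.lf (nat_lit 484140) (.g (nat_lit 1817) (.e (nat_lit 6724) (nat_lit 362) (.e (nat_lit 180251) (nat_lit 10) (.e (nat_lit 573471) (nat_lit 11) (.e (nat_lit 16454) (nat_lit 11) .nil)))) (.g (nat_lit 0) (.e (nat_lit 128976) (nat_lit 0) .nil) .nil))))) (.nd (nat_lit 8) (.nd (nat_lit 9) 
(.lf (nat_lit 483500) (.g (nat_lit 3788) (.e (nat_lit 6418) (nat_lit 341) (.e (nat_lit 163916) (nat_lit 13) (.e (nat_lit 434231) (nat_lit 23) (.e (nat_lit 532550) (nat_lit 12) (.e (nat_lit 360475) (nat_lit 8) (.e (nat_lit 557091) (nat_lit 12) (.e (nat_lit 163847) (nat_lit 0) .nil))))))) (.g (nat_lit 1) (.e (nat_lit 124109) (nat_lit 0) .nil) .nil))) 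
(.lf (nat_lit 484012) (.g (nat_lit 2056) (.e (nat_lit 6722) (nat_lit 362) (.e (nat_lit 180271) (nat_lit 26) (.e (nat_lit 704737) (nat_lit 11) (.e (nat_lit 16392) (nat_lit 0) (.e (nat_lit 7936) (nat_lit 390) .nil))))) (.g (nat_lit 0) (.e (nat_lit 128483) (nat_lit 0) .nil) .nil)))) (.nd (nat_lit 9) 
(.lf (nat_lit 483756) (.g (nat_lit 2599) (.e (nat_lit 6401) (nat_lit 339) (.e (nat_lit 57411) (nat_lit 12) (.e (nat_lit 336367) (nat_lit 27) (.e (nat_lit 426542) (nat_lit 29) (.e (nat_lit 352315) (nat_lit 23) (.e (nat_lit 98325) (nat_lit 17) (.e (nat_lit 2478) (nat_lit 157) .nil))))))) (.g (nat_lit 1) (.e (nat_lit 126501) (nat_lit 0) .nil) .nil))) 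
(.lf (nat_lit 484268) (.g (nat_lit 1394) (.e (nat_lit 6807) (nat_lit 365) (.e (nat_lit 1221) (nat_lit 90) (.e (nat_lit 81947) (nat_lit 20) (.e (nat_lit 1886) (nat_lit 127) .nil)))) (.g (nat_lit 0) (.e (nat_lit 129390) (nat_lit 0) .nil) .nil)))))) (.nd (nat_lit 7) (.nd (nat_lit 8) (.nd (nat_lit 9) 
(.lf (nat_lit 483436) (.g (nat_lit 3187) (.e (nat_lit 6416) (nat_lit 341) (.e (nat_lit 163916) (nat_lit 13) (.e (nat_lit 434231) (nat_lit 23) (.e (nat_lit 532550) (nat_lit 12) (.e (nat_lit 360474) (nat_lit 8) (.e (nat_lit 557093) (nat_lit 12) (.e (nat_lit 163849) (nat_lit 0) .nil))))))) (.g (nat_lit 1) (.e (nat_lit 123451) (nat_lit 0) .nil) .nil))) 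
(.lf (nat_lit 483948) (.g (nat_lit 1903) (.e (nat_lit 6720) (nat_lit 361) (.e (nat_lit 172150) (nat_lit 27) (.e (nat_lit 336230) (nat_lit 14) (.e (nat_lit 401456) (nat_lit 13) (.e (nat_lit 483345) (nat_lit 17) .nil))))) (.g (nat_lit 1) (.e (nat_lit 127998) (nat_lit 0) .nil) .nil)))) (.nd (nat_lit 9) 
(.lf (nat_lit 483692) (.g (nat_lit 3225) (.e (nat_lit 6425) (nat_lit 342) (.e (nat_lit 229415) (nat_lit 15) (.e (nat_lit 450604) (nat_lit 22) (.e (nat_lit 704737) (nat_lit 11) (.e (nat_lit 16449) (nat_lit 10) (.e (nat_lit 434212) (nat_lit 18) .nil)))))) (.g (nat_lit 1) (.e (nat_lit 125813) (nat_lit 0) .nil) .nil))) 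
(.lf (nat_lit 484204) (.g (nat_lit 751) (.e (nat_lit 7936) (nat_lit 362) (.e (nat_lit 180243) (nat_lit 5) (.e (nat_lit 532486) (nat_lit 0) .nil))) (.g (nat_lit 0) (.e (nat_lit 129170) (nat_lit 0) .nil) .nil))))) (.nd (nat_lit 8) (.nd (nat_lit 9) 
(.lf (nat_lit 483564) (.g (nat_lit 842) (.e (nat_lit 6420) (nat_lit 341) (.e (nat_lit 163908) (nat_lit 12) (.e (nat_lit 426286) (nat_lit 10) (.e (nat_lit 434289) (nat_lit 43) .nil)))) (.g (nat_lit 0) (.e (nat_lit 124628) (nat_lit 0) .nil) .nil))) 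
(.lf (nat_lit 484076) (.g (nat_lit 2105) (.e (nat_lit 6724) (nat_lit 362) (.e (nat_lit 180243) (nat_lit 5) (.e (nat_lit 532567) (nat_lit 16) (.e (nat_lit 401446) (nat_lit 10) (.e (nat_lit 434231) (nat_lit 23) .nil))))) (.g (nat_lit 0) (.e (nat_lit 128878) (nat_lit 0) .nil) .nil)))) (.nd (nat_lit 9) 
(.lf (nat_lit 483820) (.g (nat_lit 2145) (.e (nat_lit 6692) (nat_lit 357) (.e (nat_lit 2663) (nat_lit 167) (.e (nat_lit 196666) (nat_lit 13) (.e (nat_lit 65617) (nat_lit 10) (.e (nat_lit 344133) (nat_lit 26) .nil))))) (.g (nat_lit 0) (.e (nat_lit 127152) (nat_lit 0) .nil) .nil))) 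
(.lf (nat_lit 484332) (.g (nat_lit 659) (.e (nat_lit 8320) (nat_lit 64) (.e (nat_lit 516119) (nat_lit 1) (.e (nat_lit 164322) (nat_lit 230) .nil))) (.g (nat_lit 0) (.e (nat_lit 129814) (nat_lit 0) .nil) .nil)))))))) (.nd (nat_lit 5) (.nd (nat_lit 6) (.nd (nat_lit 7) (.nd (nat_lit 8) (.nd (nat_lit 9) 
(.lf (nat_lit 483356) (.g (nat_lit 4097) (.e (nat_lit 6416) (nat_lit 341) (.e (nat_lit 163900) (nat_lit 12) (.e (nat_lit 426125) (nat_lit 2) (.e (nat_lit 196666) (nat_lit 13) (.e (nat_lit 65617) (nat_lit 10) (.e (nat_lit 344132) (nat_lit 26) (.e (nat_lit 557093) (nat_lit 12) (.e (nat_lit 163849) (nat_lit 0) .nil)))))))) (.g (nat_lit 1) (.e (nat_lit 123043) (nat_lit 0) .nil) .nil))) 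
(.lf (nat_lit 483868) (.g (nat_lit 2381) (.e (nat_lit 6711) (nat_lit 360) (.e (nat_lit 163962) (nat_lit 25) (.e (nat_lit 532535) (nat_lit 9) (.e (nat_lit 336061) (nat_lit 7) (.e (nat_lit 319519) (nat_lit 12) .nil))))) (.g (nat_lit 0) (.e (nat_lit 127520) (nat_lit 0) .nil) .nil)))) (.nd (nat_lit 9) 
(.lf (nat_lit 483612) (.g (nat_lit 3170) (.e (nat_lit 6421) (nat_lit 341) (.e (nat_lit 163916) (nat_lit 13) (.e (nat_lit 434231) (nat_lit 23) (.e (nat_lit 532550) (nat_lit 12) (.e (nat_lit 360474) (nat_lit 8) (.e (nat_lit 557094) (nat_lit 12) (.e (nat_lit 163849) (nat_lit 0) .nil))))))) (.g (nat_lit 1) (.e (nat_lit 125134) (nat_lit 0) .nil) .nil))) 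
(.lf (nat_lit 484124) (.g (nat_lit 1760) (.e (nat_lit 6724) (nat_lit 362) (.e (nat_lit 180251) (nat_lit 10) (.e (nat_lit 573470) (nat_lit 11) (.e (nat_lit 16436) (nat_lit 9) (.e (nat_lit 426131) (nat_lit 3) (.e (nat_lit 204815) (nat_lit 17) .nil)))))) (.g (nat_lit 1) (.e (nat_lit 128960) (nat_lit 0) .nil) .nil))))) (.nd (nat_lit 8) (.nd (nat_lit 9) 
(.lf (nat_lit 483484) (.g (nat_lit 1123) (.e (nat_lit 6418) (nat_lit 341) (.e (nat_lit 163908) (nat_lit 12) (.e (nat_lit 426285) (nat_lit 10) (.e (nat_lit 434287) (nat_lit 43) .nil)))) (.g (nat_lit 0) (.e (nat_lit 123974) (nat_lit 0) .nil) .nil))) 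
(.lf (nat_lit 483996) (.g (nat_lit 2949) (.e (nat_lit 6722) (nat_lit 362) (.e (nat_lit 180251) (nat_lit 10) (.e (nat_lit 573471) (nat_lit 11) (.e (nat_lit 16448) (nat_lit 10) (.e (nat_lit 434231) (nat_lit 23) (.e (nat_lit 532482) (nat_lit 0) .nil)))))) (.g (nat_lit 1) (.e (nat_lit 128385) (nat_lit 0) .nil) .nil)))) (.nd (nat_lit 9) 
(.lf (nat_lit 483740) (.g (nat_lit 2679) (.e (nat_lit 6398) (nat_lit 339) (.e (nat_lit 57378) (nat_lit 3) (.e (nat_lit 98333) (nat_lit 18) (.e (nat_lit 164325) (nat_lit 230) (.e (nat_lit 163907) (nat_lit 12) (.e (nat_lit 426131) (nat_lit 3) (.e (nat_lit 204880) (nat_lit 32) (.e (nat_lit 385049) (nat_lit 21) .nil)))))))) (.g (nat_lit 1) (.e (nat_lit 126482) (nat_lit 0) .nil) .nil))) 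
(.lf (nat_lit 484252) (.g (nat_lit 1636) (.e (nat_lit 7936) (nat_lit 362) (.e (nat_lit 180271) (nat_lit 26) (.e (nat_lit 704738) (nat_lit 11) (.e (nat_lit 16446) (nat_lit 9) (.e (nat_lit 426500) (nat_lit 27) .nil))))) (.g (nat_lit 0) (.e (nat_lit 129328) (nat_lit 0) .nil) .nil)))))) (.nd (nat_lit 7) (.nd (nat_lit 8) (.nd (nat_lit 9) 
(.lf (nat_lit 483420) (.g (nat_lit 3338) (.e (nat_lit 6416) (nat_lit 341) (.e (nat_lit 163909) (nat_lit 12) (.e (nat_lit 426140) (nat_lit 3) (.e (nat_lit 204868) (nat_lit 29) (.e (nat_lit 360473) (nat_lit 8) (.e (nat_lit 557089) (nat_lit 12) (.e (nat_lit 163849) (nat_lit 0) .nil))))))) (.g (nat_lit 1) (.e (nat_lit 123407) (nat_lit 0) .nil) .nil))) 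
(.lf (nat_lit 483932) (.g (nat_lit 2732) (.e (nat_lit 6719) (nat_lit 361) (.e (nat_lit 172150) (nat_lit 27) (.e (nat_lit 336229) (nat_lit 14) (.e (nat_lit 401437) (nat_lit 9) (.e (nat_lit 426530) (nat_lit 27) (.e (nat_lit 335872) (nat_lit 0) .nil)))))) (.g (nat_lit 1) (.e (nat_lit 127962) (nat_lit 0) .nil) .nil)))) (.nd (nat_lit 9) 
(.lf (nat_lit 483676) (.g (nat_lit 1741) (.e (nat_lit 6425) (nat_lit 342) (.e (nat_lit 229415) (nat_lit 15) (.e (nat_lit 450562) (nat_lit 0) (.e (nat_lit 6254) (nat_lit 337) .nil)))) (.g (nat_lit 0) (.e (nat_lit 125709) (nat_lit 0) .nil) .nil))) 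
(.lf (nat_lit 484188) (.g (nat_lit 1143) (.e (nat_lit 6724) (nat_lit 362) (.e (nat_lit 180271) (nat_lit 26) (.e (nat_lit 704738) (nat_lit 11) (.e (nat_lit 16434) (nat_lit 9) .nil)))) (.g (nat_lit 0) (.e (nat_lit 129106) (nat_lit 0) .nil) .nil))))) (.nd (nat_lit 8) (.nd (nat_lit 9) 
(.lf (nat_lit 483548) (.g (nat_lit 2685) (.e (nat_lit 6420) (nat_lit 341) (.e (nat_lit 163908) (nat_lit 12) (.e (nat_lit 426132) (nat_lit 3) (.e (nat_lit 204868) (nat_lit 29) (.e (nat_lit 360473) (nat_lit 8) (.e (nat_lit 557093) (nat_lit 12) (.e (nat_lit 163849) (nat_lit 0) .nil))))))) (.g (nat_lit 1) (.e (nat_lit 124567) (nat_lit 0) .nil) .nil))) 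
(.lf (nat_lit 484060) (.g (nat_lit 2502) (.e (nat_lit 6724) (nat_lit 362) (.e (nat_lit 180243) (nat_lit 5) (.e (nat_lit 532523) (nat_lit 7) (.e (nat_lit 319505) (nat_lit 10) (.e (nat_lit 5714) (nat_lit 312) (.e (nat_lit 2681) (nat_lit 168) (.e (nat_lit 204816) (nat_lit 17) .nil))))))) (.g (nat_lit 1) (.e (nat_lit 128858) (nat_lit 0) .nil) .nil)))) (.nd (nat_lit 9) 
(.lf (nat_lit 483804) (.g (nat_lit 2203) (.e (nat_lit 6658) (nat_lit 357) (.e (nat_lit 3062) (nat_lit 190) (.e (nat_lit 475185) (nat_lit 29) (.e (nat_lit 557101) (nat_lit 13) (.e (nat_lit 172097) (nat_lit 9) .nil))))) (.g (nat_lit 0) (.e (nat_lit 127020) (nat_lit 0) .nil) .nil))) 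
(.lf (nat_lit 484316) (.g (nat_lit 1087) (.e (nat_lit 8318) (nat_lit 64) (.e (nat_lit 516097) (nat_lit 0) (.e (nat_lit 3605) (nat_lit 225) (.e (nat_lit 761906) (nat_lit 16) .nil)))) (.g (nat_lit 0) (.e (nat_lit 129770) (nat_lit 0) .nil) .nil))))))) (.nd (nat_lit 6) (.nd (nat_lit 7) (.nd (nat_lit 8) (.nd (nat_lit 9) 
(.lf (nat_lit 483388) (.g (nat_lit 4591) (.e (nat_lit 6416) (nat_lit 341) (.e (nat_lit 163908) (nat_lit 12) (.e (nat_lit 426136) (nat_lit 3) (.e (nat_lit 204869) (nat_lit 29) (.e (nat_lit 360475) (nat_lit 8) (.e (nat_lit 557089) (nat_lit 12) (.e (nat_lit 163849) (nat_lit 0) .nil))))))) (.g (nat_lit 1) (.e (nat_lit 123240) (nat_lit 0) .nil) .nil))) 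
(.lf (nat_lit 483900) (.g (nat_lit 1795) (.e (nat_lit 6714) (nat_lit 360) (.e (nat_lit 163975) (nat_lit 30) (.e (nat_lit 573451) (nat_lit 9) (.e (nat_lit 1548) (nat_lit 109) .nil)))) (.g (nat_lit 0) (.e (nat_lit 127717) (nat_lit 0) .nil) .nil)))) (.nd (nat_lit 9) 
(.lf (nat_lit 483644) (.g (nat_lit 3693) (.e (nat_lit 6425) (nat_lit 342) (.e (nat_lit 229403) (nat_lit 12) (.e (nat_lit 426125) (nat_lit 2) (.e (nat_lit 196666) (nat_lit 13) (.e (nat_lit 65617) (nat_lit 10) (.e (nat_lit 344133) (nat_lit 26) (.e (nat_lit 557089) (nat_lit 12) (.e (nat_lit 163850) (nat_lit 0) .nil)))))))) (.g (nat_lit 1) (.e (nat_lit 125571) (nat_lit 0) .nil) .nil))) 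
(.lf (nat_lit 484156) (.g (nat_lit 1824) (.e (nat_lit 6724) (nat_lit 362) (.e (nat_lit 180252) (nat_lit 10) (.e (nat_lit 573471) (nat_lit 11) (.e (nat_lit 16439) (nat_lit 9) (.e (nat_lit 426039) (nat_lit 0) .nil))))) (.g (nat_lit 0) (.e (nat_lit 129005) (nat_lit 0) .nil) .nil))))) (.nd (nat_lit 8) (.nd (nat_lit 9) 
(.lf (nat_lit 483516) (.g (nat_lit 354) (.e (nat_lit 6420) (nat_lit 341) (.e (nat_lit 163843) (nat_lit 0) (.e (nat_lit 7936) (nat_lit 392) .nil))) (.g (nat_lit 0) (.e (nat_lit 124427) (nat_lit 0) .nil) .nil))) 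
(.lf (nat_lit 484028) (.g (nat_lit 870) (.e (nat_lit 6722) (nat_lit 362) (.e (nat_lit 180271) (nat_lit 26) (.e (nat_lit 704738) (nat_lit 11) (.e (nat_lit 16439) (nat_lit 9) .nil)))) (.g (nat_lit 0) (.e (nat_lit 128509) (nat_lit 0) .nil) .nil)))) (.nd (nat_lit 9) 
(.lf (nat_lit 483772) (.g (nat_lit 1747) (.e (nat_lit 7936) (nat_lit 345) (.e (nat_lit 16471) (nat_lit 14) (.e (nat_lit 491560) (nat_lit 10) (.e (nat_lit 344177) (nat_lit 43) .nil)))) (.g (nat_lit 0) (.e (nat_lit 126545) (nat_lit 0) .nil) .nil))) 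
(.lf (nat_lit 484284) (.g (nat_lit 688) (.e (nat_lit 6830) (nat_lit 367) (.e (nat_lit 57424) (nat_lit 14) (.e (nat_lit 352312) (nat_lit 22) .nil))) (.g (nat_lit 0) (.e (nat_lit 129546) (nat_lit 0) .nil) .nil)))))) (.nd (nat_lit 7) (.nd (nat_lit 8) (.nd (nat_lit 9) 
(.lf (nat_lit 483452) (.g (nat_lit 4195) (.e (nat_lit 6418) (nat_lit 341) (.e (nat_lit 163900) (nat_lit 12) (.e (nat_lit 426125) (nat_lit 2) (.e (nat_lit 196666) (nat_lit 13) (.e (nat_lit 65617) (nat_lit 10) (.e (nat_lit 344130) (nat_lit 26) (.e (nat_lit 557090) (nat_lit 12) (.e (nat_lit 163847) (nat_lit 0) .nil)))))))) (.g (nat_lit 1) (.e (nat_lit 123886) (nat_lit 0) .nil) .nil))) 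
(.lf (nat_lit 483964) (.g (nat_lit 2780) (.e (nat_lit 6722) (nat_lit 362) (.e (nat_lit 180243) (nat_lit 5) (.e (nat_lit 532569) (nat_lit 16) (.e (nat_lit 401448) (nat_lit 10) (.e (nat_lit 434232) (nat_lit 23) .nil))))) (.g (nat_lit 0) (.e (nat_lit 128265) (nat_lit 0) .nil) .nil)))) (.nd (nat_lit 9) 
(.lf (nat_lit 483708) (.g (nat_lit 2333) (.e (nat_lit 6427) (nat_lit 342) (.e (nat_lit 229402) (nat_lit 12) (.e (nat_lit 426136) (nat_lit 3) (.e (nat_lit 204869) (nat_lit 29) (.e (nat_lit 360474) (nat_lit 8) (.e (nat_lit 557094) (nat_lit 12) (.e (nat_lit 163852) (nat_lit 0) .nil))))))) (.g (nat_lit 1) (.e (nat_lit 125997) (nat_lit 0) .nil) .nil))) 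
(.lf (nat_lit 484220) (.g (nat_lit 2475) (.e (nat_lit 7936) (nat_lit 362) (.e (nat_lit 180250) (nat_lit 10) (.e (nat_lit 573471) (nat_lit 11) (.e (nat_lit 16449) (nat_lit 10) (.e (nat_lit 434233) (nat_lit 23) .nil))))) (.g (nat_lit 0) (.e (nat_lit 129233) (nat_lit 0) .nil) .nil))))) (.nd (nat_lit 8) (.nd (nat_lit 9) 
(.lf (nat_lit 483580) (.g (nat_lit 4298) (.e (nat_lit 6421) (nat_lit 341) (.e (nat_lit 163900) (nat_lit 12) (.e (nat_lit 426140) (nat_lit 3) (.e (nat_lit 204869) (nat_lit 29) (.e (nat_lit 360475) (nat_lit 8) (.e (nat_lit 557089) (nat_lit 12) (.e (nat_lit 163844) (nat_lit 0) .nil))))))) (.g (nat_lit 1) (.e (nat_lit 124986) (nat_lit 0) .nil) .nil))) 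
(.lf (nat_lit 484092) (.g (nat_lit 2250) (.e (nat_lit 6724) (nat_lit 362) (.e (nat_lit 180250) (nat_lit 10) (.e (nat_lit 573469) (nat_lit 11) (.e (nat_lit 16444) (nat_lit 9) (.e (nat_lit 426129) (nat_lit 3) (.e (nat_lit 204816) (nat_lit 17) .nil)))))) (.g (nat_lit 1) (.e (nat_lit 128917) (nat_lit 0) .nil) .nil)))) (.nd (nat_lit 9) 
(.lf (nat_lit 483836) (.g (nat_lit 1218) (.e (nat_lit 6681) (nat_lit 357) (.e (nat_lit 3090) (nat_lit 191) (.e (nat_lit 483386) (nat_lit 23) (.e (nat_lit 335928) (nat_lit 0) (.e (nat_lit 2004) (nat_lit 138) (.e (nat_lit 671760) (nat_lit 4) (.e (nat_lit 65540) (nat_lit 0) .nil))))))) (.g (nat_lit 1) (.e (nat_lit 127319) (nat_lit 0) .nil) .nil))) 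
(.lf (nat_lit 484348) (.g (nat_lit 982) (.e (nat_lit 8324) (nat_lit 69) (.e (nat_lit 557109) (nat_lit 15) (.e (nat_lit 188452) (nat_lit 23) .nil))) (.g (nat_lit 0) (.e (nat_lit 129840) (nat_lit 0) .nil) .nil))))))))))) (.nd (nat_lit 2) (.nd (nat_lit 3) (.nd (nat_lit 4) (.nd (nat_lit 5) (.nd (nat_lit 6) (.nd (nat_lit 7) (.nd (nat_lit 8) (.nd (nat_lit 9) 
(.lf (nat_lit 483330) (.g (nat_lit 2696) (.e (nat_lit 6255) (nat_lit 337) (.e (nat_lit 2651) (nat_lit 166) (.e (nat_lit 188434) (nat_lit 20) (.e (nat_lit 3469) (nat_lit 217) (.e (nat_lit 696344) (nat_lit 8) (.e (nat_lit 172115) (nat_lit 10) (.e (nat_lit 434202) (nat_lit 18) .nil))))))) (.g (nat_lit 1) (.e (nat_lit 122496) (nat_lit 0) .nil) .nil))) 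
(.lf (nat_lit 483842) (.g (nat_lit 1680) (.e (nat_lit 6681) (nat_lit 357) (.e (nat_lit 3090) (nat_lit 191) (.e (nat_lit 483403) (nat_lit 26) (.e (nat_lit 385096) (nat_lit 49) .nil)))) (.g (nat_lit 0) (.e (nat_lit 127328) (nat_lit 0) .nil) .nil)))) (.nd (nat_lit 9) 
(.lf (nat_lit 483586) (.g (nat_lit 4010) (.e (nat_lit 6421) (nat_lit 341) (.e (nat_lit 163909) (nat_lit 12) (.e (nat_lit 426125) (nat_lit 2) (.e (nat_lit 196666) (nat_lit 13) (.e (nat_lit 65617) (nat_lit 10) (.e (nat_lit 344130) (nat_lit 26) (.e (nat_lit 557089) (nat_lit 12) (.e (nat_lit 163844) (nat_lit 0) .nil)))))))) (.g (nat_lit 1) (.e (nat_lit 125039) (nat_lit 0) .nil) .nil))) 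
(.lf (nat_lit 484098) (.g (nat_lit 1483) (.e (nat_lit 6724) (nat_lit 362) (.e (nat_lit 180250) (nat_lit 10) (.e (nat_lit 573470) (nat_lit 11) (.e (nat_lit 16444) (nat_lit 9) (.e (nat_lit 426129) (nat_lit 3) .nil))))) (.g (nat_lit 0) (.e (nat_lit 128923) (nat_lit 0) .nil) .nil))))) (.nd (nat_lit 8) (.nd (nat_lit 9) 
(.lf (nat_lit 483458) (.g (nat_lit 2931) (.e (nat_lit 6418) (nat_lit 341) (.e (nat_lit 163900) (nat_lit 12) (.e (nat_lit 426140) (nat_lit 3) (.e (nat_lit 204868) (nat_lit 29) (.e (nat_lit 360473) (nat_lit 8) (.e (nat_lit 557089) (nat_lit 12) (.e (nat_lit 163844) (nat_lit 0) .nil))))))) (.g (nat_lit 1) (.e (nat_lit 123900) (nat_lit 0) .nil) .nil))) 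
(.lf (nat_lit 483970) (.g (nat_lit 732) (.e (nat_lit 6722) (nat_lit 362) (.e (nat_lit 180244) (nat_lit 5) (.e (nat_lit 532490) (nat_lit 0) .nil))) (.g (nat_lit 0) (.e (nat_lit 128273) (nat_lit 0) .nil) .nil)))) (.nd (nat_lit 9) 
(.lf (nat_lit 483714) (.g (nat_lit 3829) (.e (nat_lit 6427) (nat_lit 342) (.e (nat_lit 229413) (nat_lit 15) (.e (nat_lit 450601) (nat_lit 21) (.e (nat_lit 696344) (nat_lit 8) (.e (nat_lit 172106) (nat_lit 10) (.e (nat_lit 434209) (nat_lit 18) .nil)))))) (.g (nat_lit 1) (.e (nat_lit 126114) (nat_lit 0) .nil) .nil))) 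
(.lf (nat_lit 484226) (.g (nat_lit 928) (.e (nat_lit 7936) (nat_lit 362) (.e (nat_lit 180252) (nat_lit 10) (.e (nat_lit 573470) (nat_lit 11) (.e (nat_lit 16447) (nat_lit 10) .nil)))) (.g (nat_lit 0) (.e (nat_lit 129273) (nat_lit 0) .nil) .nil)))))) (.nd (nat_lit 7) (.nd (nat_lit 8) (.nd (nat_lit 9) 
(.lf (nat_lit 483394) (.g (nat_lit 4019) (.e (nat_lit 6416) (nat_lit 341) (.e (nat_lit 163908) (nat_lit 12) (.e (nat_lit 426285) (nat_lit 10) (.e (nat_lit 434289) (nat_lit 43) (.e (nat_lit 696344) (nat_lit 8) (.e (nat_lit 172106) (nat_lit 10) (.e (nat_lit 434202) (nat_lit 18) .nil))))))) (.g (nat_lit 1) (.e (nat_lit 123275) (nat_lit 0) .nil) .nil))) 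
(.lf (nat_lit 483906) (.g (nat_lit 4500) (.e (nat_lit 6718) (nat_lit 361) (.e (nat_lit 172067) (nat_lit 3) (.e (nat_lit 204885) (nat_lit 33) (.e (nat_lit 401448) (nat_lit 10) (.e (nat_lit 434231) (nat_lit 23) (.e (nat_lit 532481) (nat_lit 0) .nil)))))) (.g (nat_lit 1) (.e (nat_lit 127870) (nat_lit 0) .nil) .nil)))) (.nd (nat_lit 9) 
(.lf (nat_lit 483650) (.g (nat_lit 3419) (.e (nat_lit 6425) (nat_lit 342) (.e (nat_lit 229409) (nat_lit 13) (.e (nat_lit 434231) (nat_lit 23) (.e (nat_lit 532549) (nat_lit 12) (.e (nat_lit 360473) (nat_lit 8) (.e (nat_lit 557089) (nat_lit 12) (.e (nat_lit 163853) (nat_lit 0) .nil))))))) (.g (nat_lit 1) (.e (nat_lit 125603) (nat_lit 0) .nil) .nil))) 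
(.lf (nat_lit 484162) (.g (nat_lit 2079) (.e (nat_lit 6724) (nat_lit 362) (.e (nat_lit 180252) (nat_lit 10) (.e (nat_lit 573471) (nat_lit 11) (.e (nat_lit 16453) (nat_lit 11) (.e (nat_lit 458789) (nat_lit 23) (.e (nat_lit 532481) (nat_lit 0) .nil)))))) (.g (nat_lit 1) (.e (nat_lit 129011) (nat_lit 0) .nil) .nil))))) (.nd (nat_lit 8) (.nd (nat_lit 9) 
(.lf (nat_lit 483522) (.g (nat_lit 4102) (.e (nat_lit 6420) (nat_lit 341) (.e (nat_lit 163900) (nat_lit 12) (.e (nat_lit 426125) (nat_lit 2) (.e (nat_lit 196666) (nat_lit 13) (.e (nat_lit 65617) (nat_lit 10) (.e (nat_lit 344132) (nat_lit 26) (.e (nat_lit 557093) (nat_lit 12) (.e (nat_lit 163849) (nat_lit 0) .nil)))))))) (.g (nat_lit 1) (.e (nat_lit 124446) (nat_lit 0) .nil) .nil))) 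
(.lf (nat_lit 484034) (.g (nat_lit 2970) (.e (nat_lit 6722) (nat_lit 362) (.e (nat_lit 180271) (nat_lit 26) (.e (nat_lit 704738) (nat_lit 11) (.e (nat_lit 16463) (nat_lit 13) (.e (nat_lit 483344) (nat_lit 17) .nil))))) (.g (nat_lit 1) (.e (nat_lit 128519) (nat_lit 0) .nil) .nil)))) (.nd (nat_lit 9) 
(.lf (nat_lit 483778) (.g (nat_lit 1366) (.e (nat_lit 7936) (nat_lit 348) (.e (nat_lit 73747) (nat_lit 3) (.e (nat_lit 516139) (nat_lit 7) (.e (nat_lit 409623) (nat_lit 10) .nil)))) (.g (nat_lit 0) (.e (nat_lit 126554) (nat_lit 0) .nil) .nil))) 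
(.lf (nat_lit 484290) (.g (nat_lit 1837) (.e (nat_lit 8299) (nat_lit 54) (.e (nat_lit 40997) (nat_lit 11) (.e (nat_lit 24617) (nat_lit 7) (.e (nat_lit 319533) (nat_lit 16) (.e (nat_lit 286753) (nat_lit 10) .nil))))) (.g (nat_lit 0) (.e (nat_lit 129623) (nat_lit 0) .nil) .nil))))))) (.nd (nat_lit 6) (.nd (nat_lit 7) (.nd (nat_lit 8) (.nd (nat_lit 9) 
(.lf (nat_lit 483362) (.g (nat_lit 3143) (.e (nat_lit 6416) (nat_lit 341) (.e (nat_lit 163900) (nat_lit 12) (.e (nat_lit 426140) (nat_lit 3) (.e (nat_lit 204868) (nat_lit 29) (.e (nat_lit 360473) (nat_lit 8) (.e (nat_lit 557089) (nat_lit 12) (.e (nat_lit 163844) (nat_lit 0) .nil))))))) (.g (nat_lit 1) (.e (nat_lit 123055) (nat_lit 0) .nil) .nil))) 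
(.lf (nat_lit 483874) (.g (nat_lit 1886) (.e (nat_lit 6711) (nat_lit 360) (.e (nat_lit 163962) (nat_lit 25) (.e (nat_lit 532535) (nat_lit 9) (.e (nat_lit 336176) (nat_lit 10) (.e (nat_lit 344126) (nat_lit 25) (.e (nat_lit 556800) (nat_lit 5) (.e (nat_lit 1515) (nat_lit 108) (.e (nat_lit 335874) (nat_lit 0) .nil)))))))) (.g (nat_lit 1) (.e (nat_lit 127526) (nat_lit 0) .nil) .nil)))) 
(.nd (nat_lit 9) 
(.lf (nat_lit 483618) (.g (nat_lit 2126) (.e (nat_lit 6421) (nat_lit 341) (.e (nat_lit 163917) (nat_lit 13) (.e (nat_lit 434231) (nat_lit 23) (.e (nat_lit 532550) (nat_lit 12) (.e (nat_lit 360474) (nat_lit 8) (.e (nat_lit 557093) (nat_lit 12) (.e (nat_lit 163848) (nat_lit 0) .nil))))))) (.g (nat_lit 1) (.e (nat_lit 125153) (nat_lit 0) .nil) .nil))) 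
(.lf (nat_lit 484130) (.g (nat_lit 2691) (.e (nat_lit 6724) (nat_lit 362) (.e (nat_lit 180251) (nat_lit 10) (.e (nat_lit 573471) (nat_lit 11) (.e (nat_lit 16444) (nat_lit 9) (.e (nat_lit 426129) (nat_lit 3) (.e (nat_lit 204815) (nat_lit 17) .nil)))))) (.g (nat_lit 1) (.e (nat_lit 128966) (nat_lit 0) .nil) .nil))))) (.nd (nat_lit 8) (.nd (nat_lit 9) 
(.lf (nat_lit 483490) (.g (nat_lit 832) (.e (nat_lit 6418) (nat_lit 341) (.e (nat_lit 163908) (nat_lit 12) (.e (nat_lit 426286) (nat_lit 10) (.e (nat_lit 434289) (nat_lit 43) .nil)))) (.g (nat_lit 0) (.e (nat_lit 124032) (nat_lit 0) .nil) .nil))) 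
(.lf (nat_lit 484002) (.g (nat_lit 2403) (.e (nat_lit 6722) (nat_lit 362) (.e (nat_lit 180252) (nat_lit 10) (.e (nat_lit 573471) (nat_lit 11) (.e (nat_lit 16449) (nat_lit 10) (.e (nat_lit 434233) (nat_lit 23) .nil))))) (.g (nat_lit 0) (.e (nat_lit 128419) (nat_lit 0) .nil) .nil)))) (.nd (nat_lit 9) 
(.lf (nat_lit 483746) (.g (nat_lit 1128) (.e (nat_lit 6399) (nat_lit 339) (.e (nat_lit 57411) (nat_lit 12) (.e (nat_lit 336367) (nat_lit 27) .nil))) (.g (nat_lit 0) (.e (nat_lit 126488) (nat_lit 0) .nil) .nil))) 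
(.lf (nat_lit 484258) (.g (nat_lit 184) (.e (nat_lit 7936) (nat_lit 362) (.e (nat_lit 180272) (nat_lit 26) (.e (nat_lit 704738) (nat_lit 11) .nil))) (.g (nat_lit 0) (.e (nat_lit 129341) (nat_lit 0) .nil) .nil)))))) (.nd (nat_lit 7) (.nd (nat_lit 8) (.nd (nat_lit 9) 
(.lf (nat_lit 483426) (.g (nat_lit 2730) (.e (nat_lit 6416) (nat_lit 341) (.e (nat_lit 163909) (nat_lit 12) (.e (nat_lit 426140) (nat_lit 3) (.e (nat_lit 204868) (nat_lit 29) (.e (nat_lit 360473) (nat_lit 8) (.e (nat_lit 557094) (nat_lit 12) (.e (nat_lit 163849) (nat_lit 0) .nil))))))) (.g (nat_lit 1) (.e (nat_lit 123413) (nat_lit 0) .nil) .nil))) 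
(.lf (nat_lit 483938) (.g (nat_lit 3360) (.e (nat_lit 6719) (nat_lit 361) (.e (nat_lit 172150) (nat_lit 27) (.e (nat_lit 336231) (nat_lit 14) (.e (nat_lit 401437) (nat_lit 9) (.e (nat_lit 426530) (nat_lit 27) (.e (nat_lit 335872) (nat_lit 0) .nil)))))) (.g (nat_lit 1) (.e (nat_lit 127968) (nat_lit 0) .nil) .nil)))) (.nd (nat_lit 9) 
(.lf (nat_lit 483682) (.g (nat_lit 1466) (.e (nat_lit 6425) (nat_lit 342) (.e (nat_lit 229415) (nat_lit 15) (.e (nat_lit 450563) (nat_lit 0) (.e (nat_lit 6262) (nat_lit 337) .nil)))) (.g (nat_lit 0) (.e (nat_lit 125738) (nat_lit 0) .nil) .nil))) 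
(.lf (nat_lit 484194) (.g (nat_lit 2432) (.e (nat_lit 6724) (nat_lit 362) (.e (nat_lit 180271) (nat_lit 26) (.e (nat_lit 704738) (nat_lit 11) (.e (nat_lit 16462) (nat_lit 13) (.e (nat_lit 483344) (nat_lit 17) .nil))))) (.g (nat_lit 1) (.e (nat_lit 129112) (nat_lit 0) .nil) .nil))))) (.nd (nat_lit 8) (.nd (nat_lit 9) 
(.lf (nat_lit 483554) (.g (nat_lit 2782) (.e (nat_lit 6420) (nat_lit 341) (.e (nat_lit 163908) (nat_lit 12) (.e (nat_lit 426136) (nat_lit 3) (.e (nat_lit 204869) (nat_lit 29) (.e (nat_lit 360474) (nat_lit 8) (.e (nat_lit 557094) (nat_lit 12) (.e (nat_lit 163847) (nat_lit 0) .nil))))))) (.g (nat_lit 1) (.e (nat_lit 124573) (nat_lit 0) .nil) .nil))) 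
(.lf (nat_lit 484066) (.g (nat_lit 2598) (.e (nat_lit 6724) (nat_lit 362) (.e (nat_lit 180243) (nat_lit 5) (.e (nat_lit 532563) (nat_lit 15) (.e (nat_lit 385106) (nat_lit 50) (.e (nat_lit 794368) (nat_lit 3) .nil))))) (.g (nat_lit 0) (.e (nat_lit 128867) (nat_lit 0) .nil) .nil)))) (.nd (nat_lit 9) 
(.lf (nat_lit 483810) (.g (nat_lit 4654) (.e (nat_lit 6666) (nat_lit 357) (.e (nat_lit 3067) (nat_lit 190) (.e (nat_lit 475183) (nat_lit 29) (.e (nat_lit 557108) (nat_lit 15) (.e (nat_lit 188452) (nat_lit 23) (.e (nat_lit 212736) (nat_lit 17) .nil)))))) (.g (nat_lit 1) (.e (nat_lit 127088) (nat_lit 0) .nil) .nil))) 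
(.lf (nat_lit 484322) (.g (nat_lit 3713) (.e (nat_lit 8318) (nat_lit 64) (.e (nat_lit 516115) (nat_lit 1) (.e (nat_lit 164325) (nat_lit 230) (.e (nat_lit 163942) (nat_lit 19) .nil)))) (.g (nat_lit 0) (.e (nat_lit 129779) (nat_lit 0) .nil) .nil)))))))) (.nd (nat_lit 5) (.nd (nat_lit 6) (.nd (nat_lit 7) (.nd (nat_lit 8) (.nd (nat_lit 9) 
(.lf (nat_lit 483346) (.g (nat_lit 4493) (.e (nat_lit 6374) (nat_lit 337) (.e (nat_lit 2628) (nat_lit 164) (.e (nat_lit 172067) (nat_lit 3) (.e (nat_lit 204869) (nat_lit 29) (.e (nat_lit 360475) (nat_lit 8) (.e (nat_lit 557091) (nat_lit 12) (.e (nat_lit 163841) (nat_lit 0) .nil))))))) (.g (nat_lit 1) (.e (nat_lit 122701) (nat_lit 0) .nil) .nil))) 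
(.lf (nat_lit 483858) (.g (nat_lit 2697) (.e (nat_lit 7936) (nat_lit 357) (.e (nat_lit 3073) (nat_lit 190) (.e (nat_lit 475185) (nat_lit 29) (.e (nat_lit 557107) (nat_lit 15) (.e (nat_lit 188450) (nat_lit 23) .nil))))) (.g (nat_lit 0) (.e (nat_lit 127421) (nat_lit 0) .nil) .nil)))) (.nd (nat_lit 9) 
(.lf (nat_lit 483602) (.g (nat_lit 4103) (.e (nat_lit 6421) (nat_lit 341) (.e (nat_lit 163913) (nat_lit 12) (.e (nat_lit 426129) (nat_lit 3) (.e (nat_lit 204869) (nat_lit 29) (.e (nat_lit 360474) (nat_lit 8) (.e (nat_lit 557094) (nat_lit 12) (.e (nat_lit 163849) (nat_lit 0) .nil))))))) (.g (nat_lit 1) (.e (nat_lit 125067) (nat_lit 0) .nil) .nil))) 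
(.lf (nat_lit 484114) (.g (nat_lit 3828) (.e (nat_lit 6724) (nat_lit 362) (.e (nat_lit 180251) (nat_lit 10) (.e (nat_lit 573469) (nat_lit 11) (.e (nat_lit 16436) (nat_lit 9) (.e (nat_lit 426131) (nat_lit 3) (.e (nat_lit 204815) (nat_lit 17) .nil)))))) (.g (nat_lit 1) (.e (nat_lit 128950) (nat_lit 0) .nil) .nil))))) (.nd (nat_lit 8) (.nd (nat_lit 9) 
(.lf (nat_lit 483474) (.g (nat_lit 2954) (.e (nat_lit 6418) (nat_lit 341) (.e (nat_lit 163908) (nat_lit 12) (.e (nat_lit 426132) (nat_lit 3) (.e (nat_lit 204869) (nat_lit 29) (.e (nat_lit 360474) (nat_lit 8) (.e (nat_lit 557094) (nat_lit 12) (.e (nat_lit 163847) (nat_lit 0) .nil))))))) (.g (nat_lit 1) (.e (nat_lit 123948) (nat_lit 0) .nil) .nil))) 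
(.lf (nat_lit 483986) (.g (nat_lit 1972) (.e (nat_lit 6722) (nat_lit 362) (.e (nat_lit 180250) (nat_lit 10) (.e (nat_lit 573469) (nat_lit 11) (.e (nat_lit 16452) (nat_lit 11) .nil)))) (.g (nat_lit 0) (.e (nat_lit 128336) (nat_lit 0) .nil) .nil)))) (.nd (nat_lit 9) 
(.lf (nat_lit 483730) (.g (nat_lit 2485) (.e (nat_lit 6391) (nat_lit 339) (.e (nat_lit 57379) (nat_lit 3) (.e (nat_lit 98334) (nat_lit 18) (.e (nat_lit 164305) (nat_lit 226) (.e (nat_lit 2725) (nat_lit 172) (.e (nat_lit 237592) (nat_lit 3) (.e (nat_lit 204880) (nat_lit 32) (.e (nat_lit 385049) (nat_lit 21) .nil)))))))) (.g (nat_lit 1) (.e (nat_lit 126469) (nat_lit 0) .nil) .nil))) 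
(.lf (nat_lit 484242) (.g (nat_lit 998) (.e (nat_lit 7936) (nat_lit 362) (.e (nat_lit 180271) (nat_lit 26) (.e (nat_lit 704737) (nat_lit 11) (.e (nat_lit 16465) (nat_lit 13) .nil)))) (.g (nat_lit 0) (.e (nat_lit 129317) (nat_lit 0) .nil) .nil)))))) (.nd (nat_lit 7) (.nd (nat_lit 8) (.nd (nat_lit 9) 
(.lf (nat_lit 483410) (.g (nat_lit 4656) (.e (nat_lit 6416) (nat_lit 341) (.e (nat_lit 163909) (nat_lit 12) (.e (nat_lit 426125) (nat_lit 2) (.e (nat_lit 196666) (nat_lit 13) (.e (nat_lit 65617) (nat_lit 10) (.e (nat_lit 344132) (nat_lit 26) (.e (nat_lit 557094) (nat_lit 12) (.e (nat_lit 163849) (nat_lit 0) .nil)))))))) (.g (nat_lit 1) (.e (nat_lit 123381) (nat_lit 0) .nil) .nil))) 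
(.lf (nat_lit 483922) (.g (nat_lit 2232) (.e (nat_lit 6718) (nat_lit 361) (.e (nat_lit 172150) (nat_lit 27) (.e (nat_lit 336231) (nat_lit 14) (.e (nat_lit 401456) (nat_lit 13) (.e (nat_lit 483343) (nat_lit 17) .nil))))) (.g (nat_lit 1) (.e (nat_lit 127918) (nat_lit 0) .nil) .nil)))) (.nd (nat_lit 9) 
(.lf (nat_lit 483666) (.g (nat_lit 2738) (.e (nat_lit 6425) (nat_lit 342) (.e (nat_lit 229412) (nat_lit 14) (.e (nat_lit 442434) (nat_lit 26) (.e (nat_lit 253991) (nat_lit 11) (.e (nat_lit 16447) (nat_lit 10) (.e (nat_lit 434212) (nat_lit 18) .nil)))))) (.g (nat_lit 1) (.e (nat_lit 125662) (nat_lit 0) .nil) .nil))) 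
(.lf (nat_lit 484178) (.g (nat_lit 2352) (.e (nat_lit 6724) (nat_lit 362) (.e (nat_lit 180271) (nat_lit 26) (.e (nat_lit 704737) (nat_lit 11) (.e (nat_lit 16446) (nat_lit 9) (.e (nat_lit 426500) (nat_lit 27) (.e (nat_lit 335895) (nat_lit 0) .nil)))))) (.g (nat_lit 1) (.e (nat_lit 129093) (nat_lit 0) .nil) .nil))))) (.nd (nat_lit 8) (.nd (nat_lit 9) 
(.lf (nat_lit 483538) (.g (nat_lit 875) (.e (nat_lit 6420) (nat_lit 341) (.e (nat_lit 163902) (nat_lit 12) (.e (nat_lit 426250) (nat_lit 9) .nil))) (.g (nat_lit 0) (.e (nat_lit 124472) (nat_lit 0) .nil) .nil))) 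
(.lf (nat_lit 484050) (.g (nat_lit 1592) (.e (nat_lit 6724) (nat_lit 362) (.e (nat_lit 180243) (nat_lit 5) (.e (nat_lit 532481) (nat_lit 0) (.e (nat_lit 6718) (nat_lit 361) .nil)))) (.g (nat_lit 0) (.e (nat_lit 128845) (nat_lit 0) .nil) .nil)))) (.nd (nat_lit 9) 
(.lf (nat_lit 483794) (.g (nat_lit 2314) (.e (nat_lit 6619) (nat_lit 357) (.e (nat_lit 3098) (nat_lit 192) (.e (nat_lit 491537) (nat_lit 2) (.e (nat_lit 90175) (nat_lit 15) .nil)))) (.g (nat_lit 0) (.e (nat_lit 126857) (nat_lit 0) .nil) .nil))) 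
(.lf (nat_lit 484306) (.g (nat_lit 2554) (.e (nat_lit 8305) (nat_lit 58) (.e (nat_lit 286761) (nat_lit 13) (.e (nat_lit 393234) (nat_lit 17) (.e (nat_lit 7591) (nat_lit 407) (.e (nat_lit 73730) (nat_lit 0) (.e (nat_lit 6927) (nat_lit 372) .nil)))))) (.g (nat_lit 1) (.e (nat_lit 129749) (nat_lit 0) .nil) .nil))))))) (.nd (nat_lit 6) (.nd (nat_lit 7) (.nd (nat_lit 8) (.nd (nat_lit 9) 
(.lf (nat_lit 483378) (.g (nat_lit 2357) (.e (nat_lit 6416) (nat_lit 341) (.e (nat_lit 163908) (nat_lit 12) (.e (nat_lit 426132) (nat_lit 3) (.e (nat_lit 204868) (nat_lit 29) (.e (nat_lit 360473) (nat_lit 8) (.e (nat_lit 557094) (nat_lit 12) (.e (nat_lit 163849) (nat_lit 0) .nil))))))) (.g (nat_lit 1) (.e (nat_lit 123230) (nat_lit 0) .nil) .nil))) 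
(.lf (nat_lit 483890) (.g (nat_lit 230) (.e (nat_lit 6712) (nat_lit 360) (.e (nat_lit 163979) (nat_lit 30) (.e (nat_lit 573489) (nat_lit 14) .nil))) (.g (nat_lit 0) (.e (nat_lit 127675) (nat_lit 0) .nil) .nil)))) (.nd (nat_lit 9) 
(.lf (nat_lit 483634) (.g (nat_lit 3689) (.e (nat_lit 6425) (nat_lit 342) (.e (nat_lit 229399) (nat_lit 12) (.e (nat_lit 426125) (nat_lit 2) (.e (nat_lit 196666) (nat_lit 13) (.e (nat_lit 65617) (nat_lit 10) (.e (nat_lit 344133) (nat_lit 26) (.e (nat_lit 557089) (nat_lit 12) (.e (nat_lit 163853) (nat_lit 0) .nil)))))))) (.g (nat_lit 1) (.e (nat_lit 125542) (nat_lit 0) .nil) .nil))) 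
(.lf (nat_lit 484146) (.g (nat_lit 1678) (.e (nat_lit 6724) (nat_lit 362) (.e (nat_lit 180252) (nat_lit 10) (.e (nat_lit 573469) (nat_lit 11) (.e (nat_lit 16452) (nat_lit 11) .nil)))) (.g (nat_lit 0) (.e (nat_lit 128995) (nat_lit 0) .nil) .nil))))) (.nd (nat_lit 8) (.nd (nat_lit 9) 
(.lf (nat_lit 483506) (.g (nat_lit 563) (.e (nat_lit 6418) (nat_lit 341) (.e (nat_lit 163920) (nat_lit 14) (.e (nat_lit 442411) (nat_lit 20) .nil))) (.g (nat_lit 0) (.e (nat_lit 124210) (nat_lit 0) .nil) .nil))) 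
(.lf (nat_lit 484018) (.g (nat_lit 1839) (.e (nat_lit 6722) (nat_lit 362) (.e (nat_lit 180271) (nat_lit 26) (.e (nat_lit 704737) (nat_lit 11) (.e (nat_lit 16464) (nat_lit 13) (.e (nat_lit 483344) (nat_lit 17) .nil))))) (.g (nat_lit 1) (.e (nat_lit 128494) (nat_lit 0) .nil) .nil)))) (.nd (nat_lit 9) 
(.lf (nat_lit 483762) (.g (nat_lit 453) (.e (nat_lit 6490) (nat_lit 343) (.e (nat_lit 1253) (nat_lit 92) (.e (nat_lit 98335) (nat_lit 18) .nil))) (.g (nat_lit 0) (.e (nat_lit 126516) (nat_lit 0) .nil) .nil))) 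
(.lf (nat_lit 484274) (.g (nat_lit 1082) (.e (nat_lit 7936) (nat_lit 369) (.e (nat_lit 163864) (nat_lit 1) (.e (nat_lit 164332) (nat_lit 230) (.e (nat_lit 163905) (nat_lit 12) .nil)))) (.g (nat_lit 0) (.e (nat_lit 129530) (nat_lit 0) .nil) .nil)))))) (.nd (nat_lit 7) (.nd (nat_lit 8) (.nd (nat_lit 9) 
(.lf (nat_lit 483442) (.g (nat_lit 4002) (.e (nat_lit 6416) (nat_lit 341) (.e (nat_lit 163917) (nat_lit 13) (.e (nat_lit 434231) (nat_lit 23) (.e (nat_lit 532550) (nat_lit 12) (.e (nat_lit 360475) (nat_lit 8) (.e (nat_lit 557089) (nat_lit 12) (.e (nat_lit 163844) (nat_lit 0) .nil))))))) (.g (nat_lit 1) (.e (nat_lit 123468) (nat_lit 0) .nil) .nil))) 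
(.lf (nat_lit 483954) (.g (nat_lit 2103) (.e (nat_lit 7936) (nat_lit 361) (.e (nat_lit 172074) (nat_lit 6) (.e (nat_lit 253992) (nat_lit 11) (.e (nat_lit 16463) (nat_lit 13) (.e (nat_lit 483349) (nat_lit 17) .nil))))) (.g (nat_lit 0) (.e (nat_lit 128024) (nat_lit 0) .nil) .nil)))) (.nd (nat_lit 9) 
(.lf (nat_lit 483698) (.g (nat_lit 2816) (.e (nat_lit 6426) (nat_lit 342) (.e (nat_lit 229407) (nat_lit 13) (.e (nat_lit 434231) (nat_lit 23) (.e (nat_lit 532550) (nat_lit 12) (.e (nat_lit 360474) (nat_lit 8) (.e (nat_lit 557094) (nat_lit 12) (.e (nat_lit 163852) (nat_lit 0) .nil))))))) (.g (nat_lit 1) (.e (nat_lit 125842) (nat_lit 0) .nil) .nil))) 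
(.lf (nat_lit 484210) (.g (nat_lit 1760) (.e (nat_lit 7936) (nat_lit 362) (.e (nat_lit 180244) (nat_lit 5) (.e (nat_lit 532481) (nat_lit 0) (.e (nat_lit 6724) (nat_lit 362) .nil)))) (.g (nat_lit 0) (.e (nat_lit 129187) (nat_lit 0) .nil) .nil))))) (.nd (nat_lit 8) (.nd (nat_lit 9) 
(.lf (nat_lit 483570) (.g (nat_lit 4077) (.e (nat_lit 6420) (nat_lit 341) (.e (nat_lit 163917) (nat_lit 13) (.e (nat_lit 434231) (nat_lit 23) (.e (nat_lit 532550) (nat_lit 12) (.e (nat_lit 360475) (nat_lit 8) (.e (nat_lit 557089) (nat_lit 12) (.e (nat_lit 163844) (nat_lit 0) .nil))))))) (.g (nat_lit 1) (.e (nat_lit 124697) (nat_lit 0) .nil) .nil))) 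
(.lf (nat_lit 484082) (.g (nat_lit 2800) (.e (nat_lit 6724) (nat_lit 362) (.e (nat_lit 180243) (nat_lit 5) (.e (nat_lit 532569) (nat_lit 16) (.e (nat_lit 401446) (nat_lit 10) (.e (nat_lit 434233) (nat_lit 23) .nil))))) (.g (nat_lit 0) (.e (nat_lit 128886) (nat_lit 0) .nil) .nil)))) (.nd (nat_lit 9) 
(.lf (nat_lit 483826) (.g (nat_lit 3887) (.e (nat_lit 6677) (nat_lit 357) (.e (nat_lit 2664) (nat_lit 167) (.e (nat_lit 196666) (nat_lit 13) (.e (nat_lit 65610) (nat_lit 10) (.e (nat_lit 344129) (nat_lit 26) (.e (nat_lit 557087) (nat_lit 11) (.e (nat_lit 24584) (nat_lit 0) .nil))))))) (.g (nat_lit 1) (.e (nat_lit 127226) (nat_lit 0) .nil) .nil))) 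
(.lf (nat_lit 484338) (.g (nat_lit 1804) (.e (nat_lit 8320) (nat_lit 64) (.e (nat_lit 516139) (nat_lit 7) (.e (nat_lit 409602) (nat_lit 0) (.e (nat_lit 5259) (nat_lit 298) .nil)))) (.g (nat_lit 0) (.e (nat_lit 129823) (nat_lit 0) .nil) .nil))))))))) (.nd (nat_lit 4) (.nd (nat_lit 5) (.nd (nat_lit 6) (.nd (nat_lit 7) (.nd (nat_lit 8) (.nd (nat_lit 9) 
(.lf (nat_lit 483338) (.g (nat_lit 2234) (.e (nat_lit 6255) (nat_lit 337) (.e (nat_lit 2725) (nat_lit 172) (.e (nat_lit 237593) (nat_lit 3) (.e (nat_lit 204868) (nat_lit 29) (.e (nat_lit 360473) (nat_lit 8) (.e (nat_lit 557093) (nat_lit 12) (.e (nat_lit 163849) (nat_lit 0) .nil))))))) (.g (nat_lit 1) (.e (nat_lit 122549) (nat_lit 0) .nil) .nil))) 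
(.lf (nat_lit 483850) (.g (nat_lit 2508) (.e (nat_lit 7936) (nat_lit 357) (.e (nat_lit 2887) (nat_lit 184) (.e (nat_lit 426412) (nat_lit 15) (.e (nat_lit 1856) (nat_lit 124) (.e (nat_lit 557101) (nat_lit 13) .nil))))) (.g (nat_lit 0) (.e (nat_lit 127402) (nat_lit 0) .nil) .nil)))) (.nd (nat_lit 9) 
(.lf (nat_lit 483594) (.g (nat_lit 2668) (.e (nat_lit 6421) (nat_lit 341) (.e (nat_lit 163913) (nat_lit 12) (.e (nat_lit 426129) (nat_lit 3) (.e (nat_lit 204868) (nat_lit 29) (.e (nat_lit 360473) (nat_lit 8) (.e (nat_lit 557089) (nat_lit 12) (.e (nat_lit 163849) (nat_lit 0) .nil))))))) (.g (nat_lit 1) (.e (nat_lit 125059) (nat_lit 0) .nil) .nil))) 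
(.lf (nat_lit 484106) (.g (nat_lit 1901) (.e (nat_lit 6724) (nat_lit 362) (.e (nat_lit 180250) (nat_lit 10) (.e (nat_lit 573471) (nat_lit 11) (.e (nat_lit 16439) (nat_lit 9) (.e (nat_lit 426039) (nat_lit 0) .nil))))) (.g (nat_lit 0) (.e (nat_lit 128931) (nat_lit 0) .nil) .nil))))) (.nd (nat_lit 8) (.nd (nat_lit 9) 
(.lf (nat_lit 483466) (.g (nat_lit 3704) (.e (nat_lit 6418) (nat_lit 341) (.e (nat_lit 163900) (nat_lit 12) (.e (nat_lit 426140) (nat_lit 3) (.e (nat_lit 204869) (nat_lit 29) (.e (nat_lit 360475) (nat_lit 8) (.e (nat_lit 557089) (nat_lit 12) (.e (nat_lit 163848) (nat_lit 0) .nil))))))) (.g (nat_lit 1) (.e (nat_lit 123908) (nat_lit 0) .nil) .nil))) 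
(.lf (nat_lit 483978) (.g (nat_lit 2890) (.e (nat_lit 6722) (nat_lit 362) (.e (nat_lit 180244) (nat_lit 5) (.e (nat_lit 532563) (nat_lit 15) (.e (nat_lit 385106) (nat_lit 50) (.e (nat_lit 786436) (nat_lit 0) .nil))))) (.g (nat_lit 0) (.e (nat_lit 128283) (nat_lit 0) .nil) .nil)))) (.nd (nat_lit 9) 
(.lf (nat_lit 483722) (.g (nat_lit 3251) (.e (nat_lit 6428) (nat_lit 342) (.e (nat_lit 229409) (nat_lit 13) (.e (nat_lit 434231) (nat_lit 23) (.e (nat_lit 532550) (nat_lit 12) (.e (nat_lit 360474) (nat_lit 8) (.e (nat_lit 557093) (nat_lit 12) (.e (nat_lit 163853) (nat_lit 0) .nil))))))) (.g (nat_lit 1) (.e (nat_lit 126196) (nat_lit 0) .nil) .nil))) 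
(.lf (nat_lit 484234) (.g (nat_lit 1844) (.e (nat_lit 7936) (nat_lit 362) (.e (nat_lit 180271) (nat_lit 26) (.e (nat_lit 704736) (nat_lit 11) (.e (nat_lit 16465) (nat_lit 13) (.e (nat_lit 483356) (nat_lit 17) .nil))))) (.g (nat_lit 0) (.e (nat_lit 129308) (nat_lit 0) .nil) .nil)))))) (.nd (nat_lit 7) (.nd (nat_lit 8) (.nd (nat_lit 9) 
(.lf (nat_lit 483402) (.g (nat_lit 5038) (.e (nat_lit 6416) (nat_lit 341) (.e (nat_lit 163909) (nat_lit 12) (.e (nat_lit 426125) (nat_lit 2) (.e (nat_lit 196666) (nat_lit 13) (.e (nat_lit 65617) (nat_lit 10) (.e (nat_lit 344130) (nat_lit 26) (.e (nat_lit 557089) (nat_lit 12) (.e (nat_lit 163844) (nat_lit 0) .nil)))))))) (.g (nat_lit 1) (.e (nat_lit 123373) (nat_lit 0) .nil) .nil))) 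
(.lf (nat_lit 483914) (.g (nat_lit 2522) (.e (nat_lit 6718) (nat_lit 361) (.e (nat_lit 172076) (nat_lit 6) (.e (nat_lit 253991) (nat_lit 11) (.e (nat_lit 16466) (nat_lit 13) (.e (nat_lit 483345) (nat_lit 17) .nil))))) (.g (nat_lit 1) (.e (nat_lit 127882) (nat_lit 0) .nil) .nil)))) (.nd (nat_lit 9) 
(.lf (nat_lit 483658) (.g (nat_lit 3816) (.e (nat_lit 6425) (nat_lit 342) (.e (nat_lit 229409) (nat_lit 13) (.e (nat_lit 434231) (nat_lit 23) (.e (nat_lit 532550) (nat_lit 12) (.e (nat_lit 360474) (nat_lit 8) (.e (nat_lit 557093) (nat_lit 12) (.e (nat_lit 163853) (nat_lit 0) .nil))))))) (.g (nat_lit 1) (.e (nat_lit 125611) (nat_lit 0) .nil) .nil))) 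
(.lf (nat_lit 484170) (.g (nat_lit 1514) (.e (nat_lit 6724) (nat_lit 362) (.e (nat_lit 180271) (nat_lit 26) (.e (nat_lit 704736) (nat_lit 11) (.e (nat_lit 16468) (nat_lit 13) (.e (nat_lit 483343) (nat_lit 17) .nil))))) (.g (nat_lit 1) (.e (nat_lit 129085) (nat_lit 0) .nil) .nil))))) (.nd (nat_lit 8) (.nd (nat_lit 9) 
(.lf (nat_lit 483530) (.g (nat_lit 4057) (.e (nat_lit 6420) (nat_lit 341) (.e (nat_lit 163900) (nat_lit 12) (.e (nat_lit 426140) (nat_lit 3) (.e (nat_lit 204869) (nat_lit 29) (.e (nat_lit 360475) (nat_lit 8) (.e (nat_lit 557089) (nat_lit 12) (.e (nat_lit 163844) (nat_lit 0) .nil))))))) (.g (nat_lit 1) (.e (nat_lit 124457) (nat_lit 0) .nil) .nil))) 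
(.lf (nat_lit 484042) (.g (nat_lit 2047) (.e (nat_lit 6722) (nat_lit 362) (.e (nat_lit 180272) (nat_lit 26) (.e (nat_lit 704737) (nat_lit 11) (.e (nat_lit 16388) (nat_lit 0) (.e (nat_lit 7377) (nat_lit 390) .nil))))) (.g (nat_lit 0) (.e (nat_lit 128554) (nat_lit 0) .nil) .nil)))) (.nd (nat_lit 9) 
(.lf (nat_lit 483786) (.g (nat_lit 2309) (.e (nat_lit 6617) (nat_lit 357) (.e (nat_lit 3062) (nat_lit 190) (.e (nat_lit 475185) (nat_lit 29) (.e (nat_lit 557107) (nat_lit 15) .nil)))) (.g (nat_lit 0) (.e (nat_lit 126784) (nat_lit 0) .nil) .nil))) 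
(.lf (nat_lit 484298) (.g (nat_lit 3478) (.e (nat_lit 8305) (nat_lit 58) (.e (nat_lit 286735) (nat_lit 3) (.e (nat_lit 98373) (nat_lit 29) (.e (nat_lit 450588) (nat_lit 10) (.e (nat_lit 573475) (nat_lit 12) .nil))))) (.g (nat_lit 0) (.e (nat_lit 129739) (nat_lit 0) .nil) .nil))))))) (.nd (nat_lit 6) (.nd (nat_lit 7) (.nd (nat_lit 8) (.nd (nat_lit 9) 
(.lf (nat_lit 483370) (.g (nat_lit 712) (.e (nat_lit 6416) (nat_lit 341) (.e (nat_lit 163902) (nat_lit 12) (.e (nat_lit 426233) (nat_lit 9) .nil))) (.g (nat_lit 0) (.e (nat_lit 123067) (nat_lit 0) .nil) .nil))) 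
(.lf (nat_lit 483882) (.g (nat_lit 3200) (.e (nat_lit 6711) (nat_lit 360) (.e (nat_lit 163962) (nat_lit 25) (.e (nat_lit 532550) (nat_lit 12) (.e (nat_lit 360475) (nat_lit 8) (.e (nat_lit 557066) (nat_lit 9) (.e (nat_lit 293) (nat_lit 21) (.e (nat_lit 335874) (nat_lit 0) .nil))))))) (.g (nat_lit 1) (.e (nat_lit 127573) (nat_lit 0) .nil) .nil)))) (.nd (nat_lit 9) 
(.lf (nat_lit 483626) (.g (nat_lit 4232) (.e (nat_lit 6421) (nat_lit 341) (.e (nat_lit 163941) (nat_lit 19) (.e (nat_lit 483341) (nat_lit 9) (.e (nat_lit 426179) (nat_lit 8) .nil)))) (.g (nat_lit 0) (.e (nat_lit 125484) (nat_lit 0) .nil) .nil))) 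
(.lf (nat_lit 484138) (.g (nat_lit 3325) (.e (nat_lit 6724) (nat_lit 362) (.e (nat_lit 180251) (nat_lit 10) (.e (nat_lit 573471) (nat_lit 11) (.e (nat_lit 16452) (nat_lit 11) (.e (nat_lit 458789) (nat_lit 23) (.e (nat_lit 532481) (nat_lit 0) .nil)))))) (.g (nat_lit 1) (.e (nat_lit 128974) (nat_lit 0) .nil) .nil))))) (.nd (nat_lit 8) (.nd (nat_lit 9) 
(.lf (nat_lit 483498) (.g (nat_lit 3822) (.e (nat_lit 6418) (nat_lit 341) (.e (nat_lit 163916) (nat_lit 13) (.e (nat_lit 434231) (nat_lit 23) (.e (nat_lit 532550) (nat_lit 12) (.e (nat_lit 360475) (nat_lit 8) (.e (nat_lit 557089) (nat_lit 12) (.e (nat_lit 163844) (nat_lit 0) .nil))))))) (.g (nat_lit 1) (.e (nat_lit 124107) (nat_lit 0) .nil) .nil))) 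
(.lf (nat_lit 484010) (.g (nat_lit 1491) (.e (nat_lit 6722) (nat_lit 362) (.e (nat_lit 180271) (nat_lit 26) (.e (nat_lit 704737) (nat_lit 11) (.e (nat_lit 16386) (nat_lit 0) .nil)))) (.g (nat_lit 0) (.e (nat_lit 128481) (nat_lit 0) .nil) .nil)))) (.nd (nat_lit 9) 
(.lf (nat_lit 483754) (.g (nat_lit 1885) (.e (nat_lit 6401) (nat_lit 339) (.e (nat_lit 57409) (nat_lit 12) (.e (nat_lit 336367) (nat_lit 27) (.e (nat_lit 426542) (nat_lit 29) (.e (nat_lit 352313) (nat_lit 23) .nil))))) (.g (nat_lit 0) (.e (nat_lit 126498) (nat_lit 0) .nil) .nil))) 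
(.lf (nat_lit 484266) (.g (nat_lit 1765) (.e (nat_lit 6807) (nat_lit 365) (.e (nat_lit 1220) (nat_lit 90) (.e (nat_lit 81938) (nat_lit 20) (.e (nat_lit 1886) (nat_lit 127) (.e (nat_lit 581635) (nat_lit 0) (.e (nat_lit 3022) (nat_lit 187) (.e (nat_lit 458496) (nat_lit 0) .nil))))))) (.g (nat_lit 1) (.e (nat_lit 129377) (nat_lit 0) .nil) .nil)))))) (.nd (nat_lit 7) (.nd (nat_lit 8) (.nd (nat_lit 9) 
(.lf (nat_lit 483434) (.g (nat_lit 4797) (.e (nat_lit 6416) (nat_lit 341) (.e (nat_lit 163909) (nat_lit 12) (.e (nat_lit 426140) (nat_lit 3) (.e (nat_lit 204869) (nat_lit 29) (.e (nat_lit 360475) (nat_lit 8) (.e (nat_lit 557091) (nat_lit 12) (.e (nat_lit 163843) (nat_lit 0) .nil))))))) (.g (nat_lit 1) (.e (nat_lit 123421) (nat_lit 0) .nil) .nil))) 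
(.lf (nat_lit 483946) (.g (nat_lit 2141) (.e (nat_lit 6720) (nat_lit 361) (.e (nat_lit 172144) (nat_lit 26) (.e (nat_lit 327700) (nat_lit 8) (.e (nat_lit 303145) (nat_lit 13) (.e (nat_lit 483345) (nat_lit 17) .nil))))) (.g (nat_lit 1) (.e (nat_lit 127989) (nat_lit 0) .nil) .nil)))) (.nd (nat_lit 9) 
(.lf (nat_lit 483690) (.g (nat_lit 2258) (.e (nat_lit 6425) (nat_lit 342) (.e (nat_lit 229415) (nat_lit 15) (.e (nat_lit 450603) (nat_lit 22) (.e (nat_lit 704736) (nat_lit 11) (.e (nat_lit 16447) (nat_lit 10) (.e (nat_lit 434212) (nat_lit 18) .nil)))))) (.g (nat_lit 1) (.e (nat_lit 125803) (nat_lit 0) .nil) .nil))) 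
(.lf (nat_lit 484202) (.g (nat_lit 2379) (.e (nat_lit 7936) (nat_lit 362) (.e (nat_lit 180243) (nat_lit 5) (.e (nat_lit 532481) (nat_lit 0) (.e (nat_lit 6724) (nat_lit 362) (.e (nat_lit 180243) (nat_lit 5) .nil))))) (.g (nat_lit 0) (.e (nat_lit 129168) (nat_lit 0) .nil) .nil))))) (.nd (nat_lit 8) (.nd (nat_lit 9) 
(.lf (nat_lit 483562) (.g (nat_lit 4008) (.e (nat_lit 6420) (nat_lit 341) (.e (nat_lit 163908) (nat_lit 12) (.e (nat_lit 426285) (nat_lit 10) (.e (nat_lit 434289) (nat_lit 43) (.e (nat_lit 696344) (nat_lit 8) (.e (nat_lit 172113) (nat_lit 10) (.e (nat_lit 434203) (nat_lit 18) .nil))))))) (.g (nat_lit 1) (.e (nat_lit 124605) (nat_lit 0) .nil) .nil))) 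
(.lf (nat_lit 484074) (.g (nat_lit 2237) (.e (nat_lit 6724) (nat_lit 362) (.e (nat_lit 180243) (nat_lit 5) (.e (nat_lit 532567) (nat_lit 16) (.e (nat_lit 401438) (nat_lit 9) (.e (nat_lit 426131) (nat_lit 3) .nil))))) (.g (nat_lit 0) (.e (nat_lit 128876) (nat_lit 0) .nil) .nil)))) (.nd (nat_lit 9) 
(.lf (nat_lit 483818) (.g (nat_lit 1951) (.e (nat_lit 6692) (nat_lit 357) (.e (nat_lit 2663) (nat_lit 167) (.e (nat_lit 196666) (nat_lit 13) (.e (nat_lit 65617) (nat_lit 10) (.e (nat_lit 344127) (nat_lit 26) .nil))))) (.g (nat_lit 0) (.e (nat_lit 127147) (nat_lit 0) .nil) .nil))) 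
(.lf (nat_lit 484330) (.g (nat_lit 4071) (.e (nat_lit 8319) (nat_lit 64) (.e (nat_lit 516120) (nat_lit 1) (.e (nat_lit 164329) (nat_lit 230) (.e (nat_lit 163902) (nat_lit 12) (.e (nat_lit 426568) (nat_lit 34) (.e (nat_lit 393234) (nat_lit 17) (.e (nat_lit 7374) (nat_lit 389) .nil))))))) (.g (nat_lit 1) (.e (nat_lit 129790) (nat_lit 0) .nil) .nil)))))))) 
(.nd (nat_lit 5) (.nd (nat_lit 6) (.nd (nat_lit 7) (.nd (nat_lit 8) (.nd (nat_lit 9) 
(.lf (nat_lit 483354) (.g (nat_lit 4006) (.e (nat_lit 6416) (nat_lit 341) (.e (nat_lit 163900) (nat_lit 12) (.e (nat_lit 426125) (nat_lit 2) (.e (nat_lit 196666) (nat_lit 13) (.e (nat_lit 65617) (nat_lit 10) (.e (nat_lit 344130) (nat_lit 26) (.e (nat_lit 557089) (nat_lit 12) (.e (nat_lit 163844) (nat_lit 0) .nil)))))))) (.g (nat_lit 1) (.e (nat_lit 123041) (nat_lit 0) .nil) .nil))) 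
(.lf (nat_lit 483866) (.g (nat_lit 2973) (.e (nat_lit 6711) (nat_lit 360) (.e (nat_lit 163962) (nat_lit 25) (.e (nat_lit 532535) (nat_lit 9) (.e (nat_lit 336058) (nat_lit 7) (.e (nat_lit 319519) (nat_lit 12) (.e (nat_lit 40704) (nat_lit 5) (.e (nat_lit 1515) (nat_lit 108) (.e (nat_lit 335874) (nat_lit 0) .nil)))))))) (.g (nat_lit 1) (.e (nat_lit 127518) (nat_lit 0) .nil) .nil)))) (.nd (nat_lit 9) 
(.lf (nat_lit 483610) (.g (nat_lit 4200) (.e (nat_lit 6421) (nat_lit 341) (.e (nat_lit 171776) (nat_lit 12) (.e (nat_lit 426139) (nat_lit 3) (.e (nat_lit 204869) (nat_lit 29) (.e (nat_lit 360474) (nat_lit 8) (.e (nat_lit 557091) (nat_lit 12) (.e (nat_lit 163849) (nat_lit 0) .nil))))))) (.g (nat_lit 1) (.e (nat_lit 125123) (nat_lit 0) .nil) .nil))) 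
(.lf (nat_lit 484122) (.g (nat_lit 2233) (.e (nat_lit 6724) (nat_lit 362) (.e (nat_lit 180251) (nat_lit 10) (.e (nat_lit 573469) (nat_lit 11) (.e (nat_lit 16451) (nat_lit 11) (.e (nat_lit 458789) (nat_lit 23) (.e (nat_lit 532482) (nat_lit 0) .nil)))))) (.g (nat_lit 1) (.e (nat_lit 128958) (nat_lit 0) .nil) .nil))))) (.nd (nat_lit 8) (.nd (nat_lit 9) 
(.lf (nat_lit 483482) (.g (nat_lit 4426) (.e (nat_lit 6418) (nat_lit 341) (.e (nat_lit 163908) (nat_lit 12) (.e (nat_lit 426136) (nat_lit 3) (.e (nat_lit 204869) (nat_lit 29) (.e (nat_lit 360475) (nat_lit 8) (.e (nat_lit 557089) (nat_lit 12) (.e (nat_lit 163848) (nat_lit 0) .nil))))))) (.g (nat_lit 1) (.e (nat_lit 123956) (nat_lit 0) .nil) .nil))) 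
(.lf (nat_lit 483994) (.g (nat_lit 696) (.e (nat_lit 6722) (nat_lit 362) (.e (nat_lit 180251) (nat_lit 10) (.e (nat_lit 573470) (nat_lit 11) .nil))) (.g (nat_lit 0) (.e (nat_lit 128377) (nat_lit 0) .nil) .nil)))) (.nd (nat_lit 9) 
(.lf (nat_lit 483738) (.g (nat_lit 2417) (.e (nat_lit 6393) (nat_lit 339) (.e (nat_lit 57379) (nat_lit 3) (.e (nat_lit 98341) (nat_lit 20) (.e (nat_lit 221215) (nat_lit 23) (.e (nat_lit 204861) (nat_lit 26) .nil))))) (.g (nat_lit 0) (.e (nat_lit 126477) (nat_lit 0) .nil) .nil))) 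
(.lf (nat_lit 484250) (.g (nat_lit 1729) (.e (nat_lit 7936) (nat_lit 362) (.e (nat_lit 180271) (nat_lit 26) (.e (nat_lit 704738) (nat_lit 11) (.e (nat_lit 16439) (nat_lit 9) (.e (nat_lit 426501) (nat_lit 27) .nil))))) (.g (nat_lit 0) (.e (nat_lit 129326) (nat_lit 0) .nil) .nil)))))) (.nd (nat_lit 7) (.nd (nat_lit 8) (.nd (nat_lit 9) 
(.lf (nat_lit 483418) (.g (nat_lit 3485) (.e (nat_lit 6416) (nat_lit 341) (.e (nat_lit 163909) (nat_lit 12) (.e (nat_lit 426140) (nat_lit 3) (.e (nat_lit 204868) (nat_lit 29) (.e (nat_lit 360473) (nat_lit 8) (.e (nat_lit 557089) (nat_lit 12) (.e (nat_lit 163844) (nat_lit 0) .nil))))))) (.g (nat_lit 1) (.e (nat_lit 123405) (nat_lit 0) .nil) .nil))) 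
(.lf (nat_lit 483930) (.g (nat_lit 1729) (.e (nat_lit 6719) (nat_lit 361) (.e (nat_lit 172150) (nat_lit 27) (.e (nat_lit 336078) (nat_lit 9) (.e (nat_lit 336270) (nat_lit 15) (.e (nat_lit 3748) (nat_lit 228) (.e (nat_lit 786473) (nat_lit 27) (.e (nat_lit 335872) (nat_lit 0) .nil))))))) (.g (nat_lit 1) (.e (nat_lit 127959) (nat_lit 0) .nil) .nil)))) (.nd (nat_lit 9) 
(.lf (nat_lit 483674) (.g (nat_lit 2860) (.e (nat_lit 6425) (nat_lit 342) (.e (nat_lit 229413) (nat_lit 15) (.e (nat_lit 450604) (nat_lit 22) (.e (nat_lit 704738) (nat_lit 11) (.e (nat_lit 16447) (nat_lit 10) (.e (nat_lit 434212) (nat_lit 18) .nil)))))) (.g (nat_lit 1) (.e (nat_lit 125696) (nat_lit 0) .nil) .nil))) 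
(.lf (nat_lit 484186) (.g (nat_lit 1680) (.e (nat_lit 6724) (nat_lit 362) (.e (nat_lit 180271) (nat_lit 26) (.e (nat_lit 704738) (nat_lit 11) (.e (nat_lit 16392) (nat_lit 0) (.e (nat_lit 7936) (nat_lit 390) .nil))))) (.g (nat_lit 0) (.e (nat_lit 129104) (nat_lit 0) .nil) .nil))))) (.nd (nat_lit 8) (.nd (nat_lit 9) 
(.lf (nat_lit 483546) (.g (nat_lit 1483) (.e (nat_lit 6420) (nat_lit 341) (.e (nat_lit 163902) (nat_lit 12) (.e (nat_lit 426568) (nat_lit 34) (.e (nat_lit 393262) (nat_lit 22) .nil)))) (.g (nat_lit 0) (.e (nat_lit 124541) (nat_lit 0) .nil) .nil))) 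
(.lf (nat_lit 484058) (.g (nat_lit 2571) (.e (nat_lit 6724) (nat_lit 362) (.e (nat_lit 180243) (nat_lit 5) (.e (nat_lit 532523) (nat_lit 7) (.e (nat_lit 319504) (nat_lit 10) (.e (nat_lit 5714) (nat_lit 312) (.e (nat_lit 2682) (nat_lit 168) (.e (nat_lit 204816) (nat_lit 17) .nil))))))) (.g (nat_lit 1) (.e (nat_lit 128856) (nat_lit 0) .nil) .nil)))) (.nd (nat_lit 9) 
(.lf (nat_lit 483802) (.g (nat_lit 353) (.e (nat_lit 6643) (nat_lit 357) (.e (nat_lit 3089) (nat_lit 191) (.e (nat_lit 491264) (nat_lit 27) .nil))) (.g (nat_lit 0) (.e (nat_lit 126947) (nat_lit 0) .nil) .nil))) 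
(.lf (nat_lit 484314) (.g (nat_lit 2914) (.e (nat_lit 8317) (nat_lit 64) (.e (nat_lit 516120) (nat_lit 1) (.e (nat_lit 164329) (nat_lit 230) (.e (nat_lit 163902) (nat_lit 12) (.e (nat_lit 426568) (nat_lit 34) (.e (nat_lit 393234) (nat_lit 17) (.e (nat_lit 7376) (nat_lit 389) .nil))))))) (.g (nat_lit 1) (.e (nat_lit 129762) (nat_lit 0) .nil) .nil))))))) 
(.nd (nat_lit 6) (.nd (nat_lit 7) (.nd (nat_lit 8) (.nd (nat_lit 9) 
(.lf (nat_lit 483386) (.g (nat_lit 4754) (.e (nat_lit 6416) (nat_lit 341) (.e (nat_lit 163908) (nat_lit 12) (.e (nat_lit 426136) (nat_lit 3) (.e (nat_lit 204869) (nat_lit 29) (.e (nat_lit 360475) (nat_lit 8) (.e (nat_lit 557089) (nat_lit 12) (.e (nat_lit 163844) (nat_lit 0) .nil))))))) (.g (nat_lit 1) (.e (nat_lit 123238) (nat_lit 0) .nil) .nil))) 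
(.lf (nat_lit 483898) (.g (nat_lit 1966) (.e (nat_lit 6713) (nat_lit 360) (.e (nat_lit 163962) (nat_lit 25) (.e (nat_lit 532550) (nat_lit 12) (.e (nat_lit 360451) (nat_lit 0) (.e (nat_lit 3933) (nat_lit 239) .nil))))) (.g (nat_lit 0) (.e (nat_lit 127712) (nat_lit 0) .nil) .nil)))) (.nd (nat_lit 9) 
(.lf (nat_lit 483642) (.g (nat_lit 3499) (.e (nat_lit 6425) (nat_lit 342) (.e (nat_lit 229403) (nat_lit 12) (.e (nat_lit 426125) (nat_lit 2) (.e (nat_lit 196666) (nat_lit 13) (.e (nat_lit 65617) (nat_lit 10) (.e (nat_lit 344127) (nat_lit 26) (.e (nat_lit 557090) (nat_lit 12) (.e (nat_lit 163850) (nat_lit 0) .nil)))))))) (.g (nat_lit 1) (.e (nat_lit 125569) (nat_lit 0) .nil) .nil))) 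
(.lf (nat_lit 484154) (.g (nat_lit 1818) (.e (nat_lit 6724) (nat_lit 362) (.e (nat_lit 180252) (nat_lit 10) (.e (nat_lit 573471) (nat_lit 11) (.e (nat_lit 16433) (nat_lit 9) (.e (nat_lit 433920) (nat_lit 3) (.e (nat_lit 204816) (nat_lit 17) .nil)))))) (.g (nat_lit 1) (.e (nat_lit 129003) (nat_lit 0) .nil) .nil))))) (.nd (nat_lit 8) (.nd (nat_lit 9) 
(.lf (nat_lit 483514) (.g (nat_lit 4212) (.e (nat_lit 6420) (nat_lit 341) (.e (nat_lit 163843) (nat_lit 0) (.e (nat_lit 7366) (nat_lit 388) (.e (nat_lit 2663) (nat_lit 167) (.e (nat_lit 196666) (nat_lit 13) (.e (nat_lit 65617) (nat_lit 10) (.e (nat_lit 344133) (nat_lit 26) (.e (nat_lit 557089) (nat_lit 12) (.e (nat_lit 163844) (nat_lit 0) .nil))))))))) (.g (nat_lit 1) (.e (nat_lit 124425) (nat_lit 0) .nil) .nil))) 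
(.lf (nat_lit 484026) (.g (nat_lit 1536) (.e (nat_lit 6722) (nat_lit 362) (.e (nat_lit 180271) (nat_lit 26) (.e (nat_lit 704738) (nat_lit 11) (.e (nat_lit 16386) (nat_lit 0) .nil)))) (.g (nat_lit 0) (.e (nat_lit 128506) (nat_lit 0) .nil) .nil)))) (.nd (nat_lit 9) 
(.lf (nat_lit 483770) (.g (nat_lit 2414) (.e (nat_lit 6508) (nat_lit 345) (.e (nat_lit 16473) (nat_lit 14) (.e (nat_lit 491560) (nat_lit 10) (.e (nat_lit 344179) (nat_lit 44) (.e (nat_lit 778464) (nat_lit 11) .nil))))) (.g (nat_lit 0) (.e (nat_lit 126543) (nat_lit 0) .nil) .nil))) 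
(.lf (nat_lit 484282) (.g (nat_lit 641) (.e (nat_lit 6830) (nat_lit 367) (.e (nat_lit 57409) (nat_lit 12) (.e (nat_lit 336182) (nat_lit 11) .nil))) (.g (nat_lit 0) (.e (nat_lit 129542) (nat_lit 0) .nil) .nil)))))) (.nd (nat_lit 7) (.nd (nat_lit 8) (.nd (nat_lit 9) 
(.lf (nat_lit 483450) (.g (nat_lit 3771) (.e (nat_lit 6418) (nat_lit 341) (.e (nat_lit 163900) (nat_lit 12) (.e (nat_lit 426125) (nat_lit 2) (.e (nat_lit 196666) (nat_lit 13) (.e (nat_lit 65617) (nat_lit 10) (.e (nat_lit 344130) (nat_lit 26) (.e (nat_lit 557089) (nat_lit 12) (.e (nat_lit 163844) (nat_lit 0) .nil)))))))) (.g (nat_lit 1) (.e (nat_lit 123884) (nat_lit 0) .nil) .nil))) 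
(.lf (nat_lit 483962) (.g (nat_lit 1425) (.e (nat_lit 6722) (nat_lit 362) (.e (nat_lit 180243) (nat_lit 5) (.e (nat_lit 532523) (nat_lit 7) (.e (nat_lit 319505) (nat_lit 10) .nil)))) (.g (nat_lit 0) (.e (nat_lit 128263) (nat_lit 0) .nil) .nil)))) (.nd (nat_lit 9) 
(.lf (nat_lit 483706) (.g (nat_lit 3141) (.e (nat_lit 6426) (nat_lit 342) (.e (nat_lit 229415) (nat_lit 15) (.e (nat_lit 450601) (nat_lit 21) (.e (nat_lit 696344) (nat_lit 8) (.e (nat_lit 172106) (nat_lit 10) (.e (nat_lit 434209) (nat_lit 18) .nil)))))) (.g (nat_lit 1) (.e (nat_lit 125983) (nat_lit 0) .nil) .nil))) 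
(.lf (nat_lit 484218) (.g (nat_lit 985) (.e (nat_lit 7936) (nat_lit 362) (.e (nat_lit 180250) (nat_lit 10) (.e (nat_lit 573471) (nat_lit 11) (.e (nat_lit 16439) (nat_lit 9) .nil)))) (.g (nat_lit 0) (.e (nat_lit 129227) (nat_lit 0) .nil) .nil))))) (.nd (nat_lit 8) (.nd (nat_lit 9) 
(.lf (nat_lit 483578) (.g (nat_lit 3228) (.e (nat_lit 6421) (nat_lit 341) (.e (nat_lit 163900) (nat_lit 12) (.e (nat_lit 426140) (nat_lit 3) (.e (nat_lit 204868) (nat_lit 29) (.e (nat_lit 360473) (nat_lit 8) (.e (nat_lit 557091) (nat_lit 12) (.e (nat_lit 163844) (nat_lit 0) .nil))))))) (.g (nat_lit 1) (.e (nat_lit 124984) (nat_lit 0) .nil) .nil))) 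
(.lf (nat_lit 484090) (.g (nat_lit 3726) (.e (nat_lit 6724) (nat_lit 362) (.e (nat_lit 180250) (nat_lit 10) (.e (nat_lit 573469) (nat_lit 11) (.e (nat_lit 16436) (nat_lit 9) (.e (nat_lit 426131) (nat_lit 3) (.e (nat_lit 204816) (nat_lit 17) .nil)))))) (.g (nat_lit 1) (.e (nat_lit 128915) (nat_lit 0) .nil) .nil)))) (.nd (nat_lit 9) 
(.lf (nat_lit 483834) (.g (nat_lit 683) (.e (nat_lit 6681) (nat_lit 357) (.e (nat_lit 3090) (nat_lit 191) (.e (nat_lit 483379) (nat_lit 23) .nil))) (.g (nat_lit 0) (.e (nat_lit 127317) (nat_lit 0) .nil) .nil))) 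
(.lf (nat_lit 484346) (.g (nat_lit 3182) (.e (nat_lit 8324) (nat_lit 69) (.e (nat_lit 557105) (nat_lit 14) (.e (nat_lit 180252) (nat_lit 10) (.e (nat_lit 573489) (nat_lit 14) (.e (nat_lit 73755) (nat_lit 8) (.e (nat_lit 557090) (nat_lit 12) (.e (nat_lit 164010) (nat_lit 41) (.e (nat_lit 663582) (nat_lit 10) .nil)))))))) (.g (nat_lit 1) (.e (nat_lit 129838) (nat_lit 0) .nil) .nil)))))))))) 
(.nd (nat_lit 3) (.nd (nat_lit 4) (.nd (nat_lit 5) (.nd (nat_lit 6) (.nd (nat_lit 7) 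
(.nd (nat_lit 8) (.nd (nat_lit 9) 
(.lf (nat_lit 483334) (.g (nat_lit 4066) (.e (nat_lit 6255) (nat_lit 337) (.e (nat_lit 2725) (nat_lit 172) (.e (nat_lit 237589) (nat_lit 2) (.e (nat_lit 196666) (nat_lit 13) (.e (nat_lit 65610) (nat_lit 10) (.e (nat_lit 344129) (nat_lit 26) (.e (nat_lit 557089) (nat_lit 12) (.e (nat_lit 163849) (nat_lit 0) .nil)))))))) (.g (nat_lit 1) (.e (nat_lit 122545) (nat_lit 0) .nil) .nil))) 
(.lf (nat_lit 483846) (.g (nat_lit 352) (.e (nat_lit 6684) (nat_lit 357) (.e (nat_lit 3089) (nat_lit 191) (.e (nat_lit 491264) (nat_lit 27) .nil))) (.g (nat_lit 0) (.e (nat_lit 127371) (nat_lit 0) .nil) .nil)))) (.nd (nat_lit 9) 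
(.lf (nat_lit 483590) (.g (nat_lit 2018) (.e (nat_lit 6421) (nat_lit 341) (.e (nat_lit 163911) (nat_lit 12) (.e (nat_lit 426140) (nat_lit 3) (.e (nat_lit 204868) (nat_lit 29) (.e (nat_lit 360473) (nat_lit 8) (.e (nat_lit 557089) (nat_lit 12) (.e (nat_lit 163849) (nat_lit 0) .nil))))))) (.g (nat_lit 1) (.e (nat_lit 125046) (nat_lit 0) .nil) .nil))) 
(.lf (nat_lit 484102) (.g (nat_lit 2220) (.e (nat_lit 6724) (nat_lit 362) (.e (nat_lit 180250) (nat_lit 10) (.e (nat_lit 573471) (nat_lit 11) (.e (nat_lit 16433) (nat_lit 9) (.e (nat_lit 426091) (nat_lit 0) .nil))))) (.g (nat_lit 0) (.e (nat_lit 128927) (nat_lit 0) .nil) .nil))))) (.nd (nat_lit 8) (.nd (nat_lit 9) 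
(.lf (nat_lit 483462) (.g (nat_lit 2419) (.e (nat_lit 6418) (nat_lit 341) (.e (nat_lit 163900) (nat_lit 12) (.e (nat_lit 426140) (nat_lit 3) (.e (nat_lit 204868) (nat_lit 29) (.e (nat_lit 360473) (nat_lit 8) (.e (nat_lit 557094) (nat_lit 12) (.e (nat_lit 163847) (nat_lit 0) .nil))))))) (.g (nat_lit 1) (.e (nat_lit 123904) (nat_lit 0) .nil) .nil))) 
(.lf (nat_lit 483974) (.g (nat_lit 719) (.e (nat_lit 6722) (nat_lit 362) (.e (nat_lit 180244) (nat_lit 5) (.e (nat_lit 532525) (nat_lit 8) .nil))) (.g (nat_lit 0) (.e (nat_lit 128278) (nat_lit 0) .nil) .nil)))) (.nd (nat_lit 9) 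
(.lf (nat_lit 483718) (.g (nat_lit 4431) (.e (nat_lit 6428) (nat_lit 342) (.e (nat_lit 229399) (nat_lit 12) (.e (nat_lit 426125) (nat_lit 2) (.e (nat_lit 196666) (nat_lit 13) (.e (nat_lit 65617) (nat_lit 10) (.e (nat_lit 344133) (nat_lit 26) (.e (nat_lit 557089) (nat_lit 12) (.e (nat_lit 163850) (nat_lit 0) .nil)))))))) (.g (nat_lit 1) (.e (nat_lit 126178) (nat_lit 0) .nil) .nil))) 
(.lf (nat_lit 484230) (.g (nat_lit 2361) (.e (nat_lit 7936) (nat_lit 362) (.e (nat_lit 180252) (nat_lit 10) (.e (nat_lit 573471) (nat_lit 11) (.e (nat_lit 16449) (nat_lit 10) (.e (nat_lit 434233) (nat_lit 23) .nil))))) (.g (nat_lit 0) (.e (nat_lit 129280) (nat_lit 0) .nil) .nil)))))) (.nd (nat_lit 7) (.nd (nat_lit 8) (.nd (nat_lit 9) 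
(.lf (nat_lit 483398) (.g (nat_lit 1641) (.e (nat_lit 6416) (nat_lit 341) (.e (nat_lit 163908) (nat_lit 12) (.e (nat_lit 426286) (nat_lit 10) (.e (nat_lit 434288) (nat_lit 43) (.e (nat_lit 696344) (nat_lit 8) (.e (nat_lit 172106) (nat_lit 10) (.e (nat_lit 434202) (nat_lit 18) .nil))))))) (.g (nat_lit 1) (.e (nat_lit 123320) (nat_lit 0) .nil) .nil))) 
(.lf (nat_lit 483910) (.g (nat_lit 1799) (.e (nat_lit 6718) (nat_lit 361) (.e (nat_lit 172074) (nat_lit 6) (.e (nat_lit 253991) (nat_lit 11) (.e (nat_lit 16466) (nat_lit 13) (.e (nat_lit 483345) (nat_lit 17) .nil))))) (.g (nat_lit 0) (.e (nat_lit 127875) (nat_lit 0) .nil) .nil)))) (.nd (nat_lit 9) 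
(.lf (nat_lit 483654) (.g (nat_lit 2631) (.e (nat_lit 6425) (nat_lit 342) (.e (nat_lit 229409) (nat_lit 13) (.e (nat_lit 434231) (nat_lit 23) (.e (nat_lit 532549) (nat_lit 12) (.e (nat_lit 360473) (nat_lit 8) (.e (nat_lit 557094) (nat_lit 12) (.e (nat_lit 163840) (nat_lit 0) .nil))))))) (.g (nat_lit 1) (.e (nat_lit 125607) (nat_lit 0) .nil) .nil))) 
(.lf (nat_lit 484166) (.g (nat_lit 1974) (.e (nat_lit 6724) (nat_lit 362) (.e (nat_lit 180271) (nat_lit 26) (.e (nat_lit 704736) (nat_lit 11) (.e (nat_lit 16462) (nat_lit 13) (.e (nat_lit 483344) (nat_lit 17) .nil))))) (.g (nat_lit 1) (.e (nat_lit 129077) (nat_lit 0) .nil) .nil))))) (.nd (nat_lit 8) (.nd (nat_lit 9) 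
(.lf (nat_lit 483526) (.g (nat_lit 3931) (.e (nat_lit 6420) (nat_lit 341) (.e (nat_lit 163900) (nat_lit 12) (.e (nat_lit 426125) (nat_lit 2) (.e (nat_lit 196666) (nat_lit 13) (.e (nat_lit 65617) (nat_lit 10) (.e (nat_lit 344133) (nat_lit 26) (.e (nat_lit 557091) (nat_lit 12) (.e (nat_lit 163849) (nat_lit 0) .nil)))))))) (.g (nat_lit 1) (.e (nat_lit 124450) (nat_lit 0) .nil) .nil))) 
(.lf (nat_lit 484038) (.g (nat_lit 2405) (.e (nat_lit 6722) (nat_lit 362) (.e (nat_lit 180271) (nat_lit 26) (.e (nat_lit 704738) (nat_lit 11) (.e (nat_lit 16466) (nat_lit 13) (.e (nat_lit 483344) (nat_lit 17) .nil))))) (.g (nat_lit 1) (.e (nat_lit 128523) (nat_lit 0) .nil) .nil)))) (.nd (nat_lit 9) 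
(.lf (nat_lit 483782) (.g (nat_lit 3318) (.e (nat_lit 6617) (nat_lit 357) (.e (nat_lit 2685) (nat_lit 168) (.e (nat_lit 204869) (nat_lit 29) (.e (nat_lit 360475) (nat_lit 8) (.e (nat_lit 557086) (nat_lit 11) (.e (nat_lit 24579) (nat_lit 0) .nil)))))) (.g (nat_lit 1) (.e (nat_lit 126767) (nat_lit 0) .nil) .nil))) 
(.lf (nat_lit 484294) (.g (nat_lit 3797) (.e (nat_lit 8303) (nat_lit 58) (.e (nat_lit 286735) (nat_lit 3) (.e (nat_lit 98372) (nat_lit 29) (.e (nat_lit 450579) (nat_lit 5) (.e (nat_lit 532501) (nat_lit 1) .nil))))) (.g (nat_lit 0) (.e (nat_lit 129734) (nat_lit 0) .nil) .nil))))))) (.nd (nat_lit 6) (.nd (nat_lit 7) (.nd (nat_lit 8) (.nd (nat_lit 9) 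
(.lf (nat_lit 483366) (.g (nat_lit 2906) (.e (nat_lit 6416) (nat_lit 341) (.e (nat_lit 163900) (nat_lit 12) (.e (nat_lit 426140) (nat_lit 3) (.e (nat_lit 204869) (nat_lit 29) (.e (nat_lit 360474) (nat_lit 8) (.e (nat_lit 557094) (nat_lit 12) (.e (nat_lit 163849) (nat_lit 0) .nil))))))) (.g (nat_lit 1) (.e (nat_lit 123059) (nat_lit 0) .nil) .nil))) 
(.lf (nat_lit 483878) (.g (nat_lit 2343) (.e (nat_lit 6711) (nat_lit 360) (.e (nat_lit 163962) (nat_lit 25) (.e (nat_lit 532550) (nat_lit 12) (.e (nat_lit 360474) (nat_lit 8) (.e (nat_lit 557072) (nat_lit 9) (.e (nat_lit 288) (nat_lit 21) (.e (nat_lit 335874) (nat_lit 0) .nil))))))) (.g (nat_lit 1) (.e (nat_lit 127569) (nat_lit 0) .nil) .nil)))) (.nd (nat_lit 9) 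
(.lf (nat_lit 483622) (.g (nat_lit 4390) (.e (nat_lit 6421) (nat_lit 341) (.e (nat_lit 163917) (nat_lit 13) (.e (nat_lit 434231) (nat_lit 23) (.e (nat_lit 532550) (nat_lit 12) (.e (nat_lit 360475) (nat_lit 8) (.e (nat_lit 557091) (nat_lit 12) (.e (nat_lit 163844) (nat_lit 0) .nil))))))) (.g (nat_lit 1) (.e (nat_lit 125157) (nat_lit 0) .nil) .nil))) 
(.lf (nat_lit 484134) (.g (nat_lit 3510) (.e (nat_lit 6724) (nat_lit 362) (.e (nat_lit 180251) (nat_lit 10) (.e (nat_lit 573471) (nat_lit 11) (.e (nat_lit 16447) (nat_lit 10) (.e (nat_lit 434231) (nat_lit 23) (.e (nat_lit 532482) (nat_lit 0) .nil)))))) (.g (nat_lit 1) (.e (nat_lit 128970) (nat_lit 0) .nil) .nil))))) (.nd (nat_lit 8) (.nd (nat_lit 9) 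
(.lf (nat_lit 483494) (.g (nat_lit 3232) (.e (nat_lit 6418) (nat_lit 341) (.e (nat_lit 163908) (nat_lit 12) (.e (nat_lit 426286) (nat_lit 10) (.e (nat_lit 434289) (nat_lit 43) (.e (nat_lit 696344) (nat_lit 8) (.e (nat_lit 172115) (nat_lit 10) (.e (nat_lit 434202) (nat_lit 18) .nil))))))) (.g (nat_lit 1) (.e (nat_lit 124039) (nat_lit 0) .nil) .nil))) 
(.lf (nat_lit 484006) (.g (nat_lit 1756) (.e (nat_lit 6722) (nat_lit 362) (.e (nat_lit 180271) (nat_lit 26) (.e (nat_lit 704736) (nat_lit 11) (.e (nat_lit 16465) (nat_lit 13) (.e (nat_lit 483343) (nat_lit 17) .nil))))) (.g (nat_lit 1) (.e (nat_lit 128475) (nat_lit 0) .nil) .nil)))) (.nd (nat_lit 9) 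
(.lf (nat_lit 483750) (.g (nat_lit 1755) (.e (nat_lit 6400) (nat_lit 339) (.e (nat_lit 57411) (nat_lit 12) (.e (nat_lit 336367) (nat_lit 27) (.e (nat_lit 426546) (nat_lit 30) .nil)))) (.g (nat_lit 0) (.e (nat_lit 126494) (nat_lit 0) .nil) .nil))) 
(.lf (nat_lit 484262) (.g (nat_lit 1479) (.e (nat_lit 6806) (nat_lit 365) (.e (nat_lit 1220) (nat_lit 90) (.e (nat_lit 81938) (nat_lit 20) (.e (nat_lit 1886) (nat_lit 127) .nil)))) (.g (nat_lit 0) (.e (nat_lit 129366) (nat_lit 0) .nil) .nil)))))) (.nd (nat_lit 7) (.nd (nat_lit 8) (.nd (nat_lit 9) 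
(.lf (nat_lit 483430) (.g (nat_lit 3033) (.e (nat_lit 6416) (nat_lit 341) (.e (nat_lit 163909) (nat_lit 12) (.e (nat_lit 426140) (nat_lit 3) (.e (nat_lit 204869) (nat_lit 29) (.e (nat_lit 360474) (nat_lit 8) (.e (nat_lit 557094) (nat_lit 12) (.e (nat_lit 163848) (nat_lit 0) .nil))))))) (.g (nat_lit 1) (.e (nat_lit 123417) (nat_lit 0) .nil) .nil))) 
(.lf (nat_lit 483942) (.g (nat_lit 1432) (.e (nat_lit 6720) (nat_lit 361) (.e (nat_lit 172143) (nat_lit 25) (.e (nat_lit 319490) (nat_lit 0) (.e (nat_lit 5771) (nat_lit 316) (.e (nat_lit 172150) (nat_lit 27) (.e (nat_lit 335892) (nat_lit 0) .nil)))))) (.g (nat_lit 1) (.e (nat_lit 127979) (nat_lit 0) .nil) .nil)))) (.nd (nat_lit 9) 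
(.lf (nat_lit 483686) (.g (nat_lit 2294) (.e (nat_lit 6425) (nat_lit 342) (.e (nat_lit 229415) (nat_lit 15) (.e (nat_lit 450563) (nat_lit 0) (.e (nat_lit 6416) (nat_lit 341) (.e (nat_lit 163908) (nat_lit 12) (.e (nat_lit 426281) (nat_lit 10) (.e (nat_lit 434212) (nat_lit 18) .nil))))))) (.g (nat_lit 1) (.e (nat_lit 125743) (nat_lit 0) .nil) .nil))) 
(.lf (nat_lit 484198) (.g (nat_lit 547) (.e (nat_lit 6725) (nat_lit 362) (.e (nat_lit 180271) (nat_lit 26) (.e (nat_lit 704737) (nat_lit 11) .nil))) (.g (nat_lit 0) (.e (nat_lit 129117) (nat_lit 0) .nil) .nil))))) (.nd (nat_lit 8) (.nd (nat_lit 9) 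
(.lf (nat_lit 483558) (.g (nat_lit 5432) (.e (nat_lit 6420) (nat_lit 341) (.e (nat_lit 163908) (nat_lit 12) (.e (nat_lit 426136) (nat_lit 3) (.e (nat_lit 204869) (nat_lit 29) (.e (nat_lit 360475) (nat_lit 8) (.e (nat_lit 557091) (nat_lit 12) (.e (nat_lit 163843) (nat_lit 0) .nil))))))) (.g (nat_lit 1) (.e (nat_lit 124577) (nat_lit 0) .nil) .nil))) 
(.lf (nat_lit 484070) (.g (nat_lit 3470) (.e (nat_lit 6724) (nat_lit 362) (.e (nat_lit 180243) (nat_lit 5) (.e (nat_lit 532567) (nat_lit 16) (.e (nat_lit 401435) (nat_lit 9) (.e (nat_lit 426131) (nat_lit 3) (.e (nat_lit 204816) (nat_lit 17) .nil)))))) (.g (nat_lit 1) (.e (nat_lit 128872) (nat_lit 0) .nil) .nil)))) (.nd (nat_lit 9) 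
(.lf (nat_lit 483814) (.g (nat_lit 2176) (.e (nat_lit 6666) (nat_lit 357) (.e (nat_lit 3090) (nat_lit 191) (.e (nat_lit 483409) (nat_lit 27) (.e (nat_lit 401459) (nat_lit 13) (.e (nat_lit 483342) (nat_lit 17) .nil))))) (.g (nat_lit 0) (.e (nat_lit 127111) (nat_lit 0) .nil) .nil))) 
(.lf (nat_lit 484326) (.g (nat_lit 3216) (.e (nat_lit 8318) (nat_lit 64) (.e (nat_lit 516150) (nat_lit 9) (.e (nat_lit 426131) (nat_lit 3) (.e (nat_lit 204838) (nat_lit 20) (.e (nat_lit 114715) (nat_lit 22) (.e (nat_lit 98048) (nat_lit 21) (.e (nat_lit 164368) (nat_lit 247) .nil))))))) (.g (nat_lit 1) (.e (nat_lit 129785) (nat_lit 0) .nil) .nil)))))))) 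
(.nd (nat_lit 5) (.nd (nat_lit 6) (.nd (nat_lit 7) (.nd (nat_lit 8) (.nd (nat_lit 9) 
(.lf (nat_lit 483350) (.g (nat_lit 2905) (.e (nat_lit 6416) (nat_lit 341) (.e (nat_lit 163867) (nat_lit 2) (.e (nat_lit 196656) (nat_lit 11) (.e (nat_lit 16473) (nat_lit 14) (.e (nat_lit 499456) (nat_lit 27) .nil))))) (.g (nat_lit 0) (.e (nat_lit 123021) (nat_lit 0) .nil) .nil))) 
(.lf (nat_lit 483862) (.g (nat_lit 3035) (.e (nat_lit 6711) (nat_lit 360) (.e (nat_lit 163962) (nat_lit 25) (.e (nat_lit 532535) (nat_lit 9) (.e (nat_lit 336058) (nat_lit 7) (.e (nat_lit 319519) (nat_lit 12) (.e (nat_lit 32773) (nat_lit 5) (.e (nat_lit 1512) (nat_lit 108) (.e (nat_lit 335872) (nat_lit 0) .nil)))))))) (.g (nat_lit 1) (.e (nat_lit 127513) (nat_lit 0) .nil) .nil)))) (.nd (nat_lit 9) 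
(.lf (nat_lit 483606) (.g (nat_lit 1819) (.e (nat_lit 6421) (nat_lit 341) (.e (nat_lit 163915) (nat_lit 12) (.e (nat_lit 426139) (nat_lit 3) (.e (nat_lit 204868) (nat_lit 29) (.e (nat_lit 360473) (nat_lit 8) .nil))))) (.g (nat_lit 0) (.e (nat_lit 125093) (nat_lit 0) .nil) .nil))) 
(.lf (nat_lit 484118) (.g (nat_lit 2075) (.e (nat_lit 6724) (nat_lit 362) (.e (nat_lit 180251) (nat_lit 10) (.e (nat_lit 573469) (nat_lit 11) (.e (nat_lit 16447) (nat_lit 10) (.e (nat_lit 434231) (nat_lit 23) (.e (nat_lit 532481) (nat_lit 0) .nil)))))) (.g (nat_lit 1) (.e (nat_lit 128954) (nat_lit 0) .nil) .nil))))) (.nd (nat_lit 8) (.nd (nat_lit 9) 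
(.lf (nat_lit 483478) (.g (nat_lit 3695) (.e (nat_lit 6418) (nat_lit 341) (.e (nat_lit 163908) (nat_lit 12) (.e (nat_lit 426132) (nat_lit 3) (.e (nat_lit 204869) (nat_lit 29) (.e (nat_lit 360475) (nat_lit 8) (.e (nat_lit 557091) (nat_lit 12) (.e (nat_lit 163847) (nat_lit 0) .nil))))))) (.g (nat_lit 1) (.e (nat_lit 123952) (nat_lit 0) .nil) .nil))) 
(.lf (nat_lit 483990) (.g (nat_lit 2587) (.e (nat_lit 6722) (nat_lit 362) (.e (nat_lit 180250) (nat_lit 10) (.e (nat_lit 573471) (nat_lit 11) (.e (nat_lit 16449) (nat_lit 10) (.e (nat_lit 434233) (nat_lit 23) .nil))))) (.g (nat_lit 0) (.e (nat_lit 128353) (nat_lit 0) .nil) .nil)))) (.nd (nat_lit 9) 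
(.lf (nat_lit 483734) (.g (nat_lit 1152) (.e (nat_lit 6392) (nat_lit 339) (.e (nat_lit 57378) (nat_lit 3) (.e (nat_lit 98335) (nat_lit 18) .nil))) (.g (nat_lit 0) (.e (nat_lit 126473) (nat_lit 0) .nil) .nil))) 
(.lf (nat_lit 484246) (.g (nat_lit 977) (.e (nat_lit 7936) (nat_lit 362) (.e (nat_lit 180271) (nat_lit 26) (.e (nat_lit 704737) (nat_lit 11) (.e (nat_lit 16468) (nat_lit 13) .nil)))) (.g (nat_lit 0) (.e (nat_lit 129321) (nat_lit 0) .nil) .nil)))))) (.nd (nat_lit 7) (.nd (nat_lit 8) (.nd (nat_lit 9) 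
(.lf (nat_lit 483414) (.g (nat_lit 5980) (.e (nat_lit 6416) (nat_lit 341) (.e (nat_lit 163909) (nat_lit 12) (.e (nat_lit 426125) (nat_lit 2) (.e (nat_lit 196666) (nat_lit 13) (.e (nat_lit 65617) (nat_lit 10) (.e (nat_lit 344133) (nat_lit 26) (.e (nat_lit 557091) (nat_lit 12) (.e (nat_lit 163843) (nat_lit 0) .nil)))))))) (.g (nat_lit 1) (.e (nat_lit 123385) (nat_lit 0) .nil) .nil))) 
(.lf (nat_lit 483926) (.g (nat_lit 919) (.e (nat_lit 6719) (nat_lit 361) (.e (nat_lit 172143) (nat_lit 25) (.e (nat_lit 319490) (nat_lit 0) (.e (nat_lit 5771) (nat_lit 316) (.e (nat_lit 172149) (nat_lit 27) (.e (nat_lit 335877) (nat_lit 0) .nil)))))) (.g (nat_lit 1) (.e (nat_lit 127929) (nat_lit 0) .nil) .nil)))) (.nd (nat_lit 9) 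
(.lf (nat_lit 483670) (.g (nat_lit 4714) (.e (nat_lit 6425) (nat_lit 342) (.e (nat_lit 229413) (nat_lit 15) (.e (nat_lit 450601) (nat_lit 21) (.e (nat_lit 696344) (nat_lit 8) (.e (nat_lit 172106) (nat_lit 10) (.e (nat_lit 434209) (nat_lit 18) .nil)))))) (.g (nat_lit 1) (.e (nat_lit 125686) (nat_lit 0) .nil) .nil))) 
(.lf (nat_lit 484182) (.g (nat_lit 2304) (.e (nat_lit 6724) (nat_lit 362) (.e (nat_lit 180271) (nat_lit 26) (.e (nat_lit 704737) (nat_lit 11) (.e (nat_lit 16468) (nat_lit 13) (.e (nat_lit 483343) (nat_lit 17) .nil))))) (.g (nat_lit 1) (.e (nat_lit 129099) (nat_lit 0) .nil) .nil))))) (.nd (nat_lit 8) (.nd (nat_lit 9) 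
(.lf (nat_lit 483542) (.g (nat_lit 904) (.e (nat_lit 6420) (nat_lit 341) (.e (nat_lit 163902) (nat_lit 12) (.e (nat_lit 426273) (nat_lit 10) .nil))) (.g (nat_lit 0) (.e (nat_lit 124477) (nat_lit 0) .nil) .nil))) 
(.lf (nat_lit 484054) (.g (nat_lit 2215) (.e (nat_lit 6724) (nat_lit 362) (.e (nat_lit 180243) (nat_lit 5) (.e (nat_lit 532523) (nat_lit 7) (.e (nat_lit 319504) (nat_lit 10) (.e (nat_lit 5712) (nat_lit 312) (.e (nat_lit 2508) (nat_lit 157) (.e (nat_lit 3249) (nat_lit 197) (.e (nat_lit 532482) (nat_lit 0) .nil)))))))) (.g (nat_lit 1) (.e (nat_lit 128852) (nat_lit 0) .nil) .nil)))) (.nd (nat_lit 9) 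
(.lf (nat_lit 483798) (.g (nat_lit 1563) (.e (nat_lit 6637) (nat_lit 357) (.e (nat_lit 3098) (nat_lit 192) (.e (nat_lit 491537) (nat_lit 2) (.e (nat_lit 90176) (nat_lit 15) .nil)))) (.g (nat_lit 0) (.e (nat_lit 126922) (nat_lit 0) .nil) .nil))) 
(.lf (nat_lit 484310) (.g (nat_lit 4793) (.e (nat_lit 8305) (nat_lit 58) (.e (nat_lit 286761) (nat_lit 13) (.e (nat_lit 393301) (nat_lit 27) (.e (nat_lit 491561) (nat_lit 11) .nil)))) (.g (nat_lit 0) (.e (nat_lit 129753) (nat_lit 0) .nil) .nil))))))) (.nd (nat_lit 6) (.nd (nat_lit 7) (.nd (nat_lit 8) (.nd (nat_lit 9) 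
(.lf (nat_lit 483382) (.g (nat_lit 4489) (.e (nat_lit 6416) (nat_lit 341) (.e (nat_lit 163908) (nat_lit 12) (.e (nat_lit 426132) (nat_lit 3) (.e (nat_lit 204869) (nat_lit 29) (.e (nat_lit 360475) (nat_lit 8) (.e (nat_lit 557091) (nat_lit 12) (.e (nat_lit 163843) (nat_lit 0) .nil))))))) (.g (nat_lit 1) (.e (nat_lit 123234) (nat_lit 0) .nil) .nil))) 
(.lf (nat_lit 483894) (.g (nat_lit 2454) (.e (nat_lit 6713) (nat_lit 360) (.e (nat_lit 163962) (nat_lit 25) (.e (nat_lit 532535) (nat_lit 9) (.e (nat_lit 336061) (nat_lit 7) (.e (nat_lit 319517) (nat_lit 12) .nil))))) (.g (nat_lit 0) (.e (nat_lit 127697) (nat_lit 0) .nil) .nil)))) (.nd (nat_lit 9) 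
(.lf (nat_lit 483638) (.g (nat_lit 2751) (.e (nat_lit 6425) (nat_lit 342) (.e (nat_lit 229399) (nat_lit 12) (.e (nat_lit 426140) (nat_lit 3) (.e (nat_lit 204869) (nat_lit 29) (.e (nat_lit 360474) (nat_lit 8) (.e (nat_lit 557094) (nat_lit 12) (.e (nat_lit 163840) (nat_lit 0) .nil))))))) (.g (nat_lit 1) (.e (nat_lit 125553) (nat_lit 0) .nil) .nil))) 
(.lf (nat_lit 484150) (.g (nat_lit 2877) (.e (nat_lit 6724) (nat_lit 362) (.e (nat_lit 180252) (nat_lit 10) (.e (nat_lit 573470) (nat_lit 11) (.e (nat_lit 16446) (nat_lit 9) (.e (nat_lit 426133) (nat_lit 3) (.e (nat_lit 204816) (nat_lit 17) .nil)))))) (.g (nat_lit 1) (.e (nat_lit 128999) (nat_lit 0) .nil) .nil))))) (.nd (nat_lit 8) (.nd (nat_lit 9) 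
(.lf (nat_lit 483510) (.g (nat_lit 4004) (.e (nat_lit 6420) (nat_lit 341) (.e (nat_lit 163843) (nat_lit 0) (.e (nat_lit 7366) (nat_lit 388) (.e (nat_lit 2663) (nat_lit 167) (.e (nat_lit 196666) (nat_lit 13) (.e (nat_lit 65617) (nat_lit 10) (.e (nat_lit 344130) (nat_lit 26) (.e (nat_lit 557089) (nat_lit 12) (.e (nat_lit 163844) (nat_lit 0) .nil))))))))) (.g (nat_lit 1) (.e (nat_lit 124421) (nat_lit 0) .nil) .nil))) 
(.lf (nat_lit 484022) (.g (nat_lit 2055) (.e (nat_lit 6722) (nat_lit 362) (.e (nat_lit 180271) (nat_lit 26) (.e (nat_lit 704737) (nat_lit 11) (.e (nat_lit 16466) (nat_lit 13) (.e (nat_lit 483343) (nat_lit 17) .nil))))) (.g (nat_lit 1) (.e (nat_lit 128498) (nat_lit 0) .nil) .nil)))) (.nd (nat_lit 9) 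
(.lf (nat_lit 483766) (.g (nat_lit 1950) (.e (nat_lit 7936) (nat_lit 343) (.e (nat_lit 1255) (nat_lit 92) (.e (nat_lit 98373) (nat_lit 29) (.e (nat_lit 450587) (nat_lit 10) (.e (nat_lit 573473) (nat_lit 12) .nil))))) (.g (nat_lit 0) (.e (nat_lit 126524) (nat_lit 0) .nil) .nil))) 
(.lf (nat_lit 484278) (.g (nat_lit 637) (.e (nat_lit 6828) (nat_lit 367) (.e (nat_lit 57427) (nat_lit 15) (.e (nat_lit 360450) (nat_lit 0) .nil))) (.g (nat_lit 0) (.e (nat_lit 129537) (nat_lit 0) .nil) .nil)))))) (.nd (nat_lit 7) (.nd (nat_lit 8) (.nd (nat_lit 9) 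
(.lf (nat_lit 483446) (.g (nat_lit 4620) (.e (nat_lit 6416) (nat_lit 341) (.e (nat_lit 163941) (nat_lit 19) (.e (nat_lit 483341) (nat_lit 9) (.e (nat_lit 426179) (nat_lit 8) .nil)))) (.g (nat_lit 0) (.e (nat_lit 123873) (nat_lit 0) .nil) .nil))) 
(.lf (nat_lit 483958) (.g (nat_lit 2565) (.e (nat_lit 7936) (nat_lit 361) (.e (nat_lit 172150) (nat_lit 27) (.e (nat_lit 336231) (nat_lit 14) (.e (nat_lit 401458) (nat_lit 13) (.e (nat_lit 483355) (nat_lit 17) .nil))))) (.g (nat_lit 0) (.e (nat_lit 128032) (nat_lit 0) .nil) .nil)))) (.nd (nat_lit 9) 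
(.lf (nat_lit 483702) (.g (nat_lit 1958) (.e (nat_lit 6426) (nat_lit 342) (.e (nat_lit 229409) (nat_lit 13) (.e (nat_lit 434231) (nat_lit 23) (.e (nat_lit 532549) (nat_lit 12) (.e (nat_lit 360473) (nat_lit 8) (.e (nat_lit 557094) (nat_lit 12) (.e (nat_lit 163840) (nat_lit 0) .nil))))))) (.g (nat_lit 1) (.e (nat_lit 125852) (nat_lit 0) .nil) .nil))) 
(.lf (nat_lit 484214) (.g (nat_lit 2995) (.e (nat_lit 7936) (nat_lit 362) (.e (nat_lit 180244) (nat_lit 5) (.e (nat_lit 532523) (nat_lit 7) (.e (nat_lit 319538) (nat_lit 19) (.e (nat_lit 311315) (nat_lit 3) .nil))))) (.g (nat_lit 0) (.e (nat_lit 129192) (nat_lit 0) .nil) .nil))))) (.nd (nat_lit 8) (.nd (nat_lit 9) 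
(.lf (nat_lit 483574) (.g (nat_lit 4441) (.e (nat_lit 6421) (nat_lit 341) (.e (nat_lit 163900) (nat_lit 12) (.e (nat_lit 426125) (nat_lit 2) (.e (nat_lit 196666) (nat_lit 13) (.e (nat_lit 65617) (nat_lit 10) (.e (nat_lit 344133) (nat_lit 26) (.e (nat_lit 557089) (nat_lit 12) (.e (nat_lit 163844) (nat_lit 0) .nil)))))))) (.g (nat_lit 1) (.e (nat_lit 124975) (nat_lit 0) .nil) .nil))) 
(.lf (nat_lit 484086) (.g (nat_lit 1745) (.e (nat_lit 6724) (nat_lit 362) (.e (nat_lit 180245) (nat_lit 5) (.e (nat_lit 532523) (nat_lit 7) (.e (nat_lit 319505) (nat_lit 10) (.e (nat_lit 5712) (nat_lit 312) .nil))))) (.g (nat_lit 0) (.e (nat_lit 128892) (nat_lit 0) .nil) .nil)))) (.nd (nat_lit 9) 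
(.lf (nat_lit 483830) (.g (nat_lit 4020) (.e (nat_lit 6680) (nat_lit 357) (.e (nat_lit 3067) (nat_lit 190) (.e (nat_lit 475183) (nat_lit 29) (.e (nat_lit 557100) (nat_lit 13) (.e (nat_lit 172106) (nat_lit 10) (.e (nat_lit 434231) (nat_lit 23) (.e (nat_lit 532490) (nat_lit 0) .nil))))))) (.g (nat_lit 1) (.e (nat_lit 127252) (nat_lit 0) .nil) .nil))) 
(.lf (nat_lit 484342) (.g (nat_lit 2979) (.e (nat_lit 8324) (nat_lit 69) (.e (nat_lit 557105) (nat_lit 14) (.e (nat_lit 180252) (nat_lit 10) (.e (nat_lit 573489) (nat_lit 14) (.e (nat_lit 73755) (nat_lit 8) (.e (nat_lit 557090) (nat_lit 12) (.e (nat_lit 164004) (nat_lit 41) (.e (nat_lit 663582) (nat_lit 10) .nil)))))))) (.g (nat_lit 1) (.e (nat_lit 129834) (nat_lit 0) .nil) .nil))))))))) 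
(.nd (nat_lit 4) (.nd (nat_lit 5) (.nd (nat_lit 6) (.nd (nat_lit 7) (.nd (nat_lit 8) 
(.nd (nat_lit 9) 
(.lf (nat_lit 483342) (.g (nat_lit 4424) (.e (nat_lit 6255) (nat_lit 337) (.e (nat_lit 2725) (nat_lit 172) (.e (nat_lit 237594) (nat_lit 3) (.e (nat_lit 204869) (nat_lit 29) (.e (nat_lit 360475) (nat_lit 8) (.e (nat_lit 557091) (nat_lit 12) (.e (nat_lit 163847) (nat_lit 0) .nil))))))) (.g (nat_lit 1) (.e (nat_lit 122553) (nat_lit 0) .nil) .nil))) 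
(.lf (nat_lit 483854) (.g (nat_lit 2513) (.e (nat_lit 7936) (nat_lit 357) (.e (nat_lit 3063) (nat_lit 190) (.e (nat_lit 475185) (nat_lit 29) (.e (nat_lit 557109) (nat_lit 15) (.e (nat_lit 188452) (nat_lit 23) .nil))))) (.g (nat_lit 0) (.e (nat_lit 127417) (nat_lit 0) .nil) .nil)))) (.nd (nat_lit 9) 
(.lf (nat_lit 483598) (.g (nat_lit 5950) (.e (nat_lit 6421) (nat_lit 341) (.e (nat_lit 163913) (nat_lit 12) (.e (nat_lit 426129) (nat_lit 3) (.e (nat_lit 204869) (nat_lit 29) (.e (nat_lit 360474) (nat_lit 8) (.e (nat_lit 557089) (nat_lit 12) (.e (nat_lit 163843) (nat_lit 0) .nil))))))) (.g (nat_lit 1) (.e (nat_lit 125063) (nat_lit 0) .nil) .nil))) 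
(.lf (nat_lit 484110) (.g (nat_lit 2518) (.e (nat_lit 6724) (nat_lit 362) (.e (nat_lit 180250) (nat_lit 10) (.e (nat_lit 573471) (nat_lit 11) (.e (nat_lit 16450) (nat_lit 11) (.e (nat_lit 458789) (nat_lit 23) (.e (nat_lit 532481) (nat_lit 0) .nil)))))) (.g (nat_lit 1) (.e (nat_lit 128935) (nat_lit 0) .nil) .nil))))) (.nd (nat_lit 8) (.nd (nat_lit 9) 
(.lf (nat_lit 483470) (.g (nat_lit 2976) (.e (nat_lit 6418) (nat_lit 341) (.e (nat_lit 163908) (nat_lit 12) (.e (nat_lit 426132) (nat_lit 3) (.e (nat_lit 204868) (nat_lit 29) (.e (nat_lit 360473) (nat_lit 8) (.e (nat_lit 557091) (nat_lit 12) (.e (nat_lit 163847) (nat_lit 0) .nil))))))) (.g (nat_lit 1) (.e (nat_lit 123944) (nat_lit 0) .nil) .nil))) 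
(.lf (nat_lit 483982) (.g (nat_lit 2382) (.e (nat_lit 6722) (nat_lit 362) (.e (nat_lit 180245) (nat_lit 5) (.e (nat_lit 532523) (nat_lit 7) (.e (nat_lit 319504) (nat_lit 10) (.e (nat_lit 5714) (nat_lit 312) (.e (nat_lit 2682) (nat_lit 168) (.e (nat_lit 204815) (nat_lit 17) .nil))))))) (.g (nat_lit 1) (.e (nat_lit 128297) (nat_lit 0) .nil) .nil)))) (.nd (nat_lit 9) 
(.lf (nat_lit 483726) (.g (nat_lit 1806) (.e (nat_lit 6391) (nat_lit 339) (.e (nat_lit 57378) (nat_lit 3) (.e (nat_lit 98333) (nat_lit 18) (.e (nat_lit 164325) (nat_lit 230) .nil)))) (.g (nat_lit 0) (.e (nat_lit 126465) (nat_lit 0) .nil) .nil))) 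
(.lf (nat_lit 484238) (.g (nat_lit 841) (.e (nat_lit 7936) (nat_lit 362) (.e (nat_lit 180271) (nat_lit 26) (.e (nat_lit 704737) (nat_lit 11) (.e (nat_lit 16439) (nat_lit 9) .nil)))) (.g (nat_lit 0) (.e (nat_lit 129312) (nat_lit 0) .nil) .nil)))))) (.nd (nat_lit 7) (.nd (nat_lit 8) (.nd (nat_lit 9) 
(.lf (nat_lit 483406) (.g (nat_lit 5232) (.e (nat_lit 6416) (nat_lit 341) (.e (nat_lit 163909) (nat_lit 12) (.e (nat_lit 426125) (nat_lit 2) (.e (nat_lit 196666) (nat_lit 13) (.e (nat_lit 65617) (nat_lit 10) (.e (nat_lit 344130) (nat_lit 26) (.e (nat_lit 557090) (nat_lit 12) (.e (nat_lit 163847) (nat_lit 0) .nil)))))))) (.g (nat_lit 1) (.e (nat_lit 123377) (nat_lit 0) .nil) .nil))) 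
(.lf (nat_lit 483918) (.g (nat_lit 2099) (.e (nat_lit 6718) (nat_lit 361) (.e (nat_lit 172144) (nat_lit 26) (.e (nat_lit 327700) (nat_lit 8) (.e (nat_lit 303145) (nat_lit 13) (.e (nat_lit 483345) (nat_lit 17) .nil))))) (.g (nat_lit 1) (.e (nat_lit 127891) (nat_lit 0) .nil) .nil)))) (.nd (nat_lit 9) 
(.lf (nat_lit 483662) (.g (nat_lit 1884) (.e (nat_lit 6425) (nat_lit 342) (.e (nat_lit 229412) (nat_lit 14) (.e (nat_lit 442385) (nat_lit 11) (.e (nat_lit 336230) (nat_lit 14) (.e (nat_lit 401446) (nat_lit 10) (.e (nat_lit 434212) (nat_lit 18) .nil)))))) (.g (nat_lit 1) (.e (nat_lit 125627) (nat_lit 0) .nil) .nil))) 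
(.lf (nat_lit 484174) (.g (nat_lit 1954) (.e (nat_lit 6724) (nat_lit 362) (.e (nat_lit 180271) (nat_lit 26) (.e (nat_lit 704737) (nat_lit 11) (.e (nat_lit 16392) (nat_lit 0) (.e (nat_lit 7936) (nat_lit 390) .nil))))) (.g (nat_lit 0) (.e (nat_lit 129089) (nat_lit 0) .nil) .nil))))) (.nd (nat_lit 8) (.nd (nat_lit 9) 
(.lf (nat_lit 483534) (.g (nat_lit 934) (.e (nat_lit 6420) (nat_lit 341) (.e (nat_lit 163902) (nat_lit 12) (.e (nat_lit 426231) (nat_lit 9) .nil))) (.g (nat_lit 0) (.e (nat_lit 124466) (nat_lit 0) .nil) .nil))) 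
(.lf (nat_lit 484046) (.g (nat_lit 1790) (.e (nat_lit 6722) (nat_lit 362) (.e (nat_lit 180272) (nat_lit 26) (.e (nat_lit 704737) (nat_lit 11) (.e (nat_lit 16444) (nat_lit 9) (.e (nat_lit 426503) (nat_lit 27) (.e (nat_lit 335895) (nat_lit 0) .nil)))))) (.g (nat_lit 1) (.e (nat_lit 128559) (nat_lit 0) .nil) .nil)))) (.nd (nat_lit 9) 
(.lf (nat_lit 483790) (.g (nat_lit 2222) (.e (nat_lit 6618) (nat_lit 357) (.e (nat_lit 3098) (nat_lit 192) (.e (nat_lit 491537) (nat_lit 2) (.e (nat_lit 90176) (nat_lit 15) (.e (nat_lit 188447) (nat_lit 22) .nil))))) (.g (nat_lit 0) (.e (nat_lit 126830) (nat_lit 0) .nil) .nil))) 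
(.lf (nat_lit 484302) (.g (nat_lit 2531) (.e (nat_lit 8305) (nat_lit 58) (.e (nat_lit 286759) (nat_lit 12) (.e (nat_lit 385106) (nat_lit 50) (.e (nat_lit 786481) (nat_lit 30) (.e (nat_lit 360449) (nat_lit 0) .nil))))) (.g (nat_lit 0) (.e (nat_lit 129745) (nat_lit 0) .nil) .nil))))))) (.nd (nat_lit 6) (.nd (nat_lit 7) (.nd (nat_lit 8) (.nd (nat_lit 9) 
(.lf (nat_lit 483374) (.g (nat_lit 831) (.e (nat_lit 6416) (nat_lit 341) (.e (nat_lit 163903) (nat_lit 12) (.e (nat_lit 426131) (nat_lit 3) .nil))) (.g (nat_lit 0) (.e (nat_lit 123111) (nat_lit 0) .nil) .nil))) 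
(.lf (nat_lit 483886) (.g (nat_lit 1472) (.e (nat_lit 6712) (nat_lit 360) (.e (nat_lit 163979) (nat_lit 30) (.e (nat_lit 573482) (nat_lit 13) (.e (nat_lit 65563) (nat_lit 1) .nil)))) (.g (nat_lit 0) (.e (nat_lit 127635) (nat_lit 0) .nil) .nil)))) (.nd (nat_lit 9) 
(.lf (nat_lit 483630) (.g (nat_lit 4076) (.e (nat_lit 6421) (nat_lit 341) (.e (nat_lit 163941) (nat_lit 19) (.e (nat_lit 483341) (nat_lit 9) (.e (nat_lit 426296) (nat_lit 11) .nil)))) (.g (nat_lit 0) (.e (nat_lit 125490) (nat_lit 0) .nil) .nil))) 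
(.lf (nat_lit 484142) (.g (nat_lit 2699) (.e (nat_lit 6724) (nat_lit 362) (.e (nat_lit 180252) (nat_lit 10) (.e (nat_lit 573451) (nat_lit 9) (.e (nat_lit 430) (nat_lit 32) (.e (nat_lit 426298) (nat_lit 11) .nil))))) (.g (nat_lit 0) (.e (nat_lit 128984) (nat_lit 0) .nil) .nil))))) (.nd (nat_lit 8) (.nd (nat_lit 9) 
(.lf (nat_lit 483502) (.g (nat_lit 2887) (.e (nat_lit 6418) (nat_lit 341) (.e (nat_lit 163917) (nat_lit 13) (.e (nat_lit 434231) (nat_lit 23) (.e (nat_lit 532550) (nat_lit 12) (.e (nat_lit 360474) (nat_lit 8) (.e (nat_lit 557094) (nat_lit 12) (.e (nat_lit 163847) (nat_lit 0) .nil))))))) (.g (nat_lit 1) (.e (nat_lit 124125) (nat_lit 0) .nil) .nil))) 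
(.lf (nat_lit 484014) (.g (nat_lit 1830) (.e (nat_lit 6722) (nat_lit 362) (.e (nat_lit 180271) (nat_lit 26) (.e (nat_lit 704737) (nat_lit 11) (.e (nat_lit 16446) (nat_lit 9) (.e (nat_lit 426500) (nat_lit 27) .nil))))) (.g (nat_lit 0) (.e (nat_lit 128487) (nat_lit 0) .nil) .nil)))) (.nd (nat_lit 9) 
(.lf (nat_lit 483758) (.g (nat_lit 1177) (.e (nat_lit 6436) (nat_lit 343) (.e (nat_lit 1256) (nat_lit 92) (.e (nat_lit 98350) (nat_lit 24) (.e (nat_lit 409643) (nat_lit 18) .nil)))) (.g (nat_lit 0) (.e (nat_lit 126507) (nat_lit 0) .nil) .nil))) 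
(.lf (nat_lit 484270) (.g (nat_lit 4613) (.e (nat_lit 6841) (nat_lit 369) (.e (nat_lit 163860) (nat_lit 1) (.e (nat_lit 164329) (nat_lit 230) (.e (nat_lit 163902) (nat_lit 12) (.e (nat_lit 426438) (nat_lit 18) (.e (nat_lit 98373) (nat_lit 29) (.e (nat_lit 450563) (nat_lit 0) .nil))))))) (.g (nat_lit 1) (.e (nat_lit 129482) (nat_lit 0) .nil) .nil)))))) 
(.nd (nat_lit 7) (.nd (nat_lit 8) (.nd (nat_lit 9) 
(.lf (nat_lit 483438) (.g (nat_lit 3987) (.e (nat_lit 6416) (nat_lit 341) (.e (nat_lit 163916) (nat_lit 13) (.e (nat_lit 434231) (nat_lit 23) (.e (nat_lit 532550) (nat_lit 12) (.e (nat_lit 360475) (nat_lit 8) (.e (nat_lit 557089) (nat_lit 12) (.e (nat_lit 163844) (nat_lit 0) .nil))))))) (.g (nat_lit 1) (.e (nat_lit 123453) (nat_lit 0) .nil) .nil))) 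
(.lf (nat_lit 483950) (.g (nat_lit 2129) (.e (nat_lit 6720) (nat_lit 361) (.e (nat_lit 172150) (nat_lit 27) (.e (nat_lit 336231) (nat_lit 14) (.e (nat_lit 401456) (nat_lit 13) (.e (nat_lit 483343) (nat_lit 17) .nil))))) (.g (nat_lit 1) (.e (nat_lit 128000) (nat_lit 0) .nil) .nil)))) (.nd (nat_lit 9) 
(.lf (nat_lit 483694) (.g (nat_lit 3564) (.e (nat_lit 6426) (nat_lit 342) (.e (nat_lit 229399) (nat_lit 12) (.e (nat_lit 426125) (nat_lit 2) (.e (nat_lit 196666) (nat_lit 13) (.e (nat_lit 65617) (nat_lit 10) (.e (nat_lit 344132) (nat_lit 26) (.e (nat_lit 557094) (nat_lit 12) (.e (nat_lit 163852) (nat_lit 0) .nil)))))))) (.g (nat_lit 1) (.e (nat_lit 125822) (nat_lit 0) .nil) .nil))) 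
(.lf (nat_lit 484206) (.g (nat_lit 672) (.e (nat_lit 7936) (nat_lit 362) (.e (nat_lit 180243) (nat_lit 5) (.e (nat_lit 532489) (nat_lit 0) (.e (nat_lit 7936) (nat_lit 362) .nil)))) (.g (nat_lit 0) (.e (nat_lit 129172) (nat_lit 0) .nil) .nil))))) (.nd (nat_lit 8) (.nd (nat_lit 9) 
(.lf (nat_lit 483566) (.g (nat_lit 2841) (.e (nat_lit 6420) (nat_lit 341) (.e (nat_lit 163916) (nat_lit 13) (.e (nat_lit 434231) (nat_lit 23) (.e (nat_lit 532550) (nat_lit 12) (.e (nat_lit 360474) (nat_lit 8) (.e (nat_lit 557094) (nat_lit 12) (.e (nat_lit 163849) (nat_lit 0) .nil))))))) (.g (nat_lit 1) (.e (nat_lit 124685) (nat_lit 0) .nil) .nil))) 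
(.lf (nat_lit 484078) (.g (nat_lit 2454) (.e (nat_lit 6724) (nat_lit 362) (.e (nat_lit 180243) (nat_lit 5) (.e (nat_lit 532568) (nat_lit 16) (.e (nat_lit 401437) (nat_lit 9) (.e (nat_lit 426131) (nat_lit 3) .nil))))) (.g (nat_lit 0) (.e (nat_lit 128880) (nat_lit 0) .nil) .nil)))) (.nd (nat_lit 9) 
(.lf (nat_lit 483822) (.g (nat_lit 1561) (.e (nat_lit 6674) (nat_lit 357) (.e (nat_lit 2941) (nat_lit 184) (.e (nat_lit 426532) (nat_lit 28) (.e (nat_lit 344069) (nat_lit 0) (.e (nat_lit 3090) (nat_lit 191) (.e (nat_lit 483354) (nat_lit 17) .nil)))))) (.g (nat_lit 1) (.e (nat_lit 127187) (nat_lit 0) .nil) .nil))) 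
(.lf (nat_lit 484334) (.g (nat_lit 2464) (.e (nat_lit 8320) (nat_lit 64) (.e (nat_lit 516120) (nat_lit 1) (.e (nat_lit 164330) (nat_lit 230) (.e (nat_lit 163936) (nat_lit 18) (.e (nat_lit 475179) (nat_lit 24) .nil))))) (.g (nat_lit 0) (.e (nat_lit 129819) (nat_lit 0) .nil) .nil)))))))) (.nd (nat_lit 5) (.nd (nat_lit 6) (.nd (nat_lit 7) (.nd (nat_lit 8) (.nd (nat_lit 9) 
(.lf (nat_lit 483358) (.g (nat_lit 4163) (.e (nat_lit 6416) (nat_lit 341) (.e (nat_lit 163900) (nat_lit 12) (.e (nat_lit 426125) (nat_lit 2) (.e (nat_lit 196666) (nat_lit 13) (.e (nat_lit 65617) (nat_lit 10) (.e (nat_lit 344133) (nat_lit 26) (.e (nat_lit 557089) (nat_lit 12) (.e (nat_lit 163844) (nat_lit 0) .nil)))))))) (.g (nat_lit 1) (.e (nat_lit 123045) (nat_lit 0) .nil) .nil))) 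
(.lf (nat_lit 483870) (.g (nat_lit 2488) (.e (nat_lit 6711) (nat_lit 360) (.e (nat_lit 163962) (nat_lit 25) (.e (nat_lit 532535) (nat_lit 9) (.e (nat_lit 336061) (nat_lit 7) (.e (nat_lit 319519) (nat_lit 12) (.e (nat_lit 32773) (nat_lit 5) (.e (nat_lit 1512) (nat_lit 108) (.e (nat_lit 335874) (nat_lit 0) .nil)))))))) (.g (nat_lit 1) (.e (nat_lit 127522) (nat_lit 0) .nil) .nil)))) (.nd (nat_lit 9) 
(.lf (nat_lit 483614) (.g (nat_lit 4302) (.e (nat_lit 6421) (nat_lit 341) (.e (nat_lit 163916) (nat_lit 13) (.e (nat_lit 434231) (nat_lit 23) (.e (nat_lit 532550) (nat_lit 12) (.e (nat_lit 360475) (nat_lit 8) (.e (nat_lit 557089) (nat_lit 12) (.e (nat_lit 163844) (nat_lit 0) .nil))))))) (.g (nat_lit 1) (.e (nat_lit 125136) (nat_lit 0) .nil) .nil))) 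
(.lf (nat_lit 484126) (.g (nat_lit 2391) (.e (nat_lit 6724) (nat_lit 362) (.e (nat_lit 180251) (nat_lit 10) (.e (nat_lit 573470) (nat_lit 11) (.e (nat_lit 16446) (nat_lit 9) (.e (nat_lit 426133) (nat_lit 3) (.e (nat_lit 204816) (nat_lit 17) .nil)))))) (.g (nat_lit 1) (.e (nat_lit 128962) (nat_lit 0) .nil) .nil))))) (.nd (nat_lit 8) (.nd (nat_lit 9) 
(.lf (nat_lit 483486) (.g (nat_lit 3774) (.e (nat_lit 6418) (nat_lit 341) (.e (nat_lit 163908) (nat_lit 12) (.e (nat_lit 426285) (nat_lit 10) (.e (nat_lit 434289) (nat_lit 43) (.e (nat_lit 696344) (nat_lit 8) (.e (nat_lit 172106) (nat_lit 10) (.e (nat_lit 434202) (nat_lit 18) .nil))))))) (.g (nat_lit 1) (.e (nat_lit 123982) (nat_lit 0) .nil) .nil))) 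
(.lf (nat_lit 483998) (.g (nat_lit 664) (.e (nat_lit 6722) (nat_lit 362) (.e (nat_lit 180252) (nat_lit 10) (.e (nat_lit 573469) (nat_lit 11) .nil))) (.g (nat_lit 0) (.e (nat_lit 128400) (nat_lit 0) .nil) .nil)))) (.nd (nat_lit 9) 
(.lf (nat_lit 483742) (.g (nat_lit 2063) (.e (nat_lit 6398) (nat_lit 339) (.e (nat_lit 57379) (nat_lit 3) (.e (nat_lit 98334) (nat_lit 18) (.e (nat_lit 164330) (nat_lit 230) .nil)))) (.g (nat_lit 0) (.e (nat_lit 126484) (nat_lit 0) .nil) .nil))) 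
(.lf (nat_lit 484254) (.g (nat_lit 1449) (.e (nat_lit 7936) (nat_lit 362) (.e (nat_lit 180271) (nat_lit 26) (.e (nat_lit 704738) (nat_lit 11) (.e (nat_lit 16464) (nat_lit 13) (.e (nat_lit 483356) (nat_lit 17) .nil))))) (.g (nat_lit 0) (.e (nat_lit 129331) (nat_lit 0) .nil) .nil)))))) (.nd (nat_lit 7) (.nd (nat_lit 8) (.nd (nat_lit 9) 
(.lf (nat_lit 483422) (.g (nat_lit 2934) (.e (nat_lit 6416) (nat_lit 341) (.e (nat_lit 163909) (nat_lit 12) (.e (nat_lit 426140) (nat_lit 3) (.e (nat_lit 204868) (nat_lit 29) (.e (nat_lit 360473) (nat_lit 8) (.e (nat_lit 557093) (nat_lit 12) (.e (nat_lit 163848) (nat_lit 0) .nil))))))) (.g (nat_lit 1) (.e (nat_lit 123409) (nat_lit 0) .nil) .nil))) 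
(.lf (nat_lit 483934) (.g (nat_lit 2583) (.e (nat_lit 6719) (nat_lit 361) (.e (nat_lit 172150) (nat_lit 27) (.e (nat_lit 336229) (nat_lit 14) (.e (nat_lit 401438) (nat_lit 9) (.e (nat_lit 426530) (nat_lit 27) (.e (nat_lit 335872) (nat_lit 0) .nil)))))) (.g (nat_lit 1) (.e (nat_lit 127964) (nat_lit 0) .nil) .nil)))) (.nd (nat_lit 9) 
(.lf (nat_lit 483678) (.g (nat_lit 1828) (.e (nat_lit 6425) (nat_lit 342) (.e (nat_lit 229415) (nat_lit 15) (.e (nat_lit 450563) (nat_lit 0) (.e (nat_lit 6250) (nat_lit 337) .nil)))) (.g (nat_lit 0) (.e (nat_lit 125719) (nat_lit 0) .nil) .nil))) 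
(.lf (nat_lit 484190) (.g (nat_lit 2746) (.e (nat_lit 6724) (nat_lit 362) (.e (nat_lit 180271) (nat_lit 26) (.e (nat_lit 704738) (nat_lit 11) (.e (nat_lit 16439) (nat_lit 9) (.e (nat_lit 426499) (nat_lit 27) (.e (nat_lit 335892) (nat_lit 0) .nil)))))) (.g (nat_lit 1) (.e (nat_lit 129108) (nat_lit 0) .nil) .nil))))) (.nd (nat_lit 8) (.nd (nat_lit 9) 
(.lf (nat_lit 483550) (.g (nat_lit 3236) (.e (nat_lit 6420) (nat_lit 341) (.e (nat_lit 163908) (nat_lit 12) (.e (nat_lit 426132) (nat_lit 3) (.e (nat_lit 204869) (nat_lit 29) (.e (nat_lit 360474) (nat_lit 8) (.e (nat_lit 557093) (nat_lit 12) (.e (nat_lit 163849) (nat_lit 0) .nil))))))) (.g (nat_lit 1) (.e (nat_lit 124569) (nat_lit 0) .nil) .nil))) 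
(.lf (nat_lit 484062) (.g (nat_lit 1985) (.e (nat_lit 6724) (nat_lit 362) (.e (nat_lit 180243) (nat_lit 5) (.e (nat_lit 532562) (nat_lit 15) (.e (nat_lit 385105) (nat_lit 50) (.e (nat_lit 794368) (nat_lit 3) (.e (nat_lit 204815) (nat_lit 17) .nil)))))) (.g (nat_lit 1) (.e (nat_lit 128863) (nat_lit 0) .nil) .nil)))) (.nd (nat_lit 9) 
(.lf (nat_lit 483806) (.g (nat_lit 2009) (.e (nat_lit 6664) (nat_lit 357) (.e (nat_lit 3062) (nat_lit 190) (.e (nat_lit 475185) (nat_lit 29) (.e (nat_lit 557108) (nat_lit 15) .nil)))) (.g (nat_lit 0) (.e (nat_lit 127059) (nat_lit 0) .nil) .nil))) 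
(.lf (nat_lit 484318) (.g (nat_lit 3071) (.e (nat_lit 8318) (nat_lit 64) (.e (nat_lit 516115) (nat_lit 1) (.e (nat_lit 164325) (nat_lit 230) (.e (nat_lit 163903) (nat_lit 12) (.e (nat_lit 426568) (nat_lit 34) .nil))))) (.g (nat_lit 0) (.e (nat_lit 129775) (nat_lit 0) .nil) .nil))))))) (.nd (nat_lit 6) (.nd (nat_lit 7) (.nd (nat_lit 8) (.nd (nat_lit 9) 
(.lf (nat_lit 483390) (.g (nat_lit 4543) (.e (nat_lit 6416) (nat_lit 341) (.e (nat_lit 163908) (nat_lit 12) (.e (nat_lit 426136) (nat_lit 3) (.e (nat_lit 204869) (nat_lit 29) (.e (nat_lit 360475) (nat_lit 8) (.e (nat_lit 557091) (nat_lit 12) (.e (nat_lit 163847) (nat_lit 0) .nil))))))) (.g (nat_lit 1) (.e (nat_lit 123242) (nat_lit 0) .nil) .nil))) 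
(.lf (nat_lit 483902) (.g (nat_lit 1438) (.e (nat_lit 7936) (nat_lit 360) (.e (nat_lit 163962) (nat_lit 25) (.e (nat_lit 532535) (nat_lit 9) (.e (nat_lit 336176) (nat_lit 10) (.e (nat_lit 344130) (nat_lit 26) .nil))))) (.g (nat_lit 0) (.e (nat_lit 127751) (nat_lit 0) .nil) .nil)))) (.nd (nat_lit 9) 
(.lf (nat_lit 483646) (.g (nat_lit 5258) (.e (nat_lit 6425) (nat_lit 342) (.e (nat_lit 229406) (nat_lit 12) (.e (nat_lit 426139) (nat_lit 3) (.e (nat_lit 204869) (nat_lit 29) (.e (nat_lit 360474) (nat_lit 8) (.e (nat_lit 557089) (nat_lit 12) (.e (nat_lit 163850) (nat_lit 0) .nil))))))) (.g (nat_lit 1) (.e (nat_lit 125577) (nat_lit 0) .nil) .nil))) 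
(.lf (nat_lit 484158) (.g (nat_lit 2609) (.e (nat_lit 6724) (nat_lit 362) (.e (nat_lit 180252) (nat_lit 10) (.e (nat_lit 573471) (nat_lit 11) (.e (nat_lit 16439) (nat_lit 9) (.e (nat_lit 426132) (nat_lit 3) (.e (nat_lit 204816) (nat_lit 17) .nil)))))) (.g (nat_lit 1) (.e (nat_lit 129007) (nat_lit 0) .nil) .nil))))) (.nd (nat_lit 8) (.nd (nat_lit 9) 
(.lf (nat_lit 483518) (.g (nat_lit 1672) (.e (nat_lit 6420) (nat_lit 341) (.e (nat_lit 163867) (nat_lit 2) (.e (nat_lit 196656) (nat_lit 11) (.e (nat_lit 16425) (nat_lit 7) .nil)))) (.g (nat_lit 0) (.e (nat_lit 124442) (nat_lit 0) .nil) .nil))) 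
(.lf (nat_lit 484030) (.g (nat_lit 2196) (.e (nat_lit 6722) (nat_lit 362) (.e (nat_lit 180271) (nat_lit 26) (.e (nat_lit 704738) (nat_lit 11) (.e (nat_lit 16446) (nat_lit 9) (.e (nat_lit 426500) (nat_lit 27) (.e (nat_lit 335892) (nat_lit 0) .nil)))))) (.g (nat_lit 1) (.e (nat_lit 128513) (nat_lit 0) .nil) .nil)))) (.nd (nat_lit 9) 
(.lf (nat_lit 483774) (.g (nat_lit 2046) (.e (nat_lit 7936) (nat_lit 347) (.e (nat_lit 65569) (nat_lit 3) (.e (nat_lit 98350) (nat_lit 24) (.e (nat_lit 409643) (nat_lit 18) (.e (nat_lit 303119) (nat_lit 3) .nil))))) (.g (nat_lit 0) (.e (nat_lit 126547) (nat_lit 0) .nil) .nil))) 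
(.lf (nat_lit 484286) (.g (nat_lit 1167) (.e (nat_lit 6835) (nat_lit 368) (.e (nat_lit 122919) (nat_lit 15) (.e (nat_lit 360451) (nat_lit 0) (.e (nat_lit 7936) (nat_lit 256) .nil)))) (.g (nat_lit 0) (.e (nat_lit 129549) (nat_lit 0) .nil) .nil)))))) (.nd (nat_lit 7) (.nd (nat_lit 8) (.nd (nat_lit 9) 
(.lf (nat_lit 483454) (.g (nat_lit 3643) (.e (nat_lit 6418) (nat_lit 341) (.e (nat_lit 163900) (nat_lit 12) (.e (nat_lit 426125) (nat_lit 2) (.e (nat_lit 196666) (nat_lit 13) (.e (nat_lit 65617) (nat_lit 10) (.e (nat_lit 344132) (nat_lit 26) (.e (nat_lit 557094) (nat_lit 12) (.e (nat_lit 163847) (nat_lit 0) .nil)))))))) (.g (nat_lit 1) (.e (nat_lit 123888) (nat_lit 0) .nil) .nil))) 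
(.lf (nat_lit 483966) (.g (nat_lit 2864) (.e (nat_lit 6722) (nat_lit 362) (.e (nat_lit 180244) (nat_lit 5) (.e (nat_lit 532481) (nat_lit 0) (.e (nat_lit 6722) (nat_lit 362) (.e (nat_lit 180244) (nat_lit 5) (.e (nat_lit 532482) (nat_lit 0) .nil)))))) (.g (nat_lit 1) (.e (nat_lit 128269) (nat_lit 0) .nil) .nil)))) (.nd (nat_lit 9) 
(.lf (nat_lit 483710) (.g (nat_lit 4020) (.e (nat_lit 6427) (nat_lit 342) (.e (nat_lit 229402) (nat_lit 12) (.e (nat_lit 426285) (nat_lit 10) (.e (nat_lit 434289) (nat_lit 43) (.e (nat_lit 696344) (nat_lit 8) (.e (nat_lit 172106) (nat_lit 10) (.e (nat_lit 434209) (nat_lit 18) .nil))))))) (.g (nat_lit 1) (.e (nat_lit 126002) (nat_lit 0) .nil) .nil))) 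
(.lf (nat_lit 484222) (.g (nat_lit 426) (.e (nat_lit 7936) (nat_lit 362) (.e (nat_lit 180251) (nat_lit 10) (.e (nat_lit 573469) (nat_lit 11) .nil))) (.g (nat_lit 0) (.e (nat_lit 129253) (nat_lit 0) .nil) .nil))))) (.nd (nat_lit 8) (.nd (nat_lit 9) 
(.lf (nat_lit 483582) (.g (nat_lit 3711) (.e (nat_lit 6421) (nat_lit 341) (.e (nat_lit 163900) (nat_lit 12) (.e (nat_lit 426140) (nat_lit 3) (.e (nat_lit 204869) (nat_lit 29) (.e (nat_lit 360475) (nat_lit 8) (.e (nat_lit 557091) (nat_lit 12) (.e (nat_lit 163849) (nat_lit 0) .nil))))))) (.g (nat_lit 1) (.e (nat_lit 124988) (nat_lit 0) .nil) .nil))) 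
(.lf (nat_lit 484094) (.g (nat_lit 2185) (.e (nat_lit 6724) (nat_lit 362) (.e (nat_lit 180250) (nat_lit 10) (.e (nat_lit 573469) (nat_lit 11) (.e (nat_lit 16447) (nat_lit 10) (.e (nat_lit 434231) (nat_lit 23) .nil))))) (.g (nat_lit 0) (.e (nat_lit 128919) (nat_lit 0) .nil) .nil)))) (.nd (nat_lit 9) 
(.lf (nat_lit 483838) (.g (nat_lit 472) (.e (nat_lit 6681) (nat_lit 357) (.e (nat_lit 3090) (nat_lit 191) (.e (nat_lit 483395) (nat_lit 24) .nil))) (.g (nat_lit 0) (.e (nat_lit 127322) (nat_lit 0) .nil) .nil))) 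
(.lf (nat_lit 484350) (.g (nat_lit 2754) (.e (nat_lit 8325) (nat_lit 69) (.e (nat_lit 557098) (nat_lit 13) (.e (nat_lit 172097) (nat_lit 9) (.e (nat_lit 426140) (nat_lit 3) (.e (nat_lit 204863) (nat_lit 27) .nil))))) (.g (nat_lit 0) (.e (nat_lit 129846) (nat_lit 0) .nil) .nil)))))))))))) 
(.nd (nat_lit 1) (.nd (nat_lit 2) (.nd (nat_lit 3) (.nd (nat_lit 4) (.nd (nat_lit 5) 
(.nd (nat_lit 6) (.nd (nat_lit 7) (.nd (nat_lit 8) (.nd (nat_lit 9) 
(.lf (nat_lit 483329) (.g (nat_lit 4803) (.e (nat_lit 6255) (nat_lit 337) (.e (nat_lit 2643) (nat_lit 165) (.e (nat_lit 180243) (nat_lit 5) (.e (nat_lit 532550) (nat_lit 12) (.e (nat_lit 360475) (nat_lit 8) (.e (nat_lit 557091) (nat_lit 12) (.e (nat_lit 163847) (nat_lit 0) .nil))))))) (.g (nat_lit 1) (.e (nat_lit 122458) (nat_lit 0) .nil) .nil))) 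
(.lf (nat_lit 483841) (.g (nat_lit 2555) (.e (nat_lit 6681) (nat_lit 357) (.e (nat_lit 3090) (nat_lit 191) (.e (nat_lit 483396) (nat_lit 24) (.e (nat_lit 344169) (nat_lit 40) (.e (nat_lit 671760) (nat_lit 4) (.e (nat_lit 65540) (nat_lit 0) .nil)))))) (.g (nat_lit 1) (.e (nat_lit 127326) (nat_lit 0) .nil) .nil)))) (.nd (nat_lit 9) 
(.lf (nat_lit 483585) (.g (nat_lit 1919) (.e (nat_lit 6421) (nat_lit 341) (.e (nat_lit 163909) (nat_lit 12) (.e (nat_lit 426125) (nat_lit 2) (.e (nat_lit 196666) (nat_lit 13) (.e (nat_lit 65610) (nat_lit 10) (.e (nat_lit 344129) (nat_lit 26) (.e (nat_lit 557090) (nat_lit 12) (.e (nat_lit 163840) (nat_lit 0) .nil)))))))) (.g (nat_lit 1) (.e (nat_lit 125038) (nat_lit 0) .nil) .nil))) 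
(.lf (nat_lit 484097) (.g (nat_lit 3289) (.e (nat_lit 6724) (nat_lit 362) (.e (nat_lit 180250) (nat_lit 10) (.e (nat_lit 573470) (nat_lit 11) (.e (nat_lit 16436) (nat_lit 9) (.e (nat_lit 426131) (nat_lit 3) (.e (nat_lit 204816) (nat_lit 17) .nil)))))) (.g (nat_lit 1) (.e (nat_lit 128922) (nat_lit 0) .nil) .nil))))) (.nd (nat_lit 8) (.nd (nat_lit 9) 
(.lf (nat_lit 483457) (.g (nat_lit 4271) (.e (nat_lit 6418) (nat_lit 341) (.e (nat_lit 163900) (nat_lit 12) (.e (nat_lit 426125) (nat_lit 2) (.e (nat_lit 196666) (nat_lit 13) (.e (nat_lit 65617) (nat_lit 10) (.e (nat_lit 344133) (nat_lit 26) (.e (nat_lit 557091) (nat_lit 12) (.e (nat_lit 163847) (nat_lit 0) .nil)))))))) (.g (nat_lit 1) (.e (nat_lit 123891) (nat_lit 0) .nil) .nil))) 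
(.lf (nat_lit 483969) (.g (nat_lit 3683) (.e (nat_lit 6722) (nat_lit 362) (.e (nat_lit 180244) (nat_lit 5) (.e (nat_lit 532482) (nat_lit 0) (.e (nat_lit 6724) (nat_lit 362) (.e (nat_lit 180243) (nat_lit 5) (.e (nat_lit 532481) (nat_lit 0) .nil)))))) (.g (nat_lit 1) (.e (nat_lit 128272) (nat_lit 0) .nil) .nil)))) (.nd (nat_lit 9) 
(.lf (nat_lit 483713) (.g (nat_lit 4349) (.e (nat_lit 6427) (nat_lit 342) (.e (nat_lit 229409) (nat_lit 13) (.e (nat_lit 434231) (nat_lit 23) (.e (nat_lit 532550) (nat_lit 12) (.e (nat_lit 360475) (nat_lit 8) (.e (nat_lit 557091) (nat_lit 12) (.e (nat_lit 163850) (nat_lit 0) .nil))))))) (.g (nat_lit 1) (.e (nat_lit 126015) (nat_lit 0) .nil) .nil))) 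
(.lf (nat_lit 484225) (.g (nat_lit 2482) (.e (nat_lit 7936) (nat_lit 362) (.e (nat_lit 180251) (nat_lit 10) (.e (nat_lit 573471) (nat_lit 11) (.e (nat_lit 16447) (nat_lit 10) (.e (nat_lit 434231) (nat_lit 23) .nil))))) (.g (nat_lit 0) (.e (nat_lit 129258) (nat_lit 0) .nil) .nil)))))) (.nd (nat_lit 7) (.nd (nat_lit 8) (.nd (nat_lit 9) 
(.lf (nat_lit 483393) (.g (nat_lit 1040) (.e (nat_lit 6416) (nat_lit 341) (.e (nat_lit 163908) (nat_lit 12) (.e (nat_lit 426285) (nat_lit 10) (.e (nat_lit 434289) (nat_lit 43) .nil)))) (.g (nat_lit 0) (.e (nat_lit 123268) (nat_lit 0) .nil) .nil))) 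
(.lf (nat_lit 483905) (.g (nat_lit 2239) (.e (nat_lit 6716) (nat_lit 361) (.e (nat_lit 172067) (nat_lit 3) (.e (nat_lit 204885) (nat_lit 33) (.e (nat_lit 401448) (nat_lit 10) (.e (nat_lit 434232) (nat_lit 23) .nil))))) (.g (nat_lit 0) (.e (nat_lit 127780) (nat_lit 0) .nil) .nil)))) (.nd (nat_lit 9) 
(.lf (nat_lit 483649) (.g (nat_lit 3684) (.e (nat_lit 6425) (nat_lit 342) (.e (nat_lit 229407) (nat_lit 13) (.e (nat_lit 434231) (nat_lit 23) (.e (nat_lit 532550) (nat_lit 12) (.e (nat_lit 360475) (nat_lit 8) (.e (nat_lit 557091) (nat_lit 12) (.e (nat_lit 163840) (nat_lit 0) .nil))))))) (.g (nat_lit 1) (.e (nat_lit 125588) (nat_lit 0) .nil) .nil))) 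
(.lf (nat_lit 484161) (.g (nat_lit 2451) (.e (nat_lit 6724) (nat_lit 362) (.e (nat_lit 180252) (nat_lit 10) (.e (nat_lit 573471) (nat_lit 11) (.e (nat_lit 16449) (nat_lit 10) (.e (nat_lit 434233) (nat_lit 23) .nil))))) (.g (nat_lit 0) (.e (nat_lit 129010) (nat_lit 0) .nil) .nil))))) (.nd (nat_lit 8) (.nd (nat_lit 9) 
(.lf (nat_lit 483521) (.g (nat_lit 3579) (.e (nat_lit 6420) (nat_lit 341) (.e (nat_lit 163867) (nat_lit 2) (.e (nat_lit 196656) (nat_lit 11) (.e (nat_lit 16473) (nat_lit 14) (.e (nat_lit 499456) (nat_lit 27) (.e (nat_lit 426558) (nat_lit 33) (.e (nat_lit 385045) (nat_lit 21) .nil))))))) (.g (nat_lit 1) (.e (nat_lit 124445) (nat_lit 0) .nil) .nil))) 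
(.lf (nat_lit 484033) (.g (nat_lit 2266) (.e (nat_lit 6722) (nat_lit 362) (.e (nat_lit 180271) (nat_lit 26) (.e (nat_lit 704738) (nat_lit 11) (.e (nat_lit 16463) (nat_lit 13) (.e (nat_lit 483343) (nat_lit 17) .nil))))) (.g (nat_lit 1) (.e (nat_lit 128518) (nat_lit 0) .nil) .nil)))) (.nd (nat_lit 9) 
(.lf (nat_lit 483777) (.g (nat_lit 1867) (.e (nat_lit 7936) (nat_lit 347) (.e (nat_lit 65653) (nat_lit 27) (.e (nat_lit 426011) (nat_lit 0) (.e (nat_lit 7591) (nat_lit 407) (.e (nat_lit 73730) (nat_lit 0) .nil))))) (.g (nat_lit 0) (.e (nat_lit 126550) (nat_lit 0) .nil) .nil))) 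
(.lf (nat_lit 484289) (.g (nat_lit 1845) (.e (nat_lit 8300) (nat_lit 55) (.e (nat_lit 49189) (nat_lit 11) (.e (nat_lit 16425) (nat_lit 7) (.e (nat_lit 409648) (nat_lit 18) (.e (nat_lit 303137) (nat_lit 10) .nil))))) (.g (nat_lit 0) (.e (nat_lit 129622) (nat_lit 0) .nil) .nil))))))) (.nd (nat_lit 6) (.nd (nat_lit 7) (.nd (nat_lit 8) (.nd (nat_lit 9) 
(.lf (nat_lit 483361) (.g (nat_lit 3862) (.e (nat_lit 6416) (nat_lit 341) (.e (nat_lit 163900) (nat_lit 12) (.e (nat_lit 426125) (nat_lit 2) (.e (nat_lit 196666) (nat_lit 13) (.e (nat_lit 65617) (nat_lit 10) (.e (nat_lit 344133) (nat_lit 26) (.e (nat_lit 557091) (nat_lit 12) (.e (nat_lit 163849) (nat_lit 0) .nil)))))))) (.g (nat_lit 1) (.e (nat_lit 123048) (nat_lit 0) .nil) .nil))) 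
(.lf (nat_lit 483873) (.g (nat_lit 3287) (.e (nat_lit 6711) (nat_lit 360) (.e (nat_lit 163962) (nat_lit 25) (.e (nat_lit 532535) (nat_lit 9) (.e (nat_lit 336173) (nat_lit 10) (.e (nat_lit 344126) (nat_lit 25) .nil))))) (.g (nat_lit 0) (.e (nat_lit 127525) (nat_lit 0) .nil) .nil)))) (.nd (nat_lit 9) 
(.lf (nat_lit 483617) (.g (nat_lit 2633) (.e (nat_lit 6421) (nat_lit 341) (.e (nat_lit 163917) (nat_lit 13) (.e (nat_lit 434231) (nat_lit 23) (.e (nat_lit 532550) (nat_lit 12) (.e (nat_lit 360474) (nat_lit 8) (.e (nat_lit 557093) (nat_lit 12) (.e (nat_lit 163847) (nat_lit 0) .nil))))))) (.g (nat_lit 1) (.e (nat_lit 125152) (nat_lit 0) .nil) .nil))) 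
(.lf (nat_lit 484129) (.g (nat_lit 1763) (.e (nat_lit 6724) (nat_lit 362) (.e (nat_lit 180251) (nat_lit 10) (.e (nat_lit 573471) (nat_lit 11) (.e (nat_lit 16442) (nat_lit 9) (.e (nat_lit 426135) (nat_lit 3) .nil))))) (.g (nat_lit 0) (.e (nat_lit 128965) (nat_lit 0) .nil) .nil))))) (.nd (nat_lit 8) (.nd (nat_lit 9) 
(.lf (nat_lit 483489) (.g (nat_lit 312) (.e (nat_lit 6418) (nat_lit 341) (.e (nat_lit 163908) (nat_lit 12) (.e (nat_lit 426286) (nat_lit 10) .nil))) (.g (nat_lit 0) (.e (nat_lit 123985) (nat_lit 0) .nil) .nil))) 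
(.lf (nat_lit 484001) (.g (nat_lit 1761) (.e (nat_lit 6722) (nat_lit 362) (.e (nat_lit 180252) (nat_lit 10) (.e (nat_lit 573471) (nat_lit 11) (.e (nat_lit 16439) (nat_lit 9) (.e (nat_lit 426039) (nat_lit 0) .nil))))) (.g (nat_lit 0) (.e (nat_lit 128412) (nat_lit 0) .nil) .nil)))) (.nd (nat_lit 9) 
(.lf (nat_lit 483745) (.g (nat_lit 2739) (.e (nat_lit 6399) (nat_lit 339) (.e (nat_lit 57379) (nat_lit 3) (.e (nat_lit 98341) (nat_lit 20) (.e (nat_lit 221215) (nat_lit 23) (.e (nat_lit 204862) (nat_lit 27) .nil))))) (.g (nat_lit 0) (.e (nat_lit 126487) (nat_lit 0) .nil) .nil))) 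
(.lf (nat_lit 484257) (.g (nat_lit 861) (.e (nat_lit 7936) (nat_lit 362) (.e (nat_lit 180272) (nat_lit 26) (.e (nat_lit 704737) (nat_lit 11) (.e (nat_lit 16468) (nat_lit 13) .nil)))) (.g (nat_lit 0) (.e (nat_lit 129339) (nat_lit 0) .nil) .nil)))))) (.nd (nat_lit 7) (.nd (nat_lit 8) (.nd (nat_lit 9) 
(.lf (nat_lit 483425) (.g (nat_lit 2585) (.e (nat_lit 6416) (nat_lit 341) (.e (nat_lit 163909) (nat_lit 12) (.e (nat_lit 426140) (nat_lit 3) (.e (nat_lit 204868) (nat_lit 29) (.e (nat_lit 360473) (nat_lit 8) (.e (nat_lit 557094) (nat_lit 12) (.e (nat_lit 163848) (nat_lit 0) .nil))))))) (.g (nat_lit 1) (.e (nat_lit 123412) (nat_lit 0) .nil) .nil))) 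
(.lf (nat_lit 483937) (.g (nat_lit 2305) (.e (nat_lit 6719) (nat_lit 361) (.e (nat_lit 172150) (nat_lit 27) (.e (nat_lit 336230) (nat_lit 14) (.e (nat_lit 401437) (nat_lit 9) (.e (nat_lit 426530) (nat_lit 27) (.e (nat_lit 335874) (nat_lit 0) .nil)))))) (.g (nat_lit 1) (.e (nat_lit 127967) (nat_lit 0) .nil) .nil)))) (.nd (nat_lit 9) 
(.lf (nat_lit 483681) (.g (nat_lit 2525) (.e (nat_lit 6425) (nat_lit 342) (.e (nat_lit 229415) (nat_lit 15) (.e (nat_lit 450563) (nat_lit 0) (.e (nat_lit 6252) (nat_lit 337) (.e (nat_lit 2630) (nat_lit 164) (.e (nat_lit 172113) (nat_lit 10) (.e (nat_lit 434212) (nat_lit 18) .nil))))))) (.g (nat_lit 1) (.e (nat_lit 125727) (nat_lit 0) .nil) .nil))) 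
(.lf (nat_lit 484193) (.g (nat_lit 2011) (.e (nat_lit 6724) (nat_lit 362) (.e (nat_lit 180271) (nat_lit 26) (.e (nat_lit 704738) (nat_lit 11) (.e (nat_lit 16462) (nat_lit 13) (.e (nat_lit 483343) (nat_lit 17) .nil))))) (.g (nat_lit 1) (.e (nat_lit 129111) (nat_lit 0) .nil) .nil))))) (.nd (nat_lit 8) (.nd (nat_lit 9) 
(.lf (nat_lit 483553) (.g (nat_lit 3264) (.e (nat_lit 6420) (nat_lit 341) (.e (nat_lit 163908) (nat_lit 12) (.e (nat_lit 426136) (nat_lit 3) (.e (nat_lit 204869) (nat_lit 29) (.e (nat_lit 360474) (nat_lit 8) (.e (nat_lit 557093) (nat_lit 12) (.e (nat_lit 163849) (nat_lit 0) .nil))))))) (.g (nat_lit 1) (.e (nat_lit 124572) (nat_lit 0) .nil) .nil))) 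
(.lf (nat_lit 484065) (.g (nat_lit 3311) (.e (nat_lit 6724) (nat_lit 362) (.e (nat_lit 180243) (nat_lit 5) (.e (nat_lit 532563) (nat_lit 15) (.e (nat_lit 385105) (nat_lit 50) (.e (nat_lit 794368) (nat_lit 3) (.e (nat_lit 204815) (nat_lit 17) .nil)))))) (.g (nat_lit 1) (.e (nat_lit 128866) (nat_lit 0) .nil) .nil)))) (.nd (nat_lit 9) 
(.lf (nat_lit 483809) (.g (nat_lit 797) (.e (nat_lit 6666) (nat_lit 357) (.e (nat_lit 2856) (nat_lit 184) (.e (nat_lit 426533) (nat_lit 28) .nil))) (.g (nat_lit 0) (.e (nat_lit 127087) (nat_lit 0) .nil) .nil))) 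
(.lf (nat_lit 484321) (.g (nat_lit 3592) (.e (nat_lit 8318) (nat_lit 64) (.e (nat_lit 516115) (nat_lit 1) (.e (nat_lit 164325) (nat_lit 230) (.e (nat_lit 163907) (nat_lit 12) (.e (nat_lit 426568) (nat_lit 34) (.e (nat_lit 393234) (nat_lit 17) (.e (nat_lit 7376) (nat_lit 389) .nil))))))) (.g (nat_lit 1) (.e (nat_lit 129778) (nat_lit 0) .nil) .nil)))))))) 
(.nd (nat_lit 5) (.nd (nat_lit 6) (.nd (nat_lit 7) (.nd (nat_lit 8) (.nd (nat_lit 9) 
(.lf (nat_lit 483345) (.g (nat_lit 4945) (.e (nat_lit 6374) (nat_lit 337) (.e (nat_lit 2628) (nat_lit 164) (.e (nat_lit 172067) (nat_lit 3) (.e (nat_lit 204869) (nat_lit 29) (.e (nat_lit 360475) (nat_lit 8) (.e (nat_lit 557089) (nat_lit 12) (.e (nat_lit 163844) (nat_lit 0) .nil))))))) (.g (nat_lit 1) (.e (nat_lit 122700) (nat_lit 0) .nil) .nil))) 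
(.lf (nat_lit 483857) (.g (nat_lit 1380) (.e (nat_lit 7936) (nat_lit 357) (.e (nat_lit 3067) (nat_lit 190) (.e (nat_lit 475185) (nat_lit 29) (.e (nat_lit 557107) (nat_lit 15) .nil)))) (.g (nat_lit 0) (.e (nat_lit 127420) (nat_lit 0) .nil) .nil)))) (.nd (nat_lit 9) 
(.lf (nat_lit 483601) (.g (nat_lit 4384) (.e (nat_lit 6421) (nat_lit 341) (.e (nat_lit 163913) (nat_lit 12) (.e (nat_lit 426129) (nat_lit 3) (.e (nat_lit 204869) (nat_lit 29) (.e (nat_lit 360474) (nat_lit 8) (.e (nat_lit 557094) (nat_lit 12) (.e (nat_lit 163847) (nat_lit 0) .nil))))))) (.g (nat_lit 1) (.e (nat_lit 125066) (nat_lit 0) .nil) .nil))) 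
(.lf (nat_lit 484113) (.g (nat_lit 523) (.e (nat_lit 6724) (nat_lit 362) (.e (nat_lit 180251) (nat_lit 10) (.e (nat_lit 573457) (nat_lit 9) .nil))) (.g (nat_lit 0) (.e (nat_lit 128946) (nat_lit 0) .nil) .nil))))) (.nd (nat_lit 8) (.nd (nat_lit 9) 
(.lf (nat_lit 483473) (.g (nat_lit 3095) (.e (nat_lit 6418) (nat_lit 341) (.e (nat_lit 163908) (nat_lit 12) (.e (nat_lit 426132) (nat_lit 3) (.e (nat_lit 204869) (nat_lit 29) (.e (nat_lit 360474) (nat_lit 8) (.e (nat_lit 557093) (nat_lit 12) (.e (nat_lit 163848) (nat_lit 0) .nil))))))) (.g (nat_lit 1) (.e (nat_lit 123947) (nat_lit 0) .nil) .nil))) 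
(.lf (nat_lit 483985) (.g (nat_lit 809) (.e (nat_lit 6722) (nat_lit 362) (.e (nat_lit 180250) (nat_lit 10) (.e (nat_lit 573469) (nat_lit 11) .nil))) (.g (nat_lit 0) (.e (nat_lit 128333) (nat_lit 0) .nil) .nil)))) (.nd (nat_lit 9) 
(.lf (nat_lit 483729) (.g (nat_lit 1151) (.e (nat_lit 6391) (nat_lit 339) (.e (nat_lit 57378) (nat_lit 3) (.e (nat_lit 98335) (nat_lit 18) .nil))) (.g (nat_lit 0) (.e (nat_lit 126468) (nat_lit 0) .nil) .nil))) 
(.lf (nat_lit 484241) (.g (nat_lit 1270) (.e (nat_lit 7936) (nat_lit 362) (.e (nat_lit 180271) (nat_lit 26) (.e (nat_lit 704737) (nat_lit 11) (.e (nat_lit 16464) (nat_lit 13) .nil)))) (.g (nat_lit 0) (.e (nat_lit 129316) (nat_lit 0) .nil) .nil)))))) (.nd (nat_lit 7) (.nd (nat_lit 8) (.nd (nat_lit 9) 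
(.lf (nat_lit 483409) (.g (nat_lit 4686) (.e (nat_lit 6416) (nat_lit 341) (.e (nat_lit 163909) (nat_lit 12) (.e (nat_lit 426125) (nat_lit 2) (.e (nat_lit 196666) (nat_lit 13) (.e (nat_lit 65617) (nat_lit 10) (.e (nat_lit 344132) (nat_lit 26) (.e (nat_lit 557094) (nat_lit 12) (.e (nat_lit 163847) (nat_lit 0) .nil)))))))) (.g (nat_lit 1) (.e (nat_lit 123380) (nat_lit 0) .nil) .nil))) 
(.lf (nat_lit 483921) (.g (nat_lit 1848) (.e (nat_lit 6718) (nat_lit 361) (.e (nat_lit 172150) (nat_lit 27) (.e (nat_lit 336231) (nat_lit 14) (.e (nat_lit 401456) (nat_lit 13) (.e (nat_lit 483342) (nat_lit 17) .nil))))) (.g (nat_lit 0) (.e (nat_lit 127917) (nat_lit 0) .nil) .nil)))) (.nd (nat_lit 9) 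
(.lf (nat_lit 483665) (.g (nat_lit 2301) (.e (nat_lit 6425) (nat_lit 342) (.e (nat_lit 229412) (nat_lit 14) (.e (nat_lit 442390) (nat_lit 11) (.e (nat_lit 336232) (nat_lit 14) (.e (nat_lit 401448) (nat_lit 10) (.e (nat_lit 434199) (nat_lit 18) .nil)))))) (.g (nat_lit 1) (.e (nat_lit 125635) (nat_lit 0) .nil) .nil))) 
(.lf (nat_lit 484177) (.g (nat_lit 3607) (.e (nat_lit 6724) (nat_lit 362) (.e (nat_lit 180271) (nat_lit 26) (.e (nat_lit 704737) (nat_lit 11) (.e (nat_lit 16439) (nat_lit 9) (.e (nat_lit 426499) (nat_lit 27) (.e (nat_lit 335895) (nat_lit 0) .nil)))))) (.g (nat_lit 1) (.e (nat_lit 129092) (nat_lit 0) .nil) .nil))))) (.nd (nat_lit 8) (.nd (nat_lit 9) 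
(.lf (nat_lit 483537) (.g (nat_lit 1774) (.e (nat_lit 6420) (nat_lit 341) (.e (nat_lit 163902) (nat_lit 12) (.e (nat_lit 426246) (nat_lit 9) (.e (nat_lit 426499) (nat_lit 27) (.e (nat_lit 336231) (nat_lit 14) .nil))))) (.g (nat_lit 0) (.e (nat_lit 124471) (nat_lit 0) .nil) .nil))) 
(.lf (nat_lit 484049) (.g (nat_lit 2217) (.e (nat_lit 6724) (nat_lit 362) (.e (nat_lit 180225) (nat_lit 0) (.e (nat_lit 6420) (nat_lit 341) (.e (nat_lit 163902) (nat_lit 12) (.e (nat_lit 426251) (nat_lit 9) .nil))))) (.g (nat_lit 0) (.e (nat_lit 128770) (nat_lit 0) .nil) .nil)))) (.nd (nat_lit 9) 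
(.lf (nat_lit 483793) (.g (nat_lit 2485) (.e (nat_lit 6619) (nat_lit 357) (.e (nat_lit 3071) (nat_lit 190) (.e (nat_lit 475185) (nat_lit 29) (.e (nat_lit 557098) (nat_lit 13) (.e (nat_lit 172115) (nat_lit 10) .nil))))) (.g (nat_lit 0) (.e (nat_lit 126848) (nat_lit 0) .nil) .nil))) 
(.lf (nat_lit 484305) (.g (nat_lit 2518) (.e (nat_lit 8305) (nat_lit 58) (.e (nat_lit 286761) (nat_lit 13) (.e (nat_lit 393234) (nat_lit 17) (.e (nat_lit 7591) (nat_lit 407) (.e (nat_lit 73729) (nat_lit 0) .nil))))) (.g (nat_lit 0) (.e (nat_lit 129748) (nat_lit 0) .nil) .nil))))))) (.nd (nat_lit 6) (.nd (nat_lit 7) (.nd (nat_lit 8) (.nd (nat_lit 9) 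
(.lf (nat_lit 483377) (.g (nat_lit 2619) (.e (nat_lit 6416) (nat_lit 341) (.e (nat_lit 163908) (nat_lit 12) (.e (nat_lit 426132) (nat_lit 3) (.e (nat_lit 204868) (nat_lit 29) (.e (nat_lit 360473) (nat_lit 8) (.e (nat_lit 557093) (nat_lit 12) (.e (nat_lit 163849) (nat_lit 0) .nil))))))) (.g (nat_lit 1) (.e (nat_lit 123229) (nat_lit 0) .nil) .nil))) 
(.lf (nat_lit 483889) (.g (nat_lit 2245) (.e (nat_lit 6712) (nat_lit 360) (.e (nat_lit 163979) (nat_lit 30) (.e (nat_lit 573488) (nat_lit 14) (.e (nat_lit 73769) (nat_lit 20) .nil)))) (.g (nat_lit 0) (.e (nat_lit 127674) (nat_lit 0) .nil) .nil)))) (.nd (nat_lit 9) 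
(.lf (nat_lit 483633) (.g (nat_lit 3298) (.e (nat_lit 6425) (nat_lit 342) (.e (nat_lit 229399) (nat_lit 12) (.e (nat_lit 426125) (nat_lit 2) (.e (nat_lit 196666) (nat_lit 13) (.e (nat_lit 65617) (nat_lit 10) (.e (nat_lit 344132) (nat_lit 26) (.e (nat_lit 557094) (nat_lit 12) (.e (nat_lit 163840) (nat_lit 0) .nil)))))))) (.g (nat_lit 1) (.e (nat_lit 125541) (nat_lit 0) .nil) .nil))) 
(.lf (nat_lit 484145) (.g (nat_lit 2484) (.e (nat_lit 6724) (nat_lit 362) (.e (nat_lit 180252) (nat_lit 10) (.e (nat_lit 573469) (nat_lit 11) (.e (nat_lit 16436) (nat_lit 9) (.e (nat_lit 426131) (nat_lit 3) (.e (nat_lit 204816) (nat_lit 17) .nil)))))) (.g (nat_lit 1) (.e (nat_lit 128994) (nat_lit 0) .nil) .nil))))) (.nd (nat_lit 8) (.nd (nat_lit 9) 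
(.lf (nat_lit 483505) (.g (nat_lit 3766) (.e (nat_lit 6418) (nat_lit 341) (.e (nat_lit 163917) (nat_lit 13) (.e (nat_lit 434231) (nat_lit 23) (.e (nat_lit 532550) (nat_lit 12) (.e (nat_lit 360475) (nat_lit 8) (.e (nat_lit 557091) (nat_lit 12) (.e (nat_lit 163847) (nat_lit 0) .nil))))))) (.g (nat_lit 1) (.e (nat_lit 124128) (nat_lit 0) .nil) .nil))) 
(.lf (nat_lit 484017) (.g (nat_lit 3164) (.e (nat_lit 6722) (nat_lit 362) (.e (nat_lit 180271) (nat_lit 26) (.e (nat_lit 704737) (nat_lit 11) (.e (nat_lit 16463) (nat_lit 13) (.e (nat_lit 483344) (nat_lit 17) .nil))))) (.g (nat_lit 1) (.e (nat_lit 128493) (nat_lit 0) .nil) .nil)))) (.nd (nat_lit 9) 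
(.lf (nat_lit 483761) (.g (nat_lit 2889) (.e (nat_lit 6476) (nat_lit 343) (.e (nat_lit 1633) (nat_lit 114) (.e (nat_lit 385074) (nat_lit 31) (.e (nat_lit 573484) (nat_lit 13) (.e (nat_lit 65617) (nat_lit 10) .nil))))) (.g (nat_lit 0) (.e (nat_lit 126514) (nat_lit 0) .nil) .nil))) 
(.lf (nat_lit 484273) (.g (nat_lit 2743) (.e (nat_lit 6841) (nat_lit 369) (.e (nat_lit 163874) (nat_lit 3) (.e (nat_lit 204863) (nat_lit 27) (.e (nat_lit 344117) (nat_lit 21) (.e (nat_lit 516195) (nat_lit 26) .nil))))) (.g (nat_lit 0) (.e (nat_lit 129517) (nat_lit 0) .nil) .nil)))))) (.nd (nat_lit 7) (.nd (nat_lit 8) (.nd (nat_lit 9) 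
(.lf (nat_lit 483441) (.g (nat_lit 2775) (.e (nat_lit 6416) (nat_lit 341) (.e (nat_lit 163917) (nat_lit 13) (.e (nat_lit 434231) (nat_lit 23) (.e (nat_lit 532550) (nat_lit 12) (.e (nat_lit 360474) (nat_lit 8) (.e (nat_lit 557094) (nat_lit 12) (.e (nat_lit 163849) (nat_lit 0) .nil))))))) (.g (nat_lit 1) (.e (nat_lit 123467) (nat_lit 0) .nil) .nil))) 
(.lf (nat_lit 483953) (.g (nat_lit 1975) (.e (nat_lit 7936) (nat_lit 361) (.e (nat_lit 172067) (nat_lit 3) (.e (nat_lit 204885) (nat_lit 33) (.e (nat_lit 401448) (nat_lit 10) (.e (nat_lit 434232) (nat_lit 23) .nil))))) (.g (nat_lit 0) (.e (nat_lit 128021) (nat_lit 0) .nil) .nil)))) (.nd (nat_lit 9) 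
(.lf (nat_lit 483697) (.g (nat_lit 3673) (.e (nat_lit 6426) (nat_lit 342) (.e (nat_lit 229399) (nat_lit 12) (.e (nat_lit 426140) (nat_lit 3) (.e (nat_lit 204869) (nat_lit 29) (.e (nat_lit 360475) (nat_lit 8) (.e (nat_lit 557091) (nat_lit 12) (.e (nat_lit 163852) (nat_lit 0) .nil))))))) (.g (nat_lit 1) (.e (nat_lit 125830) (nat_lit 0) .nil) .nil))) 
(.lf (nat_lit 484209) (.g (nat_lit 1765) (.e (nat_lit 7936) (nat_lit 362) (.e (nat_lit 180244) (nat_lit 5) (.e (nat_lit 532481) (nat_lit 0) (.e (nat_lit 6722) (nat_lit 362) .nil)))) (.g (nat_lit 0) (.e (nat_lit 129186) (nat_lit 0) .nil) .nil))))) (.nd (nat_lit 8) (.nd (nat_lit 9) 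
(.lf (nat_lit 483569) (.g (nat_lit 2853) (.e (nat_lit 6420) (nat_lit 341) (.e (nat_lit 163917) (nat_lit 13) (.e (nat_lit 434231) (nat_lit 23) (.e (nat_lit 532550) (nat_lit 12) (.e (nat_lit 360474) (nat_lit 8) (.e (nat_lit 557094) (nat_lit 12) (.e (nat_lit 163849) (nat_lit 0) .nil))))))) (.g (nat_lit 1) (.e (nat_lit 124696) (nat_lit 0) .nil) .nil))) 
(.lf (nat_lit 484081) (.g (nat_lit 2235) (.e (nat_lit 6724) (nat_lit 362) (.e (nat_lit 180243) (nat_lit 5) (.e (nat_lit 532569) (nat_lit 16) (.e (nat_lit 401440) (nat_lit 9) (.e (nat_lit 426135) (nat_lit 3) (.e (nat_lit 204816) (nat_lit 17) .nil)))))) (.g (nat_lit 1) (.e (nat_lit 128885) (nat_lit 0) .nil) .nil)))) (.nd (nat_lit 9) 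
(.lf (nat_lit 483825) (.g (nat_lit 3020) (.e (nat_lit 6676) (nat_lit 357) (.e (nat_lit 3067) (nat_lit 190) (.e (nat_lit 475185) (nat_lit 29) (.e (nat_lit 557100) (nat_lit 13) (.e (nat_lit 172106) (nat_lit 10) .nil))))) (.g (nat_lit 0) (.e (nat_lit 127201) (nat_lit 0) .nil) .nil))) 
(.lf (nat_lit 484337) (.g (nat_lit 1934) (.e (nat_lit 8320) (nat_lit 64) (.e (nat_lit 516129) (nat_lit 3) (.e (nat_lit 221210) (nat_lit 22) (.e (nat_lit 196668) (nat_lit 14) (.e (nat_lit 81664) (nat_lit 5) .nil))))) (.g (nat_lit 0) (.e (nat_lit 129822) (nat_lit 0) .nil) .nil))))))))) (.nd (nat_lit 4) (.nd (nat_lit 5) (.nd (nat_lit 6) (.nd (nat_lit 7) (.nd (nat_lit 8) (.nd (nat_lit 9) 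
(.lf (nat_lit 483337) (.g (nat_lit 4979) (.e (nat_lit 6255) (nat_lit 337) (.e (nat_lit 2725) (nat_lit 172) (.e (nat_lit 237592) (nat_lit 3) (.e (nat_lit 204869) (nat_lit 29) (.e (nat_lit 360475) (nat_lit 8) (.e (nat_lit 557091) (nat_lit 12) (.e (nat_lit 163843) (nat_lit 0) .nil))))))) (.g (nat_lit 1) (.e (nat_lit 122548) (nat_lit 0) .nil) .nil))) 
(.lf (nat_lit 483849) (.g (nat_lit 743) (.e (nat_lit 7936) (nat_lit 357) (.e (nat_lit 2866) (nat_lit 184) (.e (nat_lit 426499) (nat_lit 27) (.e (nat_lit 336231) (nat_lit 14) .nil)))) (.g (nat_lit 0) (.e (nat_lit 127401) (nat_lit 0) .nil) .nil)))) (.nd (nat_lit 9) 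
(.lf (nat_lit 483593) (.g (nat_lit 2704) (.e (nat_lit 6421) (nat_lit 341) (.e (nat_lit 163913) (nat_lit 12) (.e (nat_lit 426129) (nat_lit 3) (.e (nat_lit 204868) (nat_lit 29) (.e (nat_lit 360473) (nat_lit 8) (.e (nat_lit 557089) (nat_lit 12) (.e (nat_lit 163844) (nat_lit 0) .nil))))))) (.g (nat_lit 1) (.e (nat_lit 125058) (nat_lit 0) .nil) .nil))) 
(.lf (nat_lit 484105) (.g (nat_lit 3520) (.e (nat_lit 6724) (nat_lit 362) (.e (nat_lit 180250) (nat_lit 10) (.e (nat_lit 573471) (nat_lit 11) (.e (nat_lit 16436) (nat_lit 9) (.e (nat_lit 426131) (nat_lit 3) (.e (nat_lit 204815) (nat_lit 17) .nil)))))) (.g (nat_lit 1) (.e (nat_lit 128930) (nat_lit 0) .nil) .nil))))) (.nd (nat_lit 8) (.nd (nat_lit 9) 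
(.lf (nat_lit 483465) (.g (nat_lit 3777) (.e (nat_lit 6418) (nat_lit 341) (.e (nat_lit 163900) (nat_lit 12) (.e (nat_lit 426140) (nat_lit 3) (.e (nat_lit 204869) (nat_lit 29) (.e (nat_lit 360475) (nat_lit 8) (.e (nat_lit 557089) (nat_lit 12) (.e (nat_lit 163844) (nat_lit 0) .nil))))))) (.g (nat_lit 1) (.e (nat_lit 123907) (nat_lit 0) .nil) .nil))) 
(.lf (nat_lit 483977) (.g (nat_lit 1737) (.e (nat_lit 6722) (nat_lit 362) (.e (nat_lit 180244) (nat_lit 5) (.e (nat_lit 532563) (nat_lit 15) (.e (nat_lit 385105) (nat_lit 50) .nil)))) (.g (nat_lit 0) (.e (nat_lit 128281) (nat_lit 0) .nil) .nil)))) (.nd (nat_lit 9) 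
(.lf (nat_lit 483721) (.g (nat_lit 3231) (.e (nat_lit 6428) (nat_lit 342) (.e (nat_lit 229409) (nat_lit 13) (.e (nat_lit 434231) (nat_lit 23) (.e (nat_lit 532549) (nat_lit 12) (.e (nat_lit 360473) (nat_lit 8) (.e (nat_lit 557093) (nat_lit 12) (.e (nat_lit 163853) (nat_lit 0) .nil))))))) (.g (nat_lit 1) (.e (nat_lit 126195) (nat_lit 0) .nil) .nil))) 
(.lf (nat_lit 484233) (.g (nat_lit 1718) (.e (nat_lit 7936) (nat_lit 362) (.e (nat_lit 180271) (nat_lit 26) (.e (nat_lit 704736) (nat_lit 11) (.e (nat_lit 16465) (nat_lit 13) (.e (nat_lit 483351) (nat_lit 17) .nil))))) (.g (nat_lit 0) (.e (nat_lit 129307) (nat_lit 0) .nil) .nil)))))) (.nd (nat_lit 7) (.nd (nat_lit 8) (.nd (nat_lit 9) 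
(.lf (nat_lit 483401) (.g (nat_lit 3739) (.e (nat_lit 6416) (nat_lit 341) (.e (nat_lit 163908) (nat_lit 12) (.e (nat_lit 426286) (nat_lit 10) (.e (nat_lit 434289) (nat_lit 43) (.e (nat_lit 696344) (nat_lit 8) (.e (nat_lit 172115) (nat_lit 10) (.e (nat_lit 434202) (nat_lit 18) .nil))))))) (.g (nat_lit 1) (.e (nat_lit 123325) (nat_lit 0) .nil) .nil))) 
(.lf (nat_lit 483913) (.g (nat_lit 3005) (.e (nat_lit 6718) (nat_lit 361) (.e (nat_lit 172076) (nat_lit 6) (.e (nat_lit 253991) (nat_lit 11) (.e (nat_lit 16462) (nat_lit 13) (.e (nat_lit 483346) (nat_lit 17) .nil))))) (.g (nat_lit 1) (.e (nat_lit 127880) (nat_lit 0) .nil) .nil)))) (.nd (nat_lit 9) 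
(.lf (nat_lit 483657) (.g (nat_lit 5747) (.e (nat_lit 6425) (nat_lit 342) (.e (nat_lit 229409) (nat_lit 13) (.e (nat_lit 434231) (nat_lit 23) (.e (nat_lit 532549) (nat_lit 12) (.e (nat_lit 360475) (nat_lit 8) (.e (nat_lit 557091) (nat_lit 12) (.e (nat_lit 163850) (nat_lit 0) .nil))))))) (.g (nat_lit 1) (.e (nat_lit 125610) (nat_lit 0) .nil) .nil))) 
(.lf (nat_lit 484169) (.g (nat_lit 1258) (.e (nat_lit 6724) (nat_lit 362) (.e (nat_lit 180271) (nat_lit 26) (.e (nat_lit 704736) (nat_lit 11) (.e (nat_lit 16465) (nat_lit 13) (.e (nat_lit 491264) (nat_lit 17) .nil))))) (.g (nat_lit 1) (.e (nat_lit 129082) (nat_lit 0) .nil) .nil))))) (.nd (nat_lit 8) (.nd (nat_lit 9) 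
(.lf (nat_lit 483529) (.g (nat_lit 2972) (.e (nat_lit 6420) (nat_lit 341) (.e (nat_lit 163900) (nat_lit 12) (.e (nat_lit 426140) (nat_lit 3) (.e (nat_lit 204869) (nat_lit 29) (.e (nat_lit 360474) (nat_lit 8) (.e (nat_lit 557094) (nat_lit 12) (.e (nat_lit 163849) (nat_lit 0) .nil))))))) (.g (nat_lit 1) (.e (nat_lit 124456) (nat_lit 0) .nil) .nil))) 
(.lf (nat_lit 484041) (.g (nat_lit 1661) (.e (nat_lit 6722) (nat_lit 362) (.e (nat_lit 180272) (nat_lit 26) (.e (nat_lit 704736) (nat_lit 11) (.e (nat_lit 16465) (nat_lit 13) (.e (nat_lit 483344) (nat_lit 17) .nil))))) (.g (nat_lit 1) (.e (nat_lit 128553) (nat_lit 0) .nil) .nil)))) (.nd (nat_lit 9) 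
(.lf (nat_lit 483785) (.g (nat_lit 3493) (.e (nat_lit 6617) (nat_lit 357) (.e (nat_lit 2685) (nat_lit 168) (.e (nat_lit 204869) (nat_lit 29) (.e (nat_lit 360475) (nat_lit 8) (.e (nat_lit 557087) (nat_lit 11) (.e (nat_lit 24579) (nat_lit 0) .nil)))))) (.g (nat_lit 1) (.e (nat_lit 126770) (nat_lit 0) .nil) .nil))) 
(.lf (nat_lit 484297) (.g (nat_lit 6502) (.e (nat_lit 8305) (nat_lit 58) (.e (nat_lit 286735) (nat_lit 3) (.e (nat_lit 98373) (nat_lit 29) (.e (nat_lit 450587) (nat_lit 10) (.e (nat_lit 573475) (nat_lit 12) .nil))))) (.g (nat_lit 0) (.e (nat_lit 129738) (nat_lit 0) .nil) .nil))))))) (.nd (nat_lit 6) (.nd (nat_lit 7) (.nd (nat_lit 8) (.nd (nat_lit 9) 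
(.lf (nat_lit 483369) (.g (nat_lit 3768) (.e (nat_lit 6416) (nat_lit 341) (.e (nat_lit 163900) (nat_lit 12) (.e (nat_lit 426140) (nat_lit 3) (.e (nat_lit 204869) (nat_lit 29) (.e (nat_lit 360475) (nat_lit 8) (.e (nat_lit 557091) (nat_lit 12) (.e (nat_lit 163847) (nat_lit 0) .nil))))))) (.g (nat_lit 1) (.e (nat_lit 123062) (nat_lit 0) .nil) .nil))) 
(.lf (nat_lit 483881) (.g (nat_lit 2283) (.e (nat_lit 6711) (nat_lit 360) (.e (nat_lit 163962) (nat_lit 25) (.e (nat_lit 532550) (nat_lit 12) (.e (nat_lit 360474) (nat_lit 8) (.e (nat_lit 557073) (nat_lit 9) (.e (nat_lit 288) (nat_lit 21) (.e (nat_lit 335877) (nat_lit 0) .nil))))))) (.g (nat_lit 1) (.e (nat_lit 127572) (nat_lit 0) .nil) .nil)))) (.nd (nat_lit 9) 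
(.lf (nat_lit 483625) (.g (nat_lit 470) (.e (nat_lit 6421) (nat_lit 341) (.e (nat_lit 163941) (nat_lit 19) (.e (nat_lit 483341) (nat_lit 9) .nil))) (.g (nat_lit 0) (.e (nat_lit 125483) (nat_lit 0) .nil) .nil))) 
(.lf (nat_lit 484137) (.g (nat_lit 2304) (.e (nat_lit 6724) (nat_lit 362) (.e (nat_lit 180251) (nat_lit 10) (.e (nat_lit 573471) (nat_lit 11) (.e (nat_lit 16451) (nat_lit 11) (.e (nat_lit 458789) (nat_lit 23) (.e (nat_lit 532481) (nat_lit 0) .nil)))))) (.g (nat_lit 1) (.e (nat_lit 128973) (nat_lit 0) .nil) .nil))))) (.nd (nat_lit 8) (.nd (nat_lit 9) 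
(.lf (nat_lit 483497) (.g (nat_lit 2910) (.e (nat_lit 6418) (nat_lit 341) (.e (nat_lit 163916) (nat_lit 13) (.e (nat_lit 434231) (nat_lit 23) (.e (nat_lit 532550) (nat_lit 12) (.e (nat_lit 360474) (nat_lit 8) (.e (nat_lit 557094) (nat_lit 12) (.e (nat_lit 163847) (nat_lit 0) .nil))))))) (.g (nat_lit 1) (.e (nat_lit 124106) (nat_lit 0) .nil) .nil))) 
(.lf (nat_lit 484009) (.g (nat_lit 1426) (.e (nat_lit 6722) (nat_lit 362) (.e (nat_lit 180271) (nat_lit 26) (.e (nat_lit 704737) (nat_lit 11) (.e (nat_lit 16384) (nat_lit 0) .nil)))) (.g (nat_lit 0) (.e (nat_lit 128480) (nat_lit 0) .nil) .nil)))) (.nd (nat_lit 9) 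
(.lf (nat_lit 483753) (.g (nat_lit 2562) (.e (nat_lit 6401) (nat_lit 339) (.e (nat_lit 57378) (nat_lit 3) (.e (nat_lit 98333) (nat_lit 18) (.e (nat_lit 164325) (nat_lit 230) (.e (nat_lit 163907) (nat_lit 12) .nil))))) (.g (nat_lit 0) (.e (nat_lit 126497) (nat_lit 0) .nil) .nil))) 
(.lf (nat_lit 484265) (.g (nat_lit 2316) (.e (nat_lit 6807) (nat_lit 365) (.e (nat_lit 1220) (nat_lit 90) (.e (nat_lit 81938) (nat_lit 20) (.e (nat_lit 1886) (nat_lit 127) (.e (nat_lit 581635) (nat_lit 0) (.e (nat_lit 3015) (nat_lit 187) (.e (nat_lit 458496) (nat_lit 0) .nil))))))) (.g (nat_lit 1) (.e (nat_lit 129376) (nat_lit 0) .nil) .nil)))))) (.nd (nat_lit 7) (.nd (nat_lit 8) (.nd (nat_lit 9) 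
(.lf (nat_lit 483433) (.g (nat_lit 4118) (.e (nat_lit 6416) (nat_lit 341) (.e (nat_lit 163909) (nat_lit 12) (.e (nat_lit 426140) (nat_lit 3) (.e (nat_lit 204869) (nat_lit 29) (.e (nat_lit 360475) (nat_lit 8) (.e (nat_lit 557089) (nat_lit 12) (.e (nat_lit 163849) (nat_lit 0) .nil))))))) (.g (nat_lit 1) (.e (nat_lit 123420) (nat_lit 0) .nil) .nil))) 
(.lf (nat_lit 483945) (.g (nat_lit 913) (.e (nat_lit 6720) (nat_lit 361) (.e (nat_lit 172143) (nat_lit 25) (.e (nat_lit 319493) (nat_lit 0) (.e (nat_lit 5771) (nat_lit 316) (.e (nat_lit 172150) (nat_lit 27) (.e (nat_lit 335892) (nat_lit 0) .nil)))))) (.g (nat_lit 1) (.e (nat_lit 127982) (nat_lit 0) .nil) .nil)))) (.nd (nat_lit 9) 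
(.lf (nat_lit 483689) (.g (nat_lit 2358) (.e (nat_lit 6425) (nat_lit 342) (.e (nat_lit 229415) (nat_lit 15) (.e (nat_lit 450563) (nat_lit 0) (.e (nat_lit 6420) (nat_lit 341) (.e (nat_lit 163908) (nat_lit 12) (.e (nat_lit 426275) (nat_lit 10) (.e (nat_lit 434212) (nat_lit 18) .nil))))))) (.g (nat_lit 1) (.e (nat_lit 125754) (nat_lit 0) .nil) .nil))) 
(.lf (nat_lit 484201) (.g (nat_lit 1546) (.e (nat_lit 7936) (nat_lit 362) (.e (nat_lit 180243) (nat_lit 5) (.e (nat_lit 532481) (nat_lit 0) (.e (nat_lit 6724) (nat_lit 362) .nil)))) (.g (nat_lit 0) (.e (nat_lit 129167) (nat_lit 0) .nil) .nil))))) (.nd (nat_lit 8) (.nd (nat_lit 9) 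
(.lf (nat_lit 483561) (.g (nat_lit 4006) (.e (nat_lit 6420) (nat_lit 341) (.e (nat_lit 163908) (nat_lit 12) (.e (nat_lit 426285) (nat_lit 10) (.e (nat_lit 434289) (nat_lit 43) (.e (nat_lit 696344) (nat_lit 8) (.e (nat_lit 172106) (nat_lit 10) (.e (nat_lit 434202) (nat_lit 18) .nil))))))) (.g (nat_lit 1) (.e (nat_lit 124604) (nat_lit 0) .nil) .nil))) 
(.lf (nat_lit 484073) (.g (nat_lit 2887) (.e (nat_lit 6724) (nat_lit 362) (.e (nat_lit 180243) (nat_lit 5) (.e (nat_lit 532567) (nat_lit 16) (.e (nat_lit 401437) (nat_lit 9) (.e (nat_lit 426131) (nat_lit 3) (.e (nat_lit 204816) (nat_lit 17) .nil)))))) (.g (nat_lit 1) (.e (nat_lit 128875) (nat_lit 0) .nil) .nil)))) (.nd (nat_lit 9) 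
(.lf (nat_lit 483817) (.g (nat_lit 2971) (.e (nat_lit 6692) (nat_lit 357) (.e (nat_lit 2663) (nat_lit 167) (.e (nat_lit 196666) (nat_lit 13) (.e (nat_lit 65610) (nat_lit 10) (.e (nat_lit 344129) (nat_lit 26) .nil))))) (.g (nat_lit 0) (.e (nat_lit 127145) (nat_lit 0) .nil) .nil))) 
(.lf (nat_lit 484329) (.g (nat_lit 3435) (.e (nat_lit 8318) (nat_lit 64) (.e (nat_lit 516179) (nat_lit 15) (.e (nat_lit 475177) (nat_lit 24) (.e (nat_lit 516159) (nat_lit 10) (.e (nat_lit 434244) (nat_lit 28) (.e (nat_lit 573474) (nat_lit 12) (.e (nat_lit 65280) (nat_lit 202) .nil))))))) (.g (nat_lit 1) (.e (nat_lit 129788) (nat_lit 0) .nil) .nil)))))))) 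
(.nd (nat_lit 5) (.nd (nat_lit 6) (.nd (nat_lit 7) (.nd (nat_lit 8) (.nd (nat_lit 9) 
(.lf (nat_lit 483353) (.g (nat_lit 4397) (.e (nat_lit 6416) (nat_lit 341) (.e (nat_lit 163900) (nat_lit 12) (.e (nat_lit 426125) (nat_lit 2) (.e (nat_lit 196666) (nat_lit 13) (.e (nat_lit 65610) (nat_lit 10) (.e (nat_lit 344129) (nat_lit 26) (.e (nat_lit 557089) (nat_lit 12) (.e (nat_lit 163844) (nat_lit 0) .nil)))))))) (.g (nat_lit 1) (.e (nat_lit 123040) (nat_lit 0) .nil) .nil))) 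
(.lf (nat_lit 483865) (.g (nat_lit 2558) (.e (nat_lit 6711) (nat_lit 360) (.e (nat_lit 163962) (nat_lit 25) (.e (nat_lit 532535) (nat_lit 9) (.e (nat_lit 336058) (nat_lit 7) (.e (nat_lit 319519) (nat_lit 12) (.e (nat_lit 40704) (nat_lit 5) (.e (nat_lit 1512) (nat_lit 108) (.e (nat_lit 335874) (nat_lit 0) .nil)))))))) (.g (nat_lit 1) (.e (nat_lit 127517) (nat_lit 0) .nil) .nil)))) (.nd (nat_lit 9) 
(.lf (nat_lit 483609) (.g (nat_lit 4001) (.e (nat_lit 6421) (nat_lit 341) (.e (nat_lit 171776) (nat_lit 12) (.e (nat_lit 426139) (nat_lit 3) (.e (nat_lit 204869) (nat_lit 29) (.e (nat_lit 360474) (nat_lit 8) (.e (nat_lit 557091) (nat_lit 12) (.e (nat_lit 163841) (nat_lit 0) .nil))))))) (.g (nat_lit 1) (.e (nat_lit 125122) (nat_lit 0) .nil) .nil))) 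
(.lf (nat_lit 484121) (.g (nat_lit 2589) (.e (nat_lit 6724) (nat_lit 362) (.e (nat_lit 180251) (nat_lit 10) (.e (nat_lit 573469) (nat_lit 11) (.e (nat_lit 16451) (nat_lit 11) (.e (nat_lit 458789) (nat_lit 23) (.e (nat_lit 532481) (nat_lit 0) .nil)))))) (.g (nat_lit 1) (.e (nat_lit 128957) (nat_lit 0) .nil) .nil))))) (.nd (nat_lit 8) (.nd (nat_lit 9) 
(.lf (nat_lit 483481) (.g (nat_lit 4470) (.e (nat_lit 6418) (nat_lit 341) (.e (nat_lit 163908) (nat_lit 12) (.e (nat_lit 426136) (nat_lit 3) (.e (nat_lit 204869) (nat_lit 29) (.e (nat_lit 360475) (nat_lit 8) (.e (nat_lit 557089) (nat_lit 12) (.e (nat_lit 163844) (nat_lit 0) .nil))))))) (.g (nat_lit 1) (.e (nat_lit 123955) (nat_lit 0) .nil) .nil))) 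
(.lf (nat_lit 483993) (.g (nat_lit 1295) (.e (nat_lit 6722) (nat_lit 362) (.e (nat_lit 180251) (nat_lit 10) (.e (nat_lit 573469) (nat_lit 11) (.e (nat_lit 16454) (nat_lit 11) .nil)))) (.g (nat_lit 0) (.e (nat_lit 128376) (nat_lit 0) .nil) .nil)))) (.nd (nat_lit 9) 
(.lf (nat_lit 483737) (.g (nat_lit 1010) (.e (nat_lit 6393) (nat_lit 339) (.e (nat_lit 57378) (nat_lit 3) (.e (nat_lit 98334) (nat_lit 18) .nil))) (.g (nat_lit 0) (.e (nat_lit 126476) (nat_lit 0) .nil) .nil))) 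
(.lf (nat_lit 484249) (.g (nat_lit 1024) (.e (nat_lit 7936) (nat_lit 362) (.e (nat_lit 180271) (nat_lit 26) (.e (nat_lit 704738) (nat_lit 11) (.e (nat_lit 16439) (nat_lit 9) .nil)))) (.g (nat_lit 0) (.e (nat_lit 129325) (nat_lit 0) .nil) .nil)))))) (.nd (nat_lit 7) (.nd (nat_lit 8) (.nd (nat_lit 9) 
(.lf (nat_lit 483417) (.g (nat_lit 4860) (.e (nat_lit 6416) (nat_lit 341) (.e (nat_lit 163909) (nat_lit 12) (.e (nat_lit 426125) (nat_lit 2) (.e (nat_lit 196666) (nat_lit 13) (.e (nat_lit 65617) (nat_lit 10) (.e (nat_lit 344133) (nat_lit 26) (.e (nat_lit 557091) (nat_lit 12) (.e (nat_lit 163849) (nat_lit 0) .nil)))))))) (.g (nat_lit 1) (.e (nat_lit 123388) (nat_lit 0) .nil) .nil))) 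
(.lf (nat_lit 483929) (.g (nat_lit 398) (.e (nat_lit 6719) (nat_lit 361) (.e (nat_lit 172143) (nat_lit 25) (.e (nat_lit 319493) (nat_lit 0) (.e (nat_lit 5771) (nat_lit 316) (.e (nat_lit 172149) (nat_lit 27) (.e (nat_lit 335877) (nat_lit 0) .nil)))))) (.g (nat_lit 1) (.e (nat_lit 127932) (nat_lit 0) .nil) .nil)))) (.nd (nat_lit 9) 
(.lf (nat_lit 483673) (.g (nat_lit 2356) (.e (nat_lit 6425) (nat_lit 342) (.e (nat_lit 229413) (nat_lit 15) (.e (nat_lit 450604) (nat_lit 22) (.e (nat_lit 704737) (nat_lit 11) (.e (nat_lit 16449) (nat_lit 10) (.e (nat_lit 434212) (nat_lit 18) .nil)))))) (.g (nat_lit 1) (.e (nat_lit 125695) (nat_lit 0) .nil) .nil))) 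
(.lf (nat_lit 484185) (.g (nat_lit 1562) (.e (nat_lit 6724) (nat_lit 362) (.e (nat_lit 180271) (nat_lit 26) (.e (nat_lit 704738) (nat_lit 11) (.e (nat_lit 16386) (nat_lit 0) .nil)))) (.g (nat_lit 0) (.e (nat_lit 129103) (nat_lit 0) .nil) .nil))))) (.nd (nat_lit 8) (.nd (nat_lit 9) 
(.lf (nat_lit 483545) (.g (nat_lit 2552) (.e (nat_lit 6420) (nat_lit 341) (.e (nat_lit 163902) (nat_lit 12) (.e (nat_lit 426438) (nat_lit 18) (.e (nat_lit 98365) (nat_lit 26) (.e (nat_lit 426343) (nat_lit 14) (.e (nat_lit 491584) (nat_lit 28) (.e (nat_lit 434206) (nat_lit 18) .nil))))))) (.g (nat_lit 1) (.e (nat_lit 124528) (nat_lit 0) .nil) .nil))) 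
(.lf (nat_lit 484057) (.g (nat_lit 3092) (.e (nat_lit 6724) (nat_lit 362) (.e (nat_lit 180243) (nat_lit 5) (.e (nat_lit 532523) (nat_lit 7) (.e (nat_lit 319504) (nat_lit 10) (.e (nat_lit 5714) (nat_lit 312) (.e (nat_lit 2682) (nat_lit 168) (.e (nat_lit 204815) (nat_lit 17) .nil))))))) (.g (nat_lit 1) (.e (nat_lit 128855) (nat_lit 0) .nil) .nil)))) (.nd (nat_lit 9) 
(.lf (nat_lit 483801) (.g (nat_lit 2037) (.e (nat_lit 6643) (nat_lit 357) (.e (nat_lit 3089) (nat_lit 191) (.e (nat_lit 483409) (nat_lit 27) (.e (nat_lit 401459) (nat_lit 13) (.e (nat_lit 483343) (nat_lit 17) .nil))))) (.g (nat_lit 0) (.e (nat_lit 126944) (nat_lit 0) .nil) .nil))) 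
(.lf (nat_lit 484313) (.g (nat_lit 2489) (.e (nat_lit 8316) (nat_lit 64) (.e (nat_lit 516117) (nat_lit 1) (.e (nat_lit 164329) (nat_lit 230) (.e (nat_lit 163902) (nat_lit 12) .nil)))) (.g (nat_lit 0) (.e (nat_lit 129761) (nat_lit 0) .nil) .nil))))))) (.nd (nat_lit 6) (.nd (nat_lit 7) (.nd (nat_lit 8) (.nd (nat_lit 9) 
(.lf (nat_lit 483385) (.g (nat_lit 2658) (.e (nat_lit 6416) (nat_lit 341) (.e (nat_lit 163908) (nat_lit 12) (.e (nat_lit 426136) (nat_lit 3) (.e (nat_lit 204869) (nat_lit 29) (.e (nat_lit 360474) (nat_lit 8) (.e (nat_lit 557094) (nat_lit 12) (.e (nat_lit 163847) (nat_lit 0) .nil))))))) (.g (nat_lit 1) (.e (nat_lit 123237) (nat_lit 0) .nil) .nil))) 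
(.lf (nat_lit 483897) (.g (nat_lit 3302) (.e (nat_lit 6713) (nat_lit 360) (.e (nat_lit 163962) (nat_lit 25) (.e (nat_lit 532535) (nat_lit 9) (.e (nat_lit 336173) (nat_lit 10) (.e (nat_lit 344126) (nat_lit 25) .nil))))) (.g (nat_lit 0) (.e (nat_lit 127700) (nat_lit 0) .nil) .nil)))) (.nd (nat_lit 9) 
(.lf (nat_lit 483641) (.g (nat_lit 1659) (.e (nat_lit 6425) (nat_lit 342) (.e (nat_lit 229403) (nat_lit 12) (.e (nat_lit 426125) (nat_lit 2) (.e (nat_lit 196666) (nat_lit 13) (.e (nat_lit 65610) (nat_lit 10) (.e (nat_lit 344129) (nat_lit 26) (.e (nat_lit 557090) (nat_lit 12) (.e (nat_lit 163852) (nat_lit 0) .nil)))))))) (.g (nat_lit 1) (.e (nat_lit 125568) (nat_lit 0) .nil) .nil))) 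
(.lf (nat_lit 484153) (.g (nat_lit 1538) (.e (nat_lit 6724) (nat_lit 362) (.e (nat_lit 180252) (nat_lit 10) (.e (nat_lit 573471) (nat_lit 11) (.e (nat_lit 16433) (nat_lit 9) (.e (nat_lit 433920) (nat_lit 3) .nil))))) (.g (nat_lit 0) (.e (nat_lit 129002) (nat_lit 0) .nil) .nil))))) (.nd (nat_lit 8) (.nd (nat_lit 9) 
(.lf (nat_lit 483513) (.g (nat_lit 3696) (.e (nat_lit 6420) (nat_lit 341) (.e (nat_lit 163843) (nat_lit 0) (.e (nat_lit 7366) (nat_lit 388) (.e (nat_lit 2663) (nat_lit 167) (.e (nat_lit 196666) (nat_lit 13) (.e (nat_lit 65617) (nat_lit 10) (.e (nat_lit 344132) (nat_lit 26) (.e (nat_lit 557094) (nat_lit 12) (.e (nat_lit 163847) (nat_lit 0) .nil))))))))) (.g (nat_lit 1) (.e (nat_lit 124424) (nat_lit 0) .nil) .nil))) 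
(.lf (nat_lit 484025) (.g (nat_lit 1696) (.e (nat_lit 6722) (nat_lit 362) (.e (nat_lit 180271) (nat_lit 26) (.e (nat_lit 704738) (nat_lit 11) (.e (nat_lit 16384) (nat_lit 0) (.e (nat_lit 7936) (nat_lit 390) .nil))))) (.g (nat_lit 0) (.e (nat_lit 128505) (nat_lit 0) .nil) .nil)))) (.nd (nat_lit 9) 
(.lf (nat_lit 483769) (.g (nat_lit 3303) (.e (nat_lit 7936) (nat_lit 343) (.e (nat_lit 1256) (nat_lit 92) (.e (nat_lit 98373) (nat_lit 29) (.e (nat_lit 450588) (nat_lit 10) (.e (nat_lit 573475) (nat_lit 12) .nil))))) (.g (nat_lit 0) (.e (nat_lit 126527) (nat_lit 0) .nil) .nil))) 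
(.lf (nat_lit 484281) (.g (nat_lit 3089) (.e (nat_lit 6830) (nat_lit 367) (.e (nat_lit 57378) (nat_lit 3) (.e (nat_lit 98368) (nat_lit 27) (.e (nat_lit 434248) (nat_lit 28) (.e (nat_lit 573482) (nat_lit 13) (.e (nat_lit 65571) (nat_lit 3) (.e (nat_lit 98319) (nat_lit 17) (.e (nat_lit 2399) (nat_lit 157) .nil)))))))) (.g (nat_lit 1) (.e (nat_lit 129541) (nat_lit 0) .nil) .nil)))))) 
(.nd (nat_lit 7) (.nd (nat_lit 8) (.nd (nat_lit 9) 
(.lf (nat_lit 483449) (.g (nat_lit 3504) (.e (nat_lit 6418) (nat_lit 341) (.e (nat_lit 163900) (nat_lit 12) (.e (nat_lit 426125) (nat_lit 2) (.e (nat_lit 196666) (nat_lit 13) (.e (nat_lit 65610) (nat_lit 10) (.e (nat_lit 344129) (nat_lit 26) (.e (nat_lit 557090) (nat_lit 12) (.e (nat_lit 163840) (nat_lit 0) .nil)))))))) (.g (nat_lit 1) (.e (nat_lit 123883) (nat_lit 0) .nil) .nil))) 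
(.lf (nat_lit 483961) (.g (nat_lit 2383) (.e (nat_lit 6722) (nat_lit 362) (.e (nat_lit 180242) (nat_lit 5) (.e (nat_lit 532569) (nat_lit 16) (.e (nat_lit 401448) (nat_lit 10) (.e (nat_lit 434231) (nat_lit 23) .nil))))) (.g (nat_lit 0) (.e (nat_lit 128261) (nat_lit 0) .nil) .nil)))) (.nd (nat_lit 9) 
(.lf (nat_lit 483705) (.g (nat_lit 3232) (.e (nat_lit 6426) (nat_lit 342) (.e (nat_lit 229413) (nat_lit 15) (.e (nat_lit 450601) (nat_lit 21) (.e (nat_lit 696344) (nat_lit 8) (.e (nat_lit 172106) (nat_lit 10) (.e (nat_lit 434209) (nat_lit 18) .nil)))))) (.g (nat_lit 1) (.e (nat_lit 125956) (nat_lit 0) .nil) .nil))) 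
(.lf (nat_lit 484217) (.g (nat_lit 569) (.e (nat_lit 7936) (nat_lit 362) (.e (nat_lit 180250) (nat_lit 10) (.e (nat_lit 573470) (nat_lit 11) .nil))) (.g (nat_lit 0) (.e (nat_lit 129223) (nat_lit 0) .nil) .nil))))) (.nd (nat_lit 8) (.nd (nat_lit 9) 
(.lf (nat_lit 483577) (.g (nat_lit 3349) (.e (nat_lit 6421) (nat_lit 341) (.e (nat_lit 163900) (nat_lit 12) (.e (nat_lit 426140) (nat_lit 3) (.e (nat_lit 204868) (nat_lit 29) (.e (nat_lit 360473) (nat_lit 8) (.e (nat_lit 557089) (nat_lit 12) (.e (nat_lit 163849) (nat_lit 0) .nil))))))) (.g (nat_lit 1) (.e (nat_lit 124983) (nat_lit 0) .nil) .nil))) 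
(.lf (nat_lit 484089) (.g (nat_lit 3629) (.e (nat_lit 6724) (nat_lit 362) (.e (nat_lit 180250) (nat_lit 10) (.e (nat_lit 573469) (nat_lit 11) (.e (nat_lit 16436) (nat_lit 9) (.e (nat_lit 426131) (nat_lit 3) (.e (nat_lit 204815) (nat_lit 17) .nil)))))) (.g (nat_lit 1) (.e (nat_lit 128914) (nat_lit 0) .nil) .nil)))) (.nd (nat_lit 9) 
(.lf (nat_lit 483833) (.g (nat_lit 2265) (.e (nat_lit 6681) (nat_lit 357) (.e (nat_lit 3067) (nat_lit 190) (.e (nat_lit 475185) (nat_lit 29) (.e (nat_lit 557101) (nat_lit 13) (.e (nat_lit 172097) (nat_lit 9) .nil))))) (.g (nat_lit 0) (.e (nat_lit 127308) (nat_lit 0) .nil) .nil))) 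
(.lf (nat_lit 484345) (.g (nat_lit 2752) (.e (nat_lit 8324) (nat_lit 69) (.e (nat_lit 557105) (nat_lit 14) (.e (nat_lit 180252) (nat_lit 10) (.e (nat_lit 573489) (nat_lit 14) (.e (nat_lit 73755) (nat_lit 8) (.e (nat_lit 557090) (nat_lit 12) (.e (nat_lit 164009) (nat_lit 41) (.e (nat_lit 663582) (nat_lit 10) .nil)))))))) (.g (nat_lit 1) (.e (nat_lit 129837) (nat_lit 0) .nil) .nil)))))))))) 
(.nd (nat_lit 3) (.nd (nat_lit 4) (.nd (nat_lit 5) (.nd (nat_lit 6) (.nd (nat_lit 7) 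
(.nd (nat_lit 8) (.nd (nat_lit 9) 
(.lf (nat_lit 483333) (.g (nat_lit 645) (.e (nat_lit 6255) (nat_lit 337) (.e (nat_lit 2653) (nat_lit 166) (.e (nat_lit 188441) (nat_lit 20) (.e (nat_lit 3469) (nat_lit 217) .nil)))) (.g (nat_lit 0) (.e (nat_lit 122538) (nat_lit 0) .nil) .nil))) 
(.lf (nat_lit 483845) (.g (nat_lit 1962) (.e (nat_lit 6684) (nat_lit 357) (.e (nat_lit 2962) (nat_lit 185) (.e (nat_lit 434231) (nat_lit 23) (.e (nat_lit 532569) (nat_lit 16) (.e (nat_lit 401448) (nat_lit 10) .nil))))) (.g (nat_lit 0) (.e (nat_lit 127347) (nat_lit 0) .nil) .nil)))) (.nd (nat_lit 9) 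
(.lf (nat_lit 483589) (.g (nat_lit 2292) (.e (nat_lit 6421) (nat_lit 341) (.e (nat_lit 163909) (nat_lit 12) (.e (nat_lit 426140) (nat_lit 3) (.e (nat_lit 204868) (nat_lit 29) (.e (nat_lit 360473) (nat_lit 8) (.e (nat_lit 557091) (nat_lit 12) (.e (nat_lit 163847) (nat_lit 0) .nil))))))) (.g (nat_lit 1) (.e (nat_lit 125045) (nat_lit 0) .nil) .nil))) 
(.lf (nat_lit 484101) (.g (nat_lit 1175) (.e (nat_lit 6724) (nat_lit 362) (.e (nat_lit 180250) (nat_lit 10) (.e (nat_lit 573470) (nat_lit 11) (.e (nat_lit 16452) (nat_lit 11) .nil)))) (.g (nat_lit 0) (.e (nat_lit 128926) (nat_lit 0) .nil) .nil))))) (.nd (nat_lit 8) (.nd (nat_lit 9) 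
(.lf (nat_lit 483461) (.g (nat_lit 2563) (.e (nat_lit 6418) (nat_lit 341) (.e (nat_lit 163900) (nat_lit 12) (.e (nat_lit 426140) (nat_lit 3) (.e (nat_lit 204868) (nat_lit 29) (.e (nat_lit 360473) (nat_lit 8) (.e (nat_lit 557093) (nat_lit 12) (.e (nat_lit 163848) (nat_lit 0) .nil))))))) (.g (nat_lit 1) (.e (nat_lit 123903) (nat_lit 0) .nil) .nil))) 
(.lf (nat_lit 483973) (.g (nat_lit 2195) (.e (nat_lit 6722) (nat_lit 362) (.e (nat_lit 180244) (nat_lit 5) (.e (nat_lit 532523) (nat_lit 7) (.e (nat_lit 319505) (nat_lit 10) (.e (nat_lit 5714) (nat_lit 312) .nil))))) (.g (nat_lit 0) (.e (nat_lit 128277) (nat_lit 0) .nil) .nil)))) (.nd (nat_lit 9) 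
(.lf (nat_lit 483717) (.g (nat_lit 3950) (.e (nat_lit 6428) (nat_lit 342) (.e (nat_lit 229399) (nat_lit 12) (.e (nat_lit 426125) (nat_lit 2) (.e (nat_lit 196666) (nat_lit 13) (.e (nat_lit 65617) (nat_lit 10) (.e (nat_lit 344132) (nat_lit 26) (.e (nat_lit 557093) (nat_lit 12) (.e (nat_lit 163853) (nat_lit 0) .nil)))))))) (.g (nat_lit 1) (.e (nat_lit 126177) (nat_lit 0) .nil) .nil))) 
(.lf (nat_lit 484229) (.g (nat_lit 2595) (.e (nat_lit 7936) (nat_lit 362) (.e (nat_lit 180252) (nat_lit 10) (.e (nat_lit 573471) (nat_lit 11) (.e (nat_lit 16448) (nat_lit 10) (.e (nat_lit 434234) (nat_lit 23) .nil))))) (.g (nat_lit 0) (.e (nat_lit 129279) (nat_lit 0) .nil) .nil)))))) (.nd (nat_lit 7) (.nd (nat_lit 8) (.nd (nat_lit 9) 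
(.lf (nat_lit 483397) (.g (nat_lit 2811) (.e (nat_lit 6416) (nat_lit 341) (.e (nat_lit 163908) (nat_lit 12) (.e (nat_lit 426286) (nat_lit 10) (.e (nat_lit 434212) (nat_lit 18) (.e (nat_lit 6425) (nat_lit 342) (.e (nat_lit 229415) (nat_lit 15) (.e (nat_lit 450563) (nat_lit 0) .nil))))))) (.g (nat_lit 1) (.e (nat_lit 123315) (nat_lit 0) .nil) .nil))) 
(.lf (nat_lit 483909) (.g (nat_lit 2699) (.e (nat_lit 6718) (nat_lit 361) (.e (nat_lit 172067) (nat_lit 3) (.e (nat_lit 204885) (nat_lit 33) (.e (nat_lit 401448) (nat_lit 10) (.e (nat_lit 434232) (nat_lit 23) (.e (nat_lit 532482) (nat_lit 0) .nil)))))) (.g (nat_lit 1) (.e (nat_lit 127873) (nat_lit 0) .nil) .nil)))) (.nd (nat_lit 9) 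
(.lf (nat_lit 483653) (.g (nat_lit 3802) (.e (nat_lit 6425) (nat_lit 342) (.e (nat_lit 229409) (nat_lit 13) (.e (nat_lit 434231) (nat_lit 23) (.e (nat_lit 532549) (nat_lit 12) (.e (nat_lit 360473) (nat_lit 8) (.e (nat_lit 557093) (nat_lit 12) (.e (nat_lit 163853) (nat_lit 0) .nil))))))) (.g (nat_lit 1) (.e (nat_lit 125606) (nat_lit 0) .nil) .nil))) 
(.lf (nat_lit 484165) (.g (nat_lit 1275) (.e (nat_lit 6724) (nat_lit 362) (.e (nat_lit 180271) (nat_lit 26) (.e (nat_lit 704736) (nat_lit 11) (.e (nat_lit 16462) (nat_lit 13) (.e (nat_lit 483343) (nat_lit 17) .nil))))) (.g (nat_lit 1) (.e (nat_lit 129076) (nat_lit 0) .nil) .nil))))) (.nd (nat_lit 8) (.nd (nat_lit 9) 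
(.lf (nat_lit 483525) (.g (nat_lit 4437) (.e (nat_lit 6420) (nat_lit 341) (.e (nat_lit 163900) (nat_lit 12) (.e (nat_lit 426125) (nat_lit 2) (.e (nat_lit 196666) (nat_lit 13) (.e (nat_lit 65617) (nat_lit 10) (.e (nat_lit 344133) (nat_lit 26) (.e (nat_lit 557091) (nat_lit 12) (.e (nat_lit 163844) (nat_lit 0) .nil)))))))) (.g (nat_lit 1) (.e (nat_lit 124449) (nat_lit 0) .nil) .nil))) 
(.lf (nat_lit 484037) (.g (nat_lit 2299) (.e (nat_lit 6722) (nat_lit 362) (.e (nat_lit 180271) (nat_lit 26) (.e (nat_lit 704738) (nat_lit 11) (.e (nat_lit 16466) (nat_lit 13) (.e (nat_lit 483343) (nat_lit 17) .nil))))) (.g (nat_lit 1) (.e (nat_lit 128522) (nat_lit 0) .nil) .nil)))) (.nd (nat_lit 9) 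
(.lf (nat_lit 483781) (.g (nat_lit 3129) (.e (nat_lit 6617) (nat_lit 357) (.e (nat_lit 2685) (nat_lit 168) (.e (nat_lit 204868) (nat_lit 29) (.e (nat_lit 360473) (nat_lit 8) (.e (nat_lit 557085) (nat_lit 11) (.e (nat_lit 24580) (nat_lit 0) .nil)))))) (.g (nat_lit 1) (.e (nat_lit 126766) (nat_lit 0) .nil) .nil))) 
(.lf (nat_lit 484293) (.g (nat_lit 2864) (.e (nat_lit 8303) (nat_lit 58) (.e (nat_lit 286735) (nat_lit 3) (.e (nat_lit 98372) (nat_lit 29) (.e (nat_lit 450579) (nat_lit 5) .nil)))) (.g (nat_lit 0) (.e (nat_lit 129733) (nat_lit 0) .nil) .nil))))))) (.nd (nat_lit 6) (.nd (nat_lit 7) (.nd (nat_lit 8) (.nd (nat_lit 9) 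
(.lf (nat_lit 483365) (.g (nat_lit 3208) (.e (nat_lit 6416) (nat_lit 341) (.e (nat_lit 163900) (nat_lit 12) (.e (nat_lit 426140) (nat_lit 3) (.e (nat_lit 204869) (nat_lit 29) (.e (nat_lit 360474) (nat_lit 8) (.e (nat_lit 557093) (nat_lit 12) (.e (nat_lit 163849) (nat_lit 0) .nil))))))) (.g (nat_lit 1) (.e (nat_lit 123058) (nat_lit 0) .nil) .nil))) 
(.lf (nat_lit 483877) (.g (nat_lit 2453) (.e (nat_lit 6711) (nat_lit 360) (.e (nat_lit 163962) (nat_lit 25) (.e (nat_lit 532550) (nat_lit 12) (.e (nat_lit 360474) (nat_lit 8) (.e (nat_lit 557072) (nat_lit 9) (.e (nat_lit 288) (nat_lit 21) (.e (nat_lit 335872) (nat_lit 0) .nil))))))) (.g (nat_lit 1) (.e (nat_lit 127568) (nat_lit 0) .nil) .nil)))) (.nd (nat_lit 9) 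
(.lf (nat_lit 483621) (.g (nat_lit 4194) (.e (nat_lit 6421) (nat_lit 341) (.e (nat_lit 163917) (nat_lit 13) (.e (nat_lit 434231) (nat_lit 23) (.e (nat_lit 532550) (nat_lit 12) (.e (nat_lit 360475) (nat_lit 8) (.e (nat_lit 557089) (nat_lit 12) (.e (nat_lit 163849) (nat_lit 0) .nil))))))) (.g (nat_lit 1) (.e (nat_lit 125156) (nat_lit 0) .nil) .nil))) 
(.lf (nat_lit 484133) (.g (nat_lit 3873) (.e (nat_lit 6724) (nat_lit 362) (.e (nat_lit 180251) (nat_lit 10) (.e (nat_lit 573471) (nat_lit 11) (.e (nat_lit 16447) (nat_lit 10) (.e (nat_lit 434231) (nat_lit 23) (.e (nat_lit 532481) (nat_lit 0) .nil)))))) (.g (nat_lit 1) (.e (nat_lit 128969) (nat_lit 0) .nil) .nil))))) (.nd (nat_lit 8) (.nd (nat_lit 9) 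
(.lf (nat_lit 483493) (.g (nat_lit 3411) (.e (nat_lit 6418) (nat_lit 341) (.e (nat_lit 163908) (nat_lit 12) (.e (nat_lit 426286) (nat_lit 10) (.e (nat_lit 434289) (nat_lit 43) (.e (nat_lit 696344) (nat_lit 8) (.e (nat_lit 172113) (nat_lit 10) (.e (nat_lit 434207) (nat_lit 18) .nil))))))) (.g (nat_lit 1) (.e (nat_lit 124038) (nat_lit 0) .nil) .nil))) 
(.lf (nat_lit 484005) (.g (nat_lit 2546) (.e (nat_lit 6722) (nat_lit 362) (.e (nat_lit 180269) (nat_lit 25) (.e (nat_lit 696343) (nat_lit 8) (.e (nat_lit 172123) (nat_lit 13) (.e (nat_lit 483344) (nat_lit 17) .nil))))) (.g (nat_lit 1) (.e (nat_lit 128434) (nat_lit 0) .nil) .nil)))) (.nd (nat_lit 9) 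
(.lf (nat_lit 483749) (.g (nat_lit 2307) (.e (nat_lit 6400) (nat_lit 339) (.e (nat_lit 57411) (nat_lit 12) (.e (nat_lit 336367) (nat_lit 27) (.e (nat_lit 426542) (nat_lit 29) (.e (nat_lit 352313) (nat_lit 23) .nil))))) (.g (nat_lit 0) (.e (nat_lit 126493) (nat_lit 0) .nil) .nil))) 
(.lf (nat_lit 484261) (.g (nat_lit 1552) (.e (nat_lit 6740) (nat_lit 365) (.e (nat_lit 1222) (nat_lit 90) (.e (nat_lit 81959) (nat_lit 24) (.e (nat_lit 123025) (nat_lit 127) .nil)))) (.g (nat_lit 0) (.e (nat_lit 129360) (nat_lit 0) .nil) .nil)))))) (.nd (nat_lit 7) (.nd (nat_lit 8) (.nd (nat_lit 9) 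
(.lf (nat_lit 483429) (.g (nat_lit 3218) (.e (nat_lit 6416) (nat_lit 341) (.e (nat_lit 163909) (nat_lit 12) (.e (nat_lit 426140) (nat_lit 3) (.e (nat_lit 204869) (nat_lit 29) (.e (nat_lit 360474) (nat_lit 8) (.e (nat_lit 557094) (nat_lit 12) (.e (nat_lit 163847) (nat_lit 0) .nil))))))) (.g (nat_lit 1) (.e (nat_lit 123416) (nat_lit 0) .nil) .nil))) 
(.lf (nat_lit 483941) (.g (nat_lit 2953) (.e (nat_lit 6720) (nat_lit 361) (.e (nat_lit 172143) (nat_lit 25) (.e (nat_lit 319490) (nat_lit 0) (.e (nat_lit 5664) (nat_lit 312) (.e (nat_lit 3085) (nat_lit 191) (.e (nat_lit 483345) (nat_lit 17) .nil)))))) (.g (nat_lit 1) (.e (nat_lit 127978) (nat_lit 0) .nil) .nil)))) (.nd (nat_lit 9) 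
(.lf (nat_lit 483685) (.g (nat_lit 2195) (.e (nat_lit 6425) (nat_lit 342) (.e (nat_lit 229415) (nat_lit 15) (.e (nat_lit 450563) (nat_lit 0) (.e (nat_lit 6416) (nat_lit 341) (.e (nat_lit 163908) (nat_lit 12) (.e (nat_lit 426275) (nat_lit 10) (.e (nat_lit 434212) (nat_lit 18) .nil))))))) (.g (nat_lit 1) (.e (nat_lit 125742) (nat_lit 0) .nil) .nil))) 
(.lf (nat_lit 484197) (.g (nat_lit 1593) (.e (nat_lit 6724) (nat_lit 362) (.e (nat_lit 180271) (nat_lit 26) (.e (nat_lit 704738) (nat_lit 11) (.e (nat_lit 16464) (nat_lit 13) (.e (nat_lit 491264) (nat_lit 17) .nil))))) (.g (nat_lit 1) (.e (nat_lit 129115) (nat_lit 0) .nil) .nil))))) (.nd (nat_lit 8) (.nd (nat_lit 9) 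
(.lf (nat_lit 483557) (.g (nat_lit 4738) (.e (nat_lit 6420) (nat_lit 341) (.e (nat_lit 163908) (nat_lit 12) (.e (nat_lit 426136) (nat_lit 3) (.e (nat_lit 204869) (nat_lit 29) (.e (nat_lit 360475) (nat_lit 8) (.e (nat_lit 557089) (nat_lit 12) (.e (nat_lit 163849) (nat_lit 0) .nil))))))) (.g (nat_lit 1) (.e (nat_lit 124576) (nat_lit 0) .nil) .nil))) 
(.lf (nat_lit 484069) (.g (nat_lit 1872) (.e (nat_lit 6724) (nat_lit 362) (.e (nat_lit 180243) (nat_lit 5) (.e (nat_lit 532566) (nat_lit 15) (.e (nat_lit 385106) (nat_lit 50) (.e (nat_lit 794368) (nat_lit 3) (.e (nat_lit 204816) (nat_lit 17) .nil)))))) (.g (nat_lit 1) (.e (nat_lit 128870) (nat_lit 0) .nil) .nil)))) (.nd (nat_lit 9) 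
(.lf (nat_lit 483813) (.g (nat_lit 4243) (.e (nat_lit 6666) (nat_lit 357) (.e (nat_lit 3067) (nat_lit 190) (.e (nat_lit 475185) (nat_lit 29) (.e (nat_lit 557109) (nat_lit 15) (.e (nat_lit 188452) (nat_lit 23) (.e (nat_lit 212736) (nat_lit 17) .nil)))))) (.g (nat_lit 1) (.e (nat_lit 127091) (nat_lit 0) .nil) .nil))) 
(.lf (nat_lit 484325) (.g (nat_lit 2668) (.e (nat_lit 8318) (nat_lit 64) (.e (nat_lit 516150) (nat_lit 9) (.e (nat_lit 426131) (nat_lit 3) (.e (nat_lit 204838) (nat_lit 20) (.e (nat_lit 114715) (nat_lit 22) (.e (nat_lit 90202) (nat_lit 21) (.e (nat_lit 164368) (nat_lit 247) .nil))))))) (.g (nat_lit 1) (.e (nat_lit 129784) (nat_lit 0) .nil) .nil)))))))) 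
(.nd (nat_lit 5) (.nd (nat_lit 6) (.nd (nat_lit 7) (.nd (nat_lit 8) (.nd (nat_lit 9) 
(.lf (nat_lit 483349) (.g (nat_lit 3276) (.e (nat_lit 6416) (nat_lit 341) (.e (nat_lit 163867) (nat_lit 2) (.e (nat_lit 196656) (nat_lit 11) (.e (nat_lit 16473) (nat_lit 14) (.e (nat_lit 491582) (nat_lit 27) .nil))))) (.g (nat_lit 0) (.e (nat_lit 123020) (nat_lit 0) .nil) .nil))) 
(.lf (nat_lit 483861) (.g (nat_lit 2318) (.e (nat_lit 6711) (nat_lit 360) (.e (nat_lit 163962) (nat_lit 25) (.e (nat_lit 532535) (nat_lit 9) (.e (nat_lit 336058) (nat_lit 7) (.e (nat_lit 319519) (nat_lit 12) .nil))))) (.g (nat_lit 0) (.e (nat_lit 127512) (nat_lit 0) .nil) .nil)))) (.nd (nat_lit 9) 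
(.lf (nat_lit 483605) (.g (nat_lit 4897) (.e (nat_lit 6421) (nat_lit 341) (.e (nat_lit 163913) (nat_lit 12) (.e (nat_lit 426129) (nat_lit 3) (.e (nat_lit 204869) (nat_lit 29) (.e (nat_lit 360475) (nat_lit 8) (.e (nat_lit 557091) (nat_lit 12) (.e (nat_lit 163847) (nat_lit 0) .nil))))))) (.g (nat_lit 1) (.e (nat_lit 125070) (nat_lit 0) .nil) .nil))) 
(.lf (nat_lit 484117) (.g (nat_lit 2608) (.e (nat_lit 6724) (nat_lit 362) (.e (nat_lit 180251) (nat_lit 10) (.e (nat_lit 573469) (nat_lit 11) (.e (nat_lit 16444) (nat_lit 9) (.e (nat_lit 426129) (nat_lit 3) (.e (nat_lit 204816) (nat_lit 17) .nil)))))) (.g (nat_lit 1) (.e (nat_lit 128953) (nat_lit 0) .nil) .nil))))) (.nd (nat_lit 8) (.nd (nat_lit 9) 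
(.lf (nat_lit 483477) (.g (nat_lit 3500) (.e (nat_lit 6418) (nat_lit 341) (.e (nat_lit 163908) (nat_lit 12) (.e (nat_lit 426132) (nat_lit 3) (.e (nat_lit 204869) (nat_lit 29) (.e (nat_lit 360475) (nat_lit 8) (.e (nat_lit 557091) (nat_lit 12) (.e (nat_lit 163844) (nat_lit 0) .nil))))))) (.g (nat_lit 1) (.e (nat_lit 123951) (nat_lit 0) .nil) .nil))) 
(.lf (nat_lit 483989) (.g (nat_lit 2938) (.e (nat_lit 6722) (nat_lit 362) (.e (nat_lit 180250) (nat_lit 10) (.e (nat_lit 573471) (nat_lit 11) (.e (nat_lit 16449) (nat_lit 10) (.e (nat_lit 434231) (nat_lit 23) .nil))))) (.g (nat_lit 0) (.e (nat_lit 128352) (nat_lit 0) .nil) .nil)))) (.nd (nat_lit 9) 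
(.lf (nat_lit 483733) (.g (nat_lit 2119) (.e (nat_lit 6392) (nat_lit 339) (.e (nat_lit 57378) (nat_lit 3) (.e (nat_lit 98334) (nat_lit 18) (.e (nat_lit 164330) (nat_lit 230) .nil)))) (.g (nat_lit 0) (.e (nat_lit 126472) (nat_lit 0) .nil) .nil))) 
(.lf (nat_lit 484245) (.g (nat_lit 842) (.e (nat_lit 7936) (nat_lit 362) (.e (nat_lit 180271) (nat_lit 26) (.e (nat_lit 704737) (nat_lit 11) (.e (nat_lit 16466) (nat_lit 13) .nil)))) (.g (nat_lit 0) (.e (nat_lit 129320) (nat_lit 0) .nil) .nil)))))) (.nd (nat_lit 7) (.nd (nat_lit 8) (.nd (nat_lit 9) 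
(.lf (nat_lit 483413) (.g (nat_lit 5052) (.e (nat_lit 6416) (nat_lit 341) (.e (nat_lit 163909) (nat_lit 12) (.e (nat_lit 426125) (nat_lit 2) (.e (nat_lit 196666) (nat_lit 13) (.e (nat_lit 65617) (nat_lit 10) (.e (nat_lit 344133) (nat_lit 26) (.e (nat_lit 557089) (nat_lit 12) (.e (nat_lit 163849) (nat_lit 0) .nil)))))))) (.g (nat_lit 1) (.e (nat_lit 123384) (nat_lit 0) .nil) .nil))) 
(.lf (nat_lit 483925) (.g (nat_lit 2104) (.e (nat_lit 6718) (nat_lit 361) (.e (nat_lit 172150) (nat_lit 27) (.e (nat_lit 336232) (nat_lit 14) (.e (nat_lit 401444) (nat_lit 9) (.e (nat_lit 426503) (nat_lit 27) (.e (nat_lit 335892) (nat_lit 0) .nil)))))) (.g (nat_lit 1) (.e (nat_lit 127921) (nat_lit 0) .nil) .nil)))) (.nd (nat_lit 9) 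
(.lf (nat_lit 483669) (.g (nat_lit 2613) (.e (nat_lit 6425) (nat_lit 342) (.e (nat_lit 229412) (nat_lit 14) (.e (nat_lit 442436) (nat_lit 26) (.e (nat_lit 253992) (nat_lit 11) (.e (nat_lit 16449) (nat_lit 10) (.e (nat_lit 434212) (nat_lit 18) .nil)))))) (.g (nat_lit 1) (.e (nat_lit 125666) (nat_lit 0) .nil) .nil))) 
(.lf (nat_lit 484181) (.g (nat_lit 1654) (.e (nat_lit 6724) (nat_lit 362) (.e (nat_lit 180271) (nat_lit 26) (.e (nat_lit 704737) (nat_lit 11) (.e (nat_lit 16465) (nat_lit 13) (.e (nat_lit 491264) (nat_lit 17) .nil))))) (.g (nat_lit 1) (.e (nat_lit 129097) (nat_lit 0) .nil) .nil))))) (.nd (nat_lit 8) (.nd (nat_lit 9) 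
(.lf (nat_lit 483541) (.g (nat_lit 894) (.e (nat_lit 6420) (nat_lit 341) (.e (nat_lit 163902) (nat_lit 12) (.e (nat_lit 426272) (nat_lit 10) .nil))) (.g (nat_lit 0) (.e (nat_lit 124476) (nat_lit 0) .nil) .nil))) 
(.lf (nat_lit 484053) (.g (nat_lit 772) (.e (nat_lit 6724) (nat_lit 362) (.e (nat_lit 180243) (nat_lit 5) (.e (nat_lit 532489) (nat_lit 0) (.e (nat_lit 6684) (nat_lit 357) .nil)))) (.g (nat_lit 0) (.e (nat_lit 128850) (nat_lit 0) .nil) .nil)))) (.nd (nat_lit 9) 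
(.lf (nat_lit 483797) (.g (nat_lit 2464) (.e (nat_lit 6626) (nat_lit 357) (.e (nat_lit 3062) (nat_lit 190) (.e (nat_lit 475185) (nat_lit 29) (.e (nat_lit 557107) (nat_lit 15) .nil)))) (.g (nat_lit 0) (.e (nat_lit 126894) (nat_lit 0) .nil) .nil))) 
(.lf (nat_lit 484309) (.g (nat_lit 2578) (.e (nat_lit 8305) (nat_lit 58) (.e (nat_lit 286761) (nat_lit 13) (.e (nat_lit 393234) (nat_lit 17) (.e (nat_lit 7593) (nat_lit 407) (.e (nat_lit 73730) (nat_lit 0) .nil))))) (.g (nat_lit 0) (.e (nat_lit 129752) (nat_lit 0) .nil) .nil))))))) (.nd (nat_lit 6) (.nd (nat_lit 7) (.nd (nat_lit 8) (.nd (nat_lit 9) 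
(.lf (nat_lit 483381) (.g (nat_lit 3914) (.e (nat_lit 6416) (nat_lit 341) (.e (nat_lit 163908) (nat_lit 12) (.e (nat_lit 426132) (nat_lit 3) (.e (nat_lit 204869) (nat_lit 29) (.e (nat_lit 360475) (nat_lit 8) (.e (nat_lit 557089) (nat_lit 12) (.e (nat_lit 163844) (nat_lit 0) .nil))))))) (.g (nat_lit 1) (.e (nat_lit 123233) (nat_lit 0) .nil) .nil))) 
(.lf (nat_lit 483893) (.g (nat_lit 1777) (.e (nat_lit 6713) (nat_lit 360) (.e (nat_lit 163962) (nat_lit 25) (.e (nat_lit 532535) (nat_lit 9) (.e (nat_lit 336061) (nat_lit 7) .nil)))) (.g (nat_lit 0) (.e (nat_lit 127696) (nat_lit 0) .nil) .nil)))) (.nd (nat_lit 9) 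
(.lf (nat_lit 483637) (.g (nat_lit 3728) (.e (nat_lit 6425) (nat_lit 342) (.e (nat_lit 229399) (nat_lit 12) (.e (nat_lit 426136) (nat_lit 3) (.e (nat_lit 204869) (nat_lit 29) (.e (nat_lit 360475) (nat_lit 8) (.e (nat_lit 557089) (nat_lit 12) (.e (nat_lit 163850) (nat_lit 0) .nil))))))) (.g (nat_lit 1) (.e (nat_lit 125545) (nat_lit 0) .nil) .nil))) 
(.lf (nat_lit 484149) (.g (nat_lit 1365) (.e (nat_lit 6724) (nat_lit 362) (.e (nat_lit 180252) (nat_lit 10) (.e (nat_lit 573470) (nat_lit 11) (.e (nat_lit 16444) (nat_lit 9) (.e (nat_lit 426129) (nat_lit 3) .nil))))) (.g (nat_lit 0) (.e (nat_lit 128998) (nat_lit 0) .nil) .nil))))) (.nd (nat_lit 8) (.nd (nat_lit 9) 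
(.lf (nat_lit 483509) (.g (nat_lit 2248) (.e (nat_lit 6418) (nat_lit 341) (.e (nat_lit 163923) (nat_lit 15) (.e (nat_lit 450601) (nat_lit 21) (.e (nat_lit 696344) (nat_lit 8) (.e (nat_lit 172113) (nat_lit 10) (.e (nat_lit 434207) (nat_lit 18) .nil)))))) (.g (nat_lit 1) (.e (nat_lit 124366) (nat_lit 0) .nil) .nil))) 
(.lf (nat_lit 484021) (.g (nat_lit 1882) (.e (nat_lit 6722) (nat_lit 362) (.e (nat_lit 180271) (nat_lit 26) (.e (nat_lit 704737) (nat_lit 11) (.e (nat_lit 16465) (nat_lit 13) (.e (nat_lit 491264) (nat_lit 17) .nil))))) (.g (nat_lit 1) (.e (nat_lit 128497) (nat_lit 0) .nil) .nil)))) (.nd (nat_lit 9) 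
(.lf (nat_lit 483765) (.g (nat_lit 1519) (.e (nat_lit 7936) (nat_lit 343) (.e (nat_lit 1239) (nat_lit 91) (.e (nat_lit 90170) (nat_lit 13) (.e (nat_lit 172113) (nat_lit 10) (.e (nat_lit 434248) (nat_lit 28) .nil))))) (.g (nat_lit 0) (.e (nat_lit 126523) (nat_lit 0) .nil) .nil))) 
(.lf (nat_lit 484277) (.g (nat_lit 2221) (.e (nat_lit 6828) (nat_lit 367) (.e (nat_lit 57379) (nat_lit 3) (.e (nat_lit 98366) (nat_lit 27) (.e (nat_lit 434247) (nat_lit 28) (.e (nat_lit 573484) (nat_lit 13) (.e (nat_lit 65571) (nat_lit 3) (.e (nat_lit 98319) (nat_lit 17) (.e (nat_lit 2399) (nat_lit 157) .nil)))))))) (.g (nat_lit 1) (.e (nat_lit 129536) (nat_lit 0) .nil) .nil)))))) 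
(.nd (nat_lit 7) (.nd (nat_lit 8) (.nd (nat_lit 9) 
(.lf (nat_lit 483445) (.g (nat_lit 2328) (.e (nat_lit 6416) (nat_lit 341) (.e (nat_lit 163923) (nat_lit 15) (.e (nat_lit 450601) (nat_lit 21) (.e (nat_lit 696344) (nat_lit 8) (.e (nat_lit 172115) (nat_lit 10) (.e (nat_lit 434202) (nat_lit 18) .nil)))))) (.g (nat_lit 1) (.e (nat_lit 123662) (nat_lit 0) .nil) .nil))) 
(.lf (nat_lit 483957) (.g (nat_lit 2772) (.e (nat_lit 7936) (nat_lit 361) (.e (nat_lit 172150) (nat_lit 27) (.e (nat_lit 336231) (nat_lit 14) (.e (nat_lit 401458) (nat_lit 13) (.e (nat_lit 483354) (nat_lit 17) .nil))))) (.g (nat_lit 0) (.e (nat_lit 128031) (nat_lit 0) .nil) .nil)))) (.nd (nat_lit 9) 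
(.lf (nat_lit 483701) (.g (nat_lit 3601) (.e (nat_lit 6426) (nat_lit 342) (.e (nat_lit 229408) (nat_lit 13) (.e (nat_lit 434231) (nat_lit 23) (.e (nat_lit 532550) (nat_lit 12) (.e (nat_lit 360475) (nat_lit 8) (.e (nat_lit 557091) (nat_lit 12) (.e (nat_lit 163852) (nat_lit 0) .nil))))))) (.g (nat_lit 1) (.e (nat_lit 125848) (nat_lit 0) .nil) .nil))) 
(.lf (nat_lit 484213) (.g (nat_lit 2222) (.e (nat_lit 7936) (nat_lit 362) (.e (nat_lit 180244) (nat_lit 5) (.e (nat_lit 532523) (nat_lit 7) (.e (nat_lit 319505) (nat_lit 10) (.e (nat_lit 5714) (nat_lit 312) .nil))))) (.g (nat_lit 0) (.e (nat_lit 129190) (nat_lit 0) .nil) .nil))))) (.nd (nat_lit 8) (.nd (nat_lit 9) 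
(.lf (nat_lit 483573) (.g (nat_lit 4197) (.e (nat_lit 6421) (nat_lit 341) (.e (nat_lit 163900) (nat_lit 12) (.e (nat_lit 426125) (nat_lit 2) (.e (nat_lit 196666) (nat_lit 13) (.e (nat_lit 65617) (nat_lit 10) (.e (nat_lit 344130) (nat_lit 26) (.e (nat_lit 557089) (nat_lit 12) (.e (nat_lit 163849) (nat_lit 0) .nil)))))))) (.g (nat_lit 1) (.e (nat_lit 124974) (nat_lit 0) .nil) .nil))) 
(.lf (nat_lit 484085) (.g (nat_lit 2370) (.e (nat_lit 6724) (nat_lit 362) (.e (nat_lit 180245) (nat_lit 5) (.e (nat_lit 532523) (nat_lit 7) (.e (nat_lit 319504) (nat_lit 10) (.e (nat_lit 5714) (nat_lit 312) (.e (nat_lit 2681) (nat_lit 168) (.e (nat_lit 204815) (nat_lit 17) .nil))))))) (.g (nat_lit 1) (.e (nat_lit 128891) (nat_lit 0) .nil) .nil)))) (.nd (nat_lit 9) 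
(.lf (nat_lit 483829) (.g (nat_lit 5139) (.e (nat_lit 6680) (nat_lit 357) (.e (nat_lit 2664) (nat_lit 167) (.e (nat_lit 196666) (nat_lit 13) (.e (nat_lit 65610) (nat_lit 10) (.e (nat_lit 344117) (nat_lit 21) (.e (nat_lit 516185) (nat_lit 16) (.e (nat_lit 491528) (nat_lit 0) .nil))))))) (.g (nat_lit 1) (.e (nat_lit 127247) (nat_lit 0) .nil) .nil))) 
(.lf (nat_lit 484341) (.g (nat_lit 873) (.e (nat_lit 8320) (nat_lit 64) (.e (nat_lit 516149) (nat_lit 9) (.e (nat_lit 426323) (nat_lit 13) (.e (nat_lit 483333) (nat_lit 0) (.e (nat_lit 7106) (nat_lit 380) (.e (nat_lit 171776) (nat_lit 247) .nil)))))) (.g (nat_lit 1) (.e (nat_lit 129826) (nat_lit 0) .nil) .nil))))))))) 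
(.nd (nat_lit 4) (.nd (nat_lit 5) (.nd (nat_lit 6) (.nd (nat_lit 7) (.nd (nat_lit 8) 
(.nd (nat_lit 9) 
(.lf (nat_lit 483341) (.g (nat_lit 3672) (.e (nat_lit 6255) (nat_lit 337) (.e (nat_lit 2725) (nat_lit 172) (.e (nat_lit 237594) (nat_lit 3) (.e (nat_lit 204869) (nat_lit 29) (.e (nat_lit 360474) (nat_lit 8) (.e (nat_lit 557094) (nat_lit 12) (.e (nat_lit 163849) (nat_lit 0) .nil))))))) (.g (nat_lit 1) (.e (nat_lit 122552) (nat_lit 0) .nil) .nil))) 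
(.lf (nat_lit 483853) (.g (nat_lit 3468) (.e (nat_lit 7936) (nat_lit 357) (.e (nat_lit 3062) (nat_lit 190) (.e (nat_lit 475185) (nat_lit 29) (.e (nat_lit 557098) (nat_lit 13) (.e (nat_lit 172097) (nat_lit 9) .nil))))) (.g (nat_lit 0) (.e (nat_lit 127416) (nat_lit 0) .nil) .nil)))) (.nd (nat_lit 9) 
(.lf (nat_lit 483597) (.g (nat_lit 5104) (.e (nat_lit 6421) (nat_lit 341) (.e (nat_lit 163913) (nat_lit 12) (.e (nat_lit 426129) (nat_lit 3) (.e (nat_lit 204869) (nat_lit 29) (.e (nat_lit 360474) (nat_lit 8) (.e (nat_lit 557088) (nat_lit 12) (.e (nat_lit 163843) (nat_lit 0) .nil))))))) (.g (nat_lit 1) (.e (nat_lit 125062) (nat_lit 0) .nil) .nil))) 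
(.lf (nat_lit 484109) (.g (nat_lit 2690) (.e (nat_lit 6724) (nat_lit 362) (.e (nat_lit 180250) (nat_lit 10) (.e (nat_lit 573471) (nat_lit 11) (.e (nat_lit 16449) (nat_lit 10) (.e (nat_lit 434233) (nat_lit 23) .nil))))) (.g (nat_lit 0) (.e (nat_lit 128934) (nat_lit 0) .nil) .nil))))) (.nd (nat_lit 8) (.nd (nat_lit 9) 
(.lf (nat_lit 483469) (.g (nat_lit 2822) (.e (nat_lit 6418) (nat_lit 341) (.e (nat_lit 163908) (nat_lit 12) (.e (nat_lit 426132) (nat_lit 3) (.e (nat_lit 204868) (nat_lit 29) (.e (nat_lit 360473) (nat_lit 8) (.e (nat_lit 557089) (nat_lit 12) (.e (nat_lit 163848) (nat_lit 0) .nil))))))) (.g (nat_lit 1) (.e (nat_lit 123943) (nat_lit 0) .nil) .nil))) 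
(.lf (nat_lit 483981) (.g (nat_lit 2041) (.e (nat_lit 6722) (nat_lit 362) (.e (nat_lit 180245) (nat_lit 5) (.e (nat_lit 532523) (nat_lit 7) (.e (nat_lit 319504) (nat_lit 10) (.e (nat_lit 5712) (nat_lit 312) (.e (nat_lit 2508) (nat_lit 157) (.e (nat_lit 3249) (nat_lit 197) (.e (nat_lit 532482) (nat_lit 0) .nil)))))))) (.g (nat_lit 1) (.e (nat_lit 128295) (nat_lit 0) .nil) .nil)))) (.nd (nat_lit 9) 
(.lf (nat_lit 483725) (.g (nat_lit 2647) (.e (nat_lit 6428) (nat_lit 342) (.e (nat_lit 229415) (nat_lit 15) (.e (nat_lit 450601) (nat_lit 21) (.e (nat_lit 696344) (nat_lit 8) (.e (nat_lit 172115) (nat_lit 10) (.e (nat_lit 434209) (nat_lit 18) .nil)))))) (.g (nat_lit 1) (.e (nat_lit 126411) (nat_lit 0) .nil) .nil))) 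
(.lf (nat_lit 484237) (.g (nat_lit 1946) (.e (nat_lit 7936) (nat_lit 362) (.e (nat_lit 180271) (nat_lit 26) (.e (nat_lit 704737) (nat_lit 11) (.e (nat_lit 16431) (nat_lit 9) (.e (nat_lit 426489) (nat_lit 27) .nil))))) (.g (nat_lit 0) (.e (nat_lit 129311) (nat_lit 0) .nil) .nil)))))) (.nd (nat_lit 7) (.nd (nat_lit 8) (.nd (nat_lit 9) 
(.lf (nat_lit 483405) (.g (nat_lit 5880) (.e (nat_lit 6416) (nat_lit 341) (.e (nat_lit 163909) (nat_lit 12) (.e (nat_lit 426125) (nat_lit 2) (.e (nat_lit 196666) (nat_lit 13) (.e (nat_lit 65617) (nat_lit 10) (.e (nat_lit 344130) (nat_lit 26) (.e (nat_lit 557090) (nat_lit 12) (.e (nat_lit 163843) (nat_lit 0) .nil)))))))) (.g (nat_lit 1) (.e (nat_lit 123376) (nat_lit 0) .nil) .nil))) 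
(.lf (nat_lit 483917) (.g (nat_lit 1174) (.e (nat_lit 6718) (nat_lit 361) (.e (nat_lit 172144) (nat_lit 26) (.e (nat_lit 327700) (nat_lit 8) (.e (nat_lit 303144) (nat_lit 13) (.e (nat_lit 483343) (nat_lit 17) .nil))))) (.g (nat_lit 1) (.e (nat_lit 127890) (nat_lit 0) .nil) .nil)))) (.nd (nat_lit 9) 
(.lf (nat_lit 483661) (.g (nat_lit 3829) (.e (nat_lit 6425) (nat_lit 342) (.e (nat_lit 229409) (nat_lit 13) (.e (nat_lit 434231) (nat_lit 23) (.e (nat_lit 532550) (nat_lit 12) (.e (nat_lit 360475) (nat_lit 8) (.e (nat_lit 557091) (nat_lit 12) (.e (nat_lit 163840) (nat_lit 0) .nil))))))) (.g (nat_lit 1) (.e (nat_lit 125614) (nat_lit 0) .nil) .nil))) 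
(.lf (nat_lit 484173) (.g (nat_lit 2160) (.e (nat_lit 6724) (nat_lit 362) (.e (nat_lit 180271) (nat_lit 26) (.e (nat_lit 704737) (nat_lit 11) (.e (nat_lit 16388) (nat_lit 0) (.e (nat_lit 7379) (nat_lit 390) (.e (nat_lit 24580) (nat_lit 0) .nil)))))) (.g (nat_lit 1) (.e (nat_lit 129088) (nat_lit 0) .nil) .nil))))) (.nd (nat_lit 8) (.nd (nat_lit 9) 
(.lf (nat_lit 483533) (.g (nat_lit 738) (.e (nat_lit 6420) (nat_lit 341) (.e (nat_lit 163902) (nat_lit 12) (.e (nat_lit 426233) (nat_lit 9) .nil))) (.g (nat_lit 0) (.e (nat_lit 124465) (nat_lit 0) .nil) .nil))) 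
(.lf (nat_lit 484045) (.g (nat_lit 3105) (.e (nat_lit 6722) (nat_lit 362) (.e (nat_lit 180272) (nat_lit 26) (.e (nat_lit 704737) (nat_lit 11) (.e (nat_lit 16439) (nat_lit 9) (.e (nat_lit 426499) (nat_lit 27) (.e (nat_lit 335894) (nat_lit 0) .nil)))))) (.g (nat_lit 1) (.e (nat_lit 128557) (nat_lit 0) .nil) .nil)))) (.nd (nat_lit 9) 
(.lf (nat_lit 483789) (.g (nat_lit 1250) (.e (nat_lit 6618) (nat_lit 357) (.e (nat_lit 3071) (nat_lit 190) (.e (nat_lit 475185) (nat_lit 29) (.e (nat_lit 557101) (nat_lit 13) .nil)))) (.g (nat_lit 0) (.e (nat_lit 126822) (nat_lit 0) .nil) .nil))) 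
(.lf (nat_lit 484301) (.g (nat_lit 1709) (.e (nat_lit 8305) (nat_lit 58) (.e (nat_lit 286759) (nat_lit 12) (.e (nat_lit 385106) (nat_lit 50) (.e (nat_lit 786481) (nat_lit 30) .nil)))) (.g (nat_lit 0) (.e (nat_lit 129744) (nat_lit 0) .nil) .nil))))))) (.nd (nat_lit 6) (.nd (nat_lit 7) (.nd (nat_lit 8) (.nd (nat_lit 9) 
(.lf (nat_lit 483373) (.g (nat_lit 589) (.e (nat_lit 6416) (nat_lit 341) (.e (nat_lit 163902) (nat_lit 12) (.e (nat_lit 426438) (nat_lit 18) .nil))) (.g (nat_lit 0) (.e (nat_lit 123109) (nat_lit 0) .nil) .nil))) 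
(.lf (nat_lit 483885) (.g (nat_lit 3206) (.e (nat_lit 6712) (nat_lit 360) (.e (nat_lit 163978) (nat_lit 30) (.e (nat_lit 573484) (nat_lit 13) (.e (nat_lit 65563) (nat_lit 1) (.e (nat_lit 57931) (nat_lit 282) (.e (nat_lit 163943) (nat_lit 19) (.e (nat_lit 483344) (nat_lit 17) .nil))))))) (.g (nat_lit 1) (.e (nat_lit 127603) (nat_lit 0) .nil) .nil)))) (.nd (nat_lit 9) 
(.lf (nat_lit 483629) (.g (nat_lit 3805) (.e (nat_lit 6421) (nat_lit 341) (.e (nat_lit 163941) (nat_lit 19) (.e (nat_lit 483341) (nat_lit 9) (.e (nat_lit 426222) (nat_lit 9) .nil)))) (.g (nat_lit 0) (.e (nat_lit 125488) (nat_lit 0) .nil) .nil))) 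
(.lf (nat_lit 484141) (.g (nat_lit 2137) (.e (nat_lit 6724) (nat_lit 362) (.e (nat_lit 180252) (nat_lit 10) (.e (nat_lit 573451) (nat_lit 9) (.e (nat_lit 430) (nat_lit 32) .nil)))) (.g (nat_lit 0) (.e (nat_lit 128983) (nat_lit 0) .nil) .nil))))) (.nd (nat_lit 8) (.nd (nat_lit 9) 
(.lf (nat_lit 483501) (.g (nat_lit 3091) (.e (nat_lit 6418) (nat_lit 341) (.e (nat_lit 163917) (nat_lit 13) (.e (nat_lit 434231) (nat_lit 23) (.e (nat_lit 532550) (nat_lit 12) (.e (nat_lit 360474) (nat_lit 8) (.e (nat_lit 557093) (nat_lit 12) (.e (nat_lit 163848) (nat_lit 0) .nil))))))) (.g (nat_lit 1) (.e (nat_lit 124124) (nat_lit 0) .nil) .nil))) 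
(.lf (nat_lit 484013) (.g (nat_lit 951) (.e (nat_lit 6722) (nat_lit 362) (.e (nat_lit 180271) (nat_lit 26) (.e (nat_lit 704737) (nat_lit 11) (.e (nat_lit 16439) (nat_lit 9) .nil)))) (.g (nat_lit 0) (.e (nat_lit 128484) (nat_lit 0) .nil) .nil)))) (.nd (nat_lit 9) 
(.lf (nat_lit 483757) (.g (nat_lit 1128) (.e (nat_lit 6402) (nat_lit 339) (.e (nat_lit 57411) (nat_lit 12) (.e (nat_lit 336367) (nat_lit 27) .nil))) (.g (nat_lit 0) (.e (nat_lit 126504) (nat_lit 0) .nil) .nil))) 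
(.lf (nat_lit 484269) (.g (nat_lit 4617) (.e (nat_lit 6841) (nat_lit 369) (.e (nat_lit 163860) (nat_lit 1) (.e (nat_lit 164329) (nat_lit 230) (.e (nat_lit 163902) (nat_lit 12) (.e (nat_lit 426438) (nat_lit 18) (.e (nat_lit 98373) (nat_lit 29) (.e (nat_lit 450562) (nat_lit 0) .nil))))))) (.g (nat_lit 1) (.e (nat_lit 129481) (nat_lit 0) .nil) .nil)))))) 
(.nd (nat_lit 7) (.nd (nat_lit 8) (.nd (nat_lit 9) 
(.lf (nat_lit 483437) (.g (nat_lit 2761) (.e (nat_lit 6416) (nat_lit 341) (.e (nat_lit 163916) (nat_lit 13) (.e (nat_lit 434231) (nat_lit 23) (.e (nat_lit 532550) (nat_lit 12) (.e (nat_lit 360474) (nat_lit 8) (.e (nat_lit 557094) (nat_lit 12) (.e (nat_lit 163849) (nat_lit 0) .nil))))))) (.g (nat_lit 1) (.e (nat_lit 123452) (nat_lit 0) .nil) .nil))) 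
(.lf (nat_lit 483949) (.g (nat_lit 1881) (.e (nat_lit 6720) (nat_lit 361) (.e (nat_lit 172150) (nat_lit 27) (.e (nat_lit 336231) (nat_lit 14) (.e (nat_lit 401456) (nat_lit 13) (.e (nat_lit 483342) (nat_lit 17) .nil))))) (.g (nat_lit 1) (.e (nat_lit 127999) (nat_lit 0) .nil) .nil)))) (.nd (nat_lit 9) 
(.lf (nat_lit 483693) (.g (nat_lit 4154) (.e (nat_lit 6426) (nat_lit 342) (.e (nat_lit 229399) (nat_lit 12) (.e (nat_lit 426125) (nat_lit 2) (.e (nat_lit 196666) (nat_lit 13) (.e (nat_lit 65617) (nat_lit 10) (.e (nat_lit 344130) (nat_lit 26) (.e (nat_lit 557090) (nat_lit 12) (.e (nat_lit 163852) (nat_lit 0) .nil)))))))) (.g (nat_lit 1) (.e (nat_lit 125821) (nat_lit 0) .nil) .nil))) 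
(.lf (nat_lit 484205) (.g (nat_lit 474) (.e (nat_lit 7936) (nat_lit 362) (.e (nat_lit 180243) (nat_lit 5) (.e (nat_lit 532488) (nat_lit 0) .nil))) (.g (nat_lit 0) (.e (nat_lit 129171) (nat_lit 0) .nil) .nil))))) (.nd (nat_lit 8) (.nd (nat_lit 9) 
(.lf (nat_lit 483565) (.g (nat_lit 3205) (.e (nat_lit 6420) (nat_lit 341) (.e (nat_lit 163916) (nat_lit 13) (.e (nat_lit 434231) (nat_lit 23) (.e (nat_lit 532550) (nat_lit 12) (.e (nat_lit 360474) (nat_lit 8) (.e (nat_lit 557093) (nat_lit 12) (.e (nat_lit 163849) (nat_lit 0) .nil))))))) (.g (nat_lit 1) (.e (nat_lit 124684) (nat_lit 0) .nil) .nil))) 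
(.lf (nat_lit 484077) (.g (nat_lit 1848) (.e (nat_lit 6724) (nat_lit 362) (.e (nat_lit 180243) (nat_lit 5) (.e (nat_lit 532568) (nat_lit 16) (.e (nat_lit 401436) (nat_lit 9) (.e (nat_lit 426131) (nat_lit 3) .nil))))) (.g (nat_lit 0) (.e (nat_lit 128879) (nat_lit 0) .nil) .nil)))) (.nd (nat_lit 9) 
(.lf (nat_lit 483821) (.g (nat_lit 4375) (.e (nat_lit 6696) (nat_lit 357) (.e (nat_lit 2657) (nat_lit 167) (.e (nat_lit 196663) (nat_lit 13) (.e (nat_lit 65630) (nat_lit 14) (.e (nat_lit 401425) (nat_lit 2) (.e (nat_lit 196681) (nat_lit 17) (.e (nat_lit 131072) (nat_lit 0) .nil))))))) (.g (nat_lit 1) (.e (nat_lit 127160) (nat_lit 0) .nil) .nil))) 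
(.lf (nat_lit 484333) (.g (nat_lit 2031) (.e (nat_lit 8320) (nat_lit 64) (.e (nat_lit 516120) (nat_lit 1) (.e (nat_lit 164330) (nat_lit 230) (.e (nat_lit 163936) (nat_lit 18) .nil)))) (.g (nat_lit 0) (.e (nat_lit 129818) (nat_lit 0) .nil) .nil)))))))) (.nd (nat_lit 5) (.nd (nat_lit 6) (.nd (nat_lit 7) (.nd (nat_lit 8) (.nd (nat_lit 9) 
(.lf (nat_lit 483357) (.g (nat_lit 3658) (.e (nat_lit 6416) (nat_lit 341) (.e (nat_lit 163900) (nat_lit 12) (.e (nat_lit 426125) (nat_lit 2) (.e (nat_lit 196666) (nat_lit 13) (.e (nat_lit 65617) (nat_lit 10) (.e (nat_lit 344132) (nat_lit 26) (.e (nat_lit 557094) (nat_lit 12) (.e (nat_lit 163849) (nat_lit 0) .nil)))))))) (.g (nat_lit 1) (.e (nat_lit 123044) (nat_lit 0) .nil) .nil))) 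
(.lf (nat_lit 483869) (.g (nat_lit 2511) (.e (nat_lit 6711) (nat_lit 360) (.e (nat_lit 163962) (nat_lit 25) (.e (nat_lit 532535) (nat_lit 9) (.e (nat_lit 336061) (nat_lit 7) (.e (nat_lit 319519) (nat_lit 12) (.e (nat_lit 32773) (nat_lit 5) (.e (nat_lit 1512) (nat_lit 108) (.e (nat_lit 335872) (nat_lit 0) .nil)))))))) (.g (nat_lit 1) (.e (nat_lit 127521) (nat_lit 0) .nil) .nil)))) (.nd (nat_lit 9) 
(.lf (nat_lit 483613) (.g (nat_lit 4478) (.e (nat_lit 6421) (nat_lit 341) (.e (nat_lit 163916) (nat_lit 13) (.e (nat_lit 434231) (nat_lit 23) (.e (nat_lit 532550) (nat_lit 12) (.e (nat_lit 360475) (nat_lit 8) (.e (nat_lit 557089) (nat_lit 12) (.e (nat_lit 163843) (nat_lit 0) .nil))))))) (.g (nat_lit 1) (.e (nat_lit 125135) (nat_lit 0) .nil) .nil))) 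
(.lf (nat_lit 484125) (.g (nat_lit 2008) (.e (nat_lit 6724) (nat_lit 362) (.e (nat_lit 180251) (nat_lit 10) (.e (nat_lit 573470) (nat_lit 11) (.e (nat_lit 16436) (nat_lit 9) (.e (nat_lit 426131) (nat_lit 3) (.e (nat_lit 204816) (nat_lit 17) .nil)))))) (.g (nat_lit 1) (.e (nat_lit 128961) (nat_lit 0) .nil) .nil))))) (.nd (nat_lit 8) (.nd (nat_lit 9) 
(.lf (nat_lit 483485) (.g (nat_lit 1055) (.e (nat_lit 6418) (nat_lit 341) (.e (nat_lit 163908) (nat_lit 12) (.e (nat_lit 426285) (nat_lit 10) (.e (nat_lit 434289) (nat_lit 43) .nil)))) (.g (nat_lit 0) (.e (nat_lit 123975) (nat_lit 0) .nil) .nil))) 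
(.lf (nat_lit 483997) (.g (nat_lit 1914) (.e (nat_lit 6722) (nat_lit 362) (.e (nat_lit 180251) (nat_lit 10) (.e (nat_lit 573471) (nat_lit 11) (.e (nat_lit 16452) (nat_lit 11) .nil)))) (.g (nat_lit 0) (.e (nat_lit 128386) (nat_lit 0) .nil) .nil)))) (.nd (nat_lit 9) 
(.lf (nat_lit 483741) (.g (nat_lit 2668) (.e (nat_lit 6398) (nat_lit 339) (.e (nat_lit 57379) (nat_lit 3) (.e (nat_lit 98333) (nat_lit 18) (.e (nat_lit 164325) (nat_lit 230) (.e (nat_lit 163928) (nat_lit 16) .nil))))) (.g (nat_lit 0) (.e (nat_lit 126483) (nat_lit 0) .nil) .nil))) 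
(.lf (nat_lit 484253) (.g (nat_lit 1140) (.e (nat_lit 7936) (nat_lit 362) (.e (nat_lit 180271) (nat_lit 26) (.e (nat_lit 704738) (nat_lit 11) (.e (nat_lit 16464) (nat_lit 13) .nil)))) (.g (nat_lit 0) (.e (nat_lit 129330) (nat_lit 0) .nil) .nil)))))) (.nd (nat_lit 7) (.nd (nat_lit 8) (.nd (nat_lit 9) 
(.lf (nat_lit 483421) (.g (nat_lit 3348) (.e (nat_lit 6416) (nat_lit 341) (.e (nat_lit 163909) (nat_lit 12) (.e (nat_lit 426140) (nat_lit 3) (.e (nat_lit 204868) (nat_lit 29) (.e (nat_lit 360473) (nat_lit 8) (.e (nat_lit 557091) (nat_lit 12) (.e (nat_lit 163847) (nat_lit 0) .nil))))))) (.g (nat_lit 1) (.e (nat_lit 123408) (nat_lit 0) .nil) .nil))) 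
(.lf (nat_lit 483933) (.g (nat_lit 2591) (.e (nat_lit 6719) (nat_lit 361) (.e (nat_lit 172150) (nat_lit 27) (.e (nat_lit 336229) (nat_lit 14) (.e (nat_lit 401437) (nat_lit 9) (.e (nat_lit 426530) (nat_lit 27) (.e (nat_lit 335874) (nat_lit 0) .nil)))))) (.g (nat_lit 1) (.e (nat_lit 127963) (nat_lit 0) .nil) .nil)))) (.nd (nat_lit 9) 
(.lf (nat_lit 483677) (.g (nat_lit 1582) (.e (nat_lit 6425) (nat_lit 342) (.e (nat_lit 229415) (nat_lit 15) (.e (nat_lit 450562) (nat_lit 0) (.e (nat_lit 6420) (nat_lit 341) .nil)))) (.g (nat_lit 0) (.e (nat_lit 125713) (nat_lit 0) .nil) .nil))) 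
(.lf (nat_lit 484189) (.g (nat_lit 858) (.e (nat_lit 6724) (nat_lit 362) (.e (nat_lit 180271) (nat_lit 26) (.e (nat_lit 704738) (nat_lit 11) (.e (nat_lit 16439) (nat_lit 9) .nil)))) (.g (nat_lit 0) (.e (nat_lit 129107) (nat_lit 0) .nil) .nil))))) (.nd (nat_lit 8) (.nd (nat_lit 9) 
(.lf (nat_lit 483549) (.g (nat_lit 2478) (.e (nat_lit 6420) (nat_lit 341) (.e (nat_lit 163908) (nat_lit 12) (.e (nat_lit 426132) (nat_lit 3) (.e (nat_lit 204868) (nat_lit 29) (.e (nat_lit 360473) (nat_lit 8) (.e (nat_lit 557094) (nat_lit 12) (.e (nat_lit 163849) (nat_lit 0) .nil))))))) (.g (nat_lit 1) (.e (nat_lit 124568) (nat_lit 0) .nil) .nil))) 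
(.lf (nat_lit 484061) (.g (nat_lit 3401) (.e (nat_lit 6724) (nat_lit 362) (.e (nat_lit 180243) (nat_lit 5) (.e (nat_lit 532523) (nat_lit 7) (.e (nat_lit 319505) (nat_lit 10) (.e (nat_lit 5714) (nat_lit 312) (.e (nat_lit 2682) (nat_lit 168) (.e (nat_lit 204815) (nat_lit 17) .nil))))))) (.g (nat_lit 1) (.e (nat_lit 128859) (nat_lit 0) .nil) .nil)))) (.nd (nat_lit 9) 
(.lf (nat_lit 483805) (.g (nat_lit 2652) (.e (nat_lit 6668) (nat_lit 357) (.e (nat_lit 3062) (nat_lit 190) (.e (nat_lit 475185) (nat_lit 29) (.e (nat_lit 557107) (nat_lit 15) (.e (nat_lit 188450) (nat_lit 23) .nil))))) (.g (nat_lit 0) (.e (nat_lit 127037) (nat_lit 0) .nil) .nil))) 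
(.lf (nat_lit 484317) (.g (nat_lit 588) (.e (nat_lit 8318) (nat_lit 64) (.e (nat_lit 516115) (nat_lit 1) (.e (nat_lit 164325) (nat_lit 230) .nil))) (.g (nat_lit 0) (.e (nat_lit 129774) (nat_lit 0) .nil) .nil))))))) (.nd (nat_lit 6) (.nd (nat_lit 7) (.nd (nat_lit 8) (.nd (nat_lit 9) 
(.lf (nat_lit 483389) (.g (nat_lit 5351) (.e (nat_lit 6416) (nat_lit 341) (.e (nat_lit 163908) (nat_lit 12) (.e (nat_lit 426136) (nat_lit 3) (.e (nat_lit 204869) (nat_lit 29) (.e (nat_lit 360475) (nat_lit 8) (.e (nat_lit 557091) (nat_lit 12) (.e (nat_lit 163843) (nat_lit 0) .nil))))))) (.g (nat_lit 1) (.e (nat_lit 123241) (nat_lit 0) .nil) .nil))) 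
(.lf (nat_lit 483901) (.g (nat_lit 324) (.e (nat_lit 6714) (nat_lit 360) (.e (nat_lit 163975) (nat_lit 30) (.e (nat_lit 573481) (nat_lit 13) .nil))) (.g (nat_lit 0) (.e (nat_lit 127718) (nat_lit 0) .nil) .nil)))) (.nd (nat_lit 9) 
(.lf (nat_lit 483645) (.g (nat_lit 3599) (.e (nat_lit 6425) (nat_lit 342) (.e (nat_lit 229406) (nat_lit 12) (.e (nat_lit 426123) (nat_lit 2) (.e (nat_lit 196666) (nat_lit 13) (.e (nat_lit 65617) (nat_lit 10) (.e (nat_lit 344133) (nat_lit 26) (.e (nat_lit 557091) (nat_lit 12) (.e (nat_lit 163850) (nat_lit 0) .nil)))))))) (.g (nat_lit 1) (.e (nat_lit 125575) (nat_lit 0) .nil) .nil))) 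
(.lf (nat_lit 484157) (.g (nat_lit 2456) (.e (nat_lit 6724) (nat_lit 362) (.e (nat_lit 180252) (nat_lit 10) (.e (nat_lit 573471) (nat_lit 11) (.e (nat_lit 16439) (nat_lit 9) (.e (nat_lit 426132) (nat_lit 3) (.e (nat_lit 204815) (nat_lit 17) .nil)))))) (.g (nat_lit 1) (.e (nat_lit 129006) (nat_lit 0) .nil) .nil))))) (.nd (nat_lit 8) (.nd (nat_lit 9) 
(.lf (nat_lit 483517) (.g (nat_lit 3029) (.e (nat_lit 6420) (nat_lit 341) (.e (nat_lit 163843) (nat_lit 0) (.e (nat_lit 7936) (nat_lit 392) (.e (nat_lit 172150) (nat_lit 27) (.e (nat_lit 335894) (nat_lit 0) (.e (nat_lit 6722) (nat_lit 362) (.e (nat_lit 180227) (nat_lit 0) .nil))))))) (.g (nat_lit 1) (.e (nat_lit 124428) (nat_lit 0) .nil) .nil))) 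
(.lf (nat_lit 484029) (.g (nat_lit 801) (.e (nat_lit 6722) (nat_lit 362) (.e (nat_lit 180271) (nat_lit 26) (.e (nat_lit 704738) (nat_lit 11) (.e (nat_lit 16444) (nat_lit 9) .nil)))) (.g (nat_lit 0) (.e (nat_lit 128512) (nat_lit 0) .nil) .nil)))) (.nd (nat_lit 9) 
(.lf (nat_lit 483773) (.g (nat_lit 556) (.e (nat_lit 6518) (nat_lit 347) (.e (nat_lit 65569) (nat_lit 3) (.e (nat_lit 98350) (nat_lit 24) .nil))) (.g (nat_lit 0) (.e (nat_lit 126546) (nat_lit 0) .nil) .nil))) 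
(.lf (nat_lit 484285) (.g (nat_lit 1069) (.e (nat_lit 6830) (nat_lit 367) (.e (nat_lit 57428) (nat_lit 15) (.e (nat_lit 360477) (nat_lit 11) (.e (nat_lit 581635) (nat_lit 0) .nil)))) (.g (nat_lit 0) (.e (nat_lit 129548) (nat_lit 0) .nil) .nil)))))) (.nd (nat_lit 7) (.nd (nat_lit 8) (.nd (nat_lit 9) 
(.lf (nat_lit 483453) (.g (nat_lit 3972) (.e (nat_lit 6418) (nat_lit 341) (.e (nat_lit 163900) (nat_lit 12) (.e (nat_lit 426125) (nat_lit 2) (.e (nat_lit 196666) (nat_lit 13) (.e (nat_lit 65617) (nat_lit 10) (.e (nat_lit 344132) (nat_lit 26) (.e (nat_lit 557093) (nat_lit 12) (.e (nat_lit 163848) (nat_lit 0) .nil)))))))) (.g (nat_lit 1) (.e (nat_lit 123887) (nat_lit 0) .nil) .nil))) 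
(.lf (nat_lit 483965) (.g (nat_lit 1721) (.e (nat_lit 6722) (nat_lit 362) (.e (nat_lit 180244) (nat_lit 5) (.e (nat_lit 532481) (nat_lit 0) (.e (nat_lit 6722) (nat_lit 362) .nil)))) (.g (nat_lit 0) (.e (nat_lit 128268) (nat_lit 0) .nil) .nil)))) (.nd (nat_lit 9) 
(.lf (nat_lit 483709) (.g (nat_lit 4287) (.e (nat_lit 6427) (nat_lit 342) (.e (nat_lit 229402) (nat_lit 12) (.e (nat_lit 426136) (nat_lit 3) (.e (nat_lit 204869) (nat_lit 29) (.e (nat_lit 360475) (nat_lit 8) (.e (nat_lit 557091) (nat_lit 12) (.e (nat_lit 163852) (nat_lit 0) .nil))))))) (.g (nat_lit 1) (.e (nat_lit 125998) (nat_lit 0) .nil) .nil))) 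
(.lf (nat_lit 484221) (.g (nat_lit 1534) (.e (nat_lit 7936) (nat_lit 362) (.e (nat_lit 180250) (nat_lit 10) (.e (nat_lit 573471) (nat_lit 11) (.e (nat_lit 16453) (nat_lit 11) .nil)))) (.g (nat_lit 0) (.e (nat_lit 129234) (nat_lit 0) .nil) .nil))))) (.nd (nat_lit 8) (.nd (nat_lit 9) 
(.lf (nat_lit 483581) (.g (nat_lit 4196) (.e (nat_lit 6421) (nat_lit 341) (.e (nat_lit 163900) (nat_lit 12) (.e (nat_lit 426140) (nat_lit 3) (.e (nat_lit 204869) (nat_lit 29) (.e (nat_lit 360475) (nat_lit 8) (.e (nat_lit 557089) (nat_lit 12) (.e (nat_lit 163849) (nat_lit 0) .nil))))))) (.g (nat_lit 1) (.e (nat_lit 124987) (nat_lit 0) .nil) .nil))) 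
(.lf (nat_lit 484093) (.g (nat_lit 3381) (.e (nat_lit 6724) (nat_lit 362) (.e (nat_lit 180250) (nat_lit 10) (.e (nat_lit 573469) (nat_lit 11) (.e (nat_lit 16446) (nat_lit 9) (.e (nat_lit 426133) (nat_lit 3) (.e (nat_lit 204816) (nat_lit 17) .nil)))))) (.g (nat_lit 1) (.e (nat_lit 128918) (nat_lit 0) .nil) .nil)))) (.nd (nat_lit 9) 
(.lf (nat_lit 483837) (.g (nat_lit 2209) (.e (nat_lit 6681) (nat_lit 357) (.e (nat_lit 3090) (nat_lit 191) (.e (nat_lit 483394) (nat_lit 24) (.e (nat_lit 344168) (nat_lit 40) (.e (nat_lit 671760) (nat_lit 4) (.e (nat_lit 65540) (nat_lit 0) .nil)))))) (.g (nat_lit 1) (.e (nat_lit 127321) (nat_lit 0) .nil) .nil))) 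
(.lf (nat_lit 484349) (.g (nat_lit 3923) (.e (nat_lit 8324) (nat_lit 69) (.e (nat_lit 557109) (nat_lit 15) (.e (nat_lit 188452) (nat_lit 23) (.e (nat_lit 204846) (nat_lit 24) (.e (nat_lit 319504) (nat_lit 10) (.e (nat_lit 7936) (nat_lit 313) .nil)))))) (.g (nat_lit 1) (.e (nat_lit 129841) (nat_lit 0) .nil) .nil))))))))))) 
(.nd (nat_lit 2) (.nd (nat_lit 3) (.nd (nat_lit 4) (.nd (nat_lit 5) (.nd (nat_lit 6) 
(.nd (nat_lit 7) (.nd (nat_lit 8) (.nd (nat_lit 9) 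
(.lf (nat_lit 483331) (.g (nat_lit 869) (.e (nat_lit 6255) (nat_lit 337) (.e (nat_lit 2651) (nat_lit 166) (.e (nat_lit 188439) (nat_lit 20) (.e (nat_lit 3469) (nat_lit 217) .nil)))) (.g (nat_lit 0) (.e (nat_lit 122499) (nat_lit 0) .nil) .nil))) 
(.lf (nat_lit 483843) (.g (nat_lit 1195) (.e (nat_lit 6682) (nat_lit 357) (.e (nat_lit 2948) (nat_lit 184) (.e (nat_lit 426133) (nat_lit 3) (.e (nat_lit 204885) (nat_lit 33) .nil)))) (.g (nat_lit 0) (.e (nat_lit 127338) (nat_lit 0) .nil) .nil)))) (.nd (nat_lit 9) 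
(.lf (nat_lit 483587) (.g (nat_lit 2067) (.e (nat_lit 6421) (nat_lit 341) (.e (nat_lit 163909) (nat_lit 12) (.e (nat_lit 426140) (nat_lit 3) (.e (nat_lit 204868) (nat_lit 29) (.e (nat_lit 360473) (nat_lit 8) (.e (nat_lit 557089) (nat_lit 12) (.e (nat_lit 163849) (nat_lit 0) .nil))))))) (.g (nat_lit 1) (.e (nat_lit 125043) (nat_lit 0) .nil) .nil))) 
(.lf (nat_lit 484099) (.g (nat_lit 3235) (.e (nat_lit 6724) (nat_lit 362) (.e (nat_lit 180250) (nat_lit 10) (.e (nat_lit 573470) (nat_lit 11) (.e (nat_lit 16446) (nat_lit 9) (.e (nat_lit 426133) (nat_lit 3) (.e (nat_lit 204816) (nat_lit 17) .nil)))))) (.g (nat_lit 1) (.e (nat_lit 128924) (nat_lit 0) .nil) .nil))))) (.nd (nat_lit 8) (.nd (nat_lit 9) 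
(.lf (nat_lit 483459) (.g (nat_lit 2845) (.e (nat_lit 6418) (nat_lit 341) (.e (nat_lit 163900) (nat_lit 12) (.e (nat_lit 426140) (nat_lit 3) (.e (nat_lit 204868) (nat_lit 29) (.e (nat_lit 360473) (nat_lit 8) (.e (nat_lit 557089) (nat_lit 12) (.e (nat_lit 163848) (nat_lit 0) .nil))))))) (.g (nat_lit 1) (.e (nat_lit 123901) (nat_lit 0) .nil) .nil))) 
(.lf (nat_lit 483971) (.g (nat_lit 2585) (.e (nat_lit 6722) (nat_lit 362) (.e (nat_lit 180244) (nat_lit 5) (.e (nat_lit 532523) (nat_lit 7) (.e (nat_lit 319504) (nat_lit 10) (.e (nat_lit 5712) (nat_lit 312) (.e (nat_lit 2508) (nat_lit 157) (.e (nat_lit 3249) (nat_lit 197) (.e (nat_lit 532482) (nat_lit 0) .nil)))))))) (.g (nat_lit 1) (.e (nat_lit 128275) (nat_lit 0) .nil) .nil)))) (.nd (nat_lit 9) 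
(.lf (nat_lit 483715) (.g (nat_lit 3457) (.e (nat_lit 6427) (nat_lit 342) (.e (nat_lit 229415) (nat_lit 15) (.e (nat_lit 450601) (nat_lit 21) (.e (nat_lit 696344) (nat_lit 8) (.e (nat_lit 172106) (nat_lit 10) (.e (nat_lit 434209) (nat_lit 18) .nil)))))) (.g (nat_lit 1) (.e (nat_lit 126156) (nat_lit 0) .nil) .nil))) 
(.lf (nat_lit 484227) (.g (nat_lit 338) (.e (nat_lit 7936) (nat_lit 362) (.e (nat_lit 180252) (nat_lit 10) (.e (nat_lit 573471) (nat_lit 11) .nil))) (.g (nat_lit 0) (.e (nat_lit 129274) (nat_lit 0) .nil) .nil)))))) (.nd (nat_lit 7) (.nd (nat_lit 8) (.nd (nat_lit 9) 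
(.lf (nat_lit 483395) (.g (nat_lit 3927) (.e (nat_lit 6416) (nat_lit 341) (.e (nat_lit 163908) (nat_lit 12) (.e (nat_lit 426285) (nat_lit 10) (.e (nat_lit 434289) (nat_lit 43) (.e (nat_lit 696344) (nat_lit 8) (.e (nat_lit 172113) (nat_lit 10) (.e (nat_lit 434203) (nat_lit 18) .nil))))))) (.g (nat_lit 1) (.e (nat_lit 123276) (nat_lit 0) .nil) .nil))) 
(.lf (nat_lit 483907) (.g (nat_lit 4026) (.e (nat_lit 6718) (nat_lit 361) (.e (nat_lit 172067) (nat_lit 3) (.e (nat_lit 204885) (nat_lit 33) (.e (nat_lit 401448) (nat_lit 10) (.e (nat_lit 434231) (nat_lit 23) (.e (nat_lit 532482) (nat_lit 0) .nil)))))) (.g (nat_lit 1) (.e (nat_lit 127871) (nat_lit 0) .nil) .nil)))) (.nd (nat_lit 9) 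
(.lf (nat_lit 483651) (.g (nat_lit 3415) (.e (nat_lit 6425) (nat_lit 342) (.e (nat_lit 229409) (nat_lit 13) (.e (nat_lit 434231) (nat_lit 23) (.e (nat_lit 532549) (nat_lit 12) (.e (nat_lit 360473) (nat_lit 8) (.e (nat_lit 557091) (nat_lit 12) (.e (nat_lit 163840) (nat_lit 0) .nil))))))) (.g (nat_lit 1) (.e (nat_lit 125604) (nat_lit 0) .nil) .nil))) 
(.lf (nat_lit 484163) (.g (nat_lit 2622) (.e (nat_lit 6724) (nat_lit 362) (.e (nat_lit 180269) (nat_lit 25) (.e (nat_lit 696343) (nat_lit 8) (.e (nat_lit 172123) (nat_lit 13) (.e (nat_lit 483344) (nat_lit 17) .nil))))) (.g (nat_lit 1) (.e (nat_lit 129023) (nat_lit 0) .nil) .nil))))) (.nd (nat_lit 8) (.nd (nat_lit 9) 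
(.lf (nat_lit 483523) (.g (nat_lit 3708) (.e (nat_lit 6420) (nat_lit 341) (.e (nat_lit 163900) (nat_lit 12) (.e (nat_lit 426125) (nat_lit 2) (.e (nat_lit 196666) (nat_lit 13) (.e (nat_lit 65617) (nat_lit 10) (.e (nat_lit 344132) (nat_lit 26) (.e (nat_lit 557094) (nat_lit 12) (.e (nat_lit 163849) (nat_lit 0) .nil)))))))) (.g (nat_lit 1) (.e (nat_lit 124447) (nat_lit 0) .nil) .nil))) 
(.lf (nat_lit 484035) (.g (nat_lit 2052) (.e (nat_lit 6722) (nat_lit 362) (.e (nat_lit 180271) (nat_lit 26) (.e (nat_lit 704738) (nat_lit 11) (.e (nat_lit 16464) (nat_lit 13) (.e (nat_lit 483343) (nat_lit 17) .nil))))) (.g (nat_lit 1) (.e (nat_lit 128520) (nat_lit 0) .nil) .nil)))) (.nd (nat_lit 9) 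
(.lf (nat_lit 483779) (.g (nat_lit 2131) (.e (nat_lit 6579) (nat_lit 351) (.e (nat_lit 1126) (nat_lit 83) (.e (nat_lit 16425) (nat_lit 7) (.e (nat_lit 409648) (nat_lit 18) (.e (nat_lit 303137) (nat_lit 10) .nil))))) (.g (nat_lit 0) (.e (nat_lit 126701) (nat_lit 0) .nil) .nil))) 
(.lf (nat_lit 484291) (.g (nat_lit 2389) (.e (nat_lit 8303) (nat_lit 58) (.e (nat_lit 286733) (nat_lit 2) (.e (nat_lit 90160) (nat_lit 11) (.e (nat_lit 24584) (nat_lit 0) .nil)))) (.g (nat_lit 0) (.e (nat_lit 129731) (nat_lit 0) .nil) .nil))))))) (.nd (nat_lit 6) (.nd (nat_lit 7) (.nd (nat_lit 8) (.nd (nat_lit 9) 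
(.lf (nat_lit 483363) (.g (nat_lit 2688) (.e (nat_lit 6416) (nat_lit 341) (.e (nat_lit 163900) (nat_lit 12) (.e (nat_lit 426140) (nat_lit 3) (.e (nat_lit 204868) (nat_lit 29) (.e (nat_lit 360473) (nat_lit 8) (.e (nat_lit 557093) (nat_lit 12) (.e (nat_lit 163849) (nat_lit 0) .nil))))))) (.g (nat_lit 1) (.e (nat_lit 123056) (nat_lit 0) .nil) .nil))) 
(.lf (nat_lit 483875) (.g (nat_lit 1954) (.e (nat_lit 6711) (nat_lit 360) (.e (nat_lit 163962) (nat_lit 25) (.e (nat_lit 532550) (nat_lit 12) (.e (nat_lit 360451) (nat_lit 0) (.e (nat_lit 3933) (nat_lit 239) .nil))))) (.g (nat_lit 0) (.e (nat_lit 127566) (nat_lit 0) .nil) .nil)))) (.nd (nat_lit 9) 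
(.lf (nat_lit 483619) (.g (nat_lit 3193) (.e (nat_lit 6421) (nat_lit 341) (.e (nat_lit 163917) (nat_lit 13) (.e (nat_lit 434231) (nat_lit 23) (.e (nat_lit 532550) (nat_lit 12) (.e (nat_lit 360474) (nat_lit 8) (.e (nat_lit 557094) (nat_lit 12) (.e (nat_lit 163849) (nat_lit 0) .nil))))))) (.g (nat_lit 1) (.e (nat_lit 125154) (nat_lit 0) .nil) .nil))) 
(.lf (nat_lit 484131) (.g (nat_lit 2732) (.e (nat_lit 6724) (nat_lit 362) (.e (nat_lit 180251) (nat_lit 10) (.e (nat_lit 573471) (nat_lit 11) (.e (nat_lit 16444) (nat_lit 9) (.e (nat_lit 426129) (nat_lit 3) (.e (nat_lit 204816) (nat_lit 17) .nil)))))) (.g (nat_lit 1) (.e (nat_lit 128967) (nat_lit 0) .nil) .nil))))) (.nd (nat_lit 8) (.nd (nat_lit 9) 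
(.lf (nat_lit 483491) (.g (nat_lit 3557) (.e (nat_lit 6418) (nat_lit 341) (.e (nat_lit 163908) (nat_lit 12) (.e (nat_lit 426286) (nat_lit 10) (.e (nat_lit 434289) (nat_lit 43) (.e (nat_lit 696344) (nat_lit 8) (.e (nat_lit 172106) (nat_lit 10) (.e (nat_lit 434202) (nat_lit 18) .nil))))))) (.g (nat_lit 1) (.e (nat_lit 124036) (nat_lit 0) .nil) .nil))) 
(.lf (nat_lit 484003) (.g (nat_lit 424) (.e (nat_lit 6722) (nat_lit 362) (.e (nat_lit 180268) (nat_lit 24) (.e (nat_lit 688138) (nat_lit 5) (.e (nat_lit 2887) (nat_lit 184) .nil)))) (.g (nat_lit 0) (.e (nat_lit 128423) (nat_lit 0) .nil) .nil)))) (.nd (nat_lit 9) 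
(.lf (nat_lit 483747) (.g (nat_lit 1874) (.e (nat_lit 6400) (nat_lit 339) (.e (nat_lit 57379) (nat_lit 3) (.e (nat_lit 98341) (nat_lit 20) (.e (nat_lit 221215) (nat_lit 23) .nil)))) (.g (nat_lit 0) (.e (nat_lit 126489) (nat_lit 0) .nil) .nil))) 
(.lf (nat_lit 484259) (.g (nat_lit 1635) (.e (nat_lit 6740) (nat_lit 365) (.e (nat_lit 1201) (nat_lit 88) (.e (nat_lit 65610) (nat_lit 10) (.e (nat_lit 344138) (nat_lit 29) (.e (nat_lit 581651) (nat_lit 4) .nil))))) (.g (nat_lit 0) (.e (nat_lit 129357) (nat_lit 0) .nil) .nil)))))) (.nd (nat_lit 7) (.nd (nat_lit 8) (.nd (nat_lit 9) 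
(.lf (nat_lit 483427) (.g (nat_lit 3365) (.e (nat_lit 6416) (nat_lit 341) (.e (nat_lit 163909) (nat_lit 12) (.e (nat_lit 426140) (nat_lit 3) (.e (nat_lit 204869) (nat_lit 29) (.e (nat_lit 360474) (nat_lit 8) (.e (nat_lit 557093) (nat_lit 12) (.e (nat_lit 163848) (nat_lit 0) .nil))))))) (.g (nat_lit 1) (.e (nat_lit 123414) (nat_lit 0) .nil) .nil))) 
(.lf (nat_lit 483939) (.g (nat_lit 2658) (.e (nat_lit 6720) (nat_lit 361) (.e (nat_lit 172065) (nat_lit 3) (.e (nat_lit 204885) (nat_lit 33) (.e (nat_lit 401448) (nat_lit 10) (.e (nat_lit 434231) (nat_lit 23) (.e (nat_lit 532482) (nat_lit 0) .nil)))))) (.g (nat_lit 1) (.e (nat_lit 127973) (nat_lit 0) .nil) .nil)))) (.nd (nat_lit 9) 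
(.lf (nat_lit 483683) (.g (nat_lit 1902) (.e (nat_lit 6425) (nat_lit 342) (.e (nat_lit 229415) (nat_lit 15) (.e (nat_lit 450563) (nat_lit 0) (.e (nat_lit 6378) (nat_lit 338) .nil)))) (.g (nat_lit 0) (.e (nat_lit 125740) (nat_lit 0) .nil) .nil))) 
(.lf (nat_lit 484195) (.g (nat_lit 2747) (.e (nat_lit 6724) (nat_lit 362) (.e (nat_lit 180271) (nat_lit 26) (.e (nat_lit 704738) (nat_lit 11) (.e (nat_lit 16463) (nat_lit 13) (.e (nat_lit 483346) (nat_lit 17) .nil))))) (.g (nat_lit 1) (.e (nat_lit 129113) (nat_lit 0) .nil) .nil))))) (.nd (nat_lit 8) (.nd (nat_lit 9) 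
(.lf (nat_lit 483555) (.g (nat_lit 2626) (.e (nat_lit 6420) (nat_lit 341) (.e (nat_lit 163908) (nat_lit 12) (.e (nat_lit 426136) (nat_lit 3) (.e (nat_lit 204869) (nat_lit 29) (.e (nat_lit 360474) (nat_lit 8) (.e (nat_lit 557094) (nat_lit 12) (.e (nat_lit 163849) (nat_lit 0) .nil))))))) (.g (nat_lit 1) (.e (nat_lit 124574) (nat_lit 0) .nil) .nil))) 
(.lf (nat_lit 484067) (.g (nat_lit 818) (.e (nat_lit 6724) (nat_lit 362) (.e (nat_lit 180243) (nat_lit 5) (.e (nat_lit 532565) (nat_lit 15) .nil))) (.g (nat_lit 0) (.e (nat_lit 128868) (nat_lit 0) .nil) .nil)))) (.nd (nat_lit 9) 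
(.lf (nat_lit 483811) (.g (nat_lit 4097) (.e (nat_lit 6666) (nat_lit 357) (.e (nat_lit 3067) (nat_lit 190) (.e (nat_lit 475184) (nat_lit 29) (.e (nat_lit 557109) (nat_lit 15) (.e (nat_lit 188452) (nat_lit 23) (.e (nat_lit 212736) (nat_lit 17) .nil)))))) (.g (nat_lit 1) (.e (nat_lit 127089) (nat_lit 0) .nil) .nil))) 
(.lf (nat_lit 484323) (.g (nat_lit 1933) (.e (nat_lit 8318) (nat_lit 64) (.e (nat_lit 516129) (nat_lit 3) (.e (nat_lit 221210) (nat_lit 22) (.e (nat_lit 196668) (nat_lit 14) (.e (nat_lit 81664) (nat_lit 5) .nil))))) (.g (nat_lit 0) (.e (nat_lit 129782) (nat_lit 0) .nil) .nil)))))))) (.nd (nat_lit 5) (.nd (nat_lit 6) (.nd (nat_lit 7) (.nd (nat_lit 8) (.nd (nat_lit 9) 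
(.lf (nat_lit 483347) (.g (nat_lit 4739) (.e (nat_lit 6374) (nat_lit 337) (.e (nat_lit 2628) (nat_lit 164) (.e (nat_lit 172067) (nat_lit 3) (.e (nat_lit 204869) (nat_lit 29) (.e (nat_lit 360475) (nat_lit 8) (.e (nat_lit 557091) (nat_lit 12) (.e (nat_lit 163844) (nat_lit 0) .nil))))))) (.g (nat_lit 1) (.e (nat_lit 122702) (nat_lit 0) .nil) .nil))) 
(.lf (nat_lit 483859) (.g (nat_lit 3037) (.e (nat_lit 6710) (nat_lit 360) (.e (nat_lit 163978) (nat_lit 30) (.e (nat_lit 573484) (nat_lit 13) (.e (nat_lit 65563) (nat_lit 1) .nil)))) (.g (nat_lit 0) (.e (nat_lit 127503) (nat_lit 0) .nil) .nil)))) (.nd (nat_lit 9) 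
(.lf (nat_lit 483603) (.g (nat_lit 3713) (.e (nat_lit 6421) (nat_lit 341) (.e (nat_lit 163913) (nat_lit 12) (.e (nat_lit 426129) (nat_lit 3) (.e (nat_lit 204869) (nat_lit 29) (.e (nat_lit 360475) (nat_lit 8) (.e (nat_lit 557089) (nat_lit 12) (.e (nat_lit 163848) (nat_lit 0) .nil))))))) (.g (nat_lit 1) (.e (nat_lit 125068) (nat_lit 0) .nil) .nil))) 
(.lf (nat_lit 484115) (.g (nat_lit 1928) (.e (nat_lit 6724) (nat_lit 362) (.e (nat_lit 180251) (nat_lit 10) (.e (nat_lit 573469) (nat_lit 11) (.e (nat_lit 16439) (nat_lit 9) (.e (nat_lit 426132) (nat_lit 3) .nil))))) (.g (nat_lit 0) (.e (nat_lit 128951) (nat_lit 0) .nil) .nil))))) (.nd (nat_lit 8) (.nd (nat_lit 9) 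
(.lf (nat_lit 483475) (.g (nat_lit 3718) (.e (nat_lit 6418) (nat_lit 341) (.e (nat_lit 163908) (nat_lit 12) (.e (nat_lit 426132) (nat_lit 3) (.e (nat_lit 204869) (nat_lit 29) (.e (nat_lit 360475) (nat_lit 8) (.e (nat_lit 557089) (nat_lit 12) (.e (nat_lit 163844) (nat_lit 0) .nil))))))) (.g (nat_lit 1) (.e (nat_lit 123949) (nat_lit 0) .nil) .nil))) 
(.lf (nat_lit 483987) (.g (nat_lit 703) (.e (nat_lit 6722) (nat_lit 362) (.e (nat_lit 180250) (nat_lit 10) (.e (nat_lit 573470) (nat_lit 11) .nil))) (.g (nat_lit 0) (.e (nat_lit 128337) (nat_lit 0) .nil) .nil)))) (.nd (nat_lit 9) 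
(.lf (nat_lit 483731) (.g (nat_lit 2244) (.e (nat_lit 6391) (nat_lit 339) (.e (nat_lit 57407) (nat_lit 12) (.e (nat_lit 336456) (nat_lit 34) (.e (nat_lit 483394) (nat_lit 24) (.e (nat_lit 344117) (nat_lit 21) (.e (nat_lit 516106) (nat_lit 0) (.e (nat_lit 2478) (nat_lit 157) .nil))))))) (.g (nat_lit 1) (.e (nat_lit 126470) (nat_lit 0) .nil) .nil))) 
(.lf (nat_lit 484243) (.g (nat_lit 2098) (.e (nat_lit 7936) (nat_lit 362) (.e (nat_lit 180271) (nat_lit 26) (.e (nat_lit 704737) (nat_lit 11) (.e (nat_lit 16465) (nat_lit 13) (.e (nat_lit 483356) (nat_lit 17) .nil))))) (.g (nat_lit 0) (.e (nat_lit 129318) (nat_lit 0) .nil) .nil)))))) (.nd (nat_lit 7) (.nd (nat_lit 8) (.nd (nat_lit 9) 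
(.lf (nat_lit 483411) (.g (nat_lit 5195) (.e (nat_lit 6416) (nat_lit 341) (.e (nat_lit 163909) (nat_lit 12) (.e (nat_lit 426125) (nat_lit 2) (.e (nat_lit 196666) (nat_lit 13) (.e (nat_lit 65617) (nat_lit 10) (.e (nat_lit 344133) (nat_lit 26) (.e (nat_lit 557089) (nat_lit 12) (.e (nat_lit 163844) (nat_lit 0) .nil)))))))) (.g (nat_lit 1) (.e (nat_lit 123382) (nat_lit 0) .nil) .nil))) 
(.lf (nat_lit 483923) (.g (nat_lit 2735) (.e (nat_lit 6718) (nat_lit 361) (.e (nat_lit 172150) (nat_lit 27) (.e (nat_lit 336231) (nat_lit 14) (.e (nat_lit 401456) (nat_lit 13) (.e (nat_lit 483345) (nat_lit 17) .nil))))) (.g (nat_lit 1) (.e (nat_lit 127919) (nat_lit 0) .nil) .nil)))) (.nd (nat_lit 9) 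
(.lf (nat_lit 483667) (.g (nat_lit 2856) (.e (nat_lit 6425) (nat_lit 342) (.e (nat_lit 229412) (nat_lit 14) (.e (nat_lit 442436) (nat_lit 26) (.e (nat_lit 253991) (nat_lit 11) (.e (nat_lit 16447) (nat_lit 10) (.e (nat_lit 434212) (nat_lit 18) .nil)))))) (.g (nat_lit 1) (.e (nat_lit 125663) (nat_lit 0) .nil) .nil))) 
(.lf (nat_lit 484179) (.g (nat_lit 2648) (.e (nat_lit 6724) (nat_lit 362) (.e (nat_lit 180271) (nat_lit 26) (.e (nat_lit 704737) (nat_lit 11) (.e (nat_lit 16462) (nat_lit 13) (.e (nat_lit 483344) (nat_lit 17) .nil))))) (.g (nat_lit 1) (.e (nat_lit 129094) (nat_lit 0) .nil) .nil))))) (.nd (nat_lit 8) (.nd (nat_lit 9) 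
(.lf (nat_lit 483539) (.g (nat_lit 934) (.e (nat_lit 6420) (nat_lit 341) (.e (nat_lit 163902) (nat_lit 12) (.e (nat_lit 426248) (nat_lit 9) .nil))) (.g (nat_lit 0) (.e (nat_lit 124473) (nat_lit 0) .nil) .nil))) 
(.lf (nat_lit 484051) (.g (nat_lit 1481) (.e (nat_lit 6724) (nat_lit 362) (.e (nat_lit 180243) (nat_lit 5) (.e (nat_lit 532481) (nat_lit 0) (.e (nat_lit 6722) (nat_lit 362) .nil)))) (.g (nat_lit 0) (.e (nat_lit 128847) (nat_lit 0) .nil) .nil)))) (.nd (nat_lit 9) 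
(.lf (nat_lit 483795) (.g (nat_lit 3006) (.e (nat_lit 6622) (nat_lit 357) (.e (nat_lit 2887) (nat_lit 184) (.e (nat_lit 426412) (nat_lit 15) (.e (nat_lit 1856) (nat_lit 124) (.e (nat_lit 557107) (nat_lit 15) .nil))))) (.g (nat_lit 0) (.e (nat_lit 126860) (nat_lit 0) .nil) .nil))) 
(.lf (nat_lit 484307) (.g (nat_lit 2366) (.e (nat_lit 8305) (nat_lit 58) (.e (nat_lit 286761) (nat_lit 13) (.e (nat_lit 393234) (nat_lit 17) (.e (nat_lit 7591) (nat_lit 407) (.e (nat_lit 73731) (nat_lit 0) .nil))))) (.g (nat_lit 0) (.e (nat_lit 129750) (nat_lit 0) .nil) .nil))))))) (.nd (nat_lit 6) (.nd (nat_lit 7) (.nd (nat_lit 8) (.nd (nat_lit 9) 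
(.lf (nat_lit 483379) (.g (nat_lit 3164) (.e (nat_lit 6416) (nat_lit 341) (.e (nat_lit 163908) (nat_lit 12) (.e (nat_lit 426132) (nat_lit 3) (.e (nat_lit 204869) (nat_lit 29) (.e (nat_lit 360474) (nat_lit 8) (.e (nat_lit 557093) (nat_lit 12) (.e (nat_lit 163849) (nat_lit 0) .nil))))))) (.g (nat_lit 1) (.e (nat_lit 123231) (nat_lit 0) .nil) .nil))) 
(.lf (nat_lit 483891) (.g (nat_lit 2803) (.e (nat_lit 6712) (nat_lit 360) (.e (nat_lit 163979) (nat_lit 30) (.e (nat_lit 573489) (nat_lit 14) (.e (nat_lit 73769) (nat_lit 20) (.e (nat_lit 655378) (nat_lit 4) (.e (nat_lit 172147) (nat_lit 27) (.e (nat_lit 335895) (nat_lit 0) .nil))))))) (.g (nat_lit 1) (.e (nat_lit 127694) (nat_lit 0) .nil) .nil)))) (.nd (nat_lit 9) 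
(.lf (nat_lit 483635) (.g (nat_lit 4255) (.e (nat_lit 6425) (nat_lit 342) (.e (nat_lit 229399) (nat_lit 12) (.e (nat_lit 426125) (nat_lit 2) (.e (nat_lit 196666) (nat_lit 13) (.e (nat_lit 65617) (nat_lit 10) (.e (nat_lit 344133) (nat_lit 26) (.e (nat_lit 557091) (nat_lit 12) (.e (nat_lit 163840) (nat_lit 0) .nil)))))))) (.g (nat_lit 1) (.e (nat_lit 125543) (nat_lit 0) .nil) .nil))) 
(.lf (nat_lit 484147) (.g (nat_lit 2809) (.e (nat_lit 6724) (nat_lit 362) (.e (nat_lit 180252) (nat_lit 10) (.e (nat_lit 573470) (nat_lit 11) (.e (nat_lit 16436) (nat_lit 9) (.e (nat_lit 426131) (nat_lit 3) (.e (nat_lit 204815) (nat_lit 17) .nil)))))) (.g (nat_lit 1) (.e (nat_lit 128996) (nat_lit 0) .nil) .nil))))) (.nd (nat_lit 8) (.nd (nat_lit 9) 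
(.lf (nat_lit 483507) (.g (nat_lit 2446) (.e (nat_lit 6418) (nat_lit 341) (.e (nat_lit 163923) (nat_lit 15) (.e (nat_lit 450601) (nat_lit 21) (.e (nat_lit 696344) (nat_lit 8) (.e (nat_lit 172106) (nat_lit 10) (.e (nat_lit 434202) (nat_lit 18) .nil)))))) (.g (nat_lit 1) (.e (nat_lit 124364) (nat_lit 0) .nil) .nil))) 
(.lf (nat_lit 484019) (.g (nat_lit 2298) (.e (nat_lit 6722) (nat_lit 362) (.e (nat_lit 180271) (nat_lit 26) (.e (nat_lit 704737) (nat_lit 11) (.e (nat_lit 16465) (nat_lit 13) (.e (nat_lit 483343) (nat_lit 17) .nil))))) (.g (nat_lit 1) (.e (nat_lit 128495) (nat_lit 0) .nil) .nil)))) (.nd (nat_lit 9) 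
(.lf (nat_lit 483763) (.g (nat_lit 3866) (.e (nat_lit 6481) (nat_lit 343) (.e (nat_lit 1237) (nat_lit 91) (.e (nat_lit 90170) (nat_lit 13) (.e (nat_lit 172113) (nat_lit 10) (.e (nat_lit 434242) (nat_lit 28) .nil))))) (.g (nat_lit 0) (.e (nat_lit 126519) (nat_lit 0) .nil) .nil))) 
(.lf (nat_lit 484275) (.g (nat_lit 1379) (.e (nat_lit 7936) (nat_lit 369) (.e (nat_lit 163864) (nat_lit 1) (.e (nat_lit 164332) (nat_lit 230) (.e (nat_lit 163938) (nat_lit 18) .nil)))) (.g (nat_lit 0) (.e (nat_lit 129532) (nat_lit 0) .nil) .nil)))))) (.nd (nat_lit 7) (.nd (nat_lit 8) (.nd (nat_lit 9) 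
(.lf (nat_lit 483443) (.g (nat_lit 4580) (.e (nat_lit 6416) (nat_lit 341) (.e (nat_lit 163917) (nat_lit 13) (.e (nat_lit 434231) (nat_lit 23) (.e (nat_lit 532550) (nat_lit 12) (.e (nat_lit 360475) (nat_lit 8) (.e (nat_lit 557091) (nat_lit 12) (.e (nat_lit 163843) (nat_lit 0) .nil))))))) (.g (nat_lit 1) (.e (nat_lit 123469) (nat_lit 0) .nil) .nil))) 
(.lf (nat_lit 483955) (.g (nat_lit 1538) (.e (nat_lit 7936) (nat_lit 361) (.e (nat_lit 172076) (nat_lit 6) (.e (nat_lit 253992) (nat_lit 11) (.e (nat_lit 16464) (nat_lit 13) (.e (nat_lit 483361) (nat_lit 17) .nil))))) (.g (nat_lit 0) (.e (nat_lit 128028) (nat_lit 0) .nil) .nil)))) (.nd (nat_lit 9) 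
(.lf (nat_lit 483699) (.g (nat_lit 3648) (.e (nat_lit 6426) (nat_lit 342) (.e (nat_lit 229407) (nat_lit 13) (.e (nat_lit 434231) (nat_lit 23) (.e (nat_lit 532550) (nat_lit 12) (.e (nat_lit 360475) (nat_lit 8) (.e (nat_lit 557091) (nat_lit 12) (.e (nat_lit 163852) (nat_lit 0) .nil))))))) (.g (nat_lit 1) (.e (nat_lit 125843) (nat_lit 0) .nil) .nil))) 
(.lf (nat_lit 484211) (.g (nat_lit 1552) (.e (nat_lit 7936) (nat_lit 362) (.e (nat_lit 180244) (nat_lit 5) (.e (nat_lit 532482) (nat_lit 0) (.e (nat_lit 6722) (nat_lit 362) (.e (nat_lit 180245) (nat_lit 5) .nil))))) (.g (nat_lit 0) (.e (nat_lit 129188) (nat_lit 0) .nil) .nil))))) (.nd (nat_lit 8) (.nd (nat_lit 9) 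
(.lf (nat_lit 483571) (.g (nat_lit 3750) (.e (nat_lit 6421) (nat_lit 341) (.e (nat_lit 163900) (nat_lit 12) (.e (nat_lit 426125) (nat_lit 2) (.e (nat_lit 196666) (nat_lit 13) (.e (nat_lit 65610) (nat_lit 10) (.e (nat_lit 344129) (nat_lit 26) (.e (nat_lit 557090) (nat_lit 12) (.e (nat_lit 163840) (nat_lit 0) .nil)))))))) (.g (nat_lit 1) (.e (nat_lit 124972) (nat_lit 0) .nil) .nil))) 
(.lf (nat_lit 484083) (.g (nat_lit 664) (.e (nat_lit 6724) (nat_lit 362) (.e (nat_lit 180243) (nat_lit 5) (.e (nat_lit 532579) (nat_lit 26) .nil))) (.g (nat_lit 0) (.e (nat_lit 128888) (nat_lit 0) .nil) .nil)))) (.nd (nat_lit 9) 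
(.lf (nat_lit 483827) (.g (nat_lit 413) (.e (nat_lit 6677) (nat_lit 357) (.e (nat_lit 2857) (nat_lit 184) (.e (nat_lit 426533) (nat_lit 28) .nil))) (.g (nat_lit 0) (.e (nat_lit 127231) (nat_lit 0) .nil) .nil))) 
(.lf (nat_lit 484339) (.g (nat_lit 102) (.e (nat_lit 8320) (nat_lit 64) (.e (nat_lit 516149) (nat_lit 9) (.e (nat_lit 426323) (nat_lit 13) .nil))) (.g (nat_lit 0) (.e (nat_lit 129824) (nat_lit 0) .nil) .nil))))))))) (.nd (nat_lit 4) (.nd (nat_lit 5) (.nd (nat_lit 6) (.nd (nat_lit 7) (.nd (nat_lit 8) (.nd (nat_lit 9) 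
(.lf (nat_lit 483339) (.g (nat_lit 5034) (.e (nat_lit 6255) (nat_lit 337) (.e (nat_lit 2725) (nat_lit 172) (.e (nat_lit 237593) (nat_lit 3) (.e (nat_lit 204869) (nat_lit 29) (.e (nat_lit 360475) (nat_lit 8) (.e (nat_lit 557091) (nat_lit 12) (.e (nat_lit 163844) (nat_lit 0) .nil))))))) (.g (nat_lit 1) (.e (nat_lit 122550) (nat_lit 0) .nil) .nil))) 
(.lf (nat_lit 483851) (.g (nat_lit 2770) (.e (nat_lit 7936) (nat_lit 357) (.e (nat_lit 2887) (nat_lit 184) (.e (nat_lit 426412) (nat_lit 15) (.e (nat_lit 1856) (nat_lit 124) (.e (nat_lit 557107) (nat_lit 15) .nil))))) (.g (nat_lit 0) (.e (nat_lit 127403) (nat_lit 0) .nil) .nil)))) (.nd (nat_lit 9) 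
(.lf (nat_lit 483595) (.g (nat_lit 2175) (.e (nat_lit 6421) (nat_lit 341) (.e (nat_lit 163913) (nat_lit 12) (.e (nat_lit 426129) (nat_lit 3) (.e (nat_lit 204868) (nat_lit 29) (.e (nat_lit 360473) (nat_lit 8) (.e (nat_lit 557093) (nat_lit 12) (.e (nat_lit 163849) (nat_lit 0) .nil))))))) (.g (nat_lit 1) (.e (nat_lit 125060) (nat_lit 0) .nil) .nil))) 
(.lf (nat_lit 484107) (.g (nat_lit 2871) (.e (nat_lit 6724) (nat_lit 362) (.e (nat_lit 180250) (nat_lit 10) (.e (nat_lit 573471) (nat_lit 11) (.e (nat_lit 16444) (nat_lit 9) (.e (nat_lit 426129) (nat_lit 3) (.e (nat_lit 204815) (nat_lit 17) .nil)))))) (.g (nat_lit 1) (.e (nat_lit 128932) (nat_lit 0) .nil) .nil))))) (.nd (nat_lit 8) (.nd (nat_lit 9) 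
(.lf (nat_lit 483467) (.g (nat_lit 3737) (.e (nat_lit 6418) (nat_lit 341) (.e (nat_lit 163900) (nat_lit 12) (.e (nat_lit 426140) (nat_lit 3) (.e (nat_lit 204869) (nat_lit 29) (.e (nat_lit 360475) (nat_lit 8) (.e (nat_lit 557091) (nat_lit 12) (.e (nat_lit 163847) (nat_lit 0) .nil))))))) (.g (nat_lit 1) (.e (nat_lit 123909) (nat_lit 0) .nil) .nil))) 
(.lf (nat_lit 483979) (.g (nat_lit 2789) (.e (nat_lit 6722) (nat_lit 362) (.e (nat_lit 180244) (nat_lit 5) (.e (nat_lit 532568) (nat_lit 16) (.e (nat_lit 401448) (nat_lit 10) (.e (nat_lit 434231) (nat_lit 23) (.e (nat_lit 532482) (nat_lit 0) .nil)))))) (.g (nat_lit 1) (.e (nat_lit 128286) (nat_lit 0) .nil) .nil)))) (.nd (nat_lit 9) 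
(.lf (nat_lit 483723) (.g (nat_lit 2703) (.e (nat_lit 6428) (nat_lit 342) (.e (nat_lit 229409) (nat_lit 13) (.e (nat_lit 434231) (nat_lit 23) (.e (nat_lit 532550) (nat_lit 12) (.e (nat_lit 360474) (nat_lit 8) (.e (nat_lit 557094) (nat_lit 12) (.e (nat_lit 163852) (nat_lit 0) .nil))))))) (.g (nat_lit 1) (.e (nat_lit 126197) (nat_lit 0) .nil) .nil))) 
(.lf (nat_lit 484235) (.g (nat_lit 283) (.e (nat_lit 7936) (nat_lit 362) (.e (nat_lit 180271) (nat_lit 26) (.e (nat_lit 704737) (nat_lit 11) .nil))) (.g (nat_lit 0) (.e (nat_lit 129309) (nat_lit 0) .nil) .nil)))))) (.nd (nat_lit 7) (.nd (nat_lit 8) (.nd (nat_lit 9) 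
(.lf (nat_lit 483403) (.g (nat_lit 4815) (.e (nat_lit 6416) (nat_lit 341) (.e (nat_lit 163909) (nat_lit 12) (.e (nat_lit 426125) (nat_lit 2) (.e (nat_lit 196666) (nat_lit 13) (.e (nat_lit 65617) (nat_lit 10) (.e (nat_lit 344130) (nat_lit 26) (.e (nat_lit 557089) (nat_lit 12) (.e (nat_lit 163848) (nat_lit 0) .nil)))))))) (.g (nat_lit 1) (.e (nat_lit 123374) (nat_lit 0) .nil) .nil))) 
(.lf (nat_lit 483915) (.g (nat_lit 2464) (.e (nat_lit 6718) (nat_lit 361) (.e (nat_lit 172076) (nat_lit 6) (.e (nat_lit 253992) (nat_lit 11) (.e (nat_lit 16463) (nat_lit 13) (.e (nat_lit 483345) (nat_lit 17) .nil))))) (.g (nat_lit 1) (.e (nat_lit 127885) (nat_lit 0) .nil) .nil)))) (.nd (nat_lit 9) 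
(.lf (nat_lit 483659) (.g (nat_lit 2608) (.e (nat_lit 6425) (nat_lit 342) (.e (nat_lit 229409) (nat_lit 13) (.e (nat_lit 434231) (nat_lit 23) (.e (nat_lit 532550) (nat_lit 12) (.e (nat_lit 360474) (nat_lit 8) (.e (nat_lit 557094) (nat_lit 12) (.e (nat_lit 163840) (nat_lit 0) .nil))))))) (.g (nat_lit 1) (.e (nat_lit 125612) (nat_lit 0) .nil) .nil))) 
(.lf (nat_lit 484171) (.g (nat_lit 1361) (.e (nat_lit 6724) (nat_lit 362) (.e (nat_lit 180271) (nat_lit 26) (.e (nat_lit 704737) (nat_lit 11) (.e (nat_lit 16384) (nat_lit 0) .nil)))) (.g (nat_lit 0) (.e (nat_lit 129086) (nat_lit 0) .nil) .nil))))) (.nd (nat_lit 8) (.nd (nat_lit 9) 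
(.lf (nat_lit 483531) (.g (nat_lit 921) (.e (nat_lit 6420) (nat_lit 341) (.e (nat_lit 163902) (nat_lit 12) (.e (nat_lit 426226) (nat_lit 9) .nil))) (.g (nat_lit 0) (.e (nat_lit 124463) (nat_lit 0) .nil) .nil))) 
(.lf (nat_lit 484043) (.g (nat_lit 2106) (.e (nat_lit 6722) (nat_lit 362) (.e (nat_lit 180272) (nat_lit 26) (.e (nat_lit 704737) (nat_lit 11) (.e (nat_lit 16388) (nat_lit 0) (.e (nat_lit 7379) (nat_lit 390) .nil))))) (.g (nat_lit 0) (.e (nat_lit 128555) (nat_lit 0) .nil) .nil)))) (.nd (nat_lit 9) 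
(.lf (nat_lit 483787) (.g (nat_lit 2100) (.e (nat_lit 6617) (nat_lit 357) (.e (nat_lit 3098) (nat_lit 192) (.e (nat_lit 491537) (nat_lit 2) (.e (nat_lit 90176) (nat_lit 15) (.e (nat_lit 188450) (nat_lit 23) .nil))))) (.g (nat_lit 0) (.e (nat_lit 126802) (nat_lit 0) .nil) .nil))) 
(.lf (nat_lit 484299) (.g (nat_lit 766) (.e (nat_lit 8305) (nat_lit 58) (.e (nat_lit 286748) (nat_lit 9) (.e (nat_lit 336389) (nat_lit 27) .nil))) (.g (nat_lit 0) (.e (nat_lit 129741) (nat_lit 0) .nil) .nil))))))) (.nd (nat_lit 6) (.nd (nat_lit 7) (.nd (nat_lit 8) (.nd (nat_lit 9) 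
(.lf (nat_lit 483371) (.g (nat_lit 700) (.e (nat_lit 6416) (nat_lit 341) (.e (nat_lit 163902) (nat_lit 12) (.e (nat_lit 426250) (nat_lit 9) .nil))) (.g (nat_lit 0) (.e (nat_lit 123069) (nat_lit 0) .nil) .nil))) 
(.lf (nat_lit 483883) (.g (nat_lit 2978) (.e (nat_lit 6711) (nat_lit 360) (.e (nat_lit 163962) (nat_lit 25) (.e (nat_lit 532550) (nat_lit 12) (.e (nat_lit 360475) (nat_lit 8) (.e (nat_lit 557068) (nat_lit 9) (.e (nat_lit 288) (nat_lit 21) (.e (nat_lit 335874) (nat_lit 0) .nil))))))) (.g (nat_lit 1) (.e (nat_lit 127574) (nat_lit 0) .nil) .nil)))) (.nd (nat_lit 9) 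
(.lf (nat_lit 483627) (.g (nat_lit 2814) (.e (nat_lit 6421) (nat_lit 341) (.e (nat_lit 163941) (nat_lit 19) (.e (nat_lit 483341) (nat_lit 9) (.e (nat_lit 426185) (nat_lit 9) .nil)))) (.g (nat_lit 0) (.e (nat_lit 125486) (nat_lit 0) .nil) .nil))) 
(.lf (nat_lit 484139) (.g (nat_lit 2988) (.e (nat_lit 6724) (nat_lit 362) (.e (nat_lit 180251) (nat_lit 10) (.e (nat_lit 573471) (nat_lit 11) (.e (nat_lit 16452) (nat_lit 11) (.e (nat_lit 458789) (nat_lit 23) (.e (nat_lit 532482) (nat_lit 0) .nil)))))) (.g (nat_lit 1) (.e (nat_lit 128975) (nat_lit 0) .nil) .nil))))) (.nd (nat_lit 8) (.nd (nat_lit 9) 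
(.lf (nat_lit 483499) (.g (nat_lit 3724) (.e (nat_lit 6418) (nat_lit 341) (.e (nat_lit 163916) (nat_lit 13) (.e (nat_lit 434231) (nat_lit 23) (.e (nat_lit 532550) (nat_lit 12) (.e (nat_lit 360475) (nat_lit 8) (.e (nat_lit 557089) (nat_lit 12) (.e (nat_lit 163848) (nat_lit 0) .nil))))))) (.g (nat_lit 1) (.e (nat_lit 124108) (nat_lit 0) .nil) .nil))) 
(.lf (nat_lit 484011) (.g (nat_lit 1863) (.e (nat_lit 6722) (nat_lit 362) (.e (nat_lit 180271) (nat_lit 26) (.e (nat_lit 704737) (nat_lit 11) (.e (nat_lit 16386) (nat_lit 0) (.e (nat_lit 7379) (nat_lit 390) .nil))))) (.g (nat_lit 0) (.e (nat_lit 128482) (nat_lit 0) .nil) .nil)))) (.nd (nat_lit 9) 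
(.lf (nat_lit 483755) (.g (nat_lit 2327) (.e (nat_lit 6401) (nat_lit 339) (.e (nat_lit 57411) (nat_lit 12) (.e (nat_lit 336367) (nat_lit 27) (.e (nat_lit 426542) (nat_lit 29) (.e (nat_lit 352313) (nat_lit 23) .nil))))) (.g (nat_lit 0) (.e (nat_lit 126500) (nat_lit 0) .nil) .nil))) 
(.lf (nat_lit 484267) (.g (nat_lit 3272) (.e (nat_lit 6807) (nat_lit 365) (.e (nat_lit 1220) (nat_lit 90) (.e (nat_lit 81953) (nat_lit 22) (.e (nat_lit 90116) (nat_lit 0) (.e (nat_lit 7936) (nat_lit 35) (.e (nat_lit 458496) (nat_lit 0) .nil)))))) (.g (nat_lit 1) (.e (nat_lit 129378) (nat_lit 0) .nil) .nil)))))) (.nd (nat_lit 7) (.nd (nat_lit 8) (.nd (nat_lit 9) 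
(.lf (nat_lit 483435) (.g (nat_lit 4013) (.e (nat_lit 6416) (nat_lit 341) (.e (nat_lit 163909) (nat_lit 12) (.e (nat_lit 426140) (nat_lit 3) (.e (nat_lit 204869) (nat_lit 29) (.e (nat_lit 360475) (nat_lit 8) (.e (nat_lit 557091) (nat_lit 12) (.e (nat_lit 163847) (nat_lit 0) .nil))))))) (.g (nat_lit 1) (.e (nat_lit 123422) (nat_lit 0) .nil) .nil))) 
(.lf (nat_lit 483947) (.g (nat_lit 2713) (.e (nat_lit 6720) (nat_lit 361) (.e (nat_lit 172144) (nat_lit 26) (.e (nat_lit 327700) (nat_lit 8) (.e (nat_lit 303145) (nat_lit 13) (.e (nat_lit 483346) (nat_lit 17) .nil))))) (.g (nat_lit 1) (.e (nat_lit 127990) (nat_lit 0) .nil) .nil)))) (.nd (nat_lit 9) 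
(.lf (nat_lit 483691) (.g (nat_lit 2797) (.e (nat_lit 6425) (nat_lit 342) (.e (nat_lit 229415) (nat_lit 15) (.e (nat_lit 450603) (nat_lit 22) (.e (nat_lit 704737) (nat_lit 11) (.e (nat_lit 16449) (nat_lit 10) (.e (nat_lit 434212) (nat_lit 18) .nil)))))) (.g (nat_lit 1) (.e (nat_lit 125806) (nat_lit 0) .nil) .nil))) 
(.lf (nat_lit 484203) (.g (nat_lit 835) (.e (nat_lit 7936) (nat_lit 362) (.e (nat_lit 180243) (nat_lit 5) (.e (nat_lit 532484) (nat_lit 0) (.e (nat_lit 7936) (nat_lit 362) .nil)))) (.g (nat_lit 0) (.e (nat_lit 129169) (nat_lit 0) .nil) .nil))))) (.nd (nat_lit 8) (.nd (nat_lit 9) 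
(.lf (nat_lit 483563) (.g (nat_lit 1645) (.e (nat_lit 6420) (nat_lit 341) (.e (nat_lit 163908) (nat_lit 12) (.e (nat_lit 426286) (nat_lit 10) (.e (nat_lit 434288) (nat_lit 43) (.e (nat_lit 696344) (nat_lit 8) (.e (nat_lit 172106) (nat_lit 10) (.e (nat_lit 434202) (nat_lit 18) .nil))))))) (.g (nat_lit 1) (.e (nat_lit 124627) (nat_lit 0) .nil) .nil))) 
(.lf (nat_lit 484075) (.g (nat_lit 2208) (.e (nat_lit 6724) (nat_lit 362) (.e (nat_lit 180243) (nat_lit 5) (.e (nat_lit 532567) (nat_lit 16) (.e (nat_lit 401444) (nat_lit 9) (.e (nat_lit 426129) (nat_lit 3) .nil))))) (.g (nat_lit 0) (.e (nat_lit 128877) (nat_lit 0) .nil) .nil)))) (.nd (nat_lit 9) 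
(.lf (nat_lit 483819) (.g (nat_lit 2092) (.e (nat_lit 6692) (nat_lit 357) (.e (nat_lit 2663) (nat_lit 167) (.e (nat_lit 196666) (nat_lit 13) (.e (nat_lit 65617) (nat_lit 10) (.e (nat_lit 344130) (nat_lit 26) .nil))))) (.g (nat_lit 0) (.e (nat_lit 127148) (nat_lit 0) .nil) .nil))) 
(.lf (nat_lit 484331) (.g (nat_lit 1965) (.e (nat_lit 8320) (nat_lit 64) (.e (nat_lit 516117) (nat_lit 1) (.e (nat_lit 164329) (nat_lit 230) (.e (nat_lit 163941) (nat_lit 19) .nil)))) (.g (nat_lit 0) (.e (nat_lit 129807) (nat_lit 0) .nil) .nil)))))))) (.nd (nat_lit 5) (.nd (nat_lit 6) (.nd (nat_lit 7) (.nd (nat_lit 8) (.nd (nat_lit 9) 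
(.lf (nat_lit 483355) (.g (nat_lit 4867) (.e (nat_lit 6416) (nat_lit 341) (.e (nat_lit 163900) (nat_lit 12) (.e (nat_lit 426125) (nat_lit 2) (.e (nat_lit 196666) (nat_lit 13) (.e (nat_lit 65617) (nat_lit 10) (.e (nat_lit 344130) (nat_lit 26) (.e (nat_lit 557090) (nat_lit 12) (.e (nat_lit 163843) (nat_lit 0) .nil)))))))) (.g (nat_lit 1) (.e (nat_lit 123042) (nat_lit 0) .nil) .nil))) 
(.lf (nat_lit 483867) (.g (nat_lit 1633) (.e (nat_lit 6711) (nat_lit 360) (.e (nat_lit 163962) (nat_lit 25) (.e (nat_lit 532535) (nat_lit 9) (.e (nat_lit 336061) (nat_lit 7) .nil)))) (.g (nat_lit 0) (.e (nat_lit 127519) (nat_lit 0) .nil) .nil)))) (.nd (nat_lit 9) 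
(.lf (nat_lit 483611) (.g (nat_lit 3202) (.e (nat_lit 6421) (nat_lit 341) (.e (nat_lit 171776) (nat_lit 12) (.e (nat_lit 426139) (nat_lit 3) (.e (nat_lit 204869) (nat_lit 29) (.e (nat_lit 360474) (nat_lit 8) (.e (nat_lit 557094) (nat_lit 12) (.e (nat_lit 163849) (nat_lit 0) .nil))))))) (.g (nat_lit 1) (.e (nat_lit 125124) (nat_lit 0) .nil) .nil))) 
(.lf (nat_lit 484123) (.g (nat_lit 2910) (.e (nat_lit 6724) (nat_lit 362) (.e (nat_lit 180251) (nat_lit 10) (.e (nat_lit 573469) (nat_lit 11) (.e (nat_lit 16452) (nat_lit 11) (.e (nat_lit 458789) (nat_lit 23) (.e (nat_lit 532482) (nat_lit 0) .nil)))))) (.g (nat_lit 1) (.e (nat_lit 128959) (nat_lit 0) .nil) .nil))))) (.nd (nat_lit 8) (.nd (nat_lit 9) 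
(.lf (nat_lit 483483) (.g (nat_lit 4476) (.e (nat_lit 6418) (nat_lit 341) (.e (nat_lit 163908) (nat_lit 12) (.e (nat_lit 426136) (nat_lit 3) (.e (nat_lit 204869) (nat_lit 29) (.e (nat_lit 360475) (nat_lit 8) (.e (nat_lit 557091) (nat_lit 12) (.e (nat_lit 163847) (nat_lit 0) .nil))))))) (.g (nat_lit 1) (.e (nat_lit 123957) (nat_lit 0) .nil) .nil))) 
(.lf (nat_lit 483995) (.g (nat_lit 2546) (.e (nat_lit 6722) (nat_lit 362) (.e (nat_lit 180251) (nat_lit 10) (.e (nat_lit 573471) (nat_lit 11) (.e (nat_lit 16447) (nat_lit 10) (.e (nat_lit 434231) (nat_lit 23) .nil))))) (.g (nat_lit 0) (.e (nat_lit 128383) (nat_lit 0) .nil) .nil)))) (.nd (nat_lit 9) 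
(.lf (nat_lit 483739) (.g (nat_lit 1821) (.e (nat_lit 6398) (nat_lit 339) (.e (nat_lit 57378) (nat_lit 3) (.e (nat_lit 98333) (nat_lit 18) (.e (nat_lit 164325) (nat_lit 230) .nil)))) (.g (nat_lit 0) (.e (nat_lit 126481) (nat_lit 0) .nil) .nil))) 
(.lf (nat_lit 484251) (.g (nat_lit 1180) (.e (nat_lit 7936) (nat_lit 362) (.e (nat_lit 180271) (nat_lit 26) (.e (nat_lit 704738) (nat_lit 11) (.e (nat_lit 16440) (nat_lit 9) .nil)))) (.g (nat_lit 0) (.e (nat_lit 129327) (nat_lit 0) .nil) .nil)))))) (.nd (nat_lit 7) (.nd (nat_lit 8) (.nd (nat_lit 9) 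
(.lf (nat_lit 483419) (.g (nat_lit 3233) (.e (nat_lit 6416) (nat_lit 341) (.e (nat_lit 163909) (nat_lit 12) (.e (nat_lit 426140) (nat_lit 3) (.e (nat_lit 204868) (nat_lit 29) (.e (nat_lit 360473) (nat_lit 8) (.e (nat_lit 557089) (nat_lit 12) (.e (nat_lit 163848) (nat_lit 0) .nil))))))) (.g (nat_lit 1) (.e (nat_lit 123406) (nat_lit 0) .nil) .nil))) 
(.lf (nat_lit 483931) (.g (nat_lit 308) (.e (nat_lit 6719) (nat_lit 361) (.e (nat_lit 172150) (nat_lit 27) (.e (nat_lit 336100) (nat_lit 9) .nil))) (.g (nat_lit 0) (.e (nat_lit 127960) (nat_lit 0) .nil) .nil)))) (.nd (nat_lit 9) 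
(.lf (nat_lit 483675) (.g (nat_lit 1674) (.e (nat_lit 6425) (nat_lit 342) (.e (nat_lit 229415) (nat_lit 15) (.e (nat_lit 450562) (nat_lit 0) (.e (nat_lit 6252) (nat_lit 337) (.e (nat_lit 2630) (nat_lit 164) .nil))))) (.g (nat_lit 0) (.e (nat_lit 125706) (nat_lit 0) .nil) .nil))) 
(.lf (nat_lit 484187) (.g (nat_lit 1324) (.e (nat_lit 6724) (nat_lit 362) (.e (nat_lit 180271) (nat_lit 26) (.e (nat_lit 704738) (nat_lit 11) (.e (nat_lit 16432) (nat_lit 9) .nil)))) (.g (nat_lit 0) (.e (nat_lit 129105) (nat_lit 0) .nil) .nil))))) (.nd (nat_lit 8) (.nd (nat_lit 9) 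
(.lf (nat_lit 483547) (.g (nat_lit 2896) (.e (nat_lit 6420) (nat_lit 341) (.e (nat_lit 163908) (nat_lit 12) (.e (nat_lit 426132) (nat_lit 3) (.e (nat_lit 204868) (nat_lit 29) (.e (nat_lit 360473) (nat_lit 8) (.e (nat_lit 557091) (nat_lit 12) (.e (nat_lit 163844) (nat_lit 0) .nil))))))) (.g (nat_lit 1) (.e (nat_lit 124566) (nat_lit 0) .nil) .nil))) 
(.lf (nat_lit 484059) (.g (nat_lit 2275) (.e (nat_lit 6724) (nat_lit 362) (.e (nat_lit 180243) (nat_lit 5) (.e (nat_lit 532523) (nat_lit 7) (.e (nat_lit 319505) (nat_lit 10) (.e (nat_lit 5712) (nat_lit 312) .nil))))) (.g (nat_lit 0) (.e (nat_lit 128857) (nat_lit 0) .nil) .nil)))) (.nd (nat_lit 9) 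
(.lf (nat_lit 483803) (.g (nat_lit 3525) (.e (nat_lit 6651) (nat_lit 357) (.e (nat_lit 2664) (nat_lit 167) (.e (nat_lit 196666) (nat_lit 13) (.e (nat_lit 65617) (nat_lit 10) (.e (nat_lit 344130) (nat_lit 26) (.e (nat_lit 557087) (nat_lit 11) (.e (nat_lit 24584) (nat_lit 0) .nil))))))) (.g (nat_lit 1) (.e (nat_lit 126966) (nat_lit 0) .nil) .nil))) 
(.lf (nat_lit 484315) (.g (nat_lit 1604) (.e (nat_lit 8317) (nat_lit 64) (.e (nat_lit 516129) (nat_lit 3) (.e (nat_lit 221210) (nat_lit 22) (.e (nat_lit 196669) (nat_lit 14) .nil)))) (.g (nat_lit 0) (.e (nat_lit 129763) (nat_lit 0) .nil) .nil))))))) (.nd (nat_lit 6) (.nd (nat_lit 7) (.nd (nat_lit 8) (.nd (nat_lit 9) 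
(.lf (nat_lit 483387) (.g (nat_lit 4463) (.e (nat_lit 6416) (nat_lit 341) (.e (nat_lit 163908) (nat_lit 12) (.e (nat_lit 426136) (nat_lit 3) (.e (nat_lit 204869) (nat_lit 29) (.e (nat_lit 360475) (nat_lit 8) (.e (nat_lit 557089) (nat_lit 12) (.e (nat_lit 163848) (nat_lit 0) .nil))))))) (.g (nat_lit 1) (.e (nat_lit 123239) (nat_lit 0) .nil) .nil))) 
(.lf (nat_lit 483899) (.g (nat_lit 2866) (.e (nat_lit 6713) (nat_lit 360) (.e (nat_lit 163962) (nat_lit 25) (.e (nat_lit 532550) (nat_lit 12) (.e (nat_lit 360475) (nat_lit 8) (.e (nat_lit 557073) (nat_lit 9) (.e (nat_lit 288) (nat_lit 21) (.e (nat_lit 335877) (nat_lit 0) .nil))))))) (.g (nat_lit 1) (.e (nat_lit 127713) (nat_lit 0) .nil) .nil)))) (.nd (nat_lit 9) 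
(.lf (nat_lit 483643) (.g (nat_lit 4319) (.e (nat_lit 6425) (nat_lit 342) (.e (nat_lit 229403) (nat_lit 12) (.e (nat_lit 426125) (nat_lit 2) (.e (nat_lit 196666) (nat_lit 13) (.e (nat_lit 65617) (nat_lit 10) (.e (nat_lit 344130) (nat_lit 26) (.e (nat_lit 557090) (nat_lit 12) (.e (nat_lit 163850) (nat_lit 0) .nil)))))))) (.g (nat_lit 1) (.e (nat_lit 125570) (nat_lit 0) .nil) .nil))) 
(.lf (nat_lit 484155) (.g (nat_lit 3383) (.e (nat_lit 6724) (nat_lit 362) (.e (nat_lit 180252) (nat_lit 10) (.e (nat_lit 573471) (nat_lit 11) (.e (nat_lit 16436) (nat_lit 9) (.e (nat_lit 426131) (nat_lit 3) (.e (nat_lit 204815) (nat_lit 17) .nil)))))) (.g (nat_lit 1) (.e (nat_lit 129004) (nat_lit 0) .nil) .nil))))) (.nd (nat_lit 8) (.nd (nat_lit 9) 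
(.lf (nat_lit 483515) (.g (nat_lit 4112) (.e (nat_lit 6420) (nat_lit 341) (.e (nat_lit 163843) (nat_lit 0) (.e (nat_lit 7366) (nat_lit 388) (.e (nat_lit 2663) (nat_lit 167) (.e (nat_lit 196666) (nat_lit 13) (.e (nat_lit 65617) (nat_lit 10) (.e (nat_lit 344133) (nat_lit 26) (.e (nat_lit 557089) (nat_lit 12) (.e (nat_lit 163849) (nat_lit 0) .nil))))))))) (.g (nat_lit 1) (.e (nat_lit 124426) (nat_lit 0) .nil) .nil))) 
(.lf (nat_lit 484027) (.g (nat_lit 1356) (.e (nat_lit 6722) (nat_lit 362) (.e (nat_lit 180271) (nat_lit 26) (.e (nat_lit 704738) (nat_lit 11) (.e (nat_lit 16432) (nat_lit 9) .nil)))) (.g (nat_lit 0) (.e (nat_lit 128508) (nat_lit 0) .nil) .nil)))) (.nd (nat_lit 9) 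
(.lf (nat_lit 483771) (.g (nat_lit 2302) (.e (nat_lit 6508) (nat_lit 345) (.e (nat_lit 16473) (nat_lit 14) (.e (nat_lit 491560) (nat_lit 10) (.e (nat_lit 344179) (nat_lit 44) (.e (nat_lit 778465) (nat_lit 11) .nil))))) (.g (nat_lit 0) (.e (nat_lit 126544) (nat_lit 0) .nil) .nil))) 
(.lf (nat_lit 484283) (.g (nat_lit 1151) (.e (nat_lit 6830) (nat_lit 367) (.e (nat_lit 57423) (nat_lit 14) (.e (nat_lit 352269) (nat_lit 7) (.e (nat_lit 245762) (nat_lit 0) .nil)))) (.g (nat_lit 0) (.e (nat_lit 129543) (nat_lit 0) .nil) .nil)))))) (.nd (nat_lit 7) (.nd (nat_lit 8) (.nd (nat_lit 9) 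
(.lf (nat_lit 483451) (.g (nat_lit 3735) (.e (nat_lit 6418) (nat_lit 341) (.e (nat_lit 163900) (nat_lit 12) (.e (nat_lit 426125) (nat_lit 2) (.e (nat_lit 196666) (nat_lit 13) (.e (nat_lit 65617) (nat_lit 10) (.e (nat_lit 344130) (nat_lit 26) (.e (nat_lit 557089) (nat_lit 12) (.e (nat_lit 163848) (nat_lit 0) .nil)))))))) (.g (nat_lit 1) (.e (nat_lit 123885) (nat_lit 0) .nil) .nil))) 
(.lf (nat_lit 483963) (.g (nat_lit 2238) (.e (nat_lit 6722) (nat_lit 362) (.e (nat_lit 180243) (nat_lit 5) (.e (nat_lit 532569) (nat_lit 16) (.e (nat_lit 401446) (nat_lit 10) (.e (nat_lit 434231) (nat_lit 23) .nil))))) (.g (nat_lit 0) (.e (nat_lit 128264) (nat_lit 0) .nil) .nil)))) (.nd (nat_lit 9) 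
(.lf (nat_lit 483707) (.g (nat_lit 1954) (.e (nat_lit 6426) (nat_lit 342) (.e (nat_lit 229415) (nat_lit 15) (.e (nat_lit 450601) (nat_lit 21) (.e (nat_lit 696344) (nat_lit 8) (.e (nat_lit 172115) (nat_lit 10) (.e (nat_lit 434209) (nat_lit 18) .nil)))))) (.g (nat_lit 1) (.e (nat_lit 125984) (nat_lit 0) .nil) .nil))) 
(.lf (nat_lit 484219) (.g (nat_lit 2667) (.e (nat_lit 7936) (nat_lit 362) (.e (nat_lit 180250) (nat_lit 10) (.e (nat_lit 573471) (nat_lit 11) (.e (nat_lit 16448) (nat_lit 10) (.e (nat_lit 434234) (nat_lit 23) .nil))))) (.g (nat_lit 0) (.e (nat_lit 129232) (nat_lit 0) .nil) .nil))))) (.nd (nat_lit 8) (.nd (nat_lit 9) 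
(.lf (nat_lit 483579) (.g (nat_lit 3371) (.e (nat_lit 6421) (nat_lit 341) (.e (nat_lit 163900) (nat_lit 12) (.e (nat_lit 426140) (nat_lit 3) (.e (nat_lit 204869) (nat_lit 29) (.e (nat_lit 360474) (nat_lit 8) (.e (nat_lit 557094) (nat_lit 12) (.e (nat_lit 163849) (nat_lit 0) .nil))))))) (.g (nat_lit 1) (.e (nat_lit 124985) (nat_lit 0) .nil) .nil))) 
(.lf (nat_lit 484091) (.g (nat_lit 1520) (.e (nat_lit 6724) (nat_lit 362) (.e (nat_lit 180250) (nat_lit 10) (.e (nat_lit 573469) (nat_lit 11) (.e (nat_lit 16439) (nat_lit 9) .nil)))) (.g (nat_lit 0) (.e (nat_lit 128916) (nat_lit 0) .nil) .nil)))) (.nd (nat_lit 9) 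
(.lf (nat_lit 483835) (.g (nat_lit 1790) (.e (nat_lit 6681) (nat_lit 357) (.e (nat_lit 3090) (nat_lit 191) (.e (nat_lit 483380) (nat_lit 23) (.e (nat_lit 336332) (nat_lit 19) .nil)))) (.g (nat_lit 0) (.e (nat_lit 127318) (nat_lit 0) .nil) .nil))) 
(.lf (nat_lit 484347) (.g (nat_lit 3098) (.e (nat_lit 8324) (nat_lit 69) (.e (nat_lit 557108) (nat_lit 15) (.e (nat_lit 188452) (nat_lit 23) (.e (nat_lit 204846) (nat_lit 24) (.e (nat_lit 319504) (nat_lit 10) (.e (nat_lit 7936) (nat_lit 313) .nil)))))) (.g (nat_lit 1) (.e (nat_lit 129839) (nat_lit 0) .nil) .nil)))))))))) 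
(.nd (nat_lit 3) (.nd (nat_lit 4) (.nd (nat_lit 5) (.nd (nat_lit 6) (.nd (nat_lit 7) 
(.nd (nat_lit 8) (.nd (nat_lit 9) 
(.lf (nat_lit 483335) (.g (nat_lit 4018) (.e (nat_lit 6255) (nat_lit 337) (.e (nat_lit 2725) (nat_lit 172) (.e (nat_lit 237589) (nat_lit 2) (.e (nat_lit 196666) (nat_lit 13) (.e (nat_lit 65610) (nat_lit 10) (.e (nat_lit 344129) (nat_lit 26) (.e (nat_lit 557090) (nat_lit 12) (.e (nat_lit 163847) (nat_lit 0) .nil)))))))) (.g (nat_lit 1) (.e (nat_lit 122546) (nat_lit 0) .nil) .nil))) 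
(.lf (nat_lit 483847) (.g (nat_lit 1647) (.e (nat_lit 7936) (nat_lit 357) (.e (nat_lit 2668) (nat_lit 167) (.e (nat_lit 196666) (nat_lit 13) (.e (nat_lit 65630) (nat_lit 14) .nil)))) (.g (nat_lit 0) (.e (nat_lit 127397) (nat_lit 0) .nil) .nil)))) (.nd (nat_lit 9) 
(.lf (nat_lit 483591) (.g (nat_lit 596) (.e (nat_lit 6421) (nat_lit 341) (.e (nat_lit 163913) (nat_lit 12) (.e (nat_lit 426129) (nat_lit 3) .nil))) (.g (nat_lit 0) (.e (nat_lit 125051) (nat_lit 0) .nil) .nil))) 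
(.lf (nat_lit 484103) (.g (nat_lit 1720) (.e (nat_lit 6724) (nat_lit 362) (.e (nat_lit 180250) (nat_lit 10) (.e (nat_lit 573471) (nat_lit 11) (.e (nat_lit 16433) (nat_lit 9) (.e (nat_lit 433920) (nat_lit 3) (.e (nat_lit 204815) (nat_lit 17) .nil)))))) (.g (nat_lit 1) (.e (nat_lit 128928) (nat_lit 0) .nil) .nil))))) (.nd (nat_lit 8) (.nd (nat_lit 9) 
(.lf (nat_lit 483463) (.g (nat_lit 3103) (.e (nat_lit 6418) (nat_lit 341) (.e (nat_lit 163900) (nat_lit 12) (.e (nat_lit 426140) (nat_lit 3) (.e (nat_lit 204869) (nat_lit 29) (.e (nat_lit 360474) (nat_lit 8) (.e (nat_lit 557093) (nat_lit 12) (.e (nat_lit 163848) (nat_lit 0) .nil))))))) (.g (nat_lit 1) (.e (nat_lit 123905) (nat_lit 0) .nil) .nil))) 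
(.lf (nat_lit 483975) (.g (nat_lit 1187) (.e (nat_lit 6722) (nat_lit 362) (.e (nat_lit 180244) (nat_lit 5) (.e (nat_lit 532526) (nat_lit 8) (.e (nat_lit 327718) (nat_lit 19) .nil)))) (.g (nat_lit 0) (.e (nat_lit 128279) (nat_lit 0) .nil) .nil)))) (.nd (nat_lit 9) 
(.lf (nat_lit 483719) (.g (nat_lit 3099) (.e (nat_lit 6428) (nat_lit 342) (.e (nat_lit 229407) (nat_lit 13) (.e (nat_lit 434231) (nat_lit 23) (.e (nat_lit 532550) (nat_lit 12) (.e (nat_lit 360474) (nat_lit 8) (.e (nat_lit 557093) (nat_lit 12) (.e (nat_lit 163853) (nat_lit 0) .nil))))))) (.g (nat_lit 1) (.e (nat_lit 126189) (nat_lit 0) .nil) .nil))) 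
(.lf (nat_lit 484231) (.g (nat_lit 1249) (.e (nat_lit 7936) (nat_lit 362) (.e (nat_lit 180260) (nat_lit 18) (.e (nat_lit 639020) (nat_lit 16) (.e (nat_lit 65586) (nat_lit 7) (.e (nat_lit 319531) (nat_lit 16) .nil))))) (.g (nat_lit 0) (.e (nat_lit 129281) (nat_lit 0) .nil) .nil)))))) (.nd (nat_lit 7) (.nd (nat_lit 8) (.nd (nat_lit 9) 
(.lf (nat_lit 483399) (.g (nat_lit 819) (.e (nat_lit 6416) (nat_lit 341) (.e (nat_lit 163908) (nat_lit 12) (.e (nat_lit 426286) (nat_lit 10) (.e (nat_lit 434289) (nat_lit 43) .nil)))) (.g (nat_lit 0) (.e (nat_lit 123321) (nat_lit 0) .nil) .nil))) 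
(.lf (nat_lit 483911) (.g (nat_lit 2584) (.e (nat_lit 6718) (nat_lit 361) (.e (nat_lit 172076) (nat_lit 6) (.e (nat_lit 253991) (nat_lit 11) (.e (nat_lit 16462) (nat_lit 13) (.e (nat_lit 483344) (nat_lit 17) .nil))))) (.g (nat_lit 1) (.e (nat_lit 127878) (nat_lit 0) .nil) .nil)))) (.nd (nat_lit 9) 
(.lf (nat_lit 483655) (.g (nat_lit 2884) (.e (nat_lit 6425) (nat_lit 342) (.e (nat_lit 229409) (nat_lit 13) (.e (nat_lit 434231) (nat_lit 23) (.e (nat_lit 532549) (nat_lit 12) (.e (nat_lit 360474) (nat_lit 8) (.e (nat_lit 557093) (nat_lit 12) (.e (nat_lit 163853) (nat_lit 0) .nil))))))) (.g (nat_lit 1) (.e (nat_lit 125608) (nat_lit 0) .nil) .nil))) 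
(.lf (nat_lit 484167) (.g (nat_lit 1833) (.e (nat_lit 6724) (nat_lit 362) (.e (nat_lit 180271) (nat_lit 26) (.e (nat_lit 704736) (nat_lit 11) (.e (nat_lit 16463) (nat_lit 13) (.e (nat_lit 483343) (nat_lit 17) .nil))))) (.g (nat_lit 1) (.e (nat_lit 129079) (nat_lit 0) .nil) .nil))))) (.nd (nat_lit 8) (.nd (nat_lit 9) 
(.lf (nat_lit 483527) (.g (nat_lit 2694) (.e (nat_lit 6420) (nat_lit 341) (.e (nat_lit 163900) (nat_lit 12) (.e (nat_lit 426140) (nat_lit 3) (.e (nat_lit 204868) (nat_lit 29) (.e (nat_lit 360473) (nat_lit 8) (.e (nat_lit 557093) (nat_lit 12) (.e (nat_lit 163849) (nat_lit 0) .nil))))))) (.g (nat_lit 1) (.e (nat_lit 124454) (nat_lit 0) .nil) .nil))) 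
(.lf (nat_lit 484039) (.g (nat_lit 2632) (.e (nat_lit 6722) (nat_lit 362) (.e (nat_lit 180271) (nat_lit 26) (.e (nat_lit 704738) (nat_lit 11) (.e (nat_lit 16466) (nat_lit 13) (.e (nat_lit 483345) (nat_lit 17) .nil))))) (.g (nat_lit 1) (.e (nat_lit 128524) (nat_lit 0) .nil) .nil)))) (.nd (nat_lit 9) 
(.lf (nat_lit 483783) (.g (nat_lit 3950) (.e (nat_lit 6617) (nat_lit 357) (.e (nat_lit 2685) (nat_lit 168) (.e (nat_lit 204869) (nat_lit 29) (.e (nat_lit 360475) (nat_lit 8) (.e (nat_lit 557087) (nat_lit 11) (.e (nat_lit 24577) (nat_lit 0) .nil)))))) (.g (nat_lit 1) (.e (nat_lit 126768) (nat_lit 0) .nil) .nil))) 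
(.lf (nat_lit 484295) (.g (nat_lit 3847) (.e (nat_lit 8303) (nat_lit 58) (.e (nat_lit 286735) (nat_lit 3) (.e (nat_lit 98372) (nat_lit 29) (.e (nat_lit 450579) (nat_lit 5) (.e (nat_lit 532504) (nat_lit 1) .nil))))) (.g (nat_lit 0) (.e (nat_lit 129735) (nat_lit 0) .nil) .nil))))))) (.nd (nat_lit 6) (.nd (nat_lit 7) (.nd (nat_lit 8) (.nd (nat_lit 9) 
(.lf (nat_lit 483367) (.g (nat_lit 3986) (.e (nat_lit 6416) (nat_lit 341) (.e (nat_lit 163900) (nat_lit 12) (.e (nat_lit 426140) (nat_lit 3) (.e (nat_lit 204869) (nat_lit 29) (.e (nat_lit 360475) (nat_lit 8) (.e (nat_lit 557089) (nat_lit 12) (.e (nat_lit 163844) (nat_lit 0) .nil))))))) (.g (nat_lit 1) (.e (nat_lit 123060) (nat_lit 0) .nil) .nil))) 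
(.lf (nat_lit 483879) (.g (nat_lit 2346) (.e (nat_lit 6711) (nat_lit 360) (.e (nat_lit 163962) (nat_lit 25) (.e (nat_lit 532550) (nat_lit 12) (.e (nat_lit 360474) (nat_lit 8) (.e (nat_lit 557072) (nat_lit 9) (.e (nat_lit 288) (nat_lit 21) (.e (nat_lit 335876) (nat_lit 0) .nil))))))) (.g (nat_lit 1) (.e (nat_lit 127570) (nat_lit 0) .nil) .nil)))) (.nd (nat_lit 9) 
(.lf (nat_lit 483623) (.g (nat_lit 919) (.e (nat_lit 6421) (nat_lit 341) (.e (nat_lit 163920) (nat_lit 14) (.e (nat_lit 442411) (nat_lit 20) .nil))) (.g (nat_lit 0) (.e (nat_lit 125236) (nat_lit 0) .nil) .nil))) 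
(.lf (nat_lit 484135) (.g (nat_lit 4761) (.e (nat_lit 6724) (nat_lit 362) (.e (nat_lit 180251) (nat_lit 10) (.e (nat_lit 573471) (nat_lit 11) (.e (nat_lit 16448) (nat_lit 10) (.e (nat_lit 434231) (nat_lit 23) (.e (nat_lit 532481) (nat_lit 0) .nil)))))) (.g (nat_lit 1) (.e (nat_lit 128971) (nat_lit 0) .nil) .nil))))) (.nd (nat_lit 8) (.nd (nat_lit 9) 
(.lf (nat_lit 483495) (.g (nat_lit 3180) (.e (nat_lit 6418) (nat_lit 341) (.e (nat_lit 163909) (nat_lit 12) (.e (nat_lit 426125) (nat_lit 2) (.e (nat_lit 196666) (nat_lit 13) (.e (nat_lit 65617) (nat_lit 10) (.e (nat_lit 344127) (nat_lit 26) (.e (nat_lit 557090) (nat_lit 12) (.e (nat_lit 163844) (nat_lit 0) .nil)))))))) (.g (nat_lit 1) (.e (nat_lit 124080) (nat_lit 0) .nil) .nil))) 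
(.lf (nat_lit 484007) (.g (nat_lit 2228) (.e (nat_lit 6722) (nat_lit 362) (.e (nat_lit 180271) (nat_lit 26) (.e (nat_lit 704736) (nat_lit 11) (.e (nat_lit 16465) (nat_lit 13) (.e (nat_lit 483344) (nat_lit 17) .nil))))) (.g (nat_lit 1) (.e (nat_lit 128476) (nat_lit 0) .nil) .nil)))) (.nd (nat_lit 9) 
(.lf (nat_lit 483751) (.g (nat_lit 929) (.e (nat_lit 6400) (nat_lit 339) (.e (nat_lit 57411) (nat_lit 12) (.e (nat_lit 336456) (nat_lit 34) .nil))) (.g (nat_lit 0) (.e (nat_lit 126495) (nat_lit 0) .nil) .nil))) 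
(.lf (nat_lit 484263) (.g (nat_lit 1424) (.e (nat_lit 6806) (nat_lit 365) (.e (nat_lit 1221) (nat_lit 90) (.e (nat_lit 81938) (nat_lit 20) (.e (nat_lit 1886) (nat_lit 127) .nil)))) (.g (nat_lit 0) (.e (nat_lit 129367) (nat_lit 0) .nil) .nil)))))) (.nd (nat_lit 7) (.nd (nat_lit 8) (.nd (nat_lit 9) 
(.lf (nat_lit 483431) (.g (nat_lit 3109) (.e (nat_lit 6416) (nat_lit 341) (.e (nat_lit 163909) (nat_lit 12) (.e (nat_lit 426140) (nat_lit 3) (.e (nat_lit 204869) (nat_lit 29) (.e (nat_lit 360474) (nat_lit 8) (.e (nat_lit 557094) (nat_lit 12) (.e (nat_lit 163849) (nat_lit 0) .nil))))))) (.g (nat_lit 1) (.e (nat_lit 123418) (nat_lit 0) .nil) .nil))) 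
(.lf (nat_lit 483943) (.g (nat_lit 2384) (.e (nat_lit 6720) (nat_lit 361) (.e (nat_lit 172143) (nat_lit 25) (.e (nat_lit 319491) (nat_lit 0) (.e (nat_lit 5664) (nat_lit 312) (.e (nat_lit 3085) (nat_lit 191) (.e (nat_lit 483345) (nat_lit 17) .nil)))))) (.g (nat_lit 1) (.e (nat_lit 127980) (nat_lit 0) .nil) .nil)))) (.nd (nat_lit 9) 
(.lf (nat_lit 483687) (.g (nat_lit 2066) (.e (nat_lit 6425) (nat_lit 342) (.e (nat_lit 229415) (nat_lit 15) (.e (nat_lit 450563) (nat_lit 0) (.e (nat_lit 6418) (nat_lit 341) (.e (nat_lit 163908) (nat_lit 12) .nil))))) (.g (nat_lit 0) (.e (nat_lit 125750) (nat_lit 0) .nil) .nil))) 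
(.lf (nat_lit 484199) (.g (nat_lit 602) (.e (nat_lit 6725) (nat_lit 362) (.e (nat_lit 180271) (nat_lit 26) (.e (nat_lit 704738) (nat_lit 11) .nil))) (.g (nat_lit 0) (.e (nat_lit 129118) (nat_lit 0) .nil) .nil))))) (.nd (nat_lit 8) (.nd (nat_lit 9) 
(.lf (nat_lit 483559) (.g (nat_lit 4651) (.e (nat_lit 6420) (nat_lit 341) (.e (nat_lit 163908) (nat_lit 12) (.e (nat_lit 426136) (nat_lit 3) (.e (nat_lit 204869) (nat_lit 29) (.e (nat_lit 360475) (nat_lit 8) (.e (nat_lit 557091) (nat_lit 12) (.e (nat_lit 163847) (nat_lit 0) .nil))))))) (.g (nat_lit 1) (.e (nat_lit 124578) (nat_lit 0) .nil) .nil))) 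
(.lf (nat_lit 484071) (.g (nat_lit 3238) (.e (nat_lit 6724) (nat_lit 362) (.e (nat_lit 180243) (nat_lit 5) (.e (nat_lit 532567) (nat_lit 16) (.e (nat_lit 401436) (nat_lit 9) (.e (nat_lit 426131) (nat_lit 3) (.e (nat_lit 204815) (nat_lit 17) .nil)))))) (.g (nat_lit 1) (.e (nat_lit 128873) (nat_lit 0) .nil) .nil)))) (.nd (nat_lit 9) 
(.lf (nat_lit 483815) (.g (nat_lit 2316) (.e (nat_lit 6667) (nat_lit 357) (.e (nat_lit 3090) (nat_lit 191) (.e (nat_lit 483409) (nat_lit 27) (.e (nat_lit 401459) (nat_lit 13) (.e (nat_lit 483343) (nat_lit 17) .nil))))) (.g (nat_lit 0) (.e (nat_lit 127122) (nat_lit 0) .nil) .nil))) 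
(.lf (nat_lit 484327) (.g (nat_lit 3863) (.e (nat_lit 8318) (nat_lit 64) (.e (nat_lit 516150) (nat_lit 9) (.e (nat_lit 426131) (nat_lit 3) (.e (nat_lit 204838) (nat_lit 20) (.e (nat_lit 114716) (nat_lit 22) (.e (nat_lit 98048) (nat_lit 21) (.e (nat_lit 164368) (nat_lit 247) .nil))))))) (.g (nat_lit 1) (.e (nat_lit 129786) (nat_lit 0) .nil) .nil)))))))) 
(.nd (nat_lit 5) (.nd (nat_lit 6) (.nd (nat_lit 7) (.nd (nat_lit 8) (.nd (nat_lit 9) 
(.lf (nat_lit 483351) (.g (nat_lit 3375) (.e (nat_lit 6416) (nat_lit 341) (.e (nat_lit 163867) (nat_lit 2) (.e (nat_lit 196656) (nat_lit 11) (.e (nat_lit 16473) (nat_lit 14) (.e (nat_lit 499456) (nat_lit 27) (.e (nat_lit 426558) (nat_lit 33) (.e (nat_lit 385043) (nat_lit 21) .nil))))))) (.g (nat_lit 1) (.e (nat_lit 123022) (nat_lit 0) .nil) .nil))) 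
(.lf (nat_lit 483863) (.g (nat_lit 3012) (.e (nat_lit 6711) (nat_lit 360) (.e (nat_lit 163962) (nat_lit 25) (.e (nat_lit 532535) (nat_lit 9) (.e (nat_lit 336058) (nat_lit 7) (.e (nat_lit 319519) (nat_lit 12) (.e (nat_lit 32773) (nat_lit 5) (.e (nat_lit 1512) (nat_lit 108) (.e (nat_lit 335874) (nat_lit 0) .nil)))))))) (.g (nat_lit 1) (.e (nat_lit 127514) (nat_lit 0) .nil) .nil)))) (.nd (nat_lit 9) 
(.lf (nat_lit 483607) (.g (nat_lit 2537) (.e (nat_lit 6421) (nat_lit 341) (.e (nat_lit 171776) (nat_lit 12) (.e (nat_lit 426139) (nat_lit 3) (.e (nat_lit 204868) (nat_lit 29) (.e (nat_lit 360473) (nat_lit 8) (.e (nat_lit 557094) (nat_lit 12) (.e (nat_lit 163849) (nat_lit 0) .nil))))))) (.g (nat_lit 1) (.e (nat_lit 125120) (nat_lit 0) .nil) .nil))) 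
(.lf (nat_lit 484119) (.g (nat_lit 3935) (.e (nat_lit 6724) (nat_lit 362) (.e (nat_lit 180251) (nat_lit 10) (.e (nat_lit 573469) (nat_lit 11) (.e (nat_lit 16448) (nat_lit 10) (.e (nat_lit 434231) (nat_lit 23) (.e (nat_lit 532481) (nat_lit 0) .nil)))))) (.g (nat_lit 1) (.e (nat_lit 128955) (nat_lit 0) .nil) .nil))))) (.nd (nat_lit 8) (.nd (nat_lit 9) 
(.lf (nat_lit 483479) (.g (nat_lit 3095) (.e (nat_lit 6418) (nat_lit 341) (.e (nat_lit 163908) (nat_lit 12) (.e (nat_lit 426136) (nat_lit 3) (.e (nat_lit 204869) (nat_lit 29) (.e (nat_lit 360474) (nat_lit 8) (.e (nat_lit 557093) (nat_lit 12) (.e (nat_lit 163848) (nat_lit 0) .nil))))))) (.g (nat_lit 1) (.e (nat_lit 123953) (nat_lit 0) .nil) .nil))) 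
(.lf (nat_lit 483991) (.g (nat_lit 1295) (.e (nat_lit 6722) (nat_lit 362) (.e (nat_lit 180251) (nat_lit 10) (.e (nat_lit 573469) (nat_lit 11) (.e (nat_lit 16447) (nat_lit 10) .nil)))) (.g (nat_lit 0) (.e (nat_lit 128374) (nat_lit 0) .nil) .nil)))) (.nd (nat_lit 9) 
(.lf (nat_lit 483735) (.g (nat_lit 3526) (.e (nat_lit 6392) (nat_lit 339) (.e (nat_lit 57379) (nat_lit 3) (.e (nat_lit 98333) (nat_lit 18) (.e (nat_lit 164325) (nat_lit 230) (.e (nat_lit 163907) (nat_lit 12) (.e (nat_lit 426131) (nat_lit 3) (.e (nat_lit 204880) (nat_lit 32) (.e (nat_lit 385049) (nat_lit 21) .nil)))))))) (.g (nat_lit 1) (.e (nat_lit 126474) (nat_lit 0) .nil) .nil))) 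
(.lf (nat_lit 484247) (.g (nat_lit 294) (.e (nat_lit 7936) (nat_lit 362) (.e (nat_lit 180271) (nat_lit 26) (.e (nat_lit 704738) (nat_lit 11) .nil))) (.g (nat_lit 0) (.e (nat_lit 129323) (nat_lit 0) .nil) .nil)))))) (.nd (nat_lit 7) (.nd (nat_lit 8) (.nd (nat_lit 9) 
(.lf (nat_lit 483415) (.g (nat_lit 5397) (.e (nat_lit 6416) (nat_lit 341) (.e (nat_lit 163909) (nat_lit 12) (.e (nat_lit 426125) (nat_lit 2) (.e (nat_lit 196666) (nat_lit 13) (.e (nat_lit 65617) (nat_lit 10) (.e (nat_lit 344133) (nat_lit 26) (.e (nat_lit 557091) (nat_lit 12) (.e (nat_lit 163844) (nat_lit 0) .nil)))))))) (.g (nat_lit 1) (.e (nat_lit 123386) (nat_lit 0) .nil) .nil))) 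
(.lf (nat_lit 483927) (.g (nat_lit 404) (.e (nat_lit 6719) (nat_lit 361) (.e (nat_lit 172143) (nat_lit 25) (.e (nat_lit 319491) (nat_lit 0) (.e (nat_lit 5771) (nat_lit 316) (.e (nat_lit 172149) (nat_lit 27) (.e (nat_lit 335877) (nat_lit 0) .nil)))))) (.g (nat_lit 1) (.e (nat_lit 127930) (nat_lit 0) .nil) .nil)))) (.nd (nat_lit 9) 
(.lf (nat_lit 483671) (.g (nat_lit 2249) (.e (nat_lit 6425) (nat_lit 342) (.e (nat_lit 229413) (nat_lit 15) (.e (nat_lit 450603) (nat_lit 22) (.e (nat_lit 704737) (nat_lit 11) (.e (nat_lit 16449) (nat_lit 10) (.e (nat_lit 434212) (nat_lit 18) .nil)))))) (.g (nat_lit 1) (.e (nat_lit 125689) (nat_lit 0) .nil) .nil))) 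
(.lf (nat_lit 484183) (.g (nat_lit 254) (.e (nat_lit 6724) (nat_lit 362) (.e (nat_lit 180271) (nat_lit 26) (.e (nat_lit 704738) (nat_lit 11) .nil))) (.g (nat_lit 0) (.e (nat_lit 129101) (nat_lit 0) .nil) .nil))))) (.nd (nat_lit 8) (.nd (nat_lit 9) 
(.lf (nat_lit 483543) (.g (nat_lit 934) (.e (nat_lit 6420) (nat_lit 341) (.e (nat_lit 163902) (nat_lit 12) (.e (nat_lit 426293) (nat_lit 11) .nil))) (.g (nat_lit 0) (.e (nat_lit 124478) (nat_lit 0) .nil) .nil))) 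
(.lf (nat_lit 484055) (.g (nat_lit 3598) (.e (nat_lit 6724) (nat_lit 362) (.e (nat_lit 180243) (nat_lit 5) (.e (nat_lit 532523) (nat_lit 7) (.e (nat_lit 319504) (nat_lit 10) (.e (nat_lit 5714) (nat_lit 312) (.e (nat_lit 2681) (nat_lit 168) (.e (nat_lit 204815) (nat_lit 17) .nil))))))) (.g (nat_lit 1) (.e (nat_lit 128853) (nat_lit 0) .nil) .nil)))) (.nd (nat_lit 9) 
(.lf (nat_lit 483799) (.g (nat_lit 2386) (.e (nat_lit 6639) (nat_lit 357) (.e (nat_lit 3070) (nat_lit 190) (.e (nat_lit 475185) (nat_lit 29) (.e (nat_lit 557098) (nat_lit 13) (.e (nat_lit 172115) (nat_lit 10) .nil))))) (.g (nat_lit 0) (.e (nat_lit 126925) (nat_lit 0) .nil) .nil))) 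
(.lf (nat_lit 484311) (.g (nat_lit 147) (.e (nat_lit 8312) (nat_lit 62) (.e (nat_lit 499931) (nat_lit 11) (.e (nat_lit 196352) (nat_lit 19) (.e (nat_lit 401472) (nat_lit 28) (.e (nat_lit 352000) (nat_lit 1) .nil))))) (.g (nat_lit 1) (.e (nat_lit 129755) (nat_lit 0) .nil) .nil))))))) (.nd (nat_lit 6) (.nd (nat_lit 7) (.nd (nat_lit 8) (.nd (nat_lit 9) 
(.lf (nat_lit 483383) (.g (nat_lit 3105) (.e (nat_lit 6416) (nat_lit 341) (.e (nat_lit 163908) (nat_lit 12) (.e (nat_lit 426136) (nat_lit 3) (.e (nat_lit 204869) (nat_lit 29) (.e (nat_lit 360474) (nat_lit 8) (.e (nat_lit 557093) (nat_lit 12) (.e (nat_lit 163848) (nat_lit 0) .nil))))))) (.g (nat_lit 1) (.e (nat_lit 123235) (nat_lit 0) .nil) .nil))) 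
(.lf (nat_lit 483895) (.g (nat_lit 2525) (.e (nat_lit 6713) (nat_lit 360) (.e (nat_lit 163962) (nat_lit 25) (.e (nat_lit 532535) (nat_lit 9) (.e (nat_lit 336061) (nat_lit 7) (.e (nat_lit 319519) (nat_lit 12) .nil))))) (.g (nat_lit 0) (.e (nat_lit 127698) (nat_lit 0) .nil) .nil)))) (.nd (nat_lit 9) 
(.lf (nat_lit 483639) (.g (nat_lit 3610) (.e (nat_lit 6425) (nat_lit 342) (.e (nat_lit 229399) (nat_lit 12) (.e (nat_lit 426140) (nat_lit 3) (.e (nat_lit 204869) (nat_lit 29) (.e (nat_lit 360475) (nat_lit 8) (.e (nat_lit 557089) (nat_lit 12) (.e (nat_lit 163853) (nat_lit 0) .nil))))))) (.g (nat_lit 1) (.e (nat_lit 125554) (nat_lit 0) .nil) .nil))) 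
(.lf (nat_lit 484151) (.g (nat_lit 1547) (.e (nat_lit 6724) (nat_lit 362) (.e (nat_lit 180252) (nat_lit 10) (.e (nat_lit 573470) (nat_lit 11) (.e (nat_lit 16447) (nat_lit 10) (.e (nat_lit 434231) (nat_lit 23) .nil))))) (.g (nat_lit 0) (.e (nat_lit 129000) (nat_lit 0) .nil) .nil))))) (.nd (nat_lit 8) (.nd (nat_lit 9) 
(.lf (nat_lit 483511) (.g (nat_lit 3918) (.e (nat_lit 6420) (nat_lit 341) (.e (nat_lit 163843) (nat_lit 0) (.e (nat_lit 7366) (nat_lit 388) (.e (nat_lit 2663) (nat_lit 167) (.e (nat_lit 196666) (nat_lit 13) (.e (nat_lit 65617) (nat_lit 10) (.e (nat_lit 344130) (nat_lit 26) (.e (nat_lit 557089) (nat_lit 12) (.e (nat_lit 163849) (nat_lit 0) .nil))))))))) (.g (nat_lit 1) (.e (nat_lit 124422) (nat_lit 0) .nil) .nil))) 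
(.lf (nat_lit 484023) (.g (nat_lit 3160) (.e (nat_lit 6722) (nat_lit 362) (.e (nat_lit 180271) (nat_lit 26) (.e (nat_lit 704737) (nat_lit 11) (.e (nat_lit 16466) (nat_lit 13) (.e (nat_lit 483346) (nat_lit 17) .nil))))) (.g (nat_lit 1) (.e (nat_lit 128499) (nat_lit 0) .nil) .nil)))) (.nd (nat_lit 9) 
(.lf (nat_lit 483767) (.g (nat_lit 2188) (.e (nat_lit 7936) (nat_lit 343) (.e (nat_lit 1256) (nat_lit 92) (.e (nat_lit 98373) (nat_lit 29) (.e (nat_lit 450587) (nat_lit 10) (.e (nat_lit 573477) (nat_lit 12) .nil))))) (.g (nat_lit 0) (.e (nat_lit 126525) (nat_lit 0) .nil) .nil))) 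
(.lf (nat_lit 484279) (.g (nat_lit 2994) (.e (nat_lit 6830) (nat_lit 367) (.e (nat_lit 57378) (nat_lit 3) (.e (nat_lit 98367) (nat_lit 27) (.e (nat_lit 434248) (nat_lit 28) (.e (nat_lit 573482) (nat_lit 13) (.e (nat_lit 65571) (nat_lit 3) (.e (nat_lit 98319) (nat_lit 17) (.e (nat_lit 2399) (nat_lit 157) .nil)))))))) (.g (nat_lit 1) (.e (nat_lit 129539) (nat_lit 0) .nil) .nil)))))) 
(.nd (nat_lit 7) (.nd (nat_lit 8) (.nd (nat_lit 9) 
(.lf (nat_lit 483447) (.g (nat_lit 4535) (.e (nat_lit 6416) (nat_lit 341) (.e (nat_lit 163941) (nat_lit 19) (.e (nat_lit 483341) (nat_lit 9) (.e (nat_lit 426181) (nat_lit 8) .nil)))) (.g (nat_lit 0) (.e (nat_lit 123874) (nat_lit 0) .nil) .nil))) 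
(.lf (nat_lit 483959) (.g (nat_lit 390) (.e (nat_lit 6721) (nat_lit 362) (.e (nat_lit 180272) (nat_lit 26) (.e (nat_lit 704737) (nat_lit 11) .nil))) (.g (nat_lit 0) (.e (nat_lit 128126) (nat_lit 0) .nil) .nil)))) (.nd (nat_lit 9) 
(.lf (nat_lit 483703) (.g (nat_lit 1942) (.e (nat_lit 6426) (nat_lit 342) (.e (nat_lit 229409) (nat_lit 13) (.e (nat_lit 434231) (nat_lit 23) (.e (nat_lit 532550) (nat_lit 12) (.e (nat_lit 360474) (nat_lit 8) (.e (nat_lit 557094) (nat_lit 12) (.e (nat_lit 163840) (nat_lit 0) .nil))))))) (.g (nat_lit 1) (.e (nat_lit 125853) (nat_lit 0) .nil) .nil))) 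
(.lf (nat_lit 484215) (.g (nat_lit 2370) (.e (nat_lit 7936) (nat_lit 362) (.e (nat_lit 180244) (nat_lit 5) (.e (nat_lit 532569) (nat_lit 16) (.e (nat_lit 401448) (nat_lit 10) (.e (nat_lit 434232) (nat_lit 23) .nil))))) (.g (nat_lit 0) (.e (nat_lit 129196) (nat_lit 0) .nil) .nil))))) (.nd (nat_lit 8) (.nd (nat_lit 9) 
(.lf (nat_lit 483575) (.g (nat_lit 4335) (.e (nat_lit 6421) (nat_lit 341) (.e (nat_lit 163900) (nat_lit 12) (.e (nat_lit 426125) (nat_lit 2) (.e (nat_lit 196666) (nat_lit 13) (.e (nat_lit 65617) (nat_lit 10) (.e (nat_lit 344133) (nat_lit 26) (.e (nat_lit 557089) (nat_lit 12) (.e (nat_lit 163849) (nat_lit 0) .nil)))))))) (.g (nat_lit 1) (.e (nat_lit 124976) (nat_lit 0) .nil) .nil))) 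
(.lf (nat_lit 484087) (.g (nat_lit 2149) (.e (nat_lit 6724) (nat_lit 362) (.e (nat_lit 180245) (nat_lit 5) (.e (nat_lit 532523) (nat_lit 7) (.e (nat_lit 319505) (nat_lit 10) (.e (nat_lit 5712) (nat_lit 312) (.e (nat_lit 2508) (nat_lit 157) (.e (nat_lit 3249) (nat_lit 197) (.e (nat_lit 532482) (nat_lit 0) .nil)))))))) (.g (nat_lit 1) (.e (nat_lit 128893) (nat_lit 0) .nil) .nil)))) (.nd (nat_lit 9) 
(.lf (nat_lit 483831) (.g (nat_lit 3799) (.e (nat_lit 6680) (nat_lit 357) (.e (nat_lit 3067) (nat_lit 190) (.e (nat_lit 475183) (nat_lit 29) (.e (nat_lit 557101) (nat_lit 13) (.e (nat_lit 172097) (nat_lit 9) (.e (nat_lit 426140) (nat_lit 3) (.e (nat_lit 204821) (nat_lit 17) .nil))))))) (.g (nat_lit 1) (.e (nat_lit 127253) (nat_lit 0) .nil) .nil))) 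
(.lf (nat_lit 484343) (.g (nat_lit 3150) (.e (nat_lit 8324) (nat_lit 69) (.e (nat_lit 557105) (nat_lit 14) (.e (nat_lit 180252) (nat_lit 10) (.e (nat_lit 573489) (nat_lit 14) (.e (nat_lit 73755) (nat_lit 8) (.e (nat_lit 557090) (nat_lit 12) (.e (nat_lit 164005) (nat_lit 41) (.e (nat_lit 663582) (nat_lit 10) .nil)))))))) (.g (nat_lit 1) (.e (nat_lit 129835) (nat_lit 0) .nil) .nil))))))))) 
(.nd (nat_lit 4) (.nd (nat_lit 5) (.nd (nat_lit 6) (.nd (nat_lit 7) (.nd (nat_lit 8) 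
(.nd (nat_lit 9) 
(.lf (nat_lit 483343) (.g (nat_lit 297) (.e (nat_lit 6255) (nat_lit 337) (.e (nat_lit 2725) (nat_lit 172) (.e (nat_lit 237605) (nat_lit 9) .nil))) (.g (nat_lit 0) (.e (nat_lit 122556) (nat_lit 0) .nil) .nil))) 
(.lf (nat_lit 483855) (.g (nat_lit 2236) (.e (nat_lit 7936) (nat_lit 357) (.e (nat_lit 3064) (nat_lit 190) (.e (nat_lit 475185) (nat_lit 29) (.e (nat_lit 557100) (nat_lit 13) (.e (nat_lit 172106) (nat_lit 10) .nil))))) (.g (nat_lit 0) (.e (nat_lit 127418) (nat_lit 0) .nil) .nil)))) (.nd (nat_lit 9) 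
(.lf (nat_lit 483599) (.g (nat_lit 3837) (.e (nat_lit 6421) (nat_lit 341) (.e (nat_lit 163913) (nat_lit 12) (.e (nat_lit 426129) (nat_lit 3) (.e (nat_lit 204869) (nat_lit 29) (.e (nat_lit 360474) (nat_lit 8) (.e (nat_lit 557093) (nat_lit 12) (.e (nat_lit 163847) (nat_lit 0) .nil))))))) (.g (nat_lit 1) (.e (nat_lit 125064) (nat_lit 0) .nil) .nil))) 
(.lf (nat_lit 484111) (.g (nat_lit 2504) (.e (nat_lit 6724) (nat_lit 362) (.e (nat_lit 180250) (nat_lit 10) (.e (nat_lit 573471) (nat_lit 11) (.e (nat_lit 16453) (nat_lit 11) (.e (nat_lit 458789) (nat_lit 23) (.e (nat_lit 532481) (nat_lit 0) .nil)))))) (.g (nat_lit 1) (.e (nat_lit 128936) (nat_lit 0) .nil) .nil))))) (.nd (nat_lit 8) (.nd (nat_lit 9) 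
(.lf (nat_lit 483471) (.g (nat_lit 2538) (.e (nat_lit 6418) (nat_lit 341) (.e (nat_lit 163908) (nat_lit 12) (.e (nat_lit 426132) (nat_lit 3) (.e (nat_lit 204868) (nat_lit 29) (.e (nat_lit 360473) (nat_lit 8) (.e (nat_lit 557093) (nat_lit 12) (.e (nat_lit 163848) (nat_lit 0) .nil))))))) (.g (nat_lit 1) (.e (nat_lit 123945) (nat_lit 0) .nil) .nil))) 
(.lf (nat_lit 483983) (.g (nat_lit 2527) (.e (nat_lit 6722) (nat_lit 362) (.e (nat_lit 180245) (nat_lit 5) (.e (nat_lit 532523) (nat_lit 7) (.e (nat_lit 319538) (nat_lit 19) (.e (nat_lit 311314) (nat_lit 3) .nil))))) (.g (nat_lit 0) (.e (nat_lit 128299) (nat_lit 0) .nil) .nil)))) (.nd (nat_lit 9) 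
(.lf (nat_lit 483727) (.g (nat_lit 2735) (.e (nat_lit 6391) (nat_lit 339) (.e (nat_lit 57378) (nat_lit 3) (.e (nat_lit 98333) (nat_lit 18) (.e (nat_lit 164325) (nat_lit 230) (.e (nat_lit 163907) (nat_lit 12) (.e (nat_lit 426131) (nat_lit 3) (.e (nat_lit 204880) (nat_lit 32) (.e (nat_lit 385051) (nat_lit 21) .nil)))))))) (.g (nat_lit 1) (.e (nat_lit 126466) (nat_lit 0) .nil) .nil))) 
(.lf (nat_lit 484239) (.g (nat_lit 1555) (.e (nat_lit 7936) (nat_lit 362) (.e (nat_lit 180271) (nat_lit 26) (.e (nat_lit 704737) (nat_lit 11) (.e (nat_lit 16439) (nat_lit 9) (.e (nat_lit 426501) (nat_lit 27) .nil))))) (.g (nat_lit 0) (.e (nat_lit 129313) (nat_lit 0) .nil) .nil)))))) (.nd (nat_lit 7) (.nd (nat_lit 8) (.nd (nat_lit 9) 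
(.lf (nat_lit 483407) (.g (nat_lit 5029) (.e (nat_lit 6416) (nat_lit 341) (.e (nat_lit 163909) (nat_lit 12) (.e (nat_lit 426125) (nat_lit 2) (.e (nat_lit 196666) (nat_lit 13) (.e (nat_lit 65617) (nat_lit 10) (.e (nat_lit 344132) (nat_lit 26) (.e (nat_lit 557093) (nat_lit 12) (.e (nat_lit 163848) (nat_lit 0) .nil)))))))) (.g (nat_lit 1) (.e (nat_lit 123378) (nat_lit 0) .nil) .nil))) 
(.lf (nat_lit 483919) (.g (nat_lit 1982) (.e (nat_lit 6718) (nat_lit 361) (.e (nat_lit 172150) (nat_lit 27) (.e (nat_lit 336230) (nat_lit 14) (.e (nat_lit 401456) (nat_lit 13) (.e (nat_lit 483345) (nat_lit 17) .nil))))) (.g (nat_lit 1) (.e (nat_lit 127914) (nat_lit 0) .nil) .nil)))) (.nd (nat_lit 9) 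
(.lf (nat_lit 483663) (.g (nat_lit 2241) (.e (nat_lit 6425) (nat_lit 342) (.e (nat_lit 229412) (nat_lit 14) (.e (nat_lit 442390) (nat_lit 11) (.e (nat_lit 336230) (nat_lit 14) (.e (nat_lit 401448) (nat_lit 10) (.e (nat_lit 434211) (nat_lit 18) .nil)))))) (.g (nat_lit 1) (.e (nat_lit 125633) (nat_lit 0) .nil) .nil))) 
(.lf (nat_lit 484175) (.g (nat_lit 2173) (.e (nat_lit 6724) (nat_lit 362) (.e (nat_lit 180271) (nat_lit 26) (.e (nat_lit 704737) (nat_lit 11) (.e (nat_lit 16439) (nat_lit 9) (.e (nat_lit 426497) (nat_lit 27) (.e (nat_lit 335894) (nat_lit 0) .nil)))))) (.g (nat_lit 1) (.e (nat_lit 129090) (nat_lit 0) .nil) .nil))))) (.nd (nat_lit 8) (.nd (nat_lit 9) 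
(.lf (nat_lit 483535) (.g (nat_lit 844) (.e (nat_lit 6420) (nat_lit 341) (.e (nat_lit 163902) (nat_lit 12) (.e (nat_lit 426244) (nat_lit 9) .nil))) (.g (nat_lit 0) (.e (nat_lit 124468) (nat_lit 0) .nil) .nil))) 
(.lf (nat_lit 484047) (.g (nat_lit 1822) (.e (nat_lit 6722) (nat_lit 362) (.e (nat_lit 180272) (nat_lit 26) (.e (nat_lit 704737) (nat_lit 11) (.e (nat_lit 16446) (nat_lit 9) (.e (nat_lit 426500) (nat_lit 27) .nil))))) (.g (nat_lit 0) (.e (nat_lit 128560) (nat_lit 0) .nil) .nil)))) (.nd (nat_lit 9) 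
(.lf (nat_lit 483791) (.g (nat_lit 2333) (.e (nat_lit 6619) (nat_lit 357) (.e (nat_lit 2668) (nat_lit 167) (.e (nat_lit 196666) (nat_lit 13) (.e (nat_lit 65614) (nat_lit 10) (.e (nat_lit 344133) (nat_lit 26) .nil))))) (.g (nat_lit 0) (.e (nat_lit 126831) (nat_lit 0) .nil) .nil))) 
(.lf (nat_lit 484303) (.g (nat_lit 1234) (.e (nat_lit 8305) (nat_lit 58) (.e (nat_lit 286759) (nat_lit 12) (.e (nat_lit 385106) (nat_lit 50) (.e (nat_lit 786483) (nat_lit 30) .nil)))) (.g (nat_lit 0) (.e (nat_lit 129746) (nat_lit 0) .nil) .nil))))))) (.nd (nat_lit 6) (.nd (nat_lit 7) (.nd (nat_lit 8) (.nd (nat_lit 9) 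
(.lf (nat_lit 483375) (.g (nat_lit 1025) (.e (nat_lit 6416) (nat_lit 341) (.e (nat_lit 163903) (nat_lit 12) (.e (nat_lit 426227) (nat_lit 9) .nil))) (.g (nat_lit 0) (.e (nat_lit 123116) (nat_lit 0) .nil) .nil))) 
(.lf (nat_lit 483887) (.g (nat_lit 2252) (.e (nat_lit 6712) (nat_lit 360) (.e (nat_lit 163979) (nat_lit 30) (.e (nat_lit 573482) (nat_lit 13) (.e (nat_lit 65563) (nat_lit 1) (.e (nat_lit 57927) (nat_lit 282) (.e (nat_lit 163943) (nat_lit 19) (.e (nat_lit 483343) (nat_lit 17) .nil))))))) (.g (nat_lit 1) (.e (nat_lit 127637) (nat_lit 0) .nil) .nil)))) (.nd (nat_lit 9) 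
(.lf (nat_lit 483631) (.g (nat_lit 3770) (.e (nat_lit 6421) (nat_lit 341) (.e (nat_lit 163941) (nat_lit 19) (.e (nat_lit 483341) (nat_lit 9) (.e (nat_lit 426298) (nat_lit 11) .nil)))) (.g (nat_lit 0) (.e (nat_lit 125491) (nat_lit 0) .nil) .nil))) 
(.lf (nat_lit 484143) (.g (nat_lit 757) (.e (nat_lit 6724) (nat_lit 362) (.e (nat_lit 180252) (nat_lit 10) (.e (nat_lit 573469) (nat_lit 11) .nil))) (.g (nat_lit 0) (.e (nat_lit 128992) (nat_lit 0) .nil) .nil))))) (.nd (nat_lit 8) (.nd (nat_lit 9) 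
(.lf (nat_lit 483503) (.g (nat_lit 3822) (.e (nat_lit 6418) (nat_lit 341) (.e (nat_lit 163917) (nat_lit 13) (.e (nat_lit 434231) (nat_lit 23) (.e (nat_lit 532550) (nat_lit 12) (.e (nat_lit 360475) (nat_lit 8) (.e (nat_lit 557089) (nat_lit 12) (.e (nat_lit 163844) (nat_lit 0) .nil))))))) (.g (nat_lit 1) (.e (nat_lit 124126) (nat_lit 0) .nil) .nil))) 
(.lf (nat_lit 484015) (.g (nat_lit 2270) (.e (nat_lit 6722) (nat_lit 362) (.e (nat_lit 180271) (nat_lit 26) (.e (nat_lit 704737) (nat_lit 11) (.e (nat_lit 16446) (nat_lit 9) (.e (nat_lit 426500) (nat_lit 27) (.e (nat_lit 335895) (nat_lit 0) .nil)))))) (.g (nat_lit 1) (.e (nat_lit 128488) (nat_lit 0) .nil) .nil)))) (.nd (nat_lit 9) 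
(.lf (nat_lit 483759) (.g (nat_lit 2713) (.e (nat_lit 6436) (nat_lit 343) (.e (nat_lit 1256) (nat_lit 92) (.e (nat_lit 98350) (nat_lit 24) (.e (nat_lit 409645) (nat_lit 18) (.e (nat_lit 303119) (nat_lit 3) .nil))))) (.g (nat_lit 0) (.e (nat_lit 126508) (nat_lit 0) .nil) .nil))) 
(.lf (nat_lit 484271) (.g (nat_lit 2153) (.e (nat_lit 6841) (nat_lit 369) (.e (nat_lit 163874) (nat_lit 3) (.e (nat_lit 204862) (nat_lit 27) (.e (nat_lit 344117) (nat_lit 21) (.e (nat_lit 516195) (nat_lit 26) .nil))))) (.g (nat_lit 0) (.e (nat_lit 129515) (nat_lit 0) .nil) .nil)))))) (.nd (nat_lit 7) (.nd (nat_lit 8) (.nd (nat_lit 9) 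
(.lf (nat_lit 483439) (.g (nat_lit 4569) (.e (nat_lit 6416) (nat_lit 341) (.e (nat_lit 163916) (nat_lit 13) (.e (nat_lit 434231) (nat_lit 23) (.e (nat_lit 532550) (nat_lit 12) (.e (nat_lit 360475) (nat_lit 8) (.e (nat_lit 557091) (nat_lit 12) (.e (nat_lit 163843) (nat_lit 0) .nil))))))) (.g (nat_lit 1) (.e (nat_lit 123454) (nat_lit 0) .nil) .nil))) 
(.lf (nat_lit 483951) (.g (nat_lit 2642) (.e (nat_lit 6720) (nat_lit 361) (.e (nat_lit 172150) (nat_lit 27) (.e (nat_lit 336232) (nat_lit 14) (.e (nat_lit 401456) (nat_lit 13) (.e (nat_lit 483342) (nat_lit 17) .nil))))) (.g (nat_lit 0) (.e (nat_lit 128003) (nat_lit 0) .nil) .nil)))) (.nd (nat_lit 9) 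
(.lf (nat_lit 483695) (.g (nat_lit 4163) (.e (nat_lit 6426) (nat_lit 342) (.e (nat_lit 229399) (nat_lit 12) (.e (nat_lit 426125) (nat_lit 2) (.e (nat_lit 196666) (nat_lit 13) (.e (nat_lit 65617) (nat_lit 10) (.e (nat_lit 344133) (nat_lit 26) (.e (nat_lit 557091) (nat_lit 12) (.e (nat_lit 163852) (nat_lit 0) .nil)))))))) (.g (nat_lit 1) (.e (nat_lit 125823) (nat_lit 0) .nil) .nil))) 
(.lf (nat_lit 484207) (.g (nat_lit 2164) (.e (nat_lit 7936) (nat_lit 362) (.e (nat_lit 180243) (nat_lit 5) (.e (nat_lit 532523) (nat_lit 7) (.e (nat_lit 319539) (nat_lit 19) .nil)))) (.g (nat_lit 0) (.e (nat_lit 129174) (nat_lit 0) .nil) .nil))))) (.nd (nat_lit 8) (.nd (nat_lit 9) 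
(.lf (nat_lit 483567) (.g (nat_lit 4053) (.e (nat_lit 6420) (nat_lit 341) (.e (nat_lit 163916) (nat_lit 13) (.e (nat_lit 434231) (nat_lit 23) (.e (nat_lit 532550) (nat_lit 12) (.e (nat_lit 360475) (nat_lit 8) (.e (nat_lit 557089) (nat_lit 12) (.e (nat_lit 163844) (nat_lit 0) .nil))))))) (.g (nat_lit 1) (.e (nat_lit 124686) (nat_lit 0) .nil) .nil))) 
(.lf (nat_lit 484079) (.g (nat_lit 2047) (.e (nat_lit 6724) (nat_lit 362) (.e (nat_lit 180243) (nat_lit 5) (.e (nat_lit 532568) (nat_lit 16) (.e (nat_lit 401446) (nat_lit 10) (.e (nat_lit 434231) (nat_lit 23) (.e (nat_lit 532481) (nat_lit 0) .nil)))))) (.g (nat_lit 1) (.e (nat_lit 128882) (nat_lit 0) .nil) .nil)))) (.nd (nat_lit 9) 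
(.lf (nat_lit 483823) (.g (nat_lit 1281) (.e (nat_lit 6676) (nat_lit 357) (.e (nat_lit 2663) (nat_lit 167) (.e (nat_lit 196666) (nat_lit 13) (.e (nat_lit 65617) (nat_lit 10) .nil)))) (.g (nat_lit 0) (.e (nat_lit 127190) (nat_lit 0) .nil) .nil))) 
(.lf (nat_lit 484335) (.g (nat_lit 1858) (.e (nat_lit 8320) (nat_lit 64) (.e (nat_lit 516120) (nat_lit 1) (.e (nat_lit 164330) (nat_lit 230) (.e (nat_lit 163941) (nat_lit 19) (.e (nat_lit 483341) (nat_lit 9) .nil))))) (.g (nat_lit 0) (.e (nat_lit 129820) (nat_lit 0) .nil) .nil)))))))) (.nd (nat_lit 5) (.nd (nat_lit 6) (.nd (nat_lit 7) (.nd (nat_lit 8) (.nd (nat_lit 9) 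
(.lf (nat_lit 483359) (.g (nat_lit 4988) (.e (nat_lit 6416) (nat_lit 341) (.e (nat_lit 163900) (nat_lit 12) (.e (nat_lit 426125) (nat_lit 2) (.e (nat_lit 196666) (nat_lit 13) (.e (nat_lit 65617) (nat_lit 10) (.e (nat_lit 344133) (nat_lit 26) (.e (nat_lit 557091) (nat_lit 12) (.e (nat_lit 163843) (nat_lit 0) .nil)))))))) (.g (nat_lit 1) (.e (nat_lit 123046) (nat_lit 0) .nil) .nil))) 
(.lf (nat_lit 483871) (.g (nat_lit 2454) (.e (nat_lit 6711) (nat_lit 360) (.e (nat_lit 163962) (nat_lit 25) (.e (nat_lit 532535) (nat_lit 9) (.e (nat_lit 336061) (nat_lit 7) (.e (nat_lit 319519) (nat_lit 12) (.e (nat_lit 32778) (nat_lit 5) (.e (nat_lit 1512) (nat_lit 108) (.e (nat_lit 335872) (nat_lit 0) .nil)))))))) (.g (nat_lit 1) (.e (nat_lit 127523) (nat_lit 0) .nil) .nil)))) (.nd (nat_lit 9) 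
(.lf (nat_lit 483615) (.g (nat_lit 4162) (.e (nat_lit 6421) (nat_lit 341) (.e (nat_lit 163916) (nat_lit 13) (.e (nat_lit 434231) (nat_lit 23) (.e (nat_lit 532550) (nat_lit 12) (.e (nat_lit 360475) (nat_lit 8) (.e (nat_lit 557089) (nat_lit 12) (.e (nat_lit 163849) (nat_lit 0) .nil))))))) (.g (nat_lit 1) (.e (nat_lit 125137) (nat_lit 0) .nil) .nil))) 
(.lf (nat_lit 484127) (.g (nat_lit 3074) (.e (nat_lit 6724) (nat_lit 362) (.e (nat_lit 180251) (nat_lit 10) (.e (nat_lit 573471) (nat_lit 11) (.e (nat_lit 16436) (nat_lit 9) (.e (nat_lit 426131) (nat_lit 3) (.e (nat_lit 204815) (nat_lit 17) .nil)))))) (.g (nat_lit 1) (.e (nat_lit 128963) (nat_lit 0) .nil) .nil))))) (.nd (nat_lit 8) (.nd (nat_lit 9) 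
(.lf (nat_lit 483487) (.g (nat_lit 4017) (.e (nat_lit 6418) (nat_lit 341) (.e (nat_lit 163908) (nat_lit 12) (.e (nat_lit 426285) (nat_lit 10) (.e (nat_lit 434289) (nat_lit 43) (.e (nat_lit 696344) (nat_lit 8) (.e (nat_lit 172113) (nat_lit 10) (.e (nat_lit 434203) (nat_lit 18) .nil))))))) (.g (nat_lit 1) (.e (nat_lit 123983) (nat_lit 0) .nil) .nil))) 
(.lf (nat_lit 483999) (.g (nat_lit 1823) (.e (nat_lit 6722) (nat_lit 362) (.e (nat_lit 180252) (nat_lit 10) (.e (nat_lit 573469) (nat_lit 11) (.e (nat_lit 16452) (nat_lit 11) (.e (nat_lit 458789) (nat_lit 23) .nil))))) (.g (nat_lit 0) (.e (nat_lit 128403) (nat_lit 0) .nil) .nil)))) (.nd (nat_lit 9) 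
(.lf (nat_lit 483743) (.g (nat_lit 735) (.e (nat_lit 6398) (nat_lit 339) (.e (nat_lit 57409) (nat_lit 12) (.e (nat_lit 336367) (nat_lit 27) .nil))) (.g (nat_lit 0) (.e (nat_lit 126485) (nat_lit 0) .nil) .nil))) 
(.lf (nat_lit 484255) (.g (nat_lit 2149) (.e (nat_lit 7936) (nat_lit 362) (.e (nat_lit 180271) (nat_lit 26) (.e (nat_lit 704738) (nat_lit 11) (.e (nat_lit 16466) (nat_lit 13) (.e (nat_lit 483354) (nat_lit 17) .nil))))) (.g (nat_lit 0) (.e (nat_lit 129332) (nat_lit 0) .nil) .nil)))))) (.nd (nat_lit 7) (.nd (nat_lit 8) (.nd (nat_lit 9) 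
(.lf (nat_lit 483423) (.g (nat_lit 2996) (.e (nat_lit 6416) (nat_lit 341) (.e (nat_lit 163909) (nat_lit 12) (.e (nat_lit 426140) (nat_lit 3) (.e (nat_lit 204868) (nat_lit 29) (.e (nat_lit 360473) (nat_lit 8) (.e (nat_lit 557093) (nat_lit 12) (.e (nat_lit 163849) (nat_lit 0) .nil))))))) (.g (nat_lit 1) (.e (nat_lit 123410) (nat_lit 0) .nil) .nil))) 
(.lf (nat_lit 483935) (.g (nat_lit 2454) (.e (nat_lit 6719) (nat_lit 361) (.e (nat_lit 172150) (nat_lit 27) (.e (nat_lit 336229) (nat_lit 14) (.e (nat_lit 401438) (nat_lit 9) (.e (nat_lit 426530) (nat_lit 27) (.e (nat_lit 335874) (nat_lit 0) .nil)))))) (.g (nat_lit 1) (.e (nat_lit 127965) (nat_lit 0) .nil) .nil)))) (.nd (nat_lit 9) 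
(.lf (nat_lit 483679) (.g (nat_lit 1645) (.e (nat_lit 6425) (nat_lit 342) (.e (nat_lit 229415) (nat_lit 15) (.e (nat_lit 450563) (nat_lit 0) (.e (nat_lit 6252) (nat_lit 337) .nil)))) (.g (nat_lit 0) (.e (nat_lit 125720) (nat_lit 0) .nil) .nil))) 
(.lf (nat_lit 484191) (.g (nat_lit 3661) (.e (nat_lit 6724) (nat_lit 362) (.e (nat_lit 180271) (nat_lit 26) (.e (nat_lit 704738) (nat_lit 11) (.e (nat_lit 16439) (nat_lit 9) (.e (nat_lit 426499) (nat_lit 27) (.e (nat_lit 335894) (nat_lit 0) .nil)))))) (.g (nat_lit 1) (.e (nat_lit 129109) (nat_lit 0) .nil) .nil))))) (.nd (nat_lit 8) (.nd (nat_lit 9) 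
(.lf (nat_lit 483551) (.g (nat_lit 2975) (.e (nat_lit 6420) (nat_lit 341) (.e (nat_lit 163908) (nat_lit 12) (.e (nat_lit 426132) (nat_lit 3) (.e (nat_lit 204869) (nat_lit 29) (.e (nat_lit 360474) (nat_lit 8) (.e (nat_lit 557094) (nat_lit 12) (.e (nat_lit 163849) (nat_lit 0) .nil))))))) (.g (nat_lit 1) (.e (nat_lit 124570) (nat_lit 0) .nil) .nil))) 
(.lf (nat_lit 484063) (.g (nat_lit 1799) (.e (nat_lit 6724) (nat_lit 362) (.e (nat_lit 180243) (nat_lit 5) (.e (nat_lit 532563) (nat_lit 15) (.e (nat_lit 385104) (nat_lit 50) .nil)))) (.g (nat_lit 0) (.e (nat_lit 128864) (nat_lit 0) .nil) .nil)))) (.nd (nat_lit 9) 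
(.lf (nat_lit 483807) (.g (nat_lit 1144) (.e (nat_lit 6665) (nat_lit 357) (.e (nat_lit 2661) (nat_lit 167) (.e (nat_lit 196666) (nat_lit 13) (.e (nat_lit 65617) (nat_lit 10) .nil)))) (.g (nat_lit 0) (.e (nat_lit 127065) (nat_lit 0) .nil) .nil))) 
(.lf (nat_lit 484319) (.g (nat_lit 4286) (.e (nat_lit 8318) (nat_lit 64) (.e (nat_lit 516115) (nat_lit 1) (.e (nat_lit 164325) (nat_lit 230) (.e (nat_lit 163903) (nat_lit 12) (.e (nat_lit 426568) (nat_lit 34) (.e (nat_lit 393234) (nat_lit 17) (.e (nat_lit 7376) (nat_lit 389) .nil))))))) (.g (nat_lit 1) (.e (nat_lit 129776) (nat_lit 0) .nil) .nil))))))) 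
(.nd (nat_lit 6) (.nd (nat_lit 7) (.nd (nat_lit 8) (.nd (nat_lit 9) 
(.lf (nat_lit 483391) (.g (nat_lit 3248) (.e (nat_lit 6416) (nat_lit 341) (.e (nat_lit 163908) (nat_lit 12) (.e (nat_lit 426285) (nat_lit 10) (.e (nat_lit 434212) (nat_lit 18) (.e (nat_lit 6425) (nat_lit 342) (.e (nat_lit 229415) (nat_lit 15) (.e (nat_lit 450563) (nat_lit 0) .nil))))))) (.g (nat_lit 1) (.e (nat_lit 123265) (nat_lit 0) .nil) .nil))) 
(.lf (nat_lit 483903) (.g (nat_lit 2010) (.e (nat_lit 7936) (nat_lit 360) (.e (nat_lit 163962) (nat_lit 25) (.e (nat_lit 532549) (nat_lit 12) (.e (nat_lit 360475) (nat_lit 8) (.e (nat_lit 557087) (nat_lit 11) .nil))))) (.g (nat_lit 0) (.e (nat_lit 127754) (nat_lit 0) .nil) .nil)))) (.nd (nat_lit 9) 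
(.lf (nat_lit 483647) (.g (nat_lit 2489) (.e (nat_lit 6425) (nat_lit 342) (.e (nat_lit 229407) (nat_lit 13) (.e (nat_lit 434231) (nat_lit 23) (.e (nat_lit 532550) (nat_lit 12) (.e (nat_lit 360474) (nat_lit 8) (.e (nat_lit 557094) (nat_lit 12) (.e (nat_lit 163840) (nat_lit 0) .nil))))))) (.g (nat_lit 1) (.e (nat_lit 125586) (nat_lit 0) .nil) .nil))) 
(.lf (nat_lit 484159) (.g (nat_lit 2708) (.e (nat_lit 6724) (nat_lit 362) (.e (nat_lit 180252) (nat_lit 10) (.e (nat_lit 573471) (nat_lit 11) (.e (nat_lit 16444) (nat_lit 9) (.e (nat_lit 426129) (nat_lit 3) (.e (nat_lit 204815) (nat_lit 17) .nil)))))) (.g (nat_lit 1) (.e (nat_lit 129008) (nat_lit 0) .nil) .nil))))) (.nd (nat_lit 8) (.nd (nat_lit 9) 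
(.lf (nat_lit 483519) (.g (nat_lit 3630) (.e (nat_lit 6420) (nat_lit 341) (.e (nat_lit 163867) (nat_lit 2) (.e (nat_lit 196656) (nat_lit 11) (.e (nat_lit 16473) (nat_lit 14) (.e (nat_lit 491582) (nat_lit 27) .nil))))) (.g (nat_lit 0) (.e (nat_lit 124443) (nat_lit 0) .nil) .nil))) 
(.lf (nat_lit 484031) (.g (nat_lit 2101) (.e (nat_lit 6722) (nat_lit 362) (.e (nat_lit 180271) (nat_lit 26) (.e (nat_lit 704738) (nat_lit 11) (.e (nat_lit 16446) (nat_lit 9) (.e (nat_lit 426500) (nat_lit 27) (.e (nat_lit 335893) (nat_lit 0) .nil)))))) (.g (nat_lit 1) (.e (nat_lit 128514) (nat_lit 0) .nil) .nil)))) (.nd (nat_lit 9) 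
(.lf (nat_lit 483775) (.g (nat_lit 1285) (.e (nat_lit 7936) (nat_lit 347) (.e (nat_lit 65569) (nat_lit 3) (.e (nat_lit 98350) (nat_lit 24) (.e (nat_lit 409649) (nat_lit 18) .nil)))) (.g (nat_lit 0) (.e (nat_lit 126548) (nat_lit 0) .nil) .nil))) 
(.lf (nat_lit 484287) (.g (nat_lit 2842) (.e (nat_lit 8288) (nat_lit 51) (.e (nat_lit 5412) (nat_lit 303) (.e (nat_lit 73777) (nat_lit 31) (.e (nat_lit 819204) (nat_lit 0) (.e (nat_lit 3015) (nat_lit 187) (.e (nat_lit 450562) (nat_lit 0) (.e (nat_lit 4275) (nat_lit 252) .nil))))))) (.g (nat_lit 1) (.e (nat_lit 129600) (nat_lit 0) .nil) .nil)))))) (.nd (nat_lit 7) (.nd (nat_lit 8) (.nd (nat_lit 9) 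
(.lf (nat_lit 483455) (.g (nat_lit 3941) (.e (nat_lit 6418) (nat_lit 341) (.e (nat_lit 163900) (nat_lit 12) (.e (nat_lit 426125) (nat_lit 2) (.e (nat_lit 196666) (nat_lit 13) (.e (nat_lit 65617) (nat_lit 10) (.e (nat_lit 344133) (nat_lit 26) (.e (nat_lit 557089) (nat_lit 12) (.e (nat_lit 163844) (nat_lit 0) .nil)))))))) (.g (nat_lit 1) (.e (nat_lit 123889) (nat_lit 0) .nil) .nil))) 
(.lf (nat_lit 483967) (.g (nat_lit 3227) (.e (nat_lit 6722) (nat_lit 362) (.e (nat_lit 180244) (nat_lit 5) (.e (nat_lit 532481) (nat_lit 0) (.e (nat_lit 6724) (nat_lit 362) (.e (nat_lit 180243) (nat_lit 5) (.e (nat_lit 532481) (nat_lit 0) .nil)))))) (.g (nat_lit 1) (.e (nat_lit 128270) (nat_lit 0) .nil) .nil)))) (.nd (nat_lit 9) 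
(.lf (nat_lit 483711) (.g (nat_lit 2219) (.e (nat_lit 6427) (nat_lit 342) (.e (nat_lit 229409) (nat_lit 13) (.e (nat_lit 434231) (nat_lit 23) (.e (nat_lit 532549) (nat_lit 12) (.e (nat_lit 360473) (nat_lit 8) (.e (nat_lit 557091) (nat_lit 12) (.e (nat_lit 163840) (nat_lit 0) .nil))))))) (.g (nat_lit 1) (.e (nat_lit 126013) (nat_lit 0) .nil) .nil))) 
(.lf (nat_lit 484223) (.g (nat_lit 1243) (.e (nat_lit 7936) (nat_lit 362) (.e (nat_lit 180251) (nat_lit 10) (.e (nat_lit 573469) (nat_lit 11) (.e (nat_lit 16447) (nat_lit 10) .nil)))) (.g (nat_lit 0) (.e (nat_lit 129254) (nat_lit 0) .nil) .nil))))) (.nd (nat_lit 8) (.nd (nat_lit 9) 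
(.lf (nat_lit 483583) (.g (nat_lit 1834) (.e (nat_lit 6421) (nat_lit 341) (.e (nat_lit 163902) (nat_lit 12) (.e (nat_lit 426568) (nat_lit 34) (.e (nat_lit 393275) (nat_lit 23) .nil)))) (.g (nat_lit 0) (.e (nat_lit 125000) (nat_lit 0) .nil) .nil))) 
(.lf (nat_lit 484095) (.g (nat_lit 1840) (.e (nat_lit 6724) (nat_lit 362) (.e (nat_lit 180250) (nat_lit 10) (.e (nat_lit 573469) (nat_lit 11) (.e (nat_lit 16454) (nat_lit 11) (.e (nat_lit 458789) (nat_lit 23) .nil))))) (.g (nat_lit 0) (.e (nat_lit 128920) (nat_lit 0) .nil) .nil)))) (.nd (nat_lit 9) 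
(.lf (nat_lit 483839) (.g (nat_lit 2138) (.e (nat_lit 6681) (nat_lit 357) (.e (nat_lit 3090) (nat_lit 191) (.e (nat_lit 483395) (nat_lit 24) (.e (nat_lit 344169) (nat_lit 40) (.e (nat_lit 671760) (nat_lit 4) (.e (nat_lit 65540) (nat_lit 0) .nil)))))) (.g (nat_lit 1) (.e (nat_lit 127323) (nat_lit 0) .nil) .nil))) 
(.lf (nat_lit 484351) (.g (nat_lit 2634) (.e (nat_lit 8325) (nat_lit 69) (.e (nat_lit 557098) (nat_lit 13) (.e (nat_lit 172115) (nat_lit 10) (.e (nat_lit 434231) (nat_lit 23) (.e (nat_lit 532490) (nat_lit 0) .nil))))) (.g (nat_lit 0) (.e (nat_lit 129847) (nat_lit 0) .nil) .nil)))))))))))))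

noncomputable def tv5533 : DT := (.nd (nat_lit 0) (.nd (nat_lit 1) (.nd (nat_lit 2) (.nd (nat_lit 3) (.nd (nat_lit 4) (.nd (nat_lit 5) (.nd (nat_lit 6) (.nd (nat_lit 7) (.nd (nat_lit 8) (.nd (nat_lit 9) 
(.lf (nat_lit 484352) (.g (nat_lit 2891) (.e (nat_lit 8325) (nat_lit 69) (.e (nat_lit 557108) (nat_lit 15) (.e (nat_lit 188452) (nat_lit 23) (.e (nat_lit 204846) (nat_lit 24) (.e (nat_lit 319504) (nat_lit 10) .nil))))) (.g (nat_lit 0) (.e (nat_lit 129848) (nat_lit 0) .nil) .nil))) 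
(.lf (nat_lit 484864) (.g (nat_lit 4332) (.e (nat_lit 24604) (nat_lit 2) (.e (nat_lit 90170) (nat_lit 13) (.e (nat_lit 172110) (nat_lit 10) (.e (nat_lit 434247) (nat_lit 28) (.e (nat_lit 573478) (nat_lit 12) (.e (nat_lit 57574) (nat_lit 55) (.e (nat_lit 778466) (nat_lit 11) .nil))))))) (.g (nat_lit 1) (.e (nat_lit 132178) (nat_lit 0) .nil) .nil)))) (.nd (nat_lit 9) 
(.lf (nat_lit 484608) (.g (nat_lit 3161) (.e (nat_lit 24597) (nat_lit 1) (.e (nat_lit 57926) (nat_lit 282) (.e (nat_lit 163905) (nat_lit 12) (.e (nat_lit 426555) (nat_lit 32) (.e (nat_lit 376865) (nat_lit 22) (.e (nat_lit 90160) (nat_lit 11) .nil)))))) (.g (nat_lit 1) (.e (nat_lit 131775) (nat_lit 0) .nil) .nil))) 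
(.lf (nat_lit 485120) (.g (nat_lit 1788) (.e (nat_lit 24606) (nat_lit 3) (.e (nat_lit 98365) (nat_lit 26) (.e (nat_lit 426188) (nat_lit 9) (.e (nat_lit 426438) (nat_lit 18) .nil)))) (.g (nat_lit 0) (.e (nat_lit 132444) (nat_lit 0) .nil) .nil))))) (.nd (nat_lit 8) (.nd (nat_lit 9) 
(.lf (nat_lit 484480) (.g (nat_lit 1071) (.e (nat_lit 8234) (nat_lit 20) (.e (nat_lit 573482) (nat_lit 13) (.e (nat_lit 65619) (nat_lit 10) .nil))) (.g (nat_lit 0) (.e (nat_lit 130464) (nat_lit 0) .nil) .nil))) 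
(.lf (nat_lit 484992) (.g (nat_lit 3221) (.e (nat_lit 24605) (nat_lit 2) (.e (nat_lit 90170) (nat_lit 13) (.e (nat_lit 172106) (nat_lit 10) (.e (nat_lit 434231) (nat_lit 23) (.e (nat_lit 532483) (nat_lit 0) .nil))))) (.g (nat_lit 0) (.e (nat_lit 132312) (nat_lit 0) .nil) .nil)))) (.nd (nat_lit 9) 
(.lf (nat_lit 484736) (.g (nat_lit 1399) (.e (nat_lit 24603) (nat_lit 2) (.e (nat_lit 90170) (nat_lit 13) (.e (nat_lit 172113) (nat_lit 10) (.e (nat_lit 434247) (nat_lit 28) .nil)))) (.g (nat_lit 0) (.e (nat_lit 132034) (nat_lit 0) .nil) .nil))) 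
(.lf (nat_lit 485248) (.g (nat_lit 2202) (.e (nat_lit 24607) (nat_lit 3) (.e (nat_lit 98374) (nat_lit 29) (.e (nat_lit 450586) (nat_lit 10) (.e (nat_lit 573475) (nat_lit 12) (.e (nat_lit 57574) (nat_lit 55) (.e (nat_lit 778463) (nat_lit 11) .nil)))))) (.g (nat_lit 1) (.e (nat_lit 132594) (nat_lit 0) .nil) .nil)))))) (.nd (nat_lit 7) (.nd (nat_lit 8) (.nd (nat_lit 9) 
(.lf (nat_lit 484416) (.g (nat_lit 1377) (.e (nat_lit 8202) (nat_lit 0) (.e (nat_lit 5259) (nat_lit 298) (.e (nat_lit 371) (nat_lit 32) (.e (nat_lit 426546) (nat_lit 30) (.e (nat_lit 360466) (nat_lit 3) .nil))))) (.g (nat_lit 0) (.e (nat_lit 129993) (nat_lit 0) .nil) .nil))) 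
(.lf (nat_lit 484928) (.g (nat_lit 1942) (.e (nat_lit 24604) (nat_lit 2) (.e (nat_lit 90185) (nat_lit 17) (.e (nat_lit 237601) (nat_lit 9) (.e (nat_lit 426428) (nat_lit 17) (.e (nat_lit 90165) (nat_lit 12) (.e (nat_lit 164041) (nat_lit 55) (.e (nat_lit 786176) (nat_lit 11) .nil))))))) (.g (nat_lit 1) (.e (nat_lit 132247) (nat_lit 0) .nil) .nil)))) (.nd (nat_lit 9) 
(.lf (nat_lit 484672) (.g (nat_lit 3142) (.e (nat_lit 24599) (nat_lit 1) (.e (nat_lit 57931) (nat_lit 282) (.e (nat_lit 163905) (nat_lit 12) (.e (nat_lit 426555) (nat_lit 32) (.e (nat_lit 376862) (nat_lit 22) (.e (nat_lit 90160) (nat_lit 11) .nil)))))) (.g (nat_lit 1) (.e (nat_lit 131946) (nat_lit 0) .nil) .nil))) 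
(.lf (nat_lit 485184) (.g (nat_lit 2296) (.e (nat_lit 24607) (nat_lit 3) (.e (nat_lit 98365) (nat_lit 26) (.e (nat_lit 426188) (nat_lit 9) (.e (nat_lit 426438) (nat_lit 18) (.e (nat_lit 98339) (nat_lit 19) (.e (nat_lit 213031) (nat_lit 11) .nil)))))) (.g (nat_lit 1) (.e (nat_lit 132530) (nat_lit 0) .nil) .nil))))) (.nd (nat_lit 8) (.nd (nat_lit 9) 
(.lf (nat_lit 484544) (.g (nat_lit 3535) (.e (nat_lit 24577) (nat_lit 0) (.e (nat_lit 6619) (nat_lit 357) (.e (nat_lit 2668) (nat_lit 167) (.e (nat_lit 196666) (nat_lit 13) (.e (nat_lit 65617) (nat_lit 10) (.e (nat_lit 344130) (nat_lit 26) (.e (nat_lit 557086) (nat_lit 11) .nil))))))) (.g (nat_lit 1) (.e (nat_lit 131572) (nat_lit 0) .nil) .nil))) 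
(.lf (nat_lit 485056) (.g (nat_lit 2607) (.e (nat_lit 24605) (nat_lit 2) (.e (nat_lit 90170) (nat_lit 13) (.e (nat_lit 172118) (nat_lit 12) (.e (nat_lit 475177) (nat_lit 24) (.e (nat_lit 516124) (nat_lit 2) (.e (nat_lit 213030) (nat_lit 11) .nil)))))) (.g (nat_lit 1) (.e (nat_lit 132377) (nat_lit 0) .nil) .nil)))) (.nd (nat_lit 9) 
(.lf (nat_lit 484800) (.g (nat_lit 3529) (.e (nat_lit 24604) (nat_lit 2) (.e (nat_lit 90170) (nat_lit 13) (.e (nat_lit 172106) (nat_lit 10) (.e (nat_lit 434231) (nat_lit 23) (.e (nat_lit 532499) (nat_lit 1) (.e (nat_lit 65280) (nat_lit 233) (.e (nat_lit 2560) (nat_lit 159) .nil))))))) (.g (nat_lit 1) (.e (nat_lit 132114) (nat_lit 0) .nil) .nil))) 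
(.lf (nat_lit 485312) (.g (nat_lit 2561) (.e (nat_lit 24608) (nat_lit 3) (.e (nat_lit 98365) (nat_lit 26) (.e (nat_lit 426187) (nat_lit 9) (.e (nat_lit 426428) (nat_lit 17) (.e (nat_lit 90165) (nat_lit 12) (.e (nat_lit 164040) (nat_lit 55) (.e (nat_lit 786176) (nat_lit 11) .nil))))))) (.g (nat_lit 1) (.e (nat_lit 132669) (nat_lit 0) .nil) .nil))))))) 
(.nd (nat_lit 6) (.nd (nat_lit 7) (.nd (nat_lit 8) (.nd (nat_lit 9) 
(.lf (nat_lit 484384) (.g (nat_lit 3221) (.e (nat_lit 8326) (nat_lit 69) (.e (nat_lit 557101) (nat_lit 13) (.e (nat_lit 172115) (nat_lit 10) (.e (nat_lit 434244) (nat_lit 28) (.e (nat_lit 573471) (nat_lit 11) (.e (nat_lit 16396) (nat_lit 0) (.e (nat_lit 7936) (nat_lit 389) .nil))))))) (.g (nat_lit 1) (.e (nat_lit 129881) (nat_lit 0) .nil) .nil))) 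
(.lf (nat_lit 484896) (.g (nat_lit 3180) (.e (nat_lit 24604) (nat_lit 2) (.e (nat_lit 90176) (nat_lit 15) (.e (nat_lit 188440) (nat_lit 20) (.e (nat_lit 3307) (nat_lit 202) (.e (nat_lit 573477) (nat_lit 12) (.e (nat_lit 57574) (nat_lit 55) (.e (nat_lit 778464) (nat_lit 11) .nil))))))) (.g (nat_lit 1) (.e (nat_lit 132212) (nat_lit 0) .nil) .nil)))) (.nd (nat_lit 9) 
(.lf (nat_lit 484640) (.g (nat_lit 2979) (.e (nat_lit 24598) (nat_lit 1) (.e (nat_lit 57926) (nat_lit 282) (.e (nat_lit 163907) (nat_lit 12) (.e (nat_lit 426555) (nat_lit 32) (.e (nat_lit 376865) (nat_lit 22) (.e (nat_lit 90160) (nat_lit 11) .nil)))))) (.g (nat_lit 1) (.e (nat_lit 131847) (nat_lit 0) .nil) .nil))) 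
(.lf (nat_lit 485152) (.g (nat_lit 4710) (.e (nat_lit 24607) (nat_lit 3) (.e (nat_lit 98359) (nat_lit 26) (.e (nat_lit 426286) (nat_lit 10) (.e (nat_lit 434247) (nat_lit 28) (.e (nat_lit 573477) (nat_lit 12) (.e (nat_lit 57575) (nat_lit 55) (.e (nat_lit 778465) (nat_lit 11) .nil))))))) (.g (nat_lit 1) (.e (nat_lit 132498) (nat_lit 0) .nil) .nil))))) (.nd (nat_lit 8) (.nd (nat_lit 9) 
(.lf (nat_lit 484512) (.g (nat_lit 1768) (.e (nat_lit 8234) (nat_lit 20) (.e (nat_lit 573489) (nat_lit 14) (.e (nat_lit 73755) (nat_lit 8) (.e (nat_lit 557105) (nat_lit 14) .nil)))) (.g (nat_lit 0) (.e (nat_lit 130801) (nat_lit 0) .nil) .nil))) 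
(.lf (nat_lit 485024) (.g (nat_lit 3357) (.e (nat_lit 24605) (nat_lit 2) (.e (nat_lit 90170) (nat_lit 13) (.e (nat_lit 172113) (nat_lit 10) (.e (nat_lit 434247) (nat_lit 28) (.e (nat_lit 573477) (nat_lit 12) (.e (nat_lit 57574) (nat_lit 55) (.e (nat_lit 778463) (nat_lit 11) .nil))))))) (.g (nat_lit 1) (.e (nat_lit 132345) (nat_lit 0) .nil) .nil)))) (.nd (nat_lit 9) 
(.lf (nat_lit 484768) (.g (nat_lit 3531) (.e (nat_lit 24604) (nat_lit 2) (.e (nat_lit 90160) (nat_lit 11) (.e (nat_lit 24604) (nat_lit 2) (.e (nat_lit 90160) (nat_lit 11) (.e (nat_lit 24604) (nat_lit 2) (.e (nat_lit 90160) (nat_lit 11) .nil)))))) (.g (nat_lit 1) (.e (nat_lit 132074) (nat_lit 0) .nil) .nil))) 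
(.lf (nat_lit 485280) (.g (nat_lit 3725) (.e (nat_lit 24608) (nat_lit 3) (.e (nat_lit 98359) (nat_lit 26) (.e (nat_lit 426286) (nat_lit 10) (.e (nat_lit 434248) (nat_lit 28) (.e (nat_lit 573475) (nat_lit 12) (.e (nat_lit 57574) (nat_lit 55) (.e (nat_lit 778465) (nat_lit 11) .nil))))))) (.g (nat_lit 1) (.e (nat_lit 132637) (nat_lit 0) .nil) .nil)))))) 
(.nd (nat_lit 7) (.nd (nat_lit 8) (.nd (nat_lit 9) 
(.lf (nat_lit 484448) (.g (nat_lit 4675) (.e (nat_lit 8213) (nat_lit 9) (.e (nat_lit 303145) (nat_lit 13) (.e (nat_lit 483413) (nat_lit 27) (.e (nat_lit 401446) (nat_lit 10) (.e (nat_lit 434207) (nat_lit 18) .nil))))) (.g (nat_lit 0) (.e (nat_lit 130064) (nat_lit 0) .nil) .nil))) 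
(.lf (nat_lit 484960) (.g (nat_lit 4319) (.e (nat_lit 24604) (nat_lit 2) (.e (nat_lit 90185) (nat_lit 17) (.e (nat_lit 237613) (nat_lit 10) (.e (nat_lit 434247) (nat_lit 28) (.e (nat_lit 573478) (nat_lit 12) (.e (nat_lit 57574) (nat_lit 55) (.e (nat_lit 778466) (nat_lit 11) .nil))))))) (.g (nat_lit 1) (.e (nat_lit 132279) (nat_lit 0) .nil) .nil)))) (.nd (nat_lit 9) 
(.lf (nat_lit 484704) (.g (nat_lit 4406) (.e (nat_lit 24602) (nat_lit 2) (.e (nat_lit 90170) (nat_lit 13) (.e (nat_lit 172113) (nat_lit 10) (.e (nat_lit 434245) (nat_lit 28) (.e (nat_lit 573474) (nat_lit 12) (.e (nat_lit 57574) (nat_lit 55) (.e (nat_lit 778466) (nat_lit 11) .nil))))))) (.g (nat_lit 1) (.e (nat_lit 132000) (nat_lit 0) .nil) .nil))) 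
(.lf (nat_lit 485216) (.g (nat_lit 2326) (.e (nat_lit 24607) (nat_lit 3) (.e (nat_lit 98373) (nat_lit 29) (.e (nat_lit 450586) (nat_lit 10) (.e (nat_lit 573477) (nat_lit 12) .nil)))) (.g (nat_lit 0) (.e (nat_lit 132562) (nat_lit 0) .nil) .nil))))) (.nd (nat_lit 8) (.nd (nat_lit 9) 
(.lf (nat_lit 484576) (.g (nat_lit 2271) (.e (nat_lit 24588) (nat_lit 0) (.e (nat_lit 1788) (nat_lit 119) (.e (nat_lit 516165) (nat_lit 12) (.e (nat_lit 450587) (nat_lit 10) (.e (nat_lit 573478) (nat_lit 12) .nil))))) (.g (nat_lit 0) (.e (nat_lit 131722) (nat_lit 0) .nil) .nil))) 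
(.lf (nat_lit 485088) (.g (nat_lit 2160) (.e (nat_lit 24605) (nat_lit 2) (.e (nat_lit 90185) (nat_lit 17) (.e (nat_lit 237616) (nat_lit 12) (.e (nat_lit 475177) (nat_lit 24) (.e (nat_lit 516124) (nat_lit 2) (.e (nat_lit 213030) (nat_lit 11) .nil)))))) (.g (nat_lit 1) (.e (nat_lit 132412) (nat_lit 0) .nil) .nil)))) (.nd (nat_lit 9) 
(.lf (nat_lit 484832) (.g (nat_lit 2480) (.e (nat_lit 24604) (nat_lit 2) (.e (nat_lit 90170) (nat_lit 13) (.e (nat_lit 172106) (nat_lit 10) (.e (nat_lit 434244) (nat_lit 28) (.e (nat_lit 573474) (nat_lit 12) (.e (nat_lit 57574) (nat_lit 55) (.e (nat_lit 778464) (nat_lit 11) .nil))))))) (.g (nat_lit 1) (.e (nat_lit 132146) (nat_lit 0) .nil) .nil))) 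
(.lf (nat_lit 485344) (.g (nat_lit 2796) (.e (nat_lit 24608) (nat_lit 3) (.e (nat_lit 98365) (nat_lit 26) (.e (nat_lit 426287) (nat_lit 10) (.e (nat_lit 434247) (nat_lit 28) (.e (nat_lit 573478) (nat_lit 12) (.e (nat_lit 57574) (nat_lit 55) (.e (nat_lit 778466) (nat_lit 11) .nil))))))) (.g (nat_lit 1) (.e (nat_lit 132701) (nat_lit 0) .nil) .nil)))))))) 
(.nd (nat_lit 5) (.nd (nat_lit 6) (.nd (nat_lit 7) (.nd (nat_lit 8) (.nd (nat_lit 9) 
(.lf (nat_lit 484368) (.g (nat_lit 1922) (.e (nat_lit 8326) (nat_lit 69) (.e (nat_lit 557100) (nat_lit 13) (.e (nat_lit 172106) (nat_lit 10) (.e (nat_lit 434230) (nat_lit 23) (.e (nat_lit 532523) (nat_lit 7) .nil))))) (.g (nat_lit 0) (.e (nat_lit 129865) (nat_lit 0) .nil) .nil))) 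
(.lf (nat_lit 484880) (.g (nat_lit 1437) (.e (nat_lit 24604) (nat_lit 2) (.e (nat_lit 90170) (nat_lit 13) (.e (nat_lit 172115) (nat_lit 10) (.e (nat_lit 434244) (nat_lit 28) .nil)))) (.g (nat_lit 0) (.e (nat_lit 132194) (nat_lit 0) .nil) .nil)))) (.nd (nat_lit 9) 
(.lf (nat_lit 484624) (.g (nat_lit 2907) (.e (nat_lit 24597) (nat_lit 1) (.e (nat_lit 57931) (nat_lit 282) (.e (nat_lit 163905) (nat_lit 12) (.e (nat_lit 426555) (nat_lit 32) (.e (nat_lit 376862) (nat_lit 22) (.e (nat_lit 90160) (nat_lit 11) .nil)))))) (.g (nat_lit 1) (.e (nat_lit 131814) (nat_lit 0) .nil) .nil))) 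
(.lf (nat_lit 485136) (.g (nat_lit 3767) (.e (nat_lit 24606) (nat_lit 3) (.e (nat_lit 98373) (nat_lit 29) (.e (nat_lit 450588) (nat_lit 10) (.e (nat_lit 573452) (nat_lit 9) .nil)))) (.g (nat_lit 0) (.e (nat_lit 132473) (nat_lit 0) .nil) .nil))))) (.nd (nat_lit 8) (.nd (nat_lit 9) 
(.lf (nat_lit 484496) (.g (nat_lit 513) (.e (nat_lit 8234) (nat_lit 20) (.e (nat_lit 573484) (nat_lit 13) (.e (nat_lit 65617) (nat_lit 10) .nil))) (.g (nat_lit 0) (.e (nat_lit 130617) (nat_lit 0) .nil) .nil))) 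
(.lf (nat_lit 485008) (.g (nat_lit 1396) (.e (nat_lit 24605) (nat_lit 2) (.e (nat_lit 90170) (nat_lit 13) (.e (nat_lit 172113) (nat_lit 10) (.e (nat_lit 434242) (nat_lit 28) (.e (nat_lit 573476) (nat_lit 12) .nil))))) (.g (nat_lit 0) (.e (nat_lit 132329) (nat_lit 0) .nil) .nil)))) (.nd (nat_lit 9) 
(.lf (nat_lit 484752) (.g (nat_lit 2358) (.e (nat_lit 24603) (nat_lit 2) (.e (nat_lit 90178) (nat_lit 15) (.e (nat_lit 188440) (nat_lit 20) (.e (nat_lit 3307) (nat_lit 202) (.e (nat_lit 573478) (nat_lit 12) (.e (nat_lit 57574) (nat_lit 55) (.e (nat_lit 778464) (nat_lit 11) .nil))))))) (.g (nat_lit 1) (.e (nat_lit 132055) (nat_lit 0) .nil) .nil))) 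
(.lf (nat_lit 485264) (.g (nat_lit 2872) (.e (nat_lit 24608) (nat_lit 3) (.e (nat_lit 98341) (nat_lit 20) (.e (nat_lit 221213) (nat_lit 23) (.e (nat_lit 204830) (nat_lit 18) (.e (nat_lit 57852) (nat_lit 252) (.e (nat_lit 57370) (nat_lit 2) (.e (nat_lit 90158) (nat_lit 11) .nil))))))) (.g (nat_lit 1) (.e (nat_lit 132618) (nat_lit 0) .nil) .nil)))))) 
(.nd (nat_lit 7) (.nd (nat_lit 8) (.nd (nat_lit 9) 
(.lf (nat_lit 484432) (.g (nat_lit 3033) (.e (nat_lit 8213) (nat_lit 9) (.e (nat_lit 303119) (nat_lit 3) (.e (nat_lit 204869) (nat_lit 29) (.e (nat_lit 360474) (nat_lit 8) (.e (nat_lit 557094) (nat_lit 12) (.e (nat_lit 163840) (nat_lit 0) (.e (nat_lit 6058) (nat_lit 327) .nil))))))) (.g (nat_lit 1) (.e (nat_lit 130046) (nat_lit 0) .nil) .nil))) 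
(.lf (nat_lit 484944) (.g (nat_lit 2196) (.e (nat_lit 24604) (nat_lit 2) (.e (nat_lit 90185) (nat_lit 17) (.e (nat_lit 237605) (nat_lit 9) (.e (nat_lit 426428) (nat_lit 17) (.e (nat_lit 90165) (nat_lit 12) (.e (nat_lit 164041) (nat_lit 55) (.e (nat_lit 786176) (nat_lit 11) .nil))))))) (.g (nat_lit 1) (.e (nat_lit 132263) (nat_lit 0) .nil) .nil)))) (.nd (nat_lit 9) 
(.lf (nat_lit 484688) (.g (nat_lit 4070) (.e (nat_lit 24601) (nat_lit 2) (.e (nat_lit 90170) (nat_lit 13) (.e (nat_lit 172113) (nat_lit 10) (.e (nat_lit 434247) (nat_lit 28) (.e (nat_lit 573477) (nat_lit 12) (.e (nat_lit 57574) (nat_lit 55) (.e (nat_lit 778466) (nat_lit 11) .nil))))))) (.g (nat_lit 1) (.e (nat_lit 131979) (nat_lit 0) .nil) .nil))) 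
(.lf (nat_lit 485200) (.g (nat_lit 3765) (.e (nat_lit 24607) (nat_lit 3) (.e (nat_lit 98372) (nat_lit 29) (.e (nat_lit 450586) (nat_lit 10) (.e (nat_lit 573475) (nat_lit 12) (.e (nat_lit 57574) (nat_lit 55) (.e (nat_lit 778464) (nat_lit 11) .nil)))))) (.g (nat_lit 1) (.e (nat_lit 132546) (nat_lit 0) .nil) .nil))))) (.nd (nat_lit 8) (.nd (nat_lit 9) 
(.lf (nat_lit 484560) (.g (nat_lit 2023) (.e (nat_lit 24580) (nat_lit 0) (.e (nat_lit 6722) (nat_lit 362) (.e (nat_lit 180271) (nat_lit 26) (.e (nat_lit 704737) (nat_lit 11) (.e (nat_lit 16386) (nat_lit 0) (.e (nat_lit 7377) (nat_lit 390) .nil)))))) (.g (nat_lit 1) (.e (nat_lit 131670) (nat_lit 0) .nil) .nil))) 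
(.lf (nat_lit 485072) (.g (nat_lit 2861) (.e (nat_lit 24605) (nat_lit 2) (.e (nat_lit 90170) (nat_lit 13) (.e (nat_lit 172120) (nat_lit 12) (.e (nat_lit 475179) (nat_lit 24) (.e (nat_lit 516126) (nat_lit 2) (.e (nat_lit 213030) (nat_lit 11) .nil)))))) (.g (nat_lit 1) (.e (nat_lit 132393) (nat_lit 0) .nil) .nil)))) (.nd (nat_lit 9) 
(.lf (nat_lit 484816) (.g (nat_lit 5299) (.e (nat_lit 24604) (nat_lit 2) (.e (nat_lit 90170) (nat_lit 13) (.e (nat_lit 172106) (nat_lit 10) (.e (nat_lit 434242) (nat_lit 28) (.e (nat_lit 573477) (nat_lit 12) (.e (nat_lit 57574) (nat_lit 55) (.e (nat_lit 778466) (nat_lit 11) .nil))))))) (.g (nat_lit 1) (.e (nat_lit 132130) (nat_lit 0) .nil) .nil))) 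
(.lf (nat_lit 485328) (.g (nat_lit 2836) (.e (nat_lit 24608) (nat_lit 3) (.e (nat_lit 98365) (nat_lit 26) (.e (nat_lit 426188) (nat_lit 9) (.e (nat_lit 426428) (nat_lit 17) (.e (nat_lit 90165) (nat_lit 12) (.e (nat_lit 164042) (nat_lit 55) (.e (nat_lit 786176) (nat_lit 11) .nil))))))) (.g (nat_lit 1) (.e (nat_lit 132685) (nat_lit 0) .nil) .nil))))))) 
(.nd (nat_lit 6) (.nd (nat_lit 7) (.nd (nat_lit 8) (.nd (nat_lit 9) 
(.lf (nat_lit 484400) (.g (nat_lit 6772) (.e (nat_lit 8326) (nat_lit 69) (.e (nat_lit 557108) (nat_lit 15) (.e (nat_lit 188452) (nat_lit 23) (.e (nat_lit 204846) (nat_lit 24) (.e (nat_lit 319504) (nat_lit 10) (.e (nat_lit 7936) (nat_lit 313) .nil)))))) (.g (nat_lit 1) (.e (nat_lit 129898) (nat_lit 0) .nil) .nil))) 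
(.lf (nat_lit 484912) (.g (nat_lit 4524) (.e (nat_lit 24604) (nat_lit 2) (.e (nat_lit 90178) (nat_lit 15) (.e (nat_lit 188440) (nat_lit 20) (.e (nat_lit 3307) (nat_lit 202) (.e (nat_lit 573475) (nat_lit 12) (.e (nat_lit 57574) (nat_lit 55) (.e (nat_lit 778464) (nat_lit 11) .nil))))))) (.g (nat_lit 1) (.e (nat_lit 132230) (nat_lit 0) .nil) .nil)))) (.nd (nat_lit 9) 
(.lf (nat_lit 484656) (.g (nat_lit 3190) (.e (nat_lit 24598) (nat_lit 1) (.e (nat_lit 57931) (nat_lit 282) (.e (nat_lit 163905) (nat_lit 12) (.e (nat_lit 426555) (nat_lit 32) (.e (nat_lit 376865) (nat_lit 22) (.e (nat_lit 90158) (nat_lit 11) .nil)))))) (.g (nat_lit 1) (.e (nat_lit 131902) (nat_lit 0) .nil) .nil))) 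
(.lf (nat_lit 485168) (.g (nat_lit 774) (.e (nat_lit 24607) (nat_lit 3) (.e (nat_lit 98365) (nat_lit 26) (.e (nat_lit 426187) (nat_lit 9) (.e (nat_lit 426437) (nat_lit 18) .nil)))) (.g (nat_lit 0) (.e (nat_lit 132514) (nat_lit 0) .nil) .nil))))) (.nd (nat_lit 8) (.nd (nat_lit 9) 
(.lf (nat_lit 484528) (.g (nat_lit 351) (.e (nat_lit 16128) (nat_lit 225) (.e (nat_lit 2797) (nat_lit 180) (.e (nat_lit 303119) (nat_lit 3) .nil))) (.g (nat_lit 0) (.e (nat_lit 131331) (nat_lit 0) .nil) .nil))) 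
(.lf (nat_lit 485040) (.g (nat_lit 2344) (.e (nat_lit 24605) (nat_lit 2) (.e (nat_lit 90170) (nat_lit 13) (.e (nat_lit 172113) (nat_lit 10) (.e (nat_lit 434247) (nat_lit 28) (.e (nat_lit 573478) (nat_lit 12) (.e (nat_lit 65280) (nat_lit 55) (.e (nat_lit 778461) (nat_lit 11) .nil))))))) (.g (nat_lit 1) (.e (nat_lit 132361) (nat_lit 0) .nil) .nil)))) (.nd (nat_lit 9) 
(.lf (nat_lit 484784) (.g (nat_lit 574) (.e (nat_lit 24604) (nat_lit 2) (.e (nat_lit 90170) (nat_lit 13) (.e (nat_lit 172105) (nat_lit 10) .nil))) (.g (nat_lit 0) (.e (nat_lit 132097) (nat_lit 0) .nil) .nil))) 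
(.lf (nat_lit 485296) (.g (nat_lit 2353) (.e (nat_lit 24608) (nat_lit 3) (.e (nat_lit 98363) (nat_lit 26) (.e (nat_lit 426318) (nat_lit 12) (.e (nat_lit 475179) (nat_lit 24) (.e (nat_lit 516127) (nat_lit 2) (.e (nat_lit 213030) (nat_lit 11) .nil)))))) (.g (nat_lit 1) (.e (nat_lit 132653) (nat_lit 0) .nil) .nil)))))) (.nd (nat_lit 7) (.nd (nat_lit 8) (.nd (nat_lit 9) 
(.lf (nat_lit 484464) (.g (nat_lit 1319) (.e (nat_lit 8226) (nat_lit 15) (.e (nat_lit 532534) (nat_lit 9) (.e (nat_lit 336019) (nat_lit 3) (.e (nat_lit 98341) (nat_lit 20) .nil)))) (.g (nat_lit 0) (.e (nat_lit 130131) (nat_lit 0) .nil) .nil))) 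
(.lf (nat_lit 484976) (.g (nat_lit 2515) (.e (nat_lit 24604) (nat_lit 2) (.e (nat_lit 90185) (nat_lit 17) (.e (nat_lit 237619) (nat_lit 12) (.e (nat_lit 475177) (nat_lit 24) (.e (nat_lit 516097) (nat_lit 0) (.e (nat_lit 3656) (nat_lit 227) (.e (nat_lit 778462) (nat_lit 11) .nil))))))) (.g (nat_lit 1) (.e (nat_lit 132295) (nat_lit 0) .nil) .nil)))) (.nd (nat_lit 9) 
(.lf (nat_lit 484720) (.g (nat_lit 1170) (.e (nat_lit 24602) (nat_lit 2) (.e (nat_lit 90185) (nat_lit 17) (.e (nat_lit 237619) (nat_lit 12) (.e (nat_lit 475179) (nat_lit 24) (.e (nat_lit 516127) (nat_lit 2) .nil))))) (.g (nat_lit 0) (.e (nat_lit 132016) (nat_lit 0) .nil) .nil))) 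
(.lf (nat_lit 485232) (.g (nat_lit 3410) (.e (nat_lit 24607) (nat_lit 3) (.e (nat_lit 98373) (nat_lit 29) (.e (nat_lit 450587) (nat_lit 10) (.e (nat_lit 573478) (nat_lit 12) (.e (nat_lit 57574) (nat_lit 55) (.e (nat_lit 778463) (nat_lit 11) .nil)))))) (.g (nat_lit 1) (.e (nat_lit 132578) (nat_lit 0) .nil) .nil))))) (.nd (nat_lit 8) (.nd (nat_lit 9) 
(.lf (nat_lit 484592) (.g (nat_lit 1777) (.e (nat_lit 32512) (nat_lit 0) (.e (nat_lit 1788) (nat_lit 119) (.e (nat_lit 516166) (nat_lit 12) (.e (nat_lit 450587) (nat_lit 10) (.e (nat_lit 573477) (nat_lit 12) .nil))))) (.g (nat_lit 0) (.e (nat_lit 131747) (nat_lit 0) .nil) .nil))) 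
(.lf (nat_lit 485104) (.g (nat_lit 2277) (.e (nat_lit 24605) (nat_lit 2) (.e (nat_lit 90185) (nat_lit 17) (.e (nat_lit 237619) (nat_lit 12) (.e (nat_lit 475179) (nat_lit 24) (.e (nat_lit 516126) (nat_lit 2) (.e (nat_lit 213032) (nat_lit 11) .nil)))))) (.g (nat_lit 1) (.e (nat_lit 132428) (nat_lit 0) .nil) .nil)))) (.nd (nat_lit 9) 
(.lf (nat_lit 484848) (.g (nat_lit 5171) (.e (nat_lit 24604) (nat_lit 2) (.e (nat_lit 90170) (nat_lit 13) (.e (nat_lit 172106) (nat_lit 10) (.e (nat_lit 434246) (nat_lit 28) (.e (nat_lit 573475) (nat_lit 12) (.e (nat_lit 57574) (nat_lit 55) (.e (nat_lit 778466) (nat_lit 11) .nil))))))) (.g (nat_lit 1) (.e (nat_lit 132162) (nat_lit 0) .nil) .nil))) 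
(.lf (nat_lit 485360) (.g (nat_lit 3633) (.e (nat_lit 24608) (nat_lit 3) (.e (nat_lit 98365) (nat_lit 26) (.e (nat_lit 426306) (nat_lit 12) (.e (nat_lit 475177) (nat_lit 24) (.e (nat_lit 516097) (nat_lit 0) (.e (nat_lit 3653) (nat_lit 227) (.e (nat_lit 778462) (nat_lit 11) .nil))))))) (.g (nat_lit 1) (.e (nat_lit 132717) (nat_lit 0) .nil) .nil))))))))) 
(.nd (nat_lit 4) (.nd (nat_lit 5) (.nd (nat_lit 6) (.nd (nat_lit 7) (.nd (nat_lit 8) 
(.nd (nat_lit 9) 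
(.lf (nat_lit 484360) (.g (nat_lit 2715) (.e (nat_lit 8326) (nat_lit 69) (.e (nat_lit 557098) (nat_lit 13) (.e (nat_lit 172115) (nat_lit 10) (.e (nat_lit 434231) (nat_lit 23) (.e (nat_lit 532490) (nat_lit 0) .nil))))) (.g (nat_lit 0) (.e (nat_lit 129857) (nat_lit 0) .nil) .nil))) 
(.lf (nat_lit 484872) (.g (nat_lit 4652) (.e (nat_lit 24604) (nat_lit 2) (.e (nat_lit 90170) (nat_lit 13) (.e (nat_lit 172113) (nat_lit 10) (.e (nat_lit 434247) (nat_lit 28) (.e (nat_lit 573477) (nat_lit 12) (.e (nat_lit 57575) (nat_lit 55) (.e (nat_lit 778463) (nat_lit 11) .nil))))))) (.g (nat_lit 1) (.e (nat_lit 132186) (nat_lit 0) .nil) .nil)))) (.nd (nat_lit 9) 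
(.lf (nat_lit 484616) (.g (nat_lit 3201) (.e (nat_lit 24597) (nat_lit 1) (.e (nat_lit 57926) (nat_lit 282) (.e (nat_lit 163907) (nat_lit 12) (.e (nat_lit 426555) (nat_lit 32) (.e (nat_lit 376865) (nat_lit 22) (.e (nat_lit 90160) (nat_lit 11) .nil)))))) (.g (nat_lit 1) (.e (nat_lit 131783) (nat_lit 0) .nil) .nil))) 
(.lf (nat_lit 485128) (.g (nat_lit 3651) (.e (nat_lit 24606) (nat_lit 3) (.e (nat_lit 98373) (nat_lit 29) (.e (nat_lit 450587) (nat_lit 10) (.e (nat_lit 573477) (nat_lit 12) (.e (nat_lit 57574) (nat_lit 55) (.e (nat_lit 778464) (nat_lit 11) .nil)))))) (.g (nat_lit 1) (.e (nat_lit 132465) (nat_lit 0) .nil) .nil))))) (.nd (nat_lit 8) (.nd (nat_lit 9) 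
(.lf (nat_lit 484488) (.g (nat_lit 4052) (.e (nat_lit 8234) (nat_lit 20) (.e (nat_lit 573482) (nat_lit 13) (.e (nat_lit 65619) (nat_lit 10) (.e (nat_lit 344117) (nat_lit 21) (.e (nat_lit 516106) (nat_lit 0) (.e (nat_lit 6986) (nat_lit 377) (.e (nat_lit 2403) (nat_lit 157) (.e (nat_lit 5373) (nat_lit 299) .nil)))))))) (.g (nat_lit 1) (.e (nat_lit 130473) (nat_lit 0) .nil) .nil))) 
(.lf (nat_lit 485000) (.g (nat_lit 2598) (.e (nat_lit 24605) (nat_lit 2) (.e (nat_lit 90170) (nat_lit 13) (.e (nat_lit 172106) (nat_lit 10) (.e (nat_lit 434244) (nat_lit 28) (.e (nat_lit 573473) (nat_lit 12) .nil))))) (.g (nat_lit 0) (.e (nat_lit 132320) (nat_lit 0) .nil) .nil)))) (.nd (nat_lit 9) 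
(.lf (nat_lit 484744) (.g (nat_lit 1711) (.e (nat_lit 24603) (nat_lit 2) (.e (nat_lit 90176) (nat_lit 15) (.e (nat_lit 188450) (nat_lit 23) (.e (nat_lit 204821) (nat_lit 17) (.e (nat_lit 1040) (nat_lit 81) .nil))))) (.g (nat_lit 0) (.e (nat_lit 132047) (nat_lit 0) .nil) .nil))) 
(.lf (nat_lit 485256) (.g (nat_lit 3618) (.e (nat_lit 24607) (nat_lit 3) (.e (nat_lit 98387) (nat_lit 33) (.e (nat_lit 491566) (nat_lit 12) (.e (nat_lit 385067) (nat_lit 26) (.e (nat_lit 532508) (nat_lit 2) (.e (nat_lit 114432) (nat_lit 2) .nil)))))) (.g (nat_lit 1) (.e (nat_lit 132602) (nat_lit 0) .nil) .nil)))))) (.nd (nat_lit 7) (.nd (nat_lit 8) (.nd (nat_lit 9) 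
(.lf (nat_lit 484424) (.g (nat_lit 4036) (.e (nat_lit 8211) (nat_lit 9) (.e (nat_lit 303145) (nat_lit 13) (.e (nat_lit 483413) (nat_lit 27) (.e (nat_lit 401447) (nat_lit 10) .nil)))) (.g (nat_lit 0) (.e (nat_lit 130015) (nat_lit 0) .nil) .nil))) 
(.lf (nat_lit 484936) (.g (nat_lit 1803) (.e (nat_lit 24604) (nat_lit 2) (.e (nat_lit 90185) (nat_lit 17) (.e (nat_lit 237601) (nat_lit 9) (.e (nat_lit 426436) (nat_lit 18) (.e (nat_lit 98324) (nat_lit 17) (.e (nat_lit 3617) (nat_lit 227) (.e (nat_lit 778462) (nat_lit 11) .nil))))))) (.g (nat_lit 1) (.e (nat_lit 132255) (nat_lit 0) .nil) .nil)))) (.nd (nat_lit 9) 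
(.lf (nat_lit 484680) (.g (nat_lit 1140) (.e (nat_lit 24601) (nat_lit 2) (.e (nat_lit 90170) (nat_lit 13) (.e (nat_lit 172113) (nat_lit 10) (.e (nat_lit 434242) (nat_lit 28) .nil)))) (.g (nat_lit 0) (.e (nat_lit 131971) (nat_lit 0) .nil) .nil))) 
(.lf (nat_lit 485192) (.g (nat_lit 1967) (.e (nat_lit 24607) (nat_lit 3) (.e (nat_lit 98365) (nat_lit 26) (.e (nat_lit 426306) (nat_lit 12) (.e (nat_lit 475179) (nat_lit 24) (.e (nat_lit 516126) (nat_lit 2) (.e (nat_lit 213031) (nat_lit 11) .nil)))))) (.g (nat_lit 1) (.e (nat_lit 132538) (nat_lit 0) .nil) .nil))))) (.nd (nat_lit 8) (.nd (nat_lit 9) 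
(.lf (nat_lit 484552) (.g (nat_lit 2354) (.e (nat_lit 24579) (nat_lit 0) (.e (nat_lit 6724) (nat_lit 362) (.e (nat_lit 180271) (nat_lit 26) (.e (nat_lit 704738) (nat_lit 11) (.e (nat_lit 16392) (nat_lit 0) (.e (nat_lit 7936) (nat_lit 390) .nil)))))) (.g (nat_lit 1) (.e (nat_lit 131596) (nat_lit 0) .nil) .nil))) 
(.lf (nat_lit 485064) (.g (nat_lit 2650) (.e (nat_lit 24605) (nat_lit 2) (.e (nat_lit 90170) (nat_lit 13) (.e (nat_lit 172118) (nat_lit 12) (.e (nat_lit 475179) (nat_lit 24) (.e (nat_lit 516127) (nat_lit 2) (.e (nat_lit 213032) (nat_lit 11) .nil)))))) (.g (nat_lit 1) (.e (nat_lit 132385) (nat_lit 0) .nil) .nil)))) (.nd (nat_lit 9) 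
(.lf (nat_lit 484808) (.g (nat_lit 3860) (.e (nat_lit 24604) (nat_lit 2) (.e (nat_lit 90170) (nat_lit 13) (.e (nat_lit 172106) (nat_lit 10) (.e (nat_lit 434231) (nat_lit 23) (.e (nat_lit 532500) (nat_lit 1) (.e (nat_lit 65280) (nat_lit 233) (.e (nat_lit 2560) (nat_lit 159) .nil))))))) (.g (nat_lit 1) (.e (nat_lit 132122) (nat_lit 0) .nil) .nil))) 
(.lf (nat_lit 485320) (.g (nat_lit 2723) (.e (nat_lit 24608) (nat_lit 3) (.e (nat_lit 98365) (nat_lit 26) (.e (nat_lit 426187) (nat_lit 9) (.e (nat_lit 426436) (nat_lit 18) (.e (nat_lit 98339) (nat_lit 19) (.e (nat_lit 213031) (nat_lit 11) .nil)))))) (.g (nat_lit 1) (.e (nat_lit 132677) (nat_lit 0) .nil) .nil))))))) (.nd (nat_lit 6) (.nd (nat_lit 7) (.nd (nat_lit 8) (.nd (nat_lit 9) 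
(.lf (nat_lit 484392) (.g (nat_lit 3820) (.e (nat_lit 8326) (nat_lit 69) (.e (nat_lit 557105) (nat_lit 14) (.e (nat_lit 180252) (nat_lit 10) (.e (nat_lit 573489) (nat_lit 14) (.e (nat_lit 73755) (nat_lit 8) (.e (nat_lit 557090) (nat_lit 12) (.e (nat_lit 164007) (nat_lit 41) (.e (nat_lit 671488) (nat_lit 10) .nil)))))))) (.g (nat_lit 1) (.e (nat_lit 129889) (nat_lit 0) .nil) .nil))) 
(.lf (nat_lit 484904) (.g (nat_lit 2444) (.e (nat_lit 24604) (nat_lit 2) (.e (nat_lit 90178) (nat_lit 15) (.e (nat_lit 188418) (nat_lit 0) (.e (nat_lit 1800) (nat_lit 119) (.e (nat_lit 516126) (nat_lit 2) (.e (nat_lit 213032) (nat_lit 11) .nil)))))) (.g (nat_lit 1) (.e (nat_lit 132222) (nat_lit 0) .nil) .nil)))) (.nd (nat_lit 9) 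
(.lf (nat_lit 484648) (.g (nat_lit 2192) (.e (nat_lit 24598) (nat_lit 1) (.e (nat_lit 57929) (nat_lit 282) (.e (nat_lit 163905) (nat_lit 12) (.e (nat_lit 426555) (nat_lit 32) (.e (nat_lit 376862) (nat_lit 22) (.e (nat_lit 90160) (nat_lit 11) .nil)))))) (.g (nat_lit 1) (.e (nat_lit 131887) (nat_lit 0) .nil) .nil))) 
(.lf (nat_lit 485160) (.g (nat_lit 1890) (.e (nat_lit 24607) (nat_lit 3) (.e (nat_lit 98365) (nat_lit 26) (.e (nat_lit 426187) (nat_lit 9) (.e (nat_lit 426428) (nat_lit 17) (.e (nat_lit 90165) (nat_lit 12) (.e (nat_lit 164041) (nat_lit 55) (.e (nat_lit 786176) (nat_lit 11) .nil))))))) (.g (nat_lit 1) (.e (nat_lit 132506) (nat_lit 0) .nil) .nil))))) (.nd (nat_lit 8) (.nd (nat_lit 9) 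
(.lf (nat_lit 484520) (.g (nat_lit 618) (.e (nat_lit 8468) (nat_lit 148) (.e (nat_lit 163919) (nat_lit 14) (.e (nat_lit 450304) (nat_lit 4) .nil))) (.g (nat_lit 0) (.e (nat_lit 131250) (nat_lit 0) .nil) .nil))) 
(.lf (nat_lit 485032) (.g (nat_lit 2656) (.e (nat_lit 24605) (nat_lit 2) (.e (nat_lit 90170) (nat_lit 13) (.e (nat_lit 172113) (nat_lit 10) (.e (nat_lit 434247) (nat_lit 28) (.e (nat_lit 573477) (nat_lit 12) (.e (nat_lit 65280) (nat_lit 55) (.e (nat_lit 778461) (nat_lit 11) .nil))))))) (.g (nat_lit 1) (.e (nat_lit 132353) (nat_lit 0) .nil) .nil)))) (.nd (nat_lit 9) 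
(.lf (nat_lit 484776) (.g (nat_lit 2408) (.e (nat_lit 24604) (nat_lit 2) (.e (nat_lit 90169) (nat_lit 13) (.e (nat_lit 172105) (nat_lit 10) (.e (nat_lit 434248) (nat_lit 28) (.e (nat_lit 573475) (nat_lit 12) (.e (nat_lit 57574) (nat_lit 55) (.e (nat_lit 778466) (nat_lit 11) .nil))))))) (.g (nat_lit 1) (.e (nat_lit 132088) (nat_lit 0) .nil) .nil))) 
(.lf (nat_lit 485288) (.g (nat_lit 2579) (.e (nat_lit 24608) (nat_lit 3) (.e (nat_lit 98363) (nat_lit 26) (.e (nat_lit 426318) (nat_lit 12) (.e (nat_lit 475177) (nat_lit 24) (.e (nat_lit 516097) (nat_lit 0) (.e (nat_lit 3617) (nat_lit 227) (.e (nat_lit 778462) (nat_lit 11) .nil))))))) (.g (nat_lit 1) (.e (nat_lit 132645) (nat_lit 0) .nil) .nil)))))) 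
(.nd (nat_lit 7) (.nd (nat_lit 8) (.nd (nat_lit 9) 
(.lf (nat_lit 484456) (.g (nat_lit 4873) (.e (nat_lit 8213) (nat_lit 9) (.e (nat_lit 303145) (nat_lit 13) (.e (nat_lit 483413) (nat_lit 27) (.e (nat_lit 401448) (nat_lit 10) (.e (nat_lit 434208) (nat_lit 18) .nil))))) (.g (nat_lit 0) (.e (nat_lit 130074) (nat_lit 0) .nil) .nil))) 
(.lf (nat_lit 484968) (.g (nat_lit 1161) (.e (nat_lit 24604) (nat_lit 2) (.e (nat_lit 90185) (nat_lit 17) (.e (nat_lit 237616) (nat_lit 12) (.e (nat_lit 475177) (nat_lit 24) (.e (nat_lit 524032) (nat_lit 2) (.e (nat_lit 213032) (nat_lit 11) .nil)))))) (.g (nat_lit 1) (.e (nat_lit 132287) (nat_lit 0) .nil) .nil)))) (.nd (nat_lit 9) 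
(.lf (nat_lit 484712) (.g (nat_lit 2619) (.e (nat_lit 24602) (nat_lit 2) (.e (nat_lit 90185) (nat_lit 17) (.e (nat_lit 237601) (nat_lit 9) (.e (nat_lit 426436) (nat_lit 18) (.e (nat_lit 98339) (nat_lit 19) (.e (nat_lit 213032) (nat_lit 11) .nil)))))) (.g (nat_lit 1) (.e (nat_lit 132008) (nat_lit 0) .nil) .nil))) 
(.lf (nat_lit 485224) (.g (nat_lit 4717) (.e (nat_lit 24607) (nat_lit 3) (.e (nat_lit 98373) (nat_lit 29) (.e (nat_lit 450587) (nat_lit 10) (.e (nat_lit 573475) (nat_lit 12) (.e (nat_lit 57574) (nat_lit 55) (.e (nat_lit 778465) (nat_lit 11) .nil)))))) (.g (nat_lit 1) (.e (nat_lit 132570) (nat_lit 0) .nil) .nil))))) (.nd (nat_lit 8) (.nd (nat_lit 9) 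
(.lf (nat_lit 484584) (.g (nat_lit 3374) (.e (nat_lit 24594) (nat_lit 0) (.e (nat_lit 1800) (nat_lit 119) (.e (nat_lit 516166) (nat_lit 12) (.e (nat_lit 450587) (nat_lit 10) (.e (nat_lit 573477) (nat_lit 12) .nil))))) (.g (nat_lit 0) (.e (nat_lit 131739) (nat_lit 0) .nil) .nil))) 
(.lf (nat_lit 485096) (.g (nat_lit 2176) (.e (nat_lit 24605) (nat_lit 2) (.e (nat_lit 90185) (nat_lit 17) (.e (nat_lit 237616) (nat_lit 12) (.e (nat_lit 475179) (nat_lit 24) (.e (nat_lit 516127) (nat_lit 2) (.e (nat_lit 213032) (nat_lit 11) .nil)))))) (.g (nat_lit 1) (.e (nat_lit 132420) (nat_lit 0) .nil) .nil)))) (.nd (nat_lit 9) 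
(.lf (nat_lit 484840) (.g (nat_lit 4164) (.e (nat_lit 24604) (nat_lit 2) (.e (nat_lit 90170) (nat_lit 13) (.e (nat_lit 172106) (nat_lit 10) (.e (nat_lit 434244) (nat_lit 28) (.e (nat_lit 573476) (nat_lit 12) (.e (nat_lit 57574) (nat_lit 55) (.e (nat_lit 778465) (nat_lit 11) .nil))))))) (.g (nat_lit 1) (.e (nat_lit 132154) (nat_lit 0) .nil) .nil))) 
(.lf (nat_lit 485352) (.g (nat_lit 3718) (.e (nat_lit 24608) (nat_lit 3) (.e (nat_lit 98365) (nat_lit 26) (.e (nat_lit 426298) (nat_lit 11) (.e (nat_lit 458795) (nat_lit 28) (.e (nat_lit 573477) (nat_lit 12) (.e (nat_lit 57574) (nat_lit 55) (.e (nat_lit 778466) (nat_lit 11) .nil))))))) (.g (nat_lit 1) (.e (nat_lit 132709) (nat_lit 0) .nil) .nil)))))))) 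
(.nd (nat_lit 5) (.nd (nat_lit 6) (.nd (nat_lit 7) (.nd (nat_lit 8) (.nd (nat_lit 9) 
(.lf (nat_lit 484376) (.g (nat_lit 5196) (.e (nat_lit 8326) (nat_lit 69) (.e (nat_lit 557101) (nat_lit 13) (.e (nat_lit 172097) (nat_lit 9) (.e (nat_lit 426140) (nat_lit 3) (.e (nat_lit 204846) (nat_lit 24) (.e (nat_lit 319504) (nat_lit 10) (.e (nat_lit 7936) (nat_lit 313) .nil))))))) (.g (nat_lit 1) (.e (nat_lit 129873) (nat_lit 0) .nil) .nil))) 
(.lf (nat_lit 484888) (.g (nat_lit 2409) (.e (nat_lit 24604) (nat_lit 2) (.e (nat_lit 90170) (nat_lit 13) (.e (nat_lit 172120) (nat_lit 12) (.e (nat_lit 475179) (nat_lit 24) (.e (nat_lit 516126) (nat_lit 2) (.e (nat_lit 213030) (nat_lit 11) .nil)))))) (.g (nat_lit 1) (.e (nat_lit 132202) (nat_lit 0) .nil) .nil)))) (.nd (nat_lit 9) 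
(.lf (nat_lit 484632) (.g (nat_lit 3405) (.e (nat_lit 24598) (nat_lit 1) (.e (nat_lit 57926) (nat_lit 282) (.e (nat_lit 163903) (nat_lit 12) (.e (nat_lit 426555) (nat_lit 32) (.e (nat_lit 376865) (nat_lit 22) (.e (nat_lit 90158) (nat_lit 11) .nil)))))) (.g (nat_lit 1) (.e (nat_lit 131837) (nat_lit 0) .nil) .nil))) 
(.lf (nat_lit 485144) (.g (nat_lit 3689) (.e (nat_lit 24606) (nat_lit 3) (.e (nat_lit 98373) (nat_lit 29) (.e (nat_lit 450588) (nat_lit 10) (.e (nat_lit 573478) (nat_lit 12) .nil)))) (.g (nat_lit 0) (.e (nat_lit 132481) (nat_lit 0) .nil) .nil))))) (.nd (nat_lit 8) (.nd (nat_lit 9) 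
(.lf (nat_lit 484504) (.g (nat_lit 3374) (.e (nat_lit 8234) (nat_lit 20) (.e (nat_lit 573489) (nat_lit 14) (.e (nat_lit 73755) (nat_lit 8) (.e (nat_lit 557103) (nat_lit 14) (.e (nat_lit 188160) (nat_lit 3) (.e (nat_lit 516106) (nat_lit 0) (.e (nat_lit 3537) (nat_lit 218) (.e (nat_lit 704726) (nat_lit 10) .nil)))))))) (.g (nat_lit 1) (.e (nat_lit 130778) (nat_lit 0) .nil) .nil))) 
(.lf (nat_lit 485016) (.g (nat_lit 2945) (.e (nat_lit 24605) (nat_lit 2) (.e (nat_lit 90170) (nat_lit 13) (.e (nat_lit 172113) (nat_lit 10) (.e (nat_lit 434245) (nat_lit 28) (.e (nat_lit 573474) (nat_lit 12) (.e (nat_lit 65280) (nat_lit 55) (.e (nat_lit 778461) (nat_lit 11) .nil))))))) (.g (nat_lit 1) (.e (nat_lit 132337) (nat_lit 0) .nil) .nil)))) (.nd (nat_lit 9) 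
(.lf (nat_lit 484760) (.g (nat_lit 2015) (.e (nat_lit 24603) (nat_lit 2) (.e (nat_lit 90185) (nat_lit 17) (.e (nat_lit 237616) (nat_lit 12) (.e (nat_lit 475179) (nat_lit 24) (.e (nat_lit 516126) (nat_lit 2) (.e (nat_lit 213032) (nat_lit 11) .nil)))))) (.g (nat_lit 1) (.e (nat_lit 132063) (nat_lit 0) .nil) .nil))) 
(.lf (nat_lit 485272) (.g (nat_lit 868) (.e (nat_lit 24608) (nat_lit 3) (.e (nat_lit 98358) (nat_lit 26) (.e (nat_lit 426320) (nat_lit 12) .nil))) (.g (nat_lit 0) (.e (nat_lit 132629) (nat_lit 0) .nil) .nil)))))) (.nd (nat_lit 7) (.nd (nat_lit 8) (.nd (nat_lit 9) 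
(.lf (nat_lit 484440) (.g (nat_lit 1986) (.e (nat_lit 8213) (nat_lit 9) (.e (nat_lit 303143) (nat_lit 12) (.e (nat_lit 475199) (nat_lit 40) (.e (nat_lit 704599) (nat_lit 6) .nil)))) (.g (nat_lit 0) (.e (nat_lit 130056) (nat_lit 0) .nil) .nil))) 
(.lf (nat_lit 484952) (.g (nat_lit 2311) (.e (nat_lit 24604) (nat_lit 2) (.e (nat_lit 90185) (nat_lit 17) (.e (nat_lit 237605) (nat_lit 9) (.e (nat_lit 426436) (nat_lit 18) (.e (nat_lit 98323) (nat_lit 17) (.e (nat_lit 3711) (nat_lit 227) (.e (nat_lit 778469) (nat_lit 11) .nil))))))) (.g (nat_lit 1) (.e (nat_lit 132271) (nat_lit 0) .nil) .nil)))) (.nd (nat_lit 9) 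
(.lf (nat_lit 484696) (.g (nat_lit 2764) (.e (nat_lit 24601) (nat_lit 2) (.e (nat_lit 90170) (nat_lit 13) (.e (nat_lit 172113) (nat_lit 10) (.e (nat_lit 434248) (nat_lit 28) (.e (nat_lit 573475) (nat_lit 12) (.e (nat_lit 57574) (nat_lit 55) (.e (nat_lit 778463) (nat_lit 11) .nil))))))) (.g (nat_lit 1) (.e (nat_lit 131987) (nat_lit 0) .nil) .nil))) 
(.lf (nat_lit 485208) (.g (nat_lit 3045) (.e (nat_lit 24607) (nat_lit 3) (.e (nat_lit 98372) (nat_lit 29) (.e (nat_lit 450588) (nat_lit 10) (.e (nat_lit 573451) (nat_lit 9) .nil)))) (.g (nat_lit 0) (.e (nat_lit 132554) (nat_lit 0) .nil) .nil))))) (.nd (nat_lit 8) (.nd (nat_lit 9) 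
(.lf (nat_lit 484568) (.g (nat_lit 4152) (.e (nat_lit 24581) (nat_lit 0) (.e (nat_lit 1794) (nat_lit 119) (.e (nat_lit 516166) (nat_lit 12) (.e (nat_lit 450587) (nat_lit 10) (.e (nat_lit 573478) (nat_lit 12) .nil))))) (.g (nat_lit 0) (.e (nat_lit 131684) (nat_lit 0) .nil) .nil))) 
(.lf (nat_lit 485080) (.g (nat_lit 828) (.e (nat_lit 24605) (nat_lit 2) (.e (nat_lit 90178) (nat_lit 15) (.e (nat_lit 188418) (nat_lit 0) (.e (nat_lit 1784) (nat_lit 119) .nil)))) (.g (nat_lit 0) (.e (nat_lit 132402) (nat_lit 0) .nil) .nil)))) (.nd (nat_lit 9) 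
(.lf (nat_lit 484824) (.g (nat_lit 3041) (.e (nat_lit 24604) (nat_lit 2) (.e (nat_lit 90170) (nat_lit 13) (.e (nat_lit 172106) (nat_lit 10) (.e (nat_lit 434244) (nat_lit 28) (.e (nat_lit 573453) (nat_lit 9) (.e (nat_lit 1310) (nat_lit 98) (.e (nat_lit 147495) (nat_lit 11) .nil))))))) (.g (nat_lit 1) (.e (nat_lit 132138) (nat_lit 0) .nil) .nil))) 
(.lf (nat_lit 485336) (.g (nat_lit 1274) (.e (nat_lit 24608) (nat_lit 3) (.e (nat_lit 98365) (nat_lit 26) (.e (nat_lit 426188) (nat_lit 9) (.e (nat_lit 426437) (nat_lit 18) .nil)))) (.g (nat_lit 0) (.e (nat_lit 132693) (nat_lit 0) .nil) .nil))))))) (.nd (nat_lit 6) (.nd (nat_lit 7) (.nd (nat_lit 8) (.nd (nat_lit 9) 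
(.lf (nat_lit 484408) (.g (nat_lit 3545) (.e (nat_lit 8356) (nat_lit 88) (.e (nat_lit 712755) (nat_lit 30) (.e (nat_lit 450588) (nat_lit 10) (.e (nat_lit 573474) (nat_lit 12) (.e (nat_lit 57511) (nat_lit 39) .nil))))) (.g (nat_lit 0) (.e (nat_lit 129977) (nat_lit 0) .nil) .nil))) 
(.lf (nat_lit 484920) (.g (nat_lit 2569) (.e (nat_lit 24604) (nat_lit 2) (.e (nat_lit 90178) (nat_lit 15) (.e (nat_lit 188440) (nat_lit 20) (.e (nat_lit 3307) (nat_lit 202) (.e (nat_lit 573495) (nat_lit 16) (.e (nat_lit 130816) (nat_lit 55) (.e (nat_lit 778462) (nat_lit 11) .nil))))))) (.g (nat_lit 1) (.e (nat_lit 132238) (nat_lit 0) .nil) .nil)))) (.nd (nat_lit 9) 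
(.lf (nat_lit 484664) (.g (nat_lit 2591) (.e (nat_lit 24599) (nat_lit 1) (.e (nat_lit 57929) (nat_lit 282) (.e (nat_lit 163902) (nat_lit 12) (.e (nat_lit 426555) (nat_lit 32) (.e (nat_lit 376865) (nat_lit 22) (.e (nat_lit 90160) (nat_lit 11) .nil)))))) (.g (nat_lit 1) (.e (nat_lit 131925) (nat_lit 0) .nil) .nil))) 
(.lf (nat_lit 485176) (.g (nat_lit 2876) (.e (nat_lit 24607) (nat_lit 3) (.e (nat_lit 98365) (nat_lit 26) (.e (nat_lit 426188) (nat_lit 9) (.e (nat_lit 426436) (nat_lit 18) (.e (nat_lit 98338) (nat_lit 19) (.e (nat_lit 213030) (nat_lit 11) .nil)))))) (.g (nat_lit 1) (.e (nat_lit 132522) (nat_lit 0) .nil) .nil))))) (.nd (nat_lit 8) (.nd (nat_lit 9) 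
(.lf (nat_lit 484536) (.g (nat_lit 1932) (.e (nat_lit 24576) (nat_lit 0) (.e (nat_lit 1788) (nat_lit 119) (.e (nat_lit 516165) (nat_lit 12) (.e (nat_lit 450586) (nat_lit 10) (.e (nat_lit 573475) (nat_lit 12) .nil))))) (.g (nat_lit 0) (.e (nat_lit 131559) (nat_lit 0) .nil) .nil))) 
(.lf (nat_lit 485048) (.g (nat_lit 4359) (.e (nat_lit 24605) (nat_lit 2) (.e (nat_lit 90170) (nat_lit 13) (.e (nat_lit 172113) (nat_lit 10) (.e (nat_lit 434248) (nat_lit 28) (.e (nat_lit 573475) (nat_lit 12) (.e (nat_lit 57574) (nat_lit 55) (.e (nat_lit 778465) (nat_lit 11) .nil))))))) (.g (nat_lit 1) (.e (nat_lit 132369) (nat_lit 0) .nil) .nil)))) (.nd (nat_lit 9) 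
(.lf (nat_lit 484792) (.g (nat_lit 3284) (.e (nat_lit 24604) (nat_lit 2) (.e (nat_lit 90170) (nat_lit 13) (.e (nat_lit 172106) (nat_lit 10) (.e (nat_lit 434231) (nat_lit 23) (.e (nat_lit 532483) (nat_lit 0) (.e (nat_lit 1036) (nat_lit 81) (.e (nat_lit 4614) (nat_lit 269) (.e (nat_lit 2551) (nat_lit 159) .nil)))))))) (.g (nat_lit 1) (.e (nat_lit 132106) (nat_lit 0) .nil) .nil))) 
(.lf (nat_lit 485304) (.g (nat_lit 3585) (.e (nat_lit 24608) (nat_lit 3) (.e (nat_lit 98365) (nat_lit 26) (.e (nat_lit 426100) (nat_lit 1) (.e (nat_lit 164332) (nat_lit 230) (.e (nat_lit 163874) (nat_lit 3) (.e (nat_lit 204829) (nat_lit 18) (.e (nat_lit 57908) (nat_lit 278) (.e (nat_lit 2553) (nat_lit 159) .nil)))))))) (.g (nat_lit 1) (.e (nat_lit 132661) (nat_lit 0) .nil) .nil)))))) 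
(.nd (nat_lit 7) (.nd (nat_lit 8) (.nd (nat_lit 9) 
(.lf (nat_lit 484472) (.g (nat_lit 786) (.e (nat_lit 8228) (nat_lit 15) (.e (nat_lit 532504) (nat_lit 1) (.e (nat_lit 57854) (nat_lit 252) .nil))) (.g (nat_lit 0) (.e (nat_lit 130207) (nat_lit 0) .nil) .nil))) 
(.lf (nat_lit 484984) (.g (nat_lit 2660) (.e (nat_lit 24604) (nat_lit 2) (.e (nat_lit 90185) (nat_lit 17) (.e (nat_lit 237619) (nat_lit 12) (.e (nat_lit 475179) (nat_lit 24) (.e (nat_lit 516126) (nat_lit 2) (.e (nat_lit 213030) (nat_lit 11) .nil)))))) (.g (nat_lit 1) (.e (nat_lit 132303) (nat_lit 0) .nil) .nil)))) (.nd (nat_lit 9) 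
(.lf (nat_lit 484728) (.g (nat_lit 2848) (.e (nat_lit 24603) (nat_lit 2) (.e (nat_lit 90167) (nat_lit 13) (.e (nat_lit 172126) (nat_lit 14) (.e (nat_lit 491537) (nat_lit 2) (.e (nat_lit 90130) (nat_lit 9) .nil))))) (.g (nat_lit 0) (.e (nat_lit 132025) (nat_lit 0) .nil) .nil))) 
(.lf (nat_lit 485240) (.g (nat_lit 2876) (.e (nat_lit 24607) (nat_lit 3) (.e (nat_lit 98373) (nat_lit 29) (.e (nat_lit 450588) (nat_lit 10) (.e (nat_lit 573457) (nat_lit 9) .nil)))) (.g (nat_lit 0) (.e (nat_lit 132586) (nat_lit 0) .nil) .nil))))) (.nd (nat_lit 8) (.nd (nat_lit 9) 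
(.lf (nat_lit 484600) (.g (nat_lit 3506) (.e (nat_lit 24597) (nat_lit 1) (.e (nat_lit 57926) (nat_lit 282) (.e (nat_lit 163903) (nat_lit 12) (.e (nat_lit 426555) (nat_lit 32) (.e (nat_lit 376862) (nat_lit 22) (.e (nat_lit 90158) (nat_lit 11) .nil)))))) (.g (nat_lit 1) (.e (nat_lit 131765) (nat_lit 0) .nil) .nil))) 
(.lf (nat_lit 485112) (.g (nat_lit 3666) (.e (nat_lit 24606) (nat_lit 3) (.e (nat_lit 98359) (nat_lit 26) (.e (nat_lit 426286) (nat_lit 10) (.e (nat_lit 434247) (nat_lit 28) (.e (nat_lit 573477) (nat_lit 12) (.e (nat_lit 57574) (nat_lit 55) (.e (nat_lit 778466) (nat_lit 11) .nil))))))) (.g (nat_lit 1) (.e (nat_lit 132436) (nat_lit 0) .nil) .nil)))) (.nd (nat_lit 9) 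
(.lf (nat_lit 484856) (.g (nat_lit 3761) (.e (nat_lit 24604) (nat_lit 2) (.e (nat_lit 90170) (nat_lit 13) (.e (nat_lit 172106) (nat_lit 10) (.e (nat_lit 434247) (nat_lit 28) (.e (nat_lit 573477) (nat_lit 12) (.e (nat_lit 57575) (nat_lit 55) (.e (nat_lit 778466) (nat_lit 11) .nil))))))) (.g (nat_lit 1) (.e (nat_lit 132170) (nat_lit 0) .nil) .nil))) 
(.lf (nat_lit 485368) (.g (nat_lit 926) (.e (nat_lit 24608) (nat_lit 3) (.e (nat_lit 98365) (nat_lit 26) (.e (nat_lit 426306) (nat_lit 12) (.e (nat_lit 475179) (nat_lit 24) .nil)))) (.g (nat_lit 0) (.e (nat_lit 132725) (nat_lit 0) .nil) .nil)))))))))) (.nd (nat_lit 3) (.nd (nat_lit 4) (.nd (nat_lit 5) (.nd (nat_lit 6) (.nd (nat_lit 7) (.nd (nat_lit 8) (.nd (nat_lit 9) 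
(.lf (nat_lit 484356) (.g (nat_lit 3211) (.e (nat_lit 8325) (nat_lit 69) (.e (nat_lit 557109) (nat_lit 15) (.e (nat_lit 188452) (nat_lit 23) (.e (nat_lit 204846) (nat_lit 24) (.e (nat_lit 319505) (nat_lit 10) (.e (nat_lit 7936) (nat_lit 313) .nil)))))) (.g (nat_lit 1) (.e (nat_lit 129852) (nat_lit 0) .nil) .nil))) 
(.lf (nat_lit 484868) (.g (nat_lit 4067) (.e (nat_lit 24604) (nat_lit 2) (.e (nat_lit 90170) (nat_lit 13) (.e (nat_lit 172113) (nat_lit 10) (.e (nat_lit 434245) (nat_lit 28) (.e (nat_lit 573474) (nat_lit 12) (.e (nat_lit 57574) (nat_lit 55) (.e (nat_lit 778463) (nat_lit 11) .nil))))))) (.g (nat_lit 1) (.e (nat_lit 132182) (nat_lit 0) .nil) .nil)))) (.nd (nat_lit 9) 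
(.lf (nat_lit 484612) (.g (nat_lit 2736) (.e (nat_lit 24597) (nat_lit 1) (.e (nat_lit 57926) (nat_lit 282) (.e (nat_lit 163906) (nat_lit 12) (.e (nat_lit 426555) (nat_lit 32) (.e (nat_lit 376865) (nat_lit 22) (.e (nat_lit 90160) (nat_lit 11) .nil)))))) (.g (nat_lit 1) (.e (nat_lit 131779) (nat_lit 0) .nil) .nil))) 
(.lf (nat_lit 485124) (.g (nat_lit 2301) (.e (nat_lit 24606) (nat_lit 3) (.e (nat_lit 98373) (nat_lit 29) (.e (nat_lit 450586) (nat_lit 10) (.e (nat_lit 573477) (nat_lit 12) (.e (nat_lit 57575) (nat_lit 55) .nil))))) (.g (nat_lit 0) (.e (nat_lit 132461) (nat_lit 0) .nil) .nil))))) (.nd (nat_lit 8) (.nd (nat_lit 9) 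
(.lf (nat_lit 484484) (.g (nat_lit 3415) (.e (nat_lit 8234) (nat_lit 20) (.e (nat_lit 573482) (nat_lit 13) (.e (nat_lit 65619) (nat_lit 10) (.e (nat_lit 344117) (nat_lit 21) (.e (nat_lit 516106) (nat_lit 0) (.e (nat_lit 6986) (nat_lit 377) (.e (nat_lit 2400) (nat_lit 157) (.e (nat_lit 5376) (nat_lit 299) .nil)))))))) (.g (nat_lit 1) (.e (nat_lit 130469) (nat_lit 0) .nil) .nil))) 
(.lf (nat_lit 484996) (.g (nat_lit 3946) (.e (nat_lit 24605) (nat_lit 2) (.e (nat_lit 90170) (nat_lit 13) (.e (nat_lit 172106) (nat_lit 10) (.e (nat_lit 434231) (nat_lit 23) (.e (nat_lit 532500) (nat_lit 1) (.e (nat_lit 65280) (nat_lit 233) (.e (nat_lit 2554) (nat_lit 159) .nil))))))) (.g (nat_lit 1) (.e (nat_lit 132316) (nat_lit 0) .nil) .nil)))) (.nd (nat_lit 9) 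
(.lf (nat_lit 484740) (.g (nat_lit 4347) (.e (nat_lit 24603) (nat_lit 2) (.e (nat_lit 90176) (nat_lit 15) (.e (nat_lit 188440) (nat_lit 20) (.e (nat_lit 3307) (nat_lit 202) (.e (nat_lit 573475) (nat_lit 12) (.e (nat_lit 57574) (nat_lit 55) (.e (nat_lit 778465) (nat_lit 11) .nil))))))) (.g (nat_lit 1) (.e (nat_lit 132043) (nat_lit 0) .nil) .nil))) 
(.lf (nat_lit 485252) (.g (nat_lit 1094) (.e (nat_lit 24607) (nat_lit 3) (.e (nat_lit 98384) (nat_lit 32) (.e (nat_lit 483072) (nat_lit 51) .nil))) (.g (nat_lit 0) (.e (nat_lit 132598) (nat_lit 0) .nil) .nil)))))) (.nd (nat_lit 7) (.nd (nat_lit 8) (.nd (nat_lit 9) 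
(.lf (nat_lit 484420) (.g (nat_lit 2462) (.e (nat_lit 8211) (nat_lit 9) (.e (nat_lit 303143) (nat_lit 12) (.e (nat_lit 475211) (nat_lit 41) (.e (nat_lit 712755) (nat_lit 30) (.e (nat_lit 450563) (nat_lit 0) (.e (nat_lit 7936) (nat_lit 321) .nil)))))) (.g (nat_lit 1) (.e (nat_lit 130006) (nat_lit 0) .nil) .nil))) 
(.lf (nat_lit 484932) (.g (nat_lit 1845) (.e (nat_lit 24604) (nat_lit 2) (.e (nat_lit 90185) (nat_lit 17) (.e (nat_lit 237601) (nat_lit 9) (.e (nat_lit 426432) (nat_lit 17) (.e (nat_lit 90133) (nat_lit 9) (.e (nat_lit 7936) (nat_lit 169) (.e (nat_lit 213032) (nat_lit 11) .nil))))))) (.g (nat_lit 1) (.e (nat_lit 132251) (nat_lit 0) .nil) .nil)))) (.nd (nat_lit 9) 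
(.lf (nat_lit 484676) (.g (nat_lit 2820) (.e (nat_lit 24600) (nat_lit 1) (.e (nat_lit 57931) (nat_lit 282) (.e (nat_lit 163905) (nat_lit 12) (.e (nat_lit 426555) (nat_lit 32) (.e (nat_lit 376865) (nat_lit 22) (.e (nat_lit 90158) (nat_lit 11) .nil)))))) (.g (nat_lit 1) (.e (nat_lit 131961) (nat_lit 0) .nil) .nil))) 
(.lf (nat_lit 485188) (.g (nat_lit 1773) (.e (nat_lit 24607) (nat_lit 3) (.e (nat_lit 98365) (nat_lit 26) (.e (nat_lit 426306) (nat_lit 12) (.e (nat_lit 475177) (nat_lit 24) (.e (nat_lit 516125) (nat_lit 2) .nil))))) (.g (nat_lit 0) (.e (nat_lit 132534) (nat_lit 0) .nil) .nil))))) (.nd (nat_lit 8) (.nd (nat_lit 9) 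
(.lf (nat_lit 484548) (.g (nat_lit 1579) (.e (nat_lit 24578) (nat_lit 0) (.e (nat_lit 6508) (nat_lit 345) (.e (nat_lit 16456) (nat_lit 12) (.e (nat_lit 475214) (nat_lit 42) (.e (nat_lit 728832) (nat_lit 4) .nil))))) (.g (nat_lit 0) (.e (nat_lit 131585) (nat_lit 0) .nil) .nil))) 
(.lf (nat_lit 485060) (.g (nat_lit 2709) (.e (nat_lit 24605) (nat_lit 2) (.e (nat_lit 90170) (nat_lit 13) (.e (nat_lit 172118) (nat_lit 12) (.e (nat_lit 475179) (nat_lit 24) (.e (nat_lit 516124) (nat_lit 2) (.e (nat_lit 213030) (nat_lit 11) .nil)))))) (.g (nat_lit 1) (.e (nat_lit 132381) (nat_lit 0) .nil) .nil)))) (.nd (nat_lit 9) 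
(.lf (nat_lit 484804) (.g (nat_lit 3798) (.e (nat_lit 24604) (nat_lit 2) (.e (nat_lit 90170) (nat_lit 13) (.e (nat_lit 172106) (nat_lit 10) (.e (nat_lit 434231) (nat_lit 23) (.e (nat_lit 532500) (nat_lit 1) (.e (nat_lit 65280) (nat_lit 233) (.e (nat_lit 2554) (nat_lit 159) .nil))))))) (.g (nat_lit 1) (.e (nat_lit 132118) (nat_lit 0) .nil) .nil))) 
(.lf (nat_lit 485316) (.g (nat_lit 2842) (.e (nat_lit 24608) (nat_lit 3) (.e (nat_lit 98365) (nat_lit 26) (.e (nat_lit 426187) (nat_lit 9) (.e (nat_lit 426436) (nat_lit 18) (.e (nat_lit 98320) (nat_lit 17) (.e (nat_lit 3672) (nat_lit 227) (.e (nat_lit 786176) (nat_lit 11) .nil))))))) (.g (nat_lit 1) (.e (nat_lit 132673) (nat_lit 0) .nil) .nil))))))) 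
(.nd (nat_lit 6) (.nd (nat_lit 7) (.nd (nat_lit 8) (.nd (nat_lit 9) 
(.lf (nat_lit 484388) (.g (nat_lit 2326) (.e (nat_lit 8326) (nat_lit 69) (.e (nat_lit 557105) (nat_lit 14) (.e (nat_lit 180252) (nat_lit 10) (.e (nat_lit 573489) (nat_lit 14) (.e (nat_lit 73755) (nat_lit 8) (.e (nat_lit 557089) (nat_lit 12) (.e (nat_lit 164006) (nat_lit 41) (.e (nat_lit 671488) (nat_lit 10) .nil)))))))) (.g (nat_lit 1) (.e (nat_lit 129885) (nat_lit 0) .nil) .nil))) 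
(.lf (nat_lit 484900) (.g (nat_lit 3104) (.e (nat_lit 24604) (nat_lit 2) (.e (nat_lit 90176) (nat_lit 15) (.e (nat_lit 188450) (nat_lit 23) (.e (nat_lit 204829) (nat_lit 18) (.e (nat_lit 57778) (nat_lit 233) (.e (nat_lit 2551) (nat_lit 159) .nil)))))) (.g (nat_lit 1) (.e (nat_lit 132216) (nat_lit 0) .nil) .nil)))) (.nd (nat_lit 9) 
(.lf (nat_lit 484644) (.g (nat_lit 2936) (.e (nat_lit 24598) (nat_lit 1) (.e (nat_lit 57927) (nat_lit 282) (.e (nat_lit 163905) (nat_lit 12) (.e (nat_lit 426555) (nat_lit 32) (.e (nat_lit 376865) (nat_lit 22) (.e (nat_lit 90160) (nat_lit 11) .nil)))))) (.g (nat_lit 1) (.e (nat_lit 131865) (nat_lit 0) .nil) .nil))) 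
(.lf (nat_lit 485156) (.g (nat_lit 3879) (.e (nat_lit 24607) (nat_lit 3) (.e (nat_lit 98359) (nat_lit 26) (.e (nat_lit 426286) (nat_lit 10) (.e (nat_lit 434248) (nat_lit 28) (.e (nat_lit 573475) (nat_lit 12) (.e (nat_lit 57574) (nat_lit 55) (.e (nat_lit 778464) (nat_lit 11) .nil))))))) (.g (nat_lit 1) (.e (nat_lit 132502) (nat_lit 0) .nil) .nil))))) (.nd (nat_lit 8) (.nd (nat_lit 9) 
(.lf (nat_lit 484516) (.g (nat_lit 1410) (.e (nat_lit 8399) (nat_lit 120) (.e (nat_lit 2649) (nat_lit 166) (.e (nat_lit 188434) (nat_lit 20) (.e (nat_lit 3579) (nat_lit 223) .nil)))) (.g (nat_lit 0) (.e (nat_lit 131038) (nat_lit 0) .nil) .nil))) 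
(.lf (nat_lit 485028) (.g (nat_lit 4098) (.e (nat_lit 24605) (nat_lit 2) (.e (nat_lit 90170) (nat_lit 13) (.e (nat_lit 172113) (nat_lit 10) (.e (nat_lit 434247) (nat_lit 28) (.e (nat_lit 573477) (nat_lit 12) (.e (nat_lit 57575) (nat_lit 55) (.e (nat_lit 778460) (nat_lit 11) .nil))))))) (.g (nat_lit 1) (.e (nat_lit 132349) (nat_lit 0) .nil) .nil)))) (.nd (nat_lit 9) 
(.lf (nat_lit 484772) (.g (nat_lit 4197) (.e (nat_lit 24604) (nat_lit 2) (.e (nat_lit 90167) (nat_lit 13) (.e (nat_lit 172113) (nat_lit 10) (.e (nat_lit 434245) (nat_lit 28) (.e (nat_lit 573474) (nat_lit 12) (.e (nat_lit 57574) (nat_lit 55) (.e (nat_lit 778466) (nat_lit 11) .nil))))))) (.g (nat_lit 1) (.e (nat_lit 132084) (nat_lit 0) .nil) .nil))) 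
(.lf (nat_lit 485284) (.g (nat_lit 1928) (.e (nat_lit 24608) (nat_lit 3) (.e (nat_lit 98363) (nat_lit 26) (.e (nat_lit 426228) (nat_lit 9) (.e (nat_lit 426435) (nat_lit 18) (.e (nat_lit 98339) (nat_lit 19) (.e (nat_lit 213030) (nat_lit 11) .nil)))))) (.g (nat_lit 1) (.e (nat_lit 132641) (nat_lit 0) .nil) .nil)))))) (.nd (nat_lit 7) (.nd (nat_lit 8) (.nd (nat_lit 9) 
(.lf (nat_lit 484452) (.g (nat_lit 5147) (.e (nat_lit 8213) (nat_lit 9) (.e (nat_lit 303145) (nat_lit 13) (.e (nat_lit 483413) (nat_lit 27) (.e (nat_lit 401448) (nat_lit 10) (.e (nat_lit 434200) (nat_lit 18) (.e (nat_lit 6058) (nat_lit 327) .nil)))))) (.g (nat_lit 1) (.e (nat_lit 130070) (nat_lit 0) .nil) .nil))) 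
(.lf (nat_lit 484964) (.g (nat_lit 2366) (.e (nat_lit 24604) (nat_lit 2) (.e (nat_lit 90185) (nat_lit 17) (.e (nat_lit 237616) (nat_lit 12) (.e (nat_lit 475177) (nat_lit 24) (.e (nat_lit 516097) (nat_lit 0) (.e (nat_lit 3656) (nat_lit 227) (.e (nat_lit 778462) (nat_lit 11) .nil))))))) (.g (nat_lit 1) (.e (nat_lit 132283) (nat_lit 0) .nil) .nil)))) (.nd (nat_lit 9) 
(.lf (nat_lit 484708) (.g (nat_lit 2271) (.e (nat_lit 24602) (nat_lit 2) (.e (nat_lit 90170) (nat_lit 13) (.e (nat_lit 172113) (nat_lit 10) (.e (nat_lit 434247) (nat_lit 28) (.e (nat_lit 573478) (nat_lit 12) (.e (nat_lit 57574) (nat_lit 55) (.e (nat_lit 778463) (nat_lit 11) .nil))))))) (.g (nat_lit 1) (.e (nat_lit 132004) (nat_lit 0) .nil) .nil))) 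
(.lf (nat_lit 485220) (.g (nat_lit 2448) (.e (nat_lit 24607) (nat_lit 3) (.e (nat_lit 98373) (nat_lit 29) (.e (nat_lit 450587) (nat_lit 10) (.e (nat_lit 573456) (nat_lit 9) .nil)))) (.g (nat_lit 0) (.e (nat_lit 132566) (nat_lit 0) .nil) .nil))))) (.nd (nat_lit 8) (.nd (nat_lit 9) 
(.lf (nat_lit 484580) (.g (nat_lit 3796) (.e (nat_lit 24593) (nat_lit 0) (.e (nat_lit 1786) (nat_lit 119) (.e (nat_lit 516166) (nat_lit 12) (.e (nat_lit 450587) (nat_lit 10) (.e (nat_lit 573477) (nat_lit 12) .nil))))) (.g (nat_lit 0) (.e (nat_lit 131735) (nat_lit 0) .nil) .nil))) 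
(.lf (nat_lit 485092) (.g (nat_lit 2231) (.e (nat_lit 24605) (nat_lit 2) (.e (nat_lit 90185) (nat_lit 17) (.e (nat_lit 237616) (nat_lit 12) (.e (nat_lit 475179) (nat_lit 24) (.e (nat_lit 516124) (nat_lit 2) (.e (nat_lit 213030) (nat_lit 11) .nil)))))) (.g (nat_lit 1) (.e (nat_lit 132416) (nat_lit 0) .nil) .nil)))) (.nd (nat_lit 9) 
(.lf (nat_lit 484836) (.g (nat_lit 2604) (.e (nat_lit 24604) (nat_lit 2) (.e (nat_lit 90170) (nat_lit 13) (.e (nat_lit 172106) (nat_lit 10) (.e (nat_lit 434244) (nat_lit 28) (.e (nat_lit 573474) (nat_lit 12) (.e (nat_lit 65280) (nat_lit 55) (.e (nat_lit 786176) (nat_lit 11) .nil))))))) (.g (nat_lit 1) (.e (nat_lit 132150) (nat_lit 0) .nil) .nil))) 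
(.lf (nat_lit 485348) (.g (nat_lit 2011) (.e (nat_lit 24608) (nat_lit 3) (.e (nat_lit 98365) (nat_lit 26) (.e (nat_lit 426298) (nat_lit 11) (.e (nat_lit 458789) (nat_lit 23) (.e (nat_lit 532501) (nat_lit 1) (.e (nat_lit 65280) (nat_lit 233) (.e (nat_lit 2553) (nat_lit 159) .nil))))))) (.g (nat_lit 1) (.e (nat_lit 132705) (nat_lit 0) .nil) .nil)))))))) 
(.nd (nat_lit 5) (.nd (nat_lit 6) (.nd (nat_lit 7) (.nd (nat_lit 8) (.nd (nat_lit 9) 
(.lf (nat_lit 484372) (.g (nat_lit 5181) (.e (nat_lit 8326) (nat_lit 69) (.e (nat_lit 557100) (nat_lit 13) (.e (nat_lit 172106) (nat_lit 10) (.e (nat_lit 434231) (nat_lit 23) (.e (nat_lit 532523) (nat_lit 7) (.e (nat_lit 319504) (nat_lit 10) (.e (nat_lit 7936) (nat_lit 313) .nil))))))) (.g (nat_lit 1) (.e (nat_lit 129869) (nat_lit 0) .nil) .nil))) 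
(.lf (nat_lit 484884) (.g (nat_lit 2614) (.e (nat_lit 24604) (nat_lit 2) (.e (nat_lit 90170) (nat_lit 13) (.e (nat_lit 172120) (nat_lit 12) (.e (nat_lit 475177) (nat_lit 24) (.e (nat_lit 516126) (nat_lit 2) (.e (nat_lit 213032) (nat_lit 11) .nil)))))) (.g (nat_lit 1) (.e (nat_lit 132198) (nat_lit 0) .nil) .nil)))) (.nd (nat_lit 9) 
(.lf (nat_lit 484628) (.g (nat_lit 3315) (.e (nat_lit 24598) (nat_lit 1) (.e (nat_lit 57926) (nat_lit 282) (.e (nat_lit 163902) (nat_lit 12) (.e (nat_lit 426555) (nat_lit 32) (.e (nat_lit 376865) (nat_lit 22) (.e (nat_lit 90158) (nat_lit 11) .nil)))))) (.g (nat_lit 1) (.e (nat_lit 131833) (nat_lit 0) .nil) .nil))) 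
(.lf (nat_lit 485140) (.g (nat_lit 4111) (.e (nat_lit 24606) (nat_lit 3) (.e (nat_lit 98373) (nat_lit 29) (.e (nat_lit 450588) (nat_lit 10) (.e (nat_lit 573475) (nat_lit 12) (.e (nat_lit 57574) (nat_lit 55) (.e (nat_lit 778464) (nat_lit 11) .nil)))))) (.g (nat_lit 1) (.e (nat_lit 132477) (nat_lit 0) .nil) .nil))))) (.nd (nat_lit 8) (.nd (nat_lit 9) 
(.lf (nat_lit 484500) (.g (nat_lit 2091) (.e (nat_lit 8234) (nat_lit 20) (.e (nat_lit 573489) (nat_lit 14) (.e (nat_lit 73754) (nat_lit 8) (.e (nat_lit 557103) (nat_lit 14) .nil)))) (.g (nat_lit 0) (.e (nat_lit 130759) (nat_lit 0) .nil) .nil))) 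
(.lf (nat_lit 485012) (.g (nat_lit 3663) (.e (nat_lit 24605) (nat_lit 2) (.e (nat_lit 90170) (nat_lit 13) (.e (nat_lit 172113) (nat_lit 10) (.e (nat_lit 434245) (nat_lit 28) (.e (nat_lit 573474) (nat_lit 12) (.e (nat_lit 57574) (nat_lit 55) (.e (nat_lit 778463) (nat_lit 11) .nil))))))) (.g (nat_lit 1) (.e (nat_lit 132333) (nat_lit 0) .nil) .nil)))) (.nd (nat_lit 9) 
(.lf (nat_lit 484756) (.g (nat_lit 1994) (.e (nat_lit 24603) (nat_lit 2) (.e (nat_lit 90185) (nat_lit 17) (.e (nat_lit 237613) (nat_lit 10) (.e (nat_lit 434247) (nat_lit 28) (.e (nat_lit 573478) (nat_lit 12) .nil))))) (.g (nat_lit 0) (.e (nat_lit 132059) (nat_lit 0) .nil) .nil))) 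
(.lf (nat_lit 485268) (.g (nat_lit 3800) (.e (nat_lit 24608) (nat_lit 3) (.e (nat_lit 98342) (nat_lit 20) (.e (nat_lit 221214) (nat_lit 23) (.e (nat_lit 204830) (nat_lit 18) (.e (nat_lit 57852) (nat_lit 252) (.e (nat_lit 57370) (nat_lit 2) (.e (nat_lit 90158) (nat_lit 11) .nil))))))) (.g (nat_lit 1) (.e (nat_lit 132622) (nat_lit 0) .nil) .nil)))))) 
(.nd (nat_lit 7) (.nd (nat_lit 8) (.nd (nat_lit 9) 
(.lf (nat_lit 484436) (.g (nat_lit 366) (.e (nat_lit 8213) (nat_lit 9) (.e (nat_lit 303137) (nat_lit 10) (.e (nat_lit 434272) (nat_lit 38) .nil))) (.g (nat_lit 0) (.e (nat_lit 130050) (nat_lit 0) .nil) .nil))) 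
(.lf (nat_lit 484948) (.g (nat_lit 2168) (.e (nat_lit 24604) (nat_lit 2) (.e (nat_lit 90185) (nat_lit 17) (.e (nat_lit 237605) (nat_lit 9) (.e (nat_lit 426432) (nat_lit 17) (.e (nat_lit 90133) (nat_lit 9) (.e (nat_lit 7936) (nat_lit 169) (.e (nat_lit 213032) (nat_lit 11) .nil))))))) (.g (nat_lit 1) (.e (nat_lit 132267) (nat_lit 0) .nil) .nil)))) (.nd (nat_lit 9) 
(.lf (nat_lit 484692) (.g (nat_lit 3712) (.e (nat_lit 24601) (nat_lit 2) (.e (nat_lit 90170) (nat_lit 13) (.e (nat_lit 172113) (nat_lit 10) (.e (nat_lit 434247) (nat_lit 28) (.e (nat_lit 573478) (nat_lit 12) (.e (nat_lit 57574) (nat_lit 55) (.e (nat_lit 778465) (nat_lit 11) .nil))))))) (.g (nat_lit 1) (.e (nat_lit 131983) (nat_lit 0) .nil) .nil))) 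
(.lf (nat_lit 485204) (.g (nat_lit 3218) (.e (nat_lit 24607) (nat_lit 3) (.e (nat_lit 98372) (nat_lit 29) (.e (nat_lit 450586) (nat_lit 10) (.e (nat_lit 573478) (nat_lit 12) (.e (nat_lit 57574) (nat_lit 55) (.e (nat_lit 778464) (nat_lit 11) .nil)))))) (.g (nat_lit 1) (.e (nat_lit 132550) (nat_lit 0) .nil) .nil))))) (.nd (nat_lit 8) (.nd (nat_lit 9) 
(.lf (nat_lit 484564) (.g (nat_lit 1966) (.e (nat_lit 24580) (nat_lit 0) (.e (nat_lit 6722) (nat_lit 362) (.e (nat_lit 180272) (nat_lit 26) (.e (nat_lit 704738) (nat_lit 11) (.e (nat_lit 16392) (nat_lit 0) (.e (nat_lit 7936) (nat_lit 390) .nil)))))) (.g (nat_lit 1) (.e (nat_lit 131675) (nat_lit 0) .nil) .nil))) 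
(.lf (nat_lit 485076) (.g (nat_lit 927) (.e (nat_lit 24605) (nat_lit 2) (.e (nat_lit 90176) (nat_lit 15) (.e (nat_lit 188420) (nat_lit 0) (.e (nat_lit 1784) (nat_lit 119) (.e (nat_lit 516124) (nat_lit 2) .nil))))) (.g (nat_lit 0) (.e (nat_lit 132397) (nat_lit 0) .nil) .nil)))) (.nd (nat_lit 9) 
(.lf (nat_lit 484820) (.g (nat_lit 3878) (.e (nat_lit 24604) (nat_lit 2) (.e (nat_lit 90170) (nat_lit 13) (.e (nat_lit 172106) (nat_lit 10) (.e (nat_lit 434243) (nat_lit 28) (.e (nat_lit 573478) (nat_lit 12) (.e (nat_lit 57574) (nat_lit 55) (.e (nat_lit 778466) (nat_lit 11) .nil))))))) (.g (nat_lit 1) (.e (nat_lit 132134) (nat_lit 0) .nil) .nil))) 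
(.lf (nat_lit 485332) (.g (nat_lit 2973) (.e (nat_lit 24608) (nat_lit 3) (.e (nat_lit 98365) (nat_lit 26) (.e (nat_lit 426188) (nat_lit 9) (.e (nat_lit 426436) (nat_lit 18) (.e (nat_lit 98320) (nat_lit 17) (.e (nat_lit 3672) (nat_lit 227) (.e (nat_lit 786176) (nat_lit 11) .nil))))))) (.g (nat_lit 1) (.e (nat_lit 132689) (nat_lit 0) .nil) .nil))))))) 
(.nd (nat_lit 6) (.nd (nat_lit 7) (.nd (nat_lit 8) (.nd (nat_lit 9) 
(.lf (nat_lit 484404) (.g (nat_lit 3059) (.e (nat_lit 8376) (nat_lit 96) (.e (nat_lit 778466) (nat_lit 11) (.e (nat_lit 24604) (nat_lit 2) (.e (nat_lit 90167) (nat_lit 13) (.e (nat_lit 172126) (nat_lit 14) .nil))))) (.g (nat_lit 0) (.e (nat_lit 129917) (nat_lit 0) .nil) .nil))) 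
(.lf (nat_lit 484916) (.g (nat_lit 4788) (.e (nat_lit 24604) (nat_lit 2) (.e (nat_lit 90178) (nat_lit 15) (.e (nat_lit 188440) (nat_lit 20) (.e (nat_lit 3307) (nat_lit 202) (.e (nat_lit 573477) (nat_lit 12) (.e (nat_lit 57575) (nat_lit 55) (.e (nat_lit 778464) (nat_lit 11) .nil))))))) (.g (nat_lit 1) (.e (nat_lit 132234) (nat_lit 0) .nil) .nil)))) (.nd (nat_lit 9) 
(.lf (nat_lit 484660) (.g (nat_lit 2577) (.e (nat_lit 24599) (nat_lit 1) (.e (nat_lit 57924) (nat_lit 282) (.e (nat_lit 163903) (nat_lit 12) (.e (nat_lit 426555) (nat_lit 32) (.e (nat_lit 376862) (nat_lit 22) (.e (nat_lit 90158) (nat_lit 11) .nil)))))) (.g (nat_lit 1) (.e (nat_lit 131919) (nat_lit 0) .nil) .nil))) 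
(.lf (nat_lit 485172) (.g (nat_lit 2223) (.e (nat_lit 24607) (nat_lit 3) (.e (nat_lit 98365) (nat_lit 26) (.e (nat_lit 426188) (nat_lit 9) (.e (nat_lit 426428) (nat_lit 17) (.e (nat_lit 90165) (nat_lit 12) (.e (nat_lit 164041) (nat_lit 55) (.e (nat_lit 786176) (nat_lit 11) .nil))))))) (.g (nat_lit 1) (.e (nat_lit 132518) (nat_lit 0) .nil) .nil))))) (.nd (nat_lit 8) (.nd (nat_lit 9) 
(.lf (nat_lit 484532) (.g (nat_lit 2248) (.e (nat_lit 16128) (nat_lit 225) (.e (nat_lit 2798) (nat_lit 180) (.e (nat_lit 303119) (nat_lit 3) (.e (nat_lit 204869) (nat_lit 29) (.e (nat_lit 360472) (nat_lit 8) .nil))))) (.g (nat_lit 0) (.e (nat_lit 131349) (nat_lit 0) .nil) .nil))) 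
(.lf (nat_lit 485044) (.g (nat_lit 2025) (.e (nat_lit 24605) (nat_lit 2) (.e (nat_lit 90170) (nat_lit 13) (.e (nat_lit 172113) (nat_lit 10) (.e (nat_lit 434248) (nat_lit 28) (.e (nat_lit 573473) (nat_lit 12) .nil))))) (.g (nat_lit 0) (.e (nat_lit 132365) (nat_lit 0) .nil) .nil)))) (.nd (nat_lit 9) 
(.lf (nat_lit 484788) (.g (nat_lit 381) (.e (nat_lit 24604) (nat_lit 2) (.e (nat_lit 90170) (nat_lit 13) (.e (nat_lit 172106) (nat_lit 10) .nil))) (.g (nat_lit 0) (.e (nat_lit 132101) (nat_lit 0) .nil) .nil))) 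
(.lf (nat_lit 485300) (.g (nat_lit 3913) (.e (nat_lit 24608) (nat_lit 3) (.e (nat_lit 98365) (nat_lit 26) (.e (nat_lit 426098) (nat_lit 1) (.e (nat_lit 164327) (nat_lit 230) (.e (nat_lit 163875) (nat_lit 3) (.e (nat_lit 204830) (nat_lit 18) (.e (nat_lit 57908) (nat_lit 278) (.e (nat_lit 2553) (nat_lit 159) .nil)))))))) (.g (nat_lit 1) (.e (nat_lit 132657) (nat_lit 0) .nil) .nil)))))) 
(.nd (nat_lit 7) (.nd (nat_lit 8) (.nd (nat_lit 9) 
(.lf (nat_lit 484468) (.g (nat_lit 1013) (.e (nat_lit 8228) (nat_lit 15) (.e (nat_lit 532501) (nat_lit 1) (.e (nat_lit 57851) (nat_lit 252) .nil))) (.g (nat_lit 0) (.e (nat_lit 130202) (nat_lit 0) .nil) .nil))) 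
(.lf (nat_lit 484980) (.g (nat_lit 2177) (.e (nat_lit 24604) (nat_lit 2) (.e (nat_lit 90185) (nat_lit 17) (.e (nat_lit 237619) (nat_lit 12) (.e (nat_lit 475179) (nat_lit 24) (.e (nat_lit 516099) (nat_lit 0) (.e (nat_lit 3617) (nat_lit 227) (.e (nat_lit 778462) (nat_lit 11) .nil))))))) (.g (nat_lit 1) (.e (nat_lit 132299) (nat_lit 0) .nil) .nil)))) (.nd (nat_lit 9) 
(.lf (nat_lit 484724) (.g (nat_lit 1504) (.e (nat_lit 24603) (nat_lit 2) (.e (nat_lit 90166) (nat_lit 13) (.e (nat_lit 172113) (nat_lit 10) (.e (nat_lit 434247) (nat_lit 28) (.e (nat_lit 573478) (nat_lit 12) .nil))))) (.g (nat_lit 0) (.e (nat_lit 132021) (nat_lit 0) .nil) .nil))) 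
(.lf (nat_lit 485236) (.g (nat_lit 3643) (.e (nat_lit 24607) (nat_lit 3) (.e (nat_lit 98373) (nat_lit 29) (.e (nat_lit 450588) (nat_lit 10) (.e (nat_lit 573452) (nat_lit 9) .nil)))) (.g (nat_lit 0) (.e (nat_lit 132582) (nat_lit 0) .nil) .nil))))) (.nd (nat_lit 8) (.nd (nat_lit 9) 
(.lf (nat_lit 484596) (.g (nat_lit 3468) (.e (nat_lit 24597) (nat_lit 1) (.e (nat_lit 57926) (nat_lit 282) (.e (nat_lit 163902) (nat_lit 12) (.e (nat_lit 426555) (nat_lit 32) (.e (nat_lit 376862) (nat_lit 22) (.e (nat_lit 90158) (nat_lit 11) .nil)))))) (.g (nat_lit 1) (.e (nat_lit 131761) (nat_lit 0) .nil) .nil))) 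
(.lf (nat_lit 485108) (.g (nat_lit 4015) (.e (nat_lit 24606) (nat_lit 3) (.e (nat_lit 98359) (nat_lit 26) (.e (nat_lit 426286) (nat_lit 10) (.e (nat_lit 434245) (nat_lit 28) (.e (nat_lit 573474) (nat_lit 12) (.e (nat_lit 57574) (nat_lit 55) (.e (nat_lit 778464) (nat_lit 11) .nil))))))) (.g (nat_lit 1) (.e (nat_lit 132432) (nat_lit 0) .nil) .nil)))) (.nd (nat_lit 9) 
(.lf (nat_lit 484852) (.g (nat_lit 2128) (.e (nat_lit 24604) (nat_lit 2) (.e (nat_lit 90170) (nat_lit 13) (.e (nat_lit 172106) (nat_lit 10) (.e (nat_lit 434247) (nat_lit 28) .nil)))) (.g (nat_lit 0) (.e (nat_lit 132166) (nat_lit 0) .nil) .nil))) 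
(.lf (nat_lit 485364) (.g (nat_lit 3237) (.e (nat_lit 24608) (nat_lit 3) (.e (nat_lit 98365) (nat_lit 26) (.e (nat_lit 426306) (nat_lit 12) (.e (nat_lit 475177) (nat_lit 24) (.e (nat_lit 516127) (nat_lit 2) (.e (nat_lit 213031) (nat_lit 11) .nil)))))) (.g (nat_lit 1) (.e (nat_lit 132721) (nat_lit 0) .nil) .nil))))))))) 
(.nd (nat_lit 4) (.nd (nat_lit 5) (.nd (nat_lit 6) (.nd (nat_lit 7) (.nd (nat_lit 8) 
(.nd (nat_lit 9) 
(.lf (nat_lit 484364) (.g (nat_lit 3117) (.e (nat_lit 8326) (nat_lit 69) (.e (nat_lit 557098) (nat_lit 13) (.e (nat_lit 172115) (nat_lit 10) (.e (nat_lit 434244) (nat_lit 28) (.e (nat_lit 573471) (nat_lit 11) (.e (nat_lit 16384) (nat_lit 0) (.e (nat_lit 7374) (nat_lit 389) .nil))))))) (.g (nat_lit 1) (.e (nat_lit 129861) (nat_lit 0) .nil) .nil))) 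
(.lf (nat_lit 484876) (.g (nat_lit 4100) (.e (nat_lit 24604) (nat_lit 2) (.e (nat_lit 90170) (nat_lit 13) (.e (nat_lit 172113) (nat_lit 10) (.e (nat_lit 434247) (nat_lit 28) (.e (nat_lit 573478) (nat_lit 12) (.e (nat_lit 57574) (nat_lit 55) (.e (nat_lit 778464) (nat_lit 11) .nil))))))) (.g (nat_lit 1) (.e (nat_lit 132190) (nat_lit 0) .nil) .nil)))) (.nd (nat_lit 9) 
(.lf (nat_lit 484620) (.g (nat_lit 2722) (.e (nat_lit 24597) (nat_lit 1) (.e (nat_lit 57927) (nat_lit 282) (.e (nat_lit 163906) (nat_lit 12) (.e (nat_lit 426555) (nat_lit 32) (.e (nat_lit 376865) (nat_lit 22) (.e (nat_lit 90160) (nat_lit 11) .nil)))))) (.g (nat_lit 1) (.e (nat_lit 131801) (nat_lit 0) .nil) .nil))) 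
(.lf (nat_lit 485132) (.g (nat_lit 1583) (.e (nat_lit 24606) (nat_lit 3) (.e (nat_lit 98373) (nat_lit 29) (.e (nat_lit 450587) (nat_lit 10) (.e (nat_lit 573478) (nat_lit 12) .nil)))) (.g (nat_lit 0) (.e (nat_lit 132469) (nat_lit 0) .nil) .nil))))) (.nd (nat_lit 8) (.nd (nat_lit 9) 
(.lf (nat_lit 484492) (.g (nat_lit 4125) (.e (nat_lit 8234) (nat_lit 20) (.e (nat_lit 573482) (nat_lit 13) (.e (nat_lit 65619) (nat_lit 10) (.e (nat_lit 344117) (nat_lit 21) (.e (nat_lit 516106) (nat_lit 0) (.e (nat_lit 6986) (nat_lit 377) (.e (nat_lit 2513) (nat_lit 157) (.e (nat_lit 5373) (nat_lit 299) .nil)))))))) (.g (nat_lit 1) (.e (nat_lit 130477) (nat_lit 0) .nil) .nil))) 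
(.lf (nat_lit 485004) (.g (nat_lit 3281) (.e (nat_lit 24605) (nat_lit 2) (.e (nat_lit 90170) (nat_lit 13) (.e (nat_lit 172106) (nat_lit 10) (.e (nat_lit 434244) (nat_lit 28) (.e (nat_lit 573474) (nat_lit 12) (.e (nat_lit 65280) (nat_lit 55) (.e (nat_lit 778462) (nat_lit 11) .nil))))))) (.g (nat_lit 1) (.e (nat_lit 132324) (nat_lit 0) .nil) .nil)))) (.nd (nat_lit 9) 
(.lf (nat_lit 484748) (.g (nat_lit 1167) (.e (nat_lit 24603) (nat_lit 2) (.e (nat_lit 90178) (nat_lit 15) (.e (nat_lit 188440) (nat_lit 20) (.e (nat_lit 3307) (nat_lit 202) .nil)))) (.g (nat_lit 0) (.e (nat_lit 132051) (nat_lit 0) .nil) .nil))) 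
(.lf (nat_lit 485260) (.g (nat_lit 2231) (.e (nat_lit 24608) (nat_lit 3) (.e (nat_lit 98313) (nat_lit 9) (.e (nat_lit 336021) (nat_lit 3) (.e (nat_lit 98317) (nat_lit 9) (.e (nat_lit 335892) (nat_lit 0) .nil))))) (.g (nat_lit 0) (.e (nat_lit 132606) (nat_lit 0) .nil) .nil)))))) (.nd (nat_lit 7) (.nd (nat_lit 8) (.nd (nat_lit 9) 
(.lf (nat_lit 484428) (.g (nat_lit 3918) (.e (nat_lit 8213) (nat_lit 9) (.e (nat_lit 303117) (nat_lit 2) (.e (nat_lit 196666) (nat_lit 13) (.e (nat_lit 65617) (nat_lit 10) .nil)))) (.g (nat_lit 0) (.e (nat_lit 130039) (nat_lit 0) .nil) .nil))) 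
(.lf (nat_lit 484940) (.g (nat_lit 3330) (.e (nat_lit 24604) (nat_lit 2) (.e (nat_lit 90185) (nat_lit 17) (.e (nat_lit 237605) (nat_lit 9) (.e (nat_lit 425986) (nat_lit 0) (.e (nat_lit 3299) (nat_lit 202) (.e (nat_lit 573478) (nat_lit 12) (.e (nat_lit 57574) (nat_lit 55) (.e (nat_lit 778466) (nat_lit 11) .nil)))))))) (.g (nat_lit 1) (.e (nat_lit 132259) (nat_lit 0) .nil) .nil)))) (.nd (nat_lit 9) 
(.lf (nat_lit 484684) (.g (nat_lit 4482) (.e (nat_lit 24601) (nat_lit 2) (.e (nat_lit 90170) (nat_lit 13) (.e (nat_lit 172113) (nat_lit 10) (.e (nat_lit 434245) (nat_lit 28) (.e (nat_lit 573474) (nat_lit 12) (.e (nat_lit 57574) (nat_lit 55) (.e (nat_lit 778466) (nat_lit 11) .nil))))))) (.g (nat_lit 1) (.e (nat_lit 131975) (nat_lit 0) .nil) .nil))) 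
(.lf (nat_lit 485196) (.g (nat_lit 2153) (.e (nat_lit 24607) (nat_lit 3) (.e (nat_lit 98365) (nat_lit 26) (.e (nat_lit 426308) (nat_lit 12) (.e (nat_lit 475177) (nat_lit 24) (.e (nat_lit 516126) (nat_lit 2) .nil))))) (.g (nat_lit 0) (.e (nat_lit 132542) (nat_lit 0) .nil) .nil))))) (.nd (nat_lit 8) (.nd (nat_lit 9) 
(.lf (nat_lit 484556) (.g (nat_lit 3071) (.e (nat_lit 24580) (nat_lit 0) (.e (nat_lit 6718) (nat_lit 361) (.e (nat_lit 172145) (nat_lit 27) (.e (nat_lit 336059) (nat_lit 7) (.e (nat_lit 319504) (nat_lit 10) (.e (nat_lit 7936) (nat_lit 314) .nil)))))) (.g (nat_lit 1) (.e (nat_lit 131655) (nat_lit 0) .nil) .nil))) 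
(.lf (nat_lit 485068) (.g (nat_lit 2569) (.e (nat_lit 24605) (nat_lit 2) (.e (nat_lit 90170) (nat_lit 13) (.e (nat_lit 172120) (nat_lit 12) (.e (nat_lit 475177) (nat_lit 24) (.e (nat_lit 516126) (nat_lit 2) .nil))))) (.g (nat_lit 0) (.e (nat_lit 132389) (nat_lit 0) .nil) .nil)))) (.nd (nat_lit 9) 
(.lf (nat_lit 484812) (.g (nat_lit 6807) (.e (nat_lit 24604) (nat_lit 2) (.e (nat_lit 90170) (nat_lit 13) (.e (nat_lit 172106) (nat_lit 10) (.e (nat_lit 434242) (nat_lit 28) (.e (nat_lit 573474) (nat_lit 12) (.e (nat_lit 57574) (nat_lit 55) (.e (nat_lit 778466) (nat_lit 11) .nil))))))) (.g (nat_lit 1) (.e (nat_lit 132126) (nat_lit 0) .nil) .nil))) 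
(.lf (nat_lit 485324) (.g (nat_lit 1968) (.e (nat_lit 24608) (nat_lit 3) (.e (nat_lit 98365) (nat_lit 26) (.e (nat_lit 426188) (nat_lit 9) (.e (nat_lit 426428) (nat_lit 17) (.e (nat_lit 90164) (nat_lit 12) .nil))))) (.g (nat_lit 0) (.e (nat_lit 132681) (nat_lit 0) .nil) .nil))))))) (.nd (nat_lit 6) (.nd (nat_lit 7) (.nd (nat_lit 8) (.nd (nat_lit 9) 
(.lf (nat_lit 484396) (.g (nat_lit 4566) (.e (nat_lit 8326) (nat_lit 69) (.e (nat_lit 557107) (nat_lit 15) (.e (nat_lit 188450) (nat_lit 23) (.e (nat_lit 204846) (nat_lit 24) (.e (nat_lit 319504) (nat_lit 10) (.e (nat_lit 7936) (nat_lit 313) .nil)))))) (.g (nat_lit 1) (.e (nat_lit 129894) (nat_lit 0) .nil) .nil))) 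
(.lf (nat_lit 484908) (.g (nat_lit 584) (.e (nat_lit 24604) (nat_lit 2) (.e (nat_lit 90178) (nat_lit 15) (.e (nat_lit 188436) (nat_lit 20) .nil))) (.g (nat_lit 0) (.e (nat_lit 132226) (nat_lit 0) .nil) .nil)))) (.nd (nat_lit 9) 
(.lf (nat_lit 484652) (.g (nat_lit 3174) (.e (nat_lit 24598) (nat_lit 1) (.e (nat_lit 57931) (nat_lit 282) (.e (nat_lit 163902) (nat_lit 12) (.e (nat_lit 426555) (nat_lit 32) (.e (nat_lit 376865) (nat_lit 22) (.e (nat_lit 90160) (nat_lit 11) .nil)))))) (.g (nat_lit 1) (.e (nat_lit 131895) (nat_lit 0) .nil) .nil))) 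
(.lf (nat_lit 485164) (.g (nat_lit 2652) (.e (nat_lit 24607) (nat_lit 3) (.e (nat_lit 98365) (nat_lit 26) (.e (nat_lit 426187) (nat_lit 9) (.e (nat_lit 426436) (nat_lit 18) (.e (nat_lit 98338) (nat_lit 19) (.e (nat_lit 213030) (nat_lit 11) .nil)))))) (.g (nat_lit 1) (.e (nat_lit 132510) (nat_lit 0) .nil) .nil))))) (.nd (nat_lit 8) (.nd (nat_lit 9) 
(.lf (nat_lit 484524) (.g (nat_lit 1513) (.e (nat_lit 8533) (nat_lit 225) (.e (nat_lit 1374) (nat_lit 104) (.e (nat_lit 303119) (nat_lit 3) (.e (nat_lit 204846) (nat_lit 24) .nil)))) (.g (nat_lit 0) (.e (nat_lit 131326) (nat_lit 0) .nil) .nil))) 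
(.lf (nat_lit 485036) (.g (nat_lit 2996) (.e (nat_lit 24605) (nat_lit 2) (.e (nat_lit 90170) (nat_lit 13) (.e (nat_lit 172113) (nat_lit 10) (.e (nat_lit 434247) (nat_lit 28) (.e (nat_lit 573478) (nat_lit 12) (.e (nat_lit 57574) (nat_lit 55) (.e (nat_lit 778463) (nat_lit 11) .nil))))))) (.g (nat_lit 1) (.e (nat_lit 132357) (nat_lit 0) .nil) .nil)))) (.nd (nat_lit 9) 
(.lf (nat_lit 484780) (.g (nat_lit 2805) (.e (nat_lit 24604) (nat_lit 2) (.e (nat_lit 90169) (nat_lit 13) (.e (nat_lit 172113) (nat_lit 10) (.e (nat_lit 434247) (nat_lit 28) (.e (nat_lit 573478) (nat_lit 12) (.e (nat_lit 57574) (nat_lit 55) (.e (nat_lit 778465) (nat_lit 11) .nil))))))) (.g (nat_lit 1) (.e (nat_lit 132092) (nat_lit 0) .nil) .nil))) 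
(.lf (nat_lit 485292) (.g (nat_lit 1884) (.e (nat_lit 24608) (nat_lit 3) (.e (nat_lit 98363) (nat_lit 26) (.e (nat_lit 426318) (nat_lit 12) (.e (nat_lit 475179) (nat_lit 24) (.e (nat_lit 516105) (nat_lit 0) (.e (nat_lit 3617) (nat_lit 227) (.e (nat_lit 778462) (nat_lit 11) .nil))))))) (.g (nat_lit 1) (.e (nat_lit 132649) (nat_lit 0) .nil) .nil)))))) 
(.nd (nat_lit 7) (.nd (nat_lit 8) (.nd (nat_lit 9) 
(.lf (nat_lit 484460) (.g (nat_lit 1954) (.e (nat_lit 8225) (nat_lit 15) (.e (nat_lit 532513) (nat_lit 3) (.e (nat_lit 114714) (nat_lit 22) (.e (nat_lit 90172) (nat_lit 14) (.e (nat_lit 188160) (nat_lit 3) .nil))))) (.g (nat_lit 0) (.e (nat_lit 130087) (nat_lit 0) .nil) .nil))) 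
(.lf (nat_lit 484972) (.g (nat_lit 2869) (.e (nat_lit 24604) (nat_lit 2) (.e (nat_lit 90185) (nat_lit 17) (.e (nat_lit 237616) (nat_lit 12) (.e (nat_lit 475179) (nat_lit 24) (.e (nat_lit 516122) (nat_lit 2) (.e (nat_lit 213032) (nat_lit 11) .nil)))))) (.g (nat_lit 1) (.e (nat_lit 132291) (nat_lit 0) .nil) .nil)))) (.nd (nat_lit 9) 
(.lf (nat_lit 484716) (.g (nat_lit 2365) (.e (nat_lit 24602) (nat_lit 2) (.e (nat_lit 90185) (nat_lit 17) (.e (nat_lit 237619) (nat_lit 12) (.e (nat_lit 475177) (nat_lit 24) (.e (nat_lit 516126) (nat_lit 2) (.e (nat_lit 213032) (nat_lit 11) .nil)))))) (.g (nat_lit 1) (.e (nat_lit 132012) (nat_lit 0) .nil) .nil))) 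
(.lf (nat_lit 485228) (.g (nat_lit 4433) (.e (nat_lit 24607) (nat_lit 3) (.e (nat_lit 98373) (nat_lit 29) (.e (nat_lit 450587) (nat_lit 10) (.e (nat_lit 573477) (nat_lit 12) (.e (nat_lit 57575) (nat_lit 55) (.e (nat_lit 778463) (nat_lit 11) .nil)))))) (.g (nat_lit 1) (.e (nat_lit 132574) (nat_lit 0) .nil) .nil))))) (.nd (nat_lit 8) (.nd (nat_lit 9) 
(.lf (nat_lit 484588) (.g (nat_lit 2543) (.e (nat_lit 24595) (nat_lit 0) (.e (nat_lit 1800) (nat_lit 119) (.e (nat_lit 516165) (nat_lit 12) (.e (nat_lit 450586) (nat_lit 10) (.e (nat_lit 573477) (nat_lit 12) .nil))))) (.g (nat_lit 0) (.e (nat_lit 131743) (nat_lit 0) .nil) .nil))) 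
(.lf (nat_lit 485100) (.g (nat_lit 2247) (.e (nat_lit 24605) (nat_lit 2) (.e (nat_lit 90185) (nat_lit 17) (.e (nat_lit 237619) (nat_lit 12) (.e (nat_lit 475177) (nat_lit 24) (.e (nat_lit 516126) (nat_lit 2) (.e (nat_lit 213030) (nat_lit 11) .nil)))))) (.g (nat_lit 1) (.e (nat_lit 132424) (nat_lit 0) .nil) .nil)))) (.nd (nat_lit 9) 
(.lf (nat_lit 484844) (.g (nat_lit 2150) (.e (nat_lit 24604) (nat_lit 2) (.e (nat_lit 90170) (nat_lit 13) (.e (nat_lit 172106) (nat_lit 10) (.e (nat_lit 434245) (nat_lit 28) .nil)))) (.g (nat_lit 0) (.e (nat_lit 132158) (nat_lit 0) .nil) .nil))) 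
(.lf (nat_lit 485356) (.g (nat_lit 2174) (.e (nat_lit 24608) (nat_lit 3) (.e (nat_lit 98365) (nat_lit 26) (.e (nat_lit 426306) (nat_lit 12) (.e (nat_lit 475176) (nat_lit 24) (.e (nat_lit 516122) (nat_lit 2) (.e (nat_lit 213032) (nat_lit 11) .nil)))))) (.g (nat_lit 1) (.e (nat_lit 132713) (nat_lit 0) .nil) .nil)))))))) 
(.nd (nat_lit 5) (.nd (nat_lit 6) (.nd (nat_lit 7) (.nd (nat_lit 8) (.nd (nat_lit 9) 
(.lf (nat_lit 484380) (.g (nat_lit 2780) (.e (nat_lit 8326) (nat_lit 69) (.e (nat_lit 557101) (nat_lit 13) (.e (nat_lit 172115) (nat_lit 10) (.e (nat_lit 434231) (nat_lit 23) (.e (nat_lit 532569) (nat_lit 16) (.e (nat_lit 401414) (nat_lit 0) (.e (nat_lit 7936) (nat_lit 389) .nil))))))) (.g (nat_lit 1) (.e (nat_lit 129877) (nat_lit 0) .nil) .nil))) 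
(.lf (nat_lit 484892) (.g (nat_lit 2431) (.e (nat_lit 24604) (nat_lit 2) (.e (nat_lit 90176) (nat_lit 15) (.e (nat_lit 188420) (nat_lit 0) (.e (nat_lit 1800) (nat_lit 119) (.e (nat_lit 516126) (nat_lit 2) (.e (nat_lit 213032) (nat_lit 11) .nil)))))) (.g (nat_lit 1) (.e (nat_lit 132207) (nat_lit 0) .nil) .nil)))) (.nd (nat_lit 9) 
(.lf (nat_lit 484636) (.g (nat_lit 2938) (.e (nat_lit 24598) (nat_lit 1) (.e (nat_lit 57926) (nat_lit 282) (.e (nat_lit 163905) (nat_lit 12) (.e (nat_lit 426555) (nat_lit 32) (.e (nat_lit 376865) (nat_lit 22) (.e (nat_lit 90160) (nat_lit 11) .nil)))))) (.g (nat_lit 1) (.e (nat_lit 131843) (nat_lit 0) .nil) .nil))) 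
(.lf (nat_lit 485148) (.g (nat_lit 2929) (.e (nat_lit 24607) (nat_lit 3) (.e (nat_lit 98359) (nat_lit 26) (.e (nat_lit 426286) (nat_lit 10) (.e (nat_lit 434247) (nat_lit 28) (.e (nat_lit 573477) (nat_lit 12) (.e (nat_lit 57574) (nat_lit 55) (.e (nat_lit 778463) (nat_lit 11) .nil))))))) (.g (nat_lit 1) (.e (nat_lit 132494) (nat_lit 0) .nil) .nil))))) (.nd (nat_lit 8) (.nd (nat_lit 9) 
(.lf (nat_lit 484508) (.g (nat_lit 3299) (.e (nat_lit 8234) (nat_lit 20) (.e (nat_lit 573489) (nat_lit 14) (.e (nat_lit 73755) (nat_lit 8) (.e (nat_lit 557104) (nat_lit 14) (.e (nat_lit 188160) (nat_lit 3) (.e (nat_lit 516098) (nat_lit 0) (.e (nat_lit 3496) (nat_lit 218) (.e (nat_lit 704726) (nat_lit 10) .nil)))))))) (.g (nat_lit 1) (.e (nat_lit 130788) (nat_lit 0) .nil) .nil))) 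
(.lf (nat_lit 485020) (.g (nat_lit 2133) (.e (nat_lit 24605) (nat_lit 2) (.e (nat_lit 90170) (nat_lit 13) (.e (nat_lit 172113) (nat_lit 10) (.e (nat_lit 434247) (nat_lit 28) (.e (nat_lit 573457) (nat_lit 9) .nil))))) (.g (nat_lit 0) (.e (nat_lit 132341) (nat_lit 0) .nil) .nil)))) (.nd (nat_lit 9) 
(.lf (nat_lit 484764) (.g (nat_lit 2156) (.e (nat_lit 24603) (nat_lit 2) (.e (nat_lit 90185) (nat_lit 17) (.e (nat_lit 237619) (nat_lit 12) (.e (nat_lit 475179) (nat_lit 24) (.e (nat_lit 516126) (nat_lit 2) (.e (nat_lit 213032) (nat_lit 11) .nil)))))) (.g (nat_lit 1) (.e (nat_lit 132067) (nat_lit 0) .nil) .nil))) 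
(.lf (nat_lit 485276) (.g (nat_lit 3231) (.e (nat_lit 24608) (nat_lit 3) (.e (nat_lit 98359) (nat_lit 26) (.e (nat_lit 426286) (nat_lit 10) (.e (nat_lit 434247) (nat_lit 28) (.e (nat_lit 573477) (nat_lit 12) (.e (nat_lit 57574) (nat_lit 55) (.e (nat_lit 778465) (nat_lit 11) .nil))))))) (.g (nat_lit 1) (.e (nat_lit 132633) (nat_lit 0) .nil) .nil)))))) 
(.nd (nat_lit 7) (.nd (nat_lit 8) (.nd (nat_lit 9) 
(.lf (nat_lit 484444) (.g (nat_lit 3250) (.e (nat_lit 8213) (nat_lit 9) (.e (nat_lit 303144) (nat_lit 13) (.e (nat_lit 483413) (nat_lit 27) (.e (nat_lit 401448) (nat_lit 10) (.e (nat_lit 434206) (nat_lit 18) .nil))))) (.g (nat_lit 0) (.e (nat_lit 130060) (nat_lit 0) .nil) .nil))) 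
(.lf (nat_lit 484956) (.g (nat_lit 1679) (.e (nat_lit 24604) (nat_lit 2) (.e (nat_lit 90185) (nat_lit 17) (.e (nat_lit 237605) (nat_lit 9) (.e (nat_lit 426438) (nat_lit 18) (.e (nat_lit 106240) (nat_lit 19) (.e (nat_lit 213032) (nat_lit 11) .nil)))))) (.g (nat_lit 1) (.e (nat_lit 132275) (nat_lit 0) .nil) .nil)))) (.nd (nat_lit 9) 
(.lf (nat_lit 484700) (.g (nat_lit 423) (.e (nat_lit 24601) (nat_lit 2) (.e (nat_lit 90176) (nat_lit 15) (.e (nat_lit 196352) (nat_lit 3) .nil))) (.g (nat_lit 0) (.e (nat_lit 131991) (nat_lit 0) .nil) .nil))) 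
(.lf (nat_lit 485212) (.g (nat_lit 1935) (.e (nat_lit 24607) (nat_lit 3) (.e (nat_lit 98372) (nat_lit 29) (.e (nat_lit 450588) (nat_lit 10) (.e (nat_lit 573475) (nat_lit 12) .nil)))) (.g (nat_lit 0) (.e (nat_lit 132558) (nat_lit 0) .nil) .nil))))) (.nd (nat_lit 8) (.nd (nat_lit 9) 
(.lf (nat_lit 484572) (.g (nat_lit 4296) (.e (nat_lit 24584) (nat_lit 0) (.e (nat_lit 6666) (nat_lit 357) (.e (nat_lit 2664) (nat_lit 167) (.e (nat_lit 196666) (nat_lit 13) (.e (nat_lit 65610) (nat_lit 10) (.e (nat_lit 344129) (nat_lit 26) (.e (nat_lit 557087) (nat_lit 11) .nil))))))) (.g (nat_lit 1) (.e (nat_lit 131715) (nat_lit 0) .nil) .nil))) 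
(.lf (nat_lit 485084) (.g (nat_lit 593) (.e (nat_lit 24605) (nat_lit 2) (.e (nat_lit 90178) (nat_lit 15) (.e (nat_lit 188419) (nat_lit 0) .nil))) (.g (nat_lit 0) (.e (nat_lit 132406) (nat_lit 0) .nil) .nil)))) (.nd (nat_lit 9) 
(.lf (nat_lit 484828) (.g (nat_lit 4823) (.e (nat_lit 24604) (nat_lit 2) (.e (nat_lit 90170) (nat_lit 13) (.e (nat_lit 172106) (nat_lit 10) (.e (nat_lit 434244) (nat_lit 28) (.e (nat_lit 573473) (nat_lit 12) (.e (nat_lit 57574) (nat_lit 55) (.e (nat_lit 778466) (nat_lit 11) .nil))))))) (.g (nat_lit 1) (.e (nat_lit 132142) (nat_lit 0) .nil) .nil))) 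
(.lf (nat_lit 485340) (.g (nat_lit 1330) (.e (nat_lit 24608) (nat_lit 3) (.e (nat_lit 98365) (nat_lit 26) (.e (nat_lit 426198) (nat_lit 9) (.e (nat_lit 426436) (nat_lit 18) .nil)))) (.g (nat_lit 0) (.e (nat_lit 132697) (nat_lit 0) .nil) .nil))))))) (.nd (nat_lit 6) (.nd (nat_lit 7) (.nd (nat_lit 8) (.nd (nat_lit 9) 
(.lf (nat_lit 484412) (.g (nat_lit 2825) (.e (nat_lit 8356) (nat_lit 88) (.e (nat_lit 712755) (nat_lit 30) (.e (nat_lit 450588) (nat_lit 10) (.e (nat_lit 573475) (nat_lit 12) (.e (nat_lit 57509) (nat_lit 39) .nil))))) (.g (nat_lit 0) (.e (nat_lit 129981) (nat_lit 0) .nil) .nil))) 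
(.lf (nat_lit 484924) (.g (nat_lit 3100) (.e (nat_lit 24604) (nat_lit 2) (.e (nat_lit 90185) (nat_lit 17) (.e (nat_lit 237582) (nat_lit 1) (.e (nat_lit 164332) (nat_lit 230) (.e (nat_lit 163874) (nat_lit 3) (.e (nat_lit 204830) (nat_lit 18) (.e (nat_lit 57908) (nat_lit 278) (.e (nat_lit 2553) (nat_lit 159) .nil)))))))) (.g (nat_lit 1) (.e (nat_lit 132243) (nat_lit 0) .nil) .nil)))) 
(.nd (nat_lit 9) 
(.lf (nat_lit 484668) (.g (nat_lit 2507) (.e (nat_lit 24599) (nat_lit 1) (.e (nat_lit 57930) (nat_lit 282) (.e (nat_lit 163905) (nat_lit 12) (.e (nat_lit 426555) (nat_lit 32) (.e (nat_lit 376865) (nat_lit 22) (.e (nat_lit 90158) (nat_lit 11) .nil)))))) (.g (nat_lit 1) (.e (nat_lit 131938) (nat_lit 0) .nil) .nil))) 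
(.lf (nat_lit 485180) (.g (nat_lit 1275) (.e (nat_lit 24607) (nat_lit 3) (.e (nat_lit 98365) (nat_lit 26) (.e (nat_lit 426188) (nat_lit 9) (.e (nat_lit 426437) (nat_lit 18) .nil)))) (.g (nat_lit 0) (.e (nat_lit 132526) (nat_lit 0) .nil) .nil))))) (.nd (nat_lit 8) (.nd (nat_lit 9) 
(.lf (nat_lit 484540) (.g (nat_lit 2878) (.e (nat_lit 24576) (nat_lit 0) (.e (nat_lit 1799) (nat_lit 119) (.e (nat_lit 516166) (nat_lit 12) (.e (nat_lit 450587) (nat_lit 10) (.e (nat_lit 573478) (nat_lit 12) .nil))))) (.g (nat_lit 0) (.e (nat_lit 131563) (nat_lit 0) .nil) .nil))) 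
(.lf (nat_lit 485052) (.g (nat_lit 2373) (.e (nat_lit 24605) (nat_lit 2) (.e (nat_lit 90170) (nat_lit 13) (.e (nat_lit 172113) (nat_lit 10) (.e (nat_lit 434248) (nat_lit 28) (.e (nat_lit 573475) (nat_lit 12) (.e (nat_lit 65280) (nat_lit 55) (.e (nat_lit 786176) (nat_lit 11) .nil))))))) (.g (nat_lit 1) (.e (nat_lit 132373) (nat_lit 0) .nil) .nil)))) (.nd (nat_lit 9) 
(.lf (nat_lit 484796) (.g (nat_lit 3467) (.e (nat_lit 24604) (nat_lit 2) (.e (nat_lit 90170) (nat_lit 13) (.e (nat_lit 172106) (nat_lit 10) (.e (nat_lit 434231) (nat_lit 23) (.e (nat_lit 532499) (nat_lit 1) (.e (nat_lit 65280) (nat_lit 233) (.e (nat_lit 2554) (nat_lit 159) .nil))))))) (.g (nat_lit 1) (.e (nat_lit 132110) (nat_lit 0) .nil) .nil))) 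
(.lf (nat_lit 485308) (.g (nat_lit 5137) (.e (nat_lit 24608) (nat_lit 3) (.e (nat_lit 98365) (nat_lit 26) (.e (nat_lit 426100) (nat_lit 1) (.e (nat_lit 164332) (nat_lit 230) (.e (nat_lit 163874) (nat_lit 3) (.e (nat_lit 204830) (nat_lit 18) (.e (nat_lit 57908) (nat_lit 278) (.e (nat_lit 2553) (nat_lit 159) .nil)))))))) (.g (nat_lit 1) (.e (nat_lit 132665) (nat_lit 0) .nil) .nil)))))) 
(.nd (nat_lit 7) (.nd (nat_lit 8) (.nd (nat_lit 9) 
(.lf (nat_lit 484476) (.g (nat_lit 2187) (.e (nat_lit 8232) (nat_lit 20) (.e (nat_lit 573489) (nat_lit 14) (.e (nat_lit 73755) (nat_lit 8) (.e (nat_lit 557105) (nat_lit 14) .nil)))) (.g (nat_lit 0) (.e (nat_lit 130363) (nat_lit 0) .nil) .nil))) 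
(.lf (nat_lit 484988) (.g (nat_lit 2551) (.e (nat_lit 24605) (nat_lit 2) (.e (nat_lit 90169) (nat_lit 13) (.e (nat_lit 172119) (nat_lit 12) (.e (nat_lit 475179) (nat_lit 24) (.e (nat_lit 516124) (nat_lit 2) (.e (nat_lit 213030) (nat_lit 11) .nil)))))) (.g (nat_lit 1) (.e (nat_lit 132308) (nat_lit 0) .nil) .nil)))) (.nd (nat_lit 9) 
(.lf (nat_lit 484732) (.g (nat_lit 2279) (.e (nat_lit 24603) (nat_lit 2) (.e (nat_lit 90169) (nat_lit 13) (.e (nat_lit 172113) (nat_lit 10) (.e (nat_lit 434247) (nat_lit 28) (.e (nat_lit 573478) (nat_lit 12) (.e (nat_lit 57574) (nat_lit 55) (.e (nat_lit 778465) (nat_lit 11) .nil))))))) (.g (nat_lit 1) (.e (nat_lit 132029) (nat_lit 0) .nil) .nil))) 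
(.lf (nat_lit 485244) (.g (nat_lit 4394) (.e (nat_lit 24607) (nat_lit 3) (.e (nat_lit 98373) (nat_lit 29) (.e (nat_lit 450588) (nat_lit 10) (.e (nat_lit 573475) (nat_lit 12) (.e (nat_lit 57574) (nat_lit 55) (.e (nat_lit 778463) (nat_lit 11) .nil)))))) (.g (nat_lit 1) (.e (nat_lit 132590) (nat_lit 0) .nil) .nil))))) (.nd (nat_lit 8) (.nd (nat_lit 9) 
(.lf (nat_lit 484604) (.g (nat_lit 1794) (.e (nat_lit 24597) (nat_lit 1) (.e (nat_lit 57926) (nat_lit 282) (.e (nat_lit 163903) (nat_lit 12) (.e (nat_lit 426556) (nat_lit 32) .nil)))) (.g (nat_lit 0) (.e (nat_lit 131769) (nat_lit 0) .nil) .nil))) 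
(.lf (nat_lit 485116) (.g (nat_lit 3859) (.e (nat_lit 24606) (nat_lit 3) (.e (nat_lit 98359) (nat_lit 26) (.e (nat_lit 426286) (nat_lit 10) (.e (nat_lit 434248) (nat_lit 28) (.e (nat_lit 573475) (nat_lit 12) (.e (nat_lit 57574) (nat_lit 55) (.e (nat_lit 778464) (nat_lit 11) .nil))))))) (.g (nat_lit 1) (.e (nat_lit 132440) (nat_lit 0) .nil) .nil)))) (.nd (nat_lit 9) 
(.lf (nat_lit 484860) (.g (nat_lit 4150) (.e (nat_lit 24604) (nat_lit 2) (.e (nat_lit 90170) (nat_lit 13) (.e (nat_lit 172106) (nat_lit 10) (.e (nat_lit 434248) (nat_lit 28) (.e (nat_lit 573475) (nat_lit 12) (.e (nat_lit 57574) (nat_lit 55) (.e (nat_lit 778465) (nat_lit 11) .nil))))))) (.g (nat_lit 1) (.e (nat_lit 132174) (nat_lit 0) .nil) .nil))) 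
(.lf (nat_lit 485372) (.g (nat_lit 1749) (.e (nat_lit 24608) (nat_lit 3) (.e (nat_lit 98365) (nat_lit 26) (.e (nat_lit 426306) (nat_lit 12) (.e (nat_lit 475179) (nat_lit 24) (.e (nat_lit 516100) (nat_lit 0) .nil))))) (.g (nat_lit 0) (.e (nat_lit 132729) (nat_lit 0) .nil) .nil))))))))))) 
(.nd (nat_lit 2) (.nd (nat_lit 3) (.nd (nat_lit 4) (.nd (nat_lit 5) (.nd (nat_lit 6) 
(.nd (nat_lit 7) (.nd (nat_lit 8) (.nd (nat_lit 9) 
(.lf (nat_lit 484354) (.g (nat_lit 4420) (.e (nat_lit 8325) (nat_lit 69) (.e (nat_lit 557109) (nat_lit 15) (.e (nat_lit 188452) (nat_lit 23) (.e (nat_lit 204846) (nat_lit 24) (.e (nat_lit 319502) (nat_lit 10) .nil))))) (.g (nat_lit 0) (.e (nat_lit 129850) (nat_lit 0) .nil) .nil))) 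
(.lf (nat_lit 484866) (.g (nat_lit 4073) (.e (nat_lit 24604) (nat_lit 2) (.e (nat_lit 90170) (nat_lit 13) (.e (nat_lit 172112) (nat_lit 10) (.e (nat_lit 434248) (nat_lit 28) (.e (nat_lit 573475) (nat_lit 12) (.e (nat_lit 57574) (nat_lit 55) (.e (nat_lit 778466) (nat_lit 11) .nil))))))) (.g (nat_lit 1) (.e (nat_lit 132180) (nat_lit 0) .nil) .nil)))) (.nd (nat_lit 9) 
(.lf (nat_lit 484610) (.g (nat_lit 2631) (.e (nat_lit 24597) (nat_lit 1) (.e (nat_lit 57926) (nat_lit 282) (.e (nat_lit 163906) (nat_lit 12) (.e (nat_lit 426555) (nat_lit 32) (.e (nat_lit 376862) (nat_lit 22) (.e (nat_lit 90160) (nat_lit 11) .nil)))))) (.g (nat_lit 1) (.e (nat_lit 131777) (nat_lit 0) .nil) .nil))) 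
(.lf (nat_lit 485122) (.g (nat_lit 2384) (.e (nat_lit 24606) (nat_lit 3) (.e (nat_lit 98373) (nat_lit 29) (.e (nat_lit 450586) (nat_lit 10) (.e (nat_lit 573475) (nat_lit 12) (.e (nat_lit 57574) (nat_lit 55) .nil))))) (.g (nat_lit 0) (.e (nat_lit 132459) (nat_lit 0) .nil) .nil))))) (.nd (nat_lit 8) (.nd (nat_lit 9) 
(.lf (nat_lit 484482) (.g (nat_lit 3633) (.e (nat_lit 8234) (nat_lit 20) (.e (nat_lit 573482) (nat_lit 13) (.e (nat_lit 65619) (nat_lit 10) (.e (nat_lit 344117) (nat_lit 21) (.e (nat_lit 516106) (nat_lit 0) (.e (nat_lit 6986) (nat_lit 377) (.e (nat_lit 2397) (nat_lit 157) (.e (nat_lit 5376) (nat_lit 299) .nil)))))))) (.g (nat_lit 1) (.e (nat_lit 130467) (nat_lit 0) .nil) .nil))) 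
(.lf (nat_lit 484994) (.g (nat_lit 2743) (.e (nat_lit 24605) (nat_lit 2) (.e (nat_lit 90170) (nat_lit 13) (.e (nat_lit 172106) (nat_lit 10) (.e (nat_lit 434231) (nat_lit 23) (.e (nat_lit 532500) (nat_lit 1) .nil))))) (.g (nat_lit 0) (.e (nat_lit 132314) (nat_lit 0) .nil) .nil)))) (.nd (nat_lit 9) 
(.lf (nat_lit 484738) (.g (nat_lit 939) (.e (nat_lit 24603) (nat_lit 2) (.e (nat_lit 90176) (nat_lit 15) (.e (nat_lit 188420) (nat_lit 0) (.e (nat_lit 1800) (nat_lit 119) (.e (nat_lit 516126) (nat_lit 2) .nil))))) (.g (nat_lit 0) (.e (nat_lit 132041) (nat_lit 0) .nil) .nil))) 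
(.lf (nat_lit 485250) (.g (nat_lit 2141) (.e (nat_lit 24607) (nat_lit 3) (.e (nat_lit 98374) (nat_lit 29) (.e (nat_lit 450586) (nat_lit 10) (.e (nat_lit 573477) (nat_lit 12) (.e (nat_lit 57574) (nat_lit 55) (.e (nat_lit 778464) (nat_lit 11) .nil)))))) (.g (nat_lit 1) (.e (nat_lit 132596) (nat_lit 0) .nil) .nil)))))) (.nd (nat_lit 7) (.nd (nat_lit 8) (.nd (nat_lit 9) 
(.lf (nat_lit 484418) (.g (nat_lit 515) (.e (nat_lit 8211) (nat_lit 9) (.e (nat_lit 303143) (nat_lit 12) (.e (nat_lit 475185) (nat_lit 29) .nil))) (.g (nat_lit 0) (.e (nat_lit 130000) (nat_lit 0) .nil) .nil))) 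
(.lf (nat_lit 484930) (.g (nat_lit 2226) (.e (nat_lit 24604) (nat_lit 2) (.e (nat_lit 90185) (nat_lit 17) (.e (nat_lit 237601) (nat_lit 9) (.e (nat_lit 426428) (nat_lit 17) (.e (nat_lit 90165) (nat_lit 12) (.e (nat_lit 164045) (nat_lit 55) (.e (nat_lit 778462) (nat_lit 11) .nil))))))) (.g (nat_lit 1) (.e (nat_lit 132249) (nat_lit 0) .nil) .nil)))) (.nd (nat_lit 9) 
(.lf (nat_lit 484674) (.g (nat_lit 1642) (.e (nat_lit 24600) (nat_lit 1) (.e (nat_lit 57930) (nat_lit 282) (.e (nat_lit 163902) (nat_lit 12) (.e (nat_lit 426555) (nat_lit 32) (.e (nat_lit 376865) (nat_lit 22) .nil))))) (.g (nat_lit 0) (.e (nat_lit 131959) (nat_lit 0) .nil) .nil))) 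
(.lf (nat_lit 485186) (.g (nat_lit 1936) (.e (nat_lit 24607) (nat_lit 3) (.e (nat_lit 98365) (nat_lit 26) (.e (nat_lit 426306) (nat_lit 12) (.e (nat_lit 475175) (nat_lit 24) (.e (nat_lit 516124) (nat_lit 2) (.e (nat_lit 213030) (nat_lit 11) .nil)))))) (.g (nat_lit 1) (.e (nat_lit 132532) (nat_lit 0) .nil) .nil))))) (.nd (nat_lit 8) (.nd (nat_lit 9) 
(.lf (nat_lit 484546) (.g (nat_lit 3260) (.e (nat_lit 24577) (nat_lit 0) (.e (nat_lit 6619) (nat_lit 357) (.e (nat_lit 2685) (nat_lit 168) (.e (nat_lit 204869) (nat_lit 29) (.e (nat_lit 360475) (nat_lit 8) (.e (nat_lit 557086) (nat_lit 11) .nil)))))) (.g (nat_lit 1) (.e (nat_lit 131575) (nat_lit 0) .nil) .nil))) 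
(.lf (nat_lit 485058) (.g (nat_lit 2372) (.e (nat_lit 24605) (nat_lit 2) (.e (nat_lit 90170) (nat_lit 13) (.e (nat_lit 172118) (nat_lit 12) (.e (nat_lit 475177) (nat_lit 24) (.e (nat_lit 516125) (nat_lit 2) (.e (nat_lit 213032) (nat_lit 11) .nil)))))) (.g (nat_lit 1) (.e (nat_lit 132379) (nat_lit 0) .nil) .nil)))) (.nd (nat_lit 9) 
(.lf (nat_lit 484802) (.g (nat_lit 3792) (.e (nat_lit 24604) (nat_lit 2) (.e (nat_lit 90170) (nat_lit 13) (.e (nat_lit 172106) (nat_lit 10) (.e (nat_lit 434231) (nat_lit 23) (.e (nat_lit 532500) (nat_lit 1) (.e (nat_lit 57777) (nat_lit 233) (.e (nat_lit 2551) (nat_lit 159) .nil))))))) (.g (nat_lit 1) (.e (nat_lit 132116) (nat_lit 0) .nil) .nil))) 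
(.lf (nat_lit 485314) (.g (nat_lit 2519) (.e (nat_lit 24608) (nat_lit 3) (.e (nat_lit 98365) (nat_lit 26) (.e (nat_lit 426187) (nat_lit 9) (.e (nat_lit 426428) (nat_lit 17) (.e (nat_lit 90165) (nat_lit 12) (.e (nat_lit 164042) (nat_lit 55) (.e (nat_lit 786176) (nat_lit 11) .nil))))))) (.g (nat_lit 1) (.e (nat_lit 132671) (nat_lit 0) .nil) .nil))))))) 
(.nd (nat_lit 6) (.nd (nat_lit 7) (.nd (nat_lit 8) (.nd (nat_lit 9) 
(.lf (nat_lit 484386) (.g (nat_lit 3147) (.e (nat_lit 8326) (nat_lit 69) (.e (nat_lit 557105) (nat_lit 14) (.e (nat_lit 180252) (nat_lit 10) (.e (nat_lit 573488) (nat_lit 14) (.e (nat_lit 81664) (nat_lit 5) .nil))))) (.g (nat_lit 0) (.e (nat_lit 129883) (nat_lit 0) .nil) .nil))) 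
(.lf (nat_lit 484898) (.g (nat_lit 1145) (.e (nat_lit 24604) (nat_lit 2) (.e (nat_lit 90176) (nat_lit 15) (.e (nat_lit 188450) (nat_lit 23) (.e (nat_lit 204817) (nat_lit 17) .nil)))) (.g (nat_lit 0) (.e (nat_lit 132214) (nat_lit 0) .nil) .nil)))) (.nd (nat_lit 9) 
(.lf (nat_lit 484642) (.g (nat_lit 3078) (.e (nat_lit 24598) (nat_lit 1) (.e (nat_lit 57927) (nat_lit 282) (.e (nat_lit 163903) (nat_lit 12) (.e (nat_lit 426555) (nat_lit 32) (.e (nat_lit 376865) (nat_lit 22) (.e (nat_lit 90160) (nat_lit 11) .nil)))))) (.g (nat_lit 1) (.e (nat_lit 131861) (nat_lit 0) .nil) .nil))) 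
(.lf (nat_lit 485154) (.g (nat_lit 3104) (.e (nat_lit 24607) (nat_lit 3) (.e (nat_lit 98359) (nat_lit 26) (.e (nat_lit 426286) (nat_lit 10) (.e (nat_lit 434247) (nat_lit 28) (.e (nat_lit 573478) (nat_lit 12) (.e (nat_lit 57574) (nat_lit 55) (.e (nat_lit 778464) (nat_lit 11) .nil))))))) (.g (nat_lit 1) (.e (nat_lit 132500) (nat_lit 0) .nil) .nil))))) (.nd (nat_lit 8) (.nd (nat_lit 9) 
(.lf (nat_lit 484514) (.g (nat_lit 1591) (.e (nat_lit 8399) (nat_lit 120) (.e (nat_lit 2649) (nat_lit 166) (.e (nat_lit 188434) (nat_lit 20) (.e (nat_lit 3577) (nat_lit 223) .nil)))) (.g (nat_lit 0) (.e (nat_lit 131036) (nat_lit 0) .nil) .nil))) 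
(.lf (nat_lit 485026) (.g (nat_lit 4086) (.e (nat_lit 24605) (nat_lit 2) (.e (nat_lit 90170) (nat_lit 13) (.e (nat_lit 172113) (nat_lit 10) (.e (nat_lit 434247) (nat_lit 28) (.e (nat_lit 573477) (nat_lit 12) (.e (nat_lit 57574) (nat_lit 55) (.e (nat_lit 778465) (nat_lit 11) .nil))))))) (.g (nat_lit 1) (.e (nat_lit 132347) (nat_lit 0) .nil) .nil)))) (.nd (nat_lit 9) 
(.lf (nat_lit 484770) (.g (nat_lit 3312) (.e (nat_lit 24604) (nat_lit 2) (.e (nat_lit 90167) (nat_lit 13) (.e (nat_lit 172111) (nat_lit 10) (.e (nat_lit 434248) (nat_lit 28) (.e (nat_lit 573475) (nat_lit 12) (.e (nat_lit 57574) (nat_lit 55) (.e (nat_lit 778466) (nat_lit 11) .nil))))))) (.g (nat_lit 1) (.e (nat_lit 132082) (nat_lit 0) .nil) .nil))) 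
(.lf (nat_lit 485282) (.g (nat_lit 3845) (.e (nat_lit 24608) (nat_lit 3) (.e (nat_lit 98362) (nat_lit 26) (.e (nat_lit 426286) (nat_lit 10) (.e (nat_lit 434245) (nat_lit 28) (.e (nat_lit 573474) (nat_lit 12) (.e (nat_lit 57574) (nat_lit 55) (.e (nat_lit 778466) (nat_lit 11) .nil))))))) (.g (nat_lit 1) (.e (nat_lit 132639) (nat_lit 0) .nil) .nil)))))) 
(.nd (nat_lit 7) (.nd (nat_lit 8) (.nd (nat_lit 9) 
(.lf (nat_lit 484450) (.g (nat_lit 6416) (.e (nat_lit 8213) (nat_lit 9) (.e (nat_lit 303145) (nat_lit 13) (.e (nat_lit 483413) (nat_lit 27) (.e (nat_lit 401447) (nat_lit 10) (.e (nat_lit 434202) (nat_lit 18) .nil))))) (.g (nat_lit 0) (.e (nat_lit 130067) (nat_lit 0) .nil) .nil))) 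
(.lf (nat_lit 484962) (.g (nat_lit 1181) (.e (nat_lit 24604) (nat_lit 2) (.e (nat_lit 90185) (nat_lit 17) (.e (nat_lit 237615) (nat_lit 12) .nil))) (.g (nat_lit 0) (.e (nat_lit 132281) (nat_lit 0) .nil) .nil)))) (.nd (nat_lit 9) 
(.lf (nat_lit 484706) (.g (nat_lit 3483) (.e (nat_lit 24602) (nat_lit 2) (.e (nat_lit 90170) (nat_lit 13) (.e (nat_lit 172113) (nat_lit 10) (.e (nat_lit 434247) (nat_lit 28) (.e (nat_lit 573477) (nat_lit 12) (.e (nat_lit 57574) (nat_lit 55) (.e (nat_lit 778464) (nat_lit 11) .nil))))))) (.g (nat_lit 1) (.e (nat_lit 132002) (nat_lit 0) .nil) .nil))) 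
(.lf (nat_lit 485218) (.g (nat_lit 2309) (.e (nat_lit 24607) (nat_lit 3) (.e (nat_lit 98373) (nat_lit 29) (.e (nat_lit 450587) (nat_lit 10) (.e (nat_lit 573449) (nat_lit 9) .nil)))) (.g (nat_lit 0) (.e (nat_lit 132564) (nat_lit 0) .nil) .nil))))) (.nd (nat_lit 8) (.nd (nat_lit 9) 
(.lf (nat_lit 484578) (.g (nat_lit 4540) (.e (nat_lit 24591) (nat_lit 0) (.e (nat_lit 1802) (nat_lit 119) (.e (nat_lit 516166) (nat_lit 12) (.e (nat_lit 450587) (nat_lit 10) (.e (nat_lit 573477) (nat_lit 12) .nil))))) (.g (nat_lit 0) (.e (nat_lit 131730) (nat_lit 0) .nil) .nil))) 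
(.lf (nat_lit 485090) (.g (nat_lit 2141) (.e (nat_lit 24605) (nat_lit 2) (.e (nat_lit 90185) (nat_lit 17) (.e (nat_lit 237616) (nat_lit 12) (.e (nat_lit 475177) (nat_lit 24) (.e (nat_lit 516126) (nat_lit 2) (.e (nat_lit 213030) (nat_lit 11) .nil)))))) (.g (nat_lit 1) (.e (nat_lit 132414) (nat_lit 0) .nil) .nil)))) (.nd (nat_lit 9) 
(.lf (nat_lit 484834) (.g (nat_lit 2982) (.e (nat_lit 24604) (nat_lit 2) (.e (nat_lit 90170) (nat_lit 13) (.e (nat_lit 172106) (nat_lit 10) (.e (nat_lit 434244) (nat_lit 28) (.e (nat_lit 573474) (nat_lit 12) (.e (nat_lit 65280) (nat_lit 55) (.e (nat_lit 778465) (nat_lit 11) .nil))))))) (.g (nat_lit 1) (.e (nat_lit 132148) (nat_lit 0) .nil) .nil))) 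
(.lf (nat_lit 485346) (.g (nat_lit 1835) (.e (nat_lit 24608) (nat_lit 3) (.e (nat_lit 98365) (nat_lit 26) (.e (nat_lit 426298) (nat_lit 11) (.e (nat_lit 458789) (nat_lit 23) (.e (nat_lit 532499) (nat_lit 1) (.e (nat_lit 65280) (nat_lit 233) (.e (nat_lit 2557) (nat_lit 159) .nil))))))) (.g (nat_lit 1) (.e (nat_lit 132703) (nat_lit 0) .nil) .nil)))))))) 
(.nd (nat_lit 5) (.nd (nat_lit 6) (.nd (nat_lit 7) (.nd (nat_lit 8) (.nd (nat_lit 9) 
(.lf (nat_lit 484370) (.g (nat_lit 4293) (.e (nat_lit 8326) (nat_lit 69) (.e (nat_lit 557100) (nat_lit 13) (.e (nat_lit 172106) (nat_lit 10) (.e (nat_lit 434231) (nat_lit 23) (.e (nat_lit 532522) (nat_lit 7) (.e (nat_lit 319504) (nat_lit 10) (.e (nat_lit 7936) (nat_lit 313) .nil))))))) (.g (nat_lit 1) (.e (nat_lit 129867) (nat_lit 0) .nil) .nil))) 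
(.lf (nat_lit 484882) (.g (nat_lit 2653) (.e (nat_lit 24604) (nat_lit 2) (.e (nat_lit 90170) (nat_lit 13) (.e (nat_lit 172120) (nat_lit 12) (.e (nat_lit 475177) (nat_lit 24) (.e (nat_lit 516124) (nat_lit 2) .nil))))) (.g (nat_lit 0) (.e (nat_lit 132196) (nat_lit 0) .nil) .nil)))) (.nd (nat_lit 9) 
(.lf (nat_lit 484626) (.g (nat_lit 1817) (.e (nat_lit 24598) (nat_lit 1) (.e (nat_lit 57925) (nat_lit 282) (.e (nat_lit 163907) (nat_lit 12) (.e (nat_lit 426555) (nat_lit 32) (.e (nat_lit 376862) (nat_lit 22) .nil))))) (.g (nat_lit 0) (.e (nat_lit 131829) (nat_lit 0) .nil) .nil))) 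
(.lf (nat_lit 485138) (.g (nat_lit 3668) (.e (nat_lit 24606) (nat_lit 3) (.e (nat_lit 98373) (nat_lit 29) (.e (nat_lit 450588) (nat_lit 10) (.e (nat_lit 573473) (nat_lit 12) .nil)))) (.g (nat_lit 0) (.e (nat_lit 132475) (nat_lit 0) .nil) .nil))))) (.nd (nat_lit 8) (.nd (nat_lit 9) 
(.lf (nat_lit 484498) (.g (nat_lit 1538) (.e (nat_lit 8234) (nat_lit 20) (.e (nat_lit 573485) (nat_lit 13) (.e (nat_lit 65604) (nat_lit 9) (.e (nat_lit 336013) (nat_lit 2) (.e (nat_lit 90165) (nat_lit 12) .nil))))) (.g (nat_lit 0) (.e (nat_lit 130668) (nat_lit 0) .nil) .nil))) 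
(.lf (nat_lit 485010) (.g (nat_lit 1913) (.e (nat_lit 24605) (nat_lit 2) (.e (nat_lit 90170) (nat_lit 13) (.e (nat_lit 172113) (nat_lit 10) (.e (nat_lit 434245) (nat_lit 28) (.e (nat_lit 573473) (nat_lit 12) .nil))))) (.g (nat_lit 0) (.e (nat_lit 132331) (nat_lit 0) .nil) .nil)))) (.nd (nat_lit 9) 
(.lf (nat_lit 484754) (.g (nat_lit 2488) (.e (nat_lit 24603) (nat_lit 2) (.e (nat_lit 90185) (nat_lit 17) (.e (nat_lit 237601) (nat_lit 9) (.e (nat_lit 426436) (nat_lit 18) (.e (nat_lit 98339) (nat_lit 19) (.e (nat_lit 213032) (nat_lit 11) .nil)))))) (.g (nat_lit 1) (.e (nat_lit 132057) (nat_lit 0) .nil) .nil))) 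
(.lf (nat_lit 485266) (.g (nat_lit 3810) (.e (nat_lit 24608) (nat_lit 3) (.e (nat_lit 98341) (nat_lit 20) (.e (nat_lit 221215) (nat_lit 23) (.e (nat_lit 204830) (nat_lit 18) (.e (nat_lit 57852) (nat_lit 252) (.e (nat_lit 57370) (nat_lit 2) (.e (nat_lit 90158) (nat_lit 11) .nil))))))) (.g (nat_lit 1) (.e (nat_lit 132620) (nat_lit 0) .nil) .nil)))))) 
(.nd (nat_lit 7) (.nd (nat_lit 8) (.nd (nat_lit 9) 
(.lf (nat_lit 484434) (.g (nat_lit 3689) (.e (nat_lit 8213) (nat_lit 9) (.e (nat_lit 303119) (nat_lit 3) (.e (nat_lit 204869) (nat_lit 29) (.e (nat_lit 360475) (nat_lit 8) (.e (nat_lit 557089) (nat_lit 12) (.e (nat_lit 163841) (nat_lit 0) (.e (nat_lit 6058) (nat_lit 327) .nil))))))) (.g (nat_lit 1) (.e (nat_lit 130048) (nat_lit 0) .nil) .nil))) 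
(.lf (nat_lit 484946) (.g (nat_lit 2408) (.e (nat_lit 24604) (nat_lit 2) (.e (nat_lit 90185) (nat_lit 17) (.e (nat_lit 237605) (nat_lit 9) (.e (nat_lit 426428) (nat_lit 17) (.e (nat_lit 90165) (nat_lit 12) (.e (nat_lit 164045) (nat_lit 55) (.e (nat_lit 778462) (nat_lit 11) .nil))))))) (.g (nat_lit 1) (.e (nat_lit 132265) (nat_lit 0) .nil) .nil)))) (.nd (nat_lit 9) 
(.lf (nat_lit 484690) (.g (nat_lit 2981) (.e (nat_lit 24601) (nat_lit 2) (.e (nat_lit 90170) (nat_lit 13) (.e (nat_lit 172113) (nat_lit 10) (.e (nat_lit 434247) (nat_lit 28) (.e (nat_lit 573477) (nat_lit 12) (.e (nat_lit 57575) (nat_lit 55) (.e (nat_lit 778464) (nat_lit 11) .nil))))))) (.g (nat_lit 1) (.e (nat_lit 131981) (nat_lit 0) .nil) .nil))) 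
(.lf (nat_lit 485202) (.g (nat_lit 3745) (.e (nat_lit 24607) (nat_lit 3) (.e (nat_lit 98372) (nat_lit 29) (.e (nat_lit 450586) (nat_lit 10) (.e (nat_lit 573477) (nat_lit 12) (.e (nat_lit 57575) (nat_lit 55) (.e (nat_lit 778463) (nat_lit 11) .nil)))))) (.g (nat_lit 1) (.e (nat_lit 132548) (nat_lit 0) .nil) .nil))))) (.nd (nat_lit 8) (.nd (nat_lit 9) 
(.lf (nat_lit 484562) (.g (nat_lit 2415) (.e (nat_lit 24580) (nat_lit 0) (.e (nat_lit 6722) (nat_lit 362) (.e (nat_lit 180271) (nat_lit 26) (.e (nat_lit 704737) (nat_lit 11) (.e (nat_lit 16388) (nat_lit 0) (.e (nat_lit 7379) (nat_lit 390) .nil)))))) (.g (nat_lit 1) (.e (nat_lit 131672) (nat_lit 0) .nil) .nil))) 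
(.lf (nat_lit 485074) (.g (nat_lit 2820) (.e (nat_lit 24605) (nat_lit 2) (.e (nat_lit 90170) (nat_lit 13) (.e (nat_lit 172120) (nat_lit 12) (.e (nat_lit 475179) (nat_lit 24) (.e (nat_lit 516127) (nat_lit 2) (.e (nat_lit 213030) (nat_lit 11) .nil)))))) (.g (nat_lit 1) (.e (nat_lit 132395) (nat_lit 0) .nil) .nil)))) (.nd (nat_lit 9) 
(.lf (nat_lit 484818) (.g (nat_lit 4668) (.e (nat_lit 24604) (nat_lit 2) (.e (nat_lit 90170) (nat_lit 13) (.e (nat_lit 172106) (nat_lit 10) (.e (nat_lit 434242) (nat_lit 28) (.e (nat_lit 573478) (nat_lit 12) (.e (nat_lit 57574) (nat_lit 55) (.e (nat_lit 778466) (nat_lit 11) .nil))))))) (.g (nat_lit 1) (.e (nat_lit 132132) (nat_lit 0) .nil) .nil))) 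
(.lf (nat_lit 485330) (.g (nat_lit 1200) (.e (nat_lit 24608) (nat_lit 3) (.e (nat_lit 98365) (nat_lit 26) (.e (nat_lit 426188) (nat_lit 9) (.e (nat_lit 426434) (nat_lit 18) .nil)))) (.g (nat_lit 0) (.e (nat_lit 132687) (nat_lit 0) .nil) .nil))))))) (.nd (nat_lit 6) (.nd (nat_lit 7) (.nd (nat_lit 8) (.nd (nat_lit 9) 
(.lf (nat_lit 484402) (.g (nat_lit 6129) (.e (nat_lit 8326) (nat_lit 69) (.e (nat_lit 557109) (nat_lit 15) (.e (nat_lit 188450) (nat_lit 23) (.e (nat_lit 204846) (nat_lit 24) (.e (nat_lit 319504) (nat_lit 10) (.e (nat_lit 7936) (nat_lit 313) .nil)))))) (.g (nat_lit 1) (.e (nat_lit 129900) (nat_lit 0) .nil) .nil))) 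
(.lf (nat_lit 484914) (.g (nat_lit 3234) (.e (nat_lit 24604) (nat_lit 2) (.e (nat_lit 90178) (nat_lit 15) (.e (nat_lit 188440) (nat_lit 20) (.e (nat_lit 3307) (nat_lit 202) (.e (nat_lit 573477) (nat_lit 12) (.e (nat_lit 57574) (nat_lit 55) (.e (nat_lit 778463) (nat_lit 11) .nil))))))) (.g (nat_lit 1) (.e (nat_lit 132232) (nat_lit 0) .nil) .nil)))) (.nd (nat_lit 9) 
(.lf (nat_lit 484658) (.g (nat_lit 534) (.e (nat_lit 24599) (nat_lit 1) (.e (nat_lit 57854) (nat_lit 252) (.e (nat_lit 57388) (nat_lit 5) .nil))) (.g (nat_lit 0) (.e (nat_lit 131917) (nat_lit 0) .nil) .nil))) 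
(.lf (nat_lit 485170) (.g (nat_lit 1749) (.e (nat_lit 24607) (nat_lit 3) (.e (nat_lit 98365) (nat_lit 26) (.e (nat_lit 426187) (nat_lit 9) (.e (nat_lit 426438) (nat_lit 18) (.e (nat_lit 98339) (nat_lit 19) (.e (nat_lit 213031) (nat_lit 11) .nil)))))) (.g (nat_lit 1) (.e (nat_lit 132516) (nat_lit 0) .nil) .nil))))) (.nd (nat_lit 8) (.nd (nat_lit 9) 
(.lf (nat_lit 484530) (.g (nat_lit 1096) (.e (nat_lit 16128) (nat_lit 225) (.e (nat_lit 2798) (nat_lit 180) (.e (nat_lit 303118) (nat_lit 3) (.e (nat_lit 204869) (nat_lit 29) .nil)))) (.g (nat_lit 0) (.e (nat_lit 131346) (nat_lit 0) .nil) .nil))) 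
(.lf (nat_lit 485042) (.g (nat_lit 2074) (.e (nat_lit 24605) (nat_lit 2) (.e (nat_lit 90170) (nat_lit 13) (.e (nat_lit 172113) (nat_lit 10) (.e (nat_lit 434248) (nat_lit 28) (.e (nat_lit 573449) (nat_lit 9) .nil))))) (.g (nat_lit 0) (.e (nat_lit 132363) (nat_lit 0) .nil) .nil)))) (.nd (nat_lit 9) 
(.lf (nat_lit 484786) (.g (nat_lit 3079) (.e (nat_lit 24604) (nat_lit 2) (.e (nat_lit 90170) (nat_lit 13) (.e (nat_lit 172105) (nat_lit 10) (.e (nat_lit 434248) (nat_lit 28) (.e (nat_lit 573475) (nat_lit 12) (.e (nat_lit 57574) (nat_lit 55) (.e (nat_lit 778465) (nat_lit 11) .nil))))))) (.g (nat_lit 1) (.e (nat_lit 132099) (nat_lit 0) .nil) .nil))) 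
(.lf (nat_lit 485298) (.g (nat_lit 1049) (.e (nat_lit 24608) (nat_lit 3) (.e (nat_lit 98363) (nat_lit 26) (.e (nat_lit 426318) (nat_lit 12) (.e (nat_lit 475179) (nat_lit 24) (.e (nat_lit 524032) (nat_lit 2) .nil))))) (.g (nat_lit 0) (.e (nat_lit 132655) (nat_lit 0) .nil) .nil)))))) (.nd (nat_lit 7) (.nd (nat_lit 8) (.nd (nat_lit 9) 
(.lf (nat_lit 484466) (.g (nat_lit 1146) (.e (nat_lit 8227) (nat_lit 15) (.e (nat_lit 532501) (nat_lit 1) (.e (nat_lit 57851) (nat_lit 252) .nil))) (.g (nat_lit 0) (.e (nat_lit 130175) (nat_lit 0) .nil) .nil))) 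
(.lf (nat_lit 484978) (.g (nat_lit 2087) (.e (nat_lit 24604) (nat_lit 2) (.e (nat_lit 90185) (nat_lit 17) (.e (nat_lit 237619) (nat_lit 12) (.e (nat_lit 475177) (nat_lit 24) (.e (nat_lit 516127) (nat_lit 2) (.e (nat_lit 213031) (nat_lit 11) .nil)))))) (.g (nat_lit 1) (.e (nat_lit 132297) (nat_lit 0) .nil) .nil)))) (.nd (nat_lit 9) 
(.lf (nat_lit 484722) (.g (nat_lit 763) (.e (nat_lit 24603) (nat_lit 2) (.e (nat_lit 90160) (nat_lit 11) (.e (nat_lit 24601) (nat_lit 2) .nil))) (.g (nat_lit 0) (.e (nat_lit 132019) (nat_lit 0) .nil) .nil))) 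
(.lf (nat_lit 485234) (.g (nat_lit 3490) (.e (nat_lit 24607) (nat_lit 3) (.e (nat_lit 98373) (nat_lit 29) (.e (nat_lit 450588) (nat_lit 10) (.e (nat_lit 573449) (nat_lit 9) (.e (nat_lit 1312) (nat_lit 98) .nil))))) (.g (nat_lit 0) (.e (nat_lit 132580) (nat_lit 0) .nil) .nil))))) (.nd (nat_lit 8) (.nd (nat_lit 9) 
(.lf (nat_lit 484594) (.g (nat_lit 1772) (.e (nat_lit 32512) (nat_lit 0) (.e (nat_lit 1796) (nat_lit 119) (.e (nat_lit 516165) (nat_lit 12) (.e (nat_lit 450586) (nat_lit 10) (.e (nat_lit 573478) (nat_lit 12) .nil))))) (.g (nat_lit 0) (.e (nat_lit 131749) (nat_lit 0) .nil) .nil))) 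
(.lf (nat_lit 485106) (.g (nat_lit 2300) (.e (nat_lit 24605) (nat_lit 2) (.e (nat_lit 90185) (nat_lit 17) (.e (nat_lit 237619) (nat_lit 12) (.e (nat_lit 475179) (nat_lit 24) (.e (nat_lit 516127) (nat_lit 2) (.e (nat_lit 213032) (nat_lit 11) .nil)))))) (.g (nat_lit 1) (.e (nat_lit 132430) (nat_lit 0) .nil) .nil)))) (.nd (nat_lit 9) 
(.lf (nat_lit 484850) (.g (nat_lit 3424) (.e (nat_lit 24604) (nat_lit 2) (.e (nat_lit 90170) (nat_lit 13) (.e (nat_lit 172106) (nat_lit 10) (.e (nat_lit 434246) (nat_lit 28) (.e (nat_lit 573477) (nat_lit 12) (.e (nat_lit 57575) (nat_lit 55) (.e (nat_lit 778465) (nat_lit 11) .nil))))))) (.g (nat_lit 1) (.e (nat_lit 132164) (nat_lit 0) .nil) .nil))) 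
(.lf (nat_lit 485362) (.g (nat_lit 2719) (.e (nat_lit 24608) (nat_lit 3) (.e (nat_lit 98365) (nat_lit 26) (.e (nat_lit 426306) (nat_lit 12) (.e (nat_lit 475177) (nat_lit 24) (.e (nat_lit 516124) (nat_lit 2) (.e (nat_lit 220928) (nat_lit 11) .nil)))))) (.g (nat_lit 1) (.e (nat_lit 132719) (nat_lit 0) .nil) .nil))))))))) 
(.nd (nat_lit 4) (.nd (nat_lit 5) (.nd (nat_lit 6) (.nd (nat_lit 7) (.nd (nat_lit 8) 
(.nd (nat_lit 9) 
(.lf (nat_lit 484362) (.g (nat_lit 3521) (.e (nat_lit 8326) (nat_lit 69) (.e (nat_lit 557098) (nat_lit 13) (.e (nat_lit 172115) (nat_lit 10) (.e (nat_lit 434233) (nat_lit 23) (.e (nat_lit 532523) (nat_lit 7) (.e (nat_lit 319504) (nat_lit 10) (.e (nat_lit 7936) (nat_lit 313) .nil))))))) (.g (nat_lit 1) (.e (nat_lit 129859) (nat_lit 0) .nil) .nil))) 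
(.lf (nat_lit 484874) (.g (nat_lit 4549) (.e (nat_lit 24604) (nat_lit 2) (.e (nat_lit 90170) (nat_lit 13) (.e (nat_lit 172113) (nat_lit 10) (.e (nat_lit 434247) (nat_lit 28) (.e (nat_lit 573477) (nat_lit 12) (.e (nat_lit 57575) (nat_lit 55) (.e (nat_lit 778465) (nat_lit 11) .nil))))))) (.g (nat_lit 1) (.e (nat_lit 132188) (nat_lit 0) .nil) .nil)))) (.nd (nat_lit 9) 
(.lf (nat_lit 484618) (.g (nat_lit 2998) (.e (nat_lit 24597) (nat_lit 1) (.e (nat_lit 57927) (nat_lit 282) (.e (nat_lit 163903) (nat_lit 12) (.e (nat_lit 426555) (nat_lit 32) (.e (nat_lit 376862) (nat_lit 22) (.e (nat_lit 90160) (nat_lit 11) .nil)))))) (.g (nat_lit 1) (.e (nat_lit 131798) (nat_lit 0) .nil) .nil))) 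
(.lf (nat_lit 485130) (.g (nat_lit 2460) (.e (nat_lit 24606) (nat_lit 3) (.e (nat_lit 98373) (nat_lit 29) (.e (nat_lit 450587) (nat_lit 10) (.e (nat_lit 573477) (nat_lit 12) (.e (nat_lit 57575) (nat_lit 55) (.e (nat_lit 778463) (nat_lit 11) .nil)))))) (.g (nat_lit 1) (.e (nat_lit 132467) (nat_lit 0) .nil) .nil))))) (.nd (nat_lit 8) (.nd (nat_lit 9) 
(.lf (nat_lit 484490) (.g (nat_lit 3681) (.e (nat_lit 8234) (nat_lit 20) (.e (nat_lit 573482) (nat_lit 13) (.e (nat_lit 65619) (nat_lit 10) (.e (nat_lit 344117) (nat_lit 21) (.e (nat_lit 516106) (nat_lit 0) (.e (nat_lit 6986) (nat_lit 377) (.e (nat_lit 2484) (nat_lit 157) (.e (nat_lit 5373) (nat_lit 299) .nil)))))))) (.g (nat_lit 1) (.e (nat_lit 130475) (nat_lit 0) .nil) .nil))) 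
(.lf (nat_lit 485002) (.g (nat_lit 2975) (.e (nat_lit 24605) (nat_lit 2) (.e (nat_lit 90170) (nat_lit 13) (.e (nat_lit 172106) (nat_lit 10) (.e (nat_lit 434244) (nat_lit 28) (.e (nat_lit 573474) (nat_lit 12) (.e (nat_lit 57573) (nat_lit 55) (.e (nat_lit 778469) (nat_lit 11) .nil))))))) (.g (nat_lit 1) (.e (nat_lit 132322) (nat_lit 0) .nil) .nil)))) (.nd (nat_lit 9) 
(.lf (nat_lit 484746) (.g (nat_lit 562) (.e (nat_lit 24603) (nat_lit 2) (.e (nat_lit 90178) (nat_lit 15) (.e (nat_lit 196352) (nat_lit 3) .nil))) (.g (nat_lit 0) (.e (nat_lit 132049) (nat_lit 0) .nil) .nil))) 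
(.lf (nat_lit 485258) (.g (nat_lit 1341) (.e (nat_lit 24607) (nat_lit 3) (.e (nat_lit 98389) (nat_lit 33) (.e (nat_lit 491560) (nat_lit 10) (.e (nat_lit 344118) (nat_lit 21) .nil)))) (.g (nat_lit 0) (.e (nat_lit 132604) (nat_lit 0) .nil) .nil)))))) (.nd (nat_lit 7) (.nd (nat_lit 8) (.nd (nat_lit 9) 
(.lf (nat_lit 484426) (.g (nat_lit 2397) (.e (nat_lit 8211) (nat_lit 9) (.e (nat_lit 303152) (nat_lit 27) (.e (nat_lit 336061) (nat_lit 7) (.e (nat_lit 319531) (nat_lit 16) (.e (nat_lit 286767) (nat_lit 27) .nil))))) (.g (nat_lit 0) (.e (nat_lit 130022) (nat_lit 0) .nil) .nil))) 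
(.lf (nat_lit 484938) (.g (nat_lit 2585) (.e (nat_lit 24604) (nat_lit 2) (.e (nat_lit 90185) (nat_lit 17) (.e (nat_lit 237601) (nat_lit 9) (.e (nat_lit 426438) (nat_lit 18) (.e (nat_lit 98337) (nat_lit 19) (.e (nat_lit 213032) (nat_lit 11) .nil)))))) (.g (nat_lit 1) (.e (nat_lit 132257) (nat_lit 0) .nil) .nil)))) (.nd (nat_lit 9) 
(.lf (nat_lit 484682) (.g (nat_lit 3934) (.e (nat_lit 24601) (nat_lit 2) (.e (nat_lit 90170) (nat_lit 13) (.e (nat_lit 172113) (nat_lit 10) (.e (nat_lit 434245) (nat_lit 28) (.e (nat_lit 573474) (nat_lit 12) (.e (nat_lit 57574) (nat_lit 55) (.e (nat_lit 778464) (nat_lit 11) .nil))))))) (.g (nat_lit 1) (.e (nat_lit 131973) (nat_lit 0) .nil) .nil))) 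
(.lf (nat_lit 485194) (.g (nat_lit 1926) (.e (nat_lit 24607) (nat_lit 3) (.e (nat_lit 98365) (nat_lit 26) (.e (nat_lit 426307) (nat_lit 12) (.e (nat_lit 475177) (nat_lit 24) (.e (nat_lit 516127) (nat_lit 2) (.e (nat_lit 213031) (nat_lit 11) .nil)))))) (.g (nat_lit 1) (.e (nat_lit 132540) (nat_lit 0) .nil) .nil))))) (.nd (nat_lit 8) (.nd (nat_lit 9) 
(.lf (nat_lit 484554) (.g (nat_lit 769) (.e (nat_lit 24580) (nat_lit 0) (.e (nat_lit 6508) (nat_lit 345) (.e (nat_lit 16471) (nat_lit 14) (.e (nat_lit 491560) (nat_lit 10) .nil)))) (.g (nat_lit 0) (.e (nat_lit 131620) (nat_lit 0) .nil) .nil))) 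
(.lf (nat_lit 485066) (.g (nat_lit 1624) (.e (nat_lit 24605) (nat_lit 2) (.e (nat_lit 90170) (nat_lit 13) (.e (nat_lit 172120) (nat_lit 12) (.e (nat_lit 475177) (nat_lit 24) .nil)))) (.g (nat_lit 0) (.e (nat_lit 132387) (nat_lit 0) .nil) .nil)))) (.nd (nat_lit 9) 
(.lf (nat_lit 484810) (.g (nat_lit 2239) (.e (nat_lit 24604) (nat_lit 2) (.e (nat_lit 90170) (nat_lit 13) (.e (nat_lit 172106) (nat_lit 10) (.e (nat_lit 434242) (nat_lit 28) .nil)))) (.g (nat_lit 0) (.e (nat_lit 132124) (nat_lit 0) .nil) .nil))) 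
(.lf (nat_lit 485322) (.g (nat_lit 2042) (.e (nat_lit 24608) (nat_lit 3) (.e (nat_lit 98365) (nat_lit 26) (.e (nat_lit 426187) (nat_lit 9) (.e (nat_lit 426438) (nat_lit 18) (.e (nat_lit 98338) (nat_lit 19) (.e (nat_lit 213032) (nat_lit 11) .nil)))))) (.g (nat_lit 1) (.e (nat_lit 132679) (nat_lit 0) .nil) .nil))))))) (.nd (nat_lit 6) (.nd (nat_lit 7) (.nd (nat_lit 8) (.nd (nat_lit 9) 
(.lf (nat_lit 484394) (.g (nat_lit 2674) (.e (nat_lit 8326) (nat_lit 69) (.e (nat_lit 557105) (nat_lit 14) (.e (nat_lit 180252) (nat_lit 10) (.e (nat_lit 573489) (nat_lit 14) (.e (nat_lit 73755) (nat_lit 8) (.e (nat_lit 557090) (nat_lit 12) (.e (nat_lit 164008) (nat_lit 41) (.e (nat_lit 671488) (nat_lit 10) .nil)))))))) (.g (nat_lit 1) (.e (nat_lit 129891) (nat_lit 0) .nil) .nil))) 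
(.lf (nat_lit 484906) (.g (nat_lit 2538) (.e (nat_lit 24604) (nat_lit 2) (.e (nat_lit 90178) (nat_lit 15) (.e (nat_lit 188418) (nat_lit 0) (.e (nat_lit 1800) (nat_lit 119) (.e (nat_lit 516127) (nat_lit 2) (.e (nat_lit 213032) (nat_lit 11) .nil)))))) (.g (nat_lit 1) (.e (nat_lit 132224) (nat_lit 0) .nil) .nil)))) (.nd (nat_lit 9) 
(.lf (nat_lit 484650) (.g (nat_lit 3222) (.e (nat_lit 24598) (nat_lit 1) (.e (nat_lit 57931) (nat_lit 282) (.e (nat_lit 163902) (nat_lit 12) (.e (nat_lit 426555) (nat_lit 32) (.e (nat_lit 376862) (nat_lit 22) (.e (nat_lit 90158) (nat_lit 11) .nil)))))) (.g (nat_lit 1) (.e (nat_lit 131893) (nat_lit 0) .nil) .nil))) 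
(.lf (nat_lit 485162) (.g (nat_lit 1648) (.e (nat_lit 24607) (nat_lit 3) (.e (nat_lit 98365) (nat_lit 26) (.e (nat_lit 426187) (nat_lit 9) (.e (nat_lit 426428) (nat_lit 17) (.e (nat_lit 90165) (nat_lit 12) (.e (nat_lit 164048) (nat_lit 55) (.e (nat_lit 778469) (nat_lit 11) .nil))))))) (.g (nat_lit 1) (.e (nat_lit 132508) (nat_lit 0) .nil) .nil))))) (.nd (nat_lit 8) (.nd (nat_lit 9) 
(.lf (nat_lit 484522) (.g (nat_lit 625) (.e (nat_lit 8469) (nat_lit 148) (.e (nat_lit 163919) (nat_lit 14) (.e (nat_lit 450304) (nat_lit 4) .nil))) (.g (nat_lit 0) (.e (nat_lit 131286) (nat_lit 0) .nil) .nil))) 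
(.lf (nat_lit 485034) (.g (nat_lit 2036) (.e (nat_lit 24605) (nat_lit 2) (.e (nat_lit 90170) (nat_lit 13) (.e (nat_lit 172113) (nat_lit 10) (.e (nat_lit 434247) (nat_lit 28) (.e (nat_lit 573478) (nat_lit 12) .nil))))) (.g (nat_lit 0) (.e (nat_lit 132355) (nat_lit 0) .nil) .nil)))) (.nd (nat_lit 9) 
(.lf (nat_lit 484778) (.g (nat_lit 3598) (.e (nat_lit 24604) (nat_lit 2) (.e (nat_lit 90169) (nat_lit 13) (.e (nat_lit 172113) (nat_lit 10) (.e (nat_lit 434245) (nat_lit 28) (.e (nat_lit 573474) (nat_lit 12) (.e (nat_lit 57574) (nat_lit 55) (.e (nat_lit 778466) (nat_lit 11) .nil))))))) (.g (nat_lit 1) (.e (nat_lit 132090) (nat_lit 0) .nil) .nil))) 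
(.lf (nat_lit 485290) (.g (nat_lit 2127) (.e (nat_lit 24608) (nat_lit 3) (.e (nat_lit 98363) (nat_lit 26) (.e (nat_lit 426318) (nat_lit 12) (.e (nat_lit 475179) (nat_lit 24) (.e (nat_lit 516099) (nat_lit 0) (.e (nat_lit 3617) (nat_lit 227) (.e (nat_lit 778462) (nat_lit 11) .nil))))))) (.g (nat_lit 1) (.e (nat_lit 132647) (nat_lit 0) .nil) .nil)))))) 
(.nd (nat_lit 7) (.nd (nat_lit 8) (.nd (nat_lit 9) 
(.lf (nat_lit 484458) (.g (nat_lit 2489) (.e (nat_lit 8225) (nat_lit 15) (.e (nat_lit 532501) (nat_lit 1) (.e (nat_lit 57851) (nat_lit 252) (.e (nat_lit 57406) (nat_lit 12) .nil)))) (.g (nat_lit 0) (.e (nat_lit 130085) (nat_lit 0) .nil) .nil))) 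
(.lf (nat_lit 484970) (.g (nat_lit 1679) (.e (nat_lit 24604) (nat_lit 2) (.e (nat_lit 90185) (nat_lit 17) (.e (nat_lit 237616) (nat_lit 12) (.e (nat_lit 475179) (nat_lit 24) (.e (nat_lit 516099) (nat_lit 0) (.e (nat_lit 3651) (nat_lit 227) (.e (nat_lit 778462) (nat_lit 11) .nil))))))) (.g (nat_lit 1) (.e (nat_lit 132289) (nat_lit 0) .nil) .nil)))) (.nd (nat_lit 9) 
(.lf (nat_lit 484714) (.g (nat_lit 2796) (.e (nat_lit 24602) (nat_lit 2) (.e (nat_lit 90185) (nat_lit 17) (.e (nat_lit 237605) (nat_lit 9) (.e (nat_lit 426436) (nat_lit 18) (.e (nat_lit 98339) (nat_lit 19) (.e (nat_lit 213032) (nat_lit 11) .nil)))))) (.g (nat_lit 1) (.e (nat_lit 132010) (nat_lit 0) .nil) .nil))) 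
(.lf (nat_lit 485226) (.g (nat_lit 3772) (.e (nat_lit 24607) (nat_lit 3) (.e (nat_lit 98373) (nat_lit 29) (.e (nat_lit 450587) (nat_lit 10) (.e (nat_lit 573477) (nat_lit 12) (.e (nat_lit 57574) (nat_lit 55) (.e (nat_lit 778463) (nat_lit 11) .nil)))))) (.g (nat_lit 1) (.e (nat_lit 132572) (nat_lit 0) .nil) .nil))))) (.nd (nat_lit 8) (.nd (nat_lit 9) 
(.lf (nat_lit 484586) (.g (nat_lit 717) (.e (nat_lit 24595) (nat_lit 0) (.e (nat_lit 1800) (nat_lit 119) (.e (nat_lit 516165) (nat_lit 12) .nil))) (.g (nat_lit 0) (.e (nat_lit 131741) (nat_lit 0) .nil) .nil))) 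
(.lf (nat_lit 485098) (.g (nat_lit 2264) (.e (nat_lit 24605) (nat_lit 2) (.e (nat_lit 90185) (nat_lit 17) (.e (nat_lit 237619) (nat_lit 12) (.e (nat_lit 475177) (nat_lit 24) (.e (nat_lit 516124) (nat_lit 2) (.e (nat_lit 213030) (nat_lit 11) .nil)))))) (.g (nat_lit 1) (.e (nat_lit 132422) (nat_lit 0) .nil) .nil)))) (.nd (nat_lit 9) 
(.lf (nat_lit 484842) (.g (nat_lit 4425) (.e (nat_lit 24604) (nat_lit 2) (.e (nat_lit 90170) (nat_lit 13) (.e (nat_lit 172106) (nat_lit 10) (.e (nat_lit 434244) (nat_lit 28) (.e (nat_lit 573478) (nat_lit 12) (.e (nat_lit 57574) (nat_lit 55) (.e (nat_lit 778465) (nat_lit 11) .nil))))))) (.g (nat_lit 1) (.e (nat_lit 132156) (nat_lit 0) .nil) .nil))) 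
(.lf (nat_lit 485354) (.g (nat_lit 1296) (.e (nat_lit 24608) (nat_lit 3) (.e (nat_lit 98365) (nat_lit 26) (.e (nat_lit 426306) (nat_lit 12) (.e (nat_lit 475171) (nat_lit 22) .nil)))) (.g (nat_lit 0) (.e (nat_lit 132711) (nat_lit 0) .nil) .nil)))))))) (.nd (nat_lit 5) (.nd (nat_lit 6) (.nd (nat_lit 7) (.nd (nat_lit 8) (.nd (nat_lit 9) 
(.lf (nat_lit 484378) (.g (nat_lit 4124) (.e (nat_lit 8326) (nat_lit 69) (.e (nat_lit 557101) (nat_lit 13) (.e (nat_lit 172115) (nat_lit 10) (.e (nat_lit 434231) (nat_lit 23) (.e (nat_lit 532522) (nat_lit 7) (.e (nat_lit 319504) (nat_lit 10) (.e (nat_lit 7936) (nat_lit 313) .nil))))))) (.g (nat_lit 1) (.e (nat_lit 129875) (nat_lit 0) .nil) .nil))) 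
(.lf (nat_lit 484890) (.g (nat_lit 624) (.e (nat_lit 24604) (nat_lit 2) (.e (nat_lit 90172) (nat_lit 14) (.e (nat_lit 180285) (nat_lit 45) .nil))) (.g (nat_lit 0) (.e (nat_lit 132204) (nat_lit 0) .nil) .nil)))) (.nd (nat_lit 9) 
(.lf (nat_lit 484634) (.g (nat_lit 1912) (.e (nat_lit 24598) (nat_lit 1) (.e (nat_lit 57926) (nat_lit 282) (.e (nat_lit 163903) (nat_lit 12) (.e (nat_lit 426556) (nat_lit 32) .nil)))) (.g (nat_lit 0) (.e (nat_lit 131839) (nat_lit 0) .nil) .nil))) 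
(.lf (nat_lit 485146) (.g (nat_lit 3959) (.e (nat_lit 24607) (nat_lit 3) (.e (nat_lit 98359) (nat_lit 26) (.e (nat_lit 426286) (nat_lit 10) (.e (nat_lit 434245) (nat_lit 28) (.e (nat_lit 573474) (nat_lit 12) (.e (nat_lit 57574) (nat_lit 55) (.e (nat_lit 778464) (nat_lit 11) .nil))))))) (.g (nat_lit 1) (.e (nat_lit 132492) (nat_lit 0) .nil) .nil))))) (.nd (nat_lit 8) (.nd (nat_lit 9) 
(.lf (nat_lit 484506) (.g (nat_lit 3326) (.e (nat_lit 8234) (nat_lit 20) (.e (nat_lit 573489) (nat_lit 14) (.e (nat_lit 73755) (nat_lit 8) (.e (nat_lit 557103) (nat_lit 14) (.e (nat_lit 188160) (nat_lit 3) (.e (nat_lit 516106) (nat_lit 0) (.e (nat_lit 7936) (nat_lit 218) (.e (nat_lit 704719) (nat_lit 10) .nil)))))))) (.g (nat_lit 1) (.e (nat_lit 130780) (nat_lit 0) .nil) .nil))) 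
(.lf (nat_lit 485018) (.g (nat_lit 2462) (.e (nat_lit 24605) (nat_lit 2) (.e (nat_lit 90170) (nat_lit 13) (.e (nat_lit 172113) (nat_lit 10) (.e (nat_lit 434245) (nat_lit 28) (.e (nat_lit 573474) (nat_lit 12) (.e (nat_lit 65280) (nat_lit 55) (.e (nat_lit 786176) (nat_lit 11) .nil))))))) (.g (nat_lit 1) (.e (nat_lit 132339) (nat_lit 0) .nil) .nil)))) (.nd (nat_lit 9) 
(.lf (nat_lit 484762) (.g (nat_lit 2238) (.e (nat_lit 24603) (nat_lit 2) (.e (nat_lit 90185) (nat_lit 17) (.e (nat_lit 237619) (nat_lit 12) (.e (nat_lit 475177) (nat_lit 24) (.e (nat_lit 516126) (nat_lit 2) (.e (nat_lit 213032) (nat_lit 11) .nil)))))) (.g (nat_lit 1) (.e (nat_lit 132065) (nat_lit 0) .nil) .nil))) 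
(.lf (nat_lit 485274) (.g (nat_lit 3919) (.e (nat_lit 24608) (nat_lit 3) (.e (nat_lit 98359) (nat_lit 26) (.e (nat_lit 426286) (nat_lit 10) (.e (nat_lit 434245) (nat_lit 28) (.e (nat_lit 573474) (nat_lit 12) (.e (nat_lit 57574) (nat_lit 55) (.e (nat_lit 778465) (nat_lit 11) .nil))))))) (.g (nat_lit 1) (.e (nat_lit 132631) (nat_lit 0) .nil) .nil)))))) 
(.nd (nat_lit 7) (.nd (nat_lit 8) (.nd (nat_lit 9) 
(.lf (nat_lit 484442) (.g (nat_lit 1568) (.e (nat_lit 8213) (nat_lit 9) (.e (nat_lit 303144) (nat_lit 13) (.e (nat_lit 483413) (nat_lit 27) (.e (nat_lit 401447) (nat_lit 10) .nil)))) (.g (nat_lit 0) (.e (nat_lit 130058) (nat_lit 0) .nil) .nil))) 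
(.lf (nat_lit 484954) (.g (nat_lit 2966) (.e (nat_lit 24604) (nat_lit 2) (.e (nat_lit 90185) (nat_lit 17) (.e (nat_lit 237605) (nat_lit 9) (.e (nat_lit 426436) (nat_lit 18) (.e (nat_lit 98337) (nat_lit 19) (.e (nat_lit 213032) (nat_lit 11) .nil)))))) (.g (nat_lit 1) (.e (nat_lit 132273) (nat_lit 0) .nil) .nil)))) (.nd (nat_lit 9) 
(.lf (nat_lit 484698) (.g (nat_lit 4436) (.e (nat_lit 24601) (nat_lit 2) (.e (nat_lit 90170) (nat_lit 13) (.e (nat_lit 172113) (nat_lit 10) (.e (nat_lit 434248) (nat_lit 28) (.e (nat_lit 573475) (nat_lit 12) (.e (nat_lit 57574) (nat_lit 55) (.e (nat_lit 778466) (nat_lit 11) .nil))))))) (.g (nat_lit 1) (.e (nat_lit 131989) (nat_lit 0) .nil) .nil))) 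
(.lf (nat_lit 485210) (.g (nat_lit 3185) (.e (nat_lit 24607) (nat_lit 3) (.e (nat_lit 98372) (nat_lit 29) (.e (nat_lit 450588) (nat_lit 10) (.e (nat_lit 573452) (nat_lit 9) (.e (nat_lit 1310) (nat_lit 98) .nil))))) (.g (nat_lit 0) (.e (nat_lit 132556) (nat_lit 0) .nil) .nil))))) (.nd (nat_lit 8) (.nd (nat_lit 9) 
(.lf (nat_lit 484570) (.g (nat_lit 303) (.e (nat_lit 24584) (nat_lit 0) (.e (nat_lit 6113) (nat_lit 332) (.e (nat_lit 1361) (nat_lit 102) .nil))) (.g (nat_lit 0) (.e (nat_lit 131713) (nat_lit 0) .nil) .nil))) 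
(.lf (nat_lit 485082) (.g (nat_lit 2193) (.e (nat_lit 24605) (nat_lit 2) (.e (nat_lit 90178) (nat_lit 15) (.e (nat_lit 188418) (nat_lit 0) (.e (nat_lit 1800) (nat_lit 119) (.e (nat_lit 516126) (nat_lit 2) (.e (nat_lit 213032) (nat_lit 11) .nil)))))) (.g (nat_lit 1) (.e (nat_lit 132404) (nat_lit 0) .nil) .nil)))) (.nd (nat_lit 9) 
(.lf (nat_lit 484826) (.g (nat_lit 2478) (.e (nat_lit 24604) (nat_lit 2) (.e (nat_lit 90170) (nat_lit 13) (.e (nat_lit 172106) (nat_lit 10) (.e (nat_lit 434244) (nat_lit 28) (.e (nat_lit 573473) (nat_lit 12) .nil))))) (.g (nat_lit 0) (.e (nat_lit 132140) (nat_lit 0) .nil) .nil))) 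
(.lf (nat_lit 485338) (.g (nat_lit 2385) (.e (nat_lit 24608) (nat_lit 3) (.e (nat_lit 98365) (nat_lit 26) (.e (nat_lit 426188) (nat_lit 9) (.e (nat_lit 426438) (nat_lit 18) (.e (nat_lit 98338) (nat_lit 19) (.e (nat_lit 213032) (nat_lit 11) .nil)))))) (.g (nat_lit 1) (.e (nat_lit 132695) (nat_lit 0) .nil) .nil))))))) (.nd (nat_lit 6) (.nd (nat_lit 7) (.nd (nat_lit 8) (.nd (nat_lit 9) 
(.lf (nat_lit 484410) (.g (nat_lit 2697) (.e (nat_lit 8356) (nat_lit 88) (.e (nat_lit 712755) (nat_lit 30) (.e (nat_lit 450588) (nat_lit 10) (.e (nat_lit 573475) (nat_lit 12) (.e (nat_lit 57507) (nat_lit 39) (.e (nat_lit 647201) (nat_lit 12) (.e (nat_lit 57575) (nat_lit 55) (.e (nat_lit 778455) (nat_lit 10) .nil)))))))) (.g (nat_lit 1) (.e (nat_lit 129979) (nat_lit 0) .nil) .nil))) 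
(.lf (nat_lit 484922) (.g (nat_lit 1246) (.e (nat_lit 24604) (nat_lit 2) (.e (nat_lit 90178) (nat_lit 15) (.e (nat_lit 188441) (nat_lit 20) (.e (nat_lit 7936) (nat_lit 200) .nil)))) (.g (nat_lit 0) (.e (nat_lit 132240) (nat_lit 0) .nil) .nil)))) (.nd (nat_lit 9) 
(.lf (nat_lit 484666) (.g (nat_lit 2040) (.e (nat_lit 24599) (nat_lit 1) (.e (nat_lit 57930) (nat_lit 282) (.e (nat_lit 163902) (nat_lit 12) (.e (nat_lit 426555) (nat_lit 32) (.e (nat_lit 376862) (nat_lit 22) (.e (nat_lit 90160) (nat_lit 11) .nil)))))) (.g (nat_lit 1) (.e (nat_lit 131936) (nat_lit 0) .nil) .nil))) 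
(.lf (nat_lit 485178) (.g (nat_lit 3126) (.e (nat_lit 24607) (nat_lit 3) (.e (nat_lit 98365) (nat_lit 26) (.e (nat_lit 426188) (nat_lit 9) (.e (nat_lit 426436) (nat_lit 18) (.e (nat_lit 98339) (nat_lit 19) (.e (nat_lit 213030) (nat_lit 11) .nil)))))) (.g (nat_lit 1) (.e (nat_lit 132524) (nat_lit 0) .nil) .nil))))) (.nd (nat_lit 8) (.nd (nat_lit 9) 
(.lf (nat_lit 484538) (.g (nat_lit 2181) (.e (nat_lit 24576) (nat_lit 0) (.e (nat_lit 1788) (nat_lit 119) (.e (nat_lit 516165) (nat_lit 12) (.e (nat_lit 450587) (nat_lit 10) (.e (nat_lit 573477) (nat_lit 12) .nil))))) (.g (nat_lit 0) (.e (nat_lit 131561) (nat_lit 0) .nil) .nil))) 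
(.lf (nat_lit 485050) (.g (nat_lit 3007) (.e (nat_lit 24605) (nat_lit 2) (.e (nat_lit 90170) (nat_lit 13) (.e (nat_lit 172113) (nat_lit 10) (.e (nat_lit 434248) (nat_lit 28) (.e (nat_lit 573475) (nat_lit 12) (.e (nat_lit 65280) (nat_lit 55) (.e (nat_lit 778461) (nat_lit 11) .nil))))))) (.g (nat_lit 1) (.e (nat_lit 132371) (nat_lit 0) .nil) .nil)))) (.nd (nat_lit 9) 
(.lf (nat_lit 484794) (.g (nat_lit 2777) (.e (nat_lit 24604) (nat_lit 2) (.e (nat_lit 90170) (nat_lit 13) (.e (nat_lit 172106) (nat_lit 10) (.e (nat_lit 434231) (nat_lit 23) (.e (nat_lit 532499) (nat_lit 1) (.e (nat_lit 57777) (nat_lit 233) (.e (nat_lit 2551) (nat_lit 159) .nil))))))) (.g (nat_lit 1) (.e (nat_lit 132108) (nat_lit 0) .nil) .nil))) 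
(.lf (nat_lit 485306) (.g (nat_lit 2811) (.e (nat_lit 24608) (nat_lit 3) (.e (nat_lit 98365) (nat_lit 26) (.e (nat_lit 426100) (nat_lit 1) (.e (nat_lit 164332) (nat_lit 230) (.e (nat_lit 163874) (nat_lit 3) (.e (nat_lit 204829) (nat_lit 18) (.e (nat_lit 57910) (nat_lit 278) (.e (nat_lit 2559) (nat_lit 159) .nil)))))))) (.g (nat_lit 1) (.e (nat_lit 132663) (nat_lit 0) .nil) .nil)))))) 
(.nd (nat_lit 7) (.nd (nat_lit 8) (.nd (nat_lit 9) 
(.lf (nat_lit 484474) (.g (nat_lit 1022) (.e (nat_lit 8228) (nat_lit 15) (.e (nat_lit 532563) (nat_lit 15) (.e (nat_lit 385066) (nat_lit 26) .nil))) (.g (nat_lit 0) (.e (nat_lit 130347) (nat_lit 0) .nil) .nil))) 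
(.lf (nat_lit 484986) (.g (nat_lit 1644) (.e (nat_lit 24604) (nat_lit 2) (.e (nat_lit 90185) (nat_lit 17) (.e (nat_lit 237619) (nat_lit 12) (.e (nat_lit 475179) (nat_lit 24) (.e (nat_lit 524032) (nat_lit 2) (.e (nat_lit 213032) (nat_lit 11) .nil)))))) (.g (nat_lit 1) (.e (nat_lit 132305) (nat_lit 0) .nil) .nil)))) (.nd (nat_lit 9) 
(.lf (nat_lit 484730) (.g (nat_lit 2785) (.e (nat_lit 24603) (nat_lit 2) (.e (nat_lit 90169) (nat_lit 13) (.e (nat_lit 172113) (nat_lit 10) (.e (nat_lit 434245) (nat_lit 28) (.e (nat_lit 573474) (nat_lit 12) (.e (nat_lit 57574) (nat_lit 55) (.e (nat_lit 778465) (nat_lit 11) .nil))))))) (.g (nat_lit 1) (.e (nat_lit 132027) (nat_lit 0) .nil) .nil))) 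
(.lf (nat_lit 485242) (.g (nat_lit 5276) (.e (nat_lit 24607) (nat_lit 3) (.e (nat_lit 98373) (nat_lit 29) (.e (nat_lit 450588) (nat_lit 10) (.e (nat_lit 573474) (nat_lit 12) .nil)))) (.g (nat_lit 0) (.e (nat_lit 132588) (nat_lit 0) .nil) .nil))))) (.nd (nat_lit 8) (.nd (nat_lit 9) 
(.lf (nat_lit 484602) (.g (nat_lit 3541) (.e (nat_lit 24597) (nat_lit 1) (.e (nat_lit 57926) (nat_lit 282) (.e (nat_lit 163903) (nat_lit 12) (.e (nat_lit 426555) (nat_lit 32) (.e (nat_lit 376865) (nat_lit 22) (.e (nat_lit 90158) (nat_lit 11) .nil)))))) (.g (nat_lit 1) (.e (nat_lit 131767) (nat_lit 0) .nil) .nil))) 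
(.lf (nat_lit 485114) (.g (nat_lit 3281) (.e (nat_lit 24606) (nat_lit 3) (.e (nat_lit 98359) (nat_lit 26) (.e (nat_lit 426286) (nat_lit 10) (.e (nat_lit 434247) (nat_lit 28) (.e (nat_lit 573478) (nat_lit 12) (.e (nat_lit 57574) (nat_lit 55) (.e (nat_lit 778465) (nat_lit 11) .nil))))))) (.g (nat_lit 1) (.e (nat_lit 132438) (nat_lit 0) .nil) .nil)))) (.nd (nat_lit 9) 
(.lf (nat_lit 484858) (.g (nat_lit 4767) (.e (nat_lit 24604) (nat_lit 2) (.e (nat_lit 90170) (nat_lit 13) (.e (nat_lit 172106) (nat_lit 10) (.e (nat_lit 434247) (nat_lit 28) (.e (nat_lit 573478) (nat_lit 12) (.e (nat_lit 57574) (nat_lit 55) (.e (nat_lit 778466) (nat_lit 11) .nil))))))) (.g (nat_lit 1) (.e (nat_lit 132172) (nat_lit 0) .nil) .nil))) 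
(.lf (nat_lit 485370) (.g (nat_lit 2165) (.e (nat_lit 24608) (nat_lit 3) (.e (nat_lit 98365) (nat_lit 26) (.e (nat_lit 426306) (nat_lit 12) (.e (nat_lit 475179) (nat_lit 24) (.e (nat_lit 516099) (nat_lit 0) .nil))))) (.g (nat_lit 0) (.e (nat_lit 132727) (nat_lit 0) .nil) .nil)))))))))) 
(.nd (nat_lit 3) (.nd (nat_lit 4) (.nd (nat_lit 5) (.nd (nat_lit 6) (.nd (nat_lit 7) 
(.nd (nat_lit 8) (.nd (nat_lit 9) 
(.lf (nat_lit 484358) (.g (nat_lit 2968) (.e (nat_lit 8326) (nat_lit 69) (.e (nat_lit 557098) (nat_lit 13) (.e (nat_lit 172097) (nat_lit 9) (.e (nat_lit 426140) (nat_lit 3) (.e (nat_lit 204845) (nat_lit 24) (.e (nat_lit 319504) (nat_lit 10) (.e (nat_lit 7936) (nat_lit 313) .nil))))))) (.g (nat_lit 1) (.e (nat_lit 129855) (nat_lit 0) .nil) .nil))) 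
(.lf (nat_lit 484870) (.g (nat_lit 4822) (.e (nat_lit 24604) (nat_lit 2) (.e (nat_lit 90170) (nat_lit 13) (.e (nat_lit 172113) (nat_lit 10) (.e (nat_lit 434245) (nat_lit 28) (.e (nat_lit 573474) (nat_lit 12) (.e (nat_lit 57574) (nat_lit 55) (.e (nat_lit 778465) (nat_lit 11) .nil))))))) (.g (nat_lit 1) (.e (nat_lit 132184) (nat_lit 0) .nil) .nil)))) (.nd (nat_lit 9) 
(.lf (nat_lit 484614) (.g (nat_lit 3045) (.e (nat_lit 24597) (nat_lit 1) (.e (nat_lit 57926) (nat_lit 282) (.e (nat_lit 163907) (nat_lit 12) (.e (nat_lit 426555) (nat_lit 32) (.e (nat_lit 376862) (nat_lit 22) (.e (nat_lit 90160) (nat_lit 11) .nil)))))) (.g (nat_lit 1) (.e (nat_lit 131781) (nat_lit 0) .nil) .nil))) 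
(.lf (nat_lit 485126) (.g (nat_lit 3573) (.e (nat_lit 24606) (nat_lit 3) (.e (nat_lit 98373) (nat_lit 29) (.e (nat_lit 450587) (nat_lit 10) (.e (nat_lit 573472) (nat_lit 12) .nil)))) (.g (nat_lit 0) (.e (nat_lit 132463) (nat_lit 0) .nil) .nil))))) (.nd (nat_lit 8) (.nd (nat_lit 9) 
(.lf (nat_lit 484486) (.g (nat_lit 4227) (.e (nat_lit 8234) (nat_lit 20) (.e (nat_lit 573482) (nat_lit 13) (.e (nat_lit 65619) (nat_lit 10) (.e (nat_lit 344117) (nat_lit 21) (.e (nat_lit 516106) (nat_lit 0) (.e (nat_lit 6986) (nat_lit 377) (.e (nat_lit 2402) (nat_lit 157) (.e (nat_lit 5376) (nat_lit 299) .nil)))))))) (.g (nat_lit 1) (.e (nat_lit 130471) (nat_lit 0) .nil) .nil))) 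
(.lf (nat_lit 484998) (.g (nat_lit 2765) (.e (nat_lit 24605) (nat_lit 2) (.e (nat_lit 90170) (nat_lit 13) (.e (nat_lit 172106) (nat_lit 10) (.e (nat_lit 434244) (nat_lit 28) (.e (nat_lit 573453) (nat_lit 9) .nil))))) (.g (nat_lit 0) (.e (nat_lit 132318) (nat_lit 0) .nil) .nil)))) (.nd (nat_lit 9) 
(.lf (nat_lit 484742) (.g (nat_lit 2179) (.e (nat_lit 24603) (nat_lit 2) (.e (nat_lit 90176) (nat_lit 15) (.e (nat_lit 188440) (nat_lit 20) (.e (nat_lit 3307) (nat_lit 202) (.e (nat_lit 573478) (nat_lit 12) .nil))))) (.g (nat_lit 0) (.e (nat_lit 132045) (nat_lit 0) .nil) .nil))) 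
(.lf (nat_lit 485254) (.g (nat_lit 3014) (.e (nat_lit 24607) (nat_lit 3) (.e (nat_lit 98387) (nat_lit 33) (.e (nat_lit 491566) (nat_lit 12) (.e (nat_lit 385065) (nat_lit 26) (.e (nat_lit 532508) (nat_lit 2) .nil))))) (.g (nat_lit 0) (.e (nat_lit 132600) (nat_lit 0) .nil) .nil)))))) (.nd (nat_lit 7) (.nd (nat_lit 8) (.nd (nat_lit 9) 
(.lf (nat_lit 484422) (.g (nat_lit 2041) (.e (nat_lit 8211) (nat_lit 9) (.e (nat_lit 303145) (nat_lit 13) (.e (nat_lit 483346) (nat_lit 17) (.e (nat_lit 6724) (nat_lit 362) .nil)))) (.g (nat_lit 0) (.e (nat_lit 130008) (nat_lit 0) .nil) .nil))) 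
(.lf (nat_lit 484934) (.g (nat_lit 1807) (.e (nat_lit 24604) (nat_lit 2) (.e (nat_lit 90185) (nat_lit 17) (.e (nat_lit 237601) (nat_lit 9) (.e (nat_lit 426436) (nat_lit 18) (.e (nat_lit 98321) (nat_lit 17) (.e (nat_lit 3648) (nat_lit 227) (.e (nat_lit 778462) (nat_lit 11) .nil))))))) (.g (nat_lit 1) (.e (nat_lit 132253) (nat_lit 0) .nil) .nil)))) (.nd (nat_lit 9) 
(.lf (nat_lit 484678) (.g (nat_lit 1228) (.e (nat_lit 24601) (nat_lit 2) (.e (nat_lit 90170) (nat_lit 13) (.e (nat_lit 172106) (nat_lit 10) (.e (nat_lit 434244) (nat_lit 28) .nil)))) (.g (nat_lit 0) (.e (nat_lit 131969) (nat_lit 0) .nil) .nil))) 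
(.lf (nat_lit 485190) (.g (nat_lit 1881) (.e (nat_lit 24607) (nat_lit 3) (.e (nat_lit 98365) (nat_lit 26) (.e (nat_lit 426306) (nat_lit 12) (.e (nat_lit 475179) (nat_lit 24) (.e (nat_lit 516102) (nat_lit 0) .nil))))) (.g (nat_lit 0) (.e (nat_lit 132536) (nat_lit 0) .nil) .nil))))) (.nd (nat_lit 8) (.nd (nat_lit 9) 
(.lf (nat_lit 484550) (.g (nat_lit 3277) (.e (nat_lit 24579) (nat_lit 0) (.e (nat_lit 6619) (nat_lit 357) (.e (nat_lit 2685) (nat_lit 168) (.e (nat_lit 204869) (nat_lit 29) (.e (nat_lit 360475) (nat_lit 8) (.e (nat_lit 557086) (nat_lit 11) .nil)))))) (.g (nat_lit 1) (.e (nat_lit 131591) (nat_lit 0) .nil) .nil))) 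
(.lf (nat_lit 485062) (.g (nat_lit 2620) (.e (nat_lit 24605) (nat_lit 2) (.e (nat_lit 90170) (nat_lit 13) (.e (nat_lit 172118) (nat_lit 12) (.e (nat_lit 475179) (nat_lit 24) (.e (nat_lit 516126) (nat_lit 2) (.e (nat_lit 213032) (nat_lit 11) .nil)))))) (.g (nat_lit 1) (.e (nat_lit 132383) (nat_lit 0) .nil) .nil)))) (.nd (nat_lit 9) 
(.lf (nat_lit 484806) (.g (nat_lit 3708) (.e (nat_lit 24604) (nat_lit 2) (.e (nat_lit 90170) (nat_lit 13) (.e (nat_lit 172106) (nat_lit 10) (.e (nat_lit 434231) (nat_lit 23) (.e (nat_lit 532500) (nat_lit 1) (.e (nat_lit 65280) (nat_lit 233) (.e (nat_lit 2556) (nat_lit 159) .nil))))))) (.g (nat_lit 1) (.e (nat_lit 132120) (nat_lit 0) .nil) .nil))) 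
(.lf (nat_lit 485318) (.g (nat_lit 2279) (.e (nat_lit 24608) (nat_lit 3) (.e (nat_lit 98365) (nat_lit 26) (.e (nat_lit 426187) (nat_lit 9) (.e (nat_lit 426436) (nat_lit 18) (.e (nat_lit 98336) (nat_lit 19) (.e (nat_lit 213032) (nat_lit 11) .nil)))))) (.g (nat_lit 1) (.e (nat_lit 132675) (nat_lit 0) .nil) .nil))))))) (.nd (nat_lit 6) (.nd (nat_lit 7) (.nd (nat_lit 8) (.nd (nat_lit 9) 
(.lf (nat_lit 484390) (.g (nat_lit 2502) (.e (nat_lit 8326) (nat_lit 69) (.e (nat_lit 557105) (nat_lit 14) (.e (nat_lit 180252) (nat_lit 10) (.e (nat_lit 573489) (nat_lit 14) (.e (nat_lit 73755) (nat_lit 8) (.e (nat_lit 557090) (nat_lit 12) (.e (nat_lit 164005) (nat_lit 41) (.e (nat_lit 671488) (nat_lit 10) .nil)))))))) (.g (nat_lit 1) (.e (nat_lit 129887) (nat_lit 0) .nil) .nil))) 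
(.lf (nat_lit 484902) (.g (nat_lit 2410) (.e (nat_lit 24604) (nat_lit 2) (.e (nat_lit 90176) (nat_lit 15) (.e (nat_lit 188450) (nat_lit 23) (.e (nat_lit 204830) (nat_lit 18) (.e (nat_lit 65280) (nat_lit 233) (.e (nat_lit 2551) (nat_lit 159) .nil)))))) (.g (nat_lit 1) (.e (nat_lit 132218) (nat_lit 0) .nil) .nil)))) (.nd (nat_lit 9) 
(.lf (nat_lit 484646) (.g (nat_lit 2890) (.e (nat_lit 24598) (nat_lit 1) (.e (nat_lit 57927) (nat_lit 282) (.e (nat_lit 163907) (nat_lit 12) (.e (nat_lit 426555) (nat_lit 32) (.e (nat_lit 376862) (nat_lit 22) (.e (nat_lit 90160) (nat_lit 11) .nil)))))) (.g (nat_lit 1) (.e (nat_lit 131867) (nat_lit 0) .nil) .nil))) 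
(.lf (nat_lit 485158) (.g (nat_lit 2978) (.e (nat_lit 24607) (nat_lit 3) (.e (nat_lit 98359) (nat_lit 26) (.e (nat_lit 426286) (nat_lit 10) (.e (nat_lit 434248) (nat_lit 28) (.e (nat_lit 573477) (nat_lit 12) .nil))))) (.g (nat_lit 0) (.e (nat_lit 132504) (nat_lit 0) .nil) .nil))))) (.nd (nat_lit 8) (.nd (nat_lit 9) 
(.lf (nat_lit 484518) (.g (nat_lit 2607) (.e (nat_lit 8427) (nat_lit 136) (.e (nat_lit 163902) (nat_lit 12) (.e (nat_lit 426438) (nat_lit 18) (.e (nat_lit 98373) (nat_lit 29) (.e (nat_lit 458496) (nat_lit 26) .nil))))) (.g (nat_lit 0) (.e (nat_lit 131052) (nat_lit 0) .nil) .nil))) 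
(.lf (nat_lit 485030) (.g (nat_lit 4781) (.e (nat_lit 24605) (nat_lit 2) (.e (nat_lit 90170) (nat_lit 13) (.e (nat_lit 172113) (nat_lit 10) (.e (nat_lit 434247) (nat_lit 28) (.e (nat_lit 573477) (nat_lit 12) (.e (nat_lit 57575) (nat_lit 55) (.e (nat_lit 778465) (nat_lit 11) .nil))))))) (.g (nat_lit 1) (.e (nat_lit 132351) (nat_lit 0) .nil) .nil)))) (.nd (nat_lit 9) 
(.lf (nat_lit 484774) (.g (nat_lit 2900) (.e (nat_lit 24604) (nat_lit 2) (.e (nat_lit 90167) (nat_lit 13) (.e (nat_lit 172126) (nat_lit 14) (.e (nat_lit 491539) (nat_lit 3) (.e (nat_lit 106240) (nat_lit 5) (.e (nat_lit 147495) (nat_lit 11) .nil)))))) (.g (nat_lit 1) (.e (nat_lit 132086) (nat_lit 0) .nil) .nil))) 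
(.lf (nat_lit 485286) (.g (nat_lit 1996) (.e (nat_lit 24608) (nat_lit 3) (.e (nat_lit 98363) (nat_lit 26) (.e (nat_lit 426230) (nat_lit 9) (.e (nat_lit 426435) (nat_lit 18) (.e (nat_lit 98339) (nat_lit 19) (.e (nat_lit 213030) (nat_lit 11) .nil)))))) (.g (nat_lit 1) (.e (nat_lit 132643) (nat_lit 0) .nil) .nil)))))) (.nd (nat_lit 7) (.nd (nat_lit 8) (.nd (nat_lit 9) 
(.lf (nat_lit 484454) (.g (nat_lit 4194) (.e (nat_lit 8213) (nat_lit 9) (.e (nat_lit 303145) (nat_lit 13) (.e (nat_lit 483413) (nat_lit 27) (.e (nat_lit 401448) (nat_lit 10) (.e (nat_lit 434206) (nat_lit 18) .nil))))) (.g (nat_lit 0) (.e (nat_lit 130072) (nat_lit 0) .nil) .nil))) 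
(.lf (nat_lit 484966) (.g (nat_lit 1835) (.e (nat_lit 24604) (nat_lit 2) (.e (nat_lit 90185) (nat_lit 17) (.e (nat_lit 237616) (nat_lit 12) (.e (nat_lit 475177) (nat_lit 24) (.e (nat_lit 516100) (nat_lit 0) (.e (nat_lit 3617) (nat_lit 227) (.e (nat_lit 778462) (nat_lit 11) .nil))))))) (.g (nat_lit 1) (.e (nat_lit 132285) (nat_lit 0) .nil) .nil)))) (.nd (nat_lit 9) 
(.lf (nat_lit 484710) (.g (nat_lit 2892) (.e (nat_lit 24602) (nat_lit 2) (.e (nat_lit 90170) (nat_lit 13) (.e (nat_lit 172113) (nat_lit 10) (.e (nat_lit 434248) (nat_lit 28) (.e (nat_lit 573475) (nat_lit 12) (.e (nat_lit 57574) (nat_lit 55) (.e (nat_lit 778463) (nat_lit 11) .nil))))))) (.g (nat_lit 1) (.e (nat_lit 132006) (nat_lit 0) .nil) .nil))) 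
(.lf (nat_lit 485222) (.g (nat_lit 3863) (.e (nat_lit 24607) (nat_lit 3) (.e (nat_lit 98373) (nat_lit 29) (.e (nat_lit 450587) (nat_lit 10) (.e (nat_lit 573472) (nat_lit 12) .nil)))) (.g (nat_lit 0) (.e (nat_lit 132568) (nat_lit 0) .nil) .nil))))) (.nd (nat_lit 8) (.nd (nat_lit 9) 
(.lf (nat_lit 484582) (.g (nat_lit 2488) (.e (nat_lit 24593) (nat_lit 0) (.e (nat_lit 1796) (nat_lit 119) (.e (nat_lit 516166) (nat_lit 12) (.e (nat_lit 450587) (nat_lit 10) (.e (nat_lit 573477) (nat_lit 12) .nil))))) (.g (nat_lit 0) (.e (nat_lit 131737) (nat_lit 0) .nil) .nil))) 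
(.lf (nat_lit 485094) (.g (nat_lit 2154) (.e (nat_lit 24605) (nat_lit 2) (.e (nat_lit 90185) (nat_lit 17) (.e (nat_lit 237616) (nat_lit 12) (.e (nat_lit 475179) (nat_lit 24) (.e (nat_lit 516126) (nat_lit 2) (.e (nat_lit 213032) (nat_lit 11) .nil)))))) (.g (nat_lit 1) (.e (nat_lit 132418) (nat_lit 0) .nil) .nil)))) (.nd (nat_lit 9) 
(.lf (nat_lit 484838) (.g (nat_lit 6620) (.e (nat_lit 24604) (nat_lit 2) (.e (nat_lit 90170) (nat_lit 13) (.e (nat_lit 172106) (nat_lit 10) (.e (nat_lit 434244) (nat_lit 28) (.e (nat_lit 573475) (nat_lit 12) (.e (nat_lit 57574) (nat_lit 55) (.e (nat_lit 778466) (nat_lit 11) .nil))))))) (.g (nat_lit 1) (.e (nat_lit 132152) (nat_lit 0) .nil) .nil))) 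
(.lf (nat_lit 485350) (.g (nat_lit 3350) (.e (nat_lit 24608) (nat_lit 3) (.e (nat_lit 98365) (nat_lit 26) (.e (nat_lit 426298) (nat_lit 11) (.e (nat_lit 458794) (nat_lit 28) (.e (nat_lit 573478) (nat_lit 12) (.e (nat_lit 57574) (nat_lit 55) (.e (nat_lit 778466) (nat_lit 11) .nil))))))) (.g (nat_lit 1) (.e (nat_lit 132707) (nat_lit 0) .nil) .nil)))))))) 
(.nd (nat_lit 5) (.nd (nat_lit 6) (.nd (nat_lit 7) (.nd (nat_lit 8) (.nd (nat_lit 9) 
(.lf (nat_lit 484374) (.g (nat_lit 1969) (.e (nat_lit 8326) (nat_lit 69) (.e (nat_lit 557101) (nat_lit 13) (.e (nat_lit 172097) (nat_lit 9) (.e (nat_lit 426140) (nat_lit 3) (.e (nat_lit 204845) (nat_lit 24) .nil))))) (.g (nat_lit 0) (.e (nat_lit 129871) (nat_lit 0) .nil) .nil))) 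
(.lf (nat_lit 484886) (.g (nat_lit 2411) (.e (nat_lit 24604) (nat_lit 2) (.e (nat_lit 90170) (nat_lit 13) (.e (nat_lit 172120) (nat_lit 12) (.e (nat_lit 475178) (nat_lit 24) (.e (nat_lit 516124) (nat_lit 2) (.e (nat_lit 213032) (nat_lit 11) .nil)))))) (.g (nat_lit 1) (.e (nat_lit 132200) (nat_lit 0) .nil) .nil)))) (.nd (nat_lit 9) 
(.lf (nat_lit 484630) (.g (nat_lit 3368) (.e (nat_lit 24598) (nat_lit 1) (.e (nat_lit 57926) (nat_lit 282) (.e (nat_lit 163903) (nat_lit 12) (.e (nat_lit 426555) (nat_lit 32) (.e (nat_lit 376862) (nat_lit 22) (.e (nat_lit 90158) (nat_lit 11) .nil)))))) (.g (nat_lit 1) (.e (nat_lit 131835) (nat_lit 0) .nil) .nil))) 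
(.lf (nat_lit 485142) (.g (nat_lit 4417) (.e (nat_lit 24606) (nat_lit 3) (.e (nat_lit 98373) (nat_lit 29) (.e (nat_lit 450588) (nat_lit 10) (.e (nat_lit 573475) (nat_lit 12) (.e (nat_lit 57574) (nat_lit 55) (.e (nat_lit 778466) (nat_lit 11) .nil)))))) (.g (nat_lit 1) (.e (nat_lit 132479) (nat_lit 0) .nil) .nil))))) (.nd (nat_lit 8) (.nd (nat_lit 9) 
(.lf (nat_lit 484502) (.g (nat_lit 2881) (.e (nat_lit 8234) (nat_lit 20) (.e (nat_lit 573489) (nat_lit 14) (.e (nat_lit 73755) (nat_lit 8) (.e (nat_lit 557103) (nat_lit 14) (.e (nat_lit 188160) (nat_lit 3) .nil))))) (.g (nat_lit 0) (.e (nat_lit 130776) (nat_lit 0) .nil) .nil))) 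
(.lf (nat_lit 485014) (.g (nat_lit 4360) (.e (nat_lit 24605) (nat_lit 2) (.e (nat_lit 90170) (nat_lit 13) (.e (nat_lit 172113) (nat_lit 10) (.e (nat_lit 434245) (nat_lit 28) (.e (nat_lit 573474) (nat_lit 12) (.e (nat_lit 57574) (nat_lit 55) (.e (nat_lit 778465) (nat_lit 11) .nil))))))) (.g (nat_lit 1) (.e (nat_lit 132335) (nat_lit 0) .nil) .nil)))) (.nd (nat_lit 9) 
(.lf (nat_lit 484758) (.g (nat_lit 2106) (.e (nat_lit 24603) (nat_lit 2) (.e (nat_lit 90185) (nat_lit 17) (.e (nat_lit 237616) (nat_lit 12) (.e (nat_lit 475177) (nat_lit 24) (.e (nat_lit 516126) (nat_lit 2) (.e (nat_lit 213032) (nat_lit 11) .nil)))))) (.g (nat_lit 1) (.e (nat_lit 132061) (nat_lit 0) .nil) .nil))) 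
(.lf (nat_lit 485270) (.g (nat_lit 651) (.e (nat_lit 24608) (nat_lit 3) (.e (nat_lit 98356) (nat_lit 26) (.e (nat_lit 433920) (nat_lit 10) .nil))) (.g (nat_lit 0) (.e (nat_lit 132624) (nat_lit 0) .nil) .nil)))))) (.nd (nat_lit 7) (.nd (nat_lit 8) (.nd (nat_lit 9) 
(.lf (nat_lit 484438) (.g (nat_lit 2882) (.e (nat_lit 8213) (nat_lit 9) (.e (nat_lit 303143) (nat_lit 12) (.e (nat_lit 475185) (nat_lit 29) (.e (nat_lit 557100) (nat_lit 13) .nil)))) (.g (nat_lit 0) (.e (nat_lit 130054) (nat_lit 0) .nil) .nil))) 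
(.lf (nat_lit 484950) (.g (nat_lit 1983) (.e (nat_lit 24604) (nat_lit 2) (.e (nat_lit 90185) (nat_lit 17) (.e (nat_lit 237605) (nat_lit 9) (.e (nat_lit 426436) (nat_lit 18) (.e (nat_lit 98321) (nat_lit 17) (.e (nat_lit 3648) (nat_lit 227) (.e (nat_lit 778462) (nat_lit 11) .nil))))))) (.g (nat_lit 1) (.e (nat_lit 132269) (nat_lit 0) .nil) .nil)))) (.nd (nat_lit 9) 
(.lf (nat_lit 484694) (.g (nat_lit 2141) (.e (nat_lit 24601) (nat_lit 2) (.e (nat_lit 90170) (nat_lit 13) (.e (nat_lit 172113) (nat_lit 10) (.e (nat_lit 434248) (nat_lit 28) (.e (nat_lit 573452) (nat_lit 9) .nil))))) (.g (nat_lit 0) (.e (nat_lit 131985) (nat_lit 0) .nil) .nil))) 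
(.lf (nat_lit 485206) (.g (nat_lit 2439) (.e (nat_lit 24607) (nat_lit 3) (.e (nat_lit 98372) (nat_lit 29) (.e (nat_lit 450587) (nat_lit 10) (.e (nat_lit 573477) (nat_lit 12) (.e (nat_lit 57575) (nat_lit 55) (.e (nat_lit 778463) (nat_lit 11) .nil)))))) (.g (nat_lit 1) (.e (nat_lit 132552) (nat_lit 0) .nil) .nil))))) (.nd (nat_lit 8) (.nd (nat_lit 9) 
(.lf (nat_lit 484566) (.g (nat_lit 1789) (.e (nat_lit 24580) (nat_lit 0) (.e (nat_lit 6724) (nat_lit 362) (.e (nat_lit 180271) (nat_lit 26) (.e (nat_lit 704737) (nat_lit 11) (.e (nat_lit 16388) (nat_lit 0) (.e (nat_lit 7377) (nat_lit 390) .nil)))))) (.g (nat_lit 1) (.e (nat_lit 131682) (nat_lit 0) .nil) .nil))) 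
(.lf (nat_lit 485078) (.g (nat_lit 2015) (.e (nat_lit 24605) (nat_lit 2) (.e (nat_lit 90176) (nat_lit 15) (.e (nat_lit 188420) (nat_lit 0) (.e (nat_lit 1800) (nat_lit 119) (.e (nat_lit 516127) (nat_lit 2) (.e (nat_lit 213032) (nat_lit 11) .nil)))))) (.g (nat_lit 1) (.e (nat_lit 132399) (nat_lit 0) .nil) .nil)))) (.nd (nat_lit 9) 
(.lf (nat_lit 484822) (.g (nat_lit 3218) (.e (nat_lit 24604) (nat_lit 2) (.e (nat_lit 90170) (nat_lit 13) (.e (nat_lit 172106) (nat_lit 10) (.e (nat_lit 434244) (nat_lit 28) (.e (nat_lit 573451) (nat_lit 9) (.e (nat_lit 1002) (nat_lit 81) (.e (nat_lit 2336) (nat_lit 151) (.e (nat_lit 778469) (nat_lit 11) .nil)))))))) (.g (nat_lit 1) (.e (nat_lit 132136) (nat_lit 0) .nil) .nil))) 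
(.lf (nat_lit 485334) (.g (nat_lit 2416) (.e (nat_lit 24608) (nat_lit 3) (.e (nat_lit 98365) (nat_lit 26) (.e (nat_lit 426188) (nat_lit 9) (.e (nat_lit 426436) (nat_lit 18) (.e (nat_lit 98338) (nat_lit 19) (.e (nat_lit 220928) (nat_lit 11) .nil)))))) (.g (nat_lit 1) (.e (nat_lit 132691) (nat_lit 0) .nil) .nil))))))) (.nd (nat_lit 6) (.nd (nat_lit 7) (.nd (nat_lit 8) (.nd (nat_lit 9) 
(.lf (nat_lit 484406) (.g (nat_lit 3068) (.e (nat_lit 8356) (nat_lit 88) (.e (nat_lit 712755) (nat_lit 30) (.e (nat_lit 450588) (nat_lit 10) (.e (nat_lit 573473) (nat_lit 12) (.e (nat_lit 57506) (nat_lit 39) .nil))))) (.g (nat_lit 0) (.e (nat_lit 129975) (nat_lit 0) .nil) .nil))) 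
(.lf (nat_lit 484918) (.g (nat_lit 3282) (.e (nat_lit 24604) (nat_lit 2) (.e (nat_lit 90178) (nat_lit 15) (.e (nat_lit 188440) (nat_lit 20) (.e (nat_lit 3307) (nat_lit 202) (.e (nat_lit 573478) (nat_lit 12) (.e (nat_lit 57574) (nat_lit 55) (.e (nat_lit 778464) (nat_lit 11) .nil))))))) (.g (nat_lit 1) (.e (nat_lit 132236) (nat_lit 0) .nil) .nil)))) (.nd (nat_lit 9) 
(.lf (nat_lit 484662) (.g (nat_lit 3002) (.e (nat_lit 24599) (nat_lit 1) (.e (nat_lit 57929) (nat_lit 282) (.e (nat_lit 163902) (nat_lit 12) (.e (nat_lit 426555) (nat_lit 32) (.e (nat_lit 376862) (nat_lit 22) (.e (nat_lit 90158) (nat_lit 11) .nil)))))) (.g (nat_lit 1) (.e (nat_lit 131923) (nat_lit 0) .nil) .nil))) 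
(.lf (nat_lit 485174) (.g (nat_lit 2118) (.e (nat_lit 24607) (nat_lit 3) (.e (nat_lit 98365) (nat_lit 26) (.e (nat_lit 426188) (nat_lit 9) (.e (nat_lit 426428) (nat_lit 17) (.e (nat_lit 90165) (nat_lit 12) (.e (nat_lit 164048) (nat_lit 55) (.e (nat_lit 778469) (nat_lit 11) .nil))))))) (.g (nat_lit 1) (.e (nat_lit 132520) (nat_lit 0) .nil) .nil))))) (.nd (nat_lit 8) (.nd (nat_lit 9) 
(.lf (nat_lit 484534) (.g (nat_lit 1718) (.e (nat_lit 8567) (nat_lit 250) (.e (nat_lit 1427) (nat_lit 108) (.e (nat_lit 336454) (nat_lit 34) (.e (nat_lit 483365) (nat_lit 18) .nil)))) (.g (nat_lit 0) (.e (nat_lit 131425) (nat_lit 0) .nil) .nil))) 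
(.lf (nat_lit 485046) (.g (nat_lit 3657) (.e (nat_lit 24605) (nat_lit 2) (.e (nat_lit 90170) (nat_lit 13) (.e (nat_lit 172113) (nat_lit 10) (.e (nat_lit 434248) (nat_lit 28) (.e (nat_lit 573475) (nat_lit 12) (.e (nat_lit 57574) (nat_lit 55) (.e (nat_lit 778463) (nat_lit 11) .nil))))))) (.g (nat_lit 1) (.e (nat_lit 132367) (nat_lit 0) .nil) .nil)))) (.nd (nat_lit 9) 
(.lf (nat_lit 484790) (.g (nat_lit 3351) (.e (nat_lit 24604) (nat_lit 2) (.e (nat_lit 90170) (nat_lit 13) (.e (nat_lit 172106) (nat_lit 10) (.e (nat_lit 434231) (nat_lit 23) (.e (nat_lit 532481) (nat_lit 0) (.e (nat_lit 996) (nat_lit 81) (.e (nat_lit 4547) (nat_lit 269) (.e (nat_lit 2552) (nat_lit 159) .nil)))))))) (.g (nat_lit 1) (.e (nat_lit 132104) (nat_lit 0) .nil) .nil))) 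
(.lf (nat_lit 485302) (.g (nat_lit 3829) (.e (nat_lit 24608) (nat_lit 3) (.e (nat_lit 98365) (nat_lit 26) (.e (nat_lit 426099) (nat_lit 1) (.e (nat_lit 164332) (nat_lit 230) (.e (nat_lit 163874) (nat_lit 3) (.e (nat_lit 204830) (nat_lit 18) (.e (nat_lit 57908) (nat_lit 278) (.e (nat_lit 2553) (nat_lit 159) .nil)))))))) (.g (nat_lit 1) (.e (nat_lit 132659) (nat_lit 0) .nil) .nil)))))) 
(.nd (nat_lit 7) (.nd (nat_lit 8) (.nd (nat_lit 9) 
(.lf (nat_lit 484470) (.g (nat_lit 491) (.e (nat_lit 8228) (nat_lit 15) (.e (nat_lit 532503) (nat_lit 1) (.e (nat_lit 57847) (nat_lit 252) .nil))) (.g (nat_lit 0) (.e (nat_lit 130204) (nat_lit 0) .nil) .nil))) 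
(.lf (nat_lit 484982) (.g (nat_lit 1840) (.e (nat_lit 24604) (nat_lit 2) (.e (nat_lit 90185) (nat_lit 17) (.e (nat_lit 237619) (nat_lit 12) (.e (nat_lit 475179) (nat_lit 24) (.e (nat_lit 516105) (nat_lit 0) (.e (nat_lit 3617) (nat_lit 227) (.e (nat_lit 778462) (nat_lit 11) .nil))))))) (.g (nat_lit 1) (.e (nat_lit 132301) (nat_lit 0) .nil) .nil)))) (.nd (nat_lit 9) 
(.lf (nat_lit 484726) (.g (nat_lit 2021) (.e (nat_lit 24603) (nat_lit 2) (.e (nat_lit 90167) (nat_lit 13) (.e (nat_lit 172113) (nat_lit 10) (.e (nat_lit 434247) (nat_lit 28) (.e (nat_lit 573477) (nat_lit 12) (.e (nat_lit 57574) (nat_lit 55) (.e (nat_lit 778466) (nat_lit 11) .nil))))))) (.g (nat_lit 1) (.e (nat_lit 132023) (nat_lit 0) .nil) .nil))) 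
(.lf (nat_lit 485238) (.g (nat_lit 4098) (.e (nat_lit 24607) (nat_lit 3) (.e (nat_lit 98373) (nat_lit 29) (.e (nat_lit 450588) (nat_lit 10) (.e (nat_lit 573453) (nat_lit 9) .nil)))) (.g (nat_lit 0) (.e (nat_lit 132584) (nat_lit 0) .nil) .nil))))) (.nd (nat_lit 8) (.nd (nat_lit 9) 
(.lf (nat_lit 484598) (.g (nat_lit 3500) (.e (nat_lit 24597) (nat_lit 1) (.e (nat_lit 57926) (nat_lit 282) (.e (nat_lit 163902) (nat_lit 12) (.e (nat_lit 426555) (nat_lit 32) (.e (nat_lit 376865) (nat_lit 22) (.e (nat_lit 90158) (nat_lit 11) .nil)))))) (.g (nat_lit 1) (.e (nat_lit 131763) (nat_lit 0) .nil) .nil))) 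
(.lf (nat_lit 485110) (.g (nat_lit 4338) (.e (nat_lit 24606) (nat_lit 3) (.e (nat_lit 98359) (nat_lit 26) (.e (nat_lit 426286) (nat_lit 10) (.e (nat_lit 434245) (nat_lit 28) (.e (nat_lit 573474) (nat_lit 12) (.e (nat_lit 57574) (nat_lit 55) (.e (nat_lit 778466) (nat_lit 11) .nil))))))) (.g (nat_lit 1) (.e (nat_lit 132434) (nat_lit 0) .nil) .nil)))) (.nd (nat_lit 9) 
(.lf (nat_lit 484854) (.g (nat_lit 3736) (.e (nat_lit 24604) (nat_lit 2) (.e (nat_lit 90170) (nat_lit 13) (.e (nat_lit 172106) (nat_lit 10) (.e (nat_lit 434247) (nat_lit 28) (.e (nat_lit 573477) (nat_lit 12) (.e (nat_lit 57574) (nat_lit 55) (.e (nat_lit 778465) (nat_lit 11) .nil))))))) (.g (nat_lit 1) (.e (nat_lit 132168) (nat_lit 0) .nil) .nil))) 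
(.lf (nat_lit 485366) (.g (nat_lit 2097) (.e (nat_lit 24608) (nat_lit 3) (.e (nat_lit 98365) (nat_lit 26) (.e (nat_lit 426306) (nat_lit 12) (.e (nat_lit 475177) (nat_lit 24) (.e (nat_lit 516137) (nat_lit 6) .nil))))) (.g (nat_lit 0) (.e (nat_lit 132723) (nat_lit 0) .nil) .nil))))))))) (.nd (nat_lit 4) (.nd (nat_lit 5) (.nd (nat_lit 6) (.nd (nat_lit 7) (.nd (nat_lit 8) (.nd (nat_lit 9) 
(.lf (nat_lit 484366) (.g (nat_lit 4770) (.e (nat_lit 8326) (nat_lit 69) (.e (nat_lit 557098) (nat_lit 13) (.e (nat_lit 172115) (nat_lit 10) (.e (nat_lit 434244) (nat_lit 28) (.e (nat_lit 573471) (nat_lit 11) (.e (nat_lit 16388) (nat_lit 0) (.e (nat_lit 7376) (nat_lit 389) .nil))))))) (.g (nat_lit 1) (.e (nat_lit 129863) (nat_lit 0) .nil) .nil))) 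
(.lf (nat_lit 484878) (.g (nat_lit 4679) (.e (nat_lit 24604) (nat_lit 2) (.e (nat_lit 90170) (nat_lit 13) (.e (nat_lit 172113) (nat_lit 10) (.e (nat_lit 434248) (nat_lit 28) (.e (nat_lit 573475) (nat_lit 12) (.e (nat_lit 57574) (nat_lit 55) (.e (nat_lit 778464) (nat_lit 11) .nil))))))) (.g (nat_lit 1) (.e (nat_lit 132192) (nat_lit 0) .nil) .nil)))) (.nd (nat_lit 9) 
(.lf (nat_lit 484622) (.g (nat_lit 1815) (.e (nat_lit 24597) (nat_lit 1) (.e (nat_lit 57930) (nat_lit 282) (.e (nat_lit 163902) (nat_lit 12) (.e (nat_lit 426555) (nat_lit 32) (.e (nat_lit 376862) (nat_lit 22) (.e (nat_lit 90158) (nat_lit 11) .nil)))))) (.g (nat_lit 1) (.e (nat_lit 131811) (nat_lit 0) .nil) .nil))) 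
(.lf (nat_lit 485134) (.g (nat_lit 3537) (.e (nat_lit 24606) (nat_lit 3) (.e (nat_lit 98373) (nat_lit 29) (.e (nat_lit 450587) (nat_lit 10) (.e (nat_lit 573478) (nat_lit 12) (.e (nat_lit 57574) (nat_lit 55) (.e (nat_lit 778465) (nat_lit 11) .nil)))))) (.g (nat_lit 1) (.e (nat_lit 132471) (nat_lit 0) .nil) .nil))))) (.nd (nat_lit 8) (.nd (nat_lit 9) 
(.lf (nat_lit 484494) (.g (nat_lit 2960) (.e (nat_lit 8234) (nat_lit 20) (.e (nat_lit 573482) (nat_lit 13) (.e (nat_lit 65619) (nat_lit 10) (.e (nat_lit 344117) (nat_lit 21) (.e (nat_lit 516106) (nat_lit 0) (.e (nat_lit 7095) (nat_lit 380) (.e (nat_lit 171776) (nat_lit 233) .nil))))))) (.g (nat_lit 1) (.e (nat_lit 130479) (nat_lit 0) .nil) .nil))) 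
(.lf (nat_lit 485006) (.g (nat_lit 406) (.e (nat_lit 24605) (nat_lit 2) (.e (nat_lit 90170) (nat_lit 13) (.e (nat_lit 172113) (nat_lit 10) .nil))) (.g (nat_lit 0) (.e (nat_lit 132327) (nat_lit 0) .nil) .nil)))) (.nd (nat_lit 9) 
(.lf (nat_lit 484750) (.g (nat_lit 4880) (.e (nat_lit 24603) (nat_lit 2) (.e (nat_lit 90178) (nat_lit 15) (.e (nat_lit 188440) (nat_lit 20) (.e (nat_lit 3307) (nat_lit 202) (.e (nat_lit 573475) (nat_lit 12) (.e (nat_lit 57574) (nat_lit 55) (.e (nat_lit 778466) (nat_lit 11) .nil))))))) (.g (nat_lit 1) (.e (nat_lit 132053) (nat_lit 0) .nil) .nil))) 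
(.lf (nat_lit 485262) (.g (nat_lit 3245) (.e (nat_lit 24608) (nat_lit 3) (.e (nat_lit 98317) (nat_lit 9) (.e (nat_lit 336004) (nat_lit 2) (.e (nat_lit 90160) (nat_lit 11) (.e (nat_lit 24604) (nat_lit 2) (.e (nat_lit 90160) (nat_lit 11) .nil)))))) (.g (nat_lit 1) (.e (nat_lit 132608) (nat_lit 0) .nil) .nil)))))) (.nd (nat_lit 7) (.nd (nat_lit 8) (.nd (nat_lit 9) 
(.lf (nat_lit 484430) (.g (nat_lit 4323) (.e (nat_lit 8213) (nat_lit 9) (.e (nat_lit 303118) (nat_lit 3) (.e (nat_lit 204869) (nat_lit 29) (.e (nat_lit 360475) (nat_lit 8) (.e (nat_lit 557091) (nat_lit 12) (.e (nat_lit 163843) (nat_lit 0) (.e (nat_lit 6058) (nat_lit 327) .nil))))))) (.g (nat_lit 1) (.e (nat_lit 130042) (nat_lit 0) .nil) .nil))) 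
(.lf (nat_lit 484942) (.g (nat_lit 2413) (.e (nat_lit 24604) (nat_lit 2) (.e (nat_lit 90185) (nat_lit 17) (.e (nat_lit 237605) (nat_lit 9) (.e (nat_lit 426428) (nat_lit 17) (.e (nat_lit 90134) (nat_lit 9) (.e (nat_lit 7936) (nat_lit 169) (.e (nat_lit 213032) (nat_lit 11) .nil))))))) (.g (nat_lit 1) (.e (nat_lit 132261) (nat_lit 0) .nil) .nil)))) (.nd (nat_lit 9) 
(.lf (nat_lit 484686) (.g (nat_lit 2491) (.e (nat_lit 24601) (nat_lit 2) (.e (nat_lit 90170) (nat_lit 13) (.e (nat_lit 172113) (nat_lit 10) (.e (nat_lit 434247) (nat_lit 28) (.e (nat_lit 573477) (nat_lit 12) (.e (nat_lit 57574) (nat_lit 55) (.e (nat_lit 778463) (nat_lit 11) .nil))))))) (.g (nat_lit 1) (.e (nat_lit 131977) (nat_lit 0) .nil) .nil))) 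
(.lf (nat_lit 485198) (.g (nat_lit 1843) (.e (nat_lit 24607) (nat_lit 3) (.e (nat_lit 98372) (nat_lit 29) (.e (nat_lit 450586) (nat_lit 10) (.e (nat_lit 573452) (nat_lit 9) (.e (nat_lit 1310) (nat_lit 98) .nil))))) (.g (nat_lit 0) (.e (nat_lit 132544) (nat_lit 0) .nil) .nil))))) (.nd (nat_lit 8) (.nd (nat_lit 9) 
(.lf (nat_lit 484558) (.g (nat_lit 2892) (.e (nat_lit 24580) (nat_lit 0) (.e (nat_lit 6720) (nat_lit 361) (.e (nat_lit 172145) (nat_lit 27) (.e (nat_lit 336059) (nat_lit 7) (.e (nat_lit 319504) (nat_lit 10) (.e (nat_lit 7936) (nat_lit 314) .nil)))))) (.g (nat_lit 1) (.e (nat_lit 131661) (nat_lit 0) .nil) .nil))) 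
(.lf (nat_lit 485070) (.g (nat_lit 2481) (.e (nat_lit 24605) (nat_lit 2) (.e (nat_lit 90170) (nat_lit 13) (.e (nat_lit 172120) (nat_lit 12) (.e (nat_lit 475179) (nat_lit 24) (.e (nat_lit 516122) (nat_lit 2) .nil))))) (.g (nat_lit 0) (.e (nat_lit 132391) (nat_lit 0) .nil) .nil)))) (.nd (nat_lit 9) 
(.lf (nat_lit 484814) (.g (nat_lit 2991) (.e (nat_lit 24604) (nat_lit 2) (.e (nat_lit 90170) (nat_lit 13) (.e (nat_lit 172106) (nat_lit 10) (.e (nat_lit 434242) (nat_lit 28) (.e (nat_lit 573476) (nat_lit 12) (.e (nat_lit 57574) (nat_lit 55) (.e (nat_lit 778466) (nat_lit 11) .nil))))))) (.g (nat_lit 1) (.e (nat_lit 132128) (nat_lit 0) .nil) .nil))) 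
(.lf (nat_lit 485326) (.g (nat_lit 2880) (.e (nat_lit 24608) (nat_lit 3) (.e (nat_lit 98365) (nat_lit 26) (.e (nat_lit 426188) (nat_lit 9) (.e (nat_lit 426428) (nat_lit 17) (.e (nat_lit 90165) (nat_lit 12) (.e (nat_lit 164040) (nat_lit 55) (.e (nat_lit 786176) (nat_lit 11) .nil))))))) (.g (nat_lit 1) (.e (nat_lit 132683) (nat_lit 0) .nil) .nil))))))) 
(.nd (nat_lit 6) (.nd (nat_lit 7) (.nd (nat_lit 8) (.nd (nat_lit 9) 
(.lf (nat_lit 484398) (.g (nat_lit 4687) (.e (nat_lit 8326) (nat_lit 69) (.e (nat_lit 557107) (nat_lit 15) (.e (nat_lit 188452) (nat_lit 23) (.e (nat_lit 204846) (nat_lit 24) (.e (nat_lit 319504) (nat_lit 10) (.e (nat_lit 7936) (nat_lit 313) .nil)))))) (.g (nat_lit 1) (.e (nat_lit 129896) (nat_lit 0) .nil) .nil))) 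
(.lf (nat_lit 484910) (.g (nat_lit 1306) (.e (nat_lit 24604) (nat_lit 2) (.e (nat_lit 90178) (nat_lit 15) (.e (nat_lit 188442) (nat_lit 20) (.e (nat_lit 3304) (nat_lit 202) (.e (nat_lit 581376) (nat_lit 21) (.e (nat_lit 164103) (nat_lit 116) (.e (nat_lit 778462) (nat_lit 11) .nil))))))) (.g (nat_lit 1) (.e (nat_lit 132228) (nat_lit 0) .nil) .nil)))) (.nd (nat_lit 9) 
(.lf (nat_lit 484654) (.g (nat_lit 3131) (.e (nat_lit 24598) (nat_lit 1) (.e (nat_lit 57931) (nat_lit 282) (.e (nat_lit 163905) (nat_lit 12) (.e (nat_lit 426555) (nat_lit 32) (.e (nat_lit 376862) (nat_lit 22) (.e (nat_lit 90158) (nat_lit 11) .nil)))))) (.g (nat_lit 1) (.e (nat_lit 131900) (nat_lit 0) .nil) .nil))) 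
(.lf (nat_lit 485166) (.g (nat_lit 2885) (.e (nat_lit 24607) (nat_lit 3) (.e (nat_lit 98365) (nat_lit 26) (.e (nat_lit 426187) (nat_lit 9) (.e (nat_lit 426436) (nat_lit 18) (.e (nat_lit 98339) (nat_lit 19) (.e (nat_lit 213030) (nat_lit 11) .nil)))))) (.g (nat_lit 1) (.e (nat_lit 132512) (nat_lit 0) .nil) .nil))))) (.nd (nat_lit 8) (.nd (nat_lit 9) 
(.lf (nat_lit 484526) (.g (nat_lit 1754) (.e (nat_lit 16128) (nat_lit 225) (.e (nat_lit 2797) (nat_lit 180) (.e (nat_lit 303117) (nat_lit 2) (.e (nat_lit 196674) (nat_lit 15) (.e (nat_lit 81946) (nat_lit 20) .nil))))) (.g (nat_lit 0) (.e (nat_lit 131329) (nat_lit 0) .nil) .nil))) 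
(.lf (nat_lit 485038) (.g (nat_lit 3712) (.e (nat_lit 24605) (nat_lit 2) (.e (nat_lit 90170) (nat_lit 13) (.e (nat_lit 172113) (nat_lit 10) (.e (nat_lit 434247) (nat_lit 28) (.e (nat_lit 573478) (nat_lit 12) (.e (nat_lit 57574) (nat_lit 55) (.e (nat_lit 778465) (nat_lit 11) .nil))))))) (.g (nat_lit 1) (.e (nat_lit 132359) (nat_lit 0) .nil) .nil)))) (.nd (nat_lit 9) 
(.lf (nat_lit 484782) (.g (nat_lit 3908) (.e (nat_lit 24604) (nat_lit 2) (.e (nat_lit 90169) (nat_lit 13) (.e (nat_lit 172113) (nat_lit 10) (.e (nat_lit 434248) (nat_lit 28) (.e (nat_lit 573475) (nat_lit 12) (.e (nat_lit 57574) (nat_lit 55) (.e (nat_lit 778466) (nat_lit 11) .nil))))))) (.g (nat_lit 1) (.e (nat_lit 132094) (nat_lit 0) .nil) .nil))) 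
(.lf (nat_lit 485294) (.g (nat_lit 2397) (.e (nat_lit 24608) (nat_lit 3) (.e (nat_lit 98363) (nat_lit 26) (.e (nat_lit 426318) (nat_lit 12) (.e (nat_lit 475179) (nat_lit 24) (.e (nat_lit 516126) (nat_lit 2) (.e (nat_lit 213030) (nat_lit 11) .nil)))))) (.g (nat_lit 1) (.e (nat_lit 132651) (nat_lit 0) .nil) .nil)))))) (.nd (nat_lit 7) (.nd (nat_lit 8) (.nd (nat_lit 9) 
(.lf (nat_lit 484462) (.g (nat_lit 2750) (.e (nat_lit 8226) (nat_lit 15) (.e (nat_lit 532499) (nat_lit 1) (.e (nat_lit 57847) (nat_lit 252) (.e (nat_lit 57440) (nat_lit 18) .nil)))) (.g (nat_lit 0) (.e (nat_lit 130109) (nat_lit 0) .nil) .nil))) 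
(.lf (nat_lit 484974) (.g (nat_lit 1527) (.e (nat_lit 24604) (nat_lit 2) (.e (nat_lit 90185) (nat_lit 17) (.e (nat_lit 237616) (nat_lit 12) (.e (nat_lit 475179) (nat_lit 24) (.e (nat_lit 524032) (nat_lit 2) (.e (nat_lit 213032) (nat_lit 11) .nil)))))) (.g (nat_lit 1) (.e (nat_lit 132293) (nat_lit 0) .nil) .nil)))) (.nd (nat_lit 9) 
(.lf (nat_lit 484718) (.g (nat_lit 2323) (.e (nat_lit 24602) (nat_lit 2) (.e (nat_lit 90185) (nat_lit 17) (.e (nat_lit 237619) (nat_lit 12) (.e (nat_lit 475177) (nat_lit 24) (.e (nat_lit 516127) (nat_lit 2) (.e (nat_lit 213032) (nat_lit 11) .nil)))))) (.g (nat_lit 1) (.e (nat_lit 132014) (nat_lit 0) .nil) .nil))) 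
(.lf (nat_lit 485230) (.g (nat_lit 5064) (.e (nat_lit 24607) (nat_lit 3) (.e (nat_lit 98373) (nat_lit 29) (.e (nat_lit 450587) (nat_lit 10) (.e (nat_lit 573477) (nat_lit 12) (.e (nat_lit 57575) (nat_lit 55) (.e (nat_lit 778465) (nat_lit 11) .nil)))))) (.g (nat_lit 1) (.e (nat_lit 132576) (nat_lit 0) .nil) .nil))))) (.nd (nat_lit 8) (.nd (nat_lit 9) 
(.lf (nat_lit 484590) (.g (nat_lit 3352) (.e (nat_lit 24595) (nat_lit 0) (.e (nat_lit 1800) (nat_lit 119) (.e (nat_lit 516165) (nat_lit 12) (.e (nat_lit 450588) (nat_lit 10) (.e (nat_lit 573475) (nat_lit 12) .nil))))) (.g (nat_lit 0) (.e (nat_lit 131745) (nat_lit 0) .nil) .nil))) 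
(.lf (nat_lit 485102) (.g (nat_lit 2351) (.e (nat_lit 24605) (nat_lit 2) (.e (nat_lit 90185) (nat_lit 17) (.e (nat_lit 237619) (nat_lit 12) (.e (nat_lit 475179) (nat_lit 24) (.e (nat_lit 516124) (nat_lit 2) (.e (nat_lit 213030) (nat_lit 11) .nil)))))) (.g (nat_lit 1) (.e (nat_lit 132426) (nat_lit 0) .nil) .nil)))) (.nd (nat_lit 9) 
(.lf (nat_lit 484846) (.g (nat_lit 5444) (.e (nat_lit 24604) (nat_lit 2) (.e (nat_lit 90170) (nat_lit 13) (.e (nat_lit 172106) (nat_lit 10) (.e (nat_lit 434245) (nat_lit 28) (.e (nat_lit 573474) (nat_lit 12) (.e (nat_lit 57574) (nat_lit 55) (.e (nat_lit 778466) (nat_lit 11) .nil))))))) (.g (nat_lit 1) (.e (nat_lit 132160) (nat_lit 0) .nil) .nil))) 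
(.lf (nat_lit 485358) (.g (nat_lit 1002) (.e (nat_lit 24608) (nat_lit 3) (.e (nat_lit 98365) (nat_lit 26) (.e (nat_lit 426306) (nat_lit 12) (.e (nat_lit 475177) (nat_lit 24) .nil)))) (.g (nat_lit 0) (.e (nat_lit 132715) (nat_lit 0) .nil) .nil)))))))) (.nd (nat_lit 5) (.nd (nat_lit 6) (.nd (nat_lit 7) (.nd (nat_lit 8) (.nd (nat_lit 9) 
(.lf (nat_lit 484382) (.g (nat_lit 4995) (.e (nat_lit 8326) (nat_lit 69) (.e (nat_lit 557101) (nat_lit 13) (.e (nat_lit 172115) (nat_lit 10) (.e (nat_lit 434244) (nat_lit 28) (.e (nat_lit 573471) (nat_lit 11) (.e (nat_lit 16388) (nat_lit 0) (.e (nat_lit 7376) (nat_lit 389) .nil))))))) (.g (nat_lit 1) (.e (nat_lit 129879) (nat_lit 0) .nil) .nil))) 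
(.lf (nat_lit 484894) (.g (nat_lit 2523) (.e (nat_lit 24604) (nat_lit 2) (.e (nat_lit 90176) (nat_lit 15) (.e (nat_lit 188420) (nat_lit 0) (.e (nat_lit 1800) (nat_lit 119) (.e (nat_lit 516127) (nat_lit 2) (.e (nat_lit 213032) (nat_lit 11) .nil)))))) (.g (nat_lit 1) (.e (nat_lit 132209) (nat_lit 0) .nil) .nil)))) (.nd (nat_lit 9) 
(.lf (nat_lit 484638) (.g (nat_lit 2472) (.e (nat_lit 24598) (nat_lit 1) (.e (nat_lit 57926) (nat_lit 282) (.e (nat_lit 163906) (nat_lit 12) (.e (nat_lit 426555) (nat_lit 32) (.e (nat_lit 376865) (nat_lit 22) (.e (nat_lit 90158) (nat_lit 11) .nil)))))) (.g (nat_lit 1) (.e (nat_lit 131845) (nat_lit 0) .nil) .nil))) 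
(.lf (nat_lit 485150) (.g (nat_lit 4053) (.e (nat_lit 24607) (nat_lit 3) (.e (nat_lit 98359) (nat_lit 26) (.e (nat_lit 426286) (nat_lit 10) (.e (nat_lit 434247) (nat_lit 28) (.e (nat_lit 573477) (nat_lit 12) (.e (nat_lit 57575) (nat_lit 55) (.e (nat_lit 778463) (nat_lit 11) .nil))))))) (.g (nat_lit 1) (.e (nat_lit 132496) (nat_lit 0) .nil) .nil))))) (.nd (nat_lit 8) (.nd (nat_lit 9) 
(.lf (nat_lit 484510) (.g (nat_lit 3902) (.e (nat_lit 8234) (nat_lit 20) (.e (nat_lit 573489) (nat_lit 14) (.e (nat_lit 73755) (nat_lit 8) (.e (nat_lit 557104) (nat_lit 14) (.e (nat_lit 188160) (nat_lit 3) (.e (nat_lit 516106) (nat_lit 0) (.e (nat_lit 3527) (nat_lit 218) (.e (nat_lit 704719) (nat_lit 10) .nil)))))))) (.g (nat_lit 1) (.e (nat_lit 130790) (nat_lit 0) .nil) .nil))) 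
(.lf (nat_lit 485022) (.g (nat_lit 2886) (.e (nat_lit 24605) (nat_lit 2) (.e (nat_lit 90170) (nat_lit 13) (.e (nat_lit 172113) (nat_lit 10) (.e (nat_lit 434247) (nat_lit 28) (.e (nat_lit 573477) (nat_lit 12) (.e (nat_lit 57573) (nat_lit 55) (.e (nat_lit 778469) (nat_lit 11) .nil))))))) (.g (nat_lit 1) (.e (nat_lit 132343) (nat_lit 0) .nil) .nil)))) (.nd (nat_lit 9) 
(.lf (nat_lit 484766) (.g (nat_lit 2176) (.e (nat_lit 24604) (nat_lit 2) (.e (nat_lit 90158) (nat_lit 11) (.e (nat_lit 24608) (nat_lit 3) (.e (nat_lit 98313) (nat_lit 9) (.e (nat_lit 336004) (nat_lit 2) (.e (nat_lit 90160) (nat_lit 11) .nil)))))) (.g (nat_lit 1) (.e (nat_lit 132072) (nat_lit 0) .nil) .nil))) 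
(.lf (nat_lit 485278) (.g (nat_lit 2872) (.e (nat_lit 24608) (nat_lit 3) (.e (nat_lit 98359) (nat_lit 26) (.e (nat_lit 426286) (nat_lit 10) (.e (nat_lit 434247) (nat_lit 28) (.e (nat_lit 573478) (nat_lit 12) (.e (nat_lit 65280) (nat_lit 55) (.e (nat_lit 778462) (nat_lit 11) .nil))))))) (.g (nat_lit 1) (.e (nat_lit 132635) (nat_lit 0) .nil) .nil)))))) 
(.nd (nat_lit 7) (.nd (nat_lit 8) (.nd (nat_lit 9) 
(.lf (nat_lit 484446) (.g (nat_lit 2426) (.e (nat_lit 8213) (nat_lit 9) (.e (nat_lit 303145) (nat_lit 13) (.e (nat_lit 483412) (nat_lit 27) (.e (nat_lit 401448) (nat_lit 10) .nil)))) (.g (nat_lit 0) (.e (nat_lit 130062) (nat_lit 0) .nil) .nil))) 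
(.lf (nat_lit 484958) (.g (nat_lit 2715) (.e (nat_lit 24604) (nat_lit 2) (.e (nat_lit 90185) (nat_lit 17) (.e (nat_lit 237613) (nat_lit 10) (.e (nat_lit 434247) (nat_lit 28) (.e (nat_lit 573475) (nat_lit 12) (.e (nat_lit 57574) (nat_lit 55) (.e (nat_lit 778466) (nat_lit 11) .nil))))))) (.g (nat_lit 1) (.e (nat_lit 132277) (nat_lit 0) .nil) .nil)))) (.nd (nat_lit 9) 
(.lf (nat_lit 484702) (.g (nat_lit 2896) (.e (nat_lit 24602) (nat_lit 2) (.e (nat_lit 90170) (nat_lit 13) (.e (nat_lit 172113) (nat_lit 10) (.e (nat_lit 434245) (nat_lit 28) (.e (nat_lit 573474) (nat_lit 12) (.e (nat_lit 57574) (nat_lit 55) (.e (nat_lit 778463) (nat_lit 11) .nil))))))) (.g (nat_lit 1) (.e (nat_lit 131998) (nat_lit 0) .nil) .nil))) 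
(.lf (nat_lit 485214) (.g (nat_lit 4822) (.e (nat_lit 24607) (nat_lit 3) (.e (nat_lit 98372) (nat_lit 29) (.e (nat_lit 450588) (nat_lit 10) (.e (nat_lit 573475) (nat_lit 12) (.e (nat_lit 57574) (nat_lit 55) (.e (nat_lit 778464) (nat_lit 11) .nil)))))) (.g (nat_lit 1) (.e (nat_lit 132560) (nat_lit 0) .nil) .nil))))) (.nd (nat_lit 8) (.nd (nat_lit 9) 
(.lf (nat_lit 484574) (.g (nat_lit 2018) (.e (nat_lit 24588) (nat_lit 0) (.e (nat_lit 1788) (nat_lit 119) (.e (nat_lit 516165) (nat_lit 12) (.e (nat_lit 450586) (nat_lit 10) (.e (nat_lit 573478) (nat_lit 12) .nil))))) (.g (nat_lit 0) (.e (nat_lit 131720) (nat_lit 0) .nil) .nil))) 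
(.lf (nat_lit 485086) (.g (nat_lit 800) (.e (nat_lit 24605) (nat_lit 2) (.e (nat_lit 90185) (nat_lit 17) (.e (nat_lit 237605) (nat_lit 9) (.e (nat_lit 426350) (nat_lit 15) .nil)))) (.g (nat_lit 0) (.e (nat_lit 132410) (nat_lit 0) .nil) .nil)))) (.nd (nat_lit 9) 
(.lf (nat_lit 484830) (.g (nat_lit 4695) (.e (nat_lit 24604) (nat_lit 2) (.e (nat_lit 90170) (nat_lit 13) (.e (nat_lit 172106) (nat_lit 10) (.e (nat_lit 434244) (nat_lit 28) (.e (nat_lit 573473) (nat_lit 12) (.e (nat_lit 57575) (nat_lit 55) (.e (nat_lit 778466) (nat_lit 11) .nil))))))) (.g (nat_lit 1) (.e (nat_lit 132144) (nat_lit 0) .nil) .nil))) 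
(.lf (nat_lit 485342) (.g (nat_lit 3387) (.e (nat_lit 24608) (nat_lit 3) (.e (nat_lit 98365) (nat_lit 26) (.e (nat_lit 426275) (nat_lit 10) (.e (nat_lit 434248) (nat_lit 28) (.e (nat_lit 573475) (nat_lit 12) (.e (nat_lit 57574) (nat_lit 55) (.e (nat_lit 778466) (nat_lit 11) .nil))))))) (.g (nat_lit 1) (.e (nat_lit 132699) (nat_lit 0) .nil) .nil))))))) 
(.nd (nat_lit 6) (.nd (nat_lit 7) (.nd (nat_lit 8) (.nd (nat_lit 9) 
(.lf (nat_lit 484414) (.g (nat_lit 2863) (.e (nat_lit 8357) (nat_lit 88) (.e (nat_lit 712755) (nat_lit 30) (.e (nat_lit 450588) (nat_lit 10) (.e (nat_lit 573473) (nat_lit 12) (.e (nat_lit 57508) (nat_lit 39) .nil))))) (.g (nat_lit 0) (.e (nat_lit 129983) (nat_lit 0) .nil) .nil))) 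
(.lf (nat_lit 484926) (.g (nat_lit 2126) (.e (nat_lit 24604) (nat_lit 2) (.e (nat_lit 90185) (nat_lit 17) (.e (nat_lit 237601) (nat_lit 9) (.e (nat_lit 426428) (nat_lit 17) (.e (nat_lit 90134) (nat_lit 9) (.e (nat_lit 7936) (nat_lit 169) (.e (nat_lit 213032) (nat_lit 11) .nil))))))) (.g (nat_lit 1) (.e (nat_lit 132245) (nat_lit 0) .nil) .nil)))) (.nd (nat_lit 9) 
(.lf (nat_lit 484670) (.g (nat_lit 3184) (.e (nat_lit 24599) (nat_lit 1) (.e (nat_lit 57931) (nat_lit 282) (.e (nat_lit 163902) (nat_lit 12) (.e (nat_lit 426555) (nat_lit 32) (.e (nat_lit 376862) (nat_lit 22) (.e (nat_lit 90160) (nat_lit 11) .nil)))))) (.g (nat_lit 1) (.e (nat_lit 131944) (nat_lit 0) .nil) .nil))) 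
(.lf (nat_lit 485182) (.g (nat_lit 2385) (.e (nat_lit 24607) (nat_lit 3) (.e (nat_lit 98365) (nat_lit 26) (.e (nat_lit 426188) (nat_lit 9) (.e (nat_lit 426438) (nat_lit 18) (.e (nat_lit 98338) (nat_lit 19) (.e (nat_lit 213030) (nat_lit 11) .nil)))))) (.g (nat_lit 1) (.e (nat_lit 132528) (nat_lit 0) .nil) .nil))))) (.nd (nat_lit 8) (.nd (nat_lit 9) 
(.lf (nat_lit 484542) (.g (nat_lit 1461) (.e (nat_lit 24577) (nat_lit 0) (.e (nat_lit 1822) (nat_lit 121) (.e (nat_lit 532515) (nat_lit 3) (.e (nat_lit 114719) (nat_lit 23) (.e (nat_lit 98354) (nat_lit 26) .nil))))) (.g (nat_lit 0) (.e (nat_lit 131569) (nat_lit 0) .nil) .nil))) 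
(.lf (nat_lit 485054) (.g (nat_lit 453) (.e (nat_lit 24605) (nat_lit 2) (.e (nat_lit 90170) (nat_lit 13) (.e (nat_lit 172118) (nat_lit 12) .nil))) (.g (nat_lit 0) (.e (nat_lit 132375) (nat_lit 0) .nil) .nil)))) (.nd (nat_lit 9) 
(.lf (nat_lit 484798) (.g (nat_lit 3985) (.e (nat_lit 24604) (nat_lit 2) (.e (nat_lit 90170) (nat_lit 13) (.e (nat_lit 172106) (nat_lit 10) (.e (nat_lit 434231) (nat_lit 23) (.e (nat_lit 532499) (nat_lit 1) (.e (nat_lit 65280) (nat_lit 233) (.e (nat_lit 2557) (nat_lit 159) .nil))))))) (.g (nat_lit 1) (.e (nat_lit 132112) (nat_lit 0) .nil) .nil))) 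
(.lf (nat_lit 485310) (.g (nat_lit 3526) (.e (nat_lit 24608) (nat_lit 3) (.e (nat_lit 98365) (nat_lit 26) (.e (nat_lit 426100) (nat_lit 1) (.e (nat_lit 164332) (nat_lit 230) (.e (nat_lit 163874) (nat_lit 3) (.e (nat_lit 204830) (nat_lit 18) (.e (nat_lit 57909) (nat_lit 278) (.e (nat_lit 2553) (nat_lit 159) .nil)))))))) (.g (nat_lit 1) (.e (nat_lit 132667) (nat_lit 0) .nil) .nil)))))) 
(.nd (nat_lit 7) (.nd (nat_lit 8) (.nd (nat_lit 9) 
(.lf (nat_lit 484478) (.g (nat_lit 493) (.e (nat_lit 8233) (nat_lit 20) (.e (nat_lit 573493) (nat_lit 15) (.e (nat_lit 81956) (nat_lit 23) .nil))) (.g (nat_lit 0) (.e (nat_lit 130450) (nat_lit 0) .nil) .nil))) 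
(.lf (nat_lit 484990) (.g (nat_lit 2952) (.e (nat_lit 24605) (nat_lit 2) (.e (nat_lit 90169) (nat_lit 13) (.e (nat_lit 172119) (nat_lit 12) (.e (nat_lit 475179) (nat_lit 24) (.e (nat_lit 516127) (nat_lit 2) (.e (nat_lit 213032) (nat_lit 11) .nil)))))) (.g (nat_lit 1) (.e (nat_lit 132310) (nat_lit 0) .nil) .nil)))) (.nd (nat_lit 9) 
(.lf (nat_lit 484734) (.g (nat_lit 2847) (.e (nat_lit 24603) (nat_lit 2) (.e (nat_lit 90170) (nat_lit 13) (.e (nat_lit 172106) (nat_lit 10) (.e (nat_lit 434244) (nat_lit 28) .nil)))) (.g (nat_lit 0) (.e (nat_lit 132031) (nat_lit 0) .nil) .nil))) 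
(.lf (nat_lit 485246) (.g (nat_lit 4140) (.e (nat_lit 24607) (nat_lit 3) (.e (nat_lit 98373) (nat_lit 29) (.e (nat_lit 450588) (nat_lit 10) (.e (nat_lit 573477) (nat_lit 12) .nil)))) (.g (nat_lit 0) (.e (nat_lit 132592) (nat_lit 0) .nil) .nil))))) (.nd (nat_lit 8) (.nd (nat_lit 9) 
(.lf (nat_lit 484606) (.g (nat_lit 3022) (.e (nat_lit 24597) (nat_lit 1) (.e (nat_lit 57926) (nat_lit 282) (.e (nat_lit 163905) (nat_lit 12) (.e (nat_lit 426555) (nat_lit 32) (.e (nat_lit 376862) (nat_lit 22) (.e (nat_lit 90160) (nat_lit 11) .nil)))))) (.g (nat_lit 1) (.e (nat_lit 131773) (nat_lit 0) .nil) .nil))) 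
(.lf (nat_lit 485118) (.g (nat_lit 4223) (.e (nat_lit 24606) (nat_lit 3) (.e (nat_lit 98359) (nat_lit 26) (.e (nat_lit 426286) (nat_lit 10) (.e (nat_lit 434248) (nat_lit 28) (.e (nat_lit 573475) (nat_lit 12) (.e (nat_lit 57574) (nat_lit 55) (.e (nat_lit 778466) (nat_lit 11) .nil))))))) (.g (nat_lit 1) (.e (nat_lit 132442) (nat_lit 0) .nil) .nil)))) (.nd (nat_lit 9) 
(.lf (nat_lit 484862) (.g (nat_lit 4640) (.e (nat_lit 24604) (nat_lit 2) (.e (nat_lit 90170) (nat_lit 13) (.e (nat_lit 172107) (nat_lit 10) (.e (nat_lit 434245) (nat_lit 28) (.e (nat_lit 573474) (nat_lit 12) (.e (nat_lit 57574) (nat_lit 55) (.e (nat_lit 778466) (nat_lit 11) .nil))))))) (.g (nat_lit 1) (.e (nat_lit 132176) (nat_lit 0) .nil) .nil))) 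
(.lf (nat_lit 485374) (.g (nat_lit 2717) (.e (nat_lit 24608) (nat_lit 3) (.e (nat_lit 98365) (nat_lit 26) (.e (nat_lit 426306) (nat_lit 12) (.e (nat_lit 475179) (nat_lit 24) (.e (nat_lit 516106) (nat_lit 0) (.e (nat_lit 3665) (nat_lit 227) (.e (nat_lit 778462) (nat_lit 11) .nil))))))) (.g (nat_lit 1) (.e (nat_lit 132731) (nat_lit 0) .nil) .nil)))))))))))) 
(.nd (nat_lit 1) (.nd (nat_lit 2) (.nd (nat_lit 3) (.nd (nat_lit 4) (.nd (nat_lit 5) 
(.nd (nat_lit 6) (.nd (nat_lit 7) (.nd (nat_lit 8) (.nd (nat_lit 9) 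
(.lf (nat_lit 484353) (.g (nat_lit 3318) (.e (nat_lit 8325) (nat_lit 69) (.e (nat_lit 557108) (nat_lit 15) (.e (nat_lit 188452) (nat_lit 23) (.e (nat_lit 204846) (nat_lit 24) (.e (nat_lit 319505) (nat_lit 10) (.e (nat_lit 7936) (nat_lit 313) .nil)))))) (.g (nat_lit 1) (.e (nat_lit 129849) (nat_lit 0) .nil) .nil))) 
(.lf (nat_lit 484865) (.g (nat_lit 4620) (.e (nat_lit 24604) (nat_lit 2) (.e (nat_lit 90170) (nat_lit 13) (.e (nat_lit 172110) (nat_lit 10) (.e (nat_lit 434248) (nat_lit 28) (.e (nat_lit 573475) (nat_lit 12) (.e (nat_lit 57574) (nat_lit 55) (.e (nat_lit 778466) (nat_lit 11) .nil))))))) (.g (nat_lit 1) (.e (nat_lit 132179) (nat_lit 0) .nil) .nil)))) (.nd (nat_lit 9) 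
(.lf (nat_lit 484609) (.g (nat_lit 2843) (.e (nat_lit 24597) (nat_lit 1) (.e (nat_lit 57926) (nat_lit 282) (.e (nat_lit 163906) (nat_lit 12) (.e (nat_lit 426555) (nat_lit 32) (.e (nat_lit 376862) (nat_lit 22) (.e (nat_lit 90158) (nat_lit 11) .nil)))))) (.g (nat_lit 1) (.e (nat_lit 131776) (nat_lit 0) .nil) .nil))) 
(.lf (nat_lit 485121) (.g (nat_lit 1898) (.e (nat_lit 24606) (nat_lit 3) (.e (nat_lit 98365) (nat_lit 26) (.e (nat_lit 426306) (nat_lit 12) (.e (nat_lit 475177) (nat_lit 24) .nil)))) (.g (nat_lit 0) (.e (nat_lit 132445) (nat_lit 0) .nil) .nil))))) (.nd (nat_lit 8) (.nd (nat_lit 9) 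
(.lf (nat_lit 484481) (.g (nat_lit 1974) (.e (nat_lit 8234) (nat_lit 20) (.e (nat_lit 573482) (nat_lit 13) (.e (nat_lit 65619) (nat_lit 10) (.e (nat_lit 344117) (nat_lit 21) .nil)))) (.g (nat_lit 0) (.e (nat_lit 130466) (nat_lit 0) .nil) .nil))) 
(.lf (nat_lit 484993) (.g (nat_lit 2273) (.e (nat_lit 24605) (nat_lit 2) (.e (nat_lit 90170) (nat_lit 13) (.e (nat_lit 172106) (nat_lit 10) (.e (nat_lit 434231) (nat_lit 23) (.e (nat_lit 532490) (nat_lit 0) (.e (nat_lit 1040) (nat_lit 81) (.e (nat_lit 4614) (nat_lit 269) (.e (nat_lit 2551) (nat_lit 159) .nil)))))))) (.g (nat_lit 1) (.e (nat_lit 132313) (nat_lit 0) .nil) .nil)))) (.nd (nat_lit 9) 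
(.lf (nat_lit 484737) (.g (nat_lit 1053) (.e (nat_lit 24603) (nat_lit 2) (.e (nat_lit 90176) (nat_lit 15) (.e (nat_lit 188420) (nat_lit 0) (.e (nat_lit 1800) (nat_lit 119) (.e (nat_lit 516124) (nat_lit 2) .nil))))) (.g (nat_lit 0) (.e (nat_lit 132040) (nat_lit 0) .nil) .nil))) 
(.lf (nat_lit 485249) (.g (nat_lit 2919) (.e (nat_lit 24607) (nat_lit 3) (.e (nat_lit 98374) (nat_lit 29) (.e (nat_lit 450586) (nat_lit 10) (.e (nat_lit 573475) (nat_lit 12) (.e (nat_lit 57574) (nat_lit 55) (.e (nat_lit 778464) (nat_lit 11) .nil)))))) (.g (nat_lit 1) (.e (nat_lit 132595) (nat_lit 0) .nil) .nil)))))) (.nd (nat_lit 7) (.nd (nat_lit 8) (.nd (nat_lit 9) 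
(.lf (nat_lit 484417) (.g (nat_lit 998) (.e (nat_lit 8211) (nat_lit 9) (.e (nat_lit 303119) (nat_lit 3) (.e (nat_lit 204809) (nat_lit 9) .nil))) (.g (nat_lit 0) (.e (nat_lit 129995) (nat_lit 0) .nil) .nil))) 
(.lf (nat_lit 484929) (.g (nat_lit 2052) (.e (nat_lit 24604) (nat_lit 2) (.e (nat_lit 90185) (nat_lit 17) (.e (nat_lit 237601) (nat_lit 9) (.e (nat_lit 426428) (nat_lit 17) (.e (nat_lit 90165) (nat_lit 12) (.e (nat_lit 164042) (nat_lit 55) (.e (nat_lit 786176) (nat_lit 11) .nil))))))) (.g (nat_lit 1) (.e (nat_lit 132248) (nat_lit 0) .nil) .nil)))) (.nd (nat_lit 9) 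
(.lf (nat_lit 484673) (.g (nat_lit 1719) (.e (nat_lit 24600) (nat_lit 1) (.e (nat_lit 57930) (nat_lit 282) (.e (nat_lit 163902) (nat_lit 12) (.e (nat_lit 426555) (nat_lit 32) (.e (nat_lit 376862) (nat_lit 22) .nil))))) (.g (nat_lit 0) (.e (nat_lit 131958) (nat_lit 0) .nil) .nil))) 
(.lf (nat_lit 485185) (.g (nat_lit 1241) (.e (nat_lit 24607) (nat_lit 3) (.e (nat_lit 98365) (nat_lit 26) (.e (nat_lit 426306) (nat_lit 12) (.e (nat_lit 475175) (nat_lit 24) .nil)))) (.g (nat_lit 0) (.e (nat_lit 132531) (nat_lit 0) .nil) .nil))))) (.nd (nat_lit 8) (.nd (nat_lit 9) 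
(.lf (nat_lit 484545) (.g (nat_lit 2101) (.e (nat_lit 24577) (nat_lit 0) (.e (nat_lit 6619) (nat_lit 357) (.e (nat_lit 2685) (nat_lit 168) (.e (nat_lit 204868) (nat_lit 29) (.e (nat_lit 360473) (nat_lit 8) (.e (nat_lit 557086) (nat_lit 11) .nil)))))) (.g (nat_lit 1) (.e (nat_lit 131574) (nat_lit 0) .nil) .nil))) 
(.lf (nat_lit 485057) (.g (nat_lit 1916) (.e (nat_lit 24605) (nat_lit 2) (.e (nat_lit 90170) (nat_lit 13) (.e (nat_lit 172118) (nat_lit 12) (.e (nat_lit 475177) (nat_lit 24) (.e (nat_lit 516125) (nat_lit 2) .nil))))) (.g (nat_lit 0) (.e (nat_lit 132378) (nat_lit 0) .nil) .nil)))) (.nd (nat_lit 9) 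
(.lf (nat_lit 484801) (.g (nat_lit 2805) (.e (nat_lit 24604) (nat_lit 2) (.e (nat_lit 90170) (nat_lit 13) (.e (nat_lit 172106) (nat_lit 10) (.e (nat_lit 434231) (nat_lit 23) (.e (nat_lit 532500) (nat_lit 1) .nil))))) (.g (nat_lit 0) (.e (nat_lit 132115) (nat_lit 0) .nil) .nil))) 
(.lf (nat_lit 485313) (.g (nat_lit 2407) (.e (nat_lit 24608) (nat_lit 3) (.e (nat_lit 98365) (nat_lit 26) (.e (nat_lit 426187) (nat_lit 9) (.e (nat_lit 426428) (nat_lit 17) (.e (nat_lit 90165) (nat_lit 12) (.e (nat_lit 164041) (nat_lit 55) (.e (nat_lit 786176) (nat_lit 11) .nil))))))) (.g (nat_lit 1) (.e (nat_lit 132670) (nat_lit 0) .nil) .nil))))))) 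
(.nd (nat_lit 6) (.nd (nat_lit 7) (.nd (nat_lit 8) (.nd (nat_lit 9) 
(.lf (nat_lit 484385) (.g (nat_lit 2983) (.e (nat_lit 8326) (nat_lit 69) (.e (nat_lit 557105) (nat_lit 14) (.e (nat_lit 180251) (nat_lit 10) (.e (nat_lit 573489) (nat_lit 14) (.e (nat_lit 81664) (nat_lit 5) .nil))))) (.g (nat_lit 0) (.e (nat_lit 129882) (nat_lit 0) .nil) .nil))) 
(.lf (nat_lit 484897) (.g (nat_lit 6239) (.e (nat_lit 24604) (nat_lit 2) (.e (nat_lit 90176) (nat_lit 15) (.e (nat_lit 188440) (nat_lit 20) (.e (nat_lit 3307) (nat_lit 202) (.e (nat_lit 573477) (nat_lit 12) (.e (nat_lit 57575) (nat_lit 55) (.e (nat_lit 778465) (nat_lit 11) .nil))))))) (.g (nat_lit 1) (.e (nat_lit 132213) (nat_lit 0) .nil) .nil)))) (.nd (nat_lit 9) 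
(.lf (nat_lit 484641) (.g (nat_lit 2902) (.e (nat_lit 24598) (nat_lit 1) (.e (nat_lit 57927) (nat_lit 282) (.e (nat_lit 163903) (nat_lit 12) (.e (nat_lit 426555) (nat_lit 32) (.e (nat_lit 376862) (nat_lit 22) (.e (nat_lit 90160) (nat_lit 11) .nil)))))) (.g (nat_lit 1) (.e (nat_lit 131860) (nat_lit 0) .nil) .nil))) 
(.lf (nat_lit 485153) (.g (nat_lit 2584) (.e (nat_lit 24607) (nat_lit 3) (.e (nat_lit 98359) (nat_lit 26) (.e (nat_lit 426286) (nat_lit 10) (.e (nat_lit 434247) (nat_lit 28) (.e (nat_lit 573478) (nat_lit 12) (.e (nat_lit 57574) (nat_lit 55) (.e (nat_lit 778463) (nat_lit 11) .nil))))))) (.g (nat_lit 1) (.e (nat_lit 132499) (nat_lit 0) .nil) .nil))))) (.nd (nat_lit 8) (.nd (nat_lit 9) 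
(.lf (nat_lit 484513) (.g (nat_lit 2960) (.e (nat_lit 8234) (nat_lit 20) (.e (nat_lit 573489) (nat_lit 14) (.e (nat_lit 73755) (nat_lit 8) (.e (nat_lit 557105) (nat_lit 14) (.e (nat_lit 188160) (nat_lit 3) .nil))))) (.g (nat_lit 0) (.e (nat_lit 130806) (nat_lit 0) .nil) .nil))) 
(.lf (nat_lit 485025) (.g (nat_lit 3870) (.e (nat_lit 24605) (nat_lit 2) (.e (nat_lit 90170) (nat_lit 13) (.e (nat_lit 172113) (nat_lit 10) (.e (nat_lit 434247) (nat_lit 28) (.e (nat_lit 573477) (nat_lit 12) (.e (nat_lit 57574) (nat_lit 55) (.e (nat_lit 778464) (nat_lit 11) .nil))))))) (.g (nat_lit 1) (.e (nat_lit 132346) (nat_lit 0) .nil) .nil)))) (.nd (nat_lit 9) 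
(.lf (nat_lit 484769) (.g (nat_lit 3964) (.e (nat_lit 24604) (nat_lit 2) (.e (nat_lit 90167) (nat_lit 13) (.e (nat_lit 172105) (nat_lit 10) (.e (nat_lit 434248) (nat_lit 28) (.e (nat_lit 573475) (nat_lit 12) (.e (nat_lit 57574) (nat_lit 55) (.e (nat_lit 778466) (nat_lit 11) .nil))))))) (.g (nat_lit 1) (.e (nat_lit 132081) (nat_lit 0) .nil) .nil))) 
(.lf (nat_lit 485281) (.g (nat_lit 3656) (.e (nat_lit 24608) (nat_lit 3) (.e (nat_lit 98359) (nat_lit 26) (.e (nat_lit 426286) (nat_lit 10) (.e (nat_lit 434248) (nat_lit 28) (.e (nat_lit 573475) (nat_lit 12) (.e (nat_lit 65280) (nat_lit 55) (.e (nat_lit 778462) (nat_lit 11) .nil))))))) (.g (nat_lit 1) (.e (nat_lit 132638) (nat_lit 0) .nil) .nil)))))) 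
(.nd (nat_lit 7) (.nd (nat_lit 8) (.nd (nat_lit 9) 
(.lf (nat_lit 484449) (.g (nat_lit 5446) (.e (nat_lit 8213) (nat_lit 9) (.e (nat_lit 303145) (nat_lit 13) (.e (nat_lit 483413) (nat_lit 27) (.e (nat_lit 401446) (nat_lit 10) (.e (nat_lit 434208) (nat_lit 18) (.e (nat_lit 6058) (nat_lit 327) .nil)))))) (.g (nat_lit 1) (.e (nat_lit 130065) (nat_lit 0) .nil) .nil))) 
(.lf (nat_lit 484961) (.g (nat_lit 2037) (.e (nat_lit 24604) (nat_lit 2) (.e (nat_lit 90185) (nat_lit 17) (.e (nat_lit 245504) (nat_lit 10) (.e (nat_lit 434248) (nat_lit 28) (.e (nat_lit 573475) (nat_lit 12) (.e (nat_lit 57574) (nat_lit 55) (.e (nat_lit 778466) (nat_lit 11) .nil))))))) (.g (nat_lit 1) (.e (nat_lit 132280) (nat_lit 0) .nil) .nil)))) (.nd (nat_lit 9) 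
(.lf (nat_lit 484705) (.g (nat_lit 2599) (.e (nat_lit 24602) (nat_lit 2) (.e (nat_lit 90170) (nat_lit 13) (.e (nat_lit 172113) (nat_lit 10) (.e (nat_lit 434247) (nat_lit 28) (.e (nat_lit 573477) (nat_lit 12) (.e (nat_lit 57574) (nat_lit 55) (.e (nat_lit 778463) (nat_lit 11) .nil))))))) (.g (nat_lit 1) (.e (nat_lit 132001) (nat_lit 0) .nil) .nil))) 
(.lf (nat_lit 485217) (.g (nat_lit 2266) (.e (nat_lit 24607) (nat_lit 3) (.e (nat_lit 98373) (nat_lit 29) (.e (nat_lit 450586) (nat_lit 10) (.e (nat_lit 573478) (nat_lit 12) .nil)))) (.g (nat_lit 0) (.e (nat_lit 132563) (nat_lit 0) .nil) .nil))))) (.nd (nat_lit 8) (.nd (nat_lit 9) 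
(.lf (nat_lit 484577) (.g (nat_lit 2266) (.e (nat_lit 24589) (nat_lit 0) (.e (nat_lit 1788) (nat_lit 119) (.e (nat_lit 516165) (nat_lit 12) (.e (nat_lit 450587) (nat_lit 10) (.e (nat_lit 573478) (nat_lit 12) .nil))))) (.g (nat_lit 0) (.e (nat_lit 131727) (nat_lit 0) .nil) .nil))) 
(.lf (nat_lit 485089) (.g (nat_lit 1323) (.e (nat_lit 24605) (nat_lit 2) (.e (nat_lit 90185) (nat_lit 17) (.e (nat_lit 237616) (nat_lit 12) (.e (nat_lit 475177) (nat_lit 24) (.e (nat_lit 516125) (nat_lit 2) (.e (nat_lit 213030) (nat_lit 11) .nil)))))) (.g (nat_lit 1) (.e (nat_lit 132413) (nat_lit 0) .nil) .nil)))) (.nd (nat_lit 9) 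
(.lf (nat_lit 484833) (.g (nat_lit 4450) (.e (nat_lit 24604) (nat_lit 2) (.e (nat_lit 90170) (nat_lit 13) (.e (nat_lit 172106) (nat_lit 10) (.e (nat_lit 434244) (nat_lit 28) (.e (nat_lit 573474) (nat_lit 12) (.e (nat_lit 57574) (nat_lit 55) (.e (nat_lit 778465) (nat_lit 11) .nil))))))) (.g (nat_lit 1) (.e (nat_lit 132147) (nat_lit 0) .nil) .nil))) 
(.lf (nat_lit 485345) (.g (nat_lit 3817) (.e (nat_lit 24608) (nat_lit 3) (.e (nat_lit 98365) (nat_lit 26) (.e (nat_lit 426287) (nat_lit 10) (.e (nat_lit 434248) (nat_lit 28) (.e (nat_lit 573475) (nat_lit 12) (.e (nat_lit 57574) (nat_lit 55) (.e (nat_lit 778466) (nat_lit 11) .nil))))))) (.g (nat_lit 1) (.e (nat_lit 132702) (nat_lit 0) .nil) .nil)))))))) 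
(.nd (nat_lit 5) (.nd (nat_lit 6) (.nd (nat_lit 7) (.nd (nat_lit 8) (.nd (nat_lit 9) 
(.lf (nat_lit 484369) (.g (nat_lit 2750) (.e (nat_lit 8326) (nat_lit 69) (.e (nat_lit 557100) (nat_lit 13) (.e (nat_lit 172106) (nat_lit 10) (.e (nat_lit 434231) (nat_lit 23) (.e (nat_lit 532522) (nat_lit 7) .nil))))) (.g (nat_lit 0) (.e (nat_lit 129866) (nat_lit 0) .nil) .nil))) 
(.lf (nat_lit 484881) (.g (nat_lit 1603) (.e (nat_lit 24604) (nat_lit 2) (.e (nat_lit 90170) (nat_lit 13) (.e (nat_lit 172120) (nat_lit 12) (.e (nat_lit 475175) (nat_lit 24) .nil)))) (.g (nat_lit 0) (.e (nat_lit 132195) (nat_lit 0) .nil) .nil)))) (.nd (nat_lit 9) 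
(.lf (nat_lit 484625) (.g (nat_lit 1799) (.e (nat_lit 24598) (nat_lit 1) (.e (nat_lit 57924) (nat_lit 282) (.e (nat_lit 163903) (nat_lit 12) (.e (nat_lit 426555) (nat_lit 32) (.e (nat_lit 376862) (nat_lit 22) .nil))))) (.g (nat_lit 0) (.e (nat_lit 131825) (nat_lit 0) .nil) .nil))) 
(.lf (nat_lit 485137) (.g (nat_lit 3490) (.e (nat_lit 24606) (nat_lit 3) (.e (nat_lit 98373) (nat_lit 29) (.e (nat_lit 450588) (nat_lit 10) (.e (nat_lit 573454) (nat_lit 9) (.e (nat_lit 1315) (nat_lit 98) .nil))))) (.g (nat_lit 0) (.e (nat_lit 132474) (nat_lit 0) .nil) .nil))))) (.nd (nat_lit 8) (.nd (nat_lit 9) 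
(.lf (nat_lit 484497) (.g (nat_lit 1324) (.e (nat_lit 8234) (nat_lit 20) (.e (nat_lit 573484) (nat_lit 13) (.e (nat_lit 65617) (nat_lit 10) (.e (nat_lit 344130) (nat_lit 26) .nil)))) (.g (nat_lit 0) (.e (nat_lit 130642) (nat_lit 0) .nil) .nil))) 
(.lf (nat_lit 485009) (.g (nat_lit 1222) (.e (nat_lit 24605) (nat_lit 2) (.e (nat_lit 90170) (nat_lit 13) (.e (nat_lit 172113) (nat_lit 10) (.e (nat_lit 434245) (nat_lit 28) .nil)))) (.g (nat_lit 0) (.e (nat_lit 132330) (nat_lit 0) .nil) .nil)))) (.nd (nat_lit 9) 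
(.lf (nat_lit 484753) (.g (nat_lit 1358) (.e (nat_lit 24603) (nat_lit 2) (.e (nat_lit 90178) (nat_lit 15) (.e (nat_lit 188441) (nat_lit 20) (.e (nat_lit 3307) (nat_lit 202) .nil)))) (.g (nat_lit 0) (.e (nat_lit 132056) (nat_lit 0) .nil) .nil))) 
(.lf (nat_lit 485265) (.g (nat_lit 4304) (.e (nat_lit 24608) (nat_lit 3) (.e (nat_lit 98341) (nat_lit 20) (.e (nat_lit 221214) (nat_lit 23) (.e (nat_lit 204830) (nat_lit 18) (.e (nat_lit 57852) (nat_lit 252) (.e (nat_lit 57370) (nat_lit 2) (.e (nat_lit 90158) (nat_lit 11) .nil))))))) (.g (nat_lit 1) (.e (nat_lit 132619) (nat_lit 0) .nil) .nil)))))) 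
(.nd (nat_lit 7) (.nd (nat_lit 8) (.nd (nat_lit 9) 
(.lf (nat_lit 484433) (.g (nat_lit 3616) (.e (nat_lit 8213) (nat_lit 9) (.e (nat_lit 303119) (nat_lit 3) (.e (nat_lit 204869) (nat_lit 29) (.e (nat_lit 360475) (nat_lit 8) (.e (nat_lit 557089) (nat_lit 12) .nil))))) (.g (nat_lit 0) (.e (nat_lit 130047) (nat_lit 0) .nil) .nil))) 
(.lf (nat_lit 484945) (.g (nat_lit 2306) (.e (nat_lit 24604) (nat_lit 2) (.e (nat_lit 90185) (nat_lit 17) (.e (nat_lit 237605) (nat_lit 9) (.e (nat_lit 426428) (nat_lit 17) (.e (nat_lit 90165) (nat_lit 12) (.e (nat_lit 164042) (nat_lit 55) (.e (nat_lit 786176) (nat_lit 11) .nil))))))) (.g (nat_lit 1) (.e (nat_lit 132264) (nat_lit 0) .nil) .nil)))) (.nd (nat_lit 9) 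
(.lf (nat_lit 484689) (.g (nat_lit 3533) (.e (nat_lit 24601) (nat_lit 2) (.e (nat_lit 90170) (nat_lit 13) (.e (nat_lit 172113) (nat_lit 10) (.e (nat_lit 434247) (nat_lit 28) (.e (nat_lit 573477) (nat_lit 12) (.e (nat_lit 57575) (nat_lit 55) (.e (nat_lit 778463) (nat_lit 11) .nil))))))) (.g (nat_lit 1) (.e (nat_lit 131980) (nat_lit 0) .nil) .nil))) 
(.lf (nat_lit 485201) (.g (nat_lit 2905) (.e (nat_lit 24607) (nat_lit 3) (.e (nat_lit 98372) (nat_lit 29) (.e (nat_lit 450586) (nat_lit 10) (.e (nat_lit 573477) (nat_lit 12) (.e (nat_lit 57574) (nat_lit 55) (.e (nat_lit 778463) (nat_lit 11) .nil)))))) (.g (nat_lit 1) (.e (nat_lit 132547) (nat_lit 0) .nil) .nil))))) (.nd (nat_lit 8) (.nd (nat_lit 9) 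
(.lf (nat_lit 484561) (.g (nat_lit 2045) (.e (nat_lit 24580) (nat_lit 0) (.e (nat_lit 6722) (nat_lit 362) (.e (nat_lit 180271) (nat_lit 26) (.e (nat_lit 704737) (nat_lit 11) (.e (nat_lit 16388) (nat_lit 0) (.e (nat_lit 7377) (nat_lit 390) .nil)))))) (.g (nat_lit 1) (.e (nat_lit 131671) (nat_lit 0) .nil) .nil))) 
(.lf (nat_lit 485073) (.g (nat_lit 2908) (.e (nat_lit 24605) (nat_lit 2) (.e (nat_lit 90170) (nat_lit 13) (.e (nat_lit 172120) (nat_lit 12) (.e (nat_lit 475179) (nat_lit 24) (.e (nat_lit 516126) (nat_lit 2) (.e (nat_lit 213032) (nat_lit 11) .nil)))))) (.g (nat_lit 1) (.e (nat_lit 132394) (nat_lit 0) .nil) .nil)))) (.nd (nat_lit 9) 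
(.lf (nat_lit 484817) (.g (nat_lit 3138) (.e (nat_lit 24604) (nat_lit 2) (.e (nat_lit 90170) (nat_lit 13) (.e (nat_lit 172106) (nat_lit 10) (.e (nat_lit 434242) (nat_lit 28) (.e (nat_lit 573478) (nat_lit 12) (.e (nat_lit 57574) (nat_lit 55) (.e (nat_lit 778465) (nat_lit 11) .nil))))))) (.g (nat_lit 1) (.e (nat_lit 132131) (nat_lit 0) .nil) .nil))) 
(.lf (nat_lit 485329) (.g (nat_lit 2393) (.e (nat_lit 24608) (nat_lit 3) (.e (nat_lit 98365) (nat_lit 26) (.e (nat_lit 426188) (nat_lit 9) (.e (nat_lit 426432) (nat_lit 17) (.e (nat_lit 90133) (nat_lit 9) (.e (nat_lit 7936) (nat_lit 169) (.e (nat_lit 213032) (nat_lit 11) .nil))))))) (.g (nat_lit 1) (.e (nat_lit 132686) (nat_lit 0) .nil) .nil))))))) 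
(.nd (nat_lit 6) (.nd (nat_lit 7) (.nd (nat_lit 8) (.nd (nat_lit 9) 
(.lf (nat_lit 484401) (.g (nat_lit 2877) (.e (nat_lit 8326) (nat_lit 69) (.e (nat_lit 557109) (nat_lit 15) (.e (nat_lit 188450) (nat_lit 23) (.e (nat_lit 204846) (nat_lit 24) .nil)))) (.g (nat_lit 0) (.e (nat_lit 129899) (nat_lit 0) .nil) .nil))) 
(.lf (nat_lit 484913) (.g (nat_lit 3229) (.e (nat_lit 24604) (nat_lit 2) (.e (nat_lit 90178) (nat_lit 15) (.e (nat_lit 188440) (nat_lit 20) (.e (nat_lit 3307) (nat_lit 202) (.e (nat_lit 573475) (nat_lit 12) (.e (nat_lit 65280) (nat_lit 55) (.e (nat_lit 778462) (nat_lit 11) .nil))))))) (.g (nat_lit 1) (.e (nat_lit 132231) (nat_lit 0) .nil) .nil)))) (.nd (nat_lit 9) 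
(.lf (nat_lit 484657) (.g (nat_lit 3115) (.e (nat_lit 24598) (nat_lit 1) (.e (nat_lit 57931) (nat_lit 282) (.e (nat_lit 163905) (nat_lit 12) (.e (nat_lit 426555) (nat_lit 32) (.e (nat_lit 376865) (nat_lit 22) (.e (nat_lit 90160) (nat_lit 11) .nil)))))) (.g (nat_lit 1) (.e (nat_lit 131903) (nat_lit 0) .nil) .nil))) 
(.lf (nat_lit 485169) (.g (nat_lit 2044) (.e (nat_lit 24607) (nat_lit 3) (.e (nat_lit 98365) (nat_lit 26) (.e (nat_lit 426187) (nat_lit 9) (.e (nat_lit 426438) (nat_lit 18) (.e (nat_lit 98338) (nat_lit 19) (.e (nat_lit 213030) (nat_lit 11) .nil)))))) (.g (nat_lit 1) (.e (nat_lit 132515) (nat_lit 0) .nil) .nil))))) (.nd (nat_lit 8) (.nd (nat_lit 9) 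
(.lf (nat_lit 484529) (.g (nat_lit 2164) (.e (nat_lit 16128) (nat_lit 225) (.e (nat_lit 2797) (nat_lit 180) (.e (nat_lit 303119) (nat_lit 3) (.e (nat_lit 204869) (nat_lit 29) (.e (nat_lit 360472) (nat_lit 8) .nil))))) (.g (nat_lit 0) (.e (nat_lit 131335) (nat_lit 0) .nil) .nil))) 
(.lf (nat_lit 485041) (.g (nat_lit 1191) (.e (nat_lit 24605) (nat_lit 2) (.e (nat_lit 90170) (nat_lit 13) (.e (nat_lit 172113) (nat_lit 10) (.e (nat_lit 434248) (nat_lit 28) .nil)))) (.g (nat_lit 0) (.e (nat_lit 132362) (nat_lit 0) .nil) .nil)))) (.nd (nat_lit 9) 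
(.lf (nat_lit 484785) (.g (nat_lit 2794) (.e (nat_lit 24604) (nat_lit 2) (.e (nat_lit 90170) (nat_lit 13) (.e (nat_lit 172105) (nat_lit 10) (.e (nat_lit 434247) (nat_lit 28) (.e (nat_lit 573478) (nat_lit 12) (.e (nat_lit 57574) (nat_lit 55) (.e (nat_lit 778465) (nat_lit 11) .nil))))))) (.g (nat_lit 1) (.e (nat_lit 132098) (nat_lit 0) .nil) .nil))) 
(.lf (nat_lit 485297) (.g (nat_lit 2529) (.e (nat_lit 24608) (nat_lit 3) (.e (nat_lit 98363) (nat_lit 26) (.e (nat_lit 426318) (nat_lit 12) (.e (nat_lit 475179) (nat_lit 24) (.e (nat_lit 516127) (nat_lit 2) (.e (nat_lit 213032) (nat_lit 11) .nil)))))) (.g (nat_lit 1) (.e (nat_lit 132654) (nat_lit 0) .nil) .nil)))))) (.nd (nat_lit 7) (.nd (nat_lit 8) (.nd (nat_lit 9) 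
(.lf (nat_lit 484465) (.g (nat_lit 1022) (.e (nat_lit 8226) (nat_lit 15) (.e (nat_lit 532563) (nat_lit 15) (.e (nat_lit 385066) (nat_lit 26) .nil))) (.g (nat_lit 0) (.e (nat_lit 130167) (nat_lit 0) .nil) .nil))) 
(.lf (nat_lit 484977) (.g (nat_lit 1829) (.e (nat_lit 24604) (nat_lit 2) (.e (nat_lit 90185) (nat_lit 17) (.e (nat_lit 237619) (nat_lit 12) (.e (nat_lit 475177) (nat_lit 24) (.e (nat_lit 516097) (nat_lit 0) (.e (nat_lit 3659) (nat_lit 227) (.e (nat_lit 778462) (nat_lit 11) .nil))))))) (.g (nat_lit 1) (.e (nat_lit 132296) (nat_lit 0) .nil) .nil)))) (.nd (nat_lit 9) 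
(.lf (nat_lit 484721) (.g (nat_lit 2316) (.e (nat_lit 24602) (nat_lit 2) (.e (nat_lit 90185) (nat_lit 17) (.e (nat_lit 237619) (nat_lit 12) (.e (nat_lit 475179) (nat_lit 24) (.e (nat_lit 516127) (nat_lit 2) (.e (nat_lit 213032) (nat_lit 11) .nil)))))) (.g (nat_lit 1) (.e (nat_lit 132017) (nat_lit 0) .nil) .nil))) 
(.lf (nat_lit 485233) (.g (nat_lit 4090) (.e (nat_lit 24607) (nat_lit 3) (.e (nat_lit 98373) (nat_lit 29) (.e (nat_lit 450587) (nat_lit 10) (.e (nat_lit 573478) (nat_lit 12) (.e (nat_lit 57574) (nat_lit 55) (.e (nat_lit 778464) (nat_lit 11) .nil)))))) (.g (nat_lit 1) (.e (nat_lit 132579) (nat_lit 0) .nil) .nil))))) (.nd (nat_lit 8) (.nd (nat_lit 9) 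
(.lf (nat_lit 484593) (.g (nat_lit 1776) (.e (nat_lit 32512) (nat_lit 0) (.e (nat_lit 1796) (nat_lit 119) (.e (nat_lit 516165) (nat_lit 12) (.e (nat_lit 450586) (nat_lit 10) (.e (nat_lit 573477) (nat_lit 12) .nil))))) (.g (nat_lit 0) (.e (nat_lit 131748) (nat_lit 0) .nil) .nil))) 
(.lf (nat_lit 485105) (.g (nat_lit 2210) (.e (nat_lit 24605) (nat_lit 2) (.e (nat_lit 90185) (nat_lit 17) (.e (nat_lit 237619) (nat_lit 12) (.e (nat_lit 475179) (nat_lit 24) (.e (nat_lit 516127) (nat_lit 2) (.e (nat_lit 213030) (nat_lit 11) .nil)))))) (.g (nat_lit 1) (.e (nat_lit 132429) (nat_lit 0) .nil) .nil)))) (.nd (nat_lit 9) 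
(.lf (nat_lit 484849) (.g (nat_lit 3129) (.e (nat_lit 24604) (nat_lit 2) (.e (nat_lit 90170) (nat_lit 13) (.e (nat_lit 172106) (nat_lit 10) (.e (nat_lit 434246) (nat_lit 28) (.e (nat_lit 573477) (nat_lit 12) (.e (nat_lit 57574) (nat_lit 55) (.e (nat_lit 778465) (nat_lit 11) .nil))))))) (.g (nat_lit 1) (.e (nat_lit 132163) (nat_lit 0) .nil) .nil))) 
(.lf (nat_lit 485361) (.g (nat_lit 2111) (.e (nat_lit 24608) (nat_lit 3) (.e (nat_lit 98365) (nat_lit 26) (.e (nat_lit 426306) (nat_lit 12) (.e (nat_lit 475177) (nat_lit 24) (.e (nat_lit 516105) (nat_lit 0) .nil))))) (.g (nat_lit 0) (.e (nat_lit 132718) (nat_lit 0) .nil) .nil))))))))) (.nd (nat_lit 4) (.nd (nat_lit 5) (.nd (nat_lit 6) (.nd (nat_lit 7) (.nd (nat_lit 8) (.nd (nat_lit 9) 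
(.lf (nat_lit 484361) (.g (nat_lit 5904) (.e (nat_lit 8326) (nat_lit 69) (.e (nat_lit 557098) (nat_lit 13) (.e (nat_lit 172115) (nat_lit 10) (.e (nat_lit 434231) (nat_lit 23) (.e (nat_lit 532523) (nat_lit 7) (.e (nat_lit 319504) (nat_lit 10) (.e (nat_lit 7936) (nat_lit 313) .nil))))))) (.g (nat_lit 1) (.e (nat_lit 129858) (nat_lit 0) .nil) .nil))) 
(.lf (nat_lit 484873) (.g (nat_lit 3649) (.e (nat_lit 24604) (nat_lit 2) (.e (nat_lit 90170) (nat_lit 13) (.e (nat_lit 172113) (nat_lit 10) (.e (nat_lit 434247) (nat_lit 28) (.e (nat_lit 573477) (nat_lit 12) (.e (nat_lit 57575) (nat_lit 55) (.e (nat_lit 778464) (nat_lit 11) .nil))))))) (.g (nat_lit 1) (.e (nat_lit 132187) (nat_lit 0) .nil) .nil)))) (.nd (nat_lit 9) 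
(.lf (nat_lit 484617) (.g (nat_lit 1792) (.e (nat_lit 24597) (nat_lit 1) (.e (nat_lit 57927) (nat_lit 282) (.e (nat_lit 163903) (nat_lit 12) (.e (nat_lit 426553) (nat_lit 32) .nil)))) (.g (nat_lit 0) (.e (nat_lit 131797) (nat_lit 0) .nil) .nil))) 
(.lf (nat_lit 485129) (.g (nat_lit 3817) (.e (nat_lit 24606) (nat_lit 3) (.e (nat_lit 98373) (nat_lit 29) (.e (nat_lit 450587) (nat_lit 10) (.e (nat_lit 573477) (nat_lit 12) (.e (nat_lit 57574) (nat_lit 55) (.e (nat_lit 778465) (nat_lit 11) .nil)))))) (.g (nat_lit 1) (.e (nat_lit 132466) (nat_lit 0) .nil) .nil))))) (.nd (nat_lit 8) (.nd (nat_lit 9) 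
(.lf (nat_lit 484489) (.g (nat_lit 4062) (.e (nat_lit 8234) (nat_lit 20) (.e (nat_lit 573482) (nat_lit 13) (.e (nat_lit 65619) (nat_lit 10) (.e (nat_lit 344117) (nat_lit 21) (.e (nat_lit 516106) (nat_lit 0) (.e (nat_lit 6986) (nat_lit 377) (.e (nat_lit 2403) (nat_lit 157) (.e (nat_lit 5375) (nat_lit 299) .nil)))))))) (.g (nat_lit 1) (.e (nat_lit 130474) (nat_lit 0) .nil) .nil))) 
(.lf (nat_lit 485001) (.g (nat_lit 2187) (.e (nat_lit 24605) (nat_lit 2) (.e (nat_lit 90170) (nat_lit 13) (.e (nat_lit 172106) (nat_lit 10) (.e (nat_lit 434244) (nat_lit 28) (.e (nat_lit 573474) (nat_lit 12) .nil))))) (.g (nat_lit 0) (.e (nat_lit 132321) (nat_lit 0) .nil) .nil)))) (.nd (nat_lit 9) 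
(.lf (nat_lit 484745) (.g (nat_lit 2846) (.e (nat_lit 24603) (nat_lit 2) (.e (nat_lit 90176) (nat_lit 15) (.e (nat_lit 188450) (nat_lit 23) (.e (nat_lit 204829) (nat_lit 18) (.e (nat_lit 57778) (nat_lit 233) (.e (nat_lit 2551) (nat_lit 159) .nil)))))) (.g (nat_lit 1) (.e (nat_lit 132048) (nat_lit 0) .nil) .nil))) 
(.lf (nat_lit 485257) (.g (nat_lit 3559) (.e (nat_lit 24607) (nat_lit 3) (.e (nat_lit 98387) (nat_lit 33) (.e (nat_lit 491566) (nat_lit 12) (.e (nat_lit 385068) (nat_lit 26) (.e (nat_lit 532508) (nat_lit 2) (.e (nat_lit 114432) (nat_lit 2) .nil)))))) (.g (nat_lit 1) (.e (nat_lit 132603) (nat_lit 0) .nil) .nil)))))) (.nd (nat_lit 7) (.nd (nat_lit 8) (.nd (nat_lit 9) 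
(.lf (nat_lit 484425) (.g (nat_lit 3213) (.e (nat_lit 8211) (nat_lit 9) (.e (nat_lit 303145) (nat_lit 13) (.e (nat_lit 483413) (nat_lit 27) (.e (nat_lit 401448) (nat_lit 10) .nil)))) (.g (nat_lit 0) (.e (nat_lit 130016) (nat_lit 0) .nil) .nil))) 
(.lf (nat_lit 484937) (.g (nat_lit 2801) (.e (nat_lit 24604) (nat_lit 2) (.e (nat_lit 90185) (nat_lit 17) (.e (nat_lit 237601) (nat_lit 9) (.e (nat_lit 426436) (nat_lit 18) (.e (nat_lit 98337) (nat_lit 19) (.e (nat_lit 213032) (nat_lit 11) .nil)))))) (.g (nat_lit 1) (.e (nat_lit 132256) (nat_lit 0) .nil) .nil)))) (.nd (nat_lit 9) 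
(.lf (nat_lit 484681) (.g (nat_lit 2806) (.e (nat_lit 24601) (nat_lit 2) (.e (nat_lit 90170) (nat_lit 13) (.e (nat_lit 172113) (nat_lit 10) (.e (nat_lit 434245) (nat_lit 28) (.e (nat_lit 573474) (nat_lit 12) (.e (nat_lit 57574) (nat_lit 55) (.e (nat_lit 778463) (nat_lit 11) .nil))))))) (.g (nat_lit 1) (.e (nat_lit 131972) (nat_lit 0) .nil) .nil))) 
(.lf (nat_lit 485193) (.g (nat_lit 669) (.e (nat_lit 24607) (nat_lit 3) (.e (nat_lit 98365) (nat_lit 26) (.e (nat_lit 426307) (nat_lit 12) .nil))) (.g (nat_lit 0) (.e (nat_lit 132539) (nat_lit 0) .nil) .nil))))) (.nd (nat_lit 8) (.nd (nat_lit 9) 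
(.lf (nat_lit 484553) (.g (nat_lit 2167) (.e (nat_lit 24580) (nat_lit 0) (.e (nat_lit 1877) (nat_lit 126) (.e (nat_lit 573488) (nat_lit 14) (.e (nat_lit 73755) (nat_lit 8) (.e (nat_lit 557098) (nat_lit 13) .nil))))) (.g (nat_lit 0) (.e (nat_lit 131606) (nat_lit 0) .nil) .nil))) 
(.lf (nat_lit 485065) (.g (nat_lit 1385) (.e (nat_lit 24605) (nat_lit 2) (.e (nat_lit 90170) (nat_lit 13) (.e (nat_lit 172119) (nat_lit 12) (.e (nat_lit 475179) (nat_lit 24) .nil)))) (.g (nat_lit 0) (.e (nat_lit 132386) (nat_lit 0) .nil) .nil)))) (.nd (nat_lit 9) 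
(.lf (nat_lit 484809) (.g (nat_lit 2901) (.e (nat_lit 24604) (nat_lit 2) (.e (nat_lit 90170) (nat_lit 13) (.e (nat_lit 172106) (nat_lit 10) (.e (nat_lit 434231) (nat_lit 23) (.e (nat_lit 532500) (nat_lit 1) (.e (nat_lit 65280) (nat_lit 233) (.e (nat_lit 7936) (nat_lit 159) .nil))))))) (.g (nat_lit 1) (.e (nat_lit 132123) (nat_lit 0) .nil) .nil))) 
(.lf (nat_lit 485321) (.g (nat_lit 2132) (.e (nat_lit 24608) (nat_lit 3) (.e (nat_lit 98365) (nat_lit 26) (.e (nat_lit 426187) (nat_lit 9) (.e (nat_lit 426438) (nat_lit 18) (.e (nat_lit 98338) (nat_lit 19) (.e (nat_lit 213030) (nat_lit 11) .nil)))))) (.g (nat_lit 1) (.e (nat_lit 132678) (nat_lit 0) .nil) .nil))))))) (.nd (nat_lit 6) (.nd (nat_lit 7) (.nd (nat_lit 8) (.nd (nat_lit 9) 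
(.lf (nat_lit 484393) (.g (nat_lit 4226) (.e (nat_lit 8326) (nat_lit 69) (.e (nat_lit 557105) (nat_lit 14) (.e (nat_lit 180252) (nat_lit 10) (.e (nat_lit 573489) (nat_lit 14) (.e (nat_lit 73755) (nat_lit 8) (.e (nat_lit 557090) (nat_lit 12) (.e (nat_lit 164008) (nat_lit 41) (.e (nat_lit 663582) (nat_lit 10) .nil)))))))) (.g (nat_lit 1) (.e (nat_lit 129890) (nat_lit 0) .nil) .nil))) 
(.lf (nat_lit 484905) (.g (nat_lit 2253) (.e (nat_lit 24604) (nat_lit 2) (.e (nat_lit 90178) (nat_lit 15) (.e (nat_lit 188418) (nat_lit 0) (.e (nat_lit 1800) (nat_lit 119) (.e (nat_lit 516127) (nat_lit 2) (.e (nat_lit 213030) (nat_lit 11) .nil)))))) (.g (nat_lit 1) (.e (nat_lit 132223) (nat_lit 0) .nil) .nil)))) (.nd (nat_lit 9) 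
(.lf (nat_lit 484649) (.g (nat_lit 1893) (.e (nat_lit 24598) (nat_lit 1) (.e (nat_lit 57930) (nat_lit 282) (.e (nat_lit 163902) (nat_lit 12) (.e (nat_lit 426555) (nat_lit 32) (.e (nat_lit 376862) (nat_lit 22) (.e (nat_lit 90158) (nat_lit 11) .nil)))))) (.g (nat_lit 1) (.e (nat_lit 131891) (nat_lit 0) .nil) .nil))) 
(.lf (nat_lit 485161) (.g (nat_lit 2002) (.e (nat_lit 24607) (nat_lit 3) (.e (nat_lit 98365) (nat_lit 26) (.e (nat_lit 426187) (nat_lit 9) (.e (nat_lit 426428) (nat_lit 17) (.e (nat_lit 90165) (nat_lit 12) (.e (nat_lit 164042) (nat_lit 55) (.e (nat_lit 786176) (nat_lit 11) .nil))))))) (.g (nat_lit 1) (.e (nat_lit 132507) (nat_lit 0) .nil) .nil))))) (.nd (nat_lit 8) (.nd (nat_lit 9) 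
(.lf (nat_lit 484521) (.g (nat_lit 722) (.e (nat_lit 8468) (nat_lit 148) (.e (nat_lit 163920) (nat_lit 14) (.e (nat_lit 450304) (nat_lit 4) .nil))) (.g (nat_lit 0) (.e (nat_lit 131251) (nat_lit 0) .nil) .nil))) 
(.lf (nat_lit 485033) (.g (nat_lit 2950) (.e (nat_lit 24605) (nat_lit 2) (.e (nat_lit 90170) (nat_lit 13) (.e (nat_lit 172113) (nat_lit 10) (.e (nat_lit 434247) (nat_lit 28) (.e (nat_lit 573477) (nat_lit 12) (.e (nat_lit 65280) (nat_lit 55) (.e (nat_lit 778462) (nat_lit 11) .nil))))))) (.g (nat_lit 1) (.e (nat_lit 132354) (nat_lit 0) .nil) .nil)))) (.nd (nat_lit 9) 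
(.lf (nat_lit 484777) (.g (nat_lit 3295) (.e (nat_lit 24604) (nat_lit 2) (.e (nat_lit 90169) (nat_lit 13) (.e (nat_lit 172113) (nat_lit 10) (.e (nat_lit 434245) (nat_lit 28) (.e (nat_lit 573474) (nat_lit 12) (.e (nat_lit 57574) (nat_lit 55) (.e (nat_lit 778465) (nat_lit 11) .nil))))))) (.g (nat_lit 1) (.e (nat_lit 132089) (nat_lit 0) .nil) .nil))) 
(.lf (nat_lit 485289) (.g (nat_lit 2451) (.e (nat_lit 24608) (nat_lit 3) (.e (nat_lit 98363) (nat_lit 26) (.e (nat_lit 426318) (nat_lit 12) (.e (nat_lit 475177) (nat_lit 24) (.e (nat_lit 516127) (nat_lit 2) (.e (nat_lit 213030) (nat_lit 11) .nil)))))) (.g (nat_lit 1) (.e (nat_lit 132646) (nat_lit 0) .nil) .nil)))))) (.nd (nat_lit 7) (.nd (nat_lit 8) (.nd (nat_lit 9) 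
(.lf (nat_lit 484457) (.g (nat_lit 2913) (.e (nat_lit 8224) (nat_lit 15) (.e (nat_lit 532504) (nat_lit 1) (.e (nat_lit 57851) (nat_lit 252) (.e (nat_lit 57406) (nat_lit 12) (.e (nat_lit 336456) (nat_lit 34) .nil))))) (.g (nat_lit 0) (.e (nat_lit 130076) (nat_lit 0) .nil) .nil))) 
(.lf (nat_lit 484969) (.g (nat_lit 2046) (.e (nat_lit 24604) (nat_lit 2) (.e (nat_lit 90185) (nat_lit 17) (.e (nat_lit 237616) (nat_lit 12) (.e (nat_lit 475179) (nat_lit 24) (.e (nat_lit 516099) (nat_lit 0) (.e (nat_lit 3617) (nat_lit 227) (.e (nat_lit 778462) (nat_lit 11) .nil))))))) (.g (nat_lit 1) (.e (nat_lit 132288) (nat_lit 0) .nil) .nil)))) (.nd (nat_lit 9) 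
(.lf (nat_lit 484713) (.g (nat_lit 1611) (.e (nat_lit 24602) (nat_lit 2) (.e (nat_lit 90185) (nat_lit 17) (.e (nat_lit 237605) (nat_lit 9) (.e (nat_lit 426428) (nat_lit 17) (.e (nat_lit 90165) (nat_lit 12) .nil))))) (.g (nat_lit 0) (.e (nat_lit 132009) (nat_lit 0) .nil) .nil))) 
(.lf (nat_lit 485225) (.g (nat_lit 4666) (.e (nat_lit 24607) (nat_lit 3) (.e (nat_lit 98373) (nat_lit 29) (.e (nat_lit 450587) (nat_lit 10) (.e (nat_lit 573475) (nat_lit 12) (.e (nat_lit 57574) (nat_lit 55) (.e (nat_lit 778466) (nat_lit 11) .nil)))))) (.g (nat_lit 1) (.e (nat_lit 132571) (nat_lit 0) .nil) .nil))))) (.nd (nat_lit 8) (.nd (nat_lit 9) 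
(.lf (nat_lit 484585) (.g (nat_lit 4940) (.e (nat_lit 24595) (nat_lit 0) (.e (nat_lit 1800) (nat_lit 119) (.e (nat_lit 516151) (nat_lit 9) (.e (nat_lit 426286) (nat_lit 10) (.e (nat_lit 434245) (nat_lit 28) .nil))))) (.g (nat_lit 0) (.e (nat_lit 131740) (nat_lit 0) .nil) .nil))) 
(.lf (nat_lit 485097) (.g (nat_lit 1595) (.e (nat_lit 24605) (nat_lit 2) (.e (nat_lit 90185) (nat_lit 17) (.e (nat_lit 237618) (nat_lit 12) (.e (nat_lit 475177) (nat_lit 24) (.e (nat_lit 516127) (nat_lit 2) .nil))))) (.g (nat_lit 0) (.e (nat_lit 132421) (nat_lit 0) .nil) .nil)))) (.nd (nat_lit 9) 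
(.lf (nat_lit 484841) (.g (nat_lit 5075) (.e (nat_lit 24604) (nat_lit 2) (.e (nat_lit 90170) (nat_lit 13) (.e (nat_lit 172106) (nat_lit 10) (.e (nat_lit 434244) (nat_lit 28) (.e (nat_lit 573476) (nat_lit 12) (.e (nat_lit 57575) (nat_lit 55) (.e (nat_lit 778465) (nat_lit 11) .nil))))))) (.g (nat_lit 1) (.e (nat_lit 132155) (nat_lit 0) .nil) .nil))) 
(.lf (nat_lit 485353) (.g (nat_lit 365) (.e (nat_lit 24608) (nat_lit 3) (.e (nat_lit 98365) (nat_lit 26) (.e (nat_lit 426306) (nat_lit 12) .nil))) (.g (nat_lit 0) (.e (nat_lit 132710) (nat_lit 0) .nil) .nil)))))))) (.nd (nat_lit 5) (.nd (nat_lit 6) (.nd (nat_lit 7) (.nd (nat_lit 8) (.nd (nat_lit 9) 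
(.lf (nat_lit 484377) (.g (nat_lit 2075) (.e (nat_lit 8326) (nat_lit 69) (.e (nat_lit 557101) (nat_lit 13) (.e (nat_lit 172115) (nat_lit 10) (.e (nat_lit 434231) (nat_lit 23) (.e (nat_lit 532522) (nat_lit 7) .nil))))) (.g (nat_lit 0) (.e (nat_lit 129874) (nat_lit 0) .nil) .nil))) 
(.lf (nat_lit 484889) (.g (nat_lit 2368) (.e (nat_lit 24604) (nat_lit 2) (.e (nat_lit 90170) (nat_lit 13) (.e (nat_lit 172120) (nat_lit 12) (.e (nat_lit 475179) (nat_lit 24) (.e (nat_lit 516127) (nat_lit 2) (.e (nat_lit 213030) (nat_lit 11) .nil)))))) (.g (nat_lit 1) (.e (nat_lit 132203) (nat_lit 0) .nil) .nil)))) (.nd (nat_lit 9) 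
(.lf (nat_lit 484633) (.g (nat_lit 3235) (.e (nat_lit 24598) (nat_lit 1) (.e (nat_lit 57926) (nat_lit 282) (.e (nat_lit 163903) (nat_lit 12) (.e (nat_lit 426555) (nat_lit 32) (.e (nat_lit 376865) (nat_lit 22) (.e (nat_lit 90160) (nat_lit 11) .nil)))))) (.g (nat_lit 1) (.e (nat_lit 131838) (nat_lit 0) .nil) .nil))) 
(.lf (nat_lit 485145) (.g (nat_lit 3427) (.e (nat_lit 24607) (nat_lit 3) (.e (nat_lit 98359) (nat_lit 26) (.e (nat_lit 426286) (nat_lit 10) (.e (nat_lit 434245) (nat_lit 28) (.e (nat_lit 573474) (nat_lit 12) (.e (nat_lit 57574) (nat_lit 55) (.e (nat_lit 778463) (nat_lit 11) .nil))))))) (.g (nat_lit 1) (.e (nat_lit 132491) (nat_lit 0) .nil) .nil))))) (.nd (nat_lit 8) (.nd (nat_lit 9) 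
(.lf (nat_lit 484505) (.g (nat_lit 3604) (.e (nat_lit 8234) (nat_lit 20) (.e (nat_lit 573489) (nat_lit 14) (.e (nat_lit 73755) (nat_lit 8) (.e (nat_lit 557103) (nat_lit 14) (.e (nat_lit 188160) (nat_lit 3) (.e (nat_lit 516106) (nat_lit 0) (.e (nat_lit 3537) (nat_lit 218) (.e (nat_lit 704728) (nat_lit 10) .nil)))))))) (.g (nat_lit 1) (.e (nat_lit 130779) (nat_lit 0) .nil) .nil))) 
(.lf (nat_lit 485017) (.g (nat_lit 2138) (.e (nat_lit 24605) (nat_lit 2) (.e (nat_lit 90170) (nat_lit 13) (.e (nat_lit 172113) (nat_lit 10) (.e (nat_lit 434245) (nat_lit 28) (.e (nat_lit 573474) (nat_lit 12) (.e (nat_lit 65280) (nat_lit 55) (.e (nat_lit 778469) (nat_lit 11) .nil))))))) (.g (nat_lit 1) (.e (nat_lit 132338) (nat_lit 0) .nil) .nil)))) (.nd (nat_lit 9) 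
(.lf (nat_lit 484761) (.g (nat_lit 2055) (.e (nat_lit 24603) (nat_lit 2) (.e (nat_lit 90185) (nat_lit 17) (.e (nat_lit 237616) (nat_lit 12) (.e (nat_lit 475179) (nat_lit 24) (.e (nat_lit 516127) (nat_lit 2) (.e (nat_lit 213032) (nat_lit 11) .nil)))))) (.g (nat_lit 1) (.e (nat_lit 132064) (nat_lit 0) .nil) .nil))) 
(.lf (nat_lit 485273) (.g (nat_lit 2530) (.e (nat_lit 24608) (nat_lit 3) (.e (nat_lit 98359) (nat_lit 26) (.e (nat_lit 426286) (nat_lit 10) (.e (nat_lit 434245) (nat_lit 28) (.e (nat_lit 573473) (nat_lit 12) (.e (nat_lit 65280) (nat_lit 55) (.e (nat_lit 778462) (nat_lit 11) .nil))))))) (.g (nat_lit 1) (.e (nat_lit 132630) (nat_lit 0) .nil) .nil)))))) 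
(.nd (nat_lit 7) (.nd (nat_lit 8) (.nd (nat_lit 9) 
(.lf (nat_lit 484441) (.g (nat_lit 2895) (.e (nat_lit 8213) (nat_lit 9) (.e (nat_lit 303144) (nat_lit 13) (.e (nat_lit 483413) (nat_lit 27) (.e (nat_lit 401446) (nat_lit 10) (.e (nat_lit 434200) (nat_lit 18) .nil))))) (.g (nat_lit 0) (.e (nat_lit 130057) (nat_lit 0) .nil) .nil))) 
(.lf (nat_lit 484953) (.g (nat_lit 1627) (.e (nat_lit 24604) (nat_lit 2) (.e (nat_lit 90185) (nat_lit 17) (.e (nat_lit 237605) (nat_lit 9) (.e (nat_lit 426436) (nat_lit 18) (.e (nat_lit 98329) (nat_lit 17) .nil))))) (.g (nat_lit 0) (.e (nat_lit 132272) (nat_lit 0) .nil) .nil)))) (.nd (nat_lit 9) 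
(.lf (nat_lit 484697) (.g (nat_lit 4331) (.e (nat_lit 24601) (nat_lit 2) (.e (nat_lit 90170) (nat_lit 13) (.e (nat_lit 172113) (nat_lit 10) (.e (nat_lit 434248) (nat_lit 28) (.e (nat_lit 573475) (nat_lit 12) (.e (nat_lit 57574) (nat_lit 55) (.e (nat_lit 778465) (nat_lit 11) .nil))))))) (.g (nat_lit 1) (.e (nat_lit 131988) (nat_lit 0) .nil) .nil))) 
(.lf (nat_lit 485209) (.g (nat_lit 2172) (.e (nat_lit 24607) (nat_lit 3) (.e (nat_lit 98372) (nat_lit 29) (.e (nat_lit 450588) (nat_lit 10) (.e (nat_lit 573452) (nat_lit 9) .nil)))) (.g (nat_lit 0) (.e (nat_lit 132555) (nat_lit 0) .nil) .nil))))) (.nd (nat_lit 8) (.nd (nat_lit 9) 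
(.lf (nat_lit 484569) (.g (nat_lit 376) (.e (nat_lit 24584) (nat_lit 0) (.e (nat_lit 6113) (nat_lit 332) (.e (nat_lit 1376) (nat_lit 104) .nil))) (.g (nat_lit 0) (.e (nat_lit 131709) (nat_lit 0) .nil) .nil))) 
(.lf (nat_lit 485081) (.g (nat_lit 1360) (.e (nat_lit 24605) (nat_lit 2) (.e (nat_lit 90178) (nat_lit 15) (.e (nat_lit 188418) (nat_lit 0) (.e (nat_lit 1800) (nat_lit 119) (.e (nat_lit 516122) (nat_lit 2) .nil))))) (.g (nat_lit 0) (.e (nat_lit 132403) (nat_lit 0) .nil) .nil)))) (.nd (nat_lit 9) 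
(.lf (nat_lit 484825) (.g (nat_lit 3687) (.e (nat_lit 24604) (nat_lit 2) (.e (nat_lit 90170) (nat_lit 13) (.e (nat_lit 172106) (nat_lit 10) (.e (nat_lit 434244) (nat_lit 28) (.e (nat_lit 573472) (nat_lit 12) (.e (nat_lit 57575) (nat_lit 55) (.e (nat_lit 778465) (nat_lit 11) .nil))))))) (.g (nat_lit 1) (.e (nat_lit 132139) (nat_lit 0) .nil) .nil))) 
(.lf (nat_lit 485337) (.g (nat_lit 2466) (.e (nat_lit 24608) (nat_lit 3) (.e (nat_lit 98365) (nat_lit 26) (.e (nat_lit 426188) (nat_lit 9) (.e (nat_lit 426438) (nat_lit 18) (.e (nat_lit 98338) (nat_lit 19) (.e (nat_lit 213030) (nat_lit 11) .nil)))))) (.g (nat_lit 1) (.e (nat_lit 132694) (nat_lit 0) .nil) .nil))))))) (.nd (nat_lit 6) (.nd (nat_lit 7) (.nd (nat_lit 8) (.nd (nat_lit 9) 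
(.lf (nat_lit 484409) (.g (nat_lit 3583) (.e (nat_lit 8356) (nat_lit 88) (.e (nat_lit 712755) (nat_lit 30) (.e (nat_lit 450588) (nat_lit 10) (.e (nat_lit 573474) (nat_lit 12) (.e (nat_lit 57513) (nat_lit 40) .nil))))) (.g (nat_lit 0) (.e (nat_lit 129978) (nat_lit 0) .nil) .nil))) 
(.lf (nat_lit 484921) (.g (nat_lit 592) (.e (nat_lit 24604) (nat_lit 2) (.e (nat_lit 90178) (nat_lit 15) (.e (nat_lit 188441) (nat_lit 20) .nil))) (.g (nat_lit 0) (.e (nat_lit 132239) (nat_lit 0) .nil) .nil)))) (.nd (nat_lit 9) 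
(.lf (nat_lit 484665) (.g (nat_lit 2244) (.e (nat_lit 24599) (nat_lit 1) (.e (nat_lit 57929) (nat_lit 282) (.e (nat_lit 163905) (nat_lit 12) (.e (nat_lit 426555) (nat_lit 32) (.e (nat_lit 376862) (nat_lit 22) (.e (nat_lit 90160) (nat_lit 11) .nil)))))) (.g (nat_lit 1) (.e (nat_lit 131928) (nat_lit 0) .nil) .nil))) 
(.lf (nat_lit 485177) (.g (nat_lit 1808) (.e (nat_lit 24607) (nat_lit 3) (.e (nat_lit 98365) (nat_lit 26) (.e (nat_lit 426188) (nat_lit 9) (.e (nat_lit 426436) (nat_lit 18) (.e (nat_lit 98338) (nat_lit 19) (.e (nat_lit 220928) (nat_lit 11) .nil)))))) (.g (nat_lit 1) (.e (nat_lit 132523) (nat_lit 0) .nil) .nil))))) (.nd (nat_lit 8) (.nd (nat_lit 9) 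
(.lf (nat_lit 484537) (.g (nat_lit 1905) (.e (nat_lit 24576) (nat_lit 0) (.e (nat_lit 1788) (nat_lit 119) (.e (nat_lit 516165) (nat_lit 12) (.e (nat_lit 450586) (nat_lit 10) (.e (nat_lit 573477) (nat_lit 12) .nil))))) (.g (nat_lit 0) (.e (nat_lit 131560) (nat_lit 0) .nil) .nil))) 
(.lf (nat_lit 485049) (.g (nat_lit 3931) (.e (nat_lit 24605) (nat_lit 2) (.e (nat_lit 90170) (nat_lit 13) (.e (nat_lit 172113) (nat_lit 10) (.e (nat_lit 434248) (nat_lit 28) (.e (nat_lit 573475) (nat_lit 12) (.e (nat_lit 57574) (nat_lit 55) (.e (nat_lit 786176) (nat_lit 11) .nil))))))) (.g (nat_lit 1) (.e (nat_lit 132370) (nat_lit 0) .nil) .nil)))) (.nd (nat_lit 9) 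
(.lf (nat_lit 484793) (.g (nat_lit 2633) (.e (nat_lit 24604) (nat_lit 2) (.e (nat_lit 90170) (nat_lit 13) (.e (nat_lit 172106) (nat_lit 10) (.e (nat_lit 434231) (nat_lit 23) (.e (nat_lit 532485) (nat_lit 0) .nil))))) (.g (nat_lit 0) (.e (nat_lit 132107) (nat_lit 0) .nil) .nil))) 
(.lf (nat_lit 485305) (.g (nat_lit 2735) (.e (nat_lit 24608) (nat_lit 3) (.e (nat_lit 98365) (nat_lit 26) (.e (nat_lit 426100) (nat_lit 1) (.e (nat_lit 164332) (nat_lit 230) (.e (nat_lit 163874) (nat_lit 3) (.e (nat_lit 204829) (nat_lit 18) (.e (nat_lit 57908) (nat_lit 278) (.e (nat_lit 2559) (nat_lit 159) .nil)))))))) (.g (nat_lit 1) (.e (nat_lit 132662) (nat_lit 0) .nil) .nil)))))) 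
(.nd (nat_lit 7) (.nd (nat_lit 8) (.nd (nat_lit 9) 
(.lf (nat_lit 484473) (.g (nat_lit 1904) (.e (nat_lit 8228) (nat_lit 15) (.e (nat_lit 532504) (nat_lit 1) (.e (nat_lit 57854) (nat_lit 252) (.e (nat_lit 57409) (nat_lit 12) (.e (nat_lit 336456) (nat_lit 34) .nil))))) (.g (nat_lit 0) (.e (nat_lit 130208) (nat_lit 0) .nil) .nil))) 
(.lf (nat_lit 484985) (.g (nat_lit 2050) (.e (nat_lit 24604) (nat_lit 2) (.e (nat_lit 90185) (nat_lit 17) (.e (nat_lit 237619) (nat_lit 12) (.e (nat_lit 475179) (nat_lit 24) (.e (nat_lit 516127) (nat_lit 2) (.e (nat_lit 213031) (nat_lit 11) .nil)))))) (.g (nat_lit 1) (.e (nat_lit 132304) (nat_lit 0) .nil) .nil)))) (.nd (nat_lit 9) 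
(.lf (nat_lit 484729) (.g (nat_lit 2291) (.e (nat_lit 24603) (nat_lit 2) (.e (nat_lit 90167) (nat_lit 13) (.e (nat_lit 172126) (nat_lit 14) (.e (nat_lit 491539) (nat_lit 3) (.e (nat_lit 106240) (nat_lit 5) (.e (nat_lit 147496) (nat_lit 11) .nil)))))) (.g (nat_lit 1) (.e (nat_lit 132026) (nat_lit 0) .nil) .nil))) 
(.lf (nat_lit 485241) (.g (nat_lit 3491) (.e (nat_lit 24607) (nat_lit 3) (.e (nat_lit 98373) (nat_lit 29) (.e (nat_lit 450588) (nat_lit 10) (.e (nat_lit 573473) (nat_lit 12) .nil)))) (.g (nat_lit 0) (.e (nat_lit 132587) (nat_lit 0) .nil) .nil))))) (.nd (nat_lit 8) (.nd (nat_lit 9) 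
(.lf (nat_lit 484601) (.g (nat_lit 3294) (.e (nat_lit 24597) (nat_lit 1) (.e (nat_lit 57926) (nat_lit 282) (.e (nat_lit 163903) (nat_lit 12) (.e (nat_lit 426555) (nat_lit 32) (.e (nat_lit 376862) (nat_lit 22) (.e (nat_lit 90160) (nat_lit 11) .nil)))))) (.g (nat_lit 1) (.e (nat_lit 131766) (nat_lit 0) .nil) .nil))) 
(.lf (nat_lit 485113) (.g (nat_lit 2795) (.e (nat_lit 24606) (nat_lit 3) (.e (nat_lit 98359) (nat_lit 26) (.e (nat_lit 426286) (nat_lit 10) (.e (nat_lit 434247) (nat_lit 28) (.e (nat_lit 573477) (nat_lit 12) (.e (nat_lit 57575) (nat_lit 55) (.e (nat_lit 778464) (nat_lit 11) .nil))))))) (.g (nat_lit 1) (.e (nat_lit 132437) (nat_lit 0) .nil) .nil)))) (.nd (nat_lit 9) 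
(.lf (nat_lit 484857) (.g (nat_lit 3236) (.e (nat_lit 24604) (nat_lit 2) (.e (nat_lit 90170) (nat_lit 13) (.e (nat_lit 172106) (nat_lit 10) (.e (nat_lit 434247) (nat_lit 28) (.e (nat_lit 573478) (nat_lit 12) (.e (nat_lit 57574) (nat_lit 55) (.e (nat_lit 778465) (nat_lit 11) .nil))))))) (.g (nat_lit 1) (.e (nat_lit 132171) (nat_lit 0) .nil) .nil))) 
(.lf (nat_lit 485369) (.g (nat_lit 2718) (.e (nat_lit 24608) (nat_lit 3) (.e (nat_lit 98365) (nat_lit 26) (.e (nat_lit 426306) (nat_lit 12) (.e (nat_lit 475179) (nat_lit 24) (.e (nat_lit 516097) (nat_lit 0) (.e (nat_lit 3617) (nat_lit 227) (.e (nat_lit 778462) (nat_lit 11) .nil))))))) (.g (nat_lit 1) (.e (nat_lit 132726) (nat_lit 0) .nil) .nil)))))))))) 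
(.nd (nat_lit 3) (.nd (nat_lit 4) (.nd (nat_lit 5) (.nd (nat_lit 6) (.nd (nat_lit 7) 
(.nd (nat_lit 8) (.nd (nat_lit 9) 
(.lf (nat_lit 484357) (.g (nat_lit 2542) (.e (nat_lit 8326) (nat_lit 69) (.e (nat_lit 557098) (nat_lit 13) (.e (nat_lit 172097) (nat_lit 9) (.e (nat_lit 426125) (nat_lit 2) (.e (nat_lit 196661) (nat_lit 12) .nil))))) (.g (nat_lit 0) (.e (nat_lit 129854) (nat_lit 0) .nil) .nil))) 
(.lf (nat_lit 484869) (.g (nat_lit 4725) (.e (nat_lit 24604) (nat_lit 2) (.e (nat_lit 90170) (nat_lit 13) (.e (nat_lit 172113) (nat_lit 10) (.e (nat_lit 434245) (nat_lit 28) (.e (nat_lit 573474) (nat_lit 12) (.e (nat_lit 57574) (nat_lit 55) (.e (nat_lit 778464) (nat_lit 11) .nil))))))) (.g (nat_lit 1) (.e (nat_lit 132183) (nat_lit 0) .nil) .nil)))) (.nd (nat_lit 9) 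
(.lf (nat_lit 484613) (.g (nat_lit 3256) (.e (nat_lit 24597) (nat_lit 1) (.e (nat_lit 57926) (nat_lit 282) (.e (nat_lit 163907) (nat_lit 12) (.e (nat_lit 426555) (nat_lit 32) (.e (nat_lit 376862) (nat_lit 22) (.e (nat_lit 90158) (nat_lit 11) .nil)))))) (.g (nat_lit 1) (.e (nat_lit 131780) (nat_lit 0) .nil) .nil))) 
(.lf (nat_lit 485125) (.g (nat_lit 1734) (.e (nat_lit 24606) (nat_lit 3) (.e (nat_lit 98373) (nat_lit 29) (.e (nat_lit 450586) (nat_lit 10) (.e (nat_lit 573478) (nat_lit 12) .nil)))) (.g (nat_lit 0) (.e (nat_lit 132462) (nat_lit 0) .nil) .nil))))) (.nd (nat_lit 8) (.nd (nat_lit 9) 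
(.lf (nat_lit 484485) (.g (nat_lit 3516) (.e (nat_lit 8234) (nat_lit 20) (.e (nat_lit 573482) (nat_lit 13) (.e (nat_lit 65619) (nat_lit 10) (.e (nat_lit 344117) (nat_lit 21) (.e (nat_lit 516106) (nat_lit 0) (.e (nat_lit 6986) (nat_lit 377) (.e (nat_lit 2402) (nat_lit 157) (.e (nat_lit 5373) (nat_lit 299) .nil)))))))) (.g (nat_lit 1) (.e (nat_lit 130470) (nat_lit 0) .nil) .nil))) 
(.lf (nat_lit 484997) (.g (nat_lit 3970) (.e (nat_lit 24605) (nat_lit 2) (.e (nat_lit 90170) (nat_lit 13) (.e (nat_lit 172106) (nat_lit 10) (.e (nat_lit 434231) (nat_lit 23) (.e (nat_lit 532500) (nat_lit 1) (.e (nat_lit 65280) (nat_lit 233) (.e (nat_lit 2560) (nat_lit 159) .nil))))))) (.g (nat_lit 1) (.e (nat_lit 132317) (nat_lit 0) .nil) .nil)))) (.nd (nat_lit 9) 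
(.lf (nat_lit 484741) (.g (nat_lit 3716) (.e (nat_lit 24603) (nat_lit 2) (.e (nat_lit 90176) (nat_lit 15) (.e (nat_lit 188440) (nat_lit 20) (.e (nat_lit 3307) (nat_lit 202) (.e (nat_lit 573477) (nat_lit 12) (.e (nat_lit 57574) (nat_lit 55) (.e (nat_lit 778464) (nat_lit 11) .nil))))))) (.g (nat_lit 1) (.e (nat_lit 132044) (nat_lit 0) .nil) .nil))) 
(.lf (nat_lit 485253) (.g (nat_lit 795) (.e (nat_lit 24607) (nat_lit 3) (.e (nat_lit 98386) (nat_lit 32) (.e (nat_lit 483072) (nat_lit 51) .nil))) (.g (nat_lit 0) (.e (nat_lit 132599) (nat_lit 0) .nil) .nil)))))) (.nd (nat_lit 7) (.nd (nat_lit 8) (.nd (nat_lit 9) 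
(.lf (nat_lit 484421) (.g (nat_lit 1984) (.e (nat_lit 8211) (nat_lit 9) (.e (nat_lit 303145) (nat_lit 13) (.e (nat_lit 483346) (nat_lit 17) (.e (nat_lit 6722) (nat_lit 362) .nil)))) (.g (nat_lit 0) (.e (nat_lit 130007) (nat_lit 0) .nil) .nil))) 
(.lf (nat_lit 484933) (.g (nat_lit 2315) (.e (nat_lit 24604) (nat_lit 2) (.e (nat_lit 90185) (nat_lit 17) (.e (nat_lit 237601) (nat_lit 9) (.e (nat_lit 426436) (nat_lit 18) (.e (nat_lit 98320) (nat_lit 17) (.e (nat_lit 3672) (nat_lit 227) (.e (nat_lit 786176) (nat_lit 11) .nil))))))) (.g (nat_lit 1) (.e (nat_lit 132252) (nat_lit 0) .nil) .nil)))) (.nd (nat_lit 9) 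
(.lf (nat_lit 484677) (.g (nat_lit 2079) (.e (nat_lit 24601) (nat_lit 2) (.e (nat_lit 90167) (nat_lit 13) (.e (nat_lit 172126) (nat_lit 14) (.e (nat_lit 491540) (nat_lit 3) (.e (nat_lit 106240) (nat_lit 5) (.e (nat_lit 147495) (nat_lit 11) .nil)))))) (.g (nat_lit 1) (.e (nat_lit 131968) (nat_lit 0) .nil) .nil))) 
(.lf (nat_lit 485189) (.g (nat_lit 1981) (.e (nat_lit 24607) (nat_lit 3) (.e (nat_lit 98365) (nat_lit 26) (.e (nat_lit 426306) (nat_lit 12) (.e (nat_lit 475177) (nat_lit 24) (.e (nat_lit 516126) (nat_lit 2) (.e (nat_lit 213031) (nat_lit 11) .nil)))))) (.g (nat_lit 1) (.e (nat_lit 132535) (nat_lit 0) .nil) .nil))))) (.nd (nat_lit 8) (.nd (nat_lit 9) 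
(.lf (nat_lit 484549) (.g (nat_lit 2101) (.e (nat_lit 24579) (nat_lit 0) (.e (nat_lit 6619) (nat_lit 357) (.e (nat_lit 2685) (nat_lit 168) (.e (nat_lit 204868) (nat_lit 29) (.e (nat_lit 360473) (nat_lit 8) (.e (nat_lit 557086) (nat_lit 11) .nil)))))) (.g (nat_lit 1) (.e (nat_lit 131590) (nat_lit 0) .nil) .nil))) 
(.lf (nat_lit 485061) (.g (nat_lit 2572) (.e (nat_lit 24605) (nat_lit 2) (.e (nat_lit 90170) (nat_lit 13) (.e (nat_lit 172118) (nat_lit 12) (.e (nat_lit 475179) (nat_lit 24) (.e (nat_lit 516126) (nat_lit 2) (.e (nat_lit 213030) (nat_lit 11) .nil)))))) (.g (nat_lit 1) (.e (nat_lit 132382) (nat_lit 0) .nil) .nil)))) (.nd (nat_lit 9) 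
(.lf (nat_lit 484805) (.g (nat_lit 2914) (.e (nat_lit 24604) (nat_lit 2) (.e (nat_lit 90170) (nat_lit 13) (.e (nat_lit 172106) (nat_lit 10) (.e (nat_lit 434231) (nat_lit 23) (.e (nat_lit 532500) (nat_lit 1) (.e (nat_lit 65280) (nat_lit 233) (.e (nat_lit 2555) (nat_lit 159) .nil))))))) (.g (nat_lit 1) (.e (nat_lit 132119) (nat_lit 0) .nil) .nil))) 
(.lf (nat_lit 485317) (.g (nat_lit 2369) (.e (nat_lit 24608) (nat_lit 3) (.e (nat_lit 98365) (nat_lit 26) (.e (nat_lit 426187) (nat_lit 9) (.e (nat_lit 426436) (nat_lit 18) (.e (nat_lit 98324) (nat_lit 17) (.e (nat_lit 3659) (nat_lit 227) (.e (nat_lit 778462) (nat_lit 11) .nil))))))) (.g (nat_lit 1) (.e (nat_lit 132674) (nat_lit 0) .nil) .nil))))))) 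
(.nd (nat_lit 6) (.nd (nat_lit 7) (.nd (nat_lit 8) (.nd (nat_lit 9) 
(.lf (nat_lit 484389) (.g (nat_lit 4246) (.e (nat_lit 8326) (nat_lit 69) (.e (nat_lit 557105) (nat_lit 14) (.e (nat_lit 180252) (nat_lit 10) (.e (nat_lit 573489) (nat_lit 14) (.e (nat_lit 73755) (nat_lit 8) (.e (nat_lit 557090) (nat_lit 12) (.e (nat_lit 164004) (nat_lit 41) (.e (nat_lit 663582) (nat_lit 10) .nil)))))))) (.g (nat_lit 1) (.e (nat_lit 129886) (nat_lit 0) .nil) .nil))) 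
(.lf (nat_lit 484901) (.g (nat_lit 2639) (.e (nat_lit 24604) (nat_lit 2) (.e (nat_lit 90176) (nat_lit 15) (.e (nat_lit 188450) (nat_lit 23) (.e (nat_lit 204830) (nat_lit 18) (.e (nat_lit 57777) (nat_lit 233) (.e (nat_lit 2551) (nat_lit 159) .nil)))))) (.g (nat_lit 1) (.e (nat_lit 132217) (nat_lit 0) .nil) .nil)))) (.nd (nat_lit 9) 
(.lf (nat_lit 484645) (.g (nat_lit 2625) (.e (nat_lit 24598) (nat_lit 1) (.e (nat_lit 57927) (nat_lit 282) (.e (nat_lit 163906) (nat_lit 12) (.e (nat_lit 426555) (nat_lit 32) (.e (nat_lit 376865) (nat_lit 22) (.e (nat_lit 90160) (nat_lit 11) .nil)))))) (.g (nat_lit 1) (.e (nat_lit 131866) (nat_lit 0) .nil) .nil))) 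
(.lf (nat_lit 485157) (.g (nat_lit 4349) (.e (nat_lit 24607) (nat_lit 3) (.e (nat_lit 98359) (nat_lit 26) (.e (nat_lit 426286) (nat_lit 10) (.e (nat_lit 434248) (nat_lit 28) (.e (nat_lit 573475) (nat_lit 12) (.e (nat_lit 57574) (nat_lit 55) (.e (nat_lit 778465) (nat_lit 11) .nil))))))) (.g (nat_lit 1) (.e (nat_lit 132503) (nat_lit 0) .nil) .nil))))) (.nd (nat_lit 8) (.nd (nat_lit 9) 
(.lf (nat_lit 484517) (.g (nat_lit 2842) (.e (nat_lit 8399) (nat_lit 120) (.e (nat_lit 2649) (nat_lit 166) (.e (nat_lit 188434) (nat_lit 20) (.e (nat_lit 3579) (nat_lit 223) (.e (nat_lit 745492) (nat_lit 5) (.e (nat_lit 73789) (nat_lit 45) (.e (nat_lit 1117) (nat_lit 82) .nil))))))) (.g (nat_lit 1) (.e (nat_lit 131039) (nat_lit 0) .nil) .nil))) 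
(.lf (nat_lit 485029) (.g (nat_lit 4332) (.e (nat_lit 24605) (nat_lit 2) (.e (nat_lit 90170) (nat_lit 13) (.e (nat_lit 172113) (nat_lit 10) (.e (nat_lit 434247) (nat_lit 28) (.e (nat_lit 573477) (nat_lit 12) (.e (nat_lit 57575) (nat_lit 55) (.e (nat_lit 778463) (nat_lit 11) .nil))))))) (.g (nat_lit 1) (.e (nat_lit 132350) (nat_lit 0) .nil) .nil)))) (.nd (nat_lit 9) 
(.lf (nat_lit 484773) (.g (nat_lit 4335) (.e (nat_lit 24604) (nat_lit 2) (.e (nat_lit 90167) (nat_lit 13) (.e (nat_lit 172113) (nat_lit 10) (.e (nat_lit 434248) (nat_lit 28) (.e (nat_lit 573475) (nat_lit 12) (.e (nat_lit 57574) (nat_lit 55) (.e (nat_lit 778466) (nat_lit 11) .nil))))))) (.g (nat_lit 1) (.e (nat_lit 132085) (nat_lit 0) .nil) .nil))) 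
(.lf (nat_lit 485285) (.g (nat_lit 2107) (.e (nat_lit 24608) (nat_lit 3) (.e (nat_lit 98363) (nat_lit 26) (.e (nat_lit 426228) (nat_lit 9) (.e (nat_lit 426435) (nat_lit 18) (.e (nat_lit 98339) (nat_lit 19) (.e (nat_lit 213032) (nat_lit 11) .nil)))))) (.g (nat_lit 1) (.e (nat_lit 132642) (nat_lit 0) .nil) .nil)))))) (.nd (nat_lit 7) (.nd (nat_lit 8) (.nd (nat_lit 9) 
(.lf (nat_lit 484453) (.g (nat_lit 4583) (.e (nat_lit 8213) (nat_lit 9) (.e (nat_lit 303145) (nat_lit 13) (.e (nat_lit 483413) (nat_lit 27) (.e (nat_lit 401448) (nat_lit 10) (.e (nat_lit 434203) (nat_lit 18) .nil))))) (.g (nat_lit 0) (.e (nat_lit 130071) (nat_lit 0) .nil) .nil))) 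
(.lf (nat_lit 484965) (.g (nat_lit 1680) (.e (nat_lit 24604) (nat_lit 2) (.e (nat_lit 90185) (nat_lit 17) (.e (nat_lit 237616) (nat_lit 12) (.e (nat_lit 475177) (nat_lit 24) (.e (nat_lit 516097) (nat_lit 0) (.e (nat_lit 3659) (nat_lit 227) (.e (nat_lit 778462) (nat_lit 11) .nil))))))) (.g (nat_lit 1) (.e (nat_lit 132284) (nat_lit 0) .nil) .nil)))) (.nd (nat_lit 9) 
(.lf (nat_lit 484709) (.g (nat_lit 3267) (.e (nat_lit 24602) (nat_lit 2) (.e (nat_lit 90170) (nat_lit 13) (.e (nat_lit 172113) (nat_lit 10) (.e (nat_lit 434247) (nat_lit 28) (.e (nat_lit 573478) (nat_lit 12) (.e (nat_lit 57574) (nat_lit 55) (.e (nat_lit 778464) (nat_lit 11) .nil))))))) (.g (nat_lit 1) (.e (nat_lit 132005) (nat_lit 0) .nil) .nil))) 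
(.lf (nat_lit 485221) (.g (nat_lit 2728) (.e (nat_lit 24607) (nat_lit 3) (.e (nat_lit 98373) (nat_lit 29) (.e (nat_lit 450587) (nat_lit 10) (.e (nat_lit 573457) (nat_lit 9) .nil)))) (.g (nat_lit 0) (.e (nat_lit 132567) (nat_lit 0) .nil) .nil))))) (.nd (nat_lit 8) (.nd (nat_lit 9) 
(.lf (nat_lit 484581) (.g (nat_lit 3766) (.e (nat_lit 24593) (nat_lit 0) (.e (nat_lit 1786) (nat_lit 119) (.e (nat_lit 516166) (nat_lit 12) (.e (nat_lit 450587) (nat_lit 10) (.e (nat_lit 573478) (nat_lit 12) .nil))))) (.g (nat_lit 0) (.e (nat_lit 131736) (nat_lit 0) .nil) .nil))) 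
(.lf (nat_lit 485093) (.g (nat_lit 2138) (.e (nat_lit 24605) (nat_lit 2) (.e (nat_lit 90185) (nat_lit 17) (.e (nat_lit 237616) (nat_lit 12) (.e (nat_lit 475179) (nat_lit 24) (.e (nat_lit 516126) (nat_lit 2) (.e (nat_lit 213030) (nat_lit 11) .nil)))))) (.g (nat_lit 1) (.e (nat_lit 132417) (nat_lit 0) .nil) .nil)))) (.nd (nat_lit 9) 
(.lf (nat_lit 484837) (.g (nat_lit 5122) (.e (nat_lit 24604) (nat_lit 2) (.e (nat_lit 90170) (nat_lit 13) (.e (nat_lit 172106) (nat_lit 10) (.e (nat_lit 434244) (nat_lit 28) (.e (nat_lit 573475) (nat_lit 12) (.e (nat_lit 57574) (nat_lit 55) (.e (nat_lit 778465) (nat_lit 11) .nil))))))) (.g (nat_lit 1) (.e (nat_lit 132151) (nat_lit 0) .nil) .nil))) 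
(.lf (nat_lit 485349) (.g (nat_lit 3855) (.e (nat_lit 24608) (nat_lit 3) (.e (nat_lit 98365) (nat_lit 26) (.e (nat_lit 426298) (nat_lit 11) (.e (nat_lit 458794) (nat_lit 28) (.e (nat_lit 573477) (nat_lit 12) (.e (nat_lit 57574) (nat_lit 55) (.e (nat_lit 778466) (nat_lit 11) .nil))))))) (.g (nat_lit 1) (.e (nat_lit 132706) (nat_lit 0) .nil) .nil)))))))) 
(.nd (nat_lit 5) (.nd (nat_lit 6) (.nd (nat_lit 7) (.nd (nat_lit 8) (.nd (nat_lit 9) 
(.lf (nat_lit 484373) (.g (nat_lit 2155) (.e (nat_lit 8326) (nat_lit 69) (.e (nat_lit 557100) (nat_lit 13) (.e (nat_lit 172106) (nat_lit 10) (.e (nat_lit 434232) (nat_lit 23) (.e (nat_lit 532523) (nat_lit 7) .nil))))) (.g (nat_lit 0) (.e (nat_lit 129870) (nat_lit 0) .nil) .nil))) 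
(.lf (nat_lit 484885) (.g (nat_lit 2583) (.e (nat_lit 24604) (nat_lit 2) (.e (nat_lit 90170) (nat_lit 13) (.e (nat_lit 172120) (nat_lit 12) (.e (nat_lit 475177) (nat_lit 24) (.e (nat_lit 516127) (nat_lit 2) (.e (nat_lit 213032) (nat_lit 11) .nil)))))) (.g (nat_lit 1) (.e (nat_lit 132199) (nat_lit 0) .nil) .nil)))) (.nd (nat_lit 9) 
(.lf (nat_lit 484629) (.g (nat_lit 1808) (.e (nat_lit 24598) (nat_lit 1) (.e (nat_lit 57926) (nat_lit 282) (.e (nat_lit 163902) (nat_lit 12) (.e (nat_lit 426556) (nat_lit 32) (.e (nat_lit 376865) (nat_lit 22) .nil))))) (.g (nat_lit 0) (.e (nat_lit 131834) (nat_lit 0) .nil) .nil))) 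
(.lf (nat_lit 485141) (.g (nat_lit 4298) (.e (nat_lit 24606) (nat_lit 3) (.e (nat_lit 98373) (nat_lit 29) (.e (nat_lit 450588) (nat_lit 10) (.e (nat_lit 573475) (nat_lit 12) (.e (nat_lit 57574) (nat_lit 55) (.e (nat_lit 778465) (nat_lit 11) .nil)))))) (.g (nat_lit 1) (.e (nat_lit 132478) (nat_lit 0) .nil) .nil))))) (.nd (nat_lit 8) (.nd (nat_lit 9) 
(.lf (nat_lit 484501) (.g (nat_lit 2166) (.e (nat_lit 8234) (nat_lit 20) (.e (nat_lit 573489) (nat_lit 14) (.e (nat_lit 73755) (nat_lit 8) (.e (nat_lit 557103) (nat_lit 14) .nil)))) (.g (nat_lit 0) (.e (nat_lit 130773) (nat_lit 0) .nil) .nil))) 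
(.lf (nat_lit 485013) (.g (nat_lit 4154) (.e (nat_lit 24605) (nat_lit 2) (.e (nat_lit 90170) (nat_lit 13) (.e (nat_lit 172113) (nat_lit 10) (.e (nat_lit 434245) (nat_lit 28) (.e (nat_lit 573474) (nat_lit 12) (.e (nat_lit 57574) (nat_lit 55) (.e (nat_lit 778464) (nat_lit 11) .nil))))))) (.g (nat_lit 1) (.e (nat_lit 132334) (nat_lit 0) .nil) .nil)))) (.nd (nat_lit 9) 
(.lf (nat_lit 484757) (.g (nat_lit 2045) (.e (nat_lit 24603) (nat_lit 2) (.e (nat_lit 90185) (nat_lit 17) (.e (nat_lit 237613) (nat_lit 10) (.e (nat_lit 434248) (nat_lit 28) (.e (nat_lit 573475) (nat_lit 12) .nil))))) (.g (nat_lit 0) (.e (nat_lit 132060) (nat_lit 0) .nil) .nil))) 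
(.lf (nat_lit 485269) (.g (nat_lit 3649) (.e (nat_lit 24608) (nat_lit 3) (.e (nat_lit 98342) (nat_lit 20) (.e (nat_lit 221215) (nat_lit 23) (.e (nat_lit 204830) (nat_lit 18) (.e (nat_lit 57852) (nat_lit 252) (.e (nat_lit 57370) (nat_lit 2) (.e (nat_lit 90158) (nat_lit 11) .nil))))))) (.g (nat_lit 1) (.e (nat_lit 132623) (nat_lit 0) .nil) .nil)))))) 
(.nd (nat_lit 7) (.nd (nat_lit 8) (.nd (nat_lit 9) 
(.lf (nat_lit 484437) (.g (nat_lit 1197) (.e (nat_lit 8213) (nat_lit 9) (.e (nat_lit 303143) (nat_lit 12) (.e (nat_lit 475185) (nat_lit 29) .nil))) (.g (nat_lit 0) (.e (nat_lit 130053) (nat_lit 0) .nil) .nil))) 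
(.lf (nat_lit 484949) (.g (nat_lit 2508) (.e (nat_lit 24604) (nat_lit 2) (.e (nat_lit 90185) (nat_lit 17) (.e (nat_lit 237605) (nat_lit 9) (.e (nat_lit 426436) (nat_lit 18) (.e (nat_lit 98320) (nat_lit 17) (.e (nat_lit 3672) (nat_lit 227) (.e (nat_lit 786176) (nat_lit 11) .nil))))))) (.g (nat_lit 1) (.e (nat_lit 132268) (nat_lit 0) .nil) .nil)))) (.nd (nat_lit 9) 
(.lf (nat_lit 484693) (.g (nat_lit 3805) (.e (nat_lit 24601) (nat_lit 2) (.e (nat_lit 90170) (nat_lit 13) (.e (nat_lit 172113) (nat_lit 10) (.e (nat_lit 434247) (nat_lit 28) (.e (nat_lit 573478) (nat_lit 12) (.e (nat_lit 57574) (nat_lit 55) (.e (nat_lit 778466) (nat_lit 11) .nil))))))) (.g (nat_lit 1) (.e (nat_lit 131984) (nat_lit 0) .nil) .nil))) 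
(.lf (nat_lit 485205) (.g (nat_lit 2317) (.e (nat_lit 24607) (nat_lit 3) (.e (nat_lit 98372) (nat_lit 29) (.e (nat_lit 450587) (nat_lit 10) (.e (nat_lit 573477) (nat_lit 12) (.e (nat_lit 57574) (nat_lit 55) (.e (nat_lit 778464) (nat_lit 11) .nil)))))) (.g (nat_lit 1) (.e (nat_lit 132551) (nat_lit 0) .nil) .nil))))) (.nd (nat_lit 8) (.nd (nat_lit 9) 
(.lf (nat_lit 484565) (.g (nat_lit 1930) (.e (nat_lit 24580) (nat_lit 0) (.e (nat_lit 6724) (nat_lit 362) (.e (nat_lit 180271) (nat_lit 26) (.e (nat_lit 704737) (nat_lit 11) (.e (nat_lit 16386) (nat_lit 0) .nil))))) (.g (nat_lit 0) (.e (nat_lit 131681) (nat_lit 0) .nil) .nil))) 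
(.lf (nat_lit 485077) (.g (nat_lit 1941) (.e (nat_lit 24605) (nat_lit 2) (.e (nat_lit 90176) (nat_lit 15) (.e (nat_lit 188420) (nat_lit 0) (.e (nat_lit 1800) (nat_lit 119) (.e (nat_lit 516126) (nat_lit 2) (.e (nat_lit 213032) (nat_lit 11) .nil)))))) (.g (nat_lit 1) (.e (nat_lit 132398) (nat_lit 0) .nil) .nil)))) (.nd (nat_lit 9) 
(.lf (nat_lit 484821) (.g (nat_lit 1119) (.e (nat_lit 24604) (nat_lit 2) (.e (nat_lit 90170) (nat_lit 13) (.e (nat_lit 172106) (nat_lit 10) (.e (nat_lit 434244) (nat_lit 28) .nil)))) (.g (nat_lit 0) (.e (nat_lit 132135) (nat_lit 0) .nil) .nil))) 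
(.lf (nat_lit 485333) (.g (nat_lit 2218) (.e (nat_lit 24608) (nat_lit 3) (.e (nat_lit 98365) (nat_lit 26) (.e (nat_lit 426188) (nat_lit 9) (.e (nat_lit 426436) (nat_lit 18) (.e (nat_lit 98336) (nat_lit 19) (.e (nat_lit 213032) (nat_lit 11) .nil)))))) (.g (nat_lit 1) (.e (nat_lit 132690) (nat_lit 0) .nil) .nil))))))) (.nd (nat_lit 6) (.nd (nat_lit 7) (.nd (nat_lit 8) (.nd (nat_lit 9) 
(.lf (nat_lit 484405) (.g (nat_lit 1605) (.e (nat_lit 8356) (nat_lit 88) (.e (nat_lit 712755) (nat_lit 30) (.e (nat_lit 450588) (nat_lit 10) (.e (nat_lit 573473) (nat_lit 12) .nil)))) (.g (nat_lit 0) (.e (nat_lit 129974) (nat_lit 0) .nil) .nil))) 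
(.lf (nat_lit 484917) (.g (nat_lit 3949) (.e (nat_lit 24604) (nat_lit 2) (.e (nat_lit 90178) (nat_lit 15) (.e (nat_lit 188440) (nat_lit 20) (.e (nat_lit 3307) (nat_lit 202) (.e (nat_lit 573477) (nat_lit 12) (.e (nat_lit 65280) (nat_lit 55) (.e (nat_lit 778462) (nat_lit 11) .nil))))))) (.g (nat_lit 1) (.e (nat_lit 132235) (nat_lit 0) .nil) .nil)))) (.nd (nat_lit 9) 
(.lf (nat_lit 484661) (.g (nat_lit 2299) (.e (nat_lit 24599) (nat_lit 1) (.e (nat_lit 57924) (nat_lit 282) (.e (nat_lit 163905) (nat_lit 12) (.e (nat_lit 426555) (nat_lit 32) (.e (nat_lit 376862) (nat_lit 22) .nil))))) (.g (nat_lit 0) (.e (nat_lit 131920) (nat_lit 0) .nil) .nil))) 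
(.lf (nat_lit 485173) (.g (nat_lit 2333) (.e (nat_lit 24607) (nat_lit 3) (.e (nat_lit 98365) (nat_lit 26) (.e (nat_lit 426188) (nat_lit 9) (.e (nat_lit 426428) (nat_lit 17) (.e (nat_lit 90165) (nat_lit 12) (.e (nat_lit 164042) (nat_lit 55) (.e (nat_lit 786176) (nat_lit 11) .nil))))))) (.g (nat_lit 1) (.e (nat_lit 132519) (nat_lit 0) .nil) .nil))))) (.nd (nat_lit 8) (.nd (nat_lit 9) 
(.lf (nat_lit 484533) (.g (nat_lit 2014) (.e (nat_lit 8553) (nat_lit 232) (.e (nat_lit 57409) (nat_lit 12) (.e (nat_lit 336456) (nat_lit 34) (.e (nat_lit 483413) (nat_lit 27) .nil)))) (.g (nat_lit 0) (.e (nat_lit 131368) (nat_lit 0) .nil) .nil))) 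
(.lf (nat_lit 485045) (.g (nat_lit 3024) (.e (nat_lit 24605) (nat_lit 2) (.e (nat_lit 90170) (nat_lit 13) (.e (nat_lit 172113) (nat_lit 10) (.e (nat_lit 434248) (nat_lit 28) (.e (nat_lit 573475) (nat_lit 12) (.e (nat_lit 57574) (nat_lit 55) (.e (nat_lit 778460) (nat_lit 11) .nil))))))) (.g (nat_lit 1) (.e (nat_lit 132366) (nat_lit 0) .nil) .nil)))) (.nd (nat_lit 9) 
(.lf (nat_lit 484789) (.g (nat_lit 3452) (.e (nat_lit 24604) (nat_lit 2) (.e (nat_lit 90170) (nat_lit 13) (.e (nat_lit 172106) (nat_lit 10) (.e (nat_lit 434231) (nat_lit 23) (.e (nat_lit 532481) (nat_lit 0) (.e (nat_lit 984) (nat_lit 81) (.e (nat_lit 4547) (nat_lit 269) (.e (nat_lit 2552) (nat_lit 159) .nil)))))))) (.g (nat_lit 1) (.e (nat_lit 132103) (nat_lit 0) .nil) .nil))) 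
(.lf (nat_lit 485301) (.g (nat_lit 3063) (.e (nat_lit 24608) (nat_lit 3) (.e (nat_lit 98365) (nat_lit 26) (.e (nat_lit 426098) (nat_lit 1) (.e (nat_lit 164327) (nat_lit 230) (.e (nat_lit 163875) (nat_lit 3) (.e (nat_lit 204830) (nat_lit 18) (.e (nat_lit 57908) (nat_lit 278) (.e (nat_lit 2559) (nat_lit 159) .nil)))))))) (.g (nat_lit 1) (.e (nat_lit 132658) (nat_lit 0) .nil) .nil)))))) 
(.nd (nat_lit 7) (.nd (nat_lit 8) (.nd (nat_lit 9) 
(.lf (nat_lit 484469) (.g (nat_lit 665) (.e (nat_lit 8228) (nat_lit 15) (.e (nat_lit 532501) (nat_lit 1) (.e (nat_lit 57852) (nat_lit 252) .nil))) (.g (nat_lit 0) (.e (nat_lit 130203) (nat_lit 0) .nil) .nil))) 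
(.lf (nat_lit 484981) (.g (nat_lit 1810) (.e (nat_lit 24604) (nat_lit 2) (.e (nat_lit 90185) (nat_lit 17) (.e (nat_lit 237619) (nat_lit 12) (.e (nat_lit 475179) (nat_lit 24) (.e (nat_lit 516099) (nat_lit 0) (.e (nat_lit 3651) (nat_lit 227) (.e (nat_lit 778462) (nat_lit 11) .nil))))))) (.g (nat_lit 1) (.e (nat_lit 132300) (nat_lit 0) .nil) .nil)))) (.nd (nat_lit 9) 
(.lf (nat_lit 484725) (.g (nat_lit 1784) (.e (nat_lit 24603) (nat_lit 2) (.e (nat_lit 90167) (nat_lit 13) (.e (nat_lit 172113) (nat_lit 10) (.e (nat_lit 434247) (nat_lit 28) (.e (nat_lit 573477) (nat_lit 12) .nil))))) (.g (nat_lit 0) (.e (nat_lit 132022) (nat_lit 0) .nil) .nil))) 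
(.lf (nat_lit 485237) (.g (nat_lit 4156) (.e (nat_lit 24607) (nat_lit 3) (.e (nat_lit 98373) (nat_lit 29) (.e (nat_lit 450588) (nat_lit 10) (.e (nat_lit 573452) (nat_lit 9) (.e (nat_lit 1310) (nat_lit 98) .nil))))) (.g (nat_lit 0) (.e (nat_lit 132583) (nat_lit 0) .nil) .nil))))) (.nd (nat_lit 8) (.nd (nat_lit 9) 
(.lf (nat_lit 484597) (.g (nat_lit 3336) (.e (nat_lit 24597) (nat_lit 1) (.e (nat_lit 57926) (nat_lit 282) (.e (nat_lit 163902) (nat_lit 12) (.e (nat_lit 426555) (nat_lit 32) (.e (nat_lit 376862) (nat_lit 22) (.e (nat_lit 90160) (nat_lit 11) .nil)))))) (.g (nat_lit 1) (.e (nat_lit 131762) (nat_lit 0) .nil) .nil))) 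
(.lf (nat_lit 485109) (.g (nat_lit 4212) (.e (nat_lit 24606) (nat_lit 3) (.e (nat_lit 98359) (nat_lit 26) (.e (nat_lit 426286) (nat_lit 10) (.e (nat_lit 434245) (nat_lit 28) (.e (nat_lit 573474) (nat_lit 12) (.e (nat_lit 57574) (nat_lit 55) (.e (nat_lit 778465) (nat_lit 11) .nil))))))) (.g (nat_lit 1) (.e (nat_lit 132433) (nat_lit 0) .nil) .nil)))) (.nd (nat_lit 9) 
(.lf (nat_lit 484853) (.g (nat_lit 3464) (.e (nat_lit 24604) (nat_lit 2) (.e (nat_lit 90170) (nat_lit 13) (.e (nat_lit 172106) (nat_lit 10) (.e (nat_lit 434247) (nat_lit 28) (.e (nat_lit 573475) (nat_lit 12) (.e (nat_lit 57574) (nat_lit 55) (.e (nat_lit 778466) (nat_lit 11) .nil))))))) (.g (nat_lit 1) (.e (nat_lit 132167) (nat_lit 0) .nil) .nil))) 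
(.lf (nat_lit 485365) (.g (nat_lit 1993) (.e (nat_lit 24608) (nat_lit 3) (.e (nat_lit 98365) (nat_lit 26) (.e (nat_lit 426306) (nat_lit 12) (.e (nat_lit 475177) (nat_lit 24) (.e (nat_lit 524032) (nat_lit 2) .nil))))) (.g (nat_lit 0) (.e (nat_lit 132722) (nat_lit 0) .nil) .nil))))))))) (.nd (nat_lit 4) (.nd (nat_lit 5) (.nd (nat_lit 6) (.nd (nat_lit 7) (.nd (nat_lit 8) (.nd (nat_lit 9) 
(.lf (nat_lit 484365) (.g (nat_lit 4463) (.e (nat_lit 8326) (nat_lit 69) (.e (nat_lit 557098) (nat_lit 13) (.e (nat_lit 172115) (nat_lit 10) (.e (nat_lit 434244) (nat_lit 28) (.e (nat_lit 573471) (nat_lit 11) (.e (nat_lit 16388) (nat_lit 0) (.e (nat_lit 7374) (nat_lit 389) .nil))))))) (.g (nat_lit 1) (.e (nat_lit 129862) (nat_lit 0) .nil) .nil))) 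
(.lf (nat_lit 484877) (.g (nat_lit 3923) (.e (nat_lit 24604) (nat_lit 2) (.e (nat_lit 90170) (nat_lit 13) (.e (nat_lit 172113) (nat_lit 10) (.e (nat_lit 434248) (nat_lit 28) (.e (nat_lit 573475) (nat_lit 12) (.e (nat_lit 57574) (nat_lit 55) (.e (nat_lit 778463) (nat_lit 11) .nil))))))) (.g (nat_lit 1) (.e (nat_lit 132191) (nat_lit 0) .nil) .nil)))) (.nd (nat_lit 9) 
(.lf (nat_lit 484621) (.g (nat_lit 2984) (.e (nat_lit 24597) (nat_lit 1) (.e (nat_lit 57927) (nat_lit 282) (.e (nat_lit 163907) (nat_lit 12) (.e (nat_lit 426555) (nat_lit 32) (.e (nat_lit 376862) (nat_lit 22) (.e (nat_lit 90160) (nat_lit 11) .nil)))))) (.g (nat_lit 1) (.e (nat_lit 131802) (nat_lit 0) .nil) .nil))) 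
(.lf (nat_lit 485133) (.g (nat_lit 3377) (.e (nat_lit 24606) (nat_lit 3) (.e (nat_lit 98373) (nat_lit 29) (.e (nat_lit 450587) (nat_lit 10) (.e (nat_lit 573478) (nat_lit 12) (.e (nat_lit 57574) (nat_lit 55) (.e (nat_lit 778464) (nat_lit 11) .nil)))))) (.g (nat_lit 1) (.e (nat_lit 132470) (nat_lit 0) .nil) .nil))))) (.nd (nat_lit 8) (.nd (nat_lit 9) 
(.lf (nat_lit 484493) (.g (nat_lit 3585) (.e (nat_lit 8234) (nat_lit 20) (.e (nat_lit 573482) (nat_lit 13) (.e (nat_lit 65619) (nat_lit 10) (.e (nat_lit 344117) (nat_lit 21) (.e (nat_lit 516106) (nat_lit 0) (.e (nat_lit 6986) (nat_lit 377) (.e (nat_lit 2518) (nat_lit 157) (.e (nat_lit 5373) (nat_lit 299) .nil)))))))) (.g (nat_lit 1) (.e (nat_lit 130478) (nat_lit 0) .nil) .nil))) 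
(.lf (nat_lit 485005) (.g (nat_lit 2335) (.e (nat_lit 24605) (nat_lit 2) (.e (nat_lit 90170) (nat_lit 13) (.e (nat_lit 172106) (nat_lit 10) (.e (nat_lit 434244) (nat_lit 28) (.e (nat_lit 573474) (nat_lit 12) (.e (nat_lit 65280) (nat_lit 55) (.e (nat_lit 778469) (nat_lit 11) .nil))))))) (.g (nat_lit 1) (.e (nat_lit 132325) (nat_lit 0) .nil) .nil)))) (.nd (nat_lit 9) 
(.lf (nat_lit 484749) (.g (nat_lit 3604) (.e (nat_lit 24603) (nat_lit 2) (.e (nat_lit 90178) (nat_lit 15) (.e (nat_lit 188440) (nat_lit 20) (.e (nat_lit 3307) (nat_lit 202) (.e (nat_lit 573475) (nat_lit 12) (.e (nat_lit 57574) (nat_lit 55) (.e (nat_lit 778464) (nat_lit 11) .nil))))))) (.g (nat_lit 1) (.e (nat_lit 132052) (nat_lit 0) .nil) .nil))) 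
(.lf (nat_lit 485261) (.g (nat_lit 2028) (.e (nat_lit 24608) (nat_lit 3) (.e (nat_lit 98313) (nat_lit 9) (.e (nat_lit 336021) (nat_lit 3) (.e (nat_lit 98317) (nat_lit 9) (.e (nat_lit 335914) (nat_lit 0) .nil))))) (.g (nat_lit 0) (.e (nat_lit 132607) (nat_lit 0) .nil) .nil)))))) (.nd (nat_lit 7) (.nd (nat_lit 8) (.nd (nat_lit 9) 
(.lf (nat_lit 484429) (.g (nat_lit 4318) (.e (nat_lit 8213) (nat_lit 9) (.e (nat_lit 303118) (nat_lit 3) (.e (nat_lit 204869) (nat_lit 29) (.e (nat_lit 360475) (nat_lit 8) (.e (nat_lit 557091) (nat_lit 12) .nil))))) (.g (nat_lit 0) (.e (nat_lit 130041) (nat_lit 0) .nil) .nil))) 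
(.lf (nat_lit 484941) (.g (nat_lit 4339) (.e (nat_lit 24604) (nat_lit 2) (.e (nat_lit 90185) (nat_lit 17) (.e (nat_lit 237605) (nat_lit 9) (.e (nat_lit 425986) (nat_lit 0) (.e (nat_lit 3309) (nat_lit 202) (.e (nat_lit 573477) (nat_lit 12) (.e (nat_lit 57574) (nat_lit 55) (.e (nat_lit 778466) (nat_lit 11) .nil)))))))) (.g (nat_lit 1) (.e (nat_lit 132260) (nat_lit 0) .nil) .nil)))) (.nd (nat_lit 9) 
(.lf (nat_lit 484685) (.g (nat_lit 2281) (.e (nat_lit 24601) (nat_lit 2) (.e (nat_lit 90170) (nat_lit 13) (.e (nat_lit 172113) (nat_lit 10) (.e (nat_lit 434247) (nat_lit 28) (.e (nat_lit 573456) (nat_lit 9) .nil))))) (.g (nat_lit 0) (.e (nat_lit 131976) (nat_lit 0) .nil) .nil))) 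
(.lf (nat_lit 485197) (.g (nat_lit 2164) (.e (nat_lit 24607) (nat_lit 3) (.e (nat_lit 98365) (nat_lit 26) (.e (nat_lit 426308) (nat_lit 12) (.e (nat_lit 475177) (nat_lit 24) (.e (nat_lit 516127) (nat_lit 2) .nil))))) (.g (nat_lit 0) (.e (nat_lit 132543) (nat_lit 0) .nil) .nil))))) (.nd (nat_lit 8) (.nd (nat_lit 9) 
(.lf (nat_lit 484557) (.g (nat_lit 2620) (.e (nat_lit 24580) (nat_lit 0) (.e (nat_lit 6718) (nat_lit 361) (.e (nat_lit 172146) (nat_lit 27) (.e (nat_lit 336059) (nat_lit 7) (.e (nat_lit 319504) (nat_lit 10) (.e (nat_lit 7936) (nat_lit 314) .nil)))))) (.g (nat_lit 1) (.e (nat_lit 131656) (nat_lit 0) .nil) .nil))) 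
(.lf (nat_lit 485069) (.g (nat_lit 2574) (.e (nat_lit 24605) (nat_lit 2) (.e (nat_lit 90170) (nat_lit 13) (.e (nat_lit 172120) (nat_lit 12) (.e (nat_lit 475177) (nat_lit 24) (.e (nat_lit 516127) (nat_lit 2) .nil))))) (.g (nat_lit 0) (.e (nat_lit 132390) (nat_lit 0) .nil) .nil)))) (.nd (nat_lit 9) 
(.lf (nat_lit 484813) (.g (nat_lit 2766) (.e (nat_lit 24604) (nat_lit 2) (.e (nat_lit 90170) (nat_lit 13) (.e (nat_lit 172106) (nat_lit 10) (.e (nat_lit 434242) (nat_lit 28) (.e (nat_lit 573475) (nat_lit 12) .nil))))) (.g (nat_lit 0) (.e (nat_lit 132127) (nat_lit 0) .nil) .nil))) 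
(.lf (nat_lit 485325) (.g (nat_lit 2834) (.e (nat_lit 24608) (nat_lit 3) (.e (nat_lit 98365) (nat_lit 26) (.e (nat_lit 426188) (nat_lit 9) (.e (nat_lit 426428) (nat_lit 17) (.e (nat_lit 90164) (nat_lit 12) (.e (nat_lit 164043) (nat_lit 55) (.e (nat_lit 778460) (nat_lit 11) .nil))))))) (.g (nat_lit 1) (.e (nat_lit 132682) (nat_lit 0) .nil) .nil))))))) 
(.nd (nat_lit 6) (.nd (nat_lit 7) (.nd (nat_lit 8) (.nd (nat_lit 9) 
(.lf (nat_lit 484397) (.g (nat_lit 3935) (.e (nat_lit 8326) (nat_lit 69) (.e (nat_lit 557107) (nat_lit 15) (.e (nat_lit 188451) (nat_lit 23) (.e (nat_lit 204846) (nat_lit 24) (.e (nat_lit 319504) (nat_lit 10) (.e (nat_lit 7936) (nat_lit 313) .nil)))))) (.g (nat_lit 1) (.e (nat_lit 129895) (nat_lit 0) .nil) .nil))) 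
(.lf (nat_lit 484909) (.g (nat_lit 1278) (.e (nat_lit 24604) (nat_lit 2) (.e (nat_lit 90178) (nat_lit 15) (.e (nat_lit 188442) (nat_lit 20) (.e (nat_lit 3304) (nat_lit 202) (.e (nat_lit 573477) (nat_lit 12) (.e (nat_lit 65280) (nat_lit 55) (.e (nat_lit 778462) (nat_lit 11) .nil))))))) (.g (nat_lit 1) (.e (nat_lit 132227) (nat_lit 0) .nil) .nil)))) (.nd (nat_lit 9) 
(.lf (nat_lit 484653) (.g (nat_lit 1511) (.e (nat_lit 24598) (nat_lit 1) (.e (nat_lit 57931) (nat_lit 282) (.e (nat_lit 163902) (nat_lit 12) (.e (nat_lit 426556) (nat_lit 32) .nil)))) (.g (nat_lit 0) (.e (nat_lit 131896) (nat_lit 0) .nil) .nil))) 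
(.lf (nat_lit 485165) (.g (nat_lit 1585) (.e (nat_lit 24607) (nat_lit 3) (.e (nat_lit 98365) (nat_lit 26) (.e (nat_lit 426187) (nat_lit 9) (.e (nat_lit 426436) (nat_lit 18) (.e (nat_lit 98338) (nat_lit 19) (.e (nat_lit 220928) (nat_lit 11) .nil)))))) (.g (nat_lit 1) (.e (nat_lit 132511) (nat_lit 0) .nil) .nil))))) (.nd (nat_lit 8) (.nd (nat_lit 9) 
(.lf (nat_lit 484525) (.g (nat_lit 3171) (.e (nat_lit 16128) (nat_lit 225) (.e (nat_lit 2797) (nat_lit 180) (.e (nat_lit 303117) (nat_lit 2) (.e (nat_lit 196666) (nat_lit 13) (.e (nat_lit 65617) (nat_lit 10) .nil))))) (.g (nat_lit 0) (.e (nat_lit 131328) (nat_lit 0) .nil) .nil))) 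
(.lf (nat_lit 485037) (.g (nat_lit 3553) (.e (nat_lit 24605) (nat_lit 2) (.e (nat_lit 90170) (nat_lit 13) (.e (nat_lit 172113) (nat_lit 10) (.e (nat_lit 434247) (nat_lit 28) (.e (nat_lit 573478) (nat_lit 12) (.e (nat_lit 57574) (nat_lit 55) (.e (nat_lit 778464) (nat_lit 11) .nil))))))) (.g (nat_lit 1) (.e (nat_lit 132358) (nat_lit 0) .nil) .nil)))) (.nd (nat_lit 9) 
(.lf (nat_lit 484781) (.g (nat_lit 3486) (.e (nat_lit 24604) (nat_lit 2) (.e (nat_lit 90169) (nat_lit 13) (.e (nat_lit 172113) (nat_lit 10) (.e (nat_lit 434248) (nat_lit 28) (.e (nat_lit 573475) (nat_lit 12) (.e (nat_lit 57574) (nat_lit 55) (.e (nat_lit 778465) (nat_lit 11) .nil))))))) (.g (nat_lit 1) (.e (nat_lit 132093) (nat_lit 0) .nil) .nil))) 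
(.lf (nat_lit 485293) (.g (nat_lit 1543) (.e (nat_lit 24608) (nat_lit 3) (.e (nat_lit 98363) (nat_lit 26) (.e (nat_lit 426318) (nat_lit 12) (.e (nat_lit 475179) (nat_lit 24) (.e (nat_lit 516106) (nat_lit 0) .nil))))) (.g (nat_lit 0) (.e (nat_lit 132650) (nat_lit 0) .nil) .nil)))))) (.nd (nat_lit 7) (.nd (nat_lit 8) (.nd (nat_lit 9) 
(.lf (nat_lit 484461) (.g (nat_lit 2754) (.e (nat_lit 8226) (nat_lit 15) (.e (nat_lit 532499) (nat_lit 1) (.e (nat_lit 57847) (nat_lit 252) (.e (nat_lit 57406) (nat_lit 12) .nil)))) (.g (nat_lit 0) (.e (nat_lit 130108) (nat_lit 0) .nil) .nil))) 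
(.lf (nat_lit 484973) (.g (nat_lit 2549) (.e (nat_lit 24604) (nat_lit 2) (.e (nat_lit 90185) (nat_lit 17) (.e (nat_lit 237616) (nat_lit 12) (.e (nat_lit 475179) (nat_lit 24) (.e (nat_lit 516126) (nat_lit 2) (.e (nat_lit 213030) (nat_lit 11) .nil)))))) (.g (nat_lit 1) (.e (nat_lit 132292) (nat_lit 0) .nil) .nil)))) (.nd (nat_lit 9) 
(.lf (nat_lit 484717) (.g (nat_lit 1246) (.e (nat_lit 24602) (nat_lit 2) (.e (nat_lit 90185) (nat_lit 17) (.e (nat_lit 237619) (nat_lit 12) (.e (nat_lit 475177) (nat_lit 24) (.e (nat_lit 516127) (nat_lit 2) .nil))))) (.g (nat_lit 0) (.e (nat_lit 132013) (nat_lit 0) .nil) .nil))) 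
(.lf (nat_lit 485229) (.g (nat_lit 3398) (.e (nat_lit 24607) (nat_lit 3) (.e (nat_lit 98373) (nat_lit 29) (.e (nat_lit 450587) (nat_lit 10) (.e (nat_lit 573477) (nat_lit 12) (.e (nat_lit 57575) (nat_lit 55) (.e (nat_lit 778464) (nat_lit 11) .nil)))))) (.g (nat_lit 1) (.e (nat_lit 132575) (nat_lit 0) .nil) .nil))))) (.nd (nat_lit 8) (.nd (nat_lit 9) 
(.lf (nat_lit 484589) (.g (nat_lit 2539) (.e (nat_lit 24595) (nat_lit 0) (.e (nat_lit 1800) (nat_lit 119) (.e (nat_lit 516165) (nat_lit 12) (.e (nat_lit 450586) (nat_lit 10) (.e (nat_lit 573478) (nat_lit 12) .nil))))) (.g (nat_lit 0) (.e (nat_lit 131744) (nat_lit 0) .nil) .nil))) 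
(.lf (nat_lit 485101) (.g (nat_lit 2210) (.e (nat_lit 24605) (nat_lit 2) (.e (nat_lit 90185) (nat_lit 17) (.e (nat_lit 237619) (nat_lit 12) (.e (nat_lit 475177) (nat_lit 24) (.e (nat_lit 516127) (nat_lit 2) (.e (nat_lit 213030) (nat_lit 11) .nil)))))) (.g (nat_lit 1) (.e (nat_lit 132425) (nat_lit 0) .nil) .nil)))) (.nd (nat_lit 9) 
(.lf (nat_lit 484845) (.g (nat_lit 4021) (.e (nat_lit 24604) (nat_lit 2) (.e (nat_lit 90170) (nat_lit 13) (.e (nat_lit 172106) (nat_lit 10) (.e (nat_lit 434245) (nat_lit 28) (.e (nat_lit 573474) (nat_lit 12) (.e (nat_lit 57574) (nat_lit 55) (.e (nat_lit 778465) (nat_lit 11) .nil))))))) (.g (nat_lit 1) (.e (nat_lit 132159) (nat_lit 0) .nil) .nil))) 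
(.lf (nat_lit 485357) (.g (nat_lit 1665) (.e (nat_lit 24608) (nat_lit 3) (.e (nat_lit 98365) (nat_lit 26) (.e (nat_lit 426306) (nat_lit 12) (.e (nat_lit 475176) (nat_lit 24) (.e (nat_lit 516124) (nat_lit 2) .nil))))) (.g (nat_lit 0) (.e (nat_lit 132714) (nat_lit 0) .nil) .nil)))))))) (.nd (nat_lit 5) (.nd (nat_lit 6) (.nd (nat_lit 7) (.nd (nat_lit 8) (.nd (nat_lit 9) 
(.lf (nat_lit 484381) (.g (nat_lit 3505) (.e (nat_lit 8326) (nat_lit 69) (.e (nat_lit 557101) (nat_lit 13) (.e (nat_lit 172115) (nat_lit 10) (.e (nat_lit 434233) (nat_lit 23) (.e (nat_lit 532523) (nat_lit 7) (.e (nat_lit 319504) (nat_lit 10) (.e (nat_lit 7936) (nat_lit 313) .nil))))))) (.g (nat_lit 1) (.e (nat_lit 129878) (nat_lit 0) .nil) .nil))) 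
(.lf (nat_lit 484893) (.g (nat_lit 2248) (.e (nat_lit 24604) (nat_lit 2) (.e (nat_lit 90176) (nat_lit 15) (.e (nat_lit 188420) (nat_lit 0) (.e (nat_lit 1800) (nat_lit 119) (.e (nat_lit 516127) (nat_lit 2) (.e (nat_lit 213030) (nat_lit 11) .nil)))))) (.g (nat_lit 1) (.e (nat_lit 132208) (nat_lit 0) .nil) .nil)))) (.nd (nat_lit 9) 
(.lf (nat_lit 484637) (.g (nat_lit 2277) (.e (nat_lit 24598) (nat_lit 1) (.e (nat_lit 57926) (nat_lit 282) (.e (nat_lit 163906) (nat_lit 12) (.e (nat_lit 426555) (nat_lit 32) (.e (nat_lit 376862) (nat_lit 22) (.e (nat_lit 90160) (nat_lit 11) .nil)))))) (.g (nat_lit 1) (.e (nat_lit 131844) (nat_lit 0) .nil) .nil))) 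
(.lf (nat_lit 485149) (.g (nat_lit 3432) (.e (nat_lit 24607) (nat_lit 3) (.e (nat_lit 98359) (nat_lit 26) (.e (nat_lit 426286) (nat_lit 10) (.e (nat_lit 434247) (nat_lit 28) (.e (nat_lit 573477) (nat_lit 12) (.e (nat_lit 57574) (nat_lit 55) (.e (nat_lit 778464) (nat_lit 11) .nil))))))) (.g (nat_lit 1) (.e (nat_lit 132495) (nat_lit 0) .nil) .nil))))) (.nd (nat_lit 8) (.nd (nat_lit 9) 
(.lf (nat_lit 484509) (.g (nat_lit 3366) (.e (nat_lit 8234) (nat_lit 20) (.e (nat_lit 573489) (nat_lit 14) (.e (nat_lit 73755) (nat_lit 8) (.e (nat_lit 557104) (nat_lit 14) (.e (nat_lit 188160) (nat_lit 3) (.e (nat_lit 516098) (nat_lit 0) (.e (nat_lit 3499) (nat_lit 218) (.e (nat_lit 704726) (nat_lit 10) .nil)))))))) (.g (nat_lit 1) (.e (nat_lit 130789) (nat_lit 0) .nil) .nil))) 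
(.lf (nat_lit 485021) (.g (nat_lit 2209) (.e (nat_lit 24605) (nat_lit 2) (.e (nat_lit 90170) (nat_lit 13) (.e (nat_lit 172113) (nat_lit 10) (.e (nat_lit 434247) (nat_lit 28) (.e (nat_lit 573477) (nat_lit 12) .nil))))) (.g (nat_lit 0) (.e (nat_lit 132342) (nat_lit 0) .nil) .nil)))) (.nd (nat_lit 9) 
(.lf (nat_lit 484765) (.g (nat_lit 2197) (.e (nat_lit 24603) (nat_lit 2) (.e (nat_lit 90185) (nat_lit 17) (.e (nat_lit 237619) (nat_lit 12) (.e (nat_lit 475179) (nat_lit 24) (.e (nat_lit 516127) (nat_lit 2) (.e (nat_lit 213032) (nat_lit 11) .nil)))))) (.g (nat_lit 1) (.e (nat_lit 132068) (nat_lit 0) .nil) .nil))) 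
(.lf (nat_lit 485277) (.g (nat_lit 2946) (.e (nat_lit 24608) (nat_lit 3) (.e (nat_lit 98359) (nat_lit 26) (.e (nat_lit 426286) (nat_lit 10) (.e (nat_lit 434247) (nat_lit 28) (.e (nat_lit 573477) (nat_lit 12) (.e (nat_lit 65280) (nat_lit 55) (.e (nat_lit 778462) (nat_lit 11) .nil))))))) (.g (nat_lit 1) (.e (nat_lit 132634) (nat_lit 0) .nil) .nil)))))) 
(.nd (nat_lit 7) (.nd (nat_lit 8) (.nd (nat_lit 9) 
(.lf (nat_lit 484445) (.g (nat_lit 2526) (.e (nat_lit 8213) (nat_lit 9) (.e (nat_lit 303145) (nat_lit 13) (.e (nat_lit 483412) (nat_lit 27) (.e (nat_lit 401446) (nat_lit 10) .nil)))) (.g (nat_lit 0) (.e (nat_lit 130061) (nat_lit 0) .nil) .nil))) 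
(.lf (nat_lit 484957) (.g (nat_lit 3706) (.e (nat_lit 24604) (nat_lit 2) (.e (nat_lit 90185) (nat_lit 17) (.e (nat_lit 237613) (nat_lit 10) (.e (nat_lit 434245) (nat_lit 28) (.e (nat_lit 573474) (nat_lit 12) (.e (nat_lit 57574) (nat_lit 55) (.e (nat_lit 778466) (nat_lit 11) .nil))))))) (.g (nat_lit 1) (.e (nat_lit 132276) (nat_lit 0) .nil) .nil)))) (.nd (nat_lit 9) 
(.lf (nat_lit 484701) (.g (nat_lit 1873) (.e (nat_lit 24602) (nat_lit 2) (.e (nat_lit 90170) (nat_lit 13) (.e (nat_lit 172106) (nat_lit 10) (.e (nat_lit 434244) (nat_lit 28) .nil)))) (.g (nat_lit 0) (.e (nat_lit 131997) (nat_lit 0) .nil) .nil))) 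
(.lf (nat_lit 485213) (.g (nat_lit 4392) (.e (nat_lit 24607) (nat_lit 3) (.e (nat_lit 98372) (nat_lit 29) (.e (nat_lit 450588) (nat_lit 10) (.e (nat_lit 573475) (nat_lit 12) (.e (nat_lit 57574) (nat_lit 55) (.e (nat_lit 778463) (nat_lit 11) .nil)))))) (.g (nat_lit 1) (.e (nat_lit 132559) (nat_lit 0) .nil) .nil))))) (.nd (nat_lit 8) (.nd (nat_lit 9) 
(.lf (nat_lit 484573) (.g (nat_lit 2028) (.e (nat_lit 24588) (nat_lit 0) (.e (nat_lit 1788) (nat_lit 119) (.e (nat_lit 516165) (nat_lit 12) (.e (nat_lit 450586) (nat_lit 10) (.e (nat_lit 573477) (nat_lit 12) .nil))))) (.g (nat_lit 0) (.e (nat_lit 131719) (nat_lit 0) .nil) .nil))) 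
(.lf (nat_lit 485085) (.g (nat_lit 2109) (.e (nat_lit 24605) (nat_lit 2) (.e (nat_lit 90185) (nat_lit 17) (.e (nat_lit 237601) (nat_lit 9) (.e (nat_lit 426436) (nat_lit 18) (.e (nat_lit 98338) (nat_lit 19) (.e (nat_lit 213030) (nat_lit 11) .nil)))))) (.g (nat_lit 1) (.e (nat_lit 132409) (nat_lit 0) .nil) .nil)))) (.nd (nat_lit 9) 
(.lf (nat_lit 484829) (.g (nat_lit 4590) (.e (nat_lit 24604) (nat_lit 2) (.e (nat_lit 90170) (nat_lit 13) (.e (nat_lit 172106) (nat_lit 10) (.e (nat_lit 434244) (nat_lit 28) (.e (nat_lit 573473) (nat_lit 12) (.e (nat_lit 57575) (nat_lit 55) (.e (nat_lit 778465) (nat_lit 11) .nil))))))) (.g (nat_lit 1) (.e (nat_lit 132143) (nat_lit 0) .nil) .nil))) 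
(.lf (nat_lit 485341) (.g (nat_lit 3421) (.e (nat_lit 24608) (nat_lit 3) (.e (nat_lit 98365) (nat_lit 26) (.e (nat_lit 426275) (nat_lit 10) (.e (nat_lit 434247) (nat_lit 28) (.e (nat_lit 573477) (nat_lit 12) (.e (nat_lit 57574) (nat_lit 55) (.e (nat_lit 778466) (nat_lit 11) .nil))))))) (.g (nat_lit 1) (.e (nat_lit 132698) (nat_lit 0) .nil) .nil))))))) 
(.nd (nat_lit 6) (.nd (nat_lit 7) (.nd (nat_lit 8) (.nd (nat_lit 9) 
(.lf (nat_lit 484413) (.g (nat_lit 3399) (.e (nat_lit 8356) (nat_lit 88) (.e (nat_lit 712755) (nat_lit 30) (.e (nat_lit 450588) (nat_lit 10) (.e (nat_lit 573475) (nat_lit 12) (.e (nat_lit 57513) (nat_lit 40) .nil))))) (.g (nat_lit 0) (.e (nat_lit 129982) (nat_lit 0) .nil) .nil))) 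
(.lf (nat_lit 484925) (.g (nat_lit 3588) (.e (nat_lit 24604) (nat_lit 2) (.e (nat_lit 90185) (nat_lit 17) (.e (nat_lit 237584) (nat_lit 1) (.e (nat_lit 164327) (nat_lit 230) (.e (nat_lit 163875) (nat_lit 3) (.e (nat_lit 204830) (nat_lit 18) (.e (nat_lit 57908) (nat_lit 278) (.e (nat_lit 2553) (nat_lit 159) .nil)))))))) (.g (nat_lit 1) (.e (nat_lit 132244) (nat_lit 0) .nil) .nil)))) 
(.nd (nat_lit 9) 
(.lf (nat_lit 484669) (.g (nat_lit 2014) (.e (nat_lit 24599) (nat_lit 1) (.e (nat_lit 57930) (nat_lit 282) (.e (nat_lit 163905) (nat_lit 12) (.e (nat_lit 426555) (nat_lit 32) (.e (nat_lit 376865) (nat_lit 22) (.e (nat_lit 90160) (nat_lit 11) .nil)))))) (.g (nat_lit 1) (.e (nat_lit 131939) (nat_lit 0) .nil) .nil))) 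
(.lf (nat_lit 485181) (.g (nat_lit 3336) (.e (nat_lit 24607) (nat_lit 3) (.e (nat_lit 98365) (nat_lit 26) (.e (nat_lit 426188) (nat_lit 9) (.e (nat_lit 426438) (nat_lit 18) (.e (nat_lit 98337) (nat_lit 19) (.e (nat_lit 213032) (nat_lit 11) .nil)))))) (.g (nat_lit 1) (.e (nat_lit 132527) (nat_lit 0) .nil) .nil))))) (.nd (nat_lit 8) (.nd (nat_lit 9) 
(.lf (nat_lit 484541) (.g (nat_lit 482) (.e (nat_lit 24576) (nat_lit 0) (.e (nat_lit 6113) (nat_lit 332) (.e (nat_lit 1361) (nat_lit 102) .nil))) (.g (nat_lit 0) (.e (nat_lit 131564) (nat_lit 0) .nil) .nil))) 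
(.lf (nat_lit 485053) (.g (nat_lit 2175) (.e (nat_lit 24605) (nat_lit 2) (.e (nat_lit 90170) (nat_lit 13) (.e (nat_lit 172113) (nat_lit 10) (.e (nat_lit 434248) (nat_lit 28) (.e (nat_lit 573476) (nat_lit 12) .nil))))) (.g (nat_lit 0) (.e (nat_lit 132374) (nat_lit 0) .nil) .nil)))) (.nd (nat_lit 9) 
(.lf (nat_lit 484797) (.g (nat_lit 3377) (.e (nat_lit 24604) (nat_lit 2) (.e (nat_lit 90170) (nat_lit 13) (.e (nat_lit 172106) (nat_lit 10) (.e (nat_lit 434231) (nat_lit 23) (.e (nat_lit 532499) (nat_lit 1) (.e (nat_lit 65280) (nat_lit 233) (.e (nat_lit 2556) (nat_lit 159) .nil))))))) (.g (nat_lit 1) (.e (nat_lit 132111) (nat_lit 0) .nil) .nil))) 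
(.lf (nat_lit 485309) (.g (nat_lit 4287) (.e (nat_lit 24608) (nat_lit 3) (.e (nat_lit 98365) (nat_lit 26) (.e (nat_lit 426100) (nat_lit 1) (.e (nat_lit 164332) (nat_lit 230) (.e (nat_lit 163874) (nat_lit 3) (.e (nat_lit 204830) (nat_lit 18) (.e (nat_lit 57908) (nat_lit 278) (.e (nat_lit 2559) (nat_lit 159) .nil)))))))) (.g (nat_lit 1) (.e (nat_lit 132666) (nat_lit 0) .nil) .nil)))))) 
(.nd (nat_lit 7) (.nd (nat_lit 8) (.nd (nat_lit 9) 
(.lf (nat_lit 484477) (.g (nat_lit 1125) (.e (nat_lit 8233) (nat_lit 20) (.e (nat_lit 573493) (nat_lit 15) (.e (nat_lit 81954) (nat_lit 23) .nil))) (.g (nat_lit 0) (.e (nat_lit 130447) (nat_lit 0) .nil) .nil))) 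
(.lf (nat_lit 484989) (.g (nat_lit 2600) (.e (nat_lit 24605) (nat_lit 2) (.e (nat_lit 90169) (nat_lit 13) (.e (nat_lit 172119) (nat_lit 12) (.e (nat_lit 475179) (nat_lit 24) (.e (nat_lit 516126) (nat_lit 2) (.e (nat_lit 213030) (nat_lit 11) .nil)))))) (.g (nat_lit 1) (.e (nat_lit 132309) (nat_lit 0) .nil) .nil)))) (.nd (nat_lit 9) 
(.lf (nat_lit 484733) (.g (nat_lit 2936) (.e (nat_lit 24603) (nat_lit 2) (.e (nat_lit 90169) (nat_lit 13) (.e (nat_lit 172113) (nat_lit 10) (.e (nat_lit 434248) (nat_lit 28) (.e (nat_lit 573475) (nat_lit 12) (.e (nat_lit 57574) (nat_lit 55) (.e (nat_lit 778465) (nat_lit 11) .nil))))))) (.g (nat_lit 1) (.e (nat_lit 132030) (nat_lit 0) .nil) .nil))) 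
(.lf (nat_lit 485245) (.g (nat_lit 4929) (.e (nat_lit 24607) (nat_lit 3) (.e (nat_lit 98373) (nat_lit 29) (.e (nat_lit 450588) (nat_lit 10) (.e (nat_lit 573475) (nat_lit 12) (.e (nat_lit 57574) (nat_lit 55) (.e (nat_lit 778464) (nat_lit 11) .nil)))))) (.g (nat_lit 1) (.e (nat_lit 132591) (nat_lit 0) .nil) .nil))))) (.nd (nat_lit 8) (.nd (nat_lit 9) 
(.lf (nat_lit 484605) (.g (nat_lit 3228) (.e (nat_lit 24597) (nat_lit 1) (.e (nat_lit 57926) (nat_lit 282) (.e (nat_lit 163905) (nat_lit 12) (.e (nat_lit 426555) (nat_lit 32) (.e (nat_lit 376862) (nat_lit 22) (.e (nat_lit 90158) (nat_lit 11) .nil)))))) (.g (nat_lit 1) (.e (nat_lit 131772) (nat_lit 0) .nil) .nil))) 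
(.lf (nat_lit 485117) (.g (nat_lit 4073) (.e (nat_lit 24606) (nat_lit 3) (.e (nat_lit 98359) (nat_lit 26) (.e (nat_lit 426286) (nat_lit 10) (.e (nat_lit 434248) (nat_lit 28) (.e (nat_lit 573475) (nat_lit 12) (.e (nat_lit 57574) (nat_lit 55) (.e (nat_lit 778465) (nat_lit 11) .nil))))))) (.g (nat_lit 1) (.e (nat_lit 132441) (nat_lit 0) .nil) .nil)))) (.nd (nat_lit 9) 
(.lf (nat_lit 484861) (.g (nat_lit 2199) (.e (nat_lit 24604) (nat_lit 2) (.e (nat_lit 90170) (nat_lit 13) (.e (nat_lit 172106) (nat_lit 10) (.e (nat_lit 442112) (nat_lit 26) .nil)))) (.g (nat_lit 0) (.e (nat_lit 132175) (nat_lit 0) .nil) .nil))) 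
(.lf (nat_lit 485373) (.g (nat_lit 2459) (.e (nat_lit 24608) (nat_lit 3) (.e (nat_lit 98365) (nat_lit 26) (.e (nat_lit 426306) (nat_lit 12) (.e (nat_lit 475179) (nat_lit 24) (.e (nat_lit 516105) (nat_lit 0) (.e (nat_lit 3617) (nat_lit 227) (.e (nat_lit 778462) (nat_lit 11) .nil))))))) (.g (nat_lit 1) (.e (nat_lit 132730) (nat_lit 0) .nil) .nil))))))))))) 
(.nd (nat_lit 2) (.nd (nat_lit 3) (.nd (nat_lit 4) (.nd (nat_lit 5) (.nd (nat_lit 6) 
(.nd (nat_lit 7) (.nd (nat_lit 8) (.nd (nat_lit 9) 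
(.lf (nat_lit 484355) (.g (nat_lit 2939) (.e (nat_lit 8325) (nat_lit 69) (.e (nat_lit 557109) (nat_lit 15) (.e (nat_lit 188452) (nat_lit 23) (.e (nat_lit 204846) (nat_lit 24) (.e (nat_lit 319504) (nat_lit 10) (.e (nat_lit 7936) (nat_lit 313) .nil)))))) (.g (nat_lit 1) (.e (nat_lit 129851) (nat_lit 0) .nil) .nil))) 
(.lf (nat_lit 484867) (.g (nat_lit 2335) (.e (nat_lit 24604) (nat_lit 2) (.e (nat_lit 90170) (nat_lit 13) (.e (nat_lit 172113) (nat_lit 10) (.e (nat_lit 434242) (nat_lit 28) (.e (nat_lit 573477) (nat_lit 12) (.e (nat_lit 57574) (nat_lit 55) (.e (nat_lit 778466) (nat_lit 11) .nil))))))) (.g (nat_lit 1) (.e (nat_lit 132181) (nat_lit 0) .nil) .nil)))) (.nd (nat_lit 9) 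
(.lf (nat_lit 484611) (.g (nat_lit 2792) (.e (nat_lit 24597) (nat_lit 1) (.e (nat_lit 57926) (nat_lit 282) (.e (nat_lit 163906) (nat_lit 12) (.e (nat_lit 426555) (nat_lit 32) (.e (nat_lit 376865) (nat_lit 22) (.e (nat_lit 90158) (nat_lit 11) .nil)))))) (.g (nat_lit 1) (.e (nat_lit 131778) (nat_lit 0) .nil) .nil))) 
(.lf (nat_lit 485123) (.g (nat_lit 1793) (.e (nat_lit 24606) (nat_lit 3) (.e (nat_lit 98373) (nat_lit 29) (.e (nat_lit 450586) (nat_lit 10) (.e (nat_lit 573477) (nat_lit 12) .nil)))) (.g (nat_lit 0) (.e (nat_lit 132460) (nat_lit 0) .nil) .nil))))) (.nd (nat_lit 8) (.nd (nat_lit 9) 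
(.lf (nat_lit 484483) (.g (nat_lit 3248) (.e (nat_lit 8234) (nat_lit 20) (.e (nat_lit 573482) (nat_lit 13) (.e (nat_lit 65619) (nat_lit 10) (.e (nat_lit 344117) (nat_lit 21) (.e (nat_lit 516106) (nat_lit 0) (.e (nat_lit 6986) (nat_lit 377) (.e (nat_lit 2400) (nat_lit 157) (.e (nat_lit 5373) (nat_lit 299) .nil)))))))) (.g (nat_lit 1) (.e (nat_lit 130468) (nat_lit 0) .nil) .nil))) 
(.lf (nat_lit 484995) (.g (nat_lit 3123) (.e (nat_lit 24605) (nat_lit 2) (.e (nat_lit 90170) (nat_lit 13) (.e (nat_lit 172106) (nat_lit 10) (.e (nat_lit 434231) (nat_lit 23) (.e (nat_lit 532500) (nat_lit 1) (.e (nat_lit 57777) (nat_lit 233) (.e (nat_lit 2551) (nat_lit 159) .nil))))))) (.g (nat_lit 1) (.e (nat_lit 132315) (nat_lit 0) .nil) .nil)))) (.nd (nat_lit 9) 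
(.lf (nat_lit 484739) (.g (nat_lit 931) (.e (nat_lit 24603) (nat_lit 2) (.e (nat_lit 90176) (nat_lit 15) (.e (nat_lit 188420) (nat_lit 0) (.e (nat_lit 1800) (nat_lit 119) (.e (nat_lit 516127) (nat_lit 2) .nil))))) (.g (nat_lit 0) (.e (nat_lit 132042) (nat_lit 0) .nil) .nil))) 
(.lf (nat_lit 485251) (.g (nat_lit 2454) (.e (nat_lit 24607) (nat_lit 3) (.e (nat_lit 98374) (nat_lit 29) (.e (nat_lit 450586) (nat_lit 10) (.e (nat_lit 573477) (nat_lit 12) (.e (nat_lit 57575) (nat_lit 55) (.e (nat_lit 778463) (nat_lit 11) .nil)))))) (.g (nat_lit 1) (.e (nat_lit 132597) (nat_lit 0) .nil) .nil)))))) (.nd (nat_lit 7) (.nd (nat_lit 8) (.nd (nat_lit 9) 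
(.lf (nat_lit 484419) (.g (nat_lit 3214) (.e (nat_lit 8211) (nat_lit 9) (.e (nat_lit 303143) (nat_lit 12) (.e (nat_lit 475185) (nat_lit 29) (.e (nat_lit 557109) (nat_lit 15) .nil)))) (.g (nat_lit 0) (.e (nat_lit 130003) (nat_lit 0) .nil) .nil))) 
(.lf (nat_lit 484931) (.g (nat_lit 2305) (.e (nat_lit 24604) (nat_lit 2) (.e (nat_lit 90185) (nat_lit 17) (.e (nat_lit 237601) (nat_lit 9) (.e (nat_lit 426428) (nat_lit 17) (.e (nat_lit 90165) (nat_lit 12) (.e (nat_lit 164048) (nat_lit 55) (.e (nat_lit 778469) (nat_lit 11) .nil))))))) (.g (nat_lit 1) (.e (nat_lit 132250) (nat_lit 0) .nil) .nil)))) (.nd (nat_lit 9) 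
(.lf (nat_lit 484675) (.g (nat_lit 2760) (.e (nat_lit 24600) (nat_lit 1) (.e (nat_lit 57931) (nat_lit 282) (.e (nat_lit 163905) (nat_lit 12) (.e (nat_lit 426555) (nat_lit 32) (.e (nat_lit 376862) (nat_lit 22) (.e (nat_lit 90158) (nat_lit 11) .nil)))))) (.g (nat_lit 1) (.e (nat_lit 131960) (nat_lit 0) .nil) .nil))) 
(.lf (nat_lit 485187) (.g (nat_lit 1909) (.e (nat_lit 24607) (nat_lit 3) (.e (nat_lit 98365) (nat_lit 26) (.e (nat_lit 426306) (nat_lit 12) (.e (nat_lit 475177) (nat_lit 24) (.e (nat_lit 516124) (nat_lit 2) (.e (nat_lit 220928) (nat_lit 11) .nil)))))) (.g (nat_lit 1) (.e (nat_lit 132533) (nat_lit 0) .nil) .nil))))) (.nd (nat_lit 8) (.nd (nat_lit 9) 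
(.lf (nat_lit 484547) (.g (nat_lit 3500) (.e (nat_lit 24577) (nat_lit 0) (.e (nat_lit 6619) (nat_lit 357) (.e (nat_lit 2685) (nat_lit 168) (.e (nat_lit 204869) (nat_lit 29) (.e (nat_lit 360475) (nat_lit 8) (.e (nat_lit 557087) (nat_lit 11) .nil)))))) (.g (nat_lit 1) (.e (nat_lit 131576) (nat_lit 0) .nil) .nil))) 
(.lf (nat_lit 485059) (.g (nat_lit 2638) (.e (nat_lit 24605) (nat_lit 2) (.e (nat_lit 90170) (nat_lit 13) (.e (nat_lit 172118) (nat_lit 12) (.e (nat_lit 475177) (nat_lit 24) (.e (nat_lit 516127) (nat_lit 2) (.e (nat_lit 213032) (nat_lit 11) .nil)))))) (.g (nat_lit 1) (.e (nat_lit 132380) (nat_lit 0) .nil) .nil)))) (.nd (nat_lit 9) 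
(.lf (nat_lit 484803) (.g (nat_lit 2814) (.e (nat_lit 24604) (nat_lit 2) (.e (nat_lit 90170) (nat_lit 13) (.e (nat_lit 172106) (nat_lit 10) (.e (nat_lit 434231) (nat_lit 23) (.e (nat_lit 532500) (nat_lit 1) (.e (nat_lit 65280) (nat_lit 233) (.e (nat_lit 2550) (nat_lit 159) .nil))))))) (.g (nat_lit 1) (.e (nat_lit 132117) (nat_lit 0) .nil) .nil))) 
(.lf (nat_lit 485315) (.g (nat_lit 1988) (.e (nat_lit 24608) (nat_lit 3) (.e (nat_lit 98365) (nat_lit 26) (.e (nat_lit 426187) (nat_lit 9) (.e (nat_lit 426432) (nat_lit 17) (.e (nat_lit 90133) (nat_lit 9) (.e (nat_lit 7936) (nat_lit 169) (.e (nat_lit 213032) (nat_lit 11) .nil))))))) (.g (nat_lit 1) (.e (nat_lit 132672) (nat_lit 0) .nil) .nil))))))) 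
(.nd (nat_lit 6) (.nd (nat_lit 7) (.nd (nat_lit 8) (.nd (nat_lit 9) 
(.lf (nat_lit 484387) (.g (nat_lit 2938) (.e (nat_lit 8326) (nat_lit 69) (.e (nat_lit 557105) (nat_lit 14) (.e (nat_lit 180252) (nat_lit 10) (.e (nat_lit 573489) (nat_lit 14) (.e (nat_lit 73755) (nat_lit 8) (.e (nat_lit 557089) (nat_lit 12) (.e (nat_lit 164006) (nat_lit 41) (.e (nat_lit 663582) (nat_lit 10) .nil)))))))) (.g (nat_lit 1) (.e (nat_lit 129884) (nat_lit 0) .nil) .nil))) 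
(.lf (nat_lit 484899) (.g (nat_lit 1682) (.e (nat_lit 24604) (nat_lit 2) (.e (nat_lit 90176) (nat_lit 15) (.e (nat_lit 188450) (nat_lit 23) (.e (nat_lit 204821) (nat_lit 17) (.e (nat_lit 1040) (nat_lit 81) .nil))))) (.g (nat_lit 0) (.e (nat_lit 132215) (nat_lit 0) .nil) .nil)))) (.nd (nat_lit 9) 
(.lf (nat_lit 484643) (.g (nat_lit 2771) (.e (nat_lit 24598) (nat_lit 1) (.e (nat_lit 57927) (nat_lit 282) (.e (nat_lit 163905) (nat_lit 12) (.e (nat_lit 426555) (nat_lit 32) (.e (nat_lit 376862) (nat_lit 22) (.e (nat_lit 90160) (nat_lit 11) .nil)))))) (.g (nat_lit 1) (.e (nat_lit 131864) (nat_lit 0) .nil) .nil))) 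
(.lf (nat_lit 485155) (.g (nat_lit 3379) (.e (nat_lit 24607) (nat_lit 3) (.e (nat_lit 98359) (nat_lit 26) (.e (nat_lit 426286) (nat_lit 10) (.e (nat_lit 434248) (nat_lit 28) (.e (nat_lit 573475) (nat_lit 12) (.e (nat_lit 57574) (nat_lit 55) (.e (nat_lit 778463) (nat_lit 11) .nil))))))) (.g (nat_lit 1) (.e (nat_lit 132501) (nat_lit 0) .nil) .nil))))) (.nd (nat_lit 8) (.nd (nat_lit 9) 
(.lf (nat_lit 484515) (.g (nat_lit 1424) (.e (nat_lit 8399) (nat_lit 120) (.e (nat_lit 2649) (nat_lit 166) (.e (nat_lit 188434) (nat_lit 20) (.e (nat_lit 3578) (nat_lit 223) .nil)))) (.g (nat_lit 0) (.e (nat_lit 131037) (nat_lit 0) .nil) .nil))) 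
(.lf (nat_lit 485027) (.g (nat_lit 3608) (.e (nat_lit 24605) (nat_lit 2) (.e (nat_lit 90170) (nat_lit 13) (.e (nat_lit 172113) (nat_lit 10) (.e (nat_lit 434247) (nat_lit 28) (.e (nat_lit 573477) (nat_lit 12) (.e (nat_lit 57574) (nat_lit 55) (.e (nat_lit 786176) (nat_lit 11) .nil))))))) (.g (nat_lit 1) (.e (nat_lit 132348) (nat_lit 0) .nil) .nil)))) (.nd (nat_lit 9) 
(.lf (nat_lit 484771) (.g (nat_lit 3453) (.e (nat_lit 24604) (nat_lit 2) (.e (nat_lit 90167) (nat_lit 13) (.e (nat_lit 172112) (nat_lit 10) (.e (nat_lit 434248) (nat_lit 28) (.e (nat_lit 573475) (nat_lit 12) (.e (nat_lit 57574) (nat_lit 55) (.e (nat_lit 778466) (nat_lit 11) .nil))))))) (.g (nat_lit 1) (.e (nat_lit 132083) (nat_lit 0) .nil) .nil))) 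
(.lf (nat_lit 485283) (.g (nat_lit 3702) (.e (nat_lit 24608) (nat_lit 3) (.e (nat_lit 98362) (nat_lit 26) (.e (nat_lit 426286) (nat_lit 10) (.e (nat_lit 434248) (nat_lit 28) (.e (nat_lit 573475) (nat_lit 12) (.e (nat_lit 57574) (nat_lit 55) (.e (nat_lit 778466) (nat_lit 11) .nil))))))) (.g (nat_lit 1) (.e (nat_lit 132640) (nat_lit 0) .nil) .nil)))))) 
(.nd (nat_lit 7) (.nd (nat_lit 8) (.nd (nat_lit 9) 
(.lf (nat_lit 484451) (.g (nat_lit 4548) (.e (nat_lit 8213) (nat_lit 9) (.e (nat_lit 303145) (nat_lit 13) (.e (nat_lit 483413) (nat_lit 27) (.e (nat_lit 401448) (nat_lit 10) (.e (nat_lit 434199) (nat_lit 18) .nil))))) (.g (nat_lit 0) (.e (nat_lit 130069) (nat_lit 0) .nil) .nil))) 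
(.lf (nat_lit 484963) (.g (nat_lit 2690) (.e (nat_lit 24604) (nat_lit 2) (.e (nat_lit 90185) (nat_lit 17) (.e (nat_lit 237616) (nat_lit 12) (.e (nat_lit 475177) (nat_lit 24) (.e (nat_lit 516097) (nat_lit 0) (.e (nat_lit 3648) (nat_lit 227) (.e (nat_lit 778462) (nat_lit 11) .nil))))))) (.g (nat_lit 1) (.e (nat_lit 132282) (nat_lit 0) .nil) .nil)))) (.nd (nat_lit 9) 
(.lf (nat_lit 484707) (.g (nat_lit 3641) (.e (nat_lit 24602) (nat_lit 2) (.e (nat_lit 90170) (nat_lit 13) (.e (nat_lit 172113) (nat_lit 10) (.e (nat_lit 434247) (nat_lit 28) (.e (nat_lit 573477) (nat_lit 12) (.e (nat_lit 57575) (nat_lit 55) (.e (nat_lit 778463) (nat_lit 11) .nil))))))) (.g (nat_lit 1) (.e (nat_lit 132003) (nat_lit 0) .nil) .nil))) 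
(.lf (nat_lit 485219) (.g (nat_lit 2259) (.e (nat_lit 24607) (nat_lit 3) (.e (nat_lit 98373) (nat_lit 29) (.e (nat_lit 450587) (nat_lit 10) (.e (nat_lit 573454) (nat_lit 9) .nil)))) (.g (nat_lit 0) (.e (nat_lit 132565) (nat_lit 0) .nil) .nil))))) (.nd (nat_lit 8) (.nd (nat_lit 9) 
(.lf (nat_lit 484579) (.g (nat_lit 4091) (.e (nat_lit 24593) (nat_lit 0) (.e (nat_lit 1783) (nat_lit 119) (.e (nat_lit 516166) (nat_lit 12) (.e (nat_lit 450587) (nat_lit 10) (.e (nat_lit 573478) (nat_lit 12) .nil))))) (.g (nat_lit 0) (.e (nat_lit 131734) (nat_lit 0) .nil) .nil))) 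
(.lf (nat_lit 485091) (.g (nat_lit 2107) (.e (nat_lit 24605) (nat_lit 2) (.e (nat_lit 90185) (nat_lit 17) (.e (nat_lit 237616) (nat_lit 12) (.e (nat_lit 475177) (nat_lit 24) (.e (nat_lit 516127) (nat_lit 2) (.e (nat_lit 213030) (nat_lit 11) .nil)))))) (.g (nat_lit 1) (.e (nat_lit 132415) (nat_lit 0) .nil) .nil)))) (.nd (nat_lit 9) 
(.lf (nat_lit 484835) (.g (nat_lit 3319) (.e (nat_lit 24604) (nat_lit 2) (.e (nat_lit 90170) (nat_lit 13) (.e (nat_lit 172106) (nat_lit 10) (.e (nat_lit 434244) (nat_lit 28) (.e (nat_lit 573474) (nat_lit 12) (.e (nat_lit 65280) (nat_lit 55) (.e (nat_lit 778469) (nat_lit 11) .nil))))))) (.g (nat_lit 1) (.e (nat_lit 132149) (nat_lit 0) .nil) .nil))) 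
(.lf (nat_lit 485347) (.g (nat_lit 2746) (.e (nat_lit 24608) (nat_lit 3) (.e (nat_lit 98365) (nat_lit 26) (.e (nat_lit 426298) (nat_lit 11) (.e (nat_lit 458789) (nat_lit 23) (.e (nat_lit 532501) (nat_lit 1) (.e (nat_lit 57777) (nat_lit 233) (.e (nat_lit 2551) (nat_lit 159) .nil))))))) (.g (nat_lit 1) (.e (nat_lit 132704) (nat_lit 0) .nil) .nil)))))))) 
(.nd (nat_lit 5) (.nd (nat_lit 6) (.nd (nat_lit 7) (.nd (nat_lit 8) (.nd (nat_lit 9) 
(.lf (nat_lit 484371) (.g (nat_lit 2293) (.e (nat_lit 8326) (nat_lit 69) (.e (nat_lit 557100) (nat_lit 13) (.e (nat_lit 172106) (nat_lit 10) (.e (nat_lit 434231) (nat_lit 23) (.e (nat_lit 532523) (nat_lit 7) .nil))))) (.g (nat_lit 0) (.e (nat_lit 129868) (nat_lit 0) .nil) .nil))) 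
(.lf (nat_lit 484883) (.g (nat_lit 2622) (.e (nat_lit 24604) (nat_lit 2) (.e (nat_lit 90170) (nat_lit 13) (.e (nat_lit 172120) (nat_lit 12) (.e (nat_lit 475177) (nat_lit 24) (.e (nat_lit 516125) (nat_lit 2) .nil))))) (.g (nat_lit 0) (.e (nat_lit 132197) (nat_lit 0) .nil) .nil)))) (.nd (nat_lit 9) 
(.lf (nat_lit 484627) (.g (nat_lit 3281) (.e (nat_lit 24598) (nat_lit 1) (.e (nat_lit 57926) (nat_lit 282) (.e (nat_lit 163902) (nat_lit 12) (.e (nat_lit 426555) (nat_lit 32) (.e (nat_lit 376862) (nat_lit 22) (.e (nat_lit 90158) (nat_lit 11) .nil)))))) (.g (nat_lit 1) (.e (nat_lit 131832) (nat_lit 0) .nil) .nil))) 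
(.lf (nat_lit 485139) (.g (nat_lit 5244) (.e (nat_lit 24606) (nat_lit 3) (.e (nat_lit 98373) (nat_lit 29) (.e (nat_lit 450588) (nat_lit 10) (.e (nat_lit 573474) (nat_lit 12) .nil)))) (.g (nat_lit 0) (.e (nat_lit 132476) (nat_lit 0) .nil) .nil))))) (.nd (nat_lit 8) (.nd (nat_lit 9) 
(.lf (nat_lit 484499) (.g (nat_lit 974) (.e (nat_lit 8234) (nat_lit 20) (.e (nat_lit 573485) (nat_lit 13) (.e (nat_lit 65619) (nat_lit 10) (.e (nat_lit 344117) (nat_lit 21) .nil)))) (.g (nat_lit 0) (.e (nat_lit 130699) (nat_lit 0) .nil) .nil))) 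
(.lf (nat_lit 485011) (.g (nat_lit 3429) (.e (nat_lit 24605) (nat_lit 2) (.e (nat_lit 90170) (nat_lit 13) (.e (nat_lit 172113) (nat_lit 10) (.e (nat_lit 434245) (nat_lit 28) (.e (nat_lit 573474) (nat_lit 12) (.e (nat_lit 57573) (nat_lit 55) (.e (nat_lit 778469) (nat_lit 11) .nil))))))) (.g (nat_lit 1) (.e (nat_lit 132332) (nat_lit 0) .nil) .nil)))) (.nd (nat_lit 9) 
(.lf (nat_lit 484755) (.g (nat_lit 2111) (.e (nat_lit 24603) (nat_lit 2) (.e (nat_lit 90185) (nat_lit 17) (.e (nat_lit 237613) (nat_lit 10) (.e (nat_lit 434247) (nat_lit 28) (.e (nat_lit 573477) (nat_lit 12) (.e (nat_lit 57574) (nat_lit 55) (.e (nat_lit 778466) (nat_lit 11) .nil))))))) (.g (nat_lit 1) (.e (nat_lit 132058) (nat_lit 0) .nil) .nil))) 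
(.lf (nat_lit 485267) (.g (nat_lit 5356) (.e (nat_lit 24608) (nat_lit 3) (.e (nat_lit 98342) (nat_lit 20) (.e (nat_lit 221214) (nat_lit 23) (.e (nat_lit 204829) (nat_lit 18) (.e (nat_lit 57847) (nat_lit 252) (.e (nat_lit 57370) (nat_lit 2) (.e (nat_lit 90158) (nat_lit 11) .nil))))))) (.g (nat_lit 1) (.e (nat_lit 132621) (nat_lit 0) .nil) .nil)))))) 
(.nd (nat_lit 7) (.nd (nat_lit 8) (.nd (nat_lit 9) 
(.lf (nat_lit 484435) (.g (nat_lit 4682) (.e (nat_lit 8213) (nat_lit 9) (.e (nat_lit 303119) (nat_lit 3) (.e (nat_lit 204869) (nat_lit 29) (.e (nat_lit 360475) (nat_lit 8) (.e (nat_lit 557091) (nat_lit 12) (.e (nat_lit 163840) (nat_lit 0) (.e (nat_lit 6058) (nat_lit 327) .nil))))))) (.g (nat_lit 1) (.e (nat_lit 130049) (nat_lit 0) .nil) .nil))) 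
(.lf (nat_lit 484947) (.g (nat_lit 2568) (.e (nat_lit 24604) (nat_lit 2) (.e (nat_lit 90185) (nat_lit 17) (.e (nat_lit 237605) (nat_lit 9) (.e (nat_lit 426428) (nat_lit 17) (.e (nat_lit 90165) (nat_lit 12) (.e (nat_lit 164048) (nat_lit 55) (.e (nat_lit 778469) (nat_lit 11) .nil))))))) (.g (nat_lit 1) (.e (nat_lit 132266) (nat_lit 0) .nil) .nil)))) (.nd (nat_lit 9) 
(.lf (nat_lit 484691) (.g (nat_lit 2163) (.e (nat_lit 24601) (nat_lit 2) (.e (nat_lit 90170) (nat_lit 13) (.e (nat_lit 172113) (nat_lit 10) (.e (nat_lit 434247) (nat_lit 28) (.e (nat_lit 573478) (nat_lit 12) (.e (nat_lit 57574) (nat_lit 55) (.e (nat_lit 778463) (nat_lit 11) .nil))))))) (.g (nat_lit 1) (.e (nat_lit 131982) (nat_lit 0) .nil) .nil))) 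
(.lf (nat_lit 485203) (.g (nat_lit 2713) (.e (nat_lit 24607) (nat_lit 3) (.e (nat_lit 98372) (nat_lit 29) (.e (nat_lit 450586) (nat_lit 10) (.e (nat_lit 573478) (nat_lit 12) (.e (nat_lit 57574) (nat_lit 55) (.e (nat_lit 778463) (nat_lit 11) .nil)))))) (.g (nat_lit 1) (.e (nat_lit 132549) (nat_lit 0) .nil) .nil))))) (.nd (nat_lit 8) (.nd (nat_lit 9) 
(.lf (nat_lit 484563) (.g (nat_lit 2470) (.e (nat_lit 24580) (nat_lit 0) (.e (nat_lit 6722) (nat_lit 362) (.e (nat_lit 180271) (nat_lit 26) (.e (nat_lit 704738) (nat_lit 11) (.e (nat_lit 16392) (nat_lit 0) (.e (nat_lit 7936) (nat_lit 390) .nil)))))) (.g (nat_lit 1) (.e (nat_lit 131673) (nat_lit 0) .nil) .nil))) 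
(.lf (nat_lit 485075) (.g (nat_lit 2934) (.e (nat_lit 24605) (nat_lit 2) (.e (nat_lit 90170) (nat_lit 13) (.e (nat_lit 172120) (nat_lit 12) (.e (nat_lit 475179) (nat_lit 24) (.e (nat_lit 516127) (nat_lit 2) (.e (nat_lit 213032) (nat_lit 11) .nil)))))) (.g (nat_lit 1) (.e (nat_lit 132396) (nat_lit 0) .nil) .nil)))) (.nd (nat_lit 9) 
(.lf (nat_lit 484819) (.g (nat_lit 2062) (.e (nat_lit 24604) (nat_lit 2) (.e (nat_lit 90170) (nat_lit 13) (.e (nat_lit 172106) (nat_lit 10) (.e (nat_lit 434243) (nat_lit 28) .nil)))) (.g (nat_lit 0) (.e (nat_lit 132133) (nat_lit 0) .nil) .nil))) 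
(.lf (nat_lit 485331) (.g (nat_lit 2064) (.e (nat_lit 24608) (nat_lit 3) (.e (nat_lit 98365) (nat_lit 26) (.e (nat_lit 426188) (nat_lit 9) (.e (nat_lit 426434) (nat_lit 18) (.e (nat_lit 98337) (nat_lit 19) (.e (nat_lit 213032) (nat_lit 11) .nil)))))) (.g (nat_lit 1) (.e (nat_lit 132688) (nat_lit 0) .nil) .nil))))))) (.nd (nat_lit 6) (.nd (nat_lit 7) (.nd (nat_lit 8) (.nd (nat_lit 9) 
(.lf (nat_lit 484403) (.g (nat_lit 8018) (.e (nat_lit 8326) (nat_lit 69) (.e (nat_lit 557109) (nat_lit 15) (.e (nat_lit 188452) (nat_lit 23) (.e (nat_lit 204846) (nat_lit 24) (.e (nat_lit 319504) (nat_lit 10) (.e (nat_lit 7936) (nat_lit 313) .nil)))))) (.g (nat_lit 1) (.e (nat_lit 129901) (nat_lit 0) .nil) .nil))) 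
(.lf (nat_lit 484915) (.g (nat_lit 4863) (.e (nat_lit 24604) (nat_lit 2) (.e (nat_lit 90178) (nat_lit 15) (.e (nat_lit 188440) (nat_lit 20) (.e (nat_lit 3307) (nat_lit 202) (.e (nat_lit 573477) (nat_lit 12) (.e (nat_lit 57575) (nat_lit 55) (.e (nat_lit 778463) (nat_lit 11) .nil))))))) (.g (nat_lit 1) (.e (nat_lit 132233) (nat_lit 0) .nil) .nil)))) (.nd (nat_lit 9) 
(.lf (nat_lit 484659) (.g (nat_lit 1224) (.e (nat_lit 24599) (nat_lit 1) (.e (nat_lit 57854) (nat_lit 252) (.e (nat_lit 57389) (nat_lit 5) (.e (nat_lit 122624) (nat_lit 14) .nil)))) (.g (nat_lit 0) (.e (nat_lit 131918) (nat_lit 0) .nil) .nil))) 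
(.lf (nat_lit 485171) (.g (nat_lit 2377) (.e (nat_lit 24607) (nat_lit 3) (.e (nat_lit 98365) (nat_lit 26) (.e (nat_lit 426188) (nat_lit 9) (.e (nat_lit 426428) (nat_lit 17) (.e (nat_lit 90165) (nat_lit 12) (.e (nat_lit 164040) (nat_lit 55) (.e (nat_lit 786176) (nat_lit 11) .nil))))))) (.g (nat_lit 1) (.e (nat_lit 132517) (nat_lit 0) .nil) .nil))))) (.nd (nat_lit 8) (.nd (nat_lit 9) 
(.lf (nat_lit 484531) (.g (nat_lit 1322) (.e (nat_lit 16128) (nat_lit 225) (.e (nat_lit 2798) (nat_lit 180) (.e (nat_lit 303119) (nat_lit 3) (.e (nat_lit 204868) (nat_lit 29) .nil)))) (.g (nat_lit 0) (.e (nat_lit 131348) (nat_lit 0) .nil) .nil))) 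
(.lf (nat_lit 485043) (.g (nat_lit 2117) (.e (nat_lit 24605) (nat_lit 2) (.e (nat_lit 90170) (nat_lit 13) (.e (nat_lit 172113) (nat_lit 10) (.e (nat_lit 434248) (nat_lit 28) (.e (nat_lit 573452) (nat_lit 9) .nil))))) (.g (nat_lit 0) (.e (nat_lit 132364) (nat_lit 0) .nil) .nil)))) (.nd (nat_lit 9) 
(.lf (nat_lit 484787) (.g (nat_lit 4553) (.e (nat_lit 24604) (nat_lit 2) (.e (nat_lit 90170) (nat_lit 13) (.e (nat_lit 172105) (nat_lit 10) (.e (nat_lit 434248) (nat_lit 28) (.e (nat_lit 573475) (nat_lit 12) (.e (nat_lit 57574) (nat_lit 55) (.e (nat_lit 778466) (nat_lit 11) .nil))))))) (.g (nat_lit 1) (.e (nat_lit 132100) (nat_lit 0) .nil) .nil))) 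
(.lf (nat_lit 485299) (.g (nat_lit 3523) (.e (nat_lit 24608) (nat_lit 3) (.e (nat_lit 98365) (nat_lit 26) (.e (nat_lit 426098) (nat_lit 1) (.e (nat_lit 164325) (nat_lit 230) (.e (nat_lit 163875) (nat_lit 3) (.e (nat_lit 204830) (nat_lit 18) (.e (nat_lit 57908) (nat_lit 278) (.e (nat_lit 2553) (nat_lit 159) .nil)))))))) (.g (nat_lit 1) (.e (nat_lit 132656) (nat_lit 0) .nil) .nil)))))) 
(.nd (nat_lit 7) (.nd (nat_lit 8) (.nd (nat_lit 9) 
(.lf (nat_lit 484467) (.g (nat_lit 1515) (.e (nat_lit 8227) (nat_lit 15) (.e (nat_lit 532504) (nat_lit 1) (.e (nat_lit 57851) (nat_lit 252) (.e (nat_lit 57406) (nat_lit 12) .nil)))) (.g (nat_lit 0) (.e (nat_lit 130177) (nat_lit 0) .nil) .nil))) 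
(.lf (nat_lit 484979) (.g (nat_lit 1296) (.e (nat_lit 24604) (nat_lit 2) (.e (nat_lit 90185) (nat_lit 17) (.e (nat_lit 237619) (nat_lit 12) (.e (nat_lit 475177) (nat_lit 24) (.e (nat_lit 524032) (nat_lit 2) (.e (nat_lit 213032) (nat_lit 11) .nil)))))) (.g (nat_lit 1) (.e (nat_lit 132298) (nat_lit 0) .nil) .nil)))) (.nd (nat_lit 9) 
(.lf (nat_lit 484723) (.g (nat_lit 3061) (.e (nat_lit 24603) (nat_lit 2) (.e (nat_lit 90160) (nat_lit 11) (.e (nat_lit 24604) (nat_lit 2) (.e (nat_lit 90160) (nat_lit 11) (.e (nat_lit 24604) (nat_lit 2) (.e (nat_lit 90158) (nat_lit 11) .nil)))))) (.g (nat_lit 1) (.e (nat_lit 132020) (nat_lit 0) .nil) .nil))) 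
(.lf (nat_lit 485235) (.g (nat_lit 3666) (.e (nat_lit 24607) (nat_lit 3) (.e (nat_lit 98373) (nat_lit 29) (.e (nat_lit 450588) (nat_lit 10) (.e (nat_lit 573451) (nat_lit 9) .nil)))) (.g (nat_lit 0) (.e (nat_lit 132581) (nat_lit 0) .nil) .nil))))) (.nd (nat_lit 8) (.nd (nat_lit 9) 
(.lf (nat_lit 484595) (.g (nat_lit 1232) (.e (nat_lit 24596) (nat_lit 1) (.e (nat_lit 57931) (nat_lit 282) (.e (nat_lit 163905) (nat_lit 12) (.e (nat_lit 426555) (nat_lit 32) .nil)))) (.g (nat_lit 0) (.e (nat_lit 131752) (nat_lit 0) .nil) .nil))) 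
(.lf (nat_lit 485107) (.g (nat_lit 1904) (.e (nat_lit 24606) (nat_lit 3) (.e (nat_lit 98359) (nat_lit 26) (.e (nat_lit 426286) (nat_lit 10) (.e (nat_lit 434245) (nat_lit 28) (.e (nat_lit 573474) (nat_lit 12) (.e (nat_lit 57574) (nat_lit 55) (.e (nat_lit 778463) (nat_lit 11) .nil))))))) (.g (nat_lit 1) (.e (nat_lit 132431) (nat_lit 0) .nil) .nil)))) (.nd (nat_lit 9) 
(.lf (nat_lit 484851) (.g (nat_lit 3175) (.e (nat_lit 24604) (nat_lit 2) (.e (nat_lit 90170) (nat_lit 13) (.e (nat_lit 172106) (nat_lit 10) (.e (nat_lit 434246) (nat_lit 28) (.e (nat_lit 573477) (nat_lit 12) (.e (nat_lit 57575) (nat_lit 55) (.e (nat_lit 778466) (nat_lit 11) .nil))))))) (.g (nat_lit 1) (.e (nat_lit 132165) (nat_lit 0) .nil) .nil))) 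
(.lf (nat_lit 485363) (.g (nat_lit 2186) (.e (nat_lit 24608) (nat_lit 3) (.e (nat_lit 98365) (nat_lit 26) (.e (nat_lit 426306) (nat_lit 12) (.e (nat_lit 475177) (nat_lit 24) (.e (nat_lit 516126) (nat_lit 2) (.e (nat_lit 213031) (nat_lit 11) .nil)))))) (.g (nat_lit 1) (.e (nat_lit 132720) (nat_lit 0) .nil) .nil))))))))) 
(.nd (nat_lit 4) (.nd (nat_lit 5) (.nd (nat_lit 6) (.nd (nat_lit 7) (.nd (nat_lit 8) 
(.nd (nat_lit 9) 
(.lf (nat_lit 484363) (.g (nat_lit 3037) (.e (nat_lit 8326) (nat_lit 69) (.e (nat_lit 557098) (nat_lit 13) (.e (nat_lit 172115) (nat_lit 10) (.e (nat_lit 434244) (nat_lit 28) (.e (nat_lit 573450) (nat_lit 9) (.e (nat_lit 375) (nat_lit 32) (.e (nat_lit 426025) (nat_lit 0) (.e (nat_lit 7936) (nat_lit 389) .nil)))))))) (.g (nat_lit 1) (.e (nat_lit 129860) (nat_lit 0) .nil) .nil))) 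
(.lf (nat_lit 484875) (.g (nat_lit 3208) (.e (nat_lit 24604) (nat_lit 2) (.e (nat_lit 90170) (nat_lit 13) (.e (nat_lit 172113) (nat_lit 10) (.e (nat_lit 434247) (nat_lit 28) (.e (nat_lit 573477) (nat_lit 12) (.e (nat_lit 57575) (nat_lit 55) (.e (nat_lit 778466) (nat_lit 11) .nil))))))) (.g (nat_lit 1) (.e (nat_lit 132189) (nat_lit 0) .nil) .nil)))) (.nd (nat_lit 9) 
(.lf (nat_lit 484619) (.g (nat_lit 2852) (.e (nat_lit 24597) (nat_lit 1) (.e (nat_lit 57927) (nat_lit 282) (.e (nat_lit 163905) (nat_lit 12) (.e (nat_lit 426555) (nat_lit 32) (.e (nat_lit 376862) (nat_lit 22) (.e (nat_lit 90160) (nat_lit 11) .nil)))))) (.g (nat_lit 1) (.e (nat_lit 131800) (nat_lit 0) .nil) .nil))) 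
(.lf (nat_lit 485131) (.g (nat_lit 2593) (.e (nat_lit 24606) (nat_lit 3) (.e (nat_lit 98373) (nat_lit 29) (.e (nat_lit 450587) (nat_lit 10) (.e (nat_lit 573477) (nat_lit 12) (.e (nat_lit 57575) (nat_lit 55) (.e (nat_lit 778464) (nat_lit 11) .nil)))))) (.g (nat_lit 1) (.e (nat_lit 132468) (nat_lit 0) .nil) .nil))))) (.nd (nat_lit 8) (.nd (nat_lit 9) 
(.lf (nat_lit 484491) (.g (nat_lit 3118) (.e (nat_lit 8234) (nat_lit 20) (.e (nat_lit 573482) (nat_lit 13) (.e (nat_lit 65619) (nat_lit 10) (.e (nat_lit 344117) (nat_lit 21) (.e (nat_lit 516106) (nat_lit 0) (.e (nat_lit 6986) (nat_lit 377) (.e (nat_lit 2507) (nat_lit 157) (.e (nat_lit 5373) (nat_lit 299) .nil)))))))) (.g (nat_lit 1) (.e (nat_lit 130476) (nat_lit 0) .nil) .nil))) 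
(.lf (nat_lit 485003) (.g (nat_lit 2502) (.e (nat_lit 24605) (nat_lit 2) (.e (nat_lit 90170) (nat_lit 13) (.e (nat_lit 172106) (nat_lit 10) (.e (nat_lit 434244) (nat_lit 28) (.e (nat_lit 573474) (nat_lit 12) (.e (nat_lit 65280) (nat_lit 55) (.e (nat_lit 778461) (nat_lit 11) .nil))))))) (.g (nat_lit 1) (.e (nat_lit 132323) (nat_lit 0) .nil) .nil)))) (.nd (nat_lit 9) 
(.lf (nat_lit 484747) (.g (nat_lit 2285) (.e (nat_lit 24603) (nat_lit 2) (.e (nat_lit 90178) (nat_lit 15) (.e (nat_lit 188440) (nat_lit 20) (.e (nat_lit 3304) (nat_lit 202) (.e (nat_lit 573454) (nat_lit 9) .nil))))) (.g (nat_lit 0) (.e (nat_lit 132050) (nat_lit 0) .nil) .nil))) 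
(.lf (nat_lit 485259) (.g (nat_lit 2471) (.e (nat_lit 24608) (nat_lit 3) (.e (nat_lit 98313) (nat_lit 9) (.e (nat_lit 336011) (nat_lit 2) (.e (nat_lit 90160) (nat_lit 11) (.e (nat_lit 24604) (nat_lit 2) .nil))))) (.g (nat_lit 0) (.e (nat_lit 132605) (nat_lit 0) .nil) .nil)))))) (.nd (nat_lit 7) (.nd (nat_lit 8) (.nd (nat_lit 9) 
(.lf (nat_lit 484427) (.g (nat_lit 858) (.e (nat_lit 8213) (nat_lit 9) (.e (nat_lit 303117) (nat_lit 2) (.e (nat_lit 196661) (nat_lit 12) .nil))) (.g (nat_lit 0) (.e (nat_lit 130038) (nat_lit 0) .nil) .nil))) 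
(.lf (nat_lit 484939) (.g (nat_lit 1547) (.e (nat_lit 24604) (nat_lit 2) (.e (nat_lit 90185) (nat_lit 17) (.e (nat_lit 237601) (nat_lit 9) (.e (nat_lit 426438) (nat_lit 18) (.e (nat_lit 106240) (nat_lit 19) (.e (nat_lit 213032) (nat_lit 11) .nil)))))) (.g (nat_lit 1) (.e (nat_lit 132258) (nat_lit 0) .nil) .nil)))) (.nd (nat_lit 9) 
(.lf (nat_lit 484683) (.g (nat_lit 4391) (.e (nat_lit 24601) (nat_lit 2) (.e (nat_lit 90170) (nat_lit 13) (.e (nat_lit 172113) (nat_lit 10) (.e (nat_lit 434245) (nat_lit 28) (.e (nat_lit 573474) (nat_lit 12) (.e (nat_lit 57574) (nat_lit 55) (.e (nat_lit 778465) (nat_lit 11) .nil))))))) (.g (nat_lit 1) (.e (nat_lit 131974) (nat_lit 0) .nil) .nil))) 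
(.lf (nat_lit 485195) (.g (nat_lit 1406) (.e (nat_lit 24607) (nat_lit 3) (.e (nat_lit 98365) (nat_lit 26) (.e (nat_lit 426308) (nat_lit 12) (.e (nat_lit 475177) (nat_lit 24) .nil)))) (.g (nat_lit 0) (.e (nat_lit 132541) (nat_lit 0) .nil) .nil))))) (.nd (nat_lit 8) (.nd (nat_lit 9) 
(.lf (nat_lit 484555) (.g (nat_lit 1595) (.e (nat_lit 24580) (nat_lit 0) (.e (nat_lit 6665) (nat_lit 357) (.e (nat_lit 2679) (nat_lit 168) (.e (nat_lit 204868) (nat_lit 29) (.e (nat_lit 360473) (nat_lit 8) .nil))))) (.g (nat_lit 0) (.e (nat_lit 131638) (nat_lit 0) .nil) .nil))) 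
(.lf (nat_lit 485067) (.g (nat_lit 2668) (.e (nat_lit 24605) (nat_lit 2) (.e (nat_lit 90170) (nat_lit 13) (.e (nat_lit 172120) (nat_lit 12) (.e (nat_lit 475177) (nat_lit 24) (.e (nat_lit 516124) (nat_lit 2) .nil))))) (.g (nat_lit 0) (.e (nat_lit 132388) (nat_lit 0) .nil) .nil)))) (.nd (nat_lit 9) 
(.lf (nat_lit 484811) (.g (nat_lit 5394) (.e (nat_lit 24604) (nat_lit 2) (.e (nat_lit 90170) (nat_lit 13) (.e (nat_lit 172106) (nat_lit 10) (.e (nat_lit 434242) (nat_lit 28) (.e (nat_lit 573474) (nat_lit 12) (.e (nat_lit 57574) (nat_lit 55) (.e (nat_lit 778465) (nat_lit 11) .nil))))))) (.g (nat_lit 1) (.e (nat_lit 132125) (nat_lit 0) .nil) .nil))) 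
(.lf (nat_lit 485323) (.g (nat_lit 1656) (.e (nat_lit 24608) (nat_lit 3) (.e (nat_lit 98365) (nat_lit 26) (.e (nat_lit 426187) (nat_lit 9) (.e (nat_lit 426438) (nat_lit 18) (.e (nat_lit 106240) (nat_lit 19) (.e (nat_lit 213032) (nat_lit 11) .nil)))))) (.g (nat_lit 1) (.e (nat_lit 132680) (nat_lit 0) .nil) .nil))))))) (.nd (nat_lit 6) (.nd (nat_lit 7) (.nd (nat_lit 8) (.nd (nat_lit 9) 
(.lf (nat_lit 484395) (.g (nat_lit 4449) (.e (nat_lit 8326) (nat_lit 69) (.e (nat_lit 557105) (nat_lit 14) (.e (nat_lit 180252) (nat_lit 10) (.e (nat_lit 573489) (nat_lit 14) (.e (nat_lit 73755) (nat_lit 8) (.e (nat_lit 557090) (nat_lit 12) (.e (nat_lit 164010) (nat_lit 41) (.e (nat_lit 663582) (nat_lit 10) .nil)))))))) (.g (nat_lit 1) (.e (nat_lit 129892) (nat_lit 0) .nil) .nil))) 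
(.lf (nat_lit 484907) (.g (nat_lit 587) (.e (nat_lit 24604) (nat_lit 2) (.e (nat_lit 90178) (nat_lit 15) (.e (nat_lit 188419) (nat_lit 0) .nil))) (.g (nat_lit 0) (.e (nat_lit 132225) (nat_lit 0) .nil) .nil)))) (.nd (nat_lit 9) 
(.lf (nat_lit 484651) (.g (nat_lit 3306) (.e (nat_lit 24598) (nat_lit 1) (.e (nat_lit 57931) (nat_lit 282) (.e (nat_lit 163902) (nat_lit 12) (.e (nat_lit 426555) (nat_lit 32) (.e (nat_lit 376865) (nat_lit 22) (.e (nat_lit 90158) (nat_lit 11) .nil)))))) (.g (nat_lit 1) (.e (nat_lit 131894) (nat_lit 0) .nil) .nil))) 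
(.lf (nat_lit 485163) (.g (nat_lit 2231) (.e (nat_lit 24607) (nat_lit 3) (.e (nat_lit 98365) (nat_lit 26) (.e (nat_lit 426187) (nat_lit 9) (.e (nat_lit 426436) (nat_lit 18) (.e (nat_lit 98320) (nat_lit 17) (.e (nat_lit 3672) (nat_lit 227) (.e (nat_lit 786176) (nat_lit 11) .nil))))))) (.g (nat_lit 1) (.e (nat_lit 132509) (nat_lit 0) .nil) .nil))))) (.nd (nat_lit 8) (.nd (nat_lit 9) 
(.lf (nat_lit 484523) (.g (nat_lit 1519) (.e (nat_lit 16128) (nat_lit 154) (.e (nat_lit 163870) (nat_lit 2) (.e (nat_lit 196666) (nat_lit 13) (.e (nat_lit 65610) (nat_lit 10) .nil)))) (.g (nat_lit 0) (.e (nat_lit 131312) (nat_lit 0) .nil) .nil))) 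
(.lf (nat_lit 485035) (.g (nat_lit 2388) (.e (nat_lit 24605) (nat_lit 2) (.e (nat_lit 90170) (nat_lit 13) (.e (nat_lit 172113) (nat_lit 10) (.e (nat_lit 434247) (nat_lit 28) (.e (nat_lit 573478) (nat_lit 12) (.e (nat_lit 57574) (nat_lit 55) (.e (nat_lit 778460) (nat_lit 11) .nil))))))) (.g (nat_lit 1) (.e (nat_lit 132356) (nat_lit 0) .nil) .nil)))) (.nd (nat_lit 9) 
(.lf (nat_lit 484779) (.g (nat_lit 3144) (.e (nat_lit 24604) (nat_lit 2) (.e (nat_lit 90169) (nat_lit 13) (.e (nat_lit 172113) (nat_lit 10) (.e (nat_lit 434247) (nat_lit 28) (.e (nat_lit 573477) (nat_lit 12) (.e (nat_lit 57574) (nat_lit 55) (.e (nat_lit 778465) (nat_lit 11) .nil))))))) (.g (nat_lit 1) (.e (nat_lit 132091) (nat_lit 0) .nil) .nil))) 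
(.lf (nat_lit 485291) (.g (nat_lit 2241) (.e (nat_lit 24608) (nat_lit 3) (.e (nat_lit 98363) (nat_lit 26) (.e (nat_lit 426318) (nat_lit 12) (.e (nat_lit 475179) (nat_lit 24) (.e (nat_lit 516102) (nat_lit 0) (.e (nat_lit 3711) (nat_lit 227) (.e (nat_lit 778469) (nat_lit 11) .nil))))))) (.g (nat_lit 1) (.e (nat_lit 132648) (nat_lit 0) .nil) .nil)))))) 
(.nd (nat_lit 7) (.nd (nat_lit 8) (.nd (nat_lit 9) 
(.lf (nat_lit 484459) (.g (nat_lit 2802) (.e (nat_lit 8225) (nat_lit 15) (.e (nat_lit 532504) (nat_lit 1) (.e (nat_lit 57851) (nat_lit 252) (.e (nat_lit 57406) (nat_lit 12) (.e (nat_lit 336456) (nat_lit 34) .nil))))) (.g (nat_lit 0) (.e (nat_lit 130086) (nat_lit 0) .nil) .nil))) 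
(.lf (nat_lit 484971) (.g (nat_lit 1733) (.e (nat_lit 24604) (nat_lit 2) (.e (nat_lit 90185) (nat_lit 17) (.e (nat_lit 237616) (nat_lit 12) (.e (nat_lit 475179) (nat_lit 24) (.e (nat_lit 516105) (nat_lit 0) (.e (nat_lit 3617) (nat_lit 227) (.e (nat_lit 778462) (nat_lit 11) .nil))))))) (.g (nat_lit 1) (.e (nat_lit 132290) (nat_lit 0) .nil) .nil)))) (.nd (nat_lit 9) 
(.lf (nat_lit 484715) (.g (nat_lit 2200) (.e (nat_lit 24602) (nat_lit 2) (.e (nat_lit 90185) (nat_lit 17) (.e (nat_lit 237616) (nat_lit 12) (.e (nat_lit 475177) (nat_lit 24) (.e (nat_lit 516127) (nat_lit 2) (.e (nat_lit 213032) (nat_lit 11) .nil)))))) (.g (nat_lit 1) (.e (nat_lit 132011) (nat_lit 0) .nil) .nil))) 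
(.lf (nat_lit 485227) (.g (nat_lit 4428) (.e (nat_lit 24607) (nat_lit 3) (.e (nat_lit 98373) (nat_lit 29) (.e (nat_lit 450587) (nat_lit 10) (.e (nat_lit 573477) (nat_lit 12) (.e (nat_lit 57574) (nat_lit 55) (.e (nat_lit 778464) (nat_lit 11) .nil)))))) (.g (nat_lit 1) (.e (nat_lit 132573) (nat_lit 0) .nil) .nil))))) (.nd (nat_lit 8) (.nd (nat_lit 9) 
(.lf (nat_lit 484587) (.g (nat_lit 2584) (.e (nat_lit 24595) (nat_lit 0) (.e (nat_lit 1800) (nat_lit 119) (.e (nat_lit 516165) (nat_lit 12) (.e (nat_lit 450586) (nat_lit 10) (.e (nat_lit 573475) (nat_lit 12) .nil))))) (.g (nat_lit 0) (.e (nat_lit 131742) (nat_lit 0) .nil) .nil))) 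
(.lf (nat_lit 485099) (.g (nat_lit 1423) (.e (nat_lit 24605) (nat_lit 2) (.e (nat_lit 90185) (nat_lit 17) (.e (nat_lit 237619) (nat_lit 12) (.e (nat_lit 475177) (nat_lit 24) (.e (nat_lit 516125) (nat_lit 2) (.e (nat_lit 213030) (nat_lit 11) .nil)))))) (.g (nat_lit 1) (.e (nat_lit 132423) (nat_lit 0) .nil) .nil)))) (.nd (nat_lit 9) 
(.lf (nat_lit 484843) (.g (nat_lit 5940) (.e (nat_lit 24604) (nat_lit 2) (.e (nat_lit 90170) (nat_lit 13) (.e (nat_lit 172106) (nat_lit 10) (.e (nat_lit 434244) (nat_lit 28) (.e (nat_lit 573478) (nat_lit 12) (.e (nat_lit 57574) (nat_lit 55) (.e (nat_lit 778466) (nat_lit 11) .nil))))))) (.g (nat_lit 1) (.e (nat_lit 132157) (nat_lit 0) .nil) .nil))) 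
(.lf (nat_lit 485355) (.g (nat_lit 1804) (.e (nat_lit 24608) (nat_lit 3) (.e (nat_lit 98365) (nat_lit 26) (.e (nat_lit 426306) (nat_lit 12) (.e (nat_lit 475175) (nat_lit 24) (.e (nat_lit 516127) (nat_lit 2) (.e (nat_lit 213032) (nat_lit 11) .nil)))))) (.g (nat_lit 1) (.e (nat_lit 132712) (nat_lit 0) .nil) .nil)))))))) 
(.nd (nat_lit 5) (.nd (nat_lit 6) (.nd (nat_lit 7) (.nd (nat_lit 8) (.nd (nat_lit 9) 
(.lf (nat_lit 484379) (.g (nat_lit 5478) (.e (nat_lit 8326) (nat_lit 69) (.e (nat_lit 557101) (nat_lit 13) (.e (nat_lit 172115) (nat_lit 10) (.e (nat_lit 434231) (nat_lit 23) (.e (nat_lit 532523) (nat_lit 7) (.e (nat_lit 319504) (nat_lit 10) (.e (nat_lit 7936) (nat_lit 313) .nil))))))) (.g (nat_lit 1) (.e (nat_lit 129876) (nat_lit 0) .nil) .nil))) 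
(.lf (nat_lit 484891) (.g (nat_lit 1417) (.e (nat_lit 24604) (nat_lit 2) (.e (nat_lit 90176) (nat_lit 15) (.e (nat_lit 188418) (nat_lit 0) (.e (nat_lit 1800) (nat_lit 119) (.e (nat_lit 516126) (nat_lit 2) .nil))))) (.g (nat_lit 0) (.e (nat_lit 132206) (nat_lit 0) .nil) .nil)))) (.nd (nat_lit 9) 
(.lf (nat_lit 484635) (.g (nat_lit 2805) (.e (nat_lit 24598) (nat_lit 1) (.e (nat_lit 57926) (nat_lit 282) (.e (nat_lit 163905) (nat_lit 12) (.e (nat_lit 426555) (nat_lit 32) (.e (nat_lit 376862) (nat_lit 22) (.e (nat_lit 90160) (nat_lit 11) .nil)))))) (.g (nat_lit 1) (.e (nat_lit 131842) (nat_lit 0) .nil) .nil))) 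
(.lf (nat_lit 485147) (.g (nat_lit 4338) (.e (nat_lit 24607) (nat_lit 3) (.e (nat_lit 98359) (nat_lit 26) (.e (nat_lit 426286) (nat_lit 10) (.e (nat_lit 434245) (nat_lit 28) (.e (nat_lit 573474) (nat_lit 12) (.e (nat_lit 57574) (nat_lit 55) (.e (nat_lit 778465) (nat_lit 11) .nil))))))) (.g (nat_lit 1) (.e (nat_lit 132493) (nat_lit 0) .nil) .nil))))) (.nd (nat_lit 8) (.nd (nat_lit 9) 
(.lf (nat_lit 484507) (.g (nat_lit 2203) (.e (nat_lit 8234) (nat_lit 20) (.e (nat_lit 573489) (nat_lit 14) (.e (nat_lit 73755) (nat_lit 8) (.e (nat_lit 557104) (nat_lit 14) .nil)))) (.g (nat_lit 0) (.e (nat_lit 130785) (nat_lit 0) .nil) .nil))) 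
(.lf (nat_lit 485019) (.g (nat_lit 1281) (.e (nat_lit 24605) (nat_lit 2) (.e (nat_lit 90170) (nat_lit 13) (.e (nat_lit 172113) (nat_lit 10) (.e (nat_lit 434247) (nat_lit 28) .nil)))) (.g (nat_lit 0) (.e (nat_lit 132340) (nat_lit 0) .nil) .nil)))) (.nd (nat_lit 9) 
(.lf (nat_lit 484763) (.g (nat_lit 2205) (.e (nat_lit 24603) (nat_lit 2) (.e (nat_lit 90185) (nat_lit 17) (.e (nat_lit 237619) (nat_lit 12) (.e (nat_lit 475177) (nat_lit 24) (.e (nat_lit 516127) (nat_lit 2) (.e (nat_lit 213032) (nat_lit 11) .nil)))))) (.g (nat_lit 1) (.e (nat_lit 132066) (nat_lit 0) .nil) .nil))) 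
(.lf (nat_lit 485275) (.g (nat_lit 3678) (.e (nat_lit 24608) (nat_lit 3) (.e (nat_lit 98359) (nat_lit 26) (.e (nat_lit 426286) (nat_lit 10) (.e (nat_lit 434245) (nat_lit 28) (.e (nat_lit 573474) (nat_lit 12) (.e (nat_lit 65280) (nat_lit 55) (.e (nat_lit 778462) (nat_lit 11) .nil))))))) (.g (nat_lit 1) (.e (nat_lit 132632) (nat_lit 0) .nil) .nil)))))) 
(.nd (nat_lit 7) (.nd (nat_lit 8) (.nd (nat_lit 9) 
(.lf (nat_lit 484443) (.g (nat_lit 3527) (.e (nat_lit 8213) (nat_lit 9) (.e (nat_lit 303144) (nat_lit 13) (.e (nat_lit 483413) (nat_lit 27) (.e (nat_lit 401448) (nat_lit 10) (.e (nat_lit 434199) (nat_lit 18) .nil))))) (.g (nat_lit 0) (.e (nat_lit 130059) (nat_lit 0) .nil) .nil))) 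
(.lf (nat_lit 484955) (.g (nat_lit 2713) (.e (nat_lit 24604) (nat_lit 2) (.e (nat_lit 90185) (nat_lit 17) (.e (nat_lit 237605) (nat_lit 9) (.e (nat_lit 426438) (nat_lit 18) (.e (nat_lit 98337) (nat_lit 19) (.e (nat_lit 213032) (nat_lit 11) .nil)))))) (.g (nat_lit 1) (.e (nat_lit 132274) (nat_lit 0) .nil) .nil)))) (.nd (nat_lit 9) 
(.lf (nat_lit 484699) (.g (nat_lit 1235) (.e (nat_lit 24601) (nat_lit 2) (.e (nat_lit 90172) (nat_lit 14) (.e (nat_lit 180278) (nat_lit 32) (.e (nat_lit 1235) (nat_lit 91) .nil)))) (.g (nat_lit 0) (.e (nat_lit 131990) (nat_lit 0) .nil) .nil))) 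
(.lf (nat_lit 485211) (.g (nat_lit 2644) (.e (nat_lit 24607) (nat_lit 3) (.e (nat_lit 98372) (nat_lit 29) (.e (nat_lit 450588) (nat_lit 10) (.e (nat_lit 573454) (nat_lit 9) .nil)))) (.g (nat_lit 0) (.e (nat_lit 132557) (nat_lit 0) .nil) .nil))))) (.nd (nat_lit 8) (.nd (nat_lit 9) 
(.lf (nat_lit 484571) (.g (nat_lit 3772) (.e (nat_lit 24584) (nat_lit 0) (.e (nat_lit 6666) (nat_lit 357) (.e (nat_lit 2663) (nat_lit 167) (.e (nat_lit 196666) (nat_lit 13) (.e (nat_lit 65610) (nat_lit 10) (.e (nat_lit 344129) (nat_lit 26) (.e (nat_lit 557087) (nat_lit 11) .nil))))))) (.g (nat_lit 1) (.e (nat_lit 131714) (nat_lit 0) .nil) .nil))) 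
(.lf (nat_lit 485083) (.g (nat_lit 2271) (.e (nat_lit 24605) (nat_lit 2) (.e (nat_lit 90178) (nat_lit 15) (.e (nat_lit 188418) (nat_lit 0) (.e (nat_lit 1800) (nat_lit 119) (.e (nat_lit 516127) (nat_lit 2) (.e (nat_lit 213032) (nat_lit 11) .nil)))))) (.g (nat_lit 1) (.e (nat_lit 132405) (nat_lit 0) .nil) .nil)))) (.nd (nat_lit 9) 
(.lf (nat_lit 484827) (.g (nat_lit 2490) (.e (nat_lit 24604) (nat_lit 2) (.e (nat_lit 90170) (nat_lit 13) (.e (nat_lit 172106) (nat_lit 10) (.e (nat_lit 434244) (nat_lit 28) (.e (nat_lit 573473) (nat_lit 12) (.e (nat_lit 57574) (nat_lit 55) (.e (nat_lit 778465) (nat_lit 11) .nil))))))) (.g (nat_lit 1) (.e (nat_lit 132141) (nat_lit 0) .nil) .nil))) 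
(.lf (nat_lit 485339) (.g (nat_lit 2155) (.e (nat_lit 24608) (nat_lit 3) (.e (nat_lit 98365) (nat_lit 26) (.e (nat_lit 426188) (nat_lit 9) (.e (nat_lit 426438) (nat_lit 18) (.e (nat_lit 106240) (nat_lit 19) (.e (nat_lit 213032) (nat_lit 11) .nil)))))) (.g (nat_lit 1) (.e (nat_lit 132696) (nat_lit 0) .nil) .nil))))))) (.nd (nat_lit 6) (.nd (nat_lit 7) (.nd (nat_lit 8) (.nd (nat_lit 9) 
(.lf (nat_lit 484411) (.g (nat_lit 3104) (.e (nat_lit 8356) (nat_lit 88) (.e (nat_lit 712755) (nat_lit 30) (.e (nat_lit 450588) (nat_lit 10) (.e (nat_lit 573475) (nat_lit 12) (.e (nat_lit 57508) (nat_lit 39) .nil))))) (.g (nat_lit 0) (.e (nat_lit 129980) (nat_lit 0) .nil) .nil))) 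
(.lf (nat_lit 484923) (.g (nat_lit 587) (.e (nat_lit 24604) (nat_lit 2) (.e (nat_lit 90178) (nat_lit 15) (.e (nat_lit 188453) (nat_lit 24) .nil))) (.g (nat_lit 0) (.e (nat_lit 132241) (nat_lit 0) .nil) .nil)))) (.nd (nat_lit 9) 
(.lf (nat_lit 484667) (.g (nat_lit 2474) (.e (nat_lit 24599) (nat_lit 1) (.e (nat_lit 57930) (nat_lit 282) (.e (nat_lit 163905) (nat_lit 12) (.e (nat_lit 426555) (nat_lit 32) (.e (nat_lit 376862) (nat_lit 22) (.e (nat_lit 90158) (nat_lit 11) .nil)))))) (.g (nat_lit 1) (.e (nat_lit 131937) (nat_lit 0) .nil) .nil))) 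
(.lf (nat_lit 485179) (.g (nat_lit 3180) (.e (nat_lit 24607) (nat_lit 3) (.e (nat_lit 98365) (nat_lit 26) (.e (nat_lit 426188) (nat_lit 9) (.e (nat_lit 426436) (nat_lit 18) (.e (nat_lit 98339) (nat_lit 19) (.e (nat_lit 213031) (nat_lit 11) .nil)))))) (.g (nat_lit 1) (.e (nat_lit 132525) (nat_lit 0) .nil) .nil))))) (.nd (nat_lit 8) (.nd (nat_lit 9) 
(.lf (nat_lit 484539) (.g (nat_lit 2383) (.e (nat_lit 24576) (nat_lit 0) (.e (nat_lit 1788) (nat_lit 119) (.e (nat_lit 516166) (nat_lit 12) (.e (nat_lit 450587) (nat_lit 10) (.e (nat_lit 573478) (nat_lit 12) .nil))))) (.g (nat_lit 0) (.e (nat_lit 131562) (nat_lit 0) .nil) .nil))) 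
(.lf (nat_lit 485051) (.g (nat_lit 2200) (.e (nat_lit 24605) (nat_lit 2) (.e (nat_lit 90170) (nat_lit 13) (.e (nat_lit 172113) (nat_lit 10) (.e (nat_lit 434248) (nat_lit 28) (.e (nat_lit 573475) (nat_lit 12) (.e (nat_lit 65280) (nat_lit 55) (.e (nat_lit 778469) (nat_lit 11) .nil))))))) (.g (nat_lit 1) (.e (nat_lit 132372) (nat_lit 0) .nil) .nil)))) (.nd (nat_lit 9) 
(.lf (nat_lit 484795) (.g (nat_lit 3928) (.e (nat_lit 24604) (nat_lit 2) (.e (nat_lit 90170) (nat_lit 13) (.e (nat_lit 172106) (nat_lit 10) (.e (nat_lit 434231) (nat_lit 23) (.e (nat_lit 532499) (nat_lit 1) (.e (nat_lit 57778) (nat_lit 233) (.e (nat_lit 2551) (nat_lit 159) .nil))))))) (.g (nat_lit 1) (.e (nat_lit 132109) (nat_lit 0) .nil) .nil))) 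
(.lf (nat_lit 485307) (.g (nat_lit 3579) (.e (nat_lit 24608) (nat_lit 3) (.e (nat_lit 98365) (nat_lit 26) (.e (nat_lit 426100) (nat_lit 1) (.e (nat_lit 164332) (nat_lit 230) (.e (nat_lit 163874) (nat_lit 3) (.e (nat_lit 204830) (nat_lit 18) (.e (nat_lit 57904) (nat_lit 278) (.e (nat_lit 2553) (nat_lit 159) .nil)))))))) (.g (nat_lit 1) (.e (nat_lit 132664) (nat_lit 0) .nil) .nil)))))) 
(.nd (nat_lit 7) (.nd (nat_lit 8) (.nd (nat_lit 9) 
(.lf (nat_lit 484475) (.g (nat_lit 1779) (.e (nat_lit 8232) (nat_lit 20) (.e (nat_lit 573479) (nat_lit 13) (.e (nat_lit 65619) (nat_lit 10) (.e (nat_lit 344117) (nat_lit 21) (.e (nat_lit 516106) (nat_lit 0) (.e (nat_lit 7112) (nat_lit 381) (.e (nat_lit 229655) (nat_lit 233) .nil))))))) (.g (nat_lit 1) (.e (nat_lit 130354) (nat_lit 0) .nil) .nil))) 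
(.lf (nat_lit 484987) (.g (nat_lit 813) (.e (nat_lit 24605) (nat_lit 2) (.e (nat_lit 90169) (nat_lit 13) (.e (nat_lit 172119) (nat_lit 12) (.e (nat_lit 475177) (nat_lit 24) .nil)))) (.g (nat_lit 0) (.e (nat_lit 132307) (nat_lit 0) .nil) .nil)))) (.nd (nat_lit 9) 
(.lf (nat_lit 484731) (.g (nat_lit 1971) (.e (nat_lit 24603) (nat_lit 2) (.e (nat_lit 90169) (nat_lit 13) (.e (nat_lit 172113) (nat_lit 10) (.e (nat_lit 434247) (nat_lit 28) (.e (nat_lit 573477) (nat_lit 12) .nil))))) (.g (nat_lit 0) (.e (nat_lit 132028) (nat_lit 0) .nil) .nil))) 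
(.lf (nat_lit 485243) (.g (nat_lit 2087) (.e (nat_lit 24607) (nat_lit 3) (.e (nat_lit 98373) (nat_lit 29) (.e (nat_lit 450588) (nat_lit 10) (.e (nat_lit 573475) (nat_lit 12) .nil)))) (.g (nat_lit 0) (.e (nat_lit 132589) (nat_lit 0) .nil) .nil))))) (.nd (nat_lit 8) (.nd (nat_lit 9) 
(.lf (nat_lit 484603) (.g (nat_lit 3400) (.e (nat_lit 24597) (nat_lit 1) (.e (nat_lit 57926) (nat_lit 282) (.e (nat_lit 163903) (nat_lit 12) (.e (nat_lit 426555) (nat_lit 32) (.e (nat_lit 376865) (nat_lit 22) (.e (nat_lit 90160) (nat_lit 11) .nil)))))) (.g (nat_lit 1) (.e (nat_lit 131768) (nat_lit 0) .nil) .nil))) 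
(.lf (nat_lit 485115) (.g (nat_lit 3413) (.e (nat_lit 24606) (nat_lit 3) (.e (nat_lit 98359) (nat_lit 26) (.e (nat_lit 426286) (nat_lit 10) (.e (nat_lit 434247) (nat_lit 28) (.e (nat_lit 573478) (nat_lit 12) (.e (nat_lit 57574) (nat_lit 55) (.e (nat_lit 778466) (nat_lit 11) .nil))))))) (.g (nat_lit 1) (.e (nat_lit 132439) (nat_lit 0) .nil) .nil)))) (.nd (nat_lit 9) 
(.lf (nat_lit 484859) (.g (nat_lit 2096) (.e (nat_lit 24604) (nat_lit 2) (.e (nat_lit 90170) (nat_lit 13) (.e (nat_lit 172106) (nat_lit 10) (.e (nat_lit 434248) (nat_lit 28) .nil)))) (.g (nat_lit 0) (.e (nat_lit 132173) (nat_lit 0) .nil) .nil))) 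
(.lf (nat_lit 485371) (.g (nat_lit 2923) (.e (nat_lit 24608) (nat_lit 3) (.e (nat_lit 98365) (nat_lit 26) (.e (nat_lit 426306) (nat_lit 12) (.e (nat_lit 475179) (nat_lit 24) (.e (nat_lit 516099) (nat_lit 0) (.e (nat_lit 3651) (nat_lit 227) (.e (nat_lit 778462) (nat_lit 11) .nil))))))) (.g (nat_lit 1) (.e (nat_lit 132728) (nat_lit 0) .nil) .nil)))))))))) 
(.nd (nat_lit 3) (.nd (nat_lit 4) (.nd (nat_lit 5) (.nd (nat_lit 6) (.nd (nat_lit 7) 
(.nd (nat_lit 8) (.nd (nat_lit 9) 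
(.lf (nat_lit 484359) (.g (nat_lit 5099) (.e (nat_lit 8326) (nat_lit 69) (.e (nat_lit 557098) (nat_lit 13) (.e (nat_lit 172097) (nat_lit 9) (.e (nat_lit 426140) (nat_lit 3) (.e (nat_lit 204846) (nat_lit 24) (.e (nat_lit 319504) (nat_lit 10) (.e (nat_lit 7936) (nat_lit 313) .nil))))))) (.g (nat_lit 1) (.e (nat_lit 129856) (nat_lit 0) .nil) .nil))) 
(.lf (nat_lit 484871) (.g (nat_lit 4321) (.e (nat_lit 24604) (nat_lit 2) (.e (nat_lit 90170) (nat_lit 13) (.e (nat_lit 172113) (nat_lit 10) (.e (nat_lit 434247) (nat_lit 28) (.e (nat_lit 573477) (nat_lit 12) (.e (nat_lit 57574) (nat_lit 55) (.e (nat_lit 778464) (nat_lit 11) .nil))))))) (.g (nat_lit 1) (.e (nat_lit 132185) (nat_lit 0) .nil) .nil)))) (.nd (nat_lit 9) 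
(.lf (nat_lit 484615) (.g (nat_lit 3341) (.e (nat_lit 24597) (nat_lit 1) (.e (nat_lit 57926) (nat_lit 282) (.e (nat_lit 163907) (nat_lit 12) (.e (nat_lit 426555) (nat_lit 32) (.e (nat_lit 376865) (nat_lit 22) (.e (nat_lit 90158) (nat_lit 11) .nil)))))) (.g (nat_lit 1) (.e (nat_lit 131782) (nat_lit 0) .nil) .nil))) 
(.lf (nat_lit 485127) (.g (nat_lit 3843) (.e (nat_lit 24606) (nat_lit 3) (.e (nat_lit 98373) (nat_lit 29) (.e (nat_lit 450587) (nat_lit 10) (.e (nat_lit 573475) (nat_lit 12) (.e (nat_lit 57574) (nat_lit 55) (.e (nat_lit 778464) (nat_lit 11) .nil)))))) (.g (nat_lit 1) (.e (nat_lit 132464) (nat_lit 0) .nil) .nil))))) (.nd (nat_lit 8) (.nd (nat_lit 9) 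
(.lf (nat_lit 484487) (.g (nat_lit 3006) (.e (nat_lit 8234) (nat_lit 20) (.e (nat_lit 573482) (nat_lit 13) (.e (nat_lit 65619) (nat_lit 10) (.e (nat_lit 344117) (nat_lit 21) (.e (nat_lit 516106) (nat_lit 0) (.e (nat_lit 6986) (nat_lit 377) (.e (nat_lit 2402) (nat_lit 157) (.e (nat_lit 5375) (nat_lit 299) .nil)))))))) (.g (nat_lit 1) (.e (nat_lit 130472) (nat_lit 0) .nil) .nil))) 
(.lf (nat_lit 484999) (.g (nat_lit 3671) (.e (nat_lit 24605) (nat_lit 2) (.e (nat_lit 90170) (nat_lit 13) (.e (nat_lit 172106) (nat_lit 10) (.e (nat_lit 434244) (nat_lit 28) (.e (nat_lit 573456) (nat_lit 9) .nil))))) (.g (nat_lit 0) (.e (nat_lit 132319) (nat_lit 0) .nil) .nil)))) (.nd (nat_lit 9) 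
(.lf (nat_lit 484743) (.g (nat_lit 1156) (.e (nat_lit 24603) (nat_lit 2) (.e (nat_lit 90176) (nat_lit 15) (.e (nat_lit 188450) (nat_lit 23) (.e (nat_lit 204817) (nat_lit 17) .nil)))) (.g (nat_lit 0) (.e (nat_lit 132046) (nat_lit 0) .nil) .nil))) 
(.lf (nat_lit 485255) (.g (nat_lit 3498) (.e (nat_lit 24607) (nat_lit 3) (.e (nat_lit 98387) (nat_lit 33) (.e (nat_lit 491566) (nat_lit 12) (.e (nat_lit 385066) (nat_lit 26) (.e (nat_lit 532508) (nat_lit 2) (.e (nat_lit 114432) (nat_lit 2) .nil)))))) (.g (nat_lit 1) (.e (nat_lit 132601) (nat_lit 0) .nil) .nil)))))) (.nd (nat_lit 7) (.nd (nat_lit 8) (.nd (nat_lit 9) 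
(.lf (nat_lit 484423) (.g (nat_lit 3360) (.e (nat_lit 8211) (nat_lit 9) (.e (nat_lit 303145) (nat_lit 13) (.e (nat_lit 483413) (nat_lit 27) (.e (nat_lit 401446) (nat_lit 10) .nil)))) (.g (nat_lit 0) (.e (nat_lit 130011) (nat_lit 0) .nil) .nil))) 
(.lf (nat_lit 484935) (.g (nat_lit 1292) (.e (nat_lit 24604) (nat_lit 2) (.e (nat_lit 90185) (nat_lit 17) (.e (nat_lit 237601) (nat_lit 9) (.e (nat_lit 426436) (nat_lit 18) (.e (nat_lit 98324) (nat_lit 17) .nil))))) (.g (nat_lit 0) (.e (nat_lit 132254) (nat_lit 0) .nil) .nil)))) (.nd (nat_lit 9) 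
(.lf (nat_lit 484679) (.g (nat_lit 2402) (.e (nat_lit 24601) (nat_lit 2) (.e (nat_lit 90170) (nat_lit 13) (.e (nat_lit 172106) (nat_lit 10) (.e (nat_lit 434244) (nat_lit 28) (.e (nat_lit 573453) (nat_lit 9) .nil))))) (.g (nat_lit 0) (.e (nat_lit 131970) (nat_lit 0) .nil) .nil))) 
(.lf (nat_lit 485191) (.g (nat_lit 2035) (.e (nat_lit 24607) (nat_lit 3) (.e (nat_lit 98365) (nat_lit 26) (.e (nat_lit 426306) (nat_lit 12) (.e (nat_lit 475179) (nat_lit 24) (.e (nat_lit 516124) (nat_lit 2) (.e (nat_lit 220928) (nat_lit 11) .nil)))))) (.g (nat_lit 1) (.e (nat_lit 132537) (nat_lit 0) .nil) .nil))))) (.nd (nat_lit 8) (.nd (nat_lit 9) 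
(.lf (nat_lit 484551) (.g (nat_lit 3469) (.e (nat_lit 24579) (nat_lit 0) (.e (nat_lit 6619) (nat_lit 357) (.e (nat_lit 2685) (nat_lit 168) (.e (nat_lit 204869) (nat_lit 29) (.e (nat_lit 360475) (nat_lit 8) (.e (nat_lit 557087) (nat_lit 11) .nil)))))) (.g (nat_lit 1) (.e (nat_lit 131592) (nat_lit 0) .nil) .nil))) 
(.lf (nat_lit 485063) (.g (nat_lit 2536) (.e (nat_lit 24605) (nat_lit 2) (.e (nat_lit 90170) (nat_lit 13) (.e (nat_lit 172118) (nat_lit 12) (.e (nat_lit 475179) (nat_lit 24) (.e (nat_lit 516127) (nat_lit 2) (.e (nat_lit 213030) (nat_lit 11) .nil)))))) (.g (nat_lit 1) (.e (nat_lit 132384) (nat_lit 0) .nil) .nil)))) (.nd (nat_lit 9) 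
(.lf (nat_lit 484807) (.g (nat_lit 3594) (.e (nat_lit 24604) (nat_lit 2) (.e (nat_lit 90170) (nat_lit 13) (.e (nat_lit 172106) (nat_lit 10) (.e (nat_lit 434231) (nat_lit 23) (.e (nat_lit 532500) (nat_lit 1) (.e (nat_lit 65280) (nat_lit 233) (.e (nat_lit 2559) (nat_lit 159) .nil))))))) (.g (nat_lit 1) (.e (nat_lit 132121) (nat_lit 0) .nil) .nil))) 
(.lf (nat_lit 485319) (.g (nat_lit 2196) (.e (nat_lit 24608) (nat_lit 3) (.e (nat_lit 98365) (nat_lit 26) (.e (nat_lit 426187) (nat_lit 9) (.e (nat_lit 426436) (nat_lit 18) (.e (nat_lit 98338) (nat_lit 19) (.e (nat_lit 220928) (nat_lit 11) .nil)))))) (.g (nat_lit 1) (.e (nat_lit 132676) (nat_lit 0) .nil) .nil))))))) (.nd (nat_lit 6) (.nd (nat_lit 7) (.nd (nat_lit 8) (.nd (nat_lit 9) 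
(.lf (nat_lit 484391) (.g (nat_lit 4121) (.e (nat_lit 8326) (nat_lit 69) (.e (nat_lit 557105) (nat_lit 14) (.e (nat_lit 180252) (nat_lit 10) (.e (nat_lit 573489) (nat_lit 14) (.e (nat_lit 73755) (nat_lit 8) (.e (nat_lit 557090) (nat_lit 12) (.e (nat_lit 164006) (nat_lit 41) (.e (nat_lit 671488) (nat_lit 10) .nil)))))))) (.g (nat_lit 1) (.e (nat_lit 129888) (nat_lit 0) .nil) .nil))) 
(.lf (nat_lit 484903) (.g (nat_lit 2603) (.e (nat_lit 24604) (nat_lit 2) (.e (nat_lit 90176) (nat_lit 15) (.e (nat_lit 188450) (nat_lit 23) (.e (nat_lit 204830) (nat_lit 18) (.e (nat_lit 65280) (nat_lit 233) (.e (nat_lit 2559) (nat_lit 159) .nil)))))) (.g (nat_lit 1) (.e (nat_lit 132219) (nat_lit 0) .nil) .nil)))) (.nd (nat_lit 9) 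
(.lf (nat_lit 484647) (.g (nat_lit 2014) (.e (nat_lit 24598) (nat_lit 1) (.e (nat_lit 57928) (nat_lit 282) (.e (nat_lit 163903) (nat_lit 12) (.e (nat_lit 426555) (nat_lit 32) (.e (nat_lit 376862) (nat_lit 22) .nil))))) (.g (nat_lit 0) (.e (nat_lit 131881) (nat_lit 0) .nil) .nil))) 
(.lf (nat_lit 485159) (.g (nat_lit 2044) (.e (nat_lit 24607) (nat_lit 3) (.e (nat_lit 98365) (nat_lit 26) (.e (nat_lit 426187) (nat_lit 9) (.e (nat_lit 426428) (nat_lit 17) (.e (nat_lit 90165) (nat_lit 12) (.e (nat_lit 164040) (nat_lit 55) (.e (nat_lit 786176) (nat_lit 11) .nil))))))) (.g (nat_lit 1) (.e (nat_lit 132505) (nat_lit 0) .nil) .nil))))) (.nd (nat_lit 8) (.nd (nat_lit 9) 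
(.lf (nat_lit 484519) (.g (nat_lit 2609) (.e (nat_lit 8460) (nat_lit 144) (.e (nat_lit 2610) (nat_lit 163) (.e (nat_lit 163978) (nat_lit 30) (.e (nat_lit 573479) (nat_lit 13) (.e (nat_lit 65619) (nat_lit 10) .nil))))) (.g (nat_lit 0) (.e (nat_lit 131153) (nat_lit 0) .nil) .nil))) 
(.lf (nat_lit 485031) (.g (nat_lit 3846) (.e (nat_lit 24605) (nat_lit 2) (.e (nat_lit 90170) (nat_lit 13) (.e (nat_lit 172113) (nat_lit 10) (.e (nat_lit 434247) (nat_lit 28) (.e (nat_lit 573477) (nat_lit 12) (.e (nat_lit 57575) (nat_lit 55) (.e (nat_lit 786176) (nat_lit 11) .nil))))))) (.g (nat_lit 1) (.e (nat_lit 132352) (nat_lit 0) .nil) .nil)))) (.nd (nat_lit 9) 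
(.lf (nat_lit 484775) (.g (nat_lit 2589) (.e (nat_lit 24604) (nat_lit 2) (.e (nat_lit 90167) (nat_lit 13) (.e (nat_lit 172126) (nat_lit 14) (.e (nat_lit 491540) (nat_lit 3) (.e (nat_lit 106240) (nat_lit 5) (.e (nat_lit 147496) (nat_lit 11) .nil)))))) (.g (nat_lit 1) (.e (nat_lit 132087) (nat_lit 0) .nil) .nil))) 
(.lf (nat_lit 485287) (.g (nat_lit 2176) (.e (nat_lit 24608) (nat_lit 3) (.e (nat_lit 98363) (nat_lit 26) (.e (nat_lit 426230) (nat_lit 9) (.e (nat_lit 426435) (nat_lit 18) (.e (nat_lit 98339) (nat_lit 19) (.e (nat_lit 213032) (nat_lit 11) .nil)))))) (.g (nat_lit 1) (.e (nat_lit 132644) (nat_lit 0) .nil) .nil)))))) (.nd (nat_lit 7) (.nd (nat_lit 8) (.nd (nat_lit 9) 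
(.lf (nat_lit 484455) (.g (nat_lit 5188) (.e (nat_lit 8213) (nat_lit 9) (.e (nat_lit 303145) (nat_lit 13) (.e (nat_lit 483413) (nat_lit 27) (.e (nat_lit 401448) (nat_lit 10) (.e (nat_lit 434207) (nat_lit 18) .nil))))) (.g (nat_lit 0) (.e (nat_lit 130073) (nat_lit 0) .nil) .nil))) 
(.lf (nat_lit 484967) (.g (nat_lit 1963) (.e (nat_lit 24604) (nat_lit 2) (.e (nat_lit 90185) (nat_lit 17) (.e (nat_lit 237616) (nat_lit 12) (.e (nat_lit 475177) (nat_lit 24) (.e (nat_lit 516127) (nat_lit 2) (.e (nat_lit 213031) (nat_lit 11) .nil)))))) (.g (nat_lit 1) (.e (nat_lit 132286) (nat_lit 0) .nil) .nil)))) (.nd (nat_lit 9) 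
(.lf (nat_lit 484711) (.g (nat_lit 3870) (.e (nat_lit 24602) (nat_lit 2) (.e (nat_lit 90170) (nat_lit 13) (.e (nat_lit 172113) (nat_lit 10) (.e (nat_lit 434248) (nat_lit 28) (.e (nat_lit 573475) (nat_lit 12) (.e (nat_lit 57574) (nat_lit 55) (.e (nat_lit 778464) (nat_lit 11) .nil))))))) (.g (nat_lit 1) (.e (nat_lit 132007) (nat_lit 0) .nil) .nil))) 
(.lf (nat_lit 485223) (.g (nat_lit 4445) (.e (nat_lit 24607) (nat_lit 3) (.e (nat_lit 98373) (nat_lit 29) (.e (nat_lit 450587) (nat_lit 10) (.e (nat_lit 573475) (nat_lit 12) (.e (nat_lit 57574) (nat_lit 55) (.e (nat_lit 778464) (nat_lit 11) .nil)))))) (.g (nat_lit 1) (.e (nat_lit 132569) (nat_lit 0) .nil) .nil))))) (.nd (nat_lit 8) (.nd (nat_lit 9) 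
(.lf (nat_lit 484583) (.g (nat_lit 2444) (.e (nat_lit 24593) (nat_lit 0) (.e (nat_lit 1796) (nat_lit 119) (.e (nat_lit 516166) (nat_lit 12) (.e (nat_lit 450587) (nat_lit 10) (.e (nat_lit 573478) (nat_lit 12) .nil))))) (.g (nat_lit 0) (.e (nat_lit 131738) (nat_lit 0) .nil) .nil))) 
(.lf (nat_lit 485095) (.g (nat_lit 2092) (.e (nat_lit 24605) (nat_lit 2) (.e (nat_lit 90185) (nat_lit 17) (.e (nat_lit 237616) (nat_lit 12) (.e (nat_lit 475179) (nat_lit 24) (.e (nat_lit 516127) (nat_lit 2) (.e (nat_lit 213030) (nat_lit 11) .nil)))))) (.g (nat_lit 1) (.e (nat_lit 132419) (nat_lit 0) .nil) .nil)))) (.nd (nat_lit 9) 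
(.lf (nat_lit 484839) (.g (nat_lit 3101) (.e (nat_lit 24604) (nat_lit 2) (.e (nat_lit 90170) (nat_lit 13) (.e (nat_lit 172106) (nat_lit 10) (.e (nat_lit 434244) (nat_lit 28) (.e (nat_lit 573476) (nat_lit 12) .nil))))) (.g (nat_lit 0) (.e (nat_lit 132153) (nat_lit 0) .nil) .nil))) 
(.lf (nat_lit 485351) (.g (nat_lit 3861) (.e (nat_lit 24608) (nat_lit 3) (.e (nat_lit 98365) (nat_lit 26) (.e (nat_lit 426298) (nat_lit 11) (.e (nat_lit 458795) (nat_lit 28) (.e (nat_lit 573475) (nat_lit 12) (.e (nat_lit 57574) (nat_lit 55) (.e (nat_lit 778466) (nat_lit 11) .nil))))))) (.g (nat_lit 1) (.e (nat_lit 132708) (nat_lit 0) .nil) .nil)))))))) 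
(.nd (nat_lit 5) (.nd (nat_lit 6) (.nd (nat_lit 7) (.nd (nat_lit 8) (.nd (nat_lit 9) 
(.lf (nat_lit 484375) (.g (nat_lit 4003) (.e (nat_lit 8326) (nat_lit 69) (.e (nat_lit 557101) (nat_lit 13) (.e (nat_lit 172097) (nat_lit 9) (.e (nat_lit 426140) (nat_lit 3) (.e (nat_lit 204845) (nat_lit 24) (.e (nat_lit 319504) (nat_lit 10) (.e (nat_lit 7936) (nat_lit 313) .nil))))))) (.g (nat_lit 1) (.e (nat_lit 129872) (nat_lit 0) .nil) .nil))) 
(.lf (nat_lit 484887) (.g (nat_lit 2924) (.e (nat_lit 24604) (nat_lit 2) (.e (nat_lit 90170) (nat_lit 13) (.e (nat_lit 172120) (nat_lit 12) (.e (nat_lit 475179) (nat_lit 24) (.e (nat_lit 516122) (nat_lit 2) (.e (nat_lit 213032) (nat_lit 11) .nil)))))) (.g (nat_lit 1) (.e (nat_lit 132201) (nat_lit 0) .nil) .nil)))) (.nd (nat_lit 9) 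
(.lf (nat_lit 484631) (.g (nat_lit 3135) (.e (nat_lit 24598) (nat_lit 1) (.e (nat_lit 57926) (nat_lit 282) (.e (nat_lit 163903) (nat_lit 12) (.e (nat_lit 426555) (nat_lit 32) (.e (nat_lit 376862) (nat_lit 22) (.e (nat_lit 90160) (nat_lit 11) .nil)))))) (.g (nat_lit 1) (.e (nat_lit 131836) (nat_lit 0) .nil) .nil))) 
(.lf (nat_lit 485143) (.g (nat_lit 4204) (.e (nat_lit 24606) (nat_lit 3) (.e (nat_lit 98373) (nat_lit 29) (.e (nat_lit 450588) (nat_lit 10) (.e (nat_lit 573477) (nat_lit 12) .nil)))) (.g (nat_lit 0) (.e (nat_lit 132480) (nat_lit 0) .nil) .nil))))) (.nd (nat_lit 8) (.nd (nat_lit 9) 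
(.lf (nat_lit 484503) (.g (nat_lit 3392) (.e (nat_lit 8234) (nat_lit 20) (.e (nat_lit 573489) (nat_lit 14) (.e (nat_lit 73755) (nat_lit 8) (.e (nat_lit 557103) (nat_lit 14) (.e (nat_lit 188160) (nat_lit 3) (.e (nat_lit 516106) (nat_lit 0) (.e (nat_lit 3537) (nat_lit 218) (.e (nat_lit 704725) (nat_lit 10) .nil)))))))) (.g (nat_lit 1) (.e (nat_lit 130777) (nat_lit 0) .nil) .nil))) 
(.lf (nat_lit 485015) (.g (nat_lit 4179) (.e (nat_lit 24605) (nat_lit 2) (.e (nat_lit 90170) (nat_lit 13) (.e (nat_lit 172113) (nat_lit 10) (.e (nat_lit 434245) (nat_lit 28) (.e (nat_lit 573474) (nat_lit 12) (.e (nat_lit 57574) (nat_lit 55) (.e (nat_lit 786176) (nat_lit 11) .nil))))))) (.g (nat_lit 1) (.e (nat_lit 132336) (nat_lit 0) .nil) .nil)))) (.nd (nat_lit 9) 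
(.lf (nat_lit 484759) (.g (nat_lit 2076) (.e (nat_lit 24603) (nat_lit 2) (.e (nat_lit 90185) (nat_lit 17) (.e (nat_lit 237616) (nat_lit 12) (.e (nat_lit 475177) (nat_lit 24) (.e (nat_lit 516127) (nat_lit 2) (.e (nat_lit 213032) (nat_lit 11) .nil)))))) (.g (nat_lit 1) (.e (nat_lit 132062) (nat_lit 0) .nil) .nil))) 
(.lf (nat_lit 485271) (.g (nat_lit 1370) (.e (nat_lit 24608) (nat_lit 3) (.e (nat_lit 98356) (nat_lit 26) (.e (nat_lit 426320) (nat_lit 12) (.e (nat_lit 475179) (nat_lit 24) .nil)))) (.g (nat_lit 0) (.e (nat_lit 132625) (nat_lit 0) .nil) .nil)))))) (.nd (nat_lit 7) (.nd (nat_lit 8) (.nd (nat_lit 9) 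
(.lf (nat_lit 484439) (.g (nat_lit 1859) (.e (nat_lit 8213) (nat_lit 9) (.e (nat_lit 303143) (nat_lit 12) (.e (nat_lit 475199) (nat_lit 40) (.e (nat_lit 704598) (nat_lit 6) .nil)))) (.g (nat_lit 0) (.e (nat_lit 130055) (nat_lit 0) .nil) .nil))) 
(.lf (nat_lit 484951) (.g (nat_lit 1829) (.e (nat_lit 24604) (nat_lit 2) (.e (nat_lit 90185) (nat_lit 17) (.e (nat_lit 237605) (nat_lit 9) (.e (nat_lit 426436) (nat_lit 18) (.e (nat_lit 98321) (nat_lit 17) (.e (nat_lit 3653) (nat_lit 227) (.e (nat_lit 778462) (nat_lit 11) .nil))))))) (.g (nat_lit 1) (.e (nat_lit 132270) (nat_lit 0) .nil) .nil)))) (.nd (nat_lit 9) 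
(.lf (nat_lit 484695) (.g (nat_lit 2680) (.e (nat_lit 24601) (nat_lit 2) (.e (nat_lit 90170) (nat_lit 13) (.e (nat_lit 172113) (nat_lit 10) (.e (nat_lit 434248) (nat_lit 28) (.e (nat_lit 573454) (nat_lit 9) .nil))))) (.g (nat_lit 0) (.e (nat_lit 131986) (nat_lit 0) .nil) .nil))) 
(.lf (nat_lit 485207) (.g (nat_lit 1954) (.e (nat_lit 24607) (nat_lit 3) (.e (nat_lit 98372) (nat_lit 29) (.e (nat_lit 450587) (nat_lit 10) (.e (nat_lit 573478) (nat_lit 12) (.e (nat_lit 57574) (nat_lit 55) (.e (nat_lit 778464) (nat_lit 11) .nil)))))) (.g (nat_lit 1) (.e (nat_lit 132553) (nat_lit 0) .nil) .nil))))) (.nd (nat_lit 8) (.nd (nat_lit 9) 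
(.lf (nat_lit 484567) (.g (nat_lit 2442) (.e (nat_lit 24580) (nat_lit 0) (.e (nat_lit 6724) (nat_lit 362) (.e (nat_lit 180271) (nat_lit 26) (.e (nat_lit 704738) (nat_lit 11) (.e (nat_lit 16392) (nat_lit 0) (.e (nat_lit 7936) (nat_lit 390) .nil)))))) (.g (nat_lit 1) (.e (nat_lit 131683) (nat_lit 0) .nil) .nil))) 
(.lf (nat_lit 485079) (.g (nat_lit 1729) (.e (nat_lit 24605) (nat_lit 2) (.e (nat_lit 90176) (nat_lit 15) (.e (nat_lit 188450) (nat_lit 23) (.e (nat_lit 204830) (nat_lit 18) (.e (nat_lit 65280) (nat_lit 233) .nil))))) (.g (nat_lit 0) (.e (nat_lit 132401) (nat_lit 0) .nil) .nil)))) (.nd (nat_lit 9) 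
(.lf (nat_lit 484823) (.g (nat_lit 2293) (.e (nat_lit 24604) (nat_lit 2) (.e (nat_lit 90170) (nat_lit 13) (.e (nat_lit 172106) (nat_lit 10) (.e (nat_lit 434244) (nat_lit 28) (.e (nat_lit 573453) (nat_lit 9) .nil))))) (.g (nat_lit 0) (.e (nat_lit 132137) (nat_lit 0) .nil) .nil))) 
(.lf (nat_lit 485335) (.g (nat_lit 2827) (.e (nat_lit 24608) (nat_lit 3) (.e (nat_lit 98365) (nat_lit 26) (.e (nat_lit 426188) (nat_lit 9) (.e (nat_lit 426436) (nat_lit 18) (.e (nat_lit 98339) (nat_lit 19) (.e (nat_lit 213031) (nat_lit 11) .nil)))))) (.g (nat_lit 1) (.e (nat_lit 132692) (nat_lit 0) .nil) .nil))))))) (.nd (nat_lit 6) (.nd (nat_lit 7) (.nd (nat_lit 8) (.nd (nat_lit 9) 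
(.lf (nat_lit 484407) (.g (nat_lit 3213) (.e (nat_lit 8356) (nat_lit 88) (.e (nat_lit 712755) (nat_lit 30) (.e (nat_lit 450588) (nat_lit 10) (.e (nat_lit 573474) (nat_lit 12) (.e (nat_lit 57516) (nat_lit 42) .nil))))) (.g (nat_lit 0) (.e (nat_lit 129976) (nat_lit 0) .nil) .nil))) 
(.lf (nat_lit 484919) (.g (nat_lit 2919) (.e (nat_lit 24604) (nat_lit 2) (.e (nat_lit 90178) (nat_lit 15) (.e (nat_lit 188440) (nat_lit 20) (.e (nat_lit 3307) (nat_lit 202) (.e (nat_lit 573478) (nat_lit 12) (.e (nat_lit 65280) (nat_lit 55) (.e (nat_lit 778462) (nat_lit 11) .nil))))))) (.g (nat_lit 1) (.e (nat_lit 132237) (nat_lit 0) .nil) .nil)))) (.nd (nat_lit 9) 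
(.lf (nat_lit 484663) (.g (nat_lit 3044) (.e (nat_lit 24599) (nat_lit 1) (.e (nat_lit 57929) (nat_lit 282) (.e (nat_lit 163902) (nat_lit 12) (.e (nat_lit 426555) (nat_lit 32) (.e (nat_lit 376865) (nat_lit 22) (.e (nat_lit 90158) (nat_lit 11) .nil)))))) (.g (nat_lit 1) (.e (nat_lit 131924) (nat_lit 0) .nil) .nil))) 
(.lf (nat_lit 485175) (.g (nat_lit 2365) (.e (nat_lit 24607) (nat_lit 3) (.e (nat_lit 98365) (nat_lit 26) (.e (nat_lit 426188) (nat_lit 9) (.e (nat_lit 426436) (nat_lit 18) (.e (nat_lit 98320) (nat_lit 17) (.e (nat_lit 3672) (nat_lit 227) (.e (nat_lit 786176) (nat_lit 11) .nil))))))) (.g (nat_lit 1) (.e (nat_lit 132521) (nat_lit 0) .nil) .nil))))) (.nd (nat_lit 8) (.nd (nat_lit 9) 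
(.lf (nat_lit 484535) (.g (nat_lit 2603) (.e (nat_lit 8568) (nat_lit 250) (.e (nat_lit 1667) (nat_lit 116) (.e (nat_lit 401425) (nat_lit 2) (.e (nat_lit 196666) (nat_lit 13) (.e (nat_lit 65610) (nat_lit 10) .nil))))) (.g (nat_lit 0) (.e (nat_lit 131431) (nat_lit 0) .nil) .nil))) 
(.lf (nat_lit 485047) (.g (nat_lit 4145) (.e (nat_lit 24605) (nat_lit 2) (.e (nat_lit 90170) (nat_lit 13) (.e (nat_lit 172113) (nat_lit 10) (.e (nat_lit 434248) (nat_lit 28) (.e (nat_lit 573475) (nat_lit 12) (.e (nat_lit 57574) (nat_lit 55) (.e (nat_lit 778464) (nat_lit 11) .nil))))))) (.g (nat_lit 1) (.e (nat_lit 132368) (nat_lit 0) .nil) .nil)))) (.nd (nat_lit 9) 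
(.lf (nat_lit 484791) (.g (nat_lit 3006) (.e (nat_lit 24604) (nat_lit 2) (.e (nat_lit 90170) (nat_lit 13) (.e (nat_lit 172106) (nat_lit 10) (.e (nat_lit 434231) (nat_lit 23) (.e (nat_lit 532483) (nat_lit 0) .nil))))) (.g (nat_lit 0) (.e (nat_lit 132105) (nat_lit 0) .nil) .nil))) 
(.lf (nat_lit 485303) (.g (nat_lit 2979) (.e (nat_lit 24608) (nat_lit 3) (.e (nat_lit 98365) (nat_lit 26) (.e (nat_lit 426099) (nat_lit 1) (.e (nat_lit 164332) (nat_lit 230) (.e (nat_lit 163874) (nat_lit 3) (.e (nat_lit 204830) (nat_lit 18) (.e (nat_lit 57908) (nat_lit 278) (.e (nat_lit 2559) (nat_lit 159) .nil)))))))) (.g (nat_lit 1) (.e (nat_lit 132660) (nat_lit 0) .nil) .nil)))))) 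
(.nd (nat_lit 7) (.nd (nat_lit 8) (.nd (nat_lit 9) 
(.lf (nat_lit 484471) (.g (nat_lit 761) (.e (nat_lit 8228) (nat_lit 15) (.e (nat_lit 532503) (nat_lit 1) (.e (nat_lit 57931) (nat_lit 282) .nil))) (.g (nat_lit 0) (.e (nat_lit 130205) (nat_lit 0) .nil) .nil))) 
(.lf (nat_lit 484983) (.g (nat_lit 2981) (.e (nat_lit 24604) (nat_lit 2) (.e (nat_lit 90185) (nat_lit 17) (.e (nat_lit 237619) (nat_lit 12) (.e (nat_lit 475179) (nat_lit 24) (.e (nat_lit 516122) (nat_lit 2) (.e (nat_lit 213032) (nat_lit 11) .nil)))))) (.g (nat_lit 1) (.e (nat_lit 132302) (nat_lit 0) .nil) .nil)))) (.nd (nat_lit 9) 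
(.lf (nat_lit 484727) (.g (nat_lit 1784) (.e (nat_lit 24603) (nat_lit 2) (.e (nat_lit 90167) (nat_lit 13) (.e (nat_lit 172113) (nat_lit 10) (.e (nat_lit 434247) (nat_lit 28) (.e (nat_lit 573478) (nat_lit 12) (.e (nat_lit 57574) (nat_lit 55) (.e (nat_lit 778466) (nat_lit 11) .nil))))))) (.g (nat_lit 1) (.e (nat_lit 132024) (nat_lit 0) .nil) .nil))) 
(.lf (nat_lit 485239) (.g (nat_lit 3316) (.e (nat_lit 24607) (nat_lit 3) (.e (nat_lit 98373) (nat_lit 29) (.e (nat_lit 450588) (nat_lit 10) (.e (nat_lit 573454) (nat_lit 9) .nil)))) (.g (nat_lit 0) (.e (nat_lit 132585) (nat_lit 0) .nil) .nil))))) (.nd (nat_lit 8) (.nd (nat_lit 9) 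
(.lf (nat_lit 484599) (.g (nat_lit 3441) (.e (nat_lit 24597) (nat_lit 1) (.e (nat_lit 57926) (nat_lit 282) (.e (nat_lit 163902) (nat_lit 12) (.e (nat_lit 426555) (nat_lit 32) (.e (nat_lit 376865) (nat_lit 22) (.e (nat_lit 90160) (nat_lit 11) .nil)))))) (.g (nat_lit 1) (.e (nat_lit 131764) (nat_lit 0) .nil) .nil))) 
(.lf (nat_lit 485111) (.g (nat_lit 3636) (.e (nat_lit 24606) (nat_lit 3) (.e (nat_lit 98359) (nat_lit 26) (.e (nat_lit 426286) (nat_lit 10) (.e (nat_lit 434247) (nat_lit 28) (.e (nat_lit 573477) (nat_lit 12) (.e (nat_lit 57574) (nat_lit 55) (.e (nat_lit 778465) (nat_lit 11) .nil))))))) (.g (nat_lit 1) (.e (nat_lit 132435) (nat_lit 0) .nil) .nil)))) (.nd (nat_lit 9) 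
(.lf (nat_lit 484855) (.g (nat_lit 3969) (.e (nat_lit 24604) (nat_lit 2) (.e (nat_lit 90170) (nat_lit 13) (.e (nat_lit 172106) (nat_lit 10) (.e (nat_lit 434247) (nat_lit 28) (.e (nat_lit 573477) (nat_lit 12) (.e (nat_lit 57575) (nat_lit 55) (.e (nat_lit 778465) (nat_lit 11) .nil))))))) (.g (nat_lit 1) (.e (nat_lit 132169) (nat_lit 0) .nil) .nil))) 
(.lf (nat_lit 485367) (.g (nat_lit 2595) (.e (nat_lit 24608) (nat_lit 3) (.e (nat_lit 98365) (nat_lit 26) (.e (nat_lit 426306) (nat_lit 12) (.e (nat_lit 475178) (nat_lit 24) (.e (nat_lit 516127) (nat_lit 2) (.e (nat_lit 213032) (nat_lit 11) .nil)))))) (.g (nat_lit 1) (.e (nat_lit 132724) (nat_lit 0) .nil) .nil))))))))) 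
(.nd (nat_lit 4) (.nd (nat_lit 5) (.nd (nat_lit 6) (.nd (nat_lit 7) (.nd (nat_lit 8) 
(.nd (nat_lit 9) 
(.lf (nat_lit 484367) (.g (nat_lit 2946) (.e (nat_lit 8326) (nat_lit 69) (.e (nat_lit 557098) (nat_lit 13) (.e (nat_lit 172115) (nat_lit 10) (.e (nat_lit 434244) (nat_lit 28) (.e (nat_lit 573471) (nat_lit 11) (.e (nat_lit 16396) (nat_lit 0) (.e (nat_lit 7936) (nat_lit 389) .nil))))))) (.g (nat_lit 1) (.e (nat_lit 129864) (nat_lit 0) .nil) .nil))) 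
(.lf (nat_lit 484879) (.g (nat_lit 4671) (.e (nat_lit 24604) (nat_lit 2) (.e (nat_lit 90170) (nat_lit 13) (.e (nat_lit 172113) (nat_lit 10) (.e (nat_lit 434248) (nat_lit 28) (.e (nat_lit 573475) (nat_lit 12) (.e (nat_lit 57574) (nat_lit 55) (.e (nat_lit 778465) (nat_lit 11) .nil))))))) (.g (nat_lit 1) (.e (nat_lit 132193) (nat_lit 0) .nil) .nil)))) (.nd (nat_lit 9) 
(.lf (nat_lit 484623) (.g (nat_lit 3291) (.e (nat_lit 24597) (nat_lit 1) (.e (nat_lit 57931) (nat_lit 282) (.e (nat_lit 163902) (nat_lit 12) (.e (nat_lit 426555) (nat_lit 32) (.e (nat_lit 376865) (nat_lit 22) (.e (nat_lit 90160) (nat_lit 11) .nil)))))) (.g (nat_lit 1) (.e (nat_lit 131813) (nat_lit 0) .nil) .nil))) 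
(.lf (nat_lit 485135) (.g (nat_lit 2902) (.e (nat_lit 24606) (nat_lit 3) (.e (nat_lit 98373) (nat_lit 29) (.e (nat_lit 450588) (nat_lit 10) (.e (nat_lit 573449) (nat_lit 9) .nil)))) (.g (nat_lit 0) (.e (nat_lit 132472) (nat_lit 0) .nil) .nil))))) (.nd (nat_lit 8) (.nd (nat_lit 9) 
(.lf (nat_lit 484495) (.g (nat_lit 3380) (.e (nat_lit 8234) (nat_lit 20) (.e (nat_lit 573482) (nat_lit 13) (.e (nat_lit 65619) (nat_lit 10) (.e (nat_lit 344117) (nat_lit 21) (.e (nat_lit 516106) (nat_lit 0) (.e (nat_lit 7112) (nat_lit 381) (.e (nat_lit 229655) (nat_lit 233) .nil))))))) (.g (nat_lit 1) (.e (nat_lit 130480) (nat_lit 0) .nil) .nil))) 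
(.lf (nat_lit 485007) (.g (nat_lit 1043) (.e (nat_lit 24605) (nat_lit 2) (.e (nat_lit 90170) (nat_lit 13) (.e (nat_lit 172113) (nat_lit 10) (.e (nat_lit 434242) (nat_lit 28) .nil)))) (.g (nat_lit 0) (.e (nat_lit 132328) (nat_lit 0) .nil) .nil)))) (.nd (nat_lit 9) 
(.lf (nat_lit 484751) (.g (nat_lit 3854) (.e (nat_lit 24603) (nat_lit 2) (.e (nat_lit 90178) (nat_lit 15) (.e (nat_lit 188440) (nat_lit 20) (.e (nat_lit 3307) (nat_lit 202) (.e (nat_lit 573477) (nat_lit 12) (.e (nat_lit 57575) (nat_lit 55) (.e (nat_lit 778464) (nat_lit 11) .nil))))))) (.g (nat_lit 1) (.e (nat_lit 132054) (nat_lit 0) .nil) .nil))) 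
(.lf (nat_lit 485263) (.g (nat_lit 1798) (.e (nat_lit 24608) (nat_lit 3) (.e (nat_lit 98333) (nat_lit 18) (.e (nat_lit 164183) (nat_lit 154) (.e (nat_lit 65280) (nat_lit 64) .nil)))) (.g (nat_lit 0) (.e (nat_lit 132610) (nat_lit 0) .nil) .nil)))))) (.nd (nat_lit 7) (.nd (nat_lit 8) (.nd (nat_lit 9) 
(.lf (nat_lit 484431) (.g (nat_lit 2356) (.e (nat_lit 8213) (nat_lit 9) (.e (nat_lit 303119) (nat_lit 3) (.e (nat_lit 204869) (nat_lit 29) (.e (nat_lit 360474) (nat_lit 8) .nil)))) (.g (nat_lit 0) (.e (nat_lit 130045) (nat_lit 0) .nil) .nil))) 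
(.lf (nat_lit 484943) (.g (nat_lit 2350) (.e (nat_lit 24604) (nat_lit 2) (.e (nat_lit 90185) (nat_lit 17) (.e (nat_lit 237605) (nat_lit 9) (.e (nat_lit 426428) (nat_lit 17) (.e (nat_lit 90165) (nat_lit 12) (.e (nat_lit 164040) (nat_lit 55) (.e (nat_lit 786176) (nat_lit 11) .nil))))))) (.g (nat_lit 1) (.e (nat_lit 132262) (nat_lit 0) .nil) .nil)))) (.nd (nat_lit 9) 
(.lf (nat_lit 484687) (.g (nat_lit 4105) (.e (nat_lit 24601) (nat_lit 2) (.e (nat_lit 90170) (nat_lit 13) (.e (nat_lit 172113) (nat_lit 10) (.e (nat_lit 434247) (nat_lit 28) (.e (nat_lit 573477) (nat_lit 12) (.e (nat_lit 57574) (nat_lit 55) (.e (nat_lit 778465) (nat_lit 11) .nil))))))) (.g (nat_lit 1) (.e (nat_lit 131978) (nat_lit 0) .nil) .nil))) 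
(.lf (nat_lit 485199) (.g (nat_lit 3277) (.e (nat_lit 24607) (nat_lit 3) (.e (nat_lit 98372) (nat_lit 29) (.e (nat_lit 450586) (nat_lit 10) (.e (nat_lit 573475) (nat_lit 12) (.e (nat_lit 57574) (nat_lit 55) (.e (nat_lit 778463) (nat_lit 11) .nil)))))) (.g (nat_lit 1) (.e (nat_lit 132545) (nat_lit 0) .nil) .nil))))) (.nd (nat_lit 8) (.nd (nat_lit 9) 
(.lf (nat_lit 484559) (.g (nat_lit 499) (.e (nat_lit 24580) (nat_lit 0) (.e (nat_lit 6722) (nat_lit 362) (.e (nat_lit 180269) (nat_lit 25) .nil))) (.g (nat_lit 0) (.e (nat_lit 131666) (nat_lit 0) .nil) .nil))) 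
(.lf (nat_lit 485071) (.g (nat_lit 2126) (.e (nat_lit 24605) (nat_lit 2) (.e (nat_lit 90170) (nat_lit 13) (.e (nat_lit 172120) (nat_lit 12) (.e (nat_lit 475179) (nat_lit 24) (.e (nat_lit 516124) (nat_lit 2) .nil))))) (.g (nat_lit 0) (.e (nat_lit 132392) (nat_lit 0) .nil) .nil)))) (.nd (nat_lit 9) 
(.lf (nat_lit 484815) (.g (nat_lit 3932) (.e (nat_lit 24604) (nat_lit 2) (.e (nat_lit 90170) (nat_lit 13) (.e (nat_lit 172106) (nat_lit 10) (.e (nat_lit 434242) (nat_lit 28) (.e (nat_lit 573477) (nat_lit 12) (.e (nat_lit 57574) (nat_lit 55) (.e (nat_lit 778465) (nat_lit 11) .nil))))))) (.g (nat_lit 1) (.e (nat_lit 132129) (nat_lit 0) .nil) .nil))) 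
(.lf (nat_lit 485327) (.g (nat_lit 2726) (.e (nat_lit 24608) (nat_lit 3) (.e (nat_lit 98365) (nat_lit 26) (.e (nat_lit 426188) (nat_lit 9) (.e (nat_lit 426428) (nat_lit 17) (.e (nat_lit 90165) (nat_lit 12) (.e (nat_lit 164041) (nat_lit 55) (.e (nat_lit 786176) (nat_lit 11) .nil))))))) (.g (nat_lit 1) (.e (nat_lit 132684) (nat_lit 0) .nil) .nil))))))) 
(.nd (nat_lit 6) (.nd (nat_lit 7) (.nd (nat_lit 8) (.nd (nat_lit 9) 
(.lf (nat_lit 484399) (.g (nat_lit 3841) (.e (nat_lit 8326) (nat_lit 69) (.e (nat_lit 557108) (nat_lit 15) (.e (nat_lit 188452) (nat_lit 23) (.e (nat_lit 204846) (nat_lit 24) .nil)))) (.g (nat_lit 0) (.e (nat_lit 129897) (nat_lit 0) .nil) .nil))) 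
(.lf (nat_lit 484911) (.g (nat_lit 2181) (.e (nat_lit 24604) (nat_lit 2) (.e (nat_lit 90178) (nat_lit 15) (.e (nat_lit 188440) (nat_lit 20) (.e (nat_lit 3307) (nat_lit 202) (.e (nat_lit 573472) (nat_lit 12) .nil))))) (.g (nat_lit 0) (.e (nat_lit 132229) (nat_lit 0) .nil) .nil)))) (.nd (nat_lit 9) 
(.lf (nat_lit 484655) (.g (nat_lit 2923) (.e (nat_lit 24598) (nat_lit 1) (.e (nat_lit 57931) (nat_lit 282) (.e (nat_lit 163905) (nat_lit 12) (.e (nat_lit 426555) (nat_lit 32) (.e (nat_lit 376862) (nat_lit 22) (.e (nat_lit 90160) (nat_lit 11) .nil)))))) (.g (nat_lit 1) (.e (nat_lit 131901) (nat_lit 0) .nil) .nil))) 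
(.lf (nat_lit 485167) (.g (nat_lit 2976) (.e (nat_lit 24607) (nat_lit 3) (.e (nat_lit 98365) (nat_lit 26) (.e (nat_lit 426187) (nat_lit 9) (.e (nat_lit 426436) (nat_lit 18) (.e (nat_lit 98339) (nat_lit 19) (.e (nat_lit 213031) (nat_lit 11) .nil)))))) (.g (nat_lit 1) (.e (nat_lit 132513) (nat_lit 0) .nil) .nil))))) (.nd (nat_lit 8) (.nd (nat_lit 9) 
(.lf (nat_lit 484527) (.g (nat_lit 1827) (.e (nat_lit 16128) (nat_lit 225) (.e (nat_lit 2797) (nat_lit 180) (.e (nat_lit 303118) (nat_lit 3) (.e (nat_lit 204868) (nat_lit 29) (.e (nat_lit 360473) (nat_lit 8) .nil))))) (.g (nat_lit 0) (.e (nat_lit 131330) (nat_lit 0) .nil) .nil))) 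
(.lf (nat_lit 485039) (.g (nat_lit 3258) (.e (nat_lit 24605) (nat_lit 2) (.e (nat_lit 90170) (nat_lit 13) (.e (nat_lit 172113) (nat_lit 10) (.e (nat_lit 434247) (nat_lit 28) (.e (nat_lit 573478) (nat_lit 12) (.e (nat_lit 57574) (nat_lit 55) (.e (nat_lit 786176) (nat_lit 11) .nil))))))) (.g (nat_lit 1) (.e (nat_lit 132360) (nat_lit 0) .nil) .nil)))) (.nd (nat_lit 9) 
(.lf (nat_lit 484783) (.g (nat_lit 991) (.e (nat_lit 24604) (nat_lit 2) (.e (nat_lit 90170) (nat_lit 13) (.e (nat_lit 172095) (nat_lit 9) .nil))) (.g (nat_lit 0) (.e (nat_lit 132096) (nat_lit 0) .nil) .nil))) 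
(.lf (nat_lit 485295) (.g (nat_lit 2498) (.e (nat_lit 24608) (nat_lit 3) (.e (nat_lit 98363) (nat_lit 26) (.e (nat_lit 426318) (nat_lit 12) (.e (nat_lit 475179) (nat_lit 24) (.e (nat_lit 516126) (nat_lit 2) (.e (nat_lit 213032) (nat_lit 11) .nil)))))) (.g (nat_lit 1) (.e (nat_lit 132652) (nat_lit 0) .nil) .nil)))))) (.nd (nat_lit 7) (.nd (nat_lit 8) (.nd (nat_lit 9) 
(.lf (nat_lit 484463) (.g (nat_lit 1584) (.e (nat_lit 8226) (nat_lit 15) (.e (nat_lit 532513) (nat_lit 3) (.e (nat_lit 114714) (nat_lit 22) (.e (nat_lit 90173) (nat_lit 14) .nil)))) (.g (nat_lit 0) (.e (nat_lit 130114) (nat_lit 0) .nil) .nil))) 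
(.lf (nat_lit 484975) (.g (nat_lit 1139) (.e (nat_lit 24604) (nat_lit 2) (.e (nat_lit 90185) (nat_lit 17) (.e (nat_lit 237618) (nat_lit 12) .nil))) (.g (nat_lit 0) (.e (nat_lit 132294) (nat_lit 0) .nil) .nil)))) (.nd (nat_lit 9) 
(.lf (nat_lit 484719) (.g (nat_lit 2285) (.e (nat_lit 24602) (nat_lit 2) (.e (nat_lit 90185) (nat_lit 17) (.e (nat_lit 237619) (nat_lit 12) (.e (nat_lit 475179) (nat_lit 24) (.e (nat_lit 516126) (nat_lit 2) (.e (nat_lit 213032) (nat_lit 11) .nil)))))) (.g (nat_lit 1) (.e (nat_lit 132015) (nat_lit 0) .nil) .nil))) 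
(.lf (nat_lit 485231) (.g (nat_lit 3568) (.e (nat_lit 24607) (nat_lit 3) (.e (nat_lit 98373) (nat_lit 29) (.e (nat_lit 450587) (nat_lit 10) (.e (nat_lit 573477) (nat_lit 12) (.e (nat_lit 57575) (nat_lit 55) (.e (nat_lit 778466) (nat_lit 11) .nil)))))) (.g (nat_lit 1) (.e (nat_lit 132577) (nat_lit 0) .nil) .nil))))) (.nd (nat_lit 8) (.nd (nat_lit 9) 
(.lf (nat_lit 484591) (.g (nat_lit 3306) (.e (nat_lit 24595) (nat_lit 0) (.e (nat_lit 1800) (nat_lit 119) (.e (nat_lit 516166) (nat_lit 12) (.e (nat_lit 450587) (nat_lit 10) (.e (nat_lit 573454) (nat_lit 9) .nil))))) (.g (nat_lit 0) (.e (nat_lit 131746) (nat_lit 0) .nil) .nil))) 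
(.lf (nat_lit 485103) (.g (nat_lit 2256) (.e (nat_lit 24605) (nat_lit 2) (.e (nat_lit 90185) (nat_lit 17) (.e (nat_lit 237619) (nat_lit 12) (.e (nat_lit 475179) (nat_lit 24) (.e (nat_lit 516126) (nat_lit 2) (.e (nat_lit 213030) (nat_lit 11) .nil)))))) (.g (nat_lit 1) (.e (nat_lit 132427) (nat_lit 0) .nil) .nil)))) (.nd (nat_lit 9) 
(.lf (nat_lit 484847) (.g (nat_lit 2230) (.e (nat_lit 24604) (nat_lit 2) (.e (nat_lit 90170) (nat_lit 13) (.e (nat_lit 172106) (nat_lit 10) (.e (nat_lit 434246) (nat_lit 28) .nil)))) (.g (nat_lit 0) (.e (nat_lit 132161) (nat_lit 0) .nil) .nil))) 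
(.lf (nat_lit 485359) (.g (nat_lit 1939) (.e (nat_lit 24608) (nat_lit 3) (.e (nat_lit 98365) (nat_lit 26) (.e (nat_lit 426306) (nat_lit 12) (.e (nat_lit 475177) (nat_lit 24) (.e (nat_lit 516097) (nat_lit 0) .nil))))) (.g (nat_lit 0) (.e (nat_lit 132716) (nat_lit 0) .nil) .nil)))))))) (.nd (nat_lit 5) (.nd (nat_lit 6) (.nd (nat_lit 7) (.nd (nat_lit 8) (.nd (nat_lit 9) 
(.lf (nat_lit 484383) (.g (nat_lit 4264) (.e (nat_lit 8326) (nat_lit 69) (.e (nat_lit 557101) (nat_lit 13) (.e (nat_lit 172115) (nat_lit 10) (.e (nat_lit 434244) (nat_lit 28) (.e (nat_lit 573471) (nat_lit 11) (.e (nat_lit 16392) (nat_lit 0) (.e (nat_lit 7936) (nat_lit 389) .nil))))))) (.g (nat_lit 1) (.e (nat_lit 129880) (nat_lit 0) .nil) .nil))) 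
(.lf (nat_lit 484895) (.g (nat_lit 276) (.e (nat_lit 24604) (nat_lit 2) (.e (nat_lit 90176) (nat_lit 15) (.e (nat_lit 188439) (nat_lit 20) .nil))) (.g (nat_lit 0) (.e (nat_lit 132211) (nat_lit 0) .nil) .nil)))) (.nd (nat_lit 9) 
(.lf (nat_lit 484639) (.g (nat_lit 2829) (.e (nat_lit 24598) (nat_lit 1) (.e (nat_lit 57926) (nat_lit 282) (.e (nat_lit 163907) (nat_lit 12) (.e (nat_lit 426555) (nat_lit 32) (.e (nat_lit 376862) (nat_lit 22) (.e (nat_lit 90160) (nat_lit 11) .nil)))))) (.g (nat_lit 1) (.e (nat_lit 131846) (nat_lit 0) .nil) .nil))) 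
(.lf (nat_lit 485151) (.g (nat_lit 2832) (.e (nat_lit 24607) (nat_lit 3) (.e (nat_lit 98359) (nat_lit 26) (.e (nat_lit 426286) (nat_lit 10) (.e (nat_lit 434247) (nat_lit 28) (.e (nat_lit 573477) (nat_lit 12) (.e (nat_lit 57575) (nat_lit 55) (.e (nat_lit 778464) (nat_lit 11) .nil))))))) (.g (nat_lit 1) (.e (nat_lit 132497) (nat_lit 0) .nil) .nil))))) (.nd (nat_lit 8) (.nd (nat_lit 9) 
(.lf (nat_lit 484511) (.g (nat_lit 3980) (.e (nat_lit 8234) (nat_lit 20) (.e (nat_lit 573489) (nat_lit 14) (.e (nat_lit 73755) (nat_lit 8) (.e (nat_lit 557104) (nat_lit 14) (.e (nat_lit 188160) (nat_lit 3) (.e (nat_lit 516106) (nat_lit 0) (.e (nat_lit 3537) (nat_lit 218) (.e (nat_lit 704727) (nat_lit 10) .nil)))))))) (.g (nat_lit 1) (.e (nat_lit 130791) (nat_lit 0) .nil) .nil))) 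
(.lf (nat_lit 485023) (.g (nat_lit 2693) (.e (nat_lit 24605) (nat_lit 2) (.e (nat_lit 90170) (nat_lit 13) (.e (nat_lit 172113) (nat_lit 10) (.e (nat_lit 434247) (nat_lit 28) (.e (nat_lit 573477) (nat_lit 12) (.e (nat_lit 57574) (nat_lit 55) (.e (nat_lit 778460) (nat_lit 11) .nil))))))) (.g (nat_lit 1) (.e (nat_lit 132344) (nat_lit 0) .nil) .nil)))) (.nd (nat_lit 9) 
(.lf (nat_lit 484767) (.g (nat_lit 1344) (.e (nat_lit 24604) (nat_lit 2) (.e (nat_lit 90158) (nat_lit 11) (.e (nat_lit 24608) (nat_lit 3) (.e (nat_lit 106240) (nat_lit 10) .nil)))) (.g (nat_lit 0) (.e (nat_lit 132073) (nat_lit 0) .nil) .nil))) 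
(.lf (nat_lit 485279) (.g (nat_lit 2695) (.e (nat_lit 24608) (nat_lit 3) (.e (nat_lit 98359) (nat_lit 26) (.e (nat_lit 426286) (nat_lit 10) (.e (nat_lit 434248) (nat_lit 28) (.e (nat_lit 573473) (nat_lit 12) (.e (nat_lit 65280) (nat_lit 55) (.e (nat_lit 778462) (nat_lit 11) .nil))))))) (.g (nat_lit 1) (.e (nat_lit 132636) (nat_lit 0) .nil) .nil)))))) 
(.nd (nat_lit 7) (.nd (nat_lit 8) (.nd (nat_lit 9) 
(.lf (nat_lit 484447) (.g (nat_lit 3628) (.e (nat_lit 8213) (nat_lit 9) (.e (nat_lit 303145) (nat_lit 13) (.e (nat_lit 483413) (nat_lit 27) (.e (nat_lit 401446) (nat_lit 10) .nil)))) (.g (nat_lit 0) (.e (nat_lit 130063) (nat_lit 0) .nil) .nil))) 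
(.lf (nat_lit 484959) (.g (nat_lit 4734) (.e (nat_lit 24604) (nat_lit 2) (.e (nat_lit 90185) (nat_lit 17) (.e (nat_lit 237613) (nat_lit 10) (.e (nat_lit 434247) (nat_lit 28) (.e (nat_lit 573477) (nat_lit 12) (.e (nat_lit 57574) (nat_lit 55) (.e (nat_lit 778466) (nat_lit 11) .nil))))))) (.g (nat_lit 1) (.e (nat_lit 132278) (nat_lit 0) .nil) .nil)))) (.nd (nat_lit 9) 
(.lf (nat_lit 484703) (.g (nat_lit 3759) (.e (nat_lit 24602) (nat_lit 2) (.e (nat_lit 90170) (nat_lit 13) (.e (nat_lit 172113) (nat_lit 10) (.e (nat_lit 434245) (nat_lit 28) (.e (nat_lit 573474) (nat_lit 12) (.e (nat_lit 57574) (nat_lit 55) (.e (nat_lit 778464) (nat_lit 11) .nil))))))) (.g (nat_lit 1) (.e (nat_lit 131999) (nat_lit 0) .nil) .nil))) 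
(.lf (nat_lit 485215) (.g (nat_lit 2090) (.e (nat_lit 24607) (nat_lit 3) (.e (nat_lit 98373) (nat_lit 29) (.e (nat_lit 450586) (nat_lit 10) (.e (nat_lit 573475) (nat_lit 12) .nil)))) (.g (nat_lit 0) (.e (nat_lit 132561) (nat_lit 0) .nil) .nil))))) (.nd (nat_lit 8) (.nd (nat_lit 9) 
(.lf (nat_lit 484575) (.g (nat_lit 2290) (.e (nat_lit 24588) (nat_lit 0) (.e (nat_lit 1788) (nat_lit 119) (.e (nat_lit 516165) (nat_lit 12) (.e (nat_lit 450587) (nat_lit 10) (.e (nat_lit 573477) (nat_lit 12) .nil))))) (.g (nat_lit 0) (.e (nat_lit 131721) (nat_lit 0) .nil) .nil))) 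
(.lf (nat_lit 485087) (.g (nat_lit 2254) (.e (nat_lit 24605) (nat_lit 2) (.e (nat_lit 90185) (nat_lit 17) (.e (nat_lit 237605) (nat_lit 9) (.e (nat_lit 426436) (nat_lit 18) (.e (nat_lit 98338) (nat_lit 19) (.e (nat_lit 213030) (nat_lit 11) .nil)))))) (.g (nat_lit 1) (.e (nat_lit 132411) (nat_lit 0) .nil) .nil)))) (.nd (nat_lit 9) 
(.lf (nat_lit 484831) (.g (nat_lit 3326) (.e (nat_lit 24604) (nat_lit 2) (.e (nat_lit 90170) (nat_lit 13) (.e (nat_lit 172106) (nat_lit 10) (.e (nat_lit 434244) (nat_lit 28) (.e (nat_lit 573473) (nat_lit 12) (.e (nat_lit 65280) (nat_lit 55) (.e (nat_lit 778462) (nat_lit 11) .nil))))))) (.g (nat_lit 1) (.e (nat_lit 132145) (nat_lit 0) .nil) .nil))) 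
(.lf (nat_lit 485343) (.g (nat_lit 3281) (.e (nat_lit 24608) (nat_lit 3) (.e (nat_lit 98365) (nat_lit 26) (.e (nat_lit 426287) (nat_lit 10) (.e (nat_lit 434247) (nat_lit 28) (.e (nat_lit 573477) (nat_lit 12) (.e (nat_lit 57574) (nat_lit 55) (.e (nat_lit 778466) (nat_lit 11) .nil))))))) (.g (nat_lit 1) (.e (nat_lit 132700) (nat_lit 0) .nil) .nil))))))) 
(.nd (nat_lit 6) (.nd (nat_lit 7) (.nd (nat_lit 8) (.nd (nat_lit 9) 
(.lf (nat_lit 484415) (.g (nat_lit 2964) (.e (nat_lit 8357) (nat_lit 88) (.e (nat_lit 712755) (nat_lit 30) (.e (nat_lit 450588) (nat_lit 10) (.e (nat_lit 573475) (nat_lit 12) (.e (nat_lit 57507) (nat_lit 39) .nil))))) (.g (nat_lit 0) (.e (nat_lit 129984) (nat_lit 0) .nil) .nil))) 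
(.lf (nat_lit 484927) (.g (nat_lit 2096) (.e (nat_lit 24604) (nat_lit 2) (.e (nat_lit 90185) (nat_lit 17) (.e (nat_lit 237601) (nat_lit 9) (.e (nat_lit 426428) (nat_lit 17) (.e (nat_lit 90165) (nat_lit 12) (.e (nat_lit 164040) (nat_lit 55) (.e (nat_lit 786176) (nat_lit 11) .nil))))))) (.g (nat_lit 1) (.e (nat_lit 132246) (nat_lit 0) .nil) .nil)))) (.nd (nat_lit 9) 
(.lf (nat_lit 484671) (.g (nat_lit 3362) (.e (nat_lit 24599) (nat_lit 1) (.e (nat_lit 57931) (nat_lit 282) (.e (nat_lit 163902) (nat_lit 12) (.e (nat_lit 426555) (nat_lit 32) (.e (nat_lit 376865) (nat_lit 22) (.e (nat_lit 90160) (nat_lit 11) .nil)))))) (.g (nat_lit 1) (.e (nat_lit 131945) (nat_lit 0) .nil) .nil))) 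
(.lf (nat_lit 485183) (.g (nat_lit 2170) (.e (nat_lit 24607) (nat_lit 3) (.e (nat_lit 98365) (nat_lit 26) (.e (nat_lit 426188) (nat_lit 9) (.e (nat_lit 426438) (nat_lit 18) (.e (nat_lit 98338) (nat_lit 19) (.e (nat_lit 213032) (nat_lit 11) .nil)))))) (.g (nat_lit 1) (.e (nat_lit 132529) (nat_lit 0) .nil) .nil))))) (.nd (nat_lit 8) (.nd (nat_lit 9) 
(.lf (nat_lit 484543) (.g (nat_lit 1608) (.e (nat_lit 24577) (nat_lit 0) (.e (nat_lit 6619) (nat_lit 357) (.e (nat_lit 2668) (nat_lit 167) (.e (nat_lit 196666) (nat_lit 13) (.e (nat_lit 65617) (nat_lit 10) .nil))))) (.g (nat_lit 0) (.e (nat_lit 131571) (nat_lit 0) .nil) .nil))) 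
(.lf (nat_lit 485055) (.g (nat_lit 1946) (.e (nat_lit 24605) (nat_lit 2) (.e (nat_lit 90170) (nat_lit 13) (.e (nat_lit 172118) (nat_lit 12) (.e (nat_lit 475177) (nat_lit 24) (.e (nat_lit 516124) (nat_lit 2) .nil))))) (.g (nat_lit 0) (.e (nat_lit 132376) (nat_lit 0) .nil) .nil)))) (.nd (nat_lit 9) 
(.lf (nat_lit 484799) (.g (nat_lit 3263) (.e (nat_lit 24604) (nat_lit 2) (.e (nat_lit 90170) (nat_lit 13) (.e (nat_lit 172106) (nat_lit 10) (.e (nat_lit 434231) (nat_lit 23) (.e (nat_lit 532499) (nat_lit 1) (.e (nat_lit 65280) (nat_lit 233) (.e (nat_lit 2559) (nat_lit 159) .nil))))))) (.g (nat_lit 1) (.e (nat_lit 132113) (nat_lit 0) .nil) .nil))) 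
(.lf (nat_lit 485311) (.g (nat_lit 2301) (.e (nat_lit 24608) (nat_lit 3) (.e (nat_lit 98365) (nat_lit 26) (.e (nat_lit 426187) (nat_lit 9) (.e (nat_lit 426428) (nat_lit 17) (.e (nat_lit 90164) (nat_lit 12) (.e (nat_lit 164043) (nat_lit 55) (.e (nat_lit 778460) (nat_lit 11) .nil))))))) (.g (nat_lit 1) (.e (nat_lit 132668) (nat_lit 0) .nil) .nil)))))) 
(.nd (nat_lit 7) (.nd (nat_lit 8) (.nd (nat_lit 9) 
(.lf (nat_lit 484479) (.g (nat_lit 1808) (.e (nat_lit 8234) (nat_lit 20) (.e (nat_lit 573482) (nat_lit 13) (.e (nat_lit 65604) (nat_lit 9) (.e (nat_lit 336028) (nat_lit 3) .nil)))) (.g (nat_lit 0) (.e (nat_lit 130462) (nat_lit 0) .nil) .nil))) 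
(.lf (nat_lit 484991) (.g (nat_lit 796) (.e (nat_lit 24605) (nat_lit 2) (.e (nat_lit 90170) (nat_lit 13) (.e (nat_lit 172088) (nat_lit 9) .nil))) (.g (nat_lit 0) (.e (nat_lit 132311) (nat_lit 0) .nil) .nil)))) (.nd (nat_lit 9) 
(.lf (nat_lit 484735) (.g (nat_lit 3602) (.e (nat_lit 24603) (nat_lit 2) (.e (nat_lit 90170) (nat_lit 13) (.e (nat_lit 172106) (nat_lit 10) (.e (nat_lit 434244) (nat_lit 28) (.e (nat_lit 573454) (nat_lit 9) .nil))))) (.g (nat_lit 0) (.e (nat_lit 132032) (nat_lit 0) .nil) .nil))) 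
(.lf (nat_lit 485247) (.g (nat_lit 3578) (.e (nat_lit 24607) (nat_lit 3) (.e (nat_lit 98373) (nat_lit 29) (.e (nat_lit 450588) (nat_lit 10) (.e (nat_lit 573478) (nat_lit 12) .nil)))) (.g (nat_lit 0) (.e (nat_lit 132593) (nat_lit 0) .nil) .nil))))) (.nd (nat_lit 8) (.nd (nat_lit 9) 
(.lf (nat_lit 484607) (.g (nat_lit 3295) (.e (nat_lit 24597) (nat_lit 1) (.e (nat_lit 57926) (nat_lit 282) (.e (nat_lit 163905) (nat_lit 12) (.e (nat_lit 426555) (nat_lit 32) (.e (nat_lit 376865) (nat_lit 22) (.e (nat_lit 90158) (nat_lit 11) .nil)))))) (.g (nat_lit 1) (.e (nat_lit 131774) (nat_lit 0) .nil) .nil))) 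
(.lf (nat_lit 485119) (.g (nat_lit 1525) (.e (nat_lit 24606) (nat_lit 3) (.e (nat_lit 98365) (nat_lit 26) (.e (nat_lit 426188) (nat_lit 9) (.e (nat_lit 426436) (nat_lit 18) .nil)))) (.g (nat_lit 0) (.e (nat_lit 132443) (nat_lit 0) .nil) .nil)))) (.nd (nat_lit 9) 
(.lf (nat_lit 484863) (.g (nat_lit 4145) (.e (nat_lit 24604) (nat_lit 2) (.e (nat_lit 90170) (nat_lit 13) (.e (nat_lit 172107) (nat_lit 10) (.e (nat_lit 434248) (nat_lit 28) (.e (nat_lit 573475) (nat_lit 12) (.e (nat_lit 57574) (nat_lit 55) (.e (nat_lit 778466) (nat_lit 11) .nil))))))) (.g (nat_lit 1) (.e (nat_lit 132177) (nat_lit 0) .nil) .nil))) 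
(.lf (nat_lit 485375) (.g (nat_lit 2836) (.e (nat_lit 24608) (nat_lit 3) (.e (nat_lit 98365) (nat_lit 26) (.e (nat_lit 426306) (nat_lit 12) (.e (nat_lit 475179) (nat_lit 24) (.e (nat_lit 516124) (nat_lit 2) (.e (nat_lit 220928) (nat_lit 11) .nil)))))) (.g (nat_lit 1) (.e (nat_lit 132732) (nat_lit 0) .nil) .nil)))))))))))))

noncomputable def tv5534 : DT := (.nd (nat_lit 0) (.nd (nat_lit 1) (.nd (nat_lit 2) (.nd (nat_lit 3) (.nd (nat_lit 4) (.nd (nat_lit 5) (.nd (nat_lit 6) (.nd (nat_lit 7) (.nd (nat_lit 8) (.nd (nat_lit 9) 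
(.lf (nat_lit 485376) (.g (nat_lit 2163) (.e (nat_lit 24608) (nat_lit 3) (.e (nat_lit 98365) (nat_lit 26) (.e (nat_lit 426306) (nat_lit 12) (.e (nat_lit 475179) (nat_lit 24) (.e (nat_lit 516126) (nat_lit 2) (.e (nat_lit 213031) (nat_lit 11) .nil)))))) (.g (nat_lit 1) (.e (nat_lit 132733) (nat_lit 0) .nil) .nil))) 
(.lf (nat_lit 485888) (.g (nat_lit 2674) (.e (nat_lit 24617) (nat_lit 7) (.e (nat_lit 319534) (nat_lit 16) (.e (nat_lit 286756) (nat_lit 10) (.e (nat_lit 344160) (nat_lit 37) (.e (nat_lit 647200) (nat_lit 12) (.e (nat_lit 57347) (nat_lit 0) (.e (nat_lit 7464) (nat_lit 396) (.e (nat_lit 2555) (nat_lit 159) .nil)))))))) (.g (nat_lit 1) (.e (nat_lit 133350) (nat_lit 0) .nil) .nil)))) 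
(.nd (nat_lit 9) 
(.lf (nat_lit 485632) (.g (nat_lit 3810) (.e (nat_lit 24609) (nat_lit 3) (.e (nat_lit 98373) (nat_lit 29) (.e (nat_lit 450587) (nat_lit 10) (.e (nat_lit 573478) (nat_lit 12) (.e (nat_lit 57574) (nat_lit 55) (.e (nat_lit 778464) (nat_lit 11) .nil)))))) (.g (nat_lit 1) (.e (nat_lit 133028) (nat_lit 0) .nil) .nil))) 
(.lf (nat_lit 486144) (.g (nat_lit 2313) (.e (nat_lit 24627) (nat_lit 9) (.e (nat_lit 336377) (nat_lit 27) (.e (nat_lit 426521) (nat_lit 27) (.e (nat_lit 335995) (nat_lit 1) (.e (nat_lit 57848) (nat_lit 252) (.e (nat_lit 57372) (nat_lit 2) (.e (nat_lit 90159) (nat_lit 11) .nil))))))) (.g (nat_lit 1) (.e (nat_lit 133669) (nat_lit 0) .nil) .nil))))) (.nd (nat_lit 8) (.nd (nat_lit 9) 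
(.lf (nat_lit 485504) (.g (nat_lit 4439) (.e (nat_lit 24608) (nat_lit 3) (.e (nat_lit 98373) (nat_lit 29) (.e (nat_lit 450588) (nat_lit 10) (.e (nat_lit 573476) (nat_lit 12) .nil)))) (.g (nat_lit 0) (.e (nat_lit 132874) (nat_lit 0) .nil) .nil))) 
(.lf (nat_lit 486016) (.g (nat_lit 3890) (.e (nat_lit 24624) (nat_lit 9) (.e (nat_lit 336456) (nat_lit 34) (.e (nat_lit 483363) (nat_lit 18) (.e (nat_lit 57854) (nat_lit 252) (.e (nat_lit 57373) (nat_lit 2) (.e (nat_lit 90160) (nat_lit 11) .nil)))))) (.g (nat_lit 1) (.e (nat_lit 133516) (nat_lit 0) .nil) .nil)))) (.nd (nat_lit 9) 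
(.lf (nat_lit 485760) (.g (nat_lit 2318) (.e (nat_lit 24617) (nat_lit 7) (.e (nat_lit 319531) (nat_lit 16) (.e (nat_lit 286759) (nat_lit 12) (.e (nat_lit 385115) (nat_lit 53) (.e (nat_lit 811033) (nat_lit 11) (.e (nat_lit 880) (nat_lit 75) (.e (nat_lit 778464) (nat_lit 11) .nil))))))) (.g (nat_lit 1) (.e (nat_lit 133196) (nat_lit 0) .nil) .nil))) 
(.lf (nat_lit 486272) (.g (nat_lit 3592) (.e (nat_lit 24628) (nat_lit 9) (.e (nat_lit 336324) (nat_lit 18) (.e (nat_lit 204831) (nat_lit 18) (.e (nat_lit 57847) (nat_lit 252) .nil)))) (.g (nat_lit 0) (.e (nat_lit 133826) (nat_lit 0) .nil) .nil)))))) (.nd (nat_lit 7) (.nd (nat_lit 8) (.nd (nat_lit 9) 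
(.lf (nat_lit 485440) (.g (nat_lit 3666) (.e (nat_lit 24608) (nat_lit 3) (.e (nat_lit 98373) (nat_lit 29) (.e (nat_lit 450587) (nat_lit 10) (.e (nat_lit 573475) (nat_lit 12) (.e (nat_lit 57345) (nat_lit 0) (.e (nat_lit 7430) (nat_lit 396) (.e (nat_lit 2551) (nat_lit 159) .nil))))))) (.g (nat_lit 1) (.e (nat_lit 132810) (nat_lit 0) .nil) .nil))) 
(.lf (nat_lit 485952) (.g (nat_lit 2388) (.e (nat_lit 24623) (nat_lit 9) (.e (nat_lit 336454) (nat_lit 34) (.e (nat_lit 483365) (nat_lit 18) (.e (nat_lit 57853) (nat_lit 252) .nil)))) (.g (nat_lit 0) (.e (nat_lit 133446) (nat_lit 0) .nil) .nil)))) (.nd (nat_lit 9) 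
(.lf (nat_lit 485696) (.g (nat_lit 2300) (.e (nat_lit 24617) (nat_lit 7) (.e (nat_lit 319505) (nat_lit 10) (.e (nat_lit 618) (nat_lit 48) (.e (nat_lit 557109) (nat_lit 15) (.e (nat_lit 196352) (nat_lit 6) .nil))))) (.g (nat_lit 0) (.e (nat_lit 133113) (nat_lit 0) .nil) .nil))) 
(.lf (nat_lit 486208) (.g (nat_lit 1870) (.e (nat_lit 24627) (nat_lit 9) (.e (nat_lit 336443) (nat_lit 32) (.e (nat_lit 466972) (nat_lit 21) (.e (nat_lit 164332) (nat_lit 230) (.e (nat_lit 163894) (nat_lit 9) .nil))))) (.g (nat_lit 0) (.e (nat_lit 133738) (nat_lit 0) .nil) .nil))))) (.nd (nat_lit 8) (.nd (nat_lit 9) 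
(.lf (nat_lit 485568) (.g (nat_lit 2343) (.e (nat_lit 24609) (nat_lit 3) (.e (nat_lit 98370) (nat_lit 28) (.e (nat_lit 442374) (nat_lit 0) (.e (nat_lit 1800) (nat_lit 119) (.e (nat_lit 516126) (nat_lit 2) (.e (nat_lit 213032) (nat_lit 11) .nil)))))) (.g (nat_lit 1) (.e (nat_lit 132961) (nat_lit 0) .nil) .nil))) 
(.lf (nat_lit 486080) (.g (nat_lit 2100) (.e (nat_lit 24625) (nat_lit 9) (.e (nat_lit 336456) (nat_lit 34) (.e (nat_lit 483365) (nat_lit 18) (.e (nat_lit 57848) (nat_lit 252) (.e (nat_lit 57375) (nat_lit 2) (.e (nat_lit 90156) (nat_lit 11) .nil)))))) (.g (nat_lit 1) (.e (nat_lit 133582) (nat_lit 0) .nil) .nil)))) (.nd (nat_lit 9) 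
(.lf (nat_lit 485824) (.g (nat_lit 2747) (.e (nat_lit 24617) (nat_lit 7) (.e (nat_lit 319533) (nat_lit 16) (.e (nat_lit 286759) (nat_lit 12) (.e (nat_lit 385115) (nat_lit 53) (.e (nat_lit 811034) (nat_lit 11) (.e (nat_lit 883) (nat_lit 75) (.e (nat_lit 778464) (nat_lit 11) .nil))))))) (.g (nat_lit 1) (.e (nat_lit 133272) (nat_lit 0) .nil) .nil))) 
(.lf (nat_lit 486336) (.g (nat_lit 3055) (.e (nat_lit 24628) (nat_lit 9) (.e (nat_lit 336443) (nat_lit 32) (.e (nat_lit 466969) (nat_lit 21) (.e (nat_lit 164325) (nat_lit 230) (.e (nat_lit 163877) (nat_lit 4) (.e (nat_lit 213032) (nat_lit 11) .nil)))))) (.g (nat_lit 1) (.e (nat_lit 133907) (nat_lit 0) .nil) .nil))))))) (.nd (nat_lit 6) (.nd (nat_lit 7) (.nd (nat_lit 8) (.nd (nat_lit 9) 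
(.lf (nat_lit 485408) (.g (nat_lit 3305) (.e (nat_lit 24608) (nat_lit 3) (.e (nat_lit 98372) (nat_lit 29) (.e (nat_lit 450587) (nat_lit 10) (.e (nat_lit 573477) (nat_lit 12) (.e (nat_lit 57575) (nat_lit 55) (.e (nat_lit 778465) (nat_lit 11) .nil)))))) (.g (nat_lit 1) (.e (nat_lit 132767) (nat_lit 0) .nil) .nil))) 
(.lf (nat_lit 485920) (.g (nat_lit 2570) (.e (nat_lit 24620) (nat_lit 8) (.e (nat_lit 327715) (nat_lit 16) (.e (nat_lit 286759) (nat_lit 12) (.e (nat_lit 385107) (nat_lit 51) (.e (nat_lit 794679) (nat_lit 24) .nil))))) (.g (nat_lit 0) (.e (nat_lit 133405) (nat_lit 0) .nil) .nil)))) (.nd (nat_lit 9) 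
(.lf (nat_lit 485664) (.g (nat_lit 3794) (.e (nat_lit 32512) (nat_lit 3) (.e (nat_lit 98373) (nat_lit 29) (.e (nat_lit 450587) (nat_lit 10) (.e (nat_lit 573475) (nat_lit 12) (.e (nat_lit 57574) (nat_lit 55) .nil))))) (.g (nat_lit 0) (.e (nat_lit 133062) (nat_lit 0) .nil) .nil))) 
(.lf (nat_lit 486176) (.g (nat_lit 2088) (.e (nat_lit 24627) (nat_lit 9) (.e (nat_lit 336443) (nat_lit 32) (.e (nat_lit 466969) (nat_lit 21) (.e (nat_lit 164332) (nat_lit 230) (.e (nat_lit 163880) (nat_lit 4) (.e (nat_lit 213031) (nat_lit 11) .nil)))))) (.g (nat_lit 1) (.e (nat_lit 133706) (nat_lit 0) .nil) .nil))))) (.nd (nat_lit 8) (.nd (nat_lit 9) 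
(.lf (nat_lit 485536) (.g (nat_lit 2605) (.e (nat_lit 24609) (nat_lit 3) (.e (nat_lit 98358) (nat_lit 26) (.e (nat_lit 426320) (nat_lit 12) (.e (nat_lit 475178) (nat_lit 24) (.e (nat_lit 516127) (nat_lit 2) (.e (nat_lit 213030) (nat_lit 11) .nil)))))) (.g (nat_lit 1) (.e (nat_lit 132915) (nat_lit 0) .nil) .nil))) 
(.lf (nat_lit 486048) (.g (nat_lit 2591) (.e (nat_lit 24625) (nat_lit 9) (.e (nat_lit 336443) (nat_lit 32) (.e (nat_lit 466969) (nat_lit 21) (.e (nat_lit 164331) (nat_lit 230) (.e (nat_lit 163878) (nat_lit 4) (.e (nat_lit 213030) (nat_lit 11) .nil)))))) (.g (nat_lit 1) (.e (nat_lit 133550) (nat_lit 0) .nil) .nil)))) (.nd (nat_lit 9) 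
(.lf (nat_lit 485792) (.g (nat_lit 2510) (.e (nat_lit 24617) (nat_lit 7) (.e (nat_lit 319533) (nat_lit 16) (.e (nat_lit 286753) (nat_lit 10) (.e (nat_lit 344169) (nat_lit 40) (.e (nat_lit 679680) (nat_lit 15) (.e (nat_lit 57612) (nat_lit 116) (.e (nat_lit 778464) (nat_lit 11) .nil))))))) (.g (nat_lit 1) (.e (nat_lit 133233) (nat_lit 0) .nil) .nil))) 
(.lf (nat_lit 486304) (.g (nat_lit 2438) (.e (nat_lit 24628) (nat_lit 9) (.e (nat_lit 336370) (nat_lit 27) (.e (nat_lit 426497) (nat_lit 27) (.e (nat_lit 335986) (nat_lit 1) (.e (nat_lit 57849) (nat_lit 252) (.e (nat_lit 57372) (nat_lit 2) (.e (nat_lit 90158) (nat_lit 11) .nil))))))) (.g (nat_lit 1) (.e (nat_lit 133860) (nat_lit 0) .nil) .nil)))))) 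
(.nd (nat_lit 7) (.nd (nat_lit 8) (.nd (nat_lit 9) 
(.lf (nat_lit 485472) (.g (nat_lit 3799) (.e (nat_lit 24608) (nat_lit 3) (.e (nat_lit 98373) (nat_lit 29) (.e (nat_lit 450587) (nat_lit 10) (.e (nat_lit 573477) (nat_lit 12) (.e (nat_lit 57574) (nat_lit 55) (.e (nat_lit 778460) (nat_lit 11) .nil)))))) (.g (nat_lit 1) (.e (nat_lit 132842) (nat_lit 0) .nil) .nil))) 
(.lf (nat_lit 485984) (.g (nat_lit 1655) (.e (nat_lit 24624) (nat_lit 9) (.e (nat_lit 336443) (nat_lit 32) (.e (nat_lit 466971) (nat_lit 21) (.e (nat_lit 164329) (nat_lit 230) .nil)))) (.g (nat_lit 0) (.e (nat_lit 133483) (nat_lit 0) .nil) .nil)))) (.nd (nat_lit 9) 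
(.lf (nat_lit 485728) (.g (nat_lit 1399) (.e (nat_lit 24617) (nat_lit 7) (.e (nat_lit 319530) (nat_lit 16) (.e (nat_lit 286759) (nat_lit 12) (.e (nat_lit 385092) (nat_lit 49) .nil)))) (.g (nat_lit 0) (.e (nat_lit 133158) (nat_lit 0) .nil) .nil))) 
(.lf (nat_lit 486240) (.g (nat_lit 3032) (.e (nat_lit 24627) (nat_lit 9) (.e (nat_lit 336454) (nat_lit 34) (.e (nat_lit 483365) (nat_lit 18) (.e (nat_lit 57846) (nat_lit 252) (.e (nat_lit 57373) (nat_lit 2) (.e (nat_lit 90160) (nat_lit 11) .nil)))))) (.g (nat_lit 1) (.e (nat_lit 133780) (nat_lit 0) .nil) .nil))))) (.nd (nat_lit 8) (.nd (nat_lit 9) 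
(.lf (nat_lit 485600) (.g (nat_lit 1684) (.e (nat_lit 24609) (nat_lit 3) (.e (nat_lit 98373) (nat_lit 29) (.e (nat_lit 458496) (nat_lit 3) (.e (nat_lit 516115) (nat_lit 1) (.e (nat_lit 164381) (nat_lit 254) (.e (nat_lit 7936) (nat_lit 159) .nil)))))) (.g (nat_lit 1) (.e (nat_lit 132996) (nat_lit 0) .nil) .nil))) 
(.lf (nat_lit 486112) (.g (nat_lit 2048) (.e (nat_lit 24626) (nat_lit 9) (.e (nat_lit 336454) (nat_lit 34) (.e (nat_lit 483363) (nat_lit 18) (.e (nat_lit 57849) (nat_lit 252) (.e (nat_lit 57375) (nat_lit 2) (.e (nat_lit 90157) (nat_lit 11) .nil)))))) (.g (nat_lit 1) (.e (nat_lit 133619) (nat_lit 0) .nil) .nil)))) (.nd (nat_lit 9) 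
(.lf (nat_lit 485856) (.g (nat_lit 1839) (.e (nat_lit 24617) (nat_lit 7) (.e (nat_lit 319534) (nat_lit 16) (.e (nat_lit 286756) (nat_lit 10) (.e (nat_lit 344169) (nat_lit 40) (.e (nat_lit 671780) (nat_lit 12) .nil))))) (.g (nat_lit 0) (.e (nat_lit 133318) (nat_lit 0) .nil) .nil))) 
(.lf (nat_lit 486368) (.g (nat_lit 2770) (.e (nat_lit 24628) (nat_lit 9) (.e (nat_lit 336443) (nat_lit 32) (.e (nat_lit 466969) (nat_lit 21) (.e (nat_lit 164331) (nat_lit 230) (.e (nat_lit 163878) (nat_lit 4) (.e (nat_lit 213030) (nat_lit 11) .nil)))))) (.g (nat_lit 1) (.e (nat_lit 133939) (nat_lit 0) .nil) .nil)))))))) 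
(.nd (nat_lit 5) (.nd (nat_lit 6) (.nd (nat_lit 7) (.nd (nat_lit 8) (.nd (nat_lit 9) 
(.lf (nat_lit 485392) (.g (nat_lit 3070) (.e (nat_lit 24608) (nat_lit 3) (.e (nat_lit 98372) (nat_lit 29) (.e (nat_lit 450586) (nat_lit 10) (.e (nat_lit 573475) (nat_lit 12) (.e (nat_lit 57574) (nat_lit 55) (.e (nat_lit 778460) (nat_lit 11) .nil)))))) (.g (nat_lit 1) (.e (nat_lit 132751) (nat_lit 0) .nil) .nil))) 
(.lf (nat_lit 485904) (.g (nat_lit 2303) (.e (nat_lit 24617) (nat_lit 7) (.e (nat_lit 319534) (nat_lit 16) (.e (nat_lit 286759) (nat_lit 12) (.e (nat_lit 385107) (nat_lit 51) (.e (nat_lit 794675) (nat_lit 24) (.e (nat_lit 213030) (nat_lit 11) .nil)))))) (.g (nat_lit 1) (.e (nat_lit 133372) (nat_lit 0) .nil) .nil)))) (.nd (nat_lit 9) 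
(.lf (nat_lit 485648) (.g (nat_lit 4335) (.e (nat_lit 24609) (nat_lit 3) (.e (nat_lit 98373) (nat_lit 29) (.e (nat_lit 450588) (nat_lit 10) (.e (nat_lit 573478) (nat_lit 12) .nil)))) (.g (nat_lit 0) (.e (nat_lit 133044) (nat_lit 0) .nil) .nil))) 
(.lf (nat_lit 486160) (.g (nat_lit 2899) (.e (nat_lit 24627) (nat_lit 9) (.e (nat_lit 336443) (nat_lit 32) (.e (nat_lit 466969) (nat_lit 21) (.e (nat_lit 164326) (nat_lit 230) (.e (nat_lit 163882) (nat_lit 4) (.e (nat_lit 213032) (nat_lit 11) .nil)))))) (.g (nat_lit 1) (.e (nat_lit 133690) (nat_lit 0) .nil) .nil))))) (.nd (nat_lit 8) (.nd (nat_lit 9) 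
(.lf (nat_lit 485520) (.g (nat_lit 4266) (.e (nat_lit 24608) (nat_lit 3) (.e (nat_lit 98387) (nat_lit 33) (.e (nat_lit 491566) (nat_lit 12) (.e (nat_lit 385068) (nat_lit 26) (.e (nat_lit 532508) (nat_lit 2) (.e (nat_lit 114432) (nat_lit 2) .nil)))))) (.g (nat_lit 1) (.e (nat_lit 132894) (nat_lit 0) .nil) .nil))) 
(.lf (nat_lit 486032) (.g (nat_lit 2569) (.e (nat_lit 24625) (nat_lit 9) (.e (nat_lit 336426) (nat_lit 29) (.e (nat_lit 442421) (nat_lit 21) (.e (nat_lit 164326) (nat_lit 230) (.e (nat_lit 163881) (nat_lit 4) (.e (nat_lit 213032) (nat_lit 11) .nil)))))) (.g (nat_lit 1) (.e (nat_lit 133532) (nat_lit 0) .nil) .nil)))) (.nd (nat_lit 9) 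
(.lf (nat_lit 485776) (.g (nat_lit 1064) (.e (nat_lit 24617) (nat_lit 7) (.e (nat_lit 319533) (nat_lit 16) (.e (nat_lit 286753) (nat_lit 10) (.e (nat_lit 344168) (nat_lit 40) .nil)))) (.g (nat_lit 0) (.e (nat_lit 133216) (nat_lit 0) .nil) .nil))) 
(.lf (nat_lit 486288) (.g (nat_lit 4156) (.e (nat_lit 24628) (nat_lit 9) (.e (nat_lit 336366) (nat_lit 27) (.e (nat_lit 426499) (nat_lit 27) (.e (nat_lit 335986) (nat_lit 1) (.e (nat_lit 57847) (nat_lit 252) (.e (nat_lit 57370) (nat_lit 2) (.e (nat_lit 90158) (nat_lit 11) .nil))))))) (.g (nat_lit 1) (.e (nat_lit 133843) (nat_lit 0) .nil) .nil)))))) 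
(.nd (nat_lit 7) (.nd (nat_lit 8) (.nd (nat_lit 9) 
(.lf (nat_lit 485456) (.g (nat_lit 4327) (.e (nat_lit 24608) (nat_lit 3) (.e (nat_lit 98373) (nat_lit 29) (.e (nat_lit 450587) (nat_lit 10) (.e (nat_lit 573475) (nat_lit 12) (.e (nat_lit 57346) (nat_lit 0) (.e (nat_lit 7403) (nat_lit 396) (.e (nat_lit 2560) (nat_lit 159) .nil))))))) (.g (nat_lit 1) (.e (nat_lit 132826) (nat_lit 0) .nil) .nil))) 
(.lf (nat_lit 485968) (.g (nat_lit 4155) (.e (nat_lit 24624) (nat_lit 9) (.e (nat_lit 336324) (nat_lit 18) (.e (nat_lit 204831) (nat_lit 18) (.e (nat_lit 57847) (nat_lit 252) .nil)))) (.g (nat_lit 0) (.e (nat_lit 133463) (nat_lit 0) .nil) .nil)))) (.nd (nat_lit 9) 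
(.lf (nat_lit 485712) (.g (nat_lit 2339) (.e (nat_lit 24617) (nat_lit 7) (.e (nat_lit 319528) (nat_lit 16) (.e (nat_lit 286759) (nat_lit 12) (.e (nat_lit 385115) (nat_lit 53) (.e (nat_lit 811039) (nat_lit 11) (.e (nat_lit 913) (nat_lit 75) (.e (nat_lit 778464) (nat_lit 11) .nil))))))) (.g (nat_lit 1) (.e (nat_lit 133138) (nat_lit 0) .nil) .nil))) 
(.lf (nat_lit 486224) (.g (nat_lit 3528) (.e (nat_lit 24627) (nat_lit 9) (.e (nat_lit 336454) (nat_lit 34) (.e (nat_lit 483363) (nat_lit 18) (.e (nat_lit 57849) (nat_lit 252) (.e (nat_lit 57375) (nat_lit 2) (.e (nat_lit 90159) (nat_lit 11) .nil)))))) (.g (nat_lit 1) (.e (nat_lit 133764) (nat_lit 0) .nil) .nil))))) (.nd (nat_lit 8) (.nd (nat_lit 9) 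
(.lf (nat_lit 485584) (.g (nat_lit 3324) (.e (nat_lit 24609) (nat_lit 3) (.e (nat_lit 98372) (nat_lit 29) (.e (nat_lit 450586) (nat_lit 10) (.e (nat_lit 573475) (nat_lit 12) (.e (nat_lit 57574) (nat_lit 55) (.e (nat_lit 778465) (nat_lit 11) .nil)))))) (.g (nat_lit 1) (.e (nat_lit 132977) (nat_lit 0) .nil) .nil))) 
(.lf (nat_lit 486096) (.g (nat_lit 2694) (.e (nat_lit 24626) (nat_lit 9) (.e (nat_lit 336443) (nat_lit 32) (.e (nat_lit 466969) (nat_lit 21) (.e (nat_lit 164331) (nat_lit 230) (.e (nat_lit 163878) (nat_lit 4) (.e (nat_lit 213030) (nat_lit 11) .nil)))))) (.g (nat_lit 1) (.e (nat_lit 133601) (nat_lit 0) .nil) .nil)))) (.nd (nat_lit 9) 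
(.lf (nat_lit 485840) (.g (nat_lit 375) (.e (nat_lit 24617) (nat_lit 7) (.e (nat_lit 319534) (nat_lit 16) (.e (nat_lit 286756) (nat_lit 10) .nil))) (.g (nat_lit 0) (.e (nat_lit 133298) (nat_lit 0) .nil) .nil))) 
(.lf (nat_lit 486352) (.g (nat_lit 1617) (.e (nat_lit 24628) (nat_lit 9) (.e (nat_lit 336443) (nat_lit 32) (.e (nat_lit 466969) (nat_lit 21) (.e (nat_lit 164329) (nat_lit 230) (.e (nat_lit 163850) (nat_lit 0) .nil))))) (.g (nat_lit 0) (.e (nat_lit 133923) (nat_lit 0) .nil) .nil))))))) (.nd (nat_lit 6) (.nd (nat_lit 7) (.nd (nat_lit 8) (.nd (nat_lit 9) 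
(.lf (nat_lit 485424) (.g (nat_lit 3453) (.e (nat_lit 24608) (nat_lit 3) (.e (nat_lit 98373) (nat_lit 29) (.e (nat_lit 450585) (nat_lit 10) (.e (nat_lit 573474) (nat_lit 12) (.e (nat_lit 57574) (nat_lit 55) .nil))))) (.g (nat_lit 0) (.e (nat_lit 132794) (nat_lit 0) .nil) .nil))) 
(.lf (nat_lit 485936) (.g (nat_lit 2208) (.e (nat_lit 24623) (nat_lit 9) (.e (nat_lit 336412) (nat_lit 27) (.e (nat_lit 426011) (nat_lit 0) (.e (nat_lit 7593) (nat_lit 407) (.e (nat_lit 73775) (nat_lit 26) (.e (nat_lit 778464) (nat_lit 11) .nil)))))) (.g (nat_lit 1) (.e (nat_lit 133429) (nat_lit 0) .nil) .nil)))) (.nd (nat_lit 9) 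
(.lf (nat_lit 485680) (.g (nat_lit 2073) (.e (nat_lit 24616) (nat_lit 7) (.e (nat_lit 319530) (nat_lit 16) (.e (nat_lit 286759) (nat_lit 12) (.e (nat_lit 385115) (nat_lit 53) (.e (nat_lit 811032) (nat_lit 11) .nil))))) (.g (nat_lit 0) (.e (nat_lit 133090) (nat_lit 0) .nil) .nil))) 
(.lf (nat_lit 486192) (.g (nat_lit 2510) (.e (nat_lit 24627) (nat_lit 9) (.e (nat_lit 336443) (nat_lit 32) (.e (nat_lit 466972) (nat_lit 21) (.e (nat_lit 164322) (nat_lit 230) (.e (nat_lit 163878) (nat_lit 4) (.e (nat_lit 213030) (nat_lit 11) .nil)))))) (.g (nat_lit 1) (.e (nat_lit 133722) (nat_lit 0) .nil) .nil))))) (.nd (nat_lit 8) (.nd (nat_lit 9) 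
(.lf (nat_lit 485552) (.g (nat_lit 1266) (.e (nat_lit 24609) (nat_lit 3) (.e (nat_lit 98365) (nat_lit 26) (.e (nat_lit 426306) (nat_lit 12) (.e (nat_lit 475176) (nat_lit 24) .nil)))) (.g (nat_lit 0) (.e (nat_lit 132945) (nat_lit 0) .nil) .nil))) 
(.lf (nat_lit 486064) (.g (nat_lit 2966) (.e (nat_lit 24625) (nat_lit 9) (.e (nat_lit 336443) (nat_lit 32) (.e (nat_lit 466972) (nat_lit 21) (.e (nat_lit 164330) (nat_lit 230) (.e (nat_lit 163878) (nat_lit 4) (.e (nat_lit 213030) (nat_lit 11) .nil)))))) (.g (nat_lit 1) (.e (nat_lit 133566) (nat_lit 0) .nil) .nil)))) (.nd (nat_lit 9) 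
(.lf (nat_lit 485808) (.g (nat_lit 413) (.e (nat_lit 24617) (nat_lit 7) (.e (nat_lit 319533) (nat_lit 16) (.e (nat_lit 286758) (nat_lit 12) .nil))) (.g (nat_lit 0) (.e (nat_lit 133249) (nat_lit 0) .nil) .nil))) 
(.lf (nat_lit 486320) (.g (nat_lit 2251) (.e (nat_lit 24628) (nat_lit 9) (.e (nat_lit 336395) (nat_lit 27) (.e (nat_lit 426528) (nat_lit 27) (.e (nat_lit 335986) (nat_lit 1) (.e (nat_lit 57847) (nat_lit 252) (.e (nat_lit 57375) (nat_lit 2) (.e (nat_lit 90160) (nat_lit 11) .nil))))))) (.g (nat_lit 1) (.e (nat_lit 133884) (nat_lit 0) .nil) .nil)))))) 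
(.nd (nat_lit 7) (.nd (nat_lit 8) (.nd (nat_lit 9) 
(.lf (nat_lit 485488) (.g (nat_lit 3770) (.e (nat_lit 24608) (nat_lit 3) (.e (nat_lit 98373) (nat_lit 29) (.e (nat_lit 450588) (nat_lit 10) (.e (nat_lit 573452) (nat_lit 9) (.e (nat_lit 1314) (nat_lit 98) .nil))))) (.g (nat_lit 0) (.e (nat_lit 132858) (nat_lit 0) .nil) .nil))) 
(.lf (nat_lit 486000) (.g (nat_lit 3154) (.e (nat_lit 24624) (nat_lit 9) (.e (nat_lit 336454) (nat_lit 34) (.e (nat_lit 483365) (nat_lit 18) (.e (nat_lit 57844) (nat_lit 252) (.e (nat_lit 57371) (nat_lit 2) (.e (nat_lit 90160) (nat_lit 11) .nil)))))) (.g (nat_lit 1) (.e (nat_lit 133499) (nat_lit 0) .nil) .nil)))) (.nd (nat_lit 9) 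
(.lf (nat_lit 485744) (.g (nat_lit 1783) (.e (nat_lit 24617) (nat_lit 7) (.e (nat_lit 319531) (nat_lit 16) (.e (nat_lit 286759) (nat_lit 12) (.e (nat_lit 385092) (nat_lit 49) (.e (nat_lit 778486) (nat_lit 12) .nil))))) (.g (nat_lit 0) (.e (nat_lit 133174) (nat_lit 0) .nil) .nil))) 
(.lf (nat_lit 486256) (.g (nat_lit 3710) (.e (nat_lit 24627) (nat_lit 9) (.e (nat_lit 336454) (nat_lit 34) (.e (nat_lit 483365) (nat_lit 18) (.e (nat_lit 57851) (nat_lit 252) (.e (nat_lit 57371) (nat_lit 2) (.e (nat_lit 90160) (nat_lit 11) .nil)))))) (.g (nat_lit 1) (.e (nat_lit 133796) (nat_lit 0) .nil) .nil))))) (.nd (nat_lit 8) (.nd (nat_lit 9) 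
(.lf (nat_lit 485616) (.g (nat_lit 3965) (.e (nat_lit 24609) (nat_lit 3) (.e (nat_lit 98373) (nat_lit 29) (.e (nat_lit 450587) (nat_lit 10) (.e (nat_lit 573476) (nat_lit 12) .nil)))) (.g (nat_lit 0) (.e (nat_lit 133012) (nat_lit 0) .nil) .nil))) 
(.lf (nat_lit 486128) (.g (nat_lit 5377) (.e (nat_lit 24627) (nat_lit 9) (.e (nat_lit 336324) (nat_lit 18) (.e (nat_lit 204831) (nat_lit 18) (.e (nat_lit 57849) (nat_lit 252) (.e (nat_lit 57443) (nat_lit 18) .nil))))) (.g (nat_lit 0) (.e (nat_lit 133641) (nat_lit 0) .nil) .nil)))) (.nd (nat_lit 9) 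
(.lf (nat_lit 485872) (.g (nat_lit 3094) (.e (nat_lit 24617) (nat_lit 7) (.e (nat_lit 319534) (nat_lit 16) (.e (nat_lit 286756) (nat_lit 10) (.e (nat_lit 344160) (nat_lit 37) (.e (nat_lit 647190) (nat_lit 9) (.e (nat_lit 1016) (nat_lit 81) (.e (nat_lit 2350) (nat_lit 151) (.e (nat_lit 778464) (nat_lit 11) .nil)))))))) (.g (nat_lit 1) (.e (nat_lit 133334) (nat_lit 0) .nil) .nil))) 
(.lf (nat_lit 486384) (.g (nat_lit 2738) (.e (nat_lit 24628) (nat_lit 9) (.e (nat_lit 336443) (nat_lit 32) (.e (nat_lit 466971) (nat_lit 21) (.e (nat_lit 164325) (nat_lit 230) (.e (nat_lit 163881) (nat_lit 4) (.e (nat_lit 213030) (nat_lit 11) .nil)))))) (.g (nat_lit 1) (.e (nat_lit 133955) (nat_lit 0) .nil) .nil))))))))) 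
(.nd (nat_lit 4) (.nd (nat_lit 5) (.nd (nat_lit 6) (.nd (nat_lit 7) (.nd (nat_lit 8) 
(.nd (nat_lit 9) 
(.lf (nat_lit 485384) (.g (nat_lit 2783) (.e (nat_lit 24608) (nat_lit 3) (.e (nat_lit 98370) (nat_lit 28) (.e (nat_lit 442374) (nat_lit 0) (.e (nat_lit 1800) (nat_lit 119) (.e (nat_lit 516127) (nat_lit 2) (.e (nat_lit 213032) (nat_lit 11) .nil)))))) (.g (nat_lit 1) (.e (nat_lit 132742) (nat_lit 0) .nil) .nil))) 
(.lf (nat_lit 485896) (.g (nat_lit 3792) (.e (nat_lit 24617) (nat_lit 7) (.e (nat_lit 319534) (nat_lit 16) (.e (nat_lit 286756) (nat_lit 10) (.e (nat_lit 344166) (nat_lit 38) (.e (nat_lit 655398) (nat_lit 12) (.e (nat_lit 57575) (nat_lit 55) (.e (nat_lit 778466) (nat_lit 11) .nil))))))) (.g (nat_lit 1) (.e (nat_lit 133358) (nat_lit 0) .nil) .nil)))) (.nd (nat_lit 9) 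
(.lf (nat_lit 485640) (.g (nat_lit 2225) (.e (nat_lit 24609) (nat_lit 3) (.e (nat_lit 98373) (nat_lit 29) (.e (nat_lit 450588) (nat_lit 10) (.e (nat_lit 573475) (nat_lit 12) .nil)))) (.g (nat_lit 0) (.e (nat_lit 133036) (nat_lit 0) .nil) .nil))) 
(.lf (nat_lit 486152) (.g (nat_lit 1868) (.e (nat_lit 24627) (nat_lit 9) (.e (nat_lit 336443) (nat_lit 32) (.e (nat_lit 466969) (nat_lit 21) (.e (nat_lit 164305) (nat_lit 226) (.e (nat_lit 2612) (nat_lit 163) .nil))))) (.g (nat_lit 0) (.e (nat_lit 133682) (nat_lit 0) .nil) .nil))))) (.nd (nat_lit 8) (.nd (nat_lit 9) 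
(.lf (nat_lit 485512) (.g (nat_lit 3316) (.e (nat_lit 24608) (nat_lit 3) (.e (nat_lit 98384) (nat_lit 32) (.e (nat_lit 475210) (nat_lit 41) (.e (nat_lit 712728) (nat_lit 18) (.e (nat_lit 204834) (nat_lit 19) (.e (nat_lit 114432) (nat_lit 2) .nil)))))) (.g (nat_lit 1) (.e (nat_lit 132885) (nat_lit 0) .nil) .nil))) 
(.lf (nat_lit 486024) (.g (nat_lit 2138) (.e (nat_lit 24624) (nat_lit 9) (.e (nat_lit 336456) (nat_lit 34) (.e (nat_lit 483365) (nat_lit 18) (.e (nat_lit 57852) (nat_lit 252) (.e (nat_lit 57373) (nat_lit 2) (.e (nat_lit 90160) (nat_lit 11) .nil)))))) (.g (nat_lit 1) (.e (nat_lit 133524) (nat_lit 0) .nil) .nil)))) (.nd (nat_lit 9) 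
(.lf (nat_lit 485768) (.g (nat_lit 2181) (.e (nat_lit 24617) (nat_lit 7) (.e (nat_lit 319532) (nat_lit 16) (.e (nat_lit 286759) (nat_lit 12) (.e (nat_lit 385107) (nat_lit 51) (.e (nat_lit 794678) (nat_lit 24) .nil))))) (.g (nat_lit 0) (.e (nat_lit 133205) (nat_lit 0) .nil) .nil))) 
(.lf (nat_lit 486280) (.g (nat_lit 2379) (.e (nat_lit 24628) (nat_lit 9) (.e (nat_lit 336366) (nat_lit 27) (.e (nat_lit 426497) (nat_lit 27) (.e (nat_lit 335986) (nat_lit 1) (.e (nat_lit 57849) (nat_lit 252) (.e (nat_lit 57372) (nat_lit 2) (.e (nat_lit 90158) (nat_lit 11) .nil))))))) (.g (nat_lit 1) (.e (nat_lit 133835) (nat_lit 0) .nil) .nil)))))) 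
(.nd (nat_lit 7) (.nd (nat_lit 8) (.nd (nat_lit 9) 
(.lf (nat_lit 485448) (.g (nat_lit 3230) (.e (nat_lit 24608) (nat_lit 3) (.e (nat_lit 98373) (nat_lit 29) (.e (nat_lit 450587) (nat_lit 10) (.e (nat_lit 573475) (nat_lit 12) (.e (nat_lit 57346) (nat_lit 0) (.e (nat_lit 7409) (nat_lit 396) (.e (nat_lit 2551) (nat_lit 159) .nil))))))) (.g (nat_lit 1) (.e (nat_lit 132818) (nat_lit 0) .nil) .nil))) 
(.lf (nat_lit 485960) (.g (nat_lit 2663) (.e (nat_lit 24623) (nat_lit 9) (.e (nat_lit 336456) (nat_lit 34) (.e (nat_lit 483365) (nat_lit 18) (.e (nat_lit 57846) (nat_lit 252) (.e (nat_lit 57371) (nat_lit 2) (.e (nat_lit 90160) (nat_lit 11) .nil)))))) (.g (nat_lit 1) (.e (nat_lit 133454) (nat_lit 0) .nil) .nil)))) (.nd (nat_lit 9) 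
(.lf (nat_lit 485704) (.g (nat_lit 1816) (.e (nat_lit 24617) (nat_lit 7) (.e (nat_lit 319528) (nat_lit 16) (.e (nat_lit 286759) (nat_lit 12) (.e (nat_lit 385107) (nat_lit 51) (.e (nat_lit 794676) (nat_lit 24) (.e (nat_lit 213030) (nat_lit 11) .nil)))))) (.g (nat_lit 1) (.e (nat_lit 133130) (nat_lit 0) .nil) .nil))) 
(.lf (nat_lit 486216) (.g (nat_lit 2692) (.e (nat_lit 24627) (nat_lit 9) (.e (nat_lit 336454) (nat_lit 34) (.e (nat_lit 483363) (nat_lit 18) (.e (nat_lit 57847) (nat_lit 252) (.e (nat_lit 57374) (nat_lit 2) (.e (nat_lit 90157) (nat_lit 11) .nil)))))) (.g (nat_lit 1) (.e (nat_lit 133756) (nat_lit 0) .nil) .nil))))) (.nd (nat_lit 8) (.nd (nat_lit 9) 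
(.lf (nat_lit 485576) (.g (nat_lit 2096) (.e (nat_lit 24609) (nat_lit 3) (.e (nat_lit 98372) (nat_lit 29) (.e (nat_lit 450579) (nat_lit 5) (.e (nat_lit 532504) (nat_lit 1) (.e (nat_lit 57777) (nat_lit 233) (.e (nat_lit 2551) (nat_lit 159) .nil)))))) (.g (nat_lit 1) (.e (nat_lit 132969) (nat_lit 0) .nil) .nil))) 
(.lf (nat_lit 486088) (.g (nat_lit 4113) (.e (nat_lit 24626) (nat_lit 9) (.e (nat_lit 336324) (nat_lit 18) (.e (nat_lit 204831) (nat_lit 18) (.e (nat_lit 57852) (nat_lit 252) .nil)))) (.g (nat_lit 0) (.e (nat_lit 133593) (nat_lit 0) .nil) .nil)))) (.nd (nat_lit 9) 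
(.lf (nat_lit 485832) (.g (nat_lit 1069) (.e (nat_lit 24617) (nat_lit 7) (.e (nat_lit 319534) (nat_lit 16) (.e (nat_lit 286749) (nat_lit 9) (.e (nat_lit 335997) (nat_lit 1) .nil)))) (.g (nat_lit 0) (.e (nat_lit 133288) (nat_lit 0) .nil) .nil))) 
(.lf (nat_lit 486344) (.g (nat_lit 2491) (.e (nat_lit 24628) (nat_lit 9) (.e (nat_lit 336443) (nat_lit 32) (.e (nat_lit 466969) (nat_lit 21) (.e (nat_lit 164326) (nat_lit 230) (.e (nat_lit 163882) (nat_lit 4) (.e (nat_lit 213031) (nat_lit 11) .nil)))))) (.g (nat_lit 1) (.e (nat_lit 133915) (nat_lit 0) .nil) .nil))))))) (.nd (nat_lit 6) (.nd (nat_lit 7) (.nd (nat_lit 8) (.nd (nat_lit 9) 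
(.lf (nat_lit 485416) (.g (nat_lit 4721) (.e (nat_lit 24608) (nat_lit 3) (.e (nat_lit 98372) (nat_lit 29) (.e (nat_lit 450588) (nat_lit 10) (.e (nat_lit 573475) (nat_lit 12) (.e (nat_lit 57574) (nat_lit 55) (.e (nat_lit 778464) (nat_lit 11) .nil)))))) (.g (nat_lit 1) (.e (nat_lit 132775) (nat_lit 0) .nil) .nil))) 
(.lf (nat_lit 485928) (.g (nat_lit 2788) (.e (nat_lit 24623) (nat_lit 9) (.e (nat_lit 336384) (nat_lit 27) (.e (nat_lit 426343) (nat_lit 14) (.e (nat_lit 491560) (nat_lit 10) (.e (nat_lit 344179) (nat_lit 44) (.e (nat_lit 778465) (nat_lit 11) .nil)))))) (.g (nat_lit 1) (.e (nat_lit 133421) (nat_lit 0) .nil) .nil)))) (.nd (nat_lit 9) 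
(.lf (nat_lit 485672) (.g (nat_lit 821) (.e (nat_lit 24616) (nat_lit 7) (.e (nat_lit 319500) (nat_lit 10) (.e (nat_lit 806) (nat_lit 67) (.e (nat_lit 712752) (nat_lit 29) .nil)))) (.g (nat_lit 0) (.e (nat_lit 133081) (nat_lit 0) .nil) .nil))) 
(.lf (nat_lit 486184) (.g (nat_lit 2955) (.e (nat_lit 24627) (nat_lit 9) (.e (nat_lit 336443) (nat_lit 32) (.e (nat_lit 466971) (nat_lit 21) (.e (nat_lit 164325) (nat_lit 230) (.e (nat_lit 163882) (nat_lit 4) (.e (nat_lit 213032) (nat_lit 11) .nil)))))) (.g (nat_lit 1) (.e (nat_lit 133714) (nat_lit 0) .nil) .nil))))) (.nd (nat_lit 8) (.nd (nat_lit 9) 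
(.lf (nat_lit 485544) (.g (nat_lit 2630) (.e (nat_lit 24609) (nat_lit 3) (.e (nat_lit 98365) (nat_lit 26) (.e (nat_lit 426187) (nat_lit 9) (.e (nat_lit 426436) (nat_lit 18) (.e (nat_lit 98339) (nat_lit 19) (.e (nat_lit 213030) (nat_lit 11) .nil)))))) (.g (nat_lit 1) (.e (nat_lit 132937) (nat_lit 0) .nil) .nil))) 
(.lf (nat_lit 486056) (.g (nat_lit 1637) (.e (nat_lit 24625) (nat_lit 9) (.e (nat_lit 336443) (nat_lit 32) (.e (nat_lit 466971) (nat_lit 21) (.e (nat_lit 164326) (nat_lit 230) (.e (nat_lit 163877) (nat_lit 4) .nil))))) (.g (nat_lit 0) (.e (nat_lit 133558) (nat_lit 0) .nil) .nil)))) (.nd (nat_lit 9) 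
(.lf (nat_lit 485800) (.g (nat_lit 3111) (.e (nat_lit 24617) (nat_lit 7) (.e (nat_lit 319533) (nat_lit 16) (.e (nat_lit 286753) (nat_lit 10) (.e (nat_lit 344160) (nat_lit 37) (.e (nat_lit 647201) (nat_lit 12) (.e (nat_lit 65280) (nat_lit 55) (.e (nat_lit 778460) (nat_lit 11) .nil))))))) (.g (nat_lit 1) (.e (nat_lit 133241) (nat_lit 0) .nil) .nil))) 
(.lf (nat_lit 486312) (.g (nat_lit 2556) (.e (nat_lit 24628) (nat_lit 9) (.e (nat_lit 336370) (nat_lit 27) (.e (nat_lit 426499) (nat_lit 27) (.e (nat_lit 335986) (nat_lit 1) (.e (nat_lit 57847) (nat_lit 252) (.e (nat_lit 57375) (nat_lit 2) (.e (nat_lit 90158) (nat_lit 11) .nil))))))) (.g (nat_lit 1) (.e (nat_lit 133868) (nat_lit 0) .nil) .nil)))))) 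
(.nd (nat_lit 7) (.nd (nat_lit 8) (.nd (nat_lit 9) 
(.lf (nat_lit 485480) (.g (nat_lit 3120) (.e (nat_lit 24608) (nat_lit 3) (.e (nat_lit 98373) (nat_lit 29) (.e (nat_lit 450587) (nat_lit 10) (.e (nat_lit 573477) (nat_lit 12) (.e (nat_lit 65280) (nat_lit 55) (.e (nat_lit 778462) (nat_lit 11) .nil)))))) (.g (nat_lit 1) (.e (nat_lit 132850) (nat_lit 0) .nil) .nil))) 
(.lf (nat_lit 485992) (.g (nat_lit 3622) (.e (nat_lit 24624) (nat_lit 9) (.e (nat_lit 336454) (nat_lit 34) (.e (nat_lit 483363) (nat_lit 18) (.e (nat_lit 57847) (nat_lit 252) (.e (nat_lit 57372) (nat_lit 2) (.e (nat_lit 90160) (nat_lit 11) .nil)))))) (.g (nat_lit 1) (.e (nat_lit 133491) (nat_lit 0) .nil) .nil)))) (.nd (nat_lit 9) 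
(.lf (nat_lit 485736) (.g (nat_lit 2614) (.e (nat_lit 24617) (nat_lit 7) (.e (nat_lit 319530) (nat_lit 16) (.e (nat_lit 286759) (nat_lit 12) (.e (nat_lit 385109) (nat_lit 51) (.e (nat_lit 794676) (nat_lit 24) .nil))))) (.g (nat_lit 0) (.e (nat_lit 133166) (nat_lit 0) .nil) .nil))) 
(.lf (nat_lit 486248) (.g (nat_lit 3319) (.e (nat_lit 24627) (nat_lit 9) (.e (nat_lit 336454) (nat_lit 34) (.e (nat_lit 483365) (nat_lit 18) (.e (nat_lit 57847) (nat_lit 252) (.e (nat_lit 57375) (nat_lit 2) (.e (nat_lit 90157) (nat_lit 11) .nil)))))) (.g (nat_lit 1) (.e (nat_lit 133788) (nat_lit 0) .nil) .nil))))) (.nd (nat_lit 8) (.nd (nat_lit 9) 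
(.lf (nat_lit 485608) (.g (nat_lit 2410) (.e (nat_lit 24609) (nat_lit 3) (.e (nat_lit 98373) (nat_lit 29) (.e (nat_lit 450587) (nat_lit 10) (.e (nat_lit 573475) (nat_lit 12) (.e (nat_lit 57346) (nat_lit 0) (.e (nat_lit 7410) (nat_lit 396) (.e (nat_lit 2556) (nat_lit 159) .nil))))))) (.g (nat_lit 1) (.e (nat_lit 133004) (nat_lit 0) .nil) .nil))) 
(.lf (nat_lit 486120) (.g (nat_lit 570) (.e (nat_lit 24627) (nat_lit 9) (.e (nat_lit 336324) (nat_lit 18) (.e (nat_lit 204831) (nat_lit 18) .nil))) (.g (nat_lit 0) (.e (nat_lit 133631) (nat_lit 0) .nil) .nil)))) (.nd (nat_lit 9) 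
(.lf (nat_lit 485864) (.g (nat_lit 2271) (.e (nat_lit 24617) (nat_lit 7) (.e (nat_lit 319534) (nat_lit 16) (.e (nat_lit 286756) (nat_lit 10) (.e (nat_lit 344169) (nat_lit 40) (.e (nat_lit 679680) (nat_lit 15) (.e (nat_lit 57612) (nat_lit 116) (.e (nat_lit 778464) (nat_lit 11) .nil))))))) (.g (nat_lit 1) (.e (nat_lit 133326) (nat_lit 0) .nil) .nil))) 
(.lf (nat_lit 486376) (.g (nat_lit 3508) (.e (nat_lit 24628) (nat_lit 9) (.e (nat_lit 336443) (nat_lit 32) (.e (nat_lit 466971) (nat_lit 21) (.e (nat_lit 164322) (nat_lit 230) (.e (nat_lit 163878) (nat_lit 4) (.e (nat_lit 213032) (nat_lit 11) .nil)))))) (.g (nat_lit 1) (.e (nat_lit 133947) (nat_lit 0) .nil) .nil)))))))) 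
(.nd (nat_lit 5) (.nd (nat_lit 6) (.nd (nat_lit 7) (.nd (nat_lit 8) (.nd (nat_lit 9) 
(.lf (nat_lit 485400) (.g (nat_lit 3883) (.e (nat_lit 24608) (nat_lit 3) (.e (nat_lit 98372) (nat_lit 29) (.e (nat_lit 450586) (nat_lit 10) (.e (nat_lit 573477) (nat_lit 12) (.e (nat_lit 57575) (nat_lit 55) (.e (nat_lit 778463) (nat_lit 11) .nil)))))) (.g (nat_lit 1) (.e (nat_lit 132759) (nat_lit 0) .nil) .nil))) 
(.lf (nat_lit 485912) (.g (nat_lit 2311) (.e (nat_lit 24617) (nat_lit 7) (.e (nat_lit 319534) (nat_lit 16) (.e (nat_lit 286759) (nat_lit 12) (.e (nat_lit 385115) (nat_lit 53) (.e (nat_lit 811034) (nat_lit 11) (.e (nat_lit 879) (nat_lit 75) (.e (nat_lit 778464) (nat_lit 11) .nil))))))) (.g (nat_lit 1) (.e (nat_lit 133380) (nat_lit 0) .nil) .nil)))) (.nd (nat_lit 9) 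
(.lf (nat_lit 485656) (.g (nat_lit 1763) (.e (nat_lit 32512) (nat_lit 3) (.e (nat_lit 98359) (nat_lit 26) (.e (nat_lit 426286) (nat_lit 10) (.e (nat_lit 434247) (nat_lit 28) (.e (nat_lit 573477) (nat_lit 12) .nil))))) (.g (nat_lit 0) (.e (nat_lit 133054) (nat_lit 0) .nil) .nil))) 
(.lf (nat_lit 486168) (.g (nat_lit 2990) (.e (nat_lit 24627) (nat_lit 9) (.e (nat_lit 336443) (nat_lit 32) (.e (nat_lit 466969) (nat_lit 21) (.e (nat_lit 164330) (nat_lit 230) (.e (nat_lit 163880) (nat_lit 4) (.e (nat_lit 213032) (nat_lit 11) .nil)))))) (.g (nat_lit 1) (.e (nat_lit 133698) (nat_lit 0) .nil) .nil))))) (.nd (nat_lit 8) (.nd (nat_lit 9) 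
(.lf (nat_lit 485528) (.g (nat_lit 1979) (.e (nat_lit 24609) (nat_lit 3) (.e (nat_lit 98358) (nat_lit 26) (.e (nat_lit 426226) (nat_lit 9) (.e (nat_lit 426438) (nat_lit 18) (.e (nat_lit 98339) (nat_lit 19) (.e (nat_lit 213032) (nat_lit 11) .nil)))))) (.g (nat_lit 1) (.e (nat_lit 132905) (nat_lit 0) .nil) .nil))) 
(.lf (nat_lit 486040) (.g (nat_lit 2512) (.e (nat_lit 24625) (nat_lit 9) (.e (nat_lit 336443) (nat_lit 32) (.e (nat_lit 466969) (nat_lit 21) (.e (nat_lit 164325) (nat_lit 230) (.e (nat_lit 163882) (nat_lit 4) (.e (nat_lit 213031) (nat_lit 11) .nil)))))) (.g (nat_lit 1) (.e (nat_lit 133542) (nat_lit 0) .nil) .nil)))) (.nd (nat_lit 9) 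
(.lf (nat_lit 485784) (.g (nat_lit 3153) (.e (nat_lit 24617) (nat_lit 7) (.e (nat_lit 319533) (nat_lit 16) (.e (nat_lit 286753) (nat_lit 10) (.e (nat_lit 344169) (nat_lit 40) (.e (nat_lit 671780) (nat_lit 12) (.e (nat_lit 164043) (nat_lit 55) (.e (nat_lit 778460) (nat_lit 11) .nil))))))) (.g (nat_lit 1) (.e (nat_lit 133225) (nat_lit 0) .nil) .nil))) 
(.lf (nat_lit 486296) (.g (nat_lit 2327) (.e (nat_lit 24628) (nat_lit 9) (.e (nat_lit 336368) (nat_lit 27) (.e (nat_lit 426501) (nat_lit 27) (.e (nat_lit 335996) (nat_lit 1) (.e (nat_lit 57852) (nat_lit 252) (.e (nat_lit 57370) (nat_lit 2) (.e (nat_lit 90158) (nat_lit 11) .nil))))))) (.g (nat_lit 1) (.e (nat_lit 133851) (nat_lit 0) .nil) .nil)))))) 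
(.nd (nat_lit 7) (.nd (nat_lit 8) (.nd (nat_lit 9) 
(.lf (nat_lit 485464) (.g (nat_lit 3394) (.e (nat_lit 24608) (nat_lit 3) (.e (nat_lit 98373) (nat_lit 29) (.e (nat_lit 450587) (nat_lit 10) (.e (nat_lit 573475) (nat_lit 12) (.e (nat_lit 57349) (nat_lit 0) (.e (nat_lit 7432) (nat_lit 396) (.e (nat_lit 2551) (nat_lit 159) .nil))))))) (.g (nat_lit 1) (.e (nat_lit 132834) (nat_lit 0) .nil) .nil))) 
(.lf (nat_lit 485976) (.g (nat_lit 2114) (.e (nat_lit 24624) (nat_lit 9) (.e (nat_lit 336443) (nat_lit 32) (.e (nat_lit 466969) (nat_lit 21) (.e (nat_lit 164327) (nat_lit 230) (.e (nat_lit 163882) (nat_lit 4) (.e (nat_lit 213030) (nat_lit 11) .nil)))))) (.g (nat_lit 1) (.e (nat_lit 133475) (nat_lit 0) .nil) .nil)))) (.nd (nat_lit 9) 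
(.lf (nat_lit 485720) (.g (nat_lit 1178) (.e (nat_lit 24617) (nat_lit 7) (.e (nat_lit 319529) (nat_lit 16) (.e (nat_lit 286759) (nat_lit 12) (.e (nat_lit 385113) (nat_lit 53) .nil)))) (.g (nat_lit 0) (.e (nat_lit 133148) (nat_lit 0) .nil) .nil))) 
(.lf (nat_lit 486232) (.g (nat_lit 3632) (.e (nat_lit 24627) (nat_lit 9) (.e (nat_lit 336454) (nat_lit 34) (.e (nat_lit 483364) (nat_lit 18) (.e (nat_lit 57852) (nat_lit 252) (.e (nat_lit 57373) (nat_lit 2) (.e (nat_lit 90159) (nat_lit 11) .nil)))))) (.g (nat_lit 1) (.e (nat_lit 133772) (nat_lit 0) .nil) .nil))))) (.nd (nat_lit 8) (.nd (nat_lit 9) 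
(.lf (nat_lit 485592) (.g (nat_lit 1593) (.e (nat_lit 24609) (nat_lit 3) (.e (nat_lit 98372) (nat_lit 29) (.e (nat_lit 450586) (nat_lit 10) (.e (nat_lit 573478) (nat_lit 12) (.e (nat_lit 57574) (nat_lit 55) (.e (nat_lit 778460) (nat_lit 11) .nil)))))) (.g (nat_lit 1) (.e (nat_lit 132985) (nat_lit 0) .nil) .nil))) 
(.lf (nat_lit 486104) (.g (nat_lit 1456) (.e (nat_lit 24626) (nat_lit 9) (.e (nat_lit 336443) (nat_lit 32) (.e (nat_lit 466972) (nat_lit 21) (.e (nat_lit 164329) (nat_lit 230) .nil)))) (.g (nat_lit 0) (.e (nat_lit 133609) (nat_lit 0) .nil) .nil)))) (.nd (nat_lit 9) 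
(.lf (nat_lit 485848) (.g (nat_lit 1326) (.e (nat_lit 24617) (nat_lit 7) (.e (nat_lit 319534) (nat_lit 16) (.e (nat_lit 286756) (nat_lit 10) (.e (nat_lit 344102) (nat_lit 18) .nil)))) (.g (nat_lit 0) (.e (nat_lit 133308) (nat_lit 0) .nil) .nil))) 
(.lf (nat_lit 486360) (.g (nat_lit 2164) (.e (nat_lit 24628) (nat_lit 9) (.e (nat_lit 336443) (nat_lit 32) (.e (nat_lit 466969) (nat_lit 21) (.e (nat_lit 164330) (nat_lit 230) (.e (nat_lit 163855) (nat_lit 0) .nil))))) (.g (nat_lit 0) (.e (nat_lit 133931) (nat_lit 0) .nil) .nil))))))) (.nd (nat_lit 6) (.nd (nat_lit 7) (.nd (nat_lit 8) (.nd (nat_lit 9) 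
(.lf (nat_lit 485432) (.g (nat_lit 3541) (.e (nat_lit 24608) (nat_lit 3) (.e (nat_lit 98373) (nat_lit 29) (.e (nat_lit 450587) (nat_lit 10) (.e (nat_lit 573472) (nat_lit 12) .nil)))) (.g (nat_lit 0) (.e (nat_lit 132802) (nat_lit 0) .nil) .nil))) 
(.lf (nat_lit 485944) (.g (nat_lit 3681) (.e (nat_lit 24623) (nat_lit 9) (.e (nat_lit 336454) (nat_lit 34) (.e (nat_lit 483365) (nat_lit 18) (.e (nat_lit 57844) (nat_lit 252) .nil)))) (.g (nat_lit 0) (.e (nat_lit 133437) (nat_lit 0) .nil) .nil)))) (.nd (nat_lit 9) 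
(.lf (nat_lit 485688) (.g (nat_lit 519) (.e (nat_lit 24616) (nat_lit 7) (.e (nat_lit 319533) (nat_lit 16) (.e (nat_lit 286753) (nat_lit 10) .nil))) (.g (nat_lit 0) (.e (nat_lit 133098) (nat_lit 0) .nil) .nil))) 
(.lf (nat_lit 486200) (.g (nat_lit 1189) (.e (nat_lit 24627) (nat_lit 9) (.e (nat_lit 336443) (nat_lit 32) (.e (nat_lit 466972) (nat_lit 21) (.e (nat_lit 164332) (nat_lit 230) .nil)))) (.g (nat_lit 0) (.e (nat_lit 133730) (nat_lit 0) .nil) .nil))))) (.nd (nat_lit 8) (.nd (nat_lit 9) 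
(.lf (nat_lit 485560) (.g (nat_lit 2615) (.e (nat_lit 24609) (nat_lit 3) (.e (nat_lit 98365) (nat_lit 26) (.e (nat_lit 426306) (nat_lit 12) (.e (nat_lit 475179) (nat_lit 24) (.e (nat_lit 516127) (nat_lit 2) (.e (nat_lit 213032) (nat_lit 11) .nil)))))) (.g (nat_lit 1) (.e (nat_lit 132953) (nat_lit 0) .nil) .nil))) 
(.lf (nat_lit 486072) (.g (nat_lit 2110) (.e (nat_lit 24625) (nat_lit 9) (.e (nat_lit 336450) (nat_lit 33) (.e (nat_lit 475152) (nat_lit 17) (.e (nat_lit 57814) (nat_lit 246) (.e (nat_lit 57596) (nat_lit 82) (.e (nat_lit 499900) (nat_lit 7) .nil)))))) (.g (nat_lit 1) (.e (nat_lit 133574) (nat_lit 0) .nil) .nil)))) (.nd (nat_lit 9) 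
(.lf (nat_lit 485816) (.g (nat_lit 2245) (.e (nat_lit 24617) (nat_lit 7) (.e (nat_lit 319533) (nat_lit 16) (.e (nat_lit 286759) (nat_lit 12) (.e (nat_lit 385107) (nat_lit 51) (.e (nat_lit 794675) (nat_lit 24) (.e (nat_lit 213030) (nat_lit 11) .nil)))))) (.g (nat_lit 1) (.e (nat_lit 133263) (nat_lit 0) .nil) .nil))) 
(.lf (nat_lit 486328) (.g (nat_lit 1616) (.e (nat_lit 24628) (nat_lit 9) (.e (nat_lit 336438) (nat_lit 31) (.e (nat_lit 458769) (nat_lit 16) (.e (nat_lit 164292) (nat_lit 224) (.e (nat_lit 164110) (nat_lit 116) (.e (nat_lit 778460) (nat_lit 11) .nil)))))) (.g (nat_lit 1) (.e (nat_lit 133898) (nat_lit 0) .nil) .nil)))))) (.nd (nat_lit 7) (.nd (nat_lit 8) (.nd (nat_lit 9) 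
(.lf (nat_lit 485496) (.g (nat_lit 5350) (.e (nat_lit 24608) (nat_lit 3) (.e (nat_lit 98373) (nat_lit 29) (.e (nat_lit 450588) (nat_lit 10) (.e (nat_lit 573474) (nat_lit 12) (.e (nat_lit 57348) (nat_lit 0) .nil))))) (.g (nat_lit 0) (.e (nat_lit 132866) (nat_lit 0) .nil) .nil))) 
(.lf (nat_lit 486008) (.g (nat_lit 4167) (.e (nat_lit 24624) (nat_lit 9) (.e (nat_lit 336454) (nat_lit 34) (.e (nat_lit 483365) (nat_lit 18) (.e (nat_lit 57854) (nat_lit 252) (.e (nat_lit 57373) (nat_lit 2) (.e (nat_lit 90160) (nat_lit 11) .nil)))))) (.g (nat_lit 1) (.e (nat_lit 133508) (nat_lit 0) .nil) .nil)))) (.nd (nat_lit 9) 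
(.lf (nat_lit 485752) (.g (nat_lit 2716) (.e (nat_lit 24617) (nat_lit 7) (.e (nat_lit 319531) (nat_lit 16) (.e (nat_lit 286759) (nat_lit 12) (.e (nat_lit 385107) (nat_lit 51) (.e (nat_lit 794674) (nat_lit 24) (.e (nat_lit 213030) (nat_lit 11) .nil)))))) (.g (nat_lit 1) (.e (nat_lit 133188) (nat_lit 0) .nil) .nil))) 
(.lf (nat_lit 486264) (.g (nat_lit 2364) (.e (nat_lit 24628) (nat_lit 9) (.e (nat_lit 336019) (nat_lit 3) (.e (nat_lit 98384) (nat_lit 32) (.e (nat_lit 475201) (nat_lit 40) (.e (nat_lit 704743) (nat_lit 12) (.e (nat_lit 57454) (nat_lit 21) (.e (nat_lit 499902) (nat_lit 7) .nil))))))) (.g (nat_lit 1) (.e (nat_lit 133815) (nat_lit 0) .nil) .nil))))) (.nd (nat_lit 8) (.nd (nat_lit 9) 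
(.lf (nat_lit 485624) (.g (nat_lit 4492) (.e (nat_lit 24609) (nat_lit 3) (.e (nat_lit 98373) (nat_lit 29) (.e (nat_lit 450587) (nat_lit 10) (.e (nat_lit 573477) (nat_lit 12) (.e (nat_lit 57575) (nat_lit 55) (.e (nat_lit 778463) (nat_lit 11) .nil)))))) (.g (nat_lit 1) (.e (nat_lit 133020) (nat_lit 0) .nil) .nil))) 
(.lf (nat_lit 486136) (.g (nat_lit 4614) (.e (nat_lit 24627) (nat_lit 9) (.e (nat_lit 336324) (nat_lit 18) (.e (nat_lit 204831) (nat_lit 18) (.e (nat_lit 57854) (nat_lit 252) (.e (nat_lit 57440) (nat_lit 18) (.e (nat_lit 392960) (nat_lit 10) .nil)))))) (.g (nat_lit 1) (.e (nat_lit 133649) (nat_lit 0) .nil) .nil)))) (.nd (nat_lit 9) 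
(.lf (nat_lit 485880) (.g (nat_lit 1713) (.e (nat_lit 24617) (nat_lit 7) (.e (nat_lit 319534) (nat_lit 16) (.e (nat_lit 286756) (nat_lit 10) (.e (nat_lit 344160) (nat_lit 37) (.e (nat_lit 647196) (nat_lit 9) .nil))))) (.g (nat_lit 0) (.e (nat_lit 133342) (nat_lit 0) .nil) .nil))) 
(.lf (nat_lit 486392) (.g (nat_lit 3151) (.e (nat_lit 24628) (nat_lit 9) (.e (nat_lit 336443) (nat_lit 32) (.e (nat_lit 466971) (nat_lit 21) (.e (nat_lit 164327) (nat_lit 230) (.e (nat_lit 163879) (nat_lit 4) (.e (nat_lit 213032) (nat_lit 11) .nil)))))) (.g (nat_lit 1) (.e (nat_lit 133963) (nat_lit 0) .nil) .nil)))))))))) 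
(.nd (nat_lit 3) (.nd (nat_lit 4) (.nd (nat_lit 5) (.nd (nat_lit 6) (.nd (nat_lit 7) 
(.nd (nat_lit 8) (.nd (nat_lit 9) 
(.lf (nat_lit 485380) (.g (nat_lit 2452) (.e (nat_lit 24608) (nat_lit 3) (.e (nat_lit 98369) (nat_lit 28) (.e (nat_lit 442374) (nat_lit 0) (.e (nat_lit 1800) (nat_lit 119) (.e (nat_lit 516126) (nat_lit 2) (.e (nat_lit 213032) (nat_lit 11) .nil)))))) (.g (nat_lit 1) (.e (nat_lit 132738) (nat_lit 0) .nil) .nil))) 
(.lf (nat_lit 485892) (.g (nat_lit 3786) (.e (nat_lit 24617) (nat_lit 7) (.e (nat_lit 319534) (nat_lit 16) (.e (nat_lit 286756) (nat_lit 10) (.e (nat_lit 344160) (nat_lit 37) (.e (nat_lit 647201) (nat_lit 12) (.e (nat_lit 57575) (nat_lit 55) (.e (nat_lit 778464) (nat_lit 11) .nil))))))) (.g (nat_lit 1) (.e (nat_lit 133354) (nat_lit 0) .nil) .nil)))) (.nd (nat_lit 9) 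
(.lf (nat_lit 485636) (.g (nat_lit 3226) (.e (nat_lit 24609) (nat_lit 3) (.e (nat_lit 98373) (nat_lit 29) (.e (nat_lit 450588) (nat_lit 10) (.e (nat_lit 573454) (nat_lit 9) .nil)))) (.g (nat_lit 0) (.e (nat_lit 133032) (nat_lit 0) .nil) .nil))) 
(.lf (nat_lit 486148) (.g (nat_lit 2296) (.e (nat_lit 24627) (nat_lit 9) (.e (nat_lit 336377) (nat_lit 27) (.e (nat_lit 426524) (nat_lit 27) (.e (nat_lit 335995) (nat_lit 1) (.e (nat_lit 57848) (nat_lit 252) (.e (nat_lit 57372) (nat_lit 2) (.e (nat_lit 90159) (nat_lit 11) .nil))))))) (.g (nat_lit 1) (.e (nat_lit 133673) (nat_lit 0) .nil) .nil))))) (.nd (nat_lit 8) (.nd (nat_lit 9) 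
(.lf (nat_lit 485508) (.g (nat_lit 4079) (.e (nat_lit 24608) (nat_lit 3) (.e (nat_lit 98373) (nat_lit 29) (.e (nat_lit 450588) (nat_lit 10) (.e (nat_lit 573495) (nat_lit 16) .nil)))) (.g (nat_lit 0) (.e (nat_lit 132878) (nat_lit 0) .nil) .nil))) 
(.lf (nat_lit 486020) (.g (nat_lit 2512) (.e (nat_lit 24624) (nat_lit 9) (.e (nat_lit 336456) (nat_lit 34) (.e (nat_lit 483365) (nat_lit 18) (.e (nat_lit 57846) (nat_lit 252) (.e (nat_lit 57371) (nat_lit 2) .nil))))) (.g (nat_lit 0) (.e (nat_lit 133520) (nat_lit 0) .nil) .nil)))) (.nd (nat_lit 9) 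
(.lf (nat_lit 485764) (.g (nat_lit 1134) (.e (nat_lit 24617) (nat_lit 7) (.e (nat_lit 319532) (nat_lit 16) (.e (nat_lit 286759) (nat_lit 12) (.e (nat_lit 385093) (nat_lit 49) .nil)))) (.g (nat_lit 0) (.e (nat_lit 133201) (nat_lit 0) .nil) .nil))) 
(.lf (nat_lit 486276) (.g (nat_lit 4010) (.e (nat_lit 24628) (nat_lit 9) (.e (nat_lit 336324) (nat_lit 18) (.e (nat_lit 204831) (nat_lit 18) (.e (nat_lit 57853) (nat_lit 252) .nil)))) (.g (nat_lit 0) (.e (nat_lit 133830) (nat_lit 0) .nil) .nil)))))) (.nd (nat_lit 7) (.nd (nat_lit 8) (.nd (nat_lit 9) 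
(.lf (nat_lit 485444) (.g (nat_lit 2979) (.e (nat_lit 24608) (nat_lit 3) (.e (nat_lit 98373) (nat_lit 29) (.e (nat_lit 450587) (nat_lit 10) (.e (nat_lit 573475) (nat_lit 12) (.e (nat_lit 57346) (nat_lit 0) (.e (nat_lit 7408) (nat_lit 396) (.e (nat_lit 2551) (nat_lit 159) .nil))))))) (.g (nat_lit 1) (.e (nat_lit 132814) (nat_lit 0) .nil) .nil))) 
(.lf (nat_lit 485956) (.g (nat_lit 3613) (.e (nat_lit 24623) (nat_lit 9) (.e (nat_lit 336456) (nat_lit 34) (.e (nat_lit 483363) (nat_lit 18) (.e (nat_lit 57854) (nat_lit 252) (.e (nat_lit 57371) (nat_lit 2) (.e (nat_lit 90160) (nat_lit 11) .nil)))))) (.g (nat_lit 1) (.e (nat_lit 133450) (nat_lit 0) .nil) .nil)))) (.nd (nat_lit 9) 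
(.lf (nat_lit 485700) (.g (nat_lit 869) (.e (nat_lit 24617) (nat_lit 7) (.e (nat_lit 319528) (nat_lit 16) (.e (nat_lit 286759) (nat_lit 12) (.e (nat_lit 385094) (nat_lit 49) .nil)))) (.g (nat_lit 0) (.e (nat_lit 133122) (nat_lit 0) .nil) .nil))) 
(.lf (nat_lit 486212) (.g (nat_lit 3398) (.e (nat_lit 24627) (nat_lit 9) (.e (nat_lit 336454) (nat_lit 34) (.e (nat_lit 483363) (nat_lit 18) (.e (nat_lit 57847) (nat_lit 252) (.e (nat_lit 57371) (nat_lit 2) (.e (nat_lit 90159) (nat_lit 11) .nil)))))) (.g (nat_lit 1) (.e (nat_lit 133752) (nat_lit 0) .nil) .nil))))) (.nd (nat_lit 8) (.nd (nat_lit 9) 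
(.lf (nat_lit 485572) (.g (nat_lit 2172) (.e (nat_lit 24609) (nat_lit 3) (.e (nat_lit 98372) (nat_lit 29) (.e (nat_lit 450579) (nat_lit 5) (.e (nat_lit 532501) (nat_lit 1) (.e (nat_lit 57777) (nat_lit 233) (.e (nat_lit 2551) (nat_lit 159) .nil)))))) (.g (nat_lit 1) (.e (nat_lit 132965) (nat_lit 0) .nil) .nil))) 
(.lf (nat_lit 486084) (.g (nat_lit 587) (.e (nat_lit 24626) (nat_lit 9) (.e (nat_lit 336324) (nat_lit 18) (.e (nat_lit 204831) (nat_lit 18) .nil))) (.g (nat_lit 0) (.e (nat_lit 133588) (nat_lit 0) .nil) .nil)))) (.nd (nat_lit 9) 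
(.lf (nat_lit 485828) (.g (nat_lit 404) (.e (nat_lit 24617) (nat_lit 7) (.e (nat_lit 319534) (nat_lit 16) (.e (nat_lit 286749) (nat_lit 9) .nil))) (.g (nat_lit 0) (.e (nat_lit 133284) (nat_lit 0) .nil) .nil))) 
(.lf (nat_lit 486340) (.g (nat_lit 2919) (.e (nat_lit 24628) (nat_lit 9) (.e (nat_lit 336443) (nat_lit 32) (.e (nat_lit 466969) (nat_lit 21) (.e (nat_lit 164325) (nat_lit 230) (.e (nat_lit 163881) (nat_lit 4) (.e (nat_lit 213030) (nat_lit 11) .nil)))))) (.g (nat_lit 1) (.e (nat_lit 133911) (nat_lit 0) .nil) .nil))))))) (.nd (nat_lit 6) (.nd (nat_lit 7) (.nd (nat_lit 8) (.nd (nat_lit 9) 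
(.lf (nat_lit 485412) (.g (nat_lit 3450) (.e (nat_lit 24608) (nat_lit 3) (.e (nat_lit 98372) (nat_lit 29) (.e (nat_lit 450588) (nat_lit 10) (.e (nat_lit 573473) (nat_lit 12) (.e (nat_lit 65280) (nat_lit 55) .nil))))) (.g (nat_lit 0) (.e (nat_lit 132771) (nat_lit 0) .nil) .nil))) 
(.lf (nat_lit 485924) (.g (nat_lit 2061) (.e (nat_lit 24623) (nat_lit 9) (.e (nat_lit 336013) (nat_lit 2) (.e (nat_lit 98048) (nat_lit 2) (.e (nat_lit 16461) (nat_lit 12) (.e (nat_lit 483072) (nat_lit 2) .nil))))) (.g (nat_lit 1) (.e (nat_lit 133417) (nat_lit 0) .nil) .nil)))) (.nd (nat_lit 9) 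
(.lf (nat_lit 485668) (.g (nat_lit 3113) (.e (nat_lit 32512) (nat_lit 3) (.e (nat_lit 98373) (nat_lit 29) (.e (nat_lit 450588) (nat_lit 10) (.e (nat_lit 573454) (nat_lit 9) .nil)))) (.g (nat_lit 0) (.e (nat_lit 133066) (nat_lit 0) .nil) .nil))) 
(.lf (nat_lit 486180) (.g (nat_lit 929) (.e (nat_lit 24627) (nat_lit 9) (.e (nat_lit 336443) (nat_lit 32) (.e (nat_lit 466970) (nat_lit 21) .nil))) (.g (nat_lit 0) (.e (nat_lit 133710) (nat_lit 0) .nil) .nil))))) (.nd (nat_lit 8) (.nd (nat_lit 9) 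
(.lf (nat_lit 485540) (.g (nat_lit 2731) (.e (nat_lit 24609) (nat_lit 3) (.e (nat_lit 98358) (nat_lit 26) (.e (nat_lit 426320) (nat_lit 12) (.e (nat_lit 475179) (nat_lit 24) (.e (nat_lit 516127) (nat_lit 2) (.e (nat_lit 213030) (nat_lit 11) .nil)))))) (.g (nat_lit 1) (.e (nat_lit 132919) (nat_lit 0) .nil) .nil))) 
(.lf (nat_lit 486052) (.g (nat_lit 1973) (.e (nat_lit 24625) (nat_lit 9) (.e (nat_lit 336443) (nat_lit 32) (.e (nat_lit 466971) (nat_lit 21) (.e (nat_lit 164324) (nat_lit 230) (.e (nat_lit 163877) (nat_lit 4) (.e (nat_lit 213032) (nat_lit 11) .nil)))))) (.g (nat_lit 1) (.e (nat_lit 133554) (nat_lit 0) .nil) .nil)))) (.nd (nat_lit 9) 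
(.lf (nat_lit 485796) (.g (nat_lit 3423) (.e (nat_lit 24617) (nat_lit 7) (.e (nat_lit 319533) (nat_lit 16) (.e (nat_lit 286753) (nat_lit 10) (.e (nat_lit 344160) (nat_lit 37) (.e (nat_lit 647195) (nat_lit 9) (.e (nat_lit 1015) (nat_lit 81) (.e (nat_lit 2328) (nat_lit 151) (.e (nat_lit 778464) (nat_lit 11) .nil)))))))) (.g (nat_lit 1) (.e (nat_lit 133237) (nat_lit 0) .nil) .nil))) 
(.lf (nat_lit 486308) (.g (nat_lit 2477) (.e (nat_lit 24628) (nat_lit 9) (.e (nat_lit 336370) (nat_lit 27) (.e (nat_lit 426501) (nat_lit 27) (.e (nat_lit 335996) (nat_lit 1) (.e (nat_lit 57852) (nat_lit 252) (.e (nat_lit 57370) (nat_lit 2) (.e (nat_lit 90158) (nat_lit 11) .nil))))))) (.g (nat_lit 1) (.e (nat_lit 133864) (nat_lit 0) .nil) .nil)))))) 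
(.nd (nat_lit 7) (.nd (nat_lit 8) (.nd (nat_lit 9) 
(.lf (nat_lit 485476) (.g (nat_lit 4378) (.e (nat_lit 24608) (nat_lit 3) (.e (nat_lit 98373) (nat_lit 29) (.e (nat_lit 450587) (nat_lit 10) (.e (nat_lit 573477) (nat_lit 12) (.e (nat_lit 57575) (nat_lit 55) (.e (nat_lit 778463) (nat_lit 11) .nil)))))) (.g (nat_lit 1) (.e (nat_lit 132846) (nat_lit 0) .nil) .nil))) 
(.lf (nat_lit 485988) (.g (nat_lit 2967) (.e (nat_lit 24624) (nat_lit 9) (.e (nat_lit 336443) (nat_lit 32) (.e (nat_lit 466972) (nat_lit 21) (.e (nat_lit 164332) (nat_lit 230) (.e (nat_lit 163878) (nat_lit 4) (.e (nat_lit 213030) (nat_lit 11) .nil)))))) (.g (nat_lit 1) (.e (nat_lit 133487) (nat_lit 0) .nil) .nil)))) (.nd (nat_lit 9) 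
(.lf (nat_lit 485732) (.g (nat_lit 2223) (.e (nat_lit 24617) (nat_lit 7) (.e (nat_lit 319530) (nat_lit 16) (.e (nat_lit 286759) (nat_lit 12) (.e (nat_lit 385107) (nat_lit 51) (.e (nat_lit 794675) (nat_lit 24) (.e (nat_lit 213030) (nat_lit 11) .nil)))))) (.g (nat_lit 1) (.e (nat_lit 133162) (nat_lit 0) .nil) .nil))) 
(.lf (nat_lit 486244) (.g (nat_lit 3701) (.e (nat_lit 24627) (nat_lit 9) (.e (nat_lit 336454) (nat_lit 34) (.e (nat_lit 483365) (nat_lit 18) (.e (nat_lit 57847) (nat_lit 252) (.e (nat_lit 57373) (nat_lit 2) (.e (nat_lit 90159) (nat_lit 11) .nil)))))) (.g (nat_lit 1) (.e (nat_lit 133784) (nat_lit 0) .nil) .nil))))) (.nd (nat_lit 8) (.nd (nat_lit 9) 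
(.lf (nat_lit 485604) (.g (nat_lit 1749) (.e (nat_lit 24609) (nat_lit 3) (.e (nat_lit 98373) (nat_lit 29) (.e (nat_lit 450587) (nat_lit 10) (.e (nat_lit 573473) (nat_lit 12) .nil)))) (.g (nat_lit 0) (.e (nat_lit 133000) (nat_lit 0) .nil) .nil))) 
(.lf (nat_lit 486116) (.g (nat_lit 1822) (.e (nat_lit 24627) (nat_lit 9) (.e (nat_lit 336019) (nat_lit 3) (.e (nat_lit 106240) (nat_lit 16) (.e (nat_lit 401454) (nat_lit 12) (.e (nat_lit 483072) (nat_lit 2) .nil))))) (.g (nat_lit 1) (.e (nat_lit 133625) (nat_lit 0) .nil) .nil)))) (.nd (nat_lit 9) 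
(.lf (nat_lit 485860) (.g (nat_lit 2438) (.e (nat_lit 24617) (nat_lit 7) (.e (nat_lit 319534) (nat_lit 16) (.e (nat_lit 286756) (nat_lit 10) (.e (nat_lit 344169) (nat_lit 40) (.e (nat_lit 671781) (nat_lit 12) (.e (nat_lit 164050) (nat_lit 55) (.e (nat_lit 778464) (nat_lit 11) .nil))))))) (.g (nat_lit 1) (.e (nat_lit 133322) (nat_lit 0) .nil) .nil))) 
(.lf (nat_lit 486372) (.g (nat_lit 3086) (.e (nat_lit 24628) (nat_lit 9) (.e (nat_lit 336443) (nat_lit 32) (.e (nat_lit 466969) (nat_lit 21) (.e (nat_lit 164332) (nat_lit 230) (.e (nat_lit 163877) (nat_lit 4) (.e (nat_lit 213032) (nat_lit 11) .nil)))))) (.g (nat_lit 1) (.e (nat_lit 133943) (nat_lit 0) .nil) .nil)))))))) 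
(.nd (nat_lit 5) (.nd (nat_lit 6) (.nd (nat_lit 7) (.nd (nat_lit 8) (.nd (nat_lit 9) 
(.lf (nat_lit 485396) (.g (nat_lit 2678) (.e (nat_lit 24608) (nat_lit 3) (.e (nat_lit 98372) (nat_lit 29) (.e (nat_lit 450586) (nat_lit 10) (.e (nat_lit 573477) (nat_lit 12) (.e (nat_lit 57574) (nat_lit 55) (.e (nat_lit 778460) (nat_lit 11) .nil)))))) (.g (nat_lit 1) (.e (nat_lit 132755) (nat_lit 0) .nil) .nil))) 
(.lf (nat_lit 485908) (.g (nat_lit 1210) (.e (nat_lit 24617) (nat_lit 7) (.e (nat_lit 319534) (nat_lit 16) (.e (nat_lit 286759) (nat_lit 12) (.e (nat_lit 385113) (nat_lit 53) .nil)))) (.g (nat_lit 0) (.e (nat_lit 133376) (nat_lit 0) .nil) .nil)))) (.nd (nat_lit 9) 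
(.lf (nat_lit 485652) (.g (nat_lit 2177) (.e (nat_lit 24609) (nat_lit 3) (.e (nat_lit 98380) (nat_lit 31) (.e (nat_lit 466947) (nat_lit 0) (.e (nat_lit 1800) (nat_lit 119) (.e (nat_lit 516127) (nat_lit 2) (.e (nat_lit 213032) (nat_lit 11) .nil)))))) (.g (nat_lit 1) (.e (nat_lit 133050) (nat_lit 0) .nil) .nil))) 
(.lf (nat_lit 486164) (.g (nat_lit 1705) (.e (nat_lit 24627) (nat_lit 9) (.e (nat_lit 336443) (nat_lit 32) (.e (nat_lit 466969) (nat_lit 21) (.e (nat_lit 164329) (nat_lit 230) (.e (nat_lit 163850) (nat_lit 0) .nil))))) (.g (nat_lit 0) (.e (nat_lit 133694) (nat_lit 0) .nil) .nil))))) (.nd (nat_lit 8) (.nd (nat_lit 9) 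
(.lf (nat_lit 485524) (.g (nat_lit 3651) (.e (nat_lit 24608) (nat_lit 3) (.e (nat_lit 98389) (nat_lit 33) (.e (nat_lit 491563) (nat_lit 12) (.e (nat_lit 385068) (nat_lit 26) .nil)))) (.g (nat_lit 0) (.e (nat_lit 132898) (nat_lit 0) .nil) .nil))) 
(.lf (nat_lit 486036) (.g (nat_lit 2455) (.e (nat_lit 24625) (nat_lit 9) (.e (nat_lit 336443) (nat_lit 32) (.e (nat_lit 466969) (nat_lit 21) (.e (nat_lit 164322) (nat_lit 230) (.e (nat_lit 163878) (nat_lit 4) (.e (nat_lit 213030) (nat_lit 11) .nil)))))) (.g (nat_lit 1) (.e (nat_lit 133538) (nat_lit 0) .nil) .nil)))) (.nd (nat_lit 9) 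
(.lf (nat_lit 485780) (.g (nat_lit 1167) (.e (nat_lit 24617) (nat_lit 7) (.e (nat_lit 319533) (nat_lit 16) (.e (nat_lit 286753) (nat_lit 10) (.e (nat_lit 344169) (nat_lit 40) .nil)))) (.g (nat_lit 0) (.e (nat_lit 133220) (nat_lit 0) .nil) .nil))) 
(.lf (nat_lit 486292) (.g (nat_lit 2775) (.e (nat_lit 24628) (nat_lit 9) (.e (nat_lit 336366) (nat_lit 27) (.e (nat_lit 426499) (nat_lit 27) (.e (nat_lit 335986) (nat_lit 1) (.e (nat_lit 57847) (nat_lit 252) (.e (nat_lit 57375) (nat_lit 2) (.e (nat_lit 90158) (nat_lit 11) .nil))))))) (.g (nat_lit 1) (.e (nat_lit 133847) (nat_lit 0) .nil) .nil)))))) 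
(.nd (nat_lit 7) (.nd (nat_lit 8) (.nd (nat_lit 9) 
(.lf (nat_lit 485460) (.g (nat_lit 3339) (.e (nat_lit 24608) (nat_lit 3) (.e (nat_lit 98373) (nat_lit 29) (.e (nat_lit 450587) (nat_lit 10) (.e (nat_lit 573475) (nat_lit 12) (.e (nat_lit 57346) (nat_lit 0) (.e (nat_lit 7461) (nat_lit 396) (.e (nat_lit 2551) (nat_lit 159) .nil))))))) (.g (nat_lit 1) (.e (nat_lit 132830) (nat_lit 0) .nil) .nil))) 
(.lf (nat_lit 485972) (.g (nat_lit 2989) (.e (nat_lit 24624) (nat_lit 9) (.e (nat_lit 336370) (nat_lit 27) (.e (nat_lit 426499) (nat_lit 27) (.e (nat_lit 335986) (nat_lit 1) (.e (nat_lit 57847) (nat_lit 252) (.e (nat_lit 57372) (nat_lit 2) (.e (nat_lit 90160) (nat_lit 11) .nil))))))) (.g (nat_lit 1) (.e (nat_lit 133467) (nat_lit 0) .nil) .nil)))) (.nd (nat_lit 9) 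
(.lf (nat_lit 485716) (.g (nat_lit 1086) (.e (nat_lit 24617) (nat_lit 7) (.e (nat_lit 319529) (nat_lit 16) (.e (nat_lit 286759) (nat_lit 12) (.e (nat_lit 385093) (nat_lit 49) .nil)))) (.g (nat_lit 0) (.e (nat_lit 133143) (nat_lit 0) .nil) .nil))) 
(.lf (nat_lit 486228) (.g (nat_lit 4382) (.e (nat_lit 24627) (nat_lit 9) (.e (nat_lit 336454) (nat_lit 34) (.e (nat_lit 483363) (nat_lit 18) (.e (nat_lit 57854) (nat_lit 252) (.e (nat_lit 57373) (nat_lit 2) (.e (nat_lit 90159) (nat_lit 11) .nil)))))) (.g (nat_lit 1) (.e (nat_lit 133768) (nat_lit 0) .nil) .nil))))) (.nd (nat_lit 8) (.nd (nat_lit 9) 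
(.lf (nat_lit 485588) (.g (nat_lit 2933) (.e (nat_lit 24609) (nat_lit 3) (.e (nat_lit 98372) (nat_lit 29) (.e (nat_lit 450586) (nat_lit 10) (.e (nat_lit 573477) (nat_lit 12) (.e (nat_lit 57574) (nat_lit 55) (.e (nat_lit 778465) (nat_lit 11) .nil)))))) (.g (nat_lit 1) (.e (nat_lit 132981) (nat_lit 0) .nil) .nil))) 
(.lf (nat_lit 486100) (.g (nat_lit 2092) (.e (nat_lit 24626) (nat_lit 9) (.e (nat_lit 336443) (nat_lit 32) (.e (nat_lit 466971) (nat_lit 21) (.e (nat_lit 164326) (nat_lit 230) (.e (nat_lit 163882) (nat_lit 4) (.e (nat_lit 213031) (nat_lit 11) .nil)))))) (.g (nat_lit 1) (.e (nat_lit 133605) (nat_lit 0) .nil) .nil)))) (.nd (nat_lit 9) 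
(.lf (nat_lit 485844) (.g (nat_lit 1284) (.e (nat_lit 24617) (nat_lit 7) (.e (nat_lit 319534) (nat_lit 16) (.e (nat_lit 286756) (nat_lit 10) (.e (nat_lit 344090) (nat_lit 18) .nil)))) (.g (nat_lit 0) (.e (nat_lit 133302) (nat_lit 0) .nil) .nil))) 
(.lf (nat_lit 486356) (.g (nat_lit 2302) (.e (nat_lit 24628) (nat_lit 9) (.e (nat_lit 336443) (nat_lit 32) (.e (nat_lit 466969) (nat_lit 21) (.e (nat_lit 164330) (nat_lit 230) (.e (nat_lit 163843) (nat_lit 0) .nil))))) (.g (nat_lit 0) (.e (nat_lit 133927) (nat_lit 0) .nil) .nil))))))) (.nd (nat_lit 6) (.nd (nat_lit 7) (.nd (nat_lit 8) (.nd (nat_lit 9) 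
(.lf (nat_lit 485428) (.g (nat_lit 3116) (.e (nat_lit 24608) (nat_lit 3) (.e (nat_lit 98373) (nat_lit 29) (.e (nat_lit 450586) (nat_lit 10) (.e (nat_lit 573477) (nat_lit 12) (.e (nat_lit 57574) (nat_lit 55) (.e (nat_lit 778466) (nat_lit 11) .nil)))))) (.g (nat_lit 1) (.e (nat_lit 132798) (nat_lit 0) .nil) .nil))) 
(.lf (nat_lit 485940) (.g (nat_lit 3462) (.e (nat_lit 24623) (nat_lit 9) (.e (nat_lit 336454) (nat_lit 34) (.e (nat_lit 483363) (nat_lit 18) (.e (nat_lit 57847) (nat_lit 252) (.e (nat_lit 57372) (nat_lit 2) (.e (nat_lit 90160) (nat_lit 11) .nil)))))) (.g (nat_lit 1) (.e (nat_lit 133433) (nat_lit 0) .nil) .nil)))) (.nd (nat_lit 9) 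
(.lf (nat_lit 485684) (.g (nat_lit 1966) (.e (nat_lit 24616) (nat_lit 7) (.e (nat_lit 319531) (nat_lit 16) (.e (nat_lit 286748) (nat_lit 9) (.e (nat_lit 343808) (nat_lit 20) .nil)))) (.g (nat_lit 0) (.e (nat_lit 133094) (nat_lit 0) .nil) .nil))) 
(.lf (nat_lit 486196) (.g (nat_lit 2763) (.e (nat_lit 24627) (nat_lit 9) (.e (nat_lit 336443) (nat_lit 32) (.e (nat_lit 466972) (nat_lit 21) (.e (nat_lit 164330) (nat_lit 230) (.e (nat_lit 163878) (nat_lit 4) (.e (nat_lit 213032) (nat_lit 11) .nil)))))) (.g (nat_lit 1) (.e (nat_lit 133726) (nat_lit 0) .nil) .nil))))) (.nd (nat_lit 8) (.nd (nat_lit 9) 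
(.lf (nat_lit 485556) (.g (nat_lit 2153) (.e (nat_lit 24609) (nat_lit 3) (.e (nat_lit 98365) (nat_lit 26) (.e (nat_lit 426306) (nat_lit 12) (.e (nat_lit 475178) (nat_lit 24) (.e (nat_lit 516126) (nat_lit 2) (.e (nat_lit 213032) (nat_lit 11) .nil)))))) (.g (nat_lit 1) (.e (nat_lit 132949) (nat_lit 0) .nil) .nil))) 
(.lf (nat_lit 486068) (.g (nat_lit 3105) (.e (nat_lit 24625) (nat_lit 9) (.e (nat_lit 336443) (nat_lit 32) (.e (nat_lit 466972) (nat_lit 21) (.e (nat_lit 164332) (nat_lit 230) (.e (nat_lit 163852) (nat_lit 0) (.e (nat_lit 3721) (nat_lit 227) (.e (nat_lit 778464) (nat_lit 11) .nil))))))) (.g (nat_lit 1) (.e (nat_lit 133570) (nat_lit 0) .nil) .nil)))) (.nd (nat_lit 9) 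
(.lf (nat_lit 485812) (.g (nat_lit 1189) (.e (nat_lit 24617) (nat_lit 7) (.e (nat_lit 319533) (nat_lit 16) (.e (nat_lit 286759) (nat_lit 12) (.e (nat_lit 385094) (nat_lit 49) .nil)))) (.g (nat_lit 0) (.e (nat_lit 133257) (nat_lit 0) .nil) .nil))) 
(.lf (nat_lit 486324) (.g (nat_lit 3513) (.e (nat_lit 24628) (nat_lit 9) (.e (nat_lit 336414) (nat_lit 27) (.e (nat_lit 426503) (nat_lit 27) (.e (nat_lit 335986) (nat_lit 1) (.e (nat_lit 57849) (nat_lit 252) (.e (nat_lit 57375) (nat_lit 2) (.e (nat_lit 90158) (nat_lit 11) .nil))))))) (.g (nat_lit 1) (.e (nat_lit 133891) (nat_lit 0) .nil) .nil)))))) 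
(.nd (nat_lit 7) (.nd (nat_lit 8) (.nd (nat_lit 9) 
(.lf (nat_lit 485492) (.g (nat_lit 4358) (.e (nat_lit 24608) (nat_lit 3) (.e (nat_lit 98373) (nat_lit 29) (.e (nat_lit 450588) (nat_lit 10) (.e (nat_lit 573459) (nat_lit 9) .nil)))) (.g (nat_lit 0) (.e (nat_lit 132862) (nat_lit 0) .nil) .nil))) 
(.lf (nat_lit 486004) (.g (nat_lit 2762) (.e (nat_lit 24624) (nat_lit 9) (.e (nat_lit 336454) (nat_lit 34) (.e (nat_lit 483365) (nat_lit 18) (.e (nat_lit 57846) (nat_lit 252) (.e (nat_lit 57375) (nat_lit 2) .nil))))) (.g (nat_lit 0) (.e (nat_lit 133503) (nat_lit 0) .nil) .nil)))) (.nd (nat_lit 9) 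
(.lf (nat_lit 485748) (.g (nat_lit 2736) (.e (nat_lit 24617) (nat_lit 7) (.e (nat_lit 319531) (nat_lit 16) (.e (nat_lit 286759) (nat_lit 12) (.e (nat_lit 385094) (nat_lit 49) (.e (nat_lit 778336) (nat_lit 9) .nil))))) (.g (nat_lit 0) (.e (nat_lit 133178) (nat_lit 0) .nil) .nil))) 
(.lf (nat_lit 486260) (.g (nat_lit 795) (.e (nat_lit 24627) (nat_lit 9) (.e (nat_lit 336456) (nat_lit 34) (.e (nat_lit 483366) (nat_lit 18) .nil))) (.g (nat_lit 0) (.e (nat_lit 133802) (nat_lit 0) .nil) .nil))))) (.nd (nat_lit 8) (.nd (nat_lit 9) 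
(.lf (nat_lit 485620) (.g (nat_lit 3920) (.e (nat_lit 24609) (nat_lit 3) (.e (nat_lit 98373) (nat_lit 29) (.e (nat_lit 450587) (nat_lit 10) (.e (nat_lit 573477) (nat_lit 12) (.e (nat_lit 57574) (nat_lit 55) (.e (nat_lit 778463) (nat_lit 11) .nil)))))) (.g (nat_lit 1) (.e (nat_lit 133016) (nat_lit 0) .nil) .nil))) 
(.lf (nat_lit 486132) (.g (nat_lit 5652) (.e (nat_lit 24627) (nat_lit 9) (.e (nat_lit 336324) (nat_lit 18) (.e (nat_lit 204831) (nat_lit 18) (.e (nat_lit 57852) (nat_lit 252) (.e (nat_lit 57442) (nat_lit 18) (.e (nat_lit 392960) (nat_lit 10) .nil)))))) (.g (nat_lit 1) (.e (nat_lit 133645) (nat_lit 0) .nil) .nil)))) (.nd (nat_lit 9) 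
(.lf (nat_lit 485876) (.g (nat_lit 3184) (.e (nat_lit 24617) (nat_lit 7) (.e (nat_lit 319534) (nat_lit 16) (.e (nat_lit 286756) (nat_lit 10) (.e (nat_lit 344160) (nat_lit 37) (.e (nat_lit 647190) (nat_lit 9) (.e (nat_lit 1036) (nat_lit 81) (.e (nat_lit 2346) (nat_lit 151) (.e (nat_lit 778466) (nat_lit 11) .nil)))))))) (.g (nat_lit 1) (.e (nat_lit 133338) (nat_lit 0) .nil) .nil))) 
(.lf (nat_lit 486388) (.g (nat_lit 2590) (.e (nat_lit 24628) (nat_lit 9) (.e (nat_lit 336443) (nat_lit 32) (.e (nat_lit 466971) (nat_lit 21) (.e (nat_lit 164326) (nat_lit 230) (.e (nat_lit 163882) (nat_lit 4) (.e (nat_lit 213031) (nat_lit 11) .nil)))))) (.g (nat_lit 1) (.e (nat_lit 133959) (nat_lit 0) .nil) .nil))))))))) 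
(.nd (nat_lit 4) (.nd (nat_lit 5) (.nd (nat_lit 6) (.nd (nat_lit 7) (.nd (nat_lit 8) 
(.nd (nat_lit 9) 
(.lf (nat_lit 485388) (.g (nat_lit 2909) (.e (nat_lit 24608) (nat_lit 3) (.e (nat_lit 98372) (nat_lit 29) (.e (nat_lit 450579) (nat_lit 5) (.e (nat_lit 532503) (nat_lit 1) (.e (nat_lit 57778) (nat_lit 233) (.e (nat_lit 2551) (nat_lit 159) .nil)))))) (.g (nat_lit 1) (.e (nat_lit 132747) (nat_lit 0) .nil) .nil))) 
(.lf (nat_lit 485900) (.g (nat_lit 1256) (.e (nat_lit 24617) (nat_lit 7) (.e (nat_lit 319534) (nat_lit 16) (.e (nat_lit 286759) (nat_lit 12) (.e (nat_lit 385092) (nat_lit 49) .nil)))) (.g (nat_lit 0) (.e (nat_lit 133363) (nat_lit 0) .nil) .nil)))) (.nd (nat_lit 9) 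
(.lf (nat_lit 485644) (.g (nat_lit 5161) (.e (nat_lit 24609) (nat_lit 3) (.e (nat_lit 98373) (nat_lit 29) (.e (nat_lit 450588) (nat_lit 10) (.e (nat_lit 573475) (nat_lit 12) (.e (nat_lit 57574) (nat_lit 55) (.e (nat_lit 778465) (nat_lit 11) .nil)))))) (.g (nat_lit 1) (.e (nat_lit 133040) (nat_lit 0) .nil) .nil))) 
(.lf (nat_lit 486156) (.g (nat_lit 2923) (.e (nat_lit 24627) (nat_lit 9) (.e (nat_lit 336443) (nat_lit 32) (.e (nat_lit 466969) (nat_lit 21) (.e (nat_lit 164325) (nat_lit 230) (.e (nat_lit 163881) (nat_lit 4) (.e (nat_lit 213032) (nat_lit 11) .nil)))))) (.g (nat_lit 1) (.e (nat_lit 133686) (nat_lit 0) .nil) .nil))))) (.nd (nat_lit 8) (.nd (nat_lit 9) 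
(.lf (nat_lit 485516) (.g (nat_lit 2481) (.e (nat_lit 24608) (nat_lit 3) (.e (nat_lit 98384) (nat_lit 32) (.e (nat_lit 475214) (nat_lit 42) (.e (nat_lit 720940) (nat_lit 22) .nil)))) (.g (nat_lit 0) (.e (nat_lit 132890) (nat_lit 0) .nil) .nil))) 
(.lf (nat_lit 486028) (.g (nat_lit 4666) (.e (nat_lit 24625) (nat_lit 9) (.e (nat_lit 336324) (nat_lit 18) (.e (nat_lit 204831) (nat_lit 18) (.e (nat_lit 57849) (nat_lit 252) .nil)))) (.g (nat_lit 0) (.e (nat_lit 133528) (nat_lit 0) .nil) .nil)))) (.nd (nat_lit 9) 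
(.lf (nat_lit 485772) (.g (nat_lit 392) (.e (nat_lit 24617) (nat_lit 7) (.e (nat_lit 319533) (nat_lit 16) (.e (nat_lit 286752) (nat_lit 10) .nil))) (.g (nat_lit 0) (.e (nat_lit 133211) (nat_lit 0) .nil) .nil))) 
(.lf (nat_lit 486284) (.g (nat_lit 2659) (.e (nat_lit 24628) (nat_lit 9) (.e (nat_lit 336366) (nat_lit 27) (.e (nat_lit 426501) (nat_lit 27) (.e (nat_lit 335986) (nat_lit 1) (.e (nat_lit 57849) (nat_lit 252) (.e (nat_lit 57372) (nat_lit 2) (.e (nat_lit 90158) (nat_lit 11) .nil))))))) (.g (nat_lit 1) (.e (nat_lit 133839) (nat_lit 0) .nil) .nil)))))) 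
(.nd (nat_lit 7) (.nd (nat_lit 8) (.nd (nat_lit 9) 
(.lf (nat_lit 485452) (.g (nat_lit 3499) (.e (nat_lit 24608) (nat_lit 3) (.e (nat_lit 98373) (nat_lit 29) (.e (nat_lit 450587) (nat_lit 10) (.e (nat_lit 573475) (nat_lit 12) (.e (nat_lit 57346) (nat_lit 0) (.e (nat_lit 7412) (nat_lit 396) (.e (nat_lit 2551) (nat_lit 159) .nil))))))) (.g (nat_lit 1) (.e (nat_lit 132822) (nat_lit 0) .nil) .nil))) 
(.lf (nat_lit 485964) (.g (nat_lit 3695) (.e (nat_lit 24623) (nat_lit 9) (.e (nat_lit 336456) (nat_lit 34) (.e (nat_lit 483365) (nat_lit 18) (.e (nat_lit 57851) (nat_lit 252) (.e (nat_lit 57371) (nat_lit 2) (.e (nat_lit 90160) (nat_lit 11) .nil)))))) (.g (nat_lit 1) (.e (nat_lit 133458) (nat_lit 0) .nil) .nil)))) (.nd (nat_lit 9) 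
(.lf (nat_lit 485708) (.g (nat_lit 1114) (.e (nat_lit 24617) (nat_lit 7) (.e (nat_lit 319528) (nat_lit 16) (.e (nat_lit 286759) (nat_lit 12) (.e (nat_lit 385111) (nat_lit 53) .nil)))) (.g (nat_lit 0) (.e (nat_lit 133134) (nat_lit 0) .nil) .nil))) 
(.lf (nat_lit 486220) (.g (nat_lit 3429) (.e (nat_lit 24627) (nat_lit 9) (.e (nat_lit 336454) (nat_lit 34) (.e (nat_lit 483363) (nat_lit 18) (.e (nat_lit 57847) (nat_lit 252) (.e (nat_lit 57375) (nat_lit 2) (.e (nat_lit 90159) (nat_lit 11) .nil)))))) (.g (nat_lit 1) (.e (nat_lit 133760) (nat_lit 0) .nil) .nil))))) (.nd (nat_lit 8) (.nd (nat_lit 9) 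
(.lf (nat_lit 485580) (.g (nat_lit 2284) (.e (nat_lit 24609) (nat_lit 3) (.e (nat_lit 98372) (nat_lit 29) (.e (nat_lit 450586) (nat_lit 10) (.e (nat_lit 573475) (nat_lit 12) (.e (nat_lit 57573) (nat_lit 55) (.e (nat_lit 778469) (nat_lit 11) .nil)))))) (.g (nat_lit 1) (.e (nat_lit 132973) (nat_lit 0) .nil) .nil))) 
(.lf (nat_lit 486092) (.g (nat_lit 2270) (.e (nat_lit 24626) (nat_lit 9) (.e (nat_lit 336443) (nat_lit 32) (.e (nat_lit 466969) (nat_lit 21) (.e (nat_lit 164326) (nat_lit 230) (.e (nat_lit 163882) (nat_lit 4) (.e (nat_lit 213031) (nat_lit 11) .nil)))))) (.g (nat_lit 1) (.e (nat_lit 133597) (nat_lit 0) .nil) .nil)))) (.nd (nat_lit 9) 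
(.lf (nat_lit 485836) (.g (nat_lit 1754) (.e (nat_lit 24617) (nat_lit 7) (.e (nat_lit 319534) (nat_lit 16) (.e (nat_lit 286749) (nat_lit 9) (.e (nat_lit 336280) (nat_lit 15) .nil)))) (.g (nat_lit 0) (.e (nat_lit 133292) (nat_lit 0) .nil) .nil))) 
(.lf (nat_lit 486348) (.g (nat_lit 3221) (.e (nat_lit 24628) (nat_lit 9) (.e (nat_lit 336443) (nat_lit 32) (.e (nat_lit 466969) (nat_lit 21) (.e (nat_lit 164327) (nat_lit 230) (.e (nat_lit 163879) (nat_lit 4) (.e (nat_lit 213032) (nat_lit 11) .nil)))))) (.g (nat_lit 1) (.e (nat_lit 133919) (nat_lit 0) .nil) .nil))))))) (.nd (nat_lit 6) (.nd (nat_lit 7) (.nd (nat_lit 8) (.nd (nat_lit 9) 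
(.lf (nat_lit 485420) (.g (nat_lit 622) (.e (nat_lit 24608) (nat_lit 3) (.e (nat_lit 98373) (nat_lit 29) (.e (nat_lit 450562) (nat_lit 0) .nil))) (.g (nat_lit 0) (.e (nat_lit 132780) (nat_lit 0) .nil) .nil))) 
(.lf (nat_lit 485932) (.g (nat_lit 3622) (.e (nat_lit 24623) (nat_lit 9) (.e (nat_lit 336389) (nat_lit 27) (.e (nat_lit 426343) (nat_lit 14) (.e (nat_lit 491560) (nat_lit 10) (.e (nat_lit 344179) (nat_lit 44) (.e (nat_lit 778465) (nat_lit 11) .nil)))))) (.g (nat_lit 1) (.e (nat_lit 133425) (nat_lit 0) .nil) .nil)))) (.nd (nat_lit 9) 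
(.lf (nat_lit 485676) (.g (nat_lit 1405) (.e (nat_lit 24616) (nat_lit 7) (.e (nat_lit 319530) (nat_lit 16) (.e (nat_lit 286759) (nat_lit 12) (.e (nat_lit 385113) (nat_lit 53) .nil)))) (.g (nat_lit 0) (.e (nat_lit 133086) (nat_lit 0) .nil) .nil))) 
(.lf (nat_lit 486188) (.g (nat_lit 2821) (.e (nat_lit 24627) (nat_lit 9) (.e (nat_lit 336443) (nat_lit 32) (.e (nat_lit 466971) (nat_lit 21) (.e (nat_lit 164327) (nat_lit 230) (.e (nat_lit 163881) (nat_lit 4) (.e (nat_lit 213032) (nat_lit 11) .nil)))))) (.g (nat_lit 1) (.e (nat_lit 133718) (nat_lit 0) .nil) .nil))))) (.nd (nat_lit 8) (.nd (nat_lit 9) 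
(.lf (nat_lit 485548) (.g (nat_lit 2847) (.e (nat_lit 24609) (nat_lit 3) (.e (nat_lit 98365) (nat_lit 26) (.e (nat_lit 426188) (nat_lit 9) (.e (nat_lit 426436) (nat_lit 18) (.e (nat_lit 98339) (nat_lit 19) (.e (nat_lit 213030) (nat_lit 11) .nil)))))) (.g (nat_lit 1) (.e (nat_lit 132941) (nat_lit 0) .nil) .nil))) 
(.lf (nat_lit 486060) (.g (nat_lit 2002) (.e (nat_lit 24625) (nat_lit 9) (.e (nat_lit 336443) (nat_lit 32) (.e (nat_lit 466971) (nat_lit 21) (.e (nat_lit 164331) (nat_lit 230) (.e (nat_lit 163877) (nat_lit 4) .nil))))) (.g (nat_lit 0) (.e (nat_lit 133562) (nat_lit 0) .nil) .nil)))) (.nd (nat_lit 9) 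
(.lf (nat_lit 485804) (.g (nat_lit 2478) (.e (nat_lit 24617) (nat_lit 7) (.e (nat_lit 319533) (nat_lit 16) (.e (nat_lit 286754) (nat_lit 10) (.e (nat_lit 344161) (nat_lit 37) (.e (nat_lit 647201) (nat_lit 12) (.e (nat_lit 57574) (nat_lit 55) (.e (nat_lit 778464) (nat_lit 11) .nil))))))) (.g (nat_lit 1) (.e (nat_lit 133245) (nat_lit 0) .nil) .nil))) 
(.lf (nat_lit 486316) (.g (nat_lit 2245) (.e (nat_lit 24628) (nat_lit 9) (.e (nat_lit 336372) (nat_lit 27) (.e (nat_lit 426525) (nat_lit 27) (.e (nat_lit 335986) (nat_lit 1) (.e (nat_lit 57847) (nat_lit 252) (.e (nat_lit 57375) (nat_lit 2) (.e (nat_lit 90160) (nat_lit 11) .nil))))))) (.g (nat_lit 1) (.e (nat_lit 133874) (nat_lit 0) .nil) .nil)))))) 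
(.nd (nat_lit 7) (.nd (nat_lit 8) (.nd (nat_lit 9) 
(.lf (nat_lit 485484) (.g (nat_lit 4121) (.e (nat_lit 24608) (nat_lit 3) (.e (nat_lit 98373) (nat_lit 29) (.e (nat_lit 450588) (nat_lit 10) (.e (nat_lit 573448) (nat_lit 9) .nil)))) (.g (nat_lit 0) (.e (nat_lit 132854) (nat_lit 0) .nil) .nil))) 
(.lf (nat_lit 485996) (.g (nat_lit 2551) (.e (nat_lit 24624) (nat_lit 9) (.e (nat_lit 336454) (nat_lit 34) (.e (nat_lit 483364) (nat_lit 18) (.e (nat_lit 57852) (nat_lit 252) (.e (nat_lit 57373) (nat_lit 2) (.e (nat_lit 90160) (nat_lit 11) .nil)))))) (.g (nat_lit 1) (.e (nat_lit 133495) (nat_lit 0) .nil) .nil)))) (.nd (nat_lit 9) 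
(.lf (nat_lit 485740) (.g (nat_lit 838) (.e (nat_lit 24617) (nat_lit 7) (.e (nat_lit 319531) (nat_lit 16) (.e (nat_lit 286748) (nat_lit 9) (.e (nat_lit 336295) (nat_lit 15) .nil)))) (.g (nat_lit 0) (.e (nat_lit 133170) (nat_lit 0) .nil) .nil))) 
(.lf (nat_lit 486252) (.g (nat_lit 2658) (.e (nat_lit 24627) (nat_lit 9) (.e (nat_lit 336454) (nat_lit 34) (.e (nat_lit 483365) (nat_lit 18) (.e (nat_lit 57849) (nat_lit 252) (.e (nat_lit 57372) (nat_lit 2) (.e (nat_lit 90157) (nat_lit 11) .nil)))))) (.g (nat_lit 1) (.e (nat_lit 133792) (nat_lit 0) .nil) .nil))))) (.nd (nat_lit 8) (.nd (nat_lit 9) 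
(.lf (nat_lit 485612) (.g (nat_lit 3575) (.e (nat_lit 24609) (nat_lit 3) (.e (nat_lit 98373) (nat_lit 29) (.e (nat_lit 450587) (nat_lit 10) (.e (nat_lit 573475) (nat_lit 12) (.e (nat_lit 57574) (nat_lit 55) (.e (nat_lit 778463) (nat_lit 11) .nil)))))) (.g (nat_lit 1) (.e (nat_lit 133008) (nat_lit 0) .nil) .nil))) 
(.lf (nat_lit 486124) (.g (nat_lit 4947) (.e (nat_lit 24627) (nat_lit 9) (.e (nat_lit 336324) (nat_lit 18) (.e (nat_lit 204831) (nat_lit 18) (.e (nat_lit 57847) (nat_lit 252) (.e (nat_lit 57442) (nat_lit 18) .nil))))) (.g (nat_lit 0) (.e (nat_lit 133637) (nat_lit 0) .nil) .nil)))) (.nd (nat_lit 9) 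
(.lf (nat_lit 485868) (.g (nat_lit 1692) (.e (nat_lit 24617) (nat_lit 7) (.e (nat_lit 319534) (nat_lit 16) (.e (nat_lit 286756) (nat_lit 10) (.e (nat_lit 344160) (nat_lit 37) (.e (nat_lit 647190) (nat_lit 9) .nil))))) (.g (nat_lit 0) (.e (nat_lit 133330) (nat_lit 0) .nil) .nil))) 
(.lf (nat_lit 486380) (.g (nat_lit 2885) (.e (nat_lit 24628) (nat_lit 9) (.e (nat_lit 336443) (nat_lit 32) (.e (nat_lit 466971) (nat_lit 21) (.e (nat_lit 164325) (nat_lit 230) (.e (nat_lit 163877) (nat_lit 4) (.e (nat_lit 213032) (nat_lit 11) .nil)))))) (.g (nat_lit 1) (.e (nat_lit 133951) (nat_lit 0) .nil) .nil)))))))) 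
(.nd (nat_lit 5) (.nd (nat_lit 6) (.nd (nat_lit 7) (.nd (nat_lit 8) (.nd (nat_lit 9) 
(.lf (nat_lit 485404) (.g (nat_lit 2513) (.e (nat_lit 24608) (nat_lit 3) (.e (nat_lit 98372) (nat_lit 29) (.e (nat_lit 450586) (nat_lit 10) (.e (nat_lit 573478) (nat_lit 12) (.e (nat_lit 57574) (nat_lit 55) (.e (nat_lit 778460) (nat_lit 11) .nil)))))) (.g (nat_lit 1) (.e (nat_lit 132763) (nat_lit 0) .nil) .nil))) 
(.lf (nat_lit 485916) (.g (nat_lit 1597) (.e (nat_lit 24617) (nat_lit 7) (.e (nat_lit 319534) (nat_lit 16) (.e (nat_lit 286762) (nat_lit 14) (.e (nat_lit 401448) (nat_lit 10) .nil)))) (.g (nat_lit 0) (.e (nat_lit 133386) (nat_lit 0) .nil) .nil)))) (.nd (nat_lit 9) 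
(.lf (nat_lit 485660) (.g (nat_lit 1111) (.e (nat_lit 32512) (nat_lit 3) (.e (nat_lit 98372) (nat_lit 29) (.e (nat_lit 450586) (nat_lit 10) (.e (nat_lit 573478) (nat_lit 12) .nil)))) (.g (nat_lit 0) (.e (nat_lit 133058) (nat_lit 0) .nil) .nil))) 
(.lf (nat_lit 486172) (.g (nat_lit 2109) (.e (nat_lit 24627) (nat_lit 9) (.e (nat_lit 336443) (nat_lit 32) (.e (nat_lit 466969) (nat_lit 21) (.e (nat_lit 164332) (nat_lit 230) (.e (nat_lit 163852) (nat_lit 0) .nil))))) (.g (nat_lit 0) (.e (nat_lit 133702) (nat_lit 0) .nil) .nil))))) (.nd (nat_lit 8) (.nd (nat_lit 9) 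
(.lf (nat_lit 485532) (.g (nat_lit 1119) (.e (nat_lit 24609) (nat_lit 3) (.e (nat_lit 98358) (nat_lit 26) (.e (nat_lit 426233) (nat_lit 9) .nil))) (.g (nat_lit 0) (.e (nat_lit 132909) (nat_lit 0) .nil) .nil))) 
(.lf (nat_lit 486044) (.g (nat_lit 3249) (.e (nat_lit 24625) (nat_lit 9) (.e (nat_lit 336443) (nat_lit 32) (.e (nat_lit 466969) (nat_lit 21) (.e (nat_lit 164327) (nat_lit 230) (.e (nat_lit 163882) (nat_lit 4) (.e (nat_lit 213032) (nat_lit 11) .nil)))))) (.g (nat_lit 1) (.e (nat_lit 133546) (nat_lit 0) .nil) .nil)))) (.nd (nat_lit 9) 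
(.lf (nat_lit 485788) (.g (nat_lit 3094) (.e (nat_lit 24617) (nat_lit 7) (.e (nat_lit 319533) (nat_lit 16) (.e (nat_lit 286753) (nat_lit 10) (.e (nat_lit 344169) (nat_lit 40) (.e (nat_lit 671781) (nat_lit 12) (.e (nat_lit 164050) (nat_lit 55) (.e (nat_lit 778464) (nat_lit 11) .nil))))))) (.g (nat_lit 1) (.e (nat_lit 133229) (nat_lit 0) .nil) .nil))) 
(.lf (nat_lit 486300) (.g (nat_lit 2753) (.e (nat_lit 24628) (nat_lit 9) (.e (nat_lit 336368) (nat_lit 27) (.e (nat_lit 426499) (nat_lit 27) (.e (nat_lit 335986) (nat_lit 1) (.e (nat_lit 57847) (nat_lit 252) (.e (nat_lit 57373) (nat_lit 2) (.e (nat_lit 90158) (nat_lit 11) .nil))))))) (.g (nat_lit 1) (.e (nat_lit 133855) (nat_lit 0) .nil) .nil)))))) 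
(.nd (nat_lit 7) (.nd (nat_lit 8) (.nd (nat_lit 9) 
(.lf (nat_lit 485468) (.g (nat_lit 4439) (.e (nat_lit 24608) (nat_lit 3) (.e (nat_lit 98373) (nat_lit 29) (.e (nat_lit 450587) (nat_lit 10) (.e (nat_lit 573475) (nat_lit 12) (.e (nat_lit 57574) (nat_lit 55) (.e (nat_lit 786176) (nat_lit 11) .nil)))))) (.g (nat_lit 1) (.e (nat_lit 132838) (nat_lit 0) .nil) .nil))) 
(.lf (nat_lit 485980) (.g (nat_lit 2802) (.e (nat_lit 24624) (nat_lit 9) (.e (nat_lit 336443) (nat_lit 32) (.e (nat_lit 466969) (nat_lit 21) (.e (nat_lit 164332) (nat_lit 230) (.e (nat_lit 163878) (nat_lit 4) (.e (nat_lit 213030) (nat_lit 11) .nil)))))) (.g (nat_lit 1) (.e (nat_lit 133479) (nat_lit 0) .nil) .nil)))) (.nd (nat_lit 9) 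
(.lf (nat_lit 485724) (.g (nat_lit 2342) (.e (nat_lit 24617) (nat_lit 7) (.e (nat_lit 319529) (nat_lit 16) (.e (nat_lit 286759) (nat_lit 12) (.e (nat_lit 385115) (nat_lit 53) (.e (nat_lit 811034) (nat_lit 11) (.e (nat_lit 883) (nat_lit 75) (.e (nat_lit 778464) (nat_lit 11) .nil))))))) (.g (nat_lit 1) (.e (nat_lit 133153) (nat_lit 0) .nil) .nil))) 
(.lf (nat_lit 486236) (.g (nat_lit 339) (.e (nat_lit 24627) (nat_lit 9) (.e (nat_lit 336454) (nat_lit 34) (.e (nat_lit 483365) (nat_lit 18) .nil))) (.g (nat_lit 0) (.e (nat_lit 133776) (nat_lit 0) .nil) .nil))))) (.nd (nat_lit 8) (.nd (nat_lit 9) 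
(.lf (nat_lit 485596) (.g (nat_lit 3290) (.e (nat_lit 24609) (nat_lit 3) (.e (nat_lit 98372) (nat_lit 29) (.e (nat_lit 450588) (nat_lit 10) (.e (nat_lit 573475) (nat_lit 12) (.e (nat_lit 57574) (nat_lit 55) .nil))))) (.g (nat_lit 0) (.e (nat_lit 132989) (nat_lit 0) .nil) .nil))) 
(.lf (nat_lit 486108) (.g (nat_lit 1375) (.e (nat_lit 24626) (nat_lit 9) (.e (nat_lit 336443) (nat_lit 32) (.e (nat_lit 466972) (nat_lit 21) (.e (nat_lit 164332) (nat_lit 230) .nil)))) (.g (nat_lit 0) (.e (nat_lit 133613) (nat_lit 0) .nil) .nil)))) (.nd (nat_lit 9) 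
(.lf (nat_lit 485852) (.g (nat_lit 2361) (.e (nat_lit 24617) (nat_lit 7) (.e (nat_lit 319534) (nat_lit 16) (.e (nat_lit 286756) (nat_lit 10) (.e (nat_lit 344168) (nat_lit 40) (.e (nat_lit 671771) (nat_lit 9) (.e (nat_lit 2747) (nat_lit 175) (.e (nat_lit 262165) (nat_lit 11) .nil))))))) (.g (nat_lit 1) (.e (nat_lit 133312) (nat_lit 0) .nil) .nil))) 
(.lf (nat_lit 486364) (.g (nat_lit 3032) (.e (nat_lit 24628) (nat_lit 9) (.e (nat_lit 336443) (nat_lit 32) (.e (nat_lit 466969) (nat_lit 21) (.e (nat_lit 164330) (nat_lit 230) (.e (nat_lit 163878) (nat_lit 4) (.e (nat_lit 213032) (nat_lit 11) .nil)))))) (.g (nat_lit 1) (.e (nat_lit 133935) (nat_lit 0) .nil) .nil))))))) (.nd (nat_lit 6) (.nd (nat_lit 7) (.nd (nat_lit 8) (.nd (nat_lit 9) 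
(.lf (nat_lit 485436) (.g (nat_lit 2829) (.e (nat_lit 24608) (nat_lit 3) (.e (nat_lit 98373) (nat_lit 29) (.e (nat_lit 450587) (nat_lit 10) (.e (nat_lit 573475) (nat_lit 12) (.e (nat_lit 57345) (nat_lit 0) (.e (nat_lit 7398) (nat_lit 396) (.e (nat_lit 2553) (nat_lit 159) .nil))))))) (.g (nat_lit 1) (.e (nat_lit 132806) (nat_lit 0) .nil) .nil))) 
(.lf (nat_lit 485948) (.g (nat_lit 2512) (.e (nat_lit 24623) (nat_lit 9) (.e (nat_lit 336454) (nat_lit 34) (.e (nat_lit 483365) (nat_lit 18) (.e (nat_lit 57847) (nat_lit 252) (.e (nat_lit 57373) (nat_lit 2) (.e (nat_lit 90160) (nat_lit 11) .nil)))))) (.g (nat_lit 1) (.e (nat_lit 133441) (nat_lit 0) .nil) .nil)))) (.nd (nat_lit 9) 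
(.lf (nat_lit 485692) (.g (nat_lit 834) (.e (nat_lit 24617) (nat_lit 7) (.e (nat_lit 319490) (nat_lit 0) (.e (nat_lit 577) (nat_lit 43) .nil))) (.g (nat_lit 0) (.e (nat_lit 133103) (nat_lit 0) .nil) .nil))) 
(.lf (nat_lit 486204) (.g (nat_lit 3392) (.e (nat_lit 24627) (nat_lit 9) (.e (nat_lit 336443) (nat_lit 32) (.e (nat_lit 466972) (nat_lit 21) (.e (nat_lit 164332) (nat_lit 230) (.e (nat_lit 163880) (nat_lit 4) (.e (nat_lit 213030) (nat_lit 11) .nil)))))) (.g (nat_lit 1) (.e (nat_lit 133734) (nat_lit 0) .nil) .nil))))) (.nd (nat_lit 8) (.nd (nat_lit 9) 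
(.lf (nat_lit 485564) (.g (nat_lit 1915) (.e (nat_lit 24609) (nat_lit 3) (.e (nat_lit 98365) (nat_lit 26) (.e (nat_lit 426307) (nat_lit 12) (.e (nat_lit 475177) (nat_lit 24) (.e (nat_lit 516127) (nat_lit 2) (.e (nat_lit 213032) (nat_lit 11) .nil)))))) (.g (nat_lit 1) (.e (nat_lit 132957) (nat_lit 0) .nil) .nil))) 
(.lf (nat_lit 486076) (.g (nat_lit 2206) (.e (nat_lit 24625) (nat_lit 9) (.e (nat_lit 336455) (nat_lit 34) (.e (nat_lit 483363) (nat_lit 18) (.e (nat_lit 57847) (nat_lit 252) (.e (nat_lit 57372) (nat_lit 2) (.e (nat_lit 90160) (nat_lit 11) .nil)))))) (.g (nat_lit 1) (.e (nat_lit 133578) (nat_lit 0) .nil) .nil)))) (.nd (nat_lit 9) 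
(.lf (nat_lit 485820) (.g (nat_lit 2723) (.e (nat_lit 24617) (nat_lit 7) (.e (nat_lit 319533) (nat_lit 16) (.e (nat_lit 286759) (nat_lit 12) (.e (nat_lit 385115) (nat_lit 53) (.e (nat_lit 811031) (nat_lit 11) (.e (nat_lit 883) (nat_lit 75) (.e (nat_lit 778464) (nat_lit 11) .nil))))))) (.g (nat_lit 1) (.e (nat_lit 133268) (nat_lit 0) .nil) .nil))) 
(.lf (nat_lit 486332) (.g (nat_lit 2571) (.e (nat_lit 24628) (nat_lit 9) (.e (nat_lit 336443) (nat_lit 32) (.e (nat_lit 466969) (nat_lit 21) (.e (nat_lit 164322) (nat_lit 230) (.e (nat_lit 163878) (nat_lit 4) (.e (nat_lit 213030) (nat_lit 11) .nil)))))) (.g (nat_lit 1) (.e (nat_lit 133903) (nat_lit 0) .nil) .nil)))))) (.nd (nat_lit 7) (.nd (nat_lit 8) (.nd (nat_lit 9) 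
(.lf (nat_lit 485500) (.g (nat_lit 4297) (.e (nat_lit 24608) (nat_lit 3) (.e (nat_lit 98373) (nat_lit 29) (.e (nat_lit 450588) (nat_lit 10) (.e (nat_lit 573475) (nat_lit 12) (.e (nat_lit 57574) (nat_lit 55) (.e (nat_lit 778460) (nat_lit 11) .nil)))))) (.g (nat_lit 1) (.e (nat_lit 132870) (nat_lit 0) .nil) .nil))) 
(.lf (nat_lit 486012) (.g (nat_lit 2994) (.e (nat_lit 24624) (nat_lit 9) (.e (nat_lit 336455) (nat_lit 34) (.e (nat_lit 483363) (nat_lit 18) (.e (nat_lit 57847) (nat_lit 252) (.e (nat_lit 57375) (nat_lit 2) (.e (nat_lit 90160) (nat_lit 11) .nil)))))) (.g (nat_lit 1) (.e (nat_lit 133512) (nat_lit 0) .nil) .nil)))) (.nd (nat_lit 9) 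
(.lf (nat_lit 485756) (.g (nat_lit 2510) (.e (nat_lit 24617) (nat_lit 7) (.e (nat_lit 319531) (nat_lit 16) (.e (nat_lit 286759) (nat_lit 12) (.e (nat_lit 385107) (nat_lit 51) (.e (nat_lit 794679) (nat_lit 24) (.e (nat_lit 213032) (nat_lit 11) .nil)))))) (.g (nat_lit 1) (.e (nat_lit 133192) (nat_lit 0) .nil) .nil))) 
(.lf (nat_lit 486268) (.g (nat_lit 2156) (.e (nat_lit 24628) (nat_lit 9) (.e (nat_lit 336019) (nat_lit 3) (.e (nat_lit 98389) (nat_lit 33) (.e (nat_lit 491560) (nat_lit 10) (.e (nat_lit 344088) (nat_lit 18) (.e (nat_lit 4049) (nat_lit 245) (.e (nat_lit 2553) (nat_lit 159) .nil))))))) (.g (nat_lit 1) (.e (nat_lit 133819) (nat_lit 0) .nil) .nil))))) (.nd (nat_lit 8) (.nd (nat_lit 9) 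
(.lf (nat_lit 485628) (.g (nat_lit 2854) (.e (nat_lit 24609) (nat_lit 3) (.e (nat_lit 98373) (nat_lit 29) (.e (nat_lit 450587) (nat_lit 10) (.e (nat_lit 573477) (nat_lit 12) (.e (nat_lit 65280) (nat_lit 55) (.e (nat_lit 778462) (nat_lit 11) .nil)))))) (.g (nat_lit 1) (.e (nat_lit 133024) (nat_lit 0) .nil) .nil))) 
(.lf (nat_lit 486140) (.g (nat_lit 2913) (.e (nat_lit 24627) (nat_lit 9) (.e (nat_lit 336369) (nat_lit 27) (.e (nat_lit 426173) (nat_lit 7) (.e (nat_lit 409649) (nat_lit 18) (.e (nat_lit 303111) (nat_lit 0) (.e (nat_lit 3579) (nat_lit 223) (.e (nat_lit 745509) (nat_lit 11) .nil))))))) (.g (nat_lit 1) (.e (nat_lit 133665) (nat_lit 0) .nil) .nil)))) (.nd (nat_lit 9) 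
(.lf (nat_lit 485884) (.g (nat_lit 2942) (.e (nat_lit 24617) (nat_lit 7) (.e (nat_lit 319534) (nat_lit 16) (.e (nat_lit 286756) (nat_lit 10) (.e (nat_lit 344160) (nat_lit 37) (.e (nat_lit 647195) (nat_lit 9) (.e (nat_lit 1012) (nat_lit 81) (.e (nat_lit 2328) (nat_lit 151) (.e (nat_lit 778464) (nat_lit 11) .nil)))))))) (.g (nat_lit 1) (.e (nat_lit 133346) (nat_lit 0) .nil) .nil))) 
(.lf (nat_lit 486396) (.g (nat_lit 1805) (.e (nat_lit 24628) (nat_lit 9) (.e (nat_lit 336443) (nat_lit 32) (.e (nat_lit 466971) (nat_lit 21) (.e (nat_lit 164329) (nat_lit 230) (.e (nat_lit 163878) (nat_lit 4) (.e (nat_lit 213030) (nat_lit 11) .nil)))))) (.g (nat_lit 1) (.e (nat_lit 133967) (nat_lit 0) .nil) .nil))))))))))) 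
(.nd (nat_lit 2) (.nd (nat_lit 3) (.nd (nat_lit 4) (.nd (nat_lit 5) (.nd (nat_lit 6) 
(.nd (nat_lit 7) (.nd (nat_lit 8) (.nd (nat_lit 9) 
(.lf (nat_lit 485378) (.g (nat_lit 2159) (.e (nat_lit 24608) (nat_lit 3) (.e (nat_lit 98365) (nat_lit 26) (.e (nat_lit 426306) (nat_lit 12) (.e (nat_lit 475179) (nat_lit 24) (.e (nat_lit 524032) (nat_lit 2) (.e (nat_lit 213032) (nat_lit 11) .nil)))))) (.g (nat_lit 1) (.e (nat_lit 132735) (nat_lit 0) .nil) .nil))) 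
(.lf (nat_lit 485890) (.g (nat_lit 3912) (.e (nat_lit 24617) (nat_lit 7) (.e (nat_lit 319534) (nat_lit 16) (.e (nat_lit 286756) (nat_lit 10) (.e (nat_lit 344160) (nat_lit 37) (.e (nat_lit 647201) (nat_lit 12) (.e (nat_lit 57574) (nat_lit 55) (.e (nat_lit 778464) (nat_lit 11) .nil))))))) (.g (nat_lit 1) (.e (nat_lit 133352) (nat_lit 0) .nil) .nil)))) (.nd (nat_lit 9) 
(.lf (nat_lit 485634) (.g (nat_lit 4333) (.e (nat_lit 24609) (nat_lit 3) (.e (nat_lit 98373) (nat_lit 29) (.e (nat_lit 450588) (nat_lit 10) (.e (nat_lit 573452) (nat_lit 9) (.e (nat_lit 1310) (nat_lit 98) .nil))))) (.g (nat_lit 0) (.e (nat_lit 133030) (nat_lit 0) .nil) .nil))) 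
(.lf (nat_lit 486146) (.g (nat_lit 3151) (.e (nat_lit 24627) (nat_lit 9) (.e (nat_lit 336377) (nat_lit 27) (.e (nat_lit 426525) (nat_lit 27) (.e (nat_lit 335995) (nat_lit 1) (.e (nat_lit 57848) (nat_lit 252) (.e (nat_lit 57372) (nat_lit 2) (.e (nat_lit 90159) (nat_lit 11) .nil))))))) (.g (nat_lit 1) (.e (nat_lit 133671) (nat_lit 0) .nil) .nil))))) (.nd (nat_lit 8) (.nd (nat_lit 9) 
(.lf (nat_lit 485506) (.g (nat_lit 4312) (.e (nat_lit 24608) (nat_lit 3) (.e (nat_lit 98373) (nat_lit 29) (.e (nat_lit 450588) (nat_lit 10) (.e (nat_lit 573478) (nat_lit 12) .nil)))) (.g (nat_lit 0) (.e (nat_lit 132876) (nat_lit 0) .nil) .nil))) 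
(.lf (nat_lit 486018) (.g (nat_lit 3532) (.e (nat_lit 24624) (nat_lit 9) (.e (nat_lit 336456) (nat_lit 34) (.e (nat_lit 483364) (nat_lit 18) (.e (nat_lit 57854) (nat_lit 252) (.e (nat_lit 57373) (nat_lit 2) (.e (nat_lit 90160) (nat_lit 11) .nil)))))) (.g (nat_lit 1) (.e (nat_lit 133518) (nat_lit 0) .nil) .nil)))) (.nd (nat_lit 9) 
(.lf (nat_lit 485762) (.g (nat_lit 2085) (.e (nat_lit 24617) (nat_lit 7) (.e (nat_lit 319531) (nat_lit 16) (.e (nat_lit 286759) (nat_lit 12) (.e (nat_lit 385115) (nat_lit 53) (.e (nat_lit 811045) (nat_lit 14) (.e (nat_lit 40993) (nat_lit 11) .nil)))))) (.g (nat_lit 1) (.e (nat_lit 133198) (nat_lit 0) .nil) .nil))) 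
(.lf (nat_lit 486274) (.g (nat_lit 3980) (.e (nat_lit 24628) (nat_lit 9) (.e (nat_lit 336324) (nat_lit 18) (.e (nat_lit 204831) (nat_lit 18) (.e (nat_lit 57849) (nat_lit 252) .nil)))) (.g (nat_lit 0) (.e (nat_lit 133828) (nat_lit 0) .nil) .nil)))))) (.nd (nat_lit 7) (.nd (nat_lit 8) (.nd (nat_lit 9) 
(.lf (nat_lit 485442) (.g (nat_lit 3697) (.e (nat_lit 24608) (nat_lit 3) (.e (nat_lit 98373) (nat_lit 29) (.e (nat_lit 450587) (nat_lit 10) (.e (nat_lit 573475) (nat_lit 12) (.e (nat_lit 57345) (nat_lit 0) (.e (nat_lit 7432) (nat_lit 396) (.e (nat_lit 2551) (nat_lit 159) .nil))))))) (.g (nat_lit 1) (.e (nat_lit 132812) (nat_lit 0) .nil) .nil))) 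
(.lf (nat_lit 485954) (.g (nat_lit 3803) (.e (nat_lit 24623) (nat_lit 9) (.e (nat_lit 336456) (nat_lit 34) (.e (nat_lit 483363) (nat_lit 18) (.e (nat_lit 57847) (nat_lit 252) (.e (nat_lit 57372) (nat_lit 2) (.e (nat_lit 90160) (nat_lit 11) .nil)))))) (.g (nat_lit 1) (.e (nat_lit 133448) (nat_lit 0) .nil) .nil)))) (.nd (nat_lit 9) 
(.lf (nat_lit 485698) (.g (nat_lit 1139) (.e (nat_lit 24617) (nat_lit 7) (.e (nat_lit 319528) (nat_lit 16) (.e (nat_lit 286759) (nat_lit 12) (.e (nat_lit 385092) (nat_lit 49) .nil)))) (.g (nat_lit 0) (.e (nat_lit 133120) (nat_lit 0) .nil) .nil))) 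
(.lf (nat_lit 486210) (.g (nat_lit 3460) (.e (nat_lit 24627) (nat_lit 9) (.e (nat_lit 336454) (nat_lit 34) (.e (nat_lit 483363) (nat_lit 18) (.e (nat_lit 57844) (nat_lit 252) (.e (nat_lit 57371) (nat_lit 2) (.e (nat_lit 90159) (nat_lit 11) .nil)))))) (.g (nat_lit 1) (.e (nat_lit 133750) (nat_lit 0) .nil) .nil))))) (.nd (nat_lit 8) (.nd (nat_lit 9) 
(.lf (nat_lit 485570) (.g (nat_lit 1428) (.e (nat_lit 24609) (nat_lit 3) (.e (nat_lit 98372) (nat_lit 29) (.e (nat_lit 450579) (nat_lit 5) (.e (nat_lit 532484) (nat_lit 0) .nil)))) (.g (nat_lit 0) (.e (nat_lit 132963) (nat_lit 0) .nil) .nil))) 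
(.lf (nat_lit 486082) (.g (nat_lit 752) (.e (nat_lit 24626) (nat_lit 9) (.e (nat_lit 336019) (nat_lit 3) (.e (nat_lit 98389) (nat_lit 33) .nil))) (.g (nat_lit 0) (.e (nat_lit 133586) (nat_lit 0) .nil) .nil)))) (.nd (nat_lit 9) 
(.lf (nat_lit 485826) (.g (nat_lit 1042) (.e (nat_lit 24617) (nat_lit 7) (.e (nat_lit 319534) (nat_lit 16) (.e (nat_lit 286720) (nat_lit 0) (.e (nat_lit 7936) (nat_lit 362) .nil)))) (.g (nat_lit 0) (.e (nat_lit 133278) (nat_lit 0) .nil) .nil))) 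
(.lf (nat_lit 486338) (.g (nat_lit 1821) (.e (nat_lit 24628) (nat_lit 9) (.e (nat_lit 336443) (nat_lit 32) (.e (nat_lit 466969) (nat_lit 21) (.e (nat_lit 164325) (nat_lit 230) (.e (nat_lit 163880) (nat_lit 4) .nil))))) (.g (nat_lit 0) (.e (nat_lit 133909) (nat_lit 0) .nil) .nil))))))) (.nd (nat_lit 6) (.nd (nat_lit 7) (.nd (nat_lit 8) (.nd (nat_lit 9) 
(.lf (nat_lit 485410) (.g (nat_lit 2506) (.e (nat_lit 24608) (nat_lit 3) (.e (nat_lit 98372) (nat_lit 29) (.e (nat_lit 450588) (nat_lit 10) (.e (nat_lit 573457) (nat_lit 9) .nil)))) (.g (nat_lit 0) (.e (nat_lit 132769) (nat_lit 0) .nil) .nil))) 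
(.lf (nat_lit 485922) (.g (nat_lit 489) (.e (nat_lit 24622) (nat_lit 8) (.e (nat_lit 327708) (nat_lit 10) (.e (nat_lit 5399) (nat_lit 302) .nil))) (.g (nat_lit 0) (.e (nat_lit 133412) (nat_lit 0) .nil) .nil)))) (.nd (nat_lit 9) 
(.lf (nat_lit 485666) (.g (nat_lit 2539) (.e (nat_lit 32512) (nat_lit 3) (.e (nat_lit 98373) (nat_lit 29) (.e (nat_lit 450587) (nat_lit 10) (.e (nat_lit 573477) (nat_lit 12) (.e (nat_lit 57575) (nat_lit 55) .nil))))) (.g (nat_lit 0) (.e (nat_lit 133064) (nat_lit 0) .nil) .nil))) 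
(.lf (nat_lit 486178) (.g (nat_lit 1980) (.e (nat_lit 24627) (nat_lit 9) (.e (nat_lit 336443) (nat_lit 32) (.e (nat_lit 466969) (nat_lit 21) (.e (nat_lit 164332) (nat_lit 230) (.e (nat_lit 163893) (nat_lit 9) (.e (nat_lit 262165) (nat_lit 11) .nil)))))) (.g (nat_lit 1) (.e (nat_lit 133708) (nat_lit 0) .nil) .nil))))) (.nd (nat_lit 8) (.nd (nat_lit 9) 
(.lf (nat_lit 485538) (.g (nat_lit 2773) (.e (nat_lit 24609) (nat_lit 3) (.e (nat_lit 98358) (nat_lit 26) (.e (nat_lit 426320) (nat_lit 12) (.e (nat_lit 475179) (nat_lit 24) (.e (nat_lit 516126) (nat_lit 2) (.e (nat_lit 213030) (nat_lit 11) .nil)))))) (.g (nat_lit 1) (.e (nat_lit 132917) (nat_lit 0) .nil) .nil))) 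
(.lf (nat_lit 486050) (.g (nat_lit 2802) (.e (nat_lit 24625) (nat_lit 9) (.e (nat_lit 336443) (nat_lit 32) (.e (nat_lit 466969) (nat_lit 21) (.e (nat_lit 164332) (nat_lit 230) (.e (nat_lit 163852) (nat_lit 0) (.e (nat_lit 3721) (nat_lit 227) (.e (nat_lit 778464) (nat_lit 11) .nil))))))) (.g (nat_lit 1) (.e (nat_lit 133552) (nat_lit 0) .nil) .nil)))) (.nd (nat_lit 9) 
(.lf (nat_lit 485794) (.g (nat_lit 2702) (.e (nat_lit 24617) (nat_lit 7) (.e (nat_lit 319533) (nat_lit 16) (.e (nat_lit 286753) (nat_lit 10) (.e (nat_lit 344160) (nat_lit 37) (.e (nat_lit 647195) (nat_lit 9) (.e (nat_lit 1012) (nat_lit 81) (.e (nat_lit 2350) (nat_lit 151) (.e (nat_lit 778464) (nat_lit 11) .nil)))))))) (.g (nat_lit 1) (.e (nat_lit 133235) (nat_lit 0) .nil) .nil))) 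
(.lf (nat_lit 486306) (.g (nat_lit 2014) (.e (nat_lit 24628) (nat_lit 9) (.e (nat_lit 336370) (nat_lit 27) (.e (nat_lit 426498) (nat_lit 27) (.e (nat_lit 335986) (nat_lit 1) (.e (nat_lit 57849) (nat_lit 252) (.e (nat_lit 57375) (nat_lit 2) (.e (nat_lit 90158) (nat_lit 11) .nil))))))) (.g (nat_lit 1) (.e (nat_lit 133862) (nat_lit 0) .nil) .nil)))))) 
(.nd (nat_lit 7) (.nd (nat_lit 8) (.nd (nat_lit 9) 
(.lf (nat_lit 485474) (.g (nat_lit 4395) (.e (nat_lit 24608) (nat_lit 3) (.e (nat_lit 98373) (nat_lit 29) (.e (nat_lit 450587) (nat_lit 10) (.e (nat_lit 573477) (nat_lit 12) (.e (nat_lit 57574) (nat_lit 55) (.e (nat_lit 786176) (nat_lit 11) .nil)))))) (.g (nat_lit 1) (.e (nat_lit 132844) (nat_lit 0) .nil) .nil))) 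
(.lf (nat_lit 485986) (.g (nat_lit 2560) (.e (nat_lit 24624) (nat_lit 9) (.e (nat_lit 336443) (nat_lit 32) (.e (nat_lit 466972) (nat_lit 21) (.e (nat_lit 164330) (nat_lit 230) (.e (nat_lit 163880) (nat_lit 4) (.e (nat_lit 213030) (nat_lit 11) .nil)))))) (.g (nat_lit 1) (.e (nat_lit 133485) (nat_lit 0) .nil) .nil)))) (.nd (nat_lit 9) 
(.lf (nat_lit 485730) (.g (nat_lit 1173) (.e (nat_lit 24617) (nat_lit 7) (.e (nat_lit 319530) (nat_lit 16) (.e (nat_lit 286759) (nat_lit 12) (.e (nat_lit 385094) (nat_lit 49) .nil)))) (.g (nat_lit 0) (.e (nat_lit 133160) (nat_lit 0) .nil) .nil))) 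
(.lf (nat_lit 486242) (.g (nat_lit 3082) (.e (nat_lit 24627) (nat_lit 9) (.e (nat_lit 336454) (nat_lit 34) (.e (nat_lit 483365) (nat_lit 18) (.e (nat_lit 57847) (nat_lit 252) (.e (nat_lit 57371) (nat_lit 2) (.e (nat_lit 90159) (nat_lit 11) .nil)))))) (.g (nat_lit 1) (.e (nat_lit 133782) (nat_lit 0) .nil) .nil))))) (.nd (nat_lit 8) (.nd (nat_lit 9) 
(.lf (nat_lit 485602) (.g (nat_lit 3351) (.e (nat_lit 24609) (nat_lit 3) (.e (nat_lit 98373) (nat_lit 29) (.e (nat_lit 450587) (nat_lit 10) (.e (nat_lit 573457) (nat_lit 9) .nil)))) (.g (nat_lit 0) (.e (nat_lit 132998) (nat_lit 0) .nil) .nil))) 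
(.lf (nat_lit 486114) (.g (nat_lit 2672) (.e (nat_lit 24626) (nat_lit 9) (.e (nat_lit 336454) (nat_lit 34) (.e (nat_lit 483365) (nat_lit 18) (.e (nat_lit 57849) (nat_lit 252) (.e (nat_lit 57375) (nat_lit 2) (.e (nat_lit 90157) (nat_lit 11) .nil)))))) (.g (nat_lit 1) (.e (nat_lit 133621) (nat_lit 0) .nil) .nil)))) (.nd (nat_lit 9) 
(.lf (nat_lit 485858) (.g (nat_lit 2469) (.e (nat_lit 24617) (nat_lit 7) (.e (nat_lit 319534) (nat_lit 16) (.e (nat_lit 286756) (nat_lit 10) (.e (nat_lit 344169) (nat_lit 40) (.e (nat_lit 671780) (nat_lit 12) (.e (nat_lit 164049) (nat_lit 55) (.e (nat_lit 778464) (nat_lit 11) .nil))))))) (.g (nat_lit 1) (.e (nat_lit 133320) (nat_lit 0) .nil) .nil))) 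
(.lf (nat_lit 486370) (.g (nat_lit 1888) (.e (nat_lit 24628) (nat_lit 9) (.e (nat_lit 336443) (nat_lit 32) (.e (nat_lit 466969) (nat_lit 21) (.e (nat_lit 164332) (nat_lit 230) (.e (nat_lit 163850) (nat_lit 0) .nil))))) (.g (nat_lit 0) (.e (nat_lit 133941) (nat_lit 0) .nil) .nil)))))))) (.nd (nat_lit 5) (.nd (nat_lit 6) (.nd (nat_lit 7) (.nd (nat_lit 8) (.nd (nat_lit 9) 
(.lf (nat_lit 485394) (.g (nat_lit 3881) (.e (nat_lit 24608) (nat_lit 3) (.e (nat_lit 98372) (nat_lit 29) (.e (nat_lit 450586) (nat_lit 10) (.e (nat_lit 573475) (nat_lit 12) (.e (nat_lit 57574) (nat_lit 55) (.e (nat_lit 786176) (nat_lit 11) .nil)))))) (.g (nat_lit 1) (.e (nat_lit 132753) (nat_lit 0) .nil) .nil))) 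
(.lf (nat_lit 485906) (.g (nat_lit 2305) (.e (nat_lit 24617) (nat_lit 7) (.e (nat_lit 319534) (nat_lit 16) (.e (nat_lit 286759) (nat_lit 12) (.e (nat_lit 385107) (nat_lit 51) (.e (nat_lit 794678) (nat_lit 24) (.e (nat_lit 213030) (nat_lit 11) .nil)))))) (.g (nat_lit 1) (.e (nat_lit 133374) (nat_lit 0) .nil) .nil)))) (.nd (nat_lit 9) 
(.lf (nat_lit 485650) (.g (nat_lit 1562) (.e (nat_lit 24609) (nat_lit 3) (.e (nat_lit 98373) (nat_lit 29) (.e (nat_lit 450584) (nat_lit 9) (.e (nat_lit 565275) (nat_lit 9) .nil)))) (.g (nat_lit 0) (.e (nat_lit 133047) (nat_lit 0) .nil) .nil))) 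
(.lf (nat_lit 486162) (.g (nat_lit 2721) (.e (nat_lit 24627) (nat_lit 9) (.e (nat_lit 336443) (nat_lit 32) (.e (nat_lit 466969) (nat_lit 21) (.e (nat_lit 164327) (nat_lit 230) (.e (nat_lit 163882) (nat_lit 4) (.e (nat_lit 213031) (nat_lit 11) .nil)))))) (.g (nat_lit 1) (.e (nat_lit 133692) (nat_lit 0) .nil) .nil))))) (.nd (nat_lit 8) (.nd (nat_lit 9) 
(.lf (nat_lit 485522) (.g (nat_lit 2681) (.e (nat_lit 24608) (nat_lit 3) (.e (nat_lit 98388) (nat_lit 33) (.e (nat_lit 491566) (nat_lit 12) (.e (nat_lit 385066) (nat_lit 26) .nil)))) (.g (nat_lit 0) (.e (nat_lit 132896) (nat_lit 0) .nil) .nil))) 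
(.lf (nat_lit 486034) (.g (nat_lit 254) (.e (nat_lit 24625) (nat_lit 9) (.e (nat_lit 336438) (nat_lit 31) (.e (nat_lit 458769) (nat_lit 16) .nil))) (.g (nat_lit 0) (.e (nat_lit 133535) (nat_lit 0) .nil) .nil)))) (.nd (nat_lit 9) 
(.lf (nat_lit 485778) (.g (nat_lit 2604) (.e (nat_lit 24617) (nat_lit 7) (.e (nat_lit 319533) (nat_lit 16) (.e (nat_lit 286753) (nat_lit 10) (.e (nat_lit 344168) (nat_lit 40) (.e (nat_lit 671781) (nat_lit 12) (.e (nat_lit 164050) (nat_lit 55) (.e (nat_lit 778464) (nat_lit 11) .nil))))))) (.g (nat_lit 1) (.e (nat_lit 133218) (nat_lit 0) .nil) .nil))) 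
(.lf (nat_lit 486290) (.g (nat_lit 3803) (.e (nat_lit 24628) (nat_lit 9) (.e (nat_lit 336366) (nat_lit 27) (.e (nat_lit 426499) (nat_lit 27) (.e (nat_lit 335986) (nat_lit 1) (.e (nat_lit 57847) (nat_lit 252) (.e (nat_lit 57372) (nat_lit 2) (.e (nat_lit 90160) (nat_lit 11) .nil))))))) (.g (nat_lit 1) (.e (nat_lit 133845) (nat_lit 0) .nil) .nil)))))) 
(.nd (nat_lit 7) (.nd (nat_lit 8) (.nd (nat_lit 9) 
(.lf (nat_lit 485458) (.g (nat_lit 3491) (.e (nat_lit 24608) (nat_lit 3) (.e (nat_lit 98373) (nat_lit 29) (.e (nat_lit 450587) (nat_lit 10) (.e (nat_lit 573475) (nat_lit 12) (.e (nat_lit 57346) (nat_lit 0) (.e (nat_lit 7458) (nat_lit 396) (.e (nat_lit 2551) (nat_lit 159) .nil))))))) (.g (nat_lit 1) (.e (nat_lit 132828) (nat_lit 0) .nil) .nil))) 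
(.lf (nat_lit 485970) (.g (nat_lit 4114) (.e (nat_lit 24624) (nat_lit 9) (.e (nat_lit 336324) (nat_lit 18) (.e (nat_lit 204831) (nat_lit 18) (.e (nat_lit 57852) (nat_lit 252) .nil)))) (.g (nat_lit 0) (.e (nat_lit 133465) (nat_lit 0) .nil) .nil)))) (.nd (nat_lit 9) 
(.lf (nat_lit 485714) (.g (nat_lit 363) (.e (nat_lit 24617) (nat_lit 7) (.e (nat_lit 319529) (nat_lit 16) (.e (nat_lit 286759) (nat_lit 12) .nil))) (.g (nat_lit 0) (.e (nat_lit 133141) (nat_lit 0) .nil) .nil))) 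
(.lf (nat_lit 486226) (.g (nat_lit 2724) (.e (nat_lit 24627) (nat_lit 9) (.e (nat_lit 336454) (nat_lit 34) (.e (nat_lit 483363) (nat_lit 18) (.e (nat_lit 57854) (nat_lit 252) (.e (nat_lit 57371) (nat_lit 2) (.e (nat_lit 90159) (nat_lit 11) .nil)))))) (.g (nat_lit 1) (.e (nat_lit 133766) (nat_lit 0) .nil) .nil))))) (.nd (nat_lit 8) (.nd (nat_lit 9) 
(.lf (nat_lit 485586) (.g (nat_lit 1722) (.e (nat_lit 24609) (nat_lit 3) (.e (nat_lit 98372) (nat_lit 29) (.e (nat_lit 450586) (nat_lit 10) (.e (nat_lit 573477) (nat_lit 12) (.e (nat_lit 57574) (nat_lit 55) (.e (nat_lit 778460) (nat_lit 11) .nil)))))) (.g (nat_lit 1) (.e (nat_lit 132979) (nat_lit 0) .nil) .nil))) 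
(.lf (nat_lit 486098) (.g (nat_lit 617) (.e (nat_lit 24626) (nat_lit 9) (.e (nat_lit 336443) (nat_lit 32) (.e (nat_lit 466971) (nat_lit 21) .nil))) (.g (nat_lit 0) (.e (nat_lit 133603) (nat_lit 0) .nil) .nil)))) (.nd (nat_lit 9) 
(.lf (nat_lit 485842) (.g (nat_lit 1309) (.e (nat_lit 24617) (nat_lit 7) (.e (nat_lit 319534) (nat_lit 16) (.e (nat_lit 286756) (nat_lit 10) (.e (nat_lit 344088) (nat_lit 18) .nil)))) (.g (nat_lit 0) (.e (nat_lit 133300) (nat_lit 0) .nil) .nil))) 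
(.lf (nat_lit 486354) (.g (nat_lit 1168) (.e (nat_lit 24628) (nat_lit 9) (.e (nat_lit 336443) (nat_lit 32) (.e (nat_lit 466969) (nat_lit 21) (.e (nat_lit 164330) (nat_lit 230) .nil)))) (.g (nat_lit 0) (.e (nat_lit 133925) (nat_lit 0) .nil) .nil))))))) (.nd (nat_lit 6) (.nd (nat_lit 7) (.nd (nat_lit 8) (.nd (nat_lit 9) 
(.lf (nat_lit 485426) (.g (nat_lit 3181) (.e (nat_lit 24608) (nat_lit 3) (.e (nat_lit 98373) (nat_lit 29) (.e (nat_lit 450586) (nat_lit 10) (.e (nat_lit 573475) (nat_lit 12) (.e (nat_lit 57574) (nat_lit 55) (.e (nat_lit 778465) (nat_lit 11) .nil)))))) (.g (nat_lit 1) (.e (nat_lit 132796) (nat_lit 0) .nil) .nil))) 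
(.lf (nat_lit 485938) (.g (nat_lit 3719) (.e (nat_lit 24623) (nat_lit 9) (.e (nat_lit 336412) (nat_lit 27) (.e (nat_lit 426343) (nat_lit 14) (.e (nat_lit 491560) (nat_lit 10) (.e (nat_lit 344179) (nat_lit 44) (.e (nat_lit 778466) (nat_lit 11) .nil)))))) (.g (nat_lit 1) (.e (nat_lit 133431) (nat_lit 0) .nil) .nil)))) (.nd (nat_lit 9) 
(.lf (nat_lit 485682) (.g (nat_lit 2051) (.e (nat_lit 24616) (nat_lit 7) (.e (nat_lit 319530) (nat_lit 16) (.e (nat_lit 286759) (nat_lit 12) (.e (nat_lit 385115) (nat_lit 53) (.e (nat_lit 811034) (nat_lit 11) (.e (nat_lit 879) (nat_lit 75) (.e (nat_lit 778464) (nat_lit 11) .nil))))))) (.g (nat_lit 1) (.e (nat_lit 133092) (nat_lit 0) .nil) .nil))) 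
(.lf (nat_lit 486194) (.g (nat_lit 1333) (.e (nat_lit 24627) (nat_lit 9) (.e (nat_lit 336443) (nat_lit 32) (.e (nat_lit 466972) (nat_lit 21) (.e (nat_lit 164330) (nat_lit 230) .nil)))) (.g (nat_lit 0) (.e (nat_lit 133724) (nat_lit 0) .nil) .nil))))) (.nd (nat_lit 8) (.nd (nat_lit 9) 
(.lf (nat_lit 485554) (.g (nat_lit 1965) (.e (nat_lit 24609) (nat_lit 3) (.e (nat_lit 98365) (nat_lit 26) (.e (nat_lit 426306) (nat_lit 12) (.e (nat_lit 475177) (nat_lit 24) (.e (nat_lit 516124) (nat_lit 2) (.e (nat_lit 213032) (nat_lit 11) .nil)))))) (.g (nat_lit 1) (.e (nat_lit 132947) (nat_lit 0) .nil) .nil))) 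
(.lf (nat_lit 486066) (.g (nat_lit 2677) (.e (nat_lit 24625) (nat_lit 9) (.e (nat_lit 336443) (nat_lit 32) (.e (nat_lit 466972) (nat_lit 21) (.e (nat_lit 164331) (nat_lit 230) (.e (nat_lit 163878) (nat_lit 4) (.e (nat_lit 213030) (nat_lit 11) .nil)))))) (.g (nat_lit 1) (.e (nat_lit 133568) (nat_lit 0) .nil) .nil)))) (.nd (nat_lit 9) 
(.lf (nat_lit 485810) (.g (nat_lit 2772) (.e (nat_lit 24617) (nat_lit 7) (.e (nat_lit 319533) (nat_lit 16) (.e (nat_lit 286758) (nat_lit 12) (.e (nat_lit 385109) (nat_lit 51) (.e (nat_lit 794677) (nat_lit 24) (.e (nat_lit 213030) (nat_lit 11) .nil)))))) (.g (nat_lit 1) (.e (nat_lit 133255) (nat_lit 0) .nil) .nil))) 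
(.lf (nat_lit 486322) (.g (nat_lit 2623) (.e (nat_lit 24628) (nat_lit 9) (.e (nat_lit 336414) (nat_lit 27) (.e (nat_lit 426503) (nat_lit 27) (.e (nat_lit 335986) (nat_lit 1) (.e (nat_lit 57847) (nat_lit 252) (.e (nat_lit 57375) (nat_lit 2) (.e (nat_lit 90160) (nat_lit 11) .nil))))))) (.g (nat_lit 1) (.e (nat_lit 133889) (nat_lit 0) .nil) .nil)))))) 
(.nd (nat_lit 7) (.nd (nat_lit 8) (.nd (nat_lit 9) 
(.lf (nat_lit 485490) (.g (nat_lit 3192) (.e (nat_lit 24608) (nat_lit 3) (.e (nat_lit 98373) (nat_lit 29) (.e (nat_lit 450588) (nat_lit 10) (.e (nat_lit 573454) (nat_lit 9) .nil)))) (.g (nat_lit 0) (.e (nat_lit 132860) (nat_lit 0) .nil) .nil))) 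
(.lf (nat_lit 486002) (.g (nat_lit 2749) (.e (nat_lit 24624) (nat_lit 9) (.e (nat_lit 336454) (nat_lit 34) (.e (nat_lit 483365) (nat_lit 18) (.e (nat_lit 57846) (nat_lit 252) (.e (nat_lit 57371) (nat_lit 2) .nil))))) (.g (nat_lit 0) (.e (nat_lit 133501) (nat_lit 0) .nil) .nil)))) (.nd (nat_lit 9) 
(.lf (nat_lit 485746) (.g (nat_lit 2239) (.e (nat_lit 24617) (nat_lit 7) (.e (nat_lit 319531) (nat_lit 16) (.e (nat_lit 286759) (nat_lit 12) (.e (nat_lit 385093) (nat_lit 49) (.e (nat_lit 778548) (nat_lit 14) .nil))))) (.g (nat_lit 0) (.e (nat_lit 133176) (nat_lit 0) .nil) .nil))) 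
(.lf (nat_lit 486258) (.g (nat_lit 1765) (.e (nat_lit 24627) (nat_lit 9) (.e (nat_lit 336454) (nat_lit 34) (.e (nat_lit 483365) (nat_lit 18) (.e (nat_lit 57853) (nat_lit 252) (.e (nat_lit 57373) (nat_lit 2) .nil))))) (.g (nat_lit 0) (.e (nat_lit 133798) (nat_lit 0) .nil) .nil))))) (.nd (nat_lit 8) (.nd (nat_lit 9) 
(.lf (nat_lit 485618) (.g (nat_lit 2844) (.e (nat_lit 24609) (nat_lit 3) (.e (nat_lit 98373) (nat_lit 29) (.e (nat_lit 450587) (nat_lit 10) (.e (nat_lit 573477) (nat_lit 12) (.e (nat_lit 57573) (nat_lit 55) (.e (nat_lit 778469) (nat_lit 11) .nil)))))) (.g (nat_lit 1) (.e (nat_lit 133014) (nat_lit 0) .nil) .nil))) 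
(.lf (nat_lit 486130) (.g (nat_lit 3945) (.e (nat_lit 24627) (nat_lit 9) (.e (nat_lit 336324) (nat_lit 18) (.e (nat_lit 204831) (nat_lit 18) (.e (nat_lit 57852) (nat_lit 252) .nil)))) (.g (nat_lit 0) (.e (nat_lit 133643) (nat_lit 0) .nil) .nil)))) (.nd (nat_lit 9) 
(.lf (nat_lit 485874) (.g (nat_lit 3109) (.e (nat_lit 24617) (nat_lit 7) (.e (nat_lit 319534) (nat_lit 16) (.e (nat_lit 286756) (nat_lit 10) (.e (nat_lit 344160) (nat_lit 37) (.e (nat_lit 647190) (nat_lit 9) (.e (nat_lit 1027) (nat_lit 81) (.e (nat_lit 2346) (nat_lit 151) (.e (nat_lit 778466) (nat_lit 11) .nil)))))))) (.g (nat_lit 1) (.e (nat_lit 133336) (nat_lit 0) .nil) .nil))) 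
(.lf (nat_lit 486386) (.g (nat_lit 1767) (.e (nat_lit 24628) (nat_lit 9) (.e (nat_lit 336443) (nat_lit 32) (.e (nat_lit 466971) (nat_lit 21) (.e (nat_lit 164326) (nat_lit 230) (.e (nat_lit 163877) (nat_lit 4) (.e (nat_lit 213032) (nat_lit 11) .nil)))))) (.g (nat_lit 1) (.e (nat_lit 133957) (nat_lit 0) .nil) .nil))))))))) 
(.nd (nat_lit 4) (.nd (nat_lit 5) (.nd (nat_lit 6) (.nd (nat_lit 7) (.nd (nat_lit 8) 
(.nd (nat_lit 9) 
(.lf (nat_lit 485386) (.g (nat_lit 3794) (.e (nat_lit 24608) (nat_lit 3) (.e (nat_lit 98372) (nat_lit 29) (.e (nat_lit 450579) (nat_lit 5) (.e (nat_lit 532501) (nat_lit 1) (.e (nat_lit 65280) (nat_lit 233) (.e (nat_lit 2557) (nat_lit 159) .nil)))))) (.g (nat_lit 1) (.e (nat_lit 132745) (nat_lit 0) .nil) .nil))) 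
(.lf (nat_lit 485898) (.g (nat_lit 1169) (.e (nat_lit 24617) (nat_lit 7) (.e (nat_lit 319534) (nat_lit 16) (.e (nat_lit 286758) (nat_lit 12) (.e (nat_lit 385115) (nat_lit 53) .nil)))) (.g (nat_lit 0) (.e (nat_lit 133361) (nat_lit 0) .nil) .nil)))) (.nd (nat_lit 9) 
(.lf (nat_lit 485642) (.g (nat_lit 4559) (.e (nat_lit 24609) (nat_lit 3) (.e (nat_lit 98373) (nat_lit 29) (.e (nat_lit 450588) (nat_lit 10) (.e (nat_lit 573475) (nat_lit 12) (.e (nat_lit 57574) (nat_lit 55) (.e (nat_lit 778463) (nat_lit 11) .nil)))))) (.g (nat_lit 1) (.e (nat_lit 133038) (nat_lit 0) .nil) .nil))) 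
(.lf (nat_lit 486154) (.g (nat_lit 2310) (.e (nat_lit 24627) (nat_lit 9) (.e (nat_lit 336443) (nat_lit 32) (.e (nat_lit 466969) (nat_lit 21) (.e (nat_lit 164322) (nat_lit 230) (.e (nat_lit 163878) (nat_lit 4) (.e (nat_lit 213032) (nat_lit 11) .nil)))))) (.g (nat_lit 1) (.e (nat_lit 133684) (nat_lit 0) .nil) .nil))))) (.nd (nat_lit 8) (.nd (nat_lit 9) 
(.lf (nat_lit 485514) (.g (nat_lit 3194) (.e (nat_lit 24608) (nat_lit 3) (.e (nat_lit 98384) (nat_lit 32) (.e (nat_lit 475211) (nat_lit 41) (.e (nat_lit 712728) (nat_lit 18) (.e (nat_lit 204834) (nat_lit 19) (.e (nat_lit 114432) (nat_lit 2) .nil)))))) (.g (nat_lit 1) (.e (nat_lit 132887) (nat_lit 0) .nil) .nil))) 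
(.lf (nat_lit 486026) (.g (nat_lit 3834) (.e (nat_lit 24625) (nat_lit 9) (.e (nat_lit 336324) (nat_lit 18) (.e (nat_lit 204831) (nat_lit 18) (.e (nat_lit 57830) (nat_lit 250) .nil)))) (.g (nat_lit 0) (.e (nat_lit 133526) (nat_lit 0) .nil) .nil)))) (.nd (nat_lit 9) 
(.lf (nat_lit 485770) (.g (nat_lit 1264) (.e (nat_lit 24617) (nat_lit 7) (.e (nat_lit 319533) (nat_lit 16) (.e (nat_lit 286748) (nat_lit 9) (.e (nat_lit 336295) (nat_lit 15) .nil)))) (.g (nat_lit 0) (.e (nat_lit 133209) (nat_lit 0) .nil) .nil))) 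
(.lf (nat_lit 486282) (.g (nat_lit 2206) (.e (nat_lit 24628) (nat_lit 9) (.e (nat_lit 336366) (nat_lit 27) (.e (nat_lit 426498) (nat_lit 27) (.e (nat_lit 335986) (nat_lit 1) (.e (nat_lit 57849) (nat_lit 252) (.e (nat_lit 57372) (nat_lit 2) (.e (nat_lit 90158) (nat_lit 11) .nil))))))) (.g (nat_lit 1) (.e (nat_lit 133837) (nat_lit 0) .nil) .nil)))))) 
(.nd (nat_lit 7) (.nd (nat_lit 8) (.nd (nat_lit 9) 
(.lf (nat_lit 485450) (.g (nat_lit 4103) (.e (nat_lit 24608) (nat_lit 3) (.e (nat_lit 98373) (nat_lit 29) (.e (nat_lit 450587) (nat_lit 10) (.e (nat_lit 573475) (nat_lit 12) (.e (nat_lit 57346) (nat_lit 0) (.e (nat_lit 7410) (nat_lit 396) (.e (nat_lit 2556) (nat_lit 159) .nil))))))) (.g (nat_lit 1) (.e (nat_lit 132820) (nat_lit 0) .nil) .nil))) 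
(.lf (nat_lit 485962) (.g (nat_lit 2512) (.e (nat_lit 24623) (nat_lit 9) (.e (nat_lit 336456) (nat_lit 34) (.e (nat_lit 483365) (nat_lit 18) (.e (nat_lit 57846) (nat_lit 252) (.e (nat_lit 57375) (nat_lit 2) (.e (nat_lit 90160) (nat_lit 11) .nil)))))) (.g (nat_lit 1) (.e (nat_lit 133456) (nat_lit 0) .nil) .nil)))) (.nd (nat_lit 9) 
(.lf (nat_lit 485706) (.g (nat_lit 1816) (.e (nat_lit 24617) (nat_lit 7) (.e (nat_lit 319528) (nat_lit 16) (.e (nat_lit 286759) (nat_lit 12) (.e (nat_lit 385107) (nat_lit 51) (.e (nat_lit 794679) (nat_lit 24) (.e (nat_lit 213030) (nat_lit 11) .nil)))))) (.g (nat_lit 1) (.e (nat_lit 133132) (nat_lit 0) .nil) .nil))) 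
(.lf (nat_lit 486218) (.g (nat_lit 2650) (.e (nat_lit 24627) (nat_lit 9) (.e (nat_lit 336454) (nat_lit 34) (.e (nat_lit 483363) (nat_lit 18) (.e (nat_lit 57847) (nat_lit 252) (.e (nat_lit 57374) (nat_lit 2) (.e (nat_lit 90160) (nat_lit 11) .nil)))))) (.g (nat_lit 1) (.e (nat_lit 133758) (nat_lit 0) .nil) .nil))))) (.nd (nat_lit 8) (.nd (nat_lit 9) 
(.lf (nat_lit 485578) (.g (nat_lit 415) (.e (nat_lit 24609) (nat_lit 3) (.e (nat_lit 98372) (nat_lit 29) (.e (nat_lit 450586) (nat_lit 10) .nil))) (.g (nat_lit 0) (.e (nat_lit 132971) (nat_lit 0) .nil) .nil))) 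
(.lf (nat_lit 486090) (.g (nat_lit 690) (.e (nat_lit 24626) (nat_lit 9) (.e (nat_lit 336443) (nat_lit 32) (.e (nat_lit 466969) (nat_lit 21) .nil))) (.g (nat_lit 0) (.e (nat_lit 133595) (nat_lit 0) .nil) .nil)))) (.nd (nat_lit 9) 
(.lf (nat_lit 485834) (.g (nat_lit 3202) (.e (nat_lit 24617) (nat_lit 7) (.e (nat_lit 319534) (nat_lit 16) (.e (nat_lit 286749) (nat_lit 9) (.e (nat_lit 335997) (nat_lit 1) (.e (nat_lit 57852) (nat_lit 252) (.e (nat_lit 65280) (nat_lit 65) (.e (nat_lit 213030) (nat_lit 11) .nil))))))) (.g (nat_lit 1) (.e (nat_lit 133290) (nat_lit 0) .nil) .nil))) 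
(.lf (nat_lit 486346) (.g (nat_lit 1711) (.e (nat_lit 24628) (nat_lit 9) (.e (nat_lit 336443) (nat_lit 32) (.e (nat_lit 466969) (nat_lit 21) (.e (nat_lit 164327) (nat_lit 230) (.e (nat_lit 163849) (nat_lit 0) .nil))))) (.g (nat_lit 0) (.e (nat_lit 133917) (nat_lit 0) .nil) .nil))))))) (.nd (nat_lit 6) (.nd (nat_lit 7) (.nd (nat_lit 8) (.nd (nat_lit 9) 
(.lf (nat_lit 485418) (.g (nat_lit 4940) (.e (nat_lit 24608) (nat_lit 3) (.e (nat_lit 98372) (nat_lit 29) (.e (nat_lit 450588) (nat_lit 10) (.e (nat_lit 573475) (nat_lit 12) (.e (nat_lit 57574) (nat_lit 55) (.e (nat_lit 778466) (nat_lit 11) .nil)))))) (.g (nat_lit 1) (.e (nat_lit 132777) (nat_lit 0) .nil) .nil))) 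
(.lf (nat_lit 485930) (.g (nat_lit 612) (.e (nat_lit 24623) (nat_lit 9) (.e (nat_lit 336389) (nat_lit 27) (.e (nat_lit 426010) (nat_lit 0) .nil))) (.g (nat_lit 0) (.e (nat_lit 133423) (nat_lit 0) .nil) .nil)))) (.nd (nat_lit 9) 
(.lf (nat_lit 485674) (.g (nat_lit 3063) (.e (nat_lit 24616) (nat_lit 7) (.e (nat_lit 319530) (nat_lit 16) (.e (nat_lit 286759) (nat_lit 12) (.e (nat_lit 385109) (nat_lit 51) (.e (nat_lit 794677) (nat_lit 24) .nil))))) (.g (nat_lit 0) (.e (nat_lit 133084) (nat_lit 0) .nil) .nil))) 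
(.lf (nat_lit 486186) (.g (nat_lit 2295) (.e (nat_lit 24627) (nat_lit 9) (.e (nat_lit 336443) (nat_lit 32) (.e (nat_lit 466971) (nat_lit 21) (.e (nat_lit 164326) (nat_lit 230) (.e (nat_lit 163882) (nat_lit 4) (.e (nat_lit 213031) (nat_lit 11) .nil)))))) (.g (nat_lit 1) (.e (nat_lit 133716) (nat_lit 0) .nil) .nil))))) (.nd (nat_lit 8) (.nd (nat_lit 9) 
(.lf (nat_lit 485546) (.g (nat_lit 1987) (.e (nat_lit 24609) (nat_lit 3) (.e (nat_lit 98365) (nat_lit 26) (.e (nat_lit 426187) (nat_lit 9) (.e (nat_lit 426438) (nat_lit 18) (.e (nat_lit 98339) (nat_lit 19) (.e (nat_lit 213030) (nat_lit 11) .nil)))))) (.g (nat_lit 1) (.e (nat_lit 132939) (nat_lit 0) .nil) .nil))) 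
(.lf (nat_lit 486058) (.g (nat_lit 2421) (.e (nat_lit 24625) (nat_lit 9) (.e (nat_lit 336443) (nat_lit 32) (.e (nat_lit 466971) (nat_lit 21) (.e (nat_lit 164327) (nat_lit 230) (.e (nat_lit 163882) (nat_lit 4) (.e (nat_lit 213031) (nat_lit 11) .nil)))))) (.g (nat_lit 1) (.e (nat_lit 133560) (nat_lit 0) .nil) .nil)))) (.nd (nat_lit 9) 
(.lf (nat_lit 485802) (.g (nat_lit 3092) (.e (nat_lit 24617) (nat_lit 7) (.e (nat_lit 319533) (nat_lit 16) (.e (nat_lit 286753) (nat_lit 10) (.e (nat_lit 344160) (nat_lit 37) (.e (nat_lit 647203) (nat_lit 14) (.e (nat_lit 2508) (nat_lit 157) (.e (nat_lit 879) (nat_lit 75) (.e (nat_lit 778464) (nat_lit 11) .nil)))))))) (.g (nat_lit 1) (.e (nat_lit 133243) (nat_lit 0) .nil) .nil))) 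
(.lf (nat_lit 486314) (.g (nat_lit 2750) (.e (nat_lit 24628) (nat_lit 9) (.e (nat_lit 336369) (nat_lit 27) (.e (nat_lit 426173) (nat_lit 7) (.e (nat_lit 409649) (nat_lit 18) (.e (nat_lit 303111) (nat_lit 0) (.e (nat_lit 3578) (nat_lit 223) (.e (nat_lit 745509) (nat_lit 11) .nil))))))) (.g (nat_lit 1) (.e (nat_lit 133872) (nat_lit 0) .nil) .nil)))))) 
(.nd (nat_lit 7) (.nd (nat_lit 8) (.nd (nat_lit 9) 
(.lf (nat_lit 485482) (.g (nat_lit 3373) (.e (nat_lit 24608) (nat_lit 3) (.e (nat_lit 98373) (nat_lit 29) (.e (nat_lit 450587) (nat_lit 10) (.e (nat_lit 573478) (nat_lit 12) (.e (nat_lit 57574) (nat_lit 55) (.e (nat_lit 778463) (nat_lit 11) .nil)))))) (.g (nat_lit 1) (.e (nat_lit 132852) (nat_lit 0) .nil) .nil))) 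
(.lf (nat_lit 485994) (.g (nat_lit 3142) (.e (nat_lit 24624) (nat_lit 9) (.e (nat_lit 336454) (nat_lit 34) (.e (nat_lit 483363) (nat_lit 18) (.e (nat_lit 57854) (nat_lit 252) (.e (nat_lit 57371) (nat_lit 2) (.e (nat_lit 90160) (nat_lit 11) .nil)))))) (.g (nat_lit 1) (.e (nat_lit 133493) (nat_lit 0) .nil) .nil)))) (.nd (nat_lit 9) 
(.lf (nat_lit 485738) (.g (nat_lit 1265) (.e (nat_lit 24617) (nat_lit 7) (.e (nat_lit 319530) (nat_lit 16) (.e (nat_lit 286759) (nat_lit 12) (.e (nat_lit 385113) (nat_lit 53) .nil)))) (.g (nat_lit 0) (.e (nat_lit 133168) (nat_lit 0) .nil) .nil))) 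
(.lf (nat_lit 486250) (.g (nat_lit 1646) (.e (nat_lit 24627) (nat_lit 9) (.e (nat_lit 336454) (nat_lit 34) (.e (nat_lit 483365) (nat_lit 18) (.e (nat_lit 57849) (nat_lit 252) (.e (nat_lit 57370) (nat_lit 2) (.e (nat_lit 90159) (nat_lit 11) .nil)))))) (.g (nat_lit 1) (.e (nat_lit 133790) (nat_lit 0) .nil) .nil))))) (.nd (nat_lit 8) (.nd (nat_lit 9) 
(.lf (nat_lit 485610) (.g (nat_lit 2676) (.e (nat_lit 24609) (nat_lit 3) (.e (nat_lit 98373) (nat_lit 29) (.e (nat_lit 450587) (nat_lit 10) (.e (nat_lit 573475) (nat_lit 12) (.e (nat_lit 57346) (nat_lit 0) (.e (nat_lit 7458) (nat_lit 396) (.e (nat_lit 2554) (nat_lit 159) .nil))))))) (.g (nat_lit 1) (.e (nat_lit 133006) (nat_lit 0) .nil) .nil))) 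
(.lf (nat_lit 486122) (.g (nat_lit 3877) (.e (nat_lit 24627) (nat_lit 9) (.e (nat_lit 336324) (nat_lit 18) (.e (nat_lit 204831) (nat_lit 18) (.e (nat_lit 57847) (nat_lit 252) .nil)))) (.g (nat_lit 0) (.e (nat_lit 133635) (nat_lit 0) .nil) .nil)))) (.nd (nat_lit 9) 
(.lf (nat_lit 485866) (.g (nat_lit 1126) (.e (nat_lit 24617) (nat_lit 7) (.e (nat_lit 319534) (nat_lit 16) (.e (nat_lit 286756) (nat_lit 10) (.e (nat_lit 344160) (nat_lit 37) .nil)))) (.g (nat_lit 0) (.e (nat_lit 133328) (nat_lit 0) .nil) .nil))) 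
(.lf (nat_lit 486378) (.g (nat_lit 1753) (.e (nat_lit 24628) (nat_lit 9) (.e (nat_lit 336443) (nat_lit 32) (.e (nat_lit 466971) (nat_lit 21) (.e (nat_lit 164325) (nat_lit 230) (.e (nat_lit 163841) (nat_lit 0) .nil))))) (.g (nat_lit 0) (.e (nat_lit 133949) (nat_lit 0) .nil) .nil)))))))) (.nd (nat_lit 5) (.nd (nat_lit 6) (.nd (nat_lit 7) (.nd (nat_lit 8) (.nd (nat_lit 9) 
(.lf (nat_lit 485402) (.g (nat_lit 3552) (.e (nat_lit 24608) (nat_lit 3) (.e (nat_lit 98372) (nat_lit 29) (.e (nat_lit 450586) (nat_lit 10) (.e (nat_lit 573477) (nat_lit 12) (.e (nat_lit 57575) (nat_lit 55) (.e (nat_lit 786176) (nat_lit 11) .nil)))))) (.g (nat_lit 1) (.e (nat_lit 132761) (nat_lit 0) .nil) .nil))) 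
(.lf (nat_lit 485914) (.g (nat_lit 1932) (.e (nat_lit 24617) (nat_lit 7) (.e (nat_lit 319534) (nat_lit 16) (.e (nat_lit 286759) (nat_lit 12) (.e (nat_lit 385115) (nat_lit 53) (.e (nat_lit 811038) (nat_lit 11) .nil))))) (.g (nat_lit 0) (.e (nat_lit 133382) (nat_lit 0) .nil) .nil)))) (.nd (nat_lit 9) 
(.lf (nat_lit 485658) (.g (nat_lit 1212) (.e (nat_lit 32512) (nat_lit 3) (.e (nat_lit 98372) (nat_lit 29) (.e (nat_lit 450586) (nat_lit 10) (.e (nat_lit 573477) (nat_lit 12) .nil)))) (.g (nat_lit 0) (.e (nat_lit 133056) (nat_lit 0) .nil) .nil))) 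
(.lf (nat_lit 486170) (.g (nat_lit 2358) (.e (nat_lit 24627) (nat_lit 9) (.e (nat_lit 336443) (nat_lit 32) (.e (nat_lit 466969) (nat_lit 21) (.e (nat_lit 164331) (nat_lit 230) (.e (nat_lit 163878) (nat_lit 4) (.e (nat_lit 213032) (nat_lit 11) .nil)))))) (.g (nat_lit 1) (.e (nat_lit 133700) (nat_lit 0) .nil) .nil))))) (.nd (nat_lit 8) (.nd (nat_lit 9) 
(.lf (nat_lit 485530) (.g (nat_lit 2693) (.e (nat_lit 24609) (nat_lit 3) (.e (nat_lit 98358) (nat_lit 26) (.e (nat_lit 426227) (nat_lit 9) (.e (nat_lit 426438) (nat_lit 18) (.e (nat_lit 98339) (nat_lit 19) (.e (nat_lit 213032) (nat_lit 11) .nil)))))) (.g (nat_lit 1) (.e (nat_lit 132907) (nat_lit 0) .nil) .nil))) 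
(.lf (nat_lit 486042) (.g (nat_lit 2025) (.e (nat_lit 24625) (nat_lit 9) (.e (nat_lit 336443) (nat_lit 32) (.e (nat_lit 466969) (nat_lit 21) (.e (nat_lit 164326) (nat_lit 230) (.e (nat_lit 163877) (nat_lit 4) (.e (nat_lit 213032) (nat_lit 11) .nil)))))) (.g (nat_lit 1) (.e (nat_lit 133544) (nat_lit 0) .nil) .nil)))) (.nd (nat_lit 9) 
(.lf (nat_lit 485786) (.g (nat_lit 3063) (.e (nat_lit 24617) (nat_lit 7) (.e (nat_lit 319533) (nat_lit 16) (.e (nat_lit 286753) (nat_lit 10) (.e (nat_lit 344169) (nat_lit 40) (.e (nat_lit 671780) (nat_lit 12) (.e (nat_lit 164049) (nat_lit 55) (.e (nat_lit 778464) (nat_lit 11) .nil))))))) (.g (nat_lit 1) (.e (nat_lit 133227) (nat_lit 0) .nil) .nil))) 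
(.lf (nat_lit 486298) (.g (nat_lit 2589) (.e (nat_lit 24628) (nat_lit 9) (.e (nat_lit 336368) (nat_lit 27) (.e (nat_lit 426499) (nat_lit 27) (.e (nat_lit 335986) (nat_lit 1) (.e (nat_lit 57847) (nat_lit 252) (.e (nat_lit 57372) (nat_lit 2) (.e (nat_lit 90158) (nat_lit 11) .nil))))))) (.g (nat_lit 1) (.e (nat_lit 133853) (nat_lit 0) .nil) .nil)))))) 
(.nd (nat_lit 7) (.nd (nat_lit 8) (.nd (nat_lit 9) 
(.lf (nat_lit 485466) (.g (nat_lit 3612) (.e (nat_lit 24608) (nat_lit 3) (.e (nat_lit 98373) (nat_lit 29) (.e (nat_lit 450587) (nat_lit 10) (.e (nat_lit 573475) (nat_lit 12) (.e (nat_lit 57574) (nat_lit 55) (.e (nat_lit 778463) (nat_lit 11) .nil)))))) (.g (nat_lit 1) (.e (nat_lit 132836) (nat_lit 0) .nil) .nil))) 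
(.lf (nat_lit 485978) (.g (nat_lit 2286) (.e (nat_lit 24624) (nat_lit 9) (.e (nat_lit 336443) (nat_lit 32) (.e (nat_lit 466969) (nat_lit 21) (.e (nat_lit 164330) (nat_lit 230) (.e (nat_lit 163880) (nat_lit 4) (.e (nat_lit 213030) (nat_lit 11) .nil)))))) (.g (nat_lit 1) (.e (nat_lit 133477) (nat_lit 0) .nil) .nil)))) (.nd (nat_lit 9) 
(.lf (nat_lit 485722) (.g (nat_lit 2360) (.e (nat_lit 24617) (nat_lit 7) (.e (nat_lit 319529) (nat_lit 16) (.e (nat_lit 286759) (nat_lit 12) (.e (nat_lit 385115) (nat_lit 53) (.e (nat_lit 811031) (nat_lit 11) (.e (nat_lit 883) (nat_lit 75) (.e (nat_lit 778464) (nat_lit 11) .nil))))))) (.g (nat_lit 1) (.e (nat_lit 133151) (nat_lit 0) .nil) .nil))) 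
(.lf (nat_lit 486234) (.g (nat_lit 3775) (.e (nat_lit 24627) (nat_lit 9) (.e (nat_lit 336454) (nat_lit 34) (.e (nat_lit 483364) (nat_lit 18) (.e (nat_lit 57854) (nat_lit 252) (.e (nat_lit 57373) (nat_lit 2) (.e (nat_lit 90159) (nat_lit 11) .nil)))))) (.g (nat_lit 1) (.e (nat_lit 133774) (nat_lit 0) .nil) .nil))))) (.nd (nat_lit 8) (.nd (nat_lit 9) 
(.lf (nat_lit 485594) (.g (nat_lit 2210) (.e (nat_lit 24609) (nat_lit 3) (.e (nat_lit 98372) (nat_lit 29) (.e (nat_lit 450586) (nat_lit 10) (.e (nat_lit 573478) (nat_lit 12) (.e (nat_lit 57574) (nat_lit 55) (.e (nat_lit 778464) (nat_lit 11) .nil)))))) (.g (nat_lit 1) (.e (nat_lit 132987) (nat_lit 0) .nil) .nil))) 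
(.lf (nat_lit 486106) (.g (nat_lit 3169) (.e (nat_lit 24626) (nat_lit 9) (.e (nat_lit 336443) (nat_lit 32) (.e (nat_lit 466972) (nat_lit 21) (.e (nat_lit 164330) (nat_lit 230) (.e (nat_lit 163878) (nat_lit 4) (.e (nat_lit 213030) (nat_lit 11) .nil)))))) (.g (nat_lit 1) (.e (nat_lit 133611) (nat_lit 0) .nil) .nil)))) (.nd (nat_lit 9) 
(.lf (nat_lit 485850) (.g (nat_lit 1341) (.e (nat_lit 24617) (nat_lit 7) (.e (nat_lit 319534) (nat_lit 16) (.e (nat_lit 286756) (nat_lit 10) (.e (nat_lit 344167) (nat_lit 40) .nil)))) (.g (nat_lit 0) (.e (nat_lit 133310) (nat_lit 0) .nil) .nil))) 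
(.lf (nat_lit 486362) (.g (nat_lit 2678) (.e (nat_lit 24628) (nat_lit 9) (.e (nat_lit 336443) (nat_lit 32) (.e (nat_lit 466969) (nat_lit 21) (.e (nat_lit 164330) (nat_lit 230) (.e (nat_lit 163876) (nat_lit 4) (.e (nat_lit 213032) (nat_lit 11) .nil)))))) (.g (nat_lit 1) (.e (nat_lit 133933) (nat_lit 0) .nil) .nil))))))) (.nd (nat_lit 6) (.nd (nat_lit 7) (.nd (nat_lit 8) (.nd (nat_lit 9) 
(.lf (nat_lit 485434) (.g (nat_lit 2508) (.e (nat_lit 24608) (nat_lit 3) (.e (nat_lit 98373) (nat_lit 29) (.e (nat_lit 450587) (nat_lit 10) (.e (nat_lit 573475) (nat_lit 12) (.e (nat_lit 57345) (nat_lit 0) .nil))))) (.g (nat_lit 0) (.e (nat_lit 132804) (nat_lit 0) .nil) .nil))) 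
(.lf (nat_lit 485946) (.g (nat_lit 4161) (.e (nat_lit 24623) (nat_lit 9) (.e (nat_lit 336454) (nat_lit 34) (.e (nat_lit 483365) (nat_lit 18) (.e (nat_lit 57846) (nat_lit 252) (.e (nat_lit 57372) (nat_lit 2) (.e (nat_lit 90160) (nat_lit 11) .nil)))))) (.g (nat_lit 1) (.e (nat_lit 133439) (nat_lit 0) .nil) .nil)))) (.nd (nat_lit 9) 
(.lf (nat_lit 485690) (.g (nat_lit 1989) (.e (nat_lit 24616) (nat_lit 7) (.e (nat_lit 319533) (nat_lit 16) (.e (nat_lit 286753) (nat_lit 10) (.e (nat_lit 344160) (nat_lit 37) (.e (nat_lit 647195) (nat_lit 9) .nil))))) (.g (nat_lit 0) (.e (nat_lit 133100) (nat_lit 0) .nil) .nil))) 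
(.lf (nat_lit 486202) (.g (nat_lit 2410) (.e (nat_lit 24627) (nat_lit 9) (.e (nat_lit 336443) (nat_lit 32) (.e (nat_lit 466972) (nat_lit 21) (.e (nat_lit 164332) (nat_lit 230) (.e (nat_lit 163852) (nat_lit 0) (.e (nat_lit 3721) (nat_lit 227) (.e (nat_lit 778464) (nat_lit 11) .nil))))))) (.g (nat_lit 1) (.e (nat_lit 133732) (nat_lit 0) .nil) .nil))))) (.nd (nat_lit 8) (.nd (nat_lit 9) 
(.lf (nat_lit 485562) (.g (nat_lit 1616) (.e (nat_lit 24609) (nat_lit 3) (.e (nat_lit 98365) (nat_lit 26) (.e (nat_lit 426307) (nat_lit 12) (.e (nat_lit 475177) (nat_lit 24) (.e (nat_lit 516125) (nat_lit 2) .nil))))) (.g (nat_lit 0) (.e (nat_lit 132955) (nat_lit 0) .nil) .nil))) 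
(.lf (nat_lit 486074) (.g (nat_lit 2502) (.e (nat_lit 24625) (nat_lit 9) (.e (nat_lit 336454) (nat_lit 34) (.e (nat_lit 483365) (nat_lit 18) (.e (nat_lit 57848) (nat_lit 252) (.e (nat_lit 57374) (nat_lit 2) (.e (nat_lit 90156) (nat_lit 11) .nil)))))) (.g (nat_lit 1) (.e (nat_lit 133576) (nat_lit 0) .nil) .nil)))) (.nd (nat_lit 9) 
(.lf (nat_lit 485818) (.g (nat_lit 1982) (.e (nat_lit 24617) (nat_lit 7) (.e (nat_lit 319533) (nat_lit 16) (.e (nat_lit 286759) (nat_lit 12) (.e (nat_lit 385107) (nat_lit 51) (.e (nat_lit 794679) (nat_lit 24) (.e (nat_lit 213030) (nat_lit 11) .nil)))))) (.g (nat_lit 1) (.e (nat_lit 133265) (nat_lit 0) .nil) .nil))) 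
(.lf (nat_lit 486330) (.g (nat_lit 1143) (.e (nat_lit 24628) (nat_lit 9) (.e (nat_lit 336443) (nat_lit 32) (.e (nat_lit 466969) (nat_lit 21) (.e (nat_lit 164305) (nat_lit 226) .nil)))) (.g (nat_lit 0) (.e (nat_lit 133900) (nat_lit 0) .nil) .nil)))))) (.nd (nat_lit 7) (.nd (nat_lit 8) (.nd (nat_lit 9) 
(.lf (nat_lit 485498) (.g (nat_lit 1810) (.e (nat_lit 24608) (nat_lit 3) (.e (nat_lit 98373) (nat_lit 29) (.e (nat_lit 450588) (nat_lit 10) (.e (nat_lit 573475) (nat_lit 12) .nil)))) (.g (nat_lit 0) (.e (nat_lit 132868) (nat_lit 0) .nil) .nil))) 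
(.lf (nat_lit 486010) (.g (nat_lit 2357) (.e (nat_lit 24624) (nat_lit 9) (.e (nat_lit 336454) (nat_lit 34) (.e (nat_lit 483366) (nat_lit 18) (.e (nat_lit 57848) (nat_lit 252) (.e (nat_lit 57372) (nat_lit 2) (.e (nat_lit 90160) (nat_lit 11) .nil)))))) (.g (nat_lit 1) (.e (nat_lit 133510) (nat_lit 0) .nil) .nil)))) (.nd (nat_lit 9) 
(.lf (nat_lit 485754) (.g (nat_lit 2303) (.e (nat_lit 24617) (nat_lit 7) (.e (nat_lit 319531) (nat_lit 16) (.e (nat_lit 286759) (nat_lit 12) (.e (nat_lit 385107) (nat_lit 51) (.e (nat_lit 794678) (nat_lit 24) (.e (nat_lit 213030) (nat_lit 11) .nil)))))) (.g (nat_lit 1) (.e (nat_lit 133190) (nat_lit 0) .nil) .nil))) 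
(.lf (nat_lit 486266) (.g (nat_lit 1300) (.e (nat_lit 24628) (nat_lit 9) (.e (nat_lit 336019) (nat_lit 3) (.e (nat_lit 98384) (nat_lit 32) (.e (nat_lit 483072) (nat_lit 40) .nil)))) (.g (nat_lit 0) (.e (nat_lit 133817) (nat_lit 0) .nil) .nil))))) (.nd (nat_lit 8) (.nd (nat_lit 9) 
(.lf (nat_lit 485626) (.g (nat_lit 4892) (.e (nat_lit 24609) (nat_lit 3) (.e (nat_lit 98373) (nat_lit 29) (.e (nat_lit 450587) (nat_lit 10) (.e (nat_lit 573477) (nat_lit 12) (.e (nat_lit 57575) (nat_lit 55) (.e (nat_lit 778465) (nat_lit 11) .nil)))))) (.g (nat_lit 1) (.e (nat_lit 133022) (nat_lit 0) .nil) .nil))) 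
(.lf (nat_lit 486138) (.g (nat_lit 5091) (.e (nat_lit 24627) (nat_lit 9) (.e (nat_lit 336324) (nat_lit 18) (.e (nat_lit 204831) (nat_lit 18) (.e (nat_lit 57854) (nat_lit 252) (.e (nat_lit 57442) (nat_lit 18) (.e (nat_lit 392960) (nat_lit 10) .nil)))))) (.g (nat_lit 1) (.e (nat_lit 133651) (nat_lit 0) .nil) .nil)))) (.nd (nat_lit 9) 
(.lf (nat_lit 485882) (.g (nat_lit 1590) (.e (nat_lit 24617) (nat_lit 7) (.e (nat_lit 319534) (nat_lit 16) (.e (nat_lit 286756) (nat_lit 10) (.e (nat_lit 344160) (nat_lit 37) (.e (nat_lit 647195) (nat_lit 9) .nil))))) (.g (nat_lit 0) (.e (nat_lit 133344) (nat_lit 0) .nil) .nil))) 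
(.lf (nat_lit 486394) (.g (nat_lit 3054) (.e (nat_lit 24628) (nat_lit 9) (.e (nat_lit 336443) (nat_lit 32) (.e (nat_lit 466971) (nat_lit 21) (.e (nat_lit 164327) (nat_lit 230) (.e (nat_lit 163882) (nat_lit 4) (.e (nat_lit 213030) (nat_lit 11) .nil)))))) (.g (nat_lit 1) (.e (nat_lit 133965) (nat_lit 0) .nil) .nil)))))))))) 
(.nd (nat_lit 3) (.nd (nat_lit 4) (.nd (nat_lit 5) (.nd (nat_lit 6) (.nd (nat_lit 7) 
(.nd (nat_lit 8) (.nd (nat_lit 9) 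
(.lf (nat_lit 485382) (.g (nat_lit 2538) (.e (nat_lit 24608) (nat_lit 3) (.e (nat_lit 98369) (nat_lit 28) (.e (nat_lit 442374) (nat_lit 0) (.e (nat_lit 1800) (nat_lit 119) (.e (nat_lit 516127) (nat_lit 2) (.e (nat_lit 213032) (nat_lit 11) .nil)))))) (.g (nat_lit 1) (.e (nat_lit 132740) (nat_lit 0) .nil) .nil))) 
(.lf (nat_lit 485894) (.g (nat_lit 2637) (.e (nat_lit 24617) (nat_lit 7) (.e (nat_lit 319534) (nat_lit 16) (.e (nat_lit 286756) (nat_lit 10) (.e (nat_lit 344160) (nat_lit 37) (.e (nat_lit 647201) (nat_lit 12) (.e (nat_lit 65280) (nat_lit 55) (.e (nat_lit 778468) (nat_lit 11) .nil))))))) (.g (nat_lit 1) (.e (nat_lit 133356) (nat_lit 0) .nil) .nil)))) (.nd (nat_lit 9) 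
(.lf (nat_lit 485638) (.g (nat_lit 2267) (.e (nat_lit 24609) (nat_lit 3) (.e (nat_lit 98373) (nat_lit 29) (.e (nat_lit 450588) (nat_lit 10) (.e (nat_lit 573473) (nat_lit 12) .nil)))) (.g (nat_lit 0) (.e (nat_lit 133034) (nat_lit 0) .nil) .nil))) 
(.lf (nat_lit 486150) (.g (nat_lit 937) (.e (nat_lit 24627) (nat_lit 9) (.e (nat_lit 336443) (nat_lit 32) (.e (nat_lit 466968) (nat_lit 21) .nil))) (.g (nat_lit 0) (.e (nat_lit 133680) (nat_lit 0) .nil) .nil))))) (.nd (nat_lit 8) (.nd (nat_lit 9) 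
(.lf (nat_lit 485510) (.g (nat_lit 3211) (.e (nat_lit 24608) (nat_lit 3) (.e (nat_lit 98374) (nat_lit 29) (.e (nat_lit 450586) (nat_lit 10) (.e (nat_lit 573475) (nat_lit 12) (.e (nat_lit 57574) (nat_lit 55) (.e (nat_lit 778465) (nat_lit 11) .nil)))))) (.g (nat_lit 1) (.e (nat_lit 132881) (nat_lit 0) .nil) .nil))) 
(.lf (nat_lit 486022) (.g (nat_lit 2496) (.e (nat_lit 24624) (nat_lit 9) (.e (nat_lit 336456) (nat_lit 34) (.e (nat_lit 483365) (nat_lit 18) (.e (nat_lit 57846) (nat_lit 252) (.e (nat_lit 57375) (nat_lit 2) .nil))))) (.g (nat_lit 0) (.e (nat_lit 133522) (nat_lit 0) .nil) .nil)))) (.nd (nat_lit 9) 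
(.lf (nat_lit 485766) (.g (nat_lit 2390) (.e (nat_lit 24617) (nat_lit 7) (.e (nat_lit 319532) (nat_lit 16) (.e (nat_lit 286759) (nat_lit 12) (.e (nat_lit 385107) (nat_lit 51) (.e (nat_lit 794675) (nat_lit 24) (.e (nat_lit 213030) (nat_lit 11) .nil)))))) (.g (nat_lit 1) (.e (nat_lit 133203) (nat_lit 0) .nil) .nil))) 
(.lf (nat_lit 486278) (.g (nat_lit 3995) (.e (nat_lit 24628) (nat_lit 9) (.e (nat_lit 336324) (nat_lit 18) (.e (nat_lit 204831) (nat_lit 18) (.e (nat_lit 57854) (nat_lit 252) (.e (nat_lit 57442) (nat_lit 18) .nil))))) (.g (nat_lit 0) (.e (nat_lit 133832) (nat_lit 0) .nil) .nil)))))) (.nd (nat_lit 7) (.nd (nat_lit 8) (.nd (nat_lit 9) 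
(.lf (nat_lit 485446) (.g (nat_lit 3934) (.e (nat_lit 24608) (nat_lit 3) (.e (nat_lit 98373) (nat_lit 29) (.e (nat_lit 450587) (nat_lit 10) (.e (nat_lit 573475) (nat_lit 12) (.e (nat_lit 57346) (nat_lit 0) (.e (nat_lit 7408) (nat_lit 396) (.e (nat_lit 2557) (nat_lit 159) .nil))))))) (.g (nat_lit 1) (.e (nat_lit 132816) (nat_lit 0) .nil) .nil))) 
(.lf (nat_lit 485958) (.g (nat_lit 2632) (.e (nat_lit 24623) (nat_lit 9) (.e (nat_lit 336456) (nat_lit 34) (.e (nat_lit 483364) (nat_lit 18) (.e (nat_lit 57852) (nat_lit 252) (.e (nat_lit 57373) (nat_lit 2) (.e (nat_lit 90160) (nat_lit 11) .nil)))))) (.g (nat_lit 1) (.e (nat_lit 133452) (nat_lit 0) .nil) .nil)))) (.nd (nat_lit 9) 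
(.lf (nat_lit 485702) (.g (nat_lit 1894) (.e (nat_lit 24617) (nat_lit 7) (.e (nat_lit 319528) (nat_lit 16) (.e (nat_lit 286759) (nat_lit 12) (.e (nat_lit 385107) (nat_lit 51) (.e (nat_lit 794651) (nat_lit 20) .nil))))) (.g (nat_lit 0) (.e (nat_lit 133128) (nat_lit 0) .nil) .nil))) 
(.lf (nat_lit 486214) (.g (nat_lit 3926) (.e (nat_lit 24627) (nat_lit 9) (.e (nat_lit 336454) (nat_lit 34) (.e (nat_lit 483363) (nat_lit 18) (.e (nat_lit 57847) (nat_lit 252) (.e (nat_lit 57373) (nat_lit 2) (.e (nat_lit 90159) (nat_lit 11) .nil)))))) (.g (nat_lit 1) (.e (nat_lit 133754) (nat_lit 0) .nil) .nil))))) (.nd (nat_lit 8) (.nd (nat_lit 9) 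
(.lf (nat_lit 485574) (.g (nat_lit 2277) (.e (nat_lit 24609) (nat_lit 3) (.e (nat_lit 98372) (nat_lit 29) (.e (nat_lit 450579) (nat_lit 5) (.e (nat_lit 532503) (nat_lit 1) (.e (nat_lit 57778) (nat_lit 233) .nil))))) (.g (nat_lit 0) (.e (nat_lit 132967) (nat_lit 0) .nil) .nil))) 
(.lf (nat_lit 486086) (.g (nat_lit 4693) (.e (nat_lit 24626) (nat_lit 9) (.e (nat_lit 336324) (nat_lit 18) (.e (nat_lit 204831) (nat_lit 18) (.e (nat_lit 57848) (nat_lit 252) .nil)))) (.g (nat_lit 0) (.e (nat_lit 133591) (nat_lit 0) .nil) .nil)))) (.nd (nat_lit 9) 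
(.lf (nat_lit 485830) (.g (nat_lit 2067) (.e (nat_lit 24617) (nat_lit 7) (.e (nat_lit 319534) (nat_lit 16) (.e (nat_lit 286749) (nat_lit 9) (.e (nat_lit 335907) (nat_lit 0) (.e (nat_lit 1994) (nat_lit 137) .nil))))) (.g (nat_lit 0) (.e (nat_lit 133286) (nat_lit 0) .nil) .nil))) 
(.lf (nat_lit 486342) (.g (nat_lit 2859) (.e (nat_lit 24628) (nat_lit 9) (.e (nat_lit 336443) (nat_lit 32) (.e (nat_lit 466969) (nat_lit 21) (.e (nat_lit 164326) (nat_lit 230) (.e (nat_lit 163879) (nat_lit 4) (.e (nat_lit 213030) (nat_lit 11) .nil)))))) (.g (nat_lit 1) (.e (nat_lit 133913) (nat_lit 0) .nil) .nil))))))) (.nd (nat_lit 6) (.nd (nat_lit 7) (.nd (nat_lit 8) (.nd (nat_lit 9) 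
(.lf (nat_lit 485414) (.g (nat_lit 4156) (.e (nat_lit 24608) (nat_lit 3) (.e (nat_lit 98372) (nat_lit 29) (.e (nat_lit 450588) (nat_lit 10) (.e (nat_lit 573475) (nat_lit 12) (.e (nat_lit 57573) (nat_lit 55) (.e (nat_lit 778469) (nat_lit 11) .nil)))))) (.g (nat_lit 1) (.e (nat_lit 132773) (nat_lit 0) .nil) .nil))) 
(.lf (nat_lit 485926) (.g (nat_lit 2250) (.e (nat_lit 24623) (nat_lit 9) (.e (nat_lit 336295) (nat_lit 15) (.e (nat_lit 3305) (nat_lit 202) (.e (nat_lit 573482) (nat_lit 13) .nil)))) (.g (nat_lit 0) (.e (nat_lit 133419) (nat_lit 0) .nil) .nil)))) (.nd (nat_lit 9) 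
(.lf (nat_lit 485670) (.g (nat_lit 4401) (.e (nat_lit 32512) (nat_lit 3) (.e (nat_lit 98373) (nat_lit 29) (.e (nat_lit 450588) (nat_lit 10) (.e (nat_lit 573477) (nat_lit 12) .nil)))) (.g (nat_lit 0) (.e (nat_lit 133068) (nat_lit 0) .nil) .nil))) 
(.lf (nat_lit 486182) (.g (nat_lit 1901) (.e (nat_lit 24627) (nat_lit 9) (.e (nat_lit 336443) (nat_lit 32) (.e (nat_lit 466971) (nat_lit 21) (.e (nat_lit 164325) (nat_lit 230) (.e (nat_lit 163880) (nat_lit 4) .nil))))) (.g (nat_lit 0) (.e (nat_lit 133712) (nat_lit 0) .nil) .nil))))) (.nd (nat_lit 8) (.nd (nat_lit 9) 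
(.lf (nat_lit 485542) (.g (nat_lit 636) (.e (nat_lit 24609) (nat_lit 3) (.e (nat_lit 98359) (nat_lit 26) (.e (nat_lit 426305) (nat_lit 12) .nil))) (.g (nat_lit 0) (.e (nat_lit 132921) (nat_lit 0) .nil) .nil))) 
(.lf (nat_lit 486054) (.g (nat_lit 2398) (.e (nat_lit 24625) (nat_lit 9) (.e (nat_lit 336443) (nat_lit 32) (.e (nat_lit 466971) (nat_lit 21) (.e (nat_lit 164325) (nat_lit 230) (.e (nat_lit 163882) (nat_lit 4) (.e (nat_lit 213031) (nat_lit 11) .nil)))))) (.g (nat_lit 1) (.e (nat_lit 133556) (nat_lit 0) .nil) .nil)))) (.nd (nat_lit 9) 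
(.lf (nat_lit 485798) (.g (nat_lit 2250) (.e (nat_lit 24617) (nat_lit 7) (.e (nat_lit 319533) (nat_lit 16) (.e (nat_lit 286753) (nat_lit 10) (.e (nat_lit 344160) (nat_lit 37) (.e (nat_lit 647201) (nat_lit 12) (.e (nat_lit 57573) (nat_lit 55) (.e (nat_lit 778469) (nat_lit 11) .nil))))))) (.g (nat_lit 1) (.e (nat_lit 133239) (nat_lit 0) .nil) .nil))) 
(.lf (nat_lit 486310) (.g (nat_lit 2752) (.e (nat_lit 24628) (nat_lit 9) (.e (nat_lit 336370) (nat_lit 27) (.e (nat_lit 426499) (nat_lit 27) (.e (nat_lit 335986) (nat_lit 1) (.e (nat_lit 57847) (nat_lit 252) (.e (nat_lit 57372) (nat_lit 2) (.e (nat_lit 90158) (nat_lit 11) .nil))))))) (.g (nat_lit 1) (.e (nat_lit 133866) (nat_lit 0) .nil) .nil)))))) 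
(.nd (nat_lit 7) (.nd (nat_lit 8) (.nd (nat_lit 9) 
(.lf (nat_lit 485478) (.g (nat_lit 5272) (.e (nat_lit 24608) (nat_lit 3) (.e (nat_lit 98373) (nat_lit 29) (.e (nat_lit 450587) (nat_lit 10) (.e (nat_lit 573477) (nat_lit 12) (.e (nat_lit 57575) (nat_lit 55) (.e (nat_lit 778465) (nat_lit 11) .nil)))))) (.g (nat_lit 1) (.e (nat_lit 132848) (nat_lit 0) .nil) .nil))) 
(.lf (nat_lit 485990) (.g (nat_lit 2944) (.e (nat_lit 24624) (nat_lit 9) (.e (nat_lit 336452) (nat_lit 34) (.e (nat_lit 483363) (nat_lit 18) (.e (nat_lit 57847) (nat_lit 252) (.e (nat_lit 57375) (nat_lit 2) (.e (nat_lit 90160) (nat_lit 11) .nil)))))) (.g (nat_lit 1) (.e (nat_lit 133489) (nat_lit 0) .nil) .nil)))) (.nd (nat_lit 9) 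
(.lf (nat_lit 485734) (.g (nat_lit 2245) (.e (nat_lit 24617) (nat_lit 7) (.e (nat_lit 319530) (nat_lit 16) (.e (nat_lit 286759) (nat_lit 12) (.e (nat_lit 385107) (nat_lit 51) (.e (nat_lit 794678) (nat_lit 24) (.e (nat_lit 213030) (nat_lit 11) .nil)))))) (.g (nat_lit 1) (.e (nat_lit 133164) (nat_lit 0) .nil) .nil))) 
(.lf (nat_lit 486246) (.g (nat_lit 1863) (.e (nat_lit 24627) (nat_lit 9) (.e (nat_lit 336454) (nat_lit 34) (.e (nat_lit 483365) (nat_lit 18) (.e (nat_lit 57847) (nat_lit 252) (.e (nat_lit 57374) (nat_lit 2) (.e (nat_lit 90159) (nat_lit 11) .nil)))))) (.g (nat_lit 1) (.e (nat_lit 133786) (nat_lit 0) .nil) .nil))))) (.nd (nat_lit 8) (.nd (nat_lit 9) 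
(.lf (nat_lit 485606) (.g (nat_lit 2386) (.e (nat_lit 24609) (nat_lit 3) (.e (nat_lit 98373) (nat_lit 29) (.e (nat_lit 450587) (nat_lit 10) (.e (nat_lit 573475) (nat_lit 12) (.e (nat_lit 57346) (nat_lit 0) .nil))))) (.g (nat_lit 0) (.e (nat_lit 133002) (nat_lit 0) .nil) .nil))) 
(.lf (nat_lit 486118) (.g (nat_lit 2506) (.e (nat_lit 24627) (nat_lit 9) (.e (nat_lit 336324) (nat_lit 18) (.e (nat_lit 204830) (nat_lit 18) (.e (nat_lit 57852) (nat_lit 252) (.e (nat_lit 57440) (nat_lit 18) (.e (nat_lit 392960) (nat_lit 10) .nil)))))) (.g (nat_lit 1) (.e (nat_lit 133629) (nat_lit 0) .nil) .nil)))) (.nd (nat_lit 9) 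
(.lf (nat_lit 485862) (.g (nat_lit 2466) (.e (nat_lit 24617) (nat_lit 7) (.e (nat_lit 319534) (nat_lit 16) (.e (nat_lit 286756) (nat_lit 10) (.e (nat_lit 344169) (nat_lit 40) (.e (nat_lit 671782) (nat_lit 12) (.e (nat_lit 164050) (nat_lit 55) (.e (nat_lit 778464) (nat_lit 11) .nil))))))) (.g (nat_lit 1) (.e (nat_lit 133324) (nat_lit 0) .nil) .nil))) 
(.lf (nat_lit 486374) (.g (nat_lit 3318) (.e (nat_lit 24628) (nat_lit 9) (.e (nat_lit 336443) (nat_lit 32) (.e (nat_lit 466969) (nat_lit 21) (.e (nat_lit 164332) (nat_lit 230) (.e (nat_lit 163880) (nat_lit 4) (.e (nat_lit 213030) (nat_lit 11) .nil)))))) (.g (nat_lit 1) (.e (nat_lit 133945) (nat_lit 0) .nil) .nil)))))))) 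
(.nd (nat_lit 5) (.nd (nat_lit 6) (.nd (nat_lit 7) (.nd (nat_lit 8) (.nd (nat_lit 9) 
(.lf (nat_lit 485398) (.g (nat_lit 3464) (.e (nat_lit 24608) (nat_lit 3) (.e (nat_lit 98372) (nat_lit 29) (.e (nat_lit 450586) (nat_lit 10) (.e (nat_lit 573477) (nat_lit 12) (.e (nat_lit 57574) (nat_lit 55) (.e (nat_lit 786176) (nat_lit 11) .nil)))))) (.g (nat_lit 1) (.e (nat_lit 132757) (nat_lit 0) .nil) .nil))) 
(.lf (nat_lit 485910) (.g (nat_lit 2429) (.e (nat_lit 24617) (nat_lit 7) (.e (nat_lit 319534) (nat_lit 16) (.e (nat_lit 286759) (nat_lit 12) (.e (nat_lit 385115) (nat_lit 53) (.e (nat_lit 811032) (nat_lit 11) (.e (nat_lit 883) (nat_lit 75) (.e (nat_lit 778466) (nat_lit 11) .nil))))))) (.g (nat_lit 1) (.e (nat_lit 133378) (nat_lit 0) .nil) .nil)))) (.nd (nat_lit 9) 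
(.lf (nat_lit 485654) (.g (nat_lit 2240) (.e (nat_lit 24609) (nat_lit 3) (.e (nat_lit 98381) (nat_lit 31) (.e (nat_lit 466947) (nat_lit 0) (.e (nat_lit 1800) (nat_lit 119) (.e (nat_lit 516127) (nat_lit 2) (.e (nat_lit 213032) (nat_lit 11) .nil)))))) (.g (nat_lit 1) (.e (nat_lit 133052) (nat_lit 0) .nil) .nil))) 
(.lf (nat_lit 486166) (.g (nat_lit 2824) (.e (nat_lit 24627) (nat_lit 9) (.e (nat_lit 336443) (nat_lit 32) (.e (nat_lit 466969) (nat_lit 21) (.e (nat_lit 164330) (nat_lit 230) (.e (nat_lit 163878) (nat_lit 4) (.e (nat_lit 213030) (nat_lit 11) .nil)))))) (.g (nat_lit 1) (.e (nat_lit 133696) (nat_lit 0) .nil) .nil))))) (.nd (nat_lit 8) (.nd (nat_lit 9) 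
(.lf (nat_lit 485526) (.g (nat_lit 883) (.e (nat_lit 24609) (nat_lit 3) (.e (nat_lit 98356) (nat_lit 26) (.e (nat_lit 426320) (nat_lit 12) .nil))) (.g (nat_lit 0) (.e (nat_lit 132903) (nat_lit 0) .nil) .nil))) 
(.lf (nat_lit 486038) (.g (nat_lit 2075) (.e (nat_lit 24625) (nat_lit 9) (.e (nat_lit 336443) (nat_lit 32) (.e (nat_lit 466969) (nat_lit 21) (.e (nat_lit 164324) (nat_lit 230) (.e (nat_lit 163877) (nat_lit 4) (.e (nat_lit 213032) (nat_lit 11) .nil)))))) (.g (nat_lit 1) (.e (nat_lit 133540) (nat_lit 0) .nil) .nil)))) (.nd (nat_lit 9) 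
(.lf (nat_lit 485782) (.g (nat_lit 2365) (.e (nat_lit 24617) (nat_lit 7) (.e (nat_lit 319533) (nat_lit 16) (.e (nat_lit 286753) (nat_lit 10) (.e (nat_lit 344169) (nat_lit 40) (.e (nat_lit 671771) (nat_lit 9) (.e (nat_lit 2749) (nat_lit 175) (.e (nat_lit 262165) (nat_lit 11) .nil))))))) (.g (nat_lit 1) (.e (nat_lit 133223) (nat_lit 0) .nil) .nil))) 
(.lf (nat_lit 486294) (.g (nat_lit 2548) (.e (nat_lit 24628) (nat_lit 9) (.e (nat_lit 336368) (nat_lit 27) (.e (nat_lit 426497) (nat_lit 27) (.e (nat_lit 335986) (nat_lit 1) (.e (nat_lit 57849) (nat_lit 252) (.e (nat_lit 57372) (nat_lit 2) (.e (nat_lit 90158) (nat_lit 11) .nil))))))) (.g (nat_lit 1) (.e (nat_lit 133849) (nat_lit 0) .nil) .nil)))))) 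
(.nd (nat_lit 7) (.nd (nat_lit 8) (.nd (nat_lit 9) 
(.lf (nat_lit 485462) (.g (nat_lit 3342) (.e (nat_lit 24608) (nat_lit 3) (.e (nat_lit 98373) (nat_lit 29) (.e (nat_lit 450587) (nat_lit 10) (.e (nat_lit 573475) (nat_lit 12) (.e (nat_lit 57349) (nat_lit 0) (.e (nat_lit 7430) (nat_lit 396) (.e (nat_lit 2551) (nat_lit 159) .nil))))))) (.g (nat_lit 1) (.e (nat_lit 132832) (nat_lit 0) .nil) .nil))) 
(.lf (nat_lit 485974) (.g (nat_lit 2114) (.e (nat_lit 24624) (nat_lit 9) (.e (nat_lit 336443) (nat_lit 32) (.e (nat_lit 466969) (nat_lit 21) (.e (nat_lit 164325) (nat_lit 230) (.e (nat_lit 163882) (nat_lit 4) .nil))))) (.g (nat_lit 0) (.e (nat_lit 133473) (nat_lit 0) .nil) .nil)))) (.nd (nat_lit 9) 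
(.lf (nat_lit 485718) (.g (nat_lit 2755) (.e (nat_lit 24617) (nat_lit 7) (.e (nat_lit 319529) (nat_lit 16) (.e (nat_lit 286759) (nat_lit 12) (.e (nat_lit 385094) (nat_lit 49) (.e (nat_lit 778548) (nat_lit 14) .nil))))) (.g (nat_lit 0) (.e (nat_lit 133145) (nat_lit 0) .nil) .nil))) 
(.lf (nat_lit 486230) (.g (nat_lit 2968) (.e (nat_lit 24627) (nat_lit 9) (.e (nat_lit 336454) (nat_lit 34) (.e (nat_lit 483364) (nat_lit 18) (.e (nat_lit 57844) (nat_lit 252) (.e (nat_lit 57371) (nat_lit 2) (.e (nat_lit 90159) (nat_lit 11) .nil)))))) (.g (nat_lit 1) (.e (nat_lit 133770) (nat_lit 0) .nil) .nil))))) (.nd (nat_lit 8) (.nd (nat_lit 9) 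
(.lf (nat_lit 485590) (.g (nat_lit 2998) (.e (nat_lit 24609) (nat_lit 3) (.e (nat_lit 98372) (nat_lit 29) (.e (nat_lit 450586) (nat_lit 10) (.e (nat_lit 573477) (nat_lit 12) (.e (nat_lit 57575) (nat_lit 55) (.e (nat_lit 778463) (nat_lit 11) .nil)))))) (.g (nat_lit 1) (.e (nat_lit 132983) (nat_lit 0) .nil) .nil))) 
(.lf (nat_lit 486102) (.g (nat_lit 3309) (.e (nat_lit 24626) (nat_lit 9) (.e (nat_lit 336443) (nat_lit 32) (.e (nat_lit 466971) (nat_lit 21) (.e (nat_lit 164327) (nat_lit 230) (.e (nat_lit 163882) (nat_lit 4) (.e (nat_lit 213032) (nat_lit 11) .nil)))))) (.g (nat_lit 1) (.e (nat_lit 133607) (nat_lit 0) .nil) .nil)))) (.nd (nat_lit 9) 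
(.lf (nat_lit 485846) (.g (nat_lit 1189) (.e (nat_lit 24617) (nat_lit 7) (.e (nat_lit 319534) (nat_lit 16) (.e (nat_lit 286756) (nat_lit 10) (.e (nat_lit 344097) (nat_lit 18) .nil)))) (.g (nat_lit 0) (.e (nat_lit 133306) (nat_lit 0) .nil) .nil))) 
(.lf (nat_lit 486358) (.g (nat_lit 2721) (.e (nat_lit 24628) (nat_lit 9) (.e (nat_lit 336443) (nat_lit 32) (.e (nat_lit 466969) (nat_lit 21) (.e (nat_lit 164330) (nat_lit 230) (.e (nat_lit 163843) (nat_lit 0) (.e (nat_lit 3653) (nat_lit 227) (.e (nat_lit 778462) (nat_lit 11) .nil))))))) (.g (nat_lit 1) (.e (nat_lit 133929) (nat_lit 0) .nil) .nil))))))) 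
(.nd (nat_lit 6) (.nd (nat_lit 7) (.nd (nat_lit 8) (.nd (nat_lit 9) 
(.lf (nat_lit 485430) (.g (nat_lit 1944) (.e (nat_lit 24608) (nat_lit 3) (.e (nat_lit 98373) (nat_lit 29) (.e (nat_lit 450587) (nat_lit 10) (.e (nat_lit 573456) (nat_lit 9) .nil)))) (.g (nat_lit 0) (.e (nat_lit 132800) (nat_lit 0) .nil) .nil))) 
(.lf (nat_lit 485942) (.g (nat_lit 3384) (.e (nat_lit 24623) (nat_lit 9) (.e (nat_lit 336454) (nat_lit 34) (.e (nat_lit 483363) (nat_lit 18) (.e (nat_lit 57854) (nat_lit 252) (.e (nat_lit 57373) (nat_lit 2) (.e (nat_lit 90160) (nat_lit 11) .nil)))))) (.g (nat_lit 1) (.e (nat_lit 133435) (nat_lit 0) .nil) .nil)))) (.nd (nat_lit 9) 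
(.lf (nat_lit 485686) (.g (nat_lit 1870) (.e (nat_lit 24616) (nat_lit 7) (.e (nat_lit 319531) (nat_lit 16) (.e (nat_lit 286759) (nat_lit 12) (.e (nat_lit 385094) (nat_lit 49) .nil)))) (.g (nat_lit 0) (.e (nat_lit 133096) (nat_lit 0) .nil) .nil))) 
(.lf (nat_lit 486198) (.g (nat_lit 2835) (.e (nat_lit 24627) (nat_lit 9) (.e (nat_lit 336443) (nat_lit 32) (.e (nat_lit 466972) (nat_lit 21) (.e (nat_lit 164331) (nat_lit 230) (.e (nat_lit 163878) (nat_lit 4) (.e (nat_lit 213030) (nat_lit 11) .nil)))))) (.g (nat_lit 1) (.e (nat_lit 133728) (nat_lit 0) .nil) .nil))))) (.nd (nat_lit 8) (.nd (nat_lit 9) 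
(.lf (nat_lit 485558) (.g (nat_lit 2612) (.e (nat_lit 24609) (nat_lit 3) (.e (nat_lit 98365) (nat_lit 26) (.e (nat_lit 426306) (nat_lit 12) (.e (nat_lit 475179) (nat_lit 24) (.e (nat_lit 516126) (nat_lit 2) (.e (nat_lit 213032) (nat_lit 11) .nil)))))) (.g (nat_lit 1) (.e (nat_lit 132951) (nat_lit 0) .nil) .nil))) 
(.lf (nat_lit 486070) (.g (nat_lit 202) (.e (nat_lit 24625) (nat_lit 9) (.e (nat_lit 336446) (nat_lit 33) (.e (nat_lit 483072) (nat_lit 7) .nil))) (.g (nat_lit 0) (.e (nat_lit 133572) (nat_lit 0) .nil) .nil)))) (.nd (nat_lit 9) 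
(.lf (nat_lit 485814) (.g (nat_lit 983) (.e (nat_lit 24617) (nat_lit 7) (.e (nat_lit 319533) (nat_lit 16) (.e (nat_lit 286759) (nat_lit 12) (.e (nat_lit 385107) (nat_lit 51) .nil)))) (.g (nat_lit 0) (.e (nat_lit 133259) (nat_lit 0) .nil) .nil))) 
(.lf (nat_lit 486326) (.g (nat_lit 224) (.e (nat_lit 24628) (nat_lit 9) (.e (nat_lit 336438) (nat_lit 31) (.e (nat_lit 458769) (nat_lit 16) .nil))) (.g (nat_lit 0) (.e (nat_lit 133896) (nat_lit 0) .nil) .nil)))))) (.nd (nat_lit 7) (.nd (nat_lit 8) (.nd (nat_lit 9) 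
(.lf (nat_lit 485494) (.g (nat_lit 3537) (.e (nat_lit 24608) (nat_lit 3) (.e (nat_lit 98373) (nat_lit 29) (.e (nat_lit 450588) (nat_lit 10) (.e (nat_lit 573474) (nat_lit 12) .nil)))) (.g (nat_lit 0) (.e (nat_lit 132864) (nat_lit 0) .nil) .nil))) 
(.lf (nat_lit 486006) (.g (nat_lit 1968) (.e (nat_lit 24624) (nat_lit 9) (.e (nat_lit 336454) (nat_lit 34) (.e (nat_lit 483365) (nat_lit 18) (.e (nat_lit 57852) (nat_lit 252) .nil)))) (.g (nat_lit 0) (.e (nat_lit 133506) (nat_lit 0) .nil) .nil)))) (.nd (nat_lit 9) 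
(.lf (nat_lit 485750) (.g (nat_lit 1663) (.e (nat_lit 24617) (nat_lit 7) (.e (nat_lit 319531) (nat_lit 16) (.e (nat_lit 286759) (nat_lit 12) (.e (nat_lit 385094) (nat_lit 49) (.e (nat_lit 778548) (nat_lit 14) .nil))))) (.g (nat_lit 0) (.e (nat_lit 133181) (nat_lit 0) .nil) .nil))) 
(.lf (nat_lit 486262) (.g (nat_lit 1240) (.e (nat_lit 24628) (nat_lit 9) (.e (nat_lit 336016) (nat_lit 2) (.e (nat_lit 98048) (nat_lit 2) (.e (nat_lit 16461) (nat_lit 12) (.e (nat_lit 483072) (nat_lit 2) .nil))))) (.g (nat_lit 1) (.e (nat_lit 133810) (nat_lit 0) .nil) .nil))))) (.nd (nat_lit 8) (.nd (nat_lit 9) 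
(.lf (nat_lit 485622) (.g (nat_lit 4579) (.e (nat_lit 24609) (nat_lit 3) (.e (nat_lit 98373) (nat_lit 29) (.e (nat_lit 450587) (nat_lit 10) (.e (nat_lit 573477) (nat_lit 12) (.e (nat_lit 57574) (nat_lit 55) (.e (nat_lit 778465) (nat_lit 11) .nil)))))) (.g (nat_lit 1) (.e (nat_lit 133018) (nat_lit 0) .nil) .nil))) 
(.lf (nat_lit 486134) (.g (nat_lit 3763) (.e (nat_lit 24627) (nat_lit 9) (.e (nat_lit 336324) (nat_lit 18) (.e (nat_lit 204831) (nat_lit 18) (.e (nat_lit 57854) (nat_lit 252) .nil)))) (.g (nat_lit 0) (.e (nat_lit 133647) (nat_lit 0) .nil) .nil)))) (.nd (nat_lit 9) 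
(.lf (nat_lit 485878) (.g (nat_lit 3251) (.e (nat_lit 24617) (nat_lit 7) (.e (nat_lit 319534) (nat_lit 16) (.e (nat_lit 286756) (nat_lit 10) (.e (nat_lit 344160) (nat_lit 37) (.e (nat_lit 647190) (nat_lit 9) (.e (nat_lit 1044) (nat_lit 81) (.e (nat_lit 2346) (nat_lit 151) (.e (nat_lit 778466) (nat_lit 11) .nil)))))))) (.g (nat_lit 1) (.e (nat_lit 133340) (nat_lit 0) .nil) .nil))) 
(.lf (nat_lit 486390) (.g (nat_lit 1697) (.e (nat_lit 24628) (nat_lit 9) (.e (nat_lit 336443) (nat_lit 32) (.e (nat_lit 466971) (nat_lit 21) (.e (nat_lit 164327) (nat_lit 230) (.e (nat_lit 163849) (nat_lit 0) .nil))))) (.g (nat_lit 0) (.e (nat_lit 133961) (nat_lit 0) .nil) .nil))))))))) (.nd (nat_lit 4) (.nd (nat_lit 5) (.nd (nat_lit 6) (.nd (nat_lit 7) (.nd (nat_lit 8) (.nd (nat_lit 9) 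
(.lf (nat_lit 485390) (.g (nat_lit 3780) (.e (nat_lit 24608) (nat_lit 3) (.e (nat_lit 98372) (nat_lit 29) (.e (nat_lit 450579) (nat_lit 5) (.e (nat_lit 532504) (nat_lit 1) (.e (nat_lit 65280) (nat_lit 233) (.e (nat_lit 2557) (nat_lit 159) .nil)))))) (.g (nat_lit 1) (.e (nat_lit 132749) (nat_lit 0) .nil) .nil))) 
(.lf (nat_lit 485902) (.g (nat_lit 2942) (.e (nat_lit 24617) (nat_lit 7) (.e (nat_lit 319534) (nat_lit 16) (.e (nat_lit 286759) (nat_lit 12) (.e (nat_lit 385094) (nat_lit 49) (.e (nat_lit 778351) (nat_lit 9) .nil))))) (.g (nat_lit 0) (.e (nat_lit 133365) (nat_lit 0) .nil) .nil)))) (.nd (nat_lit 9) 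
(.lf (nat_lit 485646) (.g (nat_lit 4605) (.e (nat_lit 24609) (nat_lit 3) (.e (nat_lit 98373) (nat_lit 29) (.e (nat_lit 450588) (nat_lit 10) (.e (nat_lit 573476) (nat_lit 12) .nil)))) (.g (nat_lit 0) (.e (nat_lit 133042) (nat_lit 0) .nil) .nil))) 
(.lf (nat_lit 486158) (.g (nat_lit 2748) (.e (nat_lit 24627) (nat_lit 9) (.e (nat_lit 336443) (nat_lit 32) (.e (nat_lit 466969) (nat_lit 21) (.e (nat_lit 164326) (nat_lit 230) (.e (nat_lit 163881) (nat_lit 4) (.e (nat_lit 213032) (nat_lit 11) .nil)))))) (.g (nat_lit 1) (.e (nat_lit 133688) (nat_lit 0) .nil) .nil))))) (.nd (nat_lit 8) (.nd (nat_lit 9) 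
(.lf (nat_lit 485518) (.g (nat_lit 4325) (.e (nat_lit 24608) (nat_lit 3) (.e (nat_lit 98387) (nat_lit 33) (.e (nat_lit 491566) (nat_lit 12) (.e (nat_lit 385067) (nat_lit 26) (.e (nat_lit 532508) (nat_lit 2) (.e (nat_lit 114432) (nat_lit 2) .nil)))))) (.g (nat_lit 1) (.e (nat_lit 132892) (nat_lit 0) .nil) .nil))) 
(.lf (nat_lit 486030) (.g (nat_lit 4010) (.e (nat_lit 24625) (nat_lit 9) (.e (nat_lit 336324) (nat_lit 18) (.e (nat_lit 204831) (nat_lit 18) (.e (nat_lit 57854) (nat_lit 252) .nil)))) (.g (nat_lit 0) (.e (nat_lit 133530) (nat_lit 0) .nil) .nil)))) (.nd (nat_lit 9) 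
(.lf (nat_lit 485774) (.g (nat_lit 2072) (.e (nat_lit 24617) (nat_lit 7) (.e (nat_lit 319533) (nat_lit 16) (.e (nat_lit 286752) (nat_lit 10) (.e (nat_lit 344169) (nat_lit 40) (.e (nat_lit 671770) (nat_lit 9) (.e (nat_lit 2749) (nat_lit 175) (.e (nat_lit 262165) (nat_lit 11) .nil))))))) (.g (nat_lit 1) (.e (nat_lit 133213) (nat_lit 0) .nil) .nil))) 
(.lf (nat_lit 486286) (.g (nat_lit 2192) (.e (nat_lit 24628) (nat_lit 9) (.e (nat_lit 336366) (nat_lit 27) (.e (nat_lit 426501) (nat_lit 27) (.e (nat_lit 335988) (nat_lit 1) (.e (nat_lit 57854) (nat_lit 252) (.e (nat_lit 57373) (nat_lit 2) (.e (nat_lit 90158) (nat_lit 11) .nil))))))) (.g (nat_lit 1) (.e (nat_lit 133841) (nat_lit 0) .nil) .nil)))))) 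
(.nd (nat_lit 7) (.nd (nat_lit 8) (.nd (nat_lit 9) 
(.lf (nat_lit 485454) (.g (nat_lit 4118) (.e (nat_lit 24608) (nat_lit 3) (.e (nat_lit 98373) (nat_lit 29) (.e (nat_lit 450587) (nat_lit 10) (.e (nat_lit 573475) (nat_lit 12) (.e (nat_lit 57346) (nat_lit 0) (.e (nat_lit 7411) (nat_lit 396) (.e (nat_lit 2556) (nat_lit 159) .nil))))))) (.g (nat_lit 1) (.e (nat_lit 132824) (nat_lit 0) .nil) .nil))) 
(.lf (nat_lit 485966) (.g (nat_lit 2120) (.e (nat_lit 24623) (nat_lit 9) (.e (nat_lit 336456) (nat_lit 34) (.e (nat_lit 483365) (nat_lit 18) (.e (nat_lit 57853) (nat_lit 252) (.e (nat_lit 57371) (nat_lit 2) (.e (nat_lit 90160) (nat_lit 11) .nil)))))) (.g (nat_lit 1) (.e (nat_lit 133460) (nat_lit 0) .nil) .nil)))) (.nd (nat_lit 9) 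
(.lf (nat_lit 485710) (.g (nat_lit 2270) (.e (nat_lit 24617) (nat_lit 7) (.e (nat_lit 319528) (nat_lit 16) (.e (nat_lit 286759) (nat_lit 12) (.e (nat_lit 385115) (nat_lit 53) (.e (nat_lit 811033) (nat_lit 11) (.e (nat_lit 880) (nat_lit 75) (.e (nat_lit 778464) (nat_lit 11) .nil))))))) (.g (nat_lit 1) (.e (nat_lit 133136) (nat_lit 0) .nil) .nil))) 
(.lf (nat_lit 486222) (.g (nat_lit 3001) (.e (nat_lit 24627) (nat_lit 9) (.e (nat_lit 336454) (nat_lit 34) (.e (nat_lit 483363) (nat_lit 18) (.e (nat_lit 57849) (nat_lit 252) (.e (nat_lit 57372) (nat_lit 2) (.e (nat_lit 90159) (nat_lit 11) .nil)))))) (.g (nat_lit 1) (.e (nat_lit 133762) (nat_lit 0) .nil) .nil))))) (.nd (nat_lit 8) (.nd (nat_lit 9) 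
(.lf (nat_lit 485582) (.g (nat_lit 2565) (.e (nat_lit 24609) (nat_lit 3) (.e (nat_lit 98372) (nat_lit 29) (.e (nat_lit 450586) (nat_lit 10) (.e (nat_lit 573475) (nat_lit 12) (.e (nat_lit 57574) (nat_lit 55) (.e (nat_lit 778463) (nat_lit 11) .nil)))))) (.g (nat_lit 1) (.e (nat_lit 132975) (nat_lit 0) .nil) .nil))) 
(.lf (nat_lit 486094) (.g (nat_lit 3415) (.e (nat_lit 24626) (nat_lit 9) (.e (nat_lit 336443) (nat_lit 32) (.e (nat_lit 466969) (nat_lit 21) (.e (nat_lit 164327) (nat_lit 230) (.e (nat_lit 163882) (nat_lit 4) (.e (nat_lit 213032) (nat_lit 11) .nil)))))) (.g (nat_lit 1) (.e (nat_lit 133599) (nat_lit 0) .nil) .nil)))) (.nd (nat_lit 9) 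
(.lf (nat_lit 485838) (.g (nat_lit 1325) (.e (nat_lit 24617) (nat_lit 7) (.e (nat_lit 319534) (nat_lit 16) (.e (nat_lit 286753) (nat_lit 10) (.e (nat_lit 344160) (nat_lit 37) .nil)))) (.g (nat_lit 0) (.e (nat_lit 133296) (nat_lit 0) .nil) .nil))) 
(.lf (nat_lit 486350) (.g (nat_lit 3083) (.e (nat_lit 24628) (nat_lit 9) (.e (nat_lit 336443) (nat_lit 32) (.e (nat_lit 466969) (nat_lit 21) (.e (nat_lit 164327) (nat_lit 230) (.e (nat_lit 163882) (nat_lit 4) (.e (nat_lit 213030) (nat_lit 11) .nil)))))) (.g (nat_lit 1) (.e (nat_lit 133921) (nat_lit 0) .nil) .nil))))))) (.nd (nat_lit 6) (.nd (nat_lit 7) (.nd (nat_lit 8) (.nd (nat_lit 9) 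
(.lf (nat_lit 485422) (.g (nat_lit 3079) (.e (nat_lit 24608) (nat_lit 3) (.e (nat_lit 98373) (nat_lit 29) (.e (nat_lit 458496) (nat_lit 3) (.e (nat_lit 516115) (nat_lit 1) (.e (nat_lit 164381) (nat_lit 254) (.e (nat_lit 7936) (nat_lit 159) .nil)))))) (.g (nat_lit 1) (.e (nat_lit 132792) (nat_lit 0) .nil) .nil))) 
(.lf (nat_lit 485934) (.g (nat_lit 1471) (.e (nat_lit 24623) (nat_lit 9) (.e (nat_lit 336412) (nat_lit 27) (.e (nat_lit 426011) (nat_lit 0) (.e (nat_lit 7591) (nat_lit 407) (.e (nat_lit 73776) (nat_lit 26) .nil))))) (.g (nat_lit 0) (.e (nat_lit 133427) (nat_lit 0) .nil) .nil)))) (.nd (nat_lit 9) 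
(.lf (nat_lit 485678) (.g (nat_lit 1401) (.e (nat_lit 24616) (nat_lit 7) (.e (nat_lit 319530) (nat_lit 16) (.e (nat_lit 286759) (nat_lit 12) (.e (nat_lit 385114) (nat_lit 53) .nil)))) (.g (nat_lit 0) (.e (nat_lit 133088) (nat_lit 0) .nil) .nil))) 
(.lf (nat_lit 486190) (.g (nat_lit 3165) (.e (nat_lit 24627) (nat_lit 9) (.e (nat_lit 336443) (nat_lit 32) (.e (nat_lit 466971) (nat_lit 21) (.e (nat_lit 164327) (nat_lit 230) (.e (nat_lit 163882) (nat_lit 4) (.e (nat_lit 213032) (nat_lit 11) .nil)))))) (.g (nat_lit 1) (.e (nat_lit 133720) (nat_lit 0) .nil) .nil))))) (.nd (nat_lit 8) (.nd (nat_lit 9) 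
(.lf (nat_lit 485550) (.g (nat_lit 1258) (.e (nat_lit 24609) (nat_lit 3) (.e (nat_lit 98365) (nat_lit 26) (.e (nat_lit 426306) (nat_lit 12) (.e (nat_lit 475175) (nat_lit 24) .nil)))) (.g (nat_lit 0) (.e (nat_lit 132943) (nat_lit 0) .nil) .nil))) 
(.lf (nat_lit 486062) (.g (nat_lit 2295) (.e (nat_lit 24625) (nat_lit 9) (.e (nat_lit 336443) (nat_lit 32) (.e (nat_lit 466972) (nat_lit 21) (.e (nat_lit 164329) (nat_lit 230) (.e (nat_lit 163878) (nat_lit 4) (.e (nat_lit 213030) (nat_lit 11) .nil)))))) (.g (nat_lit 1) (.e (nat_lit 133564) (nat_lit 0) .nil) .nil)))) (.nd (nat_lit 9) 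
(.lf (nat_lit 485806) (.g (nat_lit 745) (.e (nat_lit 24617) (nat_lit 7) (.e (nat_lit 319533) (nat_lit 16) (.e (nat_lit 286755) (nat_lit 10) .nil))) (.g (nat_lit 0) (.e (nat_lit 133247) (nat_lit 0) .nil) .nil))) 
(.lf (nat_lit 486318) (.g (nat_lit 2896) (.e (nat_lit 24628) (nat_lit 9) (.e (nat_lit 336375) (nat_lit 27) (.e (nat_lit 426525) (nat_lit 27) (.e (nat_lit 335986) (nat_lit 1) (.e (nat_lit 57847) (nat_lit 252) (.e (nat_lit 57372) (nat_lit 2) (.e (nat_lit 90160) (nat_lit 11) .nil))))))) (.g (nat_lit 1) (.e (nat_lit 133876) (nat_lit 0) .nil) .nil)))))) 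
(.nd (nat_lit 7) (.nd (nat_lit 8) (.nd (nat_lit 9) 
(.lf (nat_lit 485486) (.g (nat_lit 3662) (.e (nat_lit 24608) (nat_lit 3) (.e (nat_lit 98373) (nat_lit 29) (.e (nat_lit 450588) (nat_lit 10) (.e (nat_lit 573451) (nat_lit 9) .nil)))) (.g (nat_lit 0) (.e (nat_lit 132856) (nat_lit 0) .nil) .nil))) 
(.lf (nat_lit 485998) (.g (nat_lit 3537) (.e (nat_lit 24624) (nat_lit 9) (.e (nat_lit 336454) (nat_lit 34) (.e (nat_lit 483364) (nat_lit 18) (.e (nat_lit 57854) (nat_lit 252) (.e (nat_lit 57373) (nat_lit 2) (.e (nat_lit 90160) (nat_lit 11) .nil)))))) (.g (nat_lit 1) (.e (nat_lit 133497) (nat_lit 0) .nil) .nil)))) (.nd (nat_lit 9) 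
(.lf (nat_lit 485742) (.g (nat_lit 374) (.e (nat_lit 24617) (nat_lit 7) (.e (nat_lit 319531) (nat_lit 16) (.e (nat_lit 286759) (nat_lit 12) .nil))) (.g (nat_lit 0) (.e (nat_lit 133172) (nat_lit 0) .nil) .nil))) 
(.lf (nat_lit 486254) (.g (nat_lit 3910) (.e (nat_lit 24627) (nat_lit 9) (.e (nat_lit 336454) (nat_lit 34) (.e (nat_lit 483365) (nat_lit 18) (.e (nat_lit 57849) (nat_lit 252) (.e (nat_lit 57375) (nat_lit 2) (.e (nat_lit 90157) (nat_lit 11) .nil)))))) (.g (nat_lit 1) (.e (nat_lit 133794) (nat_lit 0) .nil) .nil))))) (.nd (nat_lit 8) (.nd (nat_lit 9) 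
(.lf (nat_lit 485614) (.g (nat_lit 4228) (.e (nat_lit 24609) (nat_lit 3) (.e (nat_lit 98373) (nat_lit 29) (.e (nat_lit 450587) (nat_lit 10) (.e (nat_lit 573475) (nat_lit 12) (.e (nat_lit 57574) (nat_lit 55) (.e (nat_lit 778465) (nat_lit 11) .nil)))))) (.g (nat_lit 1) (.e (nat_lit 133010) (nat_lit 0) .nil) .nil))) 
(.lf (nat_lit 486126) (.g (nat_lit 4698) (.e (nat_lit 24627) (nat_lit 9) (.e (nat_lit 336324) (nat_lit 18) (.e (nat_lit 204831) (nat_lit 18) (.e (nat_lit 57848) (nat_lit 252) .nil)))) (.g (nat_lit 0) (.e (nat_lit 133639) (nat_lit 0) .nil) .nil)))) (.nd (nat_lit 9) 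
(.lf (nat_lit 485870) (.g (nat_lit 3043) (.e (nat_lit 24617) (nat_lit 7) (.e (nat_lit 319534) (nat_lit 16) (.e (nat_lit 286756) (nat_lit 10) (.e (nat_lit 344160) (nat_lit 37) (.e (nat_lit 647190) (nat_lit 9) (.e (nat_lit 984) (nat_lit 81) (.e (nat_lit 2308) (nat_lit 151) (.e (nat_lit 778464) (nat_lit 11) .nil)))))))) (.g (nat_lit 1) (.e (nat_lit 133332) (nat_lit 0) .nil) .nil))) 
(.lf (nat_lit 486382) (.g (nat_lit 1747) (.e (nat_lit 24628) (nat_lit 9) (.e (nat_lit 336443) (nat_lit 32) (.e (nat_lit 466971) (nat_lit 21) (.e (nat_lit 164325) (nat_lit 230) (.e (nat_lit 163880) (nat_lit 4) .nil))))) (.g (nat_lit 0) (.e (nat_lit 133953) (nat_lit 0) .nil) .nil)))))))) (.nd (nat_lit 5) (.nd (nat_lit 6) (.nd (nat_lit 7) (.nd (nat_lit 8) (.nd (nat_lit 9) 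
(.lf (nat_lit 485406) (.g (nat_lit 3275) (.e (nat_lit 24608) (nat_lit 3) (.e (nat_lit 98372) (nat_lit 29) (.e (nat_lit 450586) (nat_lit 10) (.e (nat_lit 573478) (nat_lit 12) (.e (nat_lit 57574) (nat_lit 55) (.e (nat_lit 786176) (nat_lit 11) .nil)))))) (.g (nat_lit 1) (.e (nat_lit 132765) (nat_lit 0) .nil) .nil))) 
(.lf (nat_lit 485918) (.g (nat_lit 5090) (.e (nat_lit 24617) (nat_lit 7) (.e (nat_lit 319534) (nat_lit 16) (.e (nat_lit 286762) (nat_lit 14) (.e (nat_lit 401454) (nat_lit 12) (.e (nat_lit 475221) (nat_lit 45) (.e (nat_lit 745509) (nat_lit 11) .nil)))))) (.g (nat_lit 1) (.e (nat_lit 133396) (nat_lit 0) .nil) .nil)))) (.nd (nat_lit 9) 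
(.lf (nat_lit 485662) (.g (nat_lit 855) (.e (nat_lit 32512) (nat_lit 3) (.e (nat_lit 98373) (nat_lit 29) (.e (nat_lit 450586) (nat_lit 10) .nil))) (.g (nat_lit 0) (.e (nat_lit 133060) (nat_lit 0) .nil) .nil))) 
(.lf (nat_lit 486174) (.g (nat_lit 3494) (.e (nat_lit 24627) (nat_lit 9) (.e (nat_lit 336443) (nat_lit 32) (.e (nat_lit 466969) (nat_lit 21) (.e (nat_lit 164332) (nat_lit 230) (.e (nat_lit 163878) (nat_lit 4) (.e (nat_lit 213030) (nat_lit 11) .nil)))))) (.g (nat_lit 1) (.e (nat_lit 133704) (nat_lit 0) .nil) .nil))))) (.nd (nat_lit 8) (.nd (nat_lit 9) 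
(.lf (nat_lit 485534) (.g (nat_lit 1256) (.e (nat_lit 24609) (nat_lit 3) (.e (nat_lit 98358) (nat_lit 26) (.e (nat_lit 426319) (nat_lit 12) (.e (nat_lit 475177) (nat_lit 24) .nil)))) (.g (nat_lit 0) (.e (nat_lit 132913) (nat_lit 0) .nil) .nil))) 
(.lf (nat_lit 486046) (.g (nat_lit 2646) (.e (nat_lit 24625) (nat_lit 9) (.e (nat_lit 336443) (nat_lit 32) (.e (nat_lit 466969) (nat_lit 21) (.e (nat_lit 164330) (nat_lit 230) (.e (nat_lit 163878) (nat_lit 4) (.e (nat_lit 213030) (nat_lit 11) .nil)))))) (.g (nat_lit 1) (.e (nat_lit 133548) (nat_lit 0) .nil) .nil)))) (.nd (nat_lit 9) 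
(.lf (nat_lit 485790) (.g (nat_lit 3061) (.e (nat_lit 24617) (nat_lit 7) (.e (nat_lit 319533) (nat_lit 16) (.e (nat_lit 286753) (nat_lit 10) (.e (nat_lit 344169) (nat_lit 40) (.e (nat_lit 671782) (nat_lit 12) (.e (nat_lit 164050) (nat_lit 55) (.e (nat_lit 778464) (nat_lit 11) .nil))))))) (.g (nat_lit 1) (.e (nat_lit 133231) (nat_lit 0) .nil) .nil))) 
(.lf (nat_lit 486302) (.g (nat_lit 3775) (.e (nat_lit 24628) (nat_lit 9) (.e (nat_lit 336368) (nat_lit 27) (.e (nat_lit 426499) (nat_lit 27) (.e (nat_lit 335986) (nat_lit 1) (.e (nat_lit 57849) (nat_lit 252) (.e (nat_lit 57372) (nat_lit 2) (.e (nat_lit 90158) (nat_lit 11) .nil))))))) (.g (nat_lit 1) (.e (nat_lit 133857) (nat_lit 0) .nil) .nil)))))) 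
(.nd (nat_lit 7) (.nd (nat_lit 8) (.nd (nat_lit 9) 
(.lf (nat_lit 485470) (.g (nat_lit 4038) (.e (nat_lit 24608) (nat_lit 3) (.e (nat_lit 98373) (nat_lit 29) (.e (nat_lit 450587) (nat_lit 10) (.e (nat_lit 573476) (nat_lit 12) .nil)))) (.g (nat_lit 0) (.e (nat_lit 132840) (nat_lit 0) .nil) .nil))) 
(.lf (nat_lit 485982) (.g (nat_lit 2011) (.e (nat_lit 24624) (nat_lit 9) (.e (nat_lit 336443) (nat_lit 32) (.e (nat_lit 466971) (nat_lit 21) (.e (nat_lit 164326) (nat_lit 230) (.e (nat_lit 163882) (nat_lit 4) .nil))))) (.g (nat_lit 0) (.e (nat_lit 133481) (nat_lit 0) .nil) .nil)))) (.nd (nat_lit 9) 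
(.lf (nat_lit 485726) (.g (nat_lit 918) (.e (nat_lit 24617) (nat_lit 7) (.e (nat_lit 319530) (nat_lit 16) (.e (nat_lit 286747) (nat_lit 9) .nil))) (.g (nat_lit 0) (.e (nat_lit 133156) (nat_lit 0) .nil) .nil))) 
(.lf (nat_lit 486238) (.g (nat_lit 3521) (.e (nat_lit 24627) (nat_lit 9) (.e (nat_lit 336454) (nat_lit 34) (.e (nat_lit 483365) (nat_lit 18) (.e (nat_lit 57846) (nat_lit 252) (.e (nat_lit 57372) (nat_lit 2) (.e (nat_lit 90159) (nat_lit 11) .nil)))))) (.g (nat_lit 1) (.e (nat_lit 133778) (nat_lit 0) .nil) .nil))))) (.nd (nat_lit 8) (.nd (nat_lit 9) 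
(.lf (nat_lit 485598) (.g (nat_lit 2247) (.e (nat_lit 24609) (nat_lit 3) (.e (nat_lit 98372) (nat_lit 29) (.e (nat_lit 450584) (nat_lit 9) (.e (nat_lit 565275) (nat_lit 9) (.e (nat_lit 2695) (nat_lit 169) .nil))))) (.g (nat_lit 0) (.e (nat_lit 132991) (nat_lit 0) .nil) .nil))) 
(.lf (nat_lit 486110) (.g (nat_lit 3634) (.e (nat_lit 24626) (nat_lit 9) (.e (nat_lit 336443) (nat_lit 32) (.e (nat_lit 466972) (nat_lit 21) (.e (nat_lit 164332) (nat_lit 230) (.e (nat_lit 163880) (nat_lit 4) (.e (nat_lit 213032) (nat_lit 11) .nil)))))) (.g (nat_lit 1) (.e (nat_lit 133615) (nat_lit 0) .nil) .nil)))) (.nd (nat_lit 9) 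
(.lf (nat_lit 485854) (.g (nat_lit 2329) (.e (nat_lit 24617) (nat_lit 7) (.e (nat_lit 319534) (nat_lit 16) (.e (nat_lit 286756) (nat_lit 10) (.e (nat_lit 344168) (nat_lit 40) (.e (nat_lit 679680) (nat_lit 15) (.e (nat_lit 57611) (nat_lit 116) (.e (nat_lit 778464) (nat_lit 11) .nil))))))) (.g (nat_lit 1) (.e (nat_lit 133315) (nat_lit 0) .nil) .nil))) 
(.lf (nat_lit 486366) (.g (nat_lit 2381) (.e (nat_lit 24628) (nat_lit 9) (.e (nat_lit 336443) (nat_lit 32) (.e (nat_lit 466969) (nat_lit 21) (.e (nat_lit 164330) (nat_lit 230) (.e (nat_lit 171776) (nat_lit 4) (.e (nat_lit 213032) (nat_lit 11) .nil)))))) (.g (nat_lit 1) (.e (nat_lit 133937) (nat_lit 0) .nil) .nil))))))) (.nd (nat_lit 6) (.nd (nat_lit 7) (.nd (nat_lit 8) (.nd (nat_lit 9) 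
(.lf (nat_lit 485438) (.g (nat_lit 3249) (.e (nat_lit 24608) (nat_lit 3) (.e (nat_lit 98373) (nat_lit 29) (.e (nat_lit 450587) (nat_lit 10) (.e (nat_lit 573475) (nat_lit 12) (.e (nat_lit 57345) (nat_lit 0) (.e (nat_lit 7415) (nat_lit 396) (.e (nat_lit 2551) (nat_lit 159) .nil))))))) (.g (nat_lit 1) (.e (nat_lit 132808) (nat_lit 0) .nil) .nil))) 
(.lf (nat_lit 485950) (.g (nat_lit 3785) (.e (nat_lit 24623) (nat_lit 9) (.e (nat_lit 336454) (nat_lit 34) (.e (nat_lit 483365) (nat_lit 18) (.e (nat_lit 57851) (nat_lit 252) (.e (nat_lit 57371) (nat_lit 2) (.e (nat_lit 90160) (nat_lit 11) .nil)))))) (.g (nat_lit 1) (.e (nat_lit 133444) (nat_lit 0) .nil) .nil)))) (.nd (nat_lit 9) 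
(.lf (nat_lit 485694) (.g (nat_lit 332) (.e (nat_lit 24617) (nat_lit 7) (.e (nat_lit 319504) (nat_lit 10) (.e (nat_lit 7936) (nat_lit 45) .nil))) (.g (nat_lit 0) (.e (nat_lit 133106) (nat_lit 0) .nil) .nil))) 
(.lf (nat_lit 486206) (.g (nat_lit 3370) (.e (nat_lit 24627) (nat_lit 9) (.e (nat_lit 336443) (nat_lit 32) (.e (nat_lit 466972) (nat_lit 21) (.e (nat_lit 164332) (nat_lit 230) (.e (nat_lit 163880) (nat_lit 4) (.e (nat_lit 213032) (nat_lit 11) .nil)))))) (.g (nat_lit 1) (.e (nat_lit 133736) (nat_lit 0) .nil) .nil))))) (.nd (nat_lit 8) (.nd (nat_lit 9) 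
(.lf (nat_lit 485566) (.g (nat_lit 2090) (.e (nat_lit 24609) (nat_lit 3) (.e (nat_lit 98369) (nat_lit 28) (.e (nat_lit 442374) (nat_lit 0) (.e (nat_lit 1800) (nat_lit 119) (.e (nat_lit 516126) (nat_lit 2) (.e (nat_lit 213032) (nat_lit 11) .nil)))))) (.g (nat_lit 1) (.e (nat_lit 132959) (nat_lit 0) .nil) .nil))) 
(.lf (nat_lit 486078) (.g (nat_lit 2874) (.e (nat_lit 24625) (nat_lit 9) (.e (nat_lit 336456) (nat_lit 34) (.e (nat_lit 483365) (nat_lit 18) (.e (nat_lit 57848) (nat_lit 252) (.e (nat_lit 57372) (nat_lit 2) (.e (nat_lit 90159) (nat_lit 11) .nil)))))) (.g (nat_lit 1) (.e (nat_lit 133580) (nat_lit 0) .nil) .nil)))) (.nd (nat_lit 9) 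
(.lf (nat_lit 485822) (.g (nat_lit 2601) (.e (nat_lit 24617) (nat_lit 7) (.e (nat_lit 319533) (nat_lit 16) (.e (nat_lit 286759) (nat_lit 12) (.e (nat_lit 385115) (nat_lit 53) (.e (nat_lit 811033) (nat_lit 11) (.e (nat_lit 883) (nat_lit 75) (.e (nat_lit 778464) (nat_lit 11) .nil))))))) (.g (nat_lit 1) (.e (nat_lit 133270) (nat_lit 0) .nil) .nil))) 
(.lf (nat_lit 486334) (.g (nat_lit 1827) (.e (nat_lit 24628) (nat_lit 9) (.e (nat_lit 336443) (nat_lit 32) (.e (nat_lit 466969) (nat_lit 21) (.e (nat_lit 164325) (nat_lit 230) (.e (nat_lit 163841) (nat_lit 0) .nil))))) (.g (nat_lit 0) (.e (nat_lit 133905) (nat_lit 0) .nil) .nil)))))) (.nd (nat_lit 7) (.nd (nat_lit 8) (.nd (nat_lit 9) 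
(.lf (nat_lit 485502) (.g (nat_lit 4979) (.e (nat_lit 24608) (nat_lit 3) (.e (nat_lit 98373) (nat_lit 29) (.e (nat_lit 450588) (nat_lit 10) (.e (nat_lit 573475) (nat_lit 12) (.e (nat_lit 57574) (nat_lit 55) (.e (nat_lit 786176) (nat_lit 11) .nil)))))) (.g (nat_lit 1) (.e (nat_lit 132872) (nat_lit 0) .nil) .nil))) 
(.lf (nat_lit 486014) (.g (nat_lit 3607) (.e (nat_lit 24624) (nat_lit 9) (.e (nat_lit 336456) (nat_lit 34) (.e (nat_lit 483363) (nat_lit 18) (.e (nat_lit 57847) (nat_lit 252) (.e (nat_lit 57375) (nat_lit 2) (.e (nat_lit 90160) (nat_lit 11) .nil)))))) (.g (nat_lit 1) (.e (nat_lit 133514) (nat_lit 0) .nil) .nil)))) (.nd (nat_lit 9) 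
(.lf (nat_lit 485758) (.g (nat_lit 2816) (.e (nat_lit 24617) (nat_lit 7) (.e (nat_lit 319531) (nat_lit 16) (.e (nat_lit 286759) (nat_lit 12) (.e (nat_lit 385109) (nat_lit 51) (.e (nat_lit 794677) (nat_lit 24) .nil))))) (.g (nat_lit 0) (.e (nat_lit 133194) (nat_lit 0) .nil) .nil))) 
(.lf (nat_lit 486270) (.g (nat_lit 3621) (.e (nat_lit 24628) (nat_lit 9) (.e (nat_lit 336324) (nat_lit 18) (.e (nat_lit 204831) (nat_lit 18) (.e (nat_lit 57830) (nat_lit 250) .nil)))) (.g (nat_lit 0) (.e (nat_lit 133824) (nat_lit 0) .nil) .nil))))) (.nd (nat_lit 8) (.nd (nat_lit 9) 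
(.lf (nat_lit 485630) (.g (nat_lit 3200) (.e (nat_lit 24609) (nat_lit 3) (.e (nat_lit 98373) (nat_lit 29) (.e (nat_lit 450587) (nat_lit 10) (.e (nat_lit 573478) (nat_lit 12) (.e (nat_lit 57574) (nat_lit 55) (.e (nat_lit 778460) (nat_lit 11) .nil)))))) (.g (nat_lit 1) (.e (nat_lit 133026) (nat_lit 0) .nil) .nil))) 
(.lf (nat_lit 486142) (.g (nat_lit 2947) (.e (nat_lit 24627) (nat_lit 9) (.e (nat_lit 336379) (nat_lit 27) (.e (nat_lit 426525) (nat_lit 27) (.e (nat_lit 335995) (nat_lit 1) (.e (nat_lit 57848) (nat_lit 252) (.e (nat_lit 57372) (nat_lit 2) (.e (nat_lit 90159) (nat_lit 11) .nil))))))) (.g (nat_lit 1) (.e (nat_lit 133667) (nat_lit 0) .nil) .nil)))) (.nd (nat_lit 9) 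
(.lf (nat_lit 485886) (.g (nat_lit 3060) (.e (nat_lit 24617) (nat_lit 7) (.e (nat_lit 319534) (nat_lit 16) (.e (nat_lit 286756) (nat_lit 10) (.e (nat_lit 344160) (nat_lit 37) (.e (nat_lit 647195) (nat_lit 9) (.e (nat_lit 1014) (nat_lit 81) (.e (nat_lit 2328) (nat_lit 151) (.e (nat_lit 778464) (nat_lit 11) .nil)))))))) (.g (nat_lit 1) (.e (nat_lit 133348) (nat_lit 0) .nil) .nil))) 
(.lf (nat_lit 486398) (.g (nat_lit 1987) (.e (nat_lit 24628) (nat_lit 9) (.e (nat_lit 336443) (nat_lit 32) (.e (nat_lit 466971) (nat_lit 21) (.e (nat_lit 164331) (nat_lit 230) (.e (nat_lit 163877) (nat_lit 4) (.e (nat_lit 213032) (nat_lit 11) .nil)))))) (.g (nat_lit 1) (.e (nat_lit 133969) (nat_lit 0) .nil) .nil)))))))))))) 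
(.nd (nat_lit 1) (.nd (nat_lit 2) (.nd (nat_lit 3) (.nd (nat_lit 4) (.nd (nat_lit 5) 
(.nd (nat_lit 6) (.nd (nat_lit 7) (.nd (nat_lit 8) (.nd (nat_lit 9) 
(.lf (nat_lit 485377) (.g (nat_lit 3015) (.e (nat_lit 24608) (nat_lit 3) (.e (nat_lit 98365) (nat_lit 26) (.e (nat_lit 426306) (nat_lit 12) (.e (nat_lit 475179) (nat_lit 24) (.e (nat_lit 516127) (nat_lit 2) (.e (nat_lit 213031) (nat_lit 11) .nil)))))) (.g (nat_lit 1) (.e (nat_lit 132734) (nat_lit 0) .nil) .nil))) 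
(.lf (nat_lit 485889) (.g (nat_lit 4773) (.e (nat_lit 24617) (nat_lit 7) (.e (nat_lit 319534) (nat_lit 16) (.e (nat_lit 286756) (nat_lit 10) (.e (nat_lit 344160) (nat_lit 37) (.e (nat_lit 647200) (nat_lit 12) (.e (nat_lit 57575) (nat_lit 55) (.e (nat_lit 778466) (nat_lit 11) .nil))))))) (.g (nat_lit 1) (.e (nat_lit 133351) (nat_lit 0) .nil) .nil)))) (.nd (nat_lit 9) 
(.lf (nat_lit 485633) (.g (nat_lit 4283) (.e (nat_lit 24609) (nat_lit 3) (.e (nat_lit 98373) (nat_lit 29) (.e (nat_lit 450587) (nat_lit 10) (.e (nat_lit 573478) (nat_lit 12) (.e (nat_lit 57574) (nat_lit 55) (.e (nat_lit 778465) (nat_lit 11) .nil)))))) (.g (nat_lit 1) (.e (nat_lit 133029) (nat_lit 0) .nil) .nil))) 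
(.lf (nat_lit 486145) (.g (nat_lit 2196) (.e (nat_lit 24627) (nat_lit 9) (.e (nat_lit 336377) (nat_lit 27) (.e (nat_lit 426521) (nat_lit 27) (.e (nat_lit 335995) (nat_lit 1) (.e (nat_lit 57848) (nat_lit 252) (.e (nat_lit 57375) (nat_lit 2) (.e (nat_lit 90159) (nat_lit 11) .nil))))))) (.g (nat_lit 1) (.e (nat_lit 133670) (nat_lit 0) .nil) .nil))))) (.nd (nat_lit 8) (.nd (nat_lit 9) 
(.lf (nat_lit 485505) (.g (nat_lit 4359) (.e (nat_lit 24608) (nat_lit 3) (.e (nat_lit 98373) (nat_lit 29) (.e (nat_lit 450588) (nat_lit 10) (.e (nat_lit 573477) (nat_lit 12) .nil)))) (.g (nat_lit 0) (.e (nat_lit 132875) (nat_lit 0) .nil) .nil))) 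
(.lf (nat_lit 486017) (.g (nat_lit 3214) (.e (nat_lit 24624) (nat_lit 9) (.e (nat_lit 336456) (nat_lit 34) (.e (nat_lit 483364) (nat_lit 18) (.e (nat_lit 57854) (nat_lit 252) (.e (nat_lit 57371) (nat_lit 2) (.e (nat_lit 90160) (nat_lit 11) .nil)))))) (.g (nat_lit 1) (.e (nat_lit 133517) (nat_lit 0) .nil) .nil)))) (.nd (nat_lit 9) 
(.lf (nat_lit 485761) (.g (nat_lit 2385) (.e (nat_lit 24617) (nat_lit 7) (.e (nat_lit 319531) (nat_lit 16) (.e (nat_lit 286759) (nat_lit 12) (.e (nat_lit 385115) (nat_lit 53) (.e (nat_lit 811039) (nat_lit 11) (.e (nat_lit 913) (nat_lit 75) (.e (nat_lit 778464) (nat_lit 11) .nil))))))) (.g (nat_lit 1) (.e (nat_lit 133197) (nat_lit 0) .nil) .nil))) 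
(.lf (nat_lit 486273) (.g (nat_lit 4623) (.e (nat_lit 24628) (nat_lit 9) (.e (nat_lit 336324) (nat_lit 18) (.e (nat_lit 204831) (nat_lit 18) (.e (nat_lit 57848) (nat_lit 252) .nil)))) (.g (nat_lit 0) (.e (nat_lit 133827) (nat_lit 0) .nil) .nil)))))) (.nd (nat_lit 7) (.nd (nat_lit 8) (.nd (nat_lit 9) 
(.lf (nat_lit 485441) (.g (nat_lit 3708) (.e (nat_lit 24608) (nat_lit 3) (.e (nat_lit 98373) (nat_lit 29) (.e (nat_lit 450587) (nat_lit 10) (.e (nat_lit 573475) (nat_lit 12) (.e (nat_lit 57345) (nat_lit 0) (.e (nat_lit 7433) (nat_lit 396) (.e (nat_lit 2551) (nat_lit 159) .nil))))))) (.g (nat_lit 1) (.e (nat_lit 132811) (nat_lit 0) .nil) .nil))) 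
(.lf (nat_lit 485953) (.g (nat_lit 4104) (.e (nat_lit 24623) (nat_lit 9) (.e (nat_lit 336454) (nat_lit 34) (.e (nat_lit 483365) (nat_lit 18) (.e (nat_lit 57853) (nat_lit 252) (.e (nat_lit 57371) (nat_lit 2) (.e (nat_lit 90160) (nat_lit 11) .nil)))))) (.g (nat_lit 1) (.e (nat_lit 133447) (nat_lit 0) .nil) .nil)))) (.nd (nat_lit 9) 
(.lf (nat_lit 485697) (.g (nat_lit 1660) (.e (nat_lit 24617) (nat_lit 7) (.e (nat_lit 319528) (nat_lit 16) (.e (nat_lit 286759) (nat_lit 12) (.e (nat_lit 385090) (nat_lit 49) (.e (nat_lit 778483) (nat_lit 12) .nil))))) (.g (nat_lit 0) (.e (nat_lit 133119) (nat_lit 0) .nil) .nil))) 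
(.lf (nat_lit 486209) (.g (nat_lit 2047) (.e (nat_lit 24627) (nat_lit 9) (.e (nat_lit 336452) (nat_lit 34) (.e (nat_lit 483366) (nat_lit 18) (.e (nat_lit 57854) (nat_lit 252) (.e (nat_lit 57373) (nat_lit 2) (.e (nat_lit 90159) (nat_lit 11) .nil)))))) (.g (nat_lit 1) (.e (nat_lit 133749) (nat_lit 0) .nil) .nil))))) (.nd (nat_lit 8) (.nd (nat_lit 9) 
(.lf (nat_lit 485569) (.g (nat_lit 2419) (.e (nat_lit 24609) (nat_lit 3) (.e (nat_lit 98370) (nat_lit 28) (.e (nat_lit 442374) (nat_lit 0) (.e (nat_lit 1800) (nat_lit 119) (.e (nat_lit 516127) (nat_lit 2) (.e (nat_lit 213032) (nat_lit 11) .nil)))))) (.g (nat_lit 1) (.e (nat_lit 132962) (nat_lit 0) .nil) .nil))) 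
(.lf (nat_lit 486081) (.g (nat_lit 2742) (.e (nat_lit 24625) (nat_lit 9) (.e (nat_lit 336456) (nat_lit 34) (.e (nat_lit 483365) (nat_lit 18) (.e (nat_lit 57848) (nat_lit 252) (.e (nat_lit 57375) (nat_lit 2) (.e (nat_lit 90159) (nat_lit 11) .nil)))))) (.g (nat_lit 1) (.e (nat_lit 133583) (nat_lit 0) .nil) .nil)))) (.nd (nat_lit 9) 
(.lf (nat_lit 485825) (.g (nat_lit 2326) (.e (nat_lit 24617) (nat_lit 7) (.e (nat_lit 319533) (nat_lit 16) (.e (nat_lit 286759) (nat_lit 12) (.e (nat_lit 385115) (nat_lit 53) (.e (nat_lit 811045) (nat_lit 14) (.e (nat_lit 40993) (nat_lit 11) .nil)))))) (.g (nat_lit 1) (.e (nat_lit 133273) (nat_lit 0) .nil) .nil))) 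
(.lf (nat_lit 486337) (.g (nat_lit 3077) (.e (nat_lit 24628) (nat_lit 9) (.e (nat_lit 336443) (nat_lit 32) (.e (nat_lit 466969) (nat_lit 21) (.e (nat_lit 164325) (nat_lit 230) (.e (nat_lit 163879) (nat_lit 4) (.e (nat_lit 213032) (nat_lit 11) .nil)))))) (.g (nat_lit 1) (.e (nat_lit 133908) (nat_lit 0) .nil) .nil))))))) (.nd (nat_lit 6) (.nd (nat_lit 7) (.nd (nat_lit 8) (.nd (nat_lit 9) 
(.lf (nat_lit 485409) (.g (nat_lit 2845) (.e (nat_lit 24608) (nat_lit 3) (.e (nat_lit 98372) (nat_lit 29) (.e (nat_lit 450588) (nat_lit 10) (.e (nat_lit 573454) (nat_lit 9) .nil)))) (.g (nat_lit 0) (.e (nat_lit 132768) (nat_lit 0) .nil) .nil))) 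
(.lf (nat_lit 485921) (.g (nat_lit 2648) (.e (nat_lit 24620) (nat_lit 8) (.e (nat_lit 327715) (nat_lit 16) (.e (nat_lit 286759) (nat_lit 12) (.e (nat_lit 385107) (nat_lit 51) (.e (nat_lit 794680) (nat_lit 24) .nil))))) (.g (nat_lit 0) (.e (nat_lit 133406) (nat_lit 0) .nil) .nil)))) (.nd (nat_lit 9) 
(.lf (nat_lit 485665) (.g (nat_lit 2186) (.e (nat_lit 32512) (nat_lit 3) (.e (nat_lit 98373) (nat_lit 29) (.e (nat_lit 450587) (nat_lit 10) (.e (nat_lit 573477) (nat_lit 12) (.e (nat_lit 57574) (nat_lit 55) .nil))))) (.g (nat_lit 0) (.e (nat_lit 133063) (nat_lit 0) .nil) .nil))) 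
(.lf (nat_lit 486177) (.g (nat_lit 3254) (.e (nat_lit 24627) (nat_lit 9) (.e (nat_lit 336443) (nat_lit 32) (.e (nat_lit 466969) (nat_lit 21) (.e (nat_lit 164332) (nat_lit 230) (.e (nat_lit 163880) (nat_lit 4) (.e (nat_lit 213032) (nat_lit 11) .nil)))))) (.g (nat_lit 1) (.e (nat_lit 133707) (nat_lit 0) .nil) .nil))))) (.nd (nat_lit 8) (.nd (nat_lit 9) 
(.lf (nat_lit 485537) (.g (nat_lit 2934) (.e (nat_lit 24609) (nat_lit 3) (.e (nat_lit 98358) (nat_lit 26) (.e (nat_lit 426320) (nat_lit 12) (.e (nat_lit 475179) (nat_lit 24) (.e (nat_lit 516124) (nat_lit 2) (.e (nat_lit 213030) (nat_lit 11) .nil)))))) (.g (nat_lit 1) (.e (nat_lit 132916) (nat_lit 0) .nil) .nil))) 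
(.lf (nat_lit 486049) (.g (nat_lit 2229) (.e (nat_lit 24625) (nat_lit 9) (.e (nat_lit 336443) (nat_lit 32) (.e (nat_lit 466969) (nat_lit 21) (.e (nat_lit 164331) (nat_lit 230) (.e (nat_lit 163878) (nat_lit 4) (.e (nat_lit 213032) (nat_lit 11) .nil)))))) (.g (nat_lit 1) (.e (nat_lit 133551) (nat_lit 0) .nil) .nil)))) (.nd (nat_lit 9) 
(.lf (nat_lit 485793) (.g (nat_lit 3461) (.e (nat_lit 24617) (nat_lit 7) (.e (nat_lit 319533) (nat_lit 16) (.e (nat_lit 286753) (nat_lit 10) (.e (nat_lit 344160) (nat_lit 37) (.e (nat_lit 647195) (nat_lit 9) (.e (nat_lit 1008) (nat_lit 81) (.e (nat_lit 2350) (nat_lit 151) (.e (nat_lit 778464) (nat_lit 11) .nil)))))))) (.g (nat_lit 1) (.e (nat_lit 133234) (nat_lit 0) .nil) .nil))) 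
(.lf (nat_lit 486305) (.g (nat_lit 2039) (.e (nat_lit 24628) (nat_lit 9) (.e (nat_lit 336370) (nat_lit 27) (.e (nat_lit 426498) (nat_lit 27) (.e (nat_lit 335986) (nat_lit 1) (.e (nat_lit 57849) (nat_lit 252) (.e (nat_lit 57372) (nat_lit 2) (.e (nat_lit 90158) (nat_lit 11) .nil))))))) (.g (nat_lit 1) (.e (nat_lit 133861) (nat_lit 0) .nil) .nil)))))) 
(.nd (nat_lit 7) (.nd (nat_lit 8) (.nd (nat_lit 9) 
(.lf (nat_lit 485473) (.g (nat_lit 3656) (.e (nat_lit 24608) (nat_lit 3) (.e (nat_lit 98373) (nat_lit 29) (.e (nat_lit 450587) (nat_lit 10) (.e (nat_lit 573477) (nat_lit 12) (.e (nat_lit 57574) (nat_lit 55) (.e (nat_lit 778463) (nat_lit 11) .nil)))))) (.g (nat_lit 1) (.e (nat_lit 132843) (nat_lit 0) .nil) .nil))) 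
(.lf (nat_lit 485985) (.g (nat_lit 2789) (.e (nat_lit 24624) (nat_lit 9) (.e (nat_lit 336443) (nat_lit 32) (.e (nat_lit 466972) (nat_lit 21) (.e (nat_lit 164330) (nat_lit 230) (.e (nat_lit 163878) (nat_lit 4) .nil))))) (.g (nat_lit 0) (.e (nat_lit 133484) (nat_lit 0) .nil) .nil)))) (.nd (nat_lit 9) 
(.lf (nat_lit 485729) (.g (nat_lit 1499) (.e (nat_lit 24617) (nat_lit 7) (.e (nat_lit 319530) (nat_lit 16) (.e (nat_lit 286759) (nat_lit 12) (.e (nat_lit 385093) (nat_lit 49) .nil)))) (.g (nat_lit 0) (.e (nat_lit 133159) (nat_lit 0) .nil) .nil))) 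
(.lf (nat_lit 486241) (.g (nat_lit 3805) (.e (nat_lit 24627) (nat_lit 9) (.e (nat_lit 336454) (nat_lit 34) (.e (nat_lit 483365) (nat_lit 18) (.e (nat_lit 57846) (nat_lit 252) (.e (nat_lit 57375) (nat_lit 2) (.e (nat_lit 90160) (nat_lit 11) .nil)))))) (.g (nat_lit 1) (.e (nat_lit 133781) (nat_lit 0) .nil) .nil))))) (.nd (nat_lit 8) (.nd (nat_lit 9) 
(.lf (nat_lit 485601) (.g (nat_lit 1744) (.e (nat_lit 24609) (nat_lit 3) (.e (nat_lit 98373) (nat_lit 29) (.e (nat_lit 450586) (nat_lit 10) (.e (nat_lit 573477) (nat_lit 12) .nil)))) (.g (nat_lit 0) (.e (nat_lit 132997) (nat_lit 0) .nil) .nil))) 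
(.lf (nat_lit 486113) (.g (nat_lit 2449) (.e (nat_lit 24626) (nat_lit 9) (.e (nat_lit 336454) (nat_lit 34) (.e (nat_lit 483365) (nat_lit 18) (.e (nat_lit 57847) (nat_lit 252) (.e (nat_lit 57375) (nat_lit 2) (.e (nat_lit 90157) (nat_lit 11) .nil)))))) (.g (nat_lit 1) (.e (nat_lit 133620) (nat_lit 0) .nil) .nil)))) (.nd (nat_lit 9) 
(.lf (nat_lit 485857) (.g (nat_lit 2533) (.e (nat_lit 24617) (nat_lit 7) (.e (nat_lit 319534) (nat_lit 16) (.e (nat_lit 286756) (nat_lit 10) (.e (nat_lit 344169) (nat_lit 40) (.e (nat_lit 671780) (nat_lit 12) (.e (nat_lit 164043) (nat_lit 55) (.e (nat_lit 778460) (nat_lit 11) .nil))))))) (.g (nat_lit 1) (.e (nat_lit 133319) (nat_lit 0) .nil) .nil))) 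
(.lf (nat_lit 486369) (.g (nat_lit 2381) (.e (nat_lit 24628) (nat_lit 9) (.e (nat_lit 336443) (nat_lit 32) (.e (nat_lit 466969) (nat_lit 21) (.e (nat_lit 164332) (nat_lit 230) (.e (nat_lit 163843) (nat_lit 0) (.e (nat_lit 3648) (nat_lit 227) (.e (nat_lit 778462) (nat_lit 11) .nil))))))) (.g (nat_lit 1) (.e (nat_lit 133940) (nat_lit 0) .nil) .nil)))))))) 
(.nd (nat_lit 5) (.nd (nat_lit 6) (.nd (nat_lit 7) (.nd (nat_lit 8) (.nd (nat_lit 9) 
(.lf (nat_lit 485393) (.g (nat_lit 3393) (.e (nat_lit 24608) (nat_lit 3) (.e (nat_lit 98372) (nat_lit 29) (.e (nat_lit 450586) (nat_lit 10) (.e (nat_lit 573475) (nat_lit 12) (.e (nat_lit 57574) (nat_lit 55) (.e (nat_lit 778463) (nat_lit 11) .nil)))))) (.g (nat_lit 1) (.e (nat_lit 132752) (nat_lit 0) .nil) .nil))) 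
(.lf (nat_lit 485905) (.g (nat_lit 2100) (.e (nat_lit 24617) (nat_lit 7) (.e (nat_lit 319534) (nat_lit 16) (.e (nat_lit 286759) (nat_lit 12) (.e (nat_lit 385107) (nat_lit 51) (.e (nat_lit 794676) (nat_lit 24) (.e (nat_lit 213030) (nat_lit 11) .nil)))))) (.g (nat_lit 1) (.e (nat_lit 133373) (nat_lit 0) .nil) .nil)))) (.nd (nat_lit 9) 
(.lf (nat_lit 485649) (.g (nat_lit 834) (.e (nat_lit 24609) (nat_lit 3) (.e (nat_lit 98373) (nat_lit 29) (.e (nat_lit 458496) (nat_lit 8) .nil))) (.g (nat_lit 0) (.e (nat_lit 133045) (nat_lit 0) .nil) .nil))) 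
(.lf (nat_lit 486161) (.g (nat_lit 2876) (.e (nat_lit 24627) (nat_lit 9) (.e (nat_lit 336443) (nat_lit 32) (.e (nat_lit 466969) (nat_lit 21) (.e (nat_lit 164327) (nat_lit 230) (.e (nat_lit 163881) (nat_lit 4) (.e (nat_lit 213032) (nat_lit 11) .nil)))))) (.g (nat_lit 1) (.e (nat_lit 133691) (nat_lit 0) .nil) .nil))))) (.nd (nat_lit 8) (.nd (nat_lit 9) 
(.lf (nat_lit 485521) (.g (nat_lit 2682) (.e (nat_lit 24608) (nat_lit 3) (.e (nat_lit 98388) (nat_lit 33) (.e (nat_lit 491566) (nat_lit 12) (.e (nat_lit 385065) (nat_lit 26) .nil)))) (.g (nat_lit 0) (.e (nat_lit 132895) (nat_lit 0) .nil) .nil))) 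
(.lf (nat_lit 486033) (.g (nat_lit 2701) (.e (nat_lit 24625) (nat_lit 9) (.e (nat_lit 336426) (nat_lit 29) (.e (nat_lit 442421) (nat_lit 21) (.e (nat_lit 164326) (nat_lit 230) (.e (nat_lit 163882) (nat_lit 4) (.e (nat_lit 213032) (nat_lit 11) .nil)))))) (.g (nat_lit 1) (.e (nat_lit 133533) (nat_lit 0) .nil) .nil)))) (.nd (nat_lit 9) 
(.lf (nat_lit 485777) (.g (nat_lit 2270) (.e (nat_lit 24617) (nat_lit 7) (.e (nat_lit 319533) (nat_lit 16) (.e (nat_lit 286753) (nat_lit 10) (.e (nat_lit 344168) (nat_lit 40) (.e (nat_lit 671771) (nat_lit 9) (.e (nat_lit 2747) (nat_lit 175) (.e (nat_lit 262165) (nat_lit 11) .nil))))))) (.g (nat_lit 1) (.e (nat_lit 133217) (nat_lit 0) .nil) .nil))) 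
(.lf (nat_lit 486289) (.g (nat_lit 2945) (.e (nat_lit 24628) (nat_lit 9) (.e (nat_lit 336366) (nat_lit 27) (.e (nat_lit 426499) (nat_lit 27) (.e (nat_lit 335986) (nat_lit 1) (.e (nat_lit 57847) (nat_lit 252) (.e (nat_lit 57372) (nat_lit 2) (.e (nat_lit 90158) (nat_lit 11) .nil))))))) (.g (nat_lit 1) (.e (nat_lit 133844) (nat_lit 0) .nil) .nil)))))) 
(.nd (nat_lit 7) (.nd (nat_lit 8) (.nd (nat_lit 9) 
(.lf (nat_lit 485457) (.g (nat_lit 2979) (.e (nat_lit 24608) (nat_lit 3) (.e (nat_lit 98373) (nat_lit 29) (.e (nat_lit 450587) (nat_lit 10) (.e (nat_lit 573475) (nat_lit 12) (.e (nat_lit 57346) (nat_lit 0) (.e (nat_lit 7439) (nat_lit 396) (.e (nat_lit 2551) (nat_lit 159) .nil))))))) (.g (nat_lit 1) (.e (nat_lit 132827) (nat_lit 0) .nil) .nil))) 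
(.lf (nat_lit 485969) (.g (nat_lit 4810) (.e (nat_lit 24624) (nat_lit 9) (.e (nat_lit 336324) (nat_lit 18) (.e (nat_lit 204831) (nat_lit 18) (.e (nat_lit 57849) (nat_lit 252) .nil)))) (.g (nat_lit 0) (.e (nat_lit 133464) (nat_lit 0) .nil) .nil)))) (.nd (nat_lit 9) 
(.lf (nat_lit 485713) (.g (nat_lit 1982) (.e (nat_lit 24617) (nat_lit 7) (.e (nat_lit 319528) (nat_lit 16) (.e (nat_lit 286759) (nat_lit 12) (.e (nat_lit 385115) (nat_lit 53) (.e (nat_lit 811045) (nat_lit 14) (.e (nat_lit 40993) (nat_lit 11) .nil)))))) (.g (nat_lit 1) (.e (nat_lit 133139) (nat_lit 0) .nil) .nil))) 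
(.lf (nat_lit 486225) (.g (nat_lit 3746) (.e (nat_lit 24627) (nat_lit 9) (.e (nat_lit 336454) (nat_lit 34) (.e (nat_lit 483363) (nat_lit 18) (.e (nat_lit 57853) (nat_lit 252) (.e (nat_lit 57371) (nat_lit 2) (.e (nat_lit 90160) (nat_lit 11) .nil)))))) (.g (nat_lit 1) (.e (nat_lit 133765) (nat_lit 0) .nil) .nil))))) (.nd (nat_lit 8) (.nd (nat_lit 9) 
(.lf (nat_lit 485585) (.g (nat_lit 1583) (.e (nat_lit 24609) (nat_lit 3) (.e (nat_lit 98372) (nat_lit 29) (.e (nat_lit 450586) (nat_lit 10) (.e (nat_lit 573477) (nat_lit 12) (.e (nat_lit 57573) (nat_lit 55) .nil))))) (.g (nat_lit 0) (.e (nat_lit 132978) (nat_lit 0) .nil) .nil))) 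
(.lf (nat_lit 486097) (.g (nat_lit 1985) (.e (nat_lit 24626) (nat_lit 9) (.e (nat_lit 336443) (nat_lit 32) (.e (nat_lit 466969) (nat_lit 21) (.e (nat_lit 164332) (nat_lit 230) (.e (nat_lit 163880) (nat_lit 4) (.e (nat_lit 213031) (nat_lit 11) .nil)))))) (.g (nat_lit 1) (.e (nat_lit 133602) (nat_lit 0) .nil) .nil)))) (.nd (nat_lit 9) 
(.lf (nat_lit 485841) (.g (nat_lit 1341) (.e (nat_lit 24617) (nat_lit 7) (.e (nat_lit 319534) (nat_lit 16) (.e (nat_lit 286756) (nat_lit 10) (.e (nat_lit 344087) (nat_lit 18) .nil)))) (.g (nat_lit 0) (.e (nat_lit 133299) (nat_lit 0) .nil) .nil))) 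
(.lf (nat_lit 486353) (.g (nat_lit 2675) (.e (nat_lit 24628) (nat_lit 9) (.e (nat_lit 336443) (nat_lit 32) (.e (nat_lit 466969) (nat_lit 21) (.e (nat_lit 164329) (nat_lit 230) (.e (nat_lit 163850) (nat_lit 0) (.e (nat_lit 3711) (nat_lit 227) (.e (nat_lit 778469) (nat_lit 11) .nil))))))) (.g (nat_lit 1) (.e (nat_lit 133924) (nat_lit 0) .nil) .nil))))))) 
(.nd (nat_lit 6) (.nd (nat_lit 7) (.nd (nat_lit 8) (.nd (nat_lit 9) 
(.lf (nat_lit 485425) (.g (nat_lit 612) (.e (nat_lit 24608) (nat_lit 3) (.e (nat_lit 98373) (nat_lit 29) (.e (nat_lit 450586) (nat_lit 10) .nil))) (.g (nat_lit 0) (.e (nat_lit 132795) (nat_lit 0) .nil) .nil))) 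
(.lf (nat_lit 485937) (.g (nat_lit 2682) (.e (nat_lit 24623) (nat_lit 9) (.e (nat_lit 336412) (nat_lit 27) (.e (nat_lit 426343) (nat_lit 14) (.e (nat_lit 491556) (nat_lit 9) (.e (nat_lit 336051) (nat_lit 6) (.e (nat_lit 147495) (nat_lit 11) .nil)))))) (.g (nat_lit 1) (.e (nat_lit 133430) (nat_lit 0) .nil) .nil)))) (.nd (nat_lit 9) 
(.lf (nat_lit 485681) (.g (nat_lit 2007) (.e (nat_lit 24616) (nat_lit 7) (.e (nat_lit 319530) (nat_lit 16) (.e (nat_lit 286759) (nat_lit 12) (.e (nat_lit 385115) (nat_lit 53) (.e (nat_lit 811033) (nat_lit 11) (.e (nat_lit 880) (nat_lit 75) (.e (nat_lit 778464) (nat_lit 11) .nil))))))) (.g (nat_lit 1) (.e (nat_lit 133091) (nat_lit 0) .nil) .nil))) 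
(.lf (nat_lit 486193) (.g (nat_lit 1266) (.e (nat_lit 24627) (nat_lit 9) (.e (nat_lit 336443) (nat_lit 32) (.e (nat_lit 466972) (nat_lit 21) (.e (nat_lit 164329) (nat_lit 230) .nil)))) (.g (nat_lit 0) (.e (nat_lit 133723) (nat_lit 0) .nil) .nil))))) (.nd (nat_lit 8) (.nd (nat_lit 9) 
(.lf (nat_lit 485553) (.g (nat_lit 2676) (.e (nat_lit 24609) (nat_lit 3) (.e (nat_lit 98365) (nat_lit 26) (.e (nat_lit 426306) (nat_lit 12) (.e (nat_lit 475177) (nat_lit 24) (.e (nat_lit 516124) (nat_lit 2) (.e (nat_lit 213030) (nat_lit 11) .nil)))))) (.g (nat_lit 1) (.e (nat_lit 132946) (nat_lit 0) .nil) .nil))) 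
(.lf (nat_lit 486065) (.g (nat_lit 2654) (.e (nat_lit 24625) (nat_lit 9) (.e (nat_lit 336443) (nat_lit 32) (.e (nat_lit 466972) (nat_lit 21) (.e (nat_lit 164330) (nat_lit 230) (.e (nat_lit 163878) (nat_lit 4) (.e (nat_lit 213032) (nat_lit 11) .nil)))))) (.g (nat_lit 1) (.e (nat_lit 133567) (nat_lit 0) .nil) .nil)))) (.nd (nat_lit 9) 
(.lf (nat_lit 485809) (.g (nat_lit 2162) (.e (nat_lit 24617) (nat_lit 7) (.e (nat_lit 319533) (nat_lit 16) (.e (nat_lit 286758) (nat_lit 12) (.e (nat_lit 385107) (nat_lit 51) (.e (nat_lit 794679) (nat_lit 24) (.e (nat_lit 213030) (nat_lit 11) .nil)))))) (.g (nat_lit 1) (.e (nat_lit 133254) (nat_lit 0) .nil) .nil))) 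
(.lf (nat_lit 486321) (.g (nat_lit 2742) (.e (nat_lit 24628) (nat_lit 9) (.e (nat_lit 336414) (nat_lit 27) (.e (nat_lit 426503) (nat_lit 27) (.e (nat_lit 335986) (nat_lit 1) (.e (nat_lit 57847) (nat_lit 252) (.e (nat_lit 57372) (nat_lit 2) (.e (nat_lit 90160) (nat_lit 11) .nil))))))) (.g (nat_lit 1) (.e (nat_lit 133888) (nat_lit 0) .nil) .nil)))))) 
(.nd (nat_lit 7) (.nd (nat_lit 8) (.nd (nat_lit 9) 
(.lf (nat_lit 485489) (.g (nat_lit 3974) (.e (nat_lit 24608) (nat_lit 3) (.e (nat_lit 98373) (nat_lit 29) (.e (nat_lit 450588) (nat_lit 10) (.e (nat_lit 573453) (nat_lit 9) .nil)))) (.g (nat_lit 0) (.e (nat_lit 132859) (nat_lit 0) .nil) .nil))) 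
(.lf (nat_lit 486001) (.g (nat_lit 3577) (.e (nat_lit 24624) (nat_lit 9) (.e (nat_lit 336454) (nat_lit 34) (.e (nat_lit 483365) (nat_lit 18) (.e (nat_lit 57844) (nat_lit 252) (.e (nat_lit 57375) (nat_lit 2) .nil))))) (.g (nat_lit 0) (.e (nat_lit 133500) (nat_lit 0) .nil) .nil)))) (.nd (nat_lit 9) 
(.lf (nat_lit 485745) (.g (nat_lit 2137) (.e (nat_lit 24617) (nat_lit 7) (.e (nat_lit 319531) (nat_lit 16) (.e (nat_lit 286759) (nat_lit 12) (.e (nat_lit 385093) (nat_lit 49) (.e (nat_lit 778510) (nat_lit 14) .nil))))) (.g (nat_lit 0) (.e (nat_lit 133175) (nat_lit 0) .nil) .nil))) 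
(.lf (nat_lit 486257) (.g (nat_lit 3405) (.e (nat_lit 24627) (nat_lit 9) (.e (nat_lit 336454) (nat_lit 34) (.e (nat_lit 483365) (nat_lit 18) (.e (nat_lit 57853) (nat_lit 252) (.e (nat_lit 57371) (nat_lit 2) (.e (nat_lit 90159) (nat_lit 11) .nil)))))) (.g (nat_lit 1) (.e (nat_lit 133797) (nat_lit 0) .nil) .nil))))) (.nd (nat_lit 8) (.nd (nat_lit 9) 
(.lf (nat_lit 485617) (.g (nat_lit 2026) (.e (nat_lit 24609) (nat_lit 3) (.e (nat_lit 98373) (nat_lit 29) (.e (nat_lit 450587) (nat_lit 10) (.e (nat_lit 573477) (nat_lit 12) .nil)))) (.g (nat_lit 0) (.e (nat_lit 133013) (nat_lit 0) .nil) .nil))) 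
(.lf (nat_lit 486129) (.g (nat_lit 4078) (.e (nat_lit 24627) (nat_lit 9) (.e (nat_lit 336324) (nat_lit 18) (.e (nat_lit 204831) (nat_lit 18) (.e (nat_lit 57851) (nat_lit 252) .nil)))) (.g (nat_lit 0) (.e (nat_lit 133642) (nat_lit 0) .nil) .nil)))) (.nd (nat_lit 9) 
(.lf (nat_lit 485873) (.g (nat_lit 2936) (.e (nat_lit 24617) (nat_lit 7) (.e (nat_lit 319534) (nat_lit 16) (.e (nat_lit 286756) (nat_lit 10) (.e (nat_lit 344160) (nat_lit 37) (.e (nat_lit 647190) (nat_lit 9) (.e (nat_lit 1016) (nat_lit 81) (.e (nat_lit 2328) (nat_lit 151) (.e (nat_lit 778464) (nat_lit 11) .nil)))))))) (.g (nat_lit 1) (.e (nat_lit 133335) (nat_lit 0) .nil) .nil))) 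
(.lf (nat_lit 486385) (.g (nat_lit 2849) (.e (nat_lit 24628) (nat_lit 9) (.e (nat_lit 336443) (nat_lit 32) (.e (nat_lit 466971) (nat_lit 21) (.e (nat_lit 164325) (nat_lit 230) (.e (nat_lit 163882) (nat_lit 4) (.e (nat_lit 213030) (nat_lit 11) .nil)))))) (.g (nat_lit 1) (.e (nat_lit 133956) (nat_lit 0) .nil) .nil))))))))) 
(.nd (nat_lit 4) (.nd (nat_lit 5) (.nd (nat_lit 6) (.nd (nat_lit 7) (.nd (nat_lit 8) 
(.nd (nat_lit 9) 
(.lf (nat_lit 485385) (.g (nat_lit 670) (.e (nat_lit 24608) (nat_lit 3) (.e (nat_lit 98370) (nat_lit 28) (.e (nat_lit 442430) (nat_lit 24) .nil))) (.g (nat_lit 0) (.e (nat_lit 132743) (nat_lit 0) .nil) .nil))) 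
(.lf (nat_lit 485897) (.g (nat_lit 921) (.e (nat_lit 24617) (nat_lit 7) (.e (nat_lit 319534) (nat_lit 16) (.e (nat_lit 286758) (nat_lit 12) .nil))) (.g (nat_lit 0) (.e (nat_lit 133360) (nat_lit 0) .nil) .nil)))) (.nd (nat_lit 9) 
(.lf (nat_lit 485641) (.g (nat_lit 4177) (.e (nat_lit 24609) (nat_lit 3) (.e (nat_lit 98373) (nat_lit 29) (.e (nat_lit 450588) (nat_lit 10) (.e (nat_lit 573475) (nat_lit 12) (.e (nat_lit 57574) (nat_lit 55) (.e (nat_lit 778460) (nat_lit 11) .nil)))))) (.g (nat_lit 1) (.e (nat_lit 133037) (nat_lit 0) .nil) .nil))) 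
(.lf (nat_lit 486153) (.g (nat_lit 2613) (.e (nat_lit 24627) (nat_lit 9) (.e (nat_lit 336443) (nat_lit 32) (.e (nat_lit 466969) (nat_lit 21) (.e (nat_lit 164322) (nat_lit 230) (.e (nat_lit 163878) (nat_lit 4) (.e (nat_lit 213030) (nat_lit 11) .nil)))))) (.g (nat_lit 1) (.e (nat_lit 133683) (nat_lit 0) .nil) .nil))))) (.nd (nat_lit 8) (.nd (nat_lit 9) 
(.lf (nat_lit 485513) (.g (nat_lit 1891) (.e (nat_lit 24608) (nat_lit 3) (.e (nat_lit 98384) (nat_lit 32) (.e (nat_lit 475210) (nat_lit 41) (.e (nat_lit 712729) (nat_lit 18) .nil)))) (.g (nat_lit 0) (.e (nat_lit 132886) (nat_lit 0) .nil) .nil))) 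
(.lf (nat_lit 486025) (.g (nat_lit 3897) (.e (nat_lit 24624) (nat_lit 9) (.e (nat_lit 336456) (nat_lit 34) (.e (nat_lit 483365) (nat_lit 18) (.e (nat_lit 57854) (nat_lit 252) (.e (nat_lit 57373) (nat_lit 2) (.e (nat_lit 90160) (nat_lit 11) .nil)))))) (.g (nat_lit 1) (.e (nat_lit 133525) (nat_lit 0) .nil) .nil)))) (.nd (nat_lit 9) 
(.lf (nat_lit 485769) (.g (nat_lit 1918) (.e (nat_lit 24617) (nat_lit 7) (.e (nat_lit 319532) (nat_lit 16) (.e (nat_lit 286759) (nat_lit 12) (.e (nat_lit 385115) (nat_lit 53) (.e (nat_lit 811034) (nat_lit 11) .nil))))) (.g (nat_lit 0) (.e (nat_lit 133206) (nat_lit 0) .nil) .nil))) 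
(.lf (nat_lit 486281) (.g (nat_lit 2380) (.e (nat_lit 24628) (nat_lit 9) (.e (nat_lit 336366) (nat_lit 27) (.e (nat_lit 426497) (nat_lit 27) (.e (nat_lit 335986) (nat_lit 1) (.e (nat_lit 57849) (nat_lit 252) (.e (nat_lit 57375) (nat_lit 2) (.e (nat_lit 90158) (nat_lit 11) .nil))))))) (.g (nat_lit 1) (.e (nat_lit 133836) (nat_lit 0) .nil) .nil)))))) 
(.nd (nat_lit 7) (.nd (nat_lit 8) (.nd (nat_lit 9) 
(.lf (nat_lit 485449) (.g (nat_lit 3088) (.e (nat_lit 24608) (nat_lit 3) (.e (nat_lit 98373) (nat_lit 29) (.e (nat_lit 450587) (nat_lit 10) (.e (nat_lit 573475) (nat_lit 12) (.e (nat_lit 57346) (nat_lit 0) (.e (nat_lit 7410) (nat_lit 396) (.e (nat_lit 2551) (nat_lit 159) .nil))))))) (.g (nat_lit 1) (.e (nat_lit 132819) (nat_lit 0) .nil) .nil))) 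
(.lf (nat_lit 485961) (.g (nat_lit 3781) (.e (nat_lit 24623) (nat_lit 9) (.e (nat_lit 336456) (nat_lit 34) (.e (nat_lit 483365) (nat_lit 18) (.e (nat_lit 57846) (nat_lit 252) (.e (nat_lit 57372) (nat_lit 2) (.e (nat_lit 90160) (nat_lit 11) .nil)))))) (.g (nat_lit 1) (.e (nat_lit 133455) (nat_lit 0) .nil) .nil)))) (.nd (nat_lit 9) 
(.lf (nat_lit 485705) (.g (nat_lit 2445) (.e (nat_lit 24617) (nat_lit 7) (.e (nat_lit 319528) (nat_lit 16) (.e (nat_lit 286759) (nat_lit 12) (.e (nat_lit 385107) (nat_lit 51) (.e (nat_lit 794678) (nat_lit 24) (.e (nat_lit 213030) (nat_lit 11) .nil)))))) (.g (nat_lit 1) (.e (nat_lit 133131) (nat_lit 0) .nil) .nil))) 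
(.lf (nat_lit 486217) (.g (nat_lit 2155) (.e (nat_lit 24627) (nat_lit 9) (.e (nat_lit 336454) (nat_lit 34) (.e (nat_lit 483363) (nat_lit 18) (.e (nat_lit 57847) (nat_lit 252) (.e (nat_lit 57374) (nat_lit 2) (.e (nat_lit 90159) (nat_lit 11) .nil)))))) (.g (nat_lit 1) (.e (nat_lit 133757) (nat_lit 0) .nil) .nil))))) (.nd (nat_lit 8) (.nd (nat_lit 9) 
(.lf (nat_lit 485577) (.g (nat_lit 2034) (.e (nat_lit 24609) (nat_lit 3) (.e (nat_lit 98372) (nat_lit 29) (.e (nat_lit 450579) (nat_lit 5) (.e (nat_lit 532504) (nat_lit 1) (.e (nat_lit 65280) (nat_lit 233) .nil))))) (.g (nat_lit 0) (.e (nat_lit 132970) (nat_lit 0) .nil) .nil))) 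
(.lf (nat_lit 486089) (.g (nat_lit 4145) (.e (nat_lit 24626) (nat_lit 9) (.e (nat_lit 336324) (nat_lit 18) (.e (nat_lit 204831) (nat_lit 18) (.e (nat_lit 57854) (nat_lit 252) .nil)))) (.g (nat_lit 0) (.e (nat_lit 133594) (nat_lit 0) .nil) .nil)))) (.nd (nat_lit 9) 
(.lf (nat_lit 485833) (.g (nat_lit 2518) (.e (nat_lit 24617) (nat_lit 7) (.e (nat_lit 319534) (nat_lit 16) (.e (nat_lit 286749) (nat_lit 9) (.e (nat_lit 335997) (nat_lit 1) (.e (nat_lit 57846) (nat_lit 252) (.e (nat_lit 65280) (nat_lit 65) (.e (nat_lit 213030) (nat_lit 11) .nil))))))) (.g (nat_lit 1) (.e (nat_lit 133289) (nat_lit 0) .nil) .nil))) 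
(.lf (nat_lit 486345) (.g (nat_lit 2105) (.e (nat_lit 24628) (nat_lit 9) (.e (nat_lit 336443) (nat_lit 32) (.e (nat_lit 466969) (nat_lit 21) (.e (nat_lit 164327) (nat_lit 230) (.e (nat_lit 163844) (nat_lit 0) (.e (nat_lit 3617) (nat_lit 227) (.e (nat_lit 778462) (nat_lit 11) .nil))))))) (.g (nat_lit 1) (.e (nat_lit 133916) (nat_lit 0) .nil) .nil))))))) 
(.nd (nat_lit 6) (.nd (nat_lit 7) (.nd (nat_lit 8) (.nd (nat_lit 9) 
(.lf (nat_lit 485417) (.g (nat_lit 4975) (.e (nat_lit 24608) (nat_lit 3) (.e (nat_lit 98372) (nat_lit 29) (.e (nat_lit 450588) (nat_lit 10) (.e (nat_lit 573475) (nat_lit 12) (.e (nat_lit 57574) (nat_lit 55) (.e (nat_lit 778465) (nat_lit 11) .nil)))))) (.g (nat_lit 1) (.e (nat_lit 132776) (nat_lit 0) .nil) .nil))) 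
(.lf (nat_lit 485929) (.g (nat_lit 2293) (.e (nat_lit 24623) (nat_lit 9) (.e (nat_lit 336384) (nat_lit 27) (.e (nat_lit 426344) (nat_lit 14) (.e (nat_lit 491560) (nat_lit 10) (.e (nat_lit 344179) (nat_lit 44) (.e (nat_lit 778465) (nat_lit 11) .nil)))))) (.g (nat_lit 1) (.e (nat_lit 133422) (nat_lit 0) .nil) .nil)))) (.nd (nat_lit 9) 
(.lf (nat_lit 485673) (.g (nat_lit 2696) (.e (nat_lit 24616) (nat_lit 7) (.e (nat_lit 319530) (nat_lit 16) (.e (nat_lit 286759) (nat_lit 12) (.e (nat_lit 385109) (nat_lit 51) (.e (nat_lit 794676) (nat_lit 24) .nil))))) (.g (nat_lit 0) (.e (nat_lit 133083) (nat_lit 0) .nil) .nil))) 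
(.lf (nat_lit 486185) (.g (nat_lit 2636) (.e (nat_lit 24627) (nat_lit 9) (.e (nat_lit 336443) (nat_lit 32) (.e (nat_lit 466971) (nat_lit 21) (.e (nat_lit 164326) (nat_lit 230) (.e (nat_lit 163881) (nat_lit 4) (.e (nat_lit 213032) (nat_lit 11) .nil)))))) (.g (nat_lit 1) (.e (nat_lit 133715) (nat_lit 0) .nil) .nil))))) (.nd (nat_lit 8) (.nd (nat_lit 9) 
(.lf (nat_lit 485545) (.g (nat_lit 1687) (.e (nat_lit 24609) (nat_lit 3) (.e (nat_lit 98365) (nat_lit 26) (.e (nat_lit 426187) (nat_lit 9) (.e (nat_lit 426438) (nat_lit 18) (.e (nat_lit 98338) (nat_lit 19) (.e (nat_lit 213030) (nat_lit 11) .nil)))))) (.g (nat_lit 1) (.e (nat_lit 132938) (nat_lit 0) .nil) .nil))) 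
(.lf (nat_lit 486057) (.g (nat_lit 2884) (.e (nat_lit 24625) (nat_lit 9) (.e (nat_lit 336443) (nat_lit 32) (.e (nat_lit 466971) (nat_lit 21) (.e (nat_lit 164326) (nat_lit 230) (.e (nat_lit 163882) (nat_lit 4) (.e (nat_lit 213032) (nat_lit 11) .nil)))))) (.g (nat_lit 1) (.e (nat_lit 133559) (nat_lit 0) .nil) .nil)))) (.nd (nat_lit 9) 
(.lf (nat_lit 485801) (.g (nat_lit 2933) (.e (nat_lit 24617) (nat_lit 7) (.e (nat_lit 319533) (nat_lit 16) (.e (nat_lit 286753) (nat_lit 10) (.e (nat_lit 344160) (nat_lit 37) (.e (nat_lit 647201) (nat_lit 12) (.e (nat_lit 65280) (nat_lit 55) (.e (nat_lit 778468) (nat_lit 11) .nil))))))) (.g (nat_lit 1) (.e (nat_lit 133242) (nat_lit 0) .nil) .nil))) 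
(.lf (nat_lit 486313) (.g (nat_lit 3783) (.e (nat_lit 24628) (nat_lit 9) (.e (nat_lit 336370) (nat_lit 27) (.e (nat_lit 426499) (nat_lit 27) (.e (nat_lit 335986) (nat_lit 1) (.e (nat_lit 57847) (nat_lit 252) (.e (nat_lit 57375) (nat_lit 2) (.e (nat_lit 90160) (nat_lit 11) .nil))))))) (.g (nat_lit 1) (.e (nat_lit 133869) (nat_lit 0) .nil) .nil)))))) 
(.nd (nat_lit 7) (.nd (nat_lit 8) (.nd (nat_lit 9) 
(.lf (nat_lit 485481) (.g (nat_lit 3559) (.e (nat_lit 24608) (nat_lit 3) (.e (nat_lit 98373) (nat_lit 29) (.e (nat_lit 450587) (nat_lit 10) (.e (nat_lit 573478) (nat_lit 12) (.e (nat_lit 57574) (nat_lit 55) (.e (nat_lit 778460) (nat_lit 11) .nil)))))) (.g (nat_lit 1) (.e (nat_lit 132851) (nat_lit 0) .nil) .nil))) 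
(.lf (nat_lit 485993) (.g (nat_lit 3617) (.e (nat_lit 24624) (nat_lit 9) (.e (nat_lit 336454) (nat_lit 34) (.e (nat_lit 483363) (nat_lit 18) (.e (nat_lit 57847) (nat_lit 252) (.e (nat_lit 57375) (nat_lit 2) (.e (nat_lit 90160) (nat_lit 11) .nil)))))) (.g (nat_lit 1) (.e (nat_lit 133492) (nat_lit 0) .nil) .nil)))) (.nd (nat_lit 9) 
(.lf (nat_lit 485737) (.g (nat_lit 2981) (.e (nat_lit 24617) (nat_lit 7) (.e (nat_lit 319530) (nat_lit 16) (.e (nat_lit 286759) (nat_lit 12) (.e (nat_lit 385109) (nat_lit 51) (.e (nat_lit 794677) (nat_lit 24) .nil))))) (.g (nat_lit 0) (.e (nat_lit 133167) (nat_lit 0) .nil) .nil))) 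
(.lf (nat_lit 486249) (.g (nat_lit 3277) (.e (nat_lit 24627) (nat_lit 9) (.e (nat_lit 336454) (nat_lit 34) (.e (nat_lit 483365) (nat_lit 18) (.e (nat_lit 57847) (nat_lit 252) (.e (nat_lit 57375) (nat_lit 2) (.e (nat_lit 90159) (nat_lit 11) .nil)))))) (.g (nat_lit 1) (.e (nat_lit 133789) (nat_lit 0) .nil) .nil))))) (.nd (nat_lit 8) (.nd (nat_lit 9) 
(.lf (nat_lit 485609) (.g (nat_lit 2420) (.e (nat_lit 24609) (nat_lit 3) (.e (nat_lit 98373) (nat_lit 29) (.e (nat_lit 450587) (nat_lit 10) (.e (nat_lit 573475) (nat_lit 12) (.e (nat_lit 57346) (nat_lit 0) (.e (nat_lit 7411) (nat_lit 396) (.e (nat_lit 2556) (nat_lit 159) .nil))))))) (.g (nat_lit 1) (.e (nat_lit 133005) (nat_lit 0) .nil) .nil))) 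
(.lf (nat_lit 486121) (.g (nat_lit 4180) (.e (nat_lit 24627) (nat_lit 9) (.e (nat_lit 336324) (nat_lit 18) (.e (nat_lit 204831) (nat_lit 18) (.e (nat_lit 57846) (nat_lit 252) .nil)))) (.g (nat_lit 0) (.e (nat_lit 133634) (nat_lit 0) .nil) .nil)))) (.nd (nat_lit 9) 
(.lf (nat_lit 485865) (.g (nat_lit 1341) (.e (nat_lit 24617) (nat_lit 7) (.e (nat_lit 319534) (nat_lit 16) (.e (nat_lit 286756) (nat_lit 10) (.e (nat_lit 344159) (nat_lit 37) .nil)))) (.g (nat_lit 0) (.e (nat_lit 133327) (nat_lit 0) .nil) .nil))) 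
(.lf (nat_lit 486377) (.g (nat_lit 2201) (.e (nat_lit 24628) (nat_lit 9) (.e (nat_lit 336443) (nat_lit 32) (.e (nat_lit 466971) (nat_lit 21) (.e (nat_lit 164324) (nat_lit 230) (.e (nat_lit 163877) (nat_lit 4) (.e (nat_lit 213032) (nat_lit 11) .nil)))))) (.g (nat_lit 1) (.e (nat_lit 133948) (nat_lit 0) .nil) .nil)))))))) 
(.nd (nat_lit 5) (.nd (nat_lit 6) (.nd (nat_lit 7) (.nd (nat_lit 8) (.nd (nat_lit 9) 
(.lf (nat_lit 485401) (.g (nat_lit 2913) (.e (nat_lit 24608) (nat_lit 3) (.e (nat_lit 98372) (nat_lit 29) (.e (nat_lit 450586) (nat_lit 10) (.e (nat_lit 573477) (nat_lit 12) (.e (nat_lit 57575) (nat_lit 55) (.e (nat_lit 778464) (nat_lit 11) .nil)))))) (.g (nat_lit 1) (.e (nat_lit 132760) (nat_lit 0) .nil) .nil))) 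
(.lf (nat_lit 485913) (.g (nat_lit 2605) (.e (nat_lit 24617) (nat_lit 7) (.e (nat_lit 319534) (nat_lit 16) (.e (nat_lit 286759) (nat_lit 12) (.e (nat_lit 385115) (nat_lit 53) (.e (nat_lit 811034) (nat_lit 11) (.e (nat_lit 883) (nat_lit 75) (.e (nat_lit 778464) (nat_lit 11) .nil))))))) (.g (nat_lit 1) (.e (nat_lit 133381) (nat_lit 0) .nil) .nil)))) (.nd (nat_lit 9) 
(.lf (nat_lit 485657) (.g (nat_lit 1618) (.e (nat_lit 32512) (nat_lit 3) (.e (nat_lit 98359) (nat_lit 26) (.e (nat_lit 426286) (nat_lit 10) (.e (nat_lit 434247) (nat_lit 28) (.e (nat_lit 573478) (nat_lit 12) .nil))))) (.g (nat_lit 0) (.e (nat_lit 133055) (nat_lit 0) .nil) .nil))) 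
(.lf (nat_lit 486169) (.g (nat_lit 2758) (.e (nat_lit 24627) (nat_lit 9) (.e (nat_lit 336443) (nat_lit 32) (.e (nat_lit 466969) (nat_lit 21) (.e (nat_lit 164331) (nat_lit 230) (.e (nat_lit 163878) (nat_lit 4) (.e (nat_lit 213030) (nat_lit 11) .nil)))))) (.g (nat_lit 1) (.e (nat_lit 133699) (nat_lit 0) .nil) .nil))))) (.nd (nat_lit 8) (.nd (nat_lit 9) 
(.lf (nat_lit 485529) (.g (nat_lit 1679) (.e (nat_lit 24609) (nat_lit 3) (.e (nat_lit 98358) (nat_lit 26) (.e (nat_lit 426227) (nat_lit 9) (.e (nat_lit 426438) (nat_lit 18) (.e (nat_lit 98338) (nat_lit 19) (.e (nat_lit 213030) (nat_lit 11) .nil)))))) (.g (nat_lit 1) (.e (nat_lit 132906) (nat_lit 0) .nil) .nil))) 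
(.lf (nat_lit 486041) (.g (nat_lit 3175) (.e (nat_lit 24625) (nat_lit 9) (.e (nat_lit 336443) (nat_lit 32) (.e (nat_lit 466969) (nat_lit 21) (.e (nat_lit 164325) (nat_lit 230) (.e (nat_lit 163882) (nat_lit 4) (.e (nat_lit 213032) (nat_lit 11) .nil)))))) (.g (nat_lit 1) (.e (nat_lit 133543) (nat_lit 0) .nil) .nil)))) (.nd (nat_lit 9) 
(.lf (nat_lit 485785) (.g (nat_lit 2397) (.e (nat_lit 24617) (nat_lit 7) (.e (nat_lit 319533) (nat_lit 16) (.e (nat_lit 286753) (nat_lit 10) (.e (nat_lit 344169) (nat_lit 40) (.e (nat_lit 671780) (nat_lit 12) (.e (nat_lit 164043) (nat_lit 55) (.e (nat_lit 778468) (nat_lit 11) .nil))))))) (.g (nat_lit 1) (.e (nat_lit 133226) (nat_lit 0) .nil) .nil))) 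
(.lf (nat_lit 486297) (.g (nat_lit 3758) (.e (nat_lit 24628) (nat_lit 9) (.e (nat_lit 336368) (nat_lit 27) (.e (nat_lit 426499) (nat_lit 27) (.e (nat_lit 335986) (nat_lit 1) (.e (nat_lit 57847) (nat_lit 252) (.e (nat_lit 57370) (nat_lit 2) (.e (nat_lit 90158) (nat_lit 11) .nil))))))) (.g (nat_lit 1) (.e (nat_lit 133852) (nat_lit 0) .nil) .nil)))))) 
(.nd (nat_lit 7) (.nd (nat_lit 8) (.nd (nat_lit 9) 
(.lf (nat_lit 485465) (.g (nat_lit 3818) (.e (nat_lit 24608) (nat_lit 3) (.e (nat_lit 98373) (nat_lit 29) (.e (nat_lit 450587) (nat_lit 10) (.e (nat_lit 573475) (nat_lit 12) (.e (nat_lit 57574) (nat_lit 55) (.e (nat_lit 778460) (nat_lit 11) .nil)))))) (.g (nat_lit 1) (.e (nat_lit 132835) (nat_lit 0) .nil) .nil))) 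
(.lf (nat_lit 485977) (.g (nat_lit 2611) (.e (nat_lit 24624) (nat_lit 9) (.e (nat_lit 336443) (nat_lit 32) (.e (nat_lit 466969) (nat_lit 21) (.e (nat_lit 164330) (nat_lit 230) (.e (nat_lit 163878) (nat_lit 4) .nil))))) (.g (nat_lit 0) (.e (nat_lit 133476) (nat_lit 0) .nil) .nil)))) (.nd (nat_lit 9) 
(.lf (nat_lit 485721) (.g (nat_lit 1100) (.e (nat_lit 24617) (nat_lit 7) (.e (nat_lit 319529) (nat_lit 16) (.e (nat_lit 286759) (nat_lit 12) (.e (nat_lit 385114) (nat_lit 53) .nil)))) (.g (nat_lit 0) (.e (nat_lit 133149) (nat_lit 0) .nil) .nil))) 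
(.lf (nat_lit 486233) (.g (nat_lit 3216) (.e (nat_lit 24627) (nat_lit 9) (.e (nat_lit 336454) (nat_lit 34) (.e (nat_lit 483364) (nat_lit 18) (.e (nat_lit 57854) (nat_lit 252) (.e (nat_lit 57371) (nat_lit 2) (.e (nat_lit 90159) (nat_lit 11) .nil)))))) (.g (nat_lit 1) (.e (nat_lit 133773) (nat_lit 0) .nil) .nil))))) (.nd (nat_lit 8) (.nd (nat_lit 9) 
(.lf (nat_lit 485593) (.g (nat_lit 2004) (.e (nat_lit 24609) (nat_lit 3) (.e (nat_lit 98372) (nat_lit 29) (.e (nat_lit 450586) (nat_lit 10) (.e (nat_lit 573478) (nat_lit 12) (.e (nat_lit 57574) (nat_lit 55) (.e (nat_lit 778463) (nat_lit 11) .nil)))))) (.g (nat_lit 1) (.e (nat_lit 132986) (nat_lit 0) .nil) .nil))) 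
(.lf (nat_lit 486105) (.g (nat_lit 1527) (.e (nat_lit 24626) (nat_lit 9) (.e (nat_lit 336443) (nat_lit 32) (.e (nat_lit 466972) (nat_lit 21) (.e (nat_lit 164330) (nat_lit 230) .nil)))) (.g (nat_lit 0) (.e (nat_lit 133610) (nat_lit 0) .nil) .nil)))) (.nd (nat_lit 9) 
(.lf (nat_lit 485849) (.g (nat_lit 1328) (.e (nat_lit 24617) (nat_lit 7) (.e (nat_lit 319534) (nat_lit 16) (.e (nat_lit 286756) (nat_lit 10) (.e (nat_lit 352000) (nat_lit 39) .nil)))) (.g (nat_lit 0) (.e (nat_lit 133309) (nat_lit 0) .nil) .nil))) 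
(.lf (nat_lit 486361) (.g (nat_lit 3317) (.e (nat_lit 24628) (nat_lit 9) (.e (nat_lit 336443) (nat_lit 32) (.e (nat_lit 466969) (nat_lit 21) (.e (nat_lit 164330) (nat_lit 230) (.e (nat_lit 163857) (nat_lit 0) (.e (nat_lit 3711) (nat_lit 227) (.e (nat_lit 778469) (nat_lit 11) .nil))))))) (.g (nat_lit 1) (.e (nat_lit 133932) (nat_lit 0) .nil) .nil))))))) 
(.nd (nat_lit 6) (.nd (nat_lit 7) (.nd (nat_lit 8) (.nd (nat_lit 9) 
(.lf (nat_lit 485433) (.g (nat_lit 1865) (.e (nat_lit 24608) (nat_lit 3) (.e (nat_lit 98373) (nat_lit 29) (.e (nat_lit 450587) (nat_lit 10) (.e (nat_lit 573473) (nat_lit 12) .nil)))) (.g (nat_lit 0) (.e (nat_lit 132803) (nat_lit 0) .nil) .nil))) 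
(.lf (nat_lit 485945) (.g (nat_lit 2862) (.e (nat_lit 24623) (nat_lit 9) (.e (nat_lit 336454) (nat_lit 34) (.e (nat_lit 483365) (nat_lit 18) (.e (nat_lit 57846) (nat_lit 252) (.e (nat_lit 57371) (nat_lit 2) (.e (nat_lit 90160) (nat_lit 11) .nil)))))) (.g (nat_lit 1) (.e (nat_lit 133438) (nat_lit 0) .nil) .nil)))) (.nd (nat_lit 9) 
(.lf (nat_lit 485689) (.g (nat_lit 1217) (.e (nat_lit 24616) (nat_lit 7) (.e (nat_lit 319533) (nat_lit 16) (.e (nat_lit 286753) (nat_lit 10) (.e (nat_lit 344160) (nat_lit 37) .nil)))) (.g (nat_lit 0) (.e (nat_lit 133099) (nat_lit 0) .nil) .nil))) 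
(.lf (nat_lit 486201) (.g (nat_lit 1939) (.e (nat_lit 24627) (nat_lit 9) (.e (nat_lit 336443) (nat_lit 32) (.e (nat_lit 466972) (nat_lit 21) (.e (nat_lit 164332) (nat_lit 230) (.e (nat_lit 163850) (nat_lit 0) .nil))))) (.g (nat_lit 0) (.e (nat_lit 133731) (nat_lit 0) .nil) .nil))))) (.nd (nat_lit 8) (.nd (nat_lit 9) 
(.lf (nat_lit 485561) (.g (nat_lit 1635) (.e (nat_lit 24609) (nat_lit 3) (.e (nat_lit 98365) (nat_lit 26) (.e (nat_lit 426307) (nat_lit 12) (.e (nat_lit 475177) (nat_lit 24) (.e (nat_lit 516124) (nat_lit 2) .nil))))) (.g (nat_lit 0) (.e (nat_lit 132954) (nat_lit 0) .nil) .nil))) 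
(.lf (nat_lit 486073) (.g (nat_lit 2108) (.e (nat_lit 24625) (nat_lit 9) (.e (nat_lit 336450) (nat_lit 33) (.e (nat_lit 475152) (nat_lit 17) (.e (nat_lit 57816) (nat_lit 246) (.e (nat_lit 57596) (nat_lit 82) (.e (nat_lit 499900) (nat_lit 7) .nil)))))) (.g (nat_lit 1) (.e (nat_lit 133575) (nat_lit 0) .nil) .nil)))) (.nd (nat_lit 9) 
(.lf (nat_lit 485817) (.g (nat_lit 2223) (.e (nat_lit 24617) (nat_lit 7) (.e (nat_lit 319533) (nat_lit 16) (.e (nat_lit 286759) (nat_lit 12) (.e (nat_lit 385107) (nat_lit 51) (.e (nat_lit 794678) (nat_lit 24) (.e (nat_lit 213030) (nat_lit 11) .nil)))))) (.g (nat_lit 1) (.e (nat_lit 133264) (nat_lit 0) .nil) .nil))) 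
(.lf (nat_lit 486329) (.g (nat_lit 327) (.e (nat_lit 24628) (nat_lit 9) (.e (nat_lit 336443) (nat_lit 32) (.e (nat_lit 466969) (nat_lit 21) .nil))) (.g (nat_lit 0) (.e (nat_lit 133899) (nat_lit 0) .nil) .nil)))))) (.nd (nat_lit 7) (.nd (nat_lit 8) (.nd (nat_lit 9) 
(.lf (nat_lit 485497) (.g (nat_lit 5375) (.e (nat_lit 24608) (nat_lit 3) (.e (nat_lit 98373) (nat_lit 29) (.e (nat_lit 450588) (nat_lit 10) (.e (nat_lit 573474) (nat_lit 12) (.e (nat_lit 65280) (nat_lit 55) .nil))))) (.g (nat_lit 0) (.e (nat_lit 132867) (nat_lit 0) .nil) .nil))) 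
(.lf (nat_lit 486009) (.g (nat_lit 629) (.e (nat_lit 24624) (nat_lit 9) (.e (nat_lit 336454) (nat_lit 34) (.e (nat_lit 483366) (nat_lit 18) .nil))) (.g (nat_lit 0) (.e (nat_lit 133509) (nat_lit 0) .nil) .nil)))) (.nd (nat_lit 9) 
(.lf (nat_lit 485753) (.g (nat_lit 2305) (.e (nat_lit 24617) (nat_lit 7) (.e (nat_lit 319531) (nat_lit 16) (.e (nat_lit 286759) (nat_lit 12) (.e (nat_lit 385107) (nat_lit 51) (.e (nat_lit 794675) (nat_lit 24) (.e (nat_lit 213030) (nat_lit 11) .nil)))))) (.g (nat_lit 1) (.e (nat_lit 133189) (nat_lit 0) .nil) .nil))) 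
(.lf (nat_lit 486265) (.g (nat_lit 2464) (.e (nat_lit 24628) (nat_lit 9) (.e (nat_lit 336019) (nat_lit 3) (.e (nat_lit 98384) (nat_lit 32) (.e (nat_lit 475201) (nat_lit 40) (.e (nat_lit 704748) (nat_lit 12) (.e (nat_lit 57454) (nat_lit 21) (.e (nat_lit 499902) (nat_lit 7) .nil))))))) (.g (nat_lit 1) (.e (nat_lit 133816) (nat_lit 0) .nil) .nil))))) (.nd (nat_lit 8) (.nd (nat_lit 9) 
(.lf (nat_lit 485625) (.g (nat_lit 3017) (.e (nat_lit 24609) (nat_lit 3) (.e (nat_lit 98373) (nat_lit 29) (.e (nat_lit 450587) (nat_lit 10) (.e (nat_lit 573477) (nat_lit 12) (.e (nat_lit 57575) (nat_lit 55) (.e (nat_lit 778464) (nat_lit 11) .nil)))))) (.g (nat_lit 1) (.e (nat_lit 133021) (nat_lit 0) .nil) .nil))) 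
(.lf (nat_lit 486137) (.g (nat_lit 5023) (.e (nat_lit 24627) (nat_lit 9) (.e (nat_lit 336324) (nat_lit 18) (.e (nat_lit 204831) (nat_lit 18) (.e (nat_lit 57854) (nat_lit 252) (.e (nat_lit 57441) (nat_lit 18) .nil))))) (.g (nat_lit 0) (.e (nat_lit 133650) (nat_lit 0) .nil) .nil)))) (.nd (nat_lit 9) 
(.lf (nat_lit 485881) (.g (nat_lit 2502) (.e (nat_lit 24617) (nat_lit 7) (.e (nat_lit 319534) (nat_lit 16) (.e (nat_lit 286756) (nat_lit 10) (.e (nat_lit 344160) (nat_lit 37) (.e (nat_lit 647196) (nat_lit 9) (.e (nat_lit 1003) (nat_lit 81) (.e (nat_lit 2345) (nat_lit 151) (.e (nat_lit 778464) (nat_lit 11) .nil)))))))) (.g (nat_lit 1) (.e (nat_lit 133343) (nat_lit 0) .nil) .nil))) 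
(.lf (nat_lit 486393) (.g (nat_lit 2839) (.e (nat_lit 24628) (nat_lit 9) (.e (nat_lit 336443) (nat_lit 32) (.e (nat_lit 466971) (nat_lit 21) (.e (nat_lit 164327) (nat_lit 230) (.e (nat_lit 163881) (nat_lit 4) (.e (nat_lit 213030) (nat_lit 11) .nil)))))) (.g (nat_lit 1) (.e (nat_lit 133964) (nat_lit 0) .nil) .nil)))))))))) 
(.nd (nat_lit 3) (.nd (nat_lit 4) (.nd (nat_lit 5) (.nd (nat_lit 6) (.nd (nat_lit 7) 
(.nd (nat_lit 8) (.nd (nat_lit 9) 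
(.lf (nat_lit 485381) (.g (nat_lit 2385) (.e (nat_lit 24608) (nat_lit 3) (.e (nat_lit 98369) (nat_lit 28) (.e (nat_lit 442374) (nat_lit 0) (.e (nat_lit 1800) (nat_lit 119) (.e (nat_lit 516127) (nat_lit 2) (.e (nat_lit 213030) (nat_lit 11) .nil)))))) (.g (nat_lit 1) (.e (nat_lit 132739) (nat_lit 0) .nil) .nil))) 
(.lf (nat_lit 485893) (.g (nat_lit 2760) (.e (nat_lit 24617) (nat_lit 7) (.e (nat_lit 319534) (nat_lit 16) (.e (nat_lit 286756) (nat_lit 10) (.e (nat_lit 344160) (nat_lit 37) (.e (nat_lit 647201) (nat_lit 12) (.e (nat_lit 65280) (nat_lit 55) (.e (nat_lit 778460) (nat_lit 11) .nil))))))) (.g (nat_lit 1) (.e (nat_lit 133355) (nat_lit 0) .nil) .nil)))) (.nd (nat_lit 9) 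
(.lf (nat_lit 485637) (.g (nat_lit 3633) (.e (nat_lit 24609) (nat_lit 3) (.e (nat_lit 98373) (nat_lit 29) (.e (nat_lit 450588) (nat_lit 10) (.e (nat_lit 573457) (nat_lit 9) .nil)))) (.g (nat_lit 0) (.e (nat_lit 133033) (nat_lit 0) .nil) .nil))) 
(.lf (nat_lit 486149) (.g (nat_lit 2179) (.e (nat_lit 24627) (nat_lit 9) (.e (nat_lit 336377) (nat_lit 27) (.e (nat_lit 426524) (nat_lit 27) (.e (nat_lit 335995) (nat_lit 1) (.e (nat_lit 57848) (nat_lit 252) (.e (nat_lit 57375) (nat_lit 2) (.e (nat_lit 90159) (nat_lit 11) .nil))))))) (.g (nat_lit 1) (.e (nat_lit 133674) (nat_lit 0) .nil) .nil))))) (.nd (nat_lit 8) (.nd (nat_lit 9) 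
(.lf (nat_lit 485509) (.g (nat_lit 2095) (.e (nat_lit 24608) (nat_lit 3) (.e (nat_lit 98374) (nat_lit 29) (.e (nat_lit 450586) (nat_lit 10) (.e (nat_lit 573473) (nat_lit 12) (.e (nat_lit 65280) (nat_lit 55) (.e (nat_lit 778462) (nat_lit 11) .nil)))))) (.g (nat_lit 1) (.e (nat_lit 132880) (nat_lit 0) .nil) .nil))) 
(.lf (nat_lit 486021) (.g (nat_lit 3649) (.e (nat_lit 24624) (nat_lit 9) (.e (nat_lit 336456) (nat_lit 34) (.e (nat_lit 483365) (nat_lit 18) (.e (nat_lit 57846) (nat_lit 252) (.e (nat_lit 57372) (nat_lit 2) (.e (nat_lit 90160) (nat_lit 11) .nil)))))) (.g (nat_lit 1) (.e (nat_lit 133521) (nat_lit 0) .nil) .nil)))) (.nd (nat_lit 9) 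
(.lf (nat_lit 485765) (.g (nat_lit 830) (.e (nat_lit 24617) (nat_lit 7) (.e (nat_lit 319532) (nat_lit 16) (.e (nat_lit 286759) (nat_lit 12) (.e (nat_lit 385094) (nat_lit 49) .nil)))) (.g (nat_lit 0) (.e (nat_lit 133202) (nat_lit 0) .nil) .nil))) 
(.lf (nat_lit 486277) (.g (nat_lit 3382) (.e (nat_lit 24628) (nat_lit 9) (.e (nat_lit 336324) (nat_lit 18) (.e (nat_lit 204831) (nat_lit 18) (.e (nat_lit 57854) (nat_lit 252) .nil)))) (.g (nat_lit 0) (.e (nat_lit 133831) (nat_lit 0) .nil) .nil)))))) (.nd (nat_lit 7) (.nd (nat_lit 8) (.nd (nat_lit 9) 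
(.lf (nat_lit 485445) (.g (nat_lit 3906) (.e (nat_lit 24608) (nat_lit 3) (.e (nat_lit 98373) (nat_lit 29) (.e (nat_lit 450587) (nat_lit 10) (.e (nat_lit 573475) (nat_lit 12) (.e (nat_lit 57346) (nat_lit 0) (.e (nat_lit 7408) (nat_lit 396) (.e (nat_lit 2556) (nat_lit 159) .nil))))))) (.g (nat_lit 1) (.e (nat_lit 132815) (nat_lit 0) .nil) .nil))) 
(.lf (nat_lit 485957) (.g (nat_lit 4058) (.e (nat_lit 24623) (nat_lit 9) (.e (nat_lit 336456) (nat_lit 34) (.e (nat_lit 483363) (nat_lit 18) (.e (nat_lit 57854) (nat_lit 252) (.e (nat_lit 57373) (nat_lit 2) (.e (nat_lit 90160) (nat_lit 11) .nil)))))) (.g (nat_lit 1) (.e (nat_lit 133451) (nat_lit 0) .nil) .nil)))) (.nd (nat_lit 9) 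
(.lf (nat_lit 485701) (.g (nat_lit 2502) (.e (nat_lit 24617) (nat_lit 7) (.e (nat_lit 319528) (nat_lit 16) (.e (nat_lit 286759) (nat_lit 12) (.e (nat_lit 385094) (nat_lit 49) (.e (nat_lit 778445) (nat_lit 9) .nil))))) (.g (nat_lit 0) (.e (nat_lit 133124) (nat_lit 0) .nil) .nil))) 
(.lf (nat_lit 486213) (.g (nat_lit 3818) (.e (nat_lit 24627) (nat_lit 9) (.e (nat_lit 336454) (nat_lit 34) (.e (nat_lit 483363) (nat_lit 18) (.e (nat_lit 57847) (nat_lit 252) (.e (nat_lit 57372) (nat_lit 2) (.e (nat_lit 90159) (nat_lit 11) .nil)))))) (.g (nat_lit 1) (.e (nat_lit 133753) (nat_lit 0) .nil) .nil))))) (.nd (nat_lit 8) (.nd (nat_lit 9) 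
(.lf (nat_lit 485573) (.g (nat_lit 2131) (.e (nat_lit 24609) (nat_lit 3) (.e (nat_lit 98372) (nat_lit 29) (.e (nat_lit 450579) (nat_lit 5) (.e (nat_lit 532501) (nat_lit 1) (.e (nat_lit 65280) (nat_lit 233) .nil))))) (.g (nat_lit 0) (.e (nat_lit 132966) (nat_lit 0) .nil) .nil))) 
(.lf (nat_lit 486085) (.g (nat_lit 4154) (.e (nat_lit 24626) (nat_lit 9) (.e (nat_lit 336324) (nat_lit 18) (.e (nat_lit 204831) (nat_lit 18) (.e (nat_lit 57847) (nat_lit 252) .nil)))) (.g (nat_lit 0) (.e (nat_lit 133590) (nat_lit 0) .nil) .nil)))) (.nd (nat_lit 9) 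
(.lf (nat_lit 485829) (.g (nat_lit 1729) (.e (nat_lit 24617) (nat_lit 7) (.e (nat_lit 319534) (nat_lit 16) (.e (nat_lit 286749) (nat_lit 9) (.e (nat_lit 335907) (nat_lit 0) .nil)))) (.g (nat_lit 0) (.e (nat_lit 133285) (nat_lit 0) .nil) .nil))) 
(.lf (nat_lit 486341) (.g (nat_lit 3040) (.e (nat_lit 24628) (nat_lit 9) (.e (nat_lit 336443) (nat_lit 32) (.e (nat_lit 466969) (nat_lit 21) (.e (nat_lit 164325) (nat_lit 230) (.e (nat_lit 163882) (nat_lit 4) (.e (nat_lit 213030) (nat_lit 11) .nil)))))) (.g (nat_lit 1) (.e (nat_lit 133912) (nat_lit 0) .nil) .nil))))))) (.nd (nat_lit 6) (.nd (nat_lit 7) (.nd (nat_lit 8) (.nd (nat_lit 9) 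
(.lf (nat_lit 485413) (.g (nat_lit 3814) (.e (nat_lit 24608) (nat_lit 3) (.e (nat_lit 98372) (nat_lit 29) (.e (nat_lit 450588) (nat_lit 10) (.e (nat_lit 573473) (nat_lit 12) (.e (nat_lit 65280) (nat_lit 55) (.e (nat_lit 778462) (nat_lit 11) .nil)))))) (.g (nat_lit 1) (.e (nat_lit 132772) (nat_lit 0) .nil) .nil))) 
(.lf (nat_lit 485925) (.g (nat_lit 2090) (.e (nat_lit 24623) (nat_lit 9) (.e (nat_lit 336028) (nat_lit 3) (.e (nat_lit 106240) (nat_lit 16) (.e (nat_lit 401454) (nat_lit 12) (.e (nat_lit 483072) (nat_lit 2) .nil))))) (.g (nat_lit 1) (.e (nat_lit 133418) (nat_lit 0) .nil) .nil)))) (.nd (nat_lit 9) 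
(.lf (nat_lit 485669) (.g (nat_lit 3214) (.e (nat_lit 32512) (nat_lit 3) (.e (nat_lit 98373) (nat_lit 29) (.e (nat_lit 450588) (nat_lit 10) (.e (nat_lit 573475) (nat_lit 12) (.e (nat_lit 57574) (nat_lit 55) .nil))))) (.g (nat_lit 0) (.e (nat_lit 133067) (nat_lit 0) .nil) .nil))) 
(.lf (nat_lit 486181) (.g (nat_lit 3144) (.e (nat_lit 24627) (nat_lit 9) (.e (nat_lit 336443) (nat_lit 32) (.e (nat_lit 466971) (nat_lit 21) (.e (nat_lit 164322) (nat_lit 230) (.e (nat_lit 163878) (nat_lit 4) (.e (nat_lit 213030) (nat_lit 11) .nil)))))) (.g (nat_lit 1) (.e (nat_lit 133711) (nat_lit 0) .nil) .nil))))) (.nd (nat_lit 8) (.nd (nat_lit 9) 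
(.lf (nat_lit 485541) (.g (nat_lit 2838) (.e (nat_lit 24609) (nat_lit 3) (.e (nat_lit 98358) (nat_lit 26) (.e (nat_lit 426320) (nat_lit 12) (.e (nat_lit 475179) (nat_lit 24) (.e (nat_lit 516127) (nat_lit 2) (.e (nat_lit 213032) (nat_lit 11) .nil)))))) (.g (nat_lit 1) (.e (nat_lit 132920) (nat_lit 0) .nil) .nil))) 
(.lf (nat_lit 486053) (.g (nat_lit 1829) (.e (nat_lit 24625) (nat_lit 9) (.e (nat_lit 336443) (nat_lit 32) (.e (nat_lit 466971) (nat_lit 21) (.e (nat_lit 164325) (nat_lit 230) (.e (nat_lit 163880) (nat_lit 4) .nil))))) (.g (nat_lit 0) (.e (nat_lit 133555) (nat_lit 0) .nil) .nil)))) (.nd (nat_lit 9) 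
(.lf (nat_lit 485797) (.g (nat_lit 2555) (.e (nat_lit 24617) (nat_lit 7) (.e (nat_lit 319533) (nat_lit 16) (.e (nat_lit 286753) (nat_lit 10) (.e (nat_lit 344160) (nat_lit 37) (.e (nat_lit 647200) (nat_lit 12) (.e (nat_lit 57353) (nat_lit 0) (.e (nat_lit 7464) (nat_lit 396) (.e (nat_lit 2555) (nat_lit 159) .nil)))))))) (.g (nat_lit 1) (.e (nat_lit 133238) (nat_lit 0) .nil) .nil))) 
(.lf (nat_lit 486309) (.g (nat_lit 4022) (.e (nat_lit 24628) (nat_lit 9) (.e (nat_lit 336370) (nat_lit 27) (.e (nat_lit 426499) (nat_lit 27) (.e (nat_lit 335986) (nat_lit 1) (.e (nat_lit 57847) (nat_lit 252) (.e (nat_lit 57370) (nat_lit 2) (.e (nat_lit 90158) (nat_lit 11) .nil))))))) (.g (nat_lit 1) (.e (nat_lit 133865) (nat_lit 0) .nil) .nil)))))) 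
(.nd (nat_lit 7) (.nd (nat_lit 8) (.nd (nat_lit 9) 
(.lf (nat_lit 485477) (.g (nat_lit 3613) (.e (nat_lit 24608) (nat_lit 3) (.e (nat_lit 98373) (nat_lit 29) (.e (nat_lit 450587) (nat_lit 10) (.e (nat_lit 573477) (nat_lit 12) (.e (nat_lit 57575) (nat_lit 55) (.e (nat_lit 778464) (nat_lit 11) .nil)))))) (.g (nat_lit 1) (.e (nat_lit 132847) (nat_lit 0) .nil) .nil))) 
(.lf (nat_lit 485989) (.g (nat_lit 3038) (.e (nat_lit 24624) (nat_lit 9) (.e (nat_lit 336452) (nat_lit 34) (.e (nat_lit 483363) (nat_lit 18) (.e (nat_lit 57847) (nat_lit 252) (.e (nat_lit 57372) (nat_lit 2) (.e (nat_lit 90160) (nat_lit 11) .nil)))))) (.g (nat_lit 1) (.e (nat_lit 133488) (nat_lit 0) .nil) .nil)))) (.nd (nat_lit 9) 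
(.lf (nat_lit 485733) (.g (nat_lit 1982) (.e (nat_lit 24617) (nat_lit 7) (.e (nat_lit 319530) (nat_lit 16) (.e (nat_lit 286759) (nat_lit 12) (.e (nat_lit 385107) (nat_lit 51) (.e (nat_lit 794676) (nat_lit 24) (.e (nat_lit 213030) (nat_lit 11) .nil)))))) (.g (nat_lit 1) (.e (nat_lit 133163) (nat_lit 0) .nil) .nil))) 
(.lf (nat_lit 486245) (.g (nat_lit 3221) (.e (nat_lit 24627) (nat_lit 9) (.e (nat_lit 336454) (nat_lit 34) (.e (nat_lit 483365) (nat_lit 18) (.e (nat_lit 57847) (nat_lit 252) (.e (nat_lit 57373) (nat_lit 2) (.e (nat_lit 90160) (nat_lit 11) .nil)))))) (.g (nat_lit 1) (.e (nat_lit 133785) (nat_lit 0) .nil) .nil))))) (.nd (nat_lit 8) (.nd (nat_lit 9) 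
(.lf (nat_lit 485605) (.g (nat_lit 2523) (.e (nat_lit 24609) (nat_lit 3) (.e (nat_lit 98373) (nat_lit 29) (.e (nat_lit 450587) (nat_lit 10) (.e (nat_lit 573475) (nat_lit 12) (.e (nat_lit 57345) (nat_lit 0) .nil))))) (.g (nat_lit 0) (.e (nat_lit 133001) (nat_lit 0) .nil) .nil))) 
(.lf (nat_lit 486117) (.g (nat_lit 1098) (.e (nat_lit 24627) (nat_lit 9) (.e (nat_lit 336019) (nat_lit 3) (.e (nat_lit 98388) (nat_lit 33) (.e (nat_lit 491560) (nat_lit 10) .nil)))) (.g (nat_lit 0) (.e (nat_lit 133626) (nat_lit 0) .nil) .nil)))) (.nd (nat_lit 9) 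
(.lf (nat_lit 485861) (.g (nat_lit 1838) (.e (nat_lit 24617) (nat_lit 7) (.e (nat_lit 319534) (nat_lit 16) (.e (nat_lit 286756) (nat_lit 10) (.e (nat_lit 344169) (nat_lit 40) (.e (nat_lit 671782) (nat_lit 12) .nil))))) (.g (nat_lit 0) (.e (nat_lit 133323) (nat_lit 0) .nil) .nil))) 
(.lf (nat_lit 486373) (.g (nat_lit 3847) (.e (nat_lit 24628) (nat_lit 9) (.e (nat_lit 336443) (nat_lit 32) (.e (nat_lit 466969) (nat_lit 21) (.e (nat_lit 164332) (nat_lit 230) (.e (nat_lit 163878) (nat_lit 4) (.e (nat_lit 213032) (nat_lit 11) .nil)))))) (.g (nat_lit 1) (.e (nat_lit 133944) (nat_lit 0) .nil) .nil)))))))) 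
(.nd (nat_lit 5) (.nd (nat_lit 6) (.nd (nat_lit 7) (.nd (nat_lit 8) (.nd (nat_lit 9) 
(.lf (nat_lit 485397) (.g (nat_lit 3034) (.e (nat_lit 24608) (nat_lit 3) (.e (nat_lit 98372) (nat_lit 29) (.e (nat_lit 450586) (nat_lit 10) (.e (nat_lit 573477) (nat_lit 12) (.e (nat_lit 57574) (nat_lit 55) (.e (nat_lit 778463) (nat_lit 11) .nil)))))) (.g (nat_lit 1) (.e (nat_lit 132756) (nat_lit 0) .nil) .nil))) 
(.lf (nat_lit 485909) (.g (nat_lit 2575) (.e (nat_lit 24617) (nat_lit 7) (.e (nat_lit 319534) (nat_lit 16) (.e (nat_lit 286759) (nat_lit 12) (.e (nat_lit 385115) (nat_lit 53) (.e (nat_lit 811031) (nat_lit 11) (.e (nat_lit 883) (nat_lit 75) (.e (nat_lit 778464) (nat_lit 11) .nil))))))) (.g (nat_lit 1) (.e (nat_lit 133377) (nat_lit 0) .nil) .nil)))) (.nd (nat_lit 9) 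
(.lf (nat_lit 485653) (.g (nat_lit 2174) (.e (nat_lit 24609) (nat_lit 3) (.e (nat_lit 98381) (nat_lit 31) (.e (nat_lit 466947) (nat_lit 0) (.e (nat_lit 1800) (nat_lit 119) (.e (nat_lit 516126) (nat_lit 2) (.e (nat_lit 213032) (nat_lit 11) .nil)))))) (.g (nat_lit 1) (.e (nat_lit 133051) (nat_lit 0) .nil) .nil))) 
(.lf (nat_lit 486165) (.g (nat_lit 1130) (.e (nat_lit 24627) (nat_lit 9) (.e (nat_lit 336443) (nat_lit 32) (.e (nat_lit 466969) (nat_lit 21) (.e (nat_lit 164330) (nat_lit 230) .nil)))) (.g (nat_lit 0) (.e (nat_lit 133695) (nat_lit 0) .nil) .nil))))) (.nd (nat_lit 8) (.nd (nat_lit 9) 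
(.lf (nat_lit 485525) (.g (nat_lit 1225) (.e (nat_lit 24609) (nat_lit 3) (.e (nat_lit 98333) (nat_lit 18) (.e (nat_lit 164183) (nat_lit 154) .nil))) (.g (nat_lit 0) (.e (nat_lit 132899) (nat_lit 0) .nil) .nil))) 
(.lf (nat_lit 486037) (.g (nat_lit 2192) (.e (nat_lit 24625) (nat_lit 9) (.e (nat_lit 336443) (nat_lit 32) (.e (nat_lit 466969) (nat_lit 21) (.e (nat_lit 164322) (nat_lit 230) (.e (nat_lit 163878) (nat_lit 4) (.e (nat_lit 213032) (nat_lit 11) .nil)))))) (.g (nat_lit 1) (.e (nat_lit 133539) (nat_lit 0) .nil) .nil)))) (.nd (nat_lit 9) 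
(.lf (nat_lit 485781) (.g (nat_lit 2935) (.e (nat_lit 24617) (nat_lit 7) (.e (nat_lit 319533) (nat_lit 16) (.e (nat_lit 286753) (nat_lit 10) (.e (nat_lit 344169) (nat_lit 40) (.e (nat_lit 671770) (nat_lit 9) (.e (nat_lit 2747) (nat_lit 175) (.e (nat_lit 262165) (nat_lit 11) .nil))))))) (.g (nat_lit 1) (.e (nat_lit 133222) (nat_lit 0) .nil) .nil))) 
(.lf (nat_lit 486293) (.g (nat_lit 3912) (.e (nat_lit 24628) (nat_lit 9) (.e (nat_lit 336366) (nat_lit 27) (.e (nat_lit 426499) (nat_lit 27) (.e (nat_lit 335986) (nat_lit 1) (.e (nat_lit 57847) (nat_lit 252) (.e (nat_lit 57375) (nat_lit 2) (.e (nat_lit 90160) (nat_lit 11) .nil))))))) (.g (nat_lit 1) (.e (nat_lit 133848) (nat_lit 0) .nil) .nil)))))) 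
(.nd (nat_lit 7) (.nd (nat_lit 8) (.nd (nat_lit 9) 
(.lf (nat_lit 485461) (.g (nat_lit 3228) (.e (nat_lit 24608) (nat_lit 3) (.e (nat_lit 98373) (nat_lit 29) (.e (nat_lit 450587) (nat_lit 10) (.e (nat_lit 573475) (nat_lit 12) (.e (nat_lit 57349) (nat_lit 0) (.e (nat_lit 7429) (nat_lit 396) (.e (nat_lit 2551) (nat_lit 159) .nil))))))) (.g (nat_lit 1) (.e (nat_lit 132831) (nat_lit 0) .nil) .nil))) 
(.lf (nat_lit 485973) (.g (nat_lit 372) (.e (nat_lit 24624) (nat_lit 9) (.e (nat_lit 336438) (nat_lit 31) (.e (nat_lit 466688) (nat_lit 4) .nil))) (.g (nat_lit 0) (.e (nat_lit 133472) (nat_lit 0) .nil) .nil)))) (.nd (nat_lit 9) 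
(.lf (nat_lit 485717) (.g (nat_lit 986) (.e (nat_lit 24617) (nat_lit 7) (.e (nat_lit 319529) (nat_lit 16) (.e (nat_lit 286759) (nat_lit 12) (.e (nat_lit 385094) (nat_lit 49) .nil)))) (.g (nat_lit 0) (.e (nat_lit 133144) (nat_lit 0) .nil) .nil))) 
(.lf (nat_lit 486229) (.g (nat_lit 3401) (.e (nat_lit 24627) (nat_lit 9) (.e (nat_lit 336454) (nat_lit 34) (.e (nat_lit 483363) (nat_lit 18) (.e (nat_lit 57854) (nat_lit 252) (.e (nat_lit 57373) (nat_lit 2) (.e (nat_lit 90160) (nat_lit 11) .nil)))))) (.g (nat_lit 1) (.e (nat_lit 133769) (nat_lit 0) .nil) .nil))))) (.nd (nat_lit 8) (.nd (nat_lit 9) 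
(.lf (nat_lit 485589) (.g (nat_lit 2958) (.e (nat_lit 24609) (nat_lit 3) (.e (nat_lit 98372) (nat_lit 29) (.e (nat_lit 450586) (nat_lit 10) (.e (nat_lit 573477) (nat_lit 12) (.e (nat_lit 57575) (nat_lit 55) (.e (nat_lit 778460) (nat_lit 11) .nil)))))) (.g (nat_lit 1) (.e (nat_lit 132982) (nat_lit 0) .nil) .nil))) 
(.lf (nat_lit 486101) (.g (nat_lit 2533) (.e (nat_lit 24626) (nat_lit 9) (.e (nat_lit 336443) (nat_lit 32) (.e (nat_lit 466971) (nat_lit 21) (.e (nat_lit 164327) (nat_lit 230) (.e (nat_lit 163882) (nat_lit 4) (.e (nat_lit 213031) (nat_lit 11) .nil)))))) (.g (nat_lit 1) (.e (nat_lit 133606) (nat_lit 0) .nil) .nil)))) (.nd (nat_lit 9) 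
(.lf (nat_lit 485845) (.g (nat_lit 1865) (.e (nat_lit 24617) (nat_lit 7) (.e (nat_lit 319534) (nat_lit 16) (.e (nat_lit 286756) (nat_lit 10) (.e (nat_lit 344090) (nat_lit 18) (.e (nat_lit 5429) (nat_lit 306) .nil))))) (.g (nat_lit 0) (.e (nat_lit 133303) (nat_lit 0) .nil) .nil))) 
(.lf (nat_lit 486357) (.g (nat_lit 2807) (.e (nat_lit 24628) (nat_lit 9) (.e (nat_lit 336443) (nat_lit 32) (.e (nat_lit 466969) (nat_lit 21) (.e (nat_lit 164330) (nat_lit 230) (.e (nat_lit 163843) (nat_lit 0) (.e (nat_lit 3617) (nat_lit 227) (.e (nat_lit 778462) (nat_lit 11) .nil))))))) (.g (nat_lit 1) (.e (nat_lit 133928) (nat_lit 0) .nil) .nil))))))) 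
(.nd (nat_lit 6) (.nd (nat_lit 7) (.nd (nat_lit 8) (.nd (nat_lit 9) 
(.lf (nat_lit 485429) (.g (nat_lit 3668) (.e (nat_lit 24608) (nat_lit 3) (.e (nat_lit 98373) (nat_lit 29) (.e (nat_lit 450587) (nat_lit 10) (.e (nat_lit 573448) (nat_lit 9) .nil)))) (.g (nat_lit 0) (.e (nat_lit 132799) (nat_lit 0) .nil) .nil))) 
(.lf (nat_lit 485941) (.g (nat_lit 2975) (.e (nat_lit 24623) (nat_lit 9) (.e (nat_lit 336454) (nat_lit 34) (.e (nat_lit 483363) (nat_lit 18) (.e (nat_lit 57854) (nat_lit 252) (.e (nat_lit 57371) (nat_lit 2) (.e (nat_lit 90160) (nat_lit 11) .nil)))))) (.g (nat_lit 1) (.e (nat_lit 133434) (nat_lit 0) .nil) .nil)))) (.nd (nat_lit 9) 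
(.lf (nat_lit 485685) (.g (nat_lit 881) (.e (nat_lit 24616) (nat_lit 7) (.e (nat_lit 319531) (nat_lit 16) (.e (nat_lit 286756) (nat_lit 10) .nil))) (.g (nat_lit 0) (.e (nat_lit 133095) (nat_lit 0) .nil) .nil))) 
(.lf (nat_lit 486197) (.g (nat_lit 3225) (.e (nat_lit 24627) (nat_lit 9) (.e (nat_lit 336443) (nat_lit 32) (.e (nat_lit 466972) (nat_lit 21) (.e (nat_lit 164330) (nat_lit 230) (.e (nat_lit 163880) (nat_lit 4) (.e (nat_lit 213032) (nat_lit 11) .nil)))))) (.g (nat_lit 1) (.e (nat_lit 133727) (nat_lit 0) .nil) .nil))))) (.nd (nat_lit 8) (.nd (nat_lit 9) 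
(.lf (nat_lit 485557) (.g (nat_lit 2558) (.e (nat_lit 24609) (nat_lit 3) (.e (nat_lit 98365) (nat_lit 26) (.e (nat_lit 426306) (nat_lit 12) (.e (nat_lit 475179) (nat_lit 24) (.e (nat_lit 516126) (nat_lit 2) (.e (nat_lit 213030) (nat_lit 11) .nil)))))) (.g (nat_lit 1) (.e (nat_lit 132950) (nat_lit 0) .nil) .nil))) 
(.lf (nat_lit 486069) (.g (nat_lit 1751) (.e (nat_lit 24625) (nat_lit 9) (.e (nat_lit 336446) (nat_lit 33) (.e (nat_lit 483072) (nat_lit 4) (.e (nat_lit 172064) (nat_lit 2) (.e (nat_lit 204544) (nat_lit 2) .nil))))) (.g (nat_lit 1) (.e (nat_lit 133571) (nat_lit 0) .nil) .nil)))) (.nd (nat_lit 9) 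
(.lf (nat_lit 485813) (.g (nat_lit 2938) (.e (nat_lit 24617) (nat_lit 7) (.e (nat_lit 319533) (nat_lit 16) (.e (nat_lit 286759) (nat_lit 12) (.e (nat_lit 385094) (nat_lit 49) (.e (nat_lit 778548) (nat_lit 14) .nil))))) (.g (nat_lit 0) (.e (nat_lit 133258) (nat_lit 0) .nil) .nil))) 
(.lf (nat_lit 486325) (.g (nat_lit 234) (.e (nat_lit 24628) (nat_lit 9) (.e (nat_lit 336438) (nat_lit 31) (.e (nat_lit 466688) (nat_lit 5) .nil))) (.g (nat_lit 0) (.e (nat_lit 133895) (nat_lit 0) .nil) .nil)))))) (.nd (nat_lit 7) (.nd (nat_lit 8) (.nd (nat_lit 9) 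
(.lf (nat_lit 485493) (.g (nat_lit 2389) (.e (nat_lit 24608) (nat_lit 3) (.e (nat_lit 98373) (nat_lit 29) (.e (nat_lit 450588) (nat_lit 10) (.e (nat_lit 573473) (nat_lit 12) (.e (nat_lit 65280) (nat_lit 55) .nil))))) (.g (nat_lit 0) (.e (nat_lit 132863) (nat_lit 0) .nil) .nil))) 
(.lf (nat_lit 486005) (.g (nat_lit 1713) (.e (nat_lit 24624) (nat_lit 9) (.e (nat_lit 336454) (nat_lit 34) (.e (nat_lit 483365) (nat_lit 18) (.e (nat_lit 57851) (nat_lit 252) .nil)))) (.g (nat_lit 0) (.e (nat_lit 133505) (nat_lit 0) .nil) .nil)))) (.nd (nat_lit 9) 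
(.lf (nat_lit 485749) (.g (nat_lit 3094) (.e (nat_lit 24617) (nat_lit 7) (.e (nat_lit 319531) (nat_lit 16) (.e (nat_lit 286759) (nat_lit 12) (.e (nat_lit 385094) (nat_lit 49) (.e (nat_lit 778351) (nat_lit 9) .nil))))) (.g (nat_lit 0) (.e (nat_lit 133180) (nat_lit 0) .nil) .nil))) 
(.lf (nat_lit 486261) (.g (nat_lit 1084) (.e (nat_lit 24628) (nat_lit 9) (.e (nat_lit 336016) (nat_lit 2) (.e (nat_lit 98048) (nat_lit 2) (.e (nat_lit 16458) (nat_lit 12) (.e (nat_lit 483072) (nat_lit 2) .nil))))) (.g (nat_lit 1) (.e (nat_lit 133809) (nat_lit 0) .nil) .nil))))) (.nd (nat_lit 8) (.nd (nat_lit 9) 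
(.lf (nat_lit 485621) (.g (nat_lit 4104) (.e (nat_lit 24609) (nat_lit 3) (.e (nat_lit 98373) (nat_lit 29) (.e (nat_lit 450587) (nat_lit 10) (.e (nat_lit 573477) (nat_lit 12) (.e (nat_lit 57574) (nat_lit 55) (.e (nat_lit 778464) (nat_lit 11) .nil)))))) (.g (nat_lit 1) (.e (nat_lit 133017) (nat_lit 0) .nil) .nil))) 
(.lf (nat_lit 486133) (.g (nat_lit 4160) (.e (nat_lit 24627) (nat_lit 9) (.e (nat_lit 336324) (nat_lit 18) (.e (nat_lit 204831) (nat_lit 18) (.e (nat_lit 57853) (nat_lit 252) .nil)))) (.g (nat_lit 0) (.e (nat_lit 133646) (nat_lit 0) .nil) .nil)))) (.nd (nat_lit 9) 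
(.lf (nat_lit 485877) (.g (nat_lit 3087) (.e (nat_lit 24617) (nat_lit 7) (.e (nat_lit 319534) (nat_lit 16) (.e (nat_lit 286756) (nat_lit 10) (.e (nat_lit 344160) (nat_lit 37) (.e (nat_lit 647190) (nat_lit 9) (.e (nat_lit 1038) (nat_lit 81) (.e (nat_lit 2346) (nat_lit 151) (.e (nat_lit 778466) (nat_lit 11) .nil)))))))) (.g (nat_lit 1) (.e (nat_lit 133339) (nat_lit 0) .nil) .nil))) 
(.lf (nat_lit 486389) (.g (nat_lit 1926) (.e (nat_lit 24628) (nat_lit 9) (.e (nat_lit 336443) (nat_lit 32) (.e (nat_lit 466971) (nat_lit 21) (.e (nat_lit 164327) (nat_lit 230) (.e (nat_lit 163844) (nat_lit 0) (.e (nat_lit 3617) (nat_lit 227) (.e (nat_lit 778462) (nat_lit 11) .nil))))))) (.g (nat_lit 1) (.e (nat_lit 133960) (nat_lit 0) .nil) .nil))))))))) 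
(.nd (nat_lit 4) (.nd (nat_lit 5) (.nd (nat_lit 6) (.nd (nat_lit 7) (.nd (nat_lit 8) 
(.nd (nat_lit 9) 
(.lf (nat_lit 485389) (.g (nat_lit 3484) (.e (nat_lit 24608) (nat_lit 3) (.e (nat_lit 98372) (nat_lit 29) (.e (nat_lit 450579) (nat_lit 5) (.e (nat_lit 532503) (nat_lit 1) (.e (nat_lit 65280) (nat_lit 233) (.e (nat_lit 2557) (nat_lit 159) .nil)))))) (.g (nat_lit 1) (.e (nat_lit 132748) (nat_lit 0) .nil) .nil))) 
(.lf (nat_lit 485901) (.g (nat_lit 811) (.e (nat_lit 24617) (nat_lit 7) (.e (nat_lit 319534) (nat_lit 16) (.e (nat_lit 286759) (nat_lit 12) (.e (nat_lit 385094) (nat_lit 49) .nil)))) (.g (nat_lit 0) (.e (nat_lit 133364) (nat_lit 0) .nil) .nil)))) (.nd (nat_lit 9) 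
(.lf (nat_lit 485645) (.g (nat_lit 3933) (.e (nat_lit 24609) (nat_lit 3) (.e (nat_lit 98373) (nat_lit 29) (.e (nat_lit 450588) (nat_lit 10) (.e (nat_lit 573475) (nat_lit 12) (.e (nat_lit 57574) (nat_lit 55) (.e (nat_lit 786176) (nat_lit 11) .nil)))))) (.g (nat_lit 1) (.e (nat_lit 133041) (nat_lit 0) .nil) .nil))) 
(.lf (nat_lit 486157) (.g (nat_lit 3136) (.e (nat_lit 24627) (nat_lit 9) (.e (nat_lit 336443) (nat_lit 32) (.e (nat_lit 466969) (nat_lit 21) (.e (nat_lit 164325) (nat_lit 230) (.e (nat_lit 163882) (nat_lit 4) (.e (nat_lit 213032) (nat_lit 11) .nil)))))) (.g (nat_lit 1) (.e (nat_lit 133687) (nat_lit 0) .nil) .nil))))) (.nd (nat_lit 8) (.nd (nat_lit 9) 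
(.lf (nat_lit 485517) (.g (nat_lit 4205) (.e (nat_lit 24608) (nat_lit 3) (.e (nat_lit 98387) (nat_lit 33) (.e (nat_lit 491566) (nat_lit 12) (.e (nat_lit 385066) (nat_lit 26) (.e (nat_lit 532508) (nat_lit 2) (.e (nat_lit 114432) (nat_lit 2) .nil)))))) (.g (nat_lit 1) (.e (nat_lit 132891) (nat_lit 0) .nil) .nil))) 
(.lf (nat_lit 486029) (.g (nat_lit 3905) (.e (nat_lit 24625) (nat_lit 9) (.e (nat_lit 336324) (nat_lit 18) (.e (nat_lit 204831) (nat_lit 18) (.e (nat_lit 57852) (nat_lit 252) .nil)))) (.g (nat_lit 0) (.e (nat_lit 133529) (nat_lit 0) .nil) .nil)))) (.nd (nat_lit 9) 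
(.lf (nat_lit 485773) (.g (nat_lit 1858) (.e (nat_lit 24617) (nat_lit 7) (.e (nat_lit 319533) (nat_lit 16) (.e (nat_lit 286752) (nat_lit 10) (.e (nat_lit 344169) (nat_lit 40) (.e (nat_lit 671770) (nat_lit 9) (.e (nat_lit 2747) (nat_lit 175) (.e (nat_lit 262165) (nat_lit 11) .nil))))))) (.g (nat_lit 1) (.e (nat_lit 133212) (nat_lit 0) .nil) .nil))) 
(.lf (nat_lit 486285) (.g (nat_lit 2581) (.e (nat_lit 24628) (nat_lit 9) (.e (nat_lit 336366) (nat_lit 27) (.e (nat_lit 426501) (nat_lit 27) (.e (nat_lit 335986) (nat_lit 1) (.e (nat_lit 57849) (nat_lit 252) (.e (nat_lit 57375) (nat_lit 2) (.e (nat_lit 90158) (nat_lit 11) .nil))))))) (.g (nat_lit 1) (.e (nat_lit 133840) (nat_lit 0) .nil) .nil)))))) 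
(.nd (nat_lit 7) (.nd (nat_lit 8) (.nd (nat_lit 9) 
(.lf (nat_lit 485453) (.g (nat_lit 3165) (.e (nat_lit 24608) (nat_lit 3) (.e (nat_lit 98373) (nat_lit 29) (.e (nat_lit 450587) (nat_lit 10) (.e (nat_lit 573475) (nat_lit 12) (.e (nat_lit 57346) (nat_lit 0) (.e (nat_lit 7411) (nat_lit 396) (.e (nat_lit 2551) (nat_lit 159) .nil))))))) (.g (nat_lit 1) (.e (nat_lit 132823) (nat_lit 0) .nil) .nil))) 
(.lf (nat_lit 485965) (.g (nat_lit 2545) (.e (nat_lit 24623) (nat_lit 9) (.e (nat_lit 336456) (nat_lit 34) (.e (nat_lit 483365) (nat_lit 18) (.e (nat_lit 57852) (nat_lit 252) (.e (nat_lit 57373) (nat_lit 2) (.e (nat_lit 90160) (nat_lit 11) .nil)))))) (.g (nat_lit 1) (.e (nat_lit 133459) (nat_lit 0) .nil) .nil)))) (.nd (nat_lit 9) 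
(.lf (nat_lit 485709) (.g (nat_lit 1463) (.e (nat_lit 24617) (nat_lit 7) (.e (nat_lit 319528) (nat_lit 16) (.e (nat_lit 286759) (nat_lit 12) (.e (nat_lit 385111) (nat_lit 53) (.e (nat_lit 811035) (nat_lit 11) .nil))))) (.g (nat_lit 0) (.e (nat_lit 133135) (nat_lit 0) .nil) .nil))) 
(.lf (nat_lit 486221) (.g (nat_lit 3297) (.e (nat_lit 24627) (nat_lit 9) (.e (nat_lit 336454) (nat_lit 34) (.e (nat_lit 483363) (nat_lit 18) (.e (nat_lit 57848) (nat_lit 252) (.e (nat_lit 57375) (nat_lit 2) (.e (nat_lit 90159) (nat_lit 11) .nil)))))) (.g (nat_lit 1) (.e (nat_lit 133761) (nat_lit 0) .nil) .nil))))) (.nd (nat_lit 8) (.nd (nat_lit 9) 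
(.lf (nat_lit 485581) (.g (nat_lit 2174) (.e (nat_lit 24609) (nat_lit 3) (.e (nat_lit 98372) (nat_lit 29) (.e (nat_lit 450586) (nat_lit 10) (.e (nat_lit 573475) (nat_lit 12) (.e (nat_lit 57574) (nat_lit 55) (.e (nat_lit 778460) (nat_lit 11) .nil)))))) (.g (nat_lit 1) (.e (nat_lit 132974) (nat_lit 0) .nil) .nil))) 
(.lf (nat_lit 486093) (.g (nat_lit 2631) (.e (nat_lit 24626) (nat_lit 9) (.e (nat_lit 336443) (nat_lit 32) (.e (nat_lit 466969) (nat_lit 21) (.e (nat_lit 164327) (nat_lit 230) (.e (nat_lit 163882) (nat_lit 4) (.e (nat_lit 213031) (nat_lit 11) .nil)))))) (.g (nat_lit 1) (.e (nat_lit 133598) (nat_lit 0) .nil) .nil)))) (.nd (nat_lit 9) 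
(.lf (nat_lit 485837) (.g (nat_lit 998) (.e (nat_lit 24617) (nat_lit 7) (.e (nat_lit 319534) (nat_lit 16) (.e (nat_lit 286751) (nat_lit 10) .nil))) (.g (nat_lit 0) (.e (nat_lit 133295) (nat_lit 0) .nil) .nil))) 
(.lf (nat_lit 486349) (.g (nat_lit 2877) (.e (nat_lit 24628) (nat_lit 9) (.e (nat_lit 336443) (nat_lit 32) (.e (nat_lit 466969) (nat_lit 21) (.e (nat_lit 164327) (nat_lit 230) (.e (nat_lit 163881) (nat_lit 4) (.e (nat_lit 213030) (nat_lit 11) .nil)))))) (.g (nat_lit 1) (.e (nat_lit 133920) (nat_lit 0) .nil) .nil))))))) (.nd (nat_lit 6) (.nd (nat_lit 7) (.nd (nat_lit 8) (.nd (nat_lit 9) 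
(.lf (nat_lit 485421) (.g (nat_lit 2563) (.e (nat_lit 24608) (nat_lit 3) (.e (nat_lit 98373) (nat_lit 29) (.e (nat_lit 450563) (nat_lit 0) (.e (nat_lit 4277) (nat_lit 252) .nil)))) (.g (nat_lit 0) (.e (nat_lit 132787) (nat_lit 0) .nil) .nil))) 
(.lf (nat_lit 485933) (.g (nat_lit 3792) (.e (nat_lit 24623) (nat_lit 9) (.e (nat_lit 336389) (nat_lit 27) (.e (nat_lit 426344) (nat_lit 14) (.e (nat_lit 491560) (nat_lit 10) (.e (nat_lit 344179) (nat_lit 44) (.e (nat_lit 778465) (nat_lit 11) .nil)))))) (.g (nat_lit 1) (.e (nat_lit 133426) (nat_lit 0) .nil) .nil)))) (.nd (nat_lit 9) 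
(.lf (nat_lit 485677) (.g (nat_lit 1679) (.e (nat_lit 24616) (nat_lit 7) (.e (nat_lit 319530) (nat_lit 16) (.e (nat_lit 286759) (nat_lit 12) (.e (nat_lit 385113) (nat_lit 53) (.e (nat_lit 811031) (nat_lit 11) .nil))))) (.g (nat_lit 0) (.e (nat_lit 133087) (nat_lit 0) .nil) .nil))) 
(.lf (nat_lit 486189) (.g (nat_lit 2759) (.e (nat_lit 24627) (nat_lit 9) (.e (nat_lit 336443) (nat_lit 32) (.e (nat_lit 466971) (nat_lit 21) (.e (nat_lit 164327) (nat_lit 230) (.e (nat_lit 163882) (nat_lit 4) (.e (nat_lit 213031) (nat_lit 11) .nil)))))) (.g (nat_lit 1) (.e (nat_lit 133719) (nat_lit 0) .nil) .nil))))) (.nd (nat_lit 8) (.nd (nat_lit 9) 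
(.lf (nat_lit 485549) (.g (nat_lit 2519) (.e (nat_lit 24609) (nat_lit 3) (.e (nat_lit 98365) (nat_lit 26) (.e (nat_lit 426188) (nat_lit 9) (.e (nat_lit 426438) (nat_lit 18) (.e (nat_lit 98339) (nat_lit 19) (.e (nat_lit 213030) (nat_lit 11) .nil)))))) (.g (nat_lit 1) (.e (nat_lit 132942) (nat_lit 0) .nil) .nil))) 
(.lf (nat_lit 486061) (.g (nat_lit 2130) (.e (nat_lit 24625) (nat_lit 9) (.e (nat_lit 336443) (nat_lit 32) (.e (nat_lit 466972) (nat_lit 21) (.e (nat_lit 164322) (nat_lit 230) (.e (nat_lit 163878) (nat_lit 4) .nil))))) (.g (nat_lit 0) (.e (nat_lit 133563) (nat_lit 0) .nil) .nil)))) (.nd (nat_lit 9) 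
(.lf (nat_lit 485805) (.g (nat_lit 2348) (.e (nat_lit 24617) (nat_lit 7) (.e (nat_lit 319533) (nat_lit 16) (.e (nat_lit 286754) (nat_lit 10) (.e (nat_lit 344161) (nat_lit 37) (.e (nat_lit 647201) (nat_lit 12) (.e (nat_lit 57575) (nat_lit 55) (.e (nat_lit 778464) (nat_lit 11) .nil))))))) (.g (nat_lit 1) (.e (nat_lit 133246) (nat_lit 0) .nil) .nil))) 
(.lf (nat_lit 486317) (.g (nat_lit 3279) (.e (nat_lit 24628) (nat_lit 9) (.e (nat_lit 336375) (nat_lit 27) (.e (nat_lit 426525) (nat_lit 27) (.e (nat_lit 335986) (nat_lit 1) (.e (nat_lit 57847) (nat_lit 252) (.e (nat_lit 57370) (nat_lit 2) (.e (nat_lit 90158) (nat_lit 11) .nil))))))) (.g (nat_lit 1) (.e (nat_lit 133875) (nat_lit 0) .nil) .nil)))))) 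
(.nd (nat_lit 7) (.nd (nat_lit 8) (.nd (nat_lit 9) 
(.lf (nat_lit 485485) (.g (nat_lit 3263) (.e (nat_lit 24608) (nat_lit 3) (.e (nat_lit 98373) (nat_lit 29) (.e (nat_lit 450588) (nat_lit 10) (.e (nat_lit 573449) (nat_lit 9) .nil)))) (.g (nat_lit 0) (.e (nat_lit 132855) (nat_lit 0) .nil) .nil))) 
(.lf (nat_lit 485997) (.g (nat_lit 3128) (.e (nat_lit 24624) (nat_lit 9) (.e (nat_lit 336454) (nat_lit 34) (.e (nat_lit 483364) (nat_lit 18) (.e (nat_lit 57854) (nat_lit 252) (.e (nat_lit 57371) (nat_lit 2) (.e (nat_lit 90160) (nat_lit 11) .nil)))))) (.g (nat_lit 1) (.e (nat_lit 133496) (nat_lit 0) .nil) .nil)))) (.nd (nat_lit 9) 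
(.lf (nat_lit 485741) (.g (nat_lit 665) (.e (nat_lit 24617) (nat_lit 7) (.e (nat_lit 319531) (nat_lit 16) (.e (nat_lit 286756) (nat_lit 10) .nil))) (.g (nat_lit 0) (.e (nat_lit 133171) (nat_lit 0) .nil) .nil))) 
(.lf (nat_lit 486253) (.g (nat_lit 3765) (.e (nat_lit 24627) (nat_lit 9) (.e (nat_lit 336454) (nat_lit 34) (.e (nat_lit 483365) (nat_lit 18) (.e (nat_lit 57849) (nat_lit 252) (.e (nat_lit 57372) (nat_lit 2) (.e (nat_lit 90159) (nat_lit 11) .nil)))))) (.g (nat_lit 1) (.e (nat_lit 133793) (nat_lit 0) .nil) .nil))))) (.nd (nat_lit 8) (.nd (nat_lit 9) 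
(.lf (nat_lit 485613) (.g (nat_lit 3764) (.e (nat_lit 24609) (nat_lit 3) (.e (nat_lit 98373) (nat_lit 29) (.e (nat_lit 450587) (nat_lit 10) (.e (nat_lit 573475) (nat_lit 12) (.e (nat_lit 57574) (nat_lit 55) (.e (nat_lit 778464) (nat_lit 11) .nil)))))) (.g (nat_lit 1) (.e (nat_lit 133009) (nat_lit 0) .nil) .nil))) 
(.lf (nat_lit 486125) (.g (nat_lit 4954) (.e (nat_lit 24627) (nat_lit 9) (.e (nat_lit 336324) (nat_lit 18) (.e (nat_lit 204831) (nat_lit 18) (.e (nat_lit 57847) (nat_lit 252) (.e (nat_lit 57443) (nat_lit 18) (.e (nat_lit 392960) (nat_lit 10) .nil)))))) (.g (nat_lit 1) (.e (nat_lit 133638) (nat_lit 0) .nil) .nil)))) (.nd (nat_lit 9) 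
(.lf (nat_lit 485869) (.g (nat_lit 2401) (.e (nat_lit 24617) (nat_lit 7) (.e (nat_lit 319534) (nat_lit 16) (.e (nat_lit 286756) (nat_lit 10) (.e (nat_lit 344160) (nat_lit 37) (.e (nat_lit 647190) (nat_lit 9) (.e (nat_lit 983) (nat_lit 81) (.e (nat_lit 2309) (nat_lit 151) (.e (nat_lit 778464) (nat_lit 11) .nil)))))))) (.g (nat_lit 1) (.e (nat_lit 133331) (nat_lit 0) .nil) .nil))) 
(.lf (nat_lit 486381) (.g (nat_lit 2894) (.e (nat_lit 24628) (nat_lit 9) (.e (nat_lit 336443) (nat_lit 32) (.e (nat_lit 466971) (nat_lit 21) (.e (nat_lit 164325) (nat_lit 230) (.e (nat_lit 163879) (nat_lit 4) (.e (nat_lit 213032) (nat_lit 11) .nil)))))) (.g (nat_lit 1) (.e (nat_lit 133952) (nat_lit 0) .nil) .nil)))))))) 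
(.nd (nat_lit 5) (.nd (nat_lit 6) (.nd (nat_lit 7) (.nd (nat_lit 8) (.nd (nat_lit 9) 
(.lf (nat_lit 485405) (.g (nat_lit 2826) (.e (nat_lit 24608) (nat_lit 3) (.e (nat_lit 98372) (nat_lit 29) (.e (nat_lit 450586) (nat_lit 10) (.e (nat_lit 573478) (nat_lit 12) (.e (nat_lit 57574) (nat_lit 55) (.e (nat_lit 778463) (nat_lit 11) .nil)))))) (.g (nat_lit 1) (.e (nat_lit 132764) (nat_lit 0) .nil) .nil))) 
(.lf (nat_lit 485917) (.g (nat_lit 3249) (.e (nat_lit 24617) (nat_lit 7) (.e (nat_lit 319534) (nat_lit 16) (.e (nat_lit 286762) (nat_lit 14) (.e (nat_lit 401448) (nat_lit 10) (.e (nat_lit 434275) (nat_lit 39) (.e (nat_lit 663583) (nat_lit 11) .nil)))))) (.g (nat_lit 1) (.e (nat_lit 133387) (nat_lit 0) .nil) .nil)))) (.nd (nat_lit 9) 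
(.lf (nat_lit 485661) (.g (nat_lit 3152) (.e (nat_lit 32512) (nat_lit 3) (.e (nat_lit 98372) (nat_lit 29) (.e (nat_lit 450588) (nat_lit 10) (.e (nat_lit 573475) (nat_lit 12) (.e (nat_lit 57574) (nat_lit 55) .nil))))) (.g (nat_lit 0) (.e (nat_lit 133059) (nat_lit 0) .nil) .nil))) 
(.lf (nat_lit 486173) (.g (nat_lit 2119) (.e (nat_lit 24627) (nat_lit 9) (.e (nat_lit 336443) (nat_lit 32) (.e (nat_lit 466969) (nat_lit 21) (.e (nat_lit 164332) (nat_lit 230) (.e (nat_lit 163852) (nat_lit 0) (.e (nat_lit 3721) (nat_lit 227) (.e (nat_lit 778464) (nat_lit 11) .nil))))))) (.g (nat_lit 1) (.e (nat_lit 133703) (nat_lit 0) .nil) .nil))))) (.nd (nat_lit 8) (.nd (nat_lit 9) 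
(.lf (nat_lit 485533) (.g (nat_lit 1041) (.e (nat_lit 24609) (nat_lit 3) (.e (nat_lit 98358) (nat_lit 26) (.e (nat_lit 426319) (nat_lit 12) .nil))) (.g (nat_lit 0) (.e (nat_lit 132912) (nat_lit 0) .nil) .nil))) 
(.lf (nat_lit 486045) (.g (nat_lit 1930) (.e (nat_lit 24625) (nat_lit 9) (.e (nat_lit 336443) (nat_lit 32) (.e (nat_lit 466969) (nat_lit 21) (.e (nat_lit 164329) (nat_lit 230) (.e (nat_lit 163878) (nat_lit 4) (.e (nat_lit 213032) (nat_lit 11) .nil)))))) (.g (nat_lit 1) (.e (nat_lit 133547) (nat_lit 0) .nil) .nil)))) (.nd (nat_lit 9) 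
(.lf (nat_lit 485789) (.g (nat_lit 2444) (.e (nat_lit 24617) (nat_lit 7) (.e (nat_lit 319533) (nat_lit 16) (.e (nat_lit 286753) (nat_lit 10) (.e (nat_lit 344169) (nat_lit 40) (.e (nat_lit 671782) (nat_lit 12) (.e (nat_lit 164049) (nat_lit 55) (.e (nat_lit 778464) (nat_lit 11) .nil))))))) (.g (nat_lit 1) (.e (nat_lit 133230) (nat_lit 0) .nil) .nil))) 
(.lf (nat_lit 486301) (.g (nat_lit 3357) (.e (nat_lit 24628) (nat_lit 9) (.e (nat_lit 336368) (nat_lit 27) (.e (nat_lit 426499) (nat_lit 27) (.e (nat_lit 335986) (nat_lit 1) (.e (nat_lit 57847) (nat_lit 252) (.e (nat_lit 57375) (nat_lit 2) (.e (nat_lit 90160) (nat_lit 11) .nil))))))) (.g (nat_lit 1) (.e (nat_lit 133856) (nat_lit 0) .nil) .nil)))))) 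
(.nd (nat_lit 7) (.nd (nat_lit 8) (.nd (nat_lit 9) 
(.lf (nat_lit 485469) (.g (nat_lit 2503) (.e (nat_lit 24608) (nat_lit 3) (.e (nat_lit 98373) (nat_lit 29) (.e (nat_lit 450587) (nat_lit 10) (.e (nat_lit 573475) (nat_lit 12) (.e (nat_lit 65280) (nat_lit 55) .nil))))) (.g (nat_lit 0) (.e (nat_lit 132839) (nat_lit 0) .nil) .nil))) 
(.lf (nat_lit 485981) (.g (nat_lit 1919) (.e (nat_lit 24624) (nat_lit 9) (.e (nat_lit 336443) (nat_lit 32) (.e (nat_lit 466971) (nat_lit 21) (.e (nat_lit 164325) (nat_lit 230) (.e (nat_lit 163882) (nat_lit 4) .nil))))) (.g (nat_lit 0) (.e (nat_lit 133480) (nat_lit 0) .nil) .nil)))) (.nd (nat_lit 9) 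
(.lf (nat_lit 485725) (.g (nat_lit 638) (.e (nat_lit 24617) (nat_lit 7) (.e (nat_lit 319530) (nat_lit 16) (.e (nat_lit 286727) (nat_lit 0) .nil))) (.g (nat_lit 0) (.e (nat_lit 133155) (nat_lit 0) .nil) .nil))) 
(.lf (nat_lit 486237) (.g (nat_lit 3445) (.e (nat_lit 24627) (nat_lit 9) (.e (nat_lit 336454) (nat_lit 34) (.e (nat_lit 483365) (nat_lit 18) (.e (nat_lit 57846) (nat_lit 252) (.e (nat_lit 57371) (nat_lit 2) (.e (nat_lit 90159) (nat_lit 11) .nil)))))) (.g (nat_lit 1) (.e (nat_lit 133777) (nat_lit 0) .nil) .nil))))) (.nd (nat_lit 8) (.nd (nat_lit 9) 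
(.lf (nat_lit 485597) (.g (nat_lit 658) (.e (nat_lit 24609) (nat_lit 3) (.e (nat_lit 98372) (nat_lit 29) (.e (nat_lit 458496) (nat_lit 8) .nil))) (.g (nat_lit 0) (.e (nat_lit 132990) (nat_lit 0) .nil) .nil))) 
(.lf (nat_lit 486109) (.g (nat_lit 2153) (.e (nat_lit 24626) (nat_lit 9) (.e (nat_lit 336443) (nat_lit 32) (.e (nat_lit 466972) (nat_lit 21) (.e (nat_lit 164332) (nat_lit 230) (.e (nat_lit 163880) (nat_lit 4) (.e (nat_lit 213031) (nat_lit 11) .nil)))))) (.g (nat_lit 1) (.e (nat_lit 133614) (nat_lit 0) .nil) .nil)))) (.nd (nat_lit 9) 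
(.lf (nat_lit 485853) (.g (nat_lit 2413) (.e (nat_lit 24617) (nat_lit 7) (.e (nat_lit 319534) (nat_lit 16) (.e (nat_lit 286756) (nat_lit 10) (.e (nat_lit 344168) (nat_lit 40) (.e (nat_lit 671782) (nat_lit 12) (.e (nat_lit 164042) (nat_lit 55) (.e (nat_lit 786176) (nat_lit 11) .nil))))))) (.g (nat_lit 1) (.e (nat_lit 133314) (nat_lit 0) .nil) .nil))) 
(.lf (nat_lit 486365) (.g (nat_lit 3043) (.e (nat_lit 24628) (nat_lit 9) (.e (nat_lit 336443) (nat_lit 32) (.e (nat_lit 466969) (nat_lit 21) (.e (nat_lit 164330) (nat_lit 230) (.e (nat_lit 163880) (nat_lit 4) (.e (nat_lit 213030) (nat_lit 11) .nil)))))) (.g (nat_lit 1) (.e (nat_lit 133936) (nat_lit 0) .nil) .nil))))))) (.nd (nat_lit 6) (.nd (nat_lit 7) (.nd (nat_lit 8) (.nd (nat_lit 9) 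
(.lf (nat_lit 485437) (.g (nat_lit 2887) (.e (nat_lit 24608) (nat_lit 3) (.e (nat_lit 98373) (nat_lit 29) (.e (nat_lit 450587) (nat_lit 10) (.e (nat_lit 573475) (nat_lit 12) (.e (nat_lit 57345) (nat_lit 0) (.e (nat_lit 7408) (nat_lit 396) (.e (nat_lit 2553) (nat_lit 159) .nil))))))) (.g (nat_lit 1) (.e (nat_lit 132807) (nat_lit 0) .nil) .nil))) 
(.lf (nat_lit 485949) (.g (nat_lit 3973) (.e (nat_lit 24623) (nat_lit 9) (.e (nat_lit 336454) (nat_lit 34) (.e (nat_lit 483365) (nat_lit 18) (.e (nat_lit 57847) (nat_lit 252) (.e (nat_lit 57375) (nat_lit 2) (.e (nat_lit 90160) (nat_lit 11) .nil)))))) (.g (nat_lit 1) (.e (nat_lit 133442) (nat_lit 0) .nil) .nil)))) (.nd (nat_lit 9) 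
(.lf (nat_lit 485693) (.g (nat_lit 1505) (.e (nat_lit 24617) (nat_lit 7) (.e (nat_lit 319500) (nat_lit 10) (.e (nat_lit 720) (nat_lit 64) (.e (nat_lit 688170) (nat_lit 15) (.e (nat_lit 65280) (nat_lit 192) .nil))))) (.g (nat_lit 0) (.e (nat_lit 133104) (nat_lit 0) .nil) .nil))) 
(.lf (nat_lit 486205) (.g (nat_lit 2215) (.e (nat_lit 24627) (nat_lit 9) (.e (nat_lit 336443) (nat_lit 32) (.e (nat_lit 466972) (nat_lit 21) (.e (nat_lit 164332) (nat_lit 230) (.e (nat_lit 163880) (nat_lit 4) (.e (nat_lit 213031) (nat_lit 11) .nil)))))) (.g (nat_lit 1) (.e (nat_lit 133735) (nat_lit 0) .nil) .nil))))) (.nd (nat_lit 8) (.nd (nat_lit 9) 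
(.lf (nat_lit 485565) (.g (nat_lit 1417) (.e (nat_lit 24609) (nat_lit 3) (.e (nat_lit 98365) (nat_lit 26) (.e (nat_lit 426315) (nat_lit 12) (.e (nat_lit 475178) (nat_lit 24) .nil)))) (.g (nat_lit 0) (.e (nat_lit 132958) (nat_lit 0) .nil) .nil))) 
(.lf (nat_lit 486077) (.g (nat_lit 2815) (.e (nat_lit 24625) (nat_lit 9) (.e (nat_lit 336455) (nat_lit 34) (.e (nat_lit 483363) (nat_lit 18) (.e (nat_lit 57854) (nat_lit 252) (.e (nat_lit 57373) (nat_lit 2) (.e (nat_lit 90160) (nat_lit 11) .nil)))))) (.g (nat_lit 1) (.e (nat_lit 133579) (nat_lit 0) .nil) .nil)))) (.nd (nat_lit 9) 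
(.lf (nat_lit 485821) (.g (nat_lit 2492) (.e (nat_lit 24617) (nat_lit 7) (.e (nat_lit 319533) (nat_lit 16) (.e (nat_lit 286759) (nat_lit 12) (.e (nat_lit 385115) (nat_lit 53) (.e (nat_lit 811033) (nat_lit 11) (.e (nat_lit 879) (nat_lit 75) (.e (nat_lit 778464) (nat_lit 11) .nil))))))) (.g (nat_lit 1) (.e (nat_lit 133269) (nat_lit 0) .nil) .nil))) 
(.lf (nat_lit 486333) (.g (nat_lit 2305) (.e (nat_lit 24628) (nat_lit 9) (.e (nat_lit 336443) (nat_lit 32) (.e (nat_lit 466969) (nat_lit 21) (.e (nat_lit 164324) (nat_lit 230) (.e (nat_lit 163877) (nat_lit 4) (.e (nat_lit 213032) (nat_lit 11) .nil)))))) (.g (nat_lit 1) (.e (nat_lit 133904) (nat_lit 0) .nil) .nil)))))) (.nd (nat_lit 7) (.nd (nat_lit 8) (.nd (nat_lit 9) 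
(.lf (nat_lit 485501) (.g (nat_lit 4134) (.e (nat_lit 24608) (nat_lit 3) (.e (nat_lit 98373) (nat_lit 29) (.e (nat_lit 450588) (nat_lit 10) (.e (nat_lit 573475) (nat_lit 12) (.e (nat_lit 57574) (nat_lit 55) (.e (nat_lit 778463) (nat_lit 11) .nil)))))) (.g (nat_lit 1) (.e (nat_lit 132871) (nat_lit 0) .nil) .nil))) 
(.lf (nat_lit 486013) (.g (nat_lit 3624) (.e (nat_lit 24624) (nat_lit 9) (.e (nat_lit 336456) (nat_lit 34) (.e (nat_lit 483363) (nat_lit 18) (.e (nat_lit 57847) (nat_lit 252) (.e (nat_lit 57372) (nat_lit 2) (.e (nat_lit 90160) (nat_lit 11) .nil)))))) (.g (nat_lit 1) (.e (nat_lit 133513) (nat_lit 0) .nil) .nil)))) (.nd (nat_lit 9) 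
(.lf (nat_lit 485757) (.g (nat_lit 2372) (.e (nat_lit 24617) (nat_lit 7) (.e (nat_lit 319531) (nat_lit 16) (.e (nat_lit 286759) (nat_lit 12) (.e (nat_lit 385109) (nat_lit 51) (.e (nat_lit 794676) (nat_lit 24) .nil))))) (.g (nat_lit 0) (.e (nat_lit 133193) (nat_lit 0) .nil) .nil))) 
(.lf (nat_lit 486269) (.g (nat_lit 4077) (.e (nat_lit 24628) (nat_lit 9) (.e (nat_lit 336240) (nat_lit 15) (.e (nat_lit 3309) (nat_lit 202) (.e (nat_lit 573484) (nat_lit 13) (.e (nat_lit 65610) (nat_lit 10) (.e (nat_lit 344129) (nat_lit 26) (.e (nat_lit 557085) (nat_lit 11) .nil))))))) (.g (nat_lit 1) (.e (nat_lit 133820) (nat_lit 0) .nil) .nil))))) (.nd (nat_lit 8) (.nd (nat_lit 9) 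
(.lf (nat_lit 485629) (.g (nat_lit 1983) (.e (nat_lit 24609) (nat_lit 3) (.e (nat_lit 98373) (nat_lit 29) (.e (nat_lit 450587) (nat_lit 10) (.e (nat_lit 573478) (nat_lit 12) .nil)))) (.g (nat_lit 0) (.e (nat_lit 133025) (nat_lit 0) .nil) .nil))) 
(.lf (nat_lit 486141) (.g (nat_lit 2860) (.e (nat_lit 24627) (nat_lit 9) (.e (nat_lit 336372) (nat_lit 27) (.e (nat_lit 426525) (nat_lit 27) (.e (nat_lit 335995) (nat_lit 1) (.e (nat_lit 57848) (nat_lit 252) (.e (nat_lit 57375) (nat_lit 2) (.e (nat_lit 90159) (nat_lit 11) .nil))))))) (.g (nat_lit 1) (.e (nat_lit 133666) (nat_lit 0) .nil) .nil)))) (.nd (nat_lit 9) 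
(.lf (nat_lit 485885) (.g (nat_lit 3416) (.e (nat_lit 24617) (nat_lit 7) (.e (nat_lit 319534) (nat_lit 16) (.e (nat_lit 286756) (nat_lit 10) (.e (nat_lit 344160) (nat_lit 37) (.e (nat_lit 647195) (nat_lit 9) (.e (nat_lit 1014) (nat_lit 81) (.e (nat_lit 2350) (nat_lit 151) (.e (nat_lit 778464) (nat_lit 11) .nil)))))))) (.g (nat_lit 1) (.e (nat_lit 133347) (nat_lit 0) .nil) .nil))) 
(.lf (nat_lit 486397) (.g (nat_lit 1983) (.e (nat_lit 24628) (nat_lit 9) (.e (nat_lit 336443) (nat_lit 32) (.e (nat_lit 466971) (nat_lit 21) (.e (nat_lit 164329) (nat_lit 230) (.e (nat_lit 163878) (nat_lit 4) (.e (nat_lit 213032) (nat_lit 11) .nil)))))) (.g (nat_lit 1) (.e (nat_lit 133968) (nat_lit 0) .nil) .nil))))))))))) 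
(.nd (nat_lit 2) (.nd (nat_lit 3) (.nd (nat_lit 4) (.nd (nat_lit 5) (.nd (nat_lit 6) 
(.nd (nat_lit 7) (.nd (nat_lit 8) (.nd (nat_lit 9) 
(.lf (nat_lit 485379) (.g (nat_lit 1210) (.e (nat_lit 24608) (nat_lit 3) (.e (nat_lit 98365) (nat_lit 26) (.e (nat_lit 426308) (nat_lit 12) (.e (nat_lit 475177) (nat_lit 24) .nil)))) (.g (nat_lit 0) (.e (nat_lit 132736) (nat_lit 0) .nil) .nil))) 
(.lf (nat_lit 485891) (.g (nat_lit 4718) (.e (nat_lit 24617) (nat_lit 7) (.e (nat_lit 319534) (nat_lit 16) (.e (nat_lit 286756) (nat_lit 10) (.e (nat_lit 344160) (nat_lit 37) (.e (nat_lit 647201) (nat_lit 12) (.e (nat_lit 57574) (nat_lit 55) (.e (nat_lit 778465) (nat_lit 11) .nil))))))) (.g (nat_lit 1) (.e (nat_lit 133353) (nat_lit 0) .nil) .nil)))) (.nd (nat_lit 9) 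
(.lf (nat_lit 485635) (.g (nat_lit 4411) (.e (nat_lit 24609) (nat_lit 3) (.e (nat_lit 98373) (nat_lit 29) (.e (nat_lit 450588) (nat_lit 10) (.e (nat_lit 573452) (nat_lit 9) (.e (nat_lit 1314) (nat_lit 98) .nil))))) (.g (nat_lit 0) (.e (nat_lit 133031) (nat_lit 0) .nil) .nil))) 
(.lf (nat_lit 486147) (.g (nat_lit 3036) (.e (nat_lit 24627) (nat_lit 9) (.e (nat_lit 336377) (nat_lit 27) (.e (nat_lit 426525) (nat_lit 27) (.e (nat_lit 335995) (nat_lit 1) (.e (nat_lit 57848) (nat_lit 252) (.e (nat_lit 57375) (nat_lit 2) (.e (nat_lit 90159) (nat_lit 11) .nil))))))) (.g (nat_lit 1) (.e (nat_lit 133672) (nat_lit 0) .nil) .nil))))) (.nd (nat_lit 8) (.nd (nat_lit 9) 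
(.lf (nat_lit 485507) (.g (nat_lit 4369) (.e (nat_lit 24608) (nat_lit 3) (.e (nat_lit 98373) (nat_lit 29) (.e (nat_lit 450588) (nat_lit 10) (.e (nat_lit 573494) (nat_lit 16) .nil)))) (.g (nat_lit 0) (.e (nat_lit 132877) (nat_lit 0) .nil) .nil))) 
(.lf (nat_lit 486019) (.g (nat_lit 688) (.e (nat_lit 24624) (nat_lit 9) (.e (nat_lit 336456) (nat_lit 34) (.e (nat_lit 483365) (nat_lit 18) .nil))) (.g (nat_lit 0) (.e (nat_lit 133519) (nat_lit 0) .nil) .nil)))) (.nd (nat_lit 9) 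
(.lf (nat_lit 485763) (.g (nat_lit 363) (.e (nat_lit 24617) (nat_lit 7) (.e (nat_lit 319532) (nat_lit 16) (.e (nat_lit 286759) (nat_lit 12) .nil))) (.g (nat_lit 0) (.e (nat_lit 133200) (nat_lit 0) .nil) .nil))) 
(.lf (nat_lit 486275) (.g (nat_lit 3497) (.e (nat_lit 24628) (nat_lit 9) (.e (nat_lit 336324) (nat_lit 18) (.e (nat_lit 204831) (nat_lit 18) (.e (nat_lit 57852) (nat_lit 252) .nil)))) (.g (nat_lit 0) (.e (nat_lit 133829) (nat_lit 0) .nil) .nil)))))) (.nd (nat_lit 7) (.nd (nat_lit 8) (.nd (nat_lit 9) 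
(.lf (nat_lit 485443) (.g (nat_lit 3588) (.e (nat_lit 24608) (nat_lit 3) (.e (nat_lit 98373) (nat_lit 29) (.e (nat_lit 450587) (nat_lit 10) (.e (nat_lit 573475) (nat_lit 12) (.e (nat_lit 57345) (nat_lit 0) (.e (nat_lit 7456) (nat_lit 396) (.e (nat_lit 2551) (nat_lit 159) .nil))))))) (.g (nat_lit 1) (.e (nat_lit 132813) (nat_lit 0) .nil) .nil))) 
(.lf (nat_lit 485955) (.g (nat_lit 3730) (.e (nat_lit 24623) (nat_lit 9) (.e (nat_lit 336456) (nat_lit 34) (.e (nat_lit 483363) (nat_lit 18) (.e (nat_lit 57847) (nat_lit 252) (.e (nat_lit 57375) (nat_lit 2) (.e (nat_lit 90160) (nat_lit 11) .nil)))))) (.g (nat_lit 1) (.e (nat_lit 133449) (nat_lit 0) .nil) .nil)))) (.nd (nat_lit 9) 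
(.lf (nat_lit 485699) (.g (nat_lit 1853) (.e (nat_lit 24617) (nat_lit 7) (.e (nat_lit 319528) (nat_lit 16) (.e (nat_lit 286759) (nat_lit 12) (.e (nat_lit 385093) (nat_lit 49) (.e (nat_lit 778510) (nat_lit 14) .nil))))) (.g (nat_lit 0) (.e (nat_lit 133121) (nat_lit 0) .nil) .nil))) 
(.lf (nat_lit 486211) (.g (nat_lit 2203) (.e (nat_lit 24627) (nat_lit 9) (.e (nat_lit 336454) (nat_lit 34) (.e (nat_lit 483363) (nat_lit 18) (.e (nat_lit 57846) (nat_lit 252) .nil)))) (.g (nat_lit 0) (.e (nat_lit 133751) (nat_lit 0) .nil) .nil))))) (.nd (nat_lit 8) (.nd (nat_lit 9) 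
(.lf (nat_lit 485571) (.g (nat_lit 1368) (.e (nat_lit 24609) (nat_lit 3) (.e (nat_lit 98372) (nat_lit 29) (.e (nat_lit 450579) (nat_lit 5) (.e (nat_lit 532499) (nat_lit 1) .nil)))) (.g (nat_lit 0) (.e (nat_lit 132964) (nat_lit 0) .nil) .nil))) 
(.lf (nat_lit 486083) (.g (nat_lit 1642) (.e (nat_lit 24626) (nat_lit 9) (.e (nat_lit 336270) (nat_lit 15) (.e (nat_lit 3305) (nat_lit 202) (.e (nat_lit 573484) (nat_lit 13) (.e (nat_lit 65617) (nat_lit 10) .nil))))) (.g (nat_lit 0) (.e (nat_lit 133587) (nat_lit 0) .nil) .nil)))) (.nd (nat_lit 9) 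
(.lf (nat_lit 485827) (.g (nat_lit 821) (.e (nat_lit 24617) (nat_lit 7) (.e (nat_lit 319534) (nat_lit 16) (.e (nat_lit 286723) (nat_lit 0) .nil))) (.g (nat_lit 0) (.e (nat_lit 133279) (nat_lit 0) .nil) .nil))) 
(.lf (nat_lit 486339) (.g (nat_lit 1995) (.e (nat_lit 24628) (nat_lit 9) (.e (nat_lit 336443) (nat_lit 32) (.e (nat_lit 466969) (nat_lit 21) (.e (nat_lit 164325) (nat_lit 230) (.e (nat_lit 163880) (nat_lit 4) (.e (nat_lit 213032) (nat_lit 11) .nil)))))) (.g (nat_lit 1) (.e (nat_lit 133910) (nat_lit 0) .nil) .nil))))))) (.nd (nat_lit 6) (.nd (nat_lit 7) (.nd (nat_lit 8) (.nd (nat_lit 9) 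
(.lf (nat_lit 485411) (.g (nat_lit 2217) (.e (nat_lit 24608) (nat_lit 3) (.e (nat_lit 98372) (nat_lit 29) (.e (nat_lit 450588) (nat_lit 10) (.e (nat_lit 573473) (nat_lit 12) .nil)))) (.g (nat_lit 0) (.e (nat_lit 132770) (nat_lit 0) .nil) .nil))) 
(.lf (nat_lit 485923) (.g (nat_lit 2072) (.e (nat_lit 24623) (nat_lit 9) (.e (nat_lit 336013) (nat_lit 2) (.e (nat_lit 98048) (nat_lit 2) (.e (nat_lit 16458) (nat_lit 12) (.e (nat_lit 483072) (nat_lit 2) .nil))))) (.g (nat_lit 1) (.e (nat_lit 133416) (nat_lit 0) .nil) .nil)))) (.nd (nat_lit 9) 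
(.lf (nat_lit 485667) (.g (nat_lit 1987) (.e (nat_lit 32512) (nat_lit 3) (.e (nat_lit 98373) (nat_lit 29) (.e (nat_lit 450587) (nat_lit 10) (.e (nat_lit 573478) (nat_lit 12) (.e (nat_lit 57574) (nat_lit 55) .nil))))) (.g (nat_lit 0) (.e (nat_lit 133065) (nat_lit 0) .nil) .nil))) 
(.lf (nat_lit 486179) (.g (nat_lit 1829) (.e (nat_lit 24627) (nat_lit 9) (.e (nat_lit 336443) (nat_lit 32) (.e (nat_lit 466969) (nat_lit 21) (.e (nat_lit 164332) (nat_lit 230) (.e (nat_lit 163894) (nat_lit 9) .nil))))) (.g (nat_lit 0) (.e (nat_lit 133709) (nat_lit 0) .nil) .nil))))) (.nd (nat_lit 8) (.nd (nat_lit 9) 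
(.lf (nat_lit 485539) (.g (nat_lit 2832) (.e (nat_lit 24609) (nat_lit 3) (.e (nat_lit 98358) (nat_lit 26) (.e (nat_lit 426320) (nat_lit 12) (.e (nat_lit 475179) (nat_lit 24) (.e (nat_lit 516126) (nat_lit 2) (.e (nat_lit 213032) (nat_lit 11) .nil)))))) (.g (nat_lit 1) (.e (nat_lit 132918) (nat_lit 0) .nil) .nil))) 
(.lf (nat_lit 486051) (.g (nat_lit 3171) (.e (nat_lit 24625) (nat_lit 9) (.e (nat_lit 336443) (nat_lit 32) (.e (nat_lit 466969) (nat_lit 21) (.e (nat_lit 164332) (nat_lit 230) (.e (nat_lit 163878) (nat_lit 4) (.e (nat_lit 213032) (nat_lit 11) .nil)))))) (.g (nat_lit 1) (.e (nat_lit 133553) (nat_lit 0) .nil) .nil)))) (.nd (nat_lit 9) 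
(.lf (nat_lit 485795) (.g (nat_lit 3692) (.e (nat_lit 24617) (nat_lit 7) (.e (nat_lit 319533) (nat_lit 16) (.e (nat_lit 286753) (nat_lit 10) (.e (nat_lit 344160) (nat_lit 37) (.e (nat_lit 647195) (nat_lit 9) (.e (nat_lit 1015) (nat_lit 81) (.e (nat_lit 2350) (nat_lit 151) (.e (nat_lit 778464) (nat_lit 11) .nil)))))))) (.g (nat_lit 1) (.e (nat_lit 133236) (nat_lit 0) .nil) .nil))) 
(.lf (nat_lit 486307) (.g (nat_lit 2798) (.e (nat_lit 24628) (nat_lit 9) (.e (nat_lit 336370) (nat_lit 27) (.e (nat_lit 426501) (nat_lit 27) (.e (nat_lit 335986) (nat_lit 1) (.e (nat_lit 57847) (nat_lit 252) (.e (nat_lit 57370) (nat_lit 2) (.e (nat_lit 90158) (nat_lit 11) .nil))))))) (.g (nat_lit 1) (.e (nat_lit 133863) (nat_lit 0) .nil) .nil)))))) 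
(.nd (nat_lit 7) (.nd (nat_lit 8) (.nd (nat_lit 9) 
(.lf (nat_lit 485475) (.g (nat_lit 4760) (.e (nat_lit 24608) (nat_lit 3) (.e (nat_lit 98373) (nat_lit 29) (.e (nat_lit 450587) (nat_lit 10) (.e (nat_lit 573477) (nat_lit 12) (.e (nat_lit 57575) (nat_lit 55) (.e (nat_lit 778460) (nat_lit 11) .nil)))))) (.g (nat_lit 1) (.e (nat_lit 132845) (nat_lit 0) .nil) .nil))) 
(.lf (nat_lit 485987) (.g (nat_lit 2448) (.e (nat_lit 24624) (nat_lit 9) (.e (nat_lit 336443) (nat_lit 32) (.e (nat_lit 466972) (nat_lit 21) (.e (nat_lit 164331) (nat_lit 230) (.e (nat_lit 163878) (nat_lit 4) .nil))))) (.g (nat_lit 0) (.e (nat_lit 133486) (nat_lit 0) .nil) .nil)))) (.nd (nat_lit 9) 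
(.lf (nat_lit 485731) (.g (nat_lit 2867) (.e (nat_lit 24617) (nat_lit 7) (.e (nat_lit 319530) (nat_lit 16) (.e (nat_lit 286759) (nat_lit 12) (.e (nat_lit 385107) (nat_lit 51) (.e (nat_lit 794674) (nat_lit 24) (.e (nat_lit 213030) (nat_lit 11) .nil)))))) (.g (nat_lit 1) (.e (nat_lit 133161) (nat_lit 0) .nil) .nil))) 
(.lf (nat_lit 486243) (.g (nat_lit 3632) (.e (nat_lit 24627) (nat_lit 9) (.e (nat_lit 336454) (nat_lit 34) (.e (nat_lit 483365) (nat_lit 18) (.e (nat_lit 57847) (nat_lit 252) (.e (nat_lit 57372) (nat_lit 2) (.e (nat_lit 90159) (nat_lit 11) .nil)))))) (.g (nat_lit 1) (.e (nat_lit 133783) (nat_lit 0) .nil) .nil))))) (.nd (nat_lit 8) (.nd (nat_lit 9) 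
(.lf (nat_lit 485603) (.g (nat_lit 3826) (.e (nat_lit 24609) (nat_lit 3) (.e (nat_lit 98373) (nat_lit 29) (.e (nat_lit 450587) (nat_lit 10) (.e (nat_lit 573472) (nat_lit 12) .nil)))) (.g (nat_lit 0) (.e (nat_lit 132999) (nat_lit 0) .nil) .nil))) 
(.lf (nat_lit 486115) (.g (nat_lit 2589) (.e (nat_lit 24626) (nat_lit 9) (.e (nat_lit 336454) (nat_lit 34) (.e (nat_lit 483366) (nat_lit 18) (.e (nat_lit 57848) (nat_lit 252) (.e (nat_lit 57372) (nat_lit 2) (.e (nat_lit 90159) (nat_lit 11) .nil)))))) (.g (nat_lit 1) (.e (nat_lit 133622) (nat_lit 0) .nil) .nil)))) (.nd (nat_lit 9) 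
(.lf (nat_lit 485859) (.g (nat_lit 1860) (.e (nat_lit 24617) (nat_lit 7) (.e (nat_lit 319534) (nat_lit 16) (.e (nat_lit 286756) (nat_lit 10) (.e (nat_lit 344169) (nat_lit 40) (.e (nat_lit 671780) (nat_lit 12) (.e (nat_lit 171776) (nat_lit 55) (.e (nat_lit 778466) (nat_lit 11) .nil))))))) (.g (nat_lit 1) (.e (nat_lit 133321) (nat_lit 0) .nil) .nil))) 
(.lf (nat_lit 486371) (.g (nat_lit 2133) (.e (nat_lit 24628) (nat_lit 9) (.e (nat_lit 336443) (nat_lit 32) (.e (nat_lit 466969) (nat_lit 21) (.e (nat_lit 164332) (nat_lit 230) (.e (nat_lit 163852) (nat_lit 0) .nil))))) (.g (nat_lit 0) (.e (nat_lit 133942) (nat_lit 0) .nil) .nil)))))))) (.nd (nat_lit 5) (.nd (nat_lit 6) (.nd (nat_lit 7) (.nd (nat_lit 8) (.nd (nat_lit 9) 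
(.lf (nat_lit 485395) (.g (nat_lit 2563) (.e (nat_lit 24608) (nat_lit 3) (.e (nat_lit 98372) (nat_lit 29) (.e (nat_lit 450586) (nat_lit 10) (.e (nat_lit 573477) (nat_lit 12) (.e (nat_lit 57573) (nat_lit 55) (.e (nat_lit 778469) (nat_lit 11) .nil)))))) (.g (nat_lit 1) (.e (nat_lit 132754) (nat_lit 0) .nil) .nil))) 
(.lf (nat_lit 485907) (.g (nat_lit 2510) (.e (nat_lit 24617) (nat_lit 7) (.e (nat_lit 319534) (nat_lit 16) (.e (nat_lit 286759) (nat_lit 12) (.e (nat_lit 385109) (nat_lit 51) (.e (nat_lit 794676) (nat_lit 24) (.e (nat_lit 213030) (nat_lit 11) .nil)))))) (.g (nat_lit 1) (.e (nat_lit 133375) (nat_lit 0) .nil) .nil)))) (.nd (nat_lit 9) 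
(.lf (nat_lit 485651) (.g (nat_lit 2112) (.e (nat_lit 24609) (nat_lit 3) (.e (nat_lit 98380) (nat_lit 31) (.e (nat_lit 466947) (nat_lit 0) (.e (nat_lit 1800) (nat_lit 119) (.e (nat_lit 516126) (nat_lit 2) (.e (nat_lit 213032) (nat_lit 11) .nil)))))) (.g (nat_lit 1) (.e (nat_lit 133049) (nat_lit 0) .nil) .nil))) 
(.lf (nat_lit 486163) (.g (nat_lit 3212) (.e (nat_lit 24627) (nat_lit 9) (.e (nat_lit 336443) (nat_lit 32) (.e (nat_lit 466969) (nat_lit 21) (.e (nat_lit 164327) (nat_lit 230) (.e (nat_lit 163882) (nat_lit 4) (.e (nat_lit 213032) (nat_lit 11) .nil)))))) (.g (nat_lit 1) (.e (nat_lit 133693) (nat_lit 0) .nil) .nil))))) (.nd (nat_lit 8) (.nd (nat_lit 9) 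
(.lf (nat_lit 485523) (.g (nat_lit 3836) (.e (nat_lit 24608) (nat_lit 3) (.e (nat_lit 98389) (nat_lit 33) (.e (nat_lit 491563) (nat_lit 12) (.e (nat_lit 385067) (nat_lit 26) .nil)))) (.g (nat_lit 0) (.e (nat_lit 132897) (nat_lit 0) .nil) .nil))) 
(.lf (nat_lit 486035) (.g (nat_lit 341) (.e (nat_lit 24625) (nat_lit 9) (.e (nat_lit 336443) (nat_lit 32) (.e (nat_lit 466969) (nat_lit 21) .nil))) (.g (nat_lit 0) (.e (nat_lit 133537) (nat_lit 0) .nil) .nil)))) (.nd (nat_lit 9) 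
(.lf (nat_lit 485779) (.g (nat_lit 2287) (.e (nat_lit 24617) (nat_lit 7) (.e (nat_lit 319533) (nat_lit 16) (.e (nat_lit 286753) (nat_lit 10) (.e (nat_lit 344168) (nat_lit 40) (.e (nat_lit 671782) (nat_lit 12) (.e (nat_lit 164042) (nat_lit 55) (.e (nat_lit 786176) (nat_lit 11) .nil))))))) (.g (nat_lit 1) (.e (nat_lit 133219) (nat_lit 0) .nil) .nil))) 
(.lf (nat_lit 486291) (.g (nat_lit 3135) (.e (nat_lit 24628) (nat_lit 9) (.e (nat_lit 336366) (nat_lit 27) (.e (nat_lit 426499) (nat_lit 27) (.e (nat_lit 335986) (nat_lit 1) (.e (nat_lit 57847) (nat_lit 252) (.e (nat_lit 57373) (nat_lit 2) (.e (nat_lit 90158) (nat_lit 11) .nil))))))) (.g (nat_lit 1) (.e (nat_lit 133846) (nat_lit 0) .nil) .nil)))))) 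
(.nd (nat_lit 7) (.nd (nat_lit 8) (.nd (nat_lit 9) 
(.lf (nat_lit 485459) (.g (nat_lit 3971) (.e (nat_lit 24608) (nat_lit 3) (.e (nat_lit 98373) (nat_lit 29) (.e (nat_lit 450587) (nat_lit 10) (.e (nat_lit 573475) (nat_lit 12) (.e (nat_lit 57346) (nat_lit 0) (.e (nat_lit 7458) (nat_lit 396) (.e (nat_lit 2554) (nat_lit 159) .nil))))))) (.g (nat_lit 1) (.e (nat_lit 132829) (nat_lit 0) .nil) .nil))) 
(.lf (nat_lit 485971) (.g (nat_lit 4146) (.e (nat_lit 24624) (nat_lit 9) (.e (nat_lit 336324) (nat_lit 18) (.e (nat_lit 204831) (nat_lit 18) (.e (nat_lit 57854) (nat_lit 252) .nil)))) (.g (nat_lit 0) (.e (nat_lit 133466) (nat_lit 0) .nil) .nil)))) (.nd (nat_lit 9) 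
(.lf (nat_lit 485715) (.g (nat_lit 1594) (.e (nat_lit 24617) (nat_lit 7) (.e (nat_lit 319529) (nat_lit 16) (.e (nat_lit 286759) (nat_lit 12) (.e (nat_lit 385092) (nat_lit 49) (.e (nat_lit 778336) (nat_lit 9) .nil))))) (.g (nat_lit 0) (.e (nat_lit 133142) (nat_lit 0) .nil) .nil))) 
(.lf (nat_lit 486227) (.g (nat_lit 2948) (.e (nat_lit 24627) (nat_lit 9) (.e (nat_lit 336454) (nat_lit 34) (.e (nat_lit 483363) (nat_lit 18) (.e (nat_lit 57854) (nat_lit 252) (.e (nat_lit 57371) (nat_lit 2) (.e (nat_lit 90160) (nat_lit 11) .nil)))))) (.g (nat_lit 1) (.e (nat_lit 133767) (nat_lit 0) .nil) .nil))))) (.nd (nat_lit 8) (.nd (nat_lit 9) 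
(.lf (nat_lit 485587) (.g (nat_lit 2197) (.e (nat_lit 24609) (nat_lit 3) (.e (nat_lit 98372) (nat_lit 29) (.e (nat_lit 450586) (nat_lit 10) (.e (nat_lit 573477) (nat_lit 12) (.e (nat_lit 57574) (nat_lit 55) (.e (nat_lit 778463) (nat_lit 11) .nil)))))) (.g (nat_lit 1) (.e (nat_lit 132980) (nat_lit 0) .nil) .nil))) 
(.lf (nat_lit 486099) (.g (nat_lit 2120) (.e (nat_lit 24626) (nat_lit 9) (.e (nat_lit 336443) (nat_lit 32) (.e (nat_lit 466971) (nat_lit 21) (.e (nat_lit 164325) (nat_lit 230) (.e (nat_lit 163880) (nat_lit 4) .nil))))) (.g (nat_lit 0) (.e (nat_lit 133604) (nat_lit 0) .nil) .nil)))) (.nd (nat_lit 9) 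
(.lf (nat_lit 485843) (.g (nat_lit 1349) (.e (nat_lit 24617) (nat_lit 7) (.e (nat_lit 319534) (nat_lit 16) (.e (nat_lit 286756) (nat_lit 10) (.e (nat_lit 344089) (nat_lit 18) .nil)))) (.g (nat_lit 0) (.e (nat_lit 133301) (nat_lit 0) .nil) .nil))) 
(.lf (nat_lit 486355) (.g (nat_lit 2347) (.e (nat_lit 24628) (nat_lit 9) (.e (nat_lit 336443) (nat_lit 32) (.e (nat_lit 466969) (nat_lit 21) (.e (nat_lit 164330) (nat_lit 230) (.e (nat_lit 163841) (nat_lit 0) .nil))))) (.g (nat_lit 0) (.e (nat_lit 133926) (nat_lit 0) .nil) .nil))))))) (.nd (nat_lit 6) (.nd (nat_lit 7) (.nd (nat_lit 8) (.nd (nat_lit 9) 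
(.lf (nat_lit 485427) (.g (nat_lit 3544) (.e (nat_lit 24608) (nat_lit 3) (.e (nat_lit 98373) (nat_lit 29) (.e (nat_lit 450586) (nat_lit 10) (.e (nat_lit 573475) (nat_lit 12) (.e (nat_lit 57574) (nat_lit 55) (.e (nat_lit 778466) (nat_lit 11) .nil)))))) (.g (nat_lit 1) (.e (nat_lit 132797) (nat_lit 0) .nil) .nil))) 
(.lf (nat_lit 485939) (.g (nat_lit 358) (.e (nat_lit 24623) (nat_lit 9) (.e (nat_lit 336438) (nat_lit 31) (.e (nat_lit 458769) (nat_lit 16) .nil))) (.g (nat_lit 0) (.e (nat_lit 133432) (nat_lit 0) .nil) .nil)))) (.nd (nat_lit 9) 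
(.lf (nat_lit 485683) (.g (nat_lit 2028) (.e (nat_lit 24616) (nat_lit 7) (.e (nat_lit 319530) (nat_lit 16) (.e (nat_lit 286759) (nat_lit 12) (.e (nat_lit 385115) (nat_lit 53) (.e (nat_lit 811039) (nat_lit 11) .nil))))) (.g (nat_lit 0) (.e (nat_lit 133093) (nat_lit 0) .nil) .nil))) 
(.lf (nat_lit 486195) (.g (nat_lit 3129) (.e (nat_lit 24627) (nat_lit 9) (.e (nat_lit 336443) (nat_lit 32) (.e (nat_lit 466972) (nat_lit 21) (.e (nat_lit 164330) (nat_lit 230) (.e (nat_lit 163878) (nat_lit 4) (.e (nat_lit 213030) (nat_lit 11) .nil)))))) (.g (nat_lit 1) (.e (nat_lit 133725) (nat_lit 0) .nil) .nil))))) (.nd (nat_lit 8) (.nd (nat_lit 9) 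
(.lf (nat_lit 485555) (.g (nat_lit 2738) (.e (nat_lit 24609) (nat_lit 3) (.e (nat_lit 98365) (nat_lit 26) (.e (nat_lit 426306) (nat_lit 12) (.e (nat_lit 475177) (nat_lit 24) (.e (nat_lit 516127) (nat_lit 2) (.e (nat_lit 213032) (nat_lit 11) .nil)))))) (.g (nat_lit 1) (.e (nat_lit 132948) (nat_lit 0) .nil) .nil))) 
(.lf (nat_lit 486067) (.g (nat_lit 2320) (.e (nat_lit 24625) (nat_lit 9) (.e (nat_lit 336443) (nat_lit 32) (.e (nat_lit 466972) (nat_lit 21) (.e (nat_lit 164331) (nat_lit 230) (.e (nat_lit 163878) (nat_lit 4) (.e (nat_lit 213032) (nat_lit 11) .nil)))))) (.g (nat_lit 1) (.e (nat_lit 133569) (nat_lit 0) .nil) .nil)))) (.nd (nat_lit 9) 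
(.lf (nat_lit 485811) (.g (nat_lit 2250) (.e (nat_lit 24617) (nat_lit 7) (.e (nat_lit 319533) (nat_lit 16) (.e (nat_lit 286758) (nat_lit 12) (.e (nat_lit 385109) (nat_lit 51) (.e (nat_lit 794678) (nat_lit 24) .nil))))) (.g (nat_lit 0) (.e (nat_lit 133256) (nat_lit 0) .nil) .nil))) 
(.lf (nat_lit 486323) (.g (nat_lit 3356) (.e (nat_lit 24628) (nat_lit 9) (.e (nat_lit 336414) (nat_lit 27) (.e (nat_lit 426503) (nat_lit 27) (.e (nat_lit 335986) (nat_lit 1) (.e (nat_lit 57849) (nat_lit 252) (.e (nat_lit 57372) (nat_lit 2) (.e (nat_lit 90158) (nat_lit 11) .nil))))))) (.g (nat_lit 1) (.e (nat_lit 133890) (nat_lit 0) .nil) .nil)))))) 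
(.nd (nat_lit 7) (.nd (nat_lit 8) (.nd (nat_lit 9) 
(.lf (nat_lit 485491) (.g (nat_lit 3610) (.e (nat_lit 24608) (nat_lit 3) (.e (nat_lit 98373) (nat_lit 29) (.e (nat_lit 450588) (nat_lit 10) (.e (nat_lit 573457) (nat_lit 9) .nil)))) (.g (nat_lit 0) (.e (nat_lit 132861) (nat_lit 0) .nil) .nil))) 
(.lf (nat_lit 486003) (.g (nat_lit 3858) (.e (nat_lit 24624) (nat_lit 9) (.e (nat_lit 336454) (nat_lit 34) (.e (nat_lit 483365) (nat_lit 18) (.e (nat_lit 57846) (nat_lit 252) (.e (nat_lit 57372) (nat_lit 2) (.e (nat_lit 90160) (nat_lit 11) .nil)))))) (.g (nat_lit 1) (.e (nat_lit 133502) (nat_lit 0) .nil) .nil)))) (.nd (nat_lit 9) 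
(.lf (nat_lit 485747) (.g (nat_lit 1012) (.e (nat_lit 24617) (nat_lit 7) (.e (nat_lit 319531) (nat_lit 16) (.e (nat_lit 286759) (nat_lit 12) (.e (nat_lit 385094) (nat_lit 49) .nil)))) (.g (nat_lit 0) (.e (nat_lit 133177) (nat_lit 0) .nil) .nil))) 
(.lf (nat_lit 486259) (.g (nat_lit 4106) (.e (nat_lit 24627) (nat_lit 9) (.e (nat_lit 336454) (nat_lit 34) (.e (nat_lit 483365) (nat_lit 18) (.e (nat_lit 57854) (nat_lit 252) (.e (nat_lit 57373) (nat_lit 2) (.e (nat_lit 90159) (nat_lit 11) .nil)))))) (.g (nat_lit 1) (.e (nat_lit 133799) (nat_lit 0) .nil) .nil))))) (.nd (nat_lit 8) (.nd (nat_lit 9) 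
(.lf (nat_lit 485619) (.g (nat_lit 3461) (.e (nat_lit 24609) (nat_lit 3) (.e (nat_lit 98373) (nat_lit 29) (.e (nat_lit 450587) (nat_lit 10) (.e (nat_lit 573477) (nat_lit 12) (.e (nat_lit 57574) (nat_lit 55) (.e (nat_lit 778460) (nat_lit 11) .nil)))))) (.g (nat_lit 1) (.e (nat_lit 133015) (nat_lit 0) .nil) .nil))) 
(.lf (nat_lit 486131) (.g (nat_lit 5681) (.e (nat_lit 24627) (nat_lit 9) (.e (nat_lit 336324) (nat_lit 18) (.e (nat_lit 204831) (nat_lit 18) (.e (nat_lit 57852) (nat_lit 252) (.e (nat_lit 57440) (nat_lit 18) (.e (nat_lit 392960) (nat_lit 10) .nil)))))) (.g (nat_lit 1) (.e (nat_lit 133644) (nat_lit 0) .nil) .nil)))) (.nd (nat_lit 9) 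
(.lf (nat_lit 485875) (.g (nat_lit 3300) (.e (nat_lit 24617) (nat_lit 7) (.e (nat_lit 319534) (nat_lit 16) (.e (nat_lit 286756) (nat_lit 10) (.e (nat_lit 344160) (nat_lit 37) (.e (nat_lit 647190) (nat_lit 9) (.e (nat_lit 1045) (nat_lit 81) (.e (nat_lit 2346) (nat_lit 151) (.e (nat_lit 778466) (nat_lit 11) .nil)))))))) (.g (nat_lit 1) (.e (nat_lit 133337) (nat_lit 0) .nil) .nil))) 
(.lf (nat_lit 486387) (.g (nat_lit 2724) (.e (nat_lit 24628) (nat_lit 9) (.e (nat_lit 336443) (nat_lit 32) (.e (nat_lit 466971) (nat_lit 21) (.e (nat_lit 164326) (nat_lit 230) (.e (nat_lit 163879) (nat_lit 4) (.e (nat_lit 213030) (nat_lit 11) .nil)))))) (.g (nat_lit 1) (.e (nat_lit 133958) (nat_lit 0) .nil) .nil))))))))) 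
(.nd (nat_lit 4) (.nd (nat_lit 5) (.nd (nat_lit 6) (.nd (nat_lit 7) (.nd (nat_lit 8) 
(.nd (nat_lit 9) 
(.lf (nat_lit 485387) (.g (nat_lit 2467) (.e (nat_lit 24608) (nat_lit 3) (.e (nat_lit 98372) (nat_lit 29) (.e (nat_lit 450579) (nat_lit 5) (.e (nat_lit 532503) (nat_lit 1) (.e (nat_lit 57777) (nat_lit 233) (.e (nat_lit 2551) (nat_lit 159) .nil)))))) (.g (nat_lit 1) (.e (nat_lit 132746) (nat_lit 0) .nil) .nil))) 
(.lf (nat_lit 485899) (.g (nat_lit 374) (.e (nat_lit 24617) (nat_lit 7) (.e (nat_lit 319534) (nat_lit 16) (.e (nat_lit 286759) (nat_lit 12) .nil))) (.g (nat_lit 0) (.e (nat_lit 133362) (nat_lit 0) .nil) .nil)))) (.nd (nat_lit 9) 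
(.lf (nat_lit 485643) (.g (nat_lit 4739) (.e (nat_lit 24609) (nat_lit 3) (.e (nat_lit 98373) (nat_lit 29) (.e (nat_lit 450588) (nat_lit 10) (.e (nat_lit 573475) (nat_lit 12) (.e (nat_lit 57574) (nat_lit 55) (.e (nat_lit 778464) (nat_lit 11) .nil)))))) (.g (nat_lit 1) (.e (nat_lit 133039) (nat_lit 0) .nil) .nil))) 
(.lf (nat_lit 486155) (.g (nat_lit 2014) (.e (nat_lit 24627) (nat_lit 9) (.e (nat_lit 336443) (nat_lit 32) (.e (nat_lit 466969) (nat_lit 21) (.e (nat_lit 164325) (nat_lit 230) (.e (nat_lit 163880) (nat_lit 4) .nil))))) (.g (nat_lit 0) (.e (nat_lit 133685) (nat_lit 0) .nil) .nil))))) (.nd (nat_lit 8) (.nd (nat_lit 9) 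
(.lf (nat_lit 485515) (.g (nat_lit 1780) (.e (nat_lit 24608) (nat_lit 3) (.e (nat_lit 98384) (nat_lit 32) (.e (nat_lit 475211) (nat_lit 41) (.e (nat_lit 712729) (nat_lit 18) .nil)))) (.g (nat_lit 0) (.e (nat_lit 132888) (nat_lit 0) .nil) .nil))) 
(.lf (nat_lit 486027) (.g (nat_lit 4033) (.e (nat_lit 24625) (nat_lit 9) (.e (nat_lit 336324) (nat_lit 18) (.e (nat_lit 204831) (nat_lit 18) (.e (nat_lit 57847) (nat_lit 252) .nil)))) (.g (nat_lit 0) (.e (nat_lit 133527) (nat_lit 0) .nil) .nil)))) (.nd (nat_lit 9) 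
(.lf (nat_lit 485771) (.g (nat_lit 727) (.e (nat_lit 24617) (nat_lit 7) (.e (nat_lit 319533) (nat_lit 16) (.e (nat_lit 286751) (nat_lit 10) .nil))) (.g (nat_lit 0) (.e (nat_lit 133210) (nat_lit 0) .nil) .nil))) 
(.lf (nat_lit 486283) (.g (nat_lit 2207) (.e (nat_lit 24628) (nat_lit 9) (.e (nat_lit 336366) (nat_lit 27) (.e (nat_lit 426498) (nat_lit 27) (.e (nat_lit 335986) (nat_lit 1) (.e (nat_lit 57849) (nat_lit 252) (.e (nat_lit 57375) (nat_lit 2) (.e (nat_lit 90158) (nat_lit 11) .nil))))))) (.g (nat_lit 1) (.e (nat_lit 133838) (nat_lit 0) .nil) .nil)))))) 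
(.nd (nat_lit 7) (.nd (nat_lit 8) (.nd (nat_lit 9) 
(.lf (nat_lit 485451) (.g (nat_lit 3955) (.e (nat_lit 24608) (nat_lit 3) (.e (nat_lit 98373) (nat_lit 29) (.e (nat_lit 450587) (nat_lit 10) (.e (nat_lit 573475) (nat_lit 12) (.e (nat_lit 57346) (nat_lit 0) (.e (nat_lit 7410) (nat_lit 396) (.e (nat_lit 2557) (nat_lit 159) .nil))))))) (.g (nat_lit 1) (.e (nat_lit 132821) (nat_lit 0) .nil) .nil))) 
(.lf (nat_lit 485963) (.g (nat_lit 2691) (.e (nat_lit 24623) (nat_lit 9) (.e (nat_lit 336456) (nat_lit 34) (.e (nat_lit 483365) (nat_lit 18) (.e (nat_lit 57848) (nat_lit 252) (.e (nat_lit 57372) (nat_lit 2) (.e (nat_lit 90160) (nat_lit 11) .nil)))))) (.g (nat_lit 1) (.e (nat_lit 133457) (nat_lit 0) .nil) .nil)))) (.nd (nat_lit 9) 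
(.lf (nat_lit 485707) (.g (nat_lit 2228) (.e (nat_lit 24617) (nat_lit 7) (.e (nat_lit 319528) (nat_lit 16) (.e (nat_lit 286759) (nat_lit 12) (.e (nat_lit 385109) (nat_lit 51) (.e (nat_lit 794676) (nat_lit 24) .nil))))) (.g (nat_lit 0) (.e (nat_lit 133133) (nat_lit 0) .nil) .nil))) 
(.lf (nat_lit 486219) (.g (nat_lit 3464) (.e (nat_lit 24627) (nat_lit 9) (.e (nat_lit 336454) (nat_lit 34) (.e (nat_lit 483363) (nat_lit 18) (.e (nat_lit 57847) (nat_lit 252) (.e (nat_lit 57375) (nat_lit 2) (.e (nat_lit 90157) (nat_lit 11) .nil)))))) (.g (nat_lit 1) (.e (nat_lit 133759) (nat_lit 0) .nil) .nil))))) (.nd (nat_lit 8) (.nd (nat_lit 9) 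
(.lf (nat_lit 485579) (.g (nat_lit 1137) (.e (nat_lit 24609) (nat_lit 3) (.e (nat_lit 98372) (nat_lit 29) (.e (nat_lit 450586) (nat_lit 10) (.e (nat_lit 573452) (nat_lit 9) .nil)))) (.g (nat_lit 0) (.e (nat_lit 132972) (nat_lit 0) .nil) .nil))) 
(.lf (nat_lit 486091) (.g (nat_lit 2299) (.e (nat_lit 24626) (nat_lit 9) (.e (nat_lit 336443) (nat_lit 32) (.e (nat_lit 466969) (nat_lit 21) (.e (nat_lit 164325) (nat_lit 230) (.e (nat_lit 163880) (nat_lit 4) .nil))))) (.g (nat_lit 0) (.e (nat_lit 133596) (nat_lit 0) .nil) .nil)))) (.nd (nat_lit 9) 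
(.lf (nat_lit 485835) (.g (nat_lit 1897) (.e (nat_lit 24617) (nat_lit 7) (.e (nat_lit 319534) (nat_lit 16) (.e (nat_lit 286749) (nat_lit 9) (.e (nat_lit 335997) (nat_lit 1) (.e (nat_lit 57853) (nat_lit 252) (.e (nat_lit 65280) (nat_lit 65) (.e (nat_lit 213030) (nat_lit 11) .nil))))))) (.g (nat_lit 1) (.e (nat_lit 133291) (nat_lit 0) .nil) .nil))) 
(.lf (nat_lit 486347) (.g (nat_lit 3214) (.e (nat_lit 24628) (nat_lit 9) (.e (nat_lit 336443) (nat_lit 32) (.e (nat_lit 466969) (nat_lit 21) (.e (nat_lit 164327) (nat_lit 230) (.e (nat_lit 163877) (nat_lit 4) (.e (nat_lit 213032) (nat_lit 11) .nil)))))) (.g (nat_lit 1) (.e (nat_lit 133918) (nat_lit 0) .nil) .nil))))))) (.nd (nat_lit 6) (.nd (nat_lit 7) (.nd (nat_lit 8) (.nd (nat_lit 9) 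
(.lf (nat_lit 485419) (.g (nat_lit 4152) (.e (nat_lit 24608) (nat_lit 3) (.e (nat_lit 98372) (nat_lit 29) (.e (nat_lit 450588) (nat_lit 10) (.e (nat_lit 573475) (nat_lit 12) (.e (nat_lit 65280) (nat_lit 55) (.e (nat_lit 778462) (nat_lit 11) .nil)))))) (.g (nat_lit 1) (.e (nat_lit 132778) (nat_lit 0) .nil) .nil))) 
(.lf (nat_lit 485931) (.g (nat_lit 2454) (.e (nat_lit 24623) (nat_lit 9) (.e (nat_lit 336389) (nat_lit 27) (.e (nat_lit 426343) (nat_lit 14) (.e (nat_lit 491560) (nat_lit 10) (.e (nat_lit 344179) (nat_lit 44) .nil))))) (.g (nat_lit 0) (.e (nat_lit 133424) (nat_lit 0) .nil) .nil)))) (.nd (nat_lit 9) 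
(.lf (nat_lit 485675) (.g (nat_lit 1543) (.e (nat_lit 24616) (nat_lit 7) (.e (nat_lit 319530) (nat_lit 16) (.e (nat_lit 286759) (nat_lit 12) (.e (nat_lit 385111) (nat_lit 53) .nil)))) (.g (nat_lit 0) (.e (nat_lit 133085) (nat_lit 0) .nil) .nil))) 
(.lf (nat_lit 486187) (.g (nat_lit 2793) (.e (nat_lit 24627) (nat_lit 9) (.e (nat_lit 336443) (nat_lit 32) (.e (nat_lit 466971) (nat_lit 21) (.e (nat_lit 164326) (nat_lit 230) (.e (nat_lit 163882) (nat_lit 4) (.e (nat_lit 213032) (nat_lit 11) .nil)))))) (.g (nat_lit 1) (.e (nat_lit 133717) (nat_lit 0) .nil) .nil))))) (.nd (nat_lit 8) (.nd (nat_lit 9) 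
(.lf (nat_lit 485547) (.g (nat_lit 2475) (.e (nat_lit 24609) (nat_lit 3) (.e (nat_lit 98365) (nat_lit 26) (.e (nat_lit 426188) (nat_lit 9) (.e (nat_lit 426436) (nat_lit 18) (.e (nat_lit 98338) (nat_lit 19) (.e (nat_lit 213030) (nat_lit 11) .nil)))))) (.g (nat_lit 1) (.e (nat_lit 132940) (nat_lit 0) .nil) .nil))) 
(.lf (nat_lit 486059) (.g (nat_lit 3246) (.e (nat_lit 24625) (nat_lit 9) (.e (nat_lit 336443) (nat_lit 32) (.e (nat_lit 466971) (nat_lit 21) (.e (nat_lit 164327) (nat_lit 230) (.e (nat_lit 163882) (nat_lit 4) (.e (nat_lit 213032) (nat_lit 11) .nil)))))) (.g (nat_lit 1) (.e (nat_lit 133561) (nat_lit 0) .nil) .nil)))) (.nd (nat_lit 9) 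
(.lf (nat_lit 485803) (.g (nat_lit 2253) (.e (nat_lit 24617) (nat_lit 7) (.e (nat_lit 319533) (nat_lit 16) (.e (nat_lit 286753) (nat_lit 10) (.e (nat_lit 344161) (nat_lit 37) (.e (nat_lit 647201) (nat_lit 12) (.e (nat_lit 57575) (nat_lit 55) (.e (nat_lit 778464) (nat_lit 11) .nil))))))) (.g (nat_lit 1) (.e (nat_lit 133244) (nat_lit 0) .nil) .nil))) 
(.lf (nat_lit 486315) (.g (nat_lit 4090) (.e (nat_lit 24628) (nat_lit 9) (.e (nat_lit 336369) (nat_lit 27) (.e (nat_lit 426499) (nat_lit 27) (.e (nat_lit 335986) (nat_lit 1) (.e (nat_lit 57847) (nat_lit 252) (.e (nat_lit 57370) (nat_lit 2) (.e (nat_lit 90158) (nat_lit 11) .nil))))))) (.g (nat_lit 1) (.e (nat_lit 133873) (nat_lit 0) .nil) .nil)))))) 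
(.nd (nat_lit 7) (.nd (nat_lit 8) (.nd (nat_lit 9) 
(.lf (nat_lit 485483) (.g (nat_lit 4131) (.e (nat_lit 24608) (nat_lit 3) (.e (nat_lit 98373) (nat_lit 29) (.e (nat_lit 450587) (nat_lit 10) (.e (nat_lit 573478) (nat_lit 12) (.e (nat_lit 57574) (nat_lit 55) (.e (nat_lit 786176) (nat_lit 11) .nil)))))) (.g (nat_lit 1) (.e (nat_lit 132853) (nat_lit 0) .nil) .nil))) 
(.lf (nat_lit 485995) (.g (nat_lit 3648) (.e (nat_lit 24624) (nat_lit 9) (.e (nat_lit 336454) (nat_lit 34) (.e (nat_lit 483363) (nat_lit 18) (.e (nat_lit 57854) (nat_lit 252) (.e (nat_lit 57373) (nat_lit 2) (.e (nat_lit 90160) (nat_lit 11) .nil)))))) (.g (nat_lit 1) (.e (nat_lit 133494) (nat_lit 0) .nil) .nil)))) (.nd (nat_lit 9) 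
(.lf (nat_lit 485739) (.g (nat_lit 929) (.e (nat_lit 24617) (nat_lit 7) (.e (nat_lit 319531) (nat_lit 16) (.e (nat_lit 286727) (nat_lit 0) .nil))) (.g (nat_lit 0) (.e (nat_lit 133169) (nat_lit 0) .nil) .nil))) 
(.lf (nat_lit 486251) (.g (nat_lit 2432) (.e (nat_lit 24627) (nat_lit 9) (.e (nat_lit 336454) (nat_lit 34) (.e (nat_lit 483365) (nat_lit 18) (.e (nat_lit 57849) (nat_lit 252) (.e (nat_lit 57371) (nat_lit 2) (.e (nat_lit 90159) (nat_lit 11) .nil)))))) (.g (nat_lit 1) (.e (nat_lit 133791) (nat_lit 0) .nil) .nil))))) (.nd (nat_lit 8) (.nd (nat_lit 9) 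
(.lf (nat_lit 485611) (.g (nat_lit 2500) (.e (nat_lit 24609) (nat_lit 3) (.e (nat_lit 98373) (nat_lit 29) (.e (nat_lit 450587) (nat_lit 10) (.e (nat_lit 573475) (nat_lit 12) (.e (nat_lit 57346) (nat_lit 0) (.e (nat_lit 7461) (nat_lit 396) (.e (nat_lit 2554) (nat_lit 159) .nil))))))) (.g (nat_lit 1) (.e (nat_lit 133007) (nat_lit 0) .nil) .nil))) 
(.lf (nat_lit 486123) (.g (nat_lit 4643) (.e (nat_lit 24627) (nat_lit 9) (.e (nat_lit 336324) (nat_lit 18) (.e (nat_lit 204831) (nat_lit 18) (.e (nat_lit 57847) (nat_lit 252) (.e (nat_lit 57440) (nat_lit 18) .nil))))) (.g (nat_lit 0) (.e (nat_lit 133636) (nat_lit 0) .nil) .nil)))) (.nd (nat_lit 9) 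
(.lf (nat_lit 485867) (.g (nat_lit 1827) (.e (nat_lit 24617) (nat_lit 7) (.e (nat_lit 319534) (nat_lit 16) (.e (nat_lit 286756) (nat_lit 10) (.e (nat_lit 344160) (nat_lit 37) (.e (nat_lit 647188) (nat_lit 9) .nil))))) (.g (nat_lit 0) (.e (nat_lit 133329) (nat_lit 0) .nil) .nil))) 
(.lf (nat_lit 486379) (.g (nat_lit 2141) (.e (nat_lit 24628) (nat_lit 9) (.e (nat_lit 336443) (nat_lit 32) (.e (nat_lit 466971) (nat_lit 21) (.e (nat_lit 164325) (nat_lit 230) (.e (nat_lit 163849) (nat_lit 0) (.e (nat_lit 3617) (nat_lit 227) (.e (nat_lit 778462) (nat_lit 11) .nil))))))) (.g (nat_lit 1) (.e (nat_lit 133950) (nat_lit 0) .nil) .nil)))))))) 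
(.nd (nat_lit 5) (.nd (nat_lit 6) (.nd (nat_lit 7) (.nd (nat_lit 8) (.nd (nat_lit 9) 
(.lf (nat_lit 485403) (.g (nat_lit 2244) (.e (nat_lit 24608) (nat_lit 3) (.e (nat_lit 98372) (nat_lit 29) (.e (nat_lit 450586) (nat_lit 10) (.e (nat_lit 573477) (nat_lit 12) (.e (nat_lit 65280) (nat_lit 55) (.e (nat_lit 778462) (nat_lit 11) .nil)))))) (.g (nat_lit 1) (.e (nat_lit 132762) (nat_lit 0) .nil) .nil))) 
(.lf (nat_lit 485915) (.g (nat_lit 2001) (.e (nat_lit 24617) (nat_lit 7) (.e (nat_lit 319534) (nat_lit 16) (.e (nat_lit 286759) (nat_lit 12) (.e (nat_lit 385115) (nat_lit 53) (.e (nat_lit 811045) (nat_lit 14) (.e (nat_lit 40993) (nat_lit 11) .nil)))))) (.g (nat_lit 1) (.e (nat_lit 133383) (nat_lit 0) .nil) .nil)))) (.nd (nat_lit 9) 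
(.lf (nat_lit 485659) (.g (nat_lit 1809) (.e (nat_lit 32512) (nat_lit 3) (.e (nat_lit 98372) (nat_lit 29) (.e (nat_lit 450586) (nat_lit 10) (.e (nat_lit 573477) (nat_lit 12) (.e (nat_lit 57575) (nat_lit 55) .nil))))) (.g (nat_lit 0) (.e (nat_lit 133057) (nat_lit 0) .nil) .nil))) 
(.lf (nat_lit 486171) (.g (nat_lit 1080) (.e (nat_lit 24627) (nat_lit 9) (.e (nat_lit 336443) (nat_lit 32) (.e (nat_lit 466969) (nat_lit 21) (.e (nat_lit 164332) (nat_lit 230) .nil)))) (.g (nat_lit 0) (.e (nat_lit 133701) (nat_lit 0) .nil) .nil))))) (.nd (nat_lit 8) (.nd (nat_lit 9) 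
(.lf (nat_lit 485531) (.g (nat_lit 858) (.e (nat_lit 24609) (nat_lit 3) (.e (nat_lit 98358) (nat_lit 26) (.e (nat_lit 426227) (nat_lit 9) (.e (nat_lit 433920) (nat_lit 18) .nil)))) (.g (nat_lit 0) (.e (nat_lit 132908) (nat_lit 0) .nil) .nil))) 
(.lf (nat_lit 486043) (.g (nat_lit 2394) (.e (nat_lit 24625) (nat_lit 9) (.e (nat_lit 336443) (nat_lit 32) (.e (nat_lit 466969) (nat_lit 21) (.e (nat_lit 164327) (nat_lit 230) (.e (nat_lit 163882) (nat_lit 4) (.e (nat_lit 213031) (nat_lit 11) .nil)))))) (.g (nat_lit 1) (.e (nat_lit 133545) (nat_lit 0) .nil) .nil)))) (.nd (nat_lit 9) 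
(.lf (nat_lit 485787) (.g (nat_lit 2259) (.e (nat_lit 24617) (nat_lit 7) (.e (nat_lit 319533) (nat_lit 16) (.e (nat_lit 286753) (nat_lit 10) (.e (nat_lit 344169) (nat_lit 40) (.e (nat_lit 671780) (nat_lit 12) (.e (nat_lit 171776) (nat_lit 55) (.e (nat_lit 778466) (nat_lit 11) .nil))))))) (.g (nat_lit 1) (.e (nat_lit 133228) (nat_lit 0) .nil) .nil))) 
(.lf (nat_lit 486299) (.g (nat_lit 3299) (.e (nat_lit 24628) (nat_lit 9) (.e (nat_lit 336368) (nat_lit 27) (.e (nat_lit 426499) (nat_lit 27) (.e (nat_lit 335986) (nat_lit 1) (.e (nat_lit 57847) (nat_lit 252) (.e (nat_lit 57372) (nat_lit 2) (.e (nat_lit 90160) (nat_lit 11) .nil))))))) (.g (nat_lit 1) (.e (nat_lit 133854) (nat_lit 0) .nil) .nil)))))) 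
(.nd (nat_lit 7) (.nd (nat_lit 8) (.nd (nat_lit 9) 
(.lf (nat_lit 485467) (.g (nat_lit 4602) (.e (nat_lit 24608) (nat_lit 3) (.e (nat_lit 98373) (nat_lit 29) (.e (nat_lit 450587) (nat_lit 10) (.e (nat_lit 573475) (nat_lit 12) (.e (nat_lit 57574) (nat_lit 55) (.e (nat_lit 778464) (nat_lit 11) .nil)))))) (.g (nat_lit 1) (.e (nat_lit 132837) (nat_lit 0) .nil) .nil))) 
(.lf (nat_lit 485979) (.g (nat_lit 2431) (.e (nat_lit 24624) (nat_lit 9) (.e (nat_lit 336443) (nat_lit 32) (.e (nat_lit 466969) (nat_lit 21) (.e (nat_lit 164331) (nat_lit 230) (.e (nat_lit 163878) (nat_lit 4) .nil))))) (.g (nat_lit 0) (.e (nat_lit 133478) (nat_lit 0) .nil) .nil)))) (.nd (nat_lit 9) 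
(.lf (nat_lit 485723) (.g (nat_lit 2197) (.e (nat_lit 24617) (nat_lit 7) (.e (nat_lit 319529) (nat_lit 16) (.e (nat_lit 286759) (nat_lit 12) (.e (nat_lit 385115) (nat_lit 53) (.e (nat_lit 811033) (nat_lit 11) (.e (nat_lit 883) (nat_lit 75) (.e (nat_lit 778464) (nat_lit 11) .nil))))))) (.g (nat_lit 1) (.e (nat_lit 133152) (nat_lit 0) .nil) .nil))) 
(.lf (nat_lit 486235) (.g (nat_lit 4001) (.e (nat_lit 24627) (nat_lit 9) (.e (nat_lit 336454) (nat_lit 34) (.e (nat_lit 483364) (nat_lit 18) (.e (nat_lit 57854) (nat_lit 252) (.e (nat_lit 57373) (nat_lit 2) (.e (nat_lit 90160) (nat_lit 11) .nil)))))) (.g (nat_lit 1) (.e (nat_lit 133775) (nat_lit 0) .nil) .nil))))) (.nd (nat_lit 8) (.nd (nat_lit 9) 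
(.lf (nat_lit 485595) (.g (nat_lit 2764) (.e (nat_lit 24609) (nat_lit 3) (.e (nat_lit 98372) (nat_lit 29) (.e (nat_lit 450586) (nat_lit 10) (.e (nat_lit 573478) (nat_lit 12) (.e (nat_lit 57574) (nat_lit 55) (.e (nat_lit 778465) (nat_lit 11) .nil)))))) (.g (nat_lit 1) (.e (nat_lit 132988) (nat_lit 0) .nil) .nil))) 
(.lf (nat_lit 486107) (.g (nat_lit 2875) (.e (nat_lit 24626) (nat_lit 9) (.e (nat_lit 336443) (nat_lit 32) (.e (nat_lit 466972) (nat_lit 21) (.e (nat_lit 164331) (nat_lit 230) (.e (nat_lit 163878) (nat_lit 4) (.e (nat_lit 213030) (nat_lit 11) .nil)))))) (.g (nat_lit 1) (.e (nat_lit 133612) (nat_lit 0) .nil) .nil)))) (.nd (nat_lit 9) 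
(.lf (nat_lit 485851) (.g (nat_lit 1317) (.e (nat_lit 24617) (nat_lit 7) (.e (nat_lit 319534) (nat_lit 16) (.e (nat_lit 286756) (nat_lit 10) (.e (nat_lit 344168) (nat_lit 40) .nil)))) (.g (nat_lit 0) (.e (nat_lit 133311) (nat_lit 0) .nil) .nil))) 
(.lf (nat_lit 486363) (.g (nat_lit 2801) (.e (nat_lit 24628) (nat_lit 9) (.e (nat_lit 336443) (nat_lit 32) (.e (nat_lit 466969) (nat_lit 21) (.e (nat_lit 164330) (nat_lit 230) (.e (nat_lit 163878) (nat_lit 4) (.e (nat_lit 213030) (nat_lit 11) .nil)))))) (.g (nat_lit 1) (.e (nat_lit 133934) (nat_lit 0) .nil) .nil))))))) (.nd (nat_lit 6) (.nd (nat_lit 7) (.nd (nat_lit 8) (.nd (nat_lit 9) 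
(.lf (nat_lit 485435) (.g (nat_lit 2557) (.e (nat_lit 24608) (nat_lit 3) (.e (nat_lit 98373) (nat_lit 29) (.e (nat_lit 450587) (nat_lit 10) (.e (nat_lit 573475) (nat_lit 12) (.e (nat_lit 57345) (nat_lit 0) (.e (nat_lit 7397) (nat_lit 396) (.e (nat_lit 2553) (nat_lit 159) .nil))))))) (.g (nat_lit 1) (.e (nat_lit 132805) (nat_lit 0) .nil) .nil))) 
(.lf (nat_lit 485947) (.g (nat_lit 2803) (.e (nat_lit 24623) (nat_lit 9) (.e (nat_lit 336454) (nat_lit 34) (.e (nat_lit 483365) (nat_lit 18) (.e (nat_lit 57846) (nat_lit 252) (.e (nat_lit 57375) (nat_lit 2) (.e (nat_lit 90160) (nat_lit 11) .nil)))))) (.g (nat_lit 1) (.e (nat_lit 133440) (nat_lit 0) .nil) .nil)))) (.nd (nat_lit 9) 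
(.lf (nat_lit 485691) (.g (nat_lit 612) (.e (nat_lit 24616) (nat_lit 7) (.e (nat_lit 319534) (nat_lit 16) (.e (nat_lit 286756) (nat_lit 10) .nil))) (.g (nat_lit 0) (.e (nat_lit 133101) (nat_lit 0) .nil) .nil))) 
(.lf (nat_lit 486203) (.g (nat_lit 3600) (.e (nat_lit 24627) (nat_lit 9) (.e (nat_lit 336443) (nat_lit 32) (.e (nat_lit 466972) (nat_lit 21) (.e (nat_lit 164332) (nat_lit 230) (.e (nat_lit 163878) (nat_lit 4) (.e (nat_lit 213030) (nat_lit 11) .nil)))))) (.g (nat_lit 1) (.e (nat_lit 133733) (nat_lit 0) .nil) .nil))))) (.nd (nat_lit 8) (.nd (nat_lit 9) 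
(.lf (nat_lit 485563) (.g (nat_lit 1929) (.e (nat_lit 24609) (nat_lit 3) (.e (nat_lit 98365) (nat_lit 26) (.e (nat_lit 426307) (nat_lit 12) (.e (nat_lit 475177) (nat_lit 24) (.e (nat_lit 516126) (nat_lit 2) (.e (nat_lit 213032) (nat_lit 11) .nil)))))) (.g (nat_lit 1) (.e (nat_lit 132956) (nat_lit 0) .nil) .nil))) 
(.lf (nat_lit 486075) (.g (nat_lit 2482) (.e (nat_lit 24625) (nat_lit 9) (.e (nat_lit 336455) (nat_lit 34) (.e (nat_lit 483363) (nat_lit 18) (.e (nat_lit 57847) (nat_lit 252) (.e (nat_lit 57370) (nat_lit 2) (.e (nat_lit 90158) (nat_lit 11) .nil)))))) (.g (nat_lit 1) (.e (nat_lit 133577) (nat_lit 0) .nil) .nil)))) (.nd (nat_lit 9) 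
(.lf (nat_lit 485819) (.g (nat_lit 1311) (.e (nat_lit 24617) (nat_lit 7) (.e (nat_lit 319533) (nat_lit 16) (.e (nat_lit 286759) (nat_lit 12) (.e (nat_lit 385113) (nat_lit 53) .nil)))) (.g (nat_lit 0) (.e (nat_lit 133266) (nat_lit 0) .nil) .nil))) 
(.lf (nat_lit 486331) (.g (nat_lit 3525) (.e (nat_lit 24628) (nat_lit 9) (.e (nat_lit 336443) (nat_lit 32) (.e (nat_lit 466969) (nat_lit 21) (.e (nat_lit 164305) (nat_lit 226) (.e (nat_lit 2612) (nat_lit 163) (.e (nat_lit 164048) (nat_lit 55) (.e (nat_lit 778469) (nat_lit 11) .nil))))))) (.g (nat_lit 1) (.e (nat_lit 133902) (nat_lit 0) .nil) .nil)))))) 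
(.nd (nat_lit 7) (.nd (nat_lit 8) (.nd (nat_lit 9) 
(.lf (nat_lit 485499) (.g (nat_lit 2618) (.e (nat_lit 24608) (nat_lit 3) (.e (nat_lit 98373) (nat_lit 29) (.e (nat_lit 450588) (nat_lit 10) (.e (nat_lit 573475) (nat_lit 12) (.e (nat_lit 57347) (nat_lit 0) .nil))))) (.g (nat_lit 0) (.e (nat_lit 132869) (nat_lit 0) .nil) .nil))) 
(.lf (nat_lit 486011) (.g (nat_lit 3093) (.e (nat_lit 24624) (nat_lit 9) (.e (nat_lit 336455) (nat_lit 34) (.e (nat_lit 483363) (nat_lit 18) (.e (nat_lit 57847) (nat_lit 252) (.e (nat_lit 57372) (nat_lit 2) (.e (nat_lit 90160) (nat_lit 11) .nil)))))) (.g (nat_lit 1) (.e (nat_lit 133511) (nat_lit 0) .nil) .nil)))) (.nd (nat_lit 9) 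
(.lf (nat_lit 485755) (.g (nat_lit 2100) (.e (nat_lit 24617) (nat_lit 7) (.e (nat_lit 319531) (nat_lit 16) (.e (nat_lit 286759) (nat_lit 12) (.e (nat_lit 385107) (nat_lit 51) (.e (nat_lit 794679) (nat_lit 24) (.e (nat_lit 213030) (nat_lit 11) .nil)))))) (.g (nat_lit 1) (.e (nat_lit 133191) (nat_lit 0) .nil) .nil))) 
(.lf (nat_lit 486267) (.g (nat_lit 2724) (.e (nat_lit 24628) (nat_lit 9) (.e (nat_lit 336019) (nat_lit 3) (.e (nat_lit 98384) (nat_lit 32) (.e (nat_lit 475219) (nat_lit 44) (.e (nat_lit 737316) (nat_lit 13) (.e (nat_lit 32803) (nat_lit 16) .nil)))))) (.g (nat_lit 1) (.e (nat_lit 133818) (nat_lit 0) .nil) .nil))))) (.nd (nat_lit 8) (.nd (nat_lit 9) 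
(.lf (nat_lit 485627) (.g (nat_lit 3069) (.e (nat_lit 24609) (nat_lit 3) (.e (nat_lit 98373) (nat_lit 29) (.e (nat_lit 450587) (nat_lit 10) (.e (nat_lit 573477) (nat_lit 12) (.e (nat_lit 57575) (nat_lit 55) (.e (nat_lit 786176) (nat_lit 11) .nil)))))) (.g (nat_lit 1) (.e (nat_lit 133023) (nat_lit 0) .nil) .nil))) 
(.lf (nat_lit 486139) (.g (nat_lit 1264) (.e (nat_lit 24627) (nat_lit 9) (.e (nat_lit 336366) (nat_lit 27) (.e (nat_lit 426499) (nat_lit 27) (.e (nat_lit 335995) (nat_lit 1) .nil)))) (.g (nat_lit 0) (.e (nat_lit 133664) (nat_lit 0) .nil) .nil)))) (.nd (nat_lit 9) 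
(.lf (nat_lit 485883) (.g (nat_lit 3351) (.e (nat_lit 24617) (nat_lit 7) (.e (nat_lit 319534) (nat_lit 16) (.e (nat_lit 286756) (nat_lit 10) (.e (nat_lit 344160) (nat_lit 37) (.e (nat_lit 647195) (nat_lit 9) (.e (nat_lit 1012) (nat_lit 81) (.e (nat_lit 2350) (nat_lit 151) (.e (nat_lit 778464) (nat_lit 11) .nil)))))))) (.g (nat_lit 1) (.e (nat_lit 133345) (nat_lit 0) .nil) .nil))) 
(.lf (nat_lit 486395) (.g (nat_lit 3094) (.e (nat_lit 24628) (nat_lit 9) (.e (nat_lit 336443) (nat_lit 32) (.e (nat_lit 466971) (nat_lit 21) (.e (nat_lit 164327) (nat_lit 230) (.e (nat_lit 163882) (nat_lit 4) (.e (nat_lit 213031) (nat_lit 11) .nil)))))) (.g (nat_lit 1) (.e (nat_lit 133966) (nat_lit 0) .nil) .nil)))))))))) 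
(.nd (nat_lit 3) (.nd (nat_lit 4) (.nd (nat_lit 5) (.nd (nat_lit 6) (.nd (nat_lit 7) 
(.nd (nat_lit 8) (.nd (nat_lit 9) 
(.lf (nat_lit 485383) (.g (nat_lit 2695) (.e (nat_lit 24608) (nat_lit 3) (.e (nat_lit 98370) (nat_lit 28) (.e (nat_lit 442374) (nat_lit 0) (.e (nat_lit 1800) (nat_lit 119) (.e (nat_lit 516126) (nat_lit 2) (.e (nat_lit 213032) (nat_lit 11) .nil)))))) (.g (nat_lit 1) (.e (nat_lit 132741) (nat_lit 0) .nil) .nil))) 
(.lf (nat_lit 485895) (.g (nat_lit 3311) (.e (nat_lit 24617) (nat_lit 7) (.e (nat_lit 319534) (nat_lit 16) (.e (nat_lit 286756) (nat_lit 10) (.e (nat_lit 344160) (nat_lit 37) (.e (nat_lit 647203) (nat_lit 14) (.e (nat_lit 2508) (nat_lit 157) (.e (nat_lit 879) (nat_lit 75) (.e (nat_lit 778464) (nat_lit 11) .nil)))))))) (.g (nat_lit 1) (.e (nat_lit 133357) (nat_lit 0) .nil) .nil)))) 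
(.nd (nat_lit 9) 
(.lf (nat_lit 485639) (.g (nat_lit 4002) (.e (nat_lit 24609) (nat_lit 3) (.e (nat_lit 98373) (nat_lit 29) (.e (nat_lit 450588) (nat_lit 10) (.e (nat_lit 573474) (nat_lit 12) .nil)))) (.g (nat_lit 0) (.e (nat_lit 133035) (nat_lit 0) .nil) .nil))) 
(.lf (nat_lit 486151) (.g (nat_lit 423) (.e (nat_lit 24627) (nat_lit 9) (.e (nat_lit 336443) (nat_lit 32) (.e (nat_lit 466969) (nat_lit 21) .nil))) (.g (nat_lit 0) (.e (nat_lit 133681) (nat_lit 0) .nil) .nil))))) (.nd (nat_lit 8) (.nd (nat_lit 9) 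
(.lf (nat_lit 485511) (.g (nat_lit 3816) (.e (nat_lit 24608) (nat_lit 3) (.e (nat_lit 98374) (nat_lit 29) (.e (nat_lit 450586) (nat_lit 10) (.e (nat_lit 573475) (nat_lit 12) (.e (nat_lit 57574) (nat_lit 55) (.e (nat_lit 778466) (nat_lit 11) .nil)))))) (.g (nat_lit 1) (.e (nat_lit 132882) (nat_lit 0) .nil) .nil))) 
(.lf (nat_lit 486023) (.g (nat_lit 2856) (.e (nat_lit 24624) (nat_lit 9) (.e (nat_lit 336456) (nat_lit 34) (.e (nat_lit 483365) (nat_lit 18) (.e (nat_lit 57851) (nat_lit 252) (.e (nat_lit 57371) (nat_lit 2) (.e (nat_lit 90160) (nat_lit 11) .nil)))))) (.g (nat_lit 1) (.e (nat_lit 133523) (nat_lit 0) .nil) .nil)))) (.nd (nat_lit 9) 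
(.lf (nat_lit 485767) (.g (nat_lit 2234) (.e (nat_lit 24617) (nat_lit 7) (.e (nat_lit 319532) (nat_lit 16) (.e (nat_lit 286759) (nat_lit 12) (.e (nat_lit 385107) (nat_lit 51) (.e (nat_lit 794676) (nat_lit 24) (.e (nat_lit 213030) (nat_lit 11) .nil)))))) (.g (nat_lit 1) (.e (nat_lit 133204) (nat_lit 0) .nil) .nil))) 
(.lf (nat_lit 486279) (.g (nat_lit 598) (.e (nat_lit 24628) (nat_lit 9) (.e (nat_lit 336336) (nat_lit 20) (.e (nat_lit 229120) (nat_lit 5) .nil))) (.g (nat_lit 0) (.e (nat_lit 133834) (nat_lit 0) .nil) .nil)))))) (.nd (nat_lit 7) (.nd (nat_lit 8) (.nd (nat_lit 9) 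
(.lf (nat_lit 485447) (.g (nat_lit 4048) (.e (nat_lit 24608) (nat_lit 3) (.e (nat_lit 98373) (nat_lit 29) (.e (nat_lit 450587) (nat_lit 10) (.e (nat_lit 573475) (nat_lit 12) (.e (nat_lit 57346) (nat_lit 0) (.e (nat_lit 7408) (nat_lit 396) (.e (nat_lit 2559) (nat_lit 159) .nil))))))) (.g (nat_lit 1) (.e (nat_lit 132817) (nat_lit 0) .nil) .nil))) 
(.lf (nat_lit 485959) (.g (nat_lit 3663) (.e (nat_lit 24623) (nat_lit 9) (.e (nat_lit 336456) (nat_lit 34) (.e (nat_lit 483364) (nat_lit 18) (.e (nat_lit 57854) (nat_lit 252) (.e (nat_lit 57373) (nat_lit 2) (.e (nat_lit 90160) (nat_lit 11) .nil)))))) (.g (nat_lit 1) (.e (nat_lit 133453) (nat_lit 0) .nil) .nil)))) (.nd (nat_lit 9) 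
(.lf (nat_lit 485703) (.g (nat_lit 2445) (.e (nat_lit 24617) (nat_lit 7) (.e (nat_lit 319528) (nat_lit 16) (.e (nat_lit 286759) (nat_lit 12) (.e (nat_lit 385107) (nat_lit 51) (.e (nat_lit 794675) (nat_lit 24) (.e (nat_lit 213030) (nat_lit 11) .nil)))))) (.g (nat_lit 1) (.e (nat_lit 133129) (nat_lit 0) .nil) .nil))) 
(.lf (nat_lit 486215) (.g (nat_lit 3455) (.e (nat_lit 24627) (nat_lit 9) (.e (nat_lit 336454) (nat_lit 34) (.e (nat_lit 483363) (nat_lit 18) (.e (nat_lit 57847) (nat_lit 252) (.e (nat_lit 57373) (nat_lit 2) (.e (nat_lit 90160) (nat_lit 11) .nil)))))) (.g (nat_lit 1) (.e (nat_lit 133755) (nat_lit 0) .nil) .nil))))) (.nd (nat_lit 8) (.nd (nat_lit 9) 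
(.lf (nat_lit 485575) (.g (nat_lit 2003) (.e (nat_lit 24609) (nat_lit 3) (.e (nat_lit 98372) (nat_lit 29) (.e (nat_lit 450579) (nat_lit 5) (.e (nat_lit 532503) (nat_lit 1) (.e (nat_lit 65280) (nat_lit 233) .nil))))) (.g (nat_lit 0) (.e (nat_lit 132968) (nat_lit 0) .nil) .nil))) 
(.lf (nat_lit 486087) (.g (nat_lit 4802) (.e (nat_lit 24626) (nat_lit 9) (.e (nat_lit 336324) (nat_lit 18) (.e (nat_lit 204831) (nat_lit 18) (.e (nat_lit 57849) (nat_lit 252) .nil)))) (.g (nat_lit 0) (.e (nat_lit 133592) (nat_lit 0) .nil) .nil)))) (.nd (nat_lit 9) 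
(.lf (nat_lit 485831) (.g (nat_lit 2988) (.e (nat_lit 24617) (nat_lit 7) (.e (nat_lit 319534) (nat_lit 16) (.e (nat_lit 286749) (nat_lit 9) (.e (nat_lit 335907) (nat_lit 0) (.e (nat_lit 1994) (nat_lit 137) (.e (nat_lit 663574) (nat_lit 9) (.e (nat_lit 2749) (nat_lit 175) (.e (nat_lit 262165) (nat_lit 11) .nil)))))))) (.g (nat_lit 1) (.e (nat_lit 133287) (nat_lit 0) .nil) .nil))) 
(.lf (nat_lit 486343) (.g (nat_lit 3024) (.e (nat_lit 24628) (nat_lit 9) (.e (nat_lit 336443) (nat_lit 32) (.e (nat_lit 466969) (nat_lit 21) (.e (nat_lit 164326) (nat_lit 230) (.e (nat_lit 163879) (nat_lit 4) (.e (nat_lit 213032) (nat_lit 11) .nil)))))) (.g (nat_lit 1) (.e (nat_lit 133914) (nat_lit 0) .nil) .nil))))))) (.nd (nat_lit 6) (.nd (nat_lit 7) (.nd (nat_lit 8) (.nd (nat_lit 9) 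
(.lf (nat_lit 485415) (.g (nat_lit 4047) (.e (nat_lit 24608) (nat_lit 3) (.e (nat_lit 98372) (nat_lit 29) (.e (nat_lit 450588) (nat_lit 10) (.e (nat_lit 573475) (nat_lit 12) (.e (nat_lit 57574) (nat_lit 55) (.e (nat_lit 778463) (nat_lit 11) .nil)))))) (.g (nat_lit 1) (.e (nat_lit 132774) (nat_lit 0) .nil) .nil))) 
(.lf (nat_lit 485927) (.g (nat_lit 1368) (.e (nat_lit 24623) (nat_lit 9) (.e (nat_lit 336294) (nat_lit 15) (.e (nat_lit 3304) (nat_lit 202) (.e (nat_lit 573482) (nat_lit 13) (.e (nat_lit 65619) (nat_lit 10) .nil))))) (.g (nat_lit 0) (.e (nat_lit 133420) (nat_lit 0) .nil) .nil)))) (.nd (nat_lit 9) 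
(.lf (nat_lit 485671) (.g (nat_lit 3849) (.e (nat_lit 32512) (nat_lit 3) (.e (nat_lit 98373) (nat_lit 29) (.e (nat_lit 450588) (nat_lit 10) (.e (nat_lit 573478) (nat_lit 12) .nil)))) (.g (nat_lit 0) (.e (nat_lit 133069) (nat_lit 0) .nil) .nil))) 
(.lf (nat_lit 486183) (.g (nat_lit 2741) (.e (nat_lit 24627) (nat_lit 9) (.e (nat_lit 336443) (nat_lit 32) (.e (nat_lit 466971) (nat_lit 21) (.e (nat_lit 164325) (nat_lit 230) (.e (nat_lit 163881) (nat_lit 4) (.e (nat_lit 213032) (nat_lit 11) .nil)))))) (.g (nat_lit 1) (.e (nat_lit 133713) (nat_lit 0) .nil) .nil))))) (.nd (nat_lit 8) (.nd (nat_lit 9) 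
(.lf (nat_lit 485543) (.g (nat_lit 2275) (.e (nat_lit 24609) (nat_lit 3) (.e (nat_lit 98365) (nat_lit 26) (.e (nat_lit 426187) (nat_lit 9) (.e (nat_lit 426436) (nat_lit 18) (.e (nat_lit 98338) (nat_lit 19) (.e (nat_lit 213030) (nat_lit 11) .nil)))))) (.g (nat_lit 1) (.e (nat_lit 132936) (nat_lit 0) .nil) .nil))) 
(.lf (nat_lit 486055) (.g (nat_lit 3037) (.e (nat_lit 24625) (nat_lit 9) (.e (nat_lit 336443) (nat_lit 32) (.e (nat_lit 466971) (nat_lit 21) (.e (nat_lit 164325) (nat_lit 230) (.e (nat_lit 163882) (nat_lit 4) (.e (nat_lit 213032) (nat_lit 11) .nil)))))) (.g (nat_lit 1) (.e (nat_lit 133557) (nat_lit 0) .nil) .nil)))) (.nd (nat_lit 9) 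
(.lf (nat_lit 485799) (.g (nat_lit 2331) (.e (nat_lit 24617) (nat_lit 7) (.e (nat_lit 319533) (nat_lit 16) (.e (nat_lit 286753) (nat_lit 10) (.e (nat_lit 344160) (nat_lit 37) (.e (nat_lit 647201) (nat_lit 12) (.e (nat_lit 57575) (nat_lit 55) (.e (nat_lit 778463) (nat_lit 11) .nil))))))) (.g (nat_lit 1) (.e (nat_lit 133240) (nat_lit 0) .nil) .nil))) 
(.lf (nat_lit 486311) (.g (nat_lit 3606) (.e (nat_lit 24628) (nat_lit 9) (.e (nat_lit 336370) (nat_lit 27) (.e (nat_lit 426499) (nat_lit 27) (.e (nat_lit 335986) (nat_lit 1) (.e (nat_lit 57847) (nat_lit 252) (.e (nat_lit 57372) (nat_lit 2) (.e (nat_lit 90160) (nat_lit 11) .nil))))))) (.g (nat_lit 1) (.e (nat_lit 133867) (nat_lit 0) .nil) .nil)))))) 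
(.nd (nat_lit 7) (.nd (nat_lit 8) (.nd (nat_lit 9) 
(.lf (nat_lit 485479) (.g (nat_lit 4219) (.e (nat_lit 24608) (nat_lit 3) (.e (nat_lit 98373) (nat_lit 29) (.e (nat_lit 450587) (nat_lit 10) (.e (nat_lit 573477) (nat_lit 12) (.e (nat_lit 57575) (nat_lit 55) (.e (nat_lit 786176) (nat_lit 11) .nil)))))) (.g (nat_lit 1) (.e (nat_lit 132849) (nat_lit 0) .nil) .nil))) 
(.lf (nat_lit 485991) (.g (nat_lit 3566) (.e (nat_lit 24624) (nat_lit 9) (.e (nat_lit 336452) (nat_lit 34) (.e (nat_lit 483363) (nat_lit 18) (.e (nat_lit 57854) (nat_lit 252) (.e (nat_lit 57373) (nat_lit 2) (.e (nat_lit 90160) (nat_lit 11) .nil)))))) (.g (nat_lit 1) (.e (nat_lit 133490) (nat_lit 0) .nil) .nil)))) (.nd (nat_lit 9) 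
(.lf (nat_lit 485735) (.g (nat_lit 2521) (.e (nat_lit 24617) (nat_lit 7) (.e (nat_lit 319530) (nat_lit 16) (.e (nat_lit 286759) (nat_lit 12) (.e (nat_lit 385107) (nat_lit 51) (.e (nat_lit 794679) (nat_lit 24) (.e (nat_lit 213030) (nat_lit 11) .nil)))))) (.g (nat_lit 1) (.e (nat_lit 133165) (nat_lit 0) .nil) .nil))) 
(.lf (nat_lit 486247) (.g (nat_lit 2415) (.e (nat_lit 24627) (nat_lit 9) (.e (nat_lit 336454) (nat_lit 34) (.e (nat_lit 483365) (nat_lit 18) (.e (nat_lit 57847) (nat_lit 252) (.e (nat_lit 57374) (nat_lit 2) (.e (nat_lit 90160) (nat_lit 11) .nil)))))) (.g (nat_lit 1) (.e (nat_lit 133787) (nat_lit 0) .nil) .nil))))) (.nd (nat_lit 8) (.nd (nat_lit 9) 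
(.lf (nat_lit 485607) (.g (nat_lit 2387) (.e (nat_lit 24609) (nat_lit 3) (.e (nat_lit 98373) (nat_lit 29) (.e (nat_lit 450587) (nat_lit 10) (.e (nat_lit 573475) (nat_lit 12) (.e (nat_lit 57346) (nat_lit 0) (.e (nat_lit 7409) (nat_lit 396) (.e (nat_lit 2553) (nat_lit 159) .nil))))))) (.g (nat_lit 1) (.e (nat_lit 133003) (nat_lit 0) .nil) .nil))) 
(.lf (nat_lit 486119) (.g (nat_lit 2738) (.e (nat_lit 24627) (nat_lit 9) (.e (nat_lit 336324) (nat_lit 18) (.e (nat_lit 204830) (nat_lit 18) (.e (nat_lit 57852) (nat_lit 252) (.e (nat_lit 57442) (nat_lit 18) (.e (nat_lit 392960) (nat_lit 10) .nil)))))) (.g (nat_lit 1) (.e (nat_lit 133630) (nat_lit 0) .nil) .nil)))) (.nd (nat_lit 9) 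
(.lf (nat_lit 485863) (.g (nat_lit 2493) (.e (nat_lit 24617) (nat_lit 7) (.e (nat_lit 319534) (nat_lit 16) (.e (nat_lit 286756) (nat_lit 10) (.e (nat_lit 344169) (nat_lit 40) (.e (nat_lit 679680) (nat_lit 15) (.e (nat_lit 57611) (nat_lit 116) (.e (nat_lit 778464) (nat_lit 11) .nil))))))) (.g (nat_lit 1) (.e (nat_lit 133325) (nat_lit 0) .nil) .nil))) 
(.lf (nat_lit 486375) (.g (nat_lit 3178) (.e (nat_lit 24628) (nat_lit 9) (.e (nat_lit 336443) (nat_lit 32) (.e (nat_lit 466971) (nat_lit 21) (.e (nat_lit 164322) (nat_lit 230) (.e (nat_lit 163878) (nat_lit 4) (.e (nat_lit 213030) (nat_lit 11) .nil)))))) (.g (nat_lit 1) (.e (nat_lit 133946) (nat_lit 0) .nil) .nil)))))))) 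
(.nd (nat_lit 5) (.nd (nat_lit 6) (.nd (nat_lit 7) (.nd (nat_lit 8) (.nd (nat_lit 9) 
(.lf (nat_lit 485399) (.g (nat_lit 3811) (.e (nat_lit 24608) (nat_lit 3) (.e (nat_lit 98372) (nat_lit 29) (.e (nat_lit 450586) (nat_lit 10) (.e (nat_lit 573477) (nat_lit 12) (.e (nat_lit 57575) (nat_lit 55) (.e (nat_lit 778460) (nat_lit 11) .nil)))))) (.g (nat_lit 1) (.e (nat_lit 132758) (nat_lit 0) .nil) .nil))) 
(.lf (nat_lit 485911) (.g (nat_lit 2328) (.e (nat_lit 24617) (nat_lit 7) (.e (nat_lit 319534) (nat_lit 16) (.e (nat_lit 286759) (nat_lit 12) (.e (nat_lit 385115) (nat_lit 53) (.e (nat_lit 811033) (nat_lit 11) (.e (nat_lit 883) (nat_lit 75) (.e (nat_lit 778464) (nat_lit 11) .nil))))))) (.g (nat_lit 1) (.e (nat_lit 133379) (nat_lit 0) .nil) .nil)))) (.nd (nat_lit 9) 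
(.lf (nat_lit 485655) (.g (nat_lit 1628) (.e (nat_lit 24609) (nat_lit 3) (.e (nat_lit 98387) (nat_lit 33) (.e (nat_lit 491566) (nat_lit 12) (.e (nat_lit 385068) (nat_lit 26) .nil)))) (.g (nat_lit 0) (.e (nat_lit 133053) (nat_lit 0) .nil) .nil))) 
(.lf (nat_lit 486167) (.g (nat_lit 2473) (.e (nat_lit 24627) (nat_lit 9) (.e (nat_lit 336443) (nat_lit 32) (.e (nat_lit 466969) (nat_lit 21) (.e (nat_lit 164330) (nat_lit 230) (.e (nat_lit 163878) (nat_lit 4) (.e (nat_lit 213032) (nat_lit 11) .nil)))))) (.g (nat_lit 1) (.e (nat_lit 133697) (nat_lit 0) .nil) .nil))))) (.nd (nat_lit 8) (.nd (nat_lit 9) 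
(.lf (nat_lit 485527) (.g (nat_lit 1076) (.e (nat_lit 24609) (nat_lit 3) (.e (nat_lit 98358) (nat_lit 26) (.e (nat_lit 426226) (nat_lit 9) .nil))) (.g (nat_lit 0) (.e (nat_lit 132904) (nat_lit 0) .nil) .nil))) 
(.lf (nat_lit 486039) (.g (nat_lit 1889) (.e (nat_lit 24625) (nat_lit 9) (.e (nat_lit 336443) (nat_lit 32) (.e (nat_lit 466969) (nat_lit 21) (.e (nat_lit 164325) (nat_lit 230) (.e (nat_lit 163880) (nat_lit 4) .nil))))) (.g (nat_lit 0) (.e (nat_lit 133541) (nat_lit 0) .nil) .nil)))) (.nd (nat_lit 9) 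
(.lf (nat_lit 485783) (.g (nat_lit 2081) (.e (nat_lit 24617) (nat_lit 7) (.e (nat_lit 319533) (nat_lit 16) (.e (nat_lit 286753) (nat_lit 10) (.e (nat_lit 344169) (nat_lit 40) (.e (nat_lit 671780) (nat_lit 12) .nil))))) (.g (nat_lit 0) (.e (nat_lit 133224) (nat_lit 0) .nil) .nil))) 
(.lf (nat_lit 486295) (.g (nat_lit 2525) (.e (nat_lit 24628) (nat_lit 9) (.e (nat_lit 336368) (nat_lit 27) (.e (nat_lit 426501) (nat_lit 27) (.e (nat_lit 335986) (nat_lit 1) (.e (nat_lit 57849) (nat_lit 252) (.e (nat_lit 57375) (nat_lit 2) (.e (nat_lit 90158) (nat_lit 11) .nil))))))) (.g (nat_lit 1) (.e (nat_lit 133850) (nat_lit 0) .nil) .nil)))))) 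
(.nd (nat_lit 7) (.nd (nat_lit 8) (.nd (nat_lit 9) 
(.lf (nat_lit 485463) (.g (nat_lit 3413) (.e (nat_lit 24608) (nat_lit 3) (.e (nat_lit 98373) (nat_lit 29) (.e (nat_lit 450587) (nat_lit 10) (.e (nat_lit 573475) (nat_lit 12) (.e (nat_lit 57349) (nat_lit 0) (.e (nat_lit 7433) (nat_lit 396) (.e (nat_lit 2551) (nat_lit 159) .nil))))))) (.g (nat_lit 1) (.e (nat_lit 132833) (nat_lit 0) .nil) .nil))) 
(.lf (nat_lit 485975) (.g (nat_lit 2135) (.e (nat_lit 24624) (nat_lit 9) (.e (nat_lit 336443) (nat_lit 32) (.e (nat_lit 466969) (nat_lit 21) (.e (nat_lit 164326) (nat_lit 230) (.e (nat_lit 163882) (nat_lit 4) .nil))))) (.g (nat_lit 0) (.e (nat_lit 133474) (nat_lit 0) .nil) .nil)))) (.nd (nat_lit 9) 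
(.lf (nat_lit 485719) (.g (nat_lit 2390) (.e (nat_lit 24617) (nat_lit 7) (.e (nat_lit 319529) (nat_lit 16) (.e (nat_lit 286759) (nat_lit 12) (.e (nat_lit 385107) (nat_lit 51) (.e (nat_lit 794678) (nat_lit 24) (.e (nat_lit 213030) (nat_lit 11) .nil)))))) (.g (nat_lit 1) (.e (nat_lit 133147) (nat_lit 0) .nil) .nil))) 
(.lf (nat_lit 486231) (.g (nat_lit 3189) (.e (nat_lit 24627) (nat_lit 9) (.e (nat_lit 336454) (nat_lit 34) (.e (nat_lit 483364) (nat_lit 18) (.e (nat_lit 57852) (nat_lit 252) (.e (nat_lit 57371) (nat_lit 2) (.e (nat_lit 90159) (nat_lit 11) .nil)))))) (.g (nat_lit 1) (.e (nat_lit 133771) (nat_lit 0) .nil) .nil))))) (.nd (nat_lit 8) (.nd (nat_lit 9) 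
(.lf (nat_lit 485591) (.g (nat_lit 1741) (.e (nat_lit 24609) (nat_lit 3) (.e (nat_lit 98372) (nat_lit 29) (.e (nat_lit 450586) (nat_lit 10) (.e (nat_lit 573478) (nat_lit 12) (.e (nat_lit 57573) (nat_lit 55) (.e (nat_lit 778469) (nat_lit 11) .nil)))))) (.g (nat_lit 1) (.e (nat_lit 132984) (nat_lit 0) .nil) .nil))) 
(.lf (nat_lit 486103) (.g (nat_lit 2539) (.e (nat_lit 24626) (nat_lit 9) (.e (nat_lit 336443) (nat_lit 32) (.e (nat_lit 466972) (nat_lit 21) (.e (nat_lit 164322) (nat_lit 230) (.e (nat_lit 163878) (nat_lit 4) (.e (nat_lit 213030) (nat_lit 11) .nil)))))) (.g (nat_lit 1) (.e (nat_lit 133608) (nat_lit 0) .nil) .nil)))) (.nd (nat_lit 9) 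
(.lf (nat_lit 485847) (.g (nat_lit 2046) (.e (nat_lit 24617) (nat_lit 7) (.e (nat_lit 319534) (nat_lit 16) (.e (nat_lit 286756) (nat_lit 10) (.e (nat_lit 344097) (nat_lit 18) (.e (nat_lit 5202) (nat_lit 294) .nil))))) (.g (nat_lit 0) (.e (nat_lit 133307) (nat_lit 0) .nil) .nil))) 
(.lf (nat_lit 486359) (.g (nat_lit 2404) (.e (nat_lit 24628) (nat_lit 9) (.e (nat_lit 336443) (nat_lit 32) (.e (nat_lit 466969) (nat_lit 21) (.e (nat_lit 164330) (nat_lit 230) (.e (nat_lit 163850) (nat_lit 0) .nil))))) (.g (nat_lit 0) (.e (nat_lit 133930) (nat_lit 0) .nil) .nil))))))) (.nd (nat_lit 6) (.nd (nat_lit 7) (.nd (nat_lit 8) (.nd (nat_lit 9) 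
(.lf (nat_lit 485431) (.g (nat_lit 3121) (.e (nat_lit 24608) (nat_lit 3) (.e (nat_lit 98373) (nat_lit 29) (.e (nat_lit 450587) (nat_lit 10) (.e (nat_lit 573457) (nat_lit 9) (.e (nat_lit 1310) (nat_lit 98) .nil))))) (.g (nat_lit 0) (.e (nat_lit 132801) (nat_lit 0) .nil) .nil))) 
(.lf (nat_lit 485943) (.g (nat_lit 2240) (.e (nat_lit 24623) (nat_lit 9) (.e (nat_lit 336454) (nat_lit 34) (.e (nat_lit 483364) (nat_lit 18) (.e (nat_lit 57852) (nat_lit 252) (.e (nat_lit 57373) (nat_lit 2) (.e (nat_lit 90160) (nat_lit 11) .nil)))))) (.g (nat_lit 1) (.e (nat_lit 133436) (nat_lit 0) .nil) .nil)))) (.nd (nat_lit 9) 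
(.lf (nat_lit 485687) (.g (nat_lit 1924) (.e (nat_lit 24616) (nat_lit 7) (.e (nat_lit 319531) (nat_lit 16) (.e (nat_lit 286759) (nat_lit 12) (.e (nat_lit 385115) (nat_lit 53) .nil)))) (.g (nat_lit 0) (.e (nat_lit 133097) (nat_lit 0) .nil) .nil))) 
(.lf (nat_lit 486199) (.g (nat_lit 2424) (.e (nat_lit 24627) (nat_lit 9) (.e (nat_lit 336443) (nat_lit 32) (.e (nat_lit 466972) (nat_lit 21) (.e (nat_lit 164331) (nat_lit 230) (.e (nat_lit 163878) (nat_lit 4) (.e (nat_lit 213032) (nat_lit 11) .nil)))))) (.g (nat_lit 1) (.e (nat_lit 133729) (nat_lit 0) .nil) .nil))))) (.nd (nat_lit 8) (.nd (nat_lit 9) 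
(.lf (nat_lit 485559) (.g (nat_lit 2511) (.e (nat_lit 24609) (nat_lit 3) (.e (nat_lit 98365) (nat_lit 26) (.e (nat_lit 426306) (nat_lit 12) (.e (nat_lit 475179) (nat_lit 24) (.e (nat_lit 516127) (nat_lit 2) (.e (nat_lit 213030) (nat_lit 11) .nil)))))) (.g (nat_lit 1) (.e (nat_lit 132952) (nat_lit 0) .nil) .nil))) 
(.lf (nat_lit 486071) (.g (nat_lit 2099) (.e (nat_lit 24625) (nat_lit 9) (.e (nat_lit 336450) (nat_lit 33) (.e (nat_lit 475152) (nat_lit 17) (.e (nat_lit 57810) (nat_lit 246) (.e (nat_lit 57596) (nat_lit 82) (.e (nat_lit 499900) (nat_lit 7) .nil)))))) (.g (nat_lit 1) (.e (nat_lit 133573) (nat_lit 0) .nil) .nil)))) (.nd (nat_lit 9) 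
(.lf (nat_lit 485815) (.g (nat_lit 2867) (.e (nat_lit 24617) (nat_lit 7) (.e (nat_lit 319533) (nat_lit 16) (.e (nat_lit 286759) (nat_lit 12) (.e (nat_lit 385107) (nat_lit 51) (.e (nat_lit 794674) (nat_lit 24) (.e (nat_lit 213030) (nat_lit 11) .nil)))))) (.g (nat_lit 1) (.e (nat_lit 133262) (nat_lit 0) .nil) .nil))) 
(.lf (nat_lit 486327) (.g (nat_lit 1661) (.e (nat_lit 24628) (nat_lit 9) (.e (nat_lit 336438) (nat_lit 31) (.e (nat_lit 458769) (nat_lit 16) (.e (nat_lit 164292) (nat_lit 224) (.e (nat_lit 164108) (nat_lit 116) (.e (nat_lit 786176) (nat_lit 11) .nil)))))) (.g (nat_lit 1) (.e (nat_lit 133897) (nat_lit 0) .nil) .nil)))))) (.nd (nat_lit 7) (.nd (nat_lit 8) (.nd (nat_lit 9) 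
(.lf (nat_lit 485495) (.g (nat_lit 5083) (.e (nat_lit 24608) (nat_lit 3) (.e (nat_lit 98373) (nat_lit 29) (.e (nat_lit 450588) (nat_lit 10) (.e (nat_lit 573474) (nat_lit 12) (.e (nat_lit 57347) (nat_lit 0) .nil))))) (.g (nat_lit 0) (.e (nat_lit 132865) (nat_lit 0) .nil) .nil))) 
(.lf (nat_lit 486007) (.g (nat_lit 2607) (.e (nat_lit 24624) (nat_lit 9) (.e (nat_lit 336454) (nat_lit 34) (.e (nat_lit 483365) (nat_lit 18) (.e (nat_lit 57853) (nat_lit 252) .nil)))) (.g (nat_lit 0) (.e (nat_lit 133507) (nat_lit 0) .nil) .nil)))) (.nd (nat_lit 9) 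
(.lf (nat_lit 485751) (.g (nat_lit 1277) (.e (nat_lit 24617) (nat_lit 7) (.e (nat_lit 319531) (nat_lit 16) (.e (nat_lit 286759) (nat_lit 12) (.e (nat_lit 385098) (nat_lit 49) .nil)))) (.g (nat_lit 0) (.e (nat_lit 133183) (nat_lit 0) .nil) .nil))) 
(.lf (nat_lit 486263) (.g (nat_lit 1873) (.e (nat_lit 24628) (nat_lit 9) (.e (nat_lit 336019) (nat_lit 3) (.e (nat_lit 106240) (nat_lit 16) (.e (nat_lit 401454) (nat_lit 12) (.e (nat_lit 483072) (nat_lit 2) .nil))))) (.g (nat_lit 1) (.e (nat_lit 133813) (nat_lit 0) .nil) .nil))))) (.nd (nat_lit 8) (.nd (nat_lit 9) 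
(.lf (nat_lit 485623) (.g (nat_lit 4482) (.e (nat_lit 24609) (nat_lit 3) (.e (nat_lit 98373) (nat_lit 29) (.e (nat_lit 450587) (nat_lit 10) (.e (nat_lit 573477) (nat_lit 12) (.e (nat_lit 57575) (nat_lit 55) (.e (nat_lit 778460) (nat_lit 11) .nil)))))) (.g (nat_lit 1) (.e (nat_lit 133019) (nat_lit 0) .nil) .nil))) 
(.lf (nat_lit 486135) (.g (nat_lit 5023) (.e (nat_lit 24627) (nat_lit 9) (.e (nat_lit 336324) (nat_lit 18) (.e (nat_lit 204831) (nat_lit 18) (.e (nat_lit 57854) (nat_lit 252) (.e (nat_lit 57439) (nat_lit 18) .nil))))) (.g (nat_lit 0) (.e (nat_lit 133648) (nat_lit 0) .nil) .nil)))) (.nd (nat_lit 9) 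
(.lf (nat_lit 485879) (.g (nat_lit 1962) (.e (nat_lit 24617) (nat_lit 7) (.e (nat_lit 319534) (nat_lit 16) (.e (nat_lit 286756) (nat_lit 10) (.e (nat_lit 344160) (nat_lit 37) (.e (nat_lit 647194) (nat_lit 9) .nil))))) (.g (nat_lit 0) (.e (nat_lit 133341) (nat_lit 0) .nil) .nil))) 
(.lf (nat_lit 486391) (.g (nat_lit 3139) (.e (nat_lit 24628) (nat_lit 9) (.e (nat_lit 336443) (nat_lit 32) (.e (nat_lit 466971) (nat_lit 21) (.e (nat_lit 164327) (nat_lit 230) (.e (nat_lit 163877) (nat_lit 4) (.e (nat_lit 213032) (nat_lit 11) .nil)))))) (.g (nat_lit 1) (.e (nat_lit 133962) (nat_lit 0) .nil) .nil))))))))) 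
(.nd (nat_lit 4) (.nd (nat_lit 5) (.nd (nat_lit 6) (.nd (nat_lit 7) (.nd (nat_lit 8) 
(.nd (nat_lit 9) 
(.lf (nat_lit 485391) (.g (nat_lit 2456) (.e (nat_lit 24608) (nat_lit 3) (.e (nat_lit 98372) (nat_lit 29) (.e (nat_lit 458496) (nat_lit 3) (.e (nat_lit 516115) (nat_lit 1) (.e (nat_lit 164381) (nat_lit 254) (.e (nat_lit 7936) (nat_lit 159) .nil)))))) (.g (nat_lit 1) (.e (nat_lit 132750) (nat_lit 0) .nil) .nil))) 
(.lf (nat_lit 485903) (.g (nat_lit 2716) (.e (nat_lit 24617) (nat_lit 7) (.e (nat_lit 319534) (nat_lit 16) (.e (nat_lit 286759) (nat_lit 12) (.e (nat_lit 385107) (nat_lit 51) (.e (nat_lit 794674) (nat_lit 24) (.e (nat_lit 213030) (nat_lit 11) .nil)))))) (.g (nat_lit 1) (.e (nat_lit 133371) (nat_lit 0) .nil) .nil)))) (.nd (nat_lit 9) 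
(.lf (nat_lit 485647) (.g (nat_lit 4525) (.e (nat_lit 24609) (nat_lit 3) (.e (nat_lit 98373) (nat_lit 29) (.e (nat_lit 450588) (nat_lit 10) (.e (nat_lit 573477) (nat_lit 12) .nil)))) (.g (nat_lit 0) (.e (nat_lit 133043) (nat_lit 0) .nil) .nil))) 
(.lf (nat_lit 486159) (.g (nat_lit 2333) (.e (nat_lit 24627) (nat_lit 9) (.e (nat_lit 336443) (nat_lit 32) (.e (nat_lit 466969) (nat_lit 21) (.e (nat_lit 164326) (nat_lit 230) (.e (nat_lit 163882) (nat_lit 4) (.e (nat_lit 213031) (nat_lit 11) .nil)))))) (.g (nat_lit 1) (.e (nat_lit 133689) (nat_lit 0) .nil) .nil))))) (.nd (nat_lit 8) (.nd (nat_lit 9) 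
(.lf (nat_lit 485519) (.g (nat_lit 1672) (.e (nat_lit 24608) (nat_lit 3) (.e (nat_lit 98387) (nat_lit 33) (.e (nat_lit 491566) (nat_lit 12) (.e (nat_lit 385068) (nat_lit 26) .nil)))) (.g (nat_lit 0) (.e (nat_lit 132893) (nat_lit 0) .nil) .nil))) 
(.lf (nat_lit 486031) (.g (nat_lit 2303) (.e (nat_lit 24625) (nat_lit 9) (.e (nat_lit 336426) (nat_lit 29) (.e (nat_lit 442421) (nat_lit 21) (.e (nat_lit 164326) (nat_lit 230) (.e (nat_lit 163879) (nat_lit 4) (.e (nat_lit 213032) (nat_lit 11) .nil)))))) (.g (nat_lit 1) (.e (nat_lit 133531) (nat_lit 0) .nil) .nil)))) (.nd (nat_lit 9) 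
(.lf (nat_lit 485775) (.g (nat_lit 486) (.e (nat_lit 24617) (nat_lit 7) (.e (nat_lit 319533) (nat_lit 16) (.e (nat_lit 286753) (nat_lit 10) .nil))) (.g (nat_lit 0) (.e (nat_lit 133214) (nat_lit 0) .nil) .nil))) 
(.lf (nat_lit 486287) (.g (nat_lit 2314) (.e (nat_lit 24628) (nat_lit 9) (.e (nat_lit 336366) (nat_lit 27) (.e (nat_lit 426501) (nat_lit 27) (.e (nat_lit 335996) (nat_lit 1) (.e (nat_lit 57852) (nat_lit 252) (.e (nat_lit 57370) (nat_lit 2) (.e (nat_lit 90158) (nat_lit 11) .nil))))))) (.g (nat_lit 1) (.e (nat_lit 133842) (nat_lit 0) .nil) .nil)))))) 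
(.nd (nat_lit 7) (.nd (nat_lit 8) (.nd (nat_lit 9) 
(.lf (nat_lit 485455) (.g (nat_lit 3963) (.e (nat_lit 24608) (nat_lit 3) (.e (nat_lit 98373) (nat_lit 29) (.e (nat_lit 450587) (nat_lit 10) (.e (nat_lit 573475) (nat_lit 12) (.e (nat_lit 57346) (nat_lit 0) (.e (nat_lit 7411) (nat_lit 396) (.e (nat_lit 2557) (nat_lit 159) .nil))))))) (.g (nat_lit 1) (.e (nat_lit 132825) (nat_lit 0) .nil) .nil))) 
(.lf (nat_lit 485967) (.g (nat_lit 772) (.e (nat_lit 24624) (nat_lit 9) (.e (nat_lit 336019) (nat_lit 3) (.e (nat_lit 98320) (nat_lit 17) .nil))) (.g (nat_lit 0) (.e (nat_lit 133461) (nat_lit 0) .nil) .nil)))) (.nd (nat_lit 9) 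
(.lf (nat_lit 485711) (.g (nat_lit 2451) (.e (nat_lit 24617) (nat_lit 7) (.e (nat_lit 319528) (nat_lit 16) (.e (nat_lit 286759) (nat_lit 12) (.e (nat_lit 385115) (nat_lit 53) (.e (nat_lit 811034) (nat_lit 11) (.e (nat_lit 879) (nat_lit 75) (.e (nat_lit 778464) (nat_lit 11) .nil))))))) (.g (nat_lit 1) (.e (nat_lit 133137) (nat_lit 0) .nil) .nil))) 
(.lf (nat_lit 486223) (.g (nat_lit 3841) (.e (nat_lit 24627) (nat_lit 9) (.e (nat_lit 336454) (nat_lit 34) (.e (nat_lit 483363) (nat_lit 18) (.e (nat_lit 57849) (nat_lit 252) (.e (nat_lit 57375) (nat_lit 2) (.e (nat_lit 90157) (nat_lit 11) .nil)))))) (.g (nat_lit 1) (.e (nat_lit 133763) (nat_lit 0) .nil) .nil))))) (.nd (nat_lit 8) (.nd (nat_lit 9) 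
(.lf (nat_lit 485583) (.g (nat_lit 2769) (.e (nat_lit 24609) (nat_lit 3) (.e (nat_lit 98372) (nat_lit 29) (.e (nat_lit 450586) (nat_lit 10) (.e (nat_lit 573475) (nat_lit 12) (.e (nat_lit 57574) (nat_lit 55) (.e (nat_lit 778464) (nat_lit 11) .nil)))))) (.g (nat_lit 1) (.e (nat_lit 132976) (nat_lit 0) .nil) .nil))) 
(.lf (nat_lit 486095) (.g (nat_lit 2833) (.e (nat_lit 24626) (nat_lit 9) (.e (nat_lit 336443) (nat_lit 32) (.e (nat_lit 466969) (nat_lit 21) (.e (nat_lit 164330) (nat_lit 230) (.e (nat_lit 163878) (nat_lit 4) (.e (nat_lit 213030) (nat_lit 11) .nil)))))) (.g (nat_lit 1) (.e (nat_lit 133600) (nat_lit 0) .nil) .nil)))) (.nd (nat_lit 9) 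
(.lf (nat_lit 485839) (.g (nat_lit 812) (.e (nat_lit 24617) (nat_lit 7) (.e (nat_lit 319534) (nat_lit 16) (.e (nat_lit 286755) (nat_lit 10) .nil))) (.g (nat_lit 0) (.e (nat_lit 133297) (nat_lit 0) .nil) .nil))) 
(.lf (nat_lit 486351) (.g (nat_lit 2880) (.e (nat_lit 24628) (nat_lit 9) (.e (nat_lit 336443) (nat_lit 32) (.e (nat_lit 466969) (nat_lit 21) (.e (nat_lit 164327) (nat_lit 230) (.e (nat_lit 163882) (nat_lit 4) (.e (nat_lit 213031) (nat_lit 11) .nil)))))) (.g (nat_lit 1) (.e (nat_lit 133922) (nat_lit 0) .nil) .nil))))))) (.nd (nat_lit 6) (.nd (nat_lit 7) (.nd (nat_lit 8) (.nd (nat_lit 9) 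
(.lf (nat_lit 485423) (.g (nat_lit 744) (.e (nat_lit 24608) (nat_lit 3) (.e (nat_lit 98373) (nat_lit 29) (.e (nat_lit 450585) (nat_lit 10) .nil))) (.g (nat_lit 0) (.e (nat_lit 132793) (nat_lit 0) .nil) .nil))) 
(.lf (nat_lit 485935) (.g (nat_lit 3604) (.e (nat_lit 24623) (nat_lit 9) (.e (nat_lit 336412) (nat_lit 27) (.e (nat_lit 426011) (nat_lit 0) (.e (nat_lit 7591) (nat_lit 407) (.e (nat_lit 73776) (nat_lit 26) (.e (nat_lit 778466) (nat_lit 11) .nil)))))) (.g (nat_lit 1) (.e (nat_lit 133428) (nat_lit 0) .nil) .nil)))) (.nd (nat_lit 9) 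
(.lf (nat_lit 485679) (.g (nat_lit 1299) (.e (nat_lit 24616) (nat_lit 7) (.e (nat_lit 319530) (nat_lit 16) (.e (nat_lit 286759) (nat_lit 12) (.e (nat_lit 385115) (nat_lit 53) .nil)))) (.g (nat_lit 0) (.e (nat_lit 133089) (nat_lit 0) .nil) .nil))) 
(.lf (nat_lit 486191) (.g (nat_lit 1365) (.e (nat_lit 24627) (nat_lit 9) (.e (nat_lit 336443) (nat_lit 32) (.e (nat_lit 466972) (nat_lit 21) (.e (nat_lit 164305) (nat_lit 226) .nil)))) (.g (nat_lit 0) (.e (nat_lit 133721) (nat_lit 0) .nil) .nil))))) (.nd (nat_lit 8) (.nd (nat_lit 9) 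
(.lf (nat_lit 485551) (.g (nat_lit 1613) (.e (nat_lit 24609) (nat_lit 3) (.e (nat_lit 98365) (nat_lit 26) (.e (nat_lit 426306) (nat_lit 12) (.e (nat_lit 475175) (nat_lit 24) (.e (nat_lit 516127) (nat_lit 2) (.e (nat_lit 213030) (nat_lit 11) .nil)))))) (.g (nat_lit 1) (.e (nat_lit 132944) (nat_lit 0) .nil) .nil))) 
(.lf (nat_lit 486063) (.g (nat_lit 1938) (.e (nat_lit 24625) (nat_lit 9) (.e (nat_lit 336443) (nat_lit 32) (.e (nat_lit 466972) (nat_lit 21) (.e (nat_lit 164329) (nat_lit 230) (.e (nat_lit 163878) (nat_lit 4) (.e (nat_lit 213032) (nat_lit 11) .nil)))))) (.g (nat_lit 1) (.e (nat_lit 133565) (nat_lit 0) .nil) .nil)))) (.nd (nat_lit 9) 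
(.lf (nat_lit 485807) (.g (nat_lit 1321) (.e (nat_lit 24617) (nat_lit 7) (.e (nat_lit 319533) (nat_lit 16) (.e (nat_lit 286756) (nat_lit 10) (.e (nat_lit 344160) (nat_lit 37) .nil)))) (.g (nat_lit 0) (.e (nat_lit 133248) (nat_lit 0) .nil) .nil))) 
(.lf (nat_lit 486319) (.g (nat_lit 2814) (.e (nat_lit 24628) (nat_lit 9) (.e (nat_lit 336375) (nat_lit 27) (.e (nat_lit 426525) (nat_lit 27) (.e (nat_lit 335986) (nat_lit 1) (.e (nat_lit 57847) (nat_lit 252) (.e (nat_lit 57375) (nat_lit 2) (.e (nat_lit 90160) (nat_lit 11) .nil))))))) (.g (nat_lit 1) (.e (nat_lit 133877) (nat_lit 0) .nil) .nil)))))) 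
(.nd (nat_lit 7) (.nd (nat_lit 8) (.nd (nat_lit 9) 
(.lf (nat_lit 485487) (.g (nat_lit 3079) (.e (nat_lit 24608) (nat_lit 3) (.e (nat_lit 98373) (nat_lit 29) (.e (nat_lit 450588) (nat_lit 10) (.e (nat_lit 573452) (nat_lit 9) .nil)))) (.g (nat_lit 0) (.e (nat_lit 132857) (nat_lit 0) .nil) .nil))) 
(.lf (nat_lit 485999) (.g (nat_lit 2890) (.e (nat_lit 24624) (nat_lit 9) (.e (nat_lit 336454) (nat_lit 34) (.e (nat_lit 483365) (nat_lit 18) (.e (nat_lit 57844) (nat_lit 252) .nil)))) (.g (nat_lit 0) (.e (nat_lit 133498) (nat_lit 0) .nil) .nil)))) (.nd (nat_lit 9) 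
(.lf (nat_lit 485743) (.g (nat_lit 1438) (.e (nat_lit 24617) (nat_lit 7) (.e (nat_lit 319531) (nat_lit 16) (.e (nat_lit 286759) (nat_lit 12) (.e (nat_lit 385090) (nat_lit 49) .nil)))) (.g (nat_lit 0) (.e (nat_lit 133173) (nat_lit 0) .nil) .nil))) 
(.lf (nat_lit 486255) (.g (nat_lit 3451) (.e (nat_lit 24627) (nat_lit 9) (.e (nat_lit 336454) (nat_lit 34) (.e (nat_lit 483365) (nat_lit 18) (.e (nat_lit 57851) (nat_lit 252) (.e (nat_lit 57371) (nat_lit 2) (.e (nat_lit 90159) (nat_lit 11) .nil)))))) (.g (nat_lit 1) (.e (nat_lit 133795) (nat_lit 0) .nil) .nil))))) (.nd (nat_lit 8) (.nd (nat_lit 9) 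
(.lf (nat_lit 485615) (.g (nat_lit 2518) (.e (nat_lit 24609) (nat_lit 3) (.e (nat_lit 98373) (nat_lit 29) (.e (nat_lit 450587) (nat_lit 10) (.e (nat_lit 573475) (nat_lit 12) (.e (nat_lit 65280) (nat_lit 55) .nil))))) (.g (nat_lit 0) (.e (nat_lit 133011) (nat_lit 0) .nil) .nil))) 
(.lf (nat_lit 486127) (.g (nat_lit 4252) (.e (nat_lit 24627) (nat_lit 9) (.e (nat_lit 336324) (nat_lit 18) (.e (nat_lit 204831) (nat_lit 18) (.e (nat_lit 57849) (nat_lit 252) .nil)))) (.g (nat_lit 0) (.e (nat_lit 133640) (nat_lit 0) .nil) .nil)))) (.nd (nat_lit 9) 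
(.lf (nat_lit 485871) (.g (nat_lit 3134) (.e (nat_lit 24617) (nat_lit 7) (.e (nat_lit 319534) (nat_lit 16) (.e (nat_lit 286756) (nat_lit 10) (.e (nat_lit 344160) (nat_lit 37) (.e (nat_lit 647190) (nat_lit 9) (.e (nat_lit 984) (nat_lit 81) (.e (nat_lit 2353) (nat_lit 151) (.e (nat_lit 778464) (nat_lit 11) .nil)))))))) (.g (nat_lit 1) (.e (nat_lit 133333) (nat_lit 0) .nil) .nil))) 
(.lf (nat_lit 486383) (.g (nat_lit 1928) (.e (nat_lit 24628) (nat_lit 9) (.e (nat_lit 336443) (nat_lit 32) (.e (nat_lit 466971) (nat_lit 21) (.e (nat_lit 164325) (nat_lit 230) (.e (nat_lit 163880) (nat_lit 4) (.e (nat_lit 213032) (nat_lit 11) .nil)))))) (.g (nat_lit 1) (.e (nat_lit 133954) (nat_lit 0) .nil) .nil)))))))) 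
(.nd (nat_lit 5) (.nd (nat_lit 6) (.nd (nat_lit 7) (.nd (nat_lit 8) (.nd (nat_lit 9) 
(.lf (nat_lit 485407) (.g (nat_lit 2761) (.e (nat_lit 24608) (nat_lit 3) (.e (nat_lit 98372) (nat_lit 29) (.e (nat_lit 450587) (nat_lit 10) (.e (nat_lit 573477) (nat_lit 12) (.e (nat_lit 57574) (nat_lit 55) (.e (nat_lit 778466) (nat_lit 11) .nil)))))) (.g (nat_lit 1) (.e (nat_lit 132766) (nat_lit 0) .nil) .nil))) 
(.lf (nat_lit 485919) (.g (nat_lit 464) (.e (nat_lit 24619) (nat_lit 8) (.e (nat_lit 327708) (nat_lit 10) (.e (nat_lit 5404) (nat_lit 302) .nil))) (.g (nat_lit 0) (.e (nat_lit 133403) (nat_lit 0) .nil) .nil)))) (.nd (nat_lit 9) 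
(.lf (nat_lit 485663) (.g (nat_lit 2530) (.e (nat_lit 32512) (nat_lit 3) (.e (nat_lit 98373) (nat_lit 29) (.e (nat_lit 450587) (nat_lit 10) (.e (nat_lit 573454) (nat_lit 9) .nil)))) (.g (nat_lit 0) (.e (nat_lit 133061) (nat_lit 0) .nil) .nil))) 
(.lf (nat_lit 486175) (.g (nat_lit 3262) (.e (nat_lit 24627) (nat_lit 9) (.e (nat_lit 336443) (nat_lit 32) (.e (nat_lit 466969) (nat_lit 21) (.e (nat_lit 164332) (nat_lit 230) (.e (nat_lit 163880) (nat_lit 4) (.e (nat_lit 213030) (nat_lit 11) .nil)))))) (.g (nat_lit 1) (.e (nat_lit 133705) (nat_lit 0) .nil) .nil))))) (.nd (nat_lit 8) (.nd (nat_lit 9) 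
(.lf (nat_lit 485535) (.g (nat_lit 1298) (.e (nat_lit 24609) (nat_lit 3) (.e (nat_lit 98358) (nat_lit 26) (.e (nat_lit 426320) (nat_lit 12) (.e (nat_lit 475176) (nat_lit 24) .nil)))) (.g (nat_lit 0) (.e (nat_lit 132914) (nat_lit 0) .nil) .nil))) 
(.lf (nat_lit 486047) (.g (nat_lit 2333) (.e (nat_lit 24625) (nat_lit 9) (.e (nat_lit 336443) (nat_lit 32) (.e (nat_lit 466969) (nat_lit 21) (.e (nat_lit 164330) (nat_lit 230) (.e (nat_lit 163878) (nat_lit 4) (.e (nat_lit 213032) (nat_lit 11) .nil)))))) (.g (nat_lit 1) (.e (nat_lit 133549) (nat_lit 0) .nil) .nil)))) (.nd (nat_lit 9) 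
(.lf (nat_lit 485791) (.g (nat_lit 2732) (.e (nat_lit 24617) (nat_lit 7) (.e (nat_lit 319533) (nat_lit 16) (.e (nat_lit 286753) (nat_lit 10) (.e (nat_lit 344169) (nat_lit 40) (.e (nat_lit 679680) (nat_lit 15) (.e (nat_lit 57611) (nat_lit 116) (.e (nat_lit 778464) (nat_lit 11) .nil))))))) (.g (nat_lit 1) (.e (nat_lit 133232) (nat_lit 0) .nil) .nil))) 
(.lf (nat_lit 486303) (.g (nat_lit 3714) (.e (nat_lit 24628) (nat_lit 9) (.e (nat_lit 336368) (nat_lit 27) (.e (nat_lit 426499) (nat_lit 27) (.e (nat_lit 335986) (nat_lit 1) (.e (nat_lit 57849) (nat_lit 252) (.e (nat_lit 57375) (nat_lit 2) (.e (nat_lit 90158) (nat_lit 11) .nil))))))) (.g (nat_lit 1) (.e (nat_lit 133858) (nat_lit 0) .nil) .nil)))))) 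
(.nd (nat_lit 7) (.nd (nat_lit 8) (.nd (nat_lit 9) 
(.lf (nat_lit 485471) (.g (nat_lit 2955) (.e (nat_lit 24608) (nat_lit 3) (.e (nat_lit 98373) (nat_lit 29) (.e (nat_lit 450587) (nat_lit 10) (.e (nat_lit 573477) (nat_lit 12) (.e (nat_lit 57573) (nat_lit 55) (.e (nat_lit 778469) (nat_lit 11) .nil)))))) (.g (nat_lit 1) (.e (nat_lit 132841) (nat_lit 0) .nil) .nil))) 
(.lf (nat_lit 485983) (.g (nat_lit 2103) (.e (nat_lit 24624) (nat_lit 9) (.e (nat_lit 336443) (nat_lit 32) (.e (nat_lit 466971) (nat_lit 21) (.e (nat_lit 164327) (nat_lit 230) (.e (nat_lit 163882) (nat_lit 4) (.e (nat_lit 213030) (nat_lit 11) .nil)))))) (.g (nat_lit 1) (.e (nat_lit 133482) (nat_lit 0) .nil) .nil)))) (.nd (nat_lit 9) 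
(.lf (nat_lit 485727) (.g (nat_lit 1643) (.e (nat_lit 24617) (nat_lit 7) (.e (nat_lit 319530) (nat_lit 16) (.e (nat_lit 286748) (nat_lit 9) (.e (nat_lit 336295) (nat_lit 15) (.e (nat_lit 3757) (nat_lit 229) .nil))))) (.g (nat_lit 0) (.e (nat_lit 133157) (nat_lit 0) .nil) .nil))) 
(.lf (nat_lit 486239) (.g (nat_lit 3742) (.e (nat_lit 24627) (nat_lit 9) (.e (nat_lit 336454) (nat_lit 34) (.e (nat_lit 483365) (nat_lit 18) (.e (nat_lit 57846) (nat_lit 252) (.e (nat_lit 57372) (nat_lit 2) (.e (nat_lit 90160) (nat_lit 11) .nil)))))) (.g (nat_lit 1) (.e (nat_lit 133779) (nat_lit 0) .nil) .nil))))) (.nd (nat_lit 8) (.nd (nat_lit 9) 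
(.lf (nat_lit 485599) (.g (nat_lit 834) (.e (nat_lit 24609) (nat_lit 3) (.e (nat_lit 98373) (nat_lit 29) (.e (nat_lit 458496) (nat_lit 3) .nil))) (.g (nat_lit 0) (.e (nat_lit 132995) (nat_lit 0) .nil) .nil))) 
(.lf (nat_lit 486111) (.g (nat_lit 2016) (.e (nat_lit 24626) (nat_lit 9) (.e (nat_lit 336454) (nat_lit 34) (.e (nat_lit 483363) (nat_lit 18) (.e (nat_lit 57847) (nat_lit 252) (.e (nat_lit 57375) (nat_lit 2) (.e (nat_lit 90157) (nat_lit 11) .nil)))))) (.g (nat_lit 1) (.e (nat_lit 133618) (nat_lit 0) .nil) .nil)))) (.nd (nat_lit 9) 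
(.lf (nat_lit 485855) (.g (nat_lit 1153) (.e (nat_lit 24617) (nat_lit 7) (.e (nat_lit 319534) (nat_lit 16) (.e (nat_lit 286756) (nat_lit 10) (.e (nat_lit 344169) (nat_lit 40) .nil)))) (.g (nat_lit 0) (.e (nat_lit 133316) (nat_lit 0) .nil) .nil))) 
(.lf (nat_lit 486367) (.g (nat_lit 3228) (.e (nat_lit 24628) (nat_lit 9) (.e (nat_lit 336443) (nat_lit 32) (.e (nat_lit 466969) (nat_lit 21) (.e (nat_lit 164331) (nat_lit 230) (.e (nat_lit 163877) (nat_lit 4) (.e (nat_lit 213032) (nat_lit 11) .nil)))))) (.g (nat_lit 1) (.e (nat_lit 133938) (nat_lit 0) .nil) .nil))))))) (.nd (nat_lit 6) (.nd (nat_lit 7) (.nd (nat_lit 8) (.nd (nat_lit 9) 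
(.lf (nat_lit 485439) (.g (nat_lit 3620) (.e (nat_lit 24608) (nat_lit 3) (.e (nat_lit 98373) (nat_lit 29) (.e (nat_lit 450587) (nat_lit 10) (.e (nat_lit 573475) (nat_lit 12) (.e (nat_lit 57345) (nat_lit 0) (.e (nat_lit 7429) (nat_lit 396) (.e (nat_lit 2551) (nat_lit 159) .nil))))))) (.g (nat_lit 1) (.e (nat_lit 132809) (nat_lit 0) .nil) .nil))) 
(.lf (nat_lit 485951) (.g (nat_lit 3582) (.e (nat_lit 24623) (nat_lit 9) (.e (nat_lit 336454) (nat_lit 34) (.e (nat_lit 483365) (nat_lit 18) (.e (nat_lit 57852) (nat_lit 252) (.e (nat_lit 57371) (nat_lit 2) (.e (nat_lit 90160) (nat_lit 11) .nil)))))) (.g (nat_lit 1) (.e (nat_lit 133445) (nat_lit 0) .nil) .nil)))) (.nd (nat_lit 9) 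
(.lf (nat_lit 485695) (.g (nat_lit 650) (.e (nat_lit 24617) (nat_lit 7) (.e (nat_lit 319504) (nat_lit 10) (.e (nat_lit 778) (nat_lit 66) .nil))) (.g (nat_lit 0) (.e (nat_lit 133110) (nat_lit 0) .nil) .nil))) 
(.lf (nat_lit 486207) (.g (nat_lit 2048) (.e (nat_lit 24627) (nat_lit 9) (.e (nat_lit 336443) (nat_lit 32) (.e (nat_lit 466972) (nat_lit 21) (.e (nat_lit 164332) (nat_lit 230) (.e (nat_lit 163893) (nat_lit 9) (.e (nat_lit 262165) (nat_lit 11) .nil)))))) (.g (nat_lit 1) (.e (nat_lit 133737) (nat_lit 0) .nil) .nil))))) (.nd (nat_lit 8) (.nd (nat_lit 9) 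
(.lf (nat_lit 485567) (.g (nat_lit 2163) (.e (nat_lit 24609) (nat_lit 3) (.e (nat_lit 98369) (nat_lit 28) (.e (nat_lit 442374) (nat_lit 0) (.e (nat_lit 1800) (nat_lit 119) (.e (nat_lit 516127) (nat_lit 2) (.e (nat_lit 213032) (nat_lit 11) .nil)))))) (.g (nat_lit 1) (.e (nat_lit 132960) (nat_lit 0) .nil) .nil))) 
(.lf (nat_lit 486079) (.g (nat_lit 2780) (.e (nat_lit 24625) (nat_lit 9) (.e (nat_lit 336456) (nat_lit 34) (.e (nat_lit 483365) (nat_lit 18) (.e (nat_lit 57848) (nat_lit 252) (.e (nat_lit 57374) (nat_lit 2) (.e (nat_lit 90156) (nat_lit 11) .nil)))))) (.g (nat_lit 1) (.e (nat_lit 133581) (nat_lit 0) .nil) .nil)))) (.nd (nat_lit 9) 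
(.lf (nat_lit 485823) (.g (nat_lit 2453) (.e (nat_lit 24617) (nat_lit 7) (.e (nat_lit 319533) (nat_lit 16) (.e (nat_lit 286759) (nat_lit 12) (.e (nat_lit 385115) (nat_lit 53) (.e (nat_lit 811034) (nat_lit 11) (.e (nat_lit 879) (nat_lit 75) (.e (nat_lit 778464) (nat_lit 11) .nil))))))) (.g (nat_lit 1) (.e (nat_lit 133271) (nat_lit 0) .nil) .nil))) 
(.lf (nat_lit 486335) (.g (nat_lit 2284) (.e (nat_lit 24628) (nat_lit 9) (.e (nat_lit 336443) (nat_lit 32) (.e (nat_lit 466969) (nat_lit 21) (.e (nat_lit 164325) (nat_lit 230) (.e (nat_lit 163849) (nat_lit 0) (.e (nat_lit 3617) (nat_lit 227) (.e (nat_lit 778462) (nat_lit 11) .nil))))))) (.g (nat_lit 1) (.e (nat_lit 133906) (nat_lit 0) .nil) .nil)))))) 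
(.nd (nat_lit 7) (.nd (nat_lit 8) (.nd (nat_lit 9) 
(.lf (nat_lit 485503) (.g (nat_lit 2513) (.e (nat_lit 24608) (nat_lit 3) (.e (nat_lit 98373) (nat_lit 29) (.e (nat_lit 450588) (nat_lit 10) (.e (nat_lit 573475) (nat_lit 12) (.e (nat_lit 65280) (nat_lit 55) .nil))))) (.g (nat_lit 0) (.e (nat_lit 132873) (nat_lit 0) .nil) .nil))) 
(.lf (nat_lit 486015) (.g (nat_lit 3415) (.e (nat_lit 24624) (nat_lit 9) (.e (nat_lit 336456) (nat_lit 34) (.e (nat_lit 483363) (nat_lit 18) (.e (nat_lit 57854) (nat_lit 252) (.e (nat_lit 57371) (nat_lit 2) (.e (nat_lit 90160) (nat_lit 11) .nil)))))) (.g (nat_lit 1) (.e (nat_lit 133515) (nat_lit 0) .nil) .nil)))) (.nd (nat_lit 9) 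
(.lf (nat_lit 485759) (.g (nat_lit 1285) (.e (nat_lit 24617) (nat_lit 7) (.e (nat_lit 319531) (nat_lit 16) (.e (nat_lit 286759) (nat_lit 12) (.e (nat_lit 385111) (nat_lit 53) .nil)))) (.g (nat_lit 0) (.e (nat_lit 133195) (nat_lit 0) .nil) .nil))) 
(.lf (nat_lit 486271) (.g (nat_lit 4042) (.e (nat_lit 24628) (nat_lit 9) (.e (nat_lit 336324) (nat_lit 18) (.e (nat_lit 204831) (nat_lit 18) (.e (nat_lit 57846) (nat_lit 252) .nil)))) (.g (nat_lit 0) (.e (nat_lit 133825) (nat_lit 0) .nil) .nil))))) (.nd (nat_lit 8) (.nd (nat_lit 9) 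
(.lf (nat_lit 485631) (.g (nat_lit 3595) (.e (nat_lit 24609) (nat_lit 3) (.e (nat_lit 98373) (nat_lit 29) (.e (nat_lit 450587) (nat_lit 10) (.e (nat_lit 573478) (nat_lit 12) (.e (nat_lit 57574) (nat_lit 55) (.e (nat_lit 778463) (nat_lit 11) .nil)))))) (.g (nat_lit 1) (.e (nat_lit 133027) (nat_lit 0) .nil) .nil))) 
(.lf (nat_lit 486143) (.g (nat_lit 2833) (.e (nat_lit 24627) (nat_lit 9) (.e (nat_lit 336379) (nat_lit 27) (.e (nat_lit 426525) (nat_lit 27) (.e (nat_lit 335995) (nat_lit 1) (.e (nat_lit 57848) (nat_lit 252) (.e (nat_lit 57375) (nat_lit 2) (.e (nat_lit 90159) (nat_lit 11) .nil))))))) (.g (nat_lit 1) (.e (nat_lit 133668) (nat_lit 0) .nil) .nil)))) (.nd (nat_lit 9) 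
(.lf (nat_lit 485887) (.g (nat_lit 3049) (.e (nat_lit 24617) (nat_lit 7) (.e (nat_lit 319534) (nat_lit 16) (.e (nat_lit 286756) (nat_lit 10) (.e (nat_lit 344160) (nat_lit 37) (.e (nat_lit 647195) (nat_lit 9) (.e (nat_lit 1040) (nat_lit 81) (.e (nat_lit 7936) (nat_lit 151) (.e (nat_lit 778465) (nat_lit 11) .nil)))))))) (.g (nat_lit 1) (.e (nat_lit 133349) (nat_lit 0) .nil) .nil))) 
(.lf (nat_lit 486399) (.g (nat_lit 2464) (.e (nat_lit 24628) (nat_lit 9) (.e (nat_lit 336443) (nat_lit 32) (.e (nat_lit 466972) (nat_lit 21) (.e (nat_lit 164322) (nat_lit 230) (.e (nat_lit 163878) (nat_lit 4) (.e (nat_lit 213030) (nat_lit 11) .nil)))))) (.g (nat_lit 1) (.e (nat_lit 133971) (nat_lit 0) .nil) .nil)))))))))))))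


end

end Pool.Agent.Lib.MP_5854e1_co.Cz
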