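import Pool.Agent.Lib.MP_5854e1_co.DtD

/-!
# Windows and cells of the rings
-/

set_option autoImplicit false
set_option maxRecDepth 100000
set_option deprecated.oldSectionVars true

namespace Pool.Agent.Lib.MP_5854e1_co.Cz

open Pool.Agent.Lib.MP_5854e1_co

noncomputable section

noncomputable def tv5535 : DT := (.nd (nat_lit 0) (.nd (nat_lit 1) (.nd (nat_lit 2) (.nd (nat_lit 3) (.nd (nat_lit 4) (.nd (nat_lit 5) (.nd (nat_lit 6) (.nd (nat_lit 7) (.nd (nat_lit 8) (.nd (nat_lit 9) 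
(.lf (nat_lit 486400) (.g (nat_lit 1704) (.e (nat_lit 24628) (nat_lit 9) (.e (nat_lit 336443) (nat_lit 32) (.e (nat_lit 466972) (nat_lit 21) (.e (nat_lit 164329) (nat_lit 230) (.e (nat_lit 163843) (nat_lit 0) .nil))))) (.g (nat_lit 0) (.e (nat_lit 133972) (nat_lit 0) .nil) .nil))) 
(.lf (nat_lit 486912) (.g (nat_lit 3184) (.e (nat_lit 24640) (nat_lit 10) (.e (nat_lit 344156) (nat_lit 36) (.e (nat_lit 638998) (nat_lit 8) (.e (nat_lit 172115) (nat_lit 10) (.e (nat_lit 434202) (nat_lit 18) (.e (nat_lit 5840) (nat_lit 320) (.e (nat_lit 2551) (nat_lit 159) .nil))))))) (.g (nat_lit 1) (.e (nat_lit 134652) (nat_lit 0) .nil) .nil)))) (.nd (nat_lit 9) 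
(.lf (nat_lit 486656) (.g (nat_lit 1281) (.e (nat_lit 24630) (nat_lit 9) (.e (nat_lit 336443) (nat_lit 32) (.e (nat_lit 466972) (nat_lit 21) (.e (nat_lit 164330) (nat_lit 230) .nil)))) (.g (nat_lit 0) (.e (nat_lit 134294) (nat_lit 0) .nil) .nil))) 
(.lf (nat_lit 487168) (.g (nat_lit 2284) (.e (nat_lit 24657) (nat_lit 13) (.e (nat_lit 393281) (nat_lit 23) (.e (nat_lit 426108) (nat_lit 1) (.e (nat_lit 164330) (nat_lit 230) (.e (nat_lit 163880) (nat_lit 4) (.e (nat_lit 213030) (nat_lit 11) .nil)))))) (.g (nat_lit 1) (.e (nat_lit 135086) (nat_lit 0) .nil) .nil))))) (.nd (nat_lit 8) (.nd (nat_lit 9) 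
(.lf (nat_lit 486528) (.g (nat_lit 2255) (.e (nat_lit 24628) (nat_lit 9) (.e (nat_lit 336456) (nat_lit 34) (.e (nat_lit 483365) (nat_lit 18) (.e (nat_lit 57852) (nat_lit 252) (.e (nat_lit 57373) (nat_lit 2) (.e (nat_lit 90160) (nat_lit 11) .nil)))))) (.g (nat_lit 1) (.e (nat_lit 134101) (nat_lit 0) .nil) .nil))) 
(.lf (nat_lit 487040) (.g (nat_lit 1275) (.e (nat_lit 24653) (nat_lit 12) (.e (nat_lit 385093) (nat_lit 49) (.e (nat_lit 778323) (nat_lit 5) (.e (nat_lit 81664) (nat_lit 45) .nil)))) (.g (nat_lit 0) (.e (nat_lit 134917) (nat_lit 0) .nil) .nil)))) (.nd (nat_lit 9) 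
(.lf (nat_lit 486784) (.g (nat_lit 1626) (.e (nat_lit 24631) (nat_lit 9) (.e (nat_lit 336412) (nat_lit 27) (.e (nat_lit 426344) (nat_lit 14) (.e (nat_lit 491560) (nat_lit 10) (.e (nat_lit 344179) (nat_lit 44) (.e (nat_lit 778466) (nat_lit 11) .nil)))))) (.g (nat_lit 1) (.e (nat_lit 134439) (nat_lit 0) .nil) .nil))) 
(.lf (nat_lit 487296) (.g (nat_lit 2752) (.e (nat_lit 24659) (nat_lit 13) (.e (nat_lit 393281) (nat_lit 23) (.e (nat_lit 426098) (nat_lit 1) (.e (nat_lit 164325) (nat_lit 230) (.e (nat_lit 163882) (nat_lit 4) (.e (nat_lit 213032) (nat_lit 11) .nil)))))) (.g (nat_lit 1) (.e (nat_lit 135246) (nat_lit 0) .nil) .nil)))))) (.nd (nat_lit 7) (.nd (nat_lit 8) (.nd (nat_lit 9) 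
(.lf (nat_lit 486464) (.g (nat_lit 3039) (.e (nat_lit 24628) (nat_lit 9) (.e (nat_lit 336454) (nat_lit 34) (.e (nat_lit 483365) (nat_lit 18) (.e (nat_lit 57848) (nat_lit 252) (.e (nat_lit 57375) (nat_lit 2) (.e (nat_lit 90159) (nat_lit 11) .nil)))))) (.g (nat_lit 1) (.e (nat_lit 134036) (nat_lit 0) .nil) .nil))) 
(.lf (nat_lit 486976) (.g (nat_lit 2784) (.e (nat_lit 24650) (nat_lit 12) (.e (nat_lit 385068) (nat_lit 26) (.e (nat_lit 532501) (nat_lit 1) (.e (nat_lit 57854) (nat_lit 252) (.e (nat_lit 57442) (nat_lit 18) .nil))))) (.g (nat_lit 0) (.e (nat_lit 134784) (nat_lit 0) .nil) .nil)))) (.nd (nat_lit 9) 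
(.lf (nat_lit 486720) (.g (nat_lit 2470) (.e (nat_lit 24630) (nat_lit 9) (.e (nat_lit 336454) (nat_lit 34) (.e (nat_lit 483365) (nat_lit 18) (.e (nat_lit 57854) (nat_lit 252) (.e (nat_lit 57371) (nat_lit 2) (.e (nat_lit 90156) (nat_lit 11) .nil)))))) (.g (nat_lit 1) (.e (nat_lit 134369) (nat_lit 0) .nil) .nil))) 
(.lf (nat_lit 487232) (.g (nat_lit 2690) (.e (nat_lit 24658) (nat_lit 13) (.e (nat_lit 393281) (nat_lit 23) (.e (nat_lit 426100) (nat_lit 1) (.e (nat_lit 164330) (nat_lit 230) (.e (nat_lit 163878) (nat_lit 4) (.e (nat_lit 213032) (nat_lit 11) .nil)))))) (.g (nat_lit 1) (.e (nat_lit 135176) (nat_lit 0) .nil) .nil))))) (.nd (nat_lit 8) (.nd (nat_lit 9) 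
(.lf (nat_lit 486592) (.g (nat_lit 1425) (.e (nat_lit 24630) (nat_lit 9) (.e (nat_lit 336019) (nat_lit 3) (.e (nat_lit 106240) (nat_lit 16) (.e (nat_lit 401454) (nat_lit 12) (.e (nat_lit 483072) (nat_lit 2) .nil))))) (.g (nat_lit 1) (.e (nat_lit 134170) (nat_lit 0) .nil) .nil))) 
(.lf (nat_lit 487104) (.g (nat_lit 1890) (.e (nat_lit 24656) (nat_lit 13) (.e (nat_lit 393271) (nat_lit 23) (.e (nat_lit 426112) (nat_lit 1) (.e (nat_lit 164326) (nat_lit 230) .nil)))) (.g (nat_lit 0) (.e (nat_lit 135002) (nat_lit 0) .nil) .nil)))) (.nd (nat_lit 9) 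
(.lf (nat_lit 486848) (.g (nat_lit 2765) (.e (nat_lit 24640) (nat_lit 10) (.e (nat_lit 344156) (nat_lit 36) (.e (nat_lit 638985) (nat_lit 5) (.e (nat_lit 3015) (nat_lit 187) (.e (nat_lit 450562) (nat_lit 0) (.e (nat_lit 5797) (nat_lit 320) (.e (nat_lit 2552) (nat_lit 159) .nil))))))) (.g (nat_lit 1) (.e (nat_lit 134588) (nat_lit 0) .nil) .nil))) 
(.lf (nat_lit 487360) (.g (nat_lit 2507) (.e (nat_lit 24660) (nat_lit 13) (.e (nat_lit 393271) (nat_lit 23) (.e (nat_lit 426112) (nat_lit 1) (.e (nat_lit 164326) (nat_lit 230) (.e (nat_lit 163882) (nat_lit 4) (.e (nat_lit 213032) (nat_lit 11) .nil)))))) (.g (nat_lit 1) (.e (nat_lit 135330) (nat_lit 0) .nil) .nil))))))) (.nd (nat_lit 6) (.nd (nat_lit 7) (.nd (nat_lit 8) (.nd (nat_lit 9) 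
(.lf (nat_lit 486432) (.g (nat_lit 3499) (.e (nat_lit 24628) (nat_lit 9) (.e (nat_lit 336454) (nat_lit 34) (.e (nat_lit 483363) (nat_lit 18) (.e (nat_lit 57847) (nat_lit 252) (.e (nat_lit 57372) (nat_lit 2) (.e (nat_lit 90158) (nat_lit 11) .nil)))))) (.g (nat_lit 1) (.e (nat_lit 134004) (nat_lit 0) .nil) .nil))) 
(.lf (nat_lit 486944) (.g (nat_lit 1685) (.e (nat_lit 24647) (nat_lit 12) (.e (nat_lit 385093) (nat_lit 49) (.e (nat_lit 778323) (nat_lit 5) (.e (nat_lit 73788) (nat_lit 45) .nil)))) (.g (nat_lit 0) (.e (nat_lit 134718) (nat_lit 0) .nil) .nil)))) (.nd (nat_lit 9) 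
(.lf (nat_lit 486688) (.g (nat_lit 3096) (.e (nat_lit 24630) (nat_lit 9) (.e (nat_lit 336454) (nat_lit 34) (.e (nat_lit 483365) (nat_lit 18) (.e (nat_lit 57830) (nat_lit 250) .nil)))) (.g (nat_lit 0) (.e (nat_lit 134335) (nat_lit 0) .nil) .nil))) 
(.lf (nat_lit 487200) (.g (nat_lit 1919) (.e (nat_lit 24658) (nat_lit 13) (.e (nat_lit 393260) (nat_lit 21) (.e (nat_lit 409649) (nat_lit 18) (.e (nat_lit 303108) (nat_lit 0) .nil)))) (.g (nat_lit 0) (.e (nat_lit 135140) (nat_lit 0) .nil) .nil))))) (.nd (nat_lit 8) (.nd (nat_lit 9) 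
(.lf (nat_lit 486560) (.g (nat_lit 379) (.e (nat_lit 24629) (nat_lit 9) (.e (nat_lit 336438) (nat_lit 31) (.e (nat_lit 458769) (nat_lit 16) .nil))) (.g (nat_lit 0) (.e (nat_lit 134136) (nat_lit 0) .nil) .nil))) 
(.lf (nat_lit 487072) (.g (nat_lit 3071) (.e (nat_lit 24655) (nat_lit 13) (.e (nat_lit 393281) (nat_lit 23) (.e (nat_lit 426098) (nat_lit 1) (.e (nat_lit 164325) (nat_lit 230) (.e (nat_lit 163882) (nat_lit 4) (.e (nat_lit 213032) (nat_lit 11) .nil)))))) (.g (nat_lit 1) (.e (nat_lit 134959) (nat_lit 0) .nil) .nil)))) (.nd (nat_lit 9) 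
(.lf (nat_lit 486816) (.g (nat_lit 619) (.e (nat_lit 24638) (nat_lit 9) (.e (nat_lit 336004) (nat_lit 2) (.e (nat_lit 90128) (nat_lit 9) .nil))) (.g (nat_lit 0) (.e (nat_lit 134507) (nat_lit 0) .nil) .nil))) 
(.lf (nat_lit 487328) (.g (nat_lit 2300) (.e (nat_lit 24660) (nat_lit 13) (.e (nat_lit 393238) (nat_lit 17) (.e (nat_lit 7107) (nat_lit 380) (.e (nat_lit 164289) (nat_lit 224) (.e (nat_lit 164108) (nat_lit 116) (.e (nat_lit 786176) (nat_lit 11) .nil)))))) (.g (nat_lit 1) (.e (nat_lit 135288) (nat_lit 0) .nil) .nil)))))) (.nd (nat_lit 7) (.nd (nat_lit 8) (.nd (nat_lit 9) 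
(.lf (nat_lit 486496) (.g (nat_lit 3297) (.e (nat_lit 24628) (nat_lit 9) (.e (nat_lit 336454) (nat_lit 34) (.e (nat_lit 483366) (nat_lit 18) (.e (nat_lit 57853) (nat_lit 252) (.e (nat_lit 57371) (nat_lit 2) (.e (nat_lit 90158) (nat_lit 11) .nil)))))) (.g (nat_lit 1) (.e (nat_lit 134068) (nat_lit 0) .nil) .nil))) 
(.lf (nat_lit 487008) (.g (nat_lit 1624) (.e (nat_lit 24651) (nat_lit 12) (.e (nat_lit 385094) (nat_lit 49) (.e (nat_lit 778323) (nat_lit 5) (.e (nat_lit 73792) (nat_lit 45) .nil)))) (.g (nat_lit 0) (.e (nat_lit 134845) (nat_lit 0) .nil) .nil)))) (.nd (nat_lit 9) 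
(.lf (nat_lit 486752) (.g (nat_lit 2392) (.e (nat_lit 24630) (nat_lit 9) (.e (nat_lit 336456) (nat_lit 34) (.e (nat_lit 483365) (nat_lit 18) (.e (nat_lit 57846) (nat_lit 252) (.e (nat_lit 57375) (nat_lit 2) (.e (nat_lit 90158) (nat_lit 11) .nil)))))) (.g (nat_lit 1) (.e (nat_lit 134401) (nat_lit 0) .nil) .nil))) 
(.lf (nat_lit 487264) (.g (nat_lit 1957) (.e (nat_lit 24658) (nat_lit 13) (.e (nat_lit 393301) (nat_lit 27) (.e (nat_lit 491558) (nat_lit 10) (.e (nat_lit 344088) (nat_lit 18) .nil)))) (.g (nat_lit 0) (.e (nat_lit 135213) (nat_lit 0) .nil) .nil))))) (.nd (nat_lit 8) (.nd (nat_lit 9) 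
(.lf (nat_lit 486624) (.g (nat_lit 2741) (.e (nat_lit 24630) (nat_lit 9) (.e (nat_lit 336369) (nat_lit 27) (.e (nat_lit 426497) (nat_lit 27) (.e (nat_lit 335996) (nat_lit 1) (.e (nat_lit 57854) (nat_lit 252) (.e (nat_lit 57371) (nat_lit 2) (.e (nat_lit 90160) (nat_lit 11) .nil))))))) (.g (nat_lit 1) (.e (nat_lit 134223) (nat_lit 0) .nil) .nil))) 
(.lf (nat_lit 487136) (.g (nat_lit 1496) (.e (nat_lit 24657) (nat_lit 13) (.e (nat_lit 401152) (nat_lit 16) (.e (nat_lit 401434) (nat_lit 9) (.e (nat_lit 426125) (nat_lit 2) (.e (nat_lit 204544) (nat_lit 2) .nil))))) (.g (nat_lit 1) (.e (nat_lit 135044) (nat_lit 0) .nil) .nil)))) (.nd (nat_lit 9) 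
(.lf (nat_lit 486880) (.g (nat_lit 2061) (.e (nat_lit 24640) (nat_lit 10) (.e (nat_lit 344156) (nat_lit 36) (.e (nat_lit 638998) (nat_lit 8) (.e (nat_lit 172107) (nat_lit 10) (.e (nat_lit 434281) (nat_lit 40) (.e (nat_lit 671779) (nat_lit 11) .nil)))))) (.g (nat_lit 1) (.e (nat_lit 134620) (nat_lit 0) .nil) .nil))) 
(.lf (nat_lit 487392) (.g (nat_lit 952) (.e (nat_lit 24660) (nat_lit 13) (.e (nat_lit 393294) (nat_lit 26) (.e (nat_lit 475212) (nat_lit 42) .nil))) (.g (nat_lit 0) (.e (nat_lit 135375) (nat_lit 0) .nil) .nil)))))))) (.nd (nat_lit 5) (.nd (nat_lit 6) (.nd (nat_lit 7) (.nd (nat_lit 8) (.nd (nat_lit 9) 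
(.lf (nat_lit 486416) (.g (nat_lit 3273) (.e (nat_lit 24628) (nat_lit 9) (.e (nat_lit 336443) (nat_lit 32) (.e (nat_lit 466972) (nat_lit 21) (.e (nat_lit 164331) (nat_lit 230) (.e (nat_lit 163877) (nat_lit 4) (.e (nat_lit 213032) (nat_lit 11) .nil)))))) (.g (nat_lit 1) (.e (nat_lit 133988) (nat_lit 0) .nil) .nil))) 
(.lf (nat_lit 486928) (.g (nat_lit 3222) (.e (nat_lit 24641) (nat_lit 10) (.e (nat_lit 344130) (nat_lit 26) (.e (nat_lit 557119) (nat_lit 18) (.e (nat_lit 2798) (nat_lit 180) (.e (nat_lit 303143) (nat_lit 12) (.e (nat_lit 483072) (nat_lit 2) .nil)))))) (.g (nat_lit 1) (.e (nat_lit 134682) (nat_lit 0) .nil) .nil)))) (.nd (nat_lit 9) 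
(.lf (nat_lit 486672) (.g (nat_lit 3590) (.e (nat_lit 24630) (nat_lit 9) (.e (nat_lit 336454) (nat_lit 34) (.e (nat_lit 483363) (nat_lit 18) (.e (nat_lit 57849) (nat_lit 252) (.e (nat_lit 57375) (nat_lit 2) (.e (nat_lit 90158) (nat_lit 11) .nil)))))) (.g (nat_lit 1) (.e (nat_lit 134319) (nat_lit 0) .nil) .nil))) 
(.lf (nat_lit 487184) (.g (nat_lit 748) (.e (nat_lit 24658) (nat_lit 13) (.e (nat_lit 393229) (nat_lit 9) (.e (nat_lit 335892) (nat_lit 0) .nil))) (.g (nat_lit 0) (.e (nat_lit 135117) (nat_lit 0) .nil) .nil))))) (.nd (nat_lit 8) (.nd (nat_lit 9) 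
(.lf (nat_lit 486544) (.g (nat_lit 1651) (.e (nat_lit 24629) (nat_lit 9) (.e (nat_lit 336430) (nat_lit 29) (.e (nat_lit 442419) (nat_lit 21) (.e (nat_lit 164326) (nat_lit 230) (.e (nat_lit 163882) (nat_lit 4) (.e (nat_lit 213030) (nat_lit 11) .nil)))))) (.g (nat_lit 1) (.e (nat_lit 134119) (nat_lit 0) .nil) .nil))) 
(.lf (nat_lit 487056) (.g (nat_lit 1784) (.e (nat_lit 24654) (nat_lit 13) (.e (nat_lit 393298) (nat_lit 27) (.e (nat_lit 491552) (nat_lit 9) (.e (nat_lit 336050) (nat_lit 6) .nil)))) (.g (nat_lit 0) (.e (nat_lit 134935) (nat_lit 0) .nil) .nil)))) (.nd (nat_lit 9) 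
(.lf (nat_lit 486800) (.g (nat_lit 1072) (.e (nat_lit 24635) (nat_lit 9) (.e (nat_lit 336028) (nat_lit 3) (.e (nat_lit 106240) (nat_lit 16) (.e (nat_lit 401454) (nat_lit 12) (.e (nat_lit 483072) (nat_lit 2) .nil))))) (.g (nat_lit 0) (.e (nat_lit 134462) (nat_lit 0) .nil) .nil))) 
(.lf (nat_lit 487312) (.g (nat_lit 1034) (.e (nat_lit 24659) (nat_lit 13) (.e (nat_lit 393293) (nat_lit 26) (.e (nat_lit 475214) (nat_lit 42) (.e (nat_lit 728832) (nat_lit 4) .nil)))) (.g (nat_lit 0) (.e (nat_lit 135264) (nat_lit 0) .nil) .nil)))))) (.nd (nat_lit 7) (.nd (nat_lit 8) (.nd (nat_lit 9) 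
(.lf (nat_lit 486480) (.g (nat_lit 2214) (.e (nat_lit 24628) (nat_lit 9) (.e (nat_lit 336454) (nat_lit 34) (.e (nat_lit 483366) (nat_lit 18) (.e (nat_lit 57844) (nat_lit 252) (.e (nat_lit 57370) (nat_lit 2) (.e (nat_lit 90158) (nat_lit 11) .nil)))))) (.g (nat_lit 1) (.e (nat_lit 134052) (nat_lit 0) .nil) .nil))) 
(.lf (nat_lit 486992) (.g (nat_lit 2381) (.e (nat_lit 24651) (nat_lit 12) (.e (nat_lit 385068) (nat_lit 26) (.e (nat_lit 532501) (nat_lit 1) (.e (nat_lit 57830) (nat_lit 250) (.e (nat_lit 1201) (nat_lit 88) .nil))))) (.g (nat_lit 0) (.e (nat_lit 134817) (nat_lit 0) .nil) .nil)))) (.nd (nat_lit 9) 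
(.lf (nat_lit 486736) (.g (nat_lit 4327) (.e (nat_lit 24630) (nat_lit 9) (.e (nat_lit 336456) (nat_lit 34) (.e (nat_lit 483363) (nat_lit 18) (.e (nat_lit 57854) (nat_lit 252) (.e (nat_lit 57373) (nat_lit 2) (.e (nat_lit 90160) (nat_lit 11) .nil)))))) (.g (nat_lit 1) (.e (nat_lit 134385) (nat_lit 0) .nil) .nil))) 
(.lf (nat_lit 487248) (.g (nat_lit 2093) (.e (nat_lit 24658) (nat_lit 13) (.e (nat_lit 393281) (nat_lit 23) (.e (nat_lit 426108) (nat_lit 1) (.e (nat_lit 164330) (nat_lit 230) (.e (nat_lit 163878) (nat_lit 4) (.e (nat_lit 213032) (nat_lit 11) .nil)))))) (.g (nat_lit 1) (.e (nat_lit 135192) (nat_lit 0) .nil) .nil))))) (.nd (nat_lit 8) (.nd (nat_lit 9) 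
(.lf (nat_lit 486608) (.g (nat_lit 2512) (.e (nat_lit 24630) (nat_lit 9) (.e (nat_lit 336366) (nat_lit 27) (.e (nat_lit 426499) (nat_lit 27) (.e (nat_lit 335986) (nat_lit 1) (.e (nat_lit 57849) (nat_lit 252) (.e (nat_lit 57372) (nat_lit 2) (.e (nat_lit 90158) (nat_lit 11) .nil))))))) (.g (nat_lit 1) (.e (nat_lit 134201) (nat_lit 0) .nil) .nil))) 
(.lf (nat_lit 487120) (.g (nat_lit 3002) (.e (nat_lit 24657) (nat_lit 13) (.e (nat_lit 393229) (nat_lit 9) (.e (nat_lit 335986) (nat_lit 1) (.e (nat_lit 57847) (nat_lit 252) (.e (nat_lit 57375) (nat_lit 2) (.e (nat_lit 90157) (nat_lit 11) .nil)))))) (.g (nat_lit 1) (.e (nat_lit 135028) (nat_lit 0) .nil) .nil)))) (.nd (nat_lit 9) 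
(.lf (nat_lit 486864) (.g (nat_lit 2522) (.e (nat_lit 24640) (nat_lit 10) (.e (nat_lit 344156) (nat_lit 36) (.e (nat_lit 638985) (nat_lit 5) (.e (nat_lit 3015) (nat_lit 187) (.e (nat_lit 450563) (nat_lit 0) (.e (nat_lit 5799) (nat_lit 320) (.e (nat_lit 2551) (nat_lit 159) .nil))))))) (.g (nat_lit 1) (.e (nat_lit 134604) (nat_lit 0) .nil) .nil))) 
(.lf (nat_lit 487376) (.g (nat_lit 1741) (.e (nat_lit 24660) (nat_lit 13) (.e (nat_lit 393280) (nat_lit 23) (.e (nat_lit 426098) (nat_lit 1) (.e (nat_lit 164325) (nat_lit 230) (.e (nat_lit 163882) (nat_lit 4) (.e (nat_lit 213030) (nat_lit 11) .nil)))))) (.g (nat_lit 1) (.e (nat_lit 135346) (nat_lit 0) .nil) .nil))))))) (.nd (nat_lit 6) (.nd (nat_lit 7) (.nd (nat_lit 8) (.nd (nat_lit 9) 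
(.lf (nat_lit 486448) (.g (nat_lit 3096) (.e (nat_lit 24628) (nat_lit 9) (.e (nat_lit 336454) (nat_lit 34) (.e (nat_lit 483365) (nat_lit 18) (.e (nat_lit 57845) (nat_lit 252) .nil)))) (.g (nat_lit 0) (.e (nat_lit 134020) (nat_lit 0) .nil) .nil))) 
(.lf (nat_lit 486960) (.g (nat_lit 1749) (.e (nat_lit 24648) (nat_lit 12) (.e (nat_lit 385094) (nat_lit 49) (.e (nat_lit 778323) (nat_lit 5) (.e (nat_lit 73792) (nat_lit 45) .nil)))) (.g (nat_lit 0) (.e (nat_lit 134750) (nat_lit 0) .nil) .nil)))) (.nd (nat_lit 9) 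
(.lf (nat_lit 486704) (.g (nat_lit 3072) (.e (nat_lit 24630) (nat_lit 9) (.e (nat_lit 336454) (nat_lit 34) (.e (nat_lit 483365) (nat_lit 18) (.e (nat_lit 57848) (nat_lit 252) (.e (nat_lit 57372) (nat_lit 2) (.e (nat_lit 90156) (nat_lit 11) .nil)))))) (.g (nat_lit 1) (.e (nat_lit 134351) (nat_lit 0) .nil) .nil))) 
(.lf (nat_lit 487216) (.g (nat_lit 1629) (.e (nat_lit 24658) (nat_lit 13) (.e (nat_lit 393281) (nat_lit 23) (.e (nat_lit 426099) (nat_lit 1) (.e (nat_lit 164305) (nat_lit 226) (.e (nat_lit 2612) (nat_lit 163) (.e (nat_lit 164041) (nat_lit 55) (.e (nat_lit 786176) (nat_lit 11) .nil))))))) (.g (nat_lit 1) (.e (nat_lit 135157) (nat_lit 0) .nil) .nil))))) (.nd (nat_lit 8) (.nd (nat_lit 9) 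
(.lf (nat_lit 486576) (.g (nat_lit 1913) (.e (nat_lit 24629) (nat_lit 9) (.e (nat_lit 336444) (nat_lit 32) (.e (nat_lit 466971) (nat_lit 21) (.e (nat_lit 164326) (nat_lit 230) (.e (nat_lit 163882) (nat_lit 4) (.e (nat_lit 213030) (nat_lit 11) .nil)))))) (.g (nat_lit 1) (.e (nat_lit 134152) (nat_lit 0) .nil) .nil))) 
(.lf (nat_lit 487088) (.g (nat_lit 2399) (.e (nat_lit 24655) (nat_lit 13) (.e (nat_lit 393281) (nat_lit 23) (.e (nat_lit 426100) (nat_lit 1) (.e (nat_lit 164332) (nat_lit 230) (.e (nat_lit 163880) (nat_lit 4) (.e (nat_lit 213031) (nat_lit 11) .nil)))))) (.g (nat_lit 1) (.e (nat_lit 134975) (nat_lit 0) .nil) .nil)))) (.nd (nat_lit 9) 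
(.lf (nat_lit 486832) (.g (nat_lit 2141) (.e (nat_lit 32512) (nat_lit 9) (.e (nat_lit 336454) (nat_lit 34) (.e (nat_lit 483365) (nat_lit 18) (.e (nat_lit 57848) (nat_lit 252) .nil)))) (.g (nat_lit 0) (.e (nat_lit 134530) (nat_lit 0) .nil) .nil))) 
(.lf (nat_lit 487344) (.g (nat_lit 901) (.e (nat_lit 24660) (nat_lit 13) (.e (nat_lit 393260) (nat_lit 21) (.e (nat_lit 409636) (nat_lit 14) (.e (nat_lit 270336) (nat_lit 0) .nil)))) (.g (nat_lit 0) (.e (nat_lit 135313) (nat_lit 0) .nil) .nil)))))) (.nd (nat_lit 7) (.nd (nat_lit 8) (.nd (nat_lit 9) 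
(.lf (nat_lit 486512) (.g (nat_lit 2384) (.e (nat_lit 24628) (nat_lit 9) (.e (nat_lit 336456) (nat_lit 34) (.e (nat_lit 483365) (nat_lit 18) (.e (nat_lit 57846) (nat_lit 252) (.e (nat_lit 57371) (nat_lit 2) (.e (nat_lit 90160) (nat_lit 11) .nil)))))) (.g (nat_lit 1) (.e (nat_lit 134084) (nat_lit 0) .nil) .nil))) 
(.lf (nat_lit 487024) (.g (nat_lit 3590) (.e (nat_lit 24652) (nat_lit 12) (.e (nat_lit 385074) (nat_lit 31) (.e (nat_lit 573484) (nat_lit 13) (.e (nat_lit 65617) (nat_lit 10) (.e (nat_lit 344133) (nat_lit 26) (.e (nat_lit 557086) (nat_lit 11) .nil)))))) (.g (nat_lit 1) (.e (nat_lit 134867) (nat_lit 0) .nil) .nil)))) (.nd (nat_lit 9) 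
(.lf (nat_lit 486768) (.g (nat_lit 4045) (.e (nat_lit 24630) (nat_lit 9) (.e (nat_lit 336456) (nat_lit 34) (.e (nat_lit 483365) (nat_lit 18) (.e (nat_lit 57854) (nat_lit 252) (.e (nat_lit 57373) (nat_lit 2) (.e (nat_lit 90158) (nat_lit 11) .nil)))))) (.g (nat_lit 1) (.e (nat_lit 134421) (nat_lit 0) .nil) .nil))) 
(.lf (nat_lit 487280) (.g (nat_lit 1302) (.e (nat_lit 24659) (nat_lit 13) (.e (nat_lit 393266) (nat_lit 23) (.e (nat_lit 426109) (nat_lit 1) (.e (nat_lit 164326) (nat_lit 230) (.e (nat_lit 163881) (nat_lit 4) (.e (nat_lit 213030) (nat_lit 11) .nil)))))) (.g (nat_lit 1) (.e (nat_lit 135230) (nat_lit 0) .nil) .nil))))) (.nd (nat_lit 8) (.nd (nat_lit 9) 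
(.lf (nat_lit 486640) (.g (nat_lit 1062) (.e (nat_lit 24630) (nat_lit 9) (.e (nat_lit 336443) (nat_lit 32) (.e (nat_lit 466969) (nat_lit 21) (.e (nat_lit 164324) (nat_lit 230) .nil)))) (.g (nat_lit 0) (.e (nat_lit 134278) (nat_lit 0) .nil) .nil))) 
(.lf (nat_lit 487152) (.g (nat_lit 774) (.e (nat_lit 24657) (nat_lit 13) (.e (nat_lit 393271) (nat_lit 23) (.e (nat_lit 426449) (nat_lit 20) .nil))) (.g (nat_lit 0) (.e (nat_lit 135070) (nat_lit 0) .nil) .nil)))) (.nd (nat_lit 9) 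
(.lf (nat_lit 486896) (.g (nat_lit 2774) (.e (nat_lit 24640) (nat_lit 10) (.e (nat_lit 344156) (nat_lit 36) (.e (nat_lit 638998) (nat_lit 8) (.e (nat_lit 172113) (nat_lit 10) (.e (nat_lit 434203) (nat_lit 18) (.e (nat_lit 5837) (nat_lit 320) (.e (nat_lit 2551) (nat_lit 159) .nil))))))) (.g (nat_lit 1) (.e (nat_lit 134636) (nat_lit 0) .nil) .nil))) 
(.lf (nat_lit 487408) (.g (nat_lit 1452) (.e (nat_lit 24661) (nat_lit 14) (.e (nat_lit 401454) (nat_lit 12) (.e (nat_lit 475213) (nat_lit 42) .nil))) (.g (nat_lit 0) (.e (nat_lit 135406) (nat_lit 0) .nil) .nil))))))))) (.nd (nat_lit 4) (.nd (nat_lit 5) (.nd (nat_lit 6) (.nd (nat_lit 7) (.nd (nat_lit 8) (.nd (nat_lit 9) 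
(.lf (nat_lit 486408) (.g (nat_lit 2518) (.e (nat_lit 24628) (nat_lit 9) (.e (nat_lit 336443) (nat_lit 32) (.e (nat_lit 466972) (nat_lit 21) (.e (nat_lit 164330) (nat_lit 230) (.e (nat_lit 163853) (nat_lit 0) .nil))))) (.g (nat_lit 0) (.e (nat_lit 133980) (nat_lit 0) .nil) .nil))) 
(.lf (nat_lit 486920) (.g (nat_lit 2108) (.e (nat_lit 24640) (nat_lit 10) (.e (nat_lit 344156) (nat_lit 36) (.e (nat_lit 638999) (nat_lit 8) (.e (nat_lit 172113) (nat_lit 10) (.e (nat_lit 434203) (nat_lit 18) (.e (nat_lit 5799) (nat_lit 320) (.e (nat_lit 2552) (nat_lit 159) .nil))))))) (.g (nat_lit 1) (.e (nat_lit 134667) (nat_lit 0) .nil) .nil)))) (.nd (nat_lit 9) 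
(.lf (nat_lit 486664) (.g (nat_lit 3157) (.e (nat_lit 24630) (nat_lit 9) (.e (nat_lit 336454) (nat_lit 34) (.e (nat_lit 483363) (nat_lit 18) (.e (nat_lit 57847) (nat_lit 252) (.e (nat_lit 57370) (nat_lit 2) (.e (nat_lit 90158) (nat_lit 11) .nil)))))) (.g (nat_lit 1) (.e (nat_lit 134311) (nat_lit 0) .nil) .nil))) 
(.lf (nat_lit 487176) (.g (nat_lit 889) (.e (nat_lit 24657) (nat_lit 13) (.e (nat_lit 393298) (nat_lit 27) (.e (nat_lit 491556) (nat_lit 9) .nil))) (.g (nat_lit 0) (.e (nat_lit 135104) (nat_lit 0) .nil) .nil))))) (.nd (nat_lit 8) (.nd (nat_lit 9) 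
(.lf (nat_lit 486536) (.g (nat_lit 4146) (.e (nat_lit 24629) (nat_lit 9) (.e (nat_lit 336324) (nat_lit 18) (.e (nat_lit 204831) (nat_lit 18) (.e (nat_lit 57854) (nat_lit 252) .nil)))) (.g (nat_lit 0) (.e (nat_lit 134109) (nat_lit 0) .nil) .nil))) 
(.lf (nat_lit 487048) (.g (nat_lit 1572) (.e (nat_lit 24654) (nat_lit 13) (.e (nat_lit 393238) (nat_lit 17) (.e (nat_lit 7107) (nat_lit 380) (.e (nat_lit 164261) (nat_lit 221) .nil)))) (.g (nat_lit 0) (.e (nat_lit 134927) (nat_lit 0) .nil) .nil)))) (.nd (nat_lit 9) 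
(.lf (nat_lit 486792) (.g (nat_lit 1418) (.e (nat_lit 24634) (nat_lit 9) (.e (nat_lit 336013) (nat_lit 2) (.e (nat_lit 98048) (nat_lit 2) (.e (nat_lit 16456) (nat_lit 12) (.e (nat_lit 483072) (nat_lit 2) .nil))))) (.g (nat_lit 1) (.e (nat_lit 134453) (nat_lit 0) .nil) .nil))) 
(.lf (nat_lit 487304) (.g (nat_lit 3153) (.e (nat_lit 24659) (nat_lit 13) (.e (nat_lit 393281) (nat_lit 23) (.e (nat_lit 426100) (nat_lit 1) (.e (nat_lit 164332) (nat_lit 230) (.e (nat_lit 163878) (nat_lit 4) (.e (nat_lit 213030) (nat_lit 11) .nil)))))) (.g (nat_lit 1) (.e (nat_lit 135254) (nat_lit 0) .nil) .nil)))))) (.nd (nat_lit 7) (.nd (nat_lit 8) (.nd (nat_lit 9) 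
(.lf (nat_lit 486472) (.g (nat_lit 2145) (.e (nat_lit 24628) (nat_lit 9) (.e (nat_lit 336454) (nat_lit 34) (.e (nat_lit 483365) (nat_lit 18) (.e (nat_lit 57852) (nat_lit 252) (.e (nat_lit 57371) (nat_lit 2) (.e (nat_lit 90160) (nat_lit 11) .nil)))))) (.g (nat_lit 1) (.e (nat_lit 134044) (nat_lit 0) .nil) .nil))) 
(.lf (nat_lit 486984) (.g (nat_lit 3548) (.e (nat_lit 24650) (nat_lit 12) (.e (nat_lit 385072) (nat_lit 31) (.e (nat_lit 573484) (nat_lit 13) (.e (nat_lit 65610) (nat_lit 10) (.e (nat_lit 344129) (nat_lit 26) (.e (nat_lit 557085) (nat_lit 11) .nil)))))) (.g (nat_lit 1) (.e (nat_lit 134795) (nat_lit 0) .nil) .nil)))) (.nd (nat_lit 9) 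
(.lf (nat_lit 486728) (.g (nat_lit 3316) (.e (nat_lit 24630) (nat_lit 9) (.e (nat_lit 336456) (nat_lit 34) (.e (nat_lit 483363) (nat_lit 18) (.e (nat_lit 57847) (nat_lit 252) (.e (nat_lit 57375) (nat_lit 2) (.e (nat_lit 90158) (nat_lit 11) .nil)))))) (.g (nat_lit 1) (.e (nat_lit 134377) (nat_lit 0) .nil) .nil))) 
(.lf (nat_lit 487240) (.g (nat_lit 1087) (.e (nat_lit 24658) (nat_lit 13) (.e (nat_lit 393281) (nat_lit 23) (.e (nat_lit 426108) (nat_lit 1) (.e (nat_lit 164329) (nat_lit 230) .nil)))) (.g (nat_lit 0) (.e (nat_lit 135184) (nat_lit 0) .nil) .nil))))) (.nd (nat_lit 8) (.nd (nat_lit 9) 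
(.lf (nat_lit 486600) (.g (nat_lit 2821) (.e (nat_lit 24630) (nat_lit 9) (.e (nat_lit 336324) (nat_lit 18) (.e (nat_lit 204831) (nat_lit 18) (.e (nat_lit 57851) (nat_lit 252) .nil)))) (.g (nat_lit 0) (.e (nat_lit 134190) (nat_lit 0) .nil) .nil))) 
(.lf (nat_lit 487112) (.g (nat_lit 2108) (.e (nat_lit 24656) (nat_lit 13) (.e (nat_lit 393281) (nat_lit 23) (.e (nat_lit 426100) (nat_lit 1) (.e (nat_lit 164330) (nat_lit 230) (.e (nat_lit 163878) (nat_lit 4) (.e (nat_lit 213030) (nat_lit 11) .nil)))))) (.g (nat_lit 1) (.e (nat_lit 135010) (nat_lit 0) .nil) .nil)))) (.nd (nat_lit 9) 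
(.lf (nat_lit 486856) (.g (nat_lit 2621) (.e (nat_lit 24640) (nat_lit 10) (.e (nat_lit 344156) (nat_lit 36) (.e (nat_lit 638985) (nat_lit 5) (.e (nat_lit 3015) (nat_lit 187) (.e (nat_lit 450562) (nat_lit 0) (.e (nat_lit 5849) (nat_lit 320) (.e (nat_lit 2551) (nat_lit 159) .nil))))))) (.g (nat_lit 1) (.e (nat_lit 134596) (nat_lit 0) .nil) .nil))) 
(.lf (nat_lit 487368) (.g (nat_lit 1649) (.e (nat_lit 24660) (nat_lit 13) (.e (nat_lit 393274) (nat_lit 23) (.e (nat_lit 426097) (nat_lit 1) (.e (nat_lit 164327) (nat_lit 230) (.e (nat_lit 163881) (nat_lit 4) (.e (nat_lit 213032) (nat_lit 11) .nil)))))) (.g (nat_lit 1) (.e (nat_lit 135338) (nat_lit 0) .nil) .nil))))))) (.nd (nat_lit 6) (.nd (nat_lit 7) (.nd (nat_lit 8) (.nd (nat_lit 9) 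
(.lf (nat_lit 486440) (.g (nat_lit 3314) (.e (nat_lit 24628) (nat_lit 9) (.e (nat_lit 336454) (nat_lit 34) (.e (nat_lit 483364) (nat_lit 18) (.e (nat_lit 57852) (nat_lit 252) (.e (nat_lit 57373) (nat_lit 2) (.e (nat_lit 90158) (nat_lit 11) .nil)))))) (.g (nat_lit 1) (.e (nat_lit 134012) (nat_lit 0) .nil) .nil))) 
(.lf (nat_lit 486952) (.g (nat_lit 2397) (.e (nat_lit 24647) (nat_lit 12) (.e (nat_lit 385105) (nat_lit 50) (.e (nat_lit 786483) (nat_lit 30) (.e (nat_lit 360451) (nat_lit 0) (.e (nat_lit 4764) (nat_lit 281) (.e (nat_lit 2557) (nat_lit 159) .nil)))))) (.g (nat_lit 1) (.e (nat_lit 134726) (nat_lit 0) .nil) .nil)))) (.nd (nat_lit 9) 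
(.lf (nat_lit 486696) (.g (nat_lit 3169) (.e (nat_lit 24630) (nat_lit 9) (.e (nat_lit 336454) (nat_lit 34) (.e (nat_lit 483365) (nat_lit 18) (.e (nat_lit 57847) (nat_lit 252) (.e (nat_lit 57370) (nat_lit 2) (.e (nat_lit 90158) (nat_lit 11) .nil)))))) (.g (nat_lit 1) (.e (nat_lit 134343) (nat_lit 0) .nil) .nil))) 
(.lf (nat_lit 487208) (.g (nat_lit 1814) (.e (nat_lit 24658) (nat_lit 13) (.e (nat_lit 393281) (nat_lit 23) (.e (nat_lit 426098) (nat_lit 1) (.e (nat_lit 164327) (nat_lit 230) (.e (nat_lit 163849) (nat_lit 0) (.e (nat_lit 3617) (nat_lit 227) (.e (nat_lit 778462) (nat_lit 11) .nil))))))) (.g (nat_lit 1) (.e (nat_lit 135148) (nat_lit 0) .nil) .nil))))) (.nd (nat_lit 8) (.nd (nat_lit 9) 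
(.lf (nat_lit 486568) (.g (nat_lit 2300) (.e (nat_lit 24629) (nat_lit 9) (.e (nat_lit 336443) (nat_lit 32) (.e (nat_lit 466972) (nat_lit 21) (.e (nat_lit 164329) (nat_lit 230) (.e (nat_lit 163878) (nat_lit 4) (.e (nat_lit 213030) (nat_lit 11) .nil)))))) (.g (nat_lit 1) (.e (nat_lit 134144) (nat_lit 0) .nil) .nil))) 
(.lf (nat_lit 487080) (.g (nat_lit 3012) (.e (nat_lit 24655) (nat_lit 13) (.e (nat_lit 393281) (nat_lit 23) (.e (nat_lit 426099) (nat_lit 1) (.e (nat_lit 164332) (nat_lit 230) (.e (nat_lit 163880) (nat_lit 4) (.e (nat_lit 213032) (nat_lit 11) .nil)))))) (.g (nat_lit 1) (.e (nat_lit 134967) (nat_lit 0) .nil) .nil)))) (.nd (nat_lit 9) 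
(.lf (nat_lit 486824) (.g (nat_lit 1693) (.e (nat_lit 24638) (nat_lit 9) (.e (nat_lit 336405) (nat_lit 27) (.e (nat_lit 426344) (nat_lit 14) (.e (nat_lit 491560) (nat_lit 10) (.e (nat_lit 344179) (nat_lit 44) .nil))))) (.g (nat_lit 0) (.e (nat_lit 134522) (nat_lit 0) .nil) .nil))) 
(.lf (nat_lit 487336) (.g (nat_lit 1174) (.e (nat_lit 24660) (nat_lit 13) (.e (nat_lit 393260) (nat_lit 21) (.e (nat_lit 409617) (nat_lit 10) (.e (nat_lit 5353) (nat_lit 298) .nil)))) (.g (nat_lit 0) (.e (nat_lit 135304) (nat_lit 0) .nil) .nil)))))) (.nd (nat_lit 7) (.nd (nat_lit 8) (.nd (nat_lit 9) 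
(.lf (nat_lit 486504) (.g (nat_lit 3228) (.e (nat_lit 24628) (nat_lit 9) (.e (nat_lit 336456) (nat_lit 34) (.e (nat_lit 483363) (nat_lit 18) (.e (nat_lit 57854) (nat_lit 252) (.e (nat_lit 57371) (nat_lit 2) (.e (nat_lit 90160) (nat_lit 11) .nil)))))) (.g (nat_lit 1) (.e (nat_lit 134076) (nat_lit 0) .nil) .nil))) 
(.lf (nat_lit 487016) (.g (nat_lit 862) (.e (nat_lit 24651) (nat_lit 12) (.e (nat_lit 385109) (nat_lit 51) (.e (nat_lit 802560) (nat_lit 1) .nil))) (.g (nat_lit 0) (.e (nat_lit 134857) (nat_lit 0) .nil) .nil)))) (.nd (nat_lit 9) 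
(.lf (nat_lit 486760) (.g (nat_lit 3167) (.e (nat_lit 24630) (nat_lit 9) (.e (nat_lit 336456) (nat_lit 34) (.e (nat_lit 483365) (nat_lit 18) (.e (nat_lit 57849) (nat_lit 252) (.e (nat_lit 57370) (nat_lit 2) (.e (nat_lit 90158) (nat_lit 11) .nil)))))) (.g (nat_lit 1) (.e (nat_lit 134413) (nat_lit 0) .nil) .nil))) 
(.lf (nat_lit 487272) (.g (nat_lit 2767) (.e (nat_lit 24658) (nat_lit 13) (.e (nat_lit 393301) (nat_lit 27) (.e (nat_lit 491560) (nat_lit 10) (.e (nat_lit 344088) (nat_lit 18) (.e (nat_lit 7397) (nat_lit 396) .nil))))) (.g (nat_lit 0) (.e (nat_lit 135221) (nat_lit 0) .nil) .nil))))) (.nd (nat_lit 8) (.nd (nat_lit 9) 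
(.lf (nat_lit 486632) (.g (nat_lit 2003) (.e (nat_lit 24630) (nat_lit 9) (.e (nat_lit 336379) (nat_lit 27) (.e (nat_lit 426572) (nat_lit 35) (.e (nat_lit 401434) (nat_lit 9) (.e (nat_lit 426125) (nat_lit 2) (.e (nat_lit 204544) (nat_lit 2) .nil)))))) (.g (nat_lit 1) (.e (nat_lit 134231) (nat_lit 0) .nil) .nil))) 
(.lf (nat_lit 487144) (.g (nat_lit 1443) (.e (nat_lit 24657) (nat_lit 13) (.e (nat_lit 393260) (nat_lit 21) (.e (nat_lit 409617) (nat_lit 10) (.e (nat_lit 4934) (nat_lit 287) .nil)))) (.g (nat_lit 0) (.e (nat_lit 135059) (nat_lit 0) .nil) .nil)))) (.nd (nat_lit 9) 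
(.lf (nat_lit 486888) (.g (nat_lit 3757) (.e (nat_lit 24640) (nat_lit 10) (.e (nat_lit 344156) (nat_lit 36) (.e (nat_lit 638998) (nat_lit 8) (.e (nat_lit 172113) (nat_lit 10) (.e (nat_lit 434203) (nat_lit 18) (.e (nat_lit 5799) (nat_lit 320) (.e (nat_lit 2552) (nat_lit 159) .nil))))))) (.g (nat_lit 1) (.e (nat_lit 134628) (nat_lit 0) .nil) .nil))) 
(.lf (nat_lit 487400) (.g (nat_lit 2264) (.e (nat_lit 24661) (nat_lit 14) (.e (nat_lit 401428) (nat_lit 3) (.e (nat_lit 204868) (nat_lit 29) (.e (nat_lit 360473) (nat_lit 8) (.e (nat_lit 557085) (nat_lit 11) .nil))))) (.g (nat_lit 1) (.e (nat_lit 135385) (nat_lit 0) .nil) .nil)))))))) (.nd (nat_lit 5) (.nd (nat_lit 6) (.nd (nat_lit 7) (.nd (nat_lit 8) (.nd (nat_lit 9) 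
(.lf (nat_lit 486424) (.g (nat_lit 2040) (.e (nat_lit 24628) (nat_lit 9) (.e (nat_lit 336450) (nat_lit 33) (.e (nat_lit 475152) (nat_lit 17) (.e (nat_lit 57810) (nat_lit 246) (.e (nat_lit 57596) (nat_lit 82) (.e (nat_lit 499900) (nat_lit 7) .nil)))))) (.g (nat_lit 1) (.e (nat_lit 133996) (nat_lit 0) .nil) .nil))) 
(.lf (nat_lit 486936) (.g (nat_lit 1236) (.e (nat_lit 24646) (nat_lit 11) (.e (nat_lit 376576) (nat_lit 19) (.e (nat_lit 500046) (nat_lit 16) (.e (nat_lit 16459) (nat_lit 12) (.e (nat_lit 483072) (nat_lit 2) .nil))))) (.g (nat_lit 1) (.e (nat_lit 134706) (nat_lit 0) .nil) .nil)))) (.nd (nat_lit 9) 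
(.lf (nat_lit 486680) (.g (nat_lit 2783) (.e (nat_lit 24630) (nat_lit 9) (.e (nat_lit 336454) (nat_lit 34) (.e (nat_lit 483364) (nat_lit 18) (.e (nat_lit 57852) (nat_lit 252) (.e (nat_lit 57370) (nat_lit 2) (.e (nat_lit 90158) (nat_lit 11) .nil)))))) (.g (nat_lit 1) (.e (nat_lit 134327) (nat_lit 0) .nil) .nil))) 
(.lf (nat_lit 487192) (.g (nat_lit 3641) (.e (nat_lit 24658) (nat_lit 13) (.e (nat_lit 393238) (nat_lit 17) (.e (nat_lit 6989) (nat_lit 377) (.e (nat_lit 2777) (nat_lit 178) (.e (nat_lit 286738) (nat_lit 6) .nil))))) (.g (nat_lit 0) (.e (nat_lit 135126) (nat_lit 0) .nil) .nil))))) (.nd (nat_lit 8) (.nd (nat_lit 9) 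
(.lf (nat_lit 486552) (.g (nat_lit 2096) (.e (nat_lit 24629) (nat_lit 9) (.e (nat_lit 336430) (nat_lit 29) (.e (nat_lit 442421) (nat_lit 21) (.e (nat_lit 164326) (nat_lit 230) (.e (nat_lit 163881) (nat_lit 4) (.e (nat_lit 213032) (nat_lit 11) .nil)))))) (.g (nat_lit 1) (.e (nat_lit 134127) (nat_lit 0) .nil) .nil))) 
(.lf (nat_lit 487064) (.g (nat_lit 820) (.e (nat_lit 24655) (nat_lit 13) (.e (nat_lit 393233) (nat_lit 17) (.e (nat_lit 7591) (nat_lit 407) (.e (nat_lit 81664) (nat_lit 26) .nil)))) (.g (nat_lit 0) (.e (nat_lit 134945) (nat_lit 0) .nil) .nil)))) (.nd (nat_lit 9) 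
(.lf (nat_lit 486808) (.g (nat_lit 2508) (.e (nat_lit 24636) (nat_lit 9) (.e (nat_lit 336407) (nat_lit 27) (.e (nat_lit 426011) (nat_lit 0) (.e (nat_lit 7593) (nat_lit 407) (.e (nat_lit 73775) (nat_lit 26) (.e (nat_lit 778466) (nat_lit 11) .nil)))))) (.g (nat_lit 1) (.e (nat_lit 134470) (nat_lit 0) .nil) .nil))) 
(.lf (nat_lit 487320) (.g (nat_lit 1313) (.e (nat_lit 24660) (nat_lit 13) (.e (nat_lit 393238) (nat_lit 17) (.e (nat_lit 6989) (nat_lit 377) (.e (nat_lit 2777) (nat_lit 178) .nil)))) (.g (nat_lit 0) (.e (nat_lit 135280) (nat_lit 0) .nil) .nil)))))) (.nd (nat_lit 7) (.nd (nat_lit 8) (.nd (nat_lit 9) 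
(.lf (nat_lit 486488) (.g (nat_lit 2967) (.e (nat_lit 24628) (nat_lit 9) (.e (nat_lit 336454) (nat_lit 34) (.e (nat_lit 483366) (nat_lit 18) (.e (nat_lit 57847) (nat_lit 252) (.e (nat_lit 57372) (nat_lit 2) (.e (nat_lit 90158) (nat_lit 11) .nil)))))) (.g (nat_lit 1) (.e (nat_lit 134060) (nat_lit 0) .nil) .nil))) 
(.lf (nat_lit 487000) (.g (nat_lit 4436) (.e (nat_lit 24651) (nat_lit 12) (.e (nat_lit 385072) (nat_lit 31) (.e (nat_lit 573485) (nat_lit 13) (.e (nat_lit 65619) (nat_lit 10) (.e (nat_lit 344129) (nat_lit 26) (.e (nat_lit 557087) (nat_lit 11) .nil)))))) (.g (nat_lit 1) (.e (nat_lit 134825) (nat_lit 0) .nil) .nil)))) (.nd (nat_lit 9) 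
(.lf (nat_lit 486744) (.g (nat_lit 3494) (.e (nat_lit 24630) (nat_lit 9) (.e (nat_lit 336456) (nat_lit 34) (.e (nat_lit 483364) (nat_lit 18) (.e (nat_lit 57854) (nat_lit 252) (.e (nat_lit 57371) (nat_lit 2) (.e (nat_lit 90158) (nat_lit 11) .nil)))))) (.g (nat_lit 1) (.e (nat_lit 134393) (nat_lit 0) .nil) .nil))) 
(.lf (nat_lit 487256) (.g (nat_lit 707) (.e (nat_lit 24658) (nat_lit 13) (.e (nat_lit 393300) (nat_lit 27) (.e (nat_lit 491554) (nat_lit 9) .nil))) (.g (nat_lit 0) (.e (nat_lit 135205) (nat_lit 0) .nil) .nil))))) (.nd (nat_lit 8) (.nd (nat_lit 9) 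
(.lf (nat_lit 486616) (.g (nat_lit 1489) (.e (nat_lit 24630) (nat_lit 9) (.e (nat_lit 336369) (nat_lit 27) (.e (nat_lit 426173) (nat_lit 7) (.e (nat_lit 409617) (nat_lit 10) (.e (nat_lit 5016) (nat_lit 290) .nil))))) (.g (nat_lit 0) (.e (nat_lit 134209) (nat_lit 0) .nil) .nil))) 
(.lf (nat_lit 487128) (.g (nat_lit 2193) (.e (nat_lit 24657) (nat_lit 13) (.e (nat_lit 393229) (nat_lit 9) (.e (nat_lit 335993) (nat_lit 1) (.e (nat_lit 57849) (nat_lit 252) (.e (nat_lit 57375) (nat_lit 2) .nil))))) (.g (nat_lit 0) (.e (nat_lit 135036) (nat_lit 0) .nil) .nil)))) (.nd (nat_lit 9) 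
(.lf (nat_lit 486872) (.g (nat_lit 2926) (.e (nat_lit 24640) (nat_lit 10) (.e (nat_lit 344156) (nat_lit 36) (.e (nat_lit 638985) (nat_lit 5) (.e (nat_lit 3027) (nat_lit 187) (.e (nat_lit 450564) (nat_lit 0) (.e (nat_lit 5854) (nat_lit 320) (.e (nat_lit 2551) (nat_lit 159) .nil))))))) (.g (nat_lit 1) (.e (nat_lit 134612) (nat_lit 0) .nil) .nil))) 
(.lf (nat_lit 487384) (.g (nat_lit 2760) (.e (nat_lit 24660) (nat_lit 13) (.e (nat_lit 393281) (nat_lit 23) (.e (nat_lit 426098) (nat_lit 1) (.e (nat_lit 164327) (nat_lit 230) (.e (nat_lit 163882) (nat_lit 4) (.e (nat_lit 213032) (nat_lit 11) .nil)))))) (.g (nat_lit 1) (.e (nat_lit 135354) (nat_lit 0) .nil) .nil))))))) (.nd (nat_lit 6) (.nd (nat_lit 7) (.nd (nat_lit 8) (.nd (nat_lit 9) 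
(.lf (nat_lit 486456) (.g (nat_lit 2309) (.e (nat_lit 24628) (nat_lit 9) (.e (nat_lit 336454) (nat_lit 34) (.e (nat_lit 483365) (nat_lit 18) (.e (nat_lit 57847) (nat_lit 252) (.e (nat_lit 57371) (nat_lit 2) .nil))))) (.g (nat_lit 0) (.e (nat_lit 134028) (nat_lit 0) .nil) .nil))) 
(.lf (nat_lit 486968) (.g (nat_lit 2180) (.e (nat_lit 24650) (nat_lit 12) (.e (nat_lit 385066) (nat_lit 26) (.e (nat_lit 532501) (nat_lit 1) (.e (nat_lit 57852) (nat_lit 252) (.e (nat_lit 57440) (nat_lit 18) (.e (nat_lit 392960) (nat_lit 10) .nil)))))) (.g (nat_lit 1) (.e (nat_lit 134775) (nat_lit 0) .nil) .nil)))) (.nd (nat_lit 9) 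
(.lf (nat_lit 486712) (.g (nat_lit 2182) (.e (nat_lit 24630) (nat_lit 9) (.e (nat_lit 336454) (nat_lit 34) (.e (nat_lit 483365) (nat_lit 18) (.e (nat_lit 57851) (nat_lit 252) (.e (nat_lit 57370) (nat_lit 2) (.e (nat_lit 90158) (nat_lit 11) .nil)))))) (.g (nat_lit 1) (.e (nat_lit 134361) (nat_lit 0) .nil) .nil))) 
(.lf (nat_lit 487224) (.g (nat_lit 2125) (.e (nat_lit 24658) (nat_lit 13) (.e (nat_lit 393281) (nat_lit 23) (.e (nat_lit 426100) (nat_lit 1) (.e (nat_lit 164305) (nat_lit 226) (.e (nat_lit 2612) (nat_lit 163) (.e (nat_lit 164041) (nat_lit 55) (.e (nat_lit 786176) (nat_lit 11) .nil))))))) (.g (nat_lit 1) (.e (nat_lit 135166) (nat_lit 0) .nil) .nil))))) (.nd (nat_lit 8) (.nd (nat_lit 9) 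
(.lf (nat_lit 486584) (.g (nat_lit 1944) (.e (nat_lit 24629) (nat_lit 9) (.e (nat_lit 336456) (nat_lit 34) (.e (nat_lit 483364) (nat_lit 18) (.e (nat_lit 57854) (nat_lit 252) (.e (nat_lit 57373) (nat_lit 2) .nil))))) (.g (nat_lit 0) (.e (nat_lit 134161) (nat_lit 0) .nil) .nil))) 
(.lf (nat_lit 487096) (.g (nat_lit 1646) (.e (nat_lit 24655) (nat_lit 13) (.e (nat_lit 393299) (nat_lit 27) (.e (nat_lit 491560) (nat_lit 10) (.e (nat_lit 344178) (nat_lit 44) .nil)))) (.g (nat_lit 0) (.e (nat_lit 134989) (nat_lit 0) .nil) .nil)))) (.nd (nat_lit 9) 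
(.lf (nat_lit 486840) (.g (nat_lit 1934) (.e (nat_lit 32512) (nat_lit 9) (.e (nat_lit 336456) (nat_lit 34) (.e (nat_lit 483365) (nat_lit 18) (.e (nat_lit 57854) (nat_lit 252) (.e (nat_lit 57373) (nat_lit 2) .nil))))) (.g (nat_lit 0) (.e (nat_lit 134538) (nat_lit 0) .nil) .nil))) 
(.lf (nat_lit 487352) (.g (nat_lit 2242) (.e (nat_lit 24660) (nat_lit 13) (.e (nat_lit 393260) (nat_lit 21) (.e (nat_lit 409649) (nat_lit 18) (.e (nat_lit 303111) (nat_lit 0) (.e (nat_lit 2424) (nat_lit 157) .nil))))) (.g (nat_lit 0) (.e (nat_lit 135321) (nat_lit 0) .nil) .nil)))))) (.nd (nat_lit 7) (.nd (nat_lit 8) (.nd (nat_lit 9) 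
(.lf (nat_lit 486520) (.g (nat_lit 1873) (.e (nat_lit 24628) (nat_lit 9) (.e (nat_lit 336456) (nat_lit 34) (.e (nat_lit 483365) (nat_lit 18) (.e (nat_lit 57848) (nat_lit 252) (.e (nat_lit 57372) (nat_lit 2) .nil))))) (.g (nat_lit 0) (.e (nat_lit 134092) (nat_lit 0) .nil) .nil))) 
(.lf (nat_lit 487032) (.g (nat_lit 2817) (.e (nat_lit 24653) (nat_lit 12) (.e (nat_lit 385073) (nat_lit 31) (.e (nat_lit 573485) (nat_lit 13) (.e (nat_lit 65619) (nat_lit 10) (.e (nat_lit 344129) (nat_lit 26) (.e (nat_lit 557086) (nat_lit 11) .nil)))))) (.g (nat_lit 1) (.e (nat_lit 134893) (nat_lit 0) .nil) .nil)))) (.nd (nat_lit 9) 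
(.lf (nat_lit 486776) (.g (nat_lit 2449) (.e (nat_lit 24631) (nat_lit 9) (.e (nat_lit 336389) (nat_lit 27) (.e (nat_lit 426343) (nat_lit 14) (.e (nat_lit 491560) (nat_lit 10) (.e (nat_lit 344179) (nat_lit 44) (.e (nat_lit 778464) (nat_lit 11) .nil)))))) (.g (nat_lit 1) (.e (nat_lit 134430) (nat_lit 0) .nil) .nil))) 
(.lf (nat_lit 487288) (.g (nat_lit 1445) (.e (nat_lit 24659) (nat_lit 13) (.e (nat_lit 393279) (nat_lit 23) (.e (nat_lit 426110) (nat_lit 1) (.e (nat_lit 164327) (nat_lit 230) (.e (nat_lit 163881) (nat_lit 4) (.e (nat_lit 213032) (nat_lit 11) .nil)))))) (.g (nat_lit 1) (.e (nat_lit 135238) (nat_lit 0) .nil) .nil))))) (.nd (nat_lit 8) (.nd (nat_lit 9) 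
(.lf (nat_lit 486648) (.g (nat_lit 2759) (.e (nat_lit 24630) (nat_lit 9) (.e (nat_lit 336443) (nat_lit 32) (.e (nat_lit 466969) (nat_lit 21) (.e (nat_lit 164330) (nat_lit 230) (.e (nat_lit 163878) (nat_lit 4) (.e (nat_lit 213030) (nat_lit 11) .nil)))))) (.g (nat_lit 1) (.e (nat_lit 134286) (nat_lit 0) .nil) .nil))) 
(.lf (nat_lit 487160) (.g (nat_lit 2784) (.e (nat_lit 24657) (nat_lit 13) (.e (nat_lit 393281) (nat_lit 23) (.e (nat_lit 426098) (nat_lit 1) (.e (nat_lit 164327) (nat_lit 230) (.e (nat_lit 163882) (nat_lit 4) (.e (nat_lit 213032) (nat_lit 11) .nil)))))) (.g (nat_lit 1) (.e (nat_lit 135078) (nat_lit 0) .nil) .nil)))) (.nd (nat_lit 9) 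
(.lf (nat_lit 486904) (.g (nat_lit 2579) (.e (nat_lit 24640) (nat_lit 10) (.e (nat_lit 344156) (nat_lit 36) (.e (nat_lit 638998) (nat_lit 8) (.e (nat_lit 172113) (nat_lit 10) (.e (nat_lit 434208) (nat_lit 18) (.e (nat_lit 5796) (nat_lit 320) (.e (nat_lit 2559) (nat_lit 159) .nil))))))) (.g (nat_lit 1) (.e (nat_lit 134644) (nat_lit 0) .nil) .nil))) 
(.lf (nat_lit 487416) (.g (nat_lit 3763) (.e (nat_lit 24661) (nat_lit 14) (.e (nat_lit 401459) (nat_lit 13) (.e (nat_lit 483372) (nat_lit 21) (.e (nat_lit 319503) (nat_lit 10) .nil)))) (.g (nat_lit 0) (.e (nat_lit 135425) (nat_lit 0) .nil) .nil)))))))))) (.nd (nat_lit 3) (.nd (nat_lit 4) (.nd (nat_lit 5) (.nd (nat_lit 6) (.nd (nat_lit 7) (.nd (nat_lit 8) (.nd (nat_lit 9) 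
(.lf (nat_lit 486404) (.g (nat_lit 2462) (.e (nat_lit 24628) (nat_lit 9) (.e (nat_lit 336443) (nat_lit 32) (.e (nat_lit 466972) (nat_lit 21) (.e (nat_lit 164330) (nat_lit 230) (.e (nat_lit 163843) (nat_lit 0) .nil))))) (.g (nat_lit 0) (.e (nat_lit 133976) (nat_lit 0) .nil) .nil))) 
(.lf (nat_lit 486916) (.g (nat_lit 2740) (.e (nat_lit 24640) (nat_lit 10) (.e (nat_lit 344156) (nat_lit 36) (.e (nat_lit 638998) (nat_lit 8) (.e (nat_lit 172120) (nat_lit 12) (.e (nat_lit 475157) (nat_lit 21) (.e (nat_lit 6811) (nat_lit 365) (.e (nat_lit 2551) (nat_lit 159) .nil))))))) (.g (nat_lit 1) (.e (nat_lit 134662) (nat_lit 0) .nil) .nil)))) (.nd (nat_lit 9) 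
(.lf (nat_lit 486660) (.g (nat_lit 2307) (.e (nat_lit 24630) (nat_lit 9) (.e (nat_lit 336443) (nat_lit 32) (.e (nat_lit 466972) (nat_lit 21) (.e (nat_lit 164331) (nat_lit 230) (.e (nat_lit 163877) (nat_lit 4) (.e (nat_lit 213032) (nat_lit 11) .nil)))))) (.g (nat_lit 1) (.e (nat_lit 134298) (nat_lit 0) .nil) .nil))) 
(.lf (nat_lit 487172) (.g (nat_lit 1841) (.e (nat_lit 24657) (nat_lit 13) (.e (nat_lit 393297) (nat_lit 27) (.e (nat_lit 491560) (nat_lit 10) (.e (nat_lit 344179) (nat_lit 44) (.e (nat_lit 778463) (nat_lit 11) .nil))))) (.g (nat_lit 1) (.e (nat_lit 135099) (nat_lit 0) .nil) .nil))))) (.nd (nat_lit 8) (.nd (nat_lit 9) 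
(.lf (nat_lit 486532) (.g (nat_lit 4043) (.e (nat_lit 24629) (nat_lit 9) (.e (nat_lit 336324) (nat_lit 18) (.e (nat_lit 204831) (nat_lit 18) (.e (nat_lit 57830) (nat_lit 250) .nil)))) (.g (nat_lit 0) (.e (nat_lit 134105) (nat_lit 0) .nil) .nil))) 
(.lf (nat_lit 487044) (.g (nat_lit 1459) (.e (nat_lit 24653) (nat_lit 12) (.e (nat_lit 385102) (nat_lit 50) (.e (nat_lit 786483) (nat_lit 30) (.e (nat_lit 360451) (nat_lit 0) (.e (nat_lit 4764) (nat_lit 281) (.e (nat_lit 2556) (nat_lit 159) .nil)))))) (.g (nat_lit 1) (.e (nat_lit 134921) (nat_lit 0) .nil) .nil)))) (.nd (nat_lit 9) 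
(.lf (nat_lit 486788) (.g (nat_lit 1753) (.e (nat_lit 24632) (nat_lit 9) (.e (nat_lit 336388) (nat_lit 27) (.e (nat_lit 426344) (nat_lit 14) (.e (nat_lit 491560) (nat_lit 10) (.e (nat_lit 344179) (nat_lit 44) .nil))))) (.g (nat_lit 0) (.e (nat_lit 134448) (nat_lit 0) .nil) .nil))) 
(.lf (nat_lit 487300) (.g (nat_lit 2811) (.e (nat_lit 24659) (nat_lit 13) (.e (nat_lit 393281) (nat_lit 23) (.e (nat_lit 426099) (nat_lit 1) (.e (nat_lit 164332) (nat_lit 230) (.e (nat_lit 163878) (nat_lit 4) (.e (nat_lit 213030) (nat_lit 11) .nil)))))) (.g (nat_lit 1) (.e (nat_lit 135250) (nat_lit 0) .nil) .nil)))))) (.nd (nat_lit 7) (.nd (nat_lit 8) (.nd (nat_lit 9) 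
(.lf (nat_lit 486468) (.g (nat_lit 2923) (.e (nat_lit 24628) (nat_lit 9) (.e (nat_lit 336454) (nat_lit 34) (.e (nat_lit 483365) (nat_lit 18) (.e (nat_lit 57851) (nat_lit 252) (.e (nat_lit 57370) (nat_lit 2) (.e (nat_lit 90158) (nat_lit 11) .nil)))))) (.g (nat_lit 1) (.e (nat_lit 134040) (nat_lit 0) .nil) .nil))) 
(.lf (nat_lit 486980) (.g (nat_lit 3061) (.e (nat_lit 24650) (nat_lit 12) (.e (nat_lit 385068) (nat_lit 26) (.e (nat_lit 532504) (nat_lit 1) (.e (nat_lit 57854) (nat_lit 252) (.e (nat_lit 57442) (nat_lit 18) (.e (nat_lit 392960) (nat_lit 10) .nil)))))) (.g (nat_lit 1) (.e (nat_lit 134789) (nat_lit 0) .nil) .nil)))) (.nd (nat_lit 9) 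
(.lf (nat_lit 486724) (.g (nat_lit 3144) (.e (nat_lit 24630) (nat_lit 9) (.e (nat_lit 336454) (nat_lit 34) (.e (nat_lit 483366) (nat_lit 18) (.e (nat_lit 57854) (nat_lit 252) (.e (nat_lit 57373) (nat_lit 2) (.e (nat_lit 90159) (nat_lit 11) .nil)))))) (.g (nat_lit 1) (.e (nat_lit 134373) (nat_lit 0) .nil) .nil))) 
(.lf (nat_lit 487236) (.g (nat_lit 3129) (.e (nat_lit 24658) (nat_lit 13) (.e (nat_lit 393281) (nat_lit 23) (.e (nat_lit 426100) (nat_lit 1) (.e (nat_lit 164332) (nat_lit 230) (.e (nat_lit 163880) (nat_lit 4) (.e (nat_lit 213030) (nat_lit 11) .nil)))))) (.g (nat_lit 1) (.e (nat_lit 135180) (nat_lit 0) .nil) .nil))))) (.nd (nat_lit 8) (.nd (nat_lit 9) 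
(.lf (nat_lit 486596) (.g (nat_lit 4156) (.e (nat_lit 24630) (nat_lit 9) (.e (nat_lit 336324) (nat_lit 18) (.e (nat_lit 204831) (nat_lit 18) (.e (nat_lit 57846) (nat_lit 252) .nil)))) (.g (nat_lit 0) (.e (nat_lit 134184) (nat_lit 0) .nil) .nil))) 
(.lf (nat_lit 487108) (.g (nat_lit 2642) (.e (nat_lit 24656) (nat_lit 13) (.e (nat_lit 393271) (nat_lit 23) (.e (nat_lit 426112) (nat_lit 1) (.e (nat_lit 164327) (nat_lit 230) (.e (nat_lit 163882) (nat_lit 4) (.e (nat_lit 213030) (nat_lit 11) .nil)))))) (.g (nat_lit 1) (.e (nat_lit 135006) (nat_lit 0) .nil) .nil)))) (.nd (nat_lit 9) 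
(.lf (nat_lit 486852) (.g (nat_lit 2254) (.e (nat_lit 24640) (nat_lit 10) (.e (nat_lit 344156) (nat_lit 36) (.e (nat_lit 638985) (nat_lit 5) (.e (nat_lit 3015) (nat_lit 187) (.e (nat_lit 450562) (nat_lit 0) (.e (nat_lit 5811) (nat_lit 320) (.e (nat_lit 2552) (nat_lit 159) .nil))))))) (.g (nat_lit 1) (.e (nat_lit 134592) (nat_lit 0) .nil) .nil))) 
(.lf (nat_lit 487364) (.g (nat_lit 1431) (.e (nat_lit 24660) (nat_lit 13) (.e (nat_lit 393274) (nat_lit 23) (.e (nat_lit 426097) (nat_lit 1) (.e (nat_lit 164326) (nat_lit 230) (.e (nat_lit 163879) (nat_lit 4) (.e (nat_lit 213030) (nat_lit 11) .nil)))))) (.g (nat_lit 1) (.e (nat_lit 135334) (nat_lit 0) .nil) .nil))))))) (.nd (nat_lit 6) (.nd (nat_lit 7) (.nd (nat_lit 8) (.nd (nat_lit 9) 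
(.lf (nat_lit 486436) (.g (nat_lit 3464) (.e (nat_lit 24628) (nat_lit 9) (.e (nat_lit 336454) (nat_lit 34) (.e (nat_lit 483363) (nat_lit 18) (.e (nat_lit 57853) (nat_lit 252) (.e (nat_lit 57371) (nat_lit 2) (.e (nat_lit 90158) (nat_lit 11) .nil)))))) (.g (nat_lit 1) (.e (nat_lit 134008) (nat_lit 0) .nil) .nil))) 
(.lf (nat_lit 486948) (.g (nat_lit 1180) (.e (nat_lit 24647) (nat_lit 12) (.e (nat_lit 385105) (nat_lit 50) (.e (nat_lit 786483) (nat_lit 30) (.e (nat_lit 360450) (nat_lit 0) .nil)))) (.g (nat_lit 0) (.e (nat_lit 134722) (nat_lit 0) .nil) .nil)))) (.nd (nat_lit 9) 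
(.lf (nat_lit 486692) (.g (nat_lit 3152) (.e (nat_lit 24630) (nat_lit 9) (.e (nat_lit 336454) (nat_lit 34) (.e (nat_lit 483365) (nat_lit 18) (.e (nat_lit 57846) (nat_lit 252) (.e (nat_lit 57371) (nat_lit 2) (.e (nat_lit 90158) (nat_lit 11) .nil)))))) (.g (nat_lit 1) (.e (nat_lit 134339) (nat_lit 0) .nil) .nil))) 
(.lf (nat_lit 487204) (.g (nat_lit 2105) (.e (nat_lit 24658) (nat_lit 13) (.e (nat_lit 393281) (nat_lit 23) (.e (nat_lit 426098) (nat_lit 1) (.e (nat_lit 164325) (nat_lit 230) (.e (nat_lit 163879) (nat_lit 4) (.e (nat_lit 220928) (nat_lit 11) .nil)))))) (.g (nat_lit 1) (.e (nat_lit 135144) (nat_lit 0) .nil) .nil))))) (.nd (nat_lit 8) (.nd (nat_lit 9) 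
(.lf (nat_lit 486564) (.g (nat_lit 2427) (.e (nat_lit 24629) (nat_lit 9) (.e (nat_lit 336443) (nat_lit 32) (.e (nat_lit 466969) (nat_lit 21) (.e (nat_lit 164330) (nat_lit 230) (.e (nat_lit 163878) (nat_lit 4) .nil))))) (.g (nat_lit 0) (.e (nat_lit 134140) (nat_lit 0) .nil) .nil))) 
(.lf (nat_lit 487076) (.g (nat_lit 3661) (.e (nat_lit 24655) (nat_lit 13) (.e (nat_lit 393281) (nat_lit 23) (.e (nat_lit 426098) (nat_lit 1) (.e (nat_lit 164332) (nat_lit 230) (.e (nat_lit 163880) (nat_lit 4) (.e (nat_lit 213032) (nat_lit 11) .nil)))))) (.g (nat_lit 1) (.e (nat_lit 134963) (nat_lit 0) .nil) .nil)))) (.nd (nat_lit 9) 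
(.lf (nat_lit 486820) (.g (nat_lit 2315) (.e (nat_lit 24638) (nat_lit 9) (.e (nat_lit 336387) (nat_lit 27) (.e (nat_lit 426011) (nat_lit 0) (.e (nat_lit 7591) (nat_lit 407) (.e (nat_lit 73775) (nat_lit 26) (.e (nat_lit 778466) (nat_lit 11) .nil)))))) (.g (nat_lit 1) (.e (nat_lit 134518) (nat_lit 0) .nil) .nil))) 
(.lf (nat_lit 487332) (.g (nat_lit 1440) (.e (nat_lit 24660) (nat_lit 13) (.e (nat_lit 393260) (nat_lit 21) (.e (nat_lit 409616) (nat_lit 10) (.e (nat_lit 4978) (nat_lit 287) .nil)))) (.g (nat_lit 0) (.e (nat_lit 135300) (nat_lit 0) .nil) .nil)))))) (.nd (nat_lit 7) (.nd (nat_lit 8) (.nd (nat_lit 9) 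
(.lf (nat_lit 486500) (.g (nat_lit 3584) (.e (nat_lit 24628) (nat_lit 9) (.e (nat_lit 336455) (nat_lit 34) (.e (nat_lit 483363) (nat_lit 18) (.e (nat_lit 57854) (nat_lit 252) (.e (nat_lit 57373) (nat_lit 2) (.e (nat_lit 90160) (nat_lit 11) .nil)))))) (.g (nat_lit 1) (.e (nat_lit 134072) (nat_lit 0) .nil) .nil))) 
(.lf (nat_lit 487012) (.g (nat_lit 2451) (.e (nat_lit 24651) (nat_lit 12) (.e (nat_lit 385106) (nat_lit 50) (.e (nat_lit 786483) (nat_lit 30) (.e (nat_lit 360450) (nat_lit 0) (.e (nat_lit 4766) (nat_lit 281) .nil))))) (.g (nat_lit 0) (.e (nat_lit 134853) (nat_lit 0) .nil) .nil)))) (.nd (nat_lit 9) 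
(.lf (nat_lit 486756) (.g (nat_lit 3228) (.e (nat_lit 24630) (nat_lit 9) (.e (nat_lit 336456) (nat_lit 34) (.e (nat_lit 483365) (nat_lit 18) (.e (nat_lit 57847) (nat_lit 252) (.e (nat_lit 57375) (nat_lit 2) (.e (nat_lit 90158) (nat_lit 11) .nil)))))) (.g (nat_lit 1) (.e (nat_lit 134405) (nat_lit 0) .nil) .nil))) 
(.lf (nat_lit 487268) (.g (nat_lit 1917) (.e (nat_lit 24658) (nat_lit 13) (.e (nat_lit 393301) (nat_lit 27) (.e (nat_lit 491559) (nat_lit 10) (.e (nat_lit 344093) (nat_lit 18) .nil)))) (.g (nat_lit 0) (.e (nat_lit 135217) (nat_lit 0) .nil) .nil))))) (.nd (nat_lit 8) (.nd (nat_lit 9) 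
(.lf (nat_lit 486628) (.g (nat_lit 2625) (.e (nat_lit 24630) (nat_lit 9) (.e (nat_lit 336369) (nat_lit 27) (.e (nat_lit 426501) (nat_lit 27) (.e (nat_lit 335995) (nat_lit 1) (.e (nat_lit 57844) (nat_lit 252) (.e (nat_lit 57371) (nat_lit 2) (.e (nat_lit 90160) (nat_lit 11) .nil))))))) (.g (nat_lit 1) (.e (nat_lit 134227) (nat_lit 0) .nil) .nil))) 
(.lf (nat_lit 487140) (.g (nat_lit 587) (.e (nat_lit 24657) (nat_lit 13) (.e (nat_lit 393238) (nat_lit 17) (.e (nat_lit 7936) (nat_lit 406) .nil))) (.g (nat_lit 0) (.e (nat_lit 135051) (nat_lit 0) .nil) .nil)))) (.nd (nat_lit 9) 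
(.lf (nat_lit 486884) (.g (nat_lit 3041) (.e (nat_lit 24640) (nat_lit 10) (.e (nat_lit 344156) (nat_lit 36) (.e (nat_lit 638998) (nat_lit 8) (.e (nat_lit 172113) (nat_lit 10) (.e (nat_lit 434203) (nat_lit 18) (.e (nat_lit 5797) (nat_lit 320) (.e (nat_lit 2552) (nat_lit 159) .nil))))))) (.g (nat_lit 1) (.e (nat_lit 134624) (nat_lit 0) .nil) .nil))) 
(.lf (nat_lit 487396) (.g (nat_lit 936) (.e (nat_lit 24660) (nat_lit 13) (.e (nat_lit 393298) (nat_lit 27) (.e (nat_lit 491552) (nat_lit 9) .nil))) (.g (nat_lit 0) (.e (nat_lit 135379) (nat_lit 0) .nil) .nil)))))))) (.nd (nat_lit 5) (.nd (nat_lit 6) (.nd (nat_lit 7) (.nd (nat_lit 8) (.nd (nat_lit 9) 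
(.lf (nat_lit 486420) (.g (nat_lit 3136) (.e (nat_lit 24628) (nat_lit 9) (.e (nat_lit 336443) (nat_lit 32) (.e (nat_lit 466972) (nat_lit 21) (.e (nat_lit 164332) (nat_lit 230) (.e (nat_lit 163877) (nat_lit 4) (.e (nat_lit 213032) (nat_lit 11) .nil)))))) (.g (nat_lit 1) (.e (nat_lit 133992) (nat_lit 0) .nil) .nil))) 
(.lf (nat_lit 486932) (.g (nat_lit 427) (.e (nat_lit 24641) (nat_lit 10) (.e (nat_lit 344179) (nat_lit 44) (.e (nat_lit 778466) (nat_lit 11) .nil))) (.g (nat_lit 0) (.e (nat_lit 134687) (nat_lit 0) .nil) .nil)))) (.nd (nat_lit 9) 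
(.lf (nat_lit 486676) (.g (nat_lit 3273) (.e (nat_lit 24630) (nat_lit 9) (.e (nat_lit 336454) (nat_lit 34) (.e (nat_lit 483363) (nat_lit 18) (.e (nat_lit 57854) (nat_lit 252) (.e (nat_lit 57371) (nat_lit 2) (.e (nat_lit 90158) (nat_lit 11) .nil)))))) (.g (nat_lit 1) (.e (nat_lit 134323) (nat_lit 0) .nil) .nil))) 
(.lf (nat_lit 487188) (.g (nat_lit 467) (.e (nat_lit 24658) (nat_lit 13) (.e (nat_lit 393234) (nat_lit 17) (.e (nat_lit 7587) (nat_lit 406) .nil))) (.g (nat_lit 0) (.e (nat_lit 135122) (nat_lit 0) .nil) .nil))))) (.nd (nat_lit 8) (.nd (nat_lit 9) 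
(.lf (nat_lit 486548) (.g (nat_lit 1765) (.e (nat_lit 24629) (nat_lit 9) (.e (nat_lit 336430) (nat_lit 29) (.e (nat_lit 442419) (nat_lit 21) (.e (nat_lit 164327) (nat_lit 230) (.e (nat_lit 163881) (nat_lit 4) (.e (nat_lit 213032) (nat_lit 11) .nil)))))) (.g (nat_lit 1) (.e (nat_lit 134123) (nat_lit 0) .nil) .nil))) 
(.lf (nat_lit 487060) (.g (nat_lit 829) (.e (nat_lit 24655) (nat_lit 13) (.e (nat_lit 393225) (nat_lit 9) (.e (nat_lit 335985) (nat_lit 1) .nil))) (.g (nat_lit 0) (.e (nat_lit 134940) (nat_lit 0) .nil) .nil)))) (.nd (nat_lit 9) 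
(.lf (nat_lit 486804) (.g (nat_lit 2246) (.e (nat_lit 24636) (nat_lit 9) (.e (nat_lit 336390) (nat_lit 27) (.e (nat_lit 426343) (nat_lit 14) (.e (nat_lit 491558) (nat_lit 10) (.e (nat_lit 344180) (nat_lit 44) .nil))))) (.g (nat_lit 0) (.e (nat_lit 134466) (nat_lit 0) .nil) .nil))) 
(.lf (nat_lit 487316) (.g (nat_lit 2173) (.e (nat_lit 24659) (nat_lit 13) (.e (nat_lit 393301) (nat_lit 27) (.e (nat_lit 491559) (nat_lit 10) (.e (nat_lit 344091) (nat_lit 18) .nil)))) (.g (nat_lit 0) (.e (nat_lit 135268) (nat_lit 0) .nil) .nil)))))) (.nd (nat_lit 7) (.nd (nat_lit 8) (.nd (nat_lit 9) 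
(.lf (nat_lit 486484) (.g (nat_lit 2920) (.e (nat_lit 24628) (nat_lit 9) (.e (nat_lit 336454) (nat_lit 34) (.e (nat_lit 483366) (nat_lit 18) (.e (nat_lit 57846) (nat_lit 252) (.e (nat_lit 57371) (nat_lit 2) (.e (nat_lit 90158) (nat_lit 11) .nil)))))) (.g (nat_lit 1) (.e (nat_lit 134056) (nat_lit 0) .nil) .nil))) 
(.lf (nat_lit 486996) (.g (nat_lit 2095) (.e (nat_lit 24651) (nat_lit 12) (.e (nat_lit 385072) (nat_lit 31) (.e (nat_lit 573482) (nat_lit 13) (.e (nat_lit 65619) (nat_lit 10) (.e (nat_lit 344129) (nat_lit 26) (.e (nat_lit 557085) (nat_lit 11) .nil)))))) (.g (nat_lit 1) (.e (nat_lit 134821) (nat_lit 0) .nil) .nil)))) (.nd (nat_lit 9) 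
(.lf (nat_lit 486740) (.g (nat_lit 3631) (.e (nat_lit 24630) (nat_lit 9) (.e (nat_lit 336456) (nat_lit 34) (.e (nat_lit 483364) (nat_lit 18) (.e (nat_lit 57852) (nat_lit 252) (.e (nat_lit 57373) (nat_lit 2) (.e (nat_lit 90158) (nat_lit 11) .nil)))))) (.g (nat_lit 1) (.e (nat_lit 134389) (nat_lit 0) .nil) .nil))) 
(.lf (nat_lit 487252) (.g (nat_lit 1975) (.e (nat_lit 24658) (nat_lit 13) (.e (nat_lit 393297) (nat_lit 27) (.e (nat_lit 491566) (nat_lit 12) (.e (nat_lit 385078) (nat_lit 35) .nil)))) (.g (nat_lit 0) (.e (nat_lit 135201) (nat_lit 0) .nil) .nil))))) (.nd (nat_lit 8) (.nd (nat_lit 9) 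
(.lf (nat_lit 486612) (.g (nat_lit 2240) (.e (nat_lit 24630) (nat_lit 9) (.e (nat_lit 336370) (nat_lit 27) (.e (nat_lit 426499) (nat_lit 27) (.e (nat_lit 335986) (nat_lit 1) (.e (nat_lit 57849) (nat_lit 252) (.e (nat_lit 57372) (nat_lit 2) (.e (nat_lit 90158) (nat_lit 11) .nil))))))) (.g (nat_lit 1) (.e (nat_lit 134205) (nat_lit 0) .nil) .nil))) 
(.lf (nat_lit 487124) (.g (nat_lit 2890) (.e (nat_lit 24657) (nat_lit 13) (.e (nat_lit 393229) (nat_lit 9) (.e (nat_lit 335986) (nat_lit 1) (.e (nat_lit 57849) (nat_lit 252) (.e (nat_lit 57372) (nat_lit 2) (.e (nat_lit 90159) (nat_lit 11) .nil)))))) (.g (nat_lit 1) (.e (nat_lit 135032) (nat_lit 0) .nil) .nil)))) (.nd (nat_lit 9) 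
(.lf (nat_lit 486868) (.g (nat_lit 2646) (.e (nat_lit 24640) (nat_lit 10) (.e (nat_lit 344156) (nat_lit 36) (.e (nat_lit 638985) (nat_lit 5) (.e (nat_lit 3022) (nat_lit 187) (.e (nat_lit 450565) (nat_lit 0) (.e (nat_lit 5854) (nat_lit 320) (.e (nat_lit 2551) (nat_lit 159) .nil))))))) (.g (nat_lit 1) (.e (nat_lit 134608) (nat_lit 0) .nil) .nil))) 
(.lf (nat_lit 487380) (.g (nat_lit 2435) (.e (nat_lit 24660) (nat_lit 13) (.e (nat_lit 393281) (nat_lit 23) (.e (nat_lit 426098) (nat_lit 1) (.e (nat_lit 164325) (nat_lit 230) (.e (nat_lit 163882) (nat_lit 4) (.e (nat_lit 213030) (nat_lit 11) .nil)))))) (.g (nat_lit 1) (.e (nat_lit 135350) (nat_lit 0) .nil) .nil))))))) (.nd (nat_lit 6) (.nd (nat_lit 7) (.nd (nat_lit 8) (.nd (nat_lit 9) 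
(.lf (nat_lit 486452) (.g (nat_lit 3622) (.e (nat_lit 24628) (nat_lit 9) (.e (nat_lit 336454) (nat_lit 34) (.e (nat_lit 483365) (nat_lit 18) (.e (nat_lit 57846) (nat_lit 252) (.e (nat_lit 57373) (nat_lit 2) (.e (nat_lit 90158) (nat_lit 11) .nil)))))) (.g (nat_lit 1) (.e (nat_lit 134024) (nat_lit 0) .nil) .nil))) 
(.lf (nat_lit 486964) (.g (nat_lit 3590) (.e (nat_lit 24649) (nat_lit 12) (.e (nat_lit 385073) (nat_lit 31) (.e (nat_lit 573482) (nat_lit 13) (.e (nat_lit 65619) (nat_lit 10) (.e (nat_lit 344129) (nat_lit 26) (.e (nat_lit 557087) (nat_lit 11) .nil)))))) (.g (nat_lit 1) (.e (nat_lit 134762) (nat_lit 0) .nil) .nil)))) (.nd (nat_lit 9) 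
(.lf (nat_lit 486708) (.g (nat_lit 3859) (.e (nat_lit 24630) (nat_lit 9) (.e (nat_lit 336454) (nat_lit 34) (.e (nat_lit 483365) (nat_lit 18) (.e (nat_lit 57849) (nat_lit 252) (.e (nat_lit 57372) (nat_lit 2) (.e (nat_lit 90158) (nat_lit 11) .nil)))))) (.g (nat_lit 1) (.e (nat_lit 134357) (nat_lit 0) .nil) .nil))) 
(.lf (nat_lit 487220) (.g (nat_lit 1700) (.e (nat_lit 24658) (nat_lit 13) (.e (nat_lit 393281) (nat_lit 23) (.e (nat_lit 426099) (nat_lit 1) (.e (nat_lit 164332) (nat_lit 230) (.e (nat_lit 163841) (nat_lit 0) (.e (nat_lit 3617) (nat_lit 227) (.e (nat_lit 778462) (nat_lit 11) .nil))))))) (.g (nat_lit 1) (.e (nat_lit 135161) (nat_lit 0) .nil) .nil))))) (.nd (nat_lit 8) (.nd (nat_lit 9) 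
(.lf (nat_lit 486580) (.g (nat_lit 2247) (.e (nat_lit 24629) (nat_lit 9) (.e (nat_lit 336456) (nat_lit 34) (.e (nat_lit 483363) (nat_lit 18) (.e (nat_lit 57854) (nat_lit 252) (.e (nat_lit 57371) (nat_lit 2) .nil))))) (.g (nat_lit 0) (.e (nat_lit 134157) (nat_lit 0) .nil) .nil))) 
(.lf (nat_lit 487092) (.g (nat_lit 1883) (.e (nat_lit 24655) (nat_lit 13) (.e (nat_lit 393281) (nat_lit 23) (.e (nat_lit 426108) (nat_lit 1) (.e (nat_lit 164330) (nat_lit 230) (.e (nat_lit 163878) (nat_lit 4) (.e (nat_lit 213032) (nat_lit 11) .nil)))))) (.g (nat_lit 1) (.e (nat_lit 134979) (nat_lit 0) .nil) .nil)))) (.nd (nat_lit 9) 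
(.lf (nat_lit 486836) (.g (nat_lit 1703) (.e (nat_lit 32512) (nat_lit 9) (.e (nat_lit 336456) (nat_lit 34) (.e (nat_lit 483365) (nat_lit 18) (.e (nat_lit 57847) (nat_lit 252) (.e (nat_lit 57372) (nat_lit 2) .nil))))) (.g (nat_lit 0) (.e (nat_lit 134534) (nat_lit 0) .nil) .nil))) 
(.lf (nat_lit 487348) (.g (nat_lit 973) (.e (nat_lit 24660) (nat_lit 13) (.e (nat_lit 393260) (nat_lit 21) (.e (nat_lit 409648) (nat_lit 18) (.e (nat_lit 303104) (nat_lit 0) .nil)))) (.g (nat_lit 0) (.e (nat_lit 135317) (nat_lit 0) .nil) .nil)))))) (.nd (nat_lit 7) (.nd (nat_lit 8) (.nd (nat_lit 9) 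
(.lf (nat_lit 486516) (.g (nat_lit 2204) (.e (nat_lit 24628) (nat_lit 9) (.e (nat_lit 336456) (nat_lit 34) (.e (nat_lit 483365) (nat_lit 18) (.e (nat_lit 57846) (nat_lit 252) (.e (nat_lit 57375) (nat_lit 2) (.e (nat_lit 90158) (nat_lit 11) .nil)))))) (.g (nat_lit 1) (.e (nat_lit 134088) (nat_lit 0) .nil) .nil))) 
(.lf (nat_lit 487028) (.g (nat_lit 834) (.e (nat_lit 24653) (nat_lit 12) (.e (nat_lit 385068) (nat_lit 26) (.e (nat_lit 532503) (nat_lit 1) .nil))) (.g (nat_lit 0) (.e (nat_lit 134886) (nat_lit 0) .nil) .nil)))) (.nd (nat_lit 9) 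
(.lf (nat_lit 486772) (.g (nat_lit 2572) (.e (nat_lit 24631) (nat_lit 9) (.e (nat_lit 336295) (nat_lit 15) (.e (nat_lit 3305) (nat_lit 202) (.e (nat_lit 573482) (nat_lit 13) (.e (nat_lit 65619) (nat_lit 10) .nil))))) (.g (nat_lit 0) (.e (nat_lit 134426) (nat_lit 0) .nil) .nil))) 
(.lf (nat_lit 487284) (.g (nat_lit 1508) (.e (nat_lit 24659) (nat_lit 13) (.e (nat_lit 393273) (nat_lit 23) (.e (nat_lit 426448) (nat_lit 20) (.e (nat_lit 122624) (nat_lit 4) .nil)))) (.g (nat_lit 0) (.e (nat_lit 135234) (nat_lit 0) .nil) .nil))))) (.nd (nat_lit 8) (.nd (nat_lit 9) 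
(.lf (nat_lit 486644) (.g (nat_lit 2965) (.e (nat_lit 24630) (nat_lit 9) (.e (nat_lit 336443) (nat_lit 32) (.e (nat_lit 466969) (nat_lit 21) (.e (nat_lit 164326) (nat_lit 230) (.e (nat_lit 163882) (nat_lit 4) (.e (nat_lit 213030) (nat_lit 11) .nil)))))) (.g (nat_lit 1) (.e (nat_lit 134282) (nat_lit 0) .nil) .nil))) 
(.lf (nat_lit 487156) (.g (nat_lit 2671) (.e (nat_lit 24657) (nat_lit 13) (.e (nat_lit 393281) (nat_lit 23) (.e (nat_lit 426098) (nat_lit 1) (.e (nat_lit 164325) (nat_lit 230) (.e (nat_lit 163882) (nat_lit 4) (.e (nat_lit 213032) (nat_lit 11) .nil)))))) (.g (nat_lit 1) (.e (nat_lit 135074) (nat_lit 0) .nil) .nil)))) (.nd (nat_lit 9) 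
(.lf (nat_lit 486900) (.g (nat_lit 2752) (.e (nat_lit 24640) (nat_lit 10) (.e (nat_lit 344156) (nat_lit 36) (.e (nat_lit 638998) (nat_lit 8) (.e (nat_lit 172113) (nat_lit 10) (.e (nat_lit 434208) (nat_lit 18) (.e (nat_lit 5796) (nat_lit 320) (.e (nat_lit 2551) (nat_lit 159) .nil))))))) (.g (nat_lit 1) (.e (nat_lit 134640) (nat_lit 0) .nil) .nil))) 
(.lf (nat_lit 487412) (.g (nat_lit 4229) (.e (nat_lit 24661) (nat_lit 14) (.e (nat_lit 401459) (nat_lit 13) (.e (nat_lit 483372) (nat_lit 21) (.e (nat_lit 319498) (nat_lit 10) .nil)))) (.g (nat_lit 0) (.e (nat_lit 135421) (nat_lit 0) .nil) .nil))))))))) (.nd (nat_lit 4) (.nd (nat_lit 5) (.nd (nat_lit 6) (.nd (nat_lit 7) (.nd (nat_lit 8) (.nd (nat_lit 9) 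
(.lf (nat_lit 486412) (.g (nat_lit 3023) (.e (nat_lit 24628) (nat_lit 9) (.e (nat_lit 336443) (nat_lit 32) (.e (nat_lit 466972) (nat_lit 21) (.e (nat_lit 164330) (nat_lit 230) (.e (nat_lit 163878) (nat_lit 4) (.e (nat_lit 213030) (nat_lit 11) .nil)))))) (.g (nat_lit 1) (.e (nat_lit 133984) (nat_lit 0) .nil) .nil))) 
(.lf (nat_lit 486924) (.g (nat_lit 2110) (.e (nat_lit 24640) (nat_lit 10) (.e (nat_lit 344169) (nat_lit 40) (.e (nat_lit 671748) (nat_lit 0) (.e (nat_lit 1586) (nat_lit 111) (.e (nat_lit 360450) (nat_lit 0) .nil))))) (.g (nat_lit 0) (.e (nat_lit 134672) (nat_lit 0) .nil) .nil)))) (.nd (nat_lit 9) 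
(.lf (nat_lit 486668) (.g (nat_lit 3491) (.e (nat_lit 24630) (nat_lit 9) (.e (nat_lit 336454) (nat_lit 34) (.e (nat_lit 483363) (nat_lit 18) (.e (nat_lit 57847) (nat_lit 252) (.e (nat_lit 57373) (nat_lit 2) (.e (nat_lit 90158) (nat_lit 11) .nil)))))) (.g (nat_lit 1) (.e (nat_lit 134315) (nat_lit 0) .nil) .nil))) 
(.lf (nat_lit 487180) (.g (nat_lit 2383) (.e (nat_lit 24657) (nat_lit 13) (.e (nat_lit 393299) (nat_lit 27) (.e (nat_lit 491560) (nat_lit 10) (.e (nat_lit 344179) (nat_lit 44) (.e (nat_lit 778464) (nat_lit 11) .nil))))) (.g (nat_lit 1) (.e (nat_lit 135113) (nat_lit 0) .nil) .nil))))) (.nd (nat_lit 8) (.nd (nat_lit 9) 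
(.lf (nat_lit 486540) (.g (nat_lit 1387) (.e (nat_lit 24629) (nat_lit 9) (.e (nat_lit 336430) (nat_lit 29) (.e (nat_lit 442419) (nat_lit 21) (.e (nat_lit 164325) (nat_lit 230) .nil)))) (.g (nat_lit 0) (.e (nat_lit 134115) (nat_lit 0) .nil) .nil))) 
(.lf (nat_lit 487052) (.g (nat_lit 2056) (.e (nat_lit 24654) (nat_lit 13) (.e (nat_lit 393271) (nat_lit 23) (.e (nat_lit 426112) (nat_lit 1) (.e (nat_lit 164327) (nat_lit 230) (.e (nat_lit 163882) (nat_lit 4) .nil))))) (.g (nat_lit 0) (.e (nat_lit 134931) (nat_lit 0) .nil) .nil)))) (.nd (nat_lit 9) 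
(.lf (nat_lit 486796) (.g (nat_lit 418) (.e (nat_lit 24634) (nat_lit 9) (.e (nat_lit 336023) (nat_lit 3) (.e (nat_lit 106240) (nat_lit 16) (.e (nat_lit 401454) (nat_lit 12) (.e (nat_lit 483072) (nat_lit 2) .nil))))) (.g (nat_lit 1) (.e (nat_lit 134457) (nat_lit 0) .nil) .nil))) 
(.lf (nat_lit 487308) (.g (nat_lit 1723) (.e (nat_lit 24659) (nat_lit 13) (.e (nat_lit 393282) (nat_lit 24) (.e (nat_lit 434209) (nat_lit 18) (.e (nat_lit 5224) (nat_lit 296) (.e (nat_lit 163879) (nat_lit 4) .nil))))) (.g (nat_lit 0) (.e (nat_lit 135258) (nat_lit 0) .nil) .nil)))))) (.nd (nat_lit 7) (.nd (nat_lit 8) (.nd (nat_lit 9) 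
(.lf (nat_lit 486476) (.g (nat_lit 3629) (.e (nat_lit 24628) (nat_lit 9) (.e (nat_lit 336454) (nat_lit 34) (.e (nat_lit 483365) (nat_lit 18) (.e (nat_lit 57853) (nat_lit 252) (.e (nat_lit 57371) (nat_lit 2) (.e (nat_lit 90158) (nat_lit 11) .nil)))))) (.g (nat_lit 1) (.e (nat_lit 134048) (nat_lit 0) .nil) .nil))) 
(.lf (nat_lit 486988) (.g (nat_lit 3551) (.e (nat_lit 24650) (nat_lit 12) (.e (nat_lit 385073) (nat_lit 31) (.e (nat_lit 573485) (nat_lit 13) (.e (nat_lit 65619) (nat_lit 10) (.e (nat_lit 344129) (nat_lit 26) (.e (nat_lit 557087) (nat_lit 11) .nil)))))) (.g (nat_lit 1) (.e (nat_lit 134799) (nat_lit 0) .nil) .nil)))) (.nd (nat_lit 9) 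
(.lf (nat_lit 486732) (.g (nat_lit 3008) (.e (nat_lit 24630) (nat_lit 9) (.e (nat_lit 336456) (nat_lit 34) (.e (nat_lit 483363) (nat_lit 18) (.e (nat_lit 57854) (nat_lit 252) (.e (nat_lit 57370) (nat_lit 2) (.e (nat_lit 90158) (nat_lit 11) .nil)))))) (.g (nat_lit 1) (.e (nat_lit 134381) (nat_lit 0) .nil) .nil))) 
(.lf (nat_lit 487244) (.g (nat_lit 2670) (.e (nat_lit 24658) (nat_lit 13) (.e (nat_lit 393281) (nat_lit 23) (.e (nat_lit 426108) (nat_lit 1) (.e (nat_lit 164330) (nat_lit 230) (.e (nat_lit 163846) (nat_lit 0) (.e (nat_lit 3711) (nat_lit 227) (.e (nat_lit 778469) (nat_lit 11) .nil))))))) (.g (nat_lit 1) (.e (nat_lit 135188) (nat_lit 0) .nil) .nil))))) (.nd (nat_lit 8) (.nd (nat_lit 9) 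
(.lf (nat_lit 486604) (.g (nat_lit 4136) (.e (nat_lit 24630) (nat_lit 9) (.e (nat_lit 336324) (nat_lit 18) (.e (nat_lit 204831) (nat_lit 18) (.e (nat_lit 57853) (nat_lit 252) .nil)))) (.g (nat_lit 0) (.e (nat_lit 134194) (nat_lit 0) .nil) .nil))) 
(.lf (nat_lit 487116) (.g (nat_lit 787) (.e (nat_lit 24657) (nat_lit 13) (.e (nat_lit 393229) (nat_lit 9) (.e (nat_lit 335892) (nat_lit 0) .nil))) (.g (nat_lit 0) (.e (nat_lit 135021) (nat_lit 0) .nil) .nil)))) (.nd (nat_lit 9) 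
(.lf (nat_lit 486860) (.g (nat_lit 3214) (.e (nat_lit 24640) (nat_lit 10) (.e (nat_lit 344156) (nat_lit 36) (.e (nat_lit 638985) (nat_lit 5) (.e (nat_lit 3015) (nat_lit 187) (.e (nat_lit 450563) (nat_lit 0) (.e (nat_lit 5796) (nat_lit 320) (.e (nat_lit 2558) (nat_lit 159) .nil))))))) (.g (nat_lit 1) (.e (nat_lit 134600) (nat_lit 0) .nil) .nil))) 
(.lf (nat_lit 487372) (.g (nat_lit 2734) (.e (nat_lit 24660) (nat_lit 13) (.e (nat_lit 393279) (nat_lit 23) (.e (nat_lit 426110) (nat_lit 1) (.e (nat_lit 164327) (nat_lit 230) (.e (nat_lit 163882) (nat_lit 4) (.e (nat_lit 213032) (nat_lit 11) .nil)))))) (.g (nat_lit 1) (.e (nat_lit 135342) (nat_lit 0) .nil) .nil))))))) (.nd (nat_lit 6) (.nd (nat_lit 7) (.nd (nat_lit 8) (.nd (nat_lit 9) 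
(.lf (nat_lit 486444) (.g (nat_lit 3574) (.e (nat_lit 24628) (nat_lit 9) (.e (nat_lit 336454) (nat_lit 34) (.e (nat_lit 483364) (nat_lit 18) (.e (nat_lit 57854) (nat_lit 252) (.e (nat_lit 57373) (nat_lit 2) (.e (nat_lit 90158) (nat_lit 11) .nil)))))) (.g (nat_lit 1) (.e (nat_lit 134016) (nat_lit 0) .nil) .nil))) 
(.lf (nat_lit 486956) (.g (nat_lit 911) (.e (nat_lit 24648) (nat_lit 12) (.e (nat_lit 385068) (nat_lit 26) (.e (nat_lit 532504) (nat_lit 1) .nil))) (.g (nat_lit 0) (.e (nat_lit 134737) (nat_lit 0) .nil) .nil)))) (.nd (nat_lit 9) 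
(.lf (nat_lit 486700) (.g (nat_lit 3470) (.e (nat_lit 24630) (nat_lit 9) (.e (nat_lit 336454) (nat_lit 34) (.e (nat_lit 483365) (nat_lit 18) (.e (nat_lit 57847) (nat_lit 252) (.e (nat_lit 57373) (nat_lit 2) (.e (nat_lit 90158) (nat_lit 11) .nil)))))) (.g (nat_lit 1) (.e (nat_lit 134347) (nat_lit 0) .nil) .nil))) 
(.lf (nat_lit 487212) (.g (nat_lit 3631) (.e (nat_lit 24658) (nat_lit 13) (.e (nat_lit 393281) (nat_lit 23) (.e (nat_lit 426098) (nat_lit 1) (.e (nat_lit 164332) (nat_lit 230) (.e (nat_lit 163880) (nat_lit 4) (.e (nat_lit 213030) (nat_lit 11) .nil)))))) (.g (nat_lit 1) (.e (nat_lit 135152) (nat_lit 0) .nil) .nil))))) (.nd (nat_lit 8) (.nd (nat_lit 9) 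
(.lf (nat_lit 486572) (.g (nat_lit 2694) (.e (nat_lit 24629) (nat_lit 9) (.e (nat_lit 336443) (nat_lit 32) (.e (nat_lit 466972) (nat_lit 21) (.e (nat_lit 164331) (nat_lit 230) (.e (nat_lit 163878) (nat_lit 4) (.e (nat_lit 213030) (nat_lit 11) .nil)))))) (.g (nat_lit 1) (.e (nat_lit 134148) (nat_lit 0) .nil) .nil))) 
(.lf (nat_lit 487084) (.g (nat_lit 2297) (.e (nat_lit 24655) (nat_lit 13) (.e (nat_lit 393281) (nat_lit 23) (.e (nat_lit 426100) (nat_lit 1) (.e (nat_lit 164330) (nat_lit 230) (.e (nat_lit 163878) (nat_lit 4) (.e (nat_lit 213032) (nat_lit 11) .nil)))))) (.g (nat_lit 1) (.e (nat_lit 134971) (nat_lit 0) .nil) .nil)))) (.nd (nat_lit 9) 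
(.lf (nat_lit 486828) (.g (nat_lit 2456) (.e (nat_lit 32512) (nat_lit 9) (.e (nat_lit 336390) (nat_lit 27) (.e (nat_lit 426011) (nat_lit 0) (.e (nat_lit 7593) (nat_lit 407) (.e (nat_lit 73775) (nat_lit 26) .nil))))) (.g (nat_lit 0) (.e (nat_lit 134526) (nat_lit 0) .nil) .nil))) 
(.lf (nat_lit 487340) (.g (nat_lit 2194) (.e (nat_lit 24660) (nat_lit 13) (.e (nat_lit 393260) (nat_lit 21) (.e (nat_lit 409618) (nat_lit 10) (.e (nat_lit 5024) (nat_lit 290) (.e (nat_lit 164108) (nat_lit 116) (.e (nat_lit 786176) (nat_lit 11) .nil)))))) (.g (nat_lit 1) (.e (nat_lit 135308) (nat_lit 0) .nil) .nil)))))) (.nd (nat_lit 7) (.nd (nat_lit 8) (.nd (nat_lit 9) 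
(.lf (nat_lit 486508) (.g (nat_lit 2866) (.e (nat_lit 24628) (nat_lit 9) (.e (nat_lit 336456) (nat_lit 34) (.e (nat_lit 483364) (nat_lit 18) (.e (nat_lit 57853) (nat_lit 252) (.e (nat_lit 57371) (nat_lit 2) (.e (nat_lit 90158) (nat_lit 11) .nil)))))) (.g (nat_lit 1) (.e (nat_lit 134080) (nat_lit 0) .nil) .nil))) 
(.lf (nat_lit 487020) (.g (nat_lit 3404) (.e (nat_lit 24652) (nat_lit 12) (.e (nat_lit 385074) (nat_lit 31) (.e (nat_lit 573484) (nat_lit 13) (.e (nat_lit 65617) (nat_lit 10) (.e (nat_lit 344130) (nat_lit 26) (.e (nat_lit 557086) (nat_lit 11) .nil)))))) (.g (nat_lit 1) (.e (nat_lit 134863) (nat_lit 0) .nil) .nil)))) (.nd (nat_lit 9) 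
(.lf (nat_lit 486764) (.g (nat_lit 2777) (.e (nat_lit 24630) (nat_lit 9) (.e (nat_lit 336456) (nat_lit 34) (.e (nat_lit 483365) (nat_lit 18) (.e (nat_lit 57852) (nat_lit 252) (.e (nat_lit 57370) (nat_lit 2) (.e (nat_lit 90158) (nat_lit 11) .nil)))))) (.g (nat_lit 1) (.e (nat_lit 134417) (nat_lit 0) .nil) .nil))) 
(.lf (nat_lit 487276) (.g (nat_lit 2011) (.e (nat_lit 24659) (nat_lit 13) (.e (nat_lit 393260) (nat_lit 21) (.e (nat_lit 409648) (nat_lit 18) (.e (nat_lit 303108) (nat_lit 0) .nil)))) (.g (nat_lit 0) (.e (nat_lit 135226) (nat_lit 0) .nil) .nil))))) (.nd (nat_lit 8) (.nd (nat_lit 9) 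
(.lf (nat_lit 486636) (.g (nat_lit 3360) (.e (nat_lit 24630) (nat_lit 9) (.e (nat_lit 336414) (nat_lit 27) (.e (nat_lit 426503) (nat_lit 27) (.e (nat_lit 335986) (nat_lit 1) (.e (nat_lit 57847) (nat_lit 252) (.e (nat_lit 57373) (nat_lit 2) (.e (nat_lit 90158) (nat_lit 11) .nil))))))) (.g (nat_lit 1) (.e (nat_lit 134238) (nat_lit 0) .nil) .nil))) 
(.lf (nat_lit 487148) (.g (nat_lit 774) (.e (nat_lit 24657) (nat_lit 13) (.e (nat_lit 393271) (nat_lit 23) (.e (nat_lit 426111) (nat_lit 1) .nil))) (.g (nat_lit 0) (.e (nat_lit 135065) (nat_lit 0) .nil) .nil)))) (.nd (nat_lit 9) 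
(.lf (nat_lit 486892) (.g (nat_lit 3258) (.e (nat_lit 24640) (nat_lit 10) (.e (nat_lit 344156) (nat_lit 36) (.e (nat_lit 638998) (nat_lit 8) (.e (nat_lit 172113) (nat_lit 10) (.e (nat_lit 434203) (nat_lit 18) (.e (nat_lit 5811) (nat_lit 320) (.e (nat_lit 2552) (nat_lit 159) .nil))))))) (.g (nat_lit 1) (.e (nat_lit 134632) (nat_lit 0) .nil) .nil))) 
(.lf (nat_lit 487404) (.g (nat_lit 2810) (.e (nat_lit 24661) (nat_lit 14) (.e (nat_lit 401438) (nat_lit 9) (.e (nat_lit 426482) (nat_lit 27) (.e (nat_lit 336060) (nat_lit 7) (.e (nat_lit 319505) (nat_lit 10) (.e (nat_lit 7936) (nat_lit 314) .nil)))))) (.g (nat_lit 1) (.e (nat_lit 135399) (nat_lit 0) .nil) .nil)))))))) 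
(.nd (nat_lit 5) (.nd (nat_lit 6) (.nd (nat_lit 7) (.nd (nat_lit 8) (.nd (nat_lit 9) 
(.lf (nat_lit 486428) (.g (nat_lit 2989) (.e (nat_lit 24628) (nat_lit 9) (.e (nat_lit 336452) (nat_lit 34) (.e (nat_lit 483364) (nat_lit 18) (.e (nat_lit 57854) (nat_lit 252) (.e (nat_lit 57373) (nat_lit 2) (.e (nat_lit 90160) (nat_lit 11) .nil)))))) (.g (nat_lit 1) (.e (nat_lit 134000) (nat_lit 0) .nil) .nil))) 
(.lf (nat_lit 486940) (.g (nat_lit 3329) (.e (nat_lit 24647) (nat_lit 12) (.e (nat_lit 385074) (nat_lit 31) (.e (nat_lit 573482) (nat_lit 13) (.e (nat_lit 65619) (nat_lit 10) (.e (nat_lit 344129) (nat_lit 26) (.e (nat_lit 557087) (nat_lit 11) .nil)))))) (.g (nat_lit 1) (.e (nat_lit 134710) (nat_lit 0) .nil) .nil)))) (.nd (nat_lit 9) 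
(.lf (nat_lit 486684) (.g (nat_lit 2037) (.e (nat_lit 24630) (nat_lit 9) (.e (nat_lit 336454) (nat_lit 34) (.e (nat_lit 483364) (nat_lit 18) (.e (nat_lit 57854) (nat_lit 252) (.e (nat_lit 57371) (nat_lit 2) (.e (nat_lit 90156) (nat_lit 11) .nil)))))) (.g (nat_lit 1) (.e (nat_lit 134331) (nat_lit 0) .nil) .nil))) 
(.lf (nat_lit 487196) (.g (nat_lit 1158) (.e (nat_lit 24658) (nat_lit 13) (.e (nat_lit 393259) (nat_lit 21) (.e (nat_lit 409618) (nat_lit 10) (.e (nat_lit 4859) (nat_lit 287) .nil)))) (.g (nat_lit 0) (.e (nat_lit 135134) (nat_lit 0) .nil) .nil))))) (.nd (nat_lit 8) (.nd (nat_lit 9) 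
(.lf (nat_lit 486556) (.g (nat_lit 2007) (.e (nat_lit 24629) (nat_lit 9) (.e (nat_lit 336430) (nat_lit 29) (.e (nat_lit 442421) (nat_lit 21) (.e (nat_lit 164327) (nat_lit 230) (.e (nat_lit 163879) (nat_lit 4) (.e (nat_lit 213030) (nat_lit 11) .nil)))))) (.g (nat_lit 1) (.e (nat_lit 134131) (nat_lit 0) .nil) .nil))) 
(.lf (nat_lit 487068) (.g (nat_lit 1187) (.e (nat_lit 24655) (nat_lit 13) (.e (nat_lit 393273) (nat_lit 23) (.e (nat_lit 426449) (nat_lit 20) (.e (nat_lit 122624) (nat_lit 4) .nil)))) (.g (nat_lit 0) (.e (nat_lit 134955) (nat_lit 0) .nil) .nil)))) (.nd (nat_lit 9) 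
(.lf (nat_lit 486812) (.g (nat_lit 948) (.e (nat_lit 24637) (nat_lit 9) (.e (nat_lit 335986) (nat_lit 1) (.e (nat_lit 57847) (nat_lit 252) .nil))) (.g (nat_lit 0) (.e (nat_lit 134475) (nat_lit 0) .nil) .nil))) 
(.lf (nat_lit 487324) (.g (nat_lit 1539) (.e (nat_lit 24660) (nat_lit 13) (.e (nat_lit 393238) (nat_lit 17) (.e (nat_lit 7107) (nat_lit 380) (.e (nat_lit 164284) (nat_lit 224) (.e (nat_lit 164104) (nat_lit 116) .nil))))) (.g (nat_lit 0) (.e (nat_lit 135284) (nat_lit 0) .nil) .nil)))))) (.nd (nat_lit 7) (.nd (nat_lit 8) (.nd (nat_lit 9) 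
(.lf (nat_lit 486492) (.g (nat_lit 2978) (.e (nat_lit 24628) (nat_lit 9) (.e (nat_lit 336454) (nat_lit 34) (.e (nat_lit 483366) (nat_lit 18) (.e (nat_lit 57848) (nat_lit 252) (.e (nat_lit 57372) (nat_lit 2) (.e (nat_lit 90158) (nat_lit 11) .nil)))))) (.g (nat_lit 1) (.e (nat_lit 134064) (nat_lit 0) .nil) .nil))) 
(.lf (nat_lit 487004) (.g (nat_lit 1550) (.e (nat_lit 24651) (nat_lit 12) (.e (nat_lit 385093) (nat_lit 49) (.e (nat_lit 778323) (nat_lit 5) (.e (nat_lit 73789) (nat_lit 45) .nil)))) (.g (nat_lit 0) (.e (nat_lit 134841) (nat_lit 0) .nil) .nil)))) (.nd (nat_lit 9) 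
(.lf (nat_lit 486748) (.g (nat_lit 3251) (.e (nat_lit 24630) (nat_lit 9) (.e (nat_lit 336456) (nat_lit 34) (.e (nat_lit 483365) (nat_lit 18) (.e (nat_lit 57846) (nat_lit 252) (.e (nat_lit 57370) (nat_lit 2) (.e (nat_lit 90158) (nat_lit 11) .nil)))))) (.g (nat_lit 1) (.e (nat_lit 134397) (nat_lit 0) .nil) .nil))) 
(.lf (nat_lit 487260) (.g (nat_lit 1590) (.e (nat_lit 24658) (nat_lit 13) (.e (nat_lit 393300) (nat_lit 27) (.e (nat_lit 491556) (nat_lit 9) (.e (nat_lit 335874) (nat_lit 0) .nil)))) (.g (nat_lit 0) (.e (nat_lit 135209) (nat_lit 0) .nil) .nil))))) (.nd (nat_lit 8) (.nd (nat_lit 9) 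
(.lf (nat_lit 486620) (.g (nat_lit 1283) (.e (nat_lit 24630) (nat_lit 9) (.e (nat_lit 336369) (nat_lit 27) (.e (nat_lit 426173) (nat_lit 7) (.e (nat_lit 417536) (nat_lit 16) .nil)))) (.g (nat_lit 0) (.e (nat_lit 134217) (nat_lit 0) .nil) .nil))) 
(.lf (nat_lit 487132) (.g (nat_lit 1660) (.e (nat_lit 24657) (nat_lit 13) (.e (nat_lit 393229) (nat_lit 9) (.e (nat_lit 335995) (nat_lit 1) (.e (nat_lit 57849) (nat_lit 252) (.e (nat_lit 57370) (nat_lit 2) (.e (nat_lit 90159) (nat_lit 11) .nil)))))) (.g (nat_lit 1) (.e (nat_lit 135040) (nat_lit 0) .nil) .nil)))) (.nd (nat_lit 9) 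
(.lf (nat_lit 486876) (.g (nat_lit 3168) (.e (nat_lit 24640) (nat_lit 10) (.e (nat_lit 344156) (nat_lit 36) (.e (nat_lit 638998) (nat_lit 8) (.e (nat_lit 172106) (nat_lit 10) (.e (nat_lit 434209) (nat_lit 18) (.e (nat_lit 5850) (nat_lit 320) (.e (nat_lit 2551) (nat_lit 159) .nil))))))) (.g (nat_lit 1) (.e (nat_lit 134616) (nat_lit 0) .nil) .nil))) 
(.lf (nat_lit 487388) (.g (nat_lit 1776) (.e (nat_lit 24660) (nat_lit 13) (.e (nat_lit 393281) (nat_lit 23) (.e (nat_lit 426100) (nat_lit 1) (.e (nat_lit 164329) (nat_lit 230) (.e (nat_lit 163878) (nat_lit 4) (.e (nat_lit 213030) (nat_lit 11) .nil)))))) (.g (nat_lit 1) (.e (nat_lit 135358) (nat_lit 0) .nil) .nil))))))) (.nd (nat_lit 6) (.nd (nat_lit 7) (.nd (nat_lit 8) (.nd (nat_lit 9) 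
(.lf (nat_lit 486460) (.g (nat_lit 2690) (.e (nat_lit 24628) (nat_lit 9) (.e (nat_lit 336454) (nat_lit 34) (.e (nat_lit 483365) (nat_lit 18) (.e (nat_lit 57848) (nat_lit 252) (.e (nat_lit 57370) (nat_lit 2) (.e (nat_lit 90158) (nat_lit 11) .nil)))))) (.g (nat_lit 1) (.e (nat_lit 134032) (nat_lit 0) .nil) .nil))) 
(.lf (nat_lit 486972) (.g (nat_lit 2570) (.e (nat_lit 24650) (nat_lit 12) (.e (nat_lit 385066) (nat_lit 26) (.e (nat_lit 532504) (nat_lit 1) (.e (nat_lit 57852) (nat_lit 252) (.e (nat_lit 57442) (nat_lit 18) (.e (nat_lit 392960) (nat_lit 10) .nil)))))) (.g (nat_lit 1) (.e (nat_lit 134779) (nat_lit 0) .nil) .nil)))) (.nd (nat_lit 9) 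
(.lf (nat_lit 486716) (.g (nat_lit 3374) (.e (nat_lit 24630) (nat_lit 9) (.e (nat_lit 336454) (nat_lit 34) (.e (nat_lit 483365) (nat_lit 18) (.e (nat_lit 57852) (nat_lit 252) (.e (nat_lit 57371) (nat_lit 2) (.e (nat_lit 90158) (nat_lit 11) .nil)))))) (.g (nat_lit 1) (.e (nat_lit 134365) (nat_lit 0) .nil) .nil))) 
(.lf (nat_lit 487228) (.g (nat_lit 2129) (.e (nat_lit 24658) (nat_lit 13) (.e (nat_lit 393281) (nat_lit 23) (.e (nat_lit 426100) (nat_lit 1) (.e (nat_lit 164329) (nat_lit 230) (.e (nat_lit 163878) (nat_lit 4) (.e (nat_lit 213032) (nat_lit 11) .nil)))))) (.g (nat_lit 1) (.e (nat_lit 135171) (nat_lit 0) .nil) .nil))))) (.nd (nat_lit 8) (.nd (nat_lit 9) 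
(.lf (nat_lit 486588) (.g (nat_lit 1431) (.e (nat_lit 24629) (nat_lit 9) (.e (nat_lit 336456) (nat_lit 34) (.e (nat_lit 483365) (nat_lit 18) (.e (nat_lit 57852) (nat_lit 252) .nil)))) (.g (nat_lit 0) (.e (nat_lit 134166) (nat_lit 0) .nil) .nil))) 
(.lf (nat_lit 487100) (.g (nat_lit 1555) (.e (nat_lit 24655) (nat_lit 13) (.e (nat_lit 393300) (nat_lit 27) (.e (nat_lit 491556) (nat_lit 9) (.e (nat_lit 335874) (nat_lit 0) .nil)))) (.g (nat_lit 0) (.e (nat_lit 134995) (nat_lit 0) .nil) .nil)))) (.nd (nat_lit 9) 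
(.lf (nat_lit 486844) (.g (nat_lit 3142) (.e (nat_lit 24640) (nat_lit 10) (.e (nat_lit 344129) (nat_lit 26) (.e (nat_lit 557087) (nat_lit 11) (.e (nat_lit 24617) (nat_lit 7) (.e (nat_lit 319504) (nat_lit 10) .nil))))) (.g (nat_lit 0) (.e (nat_lit 134556) (nat_lit 0) .nil) .nil))) 
(.lf (nat_lit 487356) (.g (nat_lit 407) (.e (nat_lit 24660) (nat_lit 13) (.e (nat_lit 393260) (nat_lit 21) (.e (nat_lit 409640) (nat_lit 17) .nil))) (.g (nat_lit 0) (.e (nat_lit 135326) (nat_lit 0) .nil) .nil)))))) (.nd (nat_lit 7) (.nd (nat_lit 8) (.nd (nat_lit 9) 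
(.lf (nat_lit 486524) (.g (nat_lit 2503) (.e (nat_lit 24628) (nat_lit 9) (.e (nat_lit 336456) (nat_lit 34) (.e (nat_lit 483365) (nat_lit 18) (.e (nat_lit 57851) (nat_lit 252) (.e (nat_lit 57371) (nat_lit 2) (.e (nat_lit 90158) (nat_lit 11) .nil)))))) (.g (nat_lit 1) (.e (nat_lit 134097) (nat_lit 0) .nil) .nil))) 
(.lf (nat_lit 487036) (.g (nat_lit 2940) (.e (nat_lit 24653) (nat_lit 12) (.e (nat_lit 385074) (nat_lit 31) (.e (nat_lit 573485) (nat_lit 13) (.e (nat_lit 65619) (nat_lit 10) (.e (nat_lit 344129) (nat_lit 26) (.e (nat_lit 557087) (nat_lit 11) .nil)))))) (.g (nat_lit 1) (.e (nat_lit 134907) (nat_lit 0) .nil) .nil)))) (.nd (nat_lit 9) 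
(.lf (nat_lit 486780) (.g (nat_lit 2144) (.e (nat_lit 24631) (nat_lit 9) (.e (nat_lit 336388) (nat_lit 27) (.e (nat_lit 426306) (nat_lit 12) (.e (nat_lit 475214) (nat_lit 42) (.e (nat_lit 728832) (nat_lit 4) (.e (nat_lit 213032) (nat_lit 11) .nil)))))) (.g (nat_lit 1) (.e (nat_lit 134435) (nat_lit 0) .nil) .nil))) 
(.lf (nat_lit 487292) (.g (nat_lit 2148) (.e (nat_lit 24659) (nat_lit 13) (.e (nat_lit 393281) (nat_lit 23) (.e (nat_lit 426098) (nat_lit 1) (.e (nat_lit 164325) (nat_lit 230) (.e (nat_lit 163879) (nat_lit 4) (.e (nat_lit 213030) (nat_lit 11) .nil)))))) (.g (nat_lit 1) (.e (nat_lit 135242) (nat_lit 0) .nil) .nil))))) (.nd (nat_lit 8) (.nd (nat_lit 9) 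
(.lf (nat_lit 486652) (.g (nat_lit 3158) (.e (nat_lit 24630) (nat_lit 9) (.e (nat_lit 336443) (nat_lit 32) (.e (nat_lit 466971) (nat_lit 21) (.e (nat_lit 164325) (nat_lit 230) (.e (nat_lit 163882) (nat_lit 4) (.e (nat_lit 213032) (nat_lit 11) .nil)))))) (.g (nat_lit 1) (.e (nat_lit 134290) (nat_lit 0) .nil) .nil))) 
(.lf (nat_lit 487164) (.g (nat_lit 1938) (.e (nat_lit 24657) (nat_lit 13) (.e (nat_lit 393281) (nat_lit 23) (.e (nat_lit 426100) (nat_lit 1) (.e (nat_lit 164330) (nat_lit 230) (.e (nat_lit 163878) (nat_lit 4) (.e (nat_lit 213030) (nat_lit 11) .nil)))))) (.g (nat_lit 1) (.e (nat_lit 135082) (nat_lit 0) .nil) .nil)))) (.nd (nat_lit 9) 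
(.lf (nat_lit 486908) (.g (nat_lit 2356) (.e (nat_lit 24640) (nat_lit 10) (.e (nat_lit 344156) (nat_lit 36) (.e (nat_lit 638998) (nat_lit 8) (.e (nat_lit 172115) (nat_lit 10) (.e (nat_lit 434202) (nat_lit 18) (.e (nat_lit 5796) (nat_lit 320) (.e (nat_lit 2558) (nat_lit 159) .nil))))))) (.g (nat_lit 1) (.e (nat_lit 134648) (nat_lit 0) .nil) .nil))) 
(.lf (nat_lit 487420) (.g (nat_lit 3480) (.e (nat_lit 24661) (nat_lit 14) (.e (nat_lit 401459) (nat_lit 13) (.e (nat_lit 483372) (nat_lit 21) (.e (nat_lit 319512) (nat_lit 10) .nil)))) (.g (nat_lit 0) (.e (nat_lit 135429) (nat_lit 0) .nil) .nil))))))))))) (.nd (nat_lit 2) (.nd (nat_lit 3) (.nd (nat_lit 4) (.nd (nat_lit 5) (.nd (nat_lit 6) (.nd (nat_lit 7) (.nd (nat_lit 8) (.nd (nat_lit 9) 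
(.lf (nat_lit 486402) (.g (nat_lit 1271) (.e (nat_lit 24628) (nat_lit 9) (.e (nat_lit 336443) (nat_lit 32) (.e (nat_lit 466972) (nat_lit 21) (.e (nat_lit 164330) (nat_lit 230) .nil)))) (.g (nat_lit 0) (.e (nat_lit 133974) (nat_lit 0) .nil) .nil))) 
(.lf (nat_lit 486914) (.g (nat_lit 3034) (.e (nat_lit 24640) (nat_lit 10) (.e (nat_lit 344156) (nat_lit 36) (.e (nat_lit 638998) (nat_lit 8) (.e (nat_lit 172115) (nat_lit 10) (.e (nat_lit 434209) (nat_lit 18) (.e (nat_lit 5851) (nat_lit 320) (.e (nat_lit 2551) (nat_lit 159) .nil))))))) (.g (nat_lit 1) (.e (nat_lit 134654) (nat_lit 0) .nil) .nil)))) (.nd (nat_lit 9) 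
(.lf (nat_lit 486658) (.g (nat_lit 3109) (.e (nat_lit 24630) (nat_lit 9) (.e (nat_lit 336443) (nat_lit 32) (.e (nat_lit 466972) (nat_lit 21) (.e (nat_lit 164330) (nat_lit 230) (.e (nat_lit 163878) (nat_lit 4) (.e (nat_lit 213030) (nat_lit 11) .nil)))))) (.g (nat_lit 1) (.e (nat_lit 134296) (nat_lit 0) .nil) .nil))) 
(.lf (nat_lit 487170) (.g (nat_lit 1466) (.e (nat_lit 24657) (nat_lit 13) (.e (nat_lit 401152) (nat_lit 23) (.e (nat_lit 426098) (nat_lit 1) (.e (nat_lit 164325) (nat_lit 230) (.e (nat_lit 163882) (nat_lit 4) (.e (nat_lit 213032) (nat_lit 11) .nil)))))) (.g (nat_lit 1) (.e (nat_lit 135088) (nat_lit 0) .nil) .nil))))) (.nd (nat_lit 8) (.nd (nat_lit 9) 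
(.lf (nat_lit 486530) (.g (nat_lit 3874) (.e (nat_lit 24628) (nat_lit 9) (.e (nat_lit 336456) (nat_lit 34) (.e (nat_lit 483365) (nat_lit 18) (.e (nat_lit 57854) (nat_lit 252) (.e (nat_lit 57373) (nat_lit 2) (.e (nat_lit 90158) (nat_lit 11) .nil)))))) (.g (nat_lit 1) (.e (nat_lit 134103) (nat_lit 0) .nil) .nil))) 
(.lf (nat_lit 487042) (.g (nat_lit 1646) (.e (nat_lit 24653) (nat_lit 12) (.e (nat_lit 385102) (nat_lit 50) (.e (nat_lit 786483) (nat_lit 30) (.e (nat_lit 360450) (nat_lit 0) (.e (nat_lit 4825) (nat_lit 281) (.e (nat_lit 2555) (nat_lit 159) .nil)))))) (.g (nat_lit 1) (.e (nat_lit 134919) (nat_lit 0) .nil) .nil)))) (.nd (nat_lit 9) 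
(.lf (nat_lit 486786) (.g (nat_lit 2561) (.e (nat_lit 24632) (nat_lit 9) (.e (nat_lit 336282) (nat_lit 15) (.e (nat_lit 3305) (nat_lit 202) (.e (nat_lit 573484) (nat_lit 13) (.e (nat_lit 65617) (nat_lit 10) .nil))))) (.g (nat_lit 0) (.e (nat_lit 134446) (nat_lit 0) .nil) .nil))) 
(.lf (nat_lit 487298) (.g (nat_lit 3325) (.e (nat_lit 24659) (nat_lit 13) (.e (nat_lit 393281) (nat_lit 23) (.e (nat_lit 426098) (nat_lit 1) (.e (nat_lit 164332) (nat_lit 230) (.e (nat_lit 163880) (nat_lit 4) (.e (nat_lit 213030) (nat_lit 11) .nil)))))) (.g (nat_lit 1) (.e (nat_lit 135248) (nat_lit 0) .nil) .nil)))))) (.nd (nat_lit 7) (.nd (nat_lit 8) (.nd (nat_lit 9) 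
(.lf (nat_lit 486466) (.g (nat_lit 2516) (.e (nat_lit 24628) (nat_lit 9) (.e (nat_lit 336454) (nat_lit 34) (.e (nat_lit 483365) (nat_lit 18) (.e (nat_lit 57849) (nat_lit 252) (.e (nat_lit 57373) (nat_lit 2) .nil))))) (.g (nat_lit 0) (.e (nat_lit 134038) (nat_lit 0) .nil) .nil))) 
(.lf (nat_lit 486978) (.g (nat_lit 3807) (.e (nat_lit 24650) (nat_lit 12) (.e (nat_lit 385068) (nat_lit 26) (.e (nat_lit 532504) (nat_lit 1) (.e (nat_lit 57852) (nat_lit 252) (.e (nat_lit 57442) (nat_lit 18) (.e (nat_lit 392960) (nat_lit 10) .nil)))))) (.g (nat_lit 1) (.e (nat_lit 134787) (nat_lit 0) .nil) .nil)))) (.nd (nat_lit 9) 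
(.lf (nat_lit 486722) (.g (nat_lit 4310) (.e (nat_lit 24630) (nat_lit 9) (.e (nat_lit 336454) (nat_lit 34) (.e (nat_lit 483365) (nat_lit 18) (.e (nat_lit 57854) (nat_lit 252) (.e (nat_lit 57373) (nat_lit 2) (.e (nat_lit 90160) (nat_lit 11) .nil)))))) (.g (nat_lit 1) (.e (nat_lit 134371) (nat_lit 0) .nil) .nil))) 
(.lf (nat_lit 487234) (.g (nat_lit 2381) (.e (nat_lit 24658) (nat_lit 13) (.e (nat_lit 393281) (nat_lit 23) (.e (nat_lit 426100) (nat_lit 1) (.e (nat_lit 164332) (nat_lit 230) (.e (nat_lit 163843) (nat_lit 0) (.e (nat_lit 3651) (nat_lit 227) (.e (nat_lit 778462) (nat_lit 11) .nil))))))) (.g (nat_lit 1) (.e (nat_lit 135178) (nat_lit 0) .nil) .nil))))) (.nd (nat_lit 8) (.nd (nat_lit 9) 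
(.lf (nat_lit 486594) (.g (nat_lit 2346) (.e (nat_lit 24630) (nat_lit 9) (.e (nat_lit 336324) (nat_lit 18) (.e (nat_lit 204830) (nat_lit 18) (.e (nat_lit 57852) (nat_lit 252) (.e (nat_lit 57440) (nat_lit 18) .nil))))) (.g (nat_lit 0) (.e (nat_lit 134180) (nat_lit 0) .nil) .nil))) 
(.lf (nat_lit 487106) (.g (nat_lit 2544) (.e (nat_lit 24656) (nat_lit 13) (.e (nat_lit 393271) (nat_lit 23) (.e (nat_lit 426112) (nat_lit 1) (.e (nat_lit 164327) (nat_lit 230) (.e (nat_lit 163881) (nat_lit 4) (.e (nat_lit 213030) (nat_lit 11) .nil)))))) (.g (nat_lit 1) (.e (nat_lit 135004) (nat_lit 0) .nil) .nil)))) (.nd (nat_lit 9) 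
(.lf (nat_lit 486850) (.g (nat_lit 3501) (.e (nat_lit 24640) (nat_lit 10) (.e (nat_lit 344156) (nat_lit 36) (.e (nat_lit 638985) (nat_lit 5) (.e (nat_lit 3015) (nat_lit 187) (.e (nat_lit 450562) (nat_lit 0) (.e (nat_lit 5799) (nat_lit 320) (.e (nat_lit 2552) (nat_lit 159) .nil))))))) (.g (nat_lit 1) (.e (nat_lit 134590) (nat_lit 0) .nil) .nil))) 
(.lf (nat_lit 487362) (.g (nat_lit 2185) (.e (nat_lit 24660) (nat_lit 13) (.e (nat_lit 393271) (nat_lit 23) (.e (nat_lit 426112) (nat_lit 1) (.e (nat_lit 164327) (nat_lit 230) (.e (nat_lit 163879) (nat_lit 4) (.e (nat_lit 213032) (nat_lit 11) .nil)))))) (.g (nat_lit 1) (.e (nat_lit 135332) (nat_lit 0) .nil) .nil))))))) (.nd (nat_lit 6) (.nd (nat_lit 7) (.nd (nat_lit 8) (.nd (nat_lit 9) 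
(.lf (nat_lit 486434) (.g (nat_lit 3386) (.e (nat_lit 24628) (nat_lit 9) (.e (nat_lit 336454) (nat_lit 34) (.e (nat_lit 483363) (nat_lit 18) (.e (nat_lit 57847) (nat_lit 252) (.e (nat_lit 57375) (nat_lit 2) (.e (nat_lit 90158) (nat_lit 11) .nil)))))) (.g (nat_lit 1) (.e (nat_lit 134006) (nat_lit 0) .nil) .nil))) 
(.lf (nat_lit 486946) (.g (nat_lit 1880) (.e (nat_lit 24647) (nat_lit 12) (.e (nat_lit 385094) (nat_lit 49) (.e (nat_lit 778323) (nat_lit 5) (.e (nat_lit 73788) (nat_lit 45) .nil)))) (.g (nat_lit 0) (.e (nat_lit 134720) (nat_lit 0) .nil) .nil)))) (.nd (nat_lit 9) 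
(.lf (nat_lit 486690) (.g (nat_lit 2909) (.e (nat_lit 24630) (nat_lit 9) (.e (nat_lit 336454) (nat_lit 34) (.e (nat_lit 483365) (nat_lit 18) (.e (nat_lit 57844) (nat_lit 252) (.e (nat_lit 57371) (nat_lit 2) (.e (nat_lit 90160) (nat_lit 11) .nil)))))) (.g (nat_lit 1) (.e (nat_lit 134337) (nat_lit 0) .nil) .nil))) 
(.lf (nat_lit 487202) (.g (nat_lit 2092) (.e (nat_lit 24658) (nat_lit 13) (.e (nat_lit 393281) (nat_lit 23) (.e (nat_lit 426098) (nat_lit 1) (.e (nat_lit 164325) (nat_lit 230) (.e (nat_lit 163844) (nat_lit 0) (.e (nat_lit 3651) (nat_lit 227) (.e (nat_lit 778462) (nat_lit 11) .nil))))))) (.g (nat_lit 1) (.e (nat_lit 135142) (nat_lit 0) .nil) .nil))))) (.nd (nat_lit 8) (.nd (nat_lit 9) 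
(.lf (nat_lit 486562) (.g (nat_lit 1056) (.e (nat_lit 24629) (nat_lit 9) (.e (nat_lit 336443) (nat_lit 32) (.e (nat_lit 466968) (nat_lit 21) .nil))) (.g (nat_lit 0) (.e (nat_lit 134138) (nat_lit 0) .nil) .nil))) 
(.lf (nat_lit 487074) (.g (nat_lit 2862) (.e (nat_lit 24655) (nat_lit 13) (.e (nat_lit 393281) (nat_lit 23) (.e (nat_lit 426098) (nat_lit 1) (.e (nat_lit 164327) (nat_lit 230) (.e (nat_lit 163881) (nat_lit 4) (.e (nat_lit 213032) (nat_lit 11) .nil)))))) (.g (nat_lit 1) (.e (nat_lit 134961) (nat_lit 0) .nil) .nil)))) (.nd (nat_lit 9) 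
(.lf (nat_lit 486818) (.g (nat_lit 918) (.e (nat_lit 24638) (nat_lit 9) (.e (nat_lit 336288) (nat_lit 15) (.e (nat_lit 7089) (nat_lit 379) (.e (nat_lit 123214) (nat_lit 275) .nil)))) (.g (nat_lit 0) (.e (nat_lit 134516) (nat_lit 0) .nil) .nil))) 
(.lf (nat_lit 487330) (.g (nat_lit 2056) (.e (nat_lit 24660) (nat_lit 13) (.e (nat_lit 393259) (nat_lit 21) (.e (nat_lit 409618) (nat_lit 10) (.e (nat_lit 5024) (nat_lit 290) (.e (nat_lit 164108) (nat_lit 116) (.e (nat_lit 786176) (nat_lit 11) .nil)))))) (.g (nat_lit 1) (.e (nat_lit 135298) (nat_lit 0) .nil) .nil)))))) (.nd (nat_lit 7) (.nd (nat_lit 8) (.nd (nat_lit 9) 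
(.lf (nat_lit 486498) (.g (nat_lit 3738) (.e (nat_lit 24628) (nat_lit 9) (.e (nat_lit 336454) (nat_lit 34) (.e (nat_lit 483366) (nat_lit 18) (.e (nat_lit 57854) (nat_lit 252) (.e (nat_lit 57373) (nat_lit 2) (.e (nat_lit 90158) (nat_lit 11) .nil)))))) (.g (nat_lit 1) (.e (nat_lit 134070) (nat_lit 0) .nil) .nil))) 
(.lf (nat_lit 487010) (.g (nat_lit 1883) (.e (nat_lit 24651) (nat_lit 12) (.e (nat_lit 385106) (nat_lit 50) (.e (nat_lit 786467) (nat_lit 27) (.e (nat_lit 336060) (nat_lit 7) (.e (nat_lit 319504) (nat_lit 10) (.e (nat_lit 7936) (nat_lit 314) .nil)))))) (.g (nat_lit 1) (.e (nat_lit 134849) (nat_lit 0) .nil) .nil)))) (.nd (nat_lit 9) 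
(.lf (nat_lit 486754) (.g (nat_lit 3885) (.e (nat_lit 24630) (nat_lit 9) (.e (nat_lit 336456) (nat_lit 34) (.e (nat_lit 483365) (nat_lit 18) (.e (nat_lit 57847) (nat_lit 252) (.e (nat_lit 57372) (nat_lit 2) (.e (nat_lit 90160) (nat_lit 11) .nil)))))) (.g (nat_lit 1) (.e (nat_lit 134403) (nat_lit 0) .nil) .nil))) 
(.lf (nat_lit 487266) (.g (nat_lit 1869) (.e (nat_lit 24658) (nat_lit 13) (.e (nat_lit 393301) (nat_lit 27) (.e (nat_lit 491559) (nat_lit 10) (.e (nat_lit 344089) (nat_lit 18) .nil)))) (.g (nat_lit 0) (.e (nat_lit 135215) (nat_lit 0) .nil) .nil))))) (.nd (nat_lit 8) (.nd (nat_lit 9) 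
(.lf (nat_lit 486626) (.g (nat_lit 3687) (.e (nat_lit 24630) (nat_lit 9) (.e (nat_lit 336369) (nat_lit 27) (.e (nat_lit 426501) (nat_lit 27) (.e (nat_lit 335988) (nat_lit 1) (.e (nat_lit 57854) (nat_lit 252) (.e (nat_lit 57371) (nat_lit 2) (.e (nat_lit 90160) (nat_lit 11) .nil))))))) (.g (nat_lit 1) (.e (nat_lit 134225) (nat_lit 0) .nil) .nil))) 
(.lf (nat_lit 487138) (.g (nat_lit 2059) (.e (nat_lit 24657) (nat_lit 13) (.e (nat_lit 393232) (nat_lit 17) (.e (nat_lit 7587) (nat_lit 406) (.e (nat_lit 65580) (nat_lit 6) (.e (nat_lit 147493) (nat_lit 11) .nil))))) (.g (nat_lit 1) (.e (nat_lit 135048) (nat_lit 0) .nil) .nil)))) (.nd (nat_lit 9) 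
(.lf (nat_lit 486882) (.g (nat_lit 3447) (.e (nat_lit 24640) (nat_lit 10) (.e (nat_lit 344156) (nat_lit 36) (.e (nat_lit 638998) (nat_lit 8) (.e (nat_lit 172113) (nat_lit 10) (.e (nat_lit 434203) (nat_lit 18) (.e (nat_lit 5796) (nat_lit 320) (.e (nat_lit 2553) (nat_lit 159) .nil))))))) (.g (nat_lit 1) (.e (nat_lit 134622) (nat_lit 0) .nil) .nil))) 
(.lf (nat_lit 487394) (.g (nat_lit 1024) (.e (nat_lit 24660) (nat_lit 13) (.e (nat_lit 393297) (nat_lit 27) (.e (nat_lit 491560) (nat_lit 10) (.e (nat_lit 344178) (nat_lit 44) .nil)))) (.g (nat_lit 0) (.e (nat_lit 135377) (nat_lit 0) .nil) .nil)))))))) (.nd (nat_lit 5) (.nd (nat_lit 6) (.nd (nat_lit 7) (.nd (nat_lit 8) (.nd (nat_lit 9) 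
(.lf (nat_lit 486418) (.g (nat_lit 1889) (.e (nat_lit 24628) (nat_lit 9) (.e (nat_lit 336443) (nat_lit 32) (.e (nat_lit 466972) (nat_lit 21) (.e (nat_lit 164332) (nat_lit 230) (.e (nat_lit 163850) (nat_lit 0) .nil))))) (.g (nat_lit 0) (.e (nat_lit 133990) (nat_lit 0) .nil) .nil))) 
(.lf (nat_lit 486930) (.g (nat_lit 3727) (.e (nat_lit 24641) (nat_lit 10) (.e (nat_lit 344133) (nat_lit 26) (.e (nat_lit 557119) (nat_lit 18) (.e (nat_lit 2798) (nat_lit 180) (.e (nat_lit 303133) (nat_lit 9) (.e (nat_lit 426412) (nat_lit 15) (.e (nat_lit 7936) (nat_lit 359) .nil))))))) (.g (nat_lit 1) (.e (nat_lit 134684) (nat_lit 0) .nil) .nil)))) (.nd (nat_lit 9) 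
(.lf (nat_lit 486674) (.g (nat_lit 3473) (.e (nat_lit 24630) (nat_lit 9) (.e (nat_lit 336454) (nat_lit 34) (.e (nat_lit 483363) (nat_lit 18) (.e (nat_lit 57853) (nat_lit 252) (.e (nat_lit 57371) (nat_lit 2) (.e (nat_lit 90158) (nat_lit 11) .nil)))))) (.g (nat_lit 1) (.e (nat_lit 134321) (nat_lit 0) .nil) .nil))) 
(.lf (nat_lit 487186) (.g (nat_lit 485) (.e (nat_lit 24658) (nat_lit 13) (.e (nat_lit 393234) (nat_lit 17) (.e (nat_lit 7495) (nat_lit 402) .nil))) (.g (nat_lit 0) (.e (nat_lit 135120) (nat_lit 0) .nil) .nil))))) (.nd (nat_lit 8) (.nd (nat_lit 9) 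
(.lf (nat_lit 486546) (.g (nat_lit 1960) (.e (nat_lit 24629) (nat_lit 9) (.e (nat_lit 336430) (nat_lit 29) (.e (nat_lit 442419) (nat_lit 21) (.e (nat_lit 164327) (nat_lit 230) (.e (nat_lit 163879) (nat_lit 4) (.e (nat_lit 213030) (nat_lit 11) .nil)))))) (.g (nat_lit 1) (.e (nat_lit 134121) (nat_lit 0) .nil) .nil))) 
(.lf (nat_lit 487058) (.g (nat_lit 952) (.e (nat_lit 24654) (nat_lit 13) (.e (nat_lit 393301) (nat_lit 27) (.e (nat_lit 491551) (nat_lit 9) .nil))) (.g (nat_lit 0) (.e (nat_lit 134937) (nat_lit 0) .nil) .nil)))) (.nd (nat_lit 9) 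
(.lf (nat_lit 486802) (.g (nat_lit 393) (.e (nat_lit 24636) (nat_lit 9) (.e (nat_lit 336390) (nat_lit 27) (.e (nat_lit 426011) (nat_lit 0) .nil))) (.g (nat_lit 0) (.e (nat_lit 134464) (nat_lit 0) .nil) .nil))) 
(.lf (nat_lit 487314) (.g (nat_lit 312) (.e (nat_lit 24659) (nat_lit 13) (.e (nat_lit 393301) (nat_lit 27) (.e (nat_lit 491559) (nat_lit 10) .nil))) (.g (nat_lit 0) (.e (nat_lit 135266) (nat_lit 0) .nil) .nil)))))) (.nd (nat_lit 7) (.nd (nat_lit 8) (.nd (nat_lit 9) 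
(.lf (nat_lit 486482) (.g (nat_lit 1670) (.e (nat_lit 24628) (nat_lit 9) (.e (nat_lit 336454) (nat_lit 34) (.e (nat_lit 483366) (nat_lit 18) (.e (nat_lit 57845) (nat_lit 252) (.e (nat_lit 57371) (nat_lit 2) (.e (nat_lit 90158) (nat_lit 11) .nil)))))) (.g (nat_lit 1) (.e (nat_lit 134054) (nat_lit 0) .nil) .nil))) 
(.lf (nat_lit 486994) (.g (nat_lit 2168) (.e (nat_lit 24651) (nat_lit 12) (.e (nat_lit 385072) (nat_lit 31) (.e (nat_lit 573481) (nat_lit 13) (.e (nat_lit 65619) (nat_lit 10) (.e (nat_lit 344129) (nat_lit 26) (.e (nat_lit 557085) (nat_lit 11) .nil)))))) (.g (nat_lit 1) (.e (nat_lit 134819) (nat_lit 0) .nil) .nil)))) (.nd (nat_lit 9) 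
(.lf (nat_lit 486738) (.g (nat_lit 2250) (.e (nat_lit 24630) (nat_lit 9) (.e (nat_lit 336456) (nat_lit 34) (.e (nat_lit 483364) (nat_lit 18) (.e (nat_lit 57851) (nat_lit 252) (.e (nat_lit 57371) (nat_lit 2) (.e (nat_lit 90158) (nat_lit 11) .nil)))))) (.g (nat_lit 1) (.e (nat_lit 134387) (nat_lit 0) .nil) .nil))) 
(.lf (nat_lit 487250) (.g (nat_lit 1997) (.e (nat_lit 24658) (nat_lit 13) (.e (nat_lit 393281) (nat_lit 23) (.e (nat_lit 426108) (nat_lit 1) (.e (nat_lit 164330) (nat_lit 230) (.e (nat_lit 171776) (nat_lit 4) (.e (nat_lit 213032) (nat_lit 11) .nil)))))) (.g (nat_lit 1) (.e (nat_lit 135194) (nat_lit 0) .nil) .nil))))) (.nd (nat_lit 8) (.nd (nat_lit 9) 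
(.lf (nat_lit 486610) (.g (nat_lit 2365) (.e (nat_lit 24630) (nat_lit 9) (.e (nat_lit 336368) (nat_lit 27) (.e (nat_lit 426499) (nat_lit 27) (.e (nat_lit 335986) (nat_lit 1) (.e (nat_lit 57849) (nat_lit 252) (.e (nat_lit 57372) (nat_lit 2) (.e (nat_lit 90158) (nat_lit 11) .nil))))))) (.g (nat_lit 1) (.e (nat_lit 134203) (nat_lit 0) .nil) .nil))) 
(.lf (nat_lit 487122) (.g (nat_lit 3030) (.e (nat_lit 24657) (nat_lit 13) (.e (nat_lit 393229) (nat_lit 9) (.e (nat_lit 335986) (nat_lit 1) (.e (nat_lit 57848) (nat_lit 252) (.e (nat_lit 57372) (nat_lit 2) (.e (nat_lit 90159) (nat_lit 11) .nil)))))) (.g (nat_lit 1) (.e (nat_lit 135030) (nat_lit 0) .nil) .nil)))) (.nd (nat_lit 9) 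
(.lf (nat_lit 486866) (.g (nat_lit 2516) (.e (nat_lit 24640) (nat_lit 10) (.e (nat_lit 344156) (nat_lit 36) (.e (nat_lit 638985) (nat_lit 5) (.e (nat_lit 3015) (nat_lit 187) (.e (nat_lit 450563) (nat_lit 0) (.e (nat_lit 5835) (nat_lit 320) (.e (nat_lit 2551) (nat_lit 159) .nil))))))) (.g (nat_lit 1) (.e (nat_lit 134606) (nat_lit 0) .nil) .nil))) 
(.lf (nat_lit 487378) (.g (nat_lit 2167) (.e (nat_lit 24660) (nat_lit 13) (.e (nat_lit 393281) (nat_lit 23) (.e (nat_lit 426098) (nat_lit 1) (.e (nat_lit 164325) (nat_lit 230) (.e (nat_lit 163879) (nat_lit 4) (.e (nat_lit 213030) (nat_lit 11) .nil)))))) (.g (nat_lit 1) (.e (nat_lit 135348) (nat_lit 0) .nil) .nil))))))) (.nd (nat_lit 6) (.nd (nat_lit 7) (.nd (nat_lit 8) (.nd (nat_lit 9) 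
(.lf (nat_lit 486450) (.g (nat_lit 2670) (.e (nat_lit 24628) (nat_lit 9) (.e (nat_lit 336454) (nat_lit 34) (.e (nat_lit 483365) (nat_lit 18) (.e (nat_lit 57846) (nat_lit 252) (.e (nat_lit 57371) (nat_lit 2) (.e (nat_lit 90160) (nat_lit 11) .nil)))))) (.g (nat_lit 1) (.e (nat_lit 134022) (nat_lit 0) .nil) .nil))) 
(.lf (nat_lit 486962) (.g (nat_lit 753) (.e (nat_lit 24648) (nat_lit 12) (.e (nat_lit 385107) (nat_lit 51) (.e (nat_lit 802560) (nat_lit 1) .nil))) (.g (nat_lit 0) (.e (nat_lit 134756) (nat_lit 0) .nil) .nil)))) (.nd (nat_lit 9) 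
(.lf (nat_lit 486706) (.g (nat_lit 2706) (.e (nat_lit 24630) (nat_lit 9) (.e (nat_lit 336454) (nat_lit 34) (.e (nat_lit 483365) (nat_lit 18) (.e (nat_lit 57848) (nat_lit 252) (.e (nat_lit 57375) (nat_lit 2) (.e (nat_lit 90158) (nat_lit 11) .nil)))))) (.g (nat_lit 1) (.e (nat_lit 134354) (nat_lit 0) .nil) .nil))) 
(.lf (nat_lit 487218) (.g (nat_lit 2203) (.e (nat_lit 24658) (nat_lit 13) (.e (nat_lit 393281) (nat_lit 23) (.e (nat_lit 426099) (nat_lit 1) (.e (nat_lit 164330) (nat_lit 230) (.e (nat_lit 163857) (nat_lit 0) (.e (nat_lit 3711) (nat_lit 227) (.e (nat_lit 778469) (nat_lit 11) .nil))))))) (.g (nat_lit 1) (.e (nat_lit 135159) (nat_lit 0) .nil) .nil))))) (.nd (nat_lit 8) (.nd (nat_lit 9) 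
(.lf (nat_lit 486578) (.g (nat_lit 3285) (.e (nat_lit 24629) (nat_lit 9) (.e (nat_lit 336454) (nat_lit 34) (.e (nat_lit 483365) (nat_lit 18) (.e (nat_lit 57848) (nat_lit 252) (.e (nat_lit 57375) (nat_lit 2) (.e (nat_lit 90159) (nat_lit 11) .nil)))))) (.g (nat_lit 1) (.e (nat_lit 134155) (nat_lit 0) .nil) .nil))) 
(.lf (nat_lit 487090) (.g (nat_lit 1337) (.e (nat_lit 24655) (nat_lit 13) (.e (nat_lit 393281) (nat_lit 23) (.e (nat_lit 426107) (nat_lit 1) (.e (nat_lit 164326) (nat_lit 230) .nil)))) (.g (nat_lit 0) (.e (nat_lit 134977) (nat_lit 0) .nil) .nil)))) (.nd (nat_lit 9) 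
(.lf (nat_lit 486834) (.g (nat_lit 1831) (.e (nat_lit 32512) (nat_lit 9) (.e (nat_lit 336454) (nat_lit 34) (.e (nat_lit 483366) (nat_lit 18) (.e (nat_lit 57854) (nat_lit 252) (.e (nat_lit 57373) (nat_lit 2) .nil))))) (.g (nat_lit 0) (.e (nat_lit 134532) (nat_lit 0) .nil) .nil))) 
(.lf (nat_lit 487346) (.g (nat_lit 3046) (.e (nat_lit 24660) (nat_lit 13) (.e (nat_lit 393260) (nat_lit 21) (.e (nat_lit 409646) (nat_lit 18) (.e (nat_lit 303111) (nat_lit 0) (.e (nat_lit 3579) (nat_lit 223) (.e (nat_lit 745509) (nat_lit 11) .nil)))))) (.g (nat_lit 1) (.e (nat_lit 135315) (nat_lit 0) .nil) .nil)))))) (.nd (nat_lit 7) (.nd (nat_lit 8) (.nd (nat_lit 9) 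
(.lf (nat_lit 486514) (.g (nat_lit 3280) (.e (nat_lit 24628) (nat_lit 9) (.e (nat_lit 336456) (nat_lit 34) (.e (nat_lit 483365) (nat_lit 18) (.e (nat_lit 57846) (nat_lit 252) (.e (nat_lit 57372) (nat_lit 2) (.e (nat_lit 90160) (nat_lit 11) .nil)))))) (.g (nat_lit 1) (.e (nat_lit 134086) (nat_lit 0) .nil) .nil))) 
(.lf (nat_lit 487026) (.g (nat_lit 1758) (.e (nat_lit 24652) (nat_lit 12) (.e (nat_lit 385094) (nat_lit 49) (.e (nat_lit 778323) (nat_lit 5) (.e (nat_lit 73789) (nat_lit 45) .nil)))) (.g (nat_lit 0) (.e (nat_lit 134871) (nat_lit 0) .nil) .nil)))) (.nd (nat_lit 9) 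
(.lf (nat_lit 486770) (.g (nat_lit 1929) (.e (nat_lit 24631) (nat_lit 9) (.e (nat_lit 336282) (nat_lit 15) (.e (nat_lit 3305) (nat_lit 202) (.e (nat_lit 573485) (nat_lit 13) (.e (nat_lit 65619) (nat_lit 10) .nil))))) (.g (nat_lit 0) (.e (nat_lit 134424) (nat_lit 0) .nil) .nil))) 
(.lf (nat_lit 487282) (.g (nat_lit 2901) (.e (nat_lit 24659) (nat_lit 13) (.e (nat_lit 393271) (nat_lit 23) (.e (nat_lit 426112) (nat_lit 1) (.e (nat_lit 164327) (nat_lit 230) (.e (nat_lit 163882) (nat_lit 4) (.e (nat_lit 213032) (nat_lit 11) .nil)))))) (.g (nat_lit 1) (.e (nat_lit 135232) (nat_lit 0) .nil) .nil))))) (.nd (nat_lit 8) (.nd (nat_lit 9) 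
(.lf (nat_lit 486642) (.g (nat_lit 2021) (.e (nat_lit 24630) (nat_lit 9) (.e (nat_lit 336443) (nat_lit 32) (.e (nat_lit 466969) (nat_lit 21) (.e (nat_lit 164325) (nat_lit 230) (.e (nat_lit 163880) (nat_lit 4) .nil))))) (.g (nat_lit 0) (.e (nat_lit 134280) (nat_lit 0) .nil) .nil))) 
(.lf (nat_lit 487154) (.g (nat_lit 2499) (.e (nat_lit 24657) (nat_lit 13) (.e (nat_lit 393281) (nat_lit 23) (.e (nat_lit 426098) (nat_lit 1) (.e (nat_lit 164325) (nat_lit 230) (.e (nat_lit 163881) (nat_lit 4) (.e (nat_lit 213032) (nat_lit 11) .nil)))))) (.g (nat_lit 1) (.e (nat_lit 135072) (nat_lit 0) .nil) .nil)))) (.nd (nat_lit 9) 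
(.lf (nat_lit 486898) (.g (nat_lit 2651) (.e (nat_lit 24640) (nat_lit 10) (.e (nat_lit 344156) (nat_lit 36) (.e (nat_lit 638998) (nat_lit 8) (.e (nat_lit 172113) (nat_lit 10) (.e (nat_lit 434203) (nat_lit 18) (.e (nat_lit 5849) (nat_lit 320) (.e (nat_lit 2551) (nat_lit 159) .nil))))))) (.g (nat_lit 1) (.e (nat_lit 134638) (nat_lit 0) .nil) .nil))) 
(.lf (nat_lit 487410) (.g (nat_lit 3425) (.e (nat_lit 24661) (nat_lit 14) (.e (nat_lit 401459) (nat_lit 13) (.e (nat_lit 483372) (nat_lit 21) (.e (nat_lit 319496) (nat_lit 10) .nil)))) (.g (nat_lit 0) (.e (nat_lit 135419) (nat_lit 0) .nil) .nil))))))))) (.nd (nat_lit 4) (.nd (nat_lit 5) (.nd (nat_lit 6) (.nd (nat_lit 7) (.nd (nat_lit 8) (.nd (nat_lit 9) 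
(.lf (nat_lit 486410) (.g (nat_lit 3514) (.e (nat_lit 24628) (nat_lit 9) (.e (nat_lit 336443) (nat_lit 32) (.e (nat_lit 466972) (nat_lit 21) (.e (nat_lit 164330) (nat_lit 230) (.e (nat_lit 163857) (nat_lit 0) (.e (nat_lit 3711) (nat_lit 227) (.e (nat_lit 778469) (nat_lit 11) .nil))))))) (.g (nat_lit 1) (.e (nat_lit 133982) (nat_lit 0) .nil) .nil))) 
(.lf (nat_lit 486922) (.g (nat_lit 2267) (.e (nat_lit 24640) (nat_lit 10) (.e (nat_lit 344156) (nat_lit 36) (.e (nat_lit 639001) (nat_lit 10) (.e (nat_lit 188455) (nat_lit 24) (.e (nat_lit 229698) (nat_lit 254) (.e (nat_lit 2552) (nat_lit 159) .nil)))))) (.g (nat_lit 1) (.e (nat_lit 134670) (nat_lit 0) .nil) .nil)))) (.nd (nat_lit 9) 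
(.lf (nat_lit 486666) (.g (nat_lit 3454) (.e (nat_lit 24630) (nat_lit 9) (.e (nat_lit 336454) (nat_lit 34) (.e (nat_lit 483363) (nat_lit 18) (.e (nat_lit 57847) (nat_lit 252) (.e (nat_lit 57372) (nat_lit 2) (.e (nat_lit 90158) (nat_lit 11) .nil)))))) (.g (nat_lit 1) (.e (nat_lit 134313) (nat_lit 0) .nil) .nil))) 
(.lf (nat_lit 487178) (.g (nat_lit 1544) (.e (nat_lit 24657) (nat_lit 13) (.e (nat_lit 393299) (nat_lit 27) (.e (nat_lit 491558) (nat_lit 10) (.e (nat_lit 344180) (nat_lit 44) .nil)))) (.g (nat_lit 0) (.e (nat_lit 135111) (nat_lit 0) .nil) .nil))))) (.nd (nat_lit 8) (.nd (nat_lit 9) 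
(.lf (nat_lit 486538) (.g (nat_lit 2790) (.e (nat_lit 24629) (nat_lit 9) (.e (nat_lit 336426) (nat_lit 29) (.e (nat_lit 442421) (nat_lit 21) (.e (nat_lit 164326) (nat_lit 230) (.e (nat_lit 163882) (nat_lit 4) (.e (nat_lit 213032) (nat_lit 11) .nil)))))) (.g (nat_lit 1) (.e (nat_lit 134113) (nat_lit 0) .nil) .nil))) 
(.lf (nat_lit 487050) (.g (nat_lit 1076) (.e (nat_lit 24654) (nat_lit 13) (.e (nat_lit 393260) (nat_lit 21) (.e (nat_lit 409638) (nat_lit 15) .nil))) (.g (nat_lit 0) (.e (nat_lit 134929) (nat_lit 0) .nil) .nil)))) (.nd (nat_lit 9) 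
(.lf (nat_lit 486794) (.g (nat_lit 1059) (.e (nat_lit 24634) (nat_lit 9) (.e (nat_lit 336013) (nat_lit 2) (.e (nat_lit 98048) (nat_lit 2) (.e (nat_lit 16461) (nat_lit 12) (.e (nat_lit 483072) (nat_lit 2) .nil))))) (.g (nat_lit 1) (.e (nat_lit 134455) (nat_lit 0) .nil) .nil))) 
(.lf (nat_lit 487306) (.g (nat_lit 1980) (.e (nat_lit 24659) (nat_lit 13) (.e (nat_lit 393281) (nat_lit 23) (.e (nat_lit 426108) (nat_lit 1) (.e (nat_lit 164330) (nat_lit 230) (.e (nat_lit 163878) (nat_lit 4) .nil))))) (.g (nat_lit 0) (.e (nat_lit 135256) (nat_lit 0) .nil) .nil)))))) (.nd (nat_lit 7) (.nd (nat_lit 8) (.nd (nat_lit 9) 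
(.lf (nat_lit 486474) (.g (nat_lit 2853) (.e (nat_lit 24628) (nat_lit 9) (.e (nat_lit 336454) (nat_lit 34) (.e (nat_lit 483365) (nat_lit 18) (.e (nat_lit 57852) (nat_lit 252) (.e (nat_lit 57373) (nat_lit 2) (.e (nat_lit 90160) (nat_lit 11) .nil)))))) (.g (nat_lit 1) (.e (nat_lit 134046) (nat_lit 0) .nil) .nil))) 
(.lf (nat_lit 486986) (.g (nat_lit 3057) (.e (nat_lit 24650) (nat_lit 12) (.e (nat_lit 385073) (nat_lit 31) (.e (nat_lit 573482) (nat_lit 13) (.e (nat_lit 65619) (nat_lit 10) (.e (nat_lit 344129) (nat_lit 26) (.e (nat_lit 557086) (nat_lit 11) .nil)))))) (.g (nat_lit 1) (.e (nat_lit 134797) (nat_lit 0) .nil) .nil)))) (.nd (nat_lit 9) 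
(.lf (nat_lit 486730) (.g (nat_lit 3250) (.e (nat_lit 24630) (nat_lit 9) (.e (nat_lit 336456) (nat_lit 34) (.e (nat_lit 483363) (nat_lit 18) (.e (nat_lit 57849) (nat_lit 252) (.e (nat_lit 57372) (nat_lit 2) (.e (nat_lit 90160) (nat_lit 11) .nil)))))) (.g (nat_lit 1) (.e (nat_lit 134379) (nat_lit 0) .nil) .nil))) 
(.lf (nat_lit 487242) (.g (nat_lit 2457) (.e (nat_lit 24658) (nat_lit 13) (.e (nat_lit 393281) (nat_lit 23) (.e (nat_lit 426108) (nat_lit 1) (.e (nat_lit 164329) (nat_lit 230) (.e (nat_lit 163878) (nat_lit 4) (.e (nat_lit 213030) (nat_lit 11) .nil)))))) (.g (nat_lit 1) (.e (nat_lit 135186) (nat_lit 0) .nil) .nil))))) (.nd (nat_lit 8) (.nd (nat_lit 9) 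
(.lf (nat_lit 486602) (.g (nat_lit 5768) (.e (nat_lit 24630) (nat_lit 9) (.e (nat_lit 336324) (nat_lit 18) (.e (nat_lit 204831) (nat_lit 18) (.e (nat_lit 57852) (nat_lit 252) (.e (nat_lit 57440) (nat_lit 18) (.e (nat_lit 392960) (nat_lit 10) .nil)))))) (.g (nat_lit 1) (.e (nat_lit 134192) (nat_lit 0) .nil) .nil))) 
(.lf (nat_lit 487114) (.g (nat_lit 885) (.e (nat_lit 24656) (nat_lit 13) (.e (nat_lit 393299) (nat_lit 27) (.e (nat_lit 491546) (nat_lit 9) .nil))) (.g (nat_lit 0) (.e (nat_lit 135013) (nat_lit 0) .nil) .nil)))) (.nd (nat_lit 9) 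
(.lf (nat_lit 486858) (.g (nat_lit 3299) (.e (nat_lit 24640) (nat_lit 10) (.e (nat_lit 344156) (nat_lit 36) (.e (nat_lit 638985) (nat_lit 5) (.e (nat_lit 3015) (nat_lit 187) (.e (nat_lit 450563) (nat_lit 0) (.e (nat_lit 5796) (nat_lit 320) (.e (nat_lit 2551) (nat_lit 159) .nil))))))) (.g (nat_lit 1) (.e (nat_lit 134598) (nat_lit 0) .nil) .nil))) 
(.lf (nat_lit 487370) (.g (nat_lit 1599) (.e (nat_lit 24660) (nat_lit 13) (.e (nat_lit 393279) (nat_lit 23) (.e (nat_lit 426110) (nat_lit 1) (.e (nat_lit 164327) (nat_lit 230) (.e (nat_lit 163877) (nat_lit 4) (.e (nat_lit 213032) (nat_lit 11) .nil)))))) (.g (nat_lit 1) (.e (nat_lit 135340) (nat_lit 0) .nil) .nil))))))) (.nd (nat_lit 6) (.nd (nat_lit 7) (.nd (nat_lit 8) (.nd (nat_lit 9) 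
(.lf (nat_lit 486442) (.g (nat_lit 2895) (.e (nat_lit 24628) (nat_lit 9) (.e (nat_lit 336454) (nat_lit 34) (.e (nat_lit 483364) (nat_lit 18) (.e (nat_lit 57854) (nat_lit 252) (.e (nat_lit 57370) (nat_lit 2) (.e (nat_lit 90158) (nat_lit 11) .nil)))))) (.g (nat_lit 1) (.e (nat_lit 134014) (nat_lit 0) .nil) .nil))) 
(.lf (nat_lit 486954) (.g (nat_lit 875) (.e (nat_lit 24648) (nat_lit 12) (.e (nat_lit 385068) (nat_lit 26) (.e (nat_lit 532501) (nat_lit 1) .nil))) (.g (nat_lit 0) (.e (nat_lit 134733) (nat_lit 0) .nil) .nil)))) (.nd (nat_lit 9) 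
(.lf (nat_lit 486698) (.g (nat_lit 3458) (.e (nat_lit 24630) (nat_lit 9) (.e (nat_lit 336454) (nat_lit 34) (.e (nat_lit 483365) (nat_lit 18) (.e (nat_lit 57847) (nat_lit 252) (.e (nat_lit 57372) (nat_lit 2) (.e (nat_lit 90158) (nat_lit 11) .nil)))))) (.g (nat_lit 1) (.e (nat_lit 134345) (nat_lit 0) .nil) .nil))) 
(.lf (nat_lit 487210) (.g (nat_lit 2417) (.e (nat_lit 24658) (nat_lit 13) (.e (nat_lit 393281) (nat_lit 23) (.e (nat_lit 426098) (nat_lit 1) (.e (nat_lit 164327) (nat_lit 230) (.e (nat_lit 163882) (nat_lit 4) (.e (nat_lit 213031) (nat_lit 11) .nil)))))) (.g (nat_lit 1) (.e (nat_lit 135150) (nat_lit 0) .nil) .nil))))) (.nd (nat_lit 8) (.nd (nat_lit 9) 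
(.lf (nat_lit 486570) (.g (nat_lit 2592) (.e (nat_lit 24629) (nat_lit 9) (.e (nat_lit 336443) (nat_lit 32) (.e (nat_lit 466972) (nat_lit 21) (.e (nat_lit 164330) (nat_lit 230) (.e (nat_lit 163878) (nat_lit 4) .nil))))) (.g (nat_lit 0) (.e (nat_lit 134146) (nat_lit 0) .nil) .nil))) 
(.lf (nat_lit 487082) (.g (nat_lit 1819) (.e (nat_lit 24655) (nat_lit 13) (.e (nat_lit 393281) (nat_lit 23) (.e (nat_lit 426100) (nat_lit 1) (.e (nat_lit 164329) (nat_lit 230) (.e (nat_lit 163878) (nat_lit 4) (.e (nat_lit 213032) (nat_lit 11) .nil)))))) (.g (nat_lit 1) (.e (nat_lit 134969) (nat_lit 0) .nil) .nil)))) (.nd (nat_lit 9) 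
(.lf (nat_lit 486826) (.g (nat_lit 2329) (.e (nat_lit 32512) (nat_lit 9) (.e (nat_lit 336390) (nat_lit 27) (.e (nat_lit 426011) (nat_lit 0) (.e (nat_lit 7591) (nat_lit 407) (.e (nat_lit 73775) (nat_lit 26) .nil))))) (.g (nat_lit 0) (.e (nat_lit 134524) (nat_lit 0) .nil) .nil))) 
(.lf (nat_lit 487338) (.g (nat_lit 1301) (.e (nat_lit 24660) (nat_lit 13) (.e (nat_lit 393260) (nat_lit 21) (.e (nat_lit 409617) (nat_lit 10) (.e (nat_lit 5355) (nat_lit 298) .nil)))) (.g (nat_lit 0) (.e (nat_lit 135306) (nat_lit 0) .nil) .nil)))))) (.nd (nat_lit 7) (.nd (nat_lit 8) (.nd (nat_lit 9) 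
(.lf (nat_lit 486506) (.g (nat_lit 3749) (.e (nat_lit 24628) (nat_lit 9) (.e (nat_lit 336456) (nat_lit 34) (.e (nat_lit 483363) (nat_lit 18) (.e (nat_lit 57854) (nat_lit 252) (.e (nat_lit 57373) (nat_lit 2) (.e (nat_lit 90160) (nat_lit 11) .nil)))))) (.g (nat_lit 1) (.e (nat_lit 134078) (nat_lit 0) .nil) .nil))) 
(.lf (nat_lit 487018) (.g (nat_lit 2934) (.e (nat_lit 24652) (nat_lit 12) (.e (nat_lit 385074) (nat_lit 31) (.e (nat_lit 573484) (nat_lit 13) (.e (nat_lit 65610) (nat_lit 10) (.e (nat_lit 344129) (nat_lit 26) (.e (nat_lit 557085) (nat_lit 11) .nil)))))) (.g (nat_lit 1) (.e (nat_lit 134861) (nat_lit 0) .nil) .nil)))) (.nd (nat_lit 9) 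
(.lf (nat_lit 486762) (.g (nat_lit 2457) (.e (nat_lit 24630) (nat_lit 9) (.e (nat_lit 336456) (nat_lit 34) (.e (nat_lit 483365) (nat_lit 18) (.e (nat_lit 57851) (nat_lit 252) (.e (nat_lit 57370) (nat_lit 2) (.e (nat_lit 90158) (nat_lit 11) .nil)))))) (.g (nat_lit 1) (.e (nat_lit 134415) (nat_lit 0) .nil) .nil))) 
(.lf (nat_lit 487274) (.g (nat_lit 3170) (.e (nat_lit 24658) (nat_lit 13) (.e (nat_lit 393301) (nat_lit 27) (.e (nat_lit 491560) (nat_lit 10) (.e (nat_lit 344097) (nat_lit 18) (.e (nat_lit 7431) (nat_lit 396) .nil))))) (.g (nat_lit 0) (.e (nat_lit 135223) (nat_lit 0) .nil) .nil))))) (.nd (nat_lit 8) (.nd (nat_lit 9) 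
(.lf (nat_lit 486634) (.g (nat_lit 3260) (.e (nat_lit 24630) (nat_lit 9) (.e (nat_lit 336414) (nat_lit 27) (.e (nat_lit 426503) (nat_lit 27) (.e (nat_lit 335986) (nat_lit 1) (.e (nat_lit 57847) (nat_lit 252) (.e (nat_lit 57372) (nat_lit 2) (.e (nat_lit 90158) (nat_lit 11) .nil))))))) (.g (nat_lit 1) (.e (nat_lit 134236) (nat_lit 0) .nil) .nil))) 
(.lf (nat_lit 487146) (.g (nat_lit 1868) (.e (nat_lit 24657) (nat_lit 13) (.e (nat_lit 393260) (nat_lit 21) (.e (nat_lit 409648) (nat_lit 18) (.e (nat_lit 303109) (nat_lit 0) .nil)))) (.g (nat_lit 0) (.e (nat_lit 135061) (nat_lit 0) .nil) .nil)))) (.nd (nat_lit 9) 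
(.lf (nat_lit 486890) (.g (nat_lit 3284) (.e (nat_lit 24640) (nat_lit 10) (.e (nat_lit 344156) (nat_lit 36) (.e (nat_lit 638998) (nat_lit 8) (.e (nat_lit 172113) (nat_lit 10) (.e (nat_lit 434203) (nat_lit 18) (.e (nat_lit 5800) (nat_lit 320) (.e (nat_lit 2553) (nat_lit 159) .nil))))))) (.g (nat_lit 1) (.e (nat_lit 134630) (nat_lit 0) .nil) .nil))) 
(.lf (nat_lit 487402) (.g (nat_lit 3044) (.e (nat_lit 24661) (nat_lit 14) (.e (nat_lit 401428) (nat_lit 3) (.e (nat_lit 204869) (nat_lit 29) (.e (nat_lit 360474) (nat_lit 8) (.e (nat_lit 557086) (nat_lit 11) .nil))))) (.g (nat_lit 1) (.e (nat_lit 135395) (nat_lit 0) .nil) .nil)))))))) (.nd (nat_lit 5) (.nd (nat_lit 6) (.nd (nat_lit 7) (.nd (nat_lit 8) (.nd (nat_lit 9) 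
(.lf (nat_lit 486426) (.g (nat_lit 2049) (.e (nat_lit 24628) (nat_lit 9) (.e (nat_lit 336450) (nat_lit 33) (.e (nat_lit 475152) (nat_lit 17) (.e (nat_lit 57816) (nat_lit 246) (.e (nat_lit 57596) (nat_lit 82) (.e (nat_lit 499900) (nat_lit 7) .nil)))))) (.g (nat_lit 1) (.e (nat_lit 133998) (nat_lit 0) .nil) .nil))) 
(.lf (nat_lit 486938) (.g (nat_lit 2256) (.e (nat_lit 24647) (nat_lit 12) (.e (nat_lit 385073) (nat_lit 31) (.e (nat_lit 573482) (nat_lit 13) (.e (nat_lit 65619) (nat_lit 10) (.e (nat_lit 344129) (nat_lit 26) (.e (nat_lit 557087) (nat_lit 11) .nil)))))) (.g (nat_lit 1) (.e (nat_lit 134708) (nat_lit 0) .nil) .nil)))) (.nd (nat_lit 9) 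
(.lf (nat_lit 486682) (.g (nat_lit 3256) (.e (nat_lit 24630) (nat_lit 9) (.e (nat_lit 336454) (nat_lit 34) (.e (nat_lit 483364) (nat_lit 18) (.e (nat_lit 57852) (nat_lit 252) (.e (nat_lit 57373) (nat_lit 2) (.e (nat_lit 90158) (nat_lit 11) .nil)))))) (.g (nat_lit 1) (.e (nat_lit 134329) (nat_lit 0) .nil) .nil))) 
(.lf (nat_lit 487194) (.g (nat_lit 1751) (.e (nat_lit 24658) (nat_lit 13) (.e (nat_lit 393238) (nat_lit 17) (.e (nat_lit 7107) (nat_lit 380) (.e (nat_lit 164271) (nat_lit 221) .nil)))) (.g (nat_lit 0) (.e (nat_lit 135128) (nat_lit 0) .nil) .nil))))) (.nd (nat_lit 8) (.nd (nat_lit 9) 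
(.lf (nat_lit 486554) (.g (nat_lit 2257) (.e (nat_lit 24629) (nat_lit 9) (.e (nat_lit 336430) (nat_lit 29) (.e (nat_lit 442421) (nat_lit 21) (.e (nat_lit 164326) (nat_lit 230) (.e (nat_lit 163882) (nat_lit 4) (.e (nat_lit 213032) (nat_lit 11) .nil)))))) (.g (nat_lit 1) (.e (nat_lit 134129) (nat_lit 0) .nil) .nil))) 
(.lf (nat_lit 487066) (.g (nat_lit 323) (.e (nat_lit 24655) (nat_lit 13) (.e (nat_lit 393263) (nat_lit 22) (.e (nat_lit 417817) (nat_lit 10) .nil))) (.g (nat_lit 0) (.e (nat_lit 134952) (nat_lit 0) .nil) .nil)))) (.nd (nat_lit 9) 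
(.lf (nat_lit 486810) (.g (nat_lit 1764) (.e (nat_lit 24636) (nat_lit 9) (.e (nat_lit 336407) (nat_lit 27) (.e (nat_lit 426344) (nat_lit 14) (.e (nat_lit 491556) (nat_lit 9) (.e (nat_lit 336051) (nat_lit 6) (.e (nat_lit 147496) (nat_lit 11) .nil)))))) (.g (nat_lit 1) (.e (nat_lit 134472) (nat_lit 0) .nil) .nil))) 
(.lf (nat_lit 487322) (.g (nat_lit 1964) (.e (nat_lit 24660) (nat_lit 13) (.e (nat_lit 393238) (nat_lit 17) (.e (nat_lit 7101) (nat_lit 380) (.e (nat_lit 164289) (nat_lit 224) (.e (nat_lit 164108) (nat_lit 116) (.e (nat_lit 786176) (nat_lit 11) .nil)))))) (.g (nat_lit 1) (.e (nat_lit 135282) (nat_lit 0) .nil) .nil)))))) (.nd (nat_lit 7) (.nd (nat_lit 8) (.nd (nat_lit 9) 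
(.lf (nat_lit 486490) (.g (nat_lit 2888) (.e (nat_lit 24628) (nat_lit 9) (.e (nat_lit 336454) (nat_lit 34) (.e (nat_lit 483366) (nat_lit 18) (.e (nat_lit 57847) (nat_lit 252) (.e (nat_lit 57375) (nat_lit 2) (.e (nat_lit 90158) (nat_lit 11) .nil)))))) (.g (nat_lit 1) (.e (nat_lit 134062) (nat_lit 0) .nil) .nil))) 
(.lf (nat_lit 487002) (.g (nat_lit 4044) (.e (nat_lit 24651) (nat_lit 12) (.e (nat_lit 385074) (nat_lit 31) (.e (nat_lit 573482) (nat_lit 13) (.e (nat_lit 65619) (nat_lit 10) (.e (nat_lit 344129) (nat_lit 26) (.e (nat_lit 557087) (nat_lit 11) .nil)))))) (.g (nat_lit 1) (.e (nat_lit 134828) (nat_lit 0) .nil) .nil)))) (.nd (nat_lit 9) 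
(.lf (nat_lit 486746) (.g (nat_lit 4236) (.e (nat_lit 24630) (nat_lit 9) (.e (nat_lit 336456) (nat_lit 34) (.e (nat_lit 483364) (nat_lit 18) (.e (nat_lit 57854) (nat_lit 252) (.e (nat_lit 57373) (nat_lit 2) (.e (nat_lit 90160) (nat_lit 11) .nil)))))) (.g (nat_lit 1) (.e (nat_lit 134395) (nat_lit 0) .nil) .nil))) 
(.lf (nat_lit 487258) (.g (nat_lit 1720) (.e (nat_lit 24658) (nat_lit 13) (.e (nat_lit 393300) (nat_lit 27) (.e (nat_lit 491555) (nat_lit 9) (.e (nat_lit 335895) (nat_lit 0) (.e (nat_lit 2285) (nat_lit 151) .nil))))) (.g (nat_lit 0) (.e (nat_lit 135207) (nat_lit 0) .nil) .nil))))) (.nd (nat_lit 8) (.nd (nat_lit 9) 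
(.lf (nat_lit 486618) (.g (nat_lit 1439) (.e (nat_lit 24630) (nat_lit 9) (.e (nat_lit 336369) (nat_lit 27) (.e (nat_lit 426173) (nat_lit 7) (.e (nat_lit 409648) (nat_lit 18) (.e (nat_lit 303108) (nat_lit 0) .nil))))) (.g (nat_lit 0) (.e (nat_lit 134211) (nat_lit 0) .nil) .nil))) 
(.lf (nat_lit 487130) (.g (nat_lit 3450) (.e (nat_lit 24657) (nat_lit 13) (.e (nat_lit 393229) (nat_lit 9) (.e (nat_lit 335994) (nat_lit 1) (.e (nat_lit 57848) (nat_lit 252) (.e (nat_lit 57375) (nat_lit 2) (.e (nat_lit 90159) (nat_lit 11) .nil)))))) (.g (nat_lit 1) (.e (nat_lit 135038) (nat_lit 0) .nil) .nil)))) (.nd (nat_lit 9) 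
(.lf (nat_lit 486874) (.g (nat_lit 3466) (.e (nat_lit 24640) (nat_lit 10) (.e (nat_lit 344156) (nat_lit 36) (.e (nat_lit 638998) (nat_lit 8) (.e (nat_lit 172106) (nat_lit 10) (.e (nat_lit 434209) (nat_lit 18) (.e (nat_lit 5831) (nat_lit 320) (.e (nat_lit 2551) (nat_lit 159) .nil))))))) (.g (nat_lit 1) (.e (nat_lit 134614) (nat_lit 0) .nil) .nil))) 
(.lf (nat_lit 487386) (.g (nat_lit 3117) (.e (nat_lit 24660) (nat_lit 13) (.e (nat_lit 393281) (nat_lit 23) (.e (nat_lit 426098) (nat_lit 1) (.e (nat_lit 164332) (nat_lit 230) (.e (nat_lit 163880) (nat_lit 4) (.e (nat_lit 213032) (nat_lit 11) .nil)))))) (.g (nat_lit 1) (.e (nat_lit 135356) (nat_lit 0) .nil) .nil))))))) (.nd (nat_lit 6) (.nd (nat_lit 7) (.nd (nat_lit 8) (.nd (nat_lit 9) 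
(.lf (nat_lit 486458) (.g (nat_lit 3580) (.e (nat_lit 24628) (nat_lit 9) (.e (nat_lit 336454) (nat_lit 34) (.e (nat_lit 483365) (nat_lit 18) (.e (nat_lit 57847) (nat_lit 252) (.e (nat_lit 57373) (nat_lit 2) (.e (nat_lit 90158) (nat_lit 11) .nil)))))) (.g (nat_lit 1) (.e (nat_lit 134030) (nat_lit 0) .nil) .nil))) 
(.lf (nat_lit 486970) (.g (nat_lit 2941) (.e (nat_lit 24650) (nat_lit 12) (.e (nat_lit 385066) (nat_lit 26) (.e (nat_lit 532502) (nat_lit 1) (.e (nat_lit 57854) (nat_lit 252) (.e (nat_lit 57442) (nat_lit 18) (.e (nat_lit 392960) (nat_lit 10) .nil)))))) (.g (nat_lit 1) (.e (nat_lit 134777) (nat_lit 0) .nil) .nil)))) (.nd (nat_lit 9) 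
(.lf (nat_lit 486714) (.g (nat_lit 3753) (.e (nat_lit 24630) (nat_lit 9) (.e (nat_lit 336454) (nat_lit 34) (.e (nat_lit 483365) (nat_lit 18) (.e (nat_lit 57851) (nat_lit 252) (.e (nat_lit 57371) (nat_lit 2) (.e (nat_lit 90160) (nat_lit 11) .nil)))))) (.g (nat_lit 1) (.e (nat_lit 134363) (nat_lit 0) .nil) .nil))) 
(.lf (nat_lit 487226) (.g (nat_lit 1949) (.e (nat_lit 24658) (nat_lit 13) (.e (nat_lit 393281) (nat_lit 23) (.e (nat_lit 426100) (nat_lit 1) (.e (nat_lit 164322) (nat_lit 230) (.e (nat_lit 163878) (nat_lit 4) (.e (nat_lit 213030) (nat_lit 11) .nil)))))) (.g (nat_lit 1) (.e (nat_lit 135169) (nat_lit 0) .nil) .nil))))) (.nd (nat_lit 8) (.nd (nat_lit 9) 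
(.lf (nat_lit 486586) (.g (nat_lit 2226) (.e (nat_lit 24629) (nat_lit 9) (.e (nat_lit 336456) (nat_lit 34) (.e (nat_lit 483365) (nat_lit 18) (.e (nat_lit 57848) (nat_lit 252) (.e (nat_lit 57372) (nat_lit 2) .nil))))) (.g (nat_lit 0) (.e (nat_lit 134163) (nat_lit 0) .nil) .nil))) 
(.lf (nat_lit 487098) (.g (nat_lit 2266) (.e (nat_lit 24655) (nat_lit 13) (.e (nat_lit 393300) (nat_lit 27) (.e (nat_lit 491546) (nat_lit 9) (.e (nat_lit 336048) (nat_lit 6) (.e (nat_lit 147492) (nat_lit 11) .nil))))) (.g (nat_lit 1) (.e (nat_lit 134991) (nat_lit 0) .nil) .nil)))) (.nd (nat_lit 9) 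
(.lf (nat_lit 486842) (.g (nat_lit 3583) (.e (nat_lit 24640) (nat_lit 10) (.e (nat_lit 344126) (nat_lit 25) (.e (nat_lit 548891) (nat_lit 11) (.e (nat_lit 81948) (nat_lit 21) .nil)))) (.g (nat_lit 0) (.e (nat_lit 134553) (nat_lit 0) .nil) .nil))) 
(.lf (nat_lit 487354) (.g (nat_lit 3500) (.e (nat_lit 24660) (nat_lit 13) (.e (nat_lit 393260) (nat_lit 21) (.e (nat_lit 409649) (nat_lit 18) (.e (nat_lit 303111) (nat_lit 0) (.e (nat_lit 3578) (nat_lit 223) (.e (nat_lit 753408) (nat_lit 11) .nil)))))) (.g (nat_lit 1) (.e (nat_lit 135323) (nat_lit 0) .nil) .nil)))))) (.nd (nat_lit 7) (.nd (nat_lit 8) (.nd (nat_lit 9) 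
(.lf (nat_lit 486522) (.g (nat_lit 2275) (.e (nat_lit 24628) (nat_lit 9) (.e (nat_lit 336456) (nat_lit 34) (.e (nat_lit 483365) (nat_lit 18) (.e (nat_lit 57849) (nat_lit 252) (.e (nat_lit 57375) (nat_lit 2) (.e (nat_lit 90160) (nat_lit 11) .nil)))))) (.g (nat_lit 1) (.e (nat_lit 134095) (nat_lit 0) .nil) .nil))) 
(.lf (nat_lit 487034) (.g (nat_lit 1823) (.e (nat_lit 24653) (nat_lit 12) (.e (nat_lit 385074) (nat_lit 31) (.e (nat_lit 573482) (nat_lit 13) (.e (nat_lit 65619) (nat_lit 10) (.e (nat_lit 344129) (nat_lit 26) .nil))))) (.g (nat_lit 0) (.e (nat_lit 134905) (nat_lit 0) .nil) .nil)))) (.nd (nat_lit 9) 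
(.lf (nat_lit 486778) (.g (nat_lit 4527) (.e (nat_lit 24631) (nat_lit 9) (.e (nat_lit 336389) (nat_lit 27) (.e (nat_lit 426344) (nat_lit 14) (.e (nat_lit 491560) (nat_lit 10) (.e (nat_lit 344179) (nat_lit 44) (.e (nat_lit 778465) (nat_lit 11) .nil)))))) (.g (nat_lit 1) (.e (nat_lit 134432) (nat_lit 0) .nil) .nil))) 
(.lf (nat_lit 487290) (.g (nat_lit 1426) (.e (nat_lit 24659) (nat_lit 13) (.e (nat_lit 393280) (nat_lit 23) (.e (nat_lit 426098) (nat_lit 1) (.e (nat_lit 164325) (nat_lit 230) (.e (nat_lit 163882) (nat_lit 4) (.e (nat_lit 213030) (nat_lit 11) .nil)))))) (.g (nat_lit 1) (.e (nat_lit 135240) (nat_lit 0) .nil) .nil))))) (.nd (nat_lit 8) (.nd (nat_lit 9) 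
(.lf (nat_lit 486650) (.g (nat_lit 2257) (.e (nat_lit 24630) (nat_lit 9) (.e (nat_lit 336443) (nat_lit 32) (.e (nat_lit 466970) (nat_lit 21) (.e (nat_lit 164332) (nat_lit 230) (.e (nat_lit 163880) (nat_lit 4) (.e (nat_lit 213030) (nat_lit 11) .nil)))))) (.g (nat_lit 1) (.e (nat_lit 134288) (nat_lit 0) .nil) .nil))) 
(.lf (nat_lit 487162) (.g (nat_lit 2155) (.e (nat_lit 24657) (nat_lit 13) (.e (nat_lit 393281) (nat_lit 23) (.e (nat_lit 426099) (nat_lit 1) (.e (nat_lit 164330) (nat_lit 230) (.e (nat_lit 163880) (nat_lit 4) (.e (nat_lit 213032) (nat_lit 11) .nil)))))) (.g (nat_lit 1) (.e (nat_lit 135080) (nat_lit 0) .nil) .nil)))) (.nd (nat_lit 9) 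
(.lf (nat_lit 486906) (.g (nat_lit 2632) (.e (nat_lit 24640) (nat_lit 10) (.e (nat_lit 344156) (nat_lit 36) (.e (nat_lit 638998) (nat_lit 8) (.e (nat_lit 172115) (nat_lit 10) (.e (nat_lit 434202) (nat_lit 18) (.e (nat_lit 5796) (nat_lit 320) (.e (nat_lit 2551) (nat_lit 159) .nil))))))) (.g (nat_lit 1) (.e (nat_lit 134646) (nat_lit 0) .nil) .nil))) 
(.lf (nat_lit 487418) (.g (nat_lit 2983) (.e (nat_lit 24661) (nat_lit 14) (.e (nat_lit 401459) (nat_lit 13) (.e (nat_lit 483372) (nat_lit 21) (.e (nat_lit 319505) (nat_lit 10) (.e (nat_lit 7936) (nat_lit 314) .nil))))) (.g (nat_lit 1) (.e (nat_lit 135427) (nat_lit 0) .nil) .nil)))))))))) 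
(.nd (nat_lit 3) (.nd (nat_lit 4) (.nd (nat_lit 5) (.nd (nat_lit 6) (.nd (nat_lit 7) 
(.nd (nat_lit 8) (.nd (nat_lit 9) 
(.lf (nat_lit 486406) (.g (nat_lit 2570) (.e (nat_lit 24628) (nat_lit 9) (.e (nat_lit 336443) (nat_lit 32) (.e (nat_lit 466972) (nat_lit 21) (.e (nat_lit 164330) (nat_lit 230) (.e (nat_lit 163850) (nat_lit 0) .nil))))) (.g (nat_lit 0) (.e (nat_lit 133978) (nat_lit 0) .nil) .nil))) 
(.lf (nat_lit 486918) (.g (nat_lit 1576) (.e (nat_lit 24640) (nat_lit 10) (.e (nat_lit 344156) (nat_lit 36) (.e (nat_lit 638998) (nat_lit 8) (.e (nat_lit 172120) (nat_lit 12) (.e (nat_lit 475159) (nat_lit 21) .nil))))) (.g (nat_lit 0) (.e (nat_lit 134665) (nat_lit 0) .nil) .nil)))) (.nd (nat_lit 9) 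
(.lf (nat_lit 486662) (.g (nat_lit 3565) (.e (nat_lit 24630) (nat_lit 9) (.e (nat_lit 336443) (nat_lit 32) (.e (nat_lit 466972) (nat_lit 21) (.e (nat_lit 164332) (nat_lit 230) (.e (nat_lit 163878) (nat_lit 4) (.e (nat_lit 213030) (nat_lit 11) .nil)))))) (.g (nat_lit 1) (.e (nat_lit 134300) (nat_lit 0) .nil) .nil))) 
(.lf (nat_lit 487174) (.g (nat_lit 1401) (.e (nat_lit 24657) (nat_lit 13) (.e (nat_lit 393298) (nat_lit 27) (.e (nat_lit 491552) (nat_lit 9) (.e (nat_lit 336046) (nat_lit 6) .nil)))) (.g (nat_lit 0) (.e (nat_lit 135102) (nat_lit 0) .nil) .nil))))) (.nd (nat_lit 8) (.nd (nat_lit 9) 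
(.lf (nat_lit 486534) (.g (nat_lit 4810) (.e (nat_lit 24629) (nat_lit 9) (.e (nat_lit 336324) (nat_lit 18) (.e (nat_lit 204831) (nat_lit 18) (.e (nat_lit 57849) (nat_lit 252) .nil)))) (.g (nat_lit 0) (.e (nat_lit 134107) (nat_lit 0) .nil) .nil))) 
(.lf (nat_lit 487046) (.g (nat_lit 1918) (.e (nat_lit 32512) (nat_lit 12) (.e (nat_lit 385074) (nat_lit 31) (.e (nat_lit 573484) (nat_lit 13) (.e (nat_lit 65617) (nat_lit 10) (.e (nat_lit 344130) (nat_lit 26) .nil))))) (.g (nat_lit 0) (.e (nat_lit 134924) (nat_lit 0) .nil) .nil)))) (.nd (nat_lit 9) 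
(.lf (nat_lit 486790) (.g (nat_lit 1932) (.e (nat_lit 24633) (nat_lit 9) (.e (nat_lit 336389) (nat_lit 27) (.e (nat_lit 426012) (nat_lit 0) (.e (nat_lit 7593) (nat_lit 407) (.e (nat_lit 73775) (nat_lit 26) .nil))))) (.g (nat_lit 0) (.e (nat_lit 134450) (nat_lit 0) .nil) .nil))) 
(.lf (nat_lit 487302) (.g (nat_lit 2012) (.e (nat_lit 24659) (nat_lit 13) (.e (nat_lit 393281) (nat_lit 23) (.e (nat_lit 426100) (nat_lit 1) (.e (nat_lit 164329) (nat_lit 230) (.e (nat_lit 163878) (nat_lit 4) (.e (nat_lit 213030) (nat_lit 11) .nil)))))) (.g (nat_lit 1) (.e (nat_lit 135252) (nat_lit 0) .nil) .nil)))))) (.nd (nat_lit 7) (.nd (nat_lit 8) (.nd (nat_lit 9) 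
(.lf (nat_lit 486470) (.g (nat_lit 3288) (.e (nat_lit 24628) (nat_lit 9) (.e (nat_lit 336454) (nat_lit 34) (.e (nat_lit 483365) (nat_lit 18) (.e (nat_lit 57852) (nat_lit 252) (.e (nat_lit 57370) (nat_lit 2) (.e (nat_lit 90158) (nat_lit 11) .nil)))))) (.g (nat_lit 1) (.e (nat_lit 134042) (nat_lit 0) .nil) .nil))) 
(.lf (nat_lit 486982) (.g (nat_lit 4399) (.e (nat_lit 24650) (nat_lit 12) (.e (nat_lit 385072) (nat_lit 31) (.e (nat_lit 573481) (nat_lit 13) (.e (nat_lit 65619) (nat_lit 10) (.e (nat_lit 344129) (nat_lit 26) (.e (nat_lit 557087) (nat_lit 11) .nil)))))) (.g (nat_lit 1) (.e (nat_lit 134793) (nat_lit 0) .nil) .nil)))) (.nd (nat_lit 9) 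
(.lf (nat_lit 486726) (.g (nat_lit 3954) (.e (nat_lit 24630) (nat_lit 9) (.e (nat_lit 336456) (nat_lit 34) (.e (nat_lit 483363) (nat_lit 18) (.e (nat_lit 57847) (nat_lit 252) (.e (nat_lit 57372) (nat_lit 2) (.e (nat_lit 90160) (nat_lit 11) .nil)))))) (.g (nat_lit 1) (.e (nat_lit 134375) (nat_lit 0) .nil) .nil))) 
(.lf (nat_lit 487238) (.g (nat_lit 1377) (.e (nat_lit 24658) (nat_lit 13) (.e (nat_lit 393281) (nat_lit 23) (.e (nat_lit 426107) (nat_lit 1) (.e (nat_lit 164326) (nat_lit 230) .nil)))) (.g (nat_lit 0) (.e (nat_lit 135182) (nat_lit 0) .nil) .nil))))) (.nd (nat_lit 8) (.nd (nat_lit 9) 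
(.lf (nat_lit 486598) (.g (nat_lit 5212) (.e (nat_lit 24630) (nat_lit 9) (.e (nat_lit 336324) (nat_lit 18) (.e (nat_lit 204831) (nat_lit 18) (.e (nat_lit 57847) (nat_lit 252) (.e (nat_lit 57442) (nat_lit 18) (.e (nat_lit 392960) (nat_lit 10) .nil)))))) (.g (nat_lit 1) (.e (nat_lit 134187) (nat_lit 0) .nil) .nil))) 
(.lf (nat_lit 487110) (.g (nat_lit 1964) (.e (nat_lit 24656) (nat_lit 13) (.e (nat_lit 393281) (nat_lit 23) (.e (nat_lit 426098) (nat_lit 1) (.e (nat_lit 164325) (nat_lit 230) (.e (nat_lit 163879) (nat_lit 4) (.e (nat_lit 213030) (nat_lit 11) .nil)))))) (.g (nat_lit 1) (.e (nat_lit 135008) (nat_lit 0) .nil) .nil)))) (.nd (nat_lit 9) 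
(.lf (nat_lit 486854) (.g (nat_lit 3656) (.e (nat_lit 24640) (nat_lit 10) (.e (nat_lit 344156) (nat_lit 36) (.e (nat_lit 638985) (nat_lit 5) (.e (nat_lit 3015) (nat_lit 187) (.e (nat_lit 450562) (nat_lit 0) (.e (nat_lit 5812) (nat_lit 320) (.e (nat_lit 2551) (nat_lit 159) .nil))))))) (.g (nat_lit 1) (.e (nat_lit 134594) (nat_lit 0) .nil) .nil))) 
(.lf (nat_lit 487366) (.g (nat_lit 1958) (.e (nat_lit 24660) (nat_lit 13) (.e (nat_lit 393274) (nat_lit 23) (.e (nat_lit 426097) (nat_lit 1) (.e (nat_lit 164327) (nat_lit 230) (.e (nat_lit 163879) (nat_lit 4) (.e (nat_lit 213030) (nat_lit 11) .nil)))))) (.g (nat_lit 1) (.e (nat_lit 135336) (nat_lit 0) .nil) .nil))))))) (.nd (nat_lit 6) (.nd (nat_lit 7) (.nd (nat_lit 8) (.nd (nat_lit 9) 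
(.lf (nat_lit 486438) (.g (nat_lit 3910) (.e (nat_lit 24628) (nat_lit 9) (.e (nat_lit 336454) (nat_lit 34) (.e (nat_lit 483363) (nat_lit 18) (.e (nat_lit 57854) (nat_lit 252) (.e (nat_lit 57373) (nat_lit 2) (.e (nat_lit 90158) (nat_lit 11) .nil)))))) (.g (nat_lit 1) (.e (nat_lit 134010) (nat_lit 0) .nil) .nil))) 
(.lf (nat_lit 486950) (.g (nat_lit 2218) (.e (nat_lit 24647) (nat_lit 12) (.e (nat_lit 385105) (nat_lit 50) (.e (nat_lit 786483) (nat_lit 30) (.e (nat_lit 360450) (nat_lit 0) (.e (nat_lit 4825) (nat_lit 281) .nil))))) (.g (nat_lit 0) (.e (nat_lit 134724) (nat_lit 0) .nil) .nil)))) (.nd (nat_lit 9) 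
(.lf (nat_lit 486694) (.g (nat_lit 3950) (.e (nat_lit 24630) (nat_lit 9) (.e (nat_lit 336454) (nat_lit 34) (.e (nat_lit 483365) (nat_lit 18) (.e (nat_lit 57846) (nat_lit 252) (.e (nat_lit 57372) (nat_lit 2) (.e (nat_lit 90160) (nat_lit 11) .nil)))))) (.g (nat_lit 1) (.e (nat_lit 134341) (nat_lit 0) .nil) .nil))) 
(.lf (nat_lit 487206) (.g (nat_lit 2277) (.e (nat_lit 24658) (nat_lit 13) (.e (nat_lit 393281) (nat_lit 23) (.e (nat_lit 426098) (nat_lit 1) (.e (nat_lit 164325) (nat_lit 230) (.e (nat_lit 163880) (nat_lit 4) (.e (nat_lit 213032) (nat_lit 11) .nil)))))) (.g (nat_lit 1) (.e (nat_lit 135146) (nat_lit 0) .nil) .nil))))) (.nd (nat_lit 8) (.nd (nat_lit 9) 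
(.lf (nat_lit 486566) (.g (nat_lit 2204) (.e (nat_lit 24629) (nat_lit 9) (.e (nat_lit 336443) (nat_lit 32) (.e (nat_lit 466971) (nat_lit 21) (.e (nat_lit 164325) (nat_lit 230) (.e (nat_lit 163880) (nat_lit 4) .nil))))) (.g (nat_lit 0) (.e (nat_lit 134142) (nat_lit 0) .nil) .nil))) 
(.lf (nat_lit 487078) (.g (nat_lit 2532) (.e (nat_lit 24655) (nat_lit 13) (.e (nat_lit 393281) (nat_lit 23) (.e (nat_lit 426099) (nat_lit 1) (.e (nat_lit 164330) (nat_lit 230) (.e (nat_lit 163880) (nat_lit 4) (.e (nat_lit 213032) (nat_lit 11) .nil)))))) (.g (nat_lit 1) (.e (nat_lit 134965) (nat_lit 0) .nil) .nil)))) (.nd (nat_lit 9) 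
(.lf (nat_lit 486822) (.g (nat_lit 2692) (.e (nat_lit 24638) (nat_lit 9) (.e (nat_lit 336387) (nat_lit 27) (.e (nat_lit 426343) (nat_lit 14) (.e (nat_lit 491560) (nat_lit 10) (.e (nat_lit 344179) (nat_lit 44) (.e (nat_lit 778465) (nat_lit 11) .nil)))))) (.g (nat_lit 1) (.e (nat_lit 134520) (nat_lit 0) .nil) .nil))) 
(.lf (nat_lit 487334) (.g (nat_lit 1330) (.e (nat_lit 24660) (nat_lit 13) (.e (nat_lit 393260) (nat_lit 21) (.e (nat_lit 409616) (nat_lit 10) (.e (nat_lit 5763) (nat_lit 315) .nil)))) (.g (nat_lit 0) (.e (nat_lit 135302) (nat_lit 0) .nil) .nil)))))) (.nd (nat_lit 7) (.nd (nat_lit 8) (.nd (nat_lit 9) 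
(.lf (nat_lit 486502) (.g (nat_lit 3185) (.e (nat_lit 24628) (nat_lit 9) (.e (nat_lit 336456) (nat_lit 34) (.e (nat_lit 483363) (nat_lit 18) (.e (nat_lit 57853) (nat_lit 252) (.e (nat_lit 57371) (nat_lit 2) (.e (nat_lit 90158) (nat_lit 11) .nil)))))) (.g (nat_lit 1) (.e (nat_lit 134074) (nat_lit 0) .nil) .nil))) 
(.lf (nat_lit 487014) (.g (nat_lit 1466) (.e (nat_lit 24651) (nat_lit 12) (.e (nat_lit 385106) (nat_lit 50) (.e (nat_lit 786483) (nat_lit 30) (.e (nat_lit 360451) (nat_lit 0) .nil)))) (.g (nat_lit 0) (.e (nat_lit 134855) (nat_lit 0) .nil) .nil)))) (.nd (nat_lit 9) 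
(.lf (nat_lit 486758) (.g (nat_lit 2551) (.e (nat_lit 24630) (nat_lit 9) (.e (nat_lit 336456) (nat_lit 34) (.e (nat_lit 483365) (nat_lit 18) (.e (nat_lit 57848) (nat_lit 252) (.e (nat_lit 57372) (nat_lit 2) (.e (nat_lit 90158) (nat_lit 11) .nil)))))) (.g (nat_lit 1) (.e (nat_lit 134407) (nat_lit 0) .nil) .nil))) 
(.lf (nat_lit 487270) (.g (nat_lit 2122) (.e (nat_lit 24658) (nat_lit 13) (.e (nat_lit 393301) (nat_lit 27) (.e (nat_lit 491560) (nat_lit 10) (.e (nat_lit 344087) (nat_lit 18) .nil)))) (.g (nat_lit 0) (.e (nat_lit 135219) (nat_lit 0) .nil) .nil))))) (.nd (nat_lit 8) (.nd (nat_lit 9) 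
(.lf (nat_lit 486630) (.g (nat_lit 3819) (.e (nat_lit 24630) (nat_lit 9) (.e (nat_lit 336369) (nat_lit 27) (.e (nat_lit 426501) (nat_lit 27) (.e (nat_lit 335996) (nat_lit 1) (.e (nat_lit 57851) (nat_lit 252) (.e (nat_lit 57371) (nat_lit 2) (.e (nat_lit 90160) (nat_lit 11) .nil))))))) (.g (nat_lit 1) (.e (nat_lit 134229) (nat_lit 0) .nil) .nil))) 
(.lf (nat_lit 487142) (.g (nat_lit 1156) (.e (nat_lit 24657) (nat_lit 13) (.e (nat_lit 393259) (nat_lit 21) (.e (nat_lit 409618) (nat_lit 10) (.e (nat_lit 4859) (nat_lit 287) .nil)))) (.g (nat_lit 0) (.e (nat_lit 135056) (nat_lit 0) .nil) .nil)))) (.nd (nat_lit 9) 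
(.lf (nat_lit 486886) (.g (nat_lit 3532) (.e (nat_lit 24640) (nat_lit 10) (.e (nat_lit 344156) (nat_lit 36) (.e (nat_lit 638998) (nat_lit 8) (.e (nat_lit 172113) (nat_lit 10) (.e (nat_lit 434203) (nat_lit 18) (.e (nat_lit 5797) (nat_lit 320) (.e (nat_lit 2559) (nat_lit 159) .nil))))))) (.g (nat_lit 1) (.e (nat_lit 134626) (nat_lit 0) .nil) .nil))) 
(.lf (nat_lit 487398) (.g (nat_lit 3312) (.e (nat_lit 24661) (nat_lit 14) (.e (nat_lit 401427) (nat_lit 3) (.e (nat_lit 204869) (nat_lit 29) (.e (nat_lit 360474) (nat_lit 8) (.e (nat_lit 557085) (nat_lit 11) .nil))))) (.g (nat_lit 1) (.e (nat_lit 135383) (nat_lit 0) .nil) .nil)))))))) (.nd (nat_lit 5) (.nd (nat_lit 6) (.nd (nat_lit 7) (.nd (nat_lit 8) (.nd (nat_lit 9) 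
(.lf (nat_lit 486422) (.g (nat_lit 3850) (.e (nat_lit 24628) (nat_lit 9) (.e (nat_lit 336443) (nat_lit 32) (.e (nat_lit 466972) (nat_lit 21) (.e (nat_lit 164332) (nat_lit 230) (.e (nat_lit 163878) (nat_lit 4) (.e (nat_lit 213032) (nat_lit 11) .nil)))))) (.g (nat_lit 1) (.e (nat_lit 133994) (nat_lit 0) .nil) .nil))) 
(.lf (nat_lit 486934) (.g (nat_lit 872) (.e (nat_lit 24643) (nat_lit 11) (.e (nat_lit 368676) (nat_lit 21) (.e (nat_lit 516106) (nat_lit 0) .nil))) (.g (nat_lit 0) (.e (nat_lit 134693) (nat_lit 0) .nil) .nil)))) (.nd (nat_lit 9) 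
(.lf (nat_lit 486678) (.g (nat_lit 3766) (.e (nat_lit 24630) (nat_lit 9) (.e (nat_lit 336454) (nat_lit 34) (.e (nat_lit 483363) (nat_lit 18) (.e (nat_lit 57854) (nat_lit 252) (.e (nat_lit 57373) (nat_lit 2) (.e (nat_lit 90158) (nat_lit 11) .nil)))))) (.g (nat_lit 1) (.e (nat_lit 134325) (nat_lit 0) .nil) .nil))) 
(.lf (nat_lit 487190) (.g (nat_lit 1184) (.e (nat_lit 24658) (nat_lit 13) (.e (nat_lit 393234) (nat_lit 17) (.e (nat_lit 7589) (nat_lit 406) (.e (nat_lit 65578) (nat_lit 6) .nil)))) (.g (nat_lit 0) (.e (nat_lit 135124) (nat_lit 0) .nil) .nil))))) (.nd (nat_lit 8) (.nd (nat_lit 9) 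
(.lf (nat_lit 486550) (.g (nat_lit 2020) (.e (nat_lit 24629) (nat_lit 9) (.e (nat_lit 336430) (nat_lit 29) (.e (nat_lit 442421) (nat_lit 21) (.e (nat_lit 164326) (nat_lit 230) (.e (nat_lit 163879) (nat_lit 4) (.e (nat_lit 213030) (nat_lit 11) .nil)))))) (.g (nat_lit 1) (.e (nat_lit 134125) (nat_lit 0) .nil) .nil))) 
(.lf (nat_lit 487062) (.g (nat_lit 2356) (.e (nat_lit 24655) (nat_lit 13) (.e (nat_lit 393225) (nat_lit 9) (.e (nat_lit 335995) (nat_lit 1) (.e (nat_lit 57844) (nat_lit 252) (.e (nat_lit 57375) (nat_lit 2) .nil))))) (.g (nat_lit 0) (.e (nat_lit 134942) (nat_lit 0) .nil) .nil)))) (.nd (nat_lit 9) 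
(.lf (nat_lit 486806) (.g (nat_lit 1888) (.e (nat_lit 24636) (nat_lit 9) (.e (nat_lit 336405) (nat_lit 27) (.e (nat_lit 426344) (nat_lit 14) (.e (nat_lit 491560) (nat_lit 10) (.e (nat_lit 344179) (nat_lit 44) (.e (nat_lit 778466) (nat_lit 11) .nil)))))) (.g (nat_lit 1) (.e (nat_lit 134468) (nat_lit 0) .nil) .nil))) 
(.lf (nat_lit 487318) (.g (nat_lit 502) (.e (nat_lit 24659) (nat_lit 13) (.e (nat_lit 393301) (nat_lit 27) (.e (nat_lit 491560) (nat_lit 10) .nil))) (.g (nat_lit 0) (.e (nat_lit 135270) (nat_lit 0) .nil) .nil)))))) (.nd (nat_lit 7) (.nd (nat_lit 8) (.nd (nat_lit 9) 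
(.lf (nat_lit 486486) (.g (nat_lit 3187) (.e (nat_lit 24628) (nat_lit 9) (.e (nat_lit 336454) (nat_lit 34) (.e (nat_lit 483366) (nat_lit 18) (.e (nat_lit 57846) (nat_lit 252) (.e (nat_lit 57373) (nat_lit 2) (.e (nat_lit 90158) (nat_lit 11) .nil)))))) (.g (nat_lit 1) (.e (nat_lit 134058) (nat_lit 0) .nil) .nil))) 
(.lf (nat_lit 486998) (.g (nat_lit 2600) (.e (nat_lit 24651) (nat_lit 12) (.e (nat_lit 385072) (nat_lit 31) (.e (nat_lit 573484) (nat_lit 13) (.e (nat_lit 65610) (nat_lit 10) (.e (nat_lit 344129) (nat_lit 26) (.e (nat_lit 557085) (nat_lit 11) .nil)))))) (.g (nat_lit 1) (.e (nat_lit 134823) (nat_lit 0) .nil) .nil)))) (.nd (nat_lit 9) 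
(.lf (nat_lit 486742) (.g (nat_lit 3039) (.e (nat_lit 24630) (nat_lit 9) (.e (nat_lit 336456) (nat_lit 34) (.e (nat_lit 483364) (nat_lit 18) (.e (nat_lit 57853) (nat_lit 252) (.e (nat_lit 57371) (nat_lit 2) (.e (nat_lit 90158) (nat_lit 11) .nil)))))) (.g (nat_lit 1) (.e (nat_lit 134391) (nat_lit 0) .nil) .nil))) 
(.lf (nat_lit 487254) (.g (nat_lit 850) (.e (nat_lit 24658) (nat_lit 13) (.e (nat_lit 393299) (nat_lit 27) (.e (nat_lit 491552) (nat_lit 9) .nil))) (.g (nat_lit 0) (.e (nat_lit 135203) (nat_lit 0) .nil) .nil))))) (.nd (nat_lit 8) (.nd (nat_lit 9) 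
(.lf (nat_lit 486614) (.g (nat_lit 1237) (.e (nat_lit 24630) (nat_lit 9) (.e (nat_lit 336369) (nat_lit 27) (.e (nat_lit 426025) (nat_lit 0) (.e (nat_lit 7107) (nat_lit 380) .nil)))) (.g (nat_lit 0) (.e (nat_lit 134207) (nat_lit 0) .nil) .nil))) 
(.lf (nat_lit 487126) (.g (nat_lit 3555) (.e (nat_lit 24657) (nat_lit 13) (.e (nat_lit 393229) (nat_lit 9) (.e (nat_lit 335986) (nat_lit 1) (.e (nat_lit 57849) (nat_lit 252) (.e (nat_lit 57375) (nat_lit 2) (.e (nat_lit 90159) (nat_lit 11) .nil)))))) (.g (nat_lit 1) (.e (nat_lit 135034) (nat_lit 0) .nil) .nil)))) (.nd (nat_lit 9) 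
(.lf (nat_lit 486870) (.g (nat_lit 2239) (.e (nat_lit 24640) (nat_lit 10) (.e (nat_lit 344156) (nat_lit 36) (.e (nat_lit 638985) (nat_lit 5) (.e (nat_lit 3027) (nat_lit 187) (.e (nat_lit 450561) (nat_lit 0) (.e (nat_lit 5811) (nat_lit 320) (.e (nat_lit 2552) (nat_lit 159) .nil))))))) (.g (nat_lit 1) (.e (nat_lit 134610) (nat_lit 0) .nil) .nil))) 
(.lf (nat_lit 487382) (.g (nat_lit 2374) (.e (nat_lit 24660) (nat_lit 13) (.e (nat_lit 393281) (nat_lit 23) (.e (nat_lit 426098) (nat_lit 1) (.e (nat_lit 164327) (nat_lit 230) (.e (nat_lit 163881) (nat_lit 4) (.e (nat_lit 213030) (nat_lit 11) .nil)))))) (.g (nat_lit 1) (.e (nat_lit 135352) (nat_lit 0) .nil) .nil))))))) (.nd (nat_lit 6) (.nd (nat_lit 7) (.nd (nat_lit 8) (.nd (nat_lit 9) 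
(.lf (nat_lit 486454) (.g (nat_lit 2636) (.e (nat_lit 24628) (nat_lit 9) (.e (nat_lit 336454) (nat_lit 34) (.e (nat_lit 483365) (nat_lit 18) (.e (nat_lit 57846) (nat_lit 252) (.e (nat_lit 57375) (nat_lit 2) (.e (nat_lit 90160) (nat_lit 11) .nil)))))) (.g (nat_lit 1) (.e (nat_lit 134026) (nat_lit 0) .nil) .nil))) 
(.lf (nat_lit 486966) (.g (nat_lit 4305) (.e (nat_lit 24649) (nat_lit 12) (.e (nat_lit 385074) (nat_lit 31) (.e (nat_lit 573485) (nat_lit 13) (.e (nat_lit 65619) (nat_lit 10) (.e (nat_lit 344129) (nat_lit 26) (.e (nat_lit 557087) (nat_lit 11) .nil)))))) (.g (nat_lit 1) (.e (nat_lit 134764) (nat_lit 0) .nil) .nil)))) (.nd (nat_lit 9) 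
(.lf (nat_lit 486710) (.g (nat_lit 3827) (.e (nat_lit 24630) (nat_lit 9) (.e (nat_lit 336454) (nat_lit 34) (.e (nat_lit 483365) (nat_lit 18) (.e (nat_lit 57849) (nat_lit 252) (.e (nat_lit 57375) (nat_lit 2) (.e (nat_lit 90158) (nat_lit 11) .nil)))))) (.g (nat_lit 1) (.e (nat_lit 134359) (nat_lit 0) .nil) .nil))) 
(.lf (nat_lit 487222) (.g (nat_lit 1736) (.e (nat_lit 24658) (nat_lit 13) (.e (nat_lit 393281) (nat_lit 23) (.e (nat_lit 426099) (nat_lit 1) (.e (nat_lit 164332) (nat_lit 230) (.e (nat_lit 163878) (nat_lit 4) (.e (nat_lit 220928) (nat_lit 11) .nil)))))) (.g (nat_lit 1) (.e (nat_lit 135163) (nat_lit 0) .nil) .nil))))) (.nd (nat_lit 8) (.nd (nat_lit 9) 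
(.lf (nat_lit 486582) (.g (nat_lit 1315) (.e (nat_lit 24629) (nat_lit 9) (.e (nat_lit 336456) (nat_lit 34) (.e (nat_lit 483364) (nat_lit 18) (.e (nat_lit 57852) (nat_lit 252) .nil)))) (.g (nat_lit 0) (.e (nat_lit 134159) (nat_lit 0) .nil) .nil))) 
(.lf (nat_lit 487094) (.g (nat_lit 3274) (.e (nat_lit 24655) (nat_lit 13) (.e (nat_lit 393281) (nat_lit 23) (.e (nat_lit 426108) (nat_lit 1) (.e (nat_lit 164330) (nat_lit 230) (.e (nat_lit 163880) (nat_lit 4) (.e (nat_lit 213032) (nat_lit 11) .nil)))))) (.g (nat_lit 1) (.e (nat_lit 134981) (nat_lit 0) .nil) .nil)))) (.nd (nat_lit 9) 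
(.lf (nat_lit 486838) (.g (nat_lit 1398) (.e (nat_lit 32512) (nat_lit 9) (.e (nat_lit 336456) (nat_lit 34) (.e (nat_lit 483365) (nat_lit 18) (.e (nat_lit 57848) (nat_lit 252) .nil)))) (.g (nat_lit 0) (.e (nat_lit 134536) (nat_lit 0) .nil) .nil))) 
(.lf (nat_lit 487350) (.g (nat_lit 1068) (.e (nat_lit 24660) (nat_lit 13) (.e (nat_lit 393260) (nat_lit 21) (.e (nat_lit 409648) (nat_lit 18) (.e (nat_lit 303108) (nat_lit 0) .nil)))) (.g (nat_lit 0) (.e (nat_lit 135319) (nat_lit 0) .nil) .nil)))))) (.nd (nat_lit 7) (.nd (nat_lit 8) (.nd (nat_lit 9) 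
(.lf (nat_lit 486518) (.g (nat_lit 3199) (.e (nat_lit 24628) (nat_lit 9) (.e (nat_lit 336456) (nat_lit 34) (.e (nat_lit 483365) (nat_lit 18) (.e (nat_lit 57847) (nat_lit 252) (.e (nat_lit 57372) (nat_lit 2) (.e (nat_lit 90158) (nat_lit 11) .nil)))))) (.g (nat_lit 1) (.e (nat_lit 134090) (nat_lit 0) .nil) .nil))) 
(.lf (nat_lit 487030) (.g (nat_lit 2223) (.e (nat_lit 24653) (nat_lit 12) (.e (nat_lit 385072) (nat_lit 31) (.e (nat_lit 573484) (nat_lit 13) (.e (nat_lit 65610) (nat_lit 10) (.e (nat_lit 344129) (nat_lit 26) (.e (nat_lit 557087) (nat_lit 11) .nil)))))) (.g (nat_lit 1) (.e (nat_lit 134891) (nat_lit 0) .nil) .nil)))) (.nd (nat_lit 9) 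
(.lf (nat_lit 486774) (.g (nat_lit 2499) (.e (nat_lit 24631) (nat_lit 9) (.e (nat_lit 336385) (nat_lit 27) (.e (nat_lit 426343) (nat_lit 14) (.e (nat_lit 491560) (nat_lit 10) (.e (nat_lit 344179) (nat_lit 44) .nil))))) (.g (nat_lit 0) (.e (nat_lit 134428) (nat_lit 0) .nil) .nil))) 
(.lf (nat_lit 487286) (.g (nat_lit 1595) (.e (nat_lit 24659) (nat_lit 13) (.e (nat_lit 393279) (nat_lit 23) (.e (nat_lit 426110) (nat_lit 1) (.e (nat_lit 164327) (nat_lit 230) (.e (nat_lit 163879) (nat_lit 4) (.e (nat_lit 213030) (nat_lit 11) .nil)))))) (.g (nat_lit 1) (.e (nat_lit 135236) (nat_lit 0) .nil) .nil))))) (.nd (nat_lit 8) (.nd (nat_lit 9) 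
(.lf (nat_lit 486646) (.g (nat_lit 2975) (.e (nat_lit 24630) (nat_lit 9) (.e (nat_lit 336443) (nat_lit 32) (.e (nat_lit 466969) (nat_lit 21) (.e (nat_lit 164327) (nat_lit 230) (.e (nat_lit 163881) (nat_lit 4) (.e (nat_lit 213030) (nat_lit 11) .nil)))))) (.g (nat_lit 1) (.e (nat_lit 134284) (nat_lit 0) .nil) .nil))) 
(.lf (nat_lit 487158) (.g (nat_lit 2489) (.e (nat_lit 24657) (nat_lit 13) (.e (nat_lit 393281) (nat_lit 23) (.e (nat_lit 426098) (nat_lit 1) (.e (nat_lit 164327) (nat_lit 230) (.e (nat_lit 163881) (nat_lit 4) (.e (nat_lit 213032) (nat_lit 11) .nil)))))) (.g (nat_lit 1) (.e (nat_lit 135076) (nat_lit 0) .nil) .nil)))) (.nd (nat_lit 9) 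
(.lf (nat_lit 486902) (.g (nat_lit 2359) (.e (nat_lit 24640) (nat_lit 10) (.e (nat_lit 344156) (nat_lit 36) (.e (nat_lit 638998) (nat_lit 8) (.e (nat_lit 172113) (nat_lit 10) (.e (nat_lit 434208) (nat_lit 18) (.e (nat_lit 5796) (nat_lit 320) (.e (nat_lit 2553) (nat_lit 159) .nil))))))) (.g (nat_lit 1) (.e (nat_lit 134642) (nat_lit 0) .nil) .nil))) 
(.lf (nat_lit 487414) (.g (nat_lit 2953) (.e (nat_lit 24661) (nat_lit 14) (.e (nat_lit 401459) (nat_lit 13) (.e (nat_lit 483372) (nat_lit 21) (.e (nat_lit 319502) (nat_lit 10) .nil)))) (.g (nat_lit 0) (.e (nat_lit 135423) (nat_lit 0) .nil) .nil))))))))) (.nd (nat_lit 4) (.nd (nat_lit 5) (.nd (nat_lit 6) (.nd (nat_lit 7) (.nd (nat_lit 8) (.nd (nat_lit 9) 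
(.lf (nat_lit 486414) (.g (nat_lit 3206) (.e (nat_lit 24628) (nat_lit 9) (.e (nat_lit 336443) (nat_lit 32) (.e (nat_lit 466972) (nat_lit 21) (.e (nat_lit 164330) (nat_lit 230) (.e (nat_lit 163880) (nat_lit 4) (.e (nat_lit 213030) (nat_lit 11) .nil)))))) (.g (nat_lit 1) (.e (nat_lit 133986) (nat_lit 0) .nil) .nil))) 
(.lf (nat_lit 486926) (.g (nat_lit 1566) (.e (nat_lit 24640) (nat_lit 10) (.e (nat_lit 344179) (nat_lit 44) (.e (nat_lit 778466) (nat_lit 11) (.e (nat_lit 24617) (nat_lit 7) (.e (nat_lit 327424) (nat_lit 3) .nil))))) (.g (nat_lit 0) (.e (nat_lit 134676) (nat_lit 0) .nil) .nil)))) (.nd (nat_lit 9) 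
(.lf (nat_lit 486670) (.g (nat_lit 3814) (.e (nat_lit 24630) (nat_lit 9) (.e (nat_lit 336454) (nat_lit 34) (.e (nat_lit 483363) (nat_lit 18) (.e (nat_lit 57847) (nat_lit 252) (.e (nat_lit 57375) (nat_lit 2) (.e (nat_lit 90160) (nat_lit 11) .nil)))))) (.g (nat_lit 1) (.e (nat_lit 134317) (nat_lit 0) .nil) .nil))) 
(.lf (nat_lit 487182) (.g (nat_lit 1704) (.e (nat_lit 24658) (nat_lit 13) (.e (nat_lit 393225) (nat_lit 9) (.e (nat_lit 335986) (nat_lit 1) (.e (nat_lit 57854) (nat_lit 252) .nil)))) (.g (nat_lit 0) (.e (nat_lit 135115) (nat_lit 0) .nil) .nil))))) (.nd (nat_lit 8) (.nd (nat_lit 9) 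
(.lf (nat_lit 486542) (.g (nat_lit 1642) (.e (nat_lit 24629) (nat_lit 9) (.e (nat_lit 336430) (nat_lit 29) (.e (nat_lit 442419) (nat_lit 21) (.e (nat_lit 164326) (nat_lit 230) (.e (nat_lit 163881) (nat_lit 4) .nil))))) (.g (nat_lit 0) (.e (nat_lit 134117) (nat_lit 0) .nil) .nil))) 
(.lf (nat_lit 487054) (.g (nat_lit 1912) (.e (nat_lit 24654) (nat_lit 13) (.e (nat_lit 393291) (nat_lit 26) (.e (nat_lit 475214) (nat_lit 42) (.e (nat_lit 728832) (nat_lit 4) .nil)))) (.g (nat_lit 0) (.e (nat_lit 134933) (nat_lit 0) .nil) .nil)))) (.nd (nat_lit 9) 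
(.lf (nat_lit 486798) (.g (nat_lit 2254) (.e (nat_lit 24634) (nat_lit 9) (.e (nat_lit 336295) (nat_lit 15) (.e (nat_lit 3305) (nat_lit 202) (.e (nat_lit 573482) (nat_lit 13) .nil)))) (.g (nat_lit 0) (.e (nat_lit 134459) (nat_lit 0) .nil) .nil))) 
(.lf (nat_lit 487310) (.g (nat_lit 1641) (.e (nat_lit 24659) (nat_lit 13) (.e (nat_lit 393282) (nat_lit 24) (.e (nat_lit 434209) (nat_lit 18) (.e (nat_lit 5224) (nat_lit 296) (.e (nat_lit 163882) (nat_lit 4) .nil))))) (.g (nat_lit 0) (.e (nat_lit 135260) (nat_lit 0) .nil) .nil)))))) (.nd (nat_lit 7) (.nd (nat_lit 8) (.nd (nat_lit 9) 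
(.lf (nat_lit 486478) (.g (nat_lit 3680) (.e (nat_lit 24628) (nat_lit 9) (.e (nat_lit 336454) (nat_lit 34) (.e (nat_lit 483365) (nat_lit 18) (.e (nat_lit 57854) (nat_lit 252) (.e (nat_lit 57371) (nat_lit 2) (.e (nat_lit 90158) (nat_lit 11) .nil)))))) (.g (nat_lit 1) (.e (nat_lit 134050) (nat_lit 0) .nil) .nil))) 
(.lf (nat_lit 486990) (.g (nat_lit 1925) (.e (nat_lit 24650) (nat_lit 12) (.e (nat_lit 385074) (nat_lit 31) (.e (nat_lit 573485) (nat_lit 13) (.e (nat_lit 65619) (nat_lit 10) (.e (nat_lit 344129) (nat_lit 26) (.e (nat_lit 557086) (nat_lit 11) .nil)))))) (.g (nat_lit 1) (.e (nat_lit 134806) (nat_lit 0) .nil) .nil)))) (.nd (nat_lit 9) 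
(.lf (nat_lit 486734) (.g (nat_lit 3786) (.e (nat_lit 24630) (nat_lit 9) (.e (nat_lit 336456) (nat_lit 34) (.e (nat_lit 483363) (nat_lit 18) (.e (nat_lit 57854) (nat_lit 252) (.e (nat_lit 57371) (nat_lit 2) (.e (nat_lit 90160) (nat_lit 11) .nil)))))) (.g (nat_lit 1) (.e (nat_lit 134383) (nat_lit 0) .nil) .nil))) 
(.lf (nat_lit 487246) (.g (nat_lit 2062) (.e (nat_lit 24658) (nat_lit 13) (.e (nat_lit 393281) (nat_lit 23) (.e (nat_lit 426108) (nat_lit 1) (.e (nat_lit 164330) (nat_lit 230) (.e (nat_lit 163857) (nat_lit 0) (.e (nat_lit 3711) (nat_lit 227) (.e (nat_lit 778469) (nat_lit 11) .nil))))))) (.g (nat_lit 1) (.e (nat_lit 135190) (nat_lit 0) .nil) .nil))))) (.nd (nat_lit 8) (.nd (nat_lit 9) 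
(.lf (nat_lit 486606) (.g (nat_lit 4709) (.e (nat_lit 24630) (nat_lit 9) (.e (nat_lit 336324) (nat_lit 18) (.e (nat_lit 204831) (nat_lit 18) (.e (nat_lit 57854) (nat_lit 252) (.e (nat_lit 57442) (nat_lit 18) (.e (nat_lit 392960) (nat_lit 10) .nil)))))) (.g (nat_lit 1) (.e (nat_lit 134197) (nat_lit 0) .nil) .nil))) 
(.lf (nat_lit 487118) (.g (nat_lit 1530) (.e (nat_lit 24657) (nat_lit 13) (.e (nat_lit 393229) (nat_lit 9) (.e (nat_lit 335986) (nat_lit 1) (.e (nat_lit 57847) (nat_lit 252) (.e (nat_lit 57370) (nat_lit 2) (.e (nat_lit 90159) (nat_lit 11) .nil)))))) (.g (nat_lit 1) (.e (nat_lit 135026) (nat_lit 0) .nil) .nil)))) (.nd (nat_lit 9) 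
(.lf (nat_lit 486862) (.g (nat_lit 2596) (.e (nat_lit 24640) (nat_lit 10) (.e (nat_lit 344156) (nat_lit 36) (.e (nat_lit 638985) (nat_lit 5) (.e (nat_lit 3015) (nat_lit 187) (.e (nat_lit 450563) (nat_lit 0) (.e (nat_lit 5798) (nat_lit 320) (.e (nat_lit 2551) (nat_lit 159) .nil))))))) (.g (nat_lit 1) (.e (nat_lit 134602) (nat_lit 0) .nil) .nil))) 
(.lf (nat_lit 487374) (.g (nat_lit 1674) (.e (nat_lit 24660) (nat_lit 13) (.e (nat_lit 393280) (nat_lit 23) (.e (nat_lit 426098) (nat_lit 1) (.e (nat_lit 164325) (nat_lit 230) (.e (nat_lit 163881) (nat_lit 4) (.e (nat_lit 213030) (nat_lit 11) .nil)))))) (.g (nat_lit 1) (.e (nat_lit 135344) (nat_lit 0) .nil) .nil))))))) (.nd (nat_lit 6) (.nd (nat_lit 7) (.nd (nat_lit 8) (.nd (nat_lit 9) 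
(.lf (nat_lit 486446) (.g (nat_lit 2521) (.e (nat_lit 24628) (nat_lit 9) (.e (nat_lit 336454) (nat_lit 34) (.e (nat_lit 483365) (nat_lit 18) (.e (nat_lit 57844) (nat_lit 252) (.e (nat_lit 57371) (nat_lit 2) (.e (nat_lit 90158) (nat_lit 11) .nil)))))) (.g (nat_lit 1) (.e (nat_lit 134018) (nat_lit 0) .nil) .nil))) 
(.lf (nat_lit 486958) (.g (nat_lit 4297) (.e (nat_lit 24648) (nat_lit 12) (.e (nat_lit 385074) (nat_lit 31) (.e (nat_lit 573485) (nat_lit 13) (.e (nat_lit 65619) (nat_lit 10) (.e (nat_lit 344129) (nat_lit 26) (.e (nat_lit 557087) (nat_lit 11) .nil)))))) (.g (nat_lit 1) (.e (nat_lit 134739) (nat_lit 0) .nil) .nil)))) (.nd (nat_lit 9) 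
(.lf (nat_lit 486702) (.g (nat_lit 3822) (.e (nat_lit 24630) (nat_lit 9) (.e (nat_lit 336454) (nat_lit 34) (.e (nat_lit 483365) (nat_lit 18) (.e (nat_lit 57847) (nat_lit 252) (.e (nat_lit 57375) (nat_lit 2) (.e (nat_lit 90160) (nat_lit 11) .nil)))))) (.g (nat_lit 1) (.e (nat_lit 134349) (nat_lit 0) .nil) .nil))) 
(.lf (nat_lit 487214) (.g (nat_lit 348) (.e (nat_lit 24658) (nat_lit 13) (.e (nat_lit 393281) (nat_lit 23) (.e (nat_lit 426099) (nat_lit 1) .nil))) (.g (nat_lit 0) (.e (nat_lit 135154) (nat_lit 0) .nil) .nil))))) (.nd (nat_lit 8) (.nd (nat_lit 9) 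
(.lf (nat_lit 486574) (.g (nat_lit 1245) (.e (nat_lit 24629) (nat_lit 9) (.e (nat_lit 336444) (nat_lit 32) (.e (nat_lit 466971) (nat_lit 21) (.e (nat_lit 164325) (nat_lit 230) (.e (nat_lit 163879) (nat_lit 4) .nil))))) (.g (nat_lit 0) (.e (nat_lit 134150) (nat_lit 0) .nil) .nil))) 
(.lf (nat_lit 487086) (.g (nat_lit 3052) (.e (nat_lit 24655) (nat_lit 13) (.e (nat_lit 393281) (nat_lit 23) (.e (nat_lit 426100) (nat_lit 1) (.e (nat_lit 164330) (nat_lit 230) (.e (nat_lit 163880) (nat_lit 4) (.e (nat_lit 213032) (nat_lit 11) .nil)))))) (.g (nat_lit 1) (.e (nat_lit 134973) (nat_lit 0) .nil) .nil)))) (.nd (nat_lit 9) 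
(.lf (nat_lit 486830) (.g (nat_lit 2361) (.e (nat_lit 32512) (nat_lit 9) (.e (nat_lit 336454) (nat_lit 34) (.e (nat_lit 483363) (nat_lit 18) (.e (nat_lit 57854) (nat_lit 252) (.e (nat_lit 57373) (nat_lit 2) .nil))))) (.g (nat_lit 0) (.e (nat_lit 134528) (nat_lit 0) .nil) .nil))) 
(.lf (nat_lit 487342) (.g (nat_lit 2105) (.e (nat_lit 24660) (nat_lit 13) (.e (nat_lit 393260) (nat_lit 21) (.e (nat_lit 409623) (nat_lit 10) (.e (nat_lit 5293) (nat_lit 298) (.e (nat_lit 1001) (nat_lit 81) (.e (nat_lit 2336) (nat_lit 151) (.e (nat_lit 778469) (nat_lit 11) .nil))))))) (.g (nat_lit 1) (.e (nat_lit 135310) (nat_lit 0) .nil) .nil)))))) 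
(.nd (nat_lit 7) (.nd (nat_lit 8) (.nd (nat_lit 9) 
(.lf (nat_lit 486510) (.g (nat_lit 3153) (.e (nat_lit 24628) (nat_lit 9) (.e (nat_lit 336456) (nat_lit 34) (.e (nat_lit 483365) (nat_lit 18) (.e (nat_lit 57846) (nat_lit 252) (.e (nat_lit 57370) (nat_lit 2) (.e (nat_lit 90158) (nat_lit 11) .nil)))))) (.g (nat_lit 1) (.e (nat_lit 134082) (nat_lit 0) .nil) .nil))) 
(.lf (nat_lit 487022) (.g (nat_lit 4194) (.e (nat_lit 24652) (nat_lit 12) (.e (nat_lit 385074) (nat_lit 31) (.e (nat_lit 573484) (nat_lit 13) (.e (nat_lit 65617) (nat_lit 10) (.e (nat_lit 344132) (nat_lit 26) (.e (nat_lit 557085) (nat_lit 11) .nil)))))) (.g (nat_lit 1) (.e (nat_lit 134865) (nat_lit 0) .nil) .nil)))) (.nd (nat_lit 9) 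
(.lf (nat_lit 486766) (.g (nat_lit 2695) (.e (nat_lit 24630) (nat_lit 9) (.e (nat_lit 336456) (nat_lit 34) (.e (nat_lit 483365) (nat_lit 18) (.e (nat_lit 57854) (nat_lit 252) (.e (nat_lit 57371) (nat_lit 2) (.e (nat_lit 90156) (nat_lit 11) .nil)))))) (.g (nat_lit 1) (.e (nat_lit 134419) (nat_lit 0) .nil) .nil))) 
(.lf (nat_lit 487278) (.g (nat_lit 1411) (.e (nat_lit 24659) (nat_lit 13) (.e (nat_lit 393266) (nat_lit 23) (.e (nat_lit 426109) (nat_lit 1) (.e (nat_lit 164322) (nat_lit 230) (.e (nat_lit 163878) (nat_lit 4) (.e (nat_lit 213030) (nat_lit 11) .nil)))))) (.g (nat_lit 1) (.e (nat_lit 135228) (nat_lit 0) .nil) .nil))))) (.nd (nat_lit 8) (.nd (nat_lit 9) 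
(.lf (nat_lit 486638) (.g (nat_lit 3591) (.e (nat_lit 24630) (nat_lit 9) (.e (nat_lit 336414) (nat_lit 27) (.e (nat_lit 426503) (nat_lit 27) (.e (nat_lit 335986) (nat_lit 1) (.e (nat_lit 57847) (nat_lit 252) (.e (nat_lit 57375) (nat_lit 2) (.e (nat_lit 90160) (nat_lit 11) .nil))))))) (.g (nat_lit 1) (.e (nat_lit 134240) (nat_lit 0) .nil) .nil))) 
(.lf (nat_lit 487150) (.g (nat_lit 469) (.e (nat_lit 24657) (nat_lit 13) (.e (nat_lit 393271) (nat_lit 23) (.e (nat_lit 426112) (nat_lit 1) .nil))) (.g (nat_lit 0) (.e (nat_lit 135067) (nat_lit 0) .nil) .nil)))) (.nd (nat_lit 9) 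
(.lf (nat_lit 486894) (.g (nat_lit 3320) (.e (nat_lit 24640) (nat_lit 10) (.e (nat_lit 344156) (nat_lit 36) (.e (nat_lit 638998) (nat_lit 8) (.e (nat_lit 172113) (nat_lit 10) (.e (nat_lit 434203) (nat_lit 18) (.e (nat_lit 5811) (nat_lit 320) (.e (nat_lit 2558) (nat_lit 159) .nil))))))) (.g (nat_lit 1) (.e (nat_lit 134634) (nat_lit 0) .nil) .nil))) 
(.lf (nat_lit 487406) (.g (nat_lit 1049) (.e (nat_lit 24661) (nat_lit 14) (.e (nat_lit 401454) (nat_lit 12) (.e (nat_lit 475210) (nat_lit 41) .nil))) (.g (nat_lit 0) (.e (nat_lit 135404) (nat_lit 0) .nil) .nil)))))))) (.nd (nat_lit 5) (.nd (nat_lit 6) (.nd (nat_lit 7) (.nd (nat_lit 8) (.nd (nat_lit 9) 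
(.lf (nat_lit 486430) (.g (nat_lit 3423) (.e (nat_lit 24628) (nat_lit 9) (.e (nat_lit 336454) (nat_lit 34) (.e (nat_lit 483363) (nat_lit 18) (.e (nat_lit 57847) (nat_lit 252) (.e (nat_lit 57370) (nat_lit 2) (.e (nat_lit 90158) (nat_lit 11) .nil)))))) (.g (nat_lit 1) (.e (nat_lit 134002) (nat_lit 0) .nil) .nil))) 
(.lf (nat_lit 486942) (.g (nat_lit 3062) (.e (nat_lit 24647) (nat_lit 12) (.e (nat_lit 385074) (nat_lit 31) (.e (nat_lit 573484) (nat_lit 13) (.e (nat_lit 65610) (nat_lit 10) (.e (nat_lit 344129) (nat_lit 26) (.e (nat_lit 557087) (nat_lit 11) .nil)))))) (.g (nat_lit 1) (.e (nat_lit 134712) (nat_lit 0) .nil) .nil)))) (.nd (nat_lit 9) 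
(.lf (nat_lit 486686) (.g (nat_lit 3825) (.e (nat_lit 24630) (nat_lit 9) (.e (nat_lit 336454) (nat_lit 34) (.e (nat_lit 483364) (nat_lit 18) (.e (nat_lit 57854) (nat_lit 252) (.e (nat_lit 57373) (nat_lit 2) (.e (nat_lit 90160) (nat_lit 11) .nil)))))) (.g (nat_lit 1) (.e (nat_lit 134333) (nat_lit 0) .nil) .nil))) 
(.lf (nat_lit 487198) (.g (nat_lit 1810) (.e (nat_lit 24658) (nat_lit 13) (.e (nat_lit 393260) (nat_lit 21) (.e (nat_lit 409617) (nat_lit 10) (.e (nat_lit 4981) (nat_lit 287) .nil)))) (.g (nat_lit 0) (.e (nat_lit 135136) (nat_lit 0) .nil) .nil))))) (.nd (nat_lit 8) (.nd (nat_lit 9) 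
(.lf (nat_lit 486558) (.g (nat_lit 1986) (.e (nat_lit 24629) (nat_lit 9) (.e (nat_lit 336430) (nat_lit 29) (.e (nat_lit 442421) (nat_lit 21) (.e (nat_lit 164327) (nat_lit 230) (.e (nat_lit 163882) (nat_lit 4) (.e (nat_lit 213030) (nat_lit 11) .nil)))))) (.g (nat_lit 1) (.e (nat_lit 134133) (nat_lit 0) .nil) .nil))) 
(.lf (nat_lit 487070) (.g (nat_lit 2874) (.e (nat_lit 24655) (nat_lit 13) (.e (nat_lit 393281) (nat_lit 23) (.e (nat_lit 426098) (nat_lit 1) (.e (nat_lit 164325) (nat_lit 230) (.e (nat_lit 163881) (nat_lit 4) (.e (nat_lit 213032) (nat_lit 11) .nil)))))) (.g (nat_lit 1) (.e (nat_lit 134957) (nat_lit 0) .nil) .nil)))) (.nd (nat_lit 9) 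
(.lf (nat_lit 486814) (.g (nat_lit 1987) (.e (nat_lit 24638) (nat_lit 9) (.e (nat_lit 335986) (nat_lit 1) (.e (nat_lit 57847) (nat_lit 252) (.e (nat_lit 57365) (nat_lit 1) .nil)))) (.g (nat_lit 0) (.e (nat_lit 134488) (nat_lit 0) .nil) .nil))) 
(.lf (nat_lit 487326) (.g (nat_lit 1767) (.e (nat_lit 24660) (nat_lit 13) (.e (nat_lit 393238) (nat_lit 17) (.e (nat_lit 7107) (nat_lit 380) (.e (nat_lit 164288) (nat_lit 224) (.e (nat_lit 164108) (nat_lit 116) (.e (nat_lit 786176) (nat_lit 11) .nil)))))) (.g (nat_lit 1) (.e (nat_lit 135286) (nat_lit 0) .nil) .nil)))))) (.nd (nat_lit 7) (.nd (nat_lit 8) (.nd (nat_lit 9) 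
(.lf (nat_lit 486494) (.g (nat_lit 3012) (.e (nat_lit 24628) (nat_lit 9) (.e (nat_lit 336454) (nat_lit 34) (.e (nat_lit 483366) (nat_lit 18) (.e (nat_lit 57849) (nat_lit 252) (.e (nat_lit 57370) (nat_lit 2) (.e (nat_lit 90158) (nat_lit 11) .nil)))))) (.g (nat_lit 1) (.e (nat_lit 134066) (nat_lit 0) .nil) .nil))) 
(.lf (nat_lit 487006) (.g (nat_lit 1579) (.e (nat_lit 24651) (nat_lit 12) (.e (nat_lit 385094) (nat_lit 49) (.e (nat_lit 778323) (nat_lit 5) (.e (nat_lit 73788) (nat_lit 45) .nil)))) (.g (nat_lit 0) (.e (nat_lit 134843) (nat_lit 0) .nil) .nil)))) (.nd (nat_lit 9) 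
(.lf (nat_lit 486750) (.g (nat_lit 3412) (.e (nat_lit 24630) (nat_lit 9) (.e (nat_lit 336456) (nat_lit 34) (.e (nat_lit 483365) (nat_lit 18) (.e (nat_lit 57846) (nat_lit 252) (.e (nat_lit 57372) (nat_lit 2) (.e (nat_lit 90158) (nat_lit 11) .nil)))))) (.g (nat_lit 1) (.e (nat_lit 134399) (nat_lit 0) .nil) .nil))) 
(.lf (nat_lit 487262) (.g (nat_lit 1315) (.e (nat_lit 24658) (nat_lit 13) (.e (nat_lit 393301) (nat_lit 27) (.e (nat_lit 491552) (nat_lit 9) (.e (nat_lit 336050) (nat_lit 6) .nil)))) (.g (nat_lit 0) (.e (nat_lit 135211) (nat_lit 0) .nil) .nil))))) (.nd (nat_lit 8) (.nd (nat_lit 9) 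
(.lf (nat_lit 486622) (.g (nat_lit 2580) (.e (nat_lit 24630) (nat_lit 9) (.e (nat_lit 336369) (nat_lit 27) (.e (nat_lit 426497) (nat_lit 27) (.e (nat_lit 335996) (nat_lit 1) (.e (nat_lit 57851) (nat_lit 252) (.e (nat_lit 57371) (nat_lit 2) (.e (nat_lit 90156) (nat_lit 11) .nil))))))) (.g (nat_lit 1) (.e (nat_lit 134221) (nat_lit 0) .nil) .nil))) 
(.lf (nat_lit 487134) (.g (nat_lit 2605) (.e (nat_lit 24657) (nat_lit 13) (.e (nat_lit 393229) (nat_lit 9) (.e (nat_lit 335996) (nat_lit 1) (.e (nat_lit 57854) (nat_lit 252) (.e (nat_lit 57369) (nat_lit 2) .nil))))) (.g (nat_lit 0) (.e (nat_lit 135042) (nat_lit 0) .nil) .nil)))) (.nd (nat_lit 9) 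
(.lf (nat_lit 486878) (.g (nat_lit 3229) (.e (nat_lit 24640) (nat_lit 10) (.e (nat_lit 344156) (nat_lit 36) (.e (nat_lit 638998) (nat_lit 8) (.e (nat_lit 172106) (nat_lit 10) (.e (nat_lit 434209) (nat_lit 18) (.e (nat_lit 5853) (nat_lit 320) (.e (nat_lit 2551) (nat_lit 159) .nil))))))) (.g (nat_lit 1) (.e (nat_lit 134618) (nat_lit 0) .nil) .nil))) 
(.lf (nat_lit 487390) (.g (nat_lit 2645) (.e (nat_lit 24660) (nat_lit 13) (.e (nat_lit 393281) (nat_lit 23) (.e (nat_lit 426108) (nat_lit 1) (.e (nat_lit 164330) (nat_lit 230) (.e (nat_lit 163880) (nat_lit 4) (.e (nat_lit 213030) (nat_lit 11) .nil)))))) (.g (nat_lit 1) (.e (nat_lit 135360) (nat_lit 0) .nil) .nil))))))) (.nd (nat_lit 6) (.nd (nat_lit 7) (.nd (nat_lit 8) (.nd (nat_lit 9) 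
(.lf (nat_lit 486462) (.g (nat_lit 3194) (.e (nat_lit 24628) (nat_lit 9) (.e (nat_lit 336454) (nat_lit 34) (.e (nat_lit 483365) (nat_lit 18) (.e (nat_lit 57848) (nat_lit 252) (.e (nat_lit 57372) (nat_lit 2) (.e (nat_lit 90159) (nat_lit 11) .nil)))))) (.g (nat_lit 1) (.e (nat_lit 134034) (nat_lit 0) .nil) .nil))) 
(.lf (nat_lit 486974) (.g (nat_lit 3729) (.e (nat_lit 24650) (nat_lit 12) (.e (nat_lit 385068) (nat_lit 26) (.e (nat_lit 532501) (nat_lit 1) (.e (nat_lit 57852) (nat_lit 252) (.e (nat_lit 57440) (nat_lit 18) .nil))))) (.g (nat_lit 0) (.e (nat_lit 134782) (nat_lit 0) .nil) .nil)))) (.nd (nat_lit 9) 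
(.lf (nat_lit 486718) (.g (nat_lit 3085) (.e (nat_lit 24630) (nat_lit 9) (.e (nat_lit 336454) (nat_lit 34) (.e (nat_lit 483365) (nat_lit 18) (.e (nat_lit 57853) (nat_lit 252) (.e (nat_lit 57370) (nat_lit 2) (.e (nat_lit 90158) (nat_lit 11) .nil)))))) (.g (nat_lit 1) (.e (nat_lit 134367) (nat_lit 0) .nil) .nil))) 
(.lf (nat_lit 487230) (.g (nat_lit 2570) (.e (nat_lit 24658) (nat_lit 13) (.e (nat_lit 393281) (nat_lit 23) (.e (nat_lit 426100) (nat_lit 1) (.e (nat_lit 164330) (nat_lit 230) (.e (nat_lit 163857) (nat_lit 0) (.e (nat_lit 3711) (nat_lit 227) (.e (nat_lit 778469) (nat_lit 11) .nil))))))) (.g (nat_lit 1) (.e (nat_lit 135174) (nat_lit 0) .nil) .nil))))) (.nd (nat_lit 8) (.nd (nat_lit 9) 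
(.lf (nat_lit 486590) (.g (nat_lit 2184) (.e (nat_lit 24629) (nat_lit 9) (.e (nat_lit 336456) (nat_lit 34) (.e (nat_lit 483365) (nat_lit 18) (.e (nat_lit 57854) (nat_lit 252) (.e (nat_lit 57371) (nat_lit 2) .nil))))) (.g (nat_lit 0) (.e (nat_lit 134168) (nat_lit 0) .nil) .nil))) 
(.lf (nat_lit 487102) (.g (nat_lit 3717) (.e (nat_lit 24655) (nat_lit 13) (.e (nat_lit 393301) (nat_lit 27) (.e (nat_lit 491560) (nat_lit 10) (.e (nat_lit 344179) (nat_lit 44) (.e (nat_lit 778465) (nat_lit 11) .nil))))) (.g (nat_lit 1) (.e (nat_lit 134999) (nat_lit 0) .nil) .nil)))) (.nd (nat_lit 9) 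
(.lf (nat_lit 486846) (.g (nat_lit 2874) (.e (nat_lit 24640) (nat_lit 10) (.e (nat_lit 344156) (nat_lit 36) (.e (nat_lit 638985) (nat_lit 5) (.e (nat_lit 3015) (nat_lit 187) (.e (nat_lit 450562) (nat_lit 0) (.e (nat_lit 5796) (nat_lit 320) (.e (nat_lit 2559) (nat_lit 159) .nil))))))) (.g (nat_lit 1) (.e (nat_lit 134586) (nat_lit 0) .nil) .nil))) 
(.lf (nat_lit 487358) (.g (nat_lit 1915) (.e (nat_lit 24660) (nat_lit 13) (.e (nat_lit 393266) (nat_lit 23) (.e (nat_lit 426109) (nat_lit 1) (.e (nat_lit 164326) (nat_lit 230) (.e (nat_lit 163881) (nat_lit 4) (.e (nat_lit 213030) (nat_lit 11) .nil)))))) (.g (nat_lit 1) (.e (nat_lit 135328) (nat_lit 0) .nil) .nil)))))) (.nd (nat_lit 7) (.nd (nat_lit 8) (.nd (nat_lit 9) 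
(.lf (nat_lit 486526) (.g (nat_lit 2812) (.e (nat_lit 24628) (nat_lit 9) (.e (nat_lit 336456) (nat_lit 34) (.e (nat_lit 483365) (nat_lit 18) (.e (nat_lit 57852) (nat_lit 252) (.e (nat_lit 57371) (nat_lit 2) (.e (nat_lit 90158) (nat_lit 11) .nil)))))) (.g (nat_lit 1) (.e (nat_lit 134099) (nat_lit 0) .nil) .nil))) 
(.lf (nat_lit 487038) (.g (nat_lit 609) (.e (nat_lit 24653) (nat_lit 12) (.e (nat_lit 385093) (nat_lit 49) (.e (nat_lit 778323) (nat_lit 5) .nil))) (.g (nat_lit 0) (.e (nat_lit 134915) (nat_lit 0) .nil) .nil)))) (.nd (nat_lit 9) 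
(.lf (nat_lit 486782) (.g (nat_lit 662) (.e (nat_lit 24631) (nat_lit 9) (.e (nat_lit 336412) (nat_lit 27) (.e (nat_lit 426011) (nat_lit 0) (.e (nat_lit 7591) (nat_lit 407) .nil)))) (.g (nat_lit 0) (.e (nat_lit 134437) (nat_lit 0) .nil) .nil))) 
(.lf (nat_lit 487294) (.g (nat_lit 2298) (.e (nat_lit 24659) (nat_lit 13) (.e (nat_lit 393281) (nat_lit 23) (.e (nat_lit 426098) (nat_lit 1) (.e (nat_lit 164325) (nat_lit 230) (.e (nat_lit 163880) (nat_lit 4) .nil))))) (.g (nat_lit 0) (.e (nat_lit 135244) (nat_lit 0) .nil) .nil))))) (.nd (nat_lit 8) (.nd (nat_lit 9) 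
(.lf (nat_lit 486654) (.g (nat_lit 2941) (.e (nat_lit 24630) (nat_lit 9) (.e (nat_lit 336443) (nat_lit 32) (.e (nat_lit 466971) (nat_lit 21) (.e (nat_lit 164327) (nat_lit 230) (.e (nat_lit 163881) (nat_lit 4) (.e (nat_lit 213030) (nat_lit 11) .nil)))))) (.g (nat_lit 1) (.e (nat_lit 134292) (nat_lit 0) .nil) .nil))) 
(.lf (nat_lit 487166) (.g (nat_lit 2678) (.e (nat_lit 24657) (nat_lit 13) (.e (nat_lit 393281) (nat_lit 23) (.e (nat_lit 426100) (nat_lit 1) (.e (nat_lit 164330) (nat_lit 230) (.e (nat_lit 163880) (nat_lit 4) (.e (nat_lit 213032) (nat_lit 11) .nil)))))) (.g (nat_lit 1) (.e (nat_lit 135084) (nat_lit 0) .nil) .nil)))) (.nd (nat_lit 9) 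
(.lf (nat_lit 486910) (.g (nat_lit 2373) (.e (nat_lit 24640) (nat_lit 10) (.e (nat_lit 344156) (nat_lit 36) (.e (nat_lit 638998) (nat_lit 8) (.e (nat_lit 172115) (nat_lit 10) (.e (nat_lit 434202) (nat_lit 18) (.e (nat_lit 5799) (nat_lit 320) (.e (nat_lit 2551) (nat_lit 159) .nil))))))) (.g (nat_lit 1) (.e (nat_lit 134650) (nat_lit 0) .nil) .nil))) 
(.lf (nat_lit 487422) (.g (nat_lit 3070) (.e (nat_lit 24661) (nat_lit 14) (.e (nat_lit 401459) (nat_lit 13) (.e (nat_lit 483372) (nat_lit 21) (.e (nat_lit 327424) (nat_lit 10) .nil)))) (.g (nat_lit 0) (.e (nat_lit 135431) (nat_lit 0) .nil) .nil)))))))))))) 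
(.nd (nat_lit 1) (.nd (nat_lit 2) (.nd (nat_lit 3) (.nd (nat_lit 4) (.nd (nat_lit 5) 
(.nd (nat_lit 6) (.nd (nat_lit 7) (.nd (nat_lit 8) (.nd (nat_lit 9) 
(.lf (nat_lit 486401) (.g (nat_lit 2410) (.e (nat_lit 24628) (nat_lit 9) (.e (nat_lit 336443) (nat_lit 32) (.e (nat_lit 466972) (nat_lit 21) (.e (nat_lit 164329) (nat_lit 230) (.e (nat_lit 163878) (nat_lit 4) (.e (nat_lit 213030) (nat_lit 11) .nil)))))) (.g (nat_lit 1) (.e (nat_lit 133973) (nat_lit 0) .nil) .nil))) 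
(.lf (nat_lit 486913) (.g (nat_lit 3111) (.e (nat_lit 24640) (nat_lit 10) (.e (nat_lit 344156) (nat_lit 36) (.e (nat_lit 638998) (nat_lit 8) (.e (nat_lit 172115) (nat_lit 10) (.e (nat_lit 434209) (nat_lit 18) (.e (nat_lit 5831) (nat_lit 320) (.e (nat_lit 2551) (nat_lit 159) .nil))))))) (.g (nat_lit 1) (.e (nat_lit 134653) (nat_lit 0) .nil) .nil)))) (.nd (nat_lit 9) 
(.lf (nat_lit 486657) (.g (nat_lit 2320) (.e (nat_lit 24630) (nat_lit 9) (.e (nat_lit 336443) (nat_lit 32) (.e (nat_lit 466972) (nat_lit 21) (.e (nat_lit 164330) (nat_lit 230) (.e (nat_lit 163877) (nat_lit 4) (.e (nat_lit 213032) (nat_lit 11) .nil)))))) (.g (nat_lit 1) (.e (nat_lit 134295) (nat_lit 0) .nil) .nil))) 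
(.lf (nat_lit 487169) (.g (nat_lit 2820) (.e (nat_lit 24657) (nat_lit 13) (.e (nat_lit 393281) (nat_lit 23) (.e (nat_lit 426108) (nat_lit 1) (.e (nat_lit 164330) (nat_lit 230) (.e (nat_lit 163880) (nat_lit 4) (.e (nat_lit 213032) (nat_lit 11) .nil)))))) (.g (nat_lit 1) (.e (nat_lit 135087) (nat_lit 0) .nil) .nil))))) (.nd (nat_lit 8) (.nd (nat_lit 9) 
(.lf (nat_lit 486529) (.g (nat_lit 3392) (.e (nat_lit 24628) (nat_lit 9) (.e (nat_lit 336456) (nat_lit 34) (.e (nat_lit 483365) (nat_lit 18) (.e (nat_lit 57854) (nat_lit 252) (.e (nat_lit 57371) (nat_lit 2) (.e (nat_lit 90158) (nat_lit 11) .nil)))))) (.g (nat_lit 1) (.e (nat_lit 134102) (nat_lit 0) .nil) .nil))) 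
(.lf (nat_lit 487041) (.g (nat_lit 1162) (.e (nat_lit 24653) (nat_lit 12) (.e (nat_lit 385102) (nat_lit 50) (.e (nat_lit 786467) (nat_lit 27) (.e (nat_lit 336060) (nat_lit 7) (.e (nat_lit 319504) (nat_lit 10) (.e (nat_lit 7936) (nat_lit 314) .nil)))))) (.g (nat_lit 1) (.e (nat_lit 134918) (nat_lit 0) .nil) .nil)))) (.nd (nat_lit 9) 
(.lf (nat_lit 486785) (.g (nat_lit 692) (.e (nat_lit 24632) (nat_lit 9) (.e (nat_lit 336028) (nat_lit 3) (.e (nat_lit 106240) (nat_lit 15) .nil))) (.g (nat_lit 0) (.e (nat_lit 134445) (nat_lit 0) .nil) .nil))) 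
(.lf (nat_lit 487297) (.g (nat_lit 2751) (.e (nat_lit 24659) (nat_lit 13) (.e (nat_lit 393281) (nat_lit 23) (.e (nat_lit 426098) (nat_lit 1) (.e (nat_lit 164327) (nat_lit 230) (.e (nat_lit 163882) (nat_lit 4) (.e (nat_lit 213032) (nat_lit 11) .nil)))))) (.g (nat_lit 1) (.e (nat_lit 135247) (nat_lit 0) .nil) .nil)))))) (.nd (nat_lit 7) (.nd (nat_lit 8) (.nd (nat_lit 9) 
(.lf (nat_lit 486465) (.g (nat_lit 3459) (.e (nat_lit 24628) (nat_lit 9) (.e (nat_lit 336454) (nat_lit 34) (.e (nat_lit 483365) (nat_lit 18) (.e (nat_lit 57849) (nat_lit 252) (.e (nat_lit 57370) (nat_lit 2) (.e (nat_lit 90158) (nat_lit 11) .nil)))))) (.g (nat_lit 1) (.e (nat_lit 134037) (nat_lit 0) .nil) .nil))) 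
(.lf (nat_lit 486977) (.g (nat_lit 2551) (.e (nat_lit 24650) (nat_lit 12) (.e (nat_lit 385068) (nat_lit 26) (.e (nat_lit 532503) (nat_lit 1) (.e (nat_lit 57847) (nat_lit 252) (.e (nat_lit 57442) (nat_lit 18) .nil))))) (.g (nat_lit 0) (.e (nat_lit 134785) (nat_lit 0) .nil) .nil)))) (.nd (nat_lit 9) 
(.lf (nat_lit 486721) (.g (nat_lit 3610) (.e (nat_lit 24630) (nat_lit 9) (.e (nat_lit 336454) (nat_lit 34) (.e (nat_lit 483365) (nat_lit 18) (.e (nat_lit 57854) (nat_lit 252) (.e (nat_lit 57371) (nat_lit 2) (.e (nat_lit 90158) (nat_lit 11) .nil)))))) (.g (nat_lit 1) (.e (nat_lit 134370) (nat_lit 0) .nil) .nil))) 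
(.lf (nat_lit 487233) (.g (nat_lit 940) (.e (nat_lit 24658) (nat_lit 13) (.e (nat_lit 393281) (nat_lit 23) (.e (nat_lit 426100) (nat_lit 1) (.e (nat_lit 164332) (nat_lit 230) .nil)))) (.g (nat_lit 0) (.e (nat_lit 135177) (nat_lit 0) .nil) .nil))))) (.nd (nat_lit 8) (.nd (nat_lit 9) 
(.lf (nat_lit 486593) (.g (nat_lit 1391) (.e (nat_lit 24630) (nat_lit 9) (.e (nat_lit 336019) (nat_lit 3) (.e (nat_lit 98384) (nat_lit 32) (.e (nat_lit 475201) (nat_lit 40) .nil)))) (.g (nat_lit 0) (.e (nat_lit 134171) (nat_lit 0) .nil) .nil))) 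
(.lf (nat_lit 487105) (.g (nat_lit 2425) (.e (nat_lit 24656) (nat_lit 13) (.e (nat_lit 393271) (nat_lit 23) (.e (nat_lit 426112) (nat_lit 1) (.e (nat_lit 164326) (nat_lit 230) (.e (nat_lit 163882) (nat_lit 4) (.e (nat_lit 213032) (nat_lit 11) .nil)))))) (.g (nat_lit 1) (.e (nat_lit 135003) (nat_lit 0) .nil) .nil)))) (.nd (nat_lit 9) 
(.lf (nat_lit 486849) (.g (nat_lit 3276) (.e (nat_lit 24640) (nat_lit 10) (.e (nat_lit 344156) (nat_lit 36) (.e (nat_lit 638985) (nat_lit 5) (.e (nat_lit 3015) (nat_lit 187) (.e (nat_lit 450562) (nat_lit 0) (.e (nat_lit 5797) (nat_lit 320) (.e (nat_lit 2559) (nat_lit 159) .nil))))))) (.g (nat_lit 1) (.e (nat_lit 134589) (nat_lit 0) .nil) .nil))) 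
(.lf (nat_lit 487361) (.g (nat_lit 2019) (.e (nat_lit 24660) (nat_lit 13) (.e (nat_lit 393271) (nat_lit 23) (.e (nat_lit 426112) (nat_lit 1) (.e (nat_lit 164327) (nat_lit 230) (.e (nat_lit 163877) (nat_lit 4) (.e (nat_lit 213032) (nat_lit 11) .nil)))))) (.g (nat_lit 1) (.e (nat_lit 135331) (nat_lit 0) .nil) .nil))))))) (.nd (nat_lit 6) (.nd (nat_lit 7) (.nd (nat_lit 8) (.nd (nat_lit 9) 
(.lf (nat_lit 486433) (.g (nat_lit 3581) (.e (nat_lit 24628) (nat_lit 9) (.e (nat_lit 336454) (nat_lit 34) (.e (nat_lit 483363) (nat_lit 18) (.e (nat_lit 57847) (nat_lit 252) (.e (nat_lit 57373) (nat_lit 2) (.e (nat_lit 90158) (nat_lit 11) .nil)))))) (.g (nat_lit 1) (.e (nat_lit 134005) (nat_lit 0) .nil) .nil))) 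
(.lf (nat_lit 486945) (.g (nat_lit 1927) (.e (nat_lit 24647) (nat_lit 12) (.e (nat_lit 385093) (nat_lit 49) (.e (nat_lit 778323) (nat_lit 5) (.e (nat_lit 73789) (nat_lit 45) (.e (nat_lit 991) (nat_lit 81) .nil))))) (.g (nat_lit 0) (.e (nat_lit 134719) (nat_lit 0) .nil) .nil)))) (.nd (nat_lit 9) 
(.lf (nat_lit 486689) (.g (nat_lit 2862) (.e (nat_lit 24630) (nat_lit 9) (.e (nat_lit 336454) (nat_lit 34) (.e (nat_lit 483365) (nat_lit 18) (.e (nat_lit 57844) (nat_lit 252) (.e (nat_lit 57371) (nat_lit 2) (.e (nat_lit 90156) (nat_lit 11) .nil)))))) (.g (nat_lit 1) (.e (nat_lit 134336) (nat_lit 0) .nil) .nil))) 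
(.lf (nat_lit 487201) (.g (nat_lit 2234) (.e (nat_lit 24658) (nat_lit 13) (.e (nat_lit 393260) (nat_lit 21) (.e (nat_lit 409649) (nat_lit 18) (.e (nat_lit 303111) (nat_lit 0) (.e (nat_lit 3578) (nat_lit 223) .nil))))) (.g (nat_lit 0) (.e (nat_lit 135141) (nat_lit 0) .nil) .nil))))) (.nd (nat_lit 8) (.nd (nat_lit 9) 
(.lf (nat_lit 486561) (.g (nat_lit 873) (.e (nat_lit 24629) (nat_lit 9) (.e (nat_lit 336443) (nat_lit 32) (.e (nat_lit 474880) (nat_lit 5) .nil))) (.g (nat_lit 0) (.e (nat_lit 134137) (nat_lit 0) .nil) .nil))) 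
(.lf (nat_lit 487073) (.g (nat_lit 2374) (.e (nat_lit 24655) (nat_lit 13) (.e (nat_lit 393281) (nat_lit 23) (.e (nat_lit 426098) (nat_lit 1) (.e (nat_lit 164327) (nat_lit 230) (.e (nat_lit 163879) (nat_lit 4) (.e (nat_lit 213030) (nat_lit 11) .nil)))))) (.g (nat_lit 1) (.e (nat_lit 134960) (nat_lit 0) .nil) .nil)))) (.nd (nat_lit 9) 
(.lf (nat_lit 486817) (.g (nat_lit 1642) (.e (nat_lit 24638) (nat_lit 9) (.e (nat_lit 336021) (nat_lit 3) (.e (nat_lit 106240) (nat_lit 16) (.e (nat_lit 401454) (nat_lit 12) (.e (nat_lit 483072) (nat_lit 2) .nil))))) (.g (nat_lit 1) (.e (nat_lit 134514) (nat_lit 0) .nil) .nil))) 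
(.lf (nat_lit 487329) (.g (nat_lit 1082) (.e (nat_lit 24660) (nat_lit 13) (.e (nat_lit 393251) (nat_lit 18) (.e (nat_lit 164179) (nat_lit 154) .nil))) (.g (nat_lit 0) (.e (nat_lit 135293) (nat_lit 0) .nil) .nil)))))) (.nd (nat_lit 7) (.nd (nat_lit 8) (.nd (nat_lit 9) 
(.lf (nat_lit 486497) (.g (nat_lit 3179) (.e (nat_lit 24628) (nat_lit 9) (.e (nat_lit 336454) (nat_lit 34) (.e (nat_lit 483366) (nat_lit 18) (.e (nat_lit 57854) (nat_lit 252) (.e (nat_lit 57371) (nat_lit 2) (.e (nat_lit 90158) (nat_lit 11) .nil)))))) (.g (nat_lit 1) (.e (nat_lit 134069) (nat_lit 0) .nil) .nil))) 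
(.lf (nat_lit 487009) (.g (nat_lit 1436) (.e (nat_lit 24651) (nat_lit 12) (.e (nat_lit 385094) (nat_lit 49) (.e (nat_lit 778323) (nat_lit 5) (.e (nat_lit 81664) (nat_lit 45) .nil)))) (.g (nat_lit 0) (.e (nat_lit 134846) (nat_lit 0) .nil) .nil)))) (.nd (nat_lit 9) 
(.lf (nat_lit 486753) (.g (nat_lit 3389) (.e (nat_lit 24630) (nat_lit 9) (.e (nat_lit 336456) (nat_lit 34) (.e (nat_lit 483365) (nat_lit 18) (.e (nat_lit 57847) (nat_lit 252) (.e (nat_lit 57372) (nat_lit 2) (.e (nat_lit 90158) (nat_lit 11) .nil)))))) (.g (nat_lit 1) (.e (nat_lit 134402) (nat_lit 0) .nil) .nil))) 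
(.lf (nat_lit 487265) (.g (nat_lit 1883) (.e (nat_lit 24658) (nat_lit 13) (.e (nat_lit 393301) (nat_lit 27) (.e (nat_lit 491559) (nat_lit 10) (.e (nat_lit 344088) (nat_lit 18) .nil)))) (.g (nat_lit 0) (.e (nat_lit 135214) (nat_lit 0) .nil) .nil))))) (.nd (nat_lit 8) (.nd (nat_lit 9) 
(.lf (nat_lit 486625) (.g (nat_lit 2279) (.e (nat_lit 24630) (nat_lit 9) (.e (nat_lit 336369) (nat_lit 27) (.e (nat_lit 426501) (nat_lit 27) (.e (nat_lit 335988) (nat_lit 1) (.e (nat_lit 57854) (nat_lit 252) (.e (nat_lit 57371) (nat_lit 2) (.e (nat_lit 90156) (nat_lit 11) .nil))))))) (.g (nat_lit 1) (.e (nat_lit 134224) (nat_lit 0) .nil) .nil))) 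
(.lf (nat_lit 487137) (.g (nat_lit 1406) (.e (nat_lit 24657) (nat_lit 13) (.e (nat_lit 401152) (nat_lit 16) (.e (nat_lit 401437) (nat_lit 9) (.e (nat_lit 426128) (nat_lit 2) (.e (nat_lit 204544) (nat_lit 2) .nil))))) (.g (nat_lit 1) (.e (nat_lit 135045) (nat_lit 0) .nil) .nil)))) (.nd (nat_lit 9) 
(.lf (nat_lit 486881) (.g (nat_lit 3447) (.e (nat_lit 24640) (nat_lit 10) (.e (nat_lit 344156) (nat_lit 36) (.e (nat_lit 638998) (nat_lit 8) (.e (nat_lit 172113) (nat_lit 10) (.e (nat_lit 434203) (nat_lit 18) (.e (nat_lit 5796) (nat_lit 320) (.e (nat_lit 2552) (nat_lit 159) .nil))))))) (.g (nat_lit 1) (.e (nat_lit 134621) (nat_lit 0) .nil) .nil))) 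
(.lf (nat_lit 487393) (.g (nat_lit 1111) (.e (nat_lit 24660) (nat_lit 13) (.e (nat_lit 393297) (nat_lit 27) (.e (nat_lit 491558) (nat_lit 10) (.e (nat_lit 352000) (nat_lit 44) .nil)))) (.g (nat_lit 0) (.e (nat_lit 135376) (nat_lit 0) .nil) .nil)))))))) (.nd (nat_lit 5) (.nd (nat_lit 6) (.nd (nat_lit 7) (.nd (nat_lit 8) (.nd (nat_lit 9) 
(.lf (nat_lit 486417) (.g (nat_lit 2805) (.e (nat_lit 24628) (nat_lit 9) (.e (nat_lit 336443) (nat_lit 32) (.e (nat_lit 466972) (nat_lit 21) (.e (nat_lit 164331) (nat_lit 230) (.e (nat_lit 163878) (nat_lit 4) (.e (nat_lit 213030) (nat_lit 11) .nil)))))) (.g (nat_lit 1) (.e (nat_lit 133989) (nat_lit 0) .nil) .nil))) 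
(.lf (nat_lit 486929) (.g (nat_lit 3294) (.e (nat_lit 24641) (nat_lit 10) (.e (nat_lit 344133) (nat_lit 26) (.e (nat_lit 557119) (nat_lit 18) (.e (nat_lit 2797) (nat_lit 180) (.e (nat_lit 303143) (nat_lit 12) (.e (nat_lit 483072) (nat_lit 2) .nil)))))) (.g (nat_lit 1) (.e (nat_lit 134683) (nat_lit 0) .nil) .nil)))) (.nd (nat_lit 9) 
(.lf (nat_lit 486673) (.g (nat_lit 3027) (.e (nat_lit 24630) (nat_lit 9) (.e (nat_lit 336454) (nat_lit 34) (.e (nat_lit 483363) (nat_lit 18) (.e (nat_lit 57853) (nat_lit 252) (.e (nat_lit 57370) (nat_lit 2) (.e (nat_lit 90158) (nat_lit 11) .nil)))))) (.g (nat_lit 1) (.e (nat_lit 134320) (nat_lit 0) .nil) .nil))) 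
(.lf (nat_lit 487185) (.g (nat_lit 3275) (.e (nat_lit 24658) (nat_lit 13) (.e (nat_lit 393229) (nat_lit 9) (.e (nat_lit 335994) (nat_lit 1) (.e (nat_lit 57848) (nat_lit 252) (.e (nat_lit 57374) (nat_lit 2) (.e (nat_lit 90158) (nat_lit 11) .nil)))))) (.g (nat_lit 1) (.e (nat_lit 135118) (nat_lit 0) .nil) .nil))))) (.nd (nat_lit 8) (.nd (nat_lit 9) 
(.lf (nat_lit 486545) (.g (nat_lit 2054) (.e (nat_lit 24629) (nat_lit 9) (.e (nat_lit 336430) (nat_lit 29) (.e (nat_lit 442419) (nat_lit 21) (.e (nat_lit 164327) (nat_lit 230) (.e (nat_lit 163877) (nat_lit 4) .nil))))) (.g (nat_lit 0) (.e (nat_lit 134120) (nat_lit 0) .nil) .nil))) 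
(.lf (nat_lit 487057) (.g (nat_lit 689) (.e (nat_lit 24654) (nat_lit 13) (.e (nat_lit 393299) (nat_lit 27) (.e (nat_lit 491554) (nat_lit 9) .nil))) (.g (nat_lit 0) (.e (nat_lit 134936) (nat_lit 0) .nil) .nil)))) (.nd (nat_lit 9) 
(.lf (nat_lit 486801) (.g (nat_lit 1017) (.e (nat_lit 24636) (nat_lit 9) (.e (nat_lit 336017) (nat_lit 3) (.e (nat_lit 106240) (nat_lit 16) (.e (nat_lit 401454) (nat_lit 12) (.e (nat_lit 483072) (nat_lit 2) .nil))))) (.g (nat_lit 1) (.e (nat_lit 134463) (nat_lit 0) .nil) .nil))) 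
(.lf (nat_lit 487313) (.g (nat_lit 954) (.e (nat_lit 24659) (nat_lit 13) (.e (nat_lit 393296) (nat_lit 26) (.e (nat_lit 475214) (nat_lit 42) .nil))) (.g (nat_lit 0) (.e (nat_lit 135265) (nat_lit 0) .nil) .nil)))))) (.nd (nat_lit 7) (.nd (nat_lit 8) (.nd (nat_lit 9) 
(.lf (nat_lit 486481) (.g (nat_lit 3268) (.e (nat_lit 24628) (nat_lit 9) (.e (nat_lit 336454) (nat_lit 34) (.e (nat_lit 483366) (nat_lit 18) (.e (nat_lit 57844) (nat_lit 252) (.e (nat_lit 57371) (nat_lit 2) (.e (nat_lit 90158) (nat_lit 11) .nil)))))) (.g (nat_lit 1) (.e (nat_lit 134053) (nat_lit 0) .nil) .nil))) 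
(.lf (nat_lit 486993) (.g (nat_lit 2557) (.e (nat_lit 24651) (nat_lit 12) (.e (nat_lit 385068) (nat_lit 26) (.e (nat_lit 532503) (nat_lit 1) (.e (nat_lit 57847) (nat_lit 252) (.e (nat_lit 57443) (nat_lit 18) (.e (nat_lit 392960) (nat_lit 10) .nil)))))) (.g (nat_lit 1) (.e (nat_lit 134818) (nat_lit 0) .nil) .nil)))) (.nd (nat_lit 9) 
(.lf (nat_lit 486737) (.g (nat_lit 2202) (.e (nat_lit 24630) (nat_lit 9) (.e (nat_lit 336456) (nat_lit 34) (.e (nat_lit 483364) (nat_lit 18) (.e (nat_lit 57851) (nat_lit 252) (.e (nat_lit 57371) (nat_lit 2) (.e (nat_lit 90156) (nat_lit 11) .nil)))))) (.g (nat_lit 1) (.e (nat_lit 134386) (nat_lit 0) .nil) .nil))) 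
(.lf (nat_lit 487249) (.g (nat_lit 3088) (.e (nat_lit 24658) (nat_lit 13) (.e (nat_lit 393281) (nat_lit 23) (.e (nat_lit 426108) (nat_lit 1) (.e (nat_lit 164330) (nat_lit 230) (.e (nat_lit 163880) (nat_lit 4) (.e (nat_lit 213030) (nat_lit 11) .nil)))))) (.g (nat_lit 1) (.e (nat_lit 135193) (nat_lit 0) .nil) .nil))))) (.nd (nat_lit 8) (.nd (nat_lit 9) 
(.lf (nat_lit 486609) (.g (nat_lit 2493) (.e (nat_lit 24630) (nat_lit 9) (.e (nat_lit 336366) (nat_lit 27) (.e (nat_lit 426499) (nat_lit 27) (.e (nat_lit 335986) (nat_lit 1) (.e (nat_lit 57849) (nat_lit 252) (.e (nat_lit 57375) (nat_lit 2) (.e (nat_lit 90158) (nat_lit 11) .nil))))))) (.g (nat_lit 1) (.e (nat_lit 134202) (nat_lit 0) .nil) .nil))) 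
(.lf (nat_lit 487121) (.g (nat_lit 3341) (.e (nat_lit 24657) (nat_lit 13) (.e (nat_lit 393229) (nat_lit 9) (.e (nat_lit 335986) (nat_lit 1) (.e (nat_lit 57847) (nat_lit 252) (.e (nat_lit 57375) (nat_lit 2) (.e (nat_lit 90159) (nat_lit 11) .nil)))))) (.g (nat_lit 1) (.e (nat_lit 135029) (nat_lit 0) .nil) .nil)))) (.nd (nat_lit 9) 
(.lf (nat_lit 486865) (.g (nat_lit 2426) (.e (nat_lit 24640) (nat_lit 10) (.e (nat_lit 344156) (nat_lit 36) (.e (nat_lit 638985) (nat_lit 5) (.e (nat_lit 3015) (nat_lit 187) (.e (nat_lit 450563) (nat_lit 0) (.e (nat_lit 5800) (nat_lit 320) (.e (nat_lit 2559) (nat_lit 159) .nil))))))) (.g (nat_lit 1) (.e (nat_lit 134605) (nat_lit 0) .nil) .nil))) 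
(.lf (nat_lit 487377) (.g (nat_lit 1857) (.e (nat_lit 24660) (nat_lit 13) (.e (nat_lit 393280) (nat_lit 23) (.e (nat_lit 426098) (nat_lit 1) (.e (nat_lit 164325) (nat_lit 230) (.e (nat_lit 163882) (nat_lit 4) (.e (nat_lit 213032) (nat_lit 11) .nil)))))) (.g (nat_lit 1) (.e (nat_lit 135347) (nat_lit 0) .nil) .nil))))))) (.nd (nat_lit 6) (.nd (nat_lit 7) (.nd (nat_lit 8) (.nd (nat_lit 9) 
(.lf (nat_lit 486449) (.g (nat_lit 3292) (.e (nat_lit 24628) (nat_lit 9) (.e (nat_lit 336454) (nat_lit 34) (.e (nat_lit 483365) (nat_lit 18) (.e (nat_lit 57846) (nat_lit 252) (.e (nat_lit 57371) (nat_lit 2) (.e (nat_lit 90158) (nat_lit 11) .nil)))))) (.g (nat_lit 1) (.e (nat_lit 134021) (nat_lit 0) .nil) .nil))) 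
(.lf (nat_lit 486961) (.g (nat_lit 571) (.e (nat_lit 24648) (nat_lit 12) (.e (nat_lit 385094) (nat_lit 49) (.e (nat_lit 778324) (nat_lit 5) .nil))) (.g (nat_lit 0) (.e (nat_lit 134751) (nat_lit 0) .nil) .nil)))) (.nd (nat_lit 9) 
(.lf (nat_lit 486705) (.g (nat_lit 2709) (.e (nat_lit 24630) (nat_lit 9) (.e (nat_lit 336454) (nat_lit 34) (.e (nat_lit 483365) (nat_lit 18) (.e (nat_lit 57848) (nat_lit 252) (.e (nat_lit 57372) (nat_lit 2) (.e (nat_lit 90158) (nat_lit 11) .nil)))))) (.g (nat_lit 1) (.e (nat_lit 134352) (nat_lit 0) .nil) .nil))) 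
(.lf (nat_lit 487217) (.g (nat_lit 2188) (.e (nat_lit 24658) (nat_lit 13) (.e (nat_lit 393281) (nat_lit 23) (.e (nat_lit 426099) (nat_lit 1) (.e (nat_lit 164305) (nat_lit 226) (.e (nat_lit 2612) (nat_lit 163) (.e (nat_lit 164042) (nat_lit 55) (.e (nat_lit 786176) (nat_lit 11) .nil))))))) (.g (nat_lit 1) (.e (nat_lit 135158) (nat_lit 0) .nil) .nil))))) (.nd (nat_lit 8) (.nd (nat_lit 9) 
(.lf (nat_lit 486577) (.g (nat_lit 3420) (.e (nat_lit 24629) (nat_lit 9) (.e (nat_lit 336454) (nat_lit 34) (.e (nat_lit 483365) (nat_lit 18) (.e (nat_lit 57848) (nat_lit 252) (.e (nat_lit 57372) (nat_lit 2) (.e (nat_lit 90159) (nat_lit 11) .nil)))))) (.g (nat_lit 1) (.e (nat_lit 134154) (nat_lit 0) .nil) .nil))) 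
(.lf (nat_lit 487089) (.g (nat_lit 3313) (.e (nat_lit 24655) (nat_lit 13) (.e (nat_lit 393281) (nat_lit 23) (.e (nat_lit 426100) (nat_lit 1) (.e (nat_lit 164332) (nat_lit 230) (.e (nat_lit 163880) (nat_lit 4) (.e (nat_lit 213032) (nat_lit 11) .nil)))))) (.g (nat_lit 1) (.e (nat_lit 134976) (nat_lit 0) .nil) .nil)))) (.nd (nat_lit 9) 
(.lf (nat_lit 486833) (.g (nat_lit 1373) (.e (nat_lit 32512) (nat_lit 9) (.e (nat_lit 336454) (nat_lit 34) (.e (nat_lit 483366) (nat_lit 18) (.e (nat_lit 57848) (nat_lit 252) .nil)))) (.g (nat_lit 0) (.e (nat_lit 134531) (nat_lit 0) .nil) .nil))) 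
(.lf (nat_lit 487345) (.g (nat_lit 806) (.e (nat_lit 24660) (nat_lit 13) (.e (nat_lit 393260) (nat_lit 21) (.e (nat_lit 409638) (nat_lit 15) .nil))) (.g (nat_lit 0) (.e (nat_lit 135314) (nat_lit 0) .nil) .nil)))))) (.nd (nat_lit 7) (.nd (nat_lit 8) (.nd (nat_lit 9) 
(.lf (nat_lit 486513) (.g (nat_lit 3065) (.e (nat_lit 24628) (nat_lit 9) (.e (nat_lit 336456) (nat_lit 34) (.e (nat_lit 483365) (nat_lit 18) (.e (nat_lit 57846) (nat_lit 252) (.e (nat_lit 57372) (nat_lit 2) (.e (nat_lit 90158) (nat_lit 11) .nil)))))) (.g (nat_lit 1) (.e (nat_lit 134085) (nat_lit 0) .nil) .nil))) 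
(.lf (nat_lit 487025) (.g (nat_lit 3819) (.e (nat_lit 24652) (nat_lit 12) (.e (nat_lit 385074) (nat_lit 31) (.e (nat_lit 573485) (nat_lit 13) (.e (nat_lit 65619) (nat_lit 10) (.e (nat_lit 344129) (nat_lit 26) (.e (nat_lit 557087) (nat_lit 11) .nil)))))) (.g (nat_lit 1) (.e (nat_lit 134868) (nat_lit 0) .nil) .nil)))) (.nd (nat_lit 9) 
(.lf (nat_lit 486769) (.g (nat_lit 4433) (.e (nat_lit 24630) (nat_lit 9) (.e (nat_lit 336456) (nat_lit 34) (.e (nat_lit 483365) (nat_lit 18) (.e (nat_lit 57854) (nat_lit 252) (.e (nat_lit 57373) (nat_lit 2) (.e (nat_lit 90160) (nat_lit 11) .nil)))))) (.g (nat_lit 1) (.e (nat_lit 134422) (nat_lit 0) .nil) .nil))) 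
(.lf (nat_lit 487281) (.g (nat_lit 2753) (.e (nat_lit 24659) (nat_lit 13) (.e (nat_lit 393271) (nat_lit 23) (.e (nat_lit 426112) (nat_lit 1) (.e (nat_lit 164327) (nat_lit 230) (.e (nat_lit 163882) (nat_lit 4) (.e (nat_lit 213030) (nat_lit 11) .nil)))))) (.g (nat_lit 1) (.e (nat_lit 135231) (nat_lit 0) .nil) .nil))))) (.nd (nat_lit 8) (.nd (nat_lit 9) 
(.lf (nat_lit 486641) (.g (nat_lit 2236) (.e (nat_lit 24630) (nat_lit 9) (.e (nat_lit 336443) (nat_lit 32) (.e (nat_lit 466969) (nat_lit 21) (.e (nat_lit 164325) (nat_lit 230) (.e (nat_lit 163879) (nat_lit 4) (.e (nat_lit 213032) (nat_lit 11) .nil)))))) (.g (nat_lit 1) (.e (nat_lit 134279) (nat_lit 0) .nil) .nil))) 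
(.lf (nat_lit 487153) (.g (nat_lit 774) (.e (nat_lit 24657) (nat_lit 13) (.e (nat_lit 393271) (nat_lit 23) (.e (nat_lit 433920) (nat_lit 20) .nil))) (.g (nat_lit 0) (.e (nat_lit 135071) (nat_lit 0) .nil) .nil)))) (.nd (nat_lit 9) 
(.lf (nat_lit 486897) (.g (nat_lit 3184) (.e (nat_lit 24640) (nat_lit 10) (.e (nat_lit 344156) (nat_lit 36) (.e (nat_lit 638998) (nat_lit 8) (.e (nat_lit 172113) (nat_lit 10) (.e (nat_lit 434203) (nat_lit 18) (.e (nat_lit 5840) (nat_lit 320) (.e (nat_lit 2551) (nat_lit 159) .nil))))))) (.g (nat_lit 1) (.e (nat_lit 134637) (nat_lit 0) .nil) .nil))) 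
(.lf (nat_lit 487409) (.g (nat_lit 1450) (.e (nat_lit 24661) (nat_lit 14) (.e (nat_lit 401454) (nat_lit 12) (.e (nat_lit 475215) (nat_lit 43) .nil))) (.g (nat_lit 0) (.e (nat_lit 135407) (nat_lit 0) .nil) .nil))))))))) (.nd (nat_lit 4) (.nd (nat_lit 5) (.nd (nat_lit 6) (.nd (nat_lit 7) (.nd (nat_lit 8) (.nd (nat_lit 9) 
(.lf (nat_lit 486409) (.g (nat_lit 2326) (.e (nat_lit 24628) (nat_lit 9) (.e (nat_lit 336443) (nat_lit 32) (.e (nat_lit 466972) (nat_lit 21) (.e (nat_lit 164330) (nat_lit 230) (.e (nat_lit 163855) (nat_lit 0) .nil))))) (.g (nat_lit 0) (.e (nat_lit 133981) (nat_lit 0) .nil) .nil))) 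
(.lf (nat_lit 486921) (.g (nat_lit 2393) (.e (nat_lit 24640) (nat_lit 10) (.e (nat_lit 344156) (nat_lit 36) (.e (nat_lit 638999) (nat_lit 8) (.e (nat_lit 172113) (nat_lit 10) (.e (nat_lit 434276) (nat_lit 39) (.e (nat_lit 663583) (nat_lit 11) .nil)))))) (.g (nat_lit 1) (.e (nat_lit 134668) (nat_lit 0) .nil) .nil)))) (.nd (nat_lit 9) 
(.lf (nat_lit 486665) (.g (nat_lit 2383) (.e (nat_lit 24630) (nat_lit 9) (.e (nat_lit 336454) (nat_lit 34) (.e (nat_lit 483363) (nat_lit 18) (.e (nat_lit 57847) (nat_lit 252) (.e (nat_lit 57371) (nat_lit 2) (.e (nat_lit 90158) (nat_lit 11) .nil)))))) (.g (nat_lit 1) (.e (nat_lit 134312) (nat_lit 0) .nil) .nil))) 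
(.lf (nat_lit 487177) (.g (nat_lit 963) (.e (nat_lit 24657) (nat_lit 13) (.e (nat_lit 393299) (nat_lit 27) (.e (nat_lit 491554) (nat_lit 9) .nil))) (.g (nat_lit 0) (.e (nat_lit 135109) (nat_lit 0) .nil) .nil))))) (.nd (nat_lit 8) (.nd (nat_lit 9) 
(.lf (nat_lit 486537) (.g (nat_lit 2331) (.e (nat_lit 24629) (nat_lit 9) (.e (nat_lit 336369) (nat_lit 27) (.e (nat_lit 426173) (nat_lit 7) (.e (nat_lit 409649) (nat_lit 18) (.e (nat_lit 303111) (nat_lit 0) (.e (nat_lit 3579) (nat_lit 223) (.e (nat_lit 745509) (nat_lit 11) .nil))))))) (.g (nat_lit 1) (.e (nat_lit 134110) (nat_lit 0) .nil) .nil))) 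
(.lf (nat_lit 487049) (.g (nat_lit 1704) (.e (nat_lit 24654) (nat_lit 13) (.e (nat_lit 393238) (nat_lit 17) (.e (nat_lit 7107) (nat_lit 380) (.e (nat_lit 164262) (nat_lit 221) .nil)))) (.g (nat_lit 0) (.e (nat_lit 134928) (nat_lit 0) .nil) .nil)))) (.nd (nat_lit 9) 
(.lf (nat_lit 486793) (.g (nat_lit 1159) (.e (nat_lit 24634) (nat_lit 9) (.e (nat_lit 336013) (nat_lit 2) (.e (nat_lit 98048) (nat_lit 2) (.e (nat_lit 16458) (nat_lit 12) (.e (nat_lit 483072) (nat_lit 2) .nil))))) (.g (nat_lit 1) (.e (nat_lit 134454) (nat_lit 0) .nil) .nil))) 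
(.lf (nat_lit 487305) (.g (nat_lit 2164) (.e (nat_lit 24659) (nat_lit 13) (.e (nat_lit 393281) (nat_lit 23) (.e (nat_lit 426108) (nat_lit 1) (.e (nat_lit 164329) (nat_lit 230) (.e (nat_lit 163878) (nat_lit 4) (.e (nat_lit 213030) (nat_lit 11) .nil)))))) (.g (nat_lit 1) (.e (nat_lit 135255) (nat_lit 0) .nil) .nil)))))) (.nd (nat_lit 7) (.nd (nat_lit 8) (.nd (nat_lit 9) 
(.lf (nat_lit 486473) (.g (nat_lit 3634) (.e (nat_lit 24628) (nat_lit 9) (.e (nat_lit 336454) (nat_lit 34) (.e (nat_lit 483365) (nat_lit 18) (.e (nat_lit 57852) (nat_lit 252) (.e (nat_lit 57373) (nat_lit 2) (.e (nat_lit 90158) (nat_lit 11) .nil)))))) (.g (nat_lit 1) (.e (nat_lit 134045) (nat_lit 0) .nil) .nil))) 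
(.lf (nat_lit 486985) (.g (nat_lit 3553) (.e (nat_lit 24650) (nat_lit 12) (.e (nat_lit 385072) (nat_lit 31) (.e (nat_lit 573484) (nat_lit 13) (.e (nat_lit 65610) (nat_lit 10) (.e (nat_lit 344129) (nat_lit 26) (.e (nat_lit 557086) (nat_lit 11) .nil)))))) (.g (nat_lit 1) (.e (nat_lit 134796) (nat_lit 0) .nil) .nil)))) (.nd (nat_lit 9) 
(.lf (nat_lit 486729) (.g (nat_lit 3929) (.e (nat_lit 24630) (nat_lit 9) (.e (nat_lit 336456) (nat_lit 34) (.e (nat_lit 483363) (nat_lit 18) (.e (nat_lit 57847) (nat_lit 252) (.e (nat_lit 57375) (nat_lit 2) (.e (nat_lit 90160) (nat_lit 11) .nil)))))) (.g (nat_lit 1) (.e (nat_lit 134378) (nat_lit 0) .nil) .nil))) 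
(.lf (nat_lit 487241) (.g (nat_lit 1952) (.e (nat_lit 24658) (nat_lit 13) (.e (nat_lit 393281) (nat_lit 23) (.e (nat_lit 426108) (nat_lit 1) (.e (nat_lit 164329) (nat_lit 230) (.e (nat_lit 163850) (nat_lit 0) .nil))))) (.g (nat_lit 0) (.e (nat_lit 135185) (nat_lit 0) .nil) .nil))))) (.nd (nat_lit 8) (.nd (nat_lit 9) 
(.lf (nat_lit 486601) (.g (nat_lit 3997) (.e (nat_lit 24630) (nat_lit 9) (.e (nat_lit 336324) (nat_lit 18) (.e (nat_lit 204831) (nat_lit 18) (.e (nat_lit 57852) (nat_lit 252) .nil)))) (.g (nat_lit 0) (.e (nat_lit 134191) (nat_lit 0) .nil) .nil))) 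
(.lf (nat_lit 487113) (.g (nat_lit 2168) (.e (nat_lit 24656) (nat_lit 13) (.e (nat_lit 393281) (nat_lit 23) (.e (nat_lit 426108) (nat_lit 1) (.e (nat_lit 164329) (nat_lit 230) (.e (nat_lit 163878) (nat_lit 4) .nil))))) (.g (nat_lit 0) (.e (nat_lit 135011) (nat_lit 0) .nil) .nil)))) (.nd (nat_lit 9) 
(.lf (nat_lit 486857) (.g (nat_lit 2534) (.e (nat_lit 24640) (nat_lit 10) (.e (nat_lit 344156) (nat_lit 36) (.e (nat_lit 638985) (nat_lit 5) (.e (nat_lit 3015) (nat_lit 187) (.e (nat_lit 450562) (nat_lit 0) (.e (nat_lit 5855) (nat_lit 320) (.e (nat_lit 2551) (nat_lit 159) .nil))))))) (.g (nat_lit 1) (.e (nat_lit 134597) (nat_lit 0) .nil) .nil))) 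
(.lf (nat_lit 487369) (.g (nat_lit 1075) (.e (nat_lit 24660) (nat_lit 13) (.e (nat_lit 393277) (nat_lit 23) (.e (nat_lit 426109) (nat_lit 1) (.e (nat_lit 164326) (nat_lit 230) (.e (nat_lit 163882) (nat_lit 4) .nil))))) (.g (nat_lit 0) (.e (nat_lit 135339) (nat_lit 0) .nil) .nil))))))) (.nd (nat_lit 6) (.nd (nat_lit 7) (.nd (nat_lit 8) (.nd (nat_lit 9) 
(.lf (nat_lit 486441) (.g (nat_lit 2335) (.e (nat_lit 24628) (nat_lit 9) (.e (nat_lit 336454) (nat_lit 34) (.e (nat_lit 483364) (nat_lit 18) (.e (nat_lit 57853) (nat_lit 252) (.e (nat_lit 57371) (nat_lit 2) .nil))))) (.g (nat_lit 0) (.e (nat_lit 134013) (nat_lit 0) .nil) .nil))) 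
(.lf (nat_lit 486953) (.g (nat_lit 2103) (.e (nat_lit 24647) (nat_lit 12) (.e (nat_lit 385105) (nat_lit 50) (.e (nat_lit 786483) (nat_lit 30) (.e (nat_lit 360451) (nat_lit 0) (.e (nat_lit 4823) (nat_lit 281) .nil))))) (.g (nat_lit 0) (.e (nat_lit 134727) (nat_lit 0) .nil) .nil)))) (.nd (nat_lit 9) 
(.lf (nat_lit 486697) (.g (nat_lit 2164) (.e (nat_lit 24630) (nat_lit 9) (.e (nat_lit 336454) (nat_lit 34) (.e (nat_lit 483365) (nat_lit 18) (.e (nat_lit 57847) (nat_lit 252) (.e (nat_lit 57371) (nat_lit 2) .nil))))) (.g (nat_lit 0) (.e (nat_lit 134344) (nat_lit 0) .nil) .nil))) 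
(.lf (nat_lit 487209) (.g (nat_lit 2419) (.e (nat_lit 24658) (nat_lit 13) (.e (nat_lit 393281) (nat_lit 23) (.e (nat_lit 426098) (nat_lit 1) (.e (nat_lit 164327) (nat_lit 230) (.e (nat_lit 163879) (nat_lit 4) (.e (nat_lit 220928) (nat_lit 11) .nil)))))) (.g (nat_lit 1) (.e (nat_lit 135149) (nat_lit 0) .nil) .nil))))) (.nd (nat_lit 8) (.nd (nat_lit 9) 
(.lf (nat_lit 486569) (.g (nat_lit 2166) (.e (nat_lit 24629) (nat_lit 9) (.e (nat_lit 336443) (nat_lit 32) (.e (nat_lit 466972) (nat_lit 21) (.e (nat_lit 164330) (nat_lit 230) (.e (nat_lit 163877) (nat_lit 4) .nil))))) (.g (nat_lit 0) (.e (nat_lit 134145) (nat_lit 0) .nil) .nil))) 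
(.lf (nat_lit 487081) (.g (nat_lit 1893) (.e (nat_lit 24655) (nat_lit 13) (.e (nat_lit 393281) (nat_lit 23) (.e (nat_lit 426100) (nat_lit 1) (.e (nat_lit 164322) (nat_lit 230) (.e (nat_lit 163878) (nat_lit 4) (.e (nat_lit 213032) (nat_lit 11) .nil)))))) (.g (nat_lit 1) (.e (nat_lit 134968) (nat_lit 0) .nil) .nil)))) (.nd (nat_lit 9) 
(.lf (nat_lit 486825) (.g (nat_lit 2025) (.e (nat_lit 24638) (nat_lit 9) (.e (nat_lit 336405) (nat_lit 27) (.e (nat_lit 426344) (nat_lit 14) (.e (nat_lit 491560) (nat_lit 10) (.e (nat_lit 344179) (nat_lit 44) (.e (nat_lit 778466) (nat_lit 11) .nil)))))) (.g (nat_lit 1) (.e (nat_lit 134523) (nat_lit 0) .nil) .nil))) 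
(.lf (nat_lit 487337) (.g (nat_lit 1538) (.e (nat_lit 24660) (nat_lit 13) (.e (nat_lit 393260) (nat_lit 21) (.e (nat_lit 409617) (nat_lit 10) (.e (nat_lit 5353) (nat_lit 298) (.e (nat_lit 1078) (nat_lit 81) .nil))))) (.g (nat_lit 0) (.e (nat_lit 135305) (nat_lit 0) .nil) .nil)))))) (.nd (nat_lit 7) (.nd (nat_lit 8) (.nd (nat_lit 9) 
(.lf (nat_lit 486505) (.g (nat_lit 3698) (.e (nat_lit 24628) (nat_lit 9) (.e (nat_lit 336456) (nat_lit 34) (.e (nat_lit 483363) (nat_lit 18) (.e (nat_lit 57854) (nat_lit 252) (.e (nat_lit 57373) (nat_lit 2) (.e (nat_lit 90158) (nat_lit 11) .nil)))))) (.g (nat_lit 1) (.e (nat_lit 134077) (nat_lit 0) .nil) .nil))) 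
(.lf (nat_lit 487017) (.g (nat_lit 1969) (.e (nat_lit 24652) (nat_lit 12) (.e (nat_lit 385073) (nat_lit 31) (.e (nat_lit 573484) (nat_lit 13) (.e (nat_lit 65617) (nat_lit 10) .nil)))) (.g (nat_lit 0) (.e (nat_lit 134860) (nat_lit 0) .nil) .nil)))) (.nd (nat_lit 9) 
(.lf (nat_lit 486761) (.g (nat_lit 4095) (.e (nat_lit 24630) (nat_lit 9) (.e (nat_lit 336456) (nat_lit 34) (.e (nat_lit 483365) (nat_lit 18) (.e (nat_lit 57849) (nat_lit 252) (.e (nat_lit 57372) (nat_lit 2) (.e (nat_lit 90160) (nat_lit 11) .nil)))))) (.g (nat_lit 1) (.e (nat_lit 134414) (nat_lit 0) .nil) .nil))) 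
(.lf (nat_lit 487273) (.g (nat_lit 3012) (.e (nat_lit 24658) (nat_lit 13) (.e (nat_lit 393301) (nat_lit 27) (.e (nat_lit 491560) (nat_lit 10) (.e (nat_lit 344096) (nat_lit 18) (.e (nat_lit 7464) (nat_lit 396) .nil))))) (.g (nat_lit 0) (.e (nat_lit 135222) (nat_lit 0) .nil) .nil))))) (.nd (nat_lit 8) (.nd (nat_lit 9) 
(.lf (nat_lit 486633) (.g (nat_lit 427) (.e (nat_lit 24630) (nat_lit 9) (.e (nat_lit 336414) (nat_lit 27) (.e (nat_lit 426503) (nat_lit 27) .nil))) (.g (nat_lit 0) (.e (nat_lit 134235) (nat_lit 0) .nil) .nil))) 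
(.lf (nat_lit 487145) (.g (nat_lit 746) (.e (nat_lit 24657) (nat_lit 13) (.e (nat_lit 393260) (nat_lit 21) (.e (nat_lit 409646) (nat_lit 18) .nil))) (.g (nat_lit 0) (.e (nat_lit 135060) (nat_lit 0) .nil) .nil)))) (.nd (nat_lit 9) 
(.lf (nat_lit 486889) (.g (nat_lit 3144) (.e (nat_lit 24640) (nat_lit 10) (.e (nat_lit 344156) (nat_lit 36) (.e (nat_lit 638998) (nat_lit 8) (.e (nat_lit 172113) (nat_lit 10) (.e (nat_lit 434203) (nat_lit 18) (.e (nat_lit 5800) (nat_lit 320) (.e (nat_lit 2552) (nat_lit 159) .nil))))))) (.g (nat_lit 1) (.e (nat_lit 134629) (nat_lit 0) .nil) .nil))) 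
(.lf (nat_lit 487401) (.g (nat_lit 4218) (.e (nat_lit 24661) (nat_lit 14) (.e (nat_lit 401428) (nat_lit 3) (.e (nat_lit 204869) (nat_lit 29) (.e (nat_lit 360474) (nat_lit 8) (.e (nat_lit 557085) (nat_lit 11) .nil))))) (.g (nat_lit 1) (.e (nat_lit 135394) (nat_lit 0) .nil) .nil)))))))) (.nd (nat_lit 5) (.nd (nat_lit 6) (.nd (nat_lit 7) (.nd (nat_lit 8) (.nd (nat_lit 9) 
(.lf (nat_lit 486425) (.g (nat_lit 2051) (.e (nat_lit 24628) (nat_lit 9) (.e (nat_lit 336450) (nat_lit 33) (.e (nat_lit 475152) (nat_lit 17) (.e (nat_lit 57814) (nat_lit 246) (.e (nat_lit 57596) (nat_lit 82) (.e (nat_lit 499900) (nat_lit 7) .nil)))))) (.g (nat_lit 1) (.e (nat_lit 133997) (nat_lit 0) .nil) .nil))) 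
(.lf (nat_lit 486937) (.g (nat_lit 3436) (.e (nat_lit 24647) (nat_lit 12) (.e (nat_lit 385068) (nat_lit 26) (.e (nat_lit 532499) (nat_lit 1) (.e (nat_lit 57847) (nat_lit 252) (.e (nat_lit 57443) (nat_lit 18) .nil))))) (.g (nat_lit 0) (.e (nat_lit 134707) (nat_lit 0) .nil) .nil)))) (.nd (nat_lit 9) 
(.lf (nat_lit 486681) (.g (nat_lit 3101) (.e (nat_lit 24630) (nat_lit 9) (.e (nat_lit 336454) (nat_lit 34) (.e (nat_lit 483364) (nat_lit 18) (.e (nat_lit 57852) (nat_lit 252) (.e (nat_lit 57371) (nat_lit 2) (.e (nat_lit 90158) (nat_lit 11) .nil)))))) (.g (nat_lit 1) (.e (nat_lit 134328) (nat_lit 0) .nil) .nil))) 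
(.lf (nat_lit 487193) (.g (nat_lit 836) (.e (nat_lit 24658) (nat_lit 13) (.e (nat_lit 393238) (nat_lit 17) (.e (nat_lit 6989) (nat_lit 377) (.e (nat_lit 7936) (nat_lit 178) .nil)))) (.g (nat_lit 0) (.e (nat_lit 135127) (nat_lit 0) .nil) .nil))))) (.nd (nat_lit 8) (.nd (nat_lit 9) 
(.lf (nat_lit 486553) (.g (nat_lit 2111) (.e (nat_lit 24629) (nat_lit 9) (.e (nat_lit 336430) (nat_lit 29) (.e (nat_lit 442421) (nat_lit 21) (.e (nat_lit 164326) (nat_lit 230) (.e (nat_lit 163882) (nat_lit 4) (.e (nat_lit 213030) (nat_lit 11) .nil)))))) (.g (nat_lit 1) (.e (nat_lit 134128) (nat_lit 0) .nil) .nil))) 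
(.lf (nat_lit 487065) (.g (nat_lit 839) (.e (nat_lit 24655) (nat_lit 13) (.e (nat_lit 393233) (nat_lit 17) (.e (nat_lit 7593) (nat_lit 407) (.e (nat_lit 81664) (nat_lit 26) .nil)))) (.g (nat_lit 0) (.e (nat_lit 134946) (nat_lit 0) .nil) .nil)))) (.nd (nat_lit 9) 
(.lf (nat_lit 486809) (.g (nat_lit 2520) (.e (nat_lit 24636) (nat_lit 9) (.e (nat_lit 336407) (nat_lit 27) (.e (nat_lit 426343) (nat_lit 14) (.e (nat_lit 491560) (nat_lit 10) (.e (nat_lit 344179) (nat_lit 44) (.e (nat_lit 778466) (nat_lit 11) .nil)))))) (.g (nat_lit 1) (.e (nat_lit 134471) (nat_lit 0) .nil) .nil))) 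
(.lf (nat_lit 487321) (.g (nat_lit 1142) (.e (nat_lit 24660) (nat_lit 13) (.e (nat_lit 393238) (nat_lit 17) (.e (nat_lit 7101) (nat_lit 380) (.e (nat_lit 164289) (nat_lit 224) .nil)))) (.g (nat_lit 0) (.e (nat_lit 135281) (nat_lit 0) .nil) .nil)))))) (.nd (nat_lit 7) (.nd (nat_lit 8) (.nd (nat_lit 9) 
(.lf (nat_lit 486489) (.g (nat_lit 3145) (.e (nat_lit 24628) (nat_lit 9) (.e (nat_lit 336454) (nat_lit 34) (.e (nat_lit 483366) (nat_lit 18) (.e (nat_lit 57847) (nat_lit 252) (.e (nat_lit 57373) (nat_lit 2) (.e (nat_lit 90158) (nat_lit 11) .nil)))))) (.g (nat_lit 1) (.e (nat_lit 134061) (nat_lit 0) .nil) .nil))) 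
(.lf (nat_lit 487001) (.g (nat_lit 1941) (.e (nat_lit 24651) (nat_lit 12) (.e (nat_lit 385073) (nat_lit 31) (.e (nat_lit 573484) (nat_lit 13) (.e (nat_lit 65610) (nat_lit 10) (.e (nat_lit 344129) (nat_lit 26) .nil))))) (.g (nat_lit 0) (.e (nat_lit 134826) (nat_lit 0) .nil) .nil)))) (.nd (nat_lit 9) 
(.lf (nat_lit 486745) (.g (nat_lit 3871) (.e (nat_lit 24630) (nat_lit 9) (.e (nat_lit 336456) (nat_lit 34) (.e (nat_lit 483364) (nat_lit 18) (.e (nat_lit 57854) (nat_lit 252) (.e (nat_lit 57373) (nat_lit 2) (.e (nat_lit 90158) (nat_lit 11) .nil)))))) (.g (nat_lit 1) (.e (nat_lit 134394) (nat_lit 0) .nil) .nil))) 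
(.lf (nat_lit 487257) (.g (nat_lit 1076) (.e (nat_lit 24658) (nat_lit 13) (.e (nat_lit 393300) (nat_lit 27) (.e (nat_lit 491555) (nat_lit 9) (.e (nat_lit 335895) (nat_lit 0) .nil)))) (.g (nat_lit 0) (.e (nat_lit 135206) (nat_lit 0) .nil) .nil))))) (.nd (nat_lit 8) (.nd (nat_lit 9) 
(.lf (nat_lit 486617) (.g (nat_lit 3107) (.e (nat_lit 24630) (nat_lit 9) (.e (nat_lit 336369) (nat_lit 27) (.e (nat_lit 426173) (nat_lit 7) (.e (nat_lit 409618) (nat_lit 10) (.e (nat_lit 5023) (nat_lit 290) (.e (nat_lit 164104) (nat_lit 116) (.e (nat_lit 778462) (nat_lit 11) .nil))))))) (.g (nat_lit 1) (.e (nat_lit 134210) (nat_lit 0) .nil) .nil))) 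
(.lf (nat_lit 487129) (.g (nat_lit 3516) (.e (nat_lit 24657) (nat_lit 13) (.e (nat_lit 393229) (nat_lit 9) (.e (nat_lit 335994) (nat_lit 1) (.e (nat_lit 57848) (nat_lit 252) (.e (nat_lit 57372) (nat_lit 2) (.e (nat_lit 90159) (nat_lit 11) .nil)))))) (.g (nat_lit 1) (.e (nat_lit 135037) (nat_lit 0) .nil) .nil)))) (.nd (nat_lit 9) 
(.lf (nat_lit 486873) (.g (nat_lit 2501) (.e (nat_lit 24640) (nat_lit 10) (.e (nat_lit 344156) (nat_lit 36) (.e (nat_lit 638998) (nat_lit 8) (.e (nat_lit 172106) (nat_lit 10) (.e (nat_lit 434202) (nat_lit 18) (.e (nat_lit 5839) (nat_lit 320) (.e (nat_lit 2551) (nat_lit 159) .nil))))))) (.g (nat_lit 1) (.e (nat_lit 134613) (nat_lit 0) .nil) .nil))) 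
(.lf (nat_lit 487385) (.g (nat_lit 3030) (.e (nat_lit 24660) (nat_lit 13) (.e (nat_lit 393281) (nat_lit 23) (.e (nat_lit 426098) (nat_lit 1) (.e (nat_lit 164332) (nat_lit 230) (.e (nat_lit 163880) (nat_lit 4) (.e (nat_lit 213030) (nat_lit 11) .nil)))))) (.g (nat_lit 1) (.e (nat_lit 135355) (nat_lit 0) .nil) .nil))))))) (.nd (nat_lit 6) (.nd (nat_lit 7) (.nd (nat_lit 8) (.nd (nat_lit 9) 
(.lf (nat_lit 486457) (.g (nat_lit 3523) (.e (nat_lit 24628) (nat_lit 9) (.e (nat_lit 336454) (nat_lit 34) (.e (nat_lit 483365) (nat_lit 18) (.e (nat_lit 57847) (nat_lit 252) (.e (nat_lit 57372) (nat_lit 2) (.e (nat_lit 90158) (nat_lit 11) .nil)))))) (.g (nat_lit 1) (.e (nat_lit 134029) (nat_lit 0) .nil) .nil))) 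
(.lf (nat_lit 486969) (.g (nat_lit 2421) (.e (nat_lit 24650) (nat_lit 12) (.e (nat_lit 385066) (nat_lit 26) (.e (nat_lit 532501) (nat_lit 1) (.e (nat_lit 57852) (nat_lit 252) (.e (nat_lit 57442) (nat_lit 18) (.e (nat_lit 392960) (nat_lit 10) .nil)))))) (.g (nat_lit 1) (.e (nat_lit 134776) (nat_lit 0) .nil) .nil)))) (.nd (nat_lit 9) 
(.lf (nat_lit 486713) (.g (nat_lit 3258) (.e (nat_lit 24630) (nat_lit 9) (.e (nat_lit 336454) (nat_lit 34) (.e (nat_lit 483365) (nat_lit 18) (.e (nat_lit 57851) (nat_lit 252) (.e (nat_lit 57371) (nat_lit 2) (.e (nat_lit 90156) (nat_lit 11) .nil)))))) (.g (nat_lit 1) (.e (nat_lit 134362) (nat_lit 0) .nil) .nil))) 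
(.lf (nat_lit 487225) (.g (nat_lit 2684) (.e (nat_lit 24658) (nat_lit 13) (.e (nat_lit 393281) (nat_lit 23) (.e (nat_lit 426100) (nat_lit 1) (.e (nat_lit 164305) (nat_lit 226) (.e (nat_lit 2612) (nat_lit 163) (.e (nat_lit 164042) (nat_lit 55) (.e (nat_lit 786176) (nat_lit 11) .nil))))))) (.g (nat_lit 1) (.e (nat_lit 135167) (nat_lit 0) .nil) .nil))))) (.nd (nat_lit 8) (.nd (nat_lit 9) 
(.lf (nat_lit 486585) (.g (nat_lit 1512) (.e (nat_lit 24629) (nat_lit 9) (.e (nat_lit 336456) (nat_lit 34) (.e (nat_lit 483365) (nat_lit 18) (.e (nat_lit 57846) (nat_lit 252) .nil)))) (.g (nat_lit 0) (.e (nat_lit 134162) (nat_lit 0) .nil) .nil))) 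
(.lf (nat_lit 487097) (.g (nat_lit 1444) (.e (nat_lit 24655) (nat_lit 13) (.e (nat_lit 393299) (nat_lit 27) (.e (nat_lit 491560) (nat_lit 10) (.e (nat_lit 352000) (nat_lit 44) .nil)))) (.g (nat_lit 0) (.e (nat_lit 134990) (nat_lit 0) .nil) .nil)))) (.nd (nat_lit 9) 
(.lf (nat_lit 486841) (.g (nat_lit 2943) (.e (nat_lit 24639) (nat_lit 10) (.e (nat_lit 344129) (nat_lit 26) (.e (nat_lit 557087) (nat_lit 11) (.e (nat_lit 24617) (nat_lit 7) (.e (nat_lit 319504) (nat_lit 10) .nil))))) (.g (nat_lit 0) (.e (nat_lit 134540) (nat_lit 0) .nil) .nil))) 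
(.lf (nat_lit 487353) (.g (nat_lit 2167) (.e (nat_lit 24660) (nat_lit 13) (.e (nat_lit 393260) (nat_lit 21) (.e (nat_lit 409649) (nat_lit 18) (.e (nat_lit 303111) (nat_lit 0) (.e (nat_lit 2429) (nat_lit 157) .nil))))) (.g (nat_lit 0) (.e (nat_lit 135322) (nat_lit 0) .nil) .nil)))))) (.nd (nat_lit 7) (.nd (nat_lit 8) (.nd (nat_lit 9) 
(.lf (nat_lit 486521) (.g (nat_lit 3445) (.e (nat_lit 24628) (nat_lit 9) (.e (nat_lit 336456) (nat_lit 34) (.e (nat_lit 483365) (nat_lit 18) (.e (nat_lit 57849) (nat_lit 252) (.e (nat_lit 57372) (nat_lit 2) (.e (nat_lit 90160) (nat_lit 11) .nil)))))) (.g (nat_lit 1) (.e (nat_lit 134094) (nat_lit 0) .nil) .nil))) 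
(.lf (nat_lit 487033) (.g (nat_lit 1874) (.e (nat_lit 24653) (nat_lit 12) (.e (nat_lit 385073) (nat_lit 31) (.e (nat_lit 573491) (nat_lit 15) (.e (nat_lit 81946) (nat_lit 20) (.e (nat_lit 1846) (nat_lit 124) .nil))))) (.g (nat_lit 0) (.e (nat_lit 134894) (nat_lit 0) .nil) .nil)))) (.nd (nat_lit 9) 
(.lf (nat_lit 486777) (.g (nat_lit 2757) (.e (nat_lit 24631) (nat_lit 9) (.e (nat_lit 336389) (nat_lit 27) (.e (nat_lit 426344) (nat_lit 14) (.e (nat_lit 491560) (nat_lit 10) (.e (nat_lit 344179) (nat_lit 44) (.e (nat_lit 778464) (nat_lit 11) .nil)))))) (.g (nat_lit 1) (.e (nat_lit 134431) (nat_lit 0) .nil) .nil))) 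
(.lf (nat_lit 487289) (.g (nat_lit 1432) (.e (nat_lit 24659) (nat_lit 13) (.e (nat_lit 393280) (nat_lit 23) (.e (nat_lit 426098) (nat_lit 1) (.e (nat_lit 164325) (nat_lit 230) (.e (nat_lit 163881) (nat_lit 4) .nil))))) (.g (nat_lit 0) (.e (nat_lit 135239) (nat_lit 0) .nil) .nil))))) (.nd (nat_lit 8) (.nd (nat_lit 9) 
(.lf (nat_lit 486649) (.g (nat_lit 3411) (.e (nat_lit 24630) (nat_lit 9) (.e (nat_lit 336443) (nat_lit 32) (.e (nat_lit 466969) (nat_lit 21) (.e (nat_lit 164332) (nat_lit 230) (.e (nat_lit 163878) (nat_lit 4) (.e (nat_lit 213030) (nat_lit 11) .nil)))))) (.g (nat_lit 1) (.e (nat_lit 134287) (nat_lit 0) .nil) .nil))) 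
(.lf (nat_lit 487161) (.g (nat_lit 3284) (.e (nat_lit 24657) (nat_lit 13) (.e (nat_lit 393281) (nat_lit 23) (.e (nat_lit 426098) (nat_lit 1) (.e (nat_lit 164332) (nat_lit 230) (.e (nat_lit 163880) (nat_lit 4) (.e (nat_lit 213032) (nat_lit 11) .nil)))))) (.g (nat_lit 1) (.e (nat_lit 135079) (nat_lit 0) .nil) .nil)))) (.nd (nat_lit 9) 
(.lf (nat_lit 486905) (.g (nat_lit 2220) (.e (nat_lit 24640) (nat_lit 10) (.e (nat_lit 344156) (nat_lit 36) (.e (nat_lit 638998) (nat_lit 8) (.e (nat_lit 172113) (nat_lit 10) (.e (nat_lit 434281) (nat_lit 40) (.e (nat_lit 671779) (nat_lit 11) .nil)))))) (.g (nat_lit 1) (.e (nat_lit 134645) (nat_lit 0) .nil) .nil))) 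
(.lf (nat_lit 487417) (.g (nat_lit 3056) (.e (nat_lit 24661) (nat_lit 14) (.e (nat_lit 401459) (nat_lit 13) (.e (nat_lit 483372) (nat_lit 21) (.e (nat_lit 319504) (nat_lit 10) (.e (nat_lit 7936) (nat_lit 314) .nil))))) (.g (nat_lit 1) (.e (nat_lit 135426) (nat_lit 0) .nil) .nil)))))))))) 
(.nd (nat_lit 3) (.nd (nat_lit 4) (.nd (nat_lit 5) (.nd (nat_lit 6) (.nd (nat_lit 7) 
(.nd (nat_lit 8) (.nd (nat_lit 9) 
(.lf (nat_lit 486405) (.g (nat_lit 2982) (.e (nat_lit 24628) (nat_lit 9) (.e (nat_lit 336443) (nat_lit 32) (.e (nat_lit 466972) (nat_lit 21) (.e (nat_lit 164330) (nat_lit 230) (.e (nat_lit 163843) (nat_lit 0) (.e (nat_lit 3653) (nat_lit 227) (.e (nat_lit 778462) (nat_lit 11) .nil))))))) (.g (nat_lit 1) (.e (nat_lit 133977) (nat_lit 0) .nil) .nil))) 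
(.lf (nat_lit 486917) (.g (nat_lit 2996) (.e (nat_lit 24640) (nat_lit 10) (.e (nat_lit 344156) (nat_lit 36) (.e (nat_lit 638998) (nat_lit 8) (.e (nat_lit 172120) (nat_lit 12) (.e (nat_lit 475157) (nat_lit 21) (.e (nat_lit 6804) (nat_lit 365) (.e (nat_lit 2551) (nat_lit 159) .nil))))))) (.g (nat_lit 1) (.e (nat_lit 134664) (nat_lit 0) .nil) .nil)))) (.nd (nat_lit 9) 
(.lf (nat_lit 486661) (.g (nat_lit 2307) (.e (nat_lit 24630) (nat_lit 9) (.e (nat_lit 336443) (nat_lit 32) (.e (nat_lit 466972) (nat_lit 21) (.e (nat_lit 164331) (nat_lit 230) (.e (nat_lit 163878) (nat_lit 4) (.e (nat_lit 213032) (nat_lit 11) .nil)))))) (.g (nat_lit 1) (.e (nat_lit 134299) (nat_lit 0) .nil) .nil))) 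
(.lf (nat_lit 487173) (.g (nat_lit 1959) (.e (nat_lit 24657) (nat_lit 13) (.e (nat_lit 393297) (nat_lit 27) (.e (nat_lit 491560) (nat_lit 10) (.e (nat_lit 344179) (nat_lit 44) (.e (nat_lit 778464) (nat_lit 11) .nil))))) (.g (nat_lit 1) (.e (nat_lit 135100) (nat_lit 0) .nil) .nil))))) (.nd (nat_lit 8) (.nd (nat_lit 9) 
(.lf (nat_lit 486533) (.g (nat_lit 4155) (.e (nat_lit 24629) (nat_lit 9) (.e (nat_lit 336324) (nat_lit 18) (.e (nat_lit 204831) (nat_lit 18) (.e (nat_lit 57847) (nat_lit 252) .nil)))) (.g (nat_lit 0) (.e (nat_lit 134106) (nat_lit 0) .nil) .nil))) 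
(.lf (nat_lit 487045) (.g (nat_lit 1933) (.e (nat_lit 24653) (nat_lit 12) (.e (nat_lit 385102) (nat_lit 50) (.e (nat_lit 786483) (nat_lit 30) (.e (nat_lit 360451) (nat_lit 0) (.e (nat_lit 4780) (nat_lit 281) (.e (nat_lit 7936) (nat_lit 159) .nil)))))) (.g (nat_lit 1) (.e (nat_lit 134922) (nat_lit 0) .nil) .nil)))) (.nd (nat_lit 9) 
(.lf (nat_lit 486789) (.g (nat_lit 1688) (.e (nat_lit 24632) (nat_lit 9) (.e (nat_lit 336412) (nat_lit 27) (.e (nat_lit 426344) (nat_lit 14) (.e (nat_lit 491560) (nat_lit 10) (.e (nat_lit 344179) (nat_lit 44) (.e (nat_lit 778466) (nat_lit 11) .nil)))))) (.g (nat_lit 1) (.e (nat_lit 134449) (nat_lit 0) .nil) .nil))) 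
(.lf (nat_lit 487301) (.g (nat_lit 1924) (.e (nat_lit 24659) (nat_lit 13) (.e (nat_lit 393281) (nat_lit 23) (.e (nat_lit 426100) (nat_lit 1) (.e (nat_lit 164322) (nat_lit 230) (.e (nat_lit 163878) (nat_lit 4) (.e (nat_lit 213030) (nat_lit 11) .nil)))))) (.g (nat_lit 1) (.e (nat_lit 135251) (nat_lit 0) .nil) .nil)))))) (.nd (nat_lit 7) (.nd (nat_lit 8) (.nd (nat_lit 9) 
(.lf (nat_lit 486469) (.g (nat_lit 3479) (.e (nat_lit 24628) (nat_lit 9) (.e (nat_lit 336454) (nat_lit 34) (.e (nat_lit 483365) (nat_lit 18) (.e (nat_lit 57851) (nat_lit 252) (.e (nat_lit 57371) (nat_lit 2) (.e (nat_lit 90158) (nat_lit 11) .nil)))))) (.g (nat_lit 1) (.e (nat_lit 134041) (nat_lit 0) .nil) .nil))) 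
(.lf (nat_lit 486981) (.g (nat_lit 3827) (.e (nat_lit 24650) (nat_lit 12) (.e (nat_lit 385072) (nat_lit 31) (.e (nat_lit 573481) (nat_lit 13) (.e (nat_lit 65619) (nat_lit 10) (.e (nat_lit 344129) (nat_lit 26) (.e (nat_lit 557085) (nat_lit 11) .nil)))))) (.g (nat_lit 1) (.e (nat_lit 134792) (nat_lit 0) .nil) .nil)))) (.nd (nat_lit 9) 
(.lf (nat_lit 486725) (.g (nat_lit 2429) (.e (nat_lit 24630) (nat_lit 9) (.e (nat_lit 336456) (nat_lit 34) (.e (nat_lit 483363) (nat_lit 18) (.e (nat_lit 57847) (nat_lit 252) (.e (nat_lit 57371) (nat_lit 2) (.e (nat_lit 90158) (nat_lit 11) .nil)))))) (.g (nat_lit 1) (.e (nat_lit 134374) (nat_lit 0) .nil) .nil))) 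
(.lf (nat_lit 487237) (.g (nat_lit 706) (.e (nat_lit 24658) (nat_lit 13) (.e (nat_lit 393281) (nat_lit 23) (.e (nat_lit 426105) (nat_lit 1) .nil))) (.g (nat_lit 0) (.e (nat_lit 135181) (nat_lit 0) .nil) .nil))))) (.nd (nat_lit 8) (.nd (nat_lit 9) 
(.lf (nat_lit 486597) (.g (nat_lit 4955) (.e (nat_lit 24630) (nat_lit 9) (.e (nat_lit 336324) (nat_lit 18) (.e (nat_lit 204831) (nat_lit 18) (.e (nat_lit 57847) (nat_lit 252) (.e (nat_lit 57440) (nat_lit 18) (.e (nat_lit 392960) (nat_lit 10) .nil)))))) (.g (nat_lit 1) (.e (nat_lit 134186) (nat_lit 0) .nil) .nil))) 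
(.lf (nat_lit 487109) (.g (nat_lit 1167) (.e (nat_lit 24656) (nat_lit 13) (.e (nat_lit 393271) (nat_lit 23) (.e (nat_lit 426446) (nat_lit 20) .nil))) (.g (nat_lit 0) (.e (nat_lit 135007) (nat_lit 0) .nil) .nil)))) (.nd (nat_lit 9) 
(.lf (nat_lit 486853) (.g (nat_lit 2647) (.e (nat_lit 24640) (nat_lit 10) (.e (nat_lit 344156) (nat_lit 36) (.e (nat_lit 638985) (nat_lit 5) (.e (nat_lit 3015) (nat_lit 187) (.e (nat_lit 450562) (nat_lit 0) (.e (nat_lit 5811) (nat_lit 320) (.e (nat_lit 2559) (nat_lit 159) .nil))))))) (.g (nat_lit 1) (.e (nat_lit 134593) (nat_lit 0) .nil) .nil))) 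
(.lf (nat_lit 487365) (.g (nat_lit 1371) (.e (nat_lit 24660) (nat_lit 13) (.e (nat_lit 393274) (nat_lit 23) (.e (nat_lit 426097) (nat_lit 1) (.e (nat_lit 164326) (nat_lit 230) (.e (nat_lit 163881) (nat_lit 4) (.e (nat_lit 213032) (nat_lit 11) .nil)))))) (.g (nat_lit 1) (.e (nat_lit 135335) (nat_lit 0) .nil) .nil))))))) (.nd (nat_lit 6) (.nd (nat_lit 7) (.nd (nat_lit 8) (.nd (nat_lit 9) 
(.lf (nat_lit 486437) (.g (nat_lit 3372) (.e (nat_lit 24628) (nat_lit 9) (.e (nat_lit 336454) (nat_lit 34) (.e (nat_lit 483363) (nat_lit 18) (.e (nat_lit 57854) (nat_lit 252) (.e (nat_lit 57371) (nat_lit 2) (.e (nat_lit 90158) (nat_lit 11) .nil)))))) (.g (nat_lit 1) (.e (nat_lit 134009) (nat_lit 0) .nil) .nil))) 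
(.lf (nat_lit 486949) (.g (nat_lit 2100) (.e (nat_lit 24647) (nat_lit 12) (.e (nat_lit 385105) (nat_lit 50) (.e (nat_lit 786483) (nat_lit 30) (.e (nat_lit 360450) (nat_lit 0) (.e (nat_lit 4766) (nat_lit 281) .nil))))) (.g (nat_lit 0) (.e (nat_lit 134723) (nat_lit 0) .nil) .nil)))) (.nd (nat_lit 9) 
(.lf (nat_lit 486693) (.g (nat_lit 3468) (.e (nat_lit 24630) (nat_lit 9) (.e (nat_lit 336454) (nat_lit 34) (.e (nat_lit 483365) (nat_lit 18) (.e (nat_lit 57846) (nat_lit 252) (.e (nat_lit 57372) (nat_lit 2) (.e (nat_lit 90158) (nat_lit 11) .nil)))))) (.g (nat_lit 1) (.e (nat_lit 134340) (nat_lit 0) .nil) .nil))) 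
(.lf (nat_lit 487205) (.g (nat_lit 2094) (.e (nat_lit 24658) (nat_lit 13) (.e (nat_lit 393281) (nat_lit 23) (.e (nat_lit 426098) (nat_lit 1) (.e (nat_lit 164325) (nat_lit 230) (.e (nat_lit 163880) (nat_lit 4) .nil))))) (.g (nat_lit 0) (.e (nat_lit 135145) (nat_lit 0) .nil) .nil))))) (.nd (nat_lit 8) (.nd (nat_lit 9) 
(.lf (nat_lit 486565) (.g (nat_lit 3294) (.e (nat_lit 24629) (nat_lit 9) (.e (nat_lit 336443) (nat_lit 32) (.e (nat_lit 466969) (nat_lit 21) (.e (nat_lit 164332) (nat_lit 230) (.e (nat_lit 163878) (nat_lit 4) (.e (nat_lit 213030) (nat_lit 11) .nil)))))) (.g (nat_lit 1) (.e (nat_lit 134141) (nat_lit 0) .nil) .nil))) 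
(.lf (nat_lit 487077) (.g (nat_lit 1912) (.e (nat_lit 24655) (nat_lit 13) (.e (nat_lit 393281) (nat_lit 23) (.e (nat_lit 426099) (nat_lit 1) (.e (nat_lit 164330) (nat_lit 230) (.e (nat_lit 163878) (nat_lit 4) (.e (nat_lit 213032) (nat_lit 11) .nil)))))) (.g (nat_lit 1) (.e (nat_lit 134964) (nat_lit 0) .nil) .nil)))) (.nd (nat_lit 9) 
(.lf (nat_lit 486821) (.g (nat_lit 2482) (.e (nat_lit 24638) (nat_lit 9) (.e (nat_lit 336387) (nat_lit 27) (.e (nat_lit 426011) (nat_lit 0) (.e (nat_lit 7593) (nat_lit 407) (.e (nat_lit 73775) (nat_lit 26) (.e (nat_lit 778466) (nat_lit 11) .nil)))))) (.g (nat_lit 1) (.e (nat_lit 134519) (nat_lit 0) .nil) .nil))) 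
(.lf (nat_lit 487333) (.g (nat_lit 3134) (.e (nat_lit 24660) (nat_lit 13) (.e (nat_lit 393260) (nat_lit 21) (.e (nat_lit 409616) (nat_lit 10) (.e (nat_lit 5016) (nat_lit 290) (.e (nat_lit 164108) (nat_lit 116) (.e (nat_lit 786176) (nat_lit 11) .nil)))))) (.g (nat_lit 1) (.e (nat_lit 135301) (nat_lit 0) .nil) .nil)))))) (.nd (nat_lit 7) (.nd (nat_lit 8) (.nd (nat_lit 9) 
(.lf (nat_lit 486501) (.g (nat_lit 2407) (.e (nat_lit 24628) (nat_lit 9) (.e (nat_lit 336456) (nat_lit 34) (.e (nat_lit 483362) (nat_lit 18) (.e (nat_lit 57849) (nat_lit 252) (.e (nat_lit 57375) (nat_lit 2) (.e (nat_lit 90158) (nat_lit 11) .nil)))))) (.g (nat_lit 1) (.e (nat_lit 134073) (nat_lit 0) .nil) .nil))) 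
(.lf (nat_lit 487013) (.g (nat_lit 2563) (.e (nat_lit 24651) (nat_lit 12) (.e (nat_lit 385106) (nat_lit 50) (.e (nat_lit 786483) (nat_lit 30) (.e (nat_lit 360450) (nat_lit 0) (.e (nat_lit 4825) (nat_lit 281) .nil))))) (.g (nat_lit 0) (.e (nat_lit 134854) (nat_lit 0) .nil) .nil)))) (.nd (nat_lit 9) 
(.lf (nat_lit 486757) (.g (nat_lit 3134) (.e (nat_lit 24630) (nat_lit 9) (.e (nat_lit 336456) (nat_lit 34) (.e (nat_lit 483365) (nat_lit 18) (.e (nat_lit 57848) (nat_lit 252) (.e (nat_lit 57372) (nat_lit 2) (.e (nat_lit 90156) (nat_lit 11) .nil)))))) (.g (nat_lit 1) (.e (nat_lit 134406) (nat_lit 0) .nil) .nil))) 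
(.lf (nat_lit 487269) (.g (nat_lit 1869) (.e (nat_lit 24658) (nat_lit 13) (.e (nat_lit 393301) (nat_lit 27) (.e (nat_lit 491559) (nat_lit 10) (.e (nat_lit 344096) (nat_lit 18) .nil)))) (.g (nat_lit 0) (.e (nat_lit 135218) (nat_lit 0) .nil) .nil))))) (.nd (nat_lit 8) (.nd (nat_lit 9) 
(.lf (nat_lit 486629) (.g (nat_lit 3301) (.e (nat_lit 24630) (nat_lit 9) (.e (nat_lit 336369) (nat_lit 27) (.e (nat_lit 426501) (nat_lit 27) (.e (nat_lit 335996) (nat_lit 1) (.e (nat_lit 57851) (nat_lit 252) (.e (nat_lit 57371) (nat_lit 2) (.e (nat_lit 90156) (nat_lit 11) .nil))))))) (.g (nat_lit 1) (.e (nat_lit 134228) (nat_lit 0) .nil) .nil))) 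
(.lf (nat_lit 487141) (.g (nat_lit 971) (.e (nat_lit 24657) (nat_lit 13) (.e (nat_lit 393253) (nat_lit 18) (.e (nat_lit 164427) (nat_lit 278) (.e (nat_lit 2555) (nat_lit 159) .nil)))) (.g (nat_lit 0) (.e (nat_lit 135055) (nat_lit 0) .nil) .nil)))) (.nd (nat_lit 9) 
(.lf (nat_lit 486885) (.g (nat_lit 3013) (.e (nat_lit 24640) (nat_lit 10) (.e (nat_lit 344156) (nat_lit 36) (.e (nat_lit 638998) (nat_lit 8) (.e (nat_lit 172113) (nat_lit 10) (.e (nat_lit 434203) (nat_lit 18) (.e (nat_lit 5797) (nat_lit 320) (.e (nat_lit 2558) (nat_lit 159) .nil))))))) (.g (nat_lit 1) (.e (nat_lit 134625) (nat_lit 0) .nil) .nil))) 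
(.lf (nat_lit 487397) (.g (nat_lit 703) (.e (nat_lit 24660) (nat_lit 13) (.e (nat_lit 393299) (nat_lit 27) (.e (nat_lit 491558) (nat_lit 10) .nil))) (.g (nat_lit 0) (.e (nat_lit 135382) (nat_lit 0) .nil) .nil)))))))) (.nd (nat_lit 5) (.nd (nat_lit 6) (.nd (nat_lit 7) (.nd (nat_lit 8) (.nd (nat_lit 9) 
(.lf (nat_lit 486421) (.g (nat_lit 3477) (.e (nat_lit 24628) (nat_lit 9) (.e (nat_lit 336443) (nat_lit 32) (.e (nat_lit 466972) (nat_lit 21) (.e (nat_lit 164332) (nat_lit 230) (.e (nat_lit 163878) (nat_lit 4) (.e (nat_lit 213030) (nat_lit 11) .nil)))))) (.g (nat_lit 1) (.e (nat_lit 133993) (nat_lit 0) .nil) .nil))) 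
(.lf (nat_lit 486933) (.g (nat_lit 747) (.e (nat_lit 24643) (nat_lit 11) (.e (nat_lit 368676) (nat_lit 21) (.e (nat_lit 516098) (nat_lit 0) (.e (nat_lit 7591) (nat_lit 407) .nil)))) (.g (nat_lit 0) (.e (nat_lit 134692) (nat_lit 0) .nil) .nil)))) (.nd (nat_lit 9) 
(.lf (nat_lit 486677) (.g (nat_lit 3551) (.e (nat_lit 24630) (nat_lit 9) (.e (nat_lit 336454) (nat_lit 34) (.e (nat_lit 483363) (nat_lit 18) (.e (nat_lit 57854) (nat_lit 252) (.e (nat_lit 57371) (nat_lit 2) (.e (nat_lit 90160) (nat_lit 11) .nil)))))) (.g (nat_lit 1) (.e (nat_lit 134324) (nat_lit 0) .nil) .nil))) 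
(.lf (nat_lit 487189) (.g (nat_lit 1380) (.e (nat_lit 24658) (nat_lit 13) (.e (nat_lit 393234) (nat_lit 17) (.e (nat_lit 7587) (nat_lit 406) (.e (nat_lit 65540) (nat_lit 0) .nil)))) (.g (nat_lit 0) (.e (nat_lit 135123) (nat_lit 0) .nil) .nil))))) (.nd (nat_lit 8) (.nd (nat_lit 9) 
(.lf (nat_lit 486549) (.g (nat_lit 2110) (.e (nat_lit 24629) (nat_lit 9) (.e (nat_lit 336430) (nat_lit 29) (.e (nat_lit 442419) (nat_lit 21) (.e (nat_lit 164327) (nat_lit 230) (.e (nat_lit 163882) (nat_lit 4) (.e (nat_lit 213032) (nat_lit 11) .nil)))))) (.g (nat_lit 1) (.e (nat_lit 134124) (nat_lit 0) .nil) .nil))) 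
(.lf (nat_lit 487061) (.g (nat_lit 1511) (.e (nat_lit 24655) (nat_lit 13) (.e (nat_lit 393225) (nat_lit 9) (.e (nat_lit 335986) (nat_lit 1) (.e (nat_lit 57847) (nat_lit 252) (.e (nat_lit 57374) (nat_lit 2) .nil))))) (.g (nat_lit 0) (.e (nat_lit 134941) (nat_lit 0) .nil) .nil)))) (.nd (nat_lit 9) 
(.lf (nat_lit 486805) (.g (nat_lit 3060) (.e (nat_lit 24636) (nat_lit 9) (.e (nat_lit 336390) (nat_lit 27) (.e (nat_lit 426344) (nat_lit 14) (.e (nat_lit 491560) (nat_lit 10) (.e (nat_lit 344179) (nat_lit 44) (.e (nat_lit 778465) (nat_lit 11) .nil)))))) (.g (nat_lit 1) (.e (nat_lit 134467) (nat_lit 0) .nil) .nil))) 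
(.lf (nat_lit 487317) (.g (nat_lit 2279) (.e (nat_lit 24659) (nat_lit 13) (.e (nat_lit 393301) (nat_lit 27) (.e (nat_lit 491559) (nat_lit 10) (.e (nat_lit 344098) (nat_lit 18) .nil)))) (.g (nat_lit 0) (.e (nat_lit 135269) (nat_lit 0) .nil) .nil)))))) (.nd (nat_lit 7) (.nd (nat_lit 8) (.nd (nat_lit 9) 
(.lf (nat_lit 486485) (.g (nat_lit 3113) (.e (nat_lit 24628) (nat_lit 9) (.e (nat_lit 336454) (nat_lit 34) (.e (nat_lit 483366) (nat_lit 18) (.e (nat_lit 57846) (nat_lit 252) (.e (nat_lit 57372) (nat_lit 2) (.e (nat_lit 90158) (nat_lit 11) .nil)))))) (.g (nat_lit 1) (.e (nat_lit 134057) (nat_lit 0) .nil) .nil))) 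
(.lf (nat_lit 486997) (.g (nat_lit 4529) (.e (nat_lit 24651) (nat_lit 12) (.e (nat_lit 385072) (nat_lit 31) (.e (nat_lit 573482) (nat_lit 13) (.e (nat_lit 65619) (nat_lit 10) (.e (nat_lit 344129) (nat_lit 26) (.e (nat_lit 557087) (nat_lit 11) .nil)))))) (.g (nat_lit 1) (.e (nat_lit 134822) (nat_lit 0) .nil) .nil)))) (.nd (nat_lit 9) 
(.lf (nat_lit 486741) (.g (nat_lit 2596) (.e (nat_lit 24630) (nat_lit 9) (.e (nat_lit 336456) (nat_lit 34) (.e (nat_lit 483364) (nat_lit 18) (.e (nat_lit 57853) (nat_lit 252) (.e (nat_lit 57370) (nat_lit 2) (.e (nat_lit 90158) (nat_lit 11) .nil)))))) (.g (nat_lit 1) (.e (nat_lit 134390) (nat_lit 0) .nil) .nil))) 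
(.lf (nat_lit 487253) (.g (nat_lit 849) (.e (nat_lit 24658) (nat_lit 13) (.e (nat_lit 393298) (nat_lit 27) (.e (nat_lit 491552) (nat_lit 9) .nil))) (.g (nat_lit 0) (.e (nat_lit 135202) (nat_lit 0) .nil) .nil))))) (.nd (nat_lit 8) (.nd (nat_lit 9) 
(.lf (nat_lit 486613) (.g (nat_lit 2221) (.e (nat_lit 24630) (nat_lit 9) (.e (nat_lit 336370) (nat_lit 27) (.e (nat_lit 426499) (nat_lit 27) (.e (nat_lit 335986) (nat_lit 1) (.e (nat_lit 57849) (nat_lit 252) (.e (nat_lit 57375) (nat_lit 2) (.e (nat_lit 90158) (nat_lit 11) .nil))))))) (.g (nat_lit 1) (.e (nat_lit 134206) (nat_lit 0) .nil) .nil))) 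
(.lf (nat_lit 487125) (.g (nat_lit 3503) (.e (nat_lit 24657) (nat_lit 13) (.e (nat_lit 393229) (nat_lit 9) (.e (nat_lit 335986) (nat_lit 1) (.e (nat_lit 57849) (nat_lit 252) (.e (nat_lit 57375) (nat_lit 2) (.e (nat_lit 90157) (nat_lit 11) .nil)))))) (.g (nat_lit 1) (.e (nat_lit 135033) (nat_lit 0) .nil) .nil)))) (.nd (nat_lit 9) 
(.lf (nat_lit 486869) (.g (nat_lit 2755) (.e (nat_lit 24640) (nat_lit 10) (.e (nat_lit 344156) (nat_lit 36) (.e (nat_lit 638985) (nat_lit 5) (.e (nat_lit 3022) (nat_lit 187) (.e (nat_lit 450598) (nat_lit 18) (.e (nat_lit 671779) (nat_lit 11) .nil)))))) (.g (nat_lit 1) (.e (nat_lit 134609) (nat_lit 0) .nil) .nil))) 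
(.lf (nat_lit 487381) (.g (nat_lit 2634) (.e (nat_lit 24660) (nat_lit 13) (.e (nat_lit 393281) (nat_lit 23) (.e (nat_lit 426098) (nat_lit 1) (.e (nat_lit 164325) (nat_lit 230) (.e (nat_lit 163882) (nat_lit 4) (.e (nat_lit 213032) (nat_lit 11) .nil)))))) (.g (nat_lit 1) (.e (nat_lit 135351) (nat_lit 0) .nil) .nil))))))) (.nd (nat_lit 6) (.nd (nat_lit 7) (.nd (nat_lit 8) (.nd (nat_lit 9) 
(.lf (nat_lit 486453) (.g (nat_lit 2585) (.e (nat_lit 24628) (nat_lit 9) (.e (nat_lit 336454) (nat_lit 34) (.e (nat_lit 483365) (nat_lit 18) (.e (nat_lit 57846) (nat_lit 252) (.e (nat_lit 57375) (nat_lit 2) (.e (nat_lit 90158) (nat_lit 11) .nil)))))) (.g (nat_lit 1) (.e (nat_lit 134025) (nat_lit 0) .nil) .nil))) 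
(.lf (nat_lit 486965) (.g (nat_lit 3404) (.e (nat_lit 24649) (nat_lit 12) (.e (nat_lit 385073) (nat_lit 31) (.e (nat_lit 573485) (nat_lit 13) (.e (nat_lit 65619) (nat_lit 10) (.e (nat_lit 344129) (nat_lit 26) (.e (nat_lit 557087) (nat_lit 11) .nil)))))) (.g (nat_lit 1) (.e (nat_lit 134763) (nat_lit 0) .nil) .nil)))) (.nd (nat_lit 9) 
(.lf (nat_lit 486709) (.g (nat_lit 4006) (.e (nat_lit 24630) (nat_lit 9) (.e (nat_lit 336454) (nat_lit 34) (.e (nat_lit 483365) (nat_lit 18) (.e (nat_lit 57849) (nat_lit 252) (.e (nat_lit 57372) (nat_lit 2) (.e (nat_lit 90160) (nat_lit 11) .nil)))))) (.g (nat_lit 1) (.e (nat_lit 134358) (nat_lit 0) .nil) .nil))) 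
(.lf (nat_lit 487221) (.g (nat_lit 2329) (.e (nat_lit 24658) (nat_lit 13) (.e (nat_lit 393281) (nat_lit 23) (.e (nat_lit 426099) (nat_lit 1) (.e (nat_lit 164332) (nat_lit 230) (.e (nat_lit 163843) (nat_lit 0) (.e (nat_lit 3651) (nat_lit 227) (.e (nat_lit 778462) (nat_lit 11) .nil))))))) (.g (nat_lit 1) (.e (nat_lit 135162) (nat_lit 0) .nil) .nil))))) (.nd (nat_lit 8) (.nd (nat_lit 9) 
(.lf (nat_lit 486581) (.g (nat_lit 676) (.e (nat_lit 24629) (nat_lit 9) (.e (nat_lit 336456) (nat_lit 34) (.e (nat_lit 483364) (nat_lit 18) .nil))) (.g (nat_lit 0) (.e (nat_lit 134158) (nat_lit 0) .nil) .nil))) 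
(.lf (nat_lit 487093) (.g (nat_lit 2500) (.e (nat_lit 24655) (nat_lit 13) (.e (nat_lit 393281) (nat_lit 23) (.e (nat_lit 426108) (nat_lit 1) (.e (nat_lit 164330) (nat_lit 230) (.e (nat_lit 163880) (nat_lit 4) (.e (nat_lit 213030) (nat_lit 11) .nil)))))) (.g (nat_lit 1) (.e (nat_lit 134980) (nat_lit 0) .nil) .nil)))) (.nd (nat_lit 9) 
(.lf (nat_lit 486837) (.g (nat_lit 1712) (.e (nat_lit 32512) (nat_lit 9) (.e (nat_lit 336456) (nat_lit 34) (.e (nat_lit 483365) (nat_lit 18) (.e (nat_lit 57847) (nat_lit 252) (.e (nat_lit 57375) (nat_lit 2) .nil))))) (.g (nat_lit 0) (.e (nat_lit 134535) (nat_lit 0) .nil) .nil))) 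
(.lf (nat_lit 487349) (.g (nat_lit 1176) (.e (nat_lit 24660) (nat_lit 13) (.e (nat_lit 393260) (nat_lit 21) (.e (nat_lit 409648) (nat_lit 18) (.e (nat_lit 303104) (nat_lit 0) (.e (nat_lit 3583) (nat_lit 223) .nil))))) (.g (nat_lit 0) (.e (nat_lit 135318) (nat_lit 0) .nil) .nil)))))) (.nd (nat_lit 7) (.nd (nat_lit 8) (.nd (nat_lit 9) 
(.lf (nat_lit 486517) (.g (nat_lit 3166) (.e (nat_lit 24628) (nat_lit 9) (.e (nat_lit 336456) (nat_lit 34) (.e (nat_lit 483365) (nat_lit 18) (.e (nat_lit 57847) (nat_lit 252) (.e (nat_lit 57370) (nat_lit 2) (.e (nat_lit 90158) (nat_lit 11) .nil)))))) (.g (nat_lit 1) (.e (nat_lit 134089) (nat_lit 0) .nil) .nil))) 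
(.lf (nat_lit 487029) (.g (nat_lit 2405) (.e (nat_lit 24653) (nat_lit 12) (.e (nat_lit 385068) (nat_lit 26) (.e (nat_lit 532503) (nat_lit 1) (.e (nat_lit 57847) (nat_lit 252) (.e (nat_lit 57443) (nat_lit 18) .nil))))) (.g (nat_lit 0) (.e (nat_lit 134887) (nat_lit 0) .nil) .nil)))) (.nd (nat_lit 9) 
(.lf (nat_lit 486773) (.g (nat_lit 2250) (.e (nat_lit 24631) (nat_lit 9) (.e (nat_lit 336295) (nat_lit 15) (.e (nat_lit 3305) (nat_lit 202) (.e (nat_lit 573484) (nat_lit 13) (.e (nat_lit 65617) (nat_lit 10) (.e (nat_lit 344130) (nat_lit 26) (.e (nat_lit 557086) (nat_lit 11) .nil))))))) (.g (nat_lit 1) (.e (nat_lit 134427) (nat_lit 0) .nil) .nil))) 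
(.lf (nat_lit 487285) (.g (nat_lit 1097) (.e (nat_lit 24659) (nat_lit 13) (.e (nat_lit 393275) (nat_lit 23) (.e (nat_lit 426109) (nat_lit 1) (.e (nat_lit 164326) (nat_lit 230) (.e (nat_lit 163882) (nat_lit 4) .nil))))) (.g (nat_lit 0) (.e (nat_lit 135235) (nat_lit 0) .nil) .nil))))) (.nd (nat_lit 8) (.nd (nat_lit 9) 
(.lf (nat_lit 486645) (.g (nat_lit 2397) (.e (nat_lit 24630) (nat_lit 9) (.e (nat_lit 336443) (nat_lit 32) (.e (nat_lit 466969) (nat_lit 21) (.e (nat_lit 164327) (nat_lit 230) (.e (nat_lit 163879) (nat_lit 4) (.e (nat_lit 213032) (nat_lit 11) .nil)))))) (.g (nat_lit 1) (.e (nat_lit 134283) (nat_lit 0) .nil) .nil))) 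
(.lf (nat_lit 487157) (.g (nat_lit 1810) (.e (nat_lit 24657) (nat_lit 13) (.e (nat_lit 393281) (nat_lit 23) (.e (nat_lit 426098) (nat_lit 1) (.e (nat_lit 164327) (nat_lit 230) (.e (nat_lit 163879) (nat_lit 4) (.e (nat_lit 213030) (nat_lit 11) .nil)))))) (.g (nat_lit 1) (.e (nat_lit 135075) (nat_lit 0) .nil) .nil)))) (.nd (nat_lit 9) 
(.lf (nat_lit 486901) (.g (nat_lit 2359) (.e (nat_lit 24640) (nat_lit 10) (.e (nat_lit 344156) (nat_lit 36) (.e (nat_lit 638998) (nat_lit 8) (.e (nat_lit 172113) (nat_lit 10) (.e (nat_lit 434208) (nat_lit 18) (.e (nat_lit 5796) (nat_lit 320) (.e (nat_lit 2552) (nat_lit 159) .nil))))))) (.g (nat_lit 1) (.e (nat_lit 134641) (nat_lit 0) .nil) .nil))) 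
(.lf (nat_lit 487413) (.g (nat_lit 3464) (.e (nat_lit 24661) (nat_lit 14) (.e (nat_lit 401459) (nat_lit 13) (.e (nat_lit 483372) (nat_lit 21) (.e (nat_lit 319500) (nat_lit 10) .nil)))) (.g (nat_lit 0) (.e (nat_lit 135422) (nat_lit 0) .nil) .nil))))))))) (.nd (nat_lit 4) (.nd (nat_lit 5) (.nd (nat_lit 6) (.nd (nat_lit 7) (.nd (nat_lit 8) (.nd (nat_lit 9) 
(.lf (nat_lit 486413) (.g (nat_lit 3252) (.e (nat_lit 24628) (nat_lit 9) (.e (nat_lit 336443) (nat_lit 32) (.e (nat_lit 466972) (nat_lit 21) (.e (nat_lit 164330) (nat_lit 230) (.e (nat_lit 163878) (nat_lit 4) (.e (nat_lit 213032) (nat_lit 11) .nil)))))) (.g (nat_lit 1) (.e (nat_lit 133985) (nat_lit 0) .nil) .nil))) 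
(.lf (nat_lit 486925) (.g (nat_lit 1509) (.e (nat_lit 24640) (nat_lit 10) (.e (nat_lit 344177) (nat_lit 43) (.e (nat_lit 770072) (nat_lit 8) (.e (nat_lit 65598) (nat_lit 9) .nil)))) (.g (nat_lit 0) (.e (nat_lit 134675) (nat_lit 0) .nil) .nil)))) (.nd (nat_lit 9) 
(.lf (nat_lit 486669) (.g (nat_lit 3298) (.e (nat_lit 24630) (nat_lit 9) (.e (nat_lit 336454) (nat_lit 34) (.e (nat_lit 483363) (nat_lit 18) (.e (nat_lit 57847) (nat_lit 252) (.e (nat_lit 57375) (nat_lit 2) (.e (nat_lit 90158) (nat_lit 11) .nil)))))) (.g (nat_lit 1) (.e (nat_lit 134316) (nat_lit 0) .nil) .nil))) 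
(.lf (nat_lit 487181) (.g (nat_lit 1573) (.e (nat_lit 24657) (nat_lit 13) (.e (nat_lit 393299) (nat_lit 27) (.e (nat_lit 491560) (nat_lit 10) (.e (nat_lit 352000) (nat_lit 44) .nil)))) (.g (nat_lit 0) (.e (nat_lit 135114) (nat_lit 0) .nil) .nil))))) (.nd (nat_lit 8) (.nd (nat_lit 9) 
(.lf (nat_lit 486541) (.g (nat_lit 1637) (.e (nat_lit 24629) (nat_lit 9) (.e (nat_lit 336430) (nat_lit 29) (.e (nat_lit 442419) (nat_lit 21) (.e (nat_lit 164326) (nat_lit 230) (.e (nat_lit 163879) (nat_lit 4) .nil))))) (.g (nat_lit 0) (.e (nat_lit 134116) (nat_lit 0) .nil) .nil))) 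
(.lf (nat_lit 487053) (.g (nat_lit 1953) (.e (nat_lit 24654) (nat_lit 13) (.e (nat_lit 393281) (nat_lit 23) (.e (nat_lit 426100) (nat_lit 1) (.e (nat_lit 164332) (nat_lit 230) (.e (nat_lit 163880) (nat_lit 4) (.e (nat_lit 213030) (nat_lit 11) .nil)))))) (.g (nat_lit 1) (.e (nat_lit 134932) (nat_lit 0) .nil) .nil)))) (.nd (nat_lit 9) 
(.lf (nat_lit 486797) (.g (nat_lit 1207) (.e (nat_lit 24634) (nat_lit 9) (.e (nat_lit 336028) (nat_lit 3) (.e (nat_lit 106240) (nat_lit 16) (.e (nat_lit 401454) (nat_lit 12) (.e (nat_lit 483072) (nat_lit 2) .nil))))) (.g (nat_lit 1) (.e (nat_lit 134458) (nat_lit 0) .nil) .nil))) 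
(.lf (nat_lit 487309) (.g (nat_lit 1648) (.e (nat_lit 24659) (nat_lit 13) (.e (nat_lit 393282) (nat_lit 24) (.e (nat_lit 434209) (nat_lit 18) (.e (nat_lit 5224) (nat_lit 296) (.e (nat_lit 163881) (nat_lit 4) .nil))))) (.g (nat_lit 0) (.e (nat_lit 135259) (nat_lit 0) .nil) .nil)))))) (.nd (nat_lit 7) (.nd (nat_lit 8) (.nd (nat_lit 9) 
(.lf (nat_lit 486477) (.g (nat_lit 3461) (.e (nat_lit 24628) (nat_lit 9) (.e (nat_lit 336454) (nat_lit 34) (.e (nat_lit 483365) (nat_lit 18) (.e (nat_lit 57854) (nat_lit 252) (.e (nat_lit 57370) (nat_lit 2) (.e (nat_lit 90158) (nat_lit 11) .nil)))))) (.g (nat_lit 1) (.e (nat_lit 134049) (nat_lit 0) .nil) .nil))) 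
(.lf (nat_lit 486989) (.g (nat_lit 2223) (.e (nat_lit 24650) (nat_lit 12) (.e (nat_lit 385074) (nat_lit 31) (.e (nat_lit 573484) (nat_lit 13) (.e (nat_lit 65610) (nat_lit 10) (.e (nat_lit 344129) (nat_lit 26) (.e (nat_lit 557085) (nat_lit 11) .nil)))))) (.g (nat_lit 1) (.e (nat_lit 134805) (nat_lit 0) .nil) .nil)))) (.nd (nat_lit 9) 
(.lf (nat_lit 486733) (.g (nat_lit 2547) (.e (nat_lit 24630) (nat_lit 9) (.e (nat_lit 336456) (nat_lit 34) (.e (nat_lit 483363) (nat_lit 18) (.e (nat_lit 57854) (nat_lit 252) (.e (nat_lit 57371) (nat_lit 2) (.e (nat_lit 90156) (nat_lit 11) .nil)))))) (.g (nat_lit 1) (.e (nat_lit 134382) (nat_lit 0) .nil) .nil))) 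
(.lf (nat_lit 487245) (.g (nat_lit 1967) (.e (nat_lit 24658) (nat_lit 13) (.e (nat_lit 393281) (nat_lit 23) (.e (nat_lit 426108) (nat_lit 1) (.e (nat_lit 164330) (nat_lit 230) (.e (nat_lit 163857) (nat_lit 0) .nil))))) (.g (nat_lit 0) (.e (nat_lit 135189) (nat_lit 0) .nil) .nil))))) (.nd (nat_lit 8) (.nd (nat_lit 9) 
(.lf (nat_lit 486605) (.g (nat_lit 4307) (.e (nat_lit 24630) (nat_lit 9) (.e (nat_lit 336324) (nat_lit 18) (.e (nat_lit 204831) (nat_lit 18) (.e (nat_lit 57854) (nat_lit 252) (.e (nat_lit 57440) (nat_lit 18) .nil))))) (.g (nat_lit 0) (.e (nat_lit 134196) (nat_lit 0) .nil) .nil))) 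
(.lf (nat_lit 487117) (.g (nat_lit 1998) (.e (nat_lit 24657) (nat_lit 13) (.e (nat_lit 393229) (nat_lit 9) (.e (nat_lit 335892) (nat_lit 0) (.e (nat_lit 1095) (nat_lit 81) .nil)))) (.g (nat_lit 0) (.e (nat_lit 135022) (nat_lit 0) .nil) .nil)))) (.nd (nat_lit 9) 
(.lf (nat_lit 486861) (.g (nat_lit 3304) (.e (nat_lit 24640) (nat_lit 10) (.e (nat_lit 344156) (nat_lit 36) (.e (nat_lit 638985) (nat_lit 5) (.e (nat_lit 3015) (nat_lit 187) (.e (nat_lit 450563) (nat_lit 0) (.e (nat_lit 5796) (nat_lit 320) (.e (nat_lit 2559) (nat_lit 159) .nil))))))) (.g (nat_lit 1) (.e (nat_lit 134601) (nat_lit 0) .nil) .nil))) 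
(.lf (nat_lit 487373) (.g (nat_lit 1836) (.e (nat_lit 24660) (nat_lit 13) (.e (nat_lit 393280) (nat_lit 23) (.e (nat_lit 426098) (nat_lit 1) (.e (nat_lit 164325) (nat_lit 230) (.e (nat_lit 163879) (nat_lit 4) .nil))))) (.g (nat_lit 0) (.e (nat_lit 135343) (nat_lit 0) .nil) .nil))))))) (.nd (nat_lit 6) (.nd (nat_lit 7) (.nd (nat_lit 8) (.nd (nat_lit 9) 
(.lf (nat_lit 486445) (.g (nat_lit 3891) (.e (nat_lit 24628) (nat_lit 9) (.e (nat_lit 336454) (nat_lit 34) (.e (nat_lit 483365) (nat_lit 18) (.e (nat_lit 57830) (nat_lit 250) (.e (nat_lit 999) (nat_lit 81) .nil))))) (.g (nat_lit 0) (.e (nat_lit 134017) (nat_lit 0) .nil) .nil))) 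
(.lf (nat_lit 486957) (.g (nat_lit 2600) (.e (nat_lit 24648) (nat_lit 12) (.e (nat_lit 385072) (nat_lit 31) (.e (nat_lit 573484) (nat_lit 13) (.e (nat_lit 65610) (nat_lit 10) (.e (nat_lit 344129) (nat_lit 26) (.e (nat_lit 557085) (nat_lit 11) .nil)))))) (.g (nat_lit 1) (.e (nat_lit 134738) (nat_lit 0) .nil) .nil)))) (.nd (nat_lit 9) 
(.lf (nat_lit 486701) (.g (nat_lit 3321) (.e (nat_lit 24630) (nat_lit 9) (.e (nat_lit 336454) (nat_lit 34) (.e (nat_lit 483365) (nat_lit 18) (.e (nat_lit 57847) (nat_lit 252) (.e (nat_lit 57375) (nat_lit 2) (.e (nat_lit 90158) (nat_lit 11) .nil)))))) (.g (nat_lit 1) (.e (nat_lit 134348) (nat_lit 0) .nil) .nil))) 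
(.lf (nat_lit 487213) (.g (nat_lit 3763) (.e (nat_lit 24658) (nat_lit 13) (.e (nat_lit 393281) (nat_lit 23) (.e (nat_lit 426098) (nat_lit 1) (.e (nat_lit 164332) (nat_lit 230) (.e (nat_lit 163880) (nat_lit 4) (.e (nat_lit 213032) (nat_lit 11) .nil)))))) (.g (nat_lit 1) (.e (nat_lit 135153) (nat_lit 0) .nil) .nil))))) (.nd (nat_lit 8) (.nd (nat_lit 9) 
(.lf (nat_lit 486573) (.g (nat_lit 3366) (.e (nat_lit 24629) (nat_lit 9) (.e (nat_lit 336443) (nat_lit 32) (.e (nat_lit 466972) (nat_lit 21) (.e (nat_lit 164332) (nat_lit 230) (.e (nat_lit 163878) (nat_lit 4) (.e (nat_lit 213030) (nat_lit 11) .nil)))))) (.g (nat_lit 1) (.e (nat_lit 134149) (nat_lit 0) .nil) .nil))) 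
(.lf (nat_lit 487085) (.g (nat_lit 2305) (.e (nat_lit 24655) (nat_lit 13) (.e (nat_lit 393281) (nat_lit 23) (.e (nat_lit 426100) (nat_lit 1) (.e (nat_lit 164330) (nat_lit 230) (.e (nat_lit 163880) (nat_lit 4) (.e (nat_lit 213030) (nat_lit 11) .nil)))))) (.g (nat_lit 1) (.e (nat_lit 134972) (nat_lit 0) .nil) .nil)))) (.nd (nat_lit 9) 
(.lf (nat_lit 486829) (.g (nat_lit 1000) (.e (nat_lit 32512) (nat_lit 9) (.e (nat_lit 336407) (nat_lit 27) (.e (nat_lit 426343) (nat_lit 14) (.e (nat_lit 491560) (nat_lit 10) .nil)))) (.g (nat_lit 0) (.e (nat_lit 134527) (nat_lit 0) .nil) .nil))) 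
(.lf (nat_lit 487341) (.g (nat_lit 1683) (.e (nat_lit 24660) (nat_lit 13) (.e (nat_lit 393260) (nat_lit 21) (.e (nat_lit 409618) (nat_lit 10) (.e (nat_lit 5032) (nat_lit 290) .nil)))) (.g (nat_lit 0) (.e (nat_lit 135309) (nat_lit 0) .nil) .nil)))))) (.nd (nat_lit 7) (.nd (nat_lit 8) (.nd (nat_lit 9) 
(.lf (nat_lit 486509) (.g (nat_lit 3635) (.e (nat_lit 24628) (nat_lit 9) (.e (nat_lit 336456) (nat_lit 34) (.e (nat_lit 483364) (nat_lit 18) (.e (nat_lit 57854) (nat_lit 252) (.e (nat_lit 57373) (nat_lit 2) (.e (nat_lit 90158) (nat_lit 11) .nil)))))) (.g (nat_lit 1) (.e (nat_lit 134081) (nat_lit 0) .nil) .nil))) 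
(.lf (nat_lit 487021) (.g (nat_lit 4305) (.e (nat_lit 24652) (nat_lit 12) (.e (nat_lit 385074) (nat_lit 31) (.e (nat_lit 573484) (nat_lit 13) (.e (nat_lit 65617) (nat_lit 10) (.e (nat_lit 344130) (nat_lit 26) (.e (nat_lit 557087) (nat_lit 11) .nil)))))) (.g (nat_lit 1) (.e (nat_lit 134864) (nat_lit 0) .nil) .nil)))) (.nd (nat_lit 9) 
(.lf (nat_lit 486765) (.g (nat_lit 3215) (.e (nat_lit 24630) (nat_lit 9) (.e (nat_lit 336456) (nat_lit 34) (.e (nat_lit 483365) (nat_lit 18) (.e (nat_lit 57852) (nat_lit 252) (.e (nat_lit 57373) (nat_lit 2) (.e (nat_lit 90158) (nat_lit 11) .nil)))))) (.g (nat_lit 1) (.e (nat_lit 134418) (nat_lit 0) .nil) .nil))) 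
(.lf (nat_lit 487277) (.g (nat_lit 685) (.e (nat_lit 24659) (nat_lit 13) (.e (nat_lit 393260) (nat_lit 21) (.e (nat_lit 409649) (nat_lit 18) .nil))) (.g (nat_lit 0) (.e (nat_lit 135227) (nat_lit 0) .nil) .nil))))) (.nd (nat_lit 8) (.nd (nat_lit 9) 
(.lf (nat_lit 486637) (.g (nat_lit 2999) (.e (nat_lit 24630) (nat_lit 9) (.e (nat_lit 336414) (nat_lit 27) (.e (nat_lit 426503) (nat_lit 27) (.e (nat_lit 335986) (nat_lit 1) (.e (nat_lit 57847) (nat_lit 252) (.e (nat_lit 57375) (nat_lit 2) (.e (nat_lit 90158) (nat_lit 11) .nil))))))) (.g (nat_lit 1) (.e (nat_lit 134239) (nat_lit 0) .nil) .nil))) 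
(.lf (nat_lit 487149) (.g (nat_lit 941) (.e (nat_lit 24657) (nat_lit 13) (.e (nat_lit 393271) (nat_lit 23) (.e (nat_lit 426111) (nat_lit 1) (.e (nat_lit 164326) (nat_lit 230) .nil)))) (.g (nat_lit 0) (.e (nat_lit 135066) (nat_lit 0) .nil) .nil)))) (.nd (nat_lit 9) 
(.lf (nat_lit 486893) (.g (nat_lit 3237) (.e (nat_lit 24640) (nat_lit 10) (.e (nat_lit 344156) (nat_lit 36) (.e (nat_lit 638998) (nat_lit 8) (.e (nat_lit 172113) (nat_lit 10) (.e (nat_lit 434203) (nat_lit 18) (.e (nat_lit 5811) (nat_lit 320) (.e (nat_lit 2553) (nat_lit 159) .nil))))))) (.g (nat_lit 1) (.e (nat_lit 134633) (nat_lit 0) .nil) .nil))) 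
(.lf (nat_lit 487405) (.g (nat_lit 4601) (.e (nat_lit 24661) (nat_lit 14) (.e (nat_lit 401454) (nat_lit 12) (.e (nat_lit 475209) (nat_lit 41) (.e (nat_lit 712732) (nat_lit 20) (.e (nat_lit 221219) (nat_lit 24) (.e (nat_lit 213032) (nat_lit 11) .nil)))))) (.g (nat_lit 1) (.e (nat_lit 135403) (nat_lit 0) .nil) .nil)))))))) 
(.nd (nat_lit 5) (.nd (nat_lit 6) (.nd (nat_lit 7) (.nd (nat_lit 8) (.nd (nat_lit 9) 
(.lf (nat_lit 486429) (.g (nat_lit 1762) (.e (nat_lit 24628) (nat_lit 9) (.e (nat_lit 336454) (nat_lit 34) (.e (nat_lit 483363) (nat_lit 18) (.e (nat_lit 57845) (nat_lit 252) .nil)))) (.g (nat_lit 0) (.e (nat_lit 134001) (nat_lit 0) .nil) .nil))) 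
(.lf (nat_lit 486941) (.g (nat_lit 2277) (.e (nat_lit 24647) (nat_lit 12) (.e (nat_lit 385074) (nat_lit 31) (.e (nat_lit 573484) (nat_lit 13) (.e (nat_lit 65609) (nat_lit 10) .nil)))) (.g (nat_lit 0) (.e (nat_lit 134711) (nat_lit 0) .nil) .nil)))) (.nd (nat_lit 9) 
(.lf (nat_lit 486685) (.g (nat_lit 3122) (.e (nat_lit 24630) (nat_lit 9) (.e (nat_lit 336454) (nat_lit 34) (.e (nat_lit 483364) (nat_lit 18) (.e (nat_lit 57854) (nat_lit 252) (.e (nat_lit 57371) (nat_lit 2) (.e (nat_lit 90158) (nat_lit 11) .nil)))))) (.g (nat_lit 1) (.e (nat_lit 134332) (nat_lit 0) .nil) .nil))) 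
(.lf (nat_lit 487197) (.g (nat_lit 288) (.e (nat_lit 24658) (nat_lit 13) (.e (nat_lit 393259) (nat_lit 21) (.e (nat_lit 409636) (nat_lit 14) .nil))) (.g (nat_lit 0) (.e (nat_lit 135135) (nat_lit 0) .nil) .nil))))) (.nd (nat_lit 8) (.nd (nat_lit 9) 
(.lf (nat_lit 486557) (.g (nat_lit 1851) (.e (nat_lit 24629) (nat_lit 9) (.e (nat_lit 336430) (nat_lit 29) (.e (nat_lit 442421) (nat_lit 21) (.e (nat_lit 164327) (nat_lit 230) (.e (nat_lit 163881) (nat_lit 4) (.e (nat_lit 213032) (nat_lit 11) .nil)))))) (.g (nat_lit 1) (.e (nat_lit 134132) (nat_lit 0) .nil) .nil))) 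
(.lf (nat_lit 487069) (.g (nat_lit 2216) (.e (nat_lit 24655) (nat_lit 13) (.e (nat_lit 393281) (nat_lit 23) (.e (nat_lit 426098) (nat_lit 1) (.e (nat_lit 164325) (nat_lit 230) (.e (nat_lit 163880) (nat_lit 4) .nil))))) (.g (nat_lit 0) (.e (nat_lit 134956) (nat_lit 0) .nil) .nil)))) (.nd (nat_lit 9) 
(.lf (nat_lit 486813) (.g (nat_lit 1217) (.e (nat_lit 24637) (nat_lit 9) (.e (nat_lit 336021) (nat_lit 3) (.e (nat_lit 106240) (nat_lit 16) (.e (nat_lit 401454) (nat_lit 12) (.e (nat_lit 483072) (nat_lit 2) .nil))))) (.g (nat_lit 1) (.e (nat_lit 134477) (nat_lit 0) .nil) .nil))) 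
(.lf (nat_lit 487325) (.g (nat_lit 2255) (.e (nat_lit 24660) (nat_lit 13) (.e (nat_lit 393238) (nat_lit 17) (.e (nat_lit 7107) (nat_lit 380) (.e (nat_lit 164284) (nat_lit 224) (.e (nat_lit 164108) (nat_lit 116) (.e (nat_lit 786176) (nat_lit 11) .nil)))))) (.g (nat_lit 1) (.e (nat_lit 135285) (nat_lit 0) .nil) .nil)))))) (.nd (nat_lit 7) (.nd (nat_lit 8) (.nd (nat_lit 9) 
(.lf (nat_lit 486493) (.g (nat_lit 3418) (.e (nat_lit 24628) (nat_lit 9) (.e (nat_lit 336454) (nat_lit 34) (.e (nat_lit 483366) (nat_lit 18) (.e (nat_lit 57848) (nat_lit 252) (.e (nat_lit 57374) (nat_lit 2) (.e (nat_lit 90158) (nat_lit 11) .nil)))))) (.g (nat_lit 1) (.e (nat_lit 134065) (nat_lit 0) .nil) .nil))) 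
(.lf (nat_lit 487005) (.g (nat_lit 506) (.e (nat_lit 24651) (nat_lit 12) (.e (nat_lit 385094) (nat_lit 49) (.e (nat_lit 778323) (nat_lit 5) .nil))) (.g (nat_lit 0) (.e (nat_lit 134842) (nat_lit 0) .nil) .nil)))) (.nd (nat_lit 9) 
(.lf (nat_lit 486749) (.g (nat_lit 3287) (.e (nat_lit 24630) (nat_lit 9) (.e (nat_lit 336456) (nat_lit 34) (.e (nat_lit 483365) (nat_lit 18) (.e (nat_lit 57846) (nat_lit 252) (.e (nat_lit 57371) (nat_lit 2) (.e (nat_lit 90158) (nat_lit 11) .nil)))))) (.g (nat_lit 1) (.e (nat_lit 134398) (nat_lit 0) .nil) .nil))) 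
(.lf (nat_lit 487261) (.g (nat_lit 1287) (.e (nat_lit 24658) (nat_lit 13) (.e (nat_lit 393301) (nat_lit 27) (.e (nat_lit 491552) (nat_lit 9) (.e (nat_lit 335901) (nat_lit 0) .nil)))) (.g (nat_lit 0) (.e (nat_lit 135210) (nat_lit 0) .nil) .nil))))) (.nd (nat_lit 8) (.nd (nat_lit 9) 
(.lf (nat_lit 486621) (.g (nat_lit 2958) (.e (nat_lit 24630) (nat_lit 9) (.e (nat_lit 336369) (nat_lit 27) (.e (nat_lit 426497) (nat_lit 27) (.e (nat_lit 335988) (nat_lit 1) (.e (nat_lit 57854) (nat_lit 252) (.e (nat_lit 57371) (nat_lit 2) (.e (nat_lit 90160) (nat_lit 11) .nil))))))) (.g (nat_lit 1) (.e (nat_lit 134220) (nat_lit 0) .nil) .nil))) 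
(.lf (nat_lit 487133) (.g (nat_lit 2001) (.e (nat_lit 24657) (nat_lit 13) (.e (nat_lit 393229) (nat_lit 9) (.e (nat_lit 335996) (nat_lit 1) (.e (nat_lit 57852) (nat_lit 252) (.e (nat_lit 57370) (nat_lit 2) .nil))))) (.g (nat_lit 0) (.e (nat_lit 135041) (nat_lit 0) .nil) .nil)))) (.nd (nat_lit 9) 
(.lf (nat_lit 486877) (.g (nat_lit 3389) (.e (nat_lit 24640) (nat_lit 10) (.e (nat_lit 344156) (nat_lit 36) (.e (nat_lit 638998) (nat_lit 8) (.e (nat_lit 172106) (nat_lit 10) (.e (nat_lit 434209) (nat_lit 18) (.e (nat_lit 5851) (nat_lit 320) (.e (nat_lit 2551) (nat_lit 159) .nil))))))) (.g (nat_lit 1) (.e (nat_lit 134617) (nat_lit 0) .nil) .nil))) 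
(.lf (nat_lit 487389) (.g (nat_lit 2037) (.e (nat_lit 24660) (nat_lit 13) (.e (nat_lit 393281) (nat_lit 23) (.e (nat_lit 426108) (nat_lit 1) (.e (nat_lit 164329) (nat_lit 230) (.e (nat_lit 163878) (nat_lit 4) .nil))))) (.g (nat_lit 0) (.e (nat_lit 135359) (nat_lit 0) .nil) .nil))))))) (.nd (nat_lit 6) (.nd (nat_lit 7) (.nd (nat_lit 8) (.nd (nat_lit 9) 
(.lf (nat_lit 486461) (.g (nat_lit 3067) (.e (nat_lit 24628) (nat_lit 9) (.e (nat_lit 336454) (nat_lit 34) (.e (nat_lit 483365) (nat_lit 18) (.e (nat_lit 57848) (nat_lit 252) (.e (nat_lit 57372) (nat_lit 2) (.e (nat_lit 90158) (nat_lit 11) .nil)))))) (.g (nat_lit 1) (.e (nat_lit 134033) (nat_lit 0) .nil) .nil))) 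
(.lf (nat_lit 486973) (.g (nat_lit 3900) (.e (nat_lit 24650) (nat_lit 12) (.e (nat_lit 385068) (nat_lit 26) (.e (nat_lit 532499) (nat_lit 1) (.e (nat_lit 57847) (nat_lit 252) (.e (nat_lit 57443) (nat_lit 18) (.e (nat_lit 392960) (nat_lit 10) .nil)))))) (.g (nat_lit 1) (.e (nat_lit 134780) (nat_lit 0) .nil) .nil)))) (.nd (nat_lit 9) 
(.lf (nat_lit 486717) (.g (nat_lit 3517) (.e (nat_lit 24630) (nat_lit 9) (.e (nat_lit 336454) (nat_lit 34) (.e (nat_lit 483365) (nat_lit 18) (.e (nat_lit 57852) (nat_lit 252) (.e (nat_lit 57373) (nat_lit 2) (.e (nat_lit 90158) (nat_lit 11) .nil)))))) (.g (nat_lit 1) (.e (nat_lit 134366) (nat_lit 0) .nil) .nil))) 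
(.lf (nat_lit 487229) (.g (nat_lit 2254) (.e (nat_lit 24658) (nat_lit 13) (.e (nat_lit 393281) (nat_lit 23) (.e (nat_lit 426100) (nat_lit 1) (.e (nat_lit 164330) (nat_lit 230) (.e (nat_lit 163850) (nat_lit 0) .nil))))) (.g (nat_lit 0) (.e (nat_lit 135172) (nat_lit 0) .nil) .nil))))) (.nd (nat_lit 8) (.nd (nat_lit 9) 
(.lf (nat_lit 486589) (.g (nat_lit 2154) (.e (nat_lit 24629) (nat_lit 9) (.e (nat_lit 336456) (nat_lit 34) (.e (nat_lit 483365) (nat_lit 18) (.e (nat_lit 57853) (nat_lit 252) (.e (nat_lit 57371) (nat_lit 2) .nil))))) (.g (nat_lit 0) (.e (nat_lit 134167) (nat_lit 0) .nil) .nil))) 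
(.lf (nat_lit 487101) (.g (nat_lit 2476) (.e (nat_lit 24655) (nat_lit 13) (.e (nat_lit 393301) (nat_lit 27) (.e (nat_lit 491559) (nat_lit 10) (.e (nat_lit 352000) (nat_lit 44) .nil)))) (.g (nat_lit 0) (.e (nat_lit 134998) (nat_lit 0) .nil) .nil)))) (.nd (nat_lit 9) 
(.lf (nat_lit 486845) (.g (nat_lit 2634) (.e (nat_lit 24640) (nat_lit 10) (.e (nat_lit 344156) (nat_lit 36) (.e (nat_lit 638985) (nat_lit 5) (.e (nat_lit 3015) (nat_lit 187) (.e (nat_lit 450562) (nat_lit 0) (.e (nat_lit 5796) (nat_lit 320) (.e (nat_lit 2552) (nat_lit 159) .nil))))))) (.g (nat_lit 1) (.e (nat_lit 134585) (nat_lit 0) .nil) .nil))) 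
(.lf (nat_lit 487357) (.g (nat_lit 665) (.e (nat_lit 24660) (nat_lit 13) (.e (nat_lit 393263) (nat_lit 22) (.e (nat_lit 417817) (nat_lit 10) (.e (nat_lit 5024) (nat_lit 290) .nil)))) (.g (nat_lit 0) (.e (nat_lit 135327) (nat_lit 0) .nil) .nil)))))) (.nd (nat_lit 7) (.nd (nat_lit 8) (.nd (nat_lit 9) 
(.lf (nat_lit 486525) (.g (nat_lit 2723) (.e (nat_lit 24628) (nat_lit 9) (.e (nat_lit 336456) (nat_lit 34) (.e (nat_lit 483365) (nat_lit 18) (.e (nat_lit 57851) (nat_lit 252) (.e (nat_lit 57371) (nat_lit 2) (.e (nat_lit 90160) (nat_lit 11) .nil)))))) (.g (nat_lit 1) (.e (nat_lit 134098) (nat_lit 0) .nil) .nil))) 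
(.lf (nat_lit 487037) (.g (nat_lit 2077) (.e (nat_lit 24653) (nat_lit 12) (.e (nat_lit 385074) (nat_lit 31) (.e (nat_lit 573491) (nat_lit 15) (.e (nat_lit 81946) (nat_lit 20) (.e (nat_lit 1846) (nat_lit 124) .nil))))) (.g (nat_lit 0) (.e (nat_lit 134908) (nat_lit 0) .nil) .nil)))) (.nd (nat_lit 9) 
(.lf (nat_lit 486781) (.g (nat_lit 1568) (.e (nat_lit 24631) (nat_lit 9) (.e (nat_lit 336417) (nat_lit 27) (.e (nat_lit 426342) (nat_lit 14) (.e (nat_lit 491560) (nat_lit 10) (.e (nat_lit 344179) (nat_lit 44) (.e (nat_lit 778466) (nat_lit 11) .nil)))))) (.g (nat_lit 1) (.e (nat_lit 134436) (nat_lit 0) .nil) .nil))) 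
(.lf (nat_lit 487293) (.g (nat_lit 1996) (.e (nat_lit 24659) (nat_lit 13) (.e (nat_lit 393281) (nat_lit 23) (.e (nat_lit 426098) (nat_lit 1) (.e (nat_lit 164325) (nat_lit 230) (.e (nat_lit 163879) (nat_lit 4) (.e (nat_lit 213032) (nat_lit 11) .nil)))))) (.g (nat_lit 1) (.e (nat_lit 135243) (nat_lit 0) .nil) .nil))))) (.nd (nat_lit 8) (.nd (nat_lit 9) 
(.lf (nat_lit 486653) (.g (nat_lit 2340) (.e (nat_lit 24630) (nat_lit 9) (.e (nat_lit 336443) (nat_lit 32) (.e (nat_lit 466971) (nat_lit 21) (.e (nat_lit 164327) (nat_lit 230) (.e (nat_lit 163879) (nat_lit 4) (.e (nat_lit 213032) (nat_lit 11) .nil)))))) (.g (nat_lit 1) (.e (nat_lit 134291) (nat_lit 0) .nil) .nil))) 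
(.lf (nat_lit 487165) (.g (nat_lit 2129) (.e (nat_lit 24657) (nat_lit 13) (.e (nat_lit 393281) (nat_lit 23) (.e (nat_lit 426100) (nat_lit 1) (.e (nat_lit 164330) (nat_lit 230) (.e (nat_lit 163880) (nat_lit 4) (.e (nat_lit 213030) (nat_lit 11) .nil)))))) (.g (nat_lit 1) (.e (nat_lit 135083) (nat_lit 0) .nil) .nil)))) (.nd (nat_lit 9) 
(.lf (nat_lit 486909) (.g (nat_lit 2459) (.e (nat_lit 24640) (nat_lit 10) (.e (nat_lit 344156) (nat_lit 36) (.e (nat_lit 638998) (nat_lit 8) (.e (nat_lit 172115) (nat_lit 10) (.e (nat_lit 434202) (nat_lit 18) (.e (nat_lit 5796) (nat_lit 320) (.e (nat_lit 2559) (nat_lit 159) .nil))))))) (.g (nat_lit 1) (.e (nat_lit 134649) (nat_lit 0) .nil) .nil))) 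
(.lf (nat_lit 487421) (.g (nat_lit 3512) (.e (nat_lit 24661) (nat_lit 14) (.e (nat_lit 401459) (nat_lit 13) (.e (nat_lit 483372) (nat_lit 21) (.e (nat_lit 319513) (nat_lit 10) .nil)))) (.g (nat_lit 0) (.e (nat_lit 135430) (nat_lit 0) .nil) .nil))))))))))) (.nd (nat_lit 2) (.nd (nat_lit 3) (.nd (nat_lit 4) (.nd (nat_lit 5) (.nd (nat_lit 6) (.nd (nat_lit 7) (.nd (nat_lit 8) (.nd (nat_lit 9) 
(.lf (nat_lit 486403) (.g (nat_lit 2495) (.e (nat_lit 24628) (nat_lit 9) (.e (nat_lit 336443) (nat_lit 32) (.e (nat_lit 466972) (nat_lit 21) (.e (nat_lit 164330) (nat_lit 230) (.e (nat_lit 163841) (nat_lit 0) .nil))))) (.g (nat_lit 0) (.e (nat_lit 133975) (nat_lit 0) .nil) .nil))) 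
(.lf (nat_lit 486915) (.g (nat_lit 1849) (.e (nat_lit 24640) (nat_lit 10) (.e (nat_lit 344156) (nat_lit 36) (.e (nat_lit 638998) (nat_lit 8) (.e (nat_lit 172120) (nat_lit 12) (.e (nat_lit 475156) (nat_lit 21) (.e (nat_lit 6811) (nat_lit 365) (.e (nat_lit 2551) (nat_lit 159) .nil))))))) (.g (nat_lit 1) (.e (nat_lit 134659) (nat_lit 0) .nil) .nil)))) (.nd (nat_lit 9) 
(.lf (nat_lit 486659) (.g (nat_lit 2533) (.e (nat_lit 24630) (nat_lit 9) (.e (nat_lit 336443) (nat_lit 32) (.e (nat_lit 466972) (nat_lit 21) (.e (nat_lit 164330) (nat_lit 230) (.e (nat_lit 163878) (nat_lit 4) (.e (nat_lit 213032) (nat_lit 11) .nil)))))) (.g (nat_lit 1) (.e (nat_lit 134297) (nat_lit 0) .nil) .nil))) 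
(.lf (nat_lit 487171) (.g (nat_lit 1275) (.e (nat_lit 24657) (nat_lit 13) (.e (nat_lit 393297) (nat_lit 27) (.e (nat_lit 491550) (nat_lit 9) (.e (nat_lit 336045) (nat_lit 6) .nil)))) (.g (nat_lit 0) (.e (nat_lit 135098) (nat_lit 0) .nil) .nil))))) (.nd (nat_lit 8) (.nd (nat_lit 9) 
(.lf (nat_lit 486531) (.g (nat_lit 588) (.e (nat_lit 24629) (nat_lit 9) (.e (nat_lit 336324) (nat_lit 18) (.e (nat_lit 204831) (nat_lit 18) .nil))) (.g (nat_lit 0) (.e (nat_lit 134104) (nat_lit 0) .nil) .nil))) 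
(.lf (nat_lit 487043) (.g (nat_lit 1459) (.e (nat_lit 24653) (nat_lit 12) (.e (nat_lit 385102) (nat_lit 50) (.e (nat_lit 786483) (nat_lit 30) (.e (nat_lit 360451) (nat_lit 0) (.e (nat_lit 4764) (nat_lit 281) (.e (nat_lit 2554) (nat_lit 159) .nil)))))) (.g (nat_lit 1) (.e (nat_lit 134920) (nat_lit 0) .nil) .nil)))) (.nd (nat_lit 9) 
(.lf (nat_lit 486787) (.g (nat_lit 1691) (.e (nat_lit 24632) (nat_lit 9) (.e (nat_lit 336386) (nat_lit 27) (.e (nat_lit 426342) (nat_lit 14) (.e (nat_lit 491560) (nat_lit 10) (.e (nat_lit 344179) (nat_lit 44) (.e (nat_lit 778466) (nat_lit 11) .nil)))))) (.g (nat_lit 1) (.e (nat_lit 134447) (nat_lit 0) .nil) .nil))) 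
(.lf (nat_lit 487299) (.g (nat_lit 2016) (.e (nat_lit 24659) (nat_lit 13) (.e (nat_lit 393281) (nat_lit 23) (.e (nat_lit 426099) (nat_lit 1) (.e (nat_lit 164330) (nat_lit 230) (.e (nat_lit 163878) (nat_lit 4) (.e (nat_lit 213030) (nat_lit 11) .nil)))))) (.g (nat_lit 1) (.e (nat_lit 135249) (nat_lit 0) .nil) .nil)))))) (.nd (nat_lit 7) (.nd (nat_lit 8) (.nd (nat_lit 9) 
(.lf (nat_lit 486467) (.g (nat_lit 3846) (.e (nat_lit 24628) (nat_lit 9) (.e (nat_lit 336454) (nat_lit 34) (.e (nat_lit 483365) (nat_lit 18) (.e (nat_lit 57850) (nat_lit 252) .nil)))) (.g (nat_lit 0) (.e (nat_lit 134039) (nat_lit 0) .nil) .nil))) 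
(.lf (nat_lit 486979) (.g (nat_lit 2235) (.e (nat_lit 24650) (nat_lit 12) (.e (nat_lit 385068) (nat_lit 26) (.e (nat_lit 532504) (nat_lit 1) (.e (nat_lit 57854) (nat_lit 252) (.e (nat_lit 57440) (nat_lit 18) .nil))))) (.g (nat_lit 0) (.e (nat_lit 134788) (nat_lit 0) .nil) .nil)))) (.nd (nat_lit 9) 
(.lf (nat_lit 486723) (.g (nat_lit 2849) (.e (nat_lit 24630) (nat_lit 9) (.e (nat_lit 336454) (nat_lit 34) (.e (nat_lit 483366) (nat_lit 18) (.e (nat_lit 57848) (nat_lit 252) (.e (nat_lit 57372) (nat_lit 2) (.e (nat_lit 90160) (nat_lit 11) .nil)))))) (.g (nat_lit 1) (.e (nat_lit 134372) (nat_lit 0) .nil) .nil))) 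
(.lf (nat_lit 487235) (.g (nat_lit 2070) (.e (nat_lit 24658) (nat_lit 13) (.e (nat_lit 393281) (nat_lit 23) (.e (nat_lit 426100) (nat_lit 1) (.e (nat_lit 164332) (nat_lit 230) (.e (nat_lit 163878) (nat_lit 4) (.e (nat_lit 220928) (nat_lit 11) .nil)))))) (.g (nat_lit 1) (.e (nat_lit 135179) (nat_lit 0) .nil) .nil))))) (.nd (nat_lit 8) (.nd (nat_lit 9) 
(.lf (nat_lit 486595) (.g (nat_lit 2591) (.e (nat_lit 24630) (nat_lit 9) (.e (nat_lit 336324) (nat_lit 18) (.e (nat_lit 204830) (nat_lit 18) (.e (nat_lit 57852) (nat_lit 252) (.e (nat_lit 57442) (nat_lit 18) .nil))))) (.g (nat_lit 0) (.e (nat_lit 134181) (nat_lit 0) .nil) .nil))) 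
(.lf (nat_lit 487107) (.g (nat_lit 2425) (.e (nat_lit 24656) (nat_lit 13) (.e (nat_lit 393271) (nat_lit 23) (.e (nat_lit 426112) (nat_lit 1) (.e (nat_lit 164327) (nat_lit 230) (.e (nat_lit 163882) (nat_lit 4) .nil))))) (.g (nat_lit 0) (.e (nat_lit 135005) (nat_lit 0) .nil) .nil)))) (.nd (nat_lit 9) 
(.lf (nat_lit 486851) (.g (nat_lit 3407) (.e (nat_lit 24640) (nat_lit 10) (.e (nat_lit 344156) (nat_lit 36) (.e (nat_lit 638985) (nat_lit 5) (.e (nat_lit 3015) (nat_lit 187) (.e (nat_lit 450562) (nat_lit 0) (.e (nat_lit 5799) (nat_lit 320) (.e (nat_lit 2553) (nat_lit 159) .nil))))))) (.g (nat_lit 1) (.e (nat_lit 134591) (nat_lit 0) .nil) .nil))) 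
(.lf (nat_lit 487363) (.g (nat_lit 1710) (.e (nat_lit 24660) (nat_lit 13) (.e (nat_lit 393271) (nat_lit 23) (.e (nat_lit 426446) (nat_lit 20) (.e (nat_lit 122624) (nat_lit 4) .nil)))) (.g (nat_lit 0) (.e (nat_lit 135333) (nat_lit 0) .nil) .nil))))))) (.nd (nat_lit 6) (.nd (nat_lit 7) (.nd (nat_lit 8) (.nd (nat_lit 9) 
(.lf (nat_lit 486435) (.g (nat_lit 2189) (.e (nat_lit 24628) (nat_lit 9) (.e (nat_lit 336454) (nat_lit 34) (.e (nat_lit 483363) (nat_lit 18) (.e (nat_lit 57852) (nat_lit 252) .nil)))) (.g (nat_lit 0) (.e (nat_lit 134007) (nat_lit 0) .nil) .nil))) 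
(.lf (nat_lit 486947) (.g (nat_lit 2100) (.e (nat_lit 24647) (nat_lit 12) (.e (nat_lit 385094) (nat_lit 49) (.e (nat_lit 778323) (nat_lit 5) (.e (nat_lit 73789) (nat_lit 45) (.e (nat_lit 991) (nat_lit 81) .nil))))) (.g (nat_lit 0) (.e (nat_lit 134721) (nat_lit 0) .nil) .nil)))) (.nd (nat_lit 9) 
(.lf (nat_lit 486691) (.g (nat_lit 3554) (.e (nat_lit 24630) (nat_lit 9) (.e (nat_lit 336454) (nat_lit 34) (.e (nat_lit 483365) (nat_lit 18) (.e (nat_lit 57845) (nat_lit 252) .nil)))) (.g (nat_lit 0) (.e (nat_lit 134338) (nat_lit 0) .nil) .nil))) 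
(.lf (nat_lit 487203) (.g (nat_lit 2255) (.e (nat_lit 24658) (nat_lit 13) (.e (nat_lit 393281) (nat_lit 23) (.e (nat_lit 426098) (nat_lit 1) (.e (nat_lit 164325) (nat_lit 230) (.e (nat_lit 163849) (nat_lit 0) (.e (nat_lit 3617) (nat_lit 227) (.e (nat_lit 778462) (nat_lit 11) .nil))))))) (.g (nat_lit 1) (.e (nat_lit 135143) (nat_lit 0) .nil) .nil))))) (.nd (nat_lit 8) (.nd (nat_lit 9) 
(.lf (nat_lit 486563) (.g (nat_lit 2340) (.e (nat_lit 24629) (nat_lit 9) (.e (nat_lit 336443) (nat_lit 32) (.e (nat_lit 466969) (nat_lit 21) (.e (nat_lit 164325) (nat_lit 230) (.e (nat_lit 163880) (nat_lit 4) .nil))))) (.g (nat_lit 0) (.e (nat_lit 134139) (nat_lit 0) .nil) .nil))) 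
(.lf (nat_lit 487075) (.g (nat_lit 3192) (.e (nat_lit 24655) (nat_lit 13) (.e (nat_lit 393281) (nat_lit 23) (.e (nat_lit 426098) (nat_lit 1) (.e (nat_lit 164327) (nat_lit 230) (.e (nat_lit 163882) (nat_lit 4) (.e (nat_lit 213032) (nat_lit 11) .nil)))))) (.g (nat_lit 1) (.e (nat_lit 134962) (nat_lit 0) .nil) .nil)))) (.nd (nat_lit 9) 
(.lf (nat_lit 486819) (.g (nat_lit 1645) (.e (nat_lit 24638) (nat_lit 9) (.e (nat_lit 336293) (nat_lit 15) (.e (nat_lit 3305) (nat_lit 202) (.e (nat_lit 573484) (nat_lit 13) (.e (nat_lit 65617) (nat_lit 10) .nil))))) (.g (nat_lit 0) (.e (nat_lit 134517) (nat_lit 0) .nil) .nil))) 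
(.lf (nat_lit 487331) (.g (nat_lit 1224) (.e (nat_lit 24660) (nat_lit 13) (.e (nat_lit 393259) (nat_lit 21) (.e (nat_lit 409618) (nat_lit 10) (.e (nat_lit 5032) (nat_lit 290) .nil)))) (.g (nat_lit 0) (.e (nat_lit 135299) (nat_lit 0) .nil) .nil)))))) (.nd (nat_lit 7) (.nd (nat_lit 8) (.nd (nat_lit 9) 
(.lf (nat_lit 486499) (.g (nat_lit 2270) (.e (nat_lit 24628) (nat_lit 9) (.e (nat_lit 336455) (nat_lit 34) (.e (nat_lit 483363) (nat_lit 18) (.e (nat_lit 57847) (nat_lit 252) (.e (nat_lit 57370) (nat_lit 2) (.e (nat_lit 90158) (nat_lit 11) .nil)))))) (.g (nat_lit 1) (.e (nat_lit 134071) (nat_lit 0) .nil) .nil))) 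
(.lf (nat_lit 487011) (.g (nat_lit 1512) (.e (nat_lit 24651) (nat_lit 12) (.e (nat_lit 385106) (nat_lit 50) (.e (nat_lit 786483) (nat_lit 30) (.e (nat_lit 360450) (nat_lit 0) .nil)))) (.g (nat_lit 0) (.e (nat_lit 134852) (nat_lit 0) .nil) .nil)))) (.nd (nat_lit 9) 
(.lf (nat_lit 486755) (.g (nat_lit 3401) (.e (nat_lit 24630) (nat_lit 9) (.e (nat_lit 336456) (nat_lit 34) (.e (nat_lit 483365) (nat_lit 18) (.e (nat_lit 57847) (nat_lit 252) (.e (nat_lit 57373) (nat_lit 2) (.e (nat_lit 90158) (nat_lit 11) .nil)))))) (.g (nat_lit 1) (.e (nat_lit 134404) (nat_lit 0) .nil) .nil))) 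
(.lf (nat_lit 487267) (.g (nat_lit 1883) (.e (nat_lit 24658) (nat_lit 13) (.e (nat_lit 393301) (nat_lit 27) (.e (nat_lit 491559) (nat_lit 10) (.e (nat_lit 344092) (nat_lit 18) .nil)))) (.g (nat_lit 0) (.e (nat_lit 135216) (nat_lit 0) .nil) .nil))))) (.nd (nat_lit 8) (.nd (nat_lit 9) 
(.lf (nat_lit 486627) (.g (nat_lit 2500) (.e (nat_lit 24630) (nat_lit 9) (.e (nat_lit 336369) (nat_lit 27) (.e (nat_lit 426501) (nat_lit 27) (.e (nat_lit 335995) (nat_lit 1) (.e (nat_lit 57844) (nat_lit 252) (.e (nat_lit 57371) (nat_lit 2) (.e (nat_lit 90156) (nat_lit 11) .nil))))))) (.g (nat_lit 1) (.e (nat_lit 134226) (nat_lit 0) .nil) .nil))) 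
(.lf (nat_lit 487139) (.g (nat_lit 1778) (.e (nat_lit 24657) (nat_lit 13) (.e (nat_lit 393232) (nat_lit 17) (.e (nat_lit 7591) (nat_lit 407) (.e (nat_lit 73775) (nat_lit 26) (.e (nat_lit 778463) (nat_lit 11) .nil))))) (.g (nat_lit 1) (.e (nat_lit 135050) (nat_lit 0) .nil) .nil)))) (.nd (nat_lit 9) 
(.lf (nat_lit 486883) (.g (nat_lit 3461) (.e (nat_lit 24640) (nat_lit 10) (.e (nat_lit 344156) (nat_lit 36) (.e (nat_lit 638998) (nat_lit 8) (.e (nat_lit 172113) (nat_lit 10) (.e (nat_lit 434203) (nat_lit 18) (.e (nat_lit 5797) (nat_lit 320) (.e (nat_lit 2551) (nat_lit 159) .nil))))))) (.g (nat_lit 1) (.e (nat_lit 134623) (nat_lit 0) .nil) .nil))) 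
(.lf (nat_lit 487395) (.g (nat_lit 3222) (.e (nat_lit 24660) (nat_lit 13) (.e (nat_lit 393297) (nat_lit 27) (.e (nat_lit 491566) (nat_lit 12) (.e (nat_lit 385078) (nat_lit 35) (.e (nat_lit 606243) (nat_lit 11) .nil))))) (.g (nat_lit 1) (.e (nat_lit 135378) (nat_lit 0) .nil) .nil)))))))) (.nd (nat_lit 5) (.nd (nat_lit 6) (.nd (nat_lit 7) (.nd (nat_lit 8) (.nd (nat_lit 9) 
(.lf (nat_lit 486419) (.g (nat_lit 2451) (.e (nat_lit 24628) (nat_lit 9) (.e (nat_lit 336443) (nat_lit 32) (.e (nat_lit 466972) (nat_lit 21) (.e (nat_lit 164332) (nat_lit 230) (.e (nat_lit 163850) (nat_lit 0) (.e (nat_lit 3617) (nat_lit 227) (.e (nat_lit 778462) (nat_lit 11) .nil))))))) (.g (nat_lit 1) (.e (nat_lit 133991) (nat_lit 0) .nil) .nil))) 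
(.lf (nat_lit 486931) (.g (nat_lit 3953) (.e (nat_lit 24641) (nat_lit 10) (.e (nat_lit 344133) (nat_lit 26) (.e (nat_lit 557119) (nat_lit 18) (.e (nat_lit 2798) (nat_lit 180) (.e (nat_lit 303143) (nat_lit 12) (.e (nat_lit 483072) (nat_lit 2) .nil)))))) (.g (nat_lit 1) (.e (nat_lit 134685) (nat_lit 0) .nil) .nil)))) (.nd (nat_lit 9) 
(.lf (nat_lit 486675) (.g (nat_lit 2847) (.e (nat_lit 24630) (nat_lit 9) (.e (nat_lit 336454) (nat_lit 34) (.e (nat_lit 483363) (nat_lit 18) (.e (nat_lit 57854) (nat_lit 252) (.e (nat_lit 57370) (nat_lit 2) (.e (nat_lit 90158) (nat_lit 11) .nil)))))) (.g (nat_lit 1) (.e (nat_lit 134322) (nat_lit 0) .nil) .nil))) 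
(.lf (nat_lit 487187) (.g (nat_lit 691) (.e (nat_lit 24658) (nat_lit 13) (.e (nat_lit 393234) (nat_lit 17) (.e (nat_lit 7495) (nat_lit 402) (.e (nat_lit 1533) (nat_lit 109) .nil)))) (.g (nat_lit 0) (.e (nat_lit 135121) (nat_lit 0) .nil) .nil))))) (.nd (nat_lit 8) (.nd (nat_lit 9) 
(.lf (nat_lit 486547) (.g (nat_lit 1743) (.e (nat_lit 24629) (nat_lit 9) (.e (nat_lit 336430) (nat_lit 29) (.e (nat_lit 442419) (nat_lit 21) (.e (nat_lit 164327) (nat_lit 230) (.e (nat_lit 163881) (nat_lit 4) (.e (nat_lit 213030) (nat_lit 11) .nil)))))) (.g (nat_lit 1) (.e (nat_lit 134122) (nat_lit 0) .nil) .nil))) 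
(.lf (nat_lit 487059) (.g (nat_lit 1037) (.e (nat_lit 24654) (nat_lit 13) (.e (nat_lit 393301) (nat_lit 27) (.e (nat_lit 491558) (nat_lit 10) .nil))) (.g (nat_lit 0) (.e (nat_lit 134938) (nat_lit 0) .nil) .nil)))) (.nd (nat_lit 9) 
(.lf (nat_lit 486803) (.g (nat_lit 3308) (.e (nat_lit 24636) (nat_lit 9) (.e (nat_lit 336390) (nat_lit 27) (.e (nat_lit 426011) (nat_lit 0) (.e (nat_lit 7593) (nat_lit 407) (.e (nat_lit 73775) (nat_lit 26) (.e (nat_lit 778465) (nat_lit 11) .nil)))))) (.g (nat_lit 1) (.e (nat_lit 134465) (nat_lit 0) .nil) .nil))) 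
(.lf (nat_lit 487315) (.g (nat_lit 2247) (.e (nat_lit 24659) (nat_lit 13) (.e (nat_lit 393301) (nat_lit 27) (.e (nat_lit 491559) (nat_lit 10) (.e (nat_lit 344089) (nat_lit 18) .nil)))) (.g (nat_lit 0) (.e (nat_lit 135267) (nat_lit 0) .nil) .nil)))))) (.nd (nat_lit 7) (.nd (nat_lit 8) (.nd (nat_lit 9) 
(.lf (nat_lit 486483) (.g (nat_lit 3204) (.e (nat_lit 24628) (nat_lit 9) (.e (nat_lit 336454) (nat_lit 34) (.e (nat_lit 483366) (nat_lit 18) (.e (nat_lit 57846) (nat_lit 252) (.e (nat_lit 57370) (nat_lit 2) (.e (nat_lit 90158) (nat_lit 11) .nil)))))) (.g (nat_lit 1) (.e (nat_lit 134055) (nat_lit 0) .nil) .nil))) 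
(.lf (nat_lit 486995) (.g (nat_lit 4516) (.e (nat_lit 24651) (nat_lit 12) (.e (nat_lit 385072) (nat_lit 31) (.e (nat_lit 573481) (nat_lit 13) (.e (nat_lit 65619) (nat_lit 10) (.e (nat_lit 344129) (nat_lit 26) (.e (nat_lit 557087) (nat_lit 11) .nil)))))) (.g (nat_lit 1) (.e (nat_lit 134820) (nat_lit 0) .nil) .nil)))) (.nd (nat_lit 9) 
(.lf (nat_lit 486739) (.g (nat_lit 3486) (.e (nat_lit 24630) (nat_lit 9) (.e (nat_lit 336456) (nat_lit 34) (.e (nat_lit 483364) (nat_lit 18) (.e (nat_lit 57852) (nat_lit 252) (.e (nat_lit 57371) (nat_lit 2) (.e (nat_lit 90158) (nat_lit 11) .nil)))))) (.g (nat_lit 1) (.e (nat_lit 134388) (nat_lit 0) .nil) .nil))) 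
(.lf (nat_lit 487251) (.g (nat_lit 694) (.e (nat_lit 24658) (nat_lit 13) (.e (nat_lit 393296) (nat_lit 26) (.e (nat_lit 475213) (nat_lit 42) .nil))) (.g (nat_lit 0) (.e (nat_lit 135200) (nat_lit 0) .nil) .nil))))) (.nd (nat_lit 8) (.nd (nat_lit 9) 
(.lf (nat_lit 486611) (.g (nat_lit 2346) (.e (nat_lit 24630) (nat_lit 9) (.e (nat_lit 336368) (nat_lit 27) (.e (nat_lit 426499) (nat_lit 27) (.e (nat_lit 335986) (nat_lit 1) (.e (nat_lit 57849) (nat_lit 252) (.e (nat_lit 57375) (nat_lit 2) (.e (nat_lit 90158) (nat_lit 11) .nil))))))) (.g (nat_lit 1) (.e (nat_lit 134204) (nat_lit 0) .nil) .nil))) 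
(.lf (nat_lit 487123) (.g (nat_lit 2990) (.e (nat_lit 24657) (nat_lit 13) (.e (nat_lit 393229) (nat_lit 9) (.e (nat_lit 335986) (nat_lit 1) (.e (nat_lit 57848) (nat_lit 252) (.e (nat_lit 57375) (nat_lit 2) (.e (nat_lit 90159) (nat_lit 11) .nil)))))) (.g (nat_lit 1) (.e (nat_lit 135031) (nat_lit 0) .nil) .nil)))) (.nd (nat_lit 9) 
(.lf (nat_lit 486867) (.g (nat_lit 2439) (.e (nat_lit 24640) (nat_lit 10) (.e (nat_lit 344156) (nat_lit 36) (.e (nat_lit 638985) (nat_lit 5) (.e (nat_lit 3016) (nat_lit 187) (.e (nat_lit 450569) (nat_lit 0) (.e (nat_lit 5852) (nat_lit 320) (.e (nat_lit 2551) (nat_lit 159) .nil))))))) (.g (nat_lit 1) (.e (nat_lit 134607) (nat_lit 0) .nil) .nil))) 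
(.lf (nat_lit 487379) (.g (nat_lit 2345) (.e (nat_lit 24660) (nat_lit 13) (.e (nat_lit 393281) (nat_lit 23) (.e (nat_lit 426098) (nat_lit 1) (.e (nat_lit 164325) (nat_lit 230) (.e (nat_lit 163881) (nat_lit 4) (.e (nat_lit 213030) (nat_lit 11) .nil)))))) (.g (nat_lit 1) (.e (nat_lit 135349) (nat_lit 0) .nil) .nil))))))) (.nd (nat_lit 6) (.nd (nat_lit 7) (.nd (nat_lit 8) (.nd (nat_lit 9) 
(.lf (nat_lit 486451) (.g (nat_lit 3548) (.e (nat_lit 24628) (nat_lit 9) (.e (nat_lit 336454) (nat_lit 34) (.e (nat_lit 483365) (nat_lit 18) (.e (nat_lit 57846) (nat_lit 252) (.e (nat_lit 57372) (nat_lit 2) (.e (nat_lit 90158) (nat_lit 11) .nil)))))) (.g (nat_lit 1) (.e (nat_lit 134023) (nat_lit 0) .nil) .nil))) 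
(.lf (nat_lit 486963) (.g (nat_lit 4194) (.e (nat_lit 24649) (nat_lit 12) (.e (nat_lit 385072) (nat_lit 31) (.e (nat_lit 573481) (nat_lit 13) (.e (nat_lit 65619) (nat_lit 10) (.e (nat_lit 344129) (nat_lit 26) (.e (nat_lit 557087) (nat_lit 11) .nil)))))) (.g (nat_lit 1) (.e (nat_lit 134761) (nat_lit 0) .nil) .nil)))) (.nd (nat_lit 9) 
(.lf (nat_lit 486707) (.g (nat_lit 3182) (.e (nat_lit 24630) (nat_lit 9) (.e (nat_lit 336454) (nat_lit 34) (.e (nat_lit 483365) (nat_lit 18) (.e (nat_lit 57849) (nat_lit 252) (.e (nat_lit 57370) (nat_lit 2) (.e (nat_lit 90158) (nat_lit 11) .nil)))))) (.g (nat_lit 1) (.e (nat_lit 134356) (nat_lit 0) .nil) .nil))) 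
(.lf (nat_lit 487219) (.g (nat_lit 2091) (.e (nat_lit 24658) (nat_lit 13) (.e (nat_lit 393281) (nat_lit 23) (.e (nat_lit 426099) (nat_lit 1) (.e (nat_lit 164330) (nat_lit 230) (.e (nat_lit 163878) (nat_lit 4) (.e (nat_lit 213030) (nat_lit 11) .nil)))))) (.g (nat_lit 1) (.e (nat_lit 135160) (nat_lit 0) .nil) .nil))))) (.nd (nat_lit 8) (.nd (nat_lit 9) 
(.lf (nat_lit 486579) (.g (nat_lit 1454) (.e (nat_lit 24629) (nat_lit 9) (.e (nat_lit 336456) (nat_lit 34) (.e (nat_lit 483363) (nat_lit 18) (.e (nat_lit 57847) (nat_lit 252) .nil)))) (.g (nat_lit 0) (.e (nat_lit 134156) (nat_lit 0) .nil) .nil))) 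
(.lf (nat_lit 487091) (.g (nat_lit 2208) (.e (nat_lit 24655) (nat_lit 13) (.e (nat_lit 393281) (nat_lit 23) (.e (nat_lit 426108) (nat_lit 1) (.e (nat_lit 164329) (nat_lit 230) (.e (nat_lit 163878) (nat_lit 4) (.e (nat_lit 213032) (nat_lit 11) .nil)))))) (.g (nat_lit 1) (.e (nat_lit 134978) (nat_lit 0) .nil) .nil)))) (.nd (nat_lit 9) 
(.lf (nat_lit 486835) (.g (nat_lit 1822) (.e (nat_lit 32512) (nat_lit 9) (.e (nat_lit 336456) (nat_lit 34) (.e (nat_lit 483365) (nat_lit 18) (.e (nat_lit 57846) (nat_lit 252) (.e (nat_lit 57372) (nat_lit 2) .nil))))) (.g (nat_lit 0) (.e (nat_lit 134533) (nat_lit 0) .nil) .nil))) 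
(.lf (nat_lit 487347) (.g (nat_lit 578) (.e (nat_lit 24660) (nat_lit 13) (.e (nat_lit 393260) (nat_lit 21) (.e (nat_lit 409647) (nat_lit 18) .nil))) (.g (nat_lit 0) (.e (nat_lit 135316) (nat_lit 0) .nil) .nil)))))) (.nd (nat_lit 7) (.nd (nat_lit 8) (.nd (nat_lit 9) 
(.lf (nat_lit 486515) (.g (nat_lit 3102) (.e (nat_lit 24628) (nat_lit 9) (.e (nat_lit 336456) (nat_lit 34) (.e (nat_lit 483365) (nat_lit 18) (.e (nat_lit 57846) (nat_lit 252) (.e (nat_lit 57373) (nat_lit 2) (.e (nat_lit 90158) (nat_lit 11) .nil)))))) (.g (nat_lit 1) (.e (nat_lit 134087) (nat_lit 0) .nil) .nil))) 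
(.lf (nat_lit 487027) (.g (nat_lit 2274) (.e (nat_lit 24653) (nat_lit 12) (.e (nat_lit 385068) (nat_lit 26) (.e (nat_lit 532501) (nat_lit 1) (.e (nat_lit 57830) (nat_lit 250) .nil)))) (.g (nat_lit 0) (.e (nat_lit 134883) (nat_lit 0) .nil) .nil)))) (.nd (nat_lit 9) 
(.lf (nat_lit 486771) (.g (nat_lit 2000) (.e (nat_lit 24631) (nat_lit 9) (.e (nat_lit 336295) (nat_lit 15) (.e (nat_lit 3304) (nat_lit 202) (.e (nat_lit 573482) (nat_lit 13) (.e (nat_lit 65619) (nat_lit 10) .nil))))) (.g (nat_lit 0) (.e (nat_lit 134425) (nat_lit 0) .nil) .nil))) 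
(.lf (nat_lit 487283) (.g (nat_lit 1099) (.e (nat_lit 24659) (nat_lit 13) (.e (nat_lit 393271) (nat_lit 23) (.e (nat_lit 426446) (nat_lit 20) .nil))) (.g (nat_lit 0) (.e (nat_lit 135233) (nat_lit 0) .nil) .nil))))) (.nd (nat_lit 8) (.nd (nat_lit 9) 
(.lf (nat_lit 486643) (.g (nat_lit 2219) (.e (nat_lit 24630) (nat_lit 9) (.e (nat_lit 336443) (nat_lit 32) (.e (nat_lit 466969) (nat_lit 21) (.e (nat_lit 164326) (nat_lit 230) (.e (nat_lit 163879) (nat_lit 4) (.e (nat_lit 213032) (nat_lit 11) .nil)))))) (.g (nat_lit 1) (.e (nat_lit 134281) (nat_lit 0) .nil) .nil))) 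
(.lf (nat_lit 487155) (.g (nat_lit 1893) (.e (nat_lit 24657) (nat_lit 13) (.e (nat_lit 393281) (nat_lit 23) (.e (nat_lit 426098) (nat_lit 1) (.e (nat_lit 164325) (nat_lit 230) (.e (nat_lit 163882) (nat_lit 4) (.e (nat_lit 213030) (nat_lit 11) .nil)))))) (.g (nat_lit 1) (.e (nat_lit 135073) (nat_lit 0) .nil) .nil)))) (.nd (nat_lit 9) 
(.lf (nat_lit 486899) (.g (nat_lit 2724) (.e (nat_lit 24640) (nat_lit 10) (.e (nat_lit 344156) (nat_lit 36) (.e (nat_lit 638998) (nat_lit 8) (.e (nat_lit 172113) (nat_lit 10) (.e (nat_lit 434203) (nat_lit 18) (.e (nat_lit 5843) (nat_lit 320) (.e (nat_lit 2551) (nat_lit 159) .nil))))))) (.g (nat_lit 1) (.e (nat_lit 134639) (nat_lit 0) .nil) .nil))) 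
(.lf (nat_lit 487411) (.g (nat_lit 3510) (.e (nat_lit 24661) (nat_lit 14) (.e (nat_lit 401459) (nat_lit 13) (.e (nat_lit 483372) (nat_lit 21) (.e (nat_lit 319497) (nat_lit 10) .nil)))) (.g (nat_lit 0) (.e (nat_lit 135420) (nat_lit 0) .nil) .nil))))))))) (.nd (nat_lit 4) (.nd (nat_lit 5) (.nd (nat_lit 6) (.nd (nat_lit 7) (.nd (nat_lit 8) (.nd (nat_lit 9) 
(.lf (nat_lit 486411) (.g (nat_lit 2889) (.e (nat_lit 24628) (nat_lit 9) (.e (nat_lit 336443) (nat_lit 32) (.e (nat_lit 466972) (nat_lit 21) (.e (nat_lit 164330) (nat_lit 230) (.e (nat_lit 163876) (nat_lit 4) (.e (nat_lit 213032) (nat_lit 11) .nil)))))) (.g (nat_lit 1) (.e (nat_lit 133983) (nat_lit 0) .nil) .nil))) 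
(.lf (nat_lit 486923) (.g (nat_lit 2335) (.e (nat_lit 24640) (nat_lit 10) (.e (nat_lit 344156) (nat_lit 36) (.e (nat_lit 639001) (nat_lit 10) (.e (nat_lit 188455) (nat_lit 24) (.e (nat_lit 229698) (nat_lit 254) (.e (nat_lit 2558) (nat_lit 159) .nil)))))) (.g (nat_lit 1) (.e (nat_lit 134671) (nat_lit 0) .nil) .nil)))) (.nd (nat_lit 9) 
(.lf (nat_lit 486667) (.g (nat_lit 3823) (.e (nat_lit 24630) (nat_lit 9) (.e (nat_lit 336454) (nat_lit 34) (.e (nat_lit 483363) (nat_lit 18) (.e (nat_lit 57847) (nat_lit 252) (.e (nat_lit 57372) (nat_lit 2) (.e (nat_lit 90160) (nat_lit 11) .nil)))))) (.g (nat_lit 1) (.e (nat_lit 134314) (nat_lit 0) .nil) .nil))) 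
(.lf (nat_lit 487179) (.g (nat_lit 2310) (.e (nat_lit 24657) (nat_lit 13) (.e (nat_lit 393299) (nat_lit 27) (.e (nat_lit 491560) (nat_lit 10) (.e (nat_lit 344179) (nat_lit 44) (.e (nat_lit 778463) (nat_lit 11) .nil))))) (.g (nat_lit 1) (.e (nat_lit 135112) (nat_lit 0) .nil) .nil))))) (.nd (nat_lit 8) (.nd (nat_lit 9) 
(.lf (nat_lit 486539) (.g (nat_lit 1899) (.e (nat_lit 24629) (nat_lit 9) (.e (nat_lit 336430) (nat_lit 29) (.e (nat_lit 442419) (nat_lit 21) (.e (nat_lit 164322) (nat_lit 230) (.e (nat_lit 163878) (nat_lit 4) .nil))))) (.g (nat_lit 0) (.e (nat_lit 134114) (nat_lit 0) .nil) .nil))) 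
(.lf (nat_lit 487051) (.g (nat_lit 2091) (.e (nat_lit 24654) (nat_lit 13) (.e (nat_lit 393271) (nat_lit 23) (.e (nat_lit 426112) (nat_lit 1) (.e (nat_lit 164327) (nat_lit 230) (.e (nat_lit 163881) (nat_lit 4) .nil))))) (.g (nat_lit 0) (.e (nat_lit 134930) (nat_lit 0) .nil) .nil)))) (.nd (nat_lit 9) 
(.lf (nat_lit 486795) (.g (nat_lit 470) (.e (nat_lit 24634) (nat_lit 9) (.e (nat_lit 336022) (nat_lit 3) (.e (nat_lit 106240) (nat_lit 16) (.e (nat_lit 401454) (nat_lit 12) (.e (nat_lit 483072) (nat_lit 2) .nil))))) (.g (nat_lit 1) (.e (nat_lit 134456) (nat_lit 0) .nil) .nil))) 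
(.lf (nat_lit 487307) (.g (nat_lit 2696) (.e (nat_lit 24659) (nat_lit 13) (.e (nat_lit 393281) (nat_lit 23) (.e (nat_lit 426108) (nat_lit 1) (.e (nat_lit 164330) (nat_lit 230) (.e (nat_lit 163880) (nat_lit 4) (.e (nat_lit 213030) (nat_lit 11) .nil)))))) (.g (nat_lit 1) (.e (nat_lit 135257) (nat_lit 0) .nil) .nil)))))) (.nd (nat_lit 7) (.nd (nat_lit 8) (.nd (nat_lit 9) 
(.lf (nat_lit 486475) (.g (nat_lit 3357) (.e (nat_lit 24628) (nat_lit 9) (.e (nat_lit 336454) (nat_lit 34) (.e (nat_lit 483365) (nat_lit 18) (.e (nat_lit 57853) (nat_lit 252) (.e (nat_lit 57370) (nat_lit 2) (.e (nat_lit 90158) (nat_lit 11) .nil)))))) (.g (nat_lit 1) (.e (nat_lit 134047) (nat_lit 0) .nil) .nil))) 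
(.lf (nat_lit 486987) (.g (nat_lit 3732) (.e (nat_lit 24650) (nat_lit 12) (.e (nat_lit 385073) (nat_lit 31) (.e (nat_lit 573482) (nat_lit 13) (.e (nat_lit 65619) (nat_lit 10) (.e (nat_lit 344129) (nat_lit 26) (.e (nat_lit 557087) (nat_lit 11) .nil)))))) (.g (nat_lit 1) (.e (nat_lit 134798) (nat_lit 0) .nil) .nil)))) (.nd (nat_lit 9) 
(.lf (nat_lit 486731) (.g (nat_lit 3033) (.e (nat_lit 24630) (nat_lit 9) (.e (nat_lit 336456) (nat_lit 34) (.e (nat_lit 483363) (nat_lit 18) (.e (nat_lit 57853) (nat_lit 252) (.e (nat_lit 57370) (nat_lit 2) (.e (nat_lit 90158) (nat_lit 11) .nil)))))) (.g (nat_lit 1) (.e (nat_lit 134380) (nat_lit 0) .nil) .nil))) 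
(.lf (nat_lit 487243) (.g (nat_lit 2416) (.e (nat_lit 24658) (nat_lit 13) (.e (nat_lit 393281) (nat_lit 23) (.e (nat_lit 426108) (nat_lit 1) (.e (nat_lit 164329) (nat_lit 230) (.e (nat_lit 163878) (nat_lit 4) (.e (nat_lit 213032) (nat_lit 11) .nil)))))) (.g (nat_lit 1) (.e (nat_lit 135187) (nat_lit 0) .nil) .nil))))) (.nd (nat_lit 8) (.nd (nat_lit 9) 
(.lf (nat_lit 486603) (.g (nat_lit 5810) (.e (nat_lit 24630) (nat_lit 9) (.e (nat_lit 336324) (nat_lit 18) (.e (nat_lit 204831) (nat_lit 18) (.e (nat_lit 57852) (nat_lit 252) (.e (nat_lit 57442) (nat_lit 18) (.e (nat_lit 392960) (nat_lit 10) .nil)))))) (.g (nat_lit 1) (.e (nat_lit 134193) (nat_lit 0) .nil) .nil))) 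
(.lf (nat_lit 487115) (.g (nat_lit 1949) (.e (nat_lit 24657) (nat_lit 13) (.e (nat_lit 393227) (nat_lit 9) (.e (nat_lit 335998) (nat_lit 1) (.e (nat_lit 57848) (nat_lit 252) (.e (nat_lit 57375) (nat_lit 2) (.e (nat_lit 90159) (nat_lit 11) .nil)))))) (.g (nat_lit 1) (.e (nat_lit 135020) (nat_lit 0) .nil) .nil)))) (.nd (nat_lit 9) 
(.lf (nat_lit 486859) (.g (nat_lit 3064) (.e (nat_lit 24640) (nat_lit 10) (.e (nat_lit 344156) (nat_lit 36) (.e (nat_lit 638985) (nat_lit 5) (.e (nat_lit 3015) (nat_lit 187) (.e (nat_lit 450563) (nat_lit 0) (.e (nat_lit 5796) (nat_lit 320) (.e (nat_lit 2552) (nat_lit 159) .nil))))))) (.g (nat_lit 1) (.e (nat_lit 134599) (nat_lit 0) .nil) .nil))) 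
(.lf (nat_lit 487371) (.g (nat_lit 2440) (.e (nat_lit 24660) (nat_lit 13) (.e (nat_lit 393279) (nat_lit 23) (.e (nat_lit 426110) (nat_lit 1) (.e (nat_lit 164327) (nat_lit 230) (.e (nat_lit 163881) (nat_lit 4) (.e (nat_lit 213032) (nat_lit 11) .nil)))))) (.g (nat_lit 1) (.e (nat_lit 135341) (nat_lit 0) .nil) .nil))))))) (.nd (nat_lit 6) (.nd (nat_lit 7) (.nd (nat_lit 8) (.nd (nat_lit 9) 
(.lf (nat_lit 486443) (.g (nat_lit 3130) (.e (nat_lit 24628) (nat_lit 9) (.e (nat_lit 336454) (nat_lit 34) (.e (nat_lit 483364) (nat_lit 18) (.e (nat_lit 57854) (nat_lit 252) (.e (nat_lit 57371) (nat_lit 2) (.e (nat_lit 90158) (nat_lit 11) .nil)))))) (.g (nat_lit 1) (.e (nat_lit 134015) (nat_lit 0) .nil) .nil))) 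
(.lf (nat_lit 486955) (.g (nat_lit 2511) (.e (nat_lit 24648) (nat_lit 12) (.e (nat_lit 385068) (nat_lit 26) (.e (nat_lit 532503) (nat_lit 1) (.e (nat_lit 57847) (nat_lit 252) (.e (nat_lit 57443) (nat_lit 18) .nil))))) (.g (nat_lit 0) (.e (nat_lit 134736) (nat_lit 0) .nil) .nil)))) (.nd (nat_lit 9) 
(.lf (nat_lit 486699) (.g (nat_lit 3818) (.e (nat_lit 24630) (nat_lit 9) (.e (nat_lit 336454) (nat_lit 34) (.e (nat_lit 483365) (nat_lit 18) (.e (nat_lit 57847) (nat_lit 252) (.e (nat_lit 57372) (nat_lit 2) (.e (nat_lit 90160) (nat_lit 11) .nil)))))) (.g (nat_lit 1) (.e (nat_lit 134346) (nat_lit 0) .nil) .nil))) 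
(.lf (nat_lit 487211) (.g (nat_lit 1952) (.e (nat_lit 24658) (nat_lit 13) (.e (nat_lit 393281) (nat_lit 23) (.e (nat_lit 426098) (nat_lit 1) (.e (nat_lit 164332) (nat_lit 230) (.e (nat_lit 163878) (nat_lit 4) (.e (nat_lit 213032) (nat_lit 11) .nil)))))) (.g (nat_lit 1) (.e (nat_lit 135151) (nat_lit 0) .nil) .nil))))) (.nd (nat_lit 8) (.nd (nat_lit 9) 
(.lf (nat_lit 486571) (.g (nat_lit 2266) (.e (nat_lit 24629) (nat_lit 9) (.e (nat_lit 336443) (nat_lit 32) (.e (nat_lit 466972) (nat_lit 21) (.e (nat_lit 164331) (nat_lit 230) (.e (nat_lit 163878) (nat_lit 4) .nil))))) (.g (nat_lit 0) (.e (nat_lit 134147) (nat_lit 0) .nil) .nil))) 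
(.lf (nat_lit 487083) (.g (nat_lit 2134) (.e (nat_lit 24655) (nat_lit 13) (.e (nat_lit 393281) (nat_lit 23) (.e (nat_lit 426100) (nat_lit 1) (.e (nat_lit 164330) (nat_lit 230) (.e (nat_lit 163878) (nat_lit 4) (.e (nat_lit 213030) (nat_lit 11) .nil)))))) (.g (nat_lit 1) (.e (nat_lit 134970) (nat_lit 0) .nil) .nil)))) (.nd (nat_lit 9) 
(.lf (nat_lit 486827) (.g (nat_lit 2284) (.e (nat_lit 32512) (nat_lit 9) (.e (nat_lit 336390) (nat_lit 27) (.e (nat_lit 426011) (nat_lit 0) (.e (nat_lit 7591) (nat_lit 407) (.e (nat_lit 73776) (nat_lit 26) .nil))))) (.g (nat_lit 0) (.e (nat_lit 134525) (nat_lit 0) .nil) .nil))) 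
(.lf (nat_lit 487339) (.g (nat_lit 1633) (.e (nat_lit 24660) (nat_lit 13) (.e (nat_lit 393260) (nat_lit 21) (.e (nat_lit 409618) (nat_lit 10) (.e (nat_lit 5023) (nat_lit 290) (.e (nat_lit 164108) (nat_lit 116) .nil))))) (.g (nat_lit 0) (.e (nat_lit 135307) (nat_lit 0) .nil) .nil)))))) (.nd (nat_lit 7) (.nd (nat_lit 8) (.nd (nat_lit 9) 
(.lf (nat_lit 486507) (.g (nat_lit 2621) (.e (nat_lit 24628) (nat_lit 9) (.e (nat_lit 336456) (nat_lit 34) (.e (nat_lit 483364) (nat_lit 18) (.e (nat_lit 57853) (nat_lit 252) (.e (nat_lit 57370) (nat_lit 2) (.e (nat_lit 90158) (nat_lit 11) .nil)))))) (.g (nat_lit 1) (.e (nat_lit 134079) (nat_lit 0) .nil) .nil))) 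
(.lf (nat_lit 487019) (.g (nat_lit 4090) (.e (nat_lit 24652) (nat_lit 12) (.e (nat_lit 385074) (nat_lit 31) (.e (nat_lit 573484) (nat_lit 13) (.e (nat_lit 65617) (nat_lit 10) (.e (nat_lit 344130) (nat_lit 26) (.e (nat_lit 557085) (nat_lit 11) .nil)))))) (.g (nat_lit 1) (.e (nat_lit 134862) (nat_lit 0) .nil) .nil)))) (.nd (nat_lit 9) 
(.lf (nat_lit 486763) (.g (nat_lit 3893) (.e (nat_lit 24630) (nat_lit 9) (.e (nat_lit 336456) (nat_lit 34) (.e (nat_lit 483365) (nat_lit 18) (.e (nat_lit 57851) (nat_lit 252) (.e (nat_lit 57371) (nat_lit 2) (.e (nat_lit 90160) (nat_lit 11) .nil)))))) (.g (nat_lit 1) (.e (nat_lit 134416) (nat_lit 0) .nil) .nil))) 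
(.lf (nat_lit 487275) (.g (nat_lit 3555) (.e (nat_lit 24658) (nat_lit 13) (.e (nat_lit 393301) (nat_lit 27) (.e (nat_lit 491560) (nat_lit 10) (.e (nat_lit 344179) (nat_lit 44) (.e (nat_lit 778460) (nat_lit 11) .nil))))) (.g (nat_lit 1) (.e (nat_lit 135224) (nat_lit 0) .nil) .nil))))) (.nd (nat_lit 8) (.nd (nat_lit 9) 
(.lf (nat_lit 486635) (.g (nat_lit 3708) (.e (nat_lit 24630) (nat_lit 9) (.e (nat_lit 336414) (nat_lit 27) (.e (nat_lit 426503) (nat_lit 27) (.e (nat_lit 335986) (nat_lit 1) (.e (nat_lit 57847) (nat_lit 252) (.e (nat_lit 57372) (nat_lit 2) (.e (nat_lit 90160) (nat_lit 11) .nil))))))) (.g (nat_lit 1) (.e (nat_lit 134237) (nat_lit 0) .nil) .nil))) 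
(.lf (nat_lit 487147) (.g (nat_lit 461) (.e (nat_lit 24657) (nat_lit 13) (.e (nat_lit 393271) (nat_lit 23) (.e (nat_lit 425986) (nat_lit 0) .nil))) (.g (nat_lit 0) (.e (nat_lit 135064) (nat_lit 0) .nil) .nil)))) (.nd (nat_lit 9) 
(.lf (nat_lit 486891) (.g (nat_lit 3285) (.e (nat_lit 24640) (nat_lit 10) (.e (nat_lit 344156) (nat_lit 36) (.e (nat_lit 638998) (nat_lit 8) (.e (nat_lit 172113) (nat_lit 10) (.e (nat_lit 434203) (nat_lit 18) (.e (nat_lit 5800) (nat_lit 320) (.e (nat_lit 2558) (nat_lit 159) .nil))))))) (.g (nat_lit 1) (.e (nat_lit 134631) (nat_lit 0) .nil) .nil))) 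
(.lf (nat_lit 487403) (.g (nat_lit 2319) (.e (nat_lit 24661) (nat_lit 14) (.e (nat_lit 401438) (nat_lit 9) (.e (nat_lit 426482) (nat_lit 27) (.e (nat_lit 336060) (nat_lit 7) (.e (nat_lit 319504) (nat_lit 10) (.e (nat_lit 7936) (nat_lit 314) .nil)))))) (.g (nat_lit 1) (.e (nat_lit 135398) (nat_lit 0) .nil) .nil)))))))) 
(.nd (nat_lit 5) (.nd (nat_lit 6) (.nd (nat_lit 7) (.nd (nat_lit 8) (.nd (nat_lit 9) 
(.lf (nat_lit 486427) (.g (nat_lit 3449) (.e (nat_lit 24628) (nat_lit 9) (.e (nat_lit 336452) (nat_lit 34) (.e (nat_lit 483363) (nat_lit 18) (.e (nat_lit 57854) (nat_lit 252) (.e (nat_lit 57373) (nat_lit 2) (.e (nat_lit 90160) (nat_lit 11) .nil)))))) (.g (nat_lit 1) (.e (nat_lit 133999) (nat_lit 0) .nil) .nil))) 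
(.lf (nat_lit 486939) (.g (nat_lit 2121) (.e (nat_lit 24647) (nat_lit 12) (.e (nat_lit 385073) (nat_lit 31) (.e (nat_lit 573485) (nat_lit 13) (.e (nat_lit 65619) (nat_lit 10) (.e (nat_lit 344129) (nat_lit 26) (.e (nat_lit 557087) (nat_lit 11) .nil)))))) (.g (nat_lit 1) (.e (nat_lit 134709) (nat_lit 0) .nil) .nil)))) (.nd (nat_lit 9) 
(.lf (nat_lit 486683) (.g (nat_lit 2681) (.e (nat_lit 24630) (nat_lit 9) (.e (nat_lit 336454) (nat_lit 34) (.e (nat_lit 483364) (nat_lit 18) (.e (nat_lit 57854) (nat_lit 252) (.e (nat_lit 57370) (nat_lit 2) (.e (nat_lit 90158) (nat_lit 11) .nil)))))) (.g (nat_lit 1) (.e (nat_lit 134330) (nat_lit 0) .nil) .nil))) 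
(.lf (nat_lit 487195) (.g (nat_lit 291) (.e (nat_lit 24658) (nat_lit 13) (.e (nat_lit 393249) (nat_lit 17) (.e (nat_lit 7103) (nat_lit 380) .nil))) (.g (nat_lit 0) (.e (nat_lit 135133) (nat_lit 0) .nil) .nil))))) (.nd (nat_lit 8) (.nd (nat_lit 9) 
(.lf (nat_lit 486555) (.g (nat_lit 1988) (.e (nat_lit 24629) (nat_lit 9) (.e (nat_lit 336430) (nat_lit 29) (.e (nat_lit 442421) (nat_lit 21) (.e (nat_lit 164327) (nat_lit 230) (.e (nat_lit 163877) (nat_lit 4) .nil))))) (.g (nat_lit 0) (.e (nat_lit 134130) (nat_lit 0) .nil) .nil))) 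
(.lf (nat_lit 487067) (.g (nat_lit 1021) (.e (nat_lit 24655) (nat_lit 13) (.e (nat_lit 393271) (nat_lit 23) (.e (nat_lit 426112) (nat_lit 1) .nil))) (.g (nat_lit 0) (.e (nat_lit 134953) (nat_lit 0) .nil) .nil)))) (.nd (nat_lit 9) 
(.lf (nat_lit 486811) (.g (nat_lit 2910) (.e (nat_lit 24636) (nat_lit 9) (.e (nat_lit 336451) (nat_lit 34) (.e (nat_lit 483363) (nat_lit 18) (.e (nat_lit 57847) (nat_lit 252) (.e (nat_lit 57372) (nat_lit 2) (.e (nat_lit 90160) (nat_lit 11) .nil)))))) (.g (nat_lit 1) (.e (nat_lit 134473) (nat_lit 0) .nil) .nil))) 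
(.lf (nat_lit 487323) (.g (nat_lit 1097) (.e (nat_lit 24660) (nat_lit 13) (.e (nat_lit 393238) (nat_lit 17) (.e (nat_lit 7101) (nat_lit 380) (.e (nat_lit 164292) (nat_lit 224) .nil)))) (.g (nat_lit 0) (.e (nat_lit 135283) (nat_lit 0) .nil) .nil)))))) (.nd (nat_lit 7) (.nd (nat_lit 8) (.nd (nat_lit 9) 
(.lf (nat_lit 486491) (.g (nat_lit 2555) (.e (nat_lit 24628) (nat_lit 9) (.e (nat_lit 336454) (nat_lit 34) (.e (nat_lit 483366) (nat_lit 18) (.e (nat_lit 57848) (nat_lit 252) (.e (nat_lit 57370) (nat_lit 2) (.e (nat_lit 90158) (nat_lit 11) .nil)))))) (.g (nat_lit 1) (.e (nat_lit 134063) (nat_lit 0) .nil) .nil))) 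
(.lf (nat_lit 487003) (.g (nat_lit 1627) (.e (nat_lit 24651) (nat_lit 12) (.e (nat_lit 385074) (nat_lit 31) (.e (nat_lit 573491) (nat_lit 15) (.e (nat_lit 81946) (nat_lit 20) .nil)))) (.g (nat_lit 0) (.e (nat_lit 134830) (nat_lit 0) .nil) .nil)))) (.nd (nat_lit 9) 
(.lf (nat_lit 486747) (.g (nat_lit 2195) (.e (nat_lit 24630) (nat_lit 9) (.e (nat_lit 336456) (nat_lit 34) (.e (nat_lit 483365) (nat_lit 18) (.e (nat_lit 57844) (nat_lit 252) (.e (nat_lit 57371) (nat_lit 2) (.e (nat_lit 90156) (nat_lit 11) .nil)))))) (.g (nat_lit 1) (.e (nat_lit 134396) (nat_lit 0) .nil) .nil))) 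
(.lf (nat_lit 487259) (.g (nat_lit 1584) (.e (nat_lit 24658) (nat_lit 13) (.e (nat_lit 393300) (nat_lit 27) (.e (nat_lit 491556) (nat_lit 9) (.e (nat_lit 335872) (nat_lit 0) .nil)))) (.g (nat_lit 0) (.e (nat_lit 135208) (nat_lit 0) .nil) .nil))))) (.nd (nat_lit 8) (.nd (nat_lit 9) 
(.lf (nat_lit 486619) (.g (nat_lit 2470) (.e (nat_lit 24630) (nat_lit 9) (.e (nat_lit 336369) (nat_lit 27) (.e (nat_lit 426173) (nat_lit 7) (.e (nat_lit 409649) (nat_lit 18) (.e (nat_lit 303111) (nat_lit 0) (.e (nat_lit 3578) (nat_lit 223) (.e (nat_lit 753408) (nat_lit 11) .nil))))))) (.g (nat_lit 1) (.e (nat_lit 134216) (nat_lit 0) .nil) .nil))) 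
(.lf (nat_lit 487131) (.g (nat_lit 2684) (.e (nat_lit 24657) (nat_lit 13) (.e (nat_lit 393229) (nat_lit 9) (.e (nat_lit 335995) (nat_lit 1) (.e (nat_lit 57846) (nat_lit 252) (.e (nat_lit 57375) (nat_lit 2) .nil))))) (.g (nat_lit 0) (.e (nat_lit 135039) (nat_lit 0) .nil) .nil)))) (.nd (nat_lit 9) 
(.lf (nat_lit 486875) (.g (nat_lit 3141) (.e (nat_lit 24640) (nat_lit 10) (.e (nat_lit 344156) (nat_lit 36) (.e (nat_lit 638998) (nat_lit 8) (.e (nat_lit 172106) (nat_lit 10) (.e (nat_lit 434209) (nat_lit 18) (.e (nat_lit 5841) (nat_lit 320) (.e (nat_lit 2551) (nat_lit 159) .nil))))))) (.g (nat_lit 1) (.e (nat_lit 134615) (nat_lit 0) .nil) .nil))) 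
(.lf (nat_lit 487387) (.g (nat_lit 1704) (.e (nat_lit 24660) (nat_lit 13) (.e (nat_lit 393281) (nat_lit 23) (.e (nat_lit 426100) (nat_lit 1) (.e (nat_lit 164322) (nat_lit 230) (.e (nat_lit 163878) (nat_lit 4) (.e (nat_lit 213030) (nat_lit 11) .nil)))))) (.g (nat_lit 1) (.e (nat_lit 135357) (nat_lit 0) .nil) .nil))))))) (.nd (nat_lit 6) (.nd (nat_lit 7) (.nd (nat_lit 8) (.nd (nat_lit 9) 
(.lf (nat_lit 486459) (.g (nat_lit 3429) (.e (nat_lit 24628) (nat_lit 9) (.e (nat_lit 336454) (nat_lit 34) (.e (nat_lit 483365) (nat_lit 18) (.e (nat_lit 57847) (nat_lit 252) (.e (nat_lit 57375) (nat_lit 2) (.e (nat_lit 90158) (nat_lit 11) .nil)))))) (.g (nat_lit 1) (.e (nat_lit 134031) (nat_lit 0) .nil) .nil))) 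
(.lf (nat_lit 486971) (.g (nat_lit 2401) (.e (nat_lit 24650) (nat_lit 12) (.e (nat_lit 385066) (nat_lit 26) (.e (nat_lit 532504) (nat_lit 1) (.e (nat_lit 57852) (nat_lit 252) (.e (nat_lit 57440) (nat_lit 18) (.e (nat_lit 392960) (nat_lit 10) .nil)))))) (.g (nat_lit 1) (.e (nat_lit 134778) (nat_lit 0) .nil) .nil)))) (.nd (nat_lit 9) 
(.lf (nat_lit 486715) (.g (nat_lit 3060) (.e (nat_lit 24630) (nat_lit 9) (.e (nat_lit 336454) (nat_lit 34) (.e (nat_lit 483365) (nat_lit 18) (.e (nat_lit 57852) (nat_lit 252) (.e (nat_lit 57370) (nat_lit 2) (.e (nat_lit 90158) (nat_lit 11) .nil)))))) (.g (nat_lit 1) (.e (nat_lit 134364) (nat_lit 0) .nil) .nil))) 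
(.lf (nat_lit 487227) (.g (nat_lit 1985) (.e (nat_lit 24658) (nat_lit 13) (.e (nat_lit 393281) (nat_lit 23) (.e (nat_lit 426100) (nat_lit 1) (.e (nat_lit 164329) (nat_lit 230) (.e (nat_lit 163878) (nat_lit 4) (.e (nat_lit 213030) (nat_lit 11) .nil)))))) (.g (nat_lit 1) (.e (nat_lit 135170) (nat_lit 0) .nil) .nil))))) (.nd (nat_lit 8) (.nd (nat_lit 9) 
(.lf (nat_lit 486587) (.g (nat_lit 1479) (.e (nat_lit 24629) (nat_lit 9) (.e (nat_lit 336456) (nat_lit 34) (.e (nat_lit 483365) (nat_lit 18) (.e (nat_lit 57851) (nat_lit 252) .nil)))) (.g (nat_lit 0) (.e (nat_lit 134165) (nat_lit 0) .nil) .nil))) 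
(.lf (nat_lit 487099) (.g (nat_lit 1087) (.e (nat_lit 24655) (nat_lit 13) (.e (nat_lit 393300) (nat_lit 27) (.e (nat_lit 491555) (nat_lit 9) (.e (nat_lit 335895) (nat_lit 0) .nil)))) (.g (nat_lit 0) (.e (nat_lit 134992) (nat_lit 0) .nil) .nil)))) (.nd (nat_lit 9) 
(.lf (nat_lit 486843) (.g (nat_lit 3582) (.e (nat_lit 24640) (nat_lit 10) (.e (nat_lit 344126) (nat_lit 25) (.e (nat_lit 548891) (nat_lit 11) (.e (nat_lit 81950) (nat_lit 21) .nil)))) (.g (nat_lit 0) (.e (nat_lit 134554) (nat_lit 0) .nil) .nil))) 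
(.lf (nat_lit 487355) (.g (nat_lit 3706) (.e (nat_lit 24660) (nat_lit 13) (.e (nat_lit 393260) (nat_lit 21) (.e (nat_lit 409649) (nat_lit 18) (.e (nat_lit 303111) (nat_lit 0) (.e (nat_lit 3579) (nat_lit 223) (.e (nat_lit 753408) (nat_lit 11) .nil)))))) (.g (nat_lit 1) (.e (nat_lit 135324) (nat_lit 0) .nil) .nil)))))) (.nd (nat_lit 7) (.nd (nat_lit 8) (.nd (nat_lit 9) 
(.lf (nat_lit 486523) (.g (nat_lit 2217) (.e (nat_lit 24628) (nat_lit 9) (.e (nat_lit 336456) (nat_lit 34) (.e (nat_lit 483365) (nat_lit 18) (.e (nat_lit 57851) (nat_lit 252) (.e (nat_lit 57370) (nat_lit 2) (.e (nat_lit 90158) (nat_lit 11) .nil)))))) (.g (nat_lit 1) (.e (nat_lit 134096) (nat_lit 0) .nil) .nil))) 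
(.lf (nat_lit 487035) (.g (nat_lit 2459) (.e (nat_lit 24653) (nat_lit 12) (.e (nat_lit 385074) (nat_lit 31) (.e (nat_lit 573484) (nat_lit 13) (.e (nat_lit 65610) (nat_lit 10) (.e (nat_lit 344129) (nat_lit 26) .nil))))) (.g (nat_lit 0) (.e (nat_lit 134906) (nat_lit 0) .nil) .nil)))) (.nd (nat_lit 9) 
(.lf (nat_lit 486779) (.g (nat_lit 4060) (.e (nat_lit 24631) (nat_lit 9) (.e (nat_lit 336389) (nat_lit 27) (.e (nat_lit 426344) (nat_lit 14) (.e (nat_lit 491560) (nat_lit 10) (.e (nat_lit 344179) (nat_lit 44) (.e (nat_lit 778466) (nat_lit 11) .nil)))))) (.g (nat_lit 1) (.e (nat_lit 134433) (nat_lit 0) .nil) .nil))) 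
(.lf (nat_lit 487291) (.g (nat_lit 1640) (.e (nat_lit 24659) (nat_lit 13) (.e (nat_lit 393280) (nat_lit 23) (.e (nat_lit 426098) (nat_lit 1) (.e (nat_lit 164325) (nat_lit 230) (.e (nat_lit 163882) (nat_lit 4) (.e (nat_lit 213032) (nat_lit 11) .nil)))))) (.g (nat_lit 1) (.e (nat_lit 135241) (nat_lit 0) .nil) .nil))))) (.nd (nat_lit 8) (.nd (nat_lit 9) 
(.lf (nat_lit 486651) (.g (nat_lit 1870) (.e (nat_lit 24630) (nat_lit 9) (.e (nat_lit 336443) (nat_lit 32) (.e (nat_lit 466971) (nat_lit 21) (.e (nat_lit 164325) (nat_lit 230) (.e (nat_lit 163880) (nat_lit 4) .nil))))) (.g (nat_lit 0) (.e (nat_lit 134289) (nat_lit 0) .nil) .nil))) 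
(.lf (nat_lit 487163) (.g (nat_lit 2647) (.e (nat_lit 24657) (nat_lit 13) (.e (nat_lit 393281) (nat_lit 23) (.e (nat_lit 426099) (nat_lit 1) (.e (nat_lit 164332) (nat_lit 230) (.e (nat_lit 163880) (nat_lit 4) (.e (nat_lit 213032) (nat_lit 11) .nil)))))) (.g (nat_lit 1) (.e (nat_lit 135081) (nat_lit 0) .nil) .nil)))) (.nd (nat_lit 9) 
(.lf (nat_lit 486907) (.g (nat_lit 2239) (.e (nat_lit 24640) (nat_lit 10) (.e (nat_lit 344156) (nat_lit 36) (.e (nat_lit 638998) (nat_lit 8) (.e (nat_lit 172115) (nat_lit 10) (.e (nat_lit 434202) (nat_lit 18) (.e (nat_lit 5796) (nat_lit 320) (.e (nat_lit 2552) (nat_lit 159) .nil))))))) (.g (nat_lit 1) (.e (nat_lit 134647) (nat_lit 0) .nil) .nil))) 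
(.lf (nat_lit 487419) (.g (nat_lit 3170) (.e (nat_lit 24661) (nat_lit 14) (.e (nat_lit 401459) (nat_lit 13) (.e (nat_lit 483372) (nat_lit 21) (.e (nat_lit 319511) (nat_lit 10) .nil)))) (.g (nat_lit 0) (.e (nat_lit 135428) (nat_lit 0) .nil) .nil)))))))))) (.nd (nat_lit 3) (.nd (nat_lit 4) (.nd (nat_lit 5) (.nd (nat_lit 6) (.nd (nat_lit 7) (.nd (nat_lit 8) (.nd (nat_lit 9) 
(.lf (nat_lit 486407) (.g (nat_lit 2648) (.e (nat_lit 24628) (nat_lit 9) (.e (nat_lit 336443) (nat_lit 32) (.e (nat_lit 466972) (nat_lit 21) (.e (nat_lit 164330) (nat_lit 230) (.e (nat_lit 163850) (nat_lit 0) (.e (nat_lit 3617) (nat_lit 227) (.e (nat_lit 778462) (nat_lit 11) .nil))))))) (.g (nat_lit 1) (.e (nat_lit 133979) (nat_lit 0) .nil) .nil))) 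
(.lf (nat_lit 486919) (.g (nat_lit 2590) (.e (nat_lit 24640) (nat_lit 10) (.e (nat_lit 344156) (nat_lit 36) (.e (nat_lit 638999) (nat_lit 8) (.e (nat_lit 172113) (nat_lit 10) (.e (nat_lit 434203) (nat_lit 18) (.e (nat_lit 5799) (nat_lit 320) (.e (nat_lit 2551) (nat_lit 159) .nil))))))) (.g (nat_lit 1) (.e (nat_lit 134666) (nat_lit 0) .nil) .nil)))) (.nd (nat_lit 9) 
(.lf (nat_lit 486663) (.g (nat_lit 1855) (.e (nat_lit 24630) (nat_lit 9) (.e (nat_lit 336454) (nat_lit 34) (.e (nat_lit 483363) (nat_lit 18) (.e (nat_lit 57845) (nat_lit 252) .nil)))) (.g (nat_lit 0) (.e (nat_lit 134310) (nat_lit 0) .nil) .nil))) 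
(.lf (nat_lit 487175) (.g (nat_lit 1565) (.e (nat_lit 24657) (nat_lit 13) (.e (nat_lit 393298) (nat_lit 27) (.e (nat_lit 491552) (nat_lit 9) (.e (nat_lit 336050) (nat_lit 6) .nil)))) (.g (nat_lit 0) (.e (nat_lit 135103) (nat_lit 0) .nil) .nil))))) (.nd (nat_lit 8) (.nd (nat_lit 9) 
(.lf (nat_lit 486535) (.g (nat_lit 4114) (.e (nat_lit 24629) (nat_lit 9) (.e (nat_lit 336324) (nat_lit 18) (.e (nat_lit 204831) (nat_lit 18) (.e (nat_lit 57852) (nat_lit 252) .nil)))) (.g (nat_lit 0) (.e (nat_lit 134108) (nat_lit 0) .nil) .nil))) 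
(.lf (nat_lit 487047) (.g (nat_lit 598) (.e (nat_lit 24654) (nat_lit 13) (.e (nat_lit 393238) (nat_lit 17) (.e (nat_lit 7101) (nat_lit 380) .nil))) (.g (nat_lit 0) (.e (nat_lit 134926) (nat_lit 0) .nil) .nil)))) (.nd (nat_lit 9) 
(.lf (nat_lit 486791) (.g (nat_lit 797) (.e (nat_lit 24634) (nat_lit 9) (.e (nat_lit 336013) (nat_lit 2) (.e (nat_lit 98048) (nat_lit 2) .nil))) (.g (nat_lit 0) (.e (nat_lit 134452) (nat_lit 0) .nil) .nil))) 
(.lf (nat_lit 487303) (.g (nat_lit 2467) (.e (nat_lit 24659) (nat_lit 13) (.e (nat_lit 393281) (nat_lit 23) (.e (nat_lit 426100) (nat_lit 1) (.e (nat_lit 164330) (nat_lit 230) (.e (nat_lit 163878) (nat_lit 4) (.e (nat_lit 213030) (nat_lit 11) .nil)))))) (.g (nat_lit 1) (.e (nat_lit 135253) (nat_lit 0) .nil) .nil)))))) (.nd (nat_lit 7) (.nd (nat_lit 8) (.nd (nat_lit 9) 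
(.lf (nat_lit 486471) (.g (nat_lit 3446) (.e (nat_lit 24628) (nat_lit 9) (.e (nat_lit 336454) (nat_lit 34) (.e (nat_lit 483365) (nat_lit 18) (.e (nat_lit 57852) (nat_lit 252) (.e (nat_lit 57371) (nat_lit 2) (.e (nat_lit 90158) (nat_lit 11) .nil)))))) (.g (nat_lit 1) (.e (nat_lit 134043) (nat_lit 0) .nil) .nil))) 
(.lf (nat_lit 486983) (.g (nat_lit 4257) (.e (nat_lit 24650) (nat_lit 12) (.e (nat_lit 385072) (nat_lit 31) (.e (nat_lit 573482) (nat_lit 13) (.e (nat_lit 65619) (nat_lit 10) (.e (nat_lit 344129) (nat_lit 26) (.e (nat_lit 557087) (nat_lit 11) .nil)))))) (.g (nat_lit 1) (.e (nat_lit 134794) (nat_lit 0) .nil) .nil)))) (.nd (nat_lit 9) 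
(.lf (nat_lit 486727) (.g (nat_lit 3533) (.e (nat_lit 24630) (nat_lit 9) (.e (nat_lit 336456) (nat_lit 34) (.e (nat_lit 483363) (nat_lit 18) (.e (nat_lit 57847) (nat_lit 252) (.e (nat_lit 57373) (nat_lit 2) (.e (nat_lit 90158) (nat_lit 11) .nil)))))) (.g (nat_lit 1) (.e (nat_lit 134376) (nat_lit 0) .nil) .nil))) 
(.lf (nat_lit 487239) (.g (nat_lit 380) (.e (nat_lit 24658) (nat_lit 13) (.e (nat_lit 393281) (nat_lit 23) (.e (nat_lit 426108) (nat_lit 1) .nil))) (.g (nat_lit 0) (.e (nat_lit 135183) (nat_lit 0) .nil) .nil))))) (.nd (nat_lit 8) (.nd (nat_lit 9) 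
(.lf (nat_lit 486599) (.g (nat_lit 4673) (.e (nat_lit 24630) (nat_lit 9) (.e (nat_lit 336324) (nat_lit 18) (.e (nat_lit 204831) (nat_lit 18) (.e (nat_lit 57848) (nat_lit 252) .nil)))) (.g (nat_lit 0) (.e (nat_lit 134189) (nat_lit 0) .nil) .nil))) 
(.lf (nat_lit 487111) (.g (nat_lit 1849) (.e (nat_lit 24656) (nat_lit 13) (.e (nat_lit 393281) (nat_lit 23) (.e (nat_lit 426098) (nat_lit 1) (.e (nat_lit 164327) (nat_lit 230) (.e (nat_lit 163882) (nat_lit 4) (.e (nat_lit 213031) (nat_lit 11) .nil)))))) (.g (nat_lit 1) (.e (nat_lit 135009) (nat_lit 0) .nil) .nil)))) (.nd (nat_lit 9) 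
(.lf (nat_lit 486855) (.g (nat_lit 3612) (.e (nat_lit 24640) (nat_lit 10) (.e (nat_lit 344156) (nat_lit 36) (.e (nat_lit 638985) (nat_lit 5) (.e (nat_lit 3015) (nat_lit 187) (.e (nat_lit 450562) (nat_lit 0) (.e (nat_lit 5812) (nat_lit 320) (.e (nat_lit 2552) (nat_lit 159) .nil))))))) (.g (nat_lit 1) (.e (nat_lit 134595) (nat_lit 0) .nil) .nil))) 
(.lf (nat_lit 487367) (.g (nat_lit 1706) (.e (nat_lit 24660) (nat_lit 13) (.e (nat_lit 393274) (nat_lit 23) (.e (nat_lit 426097) (nat_lit 1) (.e (nat_lit 164327) (nat_lit 230) (.e (nat_lit 163881) (nat_lit 4) (.e (nat_lit 213030) (nat_lit 11) .nil)))))) (.g (nat_lit 1) (.e (nat_lit 135337) (nat_lit 0) .nil) .nil))))))) (.nd (nat_lit 6) (.nd (nat_lit 7) (.nd (nat_lit 8) (.nd (nat_lit 9) 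
(.lf (nat_lit 486439) (.g (nat_lit 3114) (.e (nat_lit 24628) (nat_lit 9) (.e (nat_lit 336454) (nat_lit 34) (.e (nat_lit 483364) (nat_lit 18) (.e (nat_lit 57852) (nat_lit 252) (.e (nat_lit 57371) (nat_lit 2) (.e (nat_lit 90158) (nat_lit 11) .nil)))))) (.g (nat_lit 1) (.e (nat_lit 134011) (nat_lit 0) .nil) .nil))) 
(.lf (nat_lit 486951) (.g (nat_lit 2104) (.e (nat_lit 24647) (nat_lit 12) (.e (nat_lit 385105) (nat_lit 50) (.e (nat_lit 786483) (nat_lit 30) (.e (nat_lit 360451) (nat_lit 0) (.e (nat_lit 4764) (nat_lit 281) .nil))))) (.g (nat_lit 0) (.e (nat_lit 134725) (nat_lit 0) .nil) .nil)))) (.nd (nat_lit 9) 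
(.lf (nat_lit 486695) (.g (nat_lit 2370) (.e (nat_lit 24630) (nat_lit 9) (.e (nat_lit 336454) (nat_lit 34) (.e (nat_lit 483365) (nat_lit 18) (.e (nat_lit 57846) (nat_lit 252) (.e (nat_lit 57375) (nat_lit 2) (.e (nat_lit 90158) (nat_lit 11) .nil)))))) (.g (nat_lit 1) (.e (nat_lit 134342) (nat_lit 0) .nil) .nil))) 
(.lf (nat_lit 487207) (.g (nat_lit 2126) (.e (nat_lit 24658) (nat_lit 13) (.e (nat_lit 393281) (nat_lit 23) (.e (nat_lit 426098) (nat_lit 1) (.e (nat_lit 164325) (nat_lit 230) (.e (nat_lit 163894) (nat_lit 9) (.e (nat_lit 262165) (nat_lit 11) .nil)))))) (.g (nat_lit 1) (.e (nat_lit 135147) (nat_lit 0) .nil) .nil))))) (.nd (nat_lit 8) (.nd (nat_lit 9) 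
(.lf (nat_lit 486567) (.g (nat_lit 2454) (.e (nat_lit 24629) (nat_lit 9) (.e (nat_lit 336443) (nat_lit 32) (.e (nat_lit 466972) (nat_lit 21) (.e (nat_lit 164322) (nat_lit 230) (.e (nat_lit 163878) (nat_lit 4) .nil))))) (.g (nat_lit 0) (.e (nat_lit 134143) (nat_lit 0) .nil) .nil))) 
(.lf (nat_lit 487079) (.g (nat_lit 2543) (.e (nat_lit 24655) (nat_lit 13) (.e (nat_lit 393281) (nat_lit 23) (.e (nat_lit 426099) (nat_lit 1) (.e (nat_lit 164332) (nat_lit 230) (.e (nat_lit 163878) (nat_lit 4) (.e (nat_lit 213030) (nat_lit 11) .nil)))))) (.g (nat_lit 1) (.e (nat_lit 134966) (nat_lit 0) .nil) .nil)))) (.nd (nat_lit 9) 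
(.lf (nat_lit 486823) (.g (nat_lit 2912) (.e (nat_lit 24638) (nat_lit 9) (.e (nat_lit 336387) (nat_lit 27) (.e (nat_lit 426343) (nat_lit 14) (.e (nat_lit 491560) (nat_lit 10) (.e (nat_lit 344179) (nat_lit 44) (.e (nat_lit 778466) (nat_lit 11) .nil)))))) (.g (nat_lit 1) (.e (nat_lit 134521) (nat_lit 0) .nil) .nil))) 
(.lf (nat_lit 487335) (.g (nat_lit 2552) (.e (nat_lit 24660) (nat_lit 13) (.e (nat_lit 393260) (nat_lit 21) (.e (nat_lit 409617) (nat_lit 10) (.e (nat_lit 5016) (nat_lit 290) (.e (nat_lit 164108) (nat_lit 116) (.e (nat_lit 786176) (nat_lit 11) .nil)))))) (.g (nat_lit 1) (.e (nat_lit 135303) (nat_lit 0) .nil) .nil)))))) (.nd (nat_lit 7) (.nd (nat_lit 8) (.nd (nat_lit 9) 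
(.lf (nat_lit 486503) (.g (nat_lit 3099) (.e (nat_lit 24628) (nat_lit 9) (.e (nat_lit 336456) (nat_lit 34) (.e (nat_lit 483363) (nat_lit 18) (.e (nat_lit 57854) (nat_lit 252) (.e (nat_lit 57371) (nat_lit 2) (.e (nat_lit 90158) (nat_lit 11) .nil)))))) (.g (nat_lit 1) (.e (nat_lit 134075) (nat_lit 0) .nil) .nil))) 
(.lf (nat_lit 487015) (.g (nat_lit 2342) (.e (nat_lit 24651) (nat_lit 12) (.e (nat_lit 385106) (nat_lit 50) (.e (nat_lit 786483) (nat_lit 30) (.e (nat_lit 360451) (nat_lit 0) (.e (nat_lit 4823) (nat_lit 281) .nil))))) (.g (nat_lit 0) (.e (nat_lit 134856) (nat_lit 0) .nil) .nil)))) (.nd (nat_lit 9) 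
(.lf (nat_lit 486759) (.g (nat_lit 2544) (.e (nat_lit 24630) (nat_lit 9) (.e (nat_lit 336456) (nat_lit 34) (.e (nat_lit 483365) (nat_lit 18) (.e (nat_lit 57848) (nat_lit 252) (.e (nat_lit 57375) (nat_lit 2) (.e (nat_lit 90158) (nat_lit 11) .nil)))))) (.g (nat_lit 1) (.e (nat_lit 134411) (nat_lit 0) .nil) .nil))) 
(.lf (nat_lit 487271) (.g (nat_lit 2295) (.e (nat_lit 24658) (nat_lit 13) (.e (nat_lit 393301) (nat_lit 27) (.e (nat_lit 491560) (nat_lit 10) (.e (nat_lit 344088) (nat_lit 18) .nil)))) (.g (nat_lit 0) (.e (nat_lit 135220) (nat_lit 0) .nil) .nil))))) (.nd (nat_lit 8) (.nd (nat_lit 9) 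
(.lf (nat_lit 486631) (.g (nat_lit 3343) (.e (nat_lit 24630) (nat_lit 9) (.e (nat_lit 336369) (nat_lit 27) (.e (nat_lit 426501) (nat_lit 27) (.e (nat_lit 335996) (nat_lit 1) (.e (nat_lit 57854) (nat_lit 252) (.e (nat_lit 57371) (nat_lit 2) (.e (nat_lit 90160) (nat_lit 11) .nil))))))) (.g (nat_lit 1) (.e (nat_lit 134230) (nat_lit 0) .nil) .nil))) 
(.lf (nat_lit 487143) (.g (nat_lit 799) (.e (nat_lit 24657) (nat_lit 13) (.e (nat_lit 393260) (nat_lit 21) (.e (nat_lit 409615) (nat_lit 10) .nil))) (.g (nat_lit 0) (.e (nat_lit 135058) (nat_lit 0) .nil) .nil)))) (.nd (nat_lit 9) 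
(.lf (nat_lit 486887) (.g (nat_lit 3186) (.e (nat_lit 24640) (nat_lit 10) (.e (nat_lit 344156) (nat_lit 36) (.e (nat_lit 638998) (nat_lit 8) (.e (nat_lit 172113) (nat_lit 10) (.e (nat_lit 434203) (nat_lit 18) (.e (nat_lit 5798) (nat_lit 320) (.e (nat_lit 2558) (nat_lit 159) .nil))))))) (.g (nat_lit 1) (.e (nat_lit 134627) (nat_lit 0) .nil) .nil))) 
(.lf (nat_lit 487399) (.g (nat_lit 4848) (.e (nat_lit 24661) (nat_lit 14) (.e (nat_lit 401427) (nat_lit 3) (.e (nat_lit 204869) (nat_lit 29) (.e (nat_lit 360475) (nat_lit 8) (.e (nat_lit 557087) (nat_lit 11) .nil))))) (.g (nat_lit 1) (.e (nat_lit 135384) (nat_lit 0) .nil) .nil)))))))) (.nd (nat_lit 5) (.nd (nat_lit 6) (.nd (nat_lit 7) (.nd (nat_lit 8) (.nd (nat_lit 9) 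
(.lf (nat_lit 486423) (.g (nat_lit 3376) (.e (nat_lit 24628) (nat_lit 9) (.e (nat_lit 336443) (nat_lit 32) (.e (nat_lit 466972) (nat_lit 21) (.e (nat_lit 164332) (nat_lit 230) (.e (nat_lit 163880) (nat_lit 4) (.e (nat_lit 213030) (nat_lit 11) .nil)))))) (.g (nat_lit 1) (.e (nat_lit 133995) (nat_lit 0) .nil) .nil))) 
(.lf (nat_lit 486935) (.g (nat_lit 1571) (.e (nat_lit 24644) (nat_lit 11) (.e (nat_lit 368676) (nat_lit 21) (.e (nat_lit 516106) (nat_lit 0) (.e (nat_lit 7936) (nat_lit 407) .nil)))) (.g (nat_lit 0) (.e (nat_lit 134700) (nat_lit 0) .nil) .nil)))) (.nd (nat_lit 9) 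
(.lf (nat_lit 486679) (.g (nat_lit 4063) (.e (nat_lit 24630) (nat_lit 9) (.e (nat_lit 336454) (nat_lit 34) (.e (nat_lit 483363) (nat_lit 18) (.e (nat_lit 57854) (nat_lit 252) (.e (nat_lit 57373) (nat_lit 2) (.e (nat_lit 90160) (nat_lit 11) .nil)))))) (.g (nat_lit 1) (.e (nat_lit 134326) (nat_lit 0) .nil) .nil))) 
(.lf (nat_lit 487191) (.g (nat_lit 470) (.e (nat_lit 24658) (nat_lit 13) (.e (nat_lit 393234) (nat_lit 17) (.e (nat_lit 7936) (nat_lit 406) .nil))) (.g (nat_lit 0) (.e (nat_lit 135125) (nat_lit 0) .nil) .nil))))) (.nd (nat_lit 8) (.nd (nat_lit 9) 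
(.lf (nat_lit 486551) (.g (nat_lit 1988) (.e (nat_lit 24629) (nat_lit 9) (.e (nat_lit 336430) (nat_lit 29) (.e (nat_lit 442421) (nat_lit 21) (.e (nat_lit 164326) (nat_lit 230) (.e (nat_lit 163881) (nat_lit 4) .nil))))) (.g (nat_lit 0) (.e (nat_lit 134126) (nat_lit 0) .nil) .nil))) 
(.lf (nat_lit 487063) (.g (nat_lit 2798) (.e (nat_lit 24655) (nat_lit 13) (.e (nat_lit 393229) (nat_lit 9) (.e (nat_lit 335994) (nat_lit 1) (.e (nat_lit 57849) (nat_lit 252) (.e (nat_lit 57374) (nat_lit 2) (.e (nat_lit 90158) (nat_lit 11) .nil)))))) (.g (nat_lit 1) (.e (nat_lit 134943) (nat_lit 0) .nil) .nil)))) (.nd (nat_lit 9) 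
(.lf (nat_lit 486807) (.g (nat_lit 2052) (.e (nat_lit 24636) (nat_lit 9) (.e (nat_lit 336407) (nat_lit 27) (.e (nat_lit 426011) (nat_lit 0) (.e (nat_lit 7591) (nat_lit 407) (.e (nat_lit 73776) (nat_lit 26) .nil))))) (.g (nat_lit 0) (.e (nat_lit 134469) (nat_lit 0) .nil) .nil))) 
(.lf (nat_lit 487319) (.g (nat_lit 2799) (.e (nat_lit 24659) (nat_lit 13) (.e (nat_lit 393301) (nat_lit 27) (.e (nat_lit 491560) (nat_lit 10) (.e (nat_lit 344089) (nat_lit 18) .nil)))) (.g (nat_lit 0) (.e (nat_lit 135271) (nat_lit 0) .nil) .nil)))))) (.nd (nat_lit 7) (.nd (nat_lit 8) (.nd (nat_lit 9) 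
(.lf (nat_lit 486487) (.g (nat_lit 2118) (.e (nat_lit 24628) (nat_lit 9) (.e (nat_lit 336454) (nat_lit 34) (.e (nat_lit 483366) (nat_lit 18) (.e (nat_lit 57847) (nat_lit 252) (.e (nat_lit 57371) (nat_lit 2) (.e (nat_lit 90158) (nat_lit 11) .nil)))))) (.g (nat_lit 1) (.e (nat_lit 134059) (nat_lit 0) .nil) .nil))) 
(.lf (nat_lit 486999) (.g (nat_lit 1986) (.e (nat_lit 24651) (nat_lit 12) (.e (nat_lit 385072) (nat_lit 31) (.e (nat_lit 573485) (nat_lit 13) (.e (nat_lit 65619) (nat_lit 10) (.e (nat_lit 344129) (nat_lit 26) (.e (nat_lit 557085) (nat_lit 11) .nil)))))) (.g (nat_lit 1) (.e (nat_lit 134824) (nat_lit 0) .nil) .nil)))) (.nd (nat_lit 9) 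
(.lf (nat_lit 486743) (.g (nat_lit 2568) (.e (nat_lit 24630) (nat_lit 9) (.e (nat_lit 336456) (nat_lit 34) (.e (nat_lit 483364) (nat_lit 18) (.e (nat_lit 57854) (nat_lit 252) (.e (nat_lit 57371) (nat_lit 2) (.e (nat_lit 90156) (nat_lit 11) .nil)))))) (.g (nat_lit 1) (.e (nat_lit 134392) (nat_lit 0) .nil) .nil))) 
(.lf (nat_lit 487255) (.g (nat_lit 1788) (.e (nat_lit 24658) (nat_lit 13) (.e (nat_lit 393299) (nat_lit 27) (.e (nat_lit 491560) (nat_lit 10) (.e (nat_lit 352000) (nat_lit 44) .nil)))) (.g (nat_lit 0) (.e (nat_lit 135204) (nat_lit 0) .nil) .nil))))) (.nd (nat_lit 8) (.nd (nat_lit 9) 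
(.lf (nat_lit 486615) (.g (nat_lit 2831) (.e (nat_lit 24630) (nat_lit 9) (.e (nat_lit 336369) (nat_lit 27) (.e (nat_lit 426025) (nat_lit 0) (.e (nat_lit 7107) (nat_lit 380) (.e (nat_lit 164288) (nat_lit 224) (.e (nat_lit 164104) (nat_lit 116) (.e (nat_lit 778462) (nat_lit 11) .nil))))))) (.g (nat_lit 1) (.e (nat_lit 134208) (nat_lit 0) .nil) .nil))) 
(.lf (nat_lit 487127) (.g (nat_lit 2030) (.e (nat_lit 24657) (nat_lit 13) (.e (nat_lit 393229) (nat_lit 9) (.e (nat_lit 335986) (nat_lit 1) (.e (nat_lit 57853) (nat_lit 252) .nil)))) (.g (nat_lit 0) (.e (nat_lit 135035) (nat_lit 0) .nil) .nil)))) (.nd (nat_lit 9) 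
(.lf (nat_lit 486871) (.g (nat_lit 2632) (.e (nat_lit 24640) (nat_lit 10) (.e (nat_lit 344156) (nat_lit 36) (.e (nat_lit 638985) (nat_lit 5) (.e (nat_lit 3027) (nat_lit 187) (.e (nat_lit 450561) (nat_lit 0) (.e (nat_lit 5811) (nat_lit 320) (.e (nat_lit 2559) (nat_lit 159) .nil))))))) (.g (nat_lit 1) (.e (nat_lit 134611) (nat_lit 0) .nil) .nil))) 
(.lf (nat_lit 487383) (.g (nat_lit 2569) (.e (nat_lit 24660) (nat_lit 13) (.e (nat_lit 393281) (nat_lit 23) (.e (nat_lit 426098) (nat_lit 1) (.e (nat_lit 164327) (nat_lit 230) (.e (nat_lit 163882) (nat_lit 4) (.e (nat_lit 213030) (nat_lit 11) .nil)))))) (.g (nat_lit 1) (.e (nat_lit 135353) (nat_lit 0) .nil) .nil))))))) (.nd (nat_lit 6) (.nd (nat_lit 7) (.nd (nat_lit 8) (.nd (nat_lit 9) 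
(.lf (nat_lit 486455) (.g (nat_lit 3455) (.e (nat_lit 24628) (nat_lit 9) (.e (nat_lit 336454) (nat_lit 34) (.e (nat_lit 483365) (nat_lit 18) (.e (nat_lit 57847) (nat_lit 252) (.e (nat_lit 57370) (nat_lit 2) (.e (nat_lit 90158) (nat_lit 11) .nil)))))) (.g (nat_lit 1) (.e (nat_lit 134027) (nat_lit 0) .nil) .nil))) 
(.lf (nat_lit 486967) (.g (nat_lit 3691) (.e (nat_lit 24650) (nat_lit 12) (.e (nat_lit 385066) (nat_lit 26) (.e (nat_lit 532499) (nat_lit 1) (.e (nat_lit 57847) (nat_lit 252) (.e (nat_lit 57443) (nat_lit 18) .nil))))) (.g (nat_lit 0) (.e (nat_lit 134774) (nat_lit 0) .nil) .nil)))) (.nd (nat_lit 9) 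
(.lf (nat_lit 486711) (.g (nat_lit 3962) (.e (nat_lit 24630) (nat_lit 9) (.e (nat_lit 336454) (nat_lit 34) (.e (nat_lit 483365) (nat_lit 18) (.e (nat_lit 57850) (nat_lit 252) .nil)))) (.g (nat_lit 0) (.e (nat_lit 134360) (nat_lit 0) .nil) .nil))) 
(.lf (nat_lit 487223) (.g (nat_lit 2143) (.e (nat_lit 24658) (nat_lit 13) (.e (nat_lit 393281) (nat_lit 23) (.e (nat_lit 426100) (nat_lit 1) (.e (nat_lit 164305) (nat_lit 226) (.e (nat_lit 2612) (nat_lit 163) (.e (nat_lit 164040) (nat_lit 55) (.e (nat_lit 786176) (nat_lit 11) .nil))))))) (.g (nat_lit 1) (.e (nat_lit 135165) (nat_lit 0) .nil) .nil))))) (.nd (nat_lit 8) (.nd (nat_lit 9) 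
(.lf (nat_lit 486583) (.g (nat_lit 1896) (.e (nat_lit 24629) (nat_lit 9) (.e (nat_lit 336456) (nat_lit 34) (.e (nat_lit 483364) (nat_lit 18) (.e (nat_lit 57854) (nat_lit 252) (.e (nat_lit 57371) (nat_lit 2) .nil))))) (.g (nat_lit 0) (.e (nat_lit 134160) (nat_lit 0) .nil) .nil))) 
(.lf (nat_lit 487095) (.g (nat_lit 825) (.e (nat_lit 24655) (nat_lit 13) (.e (nat_lit 393298) (nat_lit 27) (.e (nat_lit 491552) (nat_lit 9) .nil))) (.g (nat_lit 0) (.e (nat_lit 134988) (nat_lit 0) .nil) .nil)))) (.nd (nat_lit 9) 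
(.lf (nat_lit 486839) (.g (nat_lit 2015) (.e (nat_lit 32512) (nat_lit 9) (.e (nat_lit 336456) (nat_lit 34) (.e (nat_lit 483365) (nat_lit 18) (.e (nat_lit 57849) (nat_lit 252) (.e (nat_lit 57372) (nat_lit 2) .nil))))) (.g (nat_lit 0) (.e (nat_lit 134537) (nat_lit 0) .nil) .nil))) 
(.lf (nat_lit 487351) (.g (nat_lit 1363) (.e (nat_lit 24660) (nat_lit 13) (.e (nat_lit 393260) (nat_lit 21) (.e (nat_lit 409649) (nat_lit 18) (.e (nat_lit 303111) (nat_lit 0) .nil)))) (.g (nat_lit 0) (.e (nat_lit 135320) (nat_lit 0) .nil) .nil)))))) (.nd (nat_lit 7) (.nd (nat_lit 8) (.nd (nat_lit 9) 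
(.lf (nat_lit 486519) (.g (nat_lit 3105) (.e (nat_lit 24628) (nat_lit 9) (.e (nat_lit 336456) (nat_lit 34) (.e (nat_lit 483365) (nat_lit 18) (.e (nat_lit 57847) (nat_lit 252) (.e (nat_lit 57375) (nat_lit 2) (.e (nat_lit 90158) (nat_lit 11) .nil)))))) (.g (nat_lit 1) (.e (nat_lit 134091) (nat_lit 0) .nil) .nil))) 
(.lf (nat_lit 487031) (.g (nat_lit 2976) (.e (nat_lit 24653) (nat_lit 12) (.e (nat_lit 385073) (nat_lit 31) (.e (nat_lit 573482) (nat_lit 13) (.e (nat_lit 65619) (nat_lit 10) (.e (nat_lit 344129) (nat_lit 26) (.e (nat_lit 557086) (nat_lit 11) .nil)))))) (.g (nat_lit 1) (.e (nat_lit 134892) (nat_lit 0) .nil) .nil)))) (.nd (nat_lit 9) 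
(.lf (nat_lit 486775) (.g (nat_lit 2587) (.e (nat_lit 24631) (nat_lit 9) (.e (nat_lit 336389) (nat_lit 27) (.e (nat_lit 426343) (nat_lit 14) (.e (nat_lit 491558) (nat_lit 10) (.e (nat_lit 344180) (nat_lit 44) .nil))))) (.g (nat_lit 0) (.e (nat_lit 134429) (nat_lit 0) .nil) .nil))) 
(.lf (nat_lit 487287) (.g (nat_lit 1438) (.e (nat_lit 24659) (nat_lit 13) (.e (nat_lit 393279) (nat_lit 23) (.e (nat_lit 426110) (nat_lit 1) (.e (nat_lit 164327) (nat_lit 230) (.e (nat_lit 163881) (nat_lit 4) (.e (nat_lit 213030) (nat_lit 11) .nil)))))) (.g (nat_lit 1) (.e (nat_lit 135237) (nat_lit 0) .nil) .nil))))) (.nd (nat_lit 8) (.nd (nat_lit 9) 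
(.lf (nat_lit 486647) (.g (nat_lit 3092) (.e (nat_lit 24630) (nat_lit 9) (.e (nat_lit 336443) (nat_lit 32) (.e (nat_lit 466969) (nat_lit 21) (.e (nat_lit 164327) (nat_lit 230) (.e (nat_lit 163881) (nat_lit 4) (.e (nat_lit 213032) (nat_lit 11) .nil)))))) (.g (nat_lit 1) (.e (nat_lit 134285) (nat_lit 0) .nil) .nil))) 
(.lf (nat_lit 487159) (.g (nat_lit 2282) (.e (nat_lit 24657) (nat_lit 13) (.e (nat_lit 393281) (nat_lit 23) (.e (nat_lit 426098) (nat_lit 1) (.e (nat_lit 164327) (nat_lit 230) (.e (nat_lit 163882) (nat_lit 4) (.e (nat_lit 213031) (nat_lit 11) .nil)))))) (.g (nat_lit 1) (.e (nat_lit 135077) (nat_lit 0) .nil) .nil)))) (.nd (nat_lit 9) 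
(.lf (nat_lit 486903) (.g (nat_lit 2476) (.e (nat_lit 24640) (nat_lit 10) (.e (nat_lit 344156) (nat_lit 36) (.e (nat_lit 638998) (nat_lit 8) (.e (nat_lit 172113) (nat_lit 10) (.e (nat_lit 434208) (nat_lit 18) (.e (nat_lit 5796) (nat_lit 320) (.e (nat_lit 2558) (nat_lit 159) .nil))))))) (.g (nat_lit 1) (.e (nat_lit 134643) (nat_lit 0) .nil) .nil))) 
(.lf (nat_lit 487415) (.g (nat_lit 4015) (.e (nat_lit 24661) (nat_lit 14) (.e (nat_lit 401459) (nat_lit 13) (.e (nat_lit 483372) (nat_lit 21) (.e (nat_lit 319502) (nat_lit 10) (.e (nat_lit 5747) (nat_lit 314) .nil))))) (.g (nat_lit 1) (.e (nat_lit 135424) (nat_lit 0) .nil) .nil))))))))) (.nd (nat_lit 4) (.nd (nat_lit 5) (.nd (nat_lit 6) (.nd (nat_lit 7) (.nd (nat_lit 8) (.nd (nat_lit 9) 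
(.lf (nat_lit 486415) (.g (nat_lit 2648) (.e (nat_lit 24628) (nat_lit 9) (.e (nat_lit 336443) (nat_lit 32) (.e (nat_lit 466972) (nat_lit 21) (.e (nat_lit 164330) (nat_lit 230) (.e (nat_lit 171776) (nat_lit 4) (.e (nat_lit 213032) (nat_lit 11) .nil)))))) (.g (nat_lit 1) (.e (nat_lit 133987) (nat_lit 0) .nil) .nil))) 
(.lf (nat_lit 486927) (.g (nat_lit 2995) (.e (nat_lit 24641) (nat_lit 10) (.e (nat_lit 344130) (nat_lit 26) (.e (nat_lit 557119) (nat_lit 18) (.e (nat_lit 2798) (nat_lit 180) (.e (nat_lit 303133) (nat_lit 9) (.e (nat_lit 426412) (nat_lit 15) (.e (nat_lit 7936) (nat_lit 359) .nil))))))) (.g (nat_lit 1) (.e (nat_lit 134681) (nat_lit 0) .nil) .nil)))) (.nd (nat_lit 9) 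
(.lf (nat_lit 486671) (.g (nat_lit 3614) (.e (nat_lit 24630) (nat_lit 9) (.e (nat_lit 336454) (nat_lit 34) (.e (nat_lit 483363) (nat_lit 18) (.e (nat_lit 57849) (nat_lit 252) (.e (nat_lit 57372) (nat_lit 2) (.e (nat_lit 90158) (nat_lit 11) .nil)))))) (.g (nat_lit 1) (.e (nat_lit 134318) (nat_lit 0) .nil) .nil))) 
(.lf (nat_lit 487183) (.g (nat_lit 2226) (.e (nat_lit 24658) (nat_lit 13) (.e (nat_lit 393225) (nat_lit 9) (.e (nat_lit 335995) (nat_lit 1) (.e (nat_lit 57847) (nat_lit 252) (.e (nat_lit 57348) (nat_lit 0) .nil))))) (.g (nat_lit 0) (.e (nat_lit 135116) (nat_lit 0) .nil) .nil))))) (.nd (nat_lit 8) (.nd (nat_lit 9) 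
(.lf (nat_lit 486543) (.g (nat_lit 1647) (.e (nat_lit 24629) (nat_lit 9) (.e (nat_lit 336430) (nat_lit 29) (.e (nat_lit 442419) (nat_lit 21) (.e (nat_lit 164326) (nat_lit 230) (.e (nat_lit 163881) (nat_lit 4) (.e (nat_lit 213032) (nat_lit 11) .nil)))))) (.g (nat_lit 1) (.e (nat_lit 134118) (nat_lit 0) .nil) .nil))) 
(.lf (nat_lit 487055) (.g (nat_lit 1039) (.e (nat_lit 24654) (nat_lit 13) (.e (nat_lit 393293) (nat_lit 26) (.e (nat_lit 475214) (nat_lit 42) (.e (nat_lit 728832) (nat_lit 4) .nil)))) (.g (nat_lit 0) (.e (nat_lit 134934) (nat_lit 0) .nil) .nil)))) (.nd (nat_lit 9) 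
(.lf (nat_lit 486799) (.g (nat_lit 603) (.e (nat_lit 24634) (nat_lit 9) (.e (nat_lit 336389) (nat_lit 27) (.e (nat_lit 426009) (nat_lit 0) .nil))) (.g (nat_lit 0) (.e (nat_lit 134460) (nat_lit 0) .nil) .nil))) 
(.lf (nat_lit 487311) (.g (nat_lit 851) (.e (nat_lit 24659) (nat_lit 13) (.e (nat_lit 393292) (nat_lit 26) (.e (nat_lit 475212) (nat_lit 42) (.e (nat_lit 728832) (nat_lit 4) .nil)))) (.g (nat_lit 0) (.e (nat_lit 135263) (nat_lit 0) .nil) .nil)))))) (.nd (nat_lit 7) (.nd (nat_lit 8) (.nd (nat_lit 9) 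
(.lf (nat_lit 486479) (.g (nat_lit 4154) (.e (nat_lit 24628) (nat_lit 9) (.e (nat_lit 336454) (nat_lit 34) (.e (nat_lit 483365) (nat_lit 18) (.e (nat_lit 57854) (nat_lit 252) (.e (nat_lit 57373) (nat_lit 2) (.e (nat_lit 90158) (nat_lit 11) .nil)))))) (.g (nat_lit 1) (.e (nat_lit 134051) (nat_lit 0) .nil) .nil))) 
(.lf (nat_lit 486991) (.g (nat_lit 910) (.e (nat_lit 24650) (nat_lit 12) (.e (nat_lit 385093) (nat_lit 49) (.e (nat_lit 778323) (nat_lit 5) .nil))) (.g (nat_lit 0) (.e (nat_lit 134811) (nat_lit 0) .nil) .nil)))) (.nd (nat_lit 9) 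
(.lf (nat_lit 486735) (.g (nat_lit 3961) (.e (nat_lit 24630) (nat_lit 9) (.e (nat_lit 336456) (nat_lit 34) (.e (nat_lit 483363) (nat_lit 18) (.e (nat_lit 57854) (nat_lit 252) (.e (nat_lit 57373) (nat_lit 2) (.e (nat_lit 90158) (nat_lit 11) .nil)))))) (.g (nat_lit 1) (.e (nat_lit 134384) (nat_lit 0) .nil) .nil))) 
(.lf (nat_lit 487247) (.g (nat_lit 2098) (.e (nat_lit 24658) (nat_lit 13) (.e (nat_lit 393281) (nat_lit 23) (.e (nat_lit 426108) (nat_lit 1) (.e (nat_lit 164330) (nat_lit 230) (.e (nat_lit 163878) (nat_lit 4) (.e (nat_lit 213030) (nat_lit 11) .nil)))))) (.g (nat_lit 1) (.e (nat_lit 135191) (nat_lit 0) .nil) .nil))))) (.nd (nat_lit 8) (.nd (nat_lit 9) 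
(.lf (nat_lit 486607) (.g (nat_lit 528) (.e (nat_lit 24630) (nat_lit 9) (.e (nat_lit 336326) (nat_lit 18) (.e (nat_lit 204831) (nat_lit 18) .nil))) (.g (nat_lit 0) (.e (nat_lit 134200) (nat_lit 0) .nil) .nil))) 
(.lf (nat_lit 487119) (.g (nat_lit 3731) (.e (nat_lit 24657) (nat_lit 13) (.e (nat_lit 393229) (nat_lit 9) (.e (nat_lit 335986) (nat_lit 1) (.e (nat_lit 57847) (nat_lit 252) (.e (nat_lit 57372) (nat_lit 2) (.e (nat_lit 90159) (nat_lit 11) .nil)))))) (.g (nat_lit 1) (.e (nat_lit 135027) (nat_lit 0) .nil) .nil)))) (.nd (nat_lit 9) 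
(.lf (nat_lit 486863) (.g (nat_lit 2669) (.e (nat_lit 24640) (nat_lit 10) (.e (nat_lit 344156) (nat_lit 36) (.e (nat_lit 638985) (nat_lit 5) (.e (nat_lit 3015) (nat_lit 187) (.e (nat_lit 450563) (nat_lit 0) (.e (nat_lit 5798) (nat_lit 320) (.e (nat_lit 2559) (nat_lit 159) .nil))))))) (.g (nat_lit 1) (.e (nat_lit 134603) (nat_lit 0) .nil) .nil))) 
(.lf (nat_lit 487375) (.g (nat_lit 1673) (.e (nat_lit 24660) (nat_lit 13) (.e (nat_lit 393280) (nat_lit 23) (.e (nat_lit 426098) (nat_lit 1) (.e (nat_lit 164325) (nat_lit 230) (.e (nat_lit 163881) (nat_lit 4) (.e (nat_lit 213032) (nat_lit 11) .nil)))))) (.g (nat_lit 1) (.e (nat_lit 135345) (nat_lit 0) .nil) .nil))))))) (.nd (nat_lit 6) (.nd (nat_lit 7) (.nd (nat_lit 8) (.nd (nat_lit 9) 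
(.lf (nat_lit 486447) (.g (nat_lit 2542) (.e (nat_lit 24628) (nat_lit 9) (.e (nat_lit 336454) (nat_lit 34) (.e (nat_lit 483365) (nat_lit 18) (.e (nat_lit 57844) (nat_lit 252) (.e (nat_lit 57371) (nat_lit 2) (.e (nat_lit 90160) (nat_lit 11) .nil)))))) (.g (nat_lit 1) (.e (nat_lit 134019) (nat_lit 0) .nil) .nil))) 
(.lf (nat_lit 486959) (.g (nat_lit 566) (.e (nat_lit 24648) (nat_lit 12) (.e (nat_lit 385094) (nat_lit 49) (.e (nat_lit 778323) (nat_lit 5) .nil))) (.g (nat_lit 0) (.e (nat_lit 134748) (nat_lit 0) .nil) .nil)))) (.nd (nat_lit 9) 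
(.lf (nat_lit 486703) (.g (nat_lit 1199) (.e (nat_lit 24630) (nat_lit 9) (.e (nat_lit 336454) (nat_lit 34) (.e (nat_lit 483365) (nat_lit 18) (.e (nat_lit 57848) (nat_lit 252) .nil)))) (.g (nat_lit 0) (.e (nat_lit 134350) (nat_lit 0) .nil) .nil))) 
(.lf (nat_lit 487215) (.g (nat_lit 1647) (.e (nat_lit 24658) (nat_lit 13) (.e (nat_lit 393281) (nat_lit 23) (.e (nat_lit 426099) (nat_lit 1) (.e (nat_lit 164305) (nat_lit 226) (.e (nat_lit 2612) (nat_lit 163) (.e (nat_lit 164040) (nat_lit 55) (.e (nat_lit 786176) (nat_lit 11) .nil))))))) (.g (nat_lit 1) (.e (nat_lit 135156) (nat_lit 0) .nil) .nil))))) (.nd (nat_lit 8) (.nd (nat_lit 9) 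
(.lf (nat_lit 486575) (.g (nat_lit 1843) (.e (nat_lit 24629) (nat_lit 9) (.e (nat_lit 336444) (nat_lit 32) (.e (nat_lit 466971) (nat_lit 21) (.e (nat_lit 164326) (nat_lit 230) (.e (nat_lit 163879) (nat_lit 4) (.e (nat_lit 213030) (nat_lit 11) .nil)))))) (.g (nat_lit 1) (.e (nat_lit 134151) (nat_lit 0) .nil) .nil))) 
(.lf (nat_lit 487087) (.g (nat_lit 2873) (.e (nat_lit 24655) (nat_lit 13) (.e (nat_lit 393281) (nat_lit 23) (.e (nat_lit 426100) (nat_lit 1) (.e (nat_lit 164332) (nat_lit 230) (.e (nat_lit 163878) (nat_lit 4) (.e (nat_lit 213030) (nat_lit 11) .nil)))))) (.g (nat_lit 1) (.e (nat_lit 134974) (nat_lit 0) .nil) .nil)))) (.nd (nat_lit 9) 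
(.lf (nat_lit 486831) (.g (nat_lit 1873) (.e (nat_lit 32512) (nat_lit 9) (.e (nat_lit 336454) (nat_lit 34) (.e (nat_lit 483365) (nat_lit 18) (.e (nat_lit 57847) (nat_lit 252) .nil)))) (.g (nat_lit 0) (.e (nat_lit 134529) (nat_lit 0) .nil) .nil))) 
(.lf (nat_lit 487343) (.g (nat_lit 1468) (.e (nat_lit 24660) (nat_lit 13) (.e (nat_lit 393260) (nat_lit 21) (.e (nat_lit 409623) (nat_lit 10) (.e (nat_lit 5293) (nat_lit 298) (.e (nat_lit 7936) (nat_lit 81) .nil))))) (.g (nat_lit 0) (.e (nat_lit 135311) (nat_lit 0) .nil) .nil)))))) (.nd (nat_lit 7) (.nd (nat_lit 8) (.nd (nat_lit 9) 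
(.lf (nat_lit 486511) (.g (nat_lit 2980) (.e (nat_lit 24628) (nat_lit 9) (.e (nat_lit 336456) (nat_lit 34) (.e (nat_lit 483365) (nat_lit 18) (.e (nat_lit 57846) (nat_lit 252) (.e (nat_lit 57371) (nat_lit 2) (.e (nat_lit 90158) (nat_lit 11) .nil)))))) (.g (nat_lit 1) (.e (nat_lit 134083) (nat_lit 0) .nil) .nil))) 
(.lf (nat_lit 487023) (.g (nat_lit 4298) (.e (nat_lit 24652) (nat_lit 12) (.e (nat_lit 385074) (nat_lit 31) (.e (nat_lit 573484) (nat_lit 13) (.e (nat_lit 65617) (nat_lit 10) (.e (nat_lit 344133) (nat_lit 26) (.e (nat_lit 557085) (nat_lit 11) .nil)))))) (.g (nat_lit 1) (.e (nat_lit 134866) (nat_lit 0) .nil) .nil)))) (.nd (nat_lit 9) 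
(.lf (nat_lit 486767) (.g (nat_lit 3631) (.e (nat_lit 24630) (nat_lit 9) (.e (nat_lit 336456) (nat_lit 34) (.e (nat_lit 483365) (nat_lit 18) (.e (nat_lit 57854) (nat_lit 252) (.e (nat_lit 57371) (nat_lit 2) (.e (nat_lit 90158) (nat_lit 11) .nil)))))) (.g (nat_lit 1) (.e (nat_lit 134420) (nat_lit 0) .nil) .nil))) 
(.lf (nat_lit 487279) (.g (nat_lit 1386) (.e (nat_lit 24659) (nat_lit 13) (.e (nat_lit 393266) (nat_lit 23) (.e (nat_lit 426109) (nat_lit 1) (.e (nat_lit 164326) (nat_lit 230) (.e (nat_lit 163879) (nat_lit 4) (.e (nat_lit 213030) (nat_lit 11) .nil)))))) (.g (nat_lit 1) (.e (nat_lit 135229) (nat_lit 0) .nil) .nil))))) (.nd (nat_lit 8) (.nd (nat_lit 9) 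
(.lf (nat_lit 486639) (.g (nat_lit 419) (.e (nat_lit 24630) (nat_lit 9) (.e (nat_lit 336443) (nat_lit 32) (.e (nat_lit 466969) (nat_lit 21) .nil))) (.g (nat_lit 0) (.e (nat_lit 134277) (nat_lit 0) .nil) .nil))) 
(.lf (nat_lit 487151) (.g (nat_lit 903) (.e (nat_lit 24657) (nat_lit 13) (.e (nat_lit 393271) (nat_lit 23) (.e (nat_lit 426112) (nat_lit 1) (.e (nat_lit 164327) (nat_lit 230) .nil)))) (.g (nat_lit 0) (.e (nat_lit 135068) (nat_lit 0) .nil) .nil)))) (.nd (nat_lit 9) 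
(.lf (nat_lit 486895) (.g (nat_lit 2796) (.e (nat_lit 24640) (nat_lit 10) (.e (nat_lit 344156) (nat_lit 36) (.e (nat_lit 638998) (nat_lit 8) (.e (nat_lit 172113) (nat_lit 10) (.e (nat_lit 434203) (nat_lit 18) (.e (nat_lit 5835) (nat_lit 320) (.e (nat_lit 2551) (nat_lit 159) .nil))))))) (.g (nat_lit 1) (.e (nat_lit 134635) (nat_lit 0) .nil) .nil))) 
(.lf (nat_lit 487407) (.g (nat_lit 1086) (.e (nat_lit 24661) (nat_lit 14) (.e (nat_lit 401454) (nat_lit 12) (.e (nat_lit 475212) (nat_lit 42) .nil))) (.g (nat_lit 0) (.e (nat_lit 135405) (nat_lit 0) .nil) .nil)))))))) (.nd (nat_lit 5) (.nd (nat_lit 6) (.nd (nat_lit 7) (.nd (nat_lit 8) (.nd (nat_lit 9) 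
(.lf (nat_lit 486431) (.g (nat_lit 2420) (.e (nat_lit 24628) (nat_lit 9) (.e (nat_lit 336454) (nat_lit 34) (.e (nat_lit 483363) (nat_lit 18) (.e (nat_lit 57847) (nat_lit 252) (.e (nat_lit 57371) (nat_lit 2) (.e (nat_lit 90158) (nat_lit 11) .nil)))))) (.g (nat_lit 1) (.e (nat_lit 134003) (nat_lit 0) .nil) .nil))) 
(.lf (nat_lit 486943) (.g (nat_lit 1769) (.e (nat_lit 24647) (nat_lit 12) (.e (nat_lit 385074) (nat_lit 31) (.e (nat_lit 573491) (nat_lit 15) (.e (nat_lit 81946) (nat_lit 20) .nil)))) (.g (nat_lit 0) (.e (nat_lit 134713) (nat_lit 0) .nil) .nil)))) (.nd (nat_lit 9) 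
(.lf (nat_lit 486687) (.g (nat_lit 385) (.e (nat_lit 24630) (nat_lit 9) (.e (nat_lit 336454) (nat_lit 34) (.e (nat_lit 483365) (nat_lit 18) .nil))) (.g (nat_lit 0) (.e (nat_lit 134334) (nat_lit 0) .nil) .nil))) 
(.lf (nat_lit 487199) (.g (nat_lit 1042) (.e (nat_lit 24658) (nat_lit 13) (.e (nat_lit 393260) (nat_lit 21) (.e (nat_lit 409637) (nat_lit 15) .nil))) (.g (nat_lit 0) (.e (nat_lit 135139) (nat_lit 0) .nil) .nil))))) (.nd (nat_lit 8) (.nd (nat_lit 9) 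
(.lf (nat_lit 486559) (.g (nat_lit 787) (.e (nat_lit 24629) (nat_lit 9) (.e (nat_lit 336434) (nat_lit 30) (.e (nat_lit 450564) (nat_lit 0) (.e (nat_lit 5222) (nat_lit 296) (.e (nat_lit 163881) (nat_lit 4) .nil))))) (.g (nat_lit 0) (.e (nat_lit 134134) (nat_lit 0) .nil) .nil))) 
(.lf (nat_lit 487071) (.g (nat_lit 2185) (.e (nat_lit 24655) (nat_lit 13) (.e (nat_lit 393281) (nat_lit 23) (.e (nat_lit 426098) (nat_lit 1) (.e (nat_lit 164325) (nat_lit 230) (.e (nat_lit 163882) (nat_lit 4) (.e (nat_lit 213030) (nat_lit 11) .nil)))))) (.g (nat_lit 1) (.e (nat_lit 134958) (nat_lit 0) .nil) .nil)))) (.nd (nat_lit 9) 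
(.lf (nat_lit 486815) (.g (nat_lit 2023) (.e (nat_lit 24638) (nat_lit 9) (.e (nat_lit 335996) (nat_lit 1) (.e (nat_lit 57854) (nat_lit 252) (.e (nat_lit 57389) (nat_lit 5) .nil)))) (.g (nat_lit 0) (.e (nat_lit 134506) (nat_lit 0) .nil) .nil))) 
(.lf (nat_lit 487327) (.g (nat_lit 1521) (.e (nat_lit 24660) (nat_lit 13) (.e (nat_lit 393238) (nat_lit 17) (.e (nat_lit 7107) (nat_lit 380) (.e (nat_lit 164289) (nat_lit 224) .nil)))) (.g (nat_lit 0) (.e (nat_lit 135287) (nat_lit 0) .nil) .nil)))))) (.nd (nat_lit 7) (.nd (nat_lit 8) (.nd (nat_lit 9) 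
(.lf (nat_lit 486495) (.g (nat_lit 2572) (.e (nat_lit 24628) (nat_lit 9) (.e (nat_lit 336454) (nat_lit 34) (.e (nat_lit 483366) (nat_lit 18) (.e (nat_lit 57851) (nat_lit 252) (.e (nat_lit 57370) (nat_lit 2) (.e (nat_lit 90158) (nat_lit 11) .nil)))))) (.g (nat_lit 1) (.e (nat_lit 134067) (nat_lit 0) .nil) .nil))) 
(.lf (nat_lit 487007) (.g (nat_lit 1608) (.e (nat_lit 24651) (nat_lit 12) (.e (nat_lit 385094) (nat_lit 49) (.e (nat_lit 778323) (nat_lit 5) (.e (nat_lit 73789) (nat_lit 45) (.e (nat_lit 988) (nat_lit 81) .nil))))) (.g (nat_lit 0) (.e (nat_lit 134844) (nat_lit 0) .nil) .nil)))) (.nd (nat_lit 9) 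
(.lf (nat_lit 486751) (.g (nat_lit 4030) (.e (nat_lit 24630) (nat_lit 9) (.e (nat_lit 336456) (nat_lit 34) (.e (nat_lit 483365) (nat_lit 18) (.e (nat_lit 57846) (nat_lit 252) (.e (nat_lit 57372) (nat_lit 2) (.e (nat_lit 90160) (nat_lit 11) .nil)))))) (.g (nat_lit 1) (.e (nat_lit 134400) (nat_lit 0) .nil) .nil))) 
(.lf (nat_lit 487263) (.g (nat_lit 1390) (.e (nat_lit 24658) (nat_lit 13) (.e (nat_lit 393301) (nat_lit 27) (.e (nat_lit 491555) (nat_lit 9) (.e (nat_lit 335895) (nat_lit 0) .nil)))) (.g (nat_lit 0) (.e (nat_lit 135212) (nat_lit 0) .nil) .nil))))) (.nd (nat_lit 8) (.nd (nat_lit 9) 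
(.lf (nat_lit 486623) (.g (nat_lit 2969) (.e (nat_lit 24630) (nat_lit 9) (.e (nat_lit 336369) (nat_lit 27) (.e (nat_lit 426497) (nat_lit 27) (.e (nat_lit 335996) (nat_lit 1) (.e (nat_lit 57852) (nat_lit 252) (.e (nat_lit 57371) (nat_lit 2) (.e (nat_lit 90160) (nat_lit 11) .nil))))))) (.g (nat_lit 1) (.e (nat_lit 134222) (nat_lit 0) .nil) .nil))) 
(.lf (nat_lit 487135) (.g (nat_lit 1792) (.e (nat_lit 24657) (nat_lit 13) (.e (nat_lit 393229) (nat_lit 9) (.e (nat_lit 335996) (nat_lit 1) (.e (nat_lit 57854) (nat_lit 252) (.e (nat_lit 57370) (nat_lit 2) (.e (nat_lit 90159) (nat_lit 11) .nil)))))) (.g (nat_lit 1) (.e (nat_lit 135043) (nat_lit 0) .nil) .nil)))) (.nd (nat_lit 9) 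
(.lf (nat_lit 486879) (.g (nat_lit 1934) (.e (nat_lit 24640) (nat_lit 10) (.e (nat_lit 344156) (nat_lit 36) (.e (nat_lit 638998) (nat_lit 8) (.e (nat_lit 172107) (nat_lit 10) (.e (nat_lit 434280) (nat_lit 40) (.e (nat_lit 671779) (nat_lit 11) .nil)))))) (.g (nat_lit 1) (.e (nat_lit 134619) (nat_lit 0) .nil) .nil))) 
(.lf (nat_lit 487391) (.g (nat_lit 1085) (.e (nat_lit 24660) (nat_lit 13) (.e (nat_lit 393282) (nat_lit 24) (.e (nat_lit 434209) (nat_lit 18) (.e (nat_lit 5223) (nat_lit 296) .nil)))) (.g (nat_lit 0) (.e (nat_lit 135361) (nat_lit 0) .nil) .nil))))))) (.nd (nat_lit 6) (.nd (nat_lit 7) (.nd (nat_lit 8) (.nd (nat_lit 9) 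
(.lf (nat_lit 486463) (.g (nat_lit 2373) (.e (nat_lit 24628) (nat_lit 9) (.e (nat_lit 336454) (nat_lit 34) (.e (nat_lit 483365) (nat_lit 18) (.e (nat_lit 57848) (nat_lit 252) (.e (nat_lit 57374) (nat_lit 2) (.e (nat_lit 90156) (nat_lit 11) .nil)))))) (.g (nat_lit 1) (.e (nat_lit 134035) (nat_lit 0) .nil) .nil))) 
(.lf (nat_lit 486975) (.g (nat_lit 3970) (.e (nat_lit 24650) (nat_lit 12) (.e (nat_lit 385068) (nat_lit 26) (.e (nat_lit 532501) (nat_lit 1) (.e (nat_lit 57852) (nat_lit 252) (.e (nat_lit 57442) (nat_lit 18) .nil))))) (.g (nat_lit 0) (.e (nat_lit 134783) (nat_lit 0) .nil) .nil)))) (.nd (nat_lit 9) 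
(.lf (nat_lit 486719) (.g (nat_lit 3185) (.e (nat_lit 24630) (nat_lit 9) (.e (nat_lit 336454) (nat_lit 34) (.e (nat_lit 483365) (nat_lit 18) (.e (nat_lit 57854) (nat_lit 252) (.e (nat_lit 57370) (nat_lit 2) (.e (nat_lit 90158) (nat_lit 11) .nil)))))) (.g (nat_lit 1) (.e (nat_lit 134368) (nat_lit 0) .nil) .nil))) 
(.lf (nat_lit 487231) (.g (nat_lit 2510) (.e (nat_lit 24658) (nat_lit 13) (.e (nat_lit 393281) (nat_lit 23) (.e (nat_lit 426100) (nat_lit 1) (.e (nat_lit 164330) (nat_lit 230) (.e (nat_lit 163878) (nat_lit 4) (.e (nat_lit 213030) (nat_lit 11) .nil)))))) (.g (nat_lit 1) (.e (nat_lit 135175) (nat_lit 0) .nil) .nil))))) (.nd (nat_lit 8) (.nd (nat_lit 9) 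
(.lf (nat_lit 486591) (.g (nat_lit 2246) (.e (nat_lit 24629) (nat_lit 9) (.e (nat_lit 336456) (nat_lit 34) (.e (nat_lit 483365) (nat_lit 18) (.e (nat_lit 57854) (nat_lit 252) (.e (nat_lit 57373) (nat_lit 2) .nil))))) (.g (nat_lit 0) (.e (nat_lit 134169) (nat_lit 0) .nil) .nil))) 
(.lf (nat_lit 487103) (.g (nat_lit 743) (.e (nat_lit 24656) (nat_lit 13) (.e (nat_lit 393229) (nat_lit 9) (.e (nat_lit 335985) (nat_lit 1) .nil))) (.g (nat_lit 0) (.e (nat_lit 135000) (nat_lit 0) .nil) .nil)))) (.nd (nat_lit 9) 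
(.lf (nat_lit 486847) (.g (nat_lit 3027) (.e (nat_lit 24640) (nat_lit 10) (.e (nat_lit 344156) (nat_lit 36) (.e (nat_lit 638985) (nat_lit 5) (.e (nat_lit 3015) (nat_lit 187) (.e (nat_lit 450562) (nat_lit 0) (.e (nat_lit 5797) (nat_lit 320) (.e (nat_lit 2551) (nat_lit 159) .nil))))))) (.g (nat_lit 1) (.e (nat_lit 134587) (nat_lit 0) .nil) .nil))) 
(.lf (nat_lit 487359) (.g (nat_lit 891) (.e (nat_lit 24660) (nat_lit 13) (.e (nat_lit 393266) (nat_lit 23) (.e (nat_lit 426448) (nat_lit 20) (.e (nat_lit 122624) (nat_lit 4) .nil)))) (.g (nat_lit 0) (.e (nat_lit 135329) (nat_lit 0) .nil) .nil)))))) (.nd (nat_lit 7) (.nd (nat_lit 8) (.nd (nat_lit 9) 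
(.lf (nat_lit 486527) (.g (nat_lit 3010) (.e (nat_lit 24628) (nat_lit 9) (.e (nat_lit 336456) (nat_lit 34) (.e (nat_lit 483365) (nat_lit 18) (.e (nat_lit 57852) (nat_lit 252) (.e (nat_lit 57373) (nat_lit 2) (.e (nat_lit 90158) (nat_lit 11) .nil)))))) (.g (nat_lit 1) (.e (nat_lit 134100) (nat_lit 0) .nil) .nil))) 
(.lf (nat_lit 487039) (.g (nat_lit 1473) (.e (nat_lit 24653) (nat_lit 12) (.e (nat_lit 385093) (nat_lit 49) (.e (nat_lit 778323) (nat_lit 5) (.e (nat_lit 73788) (nat_lit 45) (.e (nat_lit 991) (nat_lit 81) .nil))))) (.g (nat_lit 0) (.e (nat_lit 134916) (nat_lit 0) .nil) .nil)))) (.nd (nat_lit 9) 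
(.lf (nat_lit 486783) (.g (nat_lit 2521) (.e (nat_lit 24631) (nat_lit 9) (.e (nat_lit 336412) (nat_lit 27) (.e (nat_lit 426343) (nat_lit 14) (.e (nat_lit 491560) (nat_lit 10) (.e (nat_lit 344179) (nat_lit 44) (.e (nat_lit 778466) (nat_lit 11) .nil)))))) (.g (nat_lit 1) (.e (nat_lit 134438) (nat_lit 0) .nil) .nil))) 
(.lf (nat_lit 487295) (.g (nat_lit 2529) (.e (nat_lit 24659) (nat_lit 13) (.e (nat_lit 393281) (nat_lit 23) (.e (nat_lit 426098) (nat_lit 1) (.e (nat_lit 164325) (nat_lit 230) (.e (nat_lit 163881) (nat_lit 4) (.e (nat_lit 213032) (nat_lit 11) .nil)))))) (.g (nat_lit 1) (.e (nat_lit 135245) (nat_lit 0) .nil) .nil))))) (.nd (nat_lit 8) (.nd (nat_lit 9) 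
(.lf (nat_lit 486655) (.g (nat_lit 2609) (.e (nat_lit 24630) (nat_lit 9) (.e (nat_lit 336443) (nat_lit 32) (.e (nat_lit 466972) (nat_lit 21) (.e (nat_lit 164322) (nat_lit 230) (.e (nat_lit 163878) (nat_lit 4) (.e (nat_lit 213030) (nat_lit 11) .nil)))))) (.g (nat_lit 1) (.e (nat_lit 134293) (nat_lit 0) .nil) .nil))) 
(.lf (nat_lit 487167) (.g (nat_lit 2944) (.e (nat_lit 24657) (nat_lit 13) (.e (nat_lit 393281) (nat_lit 23) (.e (nat_lit 426100) (nat_lit 1) (.e (nat_lit 164332) (nat_lit 230) (.e (nat_lit 163880) (nat_lit 4) (.e (nat_lit 213032) (nat_lit 11) .nil)))))) (.g (nat_lit 1) (.e (nat_lit 135085) (nat_lit 0) .nil) .nil)))) (.nd (nat_lit 9) 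
(.lf (nat_lit 486911) (.g (nat_lit 3027) (.e (nat_lit 24640) (nat_lit 10) (.e (nat_lit 344156) (nat_lit 36) (.e (nat_lit 638998) (nat_lit 8) (.e (nat_lit 172115) (nat_lit 10) (.e (nat_lit 434202) (nat_lit 18) (.e (nat_lit 5839) (nat_lit 320) (.e (nat_lit 2551) (nat_lit 159) .nil))))))) (.g (nat_lit 1) (.e (nat_lit 134651) (nat_lit 0) .nil) .nil))) 
(.lf (nat_lit 487423) (.g (nat_lit 764) (.e (nat_lit 24661) (nat_lit 14) (.e (nat_lit 401459) (nat_lit 13) (.e (nat_lit 483411) (nat_lit 27) .nil))) (.g (nat_lit 0) (.e (nat_lit 135432) (nat_lit 0) .nil) .nil)))))))))))))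

noncomputable def tv5536 : DT := (.nd (nat_lit 0) (.nd (nat_lit 1) (.nd (nat_lit 2) (.nd (nat_lit 3) (.nd (nat_lit 4) (.nd (nat_lit 5) (.nd (nat_lit 6) (.nd (nat_lit 7) (.nd (nat_lit 8) (.nd (nat_lit 9) 
(.lf (nat_lit 487424) (.g (nat_lit 4481) (.e (nat_lit 24662) (nat_lit 14) (.e (nat_lit 401425) (nat_lit 2) (.e (nat_lit 196666) (nat_lit 13) (.e (nat_lit 65610) (nat_lit 10) (.e (nat_lit 344090) (nat_lit 18) (.e (nat_lit 4031) (nat_lit 245) (.e (nat_lit 2555) (nat_lit 159) .nil))))))) (.g (nat_lit 1) (.e (nat_lit 135434) (nat_lit 0) .nil) .nil))) 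
(.lf (nat_lit 487936) (.g (nat_lit 1591) (.e (nat_lit 16413) (nat_lit 2) (.e (nat_lit 196666) (nat_lit 13) (.e (nat_lit 65610) (nat_lit 10) (.e (nat_lit 344129) (nat_lit 26) .nil)))) (.g (nat_lit 0) (.e (nat_lit 137513) (nat_lit 0) .nil) .nil)))) (.nd (nat_lit 9) 
(.lf (nat_lit 487680) (.g (nat_lit 1184) (.e (nat_lit 24665) (nat_lit 14) (.e (nat_lit 409344) (nat_lit 27) (.e (nat_lit 336443) (nat_lit 32) (.e (nat_lit 466975) (nat_lit 22) (.e (nat_lit 204544) (nat_lit 2) .nil))))) (.g (nat_lit 1) (.e (nat_lit 136374) (nat_lit 0) .nil) .nil))) 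
(.lf (nat_lit 488192) (.g (nat_lit 3598) (.e (nat_lit 16425) (nat_lit 7) (.e (nat_lit 409617) (nat_lit 10) (.e (nat_lit 632) (nat_lit 50) (.e (nat_lit 573493) (nat_lit 15) (.e (nat_lit 81948) (nat_lit 21) (.e (nat_lit 57647) (nat_lit 146) (.e (nat_lit 1122) (nat_lit 83) .nil))))))) (.g (nat_lit 1) (.e (nat_lit 138054) (nat_lit 0) .nil) .nil))))) (.nd (nat_lit 8) (.nd (nat_lit 9) 
(.lf (nat_lit 487552) (.g (nat_lit 3222) (.e (nat_lit 24665) (nat_lit 14) (.e (nat_lit 401414) (nat_lit 0) (.e (nat_lit 3527) (nat_lit 218) (.e (nat_lit 704597) (nat_lit 6) (.e (nat_lit 188449) (nat_lit 22) (.e (nat_lit 204544) (nat_lit 2) .nil)))))) (.g (nat_lit 1) (.e (nat_lit 135838) (nat_lit 0) .nil) .nil))) 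
(.lf (nat_lit 488064) (.g (nat_lit 3754) (.e (nat_lit 16416) (nat_lit 3) (.e (nat_lit 204837) (nat_lit 20) (.e (nat_lit 114719) (nat_lit 23) (.e (nat_lit 98334) (nat_lit 18) (.e (nat_lit 164330) (nat_lit 230) (.e (nat_lit 163867) (nat_lit 2) (.e (nat_lit 196654) (nat_lit 11) .nil))))))) (.g (nat_lit 1) (.e (nat_lit 137778) (nat_lit 0) .nil) .nil)))) (.nd (nat_lit 9) 
(.lf (nat_lit 487808) (.g (nat_lit 3094) (.e (nat_lit 16410) (nat_lit 2) (.e (nat_lit 196654) (nat_lit 11) (.e (nat_lit 16416) (nat_lit 3) (.e (nat_lit 204809) (nat_lit 9) (.e (nat_lit 426123) (nat_lit 2) (.e (nat_lit 196653) (nat_lit 11) .nil)))))) (.g (nat_lit 1) (.e (nat_lit 137184) (nat_lit 0) .nil) .nil))) 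
(.lf (nat_lit 488320) (.g (nat_lit 2284) (.e (nat_lit 16425) (nat_lit 7) (.e (nat_lit 409649) (nat_lit 18) (.e (nat_lit 303143) (nat_lit 12) (.e (nat_lit 475199) (nat_lit 40) (.e (nat_lit 704787) (nat_lit 14) .nil))))) (.g (nat_lit 0) (.e (nat_lit 138190) (nat_lit 0) .nil) .nil)))))) (.nd (nat_lit 7) (.nd (nat_lit 8) (.nd (nat_lit 9) 
(.lf (nat_lit 487488) (.g (nat_lit 2629) (.e (nat_lit 24662) (nat_lit 14) (.e (nat_lit 401459) (nat_lit 13) (.e (nat_lit 483372) (nat_lit 21) (.e (nat_lit 319506) (nat_lit 10) .nil)))) (.g (nat_lit 0) (.e (nat_lit 135565) (nat_lit 0) .nil) .nil))) 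
(.lf (nat_lit 488000) (.g (nat_lit 2414) (.e (nat_lit 16416) (nat_lit 3) (.e (nat_lit 204809) (nat_lit 9) (.e (nat_lit 426133) (nat_lit 3) (.e (nat_lit 204813) (nat_lit 9) (.e (nat_lit 426121) (nat_lit 2) (.e (nat_lit 196654) (nat_lit 11) .nil)))))) (.g (nat_lit 1) (.e (nat_lit 137707) (nat_lit 0) .nil) .nil)))) (.nd (nat_lit 9) 
(.lf (nat_lit 487744) (.g (nat_lit 630) (.e (nat_lit 32512) (nat_lit 30) (.e (nat_lit 450584) (nat_lit 9) (.e (nat_lit 565268) (nat_lit 5) (.e (nat_lit 81664) (nat_lit 34) .nil)))) (.g (nat_lit 0) (.e (nat_lit 136764) (nat_lit 0) .nil) .nil))) 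
(.lf (nat_lit 488256) (.g (nat_lit 2001) (.e (nat_lit 16425) (nat_lit 7) (.e (nat_lit 409646) (nat_lit 18) (.e (nat_lit 303143) (nat_lit 12) (.e (nat_lit 475216) (nat_lit 44) (.e (nat_lit 737318) (nat_lit 15) (.e (nat_lit 49189) (nat_lit 11) .nil)))))) (.g (nat_lit 1) (.e (nat_lit 138119) (nat_lit 0) .nil) .nil))))) (.nd (nat_lit 8) (.nd (nat_lit 9) 
(.lf (nat_lit 487616) (.g (nat_lit 3544) (.e (nat_lit 24665) (nat_lit 14) (.e (nat_lit 401448) (nat_lit 10) (.e (nat_lit 434275) (nat_lit 39) (.e (nat_lit 663585) (nat_lit 12) (.e (nat_lit 171776) (nat_lit 50) (.e (nat_lit 737317) (nat_lit 14) (.e (nat_lit 40996) (nat_lit 11) .nil))))))) (.g (nat_lit 1) (.e (nat_lit 136173) (nat_lit 0) .nil) .nil))) 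
(.lf (nat_lit 488128) (.g (nat_lit 4377) (.e (nat_lit 16416) (nat_lit 3) (.e (nat_lit 204869) (nat_lit 29) (.e (nat_lit 360475) (nat_lit 8) (.e (nat_lit 557120) (nat_lit 18) .nil)))) (.g (nat_lit 0) (.e (nat_lit 137868) (nat_lit 0) .nil) .nil)))) (.nd (nat_lit 9) 
(.lf (nat_lit 487872) (.g (nat_lit 2087) (.e (nat_lit 16412) (nat_lit 2) (.e (nat_lit 196656) (nat_lit 11) (.e (nat_lit 16416) (nat_lit 3) (.e (nat_lit 204809) (nat_lit 9) (.e (nat_lit 426114) (nat_lit 2) (.e (nat_lit 196654) (nat_lit 11) .nil)))))) (.g (nat_lit 1) (.e (nat_lit 137400) (nat_lit 0) .nil) .nil))) 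
(.lf (nat_lit 488384) (.g (nat_lit 3566) (.e (nat_lit 16433) (nat_lit 9) (.e (nat_lit 426566) (nat_lit 34) (.e (nat_lit 393253) (nat_lit 18) (.e (nat_lit 164325) (nat_lit 230) (.e (nat_lit 163868) (nat_lit 2) (.e (nat_lit 196654) (nat_lit 11) .nil)))))) (.g (nat_lit 1) (.e (nat_lit 138318) (nat_lit 0) .nil) .nil))))))) (.nd (nat_lit 6) (.nd (nat_lit 7) (.nd (nat_lit 8) (.nd (nat_lit 9) 
(.lf (nat_lit 487456) (.g (nat_lit 4600) (.e (nat_lit 24662) (nat_lit 14) (.e (nat_lit 401438) (nat_lit 9) (.e (nat_lit 426482) (nat_lit 27) (.e (nat_lit 336060) (nat_lit 7) (.e (nat_lit 319504) (nat_lit 10) (.e (nat_lit 7936) (nat_lit 314) .nil)))))) (.g (nat_lit 1) (.e (nat_lit 135504) (nat_lit 0) .nil) .nil))) 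
(.lf (nat_lit 487968) (.g (nat_lit 1279) (.e (nat_lit 16415) (nat_lit 3) (.e (nat_lit 204855) (nat_lit 26) (.e (nat_lit 336176) (nat_lit 10) (.e (nat_lit 344130) (nat_lit 26) .nil)))) (.g (nat_lit 0) (.e (nat_lit 137650) (nat_lit 0) .nil) .nil)))) (.nd (nat_lit 9) 
(.lf (nat_lit 487712) (.g (nat_lit 1510) (.e (nat_lit 32512) (nat_lit 18) (.e (nat_lit 204863) (nat_lit 27) (.e (nat_lit 344129) (nat_lit 26) (.e (nat_lit 557096) (nat_lit 13) .nil)))) (.g (nat_lit 0) (.e (nat_lit 136469) (nat_lit 0) .nil) .nil))) 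
(.lf (nat_lit 488224) (.g (nat_lit 2063) (.e (nat_lit 16425) (nat_lit 7) (.e (nat_lit 409644) (nat_lit 18) (.e (nat_lit 303143) (nat_lit 12) (.e (nat_lit 475219) (nat_lit 44) (.e (nat_lit 737318) (nat_lit 15) (.e (nat_lit 49187) (nat_lit 11) .nil)))))) (.g (nat_lit 1) (.e (nat_lit 138087) (nat_lit 0) .nil) .nil))))) (.nd (nat_lit 8) (.nd (nat_lit 9) 
(.lf (nat_lit 487584) (.g (nat_lit 2950) (.e (nat_lit 24665) (nat_lit 14) (.e (nat_lit 401434) (nat_lit 9) (.e (nat_lit 426160) (nat_lit 6) (.e (nat_lit 253991) (nat_lit 11) (.e (nat_lit 16388) (nat_lit 0) (.e (nat_lit 7379) (nat_lit 390) .nil)))))) (.g (nat_lit 1) (.e (nat_lit 136049) (nat_lit 0) .nil) .nil))) 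
(.lf (nat_lit 488096) (.g (nat_lit 1055) (.e (nat_lit 16416) (nat_lit 3) (.e (nat_lit 204861) (nat_lit 26) (.e (nat_lit 336076) (nat_lit 9) (.e (nat_lit 336324) (nat_lit 18) .nil)))) (.g (nat_lit 0) (.e (nat_lit 137828) (nat_lit 0) .nil) .nil)))) (.nd (nat_lit 9) 
(.lf (nat_lit 487840) (.g (nat_lit 1447) (.e (nat_lit 16411) (nat_lit 2) (.e (nat_lit 196656) (nat_lit 11) (.e (nat_lit 16416) (nat_lit 3) (.e (nat_lit 204812) (nat_lit 9) (.e (nat_lit 426114) (nat_lit 2) .nil))))) (.g (nat_lit 0) (.e (nat_lit 137304) (nat_lit 0) .nil) .nil))) 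
(.lf (nat_lit 488352) (.g (nat_lit 2929) (.e (nat_lit 16433) (nat_lit 9) (.e (nat_lit 426481) (nat_lit 27) (.e (nat_lit 336389) (nat_lit 27) (.e (nat_lit 426098) (nat_lit 1) (.e (nat_lit 164325) (nat_lit 230) (.e (nat_lit 163871) (nat_lit 2) (.e (nat_lit 196656) (nat_lit 11) .nil))))))) (.g (nat_lit 1) (.e (nat_lit 138284) (nat_lit 0) .nil) .nil)))))) 
(.nd (nat_lit 7) (.nd (nat_lit 8) (.nd (nat_lit 9) 
(.lf (nat_lit 487520) (.g (nat_lit 4315) (.e (nat_lit 24664) (nat_lit 14) (.e (nat_lit 401426) (nat_lit 3) (.e (nat_lit 204869) (nat_lit 29) (.e (nat_lit 360475) (nat_lit 8) (.e (nat_lit 557085) (nat_lit 11) .nil))))) (.g (nat_lit 1) (.e (nat_lit 135623) (nat_lit 0) .nil) .nil))) 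
(.lf (nat_lit 488032) (.g (nat_lit 3760) (.e (nat_lit 16416) (nat_lit 3) (.e (nat_lit 204813) (nat_lit 9) (.e (nat_lit 426133) (nat_lit 3) (.e (nat_lit 204813) (nat_lit 9) (.e (nat_lit 426116) (nat_lit 2) (.e (nat_lit 196654) (nat_lit 11) .nil)))))) (.g (nat_lit 1) (.e (nat_lit 137745) (nat_lit 0) .nil) .nil)))) (.nd (nat_lit 9) 
(.lf (nat_lit 487776) (.g (nat_lit 4276) (.e (nat_lit 16388) (nat_lit 0) (.e (nat_lit 3276) (nat_lit 200) (.e (nat_lit 557105) (nat_lit 14) (.e (nat_lit 180252) (nat_lit 10) (.e (nat_lit 573482) (nat_lit 13) (.e (nat_lit 65568) (nat_lit 2) (.e (nat_lit 98048) (nat_lit 2) .nil))))))) (.g (nat_lit 1) (.e (nat_lit 136881) (nat_lit 0) .nil) .nil))) 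
(.lf (nat_lit 488288) (.g (nat_lit 2948) (.e (nat_lit 16425) (nat_lit 7) (.e (nat_lit 409648) (nat_lit 18) (.e (nat_lit 303143) (nat_lit 12) (.e (nat_lit 475199) (nat_lit 40) (.e (nat_lit 704787) (nat_lit 14) .nil))))) (.g (nat_lit 0) (.e (nat_lit 138156) (nat_lit 0) .nil) .nil))))) (.nd (nat_lit 8) (.nd (nat_lit 9) 
(.lf (nat_lit 487648) (.g (nat_lit 2199) (.e (nat_lit 24665) (nat_lit 14) (.e (nat_lit 401450) (nat_lit 12) (.e (nat_lit 475214) (nat_lit 42) (.e (nat_lit 720954) (nat_lit 25) .nil)))) (.g (nat_lit 0) (.e (nat_lit 136241) (nat_lit 0) .nil) .nil))) 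
(.lf (nat_lit 488160) (.g (nat_lit 2873) (.e (nat_lit 16424) (nat_lit 7) (.e (nat_lit 409645) (nat_lit 18) (.e (nat_lit 303143) (nat_lit 12) (.e (nat_lit 475199) (nat_lit 40) (.e (nat_lit 704787) (nat_lit 14) .nil))))) (.g (nat_lit 0) (.e (nat_lit 137965) (nat_lit 0) .nil) .nil)))) (.nd (nat_lit 9) 
(.lf (nat_lit 487904) (.g (nat_lit 362) (.e (nat_lit 16412) (nat_lit 2) (.e (nat_lit 196674) (nat_lit 15) (.e (nat_lit 89856) (nat_lit 0) .nil))) (.g (nat_lit 0) (.e (nat_lit 137439) (nat_lit 0) .nil) .nil))) 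
(.lf (nat_lit 488416) (.g (nat_lit 2921) (.e (nat_lit 16433) (nat_lit 9) (.e (nat_lit 426566) (nat_lit 34) (.e (nat_lit 393254) (nat_lit 18) (.e (nat_lit 164325) (nat_lit 230) (.e (nat_lit 163871) (nat_lit 2) (.e (nat_lit 196654) (nat_lit 11) .nil)))))) (.g (nat_lit 1) (.e (nat_lit 138350) (nat_lit 0) .nil) .nil)))))))) 
(.nd (nat_lit 5) (.nd (nat_lit 6) (.nd (nat_lit 7) (.nd (nat_lit 8) (.nd (nat_lit 9) 
(.lf (nat_lit 487440) (.g (nat_lit 4125) (.e (nat_lit 24662) (nat_lit 14) (.e (nat_lit 401425) (nat_lit 2) (.e (nat_lit 196666) (nat_lit 13) (.e (nat_lit 65610) (nat_lit 10) (.e (nat_lit 344097) (nat_lit 18) (.e (nat_lit 4075) (nat_lit 245) (.e (nat_lit 2557) (nat_lit 159) .nil))))))) (.g (nat_lit 1) (.e (nat_lit 135459) (nat_lit 0) .nil) .nil))) 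
(.lf (nat_lit 487952) (.g (nat_lit 2371) (.e (nat_lit 16413) (nat_lit 2) (.e (nat_lit 196666) (nat_lit 13) (.e (nat_lit 65624) (nat_lit 12) (.e (nat_lit 385067) (nat_lit 26) (.e (nat_lit 532508) (nat_lit 2) (.e (nat_lit 106534) (nat_lit 11) .nil)))))) (.g (nat_lit 1) (.e (nat_lit 137530) (nat_lit 0) .nil) .nil)))) (.nd (nat_lit 9) 
(.lf (nat_lit 487696) (.g (nat_lit 1972) (.e (nat_lit 32512) (nat_lit 18) (.e (nat_lit 204862) (nat_lit 27) (.e (nat_lit 344117) (nat_lit 21) (.e (nat_lit 516130) (nat_lit 3) (.e (nat_lit 229120) (nat_lit 2) .nil))))) (.g (nat_lit 0) (.e (nat_lit 136453) (nat_lit 0) .nil) .nil))) 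
(.lf (nat_lit 488208) (.g (nat_lit 2154) (.e (nat_lit 16425) (nat_lit 7) (.e (nat_lit 409643) (nat_lit 18) (.e (nat_lit 303143) (nat_lit 12) (.e (nat_lit 475199) (nat_lit 40) (.e (nat_lit 704787) (nat_lit 14) .nil))))) (.g (nat_lit 0) (.e (nat_lit 138071) (nat_lit 0) .nil) .nil))))) (.nd (nat_lit 8) (.nd (nat_lit 9) 
(.lf (nat_lit 487568) (.g (nat_lit 2748) (.e (nat_lit 24665) (nat_lit 14) (.e (nat_lit 401426) (nat_lit 3) (.e (nat_lit 204855) (nat_lit 26) (.e (nat_lit 336176) (nat_lit 10) (.e (nat_lit 344130) (nat_lit 26) (.e (nat_lit 564992) (nat_lit 11) .nil)))))) (.g (nat_lit 1) (.e (nat_lit 135903) (nat_lit 0) .nil) .nil))) 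
(.lf (nat_lit 488080) (.g (nat_lit 4665) (.e (nat_lit 16416) (nat_lit 3) (.e (nat_lit 204838) (nat_lit 20) (.e (nat_lit 114719) (nat_lit 23) (.e (nat_lit 98333) (nat_lit 18) (.e (nat_lit 164325) (nat_lit 230) (.e (nat_lit 163868) (nat_lit 2) (.e (nat_lit 196656) (nat_lit 11) .nil))))))) (.g (nat_lit 1) (.e (nat_lit 137795) (nat_lit 0) .nil) .nil)))) (.nd (nat_lit 9) 
(.lf (nat_lit 487824) (.g (nat_lit 418) (.e (nat_lit 16410) (nat_lit 2) (.e (nat_lit 196681) (nat_lit 17) (.e (nat_lit 131120) (nat_lit 12) .nil))) (.g (nat_lit 0) (.e (nat_lit 137218) (nat_lit 0) .nil) .nil))) 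
(.lf (nat_lit 488336) (.g (nat_lit 3835) (.e (nat_lit 16431) (nat_lit 9) (.e (nat_lit 426499) (nat_lit 27) (.e (nat_lit 336231) (nat_lit 14) (.e (nat_lit 401444) (nat_lit 9) (.e (nat_lit 426163) (nat_lit 6) (.e (nat_lit 253991) (nat_lit 11) .nil)))))) (.g (nat_lit 1) (.e (nat_lit 138247) (nat_lit 0) .nil) .nil)))))) (.nd (nat_lit 7) (.nd (nat_lit 8) (.nd (nat_lit 9) 
(.lf (nat_lit 487504) (.g (nat_lit 2096) (.e (nat_lit 24662) (nat_lit 14) (.e (nat_lit 401459) (nat_lit 13) (.e (nat_lit 483410) (nat_lit 27) (.e (nat_lit 401414) (nat_lit 0) (.e (nat_lit 7936) (nat_lit 390) .nil))))) (.g (nat_lit 0) (.e (nat_lit 135583) (nat_lit 0) .nil) .nil))) 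
(.lf (nat_lit 488016) (.g (nat_lit 2779) (.e (nat_lit 16416) (nat_lit 3) (.e (nat_lit 204813) (nat_lit 9) (.e (nat_lit 426116) (nat_lit 2) (.e (nat_lit 196656) (nat_lit 11) (.e (nat_lit 16411) (nat_lit 2) (.e (nat_lit 196656) (nat_lit 11) .nil)))))) (.g (nat_lit 1) (.e (nat_lit 137725) (nat_lit 0) .nil) .nil)))) (.nd (nat_lit 9) 
(.lf (nat_lit 487760) (.g (nat_lit 2832) (.e (nat_lit 16388) (nat_lit 0) (.e (nat_lit 3208) (nat_lit 195) (.e (nat_lit 516130) (nat_lit 3) (.e (nat_lit 221215) (nat_lit 23) (.e (nat_lit 204850) (nat_lit 26) (.e (nat_lit 336013) (nat_lit 2) (.e (nat_lit 98048) (nat_lit 2) .nil))))))) (.g (nat_lit 1) (.e (nat_lit 136859) (nat_lit 0) .nil) .nil))) 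
(.lf (nat_lit 488272) (.g (nat_lit 3022) (.e (nat_lit 16425) (nat_lit 7) (.e (nat_lit 409648) (nat_lit 18) (.e (nat_lit 303137) (nat_lit 10) (.e (nat_lit 434275) (nat_lit 39) (.e (nat_lit 663574) (nat_lit 9) (.e (nat_lit 2418) (nat_lit 157) (.e (nat_lit 3476) (nat_lit 218) (.e (nat_lit 704740) (nat_lit 11) .nil)))))))) (.g (nat_lit 1) (.e (nat_lit 138135) (nat_lit 0) .nil) .nil))))) 
(.nd (nat_lit 8) (.nd (nat_lit 9) 
(.lf (nat_lit 487632) (.g (nat_lit 3182) (.e (nat_lit 24665) (nat_lit 14) (.e (nat_lit 401448) (nat_lit 10) (.e (nat_lit 434289) (nat_lit 43) (.e (nat_lit 696344) (nat_lit 8) (.e (nat_lit 172039) (nat_lit 0) (.e (nat_lit 7936) (nat_lit 390) .nil)))))) (.g (nat_lit 1) (.e (nat_lit 136200) (nat_lit 0) .nil) .nil))) 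
(.lf (nat_lit 488144) (.g (nat_lit 3810) (.e (nat_lit 16417) (nat_lit 3) (.e (nat_lit 204869) (nat_lit 29) (.e (nat_lit 360475) (nat_lit 8) (.e (nat_lit 557068) (nat_lit 9) .nil)))) (.g (nat_lit 0) (.e (nat_lit 137934) (nat_lit 0) .nil) .nil)))) (.nd (nat_lit 9) 
(.lf (nat_lit 487888) (.g (nat_lit 3712) (.e (nat_lit 16412) (nat_lit 2) (.e (nat_lit 196666) (nat_lit 13) (.e (nat_lit 65610) (nat_lit 10) (.e (nat_lit 344129) (nat_lit 26) (.e (nat_lit 557065) (nat_lit 9) (.e (nat_lit 2741) (nat_lit 174) (.e (nat_lit 253988) (nat_lit 11) .nil))))))) (.g (nat_lit 1) (.e (nat_lit 137417) (nat_lit 0) .nil) .nil))) 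
(.lf (nat_lit 488400) (.g (nat_lit 3401) (.e (nat_lit 16433) (nat_lit 9) (.e (nat_lit 426566) (nat_lit 34) (.e (nat_lit 393253) (nat_lit 18) (.e (nat_lit 164331) (nat_lit 230) (.e (nat_lit 163866) (nat_lit 2) (.e (nat_lit 196654) (nat_lit 11) .nil)))))) (.g (nat_lit 1) (.e (nat_lit 138334) (nat_lit 0) .nil) .nil))))))) (.nd (nat_lit 6) (.nd (nat_lit 7) (.nd (nat_lit 8) (.nd (nat_lit 9) 
(.lf (nat_lit 487472) (.g (nat_lit 2401) (.e (nat_lit 24662) (nat_lit 14) (.e (nat_lit 401459) (nat_lit 13) (.e (nat_lit 483350) (nat_lit 17) (.e (nat_lit 6113) (nat_lit 332) (.e (nat_lit 977) (nat_lit 81) (.e (nat_lit 7936) (nat_lit 314) .nil)))))) (.g (nat_lit 1) (.e (nat_lit 135549) (nat_lit 0) .nil) .nil))) 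
(.lf (nat_lit 487984) (.g (nat_lit 3923) (.e (nat_lit 16415) (nat_lit 3) (.e (nat_lit 204884) (nat_lit 33) (.e (nat_lit 401454) (nat_lit 12) (.e (nat_lit 475177) (nat_lit 24) (.e (nat_lit 516124) (nat_lit 2) (.e (nat_lit 220928) (nat_lit 2) .nil)))))) (.g (nat_lit 1) (.e (nat_lit 137675) (nat_lit 0) .nil) .nil)))) (.nd (nat_lit 9) 
(.lf (nat_lit 487728) (.g (nat_lit 3350) (.e (nat_lit 24675) (nat_lit 27) (.e (nat_lit 426172) (nat_lit 7) (.e (nat_lit 409616) (nat_lit 10) (.e (nat_lit 632) (nat_lit 50) (.e (nat_lit 573487) (nat_lit 14) (.e (nat_lit 81664) (nat_lit 34) .nil)))))) (.g (nat_lit 1) (.e (nat_lit 136593) (nat_lit 0) .nil) .nil))) 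
(.lf (nat_lit 488240) (.g (nat_lit 2577) (.e (nat_lit 16425) (nat_lit 7) (.e (nat_lit 409645) (nat_lit 18) (.e (nat_lit 303143) (nat_lit 12) (.e (nat_lit 475220) (nat_lit 44) (.e (nat_lit 737318) (nat_lit 15) (.e (nat_lit 49187) (nat_lit 11) .nil)))))) (.g (nat_lit 1) (.e (nat_lit 138103) (nat_lit 0) .nil) .nil))))) (.nd (nat_lit 8) (.nd (nat_lit 9) 
(.lf (nat_lit 487600) (.g (nat_lit 692) (.e (nat_lit 24665) (nat_lit 14) (.e (nat_lit 401446) (nat_lit 10) (.e (nat_lit 434275) (nat_lit 39) .nil))) (.g (nat_lit 0) (.e (nat_lit 136109) (nat_lit 0) .nil) .nil))) 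
(.lf (nat_lit 488112) (.g (nat_lit 3471) (.e (nat_lit 16416) (nat_lit 3) (.e (nat_lit 204868) (nat_lit 29) (.e (nat_lit 360475) (nat_lit 8) (.e (nat_lit 557065) (nat_lit 9) (.e (nat_lit 2741) (nat_lit 174) .nil))))) (.g (nat_lit 0) (.e (nat_lit 137851) (nat_lit 0) .nil) .nil)))) (.nd (nat_lit 9) 
(.lf (nat_lit 487856) (.g (nat_lit 2116) (.e (nat_lit 16412) (nat_lit 2) (.e (nat_lit 196654) (nat_lit 11) (.e (nat_lit 16412) (nat_lit 2) (.e (nat_lit 196656) (nat_lit 11) (.e (nat_lit 16409) (nat_lit 2) .nil))))) (.g (nat_lit 0) (.e (nat_lit 137357) (nat_lit 0) .nil) .nil))) 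
(.lf (nat_lit 488368) (.g (nat_lit 3161) (.e (nat_lit 16433) (nat_lit 9) (.e (nat_lit 426566) (nat_lit 34) (.e (nat_lit 393252) (nat_lit 18) (.e (nat_lit 164330) (nat_lit 230) (.e (nat_lit 163867) (nat_lit 2) (.e (nat_lit 196654) (nat_lit 11) .nil)))))) (.g (nat_lit 1) (.e (nat_lit 138300) (nat_lit 0) .nil) .nil)))))) (.nd (nat_lit 7) (.nd (nat_lit 8) (.nd (nat_lit 9) 
(.lf (nat_lit 487536) (.g (nat_lit 4784) (.e (nat_lit 24664) (nat_lit 14) (.e (nat_lit 401428) (nat_lit 3) (.e (nat_lit 204869) (nat_lit 29) (.e (nat_lit 360475) (nat_lit 8) (.e (nat_lit 557085) (nat_lit 11) .nil))))) (.g (nat_lit 1) (.e (nat_lit 135639) (nat_lit 0) .nil) .nil))) 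
(.lf (nat_lit 488048) (.g (nat_lit 3250) (.e (nat_lit 16416) (nat_lit 3) (.e (nat_lit 204813) (nat_lit 9) (.e (nat_lit 426139) (nat_lit 3) (.e (nat_lit 204813) (nat_lit 9) (.e (nat_lit 426124) (nat_lit 2) (.e (nat_lit 196656) (nat_lit 11) .nil)))))) (.g (nat_lit 1) (.e (nat_lit 137761) (nat_lit 0) .nil) .nil)))) (.nd (nat_lit 9) 
(.lf (nat_lit 487792) (.g (nat_lit 2469) (.e (nat_lit 16397) (nat_lit 0) (.e (nat_lit 3251) (nat_lit 197) (.e (nat_lit 532535) (nat_lit 9) (.e (nat_lit 336176) (nat_lit 10) .nil)))) (.g (nat_lit 0) (.e (nat_lit 136933) (nat_lit 0) .nil) .nil))) 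
(.lf (nat_lit 488304) (.g (nat_lit 812) (.e (nat_lit 16425) (nat_lit 7) (.e (nat_lit 409649) (nat_lit 18) (.e (nat_lit 303136) (nat_lit 10) .nil))) (.g (nat_lit 0) (.e (nat_lit 138172) (nat_lit 0) .nil) .nil))))) (.nd (nat_lit 8) (.nd (nat_lit 9) 
(.lf (nat_lit 487664) (.g (nat_lit 3925) (.e (nat_lit 24665) (nat_lit 14) (.e (nat_lit 401460) (nat_lit 14) (.e (nat_lit 491565) (nat_lit 12) (.e (nat_lit 385109) (nat_lit 51) (.e (nat_lit 794678) (nat_lit 24) (.e (nat_lit 213032) (nat_lit 11) .nil)))))) (.g (nat_lit 1) (.e (nat_lit 136323) (nat_lit 0) .nil) .nil))) 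
(.lf (nat_lit 488176) (.g (nat_lit 1448) (.e (nat_lit 16425) (nat_lit 7) (.e (nat_lit 409611) (nat_lit 10) (.e (nat_lit 934) (nat_lit 76) (.e (nat_lit 786480) (nat_lit 29) (.e (nat_lit 352312) (nat_lit 22) (.e (nat_lit 98048) (nat_lit 2) .nil)))))) (.g (nat_lit 1) (.e (nat_lit 137994) (nat_lit 0) .nil) .nil)))) (.nd (nat_lit 9) 
(.lf (nat_lit 487920) (.g (nat_lit 839) (.e (nat_lit 16412) (nat_lit 2) (.e (nat_lit 196681) (nat_lit 17) (.e (nat_lit 131109) (nat_lit 9) (.e (nat_lit 335878) (nat_lit 0) .nil)))) (.g (nat_lit 0) (.e (nat_lit 137464) (nat_lit 0) .nil) .nil))) 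
(.lf (nat_lit 488432) (.g (nat_lit 2719) (.e (nat_lit 16433) (nat_lit 9) (.e (nat_lit 426568) (nat_lit 34) (.e (nat_lit 393250) (nat_lit 18) (.e (nat_lit 164327) (nat_lit 230) (.e (nat_lit 163871) (nat_lit 2) (.e (nat_lit 196654) (nat_lit 11) .nil)))))) (.g (nat_lit 1) (.e (nat_lit 138368) (nat_lit 0) .nil) .nil))))))))) 
(.nd (nat_lit 4) (.nd (nat_lit 5) (.nd (nat_lit 6) (.nd (nat_lit 7) (.nd (nat_lit 8) 
(.nd (nat_lit 9) 
(.lf (nat_lit 487432) (.g (nat_lit 4047) (.e (nat_lit 24662) (nat_lit 14) (.e (nat_lit 401425) (nat_lit 2) (.e (nat_lit 196666) (nat_lit 13) (.e (nat_lit 65610) (nat_lit 10) (.e (nat_lit 344097) (nat_lit 18) (.e (nat_lit 4056) (nat_lit 245) (.e (nat_lit 2557) (nat_lit 159) .nil))))))) (.g (nat_lit 1) (.e (nat_lit 135447) (nat_lit 0) .nil) .nil))) 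
(.lf (nat_lit 487944) (.g (nat_lit 2988) (.e (nat_lit 16413) (nat_lit 2) (.e (nat_lit 196666) (nat_lit 13) (.e (nat_lit 65617) (nat_lit 10) (.e (nat_lit 344133) (nat_lit 26) (.e (nat_lit 557065) (nat_lit 9) (.e (nat_lit 2741) (nat_lit 174) (.e (nat_lit 253990) (nat_lit 11) .nil))))))) (.g (nat_lit 1) (.e (nat_lit 137522) (nat_lit 0) .nil) .nil)))) (.nd (nat_lit 9) 
(.lf (nat_lit 487688) (.g (nat_lit 2348) (.e (nat_lit 24665) (nat_lit 14) (.e (nat_lit 409344) (nat_lit 34) (.e (nat_lit 393260) (nat_lit 21) (.e (nat_lit 409616) (nat_lit 10) (.e (nat_lit 614) (nat_lit 47) (.e (nat_lit 548907) (nat_lit 16) .nil)))))) (.g (nat_lit 1) (.e (nat_lit 136382) (nat_lit 0) .nil) .nil))) 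
(.lf (nat_lit 488200) (.g (nat_lit 3375) (.e (nat_lit 16425) (nat_lit 7) (.e (nat_lit 409617) (nat_lit 10) (.e (nat_lit 932) (nat_lit 76) (.e (nat_lit 786480) (nat_lit 29) (.e (nat_lit 352312) (nat_lit 22) (.e (nat_lit 98048) (nat_lit 2) .nil)))))) (.g (nat_lit 1) (.e (nat_lit 138063) (nat_lit 0) .nil) .nil))))) (.nd (nat_lit 8) (.nd (nat_lit 9) 
(.lf (nat_lit 487560) (.g (nat_lit 2921) (.e (nat_lit 24665) (nat_lit 14) (.e (nat_lit 401423) (nat_lit 2) (.e (nat_lit 196666) (nat_lit 13) (.e (nat_lit 65617) (nat_lit 10) (.e (nat_lit 344130) (nat_lit 26) (.e (nat_lit 564992) (nat_lit 11) .nil)))))) (.g (nat_lit 1) (.e (nat_lit 135876) (nat_lit 0) .nil) .nil))) 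
(.lf (nat_lit 488072) (.g (nat_lit 4306) (.e (nat_lit 16416) (nat_lit 3) (.e (nat_lit 204838) (nat_lit 20) (.e (nat_lit 114718) (nat_lit 23) (.e (nat_lit 98333) (nat_lit 18) (.e (nat_lit 164325) (nat_lit 230) (.e (nat_lit 163871) (nat_lit 2) (.e (nat_lit 196656) (nat_lit 11) .nil))))))) (.g (nat_lit 1) (.e (nat_lit 137787) (nat_lit 0) .nil) .nil)))) (.nd (nat_lit 9) 
(.lf (nat_lit 487816) (.g (nat_lit 2824) (.e (nat_lit 16410) (nat_lit 2) (.e (nat_lit 196654) (nat_lit 11) (.e (nat_lit 16416) (nat_lit 3) (.e (nat_lit 204813) (nat_lit 9) (.e (nat_lit 426124) (nat_lit 2) (.e (nat_lit 196655) (nat_lit 11) .nil)))))) (.g (nat_lit 1) (.e (nat_lit 137195) (nat_lit 0) .nil) .nil))) 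
(.lf (nat_lit 488328) (.g (nat_lit 2558) (.e (nat_lit 16425) (nat_lit 7) (.e (nat_lit 409649) (nat_lit 18) (.e (nat_lit 303143) (nat_lit 12) (.e (nat_lit 475218) (nat_lit 44) (.e (nat_lit 737318) (nat_lit 15) (.e (nat_lit 49187) (nat_lit 11) .nil)))))) (.g (nat_lit 1) (.e (nat_lit 138198) (nat_lit 0) .nil) .nil)))))) (.nd (nat_lit 7) (.nd (nat_lit 8) (.nd (nat_lit 9) 
(.lf (nat_lit 487496) (.g (nat_lit 2096) (.e (nat_lit 24662) (nat_lit 14) (.e (nat_lit 401459) (nat_lit 13) (.e (nat_lit 483374) (nat_lit 22) (.e (nat_lit 327703) (nat_lit 10) (.e (nat_lit 7936) (nat_lit 314) .nil))))) (.g (nat_lit 1) (.e (nat_lit 135573) (nat_lit 0) .nil) .nil))) 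
(.lf (nat_lit 488008) (.g (nat_lit 3237) (.e (nat_lit 16416) (nat_lit 3) (.e (nat_lit 204809) (nat_lit 9) (.e (nat_lit 426139) (nat_lit 3) (.e (nat_lit 204813) (nat_lit 9) (.e (nat_lit 426124) (nat_lit 2) (.e (nat_lit 196656) (nat_lit 11) .nil)))))) (.g (nat_lit 1) (.e (nat_lit 137715) (nat_lit 0) .nil) .nil)))) (.nd (nat_lit 9) 
(.lf (nat_lit 487752) (.g (nat_lit 3035) (.e (nat_lit 16385) (nat_lit 0) (.e (nat_lit 7583) (nat_lit 405) (.e (nat_lit 57464) (nat_lit 23) (.e (nat_lit 516166) (nat_lit 12) (.e (nat_lit 450588) (nat_lit 10) (.e (nat_lit 573471) (nat_lit 11) .nil)))))) (.g (nat_lit 1) (.e (nat_lit 136848) (nat_lit 0) .nil) .nil))) 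
(.lf (nat_lit 488264) (.g (nat_lit 2851) (.e (nat_lit 16425) (nat_lit 7) (.e (nat_lit 409647) (nat_lit 18) (.e (nat_lit 303143) (nat_lit 12) (.e (nat_lit 475199) (nat_lit 40) (.e (nat_lit 704814) (nat_lit 14) (.e (nat_lit 2587) (nat_lit 162) (.e (nat_lit 49189) (nat_lit 11) .nil))))))) (.g (nat_lit 1) (.e (nat_lit 138127) (nat_lit 0) .nil) .nil))))) (.nd (nat_lit 8) (.nd (nat_lit 9) 
(.lf (nat_lit 487624) (.g (nat_lit 2559) (.e (nat_lit 24665) (nat_lit 14) (.e (nat_lit 401448) (nat_lit 10) (.e (nat_lit 434289) (nat_lit 43) (.e (nat_lit 696343) (nat_lit 8) (.e (nat_lit 172035) (nat_lit 0) (.e (nat_lit 7936) (nat_lit 390) .nil)))))) (.g (nat_lit 1) (.e (nat_lit 136192) (nat_lit 0) .nil) .nil))) 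
(.lf (nat_lit 488136) (.g (nat_lit 889) (.e (nat_lit 16417) (nat_lit 3) (.e (nat_lit 204869) (nat_lit 29) (.e (nat_lit 360473) (nat_lit 8) .nil))) (.g (nat_lit 0) (.e (nat_lit 137925) (nat_lit 0) .nil) .nil)))) (.nd (nat_lit 9) 
(.lf (nat_lit 487880) (.g (nat_lit 2953) (.e (nat_lit 16412) (nat_lit 2) (.e (nat_lit 196666) (nat_lit 13) (.e (nat_lit 65610) (nat_lit 10) (.e (nat_lit 344097) (nat_lit 18) (.e (nat_lit 4130) (nat_lit 246) .nil))))) (.g (nat_lit 0) (.e (nat_lit 137409) (nat_lit 0) .nil) .nil))) 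
(.lf (nat_lit 488392) (.g (nat_lit 3975) (.e (nat_lit 16433) (nat_lit 9) (.e (nat_lit 426566) (nat_lit 34) (.e (nat_lit 393253) (nat_lit 18) (.e (nat_lit 164327) (nat_lit 230) (.e (nat_lit 163871) (nat_lit 2) (.e (nat_lit 196654) (nat_lit 11) .nil)))))) (.g (nat_lit 1) (.e (nat_lit 138326) (nat_lit 0) .nil) .nil))))))) (.nd (nat_lit 6) (.nd (nat_lit 7) (.nd (nat_lit 8) (.nd (nat_lit 9) 
(.lf (nat_lit 487464) (.g (nat_lit 2187) (.e (nat_lit 24662) (nat_lit 14) (.e (nat_lit 401459) (nat_lit 13) (.e (nat_lit 483350) (nat_lit 17) (.e (nat_lit 6097) (nat_lit 332) (.e (nat_lit 1076) (nat_lit 81) (.e (nat_lit 7936) (nat_lit 314) .nil)))))) (.g (nat_lit 1) (.e (nat_lit 135541) (nat_lit 0) .nil) .nil))) 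
(.lf (nat_lit 487976) (.g (nat_lit 1405) (.e (nat_lit 16415) (nat_lit 3) (.e (nat_lit 204861) (nat_lit 26) (.e (nat_lit 336086) (nat_lit 9) (.e (nat_lit 336324) (nat_lit 18) (.e (nat_lit 204835) (nat_lit 19) .nil))))) (.g (nat_lit 0) (.e (nat_lit 137664) (nat_lit 0) .nil) .nil)))) (.nd (nat_lit 9) 
(.lf (nat_lit 487720) (.g (nat_lit 3090) (.e (nat_lit 32512) (nat_lit 18) (.e (nat_lit 204863) (nat_lit 27) (.e (nat_lit 344132) (nat_lit 26) (.e (nat_lit 557100) (nat_lit 13) (.e (nat_lit 172071) (nat_lit 5) .nil))))) (.g (nat_lit 0) (.e (nat_lit 136477) (nat_lit 0) .nil) .nil))) 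
(.lf (nat_lit 488232) (.g (nat_lit 2942) (.e (nat_lit 16425) (nat_lit 7) (.e (nat_lit 409645) (nat_lit 18) (.e (nat_lit 303143) (nat_lit 12) (.e (nat_lit 475199) (nat_lit 40) (.e (nat_lit 704777) (nat_lit 14) (.e (nat_lit 2587) (nat_lit 162) (.e (nat_lit 49189) (nat_lit 11) .nil))))))) (.g (nat_lit 1) (.e (nat_lit 138095) (nat_lit 0) .nil) .nil))))) (.nd (nat_lit 8) (.nd (nat_lit 9) 
(.lf (nat_lit 487592) (.g (nat_lit 873) (.e (nat_lit 24665) (nat_lit 14) (.e (nat_lit 401440) (nat_lit 9) (.e (nat_lit 433920) (nat_lit 31) (.e (nat_lit 368656) (nat_lit 14) (.e (nat_lit 65280) (nat_lit 258) .nil))))) (.g (nat_lit 1) (.e (nat_lit 136091) (nat_lit 0) .nil) .nil))) 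
(.lf (nat_lit 488104) (.g (nat_lit 2447) (.e (nat_lit 16416) (nat_lit 3) (.e (nat_lit 204861) (nat_lit 26) (.e (nat_lit 336194) (nat_lit 12) (.e (nat_lit 385067) (nat_lit 26) (.e (nat_lit 532511) (nat_lit 2) (.e (nat_lit 106535) (nat_lit 11) .nil)))))) (.g (nat_lit 1) (.e (nat_lit 137839) (nat_lit 0) .nil) .nil)))) (.nd (nat_lit 9) 
(.lf (nat_lit 487848) (.g (nat_lit 2224) (.e (nat_lit 16411) (nat_lit 2) (.e (nat_lit 196674) (nat_lit 15) (.e (nat_lit 81946) (nat_lit 20) (.e (nat_lit 1858) (nat_lit 124) (.e (nat_lit 557065) (nat_lit 9) (.e (nat_lit 2741) (nat_lit 174) (.e (nat_lit 253990) (nat_lit 11) .nil))))))) (.g (nat_lit 1) (.e (nat_lit 137324) (nat_lit 0) .nil) .nil))) 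
(.lf (nat_lit 488360) (.g (nat_lit 3717) (.e (nat_lit 16433) (nat_lit 9) (.e (nat_lit 426566) (nat_lit 34) (.e (nat_lit 393251) (nat_lit 18) (.e (nat_lit 164327) (nat_lit 230) (.e (nat_lit 163868) (nat_lit 2) (.e (nat_lit 196654) (nat_lit 11) .nil)))))) (.g (nat_lit 1) (.e (nat_lit 138292) (nat_lit 0) .nil) .nil)))))) (.nd (nat_lit 7) (.nd (nat_lit 8) (.nd (nat_lit 9) 
(.lf (nat_lit 487528) (.g (nat_lit 3259) (.e (nat_lit 24664) (nat_lit 14) (.e (nat_lit 401428) (nat_lit 3) (.e (nat_lit 204868) (nat_lit 29) (.e (nat_lit 360475) (nat_lit 8) (.e (nat_lit 557086) (nat_lit 11) .nil))))) (.g (nat_lit 1) (.e (nat_lit 135631) (nat_lit 0) .nil) .nil))) 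
(.lf (nat_lit 488040) (.g (nat_lit 1804) (.e (nat_lit 16416) (nat_lit 3) (.e (nat_lit 204813) (nat_lit 9) (.e (nat_lit 426138) (nat_lit 3) (.e (nat_lit 204813) (nat_lit 9) (.e (nat_lit 426115) (nat_lit 2) (.e (nat_lit 196654) (nat_lit 11) .nil)))))) (.g (nat_lit 1) (.e (nat_lit 137753) (nat_lit 0) .nil) .nil)))) (.nd (nat_lit 9) 
(.lf (nat_lit 487784) (.g (nat_lit 592) (.e (nat_lit 16388) (nat_lit 0) (.e (nat_lit 7593) (nat_lit 407) (.e (nat_lit 73773) (nat_lit 25) .nil))) (.g (nat_lit 0) (.e (nat_lit 136904) (nat_lit 0) .nil) .nil))) 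
(.lf (nat_lit 488296) (.g (nat_lit 3394) (.e (nat_lit 16425) (nat_lit 7) (.e (nat_lit 409648) (nat_lit 18) (.e (nat_lit 303143) (nat_lit 12) (.e (nat_lit 475199) (nat_lit 40) (.e (nat_lit 704836) (nat_lit 14) (.e (nat_lit 2591) (nat_lit 162) (.e (nat_lit 49189) (nat_lit 11) .nil))))))) (.g (nat_lit 1) (.e (nat_lit 138164) (nat_lit 0) .nil) .nil))))) (.nd (nat_lit 8) (.nd (nat_lit 9) 
(.lf (nat_lit 487656) (.g (nat_lit 1399) (.e (nat_lit 24665) (nat_lit 14) (.e (nat_lit 401451) (nat_lit 12) (.e (nat_lit 475213) (nat_lit 42) .nil))) (.g (nat_lit 0) (.e (nat_lit 136254) (nat_lit 0) .nil) .nil))) 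
(.lf (nat_lit 488168) (.g (nat_lit 921) (.e (nat_lit 16424) (nat_lit 7) (.e (nat_lit 409646) (nat_lit 18) (.e (nat_lit 303143) (nat_lit 12) .nil))) (.g (nat_lit 0) (.e (nat_lit 137983) (nat_lit 0) .nil) .nil)))) (.nd (nat_lit 9) 
(.lf (nat_lit 487912) (.g (nat_lit 3082) (.e (nat_lit 16412) (nat_lit 2) (.e (nat_lit 196674) (nat_lit 15) (.e (nat_lit 81946) (nat_lit 20) (.e (nat_lit 1858) (nat_lit 124) (.e (nat_lit 557120) (nat_lit 18) (.e (nat_lit 1157) (nat_lit 86) (.e (nat_lit 49189) (nat_lit 11) .nil))))))) (.g (nat_lit 1) (.e (nat_lit 137447) (nat_lit 0) .nil) .nil))) 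
(.lf (nat_lit 488424) (.g (nat_lit 1998) (.e (nat_lit 16433) (nat_lit 9) (.e (nat_lit 426566) (nat_lit 34) (.e (nat_lit 393254) (nat_lit 18) (.e (nat_lit 164329) (nat_lit 230) (.e (nat_lit 163867) (nat_lit 2) (.e (nat_lit 196652) (nat_lit 11) .nil)))))) (.g (nat_lit 1) (.e (nat_lit 138358) (nat_lit 0) .nil) .nil)))))))) 
(.nd (nat_lit 5) (.nd (nat_lit 6) (.nd (nat_lit 7) (.nd (nat_lit 8) (.nd (nat_lit 9) 
(.lf (nat_lit 487448) (.g (nat_lit 3584) (.e (nat_lit 24662) (nat_lit 14) (.e (nat_lit 401428) (nat_lit 3) (.e (nat_lit 204868) (nat_lit 29) (.e (nat_lit 360475) (nat_lit 8) (.e (nat_lit 557087) (nat_lit 11) .nil))))) (.g (nat_lit 1) (.e (nat_lit 135470) (nat_lit 0) .nil) .nil))) 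
(.lf (nat_lit 487960) (.g (nat_lit 2623) (.e (nat_lit 16413) (nat_lit 2) (.e (nat_lit 196681) (nat_lit 17) (.e (nat_lit 131109) (nat_lit 9) (.e (nat_lit 336324) (nat_lit 18) (.e (nat_lit 204835) (nat_lit 19) (.e (nat_lit 106534) (nat_lit 11) .nil)))))) (.g (nat_lit 1) (.e (nat_lit 137543) (nat_lit 0) .nil) .nil)))) (.nd (nat_lit 9) 
(.lf (nat_lit 487704) (.g (nat_lit 1323) (.e (nat_lit 32512) (nat_lit 18) (.e (nat_lit 204862) (nat_lit 27) (.e (nat_lit 344133) (nat_lit 26) (.e (nat_lit 557098) (nat_lit 13) .nil)))) (.g (nat_lit 0) (.e (nat_lit 136461) (nat_lit 0) .nil) .nil))) 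
(.lf (nat_lit 488216) (.g (nat_lit 2891) (.e (nat_lit 16425) (nat_lit 7) (.e (nat_lit 409643) (nat_lit 18) (.e (nat_lit 303143) (nat_lit 12) (.e (nat_lit 475219) (nat_lit 44) (.e (nat_lit 737318) (nat_lit 15) (.e (nat_lit 49188) (nat_lit 11) .nil)))))) (.g (nat_lit 1) (.e (nat_lit 138079) (nat_lit 0) .nil) .nil))))) (.nd (nat_lit 8) (.nd (nat_lit 9) 
(.lf (nat_lit 487576) (.g (nat_lit 4156) (.e (nat_lit 24665) (nat_lit 14) (.e (nat_lit 401426) (nat_lit 3) (.e (nat_lit 204869) (nat_lit 29) (.e (nat_lit 360475) (nat_lit 8) (.e (nat_lit 557087) (nat_lit 11) .nil))))) (.g (nat_lit 1) (.e (nat_lit 135937) (nat_lit 0) .nil) .nil))) 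
(.lf (nat_lit 488088) (.g (nat_lit 2526) (.e (nat_lit 16416) (nat_lit 3) (.e (nat_lit 204838) (nat_lit 20) (.e (nat_lit 114719) (nat_lit 23) (.e (nat_lit 98335) (nat_lit 18) (.e (nat_lit 164330) (nat_lit 230) (.e (nat_lit 163869) (nat_lit 2) (.e (nat_lit 196654) (nat_lit 11) .nil))))))) (.g (nat_lit 1) (.e (nat_lit 137803) (nat_lit 0) .nil) .nil)))) (.nd (nat_lit 9) 
(.lf (nat_lit 487832) (.g (nat_lit 2975) (.e (nat_lit 16411) (nat_lit 2) (.e (nat_lit 196654) (nat_lit 11) (.e (nat_lit 16416) (nat_lit 3) (.e (nat_lit 204813) (nat_lit 9) (.e (nat_lit 426116) (nat_lit 2) (.e (nat_lit 196654) (nat_lit 11) .nil)))))) (.g (nat_lit 1) (.e (nat_lit 137270) (nat_lit 0) .nil) .nil))) 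
(.lf (nat_lit 488344) (.g (nat_lit 3401) (.e (nat_lit 16433) (nat_lit 9) (.e (nat_lit 426478) (nat_lit 27) (.e (nat_lit 336389) (nat_lit 27) (.e (nat_lit 426098) (nat_lit 1) (.e (nat_lit 164325) (nat_lit 230) (.e (nat_lit 163868) (nat_lit 2) (.e (nat_lit 196656) (nat_lit 11) .nil))))))) (.g (nat_lit 1) (.e (nat_lit 138272) (nat_lit 0) .nil) .nil)))))) 
(.nd (nat_lit 7) (.nd (nat_lit 8) (.nd (nat_lit 9) 
(.lf (nat_lit 487512) (.g (nat_lit 2319) (.e (nat_lit 24662) (nat_lit 14) (.e (nat_lit 401459) (nat_lit 13) (.e (nat_lit 483411) (nat_lit 27) (.e (nat_lit 401419) (nat_lit 0) (.e (nat_lit 7936) (nat_lit 390) .nil))))) (.g (nat_lit 0) (.e (nat_lit 135591) (nat_lit 0) .nil) .nil))) 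
(.lf (nat_lit 488024) (.g (nat_lit 2952) (.e (nat_lit 16416) (nat_lit 3) (.e (nat_lit 204813) (nat_lit 9) (.e (nat_lit 426124) (nat_lit 2) (.e (nat_lit 196656) (nat_lit 11) (.e (nat_lit 16401) (nat_lit 0) (.e (nat_lit 3137) (nat_lit 193) (.e (nat_lit 500046) (nat_lit 16) .nil))))))) (.g (nat_lit 1) (.e (nat_lit 137737) (nat_lit 0) .nil) .nil)))) (.nd (nat_lit 9) 
(.lf (nat_lit 487768) (.g (nat_lit 2772) (.e (nat_lit 16388) (nat_lit 0) (.e (nat_lit 3214) (nat_lit 195) (.e (nat_lit 516131) (nat_lit 3) (.e (nat_lit 221211) (nat_lit 22) (.e (nat_lit 196666) (nat_lit 13) (.e (nat_lit 65566) (nat_lit 2) (.e (nat_lit 98048) (nat_lit 2) .nil))))))) (.g (nat_lit 1) (.e (nat_lit 136867) (nat_lit 0) .nil) .nil))) 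
(.lf (nat_lit 488280) (.g (nat_lit 2477) (.e (nat_lit 16425) (nat_lit 7) (.e (nat_lit 409648) (nat_lit 18) (.e (nat_lit 303137) (nat_lit 10) (.e (nat_lit 434272) (nat_lit 38) (.e (nat_lit 655405) (nat_lit 14) (.e (nat_lit 7936) (nat_lit 162) (.e (nat_lit 49189) (nat_lit 11) .nil))))))) (.g (nat_lit 1) (.e (nat_lit 138148) (nat_lit 0) .nil) .nil))))) (.nd (nat_lit 8) (.nd (nat_lit 9) 
(.lf (nat_lit 487640) (.g (nat_lit 2165) (.e (nat_lit 24665) (nat_lit 14) (.e (nat_lit 401448) (nat_lit 10) (.e (nat_lit 434291) (nat_lit 44) (.e (nat_lit 704738) (nat_lit 11) (.e (nat_lit 16384) (nat_lit 0) .nil))))) (.g (nat_lit 0) (.e (nat_lit 136221) (nat_lit 0) .nil) .nil))) 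
(.lf (nat_lit 488152) (.g (nat_lit 1542) (.e (nat_lit 16424) (nat_lit 7) (.e (nat_lit 409645) (nat_lit 18) (.e (nat_lit 303143) (nat_lit 12) (.e (nat_lit 475197) (nat_lit 40) .nil)))) (.g (nat_lit 0) (.e (nat_lit 137956) (nat_lit 0) .nil) .nil)))) (.nd (nat_lit 9) 
(.lf (nat_lit 487896) (.g (nat_lit 3017) (.e (nat_lit 16412) (nat_lit 2) (.e (nat_lit 196666) (nat_lit 13) (.e (nat_lit 65610) (nat_lit 10) (.e (nat_lit 344129) (nat_lit 26) (.e (nat_lit 557069) (nat_lit 9) (.e (nat_lit 2741) (nat_lit 174) (.e (nat_lit 253990) (nat_lit 11) .nil))))))) (.g (nat_lit 1) (.e (nat_lit 137425) (nat_lit 0) .nil) .nil))) 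
(.lf (nat_lit 488408) (.g (nat_lit 3254) (.e (nat_lit 16433) (nat_lit 9) (.e (nat_lit 426566) (nat_lit 34) (.e (nat_lit 393254) (nat_lit 18) (.e (nat_lit 164324) (nat_lit 230) (.e (nat_lit 163866) (nat_lit 2) (.e (nat_lit 196654) (nat_lit 11) .nil)))))) (.g (nat_lit 1) (.e (nat_lit 138342) (nat_lit 0) .nil) .nil))))))) (.nd (nat_lit 6) (.nd (nat_lit 7) (.nd (nat_lit 8) (.nd (nat_lit 9) 
(.lf (nat_lit 487480) (.g (nat_lit 3570) (.e (nat_lit 24662) (nat_lit 14) (.e (nat_lit 401459) (nat_lit 13) (.e (nat_lit 483372) (nat_lit 21) (.e (nat_lit 319496) (nat_lit 10) .nil)))) (.g (nat_lit 0) (.e (nat_lit 135557) (nat_lit 0) .nil) .nil))) 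
(.lf (nat_lit 487992) (.g (nat_lit 3004) (.e (nat_lit 16416) (nat_lit 3) (.e (nat_lit 204809) (nat_lit 9) (.e (nat_lit 426124) (nat_lit 2) (.e (nat_lit 196656) (nat_lit 11) (.e (nat_lit 16401) (nat_lit 0) .nil))))) (.g (nat_lit 0) (.e (nat_lit 137699) (nat_lit 0) .nil) .nil)))) (.nd (nat_lit 9) 
(.lf (nat_lit 487736) (.g (nat_lit 755) (.e (nat_lit 24679) (nat_lit 27) (.e (nat_lit 426098) (nat_lit 1) (.e (nat_lit 164325) (nat_lit 230) .nil))) (.g (nat_lit 0) (.e (nat_lit 136629) (nat_lit 0) .nil) .nil))) 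
(.lf (nat_lit 488248) (.g (nat_lit 2425) (.e (nat_lit 16425) (nat_lit 7) (.e (nat_lit 409646) (nat_lit 18) (.e (nat_lit 303143) (nat_lit 12) (.e (nat_lit 475199) (nat_lit 40) (.e (nat_lit 704768) (nat_lit 14) .nil))))) (.g (nat_lit 0) (.e (nat_lit 138111) (nat_lit 0) .nil) .nil))))) (.nd (nat_lit 8) (.nd (nat_lit 9) 
(.lf (nat_lit 487608) (.g (nat_lit 3100) (.e (nat_lit 24665) (nat_lit 14) (.e (nat_lit 401448) (nat_lit 10) (.e (nat_lit 434206) (nat_lit 18) (.e (nat_lit 6595) (nat_lit 351) (.e (nat_lit 2544) (nat_lit 158) (.e (nat_lit 8542) (nat_lit 227) (.e (nat_lit 123175) (nat_lit 258) .nil))))))) (.g (nat_lit 1) (.e (nat_lit 136148) (nat_lit 0) .nil) .nil))) 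
(.lf (nat_lit 488120) (.g (nat_lit 3552) (.e (nat_lit 16416) (nat_lit 3) (.e (nat_lit 204869) (nat_lit 29) (.e (nat_lit 360474) (nat_lit 8) (.e (nat_lit 557072) (nat_lit 9) (.e (nat_lit 2741) (nat_lit 174) (.e (nat_lit 253988) (nat_lit 11) .nil)))))) (.g (nat_lit 1) (.e (nat_lit 137859) (nat_lit 0) .nil) .nil)))) (.nd (nat_lit 9) 
(.lf (nat_lit 487864) (.g (nat_lit 3654) (.e (nat_lit 16412) (nat_lit 2) (.e (nat_lit 196654) (nat_lit 11) (.e (nat_lit 16416) (nat_lit 3) (.e (nat_lit 204809) (nat_lit 9) (.e (nat_lit 426116) (nat_lit 2) (.e (nat_lit 196654) (nat_lit 11) .nil)))))) (.g (nat_lit 1) (.e (nat_lit 137375) (nat_lit 0) .nil) .nil))) 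
(.lf (nat_lit 488376) (.g (nat_lit 1787) (.e (nat_lit 16433) (nat_lit 9) (.e (nat_lit 426566) (nat_lit 34) (.e (nat_lit 393253) (nat_lit 18) (.e (nat_lit 164322) (nat_lit 230) .nil)))) (.g (nat_lit 0) (.e (nat_lit 138310) (nat_lit 0) .nil) .nil)))))) (.nd (nat_lit 7) (.nd (nat_lit 8) (.nd (nat_lit 9) 
(.lf (nat_lit 487544) (.g (nat_lit 3800) (.e (nat_lit 24665) (nat_lit 14) (.e (nat_lit 401414) (nat_lit 0) (.e (nat_lit 3238) (nat_lit 197) (.e (nat_lit 532535) (nat_lit 9) (.e (nat_lit 336176) (nat_lit 10) (.e (nat_lit 344130) (nat_lit 26) (.e (nat_lit 564992) (nat_lit 11) .nil))))))) (.g (nat_lit 1) (.e (nat_lit 135717) (nat_lit 0) .nil) .nil))) 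
(.lf (nat_lit 488056) (.g (nat_lit 4983) (.e (nat_lit 16416) (nat_lit 3) (.e (nat_lit 204837) (nat_lit 20) (.e (nat_lit 114718) (nat_lit 23) (.e (nat_lit 98333) (nat_lit 18) (.e (nat_lit 164327) (nat_lit 230) (.e (nat_lit 163868) (nat_lit 2) (.e (nat_lit 196656) (nat_lit 11) .nil))))))) (.g (nat_lit 1) (.e (nat_lit 137770) (nat_lit 0) .nil) .nil)))) (.nd (nat_lit 9) 
(.lf (nat_lit 487800) (.g (nat_lit 1664) (.e (nat_lit 24320) (nat_lit 1) (.e (nat_lit 164399) (nat_lit 256) (.e (nat_lit 57409) (nat_lit 12) (.e (nat_lit 336443) (nat_lit 32) (.e (nat_lit 466974) (nat_lit 22) .nil))))) (.g (nat_lit 0) (.e (nat_lit 137115) (nat_lit 0) .nil) .nil))) 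
(.lf (nat_lit 488312) (.g (nat_lit 2619) (.e (nat_lit 16425) (nat_lit 7) (.e (nat_lit 409649) (nat_lit 18) (.e (nat_lit 303140) (nat_lit 10) (.e (nat_lit 434275) (nat_lit 39) (.e (nat_lit 671488) (nat_lit 14) (.e (nat_lit 1159) (nat_lit 86) (.e (nat_lit 49187) (nat_lit 11) .nil))))))) (.g (nat_lit 1) (.e (nat_lit 138182) (nat_lit 0) .nil) .nil))))) (.nd (nat_lit 8) (.nd (nat_lit 9) 
(.lf (nat_lit 487672) (.g (nat_lit 2032) (.e (nat_lit 24665) (nat_lit 14) (.e (nat_lit 409344) (nat_lit 25) (.e (nat_lit 319531) (nat_lit 16) (.e (nat_lit 286749) (nat_lit 9) (.e (nat_lit 336048) (nat_lit 6) (.e (nat_lit 147495) (nat_lit 11) .nil)))))) (.g (nat_lit 1) (.e (nat_lit 136340) (nat_lit 0) .nil) .nil))) 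
(.lf (nat_lit 488184) (.g (nat_lit 3003) (.e (nat_lit 16425) (nat_lit 7) (.e (nat_lit 409616) (nat_lit 10) (.e (nat_lit 932) (nat_lit 76) (.e (nat_lit 786480) (nat_lit 29) (.e (nat_lit 352312) (nat_lit 22) (.e (nat_lit 98048) (nat_lit 2) .nil)))))) (.g (nat_lit 1) (.e (nat_lit 138022) (nat_lit 0) .nil) .nil)))) (.nd (nat_lit 9) 
(.lf (nat_lit 487928) (.g (nat_lit 322) (.e (nat_lit 16412) (nat_lit 2) (.e (nat_lit 196681) (nat_lit 17) (.e (nat_lit 131123) (nat_lit 12) .nil))) (.g (nat_lit 0) (.e (nat_lit 137484) (nat_lit 0) .nil) .nil))) 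
(.lf (nat_lit 488440) (.g (nat_lit 3931) (.e (nat_lit 16433) (nat_lit 9) (.e (nat_lit 426568) (nat_lit 34) (.e (nat_lit 393251) (nat_lit 18) (.e (nat_lit 164332) (nat_lit 230) (.e (nat_lit 163869) (nat_lit 2) (.e (nat_lit 196654) (nat_lit 11) .nil)))))) (.g (nat_lit 1) (.e (nat_lit 138376) (nat_lit 0) .nil) .nil)))))))))) 
(.nd (nat_lit 3) (.nd (nat_lit 4) (.nd (nat_lit 5) (.nd (nat_lit 6) (.nd (nat_lit 7) 
(.nd (nat_lit 8) (.nd (nat_lit 9) 
(.lf (nat_lit 487428) (.g (nat_lit 4620) (.e (nat_lit 24662) (nat_lit 14) (.e (nat_lit 401425) (nat_lit 2) (.e (nat_lit 196666) (nat_lit 13) (.e (nat_lit 65610) (nat_lit 10) (.e (nat_lit 344090) (nat_lit 18) (.e (nat_lit 4065) (nat_lit 245) (.e (nat_lit 2556) (nat_lit 159) .nil))))))) (.g (nat_lit 1) (.e (nat_lit 135442) (nat_lit 0) .nil) .nil))) 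
(.lf (nat_lit 487940) (.g (nat_lit 2662) (.e (nat_lit 16413) (nat_lit 2) (.e (nat_lit 196666) (nat_lit 13) (.e (nat_lit 65617) (nat_lit 10) (.e (nat_lit 344130) (nat_lit 26) (.e (nat_lit 557065) (nat_lit 9) (.e (nat_lit 2741) (nat_lit 174) (.e (nat_lit 253989) (nat_lit 11) .nil))))))) (.g (nat_lit 1) (.e (nat_lit 137518) (nat_lit 0) .nil) .nil)))) (.nd (nat_lit 9) 
(.lf (nat_lit 487684) (.g (nat_lit 629) (.e (nat_lit 24665) (nat_lit 14) (.e (nat_lit 409344) (nat_lit 27) (.e (nat_lit 336444) (nat_lit 32) (.e (nat_lit 466976) (nat_lit 22) (.e (nat_lit 204544) (nat_lit 2) .nil))))) (.g (nat_lit 1) (.e (nat_lit 136378) (nat_lit 0) .nil) .nil))) 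
(.lf (nat_lit 488196) (.g (nat_lit 3570) (.e (nat_lit 16425) (nat_lit 7) (.e (nat_lit 409617) (nat_lit 10) (.e (nat_lit 632) (nat_lit 50) (.e (nat_lit 573493) (nat_lit 15) (.e (nat_lit 81959) (nat_lit 24) (.e (nat_lit 130816) (nat_lit 146) (.e (nat_lit 1126) (nat_lit 83) .nil))))))) (.g (nat_lit 1) (.e (nat_lit 138058) (nat_lit 0) .nil) .nil))))) (.nd (nat_lit 8) (.nd (nat_lit 9) 
(.lf (nat_lit 487556) (.g (nat_lit 4284) (.e (nat_lit 24665) (nat_lit 14) (.e (nat_lit 401423) (nat_lit 2) (.e (nat_lit 196666) (nat_lit 13) (.e (nat_lit 65610) (nat_lit 10) (.e (nat_lit 344097) (nat_lit 18) (.e (nat_lit 4056) (nat_lit 245) (.e (nat_lit 2555) (nat_lit 159) .nil))))))) (.g (nat_lit 1) (.e (nat_lit 135865) (nat_lit 0) .nil) .nil))) 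
(.lf (nat_lit 488068) (.g (nat_lit 2638) (.e (nat_lit 16416) (nat_lit 3) (.e (nat_lit 204838) (nat_lit 20) (.e (nat_lit 114717) (nat_lit 23) (.e (nat_lit 98334) (nat_lit 18) (.e (nat_lit 164330) (nat_lit 230) (.e (nat_lit 163867) (nat_lit 2) (.e (nat_lit 196654) (nat_lit 11) .nil))))))) (.g (nat_lit 1) (.e (nat_lit 137783) (nat_lit 0) .nil) .nil)))) (.nd (nat_lit 9) 
(.lf (nat_lit 487812) (.g (nat_lit 3125) (.e (nat_lit 16410) (nat_lit 2) (.e (nat_lit 196654) (nat_lit 11) (.e (nat_lit 16416) (nat_lit 3) (.e (nat_lit 204813) (nat_lit 9) (.e (nat_lit 426116) (nat_lit 2) (.e (nat_lit 196654) (nat_lit 11) .nil)))))) (.g (nat_lit 1) (.e (nat_lit 137190) (nat_lit 0) .nil) .nil))) 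
(.lf (nat_lit 488324) (.g (nat_lit 2301) (.e (nat_lit 16425) (nat_lit 7) (.e (nat_lit 409649) (nat_lit 18) (.e (nat_lit 303143) (nat_lit 12) (.e (nat_lit 475199) (nat_lit 40) (.e (nat_lit 704790) (nat_lit 14) (.e (nat_lit 2587) (nat_lit 162) (.e (nat_lit 49187) (nat_lit 11) .nil))))))) (.g (nat_lit 1) (.e (nat_lit 138194) (nat_lit 0) .nil) .nil)))))) 
(.nd (nat_lit 7) (.nd (nat_lit 8) (.nd (nat_lit 9) 
(.lf (nat_lit 487492) (.g (nat_lit 2943) (.e (nat_lit 24662) (nat_lit 14) (.e (nat_lit 401459) (nat_lit 13) (.e (nat_lit 483372) (nat_lit 21) (.e (nat_lit 319511) (nat_lit 10) (.e (nat_lit 7936) (nat_lit 314) .nil))))) (.g (nat_lit 1) (.e (nat_lit 135569) (nat_lit 0) .nil) .nil))) 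
(.lf (nat_lit 488004) (.g (nat_lit 2462) (.e (nat_lit 16416) (nat_lit 3) (.e (nat_lit 204809) (nat_lit 9) (.e (nat_lit 426139) (nat_lit 3) (.e (nat_lit 204813) (nat_lit 9) (.e (nat_lit 426009) (nat_lit 0) (.e (nat_lit 3135) (nat_lit 193) (.e (nat_lit 500046) (nat_lit 16) .nil))))))) (.g (nat_lit 1) (.e (nat_lit 137711) (nat_lit 0) .nil) .nil)))) (.nd (nat_lit 9) 
(.lf (nat_lit 487748) (.g (nat_lit 3230) (.e (nat_lit 16385) (nat_lit 0) (.e (nat_lit 7581) (nat_lit 405) (.e (nat_lit 57464) (nat_lit 23) (.e (nat_lit 516166) (nat_lit 12) (.e (nat_lit 450588) (nat_lit 10) (.e (nat_lit 573470) (nat_lit 11) .nil)))))) (.g (nat_lit 1) (.e (nat_lit 136844) (nat_lit 0) .nil) .nil))) 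
(.lf (nat_lit 488260) (.g (nat_lit 2519) (.e (nat_lit 16425) (nat_lit 7) (.e (nat_lit 409647) (nat_lit 18) (.e (nat_lit 303143) (nat_lit 12) (.e (nat_lit 475199) (nat_lit 40) (.e (nat_lit 704770) (nat_lit 14) .nil))))) (.g (nat_lit 0) (.e (nat_lit 138123) (nat_lit 0) .nil) .nil))))) (.nd (nat_lit 8) (.nd (nat_lit 9) 
(.lf (nat_lit 487620) (.g (nat_lit 3361) (.e (nat_lit 24665) (nat_lit 14) (.e (nat_lit 401448) (nat_lit 10) (.e (nat_lit 434271) (nat_lit 38) (.e (nat_lit 655398) (nat_lit 12) (.e (nat_lit 57560) (nat_lit 50) (.e (nat_lit 737317) (nat_lit 14) (.e (nat_lit 40995) (nat_lit 11) .nil))))))) (.g (nat_lit 1) (.e (nat_lit 136179) (nat_lit 0) .nil) .nil))) 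
(.lf (nat_lit 488132) (.g (nat_lit 1913) (.e (nat_lit 16417) (nat_lit 3) (.e (nat_lit 204854) (nat_lit 26) (.e (nat_lit 336114) (nat_lit 9) (.e (nat_lit 336326) (nat_lit 18) (.e (nat_lit 204835) (nat_lit 19) .nil))))) (.g (nat_lit 0) (.e (nat_lit 137915) (nat_lit 0) .nil) .nil)))) (.nd (nat_lit 9) 
(.lf (nat_lit 487876) (.g (nat_lit 1900) (.e (nat_lit 16412) (nat_lit 2) (.e (nat_lit 196656) (nat_lit 11) (.e (nat_lit 16416) (nat_lit 3) (.e (nat_lit 204812) (nat_lit 9) (.e (nat_lit 426114) (nat_lit 2) (.e (nat_lit 196654) (nat_lit 11) .nil)))))) (.g (nat_lit 1) (.e (nat_lit 137404) (nat_lit 0) .nil) .nil))) 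
(.lf (nat_lit 488388) (.g (nat_lit 3116) (.e (nat_lit 16433) (nat_lit 9) (.e (nat_lit 426566) (nat_lit 34) (.e (nat_lit 393253) (nat_lit 18) (.e (nat_lit 164326) (nat_lit 230) (.e (nat_lit 163868) (nat_lit 2) (.e (nat_lit 196654) (nat_lit 11) .nil)))))) (.g (nat_lit 1) (.e (nat_lit 138322) (nat_lit 0) .nil) .nil))))))) (.nd (nat_lit 6) (.nd (nat_lit 7) (.nd (nat_lit 8) (.nd (nat_lit 9) 
(.lf (nat_lit 487460) (.g (nat_lit 2057) (.e (nat_lit 24662) (nat_lit 14) (.e (nat_lit 401459) (nat_lit 13) (.e (nat_lit 483343) (nat_lit 17) (.e (nat_lit 6192) (nat_lit 332) (.e (nat_lit 1003) (nat_lit 81) (.e (nat_lit 7936) (nat_lit 314) .nil)))))) (.g (nat_lit 1) (.e (nat_lit 135536) (nat_lit 0) .nil) .nil))) 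
(.lf (nat_lit 487972) (.g (nat_lit 404) (.e (nat_lit 16415) (nat_lit 3) (.e (nat_lit 204861) (nat_lit 26) (.e (nat_lit 336075) (nat_lit 9) .nil))) (.g (nat_lit 0) (.e (nat_lit 137654) (nat_lit 0) .nil) .nil)))) (.nd (nat_lit 9) 
(.lf (nat_lit 487716) (.g (nat_lit 731) (.e (nat_lit 32512) (nat_lit 18) (.e (nat_lit 204863) (nat_lit 27) (.e (nat_lit 344130) (nat_lit 26) .nil))) (.g (nat_lit 0) (.e (nat_lit 136473) (nat_lit 0) .nil) .nil))) 
(.lf (nat_lit 488228) (.g (nat_lit 2439) (.e (nat_lit 16425) (nat_lit 7) (.e (nat_lit 409645) (nat_lit 18) (.e (nat_lit 303143) (nat_lit 12) (.e (nat_lit 475198) (nat_lit 40) (.e (nat_lit 704770) (nat_lit 14) .nil))))) (.g (nat_lit 0) (.e (nat_lit 138091) (nat_lit 0) .nil) .nil))))) (.nd (nat_lit 8) (.nd (nat_lit 9) 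
(.lf (nat_lit 487588) (.g (nat_lit 2771) (.e (nat_lit 24665) (nat_lit 14) (.e (nat_lit 401435) (nat_lit 9) (.e (nat_lit 426482) (nat_lit 27) (.e (nat_lit 336060) (nat_lit 7) (.e (nat_lit 319505) (nat_lit 10) (.e (nat_lit 7936) (nat_lit 314) .nil)))))) (.g (nat_lit 1) (.e (nat_lit 136058) (nat_lit 0) .nil) .nil))) 
(.lf (nat_lit 488100) (.g (nat_lit 2158) (.e (nat_lit 16416) (nat_lit 3) (.e (nat_lit 204861) (nat_lit 26) (.e (nat_lit 336186) (nat_lit 11) (.e (nat_lit 368676) (nat_lit 21) (.e (nat_lit 516103) (nat_lit 0) (.e (nat_lit 3358) (nat_lit 207) (.e (nat_lit 614435) (nat_lit 11) .nil))))))) (.g (nat_lit 1) (.e (nat_lit 137834) (nat_lit 0) .nil) .nil)))) (.nd (nat_lit 9) 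
(.lf (nat_lit 487844) (.g (nat_lit 1229) (.e (nat_lit 16411) (nat_lit 2) (.e (nat_lit 196670) (nat_lit 14) (.e (nat_lit 73781) (nat_lit 32) (.e (nat_lit 2682) (nat_lit 168) .nil)))) (.g (nat_lit 0) (.e (nat_lit 137313) (nat_lit 0) .nil) .nil))) 
(.lf (nat_lit 488356) (.g (nat_lit 2469) (.e (nat_lit 16433) (nat_lit 9) (.e (nat_lit 426566) (nat_lit 34) (.e (nat_lit 393251) (nat_lit 18) (.e (nat_lit 164325) (nat_lit 230) (.e (nat_lit 163867) (nat_lit 2) (.e (nat_lit 196654) (nat_lit 11) .nil)))))) (.g (nat_lit 1) (.e (nat_lit 138288) (nat_lit 0) .nil) .nil)))))) (.nd (nat_lit 7) (.nd (nat_lit 8) (.nd (nat_lit 9) 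
(.lf (nat_lit 487524) (.g (nat_lit 2592) (.e (nat_lit 24664) (nat_lit 14) (.e (nat_lit 401427) (nat_lit 3) (.e (nat_lit 204869) (nat_lit 29) (.e (nat_lit 360474) (nat_lit 8) (.e (nat_lit 557087) (nat_lit 11) .nil))))) (.g (nat_lit 1) (.e (nat_lit 135627) (nat_lit 0) .nil) .nil))) 
(.lf (nat_lit 488036) (.g (nat_lit 1803) (.e (nat_lit 16416) (nat_lit 3) (.e (nat_lit 204813) (nat_lit 9) (.e (nat_lit 426133) (nat_lit 3) (.e (nat_lit 204813) (nat_lit 9) (.e (nat_lit 426123) (nat_lit 2) .nil))))) (.g (nat_lit 0) (.e (nat_lit 137749) (nat_lit 0) .nil) .nil)))) (.nd (nat_lit 9) 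
(.lf (nat_lit 487780) (.g (nat_lit 2494) (.e (nat_lit 16388) (nat_lit 0) (.e (nat_lit 3544) (nat_lit 219) (.e (nat_lit 712753) (nat_lit 30) (.e (nat_lit 450586) (nat_lit 10) (.e (nat_lit 573477) (nat_lit 12) (.e (nat_lit 57510) (nat_lit 39) (.e (nat_lit 647199) (nat_lit 11) .nil))))))) (.g (nat_lit 1) (.e (nat_lit 136891) (nat_lit 0) .nil) .nil))) 
(.lf (nat_lit 488292) (.g (nat_lit 3548) (.e (nat_lit 16425) (nat_lit 7) (.e (nat_lit 409648) (nat_lit 18) (.e (nat_lit 303143) (nat_lit 12) (.e (nat_lit 475199) (nat_lit 40) (.e (nat_lit 704790) (nat_lit 14) (.e (nat_lit 2591) (nat_lit 162) (.e (nat_lit 49189) (nat_lit 11) .nil))))))) (.g (nat_lit 1) (.e (nat_lit 138160) (nat_lit 0) .nil) .nil))))) (.nd (nat_lit 8) (.nd (nat_lit 9) 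
(.lf (nat_lit 487652) (.g (nat_lit 4601) (.e (nat_lit 24665) (nat_lit 14) (.e (nat_lit 401450) (nat_lit 12) (.e (nat_lit 475214) (nat_lit 42) (.e (nat_lit 720956) (nat_lit 25) (.e (nat_lit 114727) (nat_lit 28) (.e (nat_lit 147494) (nat_lit 11) .nil)))))) (.g (nat_lit 1) (.e (nat_lit 136245) (nat_lit 0) .nil) .nil))) 
(.lf (nat_lit 488164) (.g (nat_lit 1286) (.e (nat_lit 16424) (nat_lit 7) (.e (nat_lit 409645) (nat_lit 18) (.e (nat_lit 303143) (nat_lit 12) (.e (nat_lit 475212) (nat_lit 42) .nil)))) (.g (nat_lit 0) (.e (nat_lit 137969) (nat_lit 0) .nil) .nil)))) (.nd (nat_lit 9) 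
(.lf (nat_lit 487908) (.g (nat_lit 1314) (.e (nat_lit 16412) (nat_lit 2) (.e (nat_lit 196674) (nat_lit 15) (.e (nat_lit 81946) (nat_lit 20) (.e (nat_lit 1858) (nat_lit 124) .nil)))) (.g (nat_lit 0) (.e (nat_lit 137443) (nat_lit 0) .nil) .nil))) 
(.lf (nat_lit 488420) (.g (nat_lit 3044) (.e (nat_lit 16433) (nat_lit 9) (.e (nat_lit 426566) (nat_lit 34) (.e (nat_lit 393254) (nat_lit 18) (.e (nat_lit 164327) (nat_lit 230) (.e (nat_lit 163866) (nat_lit 2) (.e (nat_lit 196654) (nat_lit 11) .nil)))))) (.g (nat_lit 1) (.e (nat_lit 138354) (nat_lit 0) .nil) .nil)))))))) 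
(.nd (nat_lit 5) (.nd (nat_lit 6) (.nd (nat_lit 7) (.nd (nat_lit 8) (.nd (nat_lit 9) 
(.lf (nat_lit 487444) (.g (nat_lit 2431) (.e (nat_lit 24662) (nat_lit 14) (.e (nat_lit 401425) (nat_lit 2) (.e (nat_lit 196666) (nat_lit 13) (.e (nat_lit 65617) (nat_lit 10) (.e (nat_lit 344130) (nat_lit 26) .nil))))) (.g (nat_lit 0) (.e (nat_lit 135466) (nat_lit 0) .nil) .nil))) 
(.lf (nat_lit 487956) (.g (nat_lit 696) (.e (nat_lit 16413) (nat_lit 2) (.e (nat_lit 196668) (nat_lit 14) (.e (nat_lit 81664) (nat_lit 41) .nil))) (.g (nat_lit 0) (.e (nat_lit 137535) (nat_lit 0) .nil) .nil)))) (.nd (nat_lit 9) 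
(.lf (nat_lit 487700) (.g (nat_lit 2752) (.e (nat_lit 32512) (nat_lit 18) (.e (nat_lit 204862) (nat_lit 27) (.e (nat_lit 344129) (nat_lit 26) (.e (nat_lit 557104) (nat_lit 14) (.e (nat_lit 188160) (nat_lit 1) .nil))))) (.g (nat_lit 0) (.e (nat_lit 136457) (nat_lit 0) .nil) .nil))) 
(.lf (nat_lit 488212) (.g (nat_lit 2369) (.e (nat_lit 16425) (nat_lit 7) (.e (nat_lit 409643) (nat_lit 18) (.e (nat_lit 303143) (nat_lit 12) (.e (nat_lit 475199) (nat_lit 40) (.e (nat_lit 704790) (nat_lit 14) (.e (nat_lit 2590) (nat_lit 162) (.e (nat_lit 49189) (nat_lit 11) .nil))))))) (.g (nat_lit 1) (.e (nat_lit 138075) (nat_lit 0) .nil) .nil))))) (.nd (nat_lit 8) (.nd (nat_lit 9) 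
(.lf (nat_lit 487572) (.g (nat_lit 2337) (.e (nat_lit 24665) (nat_lit 14) (.e (nat_lit 401426) (nat_lit 3) (.e (nat_lit 204869) (nat_lit 29) (.e (nat_lit 360473) (nat_lit 8) (.e (nat_lit 557087) (nat_lit 11) .nil))))) (.g (nat_lit 1) (.e (nat_lit 135933) (nat_lit 0) .nil) .nil))) 
(.lf (nat_lit 488084) (.g (nat_lit 4385) (.e (nat_lit 16416) (nat_lit 3) (.e (nat_lit 204838) (nat_lit 20) (.e (nat_lit 114719) (nat_lit 23) (.e (nat_lit 98334) (nat_lit 18) (.e (nat_lit 164330) (nat_lit 230) (.e (nat_lit 163869) (nat_lit 2) (.e (nat_lit 196654) (nat_lit 11) .nil))))))) (.g (nat_lit 1) (.e (nat_lit 137799) (nat_lit 0) .nil) .nil)))) (.nd (nat_lit 9) 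
(.lf (nat_lit 487828) (.g (nat_lit 2976) (.e (nat_lit 16411) (nat_lit 2) (.e (nat_lit 196654) (nat_lit 11) (.e (nat_lit 16416) (nat_lit 3) (.e (nat_lit 204809) (nat_lit 9) (.e (nat_lit 426116) (nat_lit 2) (.e (nat_lit 196654) (nat_lit 11) .nil)))))) (.g (nat_lit 1) (.e (nat_lit 137264) (nat_lit 0) .nil) .nil))) 
(.lf (nat_lit 488340) (.g (nat_lit 2383) (.e (nat_lit 16432) (nat_lit 9) (.e (nat_lit 426566) (nat_lit 34) (.e (nat_lit 393254) (nat_lit 18) (.e (nat_lit 164326) (nat_lit 230) (.e (nat_lit 163871) (nat_lit 2) (.e (nat_lit 196656) (nat_lit 11) .nil)))))) (.g (nat_lit 1) (.e (nat_lit 138258) (nat_lit 0) .nil) .nil)))))) (.nd (nat_lit 7) (.nd (nat_lit 8) (.nd (nat_lit 9) 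
(.lf (nat_lit 487508) (.g (nat_lit 2178) (.e (nat_lit 24662) (nat_lit 14) (.e (nat_lit 401459) (nat_lit 13) (.e (nat_lit 483411) (nat_lit 27) (.e (nat_lit 401414) (nat_lit 0) (.e (nat_lit 7936) (nat_lit 390) .nil))))) (.g (nat_lit 1) (.e (nat_lit 135587) (nat_lit 0) .nil) .nil))) 
(.lf (nat_lit 488020) (.g (nat_lit 1990) (.e (nat_lit 16416) (nat_lit 3) (.e (nat_lit 204813) (nat_lit 9) (.e (nat_lit 426123) (nat_lit 2) (.e (nat_lit 196656) (nat_lit 11) (.e (nat_lit 16410) (nat_lit 2) .nil))))) (.g (nat_lit 0) (.e (nat_lit 137730) (nat_lit 0) .nil) .nil)))) (.nd (nat_lit 9) 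
(.lf (nat_lit 487764) (.g (nat_lit 2964) (.e (nat_lit 16388) (nat_lit 0) (.e (nat_lit 3212) (nat_lit 195) (.e (nat_lit 516131) (nat_lit 3) (.e (nat_lit 221211) (nat_lit 22) (.e (nat_lit 196666) (nat_lit 13) (.e (nat_lit 65568) (nat_lit 2) (.e (nat_lit 98048) (nat_lit 2) .nil))))))) (.g (nat_lit 1) (.e (nat_lit 136863) (nat_lit 0) .nil) .nil))) 
(.lf (nat_lit 488276) (.g (nat_lit 2642) (.e (nat_lit 16425) (nat_lit 7) (.e (nat_lit 409648) (nat_lit 18) (.e (nat_lit 303137) (nat_lit 10) (.e (nat_lit 434275) (nat_lit 39) (.e (nat_lit 671488) (nat_lit 14) (.e (nat_lit 1162) (nat_lit 86) (.e (nat_lit 49185) (nat_lit 11) .nil))))))) (.g (nat_lit 1) (.e (nat_lit 138144) (nat_lit 0) .nil) .nil))))) (.nd (nat_lit 8) (.nd (nat_lit 9) 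
(.lf (nat_lit 487636) (.g (nat_lit 2984) (.e (nat_lit 24665) (nat_lit 14) (.e (nat_lit 401448) (nat_lit 10) (.e (nat_lit 434291) (nat_lit 44) (.e (nat_lit 704737) (nat_lit 11) (.e (nat_lit 16386) (nat_lit 0) (.e (nat_lit 7379) (nat_lit 390) .nil)))))) (.g (nat_lit 1) (.e (nat_lit 136214) (nat_lit 0) .nil) .nil))) 
(.lf (nat_lit 488148) (.g (nat_lit 2935) (.e (nat_lit 16417) (nat_lit 3) (.e (nat_lit 204869) (nat_lit 29) (.e (nat_lit 360475) (nat_lit 8) (.e (nat_lit 557091) (nat_lit 12) (.e (nat_lit 171776) (nat_lit 46) .nil))))) (.g (nat_lit 0) (.e (nat_lit 137938) (nat_lit 0) .nil) .nil)))) (.nd (nat_lit 9) 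
(.lf (nat_lit 487892) (.g (nat_lit 3979) (.e (nat_lit 16412) (nat_lit 2) (.e (nat_lit 196666) (nat_lit 13) (.e (nat_lit 65610) (nat_lit 10) (.e (nat_lit 344129) (nat_lit 26) (.e (nat_lit 557067) (nat_lit 9) (.e (nat_lit 2739) (nat_lit 174) (.e (nat_lit 253988) (nat_lit 11) .nil))))))) (.g (nat_lit 1) (.e (nat_lit 137421) (nat_lit 0) .nil) .nil))) 
(.lf (nat_lit 488404) (.g (nat_lit 4192) (.e (nat_lit 16433) (nat_lit 9) (.e (nat_lit 426566) (nat_lit 34) (.e (nat_lit 393253) (nat_lit 18) (.e (nat_lit 164332) (nat_lit 230) (.e (nat_lit 163869) (nat_lit 2) (.e (nat_lit 196654) (nat_lit 11) .nil)))))) (.g (nat_lit 1) (.e (nat_lit 138338) (nat_lit 0) .nil) .nil))))))) (.nd (nat_lit 6) (.nd (nat_lit 7) (.nd (nat_lit 8) (.nd (nat_lit 9) 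
(.lf (nat_lit 487476) (.g (nat_lit 1886) (.e (nat_lit 24662) (nat_lit 14) (.e (nat_lit 401459) (nat_lit 13) (.e (nat_lit 483350) (nat_lit 17) (.e (nat_lit 6211) (nat_lit 333) .nil)))) (.g (nat_lit 0) (.e (nat_lit 135553) (nat_lit 0) .nil) .nil))) 
(.lf (nat_lit 487988) (.g (nat_lit 5118) (.e (nat_lit 16415) (nat_lit 3) (.e (nat_lit 204885) (nat_lit 33) (.e (nat_lit 401451) (nat_lit 12) (.e (nat_lit 475178) (nat_lit 24) (.e (nat_lit 516124) (nat_lit 2) (.e (nat_lit 220928) (nat_lit 2) .nil)))))) (.g (nat_lit 1) (.e (nat_lit 137679) (nat_lit 0) .nil) .nil)))) (.nd (nat_lit 9) 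
(.lf (nat_lit 487732) (.g (nat_lit 1751) (.e (nat_lit 24675) (nat_lit 27) (.e (nat_lit 426316) (nat_lit 12) (.e (nat_lit 483072) (nat_lit 26) (.e (nat_lit 532544) (nat_lit 10) (.e (nat_lit 352000) (nat_lit 2) .nil))))) (.g (nat_lit 1) (.e (nat_lit 136600) (nat_lit 0) .nil) .nil))) 
(.lf (nat_lit 488244) (.g (nat_lit 1802) (.e (nat_lit 16425) (nat_lit 7) (.e (nat_lit 409646) (nat_lit 18) (.e (nat_lit 303140) (nat_lit 10) (.e (nat_lit 434275) (nat_lit 39) .nil)))) (.g (nat_lit 0) (.e (nat_lit 138107) (nat_lit 0) .nil) .nil))))) (.nd (nat_lit 8) (.nd (nat_lit 9) 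
(.lf (nat_lit 487604) (.g (nat_lit 734) (.e (nat_lit 24665) (nat_lit 14) (.e (nat_lit 401448) (nat_lit 10) (.e (nat_lit 434202) (nat_lit 18) .nil))) (.g (nat_lit 0) (.e (nat_lit 136142) (nat_lit 0) .nil) .nil))) 
(.lf (nat_lit 488116) (.g (nat_lit 3353) (.e (nat_lit 16416) (nat_lit 3) (.e (nat_lit 204868) (nat_lit 29) (.e (nat_lit 360475) (nat_lit 8) (.e (nat_lit 557119) (nat_lit 18) (.e (nat_lit 7936) (nat_lit 86) .nil))))) (.g (nat_lit 0) (.e (nat_lit 137855) (nat_lit 0) .nil) .nil)))) (.nd (nat_lit 9) 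
(.lf (nat_lit 487860) (.g (nat_lit 2271) (.e (nat_lit 16412) (nat_lit 2) (.e (nat_lit 196654) (nat_lit 11) (.e (nat_lit 16415) (nat_lit 3) (.e (nat_lit 204809) (nat_lit 9) (.e (nat_lit 426116) (nat_lit 2) (.e (nat_lit 196656) (nat_lit 11) .nil)))))) (.g (nat_lit 1) (.e (nat_lit 137363) (nat_lit 0) .nil) .nil))) 
(.lf (nat_lit 488372) (.g (nat_lit 3620) (.e (nat_lit 16433) (nat_lit 9) (.e (nat_lit 426566) (nat_lit 34) (.e (nat_lit 393252) (nat_lit 18) (.e (nat_lit 164332) (nat_lit 230) (.e (nat_lit 163869) (nat_lit 2) (.e (nat_lit 196654) (nat_lit 11) .nil)))))) (.g (nat_lit 1) (.e (nat_lit 138304) (nat_lit 0) .nil) .nil)))))) (.nd (nat_lit 7) (.nd (nat_lit 8) (.nd (nat_lit 9) 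
(.lf (nat_lit 487540) (.g (nat_lit 2385) (.e (nat_lit 24664) (nat_lit 14) (.e (nat_lit 401435) (nat_lit 9) (.e (nat_lit 426482) (nat_lit 27) (.e (nat_lit 336060) (nat_lit 7) (.e (nat_lit 319505) (nat_lit 10) (.e (nat_lit 7936) (nat_lit 314) .nil)))))) (.g (nat_lit 1) (.e (nat_lit 135645) (nat_lit 0) .nil) .nil))) 
(.lf (nat_lit 488052) (.g (nat_lit 3682) (.e (nat_lit 16416) (nat_lit 3) (.e (nat_lit 204837) (nat_lit 20) (.e (nat_lit 114718) (nat_lit 23) (.e (nat_lit 98333) (nat_lit 18) (.e (nat_lit 164325) (nat_lit 230) (.e (nat_lit 163868) (nat_lit 2) (.e (nat_lit 196654) (nat_lit 11) .nil))))))) (.g (nat_lit 1) (.e (nat_lit 137766) (nat_lit 0) .nil) .nil)))) (.nd (nat_lit 9) 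
(.lf (nat_lit 487796) (.g (nat_lit 844) (.e (nat_lit 16407) (nat_lit 1) (.e (nat_lit 164330) (nat_lit 230) (.e (nat_lit 171776) (nat_lit 62) .nil))) (.g (nat_lit 0) (.e (nat_lit 137086) (nat_lit 0) .nil) .nil))) 
(.lf (nat_lit 488308) (.g (nat_lit 3850) (.e (nat_lit 16425) (nat_lit 7) (.e (nat_lit 409649) (nat_lit 18) (.e (nat_lit 303140) (nat_lit 10) (.e (nat_lit 434275) (nat_lit 39) (.e (nat_lit 663574) (nat_lit 9) (.e (nat_lit 2418) (nat_lit 157) (.e (nat_lit 3476) (nat_lit 218) (.e (nat_lit 704740) (nat_lit 11) .nil)))))))) (.g (nat_lit 1) (.e (nat_lit 138176) (nat_lit 0) .nil) .nil))))) 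
(.nd (nat_lit 8) (.nd (nat_lit 9) 
(.lf (nat_lit 487668) (.g (nat_lit 418) (.e (nat_lit 24665) (nat_lit 14) (.e (nat_lit 409344) (nat_lit 18) (.e (nat_lit 98362) (nat_lit 26) (.e (nat_lit 426310) (nat_lit 12) (.e (nat_lit 483072) (nat_lit 2) .nil))))) (.g (nat_lit 1) (.e (nat_lit 136336) (nat_lit 0) .nil) .nil))) 
(.lf (nat_lit 488180) (.g (nat_lit 3294) (.e (nat_lit 16425) (nat_lit 7) (.e (nat_lit 409616) (nat_lit 10) (.e (nat_lit 632) (nat_lit 50) (.e (nat_lit 573482) (nat_lit 13) (.e (nat_lit 65623) (nat_lit 12) (.e (nat_lit 392960) (nat_lit 2) .nil)))))) (.g (nat_lit 1) (.e (nat_lit 138006) (nat_lit 0) .nil) .nil)))) (.nd (nat_lit 9) 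
(.lf (nat_lit 487924) (.g (nat_lit 1807) (.e (nat_lit 16412) (nat_lit 2) (.e (nat_lit 196681) (nat_lit 17) (.e (nat_lit 131109) (nat_lit 9) (.e (nat_lit 336324) (nat_lit 18) (.e (nat_lit 204823) (nat_lit 17) .nil))))) (.g (nat_lit 0) (.e (nat_lit 137475) (nat_lit 0) .nil) .nil))) 
(.lf (nat_lit 488436) (.g (nat_lit 3433) (.e (nat_lit 16433) (nat_lit 9) (.e (nat_lit 426568) (nat_lit 34) (.e (nat_lit 393251) (nat_lit 18) (.e (nat_lit 164331) (nat_lit 230) (.e (nat_lit 163867) (nat_lit 2) (.e (nat_lit 196654) (nat_lit 11) .nil)))))) (.g (nat_lit 1) (.e (nat_lit 138372) (nat_lit 0) .nil) .nil))))))))) 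
(.nd (nat_lit 4) (.nd (nat_lit 5) (.nd (nat_lit 6) (.nd (nat_lit 7) (.nd (nat_lit 8) 
(.nd (nat_lit 9) 
(.lf (nat_lit 487436) (.g (nat_lit 5577) (.e (nat_lit 24662) (nat_lit 14) (.e (nat_lit 401425) (nat_lit 2) (.e (nat_lit 196666) (nat_lit 13) (.e (nat_lit 65610) (nat_lit 10) (.e (nat_lit 344097) (nat_lit 18) (.e (nat_lit 4073) (nat_lit 245) (.e (nat_lit 2555) (nat_lit 159) .nil))))))) (.g (nat_lit 1) (.e (nat_lit 135453) (nat_lit 0) .nil) .nil))) 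
(.lf (nat_lit 487948) (.g (nat_lit 1542) (.e (nat_lit 16413) (nat_lit 2) (.e (nat_lit 196666) (nat_lit 13) (.e (nat_lit 65622) (nat_lit 12) (.e (nat_lit 385067) (nat_lit 26) (.e (nat_lit 532511) (nat_lit 2) (.e (nat_lit 106536) (nat_lit 11) .nil)))))) (.g (nat_lit 1) (.e (nat_lit 137526) (nat_lit 0) .nil) .nil)))) (.nd (nat_lit 9) 
(.lf (nat_lit 487692) (.g (nat_lit 3984) (.e (nat_lit 32512) (nat_lit 14) (.e (nat_lit 401459) (nat_lit 13) (.e (nat_lit 483372) (nat_lit 21) (.e (nat_lit 319504) (nat_lit 10) (.e (nat_lit 7936) (nat_lit 314) .nil))))) (.g (nat_lit 0) (.e (nat_lit 136386) (nat_lit 0) .nil) .nil))) 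
(.lf (nat_lit 488204) (.g (nat_lit 1941) (.e (nat_lit 16425) (nat_lit 7) (.e (nat_lit 409643) (nat_lit 18) (.e (nat_lit 303143) (nat_lit 12) (.e (nat_lit 475198) (nat_lit 40) (.e (nat_lit 704770) (nat_lit 14) .nil))))) (.g (nat_lit 0) (.e (nat_lit 138067) (nat_lit 0) .nil) .nil))))) (.nd (nat_lit 8) (.nd (nat_lit 9) 
(.lf (nat_lit 487564) (.g (nat_lit 1975) (.e (nat_lit 24665) (nat_lit 14) (.e (nat_lit 401423) (nat_lit 2) (.e (nat_lit 196672) (nat_lit 15) (.e (nat_lit 81946) (nat_lit 20) (.e (nat_lit 1858) (nat_lit 124) .nil))))) (.g (nat_lit 0) (.e (nat_lit 135886) (nat_lit 0) .nil) .nil))) 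
(.lf (nat_lit 488076) (.g (nat_lit 4674) (.e (nat_lit 16416) (nat_lit 3) (.e (nat_lit 204838) (nat_lit 20) (.e (nat_lit 114718) (nat_lit 23) (.e (nat_lit 98334) (nat_lit 18) (.e (nat_lit 164330) (nat_lit 230) (.e (nat_lit 163867) (nat_lit 2) (.e (nat_lit 196656) (nat_lit 11) .nil))))))) (.g (nat_lit 1) (.e (nat_lit 137791) (nat_lit 0) .nil) .nil)))) (.nd (nat_lit 9) 
(.lf (nat_lit 487820) (.g (nat_lit 453) (.e (nat_lit 16410) (nat_lit 2) (.e (nat_lit 196666) (nat_lit 13) (.e (nat_lit 65617) (nat_lit 10) .nil))) (.g (nat_lit 0) (.e (nat_lit 137205) (nat_lit 0) .nil) .nil))) 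
(.lf (nat_lit 488332) (.g (nat_lit 2120) (.e (nat_lit 16431) (nat_lit 9) (.e (nat_lit 426125) (nat_lit 2) (.e (nat_lit 204544) (nat_lit 2) (.e (nat_lit 24648) (nat_lit 12) (.e (nat_lit 392960) (nat_lit 2) .nil))))) (.g (nat_lit 1) (.e (nat_lit 138229) (nat_lit 0) .nil) .nil)))))) (.nd (nat_lit 7) (.nd (nat_lit 8) (.nd (nat_lit 9) 
(.lf (nat_lit 487500) (.g (nat_lit 1960) (.e (nat_lit 24662) (nat_lit 14) (.e (nat_lit 401459) (nat_lit 13) (.e (nat_lit 483383) (nat_lit 23) (.e (nat_lit 336240) (nat_lit 15) .nil)))) (.g (nat_lit 0) (.e (nat_lit 135578) (nat_lit 0) .nil) .nil))) 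
(.lf (nat_lit 488012) (.g (nat_lit 2917) (.e (nat_lit 16416) (nat_lit 3) (.e (nat_lit 204813) (nat_lit 9) (.e (nat_lit 426116) (nat_lit 2) (.e (nat_lit 196654) (nat_lit 11) (.e (nat_lit 16411) (nat_lit 2) (.e (nat_lit 196656) (nat_lit 11) .nil)))))) (.g (nat_lit 1) (.e (nat_lit 137721) (nat_lit 0) .nil) .nil)))) (.nd (nat_lit 9) 
(.lf (nat_lit 487756) (.g (nat_lit 3161) (.e (nat_lit 16387) (nat_lit 0) (.e (nat_lit 7583) (nat_lit 405) (.e (nat_lit 57464) (nat_lit 23) (.e (nat_lit 516166) (nat_lit 12) (.e (nat_lit 450588) (nat_lit 10) (.e (nat_lit 573471) (nat_lit 11) .nil)))))) (.g (nat_lit 1) (.e (nat_lit 136853) (nat_lit 0) .nil) .nil))) 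
(.lf (nat_lit 488268) (.g (nat_lit 1970) (.e (nat_lit 16425) (nat_lit 7) (.e (nat_lit 409647) (nat_lit 18) (.e (nat_lit 303143) (nat_lit 12) (.e (nat_lit 475220) (nat_lit 44) (.e (nat_lit 737318) (nat_lit 15) (.e (nat_lit 49187) (nat_lit 11) .nil)))))) (.g (nat_lit 1) (.e (nat_lit 138131) (nat_lit 0) .nil) .nil))))) (.nd (nat_lit 8) (.nd (nat_lit 9) 
(.lf (nat_lit 487628) (.g (nat_lit 2824) (.e (nat_lit 24665) (nat_lit 14) (.e (nat_lit 401448) (nat_lit 10) (.e (nat_lit 434289) (nat_lit 43) (.e (nat_lit 696344) (nat_lit 8) (.e (nat_lit 172034) (nat_lit 0) (.e (nat_lit 7936) (nat_lit 390) .nil)))))) (.g (nat_lit 1) (.e (nat_lit 136196) (nat_lit 0) .nil) .nil))) 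
(.lf (nat_lit 488140) (.g (nat_lit 3842) (.e (nat_lit 16417) (nat_lit 3) (.e (nat_lit 204869) (nat_lit 29) (.e (nat_lit 360474) (nat_lit 8) (.e (nat_lit 557072) (nat_lit 9) (.e (nat_lit 2741) (nat_lit 174) (.e (nat_lit 253989) (nat_lit 11) .nil)))))) (.g (nat_lit 1) (.e (nat_lit 137929) (nat_lit 0) .nil) .nil)))) (.nd (nat_lit 9) 
(.lf (nat_lit 487884) (.g (nat_lit 4252) (.e (nat_lit 16412) (nat_lit 2) (.e (nat_lit 196666) (nat_lit 13) (.e (nat_lit 65610) (nat_lit 10) (.e (nat_lit 344117) (nat_lit 21) (.e (nat_lit 516097) (nat_lit 0) (.e (nat_lit 3360) (nat_lit 207) (.e (nat_lit 614435) (nat_lit 11) .nil))))))) (.g (nat_lit 1) (.e (nat_lit 137413) (nat_lit 0) .nil) .nil))) 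
(.lf (nat_lit 488396) (.g (nat_lit 3338) (.e (nat_lit 16433) (nat_lit 9) (.e (nat_lit 426566) (nat_lit 34) (.e (nat_lit 393253) (nat_lit 18) (.e (nat_lit 164330) (nat_lit 230) (.e (nat_lit 163866) (nat_lit 2) (.e (nat_lit 196654) (nat_lit 11) .nil)))))) (.g (nat_lit 1) (.e (nat_lit 138330) (nat_lit 0) .nil) .nil))))))) (.nd (nat_lit 6) (.nd (nat_lit 7) (.nd (nat_lit 8) (.nd (nat_lit 9) 
(.lf (nat_lit 487468) (.g (nat_lit 3226) (.e (nat_lit 24662) (nat_lit 14) (.e (nat_lit 401459) (nat_lit 13) (.e (nat_lit 483350) (nat_lit 17) (.e (nat_lit 6113) (nat_lit 332) (.e (nat_lit 970) (nat_lit 81) (.e (nat_lit 7936) (nat_lit 314) .nil)))))) (.g (nat_lit 1) (.e (nat_lit 135545) (nat_lit 0) .nil) .nil))) 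
(.lf (nat_lit 487980) (.g (nat_lit 2290) (.e (nat_lit 16415) (nat_lit 3) (.e (nat_lit 204861) (nat_lit 26) (.e (nat_lit 336194) (nat_lit 12) (.e (nat_lit 385067) (nat_lit 26) (.e (nat_lit 532511) (nat_lit 2) (.e (nat_lit 106535) (nat_lit 11) .nil)))))) (.g (nat_lit 1) (.e (nat_lit 137671) (nat_lit 0) .nil) .nil)))) (.nd (nat_lit 9) 
(.lf (nat_lit 487724) (.g (nat_lit 1638) (.e (nat_lit 32512) (nat_lit 18) (.e (nat_lit 204863) (nat_lit 27) (.e (nat_lit 344133) (nat_lit 26) (.e (nat_lit 557096) (nat_lit 13) .nil)))) (.g (nat_lit 0) (.e (nat_lit 136481) (nat_lit 0) .nil) .nil))) 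
(.lf (nat_lit 488236) (.g (nat_lit 2937) (.e (nat_lit 16425) (nat_lit 7) (.e (nat_lit 409645) (nat_lit 18) (.e (nat_lit 303143) (nat_lit 12) (.e (nat_lit 475199) (nat_lit 40) (.e (nat_lit 704814) (nat_lit 14) (.e (nat_lit 2587) (nat_lit 162) (.e (nat_lit 49189) (nat_lit 11) .nil))))))) (.g (nat_lit 1) (.e (nat_lit 138099) (nat_lit 0) .nil) .nil))))) (.nd (nat_lit 8) (.nd (nat_lit 9) 
(.lf (nat_lit 487596) (.g (nat_lit 3941) (.e (nat_lit 24665) (nat_lit 14) (.e (nat_lit 401444) (nat_lit 9) (.e (nat_lit 426163) (nat_lit 6) (.e (nat_lit 253991) (nat_lit 11) (.e (nat_lit 16388) (nat_lit 0) (.e (nat_lit 7379) (nat_lit 390) .nil)))))) (.g (nat_lit 1) (.e (nat_lit 136095) (nat_lit 0) .nil) .nil))) 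
(.lf (nat_lit 488108) (.g (nat_lit 1975) (.e (nat_lit 16416) (nat_lit 3) (.e (nat_lit 204868) (nat_lit 29) (.e (nat_lit 360466) (nat_lit 3) (.e (nat_lit 516117) (nat_lit 1) (.e (nat_lit 171776) (nat_lit 278) .nil))))) (.g (nat_lit 0) (.e (nat_lit 137846) (nat_lit 0) .nil) .nil)))) (.nd (nat_lit 9) 
(.lf (nat_lit 487852) (.g (nat_lit 1917) (.e (nat_lit 16411) (nat_lit 2) (.e (nat_lit 196681) (nat_lit 17) (.e (nat_lit 131117) (nat_lit 10) (.e (nat_lit 344132) (nat_lit 26) (.e (nat_lit 557093) (nat_lit 12) .nil))))) (.g (nat_lit 0) (.e (nat_lit 137336) (nat_lit 0) .nil) .nil))) 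
(.lf (nat_lit 488364) (.g (nat_lit 3417) (.e (nat_lit 16433) (nat_lit 9) (.e (nat_lit 426566) (nat_lit 34) (.e (nat_lit 393251) (nat_lit 18) (.e (nat_lit 164332) (nat_lit 230) (.e (nat_lit 163867) (nat_lit 2) (.e (nat_lit 196654) (nat_lit 11) .nil)))))) (.g (nat_lit 1) (.e (nat_lit 138296) (nat_lit 0) .nil) .nil)))))) (.nd (nat_lit 7) (.nd (nat_lit 8) (.nd (nat_lit 9) 
(.lf (nat_lit 487532) (.g (nat_lit 3445) (.e (nat_lit 24664) (nat_lit 14) (.e (nat_lit 401428) (nat_lit 3) (.e (nat_lit 204869) (nat_lit 29) (.e (nat_lit 360473) (nat_lit 8) (.e (nat_lit 557087) (nat_lit 11) .nil))))) (.g (nat_lit 1) (.e (nat_lit 135635) (nat_lit 0) .nil) .nil))) 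
(.lf (nat_lit 488044) (.g (nat_lit 1777) (.e (nat_lit 16416) (nat_lit 3) (.e (nat_lit 204813) (nat_lit 9) (.e (nat_lit 426139) (nat_lit 3) (.e (nat_lit 204812) (nat_lit 9) (.e (nat_lit 426115) (nat_lit 2) (.e (nat_lit 196654) (nat_lit 11) .nil)))))) (.g (nat_lit 1) (.e (nat_lit 137757) (nat_lit 0) .nil) .nil)))) (.nd (nat_lit 9) 
(.lf (nat_lit 487788) (.g (nat_lit 2429) (.e (nat_lit 16396) (nat_lit 0) (.e (nat_lit 3238) (nat_lit 197) (.e (nat_lit 532549) (nat_lit 12) (.e (nat_lit 360473) (nat_lit 8) (.e (nat_lit 557094) (nat_lit 12) (.e (nat_lit 164022) (nat_lit 46) (.e (nat_lit 704736) (nat_lit 11) .nil))))))) (.g (nat_lit 1) (.e (nat_lit 136917) (nat_lit 0) .nil) .nil))) 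
(.lf (nat_lit 488300) (.g (nat_lit 2760) (.e (nat_lit 16425) (nat_lit 7) (.e (nat_lit 409648) (nat_lit 18) (.e (nat_lit 303143) (nat_lit 12) (.e (nat_lit 475219) (nat_lit 44) (.e (nat_lit 737318) (nat_lit 15) (.e (nat_lit 49188) (nat_lit 11) .nil)))))) (.g (nat_lit 1) (.e (nat_lit 138168) (nat_lit 0) .nil) .nil))))) (.nd (nat_lit 8) (.nd (nat_lit 9) 
(.lf (nat_lit 487660) (.g (nat_lit 3890) (.e (nat_lit 24665) (nat_lit 14) (.e (nat_lit 401460) (nat_lit 14) (.e (nat_lit 491565) (nat_lit 12) (.e (nat_lit 385109) (nat_lit 51) (.e (nat_lit 794675) (nat_lit 24) (.e (nat_lit 213032) (nat_lit 11) .nil)))))) (.g (nat_lit 1) (.e (nat_lit 136319) (nat_lit 0) .nil) .nil))) 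
(.lf (nat_lit 488172) (.g (nat_lit 1646) (.e (nat_lit 16424) (nat_lit 7) (.e (nat_lit 409648) (nat_lit 18) (.e (nat_lit 303137) (nat_lit 10) (.e (nat_lit 434275) (nat_lit 39) (.e (nat_lit 663585) (nat_lit 12) .nil))))) (.g (nat_lit 0) (.e (nat_lit 137989) (nat_lit 0) .nil) .nil)))) (.nd (nat_lit 9) 
(.lf (nat_lit 487916) (.g (nat_lit 1326) (.e (nat_lit 16412) (nat_lit 2) (.e (nat_lit 196681) (nat_lit 17) (.e (nat_lit 131105) (nat_lit 9) (.e (nat_lit 336324) (nat_lit 18) (.e (nat_lit 204817) (nat_lit 17) .nil))))) (.g (nat_lit 0) (.e (nat_lit 137454) (nat_lit 0) .nil) .nil))) 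
(.lf (nat_lit 488428) (.g (nat_lit 3775) (.e (nat_lit 16433) (nat_lit 9) (.e (nat_lit 426566) (nat_lit 34) (.e (nat_lit 393254) (nat_lit 18) (.e (nat_lit 164332) (nat_lit 230) (.e (nat_lit 163869) (nat_lit 2) (.e (nat_lit 196654) (nat_lit 11) .nil)))))) (.g (nat_lit 1) (.e (nat_lit 138362) (nat_lit 0) .nil) .nil)))))))) 
(.nd (nat_lit 5) (.nd (nat_lit 6) (.nd (nat_lit 7) (.nd (nat_lit 8) (.nd (nat_lit 9) 
(.lf (nat_lit 487452) (.g (nat_lit 2560) (.e (nat_lit 24662) (nat_lit 14) (.e (nat_lit 401428) (nat_lit 3) (.e (nat_lit 204869) (nat_lit 29) (.e (nat_lit 360474) (nat_lit 8) (.e (nat_lit 564992) (nat_lit 11) .nil))))) (.g (nat_lit 1) (.e (nat_lit 135495) (nat_lit 0) .nil) .nil))) 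
(.lf (nat_lit 487964) (.g (nat_lit 347) (.e (nat_lit 16415) (nat_lit 3) (.e (nat_lit 204809) (nat_lit 9) (.e (nat_lit 426124) (nat_lit 2) .nil))) (.g (nat_lit 0) (.e (nat_lit 137570) (nat_lit 0) .nil) .nil)))) (.nd (nat_lit 9) 
(.lf (nat_lit 487708) (.g (nat_lit 762) (.e (nat_lit 32512) (nat_lit 18) (.e (nat_lit 204863) (nat_lit 27) (.e (nat_lit 344120) (nat_lit 21) .nil))) (.g (nat_lit 0) (.e (nat_lit 136465) (nat_lit 0) .nil) .nil))) 
(.lf (nat_lit 488220) (.g (nat_lit 2769) (.e (nat_lit 16425) (nat_lit 7) (.e (nat_lit 409644) (nat_lit 18) (.e (nat_lit 303143) (nat_lit 12) (.e (nat_lit 475199) (nat_lit 40) (.e (nat_lit 704790) (nat_lit 14) (.e (nat_lit 2587) (nat_lit 162) (.e (nat_lit 49189) (nat_lit 11) .nil))))))) (.g (nat_lit 1) (.e (nat_lit 138083) (nat_lit 0) .nil) .nil))))) (.nd (nat_lit 8) (.nd (nat_lit 9) 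
(.lf (nat_lit 487580) (.g (nat_lit 3621) (.e (nat_lit 24665) (nat_lit 14) (.e (nat_lit 401427) (nat_lit 3) (.e (nat_lit 204869) (nat_lit 29) (.e (nat_lit 360473) (nat_lit 8) (.e (nat_lit 557085) (nat_lit 11) .nil))))) (.g (nat_lit 1) (.e (nat_lit 135978) (nat_lit 0) .nil) .nil))) 
(.lf (nat_lit 488092) (.g (nat_lit 1407) (.e (nat_lit 16416) (nat_lit 3) (.e (nat_lit 204855) (nat_lit 26) (.e (nat_lit 336176) (nat_lit 10) (.e (nat_lit 344132) (nat_lit 26) .nil)))) (.g (nat_lit 0) (.e (nat_lit 137807) (nat_lit 0) .nil) .nil)))) (.nd (nat_lit 9) 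
(.lf (nat_lit 487836) (.g (nat_lit 3098) (.e (nat_lit 16411) (nat_lit 2) (.e (nat_lit 196656) (nat_lit 11) (.e (nat_lit 16412) (nat_lit 2) (.e (nat_lit 196654) (nat_lit 11) (.e (nat_lit 16412) (nat_lit 2) (.e (nat_lit 196654) (nat_lit 11) .nil)))))) (.g (nat_lit 1) (.e (nat_lit 137288) (nat_lit 0) .nil) .nil))) 
(.lf (nat_lit 488348) (.g (nat_lit 2213) (.e (nat_lit 16433) (nat_lit 9) (.e (nat_lit 426479) (nat_lit 27) (.e (nat_lit 336459) (nat_lit 35) (.e (nat_lit 491546) (nat_lit 9) (.e (nat_lit 336013) (nat_lit 2) (.e (nat_lit 98048) (nat_lit 2) .nil)))))) (.g (nat_lit 1) (.e (nat_lit 138280) (nat_lit 0) .nil) .nil)))))) (.nd (nat_lit 7) (.nd (nat_lit 8) (.nd (nat_lit 9) 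
(.lf (nat_lit 487516) (.g (nat_lit 2844) (.e (nat_lit 24663) (nat_lit 14) (.e (nat_lit 401428) (nat_lit 3) (.e (nat_lit 204869) (nat_lit 29) (.e (nat_lit 360475) (nat_lit 8) (.e (nat_lit 557086) (nat_lit 11) .nil))))) (.g (nat_lit 1) (.e (nat_lit 135595) (nat_lit 0) .nil) .nil))) 
(.lf (nat_lit 488028) (.g (nat_lit 2527) (.e (nat_lit 16416) (nat_lit 3) (.e (nat_lit 204813) (nat_lit 9) (.e (nat_lit 426133) (nat_lit 3) (.e (nat_lit 204809) (nat_lit 9) (.e (nat_lit 426114) (nat_lit 2) (.e (nat_lit 196654) (nat_lit 11) .nil)))))) (.g (nat_lit 1) (.e (nat_lit 137741) (nat_lit 0) .nil) .nil)))) (.nd (nat_lit 9) 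
(.lf (nat_lit 487772) (.g (nat_lit 2981) (.e (nat_lit 16388) (nat_lit 0) (.e (nat_lit 3214) (nat_lit 195) (.e (nat_lit 516131) (nat_lit 3) (.e (nat_lit 221215) (nat_lit 23) (.e (nat_lit 204850) (nat_lit 26) (.e (nat_lit 336013) (nat_lit 2) (.e (nat_lit 98048) (nat_lit 2) .nil))))))) (.g (nat_lit 1) (.e (nat_lit 136871) (nat_lit 0) .nil) .nil))) 
(.lf (nat_lit 488284) (.g (nat_lit 2352) (.e (nat_lit 16425) (nat_lit 7) (.e (nat_lit 409648) (nat_lit 18) (.e (nat_lit 303142) (nat_lit 12) (.e (nat_lit 475218) (nat_lit 44) (.e (nat_lit 737318) (nat_lit 15) (.e (nat_lit 49188) (nat_lit 11) .nil)))))) (.g (nat_lit 1) (.e (nat_lit 138152) (nat_lit 0) .nil) .nil))))) (.nd (nat_lit 8) (.nd (nat_lit 9) 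
(.lf (nat_lit 487644) (.g (nat_lit 2236) (.e (nat_lit 24665) (nat_lit 14) (.e (nat_lit 401448) (nat_lit 10) (.e (nat_lit 434291) (nat_lit 44) (.e (nat_lit 704738) (nat_lit 11) (.e (nat_lit 16386) (nat_lit 0) (.e (nat_lit 7936) (nat_lit 390) .nil)))))) (.g (nat_lit 1) (.e (nat_lit 136227) (nat_lit 0) .nil) .nil))) 
(.lf (nat_lit 488156) (.g (nat_lit 2557) (.e (nat_lit 16424) (nat_lit 7) (.e (nat_lit 409645) (nat_lit 18) (.e (nat_lit 303143) (nat_lit 12) (.e (nat_lit 475198) (nat_lit 40) (.e (nat_lit 704790) (nat_lit 14) (.e (nat_lit 2590) (nat_lit 162) (.e (nat_lit 49189) (nat_lit 11) .nil))))))) (.g (nat_lit 1) (.e (nat_lit 137961) (nat_lit 0) .nil) .nil)))) (.nd (nat_lit 9) 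
(.lf (nat_lit 487900) (.g (nat_lit 897) (.e (nat_lit 16412) (nat_lit 2) (.e (nat_lit 196670) (nat_lit 14) (.e (nat_lit 73792) (nat_lit 45) .nil))) (.g (nat_lit 0) (.e (nat_lit 137431) (nat_lit 0) .nil) .nil))) 
(.lf (nat_lit 488412) (.g (nat_lit 3131) (.e (nat_lit 16433) (nat_lit 9) (.e (nat_lit 426566) (nat_lit 34) (.e (nat_lit 393254) (nat_lit 18) (.e (nat_lit 164325) (nat_lit 230) (.e (nat_lit 163866) (nat_lit 2) (.e (nat_lit 196654) (nat_lit 11) .nil)))))) (.g (nat_lit 1) (.e (nat_lit 138346) (nat_lit 0) .nil) .nil))))))) (.nd (nat_lit 6) (.nd (nat_lit 7) (.nd (nat_lit 8) (.nd (nat_lit 9) 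
(.lf (nat_lit 487484) (.g (nat_lit 3072) (.e (nat_lit 24662) (nat_lit 14) (.e (nat_lit 401459) (nat_lit 13) (.e (nat_lit 483372) (nat_lit 21) (.e (nat_lit 319500) (nat_lit 10) .nil)))) (.g (nat_lit 0) (.e (nat_lit 135561) (nat_lit 0) .nil) .nil))) 
(.lf (nat_lit 487996) (.g (nat_lit 2256) (.e (nat_lit 16416) (nat_lit 3) (.e (nat_lit 204809) (nat_lit 9) (.e (nat_lit 426133) (nat_lit 3) (.e (nat_lit 204809) (nat_lit 9) (.e (nat_lit 426123) (nat_lit 2) (.e (nat_lit 196654) (nat_lit 11) .nil)))))) (.g (nat_lit 1) (.e (nat_lit 137703) (nat_lit 0) .nil) .nil)))) (.nd (nat_lit 9) 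
(.lf (nat_lit 487740) (.g (nat_lit 1403) (.e (nat_lit 24679) (nat_lit 27) (.e (nat_lit 426308) (nat_lit 12) (.e (nat_lit 483072) (nat_lit 26) (.e (nat_lit 532544) (nat_lit 10) (.e (nat_lit 352000) (nat_lit 2) .nil))))) (.g (nat_lit 1) (.e (nat_lit 136731) (nat_lit 0) .nil) .nil))) 
(.lf (nat_lit 488252) (.g (nat_lit 2733) (.e (nat_lit 16425) (nat_lit 7) (.e (nat_lit 409646) (nat_lit 18) (.e (nat_lit 303143) (nat_lit 12) (.e (nat_lit 475199) (nat_lit 40) (.e (nat_lit 704789) (nat_lit 14) .nil))))) (.g (nat_lit 0) (.e (nat_lit 138115) (nat_lit 0) .nil) .nil))))) (.nd (nat_lit 8) (.nd (nat_lit 9) 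
(.lf (nat_lit 487612) (.g (nat_lit 793) (.e (nat_lit 24665) (nat_lit 14) (.e (nat_lit 401448) (nat_lit 10) (.e (nat_lit 434275) (nat_lit 39) .nil))) (.g (nat_lit 0) (.e (nat_lit 136166) (nat_lit 0) .nil) .nil))) 
(.lf (nat_lit 488124) (.g (nat_lit 3499) (.e (nat_lit 16416) (nat_lit 3) (.e (nat_lit 204869) (nat_lit 29) (.e (nat_lit 360474) (nat_lit 8) (.e (nat_lit 557115) (nat_lit 18) .nil)))) (.g (nat_lit 0) (.e (nat_lit 137863) (nat_lit 0) .nil) .nil)))) (.nd (nat_lit 9) 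
(.lf (nat_lit 487868) (.g (nat_lit 3042) (.e (nat_lit 16412) (nat_lit 2) (.e (nat_lit 196654) (nat_lit 11) (.e (nat_lit 16417) (nat_lit 3) (.e (nat_lit 204813) (nat_lit 9) (.e (nat_lit 426116) (nat_lit 2) (.e (nat_lit 196656) (nat_lit 11) .nil)))))) (.g (nat_lit 1) (.e (nat_lit 137382) (nat_lit 0) .nil) .nil))) 
(.lf (nat_lit 488380) (.g (nat_lit 3647) (.e (nat_lit 16433) (nat_lit 9) (.e (nat_lit 426566) (nat_lit 34) (.e (nat_lit 393253) (nat_lit 18) (.e (nat_lit 164324) (nat_lit 230) (.e (nat_lit 163869) (nat_lit 2) (.e (nat_lit 196654) (nat_lit 11) .nil)))))) (.g (nat_lit 1) (.e (nat_lit 138314) (nat_lit 0) .nil) .nil)))))) (.nd (nat_lit 7) (.nd (nat_lit 8) (.nd (nat_lit 9) 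
(.lf (nat_lit 487548) (.g (nat_lit 4106) (.e (nat_lit 24665) (nat_lit 14) (.e (nat_lit 401414) (nat_lit 0) (.e (nat_lit 3238) (nat_lit 197) (.e (nat_lit 532550) (nat_lit 12) (.e (nat_lit 360475) (nat_lit 8) (.e (nat_lit 564992) (nat_lit 11) .nil)))))) (.g (nat_lit 1) (.e (nat_lit 135831) (nat_lit 0) .nil) .nil))) 
(.lf (nat_lit 488060) (.g (nat_lit 2613) (.e (nat_lit 16416) (nat_lit 3) (.e (nat_lit 204837) (nat_lit 20) (.e (nat_lit 114718) (nat_lit 23) (.e (nat_lit 98335) (nat_lit 18) (.e (nat_lit 164327) (nat_lit 230) (.e (nat_lit 163871) (nat_lit 2) (.e (nat_lit 196654) (nat_lit 11) .nil))))))) (.g (nat_lit 1) (.e (nat_lit 137774) (nat_lit 0) .nil) .nil)))) (.nd (nat_lit 9) 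
(.lf (nat_lit 487804) (.g (nat_lit 3443) (.e (nat_lit 16409) (nat_lit 2) (.e (nat_lit 196666) (nat_lit 13) (.e (nat_lit 65610) (nat_lit 10) (.e (nat_lit 344129) (nat_lit 26) (.e (nat_lit 557070) (nat_lit 9) (.e (nat_lit 2744) (nat_lit 174) (.e (nat_lit 253992) (nat_lit 11) .nil))))))) (.g (nat_lit 1) (.e (nat_lit 137128) (nat_lit 0) .nil) .nil))) 
(.lf (nat_lit 488316) (.g (nat_lit 1947) (.e (nat_lit 16425) (nat_lit 7) (.e (nat_lit 409649) (nat_lit 18) (.e (nat_lit 303143) (nat_lit 12) (.e (nat_lit 475198) (nat_lit 40) (.e (nat_lit 704790) (nat_lit 14) .nil))))) (.g (nat_lit 0) (.e (nat_lit 138186) (nat_lit 0) .nil) .nil))))) (.nd (nat_lit 8) (.nd (nat_lit 9) 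
(.lf (nat_lit 487676) (.g (nat_lit 1491) (.e (nat_lit 24665) (nat_lit 14) (.e (nat_lit 409344) (nat_lit 27) (.e (nat_lit 336407) (nat_lit 27) (.e (nat_lit 426185) (nat_lit 9) (.e (nat_lit 426125) (nat_lit 2) (.e (nat_lit 204544) (nat_lit 2) .nil)))))) (.g (nat_lit 1) (.e (nat_lit 136358) (nat_lit 0) .nil) .nil))) 
(.lf (nat_lit 488188) (.g (nat_lit 3953) (.e (nat_lit 16425) (nat_lit 7) (.e (nat_lit 409617) (nat_lit 10) (.e (nat_lit 632) (nat_lit 50) (.e (nat_lit 573482) (nat_lit 13) (.e (nat_lit 65623) (nat_lit 12) (.e (nat_lit 392960) (nat_lit 2) .nil)))))) (.g (nat_lit 1) (.e (nat_lit 138028) (nat_lit 0) .nil) .nil)))) (.nd (nat_lit 9) 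
(.lf (nat_lit 487932) (.g (nat_lit 2803) (.e (nat_lit 16413) (nat_lit 2) (.e (nat_lit 196654) (nat_lit 11) (.e (nat_lit 16416) (nat_lit 3) (.e (nat_lit 204813) (nat_lit 9) (.e (nat_lit 426114) (nat_lit 2) (.e (nat_lit 196654) (nat_lit 11) .nil)))))) (.g (nat_lit 1) (.e (nat_lit 137500) (nat_lit 0) .nil) .nil))) 
(.lf (nat_lit 488444) (.g (nat_lit 2032) (.e (nat_lit 16433) (nat_lit 9) (.e (nat_lit 426568) (nat_lit 34) (.e (nat_lit 393252) (nat_lit 18) (.e (nat_lit 164329) (nat_lit 230) (.e (nat_lit 163867) (nat_lit 2) (.e (nat_lit 196654) (nat_lit 11) .nil)))))) (.g (nat_lit 1) (.e (nat_lit 138380) (nat_lit 0) .nil) .nil))))))))))) 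
(.nd (nat_lit 2) (.nd (nat_lit 3) (.nd (nat_lit 4) (.nd (nat_lit 5) (.nd (nat_lit 6) 
(.nd (nat_lit 7) (.nd (nat_lit 8) (.nd (nat_lit 9) 
(.lf (nat_lit 487426) (.g (nat_lit 4728) (.e (nat_lit 24662) (nat_lit 14) (.e (nat_lit 401425) (nat_lit 2) (.e (nat_lit 196666) (nat_lit 13) (.e (nat_lit 65610) (nat_lit 10) (.e (nat_lit 344090) (nat_lit 18) (.e (nat_lit 4031) (nat_lit 245) (.e (nat_lit 2557) (nat_lit 159) .nil))))))) (.g (nat_lit 1) (.e (nat_lit 135436) (nat_lit 0) .nil) .nil))) 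
(.lf (nat_lit 487938) (.g (nat_lit 2792) (.e (nat_lit 16413) (nat_lit 2) (.e (nat_lit 196666) (nat_lit 13) (.e (nat_lit 65610) (nat_lit 10) (.e (nat_lit 344129) (nat_lit 26) (.e (nat_lit 557065) (nat_lit 9) (.e (nat_lit 2741) (nat_lit 174) (.e (nat_lit 253988) (nat_lit 11) .nil))))))) (.g (nat_lit 1) (.e (nat_lit 137515) (nat_lit 0) .nil) .nil)))) (.nd (nat_lit 9) 
(.lf (nat_lit 487682) (.g (nat_lit 1807) (.e (nat_lit 24665) (nat_lit 14) (.e (nat_lit 409344) (nat_lit 27) (.e (nat_lit 336443) (nat_lit 32) (.e (nat_lit 466977) (nat_lit 22) (.e (nat_lit 204544) (nat_lit 2) .nil))))) (.g (nat_lit 1) (.e (nat_lit 136376) (nat_lit 0) .nil) .nil))) 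
(.lf (nat_lit 488194) (.g (nat_lit 4369) (.e (nat_lit 16425) (nat_lit 7) (.e (nat_lit 409617) (nat_lit 10) (.e (nat_lit 632) (nat_lit 50) (.e (nat_lit 573493) (nat_lit 15) (.e (nat_lit 81959) (nat_lit 24) (.e (nat_lit 123046) (nat_lit 146) (.e (nat_lit 1122) (nat_lit 83) .nil))))))) (.g (nat_lit 1) (.e (nat_lit 138056) (nat_lit 0) .nil) .nil))))) (.nd (nat_lit 8) (.nd (nat_lit 9) 
(.lf (nat_lit 487554) (.g (nat_lit 3248) (.e (nat_lit 24665) (nat_lit 14) (.e (nat_lit 401423) (nat_lit 2) (.e (nat_lit 196666) (nat_lit 13) (.e (nat_lit 65610) (nat_lit 10) (.e (nat_lit 344090) (nat_lit 18) (.e (nat_lit 4065) (nat_lit 245) (.e (nat_lit 2555) (nat_lit 159) .nil))))))) (.g (nat_lit 1) (.e (nat_lit 135860) (nat_lit 0) .nil) .nil))) 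
(.lf (nat_lit 488066) (.g (nat_lit 2706) (.e (nat_lit 16416) (nat_lit 3) (.e (nat_lit 204837) (nat_lit 20) (.e (nat_lit 114719) (nat_lit 23) (.e (nat_lit 98335) (nat_lit 18) (.e (nat_lit 164327) (nat_lit 230) (.e (nat_lit 163871) (nat_lit 2) (.e (nat_lit 196654) (nat_lit 11) .nil))))))) (.g (nat_lit 1) (.e (nat_lit 137780) (nat_lit 0) .nil) .nil)))) (.nd (nat_lit 9) 
(.lf (nat_lit 487810) (.g (nat_lit 3287) (.e (nat_lit 16410) (nat_lit 2) (.e (nat_lit 196654) (nat_lit 11) (.e (nat_lit 16416) (nat_lit 3) (.e (nat_lit 204809) (nat_lit 9) (.e (nat_lit 426124) (nat_lit 2) (.e (nat_lit 196654) (nat_lit 11) .nil)))))) (.g (nat_lit 1) (.e (nat_lit 137186) (nat_lit 0) .nil) .nil))) 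
(.lf (nat_lit 488322) (.g (nat_lit 2451) (.e (nat_lit 16425) (nat_lit 7) (.e (nat_lit 409649) (nat_lit 18) (.e (nat_lit 303143) (nat_lit 12) (.e (nat_lit 475199) (nat_lit 40) (.e (nat_lit 704788) (nat_lit 14) .nil))))) (.g (nat_lit 0) (.e (nat_lit 138192) (nat_lit 0) .nil) .nil)))))) (.nd (nat_lit 7) (.nd (nat_lit 8) (.nd (nat_lit 9) 
(.lf (nat_lit 487490) (.g (nat_lit 4267) (.e (nat_lit 24662) (nat_lit 14) (.e (nat_lit 401459) (nat_lit 13) (.e (nat_lit 483372) (nat_lit 21) (.e (nat_lit 319510) (nat_lit 10) .nil)))) (.g (nat_lit 0) (.e (nat_lit 135567) (nat_lit 0) .nil) .nil))) 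
(.lf (nat_lit 488002) (.g (nat_lit 3411) (.e (nat_lit 16416) (nat_lit 3) (.e (nat_lit 204809) (nat_lit 9) (.e (nat_lit 426139) (nat_lit 3) (.e (nat_lit 204808) (nat_lit 9) (.e (nat_lit 426124) (nat_lit 2) (.e (nat_lit 196654) (nat_lit 11) .nil)))))) (.g (nat_lit 1) (.e (nat_lit 137709) (nat_lit 0) .nil) .nil)))) (.nd (nat_lit 9) 
(.lf (nat_lit 487746) (.g (nat_lit 2713) (.e (nat_lit 16384) (nat_lit 0) (.e (nat_lit 3307) (nat_lit 202) (.e (nat_lit 573484) (nat_lit 13) (.e (nat_lit 65566) (nat_lit 2) .nil)))) (.g (nat_lit 0) (.e (nat_lit 136834) (nat_lit 0) .nil) .nil))) 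
(.lf (nat_lit 488258) (.g (nat_lit 2374) (.e (nat_lit 16425) (nat_lit 7) (.e (nat_lit 409647) (nat_lit 18) (.e (nat_lit 303133) (nat_lit 9) (.e (nat_lit 426412) (nat_lit 15) (.e (nat_lit 2233) (nat_lit 146) .nil))))) (.g (nat_lit 0) (.e (nat_lit 138121) (nat_lit 0) .nil) .nil))))) (.nd (nat_lit 8) (.nd (nat_lit 9) 
(.lf (nat_lit 487618) (.g (nat_lit 3009) (.e (nat_lit 24665) (nat_lit 14) (.e (nat_lit 401448) (nat_lit 10) (.e (nat_lit 434276) (nat_lit 39) (.e (nat_lit 663585) (nat_lit 12) (.e (nat_lit 171776) (nat_lit 49) (.e (nat_lit 729120) (nat_lit 28) (.e (nat_lit 147494) (nat_lit 11) .nil))))))) (.g (nat_lit 1) (.e (nat_lit 136177) (nat_lit 0) .nil) .nil))) 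
(.lf (nat_lit 488130) (.g (nat_lit 3633) (.e (nat_lit 16416) (nat_lit 3) (.e (nat_lit 204869) (nat_lit 29) (.e (nat_lit 360475) (nat_lit 8) (.e (nat_lit 564992) (nat_lit 18) .nil)))) (.g (nat_lit 0) (.e (nat_lit 137870) (nat_lit 0) .nil) .nil)))) (.nd (nat_lit 9) 
(.lf (nat_lit 487874) (.g (nat_lit 3428) (.e (nat_lit 16412) (nat_lit 2) (.e (nat_lit 196656) (nat_lit 11) (.e (nat_lit 16416) (nat_lit 3) (.e (nat_lit 204809) (nat_lit 9) (.e (nat_lit 426124) (nat_lit 2) (.e (nat_lit 196654) (nat_lit 11) .nil)))))) (.g (nat_lit 1) (.e (nat_lit 137402) (nat_lit 0) .nil) .nil))) 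
(.lf (nat_lit 488386) (.g (nat_lit 3463) (.e (nat_lit 16433) (nat_lit 9) (.e (nat_lit 426566) (nat_lit 34) (.e (nat_lit 393253) (nat_lit 18) (.e (nat_lit 164325) (nat_lit 230) (.e (nat_lit 163871) (nat_lit 2) (.e (nat_lit 196654) (nat_lit 11) .nil)))))) (.g (nat_lit 1) (.e (nat_lit 138320) (nat_lit 0) .nil) .nil))))))) (.nd (nat_lit 6) (.nd (nat_lit 7) (.nd (nat_lit 8) (.nd (nat_lit 9) 
(.lf (nat_lit 487458) (.g (nat_lit 1449) (.e (nat_lit 24662) (nat_lit 14) (.e (nat_lit 401438) (nat_lit 9) (.e (nat_lit 426533) (nat_lit 28) (.e (nat_lit 344084) (nat_lit 14) (.e (nat_lit 65280) (nat_lit 258) .nil))))) (.g (nat_lit 1) (.e (nat_lit 135506) (nat_lit 0) .nil) .nil))) 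
(.lf (nat_lit 487970) (.g (nat_lit 2031) (.e (nat_lit 16415) (nat_lit 3) (.e (nat_lit 204855) (nat_lit 26) (.e (nat_lit 336176) (nat_lit 10) (.e (nat_lit 344132) (nat_lit 26) (.e (nat_lit 557072) (nat_lit 9) .nil))))) (.g (nat_lit 0) (.e (nat_lit 137652) (nat_lit 0) .nil) .nil)))) (.nd (nat_lit 9) 
(.lf (nat_lit 487714) (.g (nat_lit 2460) (.e (nat_lit 32512) (nat_lit 18) (.e (nat_lit 204863) (nat_lit 27) (.e (nat_lit 344129) (nat_lit 26) (.e (nat_lit 557097) (nat_lit 13) (.e (nat_lit 172073) (nat_lit 5) .nil))))) (.g (nat_lit 0) (.e (nat_lit 136471) (nat_lit 0) .nil) .nil))) 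
(.lf (nat_lit 488226) (.g (nat_lit 2762) (.e (nat_lit 16425) (nat_lit 7) (.e (nat_lit 409644) (nat_lit 18) (.e (nat_lit 303143) (nat_lit 12) (.e (nat_lit 475220) (nat_lit 44) (.e (nat_lit 737318) (nat_lit 15) (.e (nat_lit 49187) (nat_lit 11) .nil)))))) (.g (nat_lit 1) (.e (nat_lit 138089) (nat_lit 0) .nil) .nil))))) (.nd (nat_lit 8) (.nd (nat_lit 9) 
(.lf (nat_lit 487586) (.g (nat_lit 2737) (.e (nat_lit 24665) (nat_lit 14) (.e (nat_lit 401434) (nat_lit 9) (.e (nat_lit 426482) (nat_lit 27) (.e (nat_lit 336060) (nat_lit 7) (.e (nat_lit 319505) (nat_lit 10) (.e (nat_lit 7936) (nat_lit 314) .nil)))))) (.g (nat_lit 1) (.e (nat_lit 136051) (nat_lit 0) .nil) .nil))) 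
(.lf (nat_lit 488098) (.g (nat_lit 2419) (.e (nat_lit 16416) (nat_lit 3) (.e (nat_lit 204861) (nat_lit 26) (.e (nat_lit 336186) (nat_lit 11) (.e (nat_lit 368676) (nat_lit 21) (.e (nat_lit 516097) (nat_lit 0) (.e (nat_lit 3360) (nat_lit 207) (.e (nat_lit 614435) (nat_lit 11) .nil))))))) (.g (nat_lit 1) (.e (nat_lit 137832) (nat_lit 0) .nil) .nil)))) (.nd (nat_lit 9) 
(.lf (nat_lit 487842) (.g (nat_lit 3537) (.e (nat_lit 16411) (nat_lit 2) (.e (nat_lit 196663) (nat_lit 13) (.e (nat_lit 65630) (nat_lit 14) (.e (nat_lit 401425) (nat_lit 2) (.e (nat_lit 196630) (nat_lit 9) (.e (nat_lit 202) (nat_lit 17) (.e (nat_lit 253990) (nat_lit 11) .nil))))))) (.g (nat_lit 1) (.e (nat_lit 137308) (nat_lit 0) .nil) .nil))) 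
(.lf (nat_lit 488354) (.g (nat_lit 2884) (.e (nat_lit 16433) (nat_lit 9) (.e (nat_lit 426481) (nat_lit 27) (.e (nat_lit 336389) (nat_lit 27) (.e (nat_lit 426098) (nat_lit 1) (.e (nat_lit 164327) (nat_lit 230) (.e (nat_lit 163871) (nat_lit 2) (.e (nat_lit 196654) (nat_lit 11) .nil))))))) (.g (nat_lit 1) (.e (nat_lit 138286) (nat_lit 0) .nil) .nil)))))) 
(.nd (nat_lit 7) (.nd (nat_lit 8) (.nd (nat_lit 9) 
(.lf (nat_lit 487522) (.g (nat_lit 3297) (.e (nat_lit 24664) (nat_lit 14) (.e (nat_lit 401427) (nat_lit 3) (.e (nat_lit 204869) (nat_lit 29) (.e (nat_lit 360473) (nat_lit 8) (.e (nat_lit 557085) (nat_lit 11) .nil))))) (.g (nat_lit 0) (.e (nat_lit 135625) (nat_lit 0) .nil) .nil))) 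
(.lf (nat_lit 488034) (.g (nat_lit 2451) (.e (nat_lit 16416) (nat_lit 3) (.e (nat_lit 204813) (nat_lit 9) (.e (nat_lit 426133) (nat_lit 3) (.e (nat_lit 204813) (nat_lit 9) (.e (nat_lit 426121) (nat_lit 2) (.e (nat_lit 196654) (nat_lit 11) .nil)))))) (.g (nat_lit 1) (.e (nat_lit 137747) (nat_lit 0) .nil) .nil)))) (.nd (nat_lit 9) 
(.lf (nat_lit 487778) (.g (nat_lit 3928) (.e (nat_lit 16388) (nat_lit 0) (.e (nat_lit 3280) (nat_lit 200) (.e (nat_lit 557103) (nat_lit 14) (.e (nat_lit 180250) (nat_lit 10) (.e (nat_lit 573482) (nat_lit 13) (.e (nat_lit 65568) (nat_lit 2) (.e (nat_lit 98048) (nat_lit 2) .nil))))))) (.g (nat_lit 1) (.e (nat_lit 136889) (nat_lit 0) .nil) .nil))) 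
(.lf (nat_lit 488290) (.g (nat_lit 3475) (.e (nat_lit 16425) (nat_lit 7) (.e (nat_lit 409648) (nat_lit 18) (.e (nat_lit 303143) (nat_lit 12) (.e (nat_lit 475199) (nat_lit 40) (.e (nat_lit 704790) (nat_lit 14) (.e (nat_lit 2587) (nat_lit 162) (.e (nat_lit 49189) (nat_lit 11) .nil))))))) (.g (nat_lit 1) (.e (nat_lit 138158) (nat_lit 0) .nil) .nil))))) (.nd (nat_lit 8) (.nd (nat_lit 9) 
(.lf (nat_lit 487650) (.g (nat_lit 4327) (.e (nat_lit 24665) (nat_lit 14) (.e (nat_lit 401450) (nat_lit 12) (.e (nat_lit 475214) (nat_lit 42) (.e (nat_lit 720955) (nat_lit 25) (.e (nat_lit 114727) (nat_lit 28) (.e (nat_lit 147495) (nat_lit 11) .nil)))))) (.g (nat_lit 1) (.e (nat_lit 136243) (nat_lit 0) .nil) .nil))) 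
(.lf (nat_lit 488162) (.g (nat_lit 2885) (.e (nat_lit 16424) (nat_lit 7) (.e (nat_lit 409645) (nat_lit 18) (.e (nat_lit 303143) (nat_lit 12) (.e (nat_lit 475199) (nat_lit 40) (.e (nat_lit 704814) (nat_lit 14) .nil))))) (.g (nat_lit 0) (.e (nat_lit 137967) (nat_lit 0) .nil) .nil)))) (.nd (nat_lit 9) 
(.lf (nat_lit 487906) (.g (nat_lit 362) (.e (nat_lit 16412) (nat_lit 2) (.e (nat_lit 196674) (nat_lit 15) (.e (nat_lit 89856) (nat_lit 3) .nil))) (.g (nat_lit 0) (.e (nat_lit 137441) (nat_lit 0) .nil) .nil))) 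
(.lf (nat_lit 488418) (.g (nat_lit 2597) (.e (nat_lit 16433) (nat_lit 9) (.e (nat_lit 426566) (nat_lit 34) (.e (nat_lit 393254) (nat_lit 18) (.e (nat_lit 164326) (nat_lit 230) (.e (nat_lit 163866) (nat_lit 2) (.e (nat_lit 196654) (nat_lit 11) .nil)))))) (.g (nat_lit 1) (.e (nat_lit 138352) (nat_lit 0) .nil) .nil)))))))) 
(.nd (nat_lit 5) (.nd (nat_lit 6) (.nd (nat_lit 7) (.nd (nat_lit 8) (.nd (nat_lit 9) 
(.lf (nat_lit 487442) (.g (nat_lit 2553) (.e (nat_lit 24662) (nat_lit 14) (.e (nat_lit 401425) (nat_lit 2) (.e (nat_lit 196666) (nat_lit 13) (.e (nat_lit 65616) (nat_lit 10) .nil)))) (.g (nat_lit 0) (.e (nat_lit 135462) (nat_lit 0) .nil) .nil))) 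
(.lf (nat_lit 487954) (.g (nat_lit 2234) (.e (nat_lit 16413) (nat_lit 2) (.e (nat_lit 196666) (nat_lit 13) (.e (nat_lit 65624) (nat_lit 12) (.e (nat_lit 385067) (nat_lit 26) (.e (nat_lit 532511) (nat_lit 2) .nil))))) (.g (nat_lit 0) (.e (nat_lit 137532) (nat_lit 0) .nil) .nil)))) (.nd (nat_lit 9) 
(.lf (nat_lit 487698) (.g (nat_lit 2533) (.e (nat_lit 32512) (nat_lit 18) (.e (nat_lit 204862) (nat_lit 27) (.e (nat_lit 344129) (nat_lit 26) (.e (nat_lit 557097) (nat_lit 13) (.e (nat_lit 172073) (nat_lit 5) .nil))))) (.g (nat_lit 0) (.e (nat_lit 136455) (nat_lit 0) .nil) .nil))) 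
(.lf (nat_lit 488210) (.g (nat_lit 2647) (.e (nat_lit 16425) (nat_lit 7) (.e (nat_lit 409643) (nat_lit 18) (.e (nat_lit 303143) (nat_lit 12) (.e (nat_lit 475199) (nat_lit 40) (.e (nat_lit 704789) (nat_lit 14) .nil))))) (.g (nat_lit 0) (.e (nat_lit 138073) (nat_lit 0) .nil) .nil))))) (.nd (nat_lit 8) (.nd (nat_lit 9) 
(.lf (nat_lit 487570) (.g (nat_lit 3064) (.e (nat_lit 24665) (nat_lit 14) (.e (nat_lit 401426) (nat_lit 3) (.e (nat_lit 204868) (nat_lit 29) (.e (nat_lit 360475) (nat_lit 8) (.e (nat_lit 564992) (nat_lit 11) .nil))))) (.g (nat_lit 0) (.e (nat_lit 135912) (nat_lit 0) .nil) .nil))) 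
(.lf (nat_lit 488082) (.g (nat_lit 3589) (.e (nat_lit 16416) (nat_lit 3) (.e (nat_lit 204838) (nat_lit 20) (.e (nat_lit 114719) (nat_lit 23) (.e (nat_lit 98333) (nat_lit 18) (.e (nat_lit 164327) (nat_lit 230) (.e (nat_lit 163871) (nat_lit 2) (.e (nat_lit 196654) (nat_lit 11) .nil))))))) (.g (nat_lit 1) (.e (nat_lit 137797) (nat_lit 0) .nil) .nil)))) (.nd (nat_lit 9) 
(.lf (nat_lit 487826) (.g (nat_lit 2448) (.e (nat_lit 16411) (nat_lit 2) (.e (nat_lit 196654) (nat_lit 11) (.e (nat_lit 16411) (nat_lit 2) (.e (nat_lit 196656) (nat_lit 11) (.e (nat_lit 16412) (nat_lit 2) (.e (nat_lit 196654) (nat_lit 11) .nil)))))) (.g (nat_lit 1) (.e (nat_lit 137229) (nat_lit 0) .nil) .nil))) 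
(.lf (nat_lit 488338) (.g (nat_lit 3994) (.e (nat_lit 16431) (nat_lit 9) (.e (nat_lit 426568) (nat_lit 34) (.e (nat_lit 393253) (nat_lit 18) (.e (nat_lit 164327) (nat_lit 230) (.e (nat_lit 163868) (nat_lit 2) (.e (nat_lit 196656) (nat_lit 11) .nil)))))) (.g (nat_lit 1) (.e (nat_lit 138249) (nat_lit 0) .nil) .nil)))))) (.nd (nat_lit 7) (.nd (nat_lit 8) (.nd (nat_lit 9) 
(.lf (nat_lit 487506) (.g (nat_lit 1743) (.e (nat_lit 24662) (nat_lit 14) (.e (nat_lit 401459) (nat_lit 13) (.e (nat_lit 483410) (nat_lit 27) (.e (nat_lit 401417) (nat_lit 0) .nil)))) (.g (nat_lit 0) (.e (nat_lit 135585) (nat_lit 0) .nil) .nil))) 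
(.lf (nat_lit 488018) (.g (nat_lit 2918) (.e (nat_lit 16416) (nat_lit 3) (.e (nat_lit 204813) (nat_lit 9) (.e (nat_lit 426122) (nat_lit 2) (.e (nat_lit 196654) (nat_lit 11) (.e (nat_lit 16412) (nat_lit 2) (.e (nat_lit 196656) (nat_lit 11) .nil)))))) (.g (nat_lit 1) (.e (nat_lit 137728) (nat_lit 0) .nil) .nil)))) (.nd (nat_lit 9) 
(.lf (nat_lit 487762) (.g (nat_lit 2971) (.e (nat_lit 16388) (nat_lit 0) (.e (nat_lit 3211) (nat_lit 195) (.e (nat_lit 516130) (nat_lit 3) (.e (nat_lit 221211) (nat_lit 22) (.e (nat_lit 196666) (nat_lit 13) (.e (nat_lit 65568) (nat_lit 2) (.e (nat_lit 98048) (nat_lit 2) .nil))))))) (.g (nat_lit 1) (.e (nat_lit 136861) (nat_lit 0) .nil) .nil))) 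
(.lf (nat_lit 488274) (.g (nat_lit 2256) (.e (nat_lit 16425) (nat_lit 7) (.e (nat_lit 409648) (nat_lit 18) (.e (nat_lit 303137) (nat_lit 10) (.e (nat_lit 434275) (nat_lit 39) (.e (nat_lit 671488) (nat_lit 14) (.e (nat_lit 1159) (nat_lit 86) (.e (nat_lit 49187) (nat_lit 11) .nil))))))) (.g (nat_lit 1) (.e (nat_lit 138142) (nat_lit 0) .nil) .nil))))) (.nd (nat_lit 8) (.nd (nat_lit 9) 
(.lf (nat_lit 487634) (.g (nat_lit 2831) (.e (nat_lit 24665) (nat_lit 14) (.e (nat_lit 401448) (nat_lit 10) (.e (nat_lit 434291) (nat_lit 44) (.e (nat_lit 704736) (nat_lit 11) (.e (nat_lit 16388) (nat_lit 0) (.e (nat_lit 7379) (nat_lit 390) .nil)))))) (.g (nat_lit 1) (.e (nat_lit 136209) (nat_lit 0) .nil) .nil))) 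
(.lf (nat_lit 488146) (.g (nat_lit 4009) (.e (nat_lit 16417) (nat_lit 3) (.e (nat_lit 204869) (nat_lit 29) (.e (nat_lit 360475) (nat_lit 8) (.e (nat_lit 564992) (nat_lit 9) .nil)))) (.g (nat_lit 0) (.e (nat_lit 137936) (nat_lit 0) .nil) .nil)))) (.nd (nat_lit 9) 
(.lf (nat_lit 487890) (.g (nat_lit 3500) (.e (nat_lit 16412) (nat_lit 2) (.e (nat_lit 196666) (nat_lit 13) (.e (nat_lit 65610) (nat_lit 10) (.e (nat_lit 344129) (nat_lit 26) (.e (nat_lit 557067) (nat_lit 9) (.e (nat_lit 2436) (nat_lit 157) (.e (nat_lit 3480) (nat_lit 218) (.e (nat_lit 704731) (nat_lit 11) .nil)))))))) (.g (nat_lit 1) (.e (nat_lit 137419) (nat_lit 0) .nil) .nil))) 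
(.lf (nat_lit 488402) (.g (nat_lit 3511) (.e (nat_lit 16433) (nat_lit 9) (.e (nat_lit 426566) (nat_lit 34) (.e (nat_lit 393253) (nat_lit 18) (.e (nat_lit 164332) (nat_lit 230) (.e (nat_lit 163866) (nat_lit 2) (.e (nat_lit 196654) (nat_lit 11) .nil)))))) (.g (nat_lit 1) (.e (nat_lit 138336) (nat_lit 0) .nil) .nil))))))) (.nd (nat_lit 6) (.nd (nat_lit 7) (.nd (nat_lit 8) (.nd (nat_lit 9) 
(.lf (nat_lit 487474) (.g (nat_lit 2656) (.e (nat_lit 24662) (nat_lit 14) (.e (nat_lit 401459) (nat_lit 13) (.e (nat_lit 483350) (nat_lit 17) (.e (nat_lit 6113) (nat_lit 332) (.e (nat_lit 1076) (nat_lit 81) (.e (nat_lit 7936) (nat_lit 314) .nil)))))) (.g (nat_lit 1) (.e (nat_lit 135551) (nat_lit 0) .nil) .nil))) 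
(.lf (nat_lit 487986) (.g (nat_lit 3824) (.e (nat_lit 16415) (nat_lit 3) (.e (nat_lit 204884) (nat_lit 33) (.e (nat_lit 401454) (nat_lit 12) (.e (nat_lit 475179) (nat_lit 24) (.e (nat_lit 516124) (nat_lit 2) (.e (nat_lit 220928) (nat_lit 2) .nil)))))) (.g (nat_lit 1) (.e (nat_lit 137677) (nat_lit 0) .nil) .nil)))) (.nd (nat_lit 9) 
(.lf (nat_lit 487730) (.g (nat_lit 3091) (.e (nat_lit 24675) (nat_lit 27) (.e (nat_lit 426172) (nat_lit 7) (.e (nat_lit 409617) (nat_lit 10) (.e (nat_lit 632) (nat_lit 50) (.e (nat_lit 573487) (nat_lit 14) (.e (nat_lit 81664) (nat_lit 34) .nil)))))) (.g (nat_lit 1) (.e (nat_lit 136596) (nat_lit 0) .nil) .nil))) 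
(.lf (nat_lit 488242) (.g (nat_lit 2112) (.e (nat_lit 16425) (nat_lit 7) (.e (nat_lit 409646) (nat_lit 18) (.e (nat_lit 303133) (nat_lit 9) (.e (nat_lit 426412) (nat_lit 15) (.e (nat_lit 2221) (nat_lit 146) .nil))))) (.g (nat_lit 0) (.e (nat_lit 138105) (nat_lit 0) .nil) .nil))))) (.nd (nat_lit 8) (.nd (nat_lit 9) 
(.lf (nat_lit 487602) (.g (nat_lit 495) (.e (nat_lit 24665) (nat_lit 14) (.e (nat_lit 401447) (nat_lit 10) (.e (nat_lit 434272) (nat_lit 38) .nil))) (.g (nat_lit 0) (.e (nat_lit 136121) (nat_lit 0) .nil) .nil))) 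
(.lf (nat_lit 488114) (.g (nat_lit 2373) (.e (nat_lit 16416) (nat_lit 3) (.e (nat_lit 204868) (nat_lit 29) (.e (nat_lit 360475) (nat_lit 8) (.e (nat_lit 557068) (nat_lit 9) .nil)))) (.g (nat_lit 0) (.e (nat_lit 137853) (nat_lit 0) .nil) .nil)))) (.nd (nat_lit 9) 
(.lf (nat_lit 487858) (.g (nat_lit 2712) (.e (nat_lit 16412) (nat_lit 2) (.e (nat_lit 196654) (nat_lit 11) (.e (nat_lit 16413) (nat_lit 2) (.e (nat_lit 196654) (nat_lit 11) (.e (nat_lit 16411) (nat_lit 2) (.e (nat_lit 196656) (nat_lit 11) .nil)))))) (.g (nat_lit 1) (.e (nat_lit 137360) (nat_lit 0) .nil) .nil))) 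
(.lf (nat_lit 488370) (.g (nat_lit 2953) (.e (nat_lit 16433) (nat_lit 9) (.e (nat_lit 426566) (nat_lit 34) (.e (nat_lit 393252) (nat_lit 18) (.e (nat_lit 164332) (nat_lit 230) (.e (nat_lit 163866) (nat_lit 2) (.e (nat_lit 196654) (nat_lit 11) .nil)))))) (.g (nat_lit 1) (.e (nat_lit 138302) (nat_lit 0) .nil) .nil)))))) (.nd (nat_lit 7) (.nd (nat_lit 8) (.nd (nat_lit 9) 
(.lf (nat_lit 487538) (.g (nat_lit 4230) (.e (nat_lit 24664) (nat_lit 14) (.e (nat_lit 401428) (nat_lit 3) (.e (nat_lit 204869) (nat_lit 29) (.e (nat_lit 360475) (nat_lit 8) (.e (nat_lit 557087) (nat_lit 11) .nil))))) (.g (nat_lit 1) (.e (nat_lit 135641) (nat_lit 0) .nil) .nil))) 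
(.lf (nat_lit 488050) (.g (nat_lit 2983) (.e (nat_lit 16416) (nat_lit 3) (.e (nat_lit 204837) (nat_lit 20) (.e (nat_lit 114717) (nat_lit 23) (.e (nat_lit 98334) (nat_lit 18) (.e (nat_lit 164330) (nat_lit 230) (.e (nat_lit 163867) (nat_lit 2) (.e (nat_lit 196654) (nat_lit 11) .nil))))))) (.g (nat_lit 1) (.e (nat_lit 137764) (nat_lit 0) .nil) .nil)))) (.nd (nat_lit 9) 
(.lf (nat_lit 487794) (.g (nat_lit 669) (.e (nat_lit 16405) (nat_lit 1) (.e (nat_lit 164325) (nat_lit 230) (.e (nat_lit 163861) (nat_lit 1) .nil))) (.g (nat_lit 0) (.e (nat_lit 136955) (nat_lit 0) .nil) .nil))) 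
(.lf (nat_lit 488306) (.g (nat_lit 2630) (.e (nat_lit 16425) (nat_lit 7) (.e (nat_lit 409649) (nat_lit 18) (.e (nat_lit 303140) (nat_lit 10) (.e (nat_lit 434209) (nat_lit 18) (.e (nat_lit 5224) (nat_lit 296) (.e (nat_lit 163850) (nat_lit 0) (.e (nat_lit 3409) (nat_lit 212) (.e (nat_lit 655395) (nat_lit 11) .nil)))))))) (.g (nat_lit 1) (.e (nat_lit 138174) (nat_lit 0) .nil) .nil))))) 
(.nd (nat_lit 8) (.nd (nat_lit 9) 
(.lf (nat_lit 487666) (.g (nat_lit 3917) (.e (nat_lit 24665) (nat_lit 14) (.e (nat_lit 401460) (nat_lit 14) (.e (nat_lit 491566) (nat_lit 12) (.e (nat_lit 385114) (nat_lit 53) (.e (nat_lit 811045) (nat_lit 14) (.e (nat_lit 40995) (nat_lit 11) .nil)))))) (.g (nat_lit 1) (.e (nat_lit 136334) (nat_lit 0) .nil) .nil))) 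
(.lf (nat_lit 488178) (.g (nat_lit 1440) (.e (nat_lit 16425) (nat_lit 7) (.e (nat_lit 409615) (nat_lit 10) (.e (nat_lit 932) (nat_lit 76) (.e (nat_lit 786480) (nat_lit 29) (.e (nat_lit 352312) (nat_lit 22) (.e (nat_lit 98048) (nat_lit 2) .nil)))))) (.g (nat_lit 1) (.e (nat_lit 137998) (nat_lit 0) .nil) .nil)))) (.nd (nat_lit 9) 
(.lf (nat_lit 487922) (.g (nat_lit 1492) (.e (nat_lit 16412) (nat_lit 2) (.e (nat_lit 196681) (nat_lit 17) (.e (nat_lit 131109) (nat_lit 9) (.e (nat_lit 336324) (nat_lit 18) (.e (nat_lit 204817) (nat_lit 17) .nil))))) (.g (nat_lit 0) (.e (nat_lit 137473) (nat_lit 0) .nil) .nil))) 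
(.lf (nat_lit 488434) (.g (nat_lit 2363) (.e (nat_lit 16433) (nat_lit 9) (.e (nat_lit 426568) (nat_lit 34) (.e (nat_lit 393251) (nat_lit 18) (.e (nat_lit 164325) (nat_lit 230) (.e (nat_lit 163867) (nat_lit 2) (.e (nat_lit 196654) (nat_lit 11) .nil)))))) (.g (nat_lit 1) (.e (nat_lit 138370) (nat_lit 0) .nil) .nil))))))))) 
(.nd (nat_lit 4) (.nd (nat_lit 5) (.nd (nat_lit 6) (.nd (nat_lit 7) (.nd (nat_lit 8) 
(.nd (nat_lit 9) 
(.lf (nat_lit 487434) (.g (nat_lit 4874) (.e (nat_lit 24662) (nat_lit 14) (.e (nat_lit 401425) (nat_lit 2) (.e (nat_lit 196666) (nat_lit 13) (.e (nat_lit 65610) (nat_lit 10) (.e (nat_lit 344097) (nat_lit 18) (.e (nat_lit 4066) (nat_lit 245) (.e (nat_lit 2556) (nat_lit 159) .nil))))))) (.g (nat_lit 1) (.e (nat_lit 135449) (nat_lit 0) .nil) .nil))) 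
(.lf (nat_lit 487946) (.g (nat_lit 1532) (.e (nat_lit 16413) (nat_lit 2) (.e (nat_lit 196666) (nat_lit 13) (.e (nat_lit 65622) (nat_lit 12) (.e (nat_lit 385067) (nat_lit 26) (.e (nat_lit 532510) (nat_lit 2) .nil))))) (.g (nat_lit 0) (.e (nat_lit 137524) (nat_lit 0) .nil) .nil)))) (.nd (nat_lit 9) 
(.lf (nat_lit 487690) (.g (nat_lit 2331) (.e (nat_lit 32512) (nat_lit 14) (.e (nat_lit 401458) (nat_lit 13) (.e (nat_lit 483372) (nat_lit 21) (.e (nat_lit 319505) (nat_lit 10) (.e (nat_lit 7936) (nat_lit 314) .nil))))) (.g (nat_lit 0) (.e (nat_lit 136384) (nat_lit 0) .nil) .nil))) 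
(.lf (nat_lit 488202) (.g (nat_lit 1784) (.e (nat_lit 16425) (nat_lit 7) (.e (nat_lit 409623) (nat_lit 10) (.e (nat_lit 5664) (nat_lit 312) (.e (nat_lit 3062) (nat_lit 190) (.e (nat_lit 475218) (nat_lit 44) (.e (nat_lit 737318) (nat_lit 15) (.e (nat_lit 49189) (nat_lit 11) .nil))))))) (.g (nat_lit 1) (.e (nat_lit 138065) (nat_lit 0) .nil) .nil))))) (.nd (nat_lit 8) (.nd (nat_lit 9) 
(.lf (nat_lit 487562) (.g (nat_lit 260) (.e (nat_lit 24665) (nat_lit 14) (.e (nat_lit 401423) (nat_lit 2) (.e (nat_lit 196672) (nat_lit 15) .nil))) (.g (nat_lit 0) (.e (nat_lit 135878) (nat_lit 0) .nil) .nil))) 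
(.lf (nat_lit 488074) (.g (nat_lit 3602) (.e (nat_lit 16416) (nat_lit 3) (.e (nat_lit 204838) (nat_lit 20) (.e (nat_lit 114718) (nat_lit 23) (.e (nat_lit 98333) (nat_lit 18) (.e (nat_lit 164327) (nat_lit 230) (.e (nat_lit 163871) (nat_lit 2) (.e (nat_lit 196654) (nat_lit 11) .nil))))))) (.g (nat_lit 1) (.e (nat_lit 137789) (nat_lit 0) .nil) .nil)))) (.nd (nat_lit 9) 
(.lf (nat_lit 487818) (.g (nat_lit 3047) (.e (nat_lit 16410) (nat_lit 2) (.e (nat_lit 196666) (nat_lit 13) (.e (nat_lit 65610) (nat_lit 10) (.e (nat_lit 344129) (nat_lit 26) (.e (nat_lit 557069) (nat_lit 9) .nil))))) (.g (nat_lit 0) (.e (nat_lit 137203) (nat_lit 0) .nil) .nil))) 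
(.lf (nat_lit 488330) (.g (nat_lit 2723) (.e (nat_lit 16425) (nat_lit 7) (.e (nat_lit 409649) (nat_lit 18) (.e (nat_lit 303143) (nat_lit 12) (.e (nat_lit 475219) (nat_lit 44) (.e (nat_lit 737318) (nat_lit 15) (.e (nat_lit 49187) (nat_lit 11) .nil)))))) (.g (nat_lit 1) (.e (nat_lit 138200) (nat_lit 0) .nil) .nil)))))) (.nd (nat_lit 7) (.nd (nat_lit 8) (.nd (nat_lit 9) 
(.lf (nat_lit 487498) (.g (nat_lit 1581) (.e (nat_lit 24662) (nat_lit 14) (.e (nat_lit 401459) (nat_lit 13) (.e (nat_lit 483375) (nat_lit 22) (.e (nat_lit 327704) (nat_lit 10) .nil)))) (.g (nat_lit 0) (.e (nat_lit 135575) (nat_lit 0) .nil) .nil))) 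
(.lf (nat_lit 488010) (.g (nat_lit 2571) (.e (nat_lit 16416) (nat_lit 3) (.e (nat_lit 204813) (nat_lit 9) (.e (nat_lit 426114) (nat_lit 2) (.e (nat_lit 196654) (nat_lit 11) (.e (nat_lit 16411) (nat_lit 2) (.e (nat_lit 196656) (nat_lit 11) .nil)))))) (.g (nat_lit 1) (.e (nat_lit 137719) (nat_lit 0) .nil) .nil)))) (.nd (nat_lit 9) 
(.lf (nat_lit 487754) (.g (nat_lit 3348) (.e (nat_lit 16387) (nat_lit 0) (.e (nat_lit 7581) (nat_lit 405) (.e (nat_lit 57464) (nat_lit 23) (.e (nat_lit 516166) (nat_lit 12) (.e (nat_lit 450588) (nat_lit 10) (.e (nat_lit 573470) (nat_lit 11) .nil)))))) (.g (nat_lit 1) (.e (nat_lit 136851) (nat_lit 0) .nil) .nil))) 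
(.lf (nat_lit 488266) (.g (nat_lit 2063) (.e (nat_lit 16425) (nat_lit 7) (.e (nat_lit 409647) (nat_lit 18) (.e (nat_lit 303143) (nat_lit 12) (.e (nat_lit 475218) (nat_lit 44) (.e (nat_lit 737318) (nat_lit 15) (.e (nat_lit 49188) (nat_lit 11) .nil)))))) (.g (nat_lit 1) (.e (nat_lit 138129) (nat_lit 0) .nil) .nil))))) (.nd (nat_lit 8) (.nd (nat_lit 9) 
(.lf (nat_lit 487626) (.g (nat_lit 3210) (.e (nat_lit 24665) (nat_lit 14) (.e (nat_lit 401448) (nat_lit 10) (.e (nat_lit 434289) (nat_lit 43) (.e (nat_lit 696344) (nat_lit 8) (.e (nat_lit 172033) (nat_lit 0) (.e (nat_lit 7936) (nat_lit 390) .nil)))))) (.g (nat_lit 1) (.e (nat_lit 136194) (nat_lit 0) .nil) .nil))) 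
(.lf (nat_lit 488138) (.g (nat_lit 2733) (.e (nat_lit 16417) (nat_lit 3) (.e (nat_lit 204869) (nat_lit 29) (.e (nat_lit 360474) (nat_lit 8) (.e (nat_lit 557072) (nat_lit 9) .nil)))) (.g (nat_lit 0) (.e (nat_lit 137927) (nat_lit 0) .nil) .nil)))) (.nd (nat_lit 9) 
(.lf (nat_lit 487882) (.g (nat_lit 4782) (.e (nat_lit 16412) (nat_lit 2) (.e (nat_lit 196666) (nat_lit 13) (.e (nat_lit 65610) (nat_lit 10) (.e (nat_lit 344117) (nat_lit 21) (.e (nat_lit 516097) (nat_lit 0) (.e (nat_lit 3357) (nat_lit 207) (.e (nat_lit 614435) (nat_lit 11) .nil))))))) (.g (nat_lit 1) (.e (nat_lit 137411) (nat_lit 0) .nil) .nil))) 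
(.lf (nat_lit 488394) (.g (nat_lit 2507) (.e (nat_lit 16433) (nat_lit 9) (.e (nat_lit 426566) (nat_lit 34) (.e (nat_lit 393253) (nat_lit 18) (.e (nat_lit 164329) (nat_lit 230) (.e (nat_lit 163867) (nat_lit 2) (.e (nat_lit 196652) (nat_lit 11) .nil)))))) (.g (nat_lit 1) (.e (nat_lit 138328) (nat_lit 0) .nil) .nil))))))) (.nd (nat_lit 6) (.nd (nat_lit 7) (.nd (nat_lit 8) (.nd (nat_lit 9) 
(.lf (nat_lit 487466) (.g (nat_lit 2746) (.e (nat_lit 24662) (nat_lit 14) (.e (nat_lit 401459) (nat_lit 13) (.e (nat_lit 483350) (nat_lit 17) (.e (nat_lit 6109) (nat_lit 332) (.e (nat_lit 1004) (nat_lit 81) (.e (nat_lit 7936) (nat_lit 314) .nil)))))) (.g (nat_lit 1) (.e (nat_lit 135543) (nat_lit 0) .nil) .nil))) 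
(.lf (nat_lit 487978) (.g (nat_lit 1246) (.e (nat_lit 16415) (nat_lit 3) (.e (nat_lit 204861) (nat_lit 26) (.e (nat_lit 336194) (nat_lit 12) (.e (nat_lit 385065) (nat_lit 26) .nil)))) (.g (nat_lit 0) (.e (nat_lit 137668) (nat_lit 0) .nil) .nil)))) (.nd (nat_lit 9) 
(.lf (nat_lit 487722) (.g (nat_lit 1490) (.e (nat_lit 32512) (nat_lit 18) (.e (nat_lit 204863) (nat_lit 27) (.e (nat_lit 344132) (nat_lit 26) (.e (nat_lit 557101) (nat_lit 13) .nil)))) (.g (nat_lit 0) (.e (nat_lit 136479) (nat_lit 0) .nil) .nil))) 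
(.lf (nat_lit 488234) (.g (nat_lit 2966) (.e (nat_lit 16425) (nat_lit 7) (.e (nat_lit 409645) (nat_lit 18) (.e (nat_lit 303143) (nat_lit 12) (.e (nat_lit 475199) (nat_lit 40) (.e (nat_lit 704787) (nat_lit 14) (.e (nat_lit 2591) (nat_lit 162) (.e (nat_lit 49189) (nat_lit 11) .nil))))))) (.g (nat_lit 1) (.e (nat_lit 138097) (nat_lit 0) .nil) .nil))))) (.nd (nat_lit 8) (.nd (nat_lit 9) 
(.lf (nat_lit 487594) (.g (nat_lit 2589) (.e (nat_lit 24665) (nat_lit 14) (.e (nat_lit 401444) (nat_lit 9) (.e (nat_lit 426163) (nat_lit 6) (.e (nat_lit 253991) (nat_lit 11) (.e (nat_lit 16386) (nat_lit 0) .nil))))) (.g (nat_lit 0) (.e (nat_lit 136093) (nat_lit 0) .nil) .nil))) 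
(.lf (nat_lit 488106) (.g (nat_lit 228) (.e (nat_lit 16416) (nat_lit 3) (.e (nat_lit 204865) (nat_lit 28) (.e (nat_lit 360192) (nat_lit 3) .nil))) (.g (nat_lit 0) (.e (nat_lit 137843) (nat_lit 0) .nil) .nil)))) (.nd (nat_lit 9) 
(.lf (nat_lit 487850) (.g (nat_lit 399) (.e (nat_lit 16411) (nat_lit 2) (.e (nat_lit 196681) (nat_lit 17) (.e (nat_lit 131109) (nat_lit 9) .nil))) (.g (nat_lit 0) (.e (nat_lit 137331) (nat_lit 0) .nil) .nil))) 
(.lf (nat_lit 488362) (.g (nat_lit 3613) (.e (nat_lit 16433) (nat_lit 9) (.e (nat_lit 426566) (nat_lit 34) (.e (nat_lit 393251) (nat_lit 18) (.e (nat_lit 164331) (nat_lit 230) (.e (nat_lit 163867) (nat_lit 2) (.e (nat_lit 196654) (nat_lit 11) .nil)))))) (.g (nat_lit 1) (.e (nat_lit 138294) (nat_lit 0) .nil) .nil)))))) (.nd (nat_lit 7) (.nd (nat_lit 8) (.nd (nat_lit 9) 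
(.lf (nat_lit 487530) (.g (nat_lit 3327) (.e (nat_lit 24664) (nat_lit 14) (.e (nat_lit 401428) (nat_lit 3) (.e (nat_lit 204869) (nat_lit 29) (.e (nat_lit 360473) (nat_lit 8) (.e (nat_lit 557085) (nat_lit 11) .nil))))) (.g (nat_lit 0) (.e (nat_lit 135633) (nat_lit 0) .nil) .nil))) 
(.lf (nat_lit 488042) (.g (nat_lit 2907) (.e (nat_lit 16416) (nat_lit 3) (.e (nat_lit 204813) (nat_lit 9) (.e (nat_lit 426138) (nat_lit 3) (.e (nat_lit 204813) (nat_lit 9) (.e (nat_lit 426124) (nat_lit 2) (.e (nat_lit 196656) (nat_lit 11) .nil)))))) (.g (nat_lit 1) (.e (nat_lit 137755) (nat_lit 0) .nil) .nil)))) (.nd (nat_lit 9) 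
(.lf (nat_lit 487786) (.g (nat_lit 2185) (.e (nat_lit 16392) (nat_lit 0) (.e (nat_lit 6989) (nat_lit 377) (.e (nat_lit 2810) (nat_lit 180) (.e (nat_lit 303143) (nat_lit 12) (.e (nat_lit 475220) (nat_lit 44) (.e (nat_lit 745216) (nat_lit 15) (.e (nat_lit 49189) (nat_lit 11) .nil))))))) (.g (nat_lit 1) (.e (nat_lit 136913) (nat_lit 0) .nil) .nil))) 
(.lf (nat_lit 488298) (.g (nat_lit 2448) (.e (nat_lit 16425) (nat_lit 7) (.e (nat_lit 409648) (nat_lit 18) (.e (nat_lit 303143) (nat_lit 12) (.e (nat_lit 475218) (nat_lit 44) (.e (nat_lit 737318) (nat_lit 15) (.e (nat_lit 49188) (nat_lit 11) .nil)))))) (.g (nat_lit 1) (.e (nat_lit 138166) (nat_lit 0) .nil) .nil))))) (.nd (nat_lit 8) (.nd (nat_lit 9) 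
(.lf (nat_lit 487658) (.g (nat_lit 4345) (.e (nat_lit 24665) (nat_lit 14) (.e (nat_lit 401451) (nat_lit 12) (.e (nat_lit 475214) (nat_lit 42) (.e (nat_lit 720955) (nat_lit 25) (.e (nat_lit 114727) (nat_lit 28) (.e (nat_lit 147495) (nat_lit 11) .nil)))))) (.g (nat_lit 1) (.e (nat_lit 136256) (nat_lit 0) .nil) .nil))) 
(.lf (nat_lit 488170) (.g (nat_lit 1891) (.e (nat_lit 16424) (nat_lit 7) (.e (nat_lit 409648) (nat_lit 18) (.e (nat_lit 303137) (nat_lit 10) (.e (nat_lit 434275) (nat_lit 39) (.e (nat_lit 663574) (nat_lit 9) .nil))))) (.g (nat_lit 0) (.e (nat_lit 137986) (nat_lit 0) .nil) .nil)))) (.nd (nat_lit 9) 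
(.lf (nat_lit 487914) (.g (nat_lit 431) (.e (nat_lit 16412) (nat_lit 2) (.e (nat_lit 196681) (nat_lit 17) (.e (nat_lit 131105) (nat_lit 9) .nil))) (.g (nat_lit 0) (.e (nat_lit 137451) (nat_lit 0) .nil) .nil))) 
(.lf (nat_lit 488426) (.g (nat_lit 3066) (.e (nat_lit 16433) (nat_lit 9) (.e (nat_lit 426566) (nat_lit 34) (.e (nat_lit 393254) (nat_lit 18) (.e (nat_lit 164332) (nat_lit 230) (.e (nat_lit 163866) (nat_lit 2) (.e (nat_lit 196654) (nat_lit 11) .nil)))))) (.g (nat_lit 1) (.e (nat_lit 138360) (nat_lit 0) .nil) .nil)))))))) 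
(.nd (nat_lit 5) (.nd (nat_lit 6) (.nd (nat_lit 7) (.nd (nat_lit 8) (.nd (nat_lit 9) 
(.lf (nat_lit 487450) (.g (nat_lit 3997) (.e (nat_lit 24662) (nat_lit 14) (.e (nat_lit 401428) (nat_lit 3) (.e (nat_lit 204869) (nat_lit 29) (.e (nat_lit 360473) (nat_lit 8) (.e (nat_lit 557085) (nat_lit 11) .nil))))) (.g (nat_lit 1) (.e (nat_lit 135493) (nat_lit 0) .nil) .nil))) 
(.lf (nat_lit 487962) (.g (nat_lit 2746) (.e (nat_lit 16414) (nat_lit 3) (.e (nat_lit 204869) (nat_lit 29) (.e (nat_lit 360474) (nat_lit 8) (.e (nat_lit 557072) (nat_lit 9) .nil)))) (.g (nat_lit 0) (.e (nat_lit 137564) (nat_lit 0) .nil) .nil)))) (.nd (nat_lit 9) 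
(.lf (nat_lit 487706) (.g (nat_lit 2330) (.e (nat_lit 32512) (nat_lit 18) (.e (nat_lit 204863) (nat_lit 27) (.e (nat_lit 344117) (nat_lit 21) (.e (nat_lit 516130) (nat_lit 3) (.e (nat_lit 229120) (nat_lit 2) .nil))))) (.g (nat_lit 0) (.e (nat_lit 136463) (nat_lit 0) .nil) .nil))) 
(.lf (nat_lit 488218) (.g (nat_lit 1186) (.e (nat_lit 16425) (nat_lit 7) (.e (nat_lit 409644) (nat_lit 18) (.e (nat_lit 303143) (nat_lit 12) (.e (nat_lit 475197) (nat_lit 40) .nil)))) (.g (nat_lit 0) (.e (nat_lit 138081) (nat_lit 0) .nil) .nil))))) (.nd (nat_lit 8) (.nd (nat_lit 9) 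
(.lf (nat_lit 487578) (.g (nat_lit 3511) (.e (nat_lit 24665) (nat_lit 14) (.e (nat_lit 401427) (nat_lit 3) (.e (nat_lit 204868) (nat_lit 29) (.e (nat_lit 360475) (nat_lit 8) (.e (nat_lit 557087) (nat_lit 11) .nil))))) (.g (nat_lit 1) (.e (nat_lit 135946) (nat_lit 0) .nil) .nil))) 
(.lf (nat_lit 488090) (.g (nat_lit 2316) (.e (nat_lit 16416) (nat_lit 3) (.e (nat_lit 204852) (nat_lit 26) (.e (nat_lit 336208) (nat_lit 12) (.e (nat_lit 385068) (nat_lit 26) (.e (nat_lit 532484) (nat_lit 0) .nil))))) (.g (nat_lit 0) (.e (nat_lit 137805) (nat_lit 0) .nil) .nil)))) (.nd (nat_lit 9) 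
(.lf (nat_lit 487834) (.g (nat_lit 2463) (.e (nat_lit 16411) (nat_lit 2) (.e (nat_lit 196654) (nat_lit 11) (.e (nat_lit 16416) (nat_lit 3) (.e (nat_lit 204813) (nat_lit 9) (.e (nat_lit 426122) (nat_lit 2) (.e (nat_lit 196654) (nat_lit 11) .nil)))))) (.g (nat_lit 1) (.e (nat_lit 137273) (nat_lit 0) .nil) .nil))) 
(.lf (nat_lit 488346) (.g (nat_lit 2966) (.e (nat_lit 16433) (nat_lit 9) (.e (nat_lit 426478) (nat_lit 27) (.e (nat_lit 336389) (nat_lit 27) (.e (nat_lit 426098) (nat_lit 1) (.e (nat_lit 164327) (nat_lit 230) (.e (nat_lit 163868) (nat_lit 2) (.e (nat_lit 196654) (nat_lit 11) .nil))))))) (.g (nat_lit 1) (.e (nat_lit 138274) (nat_lit 0) .nil) .nil)))))) 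
(.nd (nat_lit 7) (.nd (nat_lit 8) (.nd (nat_lit 9) 
(.lf (nat_lit 487514) (.g (nat_lit 3653) (.e (nat_lit 24663) (nat_lit 14) (.e (nat_lit 401428) (nat_lit 3) (.e (nat_lit 204869) (nat_lit 29) (.e (nat_lit 360474) (nat_lit 8) (.e (nat_lit 557085) (nat_lit 11) .nil))))) (.g (nat_lit 1) (.e (nat_lit 135593) (nat_lit 0) .nil) .nil))) 
(.lf (nat_lit 488026) (.g (nat_lit 2964) (.e (nat_lit 16416) (nat_lit 3) (.e (nat_lit 204813) (nat_lit 9) (.e (nat_lit 426124) (nat_lit 2) (.e (nat_lit 196656) (nat_lit 11) (.e (nat_lit 16411) (nat_lit 2) (.e (nat_lit 196656) (nat_lit 11) .nil)))))) (.g (nat_lit 1) (.e (nat_lit 137739) (nat_lit 0) .nil) .nil)))) (.nd (nat_lit 9) 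
(.lf (nat_lit 487770) (.g (nat_lit 2393) (.e (nat_lit 16388) (nat_lit 0) (.e (nat_lit 3214) (nat_lit 195) (.e (nat_lit 516131) (nat_lit 3) (.e (nat_lit 221212) (nat_lit 22) (.e (nat_lit 196663) (nat_lit 13) (.e (nat_lit 65568) (nat_lit 2) (.e (nat_lit 98048) (nat_lit 2) .nil))))))) (.g (nat_lit 1) (.e (nat_lit 136869) (nat_lit 0) .nil) .nil))) 
(.lf (nat_lit 488282) (.g (nat_lit 531) (.e (nat_lit 16425) (nat_lit 7) (.e (nat_lit 409648) (nat_lit 18) (.e (nat_lit 303138) (nat_lit 10) .nil))) (.g (nat_lit 0) (.e (nat_lit 138150) (nat_lit 0) .nil) .nil))))) (.nd (nat_lit 8) (.nd (nat_lit 9) 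
(.lf (nat_lit 487642) (.g (nat_lit 3719) (.e (nat_lit 24665) (nat_lit 14) (.e (nat_lit 401448) (nat_lit 10) (.e (nat_lit 434291) (nat_lit 44) (.e (nat_lit 704738) (nat_lit 11) (.e (nat_lit 16386) (nat_lit 0) (.e (nat_lit 7377) (nat_lit 390) .nil)))))) (.g (nat_lit 1) (.e (nat_lit 136224) (nat_lit 0) .nil) .nil))) 
(.lf (nat_lit 488154) (.g (nat_lit 1578) (.e (nat_lit 16424) (nat_lit 7) (.e (nat_lit 409645) (nat_lit 18) (.e (nat_lit 303143) (nat_lit 12) (.e (nat_lit 475198) (nat_lit 40) .nil)))) (.g (nat_lit 0) (.e (nat_lit 137958) (nat_lit 0) .nil) .nil)))) (.nd (nat_lit 9) 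
(.lf (nat_lit 487898) (.g (nat_lit 3291) (.e (nat_lit 16412) (nat_lit 2) (.e (nat_lit 196666) (nat_lit 13) (.e (nat_lit 65610) (nat_lit 10) (.e (nat_lit 344129) (nat_lit 26) (.e (nat_lit 557074) (nat_lit 9) (.e (nat_lit 2739) (nat_lit 174) (.e (nat_lit 253988) (nat_lit 11) .nil))))))) (.g (nat_lit 1) (.e (nat_lit 137427) (nat_lit 0) .nil) .nil))) 
(.lf (nat_lit 488410) (.g (nat_lit 3140) (.e (nat_lit 16433) (nat_lit 9) (.e (nat_lit 426566) (nat_lit 34) (.e (nat_lit 393254) (nat_lit 18) (.e (nat_lit 164324) (nat_lit 230) (.e (nat_lit 163868) (nat_lit 2) (.e (nat_lit 196654) (nat_lit 11) .nil)))))) (.g (nat_lit 1) (.e (nat_lit 138344) (nat_lit 0) .nil) .nil))))))) (.nd (nat_lit 6) (.nd (nat_lit 7) (.nd (nat_lit 8) (.nd (nat_lit 9) 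
(.lf (nat_lit 487482) (.g (nat_lit 4316) (.e (nat_lit 24662) (nat_lit 14) (.e (nat_lit 401459) (nat_lit 13) (.e (nat_lit 483372) (nat_lit 21) (.e (nat_lit 319498) (nat_lit 10) .nil)))) (.g (nat_lit 0) (.e (nat_lit 135559) (nat_lit 0) .nil) .nil))) 
(.lf (nat_lit 487994) (.g (nat_lit 2817) (.e (nat_lit 16416) (nat_lit 3) (.e (nat_lit 204809) (nat_lit 9) (.e (nat_lit 426124) (nat_lit 2) (.e (nat_lit 196656) (nat_lit 11) (.e (nat_lit 16411) (nat_lit 2) (.e (nat_lit 196656) (nat_lit 11) .nil)))))) (.g (nat_lit 1) (.e (nat_lit 137701) (nat_lit 0) .nil) .nil)))) (.nd (nat_lit 9) 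
(.lf (nat_lit 487738) (.g (nat_lit 1790) (.e (nat_lit 24679) (nat_lit 27) (.e (nat_lit 426107) (nat_lit 1) (.e (nat_lit 164327) (nat_lit 230) (.e (nat_lit 163875) (nat_lit 3) .nil)))) (.g (nat_lit 0) (.e (nat_lit 136653) (nat_lit 0) .nil) .nil))) 
(.lf (nat_lit 488250) (.g (nat_lit 2519) (.e (nat_lit 16425) (nat_lit 7) (.e (nat_lit 409646) (nat_lit 18) (.e (nat_lit 303143) (nat_lit 12) (.e (nat_lit 475199) (nat_lit 40) (.e (nat_lit 704787) (nat_lit 14) (.e (nat_lit 2591) (nat_lit 162) (.e (nat_lit 49189) (nat_lit 11) .nil))))))) (.g (nat_lit 1) (.e (nat_lit 138113) (nat_lit 0) .nil) .nil))))) (.nd (nat_lit 8) (.nd (nat_lit 9) 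
(.lf (nat_lit 487610) (.g (nat_lit 1548) (.e (nat_lit 24665) (nat_lit 14) (.e (nat_lit 401448) (nat_lit 10) (.e (nat_lit 434209) (nat_lit 18) (.e (nat_lit 6387) (nat_lit 338) .nil)))) (.g (nat_lit 0) (.e (nat_lit 136152) (nat_lit 0) .nil) .nil))) 
(.lf (nat_lit 488122) (.g (nat_lit 3873) (.e (nat_lit 16416) (nat_lit 3) (.e (nat_lit 204869) (nat_lit 29) (.e (nat_lit 360474) (nat_lit 8) (.e (nat_lit 557072) (nat_lit 9) (.e (nat_lit 2741) (nat_lit 174) (.e (nat_lit 253990) (nat_lit 11) .nil)))))) (.g (nat_lit 1) (.e (nat_lit 137861) (nat_lit 0) .nil) .nil)))) (.nd (nat_lit 9) 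
(.lf (nat_lit 487866) (.g (nat_lit 3308) (.e (nat_lit 16412) (nat_lit 2) (.e (nat_lit 196654) (nat_lit 11) (.e (nat_lit 16416) (nat_lit 3) (.e (nat_lit 204813) (nat_lit 9) (.e (nat_lit 426114) (nat_lit 2) (.e (nat_lit 196654) (nat_lit 11) .nil)))))) (.g (nat_lit 1) (.e (nat_lit 137377) (nat_lit 0) .nil) .nil))) 
(.lf (nat_lit 488378) (.g (nat_lit 3089) (.e (nat_lit 16433) (nat_lit 9) (.e (nat_lit 426566) (nat_lit 34) (.e (nat_lit 393253) (nat_lit 18) (.e (nat_lit 164323) (nat_lit 230) .nil)))) (.g (nat_lit 0) (.e (nat_lit 138312) (nat_lit 0) .nil) .nil)))))) (.nd (nat_lit 7) (.nd (nat_lit 8) (.nd (nat_lit 9) 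
(.lf (nat_lit 487546) (.g (nat_lit 3186) (.e (nat_lit 24665) (nat_lit 14) (.e (nat_lit 401414) (nat_lit 0) (.e (nat_lit 3238) (nat_lit 197) (.e (nat_lit 532549) (nat_lit 12) (.e (nat_lit 360473) (nat_lit 8) (.e (nat_lit 564992) (nat_lit 11) .nil)))))) (.g (nat_lit 1) (.e (nat_lit 135731) (nat_lit 0) .nil) .nil))) 
(.lf (nat_lit 488058) (.g (nat_lit 5055) (.e (nat_lit 16416) (nat_lit 3) (.e (nat_lit 204837) (nat_lit 20) (.e (nat_lit 114718) (nat_lit 23) (.e (nat_lit 98334) (nat_lit 18) (.e (nat_lit 164330) (nat_lit 230) (.e (nat_lit 163869) (nat_lit 2) (.e (nat_lit 196654) (nat_lit 11) .nil))))))) (.g (nat_lit 1) (.e (nat_lit 137772) (nat_lit 0) .nil) .nil)))) (.nd (nat_lit 9) 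
(.lf (nat_lit 487802) (.g (nat_lit 1928) (.e (nat_lit 16409) (nat_lit 2) (.e (nat_lit 196654) (nat_lit 11) (.e (nat_lit 16416) (nat_lit 3) (.e (nat_lit 204813) (nat_lit 9) (.e (nat_lit 426116) (nat_lit 2) .nil))))) (.g (nat_lit 0) (.e (nat_lit 137122) (nat_lit 0) .nil) .nil))) 
(.lf (nat_lit 488314) (.g (nat_lit 2540) (.e (nat_lit 16425) (nat_lit 7) (.e (nat_lit 409649) (nat_lit 18) (.e (nat_lit 303140) (nat_lit 10) (.e (nat_lit 434275) (nat_lit 39) (.e (nat_lit 671488) (nat_lit 14) (.e (nat_lit 1162) (nat_lit 86) (.e (nat_lit 49185) (nat_lit 11) .nil))))))) (.g (nat_lit 1) (.e (nat_lit 138184) (nat_lit 0) .nil) .nil))))) (.nd (nat_lit 8) (.nd (nat_lit 9) 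
(.lf (nat_lit 487674) (.g (nat_lit 998) (.e (nat_lit 24665) (nat_lit 14) (.e (nat_lit 401469) (nat_lit 27) (.e (nat_lit 336403) (nat_lit 27) (.e (nat_lit 426260) (nat_lit 9) (.e (nat_lit 426126) (nat_lit 2) (.e (nat_lit 204544) (nat_lit 2) .nil)))))) (.g (nat_lit 1) (.e (nat_lit 136347) (nat_lit 0) .nil) .nil))) 
(.lf (nat_lit 488186) (.g (nat_lit 455) (.e (nat_lit 16425) (nat_lit 7) (.e (nat_lit 409617) (nat_lit 10) (.e (nat_lit 632) (nat_lit 50) .nil))) (.g (nat_lit 0) (.e (nat_lit 138024) (nat_lit 0) .nil) .nil)))) (.nd (nat_lit 9) 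
(.lf (nat_lit 487930) (.g (nat_lit 1948) (.e (nat_lit 16413) (nat_lit 2) (.e (nat_lit 196654) (nat_lit 11) (.e (nat_lit 16416) (nat_lit 3) (.e (nat_lit 204809) (nat_lit 9) (.e (nat_lit 426114) (nat_lit 2) (.e (nat_lit 196654) (nat_lit 11) .nil)))))) (.g (nat_lit 1) (.e (nat_lit 137498) (nat_lit 0) .nil) .nil))) 
(.lf (nat_lit 488442) (.g (nat_lit 1094) (.e (nat_lit 16433) (nat_lit 9) (.e (nat_lit 426568) (nat_lit 34) (.e (nat_lit 393252) (nat_lit 18) (.e (nat_lit 164305) (nat_lit 226) .nil)))) (.g (nat_lit 0) (.e (nat_lit 138378) (nat_lit 0) .nil) .nil)))))))))) (.nd (nat_lit 3) (.nd (nat_lit 4) (.nd (nat_lit 5) (.nd (nat_lit 6) (.nd (nat_lit 7) (.nd (nat_lit 8) (.nd (nat_lit 9) 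
(.lf (nat_lit 487430) (.g (nat_lit 4321) (.e (nat_lit 24662) (nat_lit 14) (.e (nat_lit 401425) (nat_lit 2) (.e (nat_lit 196666) (nat_lit 13) (.e (nat_lit 65610) (nat_lit 10) (.e (nat_lit 344097) (nat_lit 18) (.e (nat_lit 4056) (nat_lit 245) (.e (nat_lit 2555) (nat_lit 159) .nil))))))) (.g (nat_lit 1) (.e (nat_lit 135445) (nat_lit 0) .nil) .nil))) 
(.lf (nat_lit 487942) (.g (nat_lit 2250) (.e (nat_lit 16413) (nat_lit 2) (.e (nat_lit 196666) (nat_lit 13) (.e (nat_lit 65617) (nat_lit 10) (.e (nat_lit 344130) (nat_lit 26) (.e (nat_lit 557067) (nat_lit 9) (.e (nat_lit 2739) (nat_lit 174) (.e (nat_lit 253990) (nat_lit 11) .nil))))))) (.g (nat_lit 1) (.e (nat_lit 137520) (nat_lit 0) .nil) .nil)))) (.nd (nat_lit 9) 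
(.lf (nat_lit 487686) (.g (nat_lit 2828) (.e (nat_lit 24665) (nat_lit 14) (.e (nat_lit 401472) (nat_lit 28) (.e (nat_lit 344170) (nat_lit 41) (.e (nat_lit 753689) (nat_lit 9) (.e (nat_lit 172064) (nat_lit 2) (.e (nat_lit 204544) (nat_lit 2) .nil)))))) (.g (nat_lit 1) (.e (nat_lit 136380) (nat_lit 0) .nil) .nil))) 
(.lf (nat_lit 488198) (.g (nat_lit 2757) (.e (nat_lit 16425) (nat_lit 7) (.e (nat_lit 409617) (nat_lit 10) (.e (nat_lit 848) (nat_lit 73) (.e (nat_lit 761905) (nat_lit 16) (.e (nat_lit 172113) (nat_lit 10) (.e (nat_lit 434203) (nat_lit 18) (.e (nat_lit 6579) (nat_lit 351) (.e (nat_lit 1126) (nat_lit 83) .nil)))))))) (.g (nat_lit 1) (.e (nat_lit 138060) (nat_lit 0) .nil) .nil))))) 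
(.nd (nat_lit 8) (.nd (nat_lit 9) 
(.lf (nat_lit 487558) (.g (nat_lit 4217) (.e (nat_lit 24665) (nat_lit 14) (.e (nat_lit 401423) (nat_lit 2) (.e (nat_lit 196666) (nat_lit 13) (.e (nat_lit 65610) (nat_lit 10) (.e (nat_lit 344097) (nat_lit 18) (.e (nat_lit 4075) (nat_lit 245) (.e (nat_lit 2555) (nat_lit 159) .nil))))))) (.g (nat_lit 1) (.e (nat_lit 135871) (nat_lit 0) .nil) .nil))) 
(.lf (nat_lit 488070) (.g (nat_lit 4739) (.e (nat_lit 16416) (nat_lit 3) (.e (nat_lit 204838) (nat_lit 20) (.e (nat_lit 114718) (nat_lit 23) (.e (nat_lit 98333) (nat_lit 18) (.e (nat_lit 164325) (nat_lit 230) (.e (nat_lit 163868) (nat_lit 2) (.e (nat_lit 196656) (nat_lit 11) .nil))))))) (.g (nat_lit 1) (.e (nat_lit 137785) (nat_lit 0) .nil) .nil)))) (.nd (nat_lit 9) 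
(.lf (nat_lit 487814) (.g (nat_lit 2981) (.e (nat_lit 16410) (nat_lit 2) (.e (nat_lit 196654) (nat_lit 11) (.e (nat_lit 16416) (nat_lit 3) (.e (nat_lit 204813) (nat_lit 9) (.e (nat_lit 426123) (nat_lit 2) (.e (nat_lit 196653) (nat_lit 11) .nil)))))) (.g (nat_lit 1) (.e (nat_lit 137193) (nat_lit 0) .nil) .nil))) 
(.lf (nat_lit 488326) (.g (nat_lit 1862) (.e (nat_lit 16425) (nat_lit 7) (.e (nat_lit 409649) (nat_lit 18) (.e (nat_lit 303143) (nat_lit 12) (.e (nat_lit 475199) (nat_lit 40) (.e (nat_lit 704836) (nat_lit 14) (.e (nat_lit 2587) (nat_lit 162) (.e (nat_lit 49187) (nat_lit 11) .nil))))))) (.g (nat_lit 1) (.e (nat_lit 138196) (nat_lit 0) .nil) .nil)))))) 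
(.nd (nat_lit 7) (.nd (nat_lit 8) (.nd (nat_lit 9) 
(.lf (nat_lit 487494) (.g (nat_lit 3283) (.e (nat_lit 24662) (nat_lit 14) (.e (nat_lit 401459) (nat_lit 13) (.e (nat_lit 483372) (nat_lit 21) (.e (nat_lit 319513) (nat_lit 10) .nil)))) (.g (nat_lit 0) (.e (nat_lit 135571) (nat_lit 0) .nil) .nil))) 
(.lf (nat_lit 488006) (.g (nat_lit 3017) (.e (nat_lit 16416) (nat_lit 3) (.e (nat_lit 204809) (nat_lit 9) (.e (nat_lit 426139) (nat_lit 3) (.e (nat_lit 204813) (nat_lit 9) (.e (nat_lit 426116) (nat_lit 2) (.e (nat_lit 196656) (nat_lit 11) .nil)))))) (.g (nat_lit 1) (.e (nat_lit 137713) (nat_lit 0) .nil) .nil)))) (.nd (nat_lit 9) 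
(.lf (nat_lit 487750) (.g (nat_lit 2200) (.e (nat_lit 16385) (nat_lit 0) (.e (nat_lit 7583) (nat_lit 405) (.e (nat_lit 57464) (nat_lit 23) (.e (nat_lit 516165) (nat_lit 12) (.e (nat_lit 450586) (nat_lit 10) (.e (nat_lit 573470) (nat_lit 11) .nil)))))) (.g (nat_lit 1) (.e (nat_lit 136846) (nat_lit 0) .nil) .nil))) 
(.lf (nat_lit 488262) (.g (nat_lit 2857) (.e (nat_lit 16425) (nat_lit 7) (.e (nat_lit 409647) (nat_lit 18) (.e (nat_lit 303143) (nat_lit 12) (.e (nat_lit 475199) (nat_lit 40) (.e (nat_lit 704787) (nat_lit 14) (.e (nat_lit 2591) (nat_lit 162) (.e (nat_lit 49189) (nat_lit 11) .nil))))))) (.g (nat_lit 1) (.e (nat_lit 138125) (nat_lit 0) .nil) .nil))))) (.nd (nat_lit 8) (.nd (nat_lit 9) 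
(.lf (nat_lit 487622) (.g (nat_lit 4444) (.e (nat_lit 24665) (nat_lit 14) (.e (nat_lit 401448) (nat_lit 10) (.e (nat_lit 434289) (nat_lit 43) (.e (nat_lit 696343) (nat_lit 8) (.e (nat_lit 172034) (nat_lit 0) (.e (nat_lit 7378) (nat_lit 390) .nil)))))) (.g (nat_lit 1) (.e (nat_lit 136190) (nat_lit 0) .nil) .nil))) 
(.lf (nat_lit 488134) (.g (nat_lit 1226) (.e (nat_lit 16417) (nat_lit 3) (.e (nat_lit 204868) (nat_lit 29) (.e (nat_lit 360466) (nat_lit 3) (.e (nat_lit 516119) (nat_lit 1) .nil)))) (.g (nat_lit 0) (.e (nat_lit 137918) (nat_lit 0) .nil) .nil)))) (.nd (nat_lit 9) 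
(.lf (nat_lit 487878) (.g (nat_lit 3129) (.e (nat_lit 16412) (nat_lit 2) (.e (nat_lit 196663) (nat_lit 13) (.e (nat_lit 65630) (nat_lit 14) (.e (nat_lit 401425) (nat_lit 2) (.e (nat_lit 196630) (nat_lit 9) (.e (nat_lit 202) (nat_lit 17) (.e (nat_lit 253992) (nat_lit 11) .nil))))))) (.g (nat_lit 1) (.e (nat_lit 137407) (nat_lit 0) .nil) .nil))) 
(.lf (nat_lit 488390) (.g (nat_lit 3953) (.e (nat_lit 16433) (nat_lit 9) (.e (nat_lit 426566) (nat_lit 34) (.e (nat_lit 393253) (nat_lit 18) (.e (nat_lit 164327) (nat_lit 230) (.e (nat_lit 163868) (nat_lit 2) (.e (nat_lit 196656) (nat_lit 11) .nil)))))) (.g (nat_lit 1) (.e (nat_lit 138324) (nat_lit 0) .nil) .nil))))))) (.nd (nat_lit 6) (.nd (nat_lit 7) (.nd (nat_lit 8) (.nd (nat_lit 9) 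
(.lf (nat_lit 487462) (.g (nat_lit 1824) (.e (nat_lit 24662) (nat_lit 14) (.e (nat_lit 401459) (nat_lit 13) (.e (nat_lit 483344) (nat_lit 17) (.e (nat_lit 6084) (nat_lit 332) (.e (nat_lit 1016) (nat_lit 81) .nil))))) (.g (nat_lit 0) (.e (nat_lit 135538) (nat_lit 0) .nil) .nil))) 
(.lf (nat_lit 487974) (.g (nat_lit 1227) (.e (nat_lit 16415) (nat_lit 3) (.e (nat_lit 204861) (nat_lit 26) (.e (nat_lit 336076) (nat_lit 9) (.e (nat_lit 336316) (nat_lit 17) .nil)))) (.g (nat_lit 0) (.e (nat_lit 137659) (nat_lit 0) .nil) .nil)))) (.nd (nat_lit 9) 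
(.lf (nat_lit 487718) (.g (nat_lit 2031) (.e (nat_lit 32512) (nat_lit 18) (.e (nat_lit 204863) (nat_lit 27) (.e (nat_lit 344130) (nat_lit 26) (.e (nat_lit 557103) (nat_lit 14) (.e (nat_lit 188160) (nat_lit 1) .nil))))) (.g (nat_lit 0) (.e (nat_lit 136475) (nat_lit 0) .nil) .nil))) 
(.lf (nat_lit 488230) (.g (nat_lit 3291) (.e (nat_lit 16425) (nat_lit 7) (.e (nat_lit 409645) (nat_lit 18) (.e (nat_lit 303143) (nat_lit 12) (.e (nat_lit 475199) (nat_lit 40) (.e (nat_lit 704772) (nat_lit 14) (.e (nat_lit 7936) (nat_lit 162) (.e (nat_lit 49189) (nat_lit 11) .nil))))))) (.g (nat_lit 1) (.e (nat_lit 138093) (nat_lit 0) .nil) .nil))))) (.nd (nat_lit 8) (.nd (nat_lit 9) 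
(.lf (nat_lit 487590) (.g (nat_lit 2369) (.e (nat_lit 24665) (nat_lit 14) (.e (nat_lit 401440) (nat_lit 9) (.e (nat_lit 426158) (nat_lit 6) (.e (nat_lit 253991) (nat_lit 11) (.e (nat_lit 16388) (nat_lit 0) (.e (nat_lit 7379) (nat_lit 390) .nil)))))) (.g (nat_lit 1) (.e (nat_lit 136062) (nat_lit 0) .nil) .nil))) 
(.lf (nat_lit 488102) (.g (nat_lit 2849) (.e (nat_lit 16416) (nat_lit 3) (.e (nat_lit 204861) (nat_lit 26) (.e (nat_lit 336194) (nat_lit 12) (.e (nat_lit 385067) (nat_lit 26) (.e (nat_lit 532508) (nat_lit 2) (.e (nat_lit 106534) (nat_lit 11) .nil)))))) (.g (nat_lit 1) (.e (nat_lit 137837) (nat_lit 0) .nil) .nil)))) (.nd (nat_lit 9) 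
(.lf (nat_lit 487846) (.g (nat_lit 1434) (.e (nat_lit 16411) (nat_lit 2) (.e (nat_lit 196672) (nat_lit 15) (.e (nat_lit 81954) (nat_lit 23) (.e (nat_lit 98321) (nat_lit 17) (.e (nat_lit 2437) (nat_lit 157) .nil))))) (.g (nat_lit 0) (.e (nat_lit 137319) (nat_lit 0) .nil) .nil))) 
(.lf (nat_lit 488358) (.g (nat_lit 3622) (.e (nat_lit 16433) (nat_lit 9) (.e (nat_lit 426566) (nat_lit 34) (.e (nat_lit 393251) (nat_lit 18) (.e (nat_lit 164325) (nat_lit 230) (.e (nat_lit 163869) (nat_lit 2) (.e (nat_lit 196654) (nat_lit 11) .nil)))))) (.g (nat_lit 1) (.e (nat_lit 138290) (nat_lit 0) .nil) .nil)))))) (.nd (nat_lit 7) (.nd (nat_lit 8) (.nd (nat_lit 9) 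
(.lf (nat_lit 487526) (.g (nat_lit 2852) (.e (nat_lit 24664) (nat_lit 14) (.e (nat_lit 401428) (nat_lit 3) (.e (nat_lit 204868) (nat_lit 29) (.e (nat_lit 360473) (nat_lit 8) (.e (nat_lit 557085) (nat_lit 11) .nil))))) (.g (nat_lit 1) (.e (nat_lit 135629) (nat_lit 0) .nil) .nil))) 
(.lf (nat_lit 488038) (.g (nat_lit 3896) (.e (nat_lit 16416) (nat_lit 3) (.e (nat_lit 204813) (nat_lit 9) (.e (nat_lit 426133) (nat_lit 3) (.e (nat_lit 204813) (nat_lit 9) (.e (nat_lit 426124) (nat_lit 2) (.e (nat_lit 196654) (nat_lit 11) .nil)))))) (.g (nat_lit 1) (.e (nat_lit 137751) (nat_lit 0) .nil) .nil)))) (.nd (nat_lit 9) 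
(.lf (nat_lit 487782) (.g (nat_lit 2306) (.e (nat_lit 16388) (nat_lit 0) (.e (nat_lit 7377) (nat_lit 390) (.e (nat_lit 24665) (nat_lit 14) (.e (nat_lit 401440) (nat_lit 9) (.e (nat_lit 426162) (nat_lit 6) .nil))))) (.g (nat_lit 0) (.e (nat_lit 136897) (nat_lit 0) .nil) .nil))) 
(.lf (nat_lit 488294) (.g (nat_lit 2837) (.e (nat_lit 16425) (nat_lit 7) (.e (nat_lit 409648) (nat_lit 18) (.e (nat_lit 303143) (nat_lit 12) (.e (nat_lit 475199) (nat_lit 40) (.e (nat_lit 704814) (nat_lit 14) .nil))))) (.g (nat_lit 0) (.e (nat_lit 138162) (nat_lit 0) .nil) .nil))))) (.nd (nat_lit 8) (.nd (nat_lit 9) 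
(.lf (nat_lit 487654) (.g (nat_lit 3937) (.e (nat_lit 24665) (nat_lit 14) (.e (nat_lit 401451) (nat_lit 12) (.e (nat_lit 475212) (nat_lit 42) (.e (nat_lit 720955) (nat_lit 25) (.e (nat_lit 114727) (nat_lit 28) (.e (nat_lit 147494) (nat_lit 11) .nil)))))) (.g (nat_lit 1) (.e (nat_lit 136252) (nat_lit 0) .nil) .nil))) 
(.lf (nat_lit 488166) (.g (nat_lit 1121) (.e (nat_lit 16424) (nat_lit 7) (.e (nat_lit 409646) (nat_lit 18) (.e (nat_lit 303133) (nat_lit 9) .nil))) (.g (nat_lit 0) (.e (nat_lit 137980) (nat_lit 0) .nil) .nil)))) (.nd (nat_lit 9) 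
(.lf (nat_lit 487910) (.g (nat_lit 2930) (.e (nat_lit 16412) (nat_lit 2) (.e (nat_lit 196674) (nat_lit 15) (.e (nat_lit 81946) (nat_lit 20) (.e (nat_lit 1858) (nat_lit 124) (.e (nat_lit 557116) (nat_lit 18) (.e (nat_lit 1157) (nat_lit 86) (.e (nat_lit 49189) (nat_lit 11) .nil))))))) (.g (nat_lit 1) (.e (nat_lit 137445) (nat_lit 0) .nil) .nil))) 
(.lf (nat_lit 488422) (.g (nat_lit 3434) (.e (nat_lit 16433) (nat_lit 9) (.e (nat_lit 426566) (nat_lit 34) (.e (nat_lit 393254) (nat_lit 18) (.e (nat_lit 164327) (nat_lit 230) (.e (nat_lit 163871) (nat_lit 2) (.e (nat_lit 196654) (nat_lit 11) .nil)))))) (.g (nat_lit 1) (.e (nat_lit 138356) (nat_lit 0) .nil) .nil)))))))) 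
(.nd (nat_lit 5) (.nd (nat_lit 6) (.nd (nat_lit 7) (.nd (nat_lit 8) (.nd (nat_lit 9) 
(.lf (nat_lit 487446) (.g (nat_lit 2796) (.e (nat_lit 24662) (nat_lit 14) (.e (nat_lit 401426) (nat_lit 3) (.e (nat_lit 204868) (nat_lit 29) (.e (nat_lit 360475) (nat_lit 8) (.e (nat_lit 557087) (nat_lit 11) .nil))))) (.g (nat_lit 1) (.e (nat_lit 135468) (nat_lit 0) .nil) .nil))) 
(.lf (nat_lit 487958) (.g (nat_lit 423) (.e (nat_lit 16413) (nat_lit 2) (.e (nat_lit 196674) (nat_lit 15) (.e (nat_lit 81922) (nat_lit 0) .nil))) (.g (nat_lit 0) (.e (nat_lit 137538) (nat_lit 0) .nil) .nil)))) (.nd (nat_lit 9) 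
(.lf (nat_lit 487702) (.g (nat_lit 1680) (.e (nat_lit 32512) (nat_lit 18) (.e (nat_lit 204862) (nat_lit 27) (.e (nat_lit 344130) (nat_lit 26) (.e (nat_lit 557104) (nat_lit 14) (.e (nat_lit 188160) (nat_lit 1) .nil))))) (.g (nat_lit 0) (.e (nat_lit 136459) (nat_lit 0) .nil) .nil))) 
(.lf (nat_lit 488214) (.g (nat_lit 2583) (.e (nat_lit 16425) (nat_lit 7) (.e (nat_lit 409643) (nat_lit 18) (.e (nat_lit 303143) (nat_lit 12) (.e (nat_lit 475199) (nat_lit 40) (.e (nat_lit 704814) (nat_lit 14) (.e (nat_lit 2587) (nat_lit 162) (.e (nat_lit 49189) (nat_lit 11) .nil))))))) (.g (nat_lit 1) (.e (nat_lit 138077) (nat_lit 0) .nil) .nil))))) (.nd (nat_lit 8) (.nd (nat_lit 9) 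
(.lf (nat_lit 487574) (.g (nat_lit 4263) (.e (nat_lit 24665) (nat_lit 14) (.e (nat_lit 401426) (nat_lit 3) (.e (nat_lit 204869) (nat_lit 29) (.e (nat_lit 360475) (nat_lit 8) (.e (nat_lit 557085) (nat_lit 11) .nil))))) (.g (nat_lit 1) (.e (nat_lit 135935) (nat_lit 0) .nil) .nil))) 
(.lf (nat_lit 488086) (.g (nat_lit 5095) (.e (nat_lit 16416) (nat_lit 3) (.e (nat_lit 204838) (nat_lit 20) (.e (nat_lit 114719) (nat_lit 23) (.e (nat_lit 98334) (nat_lit 18) (.e (nat_lit 164332) (nat_lit 230) (.e (nat_lit 163869) (nat_lit 2) (.e (nat_lit 196656) (nat_lit 11) .nil))))))) (.g (nat_lit 1) (.e (nat_lit 137801) (nat_lit 0) .nil) .nil)))) (.nd (nat_lit 9) 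
(.lf (nat_lit 487830) (.g (nat_lit 1036) (.e (nat_lit 16411) (nat_lit 2) (.e (nat_lit 196654) (nat_lit 11) (.e (nat_lit 16416) (nat_lit 3) (.e (nat_lit 204813) (nat_lit 9) .nil)))) (.g (nat_lit 0) (.e (nat_lit 137267) (nat_lit 0) .nil) .nil))) 
(.lf (nat_lit 488342) (.g (nat_lit 5095) (.e (nat_lit 16433) (nat_lit 9) (.e (nat_lit 426361) (nat_lit 15) (.e (nat_lit 1860) (nat_lit 124) (.e (nat_lit 557100) (nat_lit 13) (.e (nat_lit 172113) (nat_lit 10) (.e (nat_lit 434248) (nat_lit 28) (.e (nat_lit 573471) (nat_lit 11) .nil))))))) (.g (nat_lit 1) (.e (nat_lit 138262) (nat_lit 0) .nil) .nil)))))) 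
(.nd (nat_lit 7) (.nd (nat_lit 8) (.nd (nat_lit 9) 
(.lf (nat_lit 487510) (.g (nat_lit 2195) (.e (nat_lit 24662) (nat_lit 14) (.e (nat_lit 401459) (nat_lit 13) (.e (nat_lit 483411) (nat_lit 27) (.e (nat_lit 401416) (nat_lit 0) .nil)))) (.g (nat_lit 0) (.e (nat_lit 135589) (nat_lit 0) .nil) .nil))) 
(.lf (nat_lit 488022) (.g (nat_lit 3555) (.e (nat_lit 16416) (nat_lit 3) (.e (nat_lit 204813) (nat_lit 9) (.e (nat_lit 426124) (nat_lit 2) (.e (nat_lit 196654) (nat_lit 11) (.e (nat_lit 16412) (nat_lit 2) (.e (nat_lit 196656) (nat_lit 11) .nil)))))) (.g (nat_lit 1) (.e (nat_lit 137735) (nat_lit 0) .nil) .nil)))) (.nd (nat_lit 9) 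
(.lf (nat_lit 487766) (.g (nat_lit 2877) (.e (nat_lit 16388) (nat_lit 0) (.e (nat_lit 3213) (nat_lit 195) (.e (nat_lit 516131) (nat_lit 3) (.e (nat_lit 221211) (nat_lit 22) (.e (nat_lit 196666) (nat_lit 13) (.e (nat_lit 65568) (nat_lit 2) (.e (nat_lit 98048) (nat_lit 2) .nil))))))) (.g (nat_lit 1) (.e (nat_lit 136865) (nat_lit 0) .nil) .nil))) 
(.lf (nat_lit 488278) (.g (nat_lit 1812) (.e (nat_lit 16425) (nat_lit 7) (.e (nat_lit 409648) (nat_lit 18) (.e (nat_lit 303137) (nat_lit 10) (.e (nat_lit 434275) (nat_lit 39) (.e (nat_lit 671488) (nat_lit 14) (.e (nat_lit 7936) (nat_lit 86) (.e (nat_lit 49189) (nat_lit 11) .nil))))))) (.g (nat_lit 1) (.e (nat_lit 138146) (nat_lit 0) .nil) .nil))))) (.nd (nat_lit 8) (.nd (nat_lit 9) 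
(.lf (nat_lit 487638) (.g (nat_lit 3708) (.e (nat_lit 24665) (nat_lit 14) (.e (nat_lit 401448) (nat_lit 10) (.e (nat_lit 434291) (nat_lit 44) (.e (nat_lit 704737) (nat_lit 11) (.e (nat_lit 16388) (nat_lit 0) (.e (nat_lit 7379) (nat_lit 390) .nil)))))) (.g (nat_lit 1) (.e (nat_lit 136216) (nat_lit 0) .nil) .nil))) 
(.lf (nat_lit 488150) (.g (nat_lit 2227) (.e (nat_lit 16424) (nat_lit 7) (.e (nat_lit 409645) (nat_lit 18) (.e (nat_lit 303133) (nat_lit 9) (.e (nat_lit 426412) (nat_lit 15) (.e (nat_lit 2233) (nat_lit 146) (.e (nat_lit 737318) (nat_lit 15) (.e (nat_lit 49189) (nat_lit 11) .nil))))))) (.g (nat_lit 1) (.e (nat_lit 137954) (nat_lit 0) .nil) .nil)))) (.nd (nat_lit 9) 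
(.lf (nat_lit 487894) (.g (nat_lit 2975) (.e (nat_lit 16412) (nat_lit 2) (.e (nat_lit 196666) (nat_lit 13) (.e (nat_lit 65610) (nat_lit 10) (.e (nat_lit 344129) (nat_lit 26) (.e (nat_lit 557069) (nat_lit 9) (.e (nat_lit 2739) (nat_lit 174) (.e (nat_lit 253990) (nat_lit 11) .nil))))))) (.g (nat_lit 1) (.e (nat_lit 137423) (nat_lit 0) .nil) .nil))) 
(.lf (nat_lit 488406) (.g (nat_lit 2013) (.e (nat_lit 16433) (nat_lit 9) (.e (nat_lit 426566) (nat_lit 34) (.e (nat_lit 393254) (nat_lit 18) (.e (nat_lit 164322) (nat_lit 230) (.e (nat_lit 163867) (nat_lit 2) (.e (nat_lit 196652) (nat_lit 11) .nil)))))) (.g (nat_lit 1) (.e (nat_lit 138340) (nat_lit 0) .nil) .nil))))))) (.nd (nat_lit 6) (.nd (nat_lit 7) (.nd (nat_lit 8) (.nd (nat_lit 9) 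
(.lf (nat_lit 487478) (.g (nat_lit 2838) (.e (nat_lit 24662) (nat_lit 14) (.e (nat_lit 401459) (nat_lit 13) (.e (nat_lit 483371) (nat_lit 21) (.e (nat_lit 319504) (nat_lit 10) (.e (nat_lit 7936) (nat_lit 314) .nil))))) (.g (nat_lit 1) (.e (nat_lit 135555) (nat_lit 0) .nil) .nil))) 
(.lf (nat_lit 487990) (.g (nat_lit 2377) (.e (nat_lit 16416) (nat_lit 3) (.e (nat_lit 204809) (nat_lit 9) (.e (nat_lit 426123) (nat_lit 2) (.e (nat_lit 196654) (nat_lit 11) (.e (nat_lit 16412) (nat_lit 2) (.e (nat_lit 196654) (nat_lit 11) .nil)))))) (.g (nat_lit 1) (.e (nat_lit 137696) (nat_lit 0) .nil) .nil)))) (.nd (nat_lit 9) 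
(.lf (nat_lit 487734) (.g (nat_lit 2649) (.e (nat_lit 24677) (nat_lit 27) (.e (nat_lit 426163) (nat_lit 6) (.e (nat_lit 253991) (nat_lit 11) (.e (nat_lit 16388) (nat_lit 0) (.e (nat_lit 3215) (nat_lit 195) .nil))))) (.g (nat_lit 0) (.e (nat_lit 136605) (nat_lit 0) .nil) .nil))) 
(.lf (nat_lit 488246) (.g (nat_lit 2239) (.e (nat_lit 16425) (nat_lit 7) (.e (nat_lit 409646) (nat_lit 18) (.e (nat_lit 303143) (nat_lit 12) (.e (nat_lit 475198) (nat_lit 40) (.e (nat_lit 704770) (nat_lit 14) .nil))))) (.g (nat_lit 0) (.e (nat_lit 138109) (nat_lit 0) .nil) .nil))))) (.nd (nat_lit 8) (.nd (nat_lit 9) 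
(.lf (nat_lit 487606) (.g (nat_lit 835) (.e (nat_lit 24665) (nat_lit 14) (.e (nat_lit 401448) (nat_lit 10) (.e (nat_lit 434203) (nat_lit 18) .nil))) (.g (nat_lit 0) (.e (nat_lit 136145) (nat_lit 0) .nil) .nil))) 
(.lf (nat_lit 488118) (.g (nat_lit 2776) (.e (nat_lit 16416) (nat_lit 3) (.e (nat_lit 204869) (nat_lit 29) (.e (nat_lit 360450) (nat_lit 0) (.e (nat_lit 4153) (nat_lit 249) (.e (nat_lit 163891) (nat_lit 8) .nil))))) (.g (nat_lit 0) (.e (nat_lit 137857) (nat_lit 0) .nil) .nil)))) (.nd (nat_lit 9) 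
(.lf (nat_lit 487862) (.g (nat_lit 2696) (.e (nat_lit 16412) (nat_lit 2) (.e (nat_lit 196654) (nat_lit 11) (.e (nat_lit 16415) (nat_lit 3) (.e (nat_lit 204813) (nat_lit 9) (.e (nat_lit 426121) (nat_lit 2) (.e (nat_lit 196656) (nat_lit 11) .nil)))))) (.g (nat_lit 1) (.e (nat_lit 137370) (nat_lit 0) .nil) .nil))) 
(.lf (nat_lit 488374) (.g (nat_lit 2903) (.e (nat_lit 16433) (nat_lit 9) (.e (nat_lit 426566) (nat_lit 34) (.e (nat_lit 393253) (nat_lit 18) (.e (nat_lit 164305) (nat_lit 226) .nil)))) (.g (nat_lit 0) (.e (nat_lit 138308) (nat_lit 0) .nil) .nil)))))) (.nd (nat_lit 7) (.nd (nat_lit 8) (.nd (nat_lit 9) 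
(.lf (nat_lit 487542) (.g (nat_lit 1741) (.e (nat_lit 24664) (nat_lit 14) (.e (nat_lit 401448) (nat_lit 10) (.e (nat_lit 434289) (nat_lit 43) (.e (nat_lit 696344) (nat_lit 8) .nil)))) (.g (nat_lit 0) (.e (nat_lit 135650) (nat_lit 0) .nil) .nil))) 
(.lf (nat_lit 488054) (.g (nat_lit 4447) (.e (nat_lit 16416) (nat_lit 3) (.e (nat_lit 204837) (nat_lit 20) (.e (nat_lit 114718) (nat_lit 23) (.e (nat_lit 98333) (nat_lit 18) (.e (nat_lit 164325) (nat_lit 230) (.e (nat_lit 163871) (nat_lit 2) (.e (nat_lit 196656) (nat_lit 11) .nil))))))) (.g (nat_lit 1) (.e (nat_lit 137768) (nat_lit 0) .nil) .nil)))) (.nd (nat_lit 9) 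
(.lf (nat_lit 487798) (.g (nat_lit 2288) (.e (nat_lit 16407) (nat_lit 1) (.e (nat_lit 164396) (nat_lit 256) (.e (nat_lit 57409) (nat_lit 12) (.e (nat_lit 336443) (nat_lit 32) (.e (nat_lit 466977) (nat_lit 22) .nil))))) (.g (nat_lit 0) (.e (nat_lit 137109) (nat_lit 0) .nil) .nil))) 
(.lf (nat_lit 488310) (.g (nat_lit 3596) (.e (nat_lit 16425) (nat_lit 7) (.e (nat_lit 409649) (nat_lit 18) (.e (nat_lit 303140) (nat_lit 10) (.e (nat_lit 434275) (nat_lit 39) (.e (nat_lit 663580) (nat_lit 9) (.e (nat_lit 2478) (nat_lit 157) (.e (nat_lit 7936) (nat_lit 218) (.e (nat_lit 704732) (nat_lit 11) .nil)))))))) (.g (nat_lit 1) (.e (nat_lit 138180) (nat_lit 0) .nil) .nil))))) 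
(.nd (nat_lit 8) (.nd (nat_lit 9) 
(.lf (nat_lit 487670) (.g (nat_lit 1873) (.e (nat_lit 24665) (nat_lit 14) (.e (nat_lit 409344) (nat_lit 18) (.e (nat_lit 98365) (nat_lit 26) (.e (nat_lit 426306) (nat_lit 12) (.e (nat_lit 483072) (nat_lit 2) .nil))))) (.g (nat_lit 1) (.e (nat_lit 136338) (nat_lit 0) .nil) .nil))) 
(.lf (nat_lit 488182) (.g (nat_lit 3458) (.e (nat_lit 16425) (nat_lit 7) (.e (nat_lit 409616) (nat_lit 10) (.e (nat_lit 632) (nat_lit 50) (.e (nat_lit 573493) (nat_lit 15) (.e (nat_lit 81959) (nat_lit 24) (.e (nat_lit 123046) (nat_lit 146) (.e (nat_lit 1122) (nat_lit 83) .nil))))))) (.g (nat_lit 1) (.e (nat_lit 138020) (nat_lit 0) .nil) .nil)))) (.nd (nat_lit 9) 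
(.lf (nat_lit 487926) (.g (nat_lit 1360) (.e (nat_lit 16412) (nat_lit 2) (.e (nat_lit 196681) (nat_lit 17) (.e (nat_lit 131109) (nat_lit 9) (.e (nat_lit 336326) (nat_lit 18) (.e (nat_lit 204819) (nat_lit 17) .nil))))) (.g (nat_lit 0) (.e (nat_lit 137479) (nat_lit 0) .nil) .nil))) 
(.lf (nat_lit 488438) (.g (nat_lit 3344) (.e (nat_lit 16433) (nat_lit 9) (.e (nat_lit 426568) (nat_lit 34) (.e (nat_lit 393251) (nat_lit 18) (.e (nat_lit 164332) (nat_lit 230) (.e (nat_lit 163867) (nat_lit 2) (.e (nat_lit 196654) (nat_lit 11) .nil)))))) (.g (nat_lit 1) (.e (nat_lit 138374) (nat_lit 0) .nil) .nil))))))))) 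
(.nd (nat_lit 4) (.nd (nat_lit 5) (.nd (nat_lit 6) (.nd (nat_lit 7) (.nd (nat_lit 8) 
(.nd (nat_lit 9) 
(.lf (nat_lit 487438) (.g (nat_lit 4254) (.e (nat_lit 24662) (nat_lit 14) (.e (nat_lit 401425) (nat_lit 2) (.e (nat_lit 196666) (nat_lit 13) (.e (nat_lit 65610) (nat_lit 10) (.e (nat_lit 344097) (nat_lit 18) (.e (nat_lit 4075) (nat_lit 245) (.e (nat_lit 2555) (nat_lit 159) .nil))))))) (.g (nat_lit 1) (.e (nat_lit 135457) (nat_lit 0) .nil) .nil))) 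
(.lf (nat_lit 487950) (.g (nat_lit 2637) (.e (nat_lit 16413) (nat_lit 2) (.e (nat_lit 196666) (nat_lit 13) (.e (nat_lit 65624) (nat_lit 12) (.e (nat_lit 385066) (nat_lit 26) (.e (nat_lit 532509) (nat_lit 2) .nil))))) (.g (nat_lit 0) (.e (nat_lit 137528) (nat_lit 0) .nil) .nil)))) (.nd (nat_lit 9) 
(.lf (nat_lit 487694) (.g (nat_lit 3163) (.e (nat_lit 32512) (nat_lit 14) (.e (nat_lit 401459) (nat_lit 13) (.e (nat_lit 483372) (nat_lit 21) (.e (nat_lit 319511) (nat_lit 10) .nil)))) (.g (nat_lit 0) (.e (nat_lit 136388) (nat_lit 0) .nil) .nil))) 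
(.lf (nat_lit 488206) (.g (nat_lit 2228) (.e (nat_lit 16425) (nat_lit 7) (.e (nat_lit 409643) (nat_lit 18) (.e (nat_lit 303143) (nat_lit 12) (.e (nat_lit 475199) (nat_lit 40) (.e (nat_lit 704770) (nat_lit 14) .nil))))) (.g (nat_lit 0) (.e (nat_lit 138069) (nat_lit 0) .nil) .nil))))) (.nd (nat_lit 8) (.nd (nat_lit 9) 
(.lf (nat_lit 487566) (.g (nat_lit 3881) (.e (nat_lit 24665) (nat_lit 14) (.e (nat_lit 401424) (nat_lit 2) (.e (nat_lit 196666) (nat_lit 13) (.e (nat_lit 65610) (nat_lit 10) (.e (nat_lit 344129) (nat_lit 26) (.e (nat_lit 557085) (nat_lit 11) .nil)))))) (.g (nat_lit 1) (.e (nat_lit 135899) (nat_lit 0) .nil) .nil))) 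
(.lf (nat_lit 488078) (.g (nat_lit 4918) (.e (nat_lit 16416) (nat_lit 3) (.e (nat_lit 204838) (nat_lit 20) (.e (nat_lit 114718) (nat_lit 23) (.e (nat_lit 98334) (nat_lit 18) (.e (nat_lit 164332) (nat_lit 230) (.e (nat_lit 163869) (nat_lit 2) (.e (nat_lit 196656) (nat_lit 11) .nil))))))) (.g (nat_lit 1) (.e (nat_lit 137793) (nat_lit 0) .nil) .nil)))) (.nd (nat_lit 9) 
(.lf (nat_lit 487822) (.g (nat_lit 417) (.e (nat_lit 16410) (nat_lit 2) (.e (nat_lit 196681) (nat_lit 17) (.e (nat_lit 131105) (nat_lit 9) .nil))) (.g (nat_lit 0) (.e (nat_lit 137209) (nat_lit 0) .nil) .nil))) 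
(.lf (nat_lit 488334) (.g (nat_lit 2532) (.e (nat_lit 16431) (nat_lit 9) (.e (nat_lit 426140) (nat_lit 3) (.e (nat_lit 204885) (nat_lit 33) (.e (nat_lit 401448) (nat_lit 10) (.e (nat_lit 434244) (nat_lit 28) (.e (nat_lit 573471) (nat_lit 11) .nil)))))) (.g (nat_lit 1) (.e (nat_lit 138242) (nat_lit 0) .nil) .nil)))))) (.nd (nat_lit 7) (.nd (nat_lit 8) (.nd (nat_lit 9) 
(.lf (nat_lit 487502) (.g (nat_lit 1745) (.e (nat_lit 24662) (nat_lit 14) (.e (nat_lit 401459) (nat_lit 13) (.e (nat_lit 483410) (nat_lit 27) (.e (nat_lit 401410) (nat_lit 0) .nil)))) (.g (nat_lit 0) (.e (nat_lit 135581) (nat_lit 0) .nil) .nil))) 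
(.lf (nat_lit 488014) (.g (nat_lit 3449) (.e (nat_lit 16416) (nat_lit 3) (.e (nat_lit 204813) (nat_lit 9) (.e (nat_lit 426116) (nat_lit 2) (.e (nat_lit 196654) (nat_lit 11) (.e (nat_lit 16412) (nat_lit 2) (.e (nat_lit 196656) (nat_lit 11) .nil)))))) (.g (nat_lit 1) (.e (nat_lit 137723) (nat_lit 0) .nil) .nil)))) (.nd (nat_lit 9) 
(.lf (nat_lit 487758) (.g (nat_lit 3587) (.e (nat_lit 16388) (nat_lit 0) (.e (nat_lit 3208) (nat_lit 195) (.e (nat_lit 516129) (nat_lit 3) (.e (nat_lit 221210) (nat_lit 22) (.e (nat_lit 196666) (nat_lit 13) (.e (nat_lit 65568) (nat_lit 2) (.e (nat_lit 98048) (nat_lit 2) .nil))))))) (.g (nat_lit 1) (.e (nat_lit 136857) (nat_lit 0) .nil) .nil))) 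
(.lf (nat_lit 488270) (.g (nat_lit 2346) (.e (nat_lit 16425) (nat_lit 7) (.e (nat_lit 409648) (nat_lit 18) (.e (nat_lit 303133) (nat_lit 9) (.e (nat_lit 426412) (nat_lit 15) (.e (nat_lit 2233) (nat_lit 146) .nil))))) (.g (nat_lit 0) (.e (nat_lit 138133) (nat_lit 0) .nil) .nil))))) (.nd (nat_lit 8) (.nd (nat_lit 9) 
(.lf (nat_lit 487630) (.g (nat_lit 2442) (.e (nat_lit 24665) (nat_lit 14) (.e (nat_lit 401448) (nat_lit 10) (.e (nat_lit 434289) (nat_lit 43) (.e (nat_lit 696344) (nat_lit 8) (.e (nat_lit 172036) (nat_lit 0) (.e (nat_lit 7936) (nat_lit 390) .nil)))))) (.g (nat_lit 1) (.e (nat_lit 136198) (nat_lit 0) .nil) .nil))) 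
(.lf (nat_lit 488142) (.g (nat_lit 4250) (.e (nat_lit 16417) (nat_lit 3) (.e (nat_lit 204869) (nat_lit 29) (.e (nat_lit 360475) (nat_lit 8) (.e (nat_lit 557065) (nat_lit 9) (.e (nat_lit 2741) (nat_lit 174) .nil))))) (.g (nat_lit 0) (.e (nat_lit 137932) (nat_lit 0) .nil) .nil)))) (.nd (nat_lit 9) 
(.lf (nat_lit 487886) (.g (nat_lit 3853) (.e (nat_lit 16412) (nat_lit 2) (.e (nat_lit 196666) (nat_lit 13) (.e (nat_lit 65610) (nat_lit 10) (.e (nat_lit 344117) (nat_lit 21) (.e (nat_lit 516106) (nat_lit 0) (.e (nat_lit 3359) (nat_lit 207) (.e (nat_lit 614435) (nat_lit 11) .nil))))))) (.g (nat_lit 1) (.e (nat_lit 137415) (nat_lit 0) .nil) .nil))) 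
(.lf (nat_lit 488398) (.g (nat_lit 3667) (.e (nat_lit 16433) (nat_lit 9) (.e (nat_lit 426566) (nat_lit 34) (.e (nat_lit 393253) (nat_lit 18) (.e (nat_lit 164330) (nat_lit 230) (.e (nat_lit 163869) (nat_lit 2) (.e (nat_lit 196654) (nat_lit 11) .nil)))))) (.g (nat_lit 1) (.e (nat_lit 138332) (nat_lit 0) .nil) .nil))))))) (.nd (nat_lit 6) (.nd (nat_lit 7) (.nd (nat_lit 8) (.nd (nat_lit 9) 
(.lf (nat_lit 487470) (.g (nat_lit 2692) (.e (nat_lit 24662) (nat_lit 14) (.e (nat_lit 401459) (nat_lit 13) (.e (nat_lit 483350) (nat_lit 17) (.e (nat_lit 6113) (nat_lit 332) (.e (nat_lit 975) (nat_lit 81) (.e (nat_lit 7936) (nat_lit 314) .nil)))))) (.g (nat_lit 1) (.e (nat_lit 135547) (nat_lit 0) .nil) .nil))) 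
(.lf (nat_lit 487982) (.g (nat_lit 611) (.e (nat_lit 16415) (nat_lit 3) (.e (nat_lit 204866) (nat_lit 28) (.e (nat_lit 360192) (nat_lit 3) .nil))) (.g (nat_lit 0) (.e (nat_lit 137673) (nat_lit 0) .nil) .nil)))) (.nd (nat_lit 9) 
(.lf (nat_lit 487726) (.g (nat_lit 2518) (.e (nat_lit 32512) (nat_lit 18) (.e (nat_lit 204863) (nat_lit 27) (.e (nat_lit 344133) (nat_lit 26) (.e (nat_lit 557098) (nat_lit 13) (.e (nat_lit 172073) (nat_lit 5) .nil))))) (.g (nat_lit 0) (.e (nat_lit 136483) (nat_lit 0) .nil) .nil))) 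
(.lf (nat_lit 488238) (.g (nat_lit 2371) (.e (nat_lit 16425) (nat_lit 7) (.e (nat_lit 409645) (nat_lit 18) (.e (nat_lit 303143) (nat_lit 12) (.e (nat_lit 475218) (nat_lit 44) (.e (nat_lit 737318) (nat_lit 15) (.e (nat_lit 49187) (nat_lit 11) .nil)))))) (.g (nat_lit 1) (.e (nat_lit 138101) (nat_lit 0) .nil) .nil))))) (.nd (nat_lit 8) (.nd (nat_lit 9) 
(.lf (nat_lit 487598) (.g (nat_lit 638) (.e (nat_lit 24665) (nat_lit 14) (.e (nat_lit 401446) (nat_lit 10) (.e (nat_lit 434203) (nat_lit 18) .nil))) (.g (nat_lit 0) (.e (nat_lit 136100) (nat_lit 0) .nil) .nil))) 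
(.lf (nat_lit 488110) (.g (nat_lit 2075) (.e (nat_lit 16416) (nat_lit 3) (.e (nat_lit 204868) (nat_lit 29) (.e (nat_lit 360474) (nat_lit 8) (.e (nat_lit 557072) (nat_lit 9) (.e (nat_lit 2741) (nat_lit 174) .nil))))) (.g (nat_lit 0) (.e (nat_lit 137849) (nat_lit 0) .nil) .nil)))) (.nd (nat_lit 9) 
(.lf (nat_lit 487854) (.g (nat_lit 1151) (.e (nat_lit 16412) (nat_lit 2) (.e (nat_lit 196653) (nat_lit 11) (.e (nat_lit 16415) (nat_lit 3) (.e (nat_lit 212736) (nat_lit 9) .nil)))) (.g (nat_lit 0) (.e (nat_lit 137347) (nat_lit 0) .nil) .nil))) 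
(.lf (nat_lit 488366) (.g (nat_lit 3948) (.e (nat_lit 16433) (nat_lit 9) (.e (nat_lit 426566) (nat_lit 34) (.e (nat_lit 393251) (nat_lit 18) (.e (nat_lit 164332) (nat_lit 230) (.e (nat_lit 163869) (nat_lit 2) (.e (nat_lit 196654) (nat_lit 11) .nil)))))) (.g (nat_lit 1) (.e (nat_lit 138298) (nat_lit 0) .nil) .nil)))))) (.nd (nat_lit 7) (.nd (nat_lit 8) (.nd (nat_lit 9) 
(.lf (nat_lit 487534) (.g (nat_lit 3311) (.e (nat_lit 24664) (nat_lit 14) (.e (nat_lit 401428) (nat_lit 3) (.e (nat_lit 204869) (nat_lit 29) (.e (nat_lit 360474) (nat_lit 8) (.e (nat_lit 557086) (nat_lit 11) .nil))))) (.g (nat_lit 1) (.e (nat_lit 135637) (nat_lit 0) .nil) .nil))) 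
(.lf (nat_lit 488046) (.g (nat_lit 3042) (.e (nat_lit 16416) (nat_lit 3) (.e (nat_lit 204813) (nat_lit 9) (.e (nat_lit 426139) (nat_lit 3) (.e (nat_lit 204813) (nat_lit 9) (.e (nat_lit 426116) (nat_lit 2) (.e (nat_lit 196656) (nat_lit 11) .nil)))))) (.g (nat_lit 1) (.e (nat_lit 137759) (nat_lit 0) .nil) .nil)))) (.nd (nat_lit 9) 
(.lf (nat_lit 487790) (.g (nat_lit 5093) (.e (nat_lit 16396) (nat_lit 0) (.e (nat_lit 3252) (nat_lit 197) (.e (nat_lit 532550) (nat_lit 12) (.e (nat_lit 360474) (nat_lit 8) (.e (nat_lit 557093) (nat_lit 12) (.e (nat_lit 164023) (nat_lit 46) (.e (nat_lit 704735) (nat_lit 11) .nil))))))) (.g (nat_lit 1) (.e (nat_lit 136922) (nat_lit 0) .nil) .nil))) 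
(.lf (nat_lit 488302) (.g (nat_lit 2756) (.e (nat_lit 16425) (nat_lit 7) (.e (nat_lit 409649) (nat_lit 18) (.e (nat_lit 303133) (nat_lit 9) (.e (nat_lit 426412) (nat_lit 15) (.e (nat_lit 2233) (nat_lit 146) (.e (nat_lit 737318) (nat_lit 15) (.e (nat_lit 49189) (nat_lit 11) .nil))))))) (.g (nat_lit 1) (.e (nat_lit 138170) (nat_lit 0) .nil) .nil))))) (.nd (nat_lit 8) (.nd (nat_lit 9) 
(.lf (nat_lit 487662) (.g (nat_lit 3334) (.e (nat_lit 24665) (nat_lit 14) (.e (nat_lit 401460) (nat_lit 14) (.e (nat_lit 491565) (nat_lit 12) (.e (nat_lit 385109) (nat_lit 51) (.e (nat_lit 794677) (nat_lit 24) (.e (nat_lit 213030) (nat_lit 11) .nil)))))) (.g (nat_lit 1) (.e (nat_lit 136321) (nat_lit 0) .nil) .nil))) 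
(.lf (nat_lit 488174) (.g (nat_lit 2057) (.e (nat_lit 16424) (nat_lit 7) (.e (nat_lit 409649) (nat_lit 18) (.e (nat_lit 303140) (nat_lit 10) (.e (nat_lit 434275) (nat_lit 39) (.e (nat_lit 663574) (nat_lit 9) .nil))))) (.g (nat_lit 0) (.e (nat_lit 137991) (nat_lit 0) .nil) .nil)))) (.nd (nat_lit 9) 
(.lf (nat_lit 487918) (.g (nat_lit 560) (.e (nat_lit 16412) (nat_lit 2) (.e (nat_lit 196681) (nat_lit 17) (.e (nat_lit 131108) (nat_lit 9) .nil))) (.g (nat_lit 0) (.e (nat_lit 137462) (nat_lit 0) .nil) .nil))) 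
(.lf (nat_lit 488430) (.g (nat_lit 2197) (.e (nat_lit 16433) (nat_lit 9) (.e (nat_lit 426567) (nat_lit 34) (.e (nat_lit 393251) (nat_lit 18) (.e (nat_lit 164327) (nat_lit 230) (.e (nat_lit 163871) (nat_lit 2) (.e (nat_lit 196654) (nat_lit 11) .nil)))))) (.g (nat_lit 1) (.e (nat_lit 138364) (nat_lit 0) .nil) .nil)))))))) 
(.nd (nat_lit 5) (.nd (nat_lit 6) (.nd (nat_lit 7) (.nd (nat_lit 8) (.nd (nat_lit 9) 
(.lf (nat_lit 487454) (.g (nat_lit 3344) (.e (nat_lit 24662) (nat_lit 14) (.e (nat_lit 401436) (nat_lit 9) (.e (nat_lit 426482) (nat_lit 27) (.e (nat_lit 336060) (nat_lit 7) (.e (nat_lit 319504) (nat_lit 10) (.e (nat_lit 7936) (nat_lit 314) .nil)))))) (.g (nat_lit 1) (.e (nat_lit 135500) (nat_lit 0) .nil) .nil))) 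
(.lf (nat_lit 487966) (.g (nat_lit 1104) (.e (nat_lit 16415) (nat_lit 3) (.e (nat_lit 204813) (nat_lit 9) (.e (nat_lit 426124) (nat_lit 2) (.e (nat_lit 196624) (nat_lit 9) .nil)))) (.g (nat_lit 0) (.e (nat_lit 137606) (nat_lit 0) .nil) .nil)))) (.nd (nat_lit 9) 
(.lf (nat_lit 487710) (.g (nat_lit 762) (.e (nat_lit 32512) (nat_lit 18) (.e (nat_lit 204863) (nat_lit 27) (.e (nat_lit 344128) (nat_lit 26) .nil))) (.g (nat_lit 0) (.e (nat_lit 136467) (nat_lit 0) .nil) .nil))) 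
(.lf (nat_lit 488222) (.g (nat_lit 2912) (.e (nat_lit 16425) (nat_lit 7) (.e (nat_lit 409644) (nat_lit 18) (.e (nat_lit 303143) (nat_lit 12) (.e (nat_lit 475199) (nat_lit 40) (.e (nat_lit 704790) (nat_lit 14) (.e (nat_lit 2592) (nat_lit 162) (.e (nat_lit 49189) (nat_lit 11) .nil))))))) (.g (nat_lit 1) (.e (nat_lit 138085) (nat_lit 0) .nil) .nil))))) (.nd (nat_lit 8) (.nd (nat_lit 9) 
(.lf (nat_lit 487582) (.g (nat_lit 3463) (.e (nat_lit 24665) (nat_lit 14) (.e (nat_lit 401427) (nat_lit 3) (.e (nat_lit 204869) (nat_lit 29) (.e (nat_lit 360474) (nat_lit 8) (.e (nat_lit 564992) (nat_lit 11) .nil))))) (.g (nat_lit 1) (.e (nat_lit 135980) (nat_lit 0) .nil) .nil))) 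
(.lf (nat_lit 488094) (.g (nat_lit 459) (.e (nat_lit 16416) (nat_lit 3) (.e (nat_lit 204861) (nat_lit 26) (.e (nat_lit 336076) (nat_lit 9) .nil))) (.g (nat_lit 0) (.e (nat_lit 137817) (nat_lit 0) .nil) .nil)))) (.nd (nat_lit 9) 
(.lf (nat_lit 487838) (.g (nat_lit 1906) (.e (nat_lit 16411) (nat_lit 2) (.e (nat_lit 196656) (nat_lit 11) (.e (nat_lit 16416) (nat_lit 3) (.e (nat_lit 204809) (nat_lit 9) (.e (nat_lit 426114) (nat_lit 2) .nil))))) (.g (nat_lit 0) (.e (nat_lit 137302) (nat_lit 0) .nil) .nil))) 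
(.lf (nat_lit 488350) (.g (nat_lit 599) (.e (nat_lit 16433) (nat_lit 9) (.e (nat_lit 426482) (nat_lit 27) (.e (nat_lit 335907) (nat_lit 0) .nil))) (.g (nat_lit 0) (.e (nat_lit 138282) (nat_lit 0) .nil) .nil)))))) (.nd (nat_lit 7) (.nd (nat_lit 8) (.nd (nat_lit 9) 
(.lf (nat_lit 487518) (.g (nat_lit 4361) (.e (nat_lit 24664) (nat_lit 14) (.e (nat_lit 401424) (nat_lit 2) (.e (nat_lit 196666) (nat_lit 13) (.e (nat_lit 65610) (nat_lit 10) (.e (nat_lit 344129) (nat_lit 26) (.e (nat_lit 557087) (nat_lit 11) .nil)))))) (.g (nat_lit 1) (.e (nat_lit 135621) (nat_lit 0) .nil) .nil))) 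
(.lf (nat_lit 488030) (.g (nat_lit 3388) (.e (nat_lit 16416) (nat_lit 3) (.e (nat_lit 204813) (nat_lit 9) (.e (nat_lit 426133) (nat_lit 3) (.e (nat_lit 204809) (nat_lit 9) (.e (nat_lit 426124) (nat_lit 2) (.e (nat_lit 196656) (nat_lit 11) .nil)))))) (.g (nat_lit 1) (.e (nat_lit 137743) (nat_lit 0) .nil) .nil)))) (.nd (nat_lit 9) 
(.lf (nat_lit 487774) (.g (nat_lit 2997) (.e (nat_lit 16388) (nat_lit 0) (.e (nat_lit 3276) (nat_lit 200) (.e (nat_lit 557105) (nat_lit 14) (.e (nat_lit 180252) (nat_lit 10) (.e (nat_lit 573480) (nat_lit 13) (.e (nat_lit 65568) (nat_lit 2) (.e (nat_lit 98048) (nat_lit 2) .nil))))))) (.g (nat_lit 1) (.e (nat_lit 136879) (nat_lit 0) .nil) .nil))) 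
(.lf (nat_lit 488286) (.g (nat_lit 2189) (.e (nat_lit 16425) (nat_lit 7) (.e (nat_lit 409648) (nat_lit 18) (.e (nat_lit 303143) (nat_lit 12) (.e (nat_lit 475198) (nat_lit 40) (.e (nat_lit 704790) (nat_lit 14) .nil))))) (.g (nat_lit 0) (.e (nat_lit 138154) (nat_lit 0) .nil) .nil))))) (.nd (nat_lit 8) (.nd (nat_lit 9) 
(.lf (nat_lit 487646) (.g (nat_lit 1759) (.e (nat_lit 24665) (nat_lit 14) (.e (nat_lit 401448) (nat_lit 10) (.e (nat_lit 434291) (nat_lit 44) (.e (nat_lit 704738) (nat_lit 11) (.e (nat_lit 16397) (nat_lit 0) .nil))))) (.g (nat_lit 0) (.e (nat_lit 136230) (nat_lit 0) .nil) .nil))) 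
(.lf (nat_lit 488158) (.g (nat_lit 3310) (.e (nat_lit 16424) (nat_lit 7) (.e (nat_lit 409645) (nat_lit 18) (.e (nat_lit 303143) (nat_lit 12) (.e (nat_lit 475199) (nat_lit 40) (.e (nat_lit 704772) (nat_lit 14) .nil))))) (.g (nat_lit 0) (.e (nat_lit 137963) (nat_lit 0) .nil) .nil)))) (.nd (nat_lit 9) 
(.lf (nat_lit 487902) (.g (nat_lit 1424) (.e (nat_lit 16412) (nat_lit 2) (.e (nat_lit 196672) (nat_lit 15) (.e (nat_lit 81954) (nat_lit 23) (.e (nat_lit 98321) (nat_lit 17) (.e (nat_lit 2437) (nat_lit 157) .nil))))) (.g (nat_lit 0) (.e (nat_lit 137435) (nat_lit 0) .nil) .nil))) 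
(.lf (nat_lit 488414) (.g (nat_lit 3009) (.e (nat_lit 16433) (nat_lit 9) (.e (nat_lit 426566) (nat_lit 34) (.e (nat_lit 393254) (nat_lit 18) (.e (nat_lit 164325) (nat_lit 230) (.e (nat_lit 163868) (nat_lit 2) (.e (nat_lit 196654) (nat_lit 11) .nil)))))) (.g (nat_lit 1) (.e (nat_lit 138348) (nat_lit 0) .nil) .nil))))))) (.nd (nat_lit 6) (.nd (nat_lit 7) (.nd (nat_lit 8) (.nd (nat_lit 9) 
(.lf (nat_lit 487486) (.g (nat_lit 4077) (.e (nat_lit 24662) (nat_lit 14) (.e (nat_lit 401459) (nat_lit 13) (.e (nat_lit 483372) (nat_lit 21) (.e (nat_lit 319504) (nat_lit 10) (.e (nat_lit 7936) (nat_lit 314) .nil))))) (.g (nat_lit 1) (.e (nat_lit 135563) (nat_lit 0) .nil) .nil))) 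
(.lf (nat_lit 487998) (.g (nat_lit 2860) (.e (nat_lit 16416) (nat_lit 3) (.e (nat_lit 204809) (nat_lit 9) (.e (nat_lit 426133) (nat_lit 3) (.e (nat_lit 204813) (nat_lit 9) (.e (nat_lit 426115) (nat_lit 2) (.e (nat_lit 196654) (nat_lit 11) .nil)))))) (.g (nat_lit 1) (.e (nat_lit 137705) (nat_lit 0) .nil) .nil)))) (.nd (nat_lit 9) 
(.lf (nat_lit 487742) (.g (nat_lit 281) (.e (nat_lit 32512) (nat_lit 29) (.e (nat_lit 442381) (nat_lit 7) (.e (nat_lit 139281) (nat_lit 5) (.e (nat_lit 81664) (nat_lit 34) .nil)))) (.g (nat_lit 0) (.e (nat_lit 136746) (nat_lit 0) .nil) .nil))) 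
(.lf (nat_lit 488254) (.g (nat_lit 2307) (.e (nat_lit 16425) (nat_lit 7) (.e (nat_lit 409646) (nat_lit 18) (.e (nat_lit 303143) (nat_lit 12) (.e (nat_lit 475199) (nat_lit 40) (.e (nat_lit 704814) (nat_lit 14) .nil))))) (.g (nat_lit 0) (.e (nat_lit 138117) (nat_lit 0) .nil) .nil))))) (.nd (nat_lit 8) (.nd (nat_lit 9) 
(.lf (nat_lit 487614) (.g (nat_lit 3020) (.e (nat_lit 24665) (nat_lit 14) (.e (nat_lit 401448) (nat_lit 10) (.e (nat_lit 434275) (nat_lit 39) (.e (nat_lit 663585) (nat_lit 12) (.e (nat_lit 171776) (nat_lit 48) (.e (nat_lit 720961) (nat_lit 28) (.e (nat_lit 147494) (nat_lit 11) .nil))))))) (.g (nat_lit 1) (.e (nat_lit 136171) (nat_lit 0) .nil) .nil))) 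
(.lf (nat_lit 488126) (.g (nat_lit 4417) (.e (nat_lit 16416) (nat_lit 3) (.e (nat_lit 204869) (nat_lit 29) (.e (nat_lit 360475) (nat_lit 8) (.e (nat_lit 557071) (nat_lit 9) .nil)))) (.g (nat_lit 0) (.e (nat_lit 137865) (nat_lit 0) .nil) .nil)))) (.nd (nat_lit 9) 
(.lf (nat_lit 487870) (.g (nat_lit 2402) (.e (nat_lit 16412) (nat_lit 2) (.e (nat_lit 196656) (nat_lit 11) (.e (nat_lit 16412) (nat_lit 2) (.e (nat_lit 196656) (nat_lit 11) (.e (nat_lit 16409) (nat_lit 2) .nil))))) (.g (nat_lit 0) (.e (nat_lit 137395) (nat_lit 0) .nil) .nil))) 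
(.lf (nat_lit 488382) (.g (nat_lit 3507) (.e (nat_lit 16433) (nat_lit 9) (.e (nat_lit 426566) (nat_lit 34) (.e (nat_lit 393253) (nat_lit 18) (.e (nat_lit 164325) (nat_lit 230) (.e (nat_lit 163866) (nat_lit 2) (.e (nat_lit 196654) (nat_lit 11) .nil)))))) (.g (nat_lit 1) (.e (nat_lit 138316) (nat_lit 0) .nil) .nil)))))) (.nd (nat_lit 7) (.nd (nat_lit 8) (.nd (nat_lit 9) 
(.lf (nat_lit 487550) (.g (nat_lit 4252) (.e (nat_lit 24665) (nat_lit 14) (.e (nat_lit 401414) (nat_lit 0) (.e (nat_lit 3459) (nat_lit 216) (.e (nat_lit 688178) (nat_lit 16) (.e (nat_lit 65604) (nat_lit 9) (.e (nat_lit 335907) (nat_lit 0) (.e (nat_lit 2343) (nat_lit 151) (.e (nat_lit 778464) (nat_lit 11) .nil)))))))) (.g (nat_lit 1) (.e (nat_lit 135836) (nat_lit 0) .nil) .nil))) 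
(.lf (nat_lit 488062) (.g (nat_lit 4411) (.e (nat_lit 16416) (nat_lit 3) (.e (nat_lit 204837) (nat_lit 20) (.e (nat_lit 114719) (nat_lit 23) (.e (nat_lit 98332) (nat_lit 18) (.e (nat_lit 164327) (nat_lit 230) (.e (nat_lit 163868) (nat_lit 2) (.e (nat_lit 196656) (nat_lit 11) .nil))))))) (.g (nat_lit 1) (.e (nat_lit 137776) (nat_lit 0) .nil) .nil)))) (.nd (nat_lit 9) 
(.lf (nat_lit 487806) (.g (nat_lit 846) (.e (nat_lit 16409) (nat_lit 2) (.e (nat_lit 196681) (nat_lit 17) (.e (nat_lit 131109) (nat_lit 9) .nil))) (.g (nat_lit 0) (.e (nat_lit 137136) (nat_lit 0) .nil) .nil))) 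
(.lf (nat_lit 488318) (.g (nat_lit 2450) (.e (nat_lit 16425) (nat_lit 7) (.e (nat_lit 409649) (nat_lit 18) (.e (nat_lit 303143) (nat_lit 12) (.e (nat_lit 475199) (nat_lit 40) (.e (nat_lit 704768) (nat_lit 14) (.e (nat_lit 2587) (nat_lit 162) (.e (nat_lit 49189) (nat_lit 11) .nil))))))) (.g (nat_lit 1) (.e (nat_lit 138188) (nat_lit 0) .nil) .nil))))) (.nd (nat_lit 8) (.nd (nat_lit 9) 
(.lf (nat_lit 487678) (.g (nat_lit 1370) (.e (nat_lit 24665) (nat_lit 14) (.e (nat_lit 409344) (nat_lit 27) (.e (nat_lit 336407) (nat_lit 27) (.e (nat_lit 426213) (nat_lit 9) (.e (nat_lit 426125) (nat_lit 2) (.e (nat_lit 204544) (nat_lit 2) .nil)))))) (.g (nat_lit 1) (.e (nat_lit 136360) (nat_lit 0) .nil) .nil))) 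
(.lf (nat_lit 488190) (.g (nat_lit 3263) (.e (nat_lit 16425) (nat_lit 7) (.e (nat_lit 409617) (nat_lit 10) (.e (nat_lit 632) (nat_lit 50) (.e (nat_lit 573493) (nat_lit 15) (.e (nat_lit 81938) (nat_lit 20) (.e (nat_lit 991) (nat_lit 81) (.e (nat_lit 6908) (nat_lit 371) (.e (nat_lit 1126) (nat_lit 83) .nil)))))))) (.g (nat_lit 1) (.e (nat_lit 138051) (nat_lit 0) .nil) .nil)))) (.nd (nat_lit 9) 
(.lf (nat_lit 487934) (.g (nat_lit 1867) (.e (nat_lit 16413) (nat_lit 2) (.e (nat_lit 196666) (nat_lit 13) (.e (nat_lit 65589) (nat_lit 9) (.e (nat_lit 336326) (nat_lit 18) (.e (nat_lit 204835) (nat_lit 19) .nil))))) (.g (nat_lit 0) (.e (nat_lit 137509) (nat_lit 0) .nil) .nil))) 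
(.lf (nat_lit 488446) (.g (nat_lit 3122) (.e (nat_lit 16433) (nat_lit 9) (.e (nat_lit 426568) (nat_lit 34) (.e (nat_lit 393252) (nat_lit 18) (.e (nat_lit 164331) (nat_lit 230) (.e (nat_lit 163867) (nat_lit 2) (.e (nat_lit 196654) (nat_lit 11) .nil)))))) (.g (nat_lit 1) (.e (nat_lit 138382) (nat_lit 0) .nil) .nil)))))))))))) 
(.nd (nat_lit 1) (.nd (nat_lit 2) (.nd (nat_lit 3) (.nd (nat_lit 4) (.nd (nat_lit 5) 
(.nd (nat_lit 6) (.nd (nat_lit 7) (.nd (nat_lit 8) (.nd (nat_lit 9) 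
(.lf (nat_lit 487425) (.g (nat_lit 4383) (.e (nat_lit 24662) (nat_lit 14) (.e (nat_lit 401425) (nat_lit 2) (.e (nat_lit 196666) (nat_lit 13) (.e (nat_lit 65610) (nat_lit 10) (.e (nat_lit 344090) (nat_lit 18) (.e (nat_lit 4031) (nat_lit 245) (.e (nat_lit 2556) (nat_lit 159) .nil))))))) (.g (nat_lit 1) (.e (nat_lit 135435) (nat_lit 0) .nil) .nil))) 
(.lf (nat_lit 487937) (.g (nat_lit 3437) (.e (nat_lit 16413) (nat_lit 2) (.e (nat_lit 196666) (nat_lit 13) (.e (nat_lit 65610) (nat_lit 10) (.e (nat_lit 344129) (nat_lit 26) (.e (nat_lit 557064) (nat_lit 9) (.e (nat_lit 2744) (nat_lit 174) (.e (nat_lit 253991) (nat_lit 11) .nil))))))) (.g (nat_lit 1) (.e (nat_lit 137514) (nat_lit 0) .nil) .nil)))) (.nd (nat_lit 9) 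
(.lf (nat_lit 487681) (.g (nat_lit 1324) (.e (nat_lit 24665) (nat_lit 14) (.e (nat_lit 409344) (nat_lit 27) (.e (nat_lit 336443) (nat_lit 32) (.e (nat_lit 466976) (nat_lit 22) (.e (nat_lit 204544) (nat_lit 2) .nil))))) (.g (nat_lit 1) (.e (nat_lit 136375) (nat_lit 0) .nil) .nil))) 
(.lf (nat_lit 488193) (.g (nat_lit 2998) (.e (nat_lit 16425) (nat_lit 7) (.e (nat_lit 409617) (nat_lit 10) (.e (nat_lit 632) (nat_lit 50) (.e (nat_lit 573493) (nat_lit 15) (.e (nat_lit 81948) (nat_lit 21) (.e (nat_lit 57648) (nat_lit 146) (.e (nat_lit 1122) (nat_lit 83) .nil))))))) (.g (nat_lit 1) (.e (nat_lit 138055) (nat_lit 0) .nil) .nil))))) (.nd (nat_lit 8) (.nd (nat_lit 9) 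
(.lf (nat_lit 487553) (.g (nat_lit 3996) (.e (nat_lit 24665) (nat_lit 14) (.e (nat_lit 401423) (nat_lit 2) (.e (nat_lit 196666) (nat_lit 13) (.e (nat_lit 65610) (nat_lit 10) (.e (nat_lit 344090) (nat_lit 18) (.e (nat_lit 4031) (nat_lit 245) (.e (nat_lit 2555) (nat_lit 159) .nil))))))) (.g (nat_lit 1) (.e (nat_lit 135842) (nat_lit 0) .nil) .nil))) 
(.lf (nat_lit 488065) (.g (nat_lit 3983) (.e (nat_lit 16416) (nat_lit 3) (.e (nat_lit 204837) (nat_lit 20) (.e (nat_lit 114719) (nat_lit 23) (.e (nat_lit 98334) (nat_lit 18) (.e (nat_lit 164332) (nat_lit 230) (.e (nat_lit 163867) (nat_lit 2) (.e (nat_lit 196656) (nat_lit 11) .nil))))))) (.g (nat_lit 1) (.e (nat_lit 137779) (nat_lit 0) .nil) .nil)))) (.nd (nat_lit 9) 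
(.lf (nat_lit 487809) (.g (nat_lit 2985) (.e (nat_lit 16410) (nat_lit 2) (.e (nat_lit 196654) (nat_lit 11) (.e (nat_lit 16416) (nat_lit 3) (.e (nat_lit 204809) (nat_lit 9) (.e (nat_lit 426124) (nat_lit 2) (.e (nat_lit 196653) (nat_lit 11) .nil)))))) (.g (nat_lit 1) (.e (nat_lit 137185) (nat_lit 0) .nil) .nil))) 
(.lf (nat_lit 488321) (.g (nat_lit 2710) (.e (nat_lit 16425) (nat_lit 7) (.e (nat_lit 409649) (nat_lit 18) (.e (nat_lit 303143) (nat_lit 12) (.e (nat_lit 475199) (nat_lit 40) (.e (nat_lit 704787) (nat_lit 14) (.e (nat_lit 2592) (nat_lit 162) (.e (nat_lit 49189) (nat_lit 11) .nil))))))) (.g (nat_lit 1) (.e (nat_lit 138191) (nat_lit 0) .nil) .nil)))))) 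
(.nd (nat_lit 7) (.nd (nat_lit 8) (.nd (nat_lit 9) 
(.lf (nat_lit 487489) (.g (nat_lit 3639) (.e (nat_lit 24662) (nat_lit 14) (.e (nat_lit 401459) (nat_lit 13) (.e (nat_lit 483372) (nat_lit 21) (.e (nat_lit 319509) (nat_lit 10) .nil)))) (.g (nat_lit 0) (.e (nat_lit 135566) (nat_lit 0) .nil) .nil))) 
(.lf (nat_lit 488001) (.g (nat_lit 3438) (.e (nat_lit 16416) (nat_lit 3) (.e (nat_lit 204809) (nat_lit 9) (.e (nat_lit 426133) (nat_lit 3) (.e (nat_lit 204813) (nat_lit 9) (.e (nat_lit 426124) (nat_lit 2) (.e (nat_lit 196656) (nat_lit 11) .nil)))))) (.g (nat_lit 1) (.e (nat_lit 137708) (nat_lit 0) .nil) .nil)))) (.nd (nat_lit 9) 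
(.lf (nat_lit 487745) (.g (nat_lit 4087) (.e (nat_lit 16384) (nat_lit 0) (.e (nat_lit 3262) (nat_lit 198) (.e (nat_lit 540706) (nat_lit 12) (.e (nat_lit 360475) (nat_lit 8) (.e (nat_lit 557091) (nat_lit 12) (.e (nat_lit 164022) (nat_lit 46) (.e (nat_lit 704738) (nat_lit 11) .nil))))))) (.g (nat_lit 1) (.e (nat_lit 136833) (nat_lit 0) .nil) .nil))) 
(.lf (nat_lit 488257) (.g (nat_lit 2771) (.e (nat_lit 16425) (nat_lit 7) (.e (nat_lit 409646) (nat_lit 18) (.e (nat_lit 303143) (nat_lit 12) (.e (nat_lit 475219) (nat_lit 44) (.e (nat_lit 737318) (nat_lit 15) (.e (nat_lit 49187) (nat_lit 11) .nil)))))) (.g (nat_lit 1) (.e (nat_lit 138120) (nat_lit 0) .nil) .nil))))) (.nd (nat_lit 8) (.nd (nat_lit 9) 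
(.lf (nat_lit 487617) (.g (nat_lit 834) (.e (nat_lit 24665) (nat_lit 14) (.e (nat_lit 401448) (nat_lit 10) (.e (nat_lit 434276) (nat_lit 39) .nil))) (.g (nat_lit 0) (.e (nat_lit 136175) (nat_lit 0) .nil) .nil))) 
(.lf (nat_lit 488129) (.g (nat_lit 4111) (.e (nat_lit 16416) (nat_lit 3) (.e (nat_lit 204869) (nat_lit 29) (.e (nat_lit 360475) (nat_lit 8) (.e (nat_lit 557121) (nat_lit 18) .nil)))) (.g (nat_lit 0) (.e (nat_lit 137869) (nat_lit 0) .nil) .nil)))) (.nd (nat_lit 9) 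
(.lf (nat_lit 487873) (.g (nat_lit 3338) (.e (nat_lit 16412) (nat_lit 2) (.e (nat_lit 196656) (nat_lit 11) (.e (nat_lit 16416) (nat_lit 3) (.e (nat_lit 204809) (nat_lit 9) (.e (nat_lit 426116) (nat_lit 2) (.e (nat_lit 196654) (nat_lit 11) .nil)))))) (.g (nat_lit 1) (.e (nat_lit 137401) (nat_lit 0) .nil) .nil))) 
(.lf (nat_lit 488385) (.g (nat_lit 3619) (.e (nat_lit 16433) (nat_lit 9) (.e (nat_lit 426566) (nat_lit 34) (.e (nat_lit 393253) (nat_lit 18) (.e (nat_lit 164325) (nat_lit 230) (.e (nat_lit 163869) (nat_lit 2) (.e (nat_lit 196654) (nat_lit 11) .nil)))))) (.g (nat_lit 1) (.e (nat_lit 138319) (nat_lit 0) .nil) .nil))))))) (.nd (nat_lit 6) (.nd (nat_lit 7) (.nd (nat_lit 8) (.nd (nat_lit 9) 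
(.lf (nat_lit 487457) (.g (nat_lit 3588) (.e (nat_lit 24662) (nat_lit 14) (.e (nat_lit 401438) (nat_lit 9) (.e (nat_lit 426482) (nat_lit 27) (.e (nat_lit 336060) (nat_lit 7) (.e (nat_lit 319505) (nat_lit 10) (.e (nat_lit 7936) (nat_lit 314) .nil)))))) (.g (nat_lit 1) (.e (nat_lit 135505) (nat_lit 0) .nil) .nil))) 
(.lf (nat_lit 487969) (.g (nat_lit 1334) (.e (nat_lit 16415) (nat_lit 3) (.e (nat_lit 204855) (nat_lit 26) (.e (nat_lit 336176) (nat_lit 10) (.e (nat_lit 344132) (nat_lit 26) .nil)))) (.g (nat_lit 0) (.e (nat_lit 137651) (nat_lit 0) .nil) .nil)))) (.nd (nat_lit 9) 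
(.lf (nat_lit 487713) (.g (nat_lit 2455) (.e (nat_lit 32512) (nat_lit 18) (.e (nat_lit 204863) (nat_lit 27) (.e (nat_lit 344129) (nat_lit 26) (.e (nat_lit 557097) (nat_lit 13) (.e (nat_lit 172071) (nat_lit 5) .nil))))) (.g (nat_lit 0) (.e (nat_lit 136470) (nat_lit 0) .nil) .nil))) 
(.lf (nat_lit 488225) (.g (nat_lit 2227) (.e (nat_lit 16425) (nat_lit 7) (.e (nat_lit 409644) (nat_lit 18) (.e (nat_lit 303143) (nat_lit 12) (.e (nat_lit 475219) (nat_lit 44) (.e (nat_lit 737318) (nat_lit 15) (.e (nat_lit 49188) (nat_lit 11) .nil)))))) (.g (nat_lit 1) (.e (nat_lit 138088) (nat_lit 0) .nil) .nil))))) (.nd (nat_lit 8) (.nd (nat_lit 9) 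
(.lf (nat_lit 487585) (.g (nat_lit 3214) (.e (nat_lit 24665) (nat_lit 14) (.e (nat_lit 401434) (nat_lit 9) (.e (nat_lit 426482) (nat_lit 27) (.e (nat_lit 336060) (nat_lit 7) (.e (nat_lit 319504) (nat_lit 10) (.e (nat_lit 7936) (nat_lit 314) .nil)))))) (.g (nat_lit 1) (.e (nat_lit 136050) (nat_lit 0) .nil) .nil))) 
(.lf (nat_lit 488097) (.g (nat_lit 2949) (.e (nat_lit 16416) (nat_lit 3) (.e (nat_lit 204861) (nat_lit 26) (.e (nat_lit 336186) (nat_lit 11) (.e (nat_lit 368676) (nat_lit 21) (.e (nat_lit 516097) (nat_lit 0) (.e (nat_lit 3357) (nat_lit 207) (.e (nat_lit 614435) (nat_lit 11) .nil))))))) (.g (nat_lit 1) (.e (nat_lit 137831) (nat_lit 0) .nil) .nil)))) (.nd (nat_lit 9) 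
(.lf (nat_lit 487841) (.g (nat_lit 1979) (.e (nat_lit 16411) (nat_lit 2) (.e (nat_lit 196663) (nat_lit 13) (.e (nat_lit 65630) (nat_lit 14) (.e (nat_lit 401425) (nat_lit 2) (.e (nat_lit 196628) (nat_lit 9) .nil))))) (.g (nat_lit 0) (.e (nat_lit 137307) (nat_lit 0) .nil) .nil))) 
(.lf (nat_lit 488353) (.g (nat_lit 2903) (.e (nat_lit 16433) (nat_lit 9) (.e (nat_lit 426481) (nat_lit 27) (.e (nat_lit 336389) (nat_lit 27) (.e (nat_lit 426098) (nat_lit 1) (.e (nat_lit 164327) (nat_lit 230) (.e (nat_lit 163868) (nat_lit 2) (.e (nat_lit 196654) (nat_lit 11) .nil))))))) (.g (nat_lit 1) (.e (nat_lit 138285) (nat_lit 0) .nil) .nil)))))) 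
(.nd (nat_lit 7) (.nd (nat_lit 8) (.nd (nat_lit 9) 
(.lf (nat_lit 487521) (.g (nat_lit 2656) (.e (nat_lit 24664) (nat_lit 14) (.e (nat_lit 401427) (nat_lit 3) (.e (nat_lit 204868) (nat_lit 29) (.e (nat_lit 360473) (nat_lit 8) (.e (nat_lit 557087) (nat_lit 11) .nil))))) (.g (nat_lit 1) (.e (nat_lit 135624) (nat_lit 0) .nil) .nil))) 
(.lf (nat_lit 488033) (.g (nat_lit 3386) (.e (nat_lit 16416) (nat_lit 3) (.e (nat_lit 204813) (nat_lit 9) (.e (nat_lit 426133) (nat_lit 3) (.e (nat_lit 204813) (nat_lit 9) (.e (nat_lit 426116) (nat_lit 2) (.e (nat_lit 196656) (nat_lit 11) .nil)))))) (.g (nat_lit 1) (.e (nat_lit 137746) (nat_lit 0) .nil) .nil)))) (.nd (nat_lit 9) 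
(.lf (nat_lit 487777) (.g (nat_lit 3434) (.e (nat_lit 16388) (nat_lit 0) (.e (nat_lit 3280) (nat_lit 200) (.e (nat_lit 557103) (nat_lit 14) (.e (nat_lit 180250) (nat_lit 10) (.e (nat_lit 573480) (nat_lit 13) (.e (nat_lit 65568) (nat_lit 2) (.e (nat_lit 98048) (nat_lit 2) .nil))))))) (.g (nat_lit 1) (.e (nat_lit 136888) (nat_lit 0) .nil) .nil))) 
(.lf (nat_lit 488289) (.g (nat_lit 2811) (.e (nat_lit 16425) (nat_lit 7) (.e (nat_lit 409648) (nat_lit 18) (.e (nat_lit 303143) (nat_lit 12) (.e (nat_lit 475199) (nat_lit 40) (.e (nat_lit 704790) (nat_lit 14) .nil))))) (.g (nat_lit 0) (.e (nat_lit 138157) (nat_lit 0) .nil) .nil))))) (.nd (nat_lit 8) (.nd (nat_lit 9) 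
(.lf (nat_lit 487649) (.g (nat_lit 2306) (.e (nat_lit 24665) (nat_lit 14) (.e (nat_lit 401450) (nat_lit 12) (.e (nat_lit 475214) (nat_lit 42) (.e (nat_lit 720955) (nat_lit 25) .nil)))) (.g (nat_lit 0) (.e (nat_lit 136242) (nat_lit 0) .nil) .nil))) 
(.lf (nat_lit 488161) (.g (nat_lit 2337) (.e (nat_lit 16424) (nat_lit 7) (.e (nat_lit 409645) (nat_lit 18) (.e (nat_lit 303143) (nat_lit 12) (.e (nat_lit 475199) (nat_lit 40) (.e (nat_lit 704790) (nat_lit 14) .nil))))) (.g (nat_lit 0) (.e (nat_lit 137966) (nat_lit 0) .nil) .nil)))) (.nd (nat_lit 9) 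
(.lf (nat_lit 487905) (.g (nat_lit 362) (.e (nat_lit 16412) (nat_lit 2) (.e (nat_lit 196674) (nat_lit 15) (.e (nat_lit 89856) (nat_lit 2) .nil))) (.g (nat_lit 0) (.e (nat_lit 137440) (nat_lit 0) .nil) .nil))) 
(.lf (nat_lit 488417) (.g (nat_lit 3129) (.e (nat_lit 16433) (nat_lit 9) (.e (nat_lit 426566) (nat_lit 34) (.e (nat_lit 393254) (nat_lit 18) (.e (nat_lit 164325) (nat_lit 230) (.e (nat_lit 163871) (nat_lit 2) (.e (nat_lit 196656) (nat_lit 11) .nil)))))) (.g (nat_lit 1) (.e (nat_lit 138351) (nat_lit 0) .nil) .nil)))))))) 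
(.nd (nat_lit 5) (.nd (nat_lit 6) (.nd (nat_lit 7) (.nd (nat_lit 8) (.nd (nat_lit 9) 
(.lf (nat_lit 487441) (.g (nat_lit 2530) (.e (nat_lit 24662) (nat_lit 14) (.e (nat_lit 401425) (nat_lit 2) (.e (nat_lit 196666) (nat_lit 13) (.e (nat_lit 65611) (nat_lit 10) .nil)))) (.g (nat_lit 0) (.e (nat_lit 135461) (nat_lit 0) .nil) .nil))) 
(.lf (nat_lit 487953) (.g (nat_lit 2278) (.e (nat_lit 16413) (nat_lit 2) (.e (nat_lit 196666) (nat_lit 13) (.e (nat_lit 65624) (nat_lit 12) (.e (nat_lit 385067) (nat_lit 26) (.e (nat_lit 532510) (nat_lit 2) .nil))))) (.g (nat_lit 0) (.e (nat_lit 137531) (nat_lit 0) .nil) .nil)))) (.nd (nat_lit 9) 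
(.lf (nat_lit 487697) (.g (nat_lit 2694) (.e (nat_lit 32512) (nat_lit 18) (.e (nat_lit 204862) (nat_lit 27) (.e (nat_lit 344129) (nat_lit 26) (.e (nat_lit 557097) (nat_lit 13) (.e (nat_lit 172071) (nat_lit 5) .nil))))) (.g (nat_lit 0) (.e (nat_lit 136454) (nat_lit 0) .nil) .nil))) 
(.lf (nat_lit 488209) (.g (nat_lit 2469) (.e (nat_lit 16425) (nat_lit 7) (.e (nat_lit 409643) (nat_lit 18) (.e (nat_lit 303143) (nat_lit 12) (.e (nat_lit 475199) (nat_lit 40) (.e (nat_lit 704787) (nat_lit 14) (.e (nat_lit 2591) (nat_lit 162) (.e (nat_lit 49189) (nat_lit 11) .nil))))))) (.g (nat_lit 1) (.e (nat_lit 138072) (nat_lit 0) .nil) .nil))))) (.nd (nat_lit 8) (.nd (nat_lit 9) 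
(.lf (nat_lit 487569) (.g (nat_lit 1945) (.e (nat_lit 24665) (nat_lit 14) (.e (nat_lit 401426) (nat_lit 3) (.e (nat_lit 204868) (nat_lit 29) (.e (nat_lit 360473) (nat_lit 8) (.e (nat_lit 564992) (nat_lit 11) .nil))))) (.g (nat_lit 1) (.e (nat_lit 135911) (nat_lit 0) .nil) .nil))) 
(.lf (nat_lit 488081) (.g (nat_lit 3529) (.e (nat_lit 16416) (nat_lit 3) (.e (nat_lit 204838) (nat_lit 20) (.e (nat_lit 114719) (nat_lit 23) (.e (nat_lit 98333) (nat_lit 18) (.e (nat_lit 164327) (nat_lit 230) (.e (nat_lit 163868) (nat_lit 2) (.e (nat_lit 196654) (nat_lit 11) .nil))))))) (.g (nat_lit 1) (.e (nat_lit 137796) (nat_lit 0) .nil) .nil)))) (.nd (nat_lit 9) 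
(.lf (nat_lit 487825) (.g (nat_lit 1017) (.e (nat_lit 16410) (nat_lit 2) (.e (nat_lit 196681) (nat_lit 17) (.e (nat_lit 131122) (nat_lit 12) .nil))) (.g (nat_lit 0) (.e (nat_lit 137220) (nat_lit 0) .nil) .nil))) 
(.lf (nat_lit 488337) (.g (nat_lit 3175) (.e (nat_lit 16431) (nat_lit 9) (.e (nat_lit 426566) (nat_lit 34) (.e (nat_lit 393253) (nat_lit 18) (.e (nat_lit 164327) (nat_lit 230) (.e (nat_lit 163871) (nat_lit 2) (.e (nat_lit 196656) (nat_lit 11) .nil)))))) (.g (nat_lit 1) (.e (nat_lit 138248) (nat_lit 0) .nil) .nil)))))) (.nd (nat_lit 7) (.nd (nat_lit 8) (.nd (nat_lit 9) 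
(.lf (nat_lit 487505) (.g (nat_lit 2645) (.e (nat_lit 24662) (nat_lit 14) (.e (nat_lit 401459) (nat_lit 13) (.e (nat_lit 483410) (nat_lit 27) (.e (nat_lit 401416) (nat_lit 0) (.e (nat_lit 7936) (nat_lit 390) .nil))))) (.g (nat_lit 1) (.e (nat_lit 135584) (nat_lit 0) .nil) .nil))) 
(.lf (nat_lit 488017) (.g (nat_lit 2399) (.e (nat_lit 16416) (nat_lit 3) (.e (nat_lit 204813) (nat_lit 9) (.e (nat_lit 426122) (nat_lit 2) (.e (nat_lit 196654) (nat_lit 11) (.e (nat_lit 16411) (nat_lit 2) (.e (nat_lit 196656) (nat_lit 11) .nil)))))) (.g (nat_lit 1) (.e (nat_lit 137727) (nat_lit 0) .nil) .nil)))) (.nd (nat_lit 9) 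
(.lf (nat_lit 487761) (.g (nat_lit 3448) (.e (nat_lit 16388) (nat_lit 0) (.e (nat_lit 3211) (nat_lit 195) (.e (nat_lit 516129) (nat_lit 3) (.e (nat_lit 221210) (nat_lit 22) (.e (nat_lit 196666) (nat_lit 13) (.e (nat_lit 65566) (nat_lit 2) (.e (nat_lit 98048) (nat_lit 2) .nil))))))) (.g (nat_lit 1) (.e (nat_lit 136860) (nat_lit 0) .nil) .nil))) 
(.lf (nat_lit 488273) (.g (nat_lit 3270) (.e (nat_lit 16425) (nat_lit 7) (.e (nat_lit 409648) (nat_lit 18) (.e (nat_lit 303137) (nat_lit 10) (.e (nat_lit 434275) (nat_lit 39) (.e (nat_lit 663580) (nat_lit 9) (.e (nat_lit 7936) (nat_lit 174) (.e (nat_lit 253992) (nat_lit 11) .nil))))))) (.g (nat_lit 1) (.e (nat_lit 138141) (nat_lit 0) .nil) .nil))))) (.nd (nat_lit 8) (.nd (nat_lit 9) 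
(.lf (nat_lit 487633) (.g (nat_lit 3166) (.e (nat_lit 24665) (nat_lit 14) (.e (nat_lit 401448) (nat_lit 10) (.e (nat_lit 434291) (nat_lit 44) (.e (nat_lit 704736) (nat_lit 11) (.e (nat_lit 16388) (nat_lit 0) (.e (nat_lit 7377) (nat_lit 390) .nil)))))) (.g (nat_lit 1) (.e (nat_lit 136208) (nat_lit 0) .nil) .nil))) 
(.lf (nat_lit 488145) (.g (nat_lit 4137) (.e (nat_lit 16417) (nat_lit 3) (.e (nat_lit 204869) (nat_lit 29) (.e (nat_lit 360475) (nat_lit 8) (.e (nat_lit 557069) (nat_lit 9) .nil)))) (.g (nat_lit 0) (.e (nat_lit 137935) (nat_lit 0) .nil) .nil)))) (.nd (nat_lit 9) 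
(.lf (nat_lit 487889) (.g (nat_lit 4101) (.e (nat_lit 16412) (nat_lit 2) (.e (nat_lit 196666) (nat_lit 13) (.e (nat_lit 65610) (nat_lit 10) (.e (nat_lit 344129) (nat_lit 26) (.e (nat_lit 557065) (nat_lit 9) (.e (nat_lit 2741) (nat_lit 174) (.e (nat_lit 253989) (nat_lit 11) .nil))))))) (.g (nat_lit 1) (.e (nat_lit 137418) (nat_lit 0) .nil) .nil))) 
(.lf (nat_lit 488401) (.g (nat_lit 3666) (.e (nat_lit 16433) (nat_lit 9) (.e (nat_lit 426566) (nat_lit 34) (.e (nat_lit 393253) (nat_lit 18) (.e (nat_lit 164331) (nat_lit 230) (.e (nat_lit 163867) (nat_lit 2) (.e (nat_lit 196654) (nat_lit 11) .nil)))))) (.g (nat_lit 1) (.e (nat_lit 138335) (nat_lit 0) .nil) .nil))))))) (.nd (nat_lit 6) (.nd (nat_lit 7) (.nd (nat_lit 8) (.nd (nat_lit 9) 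
(.lf (nat_lit 487473) (.g (nat_lit 2885) (.e (nat_lit 24662) (nat_lit 14) (.e (nat_lit 401459) (nat_lit 13) (.e (nat_lit 483350) (nat_lit 17) (.e (nat_lit 6113) (nat_lit 332) (.e (nat_lit 1076) (nat_lit 81) (.e (nat_lit 5750) (nat_lit 314) .nil)))))) (.g (nat_lit 1) (.e (nat_lit 135550) (nat_lit 0) .nil) .nil))) 
(.lf (nat_lit 487985) (.g (nat_lit 4032) (.e (nat_lit 16415) (nat_lit 3) (.e (nat_lit 204884) (nat_lit 33) (.e (nat_lit 401454) (nat_lit 12) (.e (nat_lit 475178) (nat_lit 24) (.e (nat_lit 516124) (nat_lit 2) (.e (nat_lit 220928) (nat_lit 2) .nil)))))) (.g (nat_lit 1) (.e (nat_lit 137676) (nat_lit 0) .nil) .nil)))) (.nd (nat_lit 9) 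
(.lf (nat_lit 487729) (.g (nat_lit 2320) (.e (nat_lit 24675) (nat_lit 27) (.e (nat_lit 426172) (nat_lit 7) (.e (nat_lit 409616) (nat_lit 10) (.e (nat_lit 632) (nat_lit 50) (.e (nat_lit 573488) (nat_lit 14) (.e (nat_lit 81664) (nat_lit 34) .nil)))))) (.g (nat_lit 1) (.e (nat_lit 136594) (nat_lit 0) .nil) .nil))) 
(.lf (nat_lit 488241) (.g (nat_lit 3389) (.e (nat_lit 16425) (nat_lit 7) (.e (nat_lit 409645) (nat_lit 18) (.e (nat_lit 303143) (nat_lit 12) (.e (nat_lit 475220) (nat_lit 44) (.e (nat_lit 737318) (nat_lit 15) (.e (nat_lit 49189) (nat_lit 11) .nil)))))) (.g (nat_lit 1) (.e (nat_lit 138104) (nat_lit 0) .nil) .nil))))) (.nd (nat_lit 8) (.nd (nat_lit 9) 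
(.lf (nat_lit 487601) (.g (nat_lit 696) (.e (nat_lit 24665) (nat_lit 14) (.e (nat_lit 401446) (nat_lit 10) (.e (nat_lit 434276) (nat_lit 39) .nil))) (.g (nat_lit 0) (.e (nat_lit 136110) (nat_lit 0) .nil) .nil))) 
(.lf (nat_lit 488113) (.g (nat_lit 3092) (.e (nat_lit 16416) (nat_lit 3) (.e (nat_lit 204868) (nat_lit 29) (.e (nat_lit 360475) (nat_lit 8) (.e (nat_lit 557067) (nat_lit 9) .nil)))) (.g (nat_lit 0) (.e (nat_lit 137852) (nat_lit 0) .nil) .nil)))) (.nd (nat_lit 9) 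
(.lf (nat_lit 487857) (.g (nat_lit 3545) (.e (nat_lit 16412) (nat_lit 2) (.e (nat_lit 196654) (nat_lit 11) (.e (nat_lit 16412) (nat_lit 2) (.e (nat_lit 196656) (nat_lit 11) (.e (nat_lit 16412) (nat_lit 2) (.e (nat_lit 196656) (nat_lit 11) .nil)))))) (.g (nat_lit 1) (.e (nat_lit 137358) (nat_lit 0) .nil) .nil))) 
(.lf (nat_lit 488369) (.g (nat_lit 3356) (.e (nat_lit 16433) (nat_lit 9) (.e (nat_lit 426566) (nat_lit 34) (.e (nat_lit 393252) (nat_lit 18) (.e (nat_lit 164330) (nat_lit 230) (.e (nat_lit 163869) (nat_lit 2) (.e (nat_lit 196654) (nat_lit 11) .nil)))))) (.g (nat_lit 1) (.e (nat_lit 138301) (nat_lit 0) .nil) .nil)))))) (.nd (nat_lit 7) (.nd (nat_lit 8) (.nd (nat_lit 9) 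
(.lf (nat_lit 487537) (.g (nat_lit 4030) (.e (nat_lit 24664) (nat_lit 14) (.e (nat_lit 401428) (nat_lit 3) (.e (nat_lit 204869) (nat_lit 29) (.e (nat_lit 360475) (nat_lit 8) (.e (nat_lit 557086) (nat_lit 11) .nil))))) (.g (nat_lit 1) (.e (nat_lit 135640) (nat_lit 0) .nil) .nil))) 
(.lf (nat_lit 488049) (.g (nat_lit 2174) (.e (nat_lit 16416) (nat_lit 3) (.e (nat_lit 204837) (nat_lit 20) (.e (nat_lit 114714) (nat_lit 22) (.e (nat_lit 90165) (nat_lit 12) (.e (nat_lit 163853) (nat_lit 0) .nil))))) (.g (nat_lit 0) (.e (nat_lit 137763) (nat_lit 0) .nil) .nil)))) (.nd (nat_lit 9) 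
(.lf (nat_lit 487793) (.g (nat_lit 2022) (.e (nat_lit 16397) (nat_lit 0) (.e (nat_lit 3251) (nat_lit 197) (.e (nat_lit 532549) (nat_lit 12) (.e (nat_lit 360473) (nat_lit 8) (.e (nat_lit 557093) (nat_lit 12) .nil))))) (.g (nat_lit 0) (.e (nat_lit 136934) (nat_lit 0) .nil) .nil))) 
(.lf (nat_lit 488305) (.g (nat_lit 1341) (.e (nat_lit 16425) (nat_lit 7) (.e (nat_lit 409649) (nat_lit 18) (.e (nat_lit 303140) (nat_lit 10) (.e (nat_lit 434205) (nat_lit 18) .nil)))) (.g (nat_lit 0) (.e (nat_lit 138173) (nat_lit 0) .nil) .nil))))) (.nd (nat_lit 8) (.nd (nat_lit 9) 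
(.lf (nat_lit 487665) (.g (nat_lit 4059) (.e (nat_lit 24665) (nat_lit 14) (.e (nat_lit 401460) (nat_lit 14) (.e (nat_lit 491566) (nat_lit 12) (.e (nat_lit 385113) (nat_lit 53) (.e (nat_lit 811045) (nat_lit 14) (.e (nat_lit 40995) (nat_lit 11) .nil)))))) (.g (nat_lit 1) (.e (nat_lit 136333) (nat_lit 0) .nil) .nil))) 
(.lf (nat_lit 488177) (.g (nat_lit 2752) (.e (nat_lit 16425) (nat_lit 7) (.e (nat_lit 409612) (nat_lit 10) (.e (nat_lit 934) (nat_lit 76) (.e (nat_lit 786480) (nat_lit 29) (.e (nat_lit 352312) (nat_lit 22) (.e (nat_lit 98048) (nat_lit 2) .nil)))))) (.g (nat_lit 1) (.e (nat_lit 137997) (nat_lit 0) .nil) .nil)))) (.nd (nat_lit 9) 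
(.lf (nat_lit 487921) (.g (nat_lit 1483) (.e (nat_lit 16412) (nat_lit 2) (.e (nat_lit 196681) (nat_lit 17) (.e (nat_lit 131109) (nat_lit 9) (.e (nat_lit 336324) (nat_lit 18) (.e (nat_lit 204815) (nat_lit 17) .nil))))) (.g (nat_lit 0) (.e (nat_lit 137472) (nat_lit 0) .nil) .nil))) 
(.lf (nat_lit 488433) (.g (nat_lit 1372) (.e (nat_lit 16433) (nat_lit 9) (.e (nat_lit 426568) (nat_lit 34) (.e (nat_lit 393251) (nat_lit 18) (.e (nat_lit 164323) (nat_lit 230) .nil)))) (.g (nat_lit 0) (.e (nat_lit 138369) (nat_lit 0) .nil) .nil))))))))) (.nd (nat_lit 4) (.nd (nat_lit 5) (.nd (nat_lit 6) (.nd (nat_lit 7) (.nd (nat_lit 8) (.nd (nat_lit 9) 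
(.lf (nat_lit 487433) (.g (nat_lit 4224) (.e (nat_lit 24662) (nat_lit 14) (.e (nat_lit 401425) (nat_lit 2) (.e (nat_lit 196666) (nat_lit 13) (.e (nat_lit 65610) (nat_lit 10) (.e (nat_lit 344097) (nat_lit 18) (.e (nat_lit 4066) (nat_lit 245) (.e (nat_lit 2555) (nat_lit 159) .nil))))))) (.g (nat_lit 1) (.e (nat_lit 135448) (nat_lit 0) .nil) .nil))) 
(.lf (nat_lit 487945) (.g (nat_lit 1185) (.e (nat_lit 16413) (nat_lit 2) (.e (nat_lit 196666) (nat_lit 13) (.e (nat_lit 65622) (nat_lit 12) (.e (nat_lit 385067) (nat_lit 26) .nil)))) (.g (nat_lit 0) (.e (nat_lit 137523) (nat_lit 0) .nil) .nil)))) (.nd (nat_lit 9) 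
(.lf (nat_lit 487689) (.g (nat_lit 1781) (.e (nat_lit 32512) (nat_lit 14) (.e (nat_lit 401458) (nat_lit 13) (.e (nat_lit 483372) (nat_lit 21) (.e (nat_lit 319504) (nat_lit 10) (.e (nat_lit 7936) (nat_lit 314) .nil))))) (.g (nat_lit 0) (.e (nat_lit 136383) (nat_lit 0) .nil) .nil))) 
(.lf (nat_lit 488201) (.g (nat_lit 3385) (.e (nat_lit 16425) (nat_lit 7) (.e (nat_lit 409617) (nat_lit 10) (.e (nat_lit 934) (nat_lit 76) (.e (nat_lit 786480) (nat_lit 29) (.e (nat_lit 352312) (nat_lit 22) (.e (nat_lit 98048) (nat_lit 2) .nil)))))) (.g (nat_lit 1) (.e (nat_lit 138064) (nat_lit 0) .nil) .nil))))) (.nd (nat_lit 8) (.nd (nat_lit 9) 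
(.lf (nat_lit 487561) (.g (nat_lit 3131) (.e (nat_lit 24665) (nat_lit 14) (.e (nat_lit 401423) (nat_lit 2) (.e (nat_lit 196666) (nat_lit 13) (.e (nat_lit 65617) (nat_lit 10) (.e (nat_lit 344133) (nat_lit 26) (.e (nat_lit 564992) (nat_lit 11) .nil)))))) (.g (nat_lit 1) (.e (nat_lit 135877) (nat_lit 0) .nil) .nil))) 
(.lf (nat_lit 488073) (.g (nat_lit 3534) (.e (nat_lit 16416) (nat_lit 3) (.e (nat_lit 204838) (nat_lit 20) (.e (nat_lit 114718) (nat_lit 23) (.e (nat_lit 98333) (nat_lit 18) (.e (nat_lit 164327) (nat_lit 230) (.e (nat_lit 163868) (nat_lit 2) (.e (nat_lit 196654) (nat_lit 11) .nil))))))) (.g (nat_lit 1) (.e (nat_lit 137788) (nat_lit 0) .nil) .nil)))) (.nd (nat_lit 9) 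
(.lf (nat_lit 487817) (.g (nat_lit 2677) (.e (nat_lit 16410) (nat_lit 2) (.e (nat_lit 196666) (nat_lit 13) (.e (nat_lit 65610) (nat_lit 10) (.e (nat_lit 344129) (nat_lit 26) (.e (nat_lit 557065) (nat_lit 9) .nil))))) (.g (nat_lit 0) (.e (nat_lit 137202) (nat_lit 0) .nil) .nil))) 
(.lf (nat_lit 488329) (.g (nat_lit 2771) (.e (nat_lit 16425) (nat_lit 7) (.e (nat_lit 409649) (nat_lit 18) (.e (nat_lit 303143) (nat_lit 12) (.e (nat_lit 475218) (nat_lit 44) (.e (nat_lit 737318) (nat_lit 15) (.e (nat_lit 49188) (nat_lit 11) .nil)))))) (.g (nat_lit 1) (.e (nat_lit 138199) (nat_lit 0) .nil) .nil)))))) (.nd (nat_lit 7) (.nd (nat_lit 8) (.nd (nat_lit 9) 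
(.lf (nat_lit 487497) (.g (nat_lit 2544) (.e (nat_lit 24662) (nat_lit 14) (.e (nat_lit 401459) (nat_lit 13) (.e (nat_lit 483375) (nat_lit 22) (.e (nat_lit 327703) (nat_lit 10) (.e (nat_lit 7936) (nat_lit 314) .nil))))) (.g (nat_lit 1) (.e (nat_lit 135574) (nat_lit 0) .nil) .nil))) 
(.lf (nat_lit 488009) (.g (nat_lit 1403) (.e (nat_lit 16416) (nat_lit 3) (.e (nat_lit 204813) (nat_lit 9) (.e (nat_lit 426114) (nat_lit 2) (.e (nat_lit 196653) (nat_lit 11) (.e (nat_lit 16410) (nat_lit 2) .nil))))) (.g (nat_lit 0) (.e (nat_lit 137718) (nat_lit 0) .nil) .nil)))) (.nd (nat_lit 9) 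
(.lf (nat_lit 487753) (.g (nat_lit 2787) (.e (nat_lit 16387) (nat_lit 0) (.e (nat_lit 3276) (nat_lit 200) (.e (nat_lit 557105) (nat_lit 14) (.e (nat_lit 180252) (nat_lit 10) (.e (nat_lit 573481) (nat_lit 13) (.e (nat_lit 65568) (nat_lit 2) (.e (nat_lit 98048) (nat_lit 2) .nil))))))) (.g (nat_lit 1) (.e (nat_lit 136849) (nat_lit 0) .nil) .nil))) 
(.lf (nat_lit 488265) (.g (nat_lit 1157) (.e (nat_lit 16425) (nat_lit 7) (.e (nat_lit 409647) (nat_lit 18) (.e (nat_lit 303143) (nat_lit 12) (.e (nat_lit 475216) (nat_lit 44) .nil)))) (.g (nat_lit 0) (.e (nat_lit 138128) (nat_lit 0) .nil) .nil))))) (.nd (nat_lit 8) (.nd (nat_lit 9) 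
(.lf (nat_lit 487625) (.g (nat_lit 4195) (.e (nat_lit 24665) (nat_lit 14) (.e (nat_lit 401448) (nat_lit 10) (.e (nat_lit 434289) (nat_lit 43) (.e (nat_lit 696344) (nat_lit 8) (.e (nat_lit 172033) (nat_lit 0) (.e (nat_lit 7378) (nat_lit 390) .nil)))))) (.g (nat_lit 1) (.e (nat_lit 136193) (nat_lit 0) .nil) .nil))) 
(.lf (nat_lit 488137) (.g (nat_lit 2155) (.e (nat_lit 16417) (nat_lit 3) (.e (nat_lit 204869) (nat_lit 29) (.e (nat_lit 360474) (nat_lit 8) (.e (nat_lit 557065) (nat_lit 9) .nil)))) (.g (nat_lit 0) (.e (nat_lit 137926) (nat_lit 0) .nil) .nil)))) (.nd (nat_lit 9) 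
(.lf (nat_lit 487881) (.g (nat_lit 3778) (.e (nat_lit 16412) (nat_lit 2) (.e (nat_lit 196666) (nat_lit 13) (.e (nat_lit 65610) (nat_lit 10) (.e (nat_lit 344117) (nat_lit 21) (.e (nat_lit 516097) (nat_lit 0) (.e (nat_lit 3356) (nat_lit 207) (.e (nat_lit 614435) (nat_lit 11) .nil))))))) (.g (nat_lit 1) (.e (nat_lit 137410) (nat_lit 0) .nil) .nil))) 
(.lf (nat_lit 488393) (.g (nat_lit 2974) (.e (nat_lit 16433) (nat_lit 9) (.e (nat_lit 426566) (nat_lit 34) (.e (nat_lit 393253) (nat_lit 18) (.e (nat_lit 164329) (nat_lit 230) (.e (nat_lit 163866) (nat_lit 2) (.e (nat_lit 196654) (nat_lit 11) .nil)))))) (.g (nat_lit 1) (.e (nat_lit 138327) (nat_lit 0) .nil) .nil))))))) (.nd (nat_lit 6) (.nd (nat_lit 7) (.nd (nat_lit 8) (.nd (nat_lit 9) 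
(.lf (nat_lit 487465) (.g (nat_lit 2208) (.e (nat_lit 24662) (nat_lit 14) (.e (nat_lit 401459) (nat_lit 13) (.e (nat_lit 483350) (nat_lit 17) (.e (nat_lit 6097) (nat_lit 332) (.e (nat_lit 1105) (nat_lit 81) (.e (nat_lit 7936) (nat_lit 314) .nil)))))) (.g (nat_lit 1) (.e (nat_lit 135542) (nat_lit 0) .nil) .nil))) 
(.lf (nat_lit 487977) (.g (nat_lit 409) (.e (nat_lit 16415) (nat_lit 3) (.e (nat_lit 204861) (nat_lit 26) (.e (nat_lit 336194) (nat_lit 12) .nil))) (.g (nat_lit 0) (.e (nat_lit 137667) (nat_lit 0) .nil) .nil)))) (.nd (nat_lit 9) 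
(.lf (nat_lit 487721) (.g (nat_lit 2563) (.e (nat_lit 32512) (nat_lit 18) (.e (nat_lit 204863) (nat_lit 27) (.e (nat_lit 344132) (nat_lit 26) (.e (nat_lit 557100) (nat_lit 13) (.e (nat_lit 172073) (nat_lit 5) .nil))))) (.g (nat_lit 0) (.e (nat_lit 136478) (nat_lit 0) .nil) .nil))) 
(.lf (nat_lit 488233) (.g (nat_lit 2705) (.e (nat_lit 16425) (nat_lit 7) (.e (nat_lit 409645) (nat_lit 18) (.e (nat_lit 303143) (nat_lit 12) (.e (nat_lit 475199) (nat_lit 40) (.e (nat_lit 704787) (nat_lit 14) .nil))))) (.g (nat_lit 0) (.e (nat_lit 138096) (nat_lit 0) .nil) .nil))))) (.nd (nat_lit 8) (.nd (nat_lit 9) 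
(.lf (nat_lit 487593) (.g (nat_lit 2737) (.e (nat_lit 24665) (nat_lit 14) (.e (nat_lit 401444) (nat_lit 9) (.e (nat_lit 426163) (nat_lit 6) (.e (nat_lit 253991) (nat_lit 11) (.e (nat_lit 16385) (nat_lit 0) .nil))))) (.g (nat_lit 0) (.e (nat_lit 136092) (nat_lit 0) .nil) .nil))) 
(.lf (nat_lit 488105) (.g (nat_lit 2170) (.e (nat_lit 16416) (nat_lit 3) (.e (nat_lit 204861) (nat_lit 26) (.e (nat_lit 336194) (nat_lit 12) (.e (nat_lit 385068) (nat_lit 26) (.e (nat_lit 532494) (nat_lit 0) .nil))))) (.g (nat_lit 0) (.e (nat_lit 137841) (nat_lit 0) .nil) .nil)))) (.nd (nat_lit 9) 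
(.lf (nat_lit 487849) (.g (nat_lit 4306) (.e (nat_lit 16411) (nat_lit 2) (.e (nat_lit 196674) (nat_lit 15) (.e (nat_lit 81946) (nat_lit 20) (.e (nat_lit 1858) (nat_lit 124) (.e (nat_lit 557070) (nat_lit 9) (.e (nat_lit 2744) (nat_lit 174) (.e (nat_lit 253992) (nat_lit 11) .nil))))))) (.g (nat_lit 1) (.e (nat_lit 137325) (nat_lit 0) .nil) .nil))) 
(.lf (nat_lit 488361) (.g (nat_lit 3718) (.e (nat_lit 16433) (nat_lit 9) (.e (nat_lit 426566) (nat_lit 34) (.e (nat_lit 393251) (nat_lit 18) (.e (nat_lit 164327) (nat_lit 230) (.e (nat_lit 163871) (nat_lit 2) (.e (nat_lit 196654) (nat_lit 11) .nil)))))) (.g (nat_lit 1) (.e (nat_lit 138293) (nat_lit 0) .nil) .nil)))))) (.nd (nat_lit 7) (.nd (nat_lit 8) (.nd (nat_lit 9) 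
(.lf (nat_lit 487529) (.g (nat_lit 3126) (.e (nat_lit 24664) (nat_lit 14) (.e (nat_lit 401428) (nat_lit 3) (.e (nat_lit 204869) (nat_lit 29) (.e (nat_lit 360472) (nat_lit 8) (.e (nat_lit 557086) (nat_lit 11) .nil))))) (.g (nat_lit 0) (.e (nat_lit 135632) (nat_lit 0) .nil) .nil))) 
(.lf (nat_lit 488041) (.g (nat_lit 2701) (.e (nat_lit 16416) (nat_lit 3) (.e (nat_lit 204813) (nat_lit 9) (.e (nat_lit 426138) (nat_lit 3) (.e (nat_lit 204813) (nat_lit 9) (.e (nat_lit 426116) (nat_lit 2) (.e (nat_lit 196656) (nat_lit 11) .nil)))))) (.g (nat_lit 1) (.e (nat_lit 137754) (nat_lit 0) .nil) .nil)))) (.nd (nat_lit 9) 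
(.lf (nat_lit 487785) (.g (nat_lit 1784) (.e (nat_lit 16392) (nat_lit 0) (.e (nat_lit 6989) (nat_lit 377) (.e (nat_lit 2810) (nat_lit 180) (.e (nat_lit 303143) (nat_lit 12) (.e (nat_lit 475220) (nat_lit 44) (.e (nat_lit 737318) (nat_lit 15) (.e (nat_lit 49187) (nat_lit 11) .nil))))))) (.g (nat_lit 1) (.e (nat_lit 136912) (nat_lit 0) .nil) .nil))) 
(.lf (nat_lit 488297) (.g (nat_lit 2371) (.e (nat_lit 16425) (nat_lit 7) (.e (nat_lit 409648) (nat_lit 18) (.e (nat_lit 303143) (nat_lit 12) (.e (nat_lit 475218) (nat_lit 44) (.e (nat_lit 737318) (nat_lit 15) (.e (nat_lit 49187) (nat_lit 11) .nil)))))) (.g (nat_lit 1) (.e (nat_lit 138165) (nat_lit 0) .nil) .nil))))) (.nd (nat_lit 8) (.nd (nat_lit 9) 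
(.lf (nat_lit 487657) (.g (nat_lit 1038) (.e (nat_lit 24665) (nat_lit 14) (.e (nat_lit 401451) (nat_lit 12) (.e (nat_lit 475214) (nat_lit 42) .nil))) (.g (nat_lit 0) (.e (nat_lit 136255) (nat_lit 0) .nil) .nil))) 
(.lf (nat_lit 488169) (.g (nat_lit 1985) (.e (nat_lit 16424) (nat_lit 7) (.e (nat_lit 409646) (nat_lit 18) (.e (nat_lit 303143) (nat_lit 12) (.e (nat_lit 475198) (nat_lit 40) .nil)))) (.g (nat_lit 0) (.e (nat_lit 137984) (nat_lit 0) .nil) .nil)))) (.nd (nat_lit 9) 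
(.lf (nat_lit 487913) (.g (nat_lit 466) (.e (nat_lit 16412) (nat_lit 2) (.e (nat_lit 196674) (nat_lit 15) (.e (nat_lit 81944) (nat_lit 20) .nil))) (.g (nat_lit 0) (.e (nat_lit 137448) (nat_lit 0) .nil) .nil))) 
(.lf (nat_lit 488425) (.g (nat_lit 3331) (.e (nat_lit 16433) (nat_lit 9) (.e (nat_lit 426566) (nat_lit 34) (.e (nat_lit 393254) (nat_lit 18) (.e (nat_lit 164331) (nat_lit 230) (.e (nat_lit 163867) (nat_lit 2) (.e (nat_lit 196654) (nat_lit 11) .nil)))))) (.g (nat_lit 1) (.e (nat_lit 138359) (nat_lit 0) .nil) .nil)))))))) 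
(.nd (nat_lit 5) (.nd (nat_lit 6) (.nd (nat_lit 7) (.nd (nat_lit 8) (.nd (nat_lit 9) 
(.lf (nat_lit 487449) (.g (nat_lit 3081) (.e (nat_lit 24662) (nat_lit 14) (.e (nat_lit 401428) (nat_lit 3) (.e (nat_lit 204869) (nat_lit 29) (.e (nat_lit 360472) (nat_lit 8) (.e (nat_lit 557085) (nat_lit 11) .nil))))) (.g (nat_lit 1) (.e (nat_lit 135492) (nat_lit 0) .nil) .nil))) 
(.lf (nat_lit 487961) (.g (nat_lit 872) (.e (nat_lit 16413) (nat_lit 2) (.e (nat_lit 196681) (nat_lit 17) (.e (nat_lit 131119) (nat_lit 12) .nil))) (.g (nat_lit 0) (.e (nat_lit 137546) (nat_lit 0) .nil) .nil)))) (.nd (nat_lit 9) 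
(.lf (nat_lit 487705) (.g (nat_lit 2719) (.e (nat_lit 32512) (nat_lit 18) (.e (nat_lit 204863) (nat_lit 27) (.e (nat_lit 344117) (nat_lit 21) (.e (nat_lit 516129) (nat_lit 3) (.e (nat_lit 229120) (nat_lit 2) .nil))))) (.g (nat_lit 0) (.e (nat_lit 136462) (nat_lit 0) .nil) .nil))) 
(.lf (nat_lit 488217) (.g (nat_lit 2283) (.e (nat_lit 16425) (nat_lit 7) (.e (nat_lit 409644) (nat_lit 18) (.e (nat_lit 303133) (nat_lit 9) (.e (nat_lit 426412) (nat_lit 15) (.e (nat_lit 2233) (nat_lit 146) .nil))))) (.g (nat_lit 0) (.e (nat_lit 138080) (nat_lit 0) .nil) .nil))))) (.nd (nat_lit 8) (.nd (nat_lit 9) 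
(.lf (nat_lit 487577) (.g (nat_lit 3396) (.e (nat_lit 24665) (nat_lit 14) (.e (nat_lit 401426) (nat_lit 3) (.e (nat_lit 204869) (nat_lit 29) (.e (nat_lit 360475) (nat_lit 8) (.e (nat_lit 564992) (nat_lit 11) .nil))))) (.g (nat_lit 1) (.e (nat_lit 135938) (nat_lit 0) .nil) .nil))) 
(.lf (nat_lit 488089) (.g (nat_lit 3215) (.e (nat_lit 16416) (nat_lit 3) (.e (nat_lit 204838) (nat_lit 20) (.e (nat_lit 114719) (nat_lit 23) (.e (nat_lit 98335) (nat_lit 18) (.e (nat_lit 164332) (nat_lit 230) (.e (nat_lit 163867) (nat_lit 2) (.e (nat_lit 196656) (nat_lit 11) .nil))))))) (.g (nat_lit 1) (.e (nat_lit 137804) (nat_lit 0) .nil) .nil)))) (.nd (nat_lit 9) 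
(.lf (nat_lit 487833) (.g (nat_lit 2749) (.e (nat_lit 16411) (nat_lit 2) (.e (nat_lit 196654) (nat_lit 11) (.e (nat_lit 16416) (nat_lit 3) (.e (nat_lit 204813) (nat_lit 9) (.e (nat_lit 426116) (nat_lit 2) (.e (nat_lit 196656) (nat_lit 11) .nil)))))) (.g (nat_lit 1) (.e (nat_lit 137271) (nat_lit 0) .nil) .nil))) 
(.lf (nat_lit 488345) (.g (nat_lit 3324) (.e (nat_lit 16433) (nat_lit 9) (.e (nat_lit 426478) (nat_lit 27) (.e (nat_lit 336389) (nat_lit 27) (.e (nat_lit 426098) (nat_lit 1) (.e (nat_lit 164325) (nat_lit 230) (.e (nat_lit 163871) (nat_lit 2) (.e (nat_lit 196656) (nat_lit 11) .nil))))))) (.g (nat_lit 1) (.e (nat_lit 138273) (nat_lit 0) .nil) .nil)))))) 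
(.nd (nat_lit 7) (.nd (nat_lit 8) (.nd (nat_lit 9) 
(.lf (nat_lit 487513) (.g (nat_lit 3468) (.e (nat_lit 24663) (nat_lit 14) (.e (nat_lit 401428) (nat_lit 3) (.e (nat_lit 204869) (nat_lit 29) (.e (nat_lit 360473) (nat_lit 8) (.e (nat_lit 557087) (nat_lit 11) .nil))))) (.g (nat_lit 1) (.e (nat_lit 135592) (nat_lit 0) .nil) .nil))) 
(.lf (nat_lit 488025) (.g (nat_lit 2483) (.e (nat_lit 16416) (nat_lit 3) (.e (nat_lit 204813) (nat_lit 9) (.e (nat_lit 426124) (nat_lit 2) (.e (nat_lit 196656) (nat_lit 11) (.e (nat_lit 16409) (nat_lit 2) (.e (nat_lit 196654) (nat_lit 11) .nil)))))) (.g (nat_lit 1) (.e (nat_lit 137738) (nat_lit 0) .nil) .nil)))) (.nd (nat_lit 9) 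
(.lf (nat_lit 487769) (.g (nat_lit 2862) (.e (nat_lit 16388) (nat_lit 0) (.e (nat_lit 3214) (nat_lit 195) (.e (nat_lit 516131) (nat_lit 3) (.e (nat_lit 221211) (nat_lit 22) (.e (nat_lit 196666) (nat_lit 13) (.e (nat_lit 65568) (nat_lit 2) (.e (nat_lit 98048) (nat_lit 2) .nil))))))) (.g (nat_lit 1) (.e (nat_lit 136868) (nat_lit 0) .nil) .nil))) 
(.lf (nat_lit 488281) (.g (nat_lit 2504) (.e (nat_lit 16425) (nat_lit 7) (.e (nat_lit 409648) (nat_lit 18) (.e (nat_lit 303137) (nat_lit 10) (.e (nat_lit 434272) (nat_lit 38) (.e (nat_lit 663296) (nat_lit 14) (.e (nat_lit 2587) (nat_lit 162) (.e (nat_lit 49189) (nat_lit 11) .nil))))))) (.g (nat_lit 1) (.e (nat_lit 138149) (nat_lit 0) .nil) .nil))))) (.nd (nat_lit 8) (.nd (nat_lit 9) 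
(.lf (nat_lit 487641) (.g (nat_lit 2918) (.e (nat_lit 24665) (nat_lit 14) (.e (nat_lit 401448) (nat_lit 10) (.e (nat_lit 434291) (nat_lit 44) (.e (nat_lit 704738) (nat_lit 11) (.e (nat_lit 16384) (nat_lit 0) (.e (nat_lit 7936) (nat_lit 390) .nil)))))) (.g (nat_lit 1) (.e (nat_lit 136223) (nat_lit 0) .nil) .nil))) 
(.lf (nat_lit 488153) (.g (nat_lit 2010) (.e (nat_lit 16424) (nat_lit 7) (.e (nat_lit 409645) (nat_lit 18) (.e (nat_lit 303143) (nat_lit 12) (.e (nat_lit 475197) (nat_lit 40) (.e (nat_lit 704790) (nat_lit 14) .nil))))) (.g (nat_lit 0) (.e (nat_lit 137957) (nat_lit 0) .nil) .nil)))) (.nd (nat_lit 9) 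
(.lf (nat_lit 487897) (.g (nat_lit 3200) (.e (nat_lit 16412) (nat_lit 2) (.e (nat_lit 196666) (nat_lit 13) (.e (nat_lit 65610) (nat_lit 10) (.e (nat_lit 344129) (nat_lit 26) (.e (nat_lit 557072) (nat_lit 9) .nil))))) (.g (nat_lit 0) (.e (nat_lit 137426) (nat_lit 0) .nil) .nil))) 
(.lf (nat_lit 488409) (.g (nat_lit 2961) (.e (nat_lit 16433) (nat_lit 9) (.e (nat_lit 426566) (nat_lit 34) (.e (nat_lit 393254) (nat_lit 18) (.e (nat_lit 164324) (nat_lit 230) (.e (nat_lit 163867) (nat_lit 2) (.e (nat_lit 196654) (nat_lit 11) .nil)))))) (.g (nat_lit 1) (.e (nat_lit 138343) (nat_lit 0) .nil) .nil))))))) (.nd (nat_lit 6) (.nd (nat_lit 7) (.nd (nat_lit 8) (.nd (nat_lit 9) 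
(.lf (nat_lit 487481) (.g (nat_lit 3283) (.e (nat_lit 24662) (nat_lit 14) (.e (nat_lit 401459) (nat_lit 13) (.e (nat_lit 483372) (nat_lit 21) (.e (nat_lit 319497) (nat_lit 10) .nil)))) (.g (nat_lit 0) (.e (nat_lit 135558) (nat_lit 0) .nil) .nil))) 
(.lf (nat_lit 487993) (.g (nat_lit 2869) (.e (nat_lit 16416) (nat_lit 3) (.e (nat_lit 204809) (nat_lit 9) (.e (nat_lit 426124) (nat_lit 2) (.e (nat_lit 196656) (nat_lit 11) (.e (nat_lit 16409) (nat_lit 2) .nil))))) (.g (nat_lit 0) (.e (nat_lit 137700) (nat_lit 0) .nil) .nil)))) (.nd (nat_lit 9) 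
(.lf (nat_lit 487737) (.g (nat_lit 1553) (.e (nat_lit 24679) (nat_lit 27) (.e (nat_lit 426100) (nat_lit 1) (.e (nat_lit 164332) (nat_lit 230) (.e (nat_lit 163874) (nat_lit 3) .nil)))) (.g (nat_lit 0) (.e (nat_lit 136636) (nat_lit 0) .nil) .nil))) 
(.lf (nat_lit 488249) (.g (nat_lit 2199) (.e (nat_lit 16425) (nat_lit 7) (.e (nat_lit 409646) (nat_lit 18) (.e (nat_lit 303143) (nat_lit 12) (.e (nat_lit 475199) (nat_lit 40) (.e (nat_lit 704787) (nat_lit 14) .nil))))) (.g (nat_lit 0) (.e (nat_lit 138112) (nat_lit 0) .nil) .nil))))) (.nd (nat_lit 8) (.nd (nat_lit 9) 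
(.lf (nat_lit 487609) (.g (nat_lit 1947) (.e (nat_lit 24665) (nat_lit 14) (.e (nat_lit 401448) (nat_lit 10) (.e (nat_lit 434209) (nat_lit 18) (.e (nat_lit 6386) (nat_lit 338) (.e (nat_lit 8291) (nat_lit 51) .nil))))) (.g (nat_lit 0) (.e (nat_lit 136151) (nat_lit 0) .nil) .nil))) 
(.lf (nat_lit 488121) (.g (nat_lit 3866) (.e (nat_lit 16416) (nat_lit 3) (.e (nat_lit 204869) (nat_lit 29) (.e (nat_lit 360474) (nat_lit 8) (.e (nat_lit 557072) (nat_lit 9) (.e (nat_lit 2741) (nat_lit 174) (.e (nat_lit 253989) (nat_lit 11) .nil)))))) (.g (nat_lit 1) (.e (nat_lit 137860) (nat_lit 0) .nil) .nil)))) (.nd (nat_lit 9) 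
(.lf (nat_lit 487865) (.g (nat_lit 3504) (.e (nat_lit 16412) (nat_lit 2) (.e (nat_lit 196654) (nat_lit 11) (.e (nat_lit 16416) (nat_lit 3) (.e (nat_lit 204809) (nat_lit 9) (.e (nat_lit 426124) (nat_lit 2) (.e (nat_lit 196656) (nat_lit 11) .nil)))))) (.g (nat_lit 1) (.e (nat_lit 137376) (nat_lit 0) .nil) .nil))) 
(.lf (nat_lit 488377) (.g (nat_lit 2478) (.e (nat_lit 16433) (nat_lit 9) (.e (nat_lit 426566) (nat_lit 34) (.e (nat_lit 393253) (nat_lit 18) (.e (nat_lit 164322) (nat_lit 230) (.e (nat_lit 163867) (nat_lit 2) (.e (nat_lit 196656) (nat_lit 11) .nil)))))) (.g (nat_lit 1) (.e (nat_lit 138311) (nat_lit 0) .nil) .nil)))))) (.nd (nat_lit 7) (.nd (nat_lit 8) (.nd (nat_lit 9) 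
(.lf (nat_lit 487545) (.g (nat_lit 3855) (.e (nat_lit 24665) (nat_lit 14) (.e (nat_lit 401414) (nat_lit 0) (.e (nat_lit 3238) (nat_lit 197) (.e (nat_lit 532535) (nat_lit 9) (.e (nat_lit 336176) (nat_lit 10) (.e (nat_lit 344133) (nat_lit 26) (.e (nat_lit 564992) (nat_lit 11) .nil))))))) (.g (nat_lit 1) (.e (nat_lit 135718) (nat_lit 0) .nil) .nil))) 
(.lf (nat_lit 488057) (.g (nat_lit 2547) (.e (nat_lit 16416) (nat_lit 3) (.e (nat_lit 204837) (nat_lit 20) (.e (nat_lit 114718) (nat_lit 23) (.e (nat_lit 98334) (nat_lit 18) (.e (nat_lit 164329) (nat_lit 230) (.e (nat_lit 163867) (nat_lit 2) (.e (nat_lit 196656) (nat_lit 11) .nil))))))) (.g (nat_lit 1) (.e (nat_lit 137771) (nat_lit 0) .nil) .nil)))) (.nd (nat_lit 9) 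
(.lf (nat_lit 487801) (.g (nat_lit 1330) (.e (nat_lit 16409) (nat_lit 2) (.e (nat_lit 196654) (nat_lit 11) (.e (nat_lit 16416) (nat_lit 3) (.e (nat_lit 204809) (nat_lit 9) .nil)))) (.g (nat_lit 0) (.e (nat_lit 137121) (nat_lit 0) .nil) .nil))) 
(.lf (nat_lit 488313) (.g (nat_lit 2497) (.e (nat_lit 16425) (nat_lit 7) (.e (nat_lit 409649) (nat_lit 18) (.e (nat_lit 303140) (nat_lit 10) (.e (nat_lit 434275) (nat_lit 39) (.e (nat_lit 671488) (nat_lit 14) (.e (nat_lit 1161) (nat_lit 86) (.e (nat_lit 49185) (nat_lit 11) .nil))))))) (.g (nat_lit 1) (.e (nat_lit 138183) (nat_lit 0) .nil) .nil))))) (.nd (nat_lit 8) (.nd (nat_lit 9) 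
(.lf (nat_lit 487673) (.g (nat_lit 382) (.e (nat_lit 24665) (nat_lit 14) (.e (nat_lit 401467) (nat_lit 27) (.e (nat_lit 336387) (nat_lit 27) .nil))) (.g (nat_lit 0) (.e (nat_lit 136341) (nat_lit 0) .nil) .nil))) 
(.lf (nat_lit 488185) (.g (nat_lit 3513) (.e (nat_lit 16425) (nat_lit 7) (.e (nat_lit 409616) (nat_lit 10) (.e (nat_lit 934) (nat_lit 76) (.e (nat_lit 786480) (nat_lit 29) (.e (nat_lit 352312) (nat_lit 22) (.e (nat_lit 98048) (nat_lit 2) .nil)))))) (.g (nat_lit 1) (.e (nat_lit 138023) (nat_lit 0) .nil) .nil)))) (.nd (nat_lit 9) 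
(.lf (nat_lit 487929) (.g (nat_lit 1797) (.e (nat_lit 16412) (nat_lit 2) (.e (nat_lit 196681) (nat_lit 17) (.e (nat_lit 131123) (nat_lit 12) (.e (nat_lit 385068) (nat_lit 26) (.e (nat_lit 532490) (nat_lit 0) .nil))))) (.g (nat_lit 0) (.e (nat_lit 137486) (nat_lit 0) .nil) .nil))) 
(.lf (nat_lit 488441) (.g (nat_lit 3859) (.e (nat_lit 16433) (nat_lit 9) (.e (nat_lit 426568) (nat_lit 34) (.e (nat_lit 393251) (nat_lit 18) (.e (nat_lit 164332) (nat_lit 230) (.e (nat_lit 163869) (nat_lit 2) (.e (nat_lit 196656) (nat_lit 11) .nil)))))) (.g (nat_lit 1) (.e (nat_lit 138377) (nat_lit 0) .nil) .nil)))))))))) 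
(.nd (nat_lit 3) (.nd (nat_lit 4) (.nd (nat_lit 5) (.nd (nat_lit 6) (.nd (nat_lit 7) 
(.nd (nat_lit 8) (.nd (nat_lit 9) 
(.lf (nat_lit 487429) (.g (nat_lit 4880) (.e (nat_lit 24662) (nat_lit 14) (.e (nat_lit 401425) (nat_lit 2) (.e (nat_lit 196666) (nat_lit 13) (.e (nat_lit 65610) (nat_lit 10) (.e (nat_lit 344090) (nat_lit 18) (.e (nat_lit 4068) (nat_lit 245) (.e (nat_lit 2556) (nat_lit 159) .nil))))))) (.g (nat_lit 1) (.e (nat_lit 135444) (nat_lit 0) .nil) .nil))) 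
(.lf (nat_lit 487941) (.g (nat_lit 3039) (.e (nat_lit 16413) (nat_lit 2) (.e (nat_lit 196666) (nat_lit 13) (.e (nat_lit 65617) (nat_lit 10) (.e (nat_lit 344130) (nat_lit 26) (.e (nat_lit 557065) (nat_lit 9) (.e (nat_lit 2741) (nat_lit 174) (.e (nat_lit 253990) (nat_lit 11) .nil))))))) (.g (nat_lit 1) (.e (nat_lit 137519) (nat_lit 0) .nil) .nil)))) (.nd (nat_lit 9) 
(.lf (nat_lit 487685) (.g (nat_lit 1272) (.e (nat_lit 24665) (nat_lit 14) (.e (nat_lit 409344) (nat_lit 27) (.e (nat_lit 336444) (nat_lit 32) (.e (nat_lit 466977) (nat_lit 22) (.e (nat_lit 204544) (nat_lit 2) .nil))))) (.g (nat_lit 1) (.e (nat_lit 136379) (nat_lit 0) .nil) .nil))) 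
(.lf (nat_lit 488197) (.g (nat_lit 390) (.e (nat_lit 16425) (nat_lit 7) (.e (nat_lit 409617) (nat_lit 10) (.e (nat_lit 848) (nat_lit 73) .nil))) (.g (nat_lit 0) (.e (nat_lit 138059) (nat_lit 0) .nil) .nil))))) (.nd (nat_lit 8) (.nd (nat_lit 9) 
(.lf (nat_lit 487557) (.g (nat_lit 4187) (.e (nat_lit 24665) (nat_lit 14) (.e (nat_lit 401423) (nat_lit 2) (.e (nat_lit 196666) (nat_lit 13) (.e (nat_lit 65610) (nat_lit 10) (.e (nat_lit 344097) (nat_lit 18) (.e (nat_lit 4066) (nat_lit 245) (.e (nat_lit 2555) (nat_lit 159) .nil))))))) (.g (nat_lit 1) (.e (nat_lit 135866) (nat_lit 0) .nil) .nil))) 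
(.lf (nat_lit 488069) (.g (nat_lit 3392) (.e (nat_lit 16416) (nat_lit 3) (.e (nat_lit 204838) (nat_lit 20) (.e (nat_lit 114717) (nat_lit 23) (.e (nat_lit 98334) (nat_lit 18) (.e (nat_lit 164330) (nat_lit 230) (.e (nat_lit 163869) (nat_lit 2) (.e (nat_lit 196654) (nat_lit 11) .nil))))))) (.g (nat_lit 1) (.e (nat_lit 137784) (nat_lit 0) .nil) .nil)))) (.nd (nat_lit 9) 
(.lf (nat_lit 487813) (.g (nat_lit 3075) (.e (nat_lit 16410) (nat_lit 2) (.e (nat_lit 196654) (nat_lit 11) (.e (nat_lit 16416) (nat_lit 3) (.e (nat_lit 204813) (nat_lit 9) (.e (nat_lit 426116) (nat_lit 2) (.e (nat_lit 196656) (nat_lit 11) .nil)))))) (.g (nat_lit 1) (.e (nat_lit 137191) (nat_lit 0) .nil) .nil))) 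
(.lf (nat_lit 488325) (.g (nat_lit 2184) (.e (nat_lit 16425) (nat_lit 7) (.e (nat_lit 409649) (nat_lit 18) (.e (nat_lit 303143) (nat_lit 12) (.e (nat_lit 475199) (nat_lit 40) (.e (nat_lit 704814) (nat_lit 14) .nil))))) (.g (nat_lit 0) (.e (nat_lit 138195) (nat_lit 0) .nil) .nil)))))) (.nd (nat_lit 7) (.nd (nat_lit 8) (.nd (nat_lit 9) 
(.lf (nat_lit 487493) (.g (nat_lit 3522) (.e (nat_lit 24662) (nat_lit 14) (.e (nat_lit 401459) (nat_lit 13) (.e (nat_lit 483372) (nat_lit 21) (.e (nat_lit 319512) (nat_lit 10) .nil)))) (.g (nat_lit 0) (.e (nat_lit 135570) (nat_lit 0) .nil) .nil))) 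
(.lf (nat_lit 488005) (.g (nat_lit 2384) (.e (nat_lit 16416) (nat_lit 3) (.e (nat_lit 204809) (nat_lit 9) (.e (nat_lit 426139) (nat_lit 3) (.e (nat_lit 204813) (nat_lit 9) (.e (nat_lit 426115) (nat_lit 2) (.e (nat_lit 196654) (nat_lit 11) .nil)))))) (.g (nat_lit 1) (.e (nat_lit 137712) (nat_lit 0) .nil) .nil)))) (.nd (nat_lit 9) 
(.lf (nat_lit 487749) (.g (nat_lit 3329) (.e (nat_lit 16385) (nat_lit 0) (.e (nat_lit 7581) (nat_lit 405) (.e (nat_lit 57464) (nat_lit 23) (.e (nat_lit 516166) (nat_lit 12) (.e (nat_lit 450588) (nat_lit 10) (.e (nat_lit 573471) (nat_lit 11) .nil)))))) (.g (nat_lit 1) (.e (nat_lit 136845) (nat_lit 0) .nil) .nil))) 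
(.lf (nat_lit 488261) (.g (nat_lit 2760) (.e (nat_lit 16425) (nat_lit 7) (.e (nat_lit 409647) (nat_lit 18) (.e (nat_lit 303143) (nat_lit 12) (.e (nat_lit 475199) (nat_lit 40) (.e (nat_lit 704777) (nat_lit 14) (.e (nat_lit 2587) (nat_lit 162) (.e (nat_lit 49189) (nat_lit 11) .nil))))))) (.g (nat_lit 1) (.e (nat_lit 138124) (nat_lit 0) .nil) .nil))))) (.nd (nat_lit 8) (.nd (nat_lit 9) 
(.lf (nat_lit 487621) (.g (nat_lit 3169) (.e (nat_lit 24665) (nat_lit 14) (.e (nat_lit 401448) (nat_lit 10) (.e (nat_lit 434287) (nat_lit 43) (.e (nat_lit 696341) (nat_lit 7) (.e (nat_lit 164217) (nat_lit 178) (.e (nat_lit 123175) (nat_lit 258) .nil)))))) (.g (nat_lit 1) (.e (nat_lit 136183) (nat_lit 0) .nil) .nil))) 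
(.lf (nat_lit 488133) (.g (nat_lit 2437) (.e (nat_lit 16417) (nat_lit 3) (.e (nat_lit 204854) (nat_lit 26) (.e (nat_lit 336115) (nat_lit 9) (.e (nat_lit 336326) (nat_lit 18) (.e (nat_lit 204835) (nat_lit 19) (.e (nat_lit 106534) (nat_lit 11) .nil)))))) (.g (nat_lit 1) (.e (nat_lit 137916) (nat_lit 0) .nil) .nil)))) (.nd (nat_lit 9) 
(.lf (nat_lit 487877) (.g (nat_lit 1412) (.e (nat_lit 16412) (nat_lit 2) (.e (nat_lit 196656) (nat_lit 11) (.e (nat_lit 16417) (nat_lit 3) (.e (nat_lit 204813) (nat_lit 9) .nil)))) (.g (nat_lit 0) (.e (nat_lit 137406) (nat_lit 0) .nil) .nil))) 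
(.lf (nat_lit 488389) (.g (nat_lit 3982) (.e (nat_lit 16433) (nat_lit 9) (.e (nat_lit 426566) (nat_lit 34) (.e (nat_lit 393253) (nat_lit 18) (.e (nat_lit 164327) (nat_lit 230) (.e (nat_lit 163868) (nat_lit 2) (.e (nat_lit 196654) (nat_lit 11) .nil)))))) (.g (nat_lit 1) (.e (nat_lit 138323) (nat_lit 0) .nil) .nil))))))) (.nd (nat_lit 6) (.nd (nat_lit 7) (.nd (nat_lit 8) (.nd (nat_lit 9) 
(.lf (nat_lit 487461) (.g (nat_lit 881) (.e (nat_lit 24662) (nat_lit 14) (.e (nat_lit 401459) (nat_lit 13) (.e (nat_lit 483343) (nat_lit 17) (.e (nat_lit 6220) (nat_lit 333) .nil)))) (.g (nat_lit 0) (.e (nat_lit 135537) (nat_lit 0) .nil) .nil))) 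
(.lf (nat_lit 487973) (.g (nat_lit 415) (.e (nat_lit 16415) (nat_lit 3) (.e (nat_lit 204861) (nat_lit 26) (.e (nat_lit 336076) (nat_lit 9) .nil))) (.g (nat_lit 0) (.e (nat_lit 137658) (nat_lit 0) .nil) .nil)))) (.nd (nat_lit 9) 
(.lf (nat_lit 487717) (.g (nat_lit 2054) (.e (nat_lit 32512) (nat_lit 18) (.e (nat_lit 204863) (nat_lit 27) (.e (nat_lit 344130) (nat_lit 26) (.e (nat_lit 557097) (nat_lit 13) (.e (nat_lit 172073) (nat_lit 5) .nil))))) (.g (nat_lit 0) (.e (nat_lit 136474) (nat_lit 0) .nil) .nil))) 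
(.lf (nat_lit 488229) (.g (nat_lit 2796) (.e (nat_lit 16425) (nat_lit 7) (.e (nat_lit 409645) (nat_lit 18) (.e (nat_lit 303143) (nat_lit 12) (.e (nat_lit 475199) (nat_lit 40) (.e (nat_lit 704768) (nat_lit 14) .nil))))) (.g (nat_lit 0) (.e (nat_lit 138092) (nat_lit 0) .nil) .nil))))) (.nd (nat_lit 8) (.nd (nat_lit 9) 
(.lf (nat_lit 487589) (.g (nat_lit 2775) (.e (nat_lit 24665) (nat_lit 14) (.e (nat_lit 401440) (nat_lit 9) (.e (nat_lit 426158) (nat_lit 6) (.e (nat_lit 253991) (nat_lit 11) (.e (nat_lit 16388) (nat_lit 0) (.e (nat_lit 7377) (nat_lit 390) .nil)))))) (.g (nat_lit 1) (.e (nat_lit 136061) (nat_lit 0) .nil) .nil))) 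
(.lf (nat_lit 488101) (.g (nat_lit 1355) (.e (nat_lit 16416) (nat_lit 3) (.e (nat_lit 204861) (nat_lit 26) (.e (nat_lit 336194) (nat_lit 12) (.e (nat_lit 385059) (nat_lit 22) (.e (nat_lit 500056) (nat_lit 17) .nil))))) (.g (nat_lit 0) (.e (nat_lit 137835) (nat_lit 0) .nil) .nil)))) (.nd (nat_lit 9) 
(.lf (nat_lit 487845) (.g (nat_lit 1020) (.e (nat_lit 16411) (nat_lit 2) (.e (nat_lit 196672) (nat_lit 15) (.e (nat_lit 81946) (nat_lit 20) (.e (nat_lit 1858) (nat_lit 124) .nil)))) (.g (nat_lit 0) (.e (nat_lit 137316) (nat_lit 0) .nil) .nil))) 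
(.lf (nat_lit 488357) (.g (nat_lit 3544) (.e (nat_lit 16433) (nat_lit 9) (.e (nat_lit 426566) (nat_lit 34) (.e (nat_lit 393251) (nat_lit 18) (.e (nat_lit 164325) (nat_lit 230) (.e (nat_lit 163868) (nat_lit 2) (.e (nat_lit 196654) (nat_lit 11) .nil)))))) (.g (nat_lit 1) (.e (nat_lit 138289) (nat_lit 0) .nil) .nil)))))) (.nd (nat_lit 7) (.nd (nat_lit 8) (.nd (nat_lit 9) 
(.lf (nat_lit 487525) (.g (nat_lit 4013) (.e (nat_lit 24664) (nat_lit 14) (.e (nat_lit 401427) (nat_lit 3) (.e (nat_lit 204869) (nat_lit 29) (.e (nat_lit 360475) (nat_lit 8) (.e (nat_lit 557087) (nat_lit 11) .nil))))) (.g (nat_lit 1) (.e (nat_lit 135628) (nat_lit 0) .nil) .nil))) 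
(.lf (nat_lit 488037) (.g (nat_lit 1941) (.e (nat_lit 16416) (nat_lit 3) (.e (nat_lit 204813) (nat_lit 9) (.e (nat_lit 426133) (nat_lit 3) (.e (nat_lit 204813) (nat_lit 9) (.e (nat_lit 426123) (nat_lit 2) (.e (nat_lit 196654) (nat_lit 11) .nil)))))) (.g (nat_lit 1) (.e (nat_lit 137750) (nat_lit 0) .nil) .nil)))) (.nd (nat_lit 9) 
(.lf (nat_lit 487781) (.g (nat_lit 2756) (.e (nat_lit 16388) (nat_lit 0) (.e (nat_lit 7377) (nat_lit 390) (.e (nat_lit 24665) (nat_lit 14) (.e (nat_lit 401440) (nat_lit 9) (.e (nat_lit 426158) (nat_lit 6) (.e (nat_lit 253990) (nat_lit 11) .nil)))))) (.g (nat_lit 1) (.e (nat_lit 136896) (nat_lit 0) .nil) .nil))) 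
(.lf (nat_lit 488293) (.g (nat_lit 3499) (.e (nat_lit 16425) (nat_lit 7) (.e (nat_lit 409648) (nat_lit 18) (.e (nat_lit 303143) (nat_lit 12) (.e (nat_lit 475199) (nat_lit 40) (.e (nat_lit 704790) (nat_lit 14) (.e (nat_lit 2592) (nat_lit 162) (.e (nat_lit 49189) (nat_lit 11) .nil))))))) (.g (nat_lit 1) (.e (nat_lit 138161) (nat_lit 0) .nil) .nil))))) (.nd (nat_lit 8) (.nd (nat_lit 9) 
(.lf (nat_lit 487653) (.g (nat_lit 1349) (.e (nat_lit 24665) (nat_lit 14) (.e (nat_lit 401451) (nat_lit 12) (.e (nat_lit 475212) (nat_lit 42) .nil))) (.g (nat_lit 0) (.e (nat_lit 136250) (nat_lit 0) .nil) .nil))) 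
(.lf (nat_lit 488165) (.g (nat_lit 2569) (.e (nat_lit 16424) (nat_lit 7) (.e (nat_lit 409645) (nat_lit 18) (.e (nat_lit 303143) (nat_lit 12) (.e (nat_lit 475219) (nat_lit 44) (.e (nat_lit 737318) (nat_lit 15) (.e (nat_lit 49189) (nat_lit 11) .nil)))))) (.g (nat_lit 1) (.e (nat_lit 137977) (nat_lit 0) .nil) .nil)))) (.nd (nat_lit 9) 
(.lf (nat_lit 487909) (.g (nat_lit 3802) (.e (nat_lit 16412) (nat_lit 2) (.e (nat_lit 196674) (nat_lit 15) (.e (nat_lit 81946) (nat_lit 20) (.e (nat_lit 1858) (nat_lit 124) (.e (nat_lit 557072) (nat_lit 9) (.e (nat_lit 2741) (nat_lit 174) (.e (nat_lit 253989) (nat_lit 11) .nil))))))) (.g (nat_lit 1) (.e (nat_lit 137444) (nat_lit 0) .nil) .nil))) 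
(.lf (nat_lit 488421) (.g (nat_lit 3429) (.e (nat_lit 16433) (nat_lit 9) (.e (nat_lit 426566) (nat_lit 34) (.e (nat_lit 393254) (nat_lit 18) (.e (nat_lit 164327) (nat_lit 230) (.e (nat_lit 163868) (nat_lit 2) (.e (nat_lit 196654) (nat_lit 11) .nil)))))) (.g (nat_lit 1) (.e (nat_lit 138355) (nat_lit 0) .nil) .nil)))))))) 
(.nd (nat_lit 5) (.nd (nat_lit 6) (.nd (nat_lit 7) (.nd (nat_lit 8) (.nd (nat_lit 9) 
(.lf (nat_lit 487445) (.g (nat_lit 2531) (.e (nat_lit 24662) (nat_lit 14) (.e (nat_lit 401425) (nat_lit 2) (.e (nat_lit 196666) (nat_lit 13) (.e (nat_lit 65617) (nat_lit 10) (.e (nat_lit 344133) (nat_lit 26) (.e (nat_lit 564992) (nat_lit 11) .nil)))))) (.g (nat_lit 1) (.e (nat_lit 135467) (nat_lit 0) .nil) .nil))) 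
(.lf (nat_lit 487957) (.g (nat_lit 804) (.e (nat_lit 16413) (nat_lit 2) (.e (nat_lit 196672) (nat_lit 15) (.e (nat_lit 81924) (nat_lit 0) (.e (nat_lit 3234) (nat_lit 197) .nil)))) (.g (nat_lit 0) (.e (nat_lit 137537) (nat_lit 0) .nil) .nil)))) (.nd (nat_lit 9) 
(.lf (nat_lit 487701) (.g (nat_lit 1775) (.e (nat_lit 32512) (nat_lit 18) (.e (nat_lit 204862) (nat_lit 27) (.e (nat_lit 344130) (nat_lit 26) (.e (nat_lit 557103) (nat_lit 14) (.e (nat_lit 188160) (nat_lit 1) .nil))))) (.g (nat_lit 0) (.e (nat_lit 136458) (nat_lit 0) .nil) .nil))) 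
(.lf (nat_lit 488213) (.g (nat_lit 2258) (.e (nat_lit 16425) (nat_lit 7) (.e (nat_lit 409643) (nat_lit 18) (.e (nat_lit 303143) (nat_lit 12) (.e (nat_lit 475199) (nat_lit 40) (.e (nat_lit 704814) (nat_lit 14) .nil))))) (.g (nat_lit 0) (.e (nat_lit 138076) (nat_lit 0) .nil) .nil))))) (.nd (nat_lit 8) (.nd (nat_lit 9) 
(.lf (nat_lit 487573) (.g (nat_lit 2542) (.e (nat_lit 24665) (nat_lit 14) (.e (nat_lit 401426) (nat_lit 3) (.e (nat_lit 204869) (nat_lit 29) (.e (nat_lit 360474) (nat_lit 8) (.e (nat_lit 564992) (nat_lit 11) .nil))))) (.g (nat_lit 0) (.e (nat_lit 135934) (nat_lit 0) .nil) .nil))) 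
(.lf (nat_lit 488085) (.g (nat_lit 2929) (.e (nat_lit 16416) (nat_lit 3) (.e (nat_lit 204838) (nat_lit 20) (.e (nat_lit 114719) (nat_lit 23) (.e (nat_lit 98334) (nat_lit 18) (.e (nat_lit 164332) (nat_lit 230) (.e (nat_lit 163867) (nat_lit 2) (.e (nat_lit 196654) (nat_lit 11) .nil))))))) (.g (nat_lit 1) (.e (nat_lit 137800) (nat_lit 0) .nil) .nil)))) (.nd (nat_lit 9) 
(.lf (nat_lit 487829) (.g (nat_lit 3072) (.e (nat_lit 16411) (nat_lit 2) (.e (nat_lit 196654) (nat_lit 11) (.e (nat_lit 16416) (nat_lit 3) (.e (nat_lit 204809) (nat_lit 9) (.e (nat_lit 426124) (nat_lit 2) (.e (nat_lit 196654) (nat_lit 11) .nil)))))) (.g (nat_lit 1) (.e (nat_lit 137265) (nat_lit 0) .nil) .nil))) 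
(.lf (nat_lit 488341) (.g (nat_lit 3725) (.e (nat_lit 16433) (nat_lit 9) (.e (nat_lit 426354) (nat_lit 15) (.e (nat_lit 1860) (nat_lit 124) (.e (nat_lit 557100) (nat_lit 13) (.e (nat_lit 172113) (nat_lit 10) (.e (nat_lit 434245) (nat_lit 28) (.e (nat_lit 573470) (nat_lit 11) .nil))))))) (.g (nat_lit 1) (.e (nat_lit 138261) (nat_lit 0) .nil) .nil)))))) 
(.nd (nat_lit 7) (.nd (nat_lit 8) (.nd (nat_lit 9) 
(.lf (nat_lit 487509) (.g (nat_lit 2404) (.e (nat_lit 24662) (nat_lit 14) (.e (nat_lit 401459) (nat_lit 13) (.e (nat_lit 483411) (nat_lit 27) (.e (nat_lit 401415) (nat_lit 0) .nil)))) (.g (nat_lit 0) (.e (nat_lit 135588) (nat_lit 0) .nil) .nil))) 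
(.lf (nat_lit 488021) (.g (nat_lit 3067) (.e (nat_lit 16416) (nat_lit 3) (.e (nat_lit 204813) (nat_lit 9) (.e (nat_lit 426124) (nat_lit 2) (.e (nat_lit 196654) (nat_lit 11) (.e (nat_lit 16411) (nat_lit 2) (.e (nat_lit 196656) (nat_lit 11) .nil)))))) (.g (nat_lit 1) (.e (nat_lit 137734) (nat_lit 0) .nil) .nil)))) (.nd (nat_lit 9) 
(.lf (nat_lit 487765) (.g (nat_lit 2787) (.e (nat_lit 16388) (nat_lit 0) (.e (nat_lit 3213) (nat_lit 195) (.e (nat_lit 516131) (nat_lit 3) (.e (nat_lit 221211) (nat_lit 22) (.e (nat_lit 196666) (nat_lit 13) (.e (nat_lit 65566) (nat_lit 2) (.e (nat_lit 98048) (nat_lit 2) .nil))))))) (.g (nat_lit 1) (.e (nat_lit 136864) (nat_lit 0) .nil) .nil))) 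
(.lf (nat_lit 488277) (.g (nat_lit 2819) (.e (nat_lit 16425) (nat_lit 7) (.e (nat_lit 409648) (nat_lit 18) (.e (nat_lit 303137) (nat_lit 10) (.e (nat_lit 434275) (nat_lit 39) (.e (nat_lit 671488) (nat_lit 14) (.e (nat_lit 1163) (nat_lit 86) (.e (nat_lit 49185) (nat_lit 11) .nil))))))) (.g (nat_lit 1) (.e (nat_lit 138145) (nat_lit 0) .nil) .nil))))) (.nd (nat_lit 8) (.nd (nat_lit 9) 
(.lf (nat_lit 487637) (.g (nat_lit 2512) (.e (nat_lit 24665) (nat_lit 14) (.e (nat_lit 401448) (nat_lit 10) (.e (nat_lit 434291) (nat_lit 44) (.e (nat_lit 704737) (nat_lit 11) (.e (nat_lit 16386) (nat_lit 0) (.e (nat_lit 7936) (nat_lit 390) .nil)))))) (.g (nat_lit 1) (.e (nat_lit 136215) (nat_lit 0) .nil) .nil))) 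
(.lf (nat_lit 488149) (.g (nat_lit 593) (.e (nat_lit 16424) (nat_lit 7) (.e (nat_lit 409617) (nat_lit 10) (.e (nat_lit 632) (nat_lit 50) .nil))) (.g (nat_lit 0) (.e (nat_lit 137948) (nat_lit 0) .nil) .nil)))) (.nd (nat_lit 9) 
(.lf (nat_lit 487893) (.g (nat_lit 3463) (.e (nat_lit 16412) (nat_lit 2) (.e (nat_lit 196666) (nat_lit 13) (.e (nat_lit 65610) (nat_lit 10) (.e (nat_lit 344129) (nat_lit 26) (.e (nat_lit 557067) (nat_lit 9) (.e (nat_lit 2739) (nat_lit 174) (.e (nat_lit 253989) (nat_lit 11) .nil))))))) (.g (nat_lit 1) (.e (nat_lit 137422) (nat_lit 0) .nil) .nil))) 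
(.lf (nat_lit 488405) (.g (nat_lit 2243) (.e (nat_lit 16433) (nat_lit 9) (.e (nat_lit 426566) (nat_lit 34) (.e (nat_lit 393254) (nat_lit 18) (.e (nat_lit 164322) (nat_lit 230) (.e (nat_lit 163866) (nat_lit 2) (.e (nat_lit 196654) (nat_lit 11) .nil)))))) (.g (nat_lit 1) (.e (nat_lit 138339) (nat_lit 0) .nil) .nil))))))) (.nd (nat_lit 6) (.nd (nat_lit 7) (.nd (nat_lit 8) (.nd (nat_lit 9) 
(.lf (nat_lit 487477) (.g (nat_lit 1179) (.e (nat_lit 24662) (nat_lit 14) (.e (nat_lit 401459) (nat_lit 13) (.e (nat_lit 483371) (nat_lit 21) (.e (nat_lit 319499) (nat_lit 10) (.e (nat_lit 7936) (nat_lit 314) .nil))))) (.g (nat_lit 0) (.e (nat_lit 135554) (nat_lit 0) .nil) .nil))) 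
(.lf (nat_lit 487989) (.g (nat_lit 4721) (.e (nat_lit 16415) (nat_lit 3) (.e (nat_lit 204885) (nat_lit 33) (.e (nat_lit 401451) (nat_lit 12) (.e (nat_lit 475179) (nat_lit 24) (.e (nat_lit 516124) (nat_lit 2) (.e (nat_lit 220928) (nat_lit 2) .nil)))))) (.g (nat_lit 1) (.e (nat_lit 137680) (nat_lit 0) .nil) .nil)))) (.nd (nat_lit 9) 
(.lf (nat_lit 487733) (.g (nat_lit 3635) (.e (nat_lit 24675) (nat_lit 27) (.e (nat_lit 433920) (nat_lit 35) (.e (nat_lit 401454) (nat_lit 12) (.e (nat_lit 475179) (nat_lit 24) (.e (nat_lit 516119) (nat_lit 1) (.e (nat_lit 164345) (nat_lit 240) (.e (nat_lit 2555) (nat_lit 159) .nil))))))) (.g (nat_lit 1) (.e (nat_lit 136604) (nat_lit 0) .nil) .nil))) 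
(.lf (nat_lit 488245) (.g (nat_lit 1304) (.e (nat_lit 16425) (nat_lit 7) (.e (nat_lit 409646) (nat_lit 18) (.e (nat_lit 303143) (nat_lit 12) (.e (nat_lit 475197) (nat_lit 40) .nil)))) (.g (nat_lit 0) (.e (nat_lit 138108) (nat_lit 0) .nil) .nil))))) (.nd (nat_lit 8) (.nd (nat_lit 9) 
(.lf (nat_lit 487605) (.g (nat_lit 1413) (.e (nat_lit 24665) (nat_lit 14) (.e (nat_lit 401448) (nat_lit 10) (.e (nat_lit 434202) (nat_lit 18) (.e (nat_lit 6068) (nat_lit 328) .nil)))) (.g (nat_lit 0) (.e (nat_lit 136143) (nat_lit 0) .nil) .nil))) 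
(.lf (nat_lit 488117) (.g (nat_lit 2727) (.e (nat_lit 16416) (nat_lit 3) (.e (nat_lit 204869) (nat_lit 29) (.e (nat_lit 360450) (nat_lit 0) (.e (nat_lit 4132) (nat_lit 246) .nil)))) (.g (nat_lit 0) (.e (nat_lit 137856) (nat_lit 0) .nil) .nil)))) (.nd (nat_lit 9) 
(.lf (nat_lit 487861) (.g (nat_lit 3679) (.e (nat_lit 16412) (nat_lit 2) (.e (nat_lit 196654) (nat_lit 11) (.e (nat_lit 16415) (nat_lit 3) (.e (nat_lit 204809) (nat_lit 9) (.e (nat_lit 426124) (nat_lit 2) (.e (nat_lit 196656) (nat_lit 11) .nil)))))) (.g (nat_lit 1) (.e (nat_lit 137364) (nat_lit 0) .nil) .nil))) 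
(.lf (nat_lit 488373) (.g (nat_lit 355) (.e (nat_lit 16433) (nat_lit 9) (.e (nat_lit 426566) (nat_lit 34) (.e (nat_lit 393253) (nat_lit 18) .nil))) (.g (nat_lit 0) (.e (nat_lit 138305) (nat_lit 0) .nil) .nil)))))) (.nd (nat_lit 7) (.nd (nat_lit 8) (.nd (nat_lit 9) 
(.lf (nat_lit 487541) (.g (nat_lit 3584) (.e (nat_lit 24664) (nat_lit 14) (.e (nat_lit 401444) (nat_lit 9) (.e (nat_lit 426163) (nat_lit 6) (.e (nat_lit 253991) (nat_lit 11) (.e (nat_lit 16388) (nat_lit 0) (.e (nat_lit 7377) (nat_lit 390) .nil)))))) (.g (nat_lit 1) (.e (nat_lit 135648) (nat_lit 0) .nil) .nil))) 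
(.lf (nat_lit 488053) (.g (nat_lit 3246) (.e (nat_lit 16416) (nat_lit 3) (.e (nat_lit 204837) (nat_lit 20) (.e (nat_lit 114718) (nat_lit 23) (.e (nat_lit 98333) (nat_lit 18) (.e (nat_lit 164325) (nat_lit 230) (.e (nat_lit 163869) (nat_lit 2) (.e (nat_lit 196654) (nat_lit 11) .nil))))))) (.g (nat_lit 1) (.e (nat_lit 137767) (nat_lit 0) .nil) .nil)))) (.nd (nat_lit 9) 
(.lf (nat_lit 487797) (.g (nat_lit 1890) (.e (nat_lit 16407) (nat_lit 1) (.e (nat_lit 164396) (nat_lit 256) (.e (nat_lit 57406) (nat_lit 12) (.e (nat_lit 336443) (nat_lit 32) (.e (nat_lit 466974) (nat_lit 22) .nil))))) (.g (nat_lit 0) (.e (nat_lit 137108) (nat_lit 0) .nil) .nil))) 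
(.lf (nat_lit 488309) (.g (nat_lit 3496) (.e (nat_lit 16425) (nat_lit 7) (.e (nat_lit 409649) (nat_lit 18) (.e (nat_lit 303140) (nat_lit 10) (.e (nat_lit 434275) (nat_lit 39) (.e (nat_lit 663574) (nat_lit 9) (.e (nat_lit 2418) (nat_lit 157) (.e (nat_lit 3510) (nat_lit 218) (.e (nat_lit 704732) (nat_lit 11) .nil)))))))) (.g (nat_lit 1) (.e (nat_lit 138177) (nat_lit 0) .nil) .nil))))) 
(.nd (nat_lit 8) (.nd (nat_lit 9) 
(.lf (nat_lit 487669) (.g (nat_lit 1017) (.e (nat_lit 24665) (nat_lit 14) (.e (nat_lit 409344) (nat_lit 18) (.e (nat_lit 98363) (nat_lit 26) (.e (nat_lit 426318) (nat_lit 12) (.e (nat_lit 483072) (nat_lit 2) .nil))))) (.g (nat_lit 1) (.e (nat_lit 136337) (nat_lit 0) .nil) .nil))) 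
(.lf (nat_lit 488181) (.g (nat_lit 2468) (.e (nat_lit 16425) (nat_lit 7) (.e (nat_lit 409616) (nat_lit 10) (.e (nat_lit 632) (nat_lit 50) (.e (nat_lit 573485) (nat_lit 13) (.e (nat_lit 65623) (nat_lit 12) (.e (nat_lit 392960) (nat_lit 2) .nil)))))) (.g (nat_lit 1) (.e (nat_lit 138007) (nat_lit 0) .nil) .nil)))) (.nd (nat_lit 9) 
(.lf (nat_lit 487925) (.g (nat_lit 3080) (.e (nat_lit 16412) (nat_lit 2) (.e (nat_lit 196681) (nat_lit 17) (.e (nat_lit 131109) (nat_lit 9) (.e (nat_lit 336324) (nat_lit 18) (.e (nat_lit 204835) (nat_lit 19) (.e (nat_lit 106534) (nat_lit 11) .nil)))))) (.g (nat_lit 1) (.e (nat_lit 137477) (nat_lit 0) .nil) .nil))) 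
(.lf (nat_lit 488437) (.g (nat_lit 2158) (.e (nat_lit 16433) (nat_lit 9) (.e (nat_lit 426568) (nat_lit 34) (.e (nat_lit 393251) (nat_lit 18) (.e (nat_lit 164332) (nat_lit 230) (.e (nat_lit 163867) (nat_lit 2) (.e (nat_lit 196652) (nat_lit 11) .nil)))))) (.g (nat_lit 1) (.e (nat_lit 138373) (nat_lit 0) .nil) .nil))))))))) 
(.nd (nat_lit 4) (.nd (nat_lit 5) (.nd (nat_lit 6) (.nd (nat_lit 7) (.nd (nat_lit 8) 
(.nd (nat_lit 9) 
(.lf (nat_lit 487437) (.g (nat_lit 5858) (.e (nat_lit 24662) (nat_lit 14) (.e (nat_lit 401425) (nat_lit 2) (.e (nat_lit 196666) (nat_lit 13) (.e (nat_lit 65610) (nat_lit 10) (.e (nat_lit 344097) (nat_lit 18) (.e (nat_lit 4073) (nat_lit 245) (.e (nat_lit 2557) (nat_lit 159) .nil))))))) (.g (nat_lit 1) (.e (nat_lit 135454) (nat_lit 0) .nil) .nil))) 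
(.lf (nat_lit 487949) (.g (nat_lit 1647) (.e (nat_lit 16413) (nat_lit 2) (.e (nat_lit 196666) (nat_lit 13) (.e (nat_lit 65624) (nat_lit 12) (.e (nat_lit 385064) (nat_lit 26) .nil)))) (.g (nat_lit 0) (.e (nat_lit 137527) (nat_lit 0) .nil) .nil)))) (.nd (nat_lit 9) 
(.lf (nat_lit 487693) (.g (nat_lit 2680) (.e (nat_lit 32512) (nat_lit 14) (.e (nat_lit 401459) (nat_lit 13) (.e (nat_lit 483372) (nat_lit 21) (.e (nat_lit 319505) (nat_lit 10) .nil)))) (.g (nat_lit 0) (.e (nat_lit 136387) (nat_lit 0) .nil) .nil))) 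
(.lf (nat_lit 488205) (.g (nat_lit 2376) (.e (nat_lit 16425) (nat_lit 7) (.e (nat_lit 409643) (nat_lit 18) (.e (nat_lit 303143) (nat_lit 12) (.e (nat_lit 475199) (nat_lit 40) (.e (nat_lit 704768) (nat_lit 14) .nil))))) (.g (nat_lit 0) (.e (nat_lit 138068) (nat_lit 0) .nil) .nil))))) (.nd (nat_lit 8) (.nd (nat_lit 9) 
(.lf (nat_lit 487565) (.g (nat_lit 1289) (.e (nat_lit 24665) (nat_lit 14) (.e (nat_lit 401423) (nat_lit 2) (.e (nat_lit 196672) (nat_lit 15) (.e (nat_lit 81944) (nat_lit 20) .nil)))) (.g (nat_lit 0) (.e (nat_lit 135887) (nat_lit 0) .nil) .nil))) 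
(.lf (nat_lit 488077) (.g (nat_lit 4106) (.e (nat_lit 16416) (nat_lit 3) (.e (nat_lit 204838) (nat_lit 20) (.e (nat_lit 114718) (nat_lit 23) (.e (nat_lit 98334) (nat_lit 18) (.e (nat_lit 164332) (nat_lit 230) (.e (nat_lit 163867) (nat_lit 2) (.e (nat_lit 196656) (nat_lit 11) .nil))))))) (.g (nat_lit 1) (.e (nat_lit 137792) (nat_lit 0) .nil) .nil)))) (.nd (nat_lit 9) 
(.lf (nat_lit 487821) (.g (nat_lit 2723) (.e (nat_lit 16410) (nat_lit 2) (.e (nat_lit 196666) (nat_lit 13) (.e (nat_lit 65617) (nat_lit 10) (.e (nat_lit 344132) (nat_lit 26) (.e (nat_lit 557072) (nat_lit 9) (.e (nat_lit 2741) (nat_lit 174) (.e (nat_lit 253990) (nat_lit 11) .nil))))))) (.g (nat_lit 1) (.e (nat_lit 137206) (nat_lit 0) .nil) .nil))) 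
(.lf (nat_lit 488333) (.g (nat_lit 639) (.e (nat_lit 16431) (nat_lit 9) (.e (nat_lit 426140) (nat_lit 3) (.e (nat_lit 204816) (nat_lit 17) .nil))) (.g (nat_lit 0) (.e (nat_lit 138232) (nat_lit 0) .nil) .nil)))))) (.nd (nat_lit 7) (.nd (nat_lit 8) (.nd (nat_lit 9) 
(.lf (nat_lit 487501) (.g (nat_lit 3373) (.e (nat_lit 24662) (nat_lit 14) (.e (nat_lit 401459) (nat_lit 13) (.e (nat_lit 483395) (nat_lit 24) (.e (nat_lit 344096) (nat_lit 18) (.e (nat_lit 4764) (nat_lit 281) (.e (nat_lit 2556) (nat_lit 159) .nil)))))) (.g (nat_lit 1) (.e (nat_lit 135579) (nat_lit 0) .nil) .nil))) 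
(.lf (nat_lit 488013) (.g (nat_lit 3672) (.e (nat_lit 16416) (nat_lit 3) (.e (nat_lit 204813) (nat_lit 9) (.e (nat_lit 426116) (nat_lit 2) (.e (nat_lit 196654) (nat_lit 11) (.e (nat_lit 16412) (nat_lit 2) (.e (nat_lit 196654) (nat_lit 11) .nil)))))) (.g (nat_lit 1) (.e (nat_lit 137722) (nat_lit 0) .nil) .nil)))) (.nd (nat_lit 9) 
(.lf (nat_lit 487757) (.g (nat_lit 3417) (.e (nat_lit 16388) (nat_lit 0) (.e (nat_lit 3208) (nat_lit 195) (.e (nat_lit 516129) (nat_lit 3) (.e (nat_lit 221210) (nat_lit 22) (.e (nat_lit 196666) (nat_lit 13) (.e (nat_lit 65566) (nat_lit 2) (.e (nat_lit 98048) (nat_lit 2) .nil))))))) (.g (nat_lit 1) (.e (nat_lit 136856) (nat_lit 0) .nil) .nil))) 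
(.lf (nat_lit 488269) (.g (nat_lit 2295) (.e (nat_lit 16425) (nat_lit 7) (.e (nat_lit 409647) (nat_lit 18) (.e (nat_lit 303143) (nat_lit 12) (.e (nat_lit 475220) (nat_lit 44) (.e (nat_lit 737318) (nat_lit 15) (.e (nat_lit 49188) (nat_lit 11) .nil)))))) (.g (nat_lit 1) (.e (nat_lit 138132) (nat_lit 0) .nil) .nil))))) (.nd (nat_lit 8) (.nd (nat_lit 9) 
(.lf (nat_lit 487629) (.g (nat_lit 3403) (.e (nat_lit 24665) (nat_lit 14) (.e (nat_lit 401448) (nat_lit 10) (.e (nat_lit 434289) (nat_lit 43) (.e (nat_lit 696344) (nat_lit 8) (.e (nat_lit 172035) (nat_lit 0) (.e (nat_lit 7936) (nat_lit 390) .nil)))))) (.g (nat_lit 1) (.e (nat_lit 136197) (nat_lit 0) .nil) .nil))) 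
(.lf (nat_lit 488141) (.g (nat_lit 3606) (.e (nat_lit 16417) (nat_lit 3) (.e (nat_lit 204869) (nat_lit 29) (.e (nat_lit 360475) (nat_lit 8) (.e (nat_lit 557065) (nat_lit 9) .nil)))) (.g (nat_lit 0) (.e (nat_lit 137931) (nat_lit 0) .nil) .nil)))) (.nd (nat_lit 9) 
(.lf (nat_lit 487885) (.g (nat_lit 3554) (.e (nat_lit 16412) (nat_lit 2) (.e (nat_lit 196666) (nat_lit 13) (.e (nat_lit 65610) (nat_lit 10) (.e (nat_lit 344117) (nat_lit 21) (.e (nat_lit 516106) (nat_lit 0) (.e (nat_lit 3356) (nat_lit 207) (.e (nat_lit 614435) (nat_lit 11) .nil))))))) (.g (nat_lit 1) (.e (nat_lit 137414) (nat_lit 0) .nil) .nil))) 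
(.lf (nat_lit 488397) (.g (nat_lit 3484) (.e (nat_lit 16433) (nat_lit 9) (.e (nat_lit 426566) (nat_lit 34) (.e (nat_lit 393253) (nat_lit 18) (.e (nat_lit 164330) (nat_lit 230) (.e (nat_lit 163867) (nat_lit 2) (.e (nat_lit 196654) (nat_lit 11) .nil)))))) (.g (nat_lit 1) (.e (nat_lit 138331) (nat_lit 0) .nil) .nil))))))) (.nd (nat_lit 6) (.nd (nat_lit 7) (.nd (nat_lit 8) (.nd (nat_lit 9) 
(.lf (nat_lit 487469) (.g (nat_lit 3439) (.e (nat_lit 24662) (nat_lit 14) (.e (nat_lit 401459) (nat_lit 13) (.e (nat_lit 483350) (nat_lit 17) (.e (nat_lit 6113) (nat_lit 332) (.e (nat_lit 975) (nat_lit 81) (.e (nat_lit 5750) (nat_lit 314) .nil)))))) (.g (nat_lit 1) (.e (nat_lit 135546) (nat_lit 0) .nil) .nil))) 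
(.lf (nat_lit 487981) (.g (nat_lit 1393) (.e (nat_lit 16415) (nat_lit 3) (.e (nat_lit 204861) (nat_lit 26) (.e (nat_lit 336203) (nat_lit 12) (.e (nat_lit 385067) (nat_lit 26) .nil)))) (.g (nat_lit 0) (.e (nat_lit 137672) (nat_lit 0) .nil) .nil)))) (.nd (nat_lit 9) 
(.lf (nat_lit 487725) (.g (nat_lit 2351) (.e (nat_lit 32512) (nat_lit 18) (.e (nat_lit 204863) (nat_lit 27) (.e (nat_lit 344133) (nat_lit 26) (.e (nat_lit 557098) (nat_lit 13) (.e (nat_lit 172071) (nat_lit 5) .nil))))) (.g (nat_lit 0) (.e (nat_lit 136482) (nat_lit 0) .nil) .nil))) 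
(.lf (nat_lit 488237) (.g (nat_lit 2326) (.e (nat_lit 16425) (nat_lit 7) (.e (nat_lit 409645) (nat_lit 18) (.e (nat_lit 303143) (nat_lit 12) (.e (nat_lit 475216) (nat_lit 44) (.e (nat_lit 737318) (nat_lit 15) (.e (nat_lit 49189) (nat_lit 11) .nil)))))) (.g (nat_lit 1) (.e (nat_lit 138100) (nat_lit 0) .nil) .nil))))) (.nd (nat_lit 8) (.nd (nat_lit 9) 
(.lf (nat_lit 487597) (.g (nat_lit 711) (.e (nat_lit 24665) (nat_lit 14) (.e (nat_lit 401446) (nat_lit 10) (.e (nat_lit 434200) (nat_lit 18) .nil))) (.g (nat_lit 0) (.e (nat_lit 136099) (nat_lit 0) .nil) .nil))) 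
(.lf (nat_lit 488109) (.g (nat_lit 1942) (.e (nat_lit 16416) (nat_lit 3) (.e (nat_lit 204868) (nat_lit 29) (.e (nat_lit 360466) (nat_lit 3) (.e (nat_lit 516120) (nat_lit 1) (.e (nat_lit 171776) (nat_lit 278) .nil))))) (.g (nat_lit 0) (.e (nat_lit 137847) (nat_lit 0) .nil) .nil)))) (.nd (nat_lit 9) 
(.lf (nat_lit 487853) (.g (nat_lit 1137) (.e (nat_lit 16411) (nat_lit 2) (.e (nat_lit 196681) (nat_lit 17) (.e (nat_lit 131122) (nat_lit 12) .nil))) (.g (nat_lit 0) (.e (nat_lit 137338) (nat_lit 0) .nil) .nil))) 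
(.lf (nat_lit 488365) (.g (nat_lit 3462) (.e (nat_lit 16433) (nat_lit 9) (.e (nat_lit 426566) (nat_lit 34) (.e (nat_lit 393251) (nat_lit 18) (.e (nat_lit 164332) (nat_lit 230) (.e (nat_lit 163867) (nat_lit 2) (.e (nat_lit 196656) (nat_lit 11) .nil)))))) (.g (nat_lit 1) (.e (nat_lit 138297) (nat_lit 0) .nil) .nil)))))) (.nd (nat_lit 7) (.nd (nat_lit 8) (.nd (nat_lit 9) 
(.lf (nat_lit 487533) (.g (nat_lit 4352) (.e (nat_lit 24664) (nat_lit 14) (.e (nat_lit 401428) (nat_lit 3) (.e (nat_lit 204869) (nat_lit 29) (.e (nat_lit 360474) (nat_lit 8) (.e (nat_lit 557085) (nat_lit 11) .nil))))) (.g (nat_lit 1) (.e (nat_lit 135636) (nat_lit 0) .nil) .nil))) 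
(.lf (nat_lit 488045) (.g (nat_lit 1659) (.e (nat_lit 16416) (nat_lit 3) (.e (nat_lit 204813) (nat_lit 9) (.e (nat_lit 426139) (nat_lit 3) (.e (nat_lit 204813) (nat_lit 9) (.e (nat_lit 426031) (nat_lit 0) .nil))))) (.g (nat_lit 0) (.e (nat_lit 137758) (nat_lit 0) .nil) .nil)))) (.nd (nat_lit 9) 
(.lf (nat_lit 487789) (.g (nat_lit 4500) (.e (nat_lit 16396) (nat_lit 0) (.e (nat_lit 3252) (nat_lit 197) (.e (nat_lit 532550) (nat_lit 12) (.e (nat_lit 360474) (nat_lit 8) (.e (nat_lit 557093) (nat_lit 12) (.e (nat_lit 164022) (nat_lit 46) (.e (nat_lit 704735) (nat_lit 11) .nil))))))) (.g (nat_lit 1) (.e (nat_lit 136921) (nat_lit 0) .nil) .nil))) 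
(.lf (nat_lit 488301) (.g (nat_lit 1131) (.e (nat_lit 16425) (nat_lit 7) (.e (nat_lit 409649) (nat_lit 18) (.e (nat_lit 303133) (nat_lit 9) (.e (nat_lit 426412) (nat_lit 15) .nil)))) (.g (nat_lit 0) (.e (nat_lit 138169) (nat_lit 0) .nil) .nil))))) (.nd (nat_lit 8) (.nd (nat_lit 9) 
(.lf (nat_lit 487661) (.g (nat_lit 3299) (.e (nat_lit 24665) (nat_lit 14) (.e (nat_lit 401460) (nat_lit 14) (.e (nat_lit 491565) (nat_lit 12) (.e (nat_lit 385109) (nat_lit 51) (.e (nat_lit 794676) (nat_lit 24) (.e (nat_lit 213030) (nat_lit 11) .nil)))))) (.g (nat_lit 1) (.e (nat_lit 136320) (nat_lit 0) .nil) .nil))) 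
(.lf (nat_lit 488173) (.g (nat_lit 1473) (.e (nat_lit 16424) (nat_lit 7) (.e (nat_lit 409649) (nat_lit 18) (.e (nat_lit 303140) (nat_lit 10) (.e (nat_lit 434275) (nat_lit 39) .nil)))) (.g (nat_lit 0) (.e (nat_lit 137990) (nat_lit 0) .nil) .nil)))) (.nd (nat_lit 9) 
(.lf (nat_lit 487917) (.g (nat_lit 2892) (.e (nat_lit 16412) (nat_lit 2) (.e (nat_lit 196681) (nat_lit 17) (.e (nat_lit 131105) (nat_lit 9) (.e (nat_lit 336324) (nat_lit 18) (.e (nat_lit 204835) (nat_lit 19) (.e (nat_lit 106534) (nat_lit 11) .nil)))))) (.g (nat_lit 1) (.e (nat_lit 137459) (nat_lit 0) .nil) .nil))) 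
(.lf (nat_lit 488429) (.g (nat_lit 2292) (.e (nat_lit 16433) (nat_lit 9) (.e (nat_lit 426567) (nat_lit 34) (.e (nat_lit 393251) (nat_lit 18) (.e (nat_lit 164327) (nat_lit 230) (.e (nat_lit 163868) (nat_lit 2) (.e (nat_lit 196654) (nat_lit 11) .nil)))))) (.g (nat_lit 1) (.e (nat_lit 138363) (nat_lit 0) .nil) .nil)))))))) 
(.nd (nat_lit 5) (.nd (nat_lit 6) (.nd (nat_lit 7) (.nd (nat_lit 8) (.nd (nat_lit 9) 
(.lf (nat_lit 487453) (.g (nat_lit 3143) (.e (nat_lit 24662) (nat_lit 14) (.e (nat_lit 401435) (nat_lit 9) (.e (nat_lit 426482) (nat_lit 27) (.e (nat_lit 336060) (nat_lit 7) (.e (nat_lit 319504) (nat_lit 10) (.e (nat_lit 7936) (nat_lit 314) .nil)))))) (.g (nat_lit 1) (.e (nat_lit 135499) (nat_lit 0) .nil) .nil))) 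
(.lf (nat_lit 487965) (.g (nat_lit 3380) (.e (nat_lit 16415) (nat_lit 3) (.e (nat_lit 204809) (nat_lit 9) (.e (nat_lit 426124) (nat_lit 2) (.e (nat_lit 196656) (nat_lit 11) (.e (nat_lit 16412) (nat_lit 2) (.e (nat_lit 196656) (nat_lit 11) .nil)))))) (.g (nat_lit 1) (.e (nat_lit 137576) (nat_lit 0) .nil) .nil)))) (.nd (nat_lit 9) 
(.lf (nat_lit 487709) (.g (nat_lit 1708) (.e (nat_lit 32512) (nat_lit 18) (.e (nat_lit 204863) (nat_lit 27) (.e (nat_lit 344127) (nat_lit 26) (.e (nat_lit 557104) (nat_lit 14) (.e (nat_lit 188160) (nat_lit 1) .nil))))) (.g (nat_lit 0) (.e (nat_lit 136466) (nat_lit 0) .nil) .nil))) 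
(.lf (nat_lit 488221) (.g (nat_lit 2817) (.e (nat_lit 16425) (nat_lit 7) (.e (nat_lit 409644) (nat_lit 18) (.e (nat_lit 303143) (nat_lit 12) (.e (nat_lit 475199) (nat_lit 40) (.e (nat_lit 704790) (nat_lit 14) (.e (nat_lit 2591) (nat_lit 162) (.e (nat_lit 49189) (nat_lit 11) .nil))))))) (.g (nat_lit 1) (.e (nat_lit 138084) (nat_lit 0) .nil) .nil))))) (.nd (nat_lit 8) (.nd (nat_lit 9) 
(.lf (nat_lit 487581) (.g (nat_lit 3598) (.e (nat_lit 24665) (nat_lit 14) (.e (nat_lit 401427) (nat_lit 3) (.e (nat_lit 204869) (nat_lit 29) (.e (nat_lit 360474) (nat_lit 8) (.e (nat_lit 557087) (nat_lit 11) .nil))))) (.g (nat_lit 1) (.e (nat_lit 135979) (nat_lit 0) .nil) .nil))) 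
(.lf (nat_lit 488093) (.g (nat_lit 427) (.e (nat_lit 16416) (nat_lit 3) (.e (nat_lit 204861) (nat_lit 26) (.e (nat_lit 336075) (nat_lit 9) .nil))) (.g (nat_lit 0) (.e (nat_lit 137808) (nat_lit 0) .nil) .nil)))) (.nd (nat_lit 9) 
(.lf (nat_lit 487837) (.g (nat_lit 3100) (.e (nat_lit 16411) (nat_lit 2) (.e (nat_lit 196656) (nat_lit 11) (.e (nat_lit 16412) (nat_lit 2) (.e (nat_lit 196654) (nat_lit 11) (.e (nat_lit 16412) (nat_lit 2) (.e (nat_lit 196656) (nat_lit 11) .nil)))))) (.g (nat_lit 1) (.e (nat_lit 137289) (nat_lit 0) .nil) .nil))) 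
(.lf (nat_lit 488349) (.g (nat_lit 2509) (.e (nat_lit 16433) (nat_lit 9) (.e (nat_lit 426480) (nat_lit 27) (.e (nat_lit 336389) (nat_lit 27) (.e (nat_lit 426098) (nat_lit 1) (.e (nat_lit 164327) (nat_lit 230) (.e (nat_lit 163868) (nat_lit 2) (.e (nat_lit 196656) (nat_lit 11) .nil))))))) (.g (nat_lit 1) (.e (nat_lit 138281) (nat_lit 0) .nil) .nil)))))) 
(.nd (nat_lit 7) (.nd (nat_lit 8) (.nd (nat_lit 9) 
(.lf (nat_lit 487517) (.g (nat_lit 4046) (.e (nat_lit 24664) (nat_lit 14) (.e (nat_lit 401424) (nat_lit 2) (.e (nat_lit 196666) (nat_lit 13) (.e (nat_lit 65610) (nat_lit 10) (.e (nat_lit 344129) (nat_lit 26) (.e (nat_lit 557085) (nat_lit 11) .nil)))))) (.g (nat_lit 1) (.e (nat_lit 135620) (nat_lit 0) .nil) .nil))) 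
(.lf (nat_lit 488029) (.g (nat_lit 2269) (.e (nat_lit 16416) (nat_lit 3) (.e (nat_lit 204813) (nat_lit 9) (.e (nat_lit 426133) (nat_lit 3) (.e (nat_lit 204809) (nat_lit 9) (.e (nat_lit 426123) (nat_lit 2) (.e (nat_lit 196654) (nat_lit 11) .nil)))))) (.g (nat_lit 1) (.e (nat_lit 137742) (nat_lit 0) .nil) .nil)))) (.nd (nat_lit 9) 
(.lf (nat_lit 487773) (.g (nat_lit 3992) (.e (nat_lit 16388) (nat_lit 0) (.e (nat_lit 3275) (nat_lit 200) (.e (nat_lit 557105) (nat_lit 14) (.e (nat_lit 180252) (nat_lit 10) (.e (nat_lit 573481) (nat_lit 13) (.e (nat_lit 65568) (nat_lit 2) (.e (nat_lit 98048) (nat_lit 2) .nil))))))) (.g (nat_lit 1) (.e (nat_lit 136878) (nat_lit 0) .nil) .nil))) 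
(.lf (nat_lit 488285) (.g (nat_lit 1319) (.e (nat_lit 16425) (nat_lit 7) (.e (nat_lit 409648) (nat_lit 18) (.e (nat_lit 303143) (nat_lit 12) (.e (nat_lit 475197) (nat_lit 40) .nil)))) (.g (nat_lit 0) (.e (nat_lit 138153) (nat_lit 0) .nil) .nil))))) (.nd (nat_lit 8) (.nd (nat_lit 9) 
(.lf (nat_lit 487645) (.g (nat_lit 2931) (.e (nat_lit 24665) (nat_lit 14) (.e (nat_lit 401448) (nat_lit 10) (.e (nat_lit 434291) (nat_lit 44) (.e (nat_lit 704738) (nat_lit 11) (.e (nat_lit 16392) (nat_lit 0) (.e (nat_lit 7936) (nat_lit 390) .nil)))))) (.g (nat_lit 1) (.e (nat_lit 136229) (nat_lit 0) .nil) .nil))) 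
(.lf (nat_lit 488157) (.g (nat_lit 1340) (.e (nat_lit 16424) (nat_lit 7) (.e (nat_lit 409645) (nat_lit 18) (.e (nat_lit 303143) (nat_lit 12) (.e (nat_lit 475199) (nat_lit 40) .nil)))) (.g (nat_lit 0) (.e (nat_lit 137962) (nat_lit 0) .nil) .nil)))) (.nd (nat_lit 9) 
(.lf (nat_lit 487901) (.g (nat_lit 980) (.e (nat_lit 16412) (nat_lit 2) (.e (nat_lit 196672) (nat_lit 15) (.e (nat_lit 81946) (nat_lit 20) (.e (nat_lit 1858) (nat_lit 124) .nil)))) (.g (nat_lit 0) (.e (nat_lit 137433) (nat_lit 0) .nil) .nil))) 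
(.lf (nat_lit 488413) (.g (nat_lit 2164) (.e (nat_lit 16433) (nat_lit 9) (.e (nat_lit 426566) (nat_lit 34) (.e (nat_lit 393254) (nat_lit 18) (.e (nat_lit 164325) (nat_lit 230) (.e (nat_lit 163867) (nat_lit 2) (.e (nat_lit 196654) (nat_lit 11) .nil)))))) (.g (nat_lit 1) (.e (nat_lit 138347) (nat_lit 0) .nil) .nil))))))) (.nd (nat_lit 6) (.nd (nat_lit 7) (.nd (nat_lit 8) (.nd (nat_lit 9) 
(.lf (nat_lit 487485) (.g (nat_lit 3270) (.e (nat_lit 24662) (nat_lit 14) (.e (nat_lit 401459) (nat_lit 13) (.e (nat_lit 483372) (nat_lit 21) (.e (nat_lit 319502) (nat_lit 10) (.e (nat_lit 7936) (nat_lit 314) .nil))))) (.g (nat_lit 1) (.e (nat_lit 135562) (nat_lit 0) .nil) .nil))) 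
(.lf (nat_lit 487997) (.g (nat_lit 2718) (.e (nat_lit 16416) (nat_lit 3) (.e (nat_lit 204809) (nat_lit 9) (.e (nat_lit 426133) (nat_lit 3) (.e (nat_lit 204813) (nat_lit 9) (.e (nat_lit 426009) (nat_lit 0) (.e (nat_lit 3135) (nat_lit 193) (.e (nat_lit 500046) (nat_lit 16) .nil))))))) (.g (nat_lit 1) (.e (nat_lit 137704) (nat_lit 0) .nil) .nil)))) (.nd (nat_lit 9) 
(.lf (nat_lit 487741) (.g (nat_lit 1764) (.e (nat_lit 24679) (nat_lit 27) (.e (nat_lit 426315) (nat_lit 12) (.e (nat_lit 483072) (nat_lit 26) (.e (nat_lit 532544) (nat_lit 10) (.e (nat_lit 352000) (nat_lit 2) .nil))))) (.g (nat_lit 1) (.e (nat_lit 136740) (nat_lit 0) .nil) .nil))) 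
(.lf (nat_lit 488253) (.g (nat_lit 2280) (.e (nat_lit 16425) (nat_lit 7) (.e (nat_lit 409646) (nat_lit 18) (.e (nat_lit 303143) (nat_lit 12) (.e (nat_lit 475199) (nat_lit 40) (.e (nat_lit 704790) (nat_lit 14) (.e (nat_lit 2587) (nat_lit 162) (.e (nat_lit 49187) (nat_lit 11) .nil))))))) (.g (nat_lit 1) (.e (nat_lit 138116) (nat_lit 0) .nil) .nil))))) (.nd (nat_lit 8) (.nd (nat_lit 9) 
(.lf (nat_lit 487613) (.g (nat_lit 3993) (.e (nat_lit 24665) (nat_lit 14) (.e (nat_lit 401448) (nat_lit 10) (.e (nat_lit 434275) (nat_lit 39) (.e (nat_lit 663580) (nat_lit 9) (.e (nat_lit 2478) (nat_lit 157) (.e (nat_lit 7936) (nat_lit 222) (.e (nat_lit 737317) (nat_lit 14) (.e (nat_lit 40995) (nat_lit 11) .nil)))))))) (.g (nat_lit 1) (.e (nat_lit 136170) (nat_lit 0) .nil) .nil))) 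
(.lf (nat_lit 488125) (.g (nat_lit 4759) (.e (nat_lit 16416) (nat_lit 3) (.e (nat_lit 204869) (nat_lit 29) (.e (nat_lit 360475) (nat_lit 8) (.e (nat_lit 557067) (nat_lit 9) (.e (nat_lit 2739) (nat_lit 174) .nil))))) (.g (nat_lit 0) (.e (nat_lit 137864) (nat_lit 0) .nil) .nil)))) (.nd (nat_lit 9) 
(.lf (nat_lit 487869) (.g (nat_lit 3250) (.e (nat_lit 16412) (nat_lit 2) (.e (nat_lit 196654) (nat_lit 11) (.e (nat_lit 16417) (nat_lit 3) (.e (nat_lit 204813) (nat_lit 9) (.e (nat_lit 426124) (nat_lit 2) (.e (nat_lit 196656) (nat_lit 11) .nil)))))) (.g (nat_lit 1) (.e (nat_lit 137384) (nat_lit 0) .nil) .nil))) 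
(.lf (nat_lit 488381) (.g (nat_lit 2578) (.e (nat_lit 16433) (nat_lit 9) (.e (nat_lit 426566) (nat_lit 34) (.e (nat_lit 393253) (nat_lit 18) (.e (nat_lit 164324) (nat_lit 230) (.e (nat_lit 163871) (nat_lit 2) (.e (nat_lit 196654) (nat_lit 11) .nil)))))) (.g (nat_lit 1) (.e (nat_lit 138315) (nat_lit 0) .nil) .nil)))))) (.nd (nat_lit 7) (.nd (nat_lit 8) (.nd (nat_lit 9) 
(.lf (nat_lit 487549) (.g (nat_lit 3813) (.e (nat_lit 24665) (nat_lit 14) (.e (nat_lit 401414) (nat_lit 0) (.e (nat_lit 3459) (nat_lit 216) (.e (nat_lit 688178) (nat_lit 16) (.e (nat_lit 65604) (nat_lit 9) (.e (nat_lit 335907) (nat_lit 0) (.e (nat_lit 2336) (nat_lit 151) (.e (nat_lit 778469) (nat_lit 11) .nil)))))))) (.g (nat_lit 1) (.e (nat_lit 135835) (nat_lit 0) .nil) .nil))) 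
(.lf (nat_lit 488061) (.g (nat_lit 3419) (.e (nat_lit 16416) (nat_lit 3) (.e (nat_lit 204837) (nat_lit 20) (.e (nat_lit 114719) (nat_lit 23) (.e (nat_lit 98332) (nat_lit 18) (.e (nat_lit 164327) (nat_lit 230) (.e (nat_lit 163868) (nat_lit 2) (.e (nat_lit 196654) (nat_lit 11) .nil))))))) (.g (nat_lit 1) (.e (nat_lit 137775) (nat_lit 0) .nil) .nil)))) (.nd (nat_lit 9) 
(.lf (nat_lit 487805) (.g (nat_lit 875) (.e (nat_lit 16409) (nat_lit 2) (.e (nat_lit 196681) (nat_lit 17) (.e (nat_lit 131105) (nat_lit 9) .nil))) (.g (nat_lit 0) (.e (nat_lit 137135) (nat_lit 0) .nil) .nil))) 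
(.lf (nat_lit 488317) (.g (nat_lit 2361) (.e (nat_lit 16425) (nat_lit 7) (.e (nat_lit 409649) (nat_lit 18) (.e (nat_lit 303143) (nat_lit 12) (.e (nat_lit 475199) (nat_lit 40) (.e (nat_lit 704768) (nat_lit 14) .nil))))) (.g (nat_lit 0) (.e (nat_lit 138187) (nat_lit 0) .nil) .nil))))) (.nd (nat_lit 8) (.nd (nat_lit 9) 
(.lf (nat_lit 487677) (.g (nat_lit 1065) (.e (nat_lit 24665) (nat_lit 14) (.e (nat_lit 409344) (nat_lit 27) (.e (nat_lit 336407) (nat_lit 27) (.e (nat_lit 426199) (nat_lit 9) (.e (nat_lit 426128) (nat_lit 2) (.e (nat_lit 204544) (nat_lit 2) .nil)))))) (.g (nat_lit 1) (.e (nat_lit 136359) (nat_lit 0) .nil) .nil))) 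
(.lf (nat_lit 488189) (.g (nat_lit 3222) (.e (nat_lit 16425) (nat_lit 7) (.e (nat_lit 409617) (nat_lit 10) (.e (nat_lit 632) (nat_lit 50) (.e (nat_lit 573485) (nat_lit 13) (.e (nat_lit 65623) (nat_lit 12) (.e (nat_lit 392960) (nat_lit 2) .nil)))))) (.g (nat_lit 1) (.e (nat_lit 138033) (nat_lit 0) .nil) .nil)))) (.nd (nat_lit 9) 
(.lf (nat_lit 487933) (.g (nat_lit 3282) (.e (nat_lit 16413) (nat_lit 2) (.e (nat_lit 196654) (nat_lit 11) (.e (nat_lit 16416) (nat_lit 3) (.e (nat_lit 204813) (nat_lit 9) (.e (nat_lit 426116) (nat_lit 2) (.e (nat_lit 196654) (nat_lit 11) .nil)))))) (.g (nat_lit 1) (.e (nat_lit 137502) (nat_lit 0) .nil) .nil))) 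
(.lf (nat_lit 488445) (.g (nat_lit 2882) (.e (nat_lit 16433) (nat_lit 9) (.e (nat_lit 426568) (nat_lit 34) (.e (nat_lit 393252) (nat_lit 18) (.e (nat_lit 164331) (nat_lit 230) (.e (nat_lit 163866) (nat_lit 2) (.e (nat_lit 196654) (nat_lit 11) .nil)))))) (.g (nat_lit 1) (.e (nat_lit 138381) (nat_lit 0) .nil) .nil))))))))))) 
(.nd (nat_lit 2) (.nd (nat_lit 3) (.nd (nat_lit 4) (.nd (nat_lit 5) (.nd (nat_lit 6) 
(.nd (nat_lit 7) (.nd (nat_lit 8) (.nd (nat_lit 9) 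
(.lf (nat_lit 487427) (.g (nat_lit 3733) (.e (nat_lit 24662) (nat_lit 14) (.e (nat_lit 401425) (nat_lit 2) (.e (nat_lit 196666) (nat_lit 13) (.e (nat_lit 65610) (nat_lit 10) (.e (nat_lit 344090) (nat_lit 18) (.e (nat_lit 4065) (nat_lit 245) (.e (nat_lit 2555) (nat_lit 159) .nil))))))) (.g (nat_lit 1) (.e (nat_lit 135441) (nat_lit 0) .nil) .nil))) 
(.lf (nat_lit 487939) (.g (nat_lit 1393) (.e (nat_lit 16413) (nat_lit 2) (.e (nat_lit 196666) (nat_lit 13) (.e (nat_lit 65617) (nat_lit 10) (.e (nat_lit 344127) (nat_lit 26) (.e (nat_lit 557072) (nat_lit 9) .nil))))) (.g (nat_lit 0) (.e (nat_lit 137517) (nat_lit 0) .nil) .nil)))) (.nd (nat_lit 9) 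
(.lf (nat_lit 487683) (.g (nat_lit 542) (.e (nat_lit 24665) (nat_lit 14) (.e (nat_lit 409344) (nat_lit 27) (.e (nat_lit 336444) (nat_lit 32) (.e (nat_lit 466975) (nat_lit 22) (.e (nat_lit 204544) (nat_lit 2) .nil))))) (.g (nat_lit 1) (.e (nat_lit 136377) (nat_lit 0) .nil) .nil))) 
(.lf (nat_lit 488195) (.g (nat_lit 2704) (.e (nat_lit 16425) (nat_lit 7) (.e (nat_lit 409617) (nat_lit 10) (.e (nat_lit 632) (nat_lit 50) (.e (nat_lit 573493) (nat_lit 15) (.e (nat_lit 81959) (nat_lit 24) (.e (nat_lit 123047) (nat_lit 146) (.e (nat_lit 1122) (nat_lit 83) .nil))))))) (.g (nat_lit 1) (.e (nat_lit 138057) (nat_lit 0) .nil) .nil))))) (.nd (nat_lit 8) (.nd (nat_lit 9) 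
(.lf (nat_lit 487555) (.g (nat_lit 2739) (.e (nat_lit 24665) (nat_lit 14) (.e (nat_lit 401423) (nat_lit 2) (.e (nat_lit 196666) (nat_lit 13) (.e (nat_lit 65610) (nat_lit 10) (.e (nat_lit 344090) (nat_lit 18) (.e (nat_lit 4068) (nat_lit 245) (.e (nat_lit 2555) (nat_lit 159) .nil))))))) (.g (nat_lit 1) (.e (nat_lit 135861) (nat_lit 0) .nil) .nil))) 
(.lf (nat_lit 488067) (.g (nat_lit 2782) (.e (nat_lit 16416) (nat_lit 3) (.e (nat_lit 204837) (nat_lit 20) (.e (nat_lit 114719) (nat_lit 23) (.e (nat_lit 98335) (nat_lit 18) (.e (nat_lit 164330) (nat_lit 230) (.e (nat_lit 163869) (nat_lit 2) (.e (nat_lit 196656) (nat_lit 11) .nil))))))) (.g (nat_lit 1) (.e (nat_lit 137781) (nat_lit 0) .nil) .nil)))) (.nd (nat_lit 9) 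
(.lf (nat_lit 487811) (.g (nat_lit 1144) (.e (nat_lit 16410) (nat_lit 2) (.e (nat_lit 196654) (nat_lit 11) (.e (nat_lit 16416) (nat_lit 3) (.e (nat_lit 204813) (nat_lit 9) .nil)))) (.g (nat_lit 0) (.e (nat_lit 137188) (nat_lit 0) .nil) .nil))) 
(.lf (nat_lit 488323) (.g (nat_lit 2582) (.e (nat_lit 16425) (nat_lit 7) (.e (nat_lit 409649) (nat_lit 18) (.e (nat_lit 303143) (nat_lit 12) (.e (nat_lit 475199) (nat_lit 40) (.e (nat_lit 704789) (nat_lit 14) .nil))))) (.g (nat_lit 0) (.e (nat_lit 138193) (nat_lit 0) .nil) .nil)))))) (.nd (nat_lit 7) (.nd (nat_lit 8) (.nd (nat_lit 9) 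
(.lf (nat_lit 487491) (.g (nat_lit 1761) (.e (nat_lit 24662) (nat_lit 14) (.e (nat_lit 401459) (nat_lit 13) (.e (nat_lit 483372) (nat_lit 21) (.e (nat_lit 319511) (nat_lit 10) .nil)))) (.g (nat_lit 0) (.e (nat_lit 135568) (nat_lit 0) .nil) .nil))) 
(.lf (nat_lit 488003) (.g (nat_lit 2350) (.e (nat_lit 16416) (nat_lit 3) (.e (nat_lit 204809) (nat_lit 9) (.e (nat_lit 426139) (nat_lit 3) (.e (nat_lit 204809) (nat_lit 9) (.e (nat_lit 426114) (nat_lit 2) (.e (nat_lit 196654) (nat_lit 11) .nil)))))) (.g (nat_lit 1) (.e (nat_lit 137710) (nat_lit 0) .nil) .nil)))) (.nd (nat_lit 9) 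
(.lf (nat_lit 487747) (.g (nat_lit 2490) (.e (nat_lit 16385) (nat_lit 0) (.e (nat_lit 7581) (nat_lit 405) (.e (nat_lit 57464) (nat_lit 23) (.e (nat_lit 516165) (nat_lit 12) (.e (nat_lit 450586) (nat_lit 10) (.e (nat_lit 573470) (nat_lit 11) .nil)))))) (.g (nat_lit 1) (.e (nat_lit 136843) (nat_lit 0) .nil) .nil))) 
(.lf (nat_lit 488259) (.g (nat_lit 3220) (.e (nat_lit 16425) (nat_lit 7) (.e (nat_lit 409647) (nat_lit 18) (.e (nat_lit 303143) (nat_lit 12) (.e (nat_lit 475199) (nat_lit 40) (.e (nat_lit 704772) (nat_lit 14) (.e (nat_lit 7936) (nat_lit 162) (.e (nat_lit 49189) (nat_lit 11) .nil))))))) (.g (nat_lit 1) (.e (nat_lit 138122) (nat_lit 0) .nil) .nil))))) (.nd (nat_lit 8) (.nd (nat_lit 9) 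
(.lf (nat_lit 487619) (.g (nat_lit 447) (.e (nat_lit 24665) (nat_lit 14) (.e (nat_lit 401448) (nat_lit 10) (.e (nat_lit 434271) (nat_lit 38) .nil))) (.g (nat_lit 0) (.e (nat_lit 136178) (nat_lit 0) .nil) .nil))) 
(.lf (nat_lit 488131) (.g (nat_lit 1164) (.e (nat_lit 16417) (nat_lit 3) (.e (nat_lit 204821) (nat_lit 17) (.e (nat_lit 6493) (nat_lit 343) (.e (nat_lit 1638) (nat_lit 114) (.e (nat_lit 385067) (nat_lit 26) .nil))))) (.g (nat_lit 0) (.e (nat_lit 137907) (nat_lit 0) .nil) .nil)))) (.nd (nat_lit 9) 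
(.lf (nat_lit 487875) (.g (nat_lit 1186) (.e (nat_lit 16412) (nat_lit 2) (.e (nat_lit 196656) (nat_lit 11) (.e (nat_lit 16416) (nat_lit 3) (.e (nat_lit 204812) (nat_lit 9) .nil)))) (.g (nat_lit 0) (.e (nat_lit 137403) (nat_lit 0) .nil) .nil))) 
(.lf (nat_lit 488387) (.g (nat_lit 2737) (.e (nat_lit 16433) (nat_lit 9) (.e (nat_lit 426566) (nat_lit 34) (.e (nat_lit 393253) (nat_lit 18) (.e (nat_lit 164326) (nat_lit 230) (.e (nat_lit 163866) (nat_lit 2) (.e (nat_lit 196654) (nat_lit 11) .nil)))))) (.g (nat_lit 1) (.e (nat_lit 138321) (nat_lit 0) .nil) .nil))))))) (.nd (nat_lit 6) (.nd (nat_lit 7) (.nd (nat_lit 8) (.nd (nat_lit 9) 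
(.lf (nat_lit 487459) (.g (nat_lit 1326) (.e (nat_lit 24662) (nat_lit 14) (.e (nat_lit 401454) (nat_lit 12) (.e (nat_lit 475214) (nat_lit 42) .nil))) (.g (nat_lit 0) (.e (nat_lit 135509) (nat_lit 0) .nil) .nil))) 
(.lf (nat_lit 487971) (.g (nat_lit 2375) (.e (nat_lit 16415) (nat_lit 3) (.e (nat_lit 204855) (nat_lit 26) (.e (nat_lit 336176) (nat_lit 10) (.e (nat_lit 344133) (nat_lit 26) (.e (nat_lit 557065) (nat_lit 9) .nil))))) (.g (nat_lit 0) (.e (nat_lit 137653) (nat_lit 0) .nil) .nil)))) (.nd (nat_lit 9) 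
(.lf (nat_lit 487715) (.g (nat_lit 2362) (.e (nat_lit 32512) (nat_lit 18) (.e (nat_lit 204863) (nat_lit 27) (.e (nat_lit 344129) (nat_lit 26) (.e (nat_lit 557103) (nat_lit 14) (.e (nat_lit 188160) (nat_lit 1) .nil))))) (.g (nat_lit 0) (.e (nat_lit 136472) (nat_lit 0) .nil) .nil))) 
(.lf (nat_lit 488227) (.g (nat_lit 2207) (.e (nat_lit 16425) (nat_lit 7) (.e (nat_lit 409645) (nat_lit 18) (.e (nat_lit 303133) (nat_lit 9) (.e (nat_lit 426412) (nat_lit 15) (.e (nat_lit 2221) (nat_lit 146) (.e (nat_lit 737318) (nat_lit 15) (.e (nat_lit 49189) (nat_lit 11) .nil))))))) (.g (nat_lit 1) (.e (nat_lit 138090) (nat_lit 0) .nil) .nil))))) (.nd (nat_lit 8) (.nd (nat_lit 9) 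
(.lf (nat_lit 487587) (.g (nat_lit 3227) (.e (nat_lit 24665) (nat_lit 14) (.e (nat_lit 401435) (nat_lit 9) (.e (nat_lit 426482) (nat_lit 27) (.e (nat_lit 336060) (nat_lit 7) (.e (nat_lit 319504) (nat_lit 10) (.e (nat_lit 7936) (nat_lit 314) .nil)))))) (.g (nat_lit 1) (.e (nat_lit 136057) (nat_lit 0) .nil) .nil))) 
(.lf (nat_lit 488099) (.g (nat_lit 2271) (.e (nat_lit 16416) (nat_lit 3) (.e (nat_lit 204861) (nat_lit 26) (.e (nat_lit 336186) (nat_lit 11) (.e (nat_lit 368676) (nat_lit 21) (.e (nat_lit 516100) (nat_lit 0) (.e (nat_lit 3356) (nat_lit 207) (.e (nat_lit 614435) (nat_lit 11) .nil))))))) (.g (nat_lit 1) (.e (nat_lit 137833) (nat_lit 0) .nil) .nil)))) (.nd (nat_lit 9) 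
(.lf (nat_lit 487843) (.g (nat_lit 2077) (.e (nat_lit 16411) (nat_lit 2) (.e (nat_lit 196663) (nat_lit 13) (.e (nat_lit 65630) (nat_lit 14) (.e (nat_lit 401427) (nat_lit 3) (.e (nat_lit 212736) (nat_lit 5) .nil))))) (.g (nat_lit 0) (.e (nat_lit 137309) (nat_lit 0) .nil) .nil))) 
(.lf (nat_lit 488355) (.g (nat_lit 3477) (.e (nat_lit 16433) (nat_lit 9) (.e (nat_lit 426566) (nat_lit 34) (.e (nat_lit 393251) (nat_lit 18) (.e (nat_lit 164325) (nat_lit 230) (.e (nat_lit 163866) (nat_lit 2) (.e (nat_lit 196654) (nat_lit 11) .nil)))))) (.g (nat_lit 1) (.e (nat_lit 138287) (nat_lit 0) .nil) .nil)))))) (.nd (nat_lit 7) (.nd (nat_lit 8) (.nd (nat_lit 9) 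
(.lf (nat_lit 487523) (.g (nat_lit 3812) (.e (nat_lit 24664) (nat_lit 14) (.e (nat_lit 401427) (nat_lit 3) (.e (nat_lit 204869) (nat_lit 29) (.e (nat_lit 360473) (nat_lit 8) (.e (nat_lit 557086) (nat_lit 11) .nil))))) (.g (nat_lit 1) (.e (nat_lit 135626) (nat_lit 0) .nil) .nil))) 
(.lf (nat_lit 488035) (.g (nat_lit 2443) (.e (nat_lit 16416) (nat_lit 3) (.e (nat_lit 204813) (nat_lit 9) (.e (nat_lit 426133) (nat_lit 3) (.e (nat_lit 204813) (nat_lit 9) (.e (nat_lit 426121) (nat_lit 2) (.e (nat_lit 196656) (nat_lit 11) .nil)))))) (.g (nat_lit 1) (.e (nat_lit 137748) (nat_lit 0) .nil) .nil)))) (.nd (nat_lit 9) 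
(.lf (nat_lit 487779) (.g (nat_lit 3638) (.e (nat_lit 16388) (nat_lit 0) (.e (nat_lit 3280) (nat_lit 200) (.e (nat_lit 557103) (nat_lit 14) (.e (nat_lit 180250) (nat_lit 10) (.e (nat_lit 573485) (nat_lit 13) (.e (nat_lit 65568) (nat_lit 2) (.e (nat_lit 98048) (nat_lit 2) .nil))))))) (.g (nat_lit 1) (.e (nat_lit 136890) (nat_lit 0) .nil) .nil))) 
(.lf (nat_lit 488291) (.g (nat_lit 3078) (.e (nat_lit 16425) (nat_lit 7) (.e (nat_lit 409648) (nat_lit 18) (.e (nat_lit 303143) (nat_lit 12) (.e (nat_lit 475199) (nat_lit 40) (.e (nat_lit 704790) (nat_lit 14) (.e (nat_lit 2590) (nat_lit 162) (.e (nat_lit 49189) (nat_lit 11) .nil))))))) (.g (nat_lit 1) (.e (nat_lit 138159) (nat_lit 0) .nil) .nil))))) (.nd (nat_lit 8) (.nd (nat_lit 9) 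
(.lf (nat_lit 487651) (.g (nat_lit 1962) (.e (nat_lit 24665) (nat_lit 14) (.e (nat_lit 401450) (nat_lit 12) (.e (nat_lit 475214) (nat_lit 42) (.e (nat_lit 720956) (nat_lit 25) .nil)))) (.g (nat_lit 0) (.e (nat_lit 136244) (nat_lit 0) .nil) .nil))) 
(.lf (nat_lit 488163) (.g (nat_lit 2242) (.e (nat_lit 16424) (nat_lit 7) (.e (nat_lit 409645) (nat_lit 18) (.e (nat_lit 303143) (nat_lit 12) (.e (nat_lit 475199) (nat_lit 40) (.e (nat_lit 704836) (nat_lit 14) .nil))))) (.g (nat_lit 0) (.e (nat_lit 137968) (nat_lit 0) .nil) .nil)))) (.nd (nat_lit 9) 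
(.lf (nat_lit 487907) (.g (nat_lit 528) (.e (nat_lit 16412) (nat_lit 2) (.e (nat_lit 196674) (nat_lit 15) (.e (nat_lit 81946) (nat_lit 20) .nil))) (.g (nat_lit 0) (.e (nat_lit 137442) (nat_lit 0) .nil) .nil))) 
(.lf (nat_lit 488419) (.g (nat_lit 3022) (.e (nat_lit 16433) (nat_lit 9) (.e (nat_lit 426566) (nat_lit 34) (.e (nat_lit 393254) (nat_lit 18) (.e (nat_lit 164326) (nat_lit 230) (.e (nat_lit 163868) (nat_lit 2) (.e (nat_lit 196654) (nat_lit 11) .nil)))))) (.g (nat_lit 1) (.e (nat_lit 138353) (nat_lit 0) .nil) .nil)))))))) 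
(.nd (nat_lit 5) (.nd (nat_lit 6) (.nd (nat_lit 7) (.nd (nat_lit 8) (.nd (nat_lit 9) 
(.lf (nat_lit 487443) (.g (nat_lit 1737) (.e (nat_lit 24662) (nat_lit 14) (.e (nat_lit 401425) (nat_lit 2) (.e (nat_lit 196666) (nat_lit 13) (.e (nat_lit 65617) (nat_lit 10) .nil)))) (.g (nat_lit 0) (.e (nat_lit 135463) (nat_lit 0) .nil) .nil))) 
(.lf (nat_lit 487955) (.g (nat_lit 2363) (.e (nat_lit 16413) (nat_lit 2) (.e (nat_lit 196666) (nat_lit 13) (.e (nat_lit 65624) (nat_lit 12) (.e (nat_lit 385067) (nat_lit 26) (.e (nat_lit 532511) (nat_lit 2) (.e (nat_lit 106534) (nat_lit 11) .nil)))))) (.g (nat_lit 1) (.e (nat_lit 137533) (nat_lit 0) .nil) .nil)))) (.nd (nat_lit 9) 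
(.lf (nat_lit 487699) (.g (nat_lit 2649) (.e (nat_lit 32512) (nat_lit 18) (.e (nat_lit 204862) (nat_lit 27) (.e (nat_lit 344129) (nat_lit 26) (.e (nat_lit 557103) (nat_lit 14) (.e (nat_lit 188160) (nat_lit 1) .nil))))) (.g (nat_lit 0) (.e (nat_lit 136456) (nat_lit 0) .nil) .nil))) 
(.lf (nat_lit 488211) (.g (nat_lit 2223) (.e (nat_lit 16425) (nat_lit 7) (.e (nat_lit 409643) (nat_lit 18) (.e (nat_lit 303143) (nat_lit 12) (.e (nat_lit 475199) (nat_lit 40) (.e (nat_lit 704790) (nat_lit 14) (.e (nat_lit 2587) (nat_lit 162) (.e (nat_lit 49187) (nat_lit 11) .nil))))))) (.g (nat_lit 1) (.e (nat_lit 138074) (nat_lit 0) .nil) .nil))))) (.nd (nat_lit 8) (.nd (nat_lit 9) 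
(.lf (nat_lit 487571) (.g (nat_lit 1906) (.e (nat_lit 24665) (nat_lit 14) (.e (nat_lit 401426) (nat_lit 3) (.e (nat_lit 204869) (nat_lit 29) (.e (nat_lit 360473) (nat_lit 8) (.e (nat_lit 557086) (nat_lit 11) .nil))))) (.g (nat_lit 1) (.e (nat_lit 135932) (nat_lit 0) .nil) .nil))) 
(.lf (nat_lit 488083) (.g (nat_lit 3593) (.e (nat_lit 16416) (nat_lit 3) (.e (nat_lit 204838) (nat_lit 20) (.e (nat_lit 114719) (nat_lit 23) (.e (nat_lit 98334) (nat_lit 18) (.e (nat_lit 164330) (nat_lit 230) (.e (nat_lit 163867) (nat_lit 2) (.e (nat_lit 196654) (nat_lit 11) .nil))))))) (.g (nat_lit 1) (.e (nat_lit 137798) (nat_lit 0) .nil) .nil)))) (.nd (nat_lit 9) 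
(.lf (nat_lit 487827) (.g (nat_lit 2947) (.e (nat_lit 16411) (nat_lit 2) (.e (nat_lit 196654) (nat_lit 11) (.e (nat_lit 16412) (nat_lit 2) (.e (nat_lit 196656) (nat_lit 11) (.e (nat_lit 16412) (nat_lit 2) (.e (nat_lit 196654) (nat_lit 11) .nil)))))) (.g (nat_lit 1) (.e (nat_lit 137243) (nat_lit 0) .nil) .nil))) 
(.lf (nat_lit 488339) (.g (nat_lit 4035) (.e (nat_lit 16432) (nat_lit 9) (.e (nat_lit 426566) (nat_lit 34) (.e (nat_lit 393253) (nat_lit 18) (.e (nat_lit 164327) (nat_lit 230) (.e (nat_lit 163868) (nat_lit 2) (.e (nat_lit 196656) (nat_lit 11) .nil)))))) (.g (nat_lit 1) (.e (nat_lit 138257) (nat_lit 0) .nil) .nil)))))) (.nd (nat_lit 7) (.nd (nat_lit 8) (.nd (nat_lit 9) 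
(.lf (nat_lit 487507) (.g (nat_lit 2620) (.e (nat_lit 24662) (nat_lit 14) (.e (nat_lit 401459) (nat_lit 13) (.e (nat_lit 483411) (nat_lit 27) (.e (nat_lit 401410) (nat_lit 0) (.e (nat_lit 7936) (nat_lit 390) .nil))))) (.g (nat_lit 0) (.e (nat_lit 135586) (nat_lit 0) .nil) .nil))) 
(.lf (nat_lit 488019) (.g (nat_lit 964) (.e (nat_lit 16416) (nat_lit 3) (.e (nat_lit 204813) (nat_lit 9) (.e (nat_lit 426123) (nat_lit 2) (.e (nat_lit 196654) (nat_lit 11) .nil)))) (.g (nat_lit 0) (.e (nat_lit 137729) (nat_lit 0) .nil) .nil)))) (.nd (nat_lit 9) 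
(.lf (nat_lit 487763) (.g (nat_lit 2892) (.e (nat_lit 16388) (nat_lit 0) (.e (nat_lit 3211) (nat_lit 195) (.e (nat_lit 516130) (nat_lit 3) (.e (nat_lit 221215) (nat_lit 23) (.e (nat_lit 204850) (nat_lit 26) (.e (nat_lit 336013) (nat_lit 2) (.e (nat_lit 98048) (nat_lit 2) .nil))))))) (.g (nat_lit 1) (.e (nat_lit 136862) (nat_lit 0) .nil) .nil))) 
(.lf (nat_lit 488275) (.g (nat_lit 2670) (.e (nat_lit 16425) (nat_lit 7) (.e (nat_lit 409648) (nat_lit 18) (.e (nat_lit 303137) (nat_lit 10) (.e (nat_lit 434275) (nat_lit 39) (.e (nat_lit 671488) (nat_lit 14) (.e (nat_lit 1161) (nat_lit 86) (.e (nat_lit 49185) (nat_lit 11) .nil))))))) (.g (nat_lit 1) (.e (nat_lit 138143) (nat_lit 0) .nil) .nil))))) (.nd (nat_lit 8) (.nd (nat_lit 9) 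
(.lf (nat_lit 487635) (.g (nat_lit 2542) (.e (nat_lit 24665) (nat_lit 14) (.e (nat_lit 401448) (nat_lit 10) (.e (nat_lit 434291) (nat_lit 44) (.e (nat_lit 704737) (nat_lit 11) (.e (nat_lit 16384) (nat_lit 0) (.e (nat_lit 7936) (nat_lit 390) .nil)))))) (.g (nat_lit 1) (.e (nat_lit 136211) (nat_lit 0) .nil) .nil))) 
(.lf (nat_lit 488147) (.g (nat_lit 3006) (.e (nat_lit 16417) (nat_lit 3) (.e (nat_lit 204869) (nat_lit 29) (.e (nat_lit 360475) (nat_lit 8) (.e (nat_lit 557089) (nat_lit 12) (.e (nat_lit 171776) (nat_lit 46) .nil))))) (.g (nat_lit 0) (.e (nat_lit 137937) (nat_lit 0) .nil) .nil)))) (.nd (nat_lit 9) 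
(.lf (nat_lit 487891) (.g (nat_lit 3581) (.e (nat_lit 16412) (nat_lit 2) (.e (nat_lit 196666) (nat_lit 13) (.e (nat_lit 65610) (nat_lit 10) (.e (nat_lit 344129) (nat_lit 26) (.e (nat_lit 557067) (nat_lit 9) (.e (nat_lit 2439) (nat_lit 157) (.e (nat_lit 3480) (nat_lit 218) (.e (nat_lit 704731) (nat_lit 11) .nil)))))))) (.g (nat_lit 1) (.e (nat_lit 137420) (nat_lit 0) .nil) .nil))) 
(.lf (nat_lit 488403) (.g (nat_lit 3725) (.e (nat_lit 16433) (nat_lit 9) (.e (nat_lit 426566) (nat_lit 34) (.e (nat_lit 393253) (nat_lit 18) (.e (nat_lit 164332) (nat_lit 230) (.e (nat_lit 163867) (nat_lit 2) (.e (nat_lit 196654) (nat_lit 11) .nil)))))) (.g (nat_lit 1) (.e (nat_lit 138337) (nat_lit 0) .nil) .nil))))))) (.nd (nat_lit 6) (.nd (nat_lit 7) (.nd (nat_lit 8) (.nd (nat_lit 9) 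
(.lf (nat_lit 487475) (.g (nat_lit 2047) (.e (nat_lit 24662) (nat_lit 14) (.e (nat_lit 401459) (nat_lit 13) (.e (nat_lit 483350) (nat_lit 17) (.e (nat_lit 6113) (nat_lit 332) (.e (nat_lit 1105) (nat_lit 81) .nil))))) (.g (nat_lit 0) (.e (nat_lit 135552) (nat_lit 0) .nil) .nil))) 
(.lf (nat_lit 487987) (.g (nat_lit 4035) (.e (nat_lit 16415) (nat_lit 3) (.e (nat_lit 204885) (nat_lit 33) (.e (nat_lit 401451) (nat_lit 12) (.e (nat_lit 475176) (nat_lit 24) .nil)))) (.g (nat_lit 0) (.e (nat_lit 137678) (nat_lit 0) .nil) .nil)))) (.nd (nat_lit 9) 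
(.lf (nat_lit 487731) (.g (nat_lit 1311) (.e (nat_lit 24675) (nat_lit 27) (.e (nat_lit 426308) (nat_lit 12) (.e (nat_lit 483072) (nat_lit 26) (.e (nat_lit 532544) (nat_lit 10) (.e (nat_lit 352000) (nat_lit 2) .nil))))) (.g (nat_lit 1) (.e (nat_lit 136599) (nat_lit 0) .nil) .nil))) 
(.lf (nat_lit 488243) (.g (nat_lit 2279) (.e (nat_lit 16425) (nat_lit 7) (.e (nat_lit 409646) (nat_lit 18) (.e (nat_lit 303133) (nat_lit 9) (.e (nat_lit 426412) (nat_lit 15) (.e (nat_lit 2221) (nat_lit 146) (.e (nat_lit 737318) (nat_lit 15) (.e (nat_lit 49189) (nat_lit 11) .nil))))))) (.g (nat_lit 1) (.e (nat_lit 138106) (nat_lit 0) .nil) .nil))))) (.nd (nat_lit 8) (.nd (nat_lit 9) 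
(.lf (nat_lit 487603) (.g (nat_lit 1560) (.e (nat_lit 24665) (nat_lit 14) (.e (nat_lit 401447) (nat_lit 10) (.e (nat_lit 434272) (nat_lit 38) (.e (nat_lit 655386) (nat_lit 9) (.e (nat_lit 1278) (nat_lit 94) .nil))))) (.g (nat_lit 0) (.e (nat_lit 136124) (nat_lit 0) .nil) .nil))) 
(.lf (nat_lit 488115) (.g (nat_lit 3185) (.e (nat_lit 16416) (nat_lit 3) (.e (nat_lit 204868) (nat_lit 29) (.e (nat_lit 360475) (nat_lit 8) (.e (nat_lit 557091) (nat_lit 12) (.e (nat_lit 171776) (nat_lit 46) .nil))))) (.g (nat_lit 0) (.e (nat_lit 137854) (nat_lit 0) .nil) .nil)))) (.nd (nat_lit 9) 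
(.lf (nat_lit 487859) (.g (nat_lit 3225) (.e (nat_lit 16412) (nat_lit 2) (.e (nat_lit 196654) (nat_lit 11) (.e (nat_lit 16413) (nat_lit 2) (.e (nat_lit 196654) (nat_lit 11) (.e (nat_lit 16412) (nat_lit 2) (.e (nat_lit 196656) (nat_lit 11) .nil)))))) (.g (nat_lit 1) (.e (nat_lit 137361) (nat_lit 0) .nil) .nil))) 
(.lf (nat_lit 488371) (.g (nat_lit 3183) (.e (nat_lit 16433) (nat_lit 9) (.e (nat_lit 426566) (nat_lit 34) (.e (nat_lit 393252) (nat_lit 18) (.e (nat_lit 164332) (nat_lit 230) (.e (nat_lit 163867) (nat_lit 2) (.e (nat_lit 196654) (nat_lit 11) .nil)))))) (.g (nat_lit 1) (.e (nat_lit 138303) (nat_lit 0) .nil) .nil)))))) (.nd (nat_lit 7) (.nd (nat_lit 8) (.nd (nat_lit 9) 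
(.lf (nat_lit 487539) (.g (nat_lit 2667) (.e (nat_lit 24664) (nat_lit 14) (.e (nat_lit 401435) (nat_lit 9) (.e (nat_lit 426482) (nat_lit 27) (.e (nat_lit 336060) (nat_lit 7) (.e (nat_lit 319504) (nat_lit 10) (.e (nat_lit 7936) (nat_lit 314) .nil)))))) (.g (nat_lit 1) (.e (nat_lit 135644) (nat_lit 0) .nil) .nil))) 
(.lf (nat_lit 488051) (.g (nat_lit 2956) (.e (nat_lit 16416) (nat_lit 3) (.e (nat_lit 204837) (nat_lit 20) (.e (nat_lit 114718) (nat_lit 23) (.e (nat_lit 98332) (nat_lit 18) (.e (nat_lit 164327) (nat_lit 230) (.e (nat_lit 163868) (nat_lit 2) (.e (nat_lit 196654) (nat_lit 11) .nil))))))) (.g (nat_lit 1) (.e (nat_lit 137765) (nat_lit 0) .nil) .nil)))) (.nd (nat_lit 9) 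
(.lf (nat_lit 487795) (.g (nat_lit 815) (.e (nat_lit 16406) (nat_lit 1) (.e (nat_lit 164330) (nat_lit 230) (.e (nat_lit 171776) (nat_lit 62) .nil))) (.g (nat_lit 0) (.e (nat_lit 137021) (nat_lit 0) .nil) .nil))) 
(.lf (nat_lit 488307) (.g (nat_lit 3622) (.e (nat_lit 16425) (nat_lit 7) (.e (nat_lit 409649) (nat_lit 18) (.e (nat_lit 303140) (nat_lit 10) (.e (nat_lit 434275) (nat_lit 39) (.e (nat_lit 663574) (nat_lit 9) (.e (nat_lit 2418) (nat_lit 157) (.e (nat_lit 3476) (nat_lit 218) (.e (nat_lit 704732) (nat_lit 11) .nil)))))))) (.g (nat_lit 1) (.e (nat_lit 138175) (nat_lit 0) .nil) .nil))))) 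
(.nd (nat_lit 8) (.nd (nat_lit 9) 
(.lf (nat_lit 487667) (.g (nat_lit 3729) (.e (nat_lit 24665) (nat_lit 14) (.e (nat_lit 401460) (nat_lit 14) (.e (nat_lit 491566) (nat_lit 12) (.e (nat_lit 385114) (nat_lit 53) (.e (nat_lit 811045) (nat_lit 14) (.e (nat_lit 40996) (nat_lit 11) .nil)))))) (.g (nat_lit 1) (.e (nat_lit 136335) (nat_lit 0) .nil) .nil))) 
(.lf (nat_lit 488179) (.g (nat_lit 2333) (.e (nat_lit 16425) (nat_lit 7) (.e (nat_lit 409615) (nat_lit 10) (.e (nat_lit 934) (nat_lit 76) (.e (nat_lit 786480) (nat_lit 29) (.e (nat_lit 352312) (nat_lit 22) (.e (nat_lit 98048) (nat_lit 2) .nil)))))) (.g (nat_lit 1) (.e (nat_lit 137999) (nat_lit 0) .nil) .nil)))) (.nd (nat_lit 9) 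
(.lf (nat_lit 487923) (.g (nat_lit 1723) (.e (nat_lit 16412) (nat_lit 2) (.e (nat_lit 196681) (nat_lit 17) (.e (nat_lit 131109) (nat_lit 9) (.e (nat_lit 336324) (nat_lit 18) (.e (nat_lit 204821) (nat_lit 17) .nil))))) (.g (nat_lit 0) (.e (nat_lit 137474) (nat_lit 0) .nil) .nil))) 
(.lf (nat_lit 488435) (.g (nat_lit 1034) (.e (nat_lit 16433) (nat_lit 9) (.e (nat_lit 426568) (nat_lit 34) (.e (nat_lit 393251) (nat_lit 18) (.e (nat_lit 164327) (nat_lit 230) .nil)))) (.g (nat_lit 0) (.e (nat_lit 138371) (nat_lit 0) .nil) .nil))))))))) (.nd (nat_lit 4) (.nd (nat_lit 5) (.nd (nat_lit 6) (.nd (nat_lit 7) (.nd (nat_lit 8) (.nd (nat_lit 9) 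
(.lf (nat_lit 487435) (.g (nat_lit 5656) (.e (nat_lit 24662) (nat_lit 14) (.e (nat_lit 401425) (nat_lit 2) (.e (nat_lit 196666) (nat_lit 13) (.e (nat_lit 65610) (nat_lit 10) (.e (nat_lit 344097) (nat_lit 18) (.e (nat_lit 4066) (nat_lit 245) (.e (nat_lit 2557) (nat_lit 159) .nil))))))) (.g (nat_lit 1) (.e (nat_lit 135450) (nat_lit 0) .nil) .nil))) 
(.lf (nat_lit 487947) (.g (nat_lit 1542) (.e (nat_lit 16413) (nat_lit 2) (.e (nat_lit 196666) (nat_lit 13) (.e (nat_lit 65622) (nat_lit 12) (.e (nat_lit 385067) (nat_lit 26) (.e (nat_lit 532510) (nat_lit 2) (.e (nat_lit 106536) (nat_lit 11) .nil)))))) (.g (nat_lit 1) (.e (nat_lit 137525) (nat_lit 0) .nil) .nil)))) (.nd (nat_lit 9) 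
(.lf (nat_lit 487691) (.g (nat_lit 3825) (.e (nat_lit 32512) (nat_lit 14) (.e (nat_lit 401459) (nat_lit 13) (.e (nat_lit 483372) (nat_lit 21) (.e (nat_lit 319502) (nat_lit 10) .nil)))) (.g (nat_lit 0) (.e (nat_lit 136385) (nat_lit 0) .nil) .nil))) 
(.lf (nat_lit 488203) (.g (nat_lit 2233) (.e (nat_lit 16425) (nat_lit 7) (.e (nat_lit 409643) (nat_lit 18) (.e (nat_lit 303133) (nat_lit 9) (.e (nat_lit 426412) (nat_lit 15) (.e (nat_lit 2233) (nat_lit 146) (.e (nat_lit 737318) (nat_lit 15) (.e (nat_lit 49189) (nat_lit 11) .nil))))))) (.g (nat_lit 1) (.e (nat_lit 138066) (nat_lit 0) .nil) .nil))))) (.nd (nat_lit 8) (.nd (nat_lit 9) 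
(.lf (nat_lit 487563) (.g (nat_lit 1164) (.e (nat_lit 24665) (nat_lit 14) (.e (nat_lit 401423) (nat_lit 2) (.e (nat_lit 196672) (nat_lit 15) (.e (nat_lit 81928) (nat_lit 20) .nil)))) (.g (nat_lit 0) (.e (nat_lit 135879) (nat_lit 0) .nil) .nil))) 
(.lf (nat_lit 488075) (.g (nat_lit 3755) (.e (nat_lit 16416) (nat_lit 3) (.e (nat_lit 204838) (nat_lit 20) (.e (nat_lit 114718) (nat_lit 23) (.e (nat_lit 98334) (nat_lit 18) (.e (nat_lit 164330) (nat_lit 230) (.e (nat_lit 163867) (nat_lit 2) (.e (nat_lit 196654) (nat_lit 11) .nil))))))) (.g (nat_lit 1) (.e (nat_lit 137790) (nat_lit 0) .nil) .nil)))) (.nd (nat_lit 9) 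
(.lf (nat_lit 487819) (.g (nat_lit 2628) (.e (nat_lit 16410) (nat_lit 2) (.e (nat_lit 196666) (nat_lit 13) (.e (nat_lit 65610) (nat_lit 10) (.e (nat_lit 344129) (nat_lit 26) (.e (nat_lit 557070) (nat_lit 9) .nil))))) (.g (nat_lit 0) (.e (nat_lit 137204) (nat_lit 0) .nil) .nil))) 
(.lf (nat_lit 488331) (.g (nat_lit 2803) (.e (nat_lit 16425) (nat_lit 7) (.e (nat_lit 409649) (nat_lit 18) (.e (nat_lit 303143) (nat_lit 12) (.e (nat_lit 475220) (nat_lit 44) (.e (nat_lit 737318) (nat_lit 15) (.e (nat_lit 49187) (nat_lit 11) .nil)))))) (.g (nat_lit 1) (.e (nat_lit 138201) (nat_lit 0) .nil) .nil)))))) (.nd (nat_lit 7) (.nd (nat_lit 8) (.nd (nat_lit 9) 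
(.lf (nat_lit 487499) (.g (nat_lit 2291) (.e (nat_lit 24662) (nat_lit 14) (.e (nat_lit 401459) (nat_lit 13) (.e (nat_lit 483375) (nat_lit 22) (.e (nat_lit 327705) (nat_lit 10) (.e (nat_lit 7936) (nat_lit 314) .nil))))) (.g (nat_lit 1) (.e (nat_lit 135576) (nat_lit 0) .nil) .nil))) 
(.lf (nat_lit 488011) (.g (nat_lit 3087) (.e (nat_lit 16416) (nat_lit 3) (.e (nat_lit 204813) (nat_lit 9) (.e (nat_lit 426114) (nat_lit 2) (.e (nat_lit 196654) (nat_lit 11) (.e (nat_lit 16412) (nat_lit 2) (.e (nat_lit 196656) (nat_lit 11) .nil)))))) (.g (nat_lit 1) (.e (nat_lit 137720) (nat_lit 0) .nil) .nil)))) (.nd (nat_lit 9) 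
(.lf (nat_lit 487755) (.g (nat_lit 3500) (.e (nat_lit 16387) (nat_lit 0) (.e (nat_lit 7581) (nat_lit 405) (.e (nat_lit 57464) (nat_lit 23) (.e (nat_lit 516166) (nat_lit 12) (.e (nat_lit 450588) (nat_lit 10) (.e (nat_lit 573471) (nat_lit 11) .nil)))))) (.g (nat_lit 1) (.e (nat_lit 136852) (nat_lit 0) .nil) .nil))) 
(.lf (nat_lit 488267) (.g (nat_lit 2227) (.e (nat_lit 16425) (nat_lit 7) (.e (nat_lit 409647) (nat_lit 18) (.e (nat_lit 303143) (nat_lit 12) (.e (nat_lit 475219) (nat_lit 44) (.e (nat_lit 737318) (nat_lit 15) (.e (nat_lit 49188) (nat_lit 11) .nil)))))) (.g (nat_lit 1) (.e (nat_lit 138130) (nat_lit 0) .nil) .nil))))) (.nd (nat_lit 8) (.nd (nat_lit 9) 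
(.lf (nat_lit 487627) (.g (nat_lit 4364) (.e (nat_lit 24665) (nat_lit 14) (.e (nat_lit 401448) (nat_lit 10) (.e (nat_lit 434289) (nat_lit 43) (.e (nat_lit 696344) (nat_lit 8) (.e (nat_lit 172034) (nat_lit 0) (.e (nat_lit 7378) (nat_lit 390) .nil)))))) (.g (nat_lit 1) (.e (nat_lit 136195) (nat_lit 0) .nil) .nil))) 
(.lf (nat_lit 488139) (.g (nat_lit 3618) (.e (nat_lit 16417) (nat_lit 3) (.e (nat_lit 204869) (nat_lit 29) (.e (nat_lit 360474) (nat_lit 8) (.e (nat_lit 557072) (nat_lit 9) (.e (nat_lit 2741) (nat_lit 174) .nil))))) (.g (nat_lit 0) (.e (nat_lit 137928) (nat_lit 0) .nil) .nil)))) (.nd (nat_lit 9) 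
(.lf (nat_lit 487883) (.g (nat_lit 4709) (.e (nat_lit 16412) (nat_lit 2) (.e (nat_lit 196666) (nat_lit 13) (.e (nat_lit 65610) (nat_lit 10) (.e (nat_lit 344117) (nat_lit 21) (.e (nat_lit 516097) (nat_lit 0) (.e (nat_lit 3358) (nat_lit 207) (.e (nat_lit 622336) (nat_lit 11) .nil))))))) (.g (nat_lit 1) (.e (nat_lit 137412) (nat_lit 0) .nil) .nil))) 
(.lf (nat_lit 488395) (.g (nat_lit 3523) (.e (nat_lit 16433) (nat_lit 9) (.e (nat_lit 426566) (nat_lit 34) (.e (nat_lit 393253) (nat_lit 18) (.e (nat_lit 164329) (nat_lit 230) (.e (nat_lit 163867) (nat_lit 2) (.e (nat_lit 196654) (nat_lit 11) .nil)))))) (.g (nat_lit 1) (.e (nat_lit 138329) (nat_lit 0) .nil) .nil))))))) (.nd (nat_lit 6) (.nd (nat_lit 7) (.nd (nat_lit 8) (.nd (nat_lit 9) 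
(.lf (nat_lit 487467) (.g (nat_lit 2867) (.e (nat_lit 24662) (nat_lit 14) (.e (nat_lit 401459) (nat_lit 13) (.e (nat_lit 483350) (nat_lit 17) (.e (nat_lit 6113) (nat_lit 332) (.e (nat_lit 968) (nat_lit 81) (.e (nat_lit 7936) (nat_lit 314) .nil)))))) (.g (nat_lit 1) (.e (nat_lit 135544) (nat_lit 0) .nil) .nil))) 
(.lf (nat_lit 487979) (.g (nat_lit 2563) (.e (nat_lit 16415) (nat_lit 3) (.e (nat_lit 204861) (nat_lit 26) (.e (nat_lit 336194) (nat_lit 12) (.e (nat_lit 385067) (nat_lit 26) (.e (nat_lit 532511) (nat_lit 2) (.e (nat_lit 106534) (nat_lit 11) .nil)))))) (.g (nat_lit 1) (.e (nat_lit 137670) (nat_lit 0) .nil) .nil)))) (.nd (nat_lit 9) 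
(.lf (nat_lit 487723) (.g (nat_lit 2104) (.e (nat_lit 32512) (nat_lit 18) (.e (nat_lit 204863) (nat_lit 27) (.e (nat_lit 344132) (nat_lit 26) (.e (nat_lit 557105) (nat_lit 14) (.e (nat_lit 188160) (nat_lit 1) .nil))))) (.g (nat_lit 0) (.e (nat_lit 136480) (nat_lit 0) .nil) .nil))) 
(.lf (nat_lit 488235) (.g (nat_lit 2941) (.e (nat_lit 16425) (nat_lit 7) (.e (nat_lit 409645) (nat_lit 18) (.e (nat_lit 303143) (nat_lit 12) (.e (nat_lit 475199) (nat_lit 40) (.e (nat_lit 704789) (nat_lit 14) .nil))))) (.g (nat_lit 0) (.e (nat_lit 138098) (nat_lit 0) .nil) .nil))))) (.nd (nat_lit 8) (.nd (nat_lit 9) 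
(.lf (nat_lit 487595) (.g (nat_lit 2621) (.e (nat_lit 24665) (nat_lit 14) (.e (nat_lit 401444) (nat_lit 9) (.e (nat_lit 426163) (nat_lit 6) (.e (nat_lit 253991) (nat_lit 11) (.e (nat_lit 16387) (nat_lit 0) .nil))))) (.g (nat_lit 0) (.e (nat_lit 136094) (nat_lit 0) .nil) .nil))) 
(.lf (nat_lit 488107) (.g (nat_lit 2631) (.e (nat_lit 16416) (nat_lit 3) (.e (nat_lit 204866) (nat_lit 28) (.e (nat_lit 352262) (nat_lit 0) (.e (nat_lit 3253) (nat_lit 197) (.e (nat_lit 532511) (nat_lit 2) (.e (nat_lit 106534) (nat_lit 11) .nil)))))) (.g (nat_lit 1) (.e (nat_lit 137844) (nat_lit 0) .nil) .nil)))) (.nd (nat_lit 9) 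
(.lf (nat_lit 487851) (.g (nat_lit 1186) (.e (nat_lit 16411) (nat_lit 2) (.e (nat_lit 196681) (nat_lit 17) (.e (nat_lit 131117) (nat_lit 10) .nil))) (.g (nat_lit 0) (.e (nat_lit 137335) (nat_lit 0) .nil) .nil))) 
(.lf (nat_lit 488363) (.g (nat_lit 3202) (.e (nat_lit 16433) (nat_lit 9) (.e (nat_lit 426566) (nat_lit 34) (.e (nat_lit 393251) (nat_lit 18) (.e (nat_lit 164332) (nat_lit 230) (.e (nat_lit 163866) (nat_lit 2) (.e (nat_lit 196654) (nat_lit 11) .nil)))))) (.g (nat_lit 1) (.e (nat_lit 138295) (nat_lit 0) .nil) .nil)))))) (.nd (nat_lit 7) (.nd (nat_lit 8) (.nd (nat_lit 9) 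
(.lf (nat_lit 487531) (.g (nat_lit 3604) (.e (nat_lit 24664) (nat_lit 14) (.e (nat_lit 401428) (nat_lit 3) (.e (nat_lit 204869) (nat_lit 29) (.e (nat_lit 360473) (nat_lit 8) (.e (nat_lit 557086) (nat_lit 11) .nil))))) (.g (nat_lit 1) (.e (nat_lit 135634) (nat_lit 0) .nil) .nil))) 
(.lf (nat_lit 488043) (.g (nat_lit 3374) (.e (nat_lit 16416) (nat_lit 3) (.e (nat_lit 204813) (nat_lit 9) (.e (nat_lit 426139) (nat_lit 3) (.e (nat_lit 204808) (nat_lit 9) (.e (nat_lit 426124) (nat_lit 2) (.e (nat_lit 196654) (nat_lit 11) .nil)))))) (.g (nat_lit 1) (.e (nat_lit 137756) (nat_lit 0) .nil) .nil)))) (.nd (nat_lit 9) 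
(.lf (nat_lit 487787) (.g (nat_lit 2112) (.e (nat_lit 16392) (nat_lit 0) (.e (nat_lit 6989) (nat_lit 377) (.e (nat_lit 2777) (nat_lit 178) (.e (nat_lit 286768) (nat_lit 27) .nil)))) (.g (nat_lit 0) (.e (nat_lit 136914) (nat_lit 0) .nil) .nil))) 
(.lf (nat_lit 488299) (.g (nat_lit 2683) (.e (nat_lit 16425) (nat_lit 7) (.e (nat_lit 409648) (nat_lit 18) (.e (nat_lit 303143) (nat_lit 12) (.e (nat_lit 475219) (nat_lit 44) (.e (nat_lit 737318) (nat_lit 15) (.e (nat_lit 49187) (nat_lit 11) .nil)))))) (.g (nat_lit 1) (.e (nat_lit 138167) (nat_lit 0) .nil) .nil))))) (.nd (nat_lit 8) (.nd (nat_lit 9) 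
(.lf (nat_lit 487659) (.g (nat_lit 2680) (.e (nat_lit 24665) (nat_lit 14) (.e (nat_lit 401460) (nat_lit 14) (.e (nat_lit 491563) (nat_lit 12) (.e (nat_lit 385109) (nat_lit 51) .nil)))) (.g (nat_lit 0) (.e (nat_lit 136315) (nat_lit 0) .nil) .nil))) 
(.lf (nat_lit 488171) (.g (nat_lit 2912) (.e (nat_lit 16424) (nat_lit 7) (.e (nat_lit 409648) (nat_lit 18) (.e (nat_lit 303137) (nat_lit 10) (.e (nat_lit 434275) (nat_lit 39) (.e (nat_lit 663574) (nat_lit 9) (.e (nat_lit 2741) (nat_lit 174) (.e (nat_lit 253992) (nat_lit 11) .nil))))))) (.g (nat_lit 1) (.e (nat_lit 137988) (nat_lit 0) .nil) .nil)))) (.nd (nat_lit 9) 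
(.lf (nat_lit 487915) (.g (nat_lit 1330) (.e (nat_lit 16412) (nat_lit 2) (.e (nat_lit 196681) (nat_lit 17) (.e (nat_lit 131105) (nat_lit 9) (.e (nat_lit 336324) (nat_lit 18) (.e (nat_lit 204815) (nat_lit 17) .nil))))) (.g (nat_lit 0) (.e (nat_lit 137453) (nat_lit 0) .nil) .nil))) 
(.lf (nat_lit 488427) (.g (nat_lit 3223) (.e (nat_lit 16433) (nat_lit 9) (.e (nat_lit 426566) (nat_lit 34) (.e (nat_lit 393254) (nat_lit 18) (.e (nat_lit 164332) (nat_lit 230) (.e (nat_lit 163867) (nat_lit 2) (.e (nat_lit 196654) (nat_lit 11) .nil)))))) (.g (nat_lit 1) (.e (nat_lit 138361) (nat_lit 0) .nil) .nil)))))))) 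
(.nd (nat_lit 5) (.nd (nat_lit 6) (.nd (nat_lit 7) (.nd (nat_lit 8) (.nd (nat_lit 9) 
(.lf (nat_lit 487451) (.g (nat_lit 4012) (.e (nat_lit 24662) (nat_lit 14) (.e (nat_lit 401428) (nat_lit 3) (.e (nat_lit 204869) (nat_lit 29) (.e (nat_lit 360473) (nat_lit 8) (.e (nat_lit 557087) (nat_lit 11) .nil))))) (.g (nat_lit 1) (.e (nat_lit 135494) (nat_lit 0) .nil) .nil))) 
(.lf (nat_lit 487963) (.g (nat_lit 847) (.e (nat_lit 16415) (nat_lit 3) (.e (nat_lit 204809) (nat_lit 9) (.e (nat_lit 426116) (nat_lit 2) (.e (nat_lit 196654) (nat_lit 11) .nil)))) (.g (nat_lit 0) (.e (nat_lit 137565) (nat_lit 0) .nil) .nil)))) (.nd (nat_lit 9) 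
(.lf (nat_lit 487707) (.g (nat_lit 1798) (.e (nat_lit 32512) (nat_lit 18) (.e (nat_lit 204863) (nat_lit 27) (.e (nat_lit 344118) (nat_lit 21) (.e (nat_lit 516129) (nat_lit 3) (.e (nat_lit 229120) (nat_lit 2) .nil))))) (.g (nat_lit 0) (.e (nat_lit 136464) (nat_lit 0) .nil) .nil))) 
(.lf (nat_lit 488219) (.g (nat_lit 2085) (.e (nat_lit 16425) (nat_lit 7) (.e (nat_lit 409644) (nat_lit 18) (.e (nat_lit 303143) (nat_lit 12) (.e (nat_lit 475198) (nat_lit 40) (.e (nat_lit 704790) (nat_lit 14) .nil))))) (.g (nat_lit 0) (.e (nat_lit 138082) (nat_lit 0) .nil) .nil))))) (.nd (nat_lit 8) (.nd (nat_lit 9) 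
(.lf (nat_lit 487579) (.g (nat_lit 3110) (.e (nat_lit 24665) (nat_lit 14) (.e (nat_lit 401427) (nat_lit 3) (.e (nat_lit 204869) (nat_lit 29) (.e (nat_lit 360472) (nat_lit 8) (.e (nat_lit 557086) (nat_lit 11) .nil))))) (.g (nat_lit 0) (.e (nat_lit 135977) (nat_lit 0) .nil) .nil))) 
(.lf (nat_lit 488091) (.g (nat_lit 1392) (.e (nat_lit 16416) (nat_lit 3) (.e (nat_lit 204855) (nat_lit 26) (.e (nat_lit 336176) (nat_lit 10) (.e (nat_lit 344130) (nat_lit 26) .nil)))) (.g (nat_lit 0) (.e (nat_lit 137806) (nat_lit 0) .nil) .nil)))) (.nd (nat_lit 9) 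
(.lf (nat_lit 487835) (.g (nat_lit 3128) (.e (nat_lit 16411) (nat_lit 2) (.e (nat_lit 196654) (nat_lit 11) (.e (nat_lit 16416) (nat_lit 3) (.e (nat_lit 204813) (nat_lit 9) (.e (nat_lit 426124) (nat_lit 2) (.e (nat_lit 196654) (nat_lit 11) .nil)))))) (.g (nat_lit 1) (.e (nat_lit 137274) (nat_lit 0) .nil) .nil))) 
(.lf (nat_lit 488347) (.g (nat_lit 2947) (.e (nat_lit 16433) (nat_lit 9) (.e (nat_lit 426478) (nat_lit 27) (.e (nat_lit 336389) (nat_lit 27) (.e (nat_lit 426098) (nat_lit 1) (.e (nat_lit 164327) (nat_lit 230) (.e (nat_lit 163871) (nat_lit 2) (.e (nat_lit 196654) (nat_lit 11) .nil))))))) (.g (nat_lit 1) (.e (nat_lit 138275) (nat_lit 0) .nil) .nil)))))) 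
(.nd (nat_lit 7) (.nd (nat_lit 8) (.nd (nat_lit 9) 
(.lf (nat_lit 487515) (.g (nat_lit 2332) (.e (nat_lit 24663) (nat_lit 14) (.e (nat_lit 401428) (nat_lit 3) (.e (nat_lit 204869) (nat_lit 29) (.e (nat_lit 360474) (nat_lit 8) (.e (nat_lit 557086) (nat_lit 11) .nil))))) (.g (nat_lit 0) (.e (nat_lit 135594) (nat_lit 0) .nil) .nil))) 
(.lf (nat_lit 488027) (.g (nat_lit 3445) (.e (nat_lit 16416) (nat_lit 3) (.e (nat_lit 204813) (nat_lit 9) (.e (nat_lit 426124) (nat_lit 2) (.e (nat_lit 196656) (nat_lit 11) (.e (nat_lit 16412) (nat_lit 2) (.e (nat_lit 196656) (nat_lit 11) .nil)))))) (.g (nat_lit 1) (.e (nat_lit 137740) (nat_lit 0) .nil) .nil)))) (.nd (nat_lit 9) 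
(.lf (nat_lit 487771) (.g (nat_lit 2105) (.e (nat_lit 16388) (nat_lit 0) (.e (nat_lit 3214) (nat_lit 195) (.e (nat_lit 516131) (nat_lit 3) (.e (nat_lit 221212) (nat_lit 22) (.e (nat_lit 196664) (nat_lit 13) (.e (nat_lit 65568) (nat_lit 2) (.e (nat_lit 98048) (nat_lit 2) .nil))))))) (.g (nat_lit 1) (.e (nat_lit 136870) (nat_lit 0) .nil) .nil))) 
(.lf (nat_lit 488283) (.g (nat_lit 2341) (.e (nat_lit 16425) (nat_lit 7) (.e (nat_lit 409648) (nat_lit 18) (.e (nat_lit 303142) (nat_lit 12) (.e (nat_lit 475199) (nat_lit 40) (.e (nat_lit 704790) (nat_lit 14) (.e (nat_lit 2587) (nat_lit 162) (.e (nat_lit 49187) (nat_lit 11) .nil))))))) (.g (nat_lit 1) (.e (nat_lit 138151) (nat_lit 0) .nil) .nil))))) (.nd (nat_lit 8) (.nd (nat_lit 9) 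
(.lf (nat_lit 487643) (.g (nat_lit 2753) (.e (nat_lit 24665) (nat_lit 14) (.e (nat_lit 401448) (nat_lit 10) (.e (nat_lit 434291) (nat_lit 44) (.e (nat_lit 704738) (nat_lit 11) (.e (nat_lit 16386) (nat_lit 0) (.e (nat_lit 7379) (nat_lit 390) .nil)))))) (.g (nat_lit 1) (.e (nat_lit 136226) (nat_lit 0) .nil) .nil))) 
(.lf (nat_lit 488155) (.g (nat_lit 2425) (.e (nat_lit 16424) (nat_lit 7) (.e (nat_lit 409645) (nat_lit 18) (.e (nat_lit 303143) (nat_lit 12) (.e (nat_lit 475198) (nat_lit 40) (.e (nat_lit 704790) (nat_lit 14) .nil))))) (.g (nat_lit 0) (.e (nat_lit 137959) (nat_lit 0) .nil) .nil)))) (.nd (nat_lit 9) 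
(.lf (nat_lit 487899) (.g (nat_lit 741) (.e (nat_lit 16412) (nat_lit 2) (.e (nat_lit 196666) (nat_lit 13) (.e (nat_lit 65628) (nat_lit 14) .nil))) (.g (nat_lit 0) (.e (nat_lit 137428) (nat_lit 0) .nil) .nil))) 
(.lf (nat_lit 488411) (.g (nat_lit 3210) (.e (nat_lit 16433) (nat_lit 9) (.e (nat_lit 426566) (nat_lit 34) (.e (nat_lit 393254) (nat_lit 18) (.e (nat_lit 164324) (nat_lit 230) (.e (nat_lit 163869) (nat_lit 2) (.e (nat_lit 196654) (nat_lit 11) .nil)))))) (.g (nat_lit 1) (.e (nat_lit 138345) (nat_lit 0) .nil) .nil))))))) (.nd (nat_lit 6) (.nd (nat_lit 7) (.nd (nat_lit 8) (.nd (nat_lit 9) 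
(.lf (nat_lit 487483) (.g (nat_lit 4367) (.e (nat_lit 24662) (nat_lit 14) (.e (nat_lit 401459) (nat_lit 13) (.e (nat_lit 483372) (nat_lit 21) (.e (nat_lit 319499) (nat_lit 10) .nil)))) (.g (nat_lit 0) (.e (nat_lit 135560) (nat_lit 0) .nil) .nil))) 
(.lf (nat_lit 487995) (.g (nat_lit 2226) (.e (nat_lit 16416) (nat_lit 3) (.e (nat_lit 204809) (nat_lit 9) (.e (nat_lit 426133) (nat_lit 3) (.e (nat_lit 204809) (nat_lit 9) (.e (nat_lit 426114) (nat_lit 2) (.e (nat_lit 196654) (nat_lit 11) .nil)))))) (.g (nat_lit 1) (.e (nat_lit 137702) (nat_lit 0) .nil) .nil)))) (.nd (nat_lit 9) 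
(.lf (nat_lit 487739) (.g (nat_lit 1414) (.e (nat_lit 24679) (nat_lit 27) (.e (nat_lit 426172) (nat_lit 7) (.e (nat_lit 409616) (nat_lit 10) (.e (nat_lit 632) (nat_lit 50) .nil)))) (.g (nat_lit 0) (.e (nat_lit 136662) (nat_lit 0) .nil) .nil))) 
(.lf (nat_lit 488251) (.g (nat_lit 2610) (.e (nat_lit 16425) (nat_lit 7) (.e (nat_lit 409646) (nat_lit 18) (.e (nat_lit 303143) (nat_lit 12) (.e (nat_lit 475199) (nat_lit 40) (.e (nat_lit 704788) (nat_lit 14) .nil))))) (.g (nat_lit 0) (.e (nat_lit 138114) (nat_lit 0) .nil) .nil))))) (.nd (nat_lit 8) (.nd (nat_lit 9) 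
(.lf (nat_lit 487611) (.g (nat_lit 834) (.e (nat_lit 24665) (nat_lit 14) (.e (nat_lit 401448) (nat_lit 10) (.e (nat_lit 434274) (nat_lit 39) .nil))) (.g (nat_lit 0) (.e (nat_lit 136165) (nat_lit 0) .nil) .nil))) 
(.lf (nat_lit 488123) (.g (nat_lit 2704) (.e (nat_lit 16416) (nat_lit 3) (.e (nat_lit 204869) (nat_lit 29) (.e (nat_lit 360474) (nat_lit 8) (.e (nat_lit 557073) (nat_lit 9) .nil)))) (.g (nat_lit 0) (.e (nat_lit 137862) (nat_lit 0) .nil) .nil)))) (.nd (nat_lit 9) 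
(.lf (nat_lit 487867) (.g (nat_lit 3608) (.e (nat_lit 16412) (nat_lit 2) (.e (nat_lit 196654) (nat_lit 11) (.e (nat_lit 16416) (nat_lit 3) (.e (nat_lit 204813) (nat_lit 9) (.e (nat_lit 426124) (nat_lit 2) (.e (nat_lit 196656) (nat_lit 11) .nil)))))) (.g (nat_lit 1) (.e (nat_lit 137380) (nat_lit 0) .nil) .nil))) 
(.lf (nat_lit 488379) (.g (nat_lit 3335) (.e (nat_lit 16433) (nat_lit 9) (.e (nat_lit 426566) (nat_lit 34) (.e (nat_lit 393253) (nat_lit 18) (.e (nat_lit 164324) (nat_lit 230) (.e (nat_lit 163867) (nat_lit 2) (.e (nat_lit 196654) (nat_lit 11) .nil)))))) (.g (nat_lit 1) (.e (nat_lit 138313) (nat_lit 0) .nil) .nil)))))) (.nd (nat_lit 7) (.nd (nat_lit 8) (.nd (nat_lit 9) 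
(.lf (nat_lit 487547) (.g (nat_lit 3794) (.e (nat_lit 24665) (nat_lit 14) (.e (nat_lit 401414) (nat_lit 0) (.e (nat_lit 3238) (nat_lit 197) (.e (nat_lit 532549) (nat_lit 12) (.e (nat_lit 360475) (nat_lit 8) (.e (nat_lit 564992) (nat_lit 11) .nil)))))) (.g (nat_lit 1) (.e (nat_lit 135732) (nat_lit 0) .nil) .nil))) 
(.lf (nat_lit 488059) (.g (nat_lit 2938) (.e (nat_lit 16416) (nat_lit 3) (.e (nat_lit 204837) (nat_lit 20) (.e (nat_lit 114718) (nat_lit 23) (.e (nat_lit 98335) (nat_lit 18) (.e (nat_lit 164327) (nat_lit 230) (.e (nat_lit 163868) (nat_lit 2) (.e (nat_lit 196656) (nat_lit 11) .nil))))))) (.g (nat_lit 1) (.e (nat_lit 137773) (nat_lit 0) .nil) .nil)))) (.nd (nat_lit 9) 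
(.lf (nat_lit 487803) (.g (nat_lit 2339) (.e (nat_lit 16409) (nat_lit 2) (.e (nat_lit 196666) (nat_lit 13) (.e (nat_lit 65610) (nat_lit 10) (.e (nat_lit 344129) (nat_lit 26) (.e (nat_lit 557065) (nat_lit 9) (.e (nat_lit 2741) (nat_lit 174) (.e (nat_lit 253990) (nat_lit 11) .nil))))))) (.g (nat_lit 1) (.e (nat_lit 137127) (nat_lit 0) .nil) .nil))) 
(.lf (nat_lit 488315) (.g (nat_lit 2077) (.e (nat_lit 16425) (nat_lit 7) (.e (nat_lit 409649) (nat_lit 18) (.e (nat_lit 303143) (nat_lit 12) (.e (nat_lit 475198) (nat_lit 40) (.e (nat_lit 704770) (nat_lit 14) .nil))))) (.g (nat_lit 0) (.e (nat_lit 138185) (nat_lit 0) .nil) .nil))))) (.nd (nat_lit 8) (.nd (nat_lit 9) 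
(.lf (nat_lit 487675) (.g (nat_lit 2098) (.e (nat_lit 24665) (nat_lit 14) (.e (nat_lit 401469) (nat_lit 27) (.e (nat_lit 336408) (nat_lit 27) (.e (nat_lit 426200) (nat_lit 9) (.e (nat_lit 426128) (nat_lit 2) (.e (nat_lit 204544) (nat_lit 2) .nil)))))) (.g (nat_lit 1) (.e (nat_lit 136348) (nat_lit 0) .nil) .nil))) 
(.lf (nat_lit 488187) (.g (nat_lit 2676) (.e (nat_lit 16425) (nat_lit 7) (.e (nat_lit 409617) (nat_lit 10) (.e (nat_lit 632) (nat_lit 50) (.e (nat_lit 573482) (nat_lit 13) (.e (nat_lit 65619) (nat_lit 10) (.e (nat_lit 344090) (nat_lit 18) (.e (nat_lit 6848) (nat_lit 371) (.e (nat_lit 1130) (nat_lit 83) .nil)))))))) (.g (nat_lit 1) (.e (nat_lit 138025) (nat_lit 0) .nil) .nil)))) (.nd (nat_lit 9) 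
(.lf (nat_lit 487931) (.g (nat_lit 3265) (.e (nat_lit 16413) (nat_lit 2) (.e (nat_lit 196654) (nat_lit 11) (.e (nat_lit 16416) (nat_lit 3) (.e (nat_lit 204809) (nat_lit 9) (.e (nat_lit 426116) (nat_lit 2) (.e (nat_lit 196654) (nat_lit 11) .nil)))))) (.g (nat_lit 1) (.e (nat_lit 137499) (nat_lit 0) .nil) .nil))) 
(.lf (nat_lit 488443) (.g (nat_lit 2127) (.e (nat_lit 16433) (nat_lit 9) (.e (nat_lit 426568) (nat_lit 34) (.e (nat_lit 393252) (nat_lit 18) (.e (nat_lit 164329) (nat_lit 230) (.e (nat_lit 163867) (nat_lit 2) (.e (nat_lit 196652) (nat_lit 11) .nil)))))) (.g (nat_lit 1) (.e (nat_lit 138379) (nat_lit 0) .nil) .nil)))))))))) 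
(.nd (nat_lit 3) (.nd (nat_lit 4) (.nd (nat_lit 5) (.nd (nat_lit 6) (.nd (nat_lit 7) 
(.nd (nat_lit 8) (.nd (nat_lit 9) 
(.lf (nat_lit 487431) (.g (nat_lit 4147) (.e (nat_lit 24662) (nat_lit 14) (.e (nat_lit 401425) (nat_lit 2) (.e (nat_lit 196666) (nat_lit 13) (.e (nat_lit 65610) (nat_lit 10) (.e (nat_lit 344097) (nat_lit 18) (.e (nat_lit 4056) (nat_lit 245) (.e (nat_lit 2556) (nat_lit 159) .nil))))))) (.g (nat_lit 1) (.e (nat_lit 135446) (nat_lit 0) .nil) .nil))) 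
(.lf (nat_lit 487943) (.g (nat_lit 2611) (.e (nat_lit 16413) (nat_lit 2) (.e (nat_lit 196666) (nat_lit 13) (.e (nat_lit 65617) (nat_lit 10) (.e (nat_lit 344133) (nat_lit 26) (.e (nat_lit 557065) (nat_lit 9) (.e (nat_lit 2741) (nat_lit 174) (.e (nat_lit 253989) (nat_lit 11) .nil))))))) (.g (nat_lit 1) (.e (nat_lit 137521) (nat_lit 0) .nil) .nil)))) (.nd (nat_lit 9) 
(.lf (nat_lit 487687) (.g (nat_lit 1894) (.e (nat_lit 24665) (nat_lit 14) (.e (nat_lit 409344) (nat_lit 33) (.e (nat_lit 385030) (nat_lit 8) (.e (nat_lit 2891) (nat_lit 184) (.e (nat_lit 426125) (nat_lit 2) (.e (nat_lit 204544) (nat_lit 2) .nil)))))) (.g (nat_lit 1) (.e (nat_lit 136381) (nat_lit 0) .nil) .nil))) 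
(.lf (nat_lit 488199) (.g (nat_lit 4308) (.e (nat_lit 16425) (nat_lit 7) (.e (nat_lit 409617) (nat_lit 10) (.e (nat_lit 848) (nat_lit 73) (.e (nat_lit 761905) (nat_lit 16) (.e (nat_lit 172113) (nat_lit 10) (.e (nat_lit 434208) (nat_lit 18) (.e (nat_lit 6579) (nat_lit 351) (.e (nat_lit 1126) (nat_lit 83) .nil)))))))) (.g (nat_lit 1) (.e (nat_lit 138061) (nat_lit 0) .nil) .nil))))) 
(.nd (nat_lit 8) (.nd (nat_lit 9) 
(.lf (nat_lit 487559) (.g (nat_lit 2994) (.e (nat_lit 24665) (nat_lit 14) (.e (nat_lit 401423) (nat_lit 2) (.e (nat_lit 196666) (nat_lit 13) (.e (nat_lit 65610) (nat_lit 10) (.e (nat_lit 344129) (nat_lit 26) (.e (nat_lit 564992) (nat_lit 11) .nil)))))) (.g (nat_lit 1) (.e (nat_lit 135872) (nat_lit 0) .nil) .nil))) 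
(.lf (nat_lit 488071) (.g (nat_lit 2821) (.e (nat_lit 16416) (nat_lit 3) (.e (nat_lit 204838) (nat_lit 20) (.e (nat_lit 114718) (nat_lit 23) (.e (nat_lit 98333) (nat_lit 18) (.e (nat_lit 164325) (nat_lit 230) (.e (nat_lit 163869) (nat_lit 2) (.e (nat_lit 196654) (nat_lit 11) .nil))))))) (.g (nat_lit 1) (.e (nat_lit 137786) (nat_lit 0) .nil) .nil)))) (.nd (nat_lit 9) 
(.lf (nat_lit 487815) (.g (nat_lit 2967) (.e (nat_lit 16410) (nat_lit 2) (.e (nat_lit 196654) (nat_lit 11) (.e (nat_lit 16416) (nat_lit 3) (.e (nat_lit 204813) (nat_lit 9) (.e (nat_lit 426124) (nat_lit 2) (.e (nat_lit 196653) (nat_lit 11) .nil)))))) (.g (nat_lit 1) (.e (nat_lit 137194) (nat_lit 0) .nil) .nil))) 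
(.lf (nat_lit 488327) (.g (nat_lit 2085) (.e (nat_lit 16425) (nat_lit 7) (.e (nat_lit 409649) (nat_lit 18) (.e (nat_lit 303143) (nat_lit 12) (.e (nat_lit 475216) (nat_lit 44) (.e (nat_lit 737318) (nat_lit 15) (.e (nat_lit 49189) (nat_lit 11) .nil)))))) (.g (nat_lit 1) (.e (nat_lit 138197) (nat_lit 0) .nil) .nil)))))) (.nd (nat_lit 7) (.nd (nat_lit 8) (.nd (nat_lit 9) 
(.lf (nat_lit 487495) (.g (nat_lit 2728) (.e (nat_lit 24662) (nat_lit 14) (.e (nat_lit 401459) (nat_lit 13) (.e (nat_lit 483372) (nat_lit 21) (.e (nat_lit 327424) (nat_lit 10) .nil)))) (.g (nat_lit 0) (.e (nat_lit 135572) (nat_lit 0) .nil) .nil))) 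
(.lf (nat_lit 488007) (.g (nat_lit 2165) (.e (nat_lit 16416) (nat_lit 3) (.e (nat_lit 204809) (nat_lit 9) (.e (nat_lit 426139) (nat_lit 3) (.e (nat_lit 204813) (nat_lit 9) (.e (nat_lit 426121) (nat_lit 2) (.e (nat_lit 196654) (nat_lit 11) .nil)))))) (.g (nat_lit 1) (.e (nat_lit 137714) (nat_lit 0) .nil) .nil)))) (.nd (nat_lit 9) 
(.lf (nat_lit 487751) (.g (nat_lit 2918) (.e (nat_lit 16385) (nat_lit 0) (.e (nat_lit 7583) (nat_lit 405) (.e (nat_lit 57464) (nat_lit 23) (.e (nat_lit 516166) (nat_lit 12) (.e (nat_lit 450588) (nat_lit 10) (.e (nat_lit 573470) (nat_lit 11) .nil)))))) (.g (nat_lit 1) (.e (nat_lit 136847) (nat_lit 0) .nil) .nil))) 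
(.lf (nat_lit 488263) (.g (nat_lit 2590) (.e (nat_lit 16425) (nat_lit 7) (.e (nat_lit 409647) (nat_lit 18) (.e (nat_lit 303143) (nat_lit 12) (.e (nat_lit 475199) (nat_lit 40) (.e (nat_lit 704787) (nat_lit 14) (.e (nat_lit 2592) (nat_lit 162) (.e (nat_lit 49189) (nat_lit 11) .nil))))))) (.g (nat_lit 1) (.e (nat_lit 138126) (nat_lit 0) .nil) .nil))))) (.nd (nat_lit 8) (.nd (nat_lit 9) 
(.lf (nat_lit 487623) (.g (nat_lit 2909) (.e (nat_lit 24665) (nat_lit 14) (.e (nat_lit 401448) (nat_lit 10) (.e (nat_lit 434289) (nat_lit 43) (.e (nat_lit 696343) (nat_lit 8) (.e (nat_lit 172034) (nat_lit 0) (.e (nat_lit 7936) (nat_lit 390) .nil)))))) (.g (nat_lit 1) (.e (nat_lit 136191) (nat_lit 0) .nil) .nil))) 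
(.lf (nat_lit 488135) (.g (nat_lit 2313) (.e (nat_lit 16417) (nat_lit 3) (.e (nat_lit 204868) (nat_lit 29) (.e (nat_lit 360475) (nat_lit 8) (.e (nat_lit 557091) (nat_lit 12) .nil)))) (.g (nat_lit 0) (.e (nat_lit 137924) (nat_lit 0) .nil) .nil)))) (.nd (nat_lit 9) 
(.lf (nat_lit 487879) (.g (nat_lit 1921) (.e (nat_lit 16412) (nat_lit 2) (.e (nat_lit 196666) (nat_lit 13) (.e (nat_lit 65610) (nat_lit 10) (.e (nat_lit 344090) (nat_lit 18) .nil)))) (.g (nat_lit 0) (.e (nat_lit 137408) (nat_lit 0) .nil) .nil))) 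
(.lf (nat_lit 488391) (.g (nat_lit 2585) (.e (nat_lit 16433) (nat_lit 9) (.e (nat_lit 426566) (nat_lit 34) (.e (nat_lit 393253) (nat_lit 18) (.e (nat_lit 164327) (nat_lit 230) (.e (nat_lit 163869) (nat_lit 2) (.e (nat_lit 196654) (nat_lit 11) .nil)))))) (.g (nat_lit 1) (.e (nat_lit 138325) (nat_lit 0) .nil) .nil))))))) (.nd (nat_lit 6) (.nd (nat_lit 7) (.nd (nat_lit 8) (.nd (nat_lit 9) 
(.lf (nat_lit 487463) (.g (nat_lit 1706) (.e (nat_lit 24662) (nat_lit 14) (.e (nat_lit 401459) (nat_lit 13) (.e (nat_lit 483344) (nat_lit 17) (.e (nat_lit 6152) (nat_lit 332) .nil)))) (.g (nat_lit 0) (.e (nat_lit 135539) (nat_lit 0) .nil) .nil))) 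
(.lf (nat_lit 487975) (.g (nat_lit 2801) (.e (nat_lit 16415) (nat_lit 3) (.e (nat_lit 204861) (nat_lit 26) (.e (nat_lit 336076) (nat_lit 9) (.e (nat_lit 336326) (nat_lit 18) (.e (nat_lit 204835) (nat_lit 19) (.e (nat_lit 106534) (nat_lit 11) .nil)))))) (.g (nat_lit 1) (.e (nat_lit 137663) (nat_lit 0) .nil) .nil)))) (.nd (nat_lit 9) 
(.lf (nat_lit 487719) (.g (nat_lit 713) (.e (nat_lit 32512) (nat_lit 18) (.e (nat_lit 204863) (nat_lit 27) (.e (nat_lit 344131) (nat_lit 26) .nil))) (.g (nat_lit 0) (.e (nat_lit 136476) (nat_lit 0) .nil) .nil))) 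
(.lf (nat_lit 488231) (.g (nat_lit 2757) (.e (nat_lit 16425) (nat_lit 7) (.e (nat_lit 409645) (nat_lit 18) (.e (nat_lit 303143) (nat_lit 12) (.e (nat_lit 475199) (nat_lit 40) (.e (nat_lit 704770) (nat_lit 14) .nil))))) (.g (nat_lit 0) (.e (nat_lit 138094) (nat_lit 0) .nil) .nil))))) (.nd (nat_lit 8) (.nd (nat_lit 9) 
(.lf (nat_lit 487591) (.g (nat_lit 1776) (.e (nat_lit 24665) (nat_lit 14) (.e (nat_lit 401440) (nat_lit 9) (.e (nat_lit 433920) (nat_lit 28) (.e (nat_lit 344085) (nat_lit 15) (.e (nat_lit 123175) (nat_lit 258) .nil))))) (.g (nat_lit 1) (.e (nat_lit 136090) (nat_lit 0) .nil) .nil))) 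
(.lf (nat_lit 488103) (.g (nat_lit 2863) (.e (nat_lit 16416) (nat_lit 3) (.e (nat_lit 204861) (nat_lit 26) (.e (nat_lit 336194) (nat_lit 12) (.e (nat_lit 385067) (nat_lit 26) (.e (nat_lit 532511) (nat_lit 2) (.e (nat_lit 106534) (nat_lit 11) .nil)))))) (.g (nat_lit 1) (.e (nat_lit 137838) (nat_lit 0) .nil) .nil)))) (.nd (nat_lit 9) 
(.lf (nat_lit 487847) (.g (nat_lit 1715) (.e (nat_lit 16411) (nat_lit 2) (.e (nat_lit 196672) (nat_lit 15) (.e (nat_lit 81954) (nat_lit 23) (.e (nat_lit 98334) (nat_lit 18) (.e (nat_lit 171776) (nat_lit 278) .nil))))) (.g (nat_lit 0) (.e (nat_lit 137322) (nat_lit 0) .nil) .nil))) 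
(.lf (nat_lit 488359) (.g (nat_lit 3422) (.e (nat_lit 16433) (nat_lit 9) (.e (nat_lit 426566) (nat_lit 34) (.e (nat_lit 393251) (nat_lit 18) (.e (nat_lit 164325) (nat_lit 230) (.e (nat_lit 163871) (nat_lit 2) (.e (nat_lit 196654) (nat_lit 11) .nil)))))) (.g (nat_lit 1) (.e (nat_lit 138291) (nat_lit 0) .nil) .nil)))))) (.nd (nat_lit 7) (.nd (nat_lit 8) (.nd (nat_lit 9) 
(.lf (nat_lit 487527) (.g (nat_lit 2899) (.e (nat_lit 24664) (nat_lit 14) (.e (nat_lit 401428) (nat_lit 3) (.e (nat_lit 204868) (nat_lit 29) (.e (nat_lit 360473) (nat_lit 8) (.e (nat_lit 557087) (nat_lit 11) .nil))))) (.g (nat_lit 1) (.e (nat_lit 135630) (nat_lit 0) .nil) .nil))) 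
(.lf (nat_lit 488039) (.g (nat_lit 3593) (.e (nat_lit 16416) (nat_lit 3) (.e (nat_lit 204813) (nat_lit 9) (.e (nat_lit 426133) (nat_lit 3) (.e (nat_lit 204813) (nat_lit 9) (.e (nat_lit 426124) (nat_lit 2) (.e (nat_lit 196656) (nat_lit 11) .nil)))))) (.g (nat_lit 1) (.e (nat_lit 137752) (nat_lit 0) .nil) .nil)))) (.nd (nat_lit 9) 
(.lf (nat_lit 487783) (.g (nat_lit 1278) (.e (nat_lit 16388) (nat_lit 0) (.e (nat_lit 7382) (nat_lit 391) (.e (nat_lit 163962) (nat_lit 25) (.e (nat_lit 532569) (nat_lit 16) (.e (nat_lit 401448) (nat_lit 10) .nil))))) (.g (nat_lit 0) (.e (nat_lit 136898) (nat_lit 0) .nil) .nil))) 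
(.lf (nat_lit 488295) (.g (nat_lit 3122) (.e (nat_lit 16425) (nat_lit 7) (.e (nat_lit 409648) (nat_lit 18) (.e (nat_lit 303143) (nat_lit 12) (.e (nat_lit 475199) (nat_lit 40) (.e (nat_lit 704836) (nat_lit 14) (.e (nat_lit 2590) (nat_lit 162) (.e (nat_lit 49189) (nat_lit 11) .nil))))))) (.g (nat_lit 1) (.e (nat_lit 138163) (nat_lit 0) .nil) .nil))))) (.nd (nat_lit 8) (.nd (nat_lit 9) 
(.lf (nat_lit 487655) (.g (nat_lit 2220) (.e (nat_lit 24665) (nat_lit 14) (.e (nat_lit 401451) (nat_lit 12) (.e (nat_lit 475212) (nat_lit 42) (.e (nat_lit 720956) (nat_lit 25) .nil)))) (.g (nat_lit 0) (.e (nat_lit 136253) (nat_lit 0) .nil) .nil))) 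
(.lf (nat_lit 488167) (.g (nat_lit 2531) (.e (nat_lit 16424) (nat_lit 7) (.e (nat_lit 409646) (nat_lit 18) (.e (nat_lit 303133) (nat_lit 9) (.e (nat_lit 426412) (nat_lit 15) (.e (nat_lit 2233) (nat_lit 146) (.e (nat_lit 737318) (nat_lit 15) (.e (nat_lit 49189) (nat_lit 11) .nil))))))) (.g (nat_lit 1) (.e (nat_lit 137982) (nat_lit 0) .nil) .nil)))) (.nd (nat_lit 9) 
(.lf (nat_lit 487911) (.g (nat_lit 2855) (.e (nat_lit 16412) (nat_lit 2) (.e (nat_lit 196674) (nat_lit 15) (.e (nat_lit 81946) (nat_lit 20) (.e (nat_lit 1858) (nat_lit 124) (.e (nat_lit 557117) (nat_lit 18) (.e (nat_lit 1157) (nat_lit 86) (.e (nat_lit 49189) (nat_lit 11) .nil))))))) (.g (nat_lit 1) (.e (nat_lit 137446) (nat_lit 0) .nil) .nil))) 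
(.lf (nat_lit 488423) (.g (nat_lit 2621) (.e (nat_lit 16433) (nat_lit 9) (.e (nat_lit 426566) (nat_lit 34) (.e (nat_lit 393254) (nat_lit 18) (.e (nat_lit 164329) (nat_lit 230) (.e (nat_lit 163866) (nat_lit 2) (.e (nat_lit 196654) (nat_lit 11) .nil)))))) (.g (nat_lit 1) (.e (nat_lit 138357) (nat_lit 0) .nil) .nil)))))))) 
(.nd (nat_lit 5) (.nd (nat_lit 6) (.nd (nat_lit 7) (.nd (nat_lit 8) (.nd (nat_lit 9) 
(.lf (nat_lit 487447) (.g (nat_lit 3650) (.e (nat_lit 24662) (nat_lit 14) (.e (nat_lit 401428) (nat_lit 3) (.e (nat_lit 204868) (nat_lit 29) (.e (nat_lit 360473) (nat_lit 8) (.e (nat_lit 557085) (nat_lit 11) .nil))))) (.g (nat_lit 1) (.e (nat_lit 135469) (nat_lit 0) .nil) .nil))) 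
(.lf (nat_lit 487959) (.g (nat_lit 2469) (.e (nat_lit 16413) (nat_lit 2) (.e (nat_lit 196681) (nat_lit 17) (.e (nat_lit 131105) (nat_lit 9) (.e (nat_lit 336324) (nat_lit 18) (.e (nat_lit 204835) (nat_lit 19) (.e (nat_lit 106534) (nat_lit 11) .nil)))))) (.g (nat_lit 1) (.e (nat_lit 137539) (nat_lit 0) .nil) .nil)))) (.nd (nat_lit 9) 
(.lf (nat_lit 487703) (.g (nat_lit 1844) (.e (nat_lit 32512) (nat_lit 18) (.e (nat_lit 204862) (nat_lit 27) (.e (nat_lit 344132) (nat_lit 26) (.e (nat_lit 557100) (nat_lit 13) (.e (nat_lit 172073) (nat_lit 5) .nil))))) (.g (nat_lit 0) (.e (nat_lit 136460) (nat_lit 0) .nil) .nil))) 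
(.lf (nat_lit 488215) (.g (nat_lit 1982) (.e (nat_lit 16425) (nat_lit 7) (.e (nat_lit 409643) (nat_lit 18) (.e (nat_lit 303143) (nat_lit 12) (.e (nat_lit 475216) (nat_lit 44) (.e (nat_lit 737318) (nat_lit 15) (.e (nat_lit 49189) (nat_lit 11) .nil)))))) (.g (nat_lit 1) (.e (nat_lit 138078) (nat_lit 0) .nil) .nil))))) (.nd (nat_lit 8) (.nd (nat_lit 9) 
(.lf (nat_lit 487575) (.g (nat_lit 3729) (.e (nat_lit 24665) (nat_lit 14) (.e (nat_lit 401426) (nat_lit 3) (.e (nat_lit 204869) (nat_lit 29) (.e (nat_lit 360475) (nat_lit 8) (.e (nat_lit 557086) (nat_lit 11) .nil))))) (.g (nat_lit 1) (.e (nat_lit 135936) (nat_lit 0) .nil) .nil))) 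
(.lf (nat_lit 488087) (.g (nat_lit 2901) (.e (nat_lit 16416) (nat_lit 3) (.e (nat_lit 204838) (nat_lit 20) (.e (nat_lit 114719) (nat_lit 23) (.e (nat_lit 98335) (nat_lit 18) (.e (nat_lit 164327) (nat_lit 230) (.e (nat_lit 163871) (nat_lit 2) (.e (nat_lit 196654) (nat_lit 11) .nil))))))) (.g (nat_lit 1) (.e (nat_lit 137802) (nat_lit 0) .nil) .nil)))) (.nd (nat_lit 9) 
(.lf (nat_lit 487831) (.g (nat_lit 2630) (.e (nat_lit 16411) (nat_lit 2) (.e (nat_lit 196654) (nat_lit 11) (.e (nat_lit 16416) (nat_lit 3) (.e (nat_lit 204813) (nat_lit 9) (.e (nat_lit 426114) (nat_lit 2) (.e (nat_lit 196654) (nat_lit 11) .nil)))))) (.g (nat_lit 1) (.e (nat_lit 137268) (nat_lit 0) .nil) .nil))) 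
(.lf (nat_lit 488343) (.g (nat_lit 2252) (.e (nat_lit 16433) (nat_lit 9) (.e (nat_lit 426478) (nat_lit 27) (.e (nat_lit 336389) (nat_lit 27) (.e (nat_lit 426098) (nat_lit 1) (.e (nat_lit 164325) (nat_lit 230) .nil))))) (.g (nat_lit 0) (.e (nat_lit 138270) (nat_lit 0) .nil) .nil)))))) (.nd (nat_lit 7) (.nd (nat_lit 8) (.nd (nat_lit 9) 
(.lf (nat_lit 487511) (.g (nat_lit 2388) (.e (nat_lit 24662) (nat_lit 14) (.e (nat_lit 401459) (nat_lit 13) (.e (nat_lit 483411) (nat_lit 27) (.e (nat_lit 401417) (nat_lit 0) .nil)))) (.g (nat_lit 0) (.e (nat_lit 135590) (nat_lit 0) .nil) .nil))) 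
(.lf (nat_lit 488023) (.g (nat_lit 3123) (.e (nat_lit 16416) (nat_lit 3) (.e (nat_lit 204813) (nat_lit 9) (.e (nat_lit 426124) (nat_lit 2) (.e (nat_lit 196656) (nat_lit 11) (.e (nat_lit 16388) (nat_lit 0) (.e (nat_lit 3181) (nat_lit 193) (.e (nat_lit 500046) (nat_lit 16) .nil))))))) (.g (nat_lit 1) (.e (nat_lit 137736) (nat_lit 0) .nil) .nil)))) (.nd (nat_lit 9) 
(.lf (nat_lit 487767) (.g (nat_lit 2961) (.e (nat_lit 16388) (nat_lit 0) (.e (nat_lit 3213) (nat_lit 195) (.e (nat_lit 516131) (nat_lit 3) (.e (nat_lit 221215) (nat_lit 23) (.e (nat_lit 204850) (nat_lit 26) (.e (nat_lit 336013) (nat_lit 2) (.e (nat_lit 98048) (nat_lit 2) .nil))))))) (.g (nat_lit 1) (.e (nat_lit 136866) (nat_lit 0) .nil) .nil))) 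
(.lf (nat_lit 488279) (.g (nat_lit 2398) (.e (nat_lit 16425) (nat_lit 7) (.e (nat_lit 409648) (nat_lit 18) (.e (nat_lit 303137) (nat_lit 10) (.e (nat_lit 434272) (nat_lit 38) (.e (nat_lit 655400) (nat_lit 14) (.e (nat_lit 2587) (nat_lit 162) (.e (nat_lit 49187) (nat_lit 11) .nil))))))) (.g (nat_lit 1) (.e (nat_lit 138147) (nat_lit 0) .nil) .nil))))) (.nd (nat_lit 8) (.nd (nat_lit 9) 
(.lf (nat_lit 487639) (.g (nat_lit 1841) (.e (nat_lit 24665) (nat_lit 14) (.e (nat_lit 401448) (nat_lit 10) (.e (nat_lit 434291) (nat_lit 44) (.e (nat_lit 704737) (nat_lit 11) (.e (nat_lit 16388) (nat_lit 0) (.e (nat_lit 7936) (nat_lit 390) .nil)))))) (.g (nat_lit 1) (.e (nat_lit 136217) (nat_lit 0) .nil) .nil))) 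
(.lf (nat_lit 488151) (.g (nat_lit 413) (.e (nat_lit 16424) (nat_lit 7) (.e (nat_lit 409645) (nat_lit 18) (.e (nat_lit 303143) (nat_lit 12) .nil))) (.g (nat_lit 0) (.e (nat_lit 137955) (nat_lit 0) .nil) .nil)))) (.nd (nat_lit 9) 
(.lf (nat_lit 487895) (.g (nat_lit 2418) (.e (nat_lit 16412) (nat_lit 2) (.e (nat_lit 196666) (nat_lit 13) (.e (nat_lit 65610) (nat_lit 10) (.e (nat_lit 344129) (nat_lit 26) (.e (nat_lit 557069) (nat_lit 9) (.e (nat_lit 2741) (nat_lit 174) (.e (nat_lit 253989) (nat_lit 11) .nil))))))) (.g (nat_lit 1) (.e (nat_lit 137424) (nat_lit 0) .nil) .nil))) 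
(.lf (nat_lit 488407) (.g (nat_lit 3298) (.e (nat_lit 16433) (nat_lit 9) (.e (nat_lit 426566) (nat_lit 34) (.e (nat_lit 393254) (nat_lit 18) (.e (nat_lit 164322) (nat_lit 230) (.e (nat_lit 163867) (nat_lit 2) (.e (nat_lit 196654) (nat_lit 11) .nil)))))) (.g (nat_lit 1) (.e (nat_lit 138341) (nat_lit 0) .nil) .nil))))))) (.nd (nat_lit 6) (.nd (nat_lit 7) (.nd (nat_lit 8) (.nd (nat_lit 9) 
(.lf (nat_lit 487479) (.g (nat_lit 2518) (.e (nat_lit 24662) (nat_lit 14) (.e (nat_lit 401459) (nat_lit 13) (.e (nat_lit 483371) (nat_lit 21) (.e (nat_lit 319505) (nat_lit 10) (.e (nat_lit 7936) (nat_lit 314) .nil))))) (.g (nat_lit 1) (.e (nat_lit 135556) (nat_lit 0) .nil) .nil))) 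
(.lf (nat_lit 487991) (.g (nat_lit 2596) (.e (nat_lit 16416) (nat_lit 3) (.e (nat_lit 204809) (nat_lit 9) (.e (nat_lit 426123) (nat_lit 2) (.e (nat_lit 196656) (nat_lit 11) (.e (nat_lit 16410) (nat_lit 2) (.e (nat_lit 196654) (nat_lit 11) .nil)))))) (.g (nat_lit 1) (.e (nat_lit 137697) (nat_lit 0) .nil) .nil)))) (.nd (nat_lit 9) 
(.lf (nat_lit 487735) (.g (nat_lit 1095) (.e (nat_lit 24678) (nat_lit 27) (.e (nat_lit 426315) (nat_lit 12) (.e (nat_lit 483072) (nat_lit 26) (.e (nat_lit 532544) (nat_lit 10) (.e (nat_lit 352000) (nat_lit 2) .nil))))) (.g (nat_lit 0) (.e (nat_lit 136628) (nat_lit 0) .nil) .nil))) 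
(.lf (nat_lit 488247) (.g (nat_lit 2239) (.e (nat_lit 16425) (nat_lit 7) (.e (nat_lit 409646) (nat_lit 18) (.e (nat_lit 303143) (nat_lit 12) (.e (nat_lit 475198) (nat_lit 40) (.e (nat_lit 704787) (nat_lit 14) .nil))))) (.g (nat_lit 0) (.e (nat_lit 138110) (nat_lit 0) .nil) .nil))))) (.nd (nat_lit 8) (.nd (nat_lit 9) 
(.lf (nat_lit 487607) (.g (nat_lit 2964) (.e (nat_lit 24665) (nat_lit 14) (.e (nat_lit 401448) (nat_lit 10) (.e (nat_lit 434203) (nat_lit 18) (.e (nat_lit 6068) (nat_lit 328) (.e (nat_lit 57400) (nat_lit 10) (.e (nat_lit 319504) (nat_lit 10) (.e (nat_lit 7936) (nat_lit 314) .nil))))))) (.g (nat_lit 1) (.e (nat_lit 136146) (nat_lit 0) .nil) .nil))) 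
(.lf (nat_lit 488119) (.g (nat_lit 2286) (.e (nat_lit 16416) (nat_lit 3) (.e (nat_lit 204869) (nat_lit 29) (.e (nat_lit 360474) (nat_lit 8) (.e (nat_lit 557065) (nat_lit 9) .nil)))) (.g (nat_lit 0) (.e (nat_lit 137858) (nat_lit 0) .nil) .nil)))) (.nd (nat_lit 9) 
(.lf (nat_lit 487863) (.g (nat_lit 3819) (.e (nat_lit 16412) (nat_lit 2) (.e (nat_lit 196654) (nat_lit 11) (.e (nat_lit 16415) (nat_lit 3) (.e (nat_lit 204813) (nat_lit 9) (.e (nat_lit 426124) (nat_lit 2) (.e (nat_lit 196656) (nat_lit 11) .nil)))))) (.g (nat_lit 1) (.e (nat_lit 137374) (nat_lit 0) .nil) .nil))) 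
(.lf (nat_lit 488375) (.g (nat_lit 3610) (.e (nat_lit 16433) (nat_lit 9) (.e (nat_lit 426566) (nat_lit 34) (.e (nat_lit 393253) (nat_lit 18) (.e (nat_lit 164305) (nat_lit 226) (.e (nat_lit 2433) (nat_lit 157) .nil))))) (.g (nat_lit 0) (.e (nat_lit 138309) (nat_lit 0) .nil) .nil)))))) (.nd (nat_lit 7) (.nd (nat_lit 8) (.nd (nat_lit 9) 
(.lf (nat_lit 487543) (.g (nat_lit 306) (.e (nat_lit 24665) (nat_lit 14) (.e (nat_lit 401414) (nat_lit 0) (.e (nat_lit 3238) (nat_lit 197) .nil))) (.g (nat_lit 0) (.e (nat_lit 135679) (nat_lit 0) .nil) .nil))) 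
(.lf (nat_lit 488055) (.g (nat_lit 3959) (.e (nat_lit 16416) (nat_lit 3) (.e (nat_lit 204837) (nat_lit 20) (.e (nat_lit 114718) (nat_lit 23) (.e (nat_lit 98333) (nat_lit 18) (.e (nat_lit 164327) (nat_lit 230) (.e (nat_lit 163868) (nat_lit 2) (.e (nat_lit 196654) (nat_lit 11) .nil))))))) (.g (nat_lit 1) (.e (nat_lit 137769) (nat_lit 0) .nil) .nil)))) (.nd (nat_lit 9) 
(.lf (nat_lit 487799) (.g (nat_lit 1011) (.e (nat_lit 16407) (nat_lit 1) (.e (nat_lit 164403) (nat_lit 256) (.e (nat_lit 57409) (nat_lit 12) (.e (nat_lit 336430) (nat_lit 29) .nil)))) (.g (nat_lit 0) (.e (nat_lit 137110) (nat_lit 0) .nil) .nil))) 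
(.lf (nat_lit 488311) (.g (nat_lit 3535) (.e (nat_lit 16425) (nat_lit 7) (.e (nat_lit 409649) (nat_lit 18) (.e (nat_lit 303140) (nat_lit 10) (.e (nat_lit 434275) (nat_lit 39) (.e (nat_lit 663580) (nat_lit 9) (.e (nat_lit 2478) (nat_lit 157) (.e (nat_lit 7936) (nat_lit 218) (.e (nat_lit 704740) (nat_lit 11) .nil)))))))) (.g (nat_lit 1) (.e (nat_lit 138181) (nat_lit 0) .nil) .nil))))) 
(.nd (nat_lit 8) (.nd (nat_lit 9) 
(.lf (nat_lit 487671) (.g (nat_lit 1425) (.e (nat_lit 24665) (nat_lit 14) (.e (nat_lit 409344) (nat_lit 18) (.e (nat_lit 98365) (nat_lit 26) (.e (nat_lit 426308) (nat_lit 12) (.e (nat_lit 483072) (nat_lit 2) .nil))))) (.g (nat_lit 1) (.e (nat_lit 136339) (nat_lit 0) .nil) .nil))) 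
(.lf (nat_lit 488183) (.g (nat_lit 2535) (.e (nat_lit 16425) (nat_lit 7) (.e (nat_lit 409616) (nat_lit 10) (.e (nat_lit 632) (nat_lit 50) (.e (nat_lit 573493) (nat_lit 15) (.e (nat_lit 81959) (nat_lit 24) (.e (nat_lit 130816) (nat_lit 146) (.e (nat_lit 1126) (nat_lit 83) .nil))))))) (.g (nat_lit 1) (.e (nat_lit 138021) (nat_lit 0) .nil) .nil)))) (.nd (nat_lit 9) 
(.lf (nat_lit 487927) (.g (nat_lit 373) (.e (nat_lit 16412) (nat_lit 2) (.e (nat_lit 196681) (nat_lit 17) (.e (nat_lit 131120) (nat_lit 12) .nil))) (.g (nat_lit 0) (.e (nat_lit 137481) (nat_lit 0) .nil) .nil))) 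
(.lf (nat_lit 488439) (.g (nat_lit 3354) (.e (nat_lit 16433) (nat_lit 9) (.e (nat_lit 426568) (nat_lit 34) (.e (nat_lit 393251) (nat_lit 18) (.e (nat_lit 164332) (nat_lit 230) (.e (nat_lit 163867) (nat_lit 2) (.e (nat_lit 196656) (nat_lit 11) .nil)))))) (.g (nat_lit 1) (.e (nat_lit 138375) (nat_lit 0) .nil) .nil))))))))) 
(.nd (nat_lit 4) (.nd (nat_lit 5) (.nd (nat_lit 6) (.nd (nat_lit 7) (.nd (nat_lit 8) 
(.nd (nat_lit 9) 
(.lf (nat_lit 487439) (.g (nat_lit 4743) (.e (nat_lit 24662) (nat_lit 14) (.e (nat_lit 401425) (nat_lit 2) (.e (nat_lit 196666) (nat_lit 13) (.e (nat_lit 65610) (nat_lit 10) (.e (nat_lit 344097) (nat_lit 18) (.e (nat_lit 4075) (nat_lit 245) (.e (nat_lit 2556) (nat_lit 159) .nil))))))) (.g (nat_lit 1) (.e (nat_lit 135458) (nat_lit 0) .nil) .nil))) 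
(.lf (nat_lit 487951) (.g (nat_lit 1675) (.e (nat_lit 16413) (nat_lit 2) (.e (nat_lit 196666) (nat_lit 13) (.e (nat_lit 65624) (nat_lit 12) (.e (nat_lit 385067) (nat_lit 26) .nil)))) (.g (nat_lit 0) (.e (nat_lit 137529) (nat_lit 0) .nil) .nil)))) (.nd (nat_lit 9) 
(.lf (nat_lit 487695) (.g (nat_lit 2211) (.e (nat_lit 32512) (nat_lit 18) (.e (nat_lit 204862) (nat_lit 27) (.e (nat_lit 344117) (nat_lit 21) (.e (nat_lit 516129) (nat_lit 3) (.e (nat_lit 229120) (nat_lit 2) .nil))))) (.g (nat_lit 0) (.e (nat_lit 136452) (nat_lit 0) .nil) .nil))) 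
(.lf (nat_lit 488207) (.g (nat_lit 2836) (.e (nat_lit 16425) (nat_lit 7) (.e (nat_lit 409643) (nat_lit 18) (.e (nat_lit 303143) (nat_lit 12) (.e (nat_lit 475199) (nat_lit 40) (.e (nat_lit 704777) (nat_lit 14) (.e (nat_lit 2587) (nat_lit 162) (.e (nat_lit 49189) (nat_lit 11) .nil))))))) (.g (nat_lit 1) (.e (nat_lit 138070) (nat_lit 0) .nil) .nil))))) (.nd (nat_lit 8) (.nd (nat_lit 9) 
(.lf (nat_lit 487567) (.g (nat_lit 1061) (.e (nat_lit 24665) (nat_lit 14) (.e (nat_lit 401424) (nat_lit 2) (.e (nat_lit 196674) (nat_lit 15) (.e (nat_lit 81946) (nat_lit 20) .nil)))) (.g (nat_lit 0) (.e (nat_lit 135900) (nat_lit 0) .nil) .nil))) 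
(.lf (nat_lit 488079) (.g (nat_lit 3188) (.e (nat_lit 16416) (nat_lit 3) (.e (nat_lit 204838) (nat_lit 20) (.e (nat_lit 114719) (nat_lit 23) (.e (nat_lit 98333) (nat_lit 18) (.e (nat_lit 164325) (nat_lit 230) (.e (nat_lit 163868) (nat_lit 2) (.e (nat_lit 196654) (nat_lit 11) .nil))))))) (.g (nat_lit 1) (.e (nat_lit 137794) (nat_lit 0) .nil) .nil)))) (.nd (nat_lit 9) 
(.lf (nat_lit 487823) (.g (nat_lit 404) (.e (nat_lit 16410) (nat_lit 2) (.e (nat_lit 196681) (nat_lit 17) (.e (nat_lit 131109) (nat_lit 9) .nil))) (.g (nat_lit 0) (.e (nat_lit 137214) (nat_lit 0) .nil) .nil))) 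
(.lf (nat_lit 488335) (.g (nat_lit 2593) (.e (nat_lit 16431) (nat_lit 9) (.e (nat_lit 426140) (nat_lit 3) (.e (nat_lit 204885) (nat_lit 33) (.e (nat_lit 401448) (nat_lit 10) (.e (nat_lit 434245) (nat_lit 28) (.e (nat_lit 573471) (nat_lit 11) .nil)))))) (.g (nat_lit 1) (.e (nat_lit 138243) (nat_lit 0) .nil) .nil)))))) (.nd (nat_lit 7) (.nd (nat_lit 8) (.nd (nat_lit 9) 
(.lf (nat_lit 487503) (.g (nat_lit 2624) (.e (nat_lit 24662) (nat_lit 14) (.e (nat_lit 401459) (nat_lit 13) (.e (nat_lit 483410) (nat_lit 27) (.e (nat_lit 401412) (nat_lit 0) (.e (nat_lit 7936) (nat_lit 390) .nil))))) (.g (nat_lit 0) (.e (nat_lit 135582) (nat_lit 0) .nil) .nil))) 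
(.lf (nat_lit 488015) (.g (nat_lit 2416) (.e (nat_lit 16416) (nat_lit 3) (.e (nat_lit 204813) (nat_lit 9) (.e (nat_lit 426116) (nat_lit 2) (.e (nat_lit 196656) (nat_lit 11) (.e (nat_lit 16388) (nat_lit 0) (.e (nat_lit 3181) (nat_lit 193) (.e (nat_lit 500046) (nat_lit 16) .nil))))))) (.g (nat_lit 1) (.e (nat_lit 137724) (nat_lit 0) .nil) .nil)))) (.nd (nat_lit 9) 
(.lf (nat_lit 487759) (.g (nat_lit 2810) (.e (nat_lit 16388) (nat_lit 0) (.e (nat_lit 3208) (nat_lit 195) (.e (nat_lit 516130) (nat_lit 3) (.e (nat_lit 221211) (nat_lit 22) (.e (nat_lit 196666) (nat_lit 13) (.e (nat_lit 65568) (nat_lit 2) (.e (nat_lit 98048) (nat_lit 2) .nil))))))) (.g (nat_lit 1) (.e (nat_lit 136858) (nat_lit 0) .nil) .nil))) 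
(.lf (nat_lit 488271) (.g (nat_lit 2848) (.e (nat_lit 16425) (nat_lit 7) (.e (nat_lit 409648) (nat_lit 18) (.e (nat_lit 303137) (nat_lit 10) (.e (nat_lit 434275) (nat_lit 39) (.e (nat_lit 663574) (nat_lit 9) (.e (nat_lit 2418) (nat_lit 157) (.e (nat_lit 3476) (nat_lit 218) (.e (nat_lit 704732) (nat_lit 11) .nil)))))))) (.g (nat_lit 1) (.e (nat_lit 138134) (nat_lit 0) .nil) .nil))))) 
(.nd (nat_lit 8) (.nd (nat_lit 9) 
(.lf (nat_lit 487631) (.g (nat_lit 2166) (.e (nat_lit 24665) (nat_lit 14) (.e (nat_lit 401448) (nat_lit 10) (.e (nat_lit 434289) (nat_lit 43) (.e (nat_lit 696344) (nat_lit 8) (.e (nat_lit 172038) (nat_lit 0) .nil))))) (.g (nat_lit 0) (.e (nat_lit 136199) (nat_lit 0) .nil) .nil))) 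
(.lf (nat_lit 488143) (.g (nat_lit 3702) (.e (nat_lit 16417) (nat_lit 3) (.e (nat_lit 204869) (nat_lit 29) (.e (nat_lit 360475) (nat_lit 8) (.e (nat_lit 557067) (nat_lit 9) .nil)))) (.g (nat_lit 0) (.e (nat_lit 137933) (nat_lit 0) .nil) .nil)))) (.nd (nat_lit 9) 
(.lf (nat_lit 487887) (.g (nat_lit 3778) (.e (nat_lit 16412) (nat_lit 2) (.e (nat_lit 196666) (nat_lit 13) (.e (nat_lit 65610) (nat_lit 10) (.e (nat_lit 344129) (nat_lit 26) (.e (nat_lit 557064) (nat_lit 9) (.e (nat_lit 2744) (nat_lit 174) (.e (nat_lit 253992) (nat_lit 11) .nil))))))) (.g (nat_lit 1) (.e (nat_lit 137416) (nat_lit 0) .nil) .nil))) 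
(.lf (nat_lit 488399) (.g (nat_lit 2882) (.e (nat_lit 16433) (nat_lit 9) (.e (nat_lit 426566) (nat_lit 34) (.e (nat_lit 393253) (nat_lit 18) (.e (nat_lit 164330) (nat_lit 230) (.e (nat_lit 163869) (nat_lit 2) (.e (nat_lit 196656) (nat_lit 11) .nil)))))) (.g (nat_lit 1) (.e (nat_lit 138333) (nat_lit 0) .nil) .nil))))))) (.nd (nat_lit 6) (.nd (nat_lit 7) (.nd (nat_lit 8) (.nd (nat_lit 9) 
(.lf (nat_lit 487471) (.g (nat_lit 2887) (.e (nat_lit 24662) (nat_lit 14) (.e (nat_lit 401459) (nat_lit 13) (.e (nat_lit 483350) (nat_lit 17) (.e (nat_lit 6113) (nat_lit 332) (.e (nat_lit 977) (nat_lit 81) (.e (nat_lit 5750) (nat_lit 314) .nil)))))) (.g (nat_lit 1) (.e (nat_lit 135548) (nat_lit 0) .nil) .nil))) 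
(.lf (nat_lit 487983) (.g (nat_lit 2442) (.e (nat_lit 16415) (nat_lit 3) (.e (nat_lit 204868) (nat_lit 29) (.e (nat_lit 360475) (nat_lit 8) (.e (nat_lit 557065) (nat_lit 9) .nil)))) (.g (nat_lit 0) (.e (nat_lit 137674) (nat_lit 0) .nil) .nil)))) (.nd (nat_lit 9) 
(.lf (nat_lit 487727) (.g (nat_lit 1757) (.e (nat_lit 32512) (nat_lit 20) (.e (nat_lit 221208) (nat_lit 21) (.e (nat_lit 164402) (nat_lit 256) (.e (nat_lit 57427) (nat_lit 15) (.e (nat_lit 360461) (nat_lit 1) .nil))))) (.g (nat_lit 0) (.e (nat_lit 136516) (nat_lit 0) .nil) .nil))) 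
(.lf (nat_lit 488239) (.g (nat_lit 2448) (.e (nat_lit 16425) (nat_lit 7) (.e (nat_lit 409645) (nat_lit 18) (.e (nat_lit 303143) (nat_lit 12) (.e (nat_lit 475219) (nat_lit 44) (.e (nat_lit 737318) (nat_lit 15) (.e (nat_lit 49187) (nat_lit 11) .nil)))))) (.g (nat_lit 1) (.e (nat_lit 138102) (nat_lit 0) .nil) .nil))))) (.nd (nat_lit 8) (.nd (nat_lit 9) 
(.lf (nat_lit 487599) (.g (nat_lit 2688) (.e (nat_lit 24665) (nat_lit 14) (.e (nat_lit 401446) (nat_lit 10) (.e (nat_lit 434203) (nat_lit 18) (.e (nat_lit 6068) (nat_lit 328) (.e (nat_lit 57400) (nat_lit 10) (.e (nat_lit 319504) (nat_lit 10) (.e (nat_lit 7936) (nat_lit 314) .nil))))))) (.g (nat_lit 1) (.e (nat_lit 136101) (nat_lit 0) .nil) .nil))) 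
(.lf (nat_lit 488111) (.g (nat_lit 502) (.e (nat_lit 16416) (nat_lit 3) (.e (nat_lit 204868) (nat_lit 29) (.e (nat_lit 360475) (nat_lit 8) .nil))) (.g (nat_lit 0) (.e (nat_lit 137850) (nat_lit 0) .nil) .nil)))) (.nd (nat_lit 9) 
(.lf (nat_lit 487855) (.g (nat_lit 3606) (.e (nat_lit 16412) (nat_lit 2) (.e (nat_lit 196654) (nat_lit 11) (.e (nat_lit 16412) (nat_lit 2) (.e (nat_lit 196654) (nat_lit 11) (.e (nat_lit 16412) (nat_lit 2) (.e (nat_lit 196656) (nat_lit 11) .nil)))))) (.g (nat_lit 1) (.e (nat_lit 137355) (nat_lit 0) .nil) .nil))) 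
(.lf (nat_lit 488367) (.g (nat_lit 3877) (.e (nat_lit 16433) (nat_lit 9) (.e (nat_lit 426566) (nat_lit 34) (.e (nat_lit 393251) (nat_lit 18) (.e (nat_lit 164332) (nat_lit 230) (.e (nat_lit 163869) (nat_lit 2) (.e (nat_lit 196656) (nat_lit 11) .nil)))))) (.g (nat_lit 1) (.e (nat_lit 138299) (nat_lit 0) .nil) .nil)))))) (.nd (nat_lit 7) (.nd (nat_lit 8) (.nd (nat_lit 9) 
(.lf (nat_lit 487535) (.g (nat_lit 2989) (.e (nat_lit 24664) (nat_lit 14) (.e (nat_lit 401428) (nat_lit 3) (.e (nat_lit 204869) (nat_lit 29) (.e (nat_lit 360474) (nat_lit 8) (.e (nat_lit 557087) (nat_lit 11) .nil))))) (.g (nat_lit 1) (.e (nat_lit 135638) (nat_lit 0) .nil) .nil))) 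
(.lf (nat_lit 488047) (.g (nat_lit 2062) (.e (nat_lit 16416) (nat_lit 3) (.e (nat_lit 204813) (nat_lit 9) (.e (nat_lit 426139) (nat_lit 3) (.e (nat_lit 204813) (nat_lit 9) (.e (nat_lit 426121) (nat_lit 2) (.e (nat_lit 196654) (nat_lit 11) .nil)))))) (.g (nat_lit 1) (.e (nat_lit 137760) (nat_lit 0) .nil) .nil)))) (.nd (nat_lit 9) 
(.lf (nat_lit 487791) (.g (nat_lit 442) (.e (nat_lit 16396) (nat_lit 0) (.e (nat_lit 3304) (nat_lit 202) (.e (nat_lit 573484) (nat_lit 13) .nil))) (.g (nat_lit 0) (.e (nat_lit 136927) (nat_lit 0) .nil) .nil))) 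
(.lf (nat_lit 488303) (.g (nat_lit 2902) (.e (nat_lit 16425) (nat_lit 7) (.e (nat_lit 409649) (nat_lit 18) (.e (nat_lit 303132) (nat_lit 9) (.e (nat_lit 426025) (nat_lit 0) (.e (nat_lit 3397) (nat_lit 211) (.e (nat_lit 647201) (nat_lit 12) (.e (nat_lit 57530) (nat_lit 46) (.e (nat_lit 712448) (nat_lit 11) .nil)))))))) (.g (nat_lit 1) (.e (nat_lit 138171) (nat_lit 0) .nil) .nil))))) 
(.nd (nat_lit 8) (.nd (nat_lit 9) 
(.lf (nat_lit 487663) (.g (nat_lit 3856) (.e (nat_lit 24665) (nat_lit 14) (.e (nat_lit 401460) (nat_lit 14) (.e (nat_lit 491565) (nat_lit 12) (.e (nat_lit 385109) (nat_lit 51) (.e (nat_lit 794677) (nat_lit 24) (.e (nat_lit 213032) (nat_lit 11) .nil)))))) (.g (nat_lit 1) (.e (nat_lit 136322) (nat_lit 0) .nil) .nil))) 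
(.lf (nat_lit 488175) (.g (nat_lit 954) (.e (nat_lit 16425) (nat_lit 7) (.e (nat_lit 409602) (nat_lit 0) (.e (nat_lit 539) (nat_lit 41) .nil))) (.g (nat_lit 0) (.e (nat_lit 137993) (nat_lit 0) .nil) .nil)))) (.nd (nat_lit 9) 
(.lf (nat_lit 487919) (.g (nat_lit 368) (.e (nat_lit 16412) (nat_lit 2) (.e (nat_lit 196681) (nat_lit 17) (.e (nat_lit 131109) (nat_lit 9) .nil))) (.g (nat_lit 0) (.e (nat_lit 137463) (nat_lit 0) .nil) .nil))) 
(.lf (nat_lit 488431) (.g (nat_lit 2673) (.e (nat_lit 16433) (nat_lit 9) (.e (nat_lit 426568) (nat_lit 34) (.e (nat_lit 393250) (nat_lit 18) (.e (nat_lit 164327) (nat_lit 230) (.e (nat_lit 163868) (nat_lit 2) (.e (nat_lit 196654) (nat_lit 11) .nil)))))) (.g (nat_lit 1) (.e (nat_lit 138367) (nat_lit 0) .nil) .nil)))))))) 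
(.nd (nat_lit 5) (.nd (nat_lit 6) (.nd (nat_lit 7) (.nd (nat_lit 8) (.nd (nat_lit 9) 
(.lf (nat_lit 487455) (.g (nat_lit 2297) (.e (nat_lit 24662) (nat_lit 14) (.e (nat_lit 401436) (nat_lit 9) (.e (nat_lit 426482) (nat_lit 27) (.e (nat_lit 336060) (nat_lit 7) (.e (nat_lit 319505) (nat_lit 10) (.e (nat_lit 7936) (nat_lit 314) .nil)))))) (.g (nat_lit 1) (.e (nat_lit 135501) (nat_lit 0) .nil) .nil))) 
(.lf (nat_lit 487967) (.g (nat_lit 1225) (.e (nat_lit 16415) (nat_lit 3) (.e (nat_lit 204829) (nat_lit 18) (.e (nat_lit 57692) (nat_lit 156) .nil))) (.g (nat_lit 0) (.e (nat_lit 137645) (nat_lit 0) .nil) .nil)))) (.nd (nat_lit 9) 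
(.lf (nat_lit 487711) (.g (nat_lit 572) (.e (nat_lit 32512) (nat_lit 18) (.e (nat_lit 204863) (nat_lit 27) (.e (nat_lit 344129) (nat_lit 26) .nil))) (.g (nat_lit 0) (.e (nat_lit 136468) (nat_lit 0) .nil) .nil))) 
(.lf (nat_lit 488223) (.g (nat_lit 1970) (.e (nat_lit 16425) (nat_lit 7) (.e (nat_lit 409644) (nat_lit 18) (.e (nat_lit 303143) (nat_lit 12) (.e (nat_lit 475218) (nat_lit 44) (.e (nat_lit 737318) (nat_lit 15) (.e (nat_lit 49189) (nat_lit 11) .nil)))))) (.g (nat_lit 1) (.e (nat_lit 138086) (nat_lit 0) .nil) .nil))))) (.nd (nat_lit 8) (.nd (nat_lit 9) 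
(.lf (nat_lit 487583) (.g (nat_lit 4251) (.e (nat_lit 24665) (nat_lit 14) (.e (nat_lit 401427) (nat_lit 3) (.e (nat_lit 204869) (nat_lit 29) (.e (nat_lit 360475) (nat_lit 8) (.e (nat_lit 557087) (nat_lit 11) .nil))))) (.g (nat_lit 1) (.e (nat_lit 135981) (nat_lit 0) .nil) .nil))) 
(.lf (nat_lit 488095) (.g (nat_lit 1228) (.e (nat_lit 16416) (nat_lit 3) (.e (nat_lit 204861) (nat_lit 26) (.e (nat_lit 336076) (nat_lit 9) (.e (nat_lit 336316) (nat_lit 17) .nil)))) (.g (nat_lit 0) (.e (nat_lit 137819) (nat_lit 0) .nil) .nil)))) (.nd (nat_lit 9) 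
(.lf (nat_lit 487839) (.g (nat_lit 1203) (.e (nat_lit 16411) (nat_lit 2) (.e (nat_lit 196656) (nat_lit 11) (.e (nat_lit 16416) (nat_lit 3) (.e (nat_lit 204812) (nat_lit 9) .nil)))) (.g (nat_lit 0) (.e (nat_lit 137303) (nat_lit 0) .nil) .nil))) 
(.lf (nat_lit 488351) (.g (nat_lit 2110) (.e (nat_lit 16433) (nat_lit 9) (.e (nat_lit 426481) (nat_lit 27) (.e (nat_lit 336389) (nat_lit 27) (.e (nat_lit 426098) (nat_lit 1) (.e (nat_lit 164325) (nat_lit 230) .nil))))) (.g (nat_lit 0) (.e (nat_lit 138283) (nat_lit 0) .nil) .nil)))))) (.nd (nat_lit 7) (.nd (nat_lit 8) (.nd (nat_lit 9) 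
(.lf (nat_lit 487519) (.g (nat_lit 3896) (.e (nat_lit 24664) (nat_lit 14) (.e (nat_lit 401426) (nat_lit 3) (.e (nat_lit 204869) (nat_lit 29) (.e (nat_lit 360474) (nat_lit 8) (.e (nat_lit 557085) (nat_lit 11) .nil))))) (.g (nat_lit 1) (.e (nat_lit 135622) (nat_lit 0) .nil) .nil))) 
(.lf (nat_lit 488031) (.g (nat_lit 2985) (.e (nat_lit 16416) (nat_lit 3) (.e (nat_lit 204813) (nat_lit 9) (.e (nat_lit 426133) (nat_lit 3) (.e (nat_lit 204813) (nat_lit 9) (.e (nat_lit 426009) (nat_lit 0) (.e (nat_lit 3135) (nat_lit 193) (.e (nat_lit 500046) (nat_lit 16) .nil))))))) (.g (nat_lit 1) (.e (nat_lit 137744) (nat_lit 0) .nil) .nil)))) (.nd (nat_lit 9) 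
(.lf (nat_lit 487775) (.g (nat_lit 3276) (.e (nat_lit 16388) (nat_lit 0) (.e (nat_lit 3276) (nat_lit 200) (.e (nat_lit 557105) (nat_lit 14) (.e (nat_lit 180252) (nat_lit 10) (.e (nat_lit 573481) (nat_lit 13) (.e (nat_lit 65568) (nat_lit 2) (.e (nat_lit 98048) (nat_lit 2) .nil))))))) (.g (nat_lit 1) (.e (nat_lit 136880) (nat_lit 0) .nil) .nil))) 
(.lf (nat_lit 488287) (.g (nat_lit 2675) (.e (nat_lit 16425) (nat_lit 7) (.e (nat_lit 409648) (nat_lit 18) (.e (nat_lit 303143) (nat_lit 12) (.e (nat_lit 475198) (nat_lit 40) (.e (nat_lit 704790) (nat_lit 14) (.e (nat_lit 2587) (nat_lit 162) (.e (nat_lit 49187) (nat_lit 11) .nil))))))) (.g (nat_lit 1) (.e (nat_lit 138155) (nat_lit 0) .nil) .nil))))) (.nd (nat_lit 8) (.nd (nat_lit 9) 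
(.lf (nat_lit 487647) (.g (nat_lit 780) (.e (nat_lit 24665) (nat_lit 14) (.e (nat_lit 401450) (nat_lit 12) (.e (nat_lit 475214) (nat_lit 42) .nil))) (.g (nat_lit 0) (.e (nat_lit 136240) (nat_lit 0) .nil) .nil))) 
(.lf (nat_lit 488159) (.g (nat_lit 2987) (.e (nat_lit 16424) (nat_lit 7) (.e (nat_lit 409645) (nat_lit 18) (.e (nat_lit 303143) (nat_lit 12) (.e (nat_lit 475199) (nat_lit 40) (.e (nat_lit 704777) (nat_lit 14) .nil))))) (.g (nat_lit 0) (.e (nat_lit 137964) (nat_lit 0) .nil) .nil)))) (.nd (nat_lit 9) 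
(.lf (nat_lit 487903) (.g (nat_lit 1402) (.e (nat_lit 16412) (nat_lit 2) (.e (nat_lit 196672) (nat_lit 15) (.e (nat_lit 81954) (nat_lit 23) (.e (nat_lit 98333) (nat_lit 18) .nil)))) (.g (nat_lit 0) (.e (nat_lit 137438) (nat_lit 0) .nil) .nil))) 
(.lf (nat_lit 488415) (.g (nat_lit 3183) (.e (nat_lit 16433) (nat_lit 9) (.e (nat_lit 426566) (nat_lit 34) (.e (nat_lit 393254) (nat_lit 18) (.e (nat_lit 164325) (nat_lit 230) (.e (nat_lit 163869) (nat_lit 2) (.e (nat_lit 196654) (nat_lit 11) .nil)))))) (.g (nat_lit 1) (.e (nat_lit 138349) (nat_lit 0) .nil) .nil))))))) (.nd (nat_lit 6) (.nd (nat_lit 7) (.nd (nat_lit 8) (.nd (nat_lit 9) 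
(.lf (nat_lit 487487) (.g (nat_lit 3387) (.e (nat_lit 24662) (nat_lit 14) (.e (nat_lit 401459) (nat_lit 13) (.e (nat_lit 483372) (nat_lit 21) (.e (nat_lit 319505) (nat_lit 10) (.e (nat_lit 7936) (nat_lit 314) .nil))))) (.g (nat_lit 1) (.e (nat_lit 135564) (nat_lit 0) .nil) .nil))) 
(.lf (nat_lit 487999) (.g (nat_lit 3218) (.e (nat_lit 16416) (nat_lit 3) (.e (nat_lit 204809) (nat_lit 9) (.e (nat_lit 426133) (nat_lit 3) (.e (nat_lit 204813) (nat_lit 9) (.e (nat_lit 426116) (nat_lit 2) (.e (nat_lit 196656) (nat_lit 11) .nil)))))) (.g (nat_lit 1) (.e (nat_lit 137706) (nat_lit 0) .nil) .nil)))) (.nd (nat_lit 9) 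
(.lf (nat_lit 487743) (.g (nat_lit 240) (.e (nat_lit 32512) (nat_lit 29) (.e (nat_lit 442424) (nat_lit 22) (.e (nat_lit 204544) (nat_lit 0) (.e (nat_lit 328) (nat_lit 25) (.e (nat_lit 376576) (nat_lit 2) .nil))))) (.g (nat_lit 0) (.e (nat_lit 136749) (nat_lit 0) .nil) .nil))) 
(.lf (nat_lit 488255) (.g (nat_lit 1625) (.e (nat_lit 16425) (nat_lit 7) (.e (nat_lit 409646) (nat_lit 18) (.e (nat_lit 303143) (nat_lit 12) (.e (nat_lit 475216) (nat_lit 44) (.e (nat_lit 737318) (nat_lit 15) .nil))))) (.g (nat_lit 0) (.e (nat_lit 138118) (nat_lit 0) .nil) .nil))))) (.nd (nat_lit 8) (.nd (nat_lit 9) 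
(.lf (nat_lit 487615) (.g (nat_lit 3394) (.e (nat_lit 24665) (nat_lit 14) (.e (nat_lit 401448) (nat_lit 10) (.e (nat_lit 434275) (nat_lit 39) (.e (nat_lit 663585) (nat_lit 12) (.e (nat_lit 171776) (nat_lit 49) (.e (nat_lit 729120) (nat_lit 28) (.e (nat_lit 147495) (nat_lit 11) .nil))))))) (.g (nat_lit 1) (.e (nat_lit 136172) (nat_lit 0) .nil) .nil))) 
(.lf (nat_lit 488127) (.g (nat_lit 4359) (.e (nat_lit 16416) (nat_lit 3) (.e (nat_lit 204869) (nat_lit 29) (.e (nat_lit 360475) (nat_lit 8) (.e (nat_lit 557114) (nat_lit 18) .nil)))) (.g (nat_lit 0) (.e (nat_lit 137866) (nat_lit 0) .nil) .nil)))) (.nd (nat_lit 9) 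
(.lf (nat_lit 487871) (.g (nat_lit 2013) (.e (nat_lit 16412) (nat_lit 2) (.e (nat_lit 196656) (nat_lit 11) (.e (nat_lit 16416) (nat_lit 3) (.e (nat_lit 204808) (nat_lit 9) .nil)))) (.g (nat_lit 0) (.e (nat_lit 137399) (nat_lit 0) .nil) .nil))) 
(.lf (nat_lit 488383) (.g (nat_lit 2300) (.e (nat_lit 16433) (nat_lit 9) (.e (nat_lit 426566) (nat_lit 34) (.e (nat_lit 393253) (nat_lit 18) (.e (nat_lit 164325) (nat_lit 230) (.e (nat_lit 163867) (nat_lit 2) .nil))))) (.g (nat_lit 0) (.e (nat_lit 138317) (nat_lit 0) .nil) .nil)))))) (.nd (nat_lit 7) (.nd (nat_lit 8) (.nd (nat_lit 9) 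
(.lf (nat_lit 487551) (.g (nat_lit 3675) (.e (nat_lit 24665) (nat_lit 14) (.e (nat_lit 401414) (nat_lit 0) (.e (nat_lit 3459) (nat_lit 216) (.e (nat_lit 688178) (nat_lit 16) (.e (nat_lit 65619) (nat_lit 10) (.e (nat_lit 344178) (nat_lit 44) (.e (nat_lit 778469) (nat_lit 11) .nil))))))) (.g (nat_lit 1) (.e (nat_lit 135837) (nat_lit 0) .nil) .nil))) 
(.lf (nat_lit 488063) (.g (nat_lit 2753) (.e (nat_lit 16416) (nat_lit 3) (.e (nat_lit 204837) (nat_lit 20) (.e (nat_lit 114719) (nat_lit 23) (.e (nat_lit 98333) (nat_lit 18) (.e (nat_lit 164325) (nat_lit 230) (.e (nat_lit 163869) (nat_lit 2) (.e (nat_lit 196654) (nat_lit 11) .nil))))))) (.g (nat_lit 1) (.e (nat_lit 137777) (nat_lit 0) .nil) .nil)))) (.nd (nat_lit 9) 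
(.lf (nat_lit 487807) (.g (nat_lit 3140) (.e (nat_lit 16410) (nat_lit 2) (.e (nat_lit 196654) (nat_lit 11) (.e (nat_lit 16416) (nat_lit 3) (.e (nat_lit 204809) (nat_lit 9) (.e (nat_lit 426116) (nat_lit 2) (.e (nat_lit 196654) (nat_lit 11) .nil)))))) (.g (nat_lit 1) (.e (nat_lit 137183) (nat_lit 0) .nil) .nil))) 
(.lf (nat_lit 488319) (.g (nat_lit 2518) (.e (nat_lit 16425) (nat_lit 7) (.e (nat_lit 409649) (nat_lit 18) (.e (nat_lit 303143) (nat_lit 12) (.e (nat_lit 475199) (nat_lit 40) (.e (nat_lit 704770) (nat_lit 14) (.e (nat_lit 2595) (nat_lit 162) (.e (nat_lit 49189) (nat_lit 11) .nil))))))) (.g (nat_lit 1) (.e (nat_lit 138189) (nat_lit 0) .nil) .nil))))) (.nd (nat_lit 8) (.nd (nat_lit 9) 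
(.lf (nat_lit 487679) (.g (nat_lit 1431) (.e (nat_lit 24665) (nat_lit 14) (.e (nat_lit 409344) (nat_lit 27) (.e (nat_lit 336443) (nat_lit 32) (.e (nat_lit 466974) (nat_lit 22) (.e (nat_lit 204544) (nat_lit 2) .nil))))) (.g (nat_lit 1) (.e (nat_lit 136373) (nat_lit 0) .nil) .nil))) 
(.lf (nat_lit 488191) (.g (nat_lit 3227) (.e (nat_lit 16425) (nat_lit 7) (.e (nat_lit 409617) (nat_lit 10) (.e (nat_lit 632) (nat_lit 50) (.e (nat_lit 573493) (nat_lit 15) (.e (nat_lit 81938) (nat_lit 20) (.e (nat_lit 991) (nat_lit 81) (.e (nat_lit 6910) (nat_lit 371) (.e (nat_lit 1126) (nat_lit 83) .nil)))))))) (.g (nat_lit 1) (.e (nat_lit 138052) (nat_lit 0) .nil) .nil)))) (.nd (nat_lit 9) 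
(.lf (nat_lit 487935) (.g (nat_lit 2125) (.e (nat_lit 16413) (nat_lit 2) (.e (nat_lit 196666) (nat_lit 13) (.e (nat_lit 65610) (nat_lit 10) (.e (nat_lit 352000) (nat_lit 28) .nil)))) (.g (nat_lit 0) (.e (nat_lit 137512) (nat_lit 0) .nil) .nil))) 
(.lf (nat_lit 488447) (.g (nat_lit 2227) (.e (nat_lit 16433) (nat_lit 9) (.e (nat_lit 426568) (nat_lit 34) (.e (nat_lit 393252) (nat_lit 18) (.e (nat_lit 164332) (nat_lit 230) (.e (nat_lit 163867) (nat_lit 2) (.e (nat_lit 196652) (nat_lit 11) .nil)))))) (.g (nat_lit 1) (.e (nat_lit 138383) (nat_lit 0) .nil) .nil)))))))))))))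

noncomputable def tv5537 : DT := (.nd (nat_lit 0) (.nd (nat_lit 1) (.nd (nat_lit 2) (.nd (nat_lit 3) (.nd (nat_lit 4) (.nd (nat_lit 5) (.nd (nat_lit 6) (.nd (nat_lit 7) (.nd (nat_lit 8) (.nd (nat_lit 9) 
(.lf (nat_lit 488448) (.g (nat_lit 3399) (.e (nat_lit 16433) (nat_lit 9) (.e (nat_lit 426568) (nat_lit 34) (.e (nat_lit 393253) (nat_lit 18) (.e (nat_lit 164324) (nat_lit 230) (.e (nat_lit 163866) (nat_lit 2) (.e (nat_lit 196654) (nat_lit 11) .nil)))))) (.g (nat_lit 1) (.e (nat_lit 138384) (nat_lit 0) .nil) .nil))) 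
(.lf (nat_lit 488960) (.g (nat_lit 4436) (.e (nat_lit 16456) (nat_lit 12) (.e (nat_lit 475185) (nat_lit 29) (.e (nat_lit 557100) (nat_lit 13) (.e (nat_lit 172113) (nat_lit 10) (.e (nat_lit 434245) (nat_lit 28) (.e (nat_lit 573469) (nat_lit 11) .nil)))))) (.g (nat_lit 1) (.e (nat_lit 140021) (nat_lit 0) .nil) .nil)))) (.nd (nat_lit 9) 
(.lf (nat_lit 488704) (.g (nat_lit 2083) (.e (nat_lit 16437) (nat_lit 9) (.e (nat_lit 426566) (nat_lit 34) (.e (nat_lit 393252) (nat_lit 18) (.e (nat_lit 164330) (nat_lit 230) (.e (nat_lit 163866) (nat_lit 2) .nil))))) (.g (nat_lit 0) (.e (nat_lit 138812) (nat_lit 0) .nil) .nil))) 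
(.lf (nat_lit 489216) (.g (nat_lit 3447) (.e (nat_lit 16463) (nat_lit 13) (.e (nat_lit 483341) (nat_lit 9) (.e (nat_lit 426107) (nat_lit 1) (.e (nat_lit 164331) (nat_lit 230) (.e (nat_lit 163866) (nat_lit 2) (.e (nat_lit 196654) (nat_lit 11) .nil)))))) (.g (nat_lit 1) (.e (nat_lit 140413) (nat_lit 0) .nil) .nil))))) (.nd (nat_lit 8) (.nd (nat_lit 9) 
(.lf (nat_lit 488576) (.g (nat_lit 2946) (.e (nat_lit 16435) (nat_lit 9) (.e (nat_lit 426566) (nat_lit 34) (.e (nat_lit 393253) (nat_lit 18) (.e (nat_lit 164325) (nat_lit 230) (.e (nat_lit 163869) (nat_lit 2) (.e (nat_lit 196653) (nat_lit 11) .nil)))))) (.g (nat_lit 1) (.e (nat_lit 138520) (nat_lit 0) .nil) .nil))) 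
(.lf (nat_lit 489088) (.g (nat_lit 2923) (.e (nat_lit 16462) (nat_lit 13) (.e (nat_lit 483413) (nat_lit 27) (.e (nat_lit 401447) (nat_lit 10) (.e (nat_lit 442112) (nat_lit 44) .nil)))) (.g (nat_lit 0) (.e (nat_lit 140270) (nat_lit 0) .nil) .nil)))) (.nd (nat_lit 9) 
(.lf (nat_lit 488832) (.g (nat_lit 3679) (.e (nat_lit 16439) (nat_lit 9) (.e (nat_lit 426499) (nat_lit 27) (.e (nat_lit 336231) (nat_lit 14) (.e (nat_lit 401444) (nat_lit 9) (.e (nat_lit 426163) (nat_lit 6) (.e (nat_lit 253992) (nat_lit 11) .nil)))))) (.g (nat_lit 1) (.e (nat_lit 138974) (nat_lit 0) .nil) .nil))) 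
(.lf (nat_lit 489344) (.g (nat_lit 2144) (.e (nat_lit 16466) (nat_lit 13) (.e (nat_lit 483337) (nat_lit 9) (.e (nat_lit 426098) (nat_lit 1) (.e (nat_lit 164325) (nat_lit 230) (.e (nat_lit 163867) (nat_lit 2) (.e (nat_lit 196654) (nat_lit 11) .nil)))))) (.g (nat_lit 1) (.e (nat_lit 140641) (nat_lit 0) .nil) .nil)))))) (.nd (nat_lit 7) (.nd (nat_lit 8) (.nd (nat_lit 9) 
(.lf (nat_lit 488512) (.g (nat_lit 3424) (.e (nat_lit 16434) (nat_lit 9) (.e (nat_lit 426566) (nat_lit 34) (.e (nat_lit 393253) (nat_lit 18) (.e (nat_lit 164330) (nat_lit 230) (.e (nat_lit 163867) (nat_lit 2) (.e (nat_lit 196654) (nat_lit 11) .nil)))))) (.g (nat_lit 1) (.e (nat_lit 138449) (nat_lit 0) .nil) .nil))) 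
(.lf (nat_lit 489024) (.g (nat_lit 2863) (.e (nat_lit 16459) (nat_lit 12) (.e (nat_lit 475183) (nat_lit 29) (.e (nat_lit 557100) (nat_lit 13) (.e (nat_lit 172113) (nat_lit 10) (.e (nat_lit 434248) (nat_lit 28) (.e (nat_lit 573469) (nat_lit 11) .nil)))))) (.g (nat_lit 1) (.e (nat_lit 140113) (nat_lit 0) .nil) .nil)))) (.nd (nat_lit 9) 
(.lf (nat_lit 488768) (.g (nat_lit 2186) (.e (nat_lit 16438) (nat_lit 9) (.e (nat_lit 426482) (nat_lit 27) (.e (nat_lit 336386) (nat_lit 27) (.e (nat_lit 426100) (nat_lit 1) (.e (nat_lit 164332) (nat_lit 230) .nil))))) (.g (nat_lit 0) (.e (nat_lit 138889) (nat_lit 0) .nil) .nil))) 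
(.lf (nat_lit 489280) (.g (nat_lit 2574) (.e (nat_lit 16465) (nat_lit 13) (.e (nat_lit 483341) (nat_lit 9) (.e (nat_lit 426099) (nat_lit 1) (.e (nat_lit 164332) (nat_lit 230) (.e (nat_lit 163869) (nat_lit 2) (.e (nat_lit 196656) (nat_lit 11) .nil)))))) (.g (nat_lit 1) (.e (nat_lit 140548) (nat_lit 0) .nil) .nil))))) (.nd (nat_lit 8) (.nd (nat_lit 9) 
(.lf (nat_lit 488640) (.g (nat_lit 2772) (.e (nat_lit 16436) (nat_lit 9) (.e (nat_lit 426131) (nat_lit 3) (.e (nat_lit 204882) (nat_lit 32) (.e (nat_lit 385109) (nat_lit 51) (.e (nat_lit 794667) (nat_lit 22) (.e (nat_lit 196654) (nat_lit 11) .nil)))))) (.g (nat_lit 1) (.e (nat_lit 138670) (nat_lit 0) .nil) .nil))) 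
(.lf (nat_lit 489152) (.g (nat_lit 2715) (.e (nat_lit 16463) (nat_lit 13) (.e (nat_lit 483341) (nat_lit 9) (.e (nat_lit 426100) (nat_lit 1) (.e (nat_lit 164331) (nat_lit 230) (.e (nat_lit 163866) (nat_lit 2) (.e (nat_lit 196654) (nat_lit 11) .nil)))))) (.g (nat_lit 1) (.e (nat_lit 140344) (nat_lit 0) .nil) .nil)))) (.nd (nat_lit 9) 
(.lf (nat_lit 488896) (.g (nat_lit 3031) (.e (nat_lit 16448) (nat_lit 10) (.e (nat_lit 434231) (nat_lit 23) (.e (nat_lit 532563) (nat_lit 15) (.e (nat_lit 385109) (nat_lit 51) (.e (nat_lit 794641) (nat_lit 20) .nil))))) (.g (nat_lit 0) (.e (nat_lit 139490) (nat_lit 0) .nil) .nil))) 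
(.lf (nat_lit 489408) (.g (nat_lit 3007) (.e (nat_lit 16466) (nat_lit 13) (.e (nat_lit 483341) (nat_lit 9) (.e (nat_lit 426106) (nat_lit 1) (.e (nat_lit 164325) (nat_lit 230) (.e (nat_lit 163869) (nat_lit 2) (.e (nat_lit 196654) (nat_lit 11) .nil)))))) (.g (nat_lit 1) (.e (nat_lit 140705) (nat_lit 0) .nil) .nil))))))) (.nd (nat_lit 6) (.nd (nat_lit 7) (.nd (nat_lit 8) (.nd (nat_lit 9) 
(.lf (nat_lit 488480) (.g (nat_lit 2862) (.e (nat_lit 16434) (nat_lit 9) (.e (nat_lit 426566) (nat_lit 34) (.e (nat_lit 393252) (nat_lit 18) (.e (nat_lit 164330) (nat_lit 230) (.e (nat_lit 163867) (nat_lit 2) (.e (nat_lit 196654) (nat_lit 11) .nil)))))) (.g (nat_lit 1) (.e (nat_lit 138417) (nat_lit 0) .nil) .nil))) 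
(.lf (nat_lit 488992) (.g (nat_lit 3653) (.e (nat_lit 16458) (nat_lit 12) (.e (nat_lit 475183) (nat_lit 29) (.e (nat_lit 557100) (nat_lit 13) (.e (nat_lit 172113) (nat_lit 10) (.e (nat_lit 434248) (nat_lit 28) (.e (nat_lit 573470) (nat_lit 11) .nil)))))) (.g (nat_lit 1) (.e (nat_lit 140067) (nat_lit 0) .nil) .nil)))) (.nd (nat_lit 9) 
(.lf (nat_lit 488736) (.g (nat_lit 2284) (.e (nat_lit 16437) (nat_lit 9) (.e (nat_lit 426568) (nat_lit 34) (.e (nat_lit 393253) (nat_lit 18) (.e (nat_lit 164327) (nat_lit 230) (.e (nat_lit 163871) (nat_lit 2) .nil))))) (.g (nat_lit 0) (.e (nat_lit 138845) (nat_lit 0) .nil) .nil))) 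
(.lf (nat_lit 489248) (.g (nat_lit 2384) (.e (nat_lit 16463) (nat_lit 13) (.e (nat_lit 483413) (nat_lit 27) (.e (nat_lit 401448) (nat_lit 10) (.e (nat_lit 442112) (nat_lit 44) .nil)))) (.g (nat_lit 0) (.e (nat_lit 140463) (nat_lit 0) .nil) .nil))))) (.nd (nat_lit 8) (.nd (nat_lit 9) 
(.lf (nat_lit 488608) (.g (nat_lit 3790) (.e (nat_lit 16436) (nat_lit 9) (.e (nat_lit 426131) (nat_lit 3) (.e (nat_lit 204852) (nat_lit 26) (.e (nat_lit 336336) (nat_lit 20) (.e (nat_lit 221210) (nat_lit 22) (.e (nat_lit 196656) (nat_lit 11) .nil)))))) (.g (nat_lit 1) (.e (nat_lit 138582) (nat_lit 0) .nil) .nil))) 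
(.lf (nat_lit 489120) (.g (nat_lit 4433) (.e (nat_lit 16463) (nat_lit 13) (.e (nat_lit 483337) (nat_lit 9) (.e (nat_lit 426107) (nat_lit 1) (.e (nat_lit 164327) (nat_lit 230) (.e (nat_lit 163868) (nat_lit 2) (.e (nat_lit 196656) (nat_lit 11) .nil)))))) (.g (nat_lit 1) (.e (nat_lit 140311) (nat_lit 0) .nil) .nil)))) (.nd (nat_lit 9) 
(.lf (nat_lit 488864) (.g (nat_lit 2336) (.e (nat_lit 16446) (nat_lit 9) (.e (nat_lit 426500) (nat_lit 27) (.e (nat_lit 335894) (nat_lit 0) (.e (nat_lit 6722) (nat_lit 362) (.e (nat_lit 180272) (nat_lit 26) (.e (nat_lit 704738) (nat_lit 11) .nil)))))) (.g (nat_lit 1) (.e (nat_lit 139236) (nat_lit 0) .nil) .nil))) 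
(.lf (nat_lit 489376) (.g (nat_lit 2292) (.e (nat_lit 16466) (nat_lit 13) (.e (nat_lit 483340) (nat_lit 9) (.e (nat_lit 426098) (nat_lit 1) (.e (nat_lit 164325) (nat_lit 230) (.e (nat_lit 163869) (nat_lit 2) (.e (nat_lit 196654) (nat_lit 11) .nil)))))) (.g (nat_lit 1) (.e (nat_lit 140673) (nat_lit 0) .nil) .nil)))))) (.nd (nat_lit 7) (.nd (nat_lit 8) (.nd (nat_lit 9) 
(.lf (nat_lit 488544) (.g (nat_lit 3641) (.e (nat_lit 16435) (nat_lit 9) (.e (nat_lit 426566) (nat_lit 34) (.e (nat_lit 393251) (nat_lit 18) (.e (nat_lit 164325) (nat_lit 230) (.e (nat_lit 163868) (nat_lit 2) (.e (nat_lit 196654) (nat_lit 11) .nil)))))) (.g (nat_lit 1) (.e (nat_lit 138488) (nat_lit 0) .nil) .nil))) 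
(.lf (nat_lit 489056) (.g (nat_lit 3285) (.e (nat_lit 16461) (nat_lit 12) (.e (nat_lit 475179) (nat_lit 24) (.e (nat_lit 516120) (nat_lit 1) (.e (nat_lit 164330) (nat_lit 230) (.e (nat_lit 163936) (nat_lit 18) (.e (nat_lit 483072) (nat_lit 10) .nil)))))) (.g (nat_lit 1) (.e (nat_lit 140167) (nat_lit 0) .nil) .nil)))) (.nd (nat_lit 9) 
(.lf (nat_lit 488800) (.g (nat_lit 2734) (.e (nat_lit 16438) (nat_lit 9) (.e (nat_lit 426482) (nat_lit 27) (.e (nat_lit 336388) (nat_lit 27) (.e (nat_lit 426107) (nat_lit 1) (.e (nat_lit 164326) (nat_lit 230) (.e (nat_lit 163868) (nat_lit 2) (.e (nat_lit 196654) (nat_lit 11) .nil))))))) (.g (nat_lit 1) (.e (nat_lit 138925) (nat_lit 0) .nil) .nil))) 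
(.lf (nat_lit 489312) (.g (nat_lit 2395) (.e (nat_lit 16465) (nat_lit 13) (.e (nat_lit 483341) (nat_lit 9) (.e (nat_lit 426107) (nat_lit 1) (.e (nat_lit 164329) (nat_lit 230) .nil)))) (.g (nat_lit 0) (.e (nat_lit 140593) (nat_lit 0) .nil) .nil))))) (.nd (nat_lit 8) (.nd (nat_lit 9) 
(.lf (nat_lit 488672) (.g (nat_lit 2959) (.e (nat_lit 16436) (nat_lit 9) (.e (nat_lit 426566) (nat_lit 34) (.e (nat_lit 393251) (nat_lit 18) (.e (nat_lit 164327) (nat_lit 230) (.e (nat_lit 163868) (nat_lit 2) (.e (nat_lit 196656) (nat_lit 11) .nil)))))) (.g (nat_lit 1) (.e (nat_lit 138730) (nat_lit 0) .nil) .nil))) 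
(.lf (nat_lit 489184) (.g (nat_lit 2788) (.e (nat_lit 16463) (nat_lit 13) (.e (nat_lit 483341) (nat_lit 9) (.e (nat_lit 426106) (nat_lit 1) (.e (nat_lit 164329) (nat_lit 230) (.e (nat_lit 163866) (nat_lit 2) (.e (nat_lit 196654) (nat_lit 11) .nil)))))) (.g (nat_lit 1) (.e (nat_lit 140377) (nat_lit 0) .nil) .nil)))) (.nd (nat_lit 9) 
(.lf (nat_lit 488928) (.g (nat_lit 2583) (.e (nat_lit 16455) (nat_lit 12) (.e (nat_lit 475179) (nat_lit 24) (.e (nat_lit 516120) (nat_lit 1) (.e (nat_lit 164332) (nat_lit 230) (.e (nat_lit 163938) (nat_lit 18) .nil))))) (.g (nat_lit 0) (.e (nat_lit 139975) (nat_lit 0) .nil) .nil))) 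
(.lf (nat_lit 489440) (.g (nat_lit 3615) (.e (nat_lit 16466) (nat_lit 13) (.e (nat_lit 483341) (nat_lit 9) (.e (nat_lit 426108) (nat_lit 1) (.e (nat_lit 164330) (nat_lit 230) (.e (nat_lit 163866) (nat_lit 2) (.e (nat_lit 196654) (nat_lit 11) .nil)))))) (.g (nat_lit 1) (.e (nat_lit 140737) (nat_lit 0) .nil) .nil)))))))) 
(.nd (nat_lit 5) (.nd (nat_lit 6) (.nd (nat_lit 7) (.nd (nat_lit 8) (.nd (nat_lit 9) 
(.lf (nat_lit 488464) (.g (nat_lit 2062) (.e (nat_lit 16434) (nat_lit 9) (.e (nat_lit 426566) (nat_lit 34) (.e (nat_lit 393251) (nat_lit 18) (.e (nat_lit 164323) (nat_lit 230) .nil)))) (.g (nat_lit 0) (.e (nat_lit 138401) (nat_lit 0) .nil) .nil))) 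
(.lf (nat_lit 488976) (.g (nat_lit 2263) (.e (nat_lit 16457) (nat_lit 12) (.e (nat_lit 475185) (nat_lit 29) (.e (nat_lit 557100) (nat_lit 13) (.e (nat_lit 172113) (nat_lit 10) (.e (nat_lit 434248) (nat_lit 28) (.e (nat_lit 573470) (nat_lit 11) .nil)))))) (.g (nat_lit 1) (.e (nat_lit 140041) (nat_lit 0) .nil) .nil)))) (.nd (nat_lit 9) 
(.lf (nat_lit 488720) (.g (nat_lit 3359) (.e (nat_lit 16437) (nat_lit 9) (.e (nat_lit 426566) (nat_lit 34) (.e (nat_lit 393253) (nat_lit 18) (.e (nat_lit 164327) (nat_lit 230) (.e (nat_lit 163866) (nat_lit 2) (.e (nat_lit 196654) (nat_lit 11) .nil)))))) (.g (nat_lit 1) (.e (nat_lit 138828) (nat_lit 0) .nil) .nil))) 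
(.lf (nat_lit 489232) (.g (nat_lit 2231) (.e (nat_lit 16463) (nat_lit 13) (.e (nat_lit 483345) (nat_lit 17) (.e (nat_lit 6718) (nat_lit 361) (.e (nat_lit 172076) (nat_lit 6) (.e (nat_lit 253988) (nat_lit 11) .nil))))) (.g (nat_lit 1) (.e (nat_lit 140430) (nat_lit 0) .nil) .nil))))) (.nd (nat_lit 8) (.nd (nat_lit 9) 
(.lf (nat_lit 488592) (.g (nat_lit 2039) (.e (nat_lit 16435) (nat_lit 9) (.e (nat_lit 426566) (nat_lit 34) (.e (nat_lit 393253) (nat_lit 18) (.e (nat_lit 164331) (nat_lit 230) (.e (nat_lit 163867) (nat_lit 2) (.e (nat_lit 196653) (nat_lit 11) .nil)))))) (.g (nat_lit 1) (.e (nat_lit 138536) (nat_lit 0) .nil) .nil))) 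
(.lf (nat_lit 489104) (.g (nat_lit 3675) (.e (nat_lit 16463) (nat_lit 13) (.e (nat_lit 483337) (nat_lit 9) (.e (nat_lit 426107) (nat_lit 1) (.e (nat_lit 164322) (nat_lit 230) (.e (nat_lit 163867) (nat_lit 2) (.e (nat_lit 196656) (nat_lit 11) .nil)))))) (.g (nat_lit 1) (.e (nat_lit 140292) (nat_lit 0) .nil) .nil)))) (.nd (nat_lit 9) 
(.lf (nat_lit 488848) (.g (nat_lit 2874) (.e (nat_lit 16444) (nat_lit 9) (.e (nat_lit 426503) (nat_lit 27) (.e (nat_lit 336387) (nat_lit 27) (.e (nat_lit 426100) (nat_lit 1) (.e (nat_lit 164332) (nat_lit 230) (.e (nat_lit 163869) (nat_lit 2) (.e (nat_lit 196656) (nat_lit 11) .nil))))))) (.g (nat_lit 1) (.e (nat_lit 139114) (nat_lit 0) .nil) .nil))) 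
(.lf (nat_lit 489360) (.g (nat_lit 2152) (.e (nat_lit 16466) (nat_lit 13) (.e (nat_lit 483337) (nat_lit 9) (.e (nat_lit 426107) (nat_lit 1) (.e (nat_lit 164326) (nat_lit 230) (.e (nat_lit 163867) (nat_lit 2) (.e (nat_lit 196654) (nat_lit 11) .nil)))))) (.g (nat_lit 1) (.e (nat_lit 140657) (nat_lit 0) .nil) .nil)))))) (.nd (nat_lit 7) (.nd (nat_lit 8) (.nd (nat_lit 9) 
(.lf (nat_lit 488528) (.g (nat_lit 2348) (.e (nat_lit 16435) (nat_lit 9) (.e (nat_lit 426478) (nat_lit 27) (.e (nat_lit 336388) (nat_lit 27) (.e (nat_lit 426107) (nat_lit 1) (.e (nat_lit 164326) (nat_lit 230) (.e (nat_lit 163871) (nat_lit 2) (.e (nat_lit 196655) (nat_lit 11) .nil))))))) (.g (nat_lit 1) (.e (nat_lit 138472) (nat_lit 0) .nil) .nil))) 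
(.lf (nat_lit 489040) (.g (nat_lit 3458) (.e (nat_lit 16461) (nat_lit 12) (.e (nat_lit 475177) (nat_lit 24) (.e (nat_lit 516115) (nat_lit 1) (.e (nat_lit 164325) (nat_lit 230) (.e (nat_lit 163936) (nat_lit 18) .nil))))) (.g (nat_lit 0) (.e (nat_lit 140147) (nat_lit 0) .nil) .nil)))) (.nd (nat_lit 9) 
(.lf (nat_lit 488784) (.g (nat_lit 3159) (.e (nat_lit 16438) (nat_lit 9) (.e (nat_lit 426482) (nat_lit 27) (.e (nat_lit 336389) (nat_lit 27) (.e (nat_lit 426108) (nat_lit 1) (.e (nat_lit 164330) (nat_lit 230) (.e (nat_lit 163869) (nat_lit 2) (.e (nat_lit 196656) (nat_lit 11) .nil))))))) (.g (nat_lit 1) (.e (nat_lit 138908) (nat_lit 0) .nil) .nil))) 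
(.lf (nat_lit 489296) (.g (nat_lit 3028) (.e (nat_lit 16465) (nat_lit 13) (.e (nat_lit 483341) (nat_lit 9) (.e (nat_lit 426107) (nat_lit 1) (.e (nat_lit 164324) (nat_lit 230) (.e (nat_lit 163867) (nat_lit 2) (.e (nat_lit 196655) (nat_lit 11) .nil)))))) (.g (nat_lit 1) (.e (nat_lit 140571) (nat_lit 0) .nil) .nil))))) (.nd (nat_lit 8) (.nd (nat_lit 9) 
(.lf (nat_lit 488656) (.g (nat_lit 3423) (.e (nat_lit 16436) (nat_lit 9) (.e (nat_lit 426482) (nat_lit 27) (.e (nat_lit 336389) (nat_lit 27) (.e (nat_lit 426098) (nat_lit 1) (.e (nat_lit 164327) (nat_lit 230) (.e (nat_lit 163868) (nat_lit 2) (.e (nat_lit 196656) (nat_lit 11) .nil))))))) (.g (nat_lit 1) (.e (nat_lit 138706) (nat_lit 0) .nil) .nil))) 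
(.lf (nat_lit 489168) (.g (nat_lit 3441) (.e (nat_lit 16463) (nat_lit 13) (.e (nat_lit 483341) (nat_lit 9) (.e (nat_lit 426106) (nat_lit 1) (.e (nat_lit 164324) (nat_lit 230) (.e (nat_lit 163866) (nat_lit 2) (.e (nat_lit 196654) (nat_lit 11) .nil)))))) (.g (nat_lit 1) (.e (nat_lit 140361) (nat_lit 0) .nil) .nil)))) (.nd (nat_lit 9) 
(.lf (nat_lit 488912) (.g (nat_lit 678) (.e (nat_lit 16451) (nat_lit 11) (.e (nat_lit 458789) (nat_lit 23) (.e (nat_lit 532482) (nat_lit 0) (.e (nat_lit 6724) (nat_lit 362) .nil)))) (.g (nat_lit 0) (.e (nat_lit 139657) (nat_lit 0) .nil) .nil))) 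
(.lf (nat_lit 489424) (.g (nat_lit 3513) (.e (nat_lit 16466) (nat_lit 13) (.e (nat_lit 483341) (nat_lit 9) (.e (nat_lit 426107) (nat_lit 1) (.e (nat_lit 164324) (nat_lit 230) (.e (nat_lit 163869) (nat_lit 2) (.e (nat_lit 196654) (nat_lit 11) .nil)))))) (.g (nat_lit 1) (.e (nat_lit 140721) (nat_lit 0) .nil) .nil))))))) (.nd (nat_lit 6) (.nd (nat_lit 7) (.nd (nat_lit 8) (.nd (nat_lit 9) 
(.lf (nat_lit 488496) (.g (nat_lit 2765) (.e (nat_lit 16434) (nat_lit 9) (.e (nat_lit 426566) (nat_lit 34) (.e (nat_lit 393253) (nat_lit 18) (.e (nat_lit 164324) (nat_lit 230) (.e (nat_lit 163871) (nat_lit 2) .nil))))) (.g (nat_lit 0) (.e (nat_lit 138433) (nat_lit 0) .nil) .nil))) 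
(.lf (nat_lit 489008) (.g (nat_lit 2428) (.e (nat_lit 16459) (nat_lit 12) (.e (nat_lit 475177) (nat_lit 24) (.e (nat_lit 516120) (nat_lit 1) (.e (nat_lit 164330) (nat_lit 230) (.e (nat_lit 163938) (nat_lit 18) (.e (nat_lit 483072) (nat_lit 10) .nil)))))) (.g (nat_lit 1) (.e (nat_lit 140091) (nat_lit 0) .nil) .nil)))) (.nd (nat_lit 9) 
(.lf (nat_lit 488752) (.g (nat_lit 3394) (.e (nat_lit 16438) (nat_lit 9) (.e (nat_lit 426482) (nat_lit 27) (.e (nat_lit 336385) (nat_lit 27) (.e (nat_lit 426100) (nat_lit 1) (.e (nat_lit 164332) (nat_lit 230) (.e (nat_lit 163869) (nat_lit 2) (.e (nat_lit 196656) (nat_lit 11) .nil))))))) (.g (nat_lit 1) (.e (nat_lit 138868) (nat_lit 0) .nil) .nil))) 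
(.lf (nat_lit 489264) (.g (nat_lit 1687) (.e (nat_lit 16465) (nat_lit 13) (.e (nat_lit 483341) (nat_lit 9) (.e (nat_lit 426098) (nat_lit 1) (.e (nat_lit 164323) (nat_lit 230) .nil)))) (.g (nat_lit 0) (.e (nat_lit 140523) (nat_lit 0) .nil) .nil))))) (.nd (nat_lit 8) (.nd (nat_lit 9) 
(.lf (nat_lit 488624) (.g (nat_lit 723) (.e (nat_lit 16436) (nat_lit 9) (.e (nat_lit 426131) (nat_lit 3) (.e (nat_lit 204859) (nat_lit 26) .nil))) (.g (nat_lit 0) (.e (nat_lit 138629) (nat_lit 0) .nil) .nil))) 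
(.lf (nat_lit 489136) (.g (nat_lit 3443) (.e (nat_lit 16463) (nat_lit 13) (.e (nat_lit 483341) (nat_lit 9) (.e (nat_lit 426098) (nat_lit 1) (.e (nat_lit 164325) (nat_lit 230) (.e (nat_lit 163868) (nat_lit 2) (.e (nat_lit 196654) (nat_lit 11) .nil)))))) (.g (nat_lit 1) (.e (nat_lit 140328) (nat_lit 0) .nil) .nil)))) (.nd (nat_lit 9) 
(.lf (nat_lit 488880) (.g (nat_lit 399) (.e (nat_lit 16447) (nat_lit 10) (.e (nat_lit 434286) (nat_lit 42) (.e (nat_lit 688138) (nat_lit 5) .nil))) (.g (nat_lit 0) (.e (nat_lit 139384) (nat_lit 0) .nil) .nil))) 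
(.lf (nat_lit 489392) (.g (nat_lit 3267) (.e (nat_lit 16466) (nat_lit 13) (.e (nat_lit 483341) (nat_lit 9) (.e (nat_lit 426100) (nat_lit 1) (.e (nat_lit 164330) (nat_lit 230) (.e (nat_lit 163867) (nat_lit 2) (.e (nat_lit 196654) (nat_lit 11) .nil)))))) (.g (nat_lit 1) (.e (nat_lit 140689) (nat_lit 0) .nil) .nil)))))) (.nd (nat_lit 7) (.nd (nat_lit 8) (.nd (nat_lit 9) 
(.lf (nat_lit 488560) (.g (nat_lit 3159) (.e (nat_lit 16435) (nat_lit 9) (.e (nat_lit 426566) (nat_lit 34) (.e (nat_lit 393252) (nat_lit 18) (.e (nat_lit 164330) (nat_lit 230) (.e (nat_lit 163866) (nat_lit 2) (.e (nat_lit 196654) (nat_lit 11) .nil)))))) (.g (nat_lit 1) (.e (nat_lit 138504) (nat_lit 0) .nil) .nil))) 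
(.lf (nat_lit 489072) (.g (nat_lit 3551) (.e (nat_lit 16461) (nat_lit 12) (.e (nat_lit 475185) (nat_lit 29) (.e (nat_lit 557100) (nat_lit 13) (.e (nat_lit 172113) (nat_lit 10) (.e (nat_lit 434245) (nat_lit 28) (.e (nat_lit 573470) (nat_lit 11) .nil)))))) (.g (nat_lit 1) (.e (nat_lit 140186) (nat_lit 0) .nil) .nil)))) (.nd (nat_lit 9) 
(.lf (nat_lit 488816) (.g (nat_lit 2774) (.e (nat_lit 16438) (nat_lit 9) (.e (nat_lit 426482) (nat_lit 27) (.e (nat_lit 336412) (nat_lit 27) (.e (nat_lit 426098) (nat_lit 1) (.e (nat_lit 164327) (nat_lit 230) (.e (nat_lit 163871) (nat_lit 2) (.e (nat_lit 196654) (nat_lit 11) .nil))))))) (.g (nat_lit 1) (.e (nat_lit 138946) (nat_lit 0) .nil) .nil))) 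
(.lf (nat_lit 489328) (.g (nat_lit 2156) (.e (nat_lit 16465) (nat_lit 13) (.e (nat_lit 483341) (nat_lit 9) (.e (nat_lit 426108) (nat_lit 1) (.e (nat_lit 164332) (nat_lit 230) (.e (nat_lit 163866) (nat_lit 2) (.e (nat_lit 196653) (nat_lit 11) .nil)))))) (.g (nat_lit 1) (.e (nat_lit 140614) (nat_lit 0) .nil) .nil))))) (.nd (nat_lit 8) (.nd (nat_lit 9) 
(.lf (nat_lit 488688) (.g (nat_lit 1888) (.e (nat_lit 16437) (nat_lit 9) (.e (nat_lit 426478) (nat_lit 27) (.e (nat_lit 336389) (nat_lit 27) (.e (nat_lit 426098) (nat_lit 1) (.e (nat_lit 164327) (nat_lit 230) .nil))))) (.g (nat_lit 0) (.e (nat_lit 138792) (nat_lit 0) .nil) .nil))) 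
(.lf (nat_lit 489200) (.g (nat_lit 3632) (.e (nat_lit 16463) (nat_lit 13) (.e (nat_lit 483341) (nat_lit 9) (.e (nat_lit 426107) (nat_lit 1) (.e (nat_lit 164325) (nat_lit 230) (.e (nat_lit 163866) (nat_lit 2) (.e (nat_lit 196654) (nat_lit 11) .nil)))))) (.g (nat_lit 1) (.e (nat_lit 140395) (nat_lit 0) .nil) .nil)))) (.nd (nat_lit 9) 
(.lf (nat_lit 488944) (.g (nat_lit 3719) (.e (nat_lit 16456) (nat_lit 12) (.e (nat_lit 475179) (nat_lit 24) (.e (nat_lit 516117) (nat_lit 1) (.e (nat_lit 164330) (nat_lit 230) (.e (nat_lit 163936) (nat_lit 18) .nil))))) (.g (nat_lit 0) (.e (nat_lit 140003) (nat_lit 0) .nil) .nil))) 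
(.lf (nat_lit 489456) (.g (nat_lit 2026) (.e (nat_lit 16466) (nat_lit 13) (.e (nat_lit 483393) (nat_lit 23) (.e (nat_lit 335988) (nat_lit 1) (.e (nat_lit 57854) (nat_lit 252) (.e (nat_lit 57354) (nat_lit 0) .nil))))) (.g (nat_lit 0) (.e (nat_lit 140754) (nat_lit 0) .nil) .nil))))))))) (.nd (nat_lit 4) (.nd (nat_lit 5) (.nd (nat_lit 6) (.nd (nat_lit 7) (.nd (nat_lit 8) (.nd (nat_lit 9) 
(.lf (nat_lit 488456) (.g (nat_lit 2765) (.e (nat_lit 16433) (nat_lit 9) (.e (nat_lit 426568) (nat_lit 34) (.e (nat_lit 393253) (nat_lit 18) (.e (nat_lit 164329) (nat_lit 230) (.e (nat_lit 163867) (nat_lit 2) (.e (nat_lit 196654) (nat_lit 11) .nil)))))) (.g (nat_lit 1) (.e (nat_lit 138392) (nat_lit 0) .nil) .nil))) 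
(.lf (nat_lit 488968) (.g (nat_lit 3960) (.e (nat_lit 16457) (nat_lit 12) (.e (nat_lit 475179) (nat_lit 24) (.e (nat_lit 516117) (nat_lit 1) (.e (nat_lit 164330) (nat_lit 230) (.e (nat_lit 163938) (nat_lit 18) .nil))))) (.g (nat_lit 0) (.e (nat_lit 140033) (nat_lit 0) .nil) .nil)))) (.nd (nat_lit 9) 
(.lf (nat_lit 488712) (.g (nat_lit 3903) (.e (nat_lit 16437) (nat_lit 9) (.e (nat_lit 426566) (nat_lit 34) (.e (nat_lit 393253) (nat_lit 18) (.e (nat_lit 164324) (nat_lit 230) (.e (nat_lit 163871) (nat_lit 2) .nil))))) (.g (nat_lit 0) (.e (nat_lit 138820) (nat_lit 0) .nil) .nil))) 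
(.lf (nat_lit 489224) (.g (nat_lit 4236) (.e (nat_lit 16463) (nat_lit 13) (.e (nat_lit 483341) (nat_lit 9) (.e (nat_lit 426108) (nat_lit 1) (.e (nat_lit 164330) (nat_lit 230) (.e (nat_lit 163869) (nat_lit 2) (.e (nat_lit 196654) (nat_lit 11) .nil)))))) (.g (nat_lit 1) (.e (nat_lit 140422) (nat_lit 0) .nil) .nil))))) (.nd (nat_lit 8) (.nd (nat_lit 9) 
(.lf (nat_lit 488584) (.g (nat_lit 2142) (.e (nat_lit 16435) (nat_lit 9) (.e (nat_lit 426566) (nat_lit 34) (.e (nat_lit 393253) (nat_lit 18) (.e (nat_lit 164329) (nat_lit 230) (.e (nat_lit 163867) (nat_lit 2) (.e (nat_lit 196654) (nat_lit 11) .nil)))))) (.g (nat_lit 1) (.e (nat_lit 138528) (nat_lit 0) .nil) .nil))) 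
(.lf (nat_lit 489096) (.g (nat_lit 3088) (.e (nat_lit 16463) (nat_lit 13) (.e (nat_lit 483336) (nat_lit 9) (.e (nat_lit 426108) (nat_lit 1) (.e (nat_lit 164332) (nat_lit 230) (.e (nat_lit 163867) (nat_lit 2) (.e (nat_lit 196656) (nat_lit 11) .nil)))))) (.g (nat_lit 1) (.e (nat_lit 140283) (nat_lit 0) .nil) .nil)))) (.nd (nat_lit 9) 
(.lf (nat_lit 488840) (.g (nat_lit 2399) (.e (nat_lit 16442) (nat_lit 9) (.e (nat_lit 426499) (nat_lit 27) (.e (nat_lit 335894) (nat_lit 0) (.e (nat_lit 6724) (nat_lit 362) (.e (nat_lit 180271) (nat_lit 26) .nil))))) (.g (nat_lit 0) (.e (nat_lit 139038) (nat_lit 0) .nil) .nil))) 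
(.lf (nat_lit 489352) (.g (nat_lit 2591) (.e (nat_lit 16466) (nat_lit 13) (.e (nat_lit 483337) (nat_lit 9) (.e (nat_lit 426107) (nat_lit 1) (.e (nat_lit 164322) (nat_lit 230) (.e (nat_lit 163868) (nat_lit 2) (.e (nat_lit 196654) (nat_lit 11) .nil)))))) (.g (nat_lit 1) (.e (nat_lit 140649) (nat_lit 0) .nil) .nil)))))) (.nd (nat_lit 7) (.nd (nat_lit 8) (.nd (nat_lit 9) 
(.lf (nat_lit 488520) (.g (nat_lit 4203) (.e (nat_lit 16434) (nat_lit 9) (.e (nat_lit 426566) (nat_lit 34) (.e (nat_lit 393253) (nat_lit 18) (.e (nat_lit 164332) (nat_lit 230) (.e (nat_lit 163869) (nat_lit 2) (.e (nat_lit 196656) (nat_lit 11) .nil)))))) (.g (nat_lit 1) (.e (nat_lit 138457) (nat_lit 0) .nil) .nil))) 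
(.lf (nat_lit 489032) (.g (nat_lit 3745) (.e (nat_lit 16460) (nat_lit 12) (.e (nat_lit 475179) (nat_lit 24) (.e (nat_lit 516115) (nat_lit 1) (.e (nat_lit 164325) (nat_lit 230) (.e (nat_lit 163938) (nat_lit 18) .nil))))) (.g (nat_lit 0) (.e (nat_lit 140128) (nat_lit 0) .nil) .nil)))) (.nd (nat_lit 9) 
(.lf (nat_lit 488776) (.g (nat_lit 4710) (.e (nat_lit 16438) (nat_lit 9) (.e (nat_lit 426482) (nat_lit 27) (.e (nat_lit 336389) (nat_lit 27) (.e (nat_lit 426098) (nat_lit 1) (.e (nat_lit 164327) (nat_lit 230) (.e (nat_lit 163868) (nat_lit 2) (.e (nat_lit 196656) (nat_lit 11) .nil))))))) (.g (nat_lit 1) (.e (nat_lit 138899) (nat_lit 0) .nil) .nil))) 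
(.lf (nat_lit 489288) (.g (nat_lit 2710) (.e (nat_lit 16465) (nat_lit 13) (.e (nat_lit 483341) (nat_lit 9) (.e (nat_lit 426100) (nat_lit 1) (.e (nat_lit 164332) (nat_lit 230) (.e (nat_lit 163867) (nat_lit 2) (.e (nat_lit 196653) (nat_lit 11) .nil)))))) (.g (nat_lit 1) (.e (nat_lit 140562) (nat_lit 0) .nil) .nil))))) (.nd (nat_lit 8) (.nd (nat_lit 9) 
(.lf (nat_lit 488648) (.g (nat_lit 2621) (.e (nat_lit 16436) (nat_lit 9) (.e (nat_lit 426479) (nat_lit 27) (.e (nat_lit 336395) (nat_lit 27) (.e (nat_lit 426109) (nat_lit 1) (.e (nat_lit 164327) (nat_lit 230) (.e (nat_lit 163868) (nat_lit 2) (.e (nat_lit 196654) (nat_lit 11) .nil))))))) (.g (nat_lit 1) (.e (nat_lit 138695) (nat_lit 0) .nil) .nil))) 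
(.lf (nat_lit 489160) (.g (nat_lit 2137) (.e (nat_lit 16463) (nat_lit 13) (.e (nat_lit 483341) (nat_lit 9) (.e (nat_lit 426105) (nat_lit 1) (.e (nat_lit 164330) (nat_lit 230) (.e (nat_lit 163867) (nat_lit 2) (.e (nat_lit 196654) (nat_lit 11) .nil)))))) (.g (nat_lit 1) (.e (nat_lit 140352) (nat_lit 0) .nil) .nil)))) (.nd (nat_lit 9) 
(.lf (nat_lit 488904) (.g (nat_lit 1041) (.e (nat_lit 16448) (nat_lit 10) (.e (nat_lit 434289) (nat_lit 43) (.e (nat_lit 696343) (nat_lit 8) (.e (nat_lit 172094) (nat_lit 9) .nil)))) (.g (nat_lit 0) (.e (nat_lit 139559) (nat_lit 0) .nil) .nil))) 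
(.lf (nat_lit 489416) (.g (nat_lit 2259) (.e (nat_lit 16466) (nat_lit 13) (.e (nat_lit 483341) (nat_lit 9) (.e (nat_lit 426106) (nat_lit 1) (.e (nat_lit 164330) (nat_lit 230) (.e (nat_lit 163866) (nat_lit 2) (.e (nat_lit 196654) (nat_lit 11) .nil)))))) (.g (nat_lit 1) (.e (nat_lit 140713) (nat_lit 0) .nil) .nil))))))) (.nd (nat_lit 6) (.nd (nat_lit 7) (.nd (nat_lit 8) (.nd (nat_lit 9) 
(.lf (nat_lit 488488) (.g (nat_lit 2041) (.e (nat_lit 16434) (nat_lit 9) (.e (nat_lit 426566) (nat_lit 34) (.e (nat_lit 393253) (nat_lit 18) (.e (nat_lit 164305) (nat_lit 226) .nil)))) (.g (nat_lit 0) (.e (nat_lit 138425) (nat_lit 0) .nil) .nil))) 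
(.lf (nat_lit 489000) (.g (nat_lit 3149) (.e (nat_lit 16458) (nat_lit 12) (.e (nat_lit 475185) (nat_lit 29) (.e (nat_lit 557100) (nat_lit 13) (.e (nat_lit 172113) (nat_lit 10) (.e (nat_lit 434248) (nat_lit 28) (.e (nat_lit 573469) (nat_lit 11) .nil)))))) (.g (nat_lit 1) (.e (nat_lit 140076) (nat_lit 0) .nil) .nil)))) (.nd (nat_lit 9) 
(.lf (nat_lit 488744) (.g (nat_lit 3199) (.e (nat_lit 16438) (nat_lit 9) (.e (nat_lit 426482) (nat_lit 27) (.e (nat_lit 336385) (nat_lit 27) (.e (nat_lit 426098) (nat_lit 1) (.e (nat_lit 164325) (nat_lit 230) (.e (nat_lit 163868) (nat_lit 2) (.e (nat_lit 196656) (nat_lit 11) .nil))))))) (.g (nat_lit 1) (.e (nat_lit 138859) (nat_lit 0) .nil) .nil))) 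
(.lf (nat_lit 489256) (.g (nat_lit 2999) (.e (nat_lit 16464) (nat_lit 13) (.e (nat_lit 483410) (nat_lit 27) (.e (nat_lit 401444) (nat_lit 9) (.e (nat_lit 426163) (nat_lit 6) (.e (nat_lit 253992) (nat_lit 11) .nil))))) (.g (nat_lit 1) (.e (nat_lit 140513) (nat_lit 0) .nil) .nil))))) (.nd (nat_lit 8) (.nd (nat_lit 9) 
(.lf (nat_lit 488616) (.g (nat_lit 3320) (.e (nat_lit 16436) (nat_lit 9) (.e (nat_lit 426131) (nat_lit 3) (.e (nat_lit 204854) (nat_lit 26) (.e (nat_lit 336334) (nat_lit 20) (.e (nat_lit 221210) (nat_lit 22) (.e (nat_lit 196654) (nat_lit 11) .nil)))))) (.g (nat_lit 1) (.e (nat_lit 138604) (nat_lit 0) .nil) .nil))) 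
(.lf (nat_lit 489128) (.g (nat_lit 3242) (.e (nat_lit 16463) (nat_lit 13) (.e (nat_lit 483339) (nat_lit 9) (.e (nat_lit 426110) (nat_lit 1) (.e (nat_lit 164327) (nat_lit 230) (.e (nat_lit 163871) (nat_lit 2) (.e (nat_lit 196654) (nat_lit 11) .nil)))))) (.g (nat_lit 1) (.e (nat_lit 140320) (nat_lit 0) .nil) .nil)))) (.nd (nat_lit 9) 
(.lf (nat_lit 488872) (.g (nat_lit 2214) (.e (nat_lit 24320) (nat_lit 9) (.e (nat_lit 426566) (nat_lit 34) (.e (nat_lit 393253) (nat_lit 18) (.e (nat_lit 164324) (nat_lit 230) .nil)))) (.g (nat_lit 0) (.e (nat_lit 139258) (nat_lit 0) .nil) .nil))) 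
(.lf (nat_lit 489384) (.g (nat_lit 3217) (.e (nat_lit 16466) (nat_lit 13) (.e (nat_lit 483341) (nat_lit 9) (.e (nat_lit 426098) (nat_lit 1) (.e (nat_lit 164325) (nat_lit 230) (.e (nat_lit 163869) (nat_lit 2) (.e (nat_lit 196654) (nat_lit 11) .nil)))))) (.g (nat_lit 1) (.e (nat_lit 140681) (nat_lit 0) .nil) .nil)))))) (.nd (nat_lit 7) (.nd (nat_lit 8) (.nd (nat_lit 9) 
(.lf (nat_lit 488552) (.g (nat_lit 3216) (.e (nat_lit 16435) (nat_lit 9) (.e (nat_lit 426566) (nat_lit 34) (.e (nat_lit 393251) (nat_lit 18) (.e (nat_lit 164331) (nat_lit 230) (.e (nat_lit 163866) (nat_lit 2) (.e (nat_lit 196654) (nat_lit 11) .nil)))))) (.g (nat_lit 1) (.e (nat_lit 138496) (nat_lit 0) .nil) .nil))) 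
(.lf (nat_lit 489064) (.g (nat_lit 2810) (.e (nat_lit 16461) (nat_lit 12) (.e (nat_lit 475184) (nat_lit 29) (.e (nat_lit 557098) (nat_lit 13) (.e (nat_lit 172105) (nat_lit 10) (.e (nat_lit 434248) (nat_lit 28) (.e (nat_lit 573470) (nat_lit 11) .nil)))))) (.g (nat_lit 1) (.e (nat_lit 140175) (nat_lit 0) .nil) .nil)))) (.nd (nat_lit 9) 
(.lf (nat_lit 488808) (.g (nat_lit 2313) (.e (nat_lit 16438) (nat_lit 9) (.e (nat_lit 426482) (nat_lit 27) (.e (nat_lit 336388) (nat_lit 27) (.e (nat_lit 426108) (nat_lit 1) (.e (nat_lit 164332) (nat_lit 230) (.e (nat_lit 163866) (nat_lit 2) (.e (nat_lit 196654) (nat_lit 11) .nil))))))) (.g (nat_lit 1) (.e (nat_lit 138937) (nat_lit 0) .nil) .nil))) 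
(.lf (nat_lit 489320) (.g (nat_lit 2511) (.e (nat_lit 16465) (nat_lit 13) (.e (nat_lit 483341) (nat_lit 9) (.e (nat_lit 426108) (nat_lit 1) (.e (nat_lit 164330) (nat_lit 230) (.e (nat_lit 163867) (nat_lit 2) (.e (nat_lit 196653) (nat_lit 11) .nil)))))) (.g (nat_lit 1) (.e (nat_lit 140603) (nat_lit 0) .nil) .nil))))) (.nd (nat_lit 8) (.nd (nat_lit 9) 
(.lf (nat_lit 488680) (.g (nat_lit 1854) (.e (nat_lit 16436) (nat_lit 9) (.e (nat_lit 426566) (nat_lit 34) (.e (nat_lit 393254) (nat_lit 18) (.e (nat_lit 164322) (nat_lit 230) (.e (nat_lit 163867) (nat_lit 2) (.e (nat_lit 196652) (nat_lit 11) .nil)))))) (.g (nat_lit 1) (.e (nat_lit 138742) (nat_lit 0) .nil) .nil))) 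
(.lf (nat_lit 489192) (.g (nat_lit 2280) (.e (nat_lit 16463) (nat_lit 13) (.e (nat_lit 483341) (nat_lit 9) (.e (nat_lit 426107) (nat_lit 1) (.e (nat_lit 164322) (nat_lit 230) (.e (nat_lit 163867) (nat_lit 2) (.e (nat_lit 196656) (nat_lit 11) .nil)))))) (.g (nat_lit 1) (.e (nat_lit 140387) (nat_lit 0) .nil) .nil)))) (.nd (nat_lit 9) 
(.lf (nat_lit 488936) (.g (nat_lit 2521) (.e (nat_lit 16456) (nat_lit 12) (.e (nat_lit 475177) (nat_lit 24) (.e (nat_lit 516117) (nat_lit 1) (.e (nat_lit 164330) (nat_lit 230) (.e (nat_lit 163938) (nat_lit 18) (.e (nat_lit 483072) (nat_lit 10) .nil)))))) (.g (nat_lit 1) (.e (nat_lit 139991) (nat_lit 0) .nil) .nil))) 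
(.lf (nat_lit 489448) (.g (nat_lit 4249) (.e (nat_lit 16466) (nat_lit 13) (.e (nat_lit 483341) (nat_lit 9) (.e (nat_lit 426108) (nat_lit 1) (.e (nat_lit 164332) (nat_lit 230) (.e (nat_lit 163869) (nat_lit 2) (.e (nat_lit 196654) (nat_lit 11) .nil)))))) (.g (nat_lit 1) (.e (nat_lit 140745) (nat_lit 0) .nil) .nil)))))))) 
(.nd (nat_lit 5) (.nd (nat_lit 6) (.nd (nat_lit 7) (.nd (nat_lit 8) (.nd (nat_lit 9) 
(.lf (nat_lit 488472) (.g (nat_lit 3541) (.e (nat_lit 16434) (nat_lit 9) (.e (nat_lit 426566) (nat_lit 34) (.e (nat_lit 393251) (nat_lit 18) (.e (nat_lit 164327) (nat_lit 230) (.e (nat_lit 163868) (nat_lit 2) (.e (nat_lit 196654) (nat_lit 11) .nil)))))) (.g (nat_lit 1) (.e (nat_lit 138409) (nat_lit 0) .nil) .nil))) 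
(.lf (nat_lit 488984) (.g (nat_lit 3772) (.e (nat_lit 16458) (nat_lit 12) (.e (nat_lit 475177) (nat_lit 24) (.e (nat_lit 516115) (nat_lit 1) (.e (nat_lit 164325) (nat_lit 230) (.e (nat_lit 163938) (nat_lit 18) .nil))))) (.g (nat_lit 0) (.e (nat_lit 140055) (nat_lit 0) .nil) .nil)))) (.nd (nat_lit 9) 
(.lf (nat_lit 488728) (.g (nat_lit 2605) (.e (nat_lit 16437) (nat_lit 9) (.e (nat_lit 426566) (nat_lit 34) (.e (nat_lit 393253) (nat_lit 18) (.e (nat_lit 164332) (nat_lit 230) .nil)))) (.g (nat_lit 0) (.e (nat_lit 138836) (nat_lit 0) .nil) .nil))) 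
(.lf (nat_lit 489240) (.g (nat_lit 3741) (.e (nat_lit 16463) (nat_lit 13) (.e (nat_lit 483412) (nat_lit 27) (.e (nat_lit 401444) (nat_lit 9) (.e (nat_lit 426163) (nat_lit 6) (.e (nat_lit 253992) (nat_lit 11) .nil))))) (.g (nat_lit 1) (.e (nat_lit 140451) (nat_lit 0) .nil) .nil))))) (.nd (nat_lit 8) (.nd (nat_lit 9) 
(.lf (nat_lit 488600) (.g (nat_lit 2526) (.e (nat_lit 16435) (nat_lit 9) (.e (nat_lit 426566) (nat_lit 34) (.e (nat_lit 393254) (nat_lit 18) (.e (nat_lit 164322) (nat_lit 230) .nil)))) (.g (nat_lit 0) (.e (nat_lit 138544) (nat_lit 0) .nil) .nil))) 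
(.lf (nat_lit 489112) (.g (nat_lit 2672) (.e (nat_lit 16463) (nat_lit 13) (.e (nat_lit 483337) (nat_lit 9) (.e (nat_lit 426107) (nat_lit 1) (.e (nat_lit 164324) (nat_lit 230) (.e (nat_lit 163868) (nat_lit 2) (.e (nat_lit 196654) (nat_lit 11) .nil)))))) (.g (nat_lit 1) (.e (nat_lit 140300) (nat_lit 0) .nil) .nil)))) (.nd (nat_lit 9) 
(.lf (nat_lit 488856) (.g (nat_lit 2166) (.e (nat_lit 16446) (nat_lit 9) (.e (nat_lit 426116) (nat_lit 2) (.e (nat_lit 196656) (nat_lit 11) (.e (nat_lit 16392) (nat_lit 0) (.e (nat_lit 3401) (nat_lit 211) .nil))))) (.g (nat_lit 0) (.e (nat_lit 139189) (nat_lit 0) .nil) .nil))) 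
(.lf (nat_lit 489368) (.g (nat_lit 2786) (.e (nat_lit 16466) (nat_lit 13) (.e (nat_lit 483337) (nat_lit 9) (.e (nat_lit 426107) (nat_lit 1) (.e (nat_lit 164331) (nat_lit 230) (.e (nat_lit 163866) (nat_lit 2) (.e (nat_lit 196654) (nat_lit 11) .nil)))))) (.g (nat_lit 1) (.e (nat_lit 140665) (nat_lit 0) .nil) .nil)))))) (.nd (nat_lit 7) (.nd (nat_lit 8) (.nd (nat_lit 9) 
(.lf (nat_lit 488536) (.g (nat_lit 2009) (.e (nat_lit 16435) (nat_lit 9) (.e (nat_lit 426512) (nat_lit 27) (.e (nat_lit 336387) (nat_lit 27) (.e (nat_lit 426107) (nat_lit 1) (.e (nat_lit 164326) (nat_lit 230) (.e (nat_lit 163868) (nat_lit 2) (.e (nat_lit 196655) (nat_lit 11) .nil))))))) (.g (nat_lit 1) (.e (nat_lit 138480) (nat_lit 0) .nil) .nil))) 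
(.lf (nat_lit 489048) (.g (nat_lit 1940) (.e (nat_lit 16461) (nat_lit 12) (.e (nat_lit 475178) (nat_lit 24) (.e (nat_lit 516120) (nat_lit 1) (.e (nat_lit 164329) (nat_lit 230) (.e (nat_lit 163936) (nat_lit 18) (.e (nat_lit 483072) (nat_lit 10) .nil)))))) (.g (nat_lit 1) (.e (nat_lit 140157) (nat_lit 0) .nil) .nil)))) (.nd (nat_lit 9) 
(.lf (nat_lit 488792) (.g (nat_lit 2825) (.e (nat_lit 16438) (nat_lit 9) (.e (nat_lit 426482) (nat_lit 27) (.e (nat_lit 336388) (nat_lit 27) (.e (nat_lit 426100) (nat_lit 1) (.e (nat_lit 164332) (nat_lit 230) (.e (nat_lit 163866) (nat_lit 2) (.e (nat_lit 196654) (nat_lit 11) .nil))))))) (.g (nat_lit 1) (.e (nat_lit 138916) (nat_lit 0) .nil) .nil))) 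
(.lf (nat_lit 489304) (.g (nat_lit 3080) (.e (nat_lit 16465) (nat_lit 13) (.e (nat_lit 483341) (nat_lit 9) (.e (nat_lit 426107) (nat_lit 1) (.e (nat_lit 164325) (nat_lit 230) (.e (nat_lit 163871) (nat_lit 2) (.e (nat_lit 196653) (nat_lit 11) .nil)))))) (.g (nat_lit 1) (.e (nat_lit 140581) (nat_lit 0) .nil) .nil))))) (.nd (nat_lit 8) (.nd (nat_lit 9) 
(.lf (nat_lit 488664) (.g (nat_lit 2012) (.e (nat_lit 16436) (nat_lit 9) (.e (nat_lit 426486) (nat_lit 27) (.e (nat_lit 336414) (nat_lit 27) (.e (nat_lit 426110) (nat_lit 1) (.e (nat_lit 164327) (nat_lit 230) (.e (nat_lit 163871) (nat_lit 2) (.e (nat_lit 196654) (nat_lit 11) .nil))))))) (.g (nat_lit 1) (.e (nat_lit 138716) (nat_lit 0) .nil) .nil))) 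
(.lf (nat_lit 489176) (.g (nat_lit 3334) (.e (nat_lit 16463) (nat_lit 13) (.e (nat_lit 483341) (nat_lit 9) (.e (nat_lit 426106) (nat_lit 1) (.e (nat_lit 164325) (nat_lit 230) (.e (nat_lit 163871) (nat_lit 2) (.e (nat_lit 196656) (nat_lit 11) .nil)))))) (.g (nat_lit 1) (.e (nat_lit 140369) (nat_lit 0) .nil) .nil)))) (.nd (nat_lit 9) 
(.lf (nat_lit 488920) (.g (nat_lit 3050) (.e (nat_lit 16455) (nat_lit 12) (.e (nat_lit 475179) (nat_lit 24) (.e (nat_lit 516115) (nat_lit 1) (.e (nat_lit 164325) (nat_lit 230) (.e (nat_lit 163936) (nat_lit 18) .nil))))) (.g (nat_lit 0) (.e (nat_lit 139967) (nat_lit 0) .nil) .nil))) 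
(.lf (nat_lit 489432) (.g (nat_lit 3869) (.e (nat_lit 16466) (nat_lit 13) (.e (nat_lit 483341) (nat_lit 9) (.e (nat_lit 426107) (nat_lit 1) (.e (nat_lit 164327) (nat_lit 230) (.e (nat_lit 163868) (nat_lit 2) (.e (nat_lit 196654) (nat_lit 11) .nil)))))) (.g (nat_lit 1) (.e (nat_lit 140729) (nat_lit 0) .nil) .nil))))))) (.nd (nat_lit 6) (.nd (nat_lit 7) (.nd (nat_lit 8) (.nd (nat_lit 9) 
(.lf (nat_lit 488504) (.g (nat_lit 3391) (.e (nat_lit 16434) (nat_lit 9) (.e (nat_lit 426566) (nat_lit 34) (.e (nat_lit 393253) (nat_lit 18) (.e (nat_lit 164327) (nat_lit 230) (.e (nat_lit 163866) (nat_lit 2) (.e (nat_lit 196654) (nat_lit 11) .nil)))))) (.g (nat_lit 1) (.e (nat_lit 138441) (nat_lit 0) .nil) .nil))) 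
(.lf (nat_lit 489016) (.g (nat_lit 2762) (.e (nat_lit 16459) (nat_lit 12) (.e (nat_lit 475179) (nat_lit 24) (.e (nat_lit 516119) (nat_lit 1) (.e (nat_lit 164325) (nat_lit 230) (.e (nat_lit 163936) (nat_lit 18) (.e (nat_lit 483072) (nat_lit 10) .nil)))))) (.g (nat_lit 1) (.e (nat_lit 140104) (nat_lit 0) .nil) .nil)))) (.nd (nat_lit 9) 
(.lf (nat_lit 488760) (.g (nat_lit 2943) (.e (nat_lit 16438) (nat_lit 9) (.e (nat_lit 426482) (nat_lit 27) (.e (nat_lit 336385) (nat_lit 27) (.e (nat_lit 426108) (nat_lit 1) (.e (nat_lit 164330) (nat_lit 230) (.e (nat_lit 163866) (nat_lit 2) (.e (nat_lit 196654) (nat_lit 11) .nil))))))) (.g (nat_lit 1) (.e (nat_lit 138879) (nat_lit 0) .nil) .nil))) 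
(.lf (nat_lit 489272) (.g (nat_lit 2335) (.e (nat_lit 16465) (nat_lit 13) (.e (nat_lit 483341) (nat_lit 9) (.e (nat_lit 426098) (nat_lit 1) (.e (nat_lit 164329) (nat_lit 230) .nil)))) (.g (nat_lit 0) (.e (nat_lit 140537) (nat_lit 0) .nil) .nil))))) (.nd (nat_lit 8) (.nd (nat_lit 9) 
(.lf (nat_lit 488632) (.g (nat_lit 3015) (.e (nat_lit 16436) (nat_lit 9) (.e (nat_lit 426131) (nat_lit 3) (.e (nat_lit 204880) (nat_lit 32) (.e (nat_lit 385108) (nat_lit 51) (.e (nat_lit 794666) (nat_lit 22) (.e (nat_lit 196656) (nat_lit 11) .nil)))))) (.g (nat_lit 1) (.e (nat_lit 138643) (nat_lit 0) .nil) .nil))) 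
(.lf (nat_lit 489144) (.g (nat_lit 3307) (.e (nat_lit 16463) (nat_lit 13) (.e (nat_lit 483341) (nat_lit 9) (.e (nat_lit 426098) (nat_lit 1) (.e (nat_lit 164332) (nat_lit 230) (.e (nat_lit 163867) (nat_lit 2) (.e (nat_lit 196654) (nat_lit 11) .nil)))))) (.g (nat_lit 1) (.e (nat_lit 140336) (nat_lit 0) .nil) .nil)))) (.nd (nat_lit 9) 
(.lf (nat_lit 488888) (.g (nat_lit 4504) (.e (nat_lit 16448) (nat_lit 10) (.e (nat_lit 434231) (nat_lit 23) (.e (nat_lit 532529) (nat_lit 9) (.e (nat_lit 336336) (nat_lit 20) (.e (nat_lit 221210) (nat_lit 22) (.e (nat_lit 196656) (nat_lit 11) .nil)))))) (.g (nat_lit 1) (.e (nat_lit 139465) (nat_lit 0) .nil) .nil))) 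
(.lf (nat_lit 489400) (.g (nat_lit 2869) (.e (nat_lit 16466) (nat_lit 13) (.e (nat_lit 483341) (nat_lit 9) (.e (nat_lit 426106) (nat_lit 1) (.e (nat_lit 164322) (nat_lit 230) (.e (nat_lit 163866) (nat_lit 2) (.e (nat_lit 196654) (nat_lit 11) .nil)))))) (.g (nat_lit 1) (.e (nat_lit 140697) (nat_lit 0) .nil) .nil)))))) (.nd (nat_lit 7) (.nd (nat_lit 8) (.nd (nat_lit 9) 
(.lf (nat_lit 488568) (.g (nat_lit 2562) (.e (nat_lit 16435) (nat_lit 9) (.e (nat_lit 426566) (nat_lit 34) (.e (nat_lit 393253) (nat_lit 18) (.e (nat_lit 164324) (nat_lit 230) (.e (nat_lit 163867) (nat_lit 2) (.e (nat_lit 196654) (nat_lit 11) .nil)))))) (.g (nat_lit 1) (.e (nat_lit 138512) (nat_lit 0) .nil) .nil))) 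
(.lf (nat_lit 489080) (.g (nat_lit 1974) (.e (nat_lit 16462) (nat_lit 13) (.e (nat_lit 483372) (nat_lit 21) (.e (nat_lit 319505) (nat_lit 10) (.e (nat_lit 4925) (nat_lit 287) .nil)))) (.g (nat_lit 0) (.e (nat_lit 140242) (nat_lit 0) .nil) .nil)))) (.nd (nat_lit 9) 
(.lf (nat_lit 488824) (.g (nat_lit 1983) (.e (nat_lit 16439) (nat_lit 9) (.e (nat_lit 426497) (nat_lit 27) (.e (nat_lit 335894) (nat_lit 0) (.e (nat_lit 6722) (nat_lit 362) (.e (nat_lit 180271) (nat_lit 26) .nil))))) (.g (nat_lit 0) (.e (nat_lit 138966) (nat_lit 0) .nil) .nil))) 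
(.lf (nat_lit 489336) (.g (nat_lit 3084) (.e (nat_lit 16466) (nat_lit 13) (.e (nat_lit 483336) (nat_lit 9) (.e (nat_lit 426100) (nat_lit 1) (.e (nat_lit 164332) (nat_lit 230) (.e (nat_lit 163869) (nat_lit 2) (.e (nat_lit 196654) (nat_lit 11) .nil)))))) (.g (nat_lit 1) (.e (nat_lit 140633) (nat_lit 0) .nil) .nil))))) (.nd (nat_lit 8) (.nd (nat_lit 9) 
(.lf (nat_lit 488696) (.g (nat_lit 2872) (.e (nat_lit 16437) (nat_lit 9) (.e (nat_lit 426566) (nat_lit 34) (.e (nat_lit 393251) (nat_lit 18) (.e (nat_lit 164325) (nat_lit 230) (.e (nat_lit 163871) (nat_lit 2) (.e (nat_lit 196656) (nat_lit 11) .nil)))))) (.g (nat_lit 1) (.e (nat_lit 138804) (nat_lit 0) .nil) .nil))) 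
(.lf (nat_lit 489208) (.g (nat_lit 2997) (.e (nat_lit 16463) (nat_lit 13) (.e (nat_lit 483341) (nat_lit 9) (.e (nat_lit 426107) (nat_lit 1) (.e (nat_lit 164326) (nat_lit 230) (.e (nat_lit 163869) (nat_lit 2) (.e (nat_lit 196654) (nat_lit 11) .nil)))))) (.g (nat_lit 1) (.e (nat_lit 140404) (nat_lit 0) .nil) .nil)))) (.nd (nat_lit 9) 
(.lf (nat_lit 488952) (.g (nat_lit 3105) (.e (nat_lit 16456) (nat_lit 12) (.e (nat_lit 475179) (nat_lit 24) (.e (nat_lit 516120) (nat_lit 1) (.e (nat_lit 164332) (nat_lit 230) (.e (nat_lit 163938) (nat_lit 18) (.e (nat_lit 483072) (nat_lit 10) .nil)))))) (.g (nat_lit 1) (.e (nat_lit 140012) (nat_lit 0) .nil) .nil))) 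
(.lf (nat_lit 489464) (.g (nat_lit 718) (.e (nat_lit 16466) (nat_lit 13) (.e (nat_lit 483413) (nat_lit 27) (.e (nat_lit 409344) (nat_lit 9) .nil))) (.g (nat_lit 0) (.e (nat_lit 140762) (nat_lit 0) .nil) .nil)))))))))) (.nd (nat_lit 3) (.nd (nat_lit 4) (.nd (nat_lit 5) (.nd (nat_lit 6) (.nd (nat_lit 7) (.nd (nat_lit 8) (.nd (nat_lit 9) 
(.lf (nat_lit 488452) (.g (nat_lit 3411) (.e (nat_lit 16433) (nat_lit 9) (.e (nat_lit 426568) (nat_lit 34) (.e (nat_lit 393253) (nat_lit 18) (.e (nat_lit 164324) (nat_lit 230) (.e (nat_lit 163868) (nat_lit 2) (.e (nat_lit 196656) (nat_lit 11) .nil)))))) (.g (nat_lit 1) (.e (nat_lit 138388) (nat_lit 0) .nil) .nil))) 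
(.lf (nat_lit 488964) (.g (nat_lit 3446) (.e (nat_lit 16457) (nat_lit 12) (.e (nat_lit 475177) (nat_lit 24) (.e (nat_lit 516115) (nat_lit 1) (.e (nat_lit 164325) (nat_lit 230) (.e (nat_lit 163936) (nat_lit 18) .nil))))) (.g (nat_lit 0) (.e (nat_lit 140029) (nat_lit 0) .nil) .nil)))) (.nd (nat_lit 9) 
(.lf (nat_lit 488708) (.g (nat_lit 3889) (.e (nat_lit 16437) (nat_lit 9) (.e (nat_lit 426566) (nat_lit 34) (.e (nat_lit 393253) (nat_lit 18) (.e (nat_lit 164322) (nat_lit 230) .nil)))) (.g (nat_lit 0) (.e (nat_lit 138816) (nat_lit 0) .nil) .nil))) 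
(.lf (nat_lit 489220) (.g (nat_lit 3964) (.e (nat_lit 16463) (nat_lit 13) (.e (nat_lit 483341) (nat_lit 9) (.e (nat_lit 426108) (nat_lit 1) (.e (nat_lit 164329) (nat_lit 230) (.e (nat_lit 163867) (nat_lit 2) (.e (nat_lit 196654) (nat_lit 11) .nil)))))) (.g (nat_lit 1) (.e (nat_lit 140418) (nat_lit 0) .nil) .nil))))) (.nd (nat_lit 8) (.nd (nat_lit 9) 
(.lf (nat_lit 488580) (.g (nat_lit 3147) (.e (nat_lit 16435) (nat_lit 9) (.e (nat_lit 426566) (nat_lit 34) (.e (nat_lit 393253) (nat_lit 18) (.e (nat_lit 164327) (nat_lit 230) (.e (nat_lit 163868) (nat_lit 2) (.e (nat_lit 196652) (nat_lit 11) .nil)))))) (.g (nat_lit 1) (.e (nat_lit 138524) (nat_lit 0) .nil) .nil))) 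
(.lf (nat_lit 489092) (.g (nat_lit 2915) (.e (nat_lit 16463) (nat_lit 13) (.e (nat_lit 483336) (nat_lit 9) (.e (nat_lit 426107) (nat_lit 1) (.e (nat_lit 164325) (nat_lit 230) (.e (nat_lit 163866) (nat_lit 2) (.e (nat_lit 196654) (nat_lit 11) .nil)))))) (.g (nat_lit 1) (.e (nat_lit 140277) (nat_lit 0) .nil) .nil)))) (.nd (nat_lit 9) 
(.lf (nat_lit 488836) (.g (nat_lit 791) (.e (nat_lit 16440) (nat_lit 9) (.e (nat_lit 426140) (nat_lit 3) (.e (nat_lit 204816) (nat_lit 17) .nil))) (.g (nat_lit 0) (.e (nat_lit 139013) (nat_lit 0) .nil) .nil))) 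
(.lf (nat_lit 489348) (.g (nat_lit 2664) (.e (nat_lit 16466) (nat_lit 13) (.e (nat_lit 483337) (nat_lit 9) (.e (nat_lit 426107) (nat_lit 1) (.e (nat_lit 164322) (nat_lit 230) (.e (nat_lit 163866) (nat_lit 2) (.e (nat_lit 196654) (nat_lit 11) .nil)))))) (.g (nat_lit 1) (.e (nat_lit 140645) (nat_lit 0) .nil) .nil)))))) (.nd (nat_lit 7) (.nd (nat_lit 8) (.nd (nat_lit 9) 
(.lf (nat_lit 488516) (.g (nat_lit 2507) (.e (nat_lit 16434) (nat_lit 9) (.e (nat_lit 426566) (nat_lit 34) (.e (nat_lit 393253) (nat_lit 18) (.e (nat_lit 164331) (nat_lit 230) (.e (nat_lit 163867) (nat_lit 2) (.e (nat_lit 196656) (nat_lit 11) .nil)))))) (.g (nat_lit 1) (.e (nat_lit 138453) (nat_lit 0) .nil) .nil))) 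
(.lf (nat_lit 489028) (.g (nat_lit 4297) (.e (nat_lit 16459) (nat_lit 12) (.e (nat_lit 475185) (nat_lit 29) (.e (nat_lit 557100) (nat_lit 13) (.e (nat_lit 172113) (nat_lit 10) (.e (nat_lit 434245) (nat_lit 28) (.e (nat_lit 573471) (nat_lit 11) .nil)))))) (.g (nat_lit 1) (.e (nat_lit 140119) (nat_lit 0) .nil) .nil)))) (.nd (nat_lit 9) 
(.lf (nat_lit 488772) (.g (nat_lit 4735) (.e (nat_lit 16438) (nat_lit 9) (.e (nat_lit 426482) (nat_lit 27) (.e (nat_lit 336389) (nat_lit 27) (.e (nat_lit 426098) (nat_lit 1) (.e (nat_lit 164325) (nat_lit 230) (.e (nat_lit 163868) (nat_lit 2) (.e (nat_lit 196656) (nat_lit 11) .nil))))))) (.g (nat_lit 1) (.e (nat_lit 138895) (nat_lit 0) .nil) .nil))) 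
(.lf (nat_lit 489284) (.g (nat_lit 3646) (.e (nat_lit 16465) (nat_lit 13) (.e (nat_lit 483341) (nat_lit 9) (.e (nat_lit 426100) (nat_lit 1) (.e (nat_lit 164330) (nat_lit 230) (.e (nat_lit 163867) (nat_lit 2) (.e (nat_lit 196655) (nat_lit 11) .nil)))))) (.g (nat_lit 1) (.e (nat_lit 140555) (nat_lit 0) .nil) .nil))))) (.nd (nat_lit 8) (.nd (nat_lit 9) 
(.lf (nat_lit 488644) (.g (nat_lit 3295) (.e (nat_lit 16436) (nat_lit 9) (.e (nat_lit 426131) (nat_lit 3) (.e (nat_lit 204885) (nat_lit 33) (.e (nat_lit 401448) (nat_lit 10) (.e (nat_lit 434247) (nat_lit 28) (.e (nat_lit 573469) (nat_lit 11) .nil)))))) (.g (nat_lit 1) (.e (nat_lit 138683) (nat_lit 0) .nil) .nil))) 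
(.lf (nat_lit 489156) (.g (nat_lit 4067) (.e (nat_lit 16463) (nat_lit 13) (.e (nat_lit 483341) (nat_lit 9) (.e (nat_lit 426100) (nat_lit 1) (.e (nat_lit 164332) (nat_lit 230) (.e (nat_lit 163869) (nat_lit 2) (.e (nat_lit 196654) (nat_lit 11) .nil)))))) (.g (nat_lit 1) (.e (nat_lit 140348) (nat_lit 0) .nil) .nil)))) (.nd (nat_lit 9) 
(.lf (nat_lit 488900) (.g (nat_lit 2924) (.e (nat_lit 16448) (nat_lit 10) (.e (nat_lit 434231) (nat_lit 23) (.e (nat_lit 532563) (nat_lit 15) (.e (nat_lit 385109) (nat_lit 51) (.e (nat_lit 794667) (nat_lit 22) (.e (nat_lit 196656) (nat_lit 11) .nil)))))) (.g (nat_lit 1) (.e (nat_lit 139497) (nat_lit 0) .nil) .nil))) 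
(.lf (nat_lit 489412) (.g (nat_lit 2935) (.e (nat_lit 16466) (nat_lit 13) (.e (nat_lit 483341) (nat_lit 9) (.e (nat_lit 426106) (nat_lit 1) (.e (nat_lit 164327) (nat_lit 230) (.e (nat_lit 163866) (nat_lit 2) (.e (nat_lit 196654) (nat_lit 11) .nil)))))) (.g (nat_lit 1) (.e (nat_lit 140709) (nat_lit 0) .nil) .nil))))))) (.nd (nat_lit 6) (.nd (nat_lit 7) (.nd (nat_lit 8) (.nd (nat_lit 9) 
(.lf (nat_lit 488484) (.g (nat_lit 3079) (.e (nat_lit 16434) (nat_lit 9) (.e (nat_lit 426566) (nat_lit 34) (.e (nat_lit 393252) (nat_lit 18) (.e (nat_lit 164332) (nat_lit 230) (.e (nat_lit 163867) (nat_lit 2) (.e (nat_lit 196656) (nat_lit 11) .nil)))))) (.g (nat_lit 1) (.e (nat_lit 138421) (nat_lit 0) .nil) .nil))) 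
(.lf (nat_lit 488996) (.g (nat_lit 2976) (.e (nat_lit 16458) (nat_lit 12) (.e (nat_lit 475184) (nat_lit 29) (.e (nat_lit 557100) (nat_lit 13) (.e (nat_lit 172113) (nat_lit 10) (.e (nat_lit 434248) (nat_lit 28) (.e (nat_lit 573470) (nat_lit 11) .nil)))))) (.g (nat_lit 1) (.e (nat_lit 140071) (nat_lit 0) .nil) .nil)))) (.nd (nat_lit 9) 
(.lf (nat_lit 488740) (.g (nat_lit 2774) (.e (nat_lit 16438) (nat_lit 9) (.e (nat_lit 426479) (nat_lit 27) (.e (nat_lit 336414) (nat_lit 27) (.e (nat_lit 426110) (nat_lit 1) (.e (nat_lit 164327) (nat_lit 230) (.e (nat_lit 163871) (nat_lit 2) (.e (nat_lit 196654) (nat_lit 11) .nil))))))) (.g (nat_lit 1) (.e (nat_lit 138852) (nat_lit 0) .nil) .nil))) 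
(.lf (nat_lit 489252) (.g (nat_lit 3098) (.e (nat_lit 16464) (nat_lit 13) (.e (nat_lit 483341) (nat_lit 9) (.e (nat_lit 426107) (nat_lit 1) (.e (nat_lit 164322) (nat_lit 230) .nil)))) (.g (nat_lit 0) (.e (nat_lit 140486) (nat_lit 0) .nil) .nil))))) (.nd (nat_lit 8) (.nd (nat_lit 9) 
(.lf (nat_lit 488612) (.g (nat_lit 1369) (.e (nat_lit 16436) (nat_lit 9) (.e (nat_lit 426131) (nat_lit 3) (.e (nat_lit 204854) (nat_lit 26) (.e (nat_lit 336240) (nat_lit 15) .nil)))) (.g (nat_lit 0) (.e (nat_lit 138598) (nat_lit 0) .nil) .nil))) 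
(.lf (nat_lit 489124) (.g (nat_lit 3090) (.e (nat_lit 16463) (nat_lit 13) (.e (nat_lit 483337) (nat_lit 9) (.e (nat_lit 426108) (nat_lit 1) (.e (nat_lit 164330) (nat_lit 230) (.e (nat_lit 163869) (nat_lit 2) (.e (nat_lit 196653) (nat_lit 11) .nil)))))) (.g (nat_lit 1) (.e (nat_lit 140316) (nat_lit 0) .nil) .nil)))) (.nd (nat_lit 9) 
(.lf (nat_lit 488868) (.g (nat_lit 1851) (.e (nat_lit 24320) (nat_lit 9) (.e (nat_lit 426566) (nat_lit 34) (.e (nat_lit 393251) (nat_lit 18) (.e (nat_lit 164332) (nat_lit 230) .nil)))) (.g (nat_lit 0) (.e (nat_lit 139254) (nat_lit 0) .nil) .nil))) 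
(.lf (nat_lit 489380) (.g (nat_lit 2031) (.e (nat_lit 16466) (nat_lit 13) (.e (nat_lit 483340) (nat_lit 9) (.e (nat_lit 426108) (nat_lit 1) (.e (nat_lit 164331) (nat_lit 230) (.e (nat_lit 163867) (nat_lit 2) (.e (nat_lit 196654) (nat_lit 11) .nil)))))) (.g (nat_lit 1) (.e (nat_lit 140677) (nat_lit 0) .nil) .nil)))))) (.nd (nat_lit 7) (.nd (nat_lit 8) (.nd (nat_lit 9) 
(.lf (nat_lit 488548) (.g (nat_lit 3298) (.e (nat_lit 16435) (nat_lit 9) (.e (nat_lit 426566) (nat_lit 34) (.e (nat_lit 393251) (nat_lit 18) (.e (nat_lit 164327) (nat_lit 230) (.e (nat_lit 163868) (nat_lit 2) (.e (nat_lit 196656) (nat_lit 11) .nil)))))) (.g (nat_lit 1) (.e (nat_lit 138492) (nat_lit 0) .nil) .nil))) 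
(.lf (nat_lit 489060) (.g (nat_lit 1984) (.e (nat_lit 16461) (nat_lit 12) (.e (nat_lit 475183) (nat_lit 29) (.e (nat_lit 557098) (nat_lit 13) (.e (nat_lit 172105) (nat_lit 10) .nil)))) (.g (nat_lit 0) (.e (nat_lit 140171) (nat_lit 0) .nil) .nil)))) (.nd (nat_lit 9) 
(.lf (nat_lit 488804) (.g (nat_lit 4216) (.e (nat_lit 16438) (nat_lit 9) (.e (nat_lit 426482) (nat_lit 27) (.e (nat_lit 336388) (nat_lit 27) (.e (nat_lit 426107) (nat_lit 1) (.e (nat_lit 164327) (nat_lit 230) (.e (nat_lit 163871) (nat_lit 2) (.e (nat_lit 196654) (nat_lit 11) .nil))))))) (.g (nat_lit 1) (.e (nat_lit 138931) (nat_lit 0) .nil) .nil))) 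
(.lf (nat_lit 489316) (.g (nat_lit 3459) (.e (nat_lit 16465) (nat_lit 13) (.e (nat_lit 483341) (nat_lit 9) (.e (nat_lit 426108) (nat_lit 1) (.e (nat_lit 164322) (nat_lit 230) (.e (nat_lit 163867) (nat_lit 2) (.e (nat_lit 196655) (nat_lit 11) .nil)))))) (.g (nat_lit 1) (.e (nat_lit 140597) (nat_lit 0) .nil) .nil))))) (.nd (nat_lit 8) (.nd (nat_lit 9) 
(.lf (nat_lit 488676) (.g (nat_lit 3946) (.e (nat_lit 16436) (nat_lit 9) (.e (nat_lit 426566) (nat_lit 34) (.e (nat_lit 393253) (nat_lit 18) (.e (nat_lit 164327) (nat_lit 230) (.e (nat_lit 163868) (nat_lit 2) (.e (nat_lit 196654) (nat_lit 11) .nil)))))) (.g (nat_lit 1) (.e (nat_lit 138738) (nat_lit 0) .nil) .nil))) 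
(.lf (nat_lit 489188) (.g (nat_lit 3329) (.e (nat_lit 16463) (nat_lit 13) (.e (nat_lit 483341) (nat_lit 9) (.e (nat_lit 426106) (nat_lit 1) (.e (nat_lit 164331) (nat_lit 230) (.e (nat_lit 163867) (nat_lit 2) (.e (nat_lit 196654) (nat_lit 11) .nil)))))) (.g (nat_lit 1) (.e (nat_lit 140381) (nat_lit 0) .nil) .nil)))) (.nd (nat_lit 9) 
(.lf (nat_lit 488932) (.g (nat_lit 3540) (.e (nat_lit 16456) (nat_lit 12) (.e (nat_lit 475177) (nat_lit 24) (.e (nat_lit 516115) (nat_lit 1) (.e (nat_lit 164325) (nat_lit 230) (.e (nat_lit 163936) (nat_lit 18) (.e (nat_lit 483072) (nat_lit 10) .nil)))))) (.g (nat_lit 1) (.e (nat_lit 139987) (nat_lit 0) .nil) .nil))) 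
(.lf (nat_lit 489444) (.g (nat_lit 3550) (.e (nat_lit 16466) (nat_lit 13) (.e (nat_lit 483341) (nat_lit 9) (.e (nat_lit 426108) (nat_lit 1) (.e (nat_lit 164331) (nat_lit 230) (.e (nat_lit 163866) (nat_lit 2) (.e (nat_lit 196654) (nat_lit 11) .nil)))))) (.g (nat_lit 1) (.e (nat_lit 140741) (nat_lit 0) .nil) .nil)))))))) 
(.nd (nat_lit 5) (.nd (nat_lit 6) (.nd (nat_lit 7) (.nd (nat_lit 8) (.nd (nat_lit 9) 
(.lf (nat_lit 488468) (.g (nat_lit 3469) (.e (nat_lit 16434) (nat_lit 9) (.e (nat_lit 426566) (nat_lit 34) (.e (nat_lit 393251) (nat_lit 18) (.e (nat_lit 164325) (nat_lit 230) (.e (nat_lit 163868) (nat_lit 2) (.e (nat_lit 196656) (nat_lit 11) .nil)))))) (.g (nat_lit 1) (.e (nat_lit 138405) (nat_lit 0) .nil) .nil))) 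
(.lf (nat_lit 488980) (.g (nat_lit 1270) (.e (nat_lit 16458) (nat_lit 12) (.e (nat_lit 475181) (nat_lit 27) (.e (nat_lit 540703) (nat_lit 11) (.e (nat_lit 352262) (nat_lit 0) (.e (nat_lit 7936) (nat_lit 404) .nil))))) (.g (nat_lit 1) (.e (nat_lit 140050) (nat_lit 0) .nil) .nil)))) (.nd (nat_lit 9) 
(.lf (nat_lit 488724) (.g (nat_lit 3304) (.e (nat_lit 16437) (nat_lit 9) (.e (nat_lit 426566) (nat_lit 34) (.e (nat_lit 393253) (nat_lit 18) (.e (nat_lit 164330) (nat_lit 230) (.e (nat_lit 163867) (nat_lit 2) .nil))))) (.g (nat_lit 0) (.e (nat_lit 138832) (nat_lit 0) .nil) .nil))) 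
(.lf (nat_lit 489236) (.g (nat_lit 3562) (.e (nat_lit 16463) (nat_lit 13) (.e (nat_lit 483411) (nat_lit 27) (.e (nat_lit 401444) (nat_lit 9) (.e (nat_lit 426163) (nat_lit 6) (.e (nat_lit 253992) (nat_lit 11) .nil))))) (.g (nat_lit 1) (.e (nat_lit 140442) (nat_lit 0) .nil) .nil))))) (.nd (nat_lit 8) (.nd (nat_lit 9) 
(.lf (nat_lit 488596) (.g (nat_lit 3430) (.e (nat_lit 16435) (nat_lit 9) (.e (nat_lit 426566) (nat_lit 34) (.e (nat_lit 393253) (nat_lit 18) (.e (nat_lit 164332) (nat_lit 230) (.e (nat_lit 163867) (nat_lit 2) (.e (nat_lit 196652) (nat_lit 11) .nil)))))) (.g (nat_lit 1) (.e (nat_lit 138540) (nat_lit 0) .nil) .nil))) 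
(.lf (nat_lit 489108) (.g (nat_lit 3502) (.e (nat_lit 16463) (nat_lit 13) (.e (nat_lit 483337) (nat_lit 9) (.e (nat_lit 426107) (nat_lit 1) (.e (nat_lit 164322) (nat_lit 230) (.e (nat_lit 163871) (nat_lit 2) (.e (nat_lit 196656) (nat_lit 11) .nil)))))) (.g (nat_lit 1) (.e (nat_lit 140296) (nat_lit 0) .nil) .nil)))) (.nd (nat_lit 9) 
(.lf (nat_lit 488852) (.g (nat_lit 2805) (.e (nat_lit 16446) (nat_lit 9) (.e (nat_lit 426115) (nat_lit 2) (.e (nat_lit 196656) (nat_lit 11) (.e (nat_lit 16392) (nat_lit 0) (.e (nat_lit 3397) (nat_lit 211) (.e (nat_lit 647181) (nat_lit 3) (.e (nat_lit 171776) (nat_lit 189) .nil))))))) (.g (nat_lit 1) (.e (nat_lit 139185) (nat_lit 0) .nil) .nil))) 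
(.lf (nat_lit 489364) (.g (nat_lit 4305) (.e (nat_lit 16466) (nat_lit 13) (.e (nat_lit 483337) (nat_lit 9) (.e (nat_lit 426107) (nat_lit 1) (.e (nat_lit 164327) (nat_lit 230) (.e (nat_lit 163868) (nat_lit 2) (.e (nat_lit 196654) (nat_lit 11) .nil)))))) (.g (nat_lit 1) (.e (nat_lit 140661) (nat_lit 0) .nil) .nil)))))) (.nd (nat_lit 7) (.nd (nat_lit 8) (.nd (nat_lit 9) 
(.lf (nat_lit 488532) (.g (nat_lit 1669) (.e (nat_lit 16435) (nat_lit 9) (.e (nat_lit 426482) (nat_lit 27) (.e (nat_lit 336060) (nat_lit 7) (.e (nat_lit 319505) (nat_lit 10) (.e (nat_lit 4916) (nat_lit 287) .nil))))) (.g (nat_lit 0) (.e (nat_lit 138476) (nat_lit 0) .nil) .nil))) 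
(.lf (nat_lit 489044) (.g (nat_lit 2196) (.e (nat_lit 16461) (nat_lit 12) (.e (nat_lit 475177) (nat_lit 24) (.e (nat_lit 516117) (nat_lit 1) (.e (nat_lit 164330) (nat_lit 230) (.e (nat_lit 163938) (nat_lit 18) .nil))))) (.g (nat_lit 0) (.e (nat_lit 140151) (nat_lit 0) .nil) .nil)))) (.nd (nat_lit 9) 
(.lf (nat_lit 488788) (.g (nat_lit 3001) (.e (nat_lit 16438) (nat_lit 9) (.e (nat_lit 426482) (nat_lit 27) (.e (nat_lit 336388) (nat_lit 27) (.e (nat_lit 426098) (nat_lit 1) (.e (nat_lit 164325) (nat_lit 230) (.e (nat_lit 163869) (nat_lit 2) (.e (nat_lit 196654) (nat_lit 11) .nil))))))) (.g (nat_lit 1) (.e (nat_lit 138912) (nat_lit 0) .nil) .nil))) 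
(.lf (nat_lit 489300) (.g (nat_lit 3192) (.e (nat_lit 16465) (nat_lit 13) (.e (nat_lit 483341) (nat_lit 9) (.e (nat_lit 426107) (nat_lit 1) (.e (nat_lit 164325) (nat_lit 230) (.e (nat_lit 163867) (nat_lit 2) (.e (nat_lit 196655) (nat_lit 11) .nil)))))) (.g (nat_lit 1) (.e (nat_lit 140576) (nat_lit 0) .nil) .nil))))) (.nd (nat_lit 8) (.nd (nat_lit 9) 
(.lf (nat_lit 488660) (.g (nat_lit 3295) (.e (nat_lit 16436) (nat_lit 9) (.e (nat_lit 426486) (nat_lit 27) (.e (nat_lit 336369) (nat_lit 27) (.e (nat_lit 426109) (nat_lit 1) (.e (nat_lit 164327) (nat_lit 230) (.e (nat_lit 163871) (nat_lit 2) (.e (nat_lit 196654) (nat_lit 11) .nil))))))) (.g (nat_lit 1) (.e (nat_lit 138712) (nat_lit 0) .nil) .nil))) 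
(.lf (nat_lit 489172) (.g (nat_lit 3159) (.e (nat_lit 16463) (nat_lit 13) (.e (nat_lit 483341) (nat_lit 9) (.e (nat_lit 426106) (nat_lit 1) (.e (nat_lit 164325) (nat_lit 230) (.e (nat_lit 163866) (nat_lit 2) (.e (nat_lit 196654) (nat_lit 11) .nil)))))) (.g (nat_lit 1) (.e (nat_lit 140365) (nat_lit 0) .nil) .nil)))) (.nd (nat_lit 9) 
(.lf (nat_lit 488916) (.g (nat_lit 2381) (.e (nat_lit 16453) (nat_lit 11) (.e (nat_lit 458789) (nat_lit 23) (.e (nat_lit 532569) (nat_lit 16) (.e (nat_lit 401448) (nat_lit 10) (.e (nat_lit 434246) (nat_lit 28) .nil))))) (.g (nat_lit 0) (.e (nat_lit 139917) (nat_lit 0) .nil) .nil))) 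
(.lf (nat_lit 489428) (.g (nat_lit 3509) (.e (nat_lit 16466) (nat_lit 13) (.e (nat_lit 483341) (nat_lit 9) (.e (nat_lit 426107) (nat_lit 1) (.e (nat_lit 164325) (nat_lit 230) (.e (nat_lit 163869) (nat_lit 2) (.e (nat_lit 196654) (nat_lit 11) .nil)))))) (.g (nat_lit 1) (.e (nat_lit 140725) (nat_lit 0) .nil) .nil))))))) (.nd (nat_lit 6) (.nd (nat_lit 7) (.nd (nat_lit 8) (.nd (nat_lit 9) 
(.lf (nat_lit 488500) (.g (nat_lit 3596) (.e (nat_lit 16434) (nat_lit 9) (.e (nat_lit 426566) (nat_lit 34) (.e (nat_lit 393253) (nat_lit 18) (.e (nat_lit 164325) (nat_lit 230) (.e (nat_lit 163868) (nat_lit 2) (.e (nat_lit 196654) (nat_lit 11) .nil)))))) (.g (nat_lit 1) (.e (nat_lit 138437) (nat_lit 0) .nil) .nil))) 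
(.lf (nat_lit 489012) (.g (nat_lit 1911) (.e (nat_lit 16459) (nat_lit 12) (.e (nat_lit 475179) (nat_lit 24) (.e (nat_lit 516115) (nat_lit 1) (.e (nat_lit 164327) (nat_lit 230) .nil)))) (.g (nat_lit 0) (.e (nat_lit 140100) (nat_lit 0) .nil) .nil)))) (.nd (nat_lit 9) 
(.lf (nat_lit 488756) (.g (nat_lit 2663) (.e (nat_lit 16438) (nat_lit 9) (.e (nat_lit 426482) (nat_lit 27) (.e (nat_lit 336385) (nat_lit 27) (.e (nat_lit 426107) (nat_lit 1) (.e (nat_lit 164326) (nat_lit 230) (.e (nat_lit 163871) (nat_lit 2) (.e (nat_lit 196656) (nat_lit 11) .nil))))))) (.g (nat_lit 1) (.e (nat_lit 138874) (nat_lit 0) .nil) .nil))) 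
(.lf (nat_lit 489268) (.g (nat_lit 2704) (.e (nat_lit 16465) (nat_lit 13) (.e (nat_lit 483341) (nat_lit 9) (.e (nat_lit 426098) (nat_lit 1) (.e (nat_lit 164325) (nat_lit 230) (.e (nat_lit 163869) (nat_lit 2) (.e (nat_lit 196653) (nat_lit 11) .nil)))))) (.g (nat_lit 1) (.e (nat_lit 140530) (nat_lit 0) .nil) .nil))))) (.nd (nat_lit 8) (.nd (nat_lit 9) 
(.lf (nat_lit 488628) (.g (nat_lit 1205) (.e (nat_lit 16436) (nat_lit 9) (.e (nat_lit 426131) (nat_lit 3) (.e (nat_lit 204880) (nat_lit 32) (.e (nat_lit 385096) (nat_lit 49) .nil)))) (.g (nat_lit 0) (.e (nat_lit 138634) (nat_lit 0) .nil) .nil))) 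
(.lf (nat_lit 489140) (.g (nat_lit 2868) (.e (nat_lit 16463) (nat_lit 13) (.e (nat_lit 483341) (nat_lit 9) (.e (nat_lit 426098) (nat_lit 1) (.e (nat_lit 164327) (nat_lit 230) (.e (nat_lit 163868) (nat_lit 2) (.e (nat_lit 196656) (nat_lit 11) .nil)))))) (.g (nat_lit 1) (.e (nat_lit 140332) (nat_lit 0) .nil) .nil)))) (.nd (nat_lit 9) 
(.lf (nat_lit 488884) (.g (nat_lit 1593) (.e (nat_lit 16448) (nat_lit 10) (.e (nat_lit 434231) (nat_lit 23) (.e (nat_lit 532529) (nat_lit 9) (.e (nat_lit 336328) (nat_lit 19) .nil)))) (.g (nat_lit 0) (.e (nat_lit 139452) (nat_lit 0) .nil) .nil))) 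
(.lf (nat_lit 489396) (.g (nat_lit 3047) (.e (nat_lit 16466) (nat_lit 13) (.e (nat_lit 483341) (nat_lit 9) (.e (nat_lit 426100) (nat_lit 1) (.e (nat_lit 164332) (nat_lit 230) (.e (nat_lit 163866) (nat_lit 2) (.e (nat_lit 196654) (nat_lit 11) .nil)))))) (.g (nat_lit 1) (.e (nat_lit 140693) (nat_lit 0) .nil) .nil)))))) (.nd (nat_lit 7) (.nd (nat_lit 8) (.nd (nat_lit 9) 
(.lf (nat_lit 488564) (.g (nat_lit 2966) (.e (nat_lit 16435) (nat_lit 9) (.e (nat_lit 426566) (nat_lit 34) (.e (nat_lit 393252) (nat_lit 18) (.e (nat_lit 164332) (nat_lit 230) (.e (nat_lit 163867) (nat_lit 2) (.e (nat_lit 196652) (nat_lit 11) .nil)))))) (.g (nat_lit 1) (.e (nat_lit 138508) (nat_lit 0) .nil) .nil))) 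
(.lf (nat_lit 489076) (.g (nat_lit 1124) (.e (nat_lit 16462) (nat_lit 13) (.e (nat_lit 483346) (nat_lit 17) (.e (nat_lit 6665) (nat_lit 357) (.e (nat_lit 7936) (nat_lit 184) .nil)))) (.g (nat_lit 0) (.e (nat_lit 140236) (nat_lit 0) .nil) .nil)))) (.nd (nat_lit 9) 
(.lf (nat_lit 488820) (.g (nat_lit 1927) (.e (nat_lit 16438) (nat_lit 9) (.e (nat_lit 426567) (nat_lit 34) (.e (nat_lit 393251) (nat_lit 18) (.e (nat_lit 164327) (nat_lit 230) (.e (nat_lit 163871) (nat_lit 2) (.e (nat_lit 196654) (nat_lit 11) .nil)))))) (.g (nat_lit 1) (.e (nat_lit 138952) (nat_lit 0) .nil) .nil))) 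
(.lf (nat_lit 489332) (.g (nat_lit 1071) (.e (nat_lit 16465) (nat_lit 13) (.e (nat_lit 483383) (nat_lit 23) (.e (nat_lit 336240) (nat_lit 15) (.e (nat_lit 3590) (nat_lit 224) .nil)))) (.g (nat_lit 0) (.e (nat_lit 140627) (nat_lit 0) .nil) .nil))))) (.nd (nat_lit 8) (.nd (nat_lit 9) 
(.lf (nat_lit 488692) (.g (nat_lit 2396) (.e (nat_lit 16437) (nat_lit 9) (.e (nat_lit 426566) (nat_lit 34) (.e (nat_lit 393251) (nat_lit 18) (.e (nat_lit 164325) (nat_lit 230) (.e (nat_lit 163866) (nat_lit 2) (.e (nat_lit 196654) (nat_lit 11) .nil)))))) (.g (nat_lit 1) (.e (nat_lit 138800) (nat_lit 0) .nil) .nil))) 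
(.lf (nat_lit 489204) (.g (nat_lit 2562) (.e (nat_lit 16463) (nat_lit 13) (.e (nat_lit 483341) (nat_lit 9) (.e (nat_lit 426107) (nat_lit 1) (.e (nat_lit 164325) (nat_lit 230) (.e (nat_lit 163869) (nat_lit 2) (.e (nat_lit 196656) (nat_lit 11) .nil)))))) (.g (nat_lit 1) (.e (nat_lit 140399) (nat_lit 0) .nil) .nil)))) (.nd (nat_lit 9) 
(.lf (nat_lit 488948) (.g (nat_lit 2764) (.e (nat_lit 16456) (nat_lit 12) (.e (nat_lit 475179) (nat_lit 24) (.e (nat_lit 516119) (nat_lit 1) (.e (nat_lit 164325) (nat_lit 230) (.e (nat_lit 163936) (nat_lit 18) (.e (nat_lit 483072) (nat_lit 10) .nil)))))) (.g (nat_lit 1) (.e (nat_lit 140008) (nat_lit 0) .nil) .nil))) 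
(.lf (nat_lit 489460) (.g (nat_lit 2275) (.e (nat_lit 16466) (nat_lit 13) (.e (nat_lit 483411) (nat_lit 27) (.e (nat_lit 401448) (nat_lit 10) (.e (nat_lit 434291) (nat_lit 44) (.e (nat_lit 704738) (nat_lit 11) .nil))))) (.g (nat_lit 1) (.e (nat_lit 140758) (nat_lit 0) .nil) .nil))))))))) (.nd (nat_lit 4) (.nd (nat_lit 5) (.nd (nat_lit 6) (.nd (nat_lit 7) (.nd (nat_lit 8) (.nd (nat_lit 9) 
(.lf (nat_lit 488460) (.g (nat_lit 801) (.e (nat_lit 16433) (nat_lit 9) (.e (nat_lit 426568) (nat_lit 34) (.e (nat_lit 393254) (nat_lit 18) .nil))) (.g (nat_lit 0) (.e (nat_lit 138396) (nat_lit 0) .nil) .nil))) 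
(.lf (nat_lit 488972) (.g (nat_lit 2590) (.e (nat_lit 16457) (nat_lit 12) (.e (nat_lit 475179) (nat_lit 24) (.e (nat_lit 516120) (nat_lit 1) (.e (nat_lit 164332) (nat_lit 230) (.e (nat_lit 163938) (nat_lit 18) .nil))))) (.g (nat_lit 0) (.e (nat_lit 140037) (nat_lit 0) .nil) .nil)))) (.nd (nat_lit 9) 
(.lf (nat_lit 488716) (.g (nat_lit 3744) (.e (nat_lit 16437) (nat_lit 9) (.e (nat_lit 426566) (nat_lit 34) (.e (nat_lit 393253) (nat_lit 18) (.e (nat_lit 164325) (nat_lit 230) (.e (nat_lit 163869) (nat_lit 2) (.e (nat_lit 196654) (nat_lit 11) .nil)))))) (.g (nat_lit 1) (.e (nat_lit 138824) (nat_lit 0) .nil) .nil))) 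
(.lf (nat_lit 489228) (.g (nat_lit 3754) (.e (nat_lit 16463) (nat_lit 13) (.e (nat_lit 483341) (nat_lit 9) (.e (nat_lit 426108) (nat_lit 1) (.e (nat_lit 164332) (nat_lit 230) (.e (nat_lit 163866) (nat_lit 2) (.e (nat_lit 196654) (nat_lit 11) .nil)))))) (.g (nat_lit 1) (.e (nat_lit 140426) (nat_lit 0) .nil) .nil))))) (.nd (nat_lit 8) (.nd (nat_lit 9) 
(.lf (nat_lit 488588) (.g (nat_lit 3384) (.e (nat_lit 16435) (nat_lit 9) (.e (nat_lit 426566) (nat_lit 34) (.e (nat_lit 393253) (nat_lit 18) (.e (nat_lit 164330) (nat_lit 230) (.e (nat_lit 163867) (nat_lit 2) (.e (nat_lit 196654) (nat_lit 11) .nil)))))) (.g (nat_lit 1) (.e (nat_lit 138532) (nat_lit 0) .nil) .nil))) 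
(.lf (nat_lit 489100) (.g (nat_lit 1955) (.e (nat_lit 16463) (nat_lit 13) (.e (nat_lit 483337) (nat_lit 9) (.e (nat_lit 426100) (nat_lit 1) (.e (nat_lit 164330) (nat_lit 230) .nil)))) (.g (nat_lit 0) (.e (nat_lit 140287) (nat_lit 0) .nil) .nil)))) (.nd (nat_lit 9) 
(.lf (nat_lit 488844) (.g (nat_lit 2880) (.e (nat_lit 16444) (nat_lit 9) (.e (nat_lit 426129) (nat_lit 3) (.e (nat_lit 204816) (nat_lit 17) (.e (nat_lit 6724) (nat_lit 362) (.e (nat_lit 180250) (nat_lit 10) (.e (nat_lit 573471) (nat_lit 11) .nil)))))) (.g (nat_lit 1) (.e (nat_lit 139061) (nat_lit 0) .nil) .nil))) 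
(.lf (nat_lit 489356) (.g (nat_lit 2432) (.e (nat_lit 16466) (nat_lit 13) (.e (nat_lit 483337) (nat_lit 9) (.e (nat_lit 426107) (nat_lit 1) (.e (nat_lit 164324) (nat_lit 230) (.e (nat_lit 163868) (nat_lit 2) (.e (nat_lit 196656) (nat_lit 11) .nil)))))) (.g (nat_lit 1) (.e (nat_lit 140653) (nat_lit 0) .nil) .nil)))))) (.nd (nat_lit 7) (.nd (nat_lit 8) (.nd (nat_lit 9) 
(.lf (nat_lit 488524) (.g (nat_lit 1692) (.e (nat_lit 16435) (nat_lit 9) (.e (nat_lit 426131) (nat_lit 3) (.e (nat_lit 204885) (nat_lit 33) (.e (nat_lit 401448) (nat_lit 10) (.e (nat_lit 434245) (nat_lit 28) (.e (nat_lit 573470) (nat_lit 11) .nil)))))) (.g (nat_lit 1) (.e (nat_lit 138466) (nat_lit 0) .nil) .nil))) 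
(.lf (nat_lit 489036) (.g (nat_lit 1685) (.e (nat_lit 16460) (nat_lit 12) (.e (nat_lit 475179) (nat_lit 24) (.e (nat_lit 516120) (nat_lit 1) (.e (nat_lit 164332) (nat_lit 230) .nil)))) (.g (nat_lit 0) (.e (nat_lit 140132) (nat_lit 0) .nil) .nil)))) (.nd (nat_lit 9) 
(.lf (nat_lit 488780) (.g (nat_lit 1860) (.e (nat_lit 16438) (nat_lit 9) (.e (nat_lit 426482) (nat_lit 27) (.e (nat_lit 336389) (nat_lit 27) (.e (nat_lit 426107) (nat_lit 1) .nil)))) (.g (nat_lit 0) (.e (nat_lit 138903) (nat_lit 0) .nil) .nil))) 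
(.lf (nat_lit 489292) (.g (nat_lit 1743) (.e (nat_lit 16465) (nat_lit 13) (.e (nat_lit 483341) (nat_lit 9) (.e (nat_lit 426107) (nat_lit 1) (.e (nat_lit 164322) (nat_lit 230) .nil)))) (.g (nat_lit 0) (.e (nat_lit 140567) (nat_lit 0) .nil) .nil))))) (.nd (nat_lit 8) (.nd (nat_lit 9) 
(.lf (nat_lit 488652) (.g (nat_lit 3408) (.e (nat_lit 16436) (nat_lit 9) (.e (nat_lit 426482) (nat_lit 27) (.e (nat_lit 336389) (nat_lit 27) (.e (nat_lit 426098) (nat_lit 1) (.e (nat_lit 164325) (nat_lit 230) (.e (nat_lit 163868) (nat_lit 2) (.e (nat_lit 196656) (nat_lit 11) .nil))))))) (.g (nat_lit 1) (.e (nat_lit 138702) (nat_lit 0) .nil) .nil))) 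
(.lf (nat_lit 489164) (.g (nat_lit 3719) (.e (nat_lit 16463) (nat_lit 13) (.e (nat_lit 483341) (nat_lit 9) (.e (nat_lit 426106) (nat_lit 1) (.e (nat_lit 164322) (nat_lit 230) (.e (nat_lit 163867) (nat_lit 2) (.e (nat_lit 196654) (nat_lit 11) .nil)))))) (.g (nat_lit 1) (.e (nat_lit 140357) (nat_lit 0) .nil) .nil)))) (.nd (nat_lit 9) 
(.lf (nat_lit 488908) (.g (nat_lit 2886) (.e (nat_lit 16449) (nat_lit 10) (.e (nat_lit 434233) (nat_lit 23) (.e (nat_lit 532569) (nat_lit 16) (.e (nat_lit 401448) (nat_lit 10) (.e (nat_lit 434245) (nat_lit 28) (.e (nat_lit 573471) (nat_lit 11) .nil)))))) (.g (nat_lit 1) (.e (nat_lit 139608) (nat_lit 0) .nil) .nil))) 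
(.lf (nat_lit 489420) (.g (nat_lit 2346) (.e (nat_lit 16466) (nat_lit 13) (.e (nat_lit 483341) (nat_lit 9) (.e (nat_lit 426107) (nat_lit 1) (.e (nat_lit 164322) (nat_lit 230) (.e (nat_lit 163867) (nat_lit 2) (.e (nat_lit 196656) (nat_lit 11) .nil)))))) (.g (nat_lit 1) (.e (nat_lit 140717) (nat_lit 0) .nil) .nil))))))) (.nd (nat_lit 6) (.nd (nat_lit 7) (.nd (nat_lit 8) (.nd (nat_lit 9) 
(.lf (nat_lit 488492) (.g (nat_lit 3203) (.e (nat_lit 16434) (nat_lit 9) (.e (nat_lit 426566) (nat_lit 34) (.e (nat_lit 393253) (nat_lit 18) (.e (nat_lit 164324) (nat_lit 230) (.e (nat_lit 163867) (nat_lit 2) (.e (nat_lit 196654) (nat_lit 11) .nil)))))) (.g (nat_lit 1) (.e (nat_lit 138429) (nat_lit 0) .nil) .nil))) 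
(.lf (nat_lit 489004) (.g (nat_lit 3675) (.e (nat_lit 16459) (nat_lit 12) (.e (nat_lit 475177) (nat_lit 24) (.e (nat_lit 516115) (nat_lit 1) (.e (nat_lit 164325) (nat_lit 230) (.e (nat_lit 163939) (nat_lit 18) .nil))))) (.g (nat_lit 0) (.e (nat_lit 140087) (nat_lit 0) .nil) .nil)))) (.nd (nat_lit 9) 
(.lf (nat_lit 488748) (.g (nat_lit 3837) (.e (nat_lit 16438) (nat_lit 9) (.e (nat_lit 426482) (nat_lit 27) (.e (nat_lit 336385) (nat_lit 27) (.e (nat_lit 426098) (nat_lit 1) (.e (nat_lit 164327) (nat_lit 230) (.e (nat_lit 163868) (nat_lit 2) (.e (nat_lit 196654) (nat_lit 11) .nil))))))) (.g (nat_lit 1) (.e (nat_lit 138863) (nat_lit 0) .nil) .nil))) 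
(.lf (nat_lit 489260) (.g (nat_lit 3137) (.e (nat_lit 16465) (nat_lit 13) (.e (nat_lit 483339) (nat_lit 9) (.e (nat_lit 426110) (nat_lit 1) (.e (nat_lit 164327) (nat_lit 230) (.e (nat_lit 163871) (nat_lit 2) (.e (nat_lit 196655) (nat_lit 11) .nil)))))) (.g (nat_lit 1) (.e (nat_lit 140519) (nat_lit 0) .nil) .nil))))) (.nd (nat_lit 8) (.nd (nat_lit 9) 
(.lf (nat_lit 488620) (.g (nat_lit 3001) (.e (nat_lit 16436) (nat_lit 9) (.e (nat_lit 426131) (nat_lit 3) (.e (nat_lit 204854) (nat_lit 26) (.e (nat_lit 336337) (nat_lit 20) (.e (nat_lit 221212) (nat_lit 22) (.e (nat_lit 196654) (nat_lit 11) .nil)))))) (.g (nat_lit 1) (.e (nat_lit 138623) (nat_lit 0) .nil) .nil))) 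
(.lf (nat_lit 489132) (.g (nat_lit 2599) (.e (nat_lit 16463) (nat_lit 13) (.e (nat_lit 483340) (nat_lit 9) (.e (nat_lit 426107) (nat_lit 1) (.e (nat_lit 164327) (nat_lit 230) (.e (nat_lit 163871) (nat_lit 2) (.e (nat_lit 196654) (nat_lit 11) .nil)))))) (.g (nat_lit 1) (.e (nat_lit 140324) (nat_lit 0) .nil) .nil)))) (.nd (nat_lit 9) 
(.lf (nat_lit 488876) (.g (nat_lit 1867) (.e (nat_lit 24320) (nat_lit 9) (.e (nat_lit 426568) (nat_lit 34) (.e (nat_lit 393253) (nat_lit 18) (.e (nat_lit 164332) (nat_lit 230) (.e (nat_lit 163867) (nat_lit 2) .nil))))) (.g (nat_lit 0) (.e (nat_lit 139262) (nat_lit 0) .nil) .nil))) 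
(.lf (nat_lit 489388) (.g (nat_lit 2084) (.e (nat_lit 16466) (nat_lit 13) (.e (nat_lit 483341) (nat_lit 9) (.e (nat_lit 426099) (nat_lit 1) (.e (nat_lit 164330) (nat_lit 230) (.e (nat_lit 163867) (nat_lit 2) (.e (nat_lit 196654) (nat_lit 11) .nil)))))) (.g (nat_lit 1) (.e (nat_lit 140685) (nat_lit 0) .nil) .nil)))))) (.nd (nat_lit 7) (.nd (nat_lit 8) (.nd (nat_lit 9) 
(.lf (nat_lit 488556) (.g (nat_lit 2649) (.e (nat_lit 16435) (nat_lit 9) (.e (nat_lit 426566) (nat_lit 34) (.e (nat_lit 393251) (nat_lit 18) (.e (nat_lit 164332) (nat_lit 230) (.e (nat_lit 163867) (nat_lit 2) (.e (nat_lit 196654) (nat_lit 11) .nil)))))) (.g (nat_lit 1) (.e (nat_lit 138500) (nat_lit 0) .nil) .nil))) 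
(.lf (nat_lit 489068) (.g (nat_lit 3057) (.e (nat_lit 16461) (nat_lit 12) (.e (nat_lit 475184) (nat_lit 29) (.e (nat_lit 557100) (nat_lit 13) (.e (nat_lit 172113) (nat_lit 10) (.e (nat_lit 434248) (nat_lit 28) (.e (nat_lit 573470) (nat_lit 11) .nil)))))) (.g (nat_lit 1) (.e (nat_lit 140179) (nat_lit 0) .nil) .nil)))) (.nd (nat_lit 9) 
(.lf (nat_lit 488812) (.g (nat_lit 2710) (.e (nat_lit 16438) (nat_lit 9) (.e (nat_lit 426482) (nat_lit 27) (.e (nat_lit 336417) (nat_lit 27) (.e (nat_lit 426098) (nat_lit 1) (.e (nat_lit 164327) (nat_lit 230) (.e (nat_lit 163871) (nat_lit 2) (.e (nat_lit 196654) (nat_lit 11) .nil))))))) (.g (nat_lit 1) (.e (nat_lit 138942) (nat_lit 0) .nil) .nil))) 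
(.lf (nat_lit 489324) (.g (nat_lit 2186) (.e (nat_lit 16465) (nat_lit 13) (.e (nat_lit 483341) (nat_lit 9) (.e (nat_lit 426108) (nat_lit 1) (.e (nat_lit 164331) (nat_lit 230) (.e (nat_lit 163867) (nat_lit 2) (.e (nat_lit 196653) (nat_lit 11) .nil)))))) (.g (nat_lit 1) (.e (nat_lit 140609) (nat_lit 0) .nil) .nil))))) (.nd (nat_lit 8) (.nd (nat_lit 9) 
(.lf (nat_lit 488684) (.g (nat_lit 1879) (.e (nat_lit 16436) (nat_lit 9) (.e (nat_lit 426566) (nat_lit 34) (.e (nat_lit 393254) (nat_lit 18) (.e (nat_lit 164329) (nat_lit 230) (.e (nat_lit 163867) (nat_lit 2) (.e (nat_lit 196652) (nat_lit 11) .nil)))))) (.g (nat_lit 1) (.e (nat_lit 138746) (nat_lit 0) .nil) .nil))) 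
(.lf (nat_lit 489196) (.g (nat_lit 3518) (.e (nat_lit 16463) (nat_lit 13) (.e (nat_lit 483341) (nat_lit 9) (.e (nat_lit 426107) (nat_lit 1) (.e (nat_lit 164324) (nat_lit 230) (.e (nat_lit 163867) (nat_lit 2) (.e (nat_lit 196654) (nat_lit 11) .nil)))))) (.g (nat_lit 1) (.e (nat_lit 140391) (nat_lit 0) .nil) .nil)))) (.nd (nat_lit 9) 
(.lf (nat_lit 488940) (.g (nat_lit 2670) (.e (nat_lit 16456) (nat_lit 12) (.e (nat_lit 475177) (nat_lit 24) (.e (nat_lit 516120) (nat_lit 1) (.e (nat_lit 164330) (nat_lit 230) (.e (nat_lit 163938) (nat_lit 18) (.e (nat_lit 483072) (nat_lit 10) .nil)))))) (.g (nat_lit 1) (.e (nat_lit 139995) (nat_lit 0) .nil) .nil))) 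
(.lf (nat_lit 489452) (.g (nat_lit 807) (.e (nat_lit 16466) (nat_lit 13) (.e (nat_lit 483372) (nat_lit 21) (.e (nat_lit 319496) (nat_lit 10) .nil))) (.g (nat_lit 0) (.e (nat_lit 140750) (nat_lit 0) .nil) .nil)))))))) (.nd (nat_lit 5) (.nd (nat_lit 6) (.nd (nat_lit 7) (.nd (nat_lit 8) (.nd (nat_lit 9) 
(.lf (nat_lit 488476) (.g (nat_lit 2988) (.e (nat_lit 16434) (nat_lit 9) (.e (nat_lit 426566) (nat_lit 34) (.e (nat_lit 393251) (nat_lit 18) (.e (nat_lit 164331) (nat_lit 230) (.e (nat_lit 163867) (nat_lit 2) (.e (nat_lit 196654) (nat_lit 11) .nil)))))) (.g (nat_lit 1) (.e (nat_lit 138413) (nat_lit 0) .nil) .nil))) 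
(.lf (nat_lit 488988) (.g (nat_lit 1406) (.e (nat_lit 16458) (nat_lit 12) (.e (nat_lit 475183) (nat_lit 29) (.e (nat_lit 557097) (nat_lit 13) (.e (nat_lit 172109) (nat_lit 10) .nil)))) (.g (nat_lit 0) (.e (nat_lit 140063) (nat_lit 0) .nil) .nil)))) (.nd (nat_lit 9) 
(.lf (nat_lit 488732) (.g (nat_lit 1586) (.e (nat_lit 16437) (nat_lit 9) (.e (nat_lit 426566) (nat_lit 34) (.e (nat_lit 393254) (nat_lit 18) (.e (nat_lit 164326) (nat_lit 230) (.e (nat_lit 163868) (nat_lit 2) .nil))))) (.g (nat_lit 0) (.e (nat_lit 138840) (nat_lit 0) .nil) .nil))) 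
(.lf (nat_lit 489244) (.g (nat_lit 459) (.e (nat_lit 16463) (nat_lit 13) (.e (nat_lit 483413) (nat_lit 27) (.e (nat_lit 401440) (nat_lit 9) .nil))) (.g (nat_lit 0) (.e (nat_lit 140457) (nat_lit 0) .nil) .nil))))) (.nd (nat_lit 8) (.nd (nat_lit 9) 
(.lf (nat_lit 488604) (.g (nat_lit 2510) (.e (nat_lit 16436) (nat_lit 9) (.e (nat_lit 426131) (nat_lit 3) (.e (nat_lit 204851) (nat_lit 26) (.e (nat_lit 336336) (nat_lit 20) (.e (nat_lit 221212) (nat_lit 22) (.e (nat_lit 196654) (nat_lit 11) .nil)))))) (.g (nat_lit 1) (.e (nat_lit 138571) (nat_lit 0) .nil) .nil))) 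
(.lf (nat_lit 489116) (.g (nat_lit 2536) (.e (nat_lit 16463) (nat_lit 13) (.e (nat_lit 483337) (nat_lit 9) (.e (nat_lit 426107) (nat_lit 1) (.e (nat_lit 164325) (nat_lit 230) (.e (nat_lit 163871) (nat_lit 2) (.e (nat_lit 196653) (nat_lit 11) .nil)))))) (.g (nat_lit 1) (.e (nat_lit 140304) (nat_lit 0) .nil) .nil)))) (.nd (nat_lit 9) 
(.lf (nat_lit 488860) (.g (nat_lit 3820) (.e (nat_lit 16446) (nat_lit 9) (.e (nat_lit 426133) (nat_lit 3) (.e (nat_lit 204885) (nat_lit 33) (.e (nat_lit 401448) (nat_lit 10) (.e (nat_lit 434244) (nat_lit 28) (.e (nat_lit 573471) (nat_lit 11) .nil)))))) (.g (nat_lit 1) (.e (nat_lit 139216) (nat_lit 0) .nil) .nil))) 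
(.lf (nat_lit 489372) (.g (nat_lit 3706) (.e (nat_lit 16466) (nat_lit 13) (.e (nat_lit 483337) (nat_lit 9) (.e (nat_lit 426108) (nat_lit 1) (.e (nat_lit 164330) (nat_lit 230) (.e (nat_lit 163869) (nat_lit 2) (.e (nat_lit 196654) (nat_lit 11) .nil)))))) (.g (nat_lit 1) (.e (nat_lit 140669) (nat_lit 0) .nil) .nil)))))) (.nd (nat_lit 7) (.nd (nat_lit 8) (.nd (nat_lit 9) 
(.lf (nat_lit 488540) (.g (nat_lit 2372) (.e (nat_lit 16435) (nat_lit 9) (.e (nat_lit 426566) (nat_lit 34) (.e (nat_lit 393251) (nat_lit 18) (.e (nat_lit 164325) (nat_lit 230) (.e (nat_lit 163866) (nat_lit 2) (.e (nat_lit 196653) (nat_lit 11) .nil)))))) (.g (nat_lit 1) (.e (nat_lit 138484) (nat_lit 0) .nil) .nil))) 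
(.lf (nat_lit 489052) (.g (nat_lit 3914) (.e (nat_lit 16461) (nat_lit 12) (.e (nat_lit 475179) (nat_lit 24) (.e (nat_lit 516117) (nat_lit 1) (.e (nat_lit 164330) (nat_lit 230) (.e (nat_lit 163938) (nat_lit 18) .nil))))) (.g (nat_lit 0) (.e (nat_lit 140163) (nat_lit 0) .nil) .nil)))) (.nd (nat_lit 9) 
(.lf (nat_lit 488796) (.g (nat_lit 2335) (.e (nat_lit 16438) (nat_lit 9) (.e (nat_lit 426482) (nat_lit 27) (.e (nat_lit 336388) (nat_lit 27) (.e (nat_lit 426107) (nat_lit 1) (.e (nat_lit 164325) (nat_lit 230) (.e (nat_lit 163868) (nat_lit 2) (.e (nat_lit 196654) (nat_lit 11) .nil))))))) (.g (nat_lit 1) (.e (nat_lit 138921) (nat_lit 0) .nil) .nil))) 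
(.lf (nat_lit 489308) (.g (nat_lit 2346) (.e (nat_lit 16465) (nat_lit 13) (.e (nat_lit 483341) (nat_lit 9) (.e (nat_lit 426107) (nat_lit 1) (.e (nat_lit 164327) (nat_lit 230) (.e (nat_lit 163868) (nat_lit 2) (.e (nat_lit 196653) (nat_lit 11) .nil)))))) (.g (nat_lit 1) (.e (nat_lit 140587) (nat_lit 0) .nil) .nil))))) (.nd (nat_lit 8) (.nd (nat_lit 9) 
(.lf (nat_lit 488668) (.g (nat_lit 1996) (.e (nat_lit 16436) (nat_lit 9) (.e (nat_lit 426506) (nat_lit 27) (.e (nat_lit 336389) (nat_lit 27) (.e (nat_lit 426098) (nat_lit 1) (.e (nat_lit 164327) (nat_lit 230) .nil))))) (.g (nat_lit 0) (.e (nat_lit 138721) (nat_lit 0) .nil) .nil))) 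
(.lf (nat_lit 489180) (.g (nat_lit 3457) (.e (nat_lit 16463) (nat_lit 13) (.e (nat_lit 483341) (nat_lit 9) (.e (nat_lit 426106) (nat_lit 1) (.e (nat_lit 164326) (nat_lit 230) (.e (nat_lit 163871) (nat_lit 2) (.e (nat_lit 196656) (nat_lit 11) .nil)))))) (.g (nat_lit 1) (.e (nat_lit 140373) (nat_lit 0) .nil) .nil)))) (.nd (nat_lit 9) 
(.lf (nat_lit 488924) (.g (nat_lit 1717) (.e (nat_lit 16455) (nat_lit 12) (.e (nat_lit 475179) (nat_lit 24) (.e (nat_lit 516119) (nat_lit 1) (.e (nat_lit 164325) (nat_lit 230) .nil)))) (.g (nat_lit 0) (.e (nat_lit 139971) (nat_lit 0) .nil) .nil))) 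
(.lf (nat_lit 489436) (.g (nat_lit 3154) (.e (nat_lit 16466) (nat_lit 13) (.e (nat_lit 483341) (nat_lit 9) (.e (nat_lit 426107) (nat_lit 1) (.e (nat_lit 164332) (nat_lit 230) (.e (nat_lit 163867) (nat_lit 2) .nil))))) (.g (nat_lit 0) (.e (nat_lit 140733) (nat_lit 0) .nil) .nil))))))) (.nd (nat_lit 6) (.nd (nat_lit 7) (.nd (nat_lit 8) (.nd (nat_lit 9) 
(.lf (nat_lit 488508) (.g (nat_lit 2627) (.e (nat_lit 16434) (nat_lit 9) (.e (nat_lit 426566) (nat_lit 34) (.e (nat_lit 393253) (nat_lit 18) (.e (nat_lit 164327) (nat_lit 230) (.e (nat_lit 163869) (nat_lit 2) .nil))))) (.g (nat_lit 0) (.e (nat_lit 138445) (nat_lit 0) .nil) .nil))) 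
(.lf (nat_lit 489020) (.g (nat_lit 2910) (.e (nat_lit 16459) (nat_lit 12) (.e (nat_lit 475179) (nat_lit 24) (.e (nat_lit 516120) (nat_lit 1) (.e (nat_lit 164332) (nat_lit 230) (.e (nat_lit 163938) (nat_lit 18) (.e (nat_lit 483072) (nat_lit 10) .nil)))))) (.g (nat_lit 1) (.e (nat_lit 140108) (nat_lit 0) .nil) .nil)))) (.nd (nat_lit 9) 
(.lf (nat_lit 488764) (.g (nat_lit 2982) (.e (nat_lit 16438) (nat_lit 9) (.e (nat_lit 426482) (nat_lit 27) (.e (nat_lit 336386) (nat_lit 27) (.e (nat_lit 426098) (nat_lit 1) (.e (nat_lit 164325) (nat_lit 230) (.e (nat_lit 163866) (nat_lit 2) (.e (nat_lit 196654) (nat_lit 11) .nil))))))) (.g (nat_lit 1) (.e (nat_lit 138885) (nat_lit 0) .nil) .nil))) 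
(.lf (nat_lit 489276) (.g (nat_lit 2364) (.e (nat_lit 16465) (nat_lit 13) (.e (nat_lit 483341) (nat_lit 9) (.e (nat_lit 426098) (nat_lit 1) (.e (nat_lit 164332) (nat_lit 230) (.e (nat_lit 163867) (nat_lit 2) (.e (nat_lit 196655) (nat_lit 11) .nil)))))) (.g (nat_lit 1) (.e (nat_lit 140542) (nat_lit 0) .nil) .nil))))) (.nd (nat_lit 8) (.nd (nat_lit 9) 
(.lf (nat_lit 488636) (.g (nat_lit 2058) (.e (nat_lit 16436) (nat_lit 9) (.e (nat_lit 426131) (nat_lit 3) (.e (nat_lit 204881) (nat_lit 32) (.e (nat_lit 385109) (nat_lit 51) (.e (nat_lit 794669) (nat_lit 22) (.e (nat_lit 196656) (nat_lit 11) .nil)))))) (.g (nat_lit 1) (.e (nat_lit 138656) (nat_lit 0) .nil) .nil))) 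
(.lf (nat_lit 489148) (.g (nat_lit 3861) (.e (nat_lit 16463) (nat_lit 13) (.e (nat_lit 483341) (nat_lit 9) (.e (nat_lit 426098) (nat_lit 1) (.e (nat_lit 164332) (nat_lit 230) (.e (nat_lit 163869) (nat_lit 2) (.e (nat_lit 196656) (nat_lit 11) .nil)))))) (.g (nat_lit 1) (.e (nat_lit 140340) (nat_lit 0) .nil) .nil)))) (.nd (nat_lit 9) 
(.lf (nat_lit 488892) (.g (nat_lit 2163) (.e (nat_lit 16448) (nat_lit 10) (.e (nat_lit 434231) (nat_lit 23) (.e (nat_lit 532535) (nat_lit 9) (.e (nat_lit 336290) (nat_lit 15) .nil)))) (.g (nat_lit 0) (.e (nat_lit 139485) (nat_lit 0) .nil) .nil))) 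
(.lf (nat_lit 489404) (.g (nat_lit 2859) (.e (nat_lit 16466) (nat_lit 13) (.e (nat_lit 483341) (nat_lit 9) (.e (nat_lit 426106) (nat_lit 1) (.e (nat_lit 164324) (nat_lit 230) (.e (nat_lit 163867) (nat_lit 2) (.e (nat_lit 196654) (nat_lit 11) .nil)))))) (.g (nat_lit 1) (.e (nat_lit 140701) (nat_lit 0) .nil) .nil)))))) (.nd (nat_lit 7) (.nd (nat_lit 8) (.nd (nat_lit 9) 
(.lf (nat_lit 488572) (.g (nat_lit 3495) (.e (nat_lit 16435) (nat_lit 9) (.e (nat_lit 426566) (nat_lit 34) (.e (nat_lit 393253) (nat_lit 18) (.e (nat_lit 164325) (nat_lit 230) (.e (nat_lit 163866) (nat_lit 2) (.e (nat_lit 196654) (nat_lit 11) .nil)))))) (.g (nat_lit 1) (.e (nat_lit 138516) (nat_lit 0) .nil) .nil))) 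
(.lf (nat_lit 489084) (.g (nat_lit 691) (.e (nat_lit 16462) (nat_lit 13) (.e (nat_lit 483411) (nat_lit 27) (.e (nat_lit 409344) (nat_lit 9) .nil))) (.g (nat_lit 0) (.e (nat_lit 140252) (nat_lit 0) .nil) .nil)))) (.nd (nat_lit 9) 
(.lf (nat_lit 488828) (.g (nat_lit 2705) (.e (nat_lit 16439) (nat_lit 9) (.e (nat_lit 426501) (nat_lit 27) (.e (nat_lit 335894) (nat_lit 0) (.e (nat_lit 6724) (nat_lit 362) (.e (nat_lit 180271) (nat_lit 26) (.e (nat_lit 704738) (nat_lit 11) .nil)))))) (.g (nat_lit 1) (.e (nat_lit 138970) (nat_lit 0) .nil) .nil))) 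
(.lf (nat_lit 489340) (.g (nat_lit 3117) (.e (nat_lit 16466) (nat_lit 13) (.e (nat_lit 483336) (nat_lit 9) (.e (nat_lit 426108) (nat_lit 1) (.e (nat_lit 164330) (nat_lit 230) (.e (nat_lit 163869) (nat_lit 2) (.e (nat_lit 196654) (nat_lit 11) .nil)))))) (.g (nat_lit 1) (.e (nat_lit 140637) (nat_lit 0) .nil) .nil))))) (.nd (nat_lit 8) (.nd (nat_lit 9) 
(.lf (nat_lit 488700) (.g (nat_lit 1851) (.e (nat_lit 16437) (nat_lit 9) (.e (nat_lit 426566) (nat_lit 34) (.e (nat_lit 393251) (nat_lit 18) (.e (nat_lit 164332) (nat_lit 230) .nil)))) (.g (nat_lit 0) (.e (nat_lit 138808) (nat_lit 0) .nil) .nil))) 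
(.lf (nat_lit 489212) (.g (nat_lit 2613) (.e (nat_lit 16463) (nat_lit 13) (.e (nat_lit 483341) (nat_lit 9) (.e (nat_lit 426107) (nat_lit 1) (.e (nat_lit 164327) (nat_lit 230) (.e (nat_lit 163871) (nat_lit 2) (.e (nat_lit 196656) (nat_lit 11) .nil)))))) (.g (nat_lit 1) (.e (nat_lit 140409) (nat_lit 0) .nil) .nil)))) (.nd (nat_lit 9) 
(.lf (nat_lit 488956) (.g (nat_lit 2095) (.e (nat_lit 16456) (nat_lit 12) (.e (nat_lit 475183) (nat_lit 29) (.e (nat_lit 557100) (nat_lit 13) (.e (nat_lit 172113) (nat_lit 10) (.e (nat_lit 434248) (nat_lit 28) (.e (nat_lit 573469) (nat_lit 11) .nil)))))) (.g (nat_lit 1) (.e (nat_lit 140017) (nat_lit 0) .nil) .nil))) 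
(.lf (nat_lit 489468) (.g (nat_lit 2144) (.e (nat_lit 16468) (nat_lit 13) (.e (nat_lit 483337) (nat_lit 9) (.e (nat_lit 426107) (nat_lit 1) (.e (nat_lit 164322) (nat_lit 230) (.e (nat_lit 163867) (nat_lit 2) .nil))))) (.g (nat_lit 0) (.e (nat_lit 140875) (nat_lit 0) .nil) .nil))))))))))) 
(.nd (nat_lit 2) (.nd (nat_lit 3) (.nd (nat_lit 4) (.nd (nat_lit 5) (.nd (nat_lit 6) 
(.nd (nat_lit 7) (.nd (nat_lit 8) (.nd (nat_lit 9) 
(.lf (nat_lit 488450) (.g (nat_lit 2541) (.e (nat_lit 16433) (nat_lit 9) (.e (nat_lit 426568) (nat_lit 34) (.e (nat_lit 393253) (nat_lit 18) (.e (nat_lit 164324) (nat_lit 230) (.e (nat_lit 163867) (nat_lit 2) (.e (nat_lit 196656) (nat_lit 11) .nil)))))) (.g (nat_lit 1) (.e (nat_lit 138386) (nat_lit 0) .nil) .nil))) 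
(.lf (nat_lit 488962) (.g (nat_lit 4529) (.e (nat_lit 16456) (nat_lit 12) (.e (nat_lit 475185) (nat_lit 29) (.e (nat_lit 557100) (nat_lit 13) (.e (nat_lit 172113) (nat_lit 10) (.e (nat_lit 434248) (nat_lit 28) (.e (nat_lit 573469) (nat_lit 11) .nil)))))) (.g (nat_lit 1) (.e (nat_lit 140023) (nat_lit 0) .nil) .nil)))) (.nd (nat_lit 9) 
(.lf (nat_lit 488706) (.g (nat_lit 2724) (.e (nat_lit 16437) (nat_lit 9) (.e (nat_lit 426566) (nat_lit 34) (.e (nat_lit 393252) (nat_lit 18) (.e (nat_lit 164332) (nat_lit 230) (.e (nat_lit 163869) (nat_lit 2) (.e (nat_lit 196656) (nat_lit 11) .nil)))))) (.g (nat_lit 1) (.e (nat_lit 138814) (nat_lit 0) .nil) .nil))) 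
(.lf (nat_lit 489218) (.g (nat_lit 3419) (.e (nat_lit 16463) (nat_lit 13) (.e (nat_lit 483341) (nat_lit 9) (.e (nat_lit 426108) (nat_lit 1) (.e (nat_lit 164329) (nat_lit 230) (.e (nat_lit 163866) (nat_lit 2) (.e (nat_lit 196654) (nat_lit 11) .nil)))))) (.g (nat_lit 1) (.e (nat_lit 140415) (nat_lit 0) .nil) .nil))))) (.nd (nat_lit 8) (.nd (nat_lit 9) 
(.lf (nat_lit 488578) (.g (nat_lit 2383) (.e (nat_lit 16435) (nat_lit 9) (.e (nat_lit 426566) (nat_lit 34) (.e (nat_lit 393253) (nat_lit 18) (.e (nat_lit 164327) (nat_lit 230) (.e (nat_lit 163866) (nat_lit 2) (.e (nat_lit 196653) (nat_lit 11) .nil)))))) (.g (nat_lit 1) (.e (nat_lit 138522) (nat_lit 0) .nil) .nil))) 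
(.lf (nat_lit 489090) (.g (nat_lit 2467) (.e (nat_lit 16463) (nat_lit 13) (.e (nat_lit 483336) (nat_lit 9) (.e (nat_lit 426100) (nat_lit 1) (.e (nat_lit 164332) (nat_lit 230) (.e (nat_lit 163866) (nat_lit 2) (.e (nat_lit 196654) (nat_lit 11) .nil)))))) (.g (nat_lit 1) (.e (nat_lit 140275) (nat_lit 0) .nil) .nil)))) (.nd (nat_lit 9) 
(.lf (nat_lit 488834) (.g (nat_lit 833) (.e (nat_lit 16440) (nat_lit 9) (.e (nat_lit 426125) (nat_lit 2) (.e (nat_lit 204544) (nat_lit 2) (.e (nat_lit 24653) (nat_lit 12) (.e (nat_lit 392960) (nat_lit 2) .nil))))) (.g (nat_lit 1) (.e (nat_lit 138997) (nat_lit 0) .nil) .nil))) 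
(.lf (nat_lit 489346) (.g (nat_lit 2897) (.e (nat_lit 16466) (nat_lit 13) (.e (nat_lit 483337) (nat_lit 9) (.e (nat_lit 426098) (nat_lit 1) (.e (nat_lit 164327) (nat_lit 230) (.e (nat_lit 163871) (nat_lit 2) (.e (nat_lit 196654) (nat_lit 11) .nil)))))) (.g (nat_lit 1) (.e (nat_lit 140643) (nat_lit 0) .nil) .nil)))))) (.nd (nat_lit 7) (.nd (nat_lit 8) (.nd (nat_lit 9) 
(.lf (nat_lit 488514) (.g (nat_lit 3688) (.e (nat_lit 16434) (nat_lit 9) (.e (nat_lit 426566) (nat_lit 34) (.e (nat_lit 393253) (nat_lit 18) (.e (nat_lit 164330) (nat_lit 230) (.e (nat_lit 163869) (nat_lit 2) (.e (nat_lit 196654) (nat_lit 11) .nil)))))) (.g (nat_lit 1) (.e (nat_lit 138451) (nat_lit 0) .nil) .nil))) 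
(.lf (nat_lit 489026) (.g (nat_lit 2696) (.e (nat_lit 16459) (nat_lit 12) (.e (nat_lit 475185) (nat_lit 29) (.e (nat_lit 557100) (nat_lit 13) (.e (nat_lit 172113) (nat_lit 10) (.e (nat_lit 434242) (nat_lit 28) (.e (nat_lit 573469) (nat_lit 11) .nil)))))) (.g (nat_lit 1) (.e (nat_lit 140117) (nat_lit 0) .nil) .nil)))) (.nd (nat_lit 9) 
(.lf (nat_lit 488770) (.g (nat_lit 5213) (.e (nat_lit 16438) (nat_lit 9) (.e (nat_lit 426482) (nat_lit 27) (.e (nat_lit 336389) (nat_lit 27) (.e (nat_lit 426098) (nat_lit 1) (.e (nat_lit 164325) (nat_lit 230) (.e (nat_lit 163866) (nat_lit 2) (.e (nat_lit 196654) (nat_lit 11) .nil))))))) (.g (nat_lit 1) (.e (nat_lit 138892) (nat_lit 0) .nil) .nil))) 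
(.lf (nat_lit 489282) (.g (nat_lit 1714) (.e (nat_lit 16465) (nat_lit 13) (.e (nat_lit 483341) (nat_lit 9) (.e (nat_lit 426100) (nat_lit 1) (.e (nat_lit 164330) (nat_lit 230) (.e (nat_lit 163866) (nat_lit 2) (.e (nat_lit 196653) (nat_lit 11) .nil)))))) (.g (nat_lit 1) (.e (nat_lit 140550) (nat_lit 0) .nil) .nil))))) (.nd (nat_lit 8) (.nd (nat_lit 9) 
(.lf (nat_lit 488642) (.g (nat_lit 1991) (.e (nat_lit 16436) (nat_lit 9) (.e (nat_lit 426131) (nat_lit 3) (.e (nat_lit 204885) (nat_lit 33) (.e (nat_lit 401448) (nat_lit 10) (.e (nat_lit 434245) (nat_lit 28) (.e (nat_lit 573470) (nat_lit 11) .nil)))))) (.g (nat_lit 1) (.e (nat_lit 138681) (nat_lit 0) .nil) .nil))) 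
(.lf (nat_lit 489154) (.g (nat_lit 3335) (.e (nat_lit 16463) (nat_lit 13) (.e (nat_lit 483341) (nat_lit 9) (.e (nat_lit 426100) (nat_lit 1) (.e (nat_lit 164332) (nat_lit 230) (.e (nat_lit 163866) (nat_lit 2) (.e (nat_lit 196654) (nat_lit 11) .nil)))))) (.g (nat_lit 1) (.e (nat_lit 140346) (nat_lit 0) .nil) .nil)))) (.nd (nat_lit 9) 
(.lf (nat_lit 488898) (.g (nat_lit 3022) (.e (nat_lit 16448) (nat_lit 10) (.e (nat_lit 434231) (nat_lit 23) (.e (nat_lit 532563) (nat_lit 15) (.e (nat_lit 385109) (nat_lit 51) (.e (nat_lit 794665) (nat_lit 22) (.e (nat_lit 196656) (nat_lit 11) .nil)))))) (.g (nat_lit 1) (.e (nat_lit 139493) (nat_lit 0) .nil) .nil))) 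
(.lf (nat_lit 489410) (.g (nat_lit 3119) (.e (nat_lit 16466) (nat_lit 13) (.e (nat_lit 483341) (nat_lit 9) (.e (nat_lit 426106) (nat_lit 1) (.e (nat_lit 164325) (nat_lit 230) (.e (nat_lit 163871) (nat_lit 2) (.e (nat_lit 196656) (nat_lit 11) .nil)))))) (.g (nat_lit 1) (.e (nat_lit 140707) (nat_lit 0) .nil) .nil))))))) (.nd (nat_lit 6) (.nd (nat_lit 7) (.nd (nat_lit 8) (.nd (nat_lit 9) 
(.lf (nat_lit 488482) (.g (nat_lit 2508) (.e (nat_lit 16434) (nat_lit 9) (.e (nat_lit 426566) (nat_lit 34) (.e (nat_lit 393252) (nat_lit 18) (.e (nat_lit 164332) (nat_lit 230) (.e (nat_lit 163866) (nat_lit 2) (.e (nat_lit 196654) (nat_lit 11) .nil)))))) (.g (nat_lit 1) (.e (nat_lit 138419) (nat_lit 0) .nil) .nil))) 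
(.lf (nat_lit 488994) (.g (nat_lit 2073) (.e (nat_lit 16458) (nat_lit 12) (.e (nat_lit 475184) (nat_lit 29) (.e (nat_lit 557098) (nat_lit 13) (.e (nat_lit 172105) (nat_lit 10) (.e (nat_lit 434248) (nat_lit 28) (.e (nat_lit 573471) (nat_lit 11) .nil)))))) (.g (nat_lit 1) (.e (nat_lit 140069) (nat_lit 0) .nil) .nil)))) (.nd (nat_lit 9) 
(.lf (nat_lit 488738) (.g (nat_lit 2264) (.e (nat_lit 16438) (nat_lit 9) (.e (nat_lit 426402) (nat_lit 15) (.e (nat_lit 1858) (nat_lit 124) (.e (nat_lit 557100) (nat_lit 13) (.e (nat_lit 172113) (nat_lit 10) .nil))))) (.g (nat_lit 0) (.e (nat_lit 138847) (nat_lit 0) .nil) .nil))) 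
(.lf (nat_lit 489250) (.g (nat_lit 2030) (.e (nat_lit 16464) (nat_lit 13) (.e (nat_lit 483337) (nat_lit 9) (.e (nat_lit 426108) (nat_lit 1) (.e (nat_lit 164329) (nat_lit 230) (.e (nat_lit 163867) (nat_lit 2) .nil))))) (.g (nat_lit 0) (.e (nat_lit 140469) (nat_lit 0) .nil) .nil))))) (.nd (nat_lit 8) (.nd (nat_lit 9) 
(.lf (nat_lit 488610) (.g (nat_lit 2316) (.e (nat_lit 16436) (nat_lit 9) (.e (nat_lit 426131) (nat_lit 3) (.e (nat_lit 204852) (nat_lit 26) (.e (nat_lit 336336) (nat_lit 20) (.e (nat_lit 221211) (nat_lit 22) (.e (nat_lit 196656) (nat_lit 11) .nil)))))) (.g (nat_lit 1) (.e (nat_lit 138585) (nat_lit 0) .nil) .nil))) 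
(.lf (nat_lit 489122) (.g (nat_lit 968) (.e (nat_lit 16463) (nat_lit 13) (.e (nat_lit 483337) (nat_lit 9) (.e (nat_lit 426108) (nat_lit 1) (.e (nat_lit 164329) (nat_lit 230) .nil)))) (.g (nat_lit 0) (.e (nat_lit 140313) (nat_lit 0) .nil) .nil)))) (.nd (nat_lit 9) 
(.lf (nat_lit 488866) (.g (nat_lit 998) (.e (nat_lit 24320) (nat_lit 9) (.e (nat_lit 426133) (nat_lit 3) (.e (nat_lit 204816) (nat_lit 17) .nil))) (.g (nat_lit 0) (.e (nat_lit 139243) (nat_lit 0) .nil) .nil))) 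
(.lf (nat_lit 489378) (.g (nat_lit 3535) (.e (nat_lit 16466) (nat_lit 13) (.e (nat_lit 483340) (nat_lit 9) (.e (nat_lit 426107) (nat_lit 1) (.e (nat_lit 164327) (nat_lit 230) (.e (nat_lit 163868) (nat_lit 2) (.e (nat_lit 196656) (nat_lit 11) .nil)))))) (.g (nat_lit 1) (.e (nat_lit 140675) (nat_lit 0) .nil) .nil)))))) (.nd (nat_lit 7) (.nd (nat_lit 8) (.nd (nat_lit 9) 
(.lf (nat_lit 488546) (.g (nat_lit 3495) (.e (nat_lit 16435) (nat_lit 9) (.e (nat_lit 426566) (nat_lit 34) (.e (nat_lit 393251) (nat_lit 18) (.e (nat_lit 164325) (nat_lit 230) (.e (nat_lit 163871) (nat_lit 2) (.e (nat_lit 196654) (nat_lit 11) .nil)))))) (.g (nat_lit 1) (.e (nat_lit 138490) (nat_lit 0) .nil) .nil))) 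
(.lf (nat_lit 489058) (.g (nat_lit 2809) (.e (nat_lit 16461) (nat_lit 12) (.e (nat_lit 475179) (nat_lit 24) (.e (nat_lit 516120) (nat_lit 1) (.e (nat_lit 164332) (nat_lit 230) (.e (nat_lit 163938) (nat_lit 18) (.e (nat_lit 483072) (nat_lit 10) .nil)))))) (.g (nat_lit 1) (.e (nat_lit 140169) (nat_lit 0) .nil) .nil)))) (.nd (nat_lit 9) 
(.lf (nat_lit 488802) (.g (nat_lit 3745) (.e (nat_lit 16438) (nat_lit 9) (.e (nat_lit 426482) (nat_lit 27) (.e (nat_lit 336388) (nat_lit 27) (.e (nat_lit 426107) (nat_lit 1) (.e (nat_lit 164327) (nat_lit 230) (.e (nat_lit 163868) (nat_lit 2) (.e (nat_lit 196654) (nat_lit 11) .nil))))))) (.g (nat_lit 1) (.e (nat_lit 138929) (nat_lit 0) .nil) .nil))) 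
(.lf (nat_lit 489314) (.g (nat_lit 3043) (.e (nat_lit 16465) (nat_lit 13) (.e (nat_lit 483341) (nat_lit 9) (.e (nat_lit 426107) (nat_lit 1) (.e (nat_lit 164331) (nat_lit 230) (.e (nat_lit 163867) (nat_lit 2) .nil))))) (.g (nat_lit 0) (.e (nat_lit 140595) (nat_lit 0) .nil) .nil))))) (.nd (nat_lit 8) (.nd (nat_lit 9) 
(.lf (nat_lit 488674) (.g (nat_lit 3184) (.e (nat_lit 16436) (nat_lit 9) (.e (nat_lit 426566) (nat_lit 34) (.e (nat_lit 393253) (nat_lit 18) (.e (nat_lit 164305) (nat_lit 226) .nil)))) (.g (nat_lit 0) (.e (nat_lit 138734) (nat_lit 0) .nil) .nil))) 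
(.lf (nat_lit 489186) (.g (nat_lit 2736) (.e (nat_lit 16463) (nat_lit 13) (.e (nat_lit 483341) (nat_lit 9) (.e (nat_lit 426106) (nat_lit 1) (.e (nat_lit 164330) (nat_lit 230) (.e (nat_lit 163867) (nat_lit 2) (.e (nat_lit 196654) (nat_lit 11) .nil)))))) (.g (nat_lit 1) (.e (nat_lit 140379) (nat_lit 0) .nil) .nil)))) (.nd (nat_lit 9) 
(.lf (nat_lit 488930) (.g (nat_lit 2657) (.e (nat_lit 16455) (nat_lit 12) (.e (nat_lit 475185) (nat_lit 29) (.e (nat_lit 557098) (nat_lit 13) (.e (nat_lit 172105) (nat_lit 10) (.e (nat_lit 434248) (nat_lit 28) (.e (nat_lit 573471) (nat_lit 11) .nil)))))) (.g (nat_lit 1) (.e (nat_lit 139981) (nat_lit 0) .nil) .nil))) 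
(.lf (nat_lit 489442) (.g (nat_lit 3937) (.e (nat_lit 16466) (nat_lit 13) (.e (nat_lit 483341) (nat_lit 9) (.e (nat_lit 426108) (nat_lit 1) (.e (nat_lit 164330) (nat_lit 230) (.e (nat_lit 163869) (nat_lit 2) (.e (nat_lit 196654) (nat_lit 11) .nil)))))) (.g (nat_lit 1) (.e (nat_lit 140739) (nat_lit 0) .nil) .nil)))))))) 
(.nd (nat_lit 5) (.nd (nat_lit 6) (.nd (nat_lit 7) (.nd (nat_lit 8) (.nd (nat_lit 9) 
(.lf (nat_lit 488466) (.g (nat_lit 2256) (.e (nat_lit 16434) (nat_lit 9) (.e (nat_lit 426566) (nat_lit 34) (.e (nat_lit 393251) (nat_lit 18) (.e (nat_lit 164325) (nat_lit 230) (.e (nat_lit 163867) (nat_lit 2) .nil))))) (.g (nat_lit 0) (.e (nat_lit 138403) (nat_lit 0) .nil) .nil))) 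
(.lf (nat_lit 488978) (.g (nat_lit 770) (.e (nat_lit 16458) (nat_lit 12) (.e (nat_lit 475181) (nat_lit 27) (.e (nat_lit 540703) (nat_lit 11) (.e (nat_lit 352260) (nat_lit 0) (.e (nat_lit 7936) (nat_lit 404) .nil))))) (.g (nat_lit 1) (.e (nat_lit 140048) (nat_lit 0) .nil) .nil)))) (.nd (nat_lit 9) 
(.lf (nat_lit 488722) (.g (nat_lit 2581) (.e (nat_lit 16437) (nat_lit 9) (.e (nat_lit 426566) (nat_lit 34) (.e (nat_lit 393253) (nat_lit 18) (.e (nat_lit 164329) (nat_lit 230) .nil)))) (.g (nat_lit 0) (.e (nat_lit 138830) (nat_lit 0) .nil) .nil))) 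
(.lf (nat_lit 489234) (.g (nat_lit 1181) (.e (nat_lit 16463) (nat_lit 13) (.e (nat_lit 483346) (nat_lit 17) (.e (nat_lit 6720) (nat_lit 361) (.e (nat_lit 172074) (nat_lit 6) .nil)))) (.g (nat_lit 0) (.e (nat_lit 140433) (nat_lit 0) .nil) .nil))))) (.nd (nat_lit 8) (.nd (nat_lit 9) 
(.lf (nat_lit 488594) (.g (nat_lit 2073) (.e (nat_lit 16435) (nat_lit 9) (.e (nat_lit 426566) (nat_lit 34) (.e (nat_lit 393253) (nat_lit 18) (.e (nat_lit 164332) (nat_lit 230) (.e (nat_lit 163866) (nat_lit 2) (.e (nat_lit 196653) (nat_lit 11) .nil)))))) (.g (nat_lit 1) (.e (nat_lit 138538) (nat_lit 0) .nil) .nil))) 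
(.lf (nat_lit 489106) (.g (nat_lit 3096) (.e (nat_lit 16463) (nat_lit 13) (.e (nat_lit 483337) (nat_lit 9) (.e (nat_lit 426107) (nat_lit 1) (.e (nat_lit 164322) (nat_lit 230) (.e (nat_lit 163868) (nat_lit 2) (.e (nat_lit 196656) (nat_lit 11) .nil)))))) (.g (nat_lit 1) (.e (nat_lit 140294) (nat_lit 0) .nil) .nil)))) (.nd (nat_lit 9) 
(.lf (nat_lit 488850) (.g (nat_lit 1145) (.e (nat_lit 16445) (nat_lit 9) (.e (nat_lit 426116) (nat_lit 2) (.e (nat_lit 196677) (nat_lit 16) (.e (nat_lit 130816) (nat_lit 206) .nil)))) (.g (nat_lit 0) (.e (nat_lit 139123) (nat_lit 0) .nil) .nil))) 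
(.lf (nat_lit 489362) (.g (nat_lit 2470) (.e (nat_lit 16466) (nat_lit 13) (.e (nat_lit 483337) (nat_lit 9) (.e (nat_lit 426107) (nat_lit 1) (.e (nat_lit 164326) (nat_lit 230) (.e (nat_lit 163870) (nat_lit 2) (.e (nat_lit 196652) (nat_lit 11) .nil)))))) (.g (nat_lit 1) (.e (nat_lit 140659) (nat_lit 0) .nil) .nil)))))) (.nd (nat_lit 7) (.nd (nat_lit 8) (.nd (nat_lit 9) 
(.lf (nat_lit 488530) (.g (nat_lit 2293) (.e (nat_lit 16435) (nat_lit 9) (.e (nat_lit 426480) (nat_lit 27) (.e (nat_lit 336388) (nat_lit 27) (.e (nat_lit 426107) (nat_lit 1) (.e (nat_lit 164326) (nat_lit 230) (.e (nat_lit 163871) (nat_lit 2) (.e (nat_lit 196655) (nat_lit 11) .nil))))))) (.g (nat_lit 1) (.e (nat_lit 138474) (nat_lit 0) .nil) .nil))) 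
(.lf (nat_lit 489042) (.g (nat_lit 3673) (.e (nat_lit 16461) (nat_lit 12) (.e (nat_lit 475177) (nat_lit 24) (.e (nat_lit 516115) (nat_lit 1) (.e (nat_lit 164325) (nat_lit 230) (.e (nat_lit 163939) (nat_lit 18) .nil))))) (.g (nat_lit 0) (.e (nat_lit 140149) (nat_lit 0) .nil) .nil)))) (.nd (nat_lit 9) 
(.lf (nat_lit 488786) (.g (nat_lit 2901) (.e (nat_lit 16438) (nat_lit 9) (.e (nat_lit 426482) (nat_lit 27) (.e (nat_lit 336388) (nat_lit 27) (.e (nat_lit 426098) (nat_lit 1) (.e (nat_lit 164325) (nat_lit 230) (.e (nat_lit 163868) (nat_lit 2) (.e (nat_lit 196654) (nat_lit 11) .nil))))))) (.g (nat_lit 1) (.e (nat_lit 138910) (nat_lit 0) .nil) .nil))) 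
(.lf (nat_lit 489298) (.g (nat_lit 3157) (.e (nat_lit 16465) (nat_lit 13) (.e (nat_lit 483341) (nat_lit 9) (.e (nat_lit 426107) (nat_lit 1) (.e (nat_lit 164324) (nat_lit 230) (.e (nat_lit 163871) (nat_lit 2) (.e (nat_lit 196656) (nat_lit 11) .nil)))))) (.g (nat_lit 1) (.e (nat_lit 140573) (nat_lit 0) .nil) .nil))))) (.nd (nat_lit 8) (.nd (nat_lit 9) 
(.lf (nat_lit 488658) (.g (nat_lit 2952) (.e (nat_lit 16436) (nat_lit 9) (.e (nat_lit 426482) (nat_lit 27) (.e (nat_lit 336389) (nat_lit 27) (.e (nat_lit 426098) (nat_lit 1) (.e (nat_lit 164327) (nat_lit 230) (.e (nat_lit 163871) (nat_lit 2) (.e (nat_lit 196656) (nat_lit 11) .nil))))))) (.g (nat_lit 1) (.e (nat_lit 138708) (nat_lit 0) .nil) .nil))) 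
(.lf (nat_lit 489170) (.g (nat_lit 3291) (.e (nat_lit 16463) (nat_lit 13) (.e (nat_lit 483341) (nat_lit 9) (.e (nat_lit 426106) (nat_lit 1) (.e (nat_lit 164324) (nat_lit 230) (.e (nat_lit 163868) (nat_lit 2) (.e (nat_lit 196654) (nat_lit 11) .nil)))))) (.g (nat_lit 1) (.e (nat_lit 140363) (nat_lit 0) .nil) .nil)))) (.nd (nat_lit 9) 
(.lf (nat_lit 488914) (.g (nat_lit 2465) (.e (nat_lit 16452) (nat_lit 11) (.e (nat_lit 458789) (nat_lit 23) (.e (nat_lit 532569) (nat_lit 16) (.e (nat_lit 401448) (nat_lit 10) (.e (nat_lit 434242) (nat_lit 28) .nil))))) (.g (nat_lit 0) (.e (nat_lit 139900) (nat_lit 0) .nil) .nil))) 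
(.lf (nat_lit 489426) (.g (nat_lit 2213) (.e (nat_lit 16466) (nat_lit 13) (.e (nat_lit 483341) (nat_lit 9) (.e (nat_lit 426107) (nat_lit 1) (.e (nat_lit 164325) (nat_lit 230) (.e (nat_lit 163867) (nat_lit 2) (.e (nat_lit 196654) (nat_lit 11) .nil)))))) (.g (nat_lit 1) (.e (nat_lit 140723) (nat_lit 0) .nil) .nil))))))) (.nd (nat_lit 6) (.nd (nat_lit 7) (.nd (nat_lit 8) (.nd (nat_lit 9) 
(.lf (nat_lit 488498) (.g (nat_lit 1427) (.e (nat_lit 16434) (nat_lit 9) (.e (nat_lit 426566) (nat_lit 34) (.e (nat_lit 393253) (nat_lit 18) (.e (nat_lit 164325) (nat_lit 230) .nil)))) (.g (nat_lit 0) (.e (nat_lit 138435) (nat_lit 0) .nil) .nil))) 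
(.lf (nat_lit 489010) (.g (nat_lit 4250) (.e (nat_lit 16459) (nat_lit 12) (.e (nat_lit 475179) (nat_lit 24) (.e (nat_lit 516115) (nat_lit 1) (.e (nat_lit 164325) (nat_lit 230) (.e (nat_lit 163938) (nat_lit 18) (.e (nat_lit 483072) (nat_lit 10) .nil)))))) (.g (nat_lit 1) (.e (nat_lit 140098) (nat_lit 0) .nil) .nil)))) (.nd (nat_lit 9) 
(.lf (nat_lit 488754) (.g (nat_lit 2540) (.e (nat_lit 16438) (nat_lit 9) (.e (nat_lit 426482) (nat_lit 27) (.e (nat_lit 336385) (nat_lit 27) (.e (nat_lit 426107) (nat_lit 1) (.e (nat_lit 164325) (nat_lit 230) (.e (nat_lit 163871) (nat_lit 2) (.e (nat_lit 196656) (nat_lit 11) .nil))))))) (.g (nat_lit 1) (.e (nat_lit 138870) (nat_lit 0) .nil) .nil))) 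
(.lf (nat_lit 489266) (.g (nat_lit 1883) (.e (nat_lit 16465) (nat_lit 13) (.e (nat_lit 483341) (nat_lit 9) (.e (nat_lit 426098) (nat_lit 1) (.e (nat_lit 164325) (nat_lit 230) (.e (nat_lit 163866) (nat_lit 2) (.e (nat_lit 196653) (nat_lit 11) .nil)))))) (.g (nat_lit 1) (.e (nat_lit 140525) (nat_lit 0) .nil) .nil))))) (.nd (nat_lit 8) (.nd (nat_lit 9) 
(.lf (nat_lit 488626) (.g (nat_lit 1691) (.e (nat_lit 16436) (nat_lit 9) (.e (nat_lit 426131) (nat_lit 3) (.e (nat_lit 204880) (nat_lit 32) (.e (nat_lit 385090) (nat_lit 49) .nil)))) (.g (nat_lit 0) (.e (nat_lit 138631) (nat_lit 0) .nil) .nil))) 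
(.lf (nat_lit 489138) (.g (nat_lit 3327) (.e (nat_lit 16463) (nat_lit 13) (.e (nat_lit 483341) (nat_lit 9) (.e (nat_lit 426098) (nat_lit 1) (.e (nat_lit 164325) (nat_lit 230) (.e (nat_lit 163871) (nat_lit 2) (.e (nat_lit 196654) (nat_lit 11) .nil)))))) (.g (nat_lit 1) (.e (nat_lit 140330) (nat_lit 0) .nil) .nil)))) (.nd (nat_lit 9) 
(.lf (nat_lit 488882) (.g (nat_lit 478) (.e (nat_lit 16448) (nat_lit 10) (.e (nat_lit 434231) (nat_lit 23) (.e (nat_lit 532482) (nat_lit 0) .nil))) (.g (nat_lit 0) (.e (nat_lit 139445) (nat_lit 0) .nil) .nil))) 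
(.lf (nat_lit 489394) (.g (nat_lit 2600) (.e (nat_lit 16466) (nat_lit 13) (.e (nat_lit 483341) (nat_lit 9) (.e (nat_lit 426100) (nat_lit 1) (.e (nat_lit 164331) (nat_lit 230) (.e (nat_lit 163866) (nat_lit 2) .nil))))) (.g (nat_lit 0) (.e (nat_lit 140691) (nat_lit 0) .nil) .nil)))))) (.nd (nat_lit 7) (.nd (nat_lit 8) (.nd (nat_lit 9) 
(.lf (nat_lit 488562) (.g (nat_lit 2019) (.e (nat_lit 16435) (nat_lit 9) (.e (nat_lit 426566) (nat_lit 34) (.e (nat_lit 393252) (nat_lit 18) (.e (nat_lit 164330) (nat_lit 230) (.e (nat_lit 163867) (nat_lit 2) (.e (nat_lit 196653) (nat_lit 11) .nil)))))) (.g (nat_lit 1) (.e (nat_lit 138506) (nat_lit 0) .nil) .nil))) 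
(.lf (nat_lit 489074) (.g (nat_lit 3732) (.e (nat_lit 16461) (nat_lit 12) (.e (nat_lit 475185) (nat_lit 29) (.e (nat_lit 557100) (nat_lit 13) (.e (nat_lit 172113) (nat_lit 10) (.e (nat_lit 434248) (nat_lit 28) (.e (nat_lit 573470) (nat_lit 11) .nil)))))) (.g (nat_lit 1) (.e (nat_lit 140188) (nat_lit 0) .nil) .nil)))) (.nd (nat_lit 9) 
(.lf (nat_lit 488818) (.g (nat_lit 3833) (.e (nat_lit 16438) (nat_lit 9) (.e (nat_lit 426530) (nat_lit 27) (.e (nat_lit 336390) (nat_lit 27) (.e (nat_lit 426098) (nat_lit 1) (.e (nat_lit 164327) (nat_lit 230) (.e (nat_lit 163868) (nat_lit 2) (.e (nat_lit 196656) (nat_lit 11) .nil))))))) (.g (nat_lit 1) (.e (nat_lit 138948) (nat_lit 0) .nil) .nil))) 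
(.lf (nat_lit 489330) (.g (nat_lit 4155) (.e (nat_lit 16465) (nat_lit 13) (.e (nat_lit 483341) (nat_lit 9) (.e (nat_lit 426108) (nat_lit 1) (.e (nat_lit 164332) (nat_lit 230) (.e (nat_lit 163869) (nat_lit 2) (.e (nat_lit 196653) (nat_lit 11) .nil)))))) (.g (nat_lit 1) (.e (nat_lit 140618) (nat_lit 0) .nil) .nil))))) (.nd (nat_lit 8) (.nd (nat_lit 9) 
(.lf (nat_lit 488690) (.g (nat_lit 2404) (.e (nat_lit 16437) (nat_lit 9) (.e (nat_lit 426481) (nat_lit 27) (.e (nat_lit 336389) (nat_lit 27) (.e (nat_lit 426098) (nat_lit 1) (.e (nat_lit 164327) (nat_lit 230) (.e (nat_lit 163868) (nat_lit 2) (.e (nat_lit 196654) (nat_lit 11) .nil))))))) (.g (nat_lit 1) (.e (nat_lit 138797) (nat_lit 0) .nil) .nil))) 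
(.lf (nat_lit 489202) (.g (nat_lit 3740) (.e (nat_lit 16463) (nat_lit 13) (.e (nat_lit 483341) (nat_lit 9) (.e (nat_lit 426107) (nat_lit 1) (.e (nat_lit 164325) (nat_lit 230) (.e (nat_lit 163868) (nat_lit 2) (.e (nat_lit 196654) (nat_lit 11) .nil)))))) (.g (nat_lit 1) (.e (nat_lit 140397) (nat_lit 0) .nil) .nil)))) (.nd (nat_lit 9) 
(.lf (nat_lit 488946) (.g (nat_lit 2774) (.e (nat_lit 16456) (nat_lit 12) (.e (nat_lit 475179) (nat_lit 24) (.e (nat_lit 516117) (nat_lit 1) (.e (nat_lit 164332) (nat_lit 230) (.e (nat_lit 163938) (nat_lit 18) .nil))))) (.g (nat_lit 0) (.e (nat_lit 140005) (nat_lit 0) .nil) .nil))) 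
(.lf (nat_lit 489458) (.g (nat_lit 3570) (.e (nat_lit 16466) (nat_lit 13) (.e (nat_lit 483411) (nat_lit 27) (.e (nat_lit 401444) (nat_lit 9) (.e (nat_lit 426163) (nat_lit 6) (.e (nat_lit 253991) (nat_lit 11) .nil))))) (.g (nat_lit 1) (.e (nat_lit 140756) (nat_lit 0) .nil) .nil))))))))) (.nd (nat_lit 4) (.nd (nat_lit 5) (.nd (nat_lit 6) (.nd (nat_lit 7) (.nd (nat_lit 8) (.nd (nat_lit 9) 
(.lf (nat_lit 488458) (.g (nat_lit 3256) (.e (nat_lit 16433) (nat_lit 9) (.e (nat_lit 426568) (nat_lit 34) (.e (nat_lit 393253) (nat_lit 18) (.e (nat_lit 164330) (nat_lit 230) (.e (nat_lit 163869) (nat_lit 2) (.e (nat_lit 196654) (nat_lit 11) .nil)))))) (.g (nat_lit 1) (.e (nat_lit 138394) (nat_lit 0) .nil) .nil))) 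
(.lf (nat_lit 488970) (.g (nat_lit 3466) (.e (nat_lit 16457) (nat_lit 12) (.e (nat_lit 475179) (nat_lit 24) (.e (nat_lit 516120) (nat_lit 1) (.e (nat_lit 164330) (nat_lit 230) (.e (nat_lit 163938) (nat_lit 18) .nil))))) (.g (nat_lit 0) (.e (nat_lit 140035) (nat_lit 0) .nil) .nil)))) (.nd (nat_lit 9) 
(.lf (nat_lit 488714) (.g (nat_lit 3298) (.e (nat_lit 16437) (nat_lit 9) (.e (nat_lit 426566) (nat_lit 34) (.e (nat_lit 393253) (nat_lit 18) (.e (nat_lit 164325) (nat_lit 230) (.e (nat_lit 163866) (nat_lit 2) (.e (nat_lit 196654) (nat_lit 11) .nil)))))) (.g (nat_lit 1) (.e (nat_lit 138822) (nat_lit 0) .nil) .nil))) 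
(.lf (nat_lit 489226) (.g (nat_lit 3980) (.e (nat_lit 16463) (nat_lit 13) (.e (nat_lit 483341) (nat_lit 9) (.e (nat_lit 426108) (nat_lit 1) (.e (nat_lit 164331) (nat_lit 230) (.e (nat_lit 163867) (nat_lit 2) (.e (nat_lit 196654) (nat_lit 11) .nil)))))) (.g (nat_lit 1) (.e (nat_lit 140424) (nat_lit 0) .nil) .nil))))) (.nd (nat_lit 8) (.nd (nat_lit 9) 
(.lf (nat_lit 488586) (.g (nat_lit 2764) (.e (nat_lit 16435) (nat_lit 9) (.e (nat_lit 426566) (nat_lit 34) (.e (nat_lit 393253) (nat_lit 18) (.e (nat_lit 164330) (nat_lit 230) (.e (nat_lit 163867) (nat_lit 2) (.e (nat_lit 196652) (nat_lit 11) .nil)))))) (.g (nat_lit 1) (.e (nat_lit 138530) (nat_lit 0) .nil) .nil))) 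
(.lf (nat_lit 489098) (.g (nat_lit 2241) (.e (nat_lit 16463) (nat_lit 13) (.e (nat_lit 483337) (nat_lit 9) (.e (nat_lit 426098) (nat_lit 1) (.e (nat_lit 164327) (nat_lit 230) (.e (nat_lit 163868) (nat_lit 2) (.e (nat_lit 196656) (nat_lit 11) .nil)))))) (.g (nat_lit 1) (.e (nat_lit 140285) (nat_lit 0) .nil) .nil)))) (.nd (nat_lit 9) 
(.lf (nat_lit 488842) (.g (nat_lit 2377) (.e (nat_lit 16442) (nat_lit 9) (.e (nat_lit 426499) (nat_lit 27) (.e (nat_lit 336231) (nat_lit 14) (.e (nat_lit 401444) (nat_lit 9) (.e (nat_lit 426163) (nat_lit 6) .nil))))) (.g (nat_lit 0) (.e (nat_lit 139041) (nat_lit 0) .nil) .nil))) 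
(.lf (nat_lit 489354) (.g (nat_lit 2743) (.e (nat_lit 16466) (nat_lit 13) (.e (nat_lit 483337) (nat_lit 9) (.e (nat_lit 426107) (nat_lit 1) (.e (nat_lit 164322) (nat_lit 230) (.e (nat_lit 163871) (nat_lit 2) (.e (nat_lit 196654) (nat_lit 11) .nil)))))) (.g (nat_lit 1) (.e (nat_lit 140651) (nat_lit 0) .nil) .nil)))))) (.nd (nat_lit 7) (.nd (nat_lit 8) (.nd (nat_lit 9) 
(.lf (nat_lit 488522) (.g (nat_lit 736) (.e (nat_lit 16434) (nat_lit 9) (.e (nat_lit 426568) (nat_lit 34) (.e (nat_lit 393253) (nat_lit 18) .nil))) (.g (nat_lit 0) (.e (nat_lit 138459) (nat_lit 0) .nil) .nil))) 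
(.lf (nat_lit 489034) (.g (nat_lit 2330) (.e (nat_lit 16460) (nat_lit 12) (.e (nat_lit 475179) (nat_lit 24) (.e (nat_lit 516117) (nat_lit 1) (.e (nat_lit 164330) (nat_lit 230) .nil)))) (.g (nat_lit 0) (.e (nat_lit 140130) (nat_lit 0) .nil) .nil)))) (.nd (nat_lit 9) 
(.lf (nat_lit 488778) (.g (nat_lit 2989) (.e (nat_lit 16438) (nat_lit 9) (.e (nat_lit 426482) (nat_lit 27) (.e (nat_lit 336389) (nat_lit 27) (.e (nat_lit 426100) (nat_lit 1) (.e (nat_lit 164332) (nat_lit 230) .nil))))) (.g (nat_lit 0) (.e (nat_lit 138901) (nat_lit 0) .nil) .nil))) 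
(.lf (nat_lit 489290) (.g (nat_lit 3767) (.e (nat_lit 16465) (nat_lit 13) (.e (nat_lit 483341) (nat_lit 9) (.e (nat_lit 426105) (nat_lit 1) (.e (nat_lit 164332) (nat_lit 230) (.e (nat_lit 163869) (nat_lit 2) (.e (nat_lit 196655) (nat_lit 11) .nil)))))) (.g (nat_lit 1) (.e (nat_lit 140565) (nat_lit 0) .nil) .nil))))) (.nd (nat_lit 8) (.nd (nat_lit 9) 
(.lf (nat_lit 488650) (.g (nat_lit 2162) (.e (nat_lit 16436) (nat_lit 9) (.e (nat_lit 426480) (nat_lit 27) (.e (nat_lit 336385) (nat_lit 27) (.e (nat_lit 426100) (nat_lit 1) (.e (nat_lit 164332) (nat_lit 230) (.e (nat_lit 163869) (nat_lit 2) (.e (nat_lit 196656) (nat_lit 11) .nil))))))) (.g (nat_lit 1) (.e (nat_lit 138698) (nat_lit 0) .nil) .nil))) 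
(.lf (nat_lit 489162) (.g (nat_lit 2582) (.e (nat_lit 16463) (nat_lit 13) (.e (nat_lit 483341) (nat_lit 9) (.e (nat_lit 426105) (nat_lit 1) (.e (nat_lit 164332) (nat_lit 230) (.e (nat_lit 163867) (nat_lit 2) (.e (nat_lit 196654) (nat_lit 11) .nil)))))) (.g (nat_lit 1) (.e (nat_lit 140354) (nat_lit 0) .nil) .nil)))) (.nd (nat_lit 9) 
(.lf (nat_lit 488906) (.g (nat_lit 1910) (.e (nat_lit 16449) (nat_lit 10) (.e (nat_lit 434212) (nat_lit 18) (.e (nat_lit 6425) (nat_lit 342) (.e (nat_lit 229412) (nat_lit 14) (.e (nat_lit 442436) (nat_lit 26) .nil))))) (.g (nat_lit 0) (.e (nat_lit 139589) (nat_lit 0) .nil) .nil))) 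
(.lf (nat_lit 489418) (.g (nat_lit 2906) (.e (nat_lit 16466) (nat_lit 13) (.e (nat_lit 483341) (nat_lit 9) (.e (nat_lit 426106) (nat_lit 1) (.e (nat_lit 164331) (nat_lit 230) (.e (nat_lit 163866) (nat_lit 2) (.e (nat_lit 196654) (nat_lit 11) .nil)))))) (.g (nat_lit 1) (.e (nat_lit 140715) (nat_lit 0) .nil) .nil))))))) (.nd (nat_lit 6) (.nd (nat_lit 7) (.nd (nat_lit 8) (.nd (nat_lit 9) 
(.lf (nat_lit 488490) (.g (nat_lit 1781) (.e (nat_lit 16434) (nat_lit 9) (.e (nat_lit 426566) (nat_lit 34) (.e (nat_lit 393253) (nat_lit 18) (.e (nat_lit 164324) (nat_lit 230) .nil)))) (.g (nat_lit 0) (.e (nat_lit 138427) (nat_lit 0) .nil) .nil))) 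
(.lf (nat_lit 489002) (.g (nat_lit 3460) (.e (nat_lit 16459) (nat_lit 12) (.e (nat_lit 475177) (nat_lit 24) (.e (nat_lit 516115) (nat_lit 1) (.e (nat_lit 164325) (nat_lit 230) (.e (nat_lit 163936) (nat_lit 18) .nil))))) (.g (nat_lit 0) (.e (nat_lit 140085) (nat_lit 0) .nil) .nil)))) (.nd (nat_lit 9) 
(.lf (nat_lit 488746) (.g (nat_lit 2395) (.e (nat_lit 16438) (nat_lit 9) (.e (nat_lit 426482) (nat_lit 27) (.e (nat_lit 336385) (nat_lit 27) (.e (nat_lit 426098) (nat_lit 1) (.e (nat_lit 164325) (nat_lit 230) (.e (nat_lit 163871) (nat_lit 2) (.e (nat_lit 196654) (nat_lit 11) .nil))))))) (.g (nat_lit 1) (.e (nat_lit 138861) (nat_lit 0) .nil) .nil))) 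
(.lf (nat_lit 489258) (.g (nat_lit 588) (.e (nat_lit 16465) (nat_lit 13) (.e (nat_lit 483337) (nat_lit 9) (.e (nat_lit 426098) (nat_lit 1) .nil))) (.g (nat_lit 0) (.e (nat_lit 140515) (nat_lit 0) .nil) .nil))))) (.nd (nat_lit 8) (.nd (nat_lit 9) 
(.lf (nat_lit 488618) (.g (nat_lit 3404) (.e (nat_lit 16436) (nat_lit 9) (.e (nat_lit 426131) (nat_lit 3) (.e (nat_lit 204854) (nat_lit 26) (.e (nat_lit 336336) (nat_lit 20) (.e (nat_lit 221210) (nat_lit 22) (.e (nat_lit 196656) (nat_lit 11) .nil)))))) (.g (nat_lit 1) (.e (nat_lit 138613) (nat_lit 0) .nil) .nil))) 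
(.lf (nat_lit 489130) (.g (nat_lit 3113) (.e (nat_lit 16463) (nat_lit 13) (.e (nat_lit 483340) (nat_lit 9) (.e (nat_lit 426100) (nat_lit 1) (.e (nat_lit 164332) (nat_lit 230) (.e (nat_lit 163867) (nat_lit 2) (.e (nat_lit 196656) (nat_lit 11) .nil)))))) (.g (nat_lit 1) (.e (nat_lit 140322) (nat_lit 0) .nil) .nil)))) (.nd (nat_lit 9) 
(.lf (nat_lit 488874) (.g (nat_lit 1955) (.e (nat_lit 24320) (nat_lit 9) (.e (nat_lit 426566) (nat_lit 34) (.e (nat_lit 393253) (nat_lit 18) (.e (nat_lit 164331) (nat_lit 230) .nil)))) (.g (nat_lit 0) (.e (nat_lit 139260) (nat_lit 0) .nil) .nil))) 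
(.lf (nat_lit 489386) (.g (nat_lit 3235) (.e (nat_lit 16466) (nat_lit 13) (.e (nat_lit 483341) (nat_lit 9) (.e (nat_lit 426098) (nat_lit 1) (.e (nat_lit 164331) (nat_lit 230) (.e (nat_lit 163867) (nat_lit 2) (.e (nat_lit 196654) (nat_lit 11) .nil)))))) (.g (nat_lit 1) (.e (nat_lit 140683) (nat_lit 0) .nil) .nil)))))) (.nd (nat_lit 7) (.nd (nat_lit 8) (.nd (nat_lit 9) 
(.lf (nat_lit 488554) (.g (nat_lit 3541) (.e (nat_lit 16435) (nat_lit 9) (.e (nat_lit 426566) (nat_lit 34) (.e (nat_lit 393251) (nat_lit 18) (.e (nat_lit 164331) (nat_lit 230) (.e (nat_lit 163867) (nat_lit 2) (.e (nat_lit 196654) (nat_lit 11) .nil)))))) (.g (nat_lit 1) (.e (nat_lit 138498) (nat_lit 0) .nil) .nil))) 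
(.lf (nat_lit 489066) (.g (nat_lit 1925) (.e (nat_lit 16461) (nat_lit 12) (.e (nat_lit 475184) (nat_lit 29) (.e (nat_lit 557100) (nat_lit 13) (.e (nat_lit 172113) (nat_lit 10) (.e (nat_lit 434245) (nat_lit 28) (.e (nat_lit 573471) (nat_lit 11) .nil)))))) (.g (nat_lit 1) (.e (nat_lit 140177) (nat_lit 0) .nil) .nil)))) (.nd (nat_lit 9) 
(.lf (nat_lit 488810) (.g (nat_lit 3905) (.e (nat_lit 16438) (nat_lit 9) (.e (nat_lit 426482) (nat_lit 27) (.e (nat_lit 336388) (nat_lit 27) (.e (nat_lit 426108) (nat_lit 1) (.e (nat_lit 164332) (nat_lit 230) (.e (nat_lit 163869) (nat_lit 2) (.e (nat_lit 196656) (nat_lit 11) .nil))))))) (.g (nat_lit 1) (.e (nat_lit 138940) (nat_lit 0) .nil) .nil))) 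
(.lf (nat_lit 489322) (.g (nat_lit 4080) (.e (nat_lit 16465) (nat_lit 13) (.e (nat_lit 483341) (nat_lit 9) (.e (nat_lit 426108) (nat_lit 1) (.e (nat_lit 164330) (nat_lit 230) (.e (nat_lit 163867) (nat_lit 2) (.e (nat_lit 196656) (nat_lit 11) .nil)))))) (.g (nat_lit 1) (.e (nat_lit 140606) (nat_lit 0) .nil) .nil))))) (.nd (nat_lit 8) (.nd (nat_lit 9) 
(.lf (nat_lit 488682) (.g (nat_lit 3431) (.e (nat_lit 16436) (nat_lit 9) (.e (nat_lit 426566) (nat_lit 34) (.e (nat_lit 393254) (nat_lit 18) (.e (nat_lit 164327) (nat_lit 230) (.e (nat_lit 163868) (nat_lit 2) (.e (nat_lit 196654) (nat_lit 11) .nil)))))) (.g (nat_lit 1) (.e (nat_lit 138744) (nat_lit 0) .nil) .nil))) 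
(.lf (nat_lit 489194) (.g (nat_lit 2408) (.e (nat_lit 16463) (nat_lit 13) (.e (nat_lit 483341) (nat_lit 9) (.e (nat_lit 426107) (nat_lit 1) (.e (nat_lit 164323) (nat_lit 230) .nil)))) (.g (nat_lit 0) (.e (nat_lit 140389) (nat_lit 0) .nil) .nil)))) (.nd (nat_lit 9) 
(.lf (nat_lit 488938) (.g (nat_lit 1309) (.e (nat_lit 16456) (nat_lit 12) (.e (nat_lit 475177) (nat_lit 24) (.e (nat_lit 516119) (nat_lit 1) (.e (nat_lit 164325) (nat_lit 230) .nil)))) (.g (nat_lit 0) (.e (nat_lit 139993) (nat_lit 0) .nil) .nil))) 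
(.lf (nat_lit 489450) (.g (nat_lit 3768) (.e (nat_lit 16466) (nat_lit 13) (.e (nat_lit 483346) (nat_lit 17) (.e (nat_lit 6718) (nat_lit 361) (.e (nat_lit 172076) (nat_lit 6) (.e (nat_lit 253991) (nat_lit 11) .nil))))) (.g (nat_lit 1) (.e (nat_lit 140747) (nat_lit 0) .nil) .nil)))))))) (.nd (nat_lit 5) (.nd (nat_lit 6) (.nd (nat_lit 7) (.nd (nat_lit 8) (.nd (nat_lit 9) 
(.lf (nat_lit 488474) (.g (nat_lit 1944) (.e (nat_lit 16434) (nat_lit 9) (.e (nat_lit 426566) (nat_lit 34) (.e (nat_lit 393251) (nat_lit 18) (.e (nat_lit 164331) (nat_lit 230) .nil)))) (.g (nat_lit 0) (.e (nat_lit 138411) (nat_lit 0) .nil) .nil))) 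
(.lf (nat_lit 488986) (.g (nat_lit 917) (.e (nat_lit 16458) (nat_lit 12) (.e (nat_lit 475179) (nat_lit 24) (.e (nat_lit 516119) (nat_lit 1) .nil))) (.g (nat_lit 0) (.e (nat_lit 140060) (nat_lit 0) .nil) .nil)))) (.nd (nat_lit 9) 
(.lf (nat_lit 488730) (.g (nat_lit 3738) (.e (nat_lit 16437) (nat_lit 9) (.e (nat_lit 426566) (nat_lit 34) (.e (nat_lit 393253) (nat_lit 18) (.e (nat_lit 164332) (nat_lit 230) (.e (nat_lit 163867) (nat_lit 2) (.e (nat_lit 196656) (nat_lit 11) .nil)))))) (.g (nat_lit 1) (.e (nat_lit 138838) (nat_lit 0) .nil) .nil))) 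
(.lf (nat_lit 489242) (.g (nat_lit 3286) (.e (nat_lit 16463) (nat_lit 13) (.e (nat_lit 483412) (nat_lit 27) (.e (nat_lit 401448) (nat_lit 10) (.e (nat_lit 434291) (nat_lit 44) (.e (nat_lit 704737) (nat_lit 11) .nil))))) (.g (nat_lit 1) (.e (nat_lit 140455) (nat_lit 0) .nil) .nil))))) (.nd (nat_lit 8) (.nd (nat_lit 9) 
(.lf (nat_lit 488602) (.g (nat_lit 3041) (.e (nat_lit 16436) (nat_lit 9) (.e (nat_lit 426131) (nat_lit 3) (.e (nat_lit 204851) (nat_lit 26) (.e (nat_lit 336334) (nat_lit 20) (.e (nat_lit 221210) (nat_lit 22) (.e (nat_lit 196654) (nat_lit 11) .nil)))))) (.g (nat_lit 1) (.e (nat_lit 138565) (nat_lit 0) .nil) .nil))) 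
(.lf (nat_lit 489114) (.g (nat_lit 2695) (.e (nat_lit 16463) (nat_lit 13) (.e (nat_lit 483337) (nat_lit 9) (.e (nat_lit 426107) (nat_lit 1) (.e (nat_lit 164324) (nat_lit 230) (.e (nat_lit 163869) (nat_lit 2) (.e (nat_lit 196654) (nat_lit 11) .nil)))))) (.g (nat_lit 1) (.e (nat_lit 140302) (nat_lit 0) .nil) .nil)))) (.nd (nat_lit 9) 
(.lf (nat_lit 488858) (.g (nat_lit 2628) (.e (nat_lit 16446) (nat_lit 9) (.e (nat_lit 426124) (nat_lit 2) (.e (nat_lit 196656) (nat_lit 11) (.e (nat_lit 16392) (nat_lit 0) (.e (nat_lit 3399) (nat_lit 211) (.e (nat_lit 647181) (nat_lit 3) (.e (nat_lit 171776) (nat_lit 189) .nil))))))) (.g (nat_lit 1) (.e (nat_lit 139197) (nat_lit 0) .nil) .nil))) 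
(.lf (nat_lit 489370) (.g (nat_lit 2543) (.e (nat_lit 16466) (nat_lit 13) (.e (nat_lit 483337) (nat_lit 9) (.e (nat_lit 426108) (nat_lit 1) (.e (nat_lit 164329) (nat_lit 230) (.e (nat_lit 163867) (nat_lit 2) (.e (nat_lit 196652) (nat_lit 11) .nil)))))) (.g (nat_lit 1) (.e (nat_lit 140667) (nat_lit 0) .nil) .nil)))))) (.nd (nat_lit 7) (.nd (nat_lit 8) (.nd (nat_lit 9) 
(.lf (nat_lit 488538) (.g (nat_lit 1837) (.e (nat_lit 16435) (nat_lit 9) (.e (nat_lit 426566) (nat_lit 34) (.e (nat_lit 393251) (nat_lit 18) (.e (nat_lit 164323) (nat_lit 230) .nil)))) (.g (nat_lit 0) (.e (nat_lit 138482) (nat_lit 0) .nil) .nil))) 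
(.lf (nat_lit 489050) (.g (nat_lit 3731) (.e (nat_lit 16461) (nat_lit 12) (.e (nat_lit 475179) (nat_lit 24) (.e (nat_lit 516115) (nat_lit 1) (.e (nat_lit 164325) (nat_lit 230) (.e (nat_lit 163939) (nat_lit 18) (.e (nat_lit 483072) (nat_lit 10) .nil)))))) (.g (nat_lit 1) (.e (nat_lit 140161) (nat_lit 0) .nil) .nil)))) (.nd (nat_lit 9) 
(.lf (nat_lit 488794) (.g (nat_lit 4123) (.e (nat_lit 16438) (nat_lit 9) (.e (nat_lit 426482) (nat_lit 27) (.e (nat_lit 336388) (nat_lit 27) (.e (nat_lit 426100) (nat_lit 1) (.e (nat_lit 164332) (nat_lit 230) (.e (nat_lit 163869) (nat_lit 2) (.e (nat_lit 196656) (nat_lit 11) .nil))))))) (.g (nat_lit 1) (.e (nat_lit 138919) (nat_lit 0) .nil) .nil))) 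
(.lf (nat_lit 489306) (.g (nat_lit 2034) (.e (nat_lit 16465) (nat_lit 13) (.e (nat_lit 483341) (nat_lit 9) (.e (nat_lit 426107) (nat_lit 1) (.e (nat_lit 164327) (nat_lit 230) (.e (nat_lit 163866) (nat_lit 2) (.e (nat_lit 196653) (nat_lit 11) .nil)))))) (.g (nat_lit 1) (.e (nat_lit 140584) (nat_lit 0) .nil) .nil))))) (.nd (nat_lit 8) (.nd (nat_lit 9) 
(.lf (nat_lit 488666) (.g (nat_lit 2450) (.e (nat_lit 16436) (nat_lit 9) (.e (nat_lit 426509) (nat_lit 27) (.e (nat_lit 336389) (nat_lit 27) (.e (nat_lit 426098) (nat_lit 1) (.e (nat_lit 164327) (nat_lit 230) (.e (nat_lit 163871) (nat_lit 2) (.e (nat_lit 196654) (nat_lit 11) .nil))))))) (.g (nat_lit 1) (.e (nat_lit 138718) (nat_lit 0) .nil) .nil))) 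
(.lf (nat_lit 489178) (.g (nat_lit 3118) (.e (nat_lit 16463) (nat_lit 13) (.e (nat_lit 483341) (nat_lit 9) (.e (nat_lit 426106) (nat_lit 1) (.e (nat_lit 164326) (nat_lit 230) (.e (nat_lit 163868) (nat_lit 2) (.e (nat_lit 196654) (nat_lit 11) .nil)))))) (.g (nat_lit 1) (.e (nat_lit 140371) (nat_lit 0) .nil) .nil)))) (.nd (nat_lit 9) 
(.lf (nat_lit 488922) (.g (nat_lit 2320) (.e (nat_lit 16455) (nat_lit 12) (.e (nat_lit 475179) (nat_lit 24) (.e (nat_lit 516117) (nat_lit 1) (.e (nat_lit 164330) (nat_lit 230) .nil)))) (.g (nat_lit 0) (.e (nat_lit 139969) (nat_lit 0) .nil) .nil))) 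
(.lf (nat_lit 489434) (.g (nat_lit 2493) (.e (nat_lit 16466) (nat_lit 13) (.e (nat_lit 483341) (nat_lit 9) (.e (nat_lit 426107) (nat_lit 1) (.e (nat_lit 164329) (nat_lit 230) .nil)))) (.g (nat_lit 0) (.e (nat_lit 140731) (nat_lit 0) .nil) .nil))))))) (.nd (nat_lit 6) (.nd (nat_lit 7) (.nd (nat_lit 8) (.nd (nat_lit 9) 
(.lf (nat_lit 488506) (.g (nat_lit 3986) (.e (nat_lit 16434) (nat_lit 9) (.e (nat_lit 426566) (nat_lit 34) (.e (nat_lit 393253) (nat_lit 18) (.e (nat_lit 164327) (nat_lit 230) (.e (nat_lit 163868) (nat_lit 2) (.e (nat_lit 196654) (nat_lit 11) .nil)))))) (.g (nat_lit 1) (.e (nat_lit 138443) (nat_lit 0) .nil) .nil))) 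
(.lf (nat_lit 489018) (.g (nat_lit 3297) (.e (nat_lit 16459) (nat_lit 12) (.e (nat_lit 475179) (nat_lit 24) (.e (nat_lit 516120) (nat_lit 1) (.e (nat_lit 164330) (nat_lit 230) (.e (nat_lit 163936) (nat_lit 18) (.e (nat_lit 483072) (nat_lit 10) .nil)))))) (.g (nat_lit 1) (.e (nat_lit 140106) (nat_lit 0) .nil) .nil)))) (.nd (nat_lit 9) 
(.lf (nat_lit 488762) (.g (nat_lit 3303) (.e (nat_lit 16438) (nat_lit 9) (.e (nat_lit 426482) (nat_lit 27) (.e (nat_lit 336385) (nat_lit 27) (.e (nat_lit 426108) (nat_lit 1) (.e (nat_lit 164332) (nat_lit 230) (.e (nat_lit 163869) (nat_lit 2) (.e (nat_lit 196656) (nat_lit 11) .nil))))))) (.g (nat_lit 1) (.e (nat_lit 138883) (nat_lit 0) .nil) .nil))) 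
(.lf (nat_lit 489274) (.g (nat_lit 3444) (.e (nat_lit 16465) (nat_lit 13) (.e (nat_lit 483341) (nat_lit 9) (.e (nat_lit 426098) (nat_lit 1) (.e (nat_lit 164331) (nat_lit 230) (.e (nat_lit 163867) (nat_lit 2) (.e (nat_lit 196656) (nat_lit 11) .nil)))))) (.g (nat_lit 1) (.e (nat_lit 140540) (nat_lit 0) .nil) .nil))))) (.nd (nat_lit 8) (.nd (nat_lit 9) 
(.lf (nat_lit 488634) (.g (nat_lit 1781) (.e (nat_lit 16436) (nat_lit 9) (.e (nat_lit 426131) (nat_lit 3) (.e (nat_lit 204881) (nat_lit 32) (.e (nat_lit 385109) (nat_lit 51) (.e (nat_lit 794667) (nat_lit 22) .nil))))) (.g (nat_lit 0) (.e (nat_lit 138654) (nat_lit 0) .nil) .nil))) 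
(.lf (nat_lit 489146) (.g (nat_lit 3194) (.e (nat_lit 16463) (nat_lit 13) (.e (nat_lit 483341) (nat_lit 9) (.e (nat_lit 426098) (nat_lit 1) (.e (nat_lit 164332) (nat_lit 230) (.e (nat_lit 163869) (nat_lit 2) (.e (nat_lit 196653) (nat_lit 11) .nil)))))) (.g (nat_lit 1) (.e (nat_lit 140338) (nat_lit 0) .nil) .nil)))) (.nd (nat_lit 9) 
(.lf (nat_lit 488890) (.g (nat_lit 4108) (.e (nat_lit 16448) (nat_lit 10) (.e (nat_lit 434231) (nat_lit 23) (.e (nat_lit 532529) (nat_lit 9) (.e (nat_lit 336336) (nat_lit 20) (.e (nat_lit 221212) (nat_lit 22) (.e (nat_lit 196656) (nat_lit 11) .nil)))))) (.g (nat_lit 1) (.e (nat_lit 139475) (nat_lit 0) .nil) .nil))) 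
(.lf (nat_lit 489402) (.g (nat_lit 3459) (.e (nat_lit 16466) (nat_lit 13) (.e (nat_lit 483341) (nat_lit 9) (.e (nat_lit 426106) (nat_lit 1) (.e (nat_lit 164322) (nat_lit 230) (.e (nat_lit 163871) (nat_lit 2) (.e (nat_lit 196656) (nat_lit 11) .nil)))))) (.g (nat_lit 1) (.e (nat_lit 140699) (nat_lit 0) .nil) .nil)))))) (.nd (nat_lit 7) (.nd (nat_lit 8) (.nd (nat_lit 9) 
(.lf (nat_lit 488570) (.g (nat_lit 3015) (.e (nat_lit 16435) (nat_lit 9) (.e (nat_lit 426566) (nat_lit 34) (.e (nat_lit 393253) (nat_lit 18) (.e (nat_lit 164324) (nat_lit 230) (.e (nat_lit 163869) (nat_lit 2) (.e (nat_lit 196654) (nat_lit 11) .nil)))))) (.g (nat_lit 1) (.e (nat_lit 138514) (nat_lit 0) .nil) .nil))) 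
(.lf (nat_lit 489082) (.g (nat_lit 1490) (.e (nat_lit 16462) (nat_lit 13) (.e (nat_lit 483383) (nat_lit 23) (.e (nat_lit 336000) (nat_lit 1) (.e (nat_lit 57848) (nat_lit 252) .nil)))) (.g (nat_lit 0) (.e (nat_lit 140245) (nat_lit 0) .nil) .nil)))) (.nd (nat_lit 9) 
(.lf (nat_lit 488826) (.g (nat_lit 2298) (.e (nat_lit 16439) (nat_lit 9) (.e (nat_lit 426501) (nat_lit 27) (.e (nat_lit 335894) (nat_lit 0) (.e (nat_lit 6722) (nat_lit 362) (.e (nat_lit 180271) (nat_lit 26) (.e (nat_lit 704738) (nat_lit 11) .nil)))))) (.g (nat_lit 1) (.e (nat_lit 138968) (nat_lit 0) .nil) .nil))) 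
(.lf (nat_lit 489338) (.g (nat_lit 2599) (.e (nat_lit 16466) (nat_lit 13) (.e (nat_lit 483336) (nat_lit 9) (.e (nat_lit 426107) (nat_lit 1) (.e (nat_lit 164325) (nat_lit 230) (.e (nat_lit 163866) (nat_lit 2) (.e (nat_lit 196654) (nat_lit 11) .nil)))))) (.g (nat_lit 1) (.e (nat_lit 140635) (nat_lit 0) .nil) .nil))))) (.nd (nat_lit 8) (.nd (nat_lit 9) 
(.lf (nat_lit 488698) (.g (nat_lit 2012) (.e (nat_lit 16437) (nat_lit 9) (.e (nat_lit 426566) (nat_lit 34) (.e (nat_lit 393251) (nat_lit 18) (.e (nat_lit 164331) (nat_lit 230) .nil)))) (.g (nat_lit 0) (.e (nat_lit 138806) (nat_lit 0) .nil) .nil))) 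
(.lf (nat_lit 489210) (.g (nat_lit 4160) (.e (nat_lit 16463) (nat_lit 13) (.e (nat_lit 483341) (nat_lit 9) (.e (nat_lit 426107) (nat_lit 1) (.e (nat_lit 164327) (nat_lit 230) (.e (nat_lit 163868) (nat_lit 2) (.e (nat_lit 196654) (nat_lit 11) .nil)))))) (.g (nat_lit 1) (.e (nat_lit 140407) (nat_lit 0) .nil) .nil)))) (.nd (nat_lit 9) 
(.lf (nat_lit 488954) (.g (nat_lit 3022) (.e (nat_lit 16456) (nat_lit 12) (.e (nat_lit 475183) (nat_lit 29) (.e (nat_lit 557100) (nat_lit 13) (.e (nat_lit 172113) (nat_lit 10) (.e (nat_lit 434245) (nat_lit 28) (.e (nat_lit 573471) (nat_lit 11) .nil)))))) (.g (nat_lit 1) (.e (nat_lit 140015) (nat_lit 0) .nil) .nil))) 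
(.lf (nat_lit 489466) (.g (nat_lit 1883) (.e (nat_lit 16466) (nat_lit 13) (.e (nat_lit 483413) (nat_lit 27) (.e (nat_lit 401447) (nat_lit 10) (.e (nat_lit 434291) (nat_lit 44) .nil)))) (.g (nat_lit 0) (.e (nat_lit 140764) (nat_lit 0) .nil) .nil)))))))))) (.nd (nat_lit 3) (.nd (nat_lit 4) (.nd (nat_lit 5) (.nd (nat_lit 6) (.nd (nat_lit 7) (.nd (nat_lit 8) (.nd (nat_lit 9) 
(.lf (nat_lit 488454) (.g (nat_lit 2881) (.e (nat_lit 16433) (nat_lit 9) (.e (nat_lit 426568) (nat_lit 34) (.e (nat_lit 393253) (nat_lit 18) (.e (nat_lit 164326) (nat_lit 230) (.e (nat_lit 163868) (nat_lit 2) (.e (nat_lit 196652) (nat_lit 11) .nil)))))) (.g (nat_lit 1) (.e (nat_lit 138390) (nat_lit 0) .nil) .nil))) 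
(.lf (nat_lit 488966) (.g (nat_lit 3745) (.e (nat_lit 16457) (nat_lit 12) (.e (nat_lit 475179) (nat_lit 24) (.e (nat_lit 516115) (nat_lit 1) (.e (nat_lit 164325) (nat_lit 230) (.e (nat_lit 163938) (nat_lit 18) .nil))))) (.g (nat_lit 0) (.e (nat_lit 140031) (nat_lit 0) .nil) .nil)))) (.nd (nat_lit 9) 
(.lf (nat_lit 488710) (.g (nat_lit 3848) (.e (nat_lit 16437) (nat_lit 9) (.e (nat_lit 426566) (nat_lit 34) (.e (nat_lit 393253) (nat_lit 18) (.e (nat_lit 164324) (nat_lit 230) (.e (nat_lit 163866) (nat_lit 2) .nil))))) (.g (nat_lit 0) (.e (nat_lit 138818) (nat_lit 0) .nil) .nil))) 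
(.lf (nat_lit 489222) (.g (nat_lit 3879) (.e (nat_lit 16463) (nat_lit 13) (.e (nat_lit 483341) (nat_lit 9) (.e (nat_lit 426108) (nat_lit 1) (.e (nat_lit 164330) (nat_lit 230) (.e (nat_lit 163866) (nat_lit 2) (.e (nat_lit 196654) (nat_lit 11) .nil)))))) (.g (nat_lit 1) (.e (nat_lit 140420) (nat_lit 0) .nil) .nil))))) (.nd (nat_lit 8) (.nd (nat_lit 9) 
(.lf (nat_lit 488582) (.g (nat_lit 2472) (.e (nat_lit 16435) (nat_lit 9) (.e (nat_lit 426566) (nat_lit 34) (.e (nat_lit 393253) (nat_lit 18) (.e (nat_lit 164327) (nat_lit 230) (.e (nat_lit 163869) (nat_lit 2) (.e (nat_lit 196654) (nat_lit 11) .nil)))))) (.g (nat_lit 1) (.e (nat_lit 138526) (nat_lit 0) .nil) .nil))) 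
(.lf (nat_lit 489094) (.g (nat_lit 3425) (.e (nat_lit 16463) (nat_lit 13) (.e (nat_lit 483336) (nat_lit 9) (.e (nat_lit 426107) (nat_lit 1) (.e (nat_lit 164327) (nat_lit 230) (.e (nat_lit 163871) (nat_lit 2) (.e (nat_lit 196654) (nat_lit 11) .nil)))))) (.g (nat_lit 1) (.e (nat_lit 140281) (nat_lit 0) .nil) .nil)))) (.nd (nat_lit 9) 
(.lf (nat_lit 488838) (.g (nat_lit 2252) (.e (nat_lit 16442) (nat_lit 9) (.e (nat_lit 426499) (nat_lit 27) (.e (nat_lit 335894) (nat_lit 0) (.e (nat_lit 6722) (nat_lit 362) (.e (nat_lit 180271) (nat_lit 26) .nil))))) (.g (nat_lit 0) (.e (nat_lit 139036) (nat_lit 0) .nil) .nil))) 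
(.lf (nat_lit 489350) (.g (nat_lit 3239) (.e (nat_lit 16466) (nat_lit 13) (.e (nat_lit 483337) (nat_lit 9) (.e (nat_lit 426107) (nat_lit 1) (.e (nat_lit 164322) (nat_lit 230) (.e (nat_lit 163867) (nat_lit 2) (.e (nat_lit 196654) (nat_lit 11) .nil)))))) (.g (nat_lit 1) (.e (nat_lit 140647) (nat_lit 0) .nil) .nil)))))) (.nd (nat_lit 7) (.nd (nat_lit 8) (.nd (nat_lit 9) 
(.lf (nat_lit 488518) (.g (nat_lit 3738) (.e (nat_lit 16434) (nat_lit 9) (.e (nat_lit 426566) (nat_lit 34) (.e (nat_lit 393253) (nat_lit 18) (.e (nat_lit 164332) (nat_lit 230) (.e (nat_lit 163867) (nat_lit 2) (.e (nat_lit 196654) (nat_lit 11) .nil)))))) (.g (nat_lit 1) (.e (nat_lit 138455) (nat_lit 0) .nil) .nil))) 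
(.lf (nat_lit 489030) (.g (nat_lit 3767) (.e (nat_lit 16459) (nat_lit 12) (.e (nat_lit 475185) (nat_lit 29) (.e (nat_lit 557100) (nat_lit 13) (.e (nat_lit 172113) (nat_lit 10) (.e (nat_lit 434248) (nat_lit 28) (.e (nat_lit 573470) (nat_lit 11) .nil)))))) (.g (nat_lit 1) (.e (nat_lit 140121) (nat_lit 0) .nil) .nil)))) (.nd (nat_lit 9) 
(.lf (nat_lit 488774) (.g (nat_lit 3926) (.e (nat_lit 16438) (nat_lit 9) (.e (nat_lit 426482) (nat_lit 27) (.e (nat_lit 336389) (nat_lit 27) (.e (nat_lit 426098) (nat_lit 1) (.e (nat_lit 164325) (nat_lit 230) (.e (nat_lit 163871) (nat_lit 2) (.e (nat_lit 196654) (nat_lit 11) .nil))))))) (.g (nat_lit 1) (.e (nat_lit 138897) (nat_lit 0) .nil) .nil))) 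
(.lf (nat_lit 489286) (.g (nat_lit 2945) (.e (nat_lit 16465) (nat_lit 13) (.e (nat_lit 483341) (nat_lit 9) (.e (nat_lit 426100) (nat_lit 1) (.e (nat_lit 164331) (nat_lit 230) (.e (nat_lit 163867) (nat_lit 2) (.e (nat_lit 196655) (nat_lit 11) .nil)))))) (.g (nat_lit 1) (.e (nat_lit 140559) (nat_lit 0) .nil) .nil))))) (.nd (nat_lit 8) (.nd (nat_lit 9) 
(.lf (nat_lit 488646) (.g (nat_lit 2955) (.e (nat_lit 16436) (nat_lit 9) (.e (nat_lit 426478) (nat_lit 27) (.e (nat_lit 336388) (nat_lit 27) (.e (nat_lit 426100) (nat_lit 1) (.e (nat_lit 164332) (nat_lit 230) (.e (nat_lit 163869) (nat_lit 2) (.e (nat_lit 196656) (nat_lit 11) .nil))))))) (.g (nat_lit 1) (.e (nat_lit 138692) (nat_lit 0) .nil) .nil))) 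
(.lf (nat_lit 489158) (.g (nat_lit 2090) (.e (nat_lit 16463) (nat_lit 13) (.e (nat_lit 483341) (nat_lit 9) (.e (nat_lit 426105) (nat_lit 1) (.e (nat_lit 164325) (nat_lit 230) (.e (nat_lit 163868) (nat_lit 2) (.e (nat_lit 196654) (nat_lit 11) .nil)))))) (.g (nat_lit 1) (.e (nat_lit 140350) (nat_lit 0) .nil) .nil)))) (.nd (nat_lit 9) 
(.lf (nat_lit 488902) (.g (nat_lit 4798) (.e (nat_lit 16448) (nat_lit 10) (.e (nat_lit 434231) (nat_lit 23) (.e (nat_lit 532569) (nat_lit 16) (.e (nat_lit 401448) (nat_lit 10) (.e (nat_lit 434244) (nat_lit 28) (.e (nat_lit 573471) (nat_lit 11) .nil)))))) (.g (nat_lit 1) (.e (nat_lit 139502) (nat_lit 0) .nil) .nil))) 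
(.lf (nat_lit 489414) (.g (nat_lit 2540) (.e (nat_lit 16466) (nat_lit 13) (.e (nat_lit 483341) (nat_lit 9) (.e (nat_lit 426106) (nat_lit 1) (.e (nat_lit 164329) (nat_lit 230) (.e (nat_lit 163866) (nat_lit 2) (.e (nat_lit 196654) (nat_lit 11) .nil)))))) (.g (nat_lit 1) (.e (nat_lit 140711) (nat_lit 0) .nil) .nil))))))) (.nd (nat_lit 6) (.nd (nat_lit 7) (.nd (nat_lit 8) (.nd (nat_lit 9) 
(.lf (nat_lit 488486) (.g (nat_lit 3401) (.e (nat_lit 16434) (nat_lit 9) (.e (nat_lit 426566) (nat_lit 34) (.e (nat_lit 393252) (nat_lit 18) (.e (nat_lit 164332) (nat_lit 230) (.e (nat_lit 163869) (nat_lit 2) (.e (nat_lit 196656) (nat_lit 11) .nil)))))) (.g (nat_lit 1) (.e (nat_lit 138423) (nat_lit 0) .nil) .nil))) 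
(.lf (nat_lit 488998) (.g (nat_lit 1728) (.e (nat_lit 16458) (nat_lit 12) (.e (nat_lit 475185) (nat_lit 29) (.e (nat_lit 557098) (nat_lit 13) (.e (nat_lit 172105) (nat_lit 10) .nil)))) (.g (nat_lit 0) (.e (nat_lit 140074) (nat_lit 0) .nil) .nil)))) (.nd (nat_lit 9) 
(.lf (nat_lit 488742) (.g (nat_lit 3967) (.e (nat_lit 16438) (nat_lit 9) (.e (nat_lit 426482) (nat_lit 27) (.e (nat_lit 336385) (nat_lit 27) (.e (nat_lit 426098) (nat_lit 1) (.e (nat_lit 164325) (nat_lit 230) (.e (nat_lit 163866) (nat_lit 2) (.e (nat_lit 196654) (nat_lit 11) .nil))))))) (.g (nat_lit 1) (.e (nat_lit 138857) (nat_lit 0) .nil) .nil))) 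
(.lf (nat_lit 489254) (.g (nat_lit 1245) (.e (nat_lit 16464) (nat_lit 13) (.e (nat_lit 483341) (nat_lit 9) (.e (nat_lit 426107) (nat_lit 1) (.e (nat_lit 164327) (nat_lit 230) .nil)))) (.g (nat_lit 0) (.e (nat_lit 140495) (nat_lit 0) .nil) .nil))))) (.nd (nat_lit 8) (.nd (nat_lit 9) 
(.lf (nat_lit 488614) (.g (nat_lit 1359) (.e (nat_lit 16436) (nat_lit 9) (.e (nat_lit 426131) (nat_lit 3) (.e (nat_lit 204854) (nat_lit 26) (.e (nat_lit 336258) (nat_lit 15) .nil)))) (.g (nat_lit 0) (.e (nat_lit 138600) (nat_lit 0) .nil) .nil))) 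
(.lf (nat_lit 489126) (.g (nat_lit 3587) (.e (nat_lit 16463) (nat_lit 13) (.e (nat_lit 483337) (nat_lit 9) (.e (nat_lit 426108) (nat_lit 1) (.e (nat_lit 164332) (nat_lit 230) (.e (nat_lit 163869) (nat_lit 2) (.e (nat_lit 196653) (nat_lit 11) .nil)))))) (.g (nat_lit 1) (.e (nat_lit 140318) (nat_lit 0) .nil) .nil)))) (.nd (nat_lit 9) 
(.lf (nat_lit 488870) (.g (nat_lit 1705) (.e (nat_lit 24320) (nat_lit 9) (.e (nat_lit 426566) (nat_lit 34) (.e (nat_lit 393252) (nat_lit 18) (.e (nat_lit 164332) (nat_lit 230) (.e (nat_lit 163867) (nat_lit 2) .nil))))) (.g (nat_lit 0) (.e (nat_lit 139256) (nat_lit 0) .nil) .nil))) 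
(.lf (nat_lit 489382) (.g (nat_lit 3073) (.e (nat_lit 16466) (nat_lit 13) (.e (nat_lit 483341) (nat_lit 9) (.e (nat_lit 426098) (nat_lit 1) (.e (nat_lit 164325) (nat_lit 230) (.e (nat_lit 163866) (nat_lit 2) (.e (nat_lit 196654) (nat_lit 11) .nil)))))) (.g (nat_lit 1) (.e (nat_lit 140679) (nat_lit 0) .nil) .nil)))))) (.nd (nat_lit 7) (.nd (nat_lit 8) (.nd (nat_lit 9) 
(.lf (nat_lit 488550) (.g (nat_lit 4144) (.e (nat_lit 16435) (nat_lit 9) (.e (nat_lit 426566) (nat_lit 34) (.e (nat_lit 393251) (nat_lit 18) (.e (nat_lit 164327) (nat_lit 230) (.e (nat_lit 163871) (nat_lit 2) (.e (nat_lit 196656) (nat_lit 11) .nil)))))) (.g (nat_lit 1) (.e (nat_lit 138494) (nat_lit 0) .nil) .nil))) 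
(.lf (nat_lit 489062) (.g (nat_lit 2925) (.e (nat_lit 16461) (nat_lit 12) (.e (nat_lit 475183) (nat_lit 29) (.e (nat_lit 557100) (nat_lit 13) (.e (nat_lit 172113) (nat_lit 10) (.e (nat_lit 434245) (nat_lit 28) (.e (nat_lit 573470) (nat_lit 11) .nil)))))) (.g (nat_lit 1) (.e (nat_lit 140173) (nat_lit 0) .nil) .nil)))) (.nd (nat_lit 9) 
(.lf (nat_lit 488806) (.g (nat_lit 4120) (.e (nat_lit 16438) (nat_lit 9) (.e (nat_lit 426482) (nat_lit 27) (.e (nat_lit 336388) (nat_lit 27) (.e (nat_lit 426108) (nat_lit 1) (.e (nat_lit 164330) (nat_lit 230) (.e (nat_lit 163869) (nat_lit 2) (.e (nat_lit 196654) (nat_lit 11) .nil))))))) (.g (nat_lit 1) (.e (nat_lit 138934) (nat_lit 0) .nil) .nil))) 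
(.lf (nat_lit 489318) (.g (nat_lit 2239) (.e (nat_lit 16465) (nat_lit 13) (.e (nat_lit 483341) (nat_lit 9) (.e (nat_lit 426108) (nat_lit 1) (.e (nat_lit 164329) (nat_lit 230) (.e (nat_lit 163869) (nat_lit 2) .nil))))) (.g (nat_lit 0) (.e (nat_lit 140600) (nat_lit 0) .nil) .nil))))) (.nd (nat_lit 8) (.nd (nat_lit 9) 
(.lf (nat_lit 488678) (.g (nat_lit 2625) (.e (nat_lit 16436) (nat_lit 9) (.e (nat_lit 426566) (nat_lit 34) (.e (nat_lit 393253) (nat_lit 18) (.e (nat_lit 164327) (nat_lit 230) (.e (nat_lit 163871) (nat_lit 2) (.e (nat_lit 196656) (nat_lit 11) .nil)))))) (.g (nat_lit 1) (.e (nat_lit 138740) (nat_lit 0) .nil) .nil))) 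
(.lf (nat_lit 489190) (.g (nat_lit 3360) (.e (nat_lit 16463) (nat_lit 13) (.e (nat_lit 483341) (nat_lit 9) (.e (nat_lit 426106) (nat_lit 1) (.e (nat_lit 164332) (nat_lit 230) (.e (nat_lit 163867) (nat_lit 2) (.e (nat_lit 196654) (nat_lit 11) .nil)))))) (.g (nat_lit 1) (.e (nat_lit 140383) (nat_lit 0) .nil) .nil)))) (.nd (nat_lit 9) 
(.lf (nat_lit 488934) (.g (nat_lit 3629) (.e (nat_lit 16456) (nat_lit 12) (.e (nat_lit 475177) (nat_lit 24) (.e (nat_lit 516115) (nat_lit 1) (.e (nat_lit 164325) (nat_lit 230) (.e (nat_lit 163939) (nat_lit 18) .nil))))) (.g (nat_lit 0) (.e (nat_lit 139989) (nat_lit 0) .nil) .nil))) 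
(.lf (nat_lit 489446) (.g (nat_lit 3497) (.e (nat_lit 16466) (nat_lit 13) (.e (nat_lit 483341) (nat_lit 9) (.e (nat_lit 426108) (nat_lit 1) (.e (nat_lit 164332) (nat_lit 230) (.e (nat_lit 163866) (nat_lit 2) (.e (nat_lit 196654) (nat_lit 11) .nil)))))) (.g (nat_lit 1) (.e (nat_lit 140743) (nat_lit 0) .nil) .nil)))))))) 
(.nd (nat_lit 5) (.nd (nat_lit 6) (.nd (nat_lit 7) (.nd (nat_lit 8) (.nd (nat_lit 9) 
(.lf (nat_lit 488470) (.g (nat_lit 3149) (.e (nat_lit 16434) (nat_lit 9) (.e (nat_lit 426566) (nat_lit 34) (.e (nat_lit 393251) (nat_lit 18) (.e (nat_lit 164325) (nat_lit 230) (.e (nat_lit 163871) (nat_lit 2) (.e (nat_lit 196654) (nat_lit 11) .nil)))))) (.g (nat_lit 1) (.e (nat_lit 138407) (nat_lit 0) .nil) .nil))) 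
(.lf (nat_lit 488982) (.g (nat_lit 858) (.e (nat_lit 16458) (nat_lit 12) (.e (nat_lit 475181) (nat_lit 27) (.e (nat_lit 540703) (nat_lit 11) (.e (nat_lit 352265) (nat_lit 0) (.e (nat_lit 7936) (nat_lit 404) .nil))))) (.g (nat_lit 1) (.e (nat_lit 140052) (nat_lit 0) .nil) .nil)))) (.nd (nat_lit 9) 
(.lf (nat_lit 488726) (.g (nat_lit 3543) (.e (nat_lit 16437) (nat_lit 9) (.e (nat_lit 426566) (nat_lit 34) (.e (nat_lit 393253) (nat_lit 18) (.e (nat_lit 164331) (nat_lit 230) (.e (nat_lit 163866) (nat_lit 2) (.e (nat_lit 196654) (nat_lit 11) .nil)))))) (.g (nat_lit 1) (.e (nat_lit 138834) (nat_lit 0) .nil) .nil))) 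
(.lf (nat_lit 489238) (.g (nat_lit 1473) (.e (nat_lit 16463) (nat_lit 13) (.e (nat_lit 483411) (nat_lit 27) (.e (nat_lit 401446) (nat_lit 10) (.e (nat_lit 434292) (nat_lit 44) .nil)))) (.g (nat_lit 0) (.e (nat_lit 140444) (nat_lit 0) .nil) .nil))))) (.nd (nat_lit 8) (.nd (nat_lit 9) 
(.lf (nat_lit 488598) (.g (nat_lit 3612) (.e (nat_lit 16435) (nat_lit 9) (.e (nat_lit 426566) (nat_lit 34) (.e (nat_lit 393253) (nat_lit 18) (.e (nat_lit 164332) (nat_lit 230) (.e (nat_lit 163867) (nat_lit 2) (.e (nat_lit 196654) (nat_lit 11) .nil)))))) (.g (nat_lit 1) (.e (nat_lit 138542) (nat_lit 0) .nil) .nil))) 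
(.lf (nat_lit 489110) (.g (nat_lit 2654) (.e (nat_lit 16463) (nat_lit 13) (.e (nat_lit 483337) (nat_lit 9) (.e (nat_lit 426107) (nat_lit 1) (.e (nat_lit 164324) (nat_lit 230) (.e (nat_lit 163866) (nat_lit 2) (.e (nat_lit 196654) (nat_lit 11) .nil)))))) (.g (nat_lit 1) (.e (nat_lit 140298) (nat_lit 0) .nil) .nil)))) (.nd (nat_lit 9) 
(.lf (nat_lit 488854) (.g (nat_lit 3602) (.e (nat_lit 16446) (nat_lit 9) (.e (nat_lit 426116) (nat_lit 2) (.e (nat_lit 196656) (nat_lit 11) (.e (nat_lit 16392) (nat_lit 0) (.e (nat_lit 3397) (nat_lit 211) (.e (nat_lit 647181) (nat_lit 3) (.e (nat_lit 171776) (nat_lit 189) .nil))))))) (.g (nat_lit 1) (.e (nat_lit 139187) (nat_lit 0) .nil) .nil))) 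
(.lf (nat_lit 489366) (.g (nat_lit 4415) (.e (nat_lit 16466) (nat_lit 13) (.e (nat_lit 483337) (nat_lit 9) (.e (nat_lit 426107) (nat_lit 1) (.e (nat_lit 164327) (nat_lit 230) (.e (nat_lit 163871) (nat_lit 2) (.e (nat_lit 196654) (nat_lit 11) .nil)))))) (.g (nat_lit 1) (.e (nat_lit 140663) (nat_lit 0) .nil) .nil)))))) (.nd (nat_lit 7) (.nd (nat_lit 8) (.nd (nat_lit 9) 
(.lf (nat_lit 488534) (.g (nat_lit 1397) (.e (nat_lit 16435) (nat_lit 9) (.e (nat_lit 426504) (nat_lit 27) (.e (nat_lit 336387) (nat_lit 27) (.e (nat_lit 426107) (nat_lit 1) (.e (nat_lit 164326) (nat_lit 230) (.e (nat_lit 163868) (nat_lit 2) (.e (nat_lit 196655) (nat_lit 11) .nil))))))) (.g (nat_lit 1) (.e (nat_lit 138478) (nat_lit 0) .nil) .nil))) 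
(.lf (nat_lit 489046) (.g (nat_lit 2350) (.e (nat_lit 16461) (nat_lit 12) (.e (nat_lit 475177) (nat_lit 24) (.e (nat_lit 516120) (nat_lit 1) (.e (nat_lit 164330) (nat_lit 230) (.e (nat_lit 163938) (nat_lit 18) .nil))))) (.g (nat_lit 0) (.e (nat_lit 140153) (nat_lit 0) .nil) .nil)))) (.nd (nat_lit 9) 
(.lf (nat_lit 488790) (.g (nat_lit 3330) (.e (nat_lit 16438) (nat_lit 9) (.e (nat_lit 426482) (nat_lit 27) (.e (nat_lit 336388) (nat_lit 27) (.e (nat_lit 426098) (nat_lit 1) (.e (nat_lit 164325) (nat_lit 230) (.e (nat_lit 163871) (nat_lit 2) (.e (nat_lit 196656) (nat_lit 11) .nil))))))) (.g (nat_lit 1) (.e (nat_lit 138914) (nat_lit 0) .nil) .nil))) 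
(.lf (nat_lit 489302) (.g (nat_lit 2706) (.e (nat_lit 16465) (nat_lit 13) (.e (nat_lit 483341) (nat_lit 9) (.e (nat_lit 426107) (nat_lit 1) (.e (nat_lit 164325) (nat_lit 230) (.e (nat_lit 163869) (nat_lit 2) (.e (nat_lit 196653) (nat_lit 11) .nil)))))) (.g (nat_lit 1) (.e (nat_lit 140579) (nat_lit 0) .nil) .nil))))) (.nd (nat_lit 8) (.nd (nat_lit 9) 
(.lf (nat_lit 488662) (.g (nat_lit 2507) (.e (nat_lit 16436) (nat_lit 9) (.e (nat_lit 426486) (nat_lit 27) (.e (nat_lit 336418) (nat_lit 27) (.e (nat_lit 426098) (nat_lit 1) (.e (nat_lit 164327) (nat_lit 230) (.e (nat_lit 163871) (nat_lit 2) (.e (nat_lit 196654) (nat_lit 11) .nil))))))) (.g (nat_lit 1) (.e (nat_lit 138714) (nat_lit 0) .nil) .nil))) 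
(.lf (nat_lit 489174) (.g (nat_lit 3296) (.e (nat_lit 16463) (nat_lit 13) (.e (nat_lit 483341) (nat_lit 9) (.e (nat_lit 426106) (nat_lit 1) (.e (nat_lit 164325) (nat_lit 230) (.e (nat_lit 163869) (nat_lit 2) (.e (nat_lit 196654) (nat_lit 11) .nil)))))) (.g (nat_lit 1) (.e (nat_lit 140367) (nat_lit 0) .nil) .nil)))) (.nd (nat_lit 9) 
(.lf (nat_lit 488918) (.g (nat_lit 2292) (.e (nat_lit 16454) (nat_lit 11) (.e (nat_lit 458789) (nat_lit 23) (.e (nat_lit 532569) (nat_lit 16) (.e (nat_lit 401448) (nat_lit 10) (.e (nat_lit 434245) (nat_lit 28) .nil))))) (.g (nat_lit 0) (.e (nat_lit 139964) (nat_lit 0) .nil) .nil))) 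
(.lf (nat_lit 489430) (.g (nat_lit 1907) (.e (nat_lit 16466) (nat_lit 13) (.e (nat_lit 483341) (nat_lit 9) (.e (nat_lit 426107) (nat_lit 1) (.e (nat_lit 164326) (nat_lit 230) (.e (nat_lit 163870) (nat_lit 2) (.e (nat_lit 196652) (nat_lit 11) .nil)))))) (.g (nat_lit 1) (.e (nat_lit 140727) (nat_lit 0) .nil) .nil))))))) (.nd (nat_lit 6) (.nd (nat_lit 7) (.nd (nat_lit 8) (.nd (nat_lit 9) 
(.lf (nat_lit 488502) (.g (nat_lit 3663) (.e (nat_lit 16434) (nat_lit 9) (.e (nat_lit 426566) (nat_lit 34) (.e (nat_lit 393253) (nat_lit 18) (.e (nat_lit 164325) (nat_lit 230) (.e (nat_lit 163869) (nat_lit 2) (.e (nat_lit 196654) (nat_lit 11) .nil)))))) (.g (nat_lit 1) (.e (nat_lit 138439) (nat_lit 0) .nil) .nil))) 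
(.lf (nat_lit 489014) (.g (nat_lit 3728) (.e (nat_lit 16459) (nat_lit 12) (.e (nat_lit 475179) (nat_lit 24) (.e (nat_lit 516117) (nat_lit 1) (.e (nat_lit 164330) (nat_lit 230) (.e (nat_lit 163938) (nat_lit 18) .nil))))) (.g (nat_lit 0) (.e (nat_lit 140102) (nat_lit 0) .nil) .nil)))) (.nd (nat_lit 9) 
(.lf (nat_lit 488758) (.g (nat_lit 4035) (.e (nat_lit 16438) (nat_lit 9) (.e (nat_lit 426482) (nat_lit 27) (.e (nat_lit 336385) (nat_lit 27) (.e (nat_lit 426107) (nat_lit 1) (.e (nat_lit 164327) (nat_lit 230) (.e (nat_lit 163868) (nat_lit 2) (.e (nat_lit 196656) (nat_lit 11) .nil))))))) (.g (nat_lit 1) (.e (nat_lit 138876) (nat_lit 0) .nil) .nil))) 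
(.lf (nat_lit 489270) (.g (nat_lit 3088) (.e (nat_lit 16465) (nat_lit 13) (.e (nat_lit 483341) (nat_lit 9) (.e (nat_lit 426098) (nat_lit 1) (.e (nat_lit 164325) (nat_lit 230) (.e (nat_lit 163869) (nat_lit 2) (.e (nat_lit 196656) (nat_lit 11) .nil)))))) (.g (nat_lit 1) (.e (nat_lit 140532) (nat_lit 0) .nil) .nil))))) (.nd (nat_lit 8) (.nd (nat_lit 9) 
(.lf (nat_lit 488630) (.g (nat_lit 2186) (.e (nat_lit 16436) (nat_lit 9) (.e (nat_lit 426131) (nat_lit 3) (.e (nat_lit 204880) (nat_lit 32) (.e (nat_lit 385108) (nat_lit 51) (.e (nat_lit 794665) (nat_lit 22) (.e (nat_lit 196654) (nat_lit 11) .nil)))))) (.g (nat_lit 1) (.e (nat_lit 138641) (nat_lit 0) .nil) .nil))) 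
(.lf (nat_lit 489142) (.g (nat_lit 3534) (.e (nat_lit 16463) (nat_lit 13) (.e (nat_lit 483341) (nat_lit 9) (.e (nat_lit 426098) (nat_lit 1) (.e (nat_lit 164331) (nat_lit 230) (.e (nat_lit 163867) (nat_lit 2) (.e (nat_lit 196654) (nat_lit 11) .nil)))))) (.g (nat_lit 1) (.e (nat_lit 140334) (nat_lit 0) .nil) .nil)))) (.nd (nat_lit 9) 
(.lf (nat_lit 488886) (.g (nat_lit 1811) (.e (nat_lit 16448) (nat_lit 10) (.e (nat_lit 434231) (nat_lit 23) (.e (nat_lit 532529) (nat_lit 9) (.e (nat_lit 336334) (nat_lit 20) (.e (nat_lit 221211) (nat_lit 22) .nil))))) (.g (nat_lit 0) (.e (nat_lit 139457) (nat_lit 0) .nil) .nil))) 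
(.lf (nat_lit 489398) (.g (nat_lit 2359) (.e (nat_lit 16466) (nat_lit 13) (.e (nat_lit 483341) (nat_lit 9) (.e (nat_lit 426105) (nat_lit 1) (.e (nat_lit 164325) (nat_lit 230) (.e (nat_lit 163866) (nat_lit 2) (.e (nat_lit 196654) (nat_lit 11) .nil)))))) (.g (nat_lit 1) (.e (nat_lit 140695) (nat_lit 0) .nil) .nil)))))) (.nd (nat_lit 7) (.nd (nat_lit 8) (.nd (nat_lit 9) 
(.lf (nat_lit 488566) (.g (nat_lit 3639) (.e (nat_lit 16435) (nat_lit 9) (.e (nat_lit 426566) (nat_lit 34) (.e (nat_lit 393252) (nat_lit 18) (.e (nat_lit 164332) (nat_lit 230) (.e (nat_lit 163869) (nat_lit 2) (.e (nat_lit 196653) (nat_lit 11) .nil)))))) (.g (nat_lit 1) (.e (nat_lit 138510) (nat_lit 0) .nil) .nil))) 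
(.lf (nat_lit 489078) (.g (nat_lit 2142) (.e (nat_lit 16462) (nat_lit 13) (.e (nat_lit 483372) (nat_lit 21) (.e (nat_lit 319504) (nat_lit 10) (.e (nat_lit 4916) (nat_lit 287) .nil)))) (.g (nat_lit 0) (.e (nat_lit 140240) (nat_lit 0) .nil) .nil)))) (.nd (nat_lit 9) 
(.lf (nat_lit 488822) (.g (nat_lit 1651) (.e (nat_lit 16439) (nat_lit 9) (.e (nat_lit 426158) (nat_lit 6) (.e (nat_lit 253992) (nat_lit 11) (.e (nat_lit 16425) (nat_lit 7) (.e (nat_lit 417536) (nat_lit 3) (.e (nat_lit 49188) (nat_lit 11) .nil)))))) (.g (nat_lit 1) (.e (nat_lit 138963) (nat_lit 0) .nil) .nil))) 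
(.lf (nat_lit 489334) (.g (nat_lit 2627) (.e (nat_lit 16466) (nat_lit 13) (.e (nat_lit 483336) (nat_lit 9) (.e (nat_lit 426098) (nat_lit 1) (.e (nat_lit 164325) (nat_lit 230) (.e (nat_lit 163866) (nat_lit 2) (.e (nat_lit 196654) (nat_lit 11) .nil)))))) (.g (nat_lit 1) (.e (nat_lit 140631) (nat_lit 0) .nil) .nil))))) (.nd (nat_lit 8) (.nd (nat_lit 9) 
(.lf (nat_lit 488694) (.g (nat_lit 2875) (.e (nat_lit 16437) (nat_lit 9) (.e (nat_lit 426566) (nat_lit 34) (.e (nat_lit 393251) (nat_lit 18) (.e (nat_lit 164325) (nat_lit 230) (.e (nat_lit 163869) (nat_lit 2) (.e (nat_lit 196654) (nat_lit 11) .nil)))))) (.g (nat_lit 1) (.e (nat_lit 138802) (nat_lit 0) .nil) .nil))) 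
(.lf (nat_lit 489206) (.g (nat_lit 2211) (.e (nat_lit 16463) (nat_lit 13) (.e (nat_lit 483341) (nat_lit 9) (.e (nat_lit 426107) (nat_lit 1) (.e (nat_lit 164326) (nat_lit 230) (.e (nat_lit 163867) (nat_lit 2) (.e (nat_lit 196654) (nat_lit 11) .nil)))))) (.g (nat_lit 1) (.e (nat_lit 140401) (nat_lit 0) .nil) .nil)))) (.nd (nat_lit 9) 
(.lf (nat_lit 488950) (.g (nat_lit 3672) (.e (nat_lit 16456) (nat_lit 12) (.e (nat_lit 475179) (nat_lit 24) (.e (nat_lit 516120) (nat_lit 1) (.e (nat_lit 164330) (nat_lit 230) (.e (nat_lit 163936) (nat_lit 18) (.e (nat_lit 483072) (nat_lit 10) .nil)))))) (.g (nat_lit 1) (.e (nat_lit 140010) (nat_lit 0) .nil) .nil))) 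
(.lf (nat_lit 489462) (.g (nat_lit 2085) (.e (nat_lit 16466) (nat_lit 13) (.e (nat_lit 483412) (nat_lit 27) (.e (nat_lit 401448) (nat_lit 10) (.e (nat_lit 434291) (nat_lit 44) (.e (nat_lit 704737) (nat_lit 11) .nil))))) (.g (nat_lit 1) (.e (nat_lit 140760) (nat_lit 0) .nil) .nil))))))))) (.nd (nat_lit 4) (.nd (nat_lit 5) (.nd (nat_lit 6) (.nd (nat_lit 7) (.nd (nat_lit 8) (.nd (nat_lit 9) 
(.lf (nat_lit 488462) (.g (nat_lit 1061) (.e (nat_lit 16434) (nat_lit 9) (.e (nat_lit 426555) (nat_lit 32) (.e (nat_lit 376856) (nat_lit 21) .nil))) (.g (nat_lit 0) (.e (nat_lit 138399) (nat_lit 0) .nil) .nil))) 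
(.lf (nat_lit 488974) (.g (nat_lit 2693) (.e (nat_lit 16457) (nat_lit 12) (.e (nat_lit 475184) (nat_lit 29) (.e (nat_lit 557100) (nat_lit 13) (.e (nat_lit 172113) (nat_lit 10) (.e (nat_lit 434245) (nat_lit 28) .nil))))) (.g (nat_lit 0) (.e (nat_lit 140039) (nat_lit 0) .nil) .nil)))) (.nd (nat_lit 9) 
(.lf (nat_lit 488718) (.g (nat_lit 2149) (.e (nat_lit 16437) (nat_lit 9) (.e (nat_lit 426566) (nat_lit 34) (.e (nat_lit 393253) (nat_lit 18) (.e (nat_lit 164326) (nat_lit 230) .nil)))) (.g (nat_lit 0) (.e (nat_lit 138826) (nat_lit 0) .nil) .nil))) 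
(.lf (nat_lit 489230) (.g (nat_lit 2961) (.e (nat_lit 16463) (nat_lit 13) (.e (nat_lit 483341) (nat_lit 9) (.e (nat_lit 426108) (nat_lit 1) (.e (nat_lit 164332) (nat_lit 230) (.e (nat_lit 163869) (nat_lit 2) (.e (nat_lit 196653) (nat_lit 11) .nil)))))) (.g (nat_lit 1) (.e (nat_lit 140428) (nat_lit 0) .nil) .nil))))) (.nd (nat_lit 8) (.nd (nat_lit 9) 
(.lf (nat_lit 488590) (.g (nat_lit 3236) (.e (nat_lit 16435) (nat_lit 9) (.e (nat_lit 426566) (nat_lit 34) (.e (nat_lit 393253) (nat_lit 18) (.e (nat_lit 164331) (nat_lit 230) (.e (nat_lit 163866) (nat_lit 2) (.e (nat_lit 196654) (nat_lit 11) .nil)))))) (.g (nat_lit 1) (.e (nat_lit 138534) (nat_lit 0) .nil) .nil))) 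
(.lf (nat_lit 489102) (.g (nat_lit 3051) (.e (nat_lit 16463) (nat_lit 13) (.e (nat_lit 483337) (nat_lit 9) (.e (nat_lit 426107) (nat_lit 1) (.e (nat_lit 164322) (nat_lit 230) (.e (nat_lit 163866) (nat_lit 2) (.e (nat_lit 196654) (nat_lit 11) .nil)))))) (.g (nat_lit 1) (.e (nat_lit 140289) (nat_lit 0) .nil) .nil)))) (.nd (nat_lit 9) 
(.lf (nat_lit 488846) (.g (nat_lit 1918) (.e (nat_lit 16444) (nat_lit 9) (.e (nat_lit 426129) (nat_lit 3) (.e (nat_lit 204885) (nat_lit 33) (.e (nat_lit 401448) (nat_lit 10) (.e (nat_lit 434243) (nat_lit 28) (.e (nat_lit 573471) (nat_lit 11) .nil)))))) (.g (nat_lit 1) (.e (nat_lit 139108) (nat_lit 0) .nil) .nil))) 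
(.lf (nat_lit 489358) (.g (nat_lit 2425) (.e (nat_lit 16466) (nat_lit 13) (.e (nat_lit 483337) (nat_lit 9) (.e (nat_lit 426107) (nat_lit 1) (.e (nat_lit 164325) (nat_lit 230) (.e (nat_lit 163867) (nat_lit 2) (.e (nat_lit 196654) (nat_lit 11) .nil)))))) (.g (nat_lit 1) (.e (nat_lit 140655) (nat_lit 0) .nil) .nil)))))) (.nd (nat_lit 7) (.nd (nat_lit 8) (.nd (nat_lit 9) 
(.lf (nat_lit 488526) (.g (nat_lit 3263) (.e (nat_lit 16435) (nat_lit 9) (.e (nat_lit 426131) (nat_lit 3) (.e (nat_lit 204885) (nat_lit 33) (.e (nat_lit 401448) (nat_lit 10) (.e (nat_lit 434248) (nat_lit 28) (.e (nat_lit 573470) (nat_lit 11) .nil)))))) (.g (nat_lit 1) (.e (nat_lit 138468) (nat_lit 0) .nil) .nil))) 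
(.lf (nat_lit 489038) (.g (nat_lit 961) (.e (nat_lit 16460) (nat_lit 12) (.e (nat_lit 475198) (nat_lit 40) (.e (nat_lit 704595) (nat_lit 5) .nil))) (.g (nat_lit 0) (.e (nat_lit 140135) (nat_lit 0) .nil) .nil)))) (.nd (nat_lit 9) 
(.lf (nat_lit 488782) (.g (nat_lit 3254) (.e (nat_lit 16438) (nat_lit 9) (.e (nat_lit 426482) (nat_lit 27) (.e (nat_lit 336389) (nat_lit 27) (.e (nat_lit 426107) (nat_lit 1) (.e (nat_lit 164327) (nat_lit 230) (.e (nat_lit 163868) (nat_lit 2) (.e (nat_lit 196656) (nat_lit 11) .nil))))))) (.g (nat_lit 1) (.e (nat_lit 138905) (nat_lit 0) .nil) .nil))) 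
(.lf (nat_lit 489294) (.g (nat_lit 2011) (.e (nat_lit 16465) (nat_lit 13) (.e (nat_lit 483341) (nat_lit 9) (.e (nat_lit 426107) (nat_lit 1) (.e (nat_lit 164323) (nat_lit 230) .nil)))) (.g (nat_lit 0) (.e (nat_lit 140569) (nat_lit 0) .nil) .nil))))) (.nd (nat_lit 8) (.nd (nat_lit 9) 
(.lf (nat_lit 488654) (.g (nat_lit 3289) (.e (nat_lit 16436) (nat_lit 9) (.e (nat_lit 426482) (nat_lit 27) (.e (nat_lit 336389) (nat_lit 27) (.e (nat_lit 426098) (nat_lit 1) (.e (nat_lit 164325) (nat_lit 230) (.e (nat_lit 163871) (nat_lit 2) (.e (nat_lit 196656) (nat_lit 11) .nil))))))) (.g (nat_lit 1) (.e (nat_lit 138704) (nat_lit 0) .nil) .nil))) 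
(.lf (nat_lit 489166) (.g (nat_lit 3473) (.e (nat_lit 16463) (nat_lit 13) (.e (nat_lit 483341) (nat_lit 9) (.e (nat_lit 426106) (nat_lit 1) (.e (nat_lit 164322) (nat_lit 230) (.e (nat_lit 163868) (nat_lit 2) (.e (nat_lit 196654) (nat_lit 11) .nil)))))) (.g (nat_lit 1) (.e (nat_lit 140359) (nat_lit 0) .nil) .nil)))) (.nd (nat_lit 9) 
(.lf (nat_lit 488910) (.g (nat_lit 3095) (.e (nat_lit 16449) (nat_lit 10) (.e (nat_lit 434233) (nat_lit 23) (.e (nat_lit 532569) (nat_lit 16) (.e (nat_lit 401448) (nat_lit 10) (.e (nat_lit 434248) (nat_lit 28) (.e (nat_lit 573471) (nat_lit 11) .nil)))))) (.g (nat_lit 1) (.e (nat_lit 139610) (nat_lit 0) .nil) .nil))) 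
(.lf (nat_lit 489422) (.g (nat_lit 2427) (.e (nat_lit 16466) (nat_lit 13) (.e (nat_lit 483341) (nat_lit 9) (.e (nat_lit 426107) (nat_lit 1) (.e (nat_lit 164323) (nat_lit 230) .nil)))) (.g (nat_lit 0) (.e (nat_lit 140719) (nat_lit 0) .nil) .nil))))))) (.nd (nat_lit 6) (.nd (nat_lit 7) (.nd (nat_lit 8) (.nd (nat_lit 9) 
(.lf (nat_lit 488494) (.g (nat_lit 3854) (.e (nat_lit 16434) (nat_lit 9) (.e (nat_lit 426566) (nat_lit 34) (.e (nat_lit 393253) (nat_lit 18) (.e (nat_lit 164324) (nat_lit 230) (.e (nat_lit 163868) (nat_lit 2) (.e (nat_lit 196656) (nat_lit 11) .nil)))))) (.g (nat_lit 1) (.e (nat_lit 138431) (nat_lit 0) .nil) .nil))) 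
(.lf (nat_lit 489006) (.g (nat_lit 2279) (.e (nat_lit 16459) (nat_lit 12) (.e (nat_lit 475177) (nat_lit 24) (.e (nat_lit 516117) (nat_lit 1) (.e (nat_lit 164330) (nat_lit 230) (.e (nat_lit 163938) (nat_lit 18) (.e (nat_lit 483072) (nat_lit 10) .nil)))))) (.g (nat_lit 1) (.e (nat_lit 140089) (nat_lit 0) .nil) .nil)))) (.nd (nat_lit 9) 
(.lf (nat_lit 488750) (.g (nat_lit 3760) (.e (nat_lit 16438) (nat_lit 9) (.e (nat_lit 426482) (nat_lit 27) (.e (nat_lit 336385) (nat_lit 27) (.e (nat_lit 426098) (nat_lit 1) (.e (nat_lit 164327) (nat_lit 230) (.e (nat_lit 163871) (nat_lit 2) (.e (nat_lit 196654) (nat_lit 11) .nil))))))) (.g (nat_lit 1) (.e (nat_lit 138865) (nat_lit 0) .nil) .nil))) 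
(.lf (nat_lit 489262) (.g (nat_lit 1967) (.e (nat_lit 16465) (nat_lit 13) (.e (nat_lit 483341) (nat_lit 9) (.e (nat_lit 426053) (nat_lit 0) (.e (nat_lit 2478) (nat_lit 157) .nil)))) (.g (nat_lit 0) (.e (nat_lit 140521) (nat_lit 0) .nil) .nil))))) (.nd (nat_lit 8) (.nd (nat_lit 9) 
(.lf (nat_lit 488622) (.g (nat_lit 1465) (.e (nat_lit 16436) (nat_lit 9) (.e (nat_lit 426131) (nat_lit 3) (.e (nat_lit 204855) (nat_lit 26) (.e (nat_lit 343808) (nat_lit 20) .nil)))) (.g (nat_lit 0) (.e (nat_lit 138627) (nat_lit 0) .nil) .nil))) 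
(.lf (nat_lit 489134) (.g (nat_lit 3336) (.e (nat_lit 16463) (nat_lit 13) (.e (nat_lit 483341) (nat_lit 9) (.e (nat_lit 426098) (nat_lit 1) (.e (nat_lit 164325) (nat_lit 230) (.e (nat_lit 163866) (nat_lit 2) (.e (nat_lit 196654) (nat_lit 11) .nil)))))) (.g (nat_lit 1) (.e (nat_lit 140326) (nat_lit 0) .nil) .nil)))) (.nd (nat_lit 9) 
(.lf (nat_lit 488878) (.g (nat_lit 984) (.e (nat_lit 16447) (nat_lit 10) (.e (nat_lit 434231) (nat_lit 23) (.e (nat_lit 532569) (nat_lit 16) (.e (nat_lit 401448) (nat_lit 10) .nil)))) (.g (nat_lit 0) (.e (nat_lit 139370) (nat_lit 0) .nil) .nil))) 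
(.lf (nat_lit 489390) (.g (nat_lit 2932) (.e (nat_lit 16466) (nat_lit 13) (.e (nat_lit 483341) (nat_lit 9) (.e (nat_lit 426099) (nat_lit 1) (.e (nat_lit 164332) (nat_lit 230) (.e (nat_lit 163867) (nat_lit 2) (.e (nat_lit 196654) (nat_lit 11) .nil)))))) (.g (nat_lit 1) (.e (nat_lit 140687) (nat_lit 0) .nil) .nil)))))) (.nd (nat_lit 7) (.nd (nat_lit 8) (.nd (nat_lit 9) 
(.lf (nat_lit 488558) (.g (nat_lit 3133) (.e (nat_lit 16435) (nat_lit 9) (.e (nat_lit 426566) (nat_lit 34) (.e (nat_lit 393251) (nat_lit 18) (.e (nat_lit 164332) (nat_lit 230) (.e (nat_lit 163869) (nat_lit 2) (.e (nat_lit 196654) (nat_lit 11) .nil)))))) (.g (nat_lit 1) (.e (nat_lit 138502) (nat_lit 0) .nil) .nil))) 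
(.lf (nat_lit 489070) (.g (nat_lit 2073) (.e (nat_lit 16461) (nat_lit 12) (.e (nat_lit 475185) (nat_lit 29) (.e (nat_lit 557098) (nat_lit 13) (.e (nat_lit 172105) (nat_lit 10) (.e (nat_lit 434248) (nat_lit 28) (.e (nat_lit 573470) (nat_lit 11) .nil)))))) (.g (nat_lit 1) (.e (nat_lit 140184) (nat_lit 0) .nil) .nil)))) (.nd (nat_lit 9) 
(.lf (nat_lit 488814) (.g (nat_lit 2849) (.e (nat_lit 16438) (nat_lit 9) (.e (nat_lit 426482) (nat_lit 27) (.e (nat_lit 336412) (nat_lit 27) (.e (nat_lit 426098) (nat_lit 1) (.e (nat_lit 164327) (nat_lit 230) (.e (nat_lit 163868) (nat_lit 2) (.e (nat_lit 196654) (nat_lit 11) .nil))))))) (.g (nat_lit 1) (.e (nat_lit 138944) (nat_lit 0) .nil) .nil))) 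
(.lf (nat_lit 489326) (.g (nat_lit 4066) (.e (nat_lit 16465) (nat_lit 13) (.e (nat_lit 483341) (nat_lit 9) (.e (nat_lit 426108) (nat_lit 1) (.e (nat_lit 164331) (nat_lit 230) (.e (nat_lit 163867) (nat_lit 2) (.e (nat_lit 196656) (nat_lit 11) .nil)))))) (.g (nat_lit 1) (.e (nat_lit 140612) (nat_lit 0) .nil) .nil))))) (.nd (nat_lit 8) (.nd (nat_lit 9) 
(.lf (nat_lit 488686) (.g (nat_lit 2034) (.e (nat_lit 16436) (nat_lit 9) (.e (nat_lit 426567) (nat_lit 34) (.e (nat_lit 393251) (nat_lit 18) (.e (nat_lit 164327) (nat_lit 230) (.e (nat_lit 163871) (nat_lit 2) (.e (nat_lit 196654) (nat_lit 11) .nil)))))) (.g (nat_lit 1) (.e (nat_lit 138748) (nat_lit 0) .nil) .nil))) 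
(.lf (nat_lit 489198) (.g (nat_lit 3804) (.e (nat_lit 16463) (nat_lit 13) (.e (nat_lit 483341) (nat_lit 9) (.e (nat_lit 426107) (nat_lit 1) (.e (nat_lit 164324) (nat_lit 230) (.e (nat_lit 163869) (nat_lit 2) (.e (nat_lit 196654) (nat_lit 11) .nil)))))) (.g (nat_lit 1) (.e (nat_lit 140393) (nat_lit 0) .nil) .nil)))) (.nd (nat_lit 9) 
(.lf (nat_lit 488942) (.g (nat_lit 4350) (.e (nat_lit 16456) (nat_lit 12) (.e (nat_lit 475179) (nat_lit 24) (.e (nat_lit 516115) (nat_lit 1) (.e (nat_lit 164325) (nat_lit 230) (.e (nat_lit 163938) (nat_lit 18) (.e (nat_lit 483072) (nat_lit 10) .nil)))))) (.g (nat_lit 1) (.e (nat_lit 140001) (nat_lit 0) .nil) .nil))) 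
(.lf (nat_lit 489454) (.g (nat_lit 912) (.e (nat_lit 16466) (nat_lit 13) (.e (nat_lit 483372) (nat_lit 21) (.e (nat_lit 319527) (nat_lit 15) .nil))) (.g (nat_lit 0) (.e (nat_lit 140752) (nat_lit 0) .nil) .nil)))))))) (.nd (nat_lit 5) (.nd (nat_lit 6) (.nd (nat_lit 7) (.nd (nat_lit 8) (.nd (nat_lit 9) 
(.lf (nat_lit 488478) (.g (nat_lit 2963) (.e (nat_lit 16434) (nat_lit 9) (.e (nat_lit 426566) (nat_lit 34) (.e (nat_lit 393251) (nat_lit 18) (.e (nat_lit 164332) (nat_lit 230) (.e (nat_lit 163867) (nat_lit 2) (.e (nat_lit 196654) (nat_lit 11) .nil)))))) (.g (nat_lit 1) (.e (nat_lit 138415) (nat_lit 0) .nil) .nil))) 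
(.lf (nat_lit 488990) (.g (nat_lit 3327) (.e (nat_lit 16458) (nat_lit 12) (.e (nat_lit 475183) (nat_lit 29) (.e (nat_lit 557100) (nat_lit 13) (.e (nat_lit 172113) (nat_lit 10) (.e (nat_lit 434247) (nat_lit 28) (.e (nat_lit 573469) (nat_lit 11) .nil)))))) (.g (nat_lit 1) (.e (nat_lit 140065) (nat_lit 0) .nil) .nil)))) (.nd (nat_lit 9) 
(.lf (nat_lit 488734) (.g (nat_lit 803) (.e (nat_lit 16437) (nat_lit 9) (.e (nat_lit 426568) (nat_lit 34) (.e (nat_lit 393251) (nat_lit 18) .nil))) (.g (nat_lit 0) (.e (nat_lit 138843) (nat_lit 0) .nil) .nil))) 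
(.lf (nat_lit 489246) (.g (nat_lit 1696) (.e (nat_lit 16463) (nat_lit 13) (.e (nat_lit 483413) (nat_lit 27) (.e (nat_lit 401446) (nat_lit 10) (.e (nat_lit 442112) (nat_lit 44) .nil)))) (.g (nat_lit 0) (.e (nat_lit 140459) (nat_lit 0) .nil) .nil))))) (.nd (nat_lit 8) (.nd (nat_lit 9) 
(.lf (nat_lit 488606) (.g (nat_lit 3319) (.e (nat_lit 16436) (nat_lit 9) (.e (nat_lit 426131) (nat_lit 3) (.e (nat_lit 204852) (nat_lit 26) (.e (nat_lit 336334) (nat_lit 20) (.e (nat_lit 221210) (nat_lit 22) (.e (nat_lit 196654) (nat_lit 11) .nil)))))) (.g (nat_lit 1) (.e (nat_lit 138574) (nat_lit 0) .nil) .nil))) 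
(.lf (nat_lit 489118) (.g (nat_lit 4139) (.e (nat_lit 16463) (nat_lit 13) (.e (nat_lit 483337) (nat_lit 9) (.e (nat_lit 426107) (nat_lit 1) (.e (nat_lit 164326) (nat_lit 230) (.e (nat_lit 163870) (nat_lit 2) (.e (nat_lit 196653) (nat_lit 11) .nil)))))) (.g (nat_lit 1) (.e (nat_lit 140308) (nat_lit 0) .nil) .nil)))) (.nd (nat_lit 9) 
(.lf (nat_lit 488862) (.g (nat_lit 886) (.e (nat_lit 16446) (nat_lit 9) (.e (nat_lit 426139) (nat_lit 3) (.e (nat_lit 204815) (nat_lit 17) .nil))) (.g (nat_lit 0) (.e (nat_lit 139218) (nat_lit 0) .nil) .nil))) 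
(.lf (nat_lit 489374) (.g (nat_lit 3349) (.e (nat_lit 16466) (nat_lit 13) (.e (nat_lit 483340) (nat_lit 9) (.e (nat_lit 426098) (nat_lit 1) (.e (nat_lit 164325) (nat_lit 230) (.e (nat_lit 163866) (nat_lit 2) (.e (nat_lit 196654) (nat_lit 11) .nil)))))) (.g (nat_lit 1) (.e (nat_lit 140671) (nat_lit 0) .nil) .nil)))))) (.nd (nat_lit 7) (.nd (nat_lit 8) (.nd (nat_lit 9) 
(.lf (nat_lit 488542) (.g (nat_lit 2737) (.e (nat_lit 16435) (nat_lit 9) (.e (nat_lit 426566) (nat_lit 34) (.e (nat_lit 393251) (nat_lit 18) (.e (nat_lit 164325) (nat_lit 230) (.e (nat_lit 163867) (nat_lit 2) (.e (nat_lit 196654) (nat_lit 11) .nil)))))) (.g (nat_lit 1) (.e (nat_lit 138486) (nat_lit 0) .nil) .nil))) 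
(.lf (nat_lit 489054) (.g (nat_lit 2504) (.e (nat_lit 16461) (nat_lit 12) (.e (nat_lit 475179) (nat_lit 24) (.e (nat_lit 516119) (nat_lit 1) (.e (nat_lit 164325) (nat_lit 230) (.e (nat_lit 163936) (nat_lit 18) (.e (nat_lit 483072) (nat_lit 10) .nil)))))) (.g (nat_lit 1) (.e (nat_lit 140165) (nat_lit 0) .nil) .nil)))) (.nd (nat_lit 9) 
(.lf (nat_lit 488798) (.g (nat_lit 2341) (.e (nat_lit 16438) (nat_lit 9) (.e (nat_lit 426482) (nat_lit 27) (.e (nat_lit 336388) (nat_lit 27) (.e (nat_lit 426107) (nat_lit 1) (.e (nat_lit 164325) (nat_lit 230) (.e (nat_lit 163869) (nat_lit 2) (.e (nat_lit 196654) (nat_lit 11) .nil))))))) (.g (nat_lit 1) (.e (nat_lit 138923) (nat_lit 0) .nil) .nil))) 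
(.lf (nat_lit 489310) (.g (nat_lit 3734) (.e (nat_lit 16465) (nat_lit 13) (.e (nat_lit 483341) (nat_lit 9) (.e (nat_lit 426107) (nat_lit 1) (.e (nat_lit 164327) (nat_lit 230) (.e (nat_lit 163871) (nat_lit 2) (.e (nat_lit 196655) (nat_lit 11) .nil)))))) (.g (nat_lit 1) (.e (nat_lit 140591) (nat_lit 0) .nil) .nil))))) (.nd (nat_lit 8) (.nd (nat_lit 9) 
(.lf (nat_lit 488670) (.g (nat_lit 1140) (.e (nat_lit 16436) (nat_lit 9) (.e (nat_lit 426555) (nat_lit 32) (.e (nat_lit 376860) (nat_lit 21) (.e (nat_lit 57854) (nat_lit 252) .nil)))) (.g (nat_lit 0) (.e (nat_lit 138725) (nat_lit 0) .nil) .nil))) 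
(.lf (nat_lit 489182) (.g (nat_lit 3593) (.e (nat_lit 16463) (nat_lit 13) (.e (nat_lit 483341) (nat_lit 9) (.e (nat_lit 426106) (nat_lit 1) (.e (nat_lit 164327) (nat_lit 230) (.e (nat_lit 163868) (nat_lit 2) (.e (nat_lit 196654) (nat_lit 11) .nil)))))) (.g (nat_lit 1) (.e (nat_lit 140375) (nat_lit 0) .nil) .nil)))) (.nd (nat_lit 9) 
(.lf (nat_lit 488926) (.g (nat_lit 3268) (.e (nat_lit 16455) (nat_lit 12) (.e (nat_lit 475179) (nat_lit 24) (.e (nat_lit 516120) (nat_lit 1) (.e (nat_lit 164330) (nat_lit 230) (.e (nat_lit 163936) (nat_lit 18) .nil))))) (.g (nat_lit 0) (.e (nat_lit 139973) (nat_lit 0) .nil) .nil))) 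
(.lf (nat_lit 489438) (.g (nat_lit 2294) (.e (nat_lit 16466) (nat_lit 13) (.e (nat_lit 483341) (nat_lit 9) (.e (nat_lit 426108) (nat_lit 1) (.e (nat_lit 164329) (nat_lit 230) (.e (nat_lit 163867) (nat_lit 2) (.e (nat_lit 196652) (nat_lit 11) .nil)))))) (.g (nat_lit 1) (.e (nat_lit 140735) (nat_lit 0) .nil) .nil))))))) (.nd (nat_lit 6) (.nd (nat_lit 7) (.nd (nat_lit 8) (.nd (nat_lit 9) 
(.lf (nat_lit 488510) (.g (nat_lit 3125) (.e (nat_lit 16434) (nat_lit 9) (.e (nat_lit 426566) (nat_lit 34) (.e (nat_lit 393253) (nat_lit 18) (.e (nat_lit 164329) (nat_lit 230) (.e (nat_lit 163867) (nat_lit 2) (.e (nat_lit 196652) (nat_lit 11) .nil)))))) (.g (nat_lit 1) (.e (nat_lit 138447) (nat_lit 0) .nil) .nil))) 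
(.lf (nat_lit 489022) (.g (nat_lit 2978) (.e (nat_lit 16459) (nat_lit 12) (.e (nat_lit 475183) (nat_lit 29) (.e (nat_lit 557100) (nat_lit 13) (.e (nat_lit 172113) (nat_lit 10) (.e (nat_lit 434247) (nat_lit 28) (.e (nat_lit 573469) (nat_lit 11) .nil)))))) (.g (nat_lit 1) (.e (nat_lit 140111) (nat_lit 0) .nil) .nil)))) (.nd (nat_lit 9) 
(.lf (nat_lit 488766) (.g (nat_lit 2555) (.e (nat_lit 16438) (nat_lit 9) (.e (nat_lit 426482) (nat_lit 27) (.e (nat_lit 336386) (nat_lit 27) (.e (nat_lit 426098) (nat_lit 1) (.e (nat_lit 164327) (nat_lit 230) (.e (nat_lit 163868) (nat_lit 2) (.e (nat_lit 196656) (nat_lit 11) .nil))))))) (.g (nat_lit 1) (.e (nat_lit 138887) (nat_lit 0) .nil) .nil))) 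
(.lf (nat_lit 489278) (.g (nat_lit 3219) (.e (nat_lit 16465) (nat_lit 13) (.e (nat_lit 483341) (nat_lit 9) (.e (nat_lit 426098) (nat_lit 1) (.e (nat_lit 164332) (nat_lit 230) (.e (nat_lit 163869) (nat_lit 2) (.e (nat_lit 196653) (nat_lit 11) .nil)))))) (.g (nat_lit 1) (.e (nat_lit 140544) (nat_lit 0) .nil) .nil))))) (.nd (nat_lit 8) (.nd (nat_lit 9) 
(.lf (nat_lit 488638) (.g (nat_lit 1003) (.e (nat_lit 16436) (nat_lit 9) (.e (nat_lit 426131) (nat_lit 3) (.e (nat_lit 204882) (nat_lit 32) (.e (nat_lit 385108) (nat_lit 51) .nil)))) (.g (nat_lit 0) (.e (nat_lit 138662) (nat_lit 0) .nil) .nil))) 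
(.lf (nat_lit 489150) (.g (nat_lit 3577) (.e (nat_lit 16463) (nat_lit 13) (.e (nat_lit 483341) (nat_lit 9) (.e (nat_lit 426100) (nat_lit 1) (.e (nat_lit 164330) (nat_lit 230) (.e (nat_lit 163867) (nat_lit 2) (.e (nat_lit 196654) (nat_lit 11) .nil)))))) (.g (nat_lit 1) (.e (nat_lit 140342) (nat_lit 0) .nil) .nil)))) (.nd (nat_lit 9) 
(.lf (nat_lit 488894) (.g (nat_lit 2409) (.e (nat_lit 16448) (nat_lit 10) (.e (nat_lit 434231) (nat_lit 23) (.e (nat_lit 532563) (nat_lit 15) (.e (nat_lit 385107) (nat_lit 51) (.e (nat_lit 794665) (nat_lit 22) (.e (nat_lit 196656) (nat_lit 11) .nil)))))) (.g (nat_lit 1) (.e (nat_lit 139488) (nat_lit 0) .nil) .nil))) 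
(.lf (nat_lit 489406) (.g (nat_lit 2908) (.e (nat_lit 16466) (nat_lit 13) (.e (nat_lit 483341) (nat_lit 9) (.e (nat_lit 426106) (nat_lit 1) (.e (nat_lit 164325) (nat_lit 230) (.e (nat_lit 163866) (nat_lit 2) (.e (nat_lit 196654) (nat_lit 11) .nil)))))) (.g (nat_lit 1) (.e (nat_lit 140703) (nat_lit 0) .nil) .nil)))))) (.nd (nat_lit 7) (.nd (nat_lit 8) (.nd (nat_lit 9) 
(.lf (nat_lit 488574) (.g (nat_lit 2456) (.e (nat_lit 16435) (nat_lit 9) (.e (nat_lit 426566) (nat_lit 34) (.e (nat_lit 393253) (nat_lit 18) (.e (nat_lit 164325) (nat_lit 230) (.e (nat_lit 163868) (nat_lit 2) (.e (nat_lit 196652) (nat_lit 11) .nil)))))) (.g (nat_lit 1) (.e (nat_lit 138518) (nat_lit 0) .nil) .nil))) 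
(.lf (nat_lit 489086) (.g (nat_lit 1222) (.e (nat_lit 16462) (nat_lit 13) (.e (nat_lit 483413) (nat_lit 27) (.e (nat_lit 401432) (nat_lit 7) .nil))) (.g (nat_lit 0) (.e (nat_lit 140261) (nat_lit 0) .nil) .nil)))) (.nd (nat_lit 9) 
(.lf (nat_lit 488830) (.g (nat_lit 2554) (.e (nat_lit 16439) (nat_lit 9) (.e (nat_lit 426499) (nat_lit 27) (.e (nat_lit 336231) (nat_lit 14) (.e (nat_lit 401434) (nat_lit 9) (.e (nat_lit 426160) (nat_lit 6) .nil))))) (.g (nat_lit 0) (.e (nat_lit 138972) (nat_lit 0) .nil) .nil))) 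
(.lf (nat_lit 489342) (.g (nat_lit 2319) (.e (nat_lit 16466) (nat_lit 13) (.e (nat_lit 483336) (nat_lit 9) (.e (nat_lit 426108) (nat_lit 1) (.e (nat_lit 164332) (nat_lit 230) (.e (nat_lit 163867) (nat_lit 2) (.e (nat_lit 196656) (nat_lit 11) .nil)))))) (.g (nat_lit 1) (.e (nat_lit 140639) (nat_lit 0) .nil) .nil))))) (.nd (nat_lit 8) (.nd (nat_lit 9) 
(.lf (nat_lit 488702) (.g (nat_lit 3292) (.e (nat_lit 16437) (nat_lit 9) (.e (nat_lit 426566) (nat_lit 34) (.e (nat_lit 393251) (nat_lit 18) (.e (nat_lit 164332) (nat_lit 230) (.e (nat_lit 163869) (nat_lit 2) (.e (nat_lit 196654) (nat_lit 11) .nil)))))) (.g (nat_lit 1) (.e (nat_lit 138810) (nat_lit 0) .nil) .nil))) 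
(.lf (nat_lit 489214) (.g (nat_lit 2383) (.e (nat_lit 16463) (nat_lit 13) (.e (nat_lit 483341) (nat_lit 9) (.e (nat_lit 426107) (nat_lit 1) (.e (nat_lit 164329) (nat_lit 230) .nil)))) (.g (nat_lit 0) (.e (nat_lit 140411) (nat_lit 0) .nil) .nil)))) (.nd (nat_lit 9) 
(.lf (nat_lit 488958) (.g (nat_lit 2808) (.e (nat_lit 16456) (nat_lit 12) (.e (nat_lit 475184) (nat_lit 29) (.e (nat_lit 557100) (nat_lit 13) (.e (nat_lit 172113) (nat_lit 10) (.e (nat_lit 434245) (nat_lit 28) (.e (nat_lit 573471) (nat_lit 11) .nil)))))) (.g (nat_lit 1) (.e (nat_lit 140019) (nat_lit 0) .nil) .nil))) 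
(.lf (nat_lit 489470) (.g (nat_lit 1337) (.e (nat_lit 16468) (nat_lit 13) (.e (nat_lit 483341) (nat_lit 9) (.e (nat_lit 426106) (nat_lit 1) (.e (nat_lit 164326) (nat_lit 230) .nil)))) (.g (nat_lit 0) (.e (nat_lit 140927) (nat_lit 0) .nil) .nil)))))))))))) 
(.nd (nat_lit 1) (.nd (nat_lit 2) (.nd (nat_lit 3) (.nd (nat_lit 4) (.nd (nat_lit 5) 
(.nd (nat_lit 6) (.nd (nat_lit 7) (.nd (nat_lit 8) (.nd (nat_lit 9) 
(.lf (nat_lit 488449) (.g (nat_lit 3219) (.e (nat_lit 16433) (nat_lit 9) (.e (nat_lit 426568) (nat_lit 34) (.e (nat_lit 393253) (nat_lit 18) (.e (nat_lit 164324) (nat_lit 230) (.e (nat_lit 163867) (nat_lit 2) (.e (nat_lit 196654) (nat_lit 11) .nil)))))) (.g (nat_lit 1) (.e (nat_lit 138385) (nat_lit 0) .nil) .nil))) 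
(.lf (nat_lit 488961) (.g (nat_lit 4516) (.e (nat_lit 16456) (nat_lit 12) (.e (nat_lit 475185) (nat_lit 29) (.e (nat_lit 557100) (nat_lit 13) (.e (nat_lit 172113) (nat_lit 10) (.e (nat_lit 434247) (nat_lit 28) (.e (nat_lit 573469) (nat_lit 11) .nil)))))) (.g (nat_lit 1) (.e (nat_lit 140022) (nat_lit 0) .nil) .nil)))) (.nd (nat_lit 9) 
(.lf (nat_lit 488705) (.g (nat_lit 1927) (.e (nat_lit 16437) (nat_lit 9) (.e (nat_lit 426566) (nat_lit 34) (.e (nat_lit 393252) (nat_lit 18) (.e (nat_lit 164332) (nat_lit 230) (.e (nat_lit 163866) (nat_lit 2) .nil))))) (.g (nat_lit 0) (.e (nat_lit 138813) (nat_lit 0) .nil) .nil))) 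
(.lf (nat_lit 489217) (.g (nat_lit 3639) (.e (nat_lit 16463) (nat_lit 13) (.e (nat_lit 483341) (nat_lit 9) (.e (nat_lit 426107) (nat_lit 1) (.e (nat_lit 164331) (nat_lit 230) (.e (nat_lit 163867) (nat_lit 2) (.e (nat_lit 196654) (nat_lit 11) .nil)))))) (.g (nat_lit 1) (.e (nat_lit 140414) (nat_lit 0) .nil) .nil))))) (.nd (nat_lit 8) (.nd (nat_lit 9) 
(.lf (nat_lit 488577) (.g (nat_lit 3339) (.e (nat_lit 16435) (nat_lit 9) (.e (nat_lit 426566) (nat_lit 34) (.e (nat_lit 393253) (nat_lit 18) (.e (nat_lit 164325) (nat_lit 230) (.e (nat_lit 163871) (nat_lit 2) (.e (nat_lit 196654) (nat_lit 11) .nil)))))) (.g (nat_lit 1) (.e (nat_lit 138521) (nat_lit 0) .nil) .nil))) 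
(.lf (nat_lit 489089) (.g (nat_lit 355) (.e (nat_lit 16462) (nat_lit 13) (.e (nat_lit 483413) (nat_lit 27) (.e (nat_lit 401448) (nat_lit 10) .nil))) (.g (nat_lit 0) (.e (nat_lit 140271) (nat_lit 0) .nil) .nil)))) (.nd (nat_lit 9) 
(.lf (nat_lit 488833) (.g (nat_lit 3912) (.e (nat_lit 16439) (nat_lit 9) (.e (nat_lit 426499) (nat_lit 27) (.e (nat_lit 336232) (nat_lit 14) (.e (nat_lit 401444) (nat_lit 9) (.e (nat_lit 426163) (nat_lit 6) (.e (nat_lit 253992) (nat_lit 11) .nil)))))) (.g (nat_lit 1) (.e (nat_lit 138975) (nat_lit 0) .nil) .nil))) 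
(.lf (nat_lit 489345) (.g (nat_lit 2968) (.e (nat_lit 16466) (nat_lit 13) (.e (nat_lit 483337) (nat_lit 9) (.e (nat_lit 426098) (nat_lit 1) (.e (nat_lit 164327) (nat_lit 230) (.e (nat_lit 163868) (nat_lit 2) (.e (nat_lit 196654) (nat_lit 11) .nil)))))) (.g (nat_lit 1) (.e (nat_lit 140642) (nat_lit 0) .nil) .nil)))))) (.nd (nat_lit 7) (.nd (nat_lit 8) (.nd (nat_lit 9) 
(.lf (nat_lit 488513) (.g (nat_lit 2331) (.e (nat_lit 16434) (nat_lit 9) (.e (nat_lit 426566) (nat_lit 34) (.e (nat_lit 393253) (nat_lit 18) (.e (nat_lit 164330) (nat_lit 230) (.e (nat_lit 163869) (nat_lit 2) (.e (nat_lit 196653) (nat_lit 11) .nil)))))) (.g (nat_lit 1) (.e (nat_lit 138450) (nat_lit 0) .nil) .nil))) 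
(.lf (nat_lit 489025) (.g (nat_lit 2585) (.e (nat_lit 16459) (nat_lit 12) (.e (nat_lit 475184) (nat_lit 29) (.e (nat_lit 557100) (nat_lit 13) (.e (nat_lit 172113) (nat_lit 10) (.e (nat_lit 434245) (nat_lit 28) .nil))))) (.g (nat_lit 0) (.e (nat_lit 140114) (nat_lit 0) .nil) .nil)))) (.nd (nat_lit 9) 
(.lf (nat_lit 488769) (.g (nat_lit 2605) (.e (nat_lit 16438) (nat_lit 9) (.e (nat_lit 426482) (nat_lit 27) (.e (nat_lit 336386) (nat_lit 27) (.e (nat_lit 426100) (nat_lit 1) (.e (nat_lit 164332) (nat_lit 230) (.e (nat_lit 163869) (nat_lit 2) (.e (nat_lit 196656) (nat_lit 11) .nil))))))) (.g (nat_lit 1) (.e (nat_lit 138890) (nat_lit 0) .nil) .nil))) 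
(.lf (nat_lit 489281) (.g (nat_lit 2183) (.e (nat_lit 16465) (nat_lit 13) (.e (nat_lit 483341) (nat_lit 9) (.e (nat_lit 426100) (nat_lit 1) (.e (nat_lit 164329) (nat_lit 230) (.e (nat_lit 163867) (nat_lit 2) .nil))))) (.g (nat_lit 0) (.e (nat_lit 140549) (nat_lit 0) .nil) .nil))))) (.nd (nat_lit 8) (.nd (nat_lit 9) 
(.lf (nat_lit 488641) (.g (nat_lit 2739) (.e (nat_lit 16436) (nat_lit 9) (.e (nat_lit 426131) (nat_lit 3) (.e (nat_lit 204882) (nat_lit 32) (.e (nat_lit 385109) (nat_lit 51) (.e (nat_lit 794667) (nat_lit 22) (.e (nat_lit 196656) (nat_lit 11) .nil)))))) (.g (nat_lit 1) (.e (nat_lit 138671) (nat_lit 0) .nil) .nil))) 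
(.lf (nat_lit 489153) (.g (nat_lit 2852) (.e (nat_lit 16463) (nat_lit 13) (.e (nat_lit 483341) (nat_lit 9) (.e (nat_lit 426100) (nat_lit 1) (.e (nat_lit 164331) (nat_lit 230) (.e (nat_lit 163867) (nat_lit 2) (.e (nat_lit 196654) (nat_lit 11) .nil)))))) (.g (nat_lit 1) (.e (nat_lit 140345) (nat_lit 0) .nil) .nil)))) (.nd (nat_lit 9) 
(.lf (nat_lit 488897) (.g (nat_lit 2710) (.e (nat_lit 16448) (nat_lit 10) (.e (nat_lit 434231) (nat_lit 23) (.e (nat_lit 532563) (nat_lit 15) (.e (nat_lit 385109) (nat_lit 51) (.e (nat_lit 794642) (nat_lit 20) (.e (nat_lit 3130) (nat_lit 193) (.e (nat_lit 500048) (nat_lit 16) .nil))))))) (.g (nat_lit 1) (.e (nat_lit 139491) (nat_lit 0) .nil) .nil))) 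
(.lf (nat_lit 489409) (.g (nat_lit 2789) (.e (nat_lit 16466) (nat_lit 13) (.e (nat_lit 483341) (nat_lit 9) (.e (nat_lit 426106) (nat_lit 1) (.e (nat_lit 164325) (nat_lit 230) (.e (nat_lit 163871) (nat_lit 2) (.e (nat_lit 196654) (nat_lit 11) .nil)))))) (.g (nat_lit 1) (.e (nat_lit 140706) (nat_lit 0) .nil) .nil))))))) (.nd (nat_lit 6) (.nd (nat_lit 7) (.nd (nat_lit 8) (.nd (nat_lit 9) 
(.lf (nat_lit 488481) (.g (nat_lit 3138) (.e (nat_lit 16434) (nat_lit 9) (.e (nat_lit 426566) (nat_lit 34) (.e (nat_lit 393252) (nat_lit 18) (.e (nat_lit 164330) (nat_lit 230) (.e (nat_lit 163869) (nat_lit 2) (.e (nat_lit 196654) (nat_lit 11) .nil)))))) (.g (nat_lit 1) (.e (nat_lit 138418) (nat_lit 0) .nil) .nil))) 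
(.lf (nat_lit 488993) (.g (nat_lit 2810) (.e (nat_lit 16458) (nat_lit 12) (.e (nat_lit 475184) (nat_lit 29) (.e (nat_lit 557098) (nat_lit 13) (.e (nat_lit 172105) (nat_lit 10) (.e (nat_lit 434248) (nat_lit 28) (.e (nat_lit 573470) (nat_lit 11) .nil)))))) (.g (nat_lit 1) (.e (nat_lit 140068) (nat_lit 0) .nil) .nil)))) (.nd (nat_lit 9) 
(.lf (nat_lit 488737) (.g (nat_lit 1260) (.e (nat_lit 16438) (nat_lit 9) (.e (nat_lit 426131) (nat_lit 3) (.e (nat_lit 204880) (nat_lit 32) (.e (nat_lit 385109) (nat_lit 51) .nil)))) (.g (nat_lit 0) (.e (nat_lit 138846) (nat_lit 0) .nil) .nil))) 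
(.lf (nat_lit 489249) (.g (nat_lit 1522) (.e (nat_lit 16464) (nat_lit 13) (.e (nat_lit 483337) (nat_lit 9) (.e (nat_lit 426100) (nat_lit 1) (.e (nat_lit 164332) (nat_lit 230) .nil)))) (.g (nat_lit 0) (.e (nat_lit 140465) (nat_lit 0) .nil) .nil))))) (.nd (nat_lit 8) (.nd (nat_lit 9) 
(.lf (nat_lit 488609) (.g (nat_lit 2849) (.e (nat_lit 16436) (nat_lit 9) (.e (nat_lit 426131) (nat_lit 3) (.e (nat_lit 204852) (nat_lit 26) (.e (nat_lit 336336) (nat_lit 20) (.e (nat_lit 221211) (nat_lit 22) (.e (nat_lit 196654) (nat_lit 11) .nil)))))) (.g (nat_lit 1) (.e (nat_lit 138584) (nat_lit 0) .nil) .nil))) 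
(.lf (nat_lit 489121) (.g (nat_lit 2960) (.e (nat_lit 16463) (nat_lit 13) (.e (nat_lit 483337) (nat_lit 9) (.e (nat_lit 426107) (nat_lit 1) (.e (nat_lit 164327) (nat_lit 230) (.e (nat_lit 163871) (nat_lit 2) (.e (nat_lit 196656) (nat_lit 11) .nil)))))) (.g (nat_lit 1) (.e (nat_lit 140312) (nat_lit 0) .nil) .nil)))) (.nd (nat_lit 9) 
(.lf (nat_lit 488865) (.g (nat_lit 727) (.e (nat_lit 24320) (nat_lit 9) (.e (nat_lit 426124) (nat_lit 2) (.e (nat_lit 196677) (nat_lit 16) .nil))) (.g (nat_lit 0) (.e (nat_lit 139241) (nat_lit 0) .nil) .nil))) 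
(.lf (nat_lit 489377) (.g (nat_lit 2907) (.e (nat_lit 16466) (nat_lit 13) (.e (nat_lit 483340) (nat_lit 9) (.e (nat_lit 426107) (nat_lit 1) (.e (nat_lit 164325) (nat_lit 230) (.e (nat_lit 163866) (nat_lit 2) (.e (nat_lit 196654) (nat_lit 11) .nil)))))) (.g (nat_lit 1) (.e (nat_lit 140674) (nat_lit 0) .nil) .nil)))))) (.nd (nat_lit 7) (.nd (nat_lit 8) (.nd (nat_lit 9) 
(.lf (nat_lit 488545) (.g (nat_lit 3180) (.e (nat_lit 16435) (nat_lit 9) (.e (nat_lit 426566) (nat_lit 34) (.e (nat_lit 393251) (nat_lit 18) (.e (nat_lit 164325) (nat_lit 230) (.e (nat_lit 163869) (nat_lit 2) (.e (nat_lit 196653) (nat_lit 11) .nil)))))) (.g (nat_lit 1) (.e (nat_lit 138489) (nat_lit 0) .nil) .nil))) 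
(.lf (nat_lit 489057) (.g (nat_lit 3505) (.e (nat_lit 16461) (nat_lit 12) (.e (nat_lit 475179) (nat_lit 24) (.e (nat_lit 516120) (nat_lit 1) (.e (nat_lit 164330) (nat_lit 230) (.e (nat_lit 163938) (nat_lit 18) (.e (nat_lit 483072) (nat_lit 10) .nil)))))) (.g (nat_lit 1) (.e (nat_lit 140168) (nat_lit 0) .nil) .nil)))) (.nd (nat_lit 9) 
(.lf (nat_lit 488801) (.g (nat_lit 2671) (.e (nat_lit 16438) (nat_lit 9) (.e (nat_lit 426482) (nat_lit 27) (.e (nat_lit 336388) (nat_lit 27) (.e (nat_lit 426107) (nat_lit 1) (.e (nat_lit 164326) (nat_lit 230) (.e (nat_lit 163870) (nat_lit 2) (.e (nat_lit 196652) (nat_lit 11) .nil))))))) (.g (nat_lit 1) (.e (nat_lit 138927) (nat_lit 0) .nil) .nil))) 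
(.lf (nat_lit 489313) (.g (nat_lit 2306) (.e (nat_lit 16465) (nat_lit 13) (.e (nat_lit 483341) (nat_lit 9) (.e (nat_lit 426107) (nat_lit 1) (.e (nat_lit 164331) (nat_lit 230) .nil)))) (.g (nat_lit 0) (.e (nat_lit 140594) (nat_lit 0) .nil) .nil))))) (.nd (nat_lit 8) (.nd (nat_lit 9) 
(.lf (nat_lit 488673) (.g (nat_lit 3678) (.e (nat_lit 16436) (nat_lit 9) (.e (nat_lit 426566) (nat_lit 34) (.e (nat_lit 393251) (nat_lit 18) (.e (nat_lit 164327) (nat_lit 230) (.e (nat_lit 163871) (nat_lit 2) (.e (nat_lit 196654) (nat_lit 11) .nil)))))) (.g (nat_lit 1) (.e (nat_lit 138731) (nat_lit 0) .nil) .nil))) 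
(.lf (nat_lit 489185) (.g (nat_lit 2516) (.e (nat_lit 16463) (nat_lit 13) (.e (nat_lit 483341) (nat_lit 9) (.e (nat_lit 426106) (nat_lit 1) (.e (nat_lit 164330) (nat_lit 230) (.e (nat_lit 163866) (nat_lit 2) (.e (nat_lit 196654) (nat_lit 11) .nil)))))) (.g (nat_lit 1) (.e (nat_lit 140378) (nat_lit 0) .nil) .nil)))) (.nd (nat_lit 9) 
(.lf (nat_lit 488929) (.g (nat_lit 843) (.e (nat_lit 16455) (nat_lit 12) (.e (nat_lit 475185) (nat_lit 29) (.e (nat_lit 557093) (nat_lit 12) .nil))) (.g (nat_lit 0) (.e (nat_lit 139980) (nat_lit 0) .nil) .nil))) 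
(.lf (nat_lit 489441) (.g (nat_lit 2502) (.e (nat_lit 16466) (nat_lit 13) (.e (nat_lit 483341) (nat_lit 9) (.e (nat_lit 426108) (nat_lit 1) (.e (nat_lit 164330) (nat_lit 230) (.e (nat_lit 163867) (nat_lit 2) (.e (nat_lit 196656) (nat_lit 11) .nil)))))) (.g (nat_lit 1) (.e (nat_lit 140738) (nat_lit 0) .nil) .nil)))))))) 
(.nd (nat_lit 5) (.nd (nat_lit 6) (.nd (nat_lit 7) (.nd (nat_lit 8) (.nd (nat_lit 9) 
(.lf (nat_lit 488465) (.g (nat_lit 3139) (.e (nat_lit 16434) (nat_lit 9) (.e (nat_lit 426566) (nat_lit 34) (.e (nat_lit 393251) (nat_lit 18) (.e (nat_lit 164325) (nat_lit 230) (.e (nat_lit 163866) (nat_lit 2) (.e (nat_lit 196654) (nat_lit 11) .nil)))))) (.g (nat_lit 1) (.e (nat_lit 138402) (nat_lit 0) .nil) .nil))) 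
(.lf (nat_lit 488977) (.g (nat_lit 795) (.e (nat_lit 16458) (nat_lit 12) (.e (nat_lit 475181) (nat_lit 27) (.e (nat_lit 540703) (nat_lit 11) (.e (nat_lit 352256) (nat_lit 0) (.e (nat_lit 7936) (nat_lit 404) .nil))))) (.g (nat_lit 1) (.e (nat_lit 140047) (nat_lit 0) .nil) .nil)))) (.nd (nat_lit 9) 
(.lf (nat_lit 488721) (.g (nat_lit 3436) (.e (nat_lit 16437) (nat_lit 9) (.e (nat_lit 426566) (nat_lit 34) (.e (nat_lit 393253) (nat_lit 18) (.e (nat_lit 164327) (nat_lit 230) (.e (nat_lit 163871) (nat_lit 2) .nil))))) (.g (nat_lit 0) (.e (nat_lit 138829) (nat_lit 0) .nil) .nil))) 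
(.lf (nat_lit 489233) (.g (nat_lit 1092) (.e (nat_lit 16463) (nat_lit 13) (.e (nat_lit 483346) (nat_lit 17) (.e (nat_lit 6718) (nat_lit 361) (.e (nat_lit 172076) (nat_lit 6) .nil)))) (.g (nat_lit 0) (.e (nat_lit 140432) (nat_lit 0) .nil) .nil))))) (.nd (nat_lit 8) (.nd (nat_lit 9) 
(.lf (nat_lit 488593) (.g (nat_lit 3576) (.e (nat_lit 16435) (nat_lit 9) (.e (nat_lit 426566) (nat_lit 34) (.e (nat_lit 393253) (nat_lit 18) (.e (nat_lit 164331) (nat_lit 230) (.e (nat_lit 163867) (nat_lit 2) (.e (nat_lit 196654) (nat_lit 11) .nil)))))) (.g (nat_lit 1) (.e (nat_lit 138537) (nat_lit 0) .nil) .nil))) 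
(.lf (nat_lit 489105) (.g (nat_lit 3013) (.e (nat_lit 16463) (nat_lit 13) (.e (nat_lit 483337) (nat_lit 9) (.e (nat_lit 426107) (nat_lit 1) (.e (nat_lit 164322) (nat_lit 230) (.e (nat_lit 163868) (nat_lit 2) (.e (nat_lit 196654) (nat_lit 11) .nil)))))) (.g (nat_lit 1) (.e (nat_lit 140293) (nat_lit 0) .nil) .nil)))) (.nd (nat_lit 9) 
(.lf (nat_lit 488849) (.g (nat_lit 2885) (.e (nat_lit 16444) (nat_lit 9) (.e (nat_lit 426503) (nat_lit 27) (.e (nat_lit 336387) (nat_lit 27) (.e (nat_lit 426107) (nat_lit 1) (.e (nat_lit 164325) (nat_lit 230) (.e (nat_lit 163868) (nat_lit 2) (.e (nat_lit 196656) (nat_lit 11) .nil))))))) (.g (nat_lit 1) (.e (nat_lit 139115) (nat_lit 0) .nil) .nil))) 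
(.lf (nat_lit 489361) (.g (nat_lit 2753) (.e (nat_lit 16466) (nat_lit 13) (.e (nat_lit 483337) (nat_lit 9) (.e (nat_lit 426107) (nat_lit 1) (.e (nat_lit 164326) (nat_lit 230) (.e (nat_lit 163869) (nat_lit 2) (.e (nat_lit 196654) (nat_lit 11) .nil)))))) (.g (nat_lit 1) (.e (nat_lit 140658) (nat_lit 0) .nil) .nil)))))) (.nd (nat_lit 7) (.nd (nat_lit 8) (.nd (nat_lit 9) 
(.lf (nat_lit 488529) (.g (nat_lit 2409) (.e (nat_lit 16435) (nat_lit 9) (.e (nat_lit 426480) (nat_lit 27) (.e (nat_lit 336388) (nat_lit 27) (.e (nat_lit 426107) (nat_lit 1) (.e (nat_lit 164326) (nat_lit 230) (.e (nat_lit 163868) (nat_lit 2) (.e (nat_lit 196655) (nat_lit 11) .nil))))))) (.g (nat_lit 1) (.e (nat_lit 138473) (nat_lit 0) .nil) .nil))) 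
(.lf (nat_lit 489041) (.g (nat_lit 3754) (.e (nat_lit 16461) (nat_lit 12) (.e (nat_lit 475177) (nat_lit 24) (.e (nat_lit 516115) (nat_lit 1) (.e (nat_lit 164325) (nat_lit 230) (.e (nat_lit 163938) (nat_lit 18) .nil))))) (.g (nat_lit 0) (.e (nat_lit 140148) (nat_lit 0) .nil) .nil)))) (.nd (nat_lit 9) 
(.lf (nat_lit 488785) (.g (nat_lit 4017) (.e (nat_lit 16438) (nat_lit 9) (.e (nat_lit 426482) (nat_lit 27) (.e (nat_lit 336388) (nat_lit 27) (.e (nat_lit 426098) (nat_lit 1) (.e (nat_lit 164325) (nat_lit 230) (.e (nat_lit 163866) (nat_lit 2) (.e (nat_lit 196654) (nat_lit 11) .nil))))))) (.g (nat_lit 1) (.e (nat_lit 138909) (nat_lit 0) .nil) .nil))) 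
(.lf (nat_lit 489297) (.g (nat_lit 2681) (.e (nat_lit 16465) (nat_lit 13) (.e (nat_lit 483341) (nat_lit 9) (.e (nat_lit 426107) (nat_lit 1) (.e (nat_lit 164324) (nat_lit 230) (.e (nat_lit 163869) (nat_lit 2) .nil))))) (.g (nat_lit 0) (.e (nat_lit 140572) (nat_lit 0) .nil) .nil))))) (.nd (nat_lit 8) (.nd (nat_lit 9) 
(.lf (nat_lit 488657) (.g (nat_lit 3933) (.e (nat_lit 16436) (nat_lit 9) (.e (nat_lit 426482) (nat_lit 27) (.e (nat_lit 336389) (nat_lit 27) (.e (nat_lit 426098) (nat_lit 1) (.e (nat_lit 164327) (nat_lit 230) (.e (nat_lit 163871) (nat_lit 2) (.e (nat_lit 196654) (nat_lit 11) .nil))))))) (.g (nat_lit 1) (.e (nat_lit 138707) (nat_lit 0) .nil) .nil))) 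
(.lf (nat_lit 489169) (.g (nat_lit 3118) (.e (nat_lit 16463) (nat_lit 13) (.e (nat_lit 483341) (nat_lit 9) (.e (nat_lit 426106) (nat_lit 1) (.e (nat_lit 164324) (nat_lit 230) (.e (nat_lit 163867) (nat_lit 2) (.e (nat_lit 196654) (nat_lit 11) .nil)))))) (.g (nat_lit 1) (.e (nat_lit 140362) (nat_lit 0) .nil) .nil)))) (.nd (nat_lit 9) 
(.lf (nat_lit 488913) (.g (nat_lit 2133) (.e (nat_lit 16451) (nat_lit 11) (.e (nat_lit 458789) (nat_lit 23) (.e (nat_lit 532569) (nat_lit 16) (.e (nat_lit 401448) (nat_lit 10) (.e (nat_lit 434246) (nat_lit 28) (.e (nat_lit 573469) (nat_lit 11) .nil)))))) (.g (nat_lit 1) (.e (nat_lit 139766) (nat_lit 0) .nil) .nil))) 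
(.lf (nat_lit 489425) (.g (nat_lit 3384) (.e (nat_lit 16466) (nat_lit 13) (.e (nat_lit 483341) (nat_lit 9) (.e (nat_lit 426107) (nat_lit 1) (.e (nat_lit 164325) (nat_lit 230) (.e (nat_lit 163866) (nat_lit 2) (.e (nat_lit 196654) (nat_lit 11) .nil)))))) (.g (nat_lit 1) (.e (nat_lit 140722) (nat_lit 0) .nil) .nil))))))) (.nd (nat_lit 6) (.nd (nat_lit 7) (.nd (nat_lit 8) (.nd (nat_lit 9) 
(.lf (nat_lit 488497) (.g (nat_lit 3081) (.e (nat_lit 16434) (nat_lit 9) (.e (nat_lit 426566) (nat_lit 34) (.e (nat_lit 393253) (nat_lit 18) (.e (nat_lit 164324) (nat_lit 230) (.e (nat_lit 163871) (nat_lit 2) (.e (nat_lit 196656) (nat_lit 11) .nil)))))) (.g (nat_lit 1) (.e (nat_lit 138434) (nat_lit 0) .nil) .nil))) 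
(.lf (nat_lit 489009) (.g (nat_lit 3411) (.e (nat_lit 16459) (nat_lit 12) (.e (nat_lit 475179) (nat_lit 24) (.e (nat_lit 516115) (nat_lit 1) (.e (nat_lit 164325) (nat_lit 230) (.e (nat_lit 163936) (nat_lit 18) (.e (nat_lit 483072) (nat_lit 10) .nil)))))) (.g (nat_lit 1) (.e (nat_lit 140097) (nat_lit 0) .nil) .nil)))) (.nd (nat_lit 9) 
(.lf (nat_lit 488753) (.g (nat_lit 2549) (.e (nat_lit 16438) (nat_lit 9) (.e (nat_lit 426482) (nat_lit 27) (.e (nat_lit 336385) (nat_lit 27) (.e (nat_lit 426107) (nat_lit 1) (.e (nat_lit 164325) (nat_lit 230) (.e (nat_lit 163868) (nat_lit 2) (.e (nat_lit 196656) (nat_lit 11) .nil))))))) (.g (nat_lit 1) (.e (nat_lit 138869) (nat_lit 0) .nil) .nil))) 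
(.lf (nat_lit 489265) (.g (nat_lit 1982) (.e (nat_lit 16465) (nat_lit 13) (.e (nat_lit 483341) (nat_lit 9) (.e (nat_lit 426098) (nat_lit 1) (.e (nat_lit 164324) (nat_lit 230) .nil)))) (.g (nat_lit 0) (.e (nat_lit 140524) (nat_lit 0) .nil) .nil))))) (.nd (nat_lit 8) (.nd (nat_lit 9) 
(.lf (nat_lit 488625) (.g (nat_lit 365) (.e (nat_lit 16436) (nat_lit 9) (.e (nat_lit 426131) (nat_lit 3) (.e (nat_lit 204880) (nat_lit 32) .nil))) (.g (nat_lit 0) (.e (nat_lit 138630) (nat_lit 0) .nil) .nil))) 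
(.lf (nat_lit 489137) (.g (nat_lit 3518) (.e (nat_lit 16463) (nat_lit 13) (.e (nat_lit 483341) (nat_lit 9) (.e (nat_lit 426098) (nat_lit 1) (.e (nat_lit 164325) (nat_lit 230) (.e (nat_lit 163869) (nat_lit 2) (.e (nat_lit 196654) (nat_lit 11) .nil)))))) (.g (nat_lit 1) (.e (nat_lit 140329) (nat_lit 0) .nil) .nil)))) (.nd (nat_lit 9) 
(.lf (nat_lit 488881) (.g (nat_lit 1594) (.e (nat_lit 16448) (nat_lit 10) (.e (nat_lit 434209) (nat_lit 18) (.e (nat_lit 6425) (nat_lit 342) (.e (nat_lit 229412) (nat_lit 14) .nil)))) (.g (nat_lit 0) (.e (nat_lit 139430) (nat_lit 0) .nil) .nil))) 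
(.lf (nat_lit 489393) (.g (nat_lit 3474) (.e (nat_lit 16466) (nat_lit 13) (.e (nat_lit 483341) (nat_lit 9) (.e (nat_lit 426100) (nat_lit 1) (.e (nat_lit 164330) (nat_lit 230) (.e (nat_lit 163869) (nat_lit 2) (.e (nat_lit 196654) (nat_lit 11) .nil)))))) (.g (nat_lit 1) (.e (nat_lit 140690) (nat_lit 0) .nil) .nil)))))) (.nd (nat_lit 7) (.nd (nat_lit 8) (.nd (nat_lit 9) 
(.lf (nat_lit 488561) (.g (nat_lit 2476) (.e (nat_lit 16435) (nat_lit 9) (.e (nat_lit 426566) (nat_lit 34) (.e (nat_lit 393252) (nat_lit 18) (.e (nat_lit 164330) (nat_lit 230) (.e (nat_lit 163867) (nat_lit 2) (.e (nat_lit 196652) (nat_lit 11) .nil)))))) (.g (nat_lit 1) (.e (nat_lit 138505) (nat_lit 0) .nil) .nil))) 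
(.lf (nat_lit 489073) (.g (nat_lit 4257) (.e (nat_lit 16461) (nat_lit 12) (.e (nat_lit 475185) (nat_lit 29) (.e (nat_lit 557100) (nat_lit 13) (.e (nat_lit 172113) (nat_lit 10) (.e (nat_lit 434248) (nat_lit 28) (.e (nat_lit 573469) (nat_lit 11) .nil)))))) (.g (nat_lit 1) (.e (nat_lit 140187) (nat_lit 0) .nil) .nil)))) (.nd (nat_lit 9) 
(.lf (nat_lit 488817) (.g (nat_lit 4271) (.e (nat_lit 16438) (nat_lit 9) (.e (nat_lit 426530) (nat_lit 27) (.e (nat_lit 336390) (nat_lit 27) (.e (nat_lit 426098) (nat_lit 1) (.e (nat_lit 164325) (nat_lit 230) (.e (nat_lit 163866) (nat_lit 2) (.e (nat_lit 196654) (nat_lit 11) .nil))))))) (.g (nat_lit 1) (.e (nat_lit 138947) (nat_lit 0) .nil) .nil))) 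
(.lf (nat_lit 489329) (.g (nat_lit 3164) (.e (nat_lit 16465) (nat_lit 13) (.e (nat_lit 483341) (nat_lit 9) (.e (nat_lit 426108) (nat_lit 1) (.e (nat_lit 164332) (nat_lit 230) (.e (nat_lit 163867) (nat_lit 2) (.e (nat_lit 196653) (nat_lit 11) .nil)))))) (.g (nat_lit 1) (.e (nat_lit 140616) (nat_lit 0) .nil) .nil))))) (.nd (nat_lit 8) (.nd (nat_lit 9) 
(.lf (nat_lit 488689) (.g (nat_lit 2097) (.e (nat_lit 16437) (nat_lit 9) (.e (nat_lit 426480) (nat_lit 27) (.e (nat_lit 336389) (nat_lit 27) (.e (nat_lit 426098) (nat_lit 1) (.e (nat_lit 164327) (nat_lit 230) (.e (nat_lit 163871) (nat_lit 2) (.e (nat_lit 196654) (nat_lit 11) .nil))))))) (.g (nat_lit 1) (.e (nat_lit 138793) (nat_lit 0) .nil) .nil))) 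
(.lf (nat_lit 489201) (.g (nat_lit 2438) (.e (nat_lit 16463) (nat_lit 13) (.e (nat_lit 483341) (nat_lit 9) (.e (nat_lit 426107) (nat_lit 1) (.e (nat_lit 164325) (nat_lit 230) (.e (nat_lit 163867) (nat_lit 2) (.e (nat_lit 196654) (nat_lit 11) .nil)))))) (.g (nat_lit 1) (.e (nat_lit 140396) (nat_lit 0) .nil) .nil)))) (.nd (nat_lit 9) 
(.lf (nat_lit 488945) (.g (nat_lit 3960) (.e (nat_lit 16456) (nat_lit 12) (.e (nat_lit 475179) (nat_lit 24) (.e (nat_lit 516117) (nat_lit 1) (.e (nat_lit 164330) (nat_lit 230) (.e (nat_lit 163938) (nat_lit 18) .nil))))) (.g (nat_lit 0) (.e (nat_lit 140004) (nat_lit 0) .nil) .nil))) 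
(.lf (nat_lit 489457) (.g (nat_lit 3439) (.e (nat_lit 16466) (nat_lit 13) (.e (nat_lit 483410) (nat_lit 27) (.e (nat_lit 401444) (nat_lit 9) (.e (nat_lit 426163) (nat_lit 6) (.e (nat_lit 253992) (nat_lit 11) .nil))))) (.g (nat_lit 1) (.e (nat_lit 140755) (nat_lit 0) .nil) .nil))))))))) (.nd (nat_lit 4) (.nd (nat_lit 5) (.nd (nat_lit 6) (.nd (nat_lit 7) (.nd (nat_lit 8) (.nd (nat_lit 9) 
(.lf (nat_lit 488457) (.g (nat_lit 3068) (.e (nat_lit 16433) (nat_lit 9) (.e (nat_lit 426568) (nat_lit 34) (.e (nat_lit 393253) (nat_lit 18) (.e (nat_lit 164330) (nat_lit 230) (.e (nat_lit 163867) (nat_lit 2) (.e (nat_lit 196654) (nat_lit 11) .nil)))))) (.g (nat_lit 1) (.e (nat_lit 138393) (nat_lit 0) .nil) .nil))) 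
(.lf (nat_lit 488969) (.g (nat_lit 3275) (.e (nat_lit 16457) (nat_lit 12) (.e (nat_lit 475179) (nat_lit 24) (.e (nat_lit 516120) (nat_lit 1) (.e (nat_lit 164330) (nat_lit 230) (.e (nat_lit 163936) (nat_lit 18) .nil))))) (.g (nat_lit 0) (.e (nat_lit 140034) (nat_lit 0) .nil) .nil)))) (.nd (nat_lit 9) 
(.lf (nat_lit 488713) (.g (nat_lit 2598) (.e (nat_lit 16437) (nat_lit 9) (.e (nat_lit 426566) (nat_lit 34) (.e (nat_lit 393253) (nat_lit 18) (.e (nat_lit 164325) (nat_lit 230) .nil)))) (.g (nat_lit 0) (.e (nat_lit 138821) (nat_lit 0) .nil) .nil))) 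
(.lf (nat_lit 489225) (.g (nat_lit 3733) (.e (nat_lit 16463) (nat_lit 13) (.e (nat_lit 483341) (nat_lit 9) (.e (nat_lit 426108) (nat_lit 1) (.e (nat_lit 164331) (nat_lit 230) (.e (nat_lit 163866) (nat_lit 2) (.e (nat_lit 196654) (nat_lit 11) .nil)))))) (.g (nat_lit 1) (.e (nat_lit 140423) (nat_lit 0) .nil) .nil))))) (.nd (nat_lit 8) (.nd (nat_lit 9) 
(.lf (nat_lit 488585) (.g (nat_lit 1733) (.e (nat_lit 16435) (nat_lit 9) (.e (nat_lit 426566) (nat_lit 34) (.e (nat_lit 393253) (nat_lit 18) (.e (nat_lit 164330) (nat_lit 230) (.e (nat_lit 163866) (nat_lit 2) (.e (nat_lit 196653) (nat_lit 11) .nil)))))) (.g (nat_lit 1) (.e (nat_lit 138529) (nat_lit 0) .nil) .nil))) 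
(.lf (nat_lit 489097) (.g (nat_lit 2794) (.e (nat_lit 16463) (nat_lit 13) (.e (nat_lit 483336) (nat_lit 9) (.e (nat_lit 426108) (nat_lit 1) (.e (nat_lit 164332) (nat_lit 230) (.e (nat_lit 163869) (nat_lit 2) (.e (nat_lit 196654) (nat_lit 11) .nil)))))) (.g (nat_lit 1) (.e (nat_lit 140284) (nat_lit 0) .nil) .nil)))) (.nd (nat_lit 9) 
(.lf (nat_lit 488841) (.g (nat_lit 3526) (.e (nat_lit 16442) (nat_lit 9) (.e (nat_lit 426499) (nat_lit 27) (.e (nat_lit 335895) (nat_lit 0) (.e (nat_lit 6724) (nat_lit 362) (.e (nat_lit 180271) (nat_lit 26) (.e (nat_lit 704738) (nat_lit 11) .nil)))))) (.g (nat_lit 1) (.e (nat_lit 139040) (nat_lit 0) .nil) .nil))) 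
(.lf (nat_lit 489353) (.g (nat_lit 2856) (.e (nat_lit 16466) (nat_lit 13) (.e (nat_lit 483337) (nat_lit 9) (.e (nat_lit 426107) (nat_lit 1) (.e (nat_lit 164322) (nat_lit 230) (.e (nat_lit 163868) (nat_lit 2) (.e (nat_lit 196656) (nat_lit 11) .nil)))))) (.g (nat_lit 1) (.e (nat_lit 140650) (nat_lit 0) .nil) .nil)))))) (.nd (nat_lit 7) (.nd (nat_lit 8) (.nd (nat_lit 9) 
(.lf (nat_lit 488521) (.g (nat_lit 469) (.e (nat_lit 16434) (nat_lit 9) (.e (nat_lit 426566) (nat_lit 34) (.e (nat_lit 393254) (nat_lit 18) .nil))) (.g (nat_lit 0) (.e (nat_lit 138458) (nat_lit 0) .nil) .nil))) 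
(.lf (nat_lit 489033) (.g (nat_lit 3450) (.e (nat_lit 16460) (nat_lit 12) (.e (nat_lit 475179) (nat_lit 24) (.e (nat_lit 516115) (nat_lit 1) (.e (nat_lit 164325) (nat_lit 230) (.e (nat_lit 163939) (nat_lit 18) .nil))))) (.g (nat_lit 0) (.e (nat_lit 140129) (nat_lit 0) .nil) .nil)))) (.nd (nat_lit 9) 
(.lf (nat_lit 488777) (.g (nat_lit 2903) (.e (nat_lit 16438) (nat_lit 9) (.e (nat_lit 426482) (nat_lit 27) (.e (nat_lit 336389) (nat_lit 27) (.e (nat_lit 426098) (nat_lit 1) (.e (nat_lit 164332) (nat_lit 230) (.e (nat_lit 163869) (nat_lit 2) (.e (nat_lit 196656) (nat_lit 11) .nil))))))) (.g (nat_lit 1) (.e (nat_lit 138900) (nat_lit 0) .nil) .nil))) 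
(.lf (nat_lit 489289) (.g (nat_lit 3685) (.e (nat_lit 16465) (nat_lit 13) (.e (nat_lit 483341) (nat_lit 9) (.e (nat_lit 426100) (nat_lit 1) (.e (nat_lit 164332) (nat_lit 230) (.e (nat_lit 163869) (nat_lit 2) (.e (nat_lit 196653) (nat_lit 11) .nil)))))) (.g (nat_lit 1) (.e (nat_lit 140564) (nat_lit 0) .nil) .nil))))) (.nd (nat_lit 8) (.nd (nat_lit 9) 
(.lf (nat_lit 488649) (.g (nat_lit 2750) (.e (nat_lit 16436) (nat_lit 9) (.e (nat_lit 426479) (nat_lit 27) (.e (nat_lit 336395) (nat_lit 27) (.e (nat_lit 426109) (nat_lit 1) (.e (nat_lit 164327) (nat_lit 230) (.e (nat_lit 163871) (nat_lit 2) (.e (nat_lit 196654) (nat_lit 11) .nil))))))) (.g (nat_lit 1) (.e (nat_lit 138696) (nat_lit 0) .nil) .nil))) 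
(.lf (nat_lit 489161) (.g (nat_lit 2535) (.e (nat_lit 16463) (nat_lit 13) (.e (nat_lit 483341) (nat_lit 9) (.e (nat_lit 426105) (nat_lit 1) (.e (nat_lit 164332) (nat_lit 230) (.e (nat_lit 163866) (nat_lit 2) (.e (nat_lit 196654) (nat_lit 11) .nil)))))) (.g (nat_lit 1) (.e (nat_lit 140353) (nat_lit 0) .nil) .nil)))) (.nd (nat_lit 9) 
(.lf (nat_lit 488905) (.g (nat_lit 2083) (.e (nat_lit 16449) (nat_lit 10) (.e (nat_lit 434212) (nat_lit 18) (.e (nat_lit 6425) (nat_lit 342) (.e (nat_lit 229412) (nat_lit 14) (.e (nat_lit 442434) (nat_lit 26) .nil))))) (.g (nat_lit 0) (.e (nat_lit 139588) (nat_lit 0) .nil) .nil))) 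
(.lf (nat_lit 489417) (.g (nat_lit 2460) (.e (nat_lit 16466) (nat_lit 13) (.e (nat_lit 483341) (nat_lit 9) (.e (nat_lit 426106) (nat_lit 1) (.e (nat_lit 164330) (nat_lit 230) (.e (nat_lit 163867) (nat_lit 2) (.e (nat_lit 196654) (nat_lit 11) .nil)))))) (.g (nat_lit 1) (.e (nat_lit 140714) (nat_lit 0) .nil) .nil))))))) (.nd (nat_lit 6) (.nd (nat_lit 7) (.nd (nat_lit 8) (.nd (nat_lit 9) 
(.lf (nat_lit 488489) (.g (nat_lit 2768) (.e (nat_lit 16434) (nat_lit 9) (.e (nat_lit 426566) (nat_lit 34) (.e (nat_lit 393253) (nat_lit 18) (.e (nat_lit 164322) (nat_lit 230) .nil)))) (.g (nat_lit 0) (.e (nat_lit 138426) (nat_lit 0) .nil) .nil))) 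
(.lf (nat_lit 489001) (.g (nat_lit 3563) (.e (nat_lit 16458) (nat_lit 12) (.e (nat_lit 475185) (nat_lit 29) (.e (nat_lit 557100) (nat_lit 13) (.e (nat_lit 172113) (nat_lit 10) (.e (nat_lit 434248) (nat_lit 28) (.e (nat_lit 573470) (nat_lit 11) .nil)))))) (.g (nat_lit 1) (.e (nat_lit 140077) (nat_lit 0) .nil) .nil)))) (.nd (nat_lit 9) 
(.lf (nat_lit 488745) (.g (nat_lit 2753) (.e (nat_lit 16438) (nat_lit 9) (.e (nat_lit 426482) (nat_lit 27) (.e (nat_lit 336385) (nat_lit 27) (.e (nat_lit 426098) (nat_lit 1) (.e (nat_lit 164325) (nat_lit 230) (.e (nat_lit 163869) (nat_lit 2) (.e (nat_lit 196654) (nat_lit 11) .nil))))))) (.g (nat_lit 1) (.e (nat_lit 138860) (nat_lit 0) .nil) .nil))) 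
(.lf (nat_lit 489257) (.g (nat_lit 2569) (.e (nat_lit 16464) (nat_lit 13) (.e (nat_lit 483411) (nat_lit 27) (.e (nat_lit 401448) (nat_lit 10) (.e (nat_lit 434291) (nat_lit 44) (.e (nat_lit 704738) (nat_lit 11) .nil))))) (.g (nat_lit 1) (.e (nat_lit 140514) (nat_lit 0) .nil) .nil))))) (.nd (nat_lit 8) (.nd (nat_lit 9) 
(.lf (nat_lit 488617) (.g (nat_lit 3405) (.e (nat_lit 16436) (nat_lit 9) (.e (nat_lit 426131) (nat_lit 3) (.e (nat_lit 204854) (nat_lit 26) (.e (nat_lit 336334) (nat_lit 20) (.e (nat_lit 221210) (nat_lit 22) (.e (nat_lit 196656) (nat_lit 11) .nil)))))) (.g (nat_lit 1) (.e (nat_lit 138606) (nat_lit 0) .nil) .nil))) 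
(.lf (nat_lit 489129) (.g (nat_lit 2331) (.e (nat_lit 16463) (nat_lit 13) (.e (nat_lit 483340) (nat_lit 9) (.e (nat_lit 426098) (nat_lit 1) (.e (nat_lit 164327) (nat_lit 230) (.e (nat_lit 163868) (nat_lit 2) (.e (nat_lit 196656) (nat_lit 11) .nil)))))) (.g (nat_lit 1) (.e (nat_lit 140321) (nat_lit 0) .nil) .nil)))) (.nd (nat_lit 9) 
(.lf (nat_lit 488873) (.g (nat_lit 2571) (.e (nat_lit 24320) (nat_lit 9) (.e (nat_lit 426566) (nat_lit 34) (.e (nat_lit 393253) (nat_lit 18) (.e (nat_lit 164330) (nat_lit 230) (.e (nat_lit 163867) (nat_lit 2) .nil))))) (.g (nat_lit 0) (.e (nat_lit 139259) (nat_lit 0) .nil) .nil))) 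
(.lf (nat_lit 489385) (.g (nat_lit 3026) (.e (nat_lit 16466) (nat_lit 13) (.e (nat_lit 483341) (nat_lit 9) (.e (nat_lit 426098) (nat_lit 1) (.e (nat_lit 164325) (nat_lit 230) (.e (nat_lit 163871) (nat_lit 2) (.e (nat_lit 196654) (nat_lit 11) .nil)))))) (.g (nat_lit 1) (.e (nat_lit 140682) (nat_lit 0) .nil) .nil)))))) (.nd (nat_lit 7) (.nd (nat_lit 8) (.nd (nat_lit 9) 
(.lf (nat_lit 488553) (.g (nat_lit 2643) (.e (nat_lit 16435) (nat_lit 9) (.e (nat_lit 426566) (nat_lit 34) (.e (nat_lit 393251) (nat_lit 18) (.e (nat_lit 164331) (nat_lit 230) (.e (nat_lit 163867) (nat_lit 2) .nil))))) (.g (nat_lit 0) (.e (nat_lit 138497) (nat_lit 0) .nil) .nil))) 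
(.lf (nat_lit 489065) (.g (nat_lit 3239) (.e (nat_lit 16461) (nat_lit 12) (.e (nat_lit 475184) (nat_lit 29) (.e (nat_lit 557100) (nat_lit 13) (.e (nat_lit 172113) (nat_lit 10) (.e (nat_lit 434245) (nat_lit 28) (.e (nat_lit 573469) (nat_lit 11) .nil)))))) (.g (nat_lit 1) (.e (nat_lit 140176) (nat_lit 0) .nil) .nil)))) (.nd (nat_lit 9) 
(.lf (nat_lit 488809) (.g (nat_lit 3467) (.e (nat_lit 16438) (nat_lit 9) (.e (nat_lit 426482) (nat_lit 27) (.e (nat_lit 336388) (nat_lit 27) (.e (nat_lit 426108) (nat_lit 1) (.e (nat_lit 164332) (nat_lit 230) (.e (nat_lit 163869) (nat_lit 2) (.e (nat_lit 196654) (nat_lit 11) .nil))))))) (.g (nat_lit 1) (.e (nat_lit 138939) (nat_lit 0) .nil) .nil))) 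
(.lf (nat_lit 489321) (.g (nat_lit 4074) (.e (nat_lit 16465) (nat_lit 13) (.e (nat_lit 483341) (nat_lit 9) (.e (nat_lit 426108) (nat_lit 1) (.e (nat_lit 164330) (nat_lit 230) (.e (nat_lit 163867) (nat_lit 2) (.e (nat_lit 196655) (nat_lit 11) .nil)))))) (.g (nat_lit 1) (.e (nat_lit 140605) (nat_lit 0) .nil) .nil))))) (.nd (nat_lit 8) (.nd (nat_lit 9) 
(.lf (nat_lit 488681) (.g (nat_lit 3019) (.e (nat_lit 16436) (nat_lit 9) (.e (nat_lit 426566) (nat_lit 34) (.e (nat_lit 393254) (nat_lit 18) (.e (nat_lit 164326) (nat_lit 230) (.e (nat_lit 163871) (nat_lit 2) (.e (nat_lit 196654) (nat_lit 11) .nil)))))) (.g (nat_lit 1) (.e (nat_lit 138743) (nat_lit 0) .nil) .nil))) 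
(.lf (nat_lit 489193) (.g (nat_lit 2474) (.e (nat_lit 16463) (nat_lit 13) (.e (nat_lit 483341) (nat_lit 9) (.e (nat_lit 426107) (nat_lit 1) (.e (nat_lit 164322) (nat_lit 230) (.e (nat_lit 163871) (nat_lit 2) (.e (nat_lit 196656) (nat_lit 11) .nil)))))) (.g (nat_lit 1) (.e (nat_lit 140388) (nat_lit 0) .nil) .nil)))) (.nd (nat_lit 9) 
(.lf (nat_lit 488937) (.g (nat_lit 3042) (.e (nat_lit 16456) (nat_lit 12) (.e (nat_lit 475177) (nat_lit 24) (.e (nat_lit 516118) (nat_lit 1) (.e (nat_lit 164332) (nat_lit 230) (.e (nat_lit 163938) (nat_lit 18) (.e (nat_lit 483072) (nat_lit 10) .nil)))))) (.g (nat_lit 1) (.e (nat_lit 139992) (nat_lit 0) .nil) .nil))) 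
(.lf (nat_lit 489449) (.g (nat_lit 1169) (.e (nat_lit 16466) (nat_lit 13) (.e (nat_lit 483346) (nat_lit 17) (.e (nat_lit 6718) (nat_lit 361) (.e (nat_lit 172074) (nat_lit 6) .nil)))) (.g (nat_lit 0) (.e (nat_lit 140746) (nat_lit 0) .nil) .nil)))))))) (.nd (nat_lit 5) (.nd (nat_lit 6) (.nd (nat_lit 7) (.nd (nat_lit 8) (.nd (nat_lit 9) 
(.lf (nat_lit 488473) (.g (nat_lit 3527) (.e (nat_lit 16434) (nat_lit 9) (.e (nat_lit 426566) (nat_lit 34) (.e (nat_lit 393251) (nat_lit 18) (.e (nat_lit 164327) (nat_lit 230) (.e (nat_lit 163871) (nat_lit 2) (.e (nat_lit 196654) (nat_lit 11) .nil)))))) (.g (nat_lit 1) (.e (nat_lit 138410) (nat_lit 0) .nil) .nil))) 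
(.lf (nat_lit 488985) (.g (nat_lit 4290) (.e (nat_lit 16458) (nat_lit 12) (.e (nat_lit 475179) (nat_lit 24) (.e (nat_lit 516115) (nat_lit 1) (.e (nat_lit 164325) (nat_lit 230) (.e (nat_lit 163938) (nat_lit 18) (.e (nat_lit 483072) (nat_lit 10) .nil)))))) (.g (nat_lit 1) (.e (nat_lit 140059) (nat_lit 0) .nil) .nil)))) (.nd (nat_lit 9) 
(.lf (nat_lit 488729) (.g (nat_lit 3363) (.e (nat_lit 16437) (nat_lit 9) (.e (nat_lit 426566) (nat_lit 34) (.e (nat_lit 393253) (nat_lit 18) (.e (nat_lit 164332) (nat_lit 230) (.e (nat_lit 163866) (nat_lit 2) .nil))))) (.g (nat_lit 0) (.e (nat_lit 138837) (nat_lit 0) .nil) .nil))) 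
(.lf (nat_lit 489241) (.g (nat_lit 1361) (.e (nat_lit 16463) (nat_lit 13) (.e (nat_lit 483412) (nat_lit 27) (.e (nat_lit 401446) (nat_lit 10) (.e (nat_lit 434292) (nat_lit 44) .nil)))) (.g (nat_lit 0) (.e (nat_lit 140452) (nat_lit 0) .nil) .nil))))) (.nd (nat_lit 8) (.nd (nat_lit 9) 
(.lf (nat_lit 488601) (.g (nat_lit 2655) (.e (nat_lit 16436) (nat_lit 9) (.e (nat_lit 426131) (nat_lit 3) (.e (nat_lit 204850) (nat_lit 26) (.e (nat_lit 336336) (nat_lit 20) (.e (nat_lit 221210) (nat_lit 22) (.e (nat_lit 196654) (nat_lit 11) .nil)))))) (.g (nat_lit 1) (.e (nat_lit 138563) (nat_lit 0) .nil) .nil))) 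
(.lf (nat_lit 489113) (.g (nat_lit 2732) (.e (nat_lit 16463) (nat_lit 13) (.e (nat_lit 483337) (nat_lit 9) (.e (nat_lit 426107) (nat_lit 1) (.e (nat_lit 164324) (nat_lit 230) (.e (nat_lit 163868) (nat_lit 2) (.e (nat_lit 196656) (nat_lit 11) .nil)))))) (.g (nat_lit 1) (.e (nat_lit 140301) (nat_lit 0) .nil) .nil)))) (.nd (nat_lit 9) 
(.lf (nat_lit 488857) (.g (nat_lit 2886) (.e (nat_lit 16446) (nat_lit 9) (.e (nat_lit 426124) (nat_lit 2) (.e (nat_lit 196656) (nat_lit 11) (.e (nat_lit 16392) (nat_lit 0) (.e (nat_lit 3397) (nat_lit 211) (.e (nat_lit 647181) (nat_lit 3) (.e (nat_lit 171776) (nat_lit 189) .nil))))))) (.g (nat_lit 1) (.e (nat_lit 139196) (nat_lit 0) .nil) .nil))) 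
(.lf (nat_lit 489369) (.g (nat_lit 3098) (.e (nat_lit 16466) (nat_lit 13) (.e (nat_lit 483337) (nat_lit 9) (.e (nat_lit 426107) (nat_lit 1) (.e (nat_lit 164331) (nat_lit 230) (.e (nat_lit 163867) (nat_lit 2) (.e (nat_lit 196654) (nat_lit 11) .nil)))))) (.g (nat_lit 1) (.e (nat_lit 140666) (nat_lit 0) .nil) .nil)))))) (.nd (nat_lit 7) (.nd (nat_lit 8) (.nd (nat_lit 9) 
(.lf (nat_lit 488537) (.g (nat_lit 1893) (.e (nat_lit 16435) (nat_lit 9) (.e (nat_lit 426512) (nat_lit 27) (.e (nat_lit 336387) (nat_lit 27) (.e (nat_lit 426107) (nat_lit 1) (.e (nat_lit 164326) (nat_lit 230) (.e (nat_lit 163871) (nat_lit 2) (.e (nat_lit 196655) (nat_lit 11) .nil))))))) (.g (nat_lit 1) (.e (nat_lit 138481) (nat_lit 0) .nil) .nil))) 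
(.lf (nat_lit 489049) (.g (nat_lit 4131) (.e (nat_lit 16461) (nat_lit 12) (.e (nat_lit 475179) (nat_lit 24) (.e (nat_lit 516115) (nat_lit 1) (.e (nat_lit 164325) (nat_lit 230) (.e (nat_lit 163938) (nat_lit 18) (.e (nat_lit 483072) (nat_lit 10) .nil)))))) (.g (nat_lit 1) (.e (nat_lit 140160) (nat_lit 0) .nil) .nil)))) (.nd (nat_lit 9) 
(.lf (nat_lit 488793) (.g (nat_lit 3667) (.e (nat_lit 16438) (nat_lit 9) (.e (nat_lit 426482) (nat_lit 27) (.e (nat_lit 336388) (nat_lit 27) (.e (nat_lit 426100) (nat_lit 1) (.e (nat_lit 164332) (nat_lit 230) (.e (nat_lit 163869) (nat_lit 2) (.e (nat_lit 196654) (nat_lit 11) .nil))))))) (.g (nat_lit 1) (.e (nat_lit 138918) (nat_lit 0) .nil) .nil))) 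
(.lf (nat_lit 489305) (.g (nat_lit 3412) (.e (nat_lit 16465) (nat_lit 13) (.e (nat_lit 483341) (nat_lit 9) (.e (nat_lit 426107) (nat_lit 1) (.e (nat_lit 164325) (nat_lit 230) (.e (nat_lit 163871) (nat_lit 2) (.e (nat_lit 196655) (nat_lit 11) .nil)))))) (.g (nat_lit 1) (.e (nat_lit 140583) (nat_lit 0) .nil) .nil))))) (.nd (nat_lit 8) (.nd (nat_lit 9) 
(.lf (nat_lit 488665) (.g (nat_lit 2432) (.e (nat_lit 16436) (nat_lit 9) (.e (nat_lit 426509) (nat_lit 27) (.e (nat_lit 336389) (nat_lit 27) (.e (nat_lit 426098) (nat_lit 1) (.e (nat_lit 164327) (nat_lit 230) (.e (nat_lit 163868) (nat_lit 2) (.e (nat_lit 196654) (nat_lit 11) .nil))))))) (.g (nat_lit 1) (.e (nat_lit 138717) (nat_lit 0) .nil) .nil))) 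
(.lf (nat_lit 489177) (.g (nat_lit 2763) (.e (nat_lit 16463) (nat_lit 13) (.e (nat_lit 483341) (nat_lit 9) (.e (nat_lit 426106) (nat_lit 1) (.e (nat_lit 164326) (nat_lit 230) (.e (nat_lit 163866) (nat_lit 2) (.e (nat_lit 196654) (nat_lit 11) .nil)))))) (.g (nat_lit 1) (.e (nat_lit 140370) (nat_lit 0) .nil) .nil)))) (.nd (nat_lit 9) 
(.lf (nat_lit 488921) (.g (nat_lit 3731) (.e (nat_lit 16455) (nat_lit 12) (.e (nat_lit 475179) (nat_lit 24) (.e (nat_lit 516115) (nat_lit 1) (.e (nat_lit 164325) (nat_lit 230) (.e (nat_lit 163938) (nat_lit 18) .nil))))) (.g (nat_lit 0) (.e (nat_lit 139968) (nat_lit 0) .nil) .nil))) 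
(.lf (nat_lit 489433) (.g (nat_lit 2341) (.e (nat_lit 16466) (nat_lit 13) (.e (nat_lit 483341) (nat_lit 9) (.e (nat_lit 426107) (nat_lit 1) (.e (nat_lit 164327) (nat_lit 230) (.e (nat_lit 163871) (nat_lit 2) (.e (nat_lit 196656) (nat_lit 11) .nil)))))) (.g (nat_lit 1) (.e (nat_lit 140730) (nat_lit 0) .nil) .nil))))))) (.nd (nat_lit 6) (.nd (nat_lit 7) (.nd (nat_lit 8) (.nd (nat_lit 9) 
(.lf (nat_lit 488505) (.g (nat_lit 2140) (.e (nat_lit 16434) (nat_lit 9) (.e (nat_lit 426566) (nat_lit 34) (.e (nat_lit 393253) (nat_lit 18) (.e (nat_lit 164327) (nat_lit 230) (.e (nat_lit 163868) (nat_lit 2) (.e (nat_lit 196652) (nat_lit 11) .nil)))))) (.g (nat_lit 1) (.e (nat_lit 138442) (nat_lit 0) .nil) .nil))) 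
(.lf (nat_lit 489017) (.g (nat_lit 2655) (.e (nat_lit 16459) (nat_lit 12) (.e (nat_lit 475179) (nat_lit 24) (.e (nat_lit 516119) (nat_lit 1) (.e (nat_lit 164325) (nat_lit 230) (.e (nat_lit 163938) (nat_lit 18) (.e (nat_lit 483072) (nat_lit 10) .nil)))))) (.g (nat_lit 1) (.e (nat_lit 140105) (nat_lit 0) .nil) .nil)))) (.nd (nat_lit 9) 
(.lf (nat_lit 488761) (.g (nat_lit 2865) (.e (nat_lit 16438) (nat_lit 9) (.e (nat_lit 426482) (nat_lit 27) (.e (nat_lit 336385) (nat_lit 27) (.e (nat_lit 426108) (nat_lit 1) (.e (nat_lit 164332) (nat_lit 230) (.e (nat_lit 163869) (nat_lit 2) (.e (nat_lit 196654) (nat_lit 11) .nil))))))) (.g (nat_lit 1) (.e (nat_lit 138882) (nat_lit 0) .nil) .nil))) 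
(.lf (nat_lit 489273) (.g (nat_lit 3375) (.e (nat_lit 16465) (nat_lit 13) (.e (nat_lit 483341) (nat_lit 9) (.e (nat_lit 426098) (nat_lit 1) (.e (nat_lit 164331) (nat_lit 230) (.e (nat_lit 163867) (nat_lit 2) (.e (nat_lit 196655) (nat_lit 11) .nil)))))) (.g (nat_lit 1) (.e (nat_lit 140539) (nat_lit 0) .nil) .nil))))) (.nd (nat_lit 8) (.nd (nat_lit 9) 
(.lf (nat_lit 488633) (.g (nat_lit 3350) (.e (nat_lit 16436) (nat_lit 9) (.e (nat_lit 426131) (nat_lit 3) (.e (nat_lit 204880) (nat_lit 32) (.e (nat_lit 385109) (nat_lit 51) (.e (nat_lit 794663) (nat_lit 22) (.e (nat_lit 196654) (nat_lit 11) .nil)))))) (.g (nat_lit 1) (.e (nat_lit 138644) (nat_lit 0) .nil) .nil))) 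
(.lf (nat_lit 489145) (.g (nat_lit 3418) (.e (nat_lit 16463) (nat_lit 13) (.e (nat_lit 483341) (nat_lit 9) (.e (nat_lit 426098) (nat_lit 1) (.e (nat_lit 164332) (nat_lit 230) (.e (nat_lit 163867) (nat_lit 2) (.e (nat_lit 196656) (nat_lit 11) .nil)))))) (.g (nat_lit 1) (.e (nat_lit 140337) (nat_lit 0) .nil) .nil)))) (.nd (nat_lit 9) 
(.lf (nat_lit 488889) (.g (nat_lit 4246) (.e (nat_lit 16448) (nat_lit 10) (.e (nat_lit 434231) (nat_lit 23) (.e (nat_lit 532529) (nat_lit 9) (.e (nat_lit 336336) (nat_lit 20) (.e (nat_lit 221211) (nat_lit 22) (.e (nat_lit 196656) (nat_lit 11) .nil)))))) (.g (nat_lit 1) (.e (nat_lit 139470) (nat_lit 0) .nil) .nil))) 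
(.lf (nat_lit 489401) (.g (nat_lit 2311) (.e (nat_lit 16466) (nat_lit 13) (.e (nat_lit 483341) (nat_lit 9) (.e (nat_lit 426106) (nat_lit 1) (.e (nat_lit 164322) (nat_lit 230) (.e (nat_lit 163867) (nat_lit 2) (.e (nat_lit 196652) (nat_lit 11) .nil)))))) (.g (nat_lit 1) (.e (nat_lit 140698) (nat_lit 0) .nil) .nil)))))) (.nd (nat_lit 7) (.nd (nat_lit 8) (.nd (nat_lit 9) 
(.lf (nat_lit 488569) (.g (nat_lit 3084) (.e (nat_lit 16435) (nat_lit 9) (.e (nat_lit 426566) (nat_lit 34) (.e (nat_lit 393253) (nat_lit 18) (.e (nat_lit 164324) (nat_lit 230) (.e (nat_lit 163868) (nat_lit 2) (.e (nat_lit 196654) (nat_lit 11) .nil)))))) (.g (nat_lit 1) (.e (nat_lit 138513) (nat_lit 0) .nil) .nil))) 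
(.lf (nat_lit 489081) (.g (nat_lit 337) (.e (nat_lit 16462) (nat_lit 13) (.e (nat_lit 483375) (nat_lit 22) (.e (nat_lit 327705) (nat_lit 10) .nil))) (.g (nat_lit 0) (.e (nat_lit 140243) (nat_lit 0) .nil) .nil)))) (.nd (nat_lit 9) 
(.lf (nat_lit 488825) (.g (nat_lit 2371) (.e (nat_lit 16439) (nat_lit 9) (.e (nat_lit 426501) (nat_lit 27) (.e (nat_lit 335894) (nat_lit 0) (.e (nat_lit 6722) (nat_lit 362) (.e (nat_lit 180271) (nat_lit 26) (.e (nat_lit 704737) (nat_lit 11) .nil)))))) (.g (nat_lit 1) (.e (nat_lit 138967) (nat_lit 0) .nil) .nil))) 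
(.lf (nat_lit 489337) (.g (nat_lit 3207) (.e (nat_lit 16466) (nat_lit 13) (.e (nat_lit 483336) (nat_lit 9) (.e (nat_lit 426100) (nat_lit 1) (.e (nat_lit 164332) (nat_lit 230) (.e (nat_lit 163869) (nat_lit 2) (.e (nat_lit 196656) (nat_lit 11) .nil)))))) (.g (nat_lit 1) (.e (nat_lit 140634) (nat_lit 0) .nil) .nil))))) (.nd (nat_lit 8) (.nd (nat_lit 9) 
(.lf (nat_lit 488697) (.g (nat_lit 3106) (.e (nat_lit 16437) (nat_lit 9) (.e (nat_lit 426566) (nat_lit 34) (.e (nat_lit 393251) (nat_lit 18) (.e (nat_lit 164327) (nat_lit 230) (.e (nat_lit 163868) (nat_lit 2) (.e (nat_lit 196654) (nat_lit 11) .nil)))))) (.g (nat_lit 1) (.e (nat_lit 138805) (nat_lit 0) .nil) .nil))) 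
(.lf (nat_lit 489209) (.g (nat_lit 3656) (.e (nat_lit 16463) (nat_lit 13) (.e (nat_lit 483341) (nat_lit 9) (.e (nat_lit 426107) (nat_lit 1) (.e (nat_lit 164327) (nat_lit 230) (.e (nat_lit 163866) (nat_lit 2) (.e (nat_lit 196654) (nat_lit 11) .nil)))))) (.g (nat_lit 1) (.e (nat_lit 140406) (nat_lit 0) .nil) .nil)))) (.nd (nat_lit 9) 
(.lf (nat_lit 488953) (.g (nat_lit 1986) (.e (nat_lit 16456) (nat_lit 12) (.e (nat_lit 475183) (nat_lit 29) (.e (nat_lit 557100) (nat_lit 13) (.e (nat_lit 172113) (nat_lit 10) (.e (nat_lit 434245) (nat_lit 28) (.e (nat_lit 573469) (nat_lit 11) .nil)))))) (.g (nat_lit 1) (.e (nat_lit 140014) (nat_lit 0) .nil) .nil))) 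
(.lf (nat_lit 489465) (.g (nat_lit 1769) (.e (nat_lit 16466) (nat_lit 13) (.e (nat_lit 483413) (nat_lit 27) (.e (nat_lit 401446) (nat_lit 10) (.e (nat_lit 434292) (nat_lit 44) .nil)))) (.g (nat_lit 0) (.e (nat_lit 140763) (nat_lit 0) .nil) .nil)))))))))) (.nd (nat_lit 3) (.nd (nat_lit 4) (.nd (nat_lit 5) (.nd (nat_lit 6) (.nd (nat_lit 7) (.nd (nat_lit 8) (.nd (nat_lit 9) 
(.lf (nat_lit 488453) (.g (nat_lit 2392) (.e (nat_lit 16433) (nat_lit 9) (.e (nat_lit 426568) (nat_lit 34) (.e (nat_lit 393253) (nat_lit 18) (.e (nat_lit 164324) (nat_lit 230) (.e (nat_lit 163871) (nat_lit 2) (.e (nat_lit 196654) (nat_lit 11) .nil)))))) (.g (nat_lit 1) (.e (nat_lit 138389) (nat_lit 0) .nil) .nil))) 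
(.lf (nat_lit 488965) (.g (nat_lit 3064) (.e (nat_lit 16457) (nat_lit 12) (.e (nat_lit 475179) (nat_lit 24) (.e (nat_lit 516115) (nat_lit 1) (.e (nat_lit 164325) (nat_lit 230) (.e (nat_lit 163936) (nat_lit 18) .nil))))) (.g (nat_lit 0) (.e (nat_lit 140030) (nat_lit 0) .nil) .nil)))) (.nd (nat_lit 9) 
(.lf (nat_lit 488709) (.g (nat_lit 2919) (.e (nat_lit 16437) (nat_lit 9) (.e (nat_lit 426566) (nat_lit 34) (.e (nat_lit 393253) (nat_lit 18) (.e (nat_lit 164324) (nat_lit 230) .nil)))) (.g (nat_lit 0) (.e (nat_lit 138817) (nat_lit 0) .nil) .nil))) 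
(.lf (nat_lit 489221) (.g (nat_lit 3361) (.e (nat_lit 16463) (nat_lit 13) (.e (nat_lit 483341) (nat_lit 9) (.e (nat_lit 426108) (nat_lit 1) (.e (nat_lit 164329) (nat_lit 230) (.e (nat_lit 163869) (nat_lit 2) (.e (nat_lit 196654) (nat_lit 11) .nil)))))) (.g (nat_lit 1) (.e (nat_lit 140419) (nat_lit 0) .nil) .nil))))) (.nd (nat_lit 8) (.nd (nat_lit 9) 
(.lf (nat_lit 488581) (.g (nat_lit 3884) (.e (nat_lit 16435) (nat_lit 9) (.e (nat_lit 426566) (nat_lit 34) (.e (nat_lit 393253) (nat_lit 18) (.e (nat_lit 164327) (nat_lit 230) (.e (nat_lit 163868) (nat_lit 2) (.e (nat_lit 196654) (nat_lit 11) .nil)))))) (.g (nat_lit 1) (.e (nat_lit 138525) (nat_lit 0) .nil) .nil))) 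
(.lf (nat_lit 489093) (.g (nat_lit 3668) (.e (nat_lit 16463) (nat_lit 13) (.e (nat_lit 483336) (nat_lit 9) (.e (nat_lit 426107) (nat_lit 1) (.e (nat_lit 164327) (nat_lit 230) (.e (nat_lit 163868) (nat_lit 2) (.e (nat_lit 196656) (nat_lit 11) .nil)))))) (.g (nat_lit 1) (.e (nat_lit 140280) (nat_lit 0) .nil) .nil)))) (.nd (nat_lit 9) 
(.lf (nat_lit 488837) (.g (nat_lit 2616) (.e (nat_lit 16440) (nat_lit 9) (.e (nat_lit 426140) (nat_lit 3) (.e (nat_lit 204885) (nat_lit 33) (.e (nat_lit 401448) (nat_lit 10) (.e (nat_lit 434244) (nat_lit 28) (.e (nat_lit 573471) (nat_lit 11) .nil)))))) (.g (nat_lit 1) (.e (nat_lit 139023) (nat_lit 0) .nil) .nil))) 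
(.lf (nat_lit 489349) (.g (nat_lit 2250) (.e (nat_lit 16466) (nat_lit 13) (.e (nat_lit 483337) (nat_lit 9) (.e (nat_lit 426107) (nat_lit 1) (.e (nat_lit 164322) (nat_lit 230) (.e (nat_lit 163867) (nat_lit 2) (.e (nat_lit 196652) (nat_lit 11) .nil)))))) (.g (nat_lit 1) (.e (nat_lit 140646) (nat_lit 0) .nil) .nil)))))) (.nd (nat_lit 7) (.nd (nat_lit 8) (.nd (nat_lit 9) 
(.lf (nat_lit 488517) (.g (nat_lit 2833) (.e (nat_lit 16434) (nat_lit 9) (.e (nat_lit 426566) (nat_lit 34) (.e (nat_lit 393253) (nat_lit 18) (.e (nat_lit 164332) (nat_lit 230) (.e (nat_lit 163867) (nat_lit 2) (.e (nat_lit 196652) (nat_lit 11) .nil)))))) (.g (nat_lit 1) (.e (nat_lit 138454) (nat_lit 0) .nil) .nil))) 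
(.lf (nat_lit 489029) (.g (nat_lit 4684) (.e (nat_lit 16459) (nat_lit 12) (.e (nat_lit 475185) (nat_lit 29) (.e (nat_lit 557100) (nat_lit 13) (.e (nat_lit 172113) (nat_lit 10) (.e (nat_lit 434247) (nat_lit 28) (.e (nat_lit 573469) (nat_lit 11) .nil)))))) (.g (nat_lit 1) (.e (nat_lit 140120) (nat_lit 0) .nil) .nil)))) (.nd (nat_lit 9) 
(.lf (nat_lit 488773) (.g (nat_lit 4284) (.e (nat_lit 16438) (nat_lit 9) (.e (nat_lit 426482) (nat_lit 27) (.e (nat_lit 336389) (nat_lit 27) (.e (nat_lit 426098) (nat_lit 1) (.e (nat_lit 164325) (nat_lit 230) (.e (nat_lit 163869) (nat_lit 2) (.e (nat_lit 196654) (nat_lit 11) .nil))))))) (.g (nat_lit 1) (.e (nat_lit 138896) (nat_lit 0) .nil) .nil))) 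
(.lf (nat_lit 489285) (.g (nat_lit 3624) (.e (nat_lit 16465) (nat_lit 13) (.e (nat_lit 483341) (nat_lit 9) (.e (nat_lit 426100) (nat_lit 1) (.e (nat_lit 164330) (nat_lit 230) (.e (nat_lit 163867) (nat_lit 2) (.e (nat_lit 196656) (nat_lit 11) .nil)))))) (.g (nat_lit 1) (.e (nat_lit 140556) (nat_lit 0) .nil) .nil))))) (.nd (nat_lit 8) (.nd (nat_lit 9) 
(.lf (nat_lit 488645) (.g (nat_lit 3562) (.e (nat_lit 16436) (nat_lit 9) (.e (nat_lit 426131) (nat_lit 3) (.e (nat_lit 204885) (nat_lit 33) (.e (nat_lit 401448) (nat_lit 10) (.e (nat_lit 434248) (nat_lit 28) (.e (nat_lit 573470) (nat_lit 11) .nil)))))) (.g (nat_lit 1) (.e (nat_lit 138684) (nat_lit 0) .nil) .nil))) 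
(.lf (nat_lit 489157) (.g (nat_lit 2681) (.e (nat_lit 16463) (nat_lit 13) (.e (nat_lit 483341) (nat_lit 9) (.e (nat_lit 426105) (nat_lit 1) (.e (nat_lit 164325) (nat_lit 230) (.e (nat_lit 163866) (nat_lit 2) (.e (nat_lit 196654) (nat_lit 11) .nil)))))) (.g (nat_lit 1) (.e (nat_lit 140349) (nat_lit 0) .nil) .nil)))) (.nd (nat_lit 9) 
(.lf (nat_lit 488901) (.g (nat_lit 2854) (.e (nat_lit 16448) (nat_lit 10) (.e (nat_lit 434231) (nat_lit 23) (.e (nat_lit 532563) (nat_lit 15) (.e (nat_lit 385109) (nat_lit 51) (.e (nat_lit 794669) (nat_lit 22) (.e (nat_lit 196656) (nat_lit 11) .nil)))))) (.g (nat_lit 1) (.e (nat_lit 139499) (nat_lit 0) .nil) .nil))) 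
(.lf (nat_lit 489413) (.g (nat_lit 3340) (.e (nat_lit 16466) (nat_lit 13) (.e (nat_lit 483341) (nat_lit 9) (.e (nat_lit 426106) (nat_lit 1) (.e (nat_lit 164327) (nat_lit 230) (.e (nat_lit 163868) (nat_lit 2) (.e (nat_lit 196654) (nat_lit 11) .nil)))))) (.g (nat_lit 1) (.e (nat_lit 140710) (nat_lit 0) .nil) .nil))))))) (.nd (nat_lit 6) (.nd (nat_lit 7) (.nd (nat_lit 8) (.nd (nat_lit 9) 
(.lf (nat_lit 488485) (.g (nat_lit 3382) (.e (nat_lit 16434) (nat_lit 9) (.e (nat_lit 426566) (nat_lit 34) (.e (nat_lit 393252) (nat_lit 18) (.e (nat_lit 164332) (nat_lit 230) (.e (nat_lit 163869) (nat_lit 2) (.e (nat_lit 196654) (nat_lit 11) .nil)))))) (.g (nat_lit 1) (.e (nat_lit 138422) (nat_lit 0) .nil) .nil))) 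
(.lf (nat_lit 488997) (.g (nat_lit 3210) (.e (nat_lit 16458) (nat_lit 12) (.e (nat_lit 475184) (nat_lit 29) (.e (nat_lit 557107) (nat_lit 15) (.e (nat_lit 188440) (nat_lit 20) (.e (nat_lit 3307) (nat_lit 202) (.e (nat_lit 573470) (nat_lit 11) .nil)))))) (.g (nat_lit 1) (.e (nat_lit 140072) (nat_lit 0) .nil) .nil)))) (.nd (nat_lit 9) 
(.lf (nat_lit 488741) (.g (nat_lit 1219) (.e (nat_lit 16438) (nat_lit 9) (.e (nat_lit 426482) (nat_lit 27) (.e (nat_lit 335907) (nat_lit 0) (.e (nat_lit 7936) (nat_lit 362) .nil)))) (.g (nat_lit 0) (.e (nat_lit 138854) (nat_lit 0) .nil) .nil))) 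
(.lf (nat_lit 489253) (.g (nat_lit 2414) (.e (nat_lit 16464) (nat_lit 13) (.e (nat_lit 483341) (nat_lit 9) (.e (nat_lit 426107) (nat_lit 1) (.e (nat_lit 164324) (nat_lit 230) .nil)))) (.g (nat_lit 0) (.e (nat_lit 140487) (nat_lit 0) .nil) .nil))))) (.nd (nat_lit 8) (.nd (nat_lit 9) 
(.lf (nat_lit 488613) (.g (nat_lit 2016) (.e (nat_lit 16436) (nat_lit 9) (.e (nat_lit 426131) (nat_lit 3) (.e (nat_lit 204854) (nat_lit 26) (.e (nat_lit 336240) (nat_lit 15) (.e (nat_lit 3774) (nat_lit 229) .nil))))) (.g (nat_lit 0) (.e (nat_lit 138599) (nat_lit 0) .nil) .nil))) 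
(.lf (nat_lit 489125) (.g (nat_lit 3295) (.e (nat_lit 16463) (nat_lit 13) (.e (nat_lit 483337) (nat_lit 9) (.e (nat_lit 426108) (nat_lit 1) (.e (nat_lit 164330) (nat_lit 230) (.e (nat_lit 163869) (nat_lit 2) (.e (nat_lit 196656) (nat_lit 11) .nil)))))) (.g (nat_lit 1) (.e (nat_lit 140317) (nat_lit 0) .nil) .nil)))) (.nd (nat_lit 9) 
(.lf (nat_lit 488869) (.g (nat_lit 634) (.e (nat_lit 24320) (nat_lit 9) (.e (nat_lit 426566) (nat_lit 34) (.e (nat_lit 393252) (nat_lit 18) .nil))) (.g (nat_lit 0) (.e (nat_lit 139255) (nat_lit 0) .nil) .nil))) 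
(.lf (nat_lit 489381) (.g (nat_lit 610) (.e (nat_lit 16466) (nat_lit 13) (.e (nat_lit 483341) (nat_lit 9) (.e (nat_lit 426029) (nat_lit 0) .nil))) (.g (nat_lit 0) (.e (nat_lit 140678) (nat_lit 0) .nil) .nil)))))) (.nd (nat_lit 7) (.nd (nat_lit 8) (.nd (nat_lit 9) 
(.lf (nat_lit 488549) (.g (nat_lit 3789) (.e (nat_lit 16435) (nat_lit 9) (.e (nat_lit 426566) (nat_lit 34) (.e (nat_lit 393251) (nat_lit 18) (.e (nat_lit 164327) (nat_lit 230) (.e (nat_lit 163871) (nat_lit 2) (.e (nat_lit 196654) (nat_lit 11) .nil)))))) (.g (nat_lit 1) (.e (nat_lit 138493) (nat_lit 0) .nil) .nil))) 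
(.lf (nat_lit 489061) (.g (nat_lit 2343) (.e (nat_lit 16461) (nat_lit 12) (.e (nat_lit 475183) (nat_lit 29) (.e (nat_lit 557100) (nat_lit 13) (.e (nat_lit 172113) (nat_lit 10) (.e (nat_lit 434245) (nat_lit 28) .nil))))) (.g (nat_lit 0) (.e (nat_lit 140172) (nat_lit 0) .nil) .nil)))) (.nd (nat_lit 9) 
(.lf (nat_lit 488805) (.g (nat_lit 3762) (.e (nat_lit 16438) (nat_lit 9) (.e (nat_lit 426482) (nat_lit 27) (.e (nat_lit 336388) (nat_lit 27) (.e (nat_lit 426108) (nat_lit 1) (.e (nat_lit 164330) (nat_lit 230) (.e (nat_lit 163866) (nat_lit 2) (.e (nat_lit 196654) (nat_lit 11) .nil))))))) (.g (nat_lit 1) (.e (nat_lit 138933) (nat_lit 0) .nil) .nil))) 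
(.lf (nat_lit 489317) (.g (nat_lit 4148) (.e (nat_lit 16465) (nat_lit 13) (.e (nat_lit 483341) (nat_lit 9) (.e (nat_lit 426108) (nat_lit 1) (.e (nat_lit 164329) (nat_lit 230) (.e (nat_lit 163867) (nat_lit 2) (.e (nat_lit 196656) (nat_lit 11) .nil)))))) (.g (nat_lit 1) (.e (nat_lit 140599) (nat_lit 0) .nil) .nil))))) (.nd (nat_lit 8) (.nd (nat_lit 9) 
(.lf (nat_lit 488677) (.g (nat_lit 3947) (.e (nat_lit 16436) (nat_lit 9) (.e (nat_lit 426566) (nat_lit 34) (.e (nat_lit 393253) (nat_lit 18) (.e (nat_lit 164327) (nat_lit 230) (.e (nat_lit 163871) (nat_lit 2) (.e (nat_lit 196654) (nat_lit 11) .nil)))))) (.g (nat_lit 1) (.e (nat_lit 138739) (nat_lit 0) .nil) .nil))) 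
(.lf (nat_lit 489189) (.g (nat_lit 3231) (.e (nat_lit 16463) (nat_lit 13) (.e (nat_lit 483341) (nat_lit 9) (.e (nat_lit 426106) (nat_lit 1) (.e (nat_lit 164332) (nat_lit 230) (.e (nat_lit 163866) (nat_lit 2) (.e (nat_lit 196654) (nat_lit 11) .nil)))))) (.g (nat_lit 1) (.e (nat_lit 140382) (nat_lit 0) .nil) .nil)))) (.nd (nat_lit 9) 
(.lf (nat_lit 488933) (.g (nat_lit 3710) (.e (nat_lit 16456) (nat_lit 12) (.e (nat_lit 475177) (nat_lit 24) (.e (nat_lit 516115) (nat_lit 1) (.e (nat_lit 164325) (nat_lit 230) (.e (nat_lit 163938) (nat_lit 18) .nil))))) (.g (nat_lit 0) (.e (nat_lit 139988) (nat_lit 0) .nil) .nil))) 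
(.lf (nat_lit 489445) (.g (nat_lit 2245) (.e (nat_lit 16466) (nat_lit 13) (.e (nat_lit 483341) (nat_lit 9) (.e (nat_lit 426108) (nat_lit 1) (.e (nat_lit 164331) (nat_lit 230) (.e (nat_lit 163867) (nat_lit 2) (.e (nat_lit 196656) (nat_lit 11) .nil)))))) (.g (nat_lit 1) (.e (nat_lit 140742) (nat_lit 0) .nil) .nil)))))))) 
(.nd (nat_lit 5) (.nd (nat_lit 6) (.nd (nat_lit 7) (.nd (nat_lit 8) (.nd (nat_lit 9) 
(.lf (nat_lit 488469) (.g (nat_lit 3465) (.e (nat_lit 16434) (nat_lit 9) (.e (nat_lit 426566) (nat_lit 34) (.e (nat_lit 393251) (nat_lit 18) (.e (nat_lit 164325) (nat_lit 230) (.e (nat_lit 163869) (nat_lit 2) (.e (nat_lit 196654) (nat_lit 11) .nil)))))) (.g (nat_lit 1) (.e (nat_lit 138406) (nat_lit 0) .nil) .nil))) 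
(.lf (nat_lit 488981) (.g (nat_lit 742) (.e (nat_lit 16458) (nat_lit 12) (.e (nat_lit 475181) (nat_lit 27) (.e (nat_lit 540703) (nat_lit 11) (.e (nat_lit 352263) (nat_lit 0) (.e (nat_lit 7936) (nat_lit 404) .nil))))) (.g (nat_lit 1) (.e (nat_lit 140051) (nat_lit 0) .nil) .nil)))) (.nd (nat_lit 9) 
(.lf (nat_lit 488725) (.g (nat_lit 2752) (.e (nat_lit 16437) (nat_lit 9) (.e (nat_lit 426566) (nat_lit 34) (.e (nat_lit 393253) (nat_lit 18) (.e (nat_lit 164331) (nat_lit 230) .nil)))) (.g (nat_lit 0) (.e (nat_lit 138833) (nat_lit 0) .nil) .nil))) 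
(.lf (nat_lit 489237) (.g (nat_lit 585) (.e (nat_lit 16463) (nat_lit 13) (.e (nat_lit 483411) (nat_lit 27) (.e (nat_lit 401446) (nat_lit 10) .nil))) (.g (nat_lit 0) (.e (nat_lit 140443) (nat_lit 0) .nil) .nil))))) (.nd (nat_lit 8) (.nd (nat_lit 9) 
(.lf (nat_lit 488597) (.g (nat_lit 2918) (.e (nat_lit 16435) (nat_lit 9) (.e (nat_lit 426566) (nat_lit 34) (.e (nat_lit 393253) (nat_lit 18) (.e (nat_lit 164332) (nat_lit 230) (.e (nat_lit 163867) (nat_lit 2) (.e (nat_lit 196653) (nat_lit 11) .nil)))))) (.g (nat_lit 1) (.e (nat_lit 138541) (nat_lit 0) .nil) .nil))) 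
(.lf (nat_lit 489109) (.g (nat_lit 1747) (.e (nat_lit 16463) (nat_lit 13) (.e (nat_lit 483337) (nat_lit 9) (.e (nat_lit 426107) (nat_lit 1) (.e (nat_lit 164324) (nat_lit 230) .nil)))) (.g (nat_lit 0) (.e (nat_lit 140297) (nat_lit 0) .nil) .nil)))) (.nd (nat_lit 9) 
(.lf (nat_lit 488853) (.g (nat_lit 1770) (.e (nat_lit 16446) (nat_lit 9) (.e (nat_lit 426116) (nat_lit 2) (.e (nat_lit 196654) (nat_lit 11) (.e (nat_lit 16392) (nat_lit 0) .nil)))) (.g (nat_lit 0) (.e (nat_lit 139186) (nat_lit 0) .nil) .nil))) 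
(.lf (nat_lit 489365) (.g (nat_lit 4369) (.e (nat_lit 16466) (nat_lit 13) (.e (nat_lit 483337) (nat_lit 9) (.e (nat_lit 426107) (nat_lit 1) (.e (nat_lit 164327) (nat_lit 230) (.e (nat_lit 163868) (nat_lit 2) (.e (nat_lit 196656) (nat_lit 11) .nil)))))) (.g (nat_lit 1) (.e (nat_lit 140662) (nat_lit 0) .nil) .nil)))))) (.nd (nat_lit 7) (.nd (nat_lit 8) (.nd (nat_lit 9) 
(.lf (nat_lit 488533) (.g (nat_lit 2244) (.e (nat_lit 16435) (nat_lit 9) (.e (nat_lit 426481) (nat_lit 27) (.e (nat_lit 336388) (nat_lit 27) (.e (nat_lit 426107) (nat_lit 1) (.e (nat_lit 164326) (nat_lit 230) (.e (nat_lit 163871) (nat_lit 2) (.e (nat_lit 196655) (nat_lit 11) .nil))))))) (.g (nat_lit 1) (.e (nat_lit 138477) (nat_lit 0) .nil) .nil))) 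
(.lf (nat_lit 489045) (.g (nat_lit 2159) (.e (nat_lit 16461) (nat_lit 12) (.e (nat_lit 475177) (nat_lit 24) (.e (nat_lit 516120) (nat_lit 1) (.e (nat_lit 164330) (nat_lit 230) (.e (nat_lit 163936) (nat_lit 18) .nil))))) (.g (nat_lit 0) (.e (nat_lit 140152) (nat_lit 0) .nil) .nil)))) (.nd (nat_lit 9) 
(.lf (nat_lit 488789) (.g (nat_lit 2643) (.e (nat_lit 16438) (nat_lit 9) (.e (nat_lit 426482) (nat_lit 27) (.e (nat_lit 336388) (nat_lit 27) (.e (nat_lit 426098) (nat_lit 1) (.e (nat_lit 164325) (nat_lit 230) (.e (nat_lit 163871) (nat_lit 2) (.e (nat_lit 196654) (nat_lit 11) .nil))))))) (.g (nat_lit 1) (.e (nat_lit 138913) (nat_lit 0) .nil) .nil))) 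
(.lf (nat_lit 489301) (.g (nat_lit 3731) (.e (nat_lit 16465) (nat_lit 13) (.e (nat_lit 483341) (nat_lit 9) (.e (nat_lit 426107) (nat_lit 1) (.e (nat_lit 164325) (nat_lit 230) (.e (nat_lit 163868) (nat_lit 2) (.e (nat_lit 196655) (nat_lit 11) .nil)))))) (.g (nat_lit 1) (.e (nat_lit 140578) (nat_lit 0) .nil) .nil))))) (.nd (nat_lit 8) (.nd (nat_lit 9) 
(.lf (nat_lit 488661) (.g (nat_lit 2516) (.e (nat_lit 16436) (nat_lit 9) (.e (nat_lit 426486) (nat_lit 27) (.e (nat_lit 336418) (nat_lit 27) (.e (nat_lit 426098) (nat_lit 1) (.e (nat_lit 164327) (nat_lit 230) (.e (nat_lit 163868) (nat_lit 2) (.e (nat_lit 196654) (nat_lit 11) .nil))))))) (.g (nat_lit 1) (.e (nat_lit 138713) (nat_lit 0) .nil) .nil))) 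
(.lf (nat_lit 489173) (.g (nat_lit 3149) (.e (nat_lit 16463) (nat_lit 13) (.e (nat_lit 483341) (nat_lit 9) (.e (nat_lit 426106) (nat_lit 1) (.e (nat_lit 164325) (nat_lit 230) (.e (nat_lit 163868) (nat_lit 2) (.e (nat_lit 196654) (nat_lit 11) .nil)))))) (.g (nat_lit 1) (.e (nat_lit 140366) (nat_lit 0) .nil) .nil)))) (.nd (nat_lit 9) 
(.lf (nat_lit 488917) (.g (nat_lit 658) (.e (nat_lit 16454) (nat_lit 11) (.e (nat_lit 458789) (nat_lit 23) (.e (nat_lit 532569) (nat_lit 16) .nil))) (.g (nat_lit 0) (.e (nat_lit 139962) (nat_lit 0) .nil) .nil))) 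
(.lf (nat_lit 489429) (.g (nat_lit 3364) (.e (nat_lit 16466) (nat_lit 13) (.e (nat_lit 483341) (nat_lit 9) (.e (nat_lit 426107) (nat_lit 1) (.e (nat_lit 164325) (nat_lit 230) (.e (nat_lit 163871) (nat_lit 2) (.e (nat_lit 196654) (nat_lit 11) .nil)))))) (.g (nat_lit 1) (.e (nat_lit 140726) (nat_lit 0) .nil) .nil))))))) (.nd (nat_lit 6) (.nd (nat_lit 7) (.nd (nat_lit 8) (.nd (nat_lit 9) 
(.lf (nat_lit 488501) (.g (nat_lit 3692) (.e (nat_lit 16434) (nat_lit 9) (.e (nat_lit 426566) (nat_lit 34) (.e (nat_lit 393253) (nat_lit 18) (.e (nat_lit 164325) (nat_lit 230) (.e (nat_lit 163868) (nat_lit 2) (.e (nat_lit 196656) (nat_lit 11) .nil)))))) (.g (nat_lit 1) (.e (nat_lit 138438) (nat_lit 0) .nil) .nil))) 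
(.lf (nat_lit 489013) (.g (nat_lit 3487) (.e (nat_lit 16459) (nat_lit 12) (.e (nat_lit 475179) (nat_lit 24) (.e (nat_lit 516117) (nat_lit 1) (.e (nat_lit 164330) (nat_lit 230) (.e (nat_lit 163936) (nat_lit 18) .nil))))) (.g (nat_lit 0) (.e (nat_lit 140101) (nat_lit 0) .nil) .nil)))) (.nd (nat_lit 9) 
(.lf (nat_lit 488757) (.g (nat_lit 3674) (.e (nat_lit 16438) (nat_lit 9) (.e (nat_lit 426482) (nat_lit 27) (.e (nat_lit 336385) (nat_lit 27) (.e (nat_lit 426107) (nat_lit 1) (.e (nat_lit 164327) (nat_lit 230) (.e (nat_lit 163868) (nat_lit 2) (.e (nat_lit 196654) (nat_lit 11) .nil))))))) (.g (nat_lit 1) (.e (nat_lit 138875) (nat_lit 0) .nil) .nil))) 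
(.lf (nat_lit 489269) (.g (nat_lit 3817) (.e (nat_lit 16465) (nat_lit 13) (.e (nat_lit 483341) (nat_lit 9) (.e (nat_lit 426098) (nat_lit 1) (.e (nat_lit 164325) (nat_lit 230) (.e (nat_lit 163869) (nat_lit 2) (.e (nat_lit 196655) (nat_lit 11) .nil)))))) (.g (nat_lit 1) (.e (nat_lit 140531) (nat_lit 0) .nil) .nil))))) (.nd (nat_lit 8) (.nd (nat_lit 9) 
(.lf (nat_lit 488629) (.g (nat_lit 1401) (.e (nat_lit 16436) (nat_lit 9) (.e (nat_lit 426131) (nat_lit 3) (.e (nat_lit 204880) (nat_lit 32) (.e (nat_lit 385108) (nat_lit 51) .nil)))) (.g (nat_lit 0) (.e (nat_lit 138640) (nat_lit 0) .nil) .nil))) 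
(.lf (nat_lit 489141) (.g (nat_lit 3749) (.e (nat_lit 16463) (nat_lit 13) (.e (nat_lit 483341) (nat_lit 9) (.e (nat_lit 426098) (nat_lit 1) (.e (nat_lit 164327) (nat_lit 230) (.e (nat_lit 163871) (nat_lit 2) (.e (nat_lit 196654) (nat_lit 11) .nil)))))) (.g (nat_lit 1) (.e (nat_lit 140333) (nat_lit 0) .nil) .nil)))) (.nd (nat_lit 9) 
(.lf (nat_lit 488885) (.g (nat_lit 3930) (.e (nat_lit 16448) (nat_lit 10) (.e (nat_lit 434231) (nat_lit 23) (.e (nat_lit 532529) (nat_lit 9) (.e (nat_lit 336334) (nat_lit 20) (.e (nat_lit 221210) (nat_lit 22) (.e (nat_lit 196656) (nat_lit 11) .nil)))))) (.g (nat_lit 1) (.e (nat_lit 139456) (nat_lit 0) .nil) .nil))) 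
(.lf (nat_lit 489397) (.g (nat_lit 3739) (.e (nat_lit 16466) (nat_lit 13) (.e (nat_lit 483341) (nat_lit 9) (.e (nat_lit 426100) (nat_lit 1) (.e (nat_lit 164332) (nat_lit 230) (.e (nat_lit 163869) (nat_lit 2) (.e (nat_lit 196654) (nat_lit 11) .nil)))))) (.g (nat_lit 1) (.e (nat_lit 140694) (nat_lit 0) .nil) .nil)))))) (.nd (nat_lit 7) (.nd (nat_lit 8) (.nd (nat_lit 9) 
(.lf (nat_lit 488565) (.g (nat_lit 3335) (.e (nat_lit 16435) (nat_lit 9) (.e (nat_lit 426566) (nat_lit 34) (.e (nat_lit 393252) (nat_lit 18) (.e (nat_lit 164332) (nat_lit 230) (.e (nat_lit 163867) (nat_lit 2) (.e (nat_lit 196654) (nat_lit 11) .nil)))))) (.g (nat_lit 1) (.e (nat_lit 138509) (nat_lit 0) .nil) .nil))) 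
(.lf (nat_lit 489077) (.g (nat_lit 512) (.e (nat_lit 16462) (nat_lit 13) (.e (nat_lit 483350) (nat_lit 17) (.e (nat_lit 6218) (nat_lit 333) .nil))) (.g (nat_lit 0) (.e (nat_lit 140239) (nat_lit 0) .nil) .nil)))) (.nd (nat_lit 9) 
(.lf (nat_lit 488821) (.g (nat_lit 1520) (.e (nat_lit 16438) (nat_lit 9) (.e (nat_lit 426568) (nat_lit 34) (.e (nat_lit 393234) (nat_lit 17) (.e (nat_lit 2536) (nat_lit 157) .nil)))) (.g (nat_lit 0) (.e (nat_lit 138953) (nat_lit 0) .nil) .nil))) 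
(.lf (nat_lit 489333) (.g (nat_lit 2941) (.e (nat_lit 16465) (nat_lit 13) (.e (nat_lit 483410) (nat_lit 27) (.e (nat_lit 401444) (nat_lit 9) (.e (nat_lit 426163) (nat_lit 6) (.e (nat_lit 253991) (nat_lit 11) .nil))))) (.g (nat_lit 1) (.e (nat_lit 140630) (nat_lit 0) .nil) .nil))))) (.nd (nat_lit 8) (.nd (nat_lit 9) 
(.lf (nat_lit 488693) (.g (nat_lit 2793) (.e (nat_lit 16437) (nat_lit 9) (.e (nat_lit 426566) (nat_lit 34) (.e (nat_lit 393251) (nat_lit 18) (.e (nat_lit 164325) (nat_lit 230) (.e (nat_lit 163868) (nat_lit 2) (.e (nat_lit 196654) (nat_lit 11) .nil)))))) (.g (nat_lit 1) (.e (nat_lit 138801) (nat_lit 0) .nil) .nil))) 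
(.lf (nat_lit 489205) (.g (nat_lit 3650) (.e (nat_lit 16463) (nat_lit 13) (.e (nat_lit 483341) (nat_lit 9) (.e (nat_lit 426107) (nat_lit 1) (.e (nat_lit 164325) (nat_lit 230) (.e (nat_lit 163871) (nat_lit 2) (.e (nat_lit 196654) (nat_lit 11) .nil)))))) (.g (nat_lit 1) (.e (nat_lit 140400) (nat_lit 0) .nil) .nil)))) (.nd (nat_lit 9) 
(.lf (nat_lit 488949) (.g (nat_lit 2600) (.e (nat_lit 16456) (nat_lit 12) (.e (nat_lit 475179) (nat_lit 24) (.e (nat_lit 516119) (nat_lit 1) (.e (nat_lit 164325) (nat_lit 230) (.e (nat_lit 163938) (nat_lit 18) (.e (nat_lit 483072) (nat_lit 10) .nil)))))) (.g (nat_lit 1) (.e (nat_lit 140009) (nat_lit 0) .nil) .nil))) 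
(.lf (nat_lit 489461) (.g (nat_lit 3450) (.e (nat_lit 16466) (nat_lit 13) (.e (nat_lit 483412) (nat_lit 27) (.e (nat_lit 401444) (nat_lit 9) (.e (nat_lit 426163) (nat_lit 6) (.e (nat_lit 253992) (nat_lit 11) .nil))))) (.g (nat_lit 1) (.e (nat_lit 140759) (nat_lit 0) .nil) .nil))))))))) (.nd (nat_lit 4) (.nd (nat_lit 5) (.nd (nat_lit 6) (.nd (nat_lit 7) (.nd (nat_lit 8) (.nd (nat_lit 9) 
(.lf (nat_lit 488461) (.g (nat_lit 4176) (.e (nat_lit 16434) (nat_lit 9) (.e (nat_lit 426436) (nat_lit 18) (.e (nat_lit 98335) (nat_lit 18) (.e (nat_lit 164324) (nat_lit 230) .nil)))) (.g (nat_lit 0) (.e (nat_lit 138397) (nat_lit 0) .nil) .nil))) 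
(.lf (nat_lit 488973) (.g (nat_lit 1868) (.e (nat_lit 16457) (nat_lit 12) (.e (nat_lit 475183) (nat_lit 29) (.e (nat_lit 557100) (nat_lit 13) (.e (nat_lit 172113) (nat_lit 10) .nil)))) (.g (nat_lit 0) (.e (nat_lit 140038) (nat_lit 0) .nil) .nil)))) (.nd (nat_lit 9) 
(.lf (nat_lit 488717) (.g (nat_lit 3603) (.e (nat_lit 16437) (nat_lit 9) (.e (nat_lit 426566) (nat_lit 34) (.e (nat_lit 393253) (nat_lit 18) (.e (nat_lit 164325) (nat_lit 230) (.e (nat_lit 163871) (nat_lit 2) (.e (nat_lit 196654) (nat_lit 11) .nil)))))) (.g (nat_lit 1) (.e (nat_lit 138825) (nat_lit 0) .nil) .nil))) 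
(.lf (nat_lit 489229) (.g (nat_lit 4043) (.e (nat_lit 16463) (nat_lit 13) (.e (nat_lit 483341) (nat_lit 9) (.e (nat_lit 426108) (nat_lit 1) (.e (nat_lit 164332) (nat_lit 230) (.e (nat_lit 163867) (nat_lit 2) (.e (nat_lit 196654) (nat_lit 11) .nil)))))) (.g (nat_lit 1) (.e (nat_lit 140427) (nat_lit 0) .nil) .nil))))) (.nd (nat_lit 8) (.nd (nat_lit 9) 
(.lf (nat_lit 488589) (.g (nat_lit 3492) (.e (nat_lit 16435) (nat_lit 9) (.e (nat_lit 426566) (nat_lit 34) (.e (nat_lit 393253) (nat_lit 18) (.e (nat_lit 164330) (nat_lit 230) (.e (nat_lit 163869) (nat_lit 2) (.e (nat_lit 196653) (nat_lit 11) .nil)))))) (.g (nat_lit 1) (.e (nat_lit 138533) (nat_lit 0) .nil) .nil))) 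
(.lf (nat_lit 489101) (.g (nat_lit 3152) (.e (nat_lit 16463) (nat_lit 13) (.e (nat_lit 483337) (nat_lit 9) (.e (nat_lit 426100) (nat_lit 1) (.e (nat_lit 164332) (nat_lit 230) (.e (nat_lit 163869) (nat_lit 2) (.e (nat_lit 196653) (nat_lit 11) .nil)))))) (.g (nat_lit 1) (.e (nat_lit 140288) (nat_lit 0) .nil) .nil)))) (.nd (nat_lit 9) 
(.lf (nat_lit 488845) (.g (nat_lit 988) (.e (nat_lit 16444) (nat_lit 9) (.e (nat_lit 426129) (nat_lit 3) (.e (nat_lit 204880) (nat_lit 32) (.e (nat_lit 385096) (nat_lit 49) .nil)))) (.g (nat_lit 0) (.e (nat_lit 139091) (nat_lit 0) .nil) .nil))) 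
(.lf (nat_lit 489357) (.g (nat_lit 1396) (.e (nat_lit 16466) (nat_lit 13) (.e (nat_lit 483337) (nat_lit 9) (.e (nat_lit 426107) (nat_lit 1) (.e (nat_lit 164325) (nat_lit 230) .nil)))) (.g (nat_lit 0) (.e (nat_lit 140654) (nat_lit 0) .nil) .nil)))))) (.nd (nat_lit 7) (.nd (nat_lit 8) (.nd (nat_lit 9) 
(.lf (nat_lit 488525) (.g (nat_lit 3203) (.e (nat_lit 16435) (nat_lit 9) (.e (nat_lit 426131) (nat_lit 3) (.e (nat_lit 204885) (nat_lit 33) (.e (nat_lit 401448) (nat_lit 10) (.e (nat_lit 434246) (nat_lit 28) (.e (nat_lit 573470) (nat_lit 11) .nil)))))) (.g (nat_lit 1) (.e (nat_lit 138467) (nat_lit 0) .nil) .nil))) 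
(.lf (nat_lit 489037) (.g (nat_lit 1602) (.e (nat_lit 16460) (nat_lit 12) (.e (nat_lit 475185) (nat_lit 29) (.e (nat_lit 557100) (nat_lit 13) (.e (nat_lit 172113) (nat_lit 10) .nil)))) (.g (nat_lit 0) (.e (nat_lit 140134) (nat_lit 0) .nil) .nil)))) (.nd (nat_lit 9) 
(.lf (nat_lit 488781) (.g (nat_lit 2882) (.e (nat_lit 16438) (nat_lit 9) (.e (nat_lit 426482) (nat_lit 27) (.e (nat_lit 336389) (nat_lit 27) (.e (nat_lit 426107) (nat_lit 1) (.e (nat_lit 164326) (nat_lit 230) .nil))))) (.g (nat_lit 0) (.e (nat_lit 138904) (nat_lit 0) .nil) .nil))) 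
(.lf (nat_lit 489293) (.g (nat_lit 4527) (.e (nat_lit 16465) (nat_lit 13) (.e (nat_lit 483341) (nat_lit 9) (.e (nat_lit 426107) (nat_lit 1) (.e (nat_lit 164322) (nat_lit 230) (.e (nat_lit 163867) (nat_lit 2) (.e (nat_lit 196655) (nat_lit 11) .nil)))))) (.g (nat_lit 1) (.e (nat_lit 140568) (nat_lit 0) .nil) .nil))))) (.nd (nat_lit 8) (.nd (nat_lit 9) 
(.lf (nat_lit 488653) (.g (nat_lit 2984) (.e (nat_lit 16436) (nat_lit 9) (.e (nat_lit 426482) (nat_lit 27) (.e (nat_lit 336389) (nat_lit 27) (.e (nat_lit 426098) (nat_lit 1) (.e (nat_lit 164325) (nat_lit 230) (.e (nat_lit 163869) (nat_lit 2) (.e (nat_lit 196654) (nat_lit 11) .nil))))))) (.g (nat_lit 1) (.e (nat_lit 138703) (nat_lit 0) .nil) .nil))) 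
(.lf (nat_lit 489165) (.g (nat_lit 3858) (.e (nat_lit 16463) (nat_lit 13) (.e (nat_lit 483341) (nat_lit 9) (.e (nat_lit 426106) (nat_lit 1) (.e (nat_lit 164322) (nat_lit 230) (.e (nat_lit 163867) (nat_lit 2) (.e (nat_lit 196656) (nat_lit 11) .nil)))))) (.g (nat_lit 1) (.e (nat_lit 140358) (nat_lit 0) .nil) .nil)))) (.nd (nat_lit 9) 
(.lf (nat_lit 488909) (.g (nat_lit 2545) (.e (nat_lit 16449) (nat_lit 10) (.e (nat_lit 434233) (nat_lit 23) (.e (nat_lit 532569) (nat_lit 16) (.e (nat_lit 401448) (nat_lit 10) (.e (nat_lit 434246) (nat_lit 28) (.e (nat_lit 573471) (nat_lit 11) .nil)))))) (.g (nat_lit 1) (.e (nat_lit 139609) (nat_lit 0) .nil) .nil))) 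
(.lf (nat_lit 489421) (.g (nat_lit 2574) (.e (nat_lit 16466) (nat_lit 13) (.e (nat_lit 483341) (nat_lit 9) (.e (nat_lit 426107) (nat_lit 1) (.e (nat_lit 164322) (nat_lit 230) (.e (nat_lit 163871) (nat_lit 2) (.e (nat_lit 196656) (nat_lit 11) .nil)))))) (.g (nat_lit 1) (.e (nat_lit 140718) (nat_lit 0) .nil) .nil))))))) (.nd (nat_lit 6) (.nd (nat_lit 7) (.nd (nat_lit 8) (.nd (nat_lit 9) 
(.lf (nat_lit 488493) (.g (nat_lit 2974) (.e (nat_lit 16434) (nat_lit 9) (.e (nat_lit 426566) (nat_lit 34) (.e (nat_lit 393253) (nat_lit 18) (.e (nat_lit 164324) (nat_lit 230) (.e (nat_lit 163867) (nat_lit 2) (.e (nat_lit 196656) (nat_lit 11) .nil)))))) (.g (nat_lit 1) (.e (nat_lit 138430) (nat_lit 0) .nil) .nil))) 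
(.lf (nat_lit 489005) (.g (nat_lit 1971) (.e (nat_lit 16459) (nat_lit 12) (.e (nat_lit 475177) (nat_lit 24) (.e (nat_lit 516117) (nat_lit 1) (.e (nat_lit 164330) (nat_lit 230) (.e (nat_lit 163936) (nat_lit 18) (.e (nat_lit 483072) (nat_lit 10) .nil)))))) (.g (nat_lit 1) (.e (nat_lit 140088) (nat_lit 0) .nil) .nil)))) (.nd (nat_lit 9) 
(.lf (nat_lit 488749) (.g (nat_lit 3289) (.e (nat_lit 16438) (nat_lit 9) (.e (nat_lit 426482) (nat_lit 27) (.e (nat_lit 336385) (nat_lit 27) (.e (nat_lit 426098) (nat_lit 1) (.e (nat_lit 164327) (nat_lit 230) (.e (nat_lit 163868) (nat_lit 2) (.e (nat_lit 196656) (nat_lit 11) .nil))))))) (.g (nat_lit 1) (.e (nat_lit 138864) (nat_lit 0) .nil) .nil))) 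
(.lf (nat_lit 489261) (.g (nat_lit 1882) (.e (nat_lit 16465) (nat_lit 13) (.e (nat_lit 483341) (nat_lit 9) (.e (nat_lit 426003) (nat_lit 0) (.e (nat_lit 2458) (nat_lit 157) .nil)))) (.g (nat_lit 0) (.e (nat_lit 140520) (nat_lit 0) .nil) .nil))))) (.nd (nat_lit 8) (.nd (nat_lit 9) 
(.lf (nat_lit 488621) (.g (nat_lit 2934) (.e (nat_lit 16436) (nat_lit 9) (.e (nat_lit 426131) (nat_lit 3) (.e (nat_lit 204854) (nat_lit 26) (.e (nat_lit 336337) (nat_lit 20) (.e (nat_lit 221212) (nat_lit 22) (.e (nat_lit 196656) (nat_lit 11) .nil)))))) (.g (nat_lit 1) (.e (nat_lit 138625) (nat_lit 0) .nil) .nil))) 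
(.lf (nat_lit 489133) (.g (nat_lit 3232) (.e (nat_lit 16463) (nat_lit 13) (.e (nat_lit 483341) (nat_lit 9) (.e (nat_lit 426097) (nat_lit 1) (.e (nat_lit 164327) (nat_lit 230) (.e (nat_lit 163871) (nat_lit 2) (.e (nat_lit 196654) (nat_lit 11) .nil)))))) (.g (nat_lit 1) (.e (nat_lit 140325) (nat_lit 0) .nil) .nil)))) (.nd (nat_lit 9) 
(.lf (nat_lit 488877) (.g (nat_lit 2094) (.e (nat_lit 16447) (nat_lit 10) (.e (nat_lit 434212) (nat_lit 18) (.e (nat_lit 6425) (nat_lit 342) (.e (nat_lit 229412) (nat_lit 14) (.e (nat_lit 442434) (nat_lit 26) .nil))))) (.g (nat_lit 0) (.e (nat_lit 139321) (nat_lit 0) .nil) .nil))) 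
(.lf (nat_lit 489389) (.g (nat_lit 2854) (.e (nat_lit 16466) (nat_lit 13) (.e (nat_lit 483341) (nat_lit 9) (.e (nat_lit 426099) (nat_lit 1) (.e (nat_lit 164332) (nat_lit 230) (.e (nat_lit 163866) (nat_lit 2) (.e (nat_lit 196654) (nat_lit 11) .nil)))))) (.g (nat_lit 1) (.e (nat_lit 140686) (nat_lit 0) .nil) .nil)))))) (.nd (nat_lit 7) (.nd (nat_lit 8) (.nd (nat_lit 9) 
(.lf (nat_lit 488557) (.g (nat_lit 3931) (.e (nat_lit 16435) (nat_lit 9) (.e (nat_lit 426566) (nat_lit 34) (.e (nat_lit 393251) (nat_lit 18) (.e (nat_lit 164332) (nat_lit 230) (.e (nat_lit 163869) (nat_lit 2) (.e (nat_lit 196653) (nat_lit 11) .nil)))))) (.g (nat_lit 1) (.e (nat_lit 138501) (nat_lit 0) .nil) .nil))) 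
(.lf (nat_lit 489069) (.g (nat_lit 2203) (.e (nat_lit 16461) (nat_lit 12) (.e (nat_lit 475185) (nat_lit 29) (.e (nat_lit 557098) (nat_lit 13) (.e (nat_lit 172105) (nat_lit 10) (.e (nat_lit 434247) (nat_lit 28) (.e (nat_lit 573469) (nat_lit 11) .nil)))))) (.g (nat_lit 1) (.e (nat_lit 140183) (nat_lit 0) .nil) .nil)))) (.nd (nat_lit 9) 
(.lf (nat_lit 488813) (.g (nat_lit 2321) (.e (nat_lit 16438) (nat_lit 9) (.e (nat_lit 426482) (nat_lit 27) (.e (nat_lit 336417) (nat_lit 27) (.e (nat_lit 426099) (nat_lit 1) (.e (nat_lit 164332) (nat_lit 230) (.e (nat_lit 163869) (nat_lit 2) (.e (nat_lit 196654) (nat_lit 11) .nil))))))) (.g (nat_lit 1) (.e (nat_lit 138943) (nat_lit 0) .nil) .nil))) 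
(.lf (nat_lit 489325) (.g (nat_lit 3975) (.e (nat_lit 16465) (nat_lit 13) (.e (nat_lit 483341) (nat_lit 9) (.e (nat_lit 426108) (nat_lit 1) (.e (nat_lit 164331) (nat_lit 230) (.e (nat_lit 163867) (nat_lit 2) (.e (nat_lit 196655) (nat_lit 11) .nil)))))) (.g (nat_lit 1) (.e (nat_lit 140611) (nat_lit 0) .nil) .nil))))) (.nd (nat_lit 8) (.nd (nat_lit 9) 
(.lf (nat_lit 488685) (.g (nat_lit 2093) (.e (nat_lit 16436) (nat_lit 9) (.e (nat_lit 426567) (nat_lit 34) (.e (nat_lit 393251) (nat_lit 18) (.e (nat_lit 164327) (nat_lit 230) (.e (nat_lit 163868) (nat_lit 2) (.e (nat_lit 196654) (nat_lit 11) .nil)))))) (.g (nat_lit 1) (.e (nat_lit 138747) (nat_lit 0) .nil) .nil))) 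
(.lf (nat_lit 489197) (.g (nat_lit 3668) (.e (nat_lit 16463) (nat_lit 13) (.e (nat_lit 483341) (nat_lit 9) (.e (nat_lit 426107) (nat_lit 1) (.e (nat_lit 164324) (nat_lit 230) (.e (nat_lit 163868) (nat_lit 2) (.e (nat_lit 196654) (nat_lit 11) .nil)))))) (.g (nat_lit 1) (.e (nat_lit 140392) (nat_lit 0) .nil) .nil)))) (.nd (nat_lit 9) 
(.lf (nat_lit 488941) (.g (nat_lit 3568) (.e (nat_lit 16456) (nat_lit 12) (.e (nat_lit 475179) (nat_lit 24) (.e (nat_lit 516115) (nat_lit 1) (.e (nat_lit 164325) (nat_lit 230) (.e (nat_lit 163936) (nat_lit 18) (.e (nat_lit 483072) (nat_lit 10) .nil)))))) (.g (nat_lit 1) (.e (nat_lit 140000) (nat_lit 0) .nil) .nil))) 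
(.lf (nat_lit 489453) (.g (nat_lit 1583) (.e (nat_lit 16466) (nat_lit 13) (.e (nat_lit 483372) (nat_lit 21) (.e (nat_lit 319505) (nat_lit 10) (.e (nat_lit 4925) (nat_lit 287) .nil)))) (.g (nat_lit 0) (.e (nat_lit 140751) (nat_lit 0) .nil) .nil)))))))) (.nd (nat_lit 5) (.nd (nat_lit 6) (.nd (nat_lit 7) (.nd (nat_lit 8) (.nd (nat_lit 9) 
(.lf (nat_lit 488477) (.g (nat_lit 2542) (.e (nat_lit 16434) (nat_lit 9) (.e (nat_lit 426566) (nat_lit 34) (.e (nat_lit 393251) (nat_lit 18) (.e (nat_lit 164332) (nat_lit 230) (.e (nat_lit 163866) (nat_lit 2) (.e (nat_lit 196654) (nat_lit 11) .nil)))))) (.g (nat_lit 1) (.e (nat_lit 138414) (nat_lit 0) .nil) .nil))) 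
(.lf (nat_lit 488989) (.g (nat_lit 2641) (.e (nat_lit 16458) (nat_lit 12) (.e (nat_lit 475183) (nat_lit 29) (.e (nat_lit 557100) (nat_lit 13) (.e (nat_lit 172113) (nat_lit 10) (.e (nat_lit 434245) (nat_lit 28) (.e (nat_lit 573471) (nat_lit 11) .nil)))))) (.g (nat_lit 1) (.e (nat_lit 140064) (nat_lit 0) .nil) .nil)))) (.nd (nat_lit 9) 
(.lf (nat_lit 488733) (.g (nat_lit 2666) (.e (nat_lit 16437) (nat_lit 9) (.e (nat_lit 426566) (nat_lit 34) (.e (nat_lit 393254) (nat_lit 18) (.e (nat_lit 164332) (nat_lit 230) (.e (nat_lit 163869) (nat_lit 2) (.e (nat_lit 196655) (nat_lit 11) .nil)))))) (.g (nat_lit 1) (.e (nat_lit 138841) (nat_lit 0) .nil) .nil))) 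
(.lf (nat_lit 489245) (.g (nat_lit 2079) (.e (nat_lit 16463) (nat_lit 13) (.e (nat_lit 483413) (nat_lit 27) (.e (nat_lit 401446) (nat_lit 10) (.e (nat_lit 434292) (nat_lit 44) .nil)))) (.g (nat_lit 0) (.e (nat_lit 140458) (nat_lit 0) .nil) .nil))))) (.nd (nat_lit 8) (.nd (nat_lit 9) 
(.lf (nat_lit 488605) (.g (nat_lit 2204) (.e (nat_lit 16436) (nat_lit 9) (.e (nat_lit 426131) (nat_lit 3) (.e (nat_lit 204851) (nat_lit 26) (.e (nat_lit 336336) (nat_lit 20) (.e (nat_lit 221212) (nat_lit 22) (.e (nat_lit 196656) (nat_lit 11) .nil)))))) (.g (nat_lit 1) (.e (nat_lit 138572) (nat_lit 0) .nil) .nil))) 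
(.lf (nat_lit 489117) (.g (nat_lit 2992) (.e (nat_lit 16463) (nat_lit 13) (.e (nat_lit 483337) (nat_lit 9) (.e (nat_lit 426107) (nat_lit 1) (.e (nat_lit 164326) (nat_lit 230) (.e (nat_lit 163868) (nat_lit 2) (.e (nat_lit 196653) (nat_lit 11) .nil)))))) (.g (nat_lit 1) (.e (nat_lit 140306) (nat_lit 0) .nil) .nil)))) (.nd (nat_lit 9) 
(.lf (nat_lit 488861) (.g (nat_lit 2294) (.e (nat_lit 16446) (nat_lit 9) (.e (nat_lit 426133) (nat_lit 3) (.e (nat_lit 204885) (nat_lit 33) (.e (nat_lit 401448) (nat_lit 10) (.e (nat_lit 434246) (nat_lit 28) (.e (nat_lit 573470) (nat_lit 11) .nil)))))) (.g (nat_lit 1) (.e (nat_lit 139217) (nat_lit 0) .nil) .nil))) 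
(.lf (nat_lit 489373) (.g (nat_lit 3030) (.e (nat_lit 16466) (nat_lit 13) (.e (nat_lit 483337) (nat_lit 9) (.e (nat_lit 426108) (nat_lit 1) (.e (nat_lit 164330) (nat_lit 230) (.e (nat_lit 163869) (nat_lit 2) (.e (nat_lit 196656) (nat_lit 11) .nil)))))) (.g (nat_lit 1) (.e (nat_lit 140670) (nat_lit 0) .nil) .nil)))))) (.nd (nat_lit 7) (.nd (nat_lit 8) (.nd (nat_lit 9) 
(.lf (nat_lit 488541) (.g (nat_lit 3662) (.e (nat_lit 16435) (nat_lit 9) (.e (nat_lit 426566) (nat_lit 34) (.e (nat_lit 393251) (nat_lit 18) (.e (nat_lit 164325) (nat_lit 230) (.e (nat_lit 163866) (nat_lit 2) (.e (nat_lit 196654) (nat_lit 11) .nil)))))) (.g (nat_lit 1) (.e (nat_lit 138485) (nat_lit 0) .nil) .nil))) 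
(.lf (nat_lit 489053) (.g (nat_lit 2732) (.e (nat_lit 16461) (nat_lit 12) (.e (nat_lit 475179) (nat_lit 24) (.e (nat_lit 516117) (nat_lit 1) (.e (nat_lit 164332) (nat_lit 230) (.e (nat_lit 163938) (nat_lit 18) .nil))))) (.g (nat_lit 0) (.e (nat_lit 140164) (nat_lit 0) .nil) .nil)))) (.nd (nat_lit 9) 
(.lf (nat_lit 488797) (.g (nat_lit 2875) (.e (nat_lit 16438) (nat_lit 9) (.e (nat_lit 426482) (nat_lit 27) (.e (nat_lit 336388) (nat_lit 27) (.e (nat_lit 426107) (nat_lit 1) (.e (nat_lit 164325) (nat_lit 230) (.e (nat_lit 163868) (nat_lit 2) (.e (nat_lit 196656) (nat_lit 11) .nil))))))) (.g (nat_lit 1) (.e (nat_lit 138922) (nat_lit 0) .nil) .nil))) 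
(.lf (nat_lit 489309) (.g (nat_lit 3689) (.e (nat_lit 16465) (nat_lit 13) (.e (nat_lit 483341) (nat_lit 9) (.e (nat_lit 426107) (nat_lit 1) (.e (nat_lit 164327) (nat_lit 230) (.e (nat_lit 163871) (nat_lit 2) (.e (nat_lit 196653) (nat_lit 11) .nil)))))) (.g (nat_lit 1) (.e (nat_lit 140589) (nat_lit 0) .nil) .nil))))) (.nd (nat_lit 8) (.nd (nat_lit 9) 
(.lf (nat_lit 488669) (.g (nat_lit 1088) (.e (nat_lit 16436) (nat_lit 9) (.e (nat_lit 426555) (nat_lit 32) (.e (nat_lit 376857) (nat_lit 21) (.e (nat_lit 57854) (nat_lit 252) .nil)))) (.g (nat_lit 0) (.e (nat_lit 138723) (nat_lit 0) .nil) .nil))) 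
(.lf (nat_lit 489181) (.g (nat_lit 3164) (.e (nat_lit 16463) (nat_lit 13) (.e (nat_lit 483341) (nat_lit 9) (.e (nat_lit 426106) (nat_lit 1) (.e (nat_lit 164327) (nat_lit 230) (.e (nat_lit 163866) (nat_lit 2) (.e (nat_lit 196654) (nat_lit 11) .nil)))))) (.g (nat_lit 1) (.e (nat_lit 140374) (nat_lit 0) .nil) .nil)))) (.nd (nat_lit 9) 
(.lf (nat_lit 488925) (.g (nat_lit 911) (.e (nat_lit 16455) (nat_lit 12) (.e (nat_lit 475179) (nat_lit 24) (.e (nat_lit 516120) (nat_lit 1) .nil))) (.g (nat_lit 0) (.e (nat_lit 139972) (nat_lit 0) .nil) .nil))) 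
(.lf (nat_lit 489437) (.g (nat_lit 3165) (.e (nat_lit 16466) (nat_lit 13) (.e (nat_lit 483341) (nat_lit 9) (.e (nat_lit 426108) (nat_lit 1) (.e (nat_lit 164329) (nat_lit 230) (.e (nat_lit 163866) (nat_lit 2) (.e (nat_lit 196654) (nat_lit 11) .nil)))))) (.g (nat_lit 1) (.e (nat_lit 140734) (nat_lit 0) .nil) .nil))))))) (.nd (nat_lit 6) (.nd (nat_lit 7) (.nd (nat_lit 8) (.nd (nat_lit 9) 
(.lf (nat_lit 488509) (.g (nat_lit 3964) (.e (nat_lit 16434) (nat_lit 9) (.e (nat_lit 426566) (nat_lit 34) (.e (nat_lit 393253) (nat_lit 18) (.e (nat_lit 164327) (nat_lit 230) (.e (nat_lit 163871) (nat_lit 2) (.e (nat_lit 196654) (nat_lit 11) .nil)))))) (.g (nat_lit 1) (.e (nat_lit 138446) (nat_lit 0) .nil) .nil))) 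
(.lf (nat_lit 489021) (.g (nat_lit 2797) (.e (nat_lit 16459) (nat_lit 12) (.e (nat_lit 475183) (nat_lit 29) (.e (nat_lit 557100) (nat_lit 13) (.e (nat_lit 172113) (nat_lit 10) (.e (nat_lit 434245) (nat_lit 28) (.e (nat_lit 573469) (nat_lit 11) .nil)))))) (.g (nat_lit 1) (.e (nat_lit 140110) (nat_lit 0) .nil) .nil)))) (.nd (nat_lit 9) 
(.lf (nat_lit 488765) (.g (nat_lit 3103) (.e (nat_lit 16438) (nat_lit 9) (.e (nat_lit 426482) (nat_lit 27) (.e (nat_lit 336386) (nat_lit 27) (.e (nat_lit 426098) (nat_lit 1) (.e (nat_lit 164327) (nat_lit 230) (.e (nat_lit 163868) (nat_lit 2) (.e (nat_lit 196654) (nat_lit 11) .nil))))))) (.g (nat_lit 1) (.e (nat_lit 138886) (nat_lit 0) .nil) .nil))) 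
(.lf (nat_lit 489277) (.g (nat_lit 2343) (.e (nat_lit 16465) (nat_lit 13) (.e (nat_lit 483341) (nat_lit 9) (.e (nat_lit 426098) (nat_lit 1) (.e (nat_lit 164332) (nat_lit 230) (.e (nat_lit 163867) (nat_lit 2) (.e (nat_lit 196656) (nat_lit 11) .nil)))))) (.g (nat_lit 1) (.e (nat_lit 140543) (nat_lit 0) .nil) .nil))))) (.nd (nat_lit 8) (.nd (nat_lit 9) 
(.lf (nat_lit 488637) (.g (nat_lit 409) (.e (nat_lit 16436) (nat_lit 9) (.e (nat_lit 426131) (nat_lit 3) (.e (nat_lit 204882) (nat_lit 32) .nil))) (.g (nat_lit 0) (.e (nat_lit 138657) (nat_lit 0) .nil) .nil))) 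
(.lf (nat_lit 489149) (.g (nat_lit 3142) (.e (nat_lit 16463) (nat_lit 13) (.e (nat_lit 483341) (nat_lit 9) (.e (nat_lit 426099) (nat_lit 1) (.e (nat_lit 164332) (nat_lit 230) (.e (nat_lit 163869) (nat_lit 2) (.e (nat_lit 196653) (nat_lit 11) .nil)))))) (.g (nat_lit 1) (.e (nat_lit 140341) (nat_lit 0) .nil) .nil)))) (.nd (nat_lit 9) 
(.lf (nat_lit 488893) (.g (nat_lit 1873) (.e (nat_lit 16448) (nat_lit 10) (.e (nat_lit 434231) (nat_lit 23) (.e (nat_lit 532535) (nat_lit 9) (.e (nat_lit 336295) (nat_lit 15) .nil)))) (.g (nat_lit 0) (.e (nat_lit 139486) (nat_lit 0) .nil) .nil))) 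
(.lf (nat_lit 489405) (.g (nat_lit 3067) (.e (nat_lit 16466) (nat_lit 13) (.e (nat_lit 483341) (nat_lit 9) (.e (nat_lit 426106) (nat_lit 1) (.e (nat_lit 164324) (nat_lit 230) (.e (nat_lit 163869) (nat_lit 2) (.e (nat_lit 196654) (nat_lit 11) .nil)))))) (.g (nat_lit 1) (.e (nat_lit 140702) (nat_lit 0) .nil) .nil)))))) (.nd (nat_lit 7) (.nd (nat_lit 8) (.nd (nat_lit 9) 
(.lf (nat_lit 488573) (.g (nat_lit 2315) (.e (nat_lit 16435) (nat_lit 9) (.e (nat_lit 426566) (nat_lit 34) (.e (nat_lit 393253) (nat_lit 18) (.e (nat_lit 164325) (nat_lit 230) (.e (nat_lit 163867) (nat_lit 2) (.e (nat_lit 196654) (nat_lit 11) .nil)))))) (.g (nat_lit 1) (.e (nat_lit 138517) (nat_lit 0) .nil) .nil))) 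
(.lf (nat_lit 489085) (.g (nat_lit 3412) (.e (nat_lit 16462) (nat_lit 13) (.e (nat_lit 483412) (nat_lit 27) (.e (nat_lit 401444) (nat_lit 9) (.e (nat_lit 426163) (nat_lit 6) (.e (nat_lit 253991) (nat_lit 11) .nil))))) (.g (nat_lit 1) (.e (nat_lit 140257) (nat_lit 0) .nil) .nil)))) (.nd (nat_lit 9) 
(.lf (nat_lit 488829) (.g (nat_lit 2074) (.e (nat_lit 16439) (nat_lit 9) (.e (nat_lit 426499) (nat_lit 27) (.e (nat_lit 335894) (nat_lit 0) (.e (nat_lit 6724) (nat_lit 362) (.e (nat_lit 180271) (nat_lit 26) .nil))))) (.g (nat_lit 0) (.e (nat_lit 138971) (nat_lit 0) .nil) .nil))) 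
(.lf (nat_lit 489341) (.g (nat_lit 2000) (.e (nat_lit 16466) (nat_lit 13) (.e (nat_lit 483336) (nat_lit 9) (.e (nat_lit 426108) (nat_lit 1) (.e (nat_lit 164331) (nat_lit 230) (.e (nat_lit 163866) (nat_lit 2) (.e (nat_lit 196654) (nat_lit 11) .nil)))))) (.g (nat_lit 1) (.e (nat_lit 140638) (nat_lit 0) .nil) .nil))))) (.nd (nat_lit 8) (.nd (nat_lit 9) 
(.lf (nat_lit 488701) (.g (nat_lit 2332) (.e (nat_lit 16437) (nat_lit 9) (.e (nat_lit 426566) (nat_lit 34) (.e (nat_lit 393251) (nat_lit 18) (.e (nat_lit 164332) (nat_lit 230) (.e (nat_lit 163867) (nat_lit 2) .nil))))) (.g (nat_lit 0) (.e (nat_lit 138809) (nat_lit 0) .nil) .nil))) 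
(.lf (nat_lit 489213) (.g (nat_lit 2613) (.e (nat_lit 16463) (nat_lit 13) (.e (nat_lit 483341) (nat_lit 9) (.e (nat_lit 426107) (nat_lit 1) (.e (nat_lit 164328) (nat_lit 230) .nil)))) (.g (nat_lit 0) (.e (nat_lit 140410) (nat_lit 0) .nil) .nil)))) (.nd (nat_lit 9) 
(.lf (nat_lit 488957) (.g (nat_lit 1890) (.e (nat_lit 16456) (nat_lit 12) (.e (nat_lit 475183) (nat_lit 29) (.e (nat_lit 557100) (nat_lit 13) (.e (nat_lit 172113) (nat_lit 10) (.e (nat_lit 434248) (nat_lit 28) (.e (nat_lit 573470) (nat_lit 11) .nil)))))) (.g (nat_lit 1) (.e (nat_lit 140018) (nat_lit 0) .nil) .nil))) 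
(.lf (nat_lit 489469) (.g (nat_lit 1336) (.e (nat_lit 16468) (nat_lit 13) (.e (nat_lit 483341) (nat_lit 9) (.e (nat_lit 426106) (nat_lit 1) (.e (nat_lit 164322) (nat_lit 230) .nil)))) (.g (nat_lit 0) (.e (nat_lit 140925) (nat_lit 0) .nil) .nil))))))))))) (.nd (nat_lit 2) (.nd (nat_lit 3) (.nd (nat_lit 4) (.nd (nat_lit 5) (.nd (nat_lit 6) (.nd (nat_lit 7) (.nd (nat_lit 8) (.nd (nat_lit 9) 
(.lf (nat_lit 488451) (.g (nat_lit 3287) (.e (nat_lit 16433) (nat_lit 9) (.e (nat_lit 426568) (nat_lit 34) (.e (nat_lit 393253) (nat_lit 18) (.e (nat_lit 164324) (nat_lit 230) (.e (nat_lit 163868) (nat_lit 2) (.e (nat_lit 196654) (nat_lit 11) .nil)))))) (.g (nat_lit 1) (.e (nat_lit 138387) (nat_lit 0) .nil) .nil))) 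
(.lf (nat_lit 488963) (.g (nat_lit 1234) (.e (nat_lit 16456) (nat_lit 12) (.e (nat_lit 475199) (nat_lit 40) (.e (nat_lit 704596) (nat_lit 5) (.e (nat_lit 180287) (nat_lit 45) .nil)))) (.g (nat_lit 0) (.e (nat_lit 140026) (nat_lit 0) .nil) .nil)))) (.nd (nat_lit 9) 
(.lf (nat_lit 488707) (.g (nat_lit 530) (.e (nat_lit 16437) (nat_lit 9) (.e (nat_lit 426566) (nat_lit 34) (.e (nat_lit 393253) (nat_lit 18) .nil))) (.g (nat_lit 0) (.e (nat_lit 138815) (nat_lit 0) .nil) .nil))) 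
(.lf (nat_lit 489219) (.g (nat_lit 2834) (.e (nat_lit 16463) (nat_lit 13) (.e (nat_lit 483341) (nat_lit 9) (.e (nat_lit 426108) (nat_lit 1) (.e (nat_lit 164329) (nat_lit 230) (.e (nat_lit 163867) (nat_lit 2) (.e (nat_lit 196653) (nat_lit 11) .nil)))))) (.g (nat_lit 1) (.e (nat_lit 140417) (nat_lit 0) .nil) .nil))))) (.nd (nat_lit 8) (.nd (nat_lit 9) 
(.lf (nat_lit 488579) (.g (nat_lit 3420) (.e (nat_lit 16435) (nat_lit 9) (.e (nat_lit 426566) (nat_lit 34) (.e (nat_lit 393253) (nat_lit 18) (.e (nat_lit 164327) (nat_lit 230) (.e (nat_lit 163866) (nat_lit 2) (.e (nat_lit 196654) (nat_lit 11) .nil)))))) (.g (nat_lit 1) (.e (nat_lit 138523) (nat_lit 0) .nil) .nil))) 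
(.lf (nat_lit 489091) (.g (nat_lit 3610) (.e (nat_lit 16463) (nat_lit 13) (.e (nat_lit 483336) (nat_lit 9) (.e (nat_lit 426100) (nat_lit 1) (.e (nat_lit 164332) (nat_lit 230) (.e (nat_lit 163867) (nat_lit 2) (.e (nat_lit 196656) (nat_lit 11) .nil)))))) (.g (nat_lit 1) (.e (nat_lit 140276) (nat_lit 0) .nil) .nil)))) (.nd (nat_lit 9) 
(.lf (nat_lit 488835) (.g (nat_lit 691) (.e (nat_lit 16440) (nat_lit 9) (.e (nat_lit 426125) (nat_lit 2) (.e (nat_lit 196637) (nat_lit 9) .nil))) (.g (nat_lit 0) (.e (nat_lit 139002) (nat_lit 0) .nil) .nil))) 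
(.lf (nat_lit 489347) (.g (nat_lit 1992) (.e (nat_lit 16466) (nat_lit 13) (.e (nat_lit 483337) (nat_lit 9) (.e (nat_lit 426100) (nat_lit 1) (.e (nat_lit 164330) (nat_lit 230) .nil)))) (.g (nat_lit 0) (.e (nat_lit 140644) (nat_lit 0) .nil) .nil)))))) (.nd (nat_lit 7) (.nd (nat_lit 8) (.nd (nat_lit 9) 
(.lf (nat_lit 488515) (.g (nat_lit 3630) (.e (nat_lit 16434) (nat_lit 9) (.e (nat_lit 426566) (nat_lit 34) (.e (nat_lit 393253) (nat_lit 18) (.e (nat_lit 164331) (nat_lit 230) (.e (nat_lit 163867) (nat_lit 2) (.e (nat_lit 196654) (nat_lit 11) .nil)))))) (.g (nat_lit 1) (.e (nat_lit 138452) (nat_lit 0) .nil) .nil))) 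
(.lf (nat_lit 489027) (.g (nat_lit 3507) (.e (nat_lit 16459) (nat_lit 12) (.e (nat_lit 475185) (nat_lit 29) (.e (nat_lit 557100) (nat_lit 13) (.e (nat_lit 172113) (nat_lit 10) (.e (nat_lit 434245) (nat_lit 28) (.e (nat_lit 573470) (nat_lit 11) .nil)))))) (.g (nat_lit 1) (.e (nat_lit 140118) (nat_lit 0) .nil) .nil)))) (.nd (nat_lit 9) 
(.lf (nat_lit 488771) (.g (nat_lit 4184) (.e (nat_lit 16438) (nat_lit 9) (.e (nat_lit 426482) (nat_lit 27) (.e (nat_lit 336389) (nat_lit 27) (.e (nat_lit 426098) (nat_lit 1) (.e (nat_lit 164325) (nat_lit 230) (.e (nat_lit 163868) (nat_lit 2) (.e (nat_lit 196654) (nat_lit 11) .nil))))))) (.g (nat_lit 1) (.e (nat_lit 138894) (nat_lit 0) .nil) .nil))) 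
(.lf (nat_lit 489283) (.g (nat_lit 2082) (.e (nat_lit 16465) (nat_lit 13) (.e (nat_lit 483341) (nat_lit 9) (.e (nat_lit 426100) (nat_lit 1) (.e (nat_lit 164330) (nat_lit 230) (.e (nat_lit 163867) (nat_lit 2) (.e (nat_lit 196653) (nat_lit 11) .nil)))))) (.g (nat_lit 1) (.e (nat_lit 140553) (nat_lit 0) .nil) .nil))))) (.nd (nat_lit 8) (.nd (nat_lit 9) 
(.lf (nat_lit 488643) (.g (nat_lit 3313) (.e (nat_lit 16436) (nat_lit 9) (.e (nat_lit 426131) (nat_lit 3) (.e (nat_lit 204885) (nat_lit 33) (.e (nat_lit 401448) (nat_lit 10) (.e (nat_lit 434246) (nat_lit 28) (.e (nat_lit 573470) (nat_lit 11) .nil)))))) (.g (nat_lit 1) (.e (nat_lit 138682) (nat_lit 0) .nil) .nil))) 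
(.lf (nat_lit 489155) (.g (nat_lit 3577) (.e (nat_lit 16463) (nat_lit 13) (.e (nat_lit 483341) (nat_lit 9) (.e (nat_lit 426100) (nat_lit 1) (.e (nat_lit 164332) (nat_lit 230) (.e (nat_lit 163867) (nat_lit 2) (.e (nat_lit 196654) (nat_lit 11) .nil)))))) (.g (nat_lit 1) (.e (nat_lit 140347) (nat_lit 0) .nil) .nil)))) (.nd (nat_lit 9) 
(.lf (nat_lit 488899) (.g (nat_lit 3075) (.e (nat_lit 16448) (nat_lit 10) (.e (nat_lit 434231) (nat_lit 23) (.e (nat_lit 532563) (nat_lit 15) (.e (nat_lit 385109) (nat_lit 51) (.e (nat_lit 794666) (nat_lit 22) (.e (nat_lit 196656) (nat_lit 11) .nil)))))) (.g (nat_lit 1) (.e (nat_lit 139495) (nat_lit 0) .nil) .nil))) 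
(.lf (nat_lit 489411) (.g (nat_lit 2507) (.e (nat_lit 16466) (nat_lit 13) (.e (nat_lit 483341) (nat_lit 9) (.e (nat_lit 426106) (nat_lit 1) (.e (nat_lit 164326) (nat_lit 230) (.e (nat_lit 163866) (nat_lit 2) (.e (nat_lit 196654) (nat_lit 11) .nil)))))) (.g (nat_lit 1) (.e (nat_lit 140708) (nat_lit 0) .nil) .nil))))))) (.nd (nat_lit 6) (.nd (nat_lit 7) (.nd (nat_lit 8) (.nd (nat_lit 9) 
(.lf (nat_lit 488483) (.g (nat_lit 2944) (.e (nat_lit 16434) (nat_lit 9) (.e (nat_lit 426566) (nat_lit 34) (.e (nat_lit 393252) (nat_lit 18) (.e (nat_lit 164332) (nat_lit 230) (.e (nat_lit 163867) (nat_lit 2) (.e (nat_lit 196654) (nat_lit 11) .nil)))))) (.g (nat_lit 1) (.e (nat_lit 138420) (nat_lit 0) .nil) .nil))) 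
(.lf (nat_lit 488995) (.g (nat_lit 2817) (.e (nat_lit 16458) (nat_lit 12) (.e (nat_lit 475184) (nat_lit 29) (.e (nat_lit 557100) (nat_lit 13) (.e (nat_lit 172113) (nat_lit 10) (.e (nat_lit 434245) (nat_lit 28) (.e (nat_lit 573470) (nat_lit 11) .nil)))))) (.g (nat_lit 1) (.e (nat_lit 140070) (nat_lit 0) .nil) .nil)))) (.nd (nat_lit 9) 
(.lf (nat_lit 488739) (.g (nat_lit 2801) (.e (nat_lit 16438) (nat_lit 9) (.e (nat_lit 426479) (nat_lit 27) (.e (nat_lit 336414) (nat_lit 27) (.e (nat_lit 426110) (nat_lit 1) (.e (nat_lit 164327) (nat_lit 230) (.e (nat_lit 163868) (nat_lit 2) (.e (nat_lit 196654) (nat_lit 11) .nil))))))) (.g (nat_lit 1) (.e (nat_lit 138851) (nat_lit 0) .nil) .nil))) 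
(.lf (nat_lit 489251) (.g (nat_lit 1141) (.e (nat_lit 16464) (nat_lit 13) (.e (nat_lit 483341) (nat_lit 9) (.e (nat_lit 426106) (nat_lit 1) (.e (nat_lit 164332) (nat_lit 230) .nil)))) (.g (nat_lit 0) (.e (nat_lit 140485) (nat_lit 0) .nil) .nil))))) (.nd (nat_lit 8) (.nd (nat_lit 9) 
(.lf (nat_lit 488611) (.g (nat_lit 3206) (.e (nat_lit 16436) (nat_lit 9) (.e (nat_lit 426131) (nat_lit 3) (.e (nat_lit 204852) (nat_lit 26) (.e (nat_lit 336337) (nat_lit 20) (.e (nat_lit 221210) (nat_lit 22) (.e (nat_lit 196654) (nat_lit 11) .nil)))))) (.g (nat_lit 1) (.e (nat_lit 138590) (nat_lit 0) .nil) .nil))) 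
(.lf (nat_lit 489123) (.g (nat_lit 3442) (.e (nat_lit 16463) (nat_lit 13) (.e (nat_lit 483337) (nat_lit 9) (.e (nat_lit 426108) (nat_lit 1) (.e (nat_lit 164329) (nat_lit 230) (.e (nat_lit 163867) (nat_lit 2) (.e (nat_lit 196653) (nat_lit 11) .nil)))))) (.g (nat_lit 1) (.e (nat_lit 140315) (nat_lit 0) .nil) .nil)))) (.nd (nat_lit 9) 
(.lf (nat_lit 488867) (.g (nat_lit 682) (.e (nat_lit 24320) (nat_lit 9) (.e (nat_lit 426139) (nat_lit 3) (.e (nat_lit 204885) (nat_lit 33) .nil))) (.g (nat_lit 0) (.e (nat_lit 139248) (nat_lit 0) .nil) .nil))) 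
(.lf (nat_lit 489379) (.g (nat_lit 2623) (.e (nat_lit 16466) (nat_lit 13) (.e (nat_lit 483340) (nat_lit 9) (.e (nat_lit 426108) (nat_lit 1) (.e (nat_lit 164330) (nat_lit 230) (.e (nat_lit 163869) (nat_lit 2) (.e (nat_lit 196656) (nat_lit 11) .nil)))))) (.g (nat_lit 1) (.e (nat_lit 140676) (nat_lit 0) .nil) .nil)))))) (.nd (nat_lit 7) (.nd (nat_lit 8) (.nd (nat_lit 9) 
(.lf (nat_lit 488547) (.g (nat_lit 3814) (.e (nat_lit 16435) (nat_lit 9) (.e (nat_lit 426566) (nat_lit 34) (.e (nat_lit 393251) (nat_lit 18) (.e (nat_lit 164327) (nat_lit 230) (.e (nat_lit 163868) (nat_lit 2) (.e (nat_lit 196654) (nat_lit 11) .nil)))))) (.g (nat_lit 1) (.e (nat_lit 138491) (nat_lit 0) .nil) .nil))) 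
(.lf (nat_lit 489059) (.g (nat_lit 1811) (.e (nat_lit 16461) (nat_lit 12) (.e (nat_lit 475183) (nat_lit 29) (.e (nat_lit 557097) (nat_lit 13) (.e (nat_lit 172105) (nat_lit 10) (.e (nat_lit 434248) (nat_lit 28) .nil))))) (.g (nat_lit 0) (.e (nat_lit 140170) (nat_lit 0) .nil) .nil)))) (.nd (nat_lit 9) 
(.lf (nat_lit 488803) (.g (nat_lit 4106) (.e (nat_lit 16438) (nat_lit 9) (.e (nat_lit 426482) (nat_lit 27) (.e (nat_lit 336388) (nat_lit 27) (.e (nat_lit 426107) (nat_lit 1) (.e (nat_lit 164327) (nat_lit 230) (.e (nat_lit 163868) (nat_lit 2) (.e (nat_lit 196656) (nat_lit 11) .nil))))))) (.g (nat_lit 1) (.e (nat_lit 138930) (nat_lit 0) .nil) .nil))) 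
(.lf (nat_lit 489315) (.g (nat_lit 4443) (.e (nat_lit 16465) (nat_lit 13) (.e (nat_lit 483341) (nat_lit 9) (.e (nat_lit 426107) (nat_lit 1) (.e (nat_lit 164332) (nat_lit 230) (.e (nat_lit 163869) (nat_lit 2) (.e (nat_lit 196655) (nat_lit 11) .nil)))))) (.g (nat_lit 1) (.e (nat_lit 140596) (nat_lit 0) .nil) .nil))))) (.nd (nat_lit 8) (.nd (nat_lit 9) 
(.lf (nat_lit 488675) (.g (nat_lit 1850) (.e (nat_lit 16436) (nat_lit 9) (.e (nat_lit 426566) (nat_lit 34) (.e (nat_lit 393253) (nat_lit 18) (.e (nat_lit 164322) (nat_lit 230) .nil)))) (.g (nat_lit 0) (.e (nat_lit 138737) (nat_lit 0) .nil) .nil))) 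
(.lf (nat_lit 489187) (.g (nat_lit 3143) (.e (nat_lit 16463) (nat_lit 13) (.e (nat_lit 483341) (nat_lit 9) (.e (nat_lit 426106) (nat_lit 1) (.e (nat_lit 164331) (nat_lit 230) (.e (nat_lit 163866) (nat_lit 2) (.e (nat_lit 196654) (nat_lit 11) .nil)))))) (.g (nat_lit 1) (.e (nat_lit 140380) (nat_lit 0) .nil) .nil)))) (.nd (nat_lit 9) 
(.lf (nat_lit 488931) (.g (nat_lit 2813) (.e (nat_lit 16455) (nat_lit 12) (.e (nat_lit 475185) (nat_lit 29) (.e (nat_lit 557098) (nat_lit 13) (.e (nat_lit 172112) (nat_lit 10) (.e (nat_lit 434248) (nat_lit 28) (.e (nat_lit 573471) (nat_lit 11) .nil)))))) (.g (nat_lit 1) (.e (nat_lit 139982) (nat_lit 0) .nil) .nil))) 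
(.lf (nat_lit 489443) (.g (nat_lit 3253) (.e (nat_lit 16466) (nat_lit 13) (.e (nat_lit 483341) (nat_lit 9) (.e (nat_lit 426108) (nat_lit 1) (.e (nat_lit 164330) (nat_lit 230) (.e (nat_lit 163869) (nat_lit 2) (.e (nat_lit 196656) (nat_lit 11) .nil)))))) (.g (nat_lit 1) (.e (nat_lit 140740) (nat_lit 0) .nil) .nil)))))))) 
(.nd (nat_lit 5) (.nd (nat_lit 6) (.nd (nat_lit 7) (.nd (nat_lit 8) (.nd (nat_lit 9) 
(.lf (nat_lit 488467) (.g (nat_lit 3373) (.e (nat_lit 16434) (nat_lit 9) (.e (nat_lit 426566) (nat_lit 34) (.e (nat_lit 393251) (nat_lit 18) (.e (nat_lit 164325) (nat_lit 230) (.e (nat_lit 163868) (nat_lit 2) (.e (nat_lit 196654) (nat_lit 11) .nil)))))) (.g (nat_lit 1) (.e (nat_lit 138404) (nat_lit 0) .nil) .nil))) 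
(.lf (nat_lit 488979) (.g (nat_lit 861) (.e (nat_lit 16458) (nat_lit 12) (.e (nat_lit 475181) (nat_lit 27) (.e (nat_lit 540703) (nat_lit 11) (.e (nat_lit 352261) (nat_lit 0) (.e (nat_lit 7936) (nat_lit 404) .nil))))) (.g (nat_lit 1) (.e (nat_lit 140049) (nat_lit 0) .nil) .nil)))) (.nd (nat_lit 9) 
(.lf (nat_lit 488723) (.g (nat_lit 3520) (.e (nat_lit 16437) (nat_lit 9) (.e (nat_lit 426566) (nat_lit 34) (.e (nat_lit 393253) (nat_lit 18) (.e (nat_lit 164330) (nat_lit 230) (.e (nat_lit 163866) (nat_lit 2) (.e (nat_lit 196654) (nat_lit 11) .nil)))))) (.g (nat_lit 1) (.e (nat_lit 138831) (nat_lit 0) .nil) .nil))) 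
(.lf (nat_lit 489235) (.g (nat_lit 740) (.e (nat_lit 16463) (nat_lit 13) (.e (nat_lit 483411) (nat_lit 27) (.e (nat_lit 401440) (nat_lit 9) .nil))) (.g (nat_lit 0) (.e (nat_lit 140439) (nat_lit 0) .nil) .nil))))) (.nd (nat_lit 8) (.nd (nat_lit 9) 
(.lf (nat_lit 488595) (.g (nat_lit 3400) (.e (nat_lit 16435) (nat_lit 9) (.e (nat_lit 426566) (nat_lit 34) (.e (nat_lit 393253) (nat_lit 18) (.e (nat_lit 164332) (nat_lit 230) (.e (nat_lit 163866) (nat_lit 2) (.e (nat_lit 196654) (nat_lit 11) .nil)))))) (.g (nat_lit 1) (.e (nat_lit 138539) (nat_lit 0) .nil) .nil))) 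
(.lf (nat_lit 489107) (.g (nat_lit 3151) (.e (nat_lit 16463) (nat_lit 13) (.e (nat_lit 483337) (nat_lit 9) (.e (nat_lit 426107) (nat_lit 1) (.e (nat_lit 164322) (nat_lit 230) (.e (nat_lit 163871) (nat_lit 2) (.e (nat_lit 196654) (nat_lit 11) .nil)))))) (.g (nat_lit 1) (.e (nat_lit 140295) (nat_lit 0) .nil) .nil)))) (.nd (nat_lit 9) 
(.lf (nat_lit 488851) (.g (nat_lit 888) (.e (nat_lit 16445) (nat_lit 9) (.e (nat_lit 426139) (nat_lit 3) (.e (nat_lit 204885) (nat_lit 33) .nil))) (.g (nat_lit 0) (.e (nat_lit 139132) (nat_lit 0) .nil) .nil))) 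
(.lf (nat_lit 489363) (.g (nat_lit 2963) (.e (nat_lit 16466) (nat_lit 13) (.e (nat_lit 483337) (nat_lit 9) (.e (nat_lit 426107) (nat_lit 1) (.e (nat_lit 164327) (nat_lit 230) (.e (nat_lit 163866) (nat_lit 2) (.e (nat_lit 196654) (nat_lit 11) .nil)))))) (.g (nat_lit 1) (.e (nat_lit 140660) (nat_lit 0) .nil) .nil)))))) (.nd (nat_lit 7) (.nd (nat_lit 8) (.nd (nat_lit 9) 
(.lf (nat_lit 488531) (.g (nat_lit 2382) (.e (nat_lit 16435) (nat_lit 9) (.e (nat_lit 426482) (nat_lit 27) (.e (nat_lit 336060) (nat_lit 7) (.e (nat_lit 319504) (nat_lit 10) (.e (nat_lit 4921) (nat_lit 287) .nil))))) (.g (nat_lit 0) (.e (nat_lit 138475) (nat_lit 0) .nil) .nil))) 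
(.lf (nat_lit 489043) (.g (nat_lit 1958) (.e (nat_lit 16461) (nat_lit 12) (.e (nat_lit 475177) (nat_lit 24) (.e (nat_lit 516117) (nat_lit 1) (.e (nat_lit 164330) (nat_lit 230) (.e (nat_lit 163936) (nat_lit 18) .nil))))) (.g (nat_lit 0) (.e (nat_lit 140150) (nat_lit 0) .nil) .nil)))) (.nd (nat_lit 9) 
(.lf (nat_lit 488787) (.g (nat_lit 3447) (.e (nat_lit 16438) (nat_lit 9) (.e (nat_lit 426482) (nat_lit 27) (.e (nat_lit 336388) (nat_lit 27) (.e (nat_lit 426098) (nat_lit 1) (.e (nat_lit 164325) (nat_lit 230) (.e (nat_lit 163868) (nat_lit 2) (.e (nat_lit 196656) (nat_lit 11) .nil))))))) (.g (nat_lit 1) (.e (nat_lit 138911) (nat_lit 0) .nil) .nil))) 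
(.lf (nat_lit 489299) (.g (nat_lit 1904) (.e (nat_lit 16465) (nat_lit 13) (.e (nat_lit 483341) (nat_lit 9) (.e (nat_lit 426107) (nat_lit 1) (.e (nat_lit 164325) (nat_lit 230) (.e (nat_lit 163866) (nat_lit 2) (.e (nat_lit 196653) (nat_lit 11) .nil)))))) (.g (nat_lit 1) (.e (nat_lit 140574) (nat_lit 0) .nil) .nil))))) (.nd (nat_lit 8) (.nd (nat_lit 9) 
(.lf (nat_lit 488659) (.g (nat_lit 2701) (.e (nat_lit 16436) (nat_lit 9) (.e (nat_lit 426484) (nat_lit 27) (.e (nat_lit 336369) (nat_lit 27) (.e (nat_lit 426109) (nat_lit 1) (.e (nat_lit 164327) (nat_lit 230) (.e (nat_lit 163868) (nat_lit 2) (.e (nat_lit 196654) (nat_lit 11) .nil))))))) (.g (nat_lit 1) (.e (nat_lit 138711) (nat_lit 0) .nil) .nil))) 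
(.lf (nat_lit 489171) (.g (nat_lit 3369) (.e (nat_lit 16463) (nat_lit 13) (.e (nat_lit 483341) (nat_lit 9) (.e (nat_lit 426106) (nat_lit 1) (.e (nat_lit 164324) (nat_lit 230) (.e (nat_lit 163869) (nat_lit 2) (.e (nat_lit 196654) (nat_lit 11) .nil)))))) (.g (nat_lit 1) (.e (nat_lit 140364) (nat_lit 0) .nil) .nil)))) (.nd (nat_lit 9) 
(.lf (nat_lit 488915) (.g (nat_lit 729) (.e (nat_lit 16453) (nat_lit 11) (.e (nat_lit 458789) (nat_lit 23) (.e (nat_lit 532481) (nat_lit 0) .nil))) (.g (nat_lit 0) (.e (nat_lit 139911) (nat_lit 0) .nil) .nil))) 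
(.lf (nat_lit 489427) (.g (nat_lit 3456) (.e (nat_lit 16466) (nat_lit 13) (.e (nat_lit 483341) (nat_lit 9) (.e (nat_lit 426107) (nat_lit 1) (.e (nat_lit 164325) (nat_lit 230) (.e (nat_lit 163868) (nat_lit 2) (.e (nat_lit 196654) (nat_lit 11) .nil)))))) (.g (nat_lit 1) (.e (nat_lit 140724) (nat_lit 0) .nil) .nil))))))) (.nd (nat_lit 6) (.nd (nat_lit 7) (.nd (nat_lit 8) (.nd (nat_lit 9) 
(.lf (nat_lit 488499) (.g (nat_lit 3370) (.e (nat_lit 16434) (nat_lit 9) (.e (nat_lit 426566) (nat_lit 34) (.e (nat_lit 393253) (nat_lit 18) (.e (nat_lit 164325) (nat_lit 230) (.e (nat_lit 163866) (nat_lit 2) (.e (nat_lit 196654) (nat_lit 11) .nil)))))) (.g (nat_lit 1) (.e (nat_lit 138436) (nat_lit 0) .nil) .nil))) 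
(.lf (nat_lit 489011) (.g (nat_lit 3885) (.e (nat_lit 16459) (nat_lit 12) (.e (nat_lit 475179) (nat_lit 24) (.e (nat_lit 516115) (nat_lit 1) (.e (nat_lit 164325) (nat_lit 230) (.e (nat_lit 163939) (nat_lit 18) (.e (nat_lit 483072) (nat_lit 10) .nil)))))) (.g (nat_lit 1) (.e (nat_lit 140099) (nat_lit 0) .nil) .nil)))) (.nd (nat_lit 9) 
(.lf (nat_lit 488755) (.g (nat_lit 2400) (.e (nat_lit 16438) (nat_lit 9) (.e (nat_lit 426482) (nat_lit 27) (.e (nat_lit 336385) (nat_lit 27) (.e (nat_lit 426107) (nat_lit 1) (.e (nat_lit 164326) (nat_lit 230) (.e (nat_lit 163868) (nat_lit 2) (.e (nat_lit 196656) (nat_lit 11) .nil))))))) (.g (nat_lit 1) (.e (nat_lit 138872) (nat_lit 0) .nil) .nil))) 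
(.lf (nat_lit 489267) (.g (nat_lit 3251) (.e (nat_lit 16465) (nat_lit 13) (.e (nat_lit 483341) (nat_lit 9) (.e (nat_lit 426098) (nat_lit 1) (.e (nat_lit 164325) (nat_lit 230) (.e (nat_lit 163867) (nat_lit 2) (.e (nat_lit 196655) (nat_lit 11) .nil)))))) (.g (nat_lit 1) (.e (nat_lit 140527) (nat_lit 0) .nil) .nil))))) (.nd (nat_lit 8) (.nd (nat_lit 9) 
(.lf (nat_lit 488627) (.g (nat_lit 2480) (.e (nat_lit 16436) (nat_lit 9) (.e (nat_lit 426131) (nat_lit 3) (.e (nat_lit 204880) (nat_lit 32) (.e (nat_lit 385094) (nat_lit 49) (.e (nat_lit 778445) (nat_lit 9) (.e (nat_lit 2657) (nat_lit 167) (.e (nat_lit 196654) (nat_lit 11) .nil))))))) (.g (nat_lit 1) (.e (nat_lit 138633) (nat_lit 0) .nil) .nil))) 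
(.lf (nat_lit 489139) (.g (nat_lit 3727) (.e (nat_lit 16463) (nat_lit 13) (.e (nat_lit 483341) (nat_lit 9) (.e (nat_lit 426098) (nat_lit 1) (.e (nat_lit 164327) (nat_lit 230) (.e (nat_lit 163868) (nat_lit 2) (.e (nat_lit 196654) (nat_lit 11) .nil)))))) (.g (nat_lit 1) (.e (nat_lit 140331) (nat_lit 0) .nil) .nil)))) (.nd (nat_lit 9) 
(.lf (nat_lit 488883) (.g (nat_lit 2536) (.e (nat_lit 16448) (nat_lit 10) (.e (nat_lit 434231) (nat_lit 23) (.e (nat_lit 532528) (nat_lit 9) (.e (nat_lit 336336) (nat_lit 20) (.e (nat_lit 221210) (nat_lit 22) (.e (nat_lit 196656) (nat_lit 11) .nil)))))) (.g (nat_lit 1) (.e (nat_lit 139451) (nat_lit 0) .nil) .nil))) 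
(.lf (nat_lit 489395) (.g (nat_lit 2567) (.e (nat_lit 16466) (nat_lit 13) (.e (nat_lit 483341) (nat_lit 9) (.e (nat_lit 426100) (nat_lit 1) (.e (nat_lit 164331) (nat_lit 230) (.e (nat_lit 163867) (nat_lit 2) .nil))))) (.g (nat_lit 0) (.e (nat_lit 140692) (nat_lit 0) .nil) .nil)))))) (.nd (nat_lit 7) (.nd (nat_lit 8) (.nd (nat_lit 9) 
(.lf (nat_lit 488563) (.g (nat_lit 3320) (.e (nat_lit 16435) (nat_lit 9) (.e (nat_lit 426566) (nat_lit 34) (.e (nat_lit 393252) (nat_lit 18) (.e (nat_lit 164330) (nat_lit 230) (.e (nat_lit 163867) (nat_lit 2) (.e (nat_lit 196654) (nat_lit 11) .nil)))))) (.g (nat_lit 1) (.e (nat_lit 138507) (nat_lit 0) .nil) .nil))) 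
(.lf (nat_lit 489075) (.g (nat_lit 3292) (.e (nat_lit 16461) (nat_lit 12) (.e (nat_lit 475185) (nat_lit 29) (.e (nat_lit 557107) (nat_lit 15) (.e (nat_lit 188440) (nat_lit 20) (.e (nat_lit 3307) (nat_lit 202) (.e (nat_lit 573470) (nat_lit 11) .nil)))))) (.g (nat_lit 1) (.e (nat_lit 140189) (nat_lit 0) .nil) .nil)))) (.nd (nat_lit 9) 
(.lf (nat_lit 488819) (.g (nat_lit 2022) (.e (nat_lit 16438) (nat_lit 9) (.e (nat_lit 426567) (nat_lit 34) (.e (nat_lit 393251) (nat_lit 18) (.e (nat_lit 164327) (nat_lit 230) (.e (nat_lit 163868) (nat_lit 2) (.e (nat_lit 196654) (nat_lit 11) .nil)))))) (.g (nat_lit 1) (.e (nat_lit 138951) (nat_lit 0) .nil) .nil))) 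
(.lf (nat_lit 489331) (.g (nat_lit 412) (.e (nat_lit 16465) (nat_lit 13) (.e (nat_lit 483344) (nat_lit 17) (.e (nat_lit 7936) (nat_lit 361) .nil))) (.g (nat_lit 0) (.e (nat_lit 140619) (nat_lit 0) .nil) .nil))))) (.nd (nat_lit 8) (.nd (nat_lit 9) 
(.lf (nat_lit 488691) (.g (nat_lit 1741) (.e (nat_lit 16437) (nat_lit 9) (.e (nat_lit 426566) (nat_lit 34) (.e (nat_lit 393251) (nat_lit 18) (.e (nat_lit 164325) (nat_lit 230) .nil)))) (.g (nat_lit 0) (.e (nat_lit 138799) (nat_lit 0) .nil) .nil))) 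
(.lf (nat_lit 489203) (.g (nat_lit 3795) (.e (nat_lit 16463) (nat_lit 13) (.e (nat_lit 483341) (nat_lit 9) (.e (nat_lit 426107) (nat_lit 1) (.e (nat_lit 164325) (nat_lit 230) (.e (nat_lit 163869) (nat_lit 2) (.e (nat_lit 196654) (nat_lit 11) .nil)))))) (.g (nat_lit 1) (.e (nat_lit 140398) (nat_lit 0) .nil) .nil)))) (.nd (nat_lit 9) 
(.lf (nat_lit 488947) (.g (nat_lit 913) (.e (nat_lit 16456) (nat_lit 12) (.e (nat_lit 475179) (nat_lit 24) (.e (nat_lit 516119) (nat_lit 1) .nil))) (.g (nat_lit 0) (.e (nat_lit 140006) (nat_lit 0) .nil) .nil))) 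
(.lf (nat_lit 489459) (.g (nat_lit 2819) (.e (nat_lit 16466) (nat_lit 13) (.e (nat_lit 483411) (nat_lit 27) (.e (nat_lit 401444) (nat_lit 9) (.e (nat_lit 426163) (nat_lit 6) (.e (nat_lit 253992) (nat_lit 11) .nil))))) (.g (nat_lit 1) (.e (nat_lit 140757) (nat_lit 0) .nil) .nil))))))))) (.nd (nat_lit 4) (.nd (nat_lit 5) (.nd (nat_lit 6) (.nd (nat_lit 7) (.nd (nat_lit 8) (.nd (nat_lit 9) 
(.lf (nat_lit 488459) (.g (nat_lit 2246) (.e (nat_lit 16433) (nat_lit 9) (.e (nat_lit 426568) (nat_lit 34) (.e (nat_lit 393253) (nat_lit 18) (.e (nat_lit 164332) (nat_lit 230) (.e (nat_lit 163867) (nat_lit 2) (.e (nat_lit 196652) (nat_lit 11) .nil)))))) (.g (nat_lit 1) (.e (nat_lit 138395) (nat_lit 0) .nil) .nil))) 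
(.lf (nat_lit 488971) (.g (nat_lit 1685) (.e (nat_lit 16457) (nat_lit 12) (.e (nat_lit 475179) (nat_lit 24) (.e (nat_lit 516120) (nat_lit 1) (.e (nat_lit 164332) (nat_lit 230) .nil)))) (.g (nat_lit 0) (.e (nat_lit 140036) (nat_lit 0) .nil) .nil)))) (.nd (nat_lit 9) 
(.lf (nat_lit 488715) (.g (nat_lit 3687) (.e (nat_lit 16437) (nat_lit 9) (.e (nat_lit 426566) (nat_lit 34) (.e (nat_lit 393253) (nat_lit 18) (.e (nat_lit 164325) (nat_lit 230) (.e (nat_lit 163868) (nat_lit 2) (.e (nat_lit 196654) (nat_lit 11) .nil)))))) (.g (nat_lit 1) (.e (nat_lit 138823) (nat_lit 0) .nil) .nil))) 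
(.lf (nat_lit 489227) (.g (nat_lit 2418) (.e (nat_lit 16463) (nat_lit 13) (.e (nat_lit 483341) (nat_lit 9) (.e (nat_lit 426108) (nat_lit 1) (.e (nat_lit 164331) (nat_lit 230) (.e (nat_lit 163867) (nat_lit 2) (.e (nat_lit 196656) (nat_lit 11) .nil)))))) (.g (nat_lit 1) (.e (nat_lit 140425) (nat_lit 0) .nil) .nil))))) (.nd (nat_lit 8) (.nd (nat_lit 9) 
(.lf (nat_lit 488587) (.g (nat_lit 2076) (.e (nat_lit 16435) (nat_lit 9) (.e (nat_lit 426566) (nat_lit 34) (.e (nat_lit 393253) (nat_lit 18) (.e (nat_lit 164330) (nat_lit 230) (.e (nat_lit 163867) (nat_lit 2) (.e (nat_lit 196653) (nat_lit 11) .nil)))))) (.g (nat_lit 1) (.e (nat_lit 138531) (nat_lit 0) .nil) .nil))) 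
(.lf (nat_lit 489099) (.g (nat_lit 1680) (.e (nat_lit 16463) (nat_lit 13) (.e (nat_lit 483337) (nat_lit 9) (.e (nat_lit 426098) (nat_lit 1) (.e (nat_lit 164332) (nat_lit 230) .nil)))) (.g (nat_lit 0) (.e (nat_lit 140286) (nat_lit 0) .nil) .nil)))) (.nd (nat_lit 9) 
(.lf (nat_lit 488843) (.g (nat_lit 548) (.e (nat_lit 16443) (nat_lit 9) (.e (nat_lit 426499) (nat_lit 27) (.e (nat_lit 336232) (nat_lit 14) .nil))) (.g (nat_lit 0) (.e (nat_lit 139044) (nat_lit 0) .nil) .nil))) 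
(.lf (nat_lit 489355) (.g (nat_lit 1712) (.e (nat_lit 16466) (nat_lit 13) (.e (nat_lit 483337) (nat_lit 9) (.e (nat_lit 426107) (nat_lit 1) (.e (nat_lit 164324) (nat_lit 230) .nil)))) (.g (nat_lit 0) (.e (nat_lit 140652) (nat_lit 0) .nil) .nil)))))) (.nd (nat_lit 7) (.nd (nat_lit 8) (.nd (nat_lit 9) 
(.lf (nat_lit 488523) (.g (nat_lit 1371) (.e (nat_lit 16435) (nat_lit 9) (.e (nat_lit 426131) (nat_lit 3) (.e (nat_lit 204853) (nat_lit 26) (.e (nat_lit 336336) (nat_lit 20) (.e (nat_lit 221210) (nat_lit 22) .nil))))) (.g (nat_lit 0) (.e (nat_lit 138461) (nat_lit 0) .nil) .nil))) 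
(.lf (nat_lit 489035) (.g (nat_lit 3466) (.e (nat_lit 16460) (nat_lit 12) (.e (nat_lit 475179) (nat_lit 24) (.e (nat_lit 516120) (nat_lit 1) (.e (nat_lit 164330) (nat_lit 230) (.e (nat_lit 163938) (nat_lit 18) .nil))))) (.g (nat_lit 0) (.e (nat_lit 140131) (nat_lit 0) .nil) .nil)))) (.nd (nat_lit 9) 
(.lf (nat_lit 488779) (.g (nat_lit 3164) (.e (nat_lit 16438) (nat_lit 9) (.e (nat_lit 426482) (nat_lit 27) (.e (nat_lit 336389) (nat_lit 27) (.e (nat_lit 426100) (nat_lit 1) (.e (nat_lit 164332) (nat_lit 230) (.e (nat_lit 163869) (nat_lit 2) (.e (nat_lit 196656) (nat_lit 11) .nil))))))) (.g (nat_lit 1) (.e (nat_lit 138902) (nat_lit 0) .nil) .nil))) 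
(.lf (nat_lit 489291) (.g (nat_lit 2856) (.e (nat_lit 16465) (nat_lit 13) (.e (nat_lit 483341) (nat_lit 9) (.e (nat_lit 426106) (nat_lit 1) (.e (nat_lit 164322) (nat_lit 230) .nil)))) (.g (nat_lit 0) (.e (nat_lit 140566) (nat_lit 0) .nil) .nil))))) (.nd (nat_lit 8) (.nd (nat_lit 9) 
(.lf (nat_lit 488651) (.g (nat_lit 2832) (.e (nat_lit 16436) (nat_lit 9) (.e (nat_lit 426480) (nat_lit 27) (.e (nat_lit 336388) (nat_lit 27) (.e (nat_lit 426100) (nat_lit 1) (.e (nat_lit 164332) (nat_lit 230) (.e (nat_lit 163869) (nat_lit 2) (.e (nat_lit 196656) (nat_lit 11) .nil))))))) (.g (nat_lit 1) (.e (nat_lit 138700) (nat_lit 0) .nil) .nil))) 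
(.lf (nat_lit 489163) (.g (nat_lit 3120) (.e (nat_lit 16463) (nat_lit 13) (.e (nat_lit 483341) (nat_lit 9) (.e (nat_lit 426106) (nat_lit 1) (.e (nat_lit 164322) (nat_lit 230) (.e (nat_lit 163866) (nat_lit 2) (.e (nat_lit 196654) (nat_lit 11) .nil)))))) (.g (nat_lit 1) (.e (nat_lit 140355) (nat_lit 0) .nil) .nil)))) (.nd (nat_lit 9) 
(.lf (nat_lit 488907) (.g (nat_lit 2392) (.e (nat_lit 16449) (nat_lit 10) (.e (nat_lit 434231) (nat_lit 23) (.e (nat_lit 532569) (nat_lit 16) (.e (nat_lit 401448) (nat_lit 10) (.e (nat_lit 434245) (nat_lit 28) .nil))))) (.g (nat_lit 0) (.e (nat_lit 139601) (nat_lit 0) .nil) .nil))) 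
(.lf (nat_lit 489419) (.g (nat_lit 2983) (.e (nat_lit 16466) (nat_lit 13) (.e (nat_lit 483341) (nat_lit 9) (.e (nat_lit 426106) (nat_lit 1) (.e (nat_lit 164332) (nat_lit 230) (.e (nat_lit 163866) (nat_lit 2) (.e (nat_lit 196654) (nat_lit 11) .nil)))))) (.g (nat_lit 1) (.e (nat_lit 140716) (nat_lit 0) .nil) .nil))))))) (.nd (nat_lit 6) (.nd (nat_lit 7) (.nd (nat_lit 8) (.nd (nat_lit 9) 
(.lf (nat_lit 488491) (.g (nat_lit 3396) (.e (nat_lit 16434) (nat_lit 9) (.e (nat_lit 426566) (nat_lit 34) (.e (nat_lit 393253) (nat_lit 18) (.e (nat_lit 164324) (nat_lit 230) (.e (nat_lit 163866) (nat_lit 2) (.e (nat_lit 196654) (nat_lit 11) .nil)))))) (.g (nat_lit 1) (.e (nat_lit 138428) (nat_lit 0) .nil) .nil))) 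
(.lf (nat_lit 489003) (.g (nat_lit 3757) (.e (nat_lit 16459) (nat_lit 12) (.e (nat_lit 475177) (nat_lit 24) (.e (nat_lit 516115) (nat_lit 1) (.e (nat_lit 164325) (nat_lit 230) (.e (nat_lit 163938) (nat_lit 18) .nil))))) (.g (nat_lit 0) (.e (nat_lit 140086) (nat_lit 0) .nil) .nil)))) (.nd (nat_lit 9) 
(.lf (nat_lit 488747) (.g (nat_lit 3082) (.e (nat_lit 16438) (nat_lit 9) (.e (nat_lit 426482) (nat_lit 27) (.e (nat_lit 336385) (nat_lit 27) (.e (nat_lit 426098) (nat_lit 1) (.e (nat_lit 164325) (nat_lit 230) (.e (nat_lit 163871) (nat_lit 2) (.e (nat_lit 196656) (nat_lit 11) .nil))))))) (.g (nat_lit 1) (.e (nat_lit 138862) (nat_lit 0) .nil) .nil))) 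
(.lf (nat_lit 489259) (.g (nat_lit 3021) (.e (nat_lit 16465) (nat_lit 13) (.e (nat_lit 483339) (nat_lit 9) (.e (nat_lit 426110) (nat_lit 1) (.e (nat_lit 164327) (nat_lit 230) (.e (nat_lit 163871) (nat_lit 2) (.e (nat_lit 196653) (nat_lit 11) .nil)))))) (.g (nat_lit 1) (.e (nat_lit 140517) (nat_lit 0) .nil) .nil))))) (.nd (nat_lit 8) (.nd (nat_lit 9) 
(.lf (nat_lit 488619) (.g (nat_lit 3272) (.e (nat_lit 16436) (nat_lit 9) (.e (nat_lit 426131) (nat_lit 3) (.e (nat_lit 204854) (nat_lit 26) (.e (nat_lit 336337) (nat_lit 20) (.e (nat_lit 221210) (nat_lit 22) (.e (nat_lit 196656) (nat_lit 11) .nil)))))) (.g (nat_lit 1) (.e (nat_lit 138621) (nat_lit 0) .nil) .nil))) 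
(.lf (nat_lit 489131) (.g (nat_lit 3556) (.e (nat_lit 16463) (nat_lit 13) (.e (nat_lit 483340) (nat_lit 9) (.e (nat_lit 426100) (nat_lit 1) (.e (nat_lit 164332) (nat_lit 230) (.e (nat_lit 163869) (nat_lit 2) (.e (nat_lit 196656) (nat_lit 11) .nil)))))) (.g (nat_lit 1) (.e (nat_lit 140323) (nat_lit 0) .nil) .nil)))) (.nd (nat_lit 9) 
(.lf (nat_lit 488875) (.g (nat_lit 727) (.e (nat_lit 24320) (nat_lit 9) (.e (nat_lit 426568) (nat_lit 34) (.e (nat_lit 393251) (nat_lit 18) .nil))) (.g (nat_lit 0) (.e (nat_lit 139261) (nat_lit 0) .nil) .nil))) 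
(.lf (nat_lit 489387) (.g (nat_lit 2834) (.e (nat_lit 16466) (nat_lit 13) (.e (nat_lit 483341) (nat_lit 9) (.e (nat_lit 426098) (nat_lit 1) (.e (nat_lit 164332) (nat_lit 230) (.e (nat_lit 163866) (nat_lit 2) (.e (nat_lit 196654) (nat_lit 11) .nil)))))) (.g (nat_lit 1) (.e (nat_lit 140684) (nat_lit 0) .nil) .nil)))))) (.nd (nat_lit 7) (.nd (nat_lit 8) (.nd (nat_lit 9) 
(.lf (nat_lit 488555) (.g (nat_lit 2388) (.e (nat_lit 16435) (nat_lit 9) (.e (nat_lit 426566) (nat_lit 34) (.e (nat_lit 393251) (nat_lit 18) (.e (nat_lit 164332) (nat_lit 230) (.e (nat_lit 163867) (nat_lit 2) .nil))))) (.g (nat_lit 0) (.e (nat_lit 138499) (nat_lit 0) .nil) .nil))) 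
(.lf (nat_lit 489067) (.g (nat_lit 3664) (.e (nat_lit 16461) (nat_lit 12) (.e (nat_lit 475184) (nat_lit 29) (.e (nat_lit 557100) (nat_lit 13) (.e (nat_lit 172113) (nat_lit 10) (.e (nat_lit 434247) (nat_lit 28) (.e (nat_lit 573469) (nat_lit 11) .nil)))))) (.g (nat_lit 1) (.e (nat_lit 140178) (nat_lit 0) .nil) .nil)))) (.nd (nat_lit 9) 
(.lf (nat_lit 488811) (.g (nat_lit 2783) (.e (nat_lit 16438) (nat_lit 9) (.e (nat_lit 426482) (nat_lit 27) (.e (nat_lit 336417) (nat_lit 27) (.e (nat_lit 426098) (nat_lit 1) (.e (nat_lit 164327) (nat_lit 230) (.e (nat_lit 163868) (nat_lit 2) (.e (nat_lit 196654) (nat_lit 11) .nil))))))) (.g (nat_lit 1) (.e (nat_lit 138941) (nat_lit 0) .nil) .nil))) 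
(.lf (nat_lit 489323) (.g (nat_lit 1809) (.e (nat_lit 16465) (nat_lit 13) (.e (nat_lit 483341) (nat_lit 9) (.e (nat_lit 426108) (nat_lit 1) (.e (nat_lit 164331) (nat_lit 230) (.e (nat_lit 163866) (nat_lit 2) .nil))))) (.g (nat_lit 0) (.e (nat_lit 140607) (nat_lit 0) .nil) .nil))))) (.nd (nat_lit 8) (.nd (nat_lit 9) 
(.lf (nat_lit 488683) (.g (nat_lit 3444) (.e (nat_lit 16436) (nat_lit 9) (.e (nat_lit 426566) (nat_lit 34) (.e (nat_lit 393254) (nat_lit 18) (.e (nat_lit 164327) (nat_lit 230) (.e (nat_lit 163871) (nat_lit 2) (.e (nat_lit 196654) (nat_lit 11) .nil)))))) (.g (nat_lit 1) (.e (nat_lit 138745) (nat_lit 0) .nil) .nil))) 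
(.lf (nat_lit 489195) (.g (nat_lit 3815) (.e (nat_lit 16463) (nat_lit 13) (.e (nat_lit 483341) (nat_lit 9) (.e (nat_lit 426107) (nat_lit 1) (.e (nat_lit 164324) (nat_lit 230) (.e (nat_lit 163866) (nat_lit 2) (.e (nat_lit 196654) (nat_lit 11) .nil)))))) (.g (nat_lit 1) (.e (nat_lit 140390) (nat_lit 0) .nil) .nil)))) (.nd (nat_lit 9) 
(.lf (nat_lit 488939) (.g (nat_lit 2491) (.e (nat_lit 16456) (nat_lit 12) (.e (nat_lit 475177) (nat_lit 24) (.e (nat_lit 516120) (nat_lit 1) (.e (nat_lit 164330) (nat_lit 230) (.e (nat_lit 163936) (nat_lit 18) (.e (nat_lit 483072) (nat_lit 10) .nil)))))) (.g (nat_lit 1) (.e (nat_lit 139994) (nat_lit 0) .nil) .nil))) 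
(.lf (nat_lit 489451) (.g (nat_lit 444) (.e (nat_lit 16466) (nat_lit 13) (.e (nat_lit 483350) (nat_lit 17) (.e (nat_lit 6218) (nat_lit 333) .nil))) (.g (nat_lit 0) (.e (nat_lit 140748) (nat_lit 0) .nil) .nil)))))))) (.nd (nat_lit 5) (.nd (nat_lit 6) (.nd (nat_lit 7) (.nd (nat_lit 8) (.nd (nat_lit 9) 
(.lf (nat_lit 488475) (.g (nat_lit 2738) (.e (nat_lit 16434) (nat_lit 9) (.e (nat_lit 426566) (nat_lit 34) (.e (nat_lit 393251) (nat_lit 18) (.e (nat_lit 164331) (nat_lit 230) (.e (nat_lit 163866) (nat_lit 2) .nil))))) (.g (nat_lit 0) (.e (nat_lit 138412) (nat_lit 0) .nil) .nil))) 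
(.lf (nat_lit 488987) (.g (nat_lit 2767) (.e (nat_lit 16458) (nat_lit 12) (.e (nat_lit 475183) (nat_lit 29) (.e (nat_lit 557097) (nat_lit 13) (.e (nat_lit 172105) (nat_lit 10) (.e (nat_lit 434248) (nat_lit 28) (.e (nat_lit 573470) (nat_lit 11) .nil)))))) (.g (nat_lit 1) (.e (nat_lit 140062) (nat_lit 0) .nil) .nil)))) (.nd (nat_lit 9) 
(.lf (nat_lit 488731) (.g (nat_lit 744) (.e (nat_lit 16437) (nat_lit 9) (.e (nat_lit 426566) (nat_lit 34) (.e (nat_lit 393254) (nat_lit 18) .nil))) (.g (nat_lit 0) (.e (nat_lit 138839) (nat_lit 0) .nil) .nil))) 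
(.lf (nat_lit 489243) (.g (nat_lit 1886) (.e (nat_lit 16463) (nat_lit 13) (.e (nat_lit 483413) (nat_lit 27) (.e (nat_lit 401434) (nat_lit 9) (.e (nat_lit 426160) (nat_lit 6) .nil)))) (.g (nat_lit 0) (.e (nat_lit 140456) (nat_lit 0) .nil) .nil))))) (.nd (nat_lit 8) (.nd (nat_lit 9) 
(.lf (nat_lit 488603) (.g (nat_lit 2926) (.e (nat_lit 16436) (nat_lit 9) (.e (nat_lit 426131) (nat_lit 3) (.e (nat_lit 204851) (nat_lit 26) (.e (nat_lit 336334) (nat_lit 20) (.e (nat_lit 221210) (nat_lit 22) (.e (nat_lit 196656) (nat_lit 11) .nil)))))) (.g (nat_lit 1) (.e (nat_lit 138566) (nat_lit 0) .nil) .nil))) 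
(.lf (nat_lit 489115) (.g (nat_lit 1353) (.e (nat_lit 16463) (nat_lit 13) (.e (nat_lit 483337) (nat_lit 9) (.e (nat_lit 426107) (nat_lit 1) (.e (nat_lit 164325) (nat_lit 230) .nil)))) (.g (nat_lit 0) (.e (nat_lit 140303) (nat_lit 0) .nil) .nil)))) (.nd (nat_lit 9) 
(.lf (nat_lit 488859) (.g (nat_lit 431) (.e (nat_lit 16446) (nat_lit 9) (.e (nat_lit 426124) (nat_lit 2) (.e (nat_lit 196670) (nat_lit 14) .nil))) (.g (nat_lit 0) (.e (nat_lit 139198) (nat_lit 0) .nil) .nil))) 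
(.lf (nat_lit 489371) (.g (nat_lit 2440) (.e (nat_lit 16466) (nat_lit 13) (.e (nat_lit 483337) (nat_lit 9) (.e (nat_lit 426108) (nat_lit 1) (.e (nat_lit 164330) (nat_lit 230) (.e (nat_lit 163867) (nat_lit 2) (.e (nat_lit 196656) (nat_lit 11) .nil)))))) (.g (nat_lit 1) (.e (nat_lit 140668) (nat_lit 0) .nil) .nil)))))) (.nd (nat_lit 7) (.nd (nat_lit 8) (.nd (nat_lit 9) 
(.lf (nat_lit 488539) (.g (nat_lit 1080) (.e (nat_lit 16435) (nat_lit 9) (.e (nat_lit 426566) (nat_lit 34) (.e (nat_lit 393251) (nat_lit 18) (.e (nat_lit 164325) (nat_lit 230) .nil)))) (.g (nat_lit 0) (.e (nat_lit 138483) (nat_lit 0) .nil) .nil))) 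
(.lf (nat_lit 489051) (.g (nat_lit 3673) (.e (nat_lit 16461) (nat_lit 12) (.e (nat_lit 475179) (nat_lit 24) (.e (nat_lit 516117) (nat_lit 1) (.e (nat_lit 164330) (nat_lit 230) (.e (nat_lit 163936) (nat_lit 18) .nil))))) (.g (nat_lit 0) (.e (nat_lit 140162) (nat_lit 0) .nil) .nil)))) (.nd (nat_lit 9) 
(.lf (nat_lit 488795) (.g (nat_lit 3581) (.e (nat_lit 16438) (nat_lit 9) (.e (nat_lit 426482) (nat_lit 27) (.e (nat_lit 336388) (nat_lit 27) (.e (nat_lit 426107) (nat_lit 1) (.e (nat_lit 164325) (nat_lit 230) (.e (nat_lit 163866) (nat_lit 2) (.e (nat_lit 196654) (nat_lit 11) .nil))))))) (.g (nat_lit 1) (.e (nat_lit 138920) (nat_lit 0) .nil) .nil))) 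
(.lf (nat_lit 489307) (.g (nat_lit 2267) (.e (nat_lit 16465) (nat_lit 13) (.e (nat_lit 483341) (nat_lit 9) (.e (nat_lit 426107) (nat_lit 1) (.e (nat_lit 164327) (nat_lit 230) (.e (nat_lit 163867) (nat_lit 2) (.e (nat_lit 196655) (nat_lit 11) .nil)))))) (.g (nat_lit 1) (.e (nat_lit 140585) (nat_lit 0) .nil) .nil))))) (.nd (nat_lit 8) (.nd (nat_lit 9) 
(.lf (nat_lit 488667) (.g (nat_lit 2362) (.e (nat_lit 16436) (nat_lit 9) (.e (nat_lit 426509) (nat_lit 27) (.e (nat_lit 336412) (nat_lit 27) (.e (nat_lit 426098) (nat_lit 1) (.e (nat_lit 164325) (nat_lit 230) (.e (nat_lit 163868) (nat_lit 2) (.e (nat_lit 196656) (nat_lit 11) .nil))))))) (.g (nat_lit 1) (.e (nat_lit 138720) (nat_lit 0) .nil) .nil))) 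
(.lf (nat_lit 489179) (.g (nat_lit 3205) (.e (nat_lit 16463) (nat_lit 13) (.e (nat_lit 483341) (nat_lit 9) (.e (nat_lit 426106) (nat_lit 1) (.e (nat_lit 164326) (nat_lit 230) (.e (nat_lit 163871) (nat_lit 2) (.e (nat_lit 196654) (nat_lit 11) .nil)))))) (.g (nat_lit 1) (.e (nat_lit 140372) (nat_lit 0) .nil) .nil)))) (.nd (nat_lit 9) 
(.lf (nat_lit 488923) (.g (nat_lit 1758) (.e (nat_lit 16455) (nat_lit 12) (.e (nat_lit 475179) (nat_lit 24) (.e (nat_lit 516117) (nat_lit 1) (.e (nat_lit 164332) (nat_lit 230) .nil)))) (.g (nat_lit 0) (.e (nat_lit 139970) (nat_lit 0) .nil) .nil))) 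
(.lf (nat_lit 489435) (.g (nat_lit 2669) (.e (nat_lit 16466) (nat_lit 13) (.e (nat_lit 483341) (nat_lit 9) (.e (nat_lit 426107) (nat_lit 1) (.e (nat_lit 164330) (nat_lit 230) .nil)))) (.g (nat_lit 0) (.e (nat_lit 140732) (nat_lit 0) .nil) .nil))))))) (.nd (nat_lit 6) (.nd (nat_lit 7) (.nd (nat_lit 8) (.nd (nat_lit 9) 
(.lf (nat_lit 488507) (.g (nat_lit 3946) (.e (nat_lit 16434) (nat_lit 9) (.e (nat_lit 426566) (nat_lit 34) (.e (nat_lit 393253) (nat_lit 18) (.e (nat_lit 164327) (nat_lit 230) (.e (nat_lit 163868) (nat_lit 2) (.e (nat_lit 196656) (nat_lit 11) .nil)))))) (.g (nat_lit 1) (.e (nat_lit 138444) (nat_lit 0) .nil) .nil))) 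
(.lf (nat_lit 489019) (.g (nat_lit 3533) (.e (nat_lit 16459) (nat_lit 12) (.e (nat_lit 475179) (nat_lit 24) (.e (nat_lit 516120) (nat_lit 1) (.e (nat_lit 164330) (nat_lit 230) (.e (nat_lit 163938) (nat_lit 18) (.e (nat_lit 483072) (nat_lit 10) .nil)))))) (.g (nat_lit 1) (.e (nat_lit 140107) (nat_lit 0) .nil) .nil)))) (.nd (nat_lit 9) 
(.lf (nat_lit 488763) (.g (nat_lit 2220) (.e (nat_lit 16438) (nat_lit 9) (.e (nat_lit 426482) (nat_lit 27) (.e (nat_lit 336386) (nat_lit 27) (.e (nat_lit 426098) (nat_lit 1) (.e (nat_lit 164325) (nat_lit 230) .nil))))) (.g (nat_lit 0) (.e (nat_lit 138884) (nat_lit 0) .nil) .nil))) 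
(.lf (nat_lit 489275) (.g (nat_lit 1845) (.e (nat_lit 16465) (nat_lit 13) (.e (nat_lit 483341) (nat_lit 9) (.e (nat_lit 426098) (nat_lit 1) (.e (nat_lit 164332) (nat_lit 230) (.e (nat_lit 163867) (nat_lit 2) .nil))))) (.g (nat_lit 0) (.e (nat_lit 140541) (nat_lit 0) .nil) .nil))))) (.nd (nat_lit 8) (.nd (nat_lit 9) 
(.lf (nat_lit 488635) (.g (nat_lit 1965) (.e (nat_lit 16436) (nat_lit 9) (.e (nat_lit 426131) (nat_lit 3) (.e (nat_lit 204881) (nat_lit 32) (.e (nat_lit 385109) (nat_lit 51) (.e (nat_lit 794669) (nat_lit 22) (.e (nat_lit 196654) (nat_lit 11) .nil)))))) (.g (nat_lit 1) (.e (nat_lit 138655) (nat_lit 0) .nil) .nil))) 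
(.lf (nat_lit 489147) (.g (nat_lit 3875) (.e (nat_lit 16463) (nat_lit 13) (.e (nat_lit 483341) (nat_lit 9) (.e (nat_lit 426098) (nat_lit 1) (.e (nat_lit 164332) (nat_lit 230) (.e (nat_lit 163869) (nat_lit 2) (.e (nat_lit 196654) (nat_lit 11) .nil)))))) (.g (nat_lit 1) (.e (nat_lit 140339) (nat_lit 0) .nil) .nil)))) (.nd (nat_lit 9) 
(.lf (nat_lit 488891) (.g (nat_lit 3447) (.e (nat_lit 16448) (nat_lit 10) (.e (nat_lit 434231) (nat_lit 23) (.e (nat_lit 532529) (nat_lit 9) (.e (nat_lit 336337) (nat_lit 20) (.e (nat_lit 221212) (nat_lit 22) (.e (nat_lit 196656) (nat_lit 11) .nil)))))) (.g (nat_lit 1) (.e (nat_lit 139481) (nat_lit 0) .nil) .nil))) 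
(.lf (nat_lit 489403) (.g (nat_lit 3187) (.e (nat_lit 16466) (nat_lit 13) (.e (nat_lit 483341) (nat_lit 9) (.e (nat_lit 426106) (nat_lit 1) (.e (nat_lit 164324) (nat_lit 230) (.e (nat_lit 163866) (nat_lit 2) (.e (nat_lit 196654) (nat_lit 11) .nil)))))) (.g (nat_lit 1) (.e (nat_lit 140700) (nat_lit 0) .nil) .nil)))))) (.nd (nat_lit 7) (.nd (nat_lit 8) (.nd (nat_lit 9) 
(.lf (nat_lit 488571) (.g (nat_lit 2171) (.e (nat_lit 16435) (nat_lit 9) (.e (nat_lit 426566) (nat_lit 34) (.e (nat_lit 393253) (nat_lit 18) (.e (nat_lit 164325) (nat_lit 230) (.e (nat_lit 163866) (nat_lit 2) (.e (nat_lit 196653) (nat_lit 11) .nil)))))) (.g (nat_lit 1) (.e (nat_lit 138515) (nat_lit 0) .nil) .nil))) 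
(.lf (nat_lit 489083) (.g (nat_lit 3359) (.e (nat_lit 16462) (nat_lit 13) (.e (nat_lit 483410) (nat_lit 27) (.e (nat_lit 401444) (nat_lit 9) (.e (nat_lit 426163) (nat_lit 6) (.e (nat_lit 253991) (nat_lit 11) .nil))))) (.g (nat_lit 1) (.e (nat_lit 140248) (nat_lit 0) .nil) .nil)))) (.nd (nat_lit 9) 
(.lf (nat_lit 488827) (.g (nat_lit 2848) (.e (nat_lit 16439) (nat_lit 9) (.e (nat_lit 426501) (nat_lit 27) (.e (nat_lit 335894) (nat_lit 0) (.e (nat_lit 6724) (nat_lit 362) (.e (nat_lit 180271) (nat_lit 26) (.e (nat_lit 704737) (nat_lit 11) .nil)))))) (.g (nat_lit 1) (.e (nat_lit 138969) (nat_lit 0) .nil) .nil))) 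
(.lf (nat_lit 489339) (.g (nat_lit 3270) (.e (nat_lit 16466) (nat_lit 13) (.e (nat_lit 483336) (nat_lit 9) (.e (nat_lit 426107) (nat_lit 1) (.e (nat_lit 164327) (nat_lit 230) (.e (nat_lit 163871) (nat_lit 2) (.e (nat_lit 196654) (nat_lit 11) .nil)))))) (.g (nat_lit 1) (.e (nat_lit 140636) (nat_lit 0) .nil) .nil))))) (.nd (nat_lit 8) (.nd (nat_lit 9) 
(.lf (nat_lit 488699) (.g (nat_lit 2776) (.e (nat_lit 16437) (nat_lit 9) (.e (nat_lit 426566) (nat_lit 34) (.e (nat_lit 393251) (nat_lit 18) (.e (nat_lit 164331) (nat_lit 230) (.e (nat_lit 163867) (nat_lit 2) .nil))))) (.g (nat_lit 0) (.e (nat_lit 138807) (nat_lit 0) .nil) .nil))) 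
(.lf (nat_lit 489211) (.g (nat_lit 4181) (.e (nat_lit 16463) (nat_lit 13) (.e (nat_lit 483341) (nat_lit 9) (.e (nat_lit 426107) (nat_lit 1) (.e (nat_lit 164327) (nat_lit 230) (.e (nat_lit 163871) (nat_lit 2) (.e (nat_lit 196654) (nat_lit 11) .nil)))))) (.g (nat_lit 1) (.e (nat_lit 140408) (nat_lit 0) .nil) .nil)))) (.nd (nat_lit 9) 
(.lf (nat_lit 488955) (.g (nat_lit 2168) (.e (nat_lit 16456) (nat_lit 12) (.e (nat_lit 475183) (nat_lit 29) (.e (nat_lit 557100) (nat_lit 13) (.e (nat_lit 172113) (nat_lit 10) (.e (nat_lit 434247) (nat_lit 28) (.e (nat_lit 573469) (nat_lit 11) .nil)))))) (.g (nat_lit 1) (.e (nat_lit 140016) (nat_lit 0) .nil) .nil))) 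
(.lf (nat_lit 489467) (.g (nat_lit 555) (.e (nat_lit 16467) (nat_lit 13) (.e (nat_lit 483413) (nat_lit 27) (.e (nat_lit 401446) (nat_lit 10) .nil))) (.g (nat_lit 0) (.e (nat_lit 140850) (nat_lit 0) .nil) .nil)))))))))) (.nd (nat_lit 3) (.nd (nat_lit 4) (.nd (nat_lit 5) (.nd (nat_lit 6) (.nd (nat_lit 7) (.nd (nat_lit 8) (.nd (nat_lit 9) 
(.lf (nat_lit 488455) (.g (nat_lit 2484) (.e (nat_lit 16433) (nat_lit 9) (.e (nat_lit 426568) (nat_lit 34) (.e (nat_lit 393253) (nat_lit 18) (.e (nat_lit 164329) (nat_lit 230) (.e (nat_lit 163866) (nat_lit 2) (.e (nat_lit 196654) (nat_lit 11) .nil)))))) (.g (nat_lit 1) (.e (nat_lit 138391) (nat_lit 0) .nil) .nil))) 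
(.lf (nat_lit 488967) (.g (nat_lit 3450) (.e (nat_lit 16457) (nat_lit 12) (.e (nat_lit 475179) (nat_lit 24) (.e (nat_lit 516115) (nat_lit 1) (.e (nat_lit 164325) (nat_lit 230) (.e (nat_lit 163939) (nat_lit 18) .nil))))) (.g (nat_lit 0) (.e (nat_lit 140032) (nat_lit 0) .nil) .nil)))) (.nd (nat_lit 9) 
(.lf (nat_lit 488711) (.g (nat_lit 3890) (.e (nat_lit 16437) (nat_lit 9) (.e (nat_lit 426566) (nat_lit 34) (.e (nat_lit 393253) (nat_lit 18) (.e (nat_lit 164324) (nat_lit 230) (.e (nat_lit 163867) (nat_lit 2) .nil))))) (.g (nat_lit 0) (.e (nat_lit 138819) (nat_lit 0) .nil) .nil))) 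
(.lf (nat_lit 489223) (.g (nat_lit 4037) (.e (nat_lit 16463) (nat_lit 13) (.e (nat_lit 483341) (nat_lit 9) (.e (nat_lit 426108) (nat_lit 1) (.e (nat_lit 164330) (nat_lit 230) (.e (nat_lit 163867) (nat_lit 2) (.e (nat_lit 196654) (nat_lit 11) .nil)))))) (.g (nat_lit 1) (.e (nat_lit 140421) (nat_lit 0) .nil) .nil))))) (.nd (nat_lit 8) (.nd (nat_lit 9) 
(.lf (nat_lit 488583) (.g (nat_lit 3851) (.e (nat_lit 16435) (nat_lit 9) (.e (nat_lit 426566) (nat_lit 34) (.e (nat_lit 393253) (nat_lit 18) (.e (nat_lit 164327) (nat_lit 230) (.e (nat_lit 163871) (nat_lit 2) (.e (nat_lit 196654) (nat_lit 11) .nil)))))) (.g (nat_lit 1) (.e (nat_lit 138527) (nat_lit 0) .nil) .nil))) 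
(.lf (nat_lit 489095) (.g (nat_lit 2759) (.e (nat_lit 16463) (nat_lit 13) (.e (nat_lit 483336) (nat_lit 9) (.e (nat_lit 426107) (nat_lit 1) (.e (nat_lit 164327) (nat_lit 230) (.e (nat_lit 163871) (nat_lit 2) (.e (nat_lit 196656) (nat_lit 11) .nil)))))) (.g (nat_lit 1) (.e (nat_lit 140282) (nat_lit 0) .nil) .nil)))) (.nd (nat_lit 9) 
(.lf (nat_lit 488839) (.g (nat_lit 2132) (.e (nat_lit 16442) (nat_lit 9) (.e (nat_lit 426499) (nat_lit 27) (.e (nat_lit 335894) (nat_lit 0) (.e (nat_lit 6722) (nat_lit 362) (.e (nat_lit 180272) (nat_lit 26) .nil))))) (.g (nat_lit 0) (.e (nat_lit 139037) (nat_lit 0) .nil) .nil))) 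
(.lf (nat_lit 489351) (.g (nat_lit 3405) (.e (nat_lit 16466) (nat_lit 13) (.e (nat_lit 483337) (nat_lit 9) (.e (nat_lit 426107) (nat_lit 1) (.e (nat_lit 164322) (nat_lit 230) (.e (nat_lit 163867) (nat_lit 2) (.e (nat_lit 196656) (nat_lit 11) .nil)))))) (.g (nat_lit 1) (.e (nat_lit 140648) (nat_lit 0) .nil) .nil)))))) (.nd (nat_lit 7) (.nd (nat_lit 8) (.nd (nat_lit 9) 
(.lf (nat_lit 488519) (.g (nat_lit 4206) (.e (nat_lit 16434) (nat_lit 9) (.e (nat_lit 426566) (nat_lit 34) (.e (nat_lit 393253) (nat_lit 18) (.e (nat_lit 164332) (nat_lit 230) (.e (nat_lit 163869) (nat_lit 2) (.e (nat_lit 196654) (nat_lit 11) .nil)))))) (.g (nat_lit 1) (.e (nat_lit 138456) (nat_lit 0) .nil) .nil))) 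
(.lf (nat_lit 489031) (.g (nat_lit 877) (.e (nat_lit 16459) (nat_lit 12) (.e (nat_lit 475198) (nat_lit 40) (.e (nat_lit 704595) (nat_lit 5) .nil))) (.g (nat_lit 0) (.e (nat_lit 140123) (nat_lit 0) .nil) .nil)))) (.nd (nat_lit 9) 
(.lf (nat_lit 488775) (.g (nat_lit 4618) (.e (nat_lit 16438) (nat_lit 9) (.e (nat_lit 426482) (nat_lit 27) (.e (nat_lit 336389) (nat_lit 27) (.e (nat_lit 426098) (nat_lit 1) (.e (nat_lit 164325) (nat_lit 230) (.e (nat_lit 163871) (nat_lit 2) (.e (nat_lit 196656) (nat_lit 11) .nil))))))) (.g (nat_lit 1) (.e (nat_lit 138898) (nat_lit 0) .nil) .nil))) 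
(.lf (nat_lit 489287) (.g (nat_lit 2966) (.e (nat_lit 16465) (nat_lit 13) (.e (nat_lit 483341) (nat_lit 9) (.e (nat_lit 426100) (nat_lit 1) (.e (nat_lit 164331) (nat_lit 230) (.e (nat_lit 163867) (nat_lit 2) (.e (nat_lit 196656) (nat_lit 11) .nil)))))) (.g (nat_lit 1) (.e (nat_lit 140560) (nat_lit 0) .nil) .nil))))) (.nd (nat_lit 8) (.nd (nat_lit 9) 
(.lf (nat_lit 488647) (.g (nat_lit 3462) (.e (nat_lit 16436) (nat_lit 9) (.e (nat_lit 426479) (nat_lit 27) (.e (nat_lit 336369) (nat_lit 27) (.e (nat_lit 426109) (nat_lit 1) (.e (nat_lit 164327) (nat_lit 230) (.e (nat_lit 163871) (nat_lit 2) (.e (nat_lit 196654) (nat_lit 11) .nil))))))) (.g (nat_lit 1) (.e (nat_lit 138694) (nat_lit 0) .nil) .nil))) 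
(.lf (nat_lit 489159) (.g (nat_lit 2121) (.e (nat_lit 16463) (nat_lit 13) (.e (nat_lit 483341) (nat_lit 9) (.e (nat_lit 426105) (nat_lit 1) (.e (nat_lit 164325) (nat_lit 230) (.e (nat_lit 163871) (nat_lit 2) (.e (nat_lit 196656) (nat_lit 11) .nil)))))) (.g (nat_lit 1) (.e (nat_lit 140351) (nat_lit 0) .nil) .nil)))) (.nd (nat_lit 9) 
(.lf (nat_lit 488903) (.g (nat_lit 440) (.e (nat_lit 16448) (nat_lit 10) (.e (nat_lit 434238) (nat_lit 25) (.e (nat_lit 548915) (nat_lit 20) .nil))) (.g (nat_lit 0) (.e (nat_lit 139527) (nat_lit 0) .nil) .nil))) 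
(.lf (nat_lit 489415) (.g (nat_lit 1466) (.e (nat_lit 16466) (nat_lit 13) (.e (nat_lit 483341) (nat_lit 9) (.e (nat_lit 426106) (nat_lit 1) (.e (nat_lit 164329) (nat_lit 230) (.e (nat_lit 163867) (nat_lit 2) (.e (nat_lit 196652) (nat_lit 11) .nil)))))) (.g (nat_lit 1) (.e (nat_lit 140712) (nat_lit 0) .nil) .nil))))))) (.nd (nat_lit 6) (.nd (nat_lit 7) (.nd (nat_lit 8) (.nd (nat_lit 9) 
(.lf (nat_lit 488487) (.g (nat_lit 383) (.e (nat_lit 16434) (nat_lit 9) (.e (nat_lit 426566) (nat_lit 34) (.e (nat_lit 393253) (nat_lit 18) .nil))) (.g (nat_lit 0) (.e (nat_lit 138424) (nat_lit 0) .nil) .nil))) 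
(.lf (nat_lit 488999) (.g (nat_lit 2940) (.e (nat_lit 16458) (nat_lit 12) (.e (nat_lit 475185) (nat_lit 29) (.e (nat_lit 557100) (nat_lit 13) (.e (nat_lit 172113) (nat_lit 10) (.e (nat_lit 434245) (nat_lit 28) (.e (nat_lit 573471) (nat_lit 11) .nil)))))) (.g (nat_lit 1) (.e (nat_lit 140075) (nat_lit 0) .nil) .nil)))) (.nd (nat_lit 9) 
(.lf (nat_lit 488743) (.g (nat_lit 2653) (.e (nat_lit 16438) (nat_lit 9) (.e (nat_lit 426482) (nat_lit 27) (.e (nat_lit 336385) (nat_lit 27) (.e (nat_lit 426098) (nat_lit 1) (.e (nat_lit 164325) (nat_lit 230) (.e (nat_lit 163868) (nat_lit 2) (.e (nat_lit 196654) (nat_lit 11) .nil))))))) (.g (nat_lit 1) (.e (nat_lit 138858) (nat_lit 0) .nil) .nil))) 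
(.lf (nat_lit 489255) (.g (nat_lit 1103) (.e (nat_lit 16464) (nat_lit 13) (.e (nat_lit 483383) (nat_lit 23) (.e (nat_lit 336000) (nat_lit 1) .nil))) (.g (nat_lit 0) (.e (nat_lit 140511) (nat_lit 0) .nil) .nil))))) (.nd (nat_lit 8) (.nd (nat_lit 9) 
(.lf (nat_lit 488615) (.g (nat_lit 1779) (.e (nat_lit 16436) (nat_lit 9) (.e (nat_lit 426131) (nat_lit 3) (.e (nat_lit 204854) (nat_lit 26) (.e (nat_lit 336284) (nat_lit 15) (.e (nat_lit 3778) (nat_lit 229) .nil))))) (.g (nat_lit 0) (.e (nat_lit 138601) (nat_lit 0) .nil) .nil))) 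
(.lf (nat_lit 489127) (.g (nat_lit 3230) (.e (nat_lit 16463) (nat_lit 13) (.e (nat_lit 483339) (nat_lit 9) (.e (nat_lit 426110) (nat_lit 1) (.e (nat_lit 164327) (nat_lit 230) (.e (nat_lit 163868) (nat_lit 2) (.e (nat_lit 196654) (nat_lit 11) .nil)))))) (.g (nat_lit 1) (.e (nat_lit 140319) (nat_lit 0) .nil) .nil)))) (.nd (nat_lit 9) 
(.lf (nat_lit 488871) (.g (nat_lit 3906) (.e (nat_lit 24320) (nat_lit 9) (.e (nat_lit 426566) (nat_lit 34) (.e (nat_lit 393253) (nat_lit 18) (.e (nat_lit 164322) (nat_lit 230) .nil)))) (.g (nat_lit 0) (.e (nat_lit 139257) (nat_lit 0) .nil) .nil))) 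
(.lf (nat_lit 489383) (.g (nat_lit 3144) (.e (nat_lit 16466) (nat_lit 13) (.e (nat_lit 483341) (nat_lit 9) (.e (nat_lit 426098) (nat_lit 1) (.e (nat_lit 164325) (nat_lit 230) (.e (nat_lit 163868) (nat_lit 2) (.e (nat_lit 196654) (nat_lit 11) .nil)))))) (.g (nat_lit 1) (.e (nat_lit 140680) (nat_lit 0) .nil) .nil)))))) (.nd (nat_lit 7) (.nd (nat_lit 8) (.nd (nat_lit 9) 
(.lf (nat_lit 488551) (.g (nat_lit 2203) (.e (nat_lit 16435) (nat_lit 9) (.e (nat_lit 426566) (nat_lit 34) (.e (nat_lit 393251) (nat_lit 18) (.e (nat_lit 164329) (nat_lit 230) .nil)))) (.g (nat_lit 0) (.e (nat_lit 138495) (nat_lit 0) .nil) .nil))) 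
(.lf (nat_lit 489063) (.g (nat_lit 3827) (.e (nat_lit 16461) (nat_lit 12) (.e (nat_lit 475183) (nat_lit 29) (.e (nat_lit 557100) (nat_lit 13) (.e (nat_lit 172113) (nat_lit 10) (.e (nat_lit 434247) (nat_lit 28) (.e (nat_lit 573469) (nat_lit 11) .nil)))))) (.g (nat_lit 1) (.e (nat_lit 140174) (nat_lit 0) .nil) .nil)))) (.nd (nat_lit 9) 
(.lf (nat_lit 488807) (.g (nat_lit 2813) (.e (nat_lit 16438) (nat_lit 9) (.e (nat_lit 426482) (nat_lit 27) (.e (nat_lit 336388) (nat_lit 27) (.e (nat_lit 426108) (nat_lit 1) (.e (nat_lit 164331) (nat_lit 230) (.e (nat_lit 163866) (nat_lit 2) (.e (nat_lit 196654) (nat_lit 11) .nil))))))) (.g (nat_lit 1) (.e (nat_lit 138935) (nat_lit 0) .nil) .nil))) 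
(.lf (nat_lit 489319) (.g (nat_lit 2114) (.e (nat_lit 16465) (nat_lit 13) (.e (nat_lit 483341) (nat_lit 9) (.e (nat_lit 426108) (nat_lit 1) (.e (nat_lit 164330) (nat_lit 230) (.e (nat_lit 163866) (nat_lit 2) (.e (nat_lit 196653) (nat_lit 11) .nil)))))) (.g (nat_lit 1) (.e (nat_lit 140601) (nat_lit 0) .nil) .nil))))) (.nd (nat_lit 8) (.nd (nat_lit 9) 
(.lf (nat_lit 488679) (.g (nat_lit 2443) (.e (nat_lit 16436) (nat_lit 9) (.e (nat_lit 426566) (nat_lit 34) (.e (nat_lit 393253) (nat_lit 18) (.e (nat_lit 164329) (nat_lit 230) (.e (nat_lit 163867) (nat_lit 2) (.e (nat_lit 196652) (nat_lit 11) .nil)))))) (.g (nat_lit 1) (.e (nat_lit 138741) (nat_lit 0) .nil) .nil))) 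
(.lf (nat_lit 489191) (.g (nat_lit 3933) (.e (nat_lit 16463) (nat_lit 13) (.e (nat_lit 483341) (nat_lit 9) (.e (nat_lit 426106) (nat_lit 1) (.e (nat_lit 164332) (nat_lit 230) (.e (nat_lit 163869) (nat_lit 2) (.e (nat_lit 196654) (nat_lit 11) .nil)))))) (.g (nat_lit 1) (.e (nat_lit 140384) (nat_lit 0) .nil) .nil)))) (.nd (nat_lit 9) 
(.lf (nat_lit 488935) (.g (nat_lit 2270) (.e (nat_lit 16456) (nat_lit 12) (.e (nat_lit 475177) (nat_lit 24) (.e (nat_lit 516117) (nat_lit 1) (.e (nat_lit 164330) (nat_lit 230) (.e (nat_lit 163936) (nat_lit 18) (.e (nat_lit 483072) (nat_lit 10) .nil)))))) (.g (nat_lit 1) (.e (nat_lit 139990) (nat_lit 0) .nil) .nil))) 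
(.lf (nat_lit 489447) (.g (nat_lit 3760) (.e (nat_lit 16466) (nat_lit 13) (.e (nat_lit 483341) (nat_lit 9) (.e (nat_lit 426108) (nat_lit 1) (.e (nat_lit 164332) (nat_lit 230) (.e (nat_lit 163867) (nat_lit 2) (.e (nat_lit 196654) (nat_lit 11) .nil)))))) (.g (nat_lit 1) (.e (nat_lit 140744) (nat_lit 0) .nil) .nil)))))))) 
(.nd (nat_lit 5) (.nd (nat_lit 6) (.nd (nat_lit 7) (.nd (nat_lit 8) (.nd (nat_lit 9) 
(.lf (nat_lit 488471) (.g (nat_lit 3617) (.e (nat_lit 16434) (nat_lit 9) (.e (nat_lit 426566) (nat_lit 34) (.e (nat_lit 393251) (nat_lit 18) (.e (nat_lit 164325) (nat_lit 230) (.e (nat_lit 163871) (nat_lit 2) (.e (nat_lit 196656) (nat_lit 11) .nil)))))) (.g (nat_lit 1) (.e (nat_lit 138408) (nat_lit 0) .nil) .nil))) 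
(.lf (nat_lit 488983) (.g (nat_lit 3476) (.e (nat_lit 16458) (nat_lit 12) (.e (nat_lit 475177) (nat_lit 24) (.e (nat_lit 516115) (nat_lit 1) (.e (nat_lit 164325) (nat_lit 230) (.e (nat_lit 163936) (nat_lit 18) .nil))))) (.g (nat_lit 0) (.e (nat_lit 140054) (nat_lit 0) .nil) .nil)))) (.nd (nat_lit 9) 
(.lf (nat_lit 488727) (.g (nat_lit 4006) (.e (nat_lit 16437) (nat_lit 9) (.e (nat_lit 426566) (nat_lit 34) (.e (nat_lit 393253) (nat_lit 18) (.e (nat_lit 164331) (nat_lit 230) (.e (nat_lit 163867) (nat_lit 2) (.e (nat_lit 196654) (nat_lit 11) .nil)))))) (.g (nat_lit 1) (.e (nat_lit 138835) (nat_lit 0) .nil) .nil))) 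
(.lf (nat_lit 489239) (.g (nat_lit 3610) (.e (nat_lit 16463) (nat_lit 13) (.e (nat_lit 483411) (nat_lit 27) (.e (nat_lit 401448) (nat_lit 10) (.e (nat_lit 434291) (nat_lit 44) (.e (nat_lit 704737) (nat_lit 11) .nil))))) (.g (nat_lit 1) (.e (nat_lit 140447) (nat_lit 0) .nil) .nil))))) (.nd (nat_lit 8) (.nd (nat_lit 9) 
(.lf (nat_lit 488599) (.g (nat_lit 3953) (.e (nat_lit 16435) (nat_lit 9) (.e (nat_lit 426566) (nat_lit 34) (.e (nat_lit 393253) (nat_lit 18) (.e (nat_lit 164332) (nat_lit 230) (.e (nat_lit 163869) (nat_lit 2) (.e (nat_lit 196653) (nat_lit 11) .nil)))))) (.g (nat_lit 1) (.e (nat_lit 138543) (nat_lit 0) .nil) .nil))) 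
(.lf (nat_lit 489111) (.g (nat_lit 2621) (.e (nat_lit 16463) (nat_lit 13) (.e (nat_lit 483337) (nat_lit 9) (.e (nat_lit 426107) (nat_lit 1) (.e (nat_lit 164324) (nat_lit 230) (.e (nat_lit 163867) (nat_lit 2) .nil))))) (.g (nat_lit 0) (.e (nat_lit 140299) (nat_lit 0) .nil) .nil)))) (.nd (nat_lit 9) 
(.lf (nat_lit 488855) (.g (nat_lit 3234) (.e (nat_lit 16446) (nat_lit 9) (.e (nat_lit 426116) (nat_lit 2) (.e (nat_lit 196656) (nat_lit 11) (.e (nat_lit 16392) (nat_lit 0) (.e (nat_lit 3399) (nat_lit 211) (.e (nat_lit 647181) (nat_lit 3) (.e (nat_lit 171776) (nat_lit 189) .nil))))))) (.g (nat_lit 1) (.e (nat_lit 139188) (nat_lit 0) .nil) .nil))) 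
(.lf (nat_lit 489367) (.g (nat_lit 2844) (.e (nat_lit 16466) (nat_lit 13) (.e (nat_lit 483337) (nat_lit 9) (.e (nat_lit 426107) (nat_lit 1) (.e (nat_lit 164327) (nat_lit 230) (.e (nat_lit 163871) (nat_lit 2) (.e (nat_lit 196656) (nat_lit 11) .nil)))))) (.g (nat_lit 1) (.e (nat_lit 140664) (nat_lit 0) .nil) .nil)))))) (.nd (nat_lit 7) (.nd (nat_lit 8) (.nd (nat_lit 9) 
(.lf (nat_lit 488535) (.g (nat_lit 1281) (.e (nat_lit 16435) (nat_lit 9) (.e (nat_lit 426504) (nat_lit 27) (.e (nat_lit 336387) (nat_lit 27) (.e (nat_lit 426107) (nat_lit 1) (.e (nat_lit 164326) (nat_lit 230) (.e (nat_lit 163871) (nat_lit 2) (.e (nat_lit 196655) (nat_lit 11) .nil))))))) (.g (nat_lit 1) (.e (nat_lit 138479) (nat_lit 0) .nil) .nil))) 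
(.lf (nat_lit 489047) (.g (nat_lit 2001) (.e (nat_lit 16461) (nat_lit 12) (.e (nat_lit 475178) (nat_lit 24) (.e (nat_lit 516117) (nat_lit 1) (.e (nat_lit 164329) (nat_lit 230) (.e (nat_lit 163936) (nat_lit 18) (.e (nat_lit 483072) (nat_lit 10) .nil)))))) (.g (nat_lit 1) (.e (nat_lit 140156) (nat_lit 0) .nil) .nil)))) (.nd (nat_lit 9) 
(.lf (nat_lit 488791) (.g (nat_lit 4218) (.e (nat_lit 16438) (nat_lit 9) (.e (nat_lit 426482) (nat_lit 27) (.e (nat_lit 336388) (nat_lit 27) (.e (nat_lit 426098) (nat_lit 1) (.e (nat_lit 164327) (nat_lit 230) (.e (nat_lit 163868) (nat_lit 2) (.e (nat_lit 196654) (nat_lit 11) .nil))))))) (.g (nat_lit 1) (.e (nat_lit 138915) (nat_lit 0) .nil) .nil))) 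
(.lf (nat_lit 489303) (.g (nat_lit 3136) (.e (nat_lit 16465) (nat_lit 13) (.e (nat_lit 483341) (nat_lit 9) (.e (nat_lit 426107) (nat_lit 1) (.e (nat_lit 164325) (nat_lit 230) (.e (nat_lit 163869) (nat_lit 2) (.e (nat_lit 196656) (nat_lit 11) .nil)))))) (.g (nat_lit 1) (.e (nat_lit 140580) (nat_lit 0) .nil) .nil))))) (.nd (nat_lit 8) (.nd (nat_lit 9) 
(.lf (nat_lit 488663) (.g (nat_lit 1986) (.e (nat_lit 16436) (nat_lit 9) (.e (nat_lit 426486) (nat_lit 27) (.e (nat_lit 336414) (nat_lit 27) (.e (nat_lit 426110) (nat_lit 1) (.e (nat_lit 164327) (nat_lit 230) (.e (nat_lit 163868) (nat_lit 2) (.e (nat_lit 196654) (nat_lit 11) .nil))))))) (.g (nat_lit 1) (.e (nat_lit 138715) (nat_lit 0) .nil) .nil))) 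
(.lf (nat_lit 489175) (.g (nat_lit 3078) (.e (nat_lit 16463) (nat_lit 13) (.e (nat_lit 483341) (nat_lit 9) (.e (nat_lit 426106) (nat_lit 1) (.e (nat_lit 164325) (nat_lit 230) (.e (nat_lit 163871) (nat_lit 2) (.e (nat_lit 196654) (nat_lit 11) .nil)))))) (.g (nat_lit 1) (.e (nat_lit 140368) (nat_lit 0) .nil) .nil)))) (.nd (nat_lit 9) 
(.lf (nat_lit 488919) (.g (nat_lit 3861) (.e (nat_lit 16454) (nat_lit 11) (.e (nat_lit 458789) (nat_lit 23) (.e (nat_lit 532569) (nat_lit 16) (.e (nat_lit 401448) (nat_lit 10) (.e (nat_lit 434248) (nat_lit 28) (.e (nat_lit 573470) (nat_lit 11) .nil)))))) (.g (nat_lit 1) (.e (nat_lit 139965) (nat_lit 0) .nil) .nil))) 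
(.lf (nat_lit 489431) (.g (nat_lit 3389) (.e (nat_lit 16466) (nat_lit 13) (.e (nat_lit 483341) (nat_lit 9) (.e (nat_lit 426107) (nat_lit 1) (.e (nat_lit 164327) (nat_lit 230) (.e (nat_lit 163866) (nat_lit 2) (.e (nat_lit 196654) (nat_lit 11) .nil)))))) (.g (nat_lit 1) (.e (nat_lit 140728) (nat_lit 0) .nil) .nil))))))) (.nd (nat_lit 6) (.nd (nat_lit 7) (.nd (nat_lit 8) (.nd (nat_lit 9) 
(.lf (nat_lit 488503) (.g (nat_lit 3391) (.e (nat_lit 16434) (nat_lit 9) (.e (nat_lit 426566) (nat_lit 34) (.e (nat_lit 393253) (nat_lit 18) (.e (nat_lit 164325) (nat_lit 230) (.e (nat_lit 163871) (nat_lit 2) (.e (nat_lit 196654) (nat_lit 11) .nil)))))) (.g (nat_lit 1) (.e (nat_lit 138440) (nat_lit 0) .nil) .nil))) 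
(.lf (nat_lit 489015) (.g (nat_lit 2559) (.e (nat_lit 16459) (nat_lit 12) (.e (nat_lit 475179) (nat_lit 24) (.e (nat_lit 516117) (nat_lit 1) (.e (nat_lit 164332) (nat_lit 230) (.e (nat_lit 163938) (nat_lit 18) (.e (nat_lit 483072) (nat_lit 10) .nil)))))) (.g (nat_lit 1) (.e (nat_lit 140103) (nat_lit 0) .nil) .nil)))) (.nd (nat_lit 9) 
(.lf (nat_lit 488759) (.g (nat_lit 3706) (.e (nat_lit 16438) (nat_lit 9) (.e (nat_lit 426482) (nat_lit 27) (.e (nat_lit 336385) (nat_lit 27) (.e (nat_lit 426107) (nat_lit 1) (.e (nat_lit 164327) (nat_lit 230) (.e (nat_lit 163871) (nat_lit 2) (.e (nat_lit 196654) (nat_lit 11) .nil))))))) (.g (nat_lit 1) (.e (nat_lit 138877) (nat_lit 0) .nil) .nil))) 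
(.lf (nat_lit 489271) (.g (nat_lit 3917) (.e (nat_lit 16465) (nat_lit 13) (.e (nat_lit 483341) (nat_lit 9) (.e (nat_lit 426098) (nat_lit 1) (.e (nat_lit 164327) (nat_lit 230) (.e (nat_lit 163871) (nat_lit 2) (.e (nat_lit 196656) (nat_lit 11) .nil)))))) (.g (nat_lit 1) (.e (nat_lit 140536) (nat_lit 0) .nil) .nil))))) (.nd (nat_lit 8) (.nd (nat_lit 9) 
(.lf (nat_lit 488631) (.g (nat_lit 2163) (.e (nat_lit 16436) (nat_lit 9) (.e (nat_lit 426131) (nat_lit 3) (.e (nat_lit 204880) (nat_lit 32) (.e (nat_lit 385108) (nat_lit 51) (.e (nat_lit 794665) (nat_lit 22) (.e (nat_lit 196656) (nat_lit 11) .nil)))))) (.g (nat_lit 1) (.e (nat_lit 138642) (nat_lit 0) .nil) .nil))) 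
(.lf (nat_lit 489143) (.g (nat_lit 3092) (.e (nat_lit 16463) (nat_lit 13) (.e (nat_lit 483341) (nat_lit 9) (.e (nat_lit 426098) (nat_lit 1) (.e (nat_lit 164332) (nat_lit 230) (.e (nat_lit 163866) (nat_lit 2) (.e (nat_lit 196654) (nat_lit 11) .nil)))))) (.g (nat_lit 1) (.e (nat_lit 140335) (nat_lit 0) .nil) .nil)))) (.nd (nat_lit 9) 
(.lf (nat_lit 488887) (.g (nat_lit 3720) (.e (nat_lit 16448) (nat_lit 10) (.e (nat_lit 434231) (nat_lit 23) (.e (nat_lit 532529) (nat_lit 9) (.e (nat_lit 336334) (nat_lit 20) (.e (nat_lit 221212) (nat_lit 22) (.e (nat_lit 196656) (nat_lit 11) .nil)))))) (.g (nat_lit 1) (.e (nat_lit 139460) (nat_lit 0) .nil) .nil))) 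
(.lf (nat_lit 489399) (.g (nat_lit 1904) (.e (nat_lit 16466) (nat_lit 13) (.e (nat_lit 483341) (nat_lit 9) (.e (nat_lit 426105) (nat_lit 1) (.e (nat_lit 164325) (nat_lit 230) (.e (nat_lit 163871) (nat_lit 2) (.e (nat_lit 196656) (nat_lit 11) .nil)))))) (.g (nat_lit 1) (.e (nat_lit 140696) (nat_lit 0) .nil) .nil)))))) (.nd (nat_lit 7) (.nd (nat_lit 8) (.nd (nat_lit 9) 
(.lf (nat_lit 488567) (.g (nat_lit 2816) (.e (nat_lit 16435) (nat_lit 9) (.e (nat_lit 426566) (nat_lit 34) (.e (nat_lit 393253) (nat_lit 18) (.e (nat_lit 164324) (nat_lit 230) (.e (nat_lit 163866) (nat_lit 2) (.e (nat_lit 196654) (nat_lit 11) .nil)))))) (.g (nat_lit 1) (.e (nat_lit 138511) (nat_lit 0) .nil) .nil))) 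
(.lf (nat_lit 489079) (.g (nat_lit 2008) (.e (nat_lit 16462) (nat_lit 13) (.e (nat_lit 483372) (nat_lit 21) (.e (nat_lit 319505) (nat_lit 10) (.e (nat_lit 4916) (nat_lit 287) .nil)))) (.g (nat_lit 0) (.e (nat_lit 140241) (nat_lit 0) .nil) .nil)))) (.nd (nat_lit 9) 
(.lf (nat_lit 488823) (.g (nat_lit 1517) (.e (nat_lit 16439) (nat_lit 9) (.e (nat_lit 426158) (nat_lit 6) (.e (nat_lit 253992) (nat_lit 11) (.e (nat_lit 16425) (nat_lit 7) (.e (nat_lit 417536) (nat_lit 3) (.e (nat_lit 49189) (nat_lit 11) .nil)))))) (.g (nat_lit 1) (.e (nat_lit 138964) (nat_lit 0) .nil) .nil))) 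
(.lf (nat_lit 489335) (.g (nat_lit 2186) (.e (nat_lit 16466) (nat_lit 13) (.e (nat_lit 483336) (nat_lit 9) (.e (nat_lit 426100) (nat_lit 1) (.e (nat_lit 164332) (nat_lit 230) (.e (nat_lit 163866) (nat_lit 2) (.e (nat_lit 196654) (nat_lit 11) .nil)))))) (.g (nat_lit 1) (.e (nat_lit 140632) (nat_lit 0) .nil) .nil))))) (.nd (nat_lit 8) (.nd (nat_lit 9) 
(.lf (nat_lit 488695) (.g (nat_lit 2690) (.e (nat_lit 16437) (nat_lit 9) (.e (nat_lit 426566) (nat_lit 34) (.e (nat_lit 393251) (nat_lit 18) (.e (nat_lit 164325) (nat_lit 230) (.e (nat_lit 163871) (nat_lit 2) (.e (nat_lit 196654) (nat_lit 11) .nil)))))) (.g (nat_lit 1) (.e (nat_lit 138803) (nat_lit 0) .nil) .nil))) 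
(.lf (nat_lit 489207) (.g (nat_lit 3203) (.e (nat_lit 16463) (nat_lit 13) (.e (nat_lit 483341) (nat_lit 9) (.e (nat_lit 426107) (nat_lit 1) (.e (nat_lit 164326) (nat_lit 230) (.e (nat_lit 163868) (nat_lit 2) (.e (nat_lit 196654) (nat_lit 11) .nil)))))) (.g (nat_lit 1) (.e (nat_lit 140403) (nat_lit 0) .nil) .nil)))) (.nd (nat_lit 9) 
(.lf (nat_lit 488951) (.g (nat_lit 3851) (.e (nat_lit 16456) (nat_lit 12) (.e (nat_lit 475179) (nat_lit 24) (.e (nat_lit 516120) (nat_lit 1) (.e (nat_lit 164330) (nat_lit 230) (.e (nat_lit 163938) (nat_lit 18) (.e (nat_lit 483072) (nat_lit 10) .nil)))))) (.g (nat_lit 1) (.e (nat_lit 140011) (nat_lit 0) .nil) .nil))) 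
(.lf (nat_lit 489463) (.g (nat_lit 745) (.e (nat_lit 16466) (nat_lit 13) (.e (nat_lit 483413) (nat_lit 27) (.e (nat_lit 401439) (nat_lit 9) .nil))) (.g (nat_lit 0) (.e (nat_lit 140761) (nat_lit 0) .nil) .nil))))))))) (.nd (nat_lit 4) (.nd (nat_lit 5) (.nd (nat_lit 6) (.nd (nat_lit 7) (.nd (nat_lit 8) (.nd (nat_lit 9) 
(.lf (nat_lit 488463) (.g (nat_lit 1346) (.e (nat_lit 16434) (nat_lit 9) (.e (nat_lit 426555) (nat_lit 32) (.e (nat_lit 376857) (nat_lit 21) (.e (nat_lit 57854) (nat_lit 252) .nil)))) (.g (nat_lit 0) (.e (nat_lit 138400) (nat_lit 0) .nil) .nil))) 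
(.lf (nat_lit 488975) (.g (nat_lit 2227) (.e (nat_lit 16457) (nat_lit 12) (.e (nat_lit 475185) (nat_lit 29) (.e (nat_lit 557100) (nat_lit 13) (.e (nat_lit 172113) (nat_lit 10) (.e (nat_lit 434245) (nat_lit 28) .nil))))) (.g (nat_lit 0) (.e (nat_lit 140040) (nat_lit 0) .nil) .nil)))) (.nd (nat_lit 9) 
(.lf (nat_lit 488719) (.g (nat_lit 2555) (.e (nat_lit 16437) (nat_lit 9) (.e (nat_lit 426566) (nat_lit 34) (.e (nat_lit 393253) (nat_lit 18) (.e (nat_lit 164327) (nat_lit 230) .nil)))) (.g (nat_lit 0) (.e (nat_lit 138827) (nat_lit 0) .nil) .nil))) 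
(.lf (nat_lit 489231) (.g (nat_lit 4546) (.e (nat_lit 16463) (nat_lit 13) (.e (nat_lit 483341) (nat_lit 9) (.e (nat_lit 426108) (nat_lit 1) (.e (nat_lit 164332) (nat_lit 230) (.e (nat_lit 163869) (nat_lit 2) (.e (nat_lit 196654) (nat_lit 11) .nil)))))) (.g (nat_lit 1) (.e (nat_lit 140429) (nat_lit 0) .nil) .nil))))) (.nd (nat_lit 8) (.nd (nat_lit 9) 
(.lf (nat_lit 488591) (.g (nat_lit 2731) (.e (nat_lit 16435) (nat_lit 9) (.e (nat_lit 426566) (nat_lit 34) (.e (nat_lit 393253) (nat_lit 18) (.e (nat_lit 164331) (nat_lit 230) (.e (nat_lit 163867) (nat_lit 2) (.e (nat_lit 196652) (nat_lit 11) .nil)))))) (.g (nat_lit 1) (.e (nat_lit 138535) (nat_lit 0) .nil) .nil))) 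
(.lf (nat_lit 489103) (.g (nat_lit 4037) (.e (nat_lit 16463) (nat_lit 13) (.e (nat_lit 483337) (nat_lit 9) (.e (nat_lit 426107) (nat_lit 1) (.e (nat_lit 164322) (nat_lit 230) (.e (nat_lit 163867) (nat_lit 2) (.e (nat_lit 196653) (nat_lit 11) .nil)))))) (.g (nat_lit 1) (.e (nat_lit 140291) (nat_lit 0) .nil) .nil)))) (.nd (nat_lit 9) 
(.lf (nat_lit 488847) (.g (nat_lit 2567) (.e (nat_lit 16444) (nat_lit 9) (.e (nat_lit 426503) (nat_lit 27) (.e (nat_lit 336387) (nat_lit 27) (.e (nat_lit 426098) (nat_lit 1) (.e (nat_lit 164325) (nat_lit 230) (.e (nat_lit 163868) (nat_lit 2) (.e (nat_lit 196656) (nat_lit 11) .nil))))))) (.g (nat_lit 1) (.e (nat_lit 139112) (nat_lit 0) .nil) .nil))) 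
(.lf (nat_lit 489359) (.g (nat_lit 2617) (.e (nat_lit 16466) (nat_lit 13) (.e (nat_lit 483337) (nat_lit 9) (.e (nat_lit 426107) (nat_lit 1) (.e (nat_lit 164325) (nat_lit 230) (.e (nat_lit 163869) (nat_lit 2) (.e (nat_lit 196656) (nat_lit 11) .nil)))))) (.g (nat_lit 1) (.e (nat_lit 140656) (nat_lit 0) .nil) .nil)))))) (.nd (nat_lit 7) (.nd (nat_lit 8) (.nd (nat_lit 9) 
(.lf (nat_lit 488527) (.g (nat_lit 2464) (.e (nat_lit 16435) (nat_lit 9) (.e (nat_lit 426478) (nat_lit 27) (.e (nat_lit 336388) (nat_lit 27) (.e (nat_lit 426107) (nat_lit 1) (.e (nat_lit 164326) (nat_lit 230) (.e (nat_lit 163868) (nat_lit 2) (.e (nat_lit 196655) (nat_lit 11) .nil))))))) (.g (nat_lit 1) (.e (nat_lit 138471) (nat_lit 0) .nil) .nil))) 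
(.lf (nat_lit 489039) (.g (nat_lit 666) (.e (nat_lit 16460) (nat_lit 12) (.e (nat_lit 475199) (nat_lit 40) (.e (nat_lit 704595) (nat_lit 5) .nil))) (.g (nat_lit 0) (.e (nat_lit 140136) (nat_lit 0) .nil) .nil)))) (.nd (nat_lit 9) 
(.lf (nat_lit 488783) (.g (nat_lit 3120) (.e (nat_lit 16438) (nat_lit 9) (.e (nat_lit 426482) (nat_lit 27) (.e (nat_lit 336389) (nat_lit 27) (.e (nat_lit 426108) (nat_lit 1) (.e (nat_lit 164330) (nat_lit 230) (.e (nat_lit 163869) (nat_lit 2) (.e (nat_lit 196654) (nat_lit 11) .nil))))))) (.g (nat_lit 1) (.e (nat_lit 138907) (nat_lit 0) .nil) .nil))) 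
(.lf (nat_lit 489295) (.g (nat_lit 1815) (.e (nat_lit 16465) (nat_lit 13) (.e (nat_lit 483341) (nat_lit 9) (.e (nat_lit 426107) (nat_lit 1) (.e (nat_lit 164324) (nat_lit 230) .nil)))) (.g (nat_lit 0) (.e (nat_lit 140570) (nat_lit 0) .nil) .nil))))) (.nd (nat_lit 8) (.nd (nat_lit 9) 
(.lf (nat_lit 488655) (.g (nat_lit 3906) (.e (nat_lit 16436) (nat_lit 9) (.e (nat_lit 426482) (nat_lit 27) (.e (nat_lit 336389) (nat_lit 27) (.e (nat_lit 426098) (nat_lit 1) (.e (nat_lit 164327) (nat_lit 230) (.e (nat_lit 163868) (nat_lit 2) (.e (nat_lit 196654) (nat_lit 11) .nil))))))) (.g (nat_lit 1) (.e (nat_lit 138705) (nat_lit 0) .nil) .nil))) 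
(.lf (nat_lit 489167) (.g (nat_lit 3439) (.e (nat_lit 16463) (nat_lit 13) (.e (nat_lit 483341) (nat_lit 9) (.e (nat_lit 426106) (nat_lit 1) (.e (nat_lit 164322) (nat_lit 230) (.e (nat_lit 163871) (nat_lit 2) (.e (nat_lit 196654) (nat_lit 11) .nil)))))) (.g (nat_lit 1) (.e (nat_lit 140360) (nat_lit 0) .nil) .nil)))) (.nd (nat_lit 9) 
(.lf (nat_lit 488911) (.g (nat_lit 1083) (.e (nat_lit 16449) (nat_lit 10) (.e (nat_lit 434229) (nat_lit 22) (.e (nat_lit 524340) (nat_lit 28) (.e (nat_lit 352264) (nat_lit 0) (.e (nat_lit 7936) (nat_lit 404) .nil))))) (.g (nat_lit 1) (.e (nat_lit 139611) (nat_lit 0) .nil) .nil))) 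
(.lf (nat_lit 489423) (.g (nat_lit 3572) (.e (nat_lit 16466) (nat_lit 13) (.e (nat_lit 483341) (nat_lit 9) (.e (nat_lit 426107) (nat_lit 1) (.e (nat_lit 164324) (nat_lit 230) (.e (nat_lit 163866) (nat_lit 2) (.e (nat_lit 196654) (nat_lit 11) .nil)))))) (.g (nat_lit 1) (.e (nat_lit 140720) (nat_lit 0) .nil) .nil))))))) (.nd (nat_lit 6) (.nd (nat_lit 7) (.nd (nat_lit 8) (.nd (nat_lit 9) 
(.lf (nat_lit 488495) (.g (nat_lit 3714) (.e (nat_lit 16434) (nat_lit 9) (.e (nat_lit 426566) (nat_lit 34) (.e (nat_lit 393253) (nat_lit 18) (.e (nat_lit 164324) (nat_lit 230) (.e (nat_lit 163869) (nat_lit 2) (.e (nat_lit 196654) (nat_lit 11) .nil)))))) (.g (nat_lit 1) (.e (nat_lit 138432) (nat_lit 0) .nil) .nil))) 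
(.lf (nat_lit 489007) (.g (nat_lit 2192) (.e (nat_lit 16459) (nat_lit 12) (.e (nat_lit 475177) (nat_lit 24) (.e (nat_lit 516120) (nat_lit 1) (.e (nat_lit 164330) (nat_lit 230) (.e (nat_lit 163936) (nat_lit 18) (.e (nat_lit 483072) (nat_lit 10) .nil)))))) (.g (nat_lit 1) (.e (nat_lit 140090) (nat_lit 0) .nil) .nil)))) (.nd (nat_lit 9) 
(.lf (nat_lit 488751) (.g (nat_lit 2938) (.e (nat_lit 16438) (nat_lit 9) (.e (nat_lit 426482) (nat_lit 27) (.e (nat_lit 336385) (nat_lit 27) (.e (nat_lit 426100) (nat_lit 1) (.e (nat_lit 164332) (nat_lit 230) (.e (nat_lit 163869) (nat_lit 2) (.e (nat_lit 196654) (nat_lit 11) .nil))))))) (.g (nat_lit 1) (.e (nat_lit 138867) (nat_lit 0) .nil) .nil))) 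
(.lf (nat_lit 489263) (.g (nat_lit 1512) (.e (nat_lit 16465) (nat_lit 13) (.e (nat_lit 483341) (nat_lit 9) (.e (nat_lit 426097) (nat_lit 1) (.e (nat_lit 164327) (nat_lit 230) .nil)))) (.g (nat_lit 0) (.e (nat_lit 140522) (nat_lit 0) .nil) .nil))))) (.nd (nat_lit 8) (.nd (nat_lit 9) 
(.lf (nat_lit 488623) (.g (nat_lit 773) (.e (nat_lit 16436) (nat_lit 9) (.e (nat_lit 426131) (nat_lit 3) (.e (nat_lit 204857) (nat_lit 26) .nil))) (.g (nat_lit 0) (.e (nat_lit 138628) (nat_lit 0) .nil) .nil))) 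
(.lf (nat_lit 489135) (.g (nat_lit 2252) (.e (nat_lit 16463) (nat_lit 13) (.e (nat_lit 483341) (nat_lit 9) (.e (nat_lit 426098) (nat_lit 1) (.e (nat_lit 164325) (nat_lit 230) (.e (nat_lit 163867) (nat_lit 2) (.e (nat_lit 196654) (nat_lit 11) .nil)))))) (.g (nat_lit 1) (.e (nat_lit 140327) (nat_lit 0) .nil) .nil)))) (.nd (nat_lit 9) 
(.lf (nat_lit 488879) (.g (nat_lit 2183) (.e (nat_lit 16447) (nat_lit 10) (.e (nat_lit 434231) (nat_lit 23) (.e (nat_lit 532569) (nat_lit 16) (.e (nat_lit 401448) (nat_lit 10) (.e (nat_lit 434243) (nat_lit 28) (.e (nat_lit 573471) (nat_lit 11) .nil)))))) (.g (nat_lit 1) (.e (nat_lit 139371) (nat_lit 0) .nil) .nil))) 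
(.lf (nat_lit 489391) (.g (nat_lit 2964) (.e (nat_lit 16466) (nat_lit 13) (.e (nat_lit 483341) (nat_lit 9) (.e (nat_lit 426099) (nat_lit 1) (.e (nat_lit 164332) (nat_lit 230) (.e (nat_lit 163867) (nat_lit 2) (.e (nat_lit 196656) (nat_lit 11) .nil)))))) (.g (nat_lit 1) (.e (nat_lit 140688) (nat_lit 0) .nil) .nil)))))) (.nd (nat_lit 7) (.nd (nat_lit 8) (.nd (nat_lit 9) 
(.lf (nat_lit 488559) (.g (nat_lit 1671) (.e (nat_lit 16435) (nat_lit 9) (.e (nat_lit 426566) (nat_lit 34) (.e (nat_lit 393252) (nat_lit 18) (.e (nat_lit 164330) (nat_lit 230) (.e (nat_lit 163866) (nat_lit 2) (.e (nat_lit 196653) (nat_lit 11) .nil)))))) (.g (nat_lit 1) (.e (nat_lit 138503) (nat_lit 0) .nil) .nil))) 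
(.lf (nat_lit 489071) (.g (nat_lit 2002) (.e (nat_lit 16461) (nat_lit 12) (.e (nat_lit 475185) (nat_lit 29) (.e (nat_lit 557098) (nat_lit 13) (.e (nat_lit 172112) (nat_lit 10) (.e (nat_lit 434248) (nat_lit 28) .nil))))) (.g (nat_lit 0) (.e (nat_lit 140185) (nat_lit 0) .nil) .nil)))) (.nd (nat_lit 9) 
(.lf (nat_lit 488815) (.g (nat_lit 2301) (.e (nat_lit 16438) (nat_lit 9) (.e (nat_lit 426482) (nat_lit 27) (.e (nat_lit 336412) (nat_lit 27) (.e (nat_lit 426098) (nat_lit 1) (.e (nat_lit 164327) (nat_lit 230) (.e (nat_lit 163868) (nat_lit 2) (.e (nat_lit 196656) (nat_lit 11) .nil))))))) (.g (nat_lit 1) (.e (nat_lit 138945) (nat_lit 0) .nil) .nil))) 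
(.lf (nat_lit 489327) (.g (nat_lit 2232) (.e (nat_lit 16465) (nat_lit 13) (.e (nat_lit 483341) (nat_lit 9) (.e (nat_lit 426108) (nat_lit 1) (.e (nat_lit 164331) (nat_lit 230) (.e (nat_lit 163869) (nat_lit 2) .nil))))) (.g (nat_lit 0) (.e (nat_lit 140613) (nat_lit 0) .nil) .nil))))) (.nd (nat_lit 8) (.nd (nat_lit 9) 
(.lf (nat_lit 488687) (.g (nat_lit 1653) (.e (nat_lit 16436) (nat_lit 9) (.e (nat_lit 426568) (nat_lit 34) (.e (nat_lit 393234) (nat_lit 17) (.e (nat_lit 2536) (nat_lit 157) .nil)))) (.g (nat_lit 0) (.e (nat_lit 138751) (nat_lit 0) .nil) .nil))) 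
(.lf (nat_lit 489199) (.g (nat_lit 2947) (.e (nat_lit 16463) (nat_lit 13) (.e (nat_lit 483341) (nat_lit 9) (.e (nat_lit 426107) (nat_lit 1) (.e (nat_lit 164324) (nat_lit 230) (.e (nat_lit 163871) (nat_lit 2) (.e (nat_lit 196654) (nat_lit 11) .nil)))))) (.g (nat_lit 1) (.e (nat_lit 140394) (nat_lit 0) .nil) .nil)))) (.nd (nat_lit 9) 
(.lf (nat_lit 488943) (.g (nat_lit 3950) (.e (nat_lit 16456) (nat_lit 12) (.e (nat_lit 475179) (nat_lit 24) (.e (nat_lit 516115) (nat_lit 1) (.e (nat_lit 164325) (nat_lit 230) (.e (nat_lit 163939) (nat_lit 18) (.e (nat_lit 483072) (nat_lit 10) .nil)))))) (.g (nat_lit 1) (.e (nat_lit 140002) (nat_lit 0) .nil) .nil))) 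
(.lf (nat_lit 489455) (.g (nat_lit 1973) (.e (nat_lit 16466) (nat_lit 13) (.e (nat_lit 483393) (nat_lit 23) (.e (nat_lit 335988) (nat_lit 1) (.e (nat_lit 57851) (nat_lit 252) (.e (nat_lit 57354) (nat_lit 0) .nil))))) (.g (nat_lit 0) (.e (nat_lit 140753) (nat_lit 0) .nil) .nil)))))))) (.nd (nat_lit 5) (.nd (nat_lit 6) (.nd (nat_lit 7) (.nd (nat_lit 8) (.nd (nat_lit 9) 
(.lf (nat_lit 488479) (.g (nat_lit 3495) (.e (nat_lit 16434) (nat_lit 9) (.e (nat_lit 426566) (nat_lit 34) (.e (nat_lit 393251) (nat_lit 18) (.e (nat_lit 164332) (nat_lit 230) (.e (nat_lit 163869) (nat_lit 2) (.e (nat_lit 196654) (nat_lit 11) .nil)))))) (.g (nat_lit 1) (.e (nat_lit 138416) (nat_lit 0) .nil) .nil))) 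
(.lf (nat_lit 488991) (.g (nat_lit 3143) (.e (nat_lit 16458) (nat_lit 12) (.e (nat_lit 475183) (nat_lit 29) (.e (nat_lit 557100) (nat_lit 13) (.e (nat_lit 172113) (nat_lit 10) (.e (nat_lit 434248) (nat_lit 28) (.e (nat_lit 573469) (nat_lit 11) .nil)))))) (.g (nat_lit 1) (.e (nat_lit 140066) (nat_lit 0) .nil) .nil)))) (.nd (nat_lit 9) 
(.lf (nat_lit 488735) (.g (nat_lit 2377) (.e (nat_lit 16437) (nat_lit 9) (.e (nat_lit 426568) (nat_lit 34) (.e (nat_lit 393253) (nat_lit 18) (.e (nat_lit 164327) (nat_lit 230) (.e (nat_lit 163868) (nat_lit 2) .nil))))) (.g (nat_lit 0) (.e (nat_lit 138844) (nat_lit 0) .nil) .nil))) 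
(.lf (nat_lit 489247) (.g (nat_lit 2755) (.e (nat_lit 16463) (nat_lit 13) (.e (nat_lit 483413) (nat_lit 27) (.e (nat_lit 401447) (nat_lit 10) (.e (nat_lit 434291) (nat_lit 44) .nil)))) (.g (nat_lit 0) (.e (nat_lit 140460) (nat_lit 0) .nil) .nil))))) (.nd (nat_lit 8) (.nd (nat_lit 9) 
(.lf (nat_lit 488607) (.g (nat_lit 3188) (.e (nat_lit 16436) (nat_lit 9) (.e (nat_lit 426131) (nat_lit 3) (.e (nat_lit 204852) (nat_lit 26) (.e (nat_lit 336334) (nat_lit 20) (.e (nat_lit 221212) (nat_lit 22) (.e (nat_lit 196656) (nat_lit 11) .nil)))))) (.g (nat_lit 1) (.e (nat_lit 138578) (nat_lit 0) .nil) .nil))) 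
(.lf (nat_lit 489119) (.g (nat_lit 3161) (.e (nat_lit 16463) (nat_lit 13) (.e (nat_lit 483337) (nat_lit 9) (.e (nat_lit 426107) (nat_lit 1) (.e (nat_lit 164327) (nat_lit 230) (.e (nat_lit 163866) (nat_lit 2) (.e (nat_lit 196654) (nat_lit 11) .nil)))))) (.g (nat_lit 1) (.e (nat_lit 140310) (nat_lit 0) .nil) .nil)))) (.nd (nat_lit 9) 
(.lf (nat_lit 488863) (.g (nat_lit 2307) (.e (nat_lit 16446) (nat_lit 9) (.e (nat_lit 426139) (nat_lit 3) (.e (nat_lit 204885) (nat_lit 33) (.e (nat_lit 401448) (nat_lit 10) (.e (nat_lit 434244) (nat_lit 28) (.e (nat_lit 573471) (nat_lit 11) .nil)))))) (.g (nat_lit 1) (.e (nat_lit 139235) (nat_lit 0) .nil) .nil))) 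
(.lf (nat_lit 489375) (.g (nat_lit 2130) (.e (nat_lit 16466) (nat_lit 13) (.e (nat_lit 483340) (nat_lit 9) (.e (nat_lit 426098) (nat_lit 1) (.e (nat_lit 164325) (nat_lit 230) (.e (nat_lit 163868) (nat_lit 2) (.e (nat_lit 196654) (nat_lit 11) .nil)))))) (.g (nat_lit 1) (.e (nat_lit 140672) (nat_lit 0) .nil) .nil)))))) (.nd (nat_lit 7) (.nd (nat_lit 8) (.nd (nat_lit 9) 
(.lf (nat_lit 488543) (.g (nat_lit 2494) (.e (nat_lit 16435) (nat_lit 9) (.e (nat_lit 426566) (nat_lit 34) (.e (nat_lit 393251) (nat_lit 18) (.e (nat_lit 164325) (nat_lit 230) (.e (nat_lit 163868) (nat_lit 2) (.e (nat_lit 196652) (nat_lit 11) .nil)))))) (.g (nat_lit 1) (.e (nat_lit 138487) (nat_lit 0) .nil) .nil))) 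
(.lf (nat_lit 489055) (.g (nat_lit 2435) (.e (nat_lit 16461) (nat_lit 12) (.e (nat_lit 475179) (nat_lit 24) (.e (nat_lit 516119) (nat_lit 1) (.e (nat_lit 164325) (nat_lit 230) (.e (nat_lit 163938) (nat_lit 18) .nil))))) (.g (nat_lit 0) (.e (nat_lit 140166) (nat_lit 0) .nil) .nil)))) (.nd (nat_lit 9) 
(.lf (nat_lit 488799) (.g (nat_lit 3208) (.e (nat_lit 16438) (nat_lit 9) (.e (nat_lit 426482) (nat_lit 27) (.e (nat_lit 336388) (nat_lit 27) (.e (nat_lit 426107) (nat_lit 1) (.e (nat_lit 164326) (nat_lit 230) (.e (nat_lit 163868) (nat_lit 2) (.e (nat_lit 196652) (nat_lit 11) .nil))))))) (.g (nat_lit 1) (.e (nat_lit 138924) (nat_lit 0) .nil) .nil))) 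
(.lf (nat_lit 489311) (.g (nat_lit 4123) (.e (nat_lit 16465) (nat_lit 13) (.e (nat_lit 483341) (nat_lit 9) (.e (nat_lit 426107) (nat_lit 1) (.e (nat_lit 164327) (nat_lit 230) (.e (nat_lit 163871) (nat_lit 2) (.e (nat_lit 196656) (nat_lit 11) .nil)))))) (.g (nat_lit 1) (.e (nat_lit 140592) (nat_lit 0) .nil) .nil))))) (.nd (nat_lit 8) (.nd (nat_lit 9) 
(.lf (nat_lit 488671) (.g (nat_lit 3669) (.e (nat_lit 16436) (nat_lit 9) (.e (nat_lit 426566) (nat_lit 34) (.e (nat_lit 393251) (nat_lit 18) (.e (nat_lit 164327) (nat_lit 230) (.e (nat_lit 163868) (nat_lit 2) (.e (nat_lit 196654) (nat_lit 11) .nil)))))) (.g (nat_lit 1) (.e (nat_lit 138729) (nat_lit 0) .nil) .nil))) 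
(.lf (nat_lit 489183) (.g (nat_lit 3592) (.e (nat_lit 16463) (nat_lit 13) (.e (nat_lit 483341) (nat_lit 9) (.e (nat_lit 426106) (nat_lit 1) (.e (nat_lit 164327) (nat_lit 230) (.e (nat_lit 163871) (nat_lit 2) (.e (nat_lit 196654) (nat_lit 11) .nil)))))) (.g (nat_lit 1) (.e (nat_lit 140376) (nat_lit 0) .nil) .nil)))) (.nd (nat_lit 9) 
(.lf (nat_lit 488927) (.g (nat_lit 3459) (.e (nat_lit 16455) (nat_lit 12) (.e (nat_lit 475179) (nat_lit 24) (.e (nat_lit 516120) (nat_lit 1) (.e (nat_lit 164330) (nat_lit 230) (.e (nat_lit 163938) (nat_lit 18) .nil))))) (.g (nat_lit 0) (.e (nat_lit 139974) (nat_lit 0) .nil) .nil))) 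
(.lf (nat_lit 489439) (.g (nat_lit 3113) (.e (nat_lit 16466) (nat_lit 13) (.e (nat_lit 483341) (nat_lit 9) (.e (nat_lit 426108) (nat_lit 1) (.e (nat_lit 164329) (nat_lit 230) (.e (nat_lit 163869) (nat_lit 2) (.e (nat_lit 196654) (nat_lit 11) .nil)))))) (.g (nat_lit 1) (.e (nat_lit 140736) (nat_lit 0) .nil) .nil))))))) (.nd (nat_lit 6) (.nd (nat_lit 7) (.nd (nat_lit 8) (.nd (nat_lit 9) 
(.lf (nat_lit 488511) (.g (nat_lit 1907) (.e (nat_lit 16434) (nat_lit 9) (.e (nat_lit 426566) (nat_lit 34) (.e (nat_lit 393253) (nat_lit 18) (.e (nat_lit 164330) (nat_lit 230) (.e (nat_lit 163867) (nat_lit 2) .nil))))) (.g (nat_lit 0) (.e (nat_lit 138448) (nat_lit 0) .nil) .nil))) 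
(.lf (nat_lit 489023) (.g (nat_lit 2512) (.e (nat_lit 16459) (nat_lit 12) (.e (nat_lit 475183) (nat_lit 29) (.e (nat_lit 557100) (nat_lit 13) (.e (nat_lit 172113) (nat_lit 10) (.e (nat_lit 434248) (nat_lit 28) .nil))))) (.g (nat_lit 0) (.e (nat_lit 140112) (nat_lit 0) .nil) .nil)))) (.nd (nat_lit 9) 
(.lf (nat_lit 488767) (.g (nat_lit 3026) (.e (nat_lit 16438) (nat_lit 9) (.e (nat_lit 426482) (nat_lit 27) (.e (nat_lit 336386) (nat_lit 27) (.e (nat_lit 426098) (nat_lit 1) (.e (nat_lit 164327) (nat_lit 230) (.e (nat_lit 163871) (nat_lit 2) (.e (nat_lit 196654) (nat_lit 11) .nil))))))) (.g (nat_lit 1) (.e (nat_lit 138888) (nat_lit 0) .nil) .nil))) 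
(.lf (nat_lit 489279) (.g (nat_lit 3757) (.e (nat_lit 16465) (nat_lit 13) (.e (nat_lit 483341) (nat_lit 9) (.e (nat_lit 426099) (nat_lit 1) (.e (nat_lit 164332) (nat_lit 230) (.e (nat_lit 163869) (nat_lit 2) (.e (nat_lit 196655) (nat_lit 11) .nil)))))) (.g (nat_lit 1) (.e (nat_lit 140547) (nat_lit 0) .nil) .nil))))) (.nd (nat_lit 8) (.nd (nat_lit 9) 
(.lf (nat_lit 488639) (.g (nat_lit 2740) (.e (nat_lit 16436) (nat_lit 9) (.e (nat_lit 426131) (nat_lit 3) (.e (nat_lit 204882) (nat_lit 32) (.e (nat_lit 385108) (nat_lit 51) (.e (nat_lit 794666) (nat_lit 22) (.e (nat_lit 196656) (nat_lit 11) .nil)))))) (.g (nat_lit 1) (.e (nat_lit 138664) (nat_lit 0) .nil) .nil))) 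
(.lf (nat_lit 489151) (.g (nat_lit 3800) (.e (nat_lit 16463) (nat_lit 13) (.e (nat_lit 483341) (nat_lit 9) (.e (nat_lit 426100) (nat_lit 1) (.e (nat_lit 164330) (nat_lit 230) (.e (nat_lit 163869) (nat_lit 2) (.e (nat_lit 196654) (nat_lit 11) .nil)))))) (.g (nat_lit 1) (.e (nat_lit 140343) (nat_lit 0) .nil) .nil)))) (.nd (nat_lit 9) 
(.lf (nat_lit 488895) (.g (nat_lit 2368) (.e (nat_lit 16448) (nat_lit 10) (.e (nat_lit 434231) (nat_lit 23) (.e (nat_lit 532563) (nat_lit 15) (.e (nat_lit 385107) (nat_lit 51) (.e (nat_lit 794666) (nat_lit 22) (.e (nat_lit 196656) (nat_lit 11) .nil)))))) (.g (nat_lit 1) (.e (nat_lit 139489) (nat_lit 0) .nil) .nil))) 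
(.lf (nat_lit 489407) (.g (nat_lit 2862) (.e (nat_lit 16466) (nat_lit 13) (.e (nat_lit 483341) (nat_lit 9) (.e (nat_lit 426106) (nat_lit 1) (.e (nat_lit 164325) (nat_lit 230) (.e (nat_lit 163868) (nat_lit 2) (.e (nat_lit 196654) (nat_lit 11) .nil)))))) (.g (nat_lit 1) (.e (nat_lit 140704) (nat_lit 0) .nil) .nil)))))) (.nd (nat_lit 7) (.nd (nat_lit 8) (.nd (nat_lit 9) 
(.lf (nat_lit 488575) (.g (nat_lit 3466) (.e (nat_lit 16435) (nat_lit 9) (.e (nat_lit 426566) (nat_lit 34) (.e (nat_lit 393253) (nat_lit 18) (.e (nat_lit 164325) (nat_lit 230) (.e (nat_lit 163868) (nat_lit 2) (.e (nat_lit 196654) (nat_lit 11) .nil)))))) (.g (nat_lit 1) (.e (nat_lit 138519) (nat_lit 0) .nil) .nil))) 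
(.lf (nat_lit 489087) (.g (nat_lit 2158) (.e (nat_lit 16462) (nat_lit 13) (.e (nat_lit 483413) (nat_lit 27) (.e (nat_lit 401446) (nat_lit 10) (.e (nat_lit 442112) (nat_lit 44) .nil)))) (.g (nat_lit 0) (.e (nat_lit 140268) (nat_lit 0) .nil) .nil)))) (.nd (nat_lit 9) 
(.lf (nat_lit 488831) (.g (nat_lit 3505) (.e (nat_lit 16439) (nat_lit 9) (.e (nat_lit 426499) (nat_lit 27) (.e (nat_lit 336231) (nat_lit 14) (.e (nat_lit 401444) (nat_lit 9) (.e (nat_lit 426163) (nat_lit 6) (.e (nat_lit 253991) (nat_lit 11) .nil)))))) (.g (nat_lit 1) (.e (nat_lit 138973) (nat_lit 0) .nil) .nil))) 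
(.lf (nat_lit 489343) (.g (nat_lit 2694) (.e (nat_lit 16466) (nat_lit 13) (.e (nat_lit 483336) (nat_lit 9) (.e (nat_lit 426108) (nat_lit 1) (.e (nat_lit 164332) (nat_lit 230) (.e (nat_lit 163869) (nat_lit 2) (.e (nat_lit 196654) (nat_lit 11) .nil)))))) (.g (nat_lit 1) (.e (nat_lit 140640) (nat_lit 0) .nil) .nil))))) (.nd (nat_lit 8) (.nd (nat_lit 9) 
(.lf (nat_lit 488703) (.g (nat_lit 1382) (.e (nat_lit 16437) (nat_lit 9) (.e (nat_lit 426566) (nat_lit 34) (.e (nat_lit 393252) (nat_lit 18) (.e (nat_lit 164330) (nat_lit 230) .nil)))) (.g (nat_lit 0) (.e (nat_lit 138811) (nat_lit 0) .nil) .nil))) 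
(.lf (nat_lit 489215) (.g (nat_lit 2478) (.e (nat_lit 16463) (nat_lit 13) (.e (nat_lit 483341) (nat_lit 9) (.e (nat_lit 426107) (nat_lit 1) (.e (nat_lit 164330) (nat_lit 230) .nil)))) (.g (nat_lit 0) (.e (nat_lit 140412) (nat_lit 0) .nil) .nil)))) (.nd (nat_lit 9) 
(.lf (nat_lit 488959) (.g (nat_lit 1829) (.e (nat_lit 16456) (nat_lit 12) (.e (nat_lit 475185) (nat_lit 29) (.e (nat_lit 557098) (nat_lit 13) (.e (nat_lit 172105) (nat_lit 10) .nil)))) (.g (nat_lit 0) (.e (nat_lit 140020) (nat_lit 0) .nil) .nil))) 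
(.lf (nat_lit 489471) (.g (nat_lit 1414) (.e (nat_lit 16468) (nat_lit 13) (.e (nat_lit 483341) (nat_lit 9) (.e (nat_lit 426106) (nat_lit 1) (.e (nat_lit 164332) (nat_lit 230) .nil)))) (.g (nat_lit 0) (.e (nat_lit 140931) (nat_lit 0) .nil) .nil)))))))))))))

noncomputable def tv5538 : DT := (.nd (nat_lit 0) (.nd (nat_lit 1) (.nd (nat_lit 2) (.nd (nat_lit 3) (.nd (nat_lit 4) (.nd (nat_lit 5) (.nd (nat_lit 6) (.nd (nat_lit 7) (.nd (nat_lit 8) (.nd (nat_lit 9) 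
(.lf (nat_lit 489472) (.g (nat_lit 2228) (.e (nat_lit 16468) (nat_lit 13) (.e (nat_lit 483341) (nat_lit 9) (.e (nat_lit 426107) (nat_lit 1) (.e (nat_lit 164322) (nat_lit 230) .nil)))) (.g (nat_lit 0) (.e (nat_lit 140933) (nat_lit 0) .nil) .nil))) 
(.lf (nat_lit 489984) (.g (nat_lit 2405) (.e (nat_lit 49189) (nat_lit 11) (.e (nat_lit 16424) (nat_lit 7) (.e (nat_lit 409645) (nat_lit 18) (.e (nat_lit 303143) (nat_lit 12) (.e (nat_lit 475220) (nat_lit 44) (.e (nat_lit 745216) (nat_lit 15) .nil)))))) (.g (nat_lit 1) (.e (nat_lit 142711) (nat_lit 0) .nil) .nil)))) (.nd (nat_lit 9) 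
(.lf (nat_lit 489728) (.g (nat_lit 2392) (.e (nat_lit 32808) (nat_lit 19) (.e (nat_lit 180278) (nat_lit 32) (.e (nat_lit 1235) (nat_lit 91) (.e (nat_lit 90174) (nat_lit 14) (.e (nat_lit 180288) (nat_lit 45) (.e (nat_lit 2570) (nat_lit 160) .nil)))))) (.g (nat_lit 1) (.e (nat_lit 141966) (nat_lit 0) .nil) .nil))) 
(.lf (nat_lit 490240) (.g (nat_lit 1780) (.e (nat_lit 163840) (nat_lit 0) (.e (nat_lit 3307) (nat_lit 202) (.e (nat_lit 573489) (nat_lit 14) (.e (nat_lit 73755) (nat_lit 8) .nil)))) (.g (nat_lit 0) (.e (nat_lit 143053) (nat_lit 0) .nil) .nil))))) (.nd (nat_lit 8) (.nd (nat_lit 9) 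
(.lf (nat_lit 489600) (.g (nat_lit 3242) (.e (nat_lit 32806) (nat_lit 18) (.e (nat_lit 172126) (nat_lit 14) (.e (nat_lit 491537) (nat_lit 2) (.e (nat_lit 90174) (nat_lit 14) (.e (nat_lit 180288) (nat_lit 45) (.e (nat_lit 2570) (nat_lit 160) .nil)))))) (.g (nat_lit 1) (.e (nat_lit 141422) (nat_lit 0) .nil) .nil))) 
(.lf (nat_lit 490112) (.g (nat_lit 2686) (.e (nat_lit 49189) (nat_lit 11) (.e (nat_lit 16425) (nat_lit 7) (.e (nat_lit 409648) (nat_lit 18) (.e (nat_lit 303142) (nat_lit 12) (.e (nat_lit 475199) (nat_lit 40) (.e (nat_lit 704790) (nat_lit 14) (.e (nat_lit 2590) (nat_lit 162) .nil))))))) (.g (nat_lit 1) (.e (nat_lit 142841) (nat_lit 0) .nil) .nil)))) (.nd (nat_lit 9) 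
(.lf (nat_lit 489856) (.g (nat_lit 2249) (.e (nat_lit 49187) (nat_lit 11) (.e (nat_lit 16425) (nat_lit 7) (.e (nat_lit 409649) (nat_lit 18) (.e (nat_lit 303140) (nat_lit 10) (.e (nat_lit 434271) (nat_lit 38) .nil))))) (.g (nat_lit 0) (.e (nat_lit 142487) (nat_lit 0) .nil) .nil))) 
(.lf (nat_lit 490368) (.g (nat_lit 5346) (.e (nat_lit 163850) (nat_lit 0) (.e (nat_lit 3304) (nat_lit 202) (.e (nat_lit 573493) (nat_lit 15) (.e (nat_lit 81951) (nat_lit 22) (.e (nat_lit 90170) (nat_lit 13) (.e (nat_lit 172068) (nat_lit 4) (.e (nat_lit 229678) (nat_lit 244) .nil))))))) (.g (nat_lit 1) (.e (nat_lit 143338) (nat_lit 0) .nil) .nil)))))) 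
(.nd (nat_lit 7) (.nd (nat_lit 8) (.nd (nat_lit 9) 
(.lf (nat_lit 489536) (.g (nat_lit 2592) (.e (nat_lit 16471) (nat_lit 14) (.e (nat_lit 491537) (nat_lit 2) (.e (nat_lit 90170) (nat_lit 13) (.e (nat_lit 172113) (nat_lit 10) (.e (nat_lit 434245) (nat_lit 28) (.e (nat_lit 573469) (nat_lit 11) .nil)))))) (.g (nat_lit 1) (.e (nat_lit 141083) (nat_lit 0) .nil) .nil))) 
(.lf (nat_lit 490048) (.g (nat_lit 3461) (.e (nat_lit 49189) (nat_lit 11) (.e (nat_lit 16425) (nat_lit 7) (.e (nat_lit 409646) (nat_lit 18) (.e (nat_lit 303143) (nat_lit 12) (.e (nat_lit 475199) (nat_lit 40) (.e (nat_lit 704772) (nat_lit 14) (.e (nat_lit 7936) (nat_lit 162) .nil))))))) (.g (nat_lit 1) (.e (nat_lit 142777) (nat_lit 0) .nil) .nil)))) (.nd (nat_lit 9) 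
(.lf (nat_lit 489792) (.g (nat_lit 1543) (.e (nat_lit 49185) (nat_lit 11) (.e (nat_lit 16425) (nat_lit 7) (.e (nat_lit 409648) (nat_lit 18) (.e (nat_lit 303142) (nat_lit 12) .nil)))) (.g (nat_lit 0) (.e (nat_lit 142405) (nat_lit 0) .nil) .nil))) 
(.lf (nat_lit 490304) (.g (nat_lit 5145) (.e (nat_lit 163847) (nat_lit 0) (.e (nat_lit 6254) (nat_lit 337) (.e (nat_lit 2725) (nat_lit 172) (.e (nat_lit 237593) (nat_lit 3) (.e (nat_lit 204869) (nat_lit 29) (.e (nat_lit 360475) (nat_lit 8) (.e (nat_lit 557091) (nat_lit 12) .nil))))))) (.g (nat_lit 1) (.e (nat_lit 143212) (nat_lit 0) .nil) .nil))))) (.nd (nat_lit 8) (.nd (nat_lit 9) 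
(.lf (nat_lit 489664) (.g (nat_lit 2447) (.e (nat_lit 32807) (nat_lit 18) (.e (nat_lit 172124) (nat_lit 14) (.e (nat_lit 491535) (nat_lit 2) (.e (nat_lit 90174) (nat_lit 14) (.e (nat_lit 180288) (nat_lit 45) .nil))))) (.g (nat_lit 0) (.e (nat_lit 141819) (nat_lit 0) .nil) .nil))) 
(.lf (nat_lit 490176) (.g (nat_lit 2121) (.e (nat_lit 49189) (nat_lit 11) (.e (nat_lit 16463) (nat_lit 13) (.e (nat_lit 483411) (nat_lit 27) (.e (nat_lit 401432) (nat_lit 7) .nil)))) (.g (nat_lit 0) (.e (nat_lit 142930) (nat_lit 0) .nil) .nil)))) (.nd (nat_lit 9) 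
(.lf (nat_lit 489920) (.g (nat_lit 2699) (.e (nat_lit 49188) (nat_lit 11) (.e (nat_lit 16466) (nat_lit 13) (.e (nat_lit 483346) (nat_lit 17) (.e (nat_lit 6221) (nat_lit 333) .nil)))) (.g (nat_lit 0) (.e (nat_lit 142609) (nat_lit 0) .nil) .nil))) 
(.lf (nat_lit 490432) (.g (nat_lit 2588) (.e (nat_lit 163859) (nat_lit 1) (.e (nat_lit 164325) (nat_lit 230) (.e (nat_lit 163903) (nat_lit 12) (.e (nat_lit 426422) (nat_lit 16) (.e (nat_lit 57688) (nat_lit 156) (.e (nat_lit 163933) (nat_lit 17) (.e (nat_lit 466972) (nat_lit 21) (.e (nat_lit 164332) (nat_lit 230) .nil)))))))) (.g (nat_lit 1) (.e (nat_lit 143624) (nat_lit 0) .nil) .nil))))))) 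
(.nd (nat_lit 6) (.nd (nat_lit 7) (.nd (nat_lit 8) (.nd (nat_lit 9) 
(.lf (nat_lit 489504) (.g (nat_lit 1380) (.e (nat_lit 16468) (nat_lit 13) (.e (nat_lit 483372) (nat_lit 21) (.e (nat_lit 319505) (nat_lit 10) (.e (nat_lit 7936) (nat_lit 315) .nil)))) (.g (nat_lit 0) (.e (nat_lit 141015) (nat_lit 0) .nil) .nil))) 
(.lf (nat_lit 490016) (.g (nat_lit 422) (.e (nat_lit 49189) (nat_lit 11) (.e (nat_lit 16425) (nat_lit 7) (.e (nat_lit 409645) (nat_lit 18) .nil))) (.g (nat_lit 0) (.e (nat_lit 142745) (nat_lit 0) .nil) .nil)))) (.nd (nat_lit 9) 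
(.lf (nat_lit 489760) (.g (nat_lit 879) (.e (nat_lit 49156) (nat_lit 0) (.e (nat_lit 3026) (nat_lit 187) (.e (nat_lit 458496) (nat_lit 9) (.e (nat_lit 565268) (nat_lit 5) (.e (nat_lit 73789) (nat_lit 45) (.e (nat_lit 1163) (nat_lit 86) .nil)))))) (.g (nat_lit 1) (.e (nat_lit 142240) (nat_lit 0) .nil) .nil))) 
(.lf (nat_lit 490272) (.g (nat_lit 1983) (.e (nat_lit 163844) (nat_lit 0) (.e (nat_lit 3471) (nat_lit 217) (.e (nat_lit 696344) (nat_lit 8) (.e (nat_lit 172079) (nat_lit 7) (.e (nat_lit 409645) (nat_lit 18) (.e (nat_lit 303133) (nat_lit 9) (.e (nat_lit 426032) (nat_lit 0) (.e (nat_lit 2450) (nat_lit 157) (.e (nat_lit 5966) (nat_lit 324) .nil))))))))) (.g (nat_lit 1) (.e (nat_lit 143156) (nat_lit 0) .nil) .nil))))) 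
(.nd (nat_lit 8) (.nd (nat_lit 9) 
(.lf (nat_lit 489632) (.g (nat_lit 3366) (.e (nat_lit 32807) (nat_lit 18) (.e (nat_lit 172119) (nat_lit 12) (.e (nat_lit 475185) (nat_lit 29) (.e (nat_lit 557103) (nat_lit 14) (.e (nat_lit 180285) (nat_lit 45) (.e (nat_lit 2571) (nat_lit 160) .nil)))))) (.g (nat_lit 1) (.e (nat_lit 141776) (nat_lit 0) .nil) .nil))) 
(.lf (nat_lit 490144) (.g (nat_lit 1860) (.e (nat_lit 49189) (nat_lit 11) (.e (nat_lit 16425) (nat_lit 7) (.e (nat_lit 409649) (nat_lit 18) (.e (nat_lit 303140) (nat_lit 10) (.e (nat_lit 434272) (nat_lit 38) (.e (nat_lit 655404) (nat_lit 14) (.e (nat_lit 2590) (nat_lit 162) .nil))))))) (.g (nat_lit 1) (.e (nat_lit 142873) (nat_lit 0) .nil) .nil)))) (.nd (nat_lit 9) 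
(.lf (nat_lit 489888) (.g (nat_lit 5293) (.e (nat_lit 49188) (nat_lit 11) (.e (nat_lit 16416) (nat_lit 3) (.e (nat_lit 204869) (nat_lit 29) (.e (nat_lit 360474) (nat_lit 8) (.e (nat_lit 557115) (nat_lit 18) .nil))))) (.g (nat_lit 0) (.e (nat_lit 142567) (nat_lit 0) .nil) .nil))) 
(.lf (nat_lit 490400) (.g (nat_lit 3281) (.e (nat_lit 163852) (nat_lit 0) (.e (nat_lit 6428) (nat_lit 342) (.e (nat_lit 229409) (nat_lit 13) (.e (nat_lit 434231) (nat_lit 23) (.e (nat_lit 532549) (nat_lit 12) (.e (nat_lit 360473) (nat_lit 8) (.e (nat_lit 557091) (nat_lit 12) .nil))))))) (.g (nat_lit 1) (.e (nat_lit 143546) (nat_lit 0) .nil) .nil)))))) 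
(.nd (nat_lit 7) (.nd (nat_lit 8) (.nd (nat_lit 9) 
(.lf (nat_lit 489568) (.g (nat_lit 4188) (.e (nat_lit 16473) (nat_lit 14) (.e (nat_lit 491560) (nat_lit 10) (.e (nat_lit 344160) (nat_lit 37) (.e (nat_lit 647203) (nat_lit 14) (.e (nat_lit 1161) (nat_lit 86) (.e (nat_lit 49198) (nat_lit 14) (.e (nat_lit 2587) (nat_lit 162) (.e (nat_lit 49188) (nat_lit 11) .nil)))))))) (.g (nat_lit 1) (.e (nat_lit 141152) (nat_lit 0) .nil) .nil))) 
(.lf (nat_lit 490080) (.g (nat_lit 1581) (.e (nat_lit 49189) (nat_lit 11) (.e (nat_lit 16425) (nat_lit 7) (.e (nat_lit 409648) (nat_lit 18) (.e (nat_lit 303136) (nat_lit 10) (.e (nat_lit 434272) (nat_lit 38) .nil))))) (.g (nat_lit 0) (.e (nat_lit 142809) (nat_lit 0) .nil) .nil)))) (.nd (nat_lit 9) 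
(.lf (nat_lit 489824) (.g (nat_lit 1659) (.e (nat_lit 49187) (nat_lit 11) (.e (nat_lit 16425) (nat_lit 7) (.e (nat_lit 409643) (nat_lit 18) (.e (nat_lit 303143) (nat_lit 12) (.e (nat_lit 475199) (nat_lit 40) .nil))))) (.g (nat_lit 0) (.e (nat_lit 142455) (nat_lit 0) .nil) .nil))) 
(.lf (nat_lit 490336) (.g (nat_lit 4459) (.e (nat_lit 163849) (nat_lit 0) (.e (nat_lit 6254) (nat_lit 337) (.e (nat_lit 2630) (nat_lit 164) (.e (nat_lit 172065) (nat_lit 3) (.e (nat_lit 204869) (nat_lit 29) (.e (nat_lit 360475) (nat_lit 8) (.e (nat_lit 557089) (nat_lit 12) .nil))))))) (.g (nat_lit 1) (.e (nat_lit 143260) (nat_lit 0) .nil) .nil))))) (.nd (nat_lit 8) (.nd (nat_lit 9) 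
(.lf (nat_lit 489696) (.g (nat_lit 2217) (.e (nat_lit 32807) (nat_lit 18) (.e (nat_lit 172126) (nat_lit 14) (.e (nat_lit 491537) (nat_lit 2) (.e (nat_lit 90185) (nat_lit 17) (.e (nat_lit 237598) (nat_lit 7) .nil))))) (.g (nat_lit 0) (.e (nat_lit 141879) (nat_lit 0) .nil) .nil))) 
(.lf (nat_lit 490208) (.g (nat_lit 2545) (.e (nat_lit 40993) (nat_lit 11) (.e (nat_lit 24657) (nat_lit 13) (.e (nat_lit 393260) (nat_lit 21) (.e (nat_lit 409617) (nat_lit 10) (.e (nat_lit 4934) (nat_lit 287) (.e (nat_lit 2580) (nat_lit 161) .nil)))))) (.g (nat_lit 1) (.e (nat_lit 142993) (nat_lit 0) .nil) .nil)))) (.nd (nat_lit 9) 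
(.lf (nat_lit 489952) (.g (nat_lit 837) (.e (nat_lit 49188) (nat_lit 11) (.e (nat_lit 16466) (nat_lit 13) (.e (nat_lit 483376) (nat_lit 22) .nil))) (.g (nat_lit 0) (.e (nat_lit 142642) (nat_lit 0) .nil) .nil))) 
(.lf (nat_lit 490464) (.g (nat_lit 2887) (.e (nat_lit 163861) (nat_lit 1) (.e (nat_lit 164332) (nat_lit 230) (.e (nat_lit 163902) (nat_lit 12) (.e (nat_lit 426472) (nat_lit 25) (.e (nat_lit 319533) (nat_lit 16) (.e (nat_lit 286753) (nat_lit 10) (.e (nat_lit 344097) (nat_lit 18) (.e (nat_lit 7280) (nat_lit 386) .nil)))))))) (.g (nat_lit 1) (.e (nat_lit 143821) (nat_lit 0) .nil) .nil)))))))) 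
(.nd (nat_lit 5) (.nd (nat_lit 6) (.nd (nat_lit 7) (.nd (nat_lit 8) (.nd (nat_lit 9) 
(.lf (nat_lit 489488) (.g (nat_lit 654) (.e (nat_lit 16468) (nat_lit 13) (.e (nat_lit 483372) (nat_lit 21) (.e (nat_lit 319496) (nat_lit 10) .nil))) (.g (nat_lit 0) (.e (nat_lit 140992) (nat_lit 0) .nil) .nil))) 
(.lf (nat_lit 490000) (.g (nat_lit 3438) (.e (nat_lit 49189) (nat_lit 11) (.e (nat_lit 16425) (nat_lit 7) (.e (nat_lit 409643) (nat_lit 18) (.e (nat_lit 303143) (nat_lit 12) (.e (nat_lit 475199) (nat_lit 40) (.e (nat_lit 704772) (nat_lit 14) (.e (nat_lit 7936) (nat_lit 162) .nil))))))) (.g (nat_lit 1) (.e (nat_lit 142729) (nat_lit 0) .nil) .nil)))) (.nd (nat_lit 9) 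
(.lf (nat_lit 489744) (.g (nat_lit 459) (.e (nat_lit 49156) (nat_lit 0) (.e (nat_lit 2887) (nat_lit 184) (.e (nat_lit 426285) (nat_lit 10) .nil))) (.g (nat_lit 0) (.e (nat_lit 142198) (nat_lit 0) .nil) .nil))) 
(.lf (nat_lit 490256) (.g (nat_lit 5091) (.e (nat_lit 163843) (nat_lit 0) (.e (nat_lit 6254) (nat_lit 337) (.e (nat_lit 2630) (nat_lit 164) (.e (nat_lit 172065) (nat_lit 3) (.e (nat_lit 204869) (nat_lit 29) (.e (nat_lit 360475) (nat_lit 8) (.e (nat_lit 557091) (nat_lit 12) .nil))))))) (.g (nat_lit 1) (.e (nat_lit 143122) (nat_lit 0) .nil) .nil))))) (.nd (nat_lit 8) (.nd (nat_lit 9) 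
(.lf (nat_lit 489616) (.g (nat_lit 1971) (.e (nat_lit 32807) (nat_lit 18) (.e (nat_lit 172118) (nat_lit 12) (.e (nat_lit 475185) (nat_lit 29) (.e (nat_lit 557101) (nat_lit 13) (.e (nat_lit 172080) (nat_lit 7) (.e (nat_lit 409631) (nat_lit 12) .nil)))))) (.g (nat_lit 1) (.e (nat_lit 141757) (nat_lit 0) .nil) .nil))) 
(.lf (nat_lit 490128) (.g (nat_lit 1967) (.e (nat_lit 49189) (nat_lit 11) (.e (nat_lit 16425) (nat_lit 7) (.e (nat_lit 409649) (nat_lit 18) (.e (nat_lit 303140) (nat_lit 10) (.e (nat_lit 434214) (nat_lit 18) (.e (nat_lit 5443) (nat_lit 306) (.e (nat_lit 20) (nat_lit 0) (.e (nat_lit 2592) (nat_lit 162) .nil)))))))) (.g (nat_lit 1) (.e (nat_lit 142857) (nat_lit 0) .nil) .nil)))) (.nd (nat_lit 9) 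
(.lf (nat_lit 489872) (.g (nat_lit 3111) (.e (nat_lit 49187) (nat_lit 11) (.e (nat_lit 16473) (nat_lit 14) (.e (nat_lit 491560) (nat_lit 10) (.e (nat_lit 344168) (nat_lit 40) (.e (nat_lit 671782) (nat_lit 12) .nil))))) (.g (nat_lit 0) (.e (nat_lit 142536) (nat_lit 0) .nil) .nil))) 
(.lf (nat_lit 490384) (.g (nat_lit 2151) (.e (nat_lit 163851) (nat_lit 0) (.e (nat_lit 3307) (nat_lit 202) (.e (nat_lit 573485) (nat_lit 13) (.e (nat_lit 65604) (nat_lit 9) (.e (nat_lit 336013) (nat_lit 2) .nil))))) (.g (nat_lit 0) (.e (nat_lit 143506) (nat_lit 0) .nil) .nil)))))) (.nd (nat_lit 7) (.nd (nat_lit 8) (.nd (nat_lit 9) 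
(.lf (nat_lit 489552) (.g (nat_lit 4211) (.e (nat_lit 16472) (nat_lit 14) (.e (nat_lit 491537) (nat_lit 2) (.e (nat_lit 90170) (nat_lit 13) (.e (nat_lit 172113) (nat_lit 10) (.e (nat_lit 434245) (nat_lit 28) (.e (nat_lit 573470) (nat_lit 11) .nil)))))) (.g (nat_lit 1) (.e (nat_lit 141104) (nat_lit 0) .nil) .nil))) 
(.lf (nat_lit 490064) (.g (nat_lit 2197) (.e (nat_lit 49189) (nat_lit 11) (.e (nat_lit 16425) (nat_lit 7) (.e (nat_lit 409647) (nat_lit 18) (.e (nat_lit 303143) (nat_lit 12) (.e (nat_lit 475197) (nat_lit 40) (.e (nat_lit 704790) (nat_lit 14) (.e (nat_lit 2591) (nat_lit 162) .nil))))))) (.g (nat_lit 1) (.e (nat_lit 142793) (nat_lit 0) .nil) .nil)))) (.nd (nat_lit 9) 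
(.lf (nat_lit 489808) (.g (nat_lit 2369) (.e (nat_lit 49185) (nat_lit 11) (.e (nat_lit 16465) (nat_lit 13) (.e (nat_lit 483372) (nat_lit 21) (.e (nat_lit 319505) (nat_lit 10) (.e (nat_lit 4916) (nat_lit 287) .nil))))) (.g (nat_lit 0) (.e (nat_lit 142424) (nat_lit 0) .nil) .nil))) 
(.lf (nat_lit 490320) (.g (nat_lit 1484) (.e (nat_lit 163847) (nat_lit 0) (.e (nat_lit 6421) (nat_lit 341) (.e (nat_lit 163913) (nat_lit 12) (.e (nat_lit 426129) (nat_lit 3) .nil)))) (.g (nat_lit 0) (.e (nat_lit 143234) (nat_lit 0) .nil) .nil))))) (.nd (nat_lit 8) (.nd (nat_lit 9) 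
(.lf (nat_lit 489680) (.g (nat_lit 2580) (.e (nat_lit 32807) (nat_lit 18) (.e (nat_lit 172126) (nat_lit 14) (.e (nat_lit 491535) (nat_lit 2) (.e (nat_lit 90174) (nat_lit 14) (.e (nat_lit 180288) (nat_lit 45) .nil))))) (.g (nat_lit 0) (.e (nat_lit 141859) (nat_lit 0) .nil) .nil))) 
(.lf (nat_lit 490192) (.g (nat_lit 504) (.e (nat_lit 40964) (nat_lit 0) (.e (nat_lit 1582) (nat_lit 111) (.e (nat_lit 368384) (nat_lit 11) (.e (nat_lit 581652) (nat_lit 5) (.e (nat_lit 180284) (nat_lit 45) (.e (nat_lit 2580) (nat_lit 161) .nil)))))) (.g (nat_lit 1) (.e (nat_lit 142958) (nat_lit 0) .nil) .nil)))) (.nd (nat_lit 9) 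
(.lf (nat_lit 489936) (.g (nat_lit 3156) (.e (nat_lit 49188) (nat_lit 11) (.e (nat_lit 16466) (nat_lit 13) (.e (nat_lit 483372) (nat_lit 21) (.e (nat_lit 319504) (nat_lit 10) (.e (nat_lit 4921) (nat_lit 287) .nil))))) (.g (nat_lit 0) (.e (nat_lit 142626) (nat_lit 0) .nil) .nil))) 
(.lf (nat_lit 490448) (.g (nat_lit 2198) (.e (nat_lit 163860) (nat_lit 1) (.e (nat_lit 164332) (nat_lit 230) (.e (nat_lit 163902) (nat_lit 12) (.e (nat_lit 426438) (nat_lit 18) (.e (nat_lit 98372) (nat_lit 29) (.e (nat_lit 450564) (nat_lit 0) (.e (nat_lit 7936) (nat_lit 369) .nil))))))) (.g (nat_lit 1) (.e (nat_lit 143723) (nat_lit 0) .nil) .nil))))))) 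
(.nd (nat_lit 6) (.nd (nat_lit 7) (.nd (nat_lit 8) (.nd (nat_lit 9) 
(.lf (nat_lit 489520) (.g (nat_lit 5211) (.e (nat_lit 16470) (nat_lit 14) (.e (nat_lit 491537) (nat_lit 2) (.e (nat_lit 90170) (nat_lit 13) (.e (nat_lit 172113) (nat_lit 10) (.e (nat_lit 434245) (nat_lit 28) (.e (nat_lit 573469) (nat_lit 11) .nil)))))) (.g (nat_lit 1) (.e (nat_lit 141060) (nat_lit 0) .nil) .nil))) 
(.lf (nat_lit 490032) (.g (nat_lit 3007) (.e (nat_lit 49189) (nat_lit 11) (.e (nat_lit 16425) (nat_lit 7) (.e (nat_lit 409645) (nat_lit 18) (.e (nat_lit 303143) (nat_lit 12) (.e (nat_lit 475199) (nat_lit 40) (.e (nat_lit 704790) (nat_lit 14) (.e (nat_lit 2592) (nat_lit 162) .nil))))))) (.g (nat_lit 1) (.e (nat_lit 142761) (nat_lit 0) .nil) .nil)))) (.nd (nat_lit 9) 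
(.lf (nat_lit 489776) (.g (nat_lit 402) (.e (nat_lit 57088) (nat_lit 6) (.e (nat_lit 188441) (nat_lit 20) (.e (nat_lit 3289) (nat_lit 201) .nil))) (.g (nat_lit 0) (.e (nat_lit 142311) (nat_lit 0) .nil) .nil))) 
(.lf (nat_lit 490288) (.g (nat_lit 6091) (.e (nat_lit 163844) (nat_lit 0) (.e (nat_lit 5943) (nat_lit 322) (.e (nat_lit 57375) (nat_lit 2) (.e (nat_lit 90174) (nat_lit 14) (.e (nat_lit 180251) (nat_lit 10) (.e (nat_lit 573489) (nat_lit 14) (.e (nat_lit 73755) (nat_lit 8) (.e (nat_lit 557090) (nat_lit 12) .nil)))))))) (.g (nat_lit 1) (.e (nat_lit 143172) (nat_lit 0) .nil) .nil))))) 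
(.nd (nat_lit 8) (.nd (nat_lit 9) 
(.lf (nat_lit 489648) (.g (nat_lit 4037) (.e (nat_lit 32807) (nat_lit 18) (.e (nat_lit 172120) (nat_lit 12) (.e (nat_lit 475185) (nat_lit 29) (.e (nat_lit 557098) (nat_lit 13) (.e (nat_lit 172080) (nat_lit 7) (.e (nat_lit 409631) (nat_lit 12) .nil)))))) (.g (nat_lit 1) (.e (nat_lit 141792) (nat_lit 0) .nil) .nil))) 
(.lf (nat_lit 490160) (.g (nat_lit 2996) (.e (nat_lit 49189) (nat_lit 11) (.e (nat_lit 16425) (nat_lit 7) (.e (nat_lit 409649) (nat_lit 18) (.e (nat_lit 303143) (nat_lit 12) (.e (nat_lit 475199) (nat_lit 40) (.e (nat_lit 704787) (nat_lit 14) (.e (nat_lit 2591) (nat_lit 162) .nil))))))) (.g (nat_lit 1) (.e (nat_lit 142889) (nat_lit 0) .nil) .nil)))) (.nd (nat_lit 9) 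
(.lf (nat_lit 489904) (.g (nat_lit 1593) (.e (nat_lit 49188) (nat_lit 11) (.e (nat_lit 16433) (nat_lit 9) (.e (nat_lit 426550) (nat_lit 31) (.e (nat_lit 368656) (nat_lit 14) .nil)))) (.g (nat_lit 0) (.e (nat_lit 142584) (nat_lit 0) .nil) .nil))) 
(.lf (nat_lit 490416) (.g (nat_lit 3065) (.e (nat_lit 163854) (nat_lit 0) (.e (nat_lit 3307) (nat_lit 202) (.e (nat_lit 573489) (nat_lit 14) (.e (nat_lit 73755) (nat_lit 8) (.e (nat_lit 557096) (nat_lit 13) .nil))))) (.g (nat_lit 0) (.e (nat_lit 143582) (nat_lit 0) .nil) .nil)))))) (.nd (nat_lit 7) (.nd (nat_lit 8) (.nd (nat_lit 9) 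
(.lf (nat_lit 489584) (.g (nat_lit 1977) (.e (nat_lit 32806) (nat_lit 18) (.e (nat_lit 172120) (nat_lit 12) (.e (nat_lit 475185) (nat_lit 29) (.e (nat_lit 557103) (nat_lit 14) .nil)))) (.g (nat_lit 0) (.e (nat_lit 141401) (nat_lit 0) .nil) .nil))) 
(.lf (nat_lit 490096) (.g (nat_lit 1842) (.e (nat_lit 49189) (nat_lit 11) (.e (nat_lit 16425) (nat_lit 7) (.e (nat_lit 409648) (nat_lit 18) (.e (nat_lit 303137) (nat_lit 10) (.e (nat_lit 434271) (nat_lit 38) (.e (nat_lit 663296) (nat_lit 14) (.e (nat_lit 2587) (nat_lit 162) .nil))))))) (.g (nat_lit 1) (.e (nat_lit 142825) (nat_lit 0) .nil) .nil)))) (.nd (nat_lit 9) 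
(.lf (nat_lit 489840) (.g (nat_lit 2800) (.e (nat_lit 49187) (nat_lit 11) (.e (nat_lit 16425) (nat_lit 7) (.e (nat_lit 409646) (nat_lit 18) (.e (nat_lit 303143) (nat_lit 12) (.e (nat_lit 475220) (nat_lit 44) (.e (nat_lit 737318) (nat_lit 15) .nil)))))) (.g (nat_lit 1) (.e (nat_lit 142471) (nat_lit 0) .nil) .nil))) 
(.lf (nat_lit 490352) (.g (nat_lit 1863) (.e (nat_lit 163849) (nat_lit 0) (.e (nat_lit 6421) (nat_lit 341) (.e (nat_lit 163913) (nat_lit 12) (.e (nat_lit 426129) (nat_lit 3) (.e (nat_lit 204868) (nat_lit 29) .nil))))) (.g (nat_lit 0) (.e (nat_lit 143292) (nat_lit 0) .nil) .nil))))) (.nd (nat_lit 8) (.nd (nat_lit 9) 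
(.lf (nat_lit 489712) (.g (nat_lit 2340) (.e (nat_lit 32808) (nat_lit 19) (.e (nat_lit 180277) (nat_lit 32) (.e (nat_lit 1235) (nat_lit 91) (.e (nat_lit 90172) (nat_lit 14) (.e (nat_lit 180285) (nat_lit 45) (.e (nat_lit 2571) (nat_lit 160) .nil)))))) (.g (nat_lit 1) (.e (nat_lit 141950) (nat_lit 0) .nil) .nil))) 
(.lf (nat_lit 490224) (.g (nat_lit 1835) (.e (nat_lit 40996) (nat_lit 11) (.e (nat_lit 24658) (nat_lit 13) (.e (nat_lit 393260) (nat_lit 21) (.e (nat_lit 409616) (nat_lit 10) .nil)))) (.g (nat_lit 0) (.e (nat_lit 143017) (nat_lit 0) .nil) .nil)))) (.nd (nat_lit 9) 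
(.lf (nat_lit 489968) (.g (nat_lit 2749) (.e (nat_lit 49188) (nat_lit 11) (.e (nat_lit 16473) (nat_lit 14) (.e (nat_lit 491560) (nat_lit 10) (.e (nat_lit 344161) (nat_lit 37) .nil)))) (.g (nat_lit 0) (.e (nat_lit 142676) (nat_lit 0) .nil) .nil))) 
(.lf (nat_lit 490480) (.g (nat_lit 3373) (.e (nat_lit 163862) (nat_lit 1) (.e (nat_lit 164332) (nat_lit 230) (.e (nat_lit 163905) (nat_lit 12) (.e (nat_lit 426422) (nat_lit 16) (.e (nat_lit 57687) (nat_lit 156) (.e (nat_lit 163933) (nat_lit 17) (.e (nat_lit 466972) (nat_lit 21) (.e (nat_lit 164332) (nat_lit 230) .nil)))))))) (.g (nat_lit 1) (.e (nat_lit 143896) (nat_lit 0) .nil) .nil))))))))) 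
(.nd (nat_lit 4) (.nd (nat_lit 5) (.nd (nat_lit 6) (.nd (nat_lit 7) (.nd (nat_lit 8) 
(.nd (nat_lit 9) 
(.lf (nat_lit 489480) (.g (nat_lit 1604) (.e (nat_lit 16468) (nat_lit 13) (.e (nat_lit 483350) (nat_lit 17) (.e (nat_lit 6218) (nat_lit 333) (.e (nat_lit 57807) (nat_lit 246) .nil)))) (.g (nat_lit 0) (.e (nat_lit 140982) (nat_lit 0) .nil) .nil))) 
(.lf (nat_lit 489992) (.g (nat_lit 2339) (.e (nat_lit 49189) (nat_lit 11) (.e (nat_lit 16425) (nat_lit 7) (.e (nat_lit 409643) (nat_lit 18) (.e (nat_lit 303143) (nat_lit 12) (.e (nat_lit 475197) (nat_lit 40) (.e (nat_lit 704770) (nat_lit 14) (.e (nat_lit 2595) (nat_lit 162) .nil))))))) (.g (nat_lit 1) (.e (nat_lit 142721) (nat_lit 0) .nil) .nil)))) (.nd (nat_lit 9) 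
(.lf (nat_lit 489736) (.g (nat_lit 2565) (.e (nat_lit 32809) (nat_lit 20) (.e (nat_lit 188420) (nat_lit 0) (.e (nat_lit 1856) (nat_lit 124) (.e (nat_lit 557103) (nat_lit 14) (.e (nat_lit 180285) (nat_lit 45) (.e (nat_lit 2570) (nat_lit 160) .nil)))))) (.g (nat_lit 1) (.e (nat_lit 142005) (nat_lit 0) .nil) .nil))) 
(.lf (nat_lit 490248) (.g (nat_lit 2171) (.e (nat_lit 163841) (nat_lit 0) (.e (nat_lit 5934) (nat_lit 322) (.e (nat_lit 57372) (nat_lit 2) (.e (nat_lit 90173) (nat_lit 14) (.e (nat_lit 180252) (nat_lit 10) .nil))))) (.g (nat_lit 0) (.e (nat_lit 143080) (nat_lit 0) .nil) .nil))))) (.nd (nat_lit 8) (.nd (nat_lit 9) 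
(.lf (nat_lit 489608) (.g (nat_lit 2209) (.e (nat_lit 32806) (nat_lit 18) (.e (nat_lit 172126) (nat_lit 14) (.e (nat_lit 491540) (nat_lit 3) (.e (nat_lit 98367) (nat_lit 27) (.e (nat_lit 434193) (nat_lit 13) (.e (nat_lit 2570) (nat_lit 160) .nil)))))) (.g (nat_lit 1) (.e (nat_lit 141433) (nat_lit 0) .nil) .nil))) 
(.lf (nat_lit 490120) (.g (nat_lit 3513) (.e (nat_lit 49189) (nat_lit 11) (.e (nat_lit 16425) (nat_lit 7) (.e (nat_lit 409648) (nat_lit 18) (.e (nat_lit 303143) (nat_lit 12) (.e (nat_lit 475198) (nat_lit 40) (.e (nat_lit 704790) (nat_lit 14) (.e (nat_lit 2591) (nat_lit 162) .nil))))))) (.g (nat_lit 1) (.e (nat_lit 142849) (nat_lit 0) .nil) .nil)))) (.nd (nat_lit 9) 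
(.lf (nat_lit 489864) (.g (nat_lit 1061) (.e (nat_lit 49187) (nat_lit 11) (.e (nat_lit 16438) (nat_lit 9) (.e (nat_lit 426550) (nat_lit 31) (.e (nat_lit 368656) (nat_lit 14) .nil)))) (.g (nat_lit 0) (.e (nat_lit 142496) (nat_lit 0) .nil) .nil))) 
(.lf (nat_lit 490376) (.g (nat_lit 3377) (.e (nat_lit 163850) (nat_lit 0) (.e (nat_lit 5939) (nat_lit 322) (.e (nat_lit 57375) (nat_lit 2) (.e (nat_lit 90174) (nat_lit 14) (.e (nat_lit 180243) (nat_lit 5) (.e (nat_lit 532515) (nat_lit 3) (.e (nat_lit 114716) (nat_lit 22) (.e (nat_lit 90163) (nat_lit 12) .nil)))))))) (.g (nat_lit 1) (.e (nat_lit 143414) (nat_lit 0) .nil) .nil)))))) 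
(.nd (nat_lit 7) (.nd (nat_lit 8) (.nd (nat_lit 9) 
(.lf (nat_lit 489544) (.g (nat_lit 3705) (.e (nat_lit 16472) (nat_lit 14) (.e (nat_lit 491535) (nat_lit 2) (.e (nat_lit 90170) (nat_lit 13) (.e (nat_lit 172113) (nat_lit 10) (.e (nat_lit 434247) (nat_lit 28) (.e (nat_lit 573469) (nat_lit 11) .nil)))))) (.g (nat_lit 1) (.e (nat_lit 141094) (nat_lit 0) .nil) .nil))) 
(.lf (nat_lit 490056) (.g (nat_lit 2801) (.e (nat_lit 49189) (nat_lit 11) (.e (nat_lit 16425) (nat_lit 7) (.e (nat_lit 409646) (nat_lit 18) (.e (nat_lit 303143) (nat_lit 12) (.e (nat_lit 475199) (nat_lit 40) (.e (nat_lit 704814) (nat_lit 14) (.e (nat_lit 2587) (nat_lit 162) .nil))))))) (.g (nat_lit 1) (.e (nat_lit 142785) (nat_lit 0) .nil) .nil)))) (.nd (nat_lit 9) 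
(.lf (nat_lit 489800) (.g (nat_lit 1324) (.e (nat_lit 49185) (nat_lit 11) (.e (nat_lit 16435) (nat_lit 9) (.e (nat_lit 426482) (nat_lit 27) (.e (nat_lit 336060) (nat_lit 7) .nil)))) (.g (nat_lit 0) (.e (nat_lit 142413) (nat_lit 0) .nil) .nil))) 
(.lf (nat_lit 490312) (.g (nat_lit 1955) (.e (nat_lit 163847) (nat_lit 0) (.e (nat_lit 6418) (nat_lit 341) (.e (nat_lit 163905) (nat_lit 12) (.e (nat_lit 426131) (nat_lit 3) (.e (nat_lit 204868) (nat_lit 29) .nil))))) (.g (nat_lit 0) (.e (nat_lit 143223) (nat_lit 0) .nil) .nil))))) (.nd (nat_lit 8) (.nd (nat_lit 9) 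
(.lf (nat_lit 489672) (.g (nat_lit 1198) (.e (nat_lit 32807) (nat_lit 18) (.e (nat_lit 172124) (nat_lit 14) (.e (nat_lit 491537) (nat_lit 2) (.e (nat_lit 90172) (nat_lit 14) .nil)))) (.g (nat_lit 0) (.e (nat_lit 141828) (nat_lit 0) .nil) .nil))) 
(.lf (nat_lit 490184) (.g (nat_lit 3022) (.e (nat_lit 57088) (nat_lit 11) (.e (nat_lit 16468) (nat_lit 13) (.e (nat_lit 483372) (nat_lit 21) (.e (nat_lit 319504) (nat_lit 10) (.e (nat_lit 4963) (nat_lit 287) .nil))))) (.g (nat_lit 0) (.e (nat_lit 142947) (nat_lit 0) .nil) .nil)))) (.nd (nat_lit 9) 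
(.lf (nat_lit 489928) (.g (nat_lit 2726) (.e (nat_lit 49188) (nat_lit 11) (.e (nat_lit 16466) (nat_lit 13) (.e (nat_lit 483350) (nat_lit 17) (.e (nat_lit 6218) (nat_lit 333) (.e (nat_lit 57791) (nat_lit 245) .nil))))) (.g (nat_lit 0) (.e (nat_lit 142618) (nat_lit 0) .nil) .nil))) 
(.lf (nat_lit 490440) (.g (nat_lit 3403) (.e (nat_lit 163860) (nat_lit 1) (.e (nat_lit 164329) (nat_lit 230) (.e (nat_lit 163902) (nat_lit 12) (.e (nat_lit 426472) (nat_lit 25) (.e (nat_lit 319534) (nat_lit 16) (.e (nat_lit 286749) (nat_lit 9) (.e (nat_lit 335997) (nat_lit 1) (.e (nat_lit 57686) (nat_lit 156) .nil)))))))) (.g (nat_lit 1) (.e (nat_lit 143691) (nat_lit 0) .nil) .nil))))))) 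
(.nd (nat_lit 6) (.nd (nat_lit 7) (.nd (nat_lit 8) (.nd (nat_lit 9) 
(.lf (nat_lit 489512) (.g (nat_lit 546) (.e (nat_lit 16468) (nat_lit 13) (.e (nat_lit 483372) (nat_lit 21) (.e (nat_lit 319524) (nat_lit 14) .nil))) (.g (nat_lit 0) (.e (nat_lit 141028) (nat_lit 0) .nil) .nil))) 
(.lf (nat_lit 490024) (.g (nat_lit 2601) (.e (nat_lit 49189) (nat_lit 11) (.e (nat_lit 16425) (nat_lit 7) (.e (nat_lit 409645) (nat_lit 18) (.e (nat_lit 303143) (nat_lit 12) (.e (nat_lit 475197) (nat_lit 40) (.e (nat_lit 704790) (nat_lit 14) (.e (nat_lit 2591) (nat_lit 162) .nil))))))) (.g (nat_lit 1) (.e (nat_lit 142753) (nat_lit 0) .nil) .nil)))) (.nd (nat_lit 9) 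
(.lf (nat_lit 489768) (.g (nat_lit 1125) (.e (nat_lit 49157) (nat_lit 0) (.e (nat_lit 3020) (nat_lit 187) (.e (nat_lit 450584) (nat_lit 9) (.e (nat_lit 565268) (nat_lit 5) (.e (nat_lit 73792) (nat_lit 45) (.e (nat_lit 1163) (nat_lit 86) .nil)))))) (.g (nat_lit 1) (.e (nat_lit 142261) (nat_lit 0) .nil) .nil))) 
(.lf (nat_lit 490280) (.g (nat_lit 2796) (.e (nat_lit 163844) (nat_lit 0) (.e (nat_lit 3471) (nat_lit 217) (.e (nat_lit 696344) (nat_lit 8) (.e (nat_lit 172079) (nat_lit 7) (.e (nat_lit 409645) (nat_lit 18) (.e (nat_lit 303135) (nat_lit 10) (.e (nat_lit 434203) (nat_lit 18) (.e (nat_lit 5965) (nat_lit 324) .nil)))))))) (.g (nat_lit 1) (.e (nat_lit 143164) (nat_lit 0) .nil) .nil))))) 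
(.nd (nat_lit 8) (.nd (nat_lit 9) 
(.lf (nat_lit 489640) (.g (nat_lit 2587) (.e (nat_lit 32807) (nat_lit 18) (.e (nat_lit 172119) (nat_lit 12) (.e (nat_lit 475185) (nat_lit 29) (.e (nat_lit 557105) (nat_lit 14) (.e (nat_lit 180285) (nat_lit 45) .nil))))) (.g (nat_lit 0) (.e (nat_lit 141784) (nat_lit 0) .nil) .nil))) 
(.lf (nat_lit 490152) (.g (nat_lit 2318) (.e (nat_lit 49189) (nat_lit 11) (.e (nat_lit 16425) (nat_lit 7) (.e (nat_lit 409649) (nat_lit 18) (.e (nat_lit 303143) (nat_lit 12) (.e (nat_lit 475197) (nat_lit 40) (.e (nat_lit 704789) (nat_lit 14) (.e (nat_lit 2591) (nat_lit 162) .nil))))))) (.g (nat_lit 1) (.e (nat_lit 142881) (nat_lit 0) .nil) .nil)))) (.nd (nat_lit 9) 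
(.lf (nat_lit 489896) (.g (nat_lit 2332) (.e (nat_lit 49188) (nat_lit 11) (.e (nat_lit 16425) (nat_lit 7) (.e (nat_lit 409645) (nat_lit 18) (.e (nat_lit 303143) (nat_lit 12) (.e (nat_lit 475216) (nat_lit 44) .nil))))) (.g (nat_lit 0) (.e (nat_lit 142576) (nat_lit 0) .nil) .nil))) 
(.lf (nat_lit 490408) (.g (nat_lit 2402) (.e (nat_lit 163853) (nat_lit 0) (.e (nat_lit 5224) (nat_lit 296) (.e (nat_lit 163875) (nat_lit 3) (.e (nat_lit 204837) (nat_lit 20) (.e (nat_lit 114718) (nat_lit 23) .nil))))) (.g (nat_lit 0) (.e (nat_lit 143567) (nat_lit 0) .nil) .nil)))))) (.nd (nat_lit 7) (.nd (nat_lit 8) (.nd (nat_lit 9) 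
(.lf (nat_lit 489576) (.g (nat_lit 3499) (.e (nat_lit 16473) (nat_lit 14) (.e (nat_lit 499456) (nat_lit 34) (.e (nat_lit 483413) (nat_lit 27) (.e (nat_lit 401414) (nat_lit 0) (.e (nat_lit 3272) (nat_lit 199) (.e (nat_lit 548883) (nat_lit 7) .nil)))))) (.g (nat_lit 1) (.e (nat_lit 141248) (nat_lit 0) .nil) .nil))) 
(.lf (nat_lit 490088) (.g (nat_lit 3006) (.e (nat_lit 49189) (nat_lit 11) (.e (nat_lit 16425) (nat_lit 7) (.e (nat_lit 409648) (nat_lit 18) (.e (nat_lit 303137) (nat_lit 10) (.e (nat_lit 434275) (nat_lit 39) (.e (nat_lit 671488) (nat_lit 14) (.e (nat_lit 1166) (nat_lit 86) .nil))))))) (.g (nat_lit 1) (.e (nat_lit 142817) (nat_lit 0) .nil) .nil)))) (.nd (nat_lit 9) 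
(.lf (nat_lit 489832) (.g (nat_lit 2733) (.e (nat_lit 49187) (nat_lit 11) (.e (nat_lit 16425) (nat_lit 7) (.e (nat_lit 409645) (nat_lit 18) (.e (nat_lit 303143) (nat_lit 12) (.e (nat_lit 475198) (nat_lit 40) (.e (nat_lit 704790) (nat_lit 14) (.e (nat_lit 2587) (nat_lit 162) .nil))))))) (.g (nat_lit 1) (.e (nat_lit 142463) (nat_lit 0) .nil) .nil))) 
(.lf (nat_lit 490344) (.g (nat_lit 4404) (.e (nat_lit 163849) (nat_lit 0) (.e (nat_lit 6255) (nat_lit 337) (.e (nat_lit 2643) (nat_lit 165) (.e (nat_lit 180243) (nat_lit 5) (.e (nat_lit 532550) (nat_lit 12) (.e (nat_lit 360474) (nat_lit 8) (.e (nat_lit 557094) (nat_lit 12) .nil))))))) (.g (nat_lit 1) (.e (nat_lit 143269) (nat_lit 0) .nil) .nil))))) (.nd (nat_lit 8) (.nd (nat_lit 9) 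
(.lf (nat_lit 489704) (.g (nat_lit 3423) (.e (nat_lit 32807) (nat_lit 18) (.e (nat_lit 172126) (nat_lit 14) (.e (nat_lit 491540) (nat_lit 3) (.e (nat_lit 98359) (nat_lit 26) (.e (nat_lit 426171) (nat_lit 7) (.e (nat_lit 409631) (nat_lit 12) .nil)))))) (.g (nat_lit 1) (.e (nat_lit 141888) (nat_lit 0) .nil) .nil))) 
(.lf (nat_lit 490216) (.g (nat_lit 4411) (.e (nat_lit 40995) (nat_lit 11) (.e (nat_lit 24665) (nat_lit 14) (.e (nat_lit 401460) (nat_lit 14) (.e (nat_lit 491566) (nat_lit 12) (.e (nat_lit 385112) (nat_lit 53) .nil))))) (.g (nat_lit 0) (.e (nat_lit 143006) (nat_lit 0) .nil) .nil)))) (.nd (nat_lit 9) 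
(.lf (nat_lit 489960) (.g (nat_lit 3194) (.e (nat_lit 49188) (nat_lit 11) (.e (nat_lit 16466) (nat_lit 13) (.e (nat_lit 483413) (nat_lit 27) (.e (nat_lit 401433) (nat_lit 8) (.e (nat_lit 417806) (nat_lit 3) .nil))))) (.g (nat_lit 0) (.e (nat_lit 142653) (nat_lit 0) .nil) .nil))) 
(.lf (nat_lit 490472) (.g (nat_lit 2766) (.e (nat_lit 163862) (nat_lit 1) (.e (nat_lit 164327) (nat_lit 230) (.e (nat_lit 163903) (nat_lit 12) (.e (nat_lit 426422) (nat_lit 16) (.e (nat_lit 57688) (nat_lit 156) .nil))))) (.g (nat_lit 0) (.e (nat_lit 143878) (nat_lit 0) .nil) .nil)))))))) (.nd (nat_lit 5) (.nd (nat_lit 6) (.nd (nat_lit 7) (.nd (nat_lit 8) (.nd (nat_lit 9) 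
(.lf (nat_lit 489496) (.g (nat_lit 1486) (.e (nat_lit 16468) (nat_lit 13) (.e (nat_lit 483372) (nat_lit 21) (.e (nat_lit 319504) (nat_lit 10) (.e (nat_lit 4963) (nat_lit 287) .nil)))) (.g (nat_lit 0) (.e (nat_lit 141003) (nat_lit 0) .nil) .nil))) 
(.lf (nat_lit 490008) (.g (nat_lit 1689) (.e (nat_lit 49189) (nat_lit 11) (.e (nat_lit 16425) (nat_lit 7) (.e (nat_lit 409644) (nat_lit 18) (.e (nat_lit 303143) (nat_lit 12) (.e (nat_lit 475197) (nat_lit 40) .nil))))) (.g (nat_lit 0) (.e (nat_lit 142737) (nat_lit 0) .nil) .nil)))) (.nd (nat_lit 9) 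
(.lf (nat_lit 489752) (.g (nat_lit 987) (.e (nat_lit 49156) (nat_lit 0) (.e (nat_lit 3026) (nat_lit 187) (.e (nat_lit 450584) (nat_lit 9) (.e (nat_lit 565268) (nat_lit 5) .nil)))) (.g (nat_lit 0) (.e (nat_lit 142232) (nat_lit 0) .nil) .nil))) 
(.lf (nat_lit 490264) (.g (nat_lit 2136) (.e (nat_lit 163843) (nat_lit 0) (.e (nat_lit 6421) (nat_lit 341) (.e (nat_lit 163915) (nat_lit 12) (.e (nat_lit 426133) (nat_lit 3) (.e (nat_lit 204868) (nat_lit 29) .nil))))) (.g (nat_lit 0) (.e (nat_lit 143130) (nat_lit 0) .nil) .nil))))) (.nd (nat_lit 8) (.nd (nat_lit 9) 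
(.lf (nat_lit 489624) (.g (nat_lit 2287) (.e (nat_lit 32807) (nat_lit 18) (.e (nat_lit 172118) (nat_lit 12) (.e (nat_lit 475185) (nat_lit 29) (.e (nat_lit 557105) (nat_lit 14) (.e (nat_lit 180285) (nat_lit 45) (.e (nat_lit 2571) (nat_lit 160) .nil)))))) (.g (nat_lit 1) (.e (nat_lit 141767) (nat_lit 0) .nil) .nil))) 
(.lf (nat_lit 490136) (.g (nat_lit 1879) (.e (nat_lit 49189) (nat_lit 11) (.e (nat_lit 16425) (nat_lit 7) (.e (nat_lit 409649) (nat_lit 18) (.e (nat_lit 303140) (nat_lit 10) (.e (nat_lit 434271) (nat_lit 38) .nil))))) (.g (nat_lit 0) (.e (nat_lit 142865) (nat_lit 0) .nil) .nil)))) (.nd (nat_lit 9) 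
(.lf (nat_lit 489880) (.g (nat_lit 3418) (.e (nat_lit 49188) (nat_lit 11) (.e (nat_lit 16412) (nat_lit 2) (.e (nat_lit 196666) (nat_lit 13) (.e (nat_lit 65610) (nat_lit 10) (.e (nat_lit 344138) (nat_lit 29) .nil))))) (.g (nat_lit 0) (.e (nat_lit 142546) (nat_lit 0) .nil) .nil))) 
(.lf (nat_lit 490392) (.g (nat_lit 3998) (.e (nat_lit 163852) (nat_lit 0) (.e (nat_lit 6425) (nat_lit 342) (.e (nat_lit 229409) (nat_lit 13) (.e (nat_lit 434231) (nat_lit 23) (.e (nat_lit 532550) (nat_lit 12) (.e (nat_lit 360475) (nat_lit 8) (.e (nat_lit 557091) (nat_lit 12) .nil))))))) (.g (nat_lit 1) (.e (nat_lit 143531) (nat_lit 0) .nil) .nil)))))) 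
(.nd (nat_lit 7) (.nd (nat_lit 8) (.nd (nat_lit 9) 
(.lf (nat_lit 489560) (.g (nat_lit 3168) (.e (nat_lit 16473) (nat_lit 14) (.e (nat_lit 491535) (nat_lit 2) (.e (nat_lit 90178) (nat_lit 15) (.e (nat_lit 188440) (nat_lit 20) (.e (nat_lit 3307) (nat_lit 202) (.e (nat_lit 581376) (nat_lit 11) .nil)))))) (.g (nat_lit 1) (.e (nat_lit 141141) (nat_lit 0) .nil) .nil))) 
(.lf (nat_lit 490072) (.g (nat_lit 2924) (.e (nat_lit 49189) (nat_lit 11) (.e (nat_lit 16425) (nat_lit 7) (.e (nat_lit 409647) (nat_lit 18) (.e (nat_lit 303143) (nat_lit 12) (.e (nat_lit 475199) (nat_lit 40) (.e (nat_lit 704836) (nat_lit 14) (.e (nat_lit 2587) (nat_lit 162) .nil))))))) (.g (nat_lit 1) (.e (nat_lit 142801) (nat_lit 0) .nil) .nil)))) (.nd (nat_lit 9) 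
(.lf (nat_lit 489816) (.g (nat_lit 1117) (.e (nat_lit 49186) (nat_lit 11) (.e (nat_lit 16436) (nat_lit 9) (.e (nat_lit 426550) (nat_lit 31) (.e (nat_lit 368656) (nat_lit 14) .nil)))) (.g (nat_lit 0) (.e (nat_lit 142436) (nat_lit 0) .nil) .nil))) 
(.lf (nat_lit 490328) (.g (nat_lit 5541) (.e (nat_lit 163848) (nat_lit 0) (.e (nat_lit 6252) (nat_lit 337) (.e (nat_lit 2641) (nat_lit 165) (.e (nat_lit 180244) (nat_lit 5) (.e (nat_lit 532550) (nat_lit 12) (.e (nat_lit 360475) (nat_lit 8) (.e (nat_lit 557089) (nat_lit 12) .nil))))))) (.g (nat_lit 1) (.e (nat_lit 143245) (nat_lit 0) .nil) .nil))))) (.nd (nat_lit 8) (.nd (nat_lit 9) 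
(.lf (nat_lit 489688) (.g (nat_lit 2341) (.e (nat_lit 32807) (nat_lit 18) (.e (nat_lit 172126) (nat_lit 14) (.e (nat_lit 491537) (nat_lit 2) (.e (nat_lit 90170) (nat_lit 13) (.e (nat_lit 172081) (nat_lit 7) (.e (nat_lit 409631) (nat_lit 12) .nil)))))) (.g (nat_lit 1) (.e (nat_lit 141869) (nat_lit 0) .nil) .nil))) 
(.lf (nat_lit 490200) (.g (nat_lit 2081) (.e (nat_lit 40967) (nat_lit 0) (.e (nat_lit 1253) (nat_lit 92) (.e (nat_lit 98367) (nat_lit 27) (.e (nat_lit 434245) (nat_lit 28) .nil)))) (.g (nat_lit 0) (.e (nat_lit 142966) (nat_lit 0) .nil) .nil)))) (.nd (nat_lit 9) 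
(.lf (nat_lit 489944) (.g (nat_lit 1561) (.e (nat_lit 49188) (nat_lit 11) (.e (nat_lit 16466) (nat_lit 13) (.e (nat_lit 483372) (nat_lit 21) (.e (nat_lit 319506) (nat_lit 10) .nil)))) (.g (nat_lit 0) (.e (nat_lit 142634) (nat_lit 0) .nil) .nil))) 
(.lf (nat_lit 490456) (.g (nat_lit 1616) (.e (nat_lit 163860) (nat_lit 1) (.e (nat_lit 164399) (nat_lit 256) (.e (nat_lit 57447) (nat_lit 19) (.e (nat_lit 393238) (nat_lit 17) .nil)))) (.g (nat_lit 0) (.e (nat_lit 143747) (nat_lit 0) .nil) .nil))))))) (.nd (nat_lit 6) (.nd (nat_lit 7) (.nd (nat_lit 8) (.nd (nat_lit 9) 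
(.lf (nat_lit 489528) (.g (nat_lit 3365) (.e (nat_lit 16470) (nat_lit 14) (.e (nat_lit 491571) (nat_lit 13) (.e (nat_lit 393238) (nat_lit 17) (.e (nat_lit 6989) (nat_lit 377) (.e (nat_lit 2400) (nat_lit 157) (.e (nat_lit 5386) (nat_lit 300) .nil)))))) (.g (nat_lit 1) (.e (nat_lit 141068) (nat_lit 0) .nil) .nil))) 
(.lf (nat_lit 490040) (.g (nat_lit 2311) (.e (nat_lit 49189) (nat_lit 11) (.e (nat_lit 16425) (nat_lit 7) (.e (nat_lit 409646) (nat_lit 18) (.e (nat_lit 303143) (nat_lit 12) (.e (nat_lit 475197) (nat_lit 40) (.e (nat_lit 704787) (nat_lit 14) (.e (nat_lit 2592) (nat_lit 162) .nil))))))) (.g (nat_lit 1) (.e (nat_lit 142769) (nat_lit 0) .nil) .nil)))) (.nd (nat_lit 9) 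
(.lf (nat_lit 489784) (.g (nat_lit 1667) (.e (nat_lit 49185) (nat_lit 11) (.e (nat_lit 16425) (nat_lit 7) (.e (nat_lit 409644) (nat_lit 18) (.e (nat_lit 303143) (nat_lit 12) (.e (nat_lit 475220) (nat_lit 44) .nil))))) (.g (nat_lit 0) (.e (nat_lit 142397) (nat_lit 0) .nil) .nil))) 
(.lf (nat_lit 490296) (.g (nat_lit 337) (.e (nat_lit 163846) (nat_lit 0) (.e (nat_lit 6989) (nat_lit 377) (.e (nat_lit 1361) (nat_lit 102) .nil))) (.g (nat_lit 0) (.e (nat_lit 143197) (nat_lit 0) .nil) .nil))))) (.nd (nat_lit 8) (.nd (nat_lit 9) 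
(.lf (nat_lit 489656) (.g (nat_lit 2708) (.e (nat_lit 32807) (nat_lit 18) (.e (nat_lit 172120) (nat_lit 12) (.e (nat_lit 475185) (nat_lit 29) (.e (nat_lit 557103) (nat_lit 14) (.e (nat_lit 180287) (nat_lit 45) (.e (nat_lit 2570) (nat_lit 160) .nil)))))) (.g (nat_lit 1) (.e (nat_lit 141802) (nat_lit 0) .nil) .nil))) 
(.lf (nat_lit 490168) (.g (nat_lit 2838) (.e (nat_lit 49189) (nat_lit 11) (.e (nat_lit 16431) (nat_lit 9) (.e (nat_lit 426482) (nat_lit 27) (.e (nat_lit 336060) (nat_lit 7) (.e (nat_lit 319505) (nat_lit 10) (.e (nat_lit 4925) (nat_lit 287) (.e (nat_lit 1160) (nat_lit 86) .nil))))))) (.g (nat_lit 1) (.e (nat_lit 142901) (nat_lit 0) .nil) .nil)))) (.nd (nat_lit 9) 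
(.lf (nat_lit 489912) (.g (nat_lit 1222) (.e (nat_lit 49188) (nat_lit 11) (.e (nat_lit 16462) (nat_lit 13) (.e (nat_lit 483375) (nat_lit 22) (.e (nat_lit 327705) (nat_lit 10) (.e (nat_lit 4868) (nat_lit 287) (.e (nat_lit 1158) (nat_lit 86) .nil)))))) (.g (nat_lit 1) (.e (nat_lit 142596) (nat_lit 0) .nil) .nil))) 
(.lf (nat_lit 490424) (.g (nat_lit 1881) (.e (nat_lit 163857) (nat_lit 0) (.e (nat_lit 3632) (nat_lit 227) (.e (nat_lit 778459) (nat_lit 11) (.e (nat_lit 24628) (nat_lit 9) (.e (nat_lit 336443) (nat_lit 32) .nil))))) (.g (nat_lit 0) (.e (nat_lit 143605) (nat_lit 0) .nil) .nil)))))) (.nd (nat_lit 7) (.nd (nat_lit 8) (.nd (nat_lit 9) 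
(.lf (nat_lit 489592) (.g (nat_lit 2379) (.e (nat_lit 32806) (nat_lit 18) (.e (nat_lit 172126) (nat_lit 14) (.e (nat_lit 491537) (nat_lit 2) (.e (nat_lit 90170) (nat_lit 13) (.e (nat_lit 172080) (nat_lit 7) .nil))))) (.g (nat_lit 0) (.e (nat_lit 141411) (nat_lit 0) .nil) .nil))) 
(.lf (nat_lit 490104) (.g (nat_lit 2166) (.e (nat_lit 49189) (nat_lit 11) (.e (nat_lit 16425) (nat_lit 7) (.e (nat_lit 409648) (nat_lit 18) (.e (nat_lit 303137) (nat_lit 10) (.e (nat_lit 434272) (nat_lit 38) (.e (nat_lit 663296) (nat_lit 14) (.e (nat_lit 2589) (nat_lit 162) .nil))))))) (.g (nat_lit 1) (.e (nat_lit 142833) (nat_lit 0) .nil) .nil)))) (.nd (nat_lit 9) 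
(.lf (nat_lit 489848) (.g (nat_lit 1405) (.e (nat_lit 49187) (nat_lit 11) (.e (nat_lit 16425) (nat_lit 7) (.e (nat_lit 409648) (nat_lit 18) (.e (nat_lit 303142) (nat_lit 12) .nil)))) (.g (nat_lit 0) (.e (nat_lit 142479) (nat_lit 0) .nil) .nil))) 
(.lf (nat_lit 490360) (.g (nat_lit 3362) (.e (nat_lit 163850) (nat_lit 0) (.e (nat_lit 3304) (nat_lit 202) (.e (nat_lit 573484) (nat_lit 13) (.e (nat_lit 65610) (nat_lit 10) (.e (nat_lit 344117) (nat_lit 21) (.e (nat_lit 516151) (nat_lit 9) (.e (nat_lit 426142) (nat_lit 4) (.e (nat_lit 229681) (nat_lit 244) .nil)))))))) (.g (nat_lit 1) (.e (nat_lit 143316) (nat_lit 0) .nil) .nil))))) 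
(.nd (nat_lit 8) (.nd (nat_lit 9) 
(.lf (nat_lit 489720) (.g (nat_lit 2255) (.e (nat_lit 32808) (nat_lit 19) (.e (nat_lit 180278) (nat_lit 32) (.e (nat_lit 1234) (nat_lit 91) (.e (nat_lit 90174) (nat_lit 14) (.e (nat_lit 180287) (nat_lit 45) .nil))))) (.g (nat_lit 0) (.e (nat_lit 141958) (nat_lit 0) .nil) .nil))) 
(.lf (nat_lit 490232) (.g (nat_lit 2715) (.e (nat_lit 40997) (nat_lit 11) (.e (nat_lit 24617) (nat_lit 7) (.e (nat_lit 319533) (nat_lit 16) (.e (nat_lit 286753) (nat_lit 10) (.e (nat_lit 344160) (nat_lit 37) (.e (nat_lit 655104) (nat_lit 14) (.e (nat_lit 2575) (nat_lit 161) .nil))))))) (.g (nat_lit 1) (.e (nat_lit 143041) (nat_lit 0) .nil) .nil)))) (.nd (nat_lit 9) 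
(.lf (nat_lit 489976) (.g (nat_lit 2560) (.e (nat_lit 49189) (nat_lit 11) (.e (nat_lit 16412) (nat_lit 2) (.e (nat_lit 196674) (nat_lit 15) (.e (nat_lit 81946) (nat_lit 20) (.e (nat_lit 1858) (nat_lit 124) .nil))))) (.g (nat_lit 0) (.e (nat_lit 142702) (nat_lit 0) .nil) .nil))) 
(.lf (nat_lit 490488) (.g (nat_lit 3529) (.e (nat_lit 163863) (nat_lit 1) (.e (nat_lit 164327) (nat_lit 230) (.e (nat_lit 163903) (nat_lit 12) (.e (nat_lit 426428) (nat_lit 17) (.e (nat_lit 90170) (nat_lit 13) .nil))))) (.g (nat_lit 0) (.e (nat_lit 143993) (nat_lit 0) .nil) .nil)))))))))) 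
(.nd (nat_lit 3) (.nd (nat_lit 4) (.nd (nat_lit 5) (.nd (nat_lit 6) (.nd (nat_lit 7) 
(.nd (nat_lit 8) (.nd (nat_lit 9) 
(.lf (nat_lit 489476) (.g (nat_lit 2313) (.e (nat_lit 16468) (nat_lit 13) (.e (nat_lit 483341) (nat_lit 9) (.e (nat_lit 426108) (nat_lit 1) (.e (nat_lit 164332) (nat_lit 230) (.e (nat_lit 163869) (nat_lit 2) (.e (nat_lit 196653) (nat_lit 11) .nil)))))) (.g (nat_lit 1) (.e (nat_lit 140968) (nat_lit 0) .nil) .nil))) 
(.lf (nat_lit 489988) (.g (nat_lit 2185) (.e (nat_lit 49189) (nat_lit 11) (.e (nat_lit 16425) (nat_lit 7) (.e (nat_lit 409623) (nat_lit 10) (.e (nat_lit 5664) (nat_lit 312) (.e (nat_lit 3062) (nat_lit 190) (.e (nat_lit 475220) (nat_lit 44) (.e (nat_lit 745216) (nat_lit 15) .nil))))))) (.g (nat_lit 1) (.e (nat_lit 142717) (nat_lit 0) .nil) .nil)))) (.nd (nat_lit 9) 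
(.lf (nat_lit 489732) (.g (nat_lit 1734) (.e (nat_lit 32809) (nat_lit 20) (.e (nat_lit 188418) (nat_lit 0) (.e (nat_lit 1856) (nat_lit 124) (.e (nat_lit 557103) (nat_lit 14) (.e (nat_lit 180284) (nat_lit 45) .nil))))) (.g (nat_lit 0) (.e (nat_lit 142001) (nat_lit 0) .nil) .nil))) 
(.lf (nat_lit 490244) (.g (nat_lit 2018) (.e (nat_lit 163840) (nat_lit 0) (.e (nat_lit 5939) (nat_lit 322) (.e (nat_lit 57372) (nat_lit 2) (.e (nat_lit 90172) (nat_lit 14) (.e (nat_lit 180251) (nat_lit 10) .nil))))) (.g (nat_lit 0) (.e (nat_lit 143064) (nat_lit 0) .nil) .nil))))) (.nd (nat_lit 8) (.nd (nat_lit 9) 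
(.lf (nat_lit 489604) (.g (nat_lit 3094) (.e (nat_lit 32806) (nat_lit 18) (.e (nat_lit 172126) (nat_lit 14) (.e (nat_lit 491540) (nat_lit 3) (.e (nat_lit 98367) (nat_lit 27) (.e (nat_lit 434186) (nat_lit 13) .nil))))) (.g (nat_lit 0) (.e (nat_lit 141429) (nat_lit 0) .nil) .nil))) 
(.lf (nat_lit 490116) (.g (nat_lit 2080) (.e (nat_lit 49189) (nat_lit 11) (.e (nat_lit 16425) (nat_lit 7) (.e (nat_lit 409648) (nat_lit 18) (.e (nat_lit 303143) (nat_lit 12) (.e (nat_lit 475197) (nat_lit 40) .nil))))) (.g (nat_lit 0) (.e (nat_lit 142845) (nat_lit 0) .nil) .nil)))) (.nd (nat_lit 9) 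
(.lf (nat_lit 489860) (.g (nat_lit 1556) (.e (nat_lit 49187) (nat_lit 11) (.e (nat_lit 16425) (nat_lit 7) (.e (nat_lit 409649) (nat_lit 18) (.e (nat_lit 303143) (nat_lit 12) (.e (nat_lit 475199) (nat_lit 40) .nil))))) (.g (nat_lit 0) (.e (nat_lit 142491) (nat_lit 0) .nil) .nil))) 
(.lf (nat_lit 490372) (.g (nat_lit 2892) (.e (nat_lit 163850) (nat_lit 0) (.e (nat_lit 5224) (nat_lit 296) (.e (nat_lit 163903) (nat_lit 12) (.e (nat_lit 426428) (nat_lit 17) (.e (nat_lit 90170) (nat_lit 13) (.e (nat_lit 172113) (nat_lit 10) (.e (nat_lit 434203) (nat_lit 18) (.e (nat_lit 6738) (nat_lit 365) (.e (nat_lit 2604) (nat_lit 163) .nil))))))))) (.g (nat_lit 1) (.e (nat_lit 143399) (nat_lit 0) .nil) .nil)))))) 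
(.nd (nat_lit 7) (.nd (nat_lit 8) (.nd (nat_lit 9) 
(.lf (nat_lit 489540) (.g (nat_lit 2523) (.e (nat_lit 16471) (nat_lit 14) (.e (nat_lit 491537) (nat_lit 2) (.e (nat_lit 90170) (nat_lit 13) (.e (nat_lit 172113) (nat_lit 10) (.e (nat_lit 434248) (nat_lit 28) (.e (nat_lit 573470) (nat_lit 11) .nil)))))) (.g (nat_lit 1) (.e (nat_lit 141087) (nat_lit 0) .nil) .nil))) 
(.lf (nat_lit 490052) (.g (nat_lit 3058) (.e (nat_lit 49189) (nat_lit 11) (.e (nat_lit 16425) (nat_lit 7) (.e (nat_lit 409646) (nat_lit 18) (.e (nat_lit 303143) (nat_lit 12) (.e (nat_lit 475199) (nat_lit 40) (.e (nat_lit 704790) (nat_lit 14) (.e (nat_lit 2587) (nat_lit 162) .nil))))))) (.g (nat_lit 1) (.e (nat_lit 142781) (nat_lit 0) .nil) .nil)))) (.nd (nat_lit 9) 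
(.lf (nat_lit 489796) (.g (nat_lit 2719) (.e (nat_lit 49185) (nat_lit 11) (.e (nat_lit 16425) (nat_lit 7) (.e (nat_lit 409649) (nat_lit 18) (.e (nat_lit 303140) (nat_lit 10) (.e (nat_lit 434275) (nat_lit 39) (.e (nat_lit 671488) (nat_lit 14) (.e (nat_lit 1163) (nat_lit 86) .nil))))))) (.g (nat_lit 1) (.e (nat_lit 142409) (nat_lit 0) .nil) .nil))) 
(.lf (nat_lit 490308) (.g (nat_lit 4607) (.e (nat_lit 163847) (nat_lit 0) (.e (nat_lit 6255) (nat_lit 337) (.e (nat_lit 2630) (nat_lit 164) (.e (nat_lit 172065) (nat_lit 3) (.e (nat_lit 204869) (nat_lit 29) (.e (nat_lit 360475) (nat_lit 8) (.e (nat_lit 557091) (nat_lit 12) .nil))))))) (.g (nat_lit 1) (.e (nat_lit 143217) (nat_lit 0) .nil) .nil))))) (.nd (nat_lit 8) (.nd (nat_lit 9) 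
(.lf (nat_lit 489668) (.g (nat_lit 2611) (.e (nat_lit 32807) (nat_lit 18) (.e (nat_lit 172124) (nat_lit 14) (.e (nat_lit 491537) (nat_lit 2) (.e (nat_lit 90170) (nat_lit 13) (.e (nat_lit 172077) (nat_lit 7) (.e (nat_lit 409631) (nat_lit 12) .nil)))))) (.g (nat_lit 1) (.e (nat_lit 141823) (nat_lit 0) .nil) .nil))) 
(.lf (nat_lit 490180) (.g (nat_lit 2940) (.e (nat_lit 49189) (nat_lit 11) (.e (nat_lit 16466) (nat_lit 13) (.e (nat_lit 483413) (nat_lit 27) (.e (nat_lit 401432) (nat_lit 7) .nil)))) (.g (nat_lit 0) (.e (nat_lit 142942) (nat_lit 0) .nil) .nil)))) (.nd (nat_lit 9) 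
(.lf (nat_lit 489924) (.g (nat_lit 1590) (.e (nat_lit 49188) (nat_lit 11) (.e (nat_lit 16466) (nat_lit 13) (.e (nat_lit 483350) (nat_lit 17) (.e (nat_lit 6211) (nat_lit 333) .nil)))) (.g (nat_lit 0) (.e (nat_lit 142613) (nat_lit 0) .nil) .nil))) 
(.lf (nat_lit 490436) (.g (nat_lit 2730) (.e (nat_lit 163859) (nat_lit 1) (.e (nat_lit 164327) (nat_lit 230) (.e (nat_lit 163903) (nat_lit 12) (.e (nat_lit 426428) (nat_lit 17) .nil)))) (.g (nat_lit 0) (.e (nat_lit 143671) (nat_lit 0) .nil) .nil))))))) (.nd (nat_lit 6) (.nd (nat_lit 7) (.nd (nat_lit 8) (.nd (nat_lit 9) 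
(.lf (nat_lit 489508) (.g (nat_lit 651) (.e (nat_lit 16468) (nat_lit 13) (.e (nat_lit 483372) (nat_lit 21) (.e (nat_lit 319510) (nat_lit 10) .nil))) (.g (nat_lit 0) (.e (nat_lit 141021) (nat_lit 0) .nil) .nil))) 
(.lf (nat_lit 490020) (.g (nat_lit 2453) (.e (nat_lit 49189) (nat_lit 11) (.e (nat_lit 16425) (nat_lit 7) (.e (nat_lit 409645) (nat_lit 18) (.e (nat_lit 303143) (nat_lit 12) (.e (nat_lit 475197) (nat_lit 40) (.e (nat_lit 704787) (nat_lit 14) (.e (nat_lit 2592) (nat_lit 162) .nil))))))) (.g (nat_lit 1) (.e (nat_lit 142749) (nat_lit 0) .nil) .nil)))) (.nd (nat_lit 9) 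
(.lf (nat_lit 489764) (.g (nat_lit 1128) (.e (nat_lit 49157) (nat_lit 0) (.e (nat_lit 3012) (nat_lit 187) (.e (nat_lit 450584) (nat_lit 9) (.e (nat_lit 565268) (nat_lit 5) (.e (nat_lit 73792) (nat_lit 45) (.e (nat_lit 1162) (nat_lit 86) .nil)))))) (.g (nat_lit 1) (.e (nat_lit 142257) (nat_lit 0) .nil) .nil))) 
(.lf (nat_lit 490276) (.g (nat_lit 2057) (.e (nat_lit 163844) (nat_lit 0) (.e (nat_lit 3471) (nat_lit 217) (.e (nat_lit 696344) (nat_lit 8) (.e (nat_lit 172079) (nat_lit 7) (.e (nat_lit 409645) (nat_lit 18) (.e (nat_lit 303133) (nat_lit 9) (.e (nat_lit 426042) (nat_lit 0) (.e (nat_lit 2442) (nat_lit 157) (.e (nat_lit 5968) (nat_lit 324) .nil))))))))) (.g (nat_lit 1) (.e (nat_lit 143160) (nat_lit 0) .nil) .nil))))) 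
(.nd (nat_lit 8) (.nd (nat_lit 9) 
(.lf (nat_lit 489636) (.g (nat_lit 3227) (.e (nat_lit 32807) (nat_lit 18) (.e (nat_lit 172119) (nat_lit 12) (.e (nat_lit 475185) (nat_lit 29) (.e (nat_lit 557104) (nat_lit 14) (.e (nat_lit 180284) (nat_lit 45) .nil))))) (.g (nat_lit 0) (.e (nat_lit 141780) (nat_lit 0) .nil) .nil))) 
(.lf (nat_lit 490148) (.g (nat_lit 1924) (.e (nat_lit 49189) (nat_lit 11) (.e (nat_lit 16425) (nat_lit 7) (.e (nat_lit 409649) (nat_lit 18) (.e (nat_lit 303142) (nat_lit 12) .nil)))) (.g (nat_lit 0) (.e (nat_lit 142877) (nat_lit 0) .nil) .nil)))) (.nd (nat_lit 9) 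
(.lf (nat_lit 489892) (.g (nat_lit 2092) (.e (nat_lit 49188) (nat_lit 11) (.e (nat_lit 16425) (nat_lit 7) (.e (nat_lit 409643) (nat_lit 18) (.e (nat_lit 303143) (nat_lit 12) (.e (nat_lit 475216) (nat_lit 44) .nil))))) (.g (nat_lit 0) (.e (nat_lit 142572) (nat_lit 0) .nil) .nil))) 
(.lf (nat_lit 490404) (.g (nat_lit 2571) (.e (nat_lit 163853) (nat_lit 0) (.e (nat_lit 3307) (nat_lit 202) (.e (nat_lit 573489) (nat_lit 14) (.e (nat_lit 73754) (nat_lit 8) (.e (nat_lit 557095) (nat_lit 13) .nil))))) (.g (nat_lit 0) (.e (nat_lit 143552) (nat_lit 0) .nil) .nil)))))) (.nd (nat_lit 7) (.nd (nat_lit 8) (.nd (nat_lit 9) 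
(.lf (nat_lit 489572) (.g (nat_lit 1725) (.e (nat_lit 16473) (nat_lit 14) (.e (nat_lit 499456) (nat_lit 25) (.e (nat_lit 409646) (nat_lit 18) (.e (nat_lit 303133) (nat_lit 9) (.e (nat_lit 426162) (nat_lit 6) (.e (nat_lit 253990) (nat_lit 11) .nil)))))) (.g (nat_lit 1) (.e (nat_lit 141194) (nat_lit 0) .nil) .nil))) 
(.lf (nat_lit 490084) (.g (nat_lit 3068) (.e (nat_lit 49189) (nat_lit 11) (.e (nat_lit 16425) (nat_lit 7) (.e (nat_lit 409648) (nat_lit 18) (.e (nat_lit 303137) (nat_lit 10) (.e (nat_lit 434275) (nat_lit 39) (.e (nat_lit 663589) (nat_lit 14) (.e (nat_lit 7936) (nat_lit 86) .nil))))))) (.g (nat_lit 1) (.e (nat_lit 142813) (nat_lit 0) .nil) .nil)))) (.nd (nat_lit 9) 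
(.lf (nat_lit 489828) (.g (nat_lit 1955) (.e (nat_lit 49187) (nat_lit 11) (.e (nat_lit 16425) (nat_lit 7) (.e (nat_lit 409644) (nat_lit 18) (.e (nat_lit 303143) (nat_lit 12) (.e (nat_lit 475218) (nat_lit 44) .nil))))) (.g (nat_lit 0) (.e (nat_lit 142459) (nat_lit 0) .nil) .nil))) 
(.lf (nat_lit 490340) (.g (nat_lit 4160) (.e (nat_lit 163849) (nat_lit 0) (.e (nat_lit 6255) (nat_lit 337) (.e (nat_lit 2630) (nat_lit 164) (.e (nat_lit 172067) (nat_lit 3) (.e (nat_lit 204869) (nat_lit 29) (.e (nat_lit 360474) (nat_lit 8) (.e (nat_lit 557094) (nat_lit 12) .nil))))))) (.g (nat_lit 1) (.e (nat_lit 143264) (nat_lit 0) .nil) .nil))))) (.nd (nat_lit 8) (.nd (nat_lit 9) 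
(.lf (nat_lit 489700) (.g (nat_lit 2536) (.e (nat_lit 32807) (nat_lit 18) (.e (nat_lit 172126) (nat_lit 14) (.e (nat_lit 491539) (nat_lit 3) (.e (nat_lit 98366) (nat_lit 27) (.e (nat_lit 434189) (nat_lit 13) .nil))))) (.g (nat_lit 0) (.e (nat_lit 141883) (nat_lit 0) .nil) .nil))) 
(.lf (nat_lit 490212) (.g (nat_lit 3857) (.e (nat_lit 40994) (nat_lit 11) (.e (nat_lit 24665) (nat_lit 14) (.e (nat_lit 401460) (nat_lit 14) (.e (nat_lit 491566) (nat_lit 12) (.e (nat_lit 385114) (nat_lit 53) .nil))))) (.g (nat_lit 0) (.e (nat_lit 143000) (nat_lit 0) .nil) .nil)))) (.nd (nat_lit 9) 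
(.lf (nat_lit 489956) (.g (nat_lit 802) (.e (nat_lit 49188) (nat_lit 11) (.e (nat_lit 16466) (nat_lit 13) (.e (nat_lit 483412) (nat_lit 27) .nil))) (.g (nat_lit 0) (.e (nat_lit 142649) (nat_lit 0) .nil) .nil))) 
(.lf (nat_lit 490468) (.g (nat_lit 4724) (.e (nat_lit 163861) (nat_lit 1) (.e (nat_lit 164332) (nat_lit 230) (.e (nat_lit 163905) (nat_lit 12) (.e (nat_lit 426472) (nat_lit 25) (.e (nat_lit 319534) (nat_lit 16) (.e (nat_lit 286749) (nat_lit 9) (.e (nat_lit 335997) (nat_lit 1) (.e (nat_lit 57686) (nat_lit 156) .nil)))))))) (.g (nat_lit 1) (.e (nat_lit 143833) (nat_lit 0) .nil) .nil)))))))) 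
(.nd (nat_lit 5) (.nd (nat_lit 6) (.nd (nat_lit 7) (.nd (nat_lit 8) (.nd (nat_lit 9) 
(.lf (nat_lit 489492) (.g (nat_lit 1358) (.e (nat_lit 16468) (nat_lit 13) (.e (nat_lit 483372) (nat_lit 21) (.e (nat_lit 319504) (nat_lit 10) (.e (nat_lit 4919) (nat_lit 287) .nil)))) (.g (nat_lit 0) (.e (nat_lit 140998) (nat_lit 0) .nil) .nil))) 
(.lf (nat_lit 490004) (.g (nat_lit 3075) (.e (nat_lit 49189) (nat_lit 11) (.e (nat_lit 16425) (nat_lit 7) (.e (nat_lit 409643) (nat_lit 18) (.e (nat_lit 303143) (nat_lit 12) (.e (nat_lit 475199) (nat_lit 40) (.e (nat_lit 704790) (nat_lit 14) (.e (nat_lit 2592) (nat_lit 162) .nil))))))) (.g (nat_lit 1) (.e (nat_lit 142733) (nat_lit 0) .nil) .nil)))) (.nd (nat_lit 9) 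
(.lf (nat_lit 489748) (.g (nat_lit 932) (.e (nat_lit 49156) (nat_lit 0) (.e (nat_lit 3012) (nat_lit 187) (.e (nat_lit 450584) (nat_lit 9) (.e (nat_lit 565268) (nat_lit 5) (.e (nat_lit 73791) (nat_lit 45) (.e (nat_lit 1162) (nat_lit 86) .nil)))))) (.g (nat_lit 1) (.e (nat_lit 142220) (nat_lit 0) .nil) .nil))) 
(.lf (nat_lit 490260) (.g (nat_lit 4618) (.e (nat_lit 163843) (nat_lit 0) (.e (nat_lit 6420) (nat_lit 341) (.e (nat_lit 163908) (nat_lit 12) (.e (nat_lit 426132) (nat_lit 3) (.e (nat_lit 204869) (nat_lit 29) (.e (nat_lit 360475) (nat_lit 8) (.e (nat_lit 557091) (nat_lit 12) .nil))))))) (.g (nat_lit 1) (.e (nat_lit 143126) (nat_lit 0) .nil) .nil))))) (.nd (nat_lit 8) (.nd (nat_lit 9) 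
(.lf (nat_lit 489620) (.g (nat_lit 2952) (.e (nat_lit 32807) (nat_lit 18) (.e (nat_lit 172118) (nat_lit 12) (.e (nat_lit 475185) (nat_lit 29) (.e (nat_lit 557104) (nat_lit 14) (.e (nat_lit 180284) (nat_lit 45) (.e (nat_lit 2570) (nat_lit 160) .nil)))))) (.g (nat_lit 1) (.e (nat_lit 141763) (nat_lit 0) .nil) .nil))) 
(.lf (nat_lit 490132) (.g (nat_lit 2859) (.e (nat_lit 49189) (nat_lit 11) (.e (nat_lit 16425) (nat_lit 7) (.e (nat_lit 409649) (nat_lit 18) (.e (nat_lit 303140) (nat_lit 10) (.e (nat_lit 434275) (nat_lit 39) (.e (nat_lit 671488) (nat_lit 14) (.e (nat_lit 1159) (nat_lit 86) .nil))))))) (.g (nat_lit 1) (.e (nat_lit 142861) (nat_lit 0) .nil) .nil)))) (.nd (nat_lit 9) 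
(.lf (nat_lit 489876) (.g (nat_lit 2891) (.e (nat_lit 49187) (nat_lit 11) (.e (nat_lit 16473) (nat_lit 14) (.e (nat_lit 491560) (nat_lit 10) (.e (nat_lit 344161) (nat_lit 37) .nil)))) (.g (nat_lit 0) (.e (nat_lit 142542) (nat_lit 0) .nil) .nil))) 
(.lf (nat_lit 490388) (.g (nat_lit 2692) (.e (nat_lit 163851) (nat_lit 0) (.e (nat_lit 3307) (nat_lit 202) (.e (nat_lit 573489) (nat_lit 14) (.e (nat_lit 73755) (nat_lit 8) (.e (nat_lit 557096) (nat_lit 13) .nil))))) (.g (nat_lit 0) (.e (nat_lit 143510) (nat_lit 0) .nil) .nil)))))) (.nd (nat_lit 7) (.nd (nat_lit 8) (.nd (nat_lit 9) 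
(.lf (nat_lit 489556) (.g (nat_lit 2043) (.e (nat_lit 16473) (nat_lit 14) (.e (nat_lit 491535) (nat_lit 2) (.e (nat_lit 90170) (nat_lit 13) (.e (nat_lit 172113) (nat_lit 10) (.e (nat_lit 434242) (nat_lit 28) (.e (nat_lit 573470) (nat_lit 11) .nil)))))) (.g (nat_lit 1) (.e (nat_lit 141137) (nat_lit 0) .nil) .nil))) 
(.lf (nat_lit 490068) (.g (nat_lit 3267) (.e (nat_lit 49189) (nat_lit 11) (.e (nat_lit 16425) (nat_lit 7) (.e (nat_lit 409647) (nat_lit 18) (.e (nat_lit 303143) (nat_lit 12) (.e (nat_lit 475199) (nat_lit 40) (.e (nat_lit 704790) (nat_lit 14) (.e (nat_lit 2587) (nat_lit 162) .nil))))))) (.g (nat_lit 1) (.e (nat_lit 142797) (nat_lit 0) .nil) .nil)))) (.nd (nat_lit 9) 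
(.lf (nat_lit 489812) (.g (nat_lit 3269) (.e (nat_lit 49185) (nat_lit 11) (.e (nat_lit 16466) (nat_lit 13) (.e (nat_lit 483372) (nat_lit 21) (.e (nat_lit 319504) (nat_lit 10) (.e (nat_lit 4921) (nat_lit 287) .nil))))) (.g (nat_lit 0) (.e (nat_lit 142428) (nat_lit 0) .nil) .nil))) 
(.lf (nat_lit 490324) (.g (nat_lit 4512) (.e (nat_lit 163848) (nat_lit 0) (.e (nat_lit 6252) (nat_lit 337) (.e (nat_lit 2630) (nat_lit 164) (.e (nat_lit 172064) (nat_lit 2) (.e (nat_lit 196666) (nat_lit 13) (.e (nat_lit 65617) (nat_lit 10) (.e (nat_lit 344133) (nat_lit 26) (.e (nat_lit 557089) (nat_lit 12) .nil)))))))) (.g (nat_lit 1) (.e (nat_lit 143239) (nat_lit 0) .nil) .nil))))) 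
(.nd (nat_lit 8) (.nd (nat_lit 9) 
(.lf (nat_lit 489684) (.g (nat_lit 2540) (.e (nat_lit 32807) (nat_lit 18) (.e (nat_lit 172126) (nat_lit 14) (.e (nat_lit 491537) (nat_lit 2) (.e (nat_lit 90170) (nat_lit 13) (.e (nat_lit 172077) (nat_lit 7) (.e (nat_lit 409631) (nat_lit 12) .nil)))))) (.g (nat_lit 1) (.e (nat_lit 141865) (nat_lit 0) .nil) .nil))) 
(.lf (nat_lit 490196) (.g (nat_lit 1042) (.e (nat_lit 40965) (nat_lit 0) (.e (nat_lit 1582) (nat_lit 111) (.e (nat_lit 360477) (nat_lit 11) (.e (nat_lit 581652) (nat_lit 5) (.e (nat_lit 180285) (nat_lit 45) (.e (nat_lit 2577) (nat_lit 161) .nil)))))) (.g (nat_lit 1) (.e (nat_lit 142962) (nat_lit 0) .nil) .nil)))) (.nd (nat_lit 9) 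
(.lf (nat_lit 489940) (.g (nat_lit 3168) (.e (nat_lit 49188) (nat_lit 11) (.e (nat_lit 16466) (nat_lit 13) (.e (nat_lit 483372) (nat_lit 21) (.e (nat_lit 319504) (nat_lit 10) (.e (nat_lit 4962) (nat_lit 287) .nil))))) (.g (nat_lit 0) (.e (nat_lit 142630) (nat_lit 0) .nil) .nil))) 
(.lf (nat_lit 490452) (.g (nat_lit 603) (.e (nat_lit 163860) (nat_lit 1) (.e (nat_lit 164332) (nat_lit 230) (.e (nat_lit 163905) (nat_lit 12) .nil))) (.g (nat_lit 0) (.e (nat_lit 143730) (nat_lit 0) .nil) .nil))))))) (.nd (nat_lit 6) (.nd (nat_lit 7) (.nd (nat_lit 8) (.nd (nat_lit 9) 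
(.lf (nat_lit 489524) (.g (nat_lit 2269) (.e (nat_lit 16470) (nat_lit 14) (.e (nat_lit 491571) (nat_lit 13) (.e (nat_lit 393231) (nat_lit 17) (.e (nat_lit 7110) (nat_lit 380) (.e (nat_lit 171776) (nat_lit 234) .nil))))) (.g (nat_lit 1) (.e (nat_lit 141064) (nat_lit 0) .nil) .nil))) 
(.lf (nat_lit 490036) (.g (nat_lit 3166) (.e (nat_lit 49189) (nat_lit 11) (.e (nat_lit 16425) (nat_lit 7) (.e (nat_lit 409645) (nat_lit 18) (.e (nat_lit 303143) (nat_lit 12) (.e (nat_lit 475220) (nat_lit 44) (.e (nat_lit 745216) (nat_lit 15) .nil)))))) (.g (nat_lit 1) (.e (nat_lit 142765) (nat_lit 0) .nil) .nil)))) (.nd (nat_lit 9) 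
(.lf (nat_lit 489780) (.g (nat_lit 2168) (.e (nat_lit 49185) (nat_lit 11) (.e (nat_lit 16425) (nat_lit 7) (.e (nat_lit 409643) (nat_lit 18) (.e (nat_lit 303143) (nat_lit 12) (.e (nat_lit 475198) (nat_lit 40) (.e (nat_lit 704790) (nat_lit 14) (.e (nat_lit 2593) (nat_lit 162) .nil))))))) (.g (nat_lit 1) (.e (nat_lit 142393) (nat_lit 0) .nil) .nil))) 
(.lf (nat_lit 490292) (.g (nat_lit 2516) (.e (nat_lit 163845) (nat_lit 0) (.e (nat_lit 3309) (nat_lit 202) (.e (nat_lit 573489) (nat_lit 14) (.e (nat_lit 73755) (nat_lit 8) (.e (nat_lit 557097) (nat_lit 13) .nil))))) (.g (nat_lit 0) (.e (nat_lit 143183) (nat_lit 0) .nil) .nil))))) (.nd (nat_lit 8) (.nd (nat_lit 9) 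
(.lf (nat_lit 489652) (.g (nat_lit 2692) (.e (nat_lit 32807) (nat_lit 18) (.e (nat_lit 172120) (nat_lit 12) (.e (nat_lit 475185) (nat_lit 29) (.e (nat_lit 557103) (nat_lit 14) (.e (nat_lit 180284) (nat_lit 45) (.e (nat_lit 2570) (nat_lit 160) .nil)))))) (.g (nat_lit 1) (.e (nat_lit 141798) (nat_lit 0) .nil) .nil))) 
(.lf (nat_lit 490164) (.g (nat_lit 2833) (.e (nat_lit 49189) (nat_lit 11) (.e (nat_lit 16425) (nat_lit 7) (.e (nat_lit 409649) (nat_lit 18) (.e (nat_lit 303143) (nat_lit 12) (.e (nat_lit 475220) (nat_lit 44) (.e (nat_lit 745216) (nat_lit 15) .nil)))))) (.g (nat_lit 1) (.e (nat_lit 142893) (nat_lit 0) .nil) .nil)))) (.nd (nat_lit 9) 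
(.lf (nat_lit 489908) (.g (nat_lit 1695) (.e (nat_lit 49188) (nat_lit 11) (.e (nat_lit 16448) (nat_lit 10) (.e (nat_lit 434289) (nat_lit 43) (.e (nat_lit 696344) (nat_lit 8) .nil)))) (.g (nat_lit 0) (.e (nat_lit 142590) (nat_lit 0) .nil) .nil))) 
(.lf (nat_lit 490420) (.g (nat_lit 1876) (.e (nat_lit 163857) (nat_lit 0) (.e (nat_lit 3253) (nat_lit 197) (.e (nat_lit 532515) (nat_lit 3) (.e (nat_lit 114719) (nat_lit 23) (.e (nat_lit 98356) (nat_lit 26) .nil))))) (.g (nat_lit 0) (.e (nat_lit 143595) (nat_lit 0) .nil) .nil)))))) (.nd (nat_lit 7) (.nd (nat_lit 8) (.nd (nat_lit 9) 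
(.lf (nat_lit 489588) (.g (nat_lit 2419) (.e (nat_lit 32806) (nat_lit 18) (.e (nat_lit 172126) (nat_lit 14) (.e (nat_lit 491536) (nat_lit 2) (.e (nat_lit 90174) (nat_lit 14) (.e (nat_lit 180288) (nat_lit 45) .nil))))) (.g (nat_lit 0) (.e (nat_lit 141406) (nat_lit 0) .nil) .nil))) 
(.lf (nat_lit 490100) (.g (nat_lit 3086) (.e (nat_lit 49189) (nat_lit 11) (.e (nat_lit 16425) (nat_lit 7) (.e (nat_lit 409648) (nat_lit 18) (.e (nat_lit 303137) (nat_lit 10) (.e (nat_lit 434272) (nat_lit 38) (.e (nat_lit 655401) (nat_lit 14) (.e (nat_lit 2587) (nat_lit 162) .nil))))))) (.g (nat_lit 1) (.e (nat_lit 142829) (nat_lit 0) .nil) .nil)))) (.nd (nat_lit 9) 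
(.lf (nat_lit 489844) (.g (nat_lit 1943) (.e (nat_lit 49187) (nat_lit 11) (.e (nat_lit 16425) (nat_lit 7) (.e (nat_lit 409647) (nat_lit 18) (.e (nat_lit 303143) (nat_lit 12) (.e (nat_lit 475219) (nat_lit 44) .nil))))) (.g (nat_lit 0) (.e (nat_lit 142475) (nat_lit 0) .nil) .nil))) 
(.lf (nat_lit 490356) (.g (nat_lit 498) (.e (nat_lit 163850) (nat_lit 0) (.e (nat_lit 3238) (nat_lit 197) (.e (nat_lit 532579) (nat_lit 26) .nil))) (.g (nat_lit 0) (.e (nat_lit 143303) (nat_lit 0) .nil) .nil))))) (.nd (nat_lit 8) (.nd (nat_lit 9) 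
(.lf (nat_lit 489716) (.g (nat_lit 1734) (.e (nat_lit 32808) (nat_lit 19) (.e (nat_lit 180277) (nat_lit 32) (.e (nat_lit 1252) (nat_lit 92) (.e (nat_lit 98367) (nat_lit 27) (.e (nat_lit 434193) (nat_lit 13) (.e (nat_lit 2571) (nat_lit 160) .nil)))))) (.g (nat_lit 1) (.e (nat_lit 141954) (nat_lit 0) .nil) .nil))) 
(.lf (nat_lit 490228) (.g (nat_lit 2749) (.e (nat_lit 40996) (nat_lit 11) (.e (nat_lit 24665) (nat_lit 14) (.e (nat_lit 401448) (nat_lit 10) (.e (nat_lit 434270) (nat_lit 38) .nil)))) (.g (nat_lit 0) (.e (nat_lit 143021) (nat_lit 0) .nil) .nil)))) (.nd (nat_lit 9) 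
(.lf (nat_lit 489972) (.g (nat_lit 3136) (.e (nat_lit 49189) (nat_lit 11) (.e (nat_lit 16412) (nat_lit 2) (.e (nat_lit 196666) (nat_lit 13) (.e (nat_lit 65610) (nat_lit 10) (.e (nat_lit 344138) (nat_lit 29) .nil))))) (.g (nat_lit 0) (.e (nat_lit 142684) (nat_lit 0) .nil) .nil))) 
(.lf (nat_lit 490484) (.g (nat_lit 1531) (.e (nat_lit 163863) (nat_lit 1) (.e (nat_lit 164325) (nat_lit 230) (.e (nat_lit 163903) (nat_lit 12) (.e (nat_lit 426438) (nat_lit 18) (.e (nat_lit 98374) (nat_lit 29) .nil))))) (.g (nat_lit 0) (.e (nat_lit 143927) (nat_lit 0) .nil) .nil))))))))) (.nd (nat_lit 4) (.nd (nat_lit 5) (.nd (nat_lit 6) (.nd (nat_lit 7) (.nd (nat_lit 8) (.nd (nat_lit 9) 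
(.lf (nat_lit 489484) (.g (nat_lit 1640) (.e (nat_lit 16468) (nat_lit 13) (.e (nat_lit 483350) (nat_lit 17) (.e (nat_lit 6218) (nat_lit 333) (.e (nat_lit 57814) (nat_lit 246) .nil)))) (.g (nat_lit 0) (.e (nat_lit 140986) (nat_lit 0) .nil) .nil))) 
(.lf (nat_lit 489996) (.g (nat_lit 2024) (.e (nat_lit 49189) (nat_lit 11) (.e (nat_lit 16425) (nat_lit 7) (.e (nat_lit 409643) (nat_lit 18) (.e (nat_lit 303143) (nat_lit 12) (.e (nat_lit 475197) (nat_lit 40) (.e (nat_lit 704790) (nat_lit 14) (.e (nat_lit 2590) (nat_lit 162) .nil))))))) (.g (nat_lit 1) (.e (nat_lit 142725) (nat_lit 0) .nil) .nil)))) (.nd (nat_lit 9) 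
(.lf (nat_lit 489740) (.g (nat_lit 744) (.e (nat_lit 32787) (nat_lit 9) (.e (nat_lit 65624) (nat_lit 12) (.e (nat_lit 385073) (nat_lit 31) .nil))) (.g (nat_lit 0) (.e (nat_lit 142127) (nat_lit 0) .nil) .nil))) 
(.lf (nat_lit 490252) (.g (nat_lit 340) (.e (nat_lit 163843) (nat_lit 0) (.e (nat_lit 3605) (nat_lit 225) (.e (nat_lit 761905) (nat_lit 16) .nil))) (.g (nat_lit 0) (.e (nat_lit 143089) (nat_lit 0) .nil) .nil))))) (.nd (nat_lit 8) (.nd (nat_lit 9) 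
(.lf (nat_lit 489612) (.g (nat_lit 1733) (.e (nat_lit 32807) (nat_lit 18) (.e (nat_lit 172118) (nat_lit 12) (.e (nat_lit 475184) (nat_lit 29) (.e (nat_lit 557103) (nat_lit 14) (.e (nat_lit 180288) (nat_lit 45) .nil))))) (.g (nat_lit 0) (.e (nat_lit 141753) (nat_lit 0) .nil) .nil))) 
(.lf (nat_lit 490124) (.g (nat_lit 2577) (.e (nat_lit 49189) (nat_lit 11) (.e (nat_lit 16425) (nat_lit 7) (.e (nat_lit 409648) (nat_lit 18) (.e (nat_lit 303143) (nat_lit 12) (.e (nat_lit 475218) (nat_lit 44) (.e (nat_lit 737318) (nat_lit 15) .nil)))))) (.g (nat_lit 1) (.e (nat_lit 142853) (nat_lit 0) .nil) .nil)))) (.nd (nat_lit 9) 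
(.lf (nat_lit 489868) (.g (nat_lit 1202) (.e (nat_lit 49187) (nat_lit 11) (.e (nat_lit 16473) (nat_lit 14) (.e (nat_lit 491559) (nat_lit 10) .nil))) (.g (nat_lit 0) (.e (nat_lit 142531) (nat_lit 0) .nil) .nil))) 
(.lf (nat_lit 490380) (.g (nat_lit 5215) (.e (nat_lit 163850) (nat_lit 0) (.e (nat_lit 6425) (nat_lit 342) (.e (nat_lit 229409) (nat_lit 13) (.e (nat_lit 434231) (nat_lit 23) (.e (nat_lit 532550) (nat_lit 12) (.e (nat_lit 360475) (nat_lit 8) (.e (nat_lit 557089) (nat_lit 12) .nil))))))) (.g (nat_lit 1) (.e (nat_lit 143498) (nat_lit 0) .nil) .nil)))))) 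
(.nd (nat_lit 7) (.nd (nat_lit 8) (.nd (nat_lit 9) 
(.lf (nat_lit 489548) (.g (nat_lit 2646) (.e (nat_lit 16472) (nat_lit 14) (.e (nat_lit 491537) (nat_lit 2) (.e (nat_lit 90170) (nat_lit 13) (.e (nat_lit 172113) (nat_lit 10) (.e (nat_lit 434242) (nat_lit 28) (.e (nat_lit 573469) (nat_lit 11) .nil)))))) (.g (nat_lit 1) (.e (nat_lit 141100) (nat_lit 0) .nil) .nil))) 
(.lf (nat_lit 490060) (.g (nat_lit 1898) (.e (nat_lit 49189) (nat_lit 11) (.e (nat_lit 16425) (nat_lit 7) (.e (nat_lit 409647) (nat_lit 18) (.e (nat_lit 303143) (nat_lit 12) (.e (nat_lit 475197) (nat_lit 40) (.e (nat_lit 704770) (nat_lit 14) (.e (nat_lit 2595) (nat_lit 162) .nil))))))) (.g (nat_lit 1) (.e (nat_lit 142789) (nat_lit 0) .nil) .nil)))) (.nd (nat_lit 9) 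
(.lf (nat_lit 489804) (.g (nat_lit 2998) (.e (nat_lit 49185) (nat_lit 11) (.e (nat_lit 16465) (nat_lit 13) (.e (nat_lit 483372) (nat_lit 21) (.e (nat_lit 319504) (nat_lit 10) (.e (nat_lit 4916) (nat_lit 287) .nil))))) (.g (nat_lit 0) (.e (nat_lit 142420) (nat_lit 0) .nil) .nil))) 
(.lf (nat_lit 490316) (.g (nat_lit 1269) (.e (nat_lit 163847) (nat_lit 0) (.e (nat_lit 6420) (nat_lit 341) (.e (nat_lit 163902) (nat_lit 12) (.e (nat_lit 426131) (nat_lit 3) .nil)))) (.g (nat_lit 0) (.e (nat_lit 143228) (nat_lit 0) .nil) .nil))))) (.nd (nat_lit 8) (.nd (nat_lit 9) 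
(.lf (nat_lit 489676) (.g (nat_lit 3040) (.e (nat_lit 32807) (nat_lit 18) (.e (nat_lit 172124) (nat_lit 14) (.e (nat_lit 491540) (nat_lit 3) (.e (nat_lit 98367) (nat_lit 27) (.e (nat_lit 434190) (nat_lit 13) (.e (nat_lit 2569) (nat_lit 160) .nil)))))) (.g (nat_lit 1) (.e (nat_lit 141839) (nat_lit 0) .nil) .nil))) 
(.lf (nat_lit 490188) (.g (nat_lit 2055) (.e (nat_lit 49192) (nat_lit 12) (.e (nat_lit 57476) (nat_lit 28) (.e (nat_lit 557087) (nat_lit 11) (.e (nat_lit 24658) (nat_lit 13) .nil)))) (.g (nat_lit 0) (.e (nat_lit 142952) (nat_lit 0) .nil) .nil)))) (.nd (nat_lit 9) 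
(.lf (nat_lit 489932) (.g (nat_lit 837) (.e (nat_lit 49188) (nat_lit 11) (.e (nat_lit 16466) (nat_lit 13) (.e (nat_lit 483371) (nat_lit 21) .nil))) (.g (nat_lit 0) (.e (nat_lit 142622) (nat_lit 0) .nil) .nil))) 
(.lf (nat_lit 490444) (.g (nat_lit 1722) (.e (nat_lit 163860) (nat_lit 1) (.e (nat_lit 164330) (nat_lit 230) (.e (nat_lit 163902) (nat_lit 12) (.e (nat_lit 426438) (nat_lit 18) .nil)))) (.g (nat_lit 0) (.e (nat_lit 143699) (nat_lit 0) .nil) .nil))))))) (.nd (nat_lit 6) (.nd (nat_lit 7) (.nd (nat_lit 8) (.nd (nat_lit 9) 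
(.lf (nat_lit 489516) (.g (nat_lit 3178) (.e (nat_lit 16469) (nat_lit 14) (.e (nat_lit 491537) (nat_lit 2) (.e (nat_lit 90170) (nat_lit 13) (.e (nat_lit 172113) (nat_lit 10) (.e (nat_lit 434247) (nat_lit 28) (.e (nat_lit 573469) (nat_lit 11) .nil)))))) (.g (nat_lit 1) (.e (nat_lit 141052) (nat_lit 0) .nil) .nil))) 
(.lf (nat_lit 490028) (.g (nat_lit 1738) (.e (nat_lit 49189) (nat_lit 11) (.e (nat_lit 16425) (nat_lit 7) (.e (nat_lit 409645) (nat_lit 18) (.e (nat_lit 303143) (nat_lit 12) (.e (nat_lit 475199) (nat_lit 40) .nil))))) (.g (nat_lit 0) (.e (nat_lit 142757) (nat_lit 0) .nil) .nil)))) (.nd (nat_lit 9) 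
(.lf (nat_lit 489772) (.g (nat_lit 998) (.e (nat_lit 49157) (nat_lit 0) (.e (nat_lit 3026) (nat_lit 187) (.e (nat_lit 458496) (nat_lit 9) (.e (nat_lit 565268) (nat_lit 5) (.e (nat_lit 73791) (nat_lit 45) (.e (nat_lit 1163) (nat_lit 86) .nil)))))) (.g (nat_lit 1) (.e (nat_lit 142271) (nat_lit 0) .nil) .nil))) 
(.lf (nat_lit 490284) (.g (nat_lit 5731) (.e (nat_lit 163844) (nat_lit 0) (.e (nat_lit 5943) (nat_lit 322) (.e (nat_lit 57375) (nat_lit 2) (.e (nat_lit 90172) (nat_lit 14) (.e (nat_lit 180250) (nat_lit 10) (.e (nat_lit 573489) (nat_lit 14) (.e (nat_lit 73755) (nat_lit 8) (.e (nat_lit 557090) (nat_lit 12) .nil)))))))) (.g (nat_lit 1) (.e (nat_lit 143168) (nat_lit 0) .nil) .nil))))) 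
(.nd (nat_lit 8) (.nd (nat_lit 9) 
(.lf (nat_lit 489644) (.g (nat_lit 2526) (.e (nat_lit 32807) (nat_lit 18) (.e (nat_lit 172120) (nat_lit 12) (.e (nat_lit 475183) (nat_lit 29) (.e (nat_lit 557103) (nat_lit 14) (.e (nat_lit 180288) (nat_lit 45) .nil))))) (.g (nat_lit 0) (.e (nat_lit 141788) (nat_lit 0) .nil) .nil))) 
(.lf (nat_lit 490156) (.g (nat_lit 3114) (.e (nat_lit 49189) (nat_lit 11) (.e (nat_lit 16425) (nat_lit 7) (.e (nat_lit 409649) (nat_lit 18) (.e (nat_lit 303143) (nat_lit 12) (.e (nat_lit 475198) (nat_lit 40) (.e (nat_lit 704790) (nat_lit 14) (.e (nat_lit 2590) (nat_lit 162) .nil))))))) (.g (nat_lit 1) (.e (nat_lit 142885) (nat_lit 0) .nil) .nil)))) (.nd (nat_lit 9) 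
(.lf (nat_lit 489900) (.g (nat_lit 1401) (.e (nat_lit 49188) (nat_lit 11) (.e (nat_lit 16425) (nat_lit 7) (.e (nat_lit 409648) (nat_lit 18) (.e (nat_lit 303142) (nat_lit 12) .nil)))) (.g (nat_lit 0) (.e (nat_lit 142580) (nat_lit 0) .nil) .nil))) 
(.lf (nat_lit 490412) (.g (nat_lit 2238) (.e (nat_lit 163853) (nat_lit 0) (.e (nat_lit 5224) (nat_lit 296) (.e (nat_lit 163903) (nat_lit 12) (.e (nat_lit 426568) (nat_lit 34) (.e (nat_lit 393271) (nat_lit 23) .nil))))) (.g (nat_lit 0) (.e (nat_lit 143572) (nat_lit 0) .nil) .nil)))))) (.nd (nat_lit 7) (.nd (nat_lit 8) (.nd (nat_lit 9) 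
(.lf (nat_lit 489580) (.g (nat_lit 1190) (.e (nat_lit 32803) (nat_lit 16) (.e (nat_lit 24628) (nat_lit 9) (.e (nat_lit 336019) (nat_lit 3) (.e (nat_lit 98384) (nat_lit 32) .nil)))) (.g (nat_lit 0) (.e (nat_lit 141383) (nat_lit 0) .nil) .nil))) 
(.lf (nat_lit 490092) (.g (nat_lit 2454) (.e (nat_lit 49189) (nat_lit 11) (.e (nat_lit 16425) (nat_lit 7) (.e (nat_lit 409648) (nat_lit 18) (.e (nat_lit 303137) (nat_lit 10) (.e (nat_lit 434271) (nat_lit 38) (.e (nat_lit 655400) (nat_lit 14) (.e (nat_lit 2587) (nat_lit 162) .nil))))))) (.g (nat_lit 1) (.e (nat_lit 142821) (nat_lit 0) .nil) .nil)))) (.nd (nat_lit 9) 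
(.lf (nat_lit 489836) (.g (nat_lit 3145) (.e (nat_lit 49187) (nat_lit 11) (.e (nat_lit 16425) (nat_lit 7) (.e (nat_lit 409646) (nat_lit 18) (.e (nat_lit 303143) (nat_lit 12) (.e (nat_lit 475198) (nat_lit 40) (.e (nat_lit 704790) (nat_lit 14) (.e (nat_lit 2587) (nat_lit 162) .nil))))))) (.g (nat_lit 1) (.e (nat_lit 142467) (nat_lit 0) .nil) .nil))) 
(.lf (nat_lit 490348) (.g (nat_lit 1579) (.e (nat_lit 163849) (nat_lit 0) (.e (nat_lit 6420) (nat_lit 341) (.e (nat_lit 163902) (nat_lit 12) (.e (nat_lit 426093) (nat_lit 0) .nil)))) (.g (nat_lit 0) (.e (nat_lit 143285) (nat_lit 0) .nil) .nil))))) (.nd (nat_lit 8) (.nd (nat_lit 9) 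
(.lf (nat_lit 489708) (.g (nat_lit 2274) (.e (nat_lit 32808) (nat_lit 19) (.e (nat_lit 180277) (nat_lit 32) (.e (nat_lit 1234) (nat_lit 91) (.e (nat_lit 90174) (nat_lit 14) (.e (nat_lit 180287) (nat_lit 45) .nil))))) (.g (nat_lit 0) (.e (nat_lit 141946) (nat_lit 0) .nil) .nil))) 
(.lf (nat_lit 490220) (.g (nat_lit 2230) (.e (nat_lit 40996) (nat_lit 11) (.e (nat_lit 24658) (nat_lit 13) (.e (nat_lit 393238) (nat_lit 17) (.e (nat_lit 6983) (nat_lit 377) (.e (nat_lit 2762) (nat_lit 176) (.e (nat_lit 270348) (nat_lit 3) .nil)))))) (.g (nat_lit 1) (.e (nat_lit 143013) (nat_lit 0) .nil) .nil)))) (.nd (nat_lit 9) 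
(.lf (nat_lit 489964) (.g (nat_lit 2714) (.e (nat_lit 49188) (nat_lit 11) (.e (nat_lit 16473) (nat_lit 14) (.e (nat_lit 491560) (nat_lit 10) (.e (nat_lit 344160) (nat_lit 37) .nil)))) (.g (nat_lit 0) (.e (nat_lit 142672) (nat_lit 0) .nil) .nil))) 
(.lf (nat_lit 490476) (.g (nat_lit 1221) (.e (nat_lit 163862) (nat_lit 1) (.e (nat_lit 164332) (nat_lit 230) (.e (nat_lit 163902) (nat_lit 12) (.e (nat_lit 426438) (nat_lit 18) .nil)))) (.g (nat_lit 0) (.e (nat_lit 143891) (nat_lit 0) .nil) .nil)))))))) (.nd (nat_lit 5) (.nd (nat_lit 6) (.nd (nat_lit 7) (.nd (nat_lit 8) (.nd (nat_lit 9) 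
(.lf (nat_lit 489500) (.g (nat_lit 1424) (.e (nat_lit 16468) (nat_lit 13) (.e (nat_lit 483372) (nat_lit 21) (.e (nat_lit 319505) (nat_lit 10) (.e (nat_lit 4916) (nat_lit 287) .nil)))) (.g (nat_lit 0) (.e (nat_lit 141009) (nat_lit 0) .nil) .nil))) 
(.lf (nat_lit 490012) (.g (nat_lit 3173) (.e (nat_lit 49189) (nat_lit 11) (.e (nat_lit 16425) (nat_lit 7) (.e (nat_lit 409644) (nat_lit 18) (.e (nat_lit 303143) (nat_lit 12) (.e (nat_lit 475198) (nat_lit 40) (.e (nat_lit 704790) (nat_lit 14) (.e (nat_lit 2592) (nat_lit 162) .nil))))))) (.g (nat_lit 1) (.e (nat_lit 142741) (nat_lit 0) .nil) .nil)))) (.nd (nat_lit 9) 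
(.lf (nat_lit 489756) (.g (nat_lit 1526) (.e (nat_lit 49156) (nat_lit 0) (.e (nat_lit 3026) (nat_lit 187) (.e (nat_lit 450584) (nat_lit 9) (.e (nat_lit 565268) (nat_lit 5) (.e (nat_lit 73791) (nat_lit 45) (.e (nat_lit 1162) (nat_lit 86) .nil)))))) (.g (nat_lit 1) (.e (nat_lit 142236) (nat_lit 0) .nil) .nil))) 
(.lf (nat_lit 490268) (.g (nat_lit 2245) (.e (nat_lit 163844) (nat_lit 0) (.e (nat_lit 3248) (nat_lit 197) (.e (nat_lit 532534) (nat_lit 9) (.e (nat_lit 336019) (nat_lit 3) (.e (nat_lit 98342) (nat_lit 20) .nil))))) (.g (nat_lit 0) (.e (nat_lit 143136) (nat_lit 0) .nil) .nil))))) (.nd (nat_lit 8) (.nd (nat_lit 9) 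
(.lf (nat_lit 489628) (.g (nat_lit 3574) (.e (nat_lit 32807) (nat_lit 18) (.e (nat_lit 172119) (nat_lit 12) (.e (nat_lit 475185) (nat_lit 29) (.e (nat_lit 557098) (nat_lit 13) (.e (nat_lit 172080) (nat_lit 7) .nil))))) (.g (nat_lit 0) (.e (nat_lit 141772) (nat_lit 0) .nil) .nil))) 
(.lf (nat_lit 490140) (.g (nat_lit 2022) (.e (nat_lit 49189) (nat_lit 11) (.e (nat_lit 16425) (nat_lit 7) (.e (nat_lit 409649) (nat_lit 18) (.e (nat_lit 303140) (nat_lit 10) (.e (nat_lit 434271) (nat_lit 38) (.e (nat_lit 663296) (nat_lit 14) (.e (nat_lit 2597) (nat_lit 162) .nil))))))) (.g (nat_lit 1) (.e (nat_lit 142869) (nat_lit 0) .nil) .nil)))) (.nd (nat_lit 9) 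
(.lf (nat_lit 489884) (.g (nat_lit 2664) (.e (nat_lit 49188) (nat_lit 11) (.e (nat_lit 16416) (nat_lit 3) (.e (nat_lit 204868) (nat_lit 29) (.e (nat_lit 360473) (nat_lit 8) .nil)))) (.g (nat_lit 0) (.e (nat_lit 142563) (nat_lit 0) .nil) .nil))) 
(.lf (nat_lit 490396) (.g (nat_lit 3932) (.e (nat_lit 163852) (nat_lit 0) (.e (nat_lit 6426) (nat_lit 342) (.e (nat_lit 229409) (nat_lit 13) (.e (nat_lit 434231) (nat_lit 23) (.e (nat_lit 532550) (nat_lit 12) (.e (nat_lit 360475) (nat_lit 8) (.e (nat_lit 557091) (nat_lit 12) .nil))))))) (.g (nat_lit 1) (.e (nat_lit 143539) (nat_lit 0) .nil) .nil)))))) 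
(.nd (nat_lit 7) (.nd (nat_lit 8) (.nd (nat_lit 9) 
(.lf (nat_lit 489564) (.g (nat_lit 4782) (.e (nat_lit 16473) (nat_lit 14) (.e (nat_lit 491538) (nat_lit 3) (.e (nat_lit 98359) (nat_lit 26) (.e (nat_lit 426286) (nat_lit 10) (.e (nat_lit 434248) (nat_lit 28) (.e (nat_lit 573471) (nat_lit 11) .nil)))))) (.g (nat_lit 1) (.e (nat_lit 141145) (nat_lit 0) .nil) .nil))) 
(.lf (nat_lit 490076) (.g (nat_lit 2987) (.e (nat_lit 49189) (nat_lit 11) (.e (nat_lit 16425) (nat_lit 7) (.e (nat_lit 409647) (nat_lit 18) (.e (nat_lit 303143) (nat_lit 12) (.e (nat_lit 475220) (nat_lit 44) (.e (nat_lit 737318) (nat_lit 15) .nil)))))) (.g (nat_lit 1) (.e (nat_lit 142805) (nat_lit 0) .nil) .nil)))) (.nd (nat_lit 9) 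
(.lf (nat_lit 489820) (.g (nat_lit 1788) (.e (nat_lit 49187) (nat_lit 11) (.e (nat_lit 16425) (nat_lit 7) (.e (nat_lit 409643) (nat_lit 18) (.e (nat_lit 303133) (nat_lit 9) (.e (nat_lit 426412) (nat_lit 15) (.e (nat_lit 2233) (nat_lit 146) (.e (nat_lit 737318) (nat_lit 15) .nil))))))) (.g (nat_lit 1) (.e (nat_lit 142451) (nat_lit 0) .nil) .nil))) 
(.lf (nat_lit 490332) (.g (nat_lit 463) (.e (nat_lit 163848) (nat_lit 0) (.e (nat_lit 6255) (nat_lit 337) (.e (nat_lit 2725) (nat_lit 172) .nil))) (.g (nat_lit 0) (.e (nat_lit 143250) (nat_lit 0) .nil) .nil))))) (.nd (nat_lit 8) (.nd (nat_lit 9) 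
(.lf (nat_lit 489692) (.g (nat_lit 3197) (.e (nat_lit 32807) (nat_lit 18) (.e (nat_lit 172126) (nat_lit 14) (.e (nat_lit 491537) (nat_lit 2) (.e (nat_lit 90172) (nat_lit 14) (.e (nat_lit 180285) (nat_lit 45) (.e (nat_lit 2571) (nat_lit 160) .nil)))))) (.g (nat_lit 1) (.e (nat_lit 141873) (nat_lit 0) .nil) .nil))) 
(.lf (nat_lit 490204) (.g (nat_lit 1496) (.e (nat_lit 40993) (nat_lit 11) (.e (nat_lit 24628) (nat_lit 9) (.e (nat_lit 336438) (nat_lit 31) (.e (nat_lit 458769) (nat_lit 16) (.e (nat_lit 164271) (nat_lit 221) (.e (nat_lit 7936) (nat_lit 161) .nil)))))) (.g (nat_lit 1) (.e (nat_lit 142985) (nat_lit 0) .nil) .nil)))) (.nd (nat_lit 9) 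
(.lf (nat_lit 489948) (.g (nat_lit 2366) (.e (nat_lit 49188) (nat_lit 11) (.e (nat_lit 16466) (nat_lit 13) (.e (nat_lit 483372) (nat_lit 21) (.e (nat_lit 319526) (nat_lit 15) .nil)))) (.g (nat_lit 0) (.e (nat_lit 142638) (nat_lit 0) .nil) .nil))) 
(.lf (nat_lit 490460) (.g (nat_lit 3465) (.e (nat_lit 163861) (nat_lit 1) (.e (nat_lit 164330) (nat_lit 230) (.e (nat_lit 163902) (nat_lit 12) (.e (nat_lit 426472) (nat_lit 25) (.e (nat_lit 319534) (nat_lit 16) (.e (nat_lit 286749) (nat_lit 9) (.e (nat_lit 335997) (nat_lit 1) (.e (nat_lit 57686) (nat_lit 156) .nil)))))))) (.g (nat_lit 1) (.e (nat_lit 143790) (nat_lit 0) .nil) .nil))))))) 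
(.nd (nat_lit 6) (.nd (nat_lit 7) (.nd (nat_lit 8) (.nd (nat_lit 9) 
(.lf (nat_lit 489532) (.g (nat_lit 998) (.e (nat_lit 16470) (nat_lit 14) (.e (nat_lit 491571) (nat_lit 13) (.e (nat_lit 393279) (nat_lit 23) (.e (nat_lit 426110) (nat_lit 1) .nil)))) (.g (nat_lit 0) (.e (nat_lit 141072) (nat_lit 0) .nil) .nil))) 
(.lf (nat_lit 490044) (.g (nat_lit 2328) (.e (nat_lit 49189) (nat_lit 11) (.e (nat_lit 16425) (nat_lit 7) (.e (nat_lit 409646) (nat_lit 18) (.e (nat_lit 303143) (nat_lit 12) (.e (nat_lit 475197) (nat_lit 40) (.e (nat_lit 704790) (nat_lit 14) (.e (nat_lit 2591) (nat_lit 162) .nil))))))) (.g (nat_lit 1) (.e (nat_lit 142773) (nat_lit 0) .nil) .nil)))) (.nd (nat_lit 9) 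
(.lf (nat_lit 489788) (.g (nat_lit 1869) (.e (nat_lit 49185) (nat_lit 11) (.e (nat_lit 16425) (nat_lit 7) (.e (nat_lit 409646) (nat_lit 18) (.e (nat_lit 303143) (nat_lit 12) (.e (nat_lit 475199) (nat_lit 40) .nil))))) (.g (nat_lit 0) (.e (nat_lit 142401) (nat_lit 0) .nil) .nil))) 
(.lf (nat_lit 490300) (.g (nat_lit 2668) (.e (nat_lit 163847) (nat_lit 0) (.e (nat_lit 5934) (nat_lit 322) (.e (nat_lit 57373) (nat_lit 2) (.e (nat_lit 90174) (nat_lit 14) (.e (nat_lit 180251) (nat_lit 10) .nil))))) (.g (nat_lit 0) (.e (nat_lit 143205) (nat_lit 0) .nil) .nil))))) (.nd (nat_lit 8) (.nd (nat_lit 9) 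
(.lf (nat_lit 489660) (.g (nat_lit 2415) (.e (nat_lit 32807) (nat_lit 18) (.e (nat_lit 172120) (nat_lit 12) (.e (nat_lit 475185) (nat_lit 29) (.e (nat_lit 557105) (nat_lit 14) (.e (nat_lit 180282) (nat_lit 45) .nil))))) (.g (nat_lit 0) (.e (nat_lit 141806) (nat_lit 0) .nil) .nil))) 
(.lf (nat_lit 490172) (.g (nat_lit 1487) (.e (nat_lit 49189) (nat_lit 11) (.e (nat_lit 16436) (nat_lit 9) (.e (nat_lit 426550) (nat_lit 31) (.e (nat_lit 368656) (nat_lit 14) (.e (nat_lit 57796) (nat_lit 245) (.e (nat_lit 7936) (nat_lit 86) .nil)))))) (.g (nat_lit 1) (.e (nat_lit 142912) (nat_lit 0) .nil) .nil)))) (.nd (nat_lit 9) 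
(.lf (nat_lit 489916) (.g (nat_lit 1456) (.e (nat_lit 49188) (nat_lit 11) (.e (nat_lit 16465) (nat_lit 13) (.e (nat_lit 483371) (nat_lit 21) (.e (nat_lit 319527) (nat_lit 15) .nil)))) (.g (nat_lit 0) (.e (nat_lit 142603) (nat_lit 0) .nil) .nil))) 
(.lf (nat_lit 490428) (.g (nat_lit 1608) (.e (nat_lit 171776) (nat_lit 0) (.e (nat_lit 5199) (nat_lit 294) (.e (nat_lit 57407) (nat_lit 12) (.e (nat_lit 336367) (nat_lit 27) (.e (nat_lit 426546) (nat_lit 30) .nil))))) (.g (nat_lit 0) (.e (nat_lit 143612) (nat_lit 0) .nil) .nil)))))) (.nd (nat_lit 7) (.nd (nat_lit 8) (.nd (nat_lit 9) 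
(.lf (nat_lit 489596) (.g (nat_lit 2798) (.e (nat_lit 32806) (nat_lit 18) (.e (nat_lit 172126) (nat_lit 14) (.e (nat_lit 491537) (nat_lit 2) (.e (nat_lit 90172) (nat_lit 14) (.e (nat_lit 180285) (nat_lit 45) .nil))))) (.g (nat_lit 0) (.e (nat_lit 141416) (nat_lit 0) .nil) .nil))) 
(.lf (nat_lit 490108) (.g (nat_lit 1299) (.e (nat_lit 49189) (nat_lit 11) (.e (nat_lit 16425) (nat_lit 7) (.e (nat_lit 409648) (nat_lit 18) (.e (nat_lit 303142) (nat_lit 12) .nil)))) (.g (nat_lit 0) (.e (nat_lit 142837) (nat_lit 0) .nil) .nil)))) (.nd (nat_lit 9) 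
(.lf (nat_lit 489852) (.g (nat_lit 1265) (.e (nat_lit 49187) (nat_lit 11) (.e (nat_lit 16425) (nat_lit 7) (.e (nat_lit 409648) (nat_lit 18) (.e (nat_lit 303143) (nat_lit 12) .nil)))) (.g (nat_lit 0) (.e (nat_lit 142483) (nat_lit 0) .nil) .nil))) 
(.lf (nat_lit 490364) (.g (nat_lit 2406) (.e (nat_lit 163850) (nat_lit 0) (.e (nat_lit 3304) (nat_lit 202) (.e (nat_lit 573489) (nat_lit 14) (.e (nat_lit 73755) (nat_lit 8) (.e (nat_lit 557098) (nat_lit 13) .nil))))) (.g (nat_lit 0) (.e (nat_lit 143323) (nat_lit 0) .nil) .nil))))) (.nd (nat_lit 8) (.nd (nat_lit 9) 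
(.lf (nat_lit 489724) (.g (nat_lit 1714) (.e (nat_lit 32808) (nat_lit 19) (.e (nat_lit 180278) (nat_lit 32) (.e (nat_lit 1235) (nat_lit 91) (.e (nat_lit 90170) (nat_lit 13) (.e (nat_lit 172078) (nat_lit 7) .nil))))) (.g (nat_lit 0) (.e (nat_lit 141962) (nat_lit 0) .nil) .nil))) 
(.lf (nat_lit 490236) (.g (nat_lit 1454) (.e (nat_lit 40997) (nat_lit 11) (.e (nat_lit 24625) (nat_lit 9) (.e (nat_lit 336438) (nat_lit 31) (.e (nat_lit 458769) (nat_lit 16) (.e (nat_lit 164271) (nat_lit 221) (.e (nat_lit 7936) (nat_lit 161) .nil)))))) (.g (nat_lit 1) (.e (nat_lit 143045) (nat_lit 0) .nil) .nil)))) (.nd (nat_lit 9) 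
(.lf (nat_lit 489980) (.g (nat_lit 5391) (.e (nat_lit 49189) (nat_lit 11) (.e (nat_lit 16416) (nat_lit 3) (.e (nat_lit 204869) (nat_lit 29) (.e (nat_lit 360475) (nat_lit 8) (.e (nat_lit 557119) (nat_lit 18) .nil))))) (.g (nat_lit 0) (.e (nat_lit 142707) (nat_lit 0) .nil) .nil))) 
(.lf (nat_lit 490492) (.g (nat_lit 4322) (.e (nat_lit 163864) (nat_lit 1) (.e (nat_lit 164329) (nat_lit 230) (.e (nat_lit 163902) (nat_lit 12) (.e (nat_lit 426438) (nat_lit 18) (.e (nat_lit 98373) (nat_lit 29) (.e (nat_lit 450563) (nat_lit 0) (.e (nat_lit 6839) (nat_lit 369) .nil))))))) (.g (nat_lit 1) (.e (nat_lit 144029) (nat_lit 0) .nil) .nil))))))))))) 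
(.nd (nat_lit 2) (.nd (nat_lit 3) (.nd (nat_lit 4) (.nd (nat_lit 5) (.nd (nat_lit 6) 
(.nd (nat_lit 7) (.nd (nat_lit 8) (.nd (nat_lit 9) 
(.lf (nat_lit 489474) (.g (nat_lit 1783) (.e (nat_lit 16468) (nat_lit 13) (.e (nat_lit 483341) (nat_lit 9) (.e (nat_lit 426107) (nat_lit 1) (.e (nat_lit 164327) (nat_lit 230) (.e (nat_lit 163871) (nat_lit 2) .nil))))) (.g (nat_lit 0) (.e (nat_lit 140948) (nat_lit 0) .nil) .nil))) 
(.lf (nat_lit 489986) (.g (nat_lit 3091) (.e (nat_lit 49189) (nat_lit 11) (.e (nat_lit 16425) (nat_lit 7) (.e (nat_lit 409623) (nat_lit 10) (.e (nat_lit 5664) (nat_lit 312) (.e (nat_lit 3062) (nat_lit 190) (.e (nat_lit 475198) (nat_lit 40) (.e (nat_lit 704790) (nat_lit 14) (.e (nat_lit 2590) (nat_lit 162) .nil)))))))) (.g (nat_lit 1) (.e (nat_lit 142715) (nat_lit 0) .nil) .nil)))) 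
(.nd (nat_lit 9) 
(.lf (nat_lit 489730) (.g (nat_lit 2180) (.e (nat_lit 32808) (nat_lit 19) (.e (nat_lit 180278) (nat_lit 32) (.e (nat_lit 1253) (nat_lit 92) (.e (nat_lit 98367) (nat_lit 27) (.e (nat_lit 434186) (nat_lit 13) .nil))))) (.g (nat_lit 0) (.e (nat_lit 141969) (nat_lit 0) .nil) .nil))) 
(.lf (nat_lit 490242) (.g (nat_lit 2894) (.e (nat_lit 163840) (nat_lit 0) (.e (nat_lit 3307) (nat_lit 202) (.e (nat_lit 573489) (nat_lit 14) (.e (nat_lit 73755) (nat_lit 8) (.e (nat_lit 557098) (nat_lit 13) .nil))))) (.g (nat_lit 0) (.e (nat_lit 143055) (nat_lit 0) .nil) .nil))))) (.nd (nat_lit 8) (.nd (nat_lit 9) 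
(.lf (nat_lit 489602) (.g (nat_lit 578) (.e (nat_lit 32806) (nat_lit 18) (.e (nat_lit 172126) (nat_lit 14) (.e (nat_lit 491540) (nat_lit 3) .nil))) (.g (nat_lit 0) (.e (nat_lit 141425) (nat_lit 0) .nil) .nil))) 
(.lf (nat_lit 490114) (.g (nat_lit 3077) (.e (nat_lit 49189) (nat_lit 11) (.e (nat_lit 16425) (nat_lit 7) (.e (nat_lit 409648) (nat_lit 18) (.e (nat_lit 303142) (nat_lit 12) (.e (nat_lit 475199) (nat_lit 40) (.e (nat_lit 704836) (nat_lit 14) (.e (nat_lit 2591) (nat_lit 162) .nil))))))) (.g (nat_lit 1) (.e (nat_lit 142843) (nat_lit 0) .nil) .nil)))) (.nd (nat_lit 9) 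
(.lf (nat_lit 489858) (.g (nat_lit 2034) (.e (nat_lit 49187) (nat_lit 11) (.e (nat_lit 16425) (nat_lit 7) (.e (nat_lit 409649) (nat_lit 18) (.e (nat_lit 303143) (nat_lit 12) (.e (nat_lit 475197) (nat_lit 40) (.e (nat_lit 704790) (nat_lit 14) (.e (nat_lit 2587) (nat_lit 162) .nil))))))) (.g (nat_lit 1) (.e (nat_lit 142489) (nat_lit 0) .nil) .nil))) 
(.lf (nat_lit 490370) (.g (nat_lit 4372) (.e (nat_lit 163850) (nat_lit 0) (.e (nat_lit 3304) (nat_lit 202) (.e (nat_lit 573493) (nat_lit 15) (.e (nat_lit 81953) (nat_lit 22) (.e (nat_lit 90170) (nat_lit 13) (.e (nat_lit 172070) (nat_lit 4) (.e (nat_lit 229679) (nat_lit 244) .nil))))))) (.g (nat_lit 1) (.e (nat_lit 143340) (nat_lit 0) .nil) .nil)))))) 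
(.nd (nat_lit 7) (.nd (nat_lit 8) (.nd (nat_lit 9) 
(.lf (nat_lit 489538) (.g (nat_lit 3012) (.e (nat_lit 16471) (nat_lit 14) (.e (nat_lit 491537) (nat_lit 2) (.e (nat_lit 90170) (nat_lit 13) (.e (nat_lit 172113) (nat_lit 10) (.e (nat_lit 434247) (nat_lit 28) (.e (nat_lit 573469) (nat_lit 11) .nil)))))) (.g (nat_lit 1) (.e (nat_lit 141085) (nat_lit 0) .nil) .nil))) 
(.lf (nat_lit 490050) (.g (nat_lit 3046) (.e (nat_lit 49189) (nat_lit 11) (.e (nat_lit 16425) (nat_lit 7) (.e (nat_lit 409646) (nat_lit 18) (.e (nat_lit 303143) (nat_lit 12) (.e (nat_lit 475199) (nat_lit 40) (.e (nat_lit 704777) (nat_lit 14) (.e (nat_lit 2587) (nat_lit 162) .nil))))))) (.g (nat_lit 1) (.e (nat_lit 142779) (nat_lit 0) .nil) .nil)))) (.nd (nat_lit 9) 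
(.lf (nat_lit 489794) (.g (nat_lit 1776) (.e (nat_lit 49185) (nat_lit 11) (.e (nat_lit 16425) (nat_lit 7) (.e (nat_lit 409648) (nat_lit 18) (.e (nat_lit 303142) (nat_lit 12) (.e (nat_lit 475220) (nat_lit 44) .nil))))) (.g (nat_lit 0) (.e (nat_lit 142407) (nat_lit 0) .nil) .nil))) 
(.lf (nat_lit 490306) (.g (nat_lit 5018) (.e (nat_lit 163847) (nat_lit 0) (.e (nat_lit 6255) (nat_lit 337) (.e (nat_lit 2630) (nat_lit 164) (.e (nat_lit 172064) (nat_lit 2) (.e (nat_lit 196666) (nat_lit 13) (.e (nat_lit 65617) (nat_lit 10) (.e (nat_lit 344133) (nat_lit 26) (.e (nat_lit 557091) (nat_lit 12) .nil)))))))) (.g (nat_lit 1) (.e (nat_lit 143214) (nat_lit 0) .nil) .nil))))) 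
(.nd (nat_lit 8) (.nd (nat_lit 9) 
(.lf (nat_lit 489666) (.g (nat_lit 2026) (.e (nat_lit 32807) (nat_lit 18) (.e (nat_lit 172124) (nat_lit 14) (.e (nat_lit 491537) (nat_lit 2) (.e (nat_lit 90169) (nat_lit 13) .nil)))) (.g (nat_lit 0) (.e (nat_lit 141821) (nat_lit 0) .nil) .nil))) 
(.lf (nat_lit 490178) (.g (nat_lit 874) (.e (nat_lit 49189) (nat_lit 11) (.e (nat_lit 16463) (nat_lit 13) (.e (nat_lit 483413) (nat_lit 27) .nil))) (.g (nat_lit 0) (.e (nat_lit 142932) (nat_lit 0) .nil) .nil)))) (.nd (nat_lit 9) 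
(.lf (nat_lit 489922) (.g (nat_lit 2548) (.e (nat_lit 49188) (nat_lit 11) (.e (nat_lit 16466) (nat_lit 13) (.e (nat_lit 483350) (nat_lit 17) (.e (nat_lit 6113) (nat_lit 332) (.e (nat_lit 1335) (nat_lit 101) .nil))))) (.g (nat_lit 0) (.e (nat_lit 142611) (nat_lit 0) .nil) .nil))) 
(.lf (nat_lit 490434) (.g (nat_lit 1458) (.e (nat_lit 163859) (nat_lit 1) (.e (nat_lit 164327) (nat_lit 230) (.e (nat_lit 163886) (nat_lit 5) (.e (nat_lit 221219) (nat_lit 24) .nil)))) (.g (nat_lit 0) (.e (nat_lit 143669) (nat_lit 0) .nil) .nil))))))) (.nd (nat_lit 6) (.nd (nat_lit 7) (.nd (nat_lit 8) (.nd (nat_lit 9) 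
(.lf (nat_lit 489506) (.g (nat_lit 1495) (.e (nat_lit 16468) (nat_lit 13) (.e (nat_lit 483372) (nat_lit 21) (.e (nat_lit 319506) (nat_lit 10) (.e (nat_lit 4994) (nat_lit 288) .nil)))) (.g (nat_lit 0) (.e (nat_lit 141019) (nat_lit 0) .nil) .nil))) 
(.lf (nat_lit 490018) (.g (nat_lit 2210) (.e (nat_lit 49189) (nat_lit 11) (.e (nat_lit 16425) (nat_lit 7) (.e (nat_lit 409645) (nat_lit 18) (.e (nat_lit 303143) (nat_lit 12) (.e (nat_lit 475197) (nat_lit 40) (.e (nat_lit 704770) (nat_lit 14) (.e (nat_lit 2595) (nat_lit 162) .nil))))))) (.g (nat_lit 1) (.e (nat_lit 142747) (nat_lit 0) .nil) .nil)))) (.nd (nat_lit 9) 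
(.lf (nat_lit 489762) (.g (nat_lit 804) (.e (nat_lit 49156) (nat_lit 0) (.e (nat_lit 3062) (nat_lit 190) (.e (nat_lit 475157) (nat_lit 21) .nil))) (.g (nat_lit 0) (.e (nat_lit 142242) (nat_lit 0) .nil) .nil))) 
(.lf (nat_lit 490274) (.g (nat_lit 2062) (.e (nat_lit 163844) (nat_lit 0) (.e (nat_lit 3471) (nat_lit 217) (.e (nat_lit 696344) (nat_lit 8) (.e (nat_lit 172079) (nat_lit 7) (.e (nat_lit 409645) (nat_lit 18) (.e (nat_lit 303133) (nat_lit 9) (.e (nat_lit 426042) (nat_lit 0) (.e (nat_lit 2429) (nat_lit 157) (.e (nat_lit 5966) (nat_lit 324) .nil))))))))) (.g (nat_lit 1) (.e (nat_lit 143158) (nat_lit 0) .nil) .nil))))) 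
(.nd (nat_lit 8) (.nd (nat_lit 9) 
(.lf (nat_lit 489634) (.g (nat_lit 2789) (.e (nat_lit 32807) (nat_lit 18) (.e (nat_lit 172119) (nat_lit 12) (.e (nat_lit 475185) (nat_lit 29) (.e (nat_lit 557103) (nat_lit 14) (.e (nat_lit 180287) (nat_lit 45) (.e (nat_lit 2571) (nat_lit 160) .nil)))))) (.g (nat_lit 1) (.e (nat_lit 141778) (nat_lit 0) .nil) .nil))) 
(.lf (nat_lit 490146) (.g (nat_lit 2183) (.e (nat_lit 49189) (nat_lit 11) (.e (nat_lit 16425) (nat_lit 7) (.e (nat_lit 409649) (nat_lit 18) (.e (nat_lit 303140) (nat_lit 10) (.e (nat_lit 434272) (nat_lit 38) (.e (nat_lit 663296) (nat_lit 14) (.e (nat_lit 2591) (nat_lit 162) .nil))))))) (.g (nat_lit 1) (.e (nat_lit 142875) (nat_lit 0) .nil) .nil)))) (.nd (nat_lit 9) 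
(.lf (nat_lit 489890) (.g (nat_lit 6237) (.e (nat_lit 49188) (nat_lit 11) (.e (nat_lit 16416) (nat_lit 3) (.e (nat_lit 204869) (nat_lit 29) (.e (nat_lit 360475) (nat_lit 8) (.e (nat_lit 557121) (nat_lit 18) .nil))))) (.g (nat_lit 0) (.e (nat_lit 142569) (nat_lit 0) .nil) .nil))) 
(.lf (nat_lit 490402) (.g (nat_lit 3525) (.e (nat_lit 163852) (nat_lit 0) (.e (nat_lit 6428) (nat_lit 342) (.e (nat_lit 229409) (nat_lit 13) (.e (nat_lit 434231) (nat_lit 23) (.e (nat_lit 532550) (nat_lit 12) (.e (nat_lit 360475) (nat_lit 8) (.e (nat_lit 557091) (nat_lit 12) .nil))))))) (.g (nat_lit 1) (.e (nat_lit 143548) (nat_lit 0) .nil) .nil)))))) 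
(.nd (nat_lit 7) (.nd (nat_lit 8) (.nd (nat_lit 9) 
(.lf (nat_lit 489570) (.g (nat_lit 3321) (.e (nat_lit 16473) (nat_lit 14) (.e (nat_lit 491560) (nat_lit 10) (.e (nat_lit 344179) (nat_lit 44) (.e (nat_lit 778454) (nat_lit 10) (.e (nat_lit 8543) (nat_lit 229) (.e (nat_lit 229656) (nat_lit 234) .nil)))))) (.g (nat_lit 1) (.e (nat_lit 141154) (nat_lit 0) .nil) .nil))) 
(.lf (nat_lit 490082) (.g (nat_lit 1935) (.e (nat_lit 49189) (nat_lit 11) (.e (nat_lit 16425) (nat_lit 7) (.e (nat_lit 409648) (nat_lit 18) (.e (nat_lit 303137) (nat_lit 10) (.e (nat_lit 434200) (nat_lit 18) (.e (nat_lit 5925) (nat_lit 321) (.e (nat_lit 8300) (nat_lit 55) .nil))))))) (.g (nat_lit 1) (.e (nat_lit 142811) (nat_lit 0) .nil) .nil)))) (.nd (nat_lit 9) 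
(.lf (nat_lit 489826) (.g (nat_lit 2093) (.e (nat_lit 49187) (nat_lit 11) (.e (nat_lit 16425) (nat_lit 7) (.e (nat_lit 409643) (nat_lit 18) (.e (nat_lit 303143) (nat_lit 12) (.e (nat_lit 475216) (nat_lit 44) .nil))))) (.g (nat_lit 0) (.e (nat_lit 142457) (nat_lit 0) .nil) .nil))) 
(.lf (nat_lit 490338) (.g (nat_lit 3841) (.e (nat_lit 163849) (nat_lit 0) (.e (nat_lit 6255) (nat_lit 337) (.e (nat_lit 2630) (nat_lit 164) (.e (nat_lit 172065) (nat_lit 3) (.e (nat_lit 204869) (nat_lit 29) (.e (nat_lit 360474) (nat_lit 8) (.e (nat_lit 557094) (nat_lit 12) .nil))))))) (.g (nat_lit 1) (.e (nat_lit 143262) (nat_lit 0) .nil) .nil))))) (.nd (nat_lit 8) (.nd (nat_lit 9) 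
(.lf (nat_lit 489698) (.g (nat_lit 988) (.e (nat_lit 32807) (nat_lit 18) (.e (nat_lit 172126) (nat_lit 14) (.e (nat_lit 491539) (nat_lit 3) .nil))) (.g (nat_lit 0) (.e (nat_lit 141881) (nat_lit 0) .nil) .nil))) 
(.lf (nat_lit 490210) (.g (nat_lit 2654) (.e (nat_lit 40994) (nat_lit 11) (.e (nat_lit 24665) (nat_lit 14) (.e (nat_lit 401460) (nat_lit 14) (.e (nat_lit 491566) (nat_lit 12) .nil)))) (.g (nat_lit 0) (.e (nat_lit 142998) (nat_lit 0) .nil) .nil)))) (.nd (nat_lit 9) 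
(.lf (nat_lit 489954) (.g (nat_lit 1196) (.e (nat_lit 49188) (nat_lit 11) (.e (nat_lit 16466) (nat_lit 13) (.e (nat_lit 483377) (nat_lit 22) (.e (nat_lit 327705) (nat_lit 10) .nil)))) (.g (nat_lit 0) (.e (nat_lit 142645) (nat_lit 0) .nil) .nil))) 
(.lf (nat_lit 490466) (.g (nat_lit 475) (.e (nat_lit 163861) (nat_lit 1) (.e (nat_lit 164332) (nat_lit 230) (.e (nat_lit 163905) (nat_lit 12) .nil))) (.g (nat_lit 0) (.e (nat_lit 143825) (nat_lit 0) .nil) .nil)))))))) (.nd (nat_lit 5) (.nd (nat_lit 6) (.nd (nat_lit 7) (.nd (nat_lit 8) (.nd (nat_lit 9) 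
(.lf (nat_lit 489490) (.g (nat_lit 189) (.e (nat_lit 16468) (nat_lit 13) (.e (nat_lit 483372) (nat_lit 21) (.e (nat_lit 319504) (nat_lit 10) .nil))) (.g (nat_lit 0) (.e (nat_lit 140996) (nat_lit 0) .nil) .nil))) 
(.lf (nat_lit 490002) (.g (nat_lit 2947) (.e (nat_lit 49189) (nat_lit 11) (.e (nat_lit 16425) (nat_lit 7) (.e (nat_lit 409643) (nat_lit 18) (.e (nat_lit 303143) (nat_lit 12) (.e (nat_lit 475199) (nat_lit 40) (.e (nat_lit 704790) (nat_lit 14) (.e (nat_lit 2587) (nat_lit 162) .nil))))))) (.g (nat_lit 1) (.e (nat_lit 142731) (nat_lit 0) .nil) .nil)))) (.nd (nat_lit 9) 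
(.lf (nat_lit 489746) (.g (nat_lit 1118) (.e (nat_lit 49156) (nat_lit 0) (.e (nat_lit 3012) (nat_lit 187) (.e (nat_lit 450584) (nat_lit 9) (.e (nat_lit 565268) (nat_lit 5) (.e (nat_lit 73789) (nat_lit 45) (.e (nat_lit 1162) (nat_lit 86) .nil)))))) (.g (nat_lit 1) (.e (nat_lit 142218) (nat_lit 0) .nil) .nil))) 
(.lf (nat_lit 490258) (.g (nat_lit 1072) (.e (nat_lit 163843) (nat_lit 0) (.e (nat_lit 6416) (nat_lit 341) (.e (nat_lit 163941) (nat_lit 19) (.e (nat_lit 491264) (nat_lit 11) .nil)))) (.g (nat_lit 0) (.e (nat_lit 143124) (nat_lit 0) .nil) .nil))))) (.nd (nat_lit 8) (.nd (nat_lit 9) 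
(.lf (nat_lit 489618) (.g (nat_lit 2294) (.e (nat_lit 32807) (nat_lit 18) (.e (nat_lit 172118) (nat_lit 12) (.e (nat_lit 475185) (nat_lit 29) (.e (nat_lit 557103) (nat_lit 14) (.e (nat_lit 180284) (nat_lit 45) (.e (nat_lit 2571) (nat_lit 160) .nil)))))) (.g (nat_lit 1) (.e (nat_lit 141761) (nat_lit 0) .nil) .nil))) 
(.lf (nat_lit 490130) (.g (nat_lit 3027) (.e (nat_lit 49189) (nat_lit 11) (.e (nat_lit 16425) (nat_lit 7) (.e (nat_lit 409649) (nat_lit 18) (.e (nat_lit 303140) (nat_lit 10) (.e (nat_lit 434275) (nat_lit 39) (.e (nat_lit 663590) (nat_lit 14) (.e (nat_lit 1157) (nat_lit 86) .nil))))))) (.g (nat_lit 1) (.e (nat_lit 142859) (nat_lit 0) .nil) .nil)))) (.nd (nat_lit 9) 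
(.lf (nat_lit 489874) (.g (nat_lit 2885) (.e (nat_lit 49187) (nat_lit 11) (.e (nat_lit 16473) (nat_lit 14) (.e (nat_lit 491560) (nat_lit 10) (.e (nat_lit 344159) (nat_lit 37) .nil)))) (.g (nat_lit 0) (.e (nat_lit 142538) (nat_lit 0) .nil) .nil))) 
(.lf (nat_lit 490386) (.g (nat_lit 1480) (.e (nat_lit 163851) (nat_lit 0) (.e (nat_lit 3307) (nat_lit 202) (.e (nat_lit 573489) (nat_lit 14) (.e (nat_lit 73754) (nat_lit 8) .nil)))) (.g (nat_lit 0) (.e (nat_lit 143508) (nat_lit 0) .nil) .nil)))))) (.nd (nat_lit 7) (.nd (nat_lit 8) (.nd (nat_lit 9) 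
(.lf (nat_lit 489554) (.g (nat_lit 4070) (.e (nat_lit 16472) (nat_lit 14) (.e (nat_lit 491538) (nat_lit 3) (.e (nat_lit 98359) (nat_lit 26) (.e (nat_lit 426286) (nat_lit 10) (.e (nat_lit 434248) (nat_lit 28) (.e (nat_lit 573469) (nat_lit 11) .nil)))))) (.g (nat_lit 1) (.e (nat_lit 141106) (nat_lit 0) .nil) .nil))) 
(.lf (nat_lit 490066) (.g (nat_lit 1644) (.e (nat_lit 49189) (nat_lit 11) (.e (nat_lit 16425) (nat_lit 7) (.e (nat_lit 409647) (nat_lit 18) (.e (nat_lit 303143) (nat_lit 12) (.e (nat_lit 475198) (nat_lit 40) .nil))))) (.g (nat_lit 0) (.e (nat_lit 142795) (nat_lit 0) .nil) .nil)))) (.nd (nat_lit 9) 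
(.lf (nat_lit 489810) (.g (nat_lit 719) (.e (nat_lit 49185) (nat_lit 11) (.e (nat_lit 16466) (nat_lit 13) (.e (nat_lit 483372) (nat_lit 21) .nil))) (.g (nat_lit 0) (.e (nat_lit 142426) (nat_lit 0) .nil) .nil))) 
(.lf (nat_lit 490322) (.g (nat_lit 4269) (.e (nat_lit 163848) (nat_lit 0) (.e (nat_lit 6252) (nat_lit 337) (.e (nat_lit 2630) (nat_lit 164) (.e (nat_lit 172062) (nat_lit 2) (.e (nat_lit 196666) (nat_lit 13) (.e (nat_lit 65617) (nat_lit 10) (.e (nat_lit 344133) (nat_lit 26) (.e (nat_lit 557089) (nat_lit 12) .nil)))))))) (.g (nat_lit 1) (.e (nat_lit 143237) (nat_lit 0) .nil) .nil))))) 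
(.nd (nat_lit 8) (.nd (nat_lit 9) 
(.lf (nat_lit 489682) (.g (nat_lit 1900) (.e (nat_lit 32807) (nat_lit 18) (.e (nat_lit 172126) (nat_lit 14) (.e (nat_lit 491537) (nat_lit 2) (.e (nat_lit 90169) (nat_lit 13) .nil)))) (.g (nat_lit 0) (.e (nat_lit 141863) (nat_lit 0) .nil) .nil))) 
(.lf (nat_lit 490194) (.g (nat_lit 707) (.e (nat_lit 40964) (nat_lit 0) (.e (nat_lit 1582) (nat_lit 111) (.e (nat_lit 368384) (nat_lit 11) (.e (nat_lit 581652) (nat_lit 5) (.e (nat_lit 180285) (nat_lit 45) (.e (nat_lit 2580) (nat_lit 161) .nil)))))) (.g (nat_lit 1) (.e (nat_lit 142960) (nat_lit 0) .nil) .nil)))) (.nd (nat_lit 9) 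
(.lf (nat_lit 489938) (.g (nat_lit 3281) (.e (nat_lit 49188) (nat_lit 11) (.e (nat_lit 16466) (nat_lit 13) (.e (nat_lit 483372) (nat_lit 21) (.e (nat_lit 319504) (nat_lit 10) (.e (nat_lit 4925) (nat_lit 287) .nil))))) (.g (nat_lit 0) (.e (nat_lit 142628) (nat_lit 0) .nil) .nil))) 
(.lf (nat_lit 490450) (.g (nat_lit 2030) (.e (nat_lit 163860) (nat_lit 1) (.e (nat_lit 164332) (nat_lit 230) (.e (nat_lit 163902) (nat_lit 12) (.e (nat_lit 426438) (nat_lit 18) (.e (nat_lit 98374) (nat_lit 29) .nil))))) (.g (nat_lit 0) (.e (nat_lit 143725) (nat_lit 0) .nil) .nil))))))) (.nd (nat_lit 6) (.nd (nat_lit 7) (.nd (nat_lit 8) (.nd (nat_lit 9) 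
(.lf (nat_lit 489522) (.g (nat_lit 5766) (.e (nat_lit 16470) (nat_lit 14) (.e (nat_lit 491537) (nat_lit 2) (.e (nat_lit 90170) (nat_lit 13) (.e (nat_lit 172113) (nat_lit 10) (.e (nat_lit 434247) (nat_lit 28) (.e (nat_lit 573469) (nat_lit 11) .nil)))))) (.g (nat_lit 1) (.e (nat_lit 141062) (nat_lit 0) .nil) .nil))) 
(.lf (nat_lit 490034) (.g (nat_lit 2863) (.e (nat_lit 49189) (nat_lit 11) (.e (nat_lit 16425) (nat_lit 7) (.e (nat_lit 409645) (nat_lit 18) (.e (nat_lit 303143) (nat_lit 12) (.e (nat_lit 475199) (nat_lit 40) (.e (nat_lit 704836) (nat_lit 14) (.e (nat_lit 2590) (nat_lit 162) .nil))))))) (.g (nat_lit 1) (.e (nat_lit 142763) (nat_lit 0) .nil) .nil)))) (.nd (nat_lit 9) 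
(.lf (nat_lit 489778) (.g (nat_lit 606) (.e (nat_lit 57088) (nat_lit 6) (.e (nat_lit 188449) (nat_lit 22) (.e (nat_lit 204544) (nat_lit 0) .nil))) (.g (nat_lit 0) (.e (nat_lit 142314) (nat_lit 0) .nil) .nil))) 
(.lf (nat_lit 490290) (.g (nat_lit 5162) (.e (nat_lit 163844) (nat_lit 0) (.e (nat_lit 5943) (nat_lit 322) (.e (nat_lit 57379) (nat_lit 3) (.e (nat_lit 98367) (nat_lit 27) (.e (nat_lit 434248) (nat_lit 28) (.e (nat_lit 573489) (nat_lit 14) (.e (nat_lit 73755) (nat_lit 8) (.e (nat_lit 557090) (nat_lit 12) .nil)))))))) (.g (nat_lit 1) (.e (nat_lit 143174) (nat_lit 0) .nil) .nil))))) 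
(.nd (nat_lit 8) (.nd (nat_lit 9) 
(.lf (nat_lit 489650) (.g (nat_lit 2845) (.e (nat_lit 32807) (nat_lit 18) (.e (nat_lit 172120) (nat_lit 12) (.e (nat_lit 475185) (nat_lit 29) (.e (nat_lit 557100) (nat_lit 13) (.e (nat_lit 172080) (nat_lit 7) .nil))))) (.g (nat_lit 0) (.e (nat_lit 141794) (nat_lit 0) .nil) .nil))) 
(.lf (nat_lit 490162) (.g (nat_lit 2898) (.e (nat_lit 49189) (nat_lit 11) (.e (nat_lit 16425) (nat_lit 7) (.e (nat_lit 409649) (nat_lit 18) (.e (nat_lit 303143) (nat_lit 12) (.e (nat_lit 475199) (nat_lit 40) (.e (nat_lit 704814) (nat_lit 14) (.e (nat_lit 2587) (nat_lit 162) .nil))))))) (.g (nat_lit 1) (.e (nat_lit 142891) (nat_lit 0) .nil) .nil)))) (.nd (nat_lit 9) 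
(.lf (nat_lit 489906) (.g (nat_lit 897) (.e (nat_lit 49188) (nat_lit 11) (.e (nat_lit 16435) (nat_lit 9) (.e (nat_lit 426550) (nat_lit 31) (.e (nat_lit 368656) (nat_lit 14) .nil)))) (.g (nat_lit 0) (.e (nat_lit 142586) (nat_lit 0) .nil) .nil))) 
(.lf (nat_lit 490418) (.g (nat_lit 2981) (.e (nat_lit 163854) (nat_lit 0) (.e (nat_lit 3307) (nat_lit 202) (.e (nat_lit 573489) (nat_lit 14) (.e (nat_lit 73755) (nat_lit 8) (.e (nat_lit 557098) (nat_lit 13) .nil))))) (.g (nat_lit 0) (.e (nat_lit 143584) (nat_lit 0) .nil) .nil)))))) (.nd (nat_lit 7) (.nd (nat_lit 8) (.nd (nat_lit 9) 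
(.lf (nat_lit 489586) (.g (nat_lit 2086) (.e (nat_lit 32806) (nat_lit 18) (.e (nat_lit 172126) (nat_lit 14) (.e (nat_lit 491535) (nat_lit 2) (.e (nat_lit 90172) (nat_lit 14) (.e (nat_lit 180285) (nat_lit 45) .nil))))) (.g (nat_lit 0) (.e (nat_lit 141404) (nat_lit 0) .nil) .nil))) 
(.lf (nat_lit 490098) (.g (nat_lit 2610) (.e (nat_lit 49189) (nat_lit 11) (.e (nat_lit 16425) (nat_lit 7) (.e (nat_lit 409648) (nat_lit 18) (.e (nat_lit 303137) (nat_lit 10) (.e (nat_lit 434271) (nat_lit 38) (.e (nat_lit 663296) (nat_lit 14) (.e (nat_lit 2597) (nat_lit 162) .nil))))))) (.g (nat_lit 1) (.e (nat_lit 142827) (nat_lit 0) .nil) .nil)))) (.nd (nat_lit 9) 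
(.lf (nat_lit 489842) (.g (nat_lit 2047) (.e (nat_lit 49187) (nat_lit 11) (.e (nat_lit 16425) (nat_lit 7) (.e (nat_lit 409647) (nat_lit 18) (.e (nat_lit 303143) (nat_lit 12) (.e (nat_lit 475198) (nat_lit 40) (.e (nat_lit 704790) (nat_lit 14) (.e (nat_lit 2587) (nat_lit 162) .nil))))))) (.g (nat_lit 1) (.e (nat_lit 142473) (nat_lit 0) .nil) .nil))) 
(.lf (nat_lit 490354) (.g (nat_lit 2262) (.e (nat_lit 163850) (nat_lit 0) (.e (nat_lit 3238) (nat_lit 197) (.e (nat_lit 532513) (nat_lit 3) (.e (nat_lit 114714) (nat_lit 22) (.e (nat_lit 90172) (nat_lit 14) .nil))))) (.g (nat_lit 0) (.e (nat_lit 143297) (nat_lit 0) .nil) .nil))))) (.nd (nat_lit 8) (.nd (nat_lit 9) 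
(.lf (nat_lit 489714) (.g (nat_lit 2401) (.e (nat_lit 32808) (nat_lit 19) (.e (nat_lit 180277) (nat_lit 32) (.e (nat_lit 1235) (nat_lit 91) (.e (nat_lit 90174) (nat_lit 14) (.e (nat_lit 180288) (nat_lit 45) (.e (nat_lit 2571) (nat_lit 160) .nil)))))) (.g (nat_lit 1) (.e (nat_lit 141952) (nat_lit 0) .nil) .nil))) 
(.lf (nat_lit 490226) (.g (nat_lit 3078) (.e (nat_lit 40996) (nat_lit 11) (.e (nat_lit 24658) (nat_lit 13) (.e (nat_lit 393260) (nat_lit 21) (.e (nat_lit 409617) (nat_lit 10) (.e (nat_lit 4926) (nat_lit 287) (.e (nat_lit 2577) (nat_lit 161) .nil)))))) (.g (nat_lit 1) (.e (nat_lit 143019) (nat_lit 0) .nil) .nil)))) (.nd (nat_lit 9) 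
(.lf (nat_lit 489970) (.g (nat_lit 619) (.e (nat_lit 49189) (nat_lit 11) (.e (nat_lit 16412) (nat_lit 2) (.e (nat_lit 196666) (nat_lit 13) .nil))) (.g (nat_lit 0) (.e (nat_lit 142682) (nat_lit 0) .nil) .nil))) 
(.lf (nat_lit 490482) (.g (nat_lit 4770) (.e (nat_lit 163863) (nat_lit 1) (.e (nat_lit 164325) (nat_lit 230) (.e (nat_lit 163903) (nat_lit 12) (.e (nat_lit 426438) (nat_lit 18) (.e (nat_lit 98373) (nat_lit 29) (.e (nat_lit 450562) (nat_lit 0) (.e (nat_lit 6839) (nat_lit 369) .nil))))))) (.g (nat_lit 1) (.e (nat_lit 143925) (nat_lit 0) .nil) .nil))))))))) 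
(.nd (nat_lit 4) (.nd (nat_lit 5) (.nd (nat_lit 6) (.nd (nat_lit 7) (.nd (nat_lit 8) 
(.nd (nat_lit 9) 
(.lf (nat_lit 489482) (.g (nat_lit 1158) (.e (nat_lit 16468) (nat_lit 13) (.e (nat_lit 483350) (nat_lit 17) (.e (nat_lit 6218) (nat_lit 333) (.e (nat_lit 57810) (nat_lit 246) .nil)))) (.g (nat_lit 0) (.e (nat_lit 140984) (nat_lit 0) .nil) .nil))) 
(.lf (nat_lit 489994) (.g (nat_lit 2270) (.e (nat_lit 49189) (nat_lit 11) (.e (nat_lit 16425) (nat_lit 7) (.e (nat_lit 409643) (nat_lit 18) (.e (nat_lit 303143) (nat_lit 12) (.e (nat_lit 475197) (nat_lit 40) (.e (nat_lit 704789) (nat_lit 14) (.e (nat_lit 2591) (nat_lit 162) .nil))))))) (.g (nat_lit 1) (.e (nat_lit 142723) (nat_lit 0) .nil) .nil)))) (.nd (nat_lit 9) 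
(.lf (nat_lit 489738) (.g (nat_lit 1646) (.e (nat_lit 32809) (nat_lit 20) (.e (nat_lit 188420) (nat_lit 0) (.e (nat_lit 1856) (nat_lit 124) (.e (nat_lit 557103) (nat_lit 14) (.e (nat_lit 188160) (nat_lit 45) (.e (nat_lit 2569) (nat_lit 160) .nil)))))) (.g (nat_lit 1) (.e (nat_lit 142007) (nat_lit 0) .nil) .nil))) 
(.lf (nat_lit 490250) (.g (nat_lit 2024) (.e (nat_lit 163841) (nat_lit 0) (.e (nat_lit 6255) (nat_lit 337) (.e (nat_lit 2630) (nat_lit 164) (.e (nat_lit 172065) (nat_lit 3) (.e (nat_lit 204868) (nat_lit 29) .nil))))) (.g (nat_lit 0) (.e (nat_lit 143084) (nat_lit 0) .nil) .nil))))) (.nd (nat_lit 8) (.nd (nat_lit 9) 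
(.lf (nat_lit 489610) (.g (nat_lit 968) (.e (nat_lit 32807) (nat_lit 18) (.e (nat_lit 172082) (nat_lit 7) (.e (nat_lit 409617) (nat_lit 10) (.e (nat_lit 7936) (nat_lit 43) .nil)))) (.g (nat_lit 0) (.e (nat_lit 141466) (nat_lit 0) .nil) .nil))) 
(.lf (nat_lit 490122) (.g (nat_lit 1950) (.e (nat_lit 49189) (nat_lit 11) (.e (nat_lit 16425) (nat_lit 7) (.e (nat_lit 409648) (nat_lit 18) (.e (nat_lit 303143) (nat_lit 12) (.e (nat_lit 475199) (nat_lit 40) .nil))))) (.g (nat_lit 0) (.e (nat_lit 142851) (nat_lit 0) .nil) .nil)))) (.nd (nat_lit 9) 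
(.lf (nat_lit 489866) (.g (nat_lit 2568) (.e (nat_lit 49187) (nat_lit 11) (.e (nat_lit 16473) (nat_lit 14) (.e (nat_lit 491558) (nat_lit 10) (.e (nat_lit 344160) (nat_lit 37) .nil)))) (.g (nat_lit 0) (.e (nat_lit 142529) (nat_lit 0) .nil) .nil))) 
(.lf (nat_lit 490378) (.g (nat_lit 265) (.e (nat_lit 163850) (nat_lit 0) (.e (nat_lit 6273) (nat_lit 337) (.e (nat_lit 2635) (nat_lit 165) .nil))) (.g (nat_lit 0) (.e (nat_lit 143494) (nat_lit 0) .nil) .nil)))))) (.nd (nat_lit 7) (.nd (nat_lit 8) (.nd (nat_lit 9) 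
(.lf (nat_lit 489546) (.g (nat_lit 3621) (.e (nat_lit 16472) (nat_lit 14) (.e (nat_lit 491536) (nat_lit 2) (.e (nat_lit 90170) (nat_lit 13) (.e (nat_lit 172113) (nat_lit 10) (.e (nat_lit 434245) (nat_lit 28) (.e (nat_lit 573469) (nat_lit 11) .nil)))))) (.g (nat_lit 1) (.e (nat_lit 141096) (nat_lit 0) .nil) .nil))) 
(.lf (nat_lit 490058) (.g (nat_lit 2833) (.e (nat_lit 49189) (nat_lit 11) (.e (nat_lit 16425) (nat_lit 7) (.e (nat_lit 409646) (nat_lit 18) (.e (nat_lit 303143) (nat_lit 12) (.e (nat_lit 475220) (nat_lit 44) (.e (nat_lit 745216) (nat_lit 15) .nil)))))) (.g (nat_lit 1) (.e (nat_lit 142787) (nat_lit 0) .nil) .nil)))) (.nd (nat_lit 9) 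
(.lf (nat_lit 489802) (.g (nat_lit 957) (.e (nat_lit 49185) (nat_lit 11) (.e (nat_lit 16436) (nat_lit 9) (.e (nat_lit 426550) (nat_lit 31) (.e (nat_lit 368656) (nat_lit 14) .nil)))) (.g (nat_lit 0) (.e (nat_lit 142417) (nat_lit 0) .nil) .nil))) 
(.lf (nat_lit 490314) (.g (nat_lit 1425) (.e (nat_lit 163847) (nat_lit 0) (.e (nat_lit 6420) (nat_lit 341) (.e (nat_lit 163902) (nat_lit 12) (.e (nat_lit 425986) (nat_lit 0) .nil)))) (.g (nat_lit 0) (.e (nat_lit 143226) (nat_lit 0) .nil) .nil))))) (.nd (nat_lit 8) (.nd (nat_lit 9) 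
(.lf (nat_lit 489674) (.g (nat_lit 3023) (.e (nat_lit 32807) (nat_lit 18) (.e (nat_lit 172124) (nat_lit 14) (.e (nat_lit 491540) (nat_lit 3) (.e (nat_lit 98359) (nat_lit 26) (.e (nat_lit 426170) (nat_lit 7) (.e (nat_lit 409631) (nat_lit 12) .nil)))))) (.g (nat_lit 1) (.e (nat_lit 141831) (nat_lit 0) .nil) .nil))) 
(.lf (nat_lit 490186) (.g (nat_lit 3181) (.e (nat_lit 49191) (nat_lit 12) (.e (nat_lit 57476) (nat_lit 28) (.e (nat_lit 557087) (nat_lit 11) (.e (nat_lit 24655) (nat_lit 13) (.e (nat_lit 393258) (nat_lit 20) .nil))))) (.g (nat_lit 0) (.e (nat_lit 142949) (nat_lit 0) .nil) .nil)))) (.nd (nat_lit 9) 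
(.lf (nat_lit 489930) (.g (nat_lit 2655) (.e (nat_lit 49188) (nat_lit 11) (.e (nat_lit 16466) (nat_lit 13) (.e (nat_lit 483350) (nat_lit 17) (.e (nat_lit 6218) (nat_lit 333) (.e (nat_lit 57794) (nat_lit 245) .nil))))) (.g (nat_lit 0) (.e (nat_lit 142620) (nat_lit 0) .nil) .nil))) 
(.lf (nat_lit 490442) (.g (nat_lit 3130) (.e (nat_lit 163860) (nat_lit 1) (.e (nat_lit 164330) (nat_lit 230) (.e (nat_lit 163902) (nat_lit 12) (.e (nat_lit 426422) (nat_lit 16) (.e (nat_lit 57688) (nat_lit 156) (.e (nat_lit 163933) (nat_lit 17) (.e (nat_lit 466972) (nat_lit 21) (.e (nat_lit 164332) (nat_lit 230) .nil)))))))) (.g (nat_lit 1) (.e (nat_lit 143696) (nat_lit 0) .nil) .nil))))))) 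
(.nd (nat_lit 6) (.nd (nat_lit 7) (.nd (nat_lit 8) (.nd (nat_lit 9) 
(.lf (nat_lit 489514) (.g (nat_lit 507) (.e (nat_lit 16468) (nat_lit 13) (.e (nat_lit 483372) (nat_lit 21) (.e (nat_lit 327424) (nat_lit 18) .nil))) (.g (nat_lit 0) (.e (nat_lit 141030) (nat_lit 0) .nil) .nil))) 
(.lf (nat_lit 490026) (.g (nat_lit 2064) (.e (nat_lit 49189) (nat_lit 11) (.e (nat_lit 16425) (nat_lit 7) (.e (nat_lit 409645) (nat_lit 18) (.e (nat_lit 303143) (nat_lit 12) (.e (nat_lit 475198) (nat_lit 40) .nil))))) (.g (nat_lit 0) (.e (nat_lit 142755) (nat_lit 0) .nil) .nil)))) (.nd (nat_lit 9) 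
(.lf (nat_lit 489770) (.g (nat_lit 2000) (.e (nat_lit 49157) (nat_lit 0) (.e (nat_lit 3026) (nat_lit 187) (.e (nat_lit 450584) (nat_lit 9) (.e (nat_lit 565268) (nat_lit 5) (.e (nat_lit 73792) (nat_lit 45) (.e (nat_lit 1162) (nat_lit 86) .nil)))))) (.g (nat_lit 1) (.e (nat_lit 142269) (nat_lit 0) .nil) .nil))) 
(.lf (nat_lit 490282) (.g (nat_lit 1995) (.e (nat_lit 163844) (nat_lit 0) (.e (nat_lit 5940) (nat_lit 322) (.e (nat_lit 57379) (nat_lit 3) (.e (nat_lit 98367) (nat_lit 27) (.e (nat_lit 434242) (nat_lit 28) .nil))))) (.g (nat_lit 0) (.e (nat_lit 143166) (nat_lit 0) .nil) .nil))))) (.nd (nat_lit 8) (.nd (nat_lit 9) 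
(.lf (nat_lit 489642) (.g (nat_lit 2640) (.e (nat_lit 32807) (nat_lit 18) (.e (nat_lit 172119) (nat_lit 12) (.e (nat_lit 475185) (nat_lit 29) (.e (nat_lit 557105) (nat_lit 14) (.e (nat_lit 180288) (nat_lit 45) (.e (nat_lit 2570) (nat_lit 160) .nil)))))) (.g (nat_lit 1) (.e (nat_lit 141786) (nat_lit 0) .nil) .nil))) 
(.lf (nat_lit 490154) (.g (nat_lit 2172) (.e (nat_lit 49189) (nat_lit 11) (.e (nat_lit 16425) (nat_lit 7) (.e (nat_lit 409649) (nat_lit 18) (.e (nat_lit 303143) (nat_lit 12) (.e (nat_lit 475197) (nat_lit 40) (.e (nat_lit 704790) (nat_lit 14) (.e (nat_lit 2590) (nat_lit 162) .nil))))))) (.g (nat_lit 1) (.e (nat_lit 142883) (nat_lit 0) .nil) .nil)))) (.nd (nat_lit 9) 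
(.lf (nat_lit 489898) (.g (nat_lit 1251) (.e (nat_lit 49188) (nat_lit 11) (.e (nat_lit 16425) (nat_lit 7) (.e (nat_lit 409646) (nat_lit 18) (.e (nat_lit 303133) (nat_lit 9) .nil)))) (.g (nat_lit 0) (.e (nat_lit 142578) (nat_lit 0) .nil) .nil))) 
(.lf (nat_lit 490410) (.g (nat_lit 1022) (.e (nat_lit 163853) (nat_lit 0) (.e (nat_lit 5224) (nat_lit 296) (.e (nat_lit 163903) (nat_lit 12) (.e (nat_lit 426566) (nat_lit 34) .nil)))) (.g (nat_lit 0) (.e (nat_lit 143570) (nat_lit 0) .nil) .nil)))))) (.nd (nat_lit 7) (.nd (nat_lit 8) (.nd (nat_lit 9) 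
(.lf (nat_lit 489578) (.g (nat_lit 736) (.e (nat_lit 16487) (nat_lit 27) (.e (nat_lit 335894) (nat_lit 0) (.e (nat_lit 6712) (nat_lit 360) .nil))) (.g (nat_lit 0) (.e (nat_lit 141300) (nat_lit 0) .nil) .nil))) 
(.lf (nat_lit 490090) (.g (nat_lit 2850) (.e (nat_lit 49189) (nat_lit 11) (.e (nat_lit 16425) (nat_lit 7) (.e (nat_lit 409648) (nat_lit 18) (.e (nat_lit 303137) (nat_lit 10) (.e (nat_lit 434275) (nat_lit 39) (.e (nat_lit 671488) (nat_lit 14) (.e (nat_lit 1168) (nat_lit 86) .nil))))))) (.g (nat_lit 1) (.e (nat_lit 142819) (nat_lit 0) .nil) .nil)))) (.nd (nat_lit 9) 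
(.lf (nat_lit 489834) (.g (nat_lit 1210) (.e (nat_lit 49187) (nat_lit 11) (.e (nat_lit 16425) (nat_lit 7) (.e (nat_lit 409646) (nat_lit 18) (.e (nat_lit 303143) (nat_lit 12) .nil)))) (.g (nat_lit 0) (.e (nat_lit 142465) (nat_lit 0) .nil) .nil))) 
(.lf (nat_lit 490346) (.g (nat_lit 3870) (.e (nat_lit 163849) (nat_lit 0) (.e (nat_lit 6416) (nat_lit 341) (.e (nat_lit 163900) (nat_lit 12) (.e (nat_lit 426140) (nat_lit 3) (.e (nat_lit 204869) (nat_lit 29) (.e (nat_lit 360475) (nat_lit 8) (.e (nat_lit 557089) (nat_lit 12) .nil))))))) (.g (nat_lit 1) (.e (nat_lit 143277) (nat_lit 0) .nil) .nil))))) (.nd (nat_lit 8) (.nd (nat_lit 9) 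
(.lf (nat_lit 489706) (.g (nat_lit 3122) (.e (nat_lit 32807) (nat_lit 18) (.e (nat_lit 172126) (nat_lit 14) (.e (nat_lit 491540) (nat_lit 3) (.e (nat_lit 98367) (nat_lit 27) (.e (nat_lit 434190) (nat_lit 13) .nil))))) (.g (nat_lit 0) (.e (nat_lit 141897) (nat_lit 0) .nil) .nil))) 
(.lf (nat_lit 490218) (.g (nat_lit 3578) (.e (nat_lit 40996) (nat_lit 11) (.e (nat_lit 24658) (nat_lit 13) (.e (nat_lit 393234) (nat_lit 17) (.e (nat_lit 7110) (nat_lit 380) (.e (nat_lit 164266) (nat_lit 221) (.e (nat_lit 2576) (nat_lit 161) .nil)))))) (.g (nat_lit 1) (.e (nat_lit 143011) (nat_lit 0) .nil) .nil)))) (.nd (nat_lit 9) 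
(.lf (nat_lit 489962) (.g (nat_lit 2820) (.e (nat_lit 49188) (nat_lit 11) (.e (nat_lit 16473) (nat_lit 14) (.e (nat_lit 491560) (nat_lit 10) (.e (nat_lit 344168) (nat_lit 40) (.e (nat_lit 671782) (nat_lit 12) .nil))))) (.g (nat_lit 0) (.e (nat_lit 142670) (nat_lit 0) .nil) .nil))) 
(.lf (nat_lit 490474) (.g (nat_lit 2575) (.e (nat_lit 163862) (nat_lit 1) (.e (nat_lit 164330) (nat_lit 230) (.e (nat_lit 163902) (nat_lit 12) (.e (nat_lit 426428) (nat_lit 17) (.e (nat_lit 90170) (nat_lit 13) .nil))))) (.g (nat_lit 0) (.e (nat_lit 143880) (nat_lit 0) .nil) .nil)))))))) (.nd (nat_lit 5) (.nd (nat_lit 6) (.nd (nat_lit 7) (.nd (nat_lit 8) (.nd (nat_lit 9) 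
(.lf (nat_lit 489498) (.g (nat_lit 680) (.e (nat_lit 16468) (nat_lit 13) (.e (nat_lit 483372) (nat_lit 21) (.e (nat_lit 319504) (nat_lit 10) (.e (nat_lit 7936) (nat_lit 318) .nil)))) (.g (nat_lit 0) (.e (nat_lit 141007) (nat_lit 0) .nil) .nil))) 
(.lf (nat_lit 490010) (.g (nat_lit 2489) (.e (nat_lit 49189) (nat_lit 11) (.e (nat_lit 16425) (nat_lit 7) (.e (nat_lit 409644) (nat_lit 18) (.e (nat_lit 303143) (nat_lit 12) (.e (nat_lit 475198) (nat_lit 40) (.e (nat_lit 704790) (nat_lit 14) (.e (nat_lit 2590) (nat_lit 162) .nil))))))) (.g (nat_lit 1) (.e (nat_lit 142739) (nat_lit 0) .nil) .nil)))) (.nd (nat_lit 9) 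
(.lf (nat_lit 489754) (.g (nat_lit 1717) (.e (nat_lit 49156) (nat_lit 0) (.e (nat_lit 3026) (nat_lit 187) (.e (nat_lit 450584) (nat_lit 9) (.e (nat_lit 565268) (nat_lit 5) (.e (nat_lit 73789) (nat_lit 45) (.e (nat_lit 1162) (nat_lit 86) .nil)))))) (.g (nat_lit 1) (.e (nat_lit 142234) (nat_lit 0) .nil) .nil))) 
(.lf (nat_lit 490266) (.g (nat_lit 1810) (.e (nat_lit 163843) (nat_lit 0) (.e (nat_lit 6830) (nat_lit 367) (.e (nat_lit 57378) (nat_lit 3) (.e (nat_lit 98368) (nat_lit 27) .nil)))) (.g (nat_lit 0) (.e (nat_lit 143134) (nat_lit 0) .nil) .nil))))) (.nd (nat_lit 8) (.nd (nat_lit 9) 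
(.lf (nat_lit 489626) (.g (nat_lit 2246) (.e (nat_lit 32807) (nat_lit 18) (.e (nat_lit 172119) (nat_lit 12) (.e (nat_lit 475183) (nat_lit 29) (.e (nat_lit 557104) (nat_lit 14) (.e (nat_lit 180284) (nat_lit 45) .nil))))) (.g (nat_lit 0) (.e (nat_lit 141770) (nat_lit 0) .nil) .nil))) 
(.lf (nat_lit 490138) (.g (nat_lit 2460) (.e (nat_lit 49189) (nat_lit 11) (.e (nat_lit 16425) (nat_lit 7) (.e (nat_lit 409649) (nat_lit 18) (.e (nat_lit 303140) (nat_lit 10) (.e (nat_lit 434271) (nat_lit 38) (.e (nat_lit 655404) (nat_lit 14) (.e (nat_lit 2591) (nat_lit 162) .nil))))))) (.g (nat_lit 1) (.e (nat_lit 142867) (nat_lit 0) .nil) .nil)))) (.nd (nat_lit 9) 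
(.lf (nat_lit 489882) (.g (nat_lit 2606) (.e (nat_lit 49188) (nat_lit 11) (.e (nat_lit 16412) (nat_lit 2) (.e (nat_lit 196674) (nat_lit 15) (.e (nat_lit 81946) (nat_lit 20) (.e (nat_lit 1858) (nat_lit 124) .nil))))) (.g (nat_lit 0) (.e (nat_lit 142556) (nat_lit 0) .nil) .nil))) 
(.lf (nat_lit 490394) (.g (nat_lit 3134) (.e (nat_lit 163852) (nat_lit 0) (.e (nat_lit 6426) (nat_lit 342) (.e (nat_lit 229409) (nat_lit 13) (.e (nat_lit 434231) (nat_lit 23) (.e (nat_lit 532549) (nat_lit 12) (.e (nat_lit 360473) (nat_lit 8) (.e (nat_lit 557094) (nat_lit 12) .nil))))))) (.g (nat_lit 1) (.e (nat_lit 143537) (nat_lit 0) .nil) .nil)))))) 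
(.nd (nat_lit 7) (.nd (nat_lit 8) (.nd (nat_lit 9) 
(.lf (nat_lit 489562) (.g (nat_lit 4307) (.e (nat_lit 16473) (nat_lit 14) (.e (nat_lit 491536) (nat_lit 2) (.e (nat_lit 90170) (nat_lit 13) (.e (nat_lit 172113) (nat_lit 10) (.e (nat_lit 434245) (nat_lit 28) (.e (nat_lit 573471) (nat_lit 11) .nil)))))) (.g (nat_lit 1) (.e (nat_lit 141143) (nat_lit 0) .nil) .nil))) 
(.lf (nat_lit 490074) (.g (nat_lit 3348) (.e (nat_lit 49189) (nat_lit 11) (.e (nat_lit 16425) (nat_lit 7) (.e (nat_lit 409647) (nat_lit 18) (.e (nat_lit 303143) (nat_lit 12) (.e (nat_lit 475199) (nat_lit 40) (.e (nat_lit 704836) (nat_lit 14) (.e (nat_lit 2591) (nat_lit 162) .nil))))))) (.g (nat_lit 1) (.e (nat_lit 142803) (nat_lit 0) .nil) .nil)))) (.nd (nat_lit 9) 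
(.lf (nat_lit 489818) (.g (nat_lit 1267) (.e (nat_lit 49186) (nat_lit 11) (.e (nat_lit 16465) (nat_lit 13) (.e (nat_lit 483395) (nat_lit 24) (.e (nat_lit 344156) (nat_lit 36) .nil)))) (.g (nat_lit 0) (.e (nat_lit 142439) (nat_lit 0) .nil) .nil))) 
(.lf (nat_lit 490330) (.g (nat_lit 1990) (.e (nat_lit 163848) (nat_lit 0) (.e (nat_lit 6255) (nat_lit 337) (.e (nat_lit 2630) (nat_lit 164) (.e (nat_lit 172065) (nat_lit 3) (.e (nat_lit 204868) (nat_lit 29) .nil))))) (.g (nat_lit 0) (.e (nat_lit 143247) (nat_lit 0) .nil) .nil))))) (.nd (nat_lit 8) (.nd (nat_lit 9) 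
(.lf (nat_lit 489690) (.g (nat_lit 1237) (.e (nat_lit 32807) (nat_lit 18) (.e (nat_lit 172126) (nat_lit 14) (.e (nat_lit 491537) (nat_lit 2) (.e (nat_lit 90172) (nat_lit 14) .nil)))) (.g (nat_lit 0) (.e (nat_lit 141871) (nat_lit 0) .nil) .nil))) 
(.lf (nat_lit 490202) (.g (nat_lit 612) (.e (nat_lit 48896) (nat_lit 6) (.e (nat_lit 81938) (nat_lit 20) (.e (nat_lit 1886) (nat_lit 127) (.e (nat_lit 581652) (nat_lit 5) .nil)))) (.g (nat_lit 0) (.e (nat_lit 142973) (nat_lit 0) .nil) .nil)))) (.nd (nat_lit 9) 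
(.lf (nat_lit 489946) (.g (nat_lit 2560) (.e (nat_lit 49188) (nat_lit 11) (.e (nat_lit 16466) (nat_lit 13) (.e (nat_lit 483372) (nat_lit 21) (.e (nat_lit 319523) (nat_lit 14) .nil)))) (.g (nat_lit 0) (.e (nat_lit 142636) (nat_lit 0) .nil) .nil))) 
(.lf (nat_lit 490458) (.g (nat_lit 4302) (.e (nat_lit 163861) (nat_lit 1) (.e (nat_lit 164329) (nat_lit 230) (.e (nat_lit 163902) (nat_lit 12) (.e (nat_lit 426438) (nat_lit 18) (.e (nat_lit 98373) (nat_lit 29) (.e (nat_lit 450563) (nat_lit 0) (.e (nat_lit 6839) (nat_lit 369) .nil))))))) (.g (nat_lit 1) (.e (nat_lit 143759) (nat_lit 0) .nil) .nil))))))) 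
(.nd (nat_lit 6) (.nd (nat_lit 7) (.nd (nat_lit 8) (.nd (nat_lit 9) 
(.lf (nat_lit 489530) (.g (nat_lit 2639) (.e (nat_lit 16470) (nat_lit 14) (.e (nat_lit 491571) (nat_lit 13) (.e (nat_lit 393238) (nat_lit 17) (.e (nat_lit 7107) (nat_lit 380) (.e (nat_lit 171776) (nat_lit 234) .nil))))) (.g (nat_lit 1) (.e (nat_lit 141070) (nat_lit 0) .nil) .nil))) 
(.lf (nat_lit 490042) (.g (nat_lit 2575) (.e (nat_lit 49189) (nat_lit 11) (.e (nat_lit 16425) (nat_lit 7) (.e (nat_lit 409646) (nat_lit 18) (.e (nat_lit 303143) (nat_lit 12) (.e (nat_lit 475197) (nat_lit 40) (.e (nat_lit 704790) (nat_lit 14) (.e (nat_lit 2587) (nat_lit 162) .nil))))))) (.g (nat_lit 1) (.e (nat_lit 142771) (nat_lit 0) .nil) .nil)))) (.nd (nat_lit 9) 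
(.lf (nat_lit 489786) (.g (nat_lit 1763) (.e (nat_lit 49185) (nat_lit 11) (.e (nat_lit 16425) (nat_lit 7) (.e (nat_lit 409646) (nat_lit 18) (.e (nat_lit 303133) (nat_lit 9) (.e (nat_lit 426412) (nat_lit 15) .nil))))) (.g (nat_lit 0) (.e (nat_lit 142399) (nat_lit 0) .nil) .nil))) 
(.lf (nat_lit 490298) (.g (nat_lit 1312) (.e (nat_lit 163846) (nat_lit 0) (.e (nat_lit 6989) (nat_lit 377) (.e (nat_lit 1361) (nat_lit 102) (.e (nat_lit 286761) (nat_lit 13) (.e (nat_lit 393289) (nat_lit 25) .nil))))) (.g (nat_lit 0) (.e (nat_lit 143199) (nat_lit 0) .nil) .nil))))) (.nd (nat_lit 8) (.nd (nat_lit 9) 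
(.lf (nat_lit 489658) (.g (nat_lit 2239) (.e (nat_lit 32807) (nat_lit 18) (.e (nat_lit 172120) (nat_lit 12) (.e (nat_lit 475185) (nat_lit 29) (.e (nat_lit 557103) (nat_lit 14) (.e (nat_lit 188160) (nat_lit 45) (.e (nat_lit 2569) (nat_lit 160) .nil)))))) (.g (nat_lit 1) (.e (nat_lit 141804) (nat_lit 0) .nil) .nil))) 
(.lf (nat_lit 490170) (.g (nat_lit 899) (.e (nat_lit 49189) (nat_lit 11) (.e (nat_lit 16432) (nat_lit 9) (.e (nat_lit 426550) (nat_lit 31) (.e (nat_lit 368656) (nat_lit 14) (.e (nat_lit 57796) (nat_lit 245) .nil))))) (.g (nat_lit 0) (.e (nat_lit 142904) (nat_lit 0) .nil) .nil)))) (.nd (nat_lit 9) 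
(.lf (nat_lit 489914) (.g (nat_lit 582) (.e (nat_lit 49188) (nat_lit 11) (.e (nat_lit 16465) (nat_lit 13) (.e (nat_lit 491264) (nat_lit 17) .nil))) (.g (nat_lit 0) (.e (nat_lit 142601) (nat_lit 0) .nil) .nil))) 
(.lf (nat_lit 490426) (.g (nat_lit 1515) (.e (nat_lit 163857) (nat_lit 0) (.e (nat_lit 5948) (nat_lit 322) (.e (nat_lit 57377) (nat_lit 3) (.e (nat_lit 98376) (nat_lit 30) (.e (nat_lit 458789) (nat_lit 23) .nil))))) (.g (nat_lit 0) (.e (nat_lit 143608) (nat_lit 0) .nil) .nil)))))) (.nd (nat_lit 7) (.nd (nat_lit 8) (.nd (nat_lit 9) 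
(.lf (nat_lit 489594) (.g (nat_lit 2337) (.e (nat_lit 32806) (nat_lit 18) (.e (nat_lit 172126) (nat_lit 14) (.e (nat_lit 491537) (nat_lit 2) (.e (nat_lit 90170) (nat_lit 13) (.e (nat_lit 172082) (nat_lit 7) (.e (nat_lit 409630) (nat_lit 12) .nil)))))) (.g (nat_lit 1) (.e (nat_lit 141413) (nat_lit 0) .nil) .nil))) 
(.lf (nat_lit 490106) (.g (nat_lit 2109) (.e (nat_lit 49189) (nat_lit 11) (.e (nat_lit 16425) (nat_lit 7) (.e (nat_lit 409648) (nat_lit 18) (.e (nat_lit 303137) (nat_lit 10) (.e (nat_lit 434272) (nat_lit 38) (.e (nat_lit 663296) (nat_lit 14) (.e (nat_lit 2595) (nat_lit 162) .nil))))))) (.g (nat_lit 1) (.e (nat_lit 142835) (nat_lit 0) .nil) .nil)))) (.nd (nat_lit 9) 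
(.lf (nat_lit 489850) (.g (nat_lit 2697) (.e (nat_lit 49187) (nat_lit 11) (.e (nat_lit 16425) (nat_lit 7) (.e (nat_lit 409648) (nat_lit 18) (.e (nat_lit 303142) (nat_lit 12) (.e (nat_lit 475198) (nat_lit 40) (.e (nat_lit 704790) (nat_lit 14) (.e (nat_lit 2587) (nat_lit 162) .nil))))))) (.g (nat_lit 1) (.e (nat_lit 142481) (nat_lit 0) .nil) .nil))) 
(.lf (nat_lit 490362) (.g (nat_lit 3076) (.e (nat_lit 163850) (nat_lit 0) (.e (nat_lit 3304) (nat_lit 202) (.e (nat_lit 573489) (nat_lit 14) (.e (nat_lit 73755) (nat_lit 8) (.e (nat_lit 557097) (nat_lit 13) (.e (nat_lit 179968) (nat_lit 18) (.e (nat_lit 98333) (nat_lit 18) (.e (nat_lit 164329) (nat_lit 230) .nil)))))))) (.g (nat_lit 1) (.e (nat_lit 143321) (nat_lit 0) .nil) .nil))))) 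
(.nd (nat_lit 8) (.nd (nat_lit 9) 
(.lf (nat_lit 489722) (.g (nat_lit 2899) (.e (nat_lit 32808) (nat_lit 19) (.e (nat_lit 180278) (nat_lit 32) (.e (nat_lit 1234) (nat_lit 91) (.e (nat_lit 90174) (nat_lit 14) (.e (nat_lit 180288) (nat_lit 45) (.e (nat_lit 2571) (nat_lit 160) .nil)))))) (.g (nat_lit 1) (.e (nat_lit 141960) (nat_lit 0) .nil) .nil))) 
(.lf (nat_lit 490234) (.g (nat_lit 2381) (.e (nat_lit 40997) (nat_lit 11) (.e (nat_lit 24617) (nat_lit 7) (.e (nat_lit 319534) (nat_lit 16) (.e (nat_lit 286756) (nat_lit 10) (.e (nat_lit 344160) (nat_lit 37) (.e (nat_lit 655104) (nat_lit 14) (.e (nat_lit 2575) (nat_lit 161) .nil))))))) (.g (nat_lit 1) (.e (nat_lit 143043) (nat_lit 0) .nil) .nil)))) (.nd (nat_lit 9) 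
(.lf (nat_lit 489978) (.g (nat_lit 3094) (.e (nat_lit 49189) (nat_lit 11) (.e (nat_lit 16416) (nat_lit 3) (.e (nat_lit 204868) (nat_lit 29) (.e (nat_lit 360475) (nat_lit 8) .nil)))) (.g (nat_lit 0) (.e (nat_lit 142705) (nat_lit 0) .nil) .nil))) 
(.lf (nat_lit 490490) (.g (nat_lit 1921) (.e (nat_lit 163863) (nat_lit 1) (.e (nat_lit 164403) (nat_lit 256) (.e (nat_lit 57447) (nat_lit 19) (.e (nat_lit 393238) (nat_lit 17) .nil)))) (.g (nat_lit 0) (.e (nat_lit 144013) (nat_lit 0) .nil) .nil)))))))))) (.nd (nat_lit 3) (.nd (nat_lit 4) (.nd (nat_lit 5) (.nd (nat_lit 6) (.nd (nat_lit 7) (.nd (nat_lit 8) (.nd (nat_lit 9) 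
(.lf (nat_lit 489478) (.g (nat_lit 540) (.e (nat_lit 16468) (nat_lit 13) (.e (nat_lit 483350) (nat_lit 17) (.e (nat_lit 6210) (nat_lit 333) .nil))) (.g (nat_lit 0) (.e (nat_lit 140976) (nat_lit 0) .nil) .nil))) 
(.lf (nat_lit 489990) (.g (nat_lit 1760) (.e (nat_lit 49189) (nat_lit 11) (.e (nat_lit 16425) (nat_lit 7) (.e (nat_lit 409643) (nat_lit 18) (.e (nat_lit 303143) (nat_lit 12) (.e (nat_lit 475197) (nat_lit 40) .nil))))) (.g (nat_lit 0) (.e (nat_lit 142719) (nat_lit 0) .nil) .nil)))) (.nd (nat_lit 9) 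
(.lf (nat_lit 489734) (.g (nat_lit 2675) (.e (nat_lit 32809) (nat_lit 20) (.e (nat_lit 188418) (nat_lit 0) (.e (nat_lit 1856) (nat_lit 124) (.e (nat_lit 557103) (nat_lit 14) (.e (nat_lit 180285) (nat_lit 45) (.e (nat_lit 2571) (nat_lit 160) .nil)))))) (.g (nat_lit 1) (.e (nat_lit 142003) (nat_lit 0) .nil) .nil))) 
(.lf (nat_lit 490246) (.g (nat_lit 2562) (.e (nat_lit 163841) (nat_lit 0) (.e (nat_lit 3309) (nat_lit 202) (.e (nat_lit 573489) (nat_lit 14) (.e (nat_lit 73755) (nat_lit 8) (.e (nat_lit 557098) (nat_lit 13) .nil))))) (.g (nat_lit 0) (.e (nat_lit 143073) (nat_lit 0) .nil) .nil))))) (.nd (nat_lit 8) (.nd (nat_lit 9) 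
(.lf (nat_lit 489606) (.g (nat_lit 2086) (.e (nat_lit 32806) (nat_lit 18) (.e (nat_lit 172126) (nat_lit 14) (.e (nat_lit 491540) (nat_lit 3) (.e (nat_lit 98367) (nat_lit 27) (.e (nat_lit 434192) (nat_lit 13) .nil))))) (.g (nat_lit 0) (.e (nat_lit 141431) (nat_lit 0) .nil) .nil))) 
(.lf (nat_lit 490118) (.g (nat_lit 3416) (.e (nat_lit 49189) (nat_lit 11) (.e (nat_lit 16425) (nat_lit 7) (.e (nat_lit 409648) (nat_lit 18) (.e (nat_lit 303143) (nat_lit 12) (.e (nat_lit 475198) (nat_lit 40) (.e (nat_lit 704790) (nat_lit 14) (.e (nat_lit 2587) (nat_lit 162) .nil))))))) (.g (nat_lit 1) (.e (nat_lit 142847) (nat_lit 0) .nil) .nil)))) (.nd (nat_lit 9) 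
(.lf (nat_lit 489862) (.g (nat_lit 687) (.e (nat_lit 49187) (nat_lit 11) (.e (nat_lit 16435) (nat_lit 9) (.e (nat_lit 426550) (nat_lit 31) (.e (nat_lit 368656) (nat_lit 14) .nil)))) (.g (nat_lit 0) (.e (nat_lit 142493) (nat_lit 0) .nil) .nil))) 
(.lf (nat_lit 490374) (.g (nat_lit 1956) (.e (nat_lit 163850) (nat_lit 0) (.e (nat_lit 5224) (nat_lit 296) (.e (nat_lit 163903) (nat_lit 12) (.e (nat_lit 426566) (nat_lit 34) (.e (nat_lit 393271) (nat_lit 23) .nil))))) (.g (nat_lit 0) (.e (nat_lit 143401) (nat_lit 0) .nil) .nil)))))) (.nd (nat_lit 7) (.nd (nat_lit 8) (.nd (nat_lit 9) 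
(.lf (nat_lit 489542) (.g (nat_lit 1933) (.e (nat_lit 16472) (nat_lit 14) (.e (nat_lit 491535) (nat_lit 2) (.e (nat_lit 90170) (nat_lit 13) (.e (nat_lit 172113) (nat_lit 10) (.e (nat_lit 434242) (nat_lit 28) (.e (nat_lit 573470) (nat_lit 11) .nil)))))) (.g (nat_lit 1) (.e (nat_lit 141092) (nat_lit 0) .nil) .nil))) 
(.lf (nat_lit 490054) (.g (nat_lit 2906) (.e (nat_lit 49189) (nat_lit 11) (.e (nat_lit 16425) (nat_lit 7) (.e (nat_lit 409646) (nat_lit 18) (.e (nat_lit 303143) (nat_lit 12) (.e (nat_lit 475199) (nat_lit 40) (.e (nat_lit 704790) (nat_lit 14) (.e (nat_lit 2591) (nat_lit 162) .nil))))))) (.g (nat_lit 1) (.e (nat_lit 142783) (nat_lit 0) .nil) .nil)))) (.nd (nat_lit 9) 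
(.lf (nat_lit 489798) (.g (nat_lit 2025) (.e (nat_lit 49185) (nat_lit 11) (.e (nat_lit 16425) (nat_lit 7) (.e (nat_lit 409649) (nat_lit 18) (.e (nat_lit 303143) (nat_lit 12) (.e (nat_lit 475198) (nat_lit 40) (.e (nat_lit 704790) (nat_lit 14) (.e (nat_lit 2593) (nat_lit 162) .nil))))))) (.g (nat_lit 1) (.e (nat_lit 142411) (nat_lit 0) .nil) .nil))) 
(.lf (nat_lit 490310) (.g (nat_lit 5257) (.e (nat_lit 163847) (nat_lit 0) (.e (nat_lit 6255) (nat_lit 337) (.e (nat_lit 2630) (nat_lit 164) (.e (nat_lit 172066) (nat_lit 3) (.e (nat_lit 204869) (nat_lit 29) (.e (nat_lit 360475) (nat_lit 8) (.e (nat_lit 557091) (nat_lit 12) .nil))))))) (.g (nat_lit 1) (.e (nat_lit 143219) (nat_lit 0) .nil) .nil))))) (.nd (nat_lit 8) (.nd (nat_lit 9) 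
(.lf (nat_lit 489670) (.g (nat_lit 2670) (.e (nat_lit 32807) (nat_lit 18) (.e (nat_lit 172124) (nat_lit 14) (.e (nat_lit 491537) (nat_lit 2) (.e (nat_lit 90170) (nat_lit 13) (.e (nat_lit 172080) (nat_lit 7) (.e (nat_lit 409631) (nat_lit 12) .nil)))))) (.g (nat_lit 1) (.e (nat_lit 141825) (nat_lit 0) .nil) .nil))) 
(.lf (nat_lit 490182) (.g (nat_lit 2895) (.e (nat_lit 57088) (nat_lit 11) (.e (nat_lit 16468) (nat_lit 13) (.e (nat_lit 483372) (nat_lit 21) (.e (nat_lit 319504) (nat_lit 10) (.e (nat_lit 4919) (nat_lit 287) .nil))))) (.g (nat_lit 0) (.e (nat_lit 142945) (nat_lit 0) .nil) .nil)))) (.nd (nat_lit 9) 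
(.lf (nat_lit 489926) (.g (nat_lit 2525) (.e (nat_lit 49188) (nat_lit 11) (.e (nat_lit 16466) (nat_lit 13) (.e (nat_lit 483350) (nat_lit 17) (.e (nat_lit 6218) (nat_lit 333) (.e (nat_lit 57786) (nat_lit 245) .nil))))) (.g (nat_lit 0) (.e (nat_lit 142616) (nat_lit 0) .nil) .nil))) 
(.lf (nat_lit 490438) (.g (nat_lit 4382) (.e (nat_lit 163860) (nat_lit 1) (.e (nat_lit 164329) (nat_lit 230) (.e (nat_lit 163902) (nat_lit 12) (.e (nat_lit 426438) (nat_lit 18) (.e (nat_lit 98373) (nat_lit 29) (.e (nat_lit 450563) (nat_lit 0) (.e (nat_lit 6839) (nat_lit 369) .nil))))))) (.g (nat_lit 1) (.e (nat_lit 143689) (nat_lit 0) .nil) .nil))))))) 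
(.nd (nat_lit 6) (.nd (nat_lit 7) (.nd (nat_lit 8) (.nd (nat_lit 9) 
(.lf (nat_lit 489510) (.g (nat_lit 507) (.e (nat_lit 16468) (nat_lit 13) (.e (nat_lit 483372) (nat_lit 21) (.e (nat_lit 327424) (nat_lit 10) .nil))) (.g (nat_lit 0) (.e (nat_lit 141026) (nat_lit 0) .nil) .nil))) 
(.lf (nat_lit 490022) (.g (nat_lit 2723) (.e (nat_lit 49189) (nat_lit 11) (.e (nat_lit 16425) (nat_lit 7) (.e (nat_lit 409645) (nat_lit 18) (.e (nat_lit 303143) (nat_lit 12) (.e (nat_lit 475197) (nat_lit 40) (.e (nat_lit 704790) (nat_lit 14) (.e (nat_lit 2587) (nat_lit 162) .nil))))))) (.g (nat_lit 1) (.e (nat_lit 142751) (nat_lit 0) .nil) .nil)))) (.nd (nat_lit 9) 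
(.lf (nat_lit 489766) (.g (nat_lit 1063) (.e (nat_lit 49157) (nat_lit 0) (.e (nat_lit 3020) (nat_lit 187) (.e (nat_lit 450584) (nat_lit 9) (.e (nat_lit 565268) (nat_lit 5) (.e (nat_lit 73791) (nat_lit 45) (.e (nat_lit 1162) (nat_lit 86) .nil)))))) (.g (nat_lit 1) (.e (nat_lit 142259) (nat_lit 0) .nil) .nil))) 
(.lf (nat_lit 490278) (.g (nat_lit 2836) (.e (nat_lit 163844) (nat_lit 0) (.e (nat_lit 3471) (nat_lit 217) (.e (nat_lit 696344) (nat_lit 8) (.e (nat_lit 172079) (nat_lit 7) (.e (nat_lit 409645) (nat_lit 18) (.e (nat_lit 303133) (nat_lit 9) (.e (nat_lit 426042) (nat_lit 0) (.e (nat_lit 2449) (nat_lit 157) (.e (nat_lit 5965) (nat_lit 324) .nil))))))))) (.g (nat_lit 1) (.e (nat_lit 143162) (nat_lit 0) .nil) .nil))))) 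
(.nd (nat_lit 8) (.nd (nat_lit 9) 
(.lf (nat_lit 489638) (.g (nat_lit 2531) (.e (nat_lit 32807) (nat_lit 18) (.e (nat_lit 172119) (nat_lit 12) (.e (nat_lit 475185) (nat_lit 29) (.e (nat_lit 557105) (nat_lit 14) (.e (nat_lit 180284) (nat_lit 45) (.e (nat_lit 2570) (nat_lit 160) .nil)))))) (.g (nat_lit 1) (.e (nat_lit 141782) (nat_lit 0) .nil) .nil))) 
(.lf (nat_lit 490150) (.g (nat_lit 1867) (.e (nat_lit 49189) (nat_lit 11) (.e (nat_lit 16425) (nat_lit 7) (.e (nat_lit 409649) (nat_lit 18) (.e (nat_lit 303143) (nat_lit 12) (.e (nat_lit 475197) (nat_lit 40) (.e (nat_lit 704770) (nat_lit 14) (.e (nat_lit 2594) (nat_lit 162) .nil))))))) (.g (nat_lit 1) (.e (nat_lit 142879) (nat_lit 0) .nil) .nil)))) (.nd (nat_lit 9) 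
(.lf (nat_lit 489894) (.g (nat_lit 563) (.e (nat_lit 49188) (nat_lit 11) (.e (nat_lit 16425) (nat_lit 7) (.e (nat_lit 409645) (nat_lit 18) .nil))) (.g (nat_lit 0) (.e (nat_lit 142574) (nat_lit 0) .nil) .nil))) 
(.lf (nat_lit 490406) (.g (nat_lit 2876) (.e (nat_lit 163853) (nat_lit 0) (.e (nat_lit 3307) (nat_lit 202) (.e (nat_lit 573489) (nat_lit 14) (.e (nat_lit 73755) (nat_lit 8) (.e (nat_lit 557097) (nat_lit 13) .nil))))) (.g (nat_lit 0) (.e (nat_lit 143554) (nat_lit 0) .nil) .nil)))))) (.nd (nat_lit 7) (.nd (nat_lit 8) (.nd (nat_lit 9) 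
(.lf (nat_lit 489574) (.g (nat_lit 2002) (.e (nat_lit 16473) (nat_lit 14) (.e (nat_lit 499456) (nat_lit 34) (.e (nat_lit 483385) (nat_lit 23) (.e (nat_lit 336260) (nat_lit 15) (.e (nat_lit 3289) (nat_lit 201) (.e (nat_lit 565261) (nat_lit 2) .nil)))))) (.g (nat_lit 1) (.e (nat_lit 141219) (nat_lit 0) .nil) .nil))) 
(.lf (nat_lit 490086) (.g (nat_lit 3092) (.e (nat_lit 49189) (nat_lit 11) (.e (nat_lit 16425) (nat_lit 7) (.e (nat_lit 409648) (nat_lit 18) (.e (nat_lit 303137) (nat_lit 10) (.e (nat_lit 434275) (nat_lit 39) (.e (nat_lit 671488) (nat_lit 14) (.e (nat_lit 1159) (nat_lit 86) .nil))))))) (.g (nat_lit 1) (.e (nat_lit 142815) (nat_lit 0) .nil) .nil)))) (.nd (nat_lit 9) 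
(.lf (nat_lit 489830) (.g (nat_lit 1311) (.e (nat_lit 49187) (nat_lit 11) (.e (nat_lit 16425) (nat_lit 7) (.e (nat_lit 409645) (nat_lit 18) (.e (nat_lit 303143) (nat_lit 12) .nil)))) (.g (nat_lit 0) (.e (nat_lit 142461) (nat_lit 0) .nil) .nil))) 
(.lf (nat_lit 490342) (.g (nat_lit 1122) (.e (nat_lit 163849) (nat_lit 0) (.e (nat_lit 6255) (nat_lit 337) (.e (nat_lit 2643) (nat_lit 165) (.e (nat_lit 180243) (nat_lit 5) .nil)))) (.g (nat_lit 0) (.e (nat_lit 143267) (nat_lit 0) .nil) .nil))))) (.nd (nat_lit 8) (.nd (nat_lit 9) 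
(.lf (nat_lit 489702) (.g (nat_lit 2674) (.e (nat_lit 32807) (nat_lit 18) (.e (nat_lit 172126) (nat_lit 14) (.e (nat_lit 491539) (nat_lit 3) (.e (nat_lit 98367) (nat_lit 27) (.e (nat_lit 434186) (nat_lit 13) .nil))))) (.g (nat_lit 0) (.e (nat_lit 141885) (nat_lit 0) .nil) .nil))) 
(.lf (nat_lit 490214) (.g (nat_lit 3537) (.e (nat_lit 40995) (nat_lit 11) (.e (nat_lit 24665) (nat_lit 14) (.e (nat_lit 401448) (nat_lit 10) (.e (nat_lit 434275) (nat_lit 39) (.e (nat_lit 663574) (nat_lit 9) (.e (nat_lit 2437) (nat_lit 157) (.e (nat_lit 3572) (nat_lit 222) (.e (nat_lit 737317) (nat_lit 14) .nil)))))))) (.g (nat_lit 1) (.e (nat_lit 143004) (nat_lit 0) .nil) .nil)))) 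
(.nd (nat_lit 9) 
(.lf (nat_lit 489958) (.g (nat_lit 3865) (.e (nat_lit 49188) (nat_lit 11) (.e (nat_lit 16466) (nat_lit 13) (.e (nat_lit 483413) (nat_lit 27) (.e (nat_lit 401414) (nat_lit 0) (.e (nat_lit 6986) (nat_lit 377) .nil))))) (.g (nat_lit 0) (.e (nat_lit 142651) (nat_lit 0) .nil) .nil))) 
(.lf (nat_lit 490470) (.g (nat_lit 2109) (.e (nat_lit 163862) (nat_lit 1) (.e (nat_lit 164325) (nat_lit 230) (.e (nat_lit 163907) (nat_lit 12) (.e (nat_lit 426422) (nat_lit 16) (.e (nat_lit 57688) (nat_lit 156) .nil))))) (.g (nat_lit 0) (.e (nat_lit 143871) (nat_lit 0) .nil) .nil)))))))) (.nd (nat_lit 5) (.nd (nat_lit 6) (.nd (nat_lit 7) (.nd (nat_lit 8) (.nd (nat_lit 9) 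
(.lf (nat_lit 489494) (.g (nat_lit 1557) (.e (nat_lit 16468) (nat_lit 13) (.e (nat_lit 483372) (nat_lit 21) (.e (nat_lit 319504) (nat_lit 10) (.e (nat_lit 4925) (nat_lit 287) .nil)))) (.g (nat_lit 0) (.e (nat_lit 141001) (nat_lit 0) .nil) .nil))) 
(.lf (nat_lit 490006) (.g (nat_lit 2885) (.e (nat_lit 49189) (nat_lit 11) (.e (nat_lit 16425) (nat_lit 7) (.e (nat_lit 409643) (nat_lit 18) (.e (nat_lit 303143) (nat_lit 12) (.e (nat_lit 475199) (nat_lit 40) (.e (nat_lit 704836) (nat_lit 14) (.e (nat_lit 2590) (nat_lit 162) .nil))))))) (.g (nat_lit 1) (.e (nat_lit 142735) (nat_lit 0) .nil) .nil)))) (.nd (nat_lit 9) 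
(.lf (nat_lit 489750) (.g (nat_lit 1029) (.e (nat_lit 49156) (nat_lit 0) (.e (nat_lit 3012) (nat_lit 187) (.e (nat_lit 450584) (nat_lit 9) (.e (nat_lit 565268) (nat_lit 5) (.e (nat_lit 73792) (nat_lit 45) (.e (nat_lit 1163) (nat_lit 86) .nil)))))) (.g (nat_lit 1) (.e (nat_lit 142222) (nat_lit 0) .nil) .nil))) 
(.lf (nat_lit 490262) (.g (nat_lit 4666) (.e (nat_lit 163843) (nat_lit 0) (.e (nat_lit 6420) (nat_lit 341) (.e (nat_lit 163917) (nat_lit 13) (.e (nat_lit 434231) (nat_lit 23) (.e (nat_lit 532550) (nat_lit 12) (.e (nat_lit 360475) (nat_lit 8) (.e (nat_lit 557091) (nat_lit 12) .nil))))))) (.g (nat_lit 1) (.e (nat_lit 143128) (nat_lit 0) .nil) .nil))))) (.nd (nat_lit 8) (.nd (nat_lit 9) 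
(.lf (nat_lit 489622) (.g (nat_lit 2362) (.e (nat_lit 32807) (nat_lit 18) (.e (nat_lit 172118) (nat_lit 12) (.e (nat_lit 475185) (nat_lit 29) (.e (nat_lit 557105) (nat_lit 14) (.e (nat_lit 180282) (nat_lit 45) (.e (nat_lit 2571) (nat_lit 160) .nil)))))) (.g (nat_lit 1) (.e (nat_lit 141765) (nat_lit 0) .nil) .nil))) 
(.lf (nat_lit 490134) (.g (nat_lit 2701) (.e (nat_lit 49189) (nat_lit 11) (.e (nat_lit 16425) (nat_lit 7) (.e (nat_lit 409649) (nat_lit 18) (.e (nat_lit 303140) (nat_lit 10) (.e (nat_lit 434275) (nat_lit 39) (.e (nat_lit 671488) (nat_lit 14) (.e (nat_lit 1166) (nat_lit 86) .nil))))))) (.g (nat_lit 1) (.e (nat_lit 142863) (nat_lit 0) .nil) .nil)))) (.nd (nat_lit 9) 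
(.lf (nat_lit 489878) (.g (nat_lit 3583) (.e (nat_lit 49187) (nat_lit 11) (.e (nat_lit 16473) (nat_lit 14) (.e (nat_lit 491572) (nat_lit 14) (.e (nat_lit 401454) (nat_lit 12) (.e (nat_lit 475198) (nat_lit 40) .nil))))) (.g (nat_lit 0) (.e (nat_lit 142544) (nat_lit 0) .nil) .nil))) 
(.lf (nat_lit 490390) (.g (nat_lit 2608) (.e (nat_lit 163851) (nat_lit 0) (.e (nat_lit 3307) (nat_lit 202) (.e (nat_lit 573489) (nat_lit 14) (.e (nat_lit 73755) (nat_lit 8) (.e (nat_lit 557098) (nat_lit 13) .nil))))) (.g (nat_lit 0) (.e (nat_lit 143512) (nat_lit 0) .nil) .nil)))))) (.nd (nat_lit 7) (.nd (nat_lit 8) (.nd (nat_lit 9) 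
(.lf (nat_lit 489558) (.g (nat_lit 4334) (.e (nat_lit 16473) (nat_lit 14) (.e (nat_lit 491535) (nat_lit 2) (.e (nat_lit 90170) (nat_lit 13) (.e (nat_lit 172113) (nat_lit 10) (.e (nat_lit 434245) (nat_lit 28) (.e (nat_lit 573471) (nat_lit 11) .nil)))))) (.g (nat_lit 1) (.e (nat_lit 141139) (nat_lit 0) .nil) .nil))) 
(.lf (nat_lit 490070) (.g (nat_lit 3199) (.e (nat_lit 49189) (nat_lit 11) (.e (nat_lit 16425) (nat_lit 7) (.e (nat_lit 409647) (nat_lit 18) (.e (nat_lit 303143) (nat_lit 12) (.e (nat_lit 475199) (nat_lit 40) (.e (nat_lit 704790) (nat_lit 14) (.e (nat_lit 2591) (nat_lit 162) .nil))))))) (.g (nat_lit 1) (.e (nat_lit 142799) (nat_lit 0) .nil) .nil)))) (.nd (nat_lit 9) 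
(.lf (nat_lit 489814) (.g (nat_lit 1019) (.e (nat_lit 49186) (nat_lit 11) (.e (nat_lit 16433) (nat_lit 9) (.e (nat_lit 426550) (nat_lit 31) .nil))) (.g (nat_lit 0) (.e (nat_lit 142434) (nat_lit 0) .nil) .nil))) 
(.lf (nat_lit 490326) (.g (nat_lit 4684) (.e (nat_lit 163848) (nat_lit 0) (.e (nat_lit 6252) (nat_lit 337) (.e (nat_lit 2630) (nat_lit 164) (.e (nat_lit 172067) (nat_lit 3) (.e (nat_lit 204869) (nat_lit 29) (.e (nat_lit 360475) (nat_lit 8) (.e (nat_lit 557089) (nat_lit 12) .nil))))))) (.g (nat_lit 1) (.e (nat_lit 143243) (nat_lit 0) .nil) .nil))))) (.nd (nat_lit 8) (.nd (nat_lit 9) 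
(.lf (nat_lit 489686) (.g (nat_lit 3989) (.e (nat_lit 32807) (nat_lit 18) (.e (nat_lit 172126) (nat_lit 14) (.e (nat_lit 491537) (nat_lit 2) (.e (nat_lit 90170) (nat_lit 13) (.e (nat_lit 172079) (nat_lit 7) (.e (nat_lit 409631) (nat_lit 12) .nil)))))) (.g (nat_lit 1) (.e (nat_lit 141867) (nat_lit 0) .nil) .nil))) 
(.lf (nat_lit 490198) (.g (nat_lit 1423) (.e (nat_lit 40965) (nat_lit 0) (.e (nat_lit 1582) (nat_lit 111) (.e (nat_lit 360477) (nat_lit 11) (.e (nat_lit 581652) (nat_lit 5) (.e (nat_lit 180288) (nat_lit 45) (.e (nat_lit 2579) (nat_lit 161) .nil)))))) (.g (nat_lit 1) (.e (nat_lit 142964) (nat_lit 0) .nil) .nil)))) (.nd (nat_lit 9) 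
(.lf (nat_lit 489942) (.g (nat_lit 1538) (.e (nat_lit 49188) (nat_lit 11) (.e (nat_lit 16466) (nat_lit 13) (.e (nat_lit 483372) (nat_lit 21) (.e (nat_lit 319505) (nat_lit 10) .nil)))) (.g (nat_lit 0) (.e (nat_lit 142632) (nat_lit 0) .nil) .nil))) 
(.lf (nat_lit 490454) (.g (nat_lit 2174) (.e (nat_lit 163860) (nat_lit 1) (.e (nat_lit 164399) (nat_lit 256) (.e (nat_lit 57378) (nat_lit 3) (.e (nat_lit 98333) (nat_lit 18) .nil)))) (.g (nat_lit 0) (.e (nat_lit 143745) (nat_lit 0) .nil) .nil))))))) (.nd (nat_lit 6) (.nd (nat_lit 7) (.nd (nat_lit 8) (.nd (nat_lit 9) 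
(.lf (nat_lit 489526) (.g (nat_lit 2990) (.e (nat_lit 16470) (nat_lit 14) (.e (nat_lit 491571) (nat_lit 13) (.e (nat_lit 393232) (nat_lit 17) (.e (nat_lit 7110) (nat_lit 380) (.e (nat_lit 171776) (nat_lit 234) .nil))))) (.g (nat_lit 1) (.e (nat_lit 141066) (nat_lit 0) .nil) .nil))) 
(.lf (nat_lit 490038) (.g (nat_lit 2207) (.e (nat_lit 49189) (nat_lit 11) (.e (nat_lit 16425) (nat_lit 7) (.e (nat_lit 409646) (nat_lit 18) (.e (nat_lit 303143) (nat_lit 12) (.e (nat_lit 475197) (nat_lit 40) (.e (nat_lit 704770) (nat_lit 14) (.e (nat_lit 2595) (nat_lit 162) .nil))))))) (.g (nat_lit 1) (.e (nat_lit 142767) (nat_lit 0) .nil) .nil)))) (.nd (nat_lit 9) 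
(.lf (nat_lit 489782) (.g (nat_lit 2093) (.e (nat_lit 49185) (nat_lit 11) (.e (nat_lit 16425) (nat_lit 7) (.e (nat_lit 409643) (nat_lit 18) (.e (nat_lit 303143) (nat_lit 12) (.e (nat_lit 475218) (nat_lit 44) .nil))))) (.g (nat_lit 0) (.e (nat_lit 142395) (nat_lit 0) .nil) .nil))) 
(.lf (nat_lit 490294) (.g (nat_lit 1350) (.e (nat_lit 163846) (nat_lit 0) (.e (nat_lit 3719) (nat_lit 227) (.e (nat_lit 778466) (nat_lit 11) (.e (nat_lit 24658) (nat_lit 13) .nil)))) (.g (nat_lit 0) (.e (nat_lit 143190) (nat_lit 0) .nil) .nil))))) (.nd (nat_lit 8) (.nd (nat_lit 9) 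
(.lf (nat_lit 489654) (.g (nat_lit 3260) (.e (nat_lit 32807) (nat_lit 18) (.e (nat_lit 172120) (nat_lit 12) (.e (nat_lit 475185) (nat_lit 29) (.e (nat_lit 557103) (nat_lit 14) (.e (nat_lit 180285) (nat_lit 45) (.e (nat_lit 2570) (nat_lit 160) .nil)))))) (.g (nat_lit 1) (.e (nat_lit 141800) (nat_lit 0) .nil) .nil))) 
(.lf (nat_lit 490166) (.g (nat_lit 1421) (.e (nat_lit 49189) (nat_lit 11) (.e (nat_lit 16431) (nat_lit 9) (.e (nat_lit 426482) (nat_lit 27) (.e (nat_lit 336060) (nat_lit 7) .nil)))) (.g (nat_lit 0) (.e (nat_lit 142898) (nat_lit 0) .nil) .nil)))) (.nd (nat_lit 9) 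
(.lf (nat_lit 489910) (.g (nat_lit 1673) (.e (nat_lit 49188) (nat_lit 11) (.e (nat_lit 16462) (nat_lit 13) (.e (nat_lit 483372) (nat_lit 21) (.e (nat_lit 319524) (nat_lit 14) (.e (nat_lit 270368) (nat_lit 13) .nil))))) (.g (nat_lit 0) (.e (nat_lit 142592) (nat_lit 0) .nil) .nil))) 
(.lf (nat_lit 490422) (.g (nat_lit 2578) (.e (nat_lit 163857) (nat_lit 0) (.e (nat_lit 3304) (nat_lit 202) (.e (nat_lit 573489) (nat_lit 14) (.e (nat_lit 73755) (nat_lit 8) (.e (nat_lit 557097) (nat_lit 13) .nil))))) (.g (nat_lit 0) (.e (nat_lit 143599) (nat_lit 0) .nil) .nil)))))) (.nd (nat_lit 7) (.nd (nat_lit 8) (.nd (nat_lit 9) 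
(.lf (nat_lit 489590) (.g (nat_lit 2088) (.e (nat_lit 32806) (nat_lit 18) (.e (nat_lit 172126) (nat_lit 14) (.e (nat_lit 491537) (nat_lit 2) (.e (nat_lit 90170) (nat_lit 13) (.e (nat_lit 172077) (nat_lit 7) (.e (nat_lit 409631) (nat_lit 12) .nil)))))) (.g (nat_lit 1) (.e (nat_lit 141409) (nat_lit 0) .nil) .nil))) 
(.lf (nat_lit 490102) (.g (nat_lit 3022) (.e (nat_lit 49189) (nat_lit 11) (.e (nat_lit 16425) (nat_lit 7) (.e (nat_lit 409648) (nat_lit 18) (.e (nat_lit 303137) (nat_lit 10) (.e (nat_lit 434272) (nat_lit 38) (.e (nat_lit 655403) (nat_lit 14) (.e (nat_lit 2587) (nat_lit 162) .nil))))))) (.g (nat_lit 1) (.e (nat_lit 142831) (nat_lit 0) .nil) .nil)))) (.nd (nat_lit 9) 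
(.lf (nat_lit 489846) (.g (nat_lit 1910) (.e (nat_lit 49187) (nat_lit 11) (.e (nat_lit 16425) (nat_lit 7) (.e (nat_lit 409648) (nat_lit 18) (.e (nat_lit 303137) (nat_lit 10) (.e (nat_lit 434271) (nat_lit 38) .nil))))) (.g (nat_lit 0) (.e (nat_lit 142477) (nat_lit 0) .nil) .nil))) 
(.lf (nat_lit 490358) (.g (nat_lit 1876) (.e (nat_lit 163850) (nat_lit 0) (.e (nat_lit 3304) (nat_lit 202) (.e (nat_lit 573484) (nat_lit 13) (.e (nat_lit 65610) (nat_lit 10) (.e (nat_lit 344117) (nat_lit 21) .nil))))) (.g (nat_lit 0) (.e (nat_lit 143314) (nat_lit 0) .nil) .nil))))) (.nd (nat_lit 8) (.nd (nat_lit 9) 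
(.lf (nat_lit 489718) (.g (nat_lit 2130) (.e (nat_lit 32808) (nat_lit 19) (.e (nat_lit 180277) (nat_lit 32) (.e (nat_lit 1253) (nat_lit 92) (.e (nat_lit 98367) (nat_lit 27) (.e (nat_lit 434186) (nat_lit 13) (.e (nat_lit 2571) (nat_lit 160) .nil)))))) (.g (nat_lit 1) (.e (nat_lit 141956) (nat_lit 0) .nil) .nil))) 
(.lf (nat_lit 490230) (.g (nat_lit 3857) (.e (nat_lit 40996) (nat_lit 11) (.e (nat_lit 24665) (nat_lit 14) (.e (nat_lit 401460) (nat_lit 14) (.e (nat_lit 491566) (nat_lit 12) (.e (nat_lit 385112) (nat_lit 53) .nil))))) (.g (nat_lit 0) (.e (nat_lit 143023) (nat_lit 0) .nil) .nil)))) (.nd (nat_lit 9) 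
(.lf (nat_lit 489974) (.g (nat_lit 2299) (.e (nat_lit 49189) (nat_lit 11) (.e (nat_lit 16412) (nat_lit 2) (.e (nat_lit 196666) (nat_lit 13) (.e (nat_lit 65610) (nat_lit 10) (.e (nat_lit 344129) (nat_lit 26) (.e (nat_lit 557119) (nat_lit 18) (.e (nat_lit 7936) (nat_lit 86) .nil))))))) (.g (nat_lit 1) (.e (nat_lit 142686) (nat_lit 0) .nil) .nil))) 
(.lf (nat_lit 490486) (.g (nat_lit 305) (.e (nat_lit 163863) (nat_lit 1) (.e (nat_lit 164325) (nat_lit 230) (.e (nat_lit 163907) (nat_lit 12) .nil))) (.g (nat_lit 0) (.e (nat_lit 143935) (nat_lit 0) .nil) .nil))))))))) (.nd (nat_lit 4) (.nd (nat_lit 5) (.nd (nat_lit 6) (.nd (nat_lit 7) (.nd (nat_lit 8) (.nd (nat_lit 9) 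
(.lf (nat_lit 489486) (.g (nat_lit 1214) (.e (nat_lit 16468) (nat_lit 13) (.e (nat_lit 483371) (nat_lit 21) (.e (nat_lit 319506) (nat_lit 10) (.e (nat_lit 4994) (nat_lit 288) .nil)))) (.g (nat_lit 0) (.e (nat_lit 140988) (nat_lit 0) .nil) .nil))) 
(.lf (nat_lit 489998) (.g (nat_lit 3026) (.e (nat_lit 49189) (nat_lit 11) (.e (nat_lit 16425) (nat_lit 7) (.e (nat_lit 409643) (nat_lit 18) (.e (nat_lit 303143) (nat_lit 12) (.e (nat_lit 475198) (nat_lit 40) (.e (nat_lit 704790) (nat_lit 14) (.e (nat_lit 2590) (nat_lit 162) .nil))))))) (.g (nat_lit 1) (.e (nat_lit 142727) (nat_lit 0) .nil) .nil)))) (.nd (nat_lit 9) 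
(.lf (nat_lit 489742) (.g (nat_lit 923) (.e (nat_lit 49155) (nat_lit 0) (.e (nat_lit 3062) (nat_lit 190) (.e (nat_lit 475155) (nat_lit 21) .nil))) (.g (nat_lit 0) (.e (nat_lit 142183) (nat_lit 0) .nil) .nil))) 
(.lf (nat_lit 490254) (.g (nat_lit 2122) (.e (nat_lit 163843) (nat_lit 0) (.e (nat_lit 3605) (nat_lit 225) (.e (nat_lit 761905) (nat_lit 16) (.e (nat_lit 172061) (nat_lit 1) (.e (nat_lit 164185) (nat_lit 155) .nil))))) (.g (nat_lit 0) (.e (nat_lit 143091) (nat_lit 0) .nil) .nil))))) (.nd (nat_lit 8) (.nd (nat_lit 9) 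
(.lf (nat_lit 489614) (.g (nat_lit 3232) (.e (nat_lit 32807) (nat_lit 18) (.e (nat_lit 172118) (nat_lit 12) (.e (nat_lit 475185) (nat_lit 29) (.e (nat_lit 557098) (nat_lit 13) (.e (nat_lit 172080) (nat_lit 7) (.e (nat_lit 409631) (nat_lit 12) .nil)))))) (.g (nat_lit 1) (.e (nat_lit 141755) (nat_lit 0) .nil) .nil))) 
(.lf (nat_lit 490126) (.g (nat_lit 3166) (.e (nat_lit 49189) (nat_lit 11) (.e (nat_lit 16425) (nat_lit 7) (.e (nat_lit 409648) (nat_lit 18) (.e (nat_lit 303143) (nat_lit 12) (.e (nat_lit 475220) (nat_lit 44) (.e (nat_lit 745216) (nat_lit 15) .nil)))))) (.g (nat_lit 1) (.e (nat_lit 142855) (nat_lit 0) .nil) .nil)))) (.nd (nat_lit 9) 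
(.lf (nat_lit 489870) (.g (nat_lit 3013) (.e (nat_lit 49187) (nat_lit 11) (.e (nat_lit 16473) (nat_lit 14) (.e (nat_lit 491560) (nat_lit 10) (.e (nat_lit 344167) (nat_lit 40) (.e (nat_lit 671782) (nat_lit 12) .nil))))) (.g (nat_lit 0) (.e (nat_lit 142534) (nat_lit 0) .nil) .nil))) 
(.lf (nat_lit 490382) (.g (nat_lit 2403) (.e (nat_lit 163850) (nat_lit 0) (.e (nat_lit 6425) (nat_lit 342) (.e (nat_lit 229415) (nat_lit 15) (.e (nat_lit 450604) (nat_lit 22) (.e (nat_lit 704629) (nat_lit 9) .nil))))) (.g (nat_lit 0) (.e (nat_lit 143502) (nat_lit 0) .nil) .nil)))))) (.nd (nat_lit 7) (.nd (nat_lit 8) (.nd (nat_lit 9) 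
(.lf (nat_lit 489550) (.g (nat_lit 2501) (.e (nat_lit 16472) (nat_lit 14) (.e (nat_lit 491537) (nat_lit 2) (.e (nat_lit 90170) (nat_lit 13) (.e (nat_lit 172113) (nat_lit 10) (.e (nat_lit 434242) (nat_lit 28) (.e (nat_lit 573471) (nat_lit 11) .nil)))))) (.g (nat_lit 1) (.e (nat_lit 141102) (nat_lit 0) .nil) .nil))) 
(.lf (nat_lit 490062) (.g (nat_lit 2048) (.e (nat_lit 49189) (nat_lit 11) (.e (nat_lit 16425) (nat_lit 7) (.e (nat_lit 409647) (nat_lit 18) (.e (nat_lit 303143) (nat_lit 12) (.e (nat_lit 475197) (nat_lit 40) (.e (nat_lit 704787) (nat_lit 14) (.e (nat_lit 2592) (nat_lit 162) .nil))))))) (.g (nat_lit 1) (.e (nat_lit 142791) (nat_lit 0) .nil) .nil)))) (.nd (nat_lit 9) 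
(.lf (nat_lit 489806) (.g (nat_lit 2942) (.e (nat_lit 49185) (nat_lit 11) (.e (nat_lit 16465) (nat_lit 13) (.e (nat_lit 483372) (nat_lit 21) (.e (nat_lit 319504) (nat_lit 10) (.e (nat_lit 4921) (nat_lit 287) .nil))))) (.g (nat_lit 0) (.e (nat_lit 142422) (nat_lit 0) .nil) .nil))) 
(.lf (nat_lit 490318) (.g (nat_lit 3856) (.e (nat_lit 163847) (nat_lit 0) (.e (nat_lit 6420) (nat_lit 341) (.e (nat_lit 163916) (nat_lit 13) (.e (nat_lit 434231) (nat_lit 23) (.e (nat_lit 532550) (nat_lit 12) (.e (nat_lit 360475) (nat_lit 8) (.e (nat_lit 557091) (nat_lit 12) .nil))))))) (.g (nat_lit 1) (.e (nat_lit 143231) (nat_lit 0) .nil) .nil))))) (.nd (nat_lit 8) (.nd (nat_lit 9) 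
(.lf (nat_lit 489678) (.g (nat_lit 526) (.e (nat_lit 32807) (nat_lit 18) (.e (nat_lit 172125) (nat_lit 14) (.e (nat_lit 491536) (nat_lit 2) .nil))) (.g (nat_lit 0) (.e (nat_lit 141842) (nat_lit 0) .nil) .nil))) 
(.lf (nat_lit 490190) (.g (nat_lit 1641) (.e (nat_lit 40963) (nat_lit 0) (.e (nat_lit 1454) (nat_lit 108) (.e (nat_lit 336173) (nat_lit 10) (.e (nat_lit 344138) (nat_lit 29) (.e (nat_lit 581652) (nat_lit 5) (.e (nat_lit 180288) (nat_lit 45) (.e (nat_lit 2579) (nat_lit 161) .nil))))))) (.g (nat_lit 1) (.e (nat_lit 142955) (nat_lit 0) .nil) .nil)))) (.nd (nat_lit 9) 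
(.lf (nat_lit 489934) (.g (nat_lit 1953) (.e (nat_lit 49188) (nat_lit 11) (.e (nat_lit 16466) (nat_lit 13) (.e (nat_lit 483372) (nat_lit 21) (.e (nat_lit 319502) (nat_lit 10) .nil)))) (.g (nat_lit 0) (.e (nat_lit 142624) (nat_lit 0) .nil) .nil))) 
(.lf (nat_lit 490446) (.g (nat_lit 3371) (.e (nat_lit 163860) (nat_lit 1) (.e (nat_lit 164330) (nat_lit 230) (.e (nat_lit 163902) (nat_lit 12) (.e (nat_lit 426472) (nat_lit 25) (.e (nat_lit 319534) (nat_lit 16) (.e (nat_lit 286749) (nat_lit 9) (.e (nat_lit 335997) (nat_lit 1) (.e (nat_lit 57686) (nat_lit 156) .nil)))))))) (.g (nat_lit 1) (.e (nat_lit 143701) (nat_lit 0) .nil) .nil))))))) 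
(.nd (nat_lit 6) (.nd (nat_lit 7) (.nd (nat_lit 8) (.nd (nat_lit 9) 
(.lf (nat_lit 489518) (.g (nat_lit 2231) (.e (nat_lit 16470) (nat_lit 14) (.e (nat_lit 491536) (nat_lit 2) (.e (nat_lit 90170) (nat_lit 13) (.e (nat_lit 172113) (nat_lit 10) (.e (nat_lit 434245) (nat_lit 28) (.e (nat_lit 573470) (nat_lit 11) .nil)))))) (.g (nat_lit 1) (.e (nat_lit 141057) (nat_lit 0) .nil) .nil))) 
(.lf (nat_lit 490030) (.g (nat_lit 2263) (.e (nat_lit 49189) (nat_lit 11) (.e (nat_lit 16425) (nat_lit 7) (.e (nat_lit 409645) (nat_lit 18) (.e (nat_lit 303143) (nat_lit 12) (.e (nat_lit 475199) (nat_lit 40) (.e (nat_lit 704790) (nat_lit 14) (.e (nat_lit 2590) (nat_lit 162) .nil))))))) (.g (nat_lit 1) (.e (nat_lit 142759) (nat_lit 0) .nil) .nil)))) (.nd (nat_lit 9) 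
(.lf (nat_lit 489774) (.g (nat_lit 395) (.e (nat_lit 57088) (nat_lit 6) (.e (nat_lit 188440) (nat_lit 20) (.e (nat_lit 3289) (nat_lit 201) .nil))) (.g (nat_lit 0) (.e (nat_lit 142309) (nat_lit 0) .nil) .nil))) 
(.lf (nat_lit 490286) (.g (nat_lit 5571) (.e (nat_lit 163844) (nat_lit 0) (.e (nat_lit 5943) (nat_lit 322) (.e (nat_lit 57375) (nat_lit 2) (.e (nat_lit 90174) (nat_lit 14) (.e (nat_lit 180250) (nat_lit 10) (.e (nat_lit 573489) (nat_lit 14) (.e (nat_lit 73755) (nat_lit 8) (.e (nat_lit 557090) (nat_lit 12) .nil)))))))) (.g (nat_lit 1) (.e (nat_lit 143170) (nat_lit 0) .nil) .nil))))) 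
(.nd (nat_lit 8) (.nd (nat_lit 9) 
(.lf (nat_lit 489646) (.g (nat_lit 2122) (.e (nat_lit 32807) (nat_lit 18) (.e (nat_lit 172120) (nat_lit 12) (.e (nat_lit 475184) (nat_lit 29) (.e (nat_lit 557103) (nat_lit 14) (.e (nat_lit 180288) (nat_lit 45) .nil))))) (.g (nat_lit 0) (.e (nat_lit 141790) (nat_lit 0) .nil) .nil))) 
(.lf (nat_lit 490158) (.g (nat_lit 3697) (.e (nat_lit 49189) (nat_lit 11) (.e (nat_lit 16425) (nat_lit 7) (.e (nat_lit 409649) (nat_lit 18) (.e (nat_lit 303143) (nat_lit 12) (.e (nat_lit 475199) (nat_lit 40) (.e (nat_lit 704772) (nat_lit 14) (.e (nat_lit 7936) (nat_lit 162) .nil))))))) (.g (nat_lit 1) (.e (nat_lit 142887) (nat_lit 0) .nil) .nil)))) (.nd (nat_lit 9) 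
(.lf (nat_lit 489902) (.g (nat_lit 2035) (.e (nat_lit 49188) (nat_lit 11) (.e (nat_lit 16425) (nat_lit 7) (.e (nat_lit 409649) (nat_lit 18) (.e (nat_lit 303143) (nat_lit 12) (.e (nat_lit 475216) (nat_lit 44) .nil))))) (.g (nat_lit 0) (.e (nat_lit 142582) (nat_lit 0) .nil) .nil))) 
(.lf (nat_lit 490414) (.g (nat_lit 2539) (.e (nat_lit 163854) (nat_lit 0) (.e (nat_lit 3307) (nat_lit 202) (.e (nat_lit 573489) (nat_lit 14) (.e (nat_lit 73754) (nat_lit 8) (.e (nat_lit 557101) (nat_lit 13) .nil))))) (.g (nat_lit 0) (.e (nat_lit 143580) (nat_lit 0) .nil) .nil)))))) (.nd (nat_lit 7) (.nd (nat_lit 8) (.nd (nat_lit 9) 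
(.lf (nat_lit 489582) (.g (nat_lit 587) (.e (nat_lit 32806) (nat_lit 18) (.e (nat_lit 172120) (nat_lit 12) (.e (nat_lit 475185) (nat_lit 29) .nil))) (.g (nat_lit 0) (.e (nat_lit 141399) (nat_lit 0) .nil) .nil))) 
(.lf (nat_lit 490094) (.g (nat_lit 2477) (.e (nat_lit 49189) (nat_lit 11) (.e (nat_lit 16425) (nat_lit 7) (.e (nat_lit 409648) (nat_lit 18) (.e (nat_lit 303137) (nat_lit 10) (.e (nat_lit 434271) (nat_lit 38) (.e (nat_lit 655404) (nat_lit 14) (.e (nat_lit 2590) (nat_lit 162) .nil))))))) (.g (nat_lit 1) (.e (nat_lit 142823) (nat_lit 0) .nil) .nil)))) (.nd (nat_lit 9) 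
(.lf (nat_lit 489838) (.g (nat_lit 1848) (.e (nat_lit 49187) (nat_lit 11) (.e (nat_lit 16425) (nat_lit 7) (.e (nat_lit 409646) (nat_lit 18) (.e (nat_lit 303143) (nat_lit 12) (.e (nat_lit 475199) (nat_lit 40) .nil))))) (.g (nat_lit 0) (.e (nat_lit 142469) (nat_lit 0) .nil) .nil))) 
(.lf (nat_lit 490350) (.g (nat_lit 4093) (.e (nat_lit 163849) (nat_lit 0) (.e (nat_lit 6421) (nat_lit 341) (.e (nat_lit 163900) (nat_lit 12) (.e (nat_lit 426125) (nat_lit 2) (.e (nat_lit 196666) (nat_lit 13) (.e (nat_lit 65617) (nat_lit 10) (.e (nat_lit 344132) (nat_lit 26) (.e (nat_lit 557094) (nat_lit 12) .nil)))))))) (.g (nat_lit 1) (.e (nat_lit 143290) (nat_lit 0) .nil) .nil))))) 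
(.nd (nat_lit 8) (.nd (nat_lit 9) 
(.lf (nat_lit 489710) (.g (nat_lit 1637) (.e (nat_lit 32808) (nat_lit 19) (.e (nat_lit 180277) (nat_lit 32) (.e (nat_lit 1235) (nat_lit 91) (.e (nat_lit 90170) (nat_lit 13) (.e (nat_lit 172078) (nat_lit 7) .nil))))) (.g (nat_lit 0) (.e (nat_lit 141948) (nat_lit 0) .nil) .nil))) 
(.lf (nat_lit 490222) (.g (nat_lit 2769) (.e (nat_lit 40996) (nat_lit 11) (.e (nat_lit 24658) (nat_lit 13) (.e (nat_lit 393238) (nat_lit 17) (.e (nat_lit 7107) (nat_lit 380) (.e (nat_lit 164261) (nat_lit 221) (.e (nat_lit 2576) (nat_lit 161) .nil)))))) (.g (nat_lit 1) (.e (nat_lit 143015) (nat_lit 0) .nil) .nil)))) (.nd (nat_lit 9) 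
(.lf (nat_lit 489966) (.g (nat_lit 3344) (.e (nat_lit 49188) (nat_lit 11) (.e (nat_lit 16473) (nat_lit 14) (.e (nat_lit 491560) (nat_lit 10) (.e (nat_lit 344160) (nat_lit 37) (.e (nat_lit 647203) (nat_lit 14) .nil))))) (.g (nat_lit 0) (.e (nat_lit 142674) (nat_lit 0) .nil) .nil))) 
(.lf (nat_lit 490478) (.g (nat_lit 4939) (.e (nat_lit 163862) (nat_lit 1) (.e (nat_lit 164332) (nat_lit 230) (.e (nat_lit 163902) (nat_lit 12) (.e (nat_lit 426438) (nat_lit 18) (.e (nat_lit 98373) (nat_lit 29) (.e (nat_lit 450562) (nat_lit 0) (.e (nat_lit 6839) (nat_lit 369) .nil))))))) (.g (nat_lit 1) (.e (nat_lit 143893) (nat_lit 0) .nil) .nil)))))))) 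
(.nd (nat_lit 5) (.nd (nat_lit 6) (.nd (nat_lit 7) (.nd (nat_lit 8) (.nd (nat_lit 9) 
(.lf (nat_lit 489502) (.g (nat_lit 1674) (.e (nat_lit 16468) (nat_lit 13) (.e (nat_lit 483372) (nat_lit 21) (.e (nat_lit 319505) (nat_lit 10) (.e (nat_lit 4965) (nat_lit 287) .nil)))) (.g (nat_lit 0) (.e (nat_lit 141012) (nat_lit 0) .nil) .nil))) 
(.lf (nat_lit 490014) (.g (nat_lit 2295) (.e (nat_lit 49189) (nat_lit 11) (.e (nat_lit 16425) (nat_lit 7) (.e (nat_lit 409644) (nat_lit 18) (.e (nat_lit 303143) (nat_lit 12) (.e (nat_lit 475219) (nat_lit 44) (.e (nat_lit 737318) (nat_lit 15) .nil)))))) (.g (nat_lit 1) (.e (nat_lit 142743) (nat_lit 0) .nil) .nil)))) (.nd (nat_lit 9) 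
(.lf (nat_lit 489758) (.g (nat_lit 1614) (.e (nat_lit 49156) (nat_lit 0) (.e (nat_lit 3026) (nat_lit 187) (.e (nat_lit 450584) (nat_lit 9) (.e (nat_lit 565268) (nat_lit 5) (.e (nat_lit 73792) (nat_lit 45) (.e (nat_lit 1163) (nat_lit 86) .nil)))))) (.g (nat_lit 1) (.e (nat_lit 142238) (nat_lit 0) .nil) .nil))) 
(.lf (nat_lit 490270) (.g (nat_lit 3316) (.e (nat_lit 163844) (nat_lit 0) (.e (nat_lit 3471) (nat_lit 217) (.e (nat_lit 696343) (nat_lit 8) (.e (nat_lit 172082) (nat_lit 7) (.e (nat_lit 409646) (nat_lit 18) (.e (nat_lit 303133) (nat_lit 9) (.e (nat_lit 426042) (nat_lit 0) (.e (nat_lit 2447) (nat_lit 157) (.e (nat_lit 5965) (nat_lit 324) .nil))))))))) (.g (nat_lit 1) (.e (nat_lit 143154) (nat_lit 0) .nil) .nil))))) 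
(.nd (nat_lit 8) (.nd (nat_lit 9) 
(.lf (nat_lit 489630) (.g (nat_lit 3467) (.e (nat_lit 32807) (nat_lit 18) (.e (nat_lit 172119) (nat_lit 12) (.e (nat_lit 475185) (nat_lit 29) (.e (nat_lit 557103) (nat_lit 14) (.e (nat_lit 180285) (nat_lit 45) (.e (nat_lit 2569) (nat_lit 160) .nil)))))) (.g (nat_lit 1) (.e (nat_lit 141774) (nat_lit 0) .nil) .nil))) 
(.lf (nat_lit 490142) (.g (nat_lit 2461) (.e (nat_lit 49189) (nat_lit 11) (.e (nat_lit 16425) (nat_lit 7) (.e (nat_lit 409649) (nat_lit 18) (.e (nat_lit 303140) (nat_lit 10) (.e (nat_lit 434272) (nat_lit 38) (.e (nat_lit 655400) (nat_lit 14) (.e (nat_lit 2587) (nat_lit 162) .nil))))))) (.g (nat_lit 1) (.e (nat_lit 142871) (nat_lit 0) .nil) .nil)))) (.nd (nat_lit 9) 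
(.lf (nat_lit 489886) (.g (nat_lit 1108) (.e (nat_lit 49188) (nat_lit 11) (.e (nat_lit 16416) (nat_lit 3) (.e (nat_lit 204869) (nat_lit 29) .nil))) (.g (nat_lit 0) (.e (nat_lit 142565) (nat_lit 0) .nil) .nil))) 
(.lf (nat_lit 490398) (.g (nat_lit 2709) (.e (nat_lit 163852) (nat_lit 0) (.e (nat_lit 6428) (nat_lit 342) (.e (nat_lit 229399) (nat_lit 12) (.e (nat_lit 426140) (nat_lit 3) (.e (nat_lit 204869) (nat_lit 29) (.e (nat_lit 360474) (nat_lit 8) (.e (nat_lit 557094) (nat_lit 12) .nil))))))) (.g (nat_lit 1) (.e (nat_lit 143542) (nat_lit 0) .nil) .nil)))))) 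
(.nd (nat_lit 7) (.nd (nat_lit 8) (.nd (nat_lit 9) 
(.lf (nat_lit 489566) (.g (nat_lit 1201) (.e (nat_lit 16473) (nat_lit 14) (.e (nat_lit 491539) (nat_lit 3) (.e (nat_lit 98359) (nat_lit 26) (.e (nat_lit 426286) (nat_lit 10) .nil)))) (.g (nat_lit 0) (.e (nat_lit 141147) (nat_lit 0) .nil) .nil))) 
(.lf (nat_lit 490078) (.g (nat_lit 1659) (.e (nat_lit 49189) (nat_lit 11) (.e (nat_lit 16425) (nat_lit 7) (.e (nat_lit 409648) (nat_lit 18) (.e (nat_lit 303130) (nat_lit 9) .nil)))) (.g (nat_lit 0) (.e (nat_lit 142807) (nat_lit 0) .nil) .nil)))) (.nd (nat_lit 9) 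
(.lf (nat_lit 489822) (.g (nat_lit 1903) (.e (nat_lit 49187) (nat_lit 11) (.e (nat_lit 16425) (nat_lit 7) (.e (nat_lit 409643) (nat_lit 18) (.e (nat_lit 303143) (nat_lit 12) (.e (nat_lit 475198) (nat_lit 40) .nil))))) (.g (nat_lit 0) (.e (nat_lit 142453) (nat_lit 0) .nil) .nil))) 
(.lf (nat_lit 490334) (.g (nat_lit 2067) (.e (nat_lit 163849) (nat_lit 0) (.e (nat_lit 5934) (nat_lit 322) (.e (nat_lit 57373) (nat_lit 2) (.e (nat_lit 90174) (nat_lit 14) (.e (nat_lit 180243) (nat_lit 5) .nil))))) (.g (nat_lit 0) (.e (nat_lit 143258) (nat_lit 0) .nil) .nil))))) (.nd (nat_lit 8) (.nd (nat_lit 9) 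
(.lf (nat_lit 489694) (.g (nat_lit 2900) (.e (nat_lit 32807) (nat_lit 18) (.e (nat_lit 172126) (nat_lit 14) (.e (nat_lit 491537) (nat_lit 2) (.e (nat_lit 90174) (nat_lit 14) (.e (nat_lit 180287) (nat_lit 45) (.e (nat_lit 2570) (nat_lit 160) .nil)))))) (.g (nat_lit 1) (.e (nat_lit 141876) (nat_lit 0) .nil) .nil))) 
(.lf (nat_lit 490206) (.g (nat_lit 779) (.e (nat_lit 40993) (nat_lit 11) (.e (nat_lit 24657) (nat_lit 13) (.e (nat_lit 393259) (nat_lit 21) .nil))) (.g (nat_lit 0) (.e (nat_lit 142989) (nat_lit 0) .nil) .nil)))) (.nd (nat_lit 9) 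
(.lf (nat_lit 489950) (.g (nat_lit 837) (.e (nat_lit 49188) (nat_lit 11) (.e (nat_lit 16466) (nat_lit 13) (.e (nat_lit 483374) (nat_lit 22) .nil))) (.g (nat_lit 0) (.e (nat_lit 142640) (nat_lit 0) .nil) .nil))) 
(.lf (nat_lit 490462) (.g (nat_lit 4846) (.e (nat_lit 163861) (nat_lit 1) (.e (nat_lit 164332) (nat_lit 230) (.e (nat_lit 163902) (nat_lit 12) (.e (nat_lit 426438) (nat_lit 18) (.e (nat_lit 98373) (nat_lit 29) (.e (nat_lit 450562) (nat_lit 0) (.e (nat_lit 6839) (nat_lit 369) .nil))))))) (.g (nat_lit 1) (.e (nat_lit 143819) (nat_lit 0) .nil) .nil))))))) 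
(.nd (nat_lit 6) (.nd (nat_lit 7) (.nd (nat_lit 8) (.nd (nat_lit 9) 
(.lf (nat_lit 489534) (.g (nat_lit 2356) (.e (nat_lit 16470) (nat_lit 14) (.e (nat_lit 491571) (nat_lit 13) (.e (nat_lit 393291) (nat_lit 26) (.e (nat_lit 475155) (nat_lit 21) .nil)))) (.g (nat_lit 0) (.e (nat_lit 141074) (nat_lit 0) .nil) .nil))) 
(.lf (nat_lit 490046) (.g (nat_lit 3310) (.e (nat_lit 49189) (nat_lit 11) (.e (nat_lit 16425) (nat_lit 7) (.e (nat_lit 409646) (nat_lit 18) (.e (nat_lit 303143) (nat_lit 12) (.e (nat_lit 475198) (nat_lit 40) (.e (nat_lit 704790) (nat_lit 14) (.e (nat_lit 2590) (nat_lit 162) .nil))))))) (.g (nat_lit 1) (.e (nat_lit 142775) (nat_lit 0) .nil) .nil)))) (.nd (nat_lit 9) 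
(.lf (nat_lit 489790) (.g (nat_lit 2035) (.e (nat_lit 49185) (nat_lit 11) (.e (nat_lit 16425) (nat_lit 7) (.e (nat_lit 409646) (nat_lit 18) (.e (nat_lit 303143) (nat_lit 12) (.e (nat_lit 475219) (nat_lit 44) .nil))))) (.g (nat_lit 0) (.e (nat_lit 142403) (nat_lit 0) .nil) .nil))) 
(.lf (nat_lit 490302) (.g (nat_lit 4852) (.e (nat_lit 163847) (nat_lit 0) (.e (nat_lit 6252) (nat_lit 337) (.e (nat_lit 2641) (nat_lit 165) (.e (nat_lit 180244) (nat_lit 5) (.e (nat_lit 532550) (nat_lit 12) (.e (nat_lit 360474) (nat_lit 8) (.e (nat_lit 557094) (nat_lit 12) .nil))))))) (.g (nat_lit 1) (.e (nat_lit 143209) (nat_lit 0) .nil) .nil))))) (.nd (nat_lit 8) (.nd (nat_lit 9) 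
(.lf (nat_lit 489662) (.g (nat_lit 2741) (.e (nat_lit 32807) (nat_lit 18) (.e (nat_lit 172120) (nat_lit 12) (.e (nat_lit 475185) (nat_lit 29) (.e (nat_lit 557105) (nat_lit 14) (.e (nat_lit 180288) (nat_lit 45) (.e (nat_lit 2570) (nat_lit 160) .nil)))))) (.g (nat_lit 1) (.e (nat_lit 141808) (nat_lit 0) .nil) .nil))) 
(.lf (nat_lit 490174) (.g (nat_lit 2182) (.e (nat_lit 49189) (nat_lit 11) (.e (nat_lit 16448) (nat_lit 10) (.e (nat_lit 434291) (nat_lit 44) (.e (nat_lit 704738) (nat_lit 11) (.e (nat_lit 16392) (nat_lit 0) .nil))))) (.g (nat_lit 0) (.e (nat_lit 142923) (nat_lit 0) .nil) .nil)))) (.nd (nat_lit 9) 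
(.lf (nat_lit 489918) (.g (nat_lit 1266) (.e (nat_lit 49188) (nat_lit 11) (.e (nat_lit 16465) (nat_lit 13) (.e (nat_lit 483395) (nat_lit 24) (.e (nat_lit 344156) (nat_lit 36) .nil)))) (.g (nat_lit 0) (.e (nat_lit 142606) (nat_lit 0) .nil) .nil))) 
(.lf (nat_lit 490430) (.g (nat_lit 1074) (.e (nat_lit 163859) (nat_lit 1) (.e (nat_lit 164325) (nat_lit 230) (.e (nat_lit 163886) (nat_lit 5) (.e (nat_lit 221219) (nat_lit 24) .nil)))) (.g (nat_lit 0) (.e (nat_lit 143617) (nat_lit 0) .nil) .nil)))))) (.nd (nat_lit 7) (.nd (nat_lit 8) (.nd (nat_lit 9) 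
(.lf (nat_lit 489598) (.g (nat_lit 1864) (.e (nat_lit 32806) (nat_lit 18) (.e (nat_lit 172126) (nat_lit 14) (.e (nat_lit 491537) (nat_lit 2) (.e (nat_lit 90174) (nat_lit 14) .nil)))) (.g (nat_lit 0) (.e (nat_lit 141420) (nat_lit 0) .nil) .nil))) 
(.lf (nat_lit 490110) (.g (nat_lit 3084) (.e (nat_lit 49189) (nat_lit 11) (.e (nat_lit 16425) (nat_lit 7) (.e (nat_lit 409648) (nat_lit 18) (.e (nat_lit 303142) (nat_lit 12) (.e (nat_lit 475198) (nat_lit 40) (.e (nat_lit 704790) (nat_lit 14) (.e (nat_lit 2590) (nat_lit 162) .nil))))))) (.g (nat_lit 1) (.e (nat_lit 142839) (nat_lit 0) .nil) .nil)))) (.nd (nat_lit 9) 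
(.lf (nat_lit 489854) (.g (nat_lit 2115) (.e (nat_lit 49187) (nat_lit 11) (.e (nat_lit 16425) (nat_lit 7) (.e (nat_lit 409649) (nat_lit 18) (.e (nat_lit 303133) (nat_lit 9) (.e (nat_lit 426412) (nat_lit 15) .nil))))) (.g (nat_lit 0) (.e (nat_lit 142485) (nat_lit 0) .nil) .nil))) 
(.lf (nat_lit 490366) (.g (nat_lit 3340) (.e (nat_lit 163850) (nat_lit 0) (.e (nat_lit 3304) (nat_lit 202) (.e (nat_lit 573491) (nat_lit 15) (.e (nat_lit 81951) (nat_lit 22) (.e (nat_lit 90170) (nat_lit 13) (.e (nat_lit 172070) (nat_lit 4) (.e (nat_lit 229679) (nat_lit 244) .nil))))))) (.g (nat_lit 1) (.e (nat_lit 143333) (nat_lit 0) .nil) .nil))))) (.nd (nat_lit 8) (.nd (nat_lit 9) 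
(.lf (nat_lit 489726) (.g (nat_lit 2399) (.e (nat_lit 32808) (nat_lit 19) (.e (nat_lit 180278) (nat_lit 32) (.e (nat_lit 1235) (nat_lit 91) (.e (nat_lit 90172) (nat_lit 14) (.e (nat_lit 180285) (nat_lit 45) (.e (nat_lit 2571) (nat_lit 160) .nil)))))) (.g (nat_lit 1) (.e (nat_lit 141964) (nat_lit 0) .nil) .nil))) 
(.lf (nat_lit 490238) (.g (nat_lit 2583) (.e (nat_lit 163840) (nat_lit 0) (.e (nat_lit 3307) (nat_lit 202) (.e (nat_lit 573489) (nat_lit 14) (.e (nat_lit 73754) (nat_lit 8) (.e (nat_lit 557095) (nat_lit 13) .nil))))) (.g (nat_lit 0) (.e (nat_lit 143051) (nat_lit 0) .nil) .nil)))) (.nd (nat_lit 9) 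
(.lf (nat_lit 489982) (.g (nat_lit 2507) (.e (nat_lit 49189) (nat_lit 11) (.e (nat_lit 16424) (nat_lit 7) (.e (nat_lit 409645) (nat_lit 18) (.e (nat_lit 303143) (nat_lit 12) (.e (nat_lit 475199) (nat_lit 40) (.e (nat_lit 704836) (nat_lit 14) (.e (nat_lit 2591) (nat_lit 162) .nil))))))) (.g (nat_lit 1) (.e (nat_lit 142709) (nat_lit 0) .nil) .nil))) 
(.lf (nat_lit 490494) (.g (nat_lit 1368) (.e (nat_lit 163864) (nat_lit 1) (.e (nat_lit 164330) (nat_lit 230) (.e (nat_lit 163902) (nat_lit 12) (.e (nat_lit 426438) (nat_lit 18) .nil)))) (.g (nat_lit 0) (.e (nat_lit 144063) (nat_lit 0) .nil) .nil)))))))))))) 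
(.nd (nat_lit 1) (.nd (nat_lit 2) (.nd (nat_lit 3) (.nd (nat_lit 4) (.nd (nat_lit 5) 
(.nd (nat_lit 6) (.nd (nat_lit 7) (.nd (nat_lit 8) (.nd (nat_lit 9) 
(.lf (nat_lit 489473) (.g (nat_lit 1697) (.e (nat_lit 16468) (nat_lit 13) (.e (nat_lit 483341) (nat_lit 9) (.e (nat_lit 426107) (nat_lit 1) (.e (nat_lit 164325) (nat_lit 230) (.e (nat_lit 163871) (nat_lit 2) .nil))))) (.g (nat_lit 0) (.e (nat_lit 140942) (nat_lit 0) .nil) .nil))) 
(.lf (nat_lit 489985) (.g (nat_lit 1169) (.e (nat_lit 49189) (nat_lit 11) (.e (nat_lit 16424) (nat_lit 7) (.e (nat_lit 409646) (nat_lit 18) (.e (nat_lit 303143) (nat_lit 12) .nil)))) (.g (nat_lit 0) (.e (nat_lit 142712) (nat_lit 0) .nil) .nil)))) (.nd (nat_lit 9) 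
(.lf (nat_lit 489729) (.g (nat_lit 2452) (.e (nat_lit 32808) (nat_lit 19) (.e (nat_lit 180278) (nat_lit 32) (.e (nat_lit 1235) (nat_lit 91) (.e (nat_lit 90174) (nat_lit 14) (.e (nat_lit 180288) (nat_lit 45) (.e (nat_lit 2571) (nat_lit 160) .nil)))))) (.g (nat_lit 1) (.e (nat_lit 141967) (nat_lit 0) .nil) .nil))) 
(.lf (nat_lit 490241) (.g (nat_lit 2889) (.e (nat_lit 163840) (nat_lit 0) (.e (nat_lit 3307) (nat_lit 202) (.e (nat_lit 573489) (nat_lit 14) (.e (nat_lit 73755) (nat_lit 8) (.e (nat_lit 557097) (nat_lit 13) .nil))))) (.g (nat_lit 0) (.e (nat_lit 143054) (nat_lit 0) .nil) .nil))))) (.nd (nat_lit 8) (.nd (nat_lit 9) 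
(.lf (nat_lit 489601) (.g (nat_lit 1580) (.e (nat_lit 32806) (nat_lit 18) (.e (nat_lit 172126) (nat_lit 14) (.e (nat_lit 491539) (nat_lit 3) (.e (nat_lit 98367) (nat_lit 27) .nil)))) (.g (nat_lit 0) (.e (nat_lit 141424) (nat_lit 0) .nil) .nil))) 
(.lf (nat_lit 490113) (.g (nat_lit 2810) (.e (nat_lit 49189) (nat_lit 11) (.e (nat_lit 16425) (nat_lit 7) (.e (nat_lit 409648) (nat_lit 18) (.e (nat_lit 303142) (nat_lit 12) (.e (nat_lit 475199) (nat_lit 40) (.e (nat_lit 704836) (nat_lit 14) (.e (nat_lit 2590) (nat_lit 162) .nil))))))) (.g (nat_lit 1) (.e (nat_lit 142842) (nat_lit 0) .nil) .nil)))) (.nd (nat_lit 9) 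
(.lf (nat_lit 489857) (.g (nat_lit 2028) (.e (nat_lit 49187) (nat_lit 11) (.e (nat_lit 16425) (nat_lit 7) (.e (nat_lit 409649) (nat_lit 18) (.e (nat_lit 303140) (nat_lit 10) (.e (nat_lit 434272) (nat_lit 38) .nil))))) (.g (nat_lit 0) (.e (nat_lit 142488) (nat_lit 0) .nil) .nil))) 
(.lf (nat_lit 490369) (.g (nat_lit 5339) (.e (nat_lit 163850) (nat_lit 0) (.e (nat_lit 3304) (nat_lit 202) (.e (nat_lit 573493) (nat_lit 15) (.e (nat_lit 81951) (nat_lit 22) (.e (nat_lit 90170) (nat_lit 13) (.e (nat_lit 172070) (nat_lit 4) (.e (nat_lit 229678) (nat_lit 244) .nil))))))) (.g (nat_lit 1) (.e (nat_lit 143339) (nat_lit 0) .nil) .nil)))))) 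
(.nd (nat_lit 7) (.nd (nat_lit 8) (.nd (nat_lit 9) 
(.lf (nat_lit 489537) (.g (nat_lit 2293) (.e (nat_lit 16471) (nat_lit 14) (.e (nat_lit 491537) (nat_lit 2) (.e (nat_lit 90170) (nat_lit 13) (.e (nat_lit 172113) (nat_lit 10) (.e (nat_lit 434245) (nat_lit 28) (.e (nat_lit 573470) (nat_lit 11) .nil)))))) (.g (nat_lit 1) (.e (nat_lit 141084) (nat_lit 0) .nil) .nil))) 
(.lf (nat_lit 490049) (.g (nat_lit 2382) (.e (nat_lit 49189) (nat_lit 11) (.e (nat_lit 16425) (nat_lit 7) (.e (nat_lit 409646) (nat_lit 18) (.e (nat_lit 303143) (nat_lit 12) (.e (nat_lit 475199) (nat_lit 40) (.e (nat_lit 704770) (nat_lit 14) (.e (nat_lit 2595) (nat_lit 162) .nil))))))) (.g (nat_lit 1) (.e (nat_lit 142778) (nat_lit 0) .nil) .nil)))) (.nd (nat_lit 9) 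
(.lf (nat_lit 489793) (.g (nat_lit 1800) (.e (nat_lit 49185) (nat_lit 11) (.e (nat_lit 16425) (nat_lit 7) (.e (nat_lit 409648) (nat_lit 18) (.e (nat_lit 303142) (nat_lit 12) (.e (nat_lit 475198) (nat_lit 40) .nil))))) (.g (nat_lit 0) (.e (nat_lit 142406) (nat_lit 0) .nil) .nil))) 
(.lf (nat_lit 490305) (.g (nat_lit 4740) (.e (nat_lit 163847) (nat_lit 0) (.e (nat_lit 6255) (nat_lit 337) (.e (nat_lit 2630) (nat_lit 164) (.e (nat_lit 172062) (nat_lit 2) (.e (nat_lit 196666) (nat_lit 13) (.e (nat_lit 65617) (nat_lit 10) (.e (nat_lit 344133) (nat_lit 26) (.e (nat_lit 557091) (nat_lit 12) .nil)))))))) (.g (nat_lit 1) (.e (nat_lit 143213) (nat_lit 0) .nil) .nil))))) 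
(.nd (nat_lit 8) (.nd (nat_lit 9) 
(.lf (nat_lit 489665) (.g (nat_lit 1644) (.e (nat_lit 32807) (nat_lit 18) (.e (nat_lit 172124) (nat_lit 14) (.e (nat_lit 491537) (nat_lit 2) (.e (nat_lit 90133) (nat_lit 9) .nil)))) (.g (nat_lit 0) (.e (nat_lit 141820) (nat_lit 0) .nil) .nil))) 
(.lf (nat_lit 490177) (.g (nat_lit 1746) (.e (nat_lit 49189) (nat_lit 11) (.e (nat_lit 16463) (nat_lit 13) (.e (nat_lit 483412) (nat_lit 27) (.e (nat_lit 401432) (nat_lit 7) .nil)))) (.g (nat_lit 0) (.e (nat_lit 142931) (nat_lit 0) .nil) .nil)))) (.nd (nat_lit 9) 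
(.lf (nat_lit 489921) (.g (nat_lit 1552) (.e (nat_lit 49188) (nat_lit 11) (.e (nat_lit 16466) (nat_lit 13) (.e (nat_lit 483350) (nat_lit 17) (.e (nat_lit 6109) (nat_lit 332) .nil)))) (.g (nat_lit 0) (.e (nat_lit 142610) (nat_lit 0) .nil) .nil))) 
(.lf (nat_lit 490433) (.g (nat_lit 1467) (.e (nat_lit 163859) (nat_lit 1) (.e (nat_lit 164327) (nat_lit 230) (.e (nat_lit 163886) (nat_lit 5) (.e (nat_lit 221218) (nat_lit 24) .nil)))) (.g (nat_lit 0) (.e (nat_lit 143668) (nat_lit 0) .nil) .nil))))))) (.nd (nat_lit 6) (.nd (nat_lit 7) (.nd (nat_lit 8) (.nd (nat_lit 9) 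
(.lf (nat_lit 489505) (.g (nat_lit 504) (.e (nat_lit 16468) (nat_lit 13) (.e (nat_lit 483372) (nat_lit 21) (.e (nat_lit 319506) (nat_lit 10) .nil))) (.g (nat_lit 0) (.e (nat_lit 141017) (nat_lit 0) .nil) .nil))) 
(.lf (nat_lit 490017) (.g (nat_lit 1964) (.e (nat_lit 49189) (nat_lit 11) (.e (nat_lit 16425) (nat_lit 7) (.e (nat_lit 409645) (nat_lit 18) (.e (nat_lit 303143) (nat_lit 12) (.e (nat_lit 475197) (nat_lit 40) .nil))))) (.g (nat_lit 0) (.e (nat_lit 142746) (nat_lit 0) .nil) .nil)))) (.nd (nat_lit 9) 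
(.lf (nat_lit 489761) (.g (nat_lit 664) (.e (nat_lit 49156) (nat_lit 0) (.e (nat_lit 3026) (nat_lit 187) (.e (nat_lit 458496) (nat_lit 9) (.e (nat_lit 565268) (nat_lit 5) (.e (nat_lit 73791) (nat_lit 45) (.e (nat_lit 1163) (nat_lit 86) .nil)))))) (.g (nat_lit 1) (.e (nat_lit 142241) (nat_lit 0) .nil) .nil))) 
(.lf (nat_lit 490273) (.g (nat_lit 2833) (.e (nat_lit 163844) (nat_lit 0) (.e (nat_lit 3471) (nat_lit 217) (.e (nat_lit 696344) (nat_lit 8) (.e (nat_lit 172079) (nat_lit 7) (.e (nat_lit 409645) (nat_lit 18) (.e (nat_lit 303133) (nat_lit 9) (.e (nat_lit 426042) (nat_lit 0) (.e (nat_lit 2428) (nat_lit 157) (.e (nat_lit 5965) (nat_lit 324) .nil))))))))) (.g (nat_lit 1) (.e (nat_lit 143157) (nat_lit 0) .nil) .nil))))) 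
(.nd (nat_lit 8) (.nd (nat_lit 9) 
(.lf (nat_lit 489633) (.g (nat_lit 2845) (.e (nat_lit 32807) (nat_lit 18) (.e (nat_lit 172119) (nat_lit 12) (.e (nat_lit 475185) (nat_lit 29) (.e (nat_lit 557103) (nat_lit 14) (.e (nat_lit 180287) (nat_lit 45) (.e (nat_lit 2570) (nat_lit 160) .nil)))))) (.g (nat_lit 1) (.e (nat_lit 141777) (nat_lit 0) .nil) .nil))) 
(.lf (nat_lit 490145) (.g (nat_lit 2622) (.e (nat_lit 49189) (nat_lit 11) (.e (nat_lit 16425) (nat_lit 7) (.e (nat_lit 409649) (nat_lit 18) (.e (nat_lit 303140) (nat_lit 10) (.e (nat_lit 434272) (nat_lit 38) (.e (nat_lit 655404) (nat_lit 14) (.e (nat_lit 2591) (nat_lit 162) .nil))))))) (.g (nat_lit 1) (.e (nat_lit 142874) (nat_lit 0) .nil) .nil)))) (.nd (nat_lit 9) 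
(.lf (nat_lit 489889) (.g (nat_lit 5652) (.e (nat_lit 49188) (nat_lit 11) (.e (nat_lit 16416) (nat_lit 3) (.e (nat_lit 204869) (nat_lit 29) (.e (nat_lit 360475) (nat_lit 8) (.e (nat_lit 557119) (nat_lit 18) .nil))))) (.g (nat_lit 0) (.e (nat_lit 142568) (nat_lit 0) .nil) .nil))) 
(.lf (nat_lit 490401) (.g (nat_lit 2716) (.e (nat_lit 163852) (nat_lit 0) (.e (nat_lit 6428) (nat_lit 342) (.e (nat_lit 229409) (nat_lit 13) (.e (nat_lit 434231) (nat_lit 23) (.e (nat_lit 532549) (nat_lit 12) (.e (nat_lit 360473) (nat_lit 8) (.e (nat_lit 557094) (nat_lit 12) .nil))))))) (.g (nat_lit 1) (.e (nat_lit 143547) (nat_lit 0) .nil) .nil)))))) 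
(.nd (nat_lit 7) (.nd (nat_lit 8) (.nd (nat_lit 9) 
(.lf (nat_lit 489569) (.g (nat_lit 3537) (.e (nat_lit 16473) (nat_lit 14) (.e (nat_lit 491560) (nat_lit 10) (.e (nat_lit 344179) (nat_lit 44) (.e (nat_lit 778452) (nat_lit 10) (.e (nat_lit 8543) (nat_lit 229) (.e (nat_lit 229656) (nat_lit 234) .nil)))))) (.g (nat_lit 1) (.e (nat_lit 141153) (nat_lit 0) .nil) .nil))) 
(.lf (nat_lit 490081) (.g (nat_lit 1097) (.e (nat_lit 49189) (nat_lit 11) (.e (nat_lit 16425) (nat_lit 7) (.e (nat_lit 409648) (nat_lit 18) (.e (nat_lit 303137) (nat_lit 10) .nil)))) (.g (nat_lit 0) (.e (nat_lit 142810) (nat_lit 0) .nil) .nil)))) (.nd (nat_lit 9) 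
(.lf (nat_lit 489825) (.g (nat_lit 1889) (.e (nat_lit 49187) (nat_lit 11) (.e (nat_lit 16425) (nat_lit 7) (.e (nat_lit 409643) (nat_lit 18) (.e (nat_lit 303143) (nat_lit 12) (.e (nat_lit 475199) (nat_lit 40) (.e (nat_lit 704836) (nat_lit 14) (.e (nat_lit 2587) (nat_lit 162) .nil))))))) (.g (nat_lit 1) (.e (nat_lit 142456) (nat_lit 0) .nil) .nil))) 
(.lf (nat_lit 490337) (.g (nat_lit 4344) (.e (nat_lit 163849) (nat_lit 0) (.e (nat_lit 6254) (nat_lit 337) (.e (nat_lit 2641) (nat_lit 165) (.e (nat_lit 180244) (nat_lit 5) (.e (nat_lit 532550) (nat_lit 12) (.e (nat_lit 360474) (nat_lit 8) (.e (nat_lit 557093) (nat_lit 12) .nil))))))) (.g (nat_lit 1) (.e (nat_lit 143261) (nat_lit 0) .nil) .nil))))) (.nd (nat_lit 8) (.nd (nat_lit 9) 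
(.lf (nat_lit 489697) (.g (nat_lit 1407) (.e (nat_lit 32807) (nat_lit 18) (.e (nat_lit 172126) (nat_lit 14) (.e (nat_lit 491538) (nat_lit 3) (.e (nat_lit 98367) (nat_lit 27) .nil)))) (.g (nat_lit 0) (.e (nat_lit 141880) (nat_lit 0) .nil) .nil))) 
(.lf (nat_lit 490209) (.g (nat_lit 822) (.e (nat_lit 40993) (nat_lit 11) (.e (nat_lit 24657) (nat_lit 13) (.e (nat_lit 393263) (nat_lit 22) .nil))) (.g (nat_lit 0) (.e (nat_lit 142994) (nat_lit 0) .nil) .nil)))) (.nd (nat_lit 9) 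
(.lf (nat_lit 489953) (.g (nat_lit 990) (.e (nat_lit 49188) (nat_lit 11) (.e (nat_lit 16466) (nat_lit 13) (.e (nat_lit 483376) (nat_lit 22) (.e (nat_lit 327714) (nat_lit 15) .nil)))) (.g (nat_lit 0) (.e (nat_lit 142643) (nat_lit 0) .nil) .nil))) 
(.lf (nat_lit 490465) (.g (nat_lit 4471) (.e (nat_lit 163861) (nat_lit 1) (.e (nat_lit 164332) (nat_lit 230) (.e (nat_lit 163902) (nat_lit 12) (.e (nat_lit 426472) (nat_lit 25) (.e (nat_lit 319534) (nat_lit 16) (.e (nat_lit 286749) (nat_lit 9) (.e (nat_lit 335997) (nat_lit 1) (.e (nat_lit 57686) (nat_lit 156) .nil)))))))) (.g (nat_lit 1) (.e (nat_lit 143822) (nat_lit 0) .nil) .nil)))))))) 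
(.nd (nat_lit 5) (.nd (nat_lit 6) (.nd (nat_lit 7) (.nd (nat_lit 8) (.nd (nat_lit 9) 
(.lf (nat_lit 489489) (.g (nat_lit 625) (.e (nat_lit 16468) (nat_lit 13) (.e (nat_lit 483372) (nat_lit 21) (.e (nat_lit 319503) (nat_lit 10) .nil))) (.g (nat_lit 0) (.e (nat_lit 140995) (nat_lit 0) .nil) .nil))) 
(.lf (nat_lit 490001) (.g (nat_lit 2187) (.e (nat_lit 49189) (nat_lit 11) (.e (nat_lit 16425) (nat_lit 7) (.e (nat_lit 409643) (nat_lit 18) (.e (nat_lit 303143) (nat_lit 12) (.e (nat_lit 475199) (nat_lit 40) (.e (nat_lit 704787) (nat_lit 14) (.e (nat_lit 2592) (nat_lit 162) .nil))))))) (.g (nat_lit 1) (.e (nat_lit 142730) (nat_lit 0) .nil) .nil)))) (.nd (nat_lit 9) 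
(.lf (nat_lit 489745) (.g (nat_lit 925) (.e (nat_lit 49156) (nat_lit 0) (.e (nat_lit 3012) (nat_lit 187) (.e (nat_lit 450584) (nat_lit 9) (.e (nat_lit 565268) (nat_lit 5) (.e (nat_lit 73788) (nat_lit 45) (.e (nat_lit 1162) (nat_lit 86) .nil)))))) (.g (nat_lit 1) (.e (nat_lit 142217) (nat_lit 0) .nil) .nil))) 
(.lf (nat_lit 490257) (.g (nat_lit 5259) (.e (nat_lit 163843) (nat_lit 0) (.e (nat_lit 6254) (nat_lit 337) (.e (nat_lit 2630) (nat_lit 164) (.e (nat_lit 172067) (nat_lit 3) (.e (nat_lit 204869) (nat_lit 29) (.e (nat_lit 360475) (nat_lit 8) (.e (nat_lit 557091) (nat_lit 12) .nil))))))) (.g (nat_lit 1) (.e (nat_lit 143123) (nat_lit 0) .nil) .nil))))) (.nd (nat_lit 8) (.nd (nat_lit 9) 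
(.lf (nat_lit 489617) (.g (nat_lit 2291) (.e (nat_lit 32807) (nat_lit 18) (.e (nat_lit 172118) (nat_lit 12) (.e (nat_lit 475185) (nat_lit 29) (.e (nat_lit 557103) (nat_lit 14) (.e (nat_lit 180284) (nat_lit 45) (.e (nat_lit 2570) (nat_lit 160) .nil)))))) (.g (nat_lit 1) (.e (nat_lit 141760) (nat_lit 0) .nil) .nil))) 
(.lf (nat_lit 490129) (.g (nat_lit 1688) (.e (nat_lit 49189) (nat_lit 11) (.e (nat_lit 16425) (nat_lit 7) (.e (nat_lit 409649) (nat_lit 18) (.e (nat_lit 303140) (nat_lit 10) (.e (nat_lit 434275) (nat_lit 39) .nil))))) (.g (nat_lit 0) (.e (nat_lit 142858) (nat_lit 0) .nil) .nil)))) (.nd (nat_lit 9) 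
(.lf (nat_lit 489873) (.g (nat_lit 2668) (.e (nat_lit 49187) (nat_lit 11) (.e (nat_lit 16473) (nat_lit 14) (.e (nat_lit 491560) (nat_lit 10) (.e (nat_lit 344169) (nat_lit 40) .nil)))) (.g (nat_lit 0) (.e (nat_lit 142537) (nat_lit 0) .nil) .nil))) 
(.lf (nat_lit 490385) (.g (nat_lit 2226) (.e (nat_lit 163851) (nat_lit 0) (.e (nat_lit 3307) (nat_lit 202) (.e (nat_lit 573485) (nat_lit 13) (.e (nat_lit 65619) (nat_lit 10) (.e (nat_lit 344117) (nat_lit 21) .nil))))) (.g (nat_lit 0) (.e (nat_lit 143507) (nat_lit 0) .nil) .nil)))))) (.nd (nat_lit 7) (.nd (nat_lit 8) (.nd (nat_lit 9) 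
(.lf (nat_lit 489553) (.g (nat_lit 4302) (.e (nat_lit 16472) (nat_lit 14) (.e (nat_lit 491537) (nat_lit 2) (.e (nat_lit 90170) (nat_lit 13) (.e (nat_lit 172113) (nat_lit 10) (.e (nat_lit 434247) (nat_lit 28) (.e (nat_lit 573469) (nat_lit 11) .nil)))))) (.g (nat_lit 1) (.e (nat_lit 141105) (nat_lit 0) .nil) .nil))) 
(.lf (nat_lit 490065) (.g (nat_lit 2342) (.e (nat_lit 49189) (nat_lit 11) (.e (nat_lit 16425) (nat_lit 7) (.e (nat_lit 409647) (nat_lit 18) (.e (nat_lit 303143) (nat_lit 12) (.e (nat_lit 475197) (nat_lit 40) (.e (nat_lit 704790) (nat_lit 14) (.e (nat_lit 2592) (nat_lit 162) .nil))))))) (.g (nat_lit 1) (.e (nat_lit 142794) (nat_lit 0) .nil) .nil)))) (.nd (nat_lit 9) 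
(.lf (nat_lit 489809) (.g (nat_lit 1739) (.e (nat_lit 49185) (nat_lit 11) (.e (nat_lit 16465) (nat_lit 13) (.e (nat_lit 483395) (nat_lit 24) (.e (nat_lit 344156) (nat_lit 36) (.e (nat_lit 638976) (nat_lit 0) .nil))))) (.g (nat_lit 0) (.e (nat_lit 142425) (nat_lit 0) .nil) .nil))) 
(.lf (nat_lit 490321) (.g (nat_lit 4866) (.e (nat_lit 163848) (nat_lit 0) (.e (nat_lit 6252) (nat_lit 337) (.e (nat_lit 2630) (nat_lit 164) (.e (nat_lit 172062) (nat_lit 2) (.e (nat_lit 196666) (nat_lit 13) (.e (nat_lit 65610) (nat_lit 10) (.e (nat_lit 344129) (nat_lit 26) (.e (nat_lit 557089) (nat_lit 12) .nil)))))))) (.g (nat_lit 1) (.e (nat_lit 143236) (nat_lit 0) .nil) .nil))))) 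
(.nd (nat_lit 8) (.nd (nat_lit 9) 
(.lf (nat_lit 489681) (.g (nat_lit 1477) (.e (nat_lit 32807) (nat_lit 18) (.e (nat_lit 172126) (nat_lit 14) (.e (nat_lit 491537) (nat_lit 2) (.e (nat_lit 90133) (nat_lit 9) .nil)))) (.g (nat_lit 0) (.e (nat_lit 141860) (nat_lit 0) .nil) .nil))) 
(.lf (nat_lit 490193) (.g (nat_lit 762) (.e (nat_lit 40964) (nat_lit 0) (.e (nat_lit 1582) (nat_lit 111) (.e (nat_lit 368384) (nat_lit 11) (.e (nat_lit 581652) (nat_lit 5) (.e (nat_lit 180285) (nat_lit 45) (.e (nat_lit 2579) (nat_lit 161) .nil)))))) (.g (nat_lit 1) (.e (nat_lit 142959) (nat_lit 0) .nil) .nil)))) (.nd (nat_lit 9) 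
(.lf (nat_lit 489937) (.g (nat_lit 3304) (.e (nat_lit 49188) (nat_lit 11) (.e (nat_lit 16466) (nat_lit 13) (.e (nat_lit 483372) (nat_lit 21) (.e (nat_lit 319504) (nat_lit 10) (.e (nat_lit 4923) (nat_lit 287) .nil))))) (.g (nat_lit 0) (.e (nat_lit 142627) (nat_lit 0) .nil) .nil))) 
(.lf (nat_lit 490449) (.g (nat_lit 2209) (.e (nat_lit 163860) (nat_lit 1) (.e (nat_lit 164332) (nat_lit 230) (.e (nat_lit 163902) (nat_lit 12) (.e (nat_lit 426438) (nat_lit 18) (.e (nat_lit 98372) (nat_lit 29) (.e (nat_lit 450568) (nat_lit 0) (.e (nat_lit 7936) (nat_lit 369) .nil))))))) (.g (nat_lit 1) (.e (nat_lit 143724) (nat_lit 0) .nil) .nil))))))) 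
(.nd (nat_lit 6) (.nd (nat_lit 7) (.nd (nat_lit 8) (.nd (nat_lit 9) 
(.lf (nat_lit 489521) (.g (nat_lit 3189) (.e (nat_lit 16470) (nat_lit 14) (.e (nat_lit 491537) (nat_lit 2) (.e (nat_lit 90170) (nat_lit 13) (.e (nat_lit 172113) (nat_lit 10) (.e (nat_lit 434246) (nat_lit 28) (.e (nat_lit 573471) (nat_lit 11) .nil)))))) (.g (nat_lit 1) (.e (nat_lit 141061) (nat_lit 0) .nil) .nil))) 
(.lf (nat_lit 490033) (.g (nat_lit 2813) (.e (nat_lit 49189) (nat_lit 11) (.e (nat_lit 16425) (nat_lit 7) (.e (nat_lit 409645) (nat_lit 18) (.e (nat_lit 303143) (nat_lit 12) (.e (nat_lit 475199) (nat_lit 40) (.e (nat_lit 704836) (nat_lit 14) (.e (nat_lit 2587) (nat_lit 162) .nil))))))) (.g (nat_lit 1) (.e (nat_lit 142762) (nat_lit 0) .nil) .nil)))) (.nd (nat_lit 9) 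
(.lf (nat_lit 489777) (.g (nat_lit 658) (.e (nat_lit 57088) (nat_lit 6) (.e (nat_lit 188441) (nat_lit 20) (.e (nat_lit 3289) (nat_lit 201) (.e (nat_lit 565268) (nat_lit 5) (.e (nat_lit 73791) (nat_lit 45) .nil))))) (.g (nat_lit 0) (.e (nat_lit 142312) (nat_lit 0) .nil) .nil))) 
(.lf (nat_lit 490289) (.g (nat_lit 5024) (.e (nat_lit 163844) (nat_lit 0) (.e (nat_lit 5943) (nat_lit 322) (.e (nat_lit 57379) (nat_lit 3) (.e (nat_lit 98367) (nat_lit 27) (.e (nat_lit 434247) (nat_lit 28) (.e (nat_lit 573489) (nat_lit 14) (.e (nat_lit 73755) (nat_lit 8) (.e (nat_lit 557090) (nat_lit 12) .nil)))))))) (.g (nat_lit 1) (.e (nat_lit 143173) (nat_lit 0) .nil) .nil))))) 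
(.nd (nat_lit 8) (.nd (nat_lit 9) 
(.lf (nat_lit 489649) (.g (nat_lit 2734) (.e (nat_lit 32807) (nat_lit 18) (.e (nat_lit 172120) (nat_lit 12) (.e (nat_lit 475185) (nat_lit 29) (.e (nat_lit 557100) (nat_lit 13) (.e (nat_lit 172039) (nat_lit 0) (.e (nat_lit 7013) (nat_lit 377) (.e (nat_lit 2570) (nat_lit 160) .nil))))))) (.g (nat_lit 1) (.e (nat_lit 141793) (nat_lit 0) .nil) .nil))) 
(.lf (nat_lit 490161) (.g (nat_lit 2532) (.e (nat_lit 49189) (nat_lit 11) (.e (nat_lit 16425) (nat_lit 7) (.e (nat_lit 409649) (nat_lit 18) (.e (nat_lit 303143) (nat_lit 12) (.e (nat_lit 475199) (nat_lit 40) (.e (nat_lit 704790) (nat_lit 14) (.e (nat_lit 2590) (nat_lit 162) .nil))))))) (.g (nat_lit 1) (.e (nat_lit 142890) (nat_lit 0) .nil) .nil)))) (.nd (nat_lit 9) 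
(.lf (nat_lit 489905) (.g (nat_lit 263) (.e (nat_lit 49188) (nat_lit 11) (.e (nat_lit 16434) (nat_lit 9) (.e (nat_lit 426550) (nat_lit 31) .nil))) (.g (nat_lit 0) (.e (nat_lit 142585) (nat_lit 0) .nil) .nil))) 
(.lf (nat_lit 490417) (.g (nat_lit 2976) (.e (nat_lit 163854) (nat_lit 0) (.e (nat_lit 3307) (nat_lit 202) (.e (nat_lit 573489) (nat_lit 14) (.e (nat_lit 73755) (nat_lit 8) (.e (nat_lit 557097) (nat_lit 13) .nil))))) (.g (nat_lit 0) (.e (nat_lit 143583) (nat_lit 0) .nil) .nil)))))) (.nd (nat_lit 7) (.nd (nat_lit 8) (.nd (nat_lit 9) 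
(.lf (nat_lit 489585) (.g (nat_lit 2116) (.e (nat_lit 32806) (nat_lit 18) (.e (nat_lit 172120) (nat_lit 12) (.e (nat_lit 475185) (nat_lit 29) (.e (nat_lit 557105) (nat_lit 14) .nil)))) (.g (nat_lit 0) (.e (nat_lit 141402) (nat_lit 0) .nil) .nil))) 
(.lf (nat_lit 490097) (.g (nat_lit 2830) (.e (nat_lit 49189) (nat_lit 11) (.e (nat_lit 16425) (nat_lit 7) (.e (nat_lit 409648) (nat_lit 18) (.e (nat_lit 303137) (nat_lit 10) (.e (nat_lit 434271) (nat_lit 38) (.e (nat_lit 663296) (nat_lit 14) (.e (nat_lit 2591) (nat_lit 162) .nil))))))) (.g (nat_lit 1) (.e (nat_lit 142826) (nat_lit 0) .nil) .nil)))) (.nd (nat_lit 9) 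
(.lf (nat_lit 489841) (.g (nat_lit 1178) (.e (nat_lit 49187) (nat_lit 11) (.e (nat_lit 16425) (nat_lit 7) (.e (nat_lit 409647) (nat_lit 18) (.e (nat_lit 303143) (nat_lit 12) .nil)))) (.g (nat_lit 0) (.e (nat_lit 142472) (nat_lit 0) .nil) .nil))) 
(.lf (nat_lit 490353) (.g (nat_lit 2451) (.e (nat_lit 163850) (nat_lit 0) (.e (nat_lit 3238) (nat_lit 197) (.e (nat_lit 532513) (nat_lit 3) (.e (nat_lit 114714) (nat_lit 22) (.e (nat_lit 90169) (nat_lit 13) .nil))))) (.g (nat_lit 0) (.e (nat_lit 143296) (nat_lit 0) .nil) .nil))))) (.nd (nat_lit 8) (.nd (nat_lit 9) 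
(.lf (nat_lit 489713) (.g (nat_lit 987) (.e (nat_lit 32808) (nat_lit 19) (.e (nat_lit 180277) (nat_lit 32) (.e (nat_lit 1235) (nat_lit 91) (.e (nat_lit 90173) (nat_lit 14) (.e (nat_lit 180284) (nat_lit 45) .nil))))) (.g (nat_lit 0) (.e (nat_lit 141951) (nat_lit 0) .nil) .nil))) 
(.lf (nat_lit 490225) (.g (nat_lit 3298) (.e (nat_lit 40996) (nat_lit 11) (.e (nat_lit 24658) (nat_lit 13) (.e (nat_lit 393260) (nat_lit 21) (.e (nat_lit 409616) (nat_lit 10) (.e (nat_lit 4979) (nat_lit 287) (.e (nat_lit 2577) (nat_lit 161) .nil)))))) (.g (nat_lit 1) (.e (nat_lit 143018) (nat_lit 0) .nil) .nil)))) (.nd (nat_lit 9) 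
(.lf (nat_lit 489969) (.g (nat_lit 754) (.e (nat_lit 49189) (nat_lit 11) (.e (nat_lit 16392) (nat_lit 0) (.e (nat_lit 3478) (nat_lit 218) .nil))) (.g (nat_lit 0) (.e (nat_lit 142678) (nat_lit 0) .nil) .nil))) 
(.lf (nat_lit 490481) (.g (nat_lit 2898) (.e (nat_lit 163863) (nat_lit 1) (.e (nat_lit 164325) (nat_lit 230) (.e (nat_lit 163903) (nat_lit 12) (.e (nat_lit 426438) (nat_lit 18) (.e (nat_lit 98373) (nat_lit 29) (.e (nat_lit 450560) (nat_lit 0) (.e (nat_lit 6839) (nat_lit 369) .nil))))))) (.g (nat_lit 1) (.e (nat_lit 143924) (nat_lit 0) .nil) .nil))))))))) 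
(.nd (nat_lit 4) (.nd (nat_lit 5) (.nd (nat_lit 6) (.nd (nat_lit 7) (.nd (nat_lit 8) 
(.nd (nat_lit 9) 
(.lf (nat_lit 489481) (.g (nat_lit 1704) (.e (nat_lit 16468) (nat_lit 13) (.e (nat_lit 483350) (nat_lit 17) (.e (nat_lit 6218) (nat_lit 333) (.e (nat_lit 57808) (nat_lit 246) .nil)))) (.g (nat_lit 0) (.e (nat_lit 140983) (nat_lit 0) .nil) .nil))) 
(.lf (nat_lit 489993) (.g (nat_lit 2451) (.e (nat_lit 49189) (nat_lit 11) (.e (nat_lit 16425) (nat_lit 7) (.e (nat_lit 409643) (nat_lit 18) (.e (nat_lit 303143) (nat_lit 12) (.e (nat_lit 475197) (nat_lit 40) (.e (nat_lit 704787) (nat_lit 14) (.e (nat_lit 2592) (nat_lit 162) .nil))))))) (.g (nat_lit 1) (.e (nat_lit 142722) (nat_lit 0) .nil) .nil)))) (.nd (nat_lit 9) 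
(.lf (nat_lit 489737) (.g (nat_lit 2628) (.e (nat_lit 32809) (nat_lit 20) (.e (nat_lit 188420) (nat_lit 0) (.e (nat_lit 1856) (nat_lit 124) (.e (nat_lit 557103) (nat_lit 14) (.e (nat_lit 180285) (nat_lit 45) (.e (nat_lit 2571) (nat_lit 160) .nil)))))) (.g (nat_lit 1) (.e (nat_lit 142006) (nat_lit 0) .nil) .nil))) 
(.lf (nat_lit 490249) (.g (nat_lit 1838) (.e (nat_lit 163841) (nat_lit 0) (.e (nat_lit 5942) (nat_lit 322) (.e (nat_lit 57375) (nat_lit 2) (.e (nat_lit 90172) (nat_lit 14) (.e (nat_lit 180251) (nat_lit 10) .nil))))) (.g (nat_lit 0) (.e (nat_lit 143081) (nat_lit 0) .nil) .nil))))) (.nd (nat_lit 8) (.nd (nat_lit 9) 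
(.lf (nat_lit 489609) (.g (nat_lit 980) (.e (nat_lit 32807) (nat_lit 18) (.e (nat_lit 172067) (nat_lit 3) (.e (nat_lit 204829) (nat_lit 18) .nil))) (.g (nat_lit 0) (.e (nat_lit 141441) (nat_lit 0) .nil) .nil))) 
(.lf (nat_lit 490121) (.g (nat_lit 3454) (.e (nat_lit 49189) (nat_lit 11) (.e (nat_lit 16425) (nat_lit 7) (.e (nat_lit 409648) (nat_lit 18) (.e (nat_lit 303143) (nat_lit 12) (.e (nat_lit 475198) (nat_lit 40) (.e (nat_lit 704790) (nat_lit 14) (.e (nat_lit 2592) (nat_lit 162) .nil))))))) (.g (nat_lit 1) (.e (nat_lit 142850) (nat_lit 0) .nil) .nil)))) (.nd (nat_lit 9) 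
(.lf (nat_lit 489865) (.g (nat_lit 2556) (.e (nat_lit 49187) (nat_lit 11) (.e (nat_lit 16473) (nat_lit 14) (.e (nat_lit 491526) (nat_lit 0) (.e (nat_lit 2270) (nat_lit 149) .nil)))) (.g (nat_lit 0) (.e (nat_lit 142528) (nat_lit 0) .nil) .nil))) 
(.lf (nat_lit 490377) (.g (nat_lit 2499) (.e (nat_lit 163850) (nat_lit 0) (.e (nat_lit 5546) (nat_lit 306) (.e (nat_lit 2650) (nat_lit 166) (.e (nat_lit 188455) (nat_lit 24) (.e (nat_lit 229678) (nat_lit 244) .nil))))) (.g (nat_lit 0) (.e (nat_lit 143438) (nat_lit 0) .nil) .nil)))))) (.nd (nat_lit 7) (.nd (nat_lit 8) (.nd (nat_lit 9) 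
(.lf (nat_lit 489545) (.g (nat_lit 1770) (.e (nat_lit 16472) (nat_lit 14) (.e (nat_lit 491536) (nat_lit 2) (.e (nat_lit 90170) (nat_lit 13) (.e (nat_lit 172113) (nat_lit 10) (.e (nat_lit 434242) (nat_lit 28) (.e (nat_lit 573470) (nat_lit 11) .nil)))))) (.g (nat_lit 1) (.e (nat_lit 141095) (nat_lit 0) .nil) .nil))) 
(.lf (nat_lit 490057) (.g (nat_lit 3082) (.e (nat_lit 49189) (nat_lit 11) (.e (nat_lit 16425) (nat_lit 7) (.e (nat_lit 409646) (nat_lit 18) (.e (nat_lit 303143) (nat_lit 12) (.e (nat_lit 475199) (nat_lit 40) (.e (nat_lit 704836) (nat_lit 14) (.e (nat_lit 2590) (nat_lit 162) .nil))))))) (.g (nat_lit 1) (.e (nat_lit 142786) (nat_lit 0) .nil) .nil)))) (.nd (nat_lit 9) 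
(.lf (nat_lit 489801) (.g (nat_lit 2564) (.e (nat_lit 49185) (nat_lit 11) (.e (nat_lit 16435) (nat_lit 9) (.e (nat_lit 426482) (nat_lit 27) (.e (nat_lit 336060) (nat_lit 7) (.e (nat_lit 319505) (nat_lit 10) (.e (nat_lit 4925) (nat_lit 287) (.e (nat_lit 1163) (nat_lit 86) .nil))))))) (.g (nat_lit 1) (.e (nat_lit 142414) (nat_lit 0) .nil) .nil))) 
(.lf (nat_lit 490313) (.g (nat_lit 3846) (.e (nat_lit 163847) (nat_lit 0) (.e (nat_lit 6420) (nat_lit 341) (.e (nat_lit 163900) (nat_lit 12) (.e (nat_lit 426140) (nat_lit 3) (.e (nat_lit 204869) (nat_lit 29) (.e (nat_lit 360475) (nat_lit 8) (.e (nat_lit 557091) (nat_lit 12) .nil))))))) (.g (nat_lit 1) (.e (nat_lit 143225) (nat_lit 0) .nil) .nil))))) (.nd (nat_lit 8) (.nd (nat_lit 9) 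
(.lf (nat_lit 489673) (.g (nat_lit 345) (.e (nat_lit 32807) (nat_lit 18) (.e (nat_lit 172124) (nat_lit 14) (.e (nat_lit 491540) (nat_lit 3) .nil))) (.g (nat_lit 0) (.e (nat_lit 141830) (nat_lit 0) .nil) .nil))) 
(.lf (nat_lit 490185) (.g (nat_lit 2312) (.e (nat_lit 49191) (nat_lit 12) (.e (nat_lit 57464) (nat_lit 23) (.e (nat_lit 516183) (nat_lit 16) (.e (nat_lit 491571) (nat_lit 13) (.e (nat_lit 393242) (nat_lit 17) .nil))))) (.g (nat_lit 0) (.e (nat_lit 142948) (nat_lit 0) .nil) .nil)))) (.nd (nat_lit 9) 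
(.lf (nat_lit 489929) (.g (nat_lit 2736) (.e (nat_lit 49188) (nat_lit 11) (.e (nat_lit 16466) (nat_lit 13) (.e (nat_lit 483350) (nat_lit 17) (.e (nat_lit 6218) (nat_lit 333) (.e (nat_lit 57792) (nat_lit 245) .nil))))) (.g (nat_lit 0) (.e (nat_lit 142619) (nat_lit 0) .nil) .nil))) 
(.lf (nat_lit 490441) (.g (nat_lit 2547) (.e (nat_lit 163860) (nat_lit 1) (.e (nat_lit 164330) (nat_lit 230) (.e (nat_lit 163902) (nat_lit 12) (.e (nat_lit 426422) (nat_lit 16) (.e (nat_lit 57687) (nat_lit 156) (.e (nat_lit 163933) (nat_lit 17) (.e (nat_lit 466972) (nat_lit 21) (.e (nat_lit 164332) (nat_lit 230) .nil)))))))) (.g (nat_lit 1) (.e (nat_lit 143695) (nat_lit 0) .nil) .nil))))))) 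
(.nd (nat_lit 6) (.nd (nat_lit 7) (.nd (nat_lit 8) (.nd (nat_lit 9) 
(.lf (nat_lit 489513) (.g (nat_lit 960) (.e (nat_lit 16468) (nat_lit 13) (.e (nat_lit 483372) (nat_lit 21) (.e (nat_lit 319525) (nat_lit 15) .nil))) (.g (nat_lit 0) (.e (nat_lit 141029) (nat_lit 0) .nil) .nil))) 
(.lf (nat_lit 490025) (.g (nat_lit 2747) (.e (nat_lit 49189) (nat_lit 11) (.e (nat_lit 16425) (nat_lit 7) (.e (nat_lit 409645) (nat_lit 18) (.e (nat_lit 303143) (nat_lit 12) (.e (nat_lit 475197) (nat_lit 40) (.e (nat_lit 704790) (nat_lit 14) (.e (nat_lit 2592) (nat_lit 162) .nil))))))) (.g (nat_lit 1) (.e (nat_lit 142754) (nat_lit 0) .nil) .nil)))) (.nd (nat_lit 9) 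
(.lf (nat_lit 489769) (.g (nat_lit 1886) (.e (nat_lit 49157) (nat_lit 0) (.e (nat_lit 3026) (nat_lit 187) (.e (nat_lit 450584) (nat_lit 9) (.e (nat_lit 565268) (nat_lit 5) (.e (nat_lit 73791) (nat_lit 45) (.e (nat_lit 1162) (nat_lit 86) .nil)))))) (.g (nat_lit 1) (.e (nat_lit 142268) (nat_lit 0) .nil) .nil))) 
(.lf (nat_lit 490281) (.g (nat_lit 1791) (.e (nat_lit 163844) (nat_lit 0) (.e (nat_lit 3471) (nat_lit 217) (.e (nat_lit 696344) (nat_lit 8) (.e (nat_lit 172082) (nat_lit 7) (.e (nat_lit 409646) (nat_lit 18) (.e (nat_lit 303133) (nat_lit 9) (.e (nat_lit 426043) (nat_lit 0) (.e (nat_lit 2448) (nat_lit 157) (.e (nat_lit 5965) (nat_lit 324) .nil))))))))) (.g (nat_lit 1) (.e (nat_lit 143165) (nat_lit 0) .nil) .nil))))) 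
(.nd (nat_lit 8) (.nd (nat_lit 9) 
(.lf (nat_lit 489641) (.g (nat_lit 2699) (.e (nat_lit 32807) (nat_lit 18) (.e (nat_lit 172119) (nat_lit 12) (.e (nat_lit 475185) (nat_lit 29) (.e (nat_lit 557105) (nat_lit 14) (.e (nat_lit 180285) (nat_lit 45) (.e (nat_lit 2569) (nat_lit 160) .nil)))))) (.g (nat_lit 1) (.e (nat_lit 141785) (nat_lit 0) .nil) .nil))) 
(.lf (nat_lit 490153) (.g (nat_lit 2825) (.e (nat_lit 49189) (nat_lit 11) (.e (nat_lit 16425) (nat_lit 7) (.e (nat_lit 409649) (nat_lit 18) (.e (nat_lit 303143) (nat_lit 12) (.e (nat_lit 475197) (nat_lit 40) (.e (nat_lit 704790) (nat_lit 14) (.e (nat_lit 2587) (nat_lit 162) .nil))))))) (.g (nat_lit 1) (.e (nat_lit 142882) (nat_lit 0) .nil) .nil)))) (.nd (nat_lit 9) 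
(.lf (nat_lit 489897) (.g (nat_lit 2902) (.e (nat_lit 49188) (nat_lit 11) (.e (nat_lit 16425) (nat_lit 7) (.e (nat_lit 409645) (nat_lit 18) (.e (nat_lit 303143) (nat_lit 12) (.e (nat_lit 475220) (nat_lit 44) (.e (nat_lit 737318) (nat_lit 15) .nil)))))) (.g (nat_lit 1) (.e (nat_lit 142577) (nat_lit 0) .nil) .nil))) 
(.lf (nat_lit 490409) (.g (nat_lit 2341) (.e (nat_lit 163853) (nat_lit 0) (.e (nat_lit 5224) (nat_lit 296) (.e (nat_lit 163875) (nat_lit 3) (.e (nat_lit 204837) (nat_lit 20) (.e (nat_lit 114719) (nat_lit 23) .nil))))) (.g (nat_lit 0) (.e (nat_lit 143568) (nat_lit 0) .nil) .nil)))))) (.nd (nat_lit 7) (.nd (nat_lit 8) (.nd (nat_lit 9) 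
(.lf (nat_lit 489577) (.g (nat_lit 1743) (.e (nat_lit 16485) (nat_lit 27) (.e (nat_lit 336051) (nat_lit 6) (.e (nat_lit 147495) (nat_lit 11) (.e (nat_lit 24580) (nat_lit 0) .nil)))) (.g (nat_lit 0) (.e (nat_lit 141291) (nat_lit 0) .nil) .nil))) 
(.lf (nat_lit 490089) (.g (nat_lit 2802) (.e (nat_lit 49189) (nat_lit 11) (.e (nat_lit 16425) (nat_lit 7) (.e (nat_lit 409648) (nat_lit 18) (.e (nat_lit 303137) (nat_lit 10) (.e (nat_lit 434275) (nat_lit 39) (.e (nat_lit 671488) (nat_lit 14) (.e (nat_lit 1167) (nat_lit 86) .nil))))))) (.g (nat_lit 1) (.e (nat_lit 142818) (nat_lit 0) .nil) .nil)))) (.nd (nat_lit 9) 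
(.lf (nat_lit 489833) (.g (nat_lit 2105) (.e (nat_lit 49187) (nat_lit 11) (.e (nat_lit 16425) (nat_lit 7) (.e (nat_lit 409645) (nat_lit 18) (.e (nat_lit 303143) (nat_lit 12) (.e (nat_lit 475199) (nat_lit 40) .nil))))) (.g (nat_lit 0) (.e (nat_lit 142464) (nat_lit 0) .nil) .nil))) 
(.lf (nat_lit 490345) (.g (nat_lit 1359) (.e (nat_lit 163849) (nat_lit 0) (.e (nat_lit 6255) (nat_lit 337) (.e (nat_lit 2643) (nat_lit 165) (.e (nat_lit 180246) (nat_lit 6) .nil)))) (.g (nat_lit 0) (.e (nat_lit 143270) (nat_lit 0) .nil) .nil))))) (.nd (nat_lit 8) (.nd (nat_lit 9) 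
(.lf (nat_lit 489705) (.g (nat_lit 3627) (.e (nat_lit 32807) (nat_lit 18) (.e (nat_lit 172126) (nat_lit 14) (.e (nat_lit 491540) (nat_lit 3) (.e (nat_lit 98367) (nat_lit 27) (.e (nat_lit 434186) (nat_lit 13) (.e (nat_lit 2569) (nat_lit 160) .nil)))))) (.g (nat_lit 1) (.e (nat_lit 141896) (nat_lit 0) .nil) .nil))) 
(.lf (nat_lit 490217) (.g (nat_lit 1375) (.e (nat_lit 40996) (nat_lit 11) (.e (nat_lit 24654) (nat_lit 13) (.e (nat_lit 393260) (nat_lit 21) (.e (nat_lit 409616) (nat_lit 10) .nil)))) (.g (nat_lit 0) (.e (nat_lit 143010) (nat_lit 0) .nil) .nil)))) (.nd (nat_lit 9) 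
(.lf (nat_lit 489961) (.g (nat_lit 811) (.e (nat_lit 49188) (nat_lit 11) (.e (nat_lit 16473) (nat_lit 14) (.e (nat_lit 491560) (nat_lit 10) .nil))) (.g (nat_lit 0) (.e (nat_lit 142669) (nat_lit 0) .nil) .nil))) 
(.lf (nat_lit 490473) (.g (nat_lit 3529) (.e (nat_lit 163862) (nat_lit 1) (.e (nat_lit 164327) (nat_lit 230) (.e (nat_lit 163903) (nat_lit 12) (.e (nat_lit 426428) (nat_lit 17) (.e (nat_lit 90170) (nat_lit 13) .nil))))) (.g (nat_lit 0) (.e (nat_lit 143879) (nat_lit 0) .nil) .nil)))))))) (.nd (nat_lit 5) (.nd (nat_lit 6) (.nd (nat_lit 7) (.nd (nat_lit 8) (.nd (nat_lit 9) 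
(.lf (nat_lit 489497) (.g (nat_lit 1445) (.e (nat_lit 16468) (nat_lit 13) (.e (nat_lit 483372) (nat_lit 21) (.e (nat_lit 319504) (nat_lit 10) (.e (nat_lit 4987) (nat_lit 288) .nil)))) (.g (nat_lit 0) (.e (nat_lit 141005) (nat_lit 0) .nil) .nil))) 
(.lf (nat_lit 490009) (.g (nat_lit 3016) (.e (nat_lit 49189) (nat_lit 11) (.e (nat_lit 16425) (nat_lit 7) (.e (nat_lit 409644) (nat_lit 18) (.e (nat_lit 303143) (nat_lit 12) (.e (nat_lit 475198) (nat_lit 40) (.e (nat_lit 704790) (nat_lit 14) (.e (nat_lit 2587) (nat_lit 162) .nil))))))) (.g (nat_lit 1) (.e (nat_lit 142738) (nat_lit 0) .nil) .nil)))) (.nd (nat_lit 9) 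
(.lf (nat_lit 489753) (.g (nat_lit 1524) (.e (nat_lit 49156) (nat_lit 0) (.e (nat_lit 3026) (nat_lit 187) (.e (nat_lit 450584) (nat_lit 9) (.e (nat_lit 565268) (nat_lit 5) (.e (nat_lit 73788) (nat_lit 45) (.e (nat_lit 1162) (nat_lit 86) .nil)))))) (.g (nat_lit 1) (.e (nat_lit 142233) (nat_lit 0) .nil) .nil))) 
(.lf (nat_lit 490265) (.g (nat_lit 1438) (.e (nat_lit 163843) (nat_lit 0) (.e (nat_lit 6421) (nat_lit 341) (.e (nat_lit 163943) (nat_lit 19) (.e (nat_lit 491264) (nat_lit 11) .nil)))) (.g (nat_lit 0) (.e (nat_lit 143131) (nat_lit 0) .nil) .nil))))) (.nd (nat_lit 8) (.nd (nat_lit 9) 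
(.lf (nat_lit 489625) (.g (nat_lit 2199) (.e (nat_lit 32807) (nat_lit 18) (.e (nat_lit 172119) (nat_lit 12) (.e (nat_lit 475183) (nat_lit 29) (.e (nat_lit 557103) (nat_lit 14) (.e (nat_lit 180288) (nat_lit 45) .nil))))) (.g (nat_lit 0) (.e (nat_lit 141769) (nat_lit 0) .nil) .nil))) 
(.lf (nat_lit 490137) (.g (nat_lit 2005) (.e (nat_lit 49189) (nat_lit 11) (.e (nat_lit 16425) (nat_lit 7) (.e (nat_lit 409649) (nat_lit 18) (.e (nat_lit 303140) (nat_lit 10) (.e (nat_lit 434271) (nat_lit 38) (.e (nat_lit 655404) (nat_lit 14) (.e (nat_lit 2587) (nat_lit 162) .nil))))))) (.g (nat_lit 1) (.e (nat_lit 142866) (nat_lit 0) .nil) .nil)))) (.nd (nat_lit 9) 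
(.lf (nat_lit 489881) (.g (nat_lit 2540) (.e (nat_lit 49188) (nat_lit 11) (.e (nat_lit 16412) (nat_lit 2) (.e (nat_lit 196666) (nat_lit 13) (.e (nat_lit 65610) (nat_lit 10) (.e (nat_lit 344129) (nat_lit 26) .nil))))) (.g (nat_lit 0) (.e (nat_lit 142547) (nat_lit 0) .nil) .nil))) 
(.lf (nat_lit 490393) (.g (nat_lit 3687) (.e (nat_lit 163852) (nat_lit 0) (.e (nat_lit 6426) (nat_lit 342) (.e (nat_lit 229409) (nat_lit 13) (.e (nat_lit 434231) (nat_lit 23) (.e (nat_lit 532549) (nat_lit 12) (.e (nat_lit 360473) (nat_lit 8) (.e (nat_lit 557091) (nat_lit 12) .nil))))))) (.g (nat_lit 1) (.e (nat_lit 143536) (nat_lit 0) .nil) .nil)))))) 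
(.nd (nat_lit 7) (.nd (nat_lit 8) (.nd (nat_lit 9) 
(.lf (nat_lit 489561) (.g (nat_lit 1812) (.e (nat_lit 16473) (nat_lit 14) (.e (nat_lit 491536) (nat_lit 2) (.e (nat_lit 90170) (nat_lit 13) (.e (nat_lit 172113) (nat_lit 10) (.e (nat_lit 434242) (nat_lit 28) (.e (nat_lit 573470) (nat_lit 11) .nil)))))) (.g (nat_lit 1) (.e (nat_lit 141142) (nat_lit 0) .nil) .nil))) 
(.lf (nat_lit 490073) (.g (nat_lit 3009) (.e (nat_lit 49189) (nat_lit 11) (.e (nat_lit 16425) (nat_lit 7) (.e (nat_lit 409647) (nat_lit 18) (.e (nat_lit 303143) (nat_lit 12) (.e (nat_lit 475199) (nat_lit 40) (.e (nat_lit 704836) (nat_lit 14) (.e (nat_lit 2590) (nat_lit 162) .nil))))))) (.g (nat_lit 1) (.e (nat_lit 142802) (nat_lit 0) .nil) .nil)))) (.nd (nat_lit 9) 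
(.lf (nat_lit 489817) (.g (nat_lit 533) (.e (nat_lit 49186) (nat_lit 11) (.e (nat_lit 16465) (nat_lit 13) (.e (nat_lit 491264) (nat_lit 17) .nil))) (.g (nat_lit 0) (.e (nat_lit 142438) (nat_lit 0) .nil) .nil))) 
(.lf (nat_lit 490329) (.g (nat_lit 1543) (.e (nat_lit 163848) (nat_lit 0) (.e (nat_lit 6254) (nat_lit 337) (.e (nat_lit 2630) (nat_lit 164) (.e (nat_lit 172065) (nat_lit 3) (.e (nat_lit 204868) (nat_lit 29) .nil))))) (.g (nat_lit 0) (.e (nat_lit 143246) (nat_lit 0) .nil) .nil))))) (.nd (nat_lit 8) (.nd (nat_lit 9) 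
(.lf (nat_lit 489689) (.g (nat_lit 3469) (.e (nat_lit 32807) (nat_lit 18) (.e (nat_lit 172126) (nat_lit 14) (.e (nat_lit 491537) (nat_lit 2) (.e (nat_lit 90170) (nat_lit 13) (.e (nat_lit 172082) (nat_lit 7) (.e (nat_lit 409631) (nat_lit 12) .nil)))))) (.g (nat_lit 1) (.e (nat_lit 141870) (nat_lit 0) .nil) .nil))) 
(.lf (nat_lit 490201) (.g (nat_lit 298) (.e (nat_lit 48896) (nat_lit 6) (.e (nat_lit 81935) (nat_lit 20) (.e (nat_lit 1879) (nat_lit 126) .nil))) (.g (nat_lit 0) (.e (nat_lit 142972) (nat_lit 0) .nil) .nil)))) (.nd (nat_lit 9) 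
(.lf (nat_lit 489945) (.g (nat_lit 2700) (.e (nat_lit 49188) (nat_lit 11) (.e (nat_lit 16466) (nat_lit 13) (.e (nat_lit 483372) (nat_lit 21) (.e (nat_lit 319506) (nat_lit 10) (.e (nat_lit 4868) (nat_lit 287) .nil))))) (.g (nat_lit 0) (.e (nat_lit 142635) (nat_lit 0) .nil) .nil))) 
(.lf (nat_lit 490457) (.g (nat_lit 917) (.e (nat_lit 163861) (nat_lit 1) (.e (nat_lit 164329) (nat_lit 230) (.e (nat_lit 163885) (nat_lit 5) (.e (nat_lit 221219) (nat_lit 24) .nil)))) (.g (nat_lit 0) (.e (nat_lit 143757) (nat_lit 0) .nil) .nil))))))) (.nd (nat_lit 6) (.nd (nat_lit 7) (.nd (nat_lit 8) (.nd (nat_lit 9) 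
(.lf (nat_lit 489529) (.g (nat_lit 2543) (.e (nat_lit 16470) (nat_lit 14) (.e (nat_lit 491571) (nat_lit 13) (.e (nat_lit 393238) (nat_lit 17) (.e (nat_lit 7101) (nat_lit 380) (.e (nat_lit 171776) (nat_lit 234) .nil))))) (.g (nat_lit 1) (.e (nat_lit 141069) (nat_lit 0) .nil) .nil))) 
(.lf (nat_lit 490041) (.g (nat_lit 1983) (.e (nat_lit 49189) (nat_lit 11) (.e (nat_lit 16425) (nat_lit 7) (.e (nat_lit 409646) (nat_lit 18) (.e (nat_lit 303143) (nat_lit 12) (.e (nat_lit 475197) (nat_lit 40) (.e (nat_lit 704789) (nat_lit 14) (.e (nat_lit 2591) (nat_lit 162) .nil))))))) (.g (nat_lit 1) (.e (nat_lit 142770) (nat_lit 0) .nil) .nil)))) (.nd (nat_lit 9) 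
(.lf (nat_lit 489785) (.g (nat_lit 2072) (.e (nat_lit 49185) (nat_lit 11) (.e (nat_lit 16425) (nat_lit 7) (.e (nat_lit 409645) (nat_lit 18) (.e (nat_lit 303143) (nat_lit 12) (.e (nat_lit 475220) (nat_lit 44) .nil))))) (.g (nat_lit 0) (.e (nat_lit 142398) (nat_lit 0) .nil) .nil))) 
(.lf (nat_lit 490297) (.g (nat_lit 1480) (.e (nat_lit 163846) (nat_lit 0) (.e (nat_lit 6989) (nat_lit 377) (.e (nat_lit 1361) (nat_lit 102) (.e (nat_lit 286761) (nat_lit 13) (.e (nat_lit 393270) (nat_lit 23) .nil))))) (.g (nat_lit 0) (.e (nat_lit 143198) (nat_lit 0) .nil) .nil))))) (.nd (nat_lit 8) (.nd (nat_lit 9) 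
(.lf (nat_lit 489657) (.g (nat_lit 2700) (.e (nat_lit 32807) (nat_lit 18) (.e (nat_lit 172120) (nat_lit 12) (.e (nat_lit 475185) (nat_lit 29) (.e (nat_lit 557103) (nat_lit 14) (.e (nat_lit 180287) (nat_lit 45) (.e (nat_lit 2571) (nat_lit 160) .nil)))))) (.g (nat_lit 1) (.e (nat_lit 141803) (nat_lit 0) .nil) .nil))) 
(.lf (nat_lit 490169) (.g (nat_lit 1317) (.e (nat_lit 49189) (nat_lit 11) (.e (nat_lit 16431) (nat_lit 9) (.e (nat_lit 426550) (nat_lit 31) (.e (nat_lit 368656) (nat_lit 14) .nil)))) (.g (nat_lit 0) (.e (nat_lit 142902) (nat_lit 0) .nil) .nil)))) (.nd (nat_lit 9) 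
(.lf (nat_lit 489913) (.g (nat_lit 294) (.e (nat_lit 49188) (nat_lit 11) (.e (nat_lit 16462) (nat_lit 13) (.e (nat_lit 483376) (nat_lit 22) .nil))) (.g (nat_lit 0) (.e (nat_lit 142599) (nat_lit 0) .nil) .nil))) 
(.lf (nat_lit 490425) (.g (nat_lit 1836) (.e (nat_lit 163857) (nat_lit 0) (.e (nat_lit 3632) (nat_lit 227) (.e (nat_lit 778459) (nat_lit 11) (.e (nat_lit 24658) (nat_lit 13) (.e (nat_lit 393281) (nat_lit 23) .nil))))) (.g (nat_lit 0) (.e (nat_lit 143606) (nat_lit 0) .nil) .nil)))))) (.nd (nat_lit 7) (.nd (nat_lit 8) (.nd (nat_lit 9) 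
(.lf (nat_lit 489593) (.g (nat_lit 2341) (.e (nat_lit 32806) (nat_lit 18) (.e (nat_lit 172126) (nat_lit 14) (.e (nat_lit 491537) (nat_lit 2) (.e (nat_lit 90170) (nat_lit 13) (.e (nat_lit 172081) (nat_lit 7) .nil))))) (.g (nat_lit 0) (.e (nat_lit 141412) (nat_lit 0) .nil) .nil))) 
(.lf (nat_lit 490105) (.g (nat_lit 2234) (.e (nat_lit 49189) (nat_lit 11) (.e (nat_lit 16425) (nat_lit 7) (.e (nat_lit 409648) (nat_lit 18) (.e (nat_lit 303137) (nat_lit 10) (.e (nat_lit 434272) (nat_lit 38) (.e (nat_lit 663296) (nat_lit 14) (.e (nat_lit 2594) (nat_lit 162) .nil))))))) (.g (nat_lit 1) (.e (nat_lit 142834) (nat_lit 0) .nil) .nil)))) (.nd (nat_lit 9) 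
(.lf (nat_lit 489849) (.g (nat_lit 1662) (.e (nat_lit 49187) (nat_lit 11) (.e (nat_lit 16425) (nat_lit 7) (.e (nat_lit 409648) (nat_lit 18) (.e (nat_lit 303142) (nat_lit 12) (.e (nat_lit 475198) (nat_lit 40) .nil))))) (.g (nat_lit 0) (.e (nat_lit 142480) (nat_lit 0) .nil) .nil))) 
(.lf (nat_lit 490361) (.g (nat_lit 2354) (.e (nat_lit 163850) (nat_lit 0) (.e (nat_lit 3304) (nat_lit 202) (.e (nat_lit 573489) (nat_lit 14) (.e (nat_lit 73755) (nat_lit 8) (.e (nat_lit 557097) (nat_lit 13) .nil))))) (.g (nat_lit 0) (.e (nat_lit 143320) (nat_lit 0) .nil) .nil))))) (.nd (nat_lit 8) (.nd (nat_lit 9) 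
(.lf (nat_lit 489721) (.g (nat_lit 2849) (.e (nat_lit 32808) (nat_lit 19) (.e (nat_lit 180278) (nat_lit 32) (.e (nat_lit 1234) (nat_lit 91) (.e (nat_lit 90174) (nat_lit 14) (.e (nat_lit 180288) (nat_lit 45) (.e (nat_lit 2570) (nat_lit 160) .nil)))))) (.g (nat_lit 1) (.e (nat_lit 141959) (nat_lit 0) .nil) .nil))) 
(.lf (nat_lit 490233) (.g (nat_lit 2592) (.e (nat_lit 40997) (nat_lit 11) (.e (nat_lit 24617) (nat_lit 7) (.e (nat_lit 319533) (nat_lit 16) (.e (nat_lit 286753) (nat_lit 10) (.e (nat_lit 344160) (nat_lit 37) (.e (nat_lit 655104) (nat_lit 14) (.e (nat_lit 2581) (nat_lit 161) .nil))))))) (.g (nat_lit 1) (.e (nat_lit 143042) (nat_lit 0) .nil) .nil)))) (.nd (nat_lit 9) 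
(.lf (nat_lit 489977) (.g (nat_lit 1509) (.e (nat_lit 49189) (nat_lit 11) (.e (nat_lit 16416) (nat_lit 3) (.e (nat_lit 204868) (nat_lit 29) .nil))) (.g (nat_lit 0) (.e (nat_lit 142704) (nat_lit 0) .nil) .nil))) 
(.lf (nat_lit 490489) (.g (nat_lit 3028) (.e (nat_lit 163863) (nat_lit 1) (.e (nat_lit 164403) (nat_lit 256) (.e (nat_lit 57378) (nat_lit 3) (.e (nat_lit 98333) (nat_lit 18) (.e (nat_lit 164325) (nat_lit 230) .nil))))) (.g (nat_lit 0) (.e (nat_lit 144012) (nat_lit 0) .nil) .nil)))))))))) 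
(.nd (nat_lit 3) (.nd (nat_lit 4) (.nd (nat_lit 5) (.nd (nat_lit 6) (.nd (nat_lit 7) 
(.nd (nat_lit 8) (.nd (nat_lit 9) 
(.lf (nat_lit 489477) (.g (nat_lit 399) (.e (nat_lit 16468) (nat_lit 13) (.e (nat_lit 483350) (nat_lit 17) (.e (nat_lit 6113) (nat_lit 332) .nil))) (.g (nat_lit 0) (.e (nat_lit 140974) (nat_lit 0) .nil) .nil))) 
(.lf (nat_lit 489989) (.g (nat_lit 905) (.e (nat_lit 49189) (nat_lit 11) (.e (nat_lit 16425) (nat_lit 7) (.e (nat_lit 409623) (nat_lit 10) (.e (nat_lit 5771) (nat_lit 316) .nil)))) (.g (nat_lit 0) (.e (nat_lit 142718) (nat_lit 0) .nil) .nil)))) (.nd (nat_lit 9) 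
(.lf (nat_lit 489733) (.g (nat_lit 2594) (.e (nat_lit 32809) (nat_lit 20) (.e (nat_lit 188418) (nat_lit 0) (.e (nat_lit 1856) (nat_lit 124) (.e (nat_lit 557103) (nat_lit 14) (.e (nat_lit 180285) (nat_lit 45) (.e (nat_lit 2570) (nat_lit 160) .nil)))))) (.g (nat_lit 1) (.e (nat_lit 142002) (nat_lit 0) .nil) .nil))) 
(.lf (nat_lit 490245) (.g (nat_lit 1966) (.e (nat_lit 163840) (nat_lit 0) (.e (nat_lit 5943) (nat_lit 322) (.e (nat_lit 57375) (nat_lit 2) (.e (nat_lit 90173) (nat_lit 14) (.e (nat_lit 180252) (nat_lit 10) .nil))))) (.g (nat_lit 0) (.e (nat_lit 143065) (nat_lit 0) .nil) .nil))))) (.nd (nat_lit 8) (.nd (nat_lit 9) 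
(.lf (nat_lit 489605) (.g (nat_lit 2613) (.e (nat_lit 32806) (nat_lit 18) (.e (nat_lit 172126) (nat_lit 14) (.e (nat_lit 491540) (nat_lit 3) (.e (nat_lit 98367) (nat_lit 27) (.e (nat_lit 434191) (nat_lit 13) .nil))))) (.g (nat_lit 0) (.e (nat_lit 141430) (nat_lit 0) .nil) .nil))) 
(.lf (nat_lit 490117) (.g (nat_lit 2018) (.e (nat_lit 49189) (nat_lit 11) (.e (nat_lit 16425) (nat_lit 7) (.e (nat_lit 409648) (nat_lit 18) (.e (nat_lit 303143) (nat_lit 12) (.e (nat_lit 475198) (nat_lit 40) .nil))))) (.g (nat_lit 0) (.e (nat_lit 142846) (nat_lit 0) .nil) .nil)))) (.nd (nat_lit 9) 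
(.lf (nat_lit 489861) (.g (nat_lit 2000) (.e (nat_lit 49187) (nat_lit 11) (.e (nat_lit 16425) (nat_lit 7) (.e (nat_lit 409649) (nat_lit 18) (.e (nat_lit 303143) (nat_lit 12) (.e (nat_lit 475216) (nat_lit 44) .nil))))) (.g (nat_lit 0) (.e (nat_lit 142492) (nat_lit 0) .nil) .nil))) 
(.lf (nat_lit 490373) (.g (nat_lit 1062) (.e (nat_lit 163850) (nat_lit 0) (.e (nat_lit 5224) (nat_lit 296) (.e (nat_lit 163903) (nat_lit 12) (.e (nat_lit 426566) (nat_lit 34) .nil)))) (.g (nat_lit 0) (.e (nat_lit 143400) (nat_lit 0) .nil) .nil)))))) (.nd (nat_lit 7) (.nd (nat_lit 8) (.nd (nat_lit 9) 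
(.lf (nat_lit 489541) (.g (nat_lit 570) (.e (nat_lit 16471) (nat_lit 14) (.e (nat_lit 491560) (nat_lit 10) (.e (nat_lit 344179) (nat_lit 44) .nil))) (.g (nat_lit 0) (.e (nat_lit 141088) (nat_lit 0) .nil) .nil))) 
(.lf (nat_lit 490053) (.g (nat_lit 2429) (.e (nat_lit 49189) (nat_lit 11) (.e (nat_lit 16425) (nat_lit 7) (.e (nat_lit 409646) (nat_lit 18) (.e (nat_lit 303143) (nat_lit 12) (.e (nat_lit 475199) (nat_lit 40) (.e (nat_lit 704790) (nat_lit 14) (.e (nat_lit 2590) (nat_lit 162) .nil))))))) (.g (nat_lit 1) (.e (nat_lit 142782) (nat_lit 0) .nil) .nil)))) (.nd (nat_lit 9) 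
(.lf (nat_lit 489797) (.g (nat_lit 1285) (.e (nat_lit 49185) (nat_lit 11) (.e (nat_lit 16425) (nat_lit 7) (.e (nat_lit 409649) (nat_lit 18) (.e (nat_lit 303143) (nat_lit 12) .nil)))) (.g (nat_lit 0) (.e (nat_lit 142410) (nat_lit 0) .nil) .nil))) 
(.lf (nat_lit 490309) (.g (nat_lit 2071) (.e (nat_lit 163847) (nat_lit 0) (.e (nat_lit 6255) (nat_lit 337) (.e (nat_lit 2630) (nat_lit 164) (.e (nat_lit 172066) (nat_lit 3) (.e (nat_lit 204868) (nat_lit 29) .nil))))) (.g (nat_lit 0) (.e (nat_lit 143218) (nat_lit 0) .nil) .nil))))) (.nd (nat_lit 8) (.nd (nat_lit 9) 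
(.lf (nat_lit 489669) (.g (nat_lit 2709) (.e (nat_lit 32807) (nat_lit 18) (.e (nat_lit 172124) (nat_lit 14) (.e (nat_lit 491537) (nat_lit 2) (.e (nat_lit 90170) (nat_lit 13) (.e (nat_lit 172078) (nat_lit 7) .nil))))) (.g (nat_lit 0) (.e (nat_lit 141824) (nat_lit 0) .nil) .nil))) 
(.lf (nat_lit 490181) (.g (nat_lit 3226) (.e (nat_lit 49189) (nat_lit 11) (.e (nat_lit 16466) (nat_lit 13) (.e (nat_lit 483413) (nat_lit 27) (.e (nat_lit 401433) (nat_lit 8) .nil)))) (.g (nat_lit 0) (.e (nat_lit 142943) (nat_lit 0) .nil) .nil)))) (.nd (nat_lit 9) 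
(.lf (nat_lit 489925) (.g (nat_lit 2068) (.e (nat_lit 49188) (nat_lit 11) (.e (nat_lit 16466) (nat_lit 13) (.e (nat_lit 483350) (nat_lit 17) (.e (nat_lit 6212) (nat_lit 333) (.e (nat_lit 57791) (nat_lit 245) .nil))))) (.g (nat_lit 0) (.e (nat_lit 142614) (nat_lit 0) .nil) .nil))) 
(.lf (nat_lit 490437) (.g (nat_lit 2596) (.e (nat_lit 163860) (nat_lit 1) (.e (nat_lit 164329) (nat_lit 230) (.e (nat_lit 163902) (nat_lit 12) (.e (nat_lit 426438) (nat_lit 18) (.e (nat_lit 98372) (nat_lit 29) (.e (nat_lit 450568) (nat_lit 0) (.e (nat_lit 7936) (nat_lit 369) .nil))))))) (.g (nat_lit 1) (.e (nat_lit 143688) (nat_lit 0) .nil) .nil))))))) 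
(.nd (nat_lit 6) (.nd (nat_lit 7) (.nd (nat_lit 8) (.nd (nat_lit 9) 
(.lf (nat_lit 489509) (.g (nat_lit 483) (.e (nat_lit 16468) (nat_lit 13) (.e (nat_lit 483372) (nat_lit 21) (.e (nat_lit 319511) (nat_lit 10) .nil))) (.g (nat_lit 0) (.e (nat_lit 141023) (nat_lit 0) .nil) .nil))) 
(.lf (nat_lit 490021) (.g (nat_lit 2256) (.e (nat_lit 49189) (nat_lit 11) (.e (nat_lit 16425) (nat_lit 7) (.e (nat_lit 409645) (nat_lit 18) (.e (nat_lit 303143) (nat_lit 12) (.e (nat_lit 475197) (nat_lit 40) (.e (nat_lit 704789) (nat_lit 14) (.e (nat_lit 2591) (nat_lit 162) .nil))))))) (.g (nat_lit 1) (.e (nat_lit 142750) (nat_lit 0) .nil) .nil)))) (.nd (nat_lit 9) 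
(.lf (nat_lit 489765) (.g (nat_lit 1075) (.e (nat_lit 49157) (nat_lit 0) (.e (nat_lit 3012) (nat_lit 187) (.e (nat_lit 450584) (nat_lit 9) (.e (nat_lit 565268) (nat_lit 5) (.e (nat_lit 73792) (nat_lit 45) (.e (nat_lit 1163) (nat_lit 86) .nil)))))) (.g (nat_lit 1) (.e (nat_lit 142258) (nat_lit 0) .nil) .nil))) 
(.lf (nat_lit 490277) (.g (nat_lit 2801) (.e (nat_lit 163844) (nat_lit 0) (.e (nat_lit 3471) (nat_lit 217) (.e (nat_lit 696344) (nat_lit 8) (.e (nat_lit 172079) (nat_lit 7) (.e (nat_lit 409645) (nat_lit 18) (.e (nat_lit 303133) (nat_lit 9) (.e (nat_lit 426042) (nat_lit 0) (.e (nat_lit 2446) (nat_lit 157) (.e (nat_lit 5965) (nat_lit 324) .nil))))))))) (.g (nat_lit 1) (.e (nat_lit 143161) (nat_lit 0) .nil) .nil))))) 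
(.nd (nat_lit 8) (.nd (nat_lit 9) 
(.lf (nat_lit 489637) (.g (nat_lit 2751) (.e (nat_lit 32807) (nat_lit 18) (.e (nat_lit 172119) (nat_lit 12) (.e (nat_lit 475185) (nat_lit 29) (.e (nat_lit 557105) (nat_lit 14) (.e (nat_lit 180282) (nat_lit 45) .nil))))) (.g (nat_lit 0) (.e (nat_lit 141781) (nat_lit 0) .nil) .nil))) 
(.lf (nat_lit 490149) (.g (nat_lit 1858) (.e (nat_lit 49189) (nat_lit 11) (.e (nat_lit 16425) (nat_lit 7) (.e (nat_lit 409649) (nat_lit 18) (.e (nat_lit 303143) (nat_lit 12) (.e (nat_lit 475197) (nat_lit 40) .nil))))) (.g (nat_lit 0) (.e (nat_lit 142878) (nat_lit 0) .nil) .nil)))) (.nd (nat_lit 9) 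
(.lf (nat_lit 489893) (.g (nat_lit 1943) (.e (nat_lit 49188) (nat_lit 11) (.e (nat_lit 16425) (nat_lit 7) (.e (nat_lit 409644) (nat_lit 18) (.e (nat_lit 303143) (nat_lit 12) (.e (nat_lit 475218) (nat_lit 44) .nil))))) (.g (nat_lit 0) (.e (nat_lit 142573) (nat_lit 0) .nil) .nil))) 
(.lf (nat_lit 490405) (.g (nat_lit 1767) (.e (nat_lit 163853) (nat_lit 0) (.e (nat_lit 3307) (nat_lit 202) (.e (nat_lit 573489) (nat_lit 14) (.e (nat_lit 73755) (nat_lit 8) .nil)))) (.g (nat_lit 0) (.e (nat_lit 143553) (nat_lit 0) .nil) .nil)))))) (.nd (nat_lit 7) (.nd (nat_lit 8) (.nd (nat_lit 9) 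
(.lf (nat_lit 489573) (.g (nat_lit 2130) (.e (nat_lit 16473) (nat_lit 14) (.e (nat_lit 499456) (nat_lit 25) (.e (nat_lit 409649) (nat_lit 18) (.e (nat_lit 303132) (nat_lit 9) (.e (nat_lit 426158) (nat_lit 6) (.e (nat_lit 253990) (nat_lit 11) .nil)))))) (.g (nat_lit 1) (.e (nat_lit 141200) (nat_lit 0) .nil) .nil))) 
(.lf (nat_lit 490085) (.g (nat_lit 2808) (.e (nat_lit 49189) (nat_lit 11) (.e (nat_lit 16425) (nat_lit 7) (.e (nat_lit 409648) (nat_lit 18) (.e (nat_lit 303137) (nat_lit 10) (.e (nat_lit 434275) (nat_lit 39) (.e (nat_lit 671488) (nat_lit 14) (.e (nat_lit 1157) (nat_lit 86) .nil))))))) (.g (nat_lit 1) (.e (nat_lit 142814) (nat_lit 0) .nil) .nil)))) (.nd (nat_lit 9) 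
(.lf (nat_lit 489829) (.g (nat_lit 2367) (.e (nat_lit 49187) (nat_lit 11) (.e (nat_lit 16425) (nat_lit 7) (.e (nat_lit 409645) (nat_lit 18) (.e (nat_lit 303133) (nat_lit 9) (.e (nat_lit 426412) (nat_lit 15) (.e (nat_lit 2233) (nat_lit 146) (.e (nat_lit 737318) (nat_lit 15) .nil))))))) (.g (nat_lit 1) (.e (nat_lit 142460) (nat_lit 0) .nil) .nil))) 
(.lf (nat_lit 490341) (.g (nat_lit 4501) (.e (nat_lit 163849) (nat_lit 0) (.e (nat_lit 6255) (nat_lit 337) (.e (nat_lit 2641) (nat_lit 165) (.e (nat_lit 180244) (nat_lit 5) (.e (nat_lit 532550) (nat_lit 12) (.e (nat_lit 360474) (nat_lit 8) (.e (nat_lit 557094) (nat_lit 12) .nil))))))) (.g (nat_lit 1) (.e (nat_lit 143266) (nat_lit 0) .nil) .nil))))) (.nd (nat_lit 8) (.nd (nat_lit 9) 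
(.lf (nat_lit 489701) (.g (nat_lit 1527) (.e (nat_lit 32807) (nat_lit 18) (.e (nat_lit 172126) (nat_lit 14) (.e (nat_lit 491539) (nat_lit 3) (.e (nat_lit 98367) (nat_lit 27) .nil)))) (.g (nat_lit 0) (.e (nat_lit 141884) (nat_lit 0) .nil) .nil))) 
(.lf (nat_lit 490213) (.g (nat_lit 1377) (.e (nat_lit 40995) (nat_lit 11) (.e (nat_lit 24627) (nat_lit 9) (.e (nat_lit 336438) (nat_lit 31) (.e (nat_lit 458769) (nat_lit 16) (.e (nat_lit 164269) (nat_lit 221) (.e (nat_lit 2576) (nat_lit 161) .nil)))))) (.g (nat_lit 1) (.e (nat_lit 143002) (nat_lit 0) .nil) .nil)))) (.nd (nat_lit 9) 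
(.lf (nat_lit 489957) (.g (nat_lit 1178) (.e (nat_lit 49188) (nat_lit 11) (.e (nat_lit 16466) (nat_lit 13) (.e (nat_lit 483413) (nat_lit 27) .nil))) (.g (nat_lit 0) (.e (nat_lit 142650) (nat_lit 0) .nil) .nil))) 
(.lf (nat_lit 490469) (.g (nat_lit 4558) (.e (nat_lit 163861) (nat_lit 1) (.e (nat_lit 164332) (nat_lit 230) (.e (nat_lit 163905) (nat_lit 12) (.e (nat_lit 426472) (nat_lit 25) (.e (nat_lit 319534) (nat_lit 16) (.e (nat_lit 286756) (nat_lit 10) (.e (nat_lit 344097) (nat_lit 18) (.e (nat_lit 7280) (nat_lit 386) .nil)))))))) (.g (nat_lit 1) (.e (nat_lit 143834) (nat_lit 0) .nil) .nil)))))))) 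
(.nd (nat_lit 5) (.nd (nat_lit 6) (.nd (nat_lit 7) (.nd (nat_lit 8) (.nd (nat_lit 9) 
(.lf (nat_lit 489493) (.g (nat_lit 1408) (.e (nat_lit 16468) (nat_lit 13) (.e (nat_lit 483372) (nat_lit 21) (.e (nat_lit 319504) (nat_lit 10) (.e (nat_lit 4921) (nat_lit 287) .nil)))) (.g (nat_lit 0) (.e (nat_lit 140999) (nat_lit 0) .nil) .nil))) 
(.lf (nat_lit 490005) (.g (nat_lit 2773) (.e (nat_lit 49189) (nat_lit 11) (.e (nat_lit 16425) (nat_lit 7) (.e (nat_lit 409643) (nat_lit 18) (.e (nat_lit 303143) (nat_lit 12) (.e (nat_lit 475199) (nat_lit 40) (.e (nat_lit 704836) (nat_lit 14) (.e (nat_lit 2587) (nat_lit 162) .nil))))))) (.g (nat_lit 1) (.e (nat_lit 142734) (nat_lit 0) .nil) .nil)))) (.nd (nat_lit 9) 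
(.lf (nat_lit 489749) (.g (nat_lit 1066) (.e (nat_lit 49156) (nat_lit 0) (.e (nat_lit 3012) (nat_lit 187) (.e (nat_lit 450584) (nat_lit 9) (.e (nat_lit 565268) (nat_lit 5) (.e (nat_lit 73792) (nat_lit 45) (.e (nat_lit 1162) (nat_lit 86) .nil)))))) (.g (nat_lit 1) (.e (nat_lit 142221) (nat_lit 0) .nil) .nil))) 
(.lf (nat_lit 490261) (.g (nat_lit 4628) (.e (nat_lit 163843) (nat_lit 0) (.e (nat_lit 6420) (nat_lit 341) (.e (nat_lit 163916) (nat_lit 13) (.e (nat_lit 434231) (nat_lit 23) (.e (nat_lit 532550) (nat_lit 12) (.e (nat_lit 360475) (nat_lit 8) (.e (nat_lit 557091) (nat_lit 12) .nil))))))) (.g (nat_lit 1) (.e (nat_lit 143127) (nat_lit 0) .nil) .nil))))) (.nd (nat_lit 8) (.nd (nat_lit 9) 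
(.lf (nat_lit 489621) (.g (nat_lit 2259) (.e (nat_lit 32807) (nat_lit 18) (.e (nat_lit 172118) (nat_lit 12) (.e (nat_lit 475185) (nat_lit 29) (.e (nat_lit 557105) (nat_lit 14) (.e (nat_lit 180282) (nat_lit 45) .nil))))) (.g (nat_lit 0) (.e (nat_lit 141764) (nat_lit 0) .nil) .nil))) 
(.lf (nat_lit 490133) (.g (nat_lit 1796) (.e (nat_lit 49189) (nat_lit 11) (.e (nat_lit 16425) (nat_lit 7) (.e (nat_lit 409649) (nat_lit 18) (.e (nat_lit 303140) (nat_lit 10) (.e (nat_lit 434275) (nat_lit 39) (.e (nat_lit 671488) (nat_lit 14) (.e (nat_lit 1160) (nat_lit 86) .nil))))))) (.g (nat_lit 1) (.e (nat_lit 142862) (nat_lit 0) .nil) .nil)))) (.nd (nat_lit 9) 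
(.lf (nat_lit 489877) (.g (nat_lit 3395) (.e (nat_lit 49187) (nat_lit 11) (.e (nat_lit 16473) (nat_lit 14) (.e (nat_lit 491560) (nat_lit 10) (.e (nat_lit 344161) (nat_lit 37) (.e (nat_lit 647201) (nat_lit 12) .nil))))) (.g (nat_lit 0) (.e (nat_lit 142543) (nat_lit 0) .nil) .nil))) 
(.lf (nat_lit 490389) (.g (nat_lit 2603) (.e (nat_lit 163851) (nat_lit 0) (.e (nat_lit 3307) (nat_lit 202) (.e (nat_lit 573489) (nat_lit 14) (.e (nat_lit 73755) (nat_lit 8) (.e (nat_lit 557097) (nat_lit 13) .nil))))) (.g (nat_lit 0) (.e (nat_lit 143511) (nat_lit 0) .nil) .nil)))))) (.nd (nat_lit 7) (.nd (nat_lit 8) (.nd (nat_lit 9) 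
(.lf (nat_lit 489557) (.g (nat_lit 4063) (.e (nat_lit 16473) (nat_lit 14) (.e (nat_lit 491535) (nat_lit 2) (.e (nat_lit 90170) (nat_lit 13) (.e (nat_lit 172113) (nat_lit 10) (.e (nat_lit 434245) (nat_lit 28) (.e (nat_lit 573469) (nat_lit 11) .nil)))))) (.g (nat_lit 1) (.e (nat_lit 141138) (nat_lit 0) .nil) .nil))) 
(.lf (nat_lit 490069) (.g (nat_lit 2662) (.e (nat_lit 49189) (nat_lit 11) (.e (nat_lit 16425) (nat_lit 7) (.e (nat_lit 409647) (nat_lit 18) (.e (nat_lit 303143) (nat_lit 12) (.e (nat_lit 475199) (nat_lit 40) (.e (nat_lit 704790) (nat_lit 14) (.e (nat_lit 2590) (nat_lit 162) .nil))))))) (.g (nat_lit 1) (.e (nat_lit 142798) (nat_lit 0) .nil) .nil)))) (.nd (nat_lit 9) 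
(.lf (nat_lit 489813) (.g (nat_lit 1271) (.e (nat_lit 49185) (nat_lit 11) (.e (nat_lit 16466) (nat_lit 13) (.e (nat_lit 483413) (nat_lit 27) .nil))) (.g (nat_lit 0) (.e (nat_lit 142429) (nat_lit 0) .nil) .nil))) 
(.lf (nat_lit 490325) (.g (nat_lit 4517) (.e (nat_lit 163848) (nat_lit 0) (.e (nat_lit 6252) (nat_lit 337) (.e (nat_lit 2630) (nat_lit 164) (.e (nat_lit 172065) (nat_lit 3) (.e (nat_lit 204869) (nat_lit 29) (.e (nat_lit 360475) (nat_lit 8) (.e (nat_lit 557089) (nat_lit 12) .nil))))))) (.g (nat_lit 1) (.e (nat_lit 143241) (nat_lit 0) .nil) .nil))))) (.nd (nat_lit 8) (.nd (nat_lit 9) 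
(.lf (nat_lit 489685) (.g (nat_lit 2738) (.e (nat_lit 32807) (nat_lit 18) (.e (nat_lit 172126) (nat_lit 14) (.e (nat_lit 491537) (nat_lit 2) (.e (nat_lit 90170) (nat_lit 13) (.e (nat_lit 172078) (nat_lit 7) (.e (nat_lit 409631) (nat_lit 12) .nil)))))) (.g (nat_lit 1) (.e (nat_lit 141866) (nat_lit 0) .nil) .nil))) 
(.lf (nat_lit 490197) (.g (nat_lit 1307) (.e (nat_lit 40965) (nat_lit 0) (.e (nat_lit 1582) (nat_lit 111) (.e (nat_lit 360477) (nat_lit 11) (.e (nat_lit 581652) (nat_lit 5) (.e (nat_lit 180287) (nat_lit 45) (.e (nat_lit 2579) (nat_lit 161) .nil)))))) (.g (nat_lit 1) (.e (nat_lit 142963) (nat_lit 0) .nil) .nil)))) (.nd (nat_lit 9) 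
(.lf (nat_lit 489941) (.g (nat_lit 3228) (.e (nat_lit 49188) (nat_lit 11) (.e (nat_lit 16466) (nat_lit 13) (.e (nat_lit 483372) (nat_lit 21) (.e (nat_lit 319504) (nat_lit 10) (.e (nat_lit 4963) (nat_lit 287) .nil))))) (.g (nat_lit 0) (.e (nat_lit 142631) (nat_lit 0) .nil) .nil))) 
(.lf (nat_lit 490453) (.g (nat_lit 1565) (.e (nat_lit 163860) (nat_lit 1) (.e (nat_lit 164332) (nat_lit 230) (.e (nat_lit 163905) (nat_lit 12) (.e (nat_lit 426438) (nat_lit 18) (.e (nat_lit 98374) (nat_lit 29) .nil))))) (.g (nat_lit 0) (.e (nat_lit 143734) (nat_lit 0) .nil) .nil))))))) (.nd (nat_lit 6) (.nd (nat_lit 7) (.nd (nat_lit 8) (.nd (nat_lit 9) 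
(.lf (nat_lit 489525) (.g (nat_lit 2798) (.e (nat_lit 16470) (nat_lit 14) (.e (nat_lit 491571) (nat_lit 13) (.e (nat_lit 393232) (nat_lit 17) (.e (nat_lit 7109) (nat_lit 380) (.e (nat_lit 171776) (nat_lit 234) .nil))))) (.g (nat_lit 1) (.e (nat_lit 141065) (nat_lit 0) .nil) .nil))) 
(.lf (nat_lit 490037) (.g (nat_lit 1771) (.e (nat_lit 49189) (nat_lit 11) (.e (nat_lit 16425) (nat_lit 7) (.e (nat_lit 409646) (nat_lit 18) (.e (nat_lit 303143) (nat_lit 12) (.e (nat_lit 475197) (nat_lit 40) .nil))))) (.g (nat_lit 0) (.e (nat_lit 142766) (nat_lit 0) .nil) .nil)))) (.nd (nat_lit 9) 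
(.lf (nat_lit 489781) (.g (nat_lit 2043) (.e (nat_lit 49185) (nat_lit 11) (.e (nat_lit 16425) (nat_lit 7) (.e (nat_lit 409643) (nat_lit 18) (.e (nat_lit 303143) (nat_lit 12) (.e (nat_lit 475199) (nat_lit 40) .nil))))) (.g (nat_lit 0) (.e (nat_lit 142394) (nat_lit 0) .nil) .nil))) 
(.lf (nat_lit 490293) (.g (nat_lit 2556) (.e (nat_lit 163845) (nat_lit 0) (.e (nat_lit 3309) (nat_lit 202) (.e (nat_lit 573489) (nat_lit 14) (.e (nat_lit 73755) (nat_lit 8) (.e (nat_lit 557098) (nat_lit 13) .nil))))) (.g (nat_lit 0) (.e (nat_lit 143184) (nat_lit 0) .nil) .nil))))) (.nd (nat_lit 8) (.nd (nat_lit 9) 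
(.lf (nat_lit 489653) (.g (nat_lit 2692) (.e (nat_lit 32807) (nat_lit 18) (.e (nat_lit 172120) (nat_lit 12) (.e (nat_lit 475185) (nat_lit 29) (.e (nat_lit 557103) (nat_lit 14) (.e (nat_lit 180284) (nat_lit 45) (.e (nat_lit 2571) (nat_lit 160) .nil)))))) (.g (nat_lit 1) (.e (nat_lit 141799) (nat_lit 0) .nil) .nil))) 
(.lf (nat_lit 490165) (.g (nat_lit 1566) (.e (nat_lit 49189) (nat_lit 11) (.e (nat_lit 16431) (nat_lit 9) (.e (nat_lit 426160) (nat_lit 6) (.e (nat_lit 253992) (nat_lit 11) (.e (nat_lit 16425) (nat_lit 7) .nil))))) (.g (nat_lit 0) (.e (nat_lit 142897) (nat_lit 0) .nil) .nil)))) (.nd (nat_lit 9) 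
(.lf (nat_lit 489909) (.g (nat_lit 265) (.e (nat_lit 49188) (nat_lit 11) (.e (nat_lit 16462) (nat_lit 13) (.e (nat_lit 483372) (nat_lit 21) .nil))) (.g (nat_lit 0) (.e (nat_lit 142591) (nat_lit 0) .nil) .nil))) 
(.lf (nat_lit 490421) (.g (nat_lit 1735) (.e (nat_lit 163857) (nat_lit 0) (.e (nat_lit 3253) (nat_lit 197) (.e (nat_lit 532578) (nat_lit 26) (.e (nat_lit 426190) (nat_lit 9) (.e (nat_lit 426566) (nat_lit 34) .nil))))) (.g (nat_lit 0) (.e (nat_lit 143596) (nat_lit 0) .nil) .nil)))))) (.nd (nat_lit 7) (.nd (nat_lit 8) (.nd (nat_lit 9) 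
(.lf (nat_lit 489589) (.g (nat_lit 2669) (.e (nat_lit 32806) (nat_lit 18) (.e (nat_lit 172126) (nat_lit 14) (.e (nat_lit 491537) (nat_lit 2) (.e (nat_lit 90170) (nat_lit 13) (.e (nat_lit 172039) (nat_lit 0) .nil))))) (.g (nat_lit 0) (.e (nat_lit 141408) (nat_lit 0) .nil) .nil))) 
(.lf (nat_lit 490101) (.g (nat_lit 2925) (.e (nat_lit 49189) (nat_lit 11) (.e (nat_lit 16425) (nat_lit 7) (.e (nat_lit 409648) (nat_lit 18) (.e (nat_lit 303137) (nat_lit 10) (.e (nat_lit 434272) (nat_lit 38) (.e (nat_lit 655404) (nat_lit 14) (.e (nat_lit 2590) (nat_lit 162) .nil))))))) (.g (nat_lit 1) (.e (nat_lit 142830) (nat_lit 0) .nil) .nil)))) (.nd (nat_lit 9) 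
(.lf (nat_lit 489845) (.g (nat_lit 1345) (.e (nat_lit 49187) (nat_lit 11) (.e (nat_lit 16425) (nat_lit 7) (.e (nat_lit 409648) (nat_lit 18) (.e (nat_lit 303137) (nat_lit 10) .nil)))) (.g (nat_lit 0) (.e (nat_lit 142476) (nat_lit 0) .nil) .nil))) 
(.lf (nat_lit 490357) (.g (nat_lit 4294) (.e (nat_lit 163850) (nat_lit 0) (.e (nat_lit 3304) (nat_lit 202) (.e (nat_lit 573482) (nat_lit 13) (.e (nat_lit 65604) (nat_lit 9) (.e (nat_lit 336013) (nat_lit 2) (.e (nat_lit 90170) (nat_lit 13) (.e (nat_lit 172070) (nat_lit 4) (.e (nat_lit 229679) (nat_lit 244) .nil)))))))) (.g (nat_lit 1) (.e (nat_lit 143311) (nat_lit 0) .nil) .nil))))) 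
(.nd (nat_lit 8) (.nd (nat_lit 9) 
(.lf (nat_lit 489717) (.g (nat_lit 2169) (.e (nat_lit 32808) (nat_lit 19) (.e (nat_lit 180277) (nat_lit 32) (.e (nat_lit 1253) (nat_lit 92) (.e (nat_lit 98367) (nat_lit 27) (.e (nat_lit 434186) (nat_lit 13) (.e (nat_lit 2570) (nat_lit 160) .nil)))))) (.g (nat_lit 1) (.e (nat_lit 141955) (nat_lit 0) .nil) .nil))) 
(.lf (nat_lit 490229) (.g (nat_lit 1704) (.e (nat_lit 40996) (nat_lit 11) (.e (nat_lit 24665) (nat_lit 14) (.e (nat_lit 401460) (nat_lit 14) (.e (nat_lit 491566) (nat_lit 12) .nil)))) (.g (nat_lit 0) (.e (nat_lit 143022) (nat_lit 0) .nil) .nil)))) (.nd (nat_lit 9) 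
(.lf (nat_lit 489973) (.g (nat_lit 2259) (.e (nat_lit 49189) (nat_lit 11) (.e (nat_lit 16412) (nat_lit 2) (.e (nat_lit 196666) (nat_lit 13) (.e (nat_lit 65610) (nat_lit 10) (.e (nat_lit 344129) (nat_lit 26) .nil))))) (.g (nat_lit 0) (.e (nat_lit 142685) (nat_lit 0) .nil) .nil))) 
(.lf (nat_lit 490485) (.g (nat_lit 2895) (.e (nat_lit 163863) (nat_lit 1) (.e (nat_lit 164325) (nat_lit 230) (.e (nat_lit 163903) (nat_lit 12) (.e (nat_lit 426472) (nat_lit 25) (.e (nat_lit 319534) (nat_lit 16) (.e (nat_lit 286749) (nat_lit 9) (.e (nat_lit 335997) (nat_lit 1) (.e (nat_lit 57686) (nat_lit 156) .nil)))))))) (.g (nat_lit 1) (.e (nat_lit 143928) (nat_lit 0) .nil) .nil))))))))) 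
(.nd (nat_lit 4) (.nd (nat_lit 5) (.nd (nat_lit 6) (.nd (nat_lit 7) (.nd (nat_lit 8) 
(.nd (nat_lit 9) 
(.lf (nat_lit 489485) (.g (nat_lit 1581) (.e (nat_lit 16468) (nat_lit 13) (.e (nat_lit 483350) (nat_lit 17) (.e (nat_lit 6218) (nat_lit 333) (.e (nat_lit 57815) (nat_lit 246) .nil)))) (.g (nat_lit 0) (.e (nat_lit 140987) (nat_lit 0) .nil) .nil))) 
(.lf (nat_lit 489997) (.g (nat_lit 1597) (.e (nat_lit 49189) (nat_lit 11) (.e (nat_lit 16425) (nat_lit 7) (.e (nat_lit 409643) (nat_lit 18) (.e (nat_lit 303143) (nat_lit 12) (.e (nat_lit 475198) (nat_lit 40) .nil))))) (.g (nat_lit 0) (.e (nat_lit 142726) (nat_lit 0) .nil) .nil)))) (.nd (nat_lit 9) 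
(.lf (nat_lit 489741) (.g (nat_lit 1211) (.e (nat_lit 49155) (nat_lit 0) (.e (nat_lit 2887) (nat_lit 184) (.e (nat_lit 426286) (nat_lit 10) (.e (nat_lit 434241) (nat_lit 27) .nil)))) (.g (nat_lit 0) (.e (nat_lit 142179) (nat_lit 0) .nil) .nil))) 
(.lf (nat_lit 490253) (.g (nat_lit 1555) (.e (nat_lit 163843) (nat_lit 0) (.e (nat_lit 3605) (nat_lit 225) (.e (nat_lit 761905) (nat_lit 16) (.e (nat_lit 172049) (nat_lit 0) .nil)))) (.g (nat_lit 0) (.e (nat_lit 143090) (nat_lit 0) .nil) .nil))))) (.nd (nat_lit 8) (.nd (nat_lit 9) 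
(.lf (nat_lit 489613) (.g (nat_lit 268) (.e (nat_lit 32807) (nat_lit 18) (.e (nat_lit 172118) (nat_lit 12) (.e (nat_lit 475185) (nat_lit 29) .nil))) (.g (nat_lit 0) (.e (nat_lit 141754) (nat_lit 0) .nil) .nil))) 
(.lf (nat_lit 490125) (.g (nat_lit 2902) (.e (nat_lit 49189) (nat_lit 11) (.e (nat_lit 16425) (nat_lit 7) (.e (nat_lit 409648) (nat_lit 18) (.e (nat_lit 303143) (nat_lit 12) (.e (nat_lit 475219) (nat_lit 44) (.e (nat_lit 737318) (nat_lit 15) .nil)))))) (.g (nat_lit 1) (.e (nat_lit 142854) (nat_lit 0) .nil) .nil)))) (.nd (nat_lit 9) 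
(.lf (nat_lit 489869) (.g (nat_lit 2891) (.e (nat_lit 49187) (nat_lit 11) (.e (nat_lit 16473) (nat_lit 14) (.e (nat_lit 491560) (nat_lit 10) (.e (nat_lit 344167) (nat_lit 40) .nil)))) (.g (nat_lit 0) (.e (nat_lit 142533) (nat_lit 0) .nil) .nil))) 
(.lf (nat_lit 490381) (.g (nat_lit 2393) (.e (nat_lit 163850) (nat_lit 0) (.e (nat_lit 6425) (nat_lit 342) (.e (nat_lit 229415) (nat_lit 15) (.e (nat_lit 450603) (nat_lit 22) (.e (nat_lit 704629) (nat_lit 9) .nil))))) (.g (nat_lit 0) (.e (nat_lit 143501) (nat_lit 0) .nil) .nil)))))) (.nd (nat_lit 7) (.nd (nat_lit 8) (.nd (nat_lit 9) 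
(.lf (nat_lit 489549) (.g (nat_lit 2645) (.e (nat_lit 16472) (nat_lit 14) (.e (nat_lit 491537) (nat_lit 2) (.e (nat_lit 90170) (nat_lit 13) (.e (nat_lit 172113) (nat_lit 10) (.e (nat_lit 434242) (nat_lit 28) (.e (nat_lit 573470) (nat_lit 11) .nil)))))) (.g (nat_lit 1) (.e (nat_lit 141101) (nat_lit 0) .nil) .nil))) 
(.lf (nat_lit 490061) (.g (nat_lit 2088) (.e (nat_lit 49189) (nat_lit 11) (.e (nat_lit 16425) (nat_lit 7) (.e (nat_lit 409647) (nat_lit 18) (.e (nat_lit 303143) (nat_lit 12) (.e (nat_lit 475197) (nat_lit 40) (.e (nat_lit 704787) (nat_lit 14) (.e (nat_lit 2591) (nat_lit 162) .nil))))))) (.g (nat_lit 1) (.e (nat_lit 142790) (nat_lit 0) .nil) .nil)))) (.nd (nat_lit 9) 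
(.lf (nat_lit 489805) (.g (nat_lit 2967) (.e (nat_lit 49185) (nat_lit 11) (.e (nat_lit 16465) (nat_lit 13) (.e (nat_lit 483372) (nat_lit 21) (.e (nat_lit 319504) (nat_lit 10) (.e (nat_lit 4919) (nat_lit 287) .nil))))) (.g (nat_lit 0) (.e (nat_lit 142421) (nat_lit 0) .nil) .nil))) 
(.lf (nat_lit 490317) (.g (nat_lit 3828) (.e (nat_lit 163847) (nat_lit 0) (.e (nat_lit 6420) (nat_lit 341) (.e (nat_lit 163908) (nat_lit 12) (.e (nat_lit 426132) (nat_lit 3) (.e (nat_lit 204869) (nat_lit 29) (.e (nat_lit 360475) (nat_lit 8) (.e (nat_lit 557091) (nat_lit 12) .nil))))))) (.g (nat_lit 1) (.e (nat_lit 143230) (nat_lit 0) .nil) .nil))))) (.nd (nat_lit 8) (.nd (nat_lit 9) 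
(.lf (nat_lit 489677) (.g (nat_lit 2640) (.e (nat_lit 32807) (nat_lit 18) (.e (nat_lit 172124) (nat_lit 14) (.e (nat_lit 491540) (nat_lit 3) (.e (nat_lit 98367) (nat_lit 27) (.e (nat_lit 434191) (nat_lit 13) (.e (nat_lit 2570) (nat_lit 160) .nil)))))) (.g (nat_lit 1) (.e (nat_lit 141840) (nat_lit 0) .nil) .nil))) 
(.lf (nat_lit 490189) (.g (nat_lit 1585) (.e (nat_lit 40963) (nat_lit 0) (.e (nat_lit 1454) (nat_lit 108) (.e (nat_lit 336173) (nat_lit 10) (.e (nat_lit 344138) (nat_lit 29) (.e (nat_lit 581652) (nat_lit 5) .nil))))) (.g (nat_lit 0) (.e (nat_lit 142954) (nat_lit 0) .nil) .nil)))) (.nd (nat_lit 9) 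
(.lf (nat_lit 489933) (.g (nat_lit 1481) (.e (nat_lit 49188) (nat_lit 11) (.e (nat_lit 16466) (nat_lit 13) (.e (nat_lit 483371) (nat_lit 21) (.e (nat_lit 319527) (nat_lit 15) (.e (nat_lit 278562) (nat_lit 13) .nil))))) (.g (nat_lit 0) (.e (nat_lit 142623) (nat_lit 0) .nil) .nil))) 
(.lf (nat_lit 490445) (.g (nat_lit 2721) (.e (nat_lit 163860) (nat_lit 1) (.e (nat_lit 164330) (nat_lit 230) (.e (nat_lit 163902) (nat_lit 12) (.e (nat_lit 426438) (nat_lit 18) (.e (nat_lit 98372) (nat_lit 29) .nil))))) (.g (nat_lit 0) (.e (nat_lit 143700) (nat_lit 0) .nil) .nil))))))) (.nd (nat_lit 6) (.nd (nat_lit 7) (.nd (nat_lit 8) (.nd (nat_lit 9) 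
(.lf (nat_lit 489517) (.g (nat_lit 975) (.e (nat_lit 16469) (nat_lit 14) (.e (nat_lit 491571) (nat_lit 13) (.e (nat_lit 393238) (nat_lit 17) .nil))) (.g (nat_lit 0) (.e (nat_lit 141054) (nat_lit 0) .nil) .nil))) 
(.lf (nat_lit 490029) (.g (nat_lit 2903) (.e (nat_lit 49189) (nat_lit 11) (.e (nat_lit 16425) (nat_lit 7) (.e (nat_lit 409645) (nat_lit 18) (.e (nat_lit 303143) (nat_lit 12) (.e (nat_lit 475199) (nat_lit 40) (.e (nat_lit 704790) (nat_lit 14) (.e (nat_lit 2587) (nat_lit 162) .nil))))))) (.g (nat_lit 1) (.e (nat_lit 142758) (nat_lit 0) .nil) .nil)))) (.nd (nat_lit 9) 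
(.lf (nat_lit 489773) (.g (nat_lit 461) (.e (nat_lit 57088) (nat_lit 6) (.e (nat_lit 188439) (nat_lit 20) (.e (nat_lit 3289) (nat_lit 201) (.e (nat_lit 565268) (nat_lit 5) (.e (nat_lit 73791) (nat_lit 45) .nil))))) (.g (nat_lit 0) (.e (nat_lit 142306) (nat_lit 0) .nil) .nil))) 
(.lf (nat_lit 490285) (.g (nat_lit 4664) (.e (nat_lit 163844) (nat_lit 0) (.e (nat_lit 5943) (nat_lit 322) (.e (nat_lit 57375) (nat_lit 2) (.e (nat_lit 90172) (nat_lit 14) (.e (nat_lit 180252) (nat_lit 10) (.e (nat_lit 573489) (nat_lit 14) (.e (nat_lit 73755) (nat_lit 8) (.e (nat_lit 557090) (nat_lit 12) .nil)))))))) (.g (nat_lit 1) (.e (nat_lit 143169) (nat_lit 0) .nil) .nil))))) 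
(.nd (nat_lit 8) (.nd (nat_lit 9) 
(.lf (nat_lit 489645) (.g (nat_lit 2369) (.e (nat_lit 32807) (nat_lit 18) (.e (nat_lit 172120) (nat_lit 12) (.e (nat_lit 475183) (nat_lit 29) (.e (nat_lit 557104) (nat_lit 14) (.e (nat_lit 180284) (nat_lit 45) .nil))))) (.g (nat_lit 0) (.e (nat_lit 141789) (nat_lit 0) .nil) .nil))) 
(.lf (nat_lit 490157) (.g (nat_lit 1412) (.e (nat_lit 49189) (nat_lit 11) (.e (nat_lit 16425) (nat_lit 7) (.e (nat_lit 409649) (nat_lit 18) (.e (nat_lit 303143) (nat_lit 12) (.e (nat_lit 475199) (nat_lit 40) .nil))))) (.g (nat_lit 0) (.e (nat_lit 142886) (nat_lit 0) .nil) .nil)))) (.nd (nat_lit 9) 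
(.lf (nat_lit 489901) (.g (nat_lit 2288) (.e (nat_lit 49188) (nat_lit 11) (.e (nat_lit 16425) (nat_lit 7) (.e (nat_lit 409649) (nat_lit 18) (.e (nat_lit 303133) (nat_lit 9) (.e (nat_lit 426412) (nat_lit 15) (.e (nat_lit 2233) (nat_lit 146) (.e (nat_lit 737318) (nat_lit 15) .nil))))))) (.g (nat_lit 1) (.e (nat_lit 142581) (nat_lit 0) .nil) .nil))) 
(.lf (nat_lit 490413) (.g (nat_lit 4034) (.e (nat_lit 163853) (nat_lit 0) (.e (nat_lit 5953) (nat_lit 322) (.e (nat_lit 57373) (nat_lit 2) (.e (nat_lit 90174) (nat_lit 14) (.e (nat_lit 180243) (nat_lit 5) (.e (nat_lit 532513) (nat_lit 3) (.e (nat_lit 114714) (nat_lit 22) (.e (nat_lit 90165) (nat_lit 12) .nil)))))))) (.g (nat_lit 1) (.e (nat_lit 143576) (nat_lit 0) .nil) .nil)))))) 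
(.nd (nat_lit 7) (.nd (nat_lit 8) (.nd (nat_lit 9) 
(.lf (nat_lit 489581) (.g (nat_lit 2357) (.e (nat_lit 32803) (nat_lit 16) (.e (nat_lit 24628) (nat_lit 9) (.e (nat_lit 336019) (nat_lit 3) (.e (nat_lit 98384) (nat_lit 32) (.e (nat_lit 475220) (nat_lit 44) (.e (nat_lit 737316) (nat_lit 13) .nil)))))) (.g (nat_lit 1) (.e (nat_lit 141384) (nat_lit 0) .nil) .nil))) 
(.lf (nat_lit 490093) (.g (nat_lit 2660) (.e (nat_lit 49189) (nat_lit 11) (.e (nat_lit 16425) (nat_lit 7) (.e (nat_lit 409648) (nat_lit 18) (.e (nat_lit 303137) (nat_lit 10) (.e (nat_lit 434271) (nat_lit 38) (.e (nat_lit 655404) (nat_lit 14) (.e (nat_lit 2587) (nat_lit 162) .nil))))))) (.g (nat_lit 1) (.e (nat_lit 142822) (nat_lit 0) .nil) .nil)))) (.nd (nat_lit 9) 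
(.lf (nat_lit 489837) (.g (nat_lit 2159) (.e (nat_lit 49187) (nat_lit 11) (.e (nat_lit 16425) (nat_lit 7) (.e (nat_lit 409646) (nat_lit 18) (.e (nat_lit 303143) (nat_lit 12) (.e (nat_lit 475198) (nat_lit 40) (.e (nat_lit 704790) (nat_lit 14) (.e (nat_lit 2593) (nat_lit 162) .nil))))))) (.g (nat_lit 1) (.e (nat_lit 142468) (nat_lit 0) .nil) .nil))) 
(.lf (nat_lit 490349) (.g (nat_lit 1954) (.e (nat_lit 163849) (nat_lit 0) (.e (nat_lit 6420) (nat_lit 341) (.e (nat_lit 163902) (nat_lit 12) (.e (nat_lit 426131) (nat_lit 3) (.e (nat_lit 204869) (nat_lit 29) .nil))))) (.g (nat_lit 0) (.e (nat_lit 143287) (nat_lit 0) .nil) .nil))))) (.nd (nat_lit 8) (.nd (nat_lit 9) 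
(.lf (nat_lit 489709) (.g (nat_lit 217) (.e (nat_lit 32808) (nat_lit 19) (.e (nat_lit 180277) (nat_lit 32) (.e (nat_lit 1235) (nat_lit 91) .nil))) (.g (nat_lit 0) (.e (nat_lit 141947) (nat_lit 0) .nil) .nil))) 
(.lf (nat_lit 490221) (.g (nat_lit 1379) (.e (nat_lit 40996) (nat_lit 11) (.e (nat_lit 24658) (nat_lit 13) (.e (nat_lit 393238) (nat_lit 17) (.e (nat_lit 7107) (nat_lit 380) .nil)))) (.g (nat_lit 0) (.e (nat_lit 143014) (nat_lit 0) .nil) .nil)))) (.nd (nat_lit 9) 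
(.lf (nat_lit 489965) (.g (nat_lit 3351) (.e (nat_lit 49188) (nat_lit 11) (.e (nat_lit 16473) (nat_lit 14) (.e (nat_lit 491560) (nat_lit 10) (.e (nat_lit 344160) (nat_lit 37) (.e (nat_lit 647195) (nat_lit 9) .nil))))) (.g (nat_lit 0) (.e (nat_lit 142673) (nat_lit 0) .nil) .nil))) 
(.lf (nat_lit 490477) (.g (nat_lit 1894) (.e (nat_lit 163862) (nat_lit 1) (.e (nat_lit 164332) (nat_lit 230) (.e (nat_lit 163902) (nat_lit 12) (.e (nat_lit 426438) (nat_lit 18) (.e (nat_lit 98372) (nat_lit 29) .nil))))) (.g (nat_lit 0) (.e (nat_lit 143892) (nat_lit 0) .nil) .nil)))))))) (.nd (nat_lit 5) (.nd (nat_lit 6) (.nd (nat_lit 7) (.nd (nat_lit 8) (.nd (nat_lit 9) 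
(.lf (nat_lit 489501) (.g (nat_lit 1269) (.e (nat_lit 16468) (nat_lit 13) (.e (nat_lit 483372) (nat_lit 21) (.e (nat_lit 319505) (nat_lit 10) (.e (nat_lit 4925) (nat_lit 287) .nil)))) (.g (nat_lit 0) (.e (nat_lit 141011) (nat_lit 0) .nil) .nil))) 
(.lf (nat_lit 490013) (.g (nat_lit 1489) (.e (nat_lit 49189) (nat_lit 11) (.e (nat_lit 16425) (nat_lit 7) (.e (nat_lit 409644) (nat_lit 18) (.e (nat_lit 303143) (nat_lit 12) (.e (nat_lit 475199) (nat_lit 40) .nil))))) (.g (nat_lit 0) (.e (nat_lit 142742) (nat_lit 0) .nil) .nil)))) (.nd (nat_lit 9) 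
(.lf (nat_lit 489757) (.g (nat_lit 1663) (.e (nat_lit 49156) (nat_lit 0) (.e (nat_lit 3026) (nat_lit 187) (.e (nat_lit 450584) (nat_lit 9) (.e (nat_lit 565268) (nat_lit 5) (.e (nat_lit 73792) (nat_lit 45) (.e (nat_lit 1162) (nat_lit 86) .nil)))))) (.g (nat_lit 1) (.e (nat_lit 142237) (nat_lit 0) .nil) .nil))) 
(.lf (nat_lit 490269) (.g (nat_lit 3323) (.e (nat_lit 163844) (nat_lit 0) (.e (nat_lit 3471) (nat_lit 217) (.e (nat_lit 696343) (nat_lit 8) (.e (nat_lit 172082) (nat_lit 7) (.e (nat_lit 409646) (nat_lit 18) (.e (nat_lit 303133) (nat_lit 9) (.e (nat_lit 426042) (nat_lit 0) (.e (nat_lit 2427) (nat_lit 157) (.e (nat_lit 5965) (nat_lit 324) .nil))))))))) (.g (nat_lit 1) (.e (nat_lit 143153) (nat_lit 0) .nil) .nil))))) 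
(.nd (nat_lit 8) (.nd (nat_lit 9) 
(.lf (nat_lit 489629) (.g (nat_lit 2862) (.e (nat_lit 32807) (nat_lit 18) (.e (nat_lit 172119) (nat_lit 12) (.e (nat_lit 475185) (nat_lit 29) (.e (nat_lit 557103) (nat_lit 14) (.e (nat_lit 180284) (nat_lit 45) .nil))))) (.g (nat_lit 0) (.e (nat_lit 141773) (nat_lit 0) .nil) .nil))) 
(.lf (nat_lit 490141) (.g (nat_lit 1658) (.e (nat_lit 49189) (nat_lit 11) (.e (nat_lit 16425) (nat_lit 7) (.e (nat_lit 409649) (nat_lit 18) (.e (nat_lit 303140) (nat_lit 10) (.e (nat_lit 434272) (nat_lit 38) .nil))))) (.g (nat_lit 0) (.e (nat_lit 142870) (nat_lit 0) .nil) .nil)))) (.nd (nat_lit 9) 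
(.lf (nat_lit 489885) (.g (nat_lit 5217) (.e (nat_lit 49188) (nat_lit 11) (.e (nat_lit 16416) (nat_lit 3) (.e (nat_lit 204868) (nat_lit 29) (.e (nat_lit 360475) (nat_lit 8) (.e (nat_lit 564992) (nat_lit 18) .nil))))) (.g (nat_lit 0) (.e (nat_lit 142564) (nat_lit 0) .nil) .nil))) 
(.lf (nat_lit 490397) (.g (nat_lit 4105) (.e (nat_lit 163852) (nat_lit 0) (.e (nat_lit 6427) (nat_lit 342) (.e (nat_lit 229409) (nat_lit 13) (.e (nat_lit 434231) (nat_lit 23) (.e (nat_lit 532550) (nat_lit 12) (.e (nat_lit 360475) (nat_lit 8) (.e (nat_lit 557091) (nat_lit 12) .nil))))))) (.g (nat_lit 1) (.e (nat_lit 143541) (nat_lit 0) .nil) .nil)))))) 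
(.nd (nat_lit 7) (.nd (nat_lit 8) (.nd (nat_lit 9) 
(.lf (nat_lit 489565) (.g (nat_lit 2053) (.e (nat_lit 16473) (nat_lit 14) (.e (nat_lit 491538) (nat_lit 3) (.e (nat_lit 98381) (nat_lit 31) (.e (nat_lit 466967) (nat_lit 20) (.e (nat_lit 3304) (nat_lit 202) (.e (nat_lit 581376) (nat_lit 11) .nil)))))) (.g (nat_lit 1) (.e (nat_lit 141146) (nat_lit 0) .nil) .nil))) 
(.lf (nat_lit 490077) (.g (nat_lit 2789) (.e (nat_lit 49189) (nat_lit 11) (.e (nat_lit 16425) (nat_lit 7) (.e (nat_lit 409647) (nat_lit 18) (.e (nat_lit 303143) (nat_lit 12) (.e (nat_lit 475220) (nat_lit 44) (.e (nat_lit 745216) (nat_lit 15) .nil)))))) (.g (nat_lit 1) (.e (nat_lit 142806) (nat_lit 0) .nil) .nil)))) (.nd (nat_lit 9) 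
(.lf (nat_lit 489821) (.g (nat_lit 1995) (.e (nat_lit 49187) (nat_lit 11) (.e (nat_lit 16425) (nat_lit 7) (.e (nat_lit 409643) (nat_lit 18) (.e (nat_lit 303143) (nat_lit 12) (.e (nat_lit 475197) (nat_lit 40) .nil))))) (.g (nat_lit 0) (.e (nat_lit 142452) (nat_lit 0) .nil) .nil))) 
(.lf (nat_lit 490333) (.g (nat_lit 1259) (.e (nat_lit 163848) (nat_lit 0) (.e (nat_lit 6255) (nat_lit 337) (.e (nat_lit 2725) (nat_lit 172) (.e (nat_lit 237593) (nat_lit 3) .nil)))) (.g (nat_lit 0) (.e (nat_lit 143251) (nat_lit 0) .nil) .nil))))) (.nd (nat_lit 8) (.nd (nat_lit 9) 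
(.lf (nat_lit 489693) (.g (nat_lit 2606) (.e (nat_lit 32807) (nat_lit 18) (.e (nat_lit 172126) (nat_lit 14) (.e (nat_lit 491537) (nat_lit 2) (.e (nat_lit 90174) (nat_lit 14) (.e (nat_lit 180282) (nat_lit 45) .nil))))) (.g (nat_lit 0) (.e (nat_lit 141875) (nat_lit 0) .nil) .nil))) 
(.lf (nat_lit 490205) (.g (nat_lit 822) (.e (nat_lit 40993) (nat_lit 11) (.e (nat_lit 24657) (nat_lit 13) (.e (nat_lit 393238) (nat_lit 17) .nil))) (.g (nat_lit 0) (.e (nat_lit 142986) (nat_lit 0) .nil) .nil)))) (.nd (nat_lit 9) 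
(.lf (nat_lit 489949) (.g (nat_lit 2425) (.e (nat_lit 49188) (nat_lit 11) (.e (nat_lit 16466) (nat_lit 13) (.e (nat_lit 483372) (nat_lit 21) (.e (nat_lit 319527) (nat_lit 15) .nil)))) (.g (nat_lit 0) (.e (nat_lit 142639) (nat_lit 0) .nil) .nil))) 
(.lf (nat_lit 490461) (.g (nat_lit 957) (.e (nat_lit 163861) (nat_lit 1) (.e (nat_lit 164332) (nat_lit 230) (.e (nat_lit 163885) (nat_lit 5) (.e (nat_lit 221219) (nat_lit 24) .nil)))) (.g (nat_lit 0) (.e (nat_lit 143815) (nat_lit 0) .nil) .nil))))))) (.nd (nat_lit 6) (.nd (nat_lit 7) (.nd (nat_lit 8) (.nd (nat_lit 9) 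
(.lf (nat_lit 489533) (.g (nat_lit 2275) (.e (nat_lit 16470) (nat_lit 14) (.e (nat_lit 491571) (nat_lit 13) (.e (nat_lit 393284) (nat_lit 24) (.e (nat_lit 434208) (nat_lit 18) (.e (nat_lit 4754) (nat_lit 281) .nil))))) (.g (nat_lit 0) (.e (nat_lit 141073) (nat_lit 0) .nil) .nil))) 
(.lf (nat_lit 490045) (.g (nat_lit 2605) (.e (nat_lit 49189) (nat_lit 11) (.e (nat_lit 16425) (nat_lit 7) (.e (nat_lit 409646) (nat_lit 18) (.e (nat_lit 303143) (nat_lit 12) (.e (nat_lit 475197) (nat_lit 40) (.e (nat_lit 704790) (nat_lit 14) (.e (nat_lit 2592) (nat_lit 162) .nil))))))) (.g (nat_lit 1) (.e (nat_lit 142774) (nat_lit 0) .nil) .nil)))) (.nd (nat_lit 9) 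
(.lf (nat_lit 489789) (.g (nat_lit 2000) (.e (nat_lit 49185) (nat_lit 11) (.e (nat_lit 16425) (nat_lit 7) (.e (nat_lit 409646) (nat_lit 18) (.e (nat_lit 303143) (nat_lit 12) (.e (nat_lit 475218) (nat_lit 44) .nil))))) (.g (nat_lit 0) (.e (nat_lit 142402) (nat_lit 0) .nil) .nil))) 
(.lf (nat_lit 490301) (.g (nat_lit 4722) (.e (nat_lit 163847) (nat_lit 0) (.e (nat_lit 6252) (nat_lit 337) (.e (nat_lit 2630) (nat_lit 164) (.e (nat_lit 172067) (nat_lit 3) (.e (nat_lit 204869) (nat_lit 29) (.e (nat_lit 360475) (nat_lit 8) (.e (nat_lit 557091) (nat_lit 12) .nil))))))) (.g (nat_lit 1) (.e (nat_lit 143206) (nat_lit 0) .nil) .nil))))) (.nd (nat_lit 8) (.nd (nat_lit 9) 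
(.lf (nat_lit 489661) (.g (nat_lit 3156) (.e (nat_lit 32807) (nat_lit 18) (.e (nat_lit 172120) (nat_lit 12) (.e (nat_lit 475185) (nat_lit 29) (.e (nat_lit 557105) (nat_lit 14) (.e (nat_lit 180282) (nat_lit 45) (.e (nat_lit 2570) (nat_lit 160) .nil)))))) (.g (nat_lit 1) (.e (nat_lit 141807) (nat_lit 0) .nil) .nil))) 
(.lf (nat_lit 490173) (.g (nat_lit 1532) (.e (nat_lit 49189) (nat_lit 11) (.e (nat_lit 16448) (nat_lit 10) (.e (nat_lit 434289) (nat_lit 43) (.e (nat_lit 696344) (nat_lit 8) .nil)))) (.g (nat_lit 0) (.e (nat_lit 142920) (nat_lit 0) .nil) .nil)))) (.nd (nat_lit 9) 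
(.lf (nat_lit 489917) (.g (nat_lit 872) (.e (nat_lit 49188) (nat_lit 11) (.e (nat_lit 16465) (nat_lit 13) (.e (nat_lit 483372) (nat_lit 21) .nil))) (.g (nat_lit 0) (.e (nat_lit 142604) (nat_lit 0) .nil) .nil))) 
(.lf (nat_lit 490429) (.g (nat_lit 2213) (.e (nat_lit 171776) (nat_lit 0) (.e (nat_lit 5937) (nat_lit 322) (.e (nat_lit 57372) (nat_lit 2) (.e (nat_lit 90174) (nat_lit 14) (.e (nat_lit 180251) (nat_lit 10) .nil))))) (.g (nat_lit 0) (.e (nat_lit 143613) (nat_lit 0) .nil) .nil)))))) (.nd (nat_lit 7) (.nd (nat_lit 8) (.nd (nat_lit 9) 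
(.lf (nat_lit 489597) (.g (nat_lit 2899) (.e (nat_lit 32806) (nat_lit 18) (.e (nat_lit 172126) (nat_lit 14) (.e (nat_lit 491537) (nat_lit 2) (.e (nat_lit 90172) (nat_lit 14) (.e (nat_lit 180285) (nat_lit 45) (.e (nat_lit 2570) (nat_lit 160) .nil)))))) (.g (nat_lit 1) (.e (nat_lit 141417) (nat_lit 0) .nil) .nil))) 
(.lf (nat_lit 490109) (.g (nat_lit 1582) (.e (nat_lit 49189) (nat_lit 11) (.e (nat_lit 16425) (nat_lit 7) (.e (nat_lit 409648) (nat_lit 18) (.e (nat_lit 303142) (nat_lit 12) (.e (nat_lit 475197) (nat_lit 40) .nil))))) (.g (nat_lit 0) (.e (nat_lit 142838) (nat_lit 0) .nil) .nil)))) (.nd (nat_lit 9) 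
(.lf (nat_lit 489853) (.g (nat_lit 3177) (.e (nat_lit 49187) (nat_lit 11) (.e (nat_lit 16425) (nat_lit 7) (.e (nat_lit 409648) (nat_lit 18) (.e (nat_lit 303143) (nat_lit 12) (.e (nat_lit 475220) (nat_lit 44) (.e (nat_lit 737318) (nat_lit 15) .nil)))))) (.g (nat_lit 1) (.e (nat_lit 142484) (nat_lit 0) .nil) .nil))) 
(.lf (nat_lit 490365) (.g (nat_lit 2179) (.e (nat_lit 163850) (nat_lit 0) (.e (nat_lit 3304) (nat_lit 202) (.e (nat_lit 573491) (nat_lit 15) (.e (nat_lit 81951) (nat_lit 22) (.e (nat_lit 90170) (nat_lit 13) .nil))))) (.g (nat_lit 0) (.e (nat_lit 143332) (nat_lit 0) .nil) .nil))))) (.nd (nat_lit 8) (.nd (nat_lit 9) 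
(.lf (nat_lit 489725) (.g (nat_lit 2349) (.e (nat_lit 32808) (nat_lit 19) (.e (nat_lit 180278) (nat_lit 32) (.e (nat_lit 1235) (nat_lit 91) (.e (nat_lit 90172) (nat_lit 14) (.e (nat_lit 180285) (nat_lit 45) (.e (nat_lit 2570) (nat_lit 160) .nil)))))) (.g (nat_lit 1) (.e (nat_lit 141963) (nat_lit 0) .nil) .nil))) 
(.lf (nat_lit 490237) (.g (nat_lit 1735) (.e (nat_lit 48896) (nat_lit 11) (.e (nat_lit 24660) (nat_lit 13) (.e (nat_lit 393260) (nat_lit 21) (.e (nat_lit 409616) (nat_lit 10) .nil)))) (.g (nat_lit 0) (.e (nat_lit 143047) (nat_lit 0) .nil) .nil)))) (.nd (nat_lit 9) 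
(.lf (nat_lit 489981) (.g (nat_lit 1573) (.e (nat_lit 49189) (nat_lit 11) (.e (nat_lit 16424) (nat_lit 7) (.e (nat_lit 409645) (nat_lit 18) (.e (nat_lit 303143) (nat_lit 12) (.e (nat_lit 475199) (nat_lit 40) .nil))))) (.g (nat_lit 0) (.e (nat_lit 142708) (nat_lit 0) .nil) .nil))) 
(.lf (nat_lit 490493) (.g (nat_lit 2248) (.e (nat_lit 163864) (nat_lit 1) (.e (nat_lit 164330) (nat_lit 230) (.e (nat_lit 163902) (nat_lit 12) (.e (nat_lit 426428) (nat_lit 17) (.e (nat_lit 90170) (nat_lit 13) .nil))))) (.g (nat_lit 0) (.e (nat_lit 144062) (nat_lit 0) .nil) .nil))))))))))) 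
(.nd (nat_lit 2) (.nd (nat_lit 3) (.nd (nat_lit 4) (.nd (nat_lit 5) (.nd (nat_lit 6) 
(.nd (nat_lit 7) (.nd (nat_lit 8) (.nd (nat_lit 9) 
(.lf (nat_lit 489475) (.g (nat_lit 1942) (.e (nat_lit 16468) (nat_lit 13) (.e (nat_lit 483341) (nat_lit 9) (.e (nat_lit 426108) (nat_lit 1) (.e (nat_lit 164330) (nat_lit 230) (.e (nat_lit 163869) (nat_lit 2) .nil))))) (.g (nat_lit 0) (.e (nat_lit 140961) (nat_lit 0) .nil) .nil))) 
(.lf (nat_lit 489987) (.g (nat_lit 2858) (.e (nat_lit 49189) (nat_lit 11) (.e (nat_lit 16425) (nat_lit 7) (.e (nat_lit 409623) (nat_lit 10) (.e (nat_lit 5664) (nat_lit 312) (.e (nat_lit 3062) (nat_lit 190) (.e (nat_lit 475220) (nat_lit 44) (.e (nat_lit 737318) (nat_lit 15) .nil))))))) (.g (nat_lit 1) (.e (nat_lit 142716) (nat_lit 0) .nil) .nil)))) (.nd (nat_lit 9) 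
(.lf (nat_lit 489731) (.g (nat_lit 2077) (.e (nat_lit 32808) (nat_lit 19) (.e (nat_lit 180278) (nat_lit 32) (.e (nat_lit 1253) (nat_lit 92) (.e (nat_lit 98367) (nat_lit 27) (.e (nat_lit 434192) (nat_lit 13) (.e (nat_lit 2571) (nat_lit 160) .nil)))))) (.g (nat_lit 1) (.e (nat_lit 141970) (nat_lit 0) .nil) .nil))) 
(.lf (nat_lit 490243) (.g (nat_lit 4087) (.e (nat_lit 163840) (nat_lit 0) (.e (nat_lit 3307) (nat_lit 202) (.e (nat_lit 573489) (nat_lit 14) (.e (nat_lit 73755) (nat_lit 8) (.e (nat_lit 557098) (nat_lit 13) (.e (nat_lit 179968) (nat_lit 18) (.e (nat_lit 98334) (nat_lit 18) (.e (nat_lit 164330) (nat_lit 230) .nil)))))))) (.g (nat_lit 1) (.e (nat_lit 143056) (nat_lit 0) .nil) .nil))))) 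
(.nd (nat_lit 8) (.nd (nat_lit 9) 
(.lf (nat_lit 489603) (.g (nat_lit 2114) (.e (nat_lit 32806) (nat_lit 18) (.e (nat_lit 172126) (nat_lit 14) (.e (nat_lit 491540) (nat_lit 3) (.e (nat_lit 98359) (nat_lit 26) (.e (nat_lit 426171) (nat_lit 7) .nil))))) (.g (nat_lit 0) (.e (nat_lit 141426) (nat_lit 0) .nil) .nil))) 
(.lf (nat_lit 490115) (.g (nat_lit 2405) (.e (nat_lit 49189) (nat_lit 11) (.e (nat_lit 16425) (nat_lit 7) (.e (nat_lit 409648) (nat_lit 18) (.e (nat_lit 303142) (nat_lit 12) (.e (nat_lit 475220) (nat_lit 44) (.e (nat_lit 745216) (nat_lit 15) .nil)))))) (.g (nat_lit 1) (.e (nat_lit 142844) (nat_lit 0) .nil) .nil)))) (.nd (nat_lit 9) 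
(.lf (nat_lit 489859) (.g (nat_lit 2867) (.e (nat_lit 49187) (nat_lit 11) (.e (nat_lit 16425) (nat_lit 7) (.e (nat_lit 409649) (nat_lit 18) (.e (nat_lit 303143) (nat_lit 12) (.e (nat_lit 475198) (nat_lit 40) (.e (nat_lit 704790) (nat_lit 14) (.e (nat_lit 2587) (nat_lit 162) .nil))))))) (.g (nat_lit 1) (.e (nat_lit 142490) (nat_lit 0) .nil) .nil))) 
(.lf (nat_lit 490371) (.g (nat_lit 1280) (.e (nat_lit 163850) (nat_lit 0) (.e (nat_lit 5223) (nat_lit 296) (.e (nat_lit 163903) (nat_lit 12) (.e (nat_lit 426566) (nat_lit 34) .nil)))) (.g (nat_lit 0) (.e (nat_lit 143380) (nat_lit 0) .nil) .nil)))))) (.nd (nat_lit 7) (.nd (nat_lit 8) (.nd (nat_lit 9) 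
(.lf (nat_lit 489539) (.g (nat_lit 2613) (.e (nat_lit 16471) (nat_lit 14) (.e (nat_lit 491537) (nat_lit 2) (.e (nat_lit 90170) (nat_lit 13) (.e (nat_lit 172113) (nat_lit 10) (.e (nat_lit 434248) (nat_lit 28) (.e (nat_lit 573469) (nat_lit 11) .nil)))))) (.g (nat_lit 1) (.e (nat_lit 141086) (nat_lit 0) .nil) .nil))) 
(.lf (nat_lit 490051) (.g (nat_lit 2384) (.e (nat_lit 49189) (nat_lit 11) (.e (nat_lit 16425) (nat_lit 7) (.e (nat_lit 409646) (nat_lit 18) (.e (nat_lit 303143) (nat_lit 12) (.e (nat_lit 475199) (nat_lit 40) (.e (nat_lit 704787) (nat_lit 14) (.e (nat_lit 2592) (nat_lit 162) .nil))))))) (.g (nat_lit 1) (.e (nat_lit 142780) (nat_lit 0) .nil) .nil)))) (.nd (nat_lit 9) 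
(.lf (nat_lit 489795) (.g (nat_lit 2332) (.e (nat_lit 49185) (nat_lit 11) (.e (nat_lit 16425) (nat_lit 7) (.e (nat_lit 409648) (nat_lit 18) (.e (nat_lit 303143) (nat_lit 12) (.e (nat_lit 475219) (nat_lit 44) .nil))))) (.g (nat_lit 0) (.e (nat_lit 142408) (nat_lit 0) .nil) .nil))) 
(.lf (nat_lit 490307) (.g (nat_lit 3822) (.e (nat_lit 163847) (nat_lit 0) (.e (nat_lit 6255) (nat_lit 337) (.e (nat_lit 2630) (nat_lit 164) (.e (nat_lit 172065) (nat_lit 3) (.e (nat_lit 204868) (nat_lit 29) (.e (nat_lit 360473) (nat_lit 8) (.e (nat_lit 557091) (nat_lit 12) .nil))))))) (.g (nat_lit 1) (.e (nat_lit 143216) (nat_lit 0) .nil) .nil))))) (.nd (nat_lit 8) (.nd (nat_lit 9) 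
(.lf (nat_lit 489667) (.g (nat_lit 2419) (.e (nat_lit 32807) (nat_lit 18) (.e (nat_lit 172124) (nat_lit 14) (.e (nat_lit 491537) (nat_lit 2) (.e (nat_lit 90170) (nat_lit 13) (.e (nat_lit 172039) (nat_lit 0) .nil))))) (.g (nat_lit 0) (.e (nat_lit 141822) (nat_lit 0) .nil) .nil))) 
(.lf (nat_lit 490179) (.g (nat_lit 685) (.e (nat_lit 49189) (nat_lit 11) (.e (nat_lit 16466) (nat_lit 13) (.e (nat_lit 483372) (nat_lit 21) .nil))) (.g (nat_lit 0) (.e (nat_lit 142935) (nat_lit 0) .nil) .nil)))) (.nd (nat_lit 9) 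
(.lf (nat_lit 489923) (.g (nat_lit 1665) (.e (nat_lit 49188) (nat_lit 11) (.e (nat_lit 16466) (nat_lit 13) (.e (nat_lit 483350) (nat_lit 17) (.e (nat_lit 6210) (nat_lit 333) .nil)))) (.g (nat_lit 0) (.e (nat_lit 142612) (nat_lit 0) .nil) .nil))) 
(.lf (nat_lit 490435) (.g (nat_lit 2461) (.e (nat_lit 163859) (nat_lit 1) (.e (nat_lit 164327) (nat_lit 230) (.e (nat_lit 163903) (nat_lit 12) (.e (nat_lit 426422) (nat_lit 16) .nil)))) (.g (nat_lit 0) (.e (nat_lit 143670) (nat_lit 0) .nil) .nil))))))) (.nd (nat_lit 6) (.nd (nat_lit 7) (.nd (nat_lit 8) (.nd (nat_lit 9) 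
(.lf (nat_lit 489507) (.g (nat_lit 1369) (.e (nat_lit 16468) (nat_lit 13) (.e (nat_lit 483372) (nat_lit 21) (.e (nat_lit 319506) (nat_lit 10) (.e (nat_lit 4995) (nat_lit 288) .nil)))) (.g (nat_lit 0) (.e (nat_lit 141020) (nat_lit 0) .nil) .nil))) 
(.lf (nat_lit 490019) (.g (nat_lit 2492) (.e (nat_lit 49189) (nat_lit 11) (.e (nat_lit 16425) (nat_lit 7) (.e (nat_lit 409645) (nat_lit 18) (.e (nat_lit 303143) (nat_lit 12) (.e (nat_lit 475197) (nat_lit 40) (.e (nat_lit 704787) (nat_lit 14) (.e (nat_lit 2591) (nat_lit 162) .nil))))))) (.g (nat_lit 1) (.e (nat_lit 142748) (nat_lit 0) .nil) .nil)))) (.nd (nat_lit 9) 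
(.lf (nat_lit 489763) (.g (nat_lit 1016) (.e (nat_lit 49157) (nat_lit 0) (.e (nat_lit 3012) (nat_lit 187) (.e (nat_lit 450584) (nat_lit 9) (.e (nat_lit 565268) (nat_lit 5) (.e (nat_lit 73791) (nat_lit 45) (.e (nat_lit 1162) (nat_lit 86) .nil)))))) (.g (nat_lit 1) (.e (nat_lit 142256) (nat_lit 0) .nil) .nil))) 
(.lf (nat_lit 490275) (.g (nat_lit 2007) (.e (nat_lit 163844) (nat_lit 0) (.e (nat_lit 3471) (nat_lit 217) (.e (nat_lit 696344) (nat_lit 8) (.e (nat_lit 172079) (nat_lit 7) (.e (nat_lit 409645) (nat_lit 18) (.e (nat_lit 303133) (nat_lit 9) (.e (nat_lit 426042) (nat_lit 0) (.e (nat_lit 2442) (nat_lit 157) (.e (nat_lit 5966) (nat_lit 324) .nil))))))))) (.g (nat_lit 1) (.e (nat_lit 143159) (nat_lit 0) .nil) .nil))))) 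
(.nd (nat_lit 8) (.nd (nat_lit 9) 
(.lf (nat_lit 489635) (.g (nat_lit 2358) (.e (nat_lit 32807) (nat_lit 18) (.e (nat_lit 172119) (nat_lit 12) (.e (nat_lit 475185) (nat_lit 29) (.e (nat_lit 557103) (nat_lit 14) (.e (nat_lit 188160) (nat_lit 45) .nil))))) (.g (nat_lit 0) (.e (nat_lit 141779) (nat_lit 0) .nil) .nil))) 
(.lf (nat_lit 490147) (.g (nat_lit 2183) (.e (nat_lit 49189) (nat_lit 11) (.e (nat_lit 16425) (nat_lit 7) (.e (nat_lit 409649) (nat_lit 18) (.e (nat_lit 303140) (nat_lit 10) (.e (nat_lit 434272) (nat_lit 38) (.e (nat_lit 663296) (nat_lit 14) (.e (nat_lit 2597) (nat_lit 162) .nil))))))) (.g (nat_lit 1) (.e (nat_lit 142876) (nat_lit 0) .nil) .nil)))) (.nd (nat_lit 9) 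
(.lf (nat_lit 489891) (.g (nat_lit 2076) (.e (nat_lit 49188) (nat_lit 11) (.e (nat_lit 16425) (nat_lit 7) (.e (nat_lit 409643) (nat_lit 18) (.e (nat_lit 303133) (nat_lit 9) (.e (nat_lit 426412) (nat_lit 15) (.e (nat_lit 2233) (nat_lit 146) (.e (nat_lit 737318) (nat_lit 15) .nil))))))) (.g (nat_lit 1) (.e (nat_lit 142571) (nat_lit 0) .nil) .nil))) 
(.lf (nat_lit 490403) (.g (nat_lit 723) (.e (nat_lit 163853) (nat_lit 0) (.e (nat_lit 3307) (nat_lit 202) (.e (nat_lit 573489) (nat_lit 14) .nil))) (.g (nat_lit 0) (.e (nat_lit 143551) (nat_lit 0) .nil) .nil)))))) (.nd (nat_lit 7) (.nd (nat_lit 8) (.nd (nat_lit 9) 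
(.lf (nat_lit 489571) (.g (nat_lit 3045) (.e (nat_lit 16473) (nat_lit 14) (.e (nat_lit 491560) (nat_lit 10) (.e (nat_lit 344179) (nat_lit 44) (.e (nat_lit 778455) (nat_lit 10) (.e (nat_lit 8543) (nat_lit 229) (.e (nat_lit 229656) (nat_lit 234) .nil)))))) (.g (nat_lit 1) (.e (nat_lit 141155) (nat_lit 0) .nil) .nil))) 
(.lf (nat_lit 490083) (.g (nat_lit 1504) (.e (nat_lit 49189) (nat_lit 11) (.e (nat_lit 16425) (nat_lit 7) (.e (nat_lit 409648) (nat_lit 18) (.e (nat_lit 303137) (nat_lit 10) (.e (nat_lit 434275) (nat_lit 39) .nil))))) (.g (nat_lit 0) (.e (nat_lit 142812) (nat_lit 0) .nil) .nil)))) (.nd (nat_lit 9) 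
(.lf (nat_lit 489827) (.g (nat_lit 2689) (.e (nat_lit 49187) (nat_lit 11) (.e (nat_lit 16425) (nat_lit 7) (.e (nat_lit 409643) (nat_lit 18) (.e (nat_lit 303143) (nat_lit 12) (.e (nat_lit 475219) (nat_lit 44) (.e (nat_lit 737318) (nat_lit 15) .nil)))))) (.g (nat_lit 1) (.e (nat_lit 142458) (nat_lit 0) .nil) .nil))) 
(.lf (nat_lit 490339) (.g (nat_lit 2056) (.e (nat_lit 163849) (nat_lit 0) (.e (nat_lit 6255) (nat_lit 337) (.e (nat_lit 2630) (nat_lit 164) (.e (nat_lit 172066) (nat_lit 3) (.e (nat_lit 204868) (nat_lit 29) .nil))))) (.g (nat_lit 0) (.e (nat_lit 143263) (nat_lit 0) .nil) .nil))))) (.nd (nat_lit 8) (.nd (nat_lit 9) 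
(.lf (nat_lit 489699) (.g (nat_lit 1672) (.e (nat_lit 32807) (nat_lit 18) (.e (nat_lit 172126) (nat_lit 14) (.e (nat_lit 491539) (nat_lit 3) (.e (nat_lit 98366) (nat_lit 27) .nil)))) (.g (nat_lit 0) (.e (nat_lit 141882) (nat_lit 0) .nil) .nil))) 
(.lf (nat_lit 490211) (.g (nat_lit 4411) (.e (nat_lit 40994) (nat_lit 11) (.e (nat_lit 24665) (nat_lit 14) (.e (nat_lit 401460) (nat_lit 14) (.e (nat_lit 491566) (nat_lit 12) (.e (nat_lit 385113) (nat_lit 53) .nil))))) (.g (nat_lit 0) (.e (nat_lit 142999) (nat_lit 0) .nil) .nil)))) (.nd (nat_lit 9) 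
(.lf (nat_lit 489955) (.g (nat_lit 838) (.e (nat_lit 49188) (nat_lit 11) (.e (nat_lit 16466) (nat_lit 13) (.e (nat_lit 483395) (nat_lit 24) .nil))) (.g (nat_lit 0) (.e (nat_lit 142648) (nat_lit 0) .nil) .nil))) 
(.lf (nat_lit 490467) (.g (nat_lit 1293) (.e (nat_lit 163861) (nat_lit 1) (.e (nat_lit 164332) (nat_lit 230) (.e (nat_lit 163905) (nat_lit 12) (.e (nat_lit 426438) (nat_lit 18) (.e (nat_lit 98374) (nat_lit 29) .nil))))) (.g (nat_lit 0) (.e (nat_lit 143832) (nat_lit 0) .nil) .nil)))))))) (.nd (nat_lit 5) (.nd (nat_lit 6) (.nd (nat_lit 7) (.nd (nat_lit 8) (.nd (nat_lit 9) 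
(.lf (nat_lit 489491) (.g (nat_lit 1388) (.e (nat_lit 16468) (nat_lit 13) (.e (nat_lit 483372) (nat_lit 21) (.e (nat_lit 319504) (nat_lit 10) (.e (nat_lit 4916) (nat_lit 287) .nil)))) (.g (nat_lit 0) (.e (nat_lit 140997) (nat_lit 0) .nil) .nil))) 
(.lf (nat_lit 490003) (.g (nat_lit 2960) (.e (nat_lit 49189) (nat_lit 11) (.e (nat_lit 16425) (nat_lit 7) (.e (nat_lit 409643) (nat_lit 18) (.e (nat_lit 303143) (nat_lit 12) (.e (nat_lit 475199) (nat_lit 40) (.e (nat_lit 704790) (nat_lit 14) (.e (nat_lit 2591) (nat_lit 162) .nil))))))) (.g (nat_lit 1) (.e (nat_lit 142732) (nat_lit 0) .nil) .nil)))) (.nd (nat_lit 9) 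
(.lf (nat_lit 489747) (.g (nat_lit 1102) (.e (nat_lit 49156) (nat_lit 0) (.e (nat_lit 3012) (nat_lit 187) (.e (nat_lit 450584) (nat_lit 9) (.e (nat_lit 565268) (nat_lit 5) (.e (nat_lit 73789) (nat_lit 45) (.e (nat_lit 1163) (nat_lit 86) .nil)))))) (.g (nat_lit 1) (.e (nat_lit 142219) (nat_lit 0) .nil) .nil))) 
(.lf (nat_lit 490259) (.g (nat_lit 4620) (.e (nat_lit 163843) (nat_lit 0) (.e (nat_lit 6420) (nat_lit 341) (.e (nat_lit 163900) (nat_lit 12) (.e (nat_lit 426140) (nat_lit 3) (.e (nat_lit 204869) (nat_lit 29) (.e (nat_lit 360475) (nat_lit 8) (.e (nat_lit 557091) (nat_lit 12) .nil))))))) (.g (nat_lit 1) (.e (nat_lit 143125) (nat_lit 0) .nil) .nil))))) (.nd (nat_lit 8) (.nd (nat_lit 9) 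
(.lf (nat_lit 489619) (.g (nat_lit 1970) (.e (nat_lit 32807) (nat_lit 18) (.e (nat_lit 172118) (nat_lit 12) (.e (nat_lit 475185) (nat_lit 29) (.e (nat_lit 557103) (nat_lit 14) (.e (nat_lit 188160) (nat_lit 45) (.e (nat_lit 2569) (nat_lit 160) .nil)))))) (.g (nat_lit 1) (.e (nat_lit 141762) (nat_lit 0) .nil) .nil))) 
(.lf (nat_lit 490131) (.g (nat_lit 2494) (.e (nat_lit 49189) (nat_lit 11) (.e (nat_lit 16425) (nat_lit 7) (.e (nat_lit 409649) (nat_lit 18) (.e (nat_lit 303140) (nat_lit 10) (.e (nat_lit 434275) (nat_lit 39) (.e (nat_lit 671488) (nat_lit 14) (.e (nat_lit 1157) (nat_lit 86) .nil))))))) (.g (nat_lit 1) (.e (nat_lit 142860) (nat_lit 0) .nil) .nil)))) (.nd (nat_lit 9) 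
(.lf (nat_lit 489875) (.g (nat_lit 2856) (.e (nat_lit 49187) (nat_lit 11) (.e (nat_lit 16473) (nat_lit 14) (.e (nat_lit 491560) (nat_lit 10) (.e (nat_lit 344160) (nat_lit 37) .nil)))) (.g (nat_lit 0) (.e (nat_lit 142539) (nat_lit 0) .nil) .nil))) 
(.lf (nat_lit 490387) (.g (nat_lit 2296) (.e (nat_lit 163851) (nat_lit 0) (.e (nat_lit 3307) (nat_lit 202) (.e (nat_lit 573489) (nat_lit 14) (.e (nat_lit 73754) (nat_lit 8) (.e (nat_lit 557095) (nat_lit 13) .nil))))) (.g (nat_lit 0) (.e (nat_lit 143509) (nat_lit 0) .nil) .nil)))))) (.nd (nat_lit 7) (.nd (nat_lit 8) (.nd (nat_lit 9) 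
(.lf (nat_lit 489555) (.g (nat_lit 374) (.e (nat_lit 16473) (nat_lit 14) (.e (nat_lit 491526) (nat_lit 0) (.e (nat_lit 7936) (nat_lit 152) .nil))) (.g (nat_lit 0) (.e (nat_lit 141117) (nat_lit 0) .nil) .nil))) 
(.lf (nat_lit 490067) (.g (nat_lit 3047) (.e (nat_lit 49189) (nat_lit 11) (.e (nat_lit 16425) (nat_lit 7) (.e (nat_lit 409647) (nat_lit 18) (.e (nat_lit 303143) (nat_lit 12) (.e (nat_lit 475198) (nat_lit 40) (.e (nat_lit 704790) (nat_lit 14) (.e (nat_lit 2590) (nat_lit 162) .nil))))))) (.g (nat_lit 1) (.e (nat_lit 142796) (nat_lit 0) .nil) .nil)))) (.nd (nat_lit 9) 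
(.lf (nat_lit 489811) (.g (nat_lit 1948) (.e (nat_lit 49185) (nat_lit 11) (.e (nat_lit 16466) (nat_lit 13) (.e (nat_lit 483372) (nat_lit 21) (.e (nat_lit 319504) (nat_lit 10) .nil)))) (.g (nat_lit 0) (.e (nat_lit 142427) (nat_lit 0) .nil) .nil))) 
(.lf (nat_lit 490323) (.g (nat_lit 5238) (.e (nat_lit 163848) (nat_lit 0) (.e (nat_lit 6252) (nat_lit 337) (.e (nat_lit 2630) (nat_lit 164) (.e (nat_lit 172064) (nat_lit 2) (.e (nat_lit 196666) (nat_lit 13) (.e (nat_lit 65610) (nat_lit 10) (.e (nat_lit 344129) (nat_lit 26) (.e (nat_lit 557089) (nat_lit 12) .nil)))))))) (.g (nat_lit 1) (.e (nat_lit 143238) (nat_lit 0) .nil) .nil))))) 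
(.nd (nat_lit 8) (.nd (nat_lit 9) 
(.lf (nat_lit 489683) (.g (nat_lit 2431) (.e (nat_lit 32807) (nat_lit 18) (.e (nat_lit 172126) (nat_lit 14) (.e (nat_lit 491537) (nat_lit 2) (.e (nat_lit 90170) (nat_lit 13) (.e (nat_lit 172039) (nat_lit 0) .nil))))) (.g (nat_lit 0) (.e (nat_lit 141864) (nat_lit 0) .nil) .nil))) 
(.lf (nat_lit 490195) (.g (nat_lit 651) (.e (nat_lit 40964) (nat_lit 0) (.e (nat_lit 1582) (nat_lit 111) (.e (nat_lit 368384) (nat_lit 11) (.e (nat_lit 581652) (nat_lit 5) (.e (nat_lit 180288) (nat_lit 45) (.e (nat_lit 2580) (nat_lit 161) .nil)))))) (.g (nat_lit 1) (.e (nat_lit 142961) (nat_lit 0) .nil) .nil)))) (.nd (nat_lit 9) 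
(.lf (nat_lit 489939) (.g (nat_lit 3349) (.e (nat_lit 49188) (nat_lit 11) (.e (nat_lit 16466) (nat_lit 13) (.e (nat_lit 483372) (nat_lit 21) (.e (nat_lit 319504) (nat_lit 10) (.e (nat_lit 4961) (nat_lit 287) .nil))))) (.g (nat_lit 0) (.e (nat_lit 142629) (nat_lit 0) .nil) .nil))) 
(.lf (nat_lit 490451) (.g (nat_lit 3100) (.e (nat_lit 163860) (nat_lit 1) (.e (nat_lit 164332) (nat_lit 230) (.e (nat_lit 163902) (nat_lit 12) (.e (nat_lit 426472) (nat_lit 25) (.e (nat_lit 319534) (nat_lit 16) (.e (nat_lit 286749) (nat_lit 9) (.e (nat_lit 335997) (nat_lit 1) (.e (nat_lit 57686) (nat_lit 156) .nil)))))))) (.g (nat_lit 1) (.e (nat_lit 143726) (nat_lit 0) .nil) .nil))))))) 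
(.nd (nat_lit 6) (.nd (nat_lit 7) (.nd (nat_lit 8) (.nd (nat_lit 9) 
(.lf (nat_lit 489523) (.g (nat_lit 3401) (.e (nat_lit 16470) (nat_lit 14) (.e (nat_lit 491537) (nat_lit 2) (.e (nat_lit 90170) (nat_lit 13) (.e (nat_lit 172115) (nat_lit 10) (.e (nat_lit 434244) (nat_lit 28) (.e (nat_lit 573471) (nat_lit 11) .nil)))))) (.g (nat_lit 1) (.e (nat_lit 141063) (nat_lit 0) .nil) .nil))) 
(.lf (nat_lit 490035) (.g (nat_lit 3278) (.e (nat_lit 49189) (nat_lit 11) (.e (nat_lit 16425) (nat_lit 7) (.e (nat_lit 409645) (nat_lit 18) (.e (nat_lit 303143) (nat_lit 12) (.e (nat_lit 475199) (nat_lit 40) (.e (nat_lit 704836) (nat_lit 14) (.e (nat_lit 2591) (nat_lit 162) .nil))))))) (.g (nat_lit 1) (.e (nat_lit 142764) (nat_lit 0) .nil) .nil)))) (.nd (nat_lit 9) 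
(.lf (nat_lit 489779) (.g (nat_lit 472) (.e (nat_lit 49185) (nat_lit 11) (.e (nat_lit 16425) (nat_lit 7) (.e (nat_lit 409643) (nat_lit 18) .nil))) (.g (nat_lit 0) (.e (nat_lit 142392) (nat_lit 0) .nil) .nil))) 
(.lf (nat_lit 490291) (.g (nat_lit 4538) (.e (nat_lit 163844) (nat_lit 0) (.e (nat_lit 6254) (nat_lit 337) (.e (nat_lit 2630) (nat_lit 164) (.e (nat_lit 172065) (nat_lit 3) (.e (nat_lit 204869) (nat_lit 29) (.e (nat_lit 360475) (nat_lit 8) (.e (nat_lit 557089) (nat_lit 12) .nil))))))) (.g (nat_lit 1) (.e (nat_lit 143178) (nat_lit 0) .nil) .nil))))) (.nd (nat_lit 8) (.nd (nat_lit 9) 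
(.lf (nat_lit 489651) (.g (nat_lit 2363) (.e (nat_lit 32807) (nat_lit 18) (.e (nat_lit 172120) (nat_lit 12) (.e (nat_lit 475185) (nat_lit 29) (.e (nat_lit 557101) (nat_lit 13) (.e (nat_lit 172080) (nat_lit 7) (.e (nat_lit 409631) (nat_lit 12) .nil)))))) (.g (nat_lit 1) (.e (nat_lit 141795) (nat_lit 0) .nil) .nil))) 
(.lf (nat_lit 490163) (.g (nat_lit 2943) (.e (nat_lit 49189) (nat_lit 11) (.e (nat_lit 16425) (nat_lit 7) (.e (nat_lit 409649) (nat_lit 18) (.e (nat_lit 303143) (nat_lit 12) (.e (nat_lit 475199) (nat_lit 40) (.e (nat_lit 704836) (nat_lit 14) (.e (nat_lit 2590) (nat_lit 162) .nil))))))) (.g (nat_lit 1) (.e (nat_lit 142892) (nat_lit 0) .nil) .nil)))) (.nd (nat_lit 9) 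
(.lf (nat_lit 489907) (.g (nat_lit 886) (.e (nat_lit 49188) (nat_lit 11) (.e (nat_lit 16436) (nat_lit 9) (.e (nat_lit 426550) (nat_lit 31) (.e (nat_lit 368656) (nat_lit 14) .nil)))) (.g (nat_lit 0) (.e (nat_lit 142588) (nat_lit 0) .nil) .nil))) 
(.lf (nat_lit 490419) (.g (nat_lit 1936) (.e (nat_lit 163857) (nat_lit 0) (.e (nat_lit 3253) (nat_lit 197) (.e (nat_lit 532513) (nat_lit 3) (.e (nat_lit 114714) (nat_lit 22) (.e (nat_lit 90172) (nat_lit 14) .nil))))) (.g (nat_lit 0) (.e (nat_lit 143592) (nat_lit 0) .nil) .nil)))))) (.nd (nat_lit 7) (.nd (nat_lit 8) (.nd (nat_lit 9) 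
(.lf (nat_lit 489587) (.g (nat_lit 1655) (.e (nat_lit 32806) (nat_lit 18) (.e (nat_lit 172126) (nat_lit 14) (.e (nat_lit 491536) (nat_lit 2) (.e (nat_lit 90172) (nat_lit 14) .nil)))) (.g (nat_lit 0) (.e (nat_lit 141405) (nat_lit 0) .nil) .nil))) 
(.lf (nat_lit 490099) (.g (nat_lit 1785) (.e (nat_lit 49189) (nat_lit 11) (.e (nat_lit 16425) (nat_lit 7) (.e (nat_lit 409648) (nat_lit 18) (.e (nat_lit 303137) (nat_lit 10) (.e (nat_lit 434272) (nat_lit 38) .nil))))) (.g (nat_lit 0) (.e (nat_lit 142828) (nat_lit 0) .nil) .nil)))) (.nd (nat_lit 9) 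
(.lf (nat_lit 489843) (.g (nat_lit 1955) (.e (nat_lit 49187) (nat_lit 11) (.e (nat_lit 16425) (nat_lit 7) (.e (nat_lit 409647) (nat_lit 18) (.e (nat_lit 303143) (nat_lit 12) (.e (nat_lit 475218) (nat_lit 44) .nil))))) (.g (nat_lit 0) (.e (nat_lit 142474) (nat_lit 0) .nil) .nil))) 
(.lf (nat_lit 490355) (.g (nat_lit 468) (.e (nat_lit 163850) (nat_lit 0) (.e (nat_lit 3238) (nat_lit 197) (.e (nat_lit 532514) (nat_lit 3) .nil))) (.g (nat_lit 0) (.e (nat_lit 143298) (nat_lit 0) .nil) .nil))))) (.nd (nat_lit 8) (.nd (nat_lit 9) 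
(.lf (nat_lit 489715) (.g (nat_lit 1631) (.e (nat_lit 32808) (nat_lit 19) (.e (nat_lit 180277) (nat_lit 32) (.e (nat_lit 1252) (nat_lit 92) (.e (nat_lit 98367) (nat_lit 27) (.e (nat_lit 434193) (nat_lit 13) (.e (nat_lit 2570) (nat_lit 160) .nil)))))) (.g (nat_lit 1) (.e (nat_lit 141953) (nat_lit 0) .nil) .nil))) 
(.lf (nat_lit 490227) (.g (nat_lit 1472) (.e (nat_lit 40996) (nat_lit 11) (.e (nat_lit 24658) (nat_lit 13) (.e (nat_lit 393260) (nat_lit 21) (.e (nat_lit 417536) (nat_lit 10) .nil)))) (.g (nat_lit 0) (.e (nat_lit 143020) (nat_lit 0) .nil) .nil)))) (.nd (nat_lit 9) 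
(.lf (nat_lit 489971) (.g (nat_lit 3060) (.e (nat_lit 49189) (nat_lit 11) (.e (nat_lit 16412) (nat_lit 2) (.e (nat_lit 196666) (nat_lit 13) (.e (nat_lit 65610) (nat_lit 10) (.e (nat_lit 344090) (nat_lit 18) .nil))))) (.g (nat_lit 0) (.e (nat_lit 142683) (nat_lit 0) .nil) .nil))) 
(.lf (nat_lit 490483) (.g (nat_lit 4668) (.e (nat_lit 163863) (nat_lit 1) (.e (nat_lit 164325) (nat_lit 230) (.e (nat_lit 163903) (nat_lit 12) (.e (nat_lit 426438) (nat_lit 18) (.e (nat_lit 98373) (nat_lit 29) (.e (nat_lit 450563) (nat_lit 0) (.e (nat_lit 6839) (nat_lit 369) .nil))))))) (.g (nat_lit 1) (.e (nat_lit 143926) (nat_lit 0) .nil) .nil))))))))) 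
(.nd (nat_lit 4) (.nd (nat_lit 5) (.nd (nat_lit 6) (.nd (nat_lit 7) (.nd (nat_lit 8) 
(.nd (nat_lit 9) 
(.lf (nat_lit 489483) (.g (nat_lit 1616) (.e (nat_lit 16468) (nat_lit 13) (.e (nat_lit 483350) (nat_lit 17) (.e (nat_lit 6218) (nat_lit 333) (.e (nat_lit 57812) (nat_lit 246) .nil)))) (.g (nat_lit 0) (.e (nat_lit 140985) (nat_lit 0) .nil) .nil))) 
(.lf (nat_lit 489995) (.g (nat_lit 2697) (.e (nat_lit 49189) (nat_lit 11) (.e (nat_lit 16425) (nat_lit 7) (.e (nat_lit 409643) (nat_lit 18) (.e (nat_lit 303143) (nat_lit 12) (.e (nat_lit 475197) (nat_lit 40) (.e (nat_lit 704790) (nat_lit 14) (.e (nat_lit 2587) (nat_lit 162) .nil))))))) (.g (nat_lit 1) (.e (nat_lit 142724) (nat_lit 0) .nil) .nil)))) (.nd (nat_lit 9) 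
(.lf (nat_lit 489739) (.g (nat_lit 442) (.e (nat_lit 32787) (nat_lit 9) (.e (nat_lit 65623) (nat_lit 12) (.e (nat_lit 385073) (nat_lit 31) .nil))) (.g (nat_lit 0) (.e (nat_lit 142123) (nat_lit 0) .nil) .nil))) 
(.lf (nat_lit 490251) (.g (nat_lit 948) (.e (nat_lit 163842) (nat_lit 0) (.e (nat_lit 7065) (nat_lit 377) (.e (nat_lit 1349) (nat_lit 102) (.e (nat_lit 286761) (nat_lit 13) .nil)))) (.g (nat_lit 0) (.e (nat_lit 143086) (nat_lit 0) .nil) .nil))))) (.nd (nat_lit 8) (.nd (nat_lit 9) 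
(.lf (nat_lit 489611) (.g (nat_lit 2278) (.e (nat_lit 32807) (nat_lit 18) (.e (nat_lit 172118) (nat_lit 12) (.e (nat_lit 475183) (nat_lit 29) (.e (nat_lit 557103) (nat_lit 14) (.e (nat_lit 180288) (nat_lit 45) .nil))))) (.g (nat_lit 0) (.e (nat_lit 141752) (nat_lit 0) .nil) .nil))) 
(.lf (nat_lit 490123) (.g (nat_lit 2072) (.e (nat_lit 49189) (nat_lit 11) (.e (nat_lit 16425) (nat_lit 7) (.e (nat_lit 409648) (nat_lit 18) (.e (nat_lit 303143) (nat_lit 12) (.e (nat_lit 475216) (nat_lit 44) .nil))))) (.g (nat_lit 0) (.e (nat_lit 142852) (nat_lit 0) .nil) .nil)))) (.nd (nat_lit 9) 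
(.lf (nat_lit 489867) (.g (nat_lit 2537) (.e (nat_lit 49187) (nat_lit 11) (.e (nat_lit 16473) (nat_lit 14) (.e (nat_lit 491558) (nat_lit 10) (.e (nat_lit 344161) (nat_lit 37) .nil)))) (.g (nat_lit 0) (.e (nat_lit 142530) (nat_lit 0) .nil) .nil))) 
(.lf (nat_lit 490379) (.g (nat_lit 4869) (.e (nat_lit 163850) (nat_lit 0) (.e (nat_lit 6425) (nat_lit 342) (.e (nat_lit 229409) (nat_lit 13) (.e (nat_lit 434231) (nat_lit 23) (.e (nat_lit 532549) (nat_lit 12) (.e (nat_lit 360473) (nat_lit 8) (.e (nat_lit 557089) (nat_lit 12) .nil))))))) (.g (nat_lit 1) (.e (nat_lit 143497) (nat_lit 0) .nil) .nil)))))) 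
(.nd (nat_lit 7) (.nd (nat_lit 8) (.nd (nat_lit 9) 
(.lf (nat_lit 489547) (.g (nat_lit 3082) (.e (nat_lit 16472) (nat_lit 14) (.e (nat_lit 491536) (nat_lit 2) (.e (nat_lit 90178) (nat_lit 15) (.e (nat_lit 188440) (nat_lit 20) (.e (nat_lit 3307) (nat_lit 202) (.e (nat_lit 573470) (nat_lit 11) .nil)))))) (.g (nat_lit 1) (.e (nat_lit 141097) (nat_lit 0) .nil) .nil))) 
(.lf (nat_lit 490059) (.g (nat_lit 1675) (.e (nat_lit 49189) (nat_lit 11) (.e (nat_lit 16425) (nat_lit 7) (.e (nat_lit 409647) (nat_lit 18) (.e (nat_lit 303143) (nat_lit 12) (.e (nat_lit 475197) (nat_lit 40) .nil))))) (.g (nat_lit 0) (.e (nat_lit 142788) (nat_lit 0) .nil) .nil)))) (.nd (nat_lit 9) 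
(.lf (nat_lit 489803) (.g (nat_lit 2229) (.e (nat_lit 49185) (nat_lit 11) (.e (nat_lit 16465) (nat_lit 13) (.e (nat_lit 483371) (nat_lit 21) (.e (nat_lit 319505) (nat_lit 10) (.e (nat_lit 4925) (nat_lit 287) .nil))))) (.g (nat_lit 0) (.e (nat_lit 142419) (nat_lit 0) .nil) .nil))) 
(.lf (nat_lit 490315) (.g (nat_lit 1545) (.e (nat_lit 163847) (nat_lit 0) (.e (nat_lit 6420) (nat_lit 341) (.e (nat_lit 163902) (nat_lit 12) (.e (nat_lit 426093) (nat_lit 0) .nil)))) (.g (nat_lit 0) (.e (nat_lit 143227) (nat_lit 0) .nil) .nil))))) (.nd (nat_lit 8) (.nd (nat_lit 9) 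
(.lf (nat_lit 489675) (.g (nat_lit 3030) (.e (nat_lit 32807) (nat_lit 18) (.e (nat_lit 172124) (nat_lit 14) (.e (nat_lit 491540) (nat_lit 3) (.e (nat_lit 98367) (nat_lit 27) (.e (nat_lit 434190) (nat_lit 13) .nil))))) (.g (nat_lit 0) (.e (nat_lit 141838) (nat_lit 0) .nil) .nil))) 
(.lf (nat_lit 490187) (.g (nat_lit 3181) (.e (nat_lit 49192) (nat_lit 12) (.e (nat_lit 57476) (nat_lit 28) (.e (nat_lit 557087) (nat_lit 11) (.e (nat_lit 24655) (nat_lit 13) (.e (nat_lit 393258) (nat_lit 20) .nil))))) (.g (nat_lit 0) (.e (nat_lit 142951) (nat_lit 0) .nil) .nil)))) (.nd (nat_lit 9) 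
(.lf (nat_lit 489931) (.g (nat_lit 2737) (.e (nat_lit 49188) (nat_lit 11) (.e (nat_lit 16466) (nat_lit 13) (.e (nat_lit 483350) (nat_lit 17) (.e (nat_lit 6218) (nat_lit 333) (.e (nat_lit 57795) (nat_lit 245) .nil))))) (.g (nat_lit 0) (.e (nat_lit 142621) (nat_lit 0) .nil) .nil))) 
(.lf (nat_lit 490443) (.g (nat_lit 2603) (.e (nat_lit 163860) (nat_lit 1) (.e (nat_lit 164330) (nat_lit 230) (.e (nat_lit 163902) (nat_lit 12) (.e (nat_lit 426428) (nat_lit 17) (.e (nat_lit 90170) (nat_lit 13) .nil))))) (.g (nat_lit 0) (.e (nat_lit 143697) (nat_lit 0) .nil) .nil))))))) (.nd (nat_lit 6) (.nd (nat_lit 7) (.nd (nat_lit 8) (.nd (nat_lit 9) 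
(.lf (nat_lit 489515) (.g (nat_lit 2871) (.e (nat_lit 16469) (nat_lit 14) (.e (nat_lit 491535) (nat_lit 2) (.e (nat_lit 90170) (nat_lit 13) (.e (nat_lit 172113) (nat_lit 10) (.e (nat_lit 434245) (nat_lit 28) (.e (nat_lit 573471) (nat_lit 11) .nil)))))) (.g (nat_lit 1) (.e (nat_lit 141050) (nat_lit 0) .nil) .nil))) 
(.lf (nat_lit 490027) (.g (nat_lit 3498) (.e (nat_lit 49189) (nat_lit 11) (.e (nat_lit 16425) (nat_lit 7) (.e (nat_lit 409645) (nat_lit 18) (.e (nat_lit 303143) (nat_lit 12) (.e (nat_lit 475198) (nat_lit 40) (.e (nat_lit 704790) (nat_lit 14) (.e (nat_lit 2590) (nat_lit 162) .nil))))))) (.g (nat_lit 1) (.e (nat_lit 142756) (nat_lit 0) .nil) .nil)))) (.nd (nat_lit 9) 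
(.lf (nat_lit 489771) (.g (nat_lit 1948) (.e (nat_lit 49157) (nat_lit 0) (.e (nat_lit 3026) (nat_lit 187) (.e (nat_lit 450584) (nat_lit 9) (.e (nat_lit 565268) (nat_lit 5) (.e (nat_lit 73792) (nat_lit 45) (.e (nat_lit 1163) (nat_lit 86) .nil)))))) (.g (nat_lit 1) (.e (nat_lit 142270) (nat_lit 0) .nil) .nil))) 
(.lf (nat_lit 490283) (.g (nat_lit 4759) (.e (nat_lit 163844) (nat_lit 0) (.e (nat_lit 5943) (nat_lit 322) (.e (nat_lit 57374) (nat_lit 2) (.e (nat_lit 90174) (nat_lit 14) (.e (nat_lit 180250) (nat_lit 10) (.e (nat_lit 573489) (nat_lit 14) (.e (nat_lit 73755) (nat_lit 8) (.e (nat_lit 557090) (nat_lit 12) .nil)))))))) (.g (nat_lit 1) (.e (nat_lit 143167) (nat_lit 0) .nil) .nil))))) 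
(.nd (nat_lit 8) (.nd (nat_lit 9) 
(.lf (nat_lit 489643) (.g (nat_lit 2535) (.e (nat_lit 32807) (nat_lit 18) (.e (nat_lit 172119) (nat_lit 12) (.e (nat_lit 475185) (nat_lit 29) (.e (nat_lit 557105) (nat_lit 14) (.e (nat_lit 180288) (nat_lit 45) (.e (nat_lit 2571) (nat_lit 160) .nil)))))) (.g (nat_lit 1) (.e (nat_lit 141787) (nat_lit 0) .nil) .nil))) 
(.lf (nat_lit 490155) (.g (nat_lit 1681) (.e (nat_lit 49189) (nat_lit 11) (.e (nat_lit 16425) (nat_lit 7) (.e (nat_lit 409649) (nat_lit 18) (.e (nat_lit 303143) (nat_lit 12) (.e (nat_lit 475198) (nat_lit 40) .nil))))) (.g (nat_lit 0) (.e (nat_lit 142884) (nat_lit 0) .nil) .nil)))) (.nd (nat_lit 9) 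
(.lf (nat_lit 489899) (.g (nat_lit 2978) (.e (nat_lit 49188) (nat_lit 11) (.e (nat_lit 16425) (nat_lit 7) (.e (nat_lit 409646) (nat_lit 18) (.e (nat_lit 303143) (nat_lit 12) (.e (nat_lit 475220) (nat_lit 44) (.e (nat_lit 737318) (nat_lit 15) .nil)))))) (.g (nat_lit 1) (.e (nat_lit 142579) (nat_lit 0) .nil) .nil))) 
(.lf (nat_lit 490411) (.g (nat_lit 1367) (.e (nat_lit 163853) (nat_lit 0) (.e (nat_lit 5224) (nat_lit 296) (.e (nat_lit 163903) (nat_lit 12) (.e (nat_lit 426568) (nat_lit 34) .nil)))) (.g (nat_lit 0) (.e (nat_lit 143571) (nat_lit 0) .nil) .nil)))))) (.nd (nat_lit 7) (.nd (nat_lit 8) (.nd (nat_lit 9) 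
(.lf (nat_lit 489579) (.g (nat_lit 2072) (.e (nat_lit 32799) (nat_lit 14) (.e (nat_lit 2829) (nat_lit 182) (.e (nat_lit 409602) (nat_lit 0) (.e (nat_lit 5389) (nat_lit 301) (.e (nat_lit 57464) (nat_lit 23) .nil))))) (.g (nat_lit 0) (.e (nat_lit 141379) (nat_lit 0) .nil) .nil))) 
(.lf (nat_lit 490091) (.g (nat_lit 1661) (.e (nat_lit 49189) (nat_lit 11) (.e (nat_lit 16425) (nat_lit 7) (.e (nat_lit 409648) (nat_lit 18) (.e (nat_lit 303137) (nat_lit 10) (.e (nat_lit 434271) (nat_lit 38) .nil))))) (.g (nat_lit 0) (.e (nat_lit 142820) (nat_lit 0) .nil) .nil)))) (.nd (nat_lit 9) 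
(.lf (nat_lit 489835) (.g (nat_lit 2140) (.e (nat_lit 49187) (nat_lit 11) (.e (nat_lit 16425) (nat_lit 7) (.e (nat_lit 409646) (nat_lit 18) (.e (nat_lit 303143) (nat_lit 12) (.e (nat_lit 475197) (nat_lit 40) .nil))))) (.g (nat_lit 0) (.e (nat_lit 142466) (nat_lit 0) .nil) .nil))) 
(.lf (nat_lit 490347) (.g (nat_lit 3965) (.e (nat_lit 163849) (nat_lit 0) (.e (nat_lit 6420) (nat_lit 341) (.e (nat_lit 163900) (nat_lit 12) (.e (nat_lit 426140) (nat_lit 3) (.e (nat_lit 204869) (nat_lit 29) (.e (nat_lit 360475) (nat_lit 8) (.e (nat_lit 557089) (nat_lit 12) .nil))))))) (.g (nat_lit 1) (.e (nat_lit 143284) (nat_lit 0) .nil) .nil))))) (.nd (nat_lit 8) (.nd (nat_lit 9) 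
(.lf (nat_lit 489707) (.g (nat_lit 2667) (.e (nat_lit 32807) (nat_lit 18) (.e (nat_lit 172126) (nat_lit 14) (.e (nat_lit 491540) (nat_lit 3) (.e (nat_lit 98367) (nat_lit 27) (.e (nat_lit 434191) (nat_lit 13) (.e (nat_lit 2570) (nat_lit 160) .nil)))))) (.g (nat_lit 1) (.e (nat_lit 141898) (nat_lit 0) .nil) .nil))) 
(.lf (nat_lit 490219) (.g (nat_lit 757) (.e (nat_lit 40996) (nat_lit 11) (.e (nat_lit 24658) (nat_lit 13) (.e (nat_lit 393238) (nat_lit 17) .nil))) (.g (nat_lit 0) (.e (nat_lit 143012) (nat_lit 0) .nil) .nil)))) (.nd (nat_lit 9) 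
(.lf (nat_lit 489963) (.g (nat_lit 2376) (.e (nat_lit 49188) (nat_lit 11) (.e (nat_lit 16473) (nat_lit 14) (.e (nat_lit 491560) (nat_lit 10) (.e (nat_lit 344169) (nat_lit 40) .nil)))) (.g (nat_lit 0) (.e (nat_lit 142671) (nat_lit 0) .nil) .nil))) 
(.lf (nat_lit 490475) (.g (nat_lit 2693) (.e (nat_lit 163862) (nat_lit 1) (.e (nat_lit 164330) (nat_lit 230) (.e (nat_lit 163902) (nat_lit 12) (.e (nat_lit 426438) (nat_lit 18) (.e (nat_lit 98372) (nat_lit 29) .nil))))) (.g (nat_lit 0) (.e (nat_lit 143882) (nat_lit 0) .nil) .nil)))))))) (.nd (nat_lit 5) (.nd (nat_lit 6) (.nd (nat_lit 7) (.nd (nat_lit 8) (.nd (nat_lit 9) 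
(.lf (nat_lit 489499) (.g (nat_lit 417) (.e (nat_lit 16468) (nat_lit 13) (.e (nat_lit 483372) (nat_lit 21) (.e (nat_lit 319505) (nat_lit 10) .nil))) (.g (nat_lit 0) (.e (nat_lit 141008) (nat_lit 0) .nil) .nil))) 
(.lf (nat_lit 490011) (.g (nat_lit 3088) (.e (nat_lit 49189) (nat_lit 11) (.e (nat_lit 16425) (nat_lit 7) (.e (nat_lit 409644) (nat_lit 18) (.e (nat_lit 303143) (nat_lit 12) (.e (nat_lit 475198) (nat_lit 40) (.e (nat_lit 704790) (nat_lit 14) (.e (nat_lit 2591) (nat_lit 162) .nil))))))) (.g (nat_lit 1) (.e (nat_lit 142740) (nat_lit 0) .nil) .nil)))) (.nd (nat_lit 9) 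
(.lf (nat_lit 489755) (.g (nat_lit 1687) (.e (nat_lit 49156) (nat_lit 0) (.e (nat_lit 3026) (nat_lit 187) (.e (nat_lit 450584) (nat_lit 9) (.e (nat_lit 565268) (nat_lit 5) (.e (nat_lit 73789) (nat_lit 45) (.e (nat_lit 1163) (nat_lit 86) .nil)))))) (.g (nat_lit 1) (.e (nat_lit 142235) (nat_lit 0) .nil) .nil))) 
(.lf (nat_lit 490267) (.g (nat_lit 2321) (.e (nat_lit 163843) (nat_lit 0) (.e (nat_lit 6830) (nat_lit 367) (.e (nat_lit 57378) (nat_lit 3) (.e (nat_lit 98368) (nat_lit 27) (.e (nat_lit 434245) (nat_lit 28) .nil))))) (.g (nat_lit 0) (.e (nat_lit 143135) (nat_lit 0) .nil) .nil))))) (.nd (nat_lit 8) (.nd (nat_lit 9) 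
(.lf (nat_lit 489627) (.g (nat_lit 1830) (.e (nat_lit 32807) (nat_lit 18) (.e (nat_lit 172119) (nat_lit 12) (.e (nat_lit 475184) (nat_lit 29) (.e (nat_lit 557103) (nat_lit 14) (.e (nat_lit 180288) (nat_lit 45) (.e (nat_lit 2570) (nat_lit 160) .nil)))))) (.g (nat_lit 1) (.e (nat_lit 141771) (nat_lit 0) .nil) .nil))) 
(.lf (nat_lit 490139) (.g (nat_lit 2023) (.e (nat_lit 49189) (nat_lit 11) (.e (nat_lit 16425) (nat_lit 7) (.e (nat_lit 409649) (nat_lit 18) (.e (nat_lit 303140) (nat_lit 10) (.e (nat_lit 434271) (nat_lit 38) (.e (nat_lit 663296) (nat_lit 14) (.e (nat_lit 2591) (nat_lit 162) .nil))))))) (.g (nat_lit 1) (.e (nat_lit 142868) (nat_lit 0) .nil) .nil)))) (.nd (nat_lit 9) 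
(.lf (nat_lit 489883) (.g (nat_lit 1494) (.e (nat_lit 49188) (nat_lit 11) (.e (nat_lit 16416) (nat_lit 3) (.e (nat_lit 204868) (nat_lit 29) .nil))) (.g (nat_lit 0) (.e (nat_lit 142561) (nat_lit 0) .nil) .nil))) 
(.lf (nat_lit 490395) (.g (nat_lit 3120) (.e (nat_lit 163852) (nat_lit 0) (.e (nat_lit 6426) (nat_lit 342) (.e (nat_lit 229409) (nat_lit 13) (.e (nat_lit 434231) (nat_lit 23) (.e (nat_lit 532550) (nat_lit 12) (.e (nat_lit 360474) (nat_lit 8) (.e (nat_lit 557094) (nat_lit 12) .nil))))))) (.g (nat_lit 1) (.e (nat_lit 143538) (nat_lit 0) .nil) .nil)))))) 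
(.nd (nat_lit 7) (.nd (nat_lit 8) (.nd (nat_lit 9) 
(.lf (nat_lit 489563) (.g (nat_lit 4195) (.e (nat_lit 16473) (nat_lit 14) (.e (nat_lit 491538) (nat_lit 3) (.e (nat_lit 98359) (nat_lit 26) (.e (nat_lit 426286) (nat_lit 10) (.e (nat_lit 434245) (nat_lit 28) (.e (nat_lit 573471) (nat_lit 11) .nil)))))) (.g (nat_lit 1) (.e (nat_lit 141144) (nat_lit 0) .nil) .nil))) 
(.lf (nat_lit 490075) (.g (nat_lit 1667) (.e (nat_lit 49189) (nat_lit 11) (.e (nat_lit 16425) (nat_lit 7) (.e (nat_lit 409647) (nat_lit 18) (.e (nat_lit 303143) (nat_lit 12) (.e (nat_lit 475216) (nat_lit 44) .nil))))) (.g (nat_lit 0) (.e (nat_lit 142804) (nat_lit 0) .nil) .nil)))) (.nd (nat_lit 9) 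
(.lf (nat_lit 489819) (.g (nat_lit 3293) (.e (nat_lit 49186) (nat_lit 11) (.e (nat_lit 16473) (nat_lit 14) (.e (nat_lit 491560) (nat_lit 10) (.e (nat_lit 344160) (nat_lit 37) .nil)))) (.g (nat_lit 0) (.e (nat_lit 142447) (nat_lit 0) .nil) .nil))) 
(.lf (nat_lit 490331) (.g (nat_lit 1681) (.e (nat_lit 163848) (nat_lit 0) (.e (nat_lit 6255) (nat_lit 337) (.e (nat_lit 2630) (nat_lit 164) (.e (nat_lit 172066) (nat_lit 3) .nil)))) (.g (nat_lit 0) (.e (nat_lit 143248) (nat_lit 0) .nil) .nil))))) (.nd (nat_lit 8) (.nd (nat_lit 9) 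
(.lf (nat_lit 489691) (.g (nat_lit 3184) (.e (nat_lit 32807) (nat_lit 18) (.e (nat_lit 172126) (nat_lit 14) (.e (nat_lit 491537) (nat_lit 2) (.e (nat_lit 90172) (nat_lit 14) (.e (nat_lit 180285) (nat_lit 45) (.e (nat_lit 2570) (nat_lit 160) .nil)))))) (.g (nat_lit 1) (.e (nat_lit 141872) (nat_lit 0) .nil) .nil))) 
(.lf (nat_lit 490203) (.g (nat_lit 1625) (.e (nat_lit 40993) (nat_lit 11) (.e (nat_lit 24628) (nat_lit 9) (.e (nat_lit 336438) (nat_lit 31) (.e (nat_lit 458769) (nat_lit 16) (.e (nat_lit 164271) (nat_lit 221) (.e (nat_lit 2582) (nat_lit 161) .nil)))))) (.g (nat_lit 1) (.e (nat_lit 142984) (nat_lit 0) .nil) .nil)))) (.nd (nat_lit 9) 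
(.lf (nat_lit 489947) (.g (nat_lit 2733) (.e (nat_lit 49188) (nat_lit 11) (.e (nat_lit 16466) (nat_lit 13) (.e (nat_lit 483372) (nat_lit 21) (.e (nat_lit 319525) (nat_lit 15) (.e (nat_lit 278562) (nat_lit 13) .nil))))) (.g (nat_lit 0) (.e (nat_lit 142637) (nat_lit 0) .nil) .nil))) 
(.lf (nat_lit 490459) (.g (nat_lit 2295) (.e (nat_lit 163861) (nat_lit 1) (.e (nat_lit 164330) (nat_lit 230) (.e (nat_lit 163902) (nat_lit 12) (.e (nat_lit 426472) (nat_lit 25) (.e (nat_lit 319533) (nat_lit 16) .nil))))) (.g (nat_lit 0) (.e (nat_lit 143789) (nat_lit 0) .nil) .nil))))))) (.nd (nat_lit 6) (.nd (nat_lit 7) (.nd (nat_lit 8) (.nd (nat_lit 9) 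
(.lf (nat_lit 489531) (.g (nat_lit 1918) (.e (nat_lit 16470) (nat_lit 14) (.e (nat_lit 491571) (nat_lit 13) (.e (nat_lit 393242) (nat_lit 17) (.e (nat_lit 7095) (nat_lit 380) (.e (nat_lit 171776) (nat_lit 234) .nil))))) (.g (nat_lit 1) (.e (nat_lit 141071) (nat_lit 0) .nil) .nil))) 
(.lf (nat_lit 490043) (.g (nat_lit 1851) (.e (nat_lit 49189) (nat_lit 11) (.e (nat_lit 16425) (nat_lit 7) (.e (nat_lit 409646) (nat_lit 18) (.e (nat_lit 303143) (nat_lit 12) (.e (nat_lit 475197) (nat_lit 40) (.e (nat_lit 704790) (nat_lit 14) (.e (nat_lit 2590) (nat_lit 162) .nil))))))) (.g (nat_lit 1) (.e (nat_lit 142772) (nat_lit 0) .nil) .nil)))) (.nd (nat_lit 9) 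
(.lf (nat_lit 489787) (.g (nat_lit 2354) (.e (nat_lit 49185) (nat_lit 11) (.e (nat_lit 16425) (nat_lit 7) (.e (nat_lit 409646) (nat_lit 18) (.e (nat_lit 303143) (nat_lit 12) (.e (nat_lit 475198) (nat_lit 40) (.e (nat_lit 704790) (nat_lit 14) (.e (nat_lit 2593) (nat_lit 162) .nil))))))) (.g (nat_lit 1) (.e (nat_lit 142400) (nat_lit 0) .nil) .nil))) 
(.lf (nat_lit 490299) (.g (nat_lit 2511) (.e (nat_lit 163847) (nat_lit 0) (.e (nat_lit 3309) (nat_lit 202) (.e (nat_lit 573489) (nat_lit 14) (.e (nat_lit 73755) (nat_lit 8) (.e (nat_lit 557097) (nat_lit 13) .nil))))) (.g (nat_lit 0) (.e (nat_lit 143202) (nat_lit 0) .nil) .nil))))) (.nd (nat_lit 8) (.nd (nat_lit 9) 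
(.lf (nat_lit 489659) (.g (nat_lit 1943) (.e (nat_lit 32807) (nat_lit 18) (.e (nat_lit 172120) (nat_lit 12) (.e (nat_lit 475185) (nat_lit 29) (.e (nat_lit 557104) (nat_lit 14) .nil)))) (.g (nat_lit 0) (.e (nat_lit 141805) (nat_lit 0) .nil) .nil))) 
(.lf (nat_lit 490171) (.g (nat_lit 263) (.e (nat_lit 49189) (nat_lit 11) (.e (nat_lit 16434) (nat_lit 9) (.e (nat_lit 426550) (nat_lit 31) .nil))) (.g (nat_lit 0) (.e (nat_lit 142907) (nat_lit 0) .nil) .nil)))) (.nd (nat_lit 9) 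
(.lf (nat_lit 489915) (.g (nat_lit 915) (.e (nat_lit 49188) (nat_lit 11) (.e (nat_lit 16465) (nat_lit 13) (.e (nat_lit 483371) (nat_lit 21) .nil))) (.g (nat_lit 0) (.e (nat_lit 142602) (nat_lit 0) .nil) .nil))) 
(.lf (nat_lit 490427) (.g (nat_lit 2037) (.e (nat_lit 171776) (nat_lit 0) (.e (nat_lit 5195) (nat_lit 294) (.e (nat_lit 57407) (nat_lit 12) (.e (nat_lit 336367) (nat_lit 27) (.e (nat_lit 426546) (nat_lit 30) .nil))))) (.g (nat_lit 0) (.e (nat_lit 143611) (nat_lit 0) .nil) .nil)))))) (.nd (nat_lit 7) (.nd (nat_lit 8) (.nd (nat_lit 9) 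
(.lf (nat_lit 489595) (.g (nat_lit 1865) (.e (nat_lit 32806) (nat_lit 18) (.e (nat_lit 172126) (nat_lit 14) (.e (nat_lit 491537) (nat_lit 2) (.e (nat_lit 90172) (nat_lit 14) .nil)))) (.g (nat_lit 0) (.e (nat_lit 141415) (nat_lit 0) .nil) .nil))) 
(.lf (nat_lit 490107) (.g (nat_lit 2311) (.e (nat_lit 49189) (nat_lit 11) (.e (nat_lit 16425) (nat_lit 7) (.e (nat_lit 409648) (nat_lit 18) (.e (nat_lit 303137) (nat_lit 10) (.e (nat_lit 434272) (nat_lit 38) (.e (nat_lit 663296) (nat_lit 14) (.e (nat_lit 2596) (nat_lit 162) .nil))))))) (.g (nat_lit 1) (.e (nat_lit 142836) (nat_lit 0) .nil) .nil)))) (.nd (nat_lit 9) 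
(.lf (nat_lit 489851) (.g (nat_lit 2521) (.e (nat_lit 49187) (nat_lit 11) (.e (nat_lit 16425) (nat_lit 7) (.e (nat_lit 409648) (nat_lit 18) (.e (nat_lit 303142) (nat_lit 12) (.e (nat_lit 475220) (nat_lit 44) (.e (nat_lit 737318) (nat_lit 15) .nil)))))) (.g (nat_lit 1) (.e (nat_lit 142482) (nat_lit 0) .nil) .nil))) 
(.lf (nat_lit 490363) (.g (nat_lit 3144) (.e (nat_lit 163850) (nat_lit 0) (.e (nat_lit 3304) (nat_lit 202) (.e (nat_lit 573489) (nat_lit 14) (.e (nat_lit 73755) (nat_lit 8) (.e (nat_lit 557097) (nat_lit 13) (.e (nat_lit 179968) (nat_lit 18) (.e (nat_lit 98334) (nat_lit 18) (.e (nat_lit 164329) (nat_lit 230) .nil)))))))) (.g (nat_lit 1) (.e (nat_lit 143322) (nat_lit 0) .nil) .nil))))) 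
(.nd (nat_lit 8) (.nd (nat_lit 9) 
(.lf (nat_lit 489723) (.g (nat_lit 382) (.e (nat_lit 32808) (nat_lit 19) (.e (nat_lit 180278) (nat_lit 32) (.e (nat_lit 1235) (nat_lit 91) .nil))) (.g (nat_lit 0) (.e (nat_lit 141961) (nat_lit 0) .nil) .nil))) 
(.lf (nat_lit 490235) (.g (nat_lit 2349) (.e (nat_lit 40997) (nat_lit 11) (.e (nat_lit 24617) (nat_lit 7) (.e (nat_lit 319534) (nat_lit 16) (.e (nat_lit 286756) (nat_lit 10) (.e (nat_lit 344160) (nat_lit 37) (.e (nat_lit 655104) (nat_lit 14) (.e (nat_lit 2581) (nat_lit 161) .nil))))))) (.g (nat_lit 1) (.e (nat_lit 143044) (nat_lit 0) .nil) .nil)))) (.nd (nat_lit 9) 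
(.lf (nat_lit 489979) (.g (nat_lit 2068) (.e (nat_lit 49189) (nat_lit 11) (.e (nat_lit 16416) (nat_lit 3) (.e (nat_lit 204869) (nat_lit 29) (.e (nat_lit 360474) (nat_lit 8) .nil)))) (.g (nat_lit 0) (.e (nat_lit 142706) (nat_lit 0) .nil) .nil))) 
(.lf (nat_lit 490491) (.g (nat_lit 4410) (.e (nat_lit 163864) (nat_lit 1) (.e (nat_lit 164329) (nat_lit 230) (.e (nat_lit 163902) (nat_lit 12) (.e (nat_lit 426438) (nat_lit 18) (.e (nat_lit 98373) (nat_lit 29) (.e (nat_lit 450562) (nat_lit 0) (.e (nat_lit 6839) (nat_lit 369) .nil))))))) (.g (nat_lit 1) (.e (nat_lit 144028) (nat_lit 0) .nil) .nil)))))))))) 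
(.nd (nat_lit 3) (.nd (nat_lit 4) (.nd (nat_lit 5) (.nd (nat_lit 6) (.nd (nat_lit 7) 
(.nd (nat_lit 8) (.nd (nat_lit 9) 
(.lf (nat_lit 489479) (.g (nat_lit 1439) (.e (nat_lit 16468) (nat_lit 13) (.e (nat_lit 483350) (nat_lit 17) (.e (nat_lit 6218) (nat_lit 333) (.e (nat_lit 57806) (nat_lit 246) .nil)))) (.g (nat_lit 0) (.e (nat_lit 140981) (nat_lit 0) .nil) .nil))) 
(.lf (nat_lit 489991) (.g (nat_lit 1795) (.e (nat_lit 49189) (nat_lit 11) (.e (nat_lit 16425) (nat_lit 7) (.e (nat_lit 409643) (nat_lit 18) (.e (nat_lit 303143) (nat_lit 12) (.e (nat_lit 475197) (nat_lit 40) (.e (nat_lit 704770) (nat_lit 14) (.e (nat_lit 2594) (nat_lit 162) .nil))))))) (.g (nat_lit 1) (.e (nat_lit 142720) (nat_lit 0) .nil) .nil)))) (.nd (nat_lit 9) 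
(.lf (nat_lit 489735) (.g (nat_lit 1679) (.e (nat_lit 32809) (nat_lit 20) (.e (nat_lit 188420) (nat_lit 0) (.e (nat_lit 1856) (nat_lit 124) (.e (nat_lit 557103) (nat_lit 14) (.e (nat_lit 180284) (nat_lit 45) .nil))))) (.g (nat_lit 0) (.e (nat_lit 142004) (nat_lit 0) .nil) .nil))) 
(.lf (nat_lit 490247) (.g (nat_lit 1738) (.e (nat_lit 163841) (nat_lit 0) (.e (nat_lit 3605) (nat_lit 225) (.e (nat_lit 761905) (nat_lit 16) (.e (nat_lit 172059) (nat_lit 1) .nil)))) (.g (nat_lit 0) (.e (nat_lit 143075) (nat_lit 0) .nil) .nil))))) (.nd (nat_lit 8) (.nd (nat_lit 9) 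
(.lf (nat_lit 489607) (.g (nat_lit 2041) (.e (nat_lit 32806) (nat_lit 18) (.e (nat_lit 172126) (nat_lit 14) (.e (nat_lit 491540) (nat_lit 3) (.e (nat_lit 98367) (nat_lit 27) (.e (nat_lit 434193) (nat_lit 13) .nil))))) (.g (nat_lit 0) (.e (nat_lit 141432) (nat_lit 0) .nil) .nil))) 
(.lf (nat_lit 490119) (.g (nat_lit 3043) (.e (nat_lit 49189) (nat_lit 11) (.e (nat_lit 16425) (nat_lit 7) (.e (nat_lit 409648) (nat_lit 18) (.e (nat_lit 303143) (nat_lit 12) (.e (nat_lit 475198) (nat_lit 40) (.e (nat_lit 704790) (nat_lit 14) (.e (nat_lit 2590) (nat_lit 162) .nil))))))) (.g (nat_lit 1) (.e (nat_lit 142848) (nat_lit 0) .nil) .nil)))) (.nd (nat_lit 9) 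
(.lf (nat_lit 489863) (.g (nat_lit 394) (.e (nat_lit 49187) (nat_lit 11) (.e (nat_lit 16436) (nat_lit 9) (.e (nat_lit 426550) (nat_lit 31) .nil))) (.g (nat_lit 0) (.e (nat_lit 142494) (nat_lit 0) .nil) .nil))) 
(.lf (nat_lit 490375) (.g (nat_lit 2186) (.e (nat_lit 163850) (nat_lit 0) (.e (nat_lit 5939) (nat_lit 322) (.e (nat_lit 57373) (nat_lit 2) (.e (nat_lit 90174) (nat_lit 14) (.e (nat_lit 180243) (nat_lit 5) .nil))))) (.g (nat_lit 0) (.e (nat_lit 143413) (nat_lit 0) .nil) .nil)))))) (.nd (nat_lit 7) (.nd (nat_lit 8) (.nd (nat_lit 9) 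
(.lf (nat_lit 489543) (.g (nat_lit 3637) (.e (nat_lit 16472) (nat_lit 14) (.e (nat_lit 491535) (nat_lit 2) (.e (nat_lit 90170) (nat_lit 13) (.e (nat_lit 172113) (nat_lit 10) (.e (nat_lit 434245) (nat_lit 28) (.e (nat_lit 573469) (nat_lit 11) .nil)))))) (.g (nat_lit 1) (.e (nat_lit 141093) (nat_lit 0) .nil) .nil))) 
(.lf (nat_lit 490055) (.g (nat_lit 3168) (.e (nat_lit 49189) (nat_lit 11) (.e (nat_lit 16425) (nat_lit 7) (.e (nat_lit 409646) (nat_lit 18) (.e (nat_lit 303143) (nat_lit 12) (.e (nat_lit 475199) (nat_lit 40) (.e (nat_lit 704790) (nat_lit 14) (.e (nat_lit 2592) (nat_lit 162) .nil))))))) (.g (nat_lit 1) (.e (nat_lit 142784) (nat_lit 0) .nil) .nil)))) (.nd (nat_lit 9) 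
(.lf (nat_lit 489799) (.g (nat_lit 2450) (.e (nat_lit 49185) (nat_lit 11) (.e (nat_lit 16433) (nat_lit 9) (.e (nat_lit 426482) (nat_lit 27) (.e (nat_lit 336060) (nat_lit 7) (.e (nat_lit 319505) (nat_lit 10) .nil))))) (.g (nat_lit 0) (.e (nat_lit 142412) (nat_lit 0) .nil) .nil))) 
(.lf (nat_lit 490311) (.g (nat_lit 2939) (.e (nat_lit 163847) (nat_lit 0) (.e (nat_lit 6255) (nat_lit 337) (.e (nat_lit 2725) (nat_lit 172) (.e (nat_lit 237592) (nat_lit 3) (.e (nat_lit 204868) (nat_lit 29) (.e (nat_lit 360473) (nat_lit 8) (.e (nat_lit 557091) (nat_lit 12) .nil))))))) (.g (nat_lit 1) (.e (nat_lit 143221) (nat_lit 0) .nil) .nil))))) (.nd (nat_lit 8) (.nd (nat_lit 9) 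
(.lf (nat_lit 489671) (.g (nat_lit 2381) (.e (nat_lit 32807) (nat_lit 18) (.e (nat_lit 172124) (nat_lit 14) (.e (nat_lit 491537) (nat_lit 2) (.e (nat_lit 90170) (nat_lit 13) (.e (nat_lit 172081) (nat_lit 7) .nil))))) (.g (nat_lit 0) (.e (nat_lit 141826) (nat_lit 0) .nil) .nil))) 
(.lf (nat_lit 490183) (.g (nat_lit 2963) (.e (nat_lit 57088) (nat_lit 11) (.e (nat_lit 16468) (nat_lit 13) (.e (nat_lit 483372) (nat_lit 21) (.e (nat_lit 319504) (nat_lit 10) (.e (nat_lit 4962) (nat_lit 287) .nil))))) (.g (nat_lit 0) (.e (nat_lit 142946) (nat_lit 0) .nil) .nil)))) (.nd (nat_lit 9) 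
(.lf (nat_lit 489927) (.g (nat_lit 2665) (.e (nat_lit 49188) (nat_lit 11) (.e (nat_lit 16466) (nat_lit 13) (.e (nat_lit 483350) (nat_lit 17) (.e (nat_lit 6218) (nat_lit 333) (.e (nat_lit 57790) (nat_lit 245) .nil))))) (.g (nat_lit 0) (.e (nat_lit 142617) (nat_lit 0) .nil) .nil))) 
(.lf (nat_lit 490439) (.g (nat_lit 3450) (.e (nat_lit 163860) (nat_lit 1) (.e (nat_lit 164329) (nat_lit 230) (.e (nat_lit 163902) (nat_lit 12) (.e (nat_lit 426438) (nat_lit 18) (.e (nat_lit 98373) (nat_lit 29) (.e (nat_lit 450568) (nat_lit 0) (.e (nat_lit 7936) (nat_lit 369) .nil))))))) (.g (nat_lit 1) (.e (nat_lit 143690) (nat_lit 0) .nil) .nil))))))) 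
(.nd (nat_lit 6) (.nd (nat_lit 7) (.nd (nat_lit 8) (.nd (nat_lit 9) 
(.lf (nat_lit 489511) (.g (nat_lit 982) (.e (nat_lit 16468) (nat_lit 13) (.e (nat_lit 483372) (nat_lit 21) (.e (nat_lit 319523) (nat_lit 14) .nil))) (.g (nat_lit 0) (.e (nat_lit 141027) (nat_lit 0) .nil) .nil))) 
(.lf (nat_lit 490023) (.g (nat_lit 1988) (.e (nat_lit 49189) (nat_lit 11) (.e (nat_lit 16425) (nat_lit 7) (.e (nat_lit 409645) (nat_lit 18) (.e (nat_lit 303143) (nat_lit 12) (.e (nat_lit 475197) (nat_lit 40) (.e (nat_lit 704790) (nat_lit 14) (.e (nat_lit 2590) (nat_lit 162) .nil))))))) (.g (nat_lit 1) (.e (nat_lit 142752) (nat_lit 0) .nil) .nil)))) (.nd (nat_lit 9) 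
(.lf (nat_lit 489767) (.g (nat_lit 1178) (.e (nat_lit 49157) (nat_lit 0) (.e (nat_lit 3020) (nat_lit 187) (.e (nat_lit 450584) (nat_lit 9) (.e (nat_lit 565268) (nat_lit 5) (.e (nat_lit 73792) (nat_lit 45) (.e (nat_lit 1162) (nat_lit 86) .nil)))))) (.g (nat_lit 1) (.e (nat_lit 142260) (nat_lit 0) .nil) .nil))) 
(.lf (nat_lit 490279) (.g (nat_lit 1992) (.e (nat_lit 163844) (nat_lit 0) (.e (nat_lit 3471) (nat_lit 217) (.e (nat_lit 696344) (nat_lit 8) (.e (nat_lit 172079) (nat_lit 7) (.e (nat_lit 409645) (nat_lit 18) (.e (nat_lit 303133) (nat_lit 9) (.e (nat_lit 426043) (nat_lit 0) (.e (nat_lit 2429) (nat_lit 157) (.e (nat_lit 5965) (nat_lit 324) .nil))))))))) (.g (nat_lit 1) (.e (nat_lit 143163) (nat_lit 0) .nil) .nil))))) 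
(.nd (nat_lit 8) (.nd (nat_lit 9) 
(.lf (nat_lit 489639) (.g (nat_lit 2508) (.e (nat_lit 32807) (nat_lit 18) (.e (nat_lit 172119) (nat_lit 12) (.e (nat_lit 475185) (nat_lit 29) (.e (nat_lit 557105) (nat_lit 14) (.e (nat_lit 180284) (nat_lit 45) (.e (nat_lit 2571) (nat_lit 160) .nil)))))) (.g (nat_lit 1) (.e (nat_lit 141783) (nat_lit 0) .nil) .nil))) 
(.lf (nat_lit 490151) (.g (nat_lit 2385) (.e (nat_lit 49189) (nat_lit 11) (.e (nat_lit 16425) (nat_lit 7) (.e (nat_lit 409649) (nat_lit 18) (.e (nat_lit 303143) (nat_lit 12) (.e (nat_lit 475197) (nat_lit 40) (.e (nat_lit 704770) (nat_lit 14) (.e (nat_lit 2595) (nat_lit 162) .nil))))))) (.g (nat_lit 1) (.e (nat_lit 142880) (nat_lit 0) .nil) .nil)))) (.nd (nat_lit 9) 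
(.lf (nat_lit 489895) (.g (nat_lit 2679) (.e (nat_lit 49188) (nat_lit 11) (.e (nat_lit 16425) (nat_lit 7) (.e (nat_lit 409645) (nat_lit 18) (.e (nat_lit 303133) (nat_lit 9) (.e (nat_lit 426412) (nat_lit 15) (.e (nat_lit 2233) (nat_lit 146) (.e (nat_lit 737318) (nat_lit 15) .nil))))))) (.g (nat_lit 1) (.e (nat_lit 142575) (nat_lit 0) .nil) .nil))) 
(.lf (nat_lit 490407) (.g (nat_lit 2881) (.e (nat_lit 163853) (nat_lit 0) (.e (nat_lit 3307) (nat_lit 202) (.e (nat_lit 573489) (nat_lit 14) (.e (nat_lit 73755) (nat_lit 8) (.e (nat_lit 557098) (nat_lit 13) .nil))))) (.g (nat_lit 0) (.e (nat_lit 143555) (nat_lit 0) .nil) .nil)))))) (.nd (nat_lit 7) (.nd (nat_lit 8) (.nd (nat_lit 9) 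
(.lf (nat_lit 489575) (.g (nat_lit 2957) (.e (nat_lit 16473) (nat_lit 14) (.e (nat_lit 499456) (nat_lit 34) (.e (nat_lit 483411) (nat_lit 27) (.e (nat_lit 401414) (nat_lit 0) (.e (nat_lit 3272) (nat_lit 199) (.e (nat_lit 548883) (nat_lit 7) .nil)))))) (.g (nat_lit 1) (.e (nat_lit 141247) (nat_lit 0) .nil) .nil))) 
(.lf (nat_lit 490087) (.g (nat_lit 2043) (.e (nat_lit 49189) (nat_lit 11) (.e (nat_lit 16425) (nat_lit 7) (.e (nat_lit 409648) (nat_lit 18) (.e (nat_lit 303137) (nat_lit 10) (.e (nat_lit 434275) (nat_lit 39) (.e (nat_lit 671488) (nat_lit 14) (.e (nat_lit 1160) (nat_lit 86) .nil))))))) (.g (nat_lit 1) (.e (nat_lit 142816) (nat_lit 0) .nil) .nil)))) (.nd (nat_lit 9) 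
(.lf (nat_lit 489831) (.g (nat_lit 2431) (.e (nat_lit 49187) (nat_lit 11) (.e (nat_lit 16425) (nat_lit 7) (.e (nat_lit 409645) (nat_lit 18) (.e (nat_lit 303143) (nat_lit 12) (.e (nat_lit 475198) (nat_lit 40) .nil))))) (.g (nat_lit 0) (.e (nat_lit 142462) (nat_lit 0) .nil) .nil))) 
(.lf (nat_lit 490343) (.g (nat_lit 3448) (.e (nat_lit 163849) (nat_lit 0) (.e (nat_lit 6255) (nat_lit 337) (.e (nat_lit 2643) (nat_lit 165) (.e (nat_lit 180243) (nat_lit 5) (.e (nat_lit 532549) (nat_lit 12) (.e (nat_lit 360474) (nat_lit 8) (.e (nat_lit 557093) (nat_lit 12) .nil))))))) (.g (nat_lit 1) (.e (nat_lit 143268) (nat_lit 0) .nil) .nil))))) (.nd (nat_lit 8) (.nd (nat_lit 9) 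
(.lf (nat_lit 489703) (.g (nat_lit 312) (.e (nat_lit 32807) (nat_lit 18) (.e (nat_lit 172126) (nat_lit 14) (.e (nat_lit 491540) (nat_lit 3) .nil))) (.g (nat_lit 0) (.e (nat_lit 141887) (nat_lit 0) .nil) .nil))) 
(.lf (nat_lit 490215) (.g (nat_lit 1230) (.e (nat_lit 40995) (nat_lit 11) (.e (nat_lit 24665) (nat_lit 14) (.e (nat_lit 401460) (nat_lit 14) .nil))) (.g (nat_lit 0) (.e (nat_lit 143005) (nat_lit 0) .nil) .nil)))) (.nd (nat_lit 9) 
(.lf (nat_lit 489959) (.g (nat_lit 4142) (.e (nat_lit 49188) (nat_lit 11) (.e (nat_lit 16466) (nat_lit 13) (.e (nat_lit 483413) (nat_lit 27) (.e (nat_lit 401432) (nat_lit 7) (.e (nat_lit 417536) (nat_lit 3) .nil))))) (.g (nat_lit 1) (.e (nat_lit 142652) (nat_lit 0) .nil) .nil))) 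
(.lf (nat_lit 490471) (.g (nat_lit 2461) (.e (nat_lit 163862) (nat_lit 1) (.e (nat_lit 164327) (nat_lit 230) (.e (nat_lit 163903) (nat_lit 12) (.e (nat_lit 426422) (nat_lit 16) .nil)))) (.g (nat_lit 0) (.e (nat_lit 143877) (nat_lit 0) .nil) .nil)))))))) (.nd (nat_lit 5) (.nd (nat_lit 6) (.nd (nat_lit 7) (.nd (nat_lit 8) (.nd (nat_lit 9) 
(.lf (nat_lit 489495) (.g (nat_lit 1635) (.e (nat_lit 16468) (nat_lit 13) (.e (nat_lit 483372) (nat_lit 21) (.e (nat_lit 319504) (nat_lit 10) (.e (nat_lit 4961) (nat_lit 287) .nil)))) (.g (nat_lit 0) (.e (nat_lit 141002) (nat_lit 0) .nil) .nil))) 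
(.lf (nat_lit 490007) (.g (nat_lit 2686) (.e (nat_lit 49189) (nat_lit 11) (.e (nat_lit 16425) (nat_lit 7) (.e (nat_lit 409643) (nat_lit 18) (.e (nat_lit 303143) (nat_lit 12) (.e (nat_lit 475220) (nat_lit 44) (.e (nat_lit 745216) (nat_lit 15) .nil)))))) (.g (nat_lit 1) (.e (nat_lit 142736) (nat_lit 0) .nil) .nil)))) (.nd (nat_lit 9) 
(.lf (nat_lit 489751) (.g (nat_lit 660) (.e (nat_lit 49156) (nat_lit 0) (.e (nat_lit 3020) (nat_lit 187) (.e (nat_lit 450584) (nat_lit 9) (.e (nat_lit 565268) (nat_lit 5) (.e (nat_lit 73791) (nat_lit 45) .nil))))) (.g (nat_lit 0) (.e (nat_lit 142223) (nat_lit 0) .nil) .nil))) 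
(.lf (nat_lit 490263) (.g (nat_lit 1023) (.e (nat_lit 163843) (nat_lit 0) (.e (nat_lit 6420) (nat_lit 341) (.e (nat_lit 163941) (nat_lit 19) (.e (nat_lit 491264) (nat_lit 11) .nil)))) (.g (nat_lit 0) (.e (nat_lit 143129) (nat_lit 0) .nil) .nil))))) (.nd (nat_lit 8) (.nd (nat_lit 9) 
(.lf (nat_lit 489623) (.g (nat_lit 2301) (.e (nat_lit 32807) (nat_lit 18) (.e (nat_lit 172118) (nat_lit 12) (.e (nat_lit 475185) (nat_lit 29) (.e (nat_lit 557105) (nat_lit 14) (.e (nat_lit 180285) (nat_lit 45) (.e (nat_lit 2570) (nat_lit 160) .nil)))))) (.g (nat_lit 1) (.e (nat_lit 141766) (nat_lit 0) .nil) .nil))) 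
(.lf (nat_lit 490135) (.g (nat_lit 2538) (.e (nat_lit 49189) (nat_lit 11) (.e (nat_lit 16425) (nat_lit 7) (.e (nat_lit 409649) (nat_lit 18) (.e (nat_lit 303140) (nat_lit 10) (.e (nat_lit 434275) (nat_lit 39) (.e (nat_lit 671488) (nat_lit 14) (.e (nat_lit 1168) (nat_lit 86) .nil))))))) (.g (nat_lit 1) (.e (nat_lit 142864) (nat_lit 0) .nil) .nil)))) (.nd (nat_lit 9) 
(.lf (nat_lit 489879) (.g (nat_lit 509) (.e (nat_lit 49188) (nat_lit 11) (.e (nat_lit 16392) (nat_lit 0) (.e (nat_lit 6989) (nat_lit 377) .nil))) (.g (nat_lit 0) (.e (nat_lit 142545) (nat_lit 0) .nil) .nil))) 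
(.lf (nat_lit 490391) (.g (nat_lit 3188) (.e (nat_lit 163852) (nat_lit 0) (.e (nat_lit 6425) (nat_lit 342) (.e (nat_lit 229409) (nat_lit 13) (.e (nat_lit 434231) (nat_lit 23) (.e (nat_lit 532550) (nat_lit 12) (.e (nat_lit 360474) (nat_lit 8) (.e (nat_lit 557094) (nat_lit 12) .nil))))))) (.g (nat_lit 1) (.e (nat_lit 143530) (nat_lit 0) .nil) .nil)))))) 
(.nd (nat_lit 7) (.nd (nat_lit 8) (.nd (nat_lit 9) 
(.lf (nat_lit 489559) (.g (nat_lit 2209) (.e (nat_lit 16473) (nat_lit 14) (.e (nat_lit 491535) (nat_lit 2) (.e (nat_lit 90176) (nat_lit 15) (.e (nat_lit 188439) (nat_lit 20) (.e (nat_lit 3304) (nat_lit 202) (.e (nat_lit 581376) (nat_lit 11) .nil)))))) (.g (nat_lit 1) (.e (nat_lit 141140) (nat_lit 0) .nil) .nil))) 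
(.lf (nat_lit 490071) (.g (nat_lit 3329) (.e (nat_lit 49189) (nat_lit 11) (.e (nat_lit 16425) (nat_lit 7) (.e (nat_lit 409647) (nat_lit 18) (.e (nat_lit 303143) (nat_lit 12) (.e (nat_lit 475199) (nat_lit 40) (.e (nat_lit 704790) (nat_lit 14) (.e (nat_lit 2592) (nat_lit 162) .nil))))))) (.g (nat_lit 1) (.e (nat_lit 142800) (nat_lit 0) .nil) .nil)))) (.nd (nat_lit 9) 
(.lf (nat_lit 489815) (.g (nat_lit 1016) (.e (nat_lit 49186) (nat_lit 11) (.e (nat_lit 16435) (nat_lit 9) (.e (nat_lit 426550) (nat_lit 31) (.e (nat_lit 368656) (nat_lit 14) .nil)))) (.g (nat_lit 0) (.e (nat_lit 142435) (nat_lit 0) .nil) .nil))) 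
(.lf (nat_lit 490327) (.g (nat_lit 4405) (.e (nat_lit 163848) (nat_lit 0) (.e (nat_lit 6252) (nat_lit 337) (.e (nat_lit 2641) (nat_lit 165) (.e (nat_lit 180244) (nat_lit 5) (.e (nat_lit 532550) (nat_lit 12) (.e (nat_lit 360474) (nat_lit 8) (.e (nat_lit 557094) (nat_lit 12) .nil))))))) (.g (nat_lit 1) (.e (nat_lit 143244) (nat_lit 0) .nil) .nil))))) (.nd (nat_lit 8) (.nd (nat_lit 9) 
(.lf (nat_lit 489687) (.g (nat_lit 2542) (.e (nat_lit 32807) (nat_lit 18) (.e (nat_lit 172126) (nat_lit 14) (.e (nat_lit 491537) (nat_lit 2) (.e (nat_lit 90170) (nat_lit 13) (.e (nat_lit 172080) (nat_lit 7) (.e (nat_lit 409631) (nat_lit 12) .nil)))))) (.g (nat_lit 1) (.e (nat_lit 141868) (nat_lit 0) .nil) .nil))) 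
(.lf (nat_lit 490199) (.g (nat_lit 1369) (.e (nat_lit 40965) (nat_lit 0) (.e (nat_lit 1582) (nat_lit 111) (.e (nat_lit 360477) (nat_lit 11) (.e (nat_lit 581652) (nat_lit 5) (.e (nat_lit 180288) (nat_lit 45) (.e (nat_lit 2580) (nat_lit 161) .nil)))))) (.g (nat_lit 1) (.e (nat_lit 142965) (nat_lit 0) .nil) .nil)))) (.nd (nat_lit 9) 
(.lf (nat_lit 489943) (.g (nat_lit 2685) (.e (nat_lit 49188) (nat_lit 11) (.e (nat_lit 16466) (nat_lit 13) (.e (nat_lit 483372) (nat_lit 21) (.e (nat_lit 319505) (nat_lit 10) (.e (nat_lit 4916) (nat_lit 287) .nil))))) (.g (nat_lit 0) (.e (nat_lit 142633) (nat_lit 0) .nil) .nil))) 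
(.lf (nat_lit 490455) (.g (nat_lit 2833) (.e (nat_lit 163860) (nat_lit 1) (.e (nat_lit 164399) (nat_lit 256) (.e (nat_lit 57378) (nat_lit 3) (.e (nat_lit 98333) (nat_lit 18) (.e (nat_lit 164325) (nat_lit 230) (.e (nat_lit 163944) (nat_lit 19) (.e (nat_lit 483363) (nat_lit 18) (.e (nat_lit 57688) (nat_lit 156) .nil)))))))) (.g (nat_lit 1) (.e (nat_lit 143746) (nat_lit 0) .nil) .nil))))))) 
(.nd (nat_lit 6) (.nd (nat_lit 7) (.nd (nat_lit 8) (.nd (nat_lit 9) 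
(.lf (nat_lit 489527) (.g (nat_lit 2622) (.e (nat_lit 16470) (nat_lit 14) (.e (nat_lit 491571) (nat_lit 13) (.e (nat_lit 393238) (nat_lit 17) (.e (nat_lit 6983) (nat_lit 377) (.e (nat_lit 2450) (nat_lit 157) (.e (nat_lit 7936) (nat_lit 300) .nil)))))) (.g (nat_lit 1) (.e (nat_lit 141067) (nat_lit 0) .nil) .nil))) 
(.lf (nat_lit 490039) (.g (nat_lit 2219) (.e (nat_lit 49189) (nat_lit 11) (.e (nat_lit 16425) (nat_lit 7) (.e (nat_lit 409646) (nat_lit 18) (.e (nat_lit 303143) (nat_lit 12) (.e (nat_lit 475197) (nat_lit 40) (.e (nat_lit 704787) (nat_lit 14) (.e (nat_lit 2591) (nat_lit 162) .nil))))))) (.g (nat_lit 1) (.e (nat_lit 142768) (nat_lit 0) .nil) .nil)))) (.nd (nat_lit 9) 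
(.lf (nat_lit 489783) (.g (nat_lit 2092) (.e (nat_lit 49185) (nat_lit 11) (.e (nat_lit 16425) (nat_lit 7) (.e (nat_lit 409643) (nat_lit 18) (.e (nat_lit 303143) (nat_lit 12) (.e (nat_lit 475219) (nat_lit 44) .nil))))) (.g (nat_lit 0) (.e (nat_lit 142396) (nat_lit 0) .nil) .nil))) 
(.lf (nat_lit 490295) (.g (nat_lit 1434) (.e (nat_lit 163846) (nat_lit 0) (.e (nat_lit 6989) (nat_lit 377) (.e (nat_lit 1374) (nat_lit 104) (.e (nat_lit 303155) (nat_lit 29) .nil)))) (.g (nat_lit 0) (.e (nat_lit 143196) (nat_lit 0) .nil) .nil))))) (.nd (nat_lit 8) (.nd (nat_lit 9) 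
(.lf (nat_lit 489655) (.g (nat_lit 3280) (.e (nat_lit 32807) (nat_lit 18) (.e (nat_lit 172120) (nat_lit 12) (.e (nat_lit 475185) (nat_lit 29) (.e (nat_lit 557103) (nat_lit 14) (.e (nat_lit 180285) (nat_lit 45) (.e (nat_lit 2571) (nat_lit 160) .nil)))))) (.g (nat_lit 1) (.e (nat_lit 141801) (nat_lit 0) .nil) .nil))) 
(.lf (nat_lit 490167) (.g (nat_lit 2083) (.e (nat_lit 49189) (nat_lit 11) (.e (nat_lit 16431) (nat_lit 9) (.e (nat_lit 426482) (nat_lit 27) (.e (nat_lit 336060) (nat_lit 7) (.e (nat_lit 319505) (nat_lit 10) .nil))))) (.g (nat_lit 0) (.e (nat_lit 142899) (nat_lit 0) .nil) .nil)))) (.nd (nat_lit 9) 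
(.lf (nat_lit 489911) (.g (nat_lit 1933) (.e (nat_lit 49188) (nat_lit 11) (.e (nat_lit 16462) (nat_lit 13) (.e (nat_lit 483372) (nat_lit 21) (.e (nat_lit 319527) (nat_lit 15) .nil)))) (.g (nat_lit 0) (.e (nat_lit 142593) (nat_lit 0) .nil) .nil))) 
(.lf (nat_lit 490423) (.g (nat_lit 2391) (.e (nat_lit 163857) (nat_lit 0) (.e (nat_lit 3304) (nat_lit 202) (.e (nat_lit 573491) (nat_lit 15) (.e (nat_lit 81951) (nat_lit 22) (.e (nat_lit 90170) (nat_lit 13) .nil))))) (.g (nat_lit 0) (.e (nat_lit 143600) (nat_lit 0) .nil) .nil)))))) (.nd (nat_lit 7) (.nd (nat_lit 8) (.nd (nat_lit 9) 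
(.lf (nat_lit 489591) (.g (nat_lit 2774) (.e (nat_lit 32806) (nat_lit 18) (.e (nat_lit 172126) (nat_lit 14) (.e (nat_lit 491537) (nat_lit 2) (.e (nat_lit 90170) (nat_lit 13) (.e (nat_lit 172078) (nat_lit 7) .nil))))) (.g (nat_lit 0) (.e (nat_lit 141410) (nat_lit 0) .nil) .nil))) 
(.lf (nat_lit 490103) (.g (nat_lit 2771) (.e (nat_lit 49189) (nat_lit 11) (.e (nat_lit 16425) (nat_lit 7) (.e (nat_lit 409648) (nat_lit 18) (.e (nat_lit 303137) (nat_lit 10) (.e (nat_lit 434272) (nat_lit 38) (.e (nat_lit 663296) (nat_lit 14) (.e (nat_lit 2586) (nat_lit 162) .nil))))))) (.g (nat_lit 1) (.e (nat_lit 142832) (nat_lit 0) .nil) .nil)))) (.nd (nat_lit 9) 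
(.lf (nat_lit 489847) (.g (nat_lit 2033) (.e (nat_lit 49187) (nat_lit 11) (.e (nat_lit 16425) (nat_lit 7) (.e (nat_lit 409648) (nat_lit 18) (.e (nat_lit 303137) (nat_lit 10) (.e (nat_lit 434272) (nat_lit 38) .nil))))) (.g (nat_lit 0) (.e (nat_lit 142478) (nat_lit 0) .nil) .nil))) 
(.lf (nat_lit 490359) (.g (nat_lit 2765) (.e (nat_lit 163850) (nat_lit 0) (.e (nat_lit 3304) (nat_lit 202) (.e (nat_lit 573484) (nat_lit 13) (.e (nat_lit 65610) (nat_lit 10) (.e (nat_lit 344117) (nat_lit 21) (.e (nat_lit 516151) (nat_lit 9) (.e (nat_lit 426142) (nat_lit 4) (.e (nat_lit 229680) (nat_lit 244) .nil)))))))) (.g (nat_lit 1) (.e (nat_lit 143315) (nat_lit 0) .nil) .nil))))) 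
(.nd (nat_lit 8) (.nd (nat_lit 9) 
(.lf (nat_lit 489719) (.g (nat_lit 3230) (.e (nat_lit 32808) (nat_lit 19) (.e (nat_lit 180278) (nat_lit 32) (.e (nat_lit 1234) (nat_lit 91) (.e (nat_lit 90172) (nat_lit 14) (.e (nat_lit 180285) (nat_lit 45) (.e (nat_lit 2571) (nat_lit 160) .nil)))))) (.g (nat_lit 1) (.e (nat_lit 141957) (nat_lit 0) .nil) .nil))) 
(.lf (nat_lit 490231) (.g (nat_lit 808) (.e (nat_lit 40997) (nat_lit 11) (.e (nat_lit 24584) (nat_lit 0) (.e (nat_lit 6113) (nat_lit 332) (.e (nat_lit 1361) (nat_lit 102) .nil)))) (.g (nat_lit 0) (.e (nat_lit 143040) (nat_lit 0) .nil) .nil)))) (.nd (nat_lit 9) 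
(.lf (nat_lit 489975) (.g (nat_lit 4020) (.e (nat_lit 49189) (nat_lit 11) (.e (nat_lit 16412) (nat_lit 2) (.e (nat_lit 196666) (nat_lit 13) (.e (nat_lit 65617) (nat_lit 10) .nil)))) (.g (nat_lit 0) (.e (nat_lit 142687) (nat_lit 0) .nil) .nil))) 
(.lf (nat_lit 490487) (.g (nat_lit 2018) (.e (nat_lit 163863) (nat_lit 1) (.e (nat_lit 164326) (nat_lit 230) (.e (nat_lit 163903) (nat_lit 12) (.e (nat_lit 426428) (nat_lit 17) (.e (nat_lit 90170) (nat_lit 13) .nil))))) (.g (nat_lit 0) (.e (nat_lit 143986) (nat_lit 0) .nil) .nil))))))))) (.nd (nat_lit 4) (.nd (nat_lit 5) (.nd (nat_lit 6) (.nd (nat_lit 7) (.nd (nat_lit 8) (.nd (nat_lit 9) 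
(.lf (nat_lit 489487) (.g (nat_lit 1099) (.e (nat_lit 16468) (nat_lit 13) (.e (nat_lit 483371) (nat_lit 21) (.e (nat_lit 319506) (nat_lit 10) (.e (nat_lit 4995) (nat_lit 288) .nil)))) (.g (nat_lit 0) (.e (nat_lit 140989) (nat_lit 0) .nil) .nil))) 
(.lf (nat_lit 489999) (.g (nat_lit 1454) (.e (nat_lit 49189) (nat_lit 11) (.e (nat_lit 16425) (nat_lit 7) (.e (nat_lit 409643) (nat_lit 18) (.e (nat_lit 303143) (nat_lit 12) (.e (nat_lit 475199) (nat_lit 40) .nil))))) (.g (nat_lit 0) (.e (nat_lit 142728) (nat_lit 0) .nil) .nil)))) (.nd (nat_lit 9) 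
(.lf (nat_lit 489743) (.g (nat_lit 1037) (.e (nat_lit 49156) (nat_lit 0) (.e (nat_lit 2679) (nat_lit 168) (.e (nat_lit 204862) (nat_lit 27) (.e (nat_lit 344129) (nat_lit 26) .nil)))) (.g (nat_lit 0) (.e (nat_lit 142193) (nat_lit 0) .nil) .nil))) 
(.lf (nat_lit 490255) (.g (nat_lit 2173) (.e (nat_lit 163843) (nat_lit 0) (.e (nat_lit 5940) (nat_lit 322) (.e (nat_lit 57372) (nat_lit 2) (.e (nat_lit 90173) (nat_lit 14) (.e (nat_lit 180252) (nat_lit 10) .nil))))) (.g (nat_lit 0) (.e (nat_lit 143119) (nat_lit 0) .nil) .nil))))) (.nd (nat_lit 8) (.nd (nat_lit 9) 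
(.lf (nat_lit 489615) (.g (nat_lit 2425) (.e (nat_lit 32807) (nat_lit 18) (.e (nat_lit 172118) (nat_lit 12) (.e (nat_lit 475185) (nat_lit 29) (.e (nat_lit 557100) (nat_lit 13) (.e (nat_lit 172039) (nat_lit 0) (.e (nat_lit 7013) (nat_lit 377) (.e (nat_lit 2570) (nat_lit 160) .nil))))))) (.g (nat_lit 1) (.e (nat_lit 141756) (nat_lit 0) .nil) .nil))) 
(.lf (nat_lit 490127) (.g (nat_lit 1999) (.e (nat_lit 49189) (nat_lit 11) (.e (nat_lit 16425) (nat_lit 7) (.e (nat_lit 409649) (nat_lit 18) (.e (nat_lit 303132) (nat_lit 9) (.e (nat_lit 426109) (nat_lit 1) .nil))))) (.g (nat_lit 0) (.e (nat_lit 142856) (nat_lit 0) .nil) .nil)))) (.nd (nat_lit 9) 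
(.lf (nat_lit 489871) (.g (nat_lit 2583) (.e (nat_lit 49187) (nat_lit 11) (.e (nat_lit 16473) (nat_lit 14) (.e (nat_lit 491560) (nat_lit 10) (.e (nat_lit 344168) (nat_lit 40) .nil)))) (.g (nat_lit 0) (.e (nat_lit 142535) (nat_lit 0) .nil) .nil))) 
(.lf (nat_lit 490383) (.g (nat_lit 1989) (.e (nat_lit 163850) (nat_lit 0) (.e (nat_lit 6425) (nat_lit 342) (.e (nat_lit 229415) (nat_lit 15) (.e (nat_lit 458496) (nat_lit 25) .nil)))) (.g (nat_lit 0) (.e (nat_lit 143503) (nat_lit 0) .nil) .nil)))))) (.nd (nat_lit 7) (.nd (nat_lit 8) (.nd (nat_lit 9) 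
(.lf (nat_lit 489551) (.g (nat_lit 4221) (.e (nat_lit 16472) (nat_lit 14) (.e (nat_lit 491537) (nat_lit 2) (.e (nat_lit 90170) (nat_lit 13) (.e (nat_lit 172113) (nat_lit 10) (.e (nat_lit 434245) (nat_lit 28) (.e (nat_lit 573469) (nat_lit 11) .nil)))))) (.g (nat_lit 1) (.e (nat_lit 141103) (nat_lit 0) .nil) .nil))) 
(.lf (nat_lit 490063) (.g (nat_lit 2360) (.e (nat_lit 49189) (nat_lit 11) (.e (nat_lit 16425) (nat_lit 7) (.e (nat_lit 409647) (nat_lit 18) (.e (nat_lit 303143) (nat_lit 12) (.e (nat_lit 475197) (nat_lit 40) (.e (nat_lit 704790) (nat_lit 14) (.e (nat_lit 2587) (nat_lit 162) .nil))))))) (.g (nat_lit 1) (.e (nat_lit 142792) (nat_lit 0) .nil) .nil)))) (.nd (nat_lit 9) 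
(.lf (nat_lit 489807) (.g (nat_lit 3104) (.e (nat_lit 49185) (nat_lit 11) (.e (nat_lit 16465) (nat_lit 13) (.e (nat_lit 483372) (nat_lit 21) (.e (nat_lit 319504) (nat_lit 10) (.e (nat_lit 4925) (nat_lit 287) .nil))))) (.g (nat_lit 0) (.e (nat_lit 142423) (nat_lit 0) .nil) .nil))) 
(.lf (nat_lit 490319) (.g (nat_lit 3882) (.e (nat_lit 163847) (nat_lit 0) (.e (nat_lit 6420) (nat_lit 341) (.e (nat_lit 163917) (nat_lit 13) (.e (nat_lit 434231) (nat_lit 23) (.e (nat_lit 532550) (nat_lit 12) (.e (nat_lit 360475) (nat_lit 8) (.e (nat_lit 557091) (nat_lit 12) .nil))))))) (.g (nat_lit 1) (.e (nat_lit 143232) (nat_lit 0) .nil) .nil))))) (.nd (nat_lit 8) (.nd (nat_lit 9) 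
(.lf (nat_lit 489679) (.g (nat_lit 853) (.e (nat_lit 32807) (nat_lit 18) (.e (nat_lit 172126) (nat_lit 14) (.e (nat_lit 491524) (nat_lit 0) .nil))) (.g (nat_lit 0) (.e (nat_lit 141846) (nat_lit 0) .nil) .nil))) 
(.lf (nat_lit 490191) (.g (nat_lit 1668) (.e (nat_lit 40963) (nat_lit 0) (.e (nat_lit 1633) (nat_lit 114) (.e (nat_lit 385045) (nat_lit 21) (.e (nat_lit 6416) (nat_lit 341) (.e (nat_lit 163867) (nat_lit 2) .nil))))) (.g (nat_lit 0) (.e (nat_lit 142956) (nat_lit 0) .nil) .nil)))) (.nd (nat_lit 9) 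
(.lf (nat_lit 489935) (.g (nat_lit 3166) (.e (nat_lit 49188) (nat_lit 11) (.e (nat_lit 16466) (nat_lit 13) (.e (nat_lit 483372) (nat_lit 21) (.e (nat_lit 319504) (nat_lit 10) (.e (nat_lit 4916) (nat_lit 287) .nil))))) (.g (nat_lit 0) (.e (nat_lit 142625) (nat_lit 0) .nil) .nil))) 
(.lf (nat_lit 490447) (.g (nat_lit 582) (.e (nat_lit 163860) (nat_lit 1) (.e (nat_lit 164332) (nat_lit 230) (.e (nat_lit 163885) (nat_lit 5) .nil))) (.g (nat_lit 0) (.e (nat_lit 143721) (nat_lit 0) .nil) .nil))))))) (.nd (nat_lit 6) (.nd (nat_lit 7) (.nd (nat_lit 8) (.nd (nat_lit 9) 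
(.lf (nat_lit 489519) (.g (nat_lit 2409) (.e (nat_lit 16470) (nat_lit 14) (.e (nat_lit 491536) (nat_lit 2) (.e (nat_lit 90170) (nat_lit 13) (.e (nat_lit 172113) (nat_lit 10) (.e (nat_lit 434248) (nat_lit 28) (.e (nat_lit 573470) (nat_lit 11) .nil)))))) (.g (nat_lit 1) (.e (nat_lit 141058) (nat_lit 0) .nil) .nil))) 
(.lf (nat_lit 490031) (.g (nat_lit 2876) (.e (nat_lit 49189) (nat_lit 11) (.e (nat_lit 16425) (nat_lit 7) (.e (nat_lit 409645) (nat_lit 18) (.e (nat_lit 303143) (nat_lit 12) (.e (nat_lit 475199) (nat_lit 40) (.e (nat_lit 704790) (nat_lit 14) (.e (nat_lit 2591) (nat_lit 162) .nil))))))) (.g (nat_lit 1) (.e (nat_lit 142760) (nat_lit 0) .nil) .nil)))) (.nd (nat_lit 9) 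
(.lf (nat_lit 489775) (.g (nat_lit 671) (.e (nat_lit 57088) (nat_lit 6) (.e (nat_lit 188440) (nat_lit 20) (.e (nat_lit 3289) (nat_lit 201) (.e (nat_lit 565268) (nat_lit 5) (.e (nat_lit 73791) (nat_lit 45) .nil))))) (.g (nat_lit 0) (.e (nat_lit 142310) (nat_lit 0) .nil) .nil))) 
(.lf (nat_lit 490287) (.g (nat_lit 2354) (.e (nat_lit 163844) (nat_lit 0) (.e (nat_lit 5943) (nat_lit 322) (.e (nat_lit 57375) (nat_lit 2) (.e (nat_lit 90174) (nat_lit 14) (.e (nat_lit 180251) (nat_lit 10) .nil))))) (.g (nat_lit 0) (.e (nat_lit 143171) (nat_lit 0) .nil) .nil))))) (.nd (nat_lit 8) (.nd (nat_lit 9) 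
(.lf (nat_lit 489647) (.g (nat_lit 390) (.e (nat_lit 32807) (nat_lit 18) (.e (nat_lit 172120) (nat_lit 12) (.e (nat_lit 475185) (nat_lit 29) .nil))) (.g (nat_lit 0) (.e (nat_lit 141791) (nat_lit 0) .nil) .nil))) 
(.lf (nat_lit 490159) (.g (nat_lit 3108) (.e (nat_lit 49189) (nat_lit 11) (.e (nat_lit 16425) (nat_lit 7) (.e (nat_lit 409649) (nat_lit 18) (.e (nat_lit 303143) (nat_lit 12) (.e (nat_lit 475199) (nat_lit 40) (.e (nat_lit 704777) (nat_lit 14) (.e (nat_lit 2587) (nat_lit 162) .nil))))))) (.g (nat_lit 1) (.e (nat_lit 142888) (nat_lit 0) .nil) .nil)))) (.nd (nat_lit 9) 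
(.lf (nat_lit 489903) (.g (nat_lit 2208) (.e (nat_lit 49188) (nat_lit 11) (.e (nat_lit 16431) (nat_lit 9) (.e (nat_lit 426482) (nat_lit 27) (.e (nat_lit 336060) (nat_lit 7) (.e (nat_lit 319505) (nat_lit 10) .nil))))) (.g (nat_lit 0) (.e (nat_lit 142583) (nat_lit 0) .nil) .nil))) 
(.lf (nat_lit 490415) (.g (nat_lit 1867) (.e (nat_lit 163854) (nat_lit 0) (.e (nat_lit 3307) (nat_lit 202) (.e (nat_lit 573489) (nat_lit 14) (.e (nat_lit 73755) (nat_lit 8) .nil)))) (.g (nat_lit 0) (.e (nat_lit 143581) (nat_lit 0) .nil) .nil)))))) (.nd (nat_lit 7) (.nd (nat_lit 8) (.nd (nat_lit 9) 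
(.lf (nat_lit 489583) (.g (nat_lit 2433) (.e (nat_lit 32806) (nat_lit 18) (.e (nat_lit 172120) (nat_lit 12) (.e (nat_lit 475185) (nat_lit 29) (.e (nat_lit 557098) (nat_lit 13) .nil)))) (.g (nat_lit 0) (.e (nat_lit 141400) (nat_lit 0) .nil) .nil))) 
(.lf (nat_lit 490095) (.g (nat_lit 2109) (.e (nat_lit 49189) (nat_lit 11) (.e (nat_lit 16425) (nat_lit 7) (.e (nat_lit 409648) (nat_lit 18) (.e (nat_lit 303137) (nat_lit 10) (.e (nat_lit 434271) (nat_lit 38) (.e (nat_lit 663296) (nat_lit 14) (.e (nat_lit 2586) (nat_lit 162) .nil))))))) (.g (nat_lit 1) (.e (nat_lit 142824) (nat_lit 0) .nil) .nil)))) (.nd (nat_lit 9) 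
(.lf (nat_lit 489839) (.g (nat_lit 2083) (.e (nat_lit 49187) (nat_lit 11) (.e (nat_lit 16425) (nat_lit 7) (.e (nat_lit 409646) (nat_lit 18) (.e (nat_lit 303143) (nat_lit 12) (.e (nat_lit 475199) (nat_lit 40) (.e (nat_lit 704836) (nat_lit 14) (.e (nat_lit 2587) (nat_lit 162) .nil))))))) (.g (nat_lit 1) (.e (nat_lit 142470) (nat_lit 0) .nil) .nil))) 
(.lf (nat_lit 490351) (.g (nat_lit 4344) (.e (nat_lit 163849) (nat_lit 0) (.e (nat_lit 6421) (nat_lit 341) (.e (nat_lit 163900) (nat_lit 12) (.e (nat_lit 426125) (nat_lit 2) (.e (nat_lit 196666) (nat_lit 13) (.e (nat_lit 65617) (nat_lit 10) (.e (nat_lit 344133) (nat_lit 26) (.e (nat_lit 557091) (nat_lit 12) .nil)))))))) (.g (nat_lit 1) (.e (nat_lit 143291) (nat_lit 0) .nil) .nil))))) 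
(.nd (nat_lit 8) (.nd (nat_lit 9) 
(.lf (nat_lit 489711) (.g (nat_lit 2270) (.e (nat_lit 32808) (nat_lit 19) (.e (nat_lit 180277) (nat_lit 32) (.e (nat_lit 1235) (nat_lit 91) (.e (nat_lit 90172) (nat_lit 14) (.e (nat_lit 180285) (nat_lit 45) (.e (nat_lit 2570) (nat_lit 160) .nil)))))) (.g (nat_lit 1) (.e (nat_lit 141949) (nat_lit 0) .nil) .nil))) 
(.lf (nat_lit 490223) (.g (nat_lit 637) (.e (nat_lit 40996) (nat_lit 11) (.e (nat_lit 24658) (nat_lit 13) (.e (nat_lit 393260) (nat_lit 21) .nil))) (.g (nat_lit 0) (.e (nat_lit 143016) (nat_lit 0) .nil) .nil)))) (.nd (nat_lit 9) 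
(.lf (nat_lit 489967) (.g (nat_lit 3370) (.e (nat_lit 49188) (nat_lit 11) (.e (nat_lit 16473) (nat_lit 14) (.e (nat_lit 491560) (nat_lit 10) (.e (nat_lit 344160) (nat_lit 37) (.e (nat_lit 647203) (nat_lit 14) (.e (nat_lit 1161) (nat_lit 86) (.e (nat_lit 49200) (nat_lit 14) (.e (nat_lit 2587) (nat_lit 162) .nil)))))))) (.g (nat_lit 1) (.e (nat_lit 142675) (nat_lit 0) .nil) .nil))) 
(.lf (nat_lit 490479) (.g (nat_lit 540) (.e (nat_lit 163862) (nat_lit 1) (.e (nat_lit 164332) (nat_lit 230) (.e (nat_lit 163905) (nat_lit 12) .nil))) (.g (nat_lit 0) (.e (nat_lit 143894) (nat_lit 0) .nil) .nil)))))))) (.nd (nat_lit 5) (.nd (nat_lit 6) (.nd (nat_lit 7) (.nd (nat_lit 8) (.nd (nat_lit 9) 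
(.lf (nat_lit 489503) (.g (nat_lit 1573) (.e (nat_lit 16468) (nat_lit 13) (.e (nat_lit 483372) (nat_lit 21) (.e (nat_lit 319505) (nat_lit 10) (.e (nat_lit 4987) (nat_lit 288) .nil)))) (.g (nat_lit 0) (.e (nat_lit 141013) (nat_lit 0) .nil) .nil))) 
(.lf (nat_lit 490015) (.g (nat_lit 2789) (.e (nat_lit 49189) (nat_lit 11) (.e (nat_lit 16425) (nat_lit 7) (.e (nat_lit 409644) (nat_lit 18) (.e (nat_lit 303143) (nat_lit 12) (.e (nat_lit 475220) (nat_lit 44) (.e (nat_lit 745216) (nat_lit 15) .nil)))))) (.g (nat_lit 1) (.e (nat_lit 142744) (nat_lit 0) .nil) .nil)))) (.nd (nat_lit 9) 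
(.lf (nat_lit 489759) (.g (nat_lit 676) (.e (nat_lit 49156) (nat_lit 0) (.e (nat_lit 3026) (nat_lit 187) (.e (nat_lit 458496) (nat_lit 9) (.e (nat_lit 565268) (nat_lit 5) (.e (nat_lit 73788) (nat_lit 45) (.e (nat_lit 1163) (nat_lit 86) .nil)))))) (.g (nat_lit 1) (.e (nat_lit 142239) (nat_lit 0) .nil) .nil))) 
(.lf (nat_lit 490271) (.g (nat_lit 1941) (.e (nat_lit 163844) (nat_lit 0) (.e (nat_lit 3471) (nat_lit 217) (.e (nat_lit 696344) (nat_lit 8) (.e (nat_lit 172079) (nat_lit 7) (.e (nat_lit 409645) (nat_lit 18) (.e (nat_lit 303133) (nat_lit 9) (.e (nat_lit 426032) (nat_lit 0) (.e (nat_lit 2441) (nat_lit 157) (.e (nat_lit 5966) (nat_lit 324) .nil))))))))) (.g (nat_lit 1) (.e (nat_lit 143155) (nat_lit 0) .nil) .nil))))) 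
(.nd (nat_lit 8) (.nd (nat_lit 9) 
(.lf (nat_lit 489631) (.g (nat_lit 3381) (.e (nat_lit 32807) (nat_lit 18) (.e (nat_lit 172119) (nat_lit 12) (.e (nat_lit 475185) (nat_lit 29) (.e (nat_lit 557103) (nat_lit 14) (.e (nat_lit 180285) (nat_lit 45) (.e (nat_lit 2570) (nat_lit 160) .nil)))))) (.g (nat_lit 1) (.e (nat_lit 141775) (nat_lit 0) .nil) .nil))) 
(.lf (nat_lit 490143) (.g (nat_lit 2204) (.e (nat_lit 49189) (nat_lit 11) (.e (nat_lit 16425) (nat_lit 7) (.e (nat_lit 409649) (nat_lit 18) (.e (nat_lit 303140) (nat_lit 10) (.e (nat_lit 434272) (nat_lit 38) (.e (nat_lit 655404) (nat_lit 14) (.e (nat_lit 2587) (nat_lit 162) .nil))))))) (.g (nat_lit 1) (.e (nat_lit 142872) (nat_lit 0) .nil) .nil)))) (.nd (nat_lit 9) 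
(.lf (nat_lit 489887) (.g (nat_lit 2220) (.e (nat_lit 49188) (nat_lit 11) (.e (nat_lit 16416) (nat_lit 3) (.e (nat_lit 204869) (nat_lit 29) (.e (nat_lit 360474) (nat_lit 8) .nil)))) (.g (nat_lit 0) (.e (nat_lit 142566) (nat_lit 0) .nil) .nil))) 
(.lf (nat_lit 490399) (.g (nat_lit 2543) (.e (nat_lit 163852) (nat_lit 0) (.e (nat_lit 6428) (nat_lit 342) (.e (nat_lit 229407) (nat_lit 13) (.e (nat_lit 434231) (nat_lit 23) (.e (nat_lit 532550) (nat_lit 12) (.e (nat_lit 360474) (nat_lit 8) (.e (nat_lit 557094) (nat_lit 12) .nil))))))) (.g (nat_lit 1) (.e (nat_lit 143543) (nat_lit 0) .nil) .nil)))))) 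
(.nd (nat_lit 7) (.nd (nat_lit 8) (.nd (nat_lit 9) 
(.lf (nat_lit 489567) (.g (nat_lit 1043) (.e (nat_lit 16473) (nat_lit 14) (.e (nat_lit 491539) (nat_lit 3) (.e (nat_lit 98386) (nat_lit 32) (.e (nat_lit 483072) (nat_lit 51) .nil)))) (.g (nat_lit 0) (.e (nat_lit 141148) (nat_lit 0) .nil) .nil))) 
(.lf (nat_lit 490079) (.g (nat_lit 2833) (.e (nat_lit 49189) (nat_lit 11) (.e (nat_lit 16425) (nat_lit 7) (.e (nat_lit 409648) (nat_lit 18) (.e (nat_lit 303133) (nat_lit 9) (.e (nat_lit 426412) (nat_lit 15) (.e (nat_lit 2233) (nat_lit 146) (.e (nat_lit 737318) (nat_lit 15) .nil))))))) (.g (nat_lit 1) (.e (nat_lit 142808) (nat_lit 0) .nil) .nil)))) (.nd (nat_lit 9) 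
(.lf (nat_lit 489823) (.g (nat_lit 2864) (.e (nat_lit 49187) (nat_lit 11) (.e (nat_lit 16425) (nat_lit 7) (.e (nat_lit 409643) (nat_lit 18) (.e (nat_lit 303143) (nat_lit 12) (.e (nat_lit 475198) (nat_lit 40) (.e (nat_lit 704790) (nat_lit 14) (.e (nat_lit 2587) (nat_lit 162) .nil))))))) (.g (nat_lit 1) (.e (nat_lit 142454) (nat_lit 0) .nil) .nil))) 
(.lf (nat_lit 490335) (.g (nat_lit 2029) (.e (nat_lit 163849) (nat_lit 0) (.e (nat_lit 6252) (nat_lit 337) (.e (nat_lit 2630) (nat_lit 164) (.e (nat_lit 172066) (nat_lit 3) (.e (nat_lit 204869) (nat_lit 29) .nil))))) (.g (nat_lit 0) (.e (nat_lit 143259) (nat_lit 0) .nil) .nil))))) (.nd (nat_lit 8) (.nd (nat_lit 9) 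
(.lf (nat_lit 489695) (.g (nat_lit 2886) (.e (nat_lit 32807) (nat_lit 18) (.e (nat_lit 172126) (nat_lit 14) (.e (nat_lit 491537) (nat_lit 2) (.e (nat_lit 90174) (nat_lit 14) (.e (nat_lit 180287) (nat_lit 45) (.e (nat_lit 2571) (nat_lit 160) .nil)))))) (.g (nat_lit 1) (.e (nat_lit 141877) (nat_lit 0) .nil) .nil))) 
(.lf (nat_lit 490207) (.g (nat_lit 480) (.e (nat_lit 40993) (nat_lit 11) (.e (nat_lit 24657) (nat_lit 13) (.e (nat_lit 393260) (nat_lit 21) .nil))) (.g (nat_lit 0) (.e (nat_lit 142992) (nat_lit 0) .nil) .nil)))) (.nd (nat_lit 9) 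
(.lf (nat_lit 489951) (.g (nat_lit 837) (.e (nat_lit 49188) (nat_lit 11) (.e (nat_lit 16466) (nat_lit 13) (.e (nat_lit 483375) (nat_lit 22) .nil))) (.g (nat_lit 0) (.e (nat_lit 142641) (nat_lit 0) .nil) .nil))) 
(.lf (nat_lit 490463) (.g (nat_lit 1854) (.e (nat_lit 163861) (nat_lit 1) (.e (nat_lit 164332) (nat_lit 230) (.e (nat_lit 163902) (nat_lit 12) (.e (nat_lit 426438) (nat_lit 18) (.e (nat_lit 98374) (nat_lit 29) .nil))))) (.g (nat_lit 0) (.e (nat_lit 143820) (nat_lit 0) .nil) .nil))))))) (.nd (nat_lit 6) (.nd (nat_lit 7) (.nd (nat_lit 8) (.nd (nat_lit 9) 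
(.lf (nat_lit 489535) (.g (nat_lit 2745) (.e (nat_lit 16471) (nat_lit 14) (.e (nat_lit 491526) (nat_lit 0) (.e (nat_lit 1788) (nat_lit 119) (.e (nat_lit 516151) (nat_lit 9) (.e (nat_lit 426286) (nat_lit 10) (.e (nat_lit 434245) (nat_lit 28) (.e (nat_lit 573470) (nat_lit 11) .nil))))))) (.g (nat_lit 1) (.e (nat_lit 141081) (nat_lit 0) .nil) .nil))) 
(.lf (nat_lit 490047) (.g (nat_lit 1479) (.e (nat_lit 49189) (nat_lit 11) (.e (nat_lit 16425) (nat_lit 7) (.e (nat_lit 409646) (nat_lit 18) (.e (nat_lit 303143) (nat_lit 12) (.e (nat_lit 475199) (nat_lit 40) .nil))))) (.g (nat_lit 0) (.e (nat_lit 142776) (nat_lit 0) .nil) .nil)))) (.nd (nat_lit 9) 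
(.lf (nat_lit 489791) (.g (nat_lit 1792) (.e (nat_lit 49185) (nat_lit 11) (.e (nat_lit 16425) (nat_lit 7) (.e (nat_lit 409648) (nat_lit 18) (.e (nat_lit 303137) (nat_lit 10) .nil)))) (.g (nat_lit 0) (.e (nat_lit 142404) (nat_lit 0) .nil) .nil))) 
(.lf (nat_lit 490303) (.g (nat_lit 4209) (.e (nat_lit 163847) (nat_lit 0) (.e (nat_lit 6254) (nat_lit 337) (.e (nat_lit 2725) (nat_lit 172) (.e (nat_lit 237589) (nat_lit 2) (.e (nat_lit 196666) (nat_lit 13) (.e (nat_lit 65617) (nat_lit 10) (.e (nat_lit 344132) (nat_lit 26) (.e (nat_lit 557094) (nat_lit 12) .nil)))))))) (.g (nat_lit 1) (.e (nat_lit 143211) (nat_lit 0) .nil) .nil))))) 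
(.nd (nat_lit 8) (.nd (nat_lit 9) 
(.lf (nat_lit 489663) (.g (nat_lit 598) (.e (nat_lit 32807) (nat_lit 18) (.e (nat_lit 172124) (nat_lit 14) (.e (nat_lit 491524) (nat_lit 0) .nil))) (.g (nat_lit 0) (.e (nat_lit 141813) (nat_lit 0) .nil) .nil))) 
(.lf (nat_lit 490175) (.g (nat_lit 889) (.e (nat_lit 49189) (nat_lit 11) (.e (nat_lit 16463) (nat_lit 13) (.e (nat_lit 483411) (nat_lit 27) .nil))) (.g (nat_lit 0) (.e (nat_lit 142929) (nat_lit 0) .nil) .nil)))) (.nd (nat_lit 9) 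
(.lf (nat_lit 489919) (.g (nat_lit 1496) (.e (nat_lit 49188) (nat_lit 11) (.e (nat_lit 16466) (nat_lit 13) (.e (nat_lit 483346) (nat_lit 17) .nil))) (.g (nat_lit 0) (.e (nat_lit 142608) (nat_lit 0) .nil) .nil))) 
(.lf (nat_lit 490431) (.g (nat_lit 2207) (.e (nat_lit 163859) (nat_lit 1) (.e (nat_lit 164325) (nat_lit 230) (.e (nat_lit 163903) (nat_lit 12) (.e (nat_lit 426422) (nat_lit 16) .nil)))) (.g (nat_lit 0) (.e (nat_lit 143623) (nat_lit 0) .nil) .nil)))))) (.nd (nat_lit 7) (.nd (nat_lit 8) (.nd (nat_lit 9) 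
(.lf (nat_lit 489599) (.g (nat_lit 2510) (.e (nat_lit 32806) (nat_lit 18) (.e (nat_lit 172126) (nat_lit 14) (.e (nat_lit 491537) (nat_lit 2) (.e (nat_lit 90174) (nat_lit 14) (.e (nat_lit 180287) (nat_lit 45) .nil))))) (.g (nat_lit 0) (.e (nat_lit 141421) (nat_lit 0) .nil) .nil))) 
(.lf (nat_lit 490111) (.g (nat_lit 1549) (.e (nat_lit 49189) (nat_lit 11) (.e (nat_lit 16425) (nat_lit 7) (.e (nat_lit 409648) (nat_lit 18) (.e (nat_lit 303142) (nat_lit 12) (.e (nat_lit 475199) (nat_lit 40) .nil))))) (.g (nat_lit 0) (.e (nat_lit 142840) (nat_lit 0) .nil) .nil)))) (.nd (nat_lit 9) 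
(.lf (nat_lit 489855) (.g (nat_lit 2058) (.e (nat_lit 49187) (nat_lit 11) (.e (nat_lit 16425) (nat_lit 7) (.e (nat_lit 409649) (nat_lit 18) (.e (nat_lit 303140) (nat_lit 10) (.e (nat_lit 434275) (nat_lit 39) .nil))))) (.g (nat_lit 0) (.e (nat_lit 142486) (nat_lit 0) .nil) .nil))) 
(.lf (nat_lit 490367) (.g (nat_lit 3446) (.e (nat_lit 163850) (nat_lit 0) (.e (nat_lit 3304) (nat_lit 202) (.e (nat_lit 573493) (nat_lit 15) (.e (nat_lit 81951) (nat_lit 22) (.e (nat_lit 90170) (nat_lit 13) .nil))))) (.g (nat_lit 0) (.e (nat_lit 143337) (nat_lit 0) .nil) .nil))))) (.nd (nat_lit 8) (.nd (nat_lit 9) 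
(.lf (nat_lit 489727) (.g (nat_lit 1102) (.e (nat_lit 32808) (nat_lit 19) (.e (nat_lit 180278) (nat_lit 32) (.e (nat_lit 1235) (nat_lit 91) (.e (nat_lit 90173) (nat_lit 14) (.e (nat_lit 180284) (nat_lit 45) .nil))))) (.g (nat_lit 0) (.e (nat_lit 141965) (nat_lit 0) .nil) .nil))) 
(.lf (nat_lit 490239) (.g (nat_lit 2450) (.e (nat_lit 163840) (nat_lit 0) (.e (nat_lit 3307) (nat_lit 202) (.e (nat_lit 573489) (nat_lit 14) (.e (nat_lit 73754) (nat_lit 8) (.e (nat_lit 557101) (nat_lit 13) .nil))))) (.g (nat_lit 0) (.e (nat_lit 143052) (nat_lit 0) .nil) .nil)))) (.nd (nat_lit 9) 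
(.lf (nat_lit 489983) (.g (nat_lit 1776) (.e (nat_lit 49189) (nat_lit 11) (.e (nat_lit 16424) (nat_lit 7) (.e (nat_lit 409645) (nat_lit 18) (.e (nat_lit 303143) (nat_lit 12) (.e (nat_lit 475216) (nat_lit 44) .nil))))) (.g (nat_lit 0) (.e (nat_lit 142710) (nat_lit 0) .nil) .nil))) 
(.lf (nat_lit 490495) (.g (nat_lit 2366) (.e (nat_lit 163864) (nat_lit 1) (.e (nat_lit 164330) (nat_lit 230) (.e (nat_lit 163902) (nat_lit 12) (.e (nat_lit 426438) (nat_lit 18) (.e (nat_lit 98372) (nat_lit 29) .nil))))) (.g (nat_lit 0) (.e (nat_lit 144064) (nat_lit 0) .nil) .nil)))))))))))))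

noncomputable def tv5539 : DT := (.nd (nat_lit 0) (.nd (nat_lit 1) (.nd (nat_lit 2) (.nd (nat_lit 3) (.nd (nat_lit 4) (.nd (nat_lit 5) (.nd (nat_lit 6) (.nd (nat_lit 7) (.nd (nat_lit 8) (.nd (nat_lit 9) 
(.lf (nat_lit 490496) (.g (nat_lit 2014) (.e (nat_lit 163864) (nat_lit 1) (.e (nat_lit 164330) (nat_lit 230) (.e (nat_lit 163902) (nat_lit 12) (.e (nat_lit 426472) (nat_lit 25) (.e (nat_lit 319533) (nat_lit 16) (.e (nat_lit 286753) (nat_lit 10) (.e (nat_lit 344087) (nat_lit 18) (.e (nat_lit 7290) (nat_lit 386) .nil)))))))) (.g (nat_lit 1) (.e (nat_lit 144065) (nat_lit 0) .nil) .nil))) 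
(.lf (nat_lit 491008) (.g (nat_lit 2760) (.e (nat_lit 163867) (nat_lit 2) (.e (nat_lit 196681) (nat_lit 17) (.e (nat_lit 131105) (nat_lit 9) (.e (nat_lit 336454) (nat_lit 34) (.e (nat_lit 483366) (nat_lit 18) (.e (nat_lit 57931) (nat_lit 282) .nil)))))) (.g (nat_lit 1) (.e (nat_lit 145192) (nat_lit 0) .nil) .nil)))) (.nd (nat_lit 9) 
(.lf (nat_lit 490752) (.g (nat_lit 1963) (.e (nat_lit 163867) (nat_lit 2) (.e (nat_lit 196663) (nat_lit 13) (.e (nat_lit 65571) (nat_lit 3) (.e (nat_lit 98341) (nat_lit 20) (.e (nat_lit 221215) (nat_lit 23) .nil))))) (.g (nat_lit 0) (.e (nat_lit 144664) (nat_lit 0) .nil) .nil))) 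
(.lf (nat_lit 491264) (.g (nat_lit 3329) (.e (nat_lit 163868) (nat_lit 2) (.e (nat_lit 196670) (nat_lit 14) (.e (nat_lit 73753) (nat_lit 8) (.e (nat_lit 557103) (nat_lit 14) (.e (nat_lit 180244) (nat_lit 5) (.e (nat_lit 532503) (nat_lit 1) (.e (nat_lit 65280) (nat_lit 168) .nil))))))) (.g (nat_lit 1) (.e (nat_lit 145699) (nat_lit 0) .nil) .nil))))) (.nd (nat_lit 8) (.nd (nat_lit 9) 
(.lf (nat_lit 490624) (.g (nat_lit 2583) (.e (nat_lit 163866) (nat_lit 2) (.e (nat_lit 196666) (nat_lit 13) (.e (nat_lit 65610) (nat_lit 10) (.e (nat_lit 344117) (nat_lit 21) (.e (nat_lit 516151) (nat_lit 9) .nil))))) (.g (nat_lit 0) (.e (nat_lit 144401) (nat_lit 0) .nil) .nil))) 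
(.lf (nat_lit 491136) (.g (nat_lit 2106) (.e (nat_lit 163868) (nat_lit 2) (.e (nat_lit 196668) (nat_lit 14) (.e (nat_lit 73746) (nat_lit 3) (.e (nat_lit 516131) (nat_lit 3) (.e (nat_lit 221213) (nat_lit 23) (.e (nat_lit 204830) (nat_lit 18) (.e (nat_lit 57928) (nat_lit 282) .nil))))))) (.g (nat_lit 1) (.e (nat_lit 145467) (nat_lit 0) .nil) .nil)))) (.nd (nat_lit 9) 
(.lf (nat_lit 490880) (.g (nat_lit 2977) (.e (nat_lit 163867) (nat_lit 2) (.e (nat_lit 196668) (nat_lit 14) (.e (nat_lit 73753) (nat_lit 8) (.e (nat_lit 557103) (nat_lit 14) (.e (nat_lit 180244) (nat_lit 5) (.e (nat_lit 532504) (nat_lit 1) (.e (nat_lit 65280) (nat_lit 168) .nil))))))) (.g (nat_lit 1) (.e (nat_lit 144877) (nat_lit 0) .nil) .nil))) 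
(.lf (nat_lit 491392) (.g (nat_lit 2816) (.e (nat_lit 163869) (nat_lit 2) (.e (nat_lit 196666) (nat_lit 13) (.e (nat_lit 65571) (nat_lit 3) (.e (nat_lit 98342) (nat_lit 20) (.e (nat_lit 221213) (nat_lit 23) (.e (nat_lit 204829) (nat_lit 18) (.e (nat_lit 57926) (nat_lit 282) .nil))))))) (.g (nat_lit 1) (.e (nat_lit 146066) (nat_lit 0) .nil) .nil)))))) 
(.nd (nat_lit 7) (.nd (nat_lit 8) (.nd (nat_lit 9) 
(.lf (nat_lit 490560) (.g (nat_lit 1486) (.e (nat_lit 163866) (nat_lit 2) (.e (nat_lit 196654) (nat_lit 11) (.e (nat_lit 16437) (nat_lit 9) (.e (nat_lit 426568) (nat_lit 34) (.e (nat_lit 393253) (nat_lit 18) .nil))))) (.g (nat_lit 0) (.e (nat_lit 144319) (nat_lit 0) .nil) .nil))) 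
(.lf (nat_lit 491072) (.g (nat_lit 1875) (.e (nat_lit 163868) (nat_lit 2) (.e (nat_lit 196656) (nat_lit 11) (.e (nat_lit 16465) (nat_lit 13) (.e (nat_lit 483338) (nat_lit 9) (.e (nat_lit 426110) (nat_lit 1) .nil))))) (.g (nat_lit 0) (.e (nat_lit 145353) (nat_lit 0) .nil) .nil)))) (.nd (nat_lit 9) 
(.lf (nat_lit 490816) (.g (nat_lit 3209) (.e (nat_lit 163867) (nat_lit 2) (.e (nat_lit 196668) (nat_lit 14) (.e (nat_lit 73746) (nat_lit 3) (.e (nat_lit 516131) (nat_lit 3) (.e (nat_lit 221215) (nat_lit 23) (.e (nat_lit 204828) (nat_lit 18) (.e (nat_lit 57931) (nat_lit 282) .nil))))))) (.g (nat_lit 1) (.e (nat_lit 144758) (nat_lit 0) .nil) .nil))) 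
(.lf (nat_lit 491328) (.g (nat_lit 4247) (.e (nat_lit 163869) (nat_lit 2) (.e (nat_lit 196656) (nat_lit 11) (.e (nat_lit 16466) (nat_lit 13) (.e (nat_lit 483337) (nat_lit 9) (.e (nat_lit 426108) (nat_lit 1) (.e (nat_lit 164332) (nat_lit 230) .nil)))))) (.g (nat_lit 1) (.e (nat_lit 145983) (nat_lit 0) .nil) .nil))))) (.nd (nat_lit 8) (.nd (nat_lit 9) 
(.lf (nat_lit 490688) (.g (nat_lit 1405) (.e (nat_lit 163866) (nat_lit 2) (.e (nat_lit 196681) (nat_lit 17) (.e (nat_lit 131109) (nat_lit 9) (.e (nat_lit 336454) (nat_lit 34) (.e (nat_lit 483362) (nat_lit 18) .nil))))) (.g (nat_lit 0) (.e (nat_lit 144502) (nat_lit 0) .nil) .nil))) 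
(.lf (nat_lit 491200) (.g (nat_lit 2942) (.e (nat_lit 163868) (nat_lit 2) (.e (nat_lit 196668) (nat_lit 14) (.e (nat_lit 73747) (nat_lit 3) (.e (nat_lit 516131) (nat_lit 3) (.e (nat_lit 221215) (nat_lit 23) (.e (nat_lit 204828) (nat_lit 18) (.e (nat_lit 57925) (nat_lit 282) .nil))))))) (.g (nat_lit 1) (.e (nat_lit 145596) (nat_lit 0) .nil) .nil)))) (.nd (nat_lit 9) 
(.lf (nat_lit 490944) (.g (nat_lit 3012) (.e (nat_lit 163867) (nat_lit 2) (.e (nat_lit 196670) (nat_lit 14) (.e (nat_lit 73746) (nat_lit 3) (.e (nat_lit 516131) (nat_lit 3) (.e (nat_lit 221214) (nat_lit 23) (.e (nat_lit 204830) (nat_lit 18) (.e (nat_lit 57929) (nat_lit 282) .nil))))))) (.g (nat_lit 1) (.e (nat_lit 144997) (nat_lit 0) .nil) .nil))) 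
(.lf (nat_lit 491456) (.g (nat_lit 3934) (.e (nat_lit 163869) (nat_lit 2) (.e (nat_lit 196666) (nat_lit 13) (.e (nat_lit 65610) (nat_lit 10) (.e (nat_lit 344117) (nat_lit 21) (.e (nat_lit 516151) (nat_lit 9) (.e (nat_lit 426023) (nat_lit 0) (.e (nat_lit 2400) (nat_lit 157) (.e (nat_lit 4847) (nat_lit 285) .nil)))))))) (.g (nat_lit 1) (.e (nat_lit 146196) (nat_lit 0) .nil) .nil))))))) 
(.nd (nat_lit 6) (.nd (nat_lit 7) (.nd (nat_lit 8) (.nd (nat_lit 9) 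
(.lf (nat_lit 490528) (.g (nat_lit 3246) (.e (nat_lit 163864) (nat_lit 1) (.e (nat_lit 164332) (nat_lit 230) (.e (nat_lit 163905) (nat_lit 12) (.e (nat_lit 426472) (nat_lit 25) (.e (nat_lit 319534) (nat_lit 16) (.e (nat_lit 286749) (nat_lit 9) (.e (nat_lit 335997) (nat_lit 1) (.e (nat_lit 57690) (nat_lit 156) .nil)))))))) (.g (nat_lit 1) (.e (nat_lit 144188) (nat_lit 0) .nil) .nil))) 
(.lf (nat_lit 491040) (.g (nat_lit 1557) (.e (nat_lit 163868) (nat_lit 2) (.e (nat_lit 196654) (nat_lit 11) (.e (nat_lit 16438) (nat_lit 9) (.e (nat_lit 426489) (nat_lit 27) (.e (nat_lit 336409) (nat_lit 27) .nil))))) (.g (nat_lit 0) (.e (nat_lit 145288) (nat_lit 0) .nil) .nil)))) (.nd (nat_lit 9) 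
(.lf (nat_lit 490784) (.g (nat_lit 2842) (.e (nat_lit 163867) (nat_lit 2) (.e (nat_lit 196666) (nat_lit 13) (.e (nat_lit 65610) (nat_lit 10) (.e (nat_lit 344129) (nat_lit 26) .nil)))) (.g (nat_lit 0) (.e (nat_lit 144703) (nat_lit 0) .nil) .nil))) 
(.lf (nat_lit 491296) (.g (nat_lit 3768) (.e (nat_lit 163869) (nat_lit 2) (.e (nat_lit 196654) (nat_lit 11) (.e (nat_lit 16435) (nat_lit 9) (.e (nat_lit 426566) (nat_lit 34) (.e (nat_lit 393251) (nat_lit 18) (.e (nat_lit 164325) (nat_lit 230) .nil)))))) (.g (nat_lit 1) (.e (nat_lit 145938) (nat_lit 0) .nil) .nil))))) (.nd (nat_lit 8) (.nd (nat_lit 9) 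
(.lf (nat_lit 490656) (.g (nat_lit 1356) (.e (nat_lit 163866) (nat_lit 2) (.e (nat_lit 196670) (nat_lit 14) (.e (nat_lit 73746) (nat_lit 3) (.e (nat_lit 516127) (nat_lit 2) .nil)))) (.g (nat_lit 0) (.e (nat_lit 144448) (nat_lit 0) .nil) .nil))) 
(.lf (nat_lit 491168) (.g (nat_lit 5220) (.e (nat_lit 163868) (nat_lit 2) (.e (nat_lit 196668) (nat_lit 14) (.e (nat_lit 73747) (nat_lit 3) (.e (nat_lit 516129) (nat_lit 3) (.e (nat_lit 221214) (nat_lit 23) (.e (nat_lit 204830) (nat_lit 18) (.e (nat_lit 57926) (nat_lit 282) .nil))))))) (.g (nat_lit 1) (.e (nat_lit 145538) (nat_lit 0) .nil) .nil)))) (.nd (nat_lit 9) 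
(.lf (nat_lit 490912) (.g (nat_lit 4406) (.e (nat_lit 163867) (nat_lit 2) (.e (nat_lit 196670) (nat_lit 14) (.e (nat_lit 73746) (nat_lit 3) (.e (nat_lit 516129) (nat_lit 3) (.e (nat_lit 221214) (nat_lit 23) (.e (nat_lit 204830) (nat_lit 18) (.e (nat_lit 57925) (nat_lit 282) .nil))))))) (.g (nat_lit 1) (.e (nat_lit 144962) (nat_lit 0) .nil) .nil))) 
(.lf (nat_lit 491424) (.g (nat_lit 3398) (.e (nat_lit 163869) (nat_lit 2) (.e (nat_lit 196666) (nat_lit 13) (.e (nat_lit 65610) (nat_lit 10) (.e (nat_lit 344117) (nat_lit 21) (.e (nat_lit 516145) (nat_lit 9) (.e (nat_lit 425986) (nat_lit 0) (.e (nat_lit 2430) (nat_lit 157) (.e (nat_lit 4849) (nat_lit 285) .nil)))))))) (.g (nat_lit 1) (.e (nat_lit 146117) (nat_lit 0) .nil) .nil)))))) 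
(.nd (nat_lit 7) (.nd (nat_lit 8) (.nd (nat_lit 9) 
(.lf (nat_lit 490592) (.g (nat_lit 3196) (.e (nat_lit 163866) (nat_lit 2) (.e (nat_lit 196666) (nat_lit 13) (.e (nat_lit 65569) (nat_lit 3) (.e (nat_lit 98342) (nat_lit 20) (.e (nat_lit 221213) (nat_lit 23) (.e (nat_lit 204830) (nat_lit 18) (.e (nat_lit 57927) (nat_lit 282) .nil))))))) (.g (nat_lit 1) (.e (nat_lit 144363) (nat_lit 0) .nil) .nil))) 
(.lf (nat_lit 491104) (.g (nat_lit 3296) (.e (nat_lit 163868) (nat_lit 2) (.e (nat_lit 196664) (nat_lit 13) (.e (nat_lit 65571) (nat_lit 3) (.e (nat_lit 98341) (nat_lit 20) (.e (nat_lit 221214) (nat_lit 23) (.e (nat_lit 204830) (nat_lit 18) (.e (nat_lit 57927) (nat_lit 282) .nil))))))) (.g (nat_lit 1) (.e (nat_lit 145397) (nat_lit 0) .nil) .nil)))) (.nd (nat_lit 9) 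
(.lf (nat_lit 490848) (.g (nat_lit 3438) (.e (nat_lit 163867) (nat_lit 2) (.e (nat_lit 196668) (nat_lit 14) (.e (nat_lit 73747) (nat_lit 3) (.e (nat_lit 516129) (nat_lit 3) (.e (nat_lit 221215) (nat_lit 23) (.e (nat_lit 204830) (nat_lit 18) (.e (nat_lit 57929) (nat_lit 282) .nil))))))) (.g (nat_lit 1) (.e (nat_lit 144812) (nat_lit 0) .nil) .nil))) 
(.lf (nat_lit 491360) (.g (nat_lit 2297) (.e (nat_lit 163869) (nat_lit 2) (.e (nat_lit 196666) (nat_lit 13) (.e (nat_lit 65569) (nat_lit 3) (.e (nat_lit 98342) (nat_lit 20) (.e (nat_lit 221214) (nat_lit 23) (.e (nat_lit 204828) (nat_lit 18) (.e (nat_lit 57931) (nat_lit 282) .nil))))))) (.g (nat_lit 1) (.e (nat_lit 146022) (nat_lit 0) .nil) .nil))))) (.nd (nat_lit 8) (.nd (nat_lit 9) 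
(.lf (nat_lit 490720) (.g (nat_lit 2501) (.e (nat_lit 163867) (nat_lit 2) (.e (nat_lit 196656) (nat_lit 11) (.e (nat_lit 16416) (nat_lit 3) (.e (nat_lit 204835) (nat_lit 19) (.e (nat_lit 106539) (nat_lit 12) .nil))))) (.g (nat_lit 0) (.e (nat_lit 144609) (nat_lit 0) .nil) .nil))) 
(.lf (nat_lit 491232) (.g (nat_lit 2299) (.e (nat_lit 163868) (nat_lit 2) (.e (nat_lit 196670) (nat_lit 14) (.e (nat_lit 73746) (nat_lit 3) (.e (nat_lit 516127) (nat_lit 2) (.e (nat_lit 213038) (nat_lit 13) (.e (nat_lit 229432) (nat_lit 25) (.e (nat_lit 532499) (nat_lit 1) (.e (nat_lit 57927) (nat_lit 282) .nil)))))))) (.g (nat_lit 1) (.e (nat_lit 145667) (nat_lit 0) .nil) .nil)))) 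
(.nd (nat_lit 9) 
(.lf (nat_lit 490976) (.g (nat_lit 1234) (.e (nat_lit 163867) (nat_lit 2) (.e (nat_lit 196670) (nat_lit 14) (.e (nat_lit 73753) (nat_lit 8) (.e (nat_lit 557105) (nat_lit 14) .nil)))) (.g (nat_lit 0) (.e (nat_lit 145052) (nat_lit 0) .nil) .nil))) 
(.lf (nat_lit 491488) (.g (nat_lit 3300) (.e (nat_lit 163869) (nat_lit 2) (.e (nat_lit 196666) (nat_lit 13) (.e (nat_lit 65610) (nat_lit 10) (.e (nat_lit 344117) (nat_lit 21) (.e (nat_lit 516151) (nat_lit 9) (.e (nat_lit 426043) (nat_lit 0) (.e (nat_lit 2416) (nat_lit 157) (.e (nat_lit 4849) (nat_lit 285) .nil)))))))) (.g (nat_lit 1) (.e (nat_lit 146228) (nat_lit 0) .nil) .nil)))))))) 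
(.nd (nat_lit 5) (.nd (nat_lit 6) (.nd (nat_lit 7) (.nd (nat_lit 8) (.nd (nat_lit 9) 
(.lf (nat_lit 490512) (.g (nat_lit 2137) (.e (nat_lit 163864) (nat_lit 1) (.e (nat_lit 164332) (nat_lit 230) (.e (nat_lit 163902) (nat_lit 12) (.e (nat_lit 426472) (nat_lit 25) (.e (nat_lit 319533) (nat_lit 16) (.e (nat_lit 286753) (nat_lit 10) (.e (nat_lit 344087) (nat_lit 18) (.e (nat_lit 7287) (nat_lit 386) .nil)))))))) (.g (nat_lit 1) (.e (nat_lit 144158) (nat_lit 0) .nil) .nil))) 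
(.lf (nat_lit 491024) (.g (nat_lit 970) (.e (nat_lit 163868) (nat_lit 2) (.e (nat_lit 196653) (nat_lit 11) (.e (nat_lit 16465) (nat_lit 13) (.e (nat_lit 483339) (nat_lit 9) .nil)))) (.g (nat_lit 0) (.e (nat_lit 145256) (nat_lit 0) .nil) .nil)))) (.nd (nat_lit 9) 
(.lf (nat_lit 490768) (.g (nat_lit 3348) (.e (nat_lit 163867) (nat_lit 2) (.e (nat_lit 196663) (nat_lit 13) (.e (nat_lit 65571) (nat_lit 3) (.e (nat_lit 98342) (nat_lit 20) (.e (nat_lit 221215) (nat_lit 23) (.e (nat_lit 204830) (nat_lit 18) (.e (nat_lit 57924) (nat_lit 282) .nil))))))) (.g (nat_lit 1) (.e (nat_lit 144683) (nat_lit 0) .nil) .nil))) 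
(.lf (nat_lit 491280) (.g (nat_lit 2585) (.e (nat_lit 163868) (nat_lit 2) (.e (nat_lit 196681) (nat_lit 17) (.e (nat_lit 131105) (nat_lit 9) (.e (nat_lit 336456) (nat_lit 34) (.e (nat_lit 483363) (nat_lit 18) (.e (nat_lit 57927) (nat_lit 282) .nil)))))) (.g (nat_lit 1) (.e (nat_lit 145887) (nat_lit 0) .nil) .nil))))) (.nd (nat_lit 8) (.nd (nat_lit 9) 
(.lf (nat_lit 490640) (.g (nat_lit 4159) (.e (nat_lit 163866) (nat_lit 2) (.e (nat_lit 196668) (nat_lit 14) (.e (nat_lit 73747) (nat_lit 3) (.e (nat_lit 516129) (nat_lit 3) (.e (nat_lit 221214) (nat_lit 23) (.e (nat_lit 204830) (nat_lit 18) (.e (nat_lit 57927) (nat_lit 282) .nil))))))) (.g (nat_lit 1) (.e (nat_lit 144430) (nat_lit 0) .nil) .nil))) 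
(.lf (nat_lit 491152) (.g (nat_lit 2644) (.e (nat_lit 163868) (nat_lit 2) (.e (nat_lit 196668) (nat_lit 14) (.e (nat_lit 73747) (nat_lit 3) (.e (nat_lit 516129) (nat_lit 3) (.e (nat_lit 221204) (nat_lit 20) (.e (nat_lit 3253) (nat_lit 197) (.e (nat_lit 532501) (nat_lit 1) (.e (nat_lit 57924) (nat_lit 282) .nil)))))))) (.g (nat_lit 1) (.e (nat_lit 145493) (nat_lit 0) .nil) .nil)))) 
(.nd (nat_lit 9) 
(.lf (nat_lit 490896) (.g (nat_lit 2646) (.e (nat_lit 163867) (nat_lit 2) (.e (nat_lit 196670) (nat_lit 14) (.e (nat_lit 73746) (nat_lit 3) (.e (nat_lit 516129) (nat_lit 3) (.e (nat_lit 221197) (nat_lit 20) (.e (nat_lit 3230) (nat_lit 197) (.e (nat_lit 532503) (nat_lit 1) (.e (nat_lit 57924) (nat_lit 282) .nil)))))))) (.g (nat_lit 1) (.e (nat_lit 144944) (nat_lit 0) .nil) .nil))) 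
(.lf (nat_lit 491408) (.g (nat_lit 4578) (.e (nat_lit 163869) (nat_lit 2) (.e (nat_lit 196666) (nat_lit 13) (.e (nat_lit 65571) (nat_lit 3) (.e (nat_lit 98342) (nat_lit 20) (.e (nat_lit 221215) (nat_lit 23) (.e (nat_lit 204829) (nat_lit 18) (.e (nat_lit 57927) (nat_lit 282) .nil))))))) (.g (nat_lit 1) (.e (nat_lit 146085) (nat_lit 0) .nil) .nil)))))) 
(.nd (nat_lit 7) (.nd (nat_lit 8) (.nd (nat_lit 9) 
(.lf (nat_lit 490576) (.g (nat_lit 1581) (.e (nat_lit 163866) (nat_lit 2) (.e (nat_lit 196655) (nat_lit 11) (.e (nat_lit 16465) (nat_lit 13) (.e (nat_lit 483341) (nat_lit 9) (.e (nat_lit 426107) (nat_lit 1) .nil))))) (.g (nat_lit 0) (.e (nat_lit 144344) (nat_lit 0) .nil) .nil))) 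
(.lf (nat_lit 491088) (.g (nat_lit 2627) (.e (nat_lit 163868) (nat_lit 2) (.e (nat_lit 196663) (nat_lit 13) (.e (nat_lit 65571) (nat_lit 3) (.e (nat_lit 98341) (nat_lit 20) (.e (nat_lit 221202) (nat_lit 20) (.e (nat_lit 3249) (nat_lit 197) (.e (nat_lit 532499) (nat_lit 1) (.e (nat_lit 57927) (nat_lit 282) .nil)))))))) (.g (nat_lit 1) (.e (nat_lit 145378) (nat_lit 0) .nil) .nil)))) 
(.nd (nat_lit 9) 
(.lf (nat_lit 490832) (.g (nat_lit 2207) (.e (nat_lit 163867) (nat_lit 2) (.e (nat_lit 196668) (nat_lit 14) (.e (nat_lit 73747) (nat_lit 3) (.e (nat_lit 516129) (nat_lit 3) (.e (nat_lit 221214) (nat_lit 23) (.e (nat_lit 204828) (nat_lit 18) (.e (nat_lit 57930) (nat_lit 282) .nil))))))) (.g (nat_lit 1) (.e (nat_lit 144793) (nat_lit 0) .nil) .nil))) 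
(.lf (nat_lit 491344) (.g (nat_lit 2488) (.e (nat_lit 163869) (nat_lit 2) (.e (nat_lit 196664) (nat_lit 13) (.e (nat_lit 65571) (nat_lit 3) (.e (nat_lit 98341) (nat_lit 20) (.e (nat_lit 221214) (nat_lit 23) (.e (nat_lit 204830) (nat_lit 18) (.e (nat_lit 57929) (nat_lit 282) .nil))))))) (.g (nat_lit 1) (.e (nat_lit 146003) (nat_lit 0) .nil) .nil))))) (.nd (nat_lit 8) (.nd (nat_lit 9) 
(.lf (nat_lit 490704) (.g (nat_lit 1703) (.e (nat_lit 163867) (nat_lit 2) (.e (nat_lit 196654) (nat_lit 11) (.e (nat_lit 16416) (nat_lit 3) (.e (nat_lit 204834) (nat_lit 19) .nil)))) (.g (nat_lit 0) (.e (nat_lit 144574) (nat_lit 0) .nil) .nil))) 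
(.lf (nat_lit 491216) (.g (nat_lit 4213) (.e (nat_lit 163868) (nat_lit 2) (.e (nat_lit 196668) (nat_lit 14) (.e (nat_lit 73753) (nat_lit 8) (.e (nat_lit 557103) (nat_lit 14) (.e (nat_lit 180244) (nat_lit 5) (.e (nat_lit 532503) (nat_lit 1) (.e (nat_lit 65280) (nat_lit 168) .nil))))))) (.g (nat_lit 1) (.e (nat_lit 145650) (nat_lit 0) .nil) .nil)))) (.nd (nat_lit 9) 
(.lf (nat_lit 490960) (.g (nat_lit 4132) (.e (nat_lit 163867) (nat_lit 2) (.e (nat_lit 196670) (nat_lit 14) (.e (nat_lit 73746) (nat_lit 3) (.e (nat_lit 516131) (nat_lit 3) (.e (nat_lit 221215) (nat_lit 23) (.e (nat_lit 204830) (nat_lit 18) (.e (nat_lit 57931) (nat_lit 282) .nil))))))) (.g (nat_lit 1) (.e (nat_lit 145013) (nat_lit 0) .nil) .nil))) 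
(.lf (nat_lit 491472) (.g (nat_lit 3728) (.e (nat_lit 163869) (nat_lit 2) (.e (nat_lit 196666) (nat_lit 13) (.e (nat_lit 65610) (nat_lit 10) (.e (nat_lit 344117) (nat_lit 21) (.e (nat_lit 516151) (nat_lit 9) (.e (nat_lit 426040) (nat_lit 0) (.e (nat_lit 2423) (nat_lit 157) (.e (nat_lit 7936) (nat_lit 285) .nil)))))))) (.g (nat_lit 1) (.e (nat_lit 146212) (nat_lit 0) .nil) .nil))))))) 
(.nd (nat_lit 6) (.nd (nat_lit 7) (.nd (nat_lit 8) (.nd (nat_lit 9) 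
(.lf (nat_lit 490544) (.g (nat_lit 2110) (.e (nat_lit 163865) (nat_lit 2) (.e (nat_lit 196666) (nat_lit 13) (.e (nat_lit 65610) (nat_lit 10) (.e (nat_lit 344117) (nat_lit 21) .nil)))) (.g (nat_lit 0) (.e (nat_lit 144294) (nat_lit 0) .nil) .nil))) 
(.lf (nat_lit 491056) (.g (nat_lit 1734) (.e (nat_lit 163868) (nat_lit 2) (.e (nat_lit 196656) (nat_lit 11) (.e (nat_lit 16416) (nat_lit 3) (.e (nat_lit 204833) (nat_lit 19) .nil)))) (.g (nat_lit 0) (.e (nat_lit 145325) (nat_lit 0) .nil) .nil)))) (.nd (nat_lit 9) 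
(.lf (nat_lit 490800) (.g (nat_lit 2842) (.e (nat_lit 163867) (nat_lit 2) (.e (nat_lit 196668) (nat_lit 14) (.e (nat_lit 73746) (nat_lit 3) (.e (nat_lit 516129) (nat_lit 3) (.e (nat_lit 221215) (nat_lit 23) (.e (nat_lit 204829) (nat_lit 18) (.e (nat_lit 57925) (nat_lit 282) .nil))))))) (.g (nat_lit 1) (.e (nat_lit 144739) (nat_lit 0) .nil) .nil))) 
(.lf (nat_lit 491312) (.g (nat_lit 1394) (.e (nat_lit 163869) (nat_lit 2) (.e (nat_lit 196656) (nat_lit 11) (.e (nat_lit 16416) (nat_lit 3) (.e (nat_lit 204837) (nat_lit 20) .nil)))) (.g (nat_lit 0) (.e (nat_lit 145965) (nat_lit 0) .nil) .nil))))) (.nd (nat_lit 8) (.nd (nat_lit 9) 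
(.lf (nat_lit 490672) (.g (nat_lit 2909) (.e (nat_lit 163866) (nat_lit 2) (.e (nat_lit 196672) (nat_lit 15) (.e (nat_lit 81927) (nat_lit 11) (.e (nat_lit 426500) (nat_lit 27) (.e (nat_lit 335995) (nat_lit 1) (.e (nat_lit 57931) (nat_lit 282) .nil)))))) (.g (nat_lit 1) (.e (nat_lit 144464) (nat_lit 0) .nil) .nil))) 
(.lf (nat_lit 491184) (.g (nat_lit 2767) (.e (nat_lit 163868) (nat_lit 2) (.e (nat_lit 196668) (nat_lit 14) (.e (nat_lit 73747) (nat_lit 3) (.e (nat_lit 516130) (nat_lit 3) (.e (nat_lit 221214) (nat_lit 23) (.e (nat_lit 204829) (nat_lit 18) (.e (nat_lit 57927) (nat_lit 282) .nil))))))) (.g (nat_lit 1) (.e (nat_lit 145559) (nat_lit 0) .nil) .nil)))) (.nd (nat_lit 9) 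
(.lf (nat_lit 490928) (.g (nat_lit 4271) (.e (nat_lit 163867) (nat_lit 2) (.e (nat_lit 196670) (nat_lit 14) (.e (nat_lit 73746) (nat_lit 3) (.e (nat_lit 516129) (nat_lit 3) (.e (nat_lit 221215) (nat_lit 23) (.e (nat_lit 204830) (nat_lit 18) (.e (nat_lit 57926) (nat_lit 282) .nil))))))) (.g (nat_lit 1) (.e (nat_lit 144978) (nat_lit 0) .nil) .nil))) 
(.lf (nat_lit 491440) (.g (nat_lit 3359) (.e (nat_lit 163869) (nat_lit 2) (.e (nat_lit 196666) (nat_lit 13) (.e (nat_lit 65610) (nat_lit 10) (.e (nat_lit 344117) (nat_lit 21) (.e (nat_lit 516151) (nat_lit 9) (.e (nat_lit 426017) (nat_lit 0) (.e (nat_lit 2431) (nat_lit 157) (.e (nat_lit 7936) (nat_lit 285) .nil)))))))) (.g (nat_lit 1) (.e (nat_lit 146180) (nat_lit 0) .nil) .nil)))))) 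
(.nd (nat_lit 7) (.nd (nat_lit 8) (.nd (nat_lit 9) 
(.lf (nat_lit 490608) (.g (nat_lit 2534) (.e (nat_lit 163866) (nat_lit 2) (.e (nat_lit 196666) (nat_lit 13) (.e (nat_lit 65571) (nat_lit 3) (.e (nat_lit 98341) (nat_lit 20) (.e (nat_lit 221214) (nat_lit 23) (.e (nat_lit 204831) (nat_lit 18) (.e (nat_lit 57931) (nat_lit 282) .nil))))))) (.g (nat_lit 1) (.e (nat_lit 144379) (nat_lit 0) .nil) .nil))) 
(.lf (nat_lit 491120) (.g (nat_lit 4501) (.e (nat_lit 163868) (nat_lit 2) (.e (nat_lit 196668) (nat_lit 14) (.e (nat_lit 73746) (nat_lit 3) (.e (nat_lit 516129) (nat_lit 3) (.e (nat_lit 221214) (nat_lit 23) (.e (nat_lit 204829) (nat_lit 18) (.e (nat_lit 57926) (nat_lit 282) .nil))))))) (.g (nat_lit 1) (.e (nat_lit 145439) (nat_lit 0) .nil) .nil)))) (.nd (nat_lit 9) 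
(.lf (nat_lit 490864) (.g (nat_lit 3829) (.e (nat_lit 163867) (nat_lit 2) (.e (nat_lit 196668) (nat_lit 14) (.e (nat_lit 73747) (nat_lit 3) (.e (nat_lit 516131) (nat_lit 3) (.e (nat_lit 221214) (nat_lit 23) (.e (nat_lit 204830) (nat_lit 18) (.e (nat_lit 57925) (nat_lit 282) .nil))))))) (.g (nat_lit 1) (.e (nat_lit 144836) (nat_lit 0) .nil) .nil))) 
(.lf (nat_lit 491376) (.g (nat_lit 3446) (.e (nat_lit 163869) (nat_lit 2) (.e (nat_lit 196666) (nat_lit 13) (.e (nat_lit 65571) (nat_lit 3) (.e (nat_lit 98341) (nat_lit 20) (.e (nat_lit 221214) (nat_lit 23) (.e (nat_lit 204829) (nat_lit 18) (.e (nat_lit 57926) (nat_lit 282) .nil))))))) (.g (nat_lit 1) (.e (nat_lit 146047) (nat_lit 0) .nil) .nil))))) (.nd (nat_lit 8) (.nd (nat_lit 9) 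
(.lf (nat_lit 490736) (.g (nat_lit 1219) (.e (nat_lit 163867) (nat_lit 2) (.e (nat_lit 196656) (nat_lit 11) (.e (nat_lit 16465) (nat_lit 13) (.e (nat_lit 483341) (nat_lit 9) .nil)))) (.g (nat_lit 0) (.e (nat_lit 144641) (nat_lit 0) .nil) .nil))) 
(.lf (nat_lit 491248) (.g (nat_lit 4502) (.e (nat_lit 163868) (nat_lit 2) (.e (nat_lit 196670) (nat_lit 14) (.e (nat_lit 73746) (nat_lit 3) (.e (nat_lit 516129) (nat_lit 3) (.e (nat_lit 221215) (nat_lit 23) (.e (nat_lit 204830) (nat_lit 18) (.e (nat_lit 57927) (nat_lit 282) .nil))))))) (.g (nat_lit 1) (.e (nat_lit 145683) (nat_lit 0) .nil) .nil)))) (.nd (nat_lit 9) 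
(.lf (nat_lit 490992) (.g (nat_lit 2637) (.e (nat_lit 163867) (nat_lit 2) (.e (nat_lit 196672) (nat_lit 15) (.e (nat_lit 81927) (nat_lit 11) (.e (nat_lit 426500) (nat_lit 27) (.e (nat_lit 335988) (nat_lit 1) (.e (nat_lit 57927) (nat_lit 282) .nil)))))) (.g (nat_lit 1) (.e (nat_lit 145074) (nat_lit 0) .nil) .nil))) 
(.lf (nat_lit 491504) (.g (nat_lit 3372) (.e (nat_lit 163869) (nat_lit 2) (.e (nat_lit 196666) (nat_lit 13) (.e (nat_lit 65610) (nat_lit 10) (.e (nat_lit 344117) (nat_lit 21) (.e (nat_lit 516151) (nat_lit 9) (.e (nat_lit 426103) (nat_lit 1) (.e (nat_lit 171776) (nat_lit 219) .nil))))))) (.g (nat_lit 1) (.e (nat_lit 146244) (nat_lit 0) .nil) .nil))))))))) 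
(.nd (nat_lit 4) (.nd (nat_lit 5) (.nd (nat_lit 6) (.nd (nat_lit 7) (.nd (nat_lit 8) 
(.nd (nat_lit 9) 
(.lf (nat_lit 490504) (.g (nat_lit 3092) (.e (nat_lit 163864) (nat_lit 1) (.e (nat_lit 164332) (nat_lit 230) (.e (nat_lit 163902) (nat_lit 12) (.e (nat_lit 426438) (nat_lit 18) (.e (nat_lit 98373) (nat_lit 29) (.e (nat_lit 450560) (nat_lit 0) (.e (nat_lit 6838) (nat_lit 369) .nil))))))) (.g (nat_lit 1) (.e (nat_lit 144150) (nat_lit 0) .nil) .nil))) 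
(.lf (nat_lit 491016) (.g (nat_lit 2911) (.e (nat_lit 163867) (nat_lit 2) (.e (nat_lit 196681) (nat_lit 17) (.e (nat_lit 131109) (nat_lit 9) (.e (nat_lit 336454) (nat_lit 34) (.e (nat_lit 483366) (nat_lit 18) (.e (nat_lit 57931) (nat_lit 282) .nil)))))) (.g (nat_lit 1) (.e (nat_lit 145203) (nat_lit 0) .nil) .nil)))) (.nd (nat_lit 9) 
(.lf (nat_lit 490760) (.g (nat_lit 4411) (.e (nat_lit 163867) (nat_lit 2) (.e (nat_lit 196663) (nat_lit 13) (.e (nat_lit 65571) (nat_lit 3) (.e (nat_lit 98342) (nat_lit 20) (.e (nat_lit 221214) (nat_lit 23) (.e (nat_lit 204829) (nat_lit 18) (.e (nat_lit 57931) (nat_lit 282) .nil))))))) (.g (nat_lit 1) (.e (nat_lit 144674) (nat_lit 0) .nil) .nil))) 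
(.lf (nat_lit 491272) (.g (nat_lit 1911) (.e (nat_lit 163868) (nat_lit 2) (.e (nat_lit 196672) (nat_lit 15) (.e (nat_lit 81927) (nat_lit 11) (.e (nat_lit 426500) (nat_lit 27) (.e (nat_lit 335988) (nat_lit 1) (.e (nat_lit 57924) (nat_lit 282) .nil)))))) (.g (nat_lit 1) (.e (nat_lit 145708) (nat_lit 0) .nil) .nil))))) (.nd (nat_lit 8) (.nd (nat_lit 9) 
(.lf (nat_lit 490632) (.g (nat_lit 781) (.e (nat_lit 163866) (nat_lit 2) (.e (nat_lit 196668) (nat_lit 14) (.e (nat_lit 73746) (nat_lit 3) .nil))) (.g (nat_lit 0) (.e (nat_lit 144409) (nat_lit 0) .nil) .nil))) 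
(.lf (nat_lit 491144) (.g (nat_lit 3091) (.e (nat_lit 163868) (nat_lit 2) (.e (nat_lit 196668) (nat_lit 14) (.e (nat_lit 73746) (nat_lit 3) (.e (nat_lit 516131) (nat_lit 3) (.e (nat_lit 221215) (nat_lit 23) (.e (nat_lit 204829) (nat_lit 18) (.e (nat_lit 57928) (nat_lit 282) .nil))))))) (.g (nat_lit 1) (.e (nat_lit 145476) (nat_lit 0) .nil) .nil)))) (.nd (nat_lit 9) 
(.lf (nat_lit 490888) (.g (nat_lit 2853) (.e (nat_lit 163867) (nat_lit 2) (.e (nat_lit 196669) (nat_lit 14) (.e (nat_lit 73755) (nat_lit 8) (.e (nat_lit 557104) (nat_lit 14) (.e (nat_lit 180244) (nat_lit 5) (.e (nat_lit 532503) (nat_lit 1) (.e (nat_lit 65280) (nat_lit 168) .nil))))))) (.g (nat_lit 1) (.e (nat_lit 144890) (nat_lit 0) .nil) .nil))) 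
(.lf (nat_lit 491400) (.g (nat_lit 4878) (.e (nat_lit 163869) (nat_lit 2) (.e (nat_lit 196666) (nat_lit 13) (.e (nat_lit 65571) (nat_lit 3) (.e (nat_lit 98342) (nat_lit 20) (.e (nat_lit 221214) (nat_lit 23) (.e (nat_lit 204829) (nat_lit 18) (.e (nat_lit 57927) (nat_lit 282) .nil))))))) (.g (nat_lit 1) (.e (nat_lit 146075) (nat_lit 0) .nil) .nil)))))) 
(.nd (nat_lit 7) (.nd (nat_lit 8) (.nd (nat_lit 9) 
(.lf (nat_lit 490568) (.g (nat_lit 416) (.e (nat_lit 163866) (nat_lit 2) (.e (nat_lit 196654) (nat_lit 11) (.e (nat_lit 16466) (nat_lit 13) .nil))) (.g (nat_lit 0) (.e (nat_lit 144334) (nat_lit 0) .nil) .nil))) 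
(.lf (nat_lit 491080) (.g (nat_lit 2216) (.e (nat_lit 163868) (nat_lit 2) (.e (nat_lit 196663) (nat_lit 13) (.e (nat_lit 65569) (nat_lit 3) (.e (nat_lit 98341) (nat_lit 20) (.e (nat_lit 221215) (nat_lit 23) (.e (nat_lit 204830) (nat_lit 18) (.e (nat_lit 57927) (nat_lit 282) .nil))))))) (.g (nat_lit 1) (.e (nat_lit 145369) (nat_lit 0) .nil) .nil)))) (.nd (nat_lit 9) 
(.lf (nat_lit 490824) (.g (nat_lit 1035) (.e (nat_lit 163867) (nat_lit 2) (.e (nat_lit 196668) (nat_lit 14) (.e (nat_lit 73747) (nat_lit 3) (.e (nat_lit 516129) (nat_lit 3) .nil)))) (.g (nat_lit 0) (.e (nat_lit 144777) (nat_lit 0) .nil) .nil))) 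
(.lf (nat_lit 491336) (.g (nat_lit 2502) (.e (nat_lit 163869) (nat_lit 2) (.e (nat_lit 196663) (nat_lit 13) (.e (nat_lit 65571) (nat_lit 3) (.e (nat_lit 98341) (nat_lit 20) (.e (nat_lit 221214) (nat_lit 23) (.e (nat_lit 204830) (nat_lit 18) (.e (nat_lit 57929) (nat_lit 282) .nil))))))) (.g (nat_lit 1) (.e (nat_lit 145995) (nat_lit 0) .nil) .nil))))) (.nd (nat_lit 8) (.nd (nat_lit 9) 
(.lf (nat_lit 490696) (.g (nat_lit 2917) (.e (nat_lit 163866) (nat_lit 2) (.e (nat_lit 196681) (nat_lit 17) (.e (nat_lit 131109) (nat_lit 9) (.e (nat_lit 336454) (nat_lit 34) (.e (nat_lit 483366) (nat_lit 18) (.e (nat_lit 57931) (nat_lit 282) .nil)))))) (.g (nat_lit 1) (.e (nat_lit 144510) (nat_lit 0) .nil) .nil))) 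
(.lf (nat_lit 491208) (.g (nat_lit 4821) (.e (nat_lit 163868) (nat_lit 2) (.e (nat_lit 196668) (nat_lit 14) (.e (nat_lit 73747) (nat_lit 3) (.e (nat_lit 516131) (nat_lit 3) (.e (nat_lit 221215) (nat_lit 23) (.e (nat_lit 204830) (nat_lit 18) (.e (nat_lit 57926) (nat_lit 282) .nil))))))) (.g (nat_lit 1) (.e (nat_lit 145604) (nat_lit 0) .nil) .nil)))) (.nd (nat_lit 9) 
(.lf (nat_lit 490952) (.g (nat_lit 3376) (.e (nat_lit 163867) (nat_lit 2) (.e (nat_lit 196670) (nat_lit 14) (.e (nat_lit 73746) (nat_lit 3) (.e (nat_lit 516131) (nat_lit 3) (.e (nat_lit 221215) (nat_lit 23) (.e (nat_lit 204829) (nat_lit 18) (.e (nat_lit 57925) (nat_lit 282) .nil))))))) (.g (nat_lit 1) (.e (nat_lit 145005) (nat_lit 0) .nil) .nil))) 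
(.lf (nat_lit 491464) (.g (nat_lit 4943) (.e (nat_lit 163869) (nat_lit 2) (.e (nat_lit 196666) (nat_lit 13) (.e (nat_lit 65610) (nat_lit 10) (.e (nat_lit 344117) (nat_lit 21) (.e (nat_lit 516151) (nat_lit 9) (.e (nat_lit 426038) (nat_lit 0) (.e (nat_lit 2416) (nat_lit 157) (.e (nat_lit 4849) (nat_lit 285) .nil)))))))) (.g (nat_lit 1) (.e (nat_lit 146204) (nat_lit 0) .nil) .nil))))))) 
(.nd (nat_lit 6) (.nd (nat_lit 7) (.nd (nat_lit 8) (.nd (nat_lit 9) 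
(.lf (nat_lit 490536) (.g (nat_lit 1915) (.e (nat_lit 163865) (nat_lit 2) (.e (nat_lit 196654) (nat_lit 11) (.e (nat_lit 16433) (nat_lit 9) (.e (nat_lit 426566) (nat_lit 34) (.e (nat_lit 393254) (nat_lit 18) (.e (nat_lit 164326) (nat_lit 230) .nil)))))) (.g (nat_lit 1) (.e (nat_lit 144286) (nat_lit 0) .nil) .nil))) 
(.lf (nat_lit 491048) (.g (nat_lit 1434) (.e (nat_lit 163868) (nat_lit 2) (.e (nat_lit 196654) (nat_lit 11) (.e (nat_lit 16466) (nat_lit 13) (.e (nat_lit 483336) (nat_lit 9) .nil)))) (.g (nat_lit 0) (.e (nat_lit 145303) (nat_lit 0) .nil) .nil)))) (.nd (nat_lit 9) 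
(.lf (nat_lit 490792) (.g (nat_lit 4775) (.e (nat_lit 163867) (nat_lit 2) (.e (nat_lit 196668) (nat_lit 14) (.e (nat_lit 73746) (nat_lit 3) (.e (nat_lit 516129) (nat_lit 3) (.e (nat_lit 221214) (nat_lit 23) (.e (nat_lit 204829) (nat_lit 18) (.e (nat_lit 57931) (nat_lit 282) .nil))))))) (.g (nat_lit 1) (.e (nat_lit 144731) (nat_lit 0) .nil) .nil))) 
(.lf (nat_lit 491304) (.g (nat_lit 2166) (.e (nat_lit 163869) (nat_lit 2) (.e (nat_lit 196654) (nat_lit 11) (.e (nat_lit 16463) (nat_lit 13) (.e (nat_lit 483340) (nat_lit 9) .nil)))) (.g (nat_lit 0) (.e (nat_lit 145946) (nat_lit 0) .nil) .nil))))) (.nd (nat_lit 8) (.nd (nat_lit 9) 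
(.lf (nat_lit 490664) (.g (nat_lit 2969) (.e (nat_lit 163866) (nat_lit 2) (.e (nat_lit 196670) (nat_lit 14) (.e (nat_lit 73746) (nat_lit 3) (.e (nat_lit 516129) (nat_lit 3) (.e (nat_lit 221215) (nat_lit 23) (.e (nat_lit 204829) (nat_lit 18) (.e (nat_lit 57931) (nat_lit 282) .nil))))))) (.g (nat_lit 1) (.e (nat_lit 144456) (nat_lit 0) .nil) .nil))) 
(.lf (nat_lit 491176) (.g (nat_lit 3687) (.e (nat_lit 163868) (nat_lit 2) (.e (nat_lit 196668) (nat_lit 14) (.e (nat_lit 73747) (nat_lit 3) (.e (nat_lit 516129) (nat_lit 3) (.e (nat_lit 221215) (nat_lit 23) (.e (nat_lit 204829) (nat_lit 18) (.e (nat_lit 57925) (nat_lit 282) .nil))))))) (.g (nat_lit 1) (.e (nat_lit 145550) (nat_lit 0) .nil) .nil)))) (.nd (nat_lit 9) 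
(.lf (nat_lit 490920) (.g (nat_lit 3572) (.e (nat_lit 163867) (nat_lit 2) (.e (nat_lit 196670) (nat_lit 14) (.e (nat_lit 73746) (nat_lit 3) (.e (nat_lit 516129) (nat_lit 3) (.e (nat_lit 221215) (nat_lit 23) (.e (nat_lit 204828) (nat_lit 18) (.e (nat_lit 57931) (nat_lit 282) .nil))))))) (.g (nat_lit 1) (.e (nat_lit 144970) (nat_lit 0) .nil) .nil))) 
(.lf (nat_lit 491432) (.g (nat_lit 4267) (.e (nat_lit 163869) (nat_lit 2) (.e (nat_lit 196666) (nat_lit 13) (.e (nat_lit 65610) (nat_lit 10) (.e (nat_lit 344117) (nat_lit 21) (.e (nat_lit 516145) (nat_lit 9) (.e (nat_lit 426454) (nat_lit 21) (.e (nat_lit 130816) (nat_lit 174) .nil))))))) (.g (nat_lit 1) (.e (nat_lit 146172) (nat_lit 0) .nil) .nil)))))) 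
(.nd (nat_lit 7) (.nd (nat_lit 8) (.nd (nat_lit 9) 
(.lf (nat_lit 490600) (.g (nat_lit 3712) (.e (nat_lit 163866) (nat_lit 2) (.e (nat_lit 196666) (nat_lit 13) (.e (nat_lit 65569) (nat_lit 3) (.e (nat_lit 98342) (nat_lit 20) (.e (nat_lit 221214) (nat_lit 23) (.e (nat_lit 204831) (nat_lit 18) (.e (nat_lit 57931) (nat_lit 282) .nil))))))) (.g (nat_lit 1) (.e (nat_lit 144371) (nat_lit 0) .nil) .nil))) 
(.lf (nat_lit 491112) (.g (nat_lit 2677) (.e (nat_lit 163868) (nat_lit 2) (.e (nat_lit 196666) (nat_lit 13) (.e (nat_lit 65571) (nat_lit 3) (.e (nat_lit 98342) (nat_lit 20) (.e (nat_lit 221214) (nat_lit 23) .nil))))) (.g (nat_lit 0) (.e (nat_lit 145405) (nat_lit 0) .nil) .nil)))) (.nd (nat_lit 9) 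
(.lf (nat_lit 490856) (.g (nat_lit 2274) (.e (nat_lit 163867) (nat_lit 2) (.e (nat_lit 196668) (nat_lit 14) (.e (nat_lit 73747) (nat_lit 3) (.e (nat_lit 516130) (nat_lit 3) (.e (nat_lit 221214) (nat_lit 23) (.e (nat_lit 204830) (nat_lit 18) (.e (nat_lit 57925) (nat_lit 282) .nil))))))) (.g (nat_lit 1) (.e (nat_lit 144820) (nat_lit 0) .nil) .nil))) 
(.lf (nat_lit 491368) (.g (nat_lit 4247) (.e (nat_lit 163869) (nat_lit 2) (.e (nat_lit 196666) (nat_lit 13) (.e (nat_lit 65569) (nat_lit 3) (.e (nat_lit 98342) (nat_lit 20) (.e (nat_lit 221215) (nat_lit 23) (.e (nat_lit 204830) (nat_lit 18) (.e (nat_lit 57927) (nat_lit 282) .nil))))))) (.g (nat_lit 1) (.e (nat_lit 146030) (nat_lit 0) .nil) .nil))))) (.nd (nat_lit 8) (.nd (nat_lit 9) 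
(.lf (nat_lit 490728) (.g (nat_lit 3861) (.e (nat_lit 163867) (nat_lit 2) (.e (nat_lit 196656) (nat_lit 11) (.e (nat_lit 16434) (nat_lit 9) (.e (nat_lit 426566) (nat_lit 34) (.e (nat_lit 393253) (nat_lit 18) (.e (nat_lit 164332) (nat_lit 230) .nil)))))) (.g (nat_lit 1) (.e (nat_lit 144619) (nat_lit 0) .nil) .nil))) 
(.lf (nat_lit 491240) (.g (nat_lit 2488) (.e (nat_lit 163868) (nat_lit 2) (.e (nat_lit 196670) (nat_lit 14) (.e (nat_lit 73746) (nat_lit 3) (.e (nat_lit 516129) (nat_lit 3) (.e (nat_lit 221214) (nat_lit 23) (.e (nat_lit 204830) (nat_lit 18) (.e (nat_lit 57924) (nat_lit 282) .nil))))))) (.g (nat_lit 1) (.e (nat_lit 145675) (nat_lit 0) .nil) .nil)))) (.nd (nat_lit 9) 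
(.lf (nat_lit 490984) (.g (nat_lit 2780) (.e (nat_lit 163867) (nat_lit 2) (.e (nat_lit 196670) (nat_lit 14) (.e (nat_lit 73755) (nat_lit 8) (.e (nat_lit 557103) (nat_lit 14) (.e (nat_lit 180244) (nat_lit 5) .nil))))) (.g (nat_lit 0) (.e (nat_lit 145066) (nat_lit 0) .nil) .nil))) 
(.lf (nat_lit 491496) (.g (nat_lit 3655) (.e (nat_lit 163869) (nat_lit 2) (.e (nat_lit 196666) (nat_lit 13) (.e (nat_lit 65610) (nat_lit 10) (.e (nat_lit 344117) (nat_lit 21) (.e (nat_lit 516151) (nat_lit 9) (.e (nat_lit 426050) (nat_lit 0) (.e (nat_lit 2449) (nat_lit 157) (.e (nat_lit 7936) (nat_lit 285) .nil)))))))) (.g (nat_lit 1) (.e (nat_lit 146236) (nat_lit 0) .nil) .nil)))))))) 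
(.nd (nat_lit 5) (.nd (nat_lit 6) (.nd (nat_lit 7) (.nd (nat_lit 8) (.nd (nat_lit 9) 
(.lf (nat_lit 490520) (.g (nat_lit 1748) (.e (nat_lit 163864) (nat_lit 1) (.e (nat_lit 164332) (nat_lit 230) (.e (nat_lit 163905) (nat_lit 12) (.e (nat_lit 426361) (nat_lit 15) .nil)))) (.g (nat_lit 0) (.e (nat_lit 144177) (nat_lit 0) .nil) .nil))) 
(.lf (nat_lit 491032) (.g (nat_lit 1506) (.e (nat_lit 163868) (nat_lit 2) (.e (nat_lit 196654) (nat_lit 11) (.e (nat_lit 16436) (nat_lit 9) (.e (nat_lit 426478) (nat_lit 27) .nil)))) (.g (nat_lit 0) (.e (nat_lit 145276) (nat_lit 0) .nil) .nil)))) (.nd (nat_lit 9) 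
(.lf (nat_lit 490776) (.g (nat_lit 3382) (.e (nat_lit 163867) (nat_lit 2) (.e (nat_lit 196664) (nat_lit 13) (.e (nat_lit 65571) (nat_lit 3) (.e (nat_lit 98342) (nat_lit 20) (.e (nat_lit 221214) (nat_lit 23) (.e (nat_lit 204829) (nat_lit 18) (.e (nat_lit 57931) (nat_lit 282) .nil))))))) (.g (nat_lit 1) (.e (nat_lit 144691) (nat_lit 0) .nil) .nil))) 
(.lf (nat_lit 491288) (.g (nat_lit 642) (.e (nat_lit 163869) (nat_lit 2) (.e (nat_lit 196624) (nat_lit 9) (.e (nat_lit 481) (nat_lit 37) .nil))) (.g (nat_lit 0) (.e (nat_lit 145928) (nat_lit 0) .nil) .nil))))) (.nd (nat_lit 8) (.nd (nat_lit 9) 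
(.lf (nat_lit 490648) (.g (nat_lit 2609) (.e (nat_lit 163866) (nat_lit 2) (.e (nat_lit 196668) (nat_lit 14) (.e (nat_lit 73747) (nat_lit 3) (.e (nat_lit 516131) (nat_lit 3) (.e (nat_lit 221215) (nat_lit 23) (.e (nat_lit 204828) (nat_lit 18) (.e (nat_lit 57927) (nat_lit 282) .nil))))))) (.g (nat_lit 1) (.e (nat_lit 144439) (nat_lit 0) .nil) .nil))) 
(.lf (nat_lit 491160) (.g (nat_lit 2613) (.e (nat_lit 163868) (nat_lit 2) (.e (nat_lit 196668) (nat_lit 14) (.e (nat_lit 73747) (nat_lit 3) (.e (nat_lit 516129) (nat_lit 3) (.e (nat_lit 221214) (nat_lit 23) (.e (nat_lit 204828) (nat_lit 18) (.e (nat_lit 57928) (nat_lit 282) .nil))))))) (.g (nat_lit 1) (.e (nat_lit 145530) (nat_lit 0) .nil) .nil)))) (.nd (nat_lit 9) 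
(.lf (nat_lit 490904) (.g (nat_lit 2698) (.e (nat_lit 163867) (nat_lit 2) (.e (nat_lit 196670) (nat_lit 14) (.e (nat_lit 73746) (nat_lit 3) (.e (nat_lit 516129) (nat_lit 3) (.e (nat_lit 221213) (nat_lit 23) (.e (nat_lit 204831) (nat_lit 18) (.e (nat_lit 57931) (nat_lit 282) .nil))))))) (.g (nat_lit 1) (.e (nat_lit 144954) (nat_lit 0) .nil) .nil))) 
(.lf (nat_lit 491416) (.g (nat_lit 1202) (.e (nat_lit 163869) (nat_lit 2) (.e (nat_lit 196666) (nat_lit 13) (.e (nat_lit 65610) (nat_lit 10) (.e (nat_lit 344117) (nat_lit 21) .nil)))) (.g (nat_lit 0) (.e (nat_lit 146109) (nat_lit 0) .nil) .nil)))))) (.nd (nat_lit 7) (.nd (nat_lit 8) (.nd (nat_lit 9) 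
(.lf (nat_lit 490584) (.g (nat_lit 2259) (.e (nat_lit 163866) (nat_lit 2) (.e (nat_lit 196665) (nat_lit 13) (.e (nat_lit 65626) (nat_lit 13) (.e (nat_lit 393225) (nat_lit 9) (.e (nat_lit 335996) (nat_lit 1) (.e (nat_lit 57929) (nat_lit 282) .nil)))))) (.g (nat_lit 1) (.e (nat_lit 144352) (nat_lit 0) .nil) .nil))) 
(.lf (nat_lit 491096) (.g (nat_lit 3607) (.e (nat_lit 163868) (nat_lit 2) (.e (nat_lit 196663) (nat_lit 13) (.e (nat_lit 65571) (nat_lit 3) (.e (nat_lit 98342) (nat_lit 20) (.e (nat_lit 221213) (nat_lit 23) (.e (nat_lit 204830) (nat_lit 18) (.e (nat_lit 57927) (nat_lit 282) .nil))))))) (.g (nat_lit 1) (.e (nat_lit 145387) (nat_lit 0) .nil) .nil)))) (.nd (nat_lit 9) 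
(.lf (nat_lit 490840) (.g (nat_lit 3334) (.e (nat_lit 163867) (nat_lit 2) (.e (nat_lit 196668) (nat_lit 14) (.e (nat_lit 73747) (nat_lit 3) (.e (nat_lit 516129) (nat_lit 3) (.e (nat_lit 221214) (nat_lit 23) (.e (nat_lit 204831) (nat_lit 18) (.e (nat_lit 57924) (nat_lit 282) .nil))))))) (.g (nat_lit 1) (.e (nat_lit 144801) (nat_lit 0) .nil) .nil))) 
(.lf (nat_lit 491352) (.g (nat_lit 2362) (.e (nat_lit 163869) (nat_lit 2) (.e (nat_lit 196666) (nat_lit 13) (.e (nat_lit 65569) (nat_lit 3) (.e (nat_lit 98341) (nat_lit 20) (.e (nat_lit 221215) (nat_lit 23) (.e (nat_lit 204829) (nat_lit 18) (.e (nat_lit 57926) (nat_lit 282) .nil))))))) (.g (nat_lit 1) (.e (nat_lit 146013) (nat_lit 0) .nil) .nil))))) (.nd (nat_lit 8) (.nd (nat_lit 9) 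
(.lf (nat_lit 490712) (.g (nat_lit 3263) (.e (nat_lit 163867) (nat_lit 2) (.e (nat_lit 196654) (nat_lit 11) (.e (nat_lit 16466) (nat_lit 13) (.e (nat_lit 483341) (nat_lit 9) (.e (nat_lit 426100) (nat_lit 1) (.e (nat_lit 164332) (nat_lit 230) .nil)))))) (.g (nat_lit 1) (.e (nat_lit 144597) (nat_lit 0) .nil) .nil))) 
(.lf (nat_lit 491224) (.g (nat_lit 2319) (.e (nat_lit 163868) (nat_lit 2) (.e (nat_lit 196670) (nat_lit 14) (.e (nat_lit 73746) (nat_lit 3) (.e (nat_lit 516124) (nat_lit 2) (.e (nat_lit 213033) (nat_lit 12) (.e (nat_lit 163965) (nat_lit 25) (.e (nat_lit 532499) (nat_lit 1) (.e (nat_lit 57927) (nat_lit 282) .nil)))))))) (.g (nat_lit 1) (.e (nat_lit 145659) (nat_lit 0) .nil) .nil)))) 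
(.nd (nat_lit 9) 
(.lf (nat_lit 490968) (.g (nat_lit 4193) (.e (nat_lit 163867) (nat_lit 2) (.e (nat_lit 196670) (nat_lit 14) (.e (nat_lit 73753) (nat_lit 8) (.e (nat_lit 557103) (nat_lit 14) (.e (nat_lit 180243) (nat_lit 5) (.e (nat_lit 532503) (nat_lit 1) (.e (nat_lit 65280) (nat_lit 168) .nil))))))) (.g (nat_lit 1) (.e (nat_lit 145042) (nat_lit 0) .nil) .nil))) 
(.lf (nat_lit 491480) (.g (nat_lit 3730) (.e (nat_lit 163869) (nat_lit 2) (.e (nat_lit 196666) (nat_lit 13) (.e (nat_lit 65610) (nat_lit 10) (.e (nat_lit 344117) (nat_lit 21) (.e (nat_lit 516151) (nat_lit 9) (.e (nat_lit 426042) (nat_lit 0) (.e (nat_lit 2424) (nat_lit 157) (.e (nat_lit 4848) (nat_lit 285) .nil)))))))) (.g (nat_lit 1) (.e (nat_lit 146220) (nat_lit 0) .nil) .nil))))))) 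
(.nd (nat_lit 6) (.nd (nat_lit 7) (.nd (nat_lit 8) (.nd (nat_lit 9) 
(.lf (nat_lit 490552) (.g (nat_lit 1677) (.e (nat_lit 163866) (nat_lit 2) (.e (nat_lit 196654) (nat_lit 11) (.e (nat_lit 16416) (nat_lit 3) (.e (nat_lit 204833) (nat_lit 19) .nil)))) (.g (nat_lit 0) (.e (nat_lit 144307) (nat_lit 0) .nil) .nil))) 
(.lf (nat_lit 491064) (.g (nat_lit 3546) (.e (nat_lit 163868) (nat_lit 2) (.e (nat_lit 196656) (nat_lit 11) (.e (nat_lit 16433) (nat_lit 9) (.e (nat_lit 426568) (nat_lit 34) (.e (nat_lit 393253) (nat_lit 18) (.e (nat_lit 164325) (nat_lit 230) .nil)))))) (.g (nat_lit 1) (.e (nat_lit 145341) (nat_lit 0) .nil) .nil)))) (.nd (nat_lit 9) 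
(.lf (nat_lit 490808) (.g (nat_lit 2837) (.e (nat_lit 163867) (nat_lit 2) (.e (nat_lit 196668) (nat_lit 14) (.e (nat_lit 73746) (nat_lit 3) (.e (nat_lit 516129) (nat_lit 3) (.e (nat_lit 221215) (nat_lit 23) (.e (nat_lit 204831) (nat_lit 18) (.e (nat_lit 57924) (nat_lit 282) .nil))))))) (.g (nat_lit 1) (.e (nat_lit 144747) (nat_lit 0) .nil) .nil))) 
(.lf (nat_lit 491320) (.g (nat_lit 835) (.e (nat_lit 163869) (nat_lit 2) (.e (nat_lit 196656) (nat_lit 11) (.e (nat_lit 16458) (nat_lit 12) .nil))) (.g (nat_lit 0) (.e (nat_lit 145974) (nat_lit 0) .nil) .nil))))) (.nd (nat_lit 8) (.nd (nat_lit 9) 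
(.lf (nat_lit 490680) (.g (nat_lit 2992) (.e (nat_lit 163866) (nat_lit 2) (.e (nat_lit 196681) (nat_lit 17) (.e (nat_lit 131105) (nat_lit 9) (.e (nat_lit 336454) (nat_lit 34) (.e (nat_lit 483363) (nat_lit 18) (.e (nat_lit 57931) (nat_lit 282) .nil)))))) (.g (nat_lit 1) (.e (nat_lit 144485) (nat_lit 0) .nil) .nil))) 
(.lf (nat_lit 491192) (.g (nat_lit 2950) (.e (nat_lit 163868) (nat_lit 2) (.e (nat_lit 196668) (nat_lit 14) (.e (nat_lit 73747) (nat_lit 3) (.e (nat_lit 516131) (nat_lit 3) (.e (nat_lit 221213) (nat_lit 23) (.e (nat_lit 204830) (nat_lit 18) (.e (nat_lit 57925) (nat_lit 282) .nil))))))) (.g (nat_lit 1) (.e (nat_lit 145587) (nat_lit 0) .nil) .nil)))) (.nd (nat_lit 9) 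
(.lf (nat_lit 490936) (.g (nat_lit 1650) (.e (nat_lit 163867) (nat_lit 2) (.e (nat_lit 196670) (nat_lit 14) (.e (nat_lit 73746) (nat_lit 3) (.e (nat_lit 516131) (nat_lit 3) (.e (nat_lit 221211) (nat_lit 22) .nil))))) (.g (nat_lit 0) (.e (nat_lit 144986) (nat_lit 0) .nil) .nil))) 
(.lf (nat_lit 491448) (.g (nat_lit 4218) (.e (nat_lit 163869) (nat_lit 2) (.e (nat_lit 196666) (nat_lit 13) (.e (nat_lit 65610) (nat_lit 10) (.e (nat_lit 344117) (nat_lit 21) (.e (nat_lit 516151) (nat_lit 9) (.e (nat_lit 426022) (nat_lit 0) (.e (nat_lit 2397) (nat_lit 157) (.e (nat_lit 4848) (nat_lit 285) .nil)))))))) (.g (nat_lit 1) (.e (nat_lit 146188) (nat_lit 0) .nil) .nil)))))) 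
(.nd (nat_lit 7) (.nd (nat_lit 8) (.nd (nat_lit 9) 
(.lf (nat_lit 490616) (.g (nat_lit 3493) (.e (nat_lit 163866) (nat_lit 2) (.e (nat_lit 196666) (nat_lit 13) (.e (nat_lit 65571) (nat_lit 3) (.e (nat_lit 98342) (nat_lit 20) (.e (nat_lit 221214) (nat_lit 23) (.e (nat_lit 204830) (nat_lit 18) (.e (nat_lit 57927) (nat_lit 282) .nil))))))) (.g (nat_lit 1) (.e (nat_lit 144388) (nat_lit 0) .nil) .nil))) 
(.lf (nat_lit 491128) (.g (nat_lit 2809) (.e (nat_lit 163868) (nat_lit 2) (.e (nat_lit 196668) (nat_lit 14) (.e (nat_lit 73746) (nat_lit 3) (.e (nat_lit 516129) (nat_lit 3) (.e (nat_lit 221215) (nat_lit 23) (.e (nat_lit 204829) (nat_lit 18) (.e (nat_lit 57925) (nat_lit 282) .nil))))))) (.g (nat_lit 1) (.e (nat_lit 145448) (nat_lit 0) .nil) .nil)))) (.nd (nat_lit 9) 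
(.lf (nat_lit 490872) (.g (nat_lit 3498) (.e (nat_lit 163867) (nat_lit 2) (.e (nat_lit 196668) (nat_lit 14) (.e (nat_lit 73747) (nat_lit 3) (.e (nat_lit 516131) (nat_lit 3) (.e (nat_lit 221215) (nat_lit 23) (.e (nat_lit 204831) (nat_lit 18) (.e (nat_lit 57924) (nat_lit 282) .nil))))))) (.g (nat_lit 1) (.e (nat_lit 144846) (nat_lit 0) .nil) .nil))) 
(.lf (nat_lit 491384) (.g (nat_lit 4120) (.e (nat_lit 163869) (nat_lit 2) (.e (nat_lit 196666) (nat_lit 13) (.e (nat_lit 65571) (nat_lit 3) (.e (nat_lit 98341) (nat_lit 20) (.e (nat_lit 221215) (nat_lit 23) (.e (nat_lit 204829) (nat_lit 18) (.e (nat_lit 57927) (nat_lit 282) .nil))))))) (.g (nat_lit 1) (.e (nat_lit 146055) (nat_lit 0) .nil) .nil))))) (.nd (nat_lit 8) (.nd (nat_lit 9) 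
(.lf (nat_lit 490744) (.g (nat_lit 1998) (.e (nat_lit 163867) (nat_lit 2) (.e (nat_lit 196663) (nat_lit 13) (.e (nat_lit 65569) (nat_lit 3) (.e (nat_lit 98342) (nat_lit 20) (.e (nat_lit 221215) (nat_lit 23) (.e (nat_lit 204830) (nat_lit 18) (.e (nat_lit 57924) (nat_lit 282) .nil))))))) (.g (nat_lit 1) (.e (nat_lit 144655) (nat_lit 0) .nil) .nil))) 
(.lf (nat_lit 491256) (.g (nat_lit 3098) (.e (nat_lit 163868) (nat_lit 2) (.e (nat_lit 196670) (nat_lit 14) (.e (nat_lit 73746) (nat_lit 3) (.e (nat_lit 516131) (nat_lit 3) (.e (nat_lit 221215) (nat_lit 23) (.e (nat_lit 204830) (nat_lit 18) (.e (nat_lit 57928) (nat_lit 282) .nil))))))) (.g (nat_lit 1) (.e (nat_lit 145691) (nat_lit 0) .nil) .nil)))) (.nd (nat_lit 9) 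
(.lf (nat_lit 491000) (.g (nat_lit 2530) (.e (nat_lit 163867) (nat_lit 2) (.e (nat_lit 196674) (nat_lit 15) (.e (nat_lit 81925) (nat_lit 11) (.e (nat_lit 426500) (nat_lit 27) (.e (nat_lit 335996) (nat_lit 1) (.e (nat_lit 57924) (nat_lit 282) .nil)))))) (.g (nat_lit 1) (.e (nat_lit 145174) (nat_lit 0) .nil) .nil))) 
(.lf (nat_lit 491512) (.g (nat_lit 3069) (.e (nat_lit 163869) (nat_lit 2) (.e (nat_lit 196666) (nat_lit 13) (.e (nat_lit 65610) (nat_lit 10) (.e (nat_lit 344117) (nat_lit 21) (.e (nat_lit 516159) (nat_lit 10) (.e (nat_lit 434200) (nat_lit 18) (.e (nat_lit 4848) (nat_lit 285) .nil))))))) (.g (nat_lit 1) (.e (nat_lit 146266) (nat_lit 0) .nil) .nil)))))))))) 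
(.nd (nat_lit 3) (.nd (nat_lit 4) (.nd (nat_lit 5) (.nd (nat_lit 6) (.nd (nat_lit 7) 
(.nd (nat_lit 8) (.nd (nat_lit 9) 
(.lf (nat_lit 490500) (.g (nat_lit 2813) (.e (nat_lit 163864) (nat_lit 1) (.e (nat_lit 164332) (nat_lit 230) (.e (nat_lit 163902) (nat_lit 12) (.e (nat_lit 426438) (nat_lit 18) (.e (nat_lit 98372) (nat_lit 29) (.e (nat_lit 450561) (nat_lit 0) (.e (nat_lit 6839) (nat_lit 369) .nil))))))) (.g (nat_lit 1) (.e (nat_lit 144146) (nat_lit 0) .nil) .nil))) 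
(.lf (nat_lit 491012) (.g (nat_lit 2553) (.e (nat_lit 163867) (nat_lit 2) (.e (nat_lit 196681) (nat_lit 17) (.e (nat_lit 131109) (nat_lit 9) (.e (nat_lit 336454) (nat_lit 34) (.e (nat_lit 483364) (nat_lit 18) (.e (nat_lit 57924) (nat_lit 282) .nil)))))) (.g (nat_lit 1) (.e (nat_lit 145199) (nat_lit 0) .nil) .nil)))) (.nd (nat_lit 9) 
(.lf (nat_lit 490756) (.g (nat_lit 1909) (.e (nat_lit 163867) (nat_lit 2) (.e (nat_lit 196663) (nat_lit 13) (.e (nat_lit 65571) (nat_lit 3) (.e (nat_lit 98342) (nat_lit 20) (.e (nat_lit 221213) (nat_lit 23) .nil))))) (.g (nat_lit 0) (.e (nat_lit 144668) (nat_lit 0) .nil) .nil))) 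
(.lf (nat_lit 491268) (.g (nat_lit 1561) (.e (nat_lit 163868) (nat_lit 2) (.e (nat_lit 196672) (nat_lit 15) (.e (nat_lit 81925) (nat_lit 11) (.e (nat_lit 426500) (nat_lit 27) (.e (nat_lit 335986) (nat_lit 1) (.e (nat_lit 57928) (nat_lit 282) .nil)))))) (.g (nat_lit 1) (.e (nat_lit 145703) (nat_lit 0) .nil) .nil))))) (.nd (nat_lit 8) (.nd (nat_lit 9) 
(.lf (nat_lit 490628) (.g (nat_lit 2284) (.e (nat_lit 163866) (nat_lit 2) (.e (nat_lit 196666) (nat_lit 13) (.e (nat_lit 65625) (nat_lit 13) (.e (nat_lit 393225) (nat_lit 9) (.e (nat_lit 335995) (nat_lit 1) (.e (nat_lit 57929) (nat_lit 282) .nil)))))) (.g (nat_lit 1) (.e (nat_lit 144405) (nat_lit 0) .nil) .nil))) 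
(.lf (nat_lit 491140) (.g (nat_lit 3826) (.e (nat_lit 163868) (nat_lit 2) (.e (nat_lit 196668) (nat_lit 14) (.e (nat_lit 73746) (nat_lit 3) (.e (nat_lit 516131) (nat_lit 3) (.e (nat_lit 221214) (nat_lit 23) (.e (nat_lit 204830) (nat_lit 18) (.e (nat_lit 57927) (nat_lit 282) .nil))))))) (.g (nat_lit 1) (.e (nat_lit 145471) (nat_lit 0) .nil) .nil)))) (.nd (nat_lit 9) 
(.lf (nat_lit 490884) (.g (nat_lit 2307) (.e (nat_lit 163867) (nat_lit 2) (.e (nat_lit 196668) (nat_lit 14) (.e (nat_lit 73755) (nat_lit 8) (.e (nat_lit 557105) (nat_lit 14) (.e (nat_lit 180252) (nat_lit 10) .nil))))) (.g (nat_lit 0) (.e (nat_lit 144881) (nat_lit 0) .nil) .nil))) 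
(.lf (nat_lit 491396) (.g (nat_lit 2125) (.e (nat_lit 163869) (nat_lit 2) (.e (nat_lit 196666) (nat_lit 13) (.e (nat_lit 65571) (nat_lit 3) (.e (nat_lit 98342) (nat_lit 20) (.e (nat_lit 221214) (nat_lit 23) .nil))))) (.g (nat_lit 0) (.e (nat_lit 146070) (nat_lit 0) .nil) .nil)))))) (.nd (nat_lit 7) (.nd (nat_lit 8) (.nd (nat_lit 9) 
(.lf (nat_lit 490564) (.g (nat_lit 2338) (.e (nat_lit 163866) (nat_lit 2) (.e (nat_lit 196654) (nat_lit 11) (.e (nat_lit 16463) (nat_lit 13) (.e (nat_lit 483336) (nat_lit 9) (.e (nat_lit 426108) (nat_lit 1) .nil))))) (.g (nat_lit 0) (.e (nat_lit 144325) (nat_lit 0) .nil) .nil))) 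
(.lf (nat_lit 491076) (.g (nat_lit 3677) (.e (nat_lit 163868) (nat_lit 2) (.e (nat_lit 196656) (nat_lit 11) (.e (nat_lit 16466) (nat_lit 13) (.e (nat_lit 483341) (nat_lit 9) (.e (nat_lit 426107) (nat_lit 1) (.e (nat_lit 164325) (nat_lit 230) .nil)))))) (.g (nat_lit 1) (.e (nat_lit 145357) (nat_lit 0) .nil) .nil)))) (.nd (nat_lit 9) 
(.lf (nat_lit 490820) (.g (nat_lit 2562) (.e (nat_lit 163867) (nat_lit 2) (.e (nat_lit 196668) (nat_lit 14) (.e (nat_lit 73746) (nat_lit 3) (.e (nat_lit 516131) (nat_lit 3) (.e (nat_lit 221215) (nat_lit 23) (.e (nat_lit 204830) (nat_lit 18) (.e (nat_lit 57925) (nat_lit 282) .nil))))))) (.g (nat_lit 1) (.e (nat_lit 144762) (nat_lit 0) .nil) .nil))) 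
(.lf (nat_lit 491332) (.g (nat_lit 1811) (.e (nat_lit 163869) (nat_lit 2) (.e (nat_lit 196663) (nat_lit 13) (.e (nat_lit 65569) (nat_lit 3) (.e (nat_lit 98342) (nat_lit 20) (.e (nat_lit 221213) (nat_lit 23) .nil))))) (.g (nat_lit 0) (.e (nat_lit 145990) (nat_lit 0) .nil) .nil))))) (.nd (nat_lit 8) (.nd (nat_lit 9) 
(.lf (nat_lit 490692) (.g (nat_lit 2755) (.e (nat_lit 163866) (nat_lit 2) (.e (nat_lit 196681) (nat_lit 17) (.e (nat_lit 131109) (nat_lit 9) (.e (nat_lit 336454) (nat_lit 34) (.e (nat_lit 483364) (nat_lit 18) (.e (nat_lit 57927) (nat_lit 282) .nil)))))) (.g (nat_lit 1) (.e (nat_lit 144506) (nat_lit 0) .nil) .nil))) 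
(.lf (nat_lit 491204) (.g (nat_lit 4362) (.e (nat_lit 163868) (nat_lit 2) (.e (nat_lit 196668) (nat_lit 14) (.e (nat_lit 73747) (nat_lit 3) (.e (nat_lit 516131) (nat_lit 3) (.e (nat_lit 221215) (nat_lit 23) (.e (nat_lit 204829) (nat_lit 18) (.e (nat_lit 57926) (nat_lit 282) .nil))))))) (.g (nat_lit 1) (.e (nat_lit 145600) (nat_lit 0) .nil) .nil)))) (.nd (nat_lit 9) 
(.lf (nat_lit 490948) (.g (nat_lit 3687) (.e (nat_lit 163867) (nat_lit 2) (.e (nat_lit 196670) (nat_lit 14) (.e (nat_lit 73746) (nat_lit 3) (.e (nat_lit 516131) (nat_lit 3) (.e (nat_lit 221215) (nat_lit 23) (.e (nat_lit 204828) (nat_lit 18) (.e (nat_lit 57924) (nat_lit 282) .nil))))))) (.g (nat_lit 1) (.e (nat_lit 145001) (nat_lit 0) .nil) .nil))) 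
(.lf (nat_lit 491460) (.g (nat_lit 3437) (.e (nat_lit 163869) (nat_lit 2) (.e (nat_lit 196666) (nat_lit 13) (.e (nat_lit 65610) (nat_lit 10) (.e (nat_lit 344117) (nat_lit 21) (.e (nat_lit 516151) (nat_lit 9) (.e (nat_lit 426034) (nat_lit 0) (.e (nat_lit 2425) (nat_lit 157) (.e (nat_lit 4848) (nat_lit 285) .nil)))))))) (.g (nat_lit 1) (.e (nat_lit 146200) (nat_lit 0) .nil) .nil))))))) 
(.nd (nat_lit 6) (.nd (nat_lit 7) (.nd (nat_lit 8) (.nd (nat_lit 9) 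
(.lf (nat_lit 490532) (.g (nat_lit 4027) (.e (nat_lit 163864) (nat_lit 1) (.e (nat_lit 164332) (nat_lit 230) (.e (nat_lit 163905) (nat_lit 12) (.e (nat_lit 426472) (nat_lit 25) (.e (nat_lit 319534) (nat_lit 16) (.e (nat_lit 286756) (nat_lit 10) (.e (nat_lit 344087) (nat_lit 18) (.e (nat_lit 7290) (nat_lit 386) .nil)))))))) (.g (nat_lit 1) (.e (nat_lit 144192) (nat_lit 0) .nil) .nil))) 
(.lf (nat_lit 491044) (.g (nat_lit 2169) (.e (nat_lit 163868) (nat_lit 2) (.e (nat_lit 196654) (nat_lit 11) (.e (nat_lit 16463) (nat_lit 13) (.e (nat_lit 483340) (nat_lit 9) .nil)))) (.g (nat_lit 0) (.e (nat_lit 145292) (nat_lit 0) .nil) .nil)))) (.nd (nat_lit 9) 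
(.lf (nat_lit 490788) (.g (nat_lit 2285) (.e (nat_lit 163867) (nat_lit 2) (.e (nat_lit 196668) (nat_lit 14) (.e (nat_lit 73746) (nat_lit 3) (.e (nat_lit 516129) (nat_lit 3) (.e (nat_lit 221213) (nat_lit 23) (.e (nat_lit 204830) (nat_lit 18) (.e (nat_lit 57924) (nat_lit 282) .nil))))))) (.g (nat_lit 1) (.e (nat_lit 144726) (nat_lit 0) .nil) .nil))) 
(.lf (nat_lit 491300) (.g (nat_lit 2166) (.e (nat_lit 163869) (nat_lit 2) (.e (nat_lit 196654) (nat_lit 11) (.e (nat_lit 16463) (nat_lit 13) (.e (nat_lit 483336) (nat_lit 9) .nil)))) (.g (nat_lit 0) (.e (nat_lit 145942) (nat_lit 0) .nil) .nil))))) (.nd (nat_lit 8) (.nd (nat_lit 9) 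
(.lf (nat_lit 490660) (.g (nat_lit 2188) (.e (nat_lit 163866) (nat_lit 2) (.e (nat_lit 196670) (nat_lit 14) (.e (nat_lit 73746) (nat_lit 3) (.e (nat_lit 516129) (nat_lit 3) (.e (nat_lit 221199) (nat_lit 20) .nil))))) (.g (nat_lit 0) (.e (nat_lit 144452) (nat_lit 0) .nil) .nil))) 
(.lf (nat_lit 491172) (.g (nat_lit 3324) (.e (nat_lit 163868) (nat_lit 2) (.e (nat_lit 196668) (nat_lit 14) (.e (nat_lit 73747) (nat_lit 3) (.e (nat_lit 516129) (nat_lit 3) (.e (nat_lit 221215) (nat_lit 23) (.e (nat_lit 204828) (nat_lit 18) (.e (nat_lit 57926) (nat_lit 282) .nil))))))) (.g (nat_lit 1) (.e (nat_lit 145546) (nat_lit 0) .nil) .nil)))) (.nd (nat_lit 9) 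
(.lf (nat_lit 490916) (.g (nat_lit 2459) (.e (nat_lit 163867) (nat_lit 2) (.e (nat_lit 196670) (nat_lit 14) (.e (nat_lit 73746) (nat_lit 3) (.e (nat_lit 516129) (nat_lit 3) (.e (nat_lit 221214) (nat_lit 23) (.e (nat_lit 204831) (nat_lit 18) (.e (nat_lit 57930) (nat_lit 282) .nil))))))) (.g (nat_lit 1) (.e (nat_lit 144966) (nat_lit 0) .nil) .nil))) 
(.lf (nat_lit 491428) (.g (nat_lit 2965) (.e (nat_lit 163869) (nat_lit 2) (.e (nat_lit 196666) (nat_lit 13) (.e (nat_lit 65610) (nat_lit 10) (.e (nat_lit 344117) (nat_lit 21) (.e (nat_lit 516145) (nat_lit 9) (.e (nat_lit 426111) (nat_lit 1) (.e (nat_lit 171776) (nat_lit 219) .nil))))))) (.g (nat_lit 1) (.e (nat_lit 146121) (nat_lit 0) .nil) .nil)))))) 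
(.nd (nat_lit 7) (.nd (nat_lit 8) (.nd (nat_lit 9) 
(.lf (nat_lit 490596) (.g (nat_lit 2955) (.e (nat_lit 163866) (nat_lit 2) (.e (nat_lit 196666) (nat_lit 13) (.e (nat_lit 65569) (nat_lit 3) (.e (nat_lit 98342) (nat_lit 20) (.e (nat_lit 221214) (nat_lit 23) (.e (nat_lit 204830) (nat_lit 18) (.e (nat_lit 57926) (nat_lit 282) .nil))))))) (.g (nat_lit 1) (.e (nat_lit 144367) (nat_lit 0) .nil) .nil))) 
(.lf (nat_lit 491108) (.g (nat_lit 1903) (.e (nat_lit 163868) (nat_lit 2) (.e (nat_lit 196665) (nat_lit 13) (.e (nat_lit 65569) (nat_lit 3) (.e (nat_lit 98342) (nat_lit 20) (.e (nat_lit 221215) (nat_lit 23) (.e (nat_lit 204829) (nat_lit 18) (.e (nat_lit 57927) (nat_lit 282) .nil))))))) (.g (nat_lit 1) (.e (nat_lit 145401) (nat_lit 0) .nil) .nil)))) (.nd (nat_lit 9) 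
(.lf (nat_lit 490852) (.g (nat_lit 4856) (.e (nat_lit 163867) (nat_lit 2) (.e (nat_lit 196668) (nat_lit 14) (.e (nat_lit 73747) (nat_lit 3) (.e (nat_lit 516129) (nat_lit 3) (.e (nat_lit 221215) (nat_lit 23) (.e (nat_lit 204831) (nat_lit 18) (.e (nat_lit 57931) (nat_lit 282) .nil))))))) (.g (nat_lit 1) (.e (nat_lit 144816) (nat_lit 0) .nil) .nil))) 
(.lf (nat_lit 491364) (.g (nat_lit 4370) (.e (nat_lit 163869) (nat_lit 2) (.e (nat_lit 196666) (nat_lit 13) (.e (nat_lit 65569) (nat_lit 3) (.e (nat_lit 98342) (nat_lit 20) (.e (nat_lit 221214) (nat_lit 23) (.e (nat_lit 204830) (nat_lit 18) (.e (nat_lit 57929) (nat_lit 282) .nil))))))) (.g (nat_lit 1) (.e (nat_lit 146026) (nat_lit 0) .nil) .nil))))) (.nd (nat_lit 8) (.nd (nat_lit 9) 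
(.lf (nat_lit 490724) (.g (nat_lit 2011) (.e (nat_lit 163867) (nat_lit 2) (.e (nat_lit 196656) (nat_lit 11) (.e (nat_lit 16416) (nat_lit 3) (.e (nat_lit 204844) (nat_lit 23) .nil)))) (.g (nat_lit 0) (.e (nat_lit 144613) (nat_lit 0) .nil) .nil))) 
(.lf (nat_lit 491236) (.g (nat_lit 2497) (.e (nat_lit 163868) (nat_lit 2) (.e (nat_lit 196670) (nat_lit 14) (.e (nat_lit 73746) (nat_lit 3) (.e (nat_lit 516129) (nat_lit 3) (.e (nat_lit 221214) (nat_lit 23) (.e (nat_lit 204828) (nat_lit 18) (.e (nat_lit 57927) (nat_lit 282) .nil))))))) (.g (nat_lit 1) (.e (nat_lit 145671) (nat_lit 0) .nil) .nil)))) (.nd (nat_lit 9) 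
(.lf (nat_lit 490980) (.g (nat_lit 2329) (.e (nat_lit 163867) (nat_lit 2) (.e (nat_lit 196670) (nat_lit 14) (.e (nat_lit 73753) (nat_lit 8) (.e (nat_lit 557105) (nat_lit 14) (.e (nat_lit 180251) (nat_lit 10) .nil))))) (.g (nat_lit 0) (.e (nat_lit 145056) (nat_lit 0) .nil) .nil))) 
(.lf (nat_lit 491492) (.g (nat_lit 4008) (.e (nat_lit 163869) (nat_lit 2) (.e (nat_lit 196666) (nat_lit 13) (.e (nat_lit 65610) (nat_lit 10) (.e (nat_lit 344117) (nat_lit 21) (.e (nat_lit 516151) (nat_lit 9) (.e (nat_lit 426043) (nat_lit 0) (.e (nat_lit 2424) (nat_lit 157) (.e (nat_lit 4848) (nat_lit 285) .nil)))))))) (.g (nat_lit 1) (.e (nat_lit 146232) (nat_lit 0) .nil) .nil)))))))) 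
(.nd (nat_lit 5) (.nd (nat_lit 6) (.nd (nat_lit 7) (.nd (nat_lit 8) (.nd (nat_lit 9) 
(.lf (nat_lit 490516) (.g (nat_lit 3879) (.e (nat_lit 163864) (nat_lit 1) (.e (nat_lit 164332) (nat_lit 230) (.e (nat_lit 163902) (nat_lit 12) (.e (nat_lit 426472) (nat_lit 25) (.e (nat_lit 319534) (nat_lit 16) (.e (nat_lit 286749) (nat_lit 9) (.e (nat_lit 335997) (nat_lit 1) (.e (nat_lit 57692) (nat_lit 156) .nil)))))))) (.g (nat_lit 1) (.e (nat_lit 144162) (nat_lit 0) .nil) .nil))) 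
(.lf (nat_lit 491028) (.g (nat_lit 1600) (.e (nat_lit 163868) (nat_lit 2) (.e (nat_lit 196654) (nat_lit 11) (.e (nat_lit 16433) (nat_lit 9) (.e (nat_lit 426481) (nat_lit 27) .nil)))) (.g (nat_lit 0) (.e (nat_lit 145272) (nat_lit 0) .nil) .nil)))) (.nd (nat_lit 9) 
(.lf (nat_lit 490772) (.g (nat_lit 4312) (.e (nat_lit 163867) (nat_lit 2) (.e (nat_lit 196663) (nat_lit 13) (.e (nat_lit 65571) (nat_lit 3) (.e (nat_lit 98342) (nat_lit 20) (.e (nat_lit 221215) (nat_lit 23) (.e (nat_lit 204831) (nat_lit 18) (.e (nat_lit 57931) (nat_lit 282) .nil))))))) (.g (nat_lit 1) (.e (nat_lit 144687) (nat_lit 0) .nil) .nil))) 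
(.lf (nat_lit 491284) (.g (nat_lit 2732) (.e (nat_lit 163868) (nat_lit 2) (.e (nat_lit 196681) (nat_lit 17) (.e (nat_lit 131109) (nat_lit 9) (.e (nat_lit 336456) (nat_lit 34) (.e (nat_lit 483363) (nat_lit 18) (.e (nat_lit 57927) (nat_lit 282) .nil)))))) (.g (nat_lit 1) (.e (nat_lit 145893) (nat_lit 0) .nil) .nil))))) (.nd (nat_lit 8) (.nd (nat_lit 9) 
(.lf (nat_lit 490644) (.g (nat_lit 2910) (.e (nat_lit 163866) (nat_lit 2) (.e (nat_lit 196668) (nat_lit 14) (.e (nat_lit 73747) (nat_lit 3) (.e (nat_lit 516129) (nat_lit 3) (.e (nat_lit 221215) (nat_lit 23) (.e (nat_lit 204830) (nat_lit 18) (.e (nat_lit 57931) (nat_lit 282) .nil))))))) (.g (nat_lit 1) (.e (nat_lit 144434) (nat_lit 0) .nil) .nil))) 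
(.lf (nat_lit 491156) (.g (nat_lit 2483) (.e (nat_lit 163868) (nat_lit 2) (.e (nat_lit 196668) (nat_lit 14) (.e (nat_lit 73747) (nat_lit 3) (.e (nat_lit 516129) (nat_lit 3) (.e (nat_lit 221213) (nat_lit 23) (.e (nat_lit 204830) (nat_lit 18) (.e (nat_lit 57925) (nat_lit 282) .nil))))))) (.g (nat_lit 1) (.e (nat_lit 145522) (nat_lit 0) .nil) .nil)))) (.nd (nat_lit 9) 
(.lf (nat_lit 490900) (.g (nat_lit 2445) (.e (nat_lit 163867) (nat_lit 2) (.e (nat_lit 196670) (nat_lit 14) (.e (nat_lit 73746) (nat_lit 3) (.e (nat_lit 516129) (nat_lit 3) (.e (nat_lit 221213) (nat_lit 23) (.e (nat_lit 204829) (nat_lit 18) (.e (nat_lit 57925) (nat_lit 282) .nil))))))) (.g (nat_lit 1) (.e (nat_lit 144950) (nat_lit 0) .nil) .nil))) 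
(.lf (nat_lit 491412) (.g (nat_lit 2983) (.e (nat_lit 163869) (nat_lit 2) (.e (nat_lit 196666) (nat_lit 13) (.e (nat_lit 65571) (nat_lit 3) (.e (nat_lit 98342) (nat_lit 20) (.e (nat_lit 221215) (nat_lit 23) (.e (nat_lit 204830) (nat_lit 18) (.e (nat_lit 57930) (nat_lit 282) .nil))))))) (.g (nat_lit 1) (.e (nat_lit 146089) (nat_lit 0) .nil) .nil)))))) 
(.nd (nat_lit 7) (.nd (nat_lit 8) (.nd (nat_lit 9) 
(.lf (nat_lit 490580) (.g (nat_lit 1934) (.e (nat_lit 163866) (nat_lit 2) (.e (nat_lit 196663) (nat_lit 13) (.e (nat_lit 65571) (nat_lit 3) (.e (nat_lit 98342) (nat_lit 20) (.e (nat_lit 221213) (nat_lit 23) .nil))))) (.g (nat_lit 0) (.e (nat_lit 144348) (nat_lit 0) .nil) .nil))) 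
(.lf (nat_lit 491092) (.g (nat_lit 3085) (.e (nat_lit 163868) (nat_lit 2) (.e (nat_lit 196663) (nat_lit 13) (.e (nat_lit 65571) (nat_lit 3) (.e (nat_lit 98341) (nat_lit 20) (.e (nat_lit 221215) (nat_lit 23) (.e (nat_lit 204829) (nat_lit 18) (.e (nat_lit 57926) (nat_lit 282) .nil))))))) (.g (nat_lit 1) (.e (nat_lit 145382) (nat_lit 0) .nil) .nil)))) (.nd (nat_lit 9) 
(.lf (nat_lit 490836) (.g (nat_lit 4657) (.e (nat_lit 163867) (nat_lit 2) (.e (nat_lit 196668) (nat_lit 14) (.e (nat_lit 73747) (nat_lit 3) (.e (nat_lit 516129) (nat_lit 3) (.e (nat_lit 221214) (nat_lit 23) (.e (nat_lit 204830) (nat_lit 18) (.e (nat_lit 57924) (nat_lit 282) .nil))))))) (.g (nat_lit 1) (.e (nat_lit 144797) (nat_lit 0) .nil) .nil))) 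
(.lf (nat_lit 491348) (.g (nat_lit 2562) (.e (nat_lit 163869) (nat_lit 2) (.e (nat_lit 196666) (nat_lit 13) (.e (nat_lit 65569) (nat_lit 3) (.e (nat_lit 98341) (nat_lit 20) (.e (nat_lit 221214) (nat_lit 23) (.e (nat_lit 204829) (nat_lit 18) (.e (nat_lit 57926) (nat_lit 282) .nil))))))) (.g (nat_lit 1) (.e (nat_lit 146009) (nat_lit 0) .nil) .nil))))) (.nd (nat_lit 8) (.nd (nat_lit 9) 
(.lf (nat_lit 490708) (.g (nat_lit 2350) (.e (nat_lit 163867) (nat_lit 2) (.e (nat_lit 196654) (nat_lit 11) (.e (nat_lit 16463) (nat_lit 13) (.e (nat_lit 483336) (nat_lit 9) (.e (nat_lit 426108) (nat_lit 1) .nil))))) (.g (nat_lit 0) (.e (nat_lit 144593) (nat_lit 0) .nil) .nil))) 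
(.lf (nat_lit 491220) (.g (nat_lit 3076) (.e (nat_lit 163868) (nat_lit 2) (.e (nat_lit 196668) (nat_lit 14) (.e (nat_lit 73753) (nat_lit 8) (.e (nat_lit 557104) (nat_lit 14) (.e (nat_lit 180244) (nat_lit 5) (.e (nat_lit 532499) (nat_lit 1) (.e (nat_lit 65280) (nat_lit 168) .nil))))))) (.g (nat_lit 1) (.e (nat_lit 145654) (nat_lit 0) .nil) .nil)))) (.nd (nat_lit 9) 
(.lf (nat_lit 490964) (.g (nat_lit 504) (.e (nat_lit 163867) (nat_lit 2) (.e (nat_lit 196670) (nat_lit 14) (.e (nat_lit 73748) (nat_lit 3) .nil))) (.g (nat_lit 0) (.e (nat_lit 145017) (nat_lit 0) .nil) .nil))) 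
(.lf (nat_lit 491476) (.g (nat_lit 3022) (.e (nat_lit 163869) (nat_lit 2) (.e (nat_lit 196666) (nat_lit 13) (.e (nat_lit 65610) (nat_lit 10) (.e (nat_lit 344117) (nat_lit 21) (.e (nat_lit 516151) (nat_lit 9) (.e (nat_lit 426042) (nat_lit 0) (.e (nat_lit 2422) (nat_lit 157) (.e (nat_lit 4848) (nat_lit 285) .nil)))))))) (.g (nat_lit 1) (.e (nat_lit 146216) (nat_lit 0) .nil) .nil))))))) 
(.nd (nat_lit 6) (.nd (nat_lit 7) (.nd (nat_lit 8) (.nd (nat_lit 9) 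
(.lf (nat_lit 490548) (.g (nat_lit 366) (.e (nat_lit 163865) (nat_lit 2) (.e (nat_lit 196672) (nat_lit 15) (.e (nat_lit 89856) (nat_lit 18) .nil))) (.g (nat_lit 0) (.e (nat_lit 144299) (nat_lit 0) .nil) .nil))) 
(.lf (nat_lit 491060) (.g (nat_lit 2261) (.e (nat_lit 163868) (nat_lit 2) (.e (nat_lit 196656) (nat_lit 11) (.e (nat_lit 16432) (nat_lit 9) (.e (nat_lit 426566) (nat_lit 34) (.e (nat_lit 393254) (nat_lit 18) .nil))))) (.g (nat_lit 0) (.e (nat_lit 145337) (nat_lit 0) .nil) .nil)))) (.nd (nat_lit 9) 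
(.lf (nat_lit 490804) (.g (nat_lit 4537) (.e (nat_lit 163867) (nat_lit 2) (.e (nat_lit 196668) (nat_lit 14) (.e (nat_lit 73746) (nat_lit 3) (.e (nat_lit 516129) (nat_lit 3) (.e (nat_lit 221215) (nat_lit 23) (.e (nat_lit 204829) (nat_lit 18) (.e (nat_lit 57931) (nat_lit 282) .nil))))))) (.g (nat_lit 1) (.e (nat_lit 144743) (nat_lit 0) .nil) .nil))) 
(.lf (nat_lit 491316) (.g (nat_lit 4107) (.e (nat_lit 163869) (nat_lit 2) (.e (nat_lit 196656) (nat_lit 11) (.e (nat_lit 16433) (nat_lit 9) (.e (nat_lit 426566) (nat_lit 34) (.e (nat_lit 393253) (nat_lit 18) (.e (nat_lit 164332) (nat_lit 230) .nil)))))) (.g (nat_lit 1) (.e (nat_lit 145969) (nat_lit 0) .nil) .nil))))) (.nd (nat_lit 8) (.nd (nat_lit 9) 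
(.lf (nat_lit 490676) (.g (nat_lit 1272) (.e (nat_lit 163866) (nat_lit 2) (.e (nat_lit 196681) (nat_lit 17) (.e (nat_lit 131105) (nat_lit 9) (.e (nat_lit 336454) (nat_lit 34) (.e (nat_lit 483362) (nat_lit 18) .nil))))) (.g (nat_lit 0) (.e (nat_lit 144481) (nat_lit 0) .nil) .nil))) 
(.lf (nat_lit 491188) (.g (nat_lit 2766) (.e (nat_lit 163868) (nat_lit 2) (.e (nat_lit 196668) (nat_lit 14) (.e (nat_lit 73747) (nat_lit 3) (.e (nat_lit 516130) (nat_lit 3) (.e (nat_lit 221215) (nat_lit 23) (.e (nat_lit 204830) (nat_lit 18) (.e (nat_lit 57927) (nat_lit 282) .nil))))))) (.g (nat_lit 1) (.e (nat_lit 145563) (nat_lit 0) .nil) .nil)))) (.nd (nat_lit 9) 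
(.lf (nat_lit 490932) (.g (nat_lit 2713) (.e (nat_lit 163867) (nat_lit 2) (.e (nat_lit 196670) (nat_lit 14) (.e (nat_lit 73746) (nat_lit 3) (.e (nat_lit 516129) (nat_lit 3) (.e (nat_lit 221215) (nat_lit 23) (.e (nat_lit 204831) (nat_lit 18) (.e (nat_lit 57930) (nat_lit 282) .nil))))))) (.g (nat_lit 1) (.e (nat_lit 144982) (nat_lit 0) .nil) .nil))) 
(.lf (nat_lit 491444) (.g (nat_lit 3285) (.e (nat_lit 163869) (nat_lit 2) (.e (nat_lit 196666) (nat_lit 13) (.e (nat_lit 65610) (nat_lit 10) (.e (nat_lit 344117) (nat_lit 21) (.e (nat_lit 516151) (nat_lit 9) (.e (nat_lit 426018) (nat_lit 0) (.e (nat_lit 2411) (nat_lit 157) (.e (nat_lit 4847) (nat_lit 285) .nil)))))))) (.g (nat_lit 1) (.e (nat_lit 146184) (nat_lit 0) .nil) .nil)))))) 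
(.nd (nat_lit 7) (.nd (nat_lit 8) (.nd (nat_lit 9) 
(.lf (nat_lit 490612) (.g (nat_lit 2924) (.e (nat_lit 163866) (nat_lit 2) (.e (nat_lit 196666) (nat_lit 13) (.e (nat_lit 65571) (nat_lit 3) (.e (nat_lit 98342) (nat_lit 20) (.e (nat_lit 221213) (nat_lit 23) (.e (nat_lit 204829) (nat_lit 18) (.e (nat_lit 57927) (nat_lit 282) .nil))))))) (.g (nat_lit 1) (.e (nat_lit 144384) (nat_lit 0) .nil) .nil))) 
(.lf (nat_lit 491124) (.g (nat_lit 4872) (.e (nat_lit 163868) (nat_lit 2) (.e (nat_lit 196668) (nat_lit 14) (.e (nat_lit 73746) (nat_lit 3) (.e (nat_lit 516129) (nat_lit 3) (.e (nat_lit 221214) (nat_lit 23) (.e (nat_lit 204830) (nat_lit 18) (.e (nat_lit 57927) (nat_lit 282) .nil))))))) (.g (nat_lit 1) (.e (nat_lit 145443) (nat_lit 0) .nil) .nil)))) (.nd (nat_lit 9) 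
(.lf (nat_lit 490868) (.g (nat_lit 4453) (.e (nat_lit 163867) (nat_lit 2) (.e (nat_lit 196668) (nat_lit 14) (.e (nat_lit 73747) (nat_lit 3) (.e (nat_lit 516131) (nat_lit 3) (.e (nat_lit 221215) (nat_lit 23) (.e (nat_lit 204829) (nat_lit 18) (.e (nat_lit 57931) (nat_lit 282) .nil))))))) (.g (nat_lit 1) (.e (nat_lit 144842) (nat_lit 0) .nil) .nil))) 
(.lf (nat_lit 491380) (.g (nat_lit 4196) (.e (nat_lit 163869) (nat_lit 2) (.e (nat_lit 196666) (nat_lit 13) (.e (nat_lit 65571) (nat_lit 3) (.e (nat_lit 98341) (nat_lit 20) (.e (nat_lit 221214) (nat_lit 23) (.e (nat_lit 204830) (nat_lit 18) (.e (nat_lit 57929) (nat_lit 282) .nil))))))) (.g (nat_lit 1) (.e (nat_lit 146051) (nat_lit 0) .nil) .nil))))) (.nd (nat_lit 8) (.nd (nat_lit 9) 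
(.lf (nat_lit 490740) (.g (nat_lit 2143) (.e (nat_lit 163867) (nat_lit 2) (.e (nat_lit 196662) (nat_lit 13) (.e (nat_lit 65569) (nat_lit 3) (.e (nat_lit 98342) (nat_lit 20) (.e (nat_lit 221215) (nat_lit 23) (.e (nat_lit 204831) (nat_lit 18) (.e (nat_lit 57931) (nat_lit 282) .nil))))))) (.g (nat_lit 1) (.e (nat_lit 144651) (nat_lit 0) .nil) .nil))) 
(.lf (nat_lit 491252) (.g (nat_lit 2949) (.e (nat_lit 163868) (nat_lit 2) (.e (nat_lit 196670) (nat_lit 14) (.e (nat_lit 73746) (nat_lit 3) (.e (nat_lit 516131) (nat_lit 3) (.e (nat_lit 221215) (nat_lit 23) (.e (nat_lit 204828) (nat_lit 18) (.e (nat_lit 57926) (nat_lit 282) .nil))))))) (.g (nat_lit 1) (.e (nat_lit 145687) (nat_lit 0) .nil) .nil)))) (.nd (nat_lit 9) 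
(.lf (nat_lit 490996) (.g (nat_lit 451) (.e (nat_lit 163867) (nat_lit 2) (.e (nat_lit 196672) (nat_lit 15) (.e (nat_lit 89856) (nat_lit 18) .nil))) (.g (nat_lit 0) (.e (nat_lit 145079) (nat_lit 0) .nil) .nil))) 
(.lf (nat_lit 491508) (.g (nat_lit 4650) (.e (nat_lit 163869) (nat_lit 2) (.e (nat_lit 196666) (nat_lit 13) (.e (nat_lit 65610) (nat_lit 10) (.e (nat_lit 344117) (nat_lit 21) (.e (nat_lit 516151) (nat_lit 9) (.e (nat_lit 426450) (nat_lit 21) (.e (nat_lit 130816) (nat_lit 174) .nil))))))) (.g (nat_lit 1) (.e (nat_lit 146262) (nat_lit 0) .nil) .nil))))))))) 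
(.nd (nat_lit 4) (.nd (nat_lit 5) (.nd (nat_lit 6) (.nd (nat_lit 7) (.nd (nat_lit 8) 
(.nd (nat_lit 9) 
(.lf (nat_lit 490508) (.g (nat_lit 3922) (.e (nat_lit 163864) (nat_lit 1) (.e (nat_lit 164332) (nat_lit 230) (.e (nat_lit 163902) (nat_lit 12) (.e (nat_lit 426438) (nat_lit 18) (.e (nat_lit 98373) (nat_lit 29) (.e (nat_lit 450568) (nat_lit 0) (.e (nat_lit 7936) (nat_lit 369) .nil))))))) (.g (nat_lit 1) (.e (nat_lit 144154) (nat_lit 0) .nil) .nil))) 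
(.lf (nat_lit 491020) (.g (nat_lit 665) (.e (nat_lit 163868) (nat_lit 2) (.e (nat_lit 196624) (nat_lit 9) (.e (nat_lit 477) (nat_lit 37) .nil))) (.g (nat_lit 0) (.e (nat_lit 145246) (nat_lit 0) .nil) .nil)))) (.nd (nat_lit 9) 
(.lf (nat_lit 490764) (.g (nat_lit 3934) (.e (nat_lit 163867) (nat_lit 2) (.e (nat_lit 196663) (nat_lit 13) (.e (nat_lit 65571) (nat_lit 3) (.e (nat_lit 98342) (nat_lit 20) (.e (nat_lit 221214) (nat_lit 23) (.e (nat_lit 204830) (nat_lit 18) (.e (nat_lit 57931) (nat_lit 282) .nil))))))) (.g (nat_lit 1) (.e (nat_lit 144678) (nat_lit 0) .nil) .nil))) 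
(.lf (nat_lit 491276) (.g (nat_lit 3022) (.e (nat_lit 163868) (nat_lit 2) (.e (nat_lit 196674) (nat_lit 15) (.e (nat_lit 81925) (nat_lit 11) (.e (nat_lit 426500) (nat_lit 27) (.e (nat_lit 335988) (nat_lit 1) (.e (nat_lit 57927) (nat_lit 282) .nil)))))) (.g (nat_lit 1) (.e (nat_lit 145883) (nat_lit 0) .nil) .nil))))) (.nd (nat_lit 8) (.nd (nat_lit 9) 
(.lf (nat_lit 490636) (.g (nat_lit 2193) (.e (nat_lit 163866) (nat_lit 2) (.e (nat_lit 196668) (nat_lit 14) (.e (nat_lit 73746) (nat_lit 3) (.e (nat_lit 516131) (nat_lit 3) (.e (nat_lit 221215) (nat_lit 23) (.e (nat_lit 204830) (nat_lit 18) (.e (nat_lit 57927) (nat_lit 282) .nil))))))) (.g (nat_lit 1) (.e (nat_lit 144413) (nat_lit 0) .nil) .nil))) 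
(.lf (nat_lit 491148) (.g (nat_lit 3215) (.e (nat_lit 163868) (nat_lit 2) (.e (nat_lit 196668) (nat_lit 14) (.e (nat_lit 73746) (nat_lit 3) (.e (nat_lit 516131) (nat_lit 3) (.e (nat_lit 221215) (nat_lit 23) (.e (nat_lit 204830) (nat_lit 18) (.e (nat_lit 57928) (nat_lit 282) .nil))))))) (.g (nat_lit 1) (.e (nat_lit 145480) (nat_lit 0) .nil) .nil)))) (.nd (nat_lit 9) 
(.lf (nat_lit 490892) (.g (nat_lit 1579) (.e (nat_lit 163867) (nat_lit 2) (.e (nat_lit 196670) (nat_lit 14) (.e (nat_lit 73746) (nat_lit 3) (.e (nat_lit 516124) (nat_lit 2) (.e (nat_lit 213019) (nat_lit 9) .nil))))) (.g (nat_lit 0) (.e (nat_lit 144898) (nat_lit 0) .nil) .nil))) 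
(.lf (nat_lit 491404) (.g (nat_lit 4980) (.e (nat_lit 163869) (nat_lit 2) (.e (nat_lit 196666) (nat_lit 13) (.e (nat_lit 65571) (nat_lit 3) (.e (nat_lit 98342) (nat_lit 20) (.e (nat_lit 221214) (nat_lit 23) (.e (nat_lit 204831) (nat_lit 18) (.e (nat_lit 57931) (nat_lit 282) .nil))))))) (.g (nat_lit 1) (.e (nat_lit 146079) (nat_lit 0) .nil) .nil)))))) 
(.nd (nat_lit 7) (.nd (nat_lit 8) (.nd (nat_lit 9) 
(.lf (nat_lit 490572) (.g (nat_lit 1804) (.e (nat_lit 163866) (nat_lit 2) (.e (nat_lit 196654) (nat_lit 11) (.e (nat_lit 16466) (nat_lit 13) (.e (nat_lit 483340) (nat_lit 9) (.e (nat_lit 426108) (nat_lit 1) .nil))))) (.g (nat_lit 0) (.e (nat_lit 144338) (nat_lit 0) .nil) .nil))) 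
(.lf (nat_lit 491084) (.g (nat_lit 2515) (.e (nat_lit 163868) (nat_lit 2) (.e (nat_lit 196663) (nat_lit 13) (.e (nat_lit 65569) (nat_lit 3) (.e (nat_lit 98342) (nat_lit 20) (.e (nat_lit 221214) (nat_lit 23) (.e (nat_lit 204830) (nat_lit 18) (.e (nat_lit 57928) (nat_lit 282) .nil))))))) (.g (nat_lit 1) (.e (nat_lit 145373) (nat_lit 0) .nil) .nil)))) (.nd (nat_lit 9) 
(.lf (nat_lit 490828) (.g (nat_lit 2553) (.e (nat_lit 163867) (nat_lit 2) (.e (nat_lit 196668) (nat_lit 14) (.e (nat_lit 73747) (nat_lit 3) (.e (nat_lit 516129) (nat_lit 3) (.e (nat_lit 221213) (nat_lit 23) (.e (nat_lit 204830) (nat_lit 18) (.e (nat_lit 57925) (nat_lit 282) .nil))))))) (.g (nat_lit 1) (.e (nat_lit 144788) (nat_lit 0) .nil) .nil))) 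
(.lf (nat_lit 491340) (.g (nat_lit 2488) (.e (nat_lit 163869) (nat_lit 2) (.e (nat_lit 196663) (nat_lit 13) (.e (nat_lit 65571) (nat_lit 3) (.e (nat_lit 98342) (nat_lit 20) (.e (nat_lit 221213) (nat_lit 23) (.e (nat_lit 204830) (nat_lit 18) (.e (nat_lit 57927) (nat_lit 282) .nil))))))) (.g (nat_lit 1) (.e (nat_lit 145999) (nat_lit 0) .nil) .nil))))) (.nd (nat_lit 8) (.nd (nat_lit 9) 
(.lf (nat_lit 490700) (.g (nat_lit 656) (.e (nat_lit 163867) (nat_lit 2) (.e (nat_lit 196624) (nat_lit 9) (.e (nat_lit 391) (nat_lit 32) .nil))) (.g (nat_lit 0) (.e (nat_lit 144544) (nat_lit 0) .nil) .nil))) 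
(.lf (nat_lit 491212) (.g (nat_lit 3843) (.e (nat_lit 163868) (nat_lit 2) (.e (nat_lit 196668) (nat_lit 14) (.e (nat_lit 73753) (nat_lit 8) (.e (nat_lit 557103) (nat_lit 14) (.e (nat_lit 180243) (nat_lit 5) (.e (nat_lit 532501) (nat_lit 1) (.e (nat_lit 65280) (nat_lit 168) .nil))))))) (.g (nat_lit 1) (.e (nat_lit 145644) (nat_lit 0) .nil) .nil)))) (.nd (nat_lit 9) 
(.lf (nat_lit 490956) (.g (nat_lit 4554) (.e (nat_lit 163867) (nat_lit 2) (.e (nat_lit 196670) (nat_lit 14) (.e (nat_lit 73746) (nat_lit 3) (.e (nat_lit 516131) (nat_lit 3) (.e (nat_lit 221215) (nat_lit 23) (.e (nat_lit 204830) (nat_lit 18) (.e (nat_lit 57924) (nat_lit 282) .nil))))))) (.g (nat_lit 1) (.e (nat_lit 145009) (nat_lit 0) .nil) .nil))) 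
(.lf (nat_lit 491468) (.g (nat_lit 3494) (.e (nat_lit 163869) (nat_lit 2) (.e (nat_lit 196666) (nat_lit 13) (.e (nat_lit 65610) (nat_lit 10) (.e (nat_lit 344117) (nat_lit 21) (.e (nat_lit 516151) (nat_lit 9) (.e (nat_lit 426038) (nat_lit 0) (.e (nat_lit 2438) (nat_lit 157) (.e (nat_lit 7936) (nat_lit 285) .nil)))))))) (.g (nat_lit 1) (.e (nat_lit 146208) (nat_lit 0) .nil) .nil))))))) 
(.nd (nat_lit 6) (.nd (nat_lit 7) (.nd (nat_lit 8) (.nd (nat_lit 9) 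
(.lf (nat_lit 490540) (.g (nat_lit 2463) (.e (nat_lit 163865) (nat_lit 2) (.e (nat_lit 196654) (nat_lit 11) (.e (nat_lit 16463) (nat_lit 13) (.e (nat_lit 483341) (nat_lit 9) (.e (nat_lit 426107) (nat_lit 1) .nil))))) (.g (nat_lit 0) (.e (nat_lit 144290) (nat_lit 0) .nil) .nil))) 
(.lf (nat_lit 491052) (.g (nat_lit 975) (.e (nat_lit 163868) (nat_lit 2) (.e (nat_lit 196654) (nat_lit 11) (.e (nat_lit 16466) (nat_lit 13) (.e (nat_lit 491264) (nat_lit 10) .nil)))) (.g (nat_lit 0) (.e (nat_lit 145310) (nat_lit 0) .nil) .nil)))) (.nd (nat_lit 9) 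
(.lf (nat_lit 490796) (.g (nat_lit 4254) (.e (nat_lit 163867) (nat_lit 2) (.e (nat_lit 196668) (nat_lit 14) (.e (nat_lit 73746) (nat_lit 3) (.e (nat_lit 516129) (nat_lit 3) (.e (nat_lit 221214) (nat_lit 23) (.e (nat_lit 204830) (nat_lit 18) (.e (nat_lit 57931) (nat_lit 282) .nil))))))) (.g (nat_lit 1) (.e (nat_lit 144735) (nat_lit 0) .nil) .nil))) 
(.lf (nat_lit 491308) (.g (nat_lit 1472) (.e (nat_lit 163869) (nat_lit 2) (.e (nat_lit 196654) (nat_lit 11) (.e (nat_lit 16466) (nat_lit 13) (.e (nat_lit 483340) (nat_lit 9) .nil)))) (.g (nat_lit 0) (.e (nat_lit 145953) (nat_lit 0) .nil) .nil))))) (.nd (nat_lit 8) (.nd (nat_lit 9) 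
(.lf (nat_lit 490668) (.g (nat_lit 1885) (.e (nat_lit 163866) (nat_lit 2) (.e (nat_lit 196670) (nat_lit 14) (.e (nat_lit 73746) (nat_lit 3) (.e (nat_lit 516131) (nat_lit 3) (.e (nat_lit 221215) (nat_lit 23) (.e (nat_lit 204828) (nat_lit 18) (.e (nat_lit 57931) (nat_lit 282) .nil))))))) (.g (nat_lit 1) (.e (nat_lit 144460) (nat_lit 0) .nil) .nil))) 
(.lf (nat_lit 491180) (.g (nat_lit 4247) (.e (nat_lit 163868) (nat_lit 2) (.e (nat_lit 196668) (nat_lit 14) (.e (nat_lit 73747) (nat_lit 3) (.e (nat_lit 516129) (nat_lit 3) (.e (nat_lit 221215) (nat_lit 23) (.e (nat_lit 204830) (nat_lit 18) (.e (nat_lit 57925) (nat_lit 282) .nil))))))) (.g (nat_lit 1) (.e (nat_lit 145554) (nat_lit 0) .nil) .nil)))) (.nd (nat_lit 9) 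
(.lf (nat_lit 490924) (.g (nat_lit 3733) (.e (nat_lit 163867) (nat_lit 2) (.e (nat_lit 196670) (nat_lit 14) (.e (nat_lit 73746) (nat_lit 3) (.e (nat_lit 516129) (nat_lit 3) (.e (nat_lit 221215) (nat_lit 23) (.e (nat_lit 204829) (nat_lit 18) (.e (nat_lit 57927) (nat_lit 282) .nil))))))) (.g (nat_lit 1) (.e (nat_lit 144974) (nat_lit 0) .nil) .nil))) 
(.lf (nat_lit 491436) (.g (nat_lit 2791) (.e (nat_lit 163869) (nat_lit 2) (.e (nat_lit 196666) (nat_lit 13) (.e (nat_lit 65610) (nat_lit 10) (.e (nat_lit 344117) (nat_lit 21) (.e (nat_lit 516151) (nat_lit 9) (.e (nat_lit 426003) (nat_lit 0) (.e (nat_lit 2397) (nat_lit 157) (.e (nat_lit 4849) (nat_lit 285) .nil)))))))) (.g (nat_lit 1) (.e (nat_lit 146176) (nat_lit 0) .nil) .nil)))))) 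
(.nd (nat_lit 7) (.nd (nat_lit 8) (.nd (nat_lit 9) 
(.lf (nat_lit 490604) (.g (nat_lit 2696) (.e (nat_lit 163866) (nat_lit 2) (.e (nat_lit 196666) (nat_lit 13) (.e (nat_lit 65571) (nat_lit 3) (.e (nat_lit 98341) (nat_lit 20) (.e (nat_lit 221213) (nat_lit 23) (.e (nat_lit 204829) (nat_lit 18) (.e (nat_lit 57927) (nat_lit 282) .nil))))))) (.g (nat_lit 1) (.e (nat_lit 144375) (nat_lit 0) .nil) .nil))) 
(.lf (nat_lit 491116) (.g (nat_lit 2256) (.e (nat_lit 163868) (nat_lit 2) (.e (nat_lit 196668) (nat_lit 14) (.e (nat_lit 73746) (nat_lit 3) (.e (nat_lit 516129) (nat_lit 3) (.e (nat_lit 221213) (nat_lit 23) (.e (nat_lit 204829) (nat_lit 18) (.e (nat_lit 57928) (nat_lit 282) .nil))))))) (.g (nat_lit 1) (.e (nat_lit 145435) (nat_lit 0) .nil) .nil)))) (.nd (nat_lit 9) 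
(.lf (nat_lit 490860) (.g (nat_lit 1016) (.e (nat_lit 163867) (nat_lit 2) (.e (nat_lit 196668) (nat_lit 14) (.e (nat_lit 73747) (nat_lit 3) (.e (nat_lit 516131) (nat_lit 3) .nil)))) (.g (nat_lit 0) (.e (nat_lit 144824) (nat_lit 0) .nil) .nil))) 
(.lf (nat_lit 491372) (.g (nat_lit 3384) (.e (nat_lit 163869) (nat_lit 2) (.e (nat_lit 196666) (nat_lit 13) (.e (nat_lit 65571) (nat_lit 3) (.e (nat_lit 98341) (nat_lit 20) (.e (nat_lit 221204) (nat_lit 20) (.e (nat_lit 3253) (nat_lit 197) (.e (nat_lit 532503) (nat_lit 1) (.e (nat_lit 57930) (nat_lit 282) .nil)))))))) (.g (nat_lit 1) (.e (nat_lit 146043) (nat_lit 0) .nil) .nil))))) 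
(.nd (nat_lit 8) (.nd (nat_lit 9) 
(.lf (nat_lit 490732) (.g (nat_lit 2566) (.e (nat_lit 163867) (nat_lit 2) (.e (nat_lit 196656) (nat_lit 11) (.e (nat_lit 16463) (nat_lit 13) (.e (nat_lit 483341) (nat_lit 9) (.e (nat_lit 426105) (nat_lit 1) (.e (nat_lit 164332) (nat_lit 230) .nil)))))) (.g (nat_lit 1) (.e (nat_lit 144634) (nat_lit 0) .nil) .nil))) 
(.lf (nat_lit 491244) (.g (nat_lit 3096) (.e (nat_lit 163868) (nat_lit 2) (.e (nat_lit 196670) (nat_lit 14) (.e (nat_lit 73746) (nat_lit 3) (.e (nat_lit 516129) (nat_lit 3) (.e (nat_lit 221215) (nat_lit 23) (.e (nat_lit 204828) (nat_lit 18) (.e (nat_lit 57927) (nat_lit 282) .nil))))))) (.g (nat_lit 1) (.e (nat_lit 145679) (nat_lit 0) .nil) .nil)))) (.nd (nat_lit 9) 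
(.lf (nat_lit 490988) (.g (nat_lit 2935) (.e (nat_lit 163867) (nat_lit 2) (.e (nat_lit 196672) (nat_lit 15) (.e (nat_lit 81927) (nat_lit 11) (.e (nat_lit 426500) (nat_lit 27) (.e (nat_lit 335986) (nat_lit 1) (.e (nat_lit 57924) (nat_lit 282) .nil)))))) (.g (nat_lit 1) (.e (nat_lit 145070) (nat_lit 0) .nil) .nil))) 
(.lf (nat_lit 491500) (.g (nat_lit 3390) (.e (nat_lit 163869) (nat_lit 2) (.e (nat_lit 196666) (nat_lit 13) (.e (nat_lit 65610) (nat_lit 10) (.e (nat_lit 344117) (nat_lit 21) (.e (nat_lit 516151) (nat_lit 9) (.e (nat_lit 426047) (nat_lit 0) (.e (nat_lit 2425) (nat_lit 157) (.e (nat_lit 4848) (nat_lit 285) .nil)))))))) (.g (nat_lit 1) (.e (nat_lit 146240) (nat_lit 0) .nil) .nil)))))))) 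
(.nd (nat_lit 5) (.nd (nat_lit 6) (.nd (nat_lit 7) (.nd (nat_lit 8) (.nd (nat_lit 9) 
(.lf (nat_lit 490524) (.g (nat_lit 2719) (.e (nat_lit 163864) (nat_lit 1) (.e (nat_lit 164332) (nat_lit 230) (.e (nat_lit 163905) (nat_lit 12) (.e (nat_lit 426472) (nat_lit 25) (.e (nat_lit 319533) (nat_lit 16) (.e (nat_lit 286753) (nat_lit 10) (.e (nat_lit 344097) (nat_lit 18) (.e (nat_lit 7280) (nat_lit 386) .nil)))))))) (.g (nat_lit 1) (.e (nat_lit 144184) (nat_lit 0) .nil) .nil))) 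
(.lf (nat_lit 491036) (.g (nat_lit 1508) (.e (nat_lit 163868) (nat_lit 2) (.e (nat_lit 196654) (nat_lit 11) (.e (nat_lit 16436) (nat_lit 9) (.e (nat_lit 426487) (nat_lit 27) .nil)))) (.g (nat_lit 0) (.e (nat_lit 145281) (nat_lit 0) .nil) .nil)))) (.nd (nat_lit 9) 
(.lf (nat_lit 490780) (.g (nat_lit 1822) (.e (nat_lit 163867) (nat_lit 2) (.e (nat_lit 196665) (nat_lit 13) (.e (nat_lit 65625) (nat_lit 13) (.e (nat_lit 393225) (nat_lit 9) (.e (nat_lit 335996) (nat_lit 1) (.e (nat_lit 57924) (nat_lit 282) .nil)))))) (.g (nat_lit 1) (.e (nat_lit 144697) (nat_lit 0) .nil) .nil))) 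
(.lf (nat_lit 491292) (.g (nat_lit 1835) (.e (nat_lit 163869) (nat_lit 2) (.e (nat_lit 196654) (nat_lit 11) (.e (nat_lit 16416) (nat_lit 3) (.e (nat_lit 204834) (nat_lit 19) .nil)))) (.g (nat_lit 0) (.e (nat_lit 145933) (nat_lit 0) .nil) .nil))))) (.nd (nat_lit 8) (.nd (nat_lit 9) 
(.lf (nat_lit 490652) (.g (nat_lit 1351) (.e (nat_lit 163866) (nat_lit 2) (.e (nat_lit 196670) (nat_lit 14) (.e (nat_lit 73746) (nat_lit 3) (.e (nat_lit 516124) (nat_lit 2) .nil)))) (.g (nat_lit 0) (.e (nat_lit 144444) (nat_lit 0) .nil) .nil))) 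
(.lf (nat_lit 491164) (.g (nat_lit 5026) (.e (nat_lit 163868) (nat_lit 2) (.e (nat_lit 196668) (nat_lit 14) (.e (nat_lit 73747) (nat_lit 3) (.e (nat_lit 516129) (nat_lit 3) (.e (nat_lit 221214) (nat_lit 23) (.e (nat_lit 204829) (nat_lit 18) (.e (nat_lit 57927) (nat_lit 282) .nil))))))) (.g (nat_lit 1) (.e (nat_lit 145534) (nat_lit 0) .nil) .nil)))) (.nd (nat_lit 9) 
(.lf (nat_lit 490908) (.g (nat_lit 3955) (.e (nat_lit 163867) (nat_lit 2) (.e (nat_lit 196670) (nat_lit 14) (.e (nat_lit 73746) (nat_lit 3) (.e (nat_lit 516129) (nat_lit 3) (.e (nat_lit 221214) (nat_lit 23) (.e (nat_lit 204829) (nat_lit 18) (.e (nat_lit 57925) (nat_lit 282) .nil))))))) (.g (nat_lit 1) (.e (nat_lit 144958) (nat_lit 0) .nil) .nil))) 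
(.lf (nat_lit 491420) (.g (nat_lit 3127) (.e (nat_lit 163869) (nat_lit 2) (.e (nat_lit 196666) (nat_lit 13) (.e (nat_lit 65610) (nat_lit 10) (.e (nat_lit 344117) (nat_lit 21) (.e (nat_lit 516143) (nat_lit 9) (.e (nat_lit 426143) (nat_lit 4) (.e (nat_lit 237312) (nat_lit 219) .nil))))))) (.g (nat_lit 1) (.e (nat_lit 146113) (nat_lit 0) .nil) .nil)))))) 
(.nd (nat_lit 7) (.nd (nat_lit 8) (.nd (nat_lit 9) 
(.lf (nat_lit 490588) (.g (nat_lit 2885) (.e (nat_lit 163866) (nat_lit 2) (.e (nat_lit 196666) (nat_lit 13) (.e (nat_lit 65569) (nat_lit 3) (.e (nat_lit 98341) (nat_lit 20) (.e (nat_lit 221215) (nat_lit 23) (.e (nat_lit 204829) (nat_lit 18) (.e (nat_lit 57927) (nat_lit 282) .nil))))))) (.g (nat_lit 1) (.e (nat_lit 144357) (nat_lit 0) .nil) .nil))) 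
(.lf (nat_lit 491100) (.g (nat_lit 2951) (.e (nat_lit 163868) (nat_lit 2) (.e (nat_lit 196663) (nat_lit 13) (.e (nat_lit 65571) (nat_lit 3) (.e (nat_lit 98342) (nat_lit 20) (.e (nat_lit 221215) (nat_lit 23) (.e (nat_lit 204828) (nat_lit 18) (.e (nat_lit 57927) (nat_lit 282) .nil))))))) (.g (nat_lit 1) (.e (nat_lit 145391) (nat_lit 0) .nil) .nil)))) (.nd (nat_lit 9) 
(.lf (nat_lit 490844) (.g (nat_lit 3358) (.e (nat_lit 163867) (nat_lit 2) (.e (nat_lit 196668) (nat_lit 14) (.e (nat_lit 73747) (nat_lit 3) (.e (nat_lit 516129) (nat_lit 3) (.e (nat_lit 221215) (nat_lit 23) (.e (nat_lit 204829) (nat_lit 18) (.e (nat_lit 57926) (nat_lit 282) .nil))))))) (.g (nat_lit 1) (.e (nat_lit 144808) (nat_lit 0) .nil) .nil))) 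
(.lf (nat_lit 491356) (.g (nat_lit 3268) (.e (nat_lit 163869) (nat_lit 2) (.e (nat_lit 196666) (nat_lit 13) (.e (nat_lit 65569) (nat_lit 3) (.e (nat_lit 98341) (nat_lit 20) (.e (nat_lit 221215) (nat_lit 23) (.e (nat_lit 204831) (nat_lit 18) (.e (nat_lit 57931) (nat_lit 282) .nil))))))) (.g (nat_lit 1) (.e (nat_lit 146017) (nat_lit 0) .nil) .nil))))) (.nd (nat_lit 8) (.nd (nat_lit 9) 
(.lf (nat_lit 490716) (.g (nat_lit 933) (.e (nat_lit 163867) (nat_lit 2) (.e (nat_lit 196655) (nat_lit 11) (.e (nat_lit 16465) (nat_lit 13) (.e (nat_lit 491264) (nat_lit 9) .nil)))) (.g (nat_lit 0) (.e (nat_lit 144602) (nat_lit 0) .nil) .nil))) 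
(.lf (nat_lit 491228) (.g (nat_lit 2661) (.e (nat_lit 163868) (nat_lit 2) (.e (nat_lit 196670) (nat_lit 14) (.e (nat_lit 73746) (nat_lit 3) (.e (nat_lit 516126) (nat_lit 2) (.e (nat_lit 213037) (nat_lit 13) (.e (nat_lit 229433) (nat_lit 25) (.e (nat_lit 532501) (nat_lit 1) (.e (nat_lit 57928) (nat_lit 282) .nil)))))))) (.g (nat_lit 1) (.e (nat_lit 145663) (nat_lit 0) .nil) .nil)))) 
(.nd (nat_lit 9) 
(.lf (nat_lit 490972) (.g (nat_lit 4545) (.e (nat_lit 163867) (nat_lit 2) (.e (nat_lit 196670) (nat_lit 14) (.e (nat_lit 73753) (nat_lit 8) (.e (nat_lit 557103) (nat_lit 14) (.e (nat_lit 180244) (nat_lit 5) (.e (nat_lit 532503) (nat_lit 1) (.e (nat_lit 65280) (nat_lit 168) .nil))))))) (.g (nat_lit 1) (.e (nat_lit 145047) (nat_lit 0) .nil) .nil))) 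
(.lf (nat_lit 491484) (.g (nat_lit 4845) (.e (nat_lit 163869) (nat_lit 2) (.e (nat_lit 196666) (nat_lit 13) (.e (nat_lit 65610) (nat_lit 10) (.e (nat_lit 344117) (nat_lit 21) (.e (nat_lit 516151) (nat_lit 9) (.e (nat_lit 426042) (nat_lit 0) (.e (nat_lit 2425) (nat_lit 157) (.e (nat_lit 7936) (nat_lit 285) .nil)))))))) (.g (nat_lit 1) (.e (nat_lit 146224) (nat_lit 0) .nil) .nil))))))) 
(.nd (nat_lit 6) (.nd (nat_lit 7) (.nd (nat_lit 8) (.nd (nat_lit 9) 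
(.lf (nat_lit 490556) (.g (nat_lit 3206) (.e (nat_lit 163866) (nat_lit 2) (.e (nat_lit 196654) (nat_lit 11) (.e (nat_lit 16433) (nat_lit 9) (.e (nat_lit 426568) (nat_lit 34) (.e (nat_lit 393252) (nat_lit 18) (.e (nat_lit 164332) (nat_lit 230) .nil)))))) (.g (nat_lit 1) (.e (nat_lit 144314) (nat_lit 0) .nil) .nil))) 
(.lf (nat_lit 491068) (.g (nat_lit 1685) (.e (nat_lit 163868) (nat_lit 2) (.e (nat_lit 196656) (nat_lit 11) (.e (nat_lit 16463) (nat_lit 13) (.e (nat_lit 483336) (nat_lit 9) .nil)))) (.g (nat_lit 0) (.e (nat_lit 145349) (nat_lit 0) .nil) .nil)))) (.nd (nat_lit 9) 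
(.lf (nat_lit 490812) (.g (nat_lit 2593) (.e (nat_lit 163867) (nat_lit 2) (.e (nat_lit 196668) (nat_lit 14) (.e (nat_lit 73746) (nat_lit 3) (.e (nat_lit 516131) (nat_lit 3) (.e (nat_lit 221214) (nat_lit 23) (.e (nat_lit 204830) (nat_lit 18) (.e (nat_lit 57925) (nat_lit 282) .nil))))))) (.g (nat_lit 1) (.e (nat_lit 144754) (nat_lit 0) .nil) .nil))) 
(.lf (nat_lit 491324) (.g (nat_lit 4521) (.e (nat_lit 163869) (nat_lit 2) (.e (nat_lit 196656) (nat_lit 11) (.e (nat_lit 16463) (nat_lit 13) (.e (nat_lit 483341) (nat_lit 9) (.e (nat_lit 426108) (nat_lit 1) (.e (nat_lit 164332) (nat_lit 230) .nil)))))) (.g (nat_lit 1) (.e (nat_lit 145979) (nat_lit 0) .nil) .nil))))) (.nd (nat_lit 8) (.nd (nat_lit 9) 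
(.lf (nat_lit 490684) (.g (nat_lit 3168) (.e (nat_lit 163866) (nat_lit 2) (.e (nat_lit 196681) (nat_lit 17) (.e (nat_lit 131105) (nat_lit 9) (.e (nat_lit 336454) (nat_lit 34) (.e (nat_lit 483365) (nat_lit 18) (.e (nat_lit 57931) (nat_lit 282) .nil)))))) (.g (nat_lit 1) (.e (nat_lit 144489) (nat_lit 0) .nil) .nil))) 
(.lf (nat_lit 491196) (.g (nat_lit 3135) (.e (nat_lit 163868) (nat_lit 2) (.e (nat_lit 196668) (nat_lit 14) (.e (nat_lit 73747) (nat_lit 3) (.e (nat_lit 516131) (nat_lit 3) (.e (nat_lit 221214) (nat_lit 23) (.e (nat_lit 204830) (nat_lit 18) (.e (nat_lit 57924) (nat_lit 282) .nil))))))) (.g (nat_lit 1) (.e (nat_lit 145591) (nat_lit 0) .nil) .nil)))) (.nd (nat_lit 9) 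
(.lf (nat_lit 490940) (.g (nat_lit 3156) (.e (nat_lit 163867) (nat_lit 2) (.e (nat_lit 196670) (nat_lit 14) (.e (nat_lit 73746) (nat_lit 3) (.e (nat_lit 516131) (nat_lit 3) (.e (nat_lit 221214) (nat_lit 23) (.e (nat_lit 204829) (nat_lit 18) (.e (nat_lit 57925) (nat_lit 282) .nil))))))) (.g (nat_lit 1) (.e (nat_lit 144993) (nat_lit 0) .nil) .nil))) 
(.lf (nat_lit 491452) (.g (nat_lit 4418) (.e (nat_lit 163869) (nat_lit 2) (.e (nat_lit 196666) (nat_lit 13) (.e (nat_lit 65610) (nat_lit 10) (.e (nat_lit 344117) (nat_lit 21) (.e (nat_lit 516151) (nat_lit 9) (.e (nat_lit 426022) (nat_lit 0) (.e (nat_lit 2403) (nat_lit 157) (.e (nat_lit 4847) (nat_lit 285) .nil)))))))) (.g (nat_lit 1) (.e (nat_lit 146192) (nat_lit 0) .nil) .nil)))))) 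
(.nd (nat_lit 7) (.nd (nat_lit 8) (.nd (nat_lit 9) 
(.lf (nat_lit 490620) (.g (nat_lit 2688) (.e (nat_lit 163866) (nat_lit 2) (.e (nat_lit 196666) (nat_lit 13) (.e (nat_lit 65571) (nat_lit 3) (.e (nat_lit 98342) (nat_lit 20) (.e (nat_lit 221215) (nat_lit 23) (.e (nat_lit 204829) (nat_lit 18) (.e (nat_lit 57931) (nat_lit 282) .nil))))))) (.g (nat_lit 1) (.e (nat_lit 144392) (nat_lit 0) .nil) .nil))) 
(.lf (nat_lit 491132) (.g (nat_lit 2798) (.e (nat_lit 163868) (nat_lit 2) (.e (nat_lit 196668) (nat_lit 14) (.e (nat_lit 73746) (nat_lit 3) (.e (nat_lit 516129) (nat_lit 3) (.e (nat_lit 221215) (nat_lit 23) (.e (nat_lit 204830) (nat_lit 18) (.e (nat_lit 57924) (nat_lit 282) .nil))))))) (.g (nat_lit 1) (.e (nat_lit 145452) (nat_lit 0) .nil) .nil)))) (.nd (nat_lit 9) 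
(.lf (nat_lit 490876) (.g (nat_lit 3823) (.e (nat_lit 163867) (nat_lit 2) (.e (nat_lit 196668) (nat_lit 14) (.e (nat_lit 73753) (nat_lit 8) (.e (nat_lit 557103) (nat_lit 14) (.e (nat_lit 180243) (nat_lit 5) (.e (nat_lit 532501) (nat_lit 1) (.e (nat_lit 65280) (nat_lit 168) .nil))))))) (.g (nat_lit 1) (.e (nat_lit 144873) (nat_lit 0) .nil) .nil))) 
(.lf (nat_lit 491388) (.g (nat_lit 1253) (.e (nat_lit 163869) (nat_lit 2) (.e (nat_lit 196666) (nat_lit 13) (.e (nat_lit 65571) (nat_lit 3) (.e (nat_lit 98342) (nat_lit 20) .nil)))) (.g (nat_lit 0) (.e (nat_lit 146059) (nat_lit 0) .nil) .nil))))) (.nd (nat_lit 8) (.nd (nat_lit 9) 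
(.lf (nat_lit 490748) (.g (nat_lit 3288) (.e (nat_lit 163867) (nat_lit 2) (.e (nat_lit 196663) (nat_lit 13) (.e (nat_lit 65571) (nat_lit 3) (.e (nat_lit 98341) (nat_lit 20) (.e (nat_lit 221214) (nat_lit 23) (.e (nat_lit 204830) (nat_lit 18) (.e (nat_lit 57924) (nat_lit 282) .nil))))))) (.g (nat_lit 1) (.e (nat_lit 144660) (nat_lit 0) .nil) .nil))) 
(.lf (nat_lit 491260) (.g (nat_lit 3030) (.e (nat_lit 163868) (nat_lit 2) (.e (nat_lit 196670) (nat_lit 14) (.e (nat_lit 73753) (nat_lit 8) (.e (nat_lit 557103) (nat_lit 14) (.e (nat_lit 180243) (nat_lit 5) (.e (nat_lit 532501) (nat_lit 1) (.e (nat_lit 65280) (nat_lit 168) .nil))))))) (.g (nat_lit 1) (.e (nat_lit 145695) (nat_lit 0) .nil) .nil)))) (.nd (nat_lit 9) 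
(.lf (nat_lit 491004) (.g (nat_lit 401) (.e (nat_lit 163867) (nat_lit 2) (.e (nat_lit 196681) (nat_lit 17) (.e (nat_lit 131105) (nat_lit 9) .nil))) (.g (nat_lit 0) (.e (nat_lit 145186) (nat_lit 0) .nil) .nil))) 
(.lf (nat_lit 491516) (.g (nat_lit 3754) (.e (nat_lit 163869) (nat_lit 2) (.e (nat_lit 196666) (nat_lit 13) (.e (nat_lit 65610) (nat_lit 10) (.e (nat_lit 344117) (nat_lit 21) (.e (nat_lit 516159) (nat_lit 10) (.e (nat_lit 434201) (nat_lit 18) (.e (nat_lit 7936) (nat_lit 285) .nil))))))) (.g (nat_lit 1) (.e (nat_lit 146270) (nat_lit 0) .nil) .nil))))))))))) 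
(.nd (nat_lit 2) (.nd (nat_lit 3) (.nd (nat_lit 4) (.nd (nat_lit 5) (.nd (nat_lit 6) 
(.nd (nat_lit 7) (.nd (nat_lit 8) (.nd (nat_lit 9) 
(.lf (nat_lit 490498) (.g (nat_lit 1068) (.e (nat_lit 163864) (nat_lit 1) (.e (nat_lit 164332) (nat_lit 230) (.e (nat_lit 163902) (nat_lit 12) (.e (nat_lit 426438) (nat_lit 18) .nil)))) (.g (nat_lit 0) (.e (nat_lit 144144) (nat_lit 0) .nil) .nil))) 
(.lf (nat_lit 491010) (.g (nat_lit 399) (.e (nat_lit 163867) (nat_lit 2) (.e (nat_lit 196681) (nat_lit 17) (.e (nat_lit 131109) (nat_lit 9) .nil))) (.g (nat_lit 0) (.e (nat_lit 145194) (nat_lit 0) .nil) .nil)))) (.nd (nat_lit 9) 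
(.lf (nat_lit 490754) (.g (nat_lit 3158) (.e (nat_lit 163867) (nat_lit 2) (.e (nat_lit 196663) (nat_lit 13) (.e (nat_lit 65571) (nat_lit 3) (.e (nat_lit 98341) (nat_lit 20) (.e (nat_lit 221215) (nat_lit 23) (.e (nat_lit 204830) (nat_lit 18) (.e (nat_lit 57931) (nat_lit 282) .nil))))))) (.g (nat_lit 1) (.e (nat_lit 144666) (nat_lit 0) .nil) .nil))) 
(.lf (nat_lit 491266) (.g (nat_lit 1916) (.e (nat_lit 163868) (nat_lit 2) (.e (nat_lit 196670) (nat_lit 14) (.e (nat_lit 73754) (nat_lit 8) (.e (nat_lit 557105) (nat_lit 14) (.e (nat_lit 180252) (nat_lit 10) .nil))))) (.g (nat_lit 0) (.e (nat_lit 145701) (nat_lit 0) .nil) .nil))))) (.nd (nat_lit 8) (.nd (nat_lit 9) 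
(.lf (nat_lit 490626) (.g (nat_lit 2386) (.e (nat_lit 163866) (nat_lit 2) (.e (nat_lit 196666) (nat_lit 13) (.e (nat_lit 65625) (nat_lit 13) (.e (nat_lit 393225) (nat_lit 9) (.e (nat_lit 335986) (nat_lit 1) (.e (nat_lit 57927) (nat_lit 282) .nil)))))) (.g (nat_lit 1) (.e (nat_lit 144403) (nat_lit 0) .nil) .nil))) 
(.lf (nat_lit 491138) (.g (nat_lit 2822) (.e (nat_lit 163868) (nat_lit 2) (.e (nat_lit 196668) (nat_lit 14) (.e (nat_lit 73746) (nat_lit 3) (.e (nat_lit 516131) (nat_lit 3) (.e (nat_lit 221214) (nat_lit 23) (.e (nat_lit 204829) (nat_lit 18) (.e (nat_lit 57928) (nat_lit 282) .nil))))))) (.g (nat_lit 1) (.e (nat_lit 145469) (nat_lit 0) .nil) .nil)))) (.nd (nat_lit 9) 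
(.lf (nat_lit 490882) (.g (nat_lit 2832) (.e (nat_lit 163867) (nat_lit 2) (.e (nat_lit 196668) (nat_lit 14) (.e (nat_lit 73753) (nat_lit 8) (.e (nat_lit 557104) (nat_lit 14) (.e (nat_lit 180244) (nat_lit 5) (.e (nat_lit 532499) (nat_lit 1) (.e (nat_lit 65280) (nat_lit 168) .nil))))))) (.g (nat_lit 1) (.e (nat_lit 144879) (nat_lit 0) .nil) .nil))) 
(.lf (nat_lit 491394) (.g (nat_lit 3156) (.e (nat_lit 163869) (nat_lit 2) (.e (nat_lit 196666) (nat_lit 13) (.e (nat_lit 65571) (nat_lit 3) (.e (nat_lit 98342) (nat_lit 20) (.e (nat_lit 221213) (nat_lit 23) (.e (nat_lit 204830) (nat_lit 18) (.e (nat_lit 57929) (nat_lit 282) .nil))))))) (.g (nat_lit 1) (.e (nat_lit 146068) (nat_lit 0) .nil) .nil)))))) 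
(.nd (nat_lit 7) (.nd (nat_lit 8) (.nd (nat_lit 9) 
(.lf (nat_lit 490562) (.g (nat_lit 2232) (.e (nat_lit 163866) (nat_lit 2) (.e (nat_lit 196654) (nat_lit 11) (.e (nat_lit 16438) (nat_lit 9) (.e (nat_lit 426482) (nat_lit 27) (.e (nat_lit 336388) (nat_lit 27) .nil))))) (.g (nat_lit 0) (.e (nat_lit 144321) (nat_lit 0) .nil) .nil))) 
(.lf (nat_lit 491074) (.g (nat_lit 3362) (.e (nat_lit 163868) (nat_lit 2) (.e (nat_lit 196656) (nat_lit 11) (.e (nat_lit 16466) (nat_lit 13) (.e (nat_lit 483341) (nat_lit 9) (.e (nat_lit 426098) (nat_lit 1) (.e (nat_lit 164325) (nat_lit 230) .nil)))))) (.g (nat_lit 1) (.e (nat_lit 145355) (nat_lit 0) .nil) .nil)))) (.nd (nat_lit 9) 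
(.lf (nat_lit 490818) (.g (nat_lit 2217) (.e (nat_lit 163867) (nat_lit 2) (.e (nat_lit 196668) (nat_lit 14) (.e (nat_lit 73746) (nat_lit 3) (.e (nat_lit 516131) (nat_lit 3) (.e (nat_lit 221215) (nat_lit 23) (.e (nat_lit 204829) (nat_lit 18) (.e (nat_lit 57930) (nat_lit 282) .nil))))))) (.g (nat_lit 1) (.e (nat_lit 144760) (nat_lit 0) .nil) .nil))) 
(.lf (nat_lit 491330) (.g (nat_lit 4303) (.e (nat_lit 163869) (nat_lit 2) (.e (nat_lit 196656) (nat_lit 11) (.e (nat_lit 16466) (nat_lit 13) (.e (nat_lit 483341) (nat_lit 9) (.e (nat_lit 426108) (nat_lit 1) (.e (nat_lit 164332) (nat_lit 230) .nil)))))) (.g (nat_lit 1) (.e (nat_lit 145985) (nat_lit 0) .nil) .nil))))) (.nd (nat_lit 8) (.nd (nat_lit 9) 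
(.lf (nat_lit 490690) (.g (nat_lit 3151) (.e (nat_lit 163866) (nat_lit 2) (.e (nat_lit 196681) (nat_lit 17) (.e (nat_lit 131109) (nat_lit 9) (.e (nat_lit 336454) (nat_lit 34) (.e (nat_lit 483363) (nat_lit 18) (.e (nat_lit 57931) (nat_lit 282) .nil)))))) (.g (nat_lit 1) (.e (nat_lit 144504) (nat_lit 0) .nil) .nil))) 
(.lf (nat_lit 491202) (.g (nat_lit 2194) (.e (nat_lit 163868) (nat_lit 2) (.e (nat_lit 196668) (nat_lit 14) (.e (nat_lit 73747) (nat_lit 3) (.e (nat_lit 516131) (nat_lit 3) (.e (nat_lit 221215) (nat_lit 23) (.e (nat_lit 204829) (nat_lit 18) (.e (nat_lit 57924) (nat_lit 282) .nil))))))) (.g (nat_lit 1) (.e (nat_lit 145598) (nat_lit 0) .nil) .nil)))) (.nd (nat_lit 9) 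
(.lf (nat_lit 490946) (.g (nat_lit 2899) (.e (nat_lit 163867) (nat_lit 2) (.e (nat_lit 196670) (nat_lit 14) (.e (nat_lit 73746) (nat_lit 3) (.e (nat_lit 516131) (nat_lit 3) (.e (nat_lit 221214) (nat_lit 23) (.e (nat_lit 204831) (nat_lit 18) (.e (nat_lit 57924) (nat_lit 282) .nil))))))) (.g (nat_lit 1) (.e (nat_lit 144999) (nat_lit 0) .nil) .nil))) 
(.lf (nat_lit 491458) (.g (nat_lit 3454) (.e (nat_lit 163869) (nat_lit 2) (.e (nat_lit 196666) (nat_lit 13) (.e (nat_lit 65610) (nat_lit 10) (.e (nat_lit 344117) (nat_lit 21) (.e (nat_lit 516151) (nat_lit 9) (.e (nat_lit 426034) (nat_lit 0) (.e (nat_lit 2422) (nat_lit 157) (.e (nat_lit 4849) (nat_lit 285) .nil)))))))) (.g (nat_lit 1) (.e (nat_lit 146198) (nat_lit 0) .nil) .nil))))))) 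
(.nd (nat_lit 6) (.nd (nat_lit 7) (.nd (nat_lit 8) (.nd (nat_lit 9) 
(.lf (nat_lit 490530) (.g (nat_lit 3194) (.e (nat_lit 163864) (nat_lit 1) (.e (nat_lit 164332) (nat_lit 230) (.e (nat_lit 163905) (nat_lit 12) (.e (nat_lit 426472) (nat_lit 25) (.e (nat_lit 319534) (nat_lit 16) (.e (nat_lit 286756) (nat_lit 10) (.e (nat_lit 344087) (nat_lit 18) (.e (nat_lit 7287) (nat_lit 386) .nil)))))))) (.g (nat_lit 1) (.e (nat_lit 144190) (nat_lit 0) .nil) .nil))) 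
(.lf (nat_lit 491042) (.g (nat_lit 2449) (.e (nat_lit 163868) (nat_lit 2) (.e (nat_lit 196654) (nat_lit 11) (.e (nat_lit 16463) (nat_lit 13) (.e (nat_lit 483337) (nat_lit 9) (.e (nat_lit 426097) (nat_lit 1) .nil))))) (.g (nat_lit 0) (.e (nat_lit 145290) (nat_lit 0) .nil) .nil)))) (.nd (nat_lit 9) 
(.lf (nat_lit 490786) (.g (nat_lit 2769) (.e (nat_lit 163867) (nat_lit 2) (.e (nat_lit 196667) (nat_lit 14) (.e (nat_lit 73748) (nat_lit 3) (.e (nat_lit 516131) (nat_lit 3) (.e (nat_lit 221215) (nat_lit 23) (.e (nat_lit 204831) (nat_lit 18) (.e (nat_lit 57931) (nat_lit 282) .nil))))))) (.g (nat_lit 1) (.e (nat_lit 144705) (nat_lit 0) .nil) .nil))) 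
(.lf (nat_lit 491298) (.g (nat_lit 1523) (.e (nat_lit 163869) (nat_lit 2) (.e (nat_lit 196654) (nat_lit 11) (.e (nat_lit 16436) (nat_lit 9) (.e (nat_lit 426491) (nat_lit 27) .nil)))) (.g (nat_lit 0) (.e (nat_lit 145940) (nat_lit 0) .nil) .nil))))) (.nd (nat_lit 8) (.nd (nat_lit 9) 
(.lf (nat_lit 490658) (.g (nat_lit 1919) (.e (nat_lit 163866) (nat_lit 2) (.e (nat_lit 196670) (nat_lit 14) (.e (nat_lit 73746) (nat_lit 3) (.e (nat_lit 516127) (nat_lit 2) (.e (nat_lit 213037) (nat_lit 13) (.e (nat_lit 229433) (nat_lit 25) (.e (nat_lit 532501) (nat_lit 1) (.e (nat_lit 57927) (nat_lit 282) .nil)))))))) (.g (nat_lit 1) (.e (nat_lit 144450) (nat_lit 0) .nil) .nil))) 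
(.lf (nat_lit 491170) (.g (nat_lit 2358) (.e (nat_lit 163868) (nat_lit 2) (.e (nat_lit 196668) (nat_lit 14) (.e (nat_lit 73747) (nat_lit 3) (.e (nat_lit 516129) (nat_lit 3) (.e (nat_lit 221214) (nat_lit 23) (.e (nat_lit 204831) (nat_lit 18) (.e (nat_lit 57924) (nat_lit 282) .nil))))))) (.g (nat_lit 1) (.e (nat_lit 145540) (nat_lit 0) .nil) .nil)))) (.nd (nat_lit 9) 
(.lf (nat_lit 490914) (.g (nat_lit 3563) (.e (nat_lit 163867) (nat_lit 2) (.e (nat_lit 196670) (nat_lit 14) (.e (nat_lit 73746) (nat_lit 3) (.e (nat_lit 516129) (nat_lit 3) (.e (nat_lit 221214) (nat_lit 23) (.e (nat_lit 204830) (nat_lit 18) (.e (nat_lit 57927) (nat_lit 282) .nil))))))) (.g (nat_lit 1) (.e (nat_lit 144964) (nat_lit 0) .nil) .nil))) 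
(.lf (nat_lit 491426) (.g (nat_lit 2967) (.e (nat_lit 163869) (nat_lit 2) (.e (nat_lit 196666) (nat_lit 13) (.e (nat_lit 65610) (nat_lit 10) (.e (nat_lit 344117) (nat_lit 21) (.e (nat_lit 516145) (nat_lit 9) (.e (nat_lit 425986) (nat_lit 0) (.e (nat_lit 2431) (nat_lit 157) (.e (nat_lit 4849) (nat_lit 285) .nil)))))))) (.g (nat_lit 1) (.e (nat_lit 146119) (nat_lit 0) .nil) .nil)))))) 
(.nd (nat_lit 7) (.nd (nat_lit 8) (.nd (nat_lit 9) 
(.lf (nat_lit 490594) (.g (nat_lit 4206) (.e (nat_lit 163866) (nat_lit 2) (.e (nat_lit 196666) (nat_lit 13) (.e (nat_lit 65569) (nat_lit 3) (.e (nat_lit 98342) (nat_lit 20) (.e (nat_lit 221214) (nat_lit 23) (.e (nat_lit 204829) (nat_lit 18) (.e (nat_lit 57927) (nat_lit 282) .nil))))))) (.g (nat_lit 1) (.e (nat_lit 144365) (nat_lit 0) .nil) .nil))) 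
(.lf (nat_lit 491106) (.g (nat_lit 2303) (.e (nat_lit 163868) (nat_lit 2) (.e (nat_lit 196665) (nat_lit 13) (.e (nat_lit 65569) (nat_lit 3) (.e (nat_lit 98342) (nat_lit 20) (.e (nat_lit 221214) (nat_lit 23) (.e (nat_lit 204829) (nat_lit 18) (.e (nat_lit 57927) (nat_lit 282) .nil))))))) (.g (nat_lit 1) (.e (nat_lit 145399) (nat_lit 0) .nil) .nil)))) (.nd (nat_lit 9) 
(.lf (nat_lit 490850) (.g (nat_lit 3694) (.e (nat_lit 163867) (nat_lit 2) (.e (nat_lit 196668) (nat_lit 14) (.e (nat_lit 73747) (nat_lit 3) (.e (nat_lit 516129) (nat_lit 3) (.e (nat_lit 221215) (nat_lit 23) (.e (nat_lit 204831) (nat_lit 18) (.e (nat_lit 57924) (nat_lit 282) .nil))))))) (.g (nat_lit 1) (.e (nat_lit 144814) (nat_lit 0) .nil) .nil))) 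
(.lf (nat_lit 491362) (.g (nat_lit 3891) (.e (nat_lit 163869) (nat_lit 2) (.e (nat_lit 196666) (nat_lit 13) (.e (nat_lit 65569) (nat_lit 3) (.e (nat_lit 98342) (nat_lit 20) (.e (nat_lit 221214) (nat_lit 23) (.e (nat_lit 204830) (nat_lit 18) (.e (nat_lit 57926) (nat_lit 282) .nil))))))) (.g (nat_lit 1) (.e (nat_lit 146024) (nat_lit 0) .nil) .nil))))) (.nd (nat_lit 8) (.nd (nat_lit 9) 
(.lf (nat_lit 490722) (.g (nat_lit 1610) (.e (nat_lit 163867) (nat_lit 2) (.e (nat_lit 196656) (nat_lit 11) (.e (nat_lit 16416) (nat_lit 3) (.e (nat_lit 204838) (nat_lit 20) .nil)))) (.g (nat_lit 0) (.e (nat_lit 144611) (nat_lit 0) .nil) .nil))) 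
(.lf (nat_lit 491234) (.g (nat_lit 2706) (.e (nat_lit 163868) (nat_lit 2) (.e (nat_lit 196670) (nat_lit 14) (.e (nat_lit 73746) (nat_lit 3) (.e (nat_lit 516129) (nat_lit 3) (.e (nat_lit 221196) (nat_lit 20) (.e (nat_lit 3241) (nat_lit 197) (.e (nat_lit 532499) (nat_lit 1) (.e (nat_lit 57927) (nat_lit 282) .nil)))))))) (.g (nat_lit 1) (.e (nat_lit 145669) (nat_lit 0) .nil) .nil)))) 
(.nd (nat_lit 9) 
(.lf (nat_lit 490978) (.g (nat_lit 2953) (.e (nat_lit 163867) (nat_lit 2) (.e (nat_lit 196670) (nat_lit 14) (.e (nat_lit 73753) (nat_lit 8) (.e (nat_lit 557105) (nat_lit 14) (.e (nat_lit 180245) (nat_lit 5) (.e (nat_lit 532499) (nat_lit 1) (.e (nat_lit 65280) (nat_lit 168) .nil))))))) (.g (nat_lit 1) (.e (nat_lit 145054) (nat_lit 0) .nil) .nil))) 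
(.lf (nat_lit 491490) (.g (nat_lit 2894) (.e (nat_lit 163869) (nat_lit 2) (.e (nat_lit 196666) (nat_lit 13) (.e (nat_lit 65610) (nat_lit 10) (.e (nat_lit 344117) (nat_lit 21) (.e (nat_lit 516151) (nat_lit 9) (.e (nat_lit 426043) (nat_lit 0) (.e (nat_lit 2422) (nat_lit 157) (.e (nat_lit 7936) (nat_lit 285) .nil)))))))) (.g (nat_lit 1) (.e (nat_lit 146230) (nat_lit 0) .nil) .nil)))))))) 
(.nd (nat_lit 5) (.nd (nat_lit 6) (.nd (nat_lit 7) (.nd (nat_lit 8) (.nd (nat_lit 9) 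
(.lf (nat_lit 490514) (.g (nat_lit 2383) (.e (nat_lit 163864) (nat_lit 1) (.e (nat_lit 164332) (nat_lit 230) (.e (nat_lit 163902) (nat_lit 12) (.e (nat_lit 426472) (nat_lit 25) (.e (nat_lit 319533) (nat_lit 16) (.e (nat_lit 286753) (nat_lit 10) (.e (nat_lit 344097) (nat_lit 18) (.e (nat_lit 7280) (nat_lit 386) .nil)))))))) (.g (nat_lit 1) (.e (nat_lit 144160) (nat_lit 0) .nil) .nil))) 
(.lf (nat_lit 491026) (.g (nat_lit 1592) (.e (nat_lit 163868) (nat_lit 2) (.e (nat_lit 196654) (nat_lit 11) (.e (nat_lit 16416) (nat_lit 3) (.e (nat_lit 204833) (nat_lit 19) .nil)))) (.g (nat_lit 0) (.e (nat_lit 145258) (nat_lit 0) .nil) .nil)))) (.nd (nat_lit 9) 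
(.lf (nat_lit 490770) (.g (nat_lit 2288) (.e (nat_lit 163867) (nat_lit 2) (.e (nat_lit 196663) (nat_lit 13) (.e (nat_lit 65571) (nat_lit 3) (.e (nat_lit 98342) (nat_lit 20) (.e (nat_lit 221215) (nat_lit 23) (.e (nat_lit 204830) (nat_lit 18) (.e (nat_lit 57929) (nat_lit 282) .nil))))))) (.g (nat_lit 1) (.e (nat_lit 144685) (nat_lit 0) .nil) .nil))) 
(.lf (nat_lit 491282) (.g (nat_lit 3027) (.e (nat_lit 163868) (nat_lit 2) (.e (nat_lit 196681) (nat_lit 17) (.e (nat_lit 131109) (nat_lit 9) (.e (nat_lit 336454) (nat_lit 34) (.e (nat_lit 483363) (nat_lit 18) (.e (nat_lit 57927) (nat_lit 282) .nil)))))) (.g (nat_lit 1) (.e (nat_lit 145890) (nat_lit 0) .nil) .nil))))) (.nd (nat_lit 8) (.nd (nat_lit 9) 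
(.lf (nat_lit 490642) (.g (nat_lit 2139) (.e (nat_lit 163866) (nat_lit 2) (.e (nat_lit 196668) (nat_lit 14) (.e (nat_lit 73747) (nat_lit 3) (.e (nat_lit 516129) (nat_lit 3) (.e (nat_lit 221215) (nat_lit 23) (.e (nat_lit 204829) (nat_lit 18) (.e (nat_lit 57926) (nat_lit 282) .nil))))))) (.g (nat_lit 1) (.e (nat_lit 144432) (nat_lit 0) .nil) .nil))) 
(.lf (nat_lit 491154) (.g (nat_lit 2844) (.e (nat_lit 163868) (nat_lit 2) (.e (nat_lit 196668) (nat_lit 14) (.e (nat_lit 73747) (nat_lit 3) (.e (nat_lit 516129) (nat_lit 3) (.e (nat_lit 221204) (nat_lit 20) (.e (nat_lit 3253) (nat_lit 197) (.e (nat_lit 532504) (nat_lit 1) (.e (nat_lit 57924) (nat_lit 282) .nil)))))))) (.g (nat_lit 1) (.e (nat_lit 145495) (nat_lit 0) .nil) .nil)))) 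
(.nd (nat_lit 9) 
(.lf (nat_lit 490898) (.g (nat_lit 2866) (.e (nat_lit 163867) (nat_lit 2) (.e (nat_lit 196670) (nat_lit 14) (.e (nat_lit 73746) (nat_lit 3) (.e (nat_lit 516129) (nat_lit 3) (.e (nat_lit 221204) (nat_lit 20) (.e (nat_lit 3253) (nat_lit 197) (.e (nat_lit 532503) (nat_lit 1) (.e (nat_lit 57929) (nat_lit 282) .nil)))))))) (.g (nat_lit 1) (.e (nat_lit 144946) (nat_lit 0) .nil) .nil))) 
(.lf (nat_lit 491410) (.g (nat_lit 4614) (.e (nat_lit 163869) (nat_lit 2) (.e (nat_lit 196666) (nat_lit 13) (.e (nat_lit 65571) (nat_lit 3) (.e (nat_lit 98342) (nat_lit 20) (.e (nat_lit 221215) (nat_lit 23) (.e (nat_lit 204830) (nat_lit 18) (.e (nat_lit 57927) (nat_lit 282) .nil))))))) (.g (nat_lit 1) (.e (nat_lit 146087) (nat_lit 0) .nil) .nil)))))) 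
(.nd (nat_lit 7) (.nd (nat_lit 8) (.nd (nat_lit 9) 
(.lf (nat_lit 490578) (.g (nat_lit 1929) (.e (nat_lit 163866) (nat_lit 2) (.e (nat_lit 196656) (nat_lit 11) (.e (nat_lit 16465) (nat_lit 13) (.e (nat_lit 483341) (nat_lit 9) .nil)))) (.g (nat_lit 0) (.e (nat_lit 144346) (nat_lit 0) .nil) .nil))) 
(.lf (nat_lit 491090) (.g (nat_lit 2832) (.e (nat_lit 163868) (nat_lit 2) (.e (nat_lit 196663) (nat_lit 13) (.e (nat_lit 65571) (nat_lit 3) (.e (nat_lit 98341) (nat_lit 20) (.e (nat_lit 221214) (nat_lit 23) (.e (nat_lit 204829) (nat_lit 18) (.e (nat_lit 57928) (nat_lit 282) .nil))))))) (.g (nat_lit 1) (.e (nat_lit 145380) (nat_lit 0) .nil) .nil)))) (.nd (nat_lit 9) 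
(.lf (nat_lit 490834) (.g (nat_lit 3444) (.e (nat_lit 163867) (nat_lit 2) (.e (nat_lit 196668) (nat_lit 14) (.e (nat_lit 73747) (nat_lit 3) (.e (nat_lit 516129) (nat_lit 3) (.e (nat_lit 221214) (nat_lit 23) (.e (nat_lit 204829) (nat_lit 18) (.e (nat_lit 57926) (nat_lit 282) .nil))))))) (.g (nat_lit 1) (.e (nat_lit 144795) (nat_lit 0) .nil) .nil))) 
(.lf (nat_lit 491346) (.g (nat_lit 2488) (.e (nat_lit 163869) (nat_lit 2) (.e (nat_lit 196666) (nat_lit 13) (.e (nat_lit 65569) (nat_lit 3) (.e (nat_lit 98341) (nat_lit 20) (.e (nat_lit 221213) (nat_lit 23) (.e (nat_lit 204830) (nat_lit 18) (.e (nat_lit 57926) (nat_lit 282) .nil))))))) (.g (nat_lit 1) (.e (nat_lit 146007) (nat_lit 0) .nil) .nil))))) (.nd (nat_lit 8) (.nd (nat_lit 9) 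
(.lf (nat_lit 490706) (.g (nat_lit 3460) (.e (nat_lit 163867) (nat_lit 2) (.e (nat_lit 196654) (nat_lit 11) (.e (nat_lit 16433) (nat_lit 9) (.e (nat_lit 426568) (nat_lit 34) (.e (nat_lit 393252) (nat_lit 18) (.e (nat_lit 164330) (nat_lit 230) .nil)))))) (.g (nat_lit 1) (.e (nat_lit 144579) (nat_lit 0) .nil) .nil))) 
(.lf (nat_lit 491218) (.g (nat_lit 2438) (.e (nat_lit 163868) (nat_lit 2) (.e (nat_lit 196668) (nat_lit 14) (.e (nat_lit 73753) (nat_lit 8) (.e (nat_lit 557103) (nat_lit 14) (.e (nat_lit 180250) (nat_lit 10) .nil))))) (.g (nat_lit 0) (.e (nat_lit 145652) (nat_lit 0) .nil) .nil)))) (.nd (nat_lit 9) 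
(.lf (nat_lit 490962) (.g (nat_lit 3417) (.e (nat_lit 163867) (nat_lit 2) (.e (nat_lit 196670) (nat_lit 14) (.e (nat_lit 73746) (nat_lit 3) (.e (nat_lit 516131) (nat_lit 3) (.e (nat_lit 221215) (nat_lit 23) (.e (nat_lit 204839) (nat_lit 21) (.e (nat_lit 123228) (nat_lit 282) .nil))))))) (.g (nat_lit 1) (.e (nat_lit 145015) (nat_lit 0) .nil) .nil))) 
(.lf (nat_lit 491474) (.g (nat_lit 3144) (.e (nat_lit 163869) (nat_lit 2) (.e (nat_lit 196666) (nat_lit 13) (.e (nat_lit 65610) (nat_lit 10) (.e (nat_lit 344117) (nat_lit 21) (.e (nat_lit 516151) (nat_lit 9) (.e (nat_lit 426042) (nat_lit 0) (.e (nat_lit 2416) (nat_lit 157) (.e (nat_lit 4848) (nat_lit 285) .nil)))))))) (.g (nat_lit 1) (.e (nat_lit 146214) (nat_lit 0) .nil) .nil))))))) 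
(.nd (nat_lit 6) (.nd (nat_lit 7) (.nd (nat_lit 8) (.nd (nat_lit 9) 
(.lf (nat_lit 490546) (.g (nat_lit 1149) (.e (nat_lit 163865) (nat_lit 2) (.e (nat_lit 196668) (nat_lit 14) (.e (nat_lit 73747) (nat_lit 3) (.e (nat_lit 516131) (nat_lit 3) .nil)))) (.g (nat_lit 0) (.e (nat_lit 144297) (nat_lit 0) .nil) .nil))) 
(.lf (nat_lit 491058) (.g (nat_lit 1475) (.e (nat_lit 163868) (nat_lit 2) (.e (nat_lit 196656) (nat_lit 11) (.e (nat_lit 16416) (nat_lit 3) (.e (nat_lit 204837) (nat_lit 20) .nil)))) (.g (nat_lit 0) (.e (nat_lit 145327) (nat_lit 0) .nil) .nil)))) (.nd (nat_lit 9) 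
(.lf (nat_lit 490802) (.g (nat_lit 2737) (.e (nat_lit 163867) (nat_lit 2) (.e (nat_lit 196668) (nat_lit 14) (.e (nat_lit 73746) (nat_lit 3) (.e (nat_lit 516129) (nat_lit 3) (.e (nat_lit 221215) (nat_lit 23) (.e (nat_lit 204829) (nat_lit 18) (.e (nat_lit 57927) (nat_lit 282) .nil))))))) (.g (nat_lit 1) (.e (nat_lit 144741) (nat_lit 0) .nil) .nil))) 
(.lf (nat_lit 491314) (.g (nat_lit 2217) (.e (nat_lit 163869) (nat_lit 2) (.e (nat_lit 196656) (nat_lit 11) (.e (nat_lit 16432) (nat_lit 9) (.e (nat_lit 426566) (nat_lit 34) (.e (nat_lit 393254) (nat_lit 18) .nil))))) (.g (nat_lit 0) (.e (nat_lit 145967) (nat_lit 0) .nil) .nil))))) (.nd (nat_lit 8) (.nd (nat_lit 9) 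
(.lf (nat_lit 490674) (.g (nat_lit 3082) (.e (nat_lit 163866) (nat_lit 2) (.e (nat_lit 196672) (nat_lit 15) (.e (nat_lit 81927) (nat_lit 11) (.e (nat_lit 426500) (nat_lit 27) (.e (nat_lit 335996) (nat_lit 1) (.e (nat_lit 57931) (nat_lit 282) .nil)))))) (.g (nat_lit 1) (.e (nat_lit 144466) (nat_lit 0) .nil) .nil))) 
(.lf (nat_lit 491186) (.g (nat_lit 2833) (.e (nat_lit 163868) (nat_lit 2) (.e (nat_lit 196668) (nat_lit 14) (.e (nat_lit 73747) (nat_lit 3) (.e (nat_lit 516130) (nat_lit 3) (.e (nat_lit 221214) (nat_lit 23) (.e (nat_lit 204830) (nat_lit 18) (.e (nat_lit 57928) (nat_lit 282) .nil))))))) (.g (nat_lit 1) (.e (nat_lit 145561) (nat_lit 0) .nil) .nil)))) (.nd (nat_lit 9) 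
(.lf (nat_lit 490930) (.g (nat_lit 3511) (.e (nat_lit 163867) (nat_lit 2) (.e (nat_lit 196670) (nat_lit 14) (.e (nat_lit 73746) (nat_lit 3) (.e (nat_lit 516129) (nat_lit 3) (.e (nat_lit 221215) (nat_lit 23) (.e (nat_lit 204830) (nat_lit 18) (.e (nat_lit 57929) (nat_lit 282) .nil))))))) (.g (nat_lit 1) (.e (nat_lit 144980) (nat_lit 0) .nil) .nil))) 
(.lf (nat_lit 491442) (.g (nat_lit 3413) (.e (nat_lit 163869) (nat_lit 2) (.e (nat_lit 196666) (nat_lit 13) (.e (nat_lit 65610) (nat_lit 10) (.e (nat_lit 344117) (nat_lit 21) (.e (nat_lit 516151) (nat_lit 9) (.e (nat_lit 426018) (nat_lit 0) (.e (nat_lit 2398) (nat_lit 157) (.e (nat_lit 4847) (nat_lit 285) .nil)))))))) (.g (nat_lit 1) (.e (nat_lit 146182) (nat_lit 0) .nil) .nil)))))) 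
(.nd (nat_lit 7) (.nd (nat_lit 8) (.nd (nat_lit 9) 
(.lf (nat_lit 490610) (.g (nat_lit 2529) (.e (nat_lit 163866) (nat_lit 2) (.e (nat_lit 196666) (nat_lit 13) (.e (nat_lit 65571) (nat_lit 3) (.e (nat_lit 98341) (nat_lit 20) (.e (nat_lit 221215) (nat_lit 23) (.e (nat_lit 204831) (nat_lit 18) (.e (nat_lit 57931) (nat_lit 282) .nil))))))) (.g (nat_lit 1) (.e (nat_lit 144381) (nat_lit 0) .nil) .nil))) 
(.lf (nat_lit 491122) (.g (nat_lit 3915) (.e (nat_lit 163868) (nat_lit 2) (.e (nat_lit 196668) (nat_lit 14) (.e (nat_lit 73746) (nat_lit 3) (.e (nat_lit 516129) (nat_lit 3) (.e (nat_lit 221214) (nat_lit 23) (.e (nat_lit 204829) (nat_lit 18) (.e (nat_lit 57928) (nat_lit 282) .nil))))))) (.g (nat_lit 1) (.e (nat_lit 145441) (nat_lit 0) .nil) .nil)))) (.nd (nat_lit 9) 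
(.lf (nat_lit 490866) (.g (nat_lit 2978) (.e (nat_lit 163867) (nat_lit 2) (.e (nat_lit 196668) (nat_lit 14) (.e (nat_lit 73747) (nat_lit 3) (.e (nat_lit 516131) (nat_lit 3) (.e (nat_lit 221215) (nat_lit 23) (.e (nat_lit 204828) (nat_lit 18) (.e (nat_lit 57925) (nat_lit 282) .nil))))))) (.g (nat_lit 1) (.e (nat_lit 144840) (nat_lit 0) .nil) .nil))) 
(.lf (nat_lit 491378) (.g (nat_lit 3953) (.e (nat_lit 163869) (nat_lit 2) (.e (nat_lit 196666) (nat_lit 13) (.e (nat_lit 65571) (nat_lit 3) (.e (nat_lit 98341) (nat_lit 20) (.e (nat_lit 221214) (nat_lit 23) (.e (nat_lit 204830) (nat_lit 18) (.e (nat_lit 57926) (nat_lit 282) .nil))))))) (.g (nat_lit 1) (.e (nat_lit 146049) (nat_lit 0) .nil) .nil))))) (.nd (nat_lit 8) (.nd (nat_lit 9) 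
(.lf (nat_lit 490738) (.g (nat_lit 1054) (.e (nat_lit 163867) (nat_lit 2) (.e (nat_lit 196656) (nat_lit 11) (.e (nat_lit 16466) (nat_lit 13) (.e (nat_lit 483341) (nat_lit 9) .nil)))) (.g (nat_lit 0) (.e (nat_lit 144644) (nat_lit 0) .nil) .nil))) 
(.lf (nat_lit 491250) (.g (nat_lit 2819) (.e (nat_lit 163868) (nat_lit 2) (.e (nat_lit 196670) (nat_lit 14) (.e (nat_lit 73746) (nat_lit 3) (.e (nat_lit 516131) (nat_lit 3) (.e (nat_lit 221214) (nat_lit 23) (.e (nat_lit 204829) (nat_lit 18) (.e (nat_lit 57928) (nat_lit 282) .nil))))))) (.g (nat_lit 1) (.e (nat_lit 145685) (nat_lit 0) .nil) .nil)))) (.nd (nat_lit 9) 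
(.lf (nat_lit 490994) (.g (nat_lit 3007) (.e (nat_lit 163867) (nat_lit 2) (.e (nat_lit 196672) (nat_lit 15) (.e (nat_lit 81927) (nat_lit 11) (.e (nat_lit 426500) (nat_lit 27) (.e (nat_lit 335996) (nat_lit 1) (.e (nat_lit 57924) (nat_lit 282) .nil)))))) (.g (nat_lit 1) (.e (nat_lit 145076) (nat_lit 0) .nil) .nil))) 
(.lf (nat_lit 491506) (.g (nat_lit 4402) (.e (nat_lit 163869) (nat_lit 2) (.e (nat_lit 196666) (nat_lit 13) (.e (nat_lit 65610) (nat_lit 10) (.e (nat_lit 344117) (nat_lit 21) (.e (nat_lit 516151) (nat_lit 9) (.e (nat_lit 426142) (nat_lit 4) (.e (nat_lit 237312) (nat_lit 219) .nil))))))) (.g (nat_lit 1) (.e (nat_lit 146246) (nat_lit 0) .nil) .nil))))))))) 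
(.nd (nat_lit 4) (.nd (nat_lit 5) (.nd (nat_lit 6) (.nd (nat_lit 7) (.nd (nat_lit 8) 
(.nd (nat_lit 9) 
(.lf (nat_lit 490506) (.g (nat_lit 5367) (.e (nat_lit 163864) (nat_lit 1) (.e (nat_lit 164332) (nat_lit 230) (.e (nat_lit 163902) (nat_lit 12) (.e (nat_lit 426438) (nat_lit 18) (.e (nat_lit 98373) (nat_lit 29) (.e (nat_lit 450562) (nat_lit 0) (.e (nat_lit 6839) (nat_lit 369) .nil))))))) (.g (nat_lit 1) (.e (nat_lit 144152) (nat_lit 0) .nil) .nil))) 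
(.lf (nat_lit 491018) (.g (nat_lit 665) (.e (nat_lit 163868) (nat_lit 2) (.e (nat_lit 196624) (nat_lit 9) (.e (nat_lit 386) (nat_lit 32) .nil))) (.g (nat_lit 0) (.e (nat_lit 145238) (nat_lit 0) .nil) .nil)))) (.nd (nat_lit 9) 
(.lf (nat_lit 490762) (.g (nat_lit 2671) (.e (nat_lit 163867) (nat_lit 2) (.e (nat_lit 196663) (nat_lit 13) (.e (nat_lit 65571) (nat_lit 3) (.e (nat_lit 98342) (nat_lit 20) (.e (nat_lit 221214) (nat_lit 23) (.e (nat_lit 204830) (nat_lit 18) (.e (nat_lit 57925) (nat_lit 282) .nil))))))) (.g (nat_lit 1) (.e (nat_lit 144676) (nat_lit 0) .nil) .nil))) 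
(.lf (nat_lit 491274) (.g (nat_lit 346) (.e (nat_lit 163868) (nat_lit 2) (.e (nat_lit 196672) (nat_lit 15) (.e (nat_lit 89856) (nat_lit 18) .nil))) (.g (nat_lit 0) (.e (nat_lit 145712) (nat_lit 0) .nil) .nil))))) (.nd (nat_lit 8) (.nd (nat_lit 9) 
(.lf (nat_lit 490634) (.g (nat_lit 2112) (.e (nat_lit 163866) (nat_lit 2) (.e (nat_lit 196668) (nat_lit 14) (.e (nat_lit 73746) (nat_lit 3) (.e (nat_lit 516131) (nat_lit 3) (.e (nat_lit 221214) (nat_lit 23) (.e (nat_lit 204829) (nat_lit 18) (.e (nat_lit 57927) (nat_lit 282) .nil))))))) (.g (nat_lit 1) (.e (nat_lit 144411) (nat_lit 0) .nil) .nil))) 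
(.lf (nat_lit 491146) (.g (nat_lit 2528) (.e (nat_lit 163868) (nat_lit 2) (.e (nat_lit 196668) (nat_lit 14) (.e (nat_lit 73746) (nat_lit 3) (.e (nat_lit 516131) (nat_lit 3) (.e (nat_lit 221215) (nat_lit 23) (.e (nat_lit 204830) (nat_lit 18) (.e (nat_lit 57925) (nat_lit 282) .nil))))))) (.g (nat_lit 1) (.e (nat_lit 145478) (nat_lit 0) .nil) .nil)))) (.nd (nat_lit 9) 
(.lf (nat_lit 490890) (.g (nat_lit 1320) (.e (nat_lit 163867) (nat_lit 2) (.e (nat_lit 196670) (nat_lit 14) (.e (nat_lit 73746) (nat_lit 3) (.e (nat_lit 516124) (nat_lit 2) .nil)))) (.g (nat_lit 0) (.e (nat_lit 144893) (nat_lit 0) .nil) .nil))) 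
(.lf (nat_lit 491402) (.g (nat_lit 4518) (.e (nat_lit 163869) (nat_lit 2) (.e (nat_lit 196666) (nat_lit 13) (.e (nat_lit 65571) (nat_lit 3) (.e (nat_lit 98342) (nat_lit 20) (.e (nat_lit 221214) (nat_lit 23) (.e (nat_lit 204830) (nat_lit 18) (.e (nat_lit 57929) (nat_lit 282) .nil))))))) (.g (nat_lit 1) (.e (nat_lit 146077) (nat_lit 0) .nil) .nil)))))) 
(.nd (nat_lit 7) (.nd (nat_lit 8) (.nd (nat_lit 9) 
(.lf (nat_lit 490570) (.g (nat_lit 1599) (.e (nat_lit 163866) (nat_lit 2) (.e (nat_lit 196654) (nat_lit 11) (.e (nat_lit 16466) (nat_lit 13) (.e (nat_lit 483340) (nat_lit 9) .nil)))) (.g (nat_lit 0) (.e (nat_lit 144336) (nat_lit 0) .nil) .nil))) 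
(.lf (nat_lit 491082) (.g (nat_lit 3607) (.e (nat_lit 163868) (nat_lit 2) (.e (nat_lit 196663) (nat_lit 13) (.e (nat_lit 65569) (nat_lit 3) (.e (nat_lit 98342) (nat_lit 20) (.e (nat_lit 221214) (nat_lit 23) (.e (nat_lit 204829) (nat_lit 18) (.e (nat_lit 57927) (nat_lit 282) .nil))))))) (.g (nat_lit 1) (.e (nat_lit 145371) (nat_lit 0) .nil) .nil)))) (.nd (nat_lit 9) 
(.lf (nat_lit 490826) (.g (nat_lit 2669) (.e (nat_lit 163867) (nat_lit 2) (.e (nat_lit 196668) (nat_lit 14) (.e (nat_lit 73747) (nat_lit 3) (.e (nat_lit 516129) (nat_lit 3) (.e (nat_lit 221204) (nat_lit 20) (.e (nat_lit 3253) (nat_lit 197) (.e (nat_lit 532501) (nat_lit 1) (.e (nat_lit 57925) (nat_lit 282) .nil)))))))) (.g (nat_lit 1) (.e (nat_lit 144779) (nat_lit 0) .nil) .nil))) 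
(.lf (nat_lit 491338) (.g (nat_lit 2105) (.e (nat_lit 163869) (nat_lit 2) (.e (nat_lit 196663) (nat_lit 13) (.e (nat_lit 65571) (nat_lit 3) (.e (nat_lit 98341) (nat_lit 20) (.e (nat_lit 221215) (nat_lit 23) (.e (nat_lit 204830) (nat_lit 18) (.e (nat_lit 57929) (nat_lit 282) .nil))))))) (.g (nat_lit 1) (.e (nat_lit 145997) (nat_lit 0) .nil) .nil))))) (.nd (nat_lit 8) (.nd (nat_lit 9) 
(.lf (nat_lit 490698) (.g (nat_lit 2947) (.e (nat_lit 163866) (nat_lit 2) (.e (nat_lit 196681) (nat_lit 17) (.e (nat_lit 131109) (nat_lit 9) (.e (nat_lit 336456) (nat_lit 34) (.e (nat_lit 483365) (nat_lit 18) (.e (nat_lit 57931) (nat_lit 282) .nil)))))) (.g (nat_lit 1) (.e (nat_lit 144512) (nat_lit 0) .nil) .nil))) 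
(.lf (nat_lit 491210) (.g (nat_lit 474) (.e (nat_lit 163868) (nat_lit 2) (.e (nat_lit 196668) (nat_lit 14) (.e (nat_lit 73753) (nat_lit 8) .nil))) (.g (nat_lit 0) (.e (nat_lit 145611) (nat_lit 0) .nil) .nil)))) (.nd (nat_lit 9) 
(.lf (nat_lit 490954) (.g (nat_lit 3418) (.e (nat_lit 163867) (nat_lit 2) (.e (nat_lit 196670) (nat_lit 14) (.e (nat_lit 73746) (nat_lit 3) (.e (nat_lit 516131) (nat_lit 3) (.e (nat_lit 221215) (nat_lit 23) (.e (nat_lit 204829) (nat_lit 18) (.e (nat_lit 57927) (nat_lit 282) .nil))))))) (.g (nat_lit 1) (.e (nat_lit 145007) (nat_lit 0) .nil) .nil))) 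
(.lf (nat_lit 491466) (.g (nat_lit 4968) (.e (nat_lit 163869) (nat_lit 2) (.e (nat_lit 196666) (nat_lit 13) (.e (nat_lit 65610) (nat_lit 10) (.e (nat_lit 344117) (nat_lit 21) (.e (nat_lit 516151) (nat_lit 9) (.e (nat_lit 426038) (nat_lit 0) (.e (nat_lit 2423) (nat_lit 157) (.e (nat_lit 4848) (nat_lit 285) .nil)))))))) (.g (nat_lit 1) (.e (nat_lit 146206) (nat_lit 0) .nil) .nil))))))) 
(.nd (nat_lit 6) (.nd (nat_lit 7) (.nd (nat_lit 8) (.nd (nat_lit 9) 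
(.lf (nat_lit 490538) (.g (nat_lit 414) (.e (nat_lit 163865) (nat_lit 2) (.e (nat_lit 196654) (nat_lit 11) (.e (nat_lit 16463) (nat_lit 13) .nil))) (.g (nat_lit 0) (.e (nat_lit 144288) (nat_lit 0) .nil) .nil))) 
(.lf (nat_lit 491050) (.g (nat_lit 2879) (.e (nat_lit 163868) (nat_lit 2) (.e (nat_lit 196654) (nat_lit 11) (.e (nat_lit 16466) (nat_lit 13) (.e (nat_lit 483341) (nat_lit 9) (.e (nat_lit 426097) (nat_lit 1) (.e (nat_lit 164327) (nat_lit 230) .nil)))))) (.g (nat_lit 1) (.e (nat_lit 145308) (nat_lit 0) .nil) .nil)))) (.nd (nat_lit 9) 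
(.lf (nat_lit 490794) (.g (nat_lit 2557) (.e (nat_lit 163867) (nat_lit 2) (.e (nat_lit 196668) (nat_lit 14) (.e (nat_lit 73746) (nat_lit 3) (.e (nat_lit 516129) (nat_lit 3) (.e (nat_lit 221214) (nat_lit 23) (.e (nat_lit 204830) (nat_lit 18) (.e (nat_lit 57927) (nat_lit 282) .nil))))))) (.g (nat_lit 1) (.e (nat_lit 144733) (nat_lit 0) .nil) .nil))) 
(.lf (nat_lit 491306) (.g (nat_lit 2065) (.e (nat_lit 163869) (nat_lit 2) (.e (nat_lit 196654) (nat_lit 11) (.e (nat_lit 16463) (nat_lit 13) (.e (nat_lit 483341) (nat_lit 9) (.e (nat_lit 426105) (nat_lit 1) .nil))))) (.g (nat_lit 0) (.e (nat_lit 145948) (nat_lit 0) .nil) .nil))))) (.nd (nat_lit 8) (.nd (nat_lit 9) 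
(.lf (nat_lit 490666) (.g (nat_lit 3408) (.e (nat_lit 163866) (nat_lit 2) (.e (nat_lit 196670) (nat_lit 14) (.e (nat_lit 73746) (nat_lit 3) (.e (nat_lit 516129) (nat_lit 3) (.e (nat_lit 221215) (nat_lit 23) (.e (nat_lit 204831) (nat_lit 18) (.e (nat_lit 57931) (nat_lit 282) .nil))))))) (.g (nat_lit 1) (.e (nat_lit 144458) (nat_lit 0) .nil) .nil))) 
(.lf (nat_lit 491178) (.g (nat_lit 4363) (.e (nat_lit 163868) (nat_lit 2) (.e (nat_lit 196668) (nat_lit 14) (.e (nat_lit 73747) (nat_lit 3) (.e (nat_lit 516129) (nat_lit 3) (.e (nat_lit 221215) (nat_lit 23) (.e (nat_lit 204829) (nat_lit 18) (.e (nat_lit 57928) (nat_lit 282) .nil))))))) (.g (nat_lit 1) (.e (nat_lit 145552) (nat_lit 0) .nil) .nil)))) (.nd (nat_lit 9) 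
(.lf (nat_lit 490922) (.g (nat_lit 3838) (.e (nat_lit 163867) (nat_lit 2) (.e (nat_lit 196670) (nat_lit 14) (.e (nat_lit 73746) (nat_lit 3) (.e (nat_lit 516129) (nat_lit 3) (.e (nat_lit 221215) (nat_lit 23) (.e (nat_lit 204829) (nat_lit 18) (.e (nat_lit 57925) (nat_lit 282) .nil))))))) (.g (nat_lit 1) (.e (nat_lit 144972) (nat_lit 0) .nil) .nil))) 
(.lf (nat_lit 491434) (.g (nat_lit 3225) (.e (nat_lit 163869) (nat_lit 2) (.e (nat_lit 196666) (nat_lit 13) (.e (nat_lit 65610) (nat_lit 10) (.e (nat_lit 344117) (nat_lit 21) (.e (nat_lit 516151) (nat_lit 9) (.e (nat_lit 426003) (nat_lit 0) (.e (nat_lit 2397) (nat_lit 157) (.e (nat_lit 4847) (nat_lit 285) .nil)))))))) (.g (nat_lit 1) (.e (nat_lit 146174) (nat_lit 0) .nil) .nil)))))) 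
(.nd (nat_lit 7) (.nd (nat_lit 8) (.nd (nat_lit 9) 
(.lf (nat_lit 490602) (.g (nat_lit 2528) (.e (nat_lit 163866) (nat_lit 2) (.e (nat_lit 196666) (nat_lit 13) (.e (nat_lit 65569) (nat_lit 3) (.e (nat_lit 98342) (nat_lit 20) (.e (nat_lit 221215) (nat_lit 23) (.e (nat_lit 204830) (nat_lit 18) (.e (nat_lit 57929) (nat_lit 282) .nil))))))) (.g (nat_lit 1) (.e (nat_lit 144373) (nat_lit 0) .nil) .nil))) 
(.lf (nat_lit 491114) (.g (nat_lit 2740) (.e (nat_lit 163868) (nat_lit 2) (.e (nat_lit 196666) (nat_lit 13) (.e (nat_lit 65610) (nat_lit 10) (.e (nat_lit 344117) (nat_lit 21) .nil)))) (.g (nat_lit 0) (.e (nat_lit 145407) (nat_lit 0) .nil) .nil)))) (.nd (nat_lit 9) 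
(.lf (nat_lit 490858) (.g (nat_lit 2628) (.e (nat_lit 163867) (nat_lit 2) (.e (nat_lit 196668) (nat_lit 14) (.e (nat_lit 73747) (nat_lit 3) (.e (nat_lit 516130) (nat_lit 3) (.e (nat_lit 221215) (nat_lit 23) (.e (nat_lit 204830) (nat_lit 18) (.e (nat_lit 57924) (nat_lit 282) .nil))))))) (.g (nat_lit 1) (.e (nat_lit 144822) (nat_lit 0) .nil) .nil))) 
(.lf (nat_lit 491370) (.g (nat_lit 2224) (.e (nat_lit 163869) (nat_lit 2) (.e (nat_lit 196666) (nat_lit 13) (.e (nat_lit 65569) (nat_lit 3) (.e (nat_lit 98342) (nat_lit 20) (.e (nat_lit 221215) (nat_lit 23) (.e (nat_lit 204831) (nat_lit 18) (.e (nat_lit 57929) (nat_lit 282) .nil))))))) (.g (nat_lit 1) (.e (nat_lit 146032) (nat_lit 0) .nil) .nil))))) (.nd (nat_lit 8) (.nd (nat_lit 9) 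
(.lf (nat_lit 490730) (.g (nat_lit 4093) (.e (nat_lit 163867) (nat_lit 2) (.e (nat_lit 196656) (nat_lit 11) (.e (nat_lit 16463) (nat_lit 13) (.e (nat_lit 483337) (nat_lit 9) (.e (nat_lit 426108) (nat_lit 1) (.e (nat_lit 164332) (nat_lit 230) .nil)))))) (.g (nat_lit 1) (.e (nat_lit 144632) (nat_lit 0) .nil) .nil))) 
(.lf (nat_lit 491242) (.g (nat_lit 3812) (.e (nat_lit 163868) (nat_lit 2) (.e (nat_lit 196670) (nat_lit 14) (.e (nat_lit 73746) (nat_lit 3) (.e (nat_lit 516129) (nat_lit 3) (.e (nat_lit 221214) (nat_lit 23) (.e (nat_lit 204830) (nat_lit 18) (.e (nat_lit 57928) (nat_lit 282) .nil))))))) (.g (nat_lit 1) (.e (nat_lit 145677) (nat_lit 0) .nil) .nil)))) (.nd (nat_lit 9) 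
(.lf (nat_lit 490986) (.g (nat_lit 1774) (.e (nat_lit 163867) (nat_lit 2) (.e (nat_lit 196672) (nat_lit 15) (.e (nat_lit 81925) (nat_lit 11) (.e (nat_lit 426500) (nat_lit 27) (.e (nat_lit 335995) (nat_lit 1) (.e (nat_lit 57929) (nat_lit 282) .nil)))))) (.g (nat_lit 1) (.e (nat_lit 145068) (nat_lit 0) .nil) .nil))) 
(.lf (nat_lit 491498) (.g (nat_lit 3561) (.e (nat_lit 163869) (nat_lit 2) (.e (nat_lit 196666) (nat_lit 13) (.e (nat_lit 65610) (nat_lit 10) (.e (nat_lit 344117) (nat_lit 21) (.e (nat_lit 516151) (nat_lit 9) (.e (nat_lit 426047) (nat_lit 0) (.e (nat_lit 2423) (nat_lit 157) (.e (nat_lit 7936) (nat_lit 285) .nil)))))))) (.g (nat_lit 1) (.e (nat_lit 146238) (nat_lit 0) .nil) .nil)))))))) 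
(.nd (nat_lit 5) (.nd (nat_lit 6) (.nd (nat_lit 7) (.nd (nat_lit 8) (.nd (nat_lit 9) 
(.lf (nat_lit 490522) (.g (nat_lit 2473) (.e (nat_lit 163864) (nat_lit 1) (.e (nat_lit 164332) (nat_lit 230) (.e (nat_lit 163905) (nat_lit 12) (.e (nat_lit 426472) (nat_lit 25) (.e (nat_lit 319533) (nat_lit 16) (.e (nat_lit 286753) (nat_lit 10) (.e (nat_lit 344087) (nat_lit 18) (.e (nat_lit 7287) (nat_lit 386) .nil)))))))) (.g (nat_lit 1) (.e (nat_lit 144182) (nat_lit 0) .nil) .nil))) 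
(.lf (nat_lit 491034) (.g (nat_lit 2634) (.e (nat_lit 163868) (nat_lit 2) (.e (nat_lit 196654) (nat_lit 11) (.e (nat_lit 16436) (nat_lit 9) (.e (nat_lit 426482) (nat_lit 27) (.e (nat_lit 336388) (nat_lit 27) .nil))))) (.g (nat_lit 0) (.e (nat_lit 145278) (nat_lit 0) .nil) .nil)))) (.nd (nat_lit 9) 
(.lf (nat_lit 490778) (.g (nat_lit 3298) (.e (nat_lit 163867) (nat_lit 2) (.e (nat_lit 196664) (nat_lit 13) (.e (nat_lit 65571) (nat_lit 3) (.e (nat_lit 98342) (nat_lit 20) (.e (nat_lit 221214) (nat_lit 23) (.e (nat_lit 204831) (nat_lit 18) (.e (nat_lit 57931) (nat_lit 282) .nil))))))) (.g (nat_lit 1) (.e (nat_lit 144693) (nat_lit 0) .nil) .nil))) 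
(.lf (nat_lit 491290) (.g (nat_lit 1556) (.e (nat_lit 163869) (nat_lit 2) (.e (nat_lit 196653) (nat_lit 11) (.e (nat_lit 16433) (nat_lit 9) (.e (nat_lit 426568) (nat_lit 34) .nil)))) (.g (nat_lit 0) (.e (nat_lit 145931) (nat_lit 0) .nil) .nil))))) (.nd (nat_lit 8) (.nd (nat_lit 9) 
(.lf (nat_lit 490650) (.g (nat_lit 2616) (.e (nat_lit 163866) (nat_lit 2) (.e (nat_lit 196668) (nat_lit 14) (.e (nat_lit 73747) (nat_lit 3) (.e (nat_lit 516131) (nat_lit 3) (.e (nat_lit 221215) (nat_lit 23) (.e (nat_lit 204830) (nat_lit 18) (.e (nat_lit 57931) (nat_lit 282) .nil))))))) (.g (nat_lit 1) (.e (nat_lit 144441) (nat_lit 0) .nil) .nil))) 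
(.lf (nat_lit 491162) (.g (nat_lit 3702) (.e (nat_lit 163868) (nat_lit 2) (.e (nat_lit 196668) (nat_lit 14) (.e (nat_lit 73747) (nat_lit 3) (.e (nat_lit 516129) (nat_lit 3) (.e (nat_lit 221214) (nat_lit 23) (.e (nat_lit 204829) (nat_lit 18) (.e (nat_lit 57925) (nat_lit 282) .nil))))))) (.g (nat_lit 1) (.e (nat_lit 145532) (nat_lit 0) .nil) .nil)))) (.nd (nat_lit 9) 
(.lf (nat_lit 490906) (.g (nat_lit 2506) (.e (nat_lit 163867) (nat_lit 2) (.e (nat_lit 196670) (nat_lit 14) (.e (nat_lit 73746) (nat_lit 3) (.e (nat_lit 516129) (nat_lit 3) (.e (nat_lit 221214) (nat_lit 23) (.e (nat_lit 204828) (nat_lit 18) (.e (nat_lit 57930) (nat_lit 282) .nil))))))) (.g (nat_lit 1) (.e (nat_lit 144956) (nat_lit 0) .nil) .nil))) 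
(.lf (nat_lit 491418) (.g (nat_lit 2711) (.e (nat_lit 163869) (nat_lit 2) (.e (nat_lit 196666) (nat_lit 13) (.e (nat_lit 65610) (nat_lit 10) (.e (nat_lit 344117) (nat_lit 21) (.e (nat_lit 516143) (nat_lit 9) (.e (nat_lit 426101) (nat_lit 1) (.e (nat_lit 171776) (nat_lit 219) .nil))))))) (.g (nat_lit 1) (.e (nat_lit 146111) (nat_lit 0) .nil) .nil)))))) 
(.nd (nat_lit 7) (.nd (nat_lit 8) (.nd (nat_lit 9) 
(.lf (nat_lit 490586) (.g (nat_lit 3149) (.e (nat_lit 163866) (nat_lit 2) (.e (nat_lit 196666) (nat_lit 13) (.e (nat_lit 65569) (nat_lit 3) (.e (nat_lit 98341) (nat_lit 20) (.e (nat_lit 221214) (nat_lit 23) (.e (nat_lit 204829) (nat_lit 18) (.e (nat_lit 57927) (nat_lit 282) .nil))))))) (.g (nat_lit 1) (.e (nat_lit 144355) (nat_lit 0) .nil) .nil))) 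
(.lf (nat_lit 491098) (.g (nat_lit 2418) (.e (nat_lit 163868) (nat_lit 2) (.e (nat_lit 196663) (nat_lit 13) (.e (nat_lit 65571) (nat_lit 3) (.e (nat_lit 98342) (nat_lit 20) (.e (nat_lit 221214) (nat_lit 23) (.e (nat_lit 204830) (nat_lit 18) (.e (nat_lit 57924) (nat_lit 282) .nil))))))) (.g (nat_lit 1) (.e (nat_lit 145389) (nat_lit 0) .nil) .nil)))) (.nd (nat_lit 9) 
(.lf (nat_lit 490842) (.g (nat_lit 3423) (.e (nat_lit 163867) (nat_lit 2) (.e (nat_lit 196668) (nat_lit 14) (.e (nat_lit 73747) (nat_lit 3) (.e (nat_lit 516129) (nat_lit 3) (.e (nat_lit 221215) (nat_lit 23) (.e (nat_lit 204828) (nat_lit 18) (.e (nat_lit 57931) (nat_lit 282) .nil))))))) (.g (nat_lit 1) (.e (nat_lit 144806) (nat_lit 0) .nil) .nil))) 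
(.lf (nat_lit 491354) (.g (nat_lit 2906) (.e (nat_lit 163869) (nat_lit 2) (.e (nat_lit 196666) (nat_lit 13) (.e (nat_lit 65569) (nat_lit 3) (.e (nat_lit 98341) (nat_lit 20) (.e (nat_lit 221215) (nat_lit 23) (.e (nat_lit 204830) (nat_lit 18) (.e (nat_lit 57926) (nat_lit 282) .nil))))))) (.g (nat_lit 1) (.e (nat_lit 146015) (nat_lit 0) .nil) .nil))))) (.nd (nat_lit 8) (.nd (nat_lit 9) 
(.lf (nat_lit 490714) (.g (nat_lit 3775) (.e (nat_lit 163867) (nat_lit 2) (.e (nat_lit 196654) (nat_lit 11) (.e (nat_lit 16466) (nat_lit 13) (.e (nat_lit 483341) (nat_lit 9) (.e (nat_lit 426108) (nat_lit 1) (.e (nat_lit 164331) (nat_lit 230) .nil)))))) (.g (nat_lit 1) (.e (nat_lit 144599) (nat_lit 0) .nil) .nil))) 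
(.lf (nat_lit 491226) (.g (nat_lit 2593) (.e (nat_lit 163868) (nat_lit 2) (.e (nat_lit 196670) (nat_lit 14) (.e (nat_lit 73746) (nat_lit 3) (.e (nat_lit 516124) (nat_lit 2) (.e (nat_lit 220928) (nat_lit 13) (.e (nat_lit 229433) (nat_lit 25) (.e (nat_lit 532499) (nat_lit 1) (.e (nat_lit 57926) (nat_lit 282) .nil)))))))) (.g (nat_lit 1) (.e (nat_lit 145661) (nat_lit 0) .nil) .nil)))) 
(.nd (nat_lit 9) 
(.lf (nat_lit 490970) (.g (nat_lit 4921) (.e (nat_lit 163867) (nat_lit 2) (.e (nat_lit 196670) (nat_lit 14) (.e (nat_lit 73753) (nat_lit 8) (.e (nat_lit 557103) (nat_lit 14) (.e (nat_lit 180244) (nat_lit 5) (.e (nat_lit 532499) (nat_lit 1) (.e (nat_lit 65280) (nat_lit 168) .nil))))))) (.g (nat_lit 1) (.e (nat_lit 145045) (nat_lit 0) .nil) .nil))) 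
(.lf (nat_lit 491482) (.g (nat_lit 3527) (.e (nat_lit 163869) (nat_lit 2) (.e (nat_lit 196666) (nat_lit 13) (.e (nat_lit 65610) (nat_lit 10) (.e (nat_lit 344117) (nat_lit 21) (.e (nat_lit 516151) (nat_lit 9) (.e (nat_lit 426042) (nat_lit 0) (.e (nat_lit 2424) (nat_lit 157) (.e (nat_lit 7936) (nat_lit 285) .nil)))))))) (.g (nat_lit 1) (.e (nat_lit 146222) (nat_lit 0) .nil) .nil))))))) 
(.nd (nat_lit 6) (.nd (nat_lit 7) (.nd (nat_lit 8) (.nd (nat_lit 9) 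
(.lf (nat_lit 490554) (.g (nat_lit 2183) (.e (nat_lit 163866) (nat_lit 2) (.e (nat_lit 196654) (nat_lit 11) (.e (nat_lit 16416) (nat_lit 3) (.e (nat_lit 204835) (nat_lit 19) .nil)))) (.g (nat_lit 0) (.e (nat_lit 144309) (nat_lit 0) .nil) .nil))) 
(.lf (nat_lit 491066) (.g (nat_lit 1662) (.e (nat_lit 163868) (nat_lit 2) (.e (nat_lit 196656) (nat_lit 11) (.e (nat_lit 16437) (nat_lit 9) (.e (nat_lit 426568) (nat_lit 34) (.e (nat_lit 393253) (nat_lit 18) .nil))))) (.g (nat_lit 0) (.e (nat_lit 145343) (nat_lit 0) .nil) .nil)))) (.nd (nat_lit 9) 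
(.lf (nat_lit 490810) (.g (nat_lit 1974) (.e (nat_lit 163867) (nat_lit 2) (.e (nat_lit 196668) (nat_lit 14) (.e (nat_lit 73746) (nat_lit 3) (.e (nat_lit 516131) (nat_lit 3) (.e (nat_lit 221213) (nat_lit 23) (.e (nat_lit 204830) (nat_lit 18) (.e (nat_lit 57924) (nat_lit 282) .nil))))))) (.g (nat_lit 1) (.e (nat_lit 144752) (nat_lit 0) .nil) .nil))) 
(.lf (nat_lit 491322) (.g (nat_lit 1036) (.e (nat_lit 163869) (nat_lit 2) (.e (nat_lit 196656) (nat_lit 11) (.e (nat_lit 16463) (nat_lit 13) (.e (nat_lit 483341) (nat_lit 9) .nil)))) (.g (nat_lit 0) (.e (nat_lit 145977) (nat_lit 0) .nil) .nil))))) (.nd (nat_lit 8) (.nd (nat_lit 9) 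
(.lf (nat_lit 490682) (.g (nat_lit 2584) (.e (nat_lit 163866) (nat_lit 2) (.e (nat_lit 196681) (nat_lit 17) (.e (nat_lit 131105) (nat_lit 9) (.e (nat_lit 336454) (nat_lit 34) (.e (nat_lit 483364) (nat_lit 18) (.e (nat_lit 57927) (nat_lit 282) .nil)))))) (.g (nat_lit 1) (.e (nat_lit 144487) (nat_lit 0) .nil) .nil))) 
(.lf (nat_lit 491194) (.g (nat_lit 3069) (.e (nat_lit 163868) (nat_lit 2) (.e (nat_lit 196668) (nat_lit 14) (.e (nat_lit 73747) (nat_lit 3) (.e (nat_lit 516131) (nat_lit 3) (.e (nat_lit 221214) (nat_lit 23) (.e (nat_lit 204829) (nat_lit 18) (.e (nat_lit 57925) (nat_lit 282) .nil))))))) (.g (nat_lit 1) (.e (nat_lit 145589) (nat_lit 0) .nil) .nil)))) (.nd (nat_lit 9) 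
(.lf (nat_lit 490938) (.g (nat_lit 2672) (.e (nat_lit 163867) (nat_lit 2) (.e (nat_lit 196670) (nat_lit 14) (.e (nat_lit 73746) (nat_lit 3) (.e (nat_lit 516131) (nat_lit 3) (.e (nat_lit 221213) (nat_lit 23) (.e (nat_lit 204829) (nat_lit 18) (.e (nat_lit 57927) (nat_lit 282) .nil))))))) (.g (nat_lit 1) (.e (nat_lit 144991) (nat_lit 0) .nil) .nil))) 
(.lf (nat_lit 491450) (.g (nat_lit 4224) (.e (nat_lit 163869) (nat_lit 2) (.e (nat_lit 196666) (nat_lit 13) (.e (nat_lit 65610) (nat_lit 10) (.e (nat_lit 344117) (nat_lit 21) (.e (nat_lit 516151) (nat_lit 9) (.e (nat_lit 426022) (nat_lit 0) (.e (nat_lit 2400) (nat_lit 157) (.e (nat_lit 4847) (nat_lit 285) .nil)))))))) (.g (nat_lit 1) (.e (nat_lit 146190) (nat_lit 0) .nil) .nil)))))) 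
(.nd (nat_lit 7) (.nd (nat_lit 8) (.nd (nat_lit 9) 
(.lf (nat_lit 490618) (.g (nat_lit 2333) (.e (nat_lit 163866) (nat_lit 2) (.e (nat_lit 196666) (nat_lit 13) (.e (nat_lit 65571) (nat_lit 3) (.e (nat_lit 98342) (nat_lit 20) (.e (nat_lit 221215) (nat_lit 23) .nil))))) (.g (nat_lit 0) (.e (nat_lit 144390) (nat_lit 0) .nil) .nil))) 
(.lf (nat_lit 491130) (.g (nat_lit 4586) (.e (nat_lit 163868) (nat_lit 2) (.e (nat_lit 196668) (nat_lit 14) (.e (nat_lit 73746) (nat_lit 3) (.e (nat_lit 516129) (nat_lit 3) (.e (nat_lit 221215) (nat_lit 23) (.e (nat_lit 204829) (nat_lit 18) (.e (nat_lit 57927) (nat_lit 282) .nil))))))) (.g (nat_lit 1) (.e (nat_lit 145450) (nat_lit 0) .nil) .nil)))) (.nd (nat_lit 9) 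
(.lf (nat_lit 490874) (.g (nat_lit 463) (.e (nat_lit 163867) (nat_lit 2) (.e (nat_lit 196668) (nat_lit 14) (.e (nat_lit 73753) (nat_lit 8) .nil))) (.g (nat_lit 0) (.e (nat_lit 144850) (nat_lit 0) .nil) .nil))) 
(.lf (nat_lit 491386) (.g (nat_lit 3736) (.e (nat_lit 163869) (nat_lit 2) (.e (nat_lit 196666) (nat_lit 13) (.e (nat_lit 65571) (nat_lit 3) (.e (nat_lit 98341) (nat_lit 20) (.e (nat_lit 221215) (nat_lit 23) (.e (nat_lit 204830) (nat_lit 18) (.e (nat_lit 57929) (nat_lit 282) .nil))))))) (.g (nat_lit 1) (.e (nat_lit 146057) (nat_lit 0) .nil) .nil))))) (.nd (nat_lit 8) (.nd (nat_lit 9) 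
(.lf (nat_lit 490746) (.g (nat_lit 2966) (.e (nat_lit 163867) (nat_lit 2) (.e (nat_lit 196663) (nat_lit 13) (.e (nat_lit 65571) (nat_lit 3) (.e (nat_lit 98341) (nat_lit 20) (.e (nat_lit 221196) (nat_lit 20) (.e (nat_lit 3230) (nat_lit 197) (.e (nat_lit 532503) (nat_lit 1) (.e (nat_lit 57931) (nat_lit 282) .nil)))))))) (.g (nat_lit 1) (.e (nat_lit 144658) (nat_lit 0) .nil) .nil))) 
(.lf (nat_lit 491258) (.g (nat_lit 3052) (.e (nat_lit 163868) (nat_lit 2) (.e (nat_lit 196670) (nat_lit 14) (.e (nat_lit 73753) (nat_lit 8) (.e (nat_lit 557100) (nat_lit 13) (.e (nat_lit 172065) (nat_lit 3) (.e (nat_lit 204830) (nat_lit 18) (.e (nat_lit 65280) (nat_lit 168) .nil))))))) (.g (nat_lit 1) (.e (nat_lit 145693) (nat_lit 0) .nil) .nil)))) (.nd (nat_lit 9) 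
(.lf (nat_lit 491002) (.g (nat_lit 3306) (.e (nat_lit 163867) (nat_lit 2) (.e (nat_lit 196674) (nat_lit 15) (.e (nat_lit 81925) (nat_lit 11) (.e (nat_lit 426500) (nat_lit 27) (.e (nat_lit 335996) (nat_lit 1) (.e (nat_lit 57931) (nat_lit 282) .nil)))))) (.g (nat_lit 1) (.e (nat_lit 145176) (nat_lit 0) .nil) .nil))) 
(.lf (nat_lit 491514) (.g (nat_lit 3252) (.e (nat_lit 163869) (nat_lit 2) (.e (nat_lit 196666) (nat_lit 13) (.e (nat_lit 65610) (nat_lit 10) (.e (nat_lit 344117) (nat_lit 21) (.e (nat_lit 516159) (nat_lit 10) (.e (nat_lit 434200) (nat_lit 18) (.e (nat_lit 7936) (nat_lit 285) .nil))))))) (.g (nat_lit 1) (.e (nat_lit 146268) (nat_lit 0) .nil) .nil)))))))))) 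
(.nd (nat_lit 3) (.nd (nat_lit 4) (.nd (nat_lit 5) (.nd (nat_lit 6) (.nd (nat_lit 7) 
(.nd (nat_lit 8) (.nd (nat_lit 9) 
(.lf (nat_lit 490502) (.g (nat_lit 3079) (.e (nat_lit 163864) (nat_lit 1) (.e (nat_lit 164332) (nat_lit 230) (.e (nat_lit 163902) (nat_lit 12) (.e (nat_lit 426438) (nat_lit 18) (.e (nat_lit 98372) (nat_lit 29) (.e (nat_lit 450568) (nat_lit 0) (.e (nat_lit 7936) (nat_lit 369) .nil))))))) (.g (nat_lit 1) (.e (nat_lit 144148) (nat_lit 0) .nil) .nil))) 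
(.lf (nat_lit 491014) (.g (nat_lit 3408) (.e (nat_lit 163867) (nat_lit 2) (.e (nat_lit 196681) (nat_lit 17) (.e (nat_lit 131109) (nat_lit 9) (.e (nat_lit 336454) (nat_lit 34) (.e (nat_lit 483365) (nat_lit 18) (.e (nat_lit 57931) (nat_lit 282) .nil)))))) (.g (nat_lit 1) (.e (nat_lit 145201) (nat_lit 0) .nil) .nil)))) (.nd (nat_lit 9) 
(.lf (nat_lit 490758) (.g (nat_lit 2117) (.e (nat_lit 163867) (nat_lit 2) (.e (nat_lit 196663) (nat_lit 13) (.e (nat_lit 65571) (nat_lit 3) (.e (nat_lit 98342) (nat_lit 20) (.e (nat_lit 221213) (nat_lit 23) (.e (nat_lit 204831) (nat_lit 18) (.e (nat_lit 57931) (nat_lit 282) .nil))))))) (.g (nat_lit 1) (.e (nat_lit 144670) (nat_lit 0) .nil) .nil))) 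
(.lf (nat_lit 491270) (.g (nat_lit 1669) (.e (nat_lit 163868) (nat_lit 2) (.e (nat_lit 196672) (nat_lit 15) (.e (nat_lit 81925) (nat_lit 11) (.e (nat_lit 426500) (nat_lit 27) (.e (nat_lit 335996) (nat_lit 1) (.e (nat_lit 57924) (nat_lit 282) .nil)))))) (.g (nat_lit 1) (.e (nat_lit 145705) (nat_lit 0) .nil) .nil))))) (.nd (nat_lit 8) (.nd (nat_lit 9) 
(.lf (nat_lit 490630) (.g (nat_lit 2457) (.e (nat_lit 163866) (nat_lit 2) (.e (nat_lit 196666) (nat_lit 13) (.e (nat_lit 65625) (nat_lit 13) (.e (nat_lit 393225) (nat_lit 9) (.e (nat_lit 335996) (nat_lit 1) (.e (nat_lit 57929) (nat_lit 282) .nil)))))) (.g (nat_lit 1) (.e (nat_lit 144407) (nat_lit 0) .nil) .nil))) 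
(.lf (nat_lit 491142) (.g (nat_lit 3039) (.e (nat_lit 163868) (nat_lit 2) (.e (nat_lit 196668) (nat_lit 14) (.e (nat_lit 73746) (nat_lit 3) (.e (nat_lit 516131) (nat_lit 3) (.e (nat_lit 221215) (nat_lit 23) (.e (nat_lit 204828) (nat_lit 18) (.e (nat_lit 57926) (nat_lit 282) .nil))))))) (.g (nat_lit 1) (.e (nat_lit 145474) (nat_lit 0) .nil) .nil)))) (.nd (nat_lit 9) 
(.lf (nat_lit 490886) (.g (nat_lit 2686) (.e (nat_lit 163867) (nat_lit 2) (.e (nat_lit 196669) (nat_lit 14) (.e (nat_lit 73755) (nat_lit 8) (.e (nat_lit 557103) (nat_lit 14) (.e (nat_lit 180244) (nat_lit 5) (.e (nat_lit 532503) (nat_lit 1) (.e (nat_lit 65280) (nat_lit 168) .nil))))))) (.g (nat_lit 1) (.e (nat_lit 144888) (nat_lit 0) .nil) .nil))) 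
(.lf (nat_lit 491398) (.g (nat_lit 2534) (.e (nat_lit 163869) (nat_lit 2) (.e (nat_lit 196666) (nat_lit 13) (.e (nat_lit 65571) (nat_lit 3) (.e (nat_lit 98342) (nat_lit 20) (.e (nat_lit 221214) (nat_lit 23) (.e (nat_lit 204828) (nat_lit 18) (.e (nat_lit 57931) (nat_lit 282) .nil))))))) (.g (nat_lit 1) (.e (nat_lit 146073) (nat_lit 0) .nil) .nil)))))) 
(.nd (nat_lit 7) (.nd (nat_lit 8) (.nd (nat_lit 9) 
(.lf (nat_lit 490566) (.g (nat_lit 2286) (.e (nat_lit 163866) (nat_lit 2) (.e (nat_lit 196654) (nat_lit 11) (.e (nat_lit 16463) (nat_lit 13) (.e (nat_lit 483341) (nat_lit 9) (.e (nat_lit 426099) (nat_lit 1) .nil))))) (.g (nat_lit 0) (.e (nat_lit 144327) (nat_lit 0) .nil) .nil))) 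
(.lf (nat_lit 491078) (.g (nat_lit 1747) (.e (nat_lit 163868) (nat_lit 2) (.e (nat_lit 196663) (nat_lit 13) (.e (nat_lit 65569) (nat_lit 3) (.e (nat_lit 98341) (nat_lit 20) (.e (nat_lit 221213) (nat_lit 23) .nil))))) (.g (nat_lit 0) (.e (nat_lit 145367) (nat_lit 0) .nil) .nil)))) (.nd (nat_lit 9) 
(.lf (nat_lit 490822) (.g (nat_lit 2451) (.e (nat_lit 163867) (nat_lit 2) (.e (nat_lit 196668) (nat_lit 14) (.e (nat_lit 73746) (nat_lit 3) (.e (nat_lit 516131) (nat_lit 3) (.e (nat_lit 221215) (nat_lit 23) (.e (nat_lit 204831) (nat_lit 18) (.e (nat_lit 57924) (nat_lit 282) .nil))))))) (.g (nat_lit 1) (.e (nat_lit 144764) (nat_lit 0) .nil) .nil))) 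
(.lf (nat_lit 491334) (.g (nat_lit 2435) (.e (nat_lit 163869) (nat_lit 2) (.e (nat_lit 196663) (nat_lit 13) (.e (nat_lit 65571) (nat_lit 3) (.e (nat_lit 98341) (nat_lit 20) (.e (nat_lit 221213) (nat_lit 23) (.e (nat_lit 204829) (nat_lit 18) (.e (nat_lit 57927) (nat_lit 282) .nil))))))) (.g (nat_lit 1) (.e (nat_lit 145993) (nat_lit 0) .nil) .nil))))) (.nd (nat_lit 8) (.nd (nat_lit 9) 
(.lf (nat_lit 490694) (.g (nat_lit 3146) (.e (nat_lit 163866) (nat_lit 2) (.e (nat_lit 196681) (nat_lit 17) (.e (nat_lit 131109) (nat_lit 9) (.e (nat_lit 336454) (nat_lit 34) (.e (nat_lit 483364) (nat_lit 18) (.e (nat_lit 57931) (nat_lit 282) .nil)))))) (.g (nat_lit 1) (.e (nat_lit 144508) (nat_lit 0) .nil) .nil))) 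
(.lf (nat_lit 491206) (.g (nat_lit 3256) (.e (nat_lit 163868) (nat_lit 2) (.e (nat_lit 196668) (nat_lit 14) (.e (nat_lit 73747) (nat_lit 3) (.e (nat_lit 516131) (nat_lit 3) (.e (nat_lit 221215) (nat_lit 23) (.e (nat_lit 204830) (nat_lit 18) (.e (nat_lit 57924) (nat_lit 282) .nil))))))) (.g (nat_lit 1) (.e (nat_lit 145602) (nat_lit 0) .nil) .nil)))) (.nd (nat_lit 9) 
(.lf (nat_lit 490950) (.g (nat_lit 2353) (.e (nat_lit 163867) (nat_lit 2) (.e (nat_lit 196670) (nat_lit 14) (.e (nat_lit 73746) (nat_lit 3) (.e (nat_lit 516131) (nat_lit 3) (.e (nat_lit 221215) (nat_lit 23) (.e (nat_lit 204828) (nat_lit 18) (.e (nat_lit 57926) (nat_lit 282) .nil))))))) (.g (nat_lit 1) (.e (nat_lit 145003) (nat_lit 0) .nil) .nil))) 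
(.lf (nat_lit 491462) (.g (nat_lit 3764) (.e (nat_lit 163869) (nat_lit 2) (.e (nat_lit 196666) (nat_lit 13) (.e (nat_lit 65610) (nat_lit 10) (.e (nat_lit 344117) (nat_lit 21) (.e (nat_lit 516151) (nat_lit 9) (.e (nat_lit 426037) (nat_lit 0) (.e (nat_lit 2423) (nat_lit 157) (.e (nat_lit 7936) (nat_lit 285) .nil)))))))) (.g (nat_lit 1) (.e (nat_lit 146202) (nat_lit 0) .nil) .nil))))))) 
(.nd (nat_lit 6) (.nd (nat_lit 7) (.nd (nat_lit 8) (.nd (nat_lit 9) 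
(.lf (nat_lit 490534) (.g (nat_lit 3688) (.e (nat_lit 163864) (nat_lit 1) (.e (nat_lit 164332) (nat_lit 230) (.e (nat_lit 163905) (nat_lit 12) (.e (nat_lit 426472) (nat_lit 25) (.e (nat_lit 319534) (nat_lit 16) (.e (nat_lit 286756) (nat_lit 10) (.e (nat_lit 344097) (nat_lit 18) (.e (nat_lit 7287) (nat_lit 386) .nil)))))))) (.g (nat_lit 1) (.e (nat_lit 144194) (nat_lit 0) .nil) .nil))) 
(.lf (nat_lit 491046) (.g (nat_lit 3134) (.e (nat_lit 163868) (nat_lit 2) (.e (nat_lit 196654) (nat_lit 11) (.e (nat_lit 16463) (nat_lit 13) (.e (nat_lit 483341) (nat_lit 9) (.e (nat_lit 426097) (nat_lit 1) (.e (nat_lit 164327) (nat_lit 230) .nil)))))) (.g (nat_lit 1) (.e (nat_lit 145298) (nat_lit 0) .nil) .nil)))) (.nd (nat_lit 9) 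
(.lf (nat_lit 490790) (.g (nat_lit 2621) (.e (nat_lit 163867) (nat_lit 2) (.e (nat_lit 196668) (nat_lit 14) (.e (nat_lit 73746) (nat_lit 3) (.e (nat_lit 516129) (nat_lit 3) (.e (nat_lit 221214) (nat_lit 23) (.e (nat_lit 204829) (nat_lit 18) (.e (nat_lit 57926) (nat_lit 282) .nil))))))) (.g (nat_lit 1) (.e (nat_lit 144729) (nat_lit 0) .nil) .nil))) 
(.lf (nat_lit 491302) (.g (nat_lit 3183) (.e (nat_lit 163869) (nat_lit 2) (.e (nat_lit 196654) (nat_lit 11) (.e (nat_lit 16463) (nat_lit 13) (.e (nat_lit 483337) (nat_lit 9) (.e (nat_lit 426107) (nat_lit 1) (.e (nat_lit 164326) (nat_lit 230) .nil)))))) (.g (nat_lit 1) (.e (nat_lit 145944) (nat_lit 0) .nil) .nil))))) (.nd (nat_lit 8) (.nd (nat_lit 9) 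
(.lf (nat_lit 490662) (.g (nat_lit 3734) (.e (nat_lit 163866) (nat_lit 2) (.e (nat_lit 196670) (nat_lit 14) (.e (nat_lit 73746) (nat_lit 3) (.e (nat_lit 516129) (nat_lit 3) (.e (nat_lit 221214) (nat_lit 23) (.e (nat_lit 204831) (nat_lit 18) (.e (nat_lit 57931) (nat_lit 282) .nil))))))) (.g (nat_lit 1) (.e (nat_lit 144454) (nat_lit 0) .nil) .nil))) 
(.lf (nat_lit 491174) (.g (nat_lit 3361) (.e (nat_lit 163868) (nat_lit 2) (.e (nat_lit 196668) (nat_lit 14) (.e (nat_lit 73747) (nat_lit 3) (.e (nat_lit 516129) (nat_lit 3) (.e (nat_lit 221215) (nat_lit 23) (.e (nat_lit 204828) (nat_lit 18) (.e (nat_lit 57928) (nat_lit 282) .nil))))))) (.g (nat_lit 1) (.e (nat_lit 145548) (nat_lit 0) .nil) .nil)))) (.nd (nat_lit 9) 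
(.lf (nat_lit 490918) (.g (nat_lit 3451) (.e (nat_lit 163867) (nat_lit 2) (.e (nat_lit 196670) (nat_lit 14) (.e (nat_lit 73746) (nat_lit 3) (.e (nat_lit 516129) (nat_lit 3) (.e (nat_lit 221215) (nat_lit 23) (.e (nat_lit 204828) (nat_lit 18) (.e (nat_lit 57924) (nat_lit 282) .nil))))))) (.g (nat_lit 1) (.e (nat_lit 144968) (nat_lit 0) .nil) .nil))) 
(.lf (nat_lit 491430) (.g (nat_lit 3039) (.e (nat_lit 163869) (nat_lit 2) (.e (nat_lit 196666) (nat_lit 13) (.e (nat_lit 65610) (nat_lit 10) (.e (nat_lit 344117) (nat_lit 21) (.e (nat_lit 516145) (nat_lit 9) (.e (nat_lit 426451) (nat_lit 21) (.e (nat_lit 130816) (nat_lit 174) .nil))))))) (.g (nat_lit 1) (.e (nat_lit 146170) (nat_lit 0) .nil) .nil)))))) 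
(.nd (nat_lit 7) (.nd (nat_lit 8) (.nd (nat_lit 9) 
(.lf (nat_lit 490598) (.g (nat_lit 2756) (.e (nat_lit 163866) (nat_lit 2) (.e (nat_lit 196666) (nat_lit 13) (.e (nat_lit 65569) (nat_lit 3) (.e (nat_lit 98342) (nat_lit 20) (.e (nat_lit 221214) (nat_lit 23) (.e (nat_lit 204830) (nat_lit 18) (.e (nat_lit 57929) (nat_lit 282) .nil))))))) (.g (nat_lit 1) (.e (nat_lit 144369) (nat_lit 0) .nil) .nil))) 
(.lf (nat_lit 491110) (.g (nat_lit 3109) (.e (nat_lit 163868) (nat_lit 2) (.e (nat_lit 196666) (nat_lit 13) (.e (nat_lit 65569) (nat_lit 3) (.e (nat_lit 98342) (nat_lit 20) (.e (nat_lit 221214) (nat_lit 23) (.e (nat_lit 204829) (nat_lit 18) (.e (nat_lit 57927) (nat_lit 282) .nil))))))) (.g (nat_lit 1) (.e (nat_lit 145403) (nat_lit 0) .nil) .nil)))) (.nd (nat_lit 9) 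
(.lf (nat_lit 490854) (.g (nat_lit 1650) (.e (nat_lit 163867) (nat_lit 2) (.e (nat_lit 196668) (nat_lit 14) (.e (nat_lit 73747) (nat_lit 3) (.e (nat_lit 516130) (nat_lit 3) (.e (nat_lit 221214) (nat_lit 23) .nil))))) (.g (nat_lit 0) (.e (nat_lit 144818) (nat_lit 0) .nil) .nil))) 
(.lf (nat_lit 491366) (.g (nat_lit 4247) (.e (nat_lit 163869) (nat_lit 2) (.e (nat_lit 196666) (nat_lit 13) (.e (nat_lit 65569) (nat_lit 3) (.e (nat_lit 98342) (nat_lit 20) (.e (nat_lit 221215) (nat_lit 23) (.e (nat_lit 204829) (nat_lit 18) (.e (nat_lit 57927) (nat_lit 282) .nil))))))) (.g (nat_lit 1) (.e (nat_lit 146028) (nat_lit 0) .nil) .nil))))) (.nd (nat_lit 8) (.nd (nat_lit 9) 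
(.lf (nat_lit 490726) (.g (nat_lit 3231) (.e (nat_lit 163867) (nat_lit 2) (.e (nat_lit 196656) (nat_lit 11) (.e (nat_lit 16433) (nat_lit 9) (.e (nat_lit 426566) (nat_lit 34) (.e (nat_lit 393252) (nat_lit 18) (.e (nat_lit 164332) (nat_lit 230) .nil)))))) (.g (nat_lit 1) (.e (nat_lit 144616) (nat_lit 0) .nil) .nil))) 
(.lf (nat_lit 491238) (.g (nat_lit 4678) (.e (nat_lit 163868) (nat_lit 2) (.e (nat_lit 196670) (nat_lit 14) (.e (nat_lit 73746) (nat_lit 3) (.e (nat_lit 516129) (nat_lit 3) (.e (nat_lit 221214) (nat_lit 23) (.e (nat_lit 204829) (nat_lit 18) (.e (nat_lit 57927) (nat_lit 282) .nil))))))) (.g (nat_lit 1) (.e (nat_lit 145673) (nat_lit 0) .nil) .nil)))) (.nd (nat_lit 9) 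
(.lf (nat_lit 490982) (.g (nat_lit 1189) (.e (nat_lit 163867) (nat_lit 2) (.e (nat_lit 196670) (nat_lit 14) (.e (nat_lit 73754) (nat_lit 8) (.e (nat_lit 557103) (nat_lit 14) (.e (nat_lit 180250) (nat_lit 10) .nil))))) (.g (nat_lit 0) (.e (nat_lit 145062) (nat_lit 0) .nil) .nil))) 
(.lf (nat_lit 491494) (.g (nat_lit 4094) (.e (nat_lit 163869) (nat_lit 2) (.e (nat_lit 196666) (nat_lit 13) (.e (nat_lit 65610) (nat_lit 10) (.e (nat_lit 344117) (nat_lit 21) (.e (nat_lit 516151) (nat_lit 9) (.e (nat_lit 426043) (nat_lit 0) (.e (nat_lit 2425) (nat_lit 157) (.e (nat_lit 7936) (nat_lit 285) .nil)))))))) (.g (nat_lit 1) (.e (nat_lit 146234) (nat_lit 0) .nil) .nil)))))))) 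
(.nd (nat_lit 5) (.nd (nat_lit 6) (.nd (nat_lit 7) (.nd (nat_lit 8) (.nd (nat_lit 9) 
(.lf (nat_lit 490518) (.g (nat_lit 432) (.e (nat_lit 163864) (nat_lit 1) (.e (nat_lit 164332) (nat_lit 230) (.e (nat_lit 163905) (nat_lit 12) .nil))) (.g (nat_lit 0) (.e (nat_lit 144165) (nat_lit 0) .nil) .nil))) 
(.lf (nat_lit 491030) (.g (nat_lit 1840) (.e (nat_lit 163868) (nat_lit 2) (.e (nat_lit 196654) (nat_lit 11) (.e (nat_lit 16433) (nat_lit 9) (.e (nat_lit 426566) (nat_lit 34) (.e (nat_lit 393250) (nat_lit 18) .nil))))) (.g (nat_lit 0) (.e (nat_lit 145274) (nat_lit 0) .nil) .nil)))) (.nd (nat_lit 9) 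
(.lf (nat_lit 490774) (.g (nat_lit 2655) (.e (nat_lit 163867) (nat_lit 2) (.e (nat_lit 196664) (nat_lit 13) (.e (nat_lit 65571) (nat_lit 3) (.e (nat_lit 98341) (nat_lit 20) (.e (nat_lit 221214) (nat_lit 23) (.e (nat_lit 204831) (nat_lit 18) (.e (nat_lit 57931) (nat_lit 282) .nil))))))) (.g (nat_lit 1) (.e (nat_lit 144689) (nat_lit 0) .nil) .nil))) 
(.lf (nat_lit 491286) (.g (nat_lit 642) (.e (nat_lit 163869) (nat_lit 2) (.e (nat_lit 196624) (nat_lit 9) (.e (nat_lit 386) (nat_lit 32) .nil))) (.g (nat_lit 0) (.e (nat_lit 145925) (nat_lit 0) .nil) .nil))))) (.nd (nat_lit 8) (.nd (nat_lit 9) 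
(.lf (nat_lit 490646) (.g (nat_lit 1099) (.e (nat_lit 163866) (nat_lit 2) (.e (nat_lit 196668) (nat_lit 14) (.e (nat_lit 73747) (nat_lit 3) (.e (nat_lit 516131) (nat_lit 3) .nil)))) (.g (nat_lit 0) (.e (nat_lit 144436) (nat_lit 0) .nil) .nil))) 
(.lf (nat_lit 491158) (.g (nat_lit 2893) (.e (nat_lit 163868) (nat_lit 2) (.e (nat_lit 196668) (nat_lit 14) (.e (nat_lit 73747) (nat_lit 3) (.e (nat_lit 516129) (nat_lit 3) (.e (nat_lit 221213) (nat_lit 23) (.e (nat_lit 204830) (nat_lit 18) (.e (nat_lit 57928) (nat_lit 282) .nil))))))) (.g (nat_lit 1) (.e (nat_lit 145524) (nat_lit 0) .nil) .nil)))) (.nd (nat_lit 9) 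
(.lf (nat_lit 490902) (.g (nat_lit 2946) (.e (nat_lit 163867) (nat_lit 2) (.e (nat_lit 196670) (nat_lit 14) (.e (nat_lit 73746) (nat_lit 3) (.e (nat_lit 516129) (nat_lit 3) (.e (nat_lit 221213) (nat_lit 23) (.e (nat_lit 204830) (nat_lit 18) (.e (nat_lit 57925) (nat_lit 282) .nil))))))) (.g (nat_lit 1) (.e (nat_lit 144952) (nat_lit 0) .nil) .nil))) 
(.lf (nat_lit 491414) (.g (nat_lit 543) (.e (nat_lit 163869) (nat_lit 2) (.e (nat_lit 196666) (nat_lit 13) (.e (nat_lit 65591) (nat_lit 9) .nil))) (.g (nat_lit 0) (.e (nat_lit 146098) (nat_lit 0) .nil) .nil)))))) (.nd (nat_lit 7) (.nd (nat_lit 8) (.nd (nat_lit 9) 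
(.lf (nat_lit 490582) (.g (nat_lit 2300) (.e (nat_lit 163866) (nat_lit 2) (.e (nat_lit 196664) (nat_lit 13) (.e (nat_lit 65571) (nat_lit 3) (.e (nat_lit 98341) (nat_lit 20) (.e (nat_lit 221214) (nat_lit 23) (.e (nat_lit 204830) (nat_lit 18) (.e (nat_lit 57927) (nat_lit 282) .nil))))))) (.g (nat_lit 1) (.e (nat_lit 144350) (nat_lit 0) .nil) .nil))) 
(.lf (nat_lit 491094) (.g (nat_lit 2930) (.e (nat_lit 163868) (nat_lit 2) (.e (nat_lit 196663) (nat_lit 13) (.e (nat_lit 65571) (nat_lit 3) (.e (nat_lit 98341) (nat_lit 20) (.e (nat_lit 221215) (nat_lit 23) (.e (nat_lit 204830) (nat_lit 18) (.e (nat_lit 57928) (nat_lit 282) .nil))))))) (.g (nat_lit 1) (.e (nat_lit 145384) (nat_lit 0) .nil) .nil)))) (.nd (nat_lit 9) 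
(.lf (nat_lit 490838) (.g (nat_lit 3414) (.e (nat_lit 163867) (nat_lit 2) (.e (nat_lit 196668) (nat_lit 14) (.e (nat_lit 73747) (nat_lit 3) (.e (nat_lit 516129) (nat_lit 3) (.e (nat_lit 221214) (nat_lit 23) (.e (nat_lit 204830) (nat_lit 18) (.e (nat_lit 57927) (nat_lit 282) .nil))))))) (.g (nat_lit 1) (.e (nat_lit 144799) (nat_lit 0) .nil) .nil))) 
(.lf (nat_lit 491350) (.g (nat_lit 3069) (.e (nat_lit 163869) (nat_lit 2) (.e (nat_lit 196666) (nat_lit 13) (.e (nat_lit 65569) (nat_lit 3) (.e (nat_lit 98341) (nat_lit 20) (.e (nat_lit 221214) (nat_lit 23) (.e (nat_lit 204830) (nat_lit 18) (.e (nat_lit 57926) (nat_lit 282) .nil))))))) (.g (nat_lit 1) (.e (nat_lit 146011) (nat_lit 0) .nil) .nil))))) (.nd (nat_lit 8) (.nd (nat_lit 9) 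
(.lf (nat_lit 490710) (.g (nat_lit 2262) (.e (nat_lit 163867) (nat_lit 2) (.e (nat_lit 196654) (nat_lit 11) (.e (nat_lit 16463) (nat_lit 13) (.e (nat_lit 483341) (nat_lit 9) (.e (nat_lit 426099) (nat_lit 1) .nil))))) (.g (nat_lit 0) (.e (nat_lit 144595) (nat_lit 0) .nil) .nil))) 
(.lf (nat_lit 491222) (.g (nat_lit 2495) (.e (nat_lit 163868) (nat_lit 2) (.e (nat_lit 196668) (nat_lit 14) (.e (nat_lit 73755) (nat_lit 8) (.e (nat_lit 557105) (nat_lit 14) (.e (nat_lit 180252) (nat_lit 10) .nil))))) (.g (nat_lit 0) (.e (nat_lit 145656) (nat_lit 0) .nil) .nil)))) (.nd (nat_lit 9) 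
(.lf (nat_lit 490966) (.g (nat_lit 4546) (.e (nat_lit 163867) (nat_lit 2) (.e (nat_lit 196670) (nat_lit 14) (.e (nat_lit 73753) (nat_lit 8) (.e (nat_lit 557103) (nat_lit 14) (.e (nat_lit 180243) (nat_lit 5) (.e (nat_lit 532499) (nat_lit 1) (.e (nat_lit 65280) (nat_lit 168) .nil))))))) (.g (nat_lit 1) (.e (nat_lit 145040) (nat_lit 0) .nil) .nil))) 
(.lf (nat_lit 491478) (.g (nat_lit 4742) (.e (nat_lit 163869) (nat_lit 2) (.e (nat_lit 196666) (nat_lit 13) (.e (nat_lit 65610) (nat_lit 10) (.e (nat_lit 344117) (nat_lit 21) (.e (nat_lit 516151) (nat_lit 9) (.e (nat_lit 426042) (nat_lit 0) (.e (nat_lit 2423) (nat_lit 157) (.e (nat_lit 4848) (nat_lit 285) .nil)))))))) (.g (nat_lit 1) (.e (nat_lit 146218) (nat_lit 0) .nil) .nil))))))) 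
(.nd (nat_lit 6) (.nd (nat_lit 7) (.nd (nat_lit 8) (.nd (nat_lit 9) 
(.lf (nat_lit 490550) (.g (nat_lit 788) (.e (nat_lit 163866) (nat_lit 2) (.e (nat_lit 196653) (nat_lit 11) (.e (nat_lit 16464) (nat_lit 13) (.e (nat_lit 483341) (nat_lit 9) .nil)))) (.g (nat_lit 0) (.e (nat_lit 144304) (nat_lit 0) .nil) .nil))) 
(.lf (nat_lit 491062) (.g (nat_lit 3683) (.e (nat_lit 163868) (nat_lit 2) (.e (nat_lit 196656) (nat_lit 11) (.e (nat_lit 16433) (nat_lit 9) (.e (nat_lit 426566) (nat_lit 34) (.e (nat_lit 393253) (nat_lit 18) (.e (nat_lit 164325) (nat_lit 230) .nil)))))) (.g (nat_lit 1) (.e (nat_lit 145339) (nat_lit 0) .nil) .nil)))) (.nd (nat_lit 9) 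
(.lf (nat_lit 490806) (.g (nat_lit 3394) (.e (nat_lit 163867) (nat_lit 2) (.e (nat_lit 196668) (nat_lit 14) (.e (nat_lit 73746) (nat_lit 3) (.e (nat_lit 516129) (nat_lit 3) (.e (nat_lit 221215) (nat_lit 23) (.e (nat_lit 204830) (nat_lit 18) (.e (nat_lit 57925) (nat_lit 282) .nil))))))) (.g (nat_lit 1) (.e (nat_lit 144745) (nat_lit 0) .nil) .nil))) 
(.lf (nat_lit 491318) (.g (nat_lit 1909) (.e (nat_lit 163869) (nat_lit 2) (.e (nat_lit 196656) (nat_lit 11) (.e (nat_lit 16437) (nat_lit 9) (.e (nat_lit 426568) (nat_lit 34) (.e (nat_lit 393251) (nat_lit 18) .nil))))) (.g (nat_lit 0) (.e (nat_lit 145972) (nat_lit 0) .nil) .nil))))) (.nd (nat_lit 8) (.nd (nat_lit 9) 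
(.lf (nat_lit 490678) (.g (nat_lit 3329) (.e (nat_lit 163866) (nat_lit 2) (.e (nat_lit 196681) (nat_lit 17) (.e (nat_lit 131105) (nat_lit 9) (.e (nat_lit 336454) (nat_lit 34) (.e (nat_lit 483363) (nat_lit 18) (.e (nat_lit 57926) (nat_lit 282) .nil)))))) (.g (nat_lit 1) (.e (nat_lit 144483) (nat_lit 0) .nil) .nil))) 
(.lf (nat_lit 491190) (.g (nat_lit 1075) (.e (nat_lit 163868) (nat_lit 2) (.e (nat_lit 196668) (nat_lit 14) (.e (nat_lit 73747) (nat_lit 3) (.e (nat_lit 516131) (nat_lit 3) .nil)))) (.g (nat_lit 0) (.e (nat_lit 145565) (nat_lit 0) .nil) .nil)))) (.nd (nat_lit 9) 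
(.lf (nat_lit 490934) (.g (nat_lit 1211) (.e (nat_lit 163867) (nat_lit 2) (.e (nat_lit 196670) (nat_lit 14) (.e (nat_lit 73746) (nat_lit 3) (.e (nat_lit 516131) (nat_lit 3) .nil)))) (.g (nat_lit 0) (.e (nat_lit 144984) (nat_lit 0) .nil) .nil))) 
(.lf (nat_lit 491446) (.g (nat_lit 3611) (.e (nat_lit 163869) (nat_lit 2) (.e (nat_lit 196666) (nat_lit 13) (.e (nat_lit 65610) (nat_lit 10) (.e (nat_lit 344117) (nat_lit 21) (.e (nat_lit 516151) (nat_lit 9) (.e (nat_lit 426020) (nat_lit 0) (.e (nat_lit 2439) (nat_lit 157) (.e (nat_lit 7936) (nat_lit 285) .nil)))))))) (.g (nat_lit 1) (.e (nat_lit 146186) (nat_lit 0) .nil) .nil)))))) 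
(.nd (nat_lit 7) (.nd (nat_lit 8) (.nd (nat_lit 9) 
(.lf (nat_lit 490614) (.g (nat_lit 3706) (.e (nat_lit 163866) (nat_lit 2) (.e (nat_lit 196666) (nat_lit 13) (.e (nat_lit 65571) (nat_lit 3) (.e (nat_lit 98342) (nat_lit 20) (.e (nat_lit 221214) (nat_lit 23) (.e (nat_lit 204829) (nat_lit 18) (.e (nat_lit 57927) (nat_lit 282) .nil))))))) (.g (nat_lit 1) (.e (nat_lit 144386) (nat_lit 0) .nil) .nil))) 
(.lf (nat_lit 491126) (.g (nat_lit 2978) (.e (nat_lit 163868) (nat_lit 2) (.e (nat_lit 196668) (nat_lit 14) (.e (nat_lit 73746) (nat_lit 3) (.e (nat_lit 516129) (nat_lit 3) (.e (nat_lit 221215) (nat_lit 23) (.e (nat_lit 204828) (nat_lit 18) (.e (nat_lit 57926) (nat_lit 282) .nil))))))) (.g (nat_lit 1) (.e (nat_lit 145446) (nat_lit 0) .nil) .nil)))) (.nd (nat_lit 9) 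
(.lf (nat_lit 490870) (.g (nat_lit 3640) (.e (nat_lit 163867) (nat_lit 2) (.e (nat_lit 196668) (nat_lit 14) (.e (nat_lit 73747) (nat_lit 3) (.e (nat_lit 516131) (nat_lit 3) (.e (nat_lit 221215) (nat_lit 23) (.e (nat_lit 204830) (nat_lit 18) (.e (nat_lit 57925) (nat_lit 282) .nil))))))) (.g (nat_lit 1) (.e (nat_lit 144844) (nat_lit 0) .nil) .nil))) 
(.lf (nat_lit 491382) (.g (nat_lit 2331) (.e (nat_lit 163869) (nat_lit 2) (.e (nat_lit 196666) (nat_lit 13) (.e (nat_lit 65571) (nat_lit 3) (.e (nat_lit 98341) (nat_lit 20) (.e (nat_lit 221215) (nat_lit 23) (.e (nat_lit 204828) (nat_lit 18) (.e (nat_lit 57927) (nat_lit 282) .nil))))))) (.g (nat_lit 1) (.e (nat_lit 146053) (nat_lit 0) .nil) .nil))))) (.nd (nat_lit 8) (.nd (nat_lit 9) 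
(.lf (nat_lit 490742) (.g (nat_lit 2557) (.e (nat_lit 163867) (nat_lit 2) (.e (nat_lit 196663) (nat_lit 13) (.e (nat_lit 65569) (nat_lit 3) (.e (nat_lit 98342) (nat_lit 20) (.e (nat_lit 221214) (nat_lit 23) (.e (nat_lit 204830) (nat_lit 18) (.e (nat_lit 57924) (nat_lit 282) .nil))))))) (.g (nat_lit 1) (.e (nat_lit 144653) (nat_lit 0) .nil) .nil))) 
(.lf (nat_lit 491254) (.g (nat_lit 4092) (.e (nat_lit 163868) (nat_lit 2) (.e (nat_lit 196670) (nat_lit 14) (.e (nat_lit 73746) (nat_lit 3) (.e (nat_lit 516131) (nat_lit 3) (.e (nat_lit 221215) (nat_lit 23) (.e (nat_lit 204829) (nat_lit 18) (.e (nat_lit 57927) (nat_lit 282) .nil))))))) (.g (nat_lit 1) (.e (nat_lit 145689) (nat_lit 0) .nil) .nil)))) (.nd (nat_lit 9) 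
(.lf (nat_lit 490998) (.g (nat_lit 2534) (.e (nat_lit 163867) (nat_lit 2) (.e (nat_lit 196674) (nat_lit 15) (.e (nat_lit 81925) (nat_lit 11) (.e (nat_lit 426500) (nat_lit 27) (.e (nat_lit 335986) (nat_lit 1) (.e (nat_lit 57924) (nat_lit 282) .nil)))))) (.g (nat_lit 1) (.e (nat_lit 145172) (nat_lit 0) .nil) .nil))) 
(.lf (nat_lit 491510) (.g (nat_lit 2979) (.e (nat_lit 163869) (nat_lit 2) (.e (nat_lit 196666) (nat_lit 13) (.e (nat_lit 65610) (nat_lit 10) (.e (nat_lit 344117) (nat_lit 21) (.e (nat_lit 516159) (nat_lit 10) (.e (nat_lit 434199) (nat_lit 18) (.e (nat_lit 4849) (nat_lit 285) .nil))))))) (.g (nat_lit 1) (.e (nat_lit 146264) (nat_lit 0) .nil) .nil))))))))) 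
(.nd (nat_lit 4) (.nd (nat_lit 5) (.nd (nat_lit 6) (.nd (nat_lit 7) (.nd (nat_lit 8) 
(.nd (nat_lit 9) 
(.lf (nat_lit 490510) (.g (nat_lit 2701) (.e (nat_lit 163864) (nat_lit 1) (.e (nat_lit 164332) (nat_lit 230) (.e (nat_lit 163902) (nat_lit 12) (.e (nat_lit 426438) (nat_lit 18) (.e (nat_lit 98374) (nat_lit 29) (.e (nat_lit 450565) (nat_lit 0) (.e (nat_lit 7936) (nat_lit 369) .nil))))))) (.g (nat_lit 1) (.e (nat_lit 144156) (nat_lit 0) .nil) .nil))) 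
(.lf (nat_lit 491022) (.g (nat_lit 2094) (.e (nat_lit 163868) (nat_lit 2) (.e (nat_lit 196635) (nat_lit 9) (.e (nat_lit 426) (nat_lit 32) (.e (nat_lit 426188) (nat_lit 9) (.e (nat_lit 426566) (nat_lit 34) (.e (nat_lit 393254) (nat_lit 18) (.e (nat_lit 164326) (nat_lit 230) .nil))))))) (.g (nat_lit 1) (.e (nat_lit 145254) (nat_lit 0) .nil) .nil)))) (.nd (nat_lit 9) 
(.lf (nat_lit 490766) (.g (nat_lit 2207) (.e (nat_lit 163867) (nat_lit 2) (.e (nat_lit 196663) (nat_lit 13) (.e (nat_lit 65571) (nat_lit 3) (.e (nat_lit 98342) (nat_lit 20) (.e (nat_lit 221215) (nat_lit 23) (.e (nat_lit 204829) (nat_lit 18) (.e (nat_lit 57924) (nat_lit 282) .nil))))))) (.g (nat_lit 1) (.e (nat_lit 144681) (nat_lit 0) .nil) .nil))) 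
(.lf (nat_lit 491278) (.g (nat_lit 2847) (.e (nat_lit 163868) (nat_lit 2) (.e (nat_lit 196681) (nat_lit 17) (.e (nat_lit 131105) (nat_lit 9) (.e (nat_lit 336454) (nat_lit 34) (.e (nat_lit 483363) (nat_lit 18) (.e (nat_lit 57927) (nat_lit 282) .nil)))))) (.g (nat_lit 1) (.e (nat_lit 145885) (nat_lit 0) .nil) .nil))))) (.nd (nat_lit 8) (.nd (nat_lit 9) 
(.lf (nat_lit 490638) (.g (nat_lit 1233) (.e (nat_lit 163866) (nat_lit 2) (.e (nat_lit 196668) (nat_lit 14) (.e (nat_lit 73747) (nat_lit 3) (.e (nat_lit 516129) (nat_lit 3) .nil)))) (.g (nat_lit 0) (.e (nat_lit 144426) (nat_lit 0) .nil) .nil))) 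
(.lf (nat_lit 491150) (.g (nat_lit 1000) (.e (nat_lit 163868) (nat_lit 2) (.e (nat_lit 196668) (nat_lit 14) (.e (nat_lit 73747) (nat_lit 3) (.e (nat_lit 516129) (nat_lit 3) .nil)))) (.g (nat_lit 0) (.e (nat_lit 145491) (nat_lit 0) .nil) .nil)))) (.nd (nat_lit 9) 
(.lf (nat_lit 490894) (.g (nat_lit 1345) (.e (nat_lit 163867) (nat_lit 2) (.e (nat_lit 196670) (nat_lit 14) (.e (nat_lit 73746) (nat_lit 3) (.e (nat_lit 516127) (nat_lit 2) .nil)))) (.g (nat_lit 0) (.e (nat_lit 144928) (nat_lit 0) .nil) .nil))) 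
(.lf (nat_lit 491406) (.g (nat_lit 2319) (.e (nat_lit 163869) (nat_lit 2) (.e (nat_lit 196666) (nat_lit 13) (.e (nat_lit 65571) (nat_lit 3) (.e (nat_lit 98342) (nat_lit 20) (.e (nat_lit 221215) (nat_lit 23) (.e (nat_lit 204828) (nat_lit 18) (.e (nat_lit 57926) (nat_lit 282) .nil))))))) (.g (nat_lit 1) (.e (nat_lit 146083) (nat_lit 0) .nil) .nil)))))) 
(.nd (nat_lit 7) (.nd (nat_lit 8) (.nd (nat_lit 9) 
(.lf (nat_lit 490574) (.g (nat_lit 1670) (.e (nat_lit 163866) (nat_lit 2) (.e (nat_lit 196654) (nat_lit 11) (.e (nat_lit 16466) (nat_lit 13) (.e (nat_lit 483341) (nat_lit 9) (.e (nat_lit 426105) (nat_lit 1) .nil))))) (.g (nat_lit 0) (.e (nat_lit 144340) (nat_lit 0) .nil) .nil))) 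
(.lf (nat_lit 491086) (.g (nat_lit 3167) (.e (nat_lit 163868) (nat_lit 2) (.e (nat_lit 196663) (nat_lit 13) (.e (nat_lit 65569) (nat_lit 3) (.e (nat_lit 98342) (nat_lit 20) (.e (nat_lit 221215) (nat_lit 23) (.e (nat_lit 204830) (nat_lit 18) (.e (nat_lit 57927) (nat_lit 282) .nil))))))) (.g (nat_lit 1) (.e (nat_lit 145375) (nat_lit 0) .nil) .nil)))) (.nd (nat_lit 9) 
(.lf (nat_lit 490830) (.g (nat_lit 2287) (.e (nat_lit 163867) (nat_lit 2) (.e (nat_lit 196668) (nat_lit 14) (.e (nat_lit 73747) (nat_lit 3) (.e (nat_lit 516129) (nat_lit 3) (.e (nat_lit 221213) (nat_lit 23) (.e (nat_lit 204831) (nat_lit 18) (.e (nat_lit 57931) (nat_lit 282) .nil))))))) (.g (nat_lit 1) (.e (nat_lit 144790) (nat_lit 0) .nil) .nil))) 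
(.lf (nat_lit 491342) (.g (nat_lit 2281) (.e (nat_lit 163869) (nat_lit 2) (.e (nat_lit 196664) (nat_lit 13) (.e (nat_lit 65571) (nat_lit 3) (.e (nat_lit 98341) (nat_lit 20) (.e (nat_lit 221213) (nat_lit 23) (.e (nat_lit 204829) (nat_lit 18) (.e (nat_lit 57927) (nat_lit 282) .nil))))))) (.g (nat_lit 1) (.e (nat_lit 146001) (nat_lit 0) .nil) .nil))))) (.nd (nat_lit 8) (.nd (nat_lit 9) 
(.lf (nat_lit 490702) (.g (nat_lit 870) (.e (nat_lit 163867) (nat_lit 2) (.e (nat_lit 196624) (nat_lit 9) (.e (nat_lit 433) (nat_lit 32) (.e (nat_lit 426232) (nat_lit 9) .nil)))) (.g (nat_lit 0) (.e (nat_lit 144546) (nat_lit 0) .nil) .nil))) 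
(.lf (nat_lit 491214) (.g (nat_lit 3806) (.e (nat_lit 163868) (nat_lit 2) (.e (nat_lit 196668) (nat_lit 14) (.e (nat_lit 73753) (nat_lit 8) (.e (nat_lit 557103) (nat_lit 14) (.e (nat_lit 180243) (nat_lit 5) (.e (nat_lit 532504) (nat_lit 1) (.e (nat_lit 65280) (nat_lit 168) .nil))))))) (.g (nat_lit 1) (.e (nat_lit 145646) (nat_lit 0) .nil) .nil)))) (.nd (nat_lit 9) 
(.lf (nat_lit 490958) (.g (nat_lit 2995) (.e (nat_lit 163867) (nat_lit 2) (.e (nat_lit 196670) (nat_lit 14) (.e (nat_lit 73746) (nat_lit 3) (.e (nat_lit 516131) (nat_lit 3) (.e (nat_lit 221215) (nat_lit 23) (.e (nat_lit 204830) (nat_lit 18) (.e (nat_lit 57927) (nat_lit 282) .nil))))))) (.g (nat_lit 1) (.e (nat_lit 145011) (nat_lit 0) .nil) .nil))) 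
(.lf (nat_lit 491470) (.g (nat_lit 3616) (.e (nat_lit 163869) (nat_lit 2) (.e (nat_lit 196666) (nat_lit 13) (.e (nat_lit 65610) (nat_lit 10) (.e (nat_lit 344117) (nat_lit 21) (.e (nat_lit 516151) (nat_lit 9) (.e (nat_lit 426038) (nat_lit 0) (.e (nat_lit 2458) (nat_lit 157) (.e (nat_lit 7936) (nat_lit 285) .nil)))))))) (.g (nat_lit 1) (.e (nat_lit 146210) (nat_lit 0) .nil) .nil))))))) 
(.nd (nat_lit 6) (.nd (nat_lit 7) (.nd (nat_lit 8) (.nd (nat_lit 9) 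
(.lf (nat_lit 490542) (.g (nat_lit 1033) (.e (nat_lit 163865) (nat_lit 2) (.e (nat_lit 196656) (nat_lit 11) (.e (nat_lit 16465) (nat_lit 13) .nil))) (.g (nat_lit 0) (.e (nat_lit 144292) (nat_lit 0) .nil) .nil))) 
(.lf (nat_lit 491054) (.g (nat_lit 1089) (.e (nat_lit 163868) (nat_lit 2) (.e (nat_lit 196655) (nat_lit 11) (.e (nat_lit 16435) (nat_lit 9) (.e (nat_lit 426531) (nat_lit 27) (.e (nat_lit 336387) (nat_lit 27) .nil))))) (.g (nat_lit 0) (.e (nat_lit 145312) (nat_lit 0) .nil) .nil)))) (.nd (nat_lit 9) 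
(.lf (nat_lit 490798) (.g (nat_lit 5025) (.e (nat_lit 163867) (nat_lit 2) (.e (nat_lit 196668) (nat_lit 14) (.e (nat_lit 73746) (nat_lit 3) (.e (nat_lit 516129) (nat_lit 3) (.e (nat_lit 221214) (nat_lit 23) (.e (nat_lit 204831) (nat_lit 18) (.e (nat_lit 57931) (nat_lit 282) .nil))))))) (.g (nat_lit 1) (.e (nat_lit 144737) (nat_lit 0) .nil) .nil))) 
(.lf (nat_lit 491310) (.g (nat_lit 3254) (.e (nat_lit 163869) (nat_lit 2) (.e (nat_lit 196655) (nat_lit 11) (.e (nat_lit 16434) (nat_lit 9) (.e (nat_lit 426566) (nat_lit 34) (.e (nat_lit 393254) (nat_lit 18) (.e (nat_lit 164332) (nat_lit 230) .nil)))))) (.g (nat_lit 1) (.e (nat_lit 145957) (nat_lit 0) .nil) .nil))))) (.nd (nat_lit 8) (.nd (nat_lit 9) 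
(.lf (nat_lit 490670) (.g (nat_lit 2503) (.e (nat_lit 163866) (nat_lit 2) (.e (nat_lit 196672) (nat_lit 15) (.e (nat_lit 81927) (nat_lit 11) (.e (nat_lit 426500) (nat_lit 27) (.e (nat_lit 335986) (nat_lit 1) (.e (nat_lit 57927) (nat_lit 282) .nil)))))) (.g (nat_lit 1) (.e (nat_lit 144462) (nat_lit 0) .nil) .nil))) 
(.lf (nat_lit 491182) (.g (nat_lit 2718) (.e (nat_lit 163868) (nat_lit 2) (.e (nat_lit 196668) (nat_lit 14) (.e (nat_lit 73747) (nat_lit 3) (.e (nat_lit 516129) (nat_lit 3) (.e (nat_lit 221215) (nat_lit 23) (.e (nat_lit 204831) (nat_lit 18) (.e (nat_lit 57924) (nat_lit 282) .nil))))))) (.g (nat_lit 1) (.e (nat_lit 145556) (nat_lit 0) .nil) .nil)))) (.nd (nat_lit 9) 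
(.lf (nat_lit 490926) (.g (nat_lit 4851) (.e (nat_lit 163867) (nat_lit 2) (.e (nat_lit 196670) (nat_lit 14) (.e (nat_lit 73746) (nat_lit 3) (.e (nat_lit 516129) (nat_lit 3) (.e (nat_lit 221215) (nat_lit 23) (.e (nat_lit 204830) (nat_lit 18) (.e (nat_lit 57924) (nat_lit 282) .nil))))))) (.g (nat_lit 1) (.e (nat_lit 144976) (nat_lit 0) .nil) .nil))) 
(.lf (nat_lit 491438) (.g (nat_lit 3235) (.e (nat_lit 163869) (nat_lit 2) (.e (nat_lit 196666) (nat_lit 13) (.e (nat_lit 65610) (nat_lit 10) (.e (nat_lit 344117) (nat_lit 21) (.e (nat_lit 516151) (nat_lit 9) (.e (nat_lit 426017) (nat_lit 0) (.e (nat_lit 2417) (nat_lit 157) (.e (nat_lit 4848) (nat_lit 285) .nil)))))))) (.g (nat_lit 1) (.e (nat_lit 146178) (nat_lit 0) .nil) .nil)))))) 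
(.nd (nat_lit 7) (.nd (nat_lit 8) (.nd (nat_lit 9) 
(.lf (nat_lit 490606) (.g (nat_lit 2625) (.e (nat_lit 163866) (nat_lit 2) (.e (nat_lit 196666) (nat_lit 13) (.e (nat_lit 65571) (nat_lit 3) (.e (nat_lit 98341) (nat_lit 20) (.e (nat_lit 221214) (nat_lit 23) (.e (nat_lit 204829) (nat_lit 18) (.e (nat_lit 57931) (nat_lit 282) .nil))))))) (.g (nat_lit 1) (.e (nat_lit 144377) (nat_lit 0) .nil) .nil))) 
(.lf (nat_lit 491118) (.g (nat_lit 2731) (.e (nat_lit 163868) (nat_lit 2) (.e (nat_lit 196668) (nat_lit 14) (.e (nat_lit 73746) (nat_lit 3) (.e (nat_lit 516129) (nat_lit 3) (.e (nat_lit 221214) (nat_lit 23) (.e (nat_lit 204828) (nat_lit 18) (.e (nat_lit 57927) (nat_lit 282) .nil))))))) (.g (nat_lit 1) (.e (nat_lit 145437) (nat_lit 0) .nil) .nil)))) (.nd (nat_lit 9) 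
(.lf (nat_lit 490862) (.g (nat_lit 2274) (.e (nat_lit 163867) (nat_lit 2) (.e (nat_lit 196668) (nat_lit 14) (.e (nat_lit 73747) (nat_lit 3) (.e (nat_lit 516131) (nat_lit 3) (.e (nat_lit 221213) (nat_lit 23) (.e (nat_lit 204830) (nat_lit 18) (.e (nat_lit 57929) (nat_lit 282) .nil))))))) (.g (nat_lit 1) (.e (nat_lit 144832) (nat_lit 0) .nil) .nil))) 
(.lf (nat_lit 491374) (.g (nat_lit 2858) (.e (nat_lit 163869) (nat_lit 2) (.e (nat_lit 196666) (nat_lit 13) (.e (nat_lit 65571) (nat_lit 3) (.e (nat_lit 98341) (nat_lit 20) (.e (nat_lit 221213) (nat_lit 23) (.e (nat_lit 204830) (nat_lit 18) (.e (nat_lit 57929) (nat_lit 282) .nil))))))) (.g (nat_lit 1) (.e (nat_lit 146045) (nat_lit 0) .nil) .nil))))) (.nd (nat_lit 8) (.nd (nat_lit 9) 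
(.lf (nat_lit 490734) (.g (nat_lit 1848) (.e (nat_lit 163867) (nat_lit 2) (.e (nat_lit 196656) (nat_lit 11) (.e (nat_lit 16465) (nat_lit 13) (.e (nat_lit 483337) (nat_lit 9) (.e (nat_lit 426108) (nat_lit 1) .nil))))) (.g (nat_lit 0) (.e (nat_lit 144639) (nat_lit 0) .nil) .nil))) 
(.lf (nat_lit 491246) (.g (nat_lit 4429) (.e (nat_lit 163868) (nat_lit 2) (.e (nat_lit 196670) (nat_lit 14) (.e (nat_lit 73746) (nat_lit 3) (.e (nat_lit 516129) (nat_lit 3) (.e (nat_lit 221215) (nat_lit 23) (.e (nat_lit 204829) (nat_lit 18) (.e (nat_lit 57927) (nat_lit 282) .nil))))))) (.g (nat_lit 1) (.e (nat_lit 145681) (nat_lit 0) .nil) .nil)))) (.nd (nat_lit 9) 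
(.lf (nat_lit 490990) (.g (nat_lit 2668) (.e (nat_lit 163867) (nat_lit 2) (.e (nat_lit 196672) (nat_lit 15) (.e (nat_lit 81927) (nat_lit 11) (.e (nat_lit 426500) (nat_lit 27) (.e (nat_lit 335986) (nat_lit 1) (.e (nat_lit 57927) (nat_lit 282) .nil)))))) (.g (nat_lit 1) (.e (nat_lit 145072) (nat_lit 0) .nil) .nil))) 
(.lf (nat_lit 491502) (.g (nat_lit 4723) (.e (nat_lit 163869) (nat_lit 2) (.e (nat_lit 196666) (nat_lit 13) (.e (nat_lit 65610) (nat_lit 10) (.e (nat_lit 344117) (nat_lit 21) (.e (nat_lit 516151) (nat_lit 9) (.e (nat_lit 426101) (nat_lit 1) (.e (nat_lit 171776) (nat_lit 219) .nil))))))) (.g (nat_lit 1) (.e (nat_lit 146242) (nat_lit 0) .nil) .nil)))))))) 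
(.nd (nat_lit 5) (.nd (nat_lit 6) (.nd (nat_lit 7) (.nd (nat_lit 8) (.nd (nat_lit 9) 
(.lf (nat_lit 490526) (.g (nat_lit 2053) (.e (nat_lit 163864) (nat_lit 1) (.e (nat_lit 164332) (nat_lit 230) (.e (nat_lit 163905) (nat_lit 12) (.e (nat_lit 426472) (nat_lit 25) (.e (nat_lit 319533) (nat_lit 16) (.e (nat_lit 286753) (nat_lit 10) (.e (nat_lit 344099) (nat_lit 18) (.e (nat_lit 7289) (nat_lit 386) .nil)))))))) (.g (nat_lit 1) (.e (nat_lit 144186) (nat_lit 0) .nil) .nil))) 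
(.lf (nat_lit 491038) (.g (nat_lit 1607) (.e (nat_lit 163868) (nat_lit 2) (.e (nat_lit 196654) (nat_lit 11) (.e (nat_lit 16436) (nat_lit 9) (.e (nat_lit 426505) (nat_lit 27) .nil)))) (.g (nat_lit 0) (.e (nat_lit 145283) (nat_lit 0) .nil) .nil)))) (.nd (nat_lit 9) 
(.lf (nat_lit 490782) (.g (nat_lit 2751) (.e (nat_lit 163867) (nat_lit 2) (.e (nat_lit 196665) (nat_lit 13) (.e (nat_lit 65626) (nat_lit 13) (.e (nat_lit 393225) (nat_lit 9) (.e (nat_lit 335996) (nat_lit 1) (.e (nat_lit 57924) (nat_lit 282) .nil)))))) (.g (nat_lit 1) (.e (nat_lit 144699) (nat_lit 0) .nil) .nil))) 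
(.lf (nat_lit 491294) (.g (nat_lit 3870) (.e (nat_lit 163869) (nat_lit 2) (.e (nat_lit 196654) (nat_lit 11) (.e (nat_lit 16433) (nat_lit 9) (.e (nat_lit 426568) (nat_lit 34) (.e (nat_lit 393252) (nat_lit 18) (.e (nat_lit 164332) (nat_lit 230) .nil)))))) (.g (nat_lit 1) (.e (nat_lit 145936) (nat_lit 0) .nil) .nil))))) (.nd (nat_lit 8) (.nd (nat_lit 9) 
(.lf (nat_lit 490654) (.g (nat_lit 1911) (.e (nat_lit 163866) (nat_lit 2) (.e (nat_lit 196670) (nat_lit 14) (.e (nat_lit 73746) (nat_lit 3) (.e (nat_lit 516126) (nat_lit 2) (.e (nat_lit 213033) (nat_lit 12) (.e (nat_lit 163962) (nat_lit 25) (.e (nat_lit 532500) (nat_lit 1) (.e (nat_lit 57927) (nat_lit 282) .nil)))))))) (.g (nat_lit 1) (.e (nat_lit 144446) (nat_lit 0) .nil) .nil))) 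
(.lf (nat_lit 491166) (.g (nat_lit 3751) (.e (nat_lit 163868) (nat_lit 2) (.e (nat_lit 196668) (nat_lit 14) (.e (nat_lit 73747) (nat_lit 3) (.e (nat_lit 516129) (nat_lit 3) (.e (nat_lit 221214) (nat_lit 23) (.e (nat_lit 204830) (nat_lit 18) (.e (nat_lit 57924) (nat_lit 282) .nil))))))) (.g (nat_lit 1) (.e (nat_lit 145536) (nat_lit 0) .nil) .nil)))) (.nd (nat_lit 9) 
(.lf (nat_lit 490910) (.g (nat_lit 5197) (.e (nat_lit 163867) (nat_lit 2) (.e (nat_lit 196670) (nat_lit 14) (.e (nat_lit 73746) (nat_lit 3) (.e (nat_lit 516129) (nat_lit 3) (.e (nat_lit 221214) (nat_lit 23) (.e (nat_lit 204829) (nat_lit 18) (.e (nat_lit 57931) (nat_lit 282) .nil))))))) (.g (nat_lit 1) (.e (nat_lit 144960) (nat_lit 0) .nil) .nil))) 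
(.lf (nat_lit 491422) (.g (nat_lit 3205) (.e (nat_lit 163869) (nat_lit 2) (.e (nat_lit 196666) (nat_lit 13) (.e (nat_lit 65610) (nat_lit 10) (.e (nat_lit 344117) (nat_lit 21) (.e (nat_lit 516144) (nat_lit 9) (.e (nat_lit 426454) (nat_lit 21) (.e (nat_lit 130816) (nat_lit 174) .nil))))))) (.g (nat_lit 1) (.e (nat_lit 146115) (nat_lit 0) .nil) .nil)))))) 
(.nd (nat_lit 7) (.nd (nat_lit 8) (.nd (nat_lit 9) 
(.lf (nat_lit 490590) (.g (nat_lit 2469) (.e (nat_lit 163866) (nat_lit 2) (.e (nat_lit 196666) (nat_lit 13) (.e (nat_lit 65569) (nat_lit 3) (.e (nat_lit 98341) (nat_lit 20) (.e (nat_lit 221215) (nat_lit 23) (.e (nat_lit 204831) (nat_lit 18) (.e (nat_lit 57931) (nat_lit 282) .nil))))))) (.g (nat_lit 1) (.e (nat_lit 144359) (nat_lit 0) .nil) .nil))) 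
(.lf (nat_lit 491102) (.g (nat_lit 2601) (.e (nat_lit 163868) (nat_lit 2) (.e (nat_lit 196664) (nat_lit 13) (.e (nat_lit 65571) (nat_lit 3) (.e (nat_lit 98341) (nat_lit 20) (.e (nat_lit 221213) (nat_lit 23) (.e (nat_lit 204829) (nat_lit 18) (.e (nat_lit 57927) (nat_lit 282) .nil))))))) (.g (nat_lit 1) (.e (nat_lit 145395) (nat_lit 0) .nil) .nil)))) (.nd (nat_lit 9) 
(.lf (nat_lit 490846) (.g (nat_lit 4317) (.e (nat_lit 163867) (nat_lit 2) (.e (nat_lit 196668) (nat_lit 14) (.e (nat_lit 73747) (nat_lit 3) (.e (nat_lit 516129) (nat_lit 3) (.e (nat_lit 221215) (nat_lit 23) (.e (nat_lit 204830) (nat_lit 18) (.e (nat_lit 57925) (nat_lit 282) .nil))))))) (.g (nat_lit 1) (.e (nat_lit 144810) (nat_lit 0) .nil) .nil))) 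
(.lf (nat_lit 491358) (.g (nat_lit 2708) (.e (nat_lit 163869) (nat_lit 2) (.e (nat_lit 196666) (nat_lit 13) (.e (nat_lit 65569) (nat_lit 3) (.e (nat_lit 98342) (nat_lit 20) (.e (nat_lit 221213) (nat_lit 23) (.e (nat_lit 204829) (nat_lit 18) (.e (nat_lit 57926) (nat_lit 282) .nil))))))) (.g (nat_lit 1) (.e (nat_lit 146019) (nat_lit 0) .nil) .nil))))) (.nd (nat_lit 8) (.nd (nat_lit 9) 
(.lf (nat_lit 490718) (.g (nat_lit 1643) (.e (nat_lit 163867) (nat_lit 2) (.e (nat_lit 196656) (nat_lit 11) (.e (nat_lit 16416) (nat_lit 3) (.e (nat_lit 204833) (nat_lit 19) .nil)))) (.g (nat_lit 0) (.e (nat_lit 144607) (nat_lit 0) .nil) .nil))) 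
(.lf (nat_lit 491230) (.g (nat_lit 2070) (.e (nat_lit 163868) (nat_lit 2) (.e (nat_lit 196670) (nat_lit 14) (.e (nat_lit 73746) (nat_lit 3) (.e (nat_lit 516127) (nat_lit 2) (.e (nat_lit 213033) (nat_lit 12) (.e (nat_lit 163965) (nat_lit 25) (.e (nat_lit 532499) (nat_lit 1) (.e (nat_lit 57927) (nat_lit 282) .nil)))))))) (.g (nat_lit 1) (.e (nat_lit 145665) (nat_lit 0) .nil) .nil)))) 
(.nd (nat_lit 9) 
(.lf (nat_lit 490974) (.g (nat_lit 2563) (.e (nat_lit 163867) (nat_lit 2) (.e (nat_lit 196670) (nat_lit 14) (.e (nat_lit 73753) (nat_lit 8) (.e (nat_lit 557104) (nat_lit 14) (.e (nat_lit 180244) (nat_lit 5) .nil))))) (.g (nat_lit 0) (.e (nat_lit 145050) (nat_lit 0) .nil) .nil))) 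
(.lf (nat_lit 491486) (.g (nat_lit 3038) (.e (nat_lit 163869) (nat_lit 2) (.e (nat_lit 196666) (nat_lit 13) (.e (nat_lit 65610) (nat_lit 10) (.e (nat_lit 344117) (nat_lit 21) (.e (nat_lit 516151) (nat_lit 9) (.e (nat_lit 426042) (nat_lit 0) (.e (nat_lit 2449) (nat_lit 157) (.e (nat_lit 7936) (nat_lit 285) .nil)))))))) (.g (nat_lit 1) (.e (nat_lit 146226) (nat_lit 0) .nil) .nil))))))) 
(.nd (nat_lit 6) (.nd (nat_lit 7) (.nd (nat_lit 8) (.nd (nat_lit 9) 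
(.lf (nat_lit 490558) (.g (nat_lit 384) (.e (nat_lit 163866) (nat_lit 2) (.e (nat_lit 196654) (nat_lit 11) (.e (nat_lit 16436) (nat_lit 9) .nil))) (.g (nat_lit 0) (.e (nat_lit 144316) (nat_lit 0) .nil) .nil))) 
(.lf (nat_lit 491070) (.g (nat_lit 3332) (.e (nat_lit 163868) (nat_lit 2) (.e (nat_lit 196656) (nat_lit 11) (.e (nat_lit 16463) (nat_lit 13) (.e (nat_lit 483341) (nat_lit 9) (.e (nat_lit 426106) (nat_lit 1) (.e (nat_lit 164325) (nat_lit 230) .nil)))))) (.g (nat_lit 1) (.e (nat_lit 145351) (nat_lit 0) .nil) .nil)))) (.nd (nat_lit 9) 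
(.lf (nat_lit 490814) (.g (nat_lit 2206) (.e (nat_lit 163867) (nat_lit 2) (.e (nat_lit 196668) (nat_lit 14) (.e (nat_lit 73746) (nat_lit 3) (.e (nat_lit 516131) (nat_lit 3) (.e (nat_lit 221215) (nat_lit 23) (.e (nat_lit 204828) (nat_lit 18) (.e (nat_lit 57924) (nat_lit 282) .nil))))))) (.g (nat_lit 1) (.e (nat_lit 144756) (nat_lit 0) .nil) .nil))) 
(.lf (nat_lit 491326) (.g (nat_lit 4034) (.e (nat_lit 163869) (nat_lit 2) (.e (nat_lit 196656) (nat_lit 11) (.e (nat_lit 16465) (nat_lit 13) (.e (nat_lit 483341) (nat_lit 9) (.e (nat_lit 426108) (nat_lit 1) (.e (nat_lit 164330) (nat_lit 230) .nil)))))) (.g (nat_lit 1) (.e (nat_lit 145981) (nat_lit 0) .nil) .nil))))) (.nd (nat_lit 8) (.nd (nat_lit 9) 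
(.lf (nat_lit 490686) (.g (nat_lit 1670) (.e (nat_lit 163866) (nat_lit 2) (.e (nat_lit 196681) (nat_lit 17) (.e (nat_lit 131105) (nat_lit 9) (.e (nat_lit 336456) (nat_lit 34) (.e (nat_lit 483364) (nat_lit 18) (.e (nat_lit 57929) (nat_lit 282) .nil)))))) (.g (nat_lit 1) (.e (nat_lit 144491) (nat_lit 0) .nil) .nil))) 
(.lf (nat_lit 491198) (.g (nat_lit 4743) (.e (nat_lit 163868) (nat_lit 2) (.e (nat_lit 196668) (nat_lit 14) (.e (nat_lit 73747) (nat_lit 3) (.e (nat_lit 516131) (nat_lit 3) (.e (nat_lit 221214) (nat_lit 23) (.e (nat_lit 204830) (nat_lit 18) (.e (nat_lit 57926) (nat_lit 282) .nil))))))) (.g (nat_lit 1) (.e (nat_lit 145593) (nat_lit 0) .nil) .nil)))) (.nd (nat_lit 9) 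
(.lf (nat_lit 490942) (.g (nat_lit 3877) (.e (nat_lit 163867) (nat_lit 2) (.e (nat_lit 196670) (nat_lit 14) (.e (nat_lit 73746) (nat_lit 3) (.e (nat_lit 516131) (nat_lit 3) (.e (nat_lit 221214) (nat_lit 23) (.e (nat_lit 204830) (nat_lit 18) (.e (nat_lit 57925) (nat_lit 282) .nil))))))) (.g (nat_lit 1) (.e (nat_lit 144995) (nat_lit 0) .nil) .nil))) 
(.lf (nat_lit 491454) (.g (nat_lit 3406) (.e (nat_lit 163869) (nat_lit 2) (.e (nat_lit 196666) (nat_lit 13) (.e (nat_lit 65610) (nat_lit 10) (.e (nat_lit 344117) (nat_lit 21) (.e (nat_lit 516151) (nat_lit 9) (.e (nat_lit 426023) (nat_lit 0) (.e (nat_lit 2397) (nat_lit 157) (.e (nat_lit 4848) (nat_lit 285) .nil)))))))) (.g (nat_lit 1) (.e (nat_lit 146194) (nat_lit 0) .nil) .nil)))))) 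
(.nd (nat_lit 7) (.nd (nat_lit 8) (.nd (nat_lit 9) 
(.lf (nat_lit 490622) (.g (nat_lit 3320) (.e (nat_lit 163866) (nat_lit 2) (.e (nat_lit 196666) (nat_lit 13) (.e (nat_lit 65571) (nat_lit 3) (.e (nat_lit 98342) (nat_lit 20) (.e (nat_lit 221215) (nat_lit 23) (.e (nat_lit 204831) (nat_lit 18) (.e (nat_lit 57931) (nat_lit 282) .nil))))))) (.g (nat_lit 1) (.e (nat_lit 144394) (nat_lit 0) .nil) .nil))) 
(.lf (nat_lit 491134) (.g (nat_lit 4720) (.e (nat_lit 163868) (nat_lit 2) (.e (nat_lit 196668) (nat_lit 14) (.e (nat_lit 73746) (nat_lit 3) (.e (nat_lit 516129) (nat_lit 3) (.e (nat_lit 221215) (nat_lit 23) (.e (nat_lit 204830) (nat_lit 18) (.e (nat_lit 57927) (nat_lit 282) .nil))))))) (.g (nat_lit 1) (.e (nat_lit 145454) (nat_lit 0) .nil) .nil)))) (.nd (nat_lit 9) 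
(.lf (nat_lit 490878) (.g (nat_lit 3790) (.e (nat_lit 163867) (nat_lit 2) (.e (nat_lit 196668) (nat_lit 14) (.e (nat_lit 73753) (nat_lit 8) (.e (nat_lit 557103) (nat_lit 14) (.e (nat_lit 180243) (nat_lit 5) (.e (nat_lit 532504) (nat_lit 1) (.e (nat_lit 65280) (nat_lit 168) .nil))))))) (.g (nat_lit 1) (.e (nat_lit 144875) (nat_lit 0) .nil) .nil))) 
(.lf (nat_lit 491390) (.g (nat_lit 3212) (.e (nat_lit 163869) (nat_lit 2) (.e (nat_lit 196666) (nat_lit 13) (.e (nat_lit 65571) (nat_lit 3) (.e (nat_lit 98342) (nat_lit 20) (.e (nat_lit 221204) (nat_lit 20) (.e (nat_lit 3253) (nat_lit 197) (.e (nat_lit 532501) (nat_lit 1) (.e (nat_lit 57929) (nat_lit 282) .nil)))))))) (.g (nat_lit 1) (.e (nat_lit 146063) (nat_lit 0) .nil) .nil))))) 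
(.nd (nat_lit 8) (.nd (nat_lit 9) 
(.lf (nat_lit 490750) (.g (nat_lit 2609) (.e (nat_lit 163867) (nat_lit 2) (.e (nat_lit 196663) (nat_lit 13) (.e (nat_lit 65571) (nat_lit 3) (.e (nat_lit 98341) (nat_lit 20) (.e (nat_lit 221214) (nat_lit 23) (.e (nat_lit 204830) (nat_lit 18) (.e (nat_lit 57926) (nat_lit 282) .nil))))))) (.g (nat_lit 1) (.e (nat_lit 144662) (nat_lit 0) .nil) .nil))) 
(.lf (nat_lit 491262) (.g (nat_lit 2993) (.e (nat_lit 163868) (nat_lit 2) (.e (nat_lit 196670) (nat_lit 14) (.e (nat_lit 73753) (nat_lit 8) (.e (nat_lit 557103) (nat_lit 14) (.e (nat_lit 180243) (nat_lit 5) (.e (nat_lit 532504) (nat_lit 1) (.e (nat_lit 65280) (nat_lit 168) .nil))))))) (.g (nat_lit 1) (.e (nat_lit 145697) (nat_lit 0) .nil) .nil)))) (.nd (nat_lit 9) 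
(.lf (nat_lit 491006) (.g (nat_lit 3214) (.e (nat_lit 163867) (nat_lit 2) (.e (nat_lit 196681) (nat_lit 17) (.e (nat_lit 131105) (nat_lit 9) (.e (nat_lit 336454) (nat_lit 34) (.e (nat_lit 483365) (nat_lit 18) (.e (nat_lit 57931) (nat_lit 282) .nil)))))) (.g (nat_lit 1) (.e (nat_lit 145190) (nat_lit 0) .nil) .nil))) 
(.lf (nat_lit 491518) (.g (nat_lit 3314) (.e (nat_lit 163869) (nat_lit 2) (.e (nat_lit 196666) (nat_lit 13) (.e (nat_lit 65610) (nat_lit 10) (.e (nat_lit 344117) (nat_lit 21) (.e (nat_lit 516159) (nat_lit 10) (.e (nat_lit 434203) (nat_lit 18) (.e (nat_lit 7936) (nat_lit 285) .nil))))))) (.g (nat_lit 1) (.e (nat_lit 146272) (nat_lit 0) .nil) .nil)))))))))))) 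
(.nd (nat_lit 1) (.nd (nat_lit 2) (.nd (nat_lit 3) (.nd (nat_lit 4) (.nd (nat_lit 5) 
(.nd (nat_lit 6) (.nd (nat_lit 7) (.nd (nat_lit 8) (.nd (nat_lit 9) 
(.lf (nat_lit 490497) (.g (nat_lit 1038) (.e (nat_lit 163864) (nat_lit 1) (.e (nat_lit 164332) (nat_lit 230) (.e (nat_lit 163885) (nat_lit 5) (.e (nat_lit 221218) (nat_lit 24) .nil)))) (.g (nat_lit 0) (.e (nat_lit 144125) (nat_lit 0) .nil) .nil))) 
(.lf (nat_lit 491009) (.g (nat_lit 2859) (.e (nat_lit 163867) (nat_lit 2) (.e (nat_lit 196681) (nat_lit 17) (.e (nat_lit 131105) (nat_lit 9) (.e (nat_lit 336456) (nat_lit 34) (.e (nat_lit 483365) (nat_lit 18) (.e (nat_lit 57931) (nat_lit 282) .nil)))))) (.g (nat_lit 1) (.e (nat_lit 145193) (nat_lit 0) .nil) .nil)))) (.nd (nat_lit 9) 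
(.lf (nat_lit 490753) (.g (nat_lit 3105) (.e (nat_lit 163867) (nat_lit 2) (.e (nat_lit 196663) (nat_lit 13) (.e (nat_lit 65571) (nat_lit 3) (.e (nat_lit 98341) (nat_lit 20) (.e (nat_lit 221215) (nat_lit 23) (.e (nat_lit 204830) (nat_lit 18) (.e (nat_lit 57924) (nat_lit 282) .nil))))))) (.g (nat_lit 1) (.e (nat_lit 144665) (nat_lit 0) .nil) .nil))) 
(.lf (nat_lit 491265) (.g (nat_lit 2379) (.e (nat_lit 163868) (nat_lit 2) (.e (nat_lit 196670) (nat_lit 14) (.e (nat_lit 73754) (nat_lit 8) (.e (nat_lit 557105) (nat_lit 14) (.e (nat_lit 180245) (nat_lit 5) .nil))))) (.g (nat_lit 0) (.e (nat_lit 145700) (nat_lit 0) .nil) .nil))))) (.nd (nat_lit 8) (.nd (nat_lit 9) 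
(.lf (nat_lit 490625) (.g (nat_lit 848) (.e (nat_lit 163866) (nat_lit 2) (.e (nat_lit 196666) (nat_lit 13) (.e (nat_lit 65625) (nat_lit 13) .nil))) (.g (nat_lit 0) (.e (nat_lit 144402) (nat_lit 0) .nil) .nil))) 
(.lf (nat_lit 491137) (.g (nat_lit 3782) (.e (nat_lit 163868) (nat_lit 2) (.e (nat_lit 196668) (nat_lit 14) (.e (nat_lit 73746) (nat_lit 3) (.e (nat_lit 516131) (nat_lit 3) (.e (nat_lit 221214) (nat_lit 23) (.e (nat_lit 204829) (nat_lit 18) (.e (nat_lit 57927) (nat_lit 282) .nil))))))) (.g (nat_lit 1) (.e (nat_lit 145468) (nat_lit 0) .nil) .nil)))) (.nd (nat_lit 9) 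
(.lf (nat_lit 490881) (.g (nat_lit 2445) (.e (nat_lit 163867) (nat_lit 2) (.e (nat_lit 196668) (nat_lit 14) (.e (nat_lit 73753) (nat_lit 8) (.e (nat_lit 557103) (nat_lit 14) (.e (nat_lit 180250) (nat_lit 10) .nil))))) (.g (nat_lit 0) (.e (nat_lit 144878) (nat_lit 0) .nil) .nil))) 
(.lf (nat_lit 491393) (.g (nat_lit 3979) (.e (nat_lit 163869) (nat_lit 2) (.e (nat_lit 196666) (nat_lit 13) (.e (nat_lit 65571) (nat_lit 3) (.e (nat_lit 98342) (nat_lit 20) (.e (nat_lit 221213) (nat_lit 23) (.e (nat_lit 204830) (nat_lit 18) (.e (nat_lit 57927) (nat_lit 282) .nil))))))) (.g (nat_lit 1) (.e (nat_lit 146067) (nat_lit 0) .nil) .nil)))))) 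
(.nd (nat_lit 7) (.nd (nat_lit 8) (.nd (nat_lit 9) 
(.lf (nat_lit 490561) (.g (nat_lit 2232) (.e (nat_lit 163866) (nat_lit 2) (.e (nat_lit 196654) (nat_lit 11) (.e (nat_lit 16438) (nat_lit 9) (.e (nat_lit 426482) (nat_lit 27) (.e (nat_lit 336385) (nat_lit 27) .nil))))) (.g (nat_lit 0) (.e (nat_lit 144320) (nat_lit 0) .nil) .nil))) 
(.lf (nat_lit 491073) (.g (nat_lit 1147) (.e (nat_lit 163868) (nat_lit 2) (.e (nat_lit 196656) (nat_lit 11) (.e (nat_lit 16466) (nat_lit 13) (.e (nat_lit 483340) (nat_lit 9) .nil)))) (.g (nat_lit 0) (.e (nat_lit 145354) (nat_lit 0) .nil) .nil)))) (.nd (nat_lit 9) 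
(.lf (nat_lit 490817) (.g (nat_lit 2206) (.e (nat_lit 163867) (nat_lit 2) (.e (nat_lit 196668) (nat_lit 14) (.e (nat_lit 73746) (nat_lit 3) (.e (nat_lit 516131) (nat_lit 3) (.e (nat_lit 221215) (nat_lit 23) (.e (nat_lit 204829) (nat_lit 18) (.e (nat_lit 57925) (nat_lit 282) .nil))))))) (.g (nat_lit 1) (.e (nat_lit 144759) (nat_lit 0) .nil) .nil))) 
(.lf (nat_lit 491329) (.g (nat_lit 3797) (.e (nat_lit 163869) (nat_lit 2) (.e (nat_lit 196656) (nat_lit 11) (.e (nat_lit 16466) (nat_lit 13) (.e (nat_lit 483341) (nat_lit 9) (.e (nat_lit 426100) (nat_lit 1) (.e (nat_lit 164332) (nat_lit 230) .nil)))))) (.g (nat_lit 1) (.e (nat_lit 145984) (nat_lit 0) .nil) .nil))))) (.nd (nat_lit 8) (.nd (nat_lit 9) 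
(.lf (nat_lit 490689) (.g (nat_lit 2957) (.e (nat_lit 163866) (nat_lit 2) (.e (nat_lit 196681) (nat_lit 17) (.e (nat_lit 131109) (nat_lit 9) (.e (nat_lit 336454) (nat_lit 34) (.e (nat_lit 483363) (nat_lit 18) (.e (nat_lit 57927) (nat_lit 282) .nil)))))) (.g (nat_lit 1) (.e (nat_lit 144503) (nat_lit 0) .nil) .nil))) 
(.lf (nat_lit 491201) (.g (nat_lit 3634) (.e (nat_lit 163868) (nat_lit 2) (.e (nat_lit 196668) (nat_lit 14) (.e (nat_lit 73747) (nat_lit 3) (.e (nat_lit 516131) (nat_lit 3) (.e (nat_lit 221215) (nat_lit 23) (.e (nat_lit 204828) (nat_lit 18) (.e (nat_lit 57928) (nat_lit 282) .nil))))))) (.g (nat_lit 1) (.e (nat_lit 145597) (nat_lit 0) .nil) .nil)))) (.nd (nat_lit 9) 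
(.lf (nat_lit 490945) (.g (nat_lit 3921) (.e (nat_lit 163867) (nat_lit 2) (.e (nat_lit 196670) (nat_lit 14) (.e (nat_lit 73746) (nat_lit 3) (.e (nat_lit 516131) (nat_lit 3) (.e (nat_lit 221214) (nat_lit 23) (.e (nat_lit 204830) (nat_lit 18) (.e (nat_lit 57931) (nat_lit 282) .nil))))))) (.g (nat_lit 1) (.e (nat_lit 144998) (nat_lit 0) .nil) .nil))) 
(.lf (nat_lit 491457) (.g (nat_lit 4024) (.e (nat_lit 163869) (nat_lit 2) (.e (nat_lit 196666) (nat_lit 13) (.e (nat_lit 65610) (nat_lit 10) (.e (nat_lit 344117) (nat_lit 21) (.e (nat_lit 516151) (nat_lit 9) (.e (nat_lit 426023) (nat_lit 0) (.e (nat_lit 2402) (nat_lit 157) (.e (nat_lit 4847) (nat_lit 285) .nil)))))))) (.g (nat_lit 1) (.e (nat_lit 146197) (nat_lit 0) .nil) .nil))))))) 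
(.nd (nat_lit 6) (.nd (nat_lit 7) (.nd (nat_lit 8) (.nd (nat_lit 9) 
(.lf (nat_lit 490529) (.g (nat_lit 5392) (.e (nat_lit 163864) (nat_lit 1) (.e (nat_lit 164332) (nat_lit 230) (.e (nat_lit 163905) (nat_lit 12) (.e (nat_lit 426472) (nat_lit 25) (.e (nat_lit 319534) (nat_lit 16) (.e (nat_lit 286749) (nat_lit 9) (.e (nat_lit 335997) (nat_lit 1) (.e (nat_lit 57691) (nat_lit 156) .nil)))))))) (.g (nat_lit 1) (.e (nat_lit 144189) (nat_lit 0) .nil) .nil))) 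
(.lf (nat_lit 491041) (.g (nat_lit 2169) (.e (nat_lit 163868) (nat_lit 2) (.e (nat_lit 196654) (nat_lit 11) (.e (nat_lit 16463) (nat_lit 13) (.e (nat_lit 483336) (nat_lit 9) .nil)))) (.g (nat_lit 0) (.e (nat_lit 145289) (nat_lit 0) .nil) .nil)))) (.nd (nat_lit 9) 
(.lf (nat_lit 490785) (.g (nat_lit 2416) (.e (nat_lit 163867) (nat_lit 2) (.e (nat_lit 196667) (nat_lit 14) (.e (nat_lit 73746) (nat_lit 3) (.e (nat_lit 516129) (nat_lit 3) (.e (nat_lit 221214) (nat_lit 23) (.e (nat_lit 204831) (nat_lit 18) (.e (nat_lit 57931) (nat_lit 282) .nil))))))) (.g (nat_lit 1) (.e (nat_lit 144704) (nat_lit 0) .nil) .nil))) 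
(.lf (nat_lit 491297) (.g (nat_lit 3568) (.e (nat_lit 163869) (nat_lit 2) (.e (nat_lit 196654) (nat_lit 11) (.e (nat_lit 16435) (nat_lit 9) (.e (nat_lit 426566) (nat_lit 34) (.e (nat_lit 393253) (nat_lit 18) (.e (nat_lit 164325) (nat_lit 230) .nil)))))) (.g (nat_lit 1) (.e (nat_lit 145939) (nat_lit 0) .nil) .nil))))) (.nd (nat_lit 8) (.nd (nat_lit 9) 
(.lf (nat_lit 490657) (.g (nat_lit 1955) (.e (nat_lit 163866) (nat_lit 2) (.e (nat_lit 196670) (nat_lit 14) (.e (nat_lit 73746) (nat_lit 3) (.e (nat_lit 516127) (nat_lit 2) (.e (nat_lit 213037) (nat_lit 13) (.e (nat_lit 229433) (nat_lit 25) (.e (nat_lit 532499) (nat_lit 1) (.e (nat_lit 57927) (nat_lit 282) .nil)))))))) (.g (nat_lit 1) (.e (nat_lit 144449) (nat_lit 0) .nil) .nil))) 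
(.lf (nat_lit 491169) (.g (nat_lit 4750) (.e (nat_lit 163868) (nat_lit 2) (.e (nat_lit 196668) (nat_lit 14) (.e (nat_lit 73747) (nat_lit 3) (.e (nat_lit 516129) (nat_lit 3) (.e (nat_lit 221214) (nat_lit 23) (.e (nat_lit 204830) (nat_lit 18) (.e (nat_lit 57928) (nat_lit 282) .nil))))))) (.g (nat_lit 1) (.e (nat_lit 145539) (nat_lit 0) .nil) .nil)))) (.nd (nat_lit 9) 
(.lf (nat_lit 490913) (.g (nat_lit 4429) (.e (nat_lit 163867) (nat_lit 2) (.e (nat_lit 196670) (nat_lit 14) (.e (nat_lit 73746) (nat_lit 3) (.e (nat_lit 516129) (nat_lit 3) (.e (nat_lit 221214) (nat_lit 23) (.e (nat_lit 204830) (nat_lit 18) (.e (nat_lit 57926) (nat_lit 282) .nil))))))) (.g (nat_lit 1) (.e (nat_lit 144963) (nat_lit 0) .nil) .nil))) 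
(.lf (nat_lit 491425) (.g (nat_lit 2461) (.e (nat_lit 163869) (nat_lit 2) (.e (nat_lit 196666) (nat_lit 13) (.e (nat_lit 65610) (nat_lit 10) (.e (nat_lit 344117) (nat_lit 21) (.e (nat_lit 516145) (nat_lit 9) (.e (nat_lit 425986) (nat_lit 0) (.e (nat_lit 2431) (nat_lit 157) (.e (nat_lit 4848) (nat_lit 285) .nil)))))))) (.g (nat_lit 1) (.e (nat_lit 146118) (nat_lit 0) .nil) .nil)))))) 
(.nd (nat_lit 7) (.nd (nat_lit 8) (.nd (nat_lit 9) 
(.lf (nat_lit 490593) (.g (nat_lit 2369) (.e (nat_lit 163866) (nat_lit 2) (.e (nat_lit 196666) (nat_lit 13) (.e (nat_lit 65569) (nat_lit 3) (.e (nat_lit 98342) (nat_lit 20) (.e (nat_lit 221214) (nat_lit 23) .nil))))) (.g (nat_lit 0) (.e (nat_lit 144364) (nat_lit 0) .nil) .nil))) 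
(.lf (nat_lit 491105) (.g (nat_lit 2783) (.e (nat_lit 163868) (nat_lit 2) (.e (nat_lit 196664) (nat_lit 13) (.e (nat_lit 65571) (nat_lit 3) (.e (nat_lit 98342) (nat_lit 20) (.e (nat_lit 221213) (nat_lit 23) (.e (nat_lit 204829) (nat_lit 18) (.e (nat_lit 57927) (nat_lit 282) .nil))))))) (.g (nat_lit 1) (.e (nat_lit 145398) (nat_lit 0) .nil) .nil)))) (.nd (nat_lit 9) 
(.lf (nat_lit 490849) (.g (nat_lit 3956) (.e (nat_lit 163867) (nat_lit 2) (.e (nat_lit 196668) (nat_lit 14) (.e (nat_lit 73747) (nat_lit 3) (.e (nat_lit 516129) (nat_lit 3) (.e (nat_lit 221215) (nat_lit 23) (.e (nat_lit 204830) (nat_lit 18) (.e (nat_lit 57930) (nat_lit 282) .nil))))))) (.g (nat_lit 1) (.e (nat_lit 144813) (nat_lit 0) .nil) .nil))) 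
(.lf (nat_lit 491361) (.g (nat_lit 4648) (.e (nat_lit 163869) (nat_lit 2) (.e (nat_lit 196666) (nat_lit 13) (.e (nat_lit 65569) (nat_lit 3) (.e (nat_lit 98342) (nat_lit 20) (.e (nat_lit 221214) (nat_lit 23) (.e (nat_lit 204829) (nat_lit 18) (.e (nat_lit 57927) (nat_lit 282) .nil))))))) (.g (nat_lit 1) (.e (nat_lit 146023) (nat_lit 0) .nil) .nil))))) (.nd (nat_lit 8) (.nd (nat_lit 9) 
(.lf (nat_lit 490721) (.g (nat_lit 3630) (.e (nat_lit 163867) (nat_lit 2) (.e (nat_lit 196656) (nat_lit 11) (.e (nat_lit 16416) (nat_lit 3) (.e (nat_lit 204837) (nat_lit 20) (.e (nat_lit 114717) (nat_lit 23) (.e (nat_lit 98334) (nat_lit 18) (.e (nat_lit 164330) (nat_lit 230) .nil))))))) (.g (nat_lit 1) (.e (nat_lit 144610) (nat_lit 0) .nil) .nil))) 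
(.lf (nat_lit 491233) (.g (nat_lit 3083) (.e (nat_lit 163868) (nat_lit 2) (.e (nat_lit 196670) (nat_lit 14) (.e (nat_lit 73746) (nat_lit 3) (.e (nat_lit 516127) (nat_lit 2) (.e (nat_lit 220928) (nat_lit 13) (.e (nat_lit 229433) (nat_lit 25) (.e (nat_lit 532501) (nat_lit 1) (.e (nat_lit 57928) (nat_lit 282) .nil)))))))) (.g (nat_lit 1) (.e (nat_lit 145668) (nat_lit 0) .nil) .nil)))) 
(.nd (nat_lit 9) 
(.lf (nat_lit 490977) (.g (nat_lit 2676) (.e (nat_lit 163867) (nat_lit 2) (.e (nat_lit 196670) (nat_lit 14) (.e (nat_lit 73753) (nat_lit 8) (.e (nat_lit 557105) (nat_lit 14) (.e (nat_lit 180244) (nat_lit 5) .nil))))) (.g (nat_lit 0) (.e (nat_lit 145053) (nat_lit 0) .nil) .nil))) 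
(.lf (nat_lit 491489) (.g (nat_lit 3802) (.e (nat_lit 163869) (nat_lit 2) (.e (nat_lit 196666) (nat_lit 13) (.e (nat_lit 65610) (nat_lit 10) (.e (nat_lit 344117) (nat_lit 21) (.e (nat_lit 516151) (nat_lit 9) (.e (nat_lit 426043) (nat_lit 0) (.e (nat_lit 2422) (nat_lit 157) (.e (nat_lit 4848) (nat_lit 285) .nil)))))))) (.g (nat_lit 1) (.e (nat_lit 146229) (nat_lit 0) .nil) .nil)))))))) 
(.nd (nat_lit 5) (.nd (nat_lit 6) (.nd (nat_lit 7) (.nd (nat_lit 8) (.nd (nat_lit 9) 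
(.lf (nat_lit 490513) (.g (nat_lit 3173) (.e (nat_lit 163864) (nat_lit 1) (.e (nat_lit 164332) (nat_lit 230) (.e (nat_lit 163902) (nat_lit 12) (.e (nat_lit 426472) (nat_lit 25) (.e (nat_lit 319533) (nat_lit 16) (.e (nat_lit 286753) (nat_lit 10) (.e (nat_lit 344087) (nat_lit 18) (.e (nat_lit 7289) (nat_lit 386) .nil)))))))) (.g (nat_lit 1) (.e (nat_lit 144159) (nat_lit 0) .nil) .nil))) 
(.lf (nat_lit 491025) (.g (nat_lit 2339) (.e (nat_lit 163868) (nat_lit 2) (.e (nat_lit 196654) (nat_lit 11) (.e (nat_lit 16416) (nat_lit 3) (.e (nat_lit 204817) (nat_lit 17) (.e (nat_lit 2198) (nat_lit 144) .nil))))) (.g (nat_lit 0) (.e (nat_lit 145257) (nat_lit 0) .nil) .nil)))) (.nd (nat_lit 9) 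
(.lf (nat_lit 490769) (.g (nat_lit 2325) (.e (nat_lit 163867) (nat_lit 2) (.e (nat_lit 196663) (nat_lit 13) (.e (nat_lit 65571) (nat_lit 3) (.e (nat_lit 98342) (nat_lit 20) (.e (nat_lit 221215) (nat_lit 23) (.e (nat_lit 204830) (nat_lit 18) (.e (nat_lit 57925) (nat_lit 282) .nil))))))) (.g (nat_lit 1) (.e (nat_lit 144684) (nat_lit 0) .nil) .nil))) 
(.lf (nat_lit 491281) (.g (nat_lit 2609) (.e (nat_lit 163868) (nat_lit 2) (.e (nat_lit 196681) (nat_lit 17) (.e (nat_lit 131105) (nat_lit 9) (.e (nat_lit 336456) (nat_lit 34) (.e (nat_lit 483364) (nat_lit 18) (.e (nat_lit 57927) (nat_lit 282) .nil)))))) (.g (nat_lit 1) (.e (nat_lit 145888) (nat_lit 0) .nil) .nil))))) (.nd (nat_lit 8) (.nd (nat_lit 9) 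
(.lf (nat_lit 490641) (.g (nat_lit 3150) (.e (nat_lit 163866) (nat_lit 2) (.e (nat_lit 196668) (nat_lit 14) (.e (nat_lit 73747) (nat_lit 3) (.e (nat_lit 516129) (nat_lit 3) (.e (nat_lit 221214) (nat_lit 23) (.e (nat_lit 204830) (nat_lit 18) (.e (nat_lit 57931) (nat_lit 282) .nil))))))) (.g (nat_lit 1) (.e (nat_lit 144431) (nat_lit 0) .nil) .nil))) 
(.lf (nat_lit 491153) (.g (nat_lit 2599) (.e (nat_lit 163868) (nat_lit 2) (.e (nat_lit 196668) (nat_lit 14) (.e (nat_lit 73747) (nat_lit 3) (.e (nat_lit 516129) (nat_lit 3) (.e (nat_lit 221204) (nat_lit 20) (.e (nat_lit 3253) (nat_lit 197) (.e (nat_lit 532501) (nat_lit 1) (.e (nat_lit 57925) (nat_lit 282) .nil)))))))) (.g (nat_lit 1) (.e (nat_lit 145494) (nat_lit 0) .nil) .nil)))) 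
(.nd (nat_lit 9) 
(.lf (nat_lit 490897) (.g (nat_lit 2696) (.e (nat_lit 163867) (nat_lit 2) (.e (nat_lit 196670) (nat_lit 14) (.e (nat_lit 73746) (nat_lit 3) (.e (nat_lit 516129) (nat_lit 3) (.e (nat_lit 221202) (nat_lit 20) (.e (nat_lit 3249) (nat_lit 197) (.e (nat_lit 532503) (nat_lit 1) (.e (nat_lit 57924) (nat_lit 282) .nil)))))))) (.g (nat_lit 1) (.e (nat_lit 144945) (nat_lit 0) .nil) .nil))) 
(.lf (nat_lit 491409) (.g (nat_lit 4031) (.e (nat_lit 163869) (nat_lit 2) (.e (nat_lit 196666) (nat_lit 13) (.e (nat_lit 65571) (nat_lit 3) (.e (nat_lit 98342) (nat_lit 20) (.e (nat_lit 221215) (nat_lit 23) (.e (nat_lit 204830) (nat_lit 18) (.e (nat_lit 57926) (nat_lit 282) .nil))))))) (.g (nat_lit 1) (.e (nat_lit 146086) (nat_lit 0) .nil) .nil)))))) 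
(.nd (nat_lit 7) (.nd (nat_lit 8) (.nd (nat_lit 9) 
(.lf (nat_lit 490577) (.g (nat_lit 2600) (.e (nat_lit 163866) (nat_lit 2) (.e (nat_lit 196656) (nat_lit 11) (.e (nat_lit 16435) (nat_lit 9) (.e (nat_lit 426566) (nat_lit 34) (.e (nat_lit 393251) (nat_lit 18) .nil))))) (.g (nat_lit 0) (.e (nat_lit 144345) (nat_lit 0) .nil) .nil))) 
(.lf (nat_lit 491089) (.g (nat_lit 1969) (.e (nat_lit 163868) (nat_lit 2) (.e (nat_lit 196663) (nat_lit 13) (.e (nat_lit 65571) (nat_lit 3) (.e (nat_lit 98341) (nat_lit 20) (.e (nat_lit 221204) (nat_lit 20) .nil))))) (.g (nat_lit 0) (.e (nat_lit 145379) (nat_lit 0) .nil) .nil)))) (.nd (nat_lit 9) 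
(.lf (nat_lit 490833) (.g (nat_lit 3772) (.e (nat_lit 163867) (nat_lit 2) (.e (nat_lit 196668) (nat_lit 14) (.e (nat_lit 73747) (nat_lit 3) (.e (nat_lit 516129) (nat_lit 3) (.e (nat_lit 221214) (nat_lit 23) (.e (nat_lit 204829) (nat_lit 18) (.e (nat_lit 57925) (nat_lit 282) .nil))))))) (.g (nat_lit 1) (.e (nat_lit 144794) (nat_lit 0) .nil) .nil))) 
(.lf (nat_lit 491345) (.g (nat_lit 1009) (.e (nat_lit 163869) (nat_lit 2) (.e (nat_lit 196666) (nat_lit 13) (.e (nat_lit 65569) (nat_lit 3) (.e (nat_lit 98341) (nat_lit 20) .nil)))) (.g (nat_lit 0) (.e (nat_lit 146006) (nat_lit 0) .nil) .nil))))) (.nd (nat_lit 8) (.nd (nat_lit 9) 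
(.lf (nat_lit 490705) (.g (nat_lit 1102) (.e (nat_lit 163867) (nat_lit 2) (.e (nat_lit 196654) (nat_lit 11) (.e (nat_lit 16433) (nat_lit 9) (.e (nat_lit 426568) (nat_lit 34) .nil)))) (.g (nat_lit 0) (.e (nat_lit 144578) (nat_lit 0) .nil) .nil))) 
(.lf (nat_lit 491217) (.g (nat_lit 2993) (.e (nat_lit 163868) (nat_lit 2) (.e (nat_lit 196668) (nat_lit 14) (.e (nat_lit 73753) (nat_lit 8) (.e (nat_lit 557103) (nat_lit 14) (.e (nat_lit 180244) (nat_lit 5) (.e (nat_lit 532504) (nat_lit 1) (.e (nat_lit 65280) (nat_lit 168) .nil))))))) (.g (nat_lit 1) (.e (nat_lit 145651) (nat_lit 0) .nil) .nil)))) (.nd (nat_lit 9) 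
(.lf (nat_lit 490961) (.g (nat_lit 3932) (.e (nat_lit 163867) (nat_lit 2) (.e (nat_lit 196670) (nat_lit 14) (.e (nat_lit 73746) (nat_lit 3) (.e (nat_lit 516131) (nat_lit 3) (.e (nat_lit 221215) (nat_lit 23) (.e (nat_lit 204831) (nat_lit 18) (.e (nat_lit 57924) (nat_lit 282) .nil))))))) (.g (nat_lit 1) (.e (nat_lit 145014) (nat_lit 0) .nil) .nil))) 
(.lf (nat_lit 491473) (.g (nat_lit 2530) (.e (nat_lit 163869) (nat_lit 2) (.e (nat_lit 196666) (nat_lit 13) (.e (nat_lit 65610) (nat_lit 10) (.e (nat_lit 344117) (nat_lit 21) (.e (nat_lit 516151) (nat_lit 9) (.e (nat_lit 426039) (nat_lit 0) (.e (nat_lit 2423) (nat_lit 157) (.e (nat_lit 4849) (nat_lit 285) .nil)))))))) (.g (nat_lit 1) (.e (nat_lit 146213) (nat_lit 0) .nil) .nil))))))) 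
(.nd (nat_lit 6) (.nd (nat_lit 7) (.nd (nat_lit 8) (.nd (nat_lit 9) 
(.lf (nat_lit 490545) (.g (nat_lit 1037) (.e (nat_lit 163865) (nat_lit 2) (.e (nat_lit 196666) (nat_lit 13) (.e (nat_lit 65627) (nat_lit 13) (.e (nat_lit 393225) (nat_lit 9) .nil)))) (.g (nat_lit 0) (.e (nat_lit 144296) (nat_lit 0) .nil) .nil))) 
(.lf (nat_lit 491057) (.g (nat_lit 1811) (.e (nat_lit 163868) (nat_lit 2) (.e (nat_lit 196656) (nat_lit 11) (.e (nat_lit 16416) (nat_lit 3) (.e (nat_lit 204834) (nat_lit 19) .nil)))) (.g (nat_lit 0) (.e (nat_lit 145326) (nat_lit 0) .nil) .nil)))) (.nd (nat_lit 9) 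
(.lf (nat_lit 490801) (.g (nat_lit 2443) (.e (nat_lit 163867) (nat_lit 2) (.e (nat_lit 196668) (nat_lit 14) (.e (nat_lit 73746) (nat_lit 3) (.e (nat_lit 516129) (nat_lit 3) (.e (nat_lit 221215) (nat_lit 23) (.e (nat_lit 204829) (nat_lit 18) (.e (nat_lit 57926) (nat_lit 282) .nil))))))) (.g (nat_lit 1) (.e (nat_lit 144740) (nat_lit 0) .nil) .nil))) 
(.lf (nat_lit 491313) (.g (nat_lit 2386) (.e (nat_lit 163869) (nat_lit 2) (.e (nat_lit 196656) (nat_lit 11) (.e (nat_lit 16431) (nat_lit 9) (.e (nat_lit 426568) (nat_lit 34) (.e (nat_lit 393251) (nat_lit 18) .nil))))) (.g (nat_lit 0) (.e (nat_lit 145966) (nat_lit 0) .nil) .nil))))) (.nd (nat_lit 8) (.nd (nat_lit 9) 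
(.lf (nat_lit 490673) (.g (nat_lit 1462) (.e (nat_lit 163866) (nat_lit 2) (.e (nat_lit 196672) (nat_lit 15) (.e (nat_lit 81927) (nat_lit 11) (.e (nat_lit 426500) (nat_lit 27) (.e (nat_lit 335996) (nat_lit 1) (.e (nat_lit 57929) (nat_lit 282) .nil)))))) (.g (nat_lit 1) (.e (nat_lit 144465) (nat_lit 0) .nil) .nil))) 
(.lf (nat_lit 491185) (.g (nat_lit 2334) (.e (nat_lit 163868) (nat_lit 2) (.e (nat_lit 196668) (nat_lit 14) (.e (nat_lit 73747) (nat_lit 3) (.e (nat_lit 516130) (nat_lit 3) (.e (nat_lit 221214) (nat_lit 23) (.e (nat_lit 204829) (nat_lit 18) (.e (nat_lit 57928) (nat_lit 282) .nil))))))) (.g (nat_lit 1) (.e (nat_lit 145560) (nat_lit 0) .nil) .nil)))) (.nd (nat_lit 9) 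
(.lf (nat_lit 490929) (.g (nat_lit 3420) (.e (nat_lit 163867) (nat_lit 2) (.e (nat_lit 196670) (nat_lit 14) (.e (nat_lit 73746) (nat_lit 3) (.e (nat_lit 516129) (nat_lit 3) (.e (nat_lit 221215) (nat_lit 23) (.e (nat_lit 204830) (nat_lit 18) (.e (nat_lit 57927) (nat_lit 282) .nil))))))) (.g (nat_lit 1) (.e (nat_lit 144979) (nat_lit 0) .nil) .nil))) 
(.lf (nat_lit 491441) (.g (nat_lit 3273) (.e (nat_lit 163869) (nat_lit 2) (.e (nat_lit 196666) (nat_lit 13) (.e (nat_lit 65610) (nat_lit 10) (.e (nat_lit 344117) (nat_lit 21) (.e (nat_lit 516151) (nat_lit 9) (.e (nat_lit 426017) (nat_lit 0) (.e (nat_lit 2439) (nat_lit 157) (.e (nat_lit 7936) (nat_lit 285) .nil)))))))) (.g (nat_lit 1) (.e (nat_lit 146181) (nat_lit 0) .nil) .nil)))))) 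
(.nd (nat_lit 7) (.nd (nat_lit 8) (.nd (nat_lit 9) 
(.lf (nat_lit 490609) (.g (nat_lit 2945) (.e (nat_lit 163866) (nat_lit 2) (.e (nat_lit 196666) (nat_lit 13) (.e (nat_lit 65571) (nat_lit 3) (.e (nat_lit 98341) (nat_lit 20) (.e (nat_lit 221215) (nat_lit 23) (.e (nat_lit 204829) (nat_lit 18) (.e (nat_lit 57927) (nat_lit 282) .nil))))))) (.g (nat_lit 1) (.e (nat_lit 144380) (nat_lit 0) .nil) .nil))) 
(.lf (nat_lit 491121) (.g (nat_lit 4825) (.e (nat_lit 163868) (nat_lit 2) (.e (nat_lit 196668) (nat_lit 14) (.e (nat_lit 73746) (nat_lit 3) (.e (nat_lit 516129) (nat_lit 3) (.e (nat_lit 221214) (nat_lit 23) (.e (nat_lit 204829) (nat_lit 18) (.e (nat_lit 57927) (nat_lit 282) .nil))))))) (.g (nat_lit 1) (.e (nat_lit 145440) (nat_lit 0) .nil) .nil)))) (.nd (nat_lit 9) 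
(.lf (nat_lit 490865) (.g (nat_lit 4242) (.e (nat_lit 163867) (nat_lit 2) (.e (nat_lit 196668) (nat_lit 14) (.e (nat_lit 73747) (nat_lit 3) (.e (nat_lit 516131) (nat_lit 3) (.e (nat_lit 221214) (nat_lit 23) (.e (nat_lit 204831) (nat_lit 18) (.e (nat_lit 57931) (nat_lit 282) .nil))))))) (.g (nat_lit 1) (.e (nat_lit 144837) (nat_lit 0) .nil) .nil))) 
(.lf (nat_lit 491377) (.g (nat_lit 4480) (.e (nat_lit 163869) (nat_lit 2) (.e (nat_lit 196666) (nat_lit 13) (.e (nat_lit 65571) (nat_lit 3) (.e (nat_lit 98341) (nat_lit 20) (.e (nat_lit 221214) (nat_lit 23) (.e (nat_lit 204829) (nat_lit 18) (.e (nat_lit 57927) (nat_lit 282) .nil))))))) (.g (nat_lit 1) (.e (nat_lit 146048) (nat_lit 0) .nil) .nil))))) (.nd (nat_lit 8) (.nd (nat_lit 9) 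
(.lf (nat_lit 490737) (.g (nat_lit 3617) (.e (nat_lit 163867) (nat_lit 2) (.e (nat_lit 196656) (nat_lit 11) (.e (nat_lit 16466) (nat_lit 13) (.e (nat_lit 483340) (nat_lit 9) (.e (nat_lit 426100) (nat_lit 1) (.e (nat_lit 164332) (nat_lit 230) .nil)))))) (.g (nat_lit 1) (.e (nat_lit 144643) (nat_lit 0) .nil) .nil))) 
(.lf (nat_lit 491249) (.g (nat_lit 3383) (.e (nat_lit 163868) (nat_lit 2) (.e (nat_lit 196670) (nat_lit 14) (.e (nat_lit 73746) (nat_lit 3) (.e (nat_lit 516129) (nat_lit 3) (.e (nat_lit 221215) (nat_lit 23) (.e (nat_lit 204830) (nat_lit 18) (.e (nat_lit 57928) (nat_lit 282) .nil))))))) (.g (nat_lit 1) (.e (nat_lit 145684) (nat_lit 0) .nil) .nil)))) (.nd (nat_lit 9) 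
(.lf (nat_lit 490993) (.g (nat_lit 2857) (.e (nat_lit 163867) (nat_lit 2) (.e (nat_lit 196672) (nat_lit 15) (.e (nat_lit 81927) (nat_lit 11) (.e (nat_lit 426500) (nat_lit 27) (.e (nat_lit 335995) (nat_lit 1) (.e (nat_lit 57924) (nat_lit 282) .nil)))))) (.g (nat_lit 1) (.e (nat_lit 145075) (nat_lit 0) .nil) .nil))) 
(.lf (nat_lit 491505) (.g (nat_lit 4599) (.e (nat_lit 163869) (nat_lit 2) (.e (nat_lit 196666) (nat_lit 13) (.e (nat_lit 65610) (nat_lit 10) (.e (nat_lit 344117) (nat_lit 21) (.e (nat_lit 516151) (nat_lit 9) (.e (nat_lit 426104) (nat_lit 1) (.e (nat_lit 171776) (nat_lit 219) .nil))))))) (.g (nat_lit 1) (.e (nat_lit 146245) (nat_lit 0) .nil) .nil))))))))) 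
(.nd (nat_lit 4) (.nd (nat_lit 5) (.nd (nat_lit 6) (.nd (nat_lit 7) (.nd (nat_lit 8) 
(.nd (nat_lit 9) 
(.lf (nat_lit 490505) (.g (nat_lit 3529) (.e (nat_lit 163864) (nat_lit 1) (.e (nat_lit 164332) (nat_lit 230) (.e (nat_lit 163902) (nat_lit 12) (.e (nat_lit 426438) (nat_lit 18) (.e (nat_lit 98373) (nat_lit 29) (.e (nat_lit 450560) (nat_lit 0) (.e (nat_lit 6839) (nat_lit 369) .nil))))))) (.g (nat_lit 1) (.e (nat_lit 144151) (nat_lit 0) .nil) .nil))) 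
(.lf (nat_lit 491017) (.g (nat_lit 3009) (.e (nat_lit 163867) (nat_lit 2) (.e (nat_lit 196681) (nat_lit 17) (.e (nat_lit 131109) (nat_lit 9) (.e (nat_lit 336456) (nat_lit 34) (.e (nat_lit 483365) (nat_lit 18) (.e (nat_lit 57931) (nat_lit 282) .nil)))))) (.g (nat_lit 1) (.e (nat_lit 145204) (nat_lit 0) .nil) .nil)))) (.nd (nat_lit 9) 
(.lf (nat_lit 490761) (.g (nat_lit 3807) (.e (nat_lit 163867) (nat_lit 2) (.e (nat_lit 196663) (nat_lit 13) (.e (nat_lit 65571) (nat_lit 3) (.e (nat_lit 98342) (nat_lit 20) (.e (nat_lit 221214) (nat_lit 23) (.e (nat_lit 204830) (nat_lit 18) (.e (nat_lit 57924) (nat_lit 282) .nil))))))) (.g (nat_lit 1) (.e (nat_lit 144675) (nat_lit 0) .nil) .nil))) 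
(.lf (nat_lit 491273) (.g (nat_lit 346) (.e (nat_lit 163868) (nat_lit 2) (.e (nat_lit 196672) (nat_lit 15) (.e (nat_lit 89856) (nat_lit 11) .nil))) (.g (nat_lit 0) (.e (nat_lit 145711) (nat_lit 0) .nil) .nil))))) (.nd (nat_lit 8) (.nd (nat_lit 9) 
(.lf (nat_lit 490633) (.g (nat_lit 2339) (.e (nat_lit 163866) (nat_lit 2) (.e (nat_lit 196668) (nat_lit 14) (.e (nat_lit 73746) (nat_lit 3) (.e (nat_lit 516129) (nat_lit 3) (.e (nat_lit 221214) (nat_lit 23) (.e (nat_lit 204829) (nat_lit 18) (.e (nat_lit 57931) (nat_lit 282) .nil))))))) (.g (nat_lit 1) (.e (nat_lit 144410) (nat_lit 0) .nil) .nil))) 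
(.lf (nat_lit 491145) (.g (nat_lit 2326) (.e (nat_lit 163868) (nat_lit 2) (.e (nat_lit 196668) (nat_lit 14) (.e (nat_lit 73746) (nat_lit 3) (.e (nat_lit 516131) (nat_lit 3) (.e (nat_lit 221215) (nat_lit 23) (.e (nat_lit 204830) (nat_lit 18) (.e (nat_lit 57924) (nat_lit 282) .nil))))))) (.g (nat_lit 1) (.e (nat_lit 145477) (nat_lit 0) .nil) .nil)))) (.nd (nat_lit 9) 
(.lf (nat_lit 490889) (.g (nat_lit 1315) (.e (nat_lit 163867) (nat_lit 2) (.e (nat_lit 196670) (nat_lit 14) (.e (nat_lit 73746) (nat_lit 3) (.e (nat_lit 516122) (nat_lit 2) .nil)))) (.g (nat_lit 0) (.e (nat_lit 144892) (nat_lit 0) .nil) .nil))) 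
(.lf (nat_lit 491401) (.g (nat_lit 4174) (.e (nat_lit 163869) (nat_lit 2) (.e (nat_lit 196666) (nat_lit 13) (.e (nat_lit 65571) (nat_lit 3) (.e (nat_lit 98342) (nat_lit 20) (.e (nat_lit 221214) (nat_lit 23) (.e (nat_lit 204830) (nat_lit 18) (.e (nat_lit 57926) (nat_lit 282) .nil))))))) (.g (nat_lit 1) (.e (nat_lit 146076) (nat_lit 0) .nil) .nil)))))) 
(.nd (nat_lit 7) (.nd (nat_lit 8) (.nd (nat_lit 9) 
(.lf (nat_lit 490569) (.g (nat_lit 1615) (.e (nat_lit 163866) (nat_lit 2) (.e (nat_lit 196654) (nat_lit 11) (.e (nat_lit 16466) (nat_lit 13) (.e (nat_lit 483336) (nat_lit 9) .nil)))) (.g (nat_lit 0) (.e (nat_lit 144335) (nat_lit 0) .nil) .nil))) 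
(.lf (nat_lit 491081) (.g (nat_lit 1802) (.e (nat_lit 163868) (nat_lit 2) (.e (nat_lit 196663) (nat_lit 13) (.e (nat_lit 65569) (nat_lit 3) (.e (nat_lit 98342) (nat_lit 20) (.e (nat_lit 221204) (nat_lit 20) .nil))))) (.g (nat_lit 0) (.e (nat_lit 145370) (nat_lit 0) .nil) .nil)))) (.nd (nat_lit 9) 
(.lf (nat_lit 490825) (.g (nat_lit 2091) (.e (nat_lit 163867) (nat_lit 2) (.e (nat_lit 196668) (nat_lit 14) (.e (nat_lit 73747) (nat_lit 3) (.e (nat_lit 516129) (nat_lit 3) (.e (nat_lit 221200) (nat_lit 20) .nil))))) (.g (nat_lit 0) (.e (nat_lit 144778) (nat_lit 0) .nil) .nil))) 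
(.lf (nat_lit 491337) (.g (nat_lit 2650) (.e (nat_lit 163869) (nat_lit 2) (.e (nat_lit 196663) (nat_lit 13) (.e (nat_lit 65571) (nat_lit 3) (.e (nat_lit 98341) (nat_lit 20) (.e (nat_lit 221215) (nat_lit 23) (.e (nat_lit 204829) (nat_lit 18) (.e (nat_lit 57927) (nat_lit 282) .nil))))))) (.g (nat_lit 1) (.e (nat_lit 145996) (nat_lit 0) .nil) .nil))))) (.nd (nat_lit 8) (.nd (nat_lit 9) 
(.lf (nat_lit 490697) (.g (nat_lit 1731) (.e (nat_lit 163866) (nat_lit 2) (.e (nat_lit 196681) (nat_lit 17) (.e (nat_lit 131109) (nat_lit 9) (.e (nat_lit 336456) (nat_lit 34) (.e (nat_lit 483364) (nat_lit 18) (.e (nat_lit 57929) (nat_lit 282) .nil)))))) (.g (nat_lit 1) (.e (nat_lit 144511) (nat_lit 0) .nil) .nil))) 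
(.lf (nat_lit 491209) (.g (nat_lit 2319) (.e (nat_lit 163868) (nat_lit 2) (.e (nat_lit 196668) (nat_lit 14) (.e (nat_lit 73748) (nat_lit 3) (.e (nat_lit 516131) (nat_lit 3) (.e (nat_lit 221215) (nat_lit 23) (.e (nat_lit 204829) (nat_lit 18) (.e (nat_lit 57927) (nat_lit 282) .nil))))))) (.g (nat_lit 1) (.e (nat_lit 145610) (nat_lit 0) .nil) .nil)))) (.nd (nat_lit 9) 
(.lf (nat_lit 490953) (.g (nat_lit 3094) (.e (nat_lit 163867) (nat_lit 2) (.e (nat_lit 196670) (nat_lit 14) (.e (nat_lit 73746) (nat_lit 3) (.e (nat_lit 516131) (nat_lit 3) (.e (nat_lit 221215) (nat_lit 23) (.e (nat_lit 204829) (nat_lit 18) (.e (nat_lit 57926) (nat_lit 282) .nil))))))) (.g (nat_lit 1) (.e (nat_lit 145006) (nat_lit 0) .nil) .nil))) 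
(.lf (nat_lit 491465) (.g (nat_lit 3484) (.e (nat_lit 163869) (nat_lit 2) (.e (nat_lit 196666) (nat_lit 13) (.e (nat_lit 65610) (nat_lit 10) (.e (nat_lit 344117) (nat_lit 21) (.e (nat_lit 516151) (nat_lit 9) (.e (nat_lit 426038) (nat_lit 0) (.e (nat_lit 2422) (nat_lit 157) (.e (nat_lit 7936) (nat_lit 285) .nil)))))))) (.g (nat_lit 1) (.e (nat_lit 146205) (nat_lit 0) .nil) .nil))))))) 
(.nd (nat_lit 6) (.nd (nat_lit 7) (.nd (nat_lit 8) (.nd (nat_lit 9) 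
(.lf (nat_lit 490537) (.g (nat_lit 1809) (.e (nat_lit 163865) (nat_lit 2) (.e (nat_lit 196654) (nat_lit 11) (.e (nat_lit 16433) (nat_lit 9) (.e (nat_lit 426568) (nat_lit 34) .nil)))) (.g (nat_lit 0) (.e (nat_lit 144287) (nat_lit 0) .nil) .nil))) 
(.lf (nat_lit 491049) (.g (nat_lit 1023) (.e (nat_lit 163868) (nat_lit 2) (.e (nat_lit 196654) (nat_lit 11) (.e (nat_lit 16466) (nat_lit 13) (.e (nat_lit 483341) (nat_lit 9) .nil)))) (.g (nat_lit 0) (.e (nat_lit 145305) (nat_lit 0) .nil) .nil)))) (.nd (nat_lit 9) 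
(.lf (nat_lit 490793) (.g (nat_lit 3400) (.e (nat_lit 163867) (nat_lit 2) (.e (nat_lit 196668) (nat_lit 14) (.e (nat_lit 73746) (nat_lit 3) (.e (nat_lit 516129) (nat_lit 3) (.e (nat_lit 221214) (nat_lit 23) (.e (nat_lit 204830) (nat_lit 18) (.e (nat_lit 57925) (nat_lit 282) .nil))))))) (.g (nat_lit 1) (.e (nat_lit 144732) (nat_lit 0) .nil) .nil))) 
(.lf (nat_lit 491305) (.g (nat_lit 2267) (.e (nat_lit 163869) (nat_lit 2) (.e (nat_lit 196654) (nat_lit 11) (.e (nat_lit 16463) (nat_lit 13) (.e (nat_lit 483341) (nat_lit 9) (.e (nat_lit 426099) (nat_lit 1) .nil))))) (.g (nat_lit 0) (.e (nat_lit 145947) (nat_lit 0) .nil) .nil))))) (.nd (nat_lit 8) (.nd (nat_lit 9) 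
(.lf (nat_lit 490665) (.g (nat_lit 2354) (.e (nat_lit 163866) (nat_lit 2) (.e (nat_lit 196670) (nat_lit 14) (.e (nat_lit 73746) (nat_lit 3) (.e (nat_lit 516129) (nat_lit 3) (.e (nat_lit 221215) (nat_lit 23) (.e (nat_lit 204830) (nat_lit 18) (.e (nat_lit 57931) (nat_lit 282) .nil))))))) (.g (nat_lit 1) (.e (nat_lit 144457) (nat_lit 0) .nil) .nil))) 
(.lf (nat_lit 491177) (.g (nat_lit 4690) (.e (nat_lit 163868) (nat_lit 2) (.e (nat_lit 196668) (nat_lit 14) (.e (nat_lit 73747) (nat_lit 3) (.e (nat_lit 516129) (nat_lit 3) (.e (nat_lit 221215) (nat_lit 23) (.e (nat_lit 204829) (nat_lit 18) (.e (nat_lit 57926) (nat_lit 282) .nil))))))) (.g (nat_lit 1) (.e (nat_lit 145551) (nat_lit 0) .nil) .nil)))) (.nd (nat_lit 9) 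
(.lf (nat_lit 490921) (.g (nat_lit 3950) (.e (nat_lit 163867) (nat_lit 2) (.e (nat_lit 196670) (nat_lit 14) (.e (nat_lit 73746) (nat_lit 3) (.e (nat_lit 516129) (nat_lit 3) (.e (nat_lit 221215) (nat_lit 23) (.e (nat_lit 204829) (nat_lit 18) (.e (nat_lit 57924) (nat_lit 282) .nil))))))) (.g (nat_lit 1) (.e (nat_lit 144971) (nat_lit 0) .nil) .nil))) 
(.lf (nat_lit 491433) (.g (nat_lit 2672) (.e (nat_lit 163869) (nat_lit 2) (.e (nat_lit 196666) (nat_lit 13) (.e (nat_lit 65610) (nat_lit 10) (.e (nat_lit 344117) (nat_lit 21) (.e (nat_lit 516147) (nat_lit 9) .nil))))) (.g (nat_lit 0) (.e (nat_lit 146173) (nat_lit 0) .nil) .nil)))))) (.nd (nat_lit 7) (.nd (nat_lit 8) (.nd (nat_lit 9) 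
(.lf (nat_lit 490601) (.g (nat_lit 2690) (.e (nat_lit 163866) (nat_lit 2) (.e (nat_lit 196666) (nat_lit 13) (.e (nat_lit 65569) (nat_lit 3) (.e (nat_lit 98342) (nat_lit 20) (.e (nat_lit 221215) (nat_lit 23) (.e (nat_lit 204830) (nat_lit 18) (.e (nat_lit 57926) (nat_lit 282) .nil))))))) (.g (nat_lit 1) (.e (nat_lit 144372) (nat_lit 0) .nil) .nil))) 
(.lf (nat_lit 491113) (.g (nat_lit 1036) (.e (nat_lit 163868) (nat_lit 2) (.e (nat_lit 196666) (nat_lit 13) (.e (nat_lit 65610) (nat_lit 10) .nil))) (.g (nat_lit 0) (.e (nat_lit 145406) (nat_lit 0) .nil) .nil)))) (.nd (nat_lit 9) 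
(.lf (nat_lit 490857) (.g (nat_lit 2201) (.e (nat_lit 163867) (nat_lit 2) (.e (nat_lit 196668) (nat_lit 14) (.e (nat_lit 73747) (nat_lit 3) (.e (nat_lit 516130) (nat_lit 3) (.e (nat_lit 221214) (nat_lit 23) (.e (nat_lit 204830) (nat_lit 18) (.e (nat_lit 57931) (nat_lit 282) .nil))))))) (.g (nat_lit 1) (.e (nat_lit 144821) (nat_lit 0) .nil) .nil))) 
(.lf (nat_lit 491369) (.g (nat_lit 4116) (.e (nat_lit 163869) (nat_lit 2) (.e (nat_lit 196666) (nat_lit 13) (.e (nat_lit 65569) (nat_lit 3) (.e (nat_lit 98342) (nat_lit 20) (.e (nat_lit 221215) (nat_lit 23) (.e (nat_lit 204830) (nat_lit 18) (.e (nat_lit 57929) (nat_lit 282) .nil))))))) (.g (nat_lit 1) (.e (nat_lit 146031) (nat_lit 0) .nil) .nil))))) (.nd (nat_lit 8) (.nd (nat_lit 9) 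
(.lf (nat_lit 490729) (.g (nat_lit 1680) (.e (nat_lit 163867) (nat_lit 2) (.e (nat_lit 196656) (nat_lit 11) (.e (nat_lit 16463) (nat_lit 13) (.e (nat_lit 483336) (nat_lit 9) .nil)))) (.g (nat_lit 0) (.e (nat_lit 144631) (nat_lit 0) .nil) .nil))) 
(.lf (nat_lit 491241) (.g (nat_lit 4664) (.e (nat_lit 163868) (nat_lit 2) (.e (nat_lit 196670) (nat_lit 14) (.e (nat_lit 73746) (nat_lit 3) (.e (nat_lit 516129) (nat_lit 3) (.e (nat_lit 221214) (nat_lit 23) (.e (nat_lit 204830) (nat_lit 18) (.e (nat_lit 57927) (nat_lit 282) .nil))))))) (.g (nat_lit 1) (.e (nat_lit 145676) (nat_lit 0) .nil) .nil)))) (.nd (nat_lit 9) 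
(.lf (nat_lit 490985) (.g (nat_lit 2589) (.e (nat_lit 163867) (nat_lit 2) (.e (nat_lit 196670) (nat_lit 14) (.e (nat_lit 73755) (nat_lit 8) (.e (nat_lit 557105) (nat_lit 14) (.e (nat_lit 180252) (nat_lit 10) .nil))))) (.g (nat_lit 0) (.e (nat_lit 145067) (nat_lit 0) .nil) .nil))) 
(.lf (nat_lit 491497) (.g (nat_lit 3247) (.e (nat_lit 163869) (nat_lit 2) (.e (nat_lit 196666) (nat_lit 13) (.e (nat_lit 65610) (nat_lit 10) (.e (nat_lit 344117) (nat_lit 21) (.e (nat_lit 516151) (nat_lit 9) (.e (nat_lit 426047) (nat_lit 0) (.e (nat_lit 2416) (nat_lit 157) (.e (nat_lit 4848) (nat_lit 285) .nil)))))))) (.g (nat_lit 1) (.e (nat_lit 146237) (nat_lit 0) .nil) .nil)))))))) 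
(.nd (nat_lit 5) (.nd (nat_lit 6) (.nd (nat_lit 7) (.nd (nat_lit 8) (.nd (nat_lit 9) 
(.lf (nat_lit 490521) (.g (nat_lit 1529) (.e (nat_lit 163864) (nat_lit 1) (.e (nat_lit 164332) (nat_lit 230) (.e (nat_lit 163905) (nat_lit 12) (.e (nat_lit 426472) (nat_lit 25) (.e (nat_lit 319533) (nat_lit 16) .nil))))) (.g (nat_lit 0) (.e (nat_lit 144181) (nat_lit 0) .nil) .nil))) 
(.lf (nat_lit 491033) (.g (nat_lit 1308) (.e (nat_lit 163868) (nat_lit 2) (.e (nat_lit 196654) (nat_lit 11) (.e (nat_lit 16436) (nat_lit 9) (.e (nat_lit 426479) (nat_lit 27) .nil)))) (.g (nat_lit 0) (.e (nat_lit 145277) (nat_lit 0) .nil) .nil)))) (.nd (nat_lit 9) 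
(.lf (nat_lit 490777) (.g (nat_lit 2361) (.e (nat_lit 163867) (nat_lit 2) (.e (nat_lit 196664) (nat_lit 13) (.e (nat_lit 65571) (nat_lit 3) (.e (nat_lit 98342) (nat_lit 20) (.e (nat_lit 221214) (nat_lit 23) (.e (nat_lit 204830) (nat_lit 18) (.e (nat_lit 57924) (nat_lit 282) .nil))))))) (.g (nat_lit 1) (.e (nat_lit 144692) (nat_lit 0) .nil) .nil))) 
(.lf (nat_lit 491289) (.g (nat_lit 450) (.e (nat_lit 163869) (nat_lit 2) (.e (nat_lit 196630) (nat_lit 9) (.e (nat_lit 430) (nat_lit 32) .nil))) (.g (nat_lit 0) (.e (nat_lit 145929) (nat_lit 0) .nil) .nil))))) (.nd (nat_lit 8) (.nd (nat_lit 9) 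
(.lf (nat_lit 490649) (.g (nat_lit 3836) (.e (nat_lit 163866) (nat_lit 2) (.e (nat_lit 196668) (nat_lit 14) (.e (nat_lit 73747) (nat_lit 3) (.e (nat_lit 516131) (nat_lit 3) (.e (nat_lit 221215) (nat_lit 23) (.e (nat_lit 204829) (nat_lit 18) (.e (nat_lit 57927) (nat_lit 282) .nil))))))) (.g (nat_lit 1) (.e (nat_lit 144440) (nat_lit 0) .nil) .nil))) 
(.lf (nat_lit 491161) (.g (nat_lit 2729) (.e (nat_lit 163868) (nat_lit 2) (.e (nat_lit 196668) (nat_lit 14) (.e (nat_lit 73747) (nat_lit 3) (.e (nat_lit 516129) (nat_lit 3) (.e (nat_lit 221214) (nat_lit 23) (.e (nat_lit 204829) (nat_lit 18) (.e (nat_lit 57924) (nat_lit 282) .nil))))))) (.g (nat_lit 1) (.e (nat_lit 145531) (nat_lit 0) .nil) .nil)))) (.nd (nat_lit 9) 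
(.lf (nat_lit 490905) (.g (nat_lit 2219) (.e (nat_lit 163867) (nat_lit 2) (.e (nat_lit 196670) (nat_lit 14) (.e (nat_lit 73746) (nat_lit 3) (.e (nat_lit 516129) (nat_lit 3) (.e (nat_lit 221214) (nat_lit 23) (.e (nat_lit 204828) (nat_lit 18) (.e (nat_lit 57925) (nat_lit 282) .nil))))))) (.g (nat_lit 1) (.e (nat_lit 144955) (nat_lit 0) .nil) .nil))) 
(.lf (nat_lit 491417) (.g (nat_lit 2643) (.e (nat_lit 163869) (nat_lit 2) (.e (nat_lit 196666) (nat_lit 13) (.e (nat_lit 65610) (nat_lit 10) (.e (nat_lit 344117) (nat_lit 21) (.e (nat_lit 516143) (nat_lit 9) .nil))))) (.g (nat_lit 0) (.e (nat_lit 146110) (nat_lit 0) .nil) .nil)))))) (.nd (nat_lit 7) (.nd (nat_lit 8) (.nd (nat_lit 9) 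
(.lf (nat_lit 490585) (.g (nat_lit 2516) (.e (nat_lit 163866) (nat_lit 2) (.e (nat_lit 196666) (nat_lit 13) (.e (nat_lit 65569) (nat_lit 3) (.e (nat_lit 98341) (nat_lit 20) (.e (nat_lit 221213) (nat_lit 23) (.e (nat_lit 204829) (nat_lit 18) (.e (nat_lit 57927) (nat_lit 282) .nil))))))) (.g (nat_lit 1) (.e (nat_lit 144354) (nat_lit 0) .nil) .nil))) 
(.lf (nat_lit 491097) (.g (nat_lit 1881) (.e (nat_lit 163868) (nat_lit 2) (.e (nat_lit 196663) (nat_lit 13) (.e (nat_lit 65571) (nat_lit 3) (.e (nat_lit 98342) (nat_lit 20) (.e (nat_lit 221214) (nat_lit 23) .nil))))) (.g (nat_lit 0) (.e (nat_lit 145388) (nat_lit 0) .nil) .nil)))) (.nd (nat_lit 9) 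
(.lf (nat_lit 490841) (.g (nat_lit 2739) (.e (nat_lit 163867) (nat_lit 2) (.e (nat_lit 196668) (nat_lit 14) (.e (nat_lit 73747) (nat_lit 3) (.e (nat_lit 516129) (nat_lit 3) (.e (nat_lit 221215) (nat_lit 23) (.e (nat_lit 204828) (nat_lit 18) (.e (nat_lit 57925) (nat_lit 282) .nil))))))) (.g (nat_lit 1) (.e (nat_lit 144805) (nat_lit 0) .nil) .nil))) 
(.lf (nat_lit 491353) (.g (nat_lit 3404) (.e (nat_lit 163869) (nat_lit 2) (.e (nat_lit 196666) (nat_lit 13) (.e (nat_lit 65569) (nat_lit 3) (.e (nat_lit 98341) (nat_lit 20) (.e (nat_lit 221215) (nat_lit 23) (.e (nat_lit 204829) (nat_lit 18) (.e (nat_lit 57927) (nat_lit 282) .nil))))))) (.g (nat_lit 1) (.e (nat_lit 146014) (nat_lit 0) .nil) .nil))))) (.nd (nat_lit 8) (.nd (nat_lit 9) 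
(.lf (nat_lit 490713) (.g (nat_lit 3754) (.e (nat_lit 163867) (nat_lit 2) (.e (nat_lit 196654) (nat_lit 11) (.e (nat_lit 16466) (nat_lit 13) (.e (nat_lit 483341) (nat_lit 9) (.e (nat_lit 426108) (nat_lit 1) (.e (nat_lit 164330) (nat_lit 230) .nil)))))) (.g (nat_lit 1) (.e (nat_lit 144598) (nat_lit 0) .nil) .nil))) 
(.lf (nat_lit 491225) (.g (nat_lit 3050) (.e (nat_lit 163868) (nat_lit 2) (.e (nat_lit 196670) (nat_lit 14) (.e (nat_lit 73746) (nat_lit 3) (.e (nat_lit 516124) (nat_lit 2) (.e (nat_lit 213037) (nat_lit 13) (.e (nat_lit 229433) (nat_lit 25) (.e (nat_lit 532501) (nat_lit 1) (.e (nat_lit 57928) (nat_lit 282) .nil)))))))) (.g (nat_lit 1) (.e (nat_lit 145660) (nat_lit 0) .nil) .nil)))) 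
(.nd (nat_lit 9) 
(.lf (nat_lit 490969) (.g (nat_lit 4213) (.e (nat_lit 163867) (nat_lit 2) (.e (nat_lit 196670) (nat_lit 14) (.e (nat_lit 73753) (nat_lit 8) (.e (nat_lit 557103) (nat_lit 14) (.e (nat_lit 180243) (nat_lit 5) (.e (nat_lit 532504) (nat_lit 1) (.e (nat_lit 65280) (nat_lit 168) .nil))))))) (.g (nat_lit 1) (.e (nat_lit 145043) (nat_lit 0) .nil) .nil))) 
(.lf (nat_lit 491481) (.g (nat_lit 4029) (.e (nat_lit 163869) (nat_lit 2) (.e (nat_lit 196666) (nat_lit 13) (.e (nat_lit 65610) (nat_lit 10) (.e (nat_lit 344117) (nat_lit 21) (.e (nat_lit 516151) (nat_lit 9) (.e (nat_lit 426042) (nat_lit 0) (.e (nat_lit 2424) (nat_lit 157) (.e (nat_lit 4849) (nat_lit 285) .nil)))))))) (.g (nat_lit 1) (.e (nat_lit 146221) (nat_lit 0) .nil) .nil))))))) 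
(.nd (nat_lit 6) (.nd (nat_lit 7) (.nd (nat_lit 8) (.nd (nat_lit 9) 
(.lf (nat_lit 490553) (.g (nat_lit 1770) (.e (nat_lit 163866) (nat_lit 2) (.e (nat_lit 196654) (nat_lit 11) (.e (nat_lit 16416) (nat_lit 3) (.e (nat_lit 204834) (nat_lit 19) .nil)))) (.g (nat_lit 0) (.e (nat_lit 144308) (nat_lit 0) .nil) .nil))) 
(.lf (nat_lit 491065) (.g (nat_lit 4121) (.e (nat_lit 163868) (nat_lit 2) (.e (nat_lit 196656) (nat_lit 11) (.e (nat_lit 16435) (nat_lit 9) (.e (nat_lit 426566) (nat_lit 34) (.e (nat_lit 393253) (nat_lit 18) (.e (nat_lit 164327) (nat_lit 230) .nil)))))) (.g (nat_lit 1) (.e (nat_lit 145342) (nat_lit 0) .nil) .nil)))) (.nd (nat_lit 9) 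
(.lf (nat_lit 490809) (.g (nat_lit 4593) (.e (nat_lit 163867) (nat_lit 2) (.e (nat_lit 196668) (nat_lit 14) (.e (nat_lit 73746) (nat_lit 3) (.e (nat_lit 516129) (nat_lit 3) (.e (nat_lit 221215) (nat_lit 23) (.e (nat_lit 204831) (nat_lit 18) (.e (nat_lit 57931) (nat_lit 282) .nil))))))) (.g (nat_lit 1) (.e (nat_lit 144748) (nat_lit 0) .nil) .nil))) 
(.lf (nat_lit 491321) (.g (nat_lit 4492) (.e (nat_lit 163869) (nat_lit 2) (.e (nat_lit 196656) (nat_lit 11) (.e (nat_lit 16463) (nat_lit 13) (.e (nat_lit 483337) (nat_lit 9) (.e (nat_lit 426108) (nat_lit 1) (.e (nat_lit 164332) (nat_lit 230) .nil)))))) (.g (nat_lit 1) (.e (nat_lit 145976) (nat_lit 0) .nil) .nil))))) (.nd (nat_lit 8) (.nd (nat_lit 9) 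
(.lf (nat_lit 490681) (.g (nat_lit 2680) (.e (nat_lit 163866) (nat_lit 2) (.e (nat_lit 196681) (nat_lit 17) (.e (nat_lit 131105) (nat_lit 9) (.e (nat_lit 336454) (nat_lit 34) (.e (nat_lit 483364) (nat_lit 18) (.e (nat_lit 57926) (nat_lit 282) .nil)))))) (.g (nat_lit 1) (.e (nat_lit 144486) (nat_lit 0) .nil) .nil))) 
(.lf (nat_lit 491193) (.g (nat_lit 3360) (.e (nat_lit 163868) (nat_lit 2) (.e (nat_lit 196668) (nat_lit 14) (.e (nat_lit 73747) (nat_lit 3) (.e (nat_lit 516131) (nat_lit 3) (.e (nat_lit 221213) (nat_lit 23) (.e (nat_lit 204830) (nat_lit 18) (.e (nat_lit 57928) (nat_lit 282) .nil))))))) (.g (nat_lit 1) (.e (nat_lit 145588) (nat_lit 0) .nil) .nil)))) (.nd (nat_lit 9) 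
(.lf (nat_lit 490937) (.g (nat_lit 1713) (.e (nat_lit 163867) (nat_lit 2) (.e (nat_lit 196670) (nat_lit 14) (.e (nat_lit 73746) (nat_lit 3) (.e (nat_lit 516131) (nat_lit 3) (.e (nat_lit 221212) (nat_lit 22) .nil))))) (.g (nat_lit 0) (.e (nat_lit 144987) (nat_lit 0) .nil) .nil))) 
(.lf (nat_lit 491449) (.g (nat_lit 4521) (.e (nat_lit 163869) (nat_lit 2) (.e (nat_lit 196666) (nat_lit 13) (.e (nat_lit 65610) (nat_lit 10) (.e (nat_lit 344117) (nat_lit 21) (.e (nat_lit 516151) (nat_lit 9) (.e (nat_lit 426022) (nat_lit 0) (.e (nat_lit 2397) (nat_lit 157) (.e (nat_lit 4849) (nat_lit 285) .nil)))))))) (.g (nat_lit 1) (.e (nat_lit 146189) (nat_lit 0) .nil) .nil)))))) 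
(.nd (nat_lit 7) (.nd (nat_lit 8) (.nd (nat_lit 9) 
(.lf (nat_lit 490617) (.g (nat_lit 3212) (.e (nat_lit 163866) (nat_lit 2) (.e (nat_lit 196666) (nat_lit 13) (.e (nat_lit 65571) (nat_lit 3) (.e (nat_lit 98342) (nat_lit 20) (.e (nat_lit 221214) (nat_lit 23) (.e (nat_lit 204831) (nat_lit 18) (.e (nat_lit 57931) (nat_lit 282) .nil))))))) (.g (nat_lit 1) (.e (nat_lit 144389) (nat_lit 0) .nil) .nil))) 
(.lf (nat_lit 491129) (.g (nat_lit 4309) (.e (nat_lit 163868) (nat_lit 2) (.e (nat_lit 196668) (nat_lit 14) (.e (nat_lit 73746) (nat_lit 3) (.e (nat_lit 516129) (nat_lit 3) (.e (nat_lit 221215) (nat_lit 23) (.e (nat_lit 204829) (nat_lit 18) (.e (nat_lit 57926) (nat_lit 282) .nil))))))) (.g (nat_lit 1) (.e (nat_lit 145449) (nat_lit 0) .nil) .nil)))) (.nd (nat_lit 9) 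
(.lf (nat_lit 490873) (.g (nat_lit 4633) (.e (nat_lit 163867) (nat_lit 2) (.e (nat_lit 196668) (nat_lit 14) (.e (nat_lit 73747) (nat_lit 3) (.e (nat_lit 516131) (nat_lit 3) (.e (nat_lit 221215) (nat_lit 23) (.e (nat_lit 204831) (nat_lit 18) (.e (nat_lit 57931) (nat_lit 282) .nil))))))) (.g (nat_lit 1) (.e (nat_lit 144847) (nat_lit 0) .nil) .nil))) 
(.lf (nat_lit 491385) (.g (nat_lit 4302) (.e (nat_lit 163869) (nat_lit 2) (.e (nat_lit 196666) (nat_lit 13) (.e (nat_lit 65571) (nat_lit 3) (.e (nat_lit 98341) (nat_lit 20) (.e (nat_lit 221215) (nat_lit 23) (.e (nat_lit 204830) (nat_lit 18) (.e (nat_lit 57927) (nat_lit 282) .nil))))))) (.g (nat_lit 1) (.e (nat_lit 146056) (nat_lit 0) .nil) .nil))))) (.nd (nat_lit 8) (.nd (nat_lit 9) 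
(.lf (nat_lit 490745) (.g (nat_lit 3003) (.e (nat_lit 163867) (nat_lit 2) (.e (nat_lit 196663) (nat_lit 13) (.e (nat_lit 65569) (nat_lit 3) (.e (nat_lit 98342) (nat_lit 20) (.e (nat_lit 221215) (nat_lit 23) (.e (nat_lit 204831) (nat_lit 18) (.e (nat_lit 57931) (nat_lit 282) .nil))))))) (.g (nat_lit 1) (.e (nat_lit 144656) (nat_lit 0) .nil) .nil))) 
(.lf (nat_lit 491257) (.g (nat_lit 2092) (.e (nat_lit 163868) (nat_lit 2) (.e (nat_lit 196670) (nat_lit 14) (.e (nat_lit 73748) (nat_lit 3) (.e (nat_lit 516131) (nat_lit 3) (.e (nat_lit 221215) (nat_lit 23) (.e (nat_lit 204829) (nat_lit 18) (.e (nat_lit 57927) (nat_lit 282) .nil))))))) (.g (nat_lit 1) (.e (nat_lit 145692) (nat_lit 0) .nil) .nil)))) (.nd (nat_lit 9) 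
(.lf (nat_lit 491001) (.g (nat_lit 3455) (.e (nat_lit 163867) (nat_lit 2) (.e (nat_lit 196674) (nat_lit 15) (.e (nat_lit 81925) (nat_lit 11) (.e (nat_lit 426500) (nat_lit 27) (.e (nat_lit 335996) (nat_lit 1) (.e (nat_lit 57930) (nat_lit 282) .nil)))))) (.g (nat_lit 1) (.e (nat_lit 145175) (nat_lit 0) .nil) .nil))) 
(.lf (nat_lit 491513) (.g (nat_lit 3708) (.e (nat_lit 163869) (nat_lit 2) (.e (nat_lit 196666) (nat_lit 13) (.e (nat_lit 65610) (nat_lit 10) (.e (nat_lit 344117) (nat_lit 21) (.e (nat_lit 516159) (nat_lit 10) (.e (nat_lit 434200) (nat_lit 18) (.e (nat_lit 4849) (nat_lit 285) .nil))))))) (.g (nat_lit 1) (.e (nat_lit 146267) (nat_lit 0) .nil) .nil)))))))))) 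
(.nd (nat_lit 3) (.nd (nat_lit 4) (.nd (nat_lit 5) (.nd (nat_lit 6) (.nd (nat_lit 7) 
(.nd (nat_lit 8) (.nd (nat_lit 9) 
(.lf (nat_lit 490501) (.g (nat_lit 3068) (.e (nat_lit 163864) (nat_lit 1) (.e (nat_lit 164332) (nat_lit 230) (.e (nat_lit 163902) (nat_lit 12) (.e (nat_lit 426438) (nat_lit 18) (.e (nat_lit 98372) (nat_lit 29) (.e (nat_lit 450564) (nat_lit 0) (.e (nat_lit 7936) (nat_lit 369) .nil))))))) (.g (nat_lit 1) (.e (nat_lit 144147) (nat_lit 0) .nil) .nil))) 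
(.lf (nat_lit 491013) (.g (nat_lit 2157) (.e (nat_lit 163867) (nat_lit 2) (.e (nat_lit 196681) (nat_lit 17) (.e (nat_lit 131109) (nat_lit 9) (.e (nat_lit 336454) (nat_lit 34) (.e (nat_lit 483364) (nat_lit 18) (.e (nat_lit 57929) (nat_lit 282) .nil)))))) (.g (nat_lit 1) (.e (nat_lit 145200) (nat_lit 0) .nil) .nil)))) (.nd (nat_lit 9) 
(.lf (nat_lit 490757) (.g (nat_lit 2370) (.e (nat_lit 163867) (nat_lit 2) (.e (nat_lit 196663) (nat_lit 13) (.e (nat_lit 65571) (nat_lit 3) (.e (nat_lit 98342) (nat_lit 20) (.e (nat_lit 221213) (nat_lit 23) (.e (nat_lit 204830) (nat_lit 18) (.e (nat_lit 57924) (nat_lit 282) .nil))))))) (.g (nat_lit 1) (.e (nat_lit 144669) (nat_lit 0) .nil) .nil))) 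
(.lf (nat_lit 491269) (.g (nat_lit 1699) (.e (nat_lit 163868) (nat_lit 2) (.e (nat_lit 196672) (nat_lit 15) (.e (nat_lit 81925) (nat_lit 11) (.e (nat_lit 426500) (nat_lit 27) (.e (nat_lit 335988) (nat_lit 1) (.e (nat_lit 57928) (nat_lit 282) .nil)))))) (.g (nat_lit 1) (.e (nat_lit 145704) (nat_lit 0) .nil) .nil))))) (.nd (nat_lit 8) (.nd (nat_lit 9) 
(.lf (nat_lit 490629) (.g (nat_lit 3089) (.e (nat_lit 163866) (nat_lit 2) (.e (nat_lit 196666) (nat_lit 13) (.e (nat_lit 65625) (nat_lit 13) (.e (nat_lit 393225) (nat_lit 9) (.e (nat_lit 335995) (nat_lit 1) (.e (nat_lit 57931) (nat_lit 282) .nil)))))) (.g (nat_lit 1) (.e (nat_lit 144406) (nat_lit 0) .nil) .nil))) 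
(.lf (nat_lit 491141) (.g (nat_lit 3048) (.e (nat_lit 163868) (nat_lit 2) (.e (nat_lit 196668) (nat_lit 14) (.e (nat_lit 73746) (nat_lit 3) (.e (nat_lit 516131) (nat_lit 3) (.e (nat_lit 221214) (nat_lit 23) (.e (nat_lit 204830) (nat_lit 18) (.e (nat_lit 57928) (nat_lit 282) .nil))))))) (.g (nat_lit 1) (.e (nat_lit 145472) (nat_lit 0) .nil) .nil)))) (.nd (nat_lit 9) 
(.lf (nat_lit 490885) (.g (nat_lit 3096) (.e (nat_lit 163867) (nat_lit 2) (.e (nat_lit 196669) (nat_lit 14) (.e (nat_lit 73755) (nat_lit 8) (.e (nat_lit 557103) (nat_lit 14) (.e (nat_lit 180244) (nat_lit 5) (.e (nat_lit 532499) (nat_lit 1) (.e (nat_lit 65280) (nat_lit 168) .nil))))))) (.g (nat_lit 1) (.e (nat_lit 144887) (nat_lit 0) .nil) .nil))) 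
(.lf (nat_lit 491397) (.g (nat_lit 2169) (.e (nat_lit 163869) (nat_lit 2) (.e (nat_lit 196666) (nat_lit 13) (.e (nat_lit 65571) (nat_lit 3) (.e (nat_lit 98342) (nat_lit 20) (.e (nat_lit 221214) (nat_lit 23) (.e (nat_lit 204828) (nat_lit 18) (.e (nat_lit 57927) (nat_lit 282) .nil))))))) (.g (nat_lit 1) (.e (nat_lit 146072) (nat_lit 0) .nil) .nil)))))) 
(.nd (nat_lit 7) (.nd (nat_lit 8) (.nd (nat_lit 9) 
(.lf (nat_lit 490565) (.g (nat_lit 2182) (.e (nat_lit 163866) (nat_lit 2) (.e (nat_lit 196654) (nat_lit 11) (.e (nat_lit 16463) (nat_lit 13) (.e (nat_lit 483340) (nat_lit 9) .nil)))) (.g (nat_lit 0) (.e (nat_lit 144326) (nat_lit 0) .nil) .nil))) 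
(.lf (nat_lit 491077) (.g (nat_lit 1215) (.e (nat_lit 163868) (nat_lit 2) (.e (nat_lit 196656) (nat_lit 11) (.e (nat_lit 16466) (nat_lit 13) (.e (nat_lit 491264) (nat_lit 10) .nil)))) (.g (nat_lit 0) (.e (nat_lit 145358) (nat_lit 0) .nil) .nil)))) (.nd (nat_lit 9) 
(.lf (nat_lit 490821) (.g (nat_lit 3546) (.e (nat_lit 163867) (nat_lit 2) (.e (nat_lit 196668) (nat_lit 14) (.e (nat_lit 73746) (nat_lit 3) (.e (nat_lit 516131) (nat_lit 3) (.e (nat_lit 221215) (nat_lit 23) (.e (nat_lit 204830) (nat_lit 18) (.e (nat_lit 57931) (nat_lit 282) .nil))))))) (.g (nat_lit 1) (.e (nat_lit 144763) (nat_lit 0) .nil) .nil))) 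
(.lf (nat_lit 491333) (.g (nat_lit 2117) (.e (nat_lit 163869) (nat_lit 2) (.e (nat_lit 196663) (nat_lit 13) (.e (nat_lit 65569) (nat_lit 3) (.e (nat_lit 98342) (nat_lit 20) (.e (nat_lit 221214) (nat_lit 23) (.e (nat_lit 204829) (nat_lit 18) (.e (nat_lit 57927) (nat_lit 282) .nil))))))) (.g (nat_lit 1) (.e (nat_lit 145991) (nat_lit 0) .nil) .nil))))) (.nd (nat_lit 8) (.nd (nat_lit 9) 
(.lf (nat_lit 490693) (.g (nat_lit 2350) (.e (nat_lit 163866) (nat_lit 2) (.e (nat_lit 196681) (nat_lit 17) (.e (nat_lit 131109) (nat_lit 9) (.e (nat_lit 336454) (nat_lit 34) (.e (nat_lit 483364) (nat_lit 18) (.e (nat_lit 57929) (nat_lit 282) .nil)))))) (.g (nat_lit 1) (.e (nat_lit 144507) (nat_lit 0) .nil) .nil))) 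
(.lf (nat_lit 491205) (.g (nat_lit 4019) (.e (nat_lit 163868) (nat_lit 2) (.e (nat_lit 196668) (nat_lit 14) (.e (nat_lit 73747) (nat_lit 3) (.e (nat_lit 516131) (nat_lit 3) (.e (nat_lit 221215) (nat_lit 23) (.e (nat_lit 204829) (nat_lit 18) (.e (nat_lit 57928) (nat_lit 282) .nil))))))) (.g (nat_lit 1) (.e (nat_lit 145601) (nat_lit 0) .nil) .nil)))) (.nd (nat_lit 9) 
(.lf (nat_lit 490949) (.g (nat_lit 3091) (.e (nat_lit 163867) (nat_lit 2) (.e (nat_lit 196670) (nat_lit 14) (.e (nat_lit 73746) (nat_lit 3) (.e (nat_lit 516131) (nat_lit 3) (.e (nat_lit 221215) (nat_lit 23) (.e (nat_lit 204828) (nat_lit 18) (.e (nat_lit 57925) (nat_lit 282) .nil))))))) (.g (nat_lit 1) (.e (nat_lit 145002) (nat_lit 0) .nil) .nil))) 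
(.lf (nat_lit 491461) (.g (nat_lit 3264) (.e (nat_lit 163869) (nat_lit 2) (.e (nat_lit 196666) (nat_lit 13) (.e (nat_lit 65610) (nat_lit 10) (.e (nat_lit 344117) (nat_lit 21) (.e (nat_lit 516151) (nat_lit 9) (.e (nat_lit 426037) (nat_lit 0) (.e (nat_lit 2416) (nat_lit 157) (.e (nat_lit 4848) (nat_lit 285) .nil)))))))) (.g (nat_lit 1) (.e (nat_lit 146201) (nat_lit 0) .nil) .nil))))))) 
(.nd (nat_lit 6) (.nd (nat_lit 7) (.nd (nat_lit 8) (.nd (nat_lit 9) 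
(.lf (nat_lit 490533) (.g (nat_lit 4137) (.e (nat_lit 163864) (nat_lit 1) (.e (nat_lit 164332) (nat_lit 230) (.e (nat_lit 163905) (nat_lit 12) (.e (nat_lit 426472) (nat_lit 25) (.e (nat_lit 319534) (nat_lit 16) (.e (nat_lit 286756) (nat_lit 10) (.e (nat_lit 344097) (nat_lit 18) (.e (nat_lit 7280) (nat_lit 386) .nil)))))))) (.g (nat_lit 1) (.e (nat_lit 144193) (nat_lit 0) .nil) .nil))) 
(.lf (nat_lit 491045) (.g (nat_lit 2464) (.e (nat_lit 163868) (nat_lit 2) (.e (nat_lit 196654) (nat_lit 11) (.e (nat_lit 16463) (nat_lit 13) (.e (nat_lit 483340) (nat_lit 9) (.e (nat_lit 426098) (nat_lit 1) .nil))))) (.g (nat_lit 0) (.e (nat_lit 145293) (nat_lit 0) .nil) .nil)))) (.nd (nat_lit 9) 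
(.lf (nat_lit 490789) (.g (nat_lit 2949) (.e (nat_lit 163867) (nat_lit 2) (.e (nat_lit 196668) (nat_lit 14) (.e (nat_lit 73746) (nat_lit 3) (.e (nat_lit 516129) (nat_lit 3) (.e (nat_lit 221214) (nat_lit 23) (.e (nat_lit 204829) (nat_lit 18) (.e (nat_lit 57925) (nat_lit 282) .nil))))))) (.g (nat_lit 1) (.e (nat_lit 144728) (nat_lit 0) .nil) .nil))) 
(.lf (nat_lit 491301) (.g (nat_lit 4262) (.e (nat_lit 163869) (nat_lit 2) (.e (nat_lit 196654) (nat_lit 11) (.e (nat_lit 16463) (nat_lit 13) (.e (nat_lit 483337) (nat_lit 9) (.e (nat_lit 426107) (nat_lit 1) (.e (nat_lit 164325) (nat_lit 230) .nil)))))) (.g (nat_lit 1) (.e (nat_lit 145943) (nat_lit 0) .nil) .nil))))) (.nd (nat_lit 8) (.nd (nat_lit 9) 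
(.lf (nat_lit 490661) (.g (nat_lit 3204) (.e (nat_lit 163866) (nat_lit 2) (.e (nat_lit 196670) (nat_lit 14) (.e (nat_lit 73746) (nat_lit 3) (.e (nat_lit 516129) (nat_lit 3) (.e (nat_lit 221214) (nat_lit 23) (.e (nat_lit 204829) (nat_lit 18) (.e (nat_lit 57931) (nat_lit 282) .nil))))))) (.g (nat_lit 1) (.e (nat_lit 144453) (nat_lit 0) .nil) .nil))) 
(.lf (nat_lit 491173) (.g (nat_lit 3598) (.e (nat_lit 163868) (nat_lit 2) (.e (nat_lit 196668) (nat_lit 14) (.e (nat_lit 73747) (nat_lit 3) (.e (nat_lit 516129) (nat_lit 3) (.e (nat_lit 221215) (nat_lit 23) (.e (nat_lit 204828) (nat_lit 18) (.e (nat_lit 57927) (nat_lit 282) .nil))))))) (.g (nat_lit 1) (.e (nat_lit 145547) (nat_lit 0) .nil) .nil)))) (.nd (nat_lit 9) 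
(.lf (nat_lit 490917) (.g (nat_lit 2837) (.e (nat_lit 163867) (nat_lit 2) (.e (nat_lit 196670) (nat_lit 14) (.e (nat_lit 73746) (nat_lit 3) (.e (nat_lit 516129) (nat_lit 3) (.e (nat_lit 221214) (nat_lit 23) (.e (nat_lit 204839) (nat_lit 21) (.e (nat_lit 123228) (nat_lit 282) .nil))))))) (.g (nat_lit 1) (.e (nat_lit 144967) (nat_lit 0) .nil) .nil))) 
(.lf (nat_lit 491429) (.g (nat_lit 2862) (.e (nat_lit 163869) (nat_lit 2) (.e (nat_lit 196666) (nat_lit 13) (.e (nat_lit 65610) (nat_lit 10) (.e (nat_lit 344117) (nat_lit 21) (.e (nat_lit 516145) (nat_lit 9) (.e (nat_lit 426148) (nat_lit 4) (.e (nat_lit 237312) (nat_lit 219) .nil))))))) (.g (nat_lit 1) (.e (nat_lit 146122) (nat_lit 0) .nil) .nil)))))) 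
(.nd (nat_lit 7) (.nd (nat_lit 8) (.nd (nat_lit 9) 
(.lf (nat_lit 490597) (.g (nat_lit 3992) (.e (nat_lit 163866) (nat_lit 2) (.e (nat_lit 196666) (nat_lit 13) (.e (nat_lit 65569) (nat_lit 3) (.e (nat_lit 98342) (nat_lit 20) (.e (nat_lit 221214) (nat_lit 23) (.e (nat_lit 204830) (nat_lit 18) (.e (nat_lit 57927) (nat_lit 282) .nil))))))) (.g (nat_lit 1) (.e (nat_lit 144368) (nat_lit 0) .nil) .nil))) 
(.lf (nat_lit 491109) (.g (nat_lit 2147) (.e (nat_lit 163868) (nat_lit 2) (.e (nat_lit 196665) (nat_lit 13) (.e (nat_lit 65637) (nat_lit 15) (.e (nat_lit 3748) (nat_lit 228) (.e (nat_lit 786473) (nat_lit 27) (.e (nat_lit 336420) (nat_lit 28) (.e (nat_lit 434206) (nat_lit 18) (.e (nat_lit 5968) (nat_lit 324) .nil)))))))) (.g (nat_lit 1) (.e (nat_lit 145402) (nat_lit 0) .nil) .nil)))) 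
(.nd (nat_lit 9) 
(.lf (nat_lit 490853) (.g (nat_lit 1263) (.e (nat_lit 163867) (nat_lit 2) (.e (nat_lit 196668) (nat_lit 14) (.e (nat_lit 73747) (nat_lit 3) (.e (nat_lit 516130) (nat_lit 3) .nil)))) (.g (nat_lit 0) (.e (nat_lit 144817) (nat_lit 0) .nil) .nil))) 
(.lf (nat_lit 491365) (.g (nat_lit 3048) (.e (nat_lit 163869) (nat_lit 2) (.e (nat_lit 196666) (nat_lit 13) (.e (nat_lit 65569) (nat_lit 3) (.e (nat_lit 98342) (nat_lit 20) (.e (nat_lit 221215) (nat_lit 23) (.e (nat_lit 204828) (nat_lit 18) (.e (nat_lit 57927) (nat_lit 282) .nil))))))) (.g (nat_lit 1) (.e (nat_lit 146027) (nat_lit 0) .nil) .nil))))) (.nd (nat_lit 8) (.nd (nat_lit 9) 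
(.lf (nat_lit 490725) (.g (nat_lit 913) (.e (nat_lit 163867) (nat_lit 2) (.e (nat_lit 196656) (nat_lit 11) (.e (nat_lit 16417) (nat_lit 3) .nil))) (.g (nat_lit 0) (.e (nat_lit 144614) (nat_lit 0) .nil) .nil))) 
(.lf (nat_lit 491237) (.g (nat_lit 4268) (.e (nat_lit 163868) (nat_lit 2) (.e (nat_lit 196670) (nat_lit 14) (.e (nat_lit 73746) (nat_lit 3) (.e (nat_lit 516129) (nat_lit 3) (.e (nat_lit 221214) (nat_lit 23) (.e (nat_lit 204829) (nat_lit 18) (.e (nat_lit 57926) (nat_lit 282) .nil))))))) (.g (nat_lit 1) (.e (nat_lit 145672) (nat_lit 0) .nil) .nil)))) (.nd (nat_lit 9) 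
(.lf (nat_lit 490981) (.g (nat_lit 2781) (.e (nat_lit 163867) (nat_lit 2) (.e (nat_lit 196670) (nat_lit 14) (.e (nat_lit 73754) (nat_lit 8) (.e (nat_lit 557103) (nat_lit 14) (.e (nat_lit 180244) (nat_lit 5) (.e (nat_lit 532499) (nat_lit 1) (.e (nat_lit 65280) (nat_lit 168) .nil))))))) (.g (nat_lit 1) (.e (nat_lit 145061) (nat_lit 0) .nil) .nil))) 
(.lf (nat_lit 491493) (.g (nat_lit 3805) (.e (nat_lit 163869) (nat_lit 2) (.e (nat_lit 196666) (nat_lit 13) (.e (nat_lit 65610) (nat_lit 10) (.e (nat_lit 344117) (nat_lit 21) (.e (nat_lit 516151) (nat_lit 9) (.e (nat_lit 426043) (nat_lit 0) (.e (nat_lit 2424) (nat_lit 157) (.e (nat_lit 7936) (nat_lit 285) .nil)))))))) (.g (nat_lit 1) (.e (nat_lit 146233) (nat_lit 0) .nil) .nil)))))))) 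
(.nd (nat_lit 5) (.nd (nat_lit 6) (.nd (nat_lit 7) (.nd (nat_lit 8) (.nd (nat_lit 9) 
(.lf (nat_lit 490517) (.g (nat_lit 3894) (.e (nat_lit 163864) (nat_lit 1) (.e (nat_lit 164332) (nat_lit 230) (.e (nat_lit 163902) (nat_lit 12) (.e (nat_lit 426472) (nat_lit 25) (.e (nat_lit 319534) (nat_lit 16) (.e (nat_lit 286756) (nat_lit 10) (.e (nat_lit 344087) (nat_lit 18) (.e (nat_lit 7289) (nat_lit 386) .nil)))))))) (.g (nat_lit 1) (.e (nat_lit 144163) (nat_lit 0) .nil) .nil))) 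
(.lf (nat_lit 491029) (.g (nat_lit 1860) (.e (nat_lit 163868) (nat_lit 2) (.e (nat_lit 196654) (nat_lit 11) (.e (nat_lit 16433) (nat_lit 9) (.e (nat_lit 426564) (nat_lit 34) (.e (nat_lit 393251) (nat_lit 18) .nil))))) (.g (nat_lit 0) (.e (nat_lit 145273) (nat_lit 0) .nil) .nil)))) (.nd (nat_lit 9) 
(.lf (nat_lit 490773) (.g (nat_lit 2635) (.e (nat_lit 163867) (nat_lit 2) (.e (nat_lit 196664) (nat_lit 13) (.e (nat_lit 65571) (nat_lit 3) (.e (nat_lit 98341) (nat_lit 20) (.e (nat_lit 221214) (nat_lit 23) (.e (nat_lit 204830) (nat_lit 18) (.e (nat_lit 57931) (nat_lit 282) .nil))))))) (.g (nat_lit 1) (.e (nat_lit 144688) (nat_lit 0) .nil) .nil))) 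
(.lf (nat_lit 491285) (.g (nat_lit 2753) (.e (nat_lit 163868) (nat_lit 2) (.e (nat_lit 196681) (nat_lit 17) (.e (nat_lit 131109) (nat_lit 9) (.e (nat_lit 336456) (nat_lit 34) (.e (nat_lit 483364) (nat_lit 18) (.e (nat_lit 57927) (nat_lit 282) .nil)))))) (.g (nat_lit 1) (.e (nat_lit 145894) (nat_lit 0) .nil) .nil))))) (.nd (nat_lit 8) (.nd (nat_lit 9) 
(.lf (nat_lit 490645) (.g (nat_lit 3921) (.e (nat_lit 163866) (nat_lit 2) (.e (nat_lit 196668) (nat_lit 14) (.e (nat_lit 73747) (nat_lit 3) (.e (nat_lit 516129) (nat_lit 3) (.e (nat_lit 221215) (nat_lit 23) (.e (nat_lit 204831) (nat_lit 18) (.e (nat_lit 57931) (nat_lit 282) .nil))))))) (.g (nat_lit 1) (.e (nat_lit 144435) (nat_lit 0) .nil) .nil))) 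
(.lf (nat_lit 491157) (.g (nat_lit 3494) (.e (nat_lit 163868) (nat_lit 2) (.e (nat_lit 196668) (nat_lit 14) (.e (nat_lit 73747) (nat_lit 3) (.e (nat_lit 516129) (nat_lit 3) (.e (nat_lit 221213) (nat_lit 23) (.e (nat_lit 204830) (nat_lit 18) (.e (nat_lit 57927) (nat_lit 282) .nil))))))) (.g (nat_lit 1) (.e (nat_lit 145523) (nat_lit 0) .nil) .nil)))) (.nd (nat_lit 9) 
(.lf (nat_lit 490901) (.g (nat_lit 2896) (.e (nat_lit 163867) (nat_lit 2) (.e (nat_lit 196670) (nat_lit 14) (.e (nat_lit 73746) (nat_lit 3) (.e (nat_lit 516129) (nat_lit 3) (.e (nat_lit 221213) (nat_lit 23) (.e (nat_lit 204829) (nat_lit 18) (.e (nat_lit 57927) (nat_lit 282) .nil))))))) (.g (nat_lit 1) (.e (nat_lit 144951) (nat_lit 0) .nil) .nil))) 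
(.lf (nat_lit 491413) (.g (nat_lit 2467) (.e (nat_lit 163869) (nat_lit 2) (.e (nat_lit 196666) (nat_lit 13) (.e (nat_lit 65571) (nat_lit 3) (.e (nat_lit 98342) (nat_lit 20) (.e (nat_lit 221215) (nat_lit 23) (.e (nat_lit 204831) (nat_lit 18) (.e (nat_lit 57929) (nat_lit 282) .nil))))))) (.g (nat_lit 1) (.e (nat_lit 146090) (nat_lit 0) .nil) .nil)))))) 
(.nd (nat_lit 7) (.nd (nat_lit 8) (.nd (nat_lit 9) 
(.lf (nat_lit 490581) (.g (nat_lit 2081) (.e (nat_lit 163866) (nat_lit 2) (.e (nat_lit 196663) (nat_lit 13) (.e (nat_lit 65571) (nat_lit 3) (.e (nat_lit 98342) (nat_lit 20) (.e (nat_lit 221215) (nat_lit 23) (.e (nat_lit 204830) (nat_lit 18) (.e (nat_lit 57927) (nat_lit 282) .nil))))))) (.g (nat_lit 1) (.e (nat_lit 144349) (nat_lit 0) .nil) .nil))) 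
(.lf (nat_lit 491093) (.g (nat_lit 2415) (.e (nat_lit 163868) (nat_lit 2) (.e (nat_lit 196663) (nat_lit 13) (.e (nat_lit 65571) (nat_lit 3) (.e (nat_lit 98341) (nat_lit 20) (.e (nat_lit 221215) (nat_lit 23) (.e (nat_lit 204829) (nat_lit 18) (.e (nat_lit 57928) (nat_lit 282) .nil))))))) (.g (nat_lit 1) (.e (nat_lit 145383) (nat_lit 0) .nil) .nil)))) (.nd (nat_lit 9) 
(.lf (nat_lit 490837) (.g (nat_lit 4257) (.e (nat_lit 163867) (nat_lit 2) (.e (nat_lit 196668) (nat_lit 14) (.e (nat_lit 73747) (nat_lit 3) (.e (nat_lit 516129) (nat_lit 3) (.e (nat_lit 221214) (nat_lit 23) (.e (nat_lit 204830) (nat_lit 18) (.e (nat_lit 57925) (nat_lit 282) .nil))))))) (.g (nat_lit 1) (.e (nat_lit 144798) (nat_lit 0) .nil) .nil))) 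
(.lf (nat_lit 491349) (.g (nat_lit 3648) (.e (nat_lit 163869) (nat_lit 2) (.e (nat_lit 196666) (nat_lit 13) (.e (nat_lit 65569) (nat_lit 3) (.e (nat_lit 98341) (nat_lit 20) (.e (nat_lit 221214) (nat_lit 23) (.e (nat_lit 204829) (nat_lit 18) (.e (nat_lit 57927) (nat_lit 282) .nil))))))) (.g (nat_lit 1) (.e (nat_lit 146010) (nat_lit 0) .nil) .nil))))) (.nd (nat_lit 8) (.nd (nat_lit 9) 
(.lf (nat_lit 490709) (.g (nat_lit 2194) (.e (nat_lit 163867) (nat_lit 2) (.e (nat_lit 196654) (nat_lit 11) (.e (nat_lit 16463) (nat_lit 13) (.e (nat_lit 483340) (nat_lit 9) .nil)))) (.g (nat_lit 0) (.e (nat_lit 144594) (nat_lit 0) .nil) .nil))) 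
(.lf (nat_lit 491221) (.g (nat_lit 2788) (.e (nat_lit 163868) (nat_lit 2) (.e (nat_lit 196668) (nat_lit 14) (.e (nat_lit 73753) (nat_lit 8) (.e (nat_lit 557104) (nat_lit 14) (.e (nat_lit 180252) (nat_lit 10) .nil))))) (.g (nat_lit 0) (.e (nat_lit 145655) (nat_lit 0) .nil) .nil)))) (.nd (nat_lit 9) 
(.lf (nat_lit 490965) (.g (nat_lit 1038) (.e (nat_lit 163867) (nat_lit 2) (.e (nat_lit 196670) (nat_lit 14) (.e (nat_lit 73748) (nat_lit 3) (.e (nat_lit 516131) (nat_lit 3) .nil)))) (.g (nat_lit 0) (.e (nat_lit 145018) (nat_lit 0) .nil) .nil))) 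
(.lf (nat_lit 491477) (.g (nat_lit 3341) (.e (nat_lit 163869) (nat_lit 2) (.e (nat_lit 196666) (nat_lit 13) (.e (nat_lit 65610) (nat_lit 10) (.e (nat_lit 344117) (nat_lit 21) (.e (nat_lit 516151) (nat_lit 9) (.e (nat_lit 426042) (nat_lit 0) (.e (nat_lit 2422) (nat_lit 157) (.e (nat_lit 4849) (nat_lit 285) .nil)))))))) (.g (nat_lit 1) (.e (nat_lit 146217) (nat_lit 0) .nil) .nil))))))) 
(.nd (nat_lit 6) (.nd (nat_lit 7) (.nd (nat_lit 8) (.nd (nat_lit 9) 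
(.lf (nat_lit 490549) (.g (nat_lit 919) (.e (nat_lit 163865) (nat_lit 2) (.e (nat_lit 196681) (nat_lit 17) (.e (nat_lit 131109) (nat_lit 9) .nil))) (.g (nat_lit 0) (.e (nat_lit 144300) (nat_lit 0) .nil) .nil))) 
(.lf (nat_lit 491061) (.g (nat_lit 3658) (.e (nat_lit 163868) (nat_lit 2) (.e (nat_lit 196656) (nat_lit 11) (.e (nat_lit 16433) (nat_lit 9) (.e (nat_lit 426566) (nat_lit 34) (.e (nat_lit 393251) (nat_lit 18) (.e (nat_lit 164325) (nat_lit 230) .nil)))))) (.g (nat_lit 1) (.e (nat_lit 145338) (nat_lit 0) .nil) .nil)))) (.nd (nat_lit 9) 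
(.lf (nat_lit 490805) (.g (nat_lit 3546) (.e (nat_lit 163867) (nat_lit 2) (.e (nat_lit 196668) (nat_lit 14) (.e (nat_lit 73746) (nat_lit 3) (.e (nat_lit 516129) (nat_lit 3) (.e (nat_lit 221215) (nat_lit 23) (.e (nat_lit 204830) (nat_lit 18) (.e (nat_lit 57924) (nat_lit 282) .nil))))))) (.g (nat_lit 1) (.e (nat_lit 144744) (nat_lit 0) .nil) .nil))) 
(.lf (nat_lit 491317) (.g (nat_lit 3836) (.e (nat_lit 163869) (nat_lit 2) (.e (nat_lit 196656) (nat_lit 11) (.e (nat_lit 16433) (nat_lit 9) (.e (nat_lit 426568) (nat_lit 34) (.e (nat_lit 393252) (nat_lit 18) (.e (nat_lit 164332) (nat_lit 230) .nil)))))) (.g (nat_lit 1) (.e (nat_lit 145970) (nat_lit 0) .nil) .nil))))) (.nd (nat_lit 8) (.nd (nat_lit 9) 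
(.lf (nat_lit 490677) (.g (nat_lit 1586) (.e (nat_lit 163866) (nat_lit 2) (.e (nat_lit 196681) (nat_lit 17) (.e (nat_lit 131105) (nat_lit 9) (.e (nat_lit 336454) (nat_lit 34) (.e (nat_lit 483362) (nat_lit 18) (.e (nat_lit 57927) (nat_lit 282) .nil)))))) (.g (nat_lit 1) (.e (nat_lit 144482) (nat_lit 0) .nil) .nil))) 
(.lf (nat_lit 491189) (.g (nat_lit 2611) (.e (nat_lit 163868) (nat_lit 2) (.e (nat_lit 196668) (nat_lit 14) (.e (nat_lit 73747) (nat_lit 3) (.e (nat_lit 516130) (nat_lit 3) (.e (nat_lit 221215) (nat_lit 23) (.e (nat_lit 204830) (nat_lit 18) (.e (nat_lit 57928) (nat_lit 282) .nil))))))) (.g (nat_lit 1) (.e (nat_lit 145564) (nat_lit 0) .nil) .nil)))) (.nd (nat_lit 9) 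
(.lf (nat_lit 490933) (.g (nat_lit 4990) (.e (nat_lit 163867) (nat_lit 2) (.e (nat_lit 196670) (nat_lit 14) (.e (nat_lit 73746) (nat_lit 3) (.e (nat_lit 516129) (nat_lit 3) (.e (nat_lit 221215) (nat_lit 23) (.e (nat_lit 204831) (nat_lit 18) (.e (nat_lit 57931) (nat_lit 282) .nil))))))) (.g (nat_lit 1) (.e (nat_lit 144983) (nat_lit 0) .nil) .nil))) 
(.lf (nat_lit 491445) (.g (nat_lit 3138) (.e (nat_lit 163869) (nat_lit 2) (.e (nat_lit 196666) (nat_lit 13) (.e (nat_lit 65610) (nat_lit 10) (.e (nat_lit 344117) (nat_lit 21) (.e (nat_lit 516151) (nat_lit 9) (.e (nat_lit 426018) (nat_lit 0) (.e (nat_lit 2412) (nat_lit 157) (.e (nat_lit 4847) (nat_lit 285) .nil)))))))) (.g (nat_lit 1) (.e (nat_lit 146185) (nat_lit 0) .nil) .nil)))))) 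
(.nd (nat_lit 7) (.nd (nat_lit 8) (.nd (nat_lit 9) 
(.lf (nat_lit 490613) (.g (nat_lit 2590) (.e (nat_lit 163866) (nat_lit 2) (.e (nat_lit 196666) (nat_lit 13) (.e (nat_lit 65571) (nat_lit 3) (.e (nat_lit 98342) (nat_lit 20) (.e (nat_lit 221214) (nat_lit 23) .nil))))) (.g (nat_lit 0) (.e (nat_lit 144385) (nat_lit 0) .nil) .nil))) 
(.lf (nat_lit 491125) (.g (nat_lit 4072) (.e (nat_lit 163868) (nat_lit 2) (.e (nat_lit 196668) (nat_lit 14) (.e (nat_lit 73746) (nat_lit 3) (.e (nat_lit 516129) (nat_lit 3) (.e (nat_lit 221214) (nat_lit 23) (.e (nat_lit 204830) (nat_lit 18) (.e (nat_lit 57928) (nat_lit 282) .nil))))))) (.g (nat_lit 1) (.e (nat_lit 145444) (nat_lit 0) .nil) .nil)))) (.nd (nat_lit 9) 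
(.lf (nat_lit 490869) (.g (nat_lit 4130) (.e (nat_lit 163867) (nat_lit 2) (.e (nat_lit 196668) (nat_lit 14) (.e (nat_lit 73747) (nat_lit 3) (.e (nat_lit 516131) (nat_lit 3) (.e (nat_lit 221215) (nat_lit 23) (.e (nat_lit 204830) (nat_lit 18) (.e (nat_lit 57924) (nat_lit 282) .nil))))))) (.g (nat_lit 1) (.e (nat_lit 144843) (nat_lit 0) .nil) .nil))) 
(.lf (nat_lit 491381) (.g (nat_lit 4285) (.e (nat_lit 163869) (nat_lit 2) (.e (nat_lit 196666) (nat_lit 13) (.e (nat_lit 65571) (nat_lit 3) (.e (nat_lit 98341) (nat_lit 20) (.e (nat_lit 221214) (nat_lit 23) (.e (nat_lit 204831) (nat_lit 18) (.e (nat_lit 57931) (nat_lit 282) .nil))))))) (.g (nat_lit 1) (.e (nat_lit 146052) (nat_lit 0) .nil) .nil))))) (.nd (nat_lit 8) (.nd (nat_lit 9) 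
(.lf (nat_lit 490741) (.g (nat_lit 3162) (.e (nat_lit 163867) (nat_lit 2) (.e (nat_lit 196663) (nat_lit 13) (.e (nat_lit 65569) (nat_lit 3) (.e (nat_lit 98342) (nat_lit 20) (.e (nat_lit 221214) (nat_lit 23) (.e (nat_lit 204829) (nat_lit 18) (.e (nat_lit 57931) (nat_lit 282) .nil))))))) (.g (nat_lit 1) (.e (nat_lit 144652) (nat_lit 0) .nil) .nil))) 
(.lf (nat_lit 491253) (.g (nat_lit 2604) (.e (nat_lit 163868) (nat_lit 2) (.e (nat_lit 196670) (nat_lit 14) (.e (nat_lit 73746) (nat_lit 3) (.e (nat_lit 516131) (nat_lit 3) (.e (nat_lit 221215) (nat_lit 23) (.e (nat_lit 204828) (nat_lit 18) (.e (nat_lit 57928) (nat_lit 282) .nil))))))) (.g (nat_lit 1) (.e (nat_lit 145688) (nat_lit 0) .nil) .nil)))) (.nd (nat_lit 9) 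
(.lf (nat_lit 490997) (.g (nat_lit 417) (.e (nat_lit 163867) (nat_lit 2) (.e (nat_lit 196674) (nat_lit 15) (.e (nat_lit 81925) (nat_lit 11) .nil))) (.g (nat_lit 0) (.e (nat_lit 145171) (nat_lit 0) .nil) .nil))) 
(.lf (nat_lit 491509) (.g (nat_lit 3339) (.e (nat_lit 163869) (nat_lit 2) (.e (nat_lit 196666) (nat_lit 13) (.e (nat_lit 65610) (nat_lit 10) (.e (nat_lit 344117) (nat_lit 21) (.e (nat_lit 516159) (nat_lit 10) (.e (nat_lit 434199) (nat_lit 18) (.e (nat_lit 4848) (nat_lit 285) .nil))))))) (.g (nat_lit 1) (.e (nat_lit 146263) (nat_lit 0) .nil) .nil))))))))) 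
(.nd (nat_lit 4) (.nd (nat_lit 5) (.nd (nat_lit 6) (.nd (nat_lit 7) (.nd (nat_lit 8) 
(.nd (nat_lit 9) 
(.lf (nat_lit 490509) (.g (nat_lit 2221) (.e (nat_lit 163864) (nat_lit 1) (.e (nat_lit 164332) (nat_lit 230) (.e (nat_lit 163902) (nat_lit 12) (.e (nat_lit 426438) (nat_lit 18) (.e (nat_lit 98373) (nat_lit 29) (.e (nat_lit 458496) (nat_lit 0) (.e (nat_lit 6840) (nat_lit 369) .nil))))))) (.g (nat_lit 1) (.e (nat_lit 144155) (nat_lit 0) .nil) .nil))) 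
(.lf (nat_lit 491021) (.g (nat_lit 664) (.e (nat_lit 163868) (nat_lit 2) (.e (nat_lit 196624) (nat_lit 9) (.e (nat_lit 481) (nat_lit 37) .nil))) (.g (nat_lit 0) (.e (nat_lit 145252) (nat_lit 0) .nil) .nil)))) (.nd (nat_lit 9) 
(.lf (nat_lit 490765) (.g (nat_lit 4327) (.e (nat_lit 163867) (nat_lit 2) (.e (nat_lit 196663) (nat_lit 13) (.e (nat_lit 65571) (nat_lit 3) (.e (nat_lit 98342) (nat_lit 20) (.e (nat_lit 221214) (nat_lit 23) (.e (nat_lit 204831) (nat_lit 18) (.e (nat_lit 57931) (nat_lit 282) .nil))))))) (.g (nat_lit 1) (.e (nat_lit 144679) (nat_lit 0) .nil) .nil))) 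
(.lf (nat_lit 491277) (.g (nat_lit 489) (.e (nat_lit 163868) (nat_lit 2) (.e (nat_lit 196674) (nat_lit 15) (.e (nat_lit 89856) (nat_lit 18) .nil))) (.g (nat_lit 0) (.e (nat_lit 145884) (nat_lit 0) .nil) .nil))))) (.nd (nat_lit 8) (.nd (nat_lit 9) 
(.lf (nat_lit 490637) (.g (nat_lit 2140) (.e (nat_lit 163866) (nat_lit 2) (.e (nat_lit 196668) (nat_lit 14) (.e (nat_lit 73746) (nat_lit 3) (.e (nat_lit 516131) (nat_lit 3) (.e (nat_lit 221215) (nat_lit 23) (.e (nat_lit 204831) (nat_lit 18) (.e (nat_lit 57931) (nat_lit 282) .nil))))))) (.g (nat_lit 1) (.e (nat_lit 144414) (nat_lit 0) .nil) .nil))) 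
(.lf (nat_lit 491149) (.g (nat_lit 1245) (.e (nat_lit 163868) (nat_lit 2) (.e (nat_lit 196668) (nat_lit 14) (.e (nat_lit 73747) (nat_lit 3) (.e (nat_lit 516124) (nat_lit 2) .nil)))) (.g (nat_lit 0) (.e (nat_lit 145484) (nat_lit 0) .nil) .nil)))) (.nd (nat_lit 9) 
(.lf (nat_lit 490893) (.g (nat_lit 1324) (.e (nat_lit 163867) (nat_lit 2) (.e (nat_lit 196670) (nat_lit 14) (.e (nat_lit 73746) (nat_lit 3) (.e (nat_lit 516126) (nat_lit 2) .nil)))) (.g (nat_lit 0) (.e (nat_lit 144916) (nat_lit 0) .nil) .nil))) 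
(.lf (nat_lit 491405) (.g (nat_lit 1894) (.e (nat_lit 163869) (nat_lit 2) (.e (nat_lit 196666) (nat_lit 13) (.e (nat_lit 65571) (nat_lit 3) (.e (nat_lit 98342) (nat_lit 20) (.e (nat_lit 221215) (nat_lit 23) .nil))))) (.g (nat_lit 0) (.e (nat_lit 146080) (nat_lit 0) .nil) .nil)))))) (.nd (nat_lit 7) (.nd (nat_lit 8) (.nd (nat_lit 9) 
(.lf (nat_lit 490573) (.g (nat_lit 1937) (.e (nat_lit 163866) (nat_lit 2) (.e (nat_lit 196654) (nat_lit 11) (.e (nat_lit 16466) (nat_lit 13) (.e (nat_lit 483341) (nat_lit 9) (.e (nat_lit 426099) (nat_lit 1) .nil))))) (.g (nat_lit 0) (.e (nat_lit 144339) (nat_lit 0) .nil) .nil))) 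
(.lf (nat_lit 491085) (.g (nat_lit 1894) (.e (nat_lit 163868) (nat_lit 2) (.e (nat_lit 196663) (nat_lit 13) (.e (nat_lit 65569) (nat_lit 3) (.e (nat_lit 98342) (nat_lit 20) (.e (nat_lit 221215) (nat_lit 23) (.e (nat_lit 204828) (nat_lit 18) (.e (nat_lit 57927) (nat_lit 282) .nil))))))) (.g (nat_lit 1) (.e (nat_lit 145374) (nat_lit 0) .nil) .nil)))) (.nd (nat_lit 9) 
(.lf (nat_lit 490829) (.g (nat_lit 2823) (.e (nat_lit 163867) (nat_lit 2) (.e (nat_lit 196668) (nat_lit 14) (.e (nat_lit 73747) (nat_lit 3) (.e (nat_lit 516129) (nat_lit 3) (.e (nat_lit 221213) (nat_lit 23) (.e (nat_lit 204830) (nat_lit 18) (.e (nat_lit 57926) (nat_lit 282) .nil))))))) (.g (nat_lit 1) (.e (nat_lit 144789) (nat_lit 0) .nil) .nil))) 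
(.lf (nat_lit 491341) (.g (nat_lit 2383) (.e (nat_lit 163869) (nat_lit 2) (.e (nat_lit 196663) (nat_lit 13) (.e (nat_lit 65571) (nat_lit 3) (.e (nat_lit 98342) (nat_lit 20) (.e (nat_lit 221214) (nat_lit 23) (.e (nat_lit 204829) (nat_lit 18) (.e (nat_lit 57926) (nat_lit 282) .nil))))))) (.g (nat_lit 1) (.e (nat_lit 146000) (nat_lit 0) .nil) .nil))))) (.nd (nat_lit 8) (.nd (nat_lit 9) 
(.lf (nat_lit 490701) (.g (nat_lit 656) (.e (nat_lit 163867) (nat_lit 2) (.e (nat_lit 196624) (nat_lit 9) (.e (nat_lit 416) (nat_lit 32) .nil))) (.g (nat_lit 0) (.e (nat_lit 144545) (nat_lit 0) .nil) .nil))) 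
(.lf (nat_lit 491213) (.g (nat_lit 3790) (.e (nat_lit 163868) (nat_lit 2) (.e (nat_lit 196668) (nat_lit 14) (.e (nat_lit 73753) (nat_lit 8) (.e (nat_lit 557103) (nat_lit 14) (.e (nat_lit 180243) (nat_lit 5) (.e (nat_lit 532503) (nat_lit 1) (.e (nat_lit 65280) (nat_lit 168) .nil))))))) (.g (nat_lit 1) (.e (nat_lit 145645) (nat_lit 0) .nil) .nil)))) (.nd (nat_lit 9) 
(.lf (nat_lit 490957) (.g (nat_lit 3732) (.e (nat_lit 163867) (nat_lit 2) (.e (nat_lit 196670) (nat_lit 14) (.e (nat_lit 73746) (nat_lit 3) (.e (nat_lit 516131) (nat_lit 3) (.e (nat_lit 221215) (nat_lit 23) (.e (nat_lit 204830) (nat_lit 18) (.e (nat_lit 57925) (nat_lit 282) .nil))))))) (.g (nat_lit 1) (.e (nat_lit 145010) (nat_lit 0) .nil) .nil))) 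
(.lf (nat_lit 491469) (.g (nat_lit 3202) (.e (nat_lit 163869) (nat_lit 2) (.e (nat_lit 196666) (nat_lit 13) (.e (nat_lit 65610) (nat_lit 10) (.e (nat_lit 344117) (nat_lit 21) (.e (nat_lit 516151) (nat_lit 9) (.e (nat_lit 426038) (nat_lit 0) (.e (nat_lit 2449) (nat_lit 157) (.e (nat_lit 7936) (nat_lit 285) .nil)))))))) (.g (nat_lit 1) (.e (nat_lit 146209) (nat_lit 0) .nil) .nil))))))) 
(.nd (nat_lit 6) (.nd (nat_lit 7) (.nd (nat_lit 8) (.nd (nat_lit 9) 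
(.lf (nat_lit 490541) (.g (nat_lit 944) (.e (nat_lit 163865) (nat_lit 2) (.e (nat_lit 196655) (nat_lit 11) (.e (nat_lit 16465) (nat_lit 13) (.e (nat_lit 483341) (nat_lit 9) .nil)))) (.g (nat_lit 0) (.e (nat_lit 144291) (nat_lit 0) .nil) .nil))) 
(.lf (nat_lit 491053) (.g (nat_lit 1046) (.e (nat_lit 163868) (nat_lit 2) (.e (nat_lit 196655) (nat_lit 11) (.e (nat_lit 16435) (nat_lit 9) (.e (nat_lit 426493) (nat_lit 27) (.e (nat_lit 336387) (nat_lit 27) .nil))))) (.g (nat_lit 0) (.e (nat_lit 145311) (nat_lit 0) .nil) .nil)))) (.nd (nat_lit 9) 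
(.lf (nat_lit 490797) (.g (nat_lit 2573) (.e (nat_lit 163867) (nat_lit 2) (.e (nat_lit 196668) (nat_lit 14) (.e (nat_lit 73746) (nat_lit 3) (.e (nat_lit 516129) (nat_lit 3) (.e (nat_lit 221214) (nat_lit 23) (.e (nat_lit 204831) (nat_lit 18) (.e (nat_lit 57924) (nat_lit 282) .nil))))))) (.g (nat_lit 1) (.e (nat_lit 144736) (nat_lit 0) .nil) .nil))) 
(.lf (nat_lit 491309) (.g (nat_lit 3098) (.e (nat_lit 163869) (nat_lit 2) (.e (nat_lit 196655) (nat_lit 11) (.e (nat_lit 16433) (nat_lit 9) (.e (nat_lit 426566) (nat_lit 34) (.e (nat_lit 393254) (nat_lit 18) (.e (nat_lit 164332) (nat_lit 230) .nil)))))) (.g (nat_lit 1) (.e (nat_lit 145956) (nat_lit 0) .nil) .nil))))) (.nd (nat_lit 8) (.nd (nat_lit 9) 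
(.lf (nat_lit 490669) (.g (nat_lit 936) (.e (nat_lit 163866) (nat_lit 2) (.e (nat_lit 196672) (nat_lit 15) (.e (nat_lit 81927) (nat_lit 11) (.e (nat_lit 426500) (nat_lit 27) .nil)))) (.g (nat_lit 0) (.e (nat_lit 144461) (nat_lit 0) .nil) .nil))) 
(.lf (nat_lit 491181) (.g (nat_lit 5104) (.e (nat_lit 163868) (nat_lit 2) (.e (nat_lit 196668) (nat_lit 14) (.e (nat_lit 73747) (nat_lit 3) (.e (nat_lit 516129) (nat_lit 3) (.e (nat_lit 221215) (nat_lit 23) (.e (nat_lit 204830) (nat_lit 18) (.e (nat_lit 57926) (nat_lit 282) .nil))))))) (.g (nat_lit 1) (.e (nat_lit 145555) (nat_lit 0) .nil) .nil)))) (.nd (nat_lit 9) 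
(.lf (nat_lit 490925) (.g (nat_lit 4949) (.e (nat_lit 163867) (nat_lit 2) (.e (nat_lit 196670) (nat_lit 14) (.e (nat_lit 73746) (nat_lit 3) (.e (nat_lit 516129) (nat_lit 3) (.e (nat_lit 221215) (nat_lit 23) (.e (nat_lit 204829) (nat_lit 18) (.e (nat_lit 57931) (nat_lit 282) .nil))))))) (.g (nat_lit 1) (.e (nat_lit 144975) (nat_lit 0) .nil) .nil))) 
(.lf (nat_lit 491437) (.g (nat_lit 3113) (.e (nat_lit 163869) (nat_lit 2) (.e (nat_lit 196666) (nat_lit 13) (.e (nat_lit 65610) (nat_lit 10) (.e (nat_lit 344117) (nat_lit 21) (.e (nat_lit 516151) (nat_lit 9) (.e (nat_lit 426003) (nat_lit 0) (.e (nat_lit 2400) (nat_lit 157) (.e (nat_lit 4847) (nat_lit 285) .nil)))))))) (.g (nat_lit 1) (.e (nat_lit 146177) (nat_lit 0) .nil) .nil)))))) 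
(.nd (nat_lit 7) (.nd (nat_lit 8) (.nd (nat_lit 9) 
(.lf (nat_lit 490605) (.g (nat_lit 3325) (.e (nat_lit 163866) (nat_lit 2) (.e (nat_lit 196666) (nat_lit 13) (.e (nat_lit 65571) (nat_lit 3) (.e (nat_lit 98341) (nat_lit 20) (.e (nat_lit 221214) (nat_lit 23) (.e (nat_lit 204829) (nat_lit 18) (.e (nat_lit 57927) (nat_lit 282) .nil))))))) (.g (nat_lit 1) (.e (nat_lit 144376) (nat_lit 0) .nil) .nil))) 
(.lf (nat_lit 491117) (.g (nat_lit 2418) (.e (nat_lit 163868) (nat_lit 2) (.e (nat_lit 196668) (nat_lit 14) (.e (nat_lit 73746) (nat_lit 3) (.e (nat_lit 516129) (nat_lit 3) (.e (nat_lit 221213) (nat_lit 23) (.e (nat_lit 204830) (nat_lit 18) (.e (nat_lit 57928) (nat_lit 282) .nil))))))) (.g (nat_lit 1) (.e (nat_lit 145436) (nat_lit 0) .nil) .nil)))) (.nd (nat_lit 9) 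
(.lf (nat_lit 490861) (.g (nat_lit 2662) (.e (nat_lit 163867) (nat_lit 2) (.e (nat_lit 196668) (nat_lit 14) (.e (nat_lit 73747) (nat_lit 3) (.e (nat_lit 516131) (nat_lit 3) (.e (nat_lit 221213) (nat_lit 23) (.e (nat_lit 204829) (nat_lit 18) (.e (nat_lit 57927) (nat_lit 282) .nil))))))) (.g (nat_lit 1) (.e (nat_lit 144831) (nat_lit 0) .nil) .nil))) 
(.lf (nat_lit 491373) (.g (nat_lit 2569) (.e (nat_lit 163869) (nat_lit 2) (.e (nat_lit 196666) (nat_lit 13) (.e (nat_lit 65571) (nat_lit 3) (.e (nat_lit 98341) (nat_lit 20) (.e (nat_lit 221213) (nat_lit 23) (.e (nat_lit 204829) (nat_lit 18) (.e (nat_lit 57926) (nat_lit 282) .nil))))))) (.g (nat_lit 1) (.e (nat_lit 146044) (nat_lit 0) .nil) .nil))))) (.nd (nat_lit 8) (.nd (nat_lit 9) 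
(.lf (nat_lit 490733) (.g (nat_lit 3051) (.e (nat_lit 163867) (nat_lit 2) (.e (nat_lit 196656) (nat_lit 11) (.e (nat_lit 16463) (nat_lit 13) (.e (nat_lit 483341) (nat_lit 9) (.e (nat_lit 426108) (nat_lit 1) (.e (nat_lit 164330) (nat_lit 230) .nil)))))) (.g (nat_lit 1) (.e (nat_lit 144635) (nat_lit 0) .nil) .nil))) 
(.lf (nat_lit 491245) (.g (nat_lit 4066) (.e (nat_lit 163868) (nat_lit 2) (.e (nat_lit 196670) (nat_lit 14) (.e (nat_lit 73746) (nat_lit 3) (.e (nat_lit 516129) (nat_lit 3) (.e (nat_lit 221215) (nat_lit 23) (.e (nat_lit 204829) (nat_lit 18) (.e (nat_lit 57926) (nat_lit 282) .nil))))))) (.g (nat_lit 1) (.e (nat_lit 145680) (nat_lit 0) .nil) .nil)))) (.nd (nat_lit 9) 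
(.lf (nat_lit 490989) (.g (nat_lit 3243) (.e (nat_lit 163867) (nat_lit 2) (.e (nat_lit 196672) (nat_lit 15) (.e (nat_lit 81927) (nat_lit 11) (.e (nat_lit 426500) (nat_lit 27) (.e (nat_lit 335986) (nat_lit 1) (.e (nat_lit 57926) (nat_lit 282) .nil)))))) (.g (nat_lit 1) (.e (nat_lit 145071) (nat_lit 0) .nil) .nil))) 
(.lf (nat_lit 491501) (.g (nat_lit 4118) (.e (nat_lit 163869) (nat_lit 2) (.e (nat_lit 196666) (nat_lit 13) (.e (nat_lit 65610) (nat_lit 10) (.e (nat_lit 344117) (nat_lit 21) (.e (nat_lit 516151) (nat_lit 9) (.e (nat_lit 426097) (nat_lit 1) (.e (nat_lit 171776) (nat_lit 219) .nil))))))) (.g (nat_lit 1) (.e (nat_lit 146241) (nat_lit 0) .nil) .nil)))))))) 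
(.nd (nat_lit 5) (.nd (nat_lit 6) (.nd (nat_lit 7) (.nd (nat_lit 8) (.nd (nat_lit 9) 
(.lf (nat_lit 490525) (.g (nat_lit 2267) (.e (nat_lit 163864) (nat_lit 1) (.e (nat_lit 164332) (nat_lit 230) (.e (nat_lit 163905) (nat_lit 12) (.e (nat_lit 426472) (nat_lit 25) (.e (nat_lit 319533) (nat_lit 16) (.e (nat_lit 286753) (nat_lit 10) (.e (nat_lit 344097) (nat_lit 18) (.e (nat_lit 7287) (nat_lit 386) .nil)))))))) (.g (nat_lit 1) (.e (nat_lit 144185) (nat_lit 0) .nil) .nil))) 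
(.lf (nat_lit 491037) (.g (nat_lit 1513) (.e (nat_lit 163868) (nat_lit 2) (.e (nat_lit 196654) (nat_lit 11) (.e (nat_lit 16436) (nat_lit 9) (.e (nat_lit 426491) (nat_lit 27) .nil)))) (.g (nat_lit 0) (.e (nat_lit 145282) (nat_lit 0) .nil) .nil)))) (.nd (nat_lit 9) 
(.lf (nat_lit 490781) (.g (nat_lit 3180) (.e (nat_lit 163867) (nat_lit 2) (.e (nat_lit 196665) (nat_lit 13) (.e (nat_lit 65626) (nat_lit 13) (.e (nat_lit 393225) (nat_lit 9) (.e (nat_lit 335995) (nat_lit 1) (.e (nat_lit 57924) (nat_lit 282) .nil)))))) (.g (nat_lit 1) (.e (nat_lit 144698) (nat_lit 0) .nil) .nil))) 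
(.lf (nat_lit 491293) (.g (nat_lit 1321) (.e (nat_lit 163869) (nat_lit 2) (.e (nat_lit 196654) (nat_lit 11) (.e (nat_lit 16416) (nat_lit 3) (.e (nat_lit 204837) (nat_lit 20) .nil)))) (.g (nat_lit 0) (.e (nat_lit 145934) (nat_lit 0) .nil) .nil))))) (.nd (nat_lit 8) (.nd (nat_lit 9) 
(.lf (nat_lit 490653) (.g (nat_lit 1905) (.e (nat_lit 163866) (nat_lit 2) (.e (nat_lit 196670) (nat_lit 14) (.e (nat_lit 73746) (nat_lit 3) (.e (nat_lit 516124) (nat_lit 2) (.e (nat_lit 213033) (nat_lit 12) (.e (nat_lit 163962) (nat_lit 25) (.e (nat_lit 532500) (nat_lit 1) (.e (nat_lit 57927) (nat_lit 282) .nil)))))))) (.g (nat_lit 1) (.e (nat_lit 144445) (nat_lit 0) .nil) .nil))) 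
(.lf (nat_lit 491165) (.g (nat_lit 4559) (.e (nat_lit 163868) (nat_lit 2) (.e (nat_lit 196668) (nat_lit 14) (.e (nat_lit 73747) (nat_lit 3) (.e (nat_lit 516129) (nat_lit 3) (.e (nat_lit 221214) (nat_lit 23) (.e (nat_lit 204829) (nat_lit 18) (.e (nat_lit 57928) (nat_lit 282) .nil))))))) (.g (nat_lit 1) (.e (nat_lit 145535) (nat_lit 0) .nil) .nil)))) (.nd (nat_lit 9) 
(.lf (nat_lit 490909) (.g (nat_lit 3627) (.e (nat_lit 163867) (nat_lit 2) (.e (nat_lit 196670) (nat_lit 14) (.e (nat_lit 73746) (nat_lit 3) (.e (nat_lit 516129) (nat_lit 3) (.e (nat_lit 221214) (nat_lit 23) (.e (nat_lit 204829) (nat_lit 18) (.e (nat_lit 57926) (nat_lit 282) .nil))))))) (.g (nat_lit 1) (.e (nat_lit 144959) (nat_lit 0) .nil) .nil))) 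
(.lf (nat_lit 491421) (.g (nat_lit 3067) (.e (nat_lit 163869) (nat_lit 2) (.e (nat_lit 196666) (nat_lit 13) (.e (nat_lit 65610) (nat_lit 10) (.e (nat_lit 344117) (nat_lit 21) (.e (nat_lit 516144) (nat_lit 9) .nil))))) (.g (nat_lit 0) (.e (nat_lit 146114) (nat_lit 0) .nil) .nil)))))) (.nd (nat_lit 7) (.nd (nat_lit 8) (.nd (nat_lit 9) 
(.lf (nat_lit 490589) (.g (nat_lit 2861) (.e (nat_lit 163866) (nat_lit 2) (.e (nat_lit 196666) (nat_lit 13) (.e (nat_lit 65569) (nat_lit 3) (.e (nat_lit 98341) (nat_lit 20) (.e (nat_lit 221215) (nat_lit 23) (.e (nat_lit 204830) (nat_lit 18) (.e (nat_lit 57927) (nat_lit 282) .nil))))))) (.g (nat_lit 1) (.e (nat_lit 144358) (nat_lit 0) .nil) .nil))) 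
(.lf (nat_lit 491101) (.g (nat_lit 3274) (.e (nat_lit 163868) (nat_lit 2) (.e (nat_lit 196663) (nat_lit 13) (.e (nat_lit 65571) (nat_lit 3) (.e (nat_lit 98342) (nat_lit 20) (.e (nat_lit 221215) (nat_lit 23) (.e (nat_lit 204830) (nat_lit 18) (.e (nat_lit 57928) (nat_lit 282) .nil))))))) (.g (nat_lit 1) (.e (nat_lit 145392) (nat_lit 0) .nil) .nil)))) (.nd (nat_lit 9) 
(.lf (nat_lit 490845) (.g (nat_lit 4835) (.e (nat_lit 163867) (nat_lit 2) (.e (nat_lit 196668) (nat_lit 14) (.e (nat_lit 73747) (nat_lit 3) (.e (nat_lit 516129) (nat_lit 3) (.e (nat_lit 221215) (nat_lit 23) (.e (nat_lit 204829) (nat_lit 18) (.e (nat_lit 57931) (nat_lit 282) .nil))))))) (.g (nat_lit 1) (.e (nat_lit 144809) (nat_lit 0) .nil) .nil))) 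
(.lf (nat_lit 491357) (.g (nat_lit 893) (.e (nat_lit 163869) (nat_lit 2) (.e (nat_lit 196666) (nat_lit 13) (.e (nat_lit 65569) (nat_lit 3) (.e (nat_lit 98342) (nat_lit 20) .nil)))) (.g (nat_lit 0) (.e (nat_lit 146018) (nat_lit 0) .nil) .nil))))) (.nd (nat_lit 8) (.nd (nat_lit 9) 
(.lf (nat_lit 490717) (.g (nat_lit 913) (.e (nat_lit 163867) (nat_lit 2) (.e (nat_lit 196656) (nat_lit 11) (.e (nat_lit 16384) (nat_lit 0) .nil))) (.g (nat_lit 0) (.e (nat_lit 144603) (nat_lit 0) .nil) .nil))) 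
(.lf (nat_lit 491229) (.g (nat_lit 2550) (.e (nat_lit 163868) (nat_lit 2) (.e (nat_lit 196670) (nat_lit 14) (.e (nat_lit 73746) (nat_lit 3) (.e (nat_lit 516127) (nat_lit 2) (.e (nat_lit 213033) (nat_lit 12) (.e (nat_lit 163962) (nat_lit 25) (.e (nat_lit 532500) (nat_lit 1) (.e (nat_lit 57926) (nat_lit 282) .nil)))))))) (.g (nat_lit 1) (.e (nat_lit 145664) (nat_lit 0) .nil) .nil)))) 
(.nd (nat_lit 9) 
(.lf (nat_lit 490973) (.g (nat_lit 2156) (.e (nat_lit 163867) (nat_lit 2) (.e (nat_lit 196670) (nat_lit 14) (.e (nat_lit 73753) (nat_lit 8) (.e (nat_lit 557103) (nat_lit 14) (.e (nat_lit 180250) (nat_lit 10) .nil))))) (.g (nat_lit 0) (.e (nat_lit 145048) (nat_lit 0) .nil) .nil))) 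
(.lf (nat_lit 491485) (.g (nat_lit 2658) (.e (nat_lit 163869) (nat_lit 2) (.e (nat_lit 196666) (nat_lit 13) (.e (nat_lit 65610) (nat_lit 10) (.e (nat_lit 344117) (nat_lit 21) (.e (nat_lit 516151) (nat_lit 9) (.e (nat_lit 426042) (nat_lit 0) (.e (nat_lit 2438) (nat_lit 157) (.e (nat_lit 7936) (nat_lit 285) .nil)))))))) (.g (nat_lit 1) (.e (nat_lit 146225) (nat_lit 0) .nil) .nil))))))) 
(.nd (nat_lit 6) (.nd (nat_lit 7) (.nd (nat_lit 8) (.nd (nat_lit 9) 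
(.lf (nat_lit 490557) (.g (nat_lit 3227) (.e (nat_lit 163866) (nat_lit 2) (.e (nat_lit 196654) (nat_lit 11) (.e (nat_lit 16435) (nat_lit 9) (.e (nat_lit 426566) (nat_lit 34) (.e (nat_lit 393253) (nat_lit 18) (.e (nat_lit 164330) (nat_lit 230) .nil)))))) (.g (nat_lit 1) (.e (nat_lit 144315) (nat_lit 0) .nil) .nil))) 
(.lf (nat_lit 491069) (.g (nat_lit 3619) (.e (nat_lit 163868) (nat_lit 2) (.e (nat_lit 196656) (nat_lit 11) (.e (nat_lit 16463) (nat_lit 13) (.e (nat_lit 483341) (nat_lit 9) (.e (nat_lit 426098) (nat_lit 1) (.e (nat_lit 164325) (nat_lit 230) .nil)))))) (.g (nat_lit 1) (.e (nat_lit 145350) (nat_lit 0) .nil) .nil)))) (.nd (nat_lit 9) 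
(.lf (nat_lit 490813) (.g (nat_lit 3761) (.e (nat_lit 163867) (nat_lit 2) (.e (nat_lit 196668) (nat_lit 14) (.e (nat_lit 73746) (nat_lit 3) (.e (nat_lit 516131) (nat_lit 3) (.e (nat_lit 221214) (nat_lit 23) (.e (nat_lit 204831) (nat_lit 18) (.e (nat_lit 57931) (nat_lit 282) .nil))))))) (.g (nat_lit 1) (.e (nat_lit 144755) (nat_lit 0) .nil) .nil))) 
(.lf (nat_lit 491325) (.g (nat_lit 2587) (.e (nat_lit 163869) (nat_lit 2) (.e (nat_lit 196656) (nat_lit 11) (.e (nat_lit 16465) (nat_lit 13) (.e (nat_lit 483340) (nat_lit 9) (.e (nat_lit 426100) (nat_lit 1) .nil))))) (.g (nat_lit 0) (.e (nat_lit 145980) (nat_lit 0) .nil) .nil))))) (.nd (nat_lit 8) (.nd (nat_lit 9) 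
(.lf (nat_lit 490685) (.g (nat_lit 2782) (.e (nat_lit 163866) (nat_lit 2) (.e (nat_lit 196681) (nat_lit 17) (.e (nat_lit 131105) (nat_lit 9) (.e (nat_lit 336454) (nat_lit 34) (.e (nat_lit 483366) (nat_lit 18) (.e (nat_lit 57931) (nat_lit 282) .nil)))))) (.g (nat_lit 1) (.e (nat_lit 144490) (nat_lit 0) .nil) .nil))) 
(.lf (nat_lit 491197) (.g (nat_lit 3793) (.e (nat_lit 163868) (nat_lit 2) (.e (nat_lit 196668) (nat_lit 14) (.e (nat_lit 73747) (nat_lit 3) (.e (nat_lit 516131) (nat_lit 3) (.e (nat_lit 221214) (nat_lit 23) (.e (nat_lit 204830) (nat_lit 18) (.e (nat_lit 57925) (nat_lit 282) .nil))))))) (.g (nat_lit 1) (.e (nat_lit 145592) (nat_lit 0) .nil) .nil)))) (.nd (nat_lit 9) 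
(.lf (nat_lit 490941) (.g (nat_lit 3196) (.e (nat_lit 163867) (nat_lit 2) (.e (nat_lit 196670) (nat_lit 14) (.e (nat_lit 73746) (nat_lit 3) (.e (nat_lit 516131) (nat_lit 3) (.e (nat_lit 221214) (nat_lit 23) (.e (nat_lit 204829) (nat_lit 18) (.e (nat_lit 57927) (nat_lit 282) .nil))))))) (.g (nat_lit 1) (.e (nat_lit 144994) (nat_lit 0) .nil) .nil))) 
(.lf (nat_lit 491453) (.g (nat_lit 4143) (.e (nat_lit 163869) (nat_lit 2) (.e (nat_lit 196666) (nat_lit 13) (.e (nat_lit 65610) (nat_lit 10) (.e (nat_lit 344117) (nat_lit 21) (.e (nat_lit 516151) (nat_lit 9) (.e (nat_lit 426023) (nat_lit 0) (.e (nat_lit 2397) (nat_lit 157) (.e (nat_lit 4847) (nat_lit 285) .nil)))))))) (.g (nat_lit 1) (.e (nat_lit 146193) (nat_lit 0) .nil) .nil)))))) 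
(.nd (nat_lit 7) (.nd (nat_lit 8) (.nd (nat_lit 9) 
(.lf (nat_lit 490621) (.g (nat_lit 3216) (.e (nat_lit 163866) (nat_lit 2) (.e (nat_lit 196666) (nat_lit 13) (.e (nat_lit 65571) (nat_lit 3) (.e (nat_lit 98342) (nat_lit 20) (.e (nat_lit 221215) (nat_lit 23) (.e (nat_lit 204830) (nat_lit 18) (.e (nat_lit 57927) (nat_lit 282) .nil))))))) (.g (nat_lit 1) (.e (nat_lit 144393) (nat_lit 0) .nil) .nil))) 
(.lf (nat_lit 491133) (.g (nat_lit 3361) (.e (nat_lit 163868) (nat_lit 2) (.e (nat_lit 196668) (nat_lit 14) (.e (nat_lit 73746) (nat_lit 3) (.e (nat_lit 516129) (nat_lit 3) (.e (nat_lit 221215) (nat_lit 23) (.e (nat_lit 204830) (nat_lit 18) (.e (nat_lit 57925) (nat_lit 282) .nil))))))) (.g (nat_lit 1) (.e (nat_lit 145453) (nat_lit 0) .nil) .nil)))) (.nd (nat_lit 9) 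
(.lf (nat_lit 490877) (.g (nat_lit 3770) (.e (nat_lit 163867) (nat_lit 2) (.e (nat_lit 196668) (nat_lit 14) (.e (nat_lit 73753) (nat_lit 8) (.e (nat_lit 557103) (nat_lit 14) (.e (nat_lit 180243) (nat_lit 5) (.e (nat_lit 532503) (nat_lit 1) (.e (nat_lit 65280) (nat_lit 168) .nil))))))) (.g (nat_lit 1) (.e (nat_lit 144874) (nat_lit 0) .nil) .nil))) 
(.lf (nat_lit 491389) (.g (nat_lit 2046) (.e (nat_lit 163869) (nat_lit 2) (.e (nat_lit 196666) (nat_lit 13) (.e (nat_lit 65571) (nat_lit 3) (.e (nat_lit 98342) (nat_lit 20) (.e (nat_lit 221198) (nat_lit 20) .nil))))) (.g (nat_lit 0) (.e (nat_lit 146060) (nat_lit 0) .nil) .nil))))) (.nd (nat_lit 8) (.nd (nat_lit 9) 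
(.lf (nat_lit 490749) (.g (nat_lit 2432) (.e (nat_lit 163867) (nat_lit 2) (.e (nat_lit 196663) (nat_lit 13) (.e (nat_lit 65571) (nat_lit 3) (.e (nat_lit 98341) (nat_lit 20) (.e (nat_lit 221214) (nat_lit 23) (.e (nat_lit 204830) (nat_lit 18) (.e (nat_lit 57925) (nat_lit 282) .nil))))))) (.g (nat_lit 1) (.e (nat_lit 144661) (nat_lit 0) .nil) .nil))) 
(.lf (nat_lit 491261) (.g (nat_lit 2977) (.e (nat_lit 163868) (nat_lit 2) (.e (nat_lit 196670) (nat_lit 14) (.e (nat_lit 73753) (nat_lit 8) (.e (nat_lit 557103) (nat_lit 14) (.e (nat_lit 180243) (nat_lit 5) (.e (nat_lit 532503) (nat_lit 1) (.e (nat_lit 65280) (nat_lit 168) .nil))))))) (.g (nat_lit 1) (.e (nat_lit 145696) (nat_lit 0) .nil) .nil)))) (.nd (nat_lit 9) 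
(.lf (nat_lit 491005) (.g (nat_lit 3214) (.e (nat_lit 163867) (nat_lit 2) (.e (nat_lit 196681) (nat_lit 17) (.e (nat_lit 131105) (nat_lit 9) (.e (nat_lit 336454) (nat_lit 34) (.e (nat_lit 483363) (nat_lit 18) (.e (nat_lit 57931) (nat_lit 282) .nil)))))) (.g (nat_lit 1) (.e (nat_lit 145189) (nat_lit 0) .nil) .nil))) 
(.lf (nat_lit 491517) (.g (nat_lit 4113) (.e (nat_lit 163869) (nat_lit 2) (.e (nat_lit 196666) (nat_lit 13) (.e (nat_lit 65610) (nat_lit 10) (.e (nat_lit 344117) (nat_lit 21) (.e (nat_lit 516159) (nat_lit 10) (.e (nat_lit 434202) (nat_lit 18) (.e (nat_lit 7936) (nat_lit 285) .nil))))))) (.g (nat_lit 1) (.e (nat_lit 146271) (nat_lit 0) .nil) .nil))))))))))) 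
(.nd (nat_lit 2) (.nd (nat_lit 3) (.nd (nat_lit 4) (.nd (nat_lit 5) (.nd (nat_lit 6) 
(.nd (nat_lit 7) (.nd (nat_lit 8) (.nd (nat_lit 9) 
(.lf (nat_lit 490499) (.g (nat_lit 1740) (.e (nat_lit 163864) (nat_lit 1) (.e (nat_lit 164332) (nat_lit 230) (.e (nat_lit 163902) (nat_lit 12) (.e (nat_lit 426438) (nat_lit 18) (.e (nat_lit 98372) (nat_lit 29) .nil))))) (.g (nat_lit 0) (.e (nat_lit 144145) (nat_lit 0) .nil) .nil))) 
(.lf (nat_lit 491011) (.g (nat_lit 3389) (.e (nat_lit 163867) (nat_lit 2) (.e (nat_lit 196681) (nat_lit 17) (.e (nat_lit 131109) (nat_lit 9) (.e (nat_lit 336454) (nat_lit 34) (.e (nat_lit 483363) (nat_lit 18) (.e (nat_lit 57931) (nat_lit 282) .nil)))))) (.g (nat_lit 1) (.e (nat_lit 145198) (nat_lit 0) .nil) .nil)))) (.nd (nat_lit 9) 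
(.lf (nat_lit 490755) (.g (nat_lit 3553) (.e (nat_lit 163867) (nat_lit 2) (.e (nat_lit 196663) (nat_lit 13) (.e (nat_lit 65571) (nat_lit 3) (.e (nat_lit 98341) (nat_lit 20) (.e (nat_lit 221215) (nat_lit 23) (.e (nat_lit 204831) (nat_lit 18) (.e (nat_lit 57931) (nat_lit 282) .nil))))))) (.g (nat_lit 1) (.e (nat_lit 144667) (nat_lit 0) .nil) .nil))) 
(.lf (nat_lit 491267) (.g (nat_lit 1660) (.e (nat_lit 163868) (nat_lit 2) (.e (nat_lit 196672) (nat_lit 15) (.e (nat_lit 81925) (nat_lit 11) (.e (nat_lit 426500) (nat_lit 27) (.e (nat_lit 335986) (nat_lit 1) (.e (nat_lit 57924) (nat_lit 282) .nil)))))) (.g (nat_lit 1) (.e (nat_lit 145702) (nat_lit 0) .nil) .nil))))) (.nd (nat_lit 8) (.nd (nat_lit 9) 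
(.lf (nat_lit 490627) (.g (nat_lit 2418) (.e (nat_lit 163866) (nat_lit 2) (.e (nat_lit 196666) (nat_lit 13) (.e (nat_lit 65625) (nat_lit 13) (.e (nat_lit 393225) (nat_lit 9) (.e (nat_lit 335988) (nat_lit 1) (.e (nat_lit 57927) (nat_lit 282) .nil)))))) (.g (nat_lit 1) (.e (nat_lit 144404) (nat_lit 0) .nil) .nil))) 
(.lf (nat_lit 491139) (.g (nat_lit 2559) (.e (nat_lit 163868) (nat_lit 2) (.e (nat_lit 196668) (nat_lit 14) (.e (nat_lit 73746) (nat_lit 3) (.e (nat_lit 516131) (nat_lit 3) (.e (nat_lit 221214) (nat_lit 23) (.e (nat_lit 204830) (nat_lit 18) (.e (nat_lit 57925) (nat_lit 282) .nil))))))) (.g (nat_lit 1) (.e (nat_lit 145470) (nat_lit 0) .nil) .nil)))) (.nd (nat_lit 9) 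
(.lf (nat_lit 490883) (.g (nat_lit 2719) (.e (nat_lit 163867) (nat_lit 2) (.e (nat_lit 196668) (nat_lit 14) (.e (nat_lit 73753) (nat_lit 8) (.e (nat_lit 557104) (nat_lit 14) (.e (nat_lit 180252) (nat_lit 10) .nil))))) (.g (nat_lit 0) (.e (nat_lit 144880) (nat_lit 0) .nil) .nil))) 
(.lf (nat_lit 491395) (.g (nat_lit 2798) (.e (nat_lit 163869) (nat_lit 2) (.e (nat_lit 196666) (nat_lit 13) (.e (nat_lit 65571) (nat_lit 3) (.e (nat_lit 98342) (nat_lit 20) (.e (nat_lit 221213) (nat_lit 23) (.e (nat_lit 204831) (nat_lit 18) (.e (nat_lit 57931) (nat_lit 282) .nil))))))) (.g (nat_lit 1) (.e (nat_lit 146069) (nat_lit 0) .nil) .nil)))))) 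
(.nd (nat_lit 7) (.nd (nat_lit 8) (.nd (nat_lit 9) 
(.lf (nat_lit 490563) (.g (nat_lit 2182) (.e (nat_lit 163866) (nat_lit 2) (.e (nat_lit 196654) (nat_lit 11) (.e (nat_lit 16463) (nat_lit 13) (.e (nat_lit 483336) (nat_lit 9) .nil)))) (.g (nat_lit 0) (.e (nat_lit 144324) (nat_lit 0) .nil) .nil))) 
(.lf (nat_lit 491075) (.g (nat_lit 3086) (.e (nat_lit 163868) (nat_lit 2) (.e (nat_lit 196656) (nat_lit 11) (.e (nat_lit 16466) (nat_lit 13) (.e (nat_lit 483341) (nat_lit 9) (.e (nat_lit 426106) (nat_lit 1) (.e (nat_lit 164325) (nat_lit 230) .nil)))))) (.g (nat_lit 1) (.e (nat_lit 145356) (nat_lit 0) .nil) .nil)))) (.nd (nat_lit 9) 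
(.lf (nat_lit 490819) (.g (nat_lit 3075) (.e (nat_lit 163867) (nat_lit 2) (.e (nat_lit 196668) (nat_lit 14) (.e (nat_lit 73746) (nat_lit 3) (.e (nat_lit 516131) (nat_lit 3) (.e (nat_lit 221215) (nat_lit 23) (.e (nat_lit 204830) (nat_lit 18) (.e (nat_lit 57924) (nat_lit 282) .nil))))))) (.g (nat_lit 1) (.e (nat_lit 144761) (nat_lit 0) .nil) .nil))) 
(.lf (nat_lit 491331) (.g (nat_lit 2103) (.e (nat_lit 163869) (nat_lit 2) (.e (nat_lit 196656) (nat_lit 11) (.e (nat_lit 16473) (nat_lit 14) (.e (nat_lit 491584) (nat_lit 28) .nil)))) (.g (nat_lit 0) (.e (nat_lit 145988) (nat_lit 0) .nil) .nil))))) (.nd (nat_lit 8) (.nd (nat_lit 9) 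
(.lf (nat_lit 490691) (.g (nat_lit 2769) (.e (nat_lit 163866) (nat_lit 2) (.e (nat_lit 196681) (nat_lit 17) (.e (nat_lit 131109) (nat_lit 9) (.e (nat_lit 336454) (nat_lit 34) (.e (nat_lit 483364) (nat_lit 18) (.e (nat_lit 57926) (nat_lit 282) .nil)))))) (.g (nat_lit 1) (.e (nat_lit 144505) (nat_lit 0) .nil) .nil))) 
(.lf (nat_lit 491203) (.g (nat_lit 3242) (.e (nat_lit 163868) (nat_lit 2) (.e (nat_lit 196668) (nat_lit 14) (.e (nat_lit 73747) (nat_lit 3) (.e (nat_lit 516131) (nat_lit 3) (.e (nat_lit 221215) (nat_lit 23) (.e (nat_lit 204829) (nat_lit 18) (.e (nat_lit 57925) (nat_lit 282) .nil))))))) (.g (nat_lit 1) (.e (nat_lit 145599) (nat_lit 0) .nil) .nil)))) (.nd (nat_lit 9) 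
(.lf (nat_lit 490947) (.g (nat_lit 4446) (.e (nat_lit 163867) (nat_lit 2) (.e (nat_lit 196670) (nat_lit 14) (.e (nat_lit 73746) (nat_lit 3) (.e (nat_lit 516131) (nat_lit 3) (.e (nat_lit 221214) (nat_lit 23) (.e (nat_lit 204831) (nat_lit 18) (.e (nat_lit 57931) (nat_lit 282) .nil))))))) (.g (nat_lit 1) (.e (nat_lit 145000) (nat_lit 0) .nil) .nil))) 
(.lf (nat_lit 491459) (.g (nat_lit 3222) (.e (nat_lit 163869) (nat_lit 2) (.e (nat_lit 196666) (nat_lit 13) (.e (nat_lit 65610) (nat_lit 10) (.e (nat_lit 344117) (nat_lit 21) (.e (nat_lit 516151) (nat_lit 9) (.e (nat_lit 426034) (nat_lit 0) (.e (nat_lit 2424) (nat_lit 157) (.e (nat_lit 4848) (nat_lit 285) .nil)))))))) (.g (nat_lit 1) (.e (nat_lit 146199) (nat_lit 0) .nil) .nil))))))) 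
(.nd (nat_lit 6) (.nd (nat_lit 7) (.nd (nat_lit 8) (.nd (nat_lit 9) 
(.lf (nat_lit 490531) (.g (nat_lit 4230) (.e (nat_lit 163864) (nat_lit 1) (.e (nat_lit 164332) (nat_lit 230) (.e (nat_lit 163905) (nat_lit 12) (.e (nat_lit 426472) (nat_lit 25) (.e (nat_lit 319534) (nat_lit 16) (.e (nat_lit 286756) (nat_lit 10) (.e (nat_lit 344087) (nat_lit 18) (.e (nat_lit 7289) (nat_lit 386) .nil)))))))) (.g (nat_lit 1) (.e (nat_lit 144191) (nat_lit 0) .nil) .nil))) 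
(.lf (nat_lit 491043) (.g (nat_lit 3249) (.e (nat_lit 163868) (nat_lit 2) (.e (nat_lit 196654) (nat_lit 11) (.e (nat_lit 16463) (nat_lit 13) (.e (nat_lit 483337) (nat_lit 9) (.e (nat_lit 426098) (nat_lit 1) (.e (nat_lit 164327) (nat_lit 230) .nil)))))) (.g (nat_lit 1) (.e (nat_lit 145291) (nat_lit 0) .nil) .nil)))) (.nd (nat_lit 9) 
(.lf (nat_lit 490787) (.g (nat_lit 518) (.e (nat_lit 163867) (nat_lit 2) (.e (nat_lit 196668) (nat_lit 14) (.e (nat_lit 73746) (nat_lit 3) .nil))) (.g (nat_lit 0) (.e (nat_lit 144706) (nat_lit 0) .nil) .nil))) 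
(.lf (nat_lit 491299) (.g (nat_lit 1262) (.e (nat_lit 163869) (nat_lit 2) (.e (nat_lit 196654) (nat_lit 11) (.e (nat_lit 16436) (nat_lit 9) (.e (nat_lit 426564) (nat_lit 34) .nil)))) (.g (nat_lit 0) (.e (nat_lit 145941) (nat_lit 0) .nil) .nil))))) (.nd (nat_lit 8) (.nd (nat_lit 9) 
(.lf (nat_lit 490659) (.g (nat_lit 2029) (.e (nat_lit 163866) (nat_lit 2) (.e (nat_lit 196670) (nat_lit 14) (.e (nat_lit 73746) (nat_lit 3) (.e (nat_lit 516127) (nat_lit 2) (.e (nat_lit 213038) (nat_lit 13) (.e (nat_lit 229434) (nat_lit 25) (.e (nat_lit 532499) (nat_lit 1) (.e (nat_lit 57927) (nat_lit 282) .nil)))))))) (.g (nat_lit 1) (.e (nat_lit 144451) (nat_lit 0) .nil) .nil))) 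
(.lf (nat_lit 491171) (.g (nat_lit 2669) (.e (nat_lit 163868) (nat_lit 2) (.e (nat_lit 196668) (nat_lit 14) (.e (nat_lit 73747) (nat_lit 3) (.e (nat_lit 516129) (nat_lit 3) (.e (nat_lit 221215) (nat_lit 23) (.e (nat_lit 204828) (nat_lit 18) (.e (nat_lit 57925) (nat_lit 282) .nil))))))) (.g (nat_lit 1) (.e (nat_lit 145545) (nat_lit 0) .nil) .nil)))) (.nd (nat_lit 9) 
(.lf (nat_lit 490915) (.g (nat_lit 3890) (.e (nat_lit 163867) (nat_lit 2) (.e (nat_lit 196670) (nat_lit 14) (.e (nat_lit 73746) (nat_lit 3) (.e (nat_lit 516129) (nat_lit 3) (.e (nat_lit 221214) (nat_lit 23) (.e (nat_lit 204831) (nat_lit 18) (.e (nat_lit 57924) (nat_lit 282) .nil))))))) (.g (nat_lit 1) (.e (nat_lit 144965) (nat_lit 0) .nil) .nil))) 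
(.lf (nat_lit 491427) (.g (nat_lit 2704) (.e (nat_lit 163869) (nat_lit 2) (.e (nat_lit 196666) (nat_lit 13) (.e (nat_lit 65610) (nat_lit 10) (.e (nat_lit 344117) (nat_lit 21) (.e (nat_lit 516145) (nat_lit 9) (.e (nat_lit 425986) (nat_lit 0) (.e (nat_lit 2431) (nat_lit 157) (.e (nat_lit 7936) (nat_lit 285) .nil)))))))) (.g (nat_lit 1) (.e (nat_lit 146120) (nat_lit 0) .nil) .nil)))))) 
(.nd (nat_lit 7) (.nd (nat_lit 8) (.nd (nat_lit 9) 
(.lf (nat_lit 490595) (.g (nat_lit 3519) (.e (nat_lit 163866) (nat_lit 2) (.e (nat_lit 196666) (nat_lit 13) (.e (nat_lit 65569) (nat_lit 3) (.e (nat_lit 98342) (nat_lit 20) (.e (nat_lit 221214) (nat_lit 23) (.e (nat_lit 204829) (nat_lit 18) (.e (nat_lit 57931) (nat_lit 282) .nil))))))) (.g (nat_lit 1) (.e (nat_lit 144366) (nat_lit 0) .nil) .nil))) 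
(.lf (nat_lit 491107) (.g (nat_lit 2218) (.e (nat_lit 163868) (nat_lit 2) (.e (nat_lit 196665) (nat_lit 13) (.e (nat_lit 65569) (nat_lit 3) (.e (nat_lit 98342) (nat_lit 20) (.e (nat_lit 221214) (nat_lit 23) (.e (nat_lit 204830) (nat_lit 18) (.e (nat_lit 57927) (nat_lit 282) .nil))))))) (.g (nat_lit 1) (.e (nat_lit 145400) (nat_lit 0) .nil) .nil)))) (.nd (nat_lit 9) 
(.lf (nat_lit 490851) (.g (nat_lit 2536) (.e (nat_lit 163867) (nat_lit 2) (.e (nat_lit 196668) (nat_lit 14) (.e (nat_lit 73747) (nat_lit 3) (.e (nat_lit 516129) (nat_lit 3) (.e (nat_lit 221215) (nat_lit 23) (.e (nat_lit 204831) (nat_lit 18) (.e (nat_lit 57930) (nat_lit 282) .nil))))))) (.g (nat_lit 1) (.e (nat_lit 144815) (nat_lit 0) .nil) .nil))) 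
(.lf (nat_lit 491363) (.g (nat_lit 4693) (.e (nat_lit 163869) (nat_lit 2) (.e (nat_lit 196666) (nat_lit 13) (.e (nat_lit 65569) (nat_lit 3) (.e (nat_lit 98342) (nat_lit 20) (.e (nat_lit 221214) (nat_lit 23) (.e (nat_lit 204830) (nat_lit 18) (.e (nat_lit 57927) (nat_lit 282) .nil))))))) (.g (nat_lit 1) (.e (nat_lit 146025) (nat_lit 0) .nil) .nil))))) (.nd (nat_lit 8) (.nd (nat_lit 9) 
(.lf (nat_lit 490723) (.g (nat_lit 3574) (.e (nat_lit 163867) (nat_lit 2) (.e (nat_lit 196656) (nat_lit 11) (.e (nat_lit 16416) (nat_lit 3) (.e (nat_lit 204838) (nat_lit 20) (.e (nat_lit 114717) (nat_lit 23) (.e (nat_lit 98334) (nat_lit 18) (.e (nat_lit 164330) (nat_lit 230) .nil))))))) (.g (nat_lit 1) (.e (nat_lit 144612) (nat_lit 0) .nil) .nil))) 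
(.lf (nat_lit 491235) (.g (nat_lit 2743) (.e (nat_lit 163868) (nat_lit 2) (.e (nat_lit 196670) (nat_lit 14) (.e (nat_lit 73746) (nat_lit 3) (.e (nat_lit 516129) (nat_lit 3) (.e (nat_lit 221196) (nat_lit 20) (.e (nat_lit 3250) (nat_lit 197) (.e (nat_lit 532499) (nat_lit 1) (.e (nat_lit 57927) (nat_lit 282) .nil)))))))) (.g (nat_lit 1) (.e (nat_lit 145670) (nat_lit 0) .nil) .nil)))) 
(.nd (nat_lit 9) 
(.lf (nat_lit 490979) (.g (nat_lit 2686) (.e (nat_lit 163867) (nat_lit 2) (.e (nat_lit 196670) (nat_lit 14) (.e (nat_lit 73753) (nat_lit 8) (.e (nat_lit 557105) (nat_lit 14) (.e (nat_lit 180245) (nat_lit 5) (.e (nat_lit 532503) (nat_lit 1) (.e (nat_lit 65280) (nat_lit 168) .nil))))))) (.g (nat_lit 1) (.e (nat_lit 145055) (nat_lit 0) .nil) .nil))) 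
(.lf (nat_lit 491491) (.g (nat_lit 3052) (.e (nat_lit 163869) (nat_lit 2) (.e (nat_lit 196666) (nat_lit 13) (.e (nat_lit 65610) (nat_lit 10) (.e (nat_lit 344117) (nat_lit 21) (.e (nat_lit 516151) (nat_lit 9) (.e (nat_lit 426043) (nat_lit 0) (.e (nat_lit 2423) (nat_lit 157) (.e (nat_lit 7936) (nat_lit 285) .nil)))))))) (.g (nat_lit 1) (.e (nat_lit 146231) (nat_lit 0) .nil) .nil)))))))) 
(.nd (nat_lit 5) (.nd (nat_lit 6) (.nd (nat_lit 7) (.nd (nat_lit 8) (.nd (nat_lit 9) 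
(.lf (nat_lit 490515) (.g (nat_lit 2910) (.e (nat_lit 163864) (nat_lit 1) (.e (nat_lit 164332) (nat_lit 230) (.e (nat_lit 163902) (nat_lit 12) (.e (nat_lit 426472) (nat_lit 25) (.e (nat_lit 319534) (nat_lit 16) (.e (nat_lit 286749) (nat_lit 9) (.e (nat_lit 335997) (nat_lit 1) (.e (nat_lit 57690) (nat_lit 156) .nil)))))))) (.g (nat_lit 1) (.e (nat_lit 144161) (nat_lit 0) .nil) .nil))) 
(.lf (nat_lit 491027) (.g (nat_lit 1685) (.e (nat_lit 163868) (nat_lit 2) (.e (nat_lit 196654) (nat_lit 11) (.e (nat_lit 16416) (nat_lit 3) (.e (nat_lit 204834) (nat_lit 19) .nil)))) (.g (nat_lit 0) (.e (nat_lit 145259) (nat_lit 0) .nil) .nil)))) (.nd (nat_lit 9) 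
(.lf (nat_lit 490771) (.g (nat_lit 3661) (.e (nat_lit 163867) (nat_lit 2) (.e (nat_lit 196663) (nat_lit 13) (.e (nat_lit 65571) (nat_lit 3) (.e (nat_lit 98342) (nat_lit 20) (.e (nat_lit 221215) (nat_lit 23) (.e (nat_lit 204830) (nat_lit 18) (.e (nat_lit 57931) (nat_lit 282) .nil))))))) (.g (nat_lit 1) (.e (nat_lit 144686) (nat_lit 0) .nil) .nil))) 
(.lf (nat_lit 491283) (.g (nat_lit 2839) (.e (nat_lit 163868) (nat_lit 2) (.e (nat_lit 196681) (nat_lit 17) (.e (nat_lit 131109) (nat_lit 9) (.e (nat_lit 336454) (nat_lit 34) (.e (nat_lit 483364) (nat_lit 18) (.e (nat_lit 57927) (nat_lit 282) .nil)))))) (.g (nat_lit 1) (.e (nat_lit 145891) (nat_lit 0) .nil) .nil))))) (.nd (nat_lit 8) (.nd (nat_lit 9) 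
(.lf (nat_lit 490643) (.g (nat_lit 4215) (.e (nat_lit 163866) (nat_lit 2) (.e (nat_lit 196668) (nat_lit 14) (.e (nat_lit 73747) (nat_lit 3) (.e (nat_lit 516129) (nat_lit 3) (.e (nat_lit 221215) (nat_lit 23) (.e (nat_lit 204829) (nat_lit 18) (.e (nat_lit 57927) (nat_lit 282) .nil))))))) (.g (nat_lit 1) (.e (nat_lit 144433) (nat_lit 0) .nil) .nil))) 
(.lf (nat_lit 491155) (.g (nat_lit 2731) (.e (nat_lit 163868) (nat_lit 2) (.e (nat_lit 196668) (nat_lit 14) (.e (nat_lit 73747) (nat_lit 3) (.e (nat_lit 516129) (nat_lit 3) (.e (nat_lit 221213) (nat_lit 23) (.e (nat_lit 204829) (nat_lit 18) (.e (nat_lit 57928) (nat_lit 282) .nil))))))) (.g (nat_lit 1) (.e (nat_lit 145521) (nat_lit 0) .nil) .nil)))) (.nd (nat_lit 9) 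
(.lf (nat_lit 490899) (.g (nat_lit 1816) (.e (nat_lit 163867) (nat_lit 2) (.e (nat_lit 196670) (nat_lit 14) (.e (nat_lit 73746) (nat_lit 3) (.e (nat_lit 516129) (nat_lit 3) (.e (nat_lit 221210) (nat_lit 22) .nil))))) (.g (nat_lit 0) (.e (nat_lit 144947) (nat_lit 0) .nil) .nil))) 
(.lf (nat_lit 491411) (.g (nat_lit 4400) (.e (nat_lit 163869) (nat_lit 2) (.e (nat_lit 196666) (nat_lit 13) (.e (nat_lit 65571) (nat_lit 3) (.e (nat_lit 98342) (nat_lit 20) (.e (nat_lit 221215) (nat_lit 23) (.e (nat_lit 204830) (nat_lit 18) (.e (nat_lit 57929) (nat_lit 282) .nil))))))) (.g (nat_lit 1) (.e (nat_lit 146088) (nat_lit 0) .nil) .nil)))))) 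
(.nd (nat_lit 7) (.nd (nat_lit 8) (.nd (nat_lit 9) 
(.lf (nat_lit 490579) (.g (nat_lit 1972) (.e (nat_lit 163866) (nat_lit 2) (.e (nat_lit 196663) (nat_lit 13) (.e (nat_lit 65571) (nat_lit 3) (.e (nat_lit 98341) (nat_lit 20) (.e (nat_lit 221204) (nat_lit 20) .nil))))) (.g (nat_lit 0) (.e (nat_lit 144347) (nat_lit 0) .nil) .nil))) 
(.lf (nat_lit 491091) (.g (nat_lit 3377) (.e (nat_lit 163868) (nat_lit 2) (.e (nat_lit 196663) (nat_lit 13) (.e (nat_lit 65571) (nat_lit 3) (.e (nat_lit 98341) (nat_lit 20) (.e (nat_lit 221214) (nat_lit 23) (.e (nat_lit 204830) (nat_lit 18) (.e (nat_lit 57928) (nat_lit 282) .nil))))))) (.g (nat_lit 1) (.e (nat_lit 145381) (nat_lit 0) .nil) .nil)))) (.nd (nat_lit 9) 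
(.lf (nat_lit 490835) (.g (nat_lit 4981) (.e (nat_lit 163867) (nat_lit 2) (.e (nat_lit 196668) (nat_lit 14) (.e (nat_lit 73747) (nat_lit 3) (.e (nat_lit 516129) (nat_lit 3) (.e (nat_lit 221214) (nat_lit 23) (.e (nat_lit 204829) (nat_lit 18) (.e (nat_lit 57931) (nat_lit 282) .nil))))))) (.g (nat_lit 1) (.e (nat_lit 144796) (nat_lit 0) .nil) .nil))) 
(.lf (nat_lit 491347) (.g (nat_lit 2105) (.e (nat_lit 163869) (nat_lit 2) (.e (nat_lit 196666) (nat_lit 13) (.e (nat_lit 65569) (nat_lit 3) (.e (nat_lit 98341) (nat_lit 20) (.e (nat_lit 221213) (nat_lit 23) (.e (nat_lit 204830) (nat_lit 18) (.e (nat_lit 57929) (nat_lit 282) .nil))))))) (.g (nat_lit 1) (.e (nat_lit 146008) (nat_lit 0) .nil) .nil))))) (.nd (nat_lit 8) (.nd (nat_lit 9) 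
(.lf (nat_lit 490707) (.g (nat_lit 3437) (.e (nat_lit 163867) (nat_lit 2) (.e (nat_lit 196654) (nat_lit 11) (.e (nat_lit 16433) (nat_lit 9) (.e (nat_lit 426568) (nat_lit 34) (.e (nat_lit 393252) (nat_lit 18) (.e (nat_lit 164332) (nat_lit 230) .nil)))))) (.g (nat_lit 1) (.e (nat_lit 144580) (nat_lit 0) .nil) .nil))) 
(.lf (nat_lit 491219) (.g (nat_lit 3051) (.e (nat_lit 163868) (nat_lit 2) (.e (nat_lit 196668) (nat_lit 14) (.e (nat_lit 73753) (nat_lit 8) (.e (nat_lit 557103) (nat_lit 14) (.e (nat_lit 180252) (nat_lit 10) .nil))))) (.g (nat_lit 0) (.e (nat_lit 145653) (nat_lit 0) .nil) .nil)))) (.nd (nat_lit 9) 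
(.lf (nat_lit 490963) (.g (nat_lit 2569) (.e (nat_lit 163867) (nat_lit 2) (.e (nat_lit 196670) (nat_lit 14) (.e (nat_lit 73746) (nat_lit 3) (.e (nat_lit 516131) (nat_lit 3) (.e (nat_lit 221215) (nat_lit 23) (.e (nat_lit 204839) (nat_lit 21) (.e (nat_lit 123229) (nat_lit 282) .nil))))))) (.g (nat_lit 1) (.e (nat_lit 145016) (nat_lit 0) .nil) .nil))) 
(.lf (nat_lit 491475) (.g (nat_lit 4385) (.e (nat_lit 163869) (nat_lit 2) (.e (nat_lit 196666) (nat_lit 13) (.e (nat_lit 65610) (nat_lit 10) (.e (nat_lit 344117) (nat_lit 21) (.e (nat_lit 516151) (nat_lit 9) (.e (nat_lit 426042) (nat_lit 0) (.e (nat_lit 2416) (nat_lit 157) (.e (nat_lit 4849) (nat_lit 285) .nil)))))))) (.g (nat_lit 1) (.e (nat_lit 146215) (nat_lit 0) .nil) .nil))))))) 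
(.nd (nat_lit 6) (.nd (nat_lit 7) (.nd (nat_lit 8) (.nd (nat_lit 9) 
(.lf (nat_lit 490547) (.g (nat_lit 1351) (.e (nat_lit 163865) (nat_lit 2) (.e (nat_lit 196670) (nat_lit 14) (.e (nat_lit 73746) (nat_lit 3) (.e (nat_lit 516124) (nat_lit 2) .nil)))) (.g (nat_lit 0) (.e (nat_lit 144298) (nat_lit 0) .nil) .nil))) 
(.lf (nat_lit 491059) (.g (nat_lit 1548) (.e (nat_lit 163868) (nat_lit 2) (.e (nat_lit 196656) (nat_lit 11) (.e (nat_lit 16416) (nat_lit 3) (.e (nat_lit 204838) (nat_lit 20) .nil)))) (.g (nat_lit 0) (.e (nat_lit 145330) (nat_lit 0) .nil) .nil)))) (.nd (nat_lit 9) 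
(.lf (nat_lit 490803) (.g (nat_lit 2673) (.e (nat_lit 163867) (nat_lit 2) (.e (nat_lit 196668) (nat_lit 14) (.e (nat_lit 73746) (nat_lit 3) (.e (nat_lit 516129) (nat_lit 3) (.e (nat_lit 221215) (nat_lit 23) (.e (nat_lit 204829) (nat_lit 18) (.e (nat_lit 57930) (nat_lit 282) .nil))))))) (.g (nat_lit 1) (.e (nat_lit 144742) (nat_lit 0) .nil) .nil))) 
(.lf (nat_lit 491315) (.g (nat_lit 3549) (.e (nat_lit 163869) (nat_lit 2) (.e (nat_lit 196656) (nat_lit 11) (.e (nat_lit 16433) (nat_lit 9) (.e (nat_lit 426566) (nat_lit 34) (.e (nat_lit 393252) (nat_lit 18) (.e (nat_lit 164332) (nat_lit 230) .nil)))))) (.g (nat_lit 1) (.e (nat_lit 145968) (nat_lit 0) .nil) .nil))))) (.nd (nat_lit 8) (.nd (nat_lit 9) 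
(.lf (nat_lit 490675) (.g (nat_lit 416) (.e (nat_lit 163866) (nat_lit 2) (.e (nat_lit 196681) (nat_lit 17) (.e (nat_lit 131105) (nat_lit 9) .nil))) (.g (nat_lit 0) (.e (nat_lit 144480) (nat_lit 0) .nil) .nil))) 
(.lf (nat_lit 491187) (.g (nat_lit 2899) (.e (nat_lit 163868) (nat_lit 2) (.e (nat_lit 196668) (nat_lit 14) (.e (nat_lit 73747) (nat_lit 3) (.e (nat_lit 516130) (nat_lit 3) (.e (nat_lit 221215) (nat_lit 23) (.e (nat_lit 204829) (nat_lit 18) (.e (nat_lit 57927) (nat_lit 282) .nil))))))) (.g (nat_lit 1) (.e (nat_lit 145562) (nat_lit 0) .nil) .nil)))) (.nd (nat_lit 9) 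
(.lf (nat_lit 490931) (.g (nat_lit 4144) (.e (nat_lit 163867) (nat_lit 2) (.e (nat_lit 196670) (nat_lit 14) (.e (nat_lit 73746) (nat_lit 3) (.e (nat_lit 516129) (nat_lit 3) (.e (nat_lit 221215) (nat_lit 23) (.e (nat_lit 204831) (nat_lit 18) (.e (nat_lit 57924) (nat_lit 282) .nil))))))) (.g (nat_lit 1) (.e (nat_lit 144981) (nat_lit 0) .nil) .nil))) 
(.lf (nat_lit 491443) (.g (nat_lit 3240) (.e (nat_lit 163869) (nat_lit 2) (.e (nat_lit 196666) (nat_lit 13) (.e (nat_lit 65610) (nat_lit 10) (.e (nat_lit 344117) (nat_lit 21) (.e (nat_lit 516151) (nat_lit 9) (.e (nat_lit 426018) (nat_lit 0) (.e (nat_lit 2401) (nat_lit 157) (.e (nat_lit 4847) (nat_lit 285) .nil)))))))) (.g (nat_lit 1) (.e (nat_lit 146183) (nat_lit 0) .nil) .nil)))))) 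
(.nd (nat_lit 7) (.nd (nat_lit 8) (.nd (nat_lit 9) 
(.lf (nat_lit 490611) (.g (nat_lit 1804) (.e (nat_lit 163866) (nat_lit 2) (.e (nat_lit 196666) (nat_lit 13) (.e (nat_lit 65571) (nat_lit 3) (.e (nat_lit 98342) (nat_lit 20) .nil)))) (.g (nat_lit 0) (.e (nat_lit 144382) (nat_lit 0) .nil) .nil))) 
(.lf (nat_lit 491123) (.g (nat_lit 3077) (.e (nat_lit 163868) (nat_lit 2) (.e (nat_lit 196668) (nat_lit 14) (.e (nat_lit 73746) (nat_lit 3) (.e (nat_lit 516129) (nat_lit 3) (.e (nat_lit 221214) (nat_lit 23) (.e (nat_lit 204830) (nat_lit 18) (.e (nat_lit 57924) (nat_lit 282) .nil))))))) (.g (nat_lit 1) (.e (nat_lit 145442) (nat_lit 0) .nil) .nil)))) (.nd (nat_lit 9) 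
(.lf (nat_lit 490867) (.g (nat_lit 3278) (.e (nat_lit 163867) (nat_lit 2) (.e (nat_lit 196668) (nat_lit 14) (.e (nat_lit 73747) (nat_lit 3) (.e (nat_lit 516131) (nat_lit 3) (.e (nat_lit 221215) (nat_lit 23) (.e (nat_lit 204829) (nat_lit 18) (.e (nat_lit 57925) (nat_lit 282) .nil))))))) (.g (nat_lit 1) (.e (nat_lit 144841) (nat_lit 0) .nil) .nil))) 
(.lf (nat_lit 491379) (.g (nat_lit 4696) (.e (nat_lit 163869) (nat_lit 2) (.e (nat_lit 196666) (nat_lit 13) (.e (nat_lit 65571) (nat_lit 3) (.e (nat_lit 98341) (nat_lit 20) (.e (nat_lit 221214) (nat_lit 23) (.e (nat_lit 204830) (nat_lit 18) (.e (nat_lit 57927) (nat_lit 282) .nil))))))) (.g (nat_lit 1) (.e (nat_lit 146050) (nat_lit 0) .nil) .nil))))) (.nd (nat_lit 8) (.nd (nat_lit 9) 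
(.lf (nat_lit 490739) (.g (nat_lit 3408) (.e (nat_lit 163867) (nat_lit 2) (.e (nat_lit 196656) (nat_lit 11) (.e (nat_lit 16466) (nat_lit 13) (.e (nat_lit 483341) (nat_lit 9) (.e (nat_lit 426100) (nat_lit 1) (.e (nat_lit 164332) (nat_lit 230) .nil)))))) (.g (nat_lit 1) (.e (nat_lit 144645) (nat_lit 0) .nil) .nil))) 
(.lf (nat_lit 491251) (.g (nat_lit 3045) (.e (nat_lit 163868) (nat_lit 2) (.e (nat_lit 196670) (nat_lit 14) (.e (nat_lit 73746) (nat_lit 3) (.e (nat_lit 516131) (nat_lit 3) (.e (nat_lit 221214) (nat_lit 23) (.e (nat_lit 204830) (nat_lit 18) (.e (nat_lit 57928) (nat_lit 282) .nil))))))) (.g (nat_lit 1) (.e (nat_lit 145686) (nat_lit 0) .nil) .nil)))) (.nd (nat_lit 9) 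
(.lf (nat_lit 490995) (.g (nat_lit 451) (.e (nat_lit 163867) (nat_lit 2) (.e (nat_lit 196672) (nat_lit 15) (.e (nat_lit 89856) (nat_lit 11) .nil))) (.g (nat_lit 0) (.e (nat_lit 145077) (nat_lit 0) .nil) .nil))) 
(.lf (nat_lit 491507) (.g (nat_lit 3068) (.e (nat_lit 163869) (nat_lit 2) (.e (nat_lit 196666) (nat_lit 13) (.e (nat_lit 65610) (nat_lit 10) (.e (nat_lit 344117) (nat_lit 21) (.e (nat_lit 516151) (nat_lit 9) (.e (nat_lit 426146) (nat_lit 4) (.e (nat_lit 237312) (nat_lit 219) .nil))))))) (.g (nat_lit 1) (.e (nat_lit 146247) (nat_lit 0) .nil) .nil))))))))) 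
(.nd (nat_lit 4) (.nd (nat_lit 5) (.nd (nat_lit 6) (.nd (nat_lit 7) (.nd (nat_lit 8) 
(.nd (nat_lit 9) 
(.lf (nat_lit 490507) (.g (nat_lit 5279) (.e (nat_lit 163864) (nat_lit 1) (.e (nat_lit 164332) (nat_lit 230) (.e (nat_lit 163902) (nat_lit 12) (.e (nat_lit 426438) (nat_lit 18) (.e (nat_lit 98373) (nat_lit 29) (.e (nat_lit 450563) (nat_lit 0) (.e (nat_lit 6839) (nat_lit 369) .nil))))))) (.g (nat_lit 1) (.e (nat_lit 144153) (nat_lit 0) .nil) .nil))) 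
(.lf (nat_lit 491019) (.g (nat_lit 1037) (.e (nat_lit 163868) (nat_lit 2) (.e (nat_lit 196624) (nat_lit 9) (.e (nat_lit 411) (nat_lit 32) (.e (nat_lit 426195) (nat_lit 9) .nil)))) (.g (nat_lit 0) (.e (nat_lit 145239) (nat_lit 0) .nil) .nil)))) (.nd (nat_lit 9) 
(.lf (nat_lit 490763) (.g (nat_lit 2387) (.e (nat_lit 163867) (nat_lit 2) (.e (nat_lit 196663) (nat_lit 13) (.e (nat_lit 65571) (nat_lit 3) (.e (nat_lit 98342) (nat_lit 20) (.e (nat_lit 221214) (nat_lit 23) (.e (nat_lit 204830) (nat_lit 18) (.e (nat_lit 57929) (nat_lit 282) .nil))))))) (.g (nat_lit 1) (.e (nat_lit 144677) (nat_lit 0) .nil) .nil))) 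
(.lf (nat_lit 491275) (.g (nat_lit 2768) (.e (nat_lit 163868) (nat_lit 2) (.e (nat_lit 196674) (nat_lit 15) (.e (nat_lit 81925) (nat_lit 11) (.e (nat_lit 426500) (nat_lit 27) (.e (nat_lit 335988) (nat_lit 1) (.e (nat_lit 57926) (nat_lit 282) .nil)))))) (.g (nat_lit 1) (.e (nat_lit 145882) (nat_lit 0) .nil) .nil))))) (.nd (nat_lit 8) (.nd (nat_lit 9) 
(.lf (nat_lit 490635) (.g (nat_lit 2434) (.e (nat_lit 163866) (nat_lit 2) (.e (nat_lit 196668) (nat_lit 14) (.e (nat_lit 73746) (nat_lit 3) (.e (nat_lit 516131) (nat_lit 3) (.e (nat_lit 221215) (nat_lit 23) (.e (nat_lit 204829) (nat_lit 18) (.e (nat_lit 57927) (nat_lit 282) .nil))))))) (.g (nat_lit 1) (.e (nat_lit 144412) (nat_lit 0) .nil) .nil))) 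
(.lf (nat_lit 491147) (.g (nat_lit 4120) (.e (nat_lit 163868) (nat_lit 2) (.e (nat_lit 196668) (nat_lit 14) (.e (nat_lit 73746) (nat_lit 3) (.e (nat_lit 516131) (nat_lit 3) (.e (nat_lit 221215) (nat_lit 23) (.e (nat_lit 204830) (nat_lit 18) (.e (nat_lit 57927) (nat_lit 282) .nil))))))) (.g (nat_lit 1) (.e (nat_lit 145479) (nat_lit 0) .nil) .nil)))) (.nd (nat_lit 9) 
(.lf (nat_lit 490891) (.g (nat_lit 1741) (.e (nat_lit 163867) (nat_lit 2) (.e (nat_lit 196670) (nat_lit 14) (.e (nat_lit 73746) (nat_lit 3) (.e (nat_lit 516124) (nat_lit 2) (.e (nat_lit 213013) (nat_lit 9) .nil))))) (.g (nat_lit 0) (.e (nat_lit 144897) (nat_lit 0) .nil) .nil))) 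
(.lf (nat_lit 491403) (.g (nat_lit 2972) (.e (nat_lit 163869) (nat_lit 2) (.e (nat_lit 196666) (nat_lit 13) (.e (nat_lit 65571) (nat_lit 3) (.e (nat_lit 98342) (nat_lit 20) (.e (nat_lit 221214) (nat_lit 23) (.e (nat_lit 204830) (nat_lit 18) (.e (nat_lit 57930) (nat_lit 282) .nil))))))) (.g (nat_lit 1) (.e (nat_lit 146078) (nat_lit 0) .nil) .nil)))))) 
(.nd (nat_lit 7) (.nd (nat_lit 8) (.nd (nat_lit 9) 
(.lf (nat_lit 490571) (.g (nat_lit 1804) (.e (nat_lit 163866) (nat_lit 2) (.e (nat_lit 196654) (nat_lit 11) (.e (nat_lit 16466) (nat_lit 13) (.e (nat_lit 483340) (nat_lit 9) (.e (nat_lit 426105) (nat_lit 1) .nil))))) (.g (nat_lit 0) (.e (nat_lit 144337) (nat_lit 0) .nil) .nil))) 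
(.lf (nat_lit 491083) (.g (nat_lit 3570) (.e (nat_lit 163868) (nat_lit 2) (.e (nat_lit 196663) (nat_lit 13) (.e (nat_lit 65569) (nat_lit 3) (.e (nat_lit 98342) (nat_lit 20) (.e (nat_lit 221214) (nat_lit 23) (.e (nat_lit 204830) (nat_lit 18) (.e (nat_lit 57927) (nat_lit 282) .nil))))))) (.g (nat_lit 1) (.e (nat_lit 145372) (nat_lit 0) .nil) .nil)))) (.nd (nat_lit 9) 
(.lf (nat_lit 490827) (.g (nat_lit 1935) (.e (nat_lit 163867) (nat_lit 2) (.e (nat_lit 196668) (nat_lit 14) (.e (nat_lit 73747) (nat_lit 3) (.e (nat_lit 516129) (nat_lit 3) (.e (nat_lit 221213) (nat_lit 23) .nil))))) (.g (nat_lit 0) (.e (nat_lit 144787) (nat_lit 0) .nil) .nil))) 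
(.lf (nat_lit 491339) (.g (nat_lit 2680) (.e (nat_lit 163869) (nat_lit 2) (.e (nat_lit 196663) (nat_lit 13) (.e (nat_lit 65571) (nat_lit 3) (.e (nat_lit 98342) (nat_lit 20) (.e (nat_lit 221213) (nat_lit 23) (.e (nat_lit 204829) (nat_lit 18) (.e (nat_lit 57927) (nat_lit 282) .nil))))))) (.g (nat_lit 1) (.e (nat_lit 145998) (nat_lit 0) .nil) .nil))))) (.nd (nat_lit 8) (.nd (nat_lit 9) 
(.lf (nat_lit 490699) (.g (nat_lit 656) (.e (nat_lit 163867) (nat_lit 2) (.e (nat_lit 196624) (nat_lit 9) (.e (nat_lit 386) (nat_lit 32) .nil))) (.g (nat_lit 0) (.e (nat_lit 144543) (nat_lit 0) .nil) .nil))) 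
(.lf (nat_lit 491211) (.g (nat_lit 4267) (.e (nat_lit 163868) (nat_lit 2) (.e (nat_lit 196668) (nat_lit 14) (.e (nat_lit 73753) (nat_lit 8) (.e (nat_lit 557103) (nat_lit 14) (.e (nat_lit 180243) (nat_lit 5) (.e (nat_lit 532499) (nat_lit 1) (.e (nat_lit 65280) (nat_lit 168) .nil))))))) (.g (nat_lit 1) (.e (nat_lit 145643) (nat_lit 0) .nil) .nil)))) (.nd (nat_lit 9) 
(.lf (nat_lit 490955) (.g (nat_lit 4584) (.e (nat_lit 163867) (nat_lit 2) (.e (nat_lit 196670) (nat_lit 14) (.e (nat_lit 73746) (nat_lit 3) (.e (nat_lit 516131) (nat_lit 3) (.e (nat_lit 221215) (nat_lit 23) (.e (nat_lit 204829) (nat_lit 18) (.e (nat_lit 57931) (nat_lit 282) .nil))))))) (.g (nat_lit 1) (.e (nat_lit 145008) (nat_lit 0) .nil) .nil))) 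
(.lf (nat_lit 491467) (.g (nat_lit 5209) (.e (nat_lit 163869) (nat_lit 2) (.e (nat_lit 196666) (nat_lit 13) (.e (nat_lit 65610) (nat_lit 10) (.e (nat_lit 344117) (nat_lit 21) (.e (nat_lit 516151) (nat_lit 9) (.e (nat_lit 426038) (nat_lit 0) (.e (nat_lit 2423) (nat_lit 157) (.e (nat_lit 4849) (nat_lit 285) .nil)))))))) (.g (nat_lit 1) (.e (nat_lit 146207) (nat_lit 0) .nil) .nil))))))) 
(.nd (nat_lit 6) (.nd (nat_lit 7) (.nd (nat_lit 8) (.nd (nat_lit 9) 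
(.lf (nat_lit 490539) (.g (nat_lit 2465) (.e (nat_lit 163865) (nat_lit 2) (.e (nat_lit 196654) (nat_lit 11) (.e (nat_lit 16463) (nat_lit 13) (.e (nat_lit 483341) (nat_lit 9) (.e (nat_lit 426106) (nat_lit 1) .nil))))) (.g (nat_lit 0) (.e (nat_lit 144289) (nat_lit 0) .nil) .nil))) 
(.lf (nat_lit 491051) (.g (nat_lit 3427) (.e (nat_lit 163868) (nat_lit 2) (.e (nat_lit 196654) (nat_lit 11) (.e (nat_lit 16466) (nat_lit 13) (.e (nat_lit 483341) (nat_lit 9) (.e (nat_lit 426098) (nat_lit 1) (.e (nat_lit 164327) (nat_lit 230) .nil)))))) (.g (nat_lit 1) (.e (nat_lit 145309) (nat_lit 0) .nil) .nil)))) (.nd (nat_lit 9) 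
(.lf (nat_lit 490795) (.g (nat_lit 2782) (.e (nat_lit 163867) (nat_lit 2) (.e (nat_lit 196668) (nat_lit 14) (.e (nat_lit 73746) (nat_lit 3) (.e (nat_lit 516129) (nat_lit 3) (.e (nat_lit 221214) (nat_lit 23) (.e (nat_lit 204830) (nat_lit 18) (.e (nat_lit 57929) (nat_lit 282) .nil))))))) (.g (nat_lit 1) (.e (nat_lit 144734) (nat_lit 0) .nil) .nil))) 
(.lf (nat_lit 491307) (.g (nat_lit 3810) (.e (nat_lit 163869) (nat_lit 2) (.e (nat_lit 196654) (nat_lit 11) (.e (nat_lit 16466) (nat_lit 13) (.e (nat_lit 483337) (nat_lit 9) (.e (nat_lit 426107) (nat_lit 1) (.e (nat_lit 164325) (nat_lit 230) .nil)))))) (.g (nat_lit 1) (.e (nat_lit 145952) (nat_lit 0) .nil) .nil))))) (.nd (nat_lit 8) (.nd (nat_lit 9) 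
(.lf (nat_lit 490667) (.g (nat_lit 3227) (.e (nat_lit 163866) (nat_lit 2) (.e (nat_lit 196670) (nat_lit 14) (.e (nat_lit 73746) (nat_lit 3) (.e (nat_lit 516131) (nat_lit 3) (.e (nat_lit 221214) (nat_lit 23) (.e (nat_lit 204829) (nat_lit 18) (.e (nat_lit 57927) (nat_lit 282) .nil))))))) (.g (nat_lit 1) (.e (nat_lit 144459) (nat_lit 0) .nil) .nil))) 
(.lf (nat_lit 491179) (.g (nat_lit 3538) (.e (nat_lit 163868) (nat_lit 2) (.e (nat_lit 196668) (nat_lit 14) (.e (nat_lit 73747) (nat_lit 3) (.e (nat_lit 516129) (nat_lit 3) (.e (nat_lit 221215) (nat_lit 23) (.e (nat_lit 204830) (nat_lit 18) (.e (nat_lit 57924) (nat_lit 282) .nil))))))) (.g (nat_lit 1) (.e (nat_lit 145553) (nat_lit 0) .nil) .nil)))) (.nd (nat_lit 9) 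
(.lf (nat_lit 490923) (.g (nat_lit 3439) (.e (nat_lit 163867) (nat_lit 2) (.e (nat_lit 196670) (nat_lit 14) (.e (nat_lit 73746) (nat_lit 3) (.e (nat_lit 516129) (nat_lit 3) (.e (nat_lit 221215) (nat_lit 23) (.e (nat_lit 204829) (nat_lit 18) (.e (nat_lit 57926) (nat_lit 282) .nil))))))) (.g (nat_lit 1) (.e (nat_lit 144973) (nat_lit 0) .nil) .nil))) 
(.lf (nat_lit 491435) (.g (nat_lit 2488) (.e (nat_lit 163869) (nat_lit 2) (.e (nat_lit 196666) (nat_lit 13) (.e (nat_lit 65610) (nat_lit 10) (.e (nat_lit 344117) (nat_lit 21) (.e (nat_lit 516151) (nat_lit 9) (.e (nat_lit 426003) (nat_lit 0) (.e (nat_lit 2397) (nat_lit 157) (.e (nat_lit 4848) (nat_lit 285) .nil)))))))) (.g (nat_lit 1) (.e (nat_lit 146175) (nat_lit 0) .nil) .nil)))))) 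
(.nd (nat_lit 7) (.nd (nat_lit 8) (.nd (nat_lit 9) 
(.lf (nat_lit 490603) (.g (nat_lit 1778) (.e (nat_lit 163866) (nat_lit 2) (.e (nat_lit 196666) (nat_lit 13) (.e (nat_lit 65571) (nat_lit 3) (.e (nat_lit 98341) (nat_lit 20) .nil)))) (.g (nat_lit 0) (.e (nat_lit 144374) (nat_lit 0) .nil) .nil))) 
(.lf (nat_lit 491115) (.g (nat_lit 475) (.e (nat_lit 163868) (nat_lit 2) (.e (nat_lit 196668) (nat_lit 14) (.e (nat_lit 73746) (nat_lit 3) .nil))) (.g (nat_lit 0) (.e (nat_lit 145408) (nat_lit 0) .nil) .nil)))) (.nd (nat_lit 9) 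
(.lf (nat_lit 490859) (.g (nat_lit 2245) (.e (nat_lit 163867) (nat_lit 2) (.e (nat_lit 196668) (nat_lit 14) (.e (nat_lit 73747) (nat_lit 3) (.e (nat_lit 516130) (nat_lit 3) (.e (nat_lit 221215) (nat_lit 23) (.e (nat_lit 204830) (nat_lit 18) (.e (nat_lit 57925) (nat_lit 282) .nil))))))) (.g (nat_lit 1) (.e (nat_lit 144823) (nat_lit 0) .nil) .nil))) 
(.lf (nat_lit 491371) (.g (nat_lit 1417) (.e (nat_lit 163869) (nat_lit 2) (.e (nat_lit 196666) (nat_lit 13) (.e (nat_lit 65571) (nat_lit 3) (.e (nat_lit 98341) (nat_lit 20) .nil)))) (.g (nat_lit 0) (.e (nat_lit 146041) (nat_lit 0) .nil) .nil))))) (.nd (nat_lit 8) (.nd (nat_lit 9) 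
(.lf (nat_lit 490731) (.g (nat_lit 3684) (.e (nat_lit 163867) (nat_lit 2) (.e (nat_lit 196656) (nat_lit 11) (.e (nat_lit 16463) (nat_lit 13) (.e (nat_lit 483341) (nat_lit 9) (.e (nat_lit 426100) (nat_lit 1) (.e (nat_lit 164332) (nat_lit 230) .nil)))))) (.g (nat_lit 1) (.e (nat_lit 144633) (nat_lit 0) .nil) .nil))) 
(.lf (nat_lit 491243) (.g (nat_lit 2735) (.e (nat_lit 163868) (nat_lit 2) (.e (nat_lit 196670) (nat_lit 14) (.e (nat_lit 73746) (nat_lit 3) (.e (nat_lit 516129) (nat_lit 3) (.e (nat_lit 221215) (nat_lit 23) (.e (nat_lit 204828) (nat_lit 18) (.e (nat_lit 57926) (nat_lit 282) .nil))))))) (.g (nat_lit 1) (.e (nat_lit 145678) (nat_lit 0) .nil) .nil)))) (.nd (nat_lit 9) 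
(.lf (nat_lit 490987) (.g (nat_lit 240) (.e (nat_lit 163867) (nat_lit 2) (.e (nat_lit 196672) (nat_lit 15) (.e (nat_lit 81927) (nat_lit 11) .nil))) (.g (nat_lit 0) (.e (nat_lit 145069) (nat_lit 0) .nil) .nil))) 
(.lf (nat_lit 491499) (.g (nat_lit 3358) (.e (nat_lit 163869) (nat_lit 2) (.e (nat_lit 196666) (nat_lit 13) (.e (nat_lit 65610) (nat_lit 10) (.e (nat_lit 344117) (nat_lit 21) (.e (nat_lit 516151) (nat_lit 9) (.e (nat_lit 426047) (nat_lit 0) (.e (nat_lit 2424) (nat_lit 157) (.e (nat_lit 7936) (nat_lit 285) .nil)))))))) (.g (nat_lit 1) (.e (nat_lit 146239) (nat_lit 0) .nil) .nil)))))))) 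
(.nd (nat_lit 5) (.nd (nat_lit 6) (.nd (nat_lit 7) (.nd (nat_lit 8) (.nd (nat_lit 9) 
(.lf (nat_lit 490523) (.g (nat_lit 3306) (.e (nat_lit 163864) (nat_lit 1) (.e (nat_lit 164332) (nat_lit 230) (.e (nat_lit 163905) (nat_lit 12) (.e (nat_lit 426472) (nat_lit 25) (.e (nat_lit 319533) (nat_lit 16) (.e (nat_lit 286753) (nat_lit 10) (.e (nat_lit 344087) (nat_lit 18) (.e (nat_lit 7290) (nat_lit 386) .nil)))))))) (.g (nat_lit 1) (.e (nat_lit 144183) (nat_lit 0) .nil) .nil))) 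
(.lf (nat_lit 491035) (.g (nat_lit 1594) (.e (nat_lit 163868) (nat_lit 2) (.e (nat_lit 196654) (nat_lit 11) (.e (nat_lit 16436) (nat_lit 9) (.e (nat_lit 426484) (nat_lit 27) .nil)))) (.g (nat_lit 0) (.e (nat_lit 145279) (nat_lit 0) .nil) .nil)))) (.nd (nat_lit 9) 
(.lf (nat_lit 490779) (.g (nat_lit 3283) (.e (nat_lit 163867) (nat_lit 2) (.e (nat_lit 196664) (nat_lit 13) (.e (nat_lit 65571) (nat_lit 3) (.e (nat_lit 98342) (nat_lit 20) (.e (nat_lit 221215) (nat_lit 23) (.e (nat_lit 204831) (nat_lit 18) (.e (nat_lit 57931) (nat_lit 282) .nil))))))) (.g (nat_lit 1) (.e (nat_lit 144694) (nat_lit 0) .nil) .nil))) 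
(.lf (nat_lit 491291) (.g (nat_lit 2384) (.e (nat_lit 163869) (nat_lit 2) (.e (nat_lit 196653) (nat_lit 11) (.e (nat_lit 16463) (nat_lit 13) (.e (nat_lit 483341) (nat_lit 9) (.e (nat_lit 426100) (nat_lit 1) .nil))))) (.g (nat_lit 0) (.e (nat_lit 145932) (nat_lit 0) .nil) .nil))))) (.nd (nat_lit 8) (.nd (nat_lit 9) 
(.lf (nat_lit 490651) (.g (nat_lit 1878) (.e (nat_lit 163866) (nat_lit 2) (.e (nat_lit 196670) (nat_lit 14) (.e (nat_lit 73746) (nat_lit 3) (.e (nat_lit 516122) (nat_lit 2) (.e (nat_lit 213035) (nat_lit 12) (.e (nat_lit 163965) (nat_lit 25) (.e (nat_lit 532499) (nat_lit 1) (.e (nat_lit 57927) (nat_lit 282) .nil)))))))) (.g (nat_lit 1) (.e (nat_lit 144443) (nat_lit 0) .nil) .nil))) 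
(.lf (nat_lit 491163) (.g (nat_lit 4790) (.e (nat_lit 163868) (nat_lit 2) (.e (nat_lit 196668) (nat_lit 14) (.e (nat_lit 73747) (nat_lit 3) (.e (nat_lit 516129) (nat_lit 3) (.e (nat_lit 221214) (nat_lit 23) (.e (nat_lit 204829) (nat_lit 18) (.e (nat_lit 57926) (nat_lit 282) .nil))))))) (.g (nat_lit 1) (.e (nat_lit 145533) (nat_lit 0) .nil) .nil)))) (.nd (nat_lit 9) 
(.lf (nat_lit 490907) (.g (nat_lit 4222) (.e (nat_lit 163867) (nat_lit 2) (.e (nat_lit 196670) (nat_lit 14) (.e (nat_lit 73746) (nat_lit 3) (.e (nat_lit 516129) (nat_lit 3) (.e (nat_lit 221214) (nat_lit 23) (.e (nat_lit 204829) (nat_lit 18) (.e (nat_lit 57924) (nat_lit 282) .nil))))))) (.g (nat_lit 1) (.e (nat_lit 144957) (nat_lit 0) .nil) .nil))) 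
(.lf (nat_lit 491419) (.g (nat_lit 4412) (.e (nat_lit 163869) (nat_lit 2) (.e (nat_lit 196666) (nat_lit 13) (.e (nat_lit 65610) (nat_lit 10) (.e (nat_lit 344117) (nat_lit 21) (.e (nat_lit 516143) (nat_lit 9) (.e (nat_lit 426109) (nat_lit 1) (.e (nat_lit 171776) (nat_lit 219) .nil))))))) (.g (nat_lit 1) (.e (nat_lit 146112) (nat_lit 0) .nil) .nil)))))) 
(.nd (nat_lit 7) (.nd (nat_lit 8) (.nd (nat_lit 9) 
(.lf (nat_lit 490587) (.g (nat_lit 3106) (.e (nat_lit 163866) (nat_lit 2) (.e (nat_lit 196666) (nat_lit 13) (.e (nat_lit 65569) (nat_lit 3) (.e (nat_lit 98341) (nat_lit 20) (.e (nat_lit 221214) (nat_lit 23) (.e (nat_lit 204830) (nat_lit 18) (.e (nat_lit 57927) (nat_lit 282) .nil))))))) (.g (nat_lit 1) (.e (nat_lit 144356) (nat_lit 0) .nil) .nil))) 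
(.lf (nat_lit 491099) (.g (nat_lit 2246) (.e (nat_lit 163868) (nat_lit 2) (.e (nat_lit 196663) (nat_lit 13) (.e (nat_lit 65571) (nat_lit 3) (.e (nat_lit 98342) (nat_lit 20) (.e (nat_lit 221215) (nat_lit 23) (.e (nat_lit 204828) (nat_lit 18) (.e (nat_lit 57926) (nat_lit 282) .nil))))))) (.g (nat_lit 1) (.e (nat_lit 145390) (nat_lit 0) .nil) .nil)))) (.nd (nat_lit 9) 
(.lf (nat_lit 490843) (.g (nat_lit 3757) (.e (nat_lit 163867) (nat_lit 2) (.e (nat_lit 196668) (nat_lit 14) (.e (nat_lit 73747) (nat_lit 3) (.e (nat_lit 516129) (nat_lit 3) (.e (nat_lit 221215) (nat_lit 23) (.e (nat_lit 204829) (nat_lit 18) (.e (nat_lit 57925) (nat_lit 282) .nil))))))) (.g (nat_lit 1) (.e (nat_lit 144807) (nat_lit 0) .nil) .nil))) 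
(.lf (nat_lit 491355) (.g (nat_lit 3586) (.e (nat_lit 163869) (nat_lit 2) (.e (nat_lit 196666) (nat_lit 13) (.e (nat_lit 65569) (nat_lit 3) (.e (nat_lit 98341) (nat_lit 20) (.e (nat_lit 221215) (nat_lit 23) (.e (nat_lit 204830) (nat_lit 18) (.e (nat_lit 57927) (nat_lit 282) .nil))))))) (.g (nat_lit 1) (.e (nat_lit 146016) (nat_lit 0) .nil) .nil))))) (.nd (nat_lit 8) (.nd (nat_lit 9) 
(.lf (nat_lit 490715) (.g (nat_lit 1448) (.e (nat_lit 163867) (nat_lit 2) (.e (nat_lit 196655) (nat_lit 11) (.e (nat_lit 16465) (nat_lit 13) (.e (nat_lit 483340) (nat_lit 9) .nil)))) (.g (nat_lit 0) (.e (nat_lit 144601) (nat_lit 0) .nil) .nil))) 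
(.lf (nat_lit 491227) (.g (nat_lit 2517) (.e (nat_lit 163868) (nat_lit 2) (.e (nat_lit 196670) (nat_lit 14) (.e (nat_lit 73746) (nat_lit 3) (.e (nat_lit 516126) (nat_lit 2) (.e (nat_lit 213036) (nat_lit 13) (.e (nat_lit 229433) (nat_lit 25) (.e (nat_lit 532499) (nat_lit 1) (.e (nat_lit 57926) (nat_lit 282) .nil)))))))) (.g (nat_lit 1) (.e (nat_lit 145662) (nat_lit 0) .nil) .nil)))) 
(.nd (nat_lit 9) 
(.lf (nat_lit 490971) (.g (nat_lit 3798) (.e (nat_lit 163867) (nat_lit 2) (.e (nat_lit 196670) (nat_lit 14) (.e (nat_lit 73753) (nat_lit 8) (.e (nat_lit 557103) (nat_lit 14) (.e (nat_lit 180244) (nat_lit 5) (.e (nat_lit 532501) (nat_lit 1) (.e (nat_lit 65280) (nat_lit 168) .nil))))))) (.g (nat_lit 1) (.e (nat_lit 145046) (nat_lit 0) .nil) .nil))) 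
(.lf (nat_lit 491483) (.g (nat_lit 4360) (.e (nat_lit 163869) (nat_lit 2) (.e (nat_lit 196666) (nat_lit 13) (.e (nat_lit 65610) (nat_lit 10) (.e (nat_lit 344117) (nat_lit 21) (.e (nat_lit 516151) (nat_lit 9) (.e (nat_lit 426042) (nat_lit 0) (.e (nat_lit 2425) (nat_lit 157) (.e (nat_lit 4848) (nat_lit 285) .nil)))))))) (.g (nat_lit 1) (.e (nat_lit 146223) (nat_lit 0) .nil) .nil))))))) 
(.nd (nat_lit 6) (.nd (nat_lit 7) (.nd (nat_lit 8) (.nd (nat_lit 9) 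
(.lf (nat_lit 490555) (.g (nat_lit 2063) (.e (nat_lit 163866) (nat_lit 2) (.e (nat_lit 196654) (nat_lit 11) (.e (nat_lit 16433) (nat_lit 9) (.e (nat_lit 426568) (nat_lit 34) (.e (nat_lit 393250) (nat_lit 18) .nil))))) (.g (nat_lit 0) (.e (nat_lit 144313) (nat_lit 0) .nil) .nil))) 
(.lf (nat_lit 491067) (.g (nat_lit 3310) (.e (nat_lit 163868) (nat_lit 2) (.e (nat_lit 196656) (nat_lit 11) (.e (nat_lit 16438) (nat_lit 9) (.e (nat_lit 426482) (nat_lit 27) (.e (nat_lit 336388) (nat_lit 27) (.e (nat_lit 426107) (nat_lit 1) (.e (nat_lit 164326) (nat_lit 230) .nil))))))) (.g (nat_lit 1) (.e (nat_lit 145344) (nat_lit 0) .nil) .nil)))) (.nd (nat_lit 9) 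
(.lf (nat_lit 490811) (.g (nat_lit 2794) (.e (nat_lit 163867) (nat_lit 2) (.e (nat_lit 196668) (nat_lit 14) (.e (nat_lit 73746) (nat_lit 3) (.e (nat_lit 516131) (nat_lit 3) (.e (nat_lit 221214) (nat_lit 23) (.e (nat_lit 204830) (nat_lit 18) (.e (nat_lit 57924) (nat_lit 282) .nil))))))) (.g (nat_lit 1) (.e (nat_lit 144753) (nat_lit 0) .nil) .nil))) 
(.lf (nat_lit 491323) (.g (nat_lit 4049) (.e (nat_lit 163869) (nat_lit 2) (.e (nat_lit 196656) (nat_lit 11) (.e (nat_lit 16463) (nat_lit 13) (.e (nat_lit 483341) (nat_lit 9) (.e (nat_lit 426100) (nat_lit 1) (.e (nat_lit 164332) (nat_lit 230) .nil)))))) (.g (nat_lit 1) (.e (nat_lit 145978) (nat_lit 0) .nil) .nil))))) (.nd (nat_lit 8) (.nd (nat_lit 9) 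
(.lf (nat_lit 490683) (.g (nat_lit 2977) (.e (nat_lit 163866) (nat_lit 2) (.e (nat_lit 196681) (nat_lit 17) (.e (nat_lit 131105) (nat_lit 9) (.e (nat_lit 336454) (nat_lit 34) (.e (nat_lit 483364) (nat_lit 18) (.e (nat_lit 57931) (nat_lit 282) .nil)))))) (.g (nat_lit 1) (.e (nat_lit 144488) (nat_lit 0) .nil) .nil))) 
(.lf (nat_lit 491195) (.g (nat_lit 3911) (.e (nat_lit 163868) (nat_lit 2) (.e (nat_lit 196668) (nat_lit 14) (.e (nat_lit 73747) (nat_lit 3) (.e (nat_lit 516131) (nat_lit 3) (.e (nat_lit 221214) (nat_lit 23) (.e (nat_lit 204829) (nat_lit 18) (.e (nat_lit 57928) (nat_lit 282) .nil))))))) (.g (nat_lit 1) (.e (nat_lit 145590) (nat_lit 0) .nil) .nil)))) (.nd (nat_lit 9) 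
(.lf (nat_lit 490939) (.g (nat_lit 2196) (.e (nat_lit 163867) (nat_lit 2) (.e (nat_lit 196670) (nat_lit 14) (.e (nat_lit 73746) (nat_lit 3) (.e (nat_lit 516131) (nat_lit 3) (.e (nat_lit 221213) (nat_lit 23) (.e (nat_lit 204830) (nat_lit 18) (.e (nat_lit 57929) (nat_lit 282) .nil))))))) (.g (nat_lit 1) (.e (nat_lit 144992) (nat_lit 0) .nil) .nil))) 
(.lf (nat_lit 491451) (.g (nat_lit 4117) (.e (nat_lit 163869) (nat_lit 2) (.e (nat_lit 196666) (nat_lit 13) (.e (nat_lit 65610) (nat_lit 10) (.e (nat_lit 344117) (nat_lit 21) (.e (nat_lit 516151) (nat_lit 9) (.e (nat_lit 426022) (nat_lit 0) (.e (nat_lit 2402) (nat_lit 157) (.e (nat_lit 4847) (nat_lit 285) .nil)))))))) (.g (nat_lit 1) (.e (nat_lit 146191) (nat_lit 0) .nil) .nil)))))) 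
(.nd (nat_lit 7) (.nd (nat_lit 8) (.nd (nat_lit 9) 
(.lf (nat_lit 490619) (.g (nat_lit 3386) (.e (nat_lit 163866) (nat_lit 2) (.e (nat_lit 196666) (nat_lit 13) (.e (nat_lit 65571) (nat_lit 3) (.e (nat_lit 98342) (nat_lit 20) (.e (nat_lit 221215) (nat_lit 23) (.e (nat_lit 204829) (nat_lit 18) (.e (nat_lit 57927) (nat_lit 282) .nil))))))) (.g (nat_lit 1) (.e (nat_lit 144391) (nat_lit 0) .nil) .nil))) 
(.lf (nat_lit 491131) (.g (nat_lit 3627) (.e (nat_lit 163868) (nat_lit 2) (.e (nat_lit 196668) (nat_lit 14) (.e (nat_lit 73746) (nat_lit 3) (.e (nat_lit 516129) (nat_lit 3) (.e (nat_lit 221215) (nat_lit 23) (.e (nat_lit 204829) (nat_lit 18) (.e (nat_lit 57928) (nat_lit 282) .nil))))))) (.g (nat_lit 1) (.e (nat_lit 145451) (nat_lit 0) .nil) .nil)))) (.nd (nat_lit 9) 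
(.lf (nat_lit 490875) (.g (nat_lit 4123) (.e (nat_lit 163867) (nat_lit 2) (.e (nat_lit 196668) (nat_lit 14) (.e (nat_lit 73753) (nat_lit 8) (.e (nat_lit 557103) (nat_lit 14) (.e (nat_lit 180243) (nat_lit 5) (.e (nat_lit 532499) (nat_lit 1) (.e (nat_lit 65280) (nat_lit 168) .nil))))))) (.g (nat_lit 1) (.e (nat_lit 144872) (nat_lit 0) .nil) .nil))) 
(.lf (nat_lit 491387) (.g (nat_lit 3991) (.e (nat_lit 163869) (nat_lit 2) (.e (nat_lit 196666) (nat_lit 13) (.e (nat_lit 65571) (nat_lit 3) (.e (nat_lit 98341) (nat_lit 20) (.e (nat_lit 221215) (nat_lit 23) (.e (nat_lit 204831) (nat_lit 18) (.e (nat_lit 57931) (nat_lit 282) .nil))))))) (.g (nat_lit 1) (.e (nat_lit 146058) (nat_lit 0) .nil) .nil))))) (.nd (nat_lit 8) (.nd (nat_lit 9) 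
(.lf (nat_lit 490747) (.g (nat_lit 2982) (.e (nat_lit 163867) (nat_lit 2) (.e (nat_lit 196663) (nat_lit 13) (.e (nat_lit 65571) (nat_lit 3) (.e (nat_lit 98341) (nat_lit 20) (.e (nat_lit 221196) (nat_lit 20) (.e (nat_lit 3248) (nat_lit 197) (.e (nat_lit 532503) (nat_lit 1) (.e (nat_lit 57931) (nat_lit 282) .nil)))))))) (.g (nat_lit 1) (.e (nat_lit 144659) (nat_lit 0) .nil) .nil))) 
(.lf (nat_lit 491259) (.g (nat_lit 3454) (.e (nat_lit 163868) (nat_lit 2) (.e (nat_lit 196670) (nat_lit 14) (.e (nat_lit 73753) (nat_lit 8) (.e (nat_lit 557103) (nat_lit 14) (.e (nat_lit 180243) (nat_lit 5) (.e (nat_lit 532499) (nat_lit 1) (.e (nat_lit 65280) (nat_lit 168) .nil))))))) (.g (nat_lit 1) (.e (nat_lit 145694) (nat_lit 0) .nil) .nil)))) (.nd (nat_lit 9) 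
(.lf (nat_lit 491003) (.g (nat_lit 1131) (.e (nat_lit 163867) (nat_lit 2) (.e (nat_lit 196674) (nat_lit 15) (.e (nat_lit 81925) (nat_lit 11) (.e (nat_lit 426521) (nat_lit 27) .nil)))) (.g (nat_lit 0) (.e (nat_lit 145177) (nat_lit 0) .nil) .nil))) 
(.lf (nat_lit 491515) (.g (nat_lit 2639) (.e (nat_lit 163869) (nat_lit 2) (.e (nat_lit 196666) (nat_lit 13) (.e (nat_lit 65610) (nat_lit 10) (.e (nat_lit 344117) (nat_lit 21) (.e (nat_lit 516159) (nat_lit 10) (.e (nat_lit 434201) (nat_lit 18) (.e (nat_lit 4848) (nat_lit 285) .nil))))))) (.g (nat_lit 1) (.e (nat_lit 146269) (nat_lit 0) .nil) .nil)))))))))) 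
(.nd (nat_lit 3) (.nd (nat_lit 4) (.nd (nat_lit 5) (.nd (nat_lit 6) (.nd (nat_lit 7) 
(.nd (nat_lit 8) (.nd (nat_lit 9) 
(.lf (nat_lit 490503) (.g (nat_lit 3267) (.e (nat_lit 163864) (nat_lit 1) (.e (nat_lit 164332) (nat_lit 230) (.e (nat_lit 163902) (nat_lit 12) (.e (nat_lit 426438) (nat_lit 18) (.e (nat_lit 98373) (nat_lit 29) (.e (nat_lit 450560) (nat_lit 0) (.e (nat_lit 6837) (nat_lit 369) .nil))))))) (.g (nat_lit 1) (.e (nat_lit 144149) (nat_lit 0) .nil) .nil))) 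
(.lf (nat_lit 491015) (.g (nat_lit 2060) (.e (nat_lit 163867) (nat_lit 2) (.e (nat_lit 196681) (nat_lit 17) (.e (nat_lit 131109) (nat_lit 9) (.e (nat_lit 336454) (nat_lit 34) (.e (nat_lit 483366) (nat_lit 18) (.e (nat_lit 57929) (nat_lit 282) .nil)))))) (.g (nat_lit 1) (.e (nat_lit 145202) (nat_lit 0) .nil) .nil)))) (.nd (nat_lit 9) 
(.lf (nat_lit 490759) (.g (nat_lit 2479) (.e (nat_lit 163867) (nat_lit 2) (.e (nat_lit 196663) (nat_lit 13) (.e (nat_lit 65571) (nat_lit 3) (.e (nat_lit 98342) (nat_lit 20) (.e (nat_lit 221214) (nat_lit 23) (.e (nat_lit 204829) (nat_lit 18) (.e (nat_lit 57924) (nat_lit 282) .nil))))))) (.g (nat_lit 1) (.e (nat_lit 144673) (nat_lit 0) .nil) .nil))) 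
(.lf (nat_lit 491271) (.g (nat_lit 1132) (.e (nat_lit 163868) (nat_lit 2) (.e (nat_lit 196672) (nat_lit 15) (.e (nat_lit 81927) (nat_lit 11) (.e (nat_lit 426500) (nat_lit 27) (.e (nat_lit 335987) (nat_lit 1) (.e (nat_lit 57928) (nat_lit 282) .nil)))))) (.g (nat_lit 1) (.e (nat_lit 145707) (nat_lit 0) .nil) .nil))))) (.nd (nat_lit 8) (.nd (nat_lit 9) 
(.lf (nat_lit 490631) (.g (nat_lit 1919) (.e (nat_lit 163866) (nat_lit 2) (.e (nat_lit 196666) (nat_lit 13) (.e (nat_lit 65625) (nat_lit 13) (.e (nat_lit 393229) (nat_lit 9) (.e (nat_lit 335988) (nat_lit 1) .nil))))) (.g (nat_lit 0) (.e (nat_lit 144408) (nat_lit 0) .nil) .nil))) 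
(.lf (nat_lit 491143) (.g (nat_lit 2721) (.e (nat_lit 163868) (nat_lit 2) (.e (nat_lit 196668) (nat_lit 14) (.e (nat_lit 73746) (nat_lit 3) (.e (nat_lit 516131) (nat_lit 3) (.e (nat_lit 221215) (nat_lit 23) (.e (nat_lit 204828) (nat_lit 18) (.e (nat_lit 57928) (nat_lit 282) .nil))))))) (.g (nat_lit 1) (.e (nat_lit 145475) (nat_lit 0) .nil) .nil)))) (.nd (nat_lit 9) 
(.lf (nat_lit 490887) (.g (nat_lit 3534) (.e (nat_lit 163867) (nat_lit 2) (.e (nat_lit 196669) (nat_lit 14) (.e (nat_lit 73755) (nat_lit 8) (.e (nat_lit 557104) (nat_lit 14) (.e (nat_lit 180244) (nat_lit 5) (.e (nat_lit 532499) (nat_lit 1) (.e (nat_lit 65280) (nat_lit 168) .nil))))))) (.g (nat_lit 1) (.e (nat_lit 144889) (nat_lit 0) .nil) .nil))) 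
(.lf (nat_lit 491399) (.g (nat_lit 3889) (.e (nat_lit 163869) (nat_lit 2) (.e (nat_lit 196666) (nat_lit 13) (.e (nat_lit 65571) (nat_lit 3) (.e (nat_lit 98342) (nat_lit 20) (.e (nat_lit 221214) (nat_lit 23) (.e (nat_lit 204829) (nat_lit 18) (.e (nat_lit 57926) (nat_lit 282) .nil))))))) (.g (nat_lit 1) (.e (nat_lit 146074) (nat_lit 0) .nil) .nil)))))) 
(.nd (nat_lit 7) (.nd (nat_lit 8) (.nd (nat_lit 9) 
(.lf (nat_lit 490567) (.g (nat_lit 2084) (.e (nat_lit 163866) (nat_lit 2) (.e (nat_lit 196654) (nat_lit 11) (.e (nat_lit 16463) (nat_lit 13) (.e (nat_lit 483341) (nat_lit 9) (.e (nat_lit 426105) (nat_lit 1) .nil))))) (.g (nat_lit 0) (.e (nat_lit 144328) (nat_lit 0) .nil) .nil))) 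
(.lf (nat_lit 491079) (.g (nat_lit 2074) (.e (nat_lit 163868) (nat_lit 2) (.e (nat_lit 196663) (nat_lit 13) (.e (nat_lit 65569) (nat_lit 3) (.e (nat_lit 98341) (nat_lit 20) (.e (nat_lit 221215) (nat_lit 23) (.e (nat_lit 204829) (nat_lit 18) (.e (nat_lit 57927) (nat_lit 282) .nil))))))) (.g (nat_lit 1) (.e (nat_lit 145368) (nat_lit 0) .nil) .nil)))) (.nd (nat_lit 9) 
(.lf (nat_lit 490823) (.g (nat_lit 4180) (.e (nat_lit 163867) (nat_lit 2) (.e (nat_lit 196668) (nat_lit 14) (.e (nat_lit 73746) (nat_lit 3) (.e (nat_lit 516131) (nat_lit 3) (.e (nat_lit 221215) (nat_lit 23) (.e (nat_lit 204831) (nat_lit 18) (.e (nat_lit 57931) (nat_lit 282) .nil))))))) (.g (nat_lit 1) (.e (nat_lit 144765) (nat_lit 0) .nil) .nil))) 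
(.lf (nat_lit 491335) (.g (nat_lit 2451) (.e (nat_lit 163869) (nat_lit 2) (.e (nat_lit 196663) (nat_lit 13) (.e (nat_lit 65571) (nat_lit 3) (.e (nat_lit 98341) (nat_lit 20) (.e (nat_lit 221214) (nat_lit 23) (.e (nat_lit 204830) (nat_lit 18) (.e (nat_lit 57926) (nat_lit 282) .nil))))))) (.g (nat_lit 1) (.e (nat_lit 145994) (nat_lit 0) .nil) .nil))))) (.nd (nat_lit 8) (.nd (nat_lit 9) 
(.lf (nat_lit 490695) (.g (nat_lit 3346) (.e (nat_lit 163866) (nat_lit 2) (.e (nat_lit 196681) (nat_lit 17) (.e (nat_lit 131109) (nat_lit 9) (.e (nat_lit 336454) (nat_lit 34) (.e (nat_lit 483365) (nat_lit 18) (.e (nat_lit 57931) (nat_lit 282) .nil)))))) (.g (nat_lit 1) (.e (nat_lit 144509) (nat_lit 0) .nil) .nil))) 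
(.lf (nat_lit 491207) (.g (nat_lit 3604) (.e (nat_lit 163868) (nat_lit 2) (.e (nat_lit 196668) (nat_lit 14) (.e (nat_lit 73747) (nat_lit 3) (.e (nat_lit 516131) (nat_lit 3) (.e (nat_lit 221215) (nat_lit 23) (.e (nat_lit 204830) (nat_lit 18) (.e (nat_lit 57925) (nat_lit 282) .nil))))))) (.g (nat_lit 1) (.e (nat_lit 145603) (nat_lit 0) .nil) .nil)))) (.nd (nat_lit 9) 
(.lf (nat_lit 490951) (.g (nat_lit 3568) (.e (nat_lit 163867) (nat_lit 2) (.e (nat_lit 196670) (nat_lit 14) (.e (nat_lit 73746) (nat_lit 3) (.e (nat_lit 516131) (nat_lit 3) (.e (nat_lit 221215) (nat_lit 23) (.e (nat_lit 204829) (nat_lit 18) (.e (nat_lit 57924) (nat_lit 282) .nil))))))) (.g (nat_lit 1) (.e (nat_lit 145004) (nat_lit 0) .nil) .nil))) 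
(.lf (nat_lit 491463) (.g (nat_lit 3192) (.e (nat_lit 163869) (nat_lit 2) (.e (nat_lit 196666) (nat_lit 13) (.e (nat_lit 65610) (nat_lit 10) (.e (nat_lit 344117) (nat_lit 21) (.e (nat_lit 516151) (nat_lit 9) (.e (nat_lit 426037) (nat_lit 0) (.e (nat_lit 2458) (nat_lit 157) (.e (nat_lit 7936) (nat_lit 285) .nil)))))))) (.g (nat_lit 1) (.e (nat_lit 146203) (nat_lit 0) .nil) .nil))))))) 
(.nd (nat_lit 6) (.nd (nat_lit 7) (.nd (nat_lit 8) (.nd (nat_lit 9) 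
(.lf (nat_lit 490535) (.g (nat_lit 3837) (.e (nat_lit 163864) (nat_lit 1) (.e (nat_lit 164332) (nat_lit 230) (.e (nat_lit 163905) (nat_lit 12) (.e (nat_lit 426472) (nat_lit 25) (.e (nat_lit 319534) (nat_lit 16) (.e (nat_lit 286756) (nat_lit 10) (.e (nat_lit 344099) (nat_lit 18) (.e (nat_lit 7290) (nat_lit 386) .nil)))))))) (.g (nat_lit 1) (.e (nat_lit 144195) (nat_lit 0) .nil) .nil))) 
(.lf (nat_lit 491047) (.g (nat_lit 1207) (.e (nat_lit 163868) (nat_lit 2) (.e (nat_lit 196654) (nat_lit 11) (.e (nat_lit 16463) (nat_lit 13) (.e (nat_lit 491264) (nat_lit 10) .nil)))) (.g (nat_lit 0) (.e (nat_lit 145299) (nat_lit 0) .nil) .nil)))) (.nd (nat_lit 9) 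
(.lf (nat_lit 490791) (.g (nat_lit 2954) (.e (nat_lit 163867) (nat_lit 2) (.e (nat_lit 196668) (nat_lit 14) (.e (nat_lit 73746) (nat_lit 3) (.e (nat_lit 516129) (nat_lit 3) (.e (nat_lit 221214) (nat_lit 23) (.e (nat_lit 204829) (nat_lit 18) (.e (nat_lit 57927) (nat_lit 282) .nil))))))) (.g (nat_lit 1) (.e (nat_lit 144730) (nat_lit 0) .nil) .nil))) 
(.lf (nat_lit 491303) (.g (nat_lit 3117) (.e (nat_lit 163869) (nat_lit 2) (.e (nat_lit 196654) (nat_lit 11) (.e (nat_lit 16463) (nat_lit 13) (.e (nat_lit 483337) (nat_lit 9) (.e (nat_lit 426108) (nat_lit 1) (.e (nat_lit 164329) (nat_lit 230) .nil)))))) (.g (nat_lit 1) (.e (nat_lit 145945) (nat_lit 0) .nil) .nil))))) (.nd (nat_lit 8) (.nd (nat_lit 9) 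
(.lf (nat_lit 490663) (.g (nat_lit 2075) (.e (nat_lit 163866) (nat_lit 2) (.e (nat_lit 196670) (nat_lit 14) (.e (nat_lit 73746) (nat_lit 3) (.e (nat_lit 516129) (nat_lit 3) (.e (nat_lit 221215) (nat_lit 23) .nil))))) (.g (nat_lit 0) (.e (nat_lit 144455) (nat_lit 0) .nil) .nil))) 
(.lf (nat_lit 491175) (.g (nat_lit 2559) (.e (nat_lit 163868) (nat_lit 2) (.e (nat_lit 196668) (nat_lit 14) (.e (nat_lit 73747) (nat_lit 3) (.e (nat_lit 516129) (nat_lit 3) (.e (nat_lit 221215) (nat_lit 23) (.e (nat_lit 204829) (nat_lit 18) (.e (nat_lit 57924) (nat_lit 282) .nil))))))) (.g (nat_lit 1) (.e (nat_lit 145549) (nat_lit 0) .nil) .nil)))) (.nd (nat_lit 9) 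
(.lf (nat_lit 490919) (.g (nat_lit 2855) (.e (nat_lit 163867) (nat_lit 2) (.e (nat_lit 196670) (nat_lit 14) (.e (nat_lit 73746) (nat_lit 3) (.e (nat_lit 516129) (nat_lit 3) (.e (nat_lit 221215) (nat_lit 23) (.e (nat_lit 204828) (nat_lit 18) (.e (nat_lit 57925) (nat_lit 282) .nil))))))) (.g (nat_lit 1) (.e (nat_lit 144969) (nat_lit 0) .nil) .nil))) 
(.lf (nat_lit 491431) (.g (nat_lit 2876) (.e (nat_lit 163869) (nat_lit 2) (.e (nat_lit 196666) (nat_lit 13) (.e (nat_lit 65610) (nat_lit 10) (.e (nat_lit 344117) (nat_lit 21) (.e (nat_lit 516145) (nat_lit 9) (.e (nat_lit 426452) (nat_lit 21) (.e (nat_lit 130816) (nat_lit 174) .nil))))))) (.g (nat_lit 1) (.e (nat_lit 146171) (nat_lit 0) .nil) .nil)))))) 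
(.nd (nat_lit 7) (.nd (nat_lit 8) (.nd (nat_lit 9) 
(.lf (nat_lit 490599) (.g (nat_lit 3028) (.e (nat_lit 163866) (nat_lit 2) (.e (nat_lit 196666) (nat_lit 13) (.e (nat_lit 65569) (nat_lit 3) (.e (nat_lit 98342) (nat_lit 20) (.e (nat_lit 221214) (nat_lit 23) (.e (nat_lit 204830) (nat_lit 18) (.e (nat_lit 57931) (nat_lit 282) .nil))))))) (.g (nat_lit 1) (.e (nat_lit 144370) (nat_lit 0) .nil) .nil))) 
(.lf (nat_lit 491111) (.g (nat_lit 2599) (.e (nat_lit 163868) (nat_lit 2) (.e (nat_lit 196666) (nat_lit 13) (.e (nat_lit 65571) (nat_lit 3) (.e (nat_lit 98341) (nat_lit 20) (.e (nat_lit 221204) (nat_lit 20) .nil))))) (.g (nat_lit 0) (.e (nat_lit 145404) (nat_lit 0) .nil) .nil)))) (.nd (nat_lit 9) 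
(.lf (nat_lit 490855) (.g (nat_lit 2680) (.e (nat_lit 163867) (nat_lit 2) (.e (nat_lit 196668) (nat_lit 14) (.e (nat_lit 73747) (nat_lit 3) (.e (nat_lit 516130) (nat_lit 3) (.e (nat_lit 221214) (nat_lit 23) (.e (nat_lit 204830) (nat_lit 18) (.e (nat_lit 57924) (nat_lit 282) .nil))))))) (.g (nat_lit 1) (.e (nat_lit 144819) (nat_lit 0) .nil) .nil))) 
(.lf (nat_lit 491367) (.g (nat_lit 3612) (.e (nat_lit 163869) (nat_lit 2) (.e (nat_lit 196666) (nat_lit 13) (.e (nat_lit 65569) (nat_lit 3) (.e (nat_lit 98342) (nat_lit 20) (.e (nat_lit 221215) (nat_lit 23) (.e (nat_lit 204830) (nat_lit 18) (.e (nat_lit 57926) (nat_lit 282) .nil))))))) (.g (nat_lit 1) (.e (nat_lit 146029) (nat_lit 0) .nil) .nil))))) (.nd (nat_lit 8) (.nd (nat_lit 9) 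
(.lf (nat_lit 490727) (.g (nat_lit 3488) (.e (nat_lit 163867) (nat_lit 2) (.e (nat_lit 196656) (nat_lit 11) (.e (nat_lit 16433) (nat_lit 9) (.e (nat_lit 426568) (nat_lit 34) (.e (nat_lit 393252) (nat_lit 18) (.e (nat_lit 164332) (nat_lit 230) .nil)))))) (.g (nat_lit 1) (.e (nat_lit 144618) (nat_lit 0) .nil) .nil))) 
(.lf (nat_lit 491239) (.g (nat_lit 3655) (.e (nat_lit 163868) (nat_lit 2) (.e (nat_lit 196670) (nat_lit 14) (.e (nat_lit 73746) (nat_lit 3) (.e (nat_lit 516129) (nat_lit 3) (.e (nat_lit 221214) (nat_lit 23) (.e (nat_lit 204829) (nat_lit 18) (.e (nat_lit 57928) (nat_lit 282) .nil))))))) (.g (nat_lit 1) (.e (nat_lit 145674) (nat_lit 0) .nil) .nil)))) (.nd (nat_lit 9) 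
(.lf (nat_lit 490983) (.g (nat_lit 3120) (.e (nat_lit 163867) (nat_lit 2) (.e (nat_lit 196670) (nat_lit 14) (.e (nat_lit 73754) (nat_lit 8) (.e (nat_lit 557105) (nat_lit 14) (.e (nat_lit 180245) (nat_lit 5) (.e (nat_lit 532499) (nat_lit 1) (.e (nat_lit 65280) (nat_lit 168) .nil))))))) (.g (nat_lit 1) (.e (nat_lit 145063) (nat_lit 0) .nil) .nil))) 
(.lf (nat_lit 491495) (.g (nat_lit 3204) (.e (nat_lit 163869) (nat_lit 2) (.e (nat_lit 196666) (nat_lit 13) (.e (nat_lit 65610) (nat_lit 10) (.e (nat_lit 344117) (nat_lit 21) (.e (nat_lit 516151) (nat_lit 9) (.e (nat_lit 426049) (nat_lit 0) (.e (nat_lit 2416) (nat_lit 157) (.e (nat_lit 4848) (nat_lit 285) .nil)))))))) (.g (nat_lit 1) (.e (nat_lit 146235) (nat_lit 0) .nil) .nil)))))))) 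
(.nd (nat_lit 5) (.nd (nat_lit 6) (.nd (nat_lit 7) (.nd (nat_lit 8) (.nd (nat_lit 9) 
(.lf (nat_lit 490519) (.g (nat_lit 2765) (.e (nat_lit 163864) (nat_lit 1) (.e (nat_lit 164332) (nat_lit 230) (.e (nat_lit 163905) (nat_lit 12) (.e (nat_lit 426112) (nat_lit 1) (.e (nat_lit 164177) (nat_lit 154) (.e (nat_lit 57436) (nat_lit 17) (.e (nat_lit 376860) (nat_lit 21) (.e (nat_lit 57691) (nat_lit 156) .nil)))))))) (.g (nat_lit 1) (.e (nat_lit 144166) (nat_lit 0) .nil) .nil))) 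
(.lf (nat_lit 491031) (.g (nat_lit 3626) (.e (nat_lit 163868) (nat_lit 2) (.e (nat_lit 196654) (nat_lit 11) (.e (nat_lit 16433) (nat_lit 9) (.e (nat_lit 426568) (nat_lit 34) (.e (nat_lit 393253) (nat_lit 18) (.e (nat_lit 164327) (nat_lit 230) .nil)))))) (.g (nat_lit 1) (.e (nat_lit 145275) (nat_lit 0) .nil) .nil)))) (.nd (nat_lit 9) 
(.lf (nat_lit 490775) (.g (nat_lit 2505) (.e (nat_lit 163867) (nat_lit 2) (.e (nat_lit 196664) (nat_lit 13) (.e (nat_lit 65571) (nat_lit 3) (.e (nat_lit 98341) (nat_lit 20) (.e (nat_lit 221215) (nat_lit 23) (.e (nat_lit 204829) (nat_lit 18) (.e (nat_lit 57931) (nat_lit 282) .nil))))))) (.g (nat_lit 1) (.e (nat_lit 144690) (nat_lit 0) .nil) .nil))) 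
(.lf (nat_lit 491287) (.g (nat_lit 642) (.e (nat_lit 163869) (nat_lit 2) (.e (nat_lit 196624) (nat_lit 9) (.e (nat_lit 477) (nat_lit 37) .nil))) (.g (nat_lit 0) (.e (nat_lit 145927) (nat_lit 0) .nil) .nil))))) (.nd (nat_lit 8) (.nd (nat_lit 9) 
(.lf (nat_lit 490647) (.g (nat_lit 1963) (.e (nat_lit 163866) (nat_lit 2) (.e (nat_lit 196668) (nat_lit 14) (.e (nat_lit 73747) (nat_lit 3) (.e (nat_lit 516131) (nat_lit 3) (.e (nat_lit 221214) (nat_lit 23) (.e (nat_lit 204830) (nat_lit 18) (.e (nat_lit 57929) (nat_lit 282) .nil))))))) (.g (nat_lit 1) (.e (nat_lit 144438) (nat_lit 0) .nil) .nil))) 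
(.lf (nat_lit 491159) (.g (nat_lit 2630) (.e (nat_lit 163868) (nat_lit 2) (.e (nat_lit 196668) (nat_lit 14) (.e (nat_lit 73747) (nat_lit 3) (.e (nat_lit 516129) (nat_lit 3) (.e (nat_lit 221214) (nat_lit 23) (.e (nat_lit 204828) (nat_lit 18) (.e (nat_lit 57926) (nat_lit 282) .nil))))))) (.g (nat_lit 1) (.e (nat_lit 145529) (nat_lit 0) .nil) .nil)))) (.nd (nat_lit 9) 
(.lf (nat_lit 490903) (.g (nat_lit 2234) (.e (nat_lit 163867) (nat_lit 2) (.e (nat_lit 196670) (nat_lit 14) (.e (nat_lit 73746) (nat_lit 3) (.e (nat_lit 516129) (nat_lit 3) (.e (nat_lit 221213) (nat_lit 23) (.e (nat_lit 204830) (nat_lit 18) (.e (nat_lit 57929) (nat_lit 282) .nil))))))) (.g (nat_lit 1) (.e (nat_lit 144953) (nat_lit 0) .nil) .nil))) 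
(.lf (nat_lit 491415) (.g (nat_lit 2410) (.e (nat_lit 163869) (nat_lit 2) (.e (nat_lit 196666) (nat_lit 13) (.e (nat_lit 65591) (nat_lit 9) (.e (nat_lit 336456) (nat_lit 34) (.e (nat_lit 483363) (nat_lit 18) (.e (nat_lit 57927) (nat_lit 282) .nil)))))) (.g (nat_lit 1) (.e (nat_lit 146099) (nat_lit 0) .nil) .nil)))))) (.nd (nat_lit 7) (.nd (nat_lit 8) (.nd (nat_lit 9) 
(.lf (nat_lit 490583) (.g (nat_lit 1717) (.e (nat_lit 163866) (nat_lit 2) (.e (nat_lit 196665) (nat_lit 13) (.e (nat_lit 65625) (nat_lit 13) (.e (nat_lit 393229) (nat_lit 9) (.e (nat_lit 335995) (nat_lit 1) (.e (nat_lit 57931) (nat_lit 282) .nil)))))) (.g (nat_lit 1) (.e (nat_lit 144351) (nat_lit 0) .nil) .nil))) 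
(.lf (nat_lit 491095) (.g (nat_lit 2979) (.e (nat_lit 163868) (nat_lit 2) (.e (nat_lit 196663) (nat_lit 13) (.e (nat_lit 65571) (nat_lit 3) (.e (nat_lit 98342) (nat_lit 20) (.e (nat_lit 221204) (nat_lit 20) (.e (nat_lit 3253) (nat_lit 197) (.e (nat_lit 532501) (nat_lit 1) (.e (nat_lit 57928) (nat_lit 282) .nil)))))))) (.g (nat_lit 1) (.e (nat_lit 145386) (nat_lit 0) .nil) .nil)))) 
(.nd (nat_lit 9) 
(.lf (nat_lit 490839) (.g (nat_lit 4494) (.e (nat_lit 163867) (nat_lit 2) (.e (nat_lit 196668) (nat_lit 14) (.e (nat_lit 73747) (nat_lit 3) (.e (nat_lit 516129) (nat_lit 3) (.e (nat_lit 221214) (nat_lit 23) (.e (nat_lit 204830) (nat_lit 18) (.e (nat_lit 57931) (nat_lit 282) .nil))))))) (.g (nat_lit 1) (.e (nat_lit 144800) (nat_lit 0) .nil) .nil))) 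
(.lf (nat_lit 491351) (.g (nat_lit 3864) (.e (nat_lit 163869) (nat_lit 2) (.e (nat_lit 196666) (nat_lit 13) (.e (nat_lit 65569) (nat_lit 3) (.e (nat_lit 98341) (nat_lit 20) (.e (nat_lit 221214) (nat_lit 23) (.e (nat_lit 204830) (nat_lit 18) (.e (nat_lit 57927) (nat_lit 282) .nil))))))) (.g (nat_lit 1) (.e (nat_lit 146012) (nat_lit 0) .nil) .nil))))) (.nd (nat_lit 8) (.nd (nat_lit 9) 
(.lf (nat_lit 490711) (.g (nat_lit 1446) (.e (nat_lit 163867) (nat_lit 2) (.e (nat_lit 196654) (nat_lit 11) (.e (nat_lit 16466) (nat_lit 13) (.e (nat_lit 483340) (nat_lit 9) .nil)))) (.g (nat_lit 0) (.e (nat_lit 144596) (nat_lit 0) .nil) .nil))) 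
(.lf (nat_lit 491223) (.g (nat_lit 2153) (.e (nat_lit 163868) (nat_lit 2) (.e (nat_lit 196670) (nat_lit 14) (.e (nat_lit 73746) (nat_lit 3) (.e (nat_lit 516122) (nat_lit 2) (.e (nat_lit 213034) (nat_lit 12) (.e (nat_lit 163963) (nat_lit 25) (.e (nat_lit 532499) (nat_lit 1) (.e (nat_lit 57927) (nat_lit 282) .nil)))))))) (.g (nat_lit 1) (.e (nat_lit 145658) (nat_lit 0) .nil) .nil)))) 
(.nd (nat_lit 9) 
(.lf (nat_lit 490967) (.g (nat_lit 4246) (.e (nat_lit 163867) (nat_lit 2) (.e (nat_lit 196670) (nat_lit 14) (.e (nat_lit 73753) (nat_lit 8) (.e (nat_lit 557103) (nat_lit 14) (.e (nat_lit 180243) (nat_lit 5) (.e (nat_lit 532501) (nat_lit 1) (.e (nat_lit 65280) (nat_lit 168) .nil))))))) (.g (nat_lit 1) (.e (nat_lit 145041) (nat_lit 0) .nil) .nil))) 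
(.lf (nat_lit 491479) (.g (nat_lit 3992) (.e (nat_lit 163869) (nat_lit 2) (.e (nat_lit 196666) (nat_lit 13) (.e (nat_lit 65610) (nat_lit 10) (.e (nat_lit 344117) (nat_lit 21) (.e (nat_lit 516151) (nat_lit 9) (.e (nat_lit 426042) (nat_lit 0) (.e (nat_lit 2423) (nat_lit 157) (.e (nat_lit 7936) (nat_lit 285) .nil)))))))) (.g (nat_lit 1) (.e (nat_lit 146219) (nat_lit 0) .nil) .nil))))))) 
(.nd (nat_lit 6) (.nd (nat_lit 7) (.nd (nat_lit 8) (.nd (nat_lit 9) 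
(.lf (nat_lit 490551) (.g (nat_lit 343) (.e (nat_lit 163866) (nat_lit 2) (.e (nat_lit 196653) (nat_lit 11) (.e (nat_lit 16465) (nat_lit 13) .nil))) (.g (nat_lit 0) (.e (nat_lit 144305) (nat_lit 0) .nil) .nil))) 
(.lf (nat_lit 491063) (.g (nat_lit 3125) (.e (nat_lit 163868) (nat_lit 2) (.e (nat_lit 196656) (nat_lit 11) (.e (nat_lit 16433) (nat_lit 9) (.e (nat_lit 426566) (nat_lit 34) (.e (nat_lit 393254) (nat_lit 18) (.e (nat_lit 164325) (nat_lit 230) .nil)))))) (.g (nat_lit 1) (.e (nat_lit 145340) (nat_lit 0) .nil) .nil)))) (.nd (nat_lit 9) 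
(.lf (nat_lit 490807) (.g (nat_lit 2515) (.e (nat_lit 163867) (nat_lit 2) (.e (nat_lit 196668) (nat_lit 14) (.e (nat_lit 73746) (nat_lit 3) (.e (nat_lit 516129) (nat_lit 3) (.e (nat_lit 221215) (nat_lit 23) (.e (nat_lit 204830) (nat_lit 18) (.e (nat_lit 57929) (nat_lit 282) .nil))))))) (.g (nat_lit 1) (.e (nat_lit 144746) (nat_lit 0) .nil) .nil))) 
(.lf (nat_lit 491319) (.g (nat_lit 2235) (.e (nat_lit 163869) (nat_lit 2) (.e (nat_lit 196656) (nat_lit 11) (.e (nat_lit 16438) (nat_lit 9) (.e (nat_lit 426482) (nat_lit 27) (.e (nat_lit 336388) (nat_lit 27) .nil))))) (.g (nat_lit 0) (.e (nat_lit 145973) (nat_lit 0) .nil) .nil))))) (.nd (nat_lit 8) (.nd (nat_lit 9) 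
(.lf (nat_lit 490679) (.g (nat_lit 2792) (.e (nat_lit 163866) (nat_lit 2) (.e (nat_lit 196681) (nat_lit 17) (.e (nat_lit 131105) (nat_lit 9) (.e (nat_lit 336454) (nat_lit 34) (.e (nat_lit 483363) (nat_lit 18) (.e (nat_lit 57927) (nat_lit 282) .nil)))))) (.g (nat_lit 1) (.e (nat_lit 144484) (nat_lit 0) .nil) .nil))) 
(.lf (nat_lit 491191) (.g (nat_lit 2440) (.e (nat_lit 163868) (nat_lit 2) (.e (nat_lit 196668) (nat_lit 14) (.e (nat_lit 73747) (nat_lit 3) (.e (nat_lit 516131) (nat_lit 3) (.e (nat_lit 221213) (nat_lit 23) (.e (nat_lit 204830) (nat_lit 18) (.e (nat_lit 57924) (nat_lit 282) .nil))))))) (.g (nat_lit 1) (.e (nat_lit 145586) (nat_lit 0) .nil) .nil)))) (.nd (nat_lit 9) 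
(.lf (nat_lit 490935) (.g (nat_lit 2567) (.e (nat_lit 163867) (nat_lit 2) (.e (nat_lit 196670) (nat_lit 14) (.e (nat_lit 73746) (nat_lit 3) (.e (nat_lit 516131) (nat_lit 3) (.e (nat_lit 221197) (nat_lit 20) (.e (nat_lit 3230) (nat_lit 197) (.e (nat_lit 532503) (nat_lit 1) (.e (nat_lit 57924) (nat_lit 282) .nil)))))))) (.g (nat_lit 1) (.e (nat_lit 144985) (nat_lit 0) .nil) .nil))) 
(.lf (nat_lit 491447) (.g (nat_lit 4955) (.e (nat_lit 163869) (nat_lit 2) (.e (nat_lit 196666) (nat_lit 13) (.e (nat_lit 65610) (nat_lit 10) (.e (nat_lit 344117) (nat_lit 21) (.e (nat_lit 516151) (nat_lit 9) (.e (nat_lit 426022) (nat_lit 0) (.e (nat_lit 2397) (nat_lit 157) (.e (nat_lit 4847) (nat_lit 285) .nil)))))))) (.g (nat_lit 1) (.e (nat_lit 146187) (nat_lit 0) .nil) .nil)))))) 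
(.nd (nat_lit 7) (.nd (nat_lit 8) (.nd (nat_lit 9) 
(.lf (nat_lit 490615) (.g (nat_lit 3019) (.e (nat_lit 163866) (nat_lit 2) (.e (nat_lit 196666) (nat_lit 13) (.e (nat_lit 65571) (nat_lit 3) (.e (nat_lit 98342) (nat_lit 20) (.e (nat_lit 221214) (nat_lit 23) (.e (nat_lit 204829) (nat_lit 18) (.e (nat_lit 57931) (nat_lit 282) .nil))))))) (.g (nat_lit 1) (.e (nat_lit 144387) (nat_lit 0) .nil) .nil))) 
(.lf (nat_lit 491127) (.g (nat_lit 3340) (.e (nat_lit 163868) (nat_lit 2) (.e (nat_lit 196668) (nat_lit 14) (.e (nat_lit 73746) (nat_lit 3) (.e (nat_lit 516129) (nat_lit 3) (.e (nat_lit 221215) (nat_lit 23) (.e (nat_lit 204828) (nat_lit 18) (.e (nat_lit 57927) (nat_lit 282) .nil))))))) (.g (nat_lit 1) (.e (nat_lit 145447) (nat_lit 0) .nil) .nil)))) (.nd (nat_lit 9) 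
(.lf (nat_lit 490871) (.g (nat_lit 3103) (.e (nat_lit 163867) (nat_lit 2) (.e (nat_lit 196668) (nat_lit 14) (.e (nat_lit 73747) (nat_lit 3) (.e (nat_lit 516131) (nat_lit 3) (.e (nat_lit 221215) (nat_lit 23) (.e (nat_lit 204830) (nat_lit 18) (.e (nat_lit 57929) (nat_lit 282) .nil))))))) (.g (nat_lit 1) (.e (nat_lit 144845) (nat_lit 0) .nil) .nil))) 
(.lf (nat_lit 491383) (.g (nat_lit 3130) (.e (nat_lit 163869) (nat_lit 2) (.e (nat_lit 196666) (nat_lit 13) (.e (nat_lit 65571) (nat_lit 3) (.e (nat_lit 98341) (nat_lit 20) (.e (nat_lit 221215) (nat_lit 23) (.e (nat_lit 204829) (nat_lit 18) (.e (nat_lit 57926) (nat_lit 282) .nil))))))) (.g (nat_lit 1) (.e (nat_lit 146054) (nat_lit 0) .nil) .nil))))) (.nd (nat_lit 8) (.nd (nat_lit 9) 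
(.lf (nat_lit 490743) (.g (nat_lit 3078) (.e (nat_lit 163867) (nat_lit 2) (.e (nat_lit 196663) (nat_lit 13) (.e (nat_lit 65569) (nat_lit 3) (.e (nat_lit 98342) (nat_lit 20) (.e (nat_lit 221214) (nat_lit 23) (.e (nat_lit 204831) (nat_lit 18) (.e (nat_lit 57931) (nat_lit 282) .nil))))))) (.g (nat_lit 1) (.e (nat_lit 144654) (nat_lit 0) .nil) .nil))) 
(.lf (nat_lit 491255) (.g (nat_lit 4055) (.e (nat_lit 163868) (nat_lit 2) (.e (nat_lit 196670) (nat_lit 14) (.e (nat_lit 73746) (nat_lit 3) (.e (nat_lit 516131) (nat_lit 3) (.e (nat_lit 221215) (nat_lit 23) (.e (nat_lit 204830) (nat_lit 18) (.e (nat_lit 57927) (nat_lit 282) .nil))))))) (.g (nat_lit 1) (.e (nat_lit 145690) (nat_lit 0) .nil) .nil)))) (.nd (nat_lit 9) 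
(.lf (nat_lit 490999) (.g (nat_lit 2382) (.e (nat_lit 163867) (nat_lit 2) (.e (nat_lit 196674) (nat_lit 15) (.e (nat_lit 81925) (nat_lit 11) (.e (nat_lit 426500) (nat_lit 27) (.e (nat_lit 335995) (nat_lit 1) (.e (nat_lit 57924) (nat_lit 282) .nil)))))) (.g (nat_lit 1) (.e (nat_lit 145173) (nat_lit 0) .nil) .nil))) 
(.lf (nat_lit 491511) (.g (nat_lit 3082) (.e (nat_lit 163869) (nat_lit 2) (.e (nat_lit 196666) (nat_lit 13) (.e (nat_lit 65610) (nat_lit 10) (.e (nat_lit 344117) (nat_lit 21) (.e (nat_lit 516159) (nat_lit 10) (.e (nat_lit 434199) (nat_lit 18) (.e (nat_lit 7936) (nat_lit 285) .nil))))))) (.g (nat_lit 1) (.e (nat_lit 146265) (nat_lit 0) .nil) .nil))))))))) 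
(.nd (nat_lit 4) (.nd (nat_lit 5) (.nd (nat_lit 6) (.nd (nat_lit 7) (.nd (nat_lit 8) 
(.nd (nat_lit 9) 
(.lf (nat_lit 490511) (.g (nat_lit 2346) (.e (nat_lit 163864) (nat_lit 1) (.e (nat_lit 164332) (nat_lit 230) (.e (nat_lit 163902) (nat_lit 12) (.e (nat_lit 426438) (nat_lit 18) (.e (nat_lit 98374) (nat_lit 29) (.e (nat_lit 450569) (nat_lit 0) (.e (nat_lit 7936) (nat_lit 369) .nil))))))) (.g (nat_lit 1) (.e (nat_lit 144157) (nat_lit 0) .nil) .nil))) 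
(.lf (nat_lit 491023) (.g (nat_lit 2059) (.e (nat_lit 163868) (nat_lit 2) (.e (nat_lit 196653) (nat_lit 11) (.e (nat_lit 16463) (nat_lit 13) (.e (nat_lit 483341) (nat_lit 9) (.e (nat_lit 426106) (nat_lit 1) .nil))))) (.g (nat_lit 0) (.e (nat_lit 145255) (nat_lit 0) .nil) .nil)))) (.nd (nat_lit 9) 
(.lf (nat_lit 490767) (.g (nat_lit 4060) (.e (nat_lit 163867) (nat_lit 2) (.e (nat_lit 196663) (nat_lit 13) (.e (nat_lit 65571) (nat_lit 3) (.e (nat_lit 98342) (nat_lit 20) (.e (nat_lit 221215) (nat_lit 23) (.e (nat_lit 204829) (nat_lit 18) (.e (nat_lit 57931) (nat_lit 282) .nil))))))) (.g (nat_lit 1) (.e (nat_lit 144682) (nat_lit 0) .nil) .nil))) 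
(.lf (nat_lit 491279) (.g (nat_lit 2653) (.e (nat_lit 163868) (nat_lit 2) (.e (nat_lit 196681) (nat_lit 17) (.e (nat_lit 131105) (nat_lit 9) (.e (nat_lit 336454) (nat_lit 34) (.e (nat_lit 483364) (nat_lit 18) (.e (nat_lit 57927) (nat_lit 282) .nil)))))) (.g (nat_lit 1) (.e (nat_lit 145886) (nat_lit 0) .nil) .nil))))) (.nd (nat_lit 8) (.nd (nat_lit 9) 
(.lf (nat_lit 490639) (.g (nat_lit 2178) (.e (nat_lit 163866) (nat_lit 2) (.e (nat_lit 196668) (nat_lit 14) (.e (nat_lit 73747) (nat_lit 3) (.e (nat_lit 516129) (nat_lit 3) (.e (nat_lit 221195) (nat_lit 20) .nil))))) (.g (nat_lit 0) (.e (nat_lit 144427) (nat_lit 0) .nil) .nil))) 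
(.lf (nat_lit 491151) (.g (nat_lit 2816) (.e (nat_lit 163868) (nat_lit 2) (.e (nat_lit 196668) (nat_lit 14) (.e (nat_lit 73747) (nat_lit 3) (.e (nat_lit 516129) (nat_lit 3) (.e (nat_lit 221204) (nat_lit 20) (.e (nat_lit 3253) (nat_lit 197) (.e (nat_lit 532499) (nat_lit 1) (.e (nat_lit 57928) (nat_lit 282) .nil)))))))) (.g (nat_lit 1) (.e (nat_lit 145492) (nat_lit 0) .nil) .nil)))) 
(.nd (nat_lit 9) 
(.lf (nat_lit 490895) (.g (nat_lit 1156) (.e (nat_lit 163867) (nat_lit 2) (.e (nat_lit 196670) (nat_lit 14) (.e (nat_lit 73746) (nat_lit 3) (.e (nat_lit 516129) (nat_lit 3) .nil)))) (.g (nat_lit 0) (.e (nat_lit 144943) (nat_lit 0) .nil) .nil))) 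
(.lf (nat_lit 491407) (.g (nat_lit 3372) (.e (nat_lit 163869) (nat_lit 2) (.e (nat_lit 196666) (nat_lit 13) (.e (nat_lit 65571) (nat_lit 3) (.e (nat_lit 98342) (nat_lit 20) (.e (nat_lit 221215) (nat_lit 23) (.e (nat_lit 204828) (nat_lit 18) (.e (nat_lit 57927) (nat_lit 282) .nil))))))) (.g (nat_lit 1) (.e (nat_lit 146084) (nat_lit 0) .nil) .nil)))))) 
(.nd (nat_lit 7) (.nd (nat_lit 8) (.nd (nat_lit 9) 
(.lf (nat_lit 490575) (.g (nat_lit 1463) (.e (nat_lit 163866) (nat_lit 2) (.e (nat_lit 196655) (nat_lit 11) (.e (nat_lit 16465) (nat_lit 13) (.e (nat_lit 483341) (nat_lit 9) (.e (nat_lit 426100) (nat_lit 1) .nil))))) (.g (nat_lit 0) (.e (nat_lit 144343) (nat_lit 0) .nil) .nil))) 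
(.lf (nat_lit 491087) (.g (nat_lit 2199) (.e (nat_lit 163868) (nat_lit 2) (.e (nat_lit 196663) (nat_lit 13) (.e (nat_lit 65571) (nat_lit 3) (.e (nat_lit 98341) (nat_lit 20) (.e (nat_lit 221196) (nat_lit 20) .nil))))) (.g (nat_lit 0) (.e (nat_lit 145376) (nat_lit 0) .nil) .nil)))) (.nd (nat_lit 9) 
(.lf (nat_lit 490831) (.g (nat_lit 2242) (.e (nat_lit 163867) (nat_lit 2) (.e (nat_lit 196668) (nat_lit 14) (.e (nat_lit 73747) (nat_lit 3) (.e (nat_lit 516129) (nat_lit 3) (.e (nat_lit 221214) (nat_lit 23) (.e (nat_lit 204828) (nat_lit 18) (.e (nat_lit 57924) (nat_lit 282) .nil))))))) (.g (nat_lit 1) (.e (nat_lit 144792) (nat_lit 0) .nil) .nil))) 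
(.lf (nat_lit 491343) (.g (nat_lit 2455) (.e (nat_lit 163869) (nat_lit 2) (.e (nat_lit 196664) (nat_lit 13) (.e (nat_lit 65571) (nat_lit 3) (.e (nat_lit 98341) (nat_lit 20) (.e (nat_lit 221214) (nat_lit 23) (.e (nat_lit 204830) (nat_lit 18) (.e (nat_lit 57926) (nat_lit 282) .nil))))))) (.g (nat_lit 1) (.e (nat_lit 146002) (nat_lit 0) .nil) .nil))))) (.nd (nat_lit 8) (.nd (nat_lit 9) 
(.lf (nat_lit 490703) (.g (nat_lit 457) (.e (nat_lit 163867) (nat_lit 2) (.e (nat_lit 196630) (nat_lit 9) (.e (nat_lit 430) (nat_lit 32) .nil))) (.g (nat_lit 0) (.e (nat_lit 144572) (nat_lit 0) .nil) .nil))) 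
(.lf (nat_lit 491215) (.g (nat_lit 4713) (.e (nat_lit 163868) (nat_lit 2) (.e (nat_lit 196668) (nat_lit 14) (.e (nat_lit 73753) (nat_lit 8) (.e (nat_lit 557103) (nat_lit 14) (.e (nat_lit 180244) (nat_lit 5) (.e (nat_lit 532499) (nat_lit 1) (.e (nat_lit 65280) (nat_lit 168) .nil))))))) (.g (nat_lit 1) (.e (nat_lit 145649) (nat_lit 0) .nil) .nil)))) (.nd (nat_lit 9) 
(.lf (nat_lit 490959) (.g (nat_lit 3195) (.e (nat_lit 163867) (nat_lit 2) (.e (nat_lit 196670) (nat_lit 14) (.e (nat_lit 73746) (nat_lit 3) (.e (nat_lit 516131) (nat_lit 3) (.e (nat_lit 221215) (nat_lit 23) (.e (nat_lit 204830) (nat_lit 18) (.e (nat_lit 57929) (nat_lit 282) .nil))))))) (.g (nat_lit 1) (.e (nat_lit 145012) (nat_lit 0) .nil) .nil))) 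
(.lf (nat_lit 491471) (.g (nat_lit 3181) (.e (nat_lit 163869) (nat_lit 2) (.e (nat_lit 196666) (nat_lit 13) (.e (nat_lit 65610) (nat_lit 10) (.e (nat_lit 344117) (nat_lit 21) (.e (nat_lit 516151) (nat_lit 9) (.e (nat_lit 426040) (nat_lit 0) (.e (nat_lit 2416) (nat_lit 157) (.e (nat_lit 4848) (nat_lit 285) .nil)))))))) (.g (nat_lit 1) (.e (nat_lit 146211) (nat_lit 0) .nil) .nil))))))) 
(.nd (nat_lit 6) (.nd (nat_lit 7) (.nd (nat_lit 8) (.nd (nat_lit 9) 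
(.lf (nat_lit 490543) (.g (nat_lit 1382) (.e (nat_lit 163865) (nat_lit 2) (.e (nat_lit 196666) (nat_lit 13) (.e (nat_lit 65569) (nat_lit 3) (.e (nat_lit 98342) (nat_lit 20) .nil)))) (.g (nat_lit 0) (.e (nat_lit 144293) (nat_lit 0) .nil) .nil))) 
(.lf (nat_lit 491055) (.g (nat_lit 2547) (.e (nat_lit 163868) (nat_lit 2) (.e (nat_lit 196656) (nat_lit 11) (.e (nat_lit 16416) (nat_lit 3) (.e (nat_lit 204817) (nat_lit 17) (.e (nat_lit 2198) (nat_lit 144) .nil))))) (.g (nat_lit 0) (.e (nat_lit 145324) (nat_lit 0) .nil) .nil)))) (.nd (nat_lit 9) 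
(.lf (nat_lit 490799) (.g (nat_lit 2643) (.e (nat_lit 163867) (nat_lit 2) (.e (nat_lit 196668) (nat_lit 14) (.e (nat_lit 73746) (nat_lit 3) (.e (nat_lit 516129) (nat_lit 3) (.e (nat_lit 221215) (nat_lit 23) (.e (nat_lit 204829) (nat_lit 18) (.e (nat_lit 57924) (nat_lit 282) .nil))))))) (.g (nat_lit 1) (.e (nat_lit 144738) (nat_lit 0) .nil) .nil))) 
(.lf (nat_lit 491311) (.g (nat_lit 3907) (.e (nat_lit 163869) (nat_lit 2) (.e (nat_lit 196655) (nat_lit 11) (.e (nat_lit 16465) (nat_lit 13) (.e (nat_lit 483341) (nat_lit 9) (.e (nat_lit 426106) (nat_lit 1) (.e (nat_lit 164332) (nat_lit 230) .nil)))))) (.g (nat_lit 1) (.e (nat_lit 145960) (nat_lit 0) .nil) .nil))))) (.nd (nat_lit 8) (.nd (nat_lit 9) 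
(.lf (nat_lit 490671) (.g (nat_lit 2502) (.e (nat_lit 163866) (nat_lit 2) (.e (nat_lit 196672) (nat_lit 15) (.e (nat_lit 81927) (nat_lit 11) (.e (nat_lit 426500) (nat_lit 27) (.e (nat_lit 335988) (nat_lit 1) (.e (nat_lit 57927) (nat_lit 282) .nil)))))) (.g (nat_lit 1) (.e (nat_lit 144463) (nat_lit 0) .nil) .nil))) 
(.lf (nat_lit 491183) (.g (nat_lit 2006) (.e (nat_lit 163868) (nat_lit 2) (.e (nat_lit 196668) (nat_lit 14) (.e (nat_lit 73747) (nat_lit 3) (.e (nat_lit 516130) (nat_lit 3) (.e (nat_lit 221213) (nat_lit 23) (.e (nat_lit 204829) (nat_lit 18) (.e (nat_lit 57927) (nat_lit 282) .nil))))))) (.g (nat_lit 1) (.e (nat_lit 145558) (nat_lit 0) .nil) .nil)))) (.nd (nat_lit 9) 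
(.lf (nat_lit 490927) (.g (nat_lit 4390) (.e (nat_lit 163867) (nat_lit 2) (.e (nat_lit 196670) (nat_lit 14) (.e (nat_lit 73746) (nat_lit 3) (.e (nat_lit 516129) (nat_lit 3) (.e (nat_lit 221215) (nat_lit 23) (.e (nat_lit 204830) (nat_lit 18) (.e (nat_lit 57925) (nat_lit 282) .nil))))))) (.g (nat_lit 1) (.e (nat_lit 144977) (nat_lit 0) .nil) .nil))) 
(.lf (nat_lit 491439) (.g (nat_lit 3292) (.e (nat_lit 163869) (nat_lit 2) (.e (nat_lit 196666) (nat_lit 13) (.e (nat_lit 65610) (nat_lit 10) (.e (nat_lit 344117) (nat_lit 21) (.e (nat_lit 516151) (nat_lit 9) (.e (nat_lit 426017) (nat_lit 0) (.e (nat_lit 2430) (nat_lit 157) (.e (nat_lit 4848) (nat_lit 285) .nil)))))))) (.g (nat_lit 1) (.e (nat_lit 146179) (nat_lit 0) .nil) .nil)))))) 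
(.nd (nat_lit 7) (.nd (nat_lit 8) (.nd (nat_lit 9) 
(.lf (nat_lit 490607) (.g (nat_lit 3282) (.e (nat_lit 163866) (nat_lit 2) (.e (nat_lit 196666) (nat_lit 13) (.e (nat_lit 65571) (nat_lit 3) (.e (nat_lit 98341) (nat_lit 20) (.e (nat_lit 221214) (nat_lit 23) (.e (nat_lit 204830) (nat_lit 18) (.e (nat_lit 57927) (nat_lit 282) .nil))))))) (.g (nat_lit 1) (.e (nat_lit 144378) (nat_lit 0) .nil) .nil))) 
(.lf (nat_lit 491119) (.g (nat_lit 2916) (.e (nat_lit 163868) (nat_lit 2) (.e (nat_lit 196668) (nat_lit 14) (.e (nat_lit 73746) (nat_lit 3) (.e (nat_lit 516129) (nat_lit 3) (.e (nat_lit 221214) (nat_lit 23) (.e (nat_lit 204829) (nat_lit 18) (.e (nat_lit 57925) (nat_lit 282) .nil))))))) (.g (nat_lit 1) (.e (nat_lit 145438) (nat_lit 0) .nil) .nil)))) (.nd (nat_lit 9) 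
(.lf (nat_lit 490863) (.g (nat_lit 4007) (.e (nat_lit 163867) (nat_lit 2) (.e (nat_lit 196668) (nat_lit 14) (.e (nat_lit 73747) (nat_lit 3) (.e (nat_lit 516131) (nat_lit 3) (.e (nat_lit 221214) (nat_lit 23) (.e (nat_lit 204830) (nat_lit 18) (.e (nat_lit 57924) (nat_lit 282) .nil))))))) (.g (nat_lit 1) (.e (nat_lit 144835) (nat_lit 0) .nil) .nil))) 
(.lf (nat_lit 491375) (.g (nat_lit 2500) (.e (nat_lit 163869) (nat_lit 2) (.e (nat_lit 196666) (nat_lit 13) (.e (nat_lit 65571) (nat_lit 3) (.e (nat_lit 98341) (nat_lit 20) (.e (nat_lit 221213) (nat_lit 23) (.e (nat_lit 204831) (nat_lit 18) (.e (nat_lit 57931) (nat_lit 282) .nil))))))) (.g (nat_lit 1) (.e (nat_lit 146046) (nat_lit 0) .nil) .nil))))) (.nd (nat_lit 8) (.nd (nat_lit 9) 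
(.lf (nat_lit 490735) (.g (nat_lit 1958) (.e (nat_lit 163867) (nat_lit 2) (.e (nat_lit 196656) (nat_lit 11) (.e (nat_lit 16465) (nat_lit 13) (.e (nat_lit 483340) (nat_lit 9) .nil)))) (.g (nat_lit 0) (.e (nat_lit 144640) (nat_lit 0) .nil) .nil))) 
(.lf (nat_lit 491247) (.g (nat_lit 3357) (.e (nat_lit 163868) (nat_lit 2) (.e (nat_lit 196670) (nat_lit 14) (.e (nat_lit 73746) (nat_lit 3) (.e (nat_lit 516129) (nat_lit 3) (.e (nat_lit 221215) (nat_lit 23) (.e (nat_lit 204829) (nat_lit 18) (.e (nat_lit 57928) (nat_lit 282) .nil))))))) (.g (nat_lit 1) (.e (nat_lit 145682) (nat_lit 0) .nil) .nil)))) (.nd (nat_lit 9) 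
(.lf (nat_lit 490991) (.g (nat_lit 3108) (.e (nat_lit 163867) (nat_lit 2) (.e (nat_lit 196672) (nat_lit 15) (.e (nat_lit 81927) (nat_lit 11) (.e (nat_lit 426500) (nat_lit 27) (.e (nat_lit 335988) (nat_lit 1) (.e (nat_lit 57926) (nat_lit 282) .nil)))))) (.g (nat_lit 1) (.e (nat_lit 145073) (nat_lit 0) .nil) .nil))) 
(.lf (nat_lit 491503) (.g (nat_lit 3559) (.e (nat_lit 163869) (nat_lit 2) (.e (nat_lit 196666) (nat_lit 13) (.e (nat_lit 65610) (nat_lit 10) (.e (nat_lit 344117) (nat_lit 21) (.e (nat_lit 516151) (nat_lit 9) (.e (nat_lit 426102) (nat_lit 1) (.e (nat_lit 171776) (nat_lit 219) .nil))))))) (.g (nat_lit 1) (.e (nat_lit 146243) (nat_lit 0) .nil) .nil)))))))) 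
(.nd (nat_lit 5) (.nd (nat_lit 6) (.nd (nat_lit 7) (.nd (nat_lit 8) (.nd (nat_lit 9) 
(.lf (nat_lit 490527) (.g (nat_lit 3824) (.e (nat_lit 163864) (nat_lit 1) (.e (nat_lit 164332) (nat_lit 230) (.e (nat_lit 163905) (nat_lit 12) (.e (nat_lit 426472) (nat_lit 25) (.e (nat_lit 319534) (nat_lit 16) (.e (nat_lit 286749) (nat_lit 9) (.e (nat_lit 335997) (nat_lit 1) (.e (nat_lit 57686) (nat_lit 156) .nil)))))))) (.g (nat_lit 1) (.e (nat_lit 144187) (nat_lit 0) .nil) .nil))) 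
(.lf (nat_lit 491039) (.g (nat_lit 1236) (.e (nat_lit 163868) (nat_lit 2) (.e (nat_lit 196654) (nat_lit 11) (.e (nat_lit 16438) (nat_lit 9) (.e (nat_lit 426491) (nat_lit 27) .nil)))) (.g (nat_lit 0) (.e (nat_lit 145287) (nat_lit 0) .nil) .nil)))) (.nd (nat_lit 9) 
(.lf (nat_lit 490783) (.g (nat_lit 2740) (.e (nat_lit 163867) (nat_lit 2) (.e (nat_lit 196666) (nat_lit 13) (.e (nat_lit 65610) (nat_lit 10) (.e (nat_lit 344117) (nat_lit 21) .nil)))) (.g (nat_lit 0) (.e (nat_lit 144702) (nat_lit 0) .nil) .nil))) 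
(.lf (nat_lit 491295) (.g (nat_lit 3479) (.e (nat_lit 163869) (nat_lit 2) (.e (nat_lit 196654) (nat_lit 11) (.e (nat_lit 16433) (nat_lit 9) (.e (nat_lit 426568) (nat_lit 34) (.e (nat_lit 393253) (nat_lit 18) (.e (nat_lit 164325) (nat_lit 230) .nil)))))) (.g (nat_lit 1) (.e (nat_lit 145937) (nat_lit 0) .nil) .nil))))) (.nd (nat_lit 8) (.nd (nat_lit 9) 
(.lf (nat_lit 490655) (.g (nat_lit 1999) (.e (nat_lit 163866) (nat_lit 2) (.e (nat_lit 196670) (nat_lit 14) (.e (nat_lit 73746) (nat_lit 3) (.e (nat_lit 516126) (nat_lit 2) (.e (nat_lit 213034) (nat_lit 12) (.e (nat_lit 163963) (nat_lit 25) (.e (nat_lit 532499) (nat_lit 1) (.e (nat_lit 57927) (nat_lit 282) .nil)))))))) (.g (nat_lit 1) (.e (nat_lit 144447) (nat_lit 0) .nil) .nil))) 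
(.lf (nat_lit 491167) (.g (nat_lit 4187) (.e (nat_lit 163868) (nat_lit 2) (.e (nat_lit 196668) (nat_lit 14) (.e (nat_lit 73747) (nat_lit 3) (.e (nat_lit 516129) (nat_lit 3) (.e (nat_lit 221214) (nat_lit 23) (.e (nat_lit 204830) (nat_lit 18) (.e (nat_lit 57925) (nat_lit 282) .nil))))))) (.g (nat_lit 1) (.e (nat_lit 145537) (nat_lit 0) .nil) .nil)))) (.nd (nat_lit 9) 
(.lf (nat_lit 490911) (.g (nat_lit 5138) (.e (nat_lit 163867) (nat_lit 2) (.e (nat_lit 196670) (nat_lit 14) (.e (nat_lit 73746) (nat_lit 3) (.e (nat_lit 516129) (nat_lit 3) (.e (nat_lit 221214) (nat_lit 23) (.e (nat_lit 204830) (nat_lit 18) (.e (nat_lit 57924) (nat_lit 282) .nil))))))) (.g (nat_lit 1) (.e (nat_lit 144961) (nat_lit 0) .nil) .nil))) 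
(.lf (nat_lit 491423) (.g (nat_lit 2316) (.e (nat_lit 163869) (nat_lit 2) (.e (nat_lit 196666) (nat_lit 13) (.e (nat_lit 65610) (nat_lit 10) (.e (nat_lit 344117) (nat_lit 21) (.e (nat_lit 516145) (nat_lit 9) .nil))))) (.g (nat_lit 0) (.e (nat_lit 146116) (nat_lit 0) .nil) .nil)))))) (.nd (nat_lit 7) (.nd (nat_lit 8) (.nd (nat_lit 9) 
(.lf (nat_lit 490591) (.g (nat_lit 2671) (.e (nat_lit 163866) (nat_lit 2) (.e (nat_lit 196666) (nat_lit 13) (.e (nat_lit 65569) (nat_lit 3) (.e (nat_lit 98342) (nat_lit 20) (.e (nat_lit 221213) (nat_lit 23) (.e (nat_lit 204829) (nat_lit 18) (.e (nat_lit 57931) (nat_lit 282) .nil))))))) (.g (nat_lit 1) (.e (nat_lit 144362) (nat_lit 0) .nil) .nil))) 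
(.lf (nat_lit 491103) (.g (nat_lit 3210) (.e (nat_lit 163868) (nat_lit 2) (.e (nat_lit 196664) (nat_lit 13) (.e (nat_lit 65571) (nat_lit 3) (.e (nat_lit 98341) (nat_lit 20) (.e (nat_lit 221214) (nat_lit 23) (.e (nat_lit 204829) (nat_lit 18) (.e (nat_lit 57927) (nat_lit 282) .nil))))))) (.g (nat_lit 1) (.e (nat_lit 145396) (nat_lit 0) .nil) .nil)))) (.nd (nat_lit 9) 
(.lf (nat_lit 490847) (.g (nat_lit 3347) (.e (nat_lit 163867) (nat_lit 2) (.e (nat_lit 196668) (nat_lit 14) (.e (nat_lit 73747) (nat_lit 3) (.e (nat_lit 516129) (nat_lit 3) (.e (nat_lit 221215) (nat_lit 23) (.e (nat_lit 204830) (nat_lit 18) (.e (nat_lit 57927) (nat_lit 282) .nil))))))) (.g (nat_lit 1) (.e (nat_lit 144811) (nat_lit 0) .nil) .nil))) 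
(.lf (nat_lit 491359) (.g (nat_lit 4093) (.e (nat_lit 163869) (nat_lit 2) (.e (nat_lit 196666) (nat_lit 13) (.e (nat_lit 65569) (nat_lit 3) (.e (nat_lit 98342) (nat_lit 20) (.e (nat_lit 221213) (nat_lit 23) (.e (nat_lit 204829) (nat_lit 18) (.e (nat_lit 57927) (nat_lit 282) .nil))))))) (.g (nat_lit 1) (.e (nat_lit 146020) (nat_lit 0) .nil) .nil))))) (.nd (nat_lit 8) (.nd (nat_lit 9) 
(.lf (nat_lit 490719) (.g (nat_lit 1720) (.e (nat_lit 163867) (nat_lit 2) (.e (nat_lit 196656) (nat_lit 11) (.e (nat_lit 16416) (nat_lit 3) (.e (nat_lit 204834) (nat_lit 19) .nil)))) (.g (nat_lit 0) (.e (nat_lit 144608) (nat_lit 0) .nil) .nil))) 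
(.lf (nat_lit 491231) (.g (nat_lit 2560) (.e (nat_lit 163868) (nat_lit 2) (.e (nat_lit 196670) (nat_lit 14) (.e (nat_lit 73746) (nat_lit 3) (.e (nat_lit 516127) (nat_lit 2) (.e (nat_lit 213036) (nat_lit 13) (.e (nat_lit 229433) (nat_lit 25) (.e (nat_lit 532499) (nat_lit 1) (.e (nat_lit 57926) (nat_lit 282) .nil)))))))) (.g (nat_lit 1) (.e (nat_lit 145666) (nat_lit 0) .nil) .nil)))) 
(.nd (nat_lit 9) 
(.lf (nat_lit 490975) (.g (nat_lit 3082) (.e (nat_lit 163867) (nat_lit 2) (.e (nat_lit 196670) (nat_lit 14) (.e (nat_lit 73753) (nat_lit 8) (.e (nat_lit 557104) (nat_lit 14) (.e (nat_lit 180244) (nat_lit 5) (.e (nat_lit 532499) (nat_lit 1) (.e (nat_lit 65280) (nat_lit 168) .nil))))))) (.g (nat_lit 1) (.e (nat_lit 145051) (nat_lit 0) .nil) .nil))) 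
(.lf (nat_lit 491487) (.g (nat_lit 3444) (.e (nat_lit 163869) (nat_lit 2) (.e (nat_lit 196666) (nat_lit 13) (.e (nat_lit 65610) (nat_lit 10) (.e (nat_lit 344117) (nat_lit 21) (.e (nat_lit 516151) (nat_lit 9) (.e (nat_lit 426045) (nat_lit 0) (.e (nat_lit 2422) (nat_lit 157) (.e (nat_lit 4849) (nat_lit 285) .nil)))))))) (.g (nat_lit 1) (.e (nat_lit 146227) (nat_lit 0) .nil) .nil))))))) 
(.nd (nat_lit 6) (.nd (nat_lit 7) (.nd (nat_lit 8) (.nd (nat_lit 9) 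
(.lf (nat_lit 490559) (.g (nat_lit 1770) (.e (nat_lit 163866) (nat_lit 2) (.e (nat_lit 196654) (nat_lit 11) (.e (nat_lit 16436) (nat_lit 9) (.e (nat_lit 426481) (nat_lit 27) (.e (nat_lit 336388) (nat_lit 27) .nil))))) (.g (nat_lit 0) (.e (nat_lit 144317) (nat_lit 0) .nil) .nil))) 
(.lf (nat_lit 491071) (.g (nat_lit 3919) (.e (nat_lit 163868) (nat_lit 2) (.e (nat_lit 196656) (nat_lit 11) (.e (nat_lit 16463) (nat_lit 13) (.e (nat_lit 483341) (nat_lit 9) (.e (nat_lit 426107) (nat_lit 1) (.e (nat_lit 164325) (nat_lit 230) .nil)))))) (.g (nat_lit 1) (.e (nat_lit 145352) (nat_lit 0) .nil) .nil)))) (.nd (nat_lit 9) 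
(.lf (nat_lit 490815) (.g (nat_lit 2158) (.e (nat_lit 163867) (nat_lit 2) (.e (nat_lit 196668) (nat_lit 14) (.e (nat_lit 73746) (nat_lit 3) (.e (nat_lit 516131) (nat_lit 3) (.e (nat_lit 221215) (nat_lit 23) (.e (nat_lit 204828) (nat_lit 18) (.e (nat_lit 57930) (nat_lit 282) .nil))))))) (.g (nat_lit 1) (.e (nat_lit 144757) (nat_lit 0) .nil) .nil))) 
(.lf (nat_lit 491327) (.g (nat_lit 4596) (.e (nat_lit 163869) (nat_lit 2) (.e (nat_lit 196656) (nat_lit 11) (.e (nat_lit 16465) (nat_lit 13) (.e (nat_lit 483341) (nat_lit 9) (.e (nat_lit 426108) (nat_lit 1) (.e (nat_lit 164332) (nat_lit 230) .nil)))))) (.g (nat_lit 1) (.e (nat_lit 145982) (nat_lit 0) .nil) .nil))))) (.nd (nat_lit 8) (.nd (nat_lit 9) 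
(.lf (nat_lit 490687) (.g (nat_lit 2806) (.e (nat_lit 163866) (nat_lit 2) (.e (nat_lit 196681) (nat_lit 17) (.e (nat_lit 131105) (nat_lit 9) (.e (nat_lit 336456) (nat_lit 34) (.e (nat_lit 483365) (nat_lit 18) (.e (nat_lit 57931) (nat_lit 282) .nil)))))) (.g (nat_lit 1) (.e (nat_lit 144492) (nat_lit 0) .nil) .nil))) 
(.lf (nat_lit 491199) (.g (nat_lit 2298) (.e (nat_lit 163868) (nat_lit 2) (.e (nat_lit 196668) (nat_lit 14) (.e (nat_lit 73747) (nat_lit 3) (.e (nat_lit 516131) (nat_lit 3) (.e (nat_lit 221215) (nat_lit 23) (.e (nat_lit 204828) (nat_lit 18) (.e (nat_lit 57924) (nat_lit 282) .nil))))))) (.g (nat_lit 1) (.e (nat_lit 145595) (nat_lit 0) .nil) .nil)))) (.nd (nat_lit 9) 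
(.lf (nat_lit 490943) (.g (nat_lit 2796) (.e (nat_lit 163867) (nat_lit 2) (.e (nat_lit 196670) (nat_lit 14) (.e (nat_lit 73746) (nat_lit 3) (.e (nat_lit 516131) (nat_lit 3) (.e (nat_lit 221214) (nat_lit 23) (.e (nat_lit 204830) (nat_lit 18) (.e (nat_lit 57927) (nat_lit 282) .nil))))))) (.g (nat_lit 1) (.e (nat_lit 144996) (nat_lit 0) .nil) .nil))) 
(.lf (nat_lit 491455) (.g (nat_lit 3709) (.e (nat_lit 163869) (nat_lit 2) (.e (nat_lit 196666) (nat_lit 13) (.e (nat_lit 65610) (nat_lit 10) (.e (nat_lit 344117) (nat_lit 21) (.e (nat_lit 516151) (nat_lit 9) (.e (nat_lit 426023) (nat_lit 0) (.e (nat_lit 2397) (nat_lit 157) (.e (nat_lit 4849) (nat_lit 285) .nil)))))))) (.g (nat_lit 1) (.e (nat_lit 146195) (nat_lit 0) .nil) .nil)))))) 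
(.nd (nat_lit 7) (.nd (nat_lit 8) (.nd (nat_lit 9) 
(.lf (nat_lit 490623) (.g (nat_lit 2236) (.e (nat_lit 163866) (nat_lit 2) (.e (nat_lit 196666) (nat_lit 13) (.e (nat_lit 65610) (nat_lit 10) (.e (nat_lit 344117) (nat_lit 21) .nil)))) (.g (nat_lit 0) (.e (nat_lit 144399) (nat_lit 0) .nil) .nil))) 
(.lf (nat_lit 491135) (.g (nat_lit 3653) (.e (nat_lit 163868) (nat_lit 2) (.e (nat_lit 196668) (nat_lit 14) (.e (nat_lit 73746) (nat_lit 3) (.e (nat_lit 516129) (nat_lit 3) (.e (nat_lit 221215) (nat_lit 23) (.e (nat_lit 204830) (nat_lit 18) (.e (nat_lit 57928) (nat_lit 282) .nil))))))) (.g (nat_lit 1) (.e (nat_lit 145455) (nat_lit 0) .nil) .nil)))) (.nd (nat_lit 9) 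
(.lf (nat_lit 490879) (.g (nat_lit 4193) (.e (nat_lit 163867) (nat_lit 2) (.e (nat_lit 196668) (nat_lit 14) (.e (nat_lit 73753) (nat_lit 8) (.e (nat_lit 557103) (nat_lit 14) (.e (nat_lit 180244) (nat_lit 5) (.e (nat_lit 532503) (nat_lit 1) (.e (nat_lit 65280) (nat_lit 168) .nil))))))) (.g (nat_lit 1) (.e (nat_lit 144876) (nat_lit 0) .nil) .nil))) 
(.lf (nat_lit 491391) (.g (nat_lit 3143) (.e (nat_lit 163869) (nat_lit 2) (.e (nat_lit 196666) (nat_lit 13) (.e (nat_lit 65571) (nat_lit 3) (.e (nat_lit 98342) (nat_lit 20) (.e (nat_lit 221204) (nat_lit 20) (.e (nat_lit 3253) (nat_lit 197) (.e (nat_lit 532503) (nat_lit 1) (.e (nat_lit 57930) (nat_lit 282) .nil)))))))) (.g (nat_lit 1) (.e (nat_lit 146064) (nat_lit 0) .nil) .nil))))) 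
(.nd (nat_lit 8) (.nd (nat_lit 9) 
(.lf (nat_lit 490751) (.g (nat_lit 3611) (.e (nat_lit 163867) (nat_lit 2) (.e (nat_lit 196663) (nat_lit 13) (.e (nat_lit 65571) (nat_lit 3) (.e (nat_lit 98341) (nat_lit 20) (.e (nat_lit 221214) (nat_lit 23) (.e (nat_lit 204831) (nat_lit 18) (.e (nat_lit 57931) (nat_lit 282) .nil))))))) (.g (nat_lit 1) (.e (nat_lit 144663) (nat_lit 0) .nil) .nil))) 
(.lf (nat_lit 491263) (.g (nat_lit 3829) (.e (nat_lit 163868) (nat_lit 2) (.e (nat_lit 196670) (nat_lit 14) (.e (nat_lit 73753) (nat_lit 8) (.e (nat_lit 557103) (nat_lit 14) (.e (nat_lit 180244) (nat_lit 5) (.e (nat_lit 532499) (nat_lit 1) (.e (nat_lit 65280) (nat_lit 168) .nil))))))) (.g (nat_lit 1) (.e (nat_lit 145698) (nat_lit 0) .nil) .nil)))) (.nd (nat_lit 9) 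
(.lf (nat_lit 491007) (.g (nat_lit 1958) (.e (nat_lit 163867) (nat_lit 2) (.e (nat_lit 196681) (nat_lit 17) (.e (nat_lit 131105) (nat_lit 9) (.e (nat_lit 336454) (nat_lit 34) (.e (nat_lit 483366) (nat_lit 18) (.e (nat_lit 57929) (nat_lit 282) .nil)))))) (.g (nat_lit 1) (.e (nat_lit 145191) (nat_lit 0) .nil) .nil))) 
(.lf (nat_lit 491519) (.g (nat_lit 3346) (.e (nat_lit 163869) (nat_lit 2) (.e (nat_lit 196666) (nat_lit 13) (.e (nat_lit 65610) (nat_lit 10) (.e (nat_lit 344117) (nat_lit 21) (.e (nat_lit 516159) (nat_lit 10) (.e (nat_lit 434205) (nat_lit 18) (.e (nat_lit 7936) (nat_lit 285) .nil))))))) (.g (nat_lit 1) (.e (nat_lit 146273) (nat_lit 0) .nil) .nil)))))))))))))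


end

end Pool.Agent.Lib.MP_5854e1_co.Cz
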