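import Pool.Agent.Lib.MP_5854e1_co.DtD

/-!
# Windows and cells of the rings
-/

set_option autoImplicit false
set_option maxRecDepth 100000
set_option deprecated.oldSectionVars true

namespace Pool.Agent.Lib.MP_5854e1_co.Cz

open Pool.Agent.Lib.MP_5854e1_co

noncomputable section

noncomputable def tv5540 : DT := (.nd (nat_lit 0) (.nd (nat_lit 1) (.nd (nat_lit 2) (.nd (nat_lit 3) (.nd (nat_lit 4) (.nd (nat_lit 5) (.nd (nat_lit 6) (.nd (nat_lit 7) (.nd (nat_lit 8) (.nd (nat_lit 9) 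
(.lf (nat_lit 491520) (.g (nat_lit 3789) (.e (nat_lit 163869) (nat_lit 2) (.e (nat_lit 196666) (nat_lit 13) (.e (nat_lit 65610) (nat_lit 10) (.e (nat_lit 344117) (nat_lit 21) (.e (nat_lit 516159) (nat_lit 10) (.e (nat_lit 434206) (nat_lit 18) (.e (nat_lit 7936) (nat_lit 285) .nil))))))) (.g (nat_lit 1) (.e (nat_lit 146274) (nat_lit 0) .nil) .nil))) 
(.lf (nat_lit 492032) (.g (nat_lit 637) (.e (nat_lit 163870) (nat_lit 2) (.e (nat_lit 196672) (nat_lit 15) (.e (nat_lit 89856) (nat_lit 18) .nil))) (.g (nat_lit 0) (.e (nat_lit 147272) (nat_lit 0) .nil) .nil)))) (.nd (nat_lit 9) 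
(.lf (nat_lit 491776) (.g (nat_lit 3627) (.e (nat_lit 163869) (nat_lit 2) (.e (nat_lit 196681) (nat_lit 17) (.e (nat_lit 131125) (nat_lit 13) (.e (nat_lit 393225) (nat_lit 9) (.e (nat_lit 335996) (nat_lit 1) (.e (nat_lit 57930) (nat_lit 282) .nil)))))) (.g (nat_lit 1) (.e (nat_lit 146865) (nat_lit 0) .nil) .nil))) 
(.lf (nat_lit 492288) (.g (nat_lit 2477) (.e (nat_lit 163871) (nat_lit 2) (.e (nat_lit 196670) (nat_lit 14) (.e (nat_lit 73746) (nat_lit 3) (.e (nat_lit 516129) (nat_lit 3) (.e (nat_lit 221215) (nat_lit 23) (.e (nat_lit 204831) (nat_lit 18) (.e (nat_lit 57924) (nat_lit 282) .nil))))))) (.g (nat_lit 1) (.e (nat_lit 147816) (nat_lit 0) .nil) .nil))))) (.nd (nat_lit 8) (.nd (nat_lit 9) 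
(.lf (nat_lit 491648) (.g (nat_lit 2128) (.e (nat_lit 163869) (nat_lit 2) (.e (nat_lit 196670) (nat_lit 14) (.e (nat_lit 73746) (nat_lit 3) (.e (nat_lit 516127) (nat_lit 2) (.e (nat_lit 213035) (nat_lit 12) (.e (nat_lit 163965) (nat_lit 25) (.e (nat_lit 532500) (nat_lit 1) (.e (nat_lit 57927) (nat_lit 282) .nil)))))))) (.g (nat_lit 1) (.e (nat_lit 146542) (nat_lit 0) .nil) .nil))) 
(.lf (nat_lit 492160) (.g (nat_lit 2886) (.e (nat_lit 163871) (nat_lit 2) (.e (nat_lit 196668) (nat_lit 14) (.e (nat_lit 73746) (nat_lit 3) (.e (nat_lit 516131) (nat_lit 3) (.e (nat_lit 221215) (nat_lit 23) (.e (nat_lit 204829) (nat_lit 18) (.e (nat_lit 57928) (nat_lit 282) .nil))))))) (.g (nat_lit 1) (.e (nat_lit 147556) (nat_lit 0) .nil) .nil)))) (.nd (nat_lit 9) 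
(.lf (nat_lit 491904) (.g (nat_lit 3959) (.e (nat_lit 163870) (nat_lit 2) (.e (nat_lit 196666) (nat_lit 13) (.e (nat_lit 65610) (nat_lit 10) (.e (nat_lit 344117) (nat_lit 21) (.e (nat_lit 516151) (nat_lit 9) (.e (nat_lit 426018) (nat_lit 0) (.e (nat_lit 2398) (nat_lit 157) (.e (nat_lit 4847) (nat_lit 285) .nil)))))))) (.g (nat_lit 1) (.e (nat_lit 147093) (nat_lit 0) .nil) .nil))) 
(.lf (nat_lit 492416) (.g (nat_lit 1301) (.e (nat_lit 163873) (nat_lit 3) (.e (nat_lit 204809) (nat_lit 9) (.e (nat_lit 426139) (nat_lit 3) (.e (nat_lit 204833) (nat_lit 19) .nil)))) (.g (nat_lit 0) (.e (nat_lit 148343) (nat_lit 0) .nil) .nil)))))) (.nd (nat_lit 7) (.nd (nat_lit 8) (.nd (nat_lit 9) 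
(.lf (nat_lit 491584) (.g (nat_lit 4904) (.e (nat_lit 163869) (nat_lit 2) (.e (nat_lit 196668) (nat_lit 14) (.e (nat_lit 73747) (nat_lit 3) (.e (nat_lit 516129) (nat_lit 3) (.e (nat_lit 221214) (nat_lit 23) (.e (nat_lit 204830) (nat_lit 18) (.e (nat_lit 57926) (nat_lit 282) .nil))))))) (.g (nat_lit 1) (.e (nat_lit 146419) (nat_lit 0) .nil) .nil))) 
(.lf (nat_lit 492096) (.g (nat_lit 1808) (.e (nat_lit 163871) (nat_lit 2) (.e (nat_lit 196656) (nat_lit 11) (.e (nat_lit 16463) (nat_lit 13) (.e (nat_lit 483336) (nat_lit 9) (.e (nat_lit 426107) (nat_lit 1) .nil))))) (.g (nat_lit 0) (.e (nat_lit 147418) (nat_lit 0) .nil) .nil)))) (.nd (nat_lit 9) 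
(.lf (nat_lit 491840) (.g (nat_lit 4884) (.e (nat_lit 163870) (nat_lit 2) (.e (nat_lit 196666) (nat_lit 13) (.e (nat_lit 65571) (nat_lit 3) (.e (nat_lit 98341) (nat_lit 20) (.e (nat_lit 221214) (nat_lit 23) (.e (nat_lit 204830) (nat_lit 18) (.e (nat_lit 57927) (nat_lit 282) .nil))))))) (.g (nat_lit 1) (.e (nat_lit 146967) (nat_lit 0) .nil) .nil))) 
(.lf (nat_lit 492352) (.g (nat_lit 2242) (.e (nat_lit 163872) (nat_lit 3) (.e (nat_lit 204837) (nat_lit 20) (.e (nat_lit 114714) (nat_lit 22) (.e (nat_lit 90174) (nat_lit 14) (.e (nat_lit 180243) (nat_lit 5) (.e (nat_lit 532503) (nat_lit 1) (.e (nat_lit 57685) (nat_lit 156) .nil))))))) (.g (nat_lit 1) (.e (nat_lit 148259) (nat_lit 0) .nil) .nil))))) (.nd (nat_lit 8) (.nd (nat_lit 9) 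
(.lf (nat_lit 491712) (.g (nat_lit 3222) (.e (nat_lit 163869) (nat_lit 2) (.e (nat_lit 196670) (nat_lit 14) (.e (nat_lit 73754) (nat_lit 8) (.e (nat_lit 557103) (nat_lit 14) (.e (nat_lit 180243) (nat_lit 5) (.e (nat_lit 532499) (nat_lit 1) (.e (nat_lit 65280) (nat_lit 168) .nil))))))) (.g (nat_lit 1) (.e (nat_lit 146655) (nat_lit 0) .nil) .nil))) 
(.lf (nat_lit 492224) (.g (nat_lit 3337) (.e (nat_lit 163871) (nat_lit 2) (.e (nat_lit 196668) (nat_lit 14) (.e (nat_lit 73747) (nat_lit 3) (.e (nat_lit 516131) (nat_lit 3) (.e (nat_lit 221215) (nat_lit 23) (.e (nat_lit 204830) (nat_lit 18) (.e (nat_lit 57924) (nat_lit 282) .nil))))))) (.g (nat_lit 1) (.e (nat_lit 147691) (nat_lit 0) .nil) .nil)))) (.nd (nat_lit 9) 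
(.lf (nat_lit 491968) (.g (nat_lit 4433) (.e (nat_lit 163870) (nat_lit 2) (.e (nat_lit 196666) (nat_lit 13) (.e (nat_lit 65610) (nat_lit 10) (.e (nat_lit 344117) (nat_lit 21) (.e (nat_lit 516159) (nat_lit 10) (.e (nat_lit 434202) (nat_lit 18) (.e (nat_lit 7936) (nat_lit 285) .nil))))))) (.g (nat_lit 1) (.e (nat_lit 147168) (nat_lit 0) .nil) .nil))) 
(.lf (nat_lit 492480) (.g (nat_lit 3339) (.e (nat_lit 163873) (nat_lit 3) (.e (nat_lit 204809) (nat_lit 9) (.e (nat_lit 426200) (nat_lit 9) (.e (nat_lit 426568) (nat_lit 34) (.e (nat_lit 393253) (nat_lit 18) (.e (nat_lit 164324) (nat_lit 230) .nil)))))) (.g (nat_lit 1) (.e (nat_lit 148415) (nat_lit 0) .nil) .nil))))))) (.nd (nat_lit 6) (.nd (nat_lit 7) (.nd (nat_lit 8) (.nd (nat_lit 9) 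
(.lf (nat_lit 491552) (.g (nat_lit 2840) (.e (nat_lit 163869) (nat_lit 2) (.e (nat_lit 196668) (nat_lit 14) (.e (nat_lit 73746) (nat_lit 3) (.e (nat_lit 516129) (nat_lit 3) (.e (nat_lit 221213) (nat_lit 23) (.e (nat_lit 204830) (nat_lit 18) (.e (nat_lit 57927) (nat_lit 282) .nil))))))) (.g (nat_lit 1) (.e (nat_lit 146354) (nat_lit 0) .nil) .nil))) 
(.lf (nat_lit 492064) (.g (nat_lit 1149) (.e (nat_lit 163871) (nat_lit 2) (.e (nat_lit 196654) (nat_lit 11) (.e (nat_lit 16463) (nat_lit 13) (.e (nat_lit 483341) (nat_lit 9) .nil)))) (.g (nat_lit 0) (.e (nat_lit 147336) (nat_lit 0) .nil) .nil)))) (.nd (nat_lit 9) 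
(.lf (nat_lit 491808) (.g (nat_lit 3591) (.e (nat_lit 163870) (nat_lit 2) (.e (nat_lit 196666) (nat_lit 13) (.e (nat_lit 65569) (nat_lit 3) (.e (nat_lit 98341) (nat_lit 20) (.e (nat_lit 221215) (nat_lit 23) (.e (nat_lit 204829) (nat_lit 18) (.e (nat_lit 57927) (nat_lit 282) .nil))))))) (.g (nat_lit 1) (.e (nat_lit 146917) (nat_lit 0) .nil) .nil))) 
(.lf (nat_lit 492320) (.g (nat_lit 2605) (.e (nat_lit 163871) (nat_lit 2) (.e (nat_lit 196670) (nat_lit 14) (.e (nat_lit 73754) (nat_lit 8) (.e (nat_lit 557105) (nat_lit 14) (.e (nat_lit 180245) (nat_lit 5) (.e (nat_lit 532499) (nat_lit 1) (.e (nat_lit 65280) (nat_lit 168) .nil))))))) (.g (nat_lit 1) (.e (nat_lit 147854) (nat_lit 0) .nil) .nil))))) (.nd (nat_lit 8) (.nd (nat_lit 9) 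
(.lf (nat_lit 491680) (.g (nat_lit 2612) (.e (nat_lit 163869) (nat_lit 2) (.e (nat_lit 196670) (nat_lit 14) (.e (nat_lit 73746) (nat_lit 3) (.e (nat_lit 516131) (nat_lit 3) (.e (nat_lit 221214) (nat_lit 23) (.e (nat_lit 204830) (nat_lit 18) (.e (nat_lit 57925) (nat_lit 282) .nil))))))) (.g (nat_lit 1) (.e (nat_lit 146600) (nat_lit 0) .nil) .nil))) 
(.lf (nat_lit 492192) (.g (nat_lit 4278) (.e (nat_lit 163871) (nat_lit 2) (.e (nat_lit 196668) (nat_lit 14) (.e (nat_lit 73747) (nat_lit 3) (.e (nat_lit 516129) (nat_lit 3) (.e (nat_lit 221215) (nat_lit 23) (.e (nat_lit 204829) (nat_lit 18) (.e (nat_lit 57928) (nat_lit 282) .nil))))))) (.g (nat_lit 1) (.e (nat_lit 147631) (nat_lit 0) .nil) .nil)))) (.nd (nat_lit 9) 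
(.lf (nat_lit 491936) (.g (nat_lit 2989) (.e (nat_lit 163870) (nat_lit 2) (.e (nat_lit 196666) (nat_lit 13) (.e (nat_lit 65610) (nat_lit 10) (.e (nat_lit 344117) (nat_lit 21) (.e (nat_lit 516151) (nat_lit 9) (.e (nat_lit 426042) (nat_lit 0) (.e (nat_lit 2438) (nat_lit 157) (.e (nat_lit 7936) (nat_lit 285) .nil)))))))) (.g (nat_lit 1) (.e (nat_lit 147125) (nat_lit 0) .nil) .nil))) 
(.lf (nat_lit 492448) (.g (nat_lit 3088) (.e (nat_lit 163873) (nat_lit 3) (.e (nat_lit 204809) (nat_lit 9) (.e (nat_lit 426190) (nat_lit 9) (.e (nat_lit 426566) (nat_lit 34) (.e (nat_lit 393253) (nat_lit 18) (.e (nat_lit 164331) (nat_lit 230) .nil)))))) (.g (nat_lit 1) (.e (nat_lit 148382) (nat_lit 0) .nil) .nil)))))) (.nd (nat_lit 7) (.nd (nat_lit 8) (.nd (nat_lit 9) 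
(.lf (nat_lit 491616) (.g (nat_lit 2268) (.e (nat_lit 163869) (nat_lit 2) (.e (nat_lit 196670) (nat_lit 14) (.e (nat_lit 73746) (nat_lit 3) (.e (nat_lit 516122) (nat_lit 2) (.e (nat_lit 213033) (nat_lit 12) (.e (nat_lit 163962) (nat_lit 25) (.e (nat_lit 532500) (nat_lit 1) (.e (nat_lit 57927) (nat_lit 282) .nil)))))))) (.g (nat_lit 1) (.e (nat_lit 146507) (nat_lit 0) .nil) .nil))) 
(.lf (nat_lit 492128) (.g (nat_lit 2418) (.e (nat_lit 163871) (nat_lit 2) (.e (nat_lit 196668) (nat_lit 14) (.e (nat_lit 73746) (nat_lit 3) (.e (nat_lit 516129) (nat_lit 3) (.e (nat_lit 221213) (nat_lit 23) (.e (nat_lit 204830) (nat_lit 18) (.e (nat_lit 57925) (nat_lit 282) .nil))))))) (.g (nat_lit 1) (.e (nat_lit 147507) (nat_lit 0) .nil) .nil)))) (.nd (nat_lit 9) 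
(.lf (nat_lit 491872) (.g (nat_lit 4773) (.e (nat_lit 163870) (nat_lit 2) (.e (nat_lit 196666) (nat_lit 13) (.e (nat_lit 65571) (nat_lit 3) (.e (nat_lit 98342) (nat_lit 20) (.e (nat_lit 221215) (nat_lit 23) (.e (nat_lit 204830) (nat_lit 18) (.e (nat_lit 57927) (nat_lit 282) .nil))))))) (.g (nat_lit 1) (.e (nat_lit 147016) (nat_lit 0) .nil) .nil))) 
(.lf (nat_lit 492384) (.g (nat_lit 2805) (.e (nat_lit 163872) (nat_lit 3) (.e (nat_lit 204838) (nat_lit 20) (.e (nat_lit 114716) (nat_lit 22) (.e (nat_lit 90174) (nat_lit 14) (.e (nat_lit 180243) (nat_lit 5) (.e (nat_lit 532499) (nat_lit 1) (.e (nat_lit 57686) (nat_lit 156) .nil))))))) (.g (nat_lit 1) (.e (nat_lit 148293) (nat_lit 0) .nil) .nil))))) (.nd (nat_lit 8) (.nd (nat_lit 9) 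
(.lf (nat_lit 491744) (.g (nat_lit 2712) (.e (nat_lit 163869) (nat_lit 2) (.e (nat_lit 196681) (nat_lit 17) (.e (nat_lit 131105) (nat_lit 9) (.e (nat_lit 336454) (nat_lit 34) (.e (nat_lit 483364) (nat_lit 18) (.e (nat_lit 57927) (nat_lit 282) .nil)))))) (.g (nat_lit 1) (.e (nat_lit 146814) (nat_lit 0) .nil) .nil))) 
(.lf (nat_lit 492256) (.g (nat_lit 2506) (.e (nat_lit 163871) (nat_lit 2) (.e (nat_lit 196670) (nat_lit 14) (.e (nat_lit 73746) (nat_lit 3) (.e (nat_lit 516127) (nat_lit 2) (.e (nat_lit 213036) (nat_lit 13) (.e (nat_lit 229433) (nat_lit 25) (.e (nat_lit 532501) (nat_lit 1) (.e (nat_lit 57925) (nat_lit 282) .nil)))))))) (.g (nat_lit 1) (.e (nat_lit 147784) (nat_lit 0) .nil) .nil)))) 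
(.nd (nat_lit 9) 
(.lf (nat_lit 492000) (.g (nat_lit 2686) (.e (nat_lit 163870) (nat_lit 2) (.e (nat_lit 196666) (nat_lit 13) (.e (nat_lit 65610) (nat_lit 10) (.e (nat_lit 344117) (nat_lit 21) (.e (nat_lit 516160) (nat_lit 10) (.e (nat_lit 442112) (nat_lit 18) (.e (nat_lit 4848) (nat_lit 285) .nil))))))) (.g (nat_lit 1) (.e (nat_lit 147200) (nat_lit 0) .nil) .nil))) 
(.lf (nat_lit 492512) (.g (nat_lit 1709) (.e (nat_lit 163873) (nat_lit 3) (.e (nat_lit 204811) (nat_lit 9) (.e (nat_lit 426261) (nat_lit 9) (.e (nat_lit 426503) (nat_lit 27) (.e (nat_lit 336387) (nat_lit 27) (.e (nat_lit 426100) (nat_lit 1) (.e (nat_lit 164332) (nat_lit 230) .nil))))))) (.g (nat_lit 1) (.e (nat_lit 148545) (nat_lit 0) .nil) .nil)))))))) 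
(.nd (nat_lit 5) (.nd (nat_lit 6) (.nd (nat_lit 7) (.nd (nat_lit 8) (.nd (nat_lit 9) 
(.lf (nat_lit 491536) (.g (nat_lit 2992) (.e (nat_lit 163869) (nat_lit 2) (.e (nat_lit 196666) (nat_lit 13) (.e (nat_lit 65610) (nat_lit 10) (.e (nat_lit 344117) (nat_lit 21) (.e (nat_lit 516160) (nat_lit 10) (.e (nat_lit 434205) (nat_lit 18) (.e (nat_lit 7936) (nat_lit 285) .nil))))))) (.g (nat_lit 1) (.e (nat_lit 146290) (nat_lit 0) .nil) .nil))) 
(.lf (nat_lit 492048) (.g (nat_lit 1315) (.e (nat_lit 163871) (nat_lit 2) (.e (nat_lit 196654) (nat_lit 11) (.e (nat_lit 16436) (nat_lit 9) (.e (nat_lit 426479) (nat_lit 27) .nil)))) (.g (nat_lit 0) (.e (nat_lit 147315) (nat_lit 0) .nil) .nil)))) (.nd (nat_lit 9) 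
(.lf (nat_lit 491792) (.g (nat_lit 2250) (.e (nat_lit 163870) (nat_lit 2) (.e (nat_lit 196630) (nat_lit 9) (.e (nat_lit 430) (nat_lit 32) (.e (nat_lit 426188) (nat_lit 9) (.e (nat_lit 426566) (nat_lit 34) (.e (nat_lit 393254) (nat_lit 18) (.e (nat_lit 164326) (nat_lit 230) .nil))))))) (.g (nat_lit 1) (.e (nat_lit 146893) (nat_lit 0) .nil) .nil))) 
(.lf (nat_lit 492304) (.g (nat_lit 3409) (.e (nat_lit 163871) (nat_lit 2) (.e (nat_lit 196670) (nat_lit 14) (.e (nat_lit 73746) (nat_lit 3) (.e (nat_lit 516131) (nat_lit 3) (.e (nat_lit 221215) (nat_lit 23) (.e (nat_lit 204829) (nat_lit 18) (.e (nat_lit 57928) (nat_lit 282) .nil))))))) (.g (nat_lit 1) (.e (nat_lit 147835) (nat_lit 0) .nil) .nil))))) (.nd (nat_lit 8) (.nd (nat_lit 9) 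
(.lf (nat_lit 491664) (.g (nat_lit 3752) (.e (nat_lit 163869) (nat_lit 2) (.e (nat_lit 196670) (nat_lit 14) (.e (nat_lit 73746) (nat_lit 3) (.e (nat_lit 516129) (nat_lit 3) (.e (nat_lit 221215) (nat_lit 23) (.e (nat_lit 204828) (nat_lit 18) (.e (nat_lit 57927) (nat_lit 282) .nil))))))) (.g (nat_lit 1) (.e (nat_lit 146571) (nat_lit 0) .nil) .nil))) 
(.lf (nat_lit 492176) (.g (nat_lit 4321) (.e (nat_lit 163871) (nat_lit 2) (.e (nat_lit 196668) (nat_lit 14) (.e (nat_lit 73747) (nat_lit 3) (.e (nat_lit 516129) (nat_lit 3) (.e (nat_lit 221214) (nat_lit 23) (.e (nat_lit 204829) (nat_lit 18) (.e (nat_lit 57926) (nat_lit 282) .nil))))))) (.g (nat_lit 1) (.e (nat_lit 147612) (nat_lit 0) .nil) .nil)))) (.nd (nat_lit 9) 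
(.lf (nat_lit 491920) (.g (nat_lit 3533) (.e (nat_lit 163870) (nat_lit 2) (.e (nat_lit 196666) (nat_lit 13) (.e (nat_lit 65610) (nat_lit 10) (.e (nat_lit 344117) (nat_lit 21) (.e (nat_lit 516151) (nat_lit 9) (.e (nat_lit 426038) (nat_lit 0) (.e (nat_lit 2449) (nat_lit 157) (.e (nat_lit 7936) (nat_lit 285) .nil)))))))) (.g (nat_lit 1) (.e (nat_lit 147109) (nat_lit 0) .nil) .nil))) 
(.lf (nat_lit 492432) (.g (nat_lit 2859) (.e (nat_lit 163873) (nat_lit 3) (.e (nat_lit 204809) (nat_lit 9) (.e (nat_lit 426188) (nat_lit 9) (.e (nat_lit 426566) (nat_lit 34) (.e (nat_lit 393254) (nat_lit 18) (.e (nat_lit 164325) (nat_lit 230) .nil)))))) (.g (nat_lit 1) (.e (nat_lit 148366) (nat_lit 0) .nil) .nil)))))) (.nd (nat_lit 7) (.nd (nat_lit 8) (.nd (nat_lit 9) 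
(.lf (nat_lit 491600) (.g (nat_lit 4265) (.e (nat_lit 163869) (nat_lit 2) (.e (nat_lit 196668) (nat_lit 14) (.e (nat_lit 73747) (nat_lit 3) (.e (nat_lit 516131) (nat_lit 3) (.e (nat_lit 221215) (nat_lit 23) (.e (nat_lit 204829) (nat_lit 18) (.e (nat_lit 57926) (nat_lit 282) .nil))))))) (.g (nat_lit 1) (.e (nat_lit 146465) (nat_lit 0) .nil) .nil))) 
(.lf (nat_lit 492112) (.g (nat_lit 2614) (.e (nat_lit 163871) (nat_lit 2) (.e (nat_lit 196663) (nat_lit 13) (.e (nat_lit 65571) (nat_lit 3) (.e (nat_lit 98341) (nat_lit 20) (.e (nat_lit 221214) (nat_lit 23) (.e (nat_lit 204829) (nat_lit 18) (.e (nat_lit 57927) (nat_lit 282) .nil))))))) (.g (nat_lit 1) (.e (nat_lit 147454) (nat_lit 0) .nil) .nil)))) (.nd (nat_lit 9) 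
(.lf (nat_lit 491856) (.g (nat_lit 4798) (.e (nat_lit 163870) (nat_lit 2) (.e (nat_lit 196666) (nat_lit 13) (.e (nat_lit 65571) (nat_lit 3) (.e (nat_lit 98342) (nat_lit 20) (.e (nat_lit 221214) (nat_lit 23) (.e (nat_lit 204829) (nat_lit 18) (.e (nat_lit 57925) (nat_lit 282) .nil))))))) (.g (nat_lit 1) (.e (nat_lit 146997) (nat_lit 0) .nil) .nil))) 
(.lf (nat_lit 492368) (.g (nat_lit 2465) (.e (nat_lit 163872) (nat_lit 3) (.e (nat_lit 204838) (nat_lit 20) (.e (nat_lit 114714) (nat_lit 22) (.e (nat_lit 90172) (nat_lit 14) (.e (nat_lit 180244) (nat_lit 5) (.e (nat_lit 532501) (nat_lit 1) (.e (nat_lit 57692) (nat_lit 156) .nil))))))) (.g (nat_lit 1) (.e (nat_lit 148276) (nat_lit 0) .nil) .nil))))) (.nd (nat_lit 8) (.nd (nat_lit 9) 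
(.lf (nat_lit 491728) (.g (nat_lit 3208) (.e (nat_lit 163869) (nat_lit 2) (.e (nat_lit 196670) (nat_lit 14) (.e (nat_lit 73755) (nat_lit 8) (.e (nat_lit 557104) (nat_lit 14) (.e (nat_lit 180244) (nat_lit 5) (.e (nat_lit 532499) (nat_lit 1) (.e (nat_lit 65280) (nat_lit 168) .nil))))))) (.g (nat_lit 1) (.e (nat_lit 146672) (nat_lit 0) .nil) .nil))) 
(.lf (nat_lit 492240) (.g (nat_lit 2576) (.e (nat_lit 163871) (nat_lit 2) (.e (nat_lit 196668) (nat_lit 14) (.e (nat_lit 73755) (nat_lit 8) (.e (nat_lit 557105) (nat_lit 14) (.e (nat_lit 180252) (nat_lit 10) .nil))))) (.g (nat_lit 0) (.e (nat_lit 147762) (nat_lit 0) .nil) .nil)))) (.nd (nat_lit 9) 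
(.lf (nat_lit 491984) (.g (nat_lit 4396) (.e (nat_lit 163870) (nat_lit 2) (.e (nat_lit 196666) (nat_lit 13) (.e (nat_lit 65610) (nat_lit 10) (.e (nat_lit 344117) (nat_lit 21) (.e (nat_lit 516160) (nat_lit 10) (.e (nat_lit 434200) (nat_lit 18) (.e (nat_lit 7936) (nat_lit 285) .nil))))))) (.g (nat_lit 1) (.e (nat_lit 147184) (nat_lit 0) .nil) .nil))) 
(.lf (nat_lit 492496) (.g (nat_lit 1898) (.e (nat_lit 163873) (nat_lit 3) (.e (nat_lit 204811) (nat_lit 9) (.e (nat_lit 426232) (nat_lit 9) (.e (nat_lit 426565) (nat_lit 34) (.e (nat_lit 393254) (nat_lit 18) (.e (nat_lit 164331) (nat_lit 230) .nil)))))) (.g (nat_lit 1) (.e (nat_lit 148529) (nat_lit 0) .nil) .nil))))))) (.nd (nat_lit 6) (.nd (nat_lit 7) (.nd (nat_lit 8) (.nd (nat_lit 9) 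
(.lf (nat_lit 491568) (.g (nat_lit 4293) (.e (nat_lit 163869) (nat_lit 2) (.e (nat_lit 196668) (nat_lit 14) (.e (nat_lit 73746) (nat_lit 3) (.e (nat_lit 516129) (nat_lit 3) (.e (nat_lit 221215) (nat_lit 23) (.e (nat_lit 204831) (nat_lit 18) (.e (nat_lit 57931) (nat_lit 282) .nil))))))) (.g (nat_lit 1) (.e (nat_lit 146374) (nat_lit 0) .nil) .nil))) 
(.lf (nat_lit 492080) (.g (nat_lit 1618) (.e (nat_lit 163871) (nat_lit 2) (.e (nat_lit 196656) (nat_lit 11) (.e (nat_lit 16416) (nat_lit 3) (.e (nat_lit 204833) (nat_lit 19) .nil)))) (.g (nat_lit 0) (.e (nat_lit 147379) (nat_lit 0) .nil) .nil)))) (.nd (nat_lit 9) 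
(.lf (nat_lit 491824) (.g (nat_lit 3429) (.e (nat_lit 163870) (nat_lit 2) (.e (nat_lit 196666) (nat_lit 13) (.e (nat_lit 65569) (nat_lit 3) (.e (nat_lit 98342) (nat_lit 20) (.e (nat_lit 221215) (nat_lit 23) (.e (nat_lit 204828) (nat_lit 18) (.e (nat_lit 57925) (nat_lit 282) .nil))))))) (.g (nat_lit 1) (.e (nat_lit 146939) (nat_lit 0) .nil) .nil))) 
(.lf (nat_lit 492336) (.g (nat_lit 2067) (.e (nat_lit 163871) (nat_lit 2) (.e (nat_lit 196674) (nat_lit 15) (.e (nat_lit 81925) (nat_lit 11) (.e (nat_lit 426500) (nat_lit 27) (.e (nat_lit 335988) (nat_lit 1) (.e (nat_lit 57928) (nat_lit 282) .nil)))))) (.g (nat_lit 1) (.e (nat_lit 148069) (nat_lit 0) .nil) .nil))))) (.nd (nat_lit 8) (.nd (nat_lit 9) 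
(.lf (nat_lit 491696) (.g (nat_lit 4713) (.e (nat_lit 163869) (nat_lit 2) (.e (nat_lit 196670) (nat_lit 14) (.e (nat_lit 73753) (nat_lit 8) (.e (nat_lit 557103) (nat_lit 14) (.e (nat_lit 180243) (nat_lit 5) (.e (nat_lit 532504) (nat_lit 1) (.e (nat_lit 65280) (nat_lit 168) .nil))))))) (.g (nat_lit 1) (.e (nat_lit 146633) (nat_lit 0) .nil) .nil))) 
(.lf (nat_lit 492208) (.g (nat_lit 2521) (.e (nat_lit 163871) (nat_lit 2) (.e (nat_lit 196668) (nat_lit 14) (.e (nat_lit 73747) (nat_lit 3) (.e (nat_lit 516131) (nat_lit 3) (.e (nat_lit 221213) (nat_lit 23) (.e (nat_lit 204830) (nat_lit 18) (.e (nat_lit 57924) (nat_lit 282) .nil))))))) (.g (nat_lit 1) (.e (nat_lit 147670) (nat_lit 0) .nil) .nil)))) (.nd (nat_lit 9) 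
(.lf (nat_lit 491952) (.g (nat_lit 3461) (.e (nat_lit 163870) (nat_lit 2) (.e (nat_lit 196666) (nat_lit 13) (.e (nat_lit 65610) (nat_lit 10) (.e (nat_lit 344117) (nat_lit 21) (.e (nat_lit 516151) (nat_lit 9) (.e (nat_lit 426047) (nat_lit 0) (.e (nat_lit 2458) (nat_lit 157) (.e (nat_lit 7936) (nat_lit 285) .nil)))))))) (.g (nat_lit 1) (.e (nat_lit 147141) (nat_lit 0) .nil) .nil))) 
(.lf (nat_lit 492464) (.g (nat_lit 1607) (.e (nat_lit 163873) (nat_lit 3) (.e (nat_lit 204809) (nat_lit 9) (.e (nat_lit 426200) (nat_lit 9) (.e (nat_lit 426481) (nat_lit 27) (.e (nat_lit 336388) (nat_lit 27) .nil))))) (.g (nat_lit 0) (.e (nat_lit 148398) (nat_lit 0) .nil) .nil)))))) (.nd (nat_lit 7) (.nd (nat_lit 8) (.nd (nat_lit 9) 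
(.lf (nat_lit 491632) (.g (nat_lit 2227) (.e (nat_lit 163869) (nat_lit 2) (.e (nat_lit 196670) (nat_lit 14) (.e (nat_lit 73746) (nat_lit 3) (.e (nat_lit 516124) (nat_lit 2) (.e (nat_lit 220928) (nat_lit 12) (.e (nat_lit 163962) (nat_lit 25) (.e (nat_lit 532500) (nat_lit 1) (.e (nat_lit 57927) (nat_lit 282) .nil)))))))) (.g (nat_lit 1) (.e (nat_lit 146526) (nat_lit 0) .nil) .nil))) 
(.lf (nat_lit 492144) (.g (nat_lit 3776) (.e (nat_lit 163871) (nat_lit 2) (.e (nat_lit 196668) (nat_lit 14) (.e (nat_lit 73746) (nat_lit 3) (.e (nat_lit 516129) (nat_lit 3) (.e (nat_lit 221215) (nat_lit 23) (.e (nat_lit 204830) (nat_lit 18) (.e (nat_lit 57927) (nat_lit 282) .nil))))))) (.g (nat_lit 1) (.e (nat_lit 147523) (nat_lit 0) .nil) .nil)))) (.nd (nat_lit 9) 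
(.lf (nat_lit 491888) (.g (nat_lit 3296) (.e (nat_lit 163870) (nat_lit 2) (.e (nat_lit 196666) (nat_lit 13) (.e (nat_lit 65610) (nat_lit 10) (.e (nat_lit 344117) (nat_lit 21) (.e (nat_lit 516145) (nat_lit 9) (.e (nat_lit 426111) (nat_lit 1) (.e (nat_lit 171776) (nat_lit 219) .nil))))))) (.g (nat_lit 1) (.e (nat_lit 147044) (nat_lit 0) .nil) .nil))) 
(.lf (nat_lit 492400) (.g (nat_lit 2313) (.e (nat_lit 163872) (nat_lit 3) (.e (nat_lit 204838) (nat_lit 20) (.e (nat_lit 114719) (nat_lit 23) (.e (nat_lit 98365) (nat_lit 26) (.e (nat_lit 426133) (nat_lit 3) (.e (nat_lit 204829) (nat_lit 18) (.e (nat_lit 57691) (nat_lit 156) .nil))))))) (.g (nat_lit 1) (.e (nat_lit 148311) (nat_lit 0) .nil) .nil))))) (.nd (nat_lit 8) (.nd (nat_lit 9) 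
(.lf (nat_lit 491760) (.g (nat_lit 2716) (.e (nat_lit 163869) (nat_lit 2) (.e (nat_lit 196681) (nat_lit 17) (.e (nat_lit 131109) (nat_lit 9) (.e (nat_lit 336454) (nat_lit 34) (.e (nat_lit 483364) (nat_lit 18) (.e (nat_lit 57929) (nat_lit 282) .nil)))))) (.g (nat_lit 1) (.e (nat_lit 146844) (nat_lit 0) .nil) .nil))) 
(.lf (nat_lit 492272) (.g (nat_lit 3543) (.e (nat_lit 163871) (nat_lit 2) (.e (nat_lit 196670) (nat_lit 14) (.e (nat_lit 73746) (nat_lit 3) (.e (nat_lit 516129) (nat_lit 3) (.e (nat_lit 221214) (nat_lit 23) (.e (nat_lit 204830) (nat_lit 18) (.e (nat_lit 57924) (nat_lit 282) .nil))))))) (.g (nat_lit 1) (.e (nat_lit 147800) (nat_lit 0) .nil) .nil)))) (.nd (nat_lit 9) 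
(.lf (nat_lit 492016) (.g (nat_lit 461) (.e (nat_lit 163870) (nat_lit 2) (.e (nat_lit 196666) (nat_lit 13) (.e (nat_lit 65627) (nat_lit 13) .nil))) (.g (nat_lit 0) (.e (nat_lit 147248) (nat_lit 0) .nil) .nil))) 
(.lf (nat_lit 492528) (.g (nat_lit 4155) (.e (nat_lit 163873) (nat_lit 3) (.e (nat_lit 204813) (nat_lit 9) (.e (nat_lit 426185) (nat_lit 9) (.e (nat_lit 426566) (nat_lit 34) (.e (nat_lit 393253) (nat_lit 18) (.e (nat_lit 164331) (nat_lit 230) .nil)))))) (.g (nat_lit 1) (.e (nat_lit 148603) (nat_lit 0) .nil) .nil))))))))) 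
(.nd (nat_lit 4) (.nd (nat_lit 5) (.nd (nat_lit 6) (.nd (nat_lit 7) (.nd (nat_lit 8) 
(.nd (nat_lit 9) 
(.lf (nat_lit 491528) (.g (nat_lit 2925) (.e (nat_lit 163869) (nat_lit 2) (.e (nat_lit 196666) (nat_lit 13) (.e (nat_lit 65610) (nat_lit 10) (.e (nat_lit 344117) (nat_lit 21) (.e (nat_lit 516160) (nat_lit 10) (.e (nat_lit 434199) (nat_lit 18) (.e (nat_lit 7936) (nat_lit 285) .nil))))))) (.g (nat_lit 1) (.e (nat_lit 146282) (nat_lit 0) .nil) .nil))) 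
(.lf (nat_lit 492040) (.g (nat_lit 472) (.e (nat_lit 163871) (nat_lit 2) (.e (nat_lit 196654) (nat_lit 11) (.e (nat_lit 16432) (nat_lit 9) .nil))) (.g (nat_lit 0) (.e (nat_lit 147303) (nat_lit 0) .nil) .nil)))) (.nd (nat_lit 9) 
(.lf (nat_lit 491784) (.g (nat_lit 2908) (.e (nat_lit 163869) (nat_lit 2) (.e (nat_lit 196681) (nat_lit 17) (.e (nat_lit 131128) (nat_lit 13) (.e (nat_lit 393225) (nat_lit 9) (.e (nat_lit 335988) (nat_lit 1) (.e (nat_lit 57927) (nat_lit 282) .nil)))))) (.g (nat_lit 1) (.e (nat_lit 146881) (nat_lit 0) .nil) .nil))) 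
(.lf (nat_lit 492296) (.g (nat_lit 3425) (.e (nat_lit 163871) (nat_lit 2) (.e (nat_lit 196670) (nat_lit 14) (.e (nat_lit 73746) (nat_lit 3) (.e (nat_lit 516131) (nat_lit 3) (.e (nat_lit 221214) (nat_lit 23) (.e (nat_lit 204830) (nat_lit 18) (.e (nat_lit 57928) (nat_lit 282) .nil))))))) (.g (nat_lit 1) (.e (nat_lit 147827) (nat_lit 0) .nil) .nil))))) (.nd (nat_lit 8) (.nd (nat_lit 9) 
(.lf (nat_lit 491656) (.g (nat_lit 3140) (.e (nat_lit 163869) (nat_lit 2) (.e (nat_lit 196670) (nat_lit 14) (.e (nat_lit 73746) (nat_lit 3) (.e (nat_lit 516129) (nat_lit 3) (.e (nat_lit 221214) (nat_lit 23) (.e (nat_lit 204828) (nat_lit 18) (.e (nat_lit 57927) (nat_lit 282) .nil))))))) (.g (nat_lit 1) (.e (nat_lit 146562) (nat_lit 0) .nil) .nil))) 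
(.lf (nat_lit 492168) (.g (nat_lit 2649) (.e (nat_lit 163871) (nat_lit 2) (.e (nat_lit 196668) (nat_lit 14) (.e (nat_lit 73747) (nat_lit 3) (.e (nat_lit 516129) (nat_lit 3) (.e (nat_lit 221213) (nat_lit 23) (.e (nat_lit 204829) (nat_lit 18) (.e (nat_lit 57928) (nat_lit 282) .nil))))))) (.g (nat_lit 1) (.e (nat_lit 147600) (nat_lit 0) .nil) .nil)))) (.nd (nat_lit 9) 
(.lf (nat_lit 491912) (.g (nat_lit 4166) (.e (nat_lit 163870) (nat_lit 2) (.e (nat_lit 196666) (nat_lit 13) (.e (nat_lit 65610) (nat_lit 10) (.e (nat_lit 344117) (nat_lit 21) (.e (nat_lit 516151) (nat_lit 9) (.e (nat_lit 426023) (nat_lit 0) (.e (nat_lit 2403) (nat_lit 157) (.e (nat_lit 4847) (nat_lit 285) .nil)))))))) (.g (nat_lit 1) (.e (nat_lit 147101) (nat_lit 0) .nil) .nil))) 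
(.lf (nat_lit 492424) (.g (nat_lit 3864) (.e (nat_lit 163873) (nat_lit 3) (.e (nat_lit 204809) (nat_lit 9) (.e (nat_lit 426187) (nat_lit 9) (.e (nat_lit 426566) (nat_lit 34) (.e (nat_lit 393253) (nat_lit 18) (.e (nat_lit 164325) (nat_lit 230) .nil)))))) (.g (nat_lit 1) (.e (nat_lit 148358) (nat_lit 0) .nil) .nil)))))) (.nd (nat_lit 7) (.nd (nat_lit 8) (.nd (nat_lit 9) 
(.lf (nat_lit 491592) (.g (nat_lit 2294) (.e (nat_lit 163869) (nat_lit 2) (.e (nat_lit 196668) (nat_lit 14) (.e (nat_lit 73747) (nat_lit 3) (.e (nat_lit 516130) (nat_lit 3) (.e (nat_lit 221214) (nat_lit 23) (.e (nat_lit 204829) (nat_lit 18) (.e (nat_lit 57926) (nat_lit 282) .nil))))))) (.g (nat_lit 1) (.e (nat_lit 146433) (nat_lit 0) .nil) .nil))) 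
(.lf (nat_lit 492104) (.g (nat_lit 1075) (.e (nat_lit 163871) (nat_lit 2) (.e (nat_lit 196656) (nat_lit 11) (.e (nat_lit 16465) (nat_lit 13) (.e (nat_lit 483341) (nat_lit 9) .nil)))) (.g (nat_lit 0) (.e (nat_lit 147428) (nat_lit 0) .nil) .nil)))) (.nd (nat_lit 9) 
(.lf (nat_lit 491848) (.g (nat_lit 3498) (.e (nat_lit 163870) (nat_lit 2) (.e (nat_lit 196666) (nat_lit 13) (.e (nat_lit 65571) (nat_lit 3) (.e (nat_lit 98342) (nat_lit 20) (.e (nat_lit 221213) (nat_lit 23) (.e (nat_lit 204829) (nat_lit 18) (.e (nat_lit 57925) (nat_lit 282) .nil))))))) (.g (nat_lit 1) (.e (nat_lit 146988) (nat_lit 0) .nil) .nil))) 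
(.lf (nat_lit 492360) (.g (nat_lit 2737) (.e (nat_lit 163872) (nat_lit 3) (.e (nat_lit 204838) (nat_lit 20) (.e (nat_lit 114714) (nat_lit 22) (.e (nat_lit 90170) (nat_lit 13) (.e (nat_lit 172065) (nat_lit 3) .nil))))) (.g (nat_lit 0) (.e (nat_lit 148268) (nat_lit 0) .nil) .nil))))) (.nd (nat_lit 8) (.nd (nat_lit 9) 
(.lf (nat_lit 491720) (.g (nat_lit 3208) (.e (nat_lit 163869) (nat_lit 2) (.e (nat_lit 196670) (nat_lit 14) (.e (nat_lit 73754) (nat_lit 8) (.e (nat_lit 557105) (nat_lit 14) (.e (nat_lit 180244) (nat_lit 5) (.e (nat_lit 532499) (nat_lit 1) (.e (nat_lit 65280) (nat_lit 168) .nil))))))) (.g (nat_lit 1) (.e (nat_lit 146663) (nat_lit 0) .nil) .nil))) 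
(.lf (nat_lit 492232) (.g (nat_lit 3823) (.e (nat_lit 163871) (nat_lit 2) (.e (nat_lit 196668) (nat_lit 14) (.e (nat_lit 73753) (nat_lit 8) (.e (nat_lit 557103) (nat_lit 14) (.e (nat_lit 180243) (nat_lit 5) (.e (nat_lit 532503) (nat_lit 1) (.e (nat_lit 65280) (nat_lit 168) .nil))))))) (.g (nat_lit 1) (.e (nat_lit 147749) (nat_lit 0) .nil) .nil)))) (.nd (nat_lit 9) 
(.lf (nat_lit 491976) (.g (nat_lit 2584) (.e (nat_lit 163870) (nat_lit 2) (.e (nat_lit 196666) (nat_lit 13) (.e (nat_lit 65610) (nat_lit 10) (.e (nat_lit 344117) (nat_lit 21) (.e (nat_lit 516159) (nat_lit 10) (.e (nat_lit 434211) (nat_lit 18) (.e (nat_lit 7936) (nat_lit 285) .nil))))))) (.g (nat_lit 1) (.e (nat_lit 147176) (nat_lit 0) .nil) .nil))) 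
(.lf (nat_lit 492488) (.g (nat_lit 1915) (.e (nat_lit 163873) (nat_lit 3) (.e (nat_lit 204811) (nat_lit 9) (.e (nat_lit 426228) (nat_lit 9) (.e (nat_lit 426565) (nat_lit 34) (.e (nat_lit 393253) (nat_lit 18) (.e (nat_lit 164330) (nat_lit 230) .nil)))))) (.g (nat_lit 1) (.e (nat_lit 148521) (nat_lit 0) .nil) .nil))))))) (.nd (nat_lit 6) (.nd (nat_lit 7) (.nd (nat_lit 8) (.nd (nat_lit 9) 
(.lf (nat_lit 491560) (.g (nat_lit 4826) (.e (nat_lit 163869) (nat_lit 2) (.e (nat_lit 196668) (nat_lit 14) (.e (nat_lit 73746) (nat_lit 3) (.e (nat_lit 516129) (nat_lit 3) (.e (nat_lit 221214) (nat_lit 23) (.e (nat_lit 204830) (nat_lit 18) (.e (nat_lit 57931) (nat_lit 282) .nil))))))) (.g (nat_lit 1) (.e (nat_lit 146364) (nat_lit 0) .nil) .nil))) 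
(.lf (nat_lit 492072) (.g (nat_lit 1597) (.e (nat_lit 163871) (nat_lit 2) (.e (nat_lit 196654) (nat_lit 11) (.e (nat_lit 16466) (nat_lit 13) (.e (nat_lit 483341) (nat_lit 9) (.e (nat_lit 426105) (nat_lit 1) .nil))))) (.g (nat_lit 0) (.e (nat_lit 147352) (nat_lit 0) .nil) .nil)))) (.nd (nat_lit 9) 
(.lf (nat_lit 491816) (.g (nat_lit 4225) (.e (nat_lit 163870) (nat_lit 2) (.e (nat_lit 196666) (nat_lit 13) (.e (nat_lit 65569) (nat_lit 3) (.e (nat_lit 98342) (nat_lit 20) (.e (nat_lit 221213) (nat_lit 23) (.e (nat_lit 204830) (nat_lit 18) (.e (nat_lit 57925) (nat_lit 282) .nil))))))) (.g (nat_lit 1) (.e (nat_lit 146928) (nat_lit 0) .nil) .nil))) 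
(.lf (nat_lit 492328) (.g (nat_lit 2680) (.e (nat_lit 163871) (nat_lit 2) (.e (nat_lit 196672) (nat_lit 15) (.e (nat_lit 81927) (nat_lit 11) (.e (nat_lit 426500) (nat_lit 27) (.e (nat_lit 335986) (nat_lit 1) (.e (nat_lit 57925) (nat_lit 282) .nil)))))) (.g (nat_lit 1) (.e (nat_lit 147864) (nat_lit 0) .nil) .nil))))) (.nd (nat_lit 8) (.nd (nat_lit 9) 
(.lf (nat_lit 491688) (.g (nat_lit 2202) (.e (nat_lit 163869) (nat_lit 2) (.e (nat_lit 196670) (nat_lit 14) (.e (nat_lit 73746) (nat_lit 3) (.e (nat_lit 516131) (nat_lit 3) (.e (nat_lit 221215) (nat_lit 23) (.e (nat_lit 204831) (nat_lit 18) (.e (nat_lit 57930) (nat_lit 282) .nil))))))) (.g (nat_lit 1) (.e (nat_lit 146608) (nat_lit 0) .nil) .nil))) 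
(.lf (nat_lit 492200) (.g (nat_lit 2799) (.e (nat_lit 163871) (nat_lit 2) (.e (nat_lit 196668) (nat_lit 14) (.e (nat_lit 73747) (nat_lit 3) (.e (nat_lit 516130) (nat_lit 3) (.e (nat_lit 221214) (nat_lit 23) (.e (nat_lit 204830) (nat_lit 18) (.e (nat_lit 57925) (nat_lit 282) .nil))))))) (.g (nat_lit 1) (.e (nat_lit 147639) (nat_lit 0) .nil) .nil)))) (.nd (nat_lit 9) 
(.lf (nat_lit 491944) (.g (nat_lit 3383) (.e (nat_lit 163870) (nat_lit 2) (.e (nat_lit 196666) (nat_lit 13) (.e (nat_lit 65610) (nat_lit 10) (.e (nat_lit 344117) (nat_lit 21) (.e (nat_lit 516151) (nat_lit 9) (.e (nat_lit 426043) (nat_lit 0) (.e (nat_lit 2423) (nat_lit 157) (.e (nat_lit 7936) (nat_lit 285) .nil)))))))) (.g (nat_lit 1) (.e (nat_lit 147133) (nat_lit 0) .nil) .nil))) 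
(.lf (nat_lit 492456) (.g (nat_lit 2343) (.e (nat_lit 163873) (nat_lit 3) (.e (nat_lit 204809) (nat_lit 9) (.e (nat_lit 426198) (nat_lit 9) (.e (nat_lit 426566) (nat_lit 34) (.e (nat_lit 393252) (nat_lit 18) (.e (nat_lit 164330) (nat_lit 230) .nil)))))) (.g (nat_lit 1) (.e (nat_lit 148390) (nat_lit 0) .nil) .nil)))))) (.nd (nat_lit 7) (.nd (nat_lit 8) (.nd (nat_lit 9) 
(.lf (nat_lit 491624) (.g (nat_lit 2824) (.e (nat_lit 163869) (nat_lit 2) (.e (nat_lit 196670) (nat_lit 14) (.e (nat_lit 73746) (nat_lit 3) (.e (nat_lit 516124) (nat_lit 2) (.e (nat_lit 213034) (nat_lit 12) (.e (nat_lit 163964) (nat_lit 25) (.e (nat_lit 532499) (nat_lit 1) (.e (nat_lit 57927) (nat_lit 282) .nil)))))))) (.g (nat_lit 1) (.e (nat_lit 146518) (nat_lit 0) .nil) .nil))) 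
(.lf (nat_lit 492136) (.g (nat_lit 3801) (.e (nat_lit 163871) (nat_lit 2) (.e (nat_lit 196668) (nat_lit 14) (.e (nat_lit 73746) (nat_lit 3) (.e (nat_lit 516129) (nat_lit 3) (.e (nat_lit 221214) (nat_lit 23) (.e (nat_lit 204830) (nat_lit 18) (.e (nat_lit 57928) (nat_lit 282) .nil))))))) (.g (nat_lit 1) (.e (nat_lit 147515) (nat_lit 0) .nil) .nil)))) (.nd (nat_lit 9) 
(.lf (nat_lit 491880) (.g (nat_lit 3458) (.e (nat_lit 163870) (nat_lit 2) (.e (nat_lit 196666) (nat_lit 13) (.e (nat_lit 65610) (nat_lit 10) (.e (nat_lit 344117) (nat_lit 21) (.e (nat_lit 516143) (nat_lit 9) (.e (nat_lit 426143) (nat_lit 4) (.e (nat_lit 237312) (nat_lit 219) .nil))))))) (.g (nat_lit 1) (.e (nat_lit 147036) (nat_lit 0) .nil) .nil))) 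
(.lf (nat_lit 492392) (.g (nat_lit 2013) (.e (nat_lit 163872) (nat_lit 3) (.e (nat_lit 204838) (nat_lit 20) (.e (nat_lit 114716) (nat_lit 22) (.e (nat_lit 90185) (nat_lit 17) (.e (nat_lit 237592) (nat_lit 3) (.e (nat_lit 204829) (nat_lit 18) (.e (nat_lit 57686) (nat_lit 156) .nil))))))) (.g (nat_lit 1) (.e (nat_lit 148301) (nat_lit 0) .nil) .nil))))) (.nd (nat_lit 8) (.nd (nat_lit 9) 
(.lf (nat_lit 491752) (.g (nat_lit 857) (.e (nat_lit 163869) (nat_lit 2) (.e (nat_lit 196681) (nat_lit 17) (.e (nat_lit 131107) (nat_lit 9) .nil))) (.g (nat_lit 0) (.e (nat_lit 146824) (nat_lit 0) .nil) .nil))) 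
(.lf (nat_lit 492264) (.g (nat_lit 2575) (.e (nat_lit 163871) (nat_lit 2) (.e (nat_lit 196670) (nat_lit 14) (.e (nat_lit 73746) (nat_lit 3) (.e (nat_lit 516129) (nat_lit 3) (.e (nat_lit 221213) (nat_lit 23) (.e (nat_lit 204830) (nat_lit 18) (.e (nat_lit 57925) (nat_lit 282) .nil))))))) (.g (nat_lit 1) (.e (nat_lit 147792) (nat_lit 0) .nil) .nil)))) (.nd (nat_lit 9) 
(.lf (nat_lit 492008) (.g (nat_lit 3055) (.e (nat_lit 163870) (nat_lit 2) (.e (nat_lit 196666) (nat_lit 13) (.e (nat_lit 65625) (nat_lit 13) (.e (nat_lit 393225) (nat_lit 9) (.e (nat_lit 335988) (nat_lit 1) (.e (nat_lit 57927) (nat_lit 282) .nil)))))) (.g (nat_lit 1) (.e (nat_lit 147238) (nat_lit 0) .nil) .nil))) 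
(.lf (nat_lit 492520) (.g (nat_lit 1795) (.e (nat_lit 163873) (nat_lit 3) (.e (nat_lit 204811) (nat_lit 9) (.e (nat_lit 426262) (nat_lit 9) (.e (nat_lit 426565) (nat_lit 34) (.e (nat_lit 393253) (nat_lit 18) (.e (nat_lit 164326) (nat_lit 230) .nil)))))) (.g (nat_lit 1) (.e (nat_lit 148553) (nat_lit 0) .nil) .nil)))))))) 
(.nd (nat_lit 5) (.nd (nat_lit 6) (.nd (nat_lit 7) (.nd (nat_lit 8) (.nd (nat_lit 9) 
(.lf (nat_lit 491544) (.g (nat_lit 2549) (.e (nat_lit 163869) (nat_lit 2) (.e (nat_lit 196666) (nat_lit 13) (.e (nat_lit 65610) (nat_lit 10) (.e (nat_lit 344117) (nat_lit 21) (.e (nat_lit 516160) (nat_lit 10) (.e (nat_lit 442112) (nat_lit 18) (.e (nat_lit 4847) (nat_lit 285) .nil))))))) (.g (nat_lit 1) (.e (nat_lit 146298) (nat_lit 0) .nil) .nil))) 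
(.lf (nat_lit 492056) (.g (nat_lit 2186) (.e (nat_lit 163871) (nat_lit 2) (.e (nat_lit 196654) (nat_lit 11) (.e (nat_lit 16438) (nat_lit 9) (.e (nat_lit 426482) (nat_lit 27) (.e (nat_lit 336388) (nat_lit 27) .nil))))) (.g (nat_lit 0) (.e (nat_lit 147327) (nat_lit 0) .nil) .nil)))) (.nd (nat_lit 9) 
(.lf (nat_lit 491800) (.g (nat_lit 3222) (.e (nat_lit 163870) (nat_lit 2) (.e (nat_lit 196666) (nat_lit 13) (.e (nat_lit 65569) (nat_lit 3) (.e (nat_lit 98341) (nat_lit 20) (.e (nat_lit 221213) (nat_lit 23) (.e (nat_lit 204830) (nat_lit 18) (.e (nat_lit 57926) (nat_lit 282) .nil))))))) (.g (nat_lit 1) (.e (nat_lit 146909) (nat_lit 0) .nil) .nil))) 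
(.lf (nat_lit 492312) (.g (nat_lit 3499) (.e (nat_lit 163871) (nat_lit 2) (.e (nat_lit 196670) (nat_lit 14) (.e (nat_lit 73753) (nat_lit 8) (.e (nat_lit 557103) (nat_lit 14) (.e (nat_lit 180243) (nat_lit 5) (.e (nat_lit 532501) (nat_lit 1) (.e (nat_lit 65280) (nat_lit 168) .nil))))))) (.g (nat_lit 1) (.e (nat_lit 147845) (nat_lit 0) .nil) .nil))))) (.nd (nat_lit 8) (.nd (nat_lit 9) 
(.lf (nat_lit 491672) (.g (nat_lit 3185) (.e (nat_lit 163869) (nat_lit 2) (.e (nat_lit 196670) (nat_lit 14) (.e (nat_lit 73746) (nat_lit 3) (.e (nat_lit 516129) (nat_lit 3) (.e (nat_lit 221215) (nat_lit 23) (.e (nat_lit 204831) (nat_lit 18) (.e (nat_lit 57929) (nat_lit 282) .nil))))))) (.g (nat_lit 1) (.e (nat_lit 146579) (nat_lit 0) .nil) .nil))) 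
(.lf (nat_lit 492184) (.g (nat_lit 2475) (.e (nat_lit 163871) (nat_lit 2) (.e (nat_lit 196668) (nat_lit 14) (.e (nat_lit 73747) (nat_lit 3) (.e (nat_lit 516129) (nat_lit 3) (.e (nat_lit 221214) (nat_lit 23) (.e (nat_lit 204831) (nat_lit 18) (.e (nat_lit 57924) (nat_lit 282) .nil))))))) (.g (nat_lit 1) (.e (nat_lit 147620) (nat_lit 0) .nil) .nil)))) (.nd (nat_lit 9) 
(.lf (nat_lit 491928) (.g (nat_lit 4579) (.e (nat_lit 163870) (nat_lit 2) (.e (nat_lit 196666) (nat_lit 13) (.e (nat_lit 65610) (nat_lit 10) (.e (nat_lit 344117) (nat_lit 21) (.e (nat_lit 516151) (nat_lit 9) (.e (nat_lit 426042) (nat_lit 0) (.e (nat_lit 2416) (nat_lit 157) (.e (nat_lit 4849) (nat_lit 285) .nil)))))))) (.g (nat_lit 1) (.e (nat_lit 147117) (nat_lit 0) .nil) .nil))) 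
(.lf (nat_lit 492440) (.g (nat_lit 2129) (.e (nat_lit 163873) (nat_lit 3) (.e (nat_lit 204809) (nat_lit 9) (.e (nat_lit 426188) (nat_lit 9) (.e (nat_lit 426568) (nat_lit 34) (.e (nat_lit 393253) (nat_lit 18) (.e (nat_lit 164330) (nat_lit 230) .nil)))))) (.g (nat_lit 1) (.e (nat_lit 148374) (nat_lit 0) .nil) .nil)))))) (.nd (nat_lit 7) (.nd (nat_lit 8) (.nd (nat_lit 9) 
(.lf (nat_lit 491608) (.g (nat_lit 4546) (.e (nat_lit 163869) (nat_lit 2) (.e (nat_lit 196668) (nat_lit 14) (.e (nat_lit 73753) (nat_lit 8) (.e (nat_lit 557103) (nat_lit 14) (.e (nat_lit 180244) (nat_lit 5) (.e (nat_lit 532503) (nat_lit 1) (.e (nat_lit 65280) (nat_lit 168) .nil))))))) (.g (nat_lit 1) (.e (nat_lit 146492) (nat_lit 0) .nil) .nil))) 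
(.lf (nat_lit 492120) (.g (nat_lit 2363) (.e (nat_lit 163871) (nat_lit 2) (.e (nat_lit 196664) (nat_lit 13) (.e (nat_lit 65571) (nat_lit 3) (.e (nat_lit 98342) (nat_lit 20) (.e (nat_lit 221214) (nat_lit 23) (.e (nat_lit 204829) (nat_lit 18) (.e (nat_lit 57927) (nat_lit 282) .nil))))))) (.g (nat_lit 1) (.e (nat_lit 147462) (nat_lit 0) .nil) .nil)))) (.nd (nat_lit 9) 
(.lf (nat_lit 491864) (.g (nat_lit 3388) (.e (nat_lit 163870) (nat_lit 2) (.e (nat_lit 196666) (nat_lit 13) (.e (nat_lit 65571) (nat_lit 3) (.e (nat_lit 98342) (nat_lit 20) (.e (nat_lit 221215) (nat_lit 23) (.e (nat_lit 204828) (nat_lit 18) (.e (nat_lit 57927) (nat_lit 282) .nil))))))) (.g (nat_lit 1) (.e (nat_lit 147008) (nat_lit 0) .nil) .nil))) 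
(.lf (nat_lit 492376) (.g (nat_lit 1615) (.e (nat_lit 163872) (nat_lit 3) (.e (nat_lit 204838) (nat_lit 20) (.e (nat_lit 114716) (nat_lit 22) (.e (nat_lit 90172) (nat_lit 14) (.e (nat_lit 180244) (nat_lit 5) .nil))))) (.g (nat_lit 0) (.e (nat_lit 148285) (nat_lit 0) .nil) .nil))))) (.nd (nat_lit 8) (.nd (nat_lit 9) 
(.lf (nat_lit 491736) (.g (nat_lit 3081) (.e (nat_lit 163869) (nat_lit 2) (.e (nat_lit 196674) (nat_lit 15) (.e (nat_lit 81925) (nat_lit 11) (.e (nat_lit 426500) (nat_lit 27) (.e (nat_lit 335995) (nat_lit 1) (.e (nat_lit 57930) (nat_lit 282) .nil)))))) (.g (nat_lit 1) (.e (nat_lit 146748) (nat_lit 0) .nil) .nil))) 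
(.lf (nat_lit 492248) (.g (nat_lit 2258) (.e (nat_lit 163871) (nat_lit 2) (.e (nat_lit 196670) (nat_lit 14) (.e (nat_lit 73746) (nat_lit 3) (.e (nat_lit 516124) (nat_lit 2) (.e (nat_lit 213037) (nat_lit 13) (.e (nat_lit 229433) (nat_lit 25) (.e (nat_lit 532501) (nat_lit 1) (.e (nat_lit 57925) (nat_lit 282) .nil)))))))) (.g (nat_lit 1) (.e (nat_lit 147776) (nat_lit 0) .nil) .nil)))) 
(.nd (nat_lit 9) 
(.lf (nat_lit 491992) (.g (nat_lit 4370) (.e (nat_lit 163870) (nat_lit 2) (.e (nat_lit 196666) (nat_lit 13) (.e (nat_lit 65610) (nat_lit 10) (.e (nat_lit 344117) (nat_lit 21) (.e (nat_lit 516160) (nat_lit 10) (.e (nat_lit 434207) (nat_lit 18) (.e (nat_lit 7936) (nat_lit 285) .nil))))))) (.g (nat_lit 1) (.e (nat_lit 147192) (nat_lit 0) .nil) .nil))) 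
(.lf (nat_lit 492504) (.g (nat_lit 2332) (.e (nat_lit 163873) (nat_lit 3) (.e (nat_lit 204811) (nat_lit 9) (.e (nat_lit 426260) (nat_lit 9) (.e (nat_lit 426565) (nat_lit 34) (.e (nat_lit 393253) (nat_lit 18) (.e (nat_lit 164324) (nat_lit 230) .nil)))))) (.g (nat_lit 1) (.e (nat_lit 148537) (nat_lit 0) .nil) .nil))))))) (.nd (nat_lit 6) (.nd (nat_lit 7) (.nd (nat_lit 8) (.nd (nat_lit 9) 
(.lf (nat_lit 491576) (.g (nat_lit 3478) (.e (nat_lit 163869) (nat_lit 2) (.e (nat_lit 196668) (nat_lit 14) (.e (nat_lit 73746) (nat_lit 3) (.e (nat_lit 516131) (nat_lit 3) (.e (nat_lit 221215) (nat_lit 23) (.e (nat_lit 204830) (nat_lit 18) (.e (nat_lit 57927) (nat_lit 282) .nil))))))) (.g (nat_lit 1) (.e (nat_lit 146384) (nat_lit 0) .nil) .nil))) 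
(.lf (nat_lit 492088) (.g (nat_lit 3617) (.e (nat_lit 163871) (nat_lit 2) (.e (nat_lit 196656) (nat_lit 11) (.e (nat_lit 16433) (nat_lit 9) (.e (nat_lit 426566) (nat_lit 34) (.e (nat_lit 393251) (nat_lit 18) (.e (nat_lit 164325) (nat_lit 230) .nil)))))) (.g (nat_lit 1) (.e (nat_lit 147399) (nat_lit 0) .nil) .nil)))) (.nd (nat_lit 9) 
(.lf (nat_lit 491832) (.g (nat_lit 3279) (.e (nat_lit 163870) (nat_lit 2) (.e (nat_lit 196666) (nat_lit 13) (.e (nat_lit 65571) (nat_lit 3) (.e (nat_lit 98341) (nat_lit 20) (.e (nat_lit 221213) (nat_lit 23) (.e (nat_lit 204829) (nat_lit 18) (.e (nat_lit 57925) (nat_lit 282) .nil))))))) (.g (nat_lit 1) (.e (nat_lit 146958) (nat_lit 0) .nil) .nil))) 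
(.lf (nat_lit 492344) (.g (nat_lit 2337) (.e (nat_lit 163872) (nat_lit 3) (.e (nat_lit 204837) (nat_lit 20) (.e (nat_lit 114714) (nat_lit 22) (.e (nat_lit 90170) (nat_lit 13) (.e (nat_lit 172067) (nat_lit 3) .nil))))) (.g (nat_lit 0) (.e (nat_lit 148251) (nat_lit 0) .nil) .nil))))) (.nd (nat_lit 8) (.nd (nat_lit 9) 
(.lf (nat_lit 491704) (.g (nat_lit 2386) (.e (nat_lit 163869) (nat_lit 2) (.e (nat_lit 196670) (nat_lit 14) (.e (nat_lit 73753) (nat_lit 8) (.e (nat_lit 557105) (nat_lit 14) (.e (nat_lit 180244) (nat_lit 5) .nil))))) (.g (nat_lit 0) (.e (nat_lit 146641) (nat_lit 0) .nil) .nil))) 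
(.lf (nat_lit 492216) (.g (nat_lit 4439) (.e (nat_lit 163871) (nat_lit 2) (.e (nat_lit 196668) (nat_lit 14) (.e (nat_lit 73747) (nat_lit 3) (.e (nat_lit 516131) (nat_lit 3) (.e (nat_lit 221214) (nat_lit 23) (.e (nat_lit 204830) (nat_lit 18) (.e (nat_lit 57926) (nat_lit 282) .nil))))))) (.g (nat_lit 1) (.e (nat_lit 147679) (nat_lit 0) .nil) .nil)))) (.nd (nat_lit 9) 
(.lf (nat_lit 491960) (.g (nat_lit 3733) (.e (nat_lit 163870) (nat_lit 2) (.e (nat_lit 196666) (nat_lit 13) (.e (nat_lit 65610) (nat_lit 10) (.e (nat_lit 344117) (nat_lit 21) (.e (nat_lit 516159) (nat_lit 10) (.e (nat_lit 434199) (nat_lit 18) (.e (nat_lit 4848) (nat_lit 285) .nil))))))) (.g (nat_lit 1) (.e (nat_lit 147160) (nat_lit 0) .nil) .nil))) 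
(.lf (nat_lit 492472) (.g (nat_lit 2359) (.e (nat_lit 163873) (nat_lit 3) (.e (nat_lit 204809) (nat_lit 9) (.e (nat_lit 426200) (nat_lit 9) (.e (nat_lit 426566) (nat_lit 34) (.e (nat_lit 393254) (nat_lit 18) (.e (nat_lit 164322) (nat_lit 230) .nil)))))) (.g (nat_lit 1) (.e (nat_lit 148407) (nat_lit 0) .nil) .nil)))))) (.nd (nat_lit 7) (.nd (nat_lit 8) (.nd (nat_lit 9) 
(.lf (nat_lit 491640) (.g (nat_lit 2261) (.e (nat_lit 163869) (nat_lit 2) (.e (nat_lit 196670) (nat_lit 14) (.e (nat_lit 73746) (nat_lit 3) (.e (nat_lit 516127) (nat_lit 2) (.e (nat_lit 213033) (nat_lit 12) (.e (nat_lit 163963) (nat_lit 25) (.e (nat_lit 532499) (nat_lit 1) (.e (nat_lit 57926) (nat_lit 282) .nil)))))))) (.g (nat_lit 1) (.e (nat_lit 146534) (nat_lit 0) .nil) .nil))) 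
(.lf (nat_lit 492152) (.g (nat_lit 3029) (.e (nat_lit 163871) (nat_lit 2) (.e (nat_lit 196668) (nat_lit 14) (.e (nat_lit 73746) (nat_lit 3) (.e (nat_lit 516131) (nat_lit 3) (.e (nat_lit 221214) (nat_lit 23) (.e (nat_lit 204830) (nat_lit 18) (.e (nat_lit 57925) (nat_lit 282) .nil))))))) (.g (nat_lit 1) (.e (nat_lit 147547) (nat_lit 0) .nil) .nil)))) (.nd (nat_lit 9) 
(.lf (nat_lit 491896) (.g (nat_lit 3012) (.e (nat_lit 163870) (nat_lit 2) (.e (nat_lit 196666) (nat_lit 13) (.e (nat_lit 65610) (nat_lit 10) (.e (nat_lit 344117) (nat_lit 21) (.e (nat_lit 516151) (nat_lit 9) (.e (nat_lit 426003) (nat_lit 0) (.e (nat_lit 2397) (nat_lit 157) (.e (nat_lit 4849) (nat_lit 285) .nil)))))))) (.g (nat_lit 1) (.e (nat_lit 147085) (nat_lit 0) .nil) .nil))) 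
(.lf (nat_lit 492408) (.g (nat_lit 2175) (.e (nat_lit 163872) (nat_lit 3) (.e (nat_lit 204863) (nat_lit 27) (.e (nat_lit 344117) (nat_lit 21) (.e (nat_lit 516123) (nat_lit 2) .nil)))) (.g (nat_lit 0) (.e (nat_lit 148330) (nat_lit 0) .nil) .nil))))) (.nd (nat_lit 8) (.nd (nat_lit 9) 
(.lf (nat_lit 491768) (.g (nat_lit 2799) (.e (nat_lit 163869) (nat_lit 2) (.e (nat_lit 196681) (nat_lit 17) (.e (nat_lit 131109) (nat_lit 9) (.e (nat_lit 336456) (nat_lit 34) (.e (nat_lit 483364) (nat_lit 18) (.e (nat_lit 57927) (nat_lit 282) .nil)))))) (.g (nat_lit 1) (.e (nat_lit 146855) (nat_lit 0) .nil) .nil))) 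
(.lf (nat_lit 492280) (.g (nat_lit 3730) (.e (nat_lit 163871) (nat_lit 2) (.e (nat_lit 196670) (nat_lit 14) (.e (nat_lit 73746) (nat_lit 3) (.e (nat_lit 516129) (nat_lit 3) (.e (nat_lit 221215) (nat_lit 23) (.e (nat_lit 204829) (nat_lit 18) (.e (nat_lit 57926) (nat_lit 282) .nil))))))) (.g (nat_lit 1) (.e (nat_lit 147808) (nat_lit 0) .nil) .nil)))) (.nd (nat_lit 9) 
(.lf (nat_lit 492024) (.g (nat_lit 1149) (.e (nat_lit 163870) (nat_lit 2) (.e (nat_lit 196668) (nat_lit 14) (.e (nat_lit 73747) (nat_lit 3) (.e (nat_lit 516131) (nat_lit 3) .nil)))) (.g (nat_lit 0) (.e (nat_lit 147264) (nat_lit 0) .nil) .nil))) 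
(.lf (nat_lit 492536) (.g (nat_lit 4728) (.e (nat_lit 163873) (nat_lit 3) (.e (nat_lit 204813) (nat_lit 9) (.e (nat_lit 426186) (nat_lit 9) (.e (nat_lit 426566) (nat_lit 34) (.e (nat_lit 393253) (nat_lit 18) (.e (nat_lit 164331) (nat_lit 230) .nil)))))) (.g (nat_lit 1) (.e (nat_lit 148611) (nat_lit 0) .nil) .nil)))))))))) 
(.nd (nat_lit 3) (.nd (nat_lit 4) (.nd (nat_lit 5) (.nd (nat_lit 6) (.nd (nat_lit 7) 
(.nd (nat_lit 8) (.nd (nat_lit 9) 
(.lf (nat_lit 491524) (.g (nat_lit 2859) (.e (nat_lit 163869) (nat_lit 2) (.e (nat_lit 196666) (nat_lit 13) (.e (nat_lit 65610) (nat_lit 10) (.e (nat_lit 344117) (nat_lit 21) (.e (nat_lit 516159) (nat_lit 10) (.e (nat_lit 434210) (nat_lit 18) (.e (nat_lit 7936) (nat_lit 285) .nil))))))) (.g (nat_lit 1) (.e (nat_lit 146278) (nat_lit 0) .nil) .nil))) 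
(.lf (nat_lit 492036) (.g (nat_lit 1865) (.e (nat_lit 163871) (nat_lit 2) (.e (nat_lit 196654) (nat_lit 11) (.e (nat_lit 16416) (nat_lit 3) (.e (nat_lit 204834) (nat_lit 19) .nil)))) (.g (nat_lit 0) (.e (nat_lit 147294) (nat_lit 0) .nil) .nil)))) (.nd (nat_lit 9) 
(.lf (nat_lit 491780) (.g (nat_lit 2141) (.e (nat_lit 163869) (nat_lit 2) (.e (nat_lit 196681) (nat_lit 17) (.e (nat_lit 131125) (nat_lit 13) (.e (nat_lit 393229) (nat_lit 9) (.e (nat_lit 335996) (nat_lit 1) (.e (nat_lit 57930) (nat_lit 282) .nil)))))) (.g (nat_lit 1) (.e (nat_lit 146869) (nat_lit 0) .nil) .nil))) 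
(.lf (nat_lit 492292) (.g (nat_lit 2751) (.e (nat_lit 163871) (nat_lit 2) (.e (nat_lit 196670) (nat_lit 14) (.e (nat_lit 73746) (nat_lit 3) (.e (nat_lit 516131) (nat_lit 3) (.e (nat_lit 221214) (nat_lit 23) (.e (nat_lit 204830) (nat_lit 18) (.e (nat_lit 57924) (nat_lit 282) .nil))))))) (.g (nat_lit 1) (.e (nat_lit 147823) (nat_lit 0) .nil) .nil))))) (.nd (nat_lit 8) (.nd (nat_lit 9) 
(.lf (nat_lit 491652) (.g (nat_lit 2895) (.e (nat_lit 163869) (nat_lit 2) (.e (nat_lit 196670) (nat_lit 14) (.e (nat_lit 73746) (nat_lit 3) (.e (nat_lit 516129) (nat_lit 3) (.e (nat_lit 221197) (nat_lit 20) (.e (nat_lit 3236) (nat_lit 197) (.e (nat_lit 532499) (nat_lit 1) (.e (nat_lit 57927) (nat_lit 282) .nil)))))))) (.g (nat_lit 1) (.e (nat_lit 146546) (nat_lit 0) .nil) .nil))) 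
(.lf (nat_lit 492164) (.g (nat_lit 2996) (.e (nat_lit 163871) (nat_lit 2) (.e (nat_lit 196668) (nat_lit 14) (.e (nat_lit 73746) (nat_lit 3) (.e (nat_lit 516131) (nat_lit 3) (.e (nat_lit 221215) (nat_lit 23) (.e (nat_lit 204830) (nat_lit 18) (.e (nat_lit 57928) (nat_lit 282) .nil))))))) (.g (nat_lit 1) (.e (nat_lit 147560) (nat_lit 0) .nil) .nil)))) (.nd (nat_lit 9) 
(.lf (nat_lit 491908) (.g (nat_lit 4740) (.e (nat_lit 163870) (nat_lit 2) (.e (nat_lit 196666) (nat_lit 13) (.e (nat_lit 65610) (nat_lit 10) (.e (nat_lit 344117) (nat_lit 21) (.e (nat_lit 516151) (nat_lit 9) (.e (nat_lit 426022) (nat_lit 0) (.e (nat_lit 2402) (nat_lit 157) (.e (nat_lit 4847) (nat_lit 285) .nil)))))))) (.g (nat_lit 1) (.e (nat_lit 147097) (nat_lit 0) .nil) .nil))) 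
(.lf (nat_lit 492420) (.g (nat_lit 1026) (.e (nat_lit 163873) (nat_lit 3) (.e (nat_lit 204809) (nat_lit 9) (.e (nat_lit 426139) (nat_lit 3) (.e (nat_lit 204837) (nat_lit 20) .nil)))) (.g (nat_lit 0) (.e (nat_lit 148348) (nat_lit 0) .nil) .nil)))))) (.nd (nat_lit 7) (.nd (nat_lit 8) (.nd (nat_lit 9) 
(.lf (nat_lit 491588) (.g (nat_lit 2688) (.e (nat_lit 163869) (nat_lit 2) (.e (nat_lit 196668) (nat_lit 14) (.e (nat_lit 73747) (nat_lit 3) (.e (nat_lit 516129) (nat_lit 3) (.e (nat_lit 221215) (nat_lit 23) (.e (nat_lit 204828) (nat_lit 18) (.e (nat_lit 57930) (nat_lit 282) .nil))))))) (.g (nat_lit 1) (.e (nat_lit 146428) (nat_lit 0) .nil) .nil))) 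
(.lf (nat_lit 492100) (.g (nat_lit 3892) (.e (nat_lit 163871) (nat_lit 2) (.e (nat_lit 196656) (nat_lit 11) (.e (nat_lit 16463) (nat_lit 13) (.e (nat_lit 483341) (nat_lit 9) (.e (nat_lit 426107) (nat_lit 1) (.e (nat_lit 164325) (nat_lit 230) .nil)))))) (.g (nat_lit 1) (.e (nat_lit 147422) (nat_lit 0) .nil) .nil)))) (.nd (nat_lit 9) 
(.lf (nat_lit 491844) (.g (nat_lit 3545) (.e (nat_lit 163870) (nat_lit 2) (.e (nat_lit 196666) (nat_lit 13) (.e (nat_lit 65571) (nat_lit 3) (.e (nat_lit 98341) (nat_lit 20) (.e (nat_lit 221215) (nat_lit 23) (.e (nat_lit 204829) (nat_lit 18) (.e (nat_lit 57928) (nat_lit 282) .nil))))))) (.g (nat_lit 1) (.e (nat_lit 146972) (nat_lit 0) .nil) .nil))) 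
(.lf (nat_lit 492356) (.g (nat_lit 2054) (.e (nat_lit 163872) (nat_lit 3) (.e (nat_lit 204837) (nat_lit 20) (.e (nat_lit 114716) (nat_lit 22) (.e (nat_lit 90172) (nat_lit 14) (.e (nat_lit 180244) (nat_lit 5) (.e (nat_lit 532499) (nat_lit 1) (.e (nat_lit 57692) (nat_lit 156) .nil))))))) (.g (nat_lit 1) (.e (nat_lit 148263) (nat_lit 0) .nil) .nil))))) (.nd (nat_lit 8) (.nd (nat_lit 9) 
(.lf (nat_lit 491716) (.g (nat_lit 2526) (.e (nat_lit 163869) (nat_lit 2) (.e (nat_lit 196670) (nat_lit 14) (.e (nat_lit 73754) (nat_lit 8) (.e (nat_lit 557103) (nat_lit 14) (.e (nat_lit 180244) (nat_lit 5) .nil))))) (.g (nat_lit 0) (.e (nat_lit 146659) (nat_lit 0) .nil) .nil))) 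
(.lf (nat_lit 492228) (.g (nat_lit 4014) (.e (nat_lit 163871) (nat_lit 2) (.e (nat_lit 196668) (nat_lit 14) (.e (nat_lit 73747) (nat_lit 3) (.e (nat_lit 516131) (nat_lit 3) (.e (nat_lit 221215) (nat_lit 23) (.e (nat_lit 204830) (nat_lit 18) (.e (nat_lit 57928) (nat_lit 282) .nil))))))) (.g (nat_lit 1) (.e (nat_lit 147695) (nat_lit 0) .nil) .nil)))) (.nd (nat_lit 9) 
(.lf (nat_lit 491972) (.g (nat_lit 4172) (.e (nat_lit 163870) (nat_lit 2) (.e (nat_lit 196666) (nat_lit 13) (.e (nat_lit 65610) (nat_lit 10) (.e (nat_lit 344117) (nat_lit 21) (.e (nat_lit 516159) (nat_lit 10) (.e (nat_lit 434207) (nat_lit 18) (.e (nat_lit 7936) (nat_lit 285) .nil))))))) (.g (nat_lit 1) (.e (nat_lit 147172) (nat_lit 0) .nil) .nil))) 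
(.lf (nat_lit 492484) (.g (nat_lit 3381) (.e (nat_lit 163873) (nat_lit 3) (.e (nat_lit 204809) (nat_lit 9) (.e (nat_lit 426200) (nat_lit 9) (.e (nat_lit 426568) (nat_lit 34) (.e (nat_lit 393253) (nat_lit 18) (.e (nat_lit 164332) (nat_lit 230) .nil)))))) (.g (nat_lit 1) (.e (nat_lit 148419) (nat_lit 0) .nil) .nil))))))) (.nd (nat_lit 6) (.nd (nat_lit 7) (.nd (nat_lit 8) (.nd (nat_lit 9) 
(.lf (nat_lit 491556) (.g (nat_lit 5000) (.e (nat_lit 163869) (nat_lit 2) (.e (nat_lit 196668) (nat_lit 14) (.e (nat_lit 73746) (nat_lit 3) (.e (nat_lit 516129) (nat_lit 3) (.e (nat_lit 221214) (nat_lit 23) (.e (nat_lit 204829) (nat_lit 18) (.e (nat_lit 57931) (nat_lit 282) .nil))))))) (.g (nat_lit 1) (.e (nat_lit 146360) (nat_lit 0) .nil) .nil))) 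
(.lf (nat_lit 492068) (.g (nat_lit 1582) (.e (nat_lit 163871) (nat_lit 2) (.e (nat_lit 196654) (nat_lit 11) (.e (nat_lit 16466) (nat_lit 13) (.e (nat_lit 483336) (nat_lit 9) (.e (nat_lit 426098) (nat_lit 1) .nil))))) (.g (nat_lit 0) (.e (nat_lit 147343) (nat_lit 0) .nil) .nil)))) (.nd (nat_lit 9) 
(.lf (nat_lit 491812) (.g (nat_lit 3560) (.e (nat_lit 163870) (nat_lit 2) (.e (nat_lit 196666) (nat_lit 13) (.e (nat_lit 65569) (nat_lit 3) (.e (nat_lit 98342) (nat_lit 20) (.e (nat_lit 221213) (nat_lit 23) (.e (nat_lit 204829) (nat_lit 18) (.e (nat_lit 57925) (nat_lit 282) .nil))))))) (.g (nat_lit 1) (.e (nat_lit 146924) (nat_lit 0) .nil) .nil))) 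
(.lf (nat_lit 492324) (.g (nat_lit 1729) (.e (nat_lit 163871) (nat_lit 2) (.e (nat_lit 196672) (nat_lit 15) (.e (nat_lit 81925) (nat_lit 11) (.e (nat_lit 426500) (nat_lit 27) (.e (nat_lit 335986) (nat_lit 1) (.e (nat_lit 57925) (nat_lit 282) .nil)))))) (.g (nat_lit 1) (.e (nat_lit 147858) (nat_lit 0) .nil) .nil))))) (.nd (nat_lit 8) (.nd (nat_lit 9) 
(.lf (nat_lit 491684) (.g (nat_lit 3139) (.e (nat_lit 163869) (nat_lit 2) (.e (nat_lit 196670) (nat_lit 14) (.e (nat_lit 73746) (nat_lit 3) (.e (nat_lit 516131) (nat_lit 3) (.e (nat_lit 221215) (nat_lit 23) (.e (nat_lit 204829) (nat_lit 18) (.e (nat_lit 57930) (nat_lit 282) .nil))))))) (.g (nat_lit 1) (.e (nat_lit 146604) (nat_lit 0) .nil) .nil))) 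
(.lf (nat_lit 492196) (.g (nat_lit 4607) (.e (nat_lit 163871) (nat_lit 2) (.e (nat_lit 196668) (nat_lit 14) (.e (nat_lit 73747) (nat_lit 3) (.e (nat_lit 516129) (nat_lit 3) (.e (nat_lit 221215) (nat_lit 23) (.e (nat_lit 204830) (nat_lit 18) (.e (nat_lit 57927) (nat_lit 282) .nil))))))) (.g (nat_lit 1) (.e (nat_lit 147635) (nat_lit 0) .nil) .nil)))) (.nd (nat_lit 9) 
(.lf (nat_lit 491940) (.g (nat_lit 3223) (.e (nat_lit 163870) (nat_lit 2) (.e (nat_lit 196666) (nat_lit 13) (.e (nat_lit 65610) (nat_lit 10) (.e (nat_lit 344117) (nat_lit 21) (.e (nat_lit 516151) (nat_lit 9) (.e (nat_lit 426045) (nat_lit 0) (.e (nat_lit 2424) (nat_lit 157) (.e (nat_lit 4849) (nat_lit 285) .nil)))))))) (.g (nat_lit 1) (.e (nat_lit 147129) (nat_lit 0) .nil) .nil))) 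
(.lf (nat_lit 492452) (.g (nat_lit 1477) (.e (nat_lit 163873) (nat_lit 3) (.e (nat_lit 204809) (nat_lit 9) (.e (nat_lit 426198) (nat_lit 9) (.e (nat_lit 426509) (nat_lit 27) .nil)))) (.g (nat_lit 0) (.e (nat_lit 148386) (nat_lit 0) .nil) .nil)))))) (.nd (nat_lit 7) (.nd (nat_lit 8) (.nd (nat_lit 9) 
(.lf (nat_lit 491620) (.g (nat_lit 2392) (.e (nat_lit 163869) (nat_lit 2) (.e (nat_lit 196670) (nat_lit 14) (.e (nat_lit 73746) (nat_lit 3) (.e (nat_lit 516124) (nat_lit 2) (.e (nat_lit 213033) (nat_lit 12) (.e (nat_lit 163963) (nat_lit 25) (.e (nat_lit 532501) (nat_lit 1) (.e (nat_lit 57927) (nat_lit 282) .nil)))))))) (.g (nat_lit 1) (.e (nat_lit 146514) (nat_lit 0) .nil) .nil))) 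
(.lf (nat_lit 492132) (.g (nat_lit 3516) (.e (nat_lit 163871) (nat_lit 2) (.e (nat_lit 196668) (nat_lit 14) (.e (nat_lit 73746) (nat_lit 3) (.e (nat_lit 516129) (nat_lit 3) (.e (nat_lit 221214) (nat_lit 23) (.e (nat_lit 204829) (nat_lit 18) (.e (nat_lit 57926) (nat_lit 282) .nil))))))) (.g (nat_lit 1) (.e (nat_lit 147511) (nat_lit 0) .nil) .nil)))) (.nd (nat_lit 9) 
(.lf (nat_lit 491876) (.g (nat_lit 1181) (.e (nat_lit 163870) (nat_lit 2) (.e (nat_lit 196666) (nat_lit 13) (.e (nat_lit 65610) (nat_lit 10) (.e (nat_lit 344117) (nat_lit 21) .nil)))) (.g (nat_lit 0) (.e (nat_lit 147031) (nat_lit 0) .nil) .nil))) 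
(.lf (nat_lit 492388) (.g (nat_lit 3513) (.e (nat_lit 163872) (nat_lit 3) (.e (nat_lit 204838) (nat_lit 20) (.e (nat_lit 114716) (nat_lit 22) (.e (nat_lit 90174) (nat_lit 14) (.e (nat_lit 180243) (nat_lit 5) (.e (nat_lit 532501) (nat_lit 1) (.e (nat_lit 57690) (nat_lit 156) .nil))))))) (.g (nat_lit 1) (.e (nat_lit 148297) (nat_lit 0) .nil) .nil))))) (.nd (nat_lit 8) (.nd (nat_lit 9) 
(.lf (nat_lit 491748) (.g (nat_lit 2619) (.e (nat_lit 163869) (nat_lit 2) (.e (nat_lit 196681) (nat_lit 17) (.e (nat_lit 131105) (nat_lit 9) (.e (nat_lit 336456) (nat_lit 34) (.e (nat_lit 483363) (nat_lit 18) (.e (nat_lit 57927) (nat_lit 282) .nil)))))) (.g (nat_lit 1) (.e (nat_lit 146819) (nat_lit 0) .nil) .nil))) 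
(.lf (nat_lit 492260) (.g (nat_lit 2627) (.e (nat_lit 163871) (nat_lit 2) (.e (nat_lit 196670) (nat_lit 14) (.e (nat_lit 73746) (nat_lit 3) (.e (nat_lit 516129) (nat_lit 3) (.e (nat_lit 221204) (nat_lit 20) (.e (nat_lit 3253) (nat_lit 197) (.e (nat_lit 532501) (nat_lit 1) (.e (nat_lit 57924) (nat_lit 282) .nil)))))))) (.g (nat_lit 1) (.e (nat_lit 147788) (nat_lit 0) .nil) .nil)))) 
(.nd (nat_lit 9) 
(.lf (nat_lit 492004) (.g (nat_lit 1008) (.e (nat_lit 163870) (nat_lit 2) (.e (nat_lit 196666) (nat_lit 13) (.e (nat_lit 65625) (nat_lit 13) (.e (nat_lit 393225) (nat_lit 9) .nil)))) (.g (nat_lit 0) (.e (nat_lit 147234) (nat_lit 0) .nil) .nil))) 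
(.lf (nat_lit 492516) (.g (nat_lit 2184) (.e (nat_lit 163873) (nat_lit 3) (.e (nat_lit 204811) (nat_lit 9) (.e (nat_lit 426261) (nat_lit 9) (.e (nat_lit 426565) (nat_lit 34) (.e (nat_lit 393253) (nat_lit 18) (.e (nat_lit 164332) (nat_lit 230) .nil)))))) (.g (nat_lit 1) (.e (nat_lit 148549) (nat_lit 0) .nil) .nil)))))))) 
(.nd (nat_lit 5) (.nd (nat_lit 6) (.nd (nat_lit 7) (.nd (nat_lit 8) (.nd (nat_lit 9) 
(.lf (nat_lit 491540) (.g (nat_lit 3969) (.e (nat_lit 163869) (nat_lit 2) (.e (nat_lit 196666) (nat_lit 13) (.e (nat_lit 65610) (nat_lit 10) (.e (nat_lit 344117) (nat_lit 21) (.e (nat_lit 516160) (nat_lit 10) (.e (nat_lit 434209) (nat_lit 18) (.e (nat_lit 7936) (nat_lit 285) .nil))))))) (.g (nat_lit 1) (.e (nat_lit 146294) (nat_lit 0) .nil) .nil))) 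
(.lf (nat_lit 492052) (.g (nat_lit 1997) (.e (nat_lit 163871) (nat_lit 2) (.e (nat_lit 196654) (nat_lit 11) (.e (nat_lit 16436) (nat_lit 9) (.e (nat_lit 426489) (nat_lit 27) (.e (nat_lit 336409) (nat_lit 27) .nil))))) (.g (nat_lit 0) (.e (nat_lit 147321) (nat_lit 0) .nil) .nil)))) (.nd (nat_lit 9) 
(.lf (nat_lit 491796) (.g (nat_lit 3066) (.e (nat_lit 163870) (nat_lit 2) (.e (nat_lit 196656) (nat_lit 11) (.e (nat_lit 16463) (nat_lit 13) (.e (nat_lit 483337) (nat_lit 9) (.e (nat_lit 426107) (nat_lit 1) .nil))))) (.g (nat_lit 0) (.e (nat_lit 146901) (nat_lit 0) .nil) .nil))) 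
(.lf (nat_lit 492308) (.g (nat_lit 3429) (.e (nat_lit 163871) (nat_lit 2) (.e (nat_lit 196670) (nat_lit 14) (.e (nat_lit 73746) (nat_lit 3) (.e (nat_lit 516131) (nat_lit 3) (.e (nat_lit 221215) (nat_lit 23) (.e (nat_lit 204830) (nat_lit 18) (.e (nat_lit 57927) (nat_lit 282) .nil))))))) (.g (nat_lit 1) (.e (nat_lit 147839) (nat_lit 0) .nil) .nil))))) (.nd (nat_lit 8) (.nd (nat_lit 9) 
(.lf (nat_lit 491668) (.g (nat_lit 3439) (.e (nat_lit 163869) (nat_lit 2) (.e (nat_lit 196670) (nat_lit 14) (.e (nat_lit 73746) (nat_lit 3) (.e (nat_lit 516129) (nat_lit 3) (.e (nat_lit 221215) (nat_lit 23) (.e (nat_lit 204829) (nat_lit 18) (.e (nat_lit 57930) (nat_lit 282) .nil))))))) (.g (nat_lit 1) (.e (nat_lit 146575) (nat_lit 0) .nil) .nil))) 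
(.lf (nat_lit 492180) (.g (nat_lit 4755) (.e (nat_lit 163871) (nat_lit 2) (.e (nat_lit 196668) (nat_lit 14) (.e (nat_lit 73747) (nat_lit 3) (.e (nat_lit 516129) (nat_lit 3) (.e (nat_lit 221214) (nat_lit 23) (.e (nat_lit 204830) (nat_lit 18) (.e (nat_lit 57925) (nat_lit 282) .nil))))))) (.g (nat_lit 1) (.e (nat_lit 147616) (nat_lit 0) .nil) .nil)))) (.nd (nat_lit 9) 
(.lf (nat_lit 491924) (.g (nat_lit 3227) (.e (nat_lit 163870) (nat_lit 2) (.e (nat_lit 196666) (nat_lit 13) (.e (nat_lit 65610) (nat_lit 10) (.e (nat_lit 344117) (nat_lit 21) (.e (nat_lit 516151) (nat_lit 9) (.e (nat_lit 426040) (nat_lit 0) (.e (nat_lit 2422) (nat_lit 157) (.e (nat_lit 7936) (nat_lit 285) .nil)))))))) (.g (nat_lit 1) (.e (nat_lit 147113) (nat_lit 0) .nil) .nil))) 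
(.lf (nat_lit 492436) (.g (nat_lit 2567) (.e (nat_lit 163873) (nat_lit 3) (.e (nat_lit 204809) (nat_lit 9) (.e (nat_lit 426188) (nat_lit 9) (.e (nat_lit 426568) (nat_lit 34) (.e (nat_lit 393252) (nat_lit 18) (.e (nat_lit 164330) (nat_lit 230) .nil)))))) (.g (nat_lit 1) (.e (nat_lit 148370) (nat_lit 0) .nil) .nil)))))) (.nd (nat_lit 7) (.nd (nat_lit 8) (.nd (nat_lit 9) 
(.lf (nat_lit 491604) (.g (nat_lit 4429) (.e (nat_lit 163869) (nat_lit 2) (.e (nat_lit 196668) (nat_lit 14) (.e (nat_lit 73753) (nat_lit 8) (.e (nat_lit 557103) (nat_lit 14) (.e (nat_lit 180243) (nat_lit 5) (.e (nat_lit 532499) (nat_lit 1) (.e (nat_lit 65280) (nat_lit 168) .nil))))))) (.g (nat_lit 1) (.e (nat_lit 146488) (nat_lit 0) .nil) .nil))) 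
(.lf (nat_lit 492116) (.g (nat_lit 3087) (.e (nat_lit 163871) (nat_lit 2) (.e (nat_lit 196663) (nat_lit 13) (.e (nat_lit 65571) (nat_lit 3) (.e (nat_lit 98342) (nat_lit 20) (.e (nat_lit 221214) (nat_lit 23) (.e (nat_lit 204829) (nat_lit 18) (.e (nat_lit 57927) (nat_lit 282) .nil))))))) (.g (nat_lit 1) (.e (nat_lit 147458) (nat_lit 0) .nil) .nil)))) (.nd (nat_lit 9) 
(.lf (nat_lit 491860) (.g (nat_lit 5116) (.e (nat_lit 163870) (nat_lit 2) (.e (nat_lit 196666) (nat_lit 13) (.e (nat_lit 65571) (nat_lit 3) (.e (nat_lit 98342) (nat_lit 20) (.e (nat_lit 221214) (nat_lit 23) (.e (nat_lit 204830) (nat_lit 18) (.e (nat_lit 57925) (nat_lit 282) .nil))))))) (.g (nat_lit 1) (.e (nat_lit 147001) (nat_lit 0) .nil) .nil))) 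
(.lf (nat_lit 492372) (.g (nat_lit 2421) (.e (nat_lit 163872) (nat_lit 3) (.e (nat_lit 204838) (nat_lit 20) (.e (nat_lit 114714) (nat_lit 22) (.e (nat_lit 90174) (nat_lit 14) (.e (nat_lit 180243) (nat_lit 5) (.e (nat_lit 532502) (nat_lit 1) (.e (nat_lit 57692) (nat_lit 156) .nil))))))) (.g (nat_lit 1) (.e (nat_lit 148280) (nat_lit 0) .nil) .nil))))) (.nd (nat_lit 8) (.nd (nat_lit 9) 
(.lf (nat_lit 491732) (.g (nat_lit 3585) (.e (nat_lit 163869) (nat_lit 2) (.e (nat_lit 196672) (nat_lit 15) (.e (nat_lit 81927) (nat_lit 11) (.e (nat_lit 426500) (nat_lit 27) (.e (nat_lit 335988) (nat_lit 1) (.e (nat_lit 57931) (nat_lit 282) .nil)))))) (.g (nat_lit 1) (.e (nat_lit 146676) (nat_lit 0) .nil) .nil))) 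
(.lf (nat_lit 492244) (.g (nat_lit 2129) (.e (nat_lit 163871) (nat_lit 2) (.e (nat_lit 196670) (nat_lit 14) (.e (nat_lit 73746) (nat_lit 3) (.e (nat_lit 516124) (nat_lit 2) (.e (nat_lit 213034) (nat_lit 12) (.e (nat_lit 163963) (nat_lit 25) (.e (nat_lit 532501) (nat_lit 1) (.e (nat_lit 57928) (nat_lit 282) .nil)))))))) (.g (nat_lit 1) (.e (nat_lit 147772) (nat_lit 0) .nil) .nil)))) 
(.nd (nat_lit 9) 
(.lf (nat_lit 491988) (.g (nat_lit 4469) (.e (nat_lit 163870) (nat_lit 2) (.e (nat_lit 196666) (nat_lit 13) (.e (nat_lit 65610) (nat_lit 10) (.e (nat_lit 344117) (nat_lit 21) (.e (nat_lit 516160) (nat_lit 10) (.e (nat_lit 434203) (nat_lit 18) (.e (nat_lit 7936) (nat_lit 285) .nil))))))) (.g (nat_lit 1) (.e (nat_lit 147188) (nat_lit 0) .nil) .nil))) 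
(.lf (nat_lit 492500) (.g (nat_lit 2201) (.e (nat_lit 163873) (nat_lit 3) (.e (nat_lit 204811) (nat_lit 9) (.e (nat_lit 426234) (nat_lit 9) (.e (nat_lit 426565) (nat_lit 34) (.e (nat_lit 393253) (nat_lit 18) (.e (nat_lit 164332) (nat_lit 230) .nil)))))) (.g (nat_lit 1) (.e (nat_lit 148533) (nat_lit 0) .nil) .nil))))))) (.nd (nat_lit 6) (.nd (nat_lit 7) (.nd (nat_lit 8) (.nd (nat_lit 9) 
(.lf (nat_lit 491572) (.g (nat_lit 2652) (.e (nat_lit 163869) (nat_lit 2) (.e (nat_lit 196668) (nat_lit 14) (.e (nat_lit 73746) (nat_lit 3) (.e (nat_lit 516131) (nat_lit 3) (.e (nat_lit 221214) (nat_lit 23) (.e (nat_lit 204829) (nat_lit 18) (.e (nat_lit 57926) (nat_lit 282) .nil))))))) (.g (nat_lit 1) (.e (nat_lit 146379) (nat_lit 0) .nil) .nil))) 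
(.lf (nat_lit 492084) (.g (nat_lit 2978) (.e (nat_lit 163871) (nat_lit 2) (.e (nat_lit 196656) (nat_lit 11) (.e (nat_lit 16425) (nat_lit 7) (.e (nat_lit 409616) (nat_lit 10) (.e (nat_lit 858) (nat_lit 75) (.e (nat_lit 778324) (nat_lit 5) (.e (nat_lit 73729) (nat_lit 0) (.e (nat_lit 4539) (nat_lit 267) .nil)))))))) (.g (nat_lit 1) (.e (nat_lit 147394) (nat_lit 0) .nil) .nil)))) (.nd (nat_lit 9) 
(.lf (nat_lit 491828) (.g (nat_lit 3565) (.e (nat_lit 163870) (nat_lit 2) (.e (nat_lit 196666) (nat_lit 13) (.e (nat_lit 65569) (nat_lit 3) (.e (nat_lit 98342) (nat_lit 20) (.e (nat_lit 221215) (nat_lit 23) (.e (nat_lit 204830) (nat_lit 18) (.e (nat_lit 57924) (nat_lit 282) .nil))))))) (.g (nat_lit 1) (.e (nat_lit 146943) (nat_lit 0) .nil) .nil))) 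
(.lf (nat_lit 492340) (.g (nat_lit 2931) (.e (nat_lit 163871) (nat_lit 2) (.e (nat_lit 196681) (nat_lit 17) (.e (nat_lit 131089) (nat_lit 1) (.e (nat_lit 57931) (nat_lit 282) (.e (nat_lit 163943) (nat_lit 19) (.e (nat_lit 483350) (nat_lit 17) (.e (nat_lit 968) (nat_lit 81) (.e (nat_lit 4642) (nat_lit 273) .nil)))))))) (.g (nat_lit 1) (.e (nat_lit 148076) (nat_lit 0) .nil) .nil))))) 
(.nd (nat_lit 8) (.nd (nat_lit 9) 
(.lf (nat_lit 491700) (.g (nat_lit 3829) (.e (nat_lit 163869) (nat_lit 2) (.e (nat_lit 196670) (nat_lit 14) (.e (nat_lit 73753) (nat_lit 8) (.e (nat_lit 557103) (nat_lit 14) (.e (nat_lit 180244) (nat_lit 5) (.e (nat_lit 532504) (nat_lit 1) (.e (nat_lit 65280) (nat_lit 168) .nil))))))) (.g (nat_lit 1) (.e (nat_lit 146637) (nat_lit 0) .nil) .nil))) 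
(.lf (nat_lit 492212) (.g (nat_lit 3675) (.e (nat_lit 163871) (nat_lit 2) (.e (nat_lit 196668) (nat_lit 14) (.e (nat_lit 73747) (nat_lit 3) (.e (nat_lit 516131) (nat_lit 3) (.e (nat_lit 221214) (nat_lit 23) (.e (nat_lit 204829) (nat_lit 18) (.e (nat_lit 57925) (nat_lit 282) .nil))))))) (.g (nat_lit 1) (.e (nat_lit 147675) (nat_lit 0) .nil) .nil)))) (.nd (nat_lit 9) 
(.lf (nat_lit 491956) (.g (nat_lit 4930) (.e (nat_lit 163870) (nat_lit 2) (.e (nat_lit 196666) (nat_lit 13) (.e (nat_lit 65610) (nat_lit 10) (.e (nat_lit 344117) (nat_lit 21) (.e (nat_lit 516151) (nat_lit 9) (.e (nat_lit 426104) (nat_lit 1) (.e (nat_lit 171776) (nat_lit 219) .nil))))))) (.g (nat_lit 1) (.e (nat_lit 147145) (nat_lit 0) .nil) .nil))) 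
(.lf (nat_lit 492468) (.g (nat_lit 3504) (.e (nat_lit 163873) (nat_lit 3) (.e (nat_lit 204809) (nat_lit 9) (.e (nat_lit 426200) (nat_lit 9) (.e (nat_lit 426566) (nat_lit 34) (.e (nat_lit 393253) (nat_lit 18) (.e (nat_lit 164325) (nat_lit 230) .nil)))))) (.g (nat_lit 1) (.e (nat_lit 148403) (nat_lit 0) .nil) .nil)))))) (.nd (nat_lit 7) (.nd (nat_lit 8) (.nd (nat_lit 9) 
(.lf (nat_lit 491636) (.g (nat_lit 2262) (.e (nat_lit 163869) (nat_lit 2) (.e (nat_lit 196670) (nat_lit 14) (.e (nat_lit 73746) (nat_lit 3) (.e (nat_lit 516126) (nat_lit 2) (.e (nat_lit 213035) (nat_lit 12) (.e (nat_lit 163963) (nat_lit 25) (.e (nat_lit 532504) (nat_lit 1) (.e (nat_lit 57929) (nat_lit 282) .nil)))))))) (.g (nat_lit 1) (.e (nat_lit 146530) (nat_lit 0) .nil) .nil))) 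
(.lf (nat_lit 492148) (.g (nat_lit 2169) (.e (nat_lit 163871) (nat_lit 2) (.e (nat_lit 196668) (nat_lit 14) (.e (nat_lit 73746) (nat_lit 3) (.e (nat_lit 516131) (nat_lit 3) (.e (nat_lit 221213) (nat_lit 23) (.e (nat_lit 204830) (nat_lit 18) (.e (nat_lit 57927) (nat_lit 282) .nil))))))) (.g (nat_lit 1) (.e (nat_lit 147543) (nat_lit 0) .nil) .nil)))) (.nd (nat_lit 9) 
(.lf (nat_lit 491892) (.g (nat_lit 4603) (.e (nat_lit 163870) (nat_lit 2) (.e (nat_lit 196666) (nat_lit 13) (.e (nat_lit 65610) (nat_lit 10) (.e (nat_lit 344117) (nat_lit 21) (.e (nat_lit 516145) (nat_lit 9) (.e (nat_lit 426454) (nat_lit 21) (.e (nat_lit 130816) (nat_lit 174) .nil))))))) (.g (nat_lit 1) (.e (nat_lit 147081) (nat_lit 0) .nil) .nil))) 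
(.lf (nat_lit 492404) (.g (nat_lit 2058) (.e (nat_lit 163872) (nat_lit 3) (.e (nat_lit 204838) (nat_lit 20) (.e (nat_lit 114719) (nat_lit 23) (.e (nat_lit 98385) (nat_lit 32) (.e (nat_lit 475179) (nat_lit 24) .nil))))) (.g (nat_lit 0) (.e (nat_lit 148322) (nat_lit 0) .nil) .nil))))) (.nd (nat_lit 8) (.nd (nat_lit 9) 
(.lf (nat_lit 491764) (.g (nat_lit 2371) (.e (nat_lit 163869) (nat_lit 2) (.e (nat_lit 196681) (nat_lit 17) (.e (nat_lit 131109) (nat_lit 9) (.e (nat_lit 336454) (nat_lit 34) (.e (nat_lit 483366) (nat_lit 18) (.e (nat_lit 57930) (nat_lit 282) .nil)))))) (.g (nat_lit 1) (.e (nat_lit 146848) (nat_lit 0) .nil) .nil))) 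
(.lf (nat_lit 492276) (.g (nat_lit 4211) (.e (nat_lit 163871) (nat_lit 2) (.e (nat_lit 196670) (nat_lit 14) (.e (nat_lit 73746) (nat_lit 3) (.e (nat_lit 516129) (nat_lit 3) (.e (nat_lit 221214) (nat_lit 23) (.e (nat_lit 204830) (nat_lit 18) (.e (nat_lit 57928) (nat_lit 282) .nil))))))) (.g (nat_lit 1) (.e (nat_lit 147804) (nat_lit 0) .nil) .nil)))) (.nd (nat_lit 9) 
(.lf (nat_lit 492020) (.g (nat_lit 2615) (.e (nat_lit 163870) (nat_lit 2) (.e (nat_lit 196668) (nat_lit 14) (.e (nat_lit 73747) (nat_lit 3) (.e (nat_lit 516129) (nat_lit 3) (.e (nat_lit 221214) (nat_lit 23) (.e (nat_lit 204829) (nat_lit 18) (.e (nat_lit 57927) (nat_lit 282) .nil))))))) (.g (nat_lit 1) (.e (nat_lit 147260) (nat_lit 0) .nil) .nil))) 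
(.lf (nat_lit 492532) (.g (nat_lit 4691) (.e (nat_lit 163873) (nat_lit 3) (.e (nat_lit 204813) (nat_lit 9) (.e (nat_lit 426186) (nat_lit 9) (.e (nat_lit 426566) (nat_lit 34) (.e (nat_lit 393253) (nat_lit 18) (.e (nat_lit 164325) (nat_lit 230) .nil)))))) (.g (nat_lit 1) (.e (nat_lit 148607) (nat_lit 0) .nil) .nil))))))))) 
(.nd (nat_lit 4) (.nd (nat_lit 5) (.nd (nat_lit 6) (.nd (nat_lit 7) (.nd (nat_lit 8) 
(.nd (nat_lit 9) 
(.lf (nat_lit 491532) (.g (nat_lit 4309) (.e (nat_lit 163869) (nat_lit 2) (.e (nat_lit 196666) (nat_lit 13) (.e (nat_lit 65610) (nat_lit 10) (.e (nat_lit 344117) (nat_lit 21) (.e (nat_lit 516160) (nat_lit 10) (.e (nat_lit 434201) (nat_lit 18) (.e (nat_lit 7936) (nat_lit 285) .nil))))))) (.g (nat_lit 1) (.e (nat_lit 146286) (nat_lit 0) .nil) .nil))) 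
(.lf (nat_lit 492044) (.g (nat_lit 1568) (.e (nat_lit 163871) (nat_lit 2) (.e (nat_lit 196654) (nat_lit 11) (.e (nat_lit 16433) (nat_lit 9) (.e (nat_lit 426567) (nat_lit 34) .nil)))) (.g (nat_lit 0) (.e (nat_lit 147310) (nat_lit 0) .nil) .nil)))) (.nd (nat_lit 9) 
(.lf (nat_lit 491788) (.g (nat_lit 3090) (.e (nat_lit 163869) (nat_lit 2) (.e (nat_lit 196681) (nat_lit 17) (.e (nat_lit 131128) (nat_lit 13) (.e (nat_lit 393229) (nat_lit 9) (.e (nat_lit 335995) (nat_lit 1) (.e (nat_lit 57931) (nat_lit 282) .nil)))))) (.g (nat_lit 1) (.e (nat_lit 146885) (nat_lit 0) .nil) .nil))) 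
(.lf (nat_lit 492300) (.g (nat_lit 3038) (.e (nat_lit 163871) (nat_lit 2) (.e (nat_lit 196670) (nat_lit 14) (.e (nat_lit 73746) (nat_lit 3) (.e (nat_lit 516131) (nat_lit 3) (.e (nat_lit 221215) (nat_lit 23) (.e (nat_lit 204828) (nat_lit 18) (.e (nat_lit 57928) (nat_lit 282) .nil))))))) (.g (nat_lit 1) (.e (nat_lit 147831) (nat_lit 0) .nil) .nil))))) (.nd (nat_lit 8) (.nd (nat_lit 9) 
(.lf (nat_lit 491660) (.g (nat_lit 3159) (.e (nat_lit 163869) (nat_lit 2) (.e (nat_lit 196670) (nat_lit 14) (.e (nat_lit 73746) (nat_lit 3) (.e (nat_lit 516129) (nat_lit 3) (.e (nat_lit 221214) (nat_lit 23) (.e (nat_lit 204830) (nat_lit 18) (.e (nat_lit 57925) (nat_lit 282) .nil))))))) (.g (nat_lit 1) (.e (nat_lit 146566) (nat_lit 0) .nil) .nil))) 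
(.lf (nat_lit 492172) (.g (nat_lit 2247) (.e (nat_lit 163871) (nat_lit 2) (.e (nat_lit 196668) (nat_lit 14) (.e (nat_lit 73747) (nat_lit 3) (.e (nat_lit 516129) (nat_lit 3) (.e (nat_lit 221214) (nat_lit 23) (.e (nat_lit 204828) (nat_lit 18) (.e (nat_lit 57926) (nat_lit 282) .nil))))))) (.g (nat_lit 1) (.e (nat_lit 147608) (nat_lit 0) .nil) .nil)))) (.nd (nat_lit 9) 
(.lf (nat_lit 491916) (.g (nat_lit 3311) (.e (nat_lit 163870) (nat_lit 2) (.e (nat_lit 196666) (nat_lit 13) (.e (nat_lit 65610) (nat_lit 10) (.e (nat_lit 344117) (nat_lit 21) (.e (nat_lit 516151) (nat_lit 9) (.e (nat_lit 426037) (nat_lit 0) (.e (nat_lit 2422) (nat_lit 157) (.e (nat_lit 7936) (nat_lit 285) .nil)))))))) (.g (nat_lit 1) (.e (nat_lit 147105) (nat_lit 0) .nil) .nil))) 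
(.lf (nat_lit 492428) (.g (nat_lit 2683) (.e (nat_lit 163873) (nat_lit 3) (.e (nat_lit 204809) (nat_lit 9) (.e (nat_lit 426188) (nat_lit 9) (.e (nat_lit 426566) (nat_lit 34) (.e (nat_lit 393252) (nat_lit 18) (.e (nat_lit 164330) (nat_lit 230) .nil)))))) (.g (nat_lit 1) (.e (nat_lit 148362) (nat_lit 0) .nil) .nil)))))) (.nd (nat_lit 7) (.nd (nat_lit 8) (.nd (nat_lit 9) 
(.lf (nat_lit 491596) (.g (nat_lit 4043) (.e (nat_lit 163869) (nat_lit 2) (.e (nat_lit 196668) (nat_lit 14) (.e (nat_lit 73747) (nat_lit 3) (.e (nat_lit 516131) (nat_lit 3) (.e (nat_lit 221214) (nat_lit 23) (.e (nat_lit 204829) (nat_lit 18) (.e (nat_lit 57926) (nat_lit 282) .nil))))))) (.g (nat_lit 1) (.e (nat_lit 146456) (nat_lit 0) .nil) .nil))) 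
(.lf (nat_lit 492108) (.g (nat_lit 3337) (.e (nat_lit 163871) (nat_lit 2) (.e (nat_lit 196656) (nat_lit 11) (.e (nat_lit 16466) (nat_lit 13) (.e (nat_lit 483341) (nat_lit 9) (.e (nat_lit 426098) (nat_lit 1) (.e (nat_lit 164325) (nat_lit 230) .nil)))))) (.g (nat_lit 1) (.e (nat_lit 147433) (nat_lit 0) .nil) .nil)))) (.nd (nat_lit 9) 
(.lf (nat_lit 491852) (.g (nat_lit 4163) (.e (nat_lit 163870) (nat_lit 2) (.e (nat_lit 196666) (nat_lit 13) (.e (nat_lit 65571) (nat_lit 3) (.e (nat_lit 98342) (nat_lit 20) (.e (nat_lit 221213) (nat_lit 23) (.e (nat_lit 204830) (nat_lit 18) (.e (nat_lit 57925) (nat_lit 282) .nil))))))) (.g (nat_lit 1) (.e (nat_lit 146992) (nat_lit 0) .nil) .nil))) 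
(.lf (nat_lit 492364) (.g (nat_lit 3340) (.e (nat_lit 163872) (nat_lit 3) (.e (nat_lit 204838) (nat_lit 20) (.e (nat_lit 114714) (nat_lit 22) (.e (nat_lit 90172) (nat_lit 14) (.e (nat_lit 180243) (nat_lit 5) (.e (nat_lit 532504) (nat_lit 1) (.e (nat_lit 57692) (nat_lit 156) .nil))))))) (.g (nat_lit 1) (.e (nat_lit 148272) (nat_lit 0) .nil) .nil))))) (.nd (nat_lit 8) (.nd (nat_lit 9) 
(.lf (nat_lit 491724) (.g (nat_lit 1896) (.e (nat_lit 163869) (nat_lit 2) (.e (nat_lit 196670) (nat_lit 14) (.e (nat_lit 73754) (nat_lit 8) (.e (nat_lit 557105) (nat_lit 14) (.e (nat_lit 180252) (nat_lit 10) .nil))))) (.g (nat_lit 0) (.e (nat_lit 146667) (nat_lit 0) .nil) .nil))) 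
(.lf (nat_lit 492236) (.g (nat_lit 2413) (.e (nat_lit 163871) (nat_lit 2) (.e (nat_lit 196668) (nat_lit 14) (.e (nat_lit 73753) (nat_lit 8) (.e (nat_lit 557103) (nat_lit 14) (.e (nat_lit 180250) (nat_lit 10) .nil))))) (.g (nat_lit 0) (.e (nat_lit 147757) (nat_lit 0) .nil) .nil)))) (.nd (nat_lit 9) 
(.lf (nat_lit 491980) (.g (nat_lit 3576) (.e (nat_lit 163870) (nat_lit 2) (.e (nat_lit 196666) (nat_lit 13) (.e (nat_lit 65610) (nat_lit 10) (.e (nat_lit 344117) (nat_lit 21) (.e (nat_lit 516160) (nat_lit 10) (.e (nat_lit 434199) (nat_lit 18) (.e (nat_lit 4848) (nat_lit 285) .nil))))))) (.g (nat_lit 1) (.e (nat_lit 147180) (nat_lit 0) .nil) .nil))) 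
(.lf (nat_lit 492492) (.g (nat_lit 2082) (.e (nat_lit 163873) (nat_lit 3) (.e (nat_lit 204811) (nat_lit 9) (.e (nat_lit 426232) (nat_lit 9) (.e (nat_lit 426565) (nat_lit 34) (.e (nat_lit 393252) (nat_lit 18) (.e (nat_lit 164330) (nat_lit 230) .nil)))))) (.g (nat_lit 1) (.e (nat_lit 148525) (nat_lit 0) .nil) .nil))))))) (.nd (nat_lit 6) (.nd (nat_lit 7) (.nd (nat_lit 8) (.nd (nat_lit 9) 
(.lf (nat_lit 491564) (.g (nat_lit 4728) (.e (nat_lit 163869) (nat_lit 2) (.e (nat_lit 196668) (nat_lit 14) (.e (nat_lit 73746) (nat_lit 3) (.e (nat_lit 516129) (nat_lit 3) (.e (nat_lit 221215) (nat_lit 23) (.e (nat_lit 204829) (nat_lit 18) (.e (nat_lit 57931) (nat_lit 282) .nil))))))) (.g (nat_lit 1) (.e (nat_lit 146370) (nat_lit 0) .nil) .nil))) 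
(.lf (nat_lit 492076) (.g (nat_lit 2884) (.e (nat_lit 163871) (nat_lit 2) (.e (nat_lit 196655) (nat_lit 11) (.e (nat_lit 16465) (nat_lit 13) (.e (nat_lit 483336) (nat_lit 9) (.e (nat_lit 426107) (nat_lit 1) (.e (nat_lit 164326) (nat_lit 230) .nil)))))) (.g (nat_lit 1) (.e (nat_lit 147360) (nat_lit 0) .nil) .nil)))) (.nd (nat_lit 9) 
(.lf (nat_lit 491820) (.g (nat_lit 4290) (.e (nat_lit 163870) (nat_lit 2) (.e (nat_lit 196666) (nat_lit 13) (.e (nat_lit 65569) (nat_lit 3) (.e (nat_lit 98342) (nat_lit 20) (.e (nat_lit 221214) (nat_lit 23) (.e (nat_lit 204829) (nat_lit 18) (.e (nat_lit 57928) (nat_lit 282) .nil))))))) (.g (nat_lit 1) (.e (nat_lit 146933) (nat_lit 0) .nil) .nil))) 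
(.lf (nat_lit 492332) (.g (nat_lit 380) (.e (nat_lit 163871) (nat_lit 2) (.e (nat_lit 196672) (nat_lit 15) (.e (nat_lit 89856) (nat_lit 18) .nil))) (.g (nat_lit 0) (.e (nat_lit 147870) (nat_lit 0) .nil) .nil))))) (.nd (nat_lit 8) (.nd (nat_lit 9) 
(.lf (nat_lit 491692) (.g (nat_lit 2345) (.e (nat_lit 163869) (nat_lit 2) (.e (nat_lit 196670) (nat_lit 14) (.e (nat_lit 73748) (nat_lit 3) (.e (nat_lit 516131) (nat_lit 3) (.e (nat_lit 221215) (nat_lit 23) (.e (nat_lit 204830) (nat_lit 18) (.e (nat_lit 57929) (nat_lit 282) .nil))))))) (.g (nat_lit 1) (.e (nat_lit 146614) (nat_lit 0) .nil) .nil))) 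
(.lf (nat_lit 492204) (.g (nat_lit 2383) (.e (nat_lit 163871) (nat_lit 2) (.e (nat_lit 196668) (nat_lit 14) (.e (nat_lit 73747) (nat_lit 3) (.e (nat_lit 516130) (nat_lit 3) (.e (nat_lit 221215) (nat_lit 23) (.e (nat_lit 204829) (nat_lit 18) (.e (nat_lit 57928) (nat_lit 282) .nil))))))) (.g (nat_lit 1) (.e (nat_lit 147643) (nat_lit 0) .nil) .nil)))) (.nd (nat_lit 9) 
(.lf (nat_lit 491948) (.g (nat_lit 4425) (.e (nat_lit 163870) (nat_lit 2) (.e (nat_lit 196666) (nat_lit 13) (.e (nat_lit 65610) (nat_lit 10) (.e (nat_lit 344117) (nat_lit 21) (.e (nat_lit 516151) (nat_lit 9) (.e (nat_lit 426043) (nat_lit 0) (.e (nat_lit 2425) (nat_lit 157) (.e (nat_lit 7936) (nat_lit 285) .nil)))))))) (.g (nat_lit 1) (.e (nat_lit 147137) (nat_lit 0) .nil) .nil))) 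
(.lf (nat_lit 492460) (.g (nat_lit 2518) (.e (nat_lit 163873) (nat_lit 3) (.e (nat_lit 204809) (nat_lit 9) (.e (nat_lit 426198) (nat_lit 9) (.e (nat_lit 426566) (nat_lit 34) (.e (nat_lit 393253) (nat_lit 18) (.e (nat_lit 164330) (nat_lit 230) .nil)))))) (.g (nat_lit 1) (.e (nat_lit 148394) (nat_lit 0) .nil) .nil)))))) (.nd (nat_lit 7) (.nd (nat_lit 8) (.nd (nat_lit 9) 
(.lf (nat_lit 491628) (.g (nat_lit 2009) (.e (nat_lit 163869) (nat_lit 2) (.e (nat_lit 196670) (nat_lit 14) (.e (nat_lit 73746) (nat_lit 3) (.e (nat_lit 516124) (nat_lit 2) (.e (nat_lit 213035) (nat_lit 12) (.e (nat_lit 163963) (nat_lit 25) (.e (nat_lit 532501) (nat_lit 1) (.e (nat_lit 57929) (nat_lit 282) .nil)))))))) (.g (nat_lit 1) (.e (nat_lit 146522) (nat_lit 0) .nil) .nil))) 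
(.lf (nat_lit 492140) (.g (nat_lit 3421) (.e (nat_lit 163871) (nat_lit 2) (.e (nat_lit 196668) (nat_lit 14) (.e (nat_lit 73746) (nat_lit 3) (.e (nat_lit 516129) (nat_lit 3) (.e (nat_lit 221215) (nat_lit 23) (.e (nat_lit 204829) (nat_lit 18) (.e (nat_lit 57928) (nat_lit 282) .nil))))))) (.g (nat_lit 1) (.e (nat_lit 147519) (nat_lit 0) .nil) .nil)))) (.nd (nat_lit 9) 
(.lf (nat_lit 491884) (.g (nat_lit 3619) (.e (nat_lit 163870) (nat_lit 2) (.e (nat_lit 196666) (nat_lit 13) (.e (nat_lit 65610) (nat_lit 10) (.e (nat_lit 344117) (nat_lit 21) (.e (nat_lit 516145) (nat_lit 9) (.e (nat_lit 425986) (nat_lit 0) (.e (nat_lit 2430) (nat_lit 157) (.e (nat_lit 4849) (nat_lit 285) .nil)))))))) (.g (nat_lit 1) (.e (nat_lit 147040) (nat_lit 0) .nil) .nil))) 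
(.lf (nat_lit 492396) (.g (nat_lit 597) (.e (nat_lit 163872) (nat_lit 3) (.e (nat_lit 204838) (nat_lit 20) (.e (nat_lit 114719) (nat_lit 23) .nil))) (.g (nat_lit 0) (.e (nat_lit 148307) (nat_lit 0) .nil) .nil))))) (.nd (nat_lit 8) (.nd (nat_lit 9) 
(.lf (nat_lit 491756) (.g (nat_lit 3049) (.e (nat_lit 163869) (nat_lit 2) (.e (nat_lit 196681) (nat_lit 17) (.e (nat_lit 131109) (nat_lit 9) (.e (nat_lit 336454) (nat_lit 34) (.e (nat_lit 483363) (nat_lit 18) (.e (nat_lit 57927) (nat_lit 282) .nil)))))) (.g (nat_lit 1) (.e (nat_lit 146840) (nat_lit 0) .nil) .nil))) 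
(.lf (nat_lit 492268) (.g (nat_lit 3575) (.e (nat_lit 163871) (nat_lit 2) (.e (nat_lit 196670) (nat_lit 14) (.e (nat_lit 73746) (nat_lit 3) (.e (nat_lit 516129) (nat_lit 3) (.e (nat_lit 221214) (nat_lit 23) (.e (nat_lit 204829) (nat_lit 18) (.e (nat_lit 57925) (nat_lit 282) .nil))))))) (.g (nat_lit 1) (.e (nat_lit 147796) (nat_lit 0) .nil) .nil)))) (.nd (nat_lit 9) 
(.lf (nat_lit 492012) (.g (nat_lit 1106) (.e (nat_lit 163870) (nat_lit 2) (.e (nat_lit 196666) (nat_lit 13) (.e (nat_lit 65625) (nat_lit 13) (.e (nat_lit 393229) (nat_lit 9) .nil)))) (.g (nat_lit 0) (.e (nat_lit 147242) (nat_lit 0) .nil) .nil))) 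
(.lf (nat_lit 492524) (.g (nat_lit 448) (.e (nat_lit 163873) (nat_lit 3) (.e (nat_lit 204813) (nat_lit 9) (.e (nat_lit 426138) (nat_lit 3) .nil))) (.g (nat_lit 0) (.e (nat_lit 148573) (nat_lit 0) .nil) .nil)))))))) (.nd (nat_lit 5) (.nd (nat_lit 6) (.nd (nat_lit 7) (.nd (nat_lit 8) (.nd (nat_lit 9) 
(.lf (nat_lit 491548) (.g (nat_lit 1382) (.e (nat_lit 163869) (nat_lit 2) (.e (nat_lit 196666) (nat_lit 13) (.e (nat_lit 65626) (nat_lit 13) (.e (nat_lit 393229) (nat_lit 9) .nil)))) (.g (nat_lit 0) (.e (nat_lit 146328) (nat_lit 0) .nil) .nil))) 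
(.lf (nat_lit 492060) (.g (nat_lit 2175) (.e (nat_lit 163871) (nat_lit 2) (.e (nat_lit 196654) (nat_lit 11) (.e (nat_lit 16463) (nat_lit 13) (.e (nat_lit 483336) (nat_lit 9) .nil)))) (.g (nat_lit 0) (.e (nat_lit 147331) (nat_lit 0) .nil) .nil)))) (.nd (nat_lit 9) 
(.lf (nat_lit 491804) (.g (nat_lit 3071) (.e (nat_lit 163870) (nat_lit 2) (.e (nat_lit 196666) (nat_lit 13) (.e (nat_lit 65569) (nat_lit 3) (.e (nat_lit 98341) (nat_lit 20) (.e (nat_lit 221214) (nat_lit 23) (.e (nat_lit 204830) (nat_lit 18) (.e (nat_lit 57924) (nat_lit 282) .nil))))))) (.g (nat_lit 1) (.e (nat_lit 146913) (nat_lit 0) .nil) .nil))) 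
(.lf (nat_lit 492316) (.g (nat_lit 3051) (.e (nat_lit 163871) (nat_lit 2) (.e (nat_lit 196670) (nat_lit 14) (.e (nat_lit 73753) (nat_lit 8) (.e (nat_lit 557103) (nat_lit 14) (.e (nat_lit 180244) (nat_lit 5) (.e (nat_lit 532501) (nat_lit 1) (.e (nat_lit 65280) (nat_lit 168) .nil))))))) (.g (nat_lit 1) (.e (nat_lit 147849) (nat_lit 0) .nil) .nil))))) (.nd (nat_lit 8) (.nd (nat_lit 9) 
(.lf (nat_lit 491676) (.g (nat_lit 2059) (.e (nat_lit 163869) (nat_lit 2) (.e (nat_lit 196670) (nat_lit 14) (.e (nat_lit 73746) (nat_lit 3) (.e (nat_lit 516131) (nat_lit 3) (.e (nat_lit 221214) (nat_lit 23) (.e (nat_lit 204828) (nat_lit 18) (.e (nat_lit 57926) (nat_lit 282) .nil))))))) (.g (nat_lit 1) (.e (nat_lit 146596) (nat_lit 0) .nil) .nil))) 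
(.lf (nat_lit 492188) (.g (nat_lit 2676) (.e (nat_lit 163871) (nat_lit 2) (.e (nat_lit 196668) (nat_lit 14) (.e (nat_lit 73747) (nat_lit 3) (.e (nat_lit 516129) (nat_lit 3) (.e (nat_lit 221215) (nat_lit 23) (.e (nat_lit 204829) (nat_lit 18) (.e (nat_lit 57924) (nat_lit 282) .nil))))))) (.g (nat_lit 1) (.e (nat_lit 147627) (nat_lit 0) .nil) .nil)))) (.nd (nat_lit 9) 
(.lf (nat_lit 491932) (.g (nat_lit 4250) (.e (nat_lit 163870) (nat_lit 2) (.e (nat_lit 196666) (nat_lit 13) (.e (nat_lit 65610) (nat_lit 10) (.e (nat_lit 344117) (nat_lit 21) (.e (nat_lit 516151) (nat_lit 9) (.e (nat_lit 426042) (nat_lit 0) (.e (nat_lit 2424) (nat_lit 157) (.e (nat_lit 4849) (nat_lit 285) .nil)))))))) (.g (nat_lit 1) (.e (nat_lit 147121) (nat_lit 0) .nil) .nil))) 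
(.lf (nat_lit 492444) (.g (nat_lit 3367) (.e (nat_lit 163873) (nat_lit 3) (.e (nat_lit 204809) (nat_lit 9) (.e (nat_lit 426190) (nat_lit 9) (.e (nat_lit 426566) (nat_lit 34) (.e (nat_lit 393251) (nat_lit 18) (.e (nat_lit 164325) (nat_lit 230) .nil)))))) (.g (nat_lit 1) (.e (nat_lit 148378) (nat_lit 0) .nil) .nil)))))) (.nd (nat_lit 7) (.nd (nat_lit 8) (.nd (nat_lit 9) 
(.lf (nat_lit 491612) (.g (nat_lit 1059) (.e (nat_lit 163869) (nat_lit 2) (.e (nat_lit 196669) (nat_lit 14) (.e (nat_lit 73753) (nat_lit 8) (.e (nat_lit 557103) (nat_lit 14) .nil)))) (.g (nat_lit 0) (.e (nat_lit 146501) (nat_lit 0) .nil) .nil))) 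
(.lf (nat_lit 492124) (.g (nat_lit 2651) (.e (nat_lit 163871) (nat_lit 2) (.e (nat_lit 196666) (nat_lit 13) (.e (nat_lit 65610) (nat_lit 10) (.e (nat_lit 344117) (nat_lit 21) .nil)))) (.g (nat_lit 0) (.e (nat_lit 147466) (nat_lit 0) .nil) .nil)))) (.nd (nat_lit 9) 
(.lf (nat_lit 491868) (.g (nat_lit 4698) (.e (nat_lit 163870) (nat_lit 2) (.e (nat_lit 196666) (nat_lit 13) (.e (nat_lit 65571) (nat_lit 3) (.e (nat_lit 98342) (nat_lit 20) (.e (nat_lit 221215) (nat_lit 23) (.e (nat_lit 204829) (nat_lit 18) (.e (nat_lit 57927) (nat_lit 282) .nil))))))) (.g (nat_lit 1) (.e (nat_lit 147012) (nat_lit 0) .nil) .nil))) 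
(.lf (nat_lit 492380) (.g (nat_lit 3966) (.e (nat_lit 163872) (nat_lit 3) (.e (nat_lit 204838) (nat_lit 20) (.e (nat_lit 114716) (nat_lit 22) (.e (nat_lit 90172) (nat_lit 14) (.e (nat_lit 180244) (nat_lit 5) (.e (nat_lit 532499) (nat_lit 1) (.e (nat_lit 57692) (nat_lit 156) .nil))))))) (.g (nat_lit 1) (.e (nat_lit 148289) (nat_lit 0) .nil) .nil))))) (.nd (nat_lit 8) (.nd (nat_lit 9) 
(.lf (nat_lit 491740) (.g (nat_lit 3265) (.e (nat_lit 163869) (nat_lit 2) (.e (nat_lit 196681) (nat_lit 17) (.e (nat_lit 131105) (nat_lit 9) (.e (nat_lit 336454) (nat_lit 34) (.e (nat_lit 483363) (nat_lit 18) (.e (nat_lit 57926) (nat_lit 282) .nil)))))) (.g (nat_lit 1) (.e (nat_lit 146810) (nat_lit 0) .nil) .nil))) 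
(.lf (nat_lit 492252) (.g (nat_lit 2474) (.e (nat_lit 163871) (nat_lit 2) (.e (nat_lit 196670) (nat_lit 14) (.e (nat_lit 73746) (nat_lit 3) (.e (nat_lit 516126) (nat_lit 2) (.e (nat_lit 213036) (nat_lit 13) (.e (nat_lit 229433) (nat_lit 25) (.e (nat_lit 532501) (nat_lit 1) (.e (nat_lit 57925) (nat_lit 282) .nil)))))))) (.g (nat_lit 1) (.e (nat_lit 147780) (nat_lit 0) .nil) .nil)))) 
(.nd (nat_lit 9) 
(.lf (nat_lit 491996) (.g (nat_lit 2601) (.e (nat_lit 163870) (nat_lit 2) (.e (nat_lit 196666) (nat_lit 13) (.e (nat_lit 65610) (nat_lit 10) (.e (nat_lit 344117) (nat_lit 21) (.e (nat_lit 516160) (nat_lit 10) (.e (nat_lit 434211) (nat_lit 18) (.e (nat_lit 7936) (nat_lit 285) .nil))))))) (.g (nat_lit 1) (.e (nat_lit 147196) (nat_lit 0) .nil) .nil))) 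
(.lf (nat_lit 492508) (.g (nat_lit 1970) (.e (nat_lit 163873) (nat_lit 3) (.e (nat_lit 204811) (nat_lit 9) (.e (nat_lit 426260) (nat_lit 9) (.e (nat_lit 426565) (nat_lit 34) (.e (nat_lit 393254) (nat_lit 18) (.e (nat_lit 164324) (nat_lit 230) .nil)))))) (.g (nat_lit 1) (.e (nat_lit 148541) (nat_lit 0) .nil) .nil))))))) (.nd (nat_lit 6) (.nd (nat_lit 7) (.nd (nat_lit 8) (.nd (nat_lit 9) 
(.lf (nat_lit 491580) (.g (nat_lit 3540) (.e (nat_lit 163869) (nat_lit 2) (.e (nat_lit 196668) (nat_lit 14) (.e (nat_lit 73747) (nat_lit 3) (.e (nat_lit 516129) (nat_lit 3) (.e (nat_lit 221214) (nat_lit 23) (.e (nat_lit 204828) (nat_lit 18) (.e (nat_lit 57931) (nat_lit 282) .nil))))))) (.g (nat_lit 1) (.e (nat_lit 146415) (nat_lit 0) .nil) .nil))) 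
(.lf (nat_lit 492092) (.g (nat_lit 2866) (.e (nat_lit 163871) (nat_lit 2) (.e (nat_lit 196656) (nat_lit 11) (.e (nat_lit 16438) (nat_lit 9) (.e (nat_lit 426482) (nat_lit 27) (.e (nat_lit 336388) (nat_lit 27) (.e (nat_lit 426107) (nat_lit 1) (.e (nat_lit 164325) (nat_lit 230) .nil))))))) (.g (nat_lit 1) (.e (nat_lit 147405) (nat_lit 0) .nil) .nil)))) (.nd (nat_lit 9) 
(.lf (nat_lit 491836) (.g (nat_lit 4438) (.e (nat_lit 163870) (nat_lit 2) (.e (nat_lit 196666) (nat_lit 13) (.e (nat_lit 65571) (nat_lit 3) (.e (nat_lit 98341) (nat_lit 20) (.e (nat_lit 221214) (nat_lit 23) (.e (nat_lit 204829) (nat_lit 18) (.e (nat_lit 57925) (nat_lit 282) .nil))))))) (.g (nat_lit 1) (.e (nat_lit 146963) (nat_lit 0) .nil) .nil))) 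
(.lf (nat_lit 492348) (.g (nat_lit 2219) (.e (nat_lit 163872) (nat_lit 3) (.e (nat_lit 204837) (nat_lit 20) (.e (nat_lit 114714) (nat_lit 22) (.e (nat_lit 90172) (nat_lit 14) (.e (nat_lit 180244) (nat_lit 5) (.e (nat_lit 532503) (nat_lit 1) (.e (nat_lit 57689) (nat_lit 156) .nil))))))) (.g (nat_lit 1) (.e (nat_lit 148255) (nat_lit 0) .nil) .nil))))) (.nd (nat_lit 8) (.nd (nat_lit 9) 
(.lf (nat_lit 491708) (.g (nat_lit 3096) (.e (nat_lit 163869) (nat_lit 2) (.e (nat_lit 196670) (nat_lit 14) (.e (nat_lit 73753) (nat_lit 8) (.e (nat_lit 557105) (nat_lit 14) (.e (nat_lit 180245) (nat_lit 5) (.e (nat_lit 532503) (nat_lit 1) (.e (nat_lit 65280) (nat_lit 168) .nil))))))) (.g (nat_lit 1) (.e (nat_lit 146645) (nat_lit 0) .nil) .nil))) 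
(.lf (nat_lit 492220) (.g (nat_lit 2275) (.e (nat_lit 163871) (nat_lit 2) (.e (nat_lit 196668) (nat_lit 14) (.e (nat_lit 73747) (nat_lit 3) (.e (nat_lit 516131) (nat_lit 3) (.e (nat_lit 221215) (nat_lit 23) (.e (nat_lit 204829) (nat_lit 18) (.e (nat_lit 57924) (nat_lit 282) .nil))))))) (.g (nat_lit 1) (.e (nat_lit 147687) (nat_lit 0) .nil) .nil)))) (.nd (nat_lit 9) 
(.lf (nat_lit 491964) (.g (nat_lit 3583) (.e (nat_lit 163870) (nat_lit 2) (.e (nat_lit 196666) (nat_lit 13) (.e (nat_lit 65610) (nat_lit 10) (.e (nat_lit 344117) (nat_lit 21) (.e (nat_lit 516159) (nat_lit 10) (.e (nat_lit 434200) (nat_lit 18) (.e (nat_lit 7936) (nat_lit 285) .nil))))))) (.g (nat_lit 1) (.e (nat_lit 147164) (nat_lit 0) .nil) .nil))) 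
(.lf (nat_lit 492476) (.g (nat_lit 3158) (.e (nat_lit 163873) (nat_lit 3) (.e (nat_lit 204809) (nat_lit 9) (.e (nat_lit 426200) (nat_lit 9) (.e (nat_lit 426568) (nat_lit 34) (.e (nat_lit 393251) (nat_lit 18) (.e (nat_lit 164331) (nat_lit 230) .nil)))))) (.g (nat_lit 1) (.e (nat_lit 148411) (nat_lit 0) .nil) .nil)))))) (.nd (nat_lit 7) (.nd (nat_lit 8) (.nd (nat_lit 9) 
(.lf (nat_lit 491644) (.g (nat_lit 2361) (.e (nat_lit 163869) (nat_lit 2) (.e (nat_lit 196670) (nat_lit 14) (.e (nat_lit 73746) (nat_lit 3) (.e (nat_lit 516127) (nat_lit 2) (.e (nat_lit 213034) (nat_lit 12) (.e (nat_lit 163965) (nat_lit 25) (.e (nat_lit 532499) (nat_lit 1) (.e (nat_lit 57927) (nat_lit 282) .nil)))))))) (.g (nat_lit 1) (.e (nat_lit 146538) (nat_lit 0) .nil) .nil))) 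
(.lf (nat_lit 492156) (.g (nat_lit 2206) (.e (nat_lit 163871) (nat_lit 2) (.e (nat_lit 196668) (nat_lit 14) (.e (nat_lit 73746) (nat_lit 3) (.e (nat_lit 516131) (nat_lit 3) (.e (nat_lit 221215) (nat_lit 23) (.e (nat_lit 204828) (nat_lit 18) (.e (nat_lit 57926) (nat_lit 282) .nil))))))) (.g (nat_lit 1) (.e (nat_lit 147552) (nat_lit 0) .nil) .nil)))) (.nd (nat_lit 9) 
(.lf (nat_lit 491900) (.g (nat_lit 3246) (.e (nat_lit 163870) (nat_lit 2) (.e (nat_lit 196666) (nat_lit 13) (.e (nat_lit 65610) (nat_lit 10) (.e (nat_lit 344117) (nat_lit 21) (.e (nat_lit 516151) (nat_lit 9) (.e (nat_lit 426017) (nat_lit 0) (.e (nat_lit 2418) (nat_lit 157) (.e (nat_lit 7936) (nat_lit 285) .nil)))))))) (.g (nat_lit 1) (.e (nat_lit 147089) (nat_lit 0) .nil) .nil))) 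
(.lf (nat_lit 492412) (.g (nat_lit 3131) (.e (nat_lit 163872) (nat_lit 3) (.e (nat_lit 204863) (nat_lit 27) (.e (nat_lit 344117) (nat_lit 21) (.e (nat_lit 516130) (nat_lit 3) (.e (nat_lit 221214) (nat_lit 23) (.e (nat_lit 204830) (nat_lit 18) (.e (nat_lit 57926) (nat_lit 282) .nil))))))) (.g (nat_lit 1) (.e (nat_lit 148334) (nat_lit 0) .nil) .nil))))) (.nd (nat_lit 8) (.nd (nat_lit 9) 
(.lf (nat_lit 491772) (.g (nat_lit 391) (.e (nat_lit 163869) (nat_lit 2) (.e (nat_lit 196681) (nat_lit 17) (.e (nat_lit 131125) (nat_lit 13) .nil))) (.g (nat_lit 0) (.e (nat_lit 146861) (nat_lit 0) .nil) .nil))) 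
(.lf (nat_lit 492284) (.g (nat_lit 3887) (.e (nat_lit 163871) (nat_lit 2) (.e (nat_lit 196670) (nat_lit 14) (.e (nat_lit 73746) (nat_lit 3) (.e (nat_lit 516129) (nat_lit 3) (.e (nat_lit 221215) (nat_lit 23) (.e (nat_lit 204830) (nat_lit 18) (.e (nat_lit 57925) (nat_lit 282) .nil))))))) (.g (nat_lit 1) (.e (nat_lit 147812) (nat_lit 0) .nil) .nil)))) (.nd (nat_lit 9) 
(.lf (nat_lit 492028) (.g (nat_lit 2888) (.e (nat_lit 163870) (nat_lit 2) (.e (nat_lit 196670) (nat_lit 14) (.e (nat_lit 73746) (nat_lit 3) (.e (nat_lit 516129) (nat_lit 3) (.e (nat_lit 221215) (nat_lit 23) (.e (nat_lit 204829) (nat_lit 18) (.e (nat_lit 57927) (nat_lit 282) .nil))))))) (.g (nat_lit 1) (.e (nat_lit 147268) (nat_lit 0) .nil) .nil))) 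
(.lf (nat_lit 492540) (.g (nat_lit 5013) (.e (nat_lit 163873) (nat_lit 3) (.e (nat_lit 204813) (nat_lit 9) (.e (nat_lit 426187) (nat_lit 9) (.e (nat_lit 426566) (nat_lit 34) (.e (nat_lit 393253) (nat_lit 18) (.e (nat_lit 164325) (nat_lit 230) .nil)))))) (.g (nat_lit 1) (.e (nat_lit 148615) (nat_lit 0) .nil) .nil))))))))))) 
(.nd (nat_lit 2) (.nd (nat_lit 3) (.nd (nat_lit 4) (.nd (nat_lit 5) (.nd (nat_lit 6) 
(.nd (nat_lit 7) (.nd (nat_lit 8) (.nd (nat_lit 9) 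
(.lf (nat_lit 491522) (.g (nat_lit 3533) (.e (nat_lit 163869) (nat_lit 2) (.e (nat_lit 196666) (nat_lit 13) (.e (nat_lit 65610) (nat_lit 10) (.e (nat_lit 344117) (nat_lit 21) (.e (nat_lit 516159) (nat_lit 10) (.e (nat_lit 434208) (nat_lit 18) (.e (nat_lit 7936) (nat_lit 285) .nil))))))) (.g (nat_lit 1) (.e (nat_lit 146276) (nat_lit 0) .nil) .nil))) 
(.lf (nat_lit 492034) (.g (nat_lit 1315) (.e (nat_lit 163871) (nat_lit 2) (.e (nat_lit 196626) (nat_lit 9) (.e (nat_lit 437) (nat_lit 32) (.e (nat_lit 426188) (nat_lit 9) (.e (nat_lit 426566) (nat_lit 34) .nil))))) (.g (nat_lit 0) (.e (nat_lit 147292) (nat_lit 0) .nil) .nil)))) (.nd (nat_lit 9) 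
(.lf (nat_lit 491778) (.g (nat_lit 2674) (.e (nat_lit 163869) (nat_lit 2) (.e (nat_lit 196681) (nat_lit 17) (.e (nat_lit 131125) (nat_lit 13) (.e (nat_lit 393229) (nat_lit 9) (.e (nat_lit 335986) (nat_lit 1) (.e (nat_lit 57927) (nat_lit 282) .nil)))))) (.g (nat_lit 1) (.e (nat_lit 146867) (nat_lit 0) .nil) .nil))) 
(.lf (nat_lit 492290) (.g (nat_lit 2735) (.e (nat_lit 163871) (nat_lit 2) (.e (nat_lit 196670) (nat_lit 14) (.e (nat_lit 73746) (nat_lit 3) (.e (nat_lit 516131) (nat_lit 3) (.e (nat_lit 221214) (nat_lit 23) (.e (nat_lit 204829) (nat_lit 18) (.e (nat_lit 57925) (nat_lit 282) .nil))))))) (.g (nat_lit 1) (.e (nat_lit 147821) (nat_lit 0) .nil) .nil))))) (.nd (nat_lit 8) (.nd (nat_lit 9) 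
(.lf (nat_lit 491650) (.g (nat_lit 2130) (.e (nat_lit 163869) (nat_lit 2) (.e (nat_lit 196670) (nat_lit 14) (.e (nat_lit 73746) (nat_lit 3) (.e (nat_lit 516127) (nat_lit 2) (.e (nat_lit 213038) (nat_lit 13) (.e (nat_lit 229434) (nat_lit 25) (.e (nat_lit 532503) (nat_lit 1) (.e (nat_lit 57929) (nat_lit 282) .nil)))))))) (.g (nat_lit 1) (.e (nat_lit 146544) (nat_lit 0) .nil) .nil))) 
(.lf (nat_lit 492162) (.g (nat_lit 2949) (.e (nat_lit 163871) (nat_lit 2) (.e (nat_lit 196668) (nat_lit 14) (.e (nat_lit 73746) (nat_lit 3) (.e (nat_lit 516131) (nat_lit 3) (.e (nat_lit 221215) (nat_lit 23) (.e (nat_lit 204830) (nat_lit 18) (.e (nat_lit 57925) (nat_lit 282) .nil))))))) (.g (nat_lit 1) (.e (nat_lit 147558) (nat_lit 0) .nil) .nil)))) (.nd (nat_lit 9) 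
(.lf (nat_lit 491906) (.g (nat_lit 4742) (.e (nat_lit 163870) (nat_lit 2) (.e (nat_lit 196666) (nat_lit 13) (.e (nat_lit 65610) (nat_lit 10) (.e (nat_lit 344117) (nat_lit 21) (.e (nat_lit 516151) (nat_lit 9) (.e (nat_lit 426022) (nat_lit 0) (.e (nat_lit 2397) (nat_lit 157) (.e (nat_lit 4849) (nat_lit 285) .nil)))))))) (.g (nat_lit 1) (.e (nat_lit 147095) (nat_lit 0) .nil) .nil))) 
(.lf (nat_lit 492418) (.g (nat_lit 1580) (.e (nat_lit 163873) (nat_lit 3) (.e (nat_lit 204809) (nat_lit 9) (.e (nat_lit 426139) (nat_lit 3) (.e (nat_lit 204834) (nat_lit 19) .nil)))) (.g (nat_lit 0) (.e (nat_lit 148345) (nat_lit 0) .nil) .nil)))))) (.nd (nat_lit 7) (.nd (nat_lit 8) (.nd (nat_lit 9) 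
(.lf (nat_lit 491586) (.g (nat_lit 3198) (.e (nat_lit 163869) (nat_lit 2) (.e (nat_lit 196668) (nat_lit 14) (.e (nat_lit 73747) (nat_lit 3) (.e (nat_lit 516129) (nat_lit 3) (.e (nat_lit 221215) (nat_lit 23) (.e (nat_lit 204828) (nat_lit 18) (.e (nat_lit 57926) (nat_lit 282) .nil))))))) (.g (nat_lit 1) (.e (nat_lit 146426) (nat_lit 0) .nil) .nil))) 
(.lf (nat_lit 492098) (.g (nat_lit 3563) (.e (nat_lit 163871) (nat_lit 2) (.e (nat_lit 196656) (nat_lit 11) (.e (nat_lit 16463) (nat_lit 13) (.e (nat_lit 483341) (nat_lit 9) (.e (nat_lit 426098) (nat_lit 1) (.e (nat_lit 164325) (nat_lit 230) .nil)))))) (.g (nat_lit 1) (.e (nat_lit 147420) (nat_lit 0) .nil) .nil)))) (.nd (nat_lit 9) 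
(.lf (nat_lit 491842) (.g (nat_lit 2622) (.e (nat_lit 163870) (nat_lit 2) (.e (nat_lit 196666) (nat_lit 13) (.e (nat_lit 65571) (nat_lit 3) (.e (nat_lit 98341) (nat_lit 20) (.e (nat_lit 221215) (nat_lit 23) (.e (nat_lit 204828) (nat_lit 18) (.e (nat_lit 57925) (nat_lit 282) .nil))))))) (.g (nat_lit 1) (.e (nat_lit 146970) (nat_lit 0) .nil) .nil))) 
(.lf (nat_lit 492354) (.g (nat_lit 1978) (.e (nat_lit 163872) (nat_lit 3) (.e (nat_lit 204837) (nat_lit 20) (.e (nat_lit 114716) (nat_lit 22) (.e (nat_lit 90172) (nat_lit 14) (.e (nat_lit 180244) (nat_lit 5) .nil))))) (.g (nat_lit 0) (.e (nat_lit 148261) (nat_lit 0) .nil) .nil))))) (.nd (nat_lit 8) (.nd (nat_lit 9) 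
(.lf (nat_lit 491714) (.g (nat_lit 2832) (.e (nat_lit 163869) (nat_lit 2) (.e (nat_lit 196670) (nat_lit 14) (.e (nat_lit 73754) (nat_lit 8) (.e (nat_lit 557103) (nat_lit 14) (.e (nat_lit 180243) (nat_lit 5) (.e (nat_lit 532503) (nat_lit 1) (.e (nat_lit 65280) (nat_lit 168) .nil))))))) (.g (nat_lit 1) (.e (nat_lit 146657) (nat_lit 0) .nil) .nil))) 
(.lf (nat_lit 492226) (.g (nat_lit 4511) (.e (nat_lit 163871) (nat_lit 2) (.e (nat_lit 196668) (nat_lit 14) (.e (nat_lit 73747) (nat_lit 3) (.e (nat_lit 516131) (nat_lit 3) (.e (nat_lit 221215) (nat_lit 23) (.e (nat_lit 204830) (nat_lit 18) (.e (nat_lit 57926) (nat_lit 282) .nil))))))) (.g (nat_lit 1) (.e (nat_lit 147693) (nat_lit 0) .nil) .nil)))) (.nd (nat_lit 9) 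
(.lf (nat_lit 491970) (.g (nat_lit 3677) (.e (nat_lit 163870) (nat_lit 2) (.e (nat_lit 196666) (nat_lit 13) (.e (nat_lit 65610) (nat_lit 10) (.e (nat_lit 344117) (nat_lit 21) (.e (nat_lit 516159) (nat_lit 10) (.e (nat_lit 434205) (nat_lit 18) (.e (nat_lit 7936) (nat_lit 285) .nil))))))) (.g (nat_lit 1) (.e (nat_lit 147170) (nat_lit 0) .nil) .nil))) 
(.lf (nat_lit 492482) (.g (nat_lit 2378) (.e (nat_lit 163873) (nat_lit 3) (.e (nat_lit 204809) (nat_lit 9) (.e (nat_lit 426200) (nat_lit 9) (.e (nat_lit 426568) (nat_lit 34) (.e (nat_lit 393253) (nat_lit 18) (.e (nat_lit 164329) (nat_lit 230) .nil)))))) (.g (nat_lit 1) (.e (nat_lit 148417) (nat_lit 0) .nil) .nil))))))) (.nd (nat_lit 6) (.nd (nat_lit 7) (.nd (nat_lit 8) (.nd (nat_lit 9) 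
(.lf (nat_lit 491554) (.g (nat_lit 3745) (.e (nat_lit 163869) (nat_lit 2) (.e (nat_lit 196668) (nat_lit 14) (.e (nat_lit 73746) (nat_lit 3) (.e (nat_lit 516129) (nat_lit 3) (.e (nat_lit 221214) (nat_lit 23) (.e (nat_lit 204829) (nat_lit 18) (.e (nat_lit 57926) (nat_lit 282) .nil))))))) (.g (nat_lit 1) (.e (nat_lit 146358) (nat_lit 0) .nil) .nil))) 
(.lf (nat_lit 492066) (.g (nat_lit 2112) (.e (nat_lit 163871) (nat_lit 2) (.e (nat_lit 196654) (nat_lit 11) (.e (nat_lit 16463) (nat_lit 13) (.e (nat_lit 483341) (nat_lit 9) (.e (nat_lit 426105) (nat_lit 1) .nil))))) (.g (nat_lit 0) (.e (nat_lit 147339) (nat_lit 0) .nil) .nil)))) (.nd (nat_lit 9) 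
(.lf (nat_lit 491810) (.g (nat_lit 3887) (.e (nat_lit 163870) (nat_lit 2) (.e (nat_lit 196666) (nat_lit 13) (.e (nat_lit 65569) (nat_lit 3) (.e (nat_lit 98341) (nat_lit 20) (.e (nat_lit 221215) (nat_lit 23) (.e (nat_lit 204830) (nat_lit 18) (.e (nat_lit 57925) (nat_lit 282) .nil))))))) (.g (nat_lit 1) (.e (nat_lit 146919) (nat_lit 0) .nil) .nil))) 
(.lf (nat_lit 492322) (.g (nat_lit 2572) (.e (nat_lit 163871) (nat_lit 2) (.e (nat_lit 196670) (nat_lit 14) (.e (nat_lit 73755) (nat_lit 8) (.e (nat_lit 557103) (nat_lit 14) (.e (nat_lit 180244) (nat_lit 5) .nil))))) (.g (nat_lit 0) (.e (nat_lit 147856) (nat_lit 0) .nil) .nil))))) (.nd (nat_lit 8) (.nd (nat_lit 9) 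
(.lf (nat_lit 491682) (.g (nat_lit 3080) (.e (nat_lit 163869) (nat_lit 2) (.e (nat_lit 196670) (nat_lit 14) (.e (nat_lit 73746) (nat_lit 3) (.e (nat_lit 516131) (nat_lit 3) (.e (nat_lit 221215) (nat_lit 23) (.e (nat_lit 204828) (nat_lit 18) (.e (nat_lit 57930) (nat_lit 282) .nil))))))) (.g (nat_lit 1) (.e (nat_lit 146602) (nat_lit 0) .nil) .nil))) 
(.lf (nat_lit 492194) (.g (nat_lit 4766) (.e (nat_lit 163871) (nat_lit 2) (.e (nat_lit 196668) (nat_lit 14) (.e (nat_lit 73747) (nat_lit 3) (.e (nat_lit 516129) (nat_lit 3) (.e (nat_lit 221215) (nat_lit 23) (.e (nat_lit 204830) (nat_lit 18) (.e (nat_lit 57925) (nat_lit 282) .nil))))))) (.g (nat_lit 1) (.e (nat_lit 147633) (nat_lit 0) .nil) .nil)))) (.nd (nat_lit 9) 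
(.lf (nat_lit 491938) (.g (nat_lit 3519) (.e (nat_lit 163870) (nat_lit 2) (.e (nat_lit 196666) (nat_lit 13) (.e (nat_lit 65610) (nat_lit 10) (.e (nat_lit 344117) (nat_lit 21) (.e (nat_lit 516151) (nat_lit 9) (.e (nat_lit 426045) (nat_lit 0) (.e (nat_lit 2422) (nat_lit 157) (.e (nat_lit 4848) (nat_lit 285) .nil)))))))) (.g (nat_lit 1) (.e (nat_lit 147127) (nat_lit 0) .nil) .nil))) 
(.lf (nat_lit 492450) (.g (nat_lit 528) (.e (nat_lit 163873) (nat_lit 3) (.e (nat_lit 204809) (nat_lit 9) (.e (nat_lit 426197) (nat_lit 9) .nil))) (.g (nat_lit 0) (.e (nat_lit 148384) (nat_lit 0) .nil) .nil)))))) (.nd (nat_lit 7) (.nd (nat_lit 8) (.nd (nat_lit 9) 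
(.lf (nat_lit 491618) (.g (nat_lit 1055) (.e (nat_lit 163869) (nat_lit 2) (.e (nat_lit 196670) (nat_lit 14) (.e (nat_lit 73746) (nat_lit 3) (.e (nat_lit 516124) (nat_lit 2) .nil)))) (.g (nat_lit 0) (.e (nat_lit 146509) (nat_lit 0) .nil) .nil))) 
(.lf (nat_lit 492130) (.g (nat_lit 2204) (.e (nat_lit 163871) (nat_lit 2) (.e (nat_lit 196668) (nat_lit 14) (.e (nat_lit 73746) (nat_lit 3) (.e (nat_lit 516129) (nat_lit 3) (.e (nat_lit 221213) (nat_lit 23) (.e (nat_lit 204830) (nat_lit 18) (.e (nat_lit 57928) (nat_lit 282) .nil))))))) (.g (nat_lit 1) (.e (nat_lit 147509) (nat_lit 0) .nil) .nil)))) (.nd (nat_lit 9) 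
(.lf (nat_lit 491874) (.g (nat_lit 3197) (.e (nat_lit 163870) (nat_lit 2) (.e (nat_lit 196666) (nat_lit 13) (.e (nat_lit 65571) (nat_lit 3) (.e (nat_lit 98342) (nat_lit 20) (.e (nat_lit 221215) (nat_lit 23) (.e (nat_lit 204831) (nat_lit 18) (.e (nat_lit 57924) (nat_lit 282) .nil))))))) (.g (nat_lit 1) (.e (nat_lit 147018) (nat_lit 0) .nil) .nil))) 
(.lf (nat_lit 492386) (.g (nat_lit 3475) (.e (nat_lit 163872) (nat_lit 3) (.e (nat_lit 204838) (nat_lit 20) (.e (nat_lit 114716) (nat_lit 22) (.e (nat_lit 90174) (nat_lit 14) (.e (nat_lit 180243) (nat_lit 5) (.e (nat_lit 532499) (nat_lit 1) (.e (nat_lit 57691) (nat_lit 156) .nil))))))) (.g (nat_lit 1) (.e (nat_lit 148295) (nat_lit 0) .nil) .nil))))) (.nd (nat_lit 8) (.nd (nat_lit 9) 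
(.lf (nat_lit 491746) (.g (nat_lit 3297) (.e (nat_lit 163869) (nat_lit 2) (.e (nat_lit 196681) (nat_lit 17) (.e (nat_lit 131105) (nat_lit 9) (.e (nat_lit 336454) (nat_lit 34) (.e (nat_lit 483365) (nat_lit 18) (.e (nat_lit 57931) (nat_lit 282) .nil)))))) (.g (nat_lit 1) (.e (nat_lit 146816) (nat_lit 0) .nil) .nil))) 
(.lf (nat_lit 492258) (.g (nat_lit 2276) (.e (nat_lit 163871) (nat_lit 2) (.e (nat_lit 196670) (nat_lit 14) (.e (nat_lit 73746) (nat_lit 3) (.e (nat_lit 516127) (nat_lit 2) (.e (nat_lit 220928) (nat_lit 13) (.e (nat_lit 229433) (nat_lit 25) (.e (nat_lit 532501) (nat_lit 1) (.e (nat_lit 57925) (nat_lit 282) .nil)))))))) (.g (nat_lit 1) (.e (nat_lit 147786) (nat_lit 0) .nil) .nil)))) 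
(.nd (nat_lit 9) 
(.lf (nat_lit 492002) (.g (nat_lit 1239) (.e (nat_lit 163870) (nat_lit 2) (.e (nat_lit 196666) (nat_lit 13) (.e (nat_lit 65610) (nat_lit 10) (.e (nat_lit 344129) (nat_lit 26) .nil)))) (.g (nat_lit 0) (.e (nat_lit 147225) (nat_lit 0) .nil) .nil))) 
(.lf (nat_lit 492514) (.g (nat_lit 1882) (.e (nat_lit 163873) (nat_lit 3) (.e (nat_lit 204811) (nat_lit 9) (.e (nat_lit 426261) (nat_lit 9) (.e (nat_lit 426565) (nat_lit 34) (.e (nat_lit 393252) (nat_lit 18) (.e (nat_lit 164330) (nat_lit 230) .nil)))))) (.g (nat_lit 1) (.e (nat_lit 148547) (nat_lit 0) .nil) .nil)))))))) 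
(.nd (nat_lit 5) (.nd (nat_lit 6) (.nd (nat_lit 7) (.nd (nat_lit 8) (.nd (nat_lit 9) 
(.lf (nat_lit 491538) (.g (nat_lit 4039) (.e (nat_lit 163869) (nat_lit 2) (.e (nat_lit 196666) (nat_lit 13) (.e (nat_lit 65610) (nat_lit 10) (.e (nat_lit 344117) (nat_lit 21) (.e (nat_lit 516160) (nat_lit 10) (.e (nat_lit 434207) (nat_lit 18) (.e (nat_lit 7936) (nat_lit 285) .nil))))))) (.g (nat_lit 1) (.e (nat_lit 146292) (nat_lit 0) .nil) .nil))) 
(.lf (nat_lit 492050) (.g (nat_lit 1599) (.e (nat_lit 163871) (nat_lit 2) (.e (nat_lit 196654) (nat_lit 11) (.e (nat_lit 16436) (nat_lit 9) (.e (nat_lit 426484) (nat_lit 27) .nil)))) (.g (nat_lit 0) (.e (nat_lit 147317) (nat_lit 0) .nil) .nil)))) (.nd (nat_lit 9) 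
(.lf (nat_lit 491794) (.g (nat_lit 1482) (.e (nat_lit 163870) (nat_lit 2) (.e (nat_lit 196654) (nat_lit 11) (.e (nat_lit 16436) (nat_lit 9) (.e (nat_lit 426481) (nat_lit 27) .nil)))) (.g (nat_lit 0) (.e (nat_lit 146899) (nat_lit 0) .nil) .nil))) 
(.lf (nat_lit 492306) (.g (nat_lit 3188) (.e (nat_lit 163871) (nat_lit 2) (.e (nat_lit 196670) (nat_lit 14) (.e (nat_lit 73746) (nat_lit 3) (.e (nat_lit 516131) (nat_lit 3) (.e (nat_lit 221215) (nat_lit 23) (.e (nat_lit 204830) (nat_lit 18) (.e (nat_lit 57925) (nat_lit 282) .nil))))))) (.g (nat_lit 1) (.e (nat_lit 147837) (nat_lit 0) .nil) .nil))))) (.nd (nat_lit 8) (.nd (nat_lit 9) 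
(.lf (nat_lit 491666) (.g (nat_lit 2591) (.e (nat_lit 163869) (nat_lit 2) (.e (nat_lit 196670) (nat_lit 14) (.e (nat_lit 73746) (nat_lit 3) (.e (nat_lit 516129) (nat_lit 3) (.e (nat_lit 221215) (nat_lit 23) (.e (nat_lit 204829) (nat_lit 18) (.e (nat_lit 57925) (nat_lit 282) .nil))))))) (.g (nat_lit 1) (.e (nat_lit 146573) (nat_lit 0) .nil) .nil))) 
(.lf (nat_lit 492178) (.g (nat_lit 4477) (.e (nat_lit 163871) (nat_lit 2) (.e (nat_lit 196668) (nat_lit 14) (.e (nat_lit 73747) (nat_lit 3) (.e (nat_lit 516129) (nat_lit 3) (.e (nat_lit 221214) (nat_lit 23) (.e (nat_lit 204829) (nat_lit 18) (.e (nat_lit 57928) (nat_lit 282) .nil))))))) (.g (nat_lit 1) (.e (nat_lit 147614) (nat_lit 0) .nil) .nil)))) (.nd (nat_lit 9) 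
(.lf (nat_lit 491922) (.g (nat_lit 3418) (.e (nat_lit 163870) (nat_lit 2) (.e (nat_lit 196666) (nat_lit 13) (.e (nat_lit 65610) (nat_lit 10) (.e (nat_lit 344117) (nat_lit 21) (.e (nat_lit 516151) (nat_lit 9) (.e (nat_lit 426038) (nat_lit 0) (.e (nat_lit 2515) (nat_lit 157) (.e (nat_lit 7936) (nat_lit 285) .nil)))))))) (.g (nat_lit 1) (.e (nat_lit 147111) (nat_lit 0) .nil) .nil))) 
(.lf (nat_lit 492434) (.g (nat_lit 2760) (.e (nat_lit 163873) (nat_lit 3) (.e (nat_lit 204809) (nat_lit 9) (.e (nat_lit 426188) (nat_lit 9) (.e (nat_lit 426568) (nat_lit 34) (.e (nat_lit 393251) (nat_lit 18) (.e (nat_lit 164331) (nat_lit 230) .nil)))))) (.g (nat_lit 1) (.e (nat_lit 148368) (nat_lit 0) .nil) .nil)))))) (.nd (nat_lit 7) (.nd (nat_lit 8) (.nd (nat_lit 9) 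
(.lf (nat_lit 491602) (.g (nat_lit 2755) (.e (nat_lit 163869) (nat_lit 2) (.e (nat_lit 196668) (nat_lit 14) (.e (nat_lit 73747) (nat_lit 3) (.e (nat_lit 516131) (nat_lit 3) (.e (nat_lit 221215) (nat_lit 23) (.e (nat_lit 204831) (nat_lit 18) (.e (nat_lit 57929) (nat_lit 282) .nil))))))) (.g (nat_lit 1) (.e (nat_lit 146467) (nat_lit 0) .nil) .nil))) 
(.lf (nat_lit 492114) (.g (nat_lit 2625) (.e (nat_lit 163871) (nat_lit 2) (.e (nat_lit 196663) (nat_lit 13) (.e (nat_lit 65571) (nat_lit 3) (.e (nat_lit 98341) (nat_lit 20) (.e (nat_lit 221214) (nat_lit 23) (.e (nat_lit 204830) (nat_lit 18) (.e (nat_lit 57927) (nat_lit 282) .nil))))))) (.g (nat_lit 1) (.e (nat_lit 147456) (nat_lit 0) .nil) .nil)))) (.nd (nat_lit 9) 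
(.lf (nat_lit 491858) (.g (nat_lit 4403) (.e (nat_lit 163870) (nat_lit 2) (.e (nat_lit 196666) (nat_lit 13) (.e (nat_lit 65571) (nat_lit 3) (.e (nat_lit 98342) (nat_lit 20) (.e (nat_lit 221214) (nat_lit 23) (.e (nat_lit 204829) (nat_lit 18) (.e (nat_lit 57928) (nat_lit 282) .nil))))))) (.g (nat_lit 1) (.e (nat_lit 146999) (nat_lit 0) .nil) .nil))) 
(.lf (nat_lit 492370) (.g (nat_lit 2334) (.e (nat_lit 163872) (nat_lit 3) (.e (nat_lit 204838) (nat_lit 20) (.e (nat_lit 114714) (nat_lit 22) (.e (nat_lit 90174) (nat_lit 14) (.e (nat_lit 180243) (nat_lit 5) .nil))))) (.g (nat_lit 0) (.e (nat_lit 148278) (nat_lit 0) .nil) .nil))))) (.nd (nat_lit 8) (.nd (nat_lit 9) 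
(.lf (nat_lit 491730) (.g (nat_lit 2059) (.e (nat_lit 163869) (nat_lit 2) (.e (nat_lit 196672) (nat_lit 15) (.e (nat_lit 81925) (nat_lit 11) (.e (nat_lit 426500) (nat_lit 27) (.e (nat_lit 335995) (nat_lit 1) (.e (nat_lit 57929) (nat_lit 282) .nil)))))) (.g (nat_lit 1) (.e (nat_lit 146674) (nat_lit 0) .nil) .nil))) 
(.lf (nat_lit 492242) (.g (nat_lit 934) (.e (nat_lit 163871) (nat_lit 2) (.e (nat_lit 196670) (nat_lit 14) (.e (nat_lit 73746) (nat_lit 3) (.e (nat_lit 516124) (nat_lit 2) .nil)))) (.g (nat_lit 0) (.e (nat_lit 147768) (nat_lit 0) .nil) .nil)))) (.nd (nat_lit 9) 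
(.lf (nat_lit 491986) (.g (nat_lit 4640) (.e (nat_lit 163870) (nat_lit 2) (.e (nat_lit 196666) (nat_lit 13) (.e (nat_lit 65610) (nat_lit 10) (.e (nat_lit 344117) (nat_lit 21) (.e (nat_lit 516160) (nat_lit 10) (.e (nat_lit 434201) (nat_lit 18) (.e (nat_lit 7936) (nat_lit 285) .nil))))))) (.g (nat_lit 1) (.e (nat_lit 147186) (nat_lit 0) .nil) .nil))) 
(.lf (nat_lit 492498) (.g (nat_lit 2382) (.e (nat_lit 163873) (nat_lit 3) (.e (nat_lit 204811) (nat_lit 9) (.e (nat_lit 426234) (nat_lit 9) (.e (nat_lit 426565) (nat_lit 34) (.e (nat_lit 393253) (nat_lit 18) (.e (nat_lit 164324) (nat_lit 230) .nil)))))) (.g (nat_lit 1) (.e (nat_lit 148531) (nat_lit 0) .nil) .nil))))))) (.nd (nat_lit 6) (.nd (nat_lit 7) (.nd (nat_lit 8) (.nd (nat_lit 9) 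
(.lf (nat_lit 491570) (.g (nat_lit 2629) (.e (nat_lit 163869) (nat_lit 2) (.e (nat_lit 196668) (nat_lit 14) (.e (nat_lit 73746) (nat_lit 3) (.e (nat_lit 516131) (nat_lit 3) (.e (nat_lit 221213) (nat_lit 23) (.e (nat_lit 204830) (nat_lit 18) (.e (nat_lit 57926) (nat_lit 282) .nil))))))) (.g (nat_lit 1) (.e (nat_lit 146377) (nat_lit 0) .nil) .nil))) 
(.lf (nat_lit 492082) (.g (nat_lit 3350) (.e (nat_lit 163871) (nat_lit 2) (.e (nat_lit 196656) (nat_lit 11) (.e (nat_lit 16425) (nat_lit 7) (.e (nat_lit 409616) (nat_lit 10) (.e (nat_lit 858) (nat_lit 75) (.e (nat_lit 778323) (nat_lit 5) (.e (nat_lit 73729) (nat_lit 0) (.e (nat_lit 4539) (nat_lit 267) .nil)))))))) (.g (nat_lit 1) (.e (nat_lit 147392) (nat_lit 0) .nil) .nil)))) (.nd (nat_lit 9) 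
(.lf (nat_lit 491826) (.g (nat_lit 4159) (.e (nat_lit 163870) (nat_lit 2) (.e (nat_lit 196666) (nat_lit 13) (.e (nat_lit 65569) (nat_lit 3) (.e (nat_lit 98342) (nat_lit 20) (.e (nat_lit 221215) (nat_lit 23) (.e (nat_lit 204829) (nat_lit 18) (.e (nat_lit 57925) (nat_lit 282) .nil))))))) (.g (nat_lit 1) (.e (nat_lit 146941) (nat_lit 0) .nil) .nil))) 
(.lf (nat_lit 492338) (.g (nat_lit 429) (.e (nat_lit 163871) (nat_lit 2) (.e (nat_lit 196674) (nat_lit 15) (.e (nat_lit 89856) (nat_lit 18) .nil))) (.g (nat_lit 0) (.e (nat_lit 148072) (nat_lit 0) .nil) .nil))))) (.nd (nat_lit 8) (.nd (nat_lit 9) 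
(.lf (nat_lit 491698) (.g (nat_lit 4349) (.e (nat_lit 163869) (nat_lit 2) (.e (nat_lit 196670) (nat_lit 14) (.e (nat_lit 73753) (nat_lit 8) (.e (nat_lit 557103) (nat_lit 14) (.e (nat_lit 180244) (nat_lit 5) (.e (nat_lit 532501) (nat_lit 1) (.e (nat_lit 65280) (nat_lit 168) .nil))))))) (.g (nat_lit 1) (.e (nat_lit 146635) (nat_lit 0) .nil) .nil))) 
(.lf (nat_lit 492210) (.g (nat_lit 3231) (.e (nat_lit 163871) (nat_lit 2) (.e (nat_lit 196668) (nat_lit 14) (.e (nat_lit 73747) (nat_lit 3) (.e (nat_lit 516131) (nat_lit 3) (.e (nat_lit 221213) (nat_lit 23) (.e (nat_lit 204830) (nat_lit 18) (.e (nat_lit 57928) (nat_lit 282) .nil))))))) (.g (nat_lit 1) (.e (nat_lit 147672) (nat_lit 0) .nil) .nil)))) (.nd (nat_lit 9) 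
(.lf (nat_lit 491954) (.g (nat_lit 5054) (.e (nat_lit 163870) (nat_lit 2) (.e (nat_lit 196666) (nat_lit 13) (.e (nat_lit 65610) (nat_lit 10) (.e (nat_lit 344117) (nat_lit 21) (.e (nat_lit 516151) (nat_lit 9) (.e (nat_lit 426101) (nat_lit 1) (.e (nat_lit 171776) (nat_lit 219) .nil))))))) (.g (nat_lit 1) (.e (nat_lit 147143) (nat_lit 0) .nil) .nil))) 
(.lf (nat_lit 492466) (.g (nat_lit 2806) (.e (nat_lit 163873) (nat_lit 3) (.e (nat_lit 204809) (nat_lit 9) (.e (nat_lit 426200) (nat_lit 9) (.e (nat_lit 426566) (nat_lit 34) (.e (nat_lit 393252) (nat_lit 18) (.e (nat_lit 164330) (nat_lit 230) .nil)))))) (.g (nat_lit 1) (.e (nat_lit 148401) (nat_lit 0) .nil) .nil)))))) (.nd (nat_lit 7) (.nd (nat_lit 8) (.nd (nat_lit 9) 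
(.lf (nat_lit 491634) (.g (nat_lit 2386) (.e (nat_lit 163869) (nat_lit 2) (.e (nat_lit 196670) (nat_lit 14) (.e (nat_lit 73746) (nat_lit 3) (.e (nat_lit 516126) (nat_lit 2) (.e (nat_lit 213033) (nat_lit 12) (.e (nat_lit 163963) (nat_lit 25) (.e (nat_lit 532501) (nat_lit 1) (.e (nat_lit 57927) (nat_lit 282) .nil)))))))) (.g (nat_lit 1) (.e (nat_lit 146528) (nat_lit 0) .nil) .nil))) 
(.lf (nat_lit 492146) (.g (nat_lit 2446) (.e (nat_lit 163871) (nat_lit 2) (.e (nat_lit 196668) (nat_lit 14) (.e (nat_lit 73746) (nat_lit 3) (.e (nat_lit 516131) (nat_lit 3) (.e (nat_lit 221213) (nat_lit 23) (.e (nat_lit 204829) (nat_lit 18) (.e (nat_lit 57927) (nat_lit 282) .nil))))))) (.g (nat_lit 1) (.e (nat_lit 147541) (nat_lit 0) .nil) .nil)))) (.nd (nat_lit 9) 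
(.lf (nat_lit 491890) (.g (nat_lit 3370) (.e (nat_lit 163870) (nat_lit 2) (.e (nat_lit 196666) (nat_lit 13) (.e (nat_lit 65610) (nat_lit 10) (.e (nat_lit 344117) (nat_lit 21) (.e (nat_lit 516145) (nat_lit 9) (.e (nat_lit 426451) (nat_lit 21) (.e (nat_lit 130816) (nat_lit 174) .nil))))))) (.g (nat_lit 1) (.e (nat_lit 147079) (nat_lit 0) .nil) .nil))) 
(.lf (nat_lit 492402) (.g (nat_lit 2355) (.e (nat_lit 163872) (nat_lit 3) (.e (nat_lit 204838) (nat_lit 20) (.e (nat_lit 114719) (nat_lit 23) (.e (nat_lit 98365) (nat_lit 26) (.e (nat_lit 426138) (nat_lit 3) (.e (nat_lit 204829) (nat_lit 18) (.e (nat_lit 57692) (nat_lit 156) .nil))))))) (.g (nat_lit 1) (.e (nat_lit 148313) (nat_lit 0) .nil) .nil))))) (.nd (nat_lit 8) (.nd (nat_lit 9) 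
(.lf (nat_lit 491762) (.g (nat_lit 3478) (.e (nat_lit 163869) (nat_lit 2) (.e (nat_lit 196681) (nat_lit 17) (.e (nat_lit 131109) (nat_lit 9) (.e (nat_lit 336454) (nat_lit 34) (.e (nat_lit 483365) (nat_lit 18) (.e (nat_lit 57931) (nat_lit 282) .nil)))))) (.g (nat_lit 1) (.e (nat_lit 146846) (nat_lit 0) .nil) .nil))) 
(.lf (nat_lit 492274) (.g (nat_lit 4529) (.e (nat_lit 163871) (nat_lit 2) (.e (nat_lit 196670) (nat_lit 14) (.e (nat_lit 73746) (nat_lit 3) (.e (nat_lit 516129) (nat_lit 3) (.e (nat_lit 221214) (nat_lit 23) (.e (nat_lit 204830) (nat_lit 18) (.e (nat_lit 57926) (nat_lit 282) .nil))))))) (.g (nat_lit 1) (.e (nat_lit 147802) (nat_lit 0) .nil) .nil)))) (.nd (nat_lit 9) 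
(.lf (nat_lit 492018) (.g (nat_lit 773) (.e (nat_lit 163870) (nat_lit 2) (.e (nat_lit 196668) (nat_lit 14) (.e (nat_lit 73746) (nat_lit 3) .nil))) (.g (nat_lit 0) (.e (nat_lit 147257) (nat_lit 0) .nil) .nil))) 
(.lf (nat_lit 492530) (.g (nat_lit 3794) (.e (nat_lit 163873) (nat_lit 3) (.e (nat_lit 204813) (nat_lit 9) (.e (nat_lit 426186) (nat_lit 9) (.e (nat_lit 426566) (nat_lit 34) (.e (nat_lit 393251) (nat_lit 18) (.e (nat_lit 164325) (nat_lit 230) .nil)))))) (.g (nat_lit 1) (.e (nat_lit 148605) (nat_lit 0) .nil) .nil))))))))) 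
(.nd (nat_lit 4) (.nd (nat_lit 5) (.nd (nat_lit 6) (.nd (nat_lit 7) (.nd (nat_lit 8) 
(.nd (nat_lit 9) 
(.lf (nat_lit 491530) (.g (nat_lit 4065) (.e (nat_lit 163869) (nat_lit 2) (.e (nat_lit 196666) (nat_lit 13) (.e (nat_lit 65610) (nat_lit 10) (.e (nat_lit 344117) (nat_lit 21) (.e (nat_lit 516160) (nat_lit 10) (.e (nat_lit 434200) (nat_lit 18) (.e (nat_lit 7936) (nat_lit 285) .nil))))))) (.g (nat_lit 1) (.e (nat_lit 146284) (nat_lit 0) .nil) .nil))) 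
(.lf (nat_lit 492042) (.g (nat_lit 1847) (.e (nat_lit 163871) (nat_lit 2) (.e (nat_lit 196654) (nat_lit 11) (.e (nat_lit 16433) (nat_lit 9) (.e (nat_lit 426564) (nat_lit 34) (.e (nat_lit 393251) (nat_lit 18) .nil))))) (.g (nat_lit 0) (.e (nat_lit 147308) (nat_lit 0) .nil) .nil)))) (.nd (nat_lit 9) 
(.lf (nat_lit 491786) (.g (nat_lit 3146) (.e (nat_lit 163869) (nat_lit 2) (.e (nat_lit 196681) (nat_lit 17) (.e (nat_lit 131128) (nat_lit 13) (.e (nat_lit 393225) (nat_lit 9) (.e (nat_lit 335996) (nat_lit 1) (.e (nat_lit 57931) (nat_lit 282) .nil)))))) (.g (nat_lit 1) (.e (nat_lit 146883) (nat_lit 0) .nil) .nil))) 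
(.lf (nat_lit 492298) (.g (nat_lit 2679) (.e (nat_lit 163871) (nat_lit 2) (.e (nat_lit 196670) (nat_lit 14) (.e (nat_lit 73746) (nat_lit 3) (.e (nat_lit 516131) (nat_lit 3) (.e (nat_lit 221215) (nat_lit 23) (.e (nat_lit 204828) (nat_lit 18) (.e (nat_lit 57925) (nat_lit 282) .nil))))))) (.g (nat_lit 1) (.e (nat_lit 147829) (nat_lit 0) .nil) .nil))))) (.nd (nat_lit 8) (.nd (nat_lit 9) 
(.lf (nat_lit 491658) (.g (nat_lit 2766) (.e (nat_lit 163869) (nat_lit 2) (.e (nat_lit 196670) (nat_lit 14) (.e (nat_lit 73746) (nat_lit 3) (.e (nat_lit 516129) (nat_lit 3) (.e (nat_lit 221214) (nat_lit 23) (.e (nat_lit 204829) (nat_lit 18) (.e (nat_lit 57928) (nat_lit 282) .nil))))))) (.g (nat_lit 1) (.e (nat_lit 146564) (nat_lit 0) .nil) .nil))) 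
(.lf (nat_lit 492170) (.g (nat_lit 2800) (.e (nat_lit 163871) (nat_lit 2) (.e (nat_lit 196668) (nat_lit 14) (.e (nat_lit 73747) (nat_lit 3) (.e (nat_lit 516129) (nat_lit 3) (.e (nat_lit 221213) (nat_lit 23) (.e (nat_lit 204830) (nat_lit 18) (.e (nat_lit 57928) (nat_lit 282) .nil))))))) (.g (nat_lit 1) (.e (nat_lit 147602) (nat_lit 0) .nil) .nil)))) (.nd (nat_lit 9) 
(.lf (nat_lit 491914) (.g (nat_lit 3453) (.e (nat_lit 163870) (nat_lit 2) (.e (nat_lit 196666) (nat_lit 13) (.e (nat_lit 65610) (nat_lit 10) (.e (nat_lit 344117) (nat_lit 21) (.e (nat_lit 516151) (nat_lit 9) (.e (nat_lit 426034) (nat_lit 0) (.e (nat_lit 2423) (nat_lit 157) (.e (nat_lit 7936) (nat_lit 285) .nil)))))))) (.g (nat_lit 1) (.e (nat_lit 147103) (nat_lit 0) .nil) .nil))) 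
(.lf (nat_lit 492426) (.g (nat_lit 3667) (.e (nat_lit 163873) (nat_lit 3) (.e (nat_lit 204809) (nat_lit 9) (.e (nat_lit 426187) (nat_lit 9) (.e (nat_lit 426566) (nat_lit 34) (.e (nat_lit 393253) (nat_lit 18) (.e (nat_lit 164331) (nat_lit 230) .nil)))))) (.g (nat_lit 1) (.e (nat_lit 148360) (nat_lit 0) .nil) .nil)))))) (.nd (nat_lit 7) (.nd (nat_lit 8) (.nd (nat_lit 9) 
(.lf (nat_lit 491594) (.g (nat_lit 2829) (.e (nat_lit 163869) (nat_lit 2) (.e (nat_lit 196668) (nat_lit 14) (.e (nat_lit 73747) (nat_lit 3) (.e (nat_lit 516130) (nat_lit 3) (.e (nat_lit 221215) (nat_lit 23) (.e (nat_lit 204829) (nat_lit 18) (.e (nat_lit 57927) (nat_lit 282) .nil))))))) (.g (nat_lit 1) (.e (nat_lit 146435) (nat_lit 0) .nil) .nil))) 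
(.lf (nat_lit 492106) (.g (nat_lit 2004) (.e (nat_lit 163871) (nat_lit 2) (.e (nat_lit 196656) (nat_lit 11) (.e (nat_lit 16465) (nat_lit 13) (.e (nat_lit 483341) (nat_lit 9) (.e (nat_lit 433920) (nat_lit 1) .nil))))) (.g (nat_lit 0) (.e (nat_lit 147430) (nat_lit 0) .nil) .nil)))) (.nd (nat_lit 9) 
(.lf (nat_lit 491850) (.g (nat_lit 3013) (.e (nat_lit 163870) (nat_lit 2) (.e (nat_lit 196666) (nat_lit 13) (.e (nat_lit 65571) (nat_lit 3) (.e (nat_lit 98342) (nat_lit 20) (.e (nat_lit 221213) (nat_lit 23) (.e (nat_lit 204829) (nat_lit 18) (.e (nat_lit 57928) (nat_lit 282) .nil))))))) (.g (nat_lit 1) (.e (nat_lit 146990) (nat_lit 0) .nil) .nil))) 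
(.lf (nat_lit 492362) (.g (nat_lit 2538) (.e (nat_lit 163872) (nat_lit 3) (.e (nat_lit 204838) (nat_lit 20) (.e (nat_lit 114714) (nat_lit 22) (.e (nat_lit 90170) (nat_lit 13) (.e (nat_lit 172067) (nat_lit 3) (.e (nat_lit 204829) (nat_lit 18) (.e (nat_lit 57688) (nat_lit 156) .nil))))))) (.g (nat_lit 1) (.e (nat_lit 148270) (nat_lit 0) .nil) .nil))))) (.nd (nat_lit 8) (.nd (nat_lit 9) 
(.lf (nat_lit 491722) (.g (nat_lit 3754) (.e (nat_lit 163869) (nat_lit 2) (.e (nat_lit 196670) (nat_lit 14) (.e (nat_lit 73754) (nat_lit 8) (.e (nat_lit 557105) (nat_lit 14) (.e (nat_lit 180245) (nat_lit 5) (.e (nat_lit 532499) (nat_lit 1) (.e (nat_lit 65280) (nat_lit 168) .nil))))))) (.g (nat_lit 1) (.e (nat_lit 146665) (nat_lit 0) .nil) .nil))) 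
(.lf (nat_lit 492234) (.g (nat_lit 4797) (.e (nat_lit 163871) (nat_lit 2) (.e (nat_lit 196668) (nat_lit 14) (.e (nat_lit 73753) (nat_lit 8) (.e (nat_lit 557103) (nat_lit 14) (.e (nat_lit 180244) (nat_lit 5) (.e (nat_lit 532499) (nat_lit 1) (.e (nat_lit 65280) (nat_lit 168) .nil))))))) (.g (nat_lit 1) (.e (nat_lit 147752) (nat_lit 0) .nil) .nil)))) (.nd (nat_lit 9) 
(.lf (nat_lit 491978) (.g (nat_lit 2640) (.e (nat_lit 163870) (nat_lit 2) (.e (nat_lit 196666) (nat_lit 13) (.e (nat_lit 65610) (nat_lit 10) (.e (nat_lit 344117) (nat_lit 21) (.e (nat_lit 516159) (nat_lit 10) (.e (nat_lit 434214) (nat_lit 18) (.e (nat_lit 7936) (nat_lit 285) .nil))))))) (.g (nat_lit 1) (.e (nat_lit 147178) (nat_lit 0) .nil) .nil))) 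
(.lf (nat_lit 492490) (.g (nat_lit 2339) (.e (nat_lit 163873) (nat_lit 3) (.e (nat_lit 204811) (nat_lit 9) (.e (nat_lit 426230) (nat_lit 9) (.e (nat_lit 426565) (nat_lit 34) (.e (nat_lit 393253) (nat_lit 18) (.e (nat_lit 164324) (nat_lit 230) .nil)))))) (.g (nat_lit 1) (.e (nat_lit 148523) (nat_lit 0) .nil) .nil))))))) (.nd (nat_lit 6) (.nd (nat_lit 7) (.nd (nat_lit 8) (.nd (nat_lit 9) 
(.lf (nat_lit 491562) (.g (nat_lit 3554) (.e (nat_lit 163869) (nat_lit 2) (.e (nat_lit 196668) (nat_lit 14) (.e (nat_lit 73746) (nat_lit 3) (.e (nat_lit 516129) (nat_lit 3) (.e (nat_lit 221215) (nat_lit 23) (.e (nat_lit 204829) (nat_lit 18) (.e (nat_lit 57926) (nat_lit 282) .nil))))))) (.g (nat_lit 1) (.e (nat_lit 146368) (nat_lit 0) .nil) .nil))) 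
(.lf (nat_lit 492074) (.g (nat_lit 1034) (.e (nat_lit 163871) (nat_lit 2) (.e (nat_lit 196655) (nat_lit 11) (.e (nat_lit 16435) (nat_lit 9) (.e (nat_lit 426495) (nat_lit 27) (.e (nat_lit 336387) (nat_lit 27) .nil))))) (.g (nat_lit 0) (.e (nat_lit 147355) (nat_lit 0) .nil) .nil)))) (.nd (nat_lit 9) 
(.lf (nat_lit 491818) (.g (nat_lit 2867) (.e (nat_lit 163870) (nat_lit 2) (.e (nat_lit 196666) (nat_lit 13) (.e (nat_lit 65569) (nat_lit 3) (.e (nat_lit 98342) (nat_lit 20) (.e (nat_lit 221214) (nat_lit 23) (.e (nat_lit 204829) (nat_lit 18) (.e (nat_lit 57924) (nat_lit 282) .nil))))))) (.g (nat_lit 1) (.e (nat_lit 146931) (nat_lit 0) .nil) .nil))) 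
(.lf (nat_lit 492330) (.g (nat_lit 2561) (.e (nat_lit 163871) (nat_lit 2) (.e (nat_lit 196672) (nat_lit 15) (.e (nat_lit 81927) (nat_lit 11) (.e (nat_lit 426500) (nat_lit 27) (.e (nat_lit 335988) (nat_lit 1) (.e (nat_lit 57925) (nat_lit 282) .nil)))))) (.g (nat_lit 1) (.e (nat_lit 147866) (nat_lit 0) .nil) .nil))))) (.nd (nat_lit 8) (.nd (nat_lit 9) 
(.lf (nat_lit 491690) (.g (nat_lit 2651) (.e (nat_lit 163869) (nat_lit 2) (.e (nat_lit 196670) (nat_lit 14) (.e (nat_lit 73748) (nat_lit 3) (.e (nat_lit 516131) (nat_lit 3) (.e (nat_lit 221215) (nat_lit 23) (.e (nat_lit 204829) (nat_lit 18) (.e (nat_lit 57927) (nat_lit 282) .nil))))))) (.g (nat_lit 1) (.e (nat_lit 146612) (nat_lit 0) .nil) .nil))) 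
(.lf (nat_lit 492202) (.g (nat_lit 2313) (.e (nat_lit 163871) (nat_lit 2) (.e (nat_lit 196668) (nat_lit 14) (.e (nat_lit 73747) (nat_lit 3) (.e (nat_lit 516130) (nat_lit 3) (.e (nat_lit 221215) (nat_lit 23) (.e (nat_lit 204829) (nat_lit 18) (.e (nat_lit 57925) (nat_lit 282) .nil))))))) (.g (nat_lit 1) (.e (nat_lit 147641) (nat_lit 0) .nil) .nil)))) (.nd (nat_lit 9) 
(.lf (nat_lit 491946) (.g (nat_lit 4136) (.e (nat_lit 163870) (nat_lit 2) (.e (nat_lit 196666) (nat_lit 13) (.e (nat_lit 65610) (nat_lit 10) (.e (nat_lit 344117) (nat_lit 21) (.e (nat_lit 516151) (nat_lit 9) (.e (nat_lit 426043) (nat_lit 0) (.e (nat_lit 2424) (nat_lit 157) (.e (nat_lit 7936) (nat_lit 285) .nil)))))))) (.g (nat_lit 1) (.e (nat_lit 147135) (nat_lit 0) .nil) .nil))) 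
(.lf (nat_lit 492458) (.g (nat_lit 2939) (.e (nat_lit 163873) (nat_lit 3) (.e (nat_lit 204809) (nat_lit 9) (.e (nat_lit 426198) (nat_lit 9) (.e (nat_lit 426566) (nat_lit 34) (.e (nat_lit 393253) (nat_lit 18) (.e (nat_lit 164325) (nat_lit 230) .nil)))))) (.g (nat_lit 1) (.e (nat_lit 148392) (nat_lit 0) .nil) .nil)))))) (.nd (nat_lit 7) (.nd (nat_lit 8) (.nd (nat_lit 9) 
(.lf (nat_lit 491626) (.g (nat_lit 2479) (.e (nat_lit 163869) (nat_lit 2) (.e (nat_lit 196670) (nat_lit 14) (.e (nat_lit 73746) (nat_lit 3) (.e (nat_lit 516124) (nat_lit 2) (.e (nat_lit 213034) (nat_lit 12) (.e (nat_lit 163964) (nat_lit 25) (.e (nat_lit 532501) (nat_lit 1) (.e (nat_lit 57927) (nat_lit 282) .nil)))))))) (.g (nat_lit 1) (.e (nat_lit 146520) (nat_lit 0) .nil) .nil))) 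
(.lf (nat_lit 492138) (.g (nat_lit 3324) (.e (nat_lit 163871) (nat_lit 2) (.e (nat_lit 196668) (nat_lit 14) (.e (nat_lit 73746) (nat_lit 3) (.e (nat_lit 516129) (nat_lit 3) (.e (nat_lit 221215) (nat_lit 23) (.e (nat_lit 204829) (nat_lit 18) (.e (nat_lit 57926) (nat_lit 282) .nil))))))) (.g (nat_lit 1) (.e (nat_lit 147517) (nat_lit 0) .nil) .nil)))) (.nd (nat_lit 9) 
(.lf (nat_lit 491882) (.g (nat_lit 3541) (.e (nat_lit 163870) (nat_lit 2) (.e (nat_lit 196666) (nat_lit 13) (.e (nat_lit 65610) (nat_lit 10) (.e (nat_lit 344117) (nat_lit 21) (.e (nat_lit 516144) (nat_lit 9) (.e (nat_lit 426454) (nat_lit 21) (.e (nat_lit 130816) (nat_lit 174) .nil))))))) (.g (nat_lit 1) (.e (nat_lit 147038) (nat_lit 0) .nil) .nil))) 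
(.lf (nat_lit 492394) (.g (nat_lit 4769) (.e (nat_lit 163872) (nat_lit 3) (.e (nat_lit 204838) (nat_lit 20) (.e (nat_lit 114718) (nat_lit 23) (.e (nat_lit 98356) (nat_lit 26) (.e (nat_lit 426438) (nat_lit 18) (.e (nat_lit 98334) (nat_lit 18) (.e (nat_lit 164330) (nat_lit 230) .nil))))))) (.g (nat_lit 1) (.e (nat_lit 148303) (nat_lit 0) .nil) .nil))))) (.nd (nat_lit 8) (.nd (nat_lit 9) 
(.lf (nat_lit 491754) (.g (nat_lit 1814) (.e (nat_lit 163869) (nat_lit 2) (.e (nat_lit 196681) (nat_lit 17) (.e (nat_lit 131109) (nat_lit 9) (.e (nat_lit 336454) (nat_lit 34) (.e (nat_lit 483362) (nat_lit 18) (.e (nat_lit 57926) (nat_lit 282) .nil)))))) (.g (nat_lit 1) (.e (nat_lit 146838) (nat_lit 0) .nil) .nil))) 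
(.lf (nat_lit 492266) (.g (nat_lit 2217) (.e (nat_lit 163871) (nat_lit 2) (.e (nat_lit 196670) (nat_lit 14) (.e (nat_lit 73746) (nat_lit 3) (.e (nat_lit 516129) (nat_lit 3) (.e (nat_lit 221214) (nat_lit 23) (.e (nat_lit 204828) (nat_lit 18) (.e (nat_lit 57928) (nat_lit 282) .nil))))))) (.g (nat_lit 1) (.e (nat_lit 147794) (nat_lit 0) .nil) .nil)))) (.nd (nat_lit 9) 
(.lf (nat_lit 492010) (.g (nat_lit 2897) (.e (nat_lit 163870) (nat_lit 2) (.e (nat_lit 196666) (nat_lit 13) (.e (nat_lit 65625) (nat_lit 13) (.e (nat_lit 393225) (nat_lit 9) (.e (nat_lit 335996) (nat_lit 1) (.e (nat_lit 57924) (nat_lit 282) .nil)))))) (.g (nat_lit 1) (.e (nat_lit 147240) (nat_lit 0) .nil) .nil))) 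
(.lf (nat_lit 492522) (.g (nat_lit 2134) (.e (nat_lit 163873) (nat_lit 3) (.e (nat_lit 204811) (nat_lit 9) (.e (nat_lit 426262) (nat_lit 9) (.e (nat_lit 426565) (nat_lit 34) (.e (nat_lit 393253) (nat_lit 18) (.e (nat_lit 164332) (nat_lit 230) .nil)))))) (.g (nat_lit 1) (.e (nat_lit 148555) (nat_lit 0) .nil) .nil)))))))) 
(.nd (nat_lit 5) (.nd (nat_lit 6) (.nd (nat_lit 7) (.nd (nat_lit 8) (.nd (nat_lit 9) 
(.lf (nat_lit 491546) (.g (nat_lit 1360) (.e (nat_lit 163869) (nat_lit 2) (.e (nat_lit 196666) (nat_lit 13) (.e (nat_lit 65626) (nat_lit 13) (.e (nat_lit 393225) (nat_lit 9) .nil)))) (.g (nat_lit 0) (.e (nat_lit 146326) (nat_lit 0) .nil) .nil))) 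
(.lf (nat_lit 492058) (.g (nat_lit 2036) (.e (nat_lit 163871) (nat_lit 2) (.e (nat_lit 196654) (nat_lit 11) (.e (nat_lit 16438) (nat_lit 9) (.e (nat_lit 426566) (nat_lit 34) (.e (nat_lit 393250) (nat_lit 18) .nil))))) (.g (nat_lit 0) (.e (nat_lit 147329) (nat_lit 0) .nil) .nil)))) (.nd (nat_lit 9) 
(.lf (nat_lit 491802) (.g (nat_lit 3646) (.e (nat_lit 163870) (nat_lit 2) (.e (nat_lit 196666) (nat_lit 13) (.e (nat_lit 65569) (nat_lit 3) (.e (nat_lit 98341) (nat_lit 20) (.e (nat_lit 221214) (nat_lit 23) (.e (nat_lit 204829) (nat_lit 18) (.e (nat_lit 57925) (nat_lit 282) .nil))))))) (.g (nat_lit 1) (.e (nat_lit 146911) (nat_lit 0) .nil) .nil))) 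
(.lf (nat_lit 492314) (.g (nat_lit 3466) (.e (nat_lit 163871) (nat_lit 2) (.e (nat_lit 196670) (nat_lit 14) (.e (nat_lit 73753) (nat_lit 8) (.e (nat_lit 557103) (nat_lit 14) (.e (nat_lit 180243) (nat_lit 5) (.e (nat_lit 532504) (nat_lit 1) (.e (nat_lit 65280) (nat_lit 168) .nil))))))) (.g (nat_lit 1) (.e (nat_lit 147847) (nat_lit 0) .nil) .nil))))) (.nd (nat_lit 8) (.nd (nat_lit 9) 
(.lf (nat_lit 491674) (.g (nat_lit 1202) (.e (nat_lit 163869) (nat_lit 2) (.e (nat_lit 196670) (nat_lit 14) (.e (nat_lit 73746) (nat_lit 3) (.e (nat_lit 516131) (nat_lit 3) (.e (nat_lit 221211) (nat_lit 22) .nil))))) (.g (nat_lit 0) (.e (nat_lit 146582) (nat_lit 0) .nil) .nil))) 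
(.lf (nat_lit 492186) (.g (nat_lit 3133) (.e (nat_lit 163871) (nat_lit 2) (.e (nat_lit 196668) (nat_lit 14) (.e (nat_lit 73747) (nat_lit 3) (.e (nat_lit 516129) (nat_lit 3) (.e (nat_lit 221215) (nat_lit 23) (.e (nat_lit 204828) (nat_lit 18) (.e (nat_lit 57927) (nat_lit 282) .nil))))))) (.g (nat_lit 1) (.e (nat_lit 147625) (nat_lit 0) .nil) .nil)))) (.nd (nat_lit 9) 
(.lf (nat_lit 491930) (.g (nat_lit 4323) (.e (nat_lit 163870) (nat_lit 2) (.e (nat_lit 196666) (nat_lit 13) (.e (nat_lit 65610) (nat_lit 10) (.e (nat_lit 344117) (nat_lit 21) (.e (nat_lit 516151) (nat_lit 9) (.e (nat_lit 426042) (nat_lit 0) (.e (nat_lit 2423) (nat_lit 157) (.e (nat_lit 7936) (nat_lit 285) .nil)))))))) (.g (nat_lit 1) (.e (nat_lit 147119) (nat_lit 0) .nil) .nil))) 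
(.lf (nat_lit 492442) (.g (nat_lit 2416) (.e (nat_lit 163873) (nat_lit 3) (.e (nat_lit 204809) (nat_lit 9) (.e (nat_lit 426189) (nat_lit 9) (.e (nat_lit 426566) (nat_lit 34) (.e (nat_lit 393252) (nat_lit 18) (.e (nat_lit 164332) (nat_lit 230) .nil)))))) (.g (nat_lit 1) (.e (nat_lit 148376) (nat_lit 0) .nil) .nil)))))) (.nd (nat_lit 7) (.nd (nat_lit 8) (.nd (nat_lit 9) 
(.lf (nat_lit 491610) (.g (nat_lit 3222) (.e (nat_lit 163869) (nat_lit 2) (.e (nat_lit 196668) (nat_lit 14) (.e (nat_lit 73753) (nat_lit 8) (.e (nat_lit 557104) (nat_lit 14) (.e (nat_lit 180244) (nat_lit 5) (.e (nat_lit 532499) (nat_lit 1) (.e (nat_lit 65280) (nat_lit 168) .nil))))))) (.g (nat_lit 1) (.e (nat_lit 146494) (nat_lit 0) .nil) .nil))) 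
(.lf (nat_lit 492122) (.g (nat_lit 2377) (.e (nat_lit 163871) (nat_lit 2) (.e (nat_lit 196665) (nat_lit 13) (.e (nat_lit 65637) (nat_lit 15) (.e (nat_lit 3748) (nat_lit 228) (.e (nat_lit 786473) (nat_lit 27) (.e (nat_lit 336420) (nat_lit 28) (.e (nat_lit 434207) (nat_lit 18) (.e (nat_lit 5968) (nat_lit 324) .nil)))))))) (.g (nat_lit 1) (.e (nat_lit 147464) (nat_lit 0) .nil) .nil)))) 
(.nd (nat_lit 9) 
(.lf (nat_lit 491866) (.g (nat_lit 2724) (.e (nat_lit 163870) (nat_lit 2) (.e (nat_lit 196666) (nat_lit 13) (.e (nat_lit 65571) (nat_lit 3) (.e (nat_lit 98342) (nat_lit 20) (.e (nat_lit 221215) (nat_lit 23) (.e (nat_lit 204829) (nat_lit 18) (.e (nat_lit 57924) (nat_lit 282) .nil))))))) (.g (nat_lit 1) (.e (nat_lit 147010) (nat_lit 0) .nil) .nil))) 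
(.lf (nat_lit 492378) (.g (nat_lit 4513) (.e (nat_lit 163872) (nat_lit 3) (.e (nat_lit 204838) (nat_lit 20) (.e (nat_lit 114716) (nat_lit 22) (.e (nat_lit 90172) (nat_lit 14) (.e (nat_lit 180244) (nat_lit 5) (.e (nat_lit 532499) (nat_lit 1) (.e (nat_lit 57688) (nat_lit 156) .nil))))))) (.g (nat_lit 1) (.e (nat_lit 148287) (nat_lit 0) .nil) .nil))))) (.nd (nat_lit 8) (.nd (nat_lit 9) 
(.lf (nat_lit 491738) (.g (nat_lit 278) (.e (nat_lit 163869) (nat_lit 2) (.e (nat_lit 196674) (nat_lit 15) (.e (nat_lit 89856) (nat_lit 11) .nil))) (.g (nat_lit 0) (.e (nat_lit 146750) (nat_lit 0) .nil) .nil))) 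
(.lf (nat_lit 492250) (.g (nat_lit 2453) (.e (nat_lit 163871) (nat_lit 2) (.e (nat_lit 196670) (nat_lit 14) (.e (nat_lit 73746) (nat_lit 3) (.e (nat_lit 516124) (nat_lit 2) (.e (nat_lit 220928) (nat_lit 13) (.e (nat_lit 229433) (nat_lit 25) (.e (nat_lit 532501) (nat_lit 1) (.e (nat_lit 57925) (nat_lit 282) .nil)))))))) (.g (nat_lit 1) (.e (nat_lit 147778) (nat_lit 0) .nil) .nil)))) 
(.nd (nat_lit 9) 
(.lf (nat_lit 491994) (.g (nat_lit 4301) (.e (nat_lit 163870) (nat_lit 2) (.e (nat_lit 196666) (nat_lit 13) (.e (nat_lit 65610) (nat_lit 10) (.e (nat_lit 344117) (nat_lit 21) (.e (nat_lit 516160) (nat_lit 10) (.e (nat_lit 434209) (nat_lit 18) (.e (nat_lit 7936) (nat_lit 285) .nil))))))) (.g (nat_lit 1) (.e (nat_lit 147194) (nat_lit 0) .nil) .nil))) 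
(.lf (nat_lit 492506) (.g (nat_lit 2203) (.e (nat_lit 163873) (nat_lit 3) (.e (nat_lit 204811) (nat_lit 9) (.e (nat_lit 426260) (nat_lit 9) (.e (nat_lit 426565) (nat_lit 34) (.e (nat_lit 393253) (nat_lit 18) (.e (nat_lit 164331) (nat_lit 230) .nil)))))) (.g (nat_lit 1) (.e (nat_lit 148539) (nat_lit 0) .nil) .nil))))))) (.nd (nat_lit 6) (.nd (nat_lit 7) (.nd (nat_lit 8) (.nd (nat_lit 9) 
(.lf (nat_lit 491578) (.g (nat_lit 3221) (.e (nat_lit 163869) (nat_lit 2) (.e (nat_lit 196668) (nat_lit 14) (.e (nat_lit 73747) (nat_lit 3) (.e (nat_lit 516129) (nat_lit 3) (.e (nat_lit 221213) (nat_lit 23) (.e (nat_lit 204830) (nat_lit 18) (.e (nat_lit 57929) (nat_lit 282) .nil))))))) (.g (nat_lit 1) (.e (nat_lit 146410) (nat_lit 0) .nil) .nil))) 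
(.lf (nat_lit 492090) (.g (nat_lit 2084) (.e (nat_lit 163871) (nat_lit 2) (.e (nat_lit 196656) (nat_lit 11) (.e (nat_lit 16433) (nat_lit 9) (.e (nat_lit 426568) (nat_lit 34) (.e (nat_lit 393250) (nat_lit 18) .nil))))) (.g (nat_lit 0) (.e (nat_lit 147401) (nat_lit 0) .nil) .nil)))) (.nd (nat_lit 9) 
(.lf (nat_lit 491834) (.g (nat_lit 3893) (.e (nat_lit 163870) (nat_lit 2) (.e (nat_lit 196666) (nat_lit 13) (.e (nat_lit 65571) (nat_lit 3) (.e (nat_lit 98341) (nat_lit 20) (.e (nat_lit 221213) (nat_lit 23) (.e (nat_lit 204830) (nat_lit 18) (.e (nat_lit 57925) (nat_lit 282) .nil))))))) (.g (nat_lit 1) (.e (nat_lit 146960) (nat_lit 0) .nil) .nil))) 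
(.lf (nat_lit 492346) (.g (nat_lit 2212) (.e (nat_lit 163872) (nat_lit 3) (.e (nat_lit 204837) (nat_lit 20) (.e (nat_lit 114714) (nat_lit 22) (.e (nat_lit 90172) (nat_lit 14) (.e (nat_lit 180244) (nat_lit 5) .nil))))) (.g (nat_lit 0) (.e (nat_lit 148253) (nat_lit 0) .nil) .nil))))) (.nd (nat_lit 8) (.nd (nat_lit 9) 
(.lf (nat_lit 491706) (.g (nat_lit 2102) (.e (nat_lit 163869) (nat_lit 2) (.e (nat_lit 196670) (nat_lit 14) (.e (nat_lit 73753) (nat_lit 8) (.e (nat_lit 557105) (nat_lit 14) (.e (nat_lit 180245) (nat_lit 5) .nil))))) (.g (nat_lit 0) (.e (nat_lit 146643) (nat_lit 0) .nil) .nil))) 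
(.lf (nat_lit 492218) (.g (nat_lit 2379) (.e (nat_lit 163871) (nat_lit 2) (.e (nat_lit 196668) (nat_lit 14) (.e (nat_lit 73747) (nat_lit 3) (.e (nat_lit 516131) (nat_lit 3) (.e (nat_lit 221215) (nat_lit 23) (.e (nat_lit 204828) (nat_lit 18) (.e (nat_lit 57924) (nat_lit 282) .nil))))))) (.g (nat_lit 1) (.e (nat_lit 147685) (nat_lit 0) .nil) .nil)))) (.nd (nat_lit 9) 
(.lf (nat_lit 491962) (.g (nat_lit 3413) (.e (nat_lit 163870) (nat_lit 2) (.e (nat_lit 196666) (nat_lit 13) (.e (nat_lit 65610) (nat_lit 10) (.e (nat_lit 344117) (nat_lit 21) (.e (nat_lit 516159) (nat_lit 10) (.e (nat_lit 434199) (nat_lit 18) (.e (nat_lit 7936) (nat_lit 285) .nil))))))) (.g (nat_lit 1) (.e (nat_lit 147162) (nat_lit 0) .nil) .nil))) 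
(.lf (nat_lit 492474) (.g (nat_lit 3233) (.e (nat_lit 163873) (nat_lit 3) (.e (nat_lit 204809) (nat_lit 9) (.e (nat_lit 426200) (nat_lit 9) (.e (nat_lit 426568) (nat_lit 34) (.e (nat_lit 393251) (nat_lit 18) (.e (nat_lit 164325) (nat_lit 230) .nil)))))) (.g (nat_lit 1) (.e (nat_lit 148409) (nat_lit 0) .nil) .nil)))))) (.nd (nat_lit 7) (.nd (nat_lit 8) (.nd (nat_lit 9) 
(.lf (nat_lit 491642) (.g (nat_lit 2332) (.e (nat_lit 163869) (nat_lit 2) (.e (nat_lit 196670) (nat_lit 14) (.e (nat_lit 73746) (nat_lit 3) (.e (nat_lit 516127) (nat_lit 2) (.e (nat_lit 213034) (nat_lit 12) (.e (nat_lit 163963) (nat_lit 25) (.e (nat_lit 532504) (nat_lit 1) (.e (nat_lit 57929) (nat_lit 282) .nil)))))))) (.g (nat_lit 1) (.e (nat_lit 146536) (nat_lit 0) .nil) .nil))) 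
(.lf (nat_lit 492154) (.g (nat_lit 2778) (.e (nat_lit 163871) (nat_lit 2) (.e (nat_lit 196668) (nat_lit 14) (.e (nat_lit 73746) (nat_lit 3) (.e (nat_lit 516131) (nat_lit 3) (.e (nat_lit 221214) (nat_lit 23) (.e (nat_lit 204830) (nat_lit 18) (.e (nat_lit 57928) (nat_lit 282) .nil))))))) (.g (nat_lit 1) (.e (nat_lit 147549) (nat_lit 0) .nil) .nil)))) (.nd (nat_lit 9) 
(.lf (nat_lit 491898) (.g (nat_lit 2977) (.e (nat_lit 163870) (nat_lit 2) (.e (nat_lit 196666) (nat_lit 13) (.e (nat_lit 65610) (nat_lit 10) (.e (nat_lit 344117) (nat_lit 21) (.e (nat_lit 516151) (nat_lit 9) (.e (nat_lit 426003) (nat_lit 0) (.e (nat_lit 2402) (nat_lit 157) (.e (nat_lit 4847) (nat_lit 285) .nil)))))))) (.g (nat_lit 1) (.e (nat_lit 147087) (nat_lit 0) .nil) .nil))) 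
(.lf (nat_lit 492410) (.g (nat_lit 2525) (.e (nat_lit 163872) (nat_lit 3) (.e (nat_lit 204863) (nat_lit 27) (.e (nat_lit 344117) (nat_lit 21) (.e (nat_lit 516130) (nat_lit 3) (.e (nat_lit 221213) (nat_lit 23) .nil))))) (.g (nat_lit 0) (.e (nat_lit 148332) (nat_lit 0) .nil) .nil))))) (.nd (nat_lit 8) (.nd (nat_lit 9) 
(.lf (nat_lit 491770) (.g (nat_lit 3085) (.e (nat_lit 163869) (nat_lit 2) (.e (nat_lit 196681) (nat_lit 17) (.e (nat_lit 131109) (nat_lit 9) (.e (nat_lit 336456) (nat_lit 34) (.e (nat_lit 483365) (nat_lit 18) (.e (nat_lit 57931) (nat_lit 282) .nil)))))) (.g (nat_lit 1) (.e (nat_lit 146857) (nat_lit 0) .nil) .nil))) 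
(.lf (nat_lit 492282) (.g (nat_lit 3811) (.e (nat_lit 163871) (nat_lit 2) (.e (nat_lit 196670) (nat_lit 14) (.e (nat_lit 73746) (nat_lit 3) (.e (nat_lit 516129) (nat_lit 3) (.e (nat_lit 221215) (nat_lit 23) (.e (nat_lit 204829) (nat_lit 18) (.e (nat_lit 57928) (nat_lit 282) .nil))))))) (.g (nat_lit 1) (.e (nat_lit 147810) (nat_lit 0) .nil) .nil)))) (.nd (nat_lit 9) 
(.lf (nat_lit 492026) (.g (nat_lit 2199) (.e (nat_lit 163870) (nat_lit 2) (.e (nat_lit 196670) (nat_lit 14) (.e (nat_lit 73746) (nat_lit 3) (.e (nat_lit 516129) (nat_lit 3) (.e (nat_lit 221203) (nat_lit 20) .nil))))) (.g (nat_lit 0) (.e (nat_lit 147266) (nat_lit 0) .nil) .nil))) 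
(.lf (nat_lit 492538) (.g (nat_lit 6042) (.e (nat_lit 163873) (nat_lit 3) (.e (nat_lit 204813) (nat_lit 9) (.e (nat_lit 426187) (nat_lit 9) (.e (nat_lit 426566) (nat_lit 34) (.e (nat_lit 393253) (nat_lit 18) (.e (nat_lit 164322) (nat_lit 230) .nil)))))) (.g (nat_lit 1) (.e (nat_lit 148613) (nat_lit 0) .nil) .nil)))))))))) 
(.nd (nat_lit 3) (.nd (nat_lit 4) (.nd (nat_lit 5) (.nd (nat_lit 6) (.nd (nat_lit 7) 
(.nd (nat_lit 8) (.nd (nat_lit 9) 
(.lf (nat_lit 491526) (.g (nat_lit 3182) (.e (nat_lit 163869) (nat_lit 2) (.e (nat_lit 196666) (nat_lit 13) (.e (nat_lit 65610) (nat_lit 10) (.e (nat_lit 344117) (nat_lit 21) (.e (nat_lit 516160) (nat_lit 10) (.e (nat_lit 434199) (nat_lit 18) (.e (nat_lit 4848) (nat_lit 285) .nil))))))) (.g (nat_lit 1) (.e (nat_lit 146280) (nat_lit 0) .nil) .nil))) 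
(.lf (nat_lit 492038) (.g (nat_lit 2457) (.e (nat_lit 163871) (nat_lit 2) (.e (nat_lit 196654) (nat_lit 11) (.e (nat_lit 16416) (nat_lit 3) (.e (nat_lit 204837) (nat_lit 20) (.e (nat_lit 114715) (nat_lit 22) (.e (nat_lit 90165) (nat_lit 12) (.e (nat_lit 163853) (nat_lit 0) (.e (nat_lit 5224) (nat_lit 296) .nil)))))))) (.g (nat_lit 1) (.e (nat_lit 147296) (nat_lit 0) .nil) .nil)))) 
(.nd (nat_lit 9) 
(.lf (nat_lit 491782) (.g (nat_lit 394) (.e (nat_lit 163869) (nat_lit 2) (.e (nat_lit 196681) (nat_lit 17) (.e (nat_lit 131128) (nat_lit 13) .nil))) (.g (nat_lit 0) (.e (nat_lit 146879) (nat_lit 0) .nil) .nil))) 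
(.lf (nat_lit 492294) (.g (nat_lit 3876) (.e (nat_lit 163871) (nat_lit 2) (.e (nat_lit 196670) (nat_lit 14) (.e (nat_lit 73746) (nat_lit 3) (.e (nat_lit 516131) (nat_lit 3) (.e (nat_lit 221214) (nat_lit 23) (.e (nat_lit 204830) (nat_lit 18) (.e (nat_lit 57926) (nat_lit 282) .nil))))))) (.g (nat_lit 1) (.e (nat_lit 147825) (nat_lit 0) .nil) .nil))))) (.nd (nat_lit 8) (.nd (nat_lit 9) 
(.lf (nat_lit 491654) (.g (nat_lit 1589) (.e (nat_lit 163869) (nat_lit 2) (.e (nat_lit 196670) (nat_lit 14) (.e (nat_lit 73746) (nat_lit 3) (.e (nat_lit 516129) (nat_lit 3) (.e (nat_lit 221210) (nat_lit 22) .nil))))) (.g (nat_lit 0) (.e (nat_lit 146548) (nat_lit 0) .nil) .nil))) 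
(.lf (nat_lit 492166) (.g (nat_lit 1244) (.e (nat_lit 163871) (nat_lit 2) (.e (nat_lit 196668) (nat_lit 14) (.e (nat_lit 73747) (nat_lit 3) (.e (nat_lit 516124) (nat_lit 2) .nil)))) (.g (nat_lit 0) (.e (nat_lit 147566) (nat_lit 0) .nil) .nil)))) (.nd (nat_lit 9) 
(.lf (nat_lit 491910) (.g (nat_lit 3800) (.e (nat_lit 163870) (nat_lit 2) (.e (nat_lit 196666) (nat_lit 13) (.e (nat_lit 65610) (nat_lit 10) (.e (nat_lit 344117) (nat_lit 21) (.e (nat_lit 516151) (nat_lit 9) (.e (nat_lit 426023) (nat_lit 0) (.e (nat_lit 2397) (nat_lit 157) (.e (nat_lit 4848) (nat_lit 285) .nil)))))))) (.g (nat_lit 1) (.e (nat_lit 147099) (nat_lit 0) .nil) .nil))) 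
(.lf (nat_lit 492422) (.g (nat_lit 528) (.e (nat_lit 163873) (nat_lit 3) (.e (nat_lit 204809) (nat_lit 9) (.e (nat_lit 426186) (nat_lit 9) .nil))) (.g (nat_lit 0) (.e (nat_lit 148356) (nat_lit 0) .nil) .nil)))))) (.nd (nat_lit 7) (.nd (nat_lit 8) (.nd (nat_lit 9) 
(.lf (nat_lit 491590) (.g (nat_lit 3300) (.e (nat_lit 163869) (nat_lit 2) (.e (nat_lit 196668) (nat_lit 14) (.e (nat_lit 73747) (nat_lit 3) (.e (nat_lit 516129) (nat_lit 3) (.e (nat_lit 221215) (nat_lit 23) (.e (nat_lit 204829) (nat_lit 18) (.e (nat_lit 57930) (nat_lit 282) .nil))))))) (.g (nat_lit 1) (.e (nat_lit 146430) (nat_lit 0) .nil) .nil))) 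
(.lf (nat_lit 492102) (.g (nat_lit 2195) (.e (nat_lit 163871) (nat_lit 2) (.e (nat_lit 196656) (nat_lit 11) (.e (nat_lit 16465) (nat_lit 13) (.e (nat_lit 483336) (nat_lit 9) .nil)))) (.g (nat_lit 0) (.e (nat_lit 147426) (nat_lit 0) .nil) .nil)))) (.nd (nat_lit 9) 
(.lf (nat_lit 491846) (.g (nat_lit 4563) (.e (nat_lit 163870) (nat_lit 2) (.e (nat_lit 196666) (nat_lit 13) (.e (nat_lit 65571) (nat_lit 3) (.e (nat_lit 98341) (nat_lit 20) (.e (nat_lit 221215) (nat_lit 23) (.e (nat_lit 204830) (nat_lit 18) (.e (nat_lit 57925) (nat_lit 282) .nil))))))) (.g (nat_lit 1) (.e (nat_lit 146974) (nat_lit 0) .nil) .nil))) 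
(.lf (nat_lit 492358) (.g (nat_lit 2222) (.e (nat_lit 163872) (nat_lit 3) (.e (nat_lit 204837) (nat_lit 20) (.e (nat_lit 114719) (nat_lit 23) (.e (nat_lit 98365) (nat_lit 26) (.e (nat_lit 426133) (nat_lit 3) .nil))))) (.g (nat_lit 0) (.e (nat_lit 148265) (nat_lit 0) .nil) .nil))))) (.nd (nat_lit 8) (.nd (nat_lit 9) 
(.lf (nat_lit 491718) (.g (nat_lit 3082) (.e (nat_lit 163869) (nat_lit 2) (.e (nat_lit 196670) (nat_lit 14) (.e (nat_lit 73754) (nat_lit 8) (.e (nat_lit 557103) (nat_lit 14) (.e (nat_lit 180244) (nat_lit 5) (.e (nat_lit 532503) (nat_lit 1) (.e (nat_lit 65280) (nat_lit 168) .nil))))))) (.g (nat_lit 1) (.e (nat_lit 146661) (nat_lit 0) .nil) .nil))) 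
(.lf (nat_lit 492230) (.g (nat_lit 4351) (.e (nat_lit 163871) (nat_lit 2) (.e (nat_lit 196668) (nat_lit 14) (.e (nat_lit 73753) (nat_lit 8) (.e (nat_lit 557103) (nat_lit 14) (.e (nat_lit 180243) (nat_lit 5) (.e (nat_lit 532499) (nat_lit 1) (.e (nat_lit 65280) (nat_lit 168) .nil))))))) (.g (nat_lit 1) (.e (nat_lit 147747) (nat_lit 0) .nil) .nil)))) (.nd (nat_lit 9) 
(.lf (nat_lit 491974) (.g (nat_lit 4270) (.e (nat_lit 163870) (nat_lit 2) (.e (nat_lit 196666) (nat_lit 13) (.e (nat_lit 65610) (nat_lit 10) (.e (nat_lit 344117) (nat_lit 21) (.e (nat_lit 516159) (nat_lit 10) (.e (nat_lit 434209) (nat_lit 18) (.e (nat_lit 7936) (nat_lit 285) .nil))))))) (.g (nat_lit 1) (.e (nat_lit 147174) (nat_lit 0) .nil) .nil))) 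
(.lf (nat_lit 492486) (.g (nat_lit 1716) (.e (nat_lit 163873) (nat_lit 3) (.e (nat_lit 204811) (nat_lit 9) (.e (nat_lit 426228) (nat_lit 9) (.e (nat_lit 426565) (nat_lit 34) (.e (nat_lit 393253) (nat_lit 18) (.e (nat_lit 164326) (nat_lit 230) .nil)))))) (.g (nat_lit 1) (.e (nat_lit 148519) (nat_lit 0) .nil) .nil))))))) (.nd (nat_lit 6) (.nd (nat_lit 7) (.nd (nat_lit 8) (.nd (nat_lit 9) 
(.lf (nat_lit 491558) (.g (nat_lit 4243) (.e (nat_lit 163869) (nat_lit 2) (.e (nat_lit 196668) (nat_lit 14) (.e (nat_lit 73746) (nat_lit 3) (.e (nat_lit 516129) (nat_lit 3) (.e (nat_lit 221214) (nat_lit 23) (.e (nat_lit 204830) (nat_lit 18) (.e (nat_lit 57927) (nat_lit 282) .nil))))))) (.g (nat_lit 1) (.e (nat_lit 146362) (nat_lit 0) .nil) .nil))) 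
(.lf (nat_lit 492070) (.g (nat_lit 1495) (.e (nat_lit 163871) (nat_lit 2) (.e (nat_lit 196654) (nat_lit 11) (.e (nat_lit 16466) (nat_lit 13) (.e (nat_lit 483338) (nat_lit 9) .nil)))) (.g (nat_lit 0) (.e (nat_lit 147345) (nat_lit 0) .nil) .nil)))) (.nd (nat_lit 9) 
(.lf (nat_lit 491814) (.g (nat_lit 3074) (.e (nat_lit 163870) (nat_lit 2) (.e (nat_lit 196666) (nat_lit 13) (.e (nat_lit 65569) (nat_lit 3) (.e (nat_lit 98342) (nat_lit 20) (.e (nat_lit 221213) (nat_lit 23) (.e (nat_lit 204829) (nat_lit 18) (.e (nat_lit 57928) (nat_lit 282) .nil))))))) (.g (nat_lit 1) (.e (nat_lit 146926) (nat_lit 0) .nil) .nil))) 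
(.lf (nat_lit 492326) (.g (nat_lit 281) (.e (nat_lit 163871) (nat_lit 2) (.e (nat_lit 196672) (nat_lit 15) (.e (nat_lit 81927) (nat_lit 11) .nil))) (.g (nat_lit 0) (.e (nat_lit 147860) (nat_lit 0) .nil) .nil))))) (.nd (nat_lit 8) (.nd (nat_lit 9) 
(.lf (nat_lit 491686) (.g (nat_lit 4874) (.e (nat_lit 163869) (nat_lit 2) (.e (nat_lit 196670) (nat_lit 14) (.e (nat_lit 73746) (nat_lit 3) (.e (nat_lit 516131) (nat_lit 3) (.e (nat_lit 221215) (nat_lit 23) (.e (nat_lit 204830) (nat_lit 18) (.e (nat_lit 57926) (nat_lit 282) .nil))))))) (.g (nat_lit 1) (.e (nat_lit 146606) (nat_lit 0) .nil) .nil))) 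
(.lf (nat_lit 492198) (.g (nat_lit 1237) (.e (nat_lit 163871) (nat_lit 2) (.e (nat_lit 196668) (nat_lit 14) (.e (nat_lit 73747) (nat_lit 3) (.e (nat_lit 516130) (nat_lit 3) .nil)))) (.g (nat_lit 0) (.e (nat_lit 147637) (nat_lit 0) .nil) .nil)))) (.nd (nat_lit 9) 
(.lf (nat_lit 491942) (.g (nat_lit 3225) (.e (nat_lit 163870) (nat_lit 2) (.e (nat_lit 196666) (nat_lit 13) (.e (nat_lit 65610) (nat_lit 10) (.e (nat_lit 344117) (nat_lit 21) (.e (nat_lit 516151) (nat_lit 9) (.e (nat_lit 426043) (nat_lit 0) (.e (nat_lit 2422) (nat_lit 157) (.e (nat_lit 7936) (nat_lit 285) .nil)))))))) (.g (nat_lit 1) (.e (nat_lit 147131) (nat_lit 0) .nil) .nil))) 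
(.lf (nat_lit 492454) (.g (nat_lit 2975) (.e (nat_lit 163873) (nat_lit 3) (.e (nat_lit 204809) (nat_lit 9) (.e (nat_lit 426198) (nat_lit 9) (.e (nat_lit 426566) (nat_lit 34) (.e (nat_lit 393251) (nat_lit 18) (.e (nat_lit 164325) (nat_lit 230) .nil)))))) (.g (nat_lit 1) (.e (nat_lit 148388) (nat_lit 0) .nil) .nil)))))) (.nd (nat_lit 7) (.nd (nat_lit 8) (.nd (nat_lit 9) 
(.lf (nat_lit 491622) (.g (nat_lit 2258) (.e (nat_lit 163869) (nat_lit 2) (.e (nat_lit 196670) (nat_lit 14) (.e (nat_lit 73746) (nat_lit 3) (.e (nat_lit 516124) (nat_lit 2) (.e (nat_lit 213033) (nat_lit 12) (.e (nat_lit 163965) (nat_lit 25) (.e (nat_lit 532499) (nat_lit 1) (.e (nat_lit 57926) (nat_lit 282) .nil)))))))) (.g (nat_lit 1) (.e (nat_lit 146516) (nat_lit 0) .nil) .nil))) 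
(.lf (nat_lit 492134) (.g (nat_lit 3712) (.e (nat_lit 163871) (nat_lit 2) (.e (nat_lit 196668) (nat_lit 14) (.e (nat_lit 73746) (nat_lit 3) (.e (nat_lit 516129) (nat_lit 3) (.e (nat_lit 221214) (nat_lit 23) (.e (nat_lit 204829) (nat_lit 18) (.e (nat_lit 57928) (nat_lit 282) .nil))))))) (.g (nat_lit 1) (.e (nat_lit 147513) (nat_lit 0) .nil) .nil)))) (.nd (nat_lit 9) 
(.lf (nat_lit 491878) (.g (nat_lit 3042) (.e (nat_lit 163870) (nat_lit 2) (.e (nat_lit 196666) (nat_lit 13) (.e (nat_lit 65610) (nat_lit 10) (.e (nat_lit 344117) (nat_lit 21) (.e (nat_lit 516143) (nat_lit 9) (.e (nat_lit 426101) (nat_lit 1) (.e (nat_lit 171776) (nat_lit 219) .nil))))))) (.g (nat_lit 1) (.e (nat_lit 147034) (nat_lit 0) .nil) .nil))) 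
(.lf (nat_lit 492390) (.g (nat_lit 3634) (.e (nat_lit 163872) (nat_lit 3) (.e (nat_lit 204838) (nat_lit 20) (.e (nat_lit 114716) (nat_lit 22) (.e (nat_lit 90174) (nat_lit 14) (.e (nat_lit 180243) (nat_lit 5) (.e (nat_lit 532504) (nat_lit 1) (.e (nat_lit 57690) (nat_lit 156) .nil))))))) (.g (nat_lit 1) (.e (nat_lit 148299) (nat_lit 0) .nil) .nil))))) (.nd (nat_lit 8) (.nd (nat_lit 9) 
(.lf (nat_lit 491750) (.g (nat_lit 2668) (.e (nat_lit 163869) (nat_lit 2) (.e (nat_lit 196681) (nat_lit 17) (.e (nat_lit 131105) (nat_lit 9) (.e (nat_lit 336456) (nat_lit 34) (.e (nat_lit 483364) (nat_lit 18) (.e (nat_lit 57927) (nat_lit 282) .nil)))))) (.g (nat_lit 1) (.e (nat_lit 146821) (nat_lit 0) .nil) .nil))) 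
(.lf (nat_lit 492262) (.g (nat_lit 1497) (.e (nat_lit 163871) (nat_lit 2) (.e (nat_lit 196670) (nat_lit 14) (.e (nat_lit 73746) (nat_lit 3) (.e (nat_lit 516129) (nat_lit 3) (.e (nat_lit 221210) (nat_lit 22) .nil))))) (.g (nat_lit 0) (.e (nat_lit 147790) (nat_lit 0) .nil) .nil)))) (.nd (nat_lit 9) 
(.lf (nat_lit 492006) (.g (nat_lit 2781) (.e (nat_lit 163870) (nat_lit 2) (.e (nat_lit 196666) (nat_lit 13) (.e (nat_lit 65625) (nat_lit 13) (.e (nat_lit 393225) (nat_lit 9) (.e (nat_lit 335987) (nat_lit 1) (.e (nat_lit 57927) (nat_lit 282) .nil)))))) (.g (nat_lit 1) (.e (nat_lit 147236) (nat_lit 0) .nil) .nil))) 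
(.lf (nat_lit 492518) (.g (nat_lit 1777) (.e (nat_lit 163873) (nat_lit 3) (.e (nat_lit 204811) (nat_lit 9) (.e (nat_lit 426262) (nat_lit 9) (.e (nat_lit 426565) (nat_lit 34) (.e (nat_lit 393252) (nat_lit 18) (.e (nat_lit 164332) (nat_lit 230) .nil)))))) (.g (nat_lit 1) (.e (nat_lit 148551) (nat_lit 0) .nil) .nil)))))))) 
(.nd (nat_lit 5) (.nd (nat_lit 6) (.nd (nat_lit 7) (.nd (nat_lit 8) (.nd (nat_lit 9) 
(.lf (nat_lit 491542) (.g (nat_lit 2729) (.e (nat_lit 163869) (nat_lit 2) (.e (nat_lit 196666) (nat_lit 13) (.e (nat_lit 65610) (nat_lit 10) (.e (nat_lit 344117) (nat_lit 21) (.e (nat_lit 516160) (nat_lit 10) (.e (nat_lit 434213) (nat_lit 18) (.e (nat_lit 7936) (nat_lit 285) .nil))))))) (.g (nat_lit 1) (.e (nat_lit 146296) (nat_lit 0) .nil) .nil))) 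
(.lf (nat_lit 492054) (.g (nat_lit 1754) (.e (nat_lit 163871) (nat_lit 2) (.e (nat_lit 196654) (nat_lit 11) (.e (nat_lit 16436) (nat_lit 9) (.e (nat_lit 426566) (nat_lit 34) (.e (nat_lit 393250) (nat_lit 18) .nil))))) (.g (nat_lit 0) (.e (nat_lit 147323) (nat_lit 0) .nil) .nil)))) (.nd (nat_lit 9) 
(.lf (nat_lit 491798) (.g (nat_lit 3257) (.e (nat_lit 163870) (nat_lit 2) (.e (nat_lit 196666) (nat_lit 13) (.e (nat_lit 65569) (nat_lit 3) (.e (nat_lit 98341) (nat_lit 20) (.e (nat_lit 221213) (nat_lit 23) (.e (nat_lit 204829) (nat_lit 18) (.e (nat_lit 57927) (nat_lit 282) .nil))))))) (.g (nat_lit 1) (.e (nat_lit 146907) (nat_lit 0) .nil) .nil))) 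
(.lf (nat_lit 492310) (.g (nat_lit 2224) (.e (nat_lit 163871) (nat_lit 2) (.e (nat_lit 196670) (nat_lit 14) (.e (nat_lit 73746) (nat_lit 3) (.e (nat_lit 516131) (nat_lit 3) (.e (nat_lit 221215) (nat_lit 23) (.e (nat_lit 204831) (nat_lit 18) (.e (nat_lit 57924) (nat_lit 282) .nil))))))) (.g (nat_lit 1) (.e (nat_lit 147841) (nat_lit 0) .nil) .nil))))) (.nd (nat_lit 8) (.nd (nat_lit 9) 
(.lf (nat_lit 491670) (.g (nat_lit 5190) (.e (nat_lit 163869) (nat_lit 2) (.e (nat_lit 196670) (nat_lit 14) (.e (nat_lit 73746) (nat_lit 3) (.e (nat_lit 516129) (nat_lit 3) (.e (nat_lit 221215) (nat_lit 23) (.e (nat_lit 204830) (nat_lit 18) (.e (nat_lit 57926) (nat_lit 282) .nil))))))) (.g (nat_lit 1) (.e (nat_lit 146577) (nat_lit 0) .nil) .nil))) 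
(.lf (nat_lit 492182) (.g (nat_lit 4674) (.e (nat_lit 163871) (nat_lit 2) (.e (nat_lit 196668) (nat_lit 14) (.e (nat_lit 73747) (nat_lit 3) (.e (nat_lit 516129) (nat_lit 3) (.e (nat_lit 221214) (nat_lit 23) (.e (nat_lit 204830) (nat_lit 18) (.e (nat_lit 57927) (nat_lit 282) .nil))))))) (.g (nat_lit 1) (.e (nat_lit 147618) (nat_lit 0) .nil) .nil)))) (.nd (nat_lit 9) 
(.lf (nat_lit 491926) (.g (nat_lit 3350) (.e (nat_lit 163870) (nat_lit 2) (.e (nat_lit 196666) (nat_lit 13) (.e (nat_lit 65610) (nat_lit 10) (.e (nat_lit 344117) (nat_lit 21) (.e (nat_lit 516151) (nat_lit 9) (.e (nat_lit 426040) (nat_lit 0) (.e (nat_lit 2458) (nat_lit 157) (.e (nat_lit 7936) (nat_lit 285) .nil)))))))) (.g (nat_lit 1) (.e (nat_lit 147115) (nat_lit 0) .nil) .nil))) 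
(.lf (nat_lit 492438) (.g (nat_lit 2711) (.e (nat_lit 163873) (nat_lit 3) (.e (nat_lit 204809) (nat_lit 9) (.e (nat_lit 426188) (nat_lit 9) (.e (nat_lit 426568) (nat_lit 34) (.e (nat_lit 393252) (nat_lit 18) (.e (nat_lit 164332) (nat_lit 230) .nil)))))) (.g (nat_lit 1) (.e (nat_lit 148372) (nat_lit 0) .nil) .nil)))))) (.nd (nat_lit 7) (.nd (nat_lit 8) (.nd (nat_lit 9) 
(.lf (nat_lit 491606) (.g (nat_lit 4875) (.e (nat_lit 163869) (nat_lit 2) (.e (nat_lit 196668) (nat_lit 14) (.e (nat_lit 73753) (nat_lit 8) (.e (nat_lit 557103) (nat_lit 14) (.e (nat_lit 180244) (nat_lit 5) (.e (nat_lit 532499) (nat_lit 1) (.e (nat_lit 65280) (nat_lit 168) .nil))))))) (.g (nat_lit 1) (.e (nat_lit 146490) (nat_lit 0) .nil) .nil))) 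
(.lf (nat_lit 492118) (.g (nat_lit 2506) (.e (nat_lit 163871) (nat_lit 2) (.e (nat_lit 196663) (nat_lit 13) (.e (nat_lit 65571) (nat_lit 3) (.e (nat_lit 98342) (nat_lit 20) (.e (nat_lit 221214) (nat_lit 23) (.e (nat_lit 204830) (nat_lit 18) (.e (nat_lit 57928) (nat_lit 282) .nil))))))) (.g (nat_lit 1) (.e (nat_lit 147460) (nat_lit 0) .nil) .nil)))) (.nd (nat_lit 9) 
(.lf (nat_lit 491862) (.g (nat_lit 4881) (.e (nat_lit 163870) (nat_lit 2) (.e (nat_lit 196666) (nat_lit 13) (.e (nat_lit 65571) (nat_lit 3) (.e (nat_lit 98342) (nat_lit 20) (.e (nat_lit 221214) (nat_lit 23) (.e (nat_lit 204830) (nat_lit 18) (.e (nat_lit 57928) (nat_lit 282) .nil))))))) (.g (nat_lit 1) (.e (nat_lit 147003) (nat_lit 0) .nil) .nil))) 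
(.lf (nat_lit 492374) (.g (nat_lit 3059) (.e (nat_lit 163872) (nat_lit 3) (.e (nat_lit 204838) (nat_lit 20) (.e (nat_lit 114715) (nat_lit 22) (.e (nat_lit 90170) (nat_lit 13) (.e (nat_lit 172065) (nat_lit 3) (.e (nat_lit 204829) (nat_lit 18) (.e (nat_lit 57691) (nat_lit 156) .nil))))))) (.g (nat_lit 1) (.e (nat_lit 148282) (nat_lit 0) .nil) .nil))))) (.nd (nat_lit 8) (.nd (nat_lit 9) 
(.lf (nat_lit 491734) (.g (nat_lit 3437) (.e (nat_lit 163869) (nat_lit 2) (.e (nat_lit 196674) (nat_lit 15) (.e (nat_lit 81925) (nat_lit 11) (.e (nat_lit 426500) (nat_lit 27) (.e (nat_lit 335988) (nat_lit 1) (.e (nat_lit 57926) (nat_lit 282) .nil)))))) (.g (nat_lit 1) (.e (nat_lit 146746) (nat_lit 0) .nil) .nil))) 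
(.lf (nat_lit 492246) (.g (nat_lit 2441) (.e (nat_lit 163871) (nat_lit 2) (.e (nat_lit 196670) (nat_lit 14) (.e (nat_lit 73746) (nat_lit 3) (.e (nat_lit 516124) (nat_lit 2) (.e (nat_lit 213036) (nat_lit 13) (.e (nat_lit 229433) (nat_lit 25) (.e (nat_lit 532501) (nat_lit 1) (.e (nat_lit 57925) (nat_lit 282) .nil)))))))) (.g (nat_lit 1) (.e (nat_lit 147774) (nat_lit 0) .nil) .nil)))) 
(.nd (nat_lit 9) 
(.lf (nat_lit 491990) (.g (nat_lit 3323) (.e (nat_lit 163870) (nat_lit 2) (.e (nat_lit 196666) (nat_lit 13) (.e (nat_lit 65610) (nat_lit 10) (.e (nat_lit 344117) (nat_lit 21) (.e (nat_lit 516160) (nat_lit 10) (.e (nat_lit 434205) (nat_lit 18) (.e (nat_lit 7936) (nat_lit 285) .nil))))))) (.g (nat_lit 1) (.e (nat_lit 147190) (nat_lit 0) .nil) .nil))) 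
(.lf (nat_lit 492502) (.g (nat_lit 983) (.e (nat_lit 163873) (nat_lit 3) (.e (nat_lit 204811) (nat_lit 9) (.e (nat_lit 426260) (nat_lit 9) (.e (nat_lit 426503) (nat_lit 27) (.e (nat_lit 336387) (nat_lit 27) .nil))))) (.g (nat_lit 0) (.e (nat_lit 148535) (nat_lit 0) .nil) .nil))))))) (.nd (nat_lit 6) (.nd (nat_lit 7) (.nd (nat_lit 8) (.nd (nat_lit 9) 
(.lf (nat_lit 491574) (.g (nat_lit 2674) (.e (nat_lit 163869) (nat_lit 2) (.e (nat_lit 196668) (nat_lit 14) (.e (nat_lit 73746) (nat_lit 3) (.e (nat_lit 516131) (nat_lit 3) (.e (nat_lit 221215) (nat_lit 23) (.e (nat_lit 204828) (nat_lit 18) (.e (nat_lit 57927) (nat_lit 282) .nil))))))) (.g (nat_lit 1) (.e (nat_lit 146382) (nat_lit 0) .nil) .nil))) 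
(.lf (nat_lit 492086) (.g (nat_lit 1602) (.e (nat_lit 163871) (nat_lit 2) (.e (nat_lit 196656) (nat_lit 11) (.e (nat_lit 16433) (nat_lit 9) (.e (nat_lit 426478) (nat_lit 27) .nil)))) (.g (nat_lit 0) (.e (nat_lit 147397) (nat_lit 0) .nil) .nil)))) (.nd (nat_lit 9) 
(.lf (nat_lit 491830) (.g (nat_lit 4123) (.e (nat_lit 163870) (nat_lit 2) (.e (nat_lit 196666) (nat_lit 13) (.e (nat_lit 65569) (nat_lit 3) (.e (nat_lit 98342) (nat_lit 20) (.e (nat_lit 221215) (nat_lit 23) (.e (nat_lit 204830) (nat_lit 18) (.e (nat_lit 57928) (nat_lit 282) .nil))))))) (.g (nat_lit 1) (.e (nat_lit 146945) (nat_lit 0) .nil) .nil))) 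
(.lf (nat_lit 492342) (.g (nat_lit 1847) (.e (nat_lit 163872) (nat_lit 3) (.e (nat_lit 204813) (nat_lit 9) (.e (nat_lit 426190) (nat_lit 9) (.e (nat_lit 426566) (nat_lit 34) (.e (nat_lit 393253) (nat_lit 18) .nil))))) (.g (nat_lit 0) (.e (nat_lit 148244) (nat_lit 0) .nil) .nil))))) (.nd (nat_lit 8) (.nd (nat_lit 9) 
(.lf (nat_lit 491702) (.g (nat_lit 3429) (.e (nat_lit 163869) (nat_lit 2) (.e (nat_lit 196670) (nat_lit 14) (.e (nat_lit 73753) (nat_lit 8) (.e (nat_lit 557104) (nat_lit 14) (.e (nat_lit 180244) (nat_lit 5) (.e (nat_lit 532499) (nat_lit 1) (.e (nat_lit 65280) (nat_lit 168) .nil))))))) (.g (nat_lit 1) (.e (nat_lit 146639) (nat_lit 0) .nil) .nil))) 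
(.lf (nat_lit 492214) (.g (nat_lit 4132) (.e (nat_lit 163871) (nat_lit 2) (.e (nat_lit 196668) (nat_lit 14) (.e (nat_lit 73747) (nat_lit 3) (.e (nat_lit 516131) (nat_lit 3) (.e (nat_lit 221214) (nat_lit 23) (.e (nat_lit 204829) (nat_lit 18) (.e (nat_lit 57927) (nat_lit 282) .nil))))))) (.g (nat_lit 1) (.e (nat_lit 147677) (nat_lit 0) .nil) .nil)))) (.nd (nat_lit 9) 
(.lf (nat_lit 491958) (.g (nat_lit 3399) (.e (nat_lit 163870) (nat_lit 2) (.e (nat_lit 196666) (nat_lit 13) (.e (nat_lit 65610) (nat_lit 10) (.e (nat_lit 344117) (nat_lit 21) (.e (nat_lit 516151) (nat_lit 9) (.e (nat_lit 426146) (nat_lit 4) (.e (nat_lit 237312) (nat_lit 219) .nil))))))) (.g (nat_lit 1) (.e (nat_lit 147147) (nat_lit 0) .nil) .nil))) 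
(.lf (nat_lit 492470) (.g (nat_lit 3552) (.e (nat_lit 163873) (nat_lit 3) (.e (nat_lit 204809) (nat_lit 9) (.e (nat_lit 426200) (nat_lit 9) (.e (nat_lit 426566) (nat_lit 34) (.e (nat_lit 393253) (nat_lit 18) (.e (nat_lit 164331) (nat_lit 230) .nil)))))) (.g (nat_lit 1) (.e (nat_lit 148405) (nat_lit 0) .nil) .nil)))))) (.nd (nat_lit 7) (.nd (nat_lit 8) (.nd (nat_lit 9) 
(.lf (nat_lit 491638) (.g (nat_lit 1051) (.e (nat_lit 163869) (nat_lit 2) (.e (nat_lit 196670) (nat_lit 14) (.e (nat_lit 73746) (nat_lit 3) (.e (nat_lit 516127) (nat_lit 2) .nil)))) (.g (nat_lit 0) (.e (nat_lit 146532) (nat_lit 0) .nil) .nil))) 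
(.lf (nat_lit 492150) (.g (nat_lit 2423) (.e (nat_lit 163871) (nat_lit 2) (.e (nat_lit 196668) (nat_lit 14) (.e (nat_lit 73746) (nat_lit 3) (.e (nat_lit 516131) (nat_lit 3) (.e (nat_lit 221214) (nat_lit 23) (.e (nat_lit 204829) (nat_lit 18) (.e (nat_lit 57926) (nat_lit 282) .nil))))))) (.g (nat_lit 1) (.e (nat_lit 147545) (nat_lit 0) .nil) .nil)))) (.nd (nat_lit 9) 
(.lf (nat_lit 491894) (.g (nat_lit 3848) (.e (nat_lit 163870) (nat_lit 2) (.e (nat_lit 196666) (nat_lit 13) (.e (nat_lit 65610) (nat_lit 10) (.e (nat_lit 344117) (nat_lit 21) (.e (nat_lit 516151) (nat_lit 9) (.e (nat_lit 426003) (nat_lit 0) (.e (nat_lit 2397) (nat_lit 157) (.e (nat_lit 4847) (nat_lit 285) .nil)))))))) (.g (nat_lit 1) (.e (nat_lit 147083) (nat_lit 0) .nil) .nil))) 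
(.lf (nat_lit 492406) (.g (nat_lit 1944) (.e (nat_lit 163872) (nat_lit 3) (.e (nat_lit 204861) (nat_lit 26) (.e (nat_lit 336213) (nat_lit 13) (.e (nat_lit 393229) (nat_lit 9) .nil)))) (.g (nat_lit 0) (.e (nat_lit 148328) (nat_lit 0) .nil) .nil))))) (.nd (nat_lit 8) (.nd (nat_lit 9) 
(.lf (nat_lit 491766) (.g (nat_lit 2753) (.e (nat_lit 163869) (nat_lit 2) (.e (nat_lit 196681) (nat_lit 17) (.e (nat_lit 131109) (nat_lit 9) (.e (nat_lit 336456) (nat_lit 34) (.e (nat_lit 483363) (nat_lit 18) (.e (nat_lit 57927) (nat_lit 282) .nil)))))) (.g (nat_lit 1) (.e (nat_lit 146853) (nat_lit 0) .nil) .nil))) 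
(.lf (nat_lit 492278) (.g (nat_lit 2283) (.e (nat_lit 163871) (nat_lit 2) (.e (nat_lit 196670) (nat_lit 14) (.e (nat_lit 73746) (nat_lit 3) (.e (nat_lit 516129) (nat_lit 3) (.e (nat_lit 221215) (nat_lit 23) (.e (nat_lit 204829) (nat_lit 18) (.e (nat_lit 57924) (nat_lit 282) .nil))))))) (.g (nat_lit 1) (.e (nat_lit 147806) (nat_lit 0) .nil) .nil)))) (.nd (nat_lit 9) 
(.lf (nat_lit 492022) (.g (nat_lit 2474) (.e (nat_lit 163870) (nat_lit 2) (.e (nat_lit 196668) (nat_lit 14) (.e (nat_lit 73747) (nat_lit 3) (.e (nat_lit 516129) (nat_lit 3) (.e (nat_lit 221215) (nat_lit 23) (.e (nat_lit 204829) (nat_lit 18) (.e (nat_lit 57927) (nat_lit 282) .nil))))))) (.g (nat_lit 1) (.e (nat_lit 147262) (nat_lit 0) .nil) .nil))) 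
(.lf (nat_lit 492534) (.g (nat_lit 4357) (.e (nat_lit 163873) (nat_lit 3) (.e (nat_lit 204813) (nat_lit 9) (.e (nat_lit 426186) (nat_lit 9) (.e (nat_lit 426566) (nat_lit 34) (.e (nat_lit 393253) (nat_lit 18) (.e (nat_lit 164329) (nat_lit 230) .nil)))))) (.g (nat_lit 1) (.e (nat_lit 148609) (nat_lit 0) .nil) .nil))))))))) 
(.nd (nat_lit 4) (.nd (nat_lit 5) (.nd (nat_lit 6) (.nd (nat_lit 7) (.nd (nat_lit 8) 
(.nd (nat_lit 9) 
(.lf (nat_lit 491534) (.g (nat_lit 4138) (.e (nat_lit 163869) (nat_lit 2) (.e (nat_lit 196666) (nat_lit 13) (.e (nat_lit 65610) (nat_lit 10) (.e (nat_lit 344117) (nat_lit 21) (.e (nat_lit 516160) (nat_lit 10) (.e (nat_lit 434203) (nat_lit 18) (.e (nat_lit 7936) (nat_lit 285) .nil))))))) (.g (nat_lit 1) (.e (nat_lit 146288) (nat_lit 0) .nil) .nil))) 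
(.lf (nat_lit 492046) (.g (nat_lit 3774) (.e (nat_lit 163871) (nat_lit 2) (.e (nat_lit 196654) (nat_lit 11) (.e (nat_lit 16433) (nat_lit 9) (.e (nat_lit 426568) (nat_lit 34) (.e (nat_lit 393253) (nat_lit 18) (.e (nat_lit 164327) (nat_lit 230) .nil)))))) (.g (nat_lit 1) (.e (nat_lit 147313) (nat_lit 0) .nil) .nil)))) (.nd (nat_lit 9) 
(.lf (nat_lit 491790) (.g (nat_lit 3118) (.e (nat_lit 163869) (nat_lit 2) (.e (nat_lit 196681) (nat_lit 17) (.e (nat_lit 131128) (nat_lit 13) (.e (nat_lit 393229) (nat_lit 9) (.e (nat_lit 335996) (nat_lit 1) (.e (nat_lit 57931) (nat_lit 282) .nil)))))) (.g (nat_lit 1) (.e (nat_lit 146887) (nat_lit 0) .nil) .nil))) 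
(.lf (nat_lit 492302) (.g (nat_lit 3344) (.e (nat_lit 163871) (nat_lit 2) (.e (nat_lit 196670) (nat_lit 14) (.e (nat_lit 73746) (nat_lit 3) (.e (nat_lit 516131) (nat_lit 3) (.e (nat_lit 221215) (nat_lit 23) (.e (nat_lit 204829) (nat_lit 18) (.e (nat_lit 57926) (nat_lit 282) .nil))))))) (.g (nat_lit 1) (.e (nat_lit 147833) (nat_lit 0) .nil) .nil))))) (.nd (nat_lit 8) (.nd (nat_lit 9) 
(.lf (nat_lit 491662) (.g (nat_lit 2923) (.e (nat_lit 163869) (nat_lit 2) (.e (nat_lit 196670) (nat_lit 14) (.e (nat_lit 73746) (nat_lit 3) (.e (nat_lit 516129) (nat_lit 3) (.e (nat_lit 221214) (nat_lit 23) (.e (nat_lit 204830) (nat_lit 18) (.e (nat_lit 57928) (nat_lit 282) .nil))))))) (.g (nat_lit 1) (.e (nat_lit 146568) (nat_lit 0) .nil) .nil))) 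
(.lf (nat_lit 492174) (.g (nat_lit 2528) (.e (nat_lit 163871) (nat_lit 2) (.e (nat_lit 196668) (nat_lit 14) (.e (nat_lit 73747) (nat_lit 3) (.e (nat_lit 516129) (nat_lit 3) (.e (nat_lit 221214) (nat_lit 23) (.e (nat_lit 204828) (nat_lit 18) (.e (nat_lit 57928) (nat_lit 282) .nil))))))) (.g (nat_lit 1) (.e (nat_lit 147610) (nat_lit 0) .nil) .nil)))) (.nd (nat_lit 9) 
(.lf (nat_lit 491918) (.g (nat_lit 3523) (.e (nat_lit 163870) (nat_lit 2) (.e (nat_lit 196666) (nat_lit 13) (.e (nat_lit 65610) (nat_lit 10) (.e (nat_lit 344117) (nat_lit 21) (.e (nat_lit 516151) (nat_lit 9) (.e (nat_lit 426037) (nat_lit 0) (.e (nat_lit 2458) (nat_lit 157) (.e (nat_lit 7936) (nat_lit 285) .nil)))))))) (.g (nat_lit 1) (.e (nat_lit 147107) (nat_lit 0) .nil) .nil))) 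
(.lf (nat_lit 492430) (.g (nat_lit 3451) (.e (nat_lit 163873) (nat_lit 3) (.e (nat_lit 204809) (nat_lit 9) (.e (nat_lit 426188) (nat_lit 9) (.e (nat_lit 426566) (nat_lit 34) (.e (nat_lit 393253) (nat_lit 18) (.e (nat_lit 164331) (nat_lit 230) .nil)))))) (.g (nat_lit 1) (.e (nat_lit 148364) (nat_lit 0) .nil) .nil)))))) (.nd (nat_lit 7) (.nd (nat_lit 8) (.nd (nat_lit 9) 
(.lf (nat_lit 491598) (.g (nat_lit 2805) (.e (nat_lit 163869) (nat_lit 2) (.e (nat_lit 196668) (nat_lit 14) (.e (nat_lit 73747) (nat_lit 3) (.e (nat_lit 516131) (nat_lit 3) (.e (nat_lit 221215) (nat_lit 23) (.e (nat_lit 204828) (nat_lit 18) (.e (nat_lit 57929) (nat_lit 282) .nil))))))) (.g (nat_lit 1) (.e (nat_lit 146463) (nat_lit 0) .nil) .nil))) 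
(.lf (nat_lit 492110) (.g (nat_lit 875) (.e (nat_lit 163871) (nat_lit 2) (.e (nat_lit 196656) (nat_lit 11) (.e (nat_lit 16472) (nat_lit 14) .nil))) (.g (nat_lit 0) (.e (nat_lit 147438) (nat_lit 0) .nil) .nil)))) (.nd (nat_lit 9) 
(.lf (nat_lit 491854) (.g (nat_lit 2228) (.e (nat_lit 163870) (nat_lit 2) (.e (nat_lit 196666) (nat_lit 13) (.e (nat_lit 65571) (nat_lit 3) (.e (nat_lit 98342) (nat_lit 20) (.e (nat_lit 221214) (nat_lit 23) .nil))))) (.g (nat_lit 0) (.e (nat_lit 146994) (nat_lit 0) .nil) .nil))) 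
(.lf (nat_lit 492366) (.g (nat_lit 2484) (.e (nat_lit 163872) (nat_lit 3) (.e (nat_lit 204838) (nat_lit 20) (.e (nat_lit 114714) (nat_lit 22) (.e (nat_lit 90172) (nat_lit 14) (.e (nat_lit 180244) (nat_lit 5) (.e (nat_lit 532501) (nat_lit 1) (.e (nat_lit 57689) (nat_lit 156) .nil))))))) (.g (nat_lit 1) (.e (nat_lit 148274) (nat_lit 0) .nil) .nil))))) (.nd (nat_lit 8) (.nd (nat_lit 9) 
(.lf (nat_lit 491726) (.g (nat_lit 3022) (.e (nat_lit 163869) (nat_lit 2) (.e (nat_lit 196670) (nat_lit 14) (.e (nat_lit 73755) (nat_lit 8) (.e (nat_lit 557103) (nat_lit 14) (.e (nat_lit 180244) (nat_lit 5) (.e (nat_lit 532499) (nat_lit 1) (.e (nat_lit 65280) (nat_lit 168) .nil))))))) (.g (nat_lit 1) (.e (nat_lit 146670) (nat_lit 0) .nil) .nil))) 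
(.lf (nat_lit 492238) (.g (nat_lit 2360) (.e (nat_lit 163871) (nat_lit 2) (.e (nat_lit 196668) (nat_lit 14) (.e (nat_lit 73753) (nat_lit 8) (.e (nat_lit 557104) (nat_lit 14) (.e (nat_lit 180244) (nat_lit 5) .nil))))) (.g (nat_lit 0) (.e (nat_lit 147759) (nat_lit 0) .nil) .nil)))) (.nd (nat_lit 9) 
(.lf (nat_lit 491982) (.g (nat_lit 3256) (.e (nat_lit 163870) (nat_lit 2) (.e (nat_lit 196666) (nat_lit 13) (.e (nat_lit 65610) (nat_lit 10) (.e (nat_lit 344117) (nat_lit 21) (.e (nat_lit 516160) (nat_lit 10) (.e (nat_lit 434199) (nat_lit 18) (.e (nat_lit 7936) (nat_lit 285) .nil))))))) (.g (nat_lit 1) (.e (nat_lit 147182) (nat_lit 0) .nil) .nil))) 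
(.lf (nat_lit 492494) (.g (nat_lit 2501) (.e (nat_lit 163873) (nat_lit 3) (.e (nat_lit 204811) (nat_lit 9) (.e (nat_lit 426232) (nat_lit 9) (.e (nat_lit 426565) (nat_lit 34) (.e (nat_lit 393253) (nat_lit 18) (.e (nat_lit 164324) (nat_lit 230) .nil)))))) (.g (nat_lit 1) (.e (nat_lit 148527) (nat_lit 0) .nil) .nil))))))) (.nd (nat_lit 6) (.nd (nat_lit 7) (.nd (nat_lit 8) (.nd (nat_lit 9) 
(.lf (nat_lit 491566) (.g (nat_lit 4077) (.e (nat_lit 163869) (nat_lit 2) (.e (nat_lit 196668) (nat_lit 14) (.e (nat_lit 73746) (nat_lit 3) (.e (nat_lit 516129) (nat_lit 3) (.e (nat_lit 221215) (nat_lit 23) (.e (nat_lit 204830) (nat_lit 18) (.e (nat_lit 57927) (nat_lit 282) .nil))))))) (.g (nat_lit 1) (.e (nat_lit 146372) (nat_lit 0) .nil) .nil))) 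
(.lf (nat_lit 492078) (.g (nat_lit 2982) (.e (nat_lit 163871) (nat_lit 2) (.e (nat_lit 196655) (nat_lit 11) (.e (nat_lit 16465) (nat_lit 13) (.e (nat_lit 483340) (nat_lit 9) (.e (nat_lit 426107) (nat_lit 1) (.e (nat_lit 164326) (nat_lit 230) .nil)))))) (.g (nat_lit 1) (.e (nat_lit 147362) (nat_lit 0) .nil) .nil)))) (.nd (nat_lit 9) 
(.lf (nat_lit 491822) (.g (nat_lit 5003) (.e (nat_lit 163870) (nat_lit 2) (.e (nat_lit 196666) (nat_lit 13) (.e (nat_lit 65569) (nat_lit 3) (.e (nat_lit 98342) (nat_lit 20) (.e (nat_lit 221214) (nat_lit 23) (.e (nat_lit 204830) (nat_lit 18) (.e (nat_lit 57925) (nat_lit 282) .nil))))))) (.g (nat_lit 1) (.e (nat_lit 146935) (nat_lit 0) .nil) .nil))) 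
(.lf (nat_lit 492334) (.g (nat_lit 2372) (.e (nat_lit 163871) (nat_lit 2) (.e (nat_lit 196674) (nat_lit 15) (.e (nat_lit 81925) (nat_lit 11) (.e (nat_lit 426500) (nat_lit 27) (.e (nat_lit 335986) (nat_lit 1) (.e (nat_lit 57924) (nat_lit 282) .nil)))))) (.g (nat_lit 1) (.e (nat_lit 148067) (nat_lit 0) .nil) .nil))))) (.nd (nat_lit 8) (.nd (nat_lit 9) 
(.lf (nat_lit 491694) (.g (nat_lit 4797) (.e (nat_lit 163869) (nat_lit 2) (.e (nat_lit 196670) (nat_lit 14) (.e (nat_lit 73753) (nat_lit 8) (.e (nat_lit 557103) (nat_lit 14) (.e (nat_lit 180243) (nat_lit 5) (.e (nat_lit 532501) (nat_lit 1) (.e (nat_lit 65280) (nat_lit 168) .nil))))))) (.g (nat_lit 1) (.e (nat_lit 146631) (nat_lit 0) .nil) .nil))) 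
(.lf (nat_lit 492206) (.g (nat_lit 2326) (.e (nat_lit 163871) (nat_lit 2) (.e (nat_lit 196668) (nat_lit 14) (.e (nat_lit 73747) (nat_lit 3) (.e (nat_lit 516130) (nat_lit 3) (.e (nat_lit 221215) (nat_lit 23) (.e (nat_lit 204830) (nat_lit 18) (.e (nat_lit 57927) (nat_lit 282) .nil))))))) (.g (nat_lit 1) (.e (nat_lit 147645) (nat_lit 0) .nil) .nil)))) (.nd (nat_lit 9) 
(.lf (nat_lit 491950) (.g (nat_lit 3689) (.e (nat_lit 163870) (nat_lit 2) (.e (nat_lit 196666) (nat_lit 13) (.e (nat_lit 65610) (nat_lit 10) (.e (nat_lit 344117) (nat_lit 21) (.e (nat_lit 516151) (nat_lit 9) (.e (nat_lit 426047) (nat_lit 0) (.e (nat_lit 2424) (nat_lit 157) (.e (nat_lit 7936) (nat_lit 285) .nil)))))))) (.g (nat_lit 1) (.e (nat_lit 147139) (nat_lit 0) .nil) .nil))) 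
(.lf (nat_lit 492462) (.g (nat_lit 2991) (.e (nat_lit 163873) (nat_lit 3) (.e (nat_lit 204809) (nat_lit 9) (.e (nat_lit 426198) (nat_lit 9) (.e (nat_lit 426566) (nat_lit 34) (.e (nat_lit 393253) (nat_lit 18) (.e (nat_lit 164332) (nat_lit 230) .nil)))))) (.g (nat_lit 1) (.e (nat_lit 148396) (nat_lit 0) .nil) .nil)))))) (.nd (nat_lit 7) (.nd (nat_lit 8) (.nd (nat_lit 9) 
(.lf (nat_lit 491630) (.g (nat_lit 1976) (.e (nat_lit 163869) (nat_lit 2) (.e (nat_lit 196670) (nat_lit 14) (.e (nat_lit 73746) (nat_lit 3) (.e (nat_lit 516124) (nat_lit 2) (.e (nat_lit 213035) (nat_lit 12) (.e (nat_lit 163965) (nat_lit 25) (.e (nat_lit 532500) (nat_lit 1) (.e (nat_lit 57926) (nat_lit 282) .nil)))))))) (.g (nat_lit 1) (.e (nat_lit 146524) (nat_lit 0) .nil) .nil))) 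
(.lf (nat_lit 492142) (.g (nat_lit 3781) (.e (nat_lit 163871) (nat_lit 2) (.e (nat_lit 196668) (nat_lit 14) (.e (nat_lit 73746) (nat_lit 3) (.e (nat_lit 516129) (nat_lit 3) (.e (nat_lit 221215) (nat_lit 23) (.e (nat_lit 204830) (nat_lit 18) (.e (nat_lit 57925) (nat_lit 282) .nil))))))) (.g (nat_lit 1) (.e (nat_lit 147521) (nat_lit 0) .nil) .nil)))) (.nd (nat_lit 9) 
(.lf (nat_lit 491886) (.g (nat_lit 3188) (.e (nat_lit 163870) (nat_lit 2) (.e (nat_lit 196666) (nat_lit 13) (.e (nat_lit 65610) (nat_lit 10) (.e (nat_lit 344117) (nat_lit 21) (.e (nat_lit 516145) (nat_lit 9) (.e (nat_lit 425986) (nat_lit 0) (.e (nat_lit 2431) (nat_lit 157) (.e (nat_lit 4849) (nat_lit 285) .nil)))))))) (.g (nat_lit 1) (.e (nat_lit 147042) (nat_lit 0) .nil) .nil))) 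
(.lf (nat_lit 492398) (.g (nat_lit 4348) (.e (nat_lit 163872) (nat_lit 3) (.e (nat_lit 204838) (nat_lit 20) (.e (nat_lit 114719) (nat_lit 23) (.e (nat_lit 98356) (nat_lit 26) (.e (nat_lit 426438) (nat_lit 18) (.e (nat_lit 98335) (nat_lit 18) (.e (nat_lit 164330) (nat_lit 230) .nil))))))) (.g (nat_lit 1) (.e (nat_lit 148309) (nat_lit 0) .nil) .nil))))) (.nd (nat_lit 8) (.nd (nat_lit 9) 
(.lf (nat_lit 491758) (.g (nat_lit 3023) (.e (nat_lit 163869) (nat_lit 2) (.e (nat_lit 196681) (nat_lit 17) (.e (nat_lit 131109) (nat_lit 9) (.e (nat_lit 336454) (nat_lit 34) (.e (nat_lit 483364) (nat_lit 18) (.e (nat_lit 57926) (nat_lit 282) .nil)))))) (.g (nat_lit 1) (.e (nat_lit 146842) (nat_lit 0) .nil) .nil))) 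
(.lf (nat_lit 492270) (.g (nat_lit 4165) (.e (nat_lit 163871) (nat_lit 2) (.e (nat_lit 196670) (nat_lit 14) (.e (nat_lit 73746) (nat_lit 3) (.e (nat_lit 516129) (nat_lit 3) (.e (nat_lit 221214) (nat_lit 23) (.e (nat_lit 204829) (nat_lit 18) (.e (nat_lit 57927) (nat_lit 282) .nil))))))) (.g (nat_lit 1) (.e (nat_lit 147798) (nat_lit 0) .nil) .nil)))) (.nd (nat_lit 9) 
(.lf (nat_lit 492014) (.g (nat_lit 2212) (.e (nat_lit 163870) (nat_lit 2) (.e (nat_lit 196666) (nat_lit 13) (.e (nat_lit 65625) (nat_lit 13) (.e (nat_lit 393229) (nat_lit 9) (.e (nat_lit 335987) (nat_lit 1) .nil))))) (.g (nat_lit 0) (.e (nat_lit 147244) (nat_lit 0) .nil) .nil))) 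
(.lf (nat_lit 492526) (.g (nat_lit 4115) (.e (nat_lit 163873) (nat_lit 3) (.e (nat_lit 204813) (nat_lit 9) (.e (nat_lit 426185) (nat_lit 9) (.e (nat_lit 426566) (nat_lit 34) (.e (nat_lit 393253) (nat_lit 18) (.e (nat_lit 164325) (nat_lit 230) .nil)))))) (.g (nat_lit 1) (.e (nat_lit 148601) (nat_lit 0) .nil) .nil)))))))) 
(.nd (nat_lit 5) (.nd (nat_lit 6) (.nd (nat_lit 7) (.nd (nat_lit 8) (.nd (nat_lit 9) 
(.lf (nat_lit 491550) (.g (nat_lit 3134) (.e (nat_lit 163869) (nat_lit 2) (.e (nat_lit 196668) (nat_lit 14) (.e (nat_lit 73746) (nat_lit 3) (.e (nat_lit 516129) (nat_lit 3) (.e (nat_lit 221213) (nat_lit 23) (.e (nat_lit 204829) (nat_lit 18) (.e (nat_lit 57927) (nat_lit 282) .nil))))))) (.g (nat_lit 1) (.e (nat_lit 146352) (nat_lit 0) .nil) .nil))) 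
(.lf (nat_lit 492062) (.g (nat_lit 3183) (.e (nat_lit 163871) (nat_lit 2) (.e (nat_lit 196654) (nat_lit 11) (.e (nat_lit 16463) (nat_lit 13) (.e (nat_lit 483337) (nat_lit 9) (.e (nat_lit 426098) (nat_lit 1) (.e (nat_lit 164327) (nat_lit 230) .nil)))))) (.g (nat_lit 1) (.e (nat_lit 147333) (nat_lit 0) .nil) .nil)))) (.nd (nat_lit 9) 
(.lf (nat_lit 491806) (.g (nat_lit 3762) (.e (nat_lit 163870) (nat_lit 2) (.e (nat_lit 196666) (nat_lit 13) (.e (nat_lit 65569) (nat_lit 3) (.e (nat_lit 98341) (nat_lit 20) (.e (nat_lit 221214) (nat_lit 23) (.e (nat_lit 204830) (nat_lit 18) (.e (nat_lit 57928) (nat_lit 282) .nil))))))) (.g (nat_lit 1) (.e (nat_lit 146915) (nat_lit 0) .nil) .nil))) 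
(.lf (nat_lit 492318) (.g (nat_lit 1251) (.e (nat_lit 163871) (nat_lit 2) (.e (nat_lit 196670) (nat_lit 14) (.e (nat_lit 73754) (nat_lit 8) (.e (nat_lit 557103) (nat_lit 14) .nil)))) (.g (nat_lit 0) (.e (nat_lit 147852) (nat_lit 0) .nil) .nil))))) (.nd (nat_lit 8) (.nd (nat_lit 9) 
(.lf (nat_lit 491678) (.g (nat_lit 4389) (.e (nat_lit 163869) (nat_lit 2) (.e (nat_lit 196670) (nat_lit 14) (.e (nat_lit 73746) (nat_lit 3) (.e (nat_lit 516131) (nat_lit 3) (.e (nat_lit 221214) (nat_lit 23) (.e (nat_lit 204829) (nat_lit 18) (.e (nat_lit 57926) (nat_lit 282) .nil))))))) (.g (nat_lit 1) (.e (nat_lit 146598) (nat_lit 0) .nil) .nil))) 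
(.lf (nat_lit 492190) (.g (nat_lit 4221) (.e (nat_lit 163871) (nat_lit 2) (.e (nat_lit 196668) (nat_lit 14) (.e (nat_lit 73747) (nat_lit 3) (.e (nat_lit 516129) (nat_lit 3) (.e (nat_lit 221215) (nat_lit 23) (.e (nat_lit 204829) (nat_lit 18) (.e (nat_lit 57926) (nat_lit 282) .nil))))))) (.g (nat_lit 1) (.e (nat_lit 147629) (nat_lit 0) .nil) .nil)))) (.nd (nat_lit 9) 
(.lf (nat_lit 491934) (.g (nat_lit 4754) (.e (nat_lit 163870) (nat_lit 2) (.e (nat_lit 196666) (nat_lit 13) (.e (nat_lit 65610) (nat_lit 10) (.e (nat_lit 344117) (nat_lit 21) (.e (nat_lit 516151) (nat_lit 9) (.e (nat_lit 426042) (nat_lit 0) (.e (nat_lit 2425) (nat_lit 157) (.e (nat_lit 4848) (nat_lit 285) .nil)))))))) (.g (nat_lit 1) (.e (nat_lit 147123) (nat_lit 0) .nil) .nil))) 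
(.lf (nat_lit 492446) (.g (nat_lit 2844) (.e (nat_lit 163873) (nat_lit 3) (.e (nat_lit 204809) (nat_lit 9) (.e (nat_lit 426190) (nat_lit 9) (.e (nat_lit 426566) (nat_lit 34) (.e (nat_lit 393252) (nat_lit 18) (.e (nat_lit 164332) (nat_lit 230) .nil)))))) (.g (nat_lit 1) (.e (nat_lit 148380) (nat_lit 0) .nil) .nil)))))) (.nd (nat_lit 7) (.nd (nat_lit 8) (.nd (nat_lit 9) 
(.lf (nat_lit 491614) (.g (nat_lit 1106) (.e (nat_lit 163869) (nat_lit 2) (.e (nat_lit 196669) (nat_lit 14) (.e (nat_lit 73755) (nat_lit 8) (.e (nat_lit 557104) (nat_lit 14) .nil)))) (.g (nat_lit 0) (.e (nat_lit 146505) (nat_lit 0) .nil) .nil))) 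
(.lf (nat_lit 492126) (.g (nat_lit 2542) (.e (nat_lit 163871) (nat_lit 2) (.e (nat_lit 196668) (nat_lit 14) (.e (nat_lit 73737) (nat_lit 0) (.e (nat_lit 5949) (nat_lit 322) (.e (nat_lit 57409) (nat_lit 12) (.e (nat_lit 336421) (nat_lit 28) (.e (nat_lit 434206) (nat_lit 18) (.e (nat_lit 5968) (nat_lit 324) .nil)))))))) (.g (nat_lit 1) (.e (nat_lit 147468) (nat_lit 0) .nil) .nil)))) 
(.nd (nat_lit 9) 
(.lf (nat_lit 491870) (.g (nat_lit 3824) (.e (nat_lit 163870) (nat_lit 2) (.e (nat_lit 196666) (nat_lit 13) (.e (nat_lit 65571) (nat_lit 3) (.e (nat_lit 98342) (nat_lit 20) (.e (nat_lit 221215) (nat_lit 23) (.e (nat_lit 204830) (nat_lit 18) (.e (nat_lit 57924) (nat_lit 282) .nil))))))) (.g (nat_lit 1) (.e (nat_lit 147014) (nat_lit 0) .nil) .nil))) 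
(.lf (nat_lit 492382) (.g (nat_lit 3687) (.e (nat_lit 163872) (nat_lit 3) (.e (nat_lit 204838) (nat_lit 20) (.e (nat_lit 114716) (nat_lit 22) (.e (nat_lit 90172) (nat_lit 14) (.e (nat_lit 180244) (nat_lit 5) (.e (nat_lit 532503) (nat_lit 1) (.e (nat_lit 57685) (nat_lit 156) .nil))))))) (.g (nat_lit 1) (.e (nat_lit 148291) (nat_lit 0) .nil) .nil))))) (.nd (nat_lit 8) (.nd (nat_lit 9) 
(.lf (nat_lit 491742) (.g (nat_lit 3074) (.e (nat_lit 163869) (nat_lit 2) (.e (nat_lit 196681) (nat_lit 17) (.e (nat_lit 131105) (nat_lit 9) (.e (nat_lit 336454) (nat_lit 34) (.e (nat_lit 483363) (nat_lit 18) (.e (nat_lit 57930) (nat_lit 282) .nil)))))) (.g (nat_lit 1) (.e (nat_lit 146812) (nat_lit 0) .nil) .nil))) 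
(.lf (nat_lit 492254) (.g (nat_lit 955) (.e (nat_lit 163871) (nat_lit 2) (.e (nat_lit 196670) (nat_lit 14) (.e (nat_lit 73746) (nat_lit 3) (.e (nat_lit 516127) (nat_lit 2) .nil)))) (.g (nat_lit 0) (.e (nat_lit 147782) (nat_lit 0) .nil) .nil)))) (.nd (nat_lit 9) 
(.lf (nat_lit 491998) (.g (nat_lit 3944) (.e (nat_lit 163870) (nat_lit 2) (.e (nat_lit 196666) (nat_lit 13) (.e (nat_lit 65610) (nat_lit 10) (.e (nat_lit 344117) (nat_lit 21) (.e (nat_lit 516160) (nat_lit 10) (.e (nat_lit 434214) (nat_lit 18) (.e (nat_lit 7936) (nat_lit 285) .nil))))))) (.g (nat_lit 1) (.e (nat_lit 147198) (nat_lit 0) .nil) .nil))) 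
(.lf (nat_lit 492510) (.g (nat_lit 1575) (.e (nat_lit 163873) (nat_lit 3) (.e (nat_lit 204811) (nat_lit 9) (.e (nat_lit 426260) (nat_lit 9) (.e (nat_lit 426565) (nat_lit 34) (.e (nat_lit 393254) (nat_lit 18) (.e (nat_lit 164329) (nat_lit 230) .nil)))))) (.g (nat_lit 1) (.e (nat_lit 148543) (nat_lit 0) .nil) .nil))))))) (.nd (nat_lit 6) (.nd (nat_lit 7) (.nd (nat_lit 8) (.nd (nat_lit 9) 
(.lf (nat_lit 491582) (.g (nat_lit 3470) (.e (nat_lit 163869) (nat_lit 2) (.e (nat_lit 196668) (nat_lit 14) (.e (nat_lit 73747) (nat_lit 3) (.e (nat_lit 516129) (nat_lit 3) (.e (nat_lit 221214) (nat_lit 23) (.e (nat_lit 204829) (nat_lit 18) (.e (nat_lit 57930) (nat_lit 282) .nil))))))) (.g (nat_lit 1) (.e (nat_lit 146417) (nat_lit 0) .nil) .nil))) 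
(.lf (nat_lit 492094) (.g (nat_lit 2905) (.e (nat_lit 163871) (nat_lit 2) (.e (nat_lit 196656) (nat_lit 11) (.e (nat_lit 16444) (nat_lit 9) (.e (nat_lit 426503) (nat_lit 27) (.e (nat_lit 336387) (nat_lit 27) (.e (nat_lit 426107) (nat_lit 1) (.e (nat_lit 164325) (nat_lit 230) .nil))))))) (.g (nat_lit 1) (.e (nat_lit 147408) (nat_lit 0) .nil) .nil)))) (.nd (nat_lit 9) 
(.lf (nat_lit 491838) (.g (nat_lit 3873) (.e (nat_lit 163870) (nat_lit 2) (.e (nat_lit 196666) (nat_lit 13) (.e (nat_lit 65571) (nat_lit 3) (.e (nat_lit 98341) (nat_lit 20) (.e (nat_lit 221214) (nat_lit 23) (.e (nat_lit 204830) (nat_lit 18) (.e (nat_lit 57924) (nat_lit 282) .nil))))))) (.g (nat_lit 1) (.e (nat_lit 146965) (nat_lit 0) .nil) .nil))) 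
(.lf (nat_lit 492350) (.g (nat_lit 2774) (.e (nat_lit 163872) (nat_lit 3) (.e (nat_lit 204837) (nat_lit 20) (.e (nat_lit 114714) (nat_lit 22) (.e (nat_lit 90174) (nat_lit 14) (.e (nat_lit 180243) (nat_lit 5) (.e (nat_lit 532499) (nat_lit 1) (.e (nat_lit 57692) (nat_lit 156) .nil))))))) (.g (nat_lit 1) (.e (nat_lit 148257) (nat_lit 0) .nil) .nil))))) (.nd (nat_lit 8) (.nd (nat_lit 9) 
(.lf (nat_lit 491710) (.g (nat_lit 502) (.e (nat_lit 163869) (nat_lit 2) (.e (nat_lit 196670) (nat_lit 14) (.e (nat_lit 73754) (nat_lit 8) .nil))) (.g (nat_lit 0) (.e (nat_lit 146648) (nat_lit 0) .nil) .nil))) 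
(.lf (nat_lit 492222) (.g (nat_lit 4294) (.e (nat_lit 163871) (nat_lit 2) (.e (nat_lit 196668) (nat_lit 14) (.e (nat_lit 73747) (nat_lit 3) (.e (nat_lit 516131) (nat_lit 3) (.e (nat_lit 221215) (nat_lit 23) (.e (nat_lit 204829) (nat_lit 18) (.e (nat_lit 57927) (nat_lit 282) .nil))))))) (.g (nat_lit 1) (.e (nat_lit 147689) (nat_lit 0) .nil) .nil)))) (.nd (nat_lit 9) 
(.lf (nat_lit 491966) (.g (nat_lit 3605) (.e (nat_lit 163870) (nat_lit 2) (.e (nat_lit 196666) (nat_lit 13) (.e (nat_lit 65610) (nat_lit 10) (.e (nat_lit 344117) (nat_lit 21) (.e (nat_lit 516159) (nat_lit 10) (.e (nat_lit 434201) (nat_lit 18) (.e (nat_lit 4849) (nat_lit 285) .nil))))))) (.g (nat_lit 1) (.e (nat_lit 147166) (nat_lit 0) .nil) .nil))) 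
(.lf (nat_lit 492478) (.g (nat_lit 2957) (.e (nat_lit 163873) (nat_lit 3) (.e (nat_lit 204809) (nat_lit 9) (.e (nat_lit 426200) (nat_lit 9) (.e (nat_lit 426568) (nat_lit 34) (.e (nat_lit 393252) (nat_lit 18) (.e (nat_lit 164330) (nat_lit 230) .nil)))))) (.g (nat_lit 1) (.e (nat_lit 148413) (nat_lit 0) .nil) .nil)))))) (.nd (nat_lit 7) (.nd (nat_lit 8) (.nd (nat_lit 9) 
(.lf (nat_lit 491646) (.g (nat_lit 2345) (.e (nat_lit 163869) (nat_lit 2) (.e (nat_lit 196670) (nat_lit 14) (.e (nat_lit 73746) (nat_lit 3) (.e (nat_lit 516127) (nat_lit 2) (.e (nat_lit 213035) (nat_lit 12) (.e (nat_lit 163963) (nat_lit 25) (.e (nat_lit 532504) (nat_lit 1) (.e (nat_lit 57929) (nat_lit 282) .nil)))))))) (.g (nat_lit 1) (.e (nat_lit 146540) (nat_lit 0) .nil) .nil))) 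
(.lf (nat_lit 492158) (.g (nat_lit 2516) (.e (nat_lit 163871) (nat_lit 2) (.e (nat_lit 196668) (nat_lit 14) (.e (nat_lit 73746) (nat_lit 3) (.e (nat_lit 516131) (nat_lit 3) (.e (nat_lit 221215) (nat_lit 23) (.e (nat_lit 204828) (nat_lit 18) (.e (nat_lit 57928) (nat_lit 282) .nil))))))) (.g (nat_lit 1) (.e (nat_lit 147554) (nat_lit 0) .nil) .nil)))) (.nd (nat_lit 9) 
(.lf (nat_lit 491902) (.g (nat_lit 3690) (.e (nat_lit 163870) (nat_lit 2) (.e (nat_lit 196666) (nat_lit 13) (.e (nat_lit 65610) (nat_lit 10) (.e (nat_lit 344117) (nat_lit 21) (.e (nat_lit 516151) (nat_lit 9) (.e (nat_lit 426017) (nat_lit 0) (.e (nat_lit 2431) (nat_lit 157) (.e (nat_lit 7936) (nat_lit 285) .nil)))))))) (.g (nat_lit 1) (.e (nat_lit 147091) (nat_lit 0) .nil) .nil))) 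
(.lf (nat_lit 492414) (.g (nat_lit 1858) (.e (nat_lit 163873) (nat_lit 3) (.e (nat_lit 204808) (nat_lit 9) (.e (nat_lit 426190) (nat_lit 9) (.e (nat_lit 426566) (nat_lit 34) (.e (nat_lit 393252) (nat_lit 18) (.e (nat_lit 164330) (nat_lit 230) .nil)))))) (.g (nat_lit 1) (.e (nat_lit 148341) (nat_lit 0) .nil) .nil))))) (.nd (nat_lit 8) (.nd (nat_lit 9) 
(.lf (nat_lit 491774) (.g (nat_lit 2940) (.e (nat_lit 163869) (nat_lit 2) (.e (nat_lit 196681) (nat_lit 17) (.e (nat_lit 131125) (nat_lit 13) (.e (nat_lit 393225) (nat_lit 9) (.e (nat_lit 335988) (nat_lit 1) (.e (nat_lit 57927) (nat_lit 282) .nil)))))) (.g (nat_lit 1) (.e (nat_lit 146863) (nat_lit 0) .nil) .nil))) 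
(.lf (nat_lit 492286) (.g (nat_lit 3895) (.e (nat_lit 163871) (nat_lit 2) (.e (nat_lit 196670) (nat_lit 14) (.e (nat_lit 73746) (nat_lit 3) (.e (nat_lit 516129) (nat_lit 3) (.e (nat_lit 221215) (nat_lit 23) (.e (nat_lit 204830) (nat_lit 18) (.e (nat_lit 57927) (nat_lit 282) .nil))))))) (.g (nat_lit 1) (.e (nat_lit 147814) (nat_lit 0) .nil) .nil)))) (.nd (nat_lit 9) 
(.lf (nat_lit 492030) (.g (nat_lit 2346) (.e (nat_lit 163870) (nat_lit 2) (.e (nat_lit 196670) (nat_lit 14) (.e (nat_lit 73746) (nat_lit 3) (.e (nat_lit 516131) (nat_lit 3) (.e (nat_lit 221214) (nat_lit 23) (.e (nat_lit 204829) (nat_lit 18) (.e (nat_lit 57927) (nat_lit 282) .nil))))))) (.g (nat_lit 1) (.e (nat_lit 147270) (nat_lit 0) .nil) .nil))) 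
(.lf (nat_lit 492542) (.g (nat_lit 5434) (.e (nat_lit 163873) (nat_lit 3) (.e (nat_lit 204813) (nat_lit 9) (.e (nat_lit 426187) (nat_lit 9) (.e (nat_lit 426566) (nat_lit 34) (.e (nat_lit 393253) (nat_lit 18) (.e (nat_lit 164327) (nat_lit 230) .nil)))))) (.g (nat_lit 1) (.e (nat_lit 148617) (nat_lit 0) .nil) .nil)))))))))))) 
(.nd (nat_lit 1) (.nd (nat_lit 2) (.nd (nat_lit 3) (.nd (nat_lit 4) (.nd (nat_lit 5) 
(.nd (nat_lit 6) (.nd (nat_lit 7) (.nd (nat_lit 8) (.nd (nat_lit 9) 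
(.lf (nat_lit 491521) (.g (nat_lit 3841) (.e (nat_lit 163869) (nat_lit 2) (.e (nat_lit 196666) (nat_lit 13) (.e (nat_lit 65610) (nat_lit 10) (.e (nat_lit 344117) (nat_lit 21) (.e (nat_lit 516159) (nat_lit 10) (.e (nat_lit 434207) (nat_lit 18) (.e (nat_lit 7936) (nat_lit 285) .nil))))))) (.g (nat_lit 1) (.e (nat_lit 146275) (nat_lit 0) .nil) .nil))) 
(.lf (nat_lit 492033) (.g (nat_lit 560) (.e (nat_lit 163870) (nat_lit 2) (.e (nat_lit 196674) (nat_lit 15) (.e (nat_lit 89856) (nat_lit 18) .nil))) (.g (nat_lit 0) (.e (nat_lit 147273) (nat_lit 0) .nil) .nil)))) (.nd (nat_lit 9) 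
(.lf (nat_lit 491777) (.g (nat_lit 3174) (.e (nat_lit 163869) (nat_lit 2) (.e (nat_lit 196681) (nat_lit 17) (.e (nat_lit 131125) (nat_lit 13) (.e (nat_lit 393225) (nat_lit 9) (.e (nat_lit 335996) (nat_lit 1) (.e (nat_lit 57931) (nat_lit 282) .nil)))))) (.g (nat_lit 1) (.e (nat_lit 146866) (nat_lit 0) .nil) .nil))) 
(.lf (nat_lit 492289) (.g (nat_lit 1930) (.e (nat_lit 163871) (nat_lit 2) (.e (nat_lit 196670) (nat_lit 14) (.e (nat_lit 73746) (nat_lit 3) (.e (nat_lit 516131) (nat_lit 3) (.e (nat_lit 221213) (nat_lit 23) (.e (nat_lit 204830) (nat_lit 18) (.e (nat_lit 57924) (nat_lit 282) .nil))))))) (.g (nat_lit 1) (.e (nat_lit 147820) (nat_lit 0) .nil) .nil))))) (.nd (nat_lit 8) (.nd (nat_lit 9) 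
(.lf (nat_lit 491649) (.g (nat_lit 2161) (.e (nat_lit 163869) (nat_lit 2) (.e (nat_lit 196670) (nat_lit 14) (.e (nat_lit 73746) (nat_lit 3) (.e (nat_lit 516127) (nat_lit 2) (.e (nat_lit 213038) (nat_lit 13) (.e (nat_lit 229434) (nat_lit 25) (.e (nat_lit 532501) (nat_lit 1) (.e (nat_lit 57929) (nat_lit 282) .nil)))))))) (.g (nat_lit 1) (.e (nat_lit 146543) (nat_lit 0) .nil) .nil))) 
(.lf (nat_lit 492161) (.g (nat_lit 2291) (.e (nat_lit 163871) (nat_lit 2) (.e (nat_lit 196668) (nat_lit 14) (.e (nat_lit 73746) (nat_lit 3) (.e (nat_lit 516131) (nat_lit 3) (.e (nat_lit 221215) (nat_lit 23) (.e (nat_lit 204830) (nat_lit 18) (.e (nat_lit 57924) (nat_lit 282) .nil))))))) (.g (nat_lit 1) (.e (nat_lit 147557) (nat_lit 0) .nil) .nil)))) (.nd (nat_lit 9) 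
(.lf (nat_lit 491905) (.g (nat_lit 4612) (.e (nat_lit 163870) (nat_lit 2) (.e (nat_lit 196666) (nat_lit 13) (.e (nat_lit 65610) (nat_lit 10) (.e (nat_lit 344117) (nat_lit 21) (.e (nat_lit 516151) (nat_lit 9) (.e (nat_lit 426022) (nat_lit 0) (.e (nat_lit 2397) (nat_lit 157) (.e (nat_lit 4848) (nat_lit 285) .nil)))))))) (.g (nat_lit 1) (.e (nat_lit 147094) (nat_lit 0) .nil) .nil))) 
(.lf (nat_lit 492417) (.g (nat_lit 2024) (.e (nat_lit 163873) (nat_lit 3) (.e (nat_lit 204809) (nat_lit 9) (.e (nat_lit 426139) (nat_lit 3) (.e (nat_lit 204833) (nat_lit 19) (.e (nat_lit 106539) (nat_lit 12) (.e (nat_lit 57465) (nat_lit 23) (.e (nat_lit 516120) (nat_lit 1) (.e (nat_lit 164329) (nat_lit 230) .nil)))))))) (.g (nat_lit 1) (.e (nat_lit 148344) (nat_lit 0) .nil) .nil)))))) 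
(.nd (nat_lit 7) (.nd (nat_lit 8) (.nd (nat_lit 9) 
(.lf (nat_lit 491585) (.g (nat_lit 4895) (.e (nat_lit 163869) (nat_lit 2) (.e (nat_lit 196668) (nat_lit 14) (.e (nat_lit 73747) (nat_lit 3) (.e (nat_lit 516129) (nat_lit 3) (.e (nat_lit 221214) (nat_lit 23) (.e (nat_lit 204830) (nat_lit 18) (.e (nat_lit 57929) (nat_lit 282) .nil))))))) (.g (nat_lit 1) (.e (nat_lit 146420) (nat_lit 0) .nil) .nil))) 
(.lf (nat_lit 492097) (.g (nat_lit 2822) (.e (nat_lit 163871) (nat_lit 2) (.e (nat_lit 196656) (nat_lit 11) (.e (nat_lit 16463) (nat_lit 13) (.e (nat_lit 483341) (nat_lit 9) (.e (nat_lit 426053) (nat_lit 0) .nil))))) (.g (nat_lit 0) (.e (nat_lit 147419) (nat_lit 0) .nil) .nil)))) (.nd (nat_lit 9) 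
(.lf (nat_lit 491841) (.g (nat_lit 4555) (.e (nat_lit 163870) (nat_lit 2) (.e (nat_lit 196666) (nat_lit 13) (.e (nat_lit 65571) (nat_lit 3) (.e (nat_lit 98341) (nat_lit 20) (.e (nat_lit 221214) (nat_lit 23) (.e (nat_lit 204830) (nat_lit 18) (.e (nat_lit 57928) (nat_lit 282) .nil))))))) (.g (nat_lit 1) (.e (nat_lit 146968) (nat_lit 0) .nil) .nil))) 
(.lf (nat_lit 492353) (.g (nat_lit 2207) (.e (nat_lit 163872) (nat_lit 3) (.e (nat_lit 204837) (nat_lit 20) (.e (nat_lit 114714) (nat_lit 22) (.e (nat_lit 90174) (nat_lit 14) (.e (nat_lit 180243) (nat_lit 5) (.e (nat_lit 532503) (nat_lit 1) (.e (nat_lit 57687) (nat_lit 156) .nil))))))) (.g (nat_lit 1) (.e (nat_lit 148260) (nat_lit 0) .nil) .nil))))) (.nd (nat_lit 8) (.nd (nat_lit 9) 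
(.lf (nat_lit 491713) (.g (nat_lit 3162) (.e (nat_lit 163869) (nat_lit 2) (.e (nat_lit 196670) (nat_lit 14) (.e (nat_lit 73754) (nat_lit 8) (.e (nat_lit 557103) (nat_lit 14) (.e (nat_lit 180243) (nat_lit 5) (.e (nat_lit 532501) (nat_lit 1) (.e (nat_lit 65280) (nat_lit 168) .nil))))))) (.g (nat_lit 1) (.e (nat_lit 146656) (nat_lit 0) .nil) .nil))) 
(.lf (nat_lit 492225) (.g (nat_lit 4087) (.e (nat_lit 163871) (nat_lit 2) (.e (nat_lit 196668) (nat_lit 14) (.e (nat_lit 73747) (nat_lit 3) (.e (nat_lit 516131) (nat_lit 3) (.e (nat_lit 221215) (nat_lit 23) (.e (nat_lit 204830) (nat_lit 18) (.e (nat_lit 57925) (nat_lit 282) .nil))))))) (.g (nat_lit 1) (.e (nat_lit 147692) (nat_lit 0) .nil) .nil)))) (.nd (nat_lit 9) 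
(.lf (nat_lit 491969) (.g (nat_lit 3645) (.e (nat_lit 163870) (nat_lit 2) (.e (nat_lit 196666) (nat_lit 13) (.e (nat_lit 65610) (nat_lit 10) (.e (nat_lit 344117) (nat_lit 21) (.e (nat_lit 516159) (nat_lit 10) (.e (nat_lit 434203) (nat_lit 18) (.e (nat_lit 7936) (nat_lit 285) .nil))))))) (.g (nat_lit 1) (.e (nat_lit 147169) (nat_lit 0) .nil) .nil))) 
(.lf (nat_lit 492481) (.g (nat_lit 3287) (.e (nat_lit 163873) (nat_lit 3) (.e (nat_lit 204809) (nat_lit 9) (.e (nat_lit 426200) (nat_lit 9) (.e (nat_lit 426568) (nat_lit 34) (.e (nat_lit 393253) (nat_lit 18) (.e (nat_lit 164325) (nat_lit 230) .nil)))))) (.g (nat_lit 1) (.e (nat_lit 148416) (nat_lit 0) .nil) .nil))))))) (.nd (nat_lit 6) (.nd (nat_lit 7) (.nd (nat_lit 8) (.nd (nat_lit 9) 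
(.lf (nat_lit 491553) (.g (nat_lit 2454) (.e (nat_lit 163869) (nat_lit 2) (.e (nat_lit 196668) (nat_lit 14) (.e (nat_lit 73746) (nat_lit 3) (.e (nat_lit 516129) (nat_lit 3) (.e (nat_lit 221213) (nat_lit 23) (.e (nat_lit 204830) (nat_lit 18) (.e (nat_lit 57929) (nat_lit 282) .nil))))))) (.g (nat_lit 1) (.e (nat_lit 146355) (nat_lit 0) .nil) .nil))) 
(.lf (nat_lit 492065) (.g (nat_lit 2309) (.e (nat_lit 163871) (nat_lit 2) (.e (nat_lit 196654) (nat_lit 11) (.e (nat_lit 16463) (nat_lit 13) (.e (nat_lit 483341) (nat_lit 9) (.e (nat_lit 426029) (nat_lit 0) .nil))))) (.g (nat_lit 0) (.e (nat_lit 147337) (nat_lit 0) .nil) .nil)))) (.nd (nat_lit 9) 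
(.lf (nat_lit 491809) (.g (nat_lit 2874) (.e (nat_lit 163870) (nat_lit 2) (.e (nat_lit 196666) (nat_lit 13) (.e (nat_lit 65569) (nat_lit 3) (.e (nat_lit 98341) (nat_lit 20) (.e (nat_lit 221215) (nat_lit 23) (.e (nat_lit 204830) (nat_lit 18) (.e (nat_lit 57924) (nat_lit 282) .nil))))))) (.g (nat_lit 1) (.e (nat_lit 146918) (nat_lit 0) .nil) .nil))) 
(.lf (nat_lit 492321) (.g (nat_lit 1944) (.e (nat_lit 163871) (nat_lit 2) (.e (nat_lit 196670) (nat_lit 14) (.e (nat_lit 73754) (nat_lit 8) (.e (nat_lit 557105) (nat_lit 14) (.e (nat_lit 180252) (nat_lit 10) .nil))))) (.g (nat_lit 0) (.e (nat_lit 147855) (nat_lit 0) .nil) .nil))))) (.nd (nat_lit 8) (.nd (nat_lit 9) 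
(.lf (nat_lit 491681) (.g (nat_lit 3018) (.e (nat_lit 163869) (nat_lit 2) (.e (nat_lit 196670) (nat_lit 14) (.e (nat_lit 73746) (nat_lit 3) (.e (nat_lit 516131) (nat_lit 3) (.e (nat_lit 221215) (nat_lit 23) (.e (nat_lit 204828) (nat_lit 18) (.e (nat_lit 57929) (nat_lit 282) .nil))))))) (.g (nat_lit 1) (.e (nat_lit 146601) (nat_lit 0) .nil) .nil))) 
(.lf (nat_lit 492193) (.g (nat_lit 3655) (.e (nat_lit 163871) (nat_lit 2) (.e (nat_lit 196668) (nat_lit 14) (.e (nat_lit 73747) (nat_lit 3) (.e (nat_lit 516129) (nat_lit 3) (.e (nat_lit 221215) (nat_lit 23) (.e (nat_lit 204830) (nat_lit 18) (.e (nat_lit 57924) (nat_lit 282) .nil))))))) (.g (nat_lit 1) (.e (nat_lit 147632) (nat_lit 0) .nil) .nil)))) (.nd (nat_lit 9) 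
(.lf (nat_lit 491937) (.g (nat_lit 3369) (.e (nat_lit 163870) (nat_lit 2) (.e (nat_lit 196666) (nat_lit 13) (.e (nat_lit 65610) (nat_lit 10) (.e (nat_lit 344117) (nat_lit 21) (.e (nat_lit 516151) (nat_lit 9) (.e (nat_lit 426042) (nat_lit 0) (.e (nat_lit 2449) (nat_lit 157) (.e (nat_lit 7936) (nat_lit 285) .nil)))))))) (.g (nat_lit 1) (.e (nat_lit 147126) (nat_lit 0) .nil) .nil))) 
(.lf (nat_lit 492449) (.g (nat_lit 3133) (.e (nat_lit 163873) (nat_lit 3) (.e (nat_lit 204809) (nat_lit 9) (.e (nat_lit 426190) (nat_lit 9) (.e (nat_lit 426566) (nat_lit 34) (.e (nat_lit 393253) (nat_lit 18) (.e (nat_lit 164332) (nat_lit 230) .nil)))))) (.g (nat_lit 1) (.e (nat_lit 148383) (nat_lit 0) .nil) .nil)))))) (.nd (nat_lit 7) (.nd (nat_lit 8) (.nd (nat_lit 9) 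
(.lf (nat_lit 491617) (.g (nat_lit 2009) (.e (nat_lit 163869) (nat_lit 2) (.e (nat_lit 196670) (nat_lit 14) (.e (nat_lit 73746) (nat_lit 3) (.e (nat_lit 516122) (nat_lit 2) (.e (nat_lit 213037) (nat_lit 13) (.e (nat_lit 229433) (nat_lit 25) (.e (nat_lit 532501) (nat_lit 1) (.e (nat_lit 57929) (nat_lit 282) .nil)))))))) (.g (nat_lit 1) (.e (nat_lit 146508) (nat_lit 0) .nil) .nil))) 
(.lf (nat_lit 492129) (.g (nat_lit 2480) (.e (nat_lit 163871) (nat_lit 2) (.e (nat_lit 196668) (nat_lit 14) (.e (nat_lit 73746) (nat_lit 3) (.e (nat_lit 516129) (nat_lit 3) (.e (nat_lit 221213) (nat_lit 23) (.e (nat_lit 204830) (nat_lit 18) (.e (nat_lit 57927) (nat_lit 282) .nil))))))) (.g (nat_lit 1) (.e (nat_lit 147508) (nat_lit 0) .nil) .nil)))) (.nd (nat_lit 9) 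
(.lf (nat_lit 491873) (.g (nat_lit 4373) (.e (nat_lit 163870) (nat_lit 2) (.e (nat_lit 196666) (nat_lit 13) (.e (nat_lit 65571) (nat_lit 3) (.e (nat_lit 98342) (nat_lit 20) (.e (nat_lit 221215) (nat_lit 23) (.e (nat_lit 204830) (nat_lit 18) (.e (nat_lit 57928) (nat_lit 282) .nil))))))) (.g (nat_lit 1) (.e (nat_lit 147017) (nat_lit 0) .nil) .nil))) 
(.lf (nat_lit 492385) (.g (nat_lit 4515) (.e (nat_lit 163872) (nat_lit 3) (.e (nat_lit 204838) (nat_lit 20) (.e (nat_lit 114716) (nat_lit 22) (.e (nat_lit 90174) (nat_lit 14) (.e (nat_lit 180243) (nat_lit 5) (.e (nat_lit 532499) (nat_lit 1) (.e (nat_lit 57688) (nat_lit 156) .nil))))))) (.g (nat_lit 1) (.e (nat_lit 148294) (nat_lit 0) .nil) .nil))))) (.nd (nat_lit 8) (.nd (nat_lit 9) 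
(.lf (nat_lit 491745) (.g (nat_lit 2718) (.e (nat_lit 163869) (nat_lit 2) (.e (nat_lit 196681) (nat_lit 17) (.e (nat_lit 131105) (nat_lit 9) (.e (nat_lit 336454) (nat_lit 34) (.e (nat_lit 483365) (nat_lit 18) (.e (nat_lit 57930) (nat_lit 282) .nil)))))) (.g (nat_lit 1) (.e (nat_lit 146815) (nat_lit 0) .nil) .nil))) 
(.lf (nat_lit 492257) (.g (nat_lit 3773) (.e (nat_lit 163871) (nat_lit 2) (.e (nat_lit 196670) (nat_lit 14) (.e (nat_lit 73746) (nat_lit 3) (.e (nat_lit 516127) (nat_lit 2) (.e (nat_lit 213036) (nat_lit 13) (.e (nat_lit 229433) (nat_lit 25) (.e (nat_lit 532501) (nat_lit 1) (.e (nat_lit 57928) (nat_lit 282) .nil)))))))) (.g (nat_lit 1) (.e (nat_lit 147785) (nat_lit 0) .nil) .nil)))) 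
(.nd (nat_lit 9) 
(.lf (nat_lit 492001) (.g (nat_lit 2759) (.e (nat_lit 163870) (nat_lit 2) (.e (nat_lit 196666) (nat_lit 13) (.e (nat_lit 65610) (nat_lit 10) (.e (nat_lit 344117) (nat_lit 21) (.e (nat_lit 516160) (nat_lit 10) (.e (nat_lit 442112) (nat_lit 18) (.e (nat_lit 4849) (nat_lit 285) .nil))))))) (.g (nat_lit 1) (.e (nat_lit 147201) (nat_lit 0) .nil) .nil))) 
(.lf (nat_lit 492513) (.g (nat_lit 1662) (.e (nat_lit 163873) (nat_lit 3) (.e (nat_lit 204811) (nat_lit 9) (.e (nat_lit 426261) (nat_lit 9) (.e (nat_lit 426503) (nat_lit 27) (.e (nat_lit 336387) (nat_lit 27) (.e (nat_lit 426107) (nat_lit 1) (.e (nat_lit 164326) (nat_lit 230) .nil))))))) (.g (nat_lit 1) (.e (nat_lit 148546) (nat_lit 0) .nil) .nil)))))))) 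
(.nd (nat_lit 5) (.nd (nat_lit 6) (.nd (nat_lit 7) (.nd (nat_lit 8) (.nd (nat_lit 9) 
(.lf (nat_lit 491537) (.g (nat_lit 4276) (.e (nat_lit 163869) (nat_lit 2) (.e (nat_lit 196666) (nat_lit 13) (.e (nat_lit 65610) (nat_lit 10) (.e (nat_lit 344117) (nat_lit 21) (.e (nat_lit 516160) (nat_lit 10) (.e (nat_lit 434206) (nat_lit 18) (.e (nat_lit 7936) (nat_lit 285) .nil))))))) (.g (nat_lit 1) (.e (nat_lit 146291) (nat_lit 0) .nil) .nil))) 
(.lf (nat_lit 492049) (.g (nat_lit 2639) (.e (nat_lit 163871) (nat_lit 2) (.e (nat_lit 196654) (nat_lit 11) (.e (nat_lit 16436) (nat_lit 9) (.e (nat_lit 426482) (nat_lit 27) (.e (nat_lit 336388) (nat_lit 27) .nil))))) (.g (nat_lit 0) (.e (nat_lit 147316) (nat_lit 0) .nil) .nil)))) (.nd (nat_lit 9) 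
(.lf (nat_lit 491793) (.g (nat_lit 1656) (.e (nat_lit 163870) (nat_lit 2) (.e (nat_lit 196630) (nat_lit 9) (.e (nat_lit 430) (nat_lit 32) (.e (nat_lit 426190) (nat_lit 9) (.e (nat_lit 426568) (nat_lit 34) .nil))))) (.g (nat_lit 0) (.e (nat_lit 146894) (nat_lit 0) .nil) .nil))) 
(.lf (nat_lit 492305) (.g (nat_lit 2916) (.e (nat_lit 163871) (nat_lit 2) (.e (nat_lit 196670) (nat_lit 14) (.e (nat_lit 73746) (nat_lit 3) (.e (nat_lit 516131) (nat_lit 3) (.e (nat_lit 221215) (nat_lit 23) (.e (nat_lit 204830) (nat_lit 18) (.e (nat_lit 57924) (nat_lit 282) .nil))))))) (.g (nat_lit 1) (.e (nat_lit 147836) (nat_lit 0) .nil) .nil))))) (.nd (nat_lit 8) (.nd (nat_lit 9) 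
(.lf (nat_lit 491665) (.g (nat_lit 2862) (.e (nat_lit 163869) (nat_lit 2) (.e (nat_lit 196670) (nat_lit 14) (.e (nat_lit 73746) (nat_lit 3) (.e (nat_lit 516129) (nat_lit 3) (.e (nat_lit 221215) (nat_lit 23) (.e (nat_lit 204828) (nat_lit 18) (.e (nat_lit 57930) (nat_lit 282) .nil))))))) (.g (nat_lit 1) (.e (nat_lit 146572) (nat_lit 0) .nil) .nil))) 
(.lf (nat_lit 492177) (.g (nat_lit 4766) (.e (nat_lit 163871) (nat_lit 2) (.e (nat_lit 196668) (nat_lit 14) (.e (nat_lit 73747) (nat_lit 3) (.e (nat_lit 516129) (nat_lit 3) (.e (nat_lit 221214) (nat_lit 23) (.e (nat_lit 204829) (nat_lit 18) (.e (nat_lit 57927) (nat_lit 282) .nil))))))) (.g (nat_lit 1) (.e (nat_lit 147613) (nat_lit 0) .nil) .nil)))) (.nd (nat_lit 9) 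
(.lf (nat_lit 491921) (.g (nat_lit 3405) (.e (nat_lit 163870) (nat_lit 2) (.e (nat_lit 196666) (nat_lit 13) (.e (nat_lit 65610) (nat_lit 10) (.e (nat_lit 344117) (nat_lit 21) (.e (nat_lit 516151) (nat_lit 9) (.e (nat_lit 426038) (nat_lit 0) (.e (nat_lit 2478) (nat_lit 157) (.e (nat_lit 7936) (nat_lit 285) .nil)))))))) (.g (nat_lit 1) (.e (nat_lit 147110) (nat_lit 0) .nil) .nil))) 
(.lf (nat_lit 492433) (.g (nat_lit 2918) (.e (nat_lit 163873) (nat_lit 3) (.e (nat_lit 204809) (nat_lit 9) (.e (nat_lit 426188) (nat_lit 9) (.e (nat_lit 426566) (nat_lit 34) (.e (nat_lit 393254) (nat_lit 18) (.e (nat_lit 164331) (nat_lit 230) .nil)))))) (.g (nat_lit 1) (.e (nat_lit 148367) (nat_lit 0) .nil) .nil)))))) (.nd (nat_lit 7) (.nd (nat_lit 8) (.nd (nat_lit 9) 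
(.lf (nat_lit 491601) (.g (nat_lit 3039) (.e (nat_lit 163869) (nat_lit 2) (.e (nat_lit 196668) (nat_lit 14) (.e (nat_lit 73747) (nat_lit 3) (.e (nat_lit 516131) (nat_lit 3) (.e (nat_lit 221215) (nat_lit 23) (.e (nat_lit 204829) (nat_lit 18) (.e (nat_lit 57930) (nat_lit 282) .nil))))))) (.g (nat_lit 1) (.e (nat_lit 146466) (nat_lit 0) .nil) .nil))) 
(.lf (nat_lit 492113) (.g (nat_lit 2742) (.e (nat_lit 163871) (nat_lit 2) (.e (nat_lit 196663) (nat_lit 13) (.e (nat_lit 65571) (nat_lit 3) (.e (nat_lit 98341) (nat_lit 20) (.e (nat_lit 221214) (nat_lit 23) (.e (nat_lit 204830) (nat_lit 18) (.e (nat_lit 57926) (nat_lit 282) .nil))))))) (.g (nat_lit 1) (.e (nat_lit 147455) (nat_lit 0) .nil) .nil)))) (.nd (nat_lit 9) 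
(.lf (nat_lit 491857) (.g (nat_lit 5020) (.e (nat_lit 163870) (nat_lit 2) (.e (nat_lit 196666) (nat_lit 13) (.e (nat_lit 65571) (nat_lit 3) (.e (nat_lit 98342) (nat_lit 20) (.e (nat_lit 221214) (nat_lit 23) (.e (nat_lit 204829) (nat_lit 18) (.e (nat_lit 57927) (nat_lit 282) .nil))))))) (.g (nat_lit 1) (.e (nat_lit 146998) (nat_lit 0) .nil) .nil))) 
(.lf (nat_lit 492369) (.g (nat_lit 3096) (.e (nat_lit 163872) (nat_lit 3) (.e (nat_lit 204838) (nat_lit 20) (.e (nat_lit 114714) (nat_lit 22) (.e (nat_lit 90172) (nat_lit 14) (.e (nat_lit 180244) (nat_lit 5) (.e (nat_lit 532504) (nat_lit 1) (.e (nat_lit 57692) (nat_lit 156) .nil))))))) (.g (nat_lit 1) (.e (nat_lit 148277) (nat_lit 0) .nil) .nil))))) (.nd (nat_lit 8) (.nd (nat_lit 9) 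
(.lf (nat_lit 491729) (.g (nat_lit 2567) (.e (nat_lit 163869) (nat_lit 2) (.e (nat_lit 196670) (nat_lit 14) (.e (nat_lit 73755) (nat_lit 8) (.e (nat_lit 557105) (nat_lit 14) (.e (nat_lit 180252) (nat_lit 10) .nil))))) (.g (nat_lit 0) (.e (nat_lit 146673) (nat_lit 0) .nil) .nil))) 
(.lf (nat_lit 492241) (.g (nat_lit 2303) (.e (nat_lit 163871) (nat_lit 2) (.e (nat_lit 196670) (nat_lit 14) (.e (nat_lit 73746) (nat_lit 3) (.e (nat_lit 516122) (nat_lit 2) (.e (nat_lit 213035) (nat_lit 12) (.e (nat_lit 163964) (nat_lit 25) (.e (nat_lit 532501) (nat_lit 1) (.e (nat_lit 57928) (nat_lit 282) .nil)))))))) (.g (nat_lit 1) (.e (nat_lit 147767) (nat_lit 0) .nil) .nil)))) 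
(.nd (nat_lit 9) 
(.lf (nat_lit 491985) (.g (nat_lit 3815) (.e (nat_lit 163870) (nat_lit 2) (.e (nat_lit 196666) (nat_lit 13) (.e (nat_lit 65610) (nat_lit 10) (.e (nat_lit 344117) (nat_lit 21) (.e (nat_lit 516160) (nat_lit 10) (.e (nat_lit 434201) (nat_lit 18) (.e (nat_lit 4848) (nat_lit 285) .nil))))))) (.g (nat_lit 1) (.e (nat_lit 147185) (nat_lit 0) .nil) .nil))) 
(.lf (nat_lit 492497) (.g (nat_lit 1742) (.e (nat_lit 163873) (nat_lit 3) (.e (nat_lit 204811) (nat_lit 9) (.e (nat_lit 426232) (nat_lit 9) (.e (nat_lit 426565) (nat_lit 34) (.e (nat_lit 393254) (nat_lit 18) (.e (nat_lit 164332) (nat_lit 230) .nil)))))) (.g (nat_lit 1) (.e (nat_lit 148530) (nat_lit 0) .nil) .nil))))))) (.nd (nat_lit 6) (.nd (nat_lit 7) (.nd (nat_lit 8) (.nd (nat_lit 9) 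
(.lf (nat_lit 491569) (.g (nat_lit 2637) (.e (nat_lit 163869) (nat_lit 2) (.e (nat_lit 196668) (nat_lit 14) (.e (nat_lit 73746) (nat_lit 3) (.e (nat_lit 516131) (nat_lit 3) (.e (nat_lit 221213) (nat_lit 23) (.e (nat_lit 204829) (nat_lit 18) (.e (nat_lit 57927) (nat_lit 282) .nil))))))) (.g (nat_lit 1) (.e (nat_lit 146376) (nat_lit 0) .nil) .nil))) 
(.lf (nat_lit 492081) (.g (nat_lit 3525) (.e (nat_lit 163871) (nat_lit 2) (.e (nat_lit 196656) (nat_lit 11) (.e (nat_lit 16416) (nat_lit 3) (.e (nat_lit 204838) (nat_lit 20) (.e (nat_lit 114715) (nat_lit 22) (.e (nat_lit 90165) (nat_lit 12) (.e (nat_lit 163853) (nat_lit 0) (.e (nat_lit 5224) (nat_lit 296) .nil)))))))) (.g (nat_lit 1) (.e (nat_lit 147386) (nat_lit 0) .nil) .nil)))) 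
(.nd (nat_lit 9) 
(.lf (nat_lit 491825) (.g (nat_lit 2927) (.e (nat_lit 163870) (nat_lit 2) (.e (nat_lit 196666) (nat_lit 13) (.e (nat_lit 65569) (nat_lit 3) (.e (nat_lit 98342) (nat_lit 20) (.e (nat_lit 221215) (nat_lit 23) (.e (nat_lit 204828) (nat_lit 18) (.e (nat_lit 57928) (nat_lit 282) .nil))))))) (.g (nat_lit 1) (.e (nat_lit 146940) (nat_lit 0) .nil) .nil))) 
(.lf (nat_lit 492337) (.g (nat_lit 2416) (.e (nat_lit 163871) (nat_lit 2) (.e (nat_lit 196674) (nat_lit 15) (.e (nat_lit 81925) (nat_lit 11) (.e (nat_lit 426500) (nat_lit 27) (.e (nat_lit 335996) (nat_lit 1) (.e (nat_lit 57924) (nat_lit 282) .nil)))))) (.g (nat_lit 1) (.e (nat_lit 148070) (nat_lit 0) .nil) .nil))))) (.nd (nat_lit 8) (.nd (nat_lit 9) 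
(.lf (nat_lit 491697) (.g (nat_lit 5250) (.e (nat_lit 163869) (nat_lit 2) (.e (nat_lit 196670) (nat_lit 14) (.e (nat_lit 73753) (nat_lit 8) (.e (nat_lit 557103) (nat_lit 14) (.e (nat_lit 180244) (nat_lit 5) (.e (nat_lit 532499) (nat_lit 1) (.e (nat_lit 65280) (nat_lit 168) .nil))))))) (.g (nat_lit 1) (.e (nat_lit 146634) (nat_lit 0) .nil) .nil))) 
(.lf (nat_lit 492209) (.g (nat_lit 3565) (.e (nat_lit 163871) (nat_lit 2) (.e (nat_lit 196668) (nat_lit 14) (.e (nat_lit 73747) (nat_lit 3) (.e (nat_lit 516131) (nat_lit 3) (.e (nat_lit 221213) (nat_lit 23) (.e (nat_lit 204830) (nat_lit 18) (.e (nat_lit 57925) (nat_lit 282) .nil))))))) (.g (nat_lit 1) (.e (nat_lit 147671) (nat_lit 0) .nil) .nil)))) (.nd (nat_lit 9) 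
(.lf (nat_lit 491953) (.g (nat_lit 4449) (.e (nat_lit 163870) (nat_lit 2) (.e (nat_lit 196666) (nat_lit 13) (.e (nat_lit 65610) (nat_lit 10) (.e (nat_lit 344117) (nat_lit 21) (.e (nat_lit 516151) (nat_lit 9) (.e (nat_lit 426097) (nat_lit 1) (.e (nat_lit 171776) (nat_lit 219) .nil))))))) (.g (nat_lit 1) (.e (nat_lit 147142) (nat_lit 0) .nil) .nil))) 
(.lf (nat_lit 492465) (.g (nat_lit 3443) (.e (nat_lit 163873) (nat_lit 3) (.e (nat_lit 204809) (nat_lit 9) (.e (nat_lit 426200) (nat_lit 9) (.e (nat_lit 426566) (nat_lit 34) (.e (nat_lit 393251) (nat_lit 18) (.e (nat_lit 164325) (nat_lit 230) .nil)))))) (.g (nat_lit 1) (.e (nat_lit 148400) (nat_lit 0) .nil) .nil)))))) (.nd (nat_lit 7) (.nd (nat_lit 8) (.nd (nat_lit 9) 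
(.lf (nat_lit 491633) (.g (nat_lit 2511) (.e (nat_lit 163869) (nat_lit 2) (.e (nat_lit 196670) (nat_lit 14) (.e (nat_lit 73746) (nat_lit 3) (.e (nat_lit 516124) (nat_lit 2) (.e (nat_lit 213038) (nat_lit 13) (.e (nat_lit 229434) (nat_lit 25) (.e (nat_lit 532499) (nat_lit 1) (.e (nat_lit 57927) (nat_lit 282) .nil)))))))) (.g (nat_lit 1) (.e (nat_lit 146527) (nat_lit 0) .nil) .nil))) 
(.lf (nat_lit 492145) (.g (nat_lit 3433) (.e (nat_lit 163871) (nat_lit 2) (.e (nat_lit 196668) (nat_lit 14) (.e (nat_lit 73746) (nat_lit 3) (.e (nat_lit 516129) (nat_lit 3) (.e (nat_lit 221215) (nat_lit 23) (.e (nat_lit 204830) (nat_lit 18) (.e (nat_lit 57928) (nat_lit 282) .nil))))))) (.g (nat_lit 1) (.e (nat_lit 147524) (nat_lit 0) .nil) .nil)))) (.nd (nat_lit 9) 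
(.lf (nat_lit 491889) (.g (nat_lit 3193) (.e (nat_lit 163870) (nat_lit 2) (.e (nat_lit 196666) (nat_lit 13) (.e (nat_lit 65610) (nat_lit 10) (.e (nat_lit 344117) (nat_lit 21) (.e (nat_lit 516145) (nat_lit 9) (.e (nat_lit 426148) (nat_lit 4) (.e (nat_lit 237312) (nat_lit 219) .nil))))))) (.g (nat_lit 1) (.e (nat_lit 147045) (nat_lit 0) .nil) .nil))) 
(.lf (nat_lit 492401) (.g (nat_lit 2346) (.e (nat_lit 163872) (nat_lit 3) (.e (nat_lit 204838) (nat_lit 20) (.e (nat_lit 114719) (nat_lit 23) (.e (nat_lit 98365) (nat_lit 26) (.e (nat_lit 426137) (nat_lit 3) .nil))))) (.g (nat_lit 0) (.e (nat_lit 148312) (nat_lit 0) .nil) .nil))))) (.nd (nat_lit 8) (.nd (nat_lit 9) 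
(.lf (nat_lit 491761) (.g (nat_lit 2821) (.e (nat_lit 163869) (nat_lit 2) (.e (nat_lit 196681) (nat_lit 17) (.e (nat_lit 131109) (nat_lit 9) (.e (nat_lit 336454) (nat_lit 34) (.e (nat_lit 483365) (nat_lit 18) (.e (nat_lit 57930) (nat_lit 282) .nil)))))) (.g (nat_lit 1) (.e (nat_lit 146845) (nat_lit 0) .nil) .nil))) 
(.lf (nat_lit 492273) (.g (nat_lit 3952) (.e (nat_lit 163871) (nat_lit 2) (.e (nat_lit 196670) (nat_lit 14) (.e (nat_lit 73746) (nat_lit 3) (.e (nat_lit 516129) (nat_lit 3) (.e (nat_lit 221214) (nat_lit 23) (.e (nat_lit 204830) (nat_lit 18) (.e (nat_lit 57925) (nat_lit 282) .nil))))))) (.g (nat_lit 1) (.e (nat_lit 147801) (nat_lit 0) .nil) .nil)))) (.nd (nat_lit 9) 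
(.lf (nat_lit 492017) (.g (nat_lit 2415) (.e (nat_lit 163870) (nat_lit 2) (.e (nat_lit 196666) (nat_lit 13) (.e (nat_lit 65627) (nat_lit 13) (.e (nat_lit 393225) (nat_lit 9) (.e (nat_lit 335988) (nat_lit 1) (.e (nat_lit 57928) (nat_lit 282) .nil)))))) (.g (nat_lit 1) (.e (nat_lit 147254) (nat_lit 0) .nil) .nil))) 
(.lf (nat_lit 492529) (.g (nat_lit 4114) (.e (nat_lit 163873) (nat_lit 3) (.e (nat_lit 204813) (nat_lit 9) (.e (nat_lit 426185) (nat_lit 9) (.e (nat_lit 426566) (nat_lit 34) (.e (nat_lit 393253) (nat_lit 18) (.e (nat_lit 164332) (nat_lit 230) .nil)))))) (.g (nat_lit 1) (.e (nat_lit 148604) (nat_lit 0) .nil) .nil))))))))) 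
(.nd (nat_lit 4) (.nd (nat_lit 5) (.nd (nat_lit 6) (.nd (nat_lit 7) (.nd (nat_lit 8) 
(.nd (nat_lit 9) 
(.lf (nat_lit 491529) (.g (nat_lit 3882) (.e (nat_lit 163869) (nat_lit 2) (.e (nat_lit 196666) (nat_lit 13) (.e (nat_lit 65610) (nat_lit 10) (.e (nat_lit 344117) (nat_lit 21) (.e (nat_lit 516160) (nat_lit 10) (.e (nat_lit 434200) (nat_lit 18) (.e (nat_lit 4848) (nat_lit 285) .nil))))))) (.g (nat_lit 1) (.e (nat_lit 146283) (nat_lit 0) .nil) .nil))) 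
(.lf (nat_lit 492041) (.g (nat_lit 1586) (.e (nat_lit 163871) (nat_lit 2) (.e (nat_lit 196654) (nat_lit 11) (.e (nat_lit 16433) (nat_lit 9) (.e (nat_lit 426481) (nat_lit 27) .nil)))) (.g (nat_lit 0) (.e (nat_lit 147307) (nat_lit 0) .nil) .nil)))) (.nd (nat_lit 9) 
(.lf (nat_lit 491785) (.g (nat_lit 3598) (.e (nat_lit 163869) (nat_lit 2) (.e (nat_lit 196681) (nat_lit 17) (.e (nat_lit 131128) (nat_lit 13) (.e (nat_lit 393225) (nat_lit 9) (.e (nat_lit 335996) (nat_lit 1) (.e (nat_lit 57930) (nat_lit 282) .nil)))))) (.g (nat_lit 1) (.e (nat_lit 146882) (nat_lit 0) .nil) .nil))) 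
(.lf (nat_lit 492297) (.g (nat_lit 1979) (.e (nat_lit 163871) (nat_lit 2) (.e (nat_lit 196670) (nat_lit 14) (.e (nat_lit 73746) (nat_lit 3) (.e (nat_lit 516131) (nat_lit 3) (.e (nat_lit 221215) (nat_lit 23) (.e (nat_lit 204828) (nat_lit 18) (.e (nat_lit 57924) (nat_lit 282) .nil))))))) (.g (nat_lit 1) (.e (nat_lit 147828) (nat_lit 0) .nil) .nil))))) (.nd (nat_lit 8) (.nd (nat_lit 9) 
(.lf (nat_lit 491657) (.g (nat_lit 2708) (.e (nat_lit 163869) (nat_lit 2) (.e (nat_lit 196670) (nat_lit 14) (.e (nat_lit 73746) (nat_lit 3) (.e (nat_lit 516129) (nat_lit 3) (.e (nat_lit 221214) (nat_lit 23) (.e (nat_lit 204829) (nat_lit 18) (.e (nat_lit 57925) (nat_lit 282) .nil))))))) (.g (nat_lit 1) (.e (nat_lit 146563) (nat_lit 0) .nil) .nil))) 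
(.lf (nat_lit 492169) (.g (nat_lit 2090) (.e (nat_lit 163871) (nat_lit 2) (.e (nat_lit 196668) (nat_lit 14) (.e (nat_lit 73747) (nat_lit 3) (.e (nat_lit 516129) (nat_lit 3) (.e (nat_lit 221213) (nat_lit 23) (.e (nat_lit 204830) (nat_lit 18) (.e (nat_lit 57924) (nat_lit 282) .nil))))))) (.g (nat_lit 1) (.e (nat_lit 147601) (nat_lit 0) .nil) .nil)))) (.nd (nat_lit 9) 
(.lf (nat_lit 491913) (.g (nat_lit 3529) (.e (nat_lit 163870) (nat_lit 2) (.e (nat_lit 196666) (nat_lit 13) (.e (nat_lit 65610) (nat_lit 10) (.e (nat_lit 344117) (nat_lit 21) (.e (nat_lit 516151) (nat_lit 9) (.e (nat_lit 426034) (nat_lit 0) (.e (nat_lit 2422) (nat_lit 157) (.e (nat_lit 4848) (nat_lit 285) .nil)))))))) (.g (nat_lit 1) (.e (nat_lit 147102) (nat_lit 0) .nil) .nil))) 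
(.lf (nat_lit 492425) (.g (nat_lit 3869) (.e (nat_lit 163873) (nat_lit 3) (.e (nat_lit 204809) (nat_lit 9) (.e (nat_lit 426187) (nat_lit 9) (.e (nat_lit 426566) (nat_lit 34) (.e (nat_lit 393253) (nat_lit 18) (.e (nat_lit 164327) (nat_lit 230) .nil)))))) (.g (nat_lit 1) (.e (nat_lit 148359) (nat_lit 0) .nil) .nil)))))) (.nd (nat_lit 7) (.nd (nat_lit 8) (.nd (nat_lit 9) 
(.lf (nat_lit 491593) (.g (nat_lit 2842) (.e (nat_lit 163869) (nat_lit 2) (.e (nat_lit 196668) (nat_lit 14) (.e (nat_lit 73747) (nat_lit 3) (.e (nat_lit 516130) (nat_lit 3) (.e (nat_lit 221214) (nat_lit 23) (.e (nat_lit 204830) (nat_lit 18) (.e (nat_lit 57927) (nat_lit 282) .nil))))))) (.g (nat_lit 1) (.e (nat_lit 146434) (nat_lit 0) .nil) .nil))) 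
(.lf (nat_lit 492105) (.g (nat_lit 2138) (.e (nat_lit 163871) (nat_lit 2) (.e (nat_lit 196656) (nat_lit 11) (.e (nat_lit 16465) (nat_lit 13) (.e (nat_lit 483341) (nat_lit 9) (.e (nat_lit 426097) (nat_lit 1) .nil))))) (.g (nat_lit 0) (.e (nat_lit 147429) (nat_lit 0) .nil) .nil)))) (.nd (nat_lit 9) 
(.lf (nat_lit 491849) (.g (nat_lit 3270) (.e (nat_lit 163870) (nat_lit 2) (.e (nat_lit 196666) (nat_lit 13) (.e (nat_lit 65571) (nat_lit 3) (.e (nat_lit 98342) (nat_lit 20) (.e (nat_lit 221213) (nat_lit 23) (.e (nat_lit 204829) (nat_lit 18) (.e (nat_lit 57926) (nat_lit 282) .nil))))))) (.g (nat_lit 1) (.e (nat_lit 146989) (nat_lit 0) .nil) .nil))) 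
(.lf (nat_lit 492361) (.g (nat_lit 2738) (.e (nat_lit 163872) (nat_lit 3) (.e (nat_lit 204838) (nat_lit 20) (.e (nat_lit 114714) (nat_lit 22) (.e (nat_lit 90170) (nat_lit 13) (.e (nat_lit 172065) (nat_lit 3) (.e (nat_lit 204829) (nat_lit 18) (.e (nat_lit 57688) (nat_lit 156) .nil))))))) (.g (nat_lit 1) (.e (nat_lit 148269) (nat_lit 0) .nil) .nil))))) (.nd (nat_lit 8) (.nd (nat_lit 9) 
(.lf (nat_lit 491721) (.g (nat_lit 2359) (.e (nat_lit 163869) (nat_lit 2) (.e (nat_lit 196670) (nat_lit 14) (.e (nat_lit 73754) (nat_lit 8) (.e (nat_lit 557105) (nat_lit 14) (.e (nat_lit 180245) (nat_lit 5) .nil))))) (.g (nat_lit 0) (.e (nat_lit 146664) (nat_lit 0) .nil) .nil))) 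
(.lf (nat_lit 492233) (.g (nat_lit 3843) (.e (nat_lit 163871) (nat_lit 2) (.e (nat_lit 196668) (nat_lit 14) (.e (nat_lit 73753) (nat_lit 8) (.e (nat_lit 557103) (nat_lit 14) (.e (nat_lit 180243) (nat_lit 5) (.e (nat_lit 532504) (nat_lit 1) (.e (nat_lit 65280) (nat_lit 168) .nil))))))) (.g (nat_lit 1) (.e (nat_lit 147750) (nat_lit 0) .nil) .nil)))) (.nd (nat_lit 9) 
(.lf (nat_lit 491977) (.g (nat_lit 2746) (.e (nat_lit 163870) (nat_lit 2) (.e (nat_lit 196666) (nat_lit 13) (.e (nat_lit 65610) (nat_lit 10) (.e (nat_lit 344117) (nat_lit 21) (.e (nat_lit 516159) (nat_lit 10) (.e (nat_lit 434213) (nat_lit 18) (.e (nat_lit 7936) (nat_lit 285) .nil))))))) (.g (nat_lit 1) (.e (nat_lit 147177) (nat_lit 0) .nil) .nil))) 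
(.lf (nat_lit 492489) (.g (nat_lit 1976) (.e (nat_lit 163873) (nat_lit 3) (.e (nat_lit 204811) (nat_lit 9) (.e (nat_lit 426230) (nat_lit 9) (.e (nat_lit 426565) (nat_lit 34) (.e (nat_lit 393252) (nat_lit 18) (.e (nat_lit 164330) (nat_lit 230) .nil)))))) (.g (nat_lit 1) (.e (nat_lit 148522) (nat_lit 0) .nil) .nil))))))) (.nd (nat_lit 6) (.nd (nat_lit 7) (.nd (nat_lit 8) (.nd (nat_lit 9) 
(.lf (nat_lit 491561) (.g (nat_lit 4898) (.e (nat_lit 163869) (nat_lit 2) (.e (nat_lit 196668) (nat_lit 14) (.e (nat_lit 73746) (nat_lit 3) (.e (nat_lit 516129) (nat_lit 3) (.e (nat_lit 221214) (nat_lit 23) (.e (nat_lit 204831) (nat_lit 18) (.e (nat_lit 57931) (nat_lit 282) .nil))))))) (.g (nat_lit 1) (.e (nat_lit 146365) (nat_lit 0) .nil) .nil))) 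
(.lf (nat_lit 492073) (.g (nat_lit 3884) (.e (nat_lit 163871) (nat_lit 2) (.e (nat_lit 196654) (nat_lit 11) (.e (nat_lit 16466) (nat_lit 13) (.e (nat_lit 483341) (nat_lit 9) (.e (nat_lit 426107) (nat_lit 1) (.e (nat_lit 164327) (nat_lit 230) .nil)))))) (.g (nat_lit 1) (.e (nat_lit 147353) (nat_lit 0) .nil) .nil)))) (.nd (nat_lit 9) 
(.lf (nat_lit 491817) (.g (nat_lit 3390) (.e (nat_lit 163870) (nat_lit 2) (.e (nat_lit 196666) (nat_lit 13) (.e (nat_lit 65569) (nat_lit 3) (.e (nat_lit 98342) (nat_lit 20) (.e (nat_lit 221213) (nat_lit 23) (.e (nat_lit 204830) (nat_lit 18) (.e (nat_lit 57928) (nat_lit 282) .nil))))))) (.g (nat_lit 1) (.e (nat_lit 146929) (nat_lit 0) .nil) .nil))) 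
(.lf (nat_lit 492329) (.g (nat_lit 1976) (.e (nat_lit 163871) (nat_lit 2) (.e (nat_lit 196672) (nat_lit 15) (.e (nat_lit 81927) (nat_lit 11) (.e (nat_lit 426500) (nat_lit 27) (.e (nat_lit 335988) (nat_lit 1) (.e (nat_lit 57924) (nat_lit 282) .nil)))))) (.g (nat_lit 1) (.e (nat_lit 147865) (nat_lit 0) .nil) .nil))))) (.nd (nat_lit 8) (.nd (nat_lit 9) 
(.lf (nat_lit 491689) (.g (nat_lit 1057) (.e (nat_lit 163869) (nat_lit 2) (.e (nat_lit 196670) (nat_lit 14) (.e (nat_lit 73748) (nat_lit 3) (.e (nat_lit 516131) (nat_lit 3) .nil)))) (.g (nat_lit 0) (.e (nat_lit 146611) (nat_lit 0) .nil) .nil))) 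
(.lf (nat_lit 492201) (.g (nat_lit 2657) (.e (nat_lit 163871) (nat_lit 2) (.e (nat_lit 196668) (nat_lit 14) (.e (nat_lit 73747) (nat_lit 3) (.e (nat_lit 516130) (nat_lit 3) (.e (nat_lit 221214) (nat_lit 23) (.e (nat_lit 204830) (nat_lit 18) (.e (nat_lit 57928) (nat_lit 282) .nil))))))) (.g (nat_lit 1) (.e (nat_lit 147640) (nat_lit 0) .nil) .nil)))) (.nd (nat_lit 9) 
(.lf (nat_lit 491945) (.g (nat_lit 4402) (.e (nat_lit 163870) (nat_lit 2) (.e (nat_lit 196666) (nat_lit 13) (.e (nat_lit 65610) (nat_lit 10) (.e (nat_lit 344117) (nat_lit 21) (.e (nat_lit 516151) (nat_lit 9) (.e (nat_lit 426043) (nat_lit 0) (.e (nat_lit 2424) (nat_lit 157) (.e (nat_lit 4848) (nat_lit 285) .nil)))))))) (.g (nat_lit 1) (.e (nat_lit 147134) (nat_lit 0) .nil) .nil))) 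
(.lf (nat_lit 492457) (.g (nat_lit 2529) (.e (nat_lit 163873) (nat_lit 3) (.e (nat_lit 204809) (nat_lit 9) (.e (nat_lit 426198) (nat_lit 9) (.e (nat_lit 426566) (nat_lit 34) (.e (nat_lit 393252) (nat_lit 18) (.e (nat_lit 164332) (nat_lit 230) .nil)))))) (.g (nat_lit 1) (.e (nat_lit 148391) (nat_lit 0) .nil) .nil)))))) (.nd (nat_lit 7) (.nd (nat_lit 8) (.nd (nat_lit 9) 
(.lf (nat_lit 491625) (.g (nat_lit 2416) (.e (nat_lit 163869) (nat_lit 2) (.e (nat_lit 196670) (nat_lit 14) (.e (nat_lit 73746) (nat_lit 3) (.e (nat_lit 516124) (nat_lit 2) (.e (nat_lit 213034) (nat_lit 12) (.e (nat_lit 163964) (nat_lit 25) (.e (nat_lit 532501) (nat_lit 1) (.e (nat_lit 57926) (nat_lit 282) .nil)))))))) (.g (nat_lit 1) (.e (nat_lit 146519) (nat_lit 0) .nil) .nil))) 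
(.lf (nat_lit 492137) (.g (nat_lit 3332) (.e (nat_lit 163871) (nat_lit 2) (.e (nat_lit 196668) (nat_lit 14) (.e (nat_lit 73746) (nat_lit 3) (.e (nat_lit 516129) (nat_lit 3) (.e (nat_lit 221215) (nat_lit 23) (.e (nat_lit 204829) (nat_lit 18) (.e (nat_lit 57925) (nat_lit 282) .nil))))))) (.g (nat_lit 1) (.e (nat_lit 147516) (nat_lit 0) .nil) .nil)))) (.nd (nat_lit 9) 
(.lf (nat_lit 491881) (.g (nat_lit 3046) (.e (nat_lit 163870) (nat_lit 2) (.e (nat_lit 196666) (nat_lit 13) (.e (nat_lit 65610) (nat_lit 10) (.e (nat_lit 344117) (nat_lit 21) (.e (nat_lit 516144) (nat_lit 9) .nil))))) (.g (nat_lit 0) (.e (nat_lit 147037) (nat_lit 0) .nil) .nil))) 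
(.lf (nat_lit 492393) (.g (nat_lit 868) (.e (nat_lit 163872) (nat_lit 3) (.e (nat_lit 204838) (nat_lit 20) (.e (nat_lit 114718) (nat_lit 23) .nil))) (.g (nat_lit 0) (.e (nat_lit 148302) (nat_lit 0) .nil) .nil))))) (.nd (nat_lit 8) (.nd (nat_lit 9) 
(.lf (nat_lit 491753) (.g (nat_lit 649) (.e (nat_lit 163869) (nat_lit 2) (.e (nat_lit 196681) (nat_lit 17) (.e (nat_lit 131109) (nat_lit 9) (.e (nat_lit 336454) (nat_lit 34) .nil)))) (.g (nat_lit 0) (.e (nat_lit 146831) (nat_lit 0) .nil) .nil))) 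
(.lf (nat_lit 492265) (.g (nat_lit 2655) (.e (nat_lit 163871) (nat_lit 2) (.e (nat_lit 196670) (nat_lit 14) (.e (nat_lit 73746) (nat_lit 3) (.e (nat_lit 516129) (nat_lit 3) (.e (nat_lit 221213) (nat_lit 23) (.e (nat_lit 204830) (nat_lit 18) (.e (nat_lit 57928) (nat_lit 282) .nil))))))) (.g (nat_lit 1) (.e (nat_lit 147793) (nat_lit 0) .nil) .nil)))) (.nd (nat_lit 9) 
(.lf (nat_lit 492009) (.g (nat_lit 3295) (.e (nat_lit 163870) (nat_lit 2) (.e (nat_lit 196666) (nat_lit 13) (.e (nat_lit 65625) (nat_lit 13) (.e (nat_lit 393225) (nat_lit 9) (.e (nat_lit 335995) (nat_lit 1) (.e (nat_lit 57924) (nat_lit 282) .nil)))))) (.g (nat_lit 1) (.e (nat_lit 147239) (nat_lit 0) .nil) .nil))) 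
(.lf (nat_lit 492521) (.g (nat_lit 2190) (.e (nat_lit 163873) (nat_lit 3) (.e (nat_lit 204811) (nat_lit 9) (.e (nat_lit 426262) (nat_lit 9) (.e (nat_lit 426565) (nat_lit 34) (.e (nat_lit 393253) (nat_lit 18) (.e (nat_lit 164331) (nat_lit 230) .nil)))))) (.g (nat_lit 1) (.e (nat_lit 148554) (nat_lit 0) .nil) .nil)))))))) 
(.nd (nat_lit 5) (.nd (nat_lit 6) (.nd (nat_lit 7) (.nd (nat_lit 8) (.nd (nat_lit 9) 
(.lf (nat_lit 491545) (.g (nat_lit 2538) (.e (nat_lit 163869) (nat_lit 2) (.e (nat_lit 196666) (nat_lit 13) (.e (nat_lit 65610) (nat_lit 10) (.e (nat_lit 344117) (nat_lit 21) (.e (nat_lit 516160) (nat_lit 10) (.e (nat_lit 442112) (nat_lit 18) (.e (nat_lit 4849) (nat_lit 285) .nil))))))) (.g (nat_lit 1) (.e (nat_lit 146299) (nat_lit 0) .nil) .nil))) 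
(.lf (nat_lit 492057) (.g (nat_lit 1514) (.e (nat_lit 163871) (nat_lit 2) (.e (nat_lit 196654) (nat_lit 11) (.e (nat_lit 16438) (nat_lit 9) (.e (nat_lit 426489) (nat_lit 27) (.e (nat_lit 336409) (nat_lit 27) .nil))))) (.g (nat_lit 0) (.e (nat_lit 147328) (nat_lit 0) .nil) .nil)))) (.nd (nat_lit 9) 
(.lf (nat_lit 491801) (.g (nat_lit 3046) (.e (nat_lit 163870) (nat_lit 2) (.e (nat_lit 196666) (nat_lit 13) (.e (nat_lit 65569) (nat_lit 3) (.e (nat_lit 98341) (nat_lit 20) (.e (nat_lit 221213) (nat_lit 23) (.e (nat_lit 204830) (nat_lit 18) (.e (nat_lit 57927) (nat_lit 282) .nil))))))) (.g (nat_lit 1) (.e (nat_lit 146910) (nat_lit 0) .nil) .nil))) 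
(.lf (nat_lit 492313) (.g (nat_lit 3446) (.e (nat_lit 163871) (nat_lit 2) (.e (nat_lit 196670) (nat_lit 14) (.e (nat_lit 73753) (nat_lit 8) (.e (nat_lit 557103) (nat_lit 14) (.e (nat_lit 180243) (nat_lit 5) (.e (nat_lit 532503) (nat_lit 1) (.e (nat_lit 65280) (nat_lit 168) .nil))))))) (.g (nat_lit 1) (.e (nat_lit 147846) (nat_lit 0) .nil) .nil))))) (.nd (nat_lit 8) (.nd (nat_lit 9) 
(.lf (nat_lit 491673) (.g (nat_lit 763) (.e (nat_lit 163869) (nat_lit 2) (.e (nat_lit 196670) (nat_lit 14) (.e (nat_lit 73746) (nat_lit 3) (.e (nat_lit 516131) (nat_lit 3) .nil)))) (.g (nat_lit 0) (.e (nat_lit 146581) (nat_lit 0) .nil) .nil))) 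
(.lf (nat_lit 492185) (.g (nat_lit 3320) (.e (nat_lit 163871) (nat_lit 2) (.e (nat_lit 196668) (nat_lit 14) (.e (nat_lit 73747) (nat_lit 3) (.e (nat_lit 516129) (nat_lit 3) (.e (nat_lit 221215) (nat_lit 23) (.e (nat_lit 204828) (nat_lit 18) (.e (nat_lit 57925) (nat_lit 282) .nil))))))) (.g (nat_lit 1) (.e (nat_lit 147624) (nat_lit 0) .nil) .nil)))) (.nd (nat_lit 9) 
(.lf (nat_lit 491929) (.g (nat_lit 3416) (.e (nat_lit 163870) (nat_lit 2) (.e (nat_lit 196666) (nat_lit 13) (.e (nat_lit 65610) (nat_lit 10) (.e (nat_lit 344117) (nat_lit 21) (.e (nat_lit 516151) (nat_lit 9) (.e (nat_lit 426042) (nat_lit 0) (.e (nat_lit 2422) (nat_lit 157) (.e (nat_lit 4848) (nat_lit 285) .nil)))))))) (.g (nat_lit 1) (.e (nat_lit 147118) (nat_lit 0) .nil) .nil))) 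
(.lf (nat_lit 492441) (.g (nat_lit 2994) (.e (nat_lit 163873) (nat_lit 3) (.e (nat_lit 204809) (nat_lit 9) (.e (nat_lit 426189) (nat_lit 9) (.e (nat_lit 426566) (nat_lit 34) (.e (nat_lit 393251) (nat_lit 18) (.e (nat_lit 164325) (nat_lit 230) .nil)))))) (.g (nat_lit 1) (.e (nat_lit 148375) (nat_lit 0) .nil) .nil)))))) (.nd (nat_lit 7) (.nd (nat_lit 8) (.nd (nat_lit 9) 
(.lf (nat_lit 491609) (.g (nat_lit 2363) (.e (nat_lit 163869) (nat_lit 2) (.e (nat_lit 196668) (nat_lit 14) (.e (nat_lit 73753) (nat_lit 8) (.e (nat_lit 557103) (nat_lit 14) (.e (nat_lit 180250) (nat_lit 10) .nil))))) (.g (nat_lit 0) (.e (nat_lit 146493) (nat_lit 0) .nil) .nil))) 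
(.lf (nat_lit 492121) (.g (nat_lit 2204) (.e (nat_lit 163871) (nat_lit 2) (.e (nat_lit 196664) (nat_lit 13) (.e (nat_lit 65571) (nat_lit 3) (.e (nat_lit 98342) (nat_lit 20) (.e (nat_lit 221214) (nat_lit 23) (.e (nat_lit 204830) (nat_lit 18) (.e (nat_lit 57927) (nat_lit 282) .nil))))))) (.g (nat_lit 1) (.e (nat_lit 147463) (nat_lit 0) .nil) .nil)))) (.nd (nat_lit 9) 
(.lf (nat_lit 491865) (.g (nat_lit 3134) (.e (nat_lit 163870) (nat_lit 2) (.e (nat_lit 196666) (nat_lit 13) (.e (nat_lit 65571) (nat_lit 3) (.e (nat_lit 98342) (nat_lit 20) (.e (nat_lit 221215) (nat_lit 23) (.e (nat_lit 204828) (nat_lit 18) (.e (nat_lit 57928) (nat_lit 282) .nil))))))) (.g (nat_lit 1) (.e (nat_lit 147009) (nat_lit 0) .nil) .nil))) 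
(.lf (nat_lit 492377) (.g (nat_lit 3018) (.e (nat_lit 163872) (nat_lit 3) (.e (nat_lit 204838) (nat_lit 20) (.e (nat_lit 114716) (nat_lit 22) (.e (nat_lit 90172) (nat_lit 14) (.e (nat_lit 180244) (nat_lit 5) (.e (nat_lit 532499) (nat_lit 1) (.e (nat_lit 57686) (nat_lit 156) .nil))))))) (.g (nat_lit 1) (.e (nat_lit 148286) (nat_lit 0) .nil) .nil))))) (.nd (nat_lit 8) (.nd (nat_lit 9) 
(.lf (nat_lit 491737) (.g (nat_lit 3686) (.e (nat_lit 163869) (nat_lit 2) (.e (nat_lit 196674) (nat_lit 15) (.e (nat_lit 81925) (nat_lit 11) (.e (nat_lit 426500) (nat_lit 27) (.e (nat_lit 335996) (nat_lit 1) (.e (nat_lit 57930) (nat_lit 282) .nil)))))) (.g (nat_lit 1) (.e (nat_lit 146749) (nat_lit 0) .nil) .nil))) 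
(.lf (nat_lit 492249) (.g (nat_lit 2180) (.e (nat_lit 163871) (nat_lit 2) (.e (nat_lit 196670) (nat_lit 14) (.e (nat_lit 73746) (nat_lit 3) (.e (nat_lit 516124) (nat_lit 2) (.e (nat_lit 220928) (nat_lit 13) (.e (nat_lit 229433) (nat_lit 25) (.e (nat_lit 532501) (nat_lit 1) (.e (nat_lit 57924) (nat_lit 282) .nil)))))))) (.g (nat_lit 1) (.e (nat_lit 147777) (nat_lit 0) .nil) .nil)))) 
(.nd (nat_lit 9) 
(.lf (nat_lit 491993) (.g (nat_lit 5040) (.e (nat_lit 163870) (nat_lit 2) (.e (nat_lit 196666) (nat_lit 13) (.e (nat_lit 65610) (nat_lit 10) (.e (nat_lit 344117) (nat_lit 21) (.e (nat_lit 516160) (nat_lit 10) (.e (nat_lit 434208) (nat_lit 18) (.e (nat_lit 7936) (nat_lit 285) .nil))))))) (.g (nat_lit 1) (.e (nat_lit 147193) (nat_lit 0) .nil) .nil))) 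
(.lf (nat_lit 492505) (.g (nat_lit 1833) (.e (nat_lit 163873) (nat_lit 3) (.e (nat_lit 204811) (nat_lit 9) (.e (nat_lit 426260) (nat_lit 9) (.e (nat_lit 426565) (nat_lit 34) (.e (nat_lit 393253) (nat_lit 18) (.e (nat_lit 164329) (nat_lit 230) .nil)))))) (.g (nat_lit 1) (.e (nat_lit 148538) (nat_lit 0) .nil) .nil))))))) (.nd (nat_lit 6) (.nd (nat_lit 7) (.nd (nat_lit 8) (.nd (nat_lit 9) 
(.lf (nat_lit 491577) (.g (nat_lit 3142) (.e (nat_lit 163869) (nat_lit 2) (.e (nat_lit 196668) (nat_lit 14) (.e (nat_lit 73746) (nat_lit 3) (.e (nat_lit 516131) (nat_lit 3) (.e (nat_lit 221215) (nat_lit 23) (.e (nat_lit 204830) (nat_lit 18) (.e (nat_lit 57929) (nat_lit 282) .nil))))))) (.g (nat_lit 1) (.e (nat_lit 146385) (nat_lit 0) .nil) .nil))) 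
(.lf (nat_lit 492089) (.g (nat_lit 3655) (.e (nat_lit 163871) (nat_lit 2) (.e (nat_lit 196656) (nat_lit 11) (.e (nat_lit 16433) (nat_lit 9) (.e (nat_lit 426566) (nat_lit 34) (.e (nat_lit 393253) (nat_lit 18) (.e (nat_lit 164325) (nat_lit 230) .nil)))))) (.g (nat_lit 1) (.e (nat_lit 147400) (nat_lit 0) .nil) .nil)))) (.nd (nat_lit 9) 
(.lf (nat_lit 491833) (.g (nat_lit 3051) (.e (nat_lit 163870) (nat_lit 2) (.e (nat_lit 196666) (nat_lit 13) (.e (nat_lit 65571) (nat_lit 3) (.e (nat_lit 98341) (nat_lit 20) (.e (nat_lit 221213) (nat_lit 23) (.e (nat_lit 204829) (nat_lit 18) (.e (nat_lit 57926) (nat_lit 282) .nil))))))) (.g (nat_lit 1) (.e (nat_lit 146959) (nat_lit 0) .nil) .nil))) 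
(.lf (nat_lit 492345) (.g (nat_lit 2464) (.e (nat_lit 163872) (nat_lit 3) (.e (nat_lit 204837) (nat_lit 20) (.e (nat_lit 114714) (nat_lit 22) (.e (nat_lit 90172) (nat_lit 14) (.e (nat_lit 180243) (nat_lit 5) .nil))))) (.g (nat_lit 0) (.e (nat_lit 148252) (nat_lit 0) .nil) .nil))))) (.nd (nat_lit 8) (.nd (nat_lit 9) 
(.lf (nat_lit 491705) (.g (nat_lit 3022) (.e (nat_lit 163869) (nat_lit 2) (.e (nat_lit 196670) (nat_lit 14) (.e (nat_lit 73753) (nat_lit 8) (.e (nat_lit 557105) (nat_lit 14) (.e (nat_lit 180244) (nat_lit 5) (.e (nat_lit 532499) (nat_lit 1) (.e (nat_lit 65280) (nat_lit 168) .nil))))))) (.g (nat_lit 1) (.e (nat_lit 146642) (nat_lit 0) .nil) .nil))) 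
(.lf (nat_lit 492217) (.g (nat_lit 3954) (.e (nat_lit 163871) (nat_lit 2) (.e (nat_lit 196668) (nat_lit 14) (.e (nat_lit 73747) (nat_lit 3) (.e (nat_lit 516131) (nat_lit 3) (.e (nat_lit 221214) (nat_lit 23) (.e (nat_lit 204830) (nat_lit 18) (.e (nat_lit 57928) (nat_lit 282) .nil))))))) (.g (nat_lit 1) (.e (nat_lit 147680) (nat_lit 0) .nil) .nil)))) (.nd (nat_lit 9) 
(.lf (nat_lit 491961) (.g (nat_lit 3200) (.e (nat_lit 163870) (nat_lit 2) (.e (nat_lit 196666) (nat_lit 13) (.e (nat_lit 65610) (nat_lit 10) (.e (nat_lit 344117) (nat_lit 21) (.e (nat_lit 516159) (nat_lit 10) (.e (nat_lit 434199) (nat_lit 18) (.e (nat_lit 4849) (nat_lit 285) .nil))))))) (.g (nat_lit 1) (.e (nat_lit 147161) (nat_lit 0) .nil) .nil))) 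
(.lf (nat_lit 492473) (.g (nat_lit 2968) (.e (nat_lit 163873) (nat_lit 3) (.e (nat_lit 204809) (nat_lit 9) (.e (nat_lit 426200) (nat_lit 9) (.e (nat_lit 426566) (nat_lit 34) (.e (nat_lit 393254) (nat_lit 18) (.e (nat_lit 164325) (nat_lit 230) .nil)))))) (.g (nat_lit 1) (.e (nat_lit 148408) (nat_lit 0) .nil) .nil)))))) (.nd (nat_lit 7) (.nd (nat_lit 8) (.nd (nat_lit 9) 
(.lf (nat_lit 491641) (.g (nat_lit 2042) (.e (nat_lit 163869) (nat_lit 2) (.e (nat_lit 196670) (nat_lit 14) (.e (nat_lit 73746) (nat_lit 3) (.e (nat_lit 516127) (nat_lit 2) (.e (nat_lit 213034) (nat_lit 12) (.e (nat_lit 163963) (nat_lit 25) (.e (nat_lit 532501) (nat_lit 1) (.e (nat_lit 57929) (nat_lit 282) .nil)))))))) (.g (nat_lit 1) (.e (nat_lit 146535) (nat_lit 0) .nil) .nil))) 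
(.lf (nat_lit 492153) (.g (nat_lit 2864) (.e (nat_lit 163871) (nat_lit 2) (.e (nat_lit 196668) (nat_lit 14) (.e (nat_lit 73746) (nat_lit 3) (.e (nat_lit 516131) (nat_lit 3) (.e (nat_lit 221214) (nat_lit 23) (.e (nat_lit 204830) (nat_lit 18) (.e (nat_lit 57927) (nat_lit 282) .nil))))))) (.g (nat_lit 1) (.e (nat_lit 147548) (nat_lit 0) .nil) .nil)))) (.nd (nat_lit 9) 
(.lf (nat_lit 491897) (.g (nat_lit 3736) (.e (nat_lit 163870) (nat_lit 2) (.e (nat_lit 196666) (nat_lit 13) (.e (nat_lit 65610) (nat_lit 10) (.e (nat_lit 344117) (nat_lit 21) (.e (nat_lit 516151) (nat_lit 9) (.e (nat_lit 426003) (nat_lit 0) (.e (nat_lit 2400) (nat_lit 157) (.e (nat_lit 4847) (nat_lit 285) .nil)))))))) (.g (nat_lit 1) (.e (nat_lit 147086) (nat_lit 0) .nil) .nil))) 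
(.lf (nat_lit 492409) (.g (nat_lit 2127) (.e (nat_lit 163872) (nat_lit 3) (.e (nat_lit 204863) (nat_lit 27) (.e (nat_lit 344117) (nat_lit 21) (.e (nat_lit 516129) (nat_lit 3) .nil)))) (.g (nat_lit 0) (.e (nat_lit 148331) (nat_lit 0) .nil) .nil))))) (.nd (nat_lit 8) (.nd (nat_lit 9) 
(.lf (nat_lit 491769) (.g (nat_lit 2106) (.e (nat_lit 163869) (nat_lit 2) (.e (nat_lit 196681) (nat_lit 17) (.e (nat_lit 131109) (nat_lit 9) (.e (nat_lit 336456) (nat_lit 34) (.e (nat_lit 483364) (nat_lit 18) (.e (nat_lit 57929) (nat_lit 282) .nil)))))) (.g (nat_lit 1) (.e (nat_lit 146856) (nat_lit 0) .nil) .nil))) 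
(.lf (nat_lit 492281) (.g (nat_lit 3925) (.e (nat_lit 163871) (nat_lit 2) (.e (nat_lit 196670) (nat_lit 14) (.e (nat_lit 73746) (nat_lit 3) (.e (nat_lit 516129) (nat_lit 3) (.e (nat_lit 221215) (nat_lit 23) (.e (nat_lit 204829) (nat_lit 18) (.e (nat_lit 57927) (nat_lit 282) .nil))))))) (.g (nat_lit 1) (.e (nat_lit 147809) (nat_lit 0) .nil) .nil)))) (.nd (nat_lit 9) 
(.lf (nat_lit 492025) (.g (nat_lit 1363) (.e (nat_lit 163870) (nat_lit 2) (.e (nat_lit 196670) (nat_lit 14) (.e (nat_lit 73746) (nat_lit 3) (.e (nat_lit 516124) (nat_lit 2) .nil)))) (.g (nat_lit 0) (.e (nat_lit 147265) (nat_lit 0) .nil) .nil))) 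
(.lf (nat_lit 492537) (.g (nat_lit 4673) (.e (nat_lit 163873) (nat_lit 3) (.e (nat_lit 204813) (nat_lit 9) (.e (nat_lit 426186) (nat_lit 9) (.e (nat_lit 426566) (nat_lit 34) (.e (nat_lit 393253) (nat_lit 18) (.e (nat_lit 164332) (nat_lit 230) .nil)))))) (.g (nat_lit 1) (.e (nat_lit 148612) (nat_lit 0) .nil) .nil)))))))))) 
(.nd (nat_lit 3) (.nd (nat_lit 4) (.nd (nat_lit 5) (.nd (nat_lit 6) (.nd (nat_lit 7) 
(.nd (nat_lit 8) (.nd (nat_lit 9) 
(.lf (nat_lit 491525) (.g (nat_lit 3300) (.e (nat_lit 163869) (nat_lit 2) (.e (nat_lit 196666) (nat_lit 13) (.e (nat_lit 65610) (nat_lit 10) (.e (nat_lit 344117) (nat_lit 21) (.e (nat_lit 516159) (nat_lit 10) (.e (nat_lit 434216) (nat_lit 18) (.e (nat_lit 7936) (nat_lit 285) .nil))))))) (.g (nat_lit 1) (.e (nat_lit 146279) (nat_lit 0) .nil) .nil))) 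
(.lf (nat_lit 492037) (.g (nat_lit 1351) (.e (nat_lit 163871) (nat_lit 2) (.e (nat_lit 196654) (nat_lit 11) (.e (nat_lit 16416) (nat_lit 3) (.e (nat_lit 204837) (nat_lit 20) .nil)))) (.g (nat_lit 0) (.e (nat_lit 147295) (nat_lit 0) .nil) .nil)))) (.nd (nat_lit 9) 
(.lf (nat_lit 491781) (.g (nat_lit 3086) (.e (nat_lit 163869) (nat_lit 2) (.e (nat_lit 196681) (nat_lit 17) (.e (nat_lit 131125) (nat_lit 13) (.e (nat_lit 393229) (nat_lit 9) (.e (nat_lit 335996) (nat_lit 1) (.e (nat_lit 57931) (nat_lit 282) .nil)))))) (.g (nat_lit 1) (.e (nat_lit 146870) (nat_lit 0) .nil) .nil))) 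
(.lf (nat_lit 492293) (.g (nat_lit 3382) (.e (nat_lit 163871) (nat_lit 2) (.e (nat_lit 196670) (nat_lit 14) (.e (nat_lit 73746) (nat_lit 3) (.e (nat_lit 516131) (nat_lit 3) (.e (nat_lit 221214) (nat_lit 23) (.e (nat_lit 204830) (nat_lit 18) (.e (nat_lit 57925) (nat_lit 282) .nil))))))) (.g (nat_lit 1) (.e (nat_lit 147824) (nat_lit 0) .nil) .nil))))) (.nd (nat_lit 8) (.nd (nat_lit 9) 
(.lf (nat_lit 491653) (.g (nat_lit 2946) (.e (nat_lit 163869) (nat_lit 2) (.e (nat_lit 196670) (nat_lit 14) (.e (nat_lit 73746) (nat_lit 3) (.e (nat_lit 516129) (nat_lit 3) (.e (nat_lit 221197) (nat_lit 20) (.e (nat_lit 3250) (nat_lit 197) (.e (nat_lit 532499) (nat_lit 1) (.e (nat_lit 57927) (nat_lit 282) .nil)))))))) (.g (nat_lit 1) (.e (nat_lit 146547) (nat_lit 0) .nil) .nil))) 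
(.lf (nat_lit 492165) (.g (nat_lit 1255) (.e (nat_lit 163871) (nat_lit 2) (.e (nat_lit 196668) (nat_lit 14) (.e (nat_lit 73747) (nat_lit 3) (.e (nat_lit 516122) (nat_lit 2) .nil)))) (.g (nat_lit 0) (.e (nat_lit 147561) (nat_lit 0) .nil) .nil)))) (.nd (nat_lit 9) 
(.lf (nat_lit 491909) (.g (nat_lit 5041) (.e (nat_lit 163870) (nat_lit 2) (.e (nat_lit 196666) (nat_lit 13) (.e (nat_lit 65610) (nat_lit 10) (.e (nat_lit 344117) (nat_lit 21) (.e (nat_lit 516151) (nat_lit 9) (.e (nat_lit 426022) (nat_lit 0) (.e (nat_lit 2403) (nat_lit 157) (.e (nat_lit 4847) (nat_lit 285) .nil)))))))) (.g (nat_lit 1) (.e (nat_lit 147098) (nat_lit 0) .nil) .nil))) 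
(.lf (nat_lit 492421) (.g (nat_lit 1357) (.e (nat_lit 163873) (nat_lit 3) (.e (nat_lit 204809) (nat_lit 9) (.e (nat_lit 426139) (nat_lit 3) (.e (nat_lit 204844) (nat_lit 23) .nil)))) (.g (nat_lit 0) (.e (nat_lit 148355) (nat_lit 0) .nil) .nil)))))) (.nd (nat_lit 7) (.nd (nat_lit 8) (.nd (nat_lit 9) 
(.lf (nat_lit 491589) (.g (nat_lit 4589) (.e (nat_lit 163869) (nat_lit 2) (.e (nat_lit 196668) (nat_lit 14) (.e (nat_lit 73747) (nat_lit 3) (.e (nat_lit 516129) (nat_lit 3) (.e (nat_lit 221215) (nat_lit 23) (.e (nat_lit 204829) (nat_lit 18) (.e (nat_lit 57926) (nat_lit 282) .nil))))))) (.g (nat_lit 1) (.e (nat_lit 146429) (nat_lit 0) .nil) .nil))) 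
(.lf (nat_lit 492101) (.g (nat_lit 2293) (.e (nat_lit 163871) (nat_lit 2) (.e (nat_lit 196656) (nat_lit 11) (.e (nat_lit 16463) (nat_lit 13) (.e (nat_lit 483341) (nat_lit 9) (.e (nat_lit 433920) (nat_lit 1) .nil))))) (.g (nat_lit 0) (.e (nat_lit 147423) (nat_lit 0) .nil) .nil)))) (.nd (nat_lit 9) 
(.lf (nat_lit 491845) (.g (nat_lit 3560) (.e (nat_lit 163870) (nat_lit 2) (.e (nat_lit 196666) (nat_lit 13) (.e (nat_lit 65571) (nat_lit 3) (.e (nat_lit 98341) (nat_lit 20) (.e (nat_lit 221215) (nat_lit 23) (.e (nat_lit 204830) (nat_lit 18) (.e (nat_lit 57924) (nat_lit 282) .nil))))))) (.g (nat_lit 1) (.e (nat_lit 146973) (nat_lit 0) .nil) .nil))) 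
(.lf (nat_lit 492357) (.g (nat_lit 1757) (.e (nat_lit 163872) (nat_lit 3) (.e (nat_lit 204837) (nat_lit 20) (.e (nat_lit 114716) (nat_lit 22) (.e (nat_lit 90174) (nat_lit 14) (.e (nat_lit 180243) (nat_lit 5) .nil))))) (.g (nat_lit 0) (.e (nat_lit 148264) (nat_lit 0) .nil) .nil))))) (.nd (nat_lit 8) (.nd (nat_lit 9) 
(.lf (nat_lit 491717) (.g (nat_lit 3429) (.e (nat_lit 163869) (nat_lit 2) (.e (nat_lit 196670) (nat_lit 14) (.e (nat_lit 73754) (nat_lit 8) (.e (nat_lit 557103) (nat_lit 14) (.e (nat_lit 180244) (nat_lit 5) (.e (nat_lit 532499) (nat_lit 1) (.e (nat_lit 65280) (nat_lit 168) .nil))))))) (.g (nat_lit 1) (.e (nat_lit 146660) (nat_lit 0) .nil) .nil))) 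
(.lf (nat_lit 492229) (.g (nat_lit 468) (.e (nat_lit 163871) (nat_lit 2) (.e (nat_lit 196668) (nat_lit 14) (.e (nat_lit 73753) (nat_lit 8) .nil))) (.g (nat_lit 0) (.e (nat_lit 147709) (nat_lit 0) .nil) .nil)))) (.nd (nat_lit 9) 
(.lf (nat_lit 491973) (.g (nat_lit 3852) (.e (nat_lit 163870) (nat_lit 2) (.e (nat_lit 196666) (nat_lit 13) (.e (nat_lit 65610) (nat_lit 10) (.e (nat_lit 344117) (nat_lit 21) (.e (nat_lit 516159) (nat_lit 10) (.e (nat_lit 434208) (nat_lit 18) (.e (nat_lit 7936) (nat_lit 285) .nil))))))) (.g (nat_lit 1) (.e (nat_lit 147173) (nat_lit 0) .nil) .nil))) 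
(.lf (nat_lit 492485) (.g (nat_lit 473) (.e (nat_lit 163873) (nat_lit 3) (.e (nat_lit 204809) (nat_lit 9) (.e (nat_lit 426213) (nat_lit 9) .nil))) (.g (nat_lit 0) (.e (nat_lit 148421) (nat_lit 0) .nil) .nil))))))) (.nd (nat_lit 6) (.nd (nat_lit 7) (.nd (nat_lit 8) (.nd (nat_lit 9) 
(.lf (nat_lit 491557) (.g (nat_lit 3927) (.e (nat_lit 163869) (nat_lit 2) (.e (nat_lit 196668) (nat_lit 14) (.e (nat_lit 73746) (nat_lit 3) (.e (nat_lit 516129) (nat_lit 3) (.e (nat_lit 221214) (nat_lit 23) (.e (nat_lit 204830) (nat_lit 18) (.e (nat_lit 57926) (nat_lit 282) .nil))))))) (.g (nat_lit 1) (.e (nat_lit 146361) (nat_lit 0) .nil) .nil))) 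
(.lf (nat_lit 492069) (.g (nat_lit 3665) (.e (nat_lit 163871) (nat_lit 2) (.e (nat_lit 196654) (nat_lit 11) (.e (nat_lit 16466) (nat_lit 13) (.e (nat_lit 483337) (nat_lit 9) (.e (nat_lit 426107) (nat_lit 1) (.e (nat_lit 164325) (nat_lit 230) .nil)))))) (.g (nat_lit 1) (.e (nat_lit 147344) (nat_lit 0) .nil) .nil)))) (.nd (nat_lit 9) 
(.lf (nat_lit 491813) (.g (nat_lit 3361) (.e (nat_lit 163870) (nat_lit 2) (.e (nat_lit 196666) (nat_lit 13) (.e (nat_lit 65569) (nat_lit 3) (.e (nat_lit 98342) (nat_lit 20) (.e (nat_lit 221213) (nat_lit 23) (.e (nat_lit 204829) (nat_lit 18) (.e (nat_lit 57926) (nat_lit 282) .nil))))))) (.g (nat_lit 1) (.e (nat_lit 146925) (nat_lit 0) .nil) .nil))) 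
(.lf (nat_lit 492325) (.g (nat_lit 1618) (.e (nat_lit 163871) (nat_lit 2) (.e (nat_lit 196672) (nat_lit 15) (.e (nat_lit 81925) (nat_lit 11) (.e (nat_lit 426500) (nat_lit 27) (.e (nat_lit 335988) (nat_lit 1) (.e (nat_lit 57925) (nat_lit 282) .nil)))))) (.g (nat_lit 1) (.e (nat_lit 147859) (nat_lit 0) .nil) .nil))))) (.nd (nat_lit 8) (.nd (nat_lit 9) 
(.lf (nat_lit 491685) (.g (nat_lit 2467) (.e (nat_lit 163869) (nat_lit 2) (.e (nat_lit 196670) (nat_lit 14) (.e (nat_lit 73746) (nat_lit 3) (.e (nat_lit 516131) (nat_lit 3) (.e (nat_lit 221215) (nat_lit 23) (.e (nat_lit 204830) (nat_lit 18) (.e (nat_lit 57925) (nat_lit 282) .nil))))))) (.g (nat_lit 1) (.e (nat_lit 146605) (nat_lit 0) .nil) .nil))) 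
(.lf (nat_lit 492197) (.g (nat_lit 4298) (.e (nat_lit 163871) (nat_lit 2) (.e (nat_lit 196668) (nat_lit 14) (.e (nat_lit 73747) (nat_lit 3) (.e (nat_lit 516129) (nat_lit 3) (.e (nat_lit 221215) (nat_lit 23) (.e (nat_lit 204830) (nat_lit 18) (.e (nat_lit 57928) (nat_lit 282) .nil))))))) (.g (nat_lit 1) (.e (nat_lit 147636) (nat_lit 0) .nil) .nil)))) (.nd (nat_lit 9) 
(.lf (nat_lit 491941) (.g (nat_lit 3494) (.e (nat_lit 163870) (nat_lit 2) (.e (nat_lit 196666) (nat_lit 13) (.e (nat_lit 65610) (nat_lit 10) (.e (nat_lit 344117) (nat_lit 21) (.e (nat_lit 516151) (nat_lit 9) (.e (nat_lit 426043) (nat_lit 0) (.e (nat_lit 2416) (nat_lit 157) (.e (nat_lit 4849) (nat_lit 285) .nil)))))))) (.g (nat_lit 1) (.e (nat_lit 147130) (nat_lit 0) .nil) .nil))) 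
(.lf (nat_lit 492453) (.g (nat_lit 1475) (.e (nat_lit 163873) (nat_lit 3) (.e (nat_lit 204809) (nat_lit 9) (.e (nat_lit 426198) (nat_lit 9) (.e (nat_lit 426566) (nat_lit 34) .nil)))) (.g (nat_lit 0) (.e (nat_lit 148387) (nat_lit 0) .nil) .nil)))))) (.nd (nat_lit 7) (.nd (nat_lit 8) (.nd (nat_lit 9) 
(.lf (nat_lit 491621) (.g (nat_lit 2228) (.e (nat_lit 163869) (nat_lit 2) (.e (nat_lit 196670) (nat_lit 14) (.e (nat_lit 73746) (nat_lit 3) (.e (nat_lit 516124) (nat_lit 2) (.e (nat_lit 213033) (nat_lit 12) (.e (nat_lit 163964) (nat_lit 25) (.e (nat_lit 532501) (nat_lit 1) (.e (nat_lit 57929) (nat_lit 282) .nil)))))))) (.g (nat_lit 1) (.e (nat_lit 146515) (nat_lit 0) .nil) .nil))) 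
(.lf (nat_lit 492133) (.g (nat_lit 4035) (.e (nat_lit 163871) (nat_lit 2) (.e (nat_lit 196668) (nat_lit 14) (.e (nat_lit 73746) (nat_lit 3) (.e (nat_lit 516129) (nat_lit 3) (.e (nat_lit 221214) (nat_lit 23) (.e (nat_lit 204829) (nat_lit 18) (.e (nat_lit 57927) (nat_lit 282) .nil))))))) (.g (nat_lit 1) (.e (nat_lit 147512) (nat_lit 0) .nil) .nil)))) (.nd (nat_lit 9) 
(.lf (nat_lit 491877) (.g (nat_lit 2921) (.e (nat_lit 163870) (nat_lit 2) (.e (nat_lit 196666) (nat_lit 13) (.e (nat_lit 65610) (nat_lit 10) (.e (nat_lit 344117) (nat_lit 21) (.e (nat_lit 516143) (nat_lit 9) .nil))))) (.g (nat_lit 0) (.e (nat_lit 147033) (nat_lit 0) .nil) .nil))) 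
(.lf (nat_lit 492389) (.g (nat_lit 2609) (.e (nat_lit 163872) (nat_lit 3) (.e (nat_lit 204838) (nat_lit 20) (.e (nat_lit 114716) (nat_lit 22) (.e (nat_lit 90174) (nat_lit 14) (.e (nat_lit 180243) (nat_lit 5) (.e (nat_lit 532502) (nat_lit 1) (.e (nat_lit 57692) (nat_lit 156) .nil))))))) (.g (nat_lit 1) (.e (nat_lit 148298) (nat_lit 0) .nil) .nil))))) (.nd (nat_lit 8) (.nd (nat_lit 9) 
(.lf (nat_lit 491749) (.g (nat_lit 2126) (.e (nat_lit 163869) (nat_lit 2) (.e (nat_lit 196681) (nat_lit 17) (.e (nat_lit 131105) (nat_lit 9) (.e (nat_lit 336456) (nat_lit 34) (.e (nat_lit 483364) (nat_lit 18) (.e (nat_lit 57926) (nat_lit 282) .nil)))))) (.g (nat_lit 1) (.e (nat_lit 146820) (nat_lit 0) .nil) .nil))) 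
(.lf (nat_lit 492261) (.g (nat_lit 2638) (.e (nat_lit 163871) (nat_lit 2) (.e (nat_lit 196670) (nat_lit 14) (.e (nat_lit 73746) (nat_lit 3) (.e (nat_lit 516129) (nat_lit 3) (.e (nat_lit 221204) (nat_lit 20) (.e (nat_lit 3253) (nat_lit 197) (.e (nat_lit 532501) (nat_lit 1) (.e (nat_lit 57925) (nat_lit 282) .nil)))))))) (.g (nat_lit 1) (.e (nat_lit 147789) (nat_lit 0) .nil) .nil)))) 
(.nd (nat_lit 9) 
(.lf (nat_lit 492005) (.g (nat_lit 2963) (.e (nat_lit 163870) (nat_lit 2) (.e (nat_lit 196666) (nat_lit 13) (.e (nat_lit 65625) (nat_lit 13) (.e (nat_lit 393225) (nat_lit 9) (.e (nat_lit 335986) (nat_lit 1) (.e (nat_lit 57927) (nat_lit 282) .nil)))))) (.g (nat_lit 1) (.e (nat_lit 147235) (nat_lit 0) .nil) .nil))) 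
(.lf (nat_lit 492517) (.g (nat_lit 1865) (.e (nat_lit 163873) (nat_lit 3) (.e (nat_lit 204811) (nat_lit 9) (.e (nat_lit 426262) (nat_lit 9) (.e (nat_lit 426565) (nat_lit 34) (.e (nat_lit 393252) (nat_lit 18) (.e (nat_lit 164330) (nat_lit 230) .nil)))))) (.g (nat_lit 1) (.e (nat_lit 148550) (nat_lit 0) .nil) .nil)))))))) 
(.nd (nat_lit 5) (.nd (nat_lit 6) (.nd (nat_lit 7) (.nd (nat_lit 8) (.nd (nat_lit 9) 
(.lf (nat_lit 491541) (.g (nat_lit 2994) (.e (nat_lit 163869) (nat_lit 2) (.e (nat_lit 196666) (nat_lit 13) (.e (nat_lit 65610) (nat_lit 10) (.e (nat_lit 344117) (nat_lit 21) (.e (nat_lit 516160) (nat_lit 10) (.e (nat_lit 434210) (nat_lit 18) (.e (nat_lit 7936) (nat_lit 285) .nil))))))) (.g (nat_lit 1) (.e (nat_lit 146295) (nat_lit 0) .nil) .nil))) 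
(.lf (nat_lit 492053) (.g (nat_lit 2293) (.e (nat_lit 163871) (nat_lit 2) (.e (nat_lit 196654) (nat_lit 11) (.e (nat_lit 16436) (nat_lit 9) (.e (nat_lit 426505) (nat_lit 27) (.e (nat_lit 336408) (nat_lit 27) .nil))))) (.g (nat_lit 0) (.e (nat_lit 147322) (nat_lit 0) .nil) .nil)))) (.nd (nat_lit 9) 
(.lf (nat_lit 491797) (.g (nat_lit 2074) (.e (nat_lit 163870) (nat_lit 2) (.e (nat_lit 196656) (nat_lit 11) (.e (nat_lit 16466) (nat_lit 13) (.e (nat_lit 483341) (nat_lit 9) .nil)))) (.g (nat_lit 0) (.e (nat_lit 146902) (nat_lit 0) .nil) .nil))) 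
(.lf (nat_lit 492309) (.g (nat_lit 3529) (.e (nat_lit 163871) (nat_lit 2) (.e (nat_lit 196670) (nat_lit 14) (.e (nat_lit 73746) (nat_lit 3) (.e (nat_lit 516131) (nat_lit 3) (.e (nat_lit 221215) (nat_lit 23) (.e (nat_lit 204830) (nat_lit 18) (.e (nat_lit 57928) (nat_lit 282) .nil))))))) (.g (nat_lit 1) (.e (nat_lit 147840) (nat_lit 0) .nil) .nil))))) (.nd (nat_lit 8) (.nd (nat_lit 9) 
(.lf (nat_lit 491669) (.g (nat_lit 3143) (.e (nat_lit 163869) (nat_lit 2) (.e (nat_lit 196670) (nat_lit 14) (.e (nat_lit 73746) (nat_lit 3) (.e (nat_lit 516129) (nat_lit 3) (.e (nat_lit 221215) (nat_lit 23) (.e (nat_lit 204830) (nat_lit 18) (.e (nat_lit 57925) (nat_lit 282) .nil))))))) (.g (nat_lit 1) (.e (nat_lit 146576) (nat_lit 0) .nil) .nil))) 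
(.lf (nat_lit 492181) (.g (nat_lit 4952) (.e (nat_lit 163871) (nat_lit 2) (.e (nat_lit 196668) (nat_lit 14) (.e (nat_lit 73747) (nat_lit 3) (.e (nat_lit 516129) (nat_lit 3) (.e (nat_lit 221214) (nat_lit 23) (.e (nat_lit 204830) (nat_lit 18) (.e (nat_lit 57926) (nat_lit 282) .nil))))))) (.g (nat_lit 1) (.e (nat_lit 147617) (nat_lit 0) .nil) .nil)))) (.nd (nat_lit 9) 
(.lf (nat_lit 491925) (.g (nat_lit 3243) (.e (nat_lit 163870) (nat_lit 2) (.e (nat_lit 196666) (nat_lit 13) (.e (nat_lit 65610) (nat_lit 10) (.e (nat_lit 344117) (nat_lit 21) (.e (nat_lit 516151) (nat_lit 9) (.e (nat_lit 426040) (nat_lit 0) (.e (nat_lit 2438) (nat_lit 157) (.e (nat_lit 7936) (nat_lit 285) .nil)))))))) (.g (nat_lit 1) (.e (nat_lit 147114) (nat_lit 0) .nil) .nil))) 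
(.lf (nat_lit 492437) (.g (nat_lit 2192) (.e (nat_lit 163873) (nat_lit 3) (.e (nat_lit 204809) (nat_lit 9) (.e (nat_lit 426188) (nat_lit 9) (.e (nat_lit 426568) (nat_lit 34) (.e (nat_lit 393252) (nat_lit 18) (.e (nat_lit 164331) (nat_lit 230) .nil)))))) (.g (nat_lit 1) (.e (nat_lit 148371) (nat_lit 0) .nil) .nil)))))) (.nd (nat_lit 7) (.nd (nat_lit 8) (.nd (nat_lit 9) 
(.lf (nat_lit 491605) (.g (nat_lit 4351) (.e (nat_lit 163869) (nat_lit 2) (.e (nat_lit 196668) (nat_lit 14) (.e (nat_lit 73753) (nat_lit 8) (.e (nat_lit 557103) (nat_lit 14) (.e (nat_lit 180243) (nat_lit 5) (.e (nat_lit 532501) (nat_lit 1) (.e (nat_lit 65280) (nat_lit 168) .nil))))))) (.g (nat_lit 1) (.e (nat_lit 146489) (nat_lit 0) .nil) .nil))) 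
(.lf (nat_lit 492117) (.g (nat_lit 2928) (.e (nat_lit 163871) (nat_lit 2) (.e (nat_lit 196663) (nat_lit 13) (.e (nat_lit 65571) (nat_lit 3) (.e (nat_lit 98342) (nat_lit 20) (.e (nat_lit 221214) (nat_lit 23) (.e (nat_lit 204830) (nat_lit 18) (.e (nat_lit 57927) (nat_lit 282) .nil))))))) (.g (nat_lit 1) (.e (nat_lit 147459) (nat_lit 0) .nil) .nil)))) (.nd (nat_lit 9) 
(.lf (nat_lit 491861) (.g (nat_lit 5084) (.e (nat_lit 163870) (nat_lit 2) (.e (nat_lit 196666) (nat_lit 13) (.e (nat_lit 65571) (nat_lit 3) (.e (nat_lit 98342) (nat_lit 20) (.e (nat_lit 221214) (nat_lit 23) (.e (nat_lit 204830) (nat_lit 18) (.e (nat_lit 57927) (nat_lit 282) .nil))))))) (.g (nat_lit 1) (.e (nat_lit 147002) (nat_lit 0) .nil) .nil))) 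
(.lf (nat_lit 492373) (.g (nat_lit 1716) (.e (nat_lit 163872) (nat_lit 3) (.e (nat_lit 204838) (nat_lit 20) (.e (nat_lit 114714) (nat_lit 22) (.e (nat_lit 90185) (nat_lit 17) .nil)))) (.g (nat_lit 0) (.e (nat_lit 148281) (nat_lit 0) .nil) .nil))))) (.nd (nat_lit 8) (.nd (nat_lit 9) 
(.lf (nat_lit 491733) (.g (nat_lit 3506) (.e (nat_lit 163869) (nat_lit 2) (.e (nat_lit 196674) (nat_lit 15) (.e (nat_lit 81925) (nat_lit 11) (.e (nat_lit 426500) (nat_lit 27) (.e (nat_lit 335986) (nat_lit 1) (.e (nat_lit 57926) (nat_lit 282) .nil)))))) (.g (nat_lit 1) (.e (nat_lit 146745) (nat_lit 0) .nil) .nil))) 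
(.lf (nat_lit 492245) (.g (nat_lit 2168) (.e (nat_lit 163871) (nat_lit 2) (.e (nat_lit 196670) (nat_lit 14) (.e (nat_lit 73746) (nat_lit 3) (.e (nat_lit 516124) (nat_lit 2) (.e (nat_lit 213036) (nat_lit 13) (.e (nat_lit 229433) (nat_lit 25) (.e (nat_lit 532501) (nat_lit 1) (.e (nat_lit 57924) (nat_lit 282) .nil)))))))) (.g (nat_lit 1) (.e (nat_lit 147773) (nat_lit 0) .nil) .nil)))) 
(.nd (nat_lit 9) 
(.lf (nat_lit 491989) (.g (nat_lit 3457) (.e (nat_lit 163870) (nat_lit 2) (.e (nat_lit 196666) (nat_lit 13) (.e (nat_lit 65610) (nat_lit 10) (.e (nat_lit 344117) (nat_lit 21) (.e (nat_lit 516160) (nat_lit 10) (.e (nat_lit 434204) (nat_lit 18) (.e (nat_lit 7936) (nat_lit 285) .nil))))))) (.g (nat_lit 1) (.e (nat_lit 147189) (nat_lit 0) .nil) .nil))) 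
(.lf (nat_lit 492501) (.g (nat_lit 1997) (.e (nat_lit 163873) (nat_lit 3) (.e (nat_lit 204811) (nat_lit 9) (.e (nat_lit 426259) (nat_lit 9) (.e (nat_lit 426503) (nat_lit 27) (.e (nat_lit 336387) (nat_lit 27) (.e (nat_lit 426100) (nat_lit 1) (.e (nat_lit 164332) (nat_lit 230) .nil))))))) (.g (nat_lit 1) (.e (nat_lit 148534) (nat_lit 0) .nil) .nil))))))) 
(.nd (nat_lit 6) (.nd (nat_lit 7) (.nd (nat_lit 8) (.nd (nat_lit 9) 
(.lf (nat_lit 491573) (.g (nat_lit 3198) (.e (nat_lit 163869) (nat_lit 2) (.e (nat_lit 196668) (nat_lit 14) (.e (nat_lit 73746) (nat_lit 3) (.e (nat_lit 516131) (nat_lit 3) (.e (nat_lit 221214) (nat_lit 23) (.e (nat_lit 204830) (nat_lit 18) (.e (nat_lit 57927) (nat_lit 282) .nil))))))) (.g (nat_lit 1) (.e (nat_lit 146380) (nat_lit 0) .nil) .nil))) 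
(.lf (nat_lit 492085) (.g (nat_lit 2665) (.e (nat_lit 163871) (nat_lit 2) (.e (nat_lit 196656) (nat_lit 11) (.e (nat_lit 16425) (nat_lit 7) (.e (nat_lit 409617) (nat_lit 10) (.e (nat_lit 858) (nat_lit 75) (.e (nat_lit 778323) (nat_lit 5) (.e (nat_lit 73731) (nat_lit 0) (.e (nat_lit 4539) (nat_lit 267) .nil)))))))) (.g (nat_lit 1) (.e (nat_lit 147395) (nat_lit 0) .nil) .nil)))) (.nd (nat_lit 9) 
(.lf (nat_lit 491829) (.g (nat_lit 4517) (.e (nat_lit 163870) (nat_lit 2) (.e (nat_lit 196666) (nat_lit 13) (.e (nat_lit 65569) (nat_lit 3) (.e (nat_lit 98342) (nat_lit 20) (.e (nat_lit 221215) (nat_lit 23) (.e (nat_lit 204830) (nat_lit 18) (.e (nat_lit 57925) (nat_lit 282) .nil))))))) (.g (nat_lit 1) (.e (nat_lit 146944) (nat_lit 0) .nil) .nil))) 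
(.lf (nat_lit 492341) (.g (nat_lit 1744) (.e (nat_lit 163872) (nat_lit 3) (.e (nat_lit 204813) (nat_lit 9) (.e (nat_lit 426188) (nat_lit 9) (.e (nat_lit 426566) (nat_lit 34) .nil)))) (.g (nat_lit 0) (.e (nat_lit 148243) (nat_lit 0) .nil) .nil))))) (.nd (nat_lit 8) (.nd (nat_lit 9) 
(.lf (nat_lit 491701) (.g (nat_lit 1900) (.e (nat_lit 163869) (nat_lit 2) (.e (nat_lit 196670) (nat_lit 14) (.e (nat_lit 73753) (nat_lit 8) (.e (nat_lit 557103) (nat_lit 14) (.e (nat_lit 180250) (nat_lit 10) .nil))))) (.g (nat_lit 0) (.e (nat_lit 146638) (nat_lit 0) .nil) .nil))) 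
(.lf (nat_lit 492213) (.g (nat_lit 3636) (.e (nat_lit 163871) (nat_lit 2) (.e (nat_lit 196668) (nat_lit 14) (.e (nat_lit 73747) (nat_lit 3) (.e (nat_lit 516131) (nat_lit 3) (.e (nat_lit 221214) (nat_lit 23) (.e (nat_lit 204829) (nat_lit 18) (.e (nat_lit 57926) (nat_lit 282) .nil))))))) (.g (nat_lit 1) (.e (nat_lit 147676) (nat_lit 0) .nil) .nil)))) (.nd (nat_lit 9) 
(.lf (nat_lit 491957) (.g (nat_lit 4734) (.e (nat_lit 163870) (nat_lit 2) (.e (nat_lit 196666) (nat_lit 13) (.e (nat_lit 65610) (nat_lit 10) (.e (nat_lit 344117) (nat_lit 21) (.e (nat_lit 516151) (nat_lit 9) (.e (nat_lit 426142) (nat_lit 4) (.e (nat_lit 237312) (nat_lit 219) .nil))))))) (.g (nat_lit 1) (.e (nat_lit 147146) (nat_lit 0) .nil) .nil))) 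
(.lf (nat_lit 492469) (.g (nat_lit 3093) (.e (nat_lit 163873) (nat_lit 3) (.e (nat_lit 204809) (nat_lit 9) (.e (nat_lit 426200) (nat_lit 9) (.e (nat_lit 426566) (nat_lit 34) (.e (nat_lit 393253) (nat_lit 18) (.e (nat_lit 164330) (nat_lit 230) .nil)))))) (.g (nat_lit 1) (.e (nat_lit 148404) (nat_lit 0) .nil) .nil)))))) (.nd (nat_lit 7) (.nd (nat_lit 8) (.nd (nat_lit 9) 
(.lf (nat_lit 491637) (.g (nat_lit 1937) (.e (nat_lit 163869) (nat_lit 2) (.e (nat_lit 196670) (nat_lit 14) (.e (nat_lit 73746) (nat_lit 3) (.e (nat_lit 516126) (nat_lit 2) (.e (nat_lit 213035) (nat_lit 12) (.e (nat_lit 163965) (nat_lit 25) (.e (nat_lit 532500) (nat_lit 1) (.e (nat_lit 57926) (nat_lit 282) .nil)))))))) (.g (nat_lit 1) (.e (nat_lit 146531) (nat_lit 0) .nil) .nil))) 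
(.lf (nat_lit 492149) (.g (nat_lit 2382) (.e (nat_lit 163871) (nat_lit 2) (.e (nat_lit 196668) (nat_lit 14) (.e (nat_lit 73746) (nat_lit 3) (.e (nat_lit 516131) (nat_lit 3) (.e (nat_lit 221214) (nat_lit 23) (.e (nat_lit 204829) (nat_lit 18) (.e (nat_lit 57925) (nat_lit 282) .nil))))))) (.g (nat_lit 1) (.e (nat_lit 147544) (nat_lit 0) .nil) .nil)))) (.nd (nat_lit 9) 
(.lf (nat_lit 491893) (.g (nat_lit 2771) (.e (nat_lit 163870) (nat_lit 2) (.e (nat_lit 196666) (nat_lit 13) (.e (nat_lit 65610) (nat_lit 10) (.e (nat_lit 344117) (nat_lit 21) (.e (nat_lit 516147) (nat_lit 9) .nil))))) (.g (nat_lit 0) (.e (nat_lit 147082) (nat_lit 0) .nil) .nil))) 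
(.lf (nat_lit 492405) (.g (nat_lit 771) (.e (nat_lit 163872) (nat_lit 3) (.e (nat_lit 204861) (nat_lit 26) (.e (nat_lit 336213) (nat_lit 13) .nil))) (.g (nat_lit 0) (.e (nat_lit 148327) (nat_lit 0) .nil) .nil))))) (.nd (nat_lit 8) (.nd (nat_lit 9) 
(.lf (nat_lit 491765) (.g (nat_lit 3052) (.e (nat_lit 163869) (nat_lit 2) (.e (nat_lit 196681) (nat_lit 17) (.e (nat_lit 131109) (nat_lit 9) (.e (nat_lit 336454) (nat_lit 34) (.e (nat_lit 483366) (nat_lit 18) (.e (nat_lit 57931) (nat_lit 282) .nil)))))) (.g (nat_lit 1) (.e (nat_lit 146849) (nat_lit 0) .nil) .nil))) 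
(.lf (nat_lit 492277) (.g (nat_lit 2484) (.e (nat_lit 163871) (nat_lit 2) (.e (nat_lit 196670) (nat_lit 14) (.e (nat_lit 73746) (nat_lit 3) (.e (nat_lit 516129) (nat_lit 3) (.e (nat_lit 221215) (nat_lit 23) (.e (nat_lit 204828) (nat_lit 18) (.e (nat_lit 57925) (nat_lit 282) .nil))))))) (.g (nat_lit 1) (.e (nat_lit 147805) (nat_lit 0) .nil) .nil)))) (.nd (nat_lit 9) 
(.lf (nat_lit 492021) (.g (nat_lit 2524) (.e (nat_lit 163870) (nat_lit 2) (.e (nat_lit 196668) (nat_lit 14) (.e (nat_lit 73747) (nat_lit 3) (.e (nat_lit 516129) (nat_lit 3) (.e (nat_lit 221214) (nat_lit 23) (.e (nat_lit 204830) (nat_lit 18) (.e (nat_lit 57927) (nat_lit 282) .nil))))))) (.g (nat_lit 1) (.e (nat_lit 147261) (nat_lit 0) .nil) .nil))) 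
(.lf (nat_lit 492533) (.g (nat_lit 5052) (.e (nat_lit 163873) (nat_lit 3) (.e (nat_lit 204813) (nat_lit 9) (.e (nat_lit 426186) (nat_lit 9) (.e (nat_lit 426566) (nat_lit 34) (.e (nat_lit 393253) (nat_lit 18) (.e (nat_lit 164327) (nat_lit 230) .nil)))))) (.g (nat_lit 1) (.e (nat_lit 148608) (nat_lit 0) .nil) .nil))))))))) 
(.nd (nat_lit 4) (.nd (nat_lit 5) (.nd (nat_lit 6) (.nd (nat_lit 7) (.nd (nat_lit 8) 
(.nd (nat_lit 9) 
(.lf (nat_lit 491533) (.g (nat_lit 4046) (.e (nat_lit 163869) (nat_lit 2) (.e (nat_lit 196666) (nat_lit 13) (.e (nat_lit 65610) (nat_lit 10) (.e (nat_lit 344117) (nat_lit 21) (.e (nat_lit 516160) (nat_lit 10) (.e (nat_lit 434202) (nat_lit 18) (.e (nat_lit 7936) (nat_lit 285) .nil))))))) (.g (nat_lit 1) (.e (nat_lit 146287) (nat_lit 0) .nil) .nil))) 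
(.lf (nat_lit 492045) (.g (nat_lit 3324) (.e (nat_lit 163871) (nat_lit 2) (.e (nat_lit 196654) (nat_lit 11) (.e (nat_lit 16433) (nat_lit 9) (.e (nat_lit 426568) (nat_lit 34) (.e (nat_lit 393253) (nat_lit 18) (.e (nat_lit 164325) (nat_lit 230) .nil)))))) (.g (nat_lit 1) (.e (nat_lit 147312) (nat_lit 0) .nil) .nil)))) (.nd (nat_lit 9) 
(.lf (nat_lit 491789) (.g (nat_lit 2166) (.e (nat_lit 163869) (nat_lit 2) (.e (nat_lit 196681) (nat_lit 17) (.e (nat_lit 131128) (nat_lit 13) (.e (nat_lit 393229) (nat_lit 9) (.e (nat_lit 335996) (nat_lit 1) (.e (nat_lit 57930) (nat_lit 282) .nil)))))) (.g (nat_lit 1) (.e (nat_lit 146886) (nat_lit 0) .nil) .nil))) 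
(.lf (nat_lit 492301) (.g (nat_lit 2935) (.e (nat_lit 163871) (nat_lit 2) (.e (nat_lit 196670) (nat_lit 14) (.e (nat_lit 73746) (nat_lit 3) (.e (nat_lit 516131) (nat_lit 3) (.e (nat_lit 221215) (nat_lit 23) (.e (nat_lit 204829) (nat_lit 18) (.e (nat_lit 57925) (nat_lit 282) .nil))))))) (.g (nat_lit 1) (.e (nat_lit 147832) (nat_lit 0) .nil) .nil))))) (.nd (nat_lit 8) (.nd (nat_lit 9) 
(.lf (nat_lit 491661) (.g (nat_lit 5362) (.e (nat_lit 163869) (nat_lit 2) (.e (nat_lit 196670) (nat_lit 14) (.e (nat_lit 73746) (nat_lit 3) (.e (nat_lit 516129) (nat_lit 3) (.e (nat_lit 221214) (nat_lit 23) (.e (nat_lit 204830) (nat_lit 18) (.e (nat_lit 57926) (nat_lit 282) .nil))))))) (.g (nat_lit 1) (.e (nat_lit 146567) (nat_lit 0) .nil) .nil))) 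
(.lf (nat_lit 492173) (.g (nat_lit 2399) (.e (nat_lit 163871) (nat_lit 2) (.e (nat_lit 196668) (nat_lit 14) (.e (nat_lit 73747) (nat_lit 3) (.e (nat_lit 516129) (nat_lit 3) (.e (nat_lit 221214) (nat_lit 23) (.e (nat_lit 204828) (nat_lit 18) (.e (nat_lit 57927) (nat_lit 282) .nil))))))) (.g (nat_lit 1) (.e (nat_lit 147609) (nat_lit 0) .nil) .nil)))) (.nd (nat_lit 9) 
(.lf (nat_lit 491917) (.g (nat_lit 3310) (.e (nat_lit 163870) (nat_lit 2) (.e (nat_lit 196666) (nat_lit 13) (.e (nat_lit 65610) (nat_lit 10) (.e (nat_lit 344117) (nat_lit 21) (.e (nat_lit 516151) (nat_lit 9) (.e (nat_lit 426037) (nat_lit 0) (.e (nat_lit 2438) (nat_lit 157) (.e (nat_lit 7936) (nat_lit 285) .nil)))))))) (.g (nat_lit 1) (.e (nat_lit 147106) (nat_lit 0) .nil) .nil))) 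
(.lf (nat_lit 492429) (.g (nat_lit 2970) (.e (nat_lit 163873) (nat_lit 3) (.e (nat_lit 204809) (nat_lit 9) (.e (nat_lit 426188) (nat_lit 9) (.e (nat_lit 426566) (nat_lit 34) (.e (nat_lit 393253) (nat_lit 18) (.e (nat_lit 164330) (nat_lit 230) .nil)))))) (.g (nat_lit 1) (.e (nat_lit 148363) (nat_lit 0) .nil) .nil)))))) (.nd (nat_lit 7) (.nd (nat_lit 8) (.nd (nat_lit 9) 
(.lf (nat_lit 491597) (.g (nat_lit 2815) (.e (nat_lit 163869) (nat_lit 2) (.e (nat_lit 196668) (nat_lit 14) (.e (nat_lit 73747) (nat_lit 3) (.e (nat_lit 516131) (nat_lit 3) (.e (nat_lit 221214) (nat_lit 23) (.e (nat_lit 204829) (nat_lit 18) (.e (nat_lit 57930) (nat_lit 282) .nil))))))) (.g (nat_lit 1) (.e (nat_lit 146457) (nat_lit 0) .nil) .nil))) 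
(.lf (nat_lit 492109) (.g (nat_lit 3681) (.e (nat_lit 163871) (nat_lit 2) (.e (nat_lit 196656) (nat_lit 11) (.e (nat_lit 16466) (nat_lit 13) (.e (nat_lit 483341) (nat_lit 9) (.e (nat_lit 426107) (nat_lit 1) (.e (nat_lit 164325) (nat_lit 230) .nil)))))) (.g (nat_lit 1) (.e (nat_lit 147434) (nat_lit 0) .nil) .nil)))) (.nd (nat_lit 9) 
(.lf (nat_lit 491853) (.g (nat_lit 3329) (.e (nat_lit 163870) (nat_lit 2) (.e (nat_lit 196666) (nat_lit 13) (.e (nat_lit 65571) (nat_lit 3) (.e (nat_lit 98342) (nat_lit 20) (.e (nat_lit 221213) (nat_lit 23) (.e (nat_lit 204830) (nat_lit 18) (.e (nat_lit 57928) (nat_lit 282) .nil))))))) (.g (nat_lit 1) (.e (nat_lit 146993) (nat_lit 0) .nil) .nil))) 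
(.lf (nat_lit 492365) (.g (nat_lit 2461) (.e (nat_lit 163872) (nat_lit 3) (.e (nat_lit 204838) (nat_lit 20) (.e (nat_lit 114714) (nat_lit 22) (.e (nat_lit 90172) (nat_lit 14) (.e (nat_lit 180244) (nat_lit 5) .nil))))) (.g (nat_lit 0) (.e (nat_lit 148273) (nat_lit 0) .nil) .nil))))) (.nd (nat_lit 8) (.nd (nat_lit 9) 
(.lf (nat_lit 491725) (.g (nat_lit 2784) (.e (nat_lit 163869) (nat_lit 2) (.e (nat_lit 196670) (nat_lit 14) (.e (nat_lit 73755) (nat_lit 8) (.e (nat_lit 557103) (nat_lit 14) (.e (nat_lit 180244) (nat_lit 5) .nil))))) (.g (nat_lit 0) (.e (nat_lit 146669) (nat_lit 0) .nil) .nil))) 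
(.lf (nat_lit 492237) (.g (nat_lit 3025) (.e (nat_lit 163871) (nat_lit 2) (.e (nat_lit 196668) (nat_lit 14) (.e (nat_lit 73753) (nat_lit 8) (.e (nat_lit 557103) (nat_lit 14) (.e (nat_lit 180252) (nat_lit 10) .nil))))) (.g (nat_lit 0) (.e (nat_lit 147758) (nat_lit 0) .nil) .nil)))) (.nd (nat_lit 9) 
(.lf (nat_lit 491981) (.g (nat_lit 3043) (.e (nat_lit 163870) (nat_lit 2) (.e (nat_lit 196666) (nat_lit 13) (.e (nat_lit 65610) (nat_lit 10) (.e (nat_lit 344117) (nat_lit 21) (.e (nat_lit 516160) (nat_lit 10) (.e (nat_lit 434199) (nat_lit 18) (.e (nat_lit 4849) (nat_lit 285) .nil))))))) (.g (nat_lit 1) (.e (nat_lit 147181) (nat_lit 0) .nil) .nil))) 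
(.lf (nat_lit 492493) (.g (nat_lit 1796) (.e (nat_lit 163873) (nat_lit 3) (.e (nat_lit 204811) (nat_lit 9) (.e (nat_lit 426232) (nat_lit 9) (.e (nat_lit 426565) (nat_lit 34) (.e (nat_lit 393252) (nat_lit 18) (.e (nat_lit 164332) (nat_lit 230) .nil)))))) (.g (nat_lit 1) (.e (nat_lit 148526) (nat_lit 0) .nil) .nil))))))) (.nd (nat_lit 6) (.nd (nat_lit 7) (.nd (nat_lit 8) (.nd (nat_lit 9) 
(.lf (nat_lit 491565) (.g (nat_lit 3765) (.e (nat_lit 163869) (nat_lit 2) (.e (nat_lit 196668) (nat_lit 14) (.e (nat_lit 73746) (nat_lit 3) (.e (nat_lit 516129) (nat_lit 3) (.e (nat_lit 221215) (nat_lit 23) (.e (nat_lit 204830) (nat_lit 18) (.e (nat_lit 57926) (nat_lit 282) .nil))))))) (.g (nat_lit 1) (.e (nat_lit 146371) (nat_lit 0) .nil) .nil))) 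
(.lf (nat_lit 492077) (.g (nat_lit 1018) (.e (nat_lit 163871) (nat_lit 2) (.e (nat_lit 196655) (nat_lit 11) (.e (nat_lit 16465) (nat_lit 13) (.e (nat_lit 483339) (nat_lit 9) (.e (nat_lit 426071) (nat_lit 0) .nil))))) (.g (nat_lit 0) (.e (nat_lit 147361) (nat_lit 0) .nil) .nil)))) (.nd (nat_lit 9) 
(.lf (nat_lit 491821) (.g (nat_lit 4220) (.e (nat_lit 163870) (nat_lit 2) (.e (nat_lit 196666) (nat_lit 13) (.e (nat_lit 65569) (nat_lit 3) (.e (nat_lit 98342) (nat_lit 20) (.e (nat_lit 221214) (nat_lit 23) (.e (nat_lit 204830) (nat_lit 18) (.e (nat_lit 57924) (nat_lit 282) .nil))))))) (.g (nat_lit 1) (.e (nat_lit 146934) (nat_lit 0) .nil) .nil))) 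
(.lf (nat_lit 492333) (.g (nat_lit 387) (.e (nat_lit 163871) (nat_lit 2) (.e (nat_lit 196674) (nat_lit 15) (.e (nat_lit 81925) (nat_lit 11) .nil))) (.g (nat_lit 0) (.e (nat_lit 148066) (nat_lit 0) .nil) .nil))))) (.nd (nat_lit 8) (.nd (nat_lit 9) 
(.lf (nat_lit 491693) (.g (nat_lit 4875) (.e (nat_lit 163869) (nat_lit 2) (.e (nat_lit 196670) (nat_lit 14) (.e (nat_lit 73753) (nat_lit 8) (.e (nat_lit 557103) (nat_lit 14) (.e (nat_lit 180243) (nat_lit 5) (.e (nat_lit 532499) (nat_lit 1) (.e (nat_lit 65280) (nat_lit 168) .nil))))))) (.g (nat_lit 1) (.e (nat_lit 146630) (nat_lit 0) .nil) .nil))) 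
(.lf (nat_lit 492205) (.g (nat_lit 2721) (.e (nat_lit 163871) (nat_lit 2) (.e (nat_lit 196668) (nat_lit 14) (.e (nat_lit 73747) (nat_lit 3) (.e (nat_lit 516130) (nat_lit 3) (.e (nat_lit 221215) (nat_lit 23) (.e (nat_lit 204830) (nat_lit 18) (.e (nat_lit 57925) (nat_lit 282) .nil))))))) (.g (nat_lit 1) (.e (nat_lit 147644) (nat_lit 0) .nil) .nil)))) (.nd (nat_lit 9) 
(.lf (nat_lit 491949) (.g (nat_lit 3548) (.e (nat_lit 163870) (nat_lit 2) (.e (nat_lit 196666) (nat_lit 13) (.e (nat_lit 65610) (nat_lit 10) (.e (nat_lit 344117) (nat_lit 21) (.e (nat_lit 516151) (nat_lit 9) (.e (nat_lit 426050) (nat_lit 0) (.e (nat_lit 2416) (nat_lit 157) (.e (nat_lit 4848) (nat_lit 285) .nil)))))))) (.g (nat_lit 1) (.e (nat_lit 147138) (nat_lit 0) .nil) .nil))) 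
(.lf (nat_lit 492461) (.g (nat_lit 2973) (.e (nat_lit 163873) (nat_lit 3) (.e (nat_lit 204809) (nat_lit 9) (.e (nat_lit 426198) (nat_lit 9) (.e (nat_lit 426566) (nat_lit 34) (.e (nat_lit 393253) (nat_lit 18) (.e (nat_lit 164331) (nat_lit 230) .nil)))))) (.g (nat_lit 1) (.e (nat_lit 148395) (nat_lit 0) .nil) .nil)))))) (.nd (nat_lit 7) (.nd (nat_lit 8) (.nd (nat_lit 9) 
(.lf (nat_lit 491629) (.g (nat_lit 2299) (.e (nat_lit 163869) (nat_lit 2) (.e (nat_lit 196670) (nat_lit 14) (.e (nat_lit 73746) (nat_lit 3) (.e (nat_lit 516124) (nat_lit 2) (.e (nat_lit 213035) (nat_lit 12) (.e (nat_lit 163963) (nat_lit 25) (.e (nat_lit 532504) (nat_lit 1) (.e (nat_lit 57929) (nat_lit 282) .nil)))))))) (.g (nat_lit 1) (.e (nat_lit 146523) (nat_lit 0) .nil) .nil))) 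
(.lf (nat_lit 492141) (.g (nat_lit 2762) (.e (nat_lit 163871) (nat_lit 2) (.e (nat_lit 196668) (nat_lit 14) (.e (nat_lit 73746) (nat_lit 3) (.e (nat_lit 516129) (nat_lit 3) (.e (nat_lit 221215) (nat_lit 23) (.e (nat_lit 204830) (nat_lit 18) (.e (nat_lit 57924) (nat_lit 282) .nil))))))) (.g (nat_lit 1) (.e (nat_lit 147520) (nat_lit 0) .nil) .nil)))) (.nd (nat_lit 9) 
(.lf (nat_lit 491885) (.g (nat_lit 2855) (.e (nat_lit 163870) (nat_lit 2) (.e (nat_lit 196666) (nat_lit 13) (.e (nat_lit 65610) (nat_lit 10) (.e (nat_lit 344117) (nat_lit 21) (.e (nat_lit 516145) (nat_lit 9) (.e (nat_lit 425986) (nat_lit 0) (.e (nat_lit 2431) (nat_lit 157) (.e (nat_lit 4848) (nat_lit 285) .nil)))))))) (.g (nat_lit 1) (.e (nat_lit 147041) (nat_lit 0) .nil) .nil))) 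
(.lf (nat_lit 492397) (.g (nat_lit 4801) (.e (nat_lit 163872) (nat_lit 3) (.e (nat_lit 204838) (nat_lit 20) (.e (nat_lit 114719) (nat_lit 23) (.e (nat_lit 98356) (nat_lit 26) (.e (nat_lit 426438) (nat_lit 18) (.e (nat_lit 98334) (nat_lit 18) (.e (nat_lit 164330) (nat_lit 230) .nil))))))) (.g (nat_lit 1) (.e (nat_lit 148308) (nat_lit 0) .nil) .nil))))) (.nd (nat_lit 8) (.nd (nat_lit 9) 
(.lf (nat_lit 491757) (.g (nat_lit 3056) (.e (nat_lit 163869) (nat_lit 2) (.e (nat_lit 196681) (nat_lit 17) (.e (nat_lit 131109) (nat_lit 9) (.e (nat_lit 336454) (nat_lit 34) (.e (nat_lit 483363) (nat_lit 18) (.e (nat_lit 57930) (nat_lit 282) .nil)))))) (.g (nat_lit 1) (.e (nat_lit 146841) (nat_lit 0) .nil) .nil))) 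
(.lf (nat_lit 492269) (.g (nat_lit 3932) (.e (nat_lit 163871) (nat_lit 2) (.e (nat_lit 196670) (nat_lit 14) (.e (nat_lit 73746) (nat_lit 3) (.e (nat_lit 516129) (nat_lit 3) (.e (nat_lit 221214) (nat_lit 23) (.e (nat_lit 204829) (nat_lit 18) (.e (nat_lit 57926) (nat_lit 282) .nil))))))) (.g (nat_lit 1) (.e (nat_lit 147797) (nat_lit 0) .nil) .nil)))) (.nd (nat_lit 9) 
(.lf (nat_lit 492013) (.g (nat_lit 2785) (.e (nat_lit 163870) (nat_lit 2) (.e (nat_lit 196666) (nat_lit 13) (.e (nat_lit 65625) (nat_lit 13) (.e (nat_lit 393229) (nat_lit 9) (.e (nat_lit 335986) (nat_lit 1) (.e (nat_lit 57927) (nat_lit 282) .nil)))))) (.g (nat_lit 1) (.e (nat_lit 147243) (nat_lit 0) .nil) .nil))) 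
(.lf (nat_lit 492525) (.g (nat_lit 459) (.e (nat_lit 163873) (nat_lit 3) (.e (nat_lit 204813) (nat_lit 9) (.e (nat_lit 426139) (nat_lit 3) .nil))) (.g (nat_lit 0) (.e (nat_lit 148579) (nat_lit 0) .nil) .nil)))))))) (.nd (nat_lit 5) (.nd (nat_lit 6) (.nd (nat_lit 7) (.nd (nat_lit 8) (.nd (nat_lit 9) 
(.lf (nat_lit 491549) (.g (nat_lit 431) (.e (nat_lit 163869) (nat_lit 2) (.e (nat_lit 196666) (nat_lit 13) (.e (nat_lit 65627) (nat_lit 13) .nil))) (.g (nat_lit 0) (.e (nat_lit 146329) (nat_lit 0) .nil) .nil))) 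
(.lf (nat_lit 492061) (.g (nat_lit 2592) (.e (nat_lit 163871) (nat_lit 2) (.e (nat_lit 196654) (nat_lit 11) (.e (nat_lit 16463) (nat_lit 13) (.e (nat_lit 483337) (nat_lit 9) (.e (nat_lit 426097) (nat_lit 1) .nil))))) (.g (nat_lit 0) (.e (nat_lit 147332) (nat_lit 0) .nil) .nil)))) (.nd (nat_lit 9) 
(.lf (nat_lit 491805) (.g (nat_lit 4134) (.e (nat_lit 163870) (nat_lit 2) (.e (nat_lit 196666) (nat_lit 13) (.e (nat_lit 65569) (nat_lit 3) (.e (nat_lit 98341) (nat_lit 20) (.e (nat_lit 221214) (nat_lit 23) (.e (nat_lit 204830) (nat_lit 18) (.e (nat_lit 57925) (nat_lit 282) .nil))))))) (.g (nat_lit 1) (.e (nat_lit 146914) (nat_lit 0) .nil) .nil))) 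
(.lf (nat_lit 492317) (.g (nat_lit 3798) (.e (nat_lit 163871) (nat_lit 2) (.e (nat_lit 196670) (nat_lit 14) (.e (nat_lit 73753) (nat_lit 8) (.e (nat_lit 557103) (nat_lit 14) (.e (nat_lit 180244) (nat_lit 5) (.e (nat_lit 532503) (nat_lit 1) (.e (nat_lit 65280) (nat_lit 168) .nil))))))) (.g (nat_lit 1) (.e (nat_lit 147850) (nat_lit 0) .nil) .nil))))) (.nd (nat_lit 8) (.nd (nat_lit 9) 
(.lf (nat_lit 491677) (.g (nat_lit 2054) (.e (nat_lit 163869) (nat_lit 2) (.e (nat_lit 196670) (nat_lit 14) (.e (nat_lit 73746) (nat_lit 3) (.e (nat_lit 516131) (nat_lit 3) (.e (nat_lit 221214) (nat_lit 23) (.e (nat_lit 204828) (nat_lit 18) (.e (nat_lit 57927) (nat_lit 282) .nil))))))) (.g (nat_lit 1) (.e (nat_lit 146597) (nat_lit 0) .nil) .nil))) 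
(.lf (nat_lit 492189) (.g (nat_lit 4309) (.e (nat_lit 163871) (nat_lit 2) (.e (nat_lit 196668) (nat_lit 14) (.e (nat_lit 73747) (nat_lit 3) (.e (nat_lit 516129) (nat_lit 3) (.e (nat_lit 221215) (nat_lit 23) (.e (nat_lit 204829) (nat_lit 18) (.e (nat_lit 57925) (nat_lit 282) .nil))))))) (.g (nat_lit 1) (.e (nat_lit 147628) (nat_lit 0) .nil) .nil)))) (.nd (nat_lit 9) 
(.lf (nat_lit 491933) (.g (nat_lit 3858) (.e (nat_lit 163870) (nat_lit 2) (.e (nat_lit 196666) (nat_lit 13) (.e (nat_lit 65610) (nat_lit 10) (.e (nat_lit 344117) (nat_lit 21) (.e (nat_lit 516151) (nat_lit 9) (.e (nat_lit 426042) (nat_lit 0) (.e (nat_lit 2424) (nat_lit 157) (.e (nat_lit 7936) (nat_lit 285) .nil)))))))) (.g (nat_lit 1) (.e (nat_lit 147122) (nat_lit 0) .nil) .nil))) 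
(.lf (nat_lit 492445) (.g (nat_lit 2758) (.e (nat_lit 163873) (nat_lit 3) (.e (nat_lit 204809) (nat_lit 9) (.e (nat_lit 426190) (nat_lit 9) (.e (nat_lit 426566) (nat_lit 34) (.e (nat_lit 393251) (nat_lit 18) (.e (nat_lit 164327) (nat_lit 230) .nil)))))) (.g (nat_lit 1) (.e (nat_lit 148379) (nat_lit 0) .nil) .nil)))))) (.nd (nat_lit 7) (.nd (nat_lit 8) (.nd (nat_lit 9) 
(.lf (nat_lit 491613) (.g (nat_lit 1112) (.e (nat_lit 163869) (nat_lit 2) (.e (nat_lit 196669) (nat_lit 14) (.e (nat_lit 73754) (nat_lit 8) (.e (nat_lit 557103) (nat_lit 14) .nil)))) (.g (nat_lit 0) (.e (nat_lit 146502) (nat_lit 0) .nil) .nil))) 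
(.lf (nat_lit 492125) (.g (nat_lit 2824) (.e (nat_lit 163871) (nat_lit 2) (.e (nat_lit 196666) (nat_lit 13) (.e (nat_lit 65610) (nat_lit 10) (.e (nat_lit 344129) (nat_lit 26) (.e (nat_lit 557087) (nat_lit 11) .nil))))) (.g (nat_lit 0) (.e (nat_lit 147467) (nat_lit 0) .nil) .nil)))) (.nd (nat_lit 9) 
(.lf (nat_lit 491869) (.g (nat_lit 4129) (.e (nat_lit 163870) (nat_lit 2) (.e (nat_lit 196666) (nat_lit 13) (.e (nat_lit 65571) (nat_lit 3) (.e (nat_lit 98342) (nat_lit 20) (.e (nat_lit 221215) (nat_lit 23) (.e (nat_lit 204829) (nat_lit 18) (.e (nat_lit 57928) (nat_lit 282) .nil))))))) (.g (nat_lit 1) (.e (nat_lit 147013) (nat_lit 0) .nil) .nil))) 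
(.lf (nat_lit 492381) (.g (nat_lit 2656) (.e (nat_lit 163872) (nat_lit 3) (.e (nat_lit 204838) (nat_lit 20) (.e (nat_lit 114716) (nat_lit 22) (.e (nat_lit 90172) (nat_lit 14) (.e (nat_lit 180244) (nat_lit 5) (.e (nat_lit 532501) (nat_lit 1) (.e (nat_lit 57692) (nat_lit 156) .nil))))))) (.g (nat_lit 1) (.e (nat_lit 148290) (nat_lit 0) .nil) .nil))))) (.nd (nat_lit 8) (.nd (nat_lit 9) 
(.lf (nat_lit 491741) (.g (nat_lit 2881) (.e (nat_lit 163869) (nat_lit 2) (.e (nat_lit 196681) (nat_lit 17) (.e (nat_lit 131105) (nat_lit 9) (.e (nat_lit 336454) (nat_lit 34) (.e (nat_lit 483363) (nat_lit 18) (.e (nat_lit 57927) (nat_lit 282) .nil)))))) (.g (nat_lit 1) (.e (nat_lit 146811) (nat_lit 0) .nil) .nil))) 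
(.lf (nat_lit 492253) (.g (nat_lit 3741) (.e (nat_lit 163871) (nat_lit 2) (.e (nat_lit 196670) (nat_lit 14) (.e (nat_lit 73746) (nat_lit 3) (.e (nat_lit 516126) (nat_lit 2) (.e (nat_lit 213036) (nat_lit 13) (.e (nat_lit 229433) (nat_lit 25) (.e (nat_lit 532501) (nat_lit 1) (.e (nat_lit 57928) (nat_lit 282) .nil)))))))) (.g (nat_lit 1) (.e (nat_lit 147781) (nat_lit 0) .nil) .nil)))) 
(.nd (nat_lit 9) 
(.lf (nat_lit 491997) (.g (nat_lit 3060) (.e (nat_lit 163870) (nat_lit 2) (.e (nat_lit 196666) (nat_lit 13) (.e (nat_lit 65610) (nat_lit 10) (.e (nat_lit 344117) (nat_lit 21) (.e (nat_lit 516160) (nat_lit 10) (.e (nat_lit 434213) (nat_lit 18) (.e (nat_lit 7936) (nat_lit 285) .nil))))))) (.g (nat_lit 1) (.e (nat_lit 147197) (nat_lit 0) .nil) .nil))) 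
(.lf (nat_lit 492509) (.g (nat_lit 1753) (.e (nat_lit 163873) (nat_lit 3) (.e (nat_lit 204811) (nat_lit 9) (.e (nat_lit 426260) (nat_lit 9) (.e (nat_lit 426565) (nat_lit 34) (.e (nat_lit 393254) (nat_lit 18) (.e (nat_lit 164325) (nat_lit 230) .nil)))))) (.g (nat_lit 1) (.e (nat_lit 148542) (nat_lit 0) .nil) .nil))))))) (.nd (nat_lit 6) (.nd (nat_lit 7) (.nd (nat_lit 8) (.nd (nat_lit 9) 
(.lf (nat_lit 491581) (.g (nat_lit 4688) (.e (nat_lit 163869) (nat_lit 2) (.e (nat_lit 196668) (nat_lit 14) (.e (nat_lit 73747) (nat_lit 3) (.e (nat_lit 516129) (nat_lit 3) (.e (nat_lit 221214) (nat_lit 23) (.e (nat_lit 204829) (nat_lit 18) (.e (nat_lit 57926) (nat_lit 282) .nil))))))) (.g (nat_lit 1) (.e (nat_lit 146416) (nat_lit 0) .nil) .nil))) 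
(.lf (nat_lit 492093) (.g (nat_lit 3573) (.e (nat_lit 163871) (nat_lit 2) (.e (nat_lit 196656) (nat_lit 11) (.e (nat_lit 16438) (nat_lit 9) (.e (nat_lit 426482) (nat_lit 27) (.e (nat_lit 336388) (nat_lit 27) (.e (nat_lit 426107) (nat_lit 1) (.e (nat_lit 164326) (nat_lit 230) .nil))))))) (.g (nat_lit 1) (.e (nat_lit 147406) (nat_lit 0) .nil) .nil)))) (.nd (nat_lit 9) 
(.lf (nat_lit 491837) (.g (nat_lit 4014) (.e (nat_lit 163870) (nat_lit 2) (.e (nat_lit 196666) (nat_lit 13) (.e (nat_lit 65571) (nat_lit 3) (.e (nat_lit 98341) (nat_lit 20) (.e (nat_lit 221214) (nat_lit 23) (.e (nat_lit 204829) (nat_lit 18) (.e (nat_lit 57928) (nat_lit 282) .nil))))))) (.g (nat_lit 1) (.e (nat_lit 146964) (nat_lit 0) .nil) .nil))) 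
(.lf (nat_lit 492349) (.g (nat_lit 2168) (.e (nat_lit 163872) (nat_lit 3) (.e (nat_lit 204837) (nat_lit 20) (.e (nat_lit 114714) (nat_lit 22) (.e (nat_lit 90174) (nat_lit 14) (.e (nat_lit 180243) (nat_lit 5) .nil))))) (.g (nat_lit 0) (.e (nat_lit 148256) (nat_lit 0) .nil) .nil))))) (.nd (nat_lit 8) (.nd (nat_lit 9) 
(.lf (nat_lit 491709) (.g (nat_lit 1605) (.e (nat_lit 163869) (nat_lit 2) (.e (nat_lit 196670) (nat_lit 14) (.e (nat_lit 73753) (nat_lit 8) (.e (nat_lit 557105) (nat_lit 14) (.e (nat_lit 180252) (nat_lit 10) .nil))))) (.g (nat_lit 0) (.e (nat_lit 146646) (nat_lit 0) .nil) .nil))) 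
(.lf (nat_lit 492221) (.g (nat_lit 3828) (.e (nat_lit 163871) (nat_lit 2) (.e (nat_lit 196668) (nat_lit 14) (.e (nat_lit 73747) (nat_lit 3) (.e (nat_lit 516131) (nat_lit 3) (.e (nat_lit 221215) (nat_lit 23) (.e (nat_lit 204829) (nat_lit 18) (.e (nat_lit 57925) (nat_lit 282) .nil))))))) (.g (nat_lit 1) (.e (nat_lit 147688) (nat_lit 0) .nil) .nil)))) (.nd (nat_lit 9) 
(.lf (nat_lit 491965) (.g (nat_lit 3045) (.e (nat_lit 163870) (nat_lit 2) (.e (nat_lit 196666) (nat_lit 13) (.e (nat_lit 65610) (nat_lit 10) (.e (nat_lit 344117) (nat_lit 21) (.e (nat_lit 516159) (nat_lit 10) (.e (nat_lit 434201) (nat_lit 18) (.e (nat_lit 4848) (nat_lit 285) .nil))))))) (.g (nat_lit 1) (.e (nat_lit 147165) (nat_lit 0) .nil) .nil))) 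
(.lf (nat_lit 492477) (.g (nat_lit 3050) (.e (nat_lit 163873) (nat_lit 3) (.e (nat_lit 204809) (nat_lit 9) (.e (nat_lit 426200) (nat_lit 9) (.e (nat_lit 426568) (nat_lit 34) (.e (nat_lit 393251) (nat_lit 18) (.e (nat_lit 164332) (nat_lit 230) .nil)))))) (.g (nat_lit 1) (.e (nat_lit 148412) (nat_lit 0) .nil) .nil)))))) (.nd (nat_lit 7) (.nd (nat_lit 8) (.nd (nat_lit 9) 
(.lf (nat_lit 491645) (.g (nat_lit 2055) (.e (nat_lit 163869) (nat_lit 2) (.e (nat_lit 196670) (nat_lit 14) (.e (nat_lit 73746) (nat_lit 3) (.e (nat_lit 516127) (nat_lit 2) (.e (nat_lit 213035) (nat_lit 12) (.e (nat_lit 163963) (nat_lit 25) (.e (nat_lit 532501) (nat_lit 1) (.e (nat_lit 57929) (nat_lit 282) .nil)))))))) (.g (nat_lit 1) (.e (nat_lit 146539) (nat_lit 0) .nil) .nil))) 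
(.lf (nat_lit 492157) (.g (nat_lit 2403) (.e (nat_lit 163871) (nat_lit 2) (.e (nat_lit 196668) (nat_lit 14) (.e (nat_lit 73746) (nat_lit 3) (.e (nat_lit 516131) (nat_lit 3) (.e (nat_lit 221215) (nat_lit 23) (.e (nat_lit 204828) (nat_lit 18) (.e (nat_lit 57927) (nat_lit 282) .nil))))))) (.g (nat_lit 1) (.e (nat_lit 147553) (nat_lit 0) .nil) .nil)))) (.nd (nat_lit 9) 
(.lf (nat_lit 491901) (.g (nat_lit 3510) (.e (nat_lit 163870) (nat_lit 2) (.e (nat_lit 196666) (nat_lit 13) (.e (nat_lit 65610) (nat_lit 10) (.e (nat_lit 344117) (nat_lit 21) (.e (nat_lit 516151) (nat_lit 9) (.e (nat_lit 426017) (nat_lit 0) (.e (nat_lit 2431) (nat_lit 157) (.e (nat_lit 4848) (nat_lit 285) .nil)))))))) (.g (nat_lit 1) (.e (nat_lit 147090) (nat_lit 0) .nil) .nil))) 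
(.lf (nat_lit 492413) (.g (nat_lit 2166) (.e (nat_lit 163872) (nat_lit 3) (.e (nat_lit 204863) (nat_lit 27) (.e (nat_lit 344117) (nat_lit 21) (.e (nat_lit 516130) (nat_lit 3) (.e (nat_lit 221215) (nat_lit 23) .nil))))) (.g (nat_lit 0) (.e (nat_lit 148335) (nat_lit 0) .nil) .nil))))) (.nd (nat_lit 8) (.nd (nat_lit 9) 
(.lf (nat_lit 491773) (.g (nat_lit 2867) (.e (nat_lit 163869) (nat_lit 2) (.e (nat_lit 196681) (nat_lit 17) (.e (nat_lit 131125) (nat_lit 13) (.e (nat_lit 393225) (nat_lit 9) (.e (nat_lit 335986) (nat_lit 1) (.e (nat_lit 57927) (nat_lit 282) .nil)))))) (.g (nat_lit 1) (.e (nat_lit 146862) (nat_lit 0) .nil) .nil))) 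
(.lf (nat_lit 492285) (.g (nat_lit 4331) (.e (nat_lit 163871) (nat_lit 2) (.e (nat_lit 196670) (nat_lit 14) (.e (nat_lit 73746) (nat_lit 3) (.e (nat_lit 516129) (nat_lit 3) (.e (nat_lit 221215) (nat_lit 23) (.e (nat_lit 204830) (nat_lit 18) (.e (nat_lit 57926) (nat_lit 282) .nil))))))) (.g (nat_lit 1) (.e (nat_lit 147813) (nat_lit 0) .nil) .nil)))) (.nd (nat_lit 9) 
(.lf (nat_lit 492029) (.g (nat_lit 1235) (.e (nat_lit 163870) (nat_lit 2) (.e (nat_lit 196670) (nat_lit 14) (.e (nat_lit 73746) (nat_lit 3) (.e (nat_lit 516131) (nat_lit 3) .nil)))) (.g (nat_lit 0) (.e (nat_lit 147269) (nat_lit 0) .nil) .nil))) 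
(.lf (nat_lit 492541) (.g (nat_lit 4594) (.e (nat_lit 163873) (nat_lit 3) (.e (nat_lit 204813) (nat_lit 9) (.e (nat_lit 426187) (nat_lit 9) (.e (nat_lit 426566) (nat_lit 34) (.e (nat_lit 393253) (nat_lit 18) (.e (nat_lit 164326) (nat_lit 230) .nil)))))) (.g (nat_lit 1) (.e (nat_lit 148616) (nat_lit 0) .nil) .nil))))))))))) 
(.nd (nat_lit 2) (.nd (nat_lit 3) (.nd (nat_lit 4) (.nd (nat_lit 5) (.nd (nat_lit 6) 
(.nd (nat_lit 7) (.nd (nat_lit 8) (.nd (nat_lit 9) 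
(.lf (nat_lit 491523) (.g (nat_lit 3938) (.e (nat_lit 163869) (nat_lit 2) (.e (nat_lit 196666) (nat_lit 13) (.e (nat_lit 65610) (nat_lit 10) (.e (nat_lit 344117) (nat_lit 21) (.e (nat_lit 516159) (nat_lit 10) (.e (nat_lit 434209) (nat_lit 18) (.e (nat_lit 7936) (nat_lit 285) .nil))))))) (.g (nat_lit 1) (.e (nat_lit 146277) (nat_lit 0) .nil) .nil))) 
(.lf (nat_lit 492035) (.g (nat_lit 2202) (.e (nat_lit 163871) (nat_lit 2) (.e (nat_lit 196654) (nat_lit 11) (.e (nat_lit 16416) (nat_lit 3) (.e (nat_lit 204817) (nat_lit 17) .nil)))) (.g (nat_lit 0) (.e (nat_lit 147293) (nat_lit 0) .nil) .nil)))) (.nd (nat_lit 9) 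
(.lf (nat_lit 491779) (.g (nat_lit 3063) (.e (nat_lit 163869) (nat_lit 2) (.e (nat_lit 196681) (nat_lit 17) (.e (nat_lit 131125) (nat_lit 13) (.e (nat_lit 393229) (nat_lit 9) (.e (nat_lit 335995) (nat_lit 1) (.e (nat_lit 57931) (nat_lit 282) .nil)))))) (.g (nat_lit 1) (.e (nat_lit 146868) (nat_lit 0) .nil) .nil))) 
(.lf (nat_lit 492291) (.g (nat_lit 3257) (.e (nat_lit 163871) (nat_lit 2) (.e (nat_lit 196670) (nat_lit 14) (.e (nat_lit 73746) (nat_lit 3) (.e (nat_lit 516131) (nat_lit 3) (.e (nat_lit 221214) (nat_lit 23) (.e (nat_lit 204829) (nat_lit 18) (.e (nat_lit 57928) (nat_lit 282) .nil))))))) (.g (nat_lit 1) (.e (nat_lit 147822) (nat_lit 0) .nil) .nil))))) (.nd (nat_lit 8) (.nd (nat_lit 9) 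
(.lf (nat_lit 491651) (.g (nat_lit 2851) (.e (nat_lit 163869) (nat_lit 2) (.e (nat_lit 196670) (nat_lit 14) (.e (nat_lit 73746) (nat_lit 3) (.e (nat_lit 516129) (nat_lit 3) (.e (nat_lit 221196) (nat_lit 20) (.e (nat_lit 3230) (nat_lit 197) (.e (nat_lit 532499) (nat_lit 1) (.e (nat_lit 57927) (nat_lit 282) .nil)))))))) (.g (nat_lit 1) (.e (nat_lit 146545) (nat_lit 0) .nil) .nil))) 
(.lf (nat_lit 492163) (.g (nat_lit 3177) (.e (nat_lit 163871) (nat_lit 2) (.e (nat_lit 196668) (nat_lit 14) (.e (nat_lit 73746) (nat_lit 3) (.e (nat_lit 516131) (nat_lit 3) (.e (nat_lit 221215) (nat_lit 23) (.e (nat_lit 204830) (nat_lit 18) (.e (nat_lit 57927) (nat_lit 282) .nil))))))) (.g (nat_lit 1) (.e (nat_lit 147559) (nat_lit 0) .nil) .nil)))) (.nd (nat_lit 9) 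
(.lf (nat_lit 491907) (.g (nat_lit 4847) (.e (nat_lit 163870) (nat_lit 2) (.e (nat_lit 196666) (nat_lit 13) (.e (nat_lit 65610) (nat_lit 10) (.e (nat_lit 344117) (nat_lit 21) (.e (nat_lit 516151) (nat_lit 9) (.e (nat_lit 426022) (nat_lit 0) (.e (nat_lit 2400) (nat_lit 157) (.e (nat_lit 4847) (nat_lit 285) .nil)))))))) (.g (nat_lit 1) (.e (nat_lit 147096) (nat_lit 0) .nil) .nil))) 
(.lf (nat_lit 492419) (.g (nat_lit 2377) (.e (nat_lit 163873) (nat_lit 3) (.e (nat_lit 204809) (nat_lit 9) (.e (nat_lit 426139) (nat_lit 3) (.e (nat_lit 204835) (nat_lit 19) (.e (nat_lit 106539) (nat_lit 12) (.e (nat_lit 57466) (nat_lit 23) (.e (nat_lit 516120) (nat_lit 1) (.e (nat_lit 164329) (nat_lit 230) .nil)))))))) (.g (nat_lit 1) (.e (nat_lit 148347) (nat_lit 0) .nil) .nil)))))) 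
(.nd (nat_lit 7) (.nd (nat_lit 8) (.nd (nat_lit 9) 
(.lf (nat_lit 491587) (.g (nat_lit 3508) (.e (nat_lit 163869) (nat_lit 2) (.e (nat_lit 196668) (nat_lit 14) (.e (nat_lit 73747) (nat_lit 3) (.e (nat_lit 516129) (nat_lit 3) (.e (nat_lit 221215) (nat_lit 23) (.e (nat_lit 204828) (nat_lit 18) (.e (nat_lit 57927) (nat_lit 282) .nil))))))) (.g (nat_lit 1) (.e (nat_lit 146427) (nat_lit 0) .nil) .nil))) 
(.lf (nat_lit 492099) (.g (nat_lit 2081) (.e (nat_lit 163871) (nat_lit 2) (.e (nat_lit 196656) (nat_lit 11) (.e (nat_lit 16463) (nat_lit 13) (.e (nat_lit 483341) (nat_lit 9) (.e (nat_lit 426105) (nat_lit 1) .nil))))) (.g (nat_lit 0) (.e (nat_lit 147421) (nat_lit 0) .nil) .nil)))) (.nd (nat_lit 9) 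
(.lf (nat_lit 491843) (.g (nat_lit 3962) (.e (nat_lit 163870) (nat_lit 2) (.e (nat_lit 196666) (nat_lit 13) (.e (nat_lit 65571) (nat_lit 3) (.e (nat_lit 98341) (nat_lit 20) (.e (nat_lit 221215) (nat_lit 23) (.e (nat_lit 204829) (nat_lit 18) (.e (nat_lit 57925) (nat_lit 282) .nil))))))) (.g (nat_lit 1) (.e (nat_lit 146971) (nat_lit 0) .nil) .nil))) 
(.lf (nat_lit 492355) (.g (nat_lit 2059) (.e (nat_lit 163872) (nat_lit 3) (.e (nat_lit 204837) (nat_lit 20) (.e (nat_lit 114716) (nat_lit 22) (.e (nat_lit 90172) (nat_lit 14) (.e (nat_lit 180244) (nat_lit 5) (.e (nat_lit 532499) (nat_lit 1) (.e (nat_lit 57691) (nat_lit 156) .nil))))))) (.g (nat_lit 1) (.e (nat_lit 148262) (nat_lit 0) .nil) .nil))))) (.nd (nat_lit 8) (.nd (nat_lit 9) 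
(.lf (nat_lit 491715) (.g (nat_lit 3076) (.e (nat_lit 163869) (nat_lit 2) (.e (nat_lit 196670) (nat_lit 14) (.e (nat_lit 73754) (nat_lit 8) (.e (nat_lit 557103) (nat_lit 14) (.e (nat_lit 180243) (nat_lit 5) (.e (nat_lit 532504) (nat_lit 1) (.e (nat_lit 65280) (nat_lit 168) .nil))))))) (.g (nat_lit 1) (.e (nat_lit 146658) (nat_lit 0) .nil) .nil))) 
(.lf (nat_lit 492227) (.g (nat_lit 4161) (.e (nat_lit 163871) (nat_lit 2) (.e (nat_lit 196668) (nat_lit 14) (.e (nat_lit 73747) (nat_lit 3) (.e (nat_lit 516131) (nat_lit 3) (.e (nat_lit 221215) (nat_lit 23) (.e (nat_lit 204830) (nat_lit 18) (.e (nat_lit 57927) (nat_lit 282) .nil))))))) (.g (nat_lit 1) (.e (nat_lit 147694) (nat_lit 0) .nil) .nil)))) (.nd (nat_lit 9) 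
(.lf (nat_lit 491971) (.g (nat_lit 4120) (.e (nat_lit 163870) (nat_lit 2) (.e (nat_lit 196666) (nat_lit 13) (.e (nat_lit 65610) (nat_lit 10) (.e (nat_lit 344117) (nat_lit 21) (.e (nat_lit 516159) (nat_lit 10) (.e (nat_lit 434206) (nat_lit 18) (.e (nat_lit 7936) (nat_lit 285) .nil))))))) (.g (nat_lit 1) (.e (nat_lit 147171) (nat_lit 0) .nil) .nil))) 
(.lf (nat_lit 492483) (.g (nat_lit 3300) (.e (nat_lit 163873) (nat_lit 3) (.e (nat_lit 204809) (nat_lit 9) (.e (nat_lit 426200) (nat_lit 9) (.e (nat_lit 426568) (nat_lit 34) (.e (nat_lit 393253) (nat_lit 18) (.e (nat_lit 164331) (nat_lit 230) .nil)))))) (.g (nat_lit 1) (.e (nat_lit 148418) (nat_lit 0) .nil) .nil))))))) (.nd (nat_lit 6) (.nd (nat_lit 7) (.nd (nat_lit 8) (.nd (nat_lit 9) 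
(.lf (nat_lit 491555) (.g (nat_lit 4177) (.e (nat_lit 163869) (nat_lit 2) (.e (nat_lit 196668) (nat_lit 14) (.e (nat_lit 73746) (nat_lit 3) (.e (nat_lit 516129) (nat_lit 3) (.e (nat_lit 221214) (nat_lit 23) (.e (nat_lit 204829) (nat_lit 18) (.e (nat_lit 57927) (nat_lit 282) .nil))))))) (.g (nat_lit 1) (.e (nat_lit 146359) (nat_lit 0) .nil) .nil))) 
(.lf (nat_lit 492067) (.g (nat_lit 1490) (.e (nat_lit 163871) (nat_lit 2) (.e (nat_lit 196654) (nat_lit 11) (.e (nat_lit 16466) (nat_lit 13) (.e (nat_lit 483336) (nat_lit 9) .nil)))) (.g (nat_lit 0) (.e (nat_lit 147342) (nat_lit 0) .nil) .nil)))) (.nd (nat_lit 9) 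
(.lf (nat_lit 491811) (.g (nat_lit 3331) (.e (nat_lit 163870) (nat_lit 2) (.e (nat_lit 196666) (nat_lit 13) (.e (nat_lit 65569) (nat_lit 3) (.e (nat_lit 98341) (nat_lit 20) (.e (nat_lit 221215) (nat_lit 23) (.e (nat_lit 204830) (nat_lit 18) (.e (nat_lit 57928) (nat_lit 282) .nil))))))) (.g (nat_lit 1) (.e (nat_lit 146920) (nat_lit 0) .nil) .nil))) 
(.lf (nat_lit 492323) (.g (nat_lit 391) (.e (nat_lit 163871) (nat_lit 2) (.e (nat_lit 196672) (nat_lit 15) (.e (nat_lit 81925) (nat_lit 11) .nil))) (.g (nat_lit 0) (.e (nat_lit 147857) (nat_lit 0) .nil) .nil))))) (.nd (nat_lit 8) (.nd (nat_lit 9) 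
(.lf (nat_lit 491683) (.g (nat_lit 4658) (.e (nat_lit 163869) (nat_lit 2) (.e (nat_lit 196670) (nat_lit 14) (.e (nat_lit 73746) (nat_lit 3) (.e (nat_lit 516131) (nat_lit 3) (.e (nat_lit 221215) (nat_lit 23) (.e (nat_lit 204829) (nat_lit 18) (.e (nat_lit 57926) (nat_lit 282) .nil))))))) (.g (nat_lit 1) (.e (nat_lit 146603) (nat_lit 0) .nil) .nil))) 
(.lf (nat_lit 492195) (.g (nat_lit 4830) (.e (nat_lit 163871) (nat_lit 2) (.e (nat_lit 196668) (nat_lit 14) (.e (nat_lit 73747) (nat_lit 3) (.e (nat_lit 516129) (nat_lit 3) (.e (nat_lit 221215) (nat_lit 23) (.e (nat_lit 204830) (nat_lit 18) (.e (nat_lit 57926) (nat_lit 282) .nil))))))) (.g (nat_lit 1) (.e (nat_lit 147634) (nat_lit 0) .nil) .nil)))) (.nd (nat_lit 9) 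
(.lf (nat_lit 491939) (.g (nat_lit 3333) (.e (nat_lit 163870) (nat_lit 2) (.e (nat_lit 196666) (nat_lit 13) (.e (nat_lit 65610) (nat_lit 10) (.e (nat_lit 344117) (nat_lit 21) (.e (nat_lit 516151) (nat_lit 9) (.e (nat_lit 426045) (nat_lit 0) (.e (nat_lit 2423) (nat_lit 157) (.e (nat_lit 7936) (nat_lit 285) .nil)))))))) (.g (nat_lit 1) (.e (nat_lit 147128) (nat_lit 0) .nil) .nil))) 
(.lf (nat_lit 492451) (.g (nat_lit 1614) (.e (nat_lit 163873) (nat_lit 3) (.e (nat_lit 204809) (nat_lit 9) (.e (nat_lit 426197) (nat_lit 9) (.e (nat_lit 426566) (nat_lit 34) (.e (nat_lit 393252) (nat_lit 18) .nil))))) (.g (nat_lit 0) (.e (nat_lit 148385) (nat_lit 0) .nil) .nil)))))) (.nd (nat_lit 7) (.nd (nat_lit 8) (.nd (nat_lit 9) 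
(.lf (nat_lit 491619) (.g (nat_lit 2329) (.e (nat_lit 163869) (nat_lit 2) (.e (nat_lit 196670) (nat_lit 14) (.e (nat_lit 73746) (nat_lit 3) (.e (nat_lit 516124) (nat_lit 2) (.e (nat_lit 213033) (nat_lit 12) (.e (nat_lit 163963) (nat_lit 25) (.e (nat_lit 532501) (nat_lit 1) (.e (nat_lit 57926) (nat_lit 282) .nil)))))))) (.g (nat_lit 1) (.e (nat_lit 146513) (nat_lit 0) .nil) .nil))) 
(.lf (nat_lit 492131) (.g (nat_lit 3459) (.e (nat_lit 163871) (nat_lit 2) (.e (nat_lit 196668) (nat_lit 14) (.e (nat_lit 73746) (nat_lit 3) (.e (nat_lit 516129) (nat_lit 3) (.e (nat_lit 221214) (nat_lit 23) (.e (nat_lit 204829) (nat_lit 18) (.e (nat_lit 57925) (nat_lit 282) .nil))))))) (.g (nat_lit 1) (.e (nat_lit 147510) (nat_lit 0) .nil) .nil)))) (.nd (nat_lit 9) 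
(.lf (nat_lit 491875) (.g (nat_lit 482) (.e (nat_lit 163870) (nat_lit 2) (.e (nat_lit 196666) (nat_lit 13) (.e (nat_lit 65610) (nat_lit 10) .nil))) (.g (nat_lit 0) (.e (nat_lit 147026) (nat_lit 0) .nil) .nil))) 
(.lf (nat_lit 492387) (.g (nat_lit 3557) (.e (nat_lit 163872) (nat_lit 3) (.e (nat_lit 204838) (nat_lit 20) (.e (nat_lit 114716) (nat_lit 22) (.e (nat_lit 90174) (nat_lit 14) (.e (nat_lit 180243) (nat_lit 5) (.e (nat_lit 532501) (nat_lit 1) (.e (nat_lit 57689) (nat_lit 156) .nil))))))) (.g (nat_lit 1) (.e (nat_lit 148296) (nat_lit 0) .nil) .nil))))) (.nd (nat_lit 8) (.nd (nat_lit 9) 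
(.lf (nat_lit 491747) (.g (nat_lit 2296) (.e (nat_lit 163869) (nat_lit 2) (.e (nat_lit 196681) (nat_lit 17) (.e (nat_lit 131105) (nat_lit 9) (.e (nat_lit 336454) (nat_lit 34) (.e (nat_lit 483366) (nat_lit 18) (.e (nat_lit 57930) (nat_lit 282) .nil)))))) (.g (nat_lit 1) (.e (nat_lit 146817) (nat_lit 0) .nil) .nil))) 
(.lf (nat_lit 492259) (.g (nat_lit 2526) (.e (nat_lit 163871) (nat_lit 2) (.e (nat_lit 196670) (nat_lit 14) (.e (nat_lit 73746) (nat_lit 3) (.e (nat_lit 516129) (nat_lit 3) (.e (nat_lit 221204) (nat_lit 20) (.e (nat_lit 3253) (nat_lit 197) (.e (nat_lit 532499) (nat_lit 1) (.e (nat_lit 57928) (nat_lit 282) .nil)))))))) (.g (nat_lit 1) (.e (nat_lit 147787) (nat_lit 0) .nil) .nil)))) 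
(.nd (nat_lit 9) 
(.lf (nat_lit 492003) (.g (nat_lit 552) (.e (nat_lit 163870) (nat_lit 2) (.e (nat_lit 196666) (nat_lit 13) (.e (nat_lit 65625) (nat_lit 13) .nil))) (.g (nat_lit 0) (.e (nat_lit 147233) (nat_lit 0) .nil) .nil))) 
(.lf (nat_lit 492515) (.g (nat_lit 1981) (.e (nat_lit 163873) (nat_lit 3) (.e (nat_lit 204811) (nat_lit 9) (.e (nat_lit 426261) (nat_lit 9) (.e (nat_lit 426565) (nat_lit 34) (.e (nat_lit 393253) (nat_lit 18) (.e (nat_lit 164330) (nat_lit 230) .nil)))))) (.g (nat_lit 1) (.e (nat_lit 148548) (nat_lit 0) .nil) .nil)))))))) 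
(.nd (nat_lit 5) (.nd (nat_lit 6) (.nd (nat_lit 7) (.nd (nat_lit 8) (.nd (nat_lit 9) 
(.lf (nat_lit 491539) (.g (nat_lit 4721) (.e (nat_lit 163869) (nat_lit 2) (.e (nat_lit 196666) (nat_lit 13) (.e (nat_lit 65610) (nat_lit 10) (.e (nat_lit 344117) (nat_lit 21) (.e (nat_lit 516160) (nat_lit 10) (.e (nat_lit 434208) (nat_lit 18) (.e (nat_lit 7936) (nat_lit 285) .nil))))))) (.g (nat_lit 1) (.e (nat_lit 146293) (nat_lit 0) .nil) .nil))) 
(.lf (nat_lit 492051) (.g (nat_lit 1520) (.e (nat_lit 163871) (nat_lit 2) (.e (nat_lit 196654) (nat_lit 11) (.e (nat_lit 16436) (nat_lit 9) (.e (nat_lit 426491) (nat_lit 27) .nil)))) (.g (nat_lit 0) (.e (nat_lit 147320) (nat_lit 0) .nil) .nil)))) (.nd (nat_lit 9) 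
(.lf (nat_lit 491795) (.g (nat_lit 2368) (.e (nat_lit 163870) (nat_lit 2) (.e (nat_lit 196654) (nat_lit 11) (.e (nat_lit 16438) (nat_lit 9) (.e (nat_lit 426482) (nat_lit 27) (.e (nat_lit 336388) (nat_lit 27) .nil))))) (.g (nat_lit 0) (.e (nat_lit 146900) (nat_lit 0) .nil) .nil))) 
(.lf (nat_lit 492307) (.g (nat_lit 3992) (.e (nat_lit 163871) (nat_lit 2) (.e (nat_lit 196670) (nat_lit 14) (.e (nat_lit 73746) (nat_lit 3) (.e (nat_lit 516131) (nat_lit 3) (.e (nat_lit 221215) (nat_lit 23) (.e (nat_lit 204830) (nat_lit 18) (.e (nat_lit 57926) (nat_lit 282) .nil))))))) (.g (nat_lit 1) (.e (nat_lit 147838) (nat_lit 0) .nil) .nil))))) (.nd (nat_lit 8) (.nd (nat_lit 9) 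
(.lf (nat_lit 491667) (.g (nat_lit 5032) (.e (nat_lit 163869) (nat_lit 2) (.e (nat_lit 196670) (nat_lit 14) (.e (nat_lit 73746) (nat_lit 3) (.e (nat_lit 516129) (nat_lit 3) (.e (nat_lit 221215) (nat_lit 23) (.e (nat_lit 204829) (nat_lit 18) (.e (nat_lit 57927) (nat_lit 282) .nil))))))) (.g (nat_lit 1) (.e (nat_lit 146574) (nat_lit 0) .nil) .nil))) 
(.lf (nat_lit 492179) (.g (nat_lit 3868) (.e (nat_lit 163871) (nat_lit 2) (.e (nat_lit 196668) (nat_lit 14) (.e (nat_lit 73747) (nat_lit 3) (.e (nat_lit 516129) (nat_lit 3) (.e (nat_lit 221214) (nat_lit 23) (.e (nat_lit 204830) (nat_lit 18) (.e (nat_lit 57924) (nat_lit 282) .nil))))))) (.g (nat_lit 1) (.e (nat_lit 147615) (nat_lit 0) .nil) .nil)))) (.nd (nat_lit 9) 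
(.lf (nat_lit 491923) (.g (nat_lit 3575) (.e (nat_lit 163870) (nat_lit 2) (.e (nat_lit 196666) (nat_lit 13) (.e (nat_lit 65610) (nat_lit 10) (.e (nat_lit 344117) (nat_lit 21) (.e (nat_lit 516151) (nat_lit 9) (.e (nat_lit 426040) (nat_lit 0) (.e (nat_lit 2416) (nat_lit 157) (.e (nat_lit 4848) (nat_lit 285) .nil)))))))) (.g (nat_lit 1) (.e (nat_lit 147112) (nat_lit 0) .nil) .nil))) 
(.lf (nat_lit 492435) (.g (nat_lit 2642) (.e (nat_lit 163873) (nat_lit 3) (.e (nat_lit 204809) (nat_lit 9) (.e (nat_lit 426188) (nat_lit 9) (.e (nat_lit 426568) (nat_lit 34) (.e (nat_lit 393251) (nat_lit 18) (.e (nat_lit 164332) (nat_lit 230) .nil)))))) (.g (nat_lit 1) (.e (nat_lit 148369) (nat_lit 0) .nil) .nil)))))) (.nd (nat_lit 7) (.nd (nat_lit 8) (.nd (nat_lit 9) 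
(.lf (nat_lit 491603) (.g (nat_lit 426) (.e (nat_lit 163869) (nat_lit 2) (.e (nat_lit 196668) (nat_lit 14) (.e (nat_lit 73753) (nat_lit 8) .nil))) (.g (nat_lit 0) (.e (nat_lit 146480) (nat_lit 0) .nil) .nil))) 
(.lf (nat_lit 492115) (.g (nat_lit 2327) (.e (nat_lit 163871) (nat_lit 2) (.e (nat_lit 196663) (nat_lit 13) (.e (nat_lit 65571) (nat_lit 3) (.e (nat_lit 98341) (nat_lit 20) (.e (nat_lit 221215) (nat_lit 23) (.e (nat_lit 204830) (nat_lit 18) (.e (nat_lit 57927) (nat_lit 282) .nil))))))) (.g (nat_lit 1) (.e (nat_lit 147457) (nat_lit 0) .nil) .nil)))) (.nd (nat_lit 9) 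
(.lf (nat_lit 491859) (.g (nat_lit 4343) (.e (nat_lit 163870) (nat_lit 2) (.e (nat_lit 196666) (nat_lit 13) (.e (nat_lit 65571) (nat_lit 3) (.e (nat_lit 98342) (nat_lit 20) (.e (nat_lit 221214) (nat_lit 23) (.e (nat_lit 204830) (nat_lit 18) (.e (nat_lit 57924) (nat_lit 282) .nil))))))) (.g (nat_lit 1) (.e (nat_lit 147000) (nat_lit 0) .nil) .nil))) 
(.lf (nat_lit 492371) (.g (nat_lit 3133) (.e (nat_lit 163872) (nat_lit 3) (.e (nat_lit 204838) (nat_lit 20) (.e (nat_lit 114714) (nat_lit 22) (.e (nat_lit 90174) (nat_lit 14) (.e (nat_lit 180243) (nat_lit 5) (.e (nat_lit 532501) (nat_lit 1) (.e (nat_lit 57692) (nat_lit 156) .nil))))))) (.g (nat_lit 1) (.e (nat_lit 148279) (nat_lit 0) .nil) .nil))))) (.nd (nat_lit 8) (.nd (nat_lit 9) 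
(.lf (nat_lit 491731) (.g (nat_lit 3296) (.e (nat_lit 163869) (nat_lit 2) (.e (nat_lit 196672) (nat_lit 15) (.e (nat_lit 81927) (nat_lit 11) (.e (nat_lit 426497) (nat_lit 27) (.e (nat_lit 335988) (nat_lit 1) (.e (nat_lit 57931) (nat_lit 282) .nil)))))) (.g (nat_lit 1) (.e (nat_lit 146675) (nat_lit 0) .nil) .nil))) 
(.lf (nat_lit 492243) (.g (nat_lit 1984) (.e (nat_lit 163871) (nat_lit 2) (.e (nat_lit 196670) (nat_lit 14) (.e (nat_lit 73746) (nat_lit 3) (.e (nat_lit 516124) (nat_lit 2) (.e (nat_lit 213033) (nat_lit 12) (.e (nat_lit 163965) (nat_lit 25) (.e (nat_lit 532499) (nat_lit 1) (.e (nat_lit 57927) (nat_lit 282) .nil)))))))) (.g (nat_lit 1) (.e (nat_lit 147771) (nat_lit 0) .nil) .nil)))) 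
(.nd (nat_lit 9) 
(.lf (nat_lit 491987) (.g (nat_lit 4366) (.e (nat_lit 163870) (nat_lit 2) (.e (nat_lit 196666) (nat_lit 13) (.e (nat_lit 65610) (nat_lit 10) (.e (nat_lit 344117) (nat_lit 21) (.e (nat_lit 516160) (nat_lit 10) (.e (nat_lit 434202) (nat_lit 18) (.e (nat_lit 7936) (nat_lit 285) .nil))))))) (.g (nat_lit 1) (.e (nat_lit 147187) (nat_lit 0) .nil) .nil))) 
(.lf (nat_lit 492499) (.g (nat_lit 1862) (.e (nat_lit 163873) (nat_lit 3) (.e (nat_lit 204811) (nat_lit 9) (.e (nat_lit 426234) (nat_lit 9) (.e (nat_lit 426565) (nat_lit 34) (.e (nat_lit 393253) (nat_lit 18) (.e (nat_lit 164326) (nat_lit 230) .nil)))))) (.g (nat_lit 1) (.e (nat_lit 148532) (nat_lit 0) .nil) .nil))))))) (.nd (nat_lit 6) (.nd (nat_lit 7) (.nd (nat_lit 8) (.nd (nat_lit 9) 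
(.lf (nat_lit 491571) (.g (nat_lit 2529) (.e (nat_lit 163869) (nat_lit 2) (.e (nat_lit 196668) (nat_lit 14) (.e (nat_lit 73746) (nat_lit 3) (.e (nat_lit 516131) (nat_lit 3) (.e (nat_lit 221213) (nat_lit 23) (.e (nat_lit 204830) (nat_lit 18) (.e (nat_lit 57927) (nat_lit 282) .nil))))))) (.g (nat_lit 1) (.e (nat_lit 146378) (nat_lit 0) .nil) .nil))) 
(.lf (nat_lit 492083) (.g (nat_lit 3142) (.e (nat_lit 163871) (nat_lit 2) (.e (nat_lit 196656) (nat_lit 11) (.e (nat_lit 16425) (nat_lit 7) (.e (nat_lit 409616) (nat_lit 10) (.e (nat_lit 858) (nat_lit 75) (.e (nat_lit 778323) (nat_lit 5) (.e (nat_lit 73731) (nat_lit 0) (.e (nat_lit 4539) (nat_lit 267) .nil)))))))) (.g (nat_lit 1) (.e (nat_lit 147393) (nat_lit 0) .nil) .nil)))) (.nd (nat_lit 9) 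
(.lf (nat_lit 491827) (.g (nat_lit 3915) (.e (nat_lit 163870) (nat_lit 2) (.e (nat_lit 196666) (nat_lit 13) (.e (nat_lit 65569) (nat_lit 3) (.e (nat_lit 98342) (nat_lit 20) (.e (nat_lit 221215) (nat_lit 23) (.e (nat_lit 204829) (nat_lit 18) (.e (nat_lit 57928) (nat_lit 282) .nil))))))) (.g (nat_lit 1) (.e (nat_lit 146942) (nat_lit 0) .nil) .nil))) 
(.lf (nat_lit 492339) (.g (nat_lit 544) (.e (nat_lit 163871) (nat_lit 2) (.e (nat_lit 196681) (nat_lit 17) (.e (nat_lit 131089) (nat_lit 1) .nil))) (.g (nat_lit 0) (.e (nat_lit 148075) (nat_lit 0) .nil) .nil))))) (.nd (nat_lit 8) (.nd (nat_lit 9) 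
(.lf (nat_lit 491699) (.g (nat_lit 4921) (.e (nat_lit 163869) (nat_lit 2) (.e (nat_lit 196670) (nat_lit 14) (.e (nat_lit 73753) (nat_lit 8) (.e (nat_lit 557103) (nat_lit 14) (.e (nat_lit 180244) (nat_lit 5) (.e (nat_lit 532503) (nat_lit 1) (.e (nat_lit 65280) (nat_lit 168) .nil))))))) (.g (nat_lit 1) (.e (nat_lit 146636) (nat_lit 0) .nil) .nil))) 
(.lf (nat_lit 492211) (.g (nat_lit 2151) (.e (nat_lit 163871) (nat_lit 2) (.e (nat_lit 196668) (nat_lit 14) (.e (nat_lit 73747) (nat_lit 3) (.e (nat_lit 516131) (nat_lit 3) (.e (nat_lit 221214) (nat_lit 23) (.e (nat_lit 204829) (nat_lit 18) (.e (nat_lit 57924) (nat_lit 282) .nil))))))) (.g (nat_lit 1) (.e (nat_lit 147674) (nat_lit 0) .nil) .nil)))) (.nd (nat_lit 9) 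
(.lf (nat_lit 491955) (.g (nat_lit 3703) (.e (nat_lit 163870) (nat_lit 2) (.e (nat_lit 196666) (nat_lit 13) (.e (nat_lit 65610) (nat_lit 10) (.e (nat_lit 344117) (nat_lit 21) (.e (nat_lit 516151) (nat_lit 9) (.e (nat_lit 426103) (nat_lit 1) (.e (nat_lit 171776) (nat_lit 219) .nil))))))) (.g (nat_lit 1) (.e (nat_lit 147144) (nat_lit 0) .nil) .nil))) 
(.lf (nat_lit 492467) (.g (nat_lit 2987) (.e (nat_lit 163873) (nat_lit 3) (.e (nat_lit 204809) (nat_lit 9) (.e (nat_lit 426200) (nat_lit 9) (.e (nat_lit 426566) (nat_lit 34) (.e (nat_lit 393252) (nat_lit 18) (.e (nat_lit 164332) (nat_lit 230) .nil)))))) (.g (nat_lit 1) (.e (nat_lit 148402) (nat_lit 0) .nil) .nil)))))) (.nd (nat_lit 7) (.nd (nat_lit 8) (.nd (nat_lit 9) 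
(.lf (nat_lit 491635) (.g (nat_lit 2222) (.e (nat_lit 163869) (nat_lit 2) (.e (nat_lit 196670) (nat_lit 14) (.e (nat_lit 73746) (nat_lit 3) (.e (nat_lit 516126) (nat_lit 2) (.e (nat_lit 213033) (nat_lit 12) (.e (nat_lit 163964) (nat_lit 25) (.e (nat_lit 532501) (nat_lit 1) (.e (nat_lit 57929) (nat_lit 282) .nil)))))))) (.g (nat_lit 1) (.e (nat_lit 146529) (nat_lit 0) .nil) .nil))) 
(.lf (nat_lit 492147) (.g (nat_lit 2107) (.e (nat_lit 163871) (nat_lit 2) (.e (nat_lit 196668) (nat_lit 14) (.e (nat_lit 73746) (nat_lit 3) (.e (nat_lit 516131) (nat_lit 3) (.e (nat_lit 221213) (nat_lit 23) (.e (nat_lit 204830) (nat_lit 18) (.e (nat_lit 57925) (nat_lit 282) .nil))))))) (.g (nat_lit 1) (.e (nat_lit 147542) (nat_lit 0) .nil) .nil)))) (.nd (nat_lit 9) 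
(.lf (nat_lit 491891) (.g (nat_lit 3207) (.e (nat_lit 163870) (nat_lit 2) (.e (nat_lit 196666) (nat_lit 13) (.e (nat_lit 65610) (nat_lit 10) (.e (nat_lit 344117) (nat_lit 21) (.e (nat_lit 516145) (nat_lit 9) (.e (nat_lit 426452) (nat_lit 21) (.e (nat_lit 130816) (nat_lit 174) .nil))))))) (.g (nat_lit 1) (.e (nat_lit 147080) (nat_lit 0) .nil) .nil))) 
(.lf (nat_lit 492403) (.g (nat_lit 1632) (.e (nat_lit 163872) (nat_lit 3) (.e (nat_lit 204838) (nat_lit 20) (.e (nat_lit 114719) (nat_lit 23) (.e (nat_lit 98385) (nat_lit 32) .nil)))) (.g (nat_lit 0) (.e (nat_lit 148321) (nat_lit 0) .nil) .nil))))) (.nd (nat_lit 8) (.nd (nat_lit 9) 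
(.lf (nat_lit 491763) (.g (nat_lit 2587) (.e (nat_lit 163869) (nat_lit 2) (.e (nat_lit 196681) (nat_lit 17) (.e (nat_lit 131109) (nat_lit 9) (.e (nat_lit 336454) (nat_lit 34) (.e (nat_lit 483366) (nat_lit 18) (.e (nat_lit 57929) (nat_lit 282) .nil)))))) (.g (nat_lit 1) (.e (nat_lit 146847) (nat_lit 0) .nil) .nil))) 
(.lf (nat_lit 492275) (.g (nat_lit 4038) (.e (nat_lit 163871) (nat_lit 2) (.e (nat_lit 196670) (nat_lit 14) (.e (nat_lit 73746) (nat_lit 3) (.e (nat_lit 516129) (nat_lit 3) (.e (nat_lit 221214) (nat_lit 23) (.e (nat_lit 204830) (nat_lit 18) (.e (nat_lit 57927) (nat_lit 282) .nil))))))) (.g (nat_lit 1) (.e (nat_lit 147803) (nat_lit 0) .nil) .nil)))) (.nd (nat_lit 9) 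
(.lf (nat_lit 492019) (.g (nat_lit 1443) (.e (nat_lit 163870) (nat_lit 2) (.e (nat_lit 196668) (nat_lit 14) (.e (nat_lit 73747) (nat_lit 3) (.e (nat_lit 516124) (nat_lit 2) .nil)))) (.g (nat_lit 0) (.e (nat_lit 147258) (nat_lit 0) .nil) .nil))) 
(.lf (nat_lit 492531) (.g (nat_lit 4861) (.e (nat_lit 163873) (nat_lit 3) (.e (nat_lit 204813) (nat_lit 9) (.e (nat_lit 426186) (nat_lit 9) (.e (nat_lit 426566) (nat_lit 34) (.e (nat_lit 393253) (nat_lit 18) (.e (nat_lit 164324) (nat_lit 230) .nil)))))) (.g (nat_lit 1) (.e (nat_lit 148606) (nat_lit 0) .nil) .nil))))))))) 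
(.nd (nat_lit 4) (.nd (nat_lit 5) (.nd (nat_lit 6) (.nd (nat_lit 7) (.nd (nat_lit 8) 
(.nd (nat_lit 9) 
(.lf (nat_lit 491531) (.g (nat_lit 3409) (.e (nat_lit 163869) (nat_lit 2) (.e (nat_lit 196666) (nat_lit 13) (.e (nat_lit 65610) (nat_lit 10) (.e (nat_lit 344117) (nat_lit 21) (.e (nat_lit 516160) (nat_lit 10) (.e (nat_lit 434201) (nat_lit 18) (.e (nat_lit 4848) (nat_lit 285) .nil))))))) (.g (nat_lit 1) (.e (nat_lit 146285) (nat_lit 0) .nil) .nil))) 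
(.lf (nat_lit 492043) (.g (nat_lit 1841) (.e (nat_lit 163871) (nat_lit 2) (.e (nat_lit 196654) (nat_lit 11) (.e (nat_lit 16433) (nat_lit 9) (.e (nat_lit 426566) (nat_lit 34) (.e (nat_lit 393250) (nat_lit 18) .nil))))) (.g (nat_lit 0) (.e (nat_lit 147309) (nat_lit 0) .nil) .nil)))) (.nd (nat_lit 9) 
(.lf (nat_lit 491787) (.g (nat_lit 2697) (.e (nat_lit 163869) (nat_lit 2) (.e (nat_lit 196681) (nat_lit 17) (.e (nat_lit 131128) (nat_lit 13) (.e (nat_lit 393229) (nat_lit 9) (.e (nat_lit 335986) (nat_lit 1) (.e (nat_lit 57927) (nat_lit 282) .nil)))))) (.g (nat_lit 1) (.e (nat_lit 146884) (nat_lit 0) .nil) .nil))) 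
(.lf (nat_lit 492299) (.g (nat_lit 2656) (.e (nat_lit 163871) (nat_lit 2) (.e (nat_lit 196670) (nat_lit 14) (.e (nat_lit 73746) (nat_lit 3) (.e (nat_lit 516131) (nat_lit 3) (.e (nat_lit 221215) (nat_lit 23) (.e (nat_lit 204828) (nat_lit 18) (.e (nat_lit 57927) (nat_lit 282) .nil))))))) (.g (nat_lit 1) (.e (nat_lit 147830) (nat_lit 0) .nil) .nil))))) (.nd (nat_lit 8) (.nd (nat_lit 9) 
(.lf (nat_lit 491659) (.g (nat_lit 3711) (.e (nat_lit 163869) (nat_lit 2) (.e (nat_lit 196670) (nat_lit 14) (.e (nat_lit 73746) (nat_lit 3) (.e (nat_lit 516129) (nat_lit 3) (.e (nat_lit 221214) (nat_lit 23) (.e (nat_lit 204829) (nat_lit 18) (.e (nat_lit 57930) (nat_lit 282) .nil))))))) (.g (nat_lit 1) (.e (nat_lit 146565) (nat_lit 0) .nil) .nil))) 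
(.lf (nat_lit 492171) (.g (nat_lit 2562) (.e (nat_lit 163871) (nat_lit 2) (.e (nat_lit 196668) (nat_lit 14) (.e (nat_lit 73747) (nat_lit 3) (.e (nat_lit 516129) (nat_lit 3) (.e (nat_lit 221214) (nat_lit 23) (.e (nat_lit 204828) (nat_lit 18) (.e (nat_lit 57925) (nat_lit 282) .nil))))))) (.g (nat_lit 1) (.e (nat_lit 147607) (nat_lit 0) .nil) .nil)))) (.nd (nat_lit 9) 
(.lf (nat_lit 491915) (.g (nat_lit 3350) (.e (nat_lit 163870) (nat_lit 2) (.e (nat_lit 196666) (nat_lit 13) (.e (nat_lit 65610) (nat_lit 10) (.e (nat_lit 344117) (nat_lit 21) (.e (nat_lit 516151) (nat_lit 9) (.e (nat_lit 426034) (nat_lit 0) (.e (nat_lit 2424) (nat_lit 157) (.e (nat_lit 7936) (nat_lit 285) .nil)))))))) (.g (nat_lit 1) (.e (nat_lit 147104) (nat_lit 0) .nil) .nil))) 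
(.lf (nat_lit 492427) (.g (nat_lit 3877) (.e (nat_lit 163873) (nat_lit 3) (.e (nat_lit 204809) (nat_lit 9) (.e (nat_lit 426187) (nat_lit 9) (.e (nat_lit 426566) (nat_lit 34) (.e (nat_lit 393253) (nat_lit 18) (.e (nat_lit 164332) (nat_lit 230) .nil)))))) (.g (nat_lit 1) (.e (nat_lit 148361) (nat_lit 0) .nil) .nil)))))) (.nd (nat_lit 7) (.nd (nat_lit 8) (.nd (nat_lit 9) 
(.lf (nat_lit 491595) (.g (nat_lit 760) (.e (nat_lit 163869) (nat_lit 2) (.e (nat_lit 196668) (nat_lit 14) (.e (nat_lit 73747) (nat_lit 3) (.e (nat_lit 516131) (nat_lit 3) .nil)))) (.g (nat_lit 0) (.e (nat_lit 146436) (nat_lit 0) .nil) .nil))) 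
(.lf (nat_lit 492107) (.g (nat_lit 2413) (.e (nat_lit 163871) (nat_lit 2) (.e (nat_lit 196656) (nat_lit 11) (.e (nat_lit 16465) (nat_lit 13) (.e (nat_lit 491264) (nat_lit 10) (.e (nat_lit 434209) (nat_lit 18) (.e (nat_lit 5223) (nat_lit 296) .nil)))))) (.g (nat_lit 1) (.e (nat_lit 147431) (nat_lit 0) .nil) .nil)))) (.nd (nat_lit 9) 
(.lf (nat_lit 491851) (.g (nat_lit 2880) (.e (nat_lit 163870) (nat_lit 2) (.e (nat_lit 196666) (nat_lit 13) (.e (nat_lit 65571) (nat_lit 3) (.e (nat_lit 98342) (nat_lit 20) (.e (nat_lit 221213) (nat_lit 23) (.e (nat_lit 204830) (nat_lit 18) (.e (nat_lit 57924) (nat_lit 282) .nil))))))) (.g (nat_lit 1) (.e (nat_lit 146991) (nat_lit 0) .nil) .nil))) 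
(.lf (nat_lit 492363) (.g (nat_lit 2686) (.e (nat_lit 163872) (nat_lit 3) (.e (nat_lit 204838) (nat_lit 20) (.e (nat_lit 114714) (nat_lit 22) (.e (nat_lit 90172) (nat_lit 14) (.e (nat_lit 180243) (nat_lit 5) .nil))))) (.g (nat_lit 0) (.e (nat_lit 148271) (nat_lit 0) .nil) .nil))))) (.nd (nat_lit 8) (.nd (nat_lit 9) 
(.lf (nat_lit 491723) (.g (nat_lit 3534) (.e (nat_lit 163869) (nat_lit 2) (.e (nat_lit 196670) (nat_lit 14) (.e (nat_lit 73754) (nat_lit 8) (.e (nat_lit 557105) (nat_lit 14) (.e (nat_lit 180245) (nat_lit 5) (.e (nat_lit 532503) (nat_lit 1) (.e (nat_lit 65280) (nat_lit 168) .nil))))))) (.g (nat_lit 1) (.e (nat_lit 146666) (nat_lit 0) .nil) .nil))) 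
(.lf (nat_lit 492235) (.g (nat_lit 3030) (.e (nat_lit 163871) (nat_lit 2) (.e (nat_lit 196668) (nat_lit 14) (.e (nat_lit 73753) (nat_lit 8) (.e (nat_lit 557103) (nat_lit 14) (.e (nat_lit 180244) (nat_lit 5) (.e (nat_lit 532504) (nat_lit 1) (.e (nat_lit 65280) (nat_lit 168) .nil))))))) (.g (nat_lit 1) (.e (nat_lit 147753) (nat_lit 0) .nil) .nil)))) (.nd (nat_lit 9) 
(.lf (nat_lit 491979) (.g (nat_lit 3631) (.e (nat_lit 163870) (nat_lit 2) (.e (nat_lit 196666) (nat_lit 13) (.e (nat_lit 65610) (nat_lit 10) (.e (nat_lit 344117) (nat_lit 21) (.e (nat_lit 516159) (nat_lit 10) (.e (nat_lit 434216) (nat_lit 18) (.e (nat_lit 7936) (nat_lit 285) .nil))))))) (.g (nat_lit 1) (.e (nat_lit 147179) (nat_lit 0) .nil) .nil))) 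
(.lf (nat_lit 492491) (.g (nat_lit 2065) (.e (nat_lit 163873) (nat_lit 3) (.e (nat_lit 204811) (nat_lit 9) (.e (nat_lit 426232) (nat_lit 9) (.e (nat_lit 426565) (nat_lit 34) (.e (nat_lit 393251) (nat_lit 18) (.e (nat_lit 164325) (nat_lit 230) .nil)))))) (.g (nat_lit 1) (.e (nat_lit 148524) (nat_lit 0) .nil) .nil))))))) (.nd (nat_lit 6) (.nd (nat_lit 7) (.nd (nat_lit 8) (.nd (nat_lit 9) 
(.lf (nat_lit 491563) (.g (nat_lit 3966) (.e (nat_lit 163869) (nat_lit 2) (.e (nat_lit 196668) (nat_lit 14) (.e (nat_lit 73746) (nat_lit 3) (.e (nat_lit 516129) (nat_lit 3) (.e (nat_lit 221215) (nat_lit 23) (.e (nat_lit 204829) (nat_lit 18) (.e (nat_lit 57927) (nat_lit 282) .nil))))))) (.g (nat_lit 1) (.e (nat_lit 146369) (nat_lit 0) .nil) .nil))) 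
(.lf (nat_lit 492075) (.g (nat_lit 1050) (.e (nat_lit 163871) (nat_lit 2) (.e (nat_lit 196655) (nat_lit 11) (.e (nat_lit 16435) (nat_lit 9) (.e (nat_lit 426529) (nat_lit 27) (.e (nat_lit 336387) (nat_lit 27) .nil))))) (.g (nat_lit 0) (.e (nat_lit 147356) (nat_lit 0) .nil) .nil)))) (.nd (nat_lit 9) 
(.lf (nat_lit 491819) (.g (nat_lit 4686) (.e (nat_lit 163870) (nat_lit 2) (.e (nat_lit 196666) (nat_lit 13) (.e (nat_lit 65569) (nat_lit 3) (.e (nat_lit 98342) (nat_lit 20) (.e (nat_lit 221214) (nat_lit 23) (.e (nat_lit 204829) (nat_lit 18) (.e (nat_lit 57925) (nat_lit 282) .nil))))))) (.g (nat_lit 1) (.e (nat_lit 146932) (nat_lit 0) .nil) .nil))) 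
(.lf (nat_lit 492331) (.g (nat_lit 380) (.e (nat_lit 163871) (nat_lit 2) (.e (nat_lit 196672) (nat_lit 15) (.e (nat_lit 89856) (nat_lit 11) .nil))) (.g (nat_lit 0) (.e (nat_lit 147868) (nat_lit 0) .nil) .nil))))) (.nd (nat_lit 8) (.nd (nat_lit 9) 
(.lf (nat_lit 491691) (.g (nat_lit 2605) (.e (nat_lit 163869) (nat_lit 2) (.e (nat_lit 196670) (nat_lit 14) (.e (nat_lit 73748) (nat_lit 3) (.e (nat_lit 516131) (nat_lit 3) (.e (nat_lit 221215) (nat_lit 23) (.e (nat_lit 204830) (nat_lit 18) (.e (nat_lit 57927) (nat_lit 282) .nil))))))) (.g (nat_lit 1) (.e (nat_lit 146613) (nat_lit 0) .nil) .nil))) 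
(.lf (nat_lit 492203) (.g (nat_lit 2157) (.e (nat_lit 163871) (nat_lit 2) (.e (nat_lit 196668) (nat_lit 14) (.e (nat_lit 73747) (nat_lit 3) (.e (nat_lit 516130) (nat_lit 3) (.e (nat_lit 221215) (nat_lit 23) (.e (nat_lit 204829) (nat_lit 18) (.e (nat_lit 57926) (nat_lit 282) .nil))))))) (.g (nat_lit 1) (.e (nat_lit 147642) (nat_lit 0) .nil) .nil)))) (.nd (nat_lit 9) 
(.lf (nat_lit 491947) (.g (nat_lit 4003) (.e (nat_lit 163870) (nat_lit 2) (.e (nat_lit 196666) (nat_lit 13) (.e (nat_lit 65610) (nat_lit 10) (.e (nat_lit 344117) (nat_lit 21) (.e (nat_lit 516151) (nat_lit 9) (.e (nat_lit 426043) (nat_lit 0) (.e (nat_lit 2425) (nat_lit 157) (.e (nat_lit 4848) (nat_lit 285) .nil)))))))) (.g (nat_lit 1) (.e (nat_lit 147136) (nat_lit 0) .nil) .nil))) 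
(.lf (nat_lit 492459) (.g (nat_lit 2965) (.e (nat_lit 163873) (nat_lit 3) (.e (nat_lit 204809) (nat_lit 9) (.e (nat_lit 426198) (nat_lit 9) (.e (nat_lit 426566) (nat_lit 34) (.e (nat_lit 393253) (nat_lit 18) (.e (nat_lit 164327) (nat_lit 230) .nil)))))) (.g (nat_lit 1) (.e (nat_lit 148393) (nat_lit 0) .nil) .nil)))))) (.nd (nat_lit 7) (.nd (nat_lit 8) (.nd (nat_lit 9) 
(.lf (nat_lit 491627) (.g (nat_lit 2350) (.e (nat_lit 163869) (nat_lit 2) (.e (nat_lit 196670) (nat_lit 14) (.e (nat_lit 73746) (nat_lit 3) (.e (nat_lit 516124) (nat_lit 2) (.e (nat_lit 213034) (nat_lit 12) (.e (nat_lit 163964) (nat_lit 25) (.e (nat_lit 532503) (nat_lit 1) (.e (nat_lit 57931) (nat_lit 282) .nil)))))))) (.g (nat_lit 1) (.e (nat_lit 146521) (nat_lit 0) .nil) .nil))) 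
(.lf (nat_lit 492139) (.g (nat_lit 3805) (.e (nat_lit 163871) (nat_lit 2) (.e (nat_lit 196668) (nat_lit 14) (.e (nat_lit 73746) (nat_lit 3) (.e (nat_lit 516129) (nat_lit 3) (.e (nat_lit 221215) (nat_lit 23) (.e (nat_lit 204829) (nat_lit 18) (.e (nat_lit 57927) (nat_lit 282) .nil))))))) (.g (nat_lit 1) (.e (nat_lit 147518) (nat_lit 0) .nil) .nil)))) (.nd (nat_lit 9) 
(.lf (nat_lit 491883) (.g (nat_lit 2836) (.e (nat_lit 163870) (nat_lit 2) (.e (nat_lit 196666) (nat_lit 13) (.e (nat_lit 65610) (nat_lit 10) (.e (nat_lit 344117) (nat_lit 21) (.e (nat_lit 516145) (nat_lit 9) .nil))))) (.g (nat_lit 0) (.e (nat_lit 147039) (nat_lit 0) .nil) .nil))) 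
(.lf (nat_lit 492395) (.g (nat_lit 2272) (.e (nat_lit 163872) (nat_lit 3) (.e (nat_lit 204838) (nat_lit 20) (.e (nat_lit 114718) (nat_lit 23) (.e (nat_lit 98365) (nat_lit 26) (.e (nat_lit 426133) (nat_lit 3) .nil))))) (.g (nat_lit 0) (.e (nat_lit 148304) (nat_lit 0) .nil) .nil))))) (.nd (nat_lit 8) (.nd (nat_lit 9) 
(.lf (nat_lit 491755) (.g (nat_lit 3434) (.e (nat_lit 163869) (nat_lit 2) (.e (nat_lit 196681) (nat_lit 17) (.e (nat_lit 131109) (nat_lit 9) (.e (nat_lit 336454) (nat_lit 34) (.e (nat_lit 483363) (nat_lit 18) (.e (nat_lit 57926) (nat_lit 282) .nil)))))) (.g (nat_lit 1) (.e (nat_lit 146839) (nat_lit 0) .nil) .nil))) 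
(.lf (nat_lit 492267) (.g (nat_lit 2555) (.e (nat_lit 163871) (nat_lit 2) (.e (nat_lit 196670) (nat_lit 14) (.e (nat_lit 73746) (nat_lit 3) (.e (nat_lit 516129) (nat_lit 3) (.e (nat_lit 221214) (nat_lit 23) (.e (nat_lit 204829) (nat_lit 18) (.e (nat_lit 57924) (nat_lit 282) .nil))))))) (.g (nat_lit 1) (.e (nat_lit 147795) (nat_lit 0) .nil) .nil)))) (.nd (nat_lit 9) 
(.lf (nat_lit 492011) (.g (nat_lit 1208) (.e (nat_lit 163870) (nat_lit 2) (.e (nat_lit 196666) (nat_lit 13) (.e (nat_lit 65625) (nat_lit 13) (.e (nat_lit 393227) (nat_lit 9) .nil)))) (.g (nat_lit 0) (.e (nat_lit 147241) (nat_lit 0) .nil) .nil))) 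
(.lf (nat_lit 492523) (.g (nat_lit 588) (.e (nat_lit 163873) (nat_lit 3) (.e (nat_lit 204813) (nat_lit 9) (.e (nat_lit 426031) (nat_lit 0) .nil))) (.g (nat_lit 0) (.e (nat_lit 148561) (nat_lit 0) .nil) .nil)))))))) (.nd (nat_lit 5) (.nd (nat_lit 6) (.nd (nat_lit 7) (.nd (nat_lit 8) (.nd (nat_lit 9) 
(.lf (nat_lit 491547) (.g (nat_lit 2779) (.e (nat_lit 163869) (nat_lit 2) (.e (nat_lit 196666) (nat_lit 13) (.e (nat_lit 65626) (nat_lit 13) (.e (nat_lit 393225) (nat_lit 9) (.e (nat_lit 335995) (nat_lit 1) (.e (nat_lit 57931) (nat_lit 282) .nil)))))) (.g (nat_lit 1) (.e (nat_lit 146327) (nat_lit 0) .nil) .nil))) 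
(.lf (nat_lit 492059) (.g (nat_lit 387) (.e (nat_lit 163871) (nat_lit 2) (.e (nat_lit 196654) (nat_lit 11) (.e (nat_lit 16463) (nat_lit 13) .nil))) (.g (nat_lit 0) (.e (nat_lit 147330) (nat_lit 0) .nil) .nil)))) (.nd (nat_lit 9) 
(.lf (nat_lit 491803) (.g (nat_lit 3221) (.e (nat_lit 163870) (nat_lit 2) (.e (nat_lit 196666) (nat_lit 13) (.e (nat_lit 65569) (nat_lit 3) (.e (nat_lit 98341) (nat_lit 20) (.e (nat_lit 221214) (nat_lit 23) (.e (nat_lit 204829) (nat_lit 18) (.e (nat_lit 57928) (nat_lit 282) .nil))))))) (.g (nat_lit 1) (.e (nat_lit 146912) (nat_lit 0) .nil) .nil))) 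
(.lf (nat_lit 492315) (.g (nat_lit 4349) (.e (nat_lit 163871) (nat_lit 2) (.e (nat_lit 196670) (nat_lit 14) (.e (nat_lit 73753) (nat_lit 8) (.e (nat_lit 557103) (nat_lit 14) (.e (nat_lit 180244) (nat_lit 5) (.e (nat_lit 532499) (nat_lit 1) (.e (nat_lit 65280) (nat_lit 168) .nil))))))) (.g (nat_lit 1) (.e (nat_lit 147848) (nat_lit 0) .nil) .nil))))) (.nd (nat_lit 8) (.nd (nat_lit 9) 
(.lf (nat_lit 491675) (.g (nat_lit 1265) (.e (nat_lit 163869) (nat_lit 2) (.e (nat_lit 196670) (nat_lit 14) (.e (nat_lit 73746) (nat_lit 3) (.e (nat_lit 516131) (nat_lit 3) (.e (nat_lit 221212) (nat_lit 22) .nil))))) (.g (nat_lit 0) (.e (nat_lit 146584) (nat_lit 0) .nil) .nil))) 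
(.lf (nat_lit 492187) (.g (nat_lit 3276) (.e (nat_lit 163871) (nat_lit 2) (.e (nat_lit 196668) (nat_lit 14) (.e (nat_lit 73747) (nat_lit 3) (.e (nat_lit 516129) (nat_lit 3) (.e (nat_lit 221215) (nat_lit 23) (.e (nat_lit 204828) (nat_lit 18) (.e (nat_lit 57928) (nat_lit 282) .nil))))))) (.g (nat_lit 1) (.e (nat_lit 147626) (nat_lit 0) .nil) .nil)))) (.nd (nat_lit 9) 
(.lf (nat_lit 491931) (.g (nat_lit 4124) (.e (nat_lit 163870) (nat_lit 2) (.e (nat_lit 196666) (nat_lit 13) (.e (nat_lit 65610) (nat_lit 10) (.e (nat_lit 344117) (nat_lit 21) (.e (nat_lit 516151) (nat_lit 9) (.e (nat_lit 426042) (nat_lit 0) (.e (nat_lit 2424) (nat_lit 157) (.e (nat_lit 4848) (nat_lit 285) .nil)))))))) (.g (nat_lit 1) (.e (nat_lit 147120) (nat_lit 0) .nil) .nil))) 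
(.lf (nat_lit 492443) (.g (nat_lit 3458) (.e (nat_lit 163873) (nat_lit 3) (.e (nat_lit 204809) (nat_lit 9) (.e (nat_lit 426189) (nat_lit 9) (.e (nat_lit 426566) (nat_lit 34) (.e (nat_lit 393253) (nat_lit 18) (.e (nat_lit 164332) (nat_lit 230) .nil)))))) (.g (nat_lit 1) (.e (nat_lit 148377) (nat_lit 0) .nil) .nil)))))) (.nd (nat_lit 7) (.nd (nat_lit 8) (.nd (nat_lit 9) 
(.lf (nat_lit 491611) (.g (nat_lit 2574) (.e (nat_lit 163869) (nat_lit 2) (.e (nat_lit 196668) (nat_lit 14) (.e (nat_lit 73753) (nat_lit 8) (.e (nat_lit 557104) (nat_lit 14) (.e (nat_lit 180244) (nat_lit 5) (.e (nat_lit 532503) (nat_lit 1) (.e (nat_lit 65280) (nat_lit 168) .nil))))))) (.g (nat_lit 1) (.e (nat_lit 146495) (nat_lit 0) .nil) .nil))) 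
(.lf (nat_lit 492123) (.g (nat_lit 859) (.e (nat_lit 163871) (nat_lit 2) (.e (nat_lit 196666) (nat_lit 13) (.e (nat_lit 65569) (nat_lit 3) .nil))) (.g (nat_lit 0) (.e (nat_lit 147465) (nat_lit 0) .nil) .nil)))) (.nd (nat_lit 9) 
(.lf (nat_lit 491867) (.g (nat_lit 4372) (.e (nat_lit 163870) (nat_lit 2) (.e (nat_lit 196666) (nat_lit 13) (.e (nat_lit 65571) (nat_lit 3) (.e (nat_lit 98342) (nat_lit 20) (.e (nat_lit 221215) (nat_lit 23) (.e (nat_lit 204829) (nat_lit 18) (.e (nat_lit 57925) (nat_lit 282) .nil))))))) (.g (nat_lit 1) (.e (nat_lit 147011) (nat_lit 0) .nil) .nil))) 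
(.lf (nat_lit 492379) (.g (nat_lit 3904) (.e (nat_lit 163872) (nat_lit 3) (.e (nat_lit 204838) (nat_lit 20) (.e (nat_lit 114716) (nat_lit 22) (.e (nat_lit 90172) (nat_lit 14) (.e (nat_lit 180244) (nat_lit 5) (.e (nat_lit 532499) (nat_lit 1) (.e (nat_lit 57691) (nat_lit 156) .nil))))))) (.g (nat_lit 1) (.e (nat_lit 148288) (nat_lit 0) .nil) .nil))))) (.nd (nat_lit 8) (.nd (nat_lit 9) 
(.lf (nat_lit 491739) (.g (nat_lit 347) (.e (nat_lit 163869) (nat_lit 2) (.e (nat_lit 196681) (nat_lit 17) (.e (nat_lit 131105) (nat_lit 9) .nil))) (.g (nat_lit 0) (.e (nat_lit 146803) (nat_lit 0) .nil) .nil))) 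
(.lf (nat_lit 492251) (.g (nat_lit 2201) (.e (nat_lit 163871) (nat_lit 2) (.e (nat_lit 196670) (nat_lit 14) (.e (nat_lit 73746) (nat_lit 3) (.e (nat_lit 516126) (nat_lit 2) (.e (nat_lit 213036) (nat_lit 13) (.e (nat_lit 229433) (nat_lit 25) (.e (nat_lit 532501) (nat_lit 1) (.e (nat_lit 57924) (nat_lit 282) .nil)))))))) (.g (nat_lit 1) (.e (nat_lit 147779) (nat_lit 0) .nil) .nil)))) 
(.nd (nat_lit 9) 
(.lf (nat_lit 491995) (.g (nat_lit 3325) (.e (nat_lit 163870) (nat_lit 2) (.e (nat_lit 196666) (nat_lit 13) (.e (nat_lit 65610) (nat_lit 10) (.e (nat_lit 344117) (nat_lit 21) (.e (nat_lit 516160) (nat_lit 10) (.e (nat_lit 434210) (nat_lit 18) (.e (nat_lit 7936) (nat_lit 285) .nil))))))) (.g (nat_lit 1) (.e (nat_lit 147195) (nat_lit 0) .nil) .nil))) 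
(.lf (nat_lit 492507) (.g (nat_lit 2150) (.e (nat_lit 163873) (nat_lit 3) (.e (nat_lit 204811) (nat_lit 9) (.e (nat_lit 426260) (nat_lit 9) (.e (nat_lit 426565) (nat_lit 34) (.e (nat_lit 393253) (nat_lit 18) (.e (nat_lit 164332) (nat_lit 230) .nil)))))) (.g (nat_lit 1) (.e (nat_lit 148540) (nat_lit 0) .nil) .nil))))))) (.nd (nat_lit 6) (.nd (nat_lit 7) (.nd (nat_lit 8) (.nd (nat_lit 9) 
(.lf (nat_lit 491579) (.g (nat_lit 2774) (.e (nat_lit 163869) (nat_lit 2) (.e (nat_lit 196668) (nat_lit 14) (.e (nat_lit 73747) (nat_lit 3) (.e (nat_lit 516129) (nat_lit 3) (.e (nat_lit 221214) (nat_lit 23) (.e (nat_lit 204828) (nat_lit 18) (.e (nat_lit 57927) (nat_lit 282) .nil))))))) (.g (nat_lit 1) (.e (nat_lit 146414) (nat_lit 0) .nil) .nil))) 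
(.lf (nat_lit 492091) (.g (nat_lit 3853) (.e (nat_lit 163871) (nat_lit 2) (.e (nat_lit 196656) (nat_lit 11) (.e (nat_lit 16434) (nat_lit 9) (.e (nat_lit 426566) (nat_lit 34) (.e (nat_lit 393253) (nat_lit 18) (.e (nat_lit 164325) (nat_lit 230) .nil)))))) (.g (nat_lit 1) (.e (nat_lit 147402) (nat_lit 0) .nil) .nil)))) (.nd (nat_lit 9) 
(.lf (nat_lit 491835) (.g (nat_lit 3059) (.e (nat_lit 163870) (nat_lit 2) (.e (nat_lit 196666) (nat_lit 13) (.e (nat_lit 65571) (nat_lit 3) (.e (nat_lit 98341) (nat_lit 20) (.e (nat_lit 221213) (nat_lit 23) (.e (nat_lit 204830) (nat_lit 18) (.e (nat_lit 57928) (nat_lit 282) .nil))))))) (.g (nat_lit 1) (.e (nat_lit 146961) (nat_lit 0) .nil) .nil))) 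
(.lf (nat_lit 492347) (.g (nat_lit 2217) (.e (nat_lit 163872) (nat_lit 3) (.e (nat_lit 204837) (nat_lit 20) (.e (nat_lit 114714) (nat_lit 22) (.e (nat_lit 90172) (nat_lit 14) (.e (nat_lit 180244) (nat_lit 5) (.e (nat_lit 532501) (nat_lit 1) (.e (nat_lit 57690) (nat_lit 156) .nil))))))) (.g (nat_lit 1) (.e (nat_lit 148254) (nat_lit 0) .nil) .nil))))) (.nd (nat_lit 8) (.nd (nat_lit 9) 
(.lf (nat_lit 491707) (.g (nat_lit 3316) (.e (nat_lit 163869) (nat_lit 2) (.e (nat_lit 196670) (nat_lit 14) (.e (nat_lit 73753) (nat_lit 8) (.e (nat_lit 557105) (nat_lit 14) (.e (nat_lit 180245) (nat_lit 5) (.e (nat_lit 532499) (nat_lit 1) (.e (nat_lit 65280) (nat_lit 168) .nil))))))) (.g (nat_lit 1) (.e (nat_lit 146644) (nat_lit 0) .nil) .nil))) 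
(.lf (nat_lit 492219) (.g (nat_lit 3513) (.e (nat_lit 163871) (nat_lit 2) (.e (nat_lit 196668) (nat_lit 14) (.e (nat_lit 73747) (nat_lit 3) (.e (nat_lit 516131) (nat_lit 3) (.e (nat_lit 221215) (nat_lit 23) (.e (nat_lit 204828) (nat_lit 18) (.e (nat_lit 57928) (nat_lit 282) .nil))))))) (.g (nat_lit 1) (.e (nat_lit 147686) (nat_lit 0) .nil) .nil)))) (.nd (nat_lit 9) 
(.lf (nat_lit 491963) (.g (nat_lit 3463) (.e (nat_lit 163870) (nat_lit 2) (.e (nat_lit 196666) (nat_lit 13) (.e (nat_lit 65610) (nat_lit 10) (.e (nat_lit 344117) (nat_lit 21) (.e (nat_lit 516159) (nat_lit 10) (.e (nat_lit 434200) (nat_lit 18) (.e (nat_lit 4848) (nat_lit 285) .nil))))))) (.g (nat_lit 1) (.e (nat_lit 147163) (nat_lit 0) .nil) .nil))) 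
(.lf (nat_lit 492475) (.g (nat_lit 2739) (.e (nat_lit 163873) (nat_lit 3) (.e (nat_lit 204809) (nat_lit 9) (.e (nat_lit 426200) (nat_lit 9) (.e (nat_lit 426568) (nat_lit 34) (.e (nat_lit 393251) (nat_lit 18) (.e (nat_lit 164327) (nat_lit 230) .nil)))))) (.g (nat_lit 1) (.e (nat_lit 148410) (nat_lit 0) .nil) .nil)))))) (.nd (nat_lit 7) (.nd (nat_lit 8) (.nd (nat_lit 9) 
(.lf (nat_lit 491643) (.g (nat_lit 2415) (.e (nat_lit 163869) (nat_lit 2) (.e (nat_lit 196670) (nat_lit 14) (.e (nat_lit 73746) (nat_lit 3) (.e (nat_lit 516127) (nat_lit 2) (.e (nat_lit 213034) (nat_lit 12) (.e (nat_lit 163964) (nat_lit 25) (.e (nat_lit 532499) (nat_lit 1) (.e (nat_lit 57927) (nat_lit 282) .nil)))))))) (.g (nat_lit 1) (.e (nat_lit 146537) (nat_lit 0) .nil) .nil))) 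
(.lf (nat_lit 492155) (.g (nat_lit 2440) (.e (nat_lit 163871) (nat_lit 2) (.e (nat_lit 196668) (nat_lit 14) (.e (nat_lit 73746) (nat_lit 3) (.e (nat_lit 516131) (nat_lit 3) (.e (nat_lit 221215) (nat_lit 23) (.e (nat_lit 204828) (nat_lit 18) (.e (nat_lit 57925) (nat_lit 282) .nil))))))) (.g (nat_lit 1) (.e (nat_lit 147551) (nat_lit 0) .nil) .nil)))) (.nd (nat_lit 9) 
(.lf (nat_lit 491899) (.g (nat_lit 3432) (.e (nat_lit 163870) (nat_lit 2) (.e (nat_lit 196666) (nat_lit 13) (.e (nat_lit 65610) (nat_lit 10) (.e (nat_lit 344117) (nat_lit 21) (.e (nat_lit 516151) (nat_lit 9) (.e (nat_lit 426017) (nat_lit 0) (.e (nat_lit 2416) (nat_lit 157) (.e (nat_lit 4848) (nat_lit 285) .nil)))))))) (.g (nat_lit 1) (.e (nat_lit 147088) (nat_lit 0) .nil) .nil))) 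
(.lf (nat_lit 492411) (.g (nat_lit 2473) (.e (nat_lit 163872) (nat_lit 3) (.e (nat_lit 204863) (nat_lit 27) (.e (nat_lit 344117) (nat_lit 21) (.e (nat_lit 516130) (nat_lit 3) (.e (nat_lit 221214) (nat_lit 23) .nil))))) (.g (nat_lit 0) (.e (nat_lit 148333) (nat_lit 0) .nil) .nil))))) (.nd (nat_lit 8) (.nd (nat_lit 9) 
(.lf (nat_lit 491771) (.g (nat_lit 559) (.e (nat_lit 163869) (nat_lit 2) (.e (nat_lit 196681) (nat_lit 17) (.e (nat_lit 131124) (nat_lit 13) .nil))) (.g (nat_lit 0) (.e (nat_lit 146859) (nat_lit 0) .nil) .nil))) 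
(.lf (nat_lit 492283) (.g (nat_lit 3254) (.e (nat_lit 163871) (nat_lit 2) (.e (nat_lit 196670) (nat_lit 14) (.e (nat_lit 73746) (nat_lit 3) (.e (nat_lit 516129) (nat_lit 3) (.e (nat_lit 221215) (nat_lit 23) (.e (nat_lit 204830) (nat_lit 18) (.e (nat_lit 57924) (nat_lit 282) .nil))))))) (.g (nat_lit 1) (.e (nat_lit 147811) (nat_lit 0) .nil) .nil)))) (.nd (nat_lit 9) 
(.lf (nat_lit 492027) (.g (nat_lit 3131) (.e (nat_lit 163870) (nat_lit 2) (.e (nat_lit 196670) (nat_lit 14) (.e (nat_lit 73746) (nat_lit 3) (.e (nat_lit 516129) (nat_lit 3) (.e (nat_lit 221214) (nat_lit 23) (.e (nat_lit 204829) (nat_lit 18) (.e (nat_lit 57927) (nat_lit 282) .nil))))))) (.g (nat_lit 1) (.e (nat_lit 147267) (nat_lit 0) .nil) .nil))) 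
(.lf (nat_lit 492539) (.g (nat_lit 5187) (.e (nat_lit 163873) (nat_lit 3) (.e (nat_lit 204813) (nat_lit 9) (.e (nat_lit 426187) (nat_lit 9) (.e (nat_lit 426566) (nat_lit 34) (.e (nat_lit 393253) (nat_lit 18) (.e (nat_lit 164324) (nat_lit 230) .nil)))))) (.g (nat_lit 1) (.e (nat_lit 148614) (nat_lit 0) .nil) .nil)))))))))) 
(.nd (nat_lit 3) (.nd (nat_lit 4) (.nd (nat_lit 5) (.nd (nat_lit 6) (.nd (nat_lit 7) 
(.nd (nat_lit 8) (.nd (nat_lit 9) 
(.lf (nat_lit 491527) (.g (nat_lit 2822) (.e (nat_lit 163869) (nat_lit 2) (.e (nat_lit 196666) (nat_lit 13) (.e (nat_lit 65610) (nat_lit 10) (.e (nat_lit 344117) (nat_lit 21) (.e (nat_lit 516160) (nat_lit 10) (.e (nat_lit 434199) (nat_lit 18) (.e (nat_lit 4849) (nat_lit 285) .nil))))))) (.g (nat_lit 1) (.e (nat_lit 146281) (nat_lit 0) .nil) .nil))) 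
(.lf (nat_lit 492039) (.g (nat_lit 1412) (.e (nat_lit 163871) (nat_lit 2) (.e (nat_lit 196654) (nat_lit 11) (.e (nat_lit 16416) (nat_lit 3) (.e (nat_lit 204838) (nat_lit 20) .nil)))) (.g (nat_lit 0) (.e (nat_lit 147298) (nat_lit 0) .nil) .nil)))) (.nd (nat_lit 9) 
(.lf (nat_lit 491783) (.g (nat_lit 2835) (.e (nat_lit 163869) (nat_lit 2) (.e (nat_lit 196681) (nat_lit 17) (.e (nat_lit 131128) (nat_lit 13) (.e (nat_lit 393225) (nat_lit 9) (.e (nat_lit 335986) (nat_lit 1) (.e (nat_lit 57927) (nat_lit 282) .nil)))))) (.g (nat_lit 1) (.e (nat_lit 146880) (nat_lit 0) .nil) .nil))) 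
(.lf (nat_lit 492295) (.g (nat_lit 3230) (.e (nat_lit 163871) (nat_lit 2) (.e (nat_lit 196670) (nat_lit 14) (.e (nat_lit 73746) (nat_lit 3) (.e (nat_lit 516131) (nat_lit 3) (.e (nat_lit 221214) (nat_lit 23) (.e (nat_lit 204830) (nat_lit 18) (.e (nat_lit 57927) (nat_lit 282) .nil))))))) (.g (nat_lit 1) (.e (nat_lit 147826) (nat_lit 0) .nil) .nil))))) (.nd (nat_lit 8) (.nd (nat_lit 9) 
(.lf (nat_lit 491655) (.g (nat_lit 3145) (.e (nat_lit 163869) (nat_lit 2) (.e (nat_lit 196670) (nat_lit 14) (.e (nat_lit 73746) (nat_lit 3) (.e (nat_lit 516129) (nat_lit 3) (.e (nat_lit 221214) (nat_lit 23) (.e (nat_lit 204828) (nat_lit 18) (.e (nat_lit 57926) (nat_lit 282) .nil))))))) (.g (nat_lit 1) (.e (nat_lit 146561) (nat_lit 0) .nil) .nil))) 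
(.lf (nat_lit 492167) (.g (nat_lit 2633) (.e (nat_lit 163871) (nat_lit 2) (.e (nat_lit 196668) (nat_lit 14) (.e (nat_lit 73747) (nat_lit 3) (.e (nat_lit 516129) (nat_lit 3) (.e (nat_lit 221213) (nat_lit 23) (.e (nat_lit 204829) (nat_lit 18) (.e (nat_lit 57925) (nat_lit 282) .nil))))))) (.g (nat_lit 1) (.e (nat_lit 147599) (nat_lit 0) .nil) .nil)))) (.nd (nat_lit 9) 
(.lf (nat_lit 491911) (.g (nat_lit 3930) (.e (nat_lit 163870) (nat_lit 2) (.e (nat_lit 196666) (nat_lit 13) (.e (nat_lit 65610) (nat_lit 10) (.e (nat_lit 344117) (nat_lit 21) (.e (nat_lit 516151) (nat_lit 9) (.e (nat_lit 426023) (nat_lit 0) (.e (nat_lit 2397) (nat_lit 157) (.e (nat_lit 4849) (nat_lit 285) .nil)))))))) (.g (nat_lit 1) (.e (nat_lit 147100) (nat_lit 0) .nil) .nil))) 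
(.lf (nat_lit 492423) (.g (nat_lit 3891) (.e (nat_lit 163873) (nat_lit 3) (.e (nat_lit 204809) (nat_lit 9) (.e (nat_lit 426187) (nat_lit 9) (.e (nat_lit 426566) (nat_lit 34) (.e (nat_lit 393253) (nat_lit 18) (.e (nat_lit 164324) (nat_lit 230) .nil)))))) (.g (nat_lit 1) (.e (nat_lit 148357) (nat_lit 0) .nil) .nil)))))) (.nd (nat_lit 7) (.nd (nat_lit 8) (.nd (nat_lit 9) 
(.lf (nat_lit 491591) (.g (nat_lit 2707) (.e (nat_lit 163869) (nat_lit 2) (.e (nat_lit 196668) (nat_lit 14) (.e (nat_lit 73747) (nat_lit 3) (.e (nat_lit 516129) (nat_lit 3) (.e (nat_lit 221215) (nat_lit 23) (.e (nat_lit 204830) (nat_lit 18) (.e (nat_lit 57925) (nat_lit 282) .nil))))))) (.g (nat_lit 1) (.e (nat_lit 146431) (nat_lit 0) .nil) .nil))) 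
(.lf (nat_lit 492103) (.g (nat_lit 2244) (.e (nat_lit 163871) (nat_lit 2) (.e (nat_lit 196656) (nat_lit 11) (.e (nat_lit 16465) (nat_lit 13) (.e (nat_lit 483340) (nat_lit 9) .nil)))) (.g (nat_lit 0) (.e (nat_lit 147427) (nat_lit 0) .nil) .nil)))) (.nd (nat_lit 9) 
(.lf (nat_lit 491847) (.g (nat_lit 4008) (.e (nat_lit 163870) (nat_lit 2) (.e (nat_lit 196666) (nat_lit 13) (.e (nat_lit 65571) (nat_lit 3) (.e (nat_lit 98341) (nat_lit 20) (.e (nat_lit 221215) (nat_lit 23) (.e (nat_lit 204830) (nat_lit 18) (.e (nat_lit 57928) (nat_lit 282) .nil))))))) (.g (nat_lit 1) (.e (nat_lit 146975) (nat_lit 0) .nil) .nil))) 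
(.lf (nat_lit 492359) (.g (nat_lit 2099) (.e (nat_lit 163872) (nat_lit 3) (.e (nat_lit 204837) (nat_lit 20) (.e (nat_lit 114719) (nat_lit 23) (.e (nat_lit 98366) (nat_lit 27) (.e (nat_lit 434231) (nat_lit 23) .nil))))) (.g (nat_lit 0) (.e (nat_lit 148266) (nat_lit 0) .nil) .nil))))) (.nd (nat_lit 8) (.nd (nat_lit 9) 
(.lf (nat_lit 491719) (.g (nat_lit 1228) (.e (nat_lit 163869) (nat_lit 2) (.e (nat_lit 196670) (nat_lit 14) (.e (nat_lit 73754) (nat_lit 8) (.e (nat_lit 557105) (nat_lit 14) .nil)))) (.g (nat_lit 0) (.e (nat_lit 146662) (nat_lit 0) .nil) .nil))) 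
(.lf (nat_lit 492231) (.g (nat_lit 3876) (.e (nat_lit 163871) (nat_lit 2) (.e (nat_lit 196668) (nat_lit 14) (.e (nat_lit 73753) (nat_lit 8) (.e (nat_lit 557103) (nat_lit 14) (.e (nat_lit 180243) (nat_lit 5) (.e (nat_lit 532501) (nat_lit 1) (.e (nat_lit 65280) (nat_lit 168) .nil))))))) (.g (nat_lit 1) (.e (nat_lit 147748) (nat_lit 0) .nil) .nil)))) (.nd (nat_lit 9) 
(.lf (nat_lit 491975) (.g (nat_lit 3190) (.e (nat_lit 163870) (nat_lit 2) (.e (nat_lit 196666) (nat_lit 13) (.e (nat_lit 65610) (nat_lit 10) (.e (nat_lit 344117) (nat_lit 21) (.e (nat_lit 516159) (nat_lit 10) (.e (nat_lit 434210) (nat_lit 18) (.e (nat_lit 7936) (nat_lit 285) .nil))))))) (.g (nat_lit 1) (.e (nat_lit 147175) (nat_lit 0) .nil) .nil))) 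
(.lf (nat_lit 492487) (.g (nat_lit 1743) (.e (nat_lit 163873) (nat_lit 3) (.e (nat_lit 204811) (nat_lit 9) (.e (nat_lit 426228) (nat_lit 9) (.e (nat_lit 426565) (nat_lit 34) (.e (nat_lit 393253) (nat_lit 18) (.e (nat_lit 164329) (nat_lit 230) .nil)))))) (.g (nat_lit 1) (.e (nat_lit 148520) (nat_lit 0) .nil) .nil))))))) (.nd (nat_lit 6) (.nd (nat_lit 7) (.nd (nat_lit 8) (.nd (nat_lit 9) 
(.lf (nat_lit 491559) (.g (nat_lit 3925) (.e (nat_lit 163869) (nat_lit 2) (.e (nat_lit 196668) (nat_lit 14) (.e (nat_lit 73746) (nat_lit 3) (.e (nat_lit 516129) (nat_lit 3) (.e (nat_lit 221214) (nat_lit 23) (.e (nat_lit 204830) (nat_lit 18) (.e (nat_lit 57929) (nat_lit 282) .nil))))))) (.g (nat_lit 1) (.e (nat_lit 146363) (nat_lit 0) .nil) .nil))) 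
(.lf (nat_lit 492071) (.g (nat_lit 3443) (.e (nat_lit 163871) (nat_lit 2) (.e (nat_lit 196654) (nat_lit 11) (.e (nat_lit 16466) (nat_lit 13) (.e (nat_lit 483341) (nat_lit 9) (.e (nat_lit 426098) (nat_lit 1) (.e (nat_lit 164327) (nat_lit 230) .nil)))))) (.g (nat_lit 1) (.e (nat_lit 147351) (nat_lit 0) .nil) .nil)))) (.nd (nat_lit 9) 
(.lf (nat_lit 491815) (.g (nat_lit 2932) (.e (nat_lit 163870) (nat_lit 2) (.e (nat_lit 196666) (nat_lit 13) (.e (nat_lit 65569) (nat_lit 3) (.e (nat_lit 98342) (nat_lit 20) (.e (nat_lit 221213) (nat_lit 23) (.e (nat_lit 204830) (nat_lit 18) (.e (nat_lit 57924) (nat_lit 282) .nil))))))) (.g (nat_lit 1) (.e (nat_lit 146927) (nat_lit 0) .nil) .nil))) 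
(.lf (nat_lit 492327) (.g (nat_lit 2579) (.e (nat_lit 163871) (nat_lit 2) (.e (nat_lit 196672) (nat_lit 15) (.e (nat_lit 81927) (nat_lit 11) (.e (nat_lit 426500) (nat_lit 27) (.e (nat_lit 335986) (nat_lit 1) (.e (nat_lit 57924) (nat_lit 282) .nil)))))) (.g (nat_lit 1) (.e (nat_lit 147863) (nat_lit 0) .nil) .nil))))) (.nd (nat_lit 8) (.nd (nat_lit 9) 
(.lf (nat_lit 491687) (.g (nat_lit 2955) (.e (nat_lit 163869) (nat_lit 2) (.e (nat_lit 196670) (nat_lit 14) (.e (nat_lit 73746) (nat_lit 3) (.e (nat_lit 516131) (nat_lit 3) (.e (nat_lit 221215) (nat_lit 23) (.e (nat_lit 204831) (nat_lit 18) (.e (nat_lit 57929) (nat_lit 282) .nil))))))) (.g (nat_lit 1) (.e (nat_lit 146607) (nat_lit 0) .nil) .nil))) 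
(.lf (nat_lit 492199) (.g (nat_lit 2226) (.e (nat_lit 163871) (nat_lit 2) (.e (nat_lit 196668) (nat_lit 14) (.e (nat_lit 73747) (nat_lit 3) (.e (nat_lit 516130) (nat_lit 3) (.e (nat_lit 221214) (nat_lit 23) (.e (nat_lit 204829) (nat_lit 18) (.e (nat_lit 57928) (nat_lit 282) .nil))))))) (.g (nat_lit 1) (.e (nat_lit 147638) (nat_lit 0) .nil) .nil)))) (.nd (nat_lit 9) 
(.lf (nat_lit 491943) (.g (nat_lit 4176) (.e (nat_lit 163870) (nat_lit 2) (.e (nat_lit 196666) (nat_lit 13) (.e (nat_lit 65610) (nat_lit 10) (.e (nat_lit 344117) (nat_lit 21) (.e (nat_lit 516151) (nat_lit 9) (.e (nat_lit 426043) (nat_lit 0) (.e (nat_lit 2423) (nat_lit 157) (.e (nat_lit 4848) (nat_lit 285) .nil)))))))) (.g (nat_lit 1) (.e (nat_lit 147132) (nat_lit 0) .nil) .nil))) 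
(.lf (nat_lit 492455) (.g (nat_lit 2444) (.e (nat_lit 163873) (nat_lit 3) (.e (nat_lit 204809) (nat_lit 9) (.e (nat_lit 426198) (nat_lit 9) (.e (nat_lit 426566) (nat_lit 34) (.e (nat_lit 393251) (nat_lit 18) (.e (nat_lit 164327) (nat_lit 230) .nil)))))) (.g (nat_lit 1) (.e (nat_lit 148389) (nat_lit 0) .nil) .nil)))))) (.nd (nat_lit 7) (.nd (nat_lit 8) (.nd (nat_lit 9) 
(.lf (nat_lit 491623) (.g (nat_lit 2451) (.e (nat_lit 163869) (nat_lit 2) (.e (nat_lit 196670) (nat_lit 14) (.e (nat_lit 73746) (nat_lit 3) (.e (nat_lit 516124) (nat_lit 2) (.e (nat_lit 213034) (nat_lit 12) (.e (nat_lit 163963) (nat_lit 25) (.e (nat_lit 532501) (nat_lit 1) (.e (nat_lit 57929) (nat_lit 282) .nil)))))))) (.g (nat_lit 1) (.e (nat_lit 146517) (nat_lit 0) .nil) .nil))) 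
(.lf (nat_lit 492135) (.g (nat_lit 3909) (.e (nat_lit 163871) (nat_lit 2) (.e (nat_lit 196668) (nat_lit 14) (.e (nat_lit 73746) (nat_lit 3) (.e (nat_lit 516129) (nat_lit 3) (.e (nat_lit 221214) (nat_lit 23) (.e (nat_lit 204830) (nat_lit 18) (.e (nat_lit 57927) (nat_lit 282) .nil))))))) (.g (nat_lit 1) (.e (nat_lit 147514) (nat_lit 0) .nil) .nil)))) (.nd (nat_lit 9) 
(.lf (nat_lit 491879) (.g (nat_lit 4743) (.e (nat_lit 163870) (nat_lit 2) (.e (nat_lit 196666) (nat_lit 13) (.e (nat_lit 65610) (nat_lit 10) (.e (nat_lit 344117) (nat_lit 21) (.e (nat_lit 516143) (nat_lit 9) (.e (nat_lit 426109) (nat_lit 1) (.e (nat_lit 171776) (nat_lit 219) .nil))))))) (.g (nat_lit 1) (.e (nat_lit 147035) (nat_lit 0) .nil) .nil))) 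
(.lf (nat_lit 492391) (.g (nat_lit 3867) (.e (nat_lit 163872) (nat_lit 3) (.e (nat_lit 204838) (nat_lit 20) (.e (nat_lit 114716) (nat_lit 22) (.e (nat_lit 90174) (nat_lit 14) (.e (nat_lit 180243) (nat_lit 5) (.e (nat_lit 532504) (nat_lit 1) (.e (nat_lit 57692) (nat_lit 156) .nil))))))) (.g (nat_lit 1) (.e (nat_lit 148300) (nat_lit 0) .nil) .nil))))) (.nd (nat_lit 8) (.nd (nat_lit 9) 
(.lf (nat_lit 491751) (.g (nat_lit 2949) (.e (nat_lit 163869) (nat_lit 2) (.e (nat_lit 196681) (nat_lit 17) (.e (nat_lit 131105) (nat_lit 9) (.e (nat_lit 336456) (nat_lit 34) (.e (nat_lit 483365) (nat_lit 18) (.e (nat_lit 57931) (nat_lit 282) .nil)))))) (.g (nat_lit 1) (.e (nat_lit 146822) (nat_lit 0) .nil) .nil))) 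
(.lf (nat_lit 492263) (.g (nat_lit 2494) (.e (nat_lit 163871) (nat_lit 2) (.e (nat_lit 196670) (nat_lit 14) (.e (nat_lit 73746) (nat_lit 3) (.e (nat_lit 516129) (nat_lit 3) (.e (nat_lit 221213) (nat_lit 23) (.e (nat_lit 204829) (nat_lit 18) (.e (nat_lit 57928) (nat_lit 282) .nil))))))) (.g (nat_lit 1) (.e (nat_lit 147791) (nat_lit 0) .nil) .nil)))) (.nd (nat_lit 9) 
(.lf (nat_lit 492007) (.g (nat_lit 2964) (.e (nat_lit 163870) (nat_lit 2) (.e (nat_lit 196666) (nat_lit 13) (.e (nat_lit 65625) (nat_lit 13) (.e (nat_lit 393225) (nat_lit 9) (.e (nat_lit 335988) (nat_lit 1) (.e (nat_lit 57925) (nat_lit 282) .nil)))))) (.g (nat_lit 1) (.e (nat_lit 147237) (nat_lit 0) .nil) .nil))) 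
(.lf (nat_lit 492519) (.g (nat_lit 2312) (.e (nat_lit 163873) (nat_lit 3) (.e (nat_lit 204811) (nat_lit 9) (.e (nat_lit 426262) (nat_lit 9) (.e (nat_lit 426565) (nat_lit 34) (.e (nat_lit 393253) (nat_lit 18) (.e (nat_lit 164324) (nat_lit 230) .nil)))))) (.g (nat_lit 1) (.e (nat_lit 148552) (nat_lit 0) .nil) .nil)))))))) 
(.nd (nat_lit 5) (.nd (nat_lit 6) (.nd (nat_lit 7) (.nd (nat_lit 8) (.nd (nat_lit 9) 
(.lf (nat_lit 491543) (.g (nat_lit 3613) (.e (nat_lit 163869) (nat_lit 2) (.e (nat_lit 196666) (nat_lit 13) (.e (nat_lit 65610) (nat_lit 10) (.e (nat_lit 344117) (nat_lit 21) (.e (nat_lit 516160) (nat_lit 10) (.e (nat_lit 434214) (nat_lit 18) (.e (nat_lit 7936) (nat_lit 285) .nil))))))) (.g (nat_lit 1) (.e (nat_lit 146297) (nat_lit 0) .nil) .nil))) 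
(.lf (nat_lit 492055) (.g (nat_lit 1579) (.e (nat_lit 163871) (nat_lit 2) (.e (nat_lit 196654) (nat_lit 11) (.e (nat_lit 16438) (nat_lit 9) (.e (nat_lit 426479) (nat_lit 27) (.e (nat_lit 336395) (nat_lit 27) .nil))))) (.g (nat_lit 0) (.e (nat_lit 147325) (nat_lit 0) .nil) .nil)))) (.nd (nat_lit 9) 
(.lf (nat_lit 491799) (.g (nat_lit 3097) (.e (nat_lit 163870) (nat_lit 2) (.e (nat_lit 196666) (nat_lit 13) (.e (nat_lit 65569) (nat_lit 3) (.e (nat_lit 98341) (nat_lit 20) (.e (nat_lit 221213) (nat_lit 23) (.e (nat_lit 204830) (nat_lit 18) (.e (nat_lit 57925) (nat_lit 282) .nil))))))) (.g (nat_lit 1) (.e (nat_lit 146908) (nat_lit 0) .nil) .nil))) 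
(.lf (nat_lit 492311) (.g (nat_lit 3974) (.e (nat_lit 163871) (nat_lit 2) (.e (nat_lit 196670) (nat_lit 14) (.e (nat_lit 73753) (nat_lit 8) (.e (nat_lit 557103) (nat_lit 14) (.e (nat_lit 180243) (nat_lit 5) (.e (nat_lit 532499) (nat_lit 1) (.e (nat_lit 65280) (nat_lit 168) .nil))))))) (.g (nat_lit 1) (.e (nat_lit 147844) (nat_lit 0) .nil) .nil))))) (.nd (nat_lit 8) (.nd (nat_lit 9) 
(.lf (nat_lit 491671) (.g (nat_lit 2569) (.e (nat_lit 163869) (nat_lit 2) (.e (nat_lit 196670) (nat_lit 14) (.e (nat_lit 73746) (nat_lit 3) (.e (nat_lit 516129) (nat_lit 3) (.e (nat_lit 221215) (nat_lit 23) (.e (nat_lit 204830) (nat_lit 18) (.e (nat_lit 57928) (nat_lit 282) .nil))))))) (.g (nat_lit 1) (.e (nat_lit 146578) (nat_lit 0) .nil) .nil))) 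
(.lf (nat_lit 492183) (.g (nat_lit 4600) (.e (nat_lit 163871) (nat_lit 2) (.e (nat_lit 196668) (nat_lit 14) (.e (nat_lit 73747) (nat_lit 3) (.e (nat_lit 516129) (nat_lit 3) (.e (nat_lit 221214) (nat_lit 23) (.e (nat_lit 204830) (nat_lit 18) (.e (nat_lit 57928) (nat_lit 282) .nil))))))) (.g (nat_lit 1) (.e (nat_lit 147619) (nat_lit 0) .nil) .nil)))) (.nd (nat_lit 9) 
(.lf (nat_lit 491927) (.g (nat_lit 3538) (.e (nat_lit 163870) (nat_lit 2) (.e (nat_lit 196666) (nat_lit 13) (.e (nat_lit 65610) (nat_lit 10) (.e (nat_lit 344117) (nat_lit 21) (.e (nat_lit 516151) (nat_lit 9) (.e (nat_lit 426042) (nat_lit 0) (.e (nat_lit 2416) (nat_lit 157) (.e (nat_lit 4848) (nat_lit 285) .nil)))))))) (.g (nat_lit 1) (.e (nat_lit 147116) (nat_lit 0) .nil) .nil))) 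
(.lf (nat_lit 492439) (.g (nat_lit 1977) (.e (nat_lit 163873) (nat_lit 3) (.e (nat_lit 204809) (nat_lit 9) (.e (nat_lit 426188) (nat_lit 9) (.e (nat_lit 426568) (nat_lit 34) (.e (nat_lit 393253) (nat_lit 18) (.e (nat_lit 164329) (nat_lit 230) .nil)))))) (.g (nat_lit 1) (.e (nat_lit 148373) (nat_lit 0) .nil) .nil)))))) (.nd (nat_lit 7) (.nd (nat_lit 8) (.nd (nat_lit 9) 
(.lf (nat_lit 491607) (.g (nat_lit 3974) (.e (nat_lit 163869) (nat_lit 2) (.e (nat_lit 196668) (nat_lit 14) (.e (nat_lit 73753) (nat_lit 8) (.e (nat_lit 557103) (nat_lit 14) (.e (nat_lit 180244) (nat_lit 5) (.e (nat_lit 532501) (nat_lit 1) (.e (nat_lit 65280) (nat_lit 168) .nil))))))) (.g (nat_lit 1) (.e (nat_lit 146491) (nat_lit 0) .nil) .nil))) 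
(.lf (nat_lit 492119) (.g (nat_lit 2644) (.e (nat_lit 163871) (nat_lit 2) (.e (nat_lit 196663) (nat_lit 13) (.e (nat_lit 65571) (nat_lit 3) (.e (nat_lit 98342) (nat_lit 20) (.e (nat_lit 221215) (nat_lit 23) (.e (nat_lit 204830) (nat_lit 18) (.e (nat_lit 57927) (nat_lit 282) .nil))))))) (.g (nat_lit 1) (.e (nat_lit 147461) (nat_lit 0) .nil) .nil)))) (.nd (nat_lit 9) 
(.lf (nat_lit 491863) (.g (nat_lit 3635) (.e (nat_lit 163870) (nat_lit 2) (.e (nat_lit 196666) (nat_lit 13) (.e (nat_lit 65571) (nat_lit 3) (.e (nat_lit 98342) (nat_lit 20) (.e (nat_lit 221215) (nat_lit 23) (.e (nat_lit 204828) (nat_lit 18) (.e (nat_lit 57925) (nat_lit 282) .nil))))))) (.g (nat_lit 1) (.e (nat_lit 147007) (nat_lit 0) .nil) .nil))) 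
(.lf (nat_lit 492375) (.g (nat_lit 3361) (.e (nat_lit 163872) (nat_lit 3) (.e (nat_lit 204838) (nat_lit 20) (.e (nat_lit 114715) (nat_lit 22) (.e (nat_lit 90170) (nat_lit 13) (.e (nat_lit 172067) (nat_lit 3) (.e (nat_lit 204830) (nat_lit 18) (.e (nat_lit 57691) (nat_lit 156) .nil))))))) (.g (nat_lit 1) (.e (nat_lit 148283) (nat_lit 0) .nil) .nil))))) (.nd (nat_lit 8) (.nd (nat_lit 9) 
(.lf (nat_lit 491735) (.g (nat_lit 4189) (.e (nat_lit 163869) (nat_lit 2) (.e (nat_lit 196674) (nat_lit 15) (.e (nat_lit 81925) (nat_lit 11) (.e (nat_lit 426500) (nat_lit 27) (.e (nat_lit 335988) (nat_lit 1) (.e (nat_lit 57931) (nat_lit 282) .nil)))))) (.g (nat_lit 1) (.e (nat_lit 146747) (nat_lit 0) .nil) .nil))) 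
(.lf (nat_lit 492247) (.g (nat_lit 3708) (.e (nat_lit 163871) (nat_lit 2) (.e (nat_lit 196670) (nat_lit 14) (.e (nat_lit 73746) (nat_lit 3) (.e (nat_lit 516124) (nat_lit 2) (.e (nat_lit 213036) (nat_lit 13) (.e (nat_lit 229433) (nat_lit 25) (.e (nat_lit 532501) (nat_lit 1) (.e (nat_lit 57928) (nat_lit 282) .nil)))))))) (.g (nat_lit 1) (.e (nat_lit 147775) (nat_lit 0) .nil) .nil)))) 
(.nd (nat_lit 9) 
(.lf (nat_lit 491991) (.g (nat_lit 4607) (.e (nat_lit 163870) (nat_lit 2) (.e (nat_lit 196666) (nat_lit 13) (.e (nat_lit 65610) (nat_lit 10) (.e (nat_lit 344117) (nat_lit 21) (.e (nat_lit 516160) (nat_lit 10) (.e (nat_lit 434206) (nat_lit 18) (.e (nat_lit 7936) (nat_lit 285) .nil))))))) (.g (nat_lit 1) (.e (nat_lit 147191) (nat_lit 0) .nil) .nil))) 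
(.lf (nat_lit 492503) (.g (nat_lit 1917) (.e (nat_lit 163873) (nat_lit 3) (.e (nat_lit 204811) (nat_lit 9) (.e (nat_lit 426260) (nat_lit 9) (.e (nat_lit 426565) (nat_lit 34) (.e (nat_lit 393252) (nat_lit 18) (.e (nat_lit 164330) (nat_lit 230) .nil)))))) (.g (nat_lit 1) (.e (nat_lit 148536) (nat_lit 0) .nil) .nil))))))) (.nd (nat_lit 6) (.nd (nat_lit 7) (.nd (nat_lit 8) (.nd (nat_lit 9) 
(.lf (nat_lit 491575) (.g (nat_lit 3477) (.e (nat_lit 163869) (nat_lit 2) (.e (nat_lit 196668) (nat_lit 14) (.e (nat_lit 73746) (nat_lit 3) (.e (nat_lit 516131) (nat_lit 3) (.e (nat_lit 221215) (nat_lit 23) (.e (nat_lit 204829) (nat_lit 18) (.e (nat_lit 57927) (nat_lit 282) .nil))))))) (.g (nat_lit 1) (.e (nat_lit 146383) (nat_lit 0) .nil) .nil))) 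
(.lf (nat_lit 492087) (.g (nat_lit 1538) (.e (nat_lit 163871) (nat_lit 2) (.e (nat_lit 196656) (nat_lit 11) (.e (nat_lit 16433) (nat_lit 9) (.e (nat_lit 426481) (nat_lit 27) .nil)))) (.g (nat_lit 0) (.e (nat_lit 147398) (nat_lit 0) .nil) .nil)))) (.nd (nat_lit 9) 
(.lf (nat_lit 491831) (.g (nat_lit 2979) (.e (nat_lit 163870) (nat_lit 2) (.e (nat_lit 196666) (nat_lit 13) (.e (nat_lit 65569) (nat_lit 3) (.e (nat_lit 98342) (nat_lit 20) (.e (nat_lit 221215) (nat_lit 23) (.e (nat_lit 204831) (nat_lit 18) (.e (nat_lit 57924) (nat_lit 282) .nil))))))) (.g (nat_lit 1) (.e (nat_lit 146946) (nat_lit 0) .nil) .nil))) 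
(.lf (nat_lit 492343) (.g (nat_lit 2197) (.e (nat_lit 163872) (nat_lit 3) (.e (nat_lit 204837) (nat_lit 20) (.e (nat_lit 114714) (nat_lit 22) (.e (nat_lit 90169) (nat_lit 13) (.e (nat_lit 172133) (nat_lit 15) .nil))))) (.g (nat_lit 0) (.e (nat_lit 148250) (nat_lit 0) .nil) .nil))))) (.nd (nat_lit 8) (.nd (nat_lit 9) 
(.lf (nat_lit 491703) (.g (nat_lit 2781) (.e (nat_lit 163869) (nat_lit 2) (.e (nat_lit 196670) (nat_lit 14) (.e (nat_lit 73753) (nat_lit 8) (.e (nat_lit 557104) (nat_lit 14) (.e (nat_lit 180244) (nat_lit 5) (.e (nat_lit 532503) (nat_lit 1) (.e (nat_lit 65280) (nat_lit 168) .nil))))))) (.g (nat_lit 1) (.e (nat_lit 146640) (nat_lit 0) .nil) .nil))) 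
(.lf (nat_lit 492215) (.g (nat_lit 3793) (.e (nat_lit 163871) (nat_lit 2) (.e (nat_lit 196668) (nat_lit 14) (.e (nat_lit 73747) (nat_lit 3) (.e (nat_lit 516131) (nat_lit 3) (.e (nat_lit 221214) (nat_lit 23) (.e (nat_lit 204829) (nat_lit 18) (.e (nat_lit 57928) (nat_lit 282) .nil))))))) (.g (nat_lit 1) (.e (nat_lit 147678) (nat_lit 0) .nil) .nil)))) (.nd (nat_lit 9) 
(.lf (nat_lit 491959) (.g (nat_lit 4985) (.e (nat_lit 163870) (nat_lit 2) (.e (nat_lit 196666) (nat_lit 13) (.e (nat_lit 65610) (nat_lit 10) (.e (nat_lit 344117) (nat_lit 21) (.e (nat_lit 516151) (nat_lit 9) (.e (nat_lit 426450) (nat_lit 21) (.e (nat_lit 130816) (nat_lit 174) .nil))))))) (.g (nat_lit 1) (.e (nat_lit 147159) (nat_lit 0) .nil) .nil))) 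
(.lf (nat_lit 492471) (.g (nat_lit 3566) (.e (nat_lit 163873) (nat_lit 3) (.e (nat_lit 204809) (nat_lit 9) (.e (nat_lit 426200) (nat_lit 9) (.e (nat_lit 426566) (nat_lit 34) (.e (nat_lit 393253) (nat_lit 18) (.e (nat_lit 164332) (nat_lit 230) .nil)))))) (.g (nat_lit 1) (.e (nat_lit 148406) (nat_lit 0) .nil) .nil)))))) (.nd (nat_lit 7) (.nd (nat_lit 8) (.nd (nat_lit 9) 
(.lf (nat_lit 491639) (.g (nat_lit 2322) (.e (nat_lit 163869) (nat_lit 2) (.e (nat_lit 196670) (nat_lit 14) (.e (nat_lit 73746) (nat_lit 3) (.e (nat_lit 516127) (nat_lit 2) (.e (nat_lit 213033) (nat_lit 12) (.e (nat_lit 163962) (nat_lit 25) (.e (nat_lit 532500) (nat_lit 1) (.e (nat_lit 57929) (nat_lit 282) .nil)))))))) (.g (nat_lit 1) (.e (nat_lit 146533) (nat_lit 0) .nil) .nil))) 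
(.lf (nat_lit 492151) (.g (nat_lit 2993) (.e (nat_lit 163871) (nat_lit 2) (.e (nat_lit 196668) (nat_lit 14) (.e (nat_lit 73746) (nat_lit 3) (.e (nat_lit 516131) (nat_lit 3) (.e (nat_lit 221214) (nat_lit 23) (.e (nat_lit 204829) (nat_lit 18) (.e (nat_lit 57927) (nat_lit 282) .nil))))))) (.g (nat_lit 1) (.e (nat_lit 147546) (nat_lit 0) .nil) .nil)))) (.nd (nat_lit 9) 
(.lf (nat_lit 491895) (.g (nat_lit 2882) (.e (nat_lit 163870) (nat_lit 2) (.e (nat_lit 196666) (nat_lit 13) (.e (nat_lit 65610) (nat_lit 10) (.e (nat_lit 344117) (nat_lit 21) (.e (nat_lit 516151) (nat_lit 9) (.e (nat_lit 426003) (nat_lit 0) (.e (nat_lit 2397) (nat_lit 157) (.e (nat_lit 4848) (nat_lit 285) .nil)))))))) (.g (nat_lit 1) (.e (nat_lit 147084) (nat_lit 0) .nil) .nil))) 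
(.lf (nat_lit 492407) (.g (nat_lit 2949) (.e (nat_lit 163872) (nat_lit 3) (.e (nat_lit 204863) (nat_lit 27) (.e (nat_lit 344117) (nat_lit 21) (.e (nat_lit 516099) (nat_lit 0) .nil)))) (.g (nat_lit 0) (.e (nat_lit 148329) (nat_lit 0) .nil) .nil))))) (.nd (nat_lit 8) (.nd (nat_lit 9) 
(.lf (nat_lit 491767) (.g (nat_lit 2260) (.e (nat_lit 163869) (nat_lit 2) (.e (nat_lit 196681) (nat_lit 17) (.e (nat_lit 131109) (nat_lit 9) (.e (nat_lit 336456) (nat_lit 34) (.e (nat_lit 483364) (nat_lit 18) (.e (nat_lit 57926) (nat_lit 282) .nil)))))) (.g (nat_lit 1) (.e (nat_lit 146854) (nat_lit 0) .nil) .nil))) 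
(.lf (nat_lit 492279) (.g (nat_lit 3438) (.e (nat_lit 163871) (nat_lit 2) (.e (nat_lit 196670) (nat_lit 14) (.e (nat_lit 73746) (nat_lit 3) (.e (nat_lit 516129) (nat_lit 3) (.e (nat_lit 221215) (nat_lit 23) (.e (nat_lit 204829) (nat_lit 18) (.e (nat_lit 57925) (nat_lit 282) .nil))))))) (.g (nat_lit 1) (.e (nat_lit 147807) (nat_lit 0) .nil) .nil)))) (.nd (nat_lit 9) 
(.lf (nat_lit 492023) (.g (nat_lit 2423) (.e (nat_lit 163870) (nat_lit 2) (.e (nat_lit 196668) (nat_lit 14) (.e (nat_lit 73747) (nat_lit 3) (.e (nat_lit 516129) (nat_lit 3) (.e (nat_lit 221215) (nat_lit 23) (.e (nat_lit 204830) (nat_lit 18) (.e (nat_lit 57927) (nat_lit 282) .nil))))))) (.g (nat_lit 1) (.e (nat_lit 147263) (nat_lit 0) .nil) .nil))) 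
(.lf (nat_lit 492535) (.g (nat_lit 4459) (.e (nat_lit 163873) (nat_lit 3) (.e (nat_lit 204813) (nat_lit 9) (.e (nat_lit 426186) (nat_lit 9) (.e (nat_lit 426566) (nat_lit 34) (.e (nat_lit 393253) (nat_lit 18) (.e (nat_lit 164330) (nat_lit 230) .nil)))))) (.g (nat_lit 1) (.e (nat_lit 148610) (nat_lit 0) .nil) .nil))))))))) 
(.nd (nat_lit 4) (.nd (nat_lit 5) (.nd (nat_lit 6) (.nd (nat_lit 7) (.nd (nat_lit 8) 
(.nd (nat_lit 9) 
(.lf (nat_lit 491535) (.g (nat_lit 3126) (.e (nat_lit 163869) (nat_lit 2) (.e (nat_lit 196666) (nat_lit 13) (.e (nat_lit 65610) (nat_lit 10) (.e (nat_lit 344117) (nat_lit 21) (.e (nat_lit 516160) (nat_lit 10) (.e (nat_lit 434204) (nat_lit 18) (.e (nat_lit 7936) (nat_lit 285) .nil))))))) (.g (nat_lit 1) (.e (nat_lit 146289) (nat_lit 0) .nil) .nil))) 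
(.lf (nat_lit 492047) (.g (nat_lit 1527) (.e (nat_lit 163871) (nat_lit 2) (.e (nat_lit 196654) (nat_lit 11) (.e (nat_lit 16436) (nat_lit 9) (.e (nat_lit 426478) (nat_lit 27) .nil)))) (.g (nat_lit 0) (.e (nat_lit 147314) (nat_lit 0) .nil) .nil)))) (.nd (nat_lit 9) 
(.lf (nat_lit 491791) (.g (nat_lit 1438) (.e (nat_lit 163870) (nat_lit 2) (.e (nat_lit 196630) (nat_lit 9) (.e (nat_lit 393) (nat_lit 32) (.e (nat_lit 426188) (nat_lit 9) (.e (nat_lit 426566) (nat_lit 34) .nil))))) (.g (nat_lit 0) (.e (nat_lit 146891) (nat_lit 0) .nil) .nil))) 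
(.lf (nat_lit 492303) (.g (nat_lit 3569) (.e (nat_lit 163871) (nat_lit 2) (.e (nat_lit 196670) (nat_lit 14) (.e (nat_lit 73746) (nat_lit 3) (.e (nat_lit 516131) (nat_lit 3) (.e (nat_lit 221215) (nat_lit 23) (.e (nat_lit 204829) (nat_lit 18) (.e (nat_lit 57927) (nat_lit 282) .nil))))))) (.g (nat_lit 1) (.e (nat_lit 147834) (nat_lit 0) .nil) .nil))))) (.nd (nat_lit 8) (.nd (nat_lit 9) 
(.lf (nat_lit 491663) (.g (nat_lit 3686) (.e (nat_lit 163869) (nat_lit 2) (.e (nat_lit 196670) (nat_lit 14) (.e (nat_lit 73746) (nat_lit 3) (.e (nat_lit 516129) (nat_lit 3) (.e (nat_lit 221215) (nat_lit 23) (.e (nat_lit 204828) (nat_lit 18) (.e (nat_lit 57926) (nat_lit 282) .nil))))))) (.g (nat_lit 1) (.e (nat_lit 146570) (nat_lit 0) .nil) .nil))) 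
(.lf (nat_lit 492175) (.g (nat_lit 4344) (.e (nat_lit 163871) (nat_lit 2) (.e (nat_lit 196668) (nat_lit 14) (.e (nat_lit 73747) (nat_lit 3) (.e (nat_lit 516129) (nat_lit 3) (.e (nat_lit 221214) (nat_lit 23) (.e (nat_lit 204829) (nat_lit 18) (.e (nat_lit 57925) (nat_lit 282) .nil))))))) (.g (nat_lit 1) (.e (nat_lit 147611) (nat_lit 0) .nil) .nil)))) (.nd (nat_lit 9) 
(.lf (nat_lit 491919) (.g (nat_lit 5402) (.e (nat_lit 163870) (nat_lit 2) (.e (nat_lit 196666) (nat_lit 13) (.e (nat_lit 65610) (nat_lit 10) (.e (nat_lit 344117) (nat_lit 21) (.e (nat_lit 516151) (nat_lit 9) (.e (nat_lit 426038) (nat_lit 0) (.e (nat_lit 2423) (nat_lit 157) (.e (nat_lit 4849) (nat_lit 285) .nil)))))))) (.g (nat_lit 1) (.e (nat_lit 147108) (nat_lit 0) .nil) .nil))) 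
(.lf (nat_lit 492431) (.g (nat_lit 2253) (.e (nat_lit 163873) (nat_lit 3) (.e (nat_lit 204809) (nat_lit 9) (.e (nat_lit 426188) (nat_lit 9) (.e (nat_lit 426566) (nat_lit 34) (.e (nat_lit 393254) (nat_lit 18) (.e (nat_lit 164322) (nat_lit 230) .nil)))))) (.g (nat_lit 1) (.e (nat_lit 148365) (nat_lit 0) .nil) .nil)))))) (.nd (nat_lit 7) (.nd (nat_lit 8) (.nd (nat_lit 9) 
(.lf (nat_lit 491599) (.g (nat_lit 2965) (.e (nat_lit 163869) (nat_lit 2) (.e (nat_lit 196668) (nat_lit 14) (.e (nat_lit 73747) (nat_lit 3) (.e (nat_lit 516131) (nat_lit 3) (.e (nat_lit 221215) (nat_lit 23) (.e (nat_lit 204828) (nat_lit 18) (.e (nat_lit 57930) (nat_lit 282) .nil))))))) (.g (nat_lit 1) (.e (nat_lit 146464) (nat_lit 0) .nil) .nil))) 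
(.lf (nat_lit 492111) (.g (nat_lit 2295) (.e (nat_lit 163871) (nat_lit 2) (.e (nat_lit 196656) (nat_lit 11) (.e (nat_lit 16473) (nat_lit 14) (.e (nat_lit 491581) (nat_lit 27) (.e (nat_lit 433920) (nat_lit 28) .nil))))) (.g (nat_lit 0) (.e (nat_lit 147452) (nat_lit 0) .nil) .nil)))) (.nd (nat_lit 9) 
(.lf (nat_lit 491855) (.g (nat_lit 2989) (.e (nat_lit 163870) (nat_lit 2) (.e (nat_lit 196666) (nat_lit 13) (.e (nat_lit 65571) (nat_lit 3) (.e (nat_lit 98342) (nat_lit 20) (.e (nat_lit 221214) (nat_lit 23) (.e (nat_lit 204829) (nat_lit 18) (.e (nat_lit 57924) (nat_lit 282) .nil))))))) (.g (nat_lit 1) (.e (nat_lit 146996) (nat_lit 0) .nil) .nil))) 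
(.lf (nat_lit 492367) (.g (nat_lit 2550) (.e (nat_lit 163872) (nat_lit 3) (.e (nat_lit 204838) (nat_lit 20) (.e (nat_lit 114714) (nat_lit 22) (.e (nat_lit 90172) (nat_lit 14) (.e (nat_lit 180244) (nat_lit 5) (.e (nat_lit 532501) (nat_lit 1) (.e (nat_lit 57691) (nat_lit 156) .nil))))))) (.g (nat_lit 1) (.e (nat_lit 148275) (nat_lit 0) .nil) .nil))))) (.nd (nat_lit 8) (.nd (nat_lit 9) 
(.lf (nat_lit 491727) (.g (nat_lit 2883) (.e (nat_lit 163869) (nat_lit 2) (.e (nat_lit 196670) (nat_lit 14) (.e (nat_lit 73755) (nat_lit 8) (.e (nat_lit 557104) (nat_lit 14) (.e (nat_lit 180244) (nat_lit 5) .nil))))) (.g (nat_lit 0) (.e (nat_lit 146671) (nat_lit 0) .nil) .nil))) 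
(.lf (nat_lit 492239) (.g (nat_lit 2620) (.e (nat_lit 163871) (nat_lit 2) (.e (nat_lit 196668) (nat_lit 14) (.e (nat_lit 73753) (nat_lit 8) (.e (nat_lit 557105) (nat_lit 14) (.e (nat_lit 180252) (nat_lit 10) .nil))))) (.g (nat_lit 0) (.e (nat_lit 147761) (nat_lit 0) .nil) .nil)))) (.nd (nat_lit 9) 
(.lf (nat_lit 491983) (.g (nat_lit 4276) (.e (nat_lit 163870) (nat_lit 2) (.e (nat_lit 196666) (nat_lit 13) (.e (nat_lit 65610) (nat_lit 10) (.e (nat_lit 344117) (nat_lit 21) (.e (nat_lit 516160) (nat_lit 10) (.e (nat_lit 434200) (nat_lit 18) (.e (nat_lit 4848) (nat_lit 285) .nil))))))) (.g (nat_lit 1) (.e (nat_lit 147183) (nat_lit 0) .nil) .nil))) 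
(.lf (nat_lit 492495) (.g (nat_lit 2323) (.e (nat_lit 163873) (nat_lit 3) (.e (nat_lit 204811) (nat_lit 9) (.e (nat_lit 426232) (nat_lit 9) (.e (nat_lit 426565) (nat_lit 34) (.e (nat_lit 393253) (nat_lit 18) (.e (nat_lit 164332) (nat_lit 230) .nil)))))) (.g (nat_lit 1) (.e (nat_lit 148528) (nat_lit 0) .nil) .nil))))))) (.nd (nat_lit 6) (.nd (nat_lit 7) (.nd (nat_lit 8) (.nd (nat_lit 9) 
(.lf (nat_lit 491567) (.g (nat_lit 3632) (.e (nat_lit 163869) (nat_lit 2) (.e (nat_lit 196668) (nat_lit 14) (.e (nat_lit 73746) (nat_lit 3) (.e (nat_lit 516129) (nat_lit 3) (.e (nat_lit 221215) (nat_lit 23) (.e (nat_lit 204830) (nat_lit 18) (.e (nat_lit 57929) (nat_lit 282) .nil))))))) (.g (nat_lit 1) (.e (nat_lit 146373) (nat_lit 0) .nil) .nil))) 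
(.lf (nat_lit 492079) (.g (nat_lit 868) (.e (nat_lit 163871) (nat_lit 2) (.e (nat_lit 196656) (nat_lit 11) (.e (nat_lit 16415) (nat_lit 3) .nil))) (.g (nat_lit 0) (.e (nat_lit 147372) (nat_lit 0) .nil) .nil)))) (.nd (nat_lit 9) 
(.lf (nat_lit 491823) (.g (nat_lit 4767) (.e (nat_lit 163870) (nat_lit 2) (.e (nat_lit 196666) (nat_lit 13) (.e (nat_lit 65569) (nat_lit 3) (.e (nat_lit 98342) (nat_lit 20) (.e (nat_lit 221214) (nat_lit 23) (.e (nat_lit 204830) (nat_lit 18) (.e (nat_lit 57928) (nat_lit 282) .nil))))))) (.g (nat_lit 1) (.e (nat_lit 146936) (nat_lit 0) .nil) .nil))) 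
(.lf (nat_lit 492335) (.g (nat_lit 1803) (.e (nat_lit 163871) (nat_lit 2) (.e (nat_lit 196674) (nat_lit 15) (.e (nat_lit 81925) (nat_lit 11) (.e (nat_lit 426500) (nat_lit 27) (.e (nat_lit 335987) (nat_lit 1) (.e (nat_lit 57927) (nat_lit 282) .nil)))))) (.g (nat_lit 1) (.e (nat_lit 148068) (nat_lit 0) .nil) .nil))))) (.nd (nat_lit 8) (.nd (nat_lit 9) 
(.lf (nat_lit 491695) (.g (nat_lit 4569) (.e (nat_lit 163869) (nat_lit 2) (.e (nat_lit 196670) (nat_lit 14) (.e (nat_lit 73753) (nat_lit 8) (.e (nat_lit 557103) (nat_lit 14) (.e (nat_lit 180243) (nat_lit 5) (.e (nat_lit 532503) (nat_lit 1) (.e (nat_lit 65280) (nat_lit 168) .nil))))))) (.g (nat_lit 1) (.e (nat_lit 146632) (nat_lit 0) .nil) .nil))) 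
(.lf (nat_lit 492207) (.g (nat_lit 2486) (.e (nat_lit 163871) (nat_lit 2) (.e (nat_lit 196668) (nat_lit 14) (.e (nat_lit 73747) (nat_lit 3) (.e (nat_lit 516130) (nat_lit 3) (.e (nat_lit 221215) (nat_lit 23) (.e (nat_lit 204830) (nat_lit 18) (.e (nat_lit 57928) (nat_lit 282) .nil))))))) (.g (nat_lit 1) (.e (nat_lit 147646) (nat_lit 0) .nil) .nil)))) (.nd (nat_lit 9) 
(.lf (nat_lit 491951) (.g (nat_lit 3160) (.e (nat_lit 163870) (nat_lit 2) (.e (nat_lit 196666) (nat_lit 13) (.e (nat_lit 65610) (nat_lit 10) (.e (nat_lit 344117) (nat_lit 21) (.e (nat_lit 516151) (nat_lit 9) (.e (nat_lit 426047) (nat_lit 0) (.e (nat_lit 2438) (nat_lit 157) (.e (nat_lit 7936) (nat_lit 285) .nil)))))))) (.g (nat_lit 1) (.e (nat_lit 147140) (nat_lit 0) .nil) .nil))) 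
(.lf (nat_lit 492463) (.g (nat_lit 2079) (.e (nat_lit 163873) (nat_lit 3) (.e (nat_lit 204809) (nat_lit 9) (.e (nat_lit 426200) (nat_lit 9) (.e (nat_lit 426478) (nat_lit 27) (.e (nat_lit 336389) (nat_lit 27) (.e (nat_lit 426098) (nat_lit 1) (.e (nat_lit 164327) (nat_lit 230) .nil))))))) (.g (nat_lit 1) (.e (nat_lit 148397) (nat_lit 0) .nil) .nil)))))) 
(.nd (nat_lit 7) (.nd (nat_lit 8) (.nd (nat_lit 9) 
(.lf (nat_lit 491631) (.g (nat_lit 2354) (.e (nat_lit 163869) (nat_lit 2) (.e (nat_lit 196670) (nat_lit 14) (.e (nat_lit 73746) (nat_lit 3) (.e (nat_lit 516124) (nat_lit 2) (.e (nat_lit 220928) (nat_lit 12) (.e (nat_lit 163962) (nat_lit 25) (.e (nat_lit 532500) (nat_lit 1) (.e (nat_lit 57926) (nat_lit 282) .nil)))))))) (.g (nat_lit 1) (.e (nat_lit 146525) (nat_lit 0) .nil) .nil))) 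
(.lf (nat_lit 492143) (.g (nat_lit 3925) (.e (nat_lit 163871) (nat_lit 2) (.e (nat_lit 196668) (nat_lit 14) (.e (nat_lit 73746) (nat_lit 3) (.e (nat_lit 516129) (nat_lit 3) (.e (nat_lit 221215) (nat_lit 23) (.e (nat_lit 204830) (nat_lit 18) (.e (nat_lit 57926) (nat_lit 282) .nil))))))) (.g (nat_lit 1) (.e (nat_lit 147522) (nat_lit 0) .nil) .nil)))) (.nd (nat_lit 9) 
(.lf (nat_lit 491887) (.g (nat_lit 3035) (.e (nat_lit 163870) (nat_lit 2) (.e (nat_lit 196666) (nat_lit 13) (.e (nat_lit 65610) (nat_lit 10) (.e (nat_lit 344117) (nat_lit 21) (.e (nat_lit 516145) (nat_lit 9) (.e (nat_lit 425986) (nat_lit 0) (.e (nat_lit 2431) (nat_lit 157) (.e (nat_lit 7936) (nat_lit 285) .nil)))))))) (.g (nat_lit 1) (.e (nat_lit 147043) (nat_lit 0) .nil) .nil))) 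
(.lf (nat_lit 492399) (.g (nat_lit 2257) (.e (nat_lit 163872) (nat_lit 3) (.e (nat_lit 204838) (nat_lit 20) (.e (nat_lit 114719) (nat_lit 23) (.e (nat_lit 98365) (nat_lit 26) (.e (nat_lit 426133) (nat_lit 3) .nil))))) (.g (nat_lit 0) (.e (nat_lit 148310) (nat_lit 0) .nil) .nil))))) (.nd (nat_lit 8) (.nd (nat_lit 9) 
(.lf (nat_lit 491759) (.g (nat_lit 2886) (.e (nat_lit 163869) (nat_lit 2) (.e (nat_lit 196681) (nat_lit 17) (.e (nat_lit 131109) (nat_lit 9) (.e (nat_lit 336454) (nat_lit 34) (.e (nat_lit 483364) (nat_lit 18) (.e (nat_lit 57927) (nat_lit 282) .nil)))))) (.g (nat_lit 1) (.e (nat_lit 146843) (nat_lit 0) .nil) .nil))) 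
(.lf (nat_lit 492271) (.g (nat_lit 4112) (.e (nat_lit 163871) (nat_lit 2) (.e (nat_lit 196670) (nat_lit 14) (.e (nat_lit 73746) (nat_lit 3) (.e (nat_lit 516129) (nat_lit 3) (.e (nat_lit 221214) (nat_lit 23) (.e (nat_lit 204829) (nat_lit 18) (.e (nat_lit 57928) (nat_lit 282) .nil))))))) (.g (nat_lit 1) (.e (nat_lit 147799) (nat_lit 0) .nil) .nil)))) (.nd (nat_lit 9) 
(.lf (nat_lit 492015) (.g (nat_lit 2945) (.e (nat_lit 163870) (nat_lit 2) (.e (nat_lit 196666) (nat_lit 13) (.e (nat_lit 65625) (nat_lit 13) (.e (nat_lit 393229) (nat_lit 9) (.e (nat_lit 335988) (nat_lit 1) (.e (nat_lit 57927) (nat_lit 282) .nil)))))) (.g (nat_lit 1) (.e (nat_lit 147245) (nat_lit 0) .nil) .nil))) 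
(.lf (nat_lit 492527) (.g (nat_lit 3684) (.e (nat_lit 163873) (nat_lit 3) (.e (nat_lit 204813) (nat_lit 9) (.e (nat_lit 426185) (nat_lit 9) (.e (nat_lit 426566) (nat_lit 34) (.e (nat_lit 393253) (nat_lit 18) (.e (nat_lit 164326) (nat_lit 230) .nil)))))) (.g (nat_lit 1) (.e (nat_lit 148602) (nat_lit 0) .nil) .nil)))))))) 
(.nd (nat_lit 5) (.nd (nat_lit 6) (.nd (nat_lit 7) (.nd (nat_lit 8) (.nd (nat_lit 9) 
(.lf (nat_lit 491551) (.g (nat_lit 2930) (.e (nat_lit 163869) (nat_lit 2) (.e (nat_lit 196668) (nat_lit 14) (.e (nat_lit 73746) (nat_lit 3) (.e (nat_lit 516129) (nat_lit 3) (.e (nat_lit 221213) (nat_lit 23) (.e (nat_lit 204830) (nat_lit 18) (.e (nat_lit 57926) (nat_lit 282) .nil))))))) (.g (nat_lit 1) (.e (nat_lit 146353) (nat_lit 0) .nil) .nil))) 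
(.lf (nat_lit 492063) (.g (nat_lit 4113) (.e (nat_lit 163871) (nat_lit 2) (.e (nat_lit 196654) (nat_lit 11) (.e (nat_lit 16463) (nat_lit 13) (.e (nat_lit 483337) (nat_lit 9) (.e (nat_lit 426107) (nat_lit 1) (.e (nat_lit 164325) (nat_lit 230) .nil)))))) (.g (nat_lit 1) (.e (nat_lit 147334) (nat_lit 0) .nil) .nil)))) (.nd (nat_lit 9) 
(.lf (nat_lit 491807) (.g (nat_lit 3286) (.e (nat_lit 163870) (nat_lit 2) (.e (nat_lit 196666) (nat_lit 13) (.e (nat_lit 65569) (nat_lit 3) (.e (nat_lit 98341) (nat_lit 20) (.e (nat_lit 221215) (nat_lit 23) (.e (nat_lit 204829) (nat_lit 18) (.e (nat_lit 57925) (nat_lit 282) .nil))))))) (.g (nat_lit 1) (.e (nat_lit 146916) (nat_lit 0) .nil) .nil))) 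
(.lf (nat_lit 492319) (.g (nat_lit 2407) (.e (nat_lit 163871) (nat_lit 2) (.e (nat_lit 196670) (nat_lit 14) (.e (nat_lit 73754) (nat_lit 8) (.e (nat_lit 557105) (nat_lit 14) (.e (nat_lit 180245) (nat_lit 5) .nil))))) (.g (nat_lit 0) (.e (nat_lit 147853) (nat_lit 0) .nil) .nil))))) (.nd (nat_lit 8) (.nd (nat_lit 9) 
(.lf (nat_lit 491679) (.g (nat_lit 2868) (.e (nat_lit 163869) (nat_lit 2) (.e (nat_lit 196670) (nat_lit 14) (.e (nat_lit 73746) (nat_lit 3) (.e (nat_lit 516131) (nat_lit 3) (.e (nat_lit 221214) (nat_lit 23) (.e (nat_lit 204829) (nat_lit 18) (.e (nat_lit 57930) (nat_lit 282) .nil))))))) (.g (nat_lit 1) (.e (nat_lit 146599) (nat_lit 0) .nil) .nil))) 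
(.lf (nat_lit 492191) (.g (nat_lit 4628) (.e (nat_lit 163871) (nat_lit 2) (.e (nat_lit 196668) (nat_lit 14) (.e (nat_lit 73747) (nat_lit 3) (.e (nat_lit 516129) (nat_lit 3) (.e (nat_lit 221215) (nat_lit 23) (.e (nat_lit 204829) (nat_lit 18) (.e (nat_lit 57927) (nat_lit 282) .nil))))))) (.g (nat_lit 1) (.e (nat_lit 147630) (nat_lit 0) .nil) .nil)))) (.nd (nat_lit 9) 
(.lf (nat_lit 491935) (.g (nat_lit 5176) (.e (nat_lit 163870) (nat_lit 2) (.e (nat_lit 196666) (nat_lit 13) (.e (nat_lit 65610) (nat_lit 10) (.e (nat_lit 344117) (nat_lit 21) (.e (nat_lit 516151) (nat_lit 9) (.e (nat_lit 426042) (nat_lit 0) (.e (nat_lit 2425) (nat_lit 157) (.e (nat_lit 7936) (nat_lit 285) .nil)))))))) (.g (nat_lit 1) (.e (nat_lit 147124) (nat_lit 0) .nil) .nil))) 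
(.lf (nat_lit 492447) (.g (nat_lit 3197) (.e (nat_lit 163873) (nat_lit 3) (.e (nat_lit 204809) (nat_lit 9) (.e (nat_lit 426190) (nat_lit 9) (.e (nat_lit 426566) (nat_lit 34) (.e (nat_lit 393253) (nat_lit 18) (.e (nat_lit 164325) (nat_lit 230) .nil)))))) (.g (nat_lit 1) (.e (nat_lit 148381) (nat_lit 0) .nil) .nil)))))) (.nd (nat_lit 7) (.nd (nat_lit 8) (.nd (nat_lit 9) 
(.lf (nat_lit 491615) (.g (nat_lit 2605) (.e (nat_lit 163869) (nat_lit 2) (.e (nat_lit 196669) (nat_lit 14) (.e (nat_lit 73755) (nat_lit 8) (.e (nat_lit 557104) (nat_lit 14) (.e (nat_lit 180244) (nat_lit 5) (.e (nat_lit 532501) (nat_lit 1) (.e (nat_lit 65280) (nat_lit 168) .nil))))))) (.g (nat_lit 1) (.e (nat_lit 146506) (nat_lit 0) .nil) .nil))) 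
(.lf (nat_lit 492127) (.g (nat_lit 429) (.e (nat_lit 163871) (nat_lit 2) (.e (nat_lit 196668) (nat_lit 14) (.e (nat_lit 73746) (nat_lit 3) .nil))) (.g (nat_lit 0) (.e (nat_lit 147471) (nat_lit 0) .nil) .nil)))) (.nd (nat_lit 9) 
(.lf (nat_lit 491871) (.g (nat_lit 4766) (.e (nat_lit 163870) (nat_lit 2) (.e (nat_lit 196666) (nat_lit 13) (.e (nat_lit 65571) (nat_lit 3) (.e (nat_lit 98342) (nat_lit 20) (.e (nat_lit 221215) (nat_lit 23) (.e (nat_lit 204830) (nat_lit 18) (.e (nat_lit 57925) (nat_lit 282) .nil))))))) (.g (nat_lit 1) (.e (nat_lit 147015) (nat_lit 0) .nil) .nil))) 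
(.lf (nat_lit 492383) (.g (nat_lit 1275) (.e (nat_lit 163872) (nat_lit 3) (.e (nat_lit 204838) (nat_lit 20) (.e (nat_lit 114716) (nat_lit 22) (.e (nat_lit 90173) (nat_lit 14) .nil)))) (.g (nat_lit 0) (.e (nat_lit 148292) (nat_lit 0) .nil) .nil))))) (.nd (nat_lit 8) (.nd (nat_lit 9) 
(.lf (nat_lit 491743) (.g (nat_lit 2849) (.e (nat_lit 163869) (nat_lit 2) (.e (nat_lit 196681) (nat_lit 17) (.e (nat_lit 131105) (nat_lit 9) (.e (nat_lit 336454) (nat_lit 34) (.e (nat_lit 483364) (nat_lit 18) (.e (nat_lit 57926) (nat_lit 282) .nil)))))) (.g (nat_lit 1) (.e (nat_lit 146813) (nat_lit 0) .nil) .nil))) 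
(.lf (nat_lit 492255) (.g (nat_lit 2233) (.e (nat_lit 163871) (nat_lit 2) (.e (nat_lit 196670) (nat_lit 14) (.e (nat_lit 73746) (nat_lit 3) (.e (nat_lit 516127) (nat_lit 2) (.e (nat_lit 213036) (nat_lit 13) (.e (nat_lit 229433) (nat_lit 25) (.e (nat_lit 532501) (nat_lit 1) (.e (nat_lit 57924) (nat_lit 282) .nil)))))))) (.g (nat_lit 1) (.e (nat_lit 147783) (nat_lit 0) .nil) .nil)))) 
(.nd (nat_lit 9) 
(.lf (nat_lit 491999) (.g (nat_lit 3172) (.e (nat_lit 163870) (nat_lit 2) (.e (nat_lit 196666) (nat_lit 13) (.e (nat_lit 65610) (nat_lit 10) (.e (nat_lit 344117) (nat_lit 21) (.e (nat_lit 516160) (nat_lit 10) (.e (nat_lit 442112) (nat_lit 18) (.e (nat_lit 4847) (nat_lit 285) .nil))))))) (.g (nat_lit 1) (.e (nat_lit 147199) (nat_lit 0) .nil) .nil))) 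
(.lf (nat_lit 492511) (.g (nat_lit 1826) (.e (nat_lit 163873) (nat_lit 3) (.e (nat_lit 204811) (nat_lit 9) (.e (nat_lit 426260) (nat_lit 9) (.e (nat_lit 426565) (nat_lit 34) (.e (nat_lit 393254) (nat_lit 18) (.e (nat_lit 164332) (nat_lit 230) .nil)))))) (.g (nat_lit 1) (.e (nat_lit 148544) (nat_lit 0) .nil) .nil))))))) (.nd (nat_lit 6) (.nd (nat_lit 7) (.nd (nat_lit 8) (.nd (nat_lit 9) 
(.lf (nat_lit 491583) (.g (nat_lit 2647) (.e (nat_lit 163869) (nat_lit 2) (.e (nat_lit 196668) (nat_lit 14) (.e (nat_lit 73747) (nat_lit 3) (.e (nat_lit 516129) (nat_lit 3) (.e (nat_lit 221214) (nat_lit 23) (.e (nat_lit 204830) (nat_lit 18) (.e (nat_lit 57925) (nat_lit 282) .nil))))))) (.g (nat_lit 1) (.e (nat_lit 146418) (nat_lit 0) .nil) .nil))) 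
(.lf (nat_lit 492095) (.g (nat_lit 951) (.e (nat_lit 163871) (nat_lit 2) (.e (nat_lit 196656) (nat_lit 11) (.e (nat_lit 16446) (nat_lit 9) (.e (nat_lit 433920) (nat_lit 34) .nil)))) (.g (nat_lit 0) (.e (nat_lit 147411) (nat_lit 0) .nil) .nil)))) (.nd (nat_lit 9) 
(.lf (nat_lit 491839) (.g (nat_lit 4926) (.e (nat_lit 163870) (nat_lit 2) (.e (nat_lit 196666) (nat_lit 13) (.e (nat_lit 65571) (nat_lit 3) (.e (nat_lit 98341) (nat_lit 20) (.e (nat_lit 221214) (nat_lit 23) (.e (nat_lit 204830) (nat_lit 18) (.e (nat_lit 57925) (nat_lit 282) .nil))))))) (.g (nat_lit 1) (.e (nat_lit 146966) (nat_lit 0) .nil) .nil))) 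
(.lf (nat_lit 492351) (.g (nat_lit 2247) (.e (nat_lit 163872) (nat_lit 3) (.e (nat_lit 204837) (nat_lit 20) (.e (nat_lit 114714) (nat_lit 22) (.e (nat_lit 90174) (nat_lit 14) (.e (nat_lit 180243) (nat_lit 5) (.e (nat_lit 532501) (nat_lit 1) (.e (nat_lit 57691) (nat_lit 156) .nil))))))) (.g (nat_lit 1) (.e (nat_lit 148258) (nat_lit 0) .nil) .nil))))) (.nd (nat_lit 8) (.nd (nat_lit 9) 
(.lf (nat_lit 491711) (.g (nat_lit 1340) (.e (nat_lit 163869) (nat_lit 2) (.e (nat_lit 196670) (nat_lit 14) (.e (nat_lit 73754) (nat_lit 8) (.e (nat_lit 557103) (nat_lit 14) .nil)))) (.g (nat_lit 0) (.e (nat_lit 146654) (nat_lit 0) .nil) .nil))) 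
(.lf (nat_lit 492223) (.g (nat_lit 3898) (.e (nat_lit 163871) (nat_lit 2) (.e (nat_lit 196668) (nat_lit 14) (.e (nat_lit 73747) (nat_lit 3) (.e (nat_lit 516131) (nat_lit 3) (.e (nat_lit 221215) (nat_lit 23) (.e (nat_lit 204829) (nat_lit 18) (.e (nat_lit 57928) (nat_lit 282) .nil))))))) (.g (nat_lit 1) (.e (nat_lit 147690) (nat_lit 0) .nil) .nil)))) (.nd (nat_lit 9) 
(.lf (nat_lit 491967) (.g (nat_lit 4085) (.e (nat_lit 163870) (nat_lit 2) (.e (nat_lit 196666) (nat_lit 13) (.e (nat_lit 65610) (nat_lit 10) (.e (nat_lit 344117) (nat_lit 21) (.e (nat_lit 516159) (nat_lit 10) (.e (nat_lit 434201) (nat_lit 18) (.e (nat_lit 7936) (nat_lit 285) .nil))))))) (.g (nat_lit 1) (.e (nat_lit 147167) (nat_lit 0) .nil) .nil))) 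
(.lf (nat_lit 492479) (.g (nat_lit 3117) (.e (nat_lit 163873) (nat_lit 3) (.e (nat_lit 204809) (nat_lit 9) (.e (nat_lit 426200) (nat_lit 9) (.e (nat_lit 426568) (nat_lit 34) (.e (nat_lit 393252) (nat_lit 18) (.e (nat_lit 164332) (nat_lit 230) .nil)))))) (.g (nat_lit 1) (.e (nat_lit 148414) (nat_lit 0) .nil) .nil)))))) (.nd (nat_lit 7) (.nd (nat_lit 8) (.nd (nat_lit 9) 
(.lf (nat_lit 491647) (.g (nat_lit 2021) (.e (nat_lit 163869) (nat_lit 2) (.e (nat_lit 196670) (nat_lit 14) (.e (nat_lit 73746) (nat_lit 3) (.e (nat_lit 516127) (nat_lit 2) (.e (nat_lit 213035) (nat_lit 12) (.e (nat_lit 163965) (nat_lit 25) (.e (nat_lit 532500) (nat_lit 1) (.e (nat_lit 57926) (nat_lit 282) .nil)))))))) (.g (nat_lit 1) (.e (nat_lit 146541) (nat_lit 0) .nil) .nil))) 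
(.lf (nat_lit 492159) (.g (nat_lit 3316) (.e (nat_lit 163871) (nat_lit 2) (.e (nat_lit 196668) (nat_lit 14) (.e (nat_lit 73746) (nat_lit 3) (.e (nat_lit 516131) (nat_lit 3) (.e (nat_lit 221215) (nat_lit 23) (.e (nat_lit 204829) (nat_lit 18) (.e (nat_lit 57927) (nat_lit 282) .nil))))))) (.g (nat_lit 1) (.e (nat_lit 147555) (nat_lit 0) .nil) .nil)))) (.nd (nat_lit 9) 
(.lf (nat_lit 491903) (.g (nat_lit 3606) (.e (nat_lit 163870) (nat_lit 2) (.e (nat_lit 196666) (nat_lit 13) (.e (nat_lit 65610) (nat_lit 10) (.e (nat_lit 344117) (nat_lit 21) (.e (nat_lit 516151) (nat_lit 9) (.e (nat_lit 426017) (nat_lit 0) (.e (nat_lit 2439) (nat_lit 157) (.e (nat_lit 7936) (nat_lit 285) .nil)))))))) (.g (nat_lit 1) (.e (nat_lit 147092) (nat_lit 0) .nil) .nil))) 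
(.lf (nat_lit 492415) (.g (nat_lit 1879) (.e (nat_lit 163873) (nat_lit 3) (.e (nat_lit 204808) (nat_lit 9) (.e (nat_lit 426190) (nat_lit 9) (.e (nat_lit 426566) (nat_lit 34) (.e (nat_lit 393253) (nat_lit 18) (.e (nat_lit 164330) (nat_lit 230) .nil)))))) (.g (nat_lit 1) (.e (nat_lit 148342) (nat_lit 0) .nil) .nil))))) (.nd (nat_lit 8) (.nd (nat_lit 9) 
(.lf (nat_lit 491775) (.g (nat_lit 3397) (.e (nat_lit 163869) (nat_lit 2) (.e (nat_lit 196681) (nat_lit 17) (.e (nat_lit 131125) (nat_lit 13) (.e (nat_lit 393225) (nat_lit 9) (.e (nat_lit 335995) (nat_lit 1) (.e (nat_lit 57931) (nat_lit 282) .nil)))))) (.g (nat_lit 1) (.e (nat_lit 146864) (nat_lit 0) .nil) .nil))) 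
(.lf (nat_lit 492287) (.g (nat_lit 3833) (.e (nat_lit 163871) (nat_lit 2) (.e (nat_lit 196670) (nat_lit 14) (.e (nat_lit 73746) (nat_lit 3) (.e (nat_lit 516129) (nat_lit 3) (.e (nat_lit 221215) (nat_lit 23) (.e (nat_lit 204830) (nat_lit 18) (.e (nat_lit 57928) (nat_lit 282) .nil))))))) (.g (nat_lit 1) (.e (nat_lit 147815) (nat_lit 0) .nil) .nil)))) (.nd (nat_lit 9) 
(.lf (nat_lit 492031) (.g (nat_lit 2218) (.e (nat_lit 163870) (nat_lit 2) (.e (nat_lit 196670) (nat_lit 14) (.e (nat_lit 73746) (nat_lit 3) (.e (nat_lit 516131) (nat_lit 3) (.e (nat_lit 221214) (nat_lit 23) (.e (nat_lit 204830) (nat_lit 18) (.e (nat_lit 57927) (nat_lit 282) .nil))))))) (.g (nat_lit 1) (.e (nat_lit 147271) (nat_lit 0) .nil) .nil))) 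
(.lf (nat_lit 492543) (.g (nat_lit 4691) (.e (nat_lit 163873) (nat_lit 3) (.e (nat_lit 204813) (nat_lit 9) (.e (nat_lit 426187) (nat_lit 9) (.e (nat_lit 426566) (nat_lit 34) (.e (nat_lit 393253) (nat_lit 18) (.e (nat_lit 164329) (nat_lit 230) .nil)))))) (.g (nat_lit 1) (.e (nat_lit 148618) (nat_lit 0) .nil) .nil)))))))))))))

noncomputable def tv5541 : DT := (.nd (nat_lit 0) (.nd (nat_lit 1) (.nd (nat_lit 2) (.nd (nat_lit 3) (.nd (nat_lit 4) (.nd (nat_lit 5) (.nd (nat_lit 6) (.nd (nat_lit 7) (.nd (nat_lit 8) (.nd (nat_lit 9) 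
(.lf (nat_lit 492544) (.g (nat_lit 4385) (.e (nat_lit 163873) (nat_lit 3) (.e (nat_lit 204813) (nat_lit 9) (.e (nat_lit 426187) (nat_lit 9) (.e (nat_lit 426566) (nat_lit 34) (.e (nat_lit 393253) (nat_lit 18) (.e (nat_lit 164330) (nat_lit 230) .nil)))))) (.g (nat_lit 1) (.e (nat_lit 148619) (nat_lit 0) .nil) .nil))) 
(.lf (nat_lit 493056) (.g (nat_lit 4981) (.e (nat_lit 163874) (nat_lit 3) (.e (nat_lit 204837) (nat_lit 20) (.e (nat_lit 114714) (nat_lit 22) (.e (nat_lit 90174) (nat_lit 14) (.e (nat_lit 180243) (nat_lit 5) (.e (nat_lit 532503) (nat_lit 1) (.e (nat_lit 57688) (nat_lit 156) .nil))))))) (.g (nat_lit 1) (.e (nat_lit 149493) (nat_lit 0) .nil) .nil)))) (.nd (nat_lit 9) 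
(.lf (nat_lit 492800) (.g (nat_lit 2938) (.e (nat_lit 163873) (nat_lit 3) (.e (nat_lit 204837) (nat_lit 20) (.e (nat_lit 114718) (nat_lit 23) (.e (nat_lit 98384) (nat_lit 32) (.e (nat_lit 475179) (nat_lit 24) (.e (nat_lit 516120) (nat_lit 1) (.e (nat_lit 164330) (nat_lit 230) .nil))))))) (.g (nat_lit 1) (.e (nat_lit 149078) (nat_lit 0) .nil) .nil))) 
(.lf (nat_lit 493312) (.g (nat_lit 1754) (.e (nat_lit 163874) (nat_lit 3) (.e (nat_lit 204861) (nat_lit 26) (.e (nat_lit 336076) (nat_lit 9) (.e (nat_lit 336375) (nat_lit 27) (.e (nat_lit 426524) (nat_lit 27) .nil))))) (.g (nat_lit 0) (.e (nat_lit 149873) (nat_lit 0) .nil) .nil))))) (.nd (nat_lit 8) (.nd (nat_lit 9) 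
(.lf (nat_lit 492672) (.g (nat_lit 2817) (.e (nat_lit 163873) (nat_lit 3) (.e (nat_lit 204813) (nat_lit 9) (.e (nat_lit 426198) (nat_lit 9) (.e (nat_lit 426568) (nat_lit 34) (.e (nat_lit 393253) (nat_lit 18) (.e (nat_lit 164326) (nat_lit 230) .nil)))))) (.g (nat_lit 1) (.e (nat_lit 148767) (nat_lit 0) .nil) .nil))) 
(.lf (nat_lit 493184) (.g (nat_lit 2383) (.e (nat_lit 163874) (nat_lit 3) (.e (nat_lit 204838) (nat_lit 20) (.e (nat_lit 114715) (nat_lit 22) (.e (nat_lit 90174) (nat_lit 14) (.e (nat_lit 180243) (nat_lit 5) (.e (nat_lit 532501) (nat_lit 1) (.e (nat_lit 57690) (nat_lit 156) .nil))))))) (.g (nat_lit 1) (.e (nat_lit 149621) (nat_lit 0) .nil) .nil)))) (.nd (nat_lit 9) 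
(.lf (nat_lit 492928) (.g (nat_lit 3188) (.e (nat_lit 163873) (nat_lit 3) (.e (nat_lit 204866) (nat_lit 28) (.e (nat_lit 352277) (nat_lit 11) (.e (nat_lit 426500) (nat_lit 27) (.e (nat_lit 335996) (nat_lit 1) (.e (nat_lit 57930) (nat_lit 282) .nil)))))) (.g (nat_lit 1) (.e (nat_lit 149218) (nat_lit 0) .nil) .nil))) 
(.lf (nat_lit 493440) (.g (nat_lit 3144) (.e (nat_lit 163874) (nat_lit 3) (.e (nat_lit 204876) (nat_lit 31) (.e (nat_lit 376842) (nat_lit 11) (.e (nat_lit 426500) (nat_lit 27) (.e (nat_lit 335986) (nat_lit 1) (.e (nat_lit 57926) (nat_lit 282) .nil)))))) (.g (nat_lit 1) (.e (nat_lit 150088) (nat_lit 0) .nil) .nil)))))) (.nd (nat_lit 7) (.nd (nat_lit 8) (.nd (nat_lit 9) 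
(.lf (nat_lit 492608) (.g (nat_lit 4575) (.e (nat_lit 163873) (nat_lit 3) (.e (nat_lit 204813) (nat_lit 9) (.e (nat_lit 426196) (nat_lit 9) (.e (nat_lit 426566) (nat_lit 34) (.e (nat_lit 393253) (nat_lit 18) (.e (nat_lit 164326) (nat_lit 230) .nil)))))) (.g (nat_lit 1) (.e (nat_lit 148687) (nat_lit 0) .nil) .nil))) 
(.lf (nat_lit 493120) (.g (nat_lit 2916) (.e (nat_lit 163874) (nat_lit 3) (.e (nat_lit 204837) (nat_lit 20) (.e (nat_lit 114719) (nat_lit 23) (.e (nat_lit 98363) (nat_lit 26) (.e (nat_lit 426129) (nat_lit 3) (.e (nat_lit 204829) (nat_lit 18) (.e (nat_lit 57688) (nat_lit 156) .nil))))))) (.g (nat_lit 1) (.e (nat_lit 149557) (nat_lit 0) .nil) .nil)))) (.nd (nat_lit 9) 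
(.lf (nat_lit 492864) (.g (nat_lit 2648) (.e (nat_lit 163873) (nat_lit 3) (.e (nat_lit 204853) (nat_lit 26) (.e (nat_lit 336019) (nat_lit 3) (.e (nat_lit 98341) (nat_lit 20) (.e (nat_lit 221214) (nat_lit 23) (.e (nat_lit 204830) (nat_lit 18) (.e (nat_lit 57929) (nat_lit 282) .nil))))))) (.g (nat_lit 1) (.e (nat_lit 149145) (nat_lit 0) .nil) .nil))) 
(.lf (nat_lit 493376) (.g (nat_lit 972) (.e (nat_lit 163874) (nat_lit 3) (.e (nat_lit 204863) (nat_lit 27) (.e (nat_lit 344118) (nat_lit 21) .nil))) (.g (nat_lit 0) (.e (nat_lit 149961) (nat_lit 0) .nil) .nil))))) (.nd (nat_lit 8) (.nd (nat_lit 9) 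
(.lf (nat_lit 492736) (.g (nat_lit 338) (.e (nat_lit 163873) (nat_lit 3) (.e (nat_lit 204813) (nat_lit 9) (.e (nat_lit 426200) (nat_lit 9) .nil))) (.g (nat_lit 0) (.e (nat_lit 148837) (nat_lit 0) .nil) .nil))) 
(.lf (nat_lit 493248) (.g (nat_lit 2599) (.e (nat_lit 163874) (nat_lit 3) (.e (nat_lit 204851) (nat_lit 26) (.e (nat_lit 336019) (nat_lit 3) (.e (nat_lit 98342) (nat_lit 20) (.e (nat_lit 221213) (nat_lit 23) (.e (nat_lit 204830) (nat_lit 18) (.e (nat_lit 57929) (nat_lit 282) .nil))))))) (.g (nat_lit 1) (.e (nat_lit 149692) (nat_lit 0) .nil) .nil)))) (.nd (nat_lit 9) 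
(.lf (nat_lit 492992) (.g (nat_lit 2919) (.e (nat_lit 163874) (nat_lit 3) (.e (nat_lit 204813) (nat_lit 9) (.e (nat_lit 426190) (nat_lit 9) (.e (nat_lit 426566) (nat_lit 34) (.e (nat_lit 393251) (nat_lit 18) (.e (nat_lit 164332) (nat_lit 230) .nil)))))) (.g (nat_lit 1) (.e (nat_lit 149359) (nat_lit 0) .nil) .nil))) 
(.lf (nat_lit 493504) (.g (nat_lit 3696) (.e (nat_lit 163875) (nat_lit 3) (.e (nat_lit 204813) (nat_lit 9) (.e (nat_lit 426198) (nat_lit 9) (.e (nat_lit 426566) (nat_lit 34) (.e (nat_lit 393251) (nat_lit 18) (.e (nat_lit 164327) (nat_lit 230) .nil)))))) (.g (nat_lit 1) (.e (nat_lit 150274) (nat_lit 0) .nil) .nil))))))) (.nd (nat_lit 6) (.nd (nat_lit 7) (.nd (nat_lit 8) (.nd (nat_lit 9) 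
(.lf (nat_lit 492576) (.g (nat_lit 2281) (.e (nat_lit 163873) (nat_lit 3) (.e (nat_lit 204813) (nat_lit 9) (.e (nat_lit 426188) (nat_lit 9) (.e (nat_lit 426568) (nat_lit 34) (.e (nat_lit 393253) (nat_lit 18) (.e (nat_lit 164326) (nat_lit 230) .nil)))))) (.g (nat_lit 1) (.e (nat_lit 148655) (nat_lit 0) .nil) .nil))) 
(.lf (nat_lit 493088) (.g (nat_lit 3911) (.e (nat_lit 163874) (nat_lit 3) (.e (nat_lit 204837) (nat_lit 20) (.e (nat_lit 114716) (nat_lit 22) (.e (nat_lit 90174) (nat_lit 14) (.e (nat_lit 180243) (nat_lit 5) (.e (nat_lit 532504) (nat_lit 1) (.e (nat_lit 57690) (nat_lit 156) .nil))))))) (.g (nat_lit 1) (.e (nat_lit 149525) (nat_lit 0) .nil) .nil)))) (.nd (nat_lit 9) 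
(.lf (nat_lit 492832) (.g (nat_lit 2678) (.e (nat_lit 163873) (nat_lit 3) (.e (nat_lit 204838) (nat_lit 20) (.e (nat_lit 114718) (nat_lit 23) (.e (nat_lit 98367) (nat_lit 27) (.e (nat_lit 434234) (nat_lit 23) .nil))))) (.g (nat_lit 0) (.e (nat_lit 149110) (nat_lit 0) .nil) .nil))) 
(.lf (nat_lit 493344) (.g (nat_lit 2468) (.e (nat_lit 163874) (nat_lit 3) (.e (nat_lit 204862) (nat_lit 27) (.e (nat_lit 344117) (nat_lit 21) (.e (nat_lit 516099) (nat_lit 0) .nil)))) (.g (nat_lit 0) (.e (nat_lit 149929) (nat_lit 0) .nil) .nil))))) (.nd (nat_lit 8) (.nd (nat_lit 9) 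
(.lf (nat_lit 492704) (.g (nat_lit 4235) (.e (nat_lit 163873) (nat_lit 3) (.e (nat_lit 204813) (nat_lit 9) (.e (nat_lit 426199) (nat_lit 9) (.e (nat_lit 426530) (nat_lit 27) (.e (nat_lit 336390) (nat_lit 27) (.e (nat_lit 426098) (nat_lit 1) (.e (nat_lit 164327) (nat_lit 230) .nil))))))) (.g (nat_lit 1) (.e (nat_lit 148805) (nat_lit 0) .nil) .nil))) 
(.lf (nat_lit 493216) (.g (nat_lit 2161) (.e (nat_lit 163874) (nat_lit 3) (.e (nat_lit 204838) (nat_lit 20) (.e (nat_lit 114719) (nat_lit 23) (.e (nat_lit 98356) (nat_lit 26) (.e (nat_lit 426436) (nat_lit 18) (.e (nat_lit 98334) (nat_lit 18) (.e (nat_lit 164330) (nat_lit 230) .nil))))))) (.g (nat_lit 1) (.e (nat_lit 149653) (nat_lit 0) .nil) .nil)))) (.nd (nat_lit 9) 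
(.lf (nat_lit 492960) (.g (nat_lit 3435) (.e (nat_lit 163874) (nat_lit 3) (.e (nat_lit 204809) (nat_lit 9) (.e (nat_lit 426200) (nat_lit 9) (.e (nat_lit 426568) (nat_lit 34) (.e (nat_lit 393252) (nat_lit 18) (.e (nat_lit 164332) (nat_lit 230) .nil)))))) (.g (nat_lit 1) (.e (nat_lit 149282) (nat_lit 0) .nil) .nil))) 
(.lf (nat_lit 493472) (.g (nat_lit 1917) (.e (nat_lit 163875) (nat_lit 3) (.e (nat_lit 204811) (nat_lit 9) (.e (nat_lit 426232) (nat_lit 9) (.e (nat_lit 426565) (nat_lit 34) (.e (nat_lit 393251) (nat_lit 18) (.e (nat_lit 164325) (nat_lit 230) .nil)))))) (.g (nat_lit 1) (.e (nat_lit 150210) (nat_lit 0) .nil) .nil)))))) (.nd (nat_lit 7) (.nd (nat_lit 8) (.nd (nat_lit 9) 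
(.lf (nat_lit 492640) (.g (nat_lit 3865) (.e (nat_lit 163873) (nat_lit 3) (.e (nat_lit 204813) (nat_lit 9) (.e (nat_lit 426197) (nat_lit 9) (.e (nat_lit 426568) (nat_lit 34) (.e (nat_lit 393253) (nat_lit 18) (.e (nat_lit 164331) (nat_lit 230) .nil)))))) (.g (nat_lit 1) (.e (nat_lit 148720) (nat_lit 0) .nil) .nil))) 
(.lf (nat_lit 493152) (.g (nat_lit 2346) (.e (nat_lit 163874) (nat_lit 3) (.e (nat_lit 204837) (nat_lit 20) (.e (nat_lit 114719) (nat_lit 23) (.e (nat_lit 98377) (nat_lit 30) (.e (nat_lit 458789) (nat_lit 23) (.e (nat_lit 532502) (nat_lit 1) (.e (nat_lit 57692) (nat_lit 156) .nil))))))) (.g (nat_lit 1) (.e (nat_lit 149589) (nat_lit 0) .nil) .nil)))) (.nd (nat_lit 9) 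
(.lf (nat_lit 492896) (.g (nat_lit 2032) (.e (nat_lit 163873) (nat_lit 3) (.e (nat_lit 204861) (nat_lit 26) (.e (nat_lit 336076) (nat_lit 9) (.e (nat_lit 336370) (nat_lit 27) (.e (nat_lit 426501) (nat_lit 27) (.e (nat_lit 335988) (nat_lit 1) (.e (nat_lit 57927) (nat_lit 282) .nil))))))) (.g (nat_lit 1) (.e (nat_lit 149181) (nat_lit 0) .nil) .nil))) 
(.lf (nat_lit 493408) (.g (nat_lit 2649) (.e (nat_lit 163874) (nat_lit 3) (.e (nat_lit 204864) (nat_lit 27) (.e (nat_lit 344130) (nat_lit 26) (.e (nat_lit 557097) (nat_lit 13) (.e (nat_lit 179968) (nat_lit 18) (.e (nat_lit 98343) (nat_lit 21) (.e (nat_lit 229680) (nat_lit 244) .nil))))))) (.g (nat_lit 1) (.e (nat_lit 149993) (nat_lit 0) .nil) .nil))))) (.nd (nat_lit 8) (.nd (nat_lit 9) 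
(.lf (nat_lit 492768) (.g (nat_lit 3425) (.e (nat_lit 163873) (nat_lit 3) (.e (nat_lit 204813) (nat_lit 9) (.e (nat_lit 426200) (nat_lit 9) (.e (nat_lit 426568) (nat_lit 34) (.e (nat_lit 393251) (nat_lit 18) (.e (nat_lit 164332) (nat_lit 230) .nil)))))) (.g (nat_lit 1) (.e (nat_lit 148885) (nat_lit 0) .nil) .nil))) 
(.lf (nat_lit 493280) (.g (nat_lit 4187) (.e (nat_lit 163874) (nat_lit 3) (.e (nat_lit 204854) (nat_lit 26) (.e (nat_lit 336019) (nat_lit 3) (.e (nat_lit 98342) (nat_lit 20) (.e (nat_lit 221214) (nat_lit 23) (.e (nat_lit 204830) (nat_lit 18) (.e (nat_lit 57929) (nat_lit 282) .nil))))))) (.g (nat_lit 1) (.e (nat_lit 149786) (nat_lit 0) .nil) .nil)))) (.nd (nat_lit 9) 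
(.lf (nat_lit 493024) (.g (nat_lit 2097) (.e (nat_lit 163874) (nat_lit 3) (.e (nat_lit 204813) (nat_lit 9) (.e (nat_lit 426200) (nat_lit 9) (.e (nat_lit 426566) (nat_lit 34) (.e (nat_lit 393254) (nat_lit 18) (.e (nat_lit 164327) (nat_lit 230) .nil)))))) (.g (nat_lit 1) (.e (nat_lit 149392) (nat_lit 0) .nil) .nil))) 
(.lf (nat_lit 493536) (.g (nat_lit 1805) (.e (nat_lit 163875) (nat_lit 3) (.e (nat_lit 204813) (nat_lit 9) (.e (nat_lit 426200) (nat_lit 9) (.e (nat_lit 426567) (nat_lit 34) (.e (nat_lit 393251) (nat_lit 18) (.e (nat_lit 164325) (nat_lit 230) .nil)))))) (.g (nat_lit 1) (.e (nat_lit 150313) (nat_lit 0) .nil) .nil)))))))) 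
(.nd (nat_lit 5) (.nd (nat_lit 6) (.nd (nat_lit 7) (.nd (nat_lit 8) (.nd (nat_lit 9) 
(.lf (nat_lit 492560) (.g (nat_lit 4024) (.e (nat_lit 163873) (nat_lit 3) (.e (nat_lit 204813) (nat_lit 9) (.e (nat_lit 426188) (nat_lit 9) (.e (nat_lit 426566) (nat_lit 34) (.e (nat_lit 393251) (nat_lit 18) (.e (nat_lit 164331) (nat_lit 230) .nil)))))) (.g (nat_lit 1) (.e (nat_lit 148638) (nat_lit 0) .nil) .nil))) 
(.lf (nat_lit 493072) (.g (nat_lit 4578) (.e (nat_lit 163874) (nat_lit 3) (.e (nat_lit 204837) (nat_lit 20) (.e (nat_lit 114715) (nat_lit 22) (.e (nat_lit 90170) (nat_lit 13) (.e (nat_lit 172067) (nat_lit 3) (.e (nat_lit 204829) (nat_lit 18) (.e (nat_lit 57692) (nat_lit 156) .nil))))))) (.g (nat_lit 1) (.e (nat_lit 149509) (nat_lit 0) .nil) .nil)))) (.nd (nat_lit 9) 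
(.lf (nat_lit 492816) (.g (nat_lit 2477) (.e (nat_lit 163873) (nat_lit 3) (.e (nat_lit 204838) (nat_lit 20) (.e (nat_lit 114715) (nat_lit 22) (.e (nat_lit 90170) (nat_lit 13) (.e (nat_lit 172067) (nat_lit 3) (.e (nat_lit 204829) (nat_lit 18) (.e (nat_lit 57686) (nat_lit 156) .nil))))))) (.g (nat_lit 1) (.e (nat_lit 149094) (nat_lit 0) .nil) .nil))) 
(.lf (nat_lit 493328) (.g (nat_lit 2407) (.e (nat_lit 163874) (nat_lit 3) (.e (nat_lit 204861) (nat_lit 26) (.e (nat_lit 336078) (nat_lit 9) (.e (nat_lit 336454) (nat_lit 34) (.e (nat_lit 483363) (nat_lit 18) (.e (nat_lit 57931) (nat_lit 282) .nil)))))) (.g (nat_lit 1) (.e (nat_lit 149904) (nat_lit 0) .nil) .nil))))) (.nd (nat_lit 8) (.nd (nat_lit 9) 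
(.lf (nat_lit 492688) (.g (nat_lit 3215) (.e (nat_lit 163873) (nat_lit 3) (.e (nat_lit 204813) (nat_lit 9) (.e (nat_lit 426199) (nat_lit 9) (.e (nat_lit 426481) (nat_lit 27) (.e (nat_lit 336385) (nat_lit 27) (.e (nat_lit 426108) (nat_lit 1) (.e (nat_lit 164330) (nat_lit 230) .nil))))))) (.g (nat_lit 1) (.e (nat_lit 148789) (nat_lit 0) .nil) .nil))) 
(.lf (nat_lit 493200) (.g (nat_lit 1697) (.e (nat_lit 163874) (nat_lit 3) (.e (nat_lit 204838) (nat_lit 20) (.e (nat_lit 114718) (nat_lit 23) (.e (nat_lit 98363) (nat_lit 26) (.e (nat_lit 426129) (nat_lit 3) .nil))))) (.g (nat_lit 0) (.e (nat_lit 149637) (nat_lit 0) .nil) .nil)))) (.nd (nat_lit 9) 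
(.lf (nat_lit 492944) (.g (nat_lit 2835) (.e (nat_lit 163874) (nat_lit 3) (.e (nat_lit 204809) (nat_lit 9) (.e (nat_lit 426190) (nat_lit 9) (.e (nat_lit 426566) (nat_lit 34) (.e (nat_lit 393251) (nat_lit 18) (.e (nat_lit 164325) (nat_lit 230) .nil)))))) (.g (nat_lit 1) (.e (nat_lit 149266) (nat_lit 0) .nil) .nil))) 
(.lf (nat_lit 493456) (.g (nat_lit 3477) (.e (nat_lit 163875) (nat_lit 3) (.e (nat_lit 204809) (nat_lit 9) (.e (nat_lit 426189) (nat_lit 9) (.e (nat_lit 426566) (nat_lit 34) (.e (nat_lit 393253) (nat_lit 18) (.e (nat_lit 164325) (nat_lit 230) .nil)))))) (.g (nat_lit 1) (.e (nat_lit 150148) (nat_lit 0) .nil) .nil)))))) (.nd (nat_lit 7) (.nd (nat_lit 8) (.nd (nat_lit 9) 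
(.lf (nat_lit 492624) (.g (nat_lit 4629) (.e (nat_lit 163873) (nat_lit 3) (.e (nat_lit 204813) (nat_lit 9) (.e (nat_lit 426197) (nat_lit 9) (.e (nat_lit 426566) (nat_lit 34) (.e (nat_lit 393253) (nat_lit 18) (.e (nat_lit 164329) (nat_lit 230) .nil)))))) (.g (nat_lit 1) (.e (nat_lit 148704) (nat_lit 0) .nil) .nil))) 
(.lf (nat_lit 493136) (.g (nat_lit 4798) (.e (nat_lit 163874) (nat_lit 3) (.e (nat_lit 204837) (nat_lit 20) (.e (nat_lit 114719) (nat_lit 23) (.e (nat_lit 98367) (nat_lit 27) (.e (nat_lit 434231) (nat_lit 23) (.e (nat_lit 532500) (nat_lit 1) (.e (nat_lit 57689) (nat_lit 156) .nil))))))) (.g (nat_lit 1) (.e (nat_lit 149573) (nat_lit 0) .nil) .nil)))) (.nd (nat_lit 9) 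
(.lf (nat_lit 492880) (.g (nat_lit 3445) (.e (nat_lit 163873) (nat_lit 3) (.e (nat_lit 204854) (nat_lit 26) (.e (nat_lit 336019) (nat_lit 3) (.e (nat_lit 98342) (nat_lit 20) (.e (nat_lit 221215) (nat_lit 23) (.e (nat_lit 204831) (nat_lit 18) (.e (nat_lit 57931) (nat_lit 282) .nil))))))) (.g (nat_lit 1) (.e (nat_lit 149161) (nat_lit 0) .nil) .nil))) 
(.lf (nat_lit 493392) (.g (nat_lit 756) (.e (nat_lit 163874) (nat_lit 3) (.e (nat_lit 204863) (nat_lit 27) (.e (nat_lit 344132) (nat_lit 26) .nil))) (.g (nat_lit 0) (.e (nat_lit 149977) (nat_lit 0) .nil) .nil))))) (.nd (nat_lit 8) (.nd (nat_lit 9) 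
(.lf (nat_lit 492752) (.g (nat_lit 2338) (.e (nat_lit 163873) (nat_lit 3) (.e (nat_lit 204813) (nat_lit 9) (.e (nat_lit 426200) (nat_lit 9) (.e (nat_lit 426489) (nat_lit 27) (.e (nat_lit 336409) (nat_lit 27) (.e (nat_lit 426098) (nat_lit 1) (.e (nat_lit 164327) (nat_lit 230) .nil))))))) (.g (nat_lit 1) (.e (nat_lit 148862) (nat_lit 0) .nil) .nil))) 
(.lf (nat_lit 493264) (.g (nat_lit 1656) (.e (nat_lit 163874) (nat_lit 3) (.e (nat_lit 204854) (nat_lit 26) (.e (nat_lit 336019) (nat_lit 3) (.e (nat_lit 98341) (nat_lit 20) (.e (nat_lit 221198) (nat_lit 20) .nil))))) (.g (nat_lit 0) (.e (nat_lit 149770) (nat_lit 0) .nil) .nil)))) (.nd (nat_lit 9) 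
(.lf (nat_lit 493008) (.g (nat_lit 2362) (.e (nat_lit 163874) (nat_lit 3) (.e (nat_lit 204813) (nat_lit 9) (.e (nat_lit 426198) (nat_lit 9) (.e (nat_lit 426568) (nat_lit 34) (.e (nat_lit 393253) (nat_lit 18) (.e (nat_lit 164330) (nat_lit 230) .nil)))))) (.g (nat_lit 1) (.e (nat_lit 149376) (nat_lit 0) .nil) .nil))) 
(.lf (nat_lit 493520) (.g (nat_lit 2025) (.e (nat_lit 163875) (nat_lit 3) (.e (nat_lit 204813) (nat_lit 9) (.e (nat_lit 426199) (nat_lit 9) (.e (nat_lit 426568) (nat_lit 34) (.e (nat_lit 393251) (nat_lit 18) (.e (nat_lit 164325) (nat_lit 230) .nil)))))) (.g (nat_lit 1) (.e (nat_lit 150290) (nat_lit 0) .nil) .nil))))))) (.nd (nat_lit 6) (.nd (nat_lit 7) (.nd (nat_lit 8) (.nd (nat_lit 9) 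
(.lf (nat_lit 492592) (.g (nat_lit 4263) (.e (nat_lit 163873) (nat_lit 3) (.e (nat_lit 204813) (nat_lit 9) (.e (nat_lit 426189) (nat_lit 9) (.e (nat_lit 426568) (nat_lit 34) (.e (nat_lit 393253) (nat_lit 18) (.e (nat_lit 164326) (nat_lit 230) .nil)))))) (.g (nat_lit 1) (.e (nat_lit 148671) (nat_lit 0) .nil) .nil))) 
(.lf (nat_lit 493104) (.g (nat_lit 3339) (.e (nat_lit 163874) (nat_lit 3) (.e (nat_lit 204837) (nat_lit 20) (.e (nat_lit 114718) (nat_lit 23) (.e (nat_lit 98367) (nat_lit 27) (.e (nat_lit 434232) (nat_lit 23) (.e (nat_lit 532504) (nat_lit 1) (.e (nat_lit 57691) (nat_lit 156) .nil))))))) (.g (nat_lit 1) (.e (nat_lit 149541) (nat_lit 0) .nil) .nil)))) (.nd (nat_lit 9) 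
(.lf (nat_lit 492848) (.g (nat_lit 4799) (.e (nat_lit 163873) (nat_lit 3) (.e (nat_lit 204838) (nat_lit 20) (.e (nat_lit 114719) (nat_lit 23) (.e (nat_lit 98367) (nat_lit 27) (.e (nat_lit 434231) (nat_lit 23) (.e (nat_lit 532499) (nat_lit 1) (.e (nat_lit 57688) (nat_lit 156) .nil))))))) (.g (nat_lit 1) (.e (nat_lit 149126) (nat_lit 0) .nil) .nil))) 
(.lf (nat_lit 493360) (.g (nat_lit 2526) (.e (nat_lit 163874) (nat_lit 3) (.e (nat_lit 204863) (nat_lit 27) (.e (nat_lit 344117) (nat_lit 21) (.e (nat_lit 516099) (nat_lit 0) .nil)))) (.g (nat_lit 0) (.e (nat_lit 149945) (nat_lit 0) .nil) .nil))))) (.nd (nat_lit 8) (.nd (nat_lit 9) 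
(.lf (nat_lit 492720) (.g (nat_lit 3584) (.e (nat_lit 163873) (nat_lit 3) (.e (nat_lit 204813) (nat_lit 9) (.e (nat_lit 426199) (nat_lit 9) (.e (nat_lit 426566) (nat_lit 34) (.e (nat_lit 393254) (nat_lit 18) (.e (nat_lit 164329) (nat_lit 230) .nil)))))) (.g (nat_lit 1) (.e (nat_lit 148821) (nat_lit 0) .nil) .nil))) 
(.lf (nat_lit 493232) (.g (nat_lit 2207) (.e (nat_lit 163874) (nat_lit 3) (.e (nat_lit 204838) (nat_lit 20) (.e (nat_lit 114719) (nat_lit 23) (.e (nat_lit 98367) (nat_lit 27) (.e (nat_lit 434232) (nat_lit 23) (.e (nat_lit 532503) (nat_lit 1) (.e (nat_lit 57685) (nat_lit 156) .nil))))))) (.g (nat_lit 1) (.e (nat_lit 149669) (nat_lit 0) .nil) .nil)))) (.nd (nat_lit 9) 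
(.lf (nat_lit 492976) (.g (nat_lit 3999) (.e (nat_lit 163874) (nat_lit 3) (.e (nat_lit 204813) (nat_lit 9) (.e (nat_lit 426188) (nat_lit 9) (.e (nat_lit 426566) (nat_lit 34) (.e (nat_lit 393253) (nat_lit 18) (.e (nat_lit 164324) (nat_lit 230) .nil)))))) (.g (nat_lit 1) (.e (nat_lit 149343) (nat_lit 0) .nil) .nil))) 
(.lf (nat_lit 493488) (.g (nat_lit 3988) (.e (nat_lit 163875) (nat_lit 3) (.e (nat_lit 204813) (nat_lit 9) (.e (nat_lit 426188) (nat_lit 9) (.e (nat_lit 426566) (nat_lit 34) (.e (nat_lit 393253) (nat_lit 18) (.e (nat_lit 164324) (nat_lit 230) .nil)))))) (.g (nat_lit 1) (.e (nat_lit 150251) (nat_lit 0) .nil) .nil)))))) (.nd (nat_lit 7) (.nd (nat_lit 8) (.nd (nat_lit 9) 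
(.lf (nat_lit 492656) (.g (nat_lit 3848) (.e (nat_lit 163873) (nat_lit 3) (.e (nat_lit 204813) (nat_lit 9) (.e (nat_lit 426198) (nat_lit 9) (.e (nat_lit 426566) (nat_lit 34) (.e (nat_lit 393253) (nat_lit 18) (.e (nat_lit 164325) (nat_lit 230) .nil)))))) (.g (nat_lit 1) (.e (nat_lit 148751) (nat_lit 0) .nil) .nil))) 
(.lf (nat_lit 493168) (.g (nat_lit 4939) (.e (nat_lit 163874) (nat_lit 3) (.e (nat_lit 204838) (nat_lit 20) (.e (nat_lit 114715) (nat_lit 22) (.e (nat_lit 90170) (nat_lit 13) (.e (nat_lit 172065) (nat_lit 3) (.e (nat_lit 204829) (nat_lit 18) (.e (nat_lit 57688) (nat_lit 156) .nil))))))) (.g (nat_lit 1) (.e (nat_lit 149605) (nat_lit 0) .nil) .nil)))) (.nd (nat_lit 9) 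
(.lf (nat_lit 492912) (.g (nat_lit 2970) (.e (nat_lit 163873) (nat_lit 3) (.e (nat_lit 204861) (nat_lit 26) (.e (nat_lit 336076) (nat_lit 9) (.e (nat_lit 336454) (nat_lit 34) (.e (nat_lit 483366) (nat_lit 18) (.e (nat_lit 57930) (nat_lit 282) .nil)))))) (.g (nat_lit 1) (.e (nat_lit 149199) (nat_lit 0) .nil) .nil))) 
(.lf (nat_lit 493424) (.g (nat_lit 3071) (.e (nat_lit 163874) (nat_lit 3) (.e (nat_lit 204865) (nat_lit 28) (.e (nat_lit 352277) (nat_lit 11) (.e (nat_lit 426500) (nat_lit 27) (.e (nat_lit 335988) (nat_lit 1) (.e (nat_lit 57926) (nat_lit 282) .nil)))))) (.g (nat_lit 1) (.e (nat_lit 150009) (nat_lit 0) .nil) .nil))))) (.nd (nat_lit 8) (.nd (nat_lit 9) 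
(.lf (nat_lit 492784) (.g (nat_lit 987) (.e (nat_lit 163873) (nat_lit 3) (.e (nat_lit 204829) (nat_lit 18) (.e (nat_lit 57847) (nat_lit 252) .nil))) (.g (nat_lit 0) (.e (nat_lit 149061) (nat_lit 0) .nil) .nil))) 
(.lf (nat_lit 493296) (.g (nat_lit 2204) (.e (nat_lit 163874) (nat_lit 3) (.e (nat_lit 204859) (nat_lit 26) (.e (nat_lit 336017) (nat_lit 3) (.e (nat_lit 98342) (nat_lit 20) (.e (nat_lit 221213) (nat_lit 23) .nil))))) (.g (nat_lit 0) (.e (nat_lit 149803) (nat_lit 0) .nil) .nil)))) (.nd (nat_lit 9) 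
(.lf (nat_lit 493040) (.g (nat_lit 2281) (.e (nat_lit 163874) (nat_lit 3) (.e (nat_lit 204836) (nat_lit 20) (.e (nat_lit 114718) (nat_lit 23) (.e (nat_lit 98367) (nat_lit 27) (.e (nat_lit 434234) (nat_lit 23) (.e (nat_lit 532499) (nat_lit 1) (.e (nat_lit 57692) (nat_lit 156) .nil))))))) (.g (nat_lit 1) (.e (nat_lit 149477) (nat_lit 0) .nil) .nil))) 
(.lf (nat_lit 493552) (.g (nat_lit 3900) (.e (nat_lit 163875) (nat_lit 3) (.e (nat_lit 204829) (nat_lit 18) (.e (nat_lit 57847) (nat_lit 252) (.e (nat_lit 57432) (nat_lit 16) (.e (nat_lit 368676) (nat_lit 21) (.e (nat_lit 516146) (nat_lit 9) (.e (nat_lit 426422) (nat_lit 16) (.e (nat_lit 57691) (nat_lit 156) .nil)))))))) (.g (nat_lit 1) (.e (nat_lit 150394) (nat_lit 0) .nil) .nil))))))))) 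
(.nd (nat_lit 4) (.nd (nat_lit 5) (.nd (nat_lit 6) (.nd (nat_lit 7) (.nd (nat_lit 8) 
(.nd (nat_lit 9) 
(.lf (nat_lit 492552) (.g (nat_lit 2029) (.e (nat_lit 163873) (nat_lit 3) (.e (nat_lit 204813) (nat_lit 9) (.e (nat_lit 426188) (nat_lit 9) (.e (nat_lit 426484) (nat_lit 27) (.e (nat_lit 336407) (nat_lit 27) .nil))))) (.g (nat_lit 0) (.e (nat_lit 148630) (nat_lit 0) .nil) .nil))) 
(.lf (nat_lit 493064) (.g (nat_lit 2985) (.e (nat_lit 163874) (nat_lit 3) (.e (nat_lit 204837) (nat_lit 20) (.e (nat_lit 114715) (nat_lit 22) (.e (nat_lit 90170) (nat_lit 13) (.e (nat_lit 172065) (nat_lit 3) (.e (nat_lit 204830) (nat_lit 18) (.e (nat_lit 57685) (nat_lit 156) .nil))))))) (.g (nat_lit 1) (.e (nat_lit 149501) (nat_lit 0) .nil) .nil)))) (.nd (nat_lit 9) 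
(.lf (nat_lit 492808) (.g (nat_lit 4327) (.e (nat_lit 163873) (nat_lit 3) (.e (nat_lit 204837) (nat_lit 20) (.e (nat_lit 114719) (nat_lit 23) (.e (nat_lit 98367) (nat_lit 27) (.e (nat_lit 434232) (nat_lit 23) (.e (nat_lit 532503) (nat_lit 1) (.e (nat_lit 57688) (nat_lit 156) .nil))))))) (.g (nat_lit 1) (.e (nat_lit 149086) (nat_lit 0) .nil) .nil))) 
(.lf (nat_lit 493320) (.g (nat_lit 2221) (.e (nat_lit 163874) (nat_lit 3) (.e (nat_lit 204861) (nat_lit 26) (.e (nat_lit 336076) (nat_lit 9) (.e (nat_lit 336454) (nat_lit 34) (.e (nat_lit 483364) (nat_lit 18) (.e (nat_lit 57930) (nat_lit 282) .nil)))))) (.g (nat_lit 1) (.e (nat_lit 149892) (nat_lit 0) .nil) .nil))))) (.nd (nat_lit 8) (.nd (nat_lit 9) 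
(.lf (nat_lit 492680) (.g (nat_lit 4745) (.e (nat_lit 163873) (nat_lit 3) (.e (nat_lit 204813) (nat_lit 9) (.e (nat_lit 426199) (nat_lit 9) (.e (nat_lit 426478) (nat_lit 27) (.e (nat_lit 336389) (nat_lit 27) (.e (nat_lit 426098) (nat_lit 1) (.e (nat_lit 164327) (nat_lit 230) .nil))))))) (.g (nat_lit 1) (.e (nat_lit 148775) (nat_lit 0) .nil) .nil))) 
(.lf (nat_lit 493192) (.g (nat_lit 3088) (.e (nat_lit 163874) (nat_lit 3) (.e (nat_lit 204838) (nat_lit 20) (.e (nat_lit 114716) (nat_lit 22) (.e (nat_lit 90174) (nat_lit 14) (.e (nat_lit 180243) (nat_lit 5) (.e (nat_lit 532502) (nat_lit 1) (.e (nat_lit 57688) (nat_lit 156) .nil))))))) (.g (nat_lit 1) (.e (nat_lit 149629) (nat_lit 0) .nil) .nil)))) (.nd (nat_lit 9) 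
(.lf (nat_lit 492936) (.g (nat_lit 2909) (.e (nat_lit 163874) (nat_lit 3) (.e (nat_lit 204809) (nat_lit 9) (.e (nat_lit 426188) (nat_lit 9) (.e (nat_lit 426566) (nat_lit 34) (.e (nat_lit 393253) (nat_lit 18) (.e (nat_lit 164330) (nat_lit 230) .nil)))))) (.g (nat_lit 1) (.e (nat_lit 149258) (nat_lit 0) .nil) .nil))) 
(.lf (nat_lit 493448) (.g (nat_lit 3180) (.e (nat_lit 163874) (nat_lit 3) (.e (nat_lit 204877) (nat_lit 31) (.e (nat_lit 376842) (nat_lit 11) (.e (nat_lit 426500) (nat_lit 27) (.e (nat_lit 335988) (nat_lit 1) (.e (nat_lit 57926) (nat_lit 282) .nil)))))) (.g (nat_lit 1) (.e (nat_lit 150096) (nat_lit 0) .nil) .nil)))))) (.nd (nat_lit 7) (.nd (nat_lit 8) (.nd (nat_lit 9) 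
(.lf (nat_lit 492616) (.g (nat_lit 3187) (.e (nat_lit 163873) (nat_lit 3) (.e (nat_lit 204813) (nat_lit 9) (.e (nat_lit 426197) (nat_lit 9) (.e (nat_lit 426480) (nat_lit 27) (.e (nat_lit 336388) (nat_lit 27) (.e (nat_lit 426108) (nat_lit 1) (.e (nat_lit 164330) (nat_lit 230) .nil))))))) (.g (nat_lit 1) (.e (nat_lit 148695) (nat_lit 0) .nil) .nil))) 
(.lf (nat_lit 493128) (.g (nat_lit 2117) (.e (nat_lit 163874) (nat_lit 3) (.e (nat_lit 204837) (nat_lit 20) (.e (nat_lit 114719) (nat_lit 23) (.e (nat_lit 98366) (nat_lit 27) (.e (nat_lit 434232) (nat_lit 23) (.e (nat_lit 532499) (nat_lit 1) (.e (nat_lit 57692) (nat_lit 156) .nil))))))) (.g (nat_lit 1) (.e (nat_lit 149565) (nat_lit 0) .nil) .nil)))) (.nd (nat_lit 9) 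
(.lf (nat_lit 492872) (.g (nat_lit 2250) (.e (nat_lit 163873) (nat_lit 3) (.e (nat_lit 204853) (nat_lit 26) (.e (nat_lit 336019) (nat_lit 3) (.e (nat_lit 98342) (nat_lit 20) (.e (nat_lit 221215) (nat_lit 23) (.e (nat_lit 204829) (nat_lit 18) (.e (nat_lit 57930) (nat_lit 282) .nil))))))) (.g (nat_lit 1) (.e (nat_lit 149153) (nat_lit 0) .nil) .nil))) 
(.lf (nat_lit 493384) (.g (nat_lit 1557) (.e (nat_lit 163874) (nat_lit 3) (.e (nat_lit 204863) (nat_lit 27) (.e (nat_lit 344129) (nat_lit 26) (.e (nat_lit 557097) (nat_lit 13) .nil)))) (.g (nat_lit 0) (.e (nat_lit 149969) (nat_lit 0) .nil) .nil))))) (.nd (nat_lit 8) (.nd (nat_lit 9) 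
(.lf (nat_lit 492744) (.g (nat_lit 4119) (.e (nat_lit 163873) (nat_lit 3) (.e (nat_lit 204813) (nat_lit 9) (.e (nat_lit 426200) (nat_lit 9) (.e (nat_lit 426480) (nat_lit 27) (.e (nat_lit 336389) (nat_lit 27) (.e (nat_lit 426098) (nat_lit 1) (.e (nat_lit 164327) (nat_lit 230) .nil))))))) (.g (nat_lit 1) (.e (nat_lit 148849) (nat_lit 0) .nil) .nil))) 
(.lf (nat_lit 493256) (.g (nat_lit 3992) (.e (nat_lit 163874) (nat_lit 3) (.e (nat_lit 204851) (nat_lit 26) (.e (nat_lit 336019) (nat_lit 3) (.e (nat_lit 98342) (nat_lit 20) (.e (nat_lit 221215) (nat_lit 23) (.e (nat_lit 204830) (nat_lit 18) (.e (nat_lit 57929) (nat_lit 282) .nil))))))) (.g (nat_lit 1) (.e (nat_lit 149700) (nat_lit 0) .nil) .nil)))) (.nd (nat_lit 9) 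
(.lf (nat_lit 493000) (.g (nat_lit 1119) (.e (nat_lit 163874) (nat_lit 3) (.e (nat_lit 204813) (nat_lit 9) (.e (nat_lit 426198) (nat_lit 9) (.e (nat_lit 426489) (nat_lit 27) .nil)))) (.g (nat_lit 0) (.e (nat_lit 149368) (nat_lit 0) .nil) .nil))) 
(.lf (nat_lit 493512) (.g (nat_lit 3317) (.e (nat_lit 163875) (nat_lit 3) (.e (nat_lit 204813) (nat_lit 9) (.e (nat_lit 426198) (nat_lit 9) (.e (nat_lit 426568) (nat_lit 34) (.e (nat_lit 393253) (nat_lit 18) (.e (nat_lit 164327) (nat_lit 230) .nil)))))) (.g (nat_lit 1) (.e (nat_lit 150282) (nat_lit 0) .nil) .nil))))))) (.nd (nat_lit 6) (.nd (nat_lit 7) (.nd (nat_lit 8) (.nd (nat_lit 9) 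
(.lf (nat_lit 492584) (.g (nat_lit 3632) (.e (nat_lit 163873) (nat_lit 3) (.e (nat_lit 204813) (nat_lit 9) (.e (nat_lit 426189) (nat_lit 9) (.e (nat_lit 426566) (nat_lit 34) (.e (nat_lit 393253) (nat_lit 18) (.e (nat_lit 164325) (nat_lit 230) .nil)))))) (.g (nat_lit 1) (.e (nat_lit 148663) (nat_lit 0) .nil) .nil))) 
(.lf (nat_lit 493096) (.g (nat_lit 4438) (.e (nat_lit 163874) (nat_lit 3) (.e (nat_lit 204837) (nat_lit 20) (.e (nat_lit 114718) (nat_lit 23) (.e (nat_lit 98367) (nat_lit 27) (.e (nat_lit 434231) (nat_lit 23) (.e (nat_lit 532500) (nat_lit 1) (.e (nat_lit 57689) (nat_lit 156) .nil))))))) (.g (nat_lit 1) (.e (nat_lit 149533) (nat_lit 0) .nil) .nil)))) (.nd (nat_lit 9) 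
(.lf (nat_lit 492840) (.g (nat_lit 2375) (.e (nat_lit 163873) (nat_lit 3) (.e (nat_lit 204838) (nat_lit 20) (.e (nat_lit 114719) (nat_lit 23) (.e (nat_lit 98365) (nat_lit 26) (.e (nat_lit 426139) (nat_lit 3) (.e (nat_lit 204829) (nat_lit 18) (.e (nat_lit 57686) (nat_lit 156) .nil))))))) (.g (nat_lit 1) (.e (nat_lit 149118) (nat_lit 0) .nil) .nil))) 
(.lf (nat_lit 493352) (.g (nat_lit 2400) (.e (nat_lit 163874) (nat_lit 3) (.e (nat_lit 204862) (nat_lit 27) (.e (nat_lit 344117) (nat_lit 21) (.e (nat_lit 516123) (nat_lit 2) (.e (nat_lit 213033) (nat_lit 12) (.e (nat_lit 163965) (nat_lit 25) (.e (nat_lit 532499) (nat_lit 1) (.e (nat_lit 57927) (nat_lit 282) .nil)))))))) (.g (nat_lit 1) (.e (nat_lit 149937) (nat_lit 0) .nil) .nil))))) 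
(.nd (nat_lit 8) (.nd (nat_lit 9) 
(.lf (nat_lit 492712) (.g (nat_lit 4249) (.e (nat_lit 163873) (nat_lit 3) (.e (nat_lit 204813) (nat_lit 9) (.e (nat_lit 426199) (nat_lit 9) (.e (nat_lit 426566) (nat_lit 34) (.e (nat_lit 393251) (nat_lit 18) (.e (nat_lit 164331) (nat_lit 230) .nil)))))) (.g (nat_lit 1) (.e (nat_lit 148813) (nat_lit 0) .nil) .nil))) 
(.lf (nat_lit 493224) (.g (nat_lit 1903) (.e (nat_lit 163874) (nat_lit 3) (.e (nat_lit 204838) (nat_lit 20) (.e (nat_lit 114719) (nat_lit 23) (.e (nat_lit 98366) (nat_lit 27) (.e (nat_lit 434233) (nat_lit 23) (.e (nat_lit 532504) (nat_lit 1) (.e (nat_lit 57692) (nat_lit 156) .nil))))))) (.g (nat_lit 1) (.e (nat_lit 149661) (nat_lit 0) .nil) .nil)))) (.nd (nat_lit 9) 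
(.lf (nat_lit 492968) (.g (nat_lit 1813) (.e (nat_lit 163874) (nat_lit 3) (.e (nat_lit 204812) (nat_lit 9) (.e (nat_lit 426188) (nat_lit 9) (.e (nat_lit 426566) (nat_lit 34) (.e (nat_lit 393252) (nat_lit 18) (.e (nat_lit 164330) (nat_lit 230) .nil)))))) (.g (nat_lit 1) (.e (nat_lit 149328) (nat_lit 0) .nil) .nil))) 
(.lf (nat_lit 493480) (.g (nat_lit 1910) (.e (nat_lit 163875) (nat_lit 3) (.e (nat_lit 204812) (nat_lit 9) (.e (nat_lit 426198) (nat_lit 9) (.e (nat_lit 426566) (nat_lit 34) (.e (nat_lit 393253) (nat_lit 18) (.e (nat_lit 164325) (nat_lit 230) .nil)))))) (.g (nat_lit 1) (.e (nat_lit 150219) (nat_lit 0) .nil) .nil)))))) (.nd (nat_lit 7) (.nd (nat_lit 8) (.nd (nat_lit 9) 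
(.lf (nat_lit 492648) (.g (nat_lit 3857) (.e (nat_lit 163873) (nat_lit 3) (.e (nat_lit 204813) (nat_lit 9) (.e (nat_lit 426198) (nat_lit 9) (.e (nat_lit 426566) (nat_lit 34) (.e (nat_lit 393251) (nat_lit 18) (.e (nat_lit 164325) (nat_lit 230) .nil)))))) (.g (nat_lit 1) (.e (nat_lit 148743) (nat_lit 0) .nil) .nil))) 
(.lf (nat_lit 493160) (.g (nat_lit 3517) (.e (nat_lit 163874) (nat_lit 3) (.e (nat_lit 204838) (nat_lit 20) (.e (nat_lit 114714) (nat_lit 22) (.e (nat_lit 90174) (nat_lit 14) (.e (nat_lit 180243) (nat_lit 5) (.e (nat_lit 532502) (nat_lit 1) (.e (nat_lit 57688) (nat_lit 156) .nil))))))) (.g (nat_lit 1) (.e (nat_lit 149597) (nat_lit 0) .nil) .nil)))) (.nd (nat_lit 9) 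
(.lf (nat_lit 492904) (.g (nat_lit 987) (.e (nat_lit 163873) (nat_lit 3) (.e (nat_lit 204861) (nat_lit 26) (.e (nat_lit 336076) (nat_lit 9) (.e (nat_lit 336454) (nat_lit 34) .nil)))) (.g (nat_lit 0) (.e (nat_lit 149189) (nat_lit 0) .nil) .nil))) 
(.lf (nat_lit 493416) (.g (nat_lit 2902) (.e (nat_lit 163874) (nat_lit 3) (.e (nat_lit 204864) (nat_lit 27) (.e (nat_lit 344132) (nat_lit 26) (.e (nat_lit 557100) (nat_lit 13) (.e (nat_lit 172062) (nat_lit 2) (.e (nat_lit 196661) (nat_lit 12) (.e (nat_lit 57353) (nat_lit 0) (.e (nat_lit 7710) (nat_lit 414) .nil)))))))) (.g (nat_lit 1) (.e (nat_lit 150001) (nat_lit 0) .nil) .nil))))) 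
(.nd (nat_lit 8) (.nd (nat_lit 9) 
(.lf (nat_lit 492776) (.g (nat_lit 382) (.e (nat_lit 163873) (nat_lit 3) (.e (nat_lit 204813) (nat_lit 9) (.e (nat_lit 433920) (nat_lit 9) .nil))) (.g (nat_lit 0) (.e (nat_lit 148895) (nat_lit 0) .nil) .nil))) 
(.lf (nat_lit 493288) (.g (nat_lit 1691) (.e (nat_lit 163874) (nat_lit 3) (.e (nat_lit 204854) (nat_lit 26) (.e (nat_lit 336115) (nat_lit 9) (.e (nat_lit 336456) (nat_lit 34) (.e (nat_lit 483364) (nat_lit 18) (.e (nat_lit 57926) (nat_lit 282) .nil)))))) (.g (nat_lit 1) (.e (nat_lit 149795) (nat_lit 0) .nil) .nil)))) (.nd (nat_lit 9) 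
(.lf (nat_lit 493032) (.g (nat_lit 1129) (.e (nat_lit 163874) (nat_lit 3) (.e (nat_lit 204829) (nat_lit 18) (.e (nat_lit 57906) (nat_lit 278) .nil))) (.g (nat_lit 0) (.e (nat_lit 149469) (nat_lit 0) .nil) .nil))) 
(.lf (nat_lit 493544) (.g (nat_lit 3829) (.e (nat_lit 163875) (nat_lit 3) (.e (nat_lit 204829) (nat_lit 18) (.e (nat_lit 57847) (nat_lit 252) (.e (nat_lit 57410) (nat_lit 12) (.e (nat_lit 336019) (nat_lit 3) (.e (nat_lit 98384) (nat_lit 32) (.e (nat_lit 475161) (nat_lit 21) (.e (nat_lit 7280) (nat_lit 386) .nil)))))))) (.g (nat_lit 1) (.e (nat_lit 150386) (nat_lit 0) .nil) .nil)))))))) 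
(.nd (nat_lit 5) (.nd (nat_lit 6) (.nd (nat_lit 7) (.nd (nat_lit 8) (.nd (nat_lit 9) 
(.lf (nat_lit 492568) (.g (nat_lit 2223) (.e (nat_lit 163873) (nat_lit 3) (.e (nat_lit 204813) (nat_lit 9) (.e (nat_lit 426188) (nat_lit 9) (.e (nat_lit 426567) (nat_lit 34) (.e (nat_lit 393251) (nat_lit 18) .nil))))) (.g (nat_lit 0) (.e (nat_lit 148646) (nat_lit 0) .nil) .nil))) 
(.lf (nat_lit 493080) (.g (nat_lit 2767) (.e (nat_lit 163874) (nat_lit 3) (.e (nat_lit 204837) (nat_lit 20) (.e (nat_lit 114715) (nat_lit 22) (.e (nat_lit 90174) (nat_lit 14) (.e (nat_lit 180243) (nat_lit 5) (.e (nat_lit 532504) (nat_lit 1) (.e (nat_lit 57692) (nat_lit 156) .nil))))))) (.g (nat_lit 1) (.e (nat_lit 149517) (nat_lit 0) .nil) .nil)))) (.nd (nat_lit 9) 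
(.lf (nat_lit 492824) (.g (nat_lit 2595) (.e (nat_lit 163873) (nat_lit 3) (.e (nat_lit 204838) (nat_lit 20) (.e (nat_lit 114718) (nat_lit 23) (.e (nat_lit 98365) (nat_lit 26) (.e (nat_lit 426138) (nat_lit 3) (.e (nat_lit 204831) (nat_lit 18) (.e (nat_lit 57688) (nat_lit 156) .nil))))))) (.g (nat_lit 1) (.e (nat_lit 149102) (nat_lit 0) .nil) .nil))) 
(.lf (nat_lit 493336) (.g (nat_lit 2335) (.e (nat_lit 163874) (nat_lit 3) (.e (nat_lit 204861) (nat_lit 26) (.e (nat_lit 336213) (nat_lit 13) (.e (nat_lit 393229) (nat_lit 9) (.e (nat_lit 335914) (nat_lit 0) .nil))))) (.g (nat_lit 0) (.e (nat_lit 149919) (nat_lit 0) .nil) .nil))))) (.nd (nat_lit 8) (.nd (nat_lit 9) 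
(.lf (nat_lit 492696) (.g (nat_lit 2826) (.e (nat_lit 163873) (nat_lit 3) (.e (nat_lit 204813) (nat_lit 9) (.e (nat_lit 426199) (nat_lit 9) (.e (nat_lit 426484) (nat_lit 27) (.e (nat_lit 336409) (nat_lit 27) (.e (nat_lit 426098) (nat_lit 1) (.e (nat_lit 164325) (nat_lit 230) .nil))))))) (.g (nat_lit 1) (.e (nat_lit 148797) (nat_lit 0) .nil) .nil))) 
(.lf (nat_lit 493208) (.g (nat_lit 2086) (.e (nat_lit 163874) (nat_lit 3) (.e (nat_lit 204838) (nat_lit 20) (.e (nat_lit 114718) (nat_lit 23) (.e (nat_lit 98367) (nat_lit 27) (.e (nat_lit 434232) (nat_lit 23) .nil))))) (.g (nat_lit 0) (.e (nat_lit 149645) (nat_lit 0) .nil) .nil)))) (.nd (nat_lit 9) 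
(.lf (nat_lit 492952) (.g (nat_lit 1124) (.e (nat_lit 163874) (nat_lit 3) (.e (nat_lit 204809) (nat_lit 9) (.e (nat_lit 426200) (nat_lit 9) (.e (nat_lit 426481) (nat_lit 27) .nil)))) (.g (nat_lit 0) (.e (nat_lit 149274) (nat_lit 0) .nil) .nil))) 
(.lf (nat_lit 493464) (.g (nat_lit 3567) (.e (nat_lit 163875) (nat_lit 3) (.e (nat_lit 204809) (nat_lit 9) (.e (nat_lit 426200) (nat_lit 9) (.e (nat_lit 426566) (nat_lit 34) (.e (nat_lit 393253) (nat_lit 18) (.e (nat_lit 164325) (nat_lit 230) .nil)))))) (.g (nat_lit 1) (.e (nat_lit 150156) (nat_lit 0) .nil) .nil)))))) (.nd (nat_lit 7) (.nd (nat_lit 8) (.nd (nat_lit 9) 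
(.lf (nat_lit 492632) (.g (nat_lit 3565) (.e (nat_lit 163873) (nat_lit 3) (.e (nat_lit 204813) (nat_lit 9) (.e (nat_lit 426197) (nat_lit 9) (.e (nat_lit 426568) (nat_lit 34) (.e (nat_lit 393252) (nat_lit 18) (.e (nat_lit 164330) (nat_lit 230) .nil)))))) (.g (nat_lit 1) (.e (nat_lit 148712) (nat_lit 0) .nil) .nil))) 
(.lf (nat_lit 493144) (.g (nat_lit 2479) (.e (nat_lit 163874) (nat_lit 3) (.e (nat_lit 204837) (nat_lit 20) (.e (nat_lit 114719) (nat_lit 23) (.e (nat_lit 98367) (nat_lit 27) (.e (nat_lit 434232) (nat_lit 23) (.e (nat_lit 532503) (nat_lit 1) (.e (nat_lit 57685) (nat_lit 156) .nil))))))) (.g (nat_lit 1) (.e (nat_lit 149581) (nat_lit 0) .nil) .nil)))) (.nd (nat_lit 9) 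
(.lf (nat_lit 492888) (.g (nat_lit 1465) (.e (nat_lit 163873) (nat_lit 3) (.e (nat_lit 204861) (nat_lit 26) (.e (nat_lit 336075) (nat_lit 9) (.e (nat_lit 336454) (nat_lit 34) (.e (nat_lit 483362) (nat_lit 18) .nil))))) (.g (nat_lit 0) (.e (nat_lit 149172) (nat_lit 0) .nil) .nil))) 
(.lf (nat_lit 493400) (.g (nat_lit 3667) (.e (nat_lit 163874) (nat_lit 3) (.e (nat_lit 204863) (nat_lit 27) (.e (nat_lit 344133) (nat_lit 26) (.e (nat_lit 557098) (nat_lit 13) (.e (nat_lit 179968) (nat_lit 18) (.e (nat_lit 98343) (nat_lit 21) (.e (nat_lit 229681) (nat_lit 244) .nil))))))) (.g (nat_lit 1) (.e (nat_lit 149985) (nat_lit 0) .nil) .nil))))) (.nd (nat_lit 8) (.nd (nat_lit 9) 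
(.lf (nat_lit 492760) (.g (nat_lit 4133) (.e (nat_lit 163873) (nat_lit 3) (.e (nat_lit 204813) (nat_lit 9) (.e (nat_lit 426200) (nat_lit 9) (.e (nat_lit 426566) (nat_lit 34) (.e (nat_lit 393253) (nat_lit 18) (.e (nat_lit 164324) (nat_lit 230) .nil)))))) (.g (nat_lit 1) (.e (nat_lit 148874) (nat_lit 0) .nil) .nil))) 
(.lf (nat_lit 493272) (.g (nat_lit 2412) (.e (nat_lit 163874) (nat_lit 3) (.e (nat_lit 204854) (nat_lit 26) (.e (nat_lit 336019) (nat_lit 3) (.e (nat_lit 98342) (nat_lit 20) (.e (nat_lit 221196) (nat_lit 20) (.e (nat_lit 3230) (nat_lit 197) (.e (nat_lit 532503) (nat_lit 1) (.e (nat_lit 57931) (nat_lit 282) .nil)))))))) (.g (nat_lit 1) (.e (nat_lit 149778) (nat_lit 0) .nil) .nil)))) 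
(.nd (nat_lit 9) 
(.lf (nat_lit 493016) (.g (nat_lit 2106) (.e (nat_lit 163874) (nat_lit 3) (.e (nat_lit 204813) (nat_lit 9) (.e (nat_lit 426200) (nat_lit 9) (.e (nat_lit 426564) (nat_lit 34) (.e (nat_lit 393252) (nat_lit 18) (.e (nat_lit 164332) (nat_lit 230) .nil)))))) (.g (nat_lit 1) (.e (nat_lit 149384) (nat_lit 0) .nil) .nil))) 
(.lf (nat_lit 493528) (.g (nat_lit 2009) (.e (nat_lit 163875) (nat_lit 3) (.e (nat_lit 204813) (nat_lit 9) (.e (nat_lit 426200) (nat_lit 9) (.e (nat_lit 426489) (nat_lit 27) (.e (nat_lit 336409) (nat_lit 27) (.e (nat_lit 426098) (nat_lit 1) (.e (nat_lit 164327) (nat_lit 230) .nil))))))) (.g (nat_lit 1) (.e (nat_lit 150305) (nat_lit 0) .nil) .nil))))))) 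
(.nd (nat_lit 6) (.nd (nat_lit 7) (.nd (nat_lit 8) (.nd (nat_lit 9) 
(.lf (nat_lit 492600) (.g (nat_lit 2519) (.e (nat_lit 163873) (nat_lit 3) (.e (nat_lit 204813) (nat_lit 9) (.e (nat_lit 426190) (nat_lit 9) (.e (nat_lit 426566) (nat_lit 34) (.e (nat_lit 393253) (nat_lit 18) (.e (nat_lit 164322) (nat_lit 230) .nil)))))) (.g (nat_lit 1) (.e (nat_lit 148679) (nat_lit 0) .nil) .nil))) 
(.lf (nat_lit 493112) (.g (nat_lit 4983) (.e (nat_lit 163874) (nat_lit 3) (.e (nat_lit 204837) (nat_lit 20) (.e (nat_lit 114718) (nat_lit 23) (.e (nat_lit 98384) (nat_lit 32) (.e (nat_lit 475179) (nat_lit 24) (.e (nat_lit 516120) (nat_lit 1) (.e (nat_lit 164330) (nat_lit 230) .nil))))))) (.g (nat_lit 1) (.e (nat_lit 149549) (nat_lit 0) .nil) .nil)))) (.nd (nat_lit 9) 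
(.lf (nat_lit 492856) (.g (nat_lit 2901) (.e (nat_lit 163873) (nat_lit 3) (.e (nat_lit 204838) (nat_lit 20) (.e (nat_lit 114719) (nat_lit 23) (.e (nat_lit 98384) (nat_lit 32) (.e (nat_lit 475177) (nat_lit 24) (.e (nat_lit 516117) (nat_lit 1) (.e (nat_lit 164330) (nat_lit 230) .nil))))))) (.g (nat_lit 1) (.e (nat_lit 149134) (nat_lit 0) .nil) .nil))) 
(.lf (nat_lit 493368) (.g (nat_lit 2685) (.e (nat_lit 163874) (nat_lit 3) (.e (nat_lit 204863) (nat_lit 27) (.e (nat_lit 344117) (nat_lit 21) (.e (nat_lit 516123) (nat_lit 2) (.e (nat_lit 213034) (nat_lit 12) (.e (nat_lit 163963) (nat_lit 25) (.e (nat_lit 532499) (nat_lit 1) (.e (nat_lit 57927) (nat_lit 282) .nil)))))))) (.g (nat_lit 1) (.e (nat_lit 149953) (nat_lit 0) .nil) .nil))))) 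
(.nd (nat_lit 8) (.nd (nat_lit 9) 
(.lf (nat_lit 492728) (.g (nat_lit 4016) (.e (nat_lit 163873) (nat_lit 3) (.e (nat_lit 204813) (nat_lit 9) (.e (nat_lit 426199) (nat_lit 9) (.e (nat_lit 426568) (nat_lit 34) (.e (nat_lit 393253) (nat_lit 18) (.e (nat_lit 164324) (nat_lit 230) .nil)))))) (.g (nat_lit 1) (.e (nat_lit 148829) (nat_lit 0) .nil) .nil))) 
(.lf (nat_lit 493240) (.g (nat_lit 3529) (.e (nat_lit 163874) (nat_lit 3) (.e (nat_lit 204838) (nat_lit 20) (.e (nat_lit 114719) (nat_lit 23) (.e (nat_lit 98384) (nat_lit 32) (.e (nat_lit 475177) (nat_lit 24) (.e (nat_lit 516120) (nat_lit 1) (.e (nat_lit 164330) (nat_lit 230) .nil))))))) (.g (nat_lit 1) (.e (nat_lit 149677) (nat_lit 0) .nil) .nil)))) (.nd (nat_lit 9) 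
(.lf (nat_lit 492984) (.g (nat_lit 3126) (.e (nat_lit 163874) (nat_lit 3) (.e (nat_lit 204813) (nat_lit 9) (.e (nat_lit 426188) (nat_lit 9) (.e (nat_lit 426568) (nat_lit 34) (.e (nat_lit 393253) (nat_lit 18) (.e (nat_lit 164330) (nat_lit 230) .nil)))))) (.g (nat_lit 1) (.e (nat_lit 149351) (nat_lit 0) .nil) .nil))) 
(.lf (nat_lit 493496) (.g (nat_lit 3680) (.e (nat_lit 163875) (nat_lit 3) (.e (nat_lit 204813) (nat_lit 9) (.e (nat_lit 426190) (nat_lit 9) (.e (nat_lit 426566) (nat_lit 34) (.e (nat_lit 393253) (nat_lit 18) (.e (nat_lit 164327) (nat_lit 230) .nil)))))) (.g (nat_lit 1) (.e (nat_lit 150261) (nat_lit 0) .nil) .nil)))))) (.nd (nat_lit 7) (.nd (nat_lit 8) (.nd (nat_lit 9) 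
(.lf (nat_lit 492664) (.g (nat_lit 1055) (.e (nat_lit 163873) (nat_lit 3) (.e (nat_lit 204813) (nat_lit 9) (.e (nat_lit 426198) (nat_lit 9) (.e (nat_lit 426568) (nat_lit 34) .nil)))) (.g (nat_lit 0) (.e (nat_lit 148759) (nat_lit 0) .nil) .nil))) 
(.lf (nat_lit 493176) (.g (nat_lit 3143) (.e (nat_lit 163874) (nat_lit 3) (.e (nat_lit 204838) (nat_lit 20) (.e (nat_lit 114715) (nat_lit 22) (.e (nat_lit 90170) (nat_lit 13) (.e (nat_lit 172066) (nat_lit 3) (.e (nat_lit 204829) (nat_lit 18) (.e (nat_lit 57688) (nat_lit 156) .nil))))))) (.g (nat_lit 1) (.e (nat_lit 149613) (nat_lit 0) .nil) .nil)))) (.nd (nat_lit 9) 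
(.lf (nat_lit 492920) (.g (nat_lit 2142) (.e (nat_lit 163873) (nat_lit 3) (.e (nat_lit 204861) (nat_lit 26) (.e (nat_lit 336222) (nat_lit 13) (.e (nat_lit 393229) (nat_lit 9) (.e (nat_lit 335986) (nat_lit 1) (.e (nat_lit 57927) (nat_lit 282) .nil)))))) (.g (nat_lit 1) (.e (nat_lit 149209) (nat_lit 0) .nil) .nil))) 
(.lf (nat_lit 493432) (.g (nat_lit 3496) (.e (nat_lit 163874) (nat_lit 3) (.e (nat_lit 204873) (nat_lit 30) (.e (nat_lit 368676) (nat_lit 21) (.e (nat_lit 516131) (nat_lit 3) (.e (nat_lit 221214) (nat_lit 23) (.e (nat_lit 204830) (nat_lit 18) (.e (nat_lit 57929) (nat_lit 282) .nil))))))) (.g (nat_lit 1) (.e (nat_lit 150079) (nat_lit 0) .nil) .nil))))) (.nd (nat_lit 8) (.nd (nat_lit 9) 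
(.lf (nat_lit 492792) (.g (nat_lit 2550) (.e (nat_lit 163873) (nat_lit 3) (.e (nat_lit 204837) (nat_lit 20) (.e (nat_lit 114715) (nat_lit 22) (.e (nat_lit 90174) (nat_lit 14) (.e (nat_lit 180243) (nat_lit 5) (.e (nat_lit 532503) (nat_lit 1) (.e (nat_lit 57688) (nat_lit 156) .nil))))))) (.g (nat_lit 1) (.e (nat_lit 149070) (nat_lit 0) .nil) .nil))) 
(.lf (nat_lit 493304) (.g (nat_lit 2004) (.e (nat_lit 163874) (nat_lit 3) (.e (nat_lit 204861) (nat_lit 26) (.e (nat_lit 336075) (nat_lit 9) (.e (nat_lit 336454) (nat_lit 34) (.e (nat_lit 483364) (nat_lit 18) (.e (nat_lit 57930) (nat_lit 282) .nil)))))) (.g (nat_lit 1) (.e (nat_lit 149859) (nat_lit 0) .nil) .nil)))) (.nd (nat_lit 9) 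
(.lf (nat_lit 493048) (.g (nat_lit 5012) (.e (nat_lit 163874) (nat_lit 3) (.e (nat_lit 204837) (nat_lit 20) (.e (nat_lit 114714) (nat_lit 22) (.e (nat_lit 90174) (nat_lit 14) (.e (nat_lit 180243) (nat_lit 5) (.e (nat_lit 532499) (nat_lit 1) (.e (nat_lit 57692) (nat_lit 156) .nil))))))) (.g (nat_lit 1) (.e (nat_lit 149485) (nat_lit 0) .nil) .nil))) 
(.lf (nat_lit 493560) (.g (nat_lit 979) (.e (nat_lit 163875) (nat_lit 3) (.e (nat_lit 204830) (nat_lit 18) (.e (nat_lit 57783) (nat_lit 239) .nil))) (.g (nat_lit 0) (.e (nat_lit 150402) (nat_lit 0) .nil) .nil)))))))))) (.nd (nat_lit 3) (.nd (nat_lit 4) (.nd (nat_lit 5) (.nd (nat_lit 6) (.nd (nat_lit 7) (.nd (nat_lit 8) (.nd (nat_lit 9) 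
(.lf (nat_lit 492548) (.g (nat_lit 1357) (.e (nat_lit 163873) (nat_lit 3) (.e (nat_lit 204813) (nat_lit 9) (.e (nat_lit 426187) (nat_lit 9) (.e (nat_lit 426568) (nat_lit 34) (.e (nat_lit 393253) (nat_lit 18) .nil))))) (.g (nat_lit 0) (.e (nat_lit 148623) (nat_lit 0) .nil) .nil))) 
(.lf (nat_lit 493060) (.g (nat_lit 4790) (.e (nat_lit 163874) (nat_lit 3) (.e (nat_lit 204837) (nat_lit 20) (.e (nat_lit 114714) (nat_lit 22) (.e (nat_lit 90174) (nat_lit 14) (.e (nat_lit 180243) (nat_lit 5) (.e (nat_lit 532504) (nat_lit 1) (.e (nat_lit 57691) (nat_lit 156) .nil))))))) (.g (nat_lit 1) (.e (nat_lit 149497) (nat_lit 0) .nil) .nil)))) (.nd (nat_lit 9) 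
(.lf (nat_lit 492804) (.g (nat_lit 3712) (.e (nat_lit 163873) (nat_lit 3) (.e (nat_lit 204837) (nat_lit 20) (.e (nat_lit 114719) (nat_lit 23) (.e (nat_lit 98366) (nat_lit 27) (.e (nat_lit 434231) (nat_lit 23) (.e (nat_lit 532502) (nat_lit 1) (.e (nat_lit 57688) (nat_lit 156) .nil))))))) (.g (nat_lit 1) (.e (nat_lit 149082) (nat_lit 0) .nil) .nil))) 
(.lf (nat_lit 493316) (.g (nat_lit 1263) (.e (nat_lit 163874) (nat_lit 3) (.e (nat_lit 204861) (nat_lit 26) (.e (nat_lit 336076) (nat_lit 9) (.e (nat_lit 336452) (nat_lit 34) .nil)))) (.g (nat_lit 0) (.e (nat_lit 149877) (nat_lit 0) .nil) .nil))))) (.nd (nat_lit 8) (.nd (nat_lit 9) 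
(.lf (nat_lit 492676) (.g (nat_lit 3355) (.e (nat_lit 163873) (nat_lit 3) (.e (nat_lit 204813) (nat_lit 9) (.e (nat_lit 426198) (nat_lit 9) (.e (nat_lit 426568) (nat_lit 34) (.e (nat_lit 393253) (nat_lit 18) (.e (nat_lit 164332) (nat_lit 230) .nil)))))) (.g (nat_lit 1) (.e (nat_lit 148771) (nat_lit 0) .nil) .nil))) 
(.lf (nat_lit 493188) (.g (nat_lit 2899) (.e (nat_lit 163874) (nat_lit 3) (.e (nat_lit 204838) (nat_lit 20) (.e (nat_lit 114715) (nat_lit 22) (.e (nat_lit 90174) (nat_lit 14) (.e (nat_lit 180243) (nat_lit 5) (.e (nat_lit 532504) (nat_lit 1) (.e (nat_lit 57692) (nat_lit 156) .nil))))))) (.g (nat_lit 1) (.e (nat_lit 149625) (nat_lit 0) .nil) .nil)))) (.nd (nat_lit 9) 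
(.lf (nat_lit 492932) (.g (nat_lit 3015) (.e (nat_lit 163874) (nat_lit 3) (.e (nat_lit 204808) (nat_lit 9) (.e (nat_lit 426190) (nat_lit 9) (.e (nat_lit 426566) (nat_lit 34) (.e (nat_lit 393253) (nat_lit 18) (.e (nat_lit 164325) (nat_lit 230) .nil)))))) (.g (nat_lit 1) (.e (nat_lit 149245) (nat_lit 0) .nil) .nil))) 
(.lf (nat_lit 493444) (.g (nat_lit 1533) (.e (nat_lit 163874) (nat_lit 3) (.e (nat_lit 204877) (nat_lit 31) (.e (nat_lit 376842) (nat_lit 11) (.e (nat_lit 426497) (nat_lit 27) (.e (nat_lit 335987) (nat_lit 1) (.e (nat_lit 57926) (nat_lit 282) .nil)))))) (.g (nat_lit 1) (.e (nat_lit 150092) (nat_lit 0) .nil) .nil)))))) (.nd (nat_lit 7) (.nd (nat_lit 8) (.nd (nat_lit 9) 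
(.lf (nat_lit 492612) (.g (nat_lit 5062) (.e (nat_lit 163873) (nat_lit 3) (.e (nat_lit 204813) (nat_lit 9) (.e (nat_lit 426196) (nat_lit 9) (.e (nat_lit 426566) (nat_lit 34) (.e (nat_lit 393253) (nat_lit 18) (.e (nat_lit 164331) (nat_lit 230) .nil)))))) (.g (nat_lit 1) (.e (nat_lit 148691) (nat_lit 0) .nil) .nil))) 
(.lf (nat_lit 493124) (.g (nat_lit 4686) (.e (nat_lit 163874) (nat_lit 3) (.e (nat_lit 204837) (nat_lit 20) (.e (nat_lit 114719) (nat_lit 23) (.e (nat_lit 98366) (nat_lit 27) (.e (nat_lit 434231) (nat_lit 23) (.e (nat_lit 532500) (nat_lit 1) (.e (nat_lit 57689) (nat_lit 156) .nil))))))) (.g (nat_lit 1) (.e (nat_lit 149561) (nat_lit 0) .nil) .nil)))) (.nd (nat_lit 9) 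
(.lf (nat_lit 492868) (.g (nat_lit 2291) (.e (nat_lit 163873) (nat_lit 3) (.e (nat_lit 204853) (nat_lit 26) (.e (nat_lit 336019) (nat_lit 3) (.e (nat_lit 98342) (nat_lit 20) (.e (nat_lit 221214) (nat_lit 23) (.e (nat_lit 204829) (nat_lit 18) (.e (nat_lit 57930) (nat_lit 282) .nil))))))) (.g (nat_lit 1) (.e (nat_lit 149149) (nat_lit 0) .nil) .nil))) 
(.lf (nat_lit 493380) (.g (nat_lit 2945) (.e (nat_lit 163874) (nat_lit 3) (.e (nat_lit 204863) (nat_lit 27) (.e (nat_lit 344118) (nat_lit 21) (.e (nat_lit 516129) (nat_lit 3) (.e (nat_lit 221214) (nat_lit 23) (.e (nat_lit 204831) (nat_lit 18) (.e (nat_lit 57931) (nat_lit 282) .nil))))))) (.g (nat_lit 1) (.e (nat_lit 149965) (nat_lit 0) .nil) .nil))))) (.nd (nat_lit 8) (.nd (nat_lit 9) 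
(.lf (nat_lit 492740) (.g (nat_lit 2313) (.e (nat_lit 163873) (nat_lit 3) (.e (nat_lit 204813) (nat_lit 9) (.e (nat_lit 426200) (nat_lit 9) (.e (nat_lit 426478) (nat_lit 27) (.e (nat_lit 336386) (nat_lit 27) (.e (nat_lit 426108) (nat_lit 1) (.e (nat_lit 164330) (nat_lit 230) .nil))))))) (.g (nat_lit 1) (.e (nat_lit 148841) (nat_lit 0) .nil) .nil))) 
(.lf (nat_lit 493252) (.g (nat_lit 2858) (.e (nat_lit 163874) (nat_lit 3) (.e (nat_lit 204851) (nat_lit 26) (.e (nat_lit 336019) (nat_lit 3) (.e (nat_lit 98342) (nat_lit 20) (.e (nat_lit 221215) (nat_lit 23) (.e (nat_lit 204828) (nat_lit 18) (.e (nat_lit 57927) (nat_lit 282) .nil))))))) (.g (nat_lit 1) (.e (nat_lit 149696) (nat_lit 0) .nil) .nil)))) (.nd (nat_lit 9) 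
(.lf (nat_lit 492996) (.g (nat_lit 2639) (.e (nat_lit 163874) (nat_lit 3) (.e (nat_lit 204813) (nat_lit 9) (.e (nat_lit 426197) (nat_lit 9) (.e (nat_lit 426566) (nat_lit 34) (.e (nat_lit 393251) (nat_lit 18) (.e (nat_lit 164325) (nat_lit 230) .nil)))))) (.g (nat_lit 1) (.e (nat_lit 149363) (nat_lit 0) .nil) .nil))) 
(.lf (nat_lit 493508) (.g (nat_lit 2927) (.e (nat_lit 163875) (nat_lit 3) (.e (nat_lit 204813) (nat_lit 9) (.e (nat_lit 426198) (nat_lit 9) (.e (nat_lit 426568) (nat_lit 34) (.e (nat_lit 393251) (nat_lit 18) (.e (nat_lit 164325) (nat_lit 230) .nil)))))) (.g (nat_lit 1) (.e (nat_lit 150278) (nat_lit 0) .nil) .nil))))))) (.nd (nat_lit 6) (.nd (nat_lit 7) (.nd (nat_lit 8) (.nd (nat_lit 9) 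
(.lf (nat_lit 492580) (.g (nat_lit 3342) (.e (nat_lit 163873) (nat_lit 3) (.e (nat_lit 204813) (nat_lit 9) (.e (nat_lit 426189) (nat_lit 9) (.e (nat_lit 426566) (nat_lit 34) (.e (nat_lit 393251) (nat_lit 18) (.e (nat_lit 164325) (nat_lit 230) .nil)))))) (.g (nat_lit 1) (.e (nat_lit 148659) (nat_lit 0) .nil) .nil))) 
(.lf (nat_lit 493092) (.g (nat_lit 2346) (.e (nat_lit 163874) (nat_lit 3) (.e (nat_lit 204837) (nat_lit 20) (.e (nat_lit 114718) (nat_lit 23) (.e (nat_lit 98366) (nat_lit 27) (.e (nat_lit 434232) (nat_lit 23) (.e (nat_lit 532504) (nat_lit 1) (.e (nat_lit 57692) (nat_lit 156) .nil))))))) (.g (nat_lit 1) (.e (nat_lit 149529) (nat_lit 0) .nil) .nil)))) (.nd (nat_lit 9) 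
(.lf (nat_lit 492836) (.g (nat_lit 2285) (.e (nat_lit 163873) (nat_lit 3) (.e (nat_lit 204838) (nat_lit 20) (.e (nat_lit 114719) (nat_lit 23) (.e (nat_lit 98365) (nat_lit 26) (.e (nat_lit 426133) (nat_lit 3) .nil))))) (.g (nat_lit 0) (.e (nat_lit 149114) (nat_lit 0) .nil) .nil))) 
(.lf (nat_lit 493348) (.g (nat_lit 3080) (.e (nat_lit 163874) (nat_lit 3) (.e (nat_lit 204862) (nat_lit 27) (.e (nat_lit 344117) (nat_lit 21) (.e (nat_lit 516122) (nat_lit 2) (.e (nat_lit 213035) (nat_lit 12) (.e (nat_lit 163964) (nat_lit 25) (.e (nat_lit 532503) (nat_lit 1) (.e (nat_lit 57931) (nat_lit 282) .nil)))))))) (.g (nat_lit 1) (.e (nat_lit 149933) (nat_lit 0) .nil) .nil))))) 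
(.nd (nat_lit 8) (.nd (nat_lit 9) 
(.lf (nat_lit 492708) (.g (nat_lit 2805) (.e (nat_lit 163873) (nat_lit 3) (.e (nat_lit 204813) (nat_lit 9) (.e (nat_lit 426199) (nat_lit 9) (.e (nat_lit 426564) (nat_lit 34) (.e (nat_lit 393253) (nat_lit 18) (.e (nat_lit 164325) (nat_lit 230) .nil)))))) (.g (nat_lit 1) (.e (nat_lit 148809) (nat_lit 0) .nil) .nil))) 
(.lf (nat_lit 493220) (.g (nat_lit 2250) (.e (nat_lit 163874) (nat_lit 3) (.e (nat_lit 204838) (nat_lit 20) (.e (nat_lit 114719) (nat_lit 23) (.e (nat_lit 98365) (nat_lit 26) (.e (nat_lit 426138) (nat_lit 3) (.e (nat_lit 204831) (nat_lit 18) (.e (nat_lit 57687) (nat_lit 156) .nil))))))) (.g (nat_lit 1) (.e (nat_lit 149657) (nat_lit 0) .nil) .nil)))) (.nd (nat_lit 9) 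
(.lf (nat_lit 492964) (.g (nat_lit 1992) (.e (nat_lit 163874) (nat_lit 3) (.e (nat_lit 204811) (nat_lit 9) (.e (nat_lit 426234) (nat_lit 9) (.e (nat_lit 426565) (nat_lit 34) (.e (nat_lit 393253) (nat_lit 18) (.e (nat_lit 164330) (nat_lit 230) .nil)))))) (.g (nat_lit 1) (.e (nat_lit 149322) (nat_lit 0) .nil) .nil))) 
(.lf (nat_lit 493476) (.g (nat_lit 1630) (.e (nat_lit 163875) (nat_lit 3) (.e (nat_lit 204811) (nat_lit 9) (.e (nat_lit 426262) (nat_lit 9) (.e (nat_lit 426565) (nat_lit 34) (.e (nat_lit 393254) (nat_lit 18) (.e (nat_lit 164325) (nat_lit 230) .nil)))))) (.g (nat_lit 1) (.e (nat_lit 150214) (nat_lit 0) .nil) .nil)))))) (.nd (nat_lit 7) (.nd (nat_lit 8) (.nd (nat_lit 9) 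
(.lf (nat_lit 492644) (.g (nat_lit 1594) (.e (nat_lit 163873) (nat_lit 3) (.e (nat_lit 204813) (nat_lit 9) (.e (nat_lit 426198) (nat_lit 9) (.e (nat_lit 426478) (nat_lit 27) (.e (nat_lit 336388) (nat_lit 27) .nil))))) (.g (nat_lit 0) (.e (nat_lit 148724) (nat_lit 0) .nil) .nil))) 
(.lf (nat_lit 493156) (.g (nat_lit 4589) (.e (nat_lit 163874) (nat_lit 3) (.e (nat_lit 204838) (nat_lit 20) (.e (nat_lit 114714) (nat_lit 22) (.e (nat_lit 90174) (nat_lit 14) (.e (nat_lit 180243) (nat_lit 5) (.e (nat_lit 532499) (nat_lit 1) (.e (nat_lit 57691) (nat_lit 156) .nil))))))) (.g (nat_lit 1) (.e (nat_lit 149593) (nat_lit 0) .nil) .nil)))) (.nd (nat_lit 9) 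
(.lf (nat_lit 492900) (.g (nat_lit 1560) (.e (nat_lit 163873) (nat_lit 3) (.e (nat_lit 204861) (nat_lit 26) (.e (nat_lit 336076) (nat_lit 9) (.e (nat_lit 336377) (nat_lit 27) (.e (nat_lit 426522) (nat_lit 27) .nil))))) (.g (nat_lit 0) (.e (nat_lit 149185) (nat_lit 0) .nil) .nil))) 
(.lf (nat_lit 493412) (.g (nat_lit 2663) (.e (nat_lit 163874) (nat_lit 3) (.e (nat_lit 204864) (nat_lit 27) (.e (nat_lit 344130) (nat_lit 26) (.e (nat_lit 557103) (nat_lit 14) (.e (nat_lit 180243) (nat_lit 5) (.e (nat_lit 532503) (nat_lit 1) (.e (nat_lit 65280) (nat_lit 168) .nil))))))) (.g (nat_lit 1) (.e (nat_lit 149997) (nat_lit 0) .nil) .nil))))) (.nd (nat_lit 8) (.nd (nat_lit 9) 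
(.lf (nat_lit 492772) (.g (nat_lit 2051) (.e (nat_lit 163873) (nat_lit 3) (.e (nat_lit 204813) (nat_lit 9) (.e (nat_lit 426200) (nat_lit 9) (.e (nat_lit 426568) (nat_lit 34) (.e (nat_lit 393253) (nat_lit 18) (.e (nat_lit 164326) (nat_lit 230) .nil)))))) (.g (nat_lit 1) (.e (nat_lit 148889) (nat_lit 0) .nil) .nil))) 
(.lf (nat_lit 493284) (.g (nat_lit 4506) (.e (nat_lit 163874) (nat_lit 3) (.e (nat_lit 204854) (nat_lit 26) (.e (nat_lit 336019) (nat_lit 3) (.e (nat_lit 98342) (nat_lit 20) (.e (nat_lit 221215) (nat_lit 23) (.e (nat_lit 204830) (nat_lit 18) (.e (nat_lit 57927) (nat_lit 282) .nil))))))) (.g (nat_lit 1) (.e (nat_lit 149791) (nat_lit 0) .nil) .nil)))) (.nd (nat_lit 9) 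
(.lf (nat_lit 493028) (.g (nat_lit 3023) (.e (nat_lit 163874) (nat_lit 3) (.e (nat_lit 204813) (nat_lit 9) (.e (nat_lit 426200) (nat_lit 9) (.e (nat_lit 426568) (nat_lit 34) (.e (nat_lit 393253) (nat_lit 18) (.e (nat_lit 164330) (nat_lit 230) .nil)))))) (.g (nat_lit 1) (.e (nat_lit 149396) (nat_lit 0) .nil) .nil))) 
(.lf (nat_lit 493540) (.g (nat_lit 1249) (.e (nat_lit 163875) (nat_lit 3) (.e (nat_lit 204829) (nat_lit 18) (.e (nat_lit 57688) (nat_lit 156) .nil))) (.g (nat_lit 0) (.e (nat_lit 150382) (nat_lit 0) .nil) .nil)))))))) (.nd (nat_lit 5) (.nd (nat_lit 6) (.nd (nat_lit 7) (.nd (nat_lit 8) (.nd (nat_lit 9) 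
(.lf (nat_lit 492564) (.g (nat_lit 4250) (.e (nat_lit 163873) (nat_lit 3) (.e (nat_lit 204813) (nat_lit 9) (.e (nat_lit 426188) (nat_lit 9) (.e (nat_lit 426566) (nat_lit 34) (.e (nat_lit 393253) (nat_lit 18) (.e (nat_lit 164324) (nat_lit 230) .nil)))))) (.g (nat_lit 1) (.e (nat_lit 148642) (nat_lit 0) .nil) .nil))) 
(.lf (nat_lit 493076) (.g (nat_lit 3485) (.e (nat_lit 163874) (nat_lit 3) (.e (nat_lit 204837) (nat_lit 20) (.e (nat_lit 114715) (nat_lit 22) (.e (nat_lit 90170) (nat_lit 13) (.e (nat_lit 172067) (nat_lit 3) (.e (nat_lit 204831) (nat_lit 18) (.e (nat_lit 57692) (nat_lit 156) .nil))))))) (.g (nat_lit 1) (.e (nat_lit 149513) (nat_lit 0) .nil) .nil)))) (.nd (nat_lit 9) 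
(.lf (nat_lit 492820) (.g (nat_lit 1363) (.e (nat_lit 163873) (nat_lit 3) (.e (nat_lit 204838) (nat_lit 20) (.e (nat_lit 114716) (nat_lit 22) (.e (nat_lit 90169) (nat_lit 13) .nil)))) (.g (nat_lit 0) (.e (nat_lit 149098) (nat_lit 0) .nil) .nil))) 
(.lf (nat_lit 493332) (.g (nat_lit 2268) (.e (nat_lit 163874) (nat_lit 3) (.e (nat_lit 204861) (nat_lit 26) (.e (nat_lit 336213) (nat_lit 13) (.e (nat_lit 393225) (nat_lit 9) (.e (nat_lit 335892) (nat_lit 0) .nil))))) (.g (nat_lit 0) (.e (nat_lit 149914) (nat_lit 0) .nil) .nil))))) (.nd (nat_lit 8) (.nd (nat_lit 9) 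
(.lf (nat_lit 492692) (.g (nat_lit 3026) (.e (nat_lit 163873) (nat_lit 3) (.e (nat_lit 204813) (nat_lit 9) (.e (nat_lit 426199) (nat_lit 9) (.e (nat_lit 426481) (nat_lit 27) (.e (nat_lit 336388) (nat_lit 27) (.e (nat_lit 426100) (nat_lit 1) (.e (nat_lit 164332) (nat_lit 230) .nil))))))) (.g (nat_lit 1) (.e (nat_lit 148793) (nat_lit 0) .nil) .nil))) 
(.lf (nat_lit 493204) (.g (nat_lit 3130) (.e (nat_lit 163874) (nat_lit 3) (.e (nat_lit 204838) (nat_lit 20) (.e (nat_lit 114718) (nat_lit 23) (.e (nat_lit 98367) (nat_lit 27) (.e (nat_lit 434231) (nat_lit 23) (.e (nat_lit 532499) (nat_lit 1) (.e (nat_lit 57691) (nat_lit 156) .nil))))))) (.g (nat_lit 1) (.e (nat_lit 149641) (nat_lit 0) .nil) .nil)))) (.nd (nat_lit 9) 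
(.lf (nat_lit 492948) (.g (nat_lit 2215) (.e (nat_lit 163874) (nat_lit 3) (.e (nat_lit 204809) (nat_lit 9) (.e (nat_lit 426198) (nat_lit 9) (.e (nat_lit 426566) (nat_lit 34) (.e (nat_lit 393252) (nat_lit 18) (.e (nat_lit 164330) (nat_lit 230) .nil)))))) (.g (nat_lit 1) (.e (nat_lit 149270) (nat_lit 0) .nil) .nil))) 
(.lf (nat_lit 493460) (.g (nat_lit 2356) (.e (nat_lit 163875) (nat_lit 3) (.e (nat_lit 204809) (nat_lit 9) (.e (nat_lit 426198) (nat_lit 9) (.e (nat_lit 426566) (nat_lit 34) (.e (nat_lit 393251) (nat_lit 18) (.e (nat_lit 164327) (nat_lit 230) .nil)))))) (.g (nat_lit 1) (.e (nat_lit 150152) (nat_lit 0) .nil) .nil)))))) (.nd (nat_lit 7) (.nd (nat_lit 8) (.nd (nat_lit 9) 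
(.lf (nat_lit 492628) (.g (nat_lit 3878) (.e (nat_lit 163873) (nat_lit 3) (.e (nat_lit 204813) (nat_lit 9) (.e (nat_lit 426197) (nat_lit 9) (.e (nat_lit 426568) (nat_lit 34) (.e (nat_lit 393251) (nat_lit 18) (.e (nat_lit 164325) (nat_lit 230) .nil)))))) (.g (nat_lit 1) (.e (nat_lit 148708) (nat_lit 0) .nil) .nil))) 
(.lf (nat_lit 493140) (.g (nat_lit 2235) (.e (nat_lit 163874) (nat_lit 3) (.e (nat_lit 204837) (nat_lit 20) (.e (nat_lit 114719) (nat_lit 23) (.e (nat_lit 98367) (nat_lit 27) (.e (nat_lit 434232) (nat_lit 23) .nil))))) (.g (nat_lit 0) (.e (nat_lit 149577) (nat_lit 0) .nil) .nil)))) (.nd (nat_lit 9) 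
(.lf (nat_lit 492884) (.g (nat_lit 2478) (.e (nat_lit 163873) (nat_lit 3) (.e (nat_lit 204855) (nat_lit 26) (.e (nat_lit 336212) (nat_lit 13) (.e (nat_lit 393229) (nat_lit 9) (.e (nat_lit 335996) (nat_lit 1) (.e (nat_lit 57931) (nat_lit 282) .nil)))))) (.g (nat_lit 1) (.e (nat_lit 149165) (nat_lit 0) .nil) .nil))) 
(.lf (nat_lit 493396) (.g (nat_lit 804) (.e (nat_lit 163874) (nat_lit 3) (.e (nat_lit 204863) (nat_lit 27) (.e (nat_lit 344133) (nat_lit 26) .nil))) (.g (nat_lit 0) (.e (nat_lit 149981) (nat_lit 0) .nil) .nil))))) (.nd (nat_lit 8) (.nd (nat_lit 9) 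
(.lf (nat_lit 492756) (.g (nat_lit 3817) (.e (nat_lit 163873) (nat_lit 3) (.e (nat_lit 204813) (nat_lit 9) (.e (nat_lit 426200) (nat_lit 9) (.e (nat_lit 426566) (nat_lit 34) (.e (nat_lit 393251) (nat_lit 18) (.e (nat_lit 164331) (nat_lit 230) .nil)))))) (.g (nat_lit 1) (.e (nat_lit 148870) (nat_lit 0) .nil) .nil))) 
(.lf (nat_lit 493268) (.g (nat_lit 3505) (.e (nat_lit 163874) (nat_lit 3) (.e (nat_lit 204854) (nat_lit 26) (.e (nat_lit 336019) (nat_lit 3) (.e (nat_lit 98341) (nat_lit 20) (.e (nat_lit 221214) (nat_lit 23) (.e (nat_lit 204830) (nat_lit 18) (.e (nat_lit 57929) (nat_lit 282) .nil))))))) (.g (nat_lit 1) (.e (nat_lit 149774) (nat_lit 0) .nil) .nil)))) (.nd (nat_lit 9) 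
(.lf (nat_lit 493012) (.g (nat_lit 1671) (.e (nat_lit 163874) (nat_lit 3) (.e (nat_lit 204813) (nat_lit 9) (.e (nat_lit 426199) (nat_lit 9) (.e (nat_lit 426568) (nat_lit 34) (.e (nat_lit 393253) (nat_lit 18) .nil))))) (.g (nat_lit 0) (.e (nat_lit 149380) (nat_lit 0) .nil) .nil))) 
(.lf (nat_lit 493524) (.g (nat_lit 3761) (.e (nat_lit 163875) (nat_lit 3) (.e (nat_lit 204813) (nat_lit 9) (.e (nat_lit 426200) (nat_lit 9) (.e (nat_lit 426480) (nat_lit 27) (.e (nat_lit 336389) (nat_lit 27) (.e (nat_lit 426098) (nat_lit 1) (.e (nat_lit 164327) (nat_lit 230) .nil))))))) (.g (nat_lit 1) (.e (nat_lit 150299) (nat_lit 0) .nil) .nil))))))) 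
(.nd (nat_lit 6) (.nd (nat_lit 7) (.nd (nat_lit 8) (.nd (nat_lit 9) 
(.lf (nat_lit 492596) (.g (nat_lit 3957) (.e (nat_lit 163873) (nat_lit 3) (.e (nat_lit 204813) (nat_lit 9) (.e (nat_lit 426190) (nat_lit 9) (.e (nat_lit 426566) (nat_lit 34) (.e (nat_lit 393251) (nat_lit 18) (.e (nat_lit 164327) (nat_lit 230) .nil)))))) (.g (nat_lit 1) (.e (nat_lit 148675) (nat_lit 0) .nil) .nil))) 
(.lf (nat_lit 493108) (.g (nat_lit 3023) (.e (nat_lit 163874) (nat_lit 3) (.e (nat_lit 204837) (nat_lit 20) (.e (nat_lit 114718) (nat_lit 23) (.e (nat_lit 98367) (nat_lit 27) (.e (nat_lit 434234) (nat_lit 23) (.e (nat_lit 532503) (nat_lit 1) (.e (nat_lit 57688) (nat_lit 156) .nil))))))) (.g (nat_lit 1) (.e (nat_lit 149545) (nat_lit 0) .nil) .nil)))) (.nd (nat_lit 9) 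
(.lf (nat_lit 492852) (.g (nat_lit 4312) (.e (nat_lit 163873) (nat_lit 3) (.e (nat_lit 204838) (nat_lit 20) (.e (nat_lit 114719) (nat_lit 23) (.e (nat_lit 98367) (nat_lit 27) (.e (nat_lit 434232) (nat_lit 23) (.e (nat_lit 532503) (nat_lit 1) (.e (nat_lit 57688) (nat_lit 156) .nil))))))) (.g (nat_lit 1) (.e (nat_lit 149130) (nat_lit 0) .nil) .nil))) 
(.lf (nat_lit 493364) (.g (nat_lit 1688) (.e (nat_lit 163874) (nat_lit 3) (.e (nat_lit 204863) (nat_lit 27) (.e (nat_lit 344117) (nat_lit 21) (.e (nat_lit 516123) (nat_lit 2) .nil)))) (.g (nat_lit 0) (.e (nat_lit 149949) (nat_lit 0) .nil) .nil))))) (.nd (nat_lit 8) (.nd (nat_lit 9) 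
(.lf (nat_lit 492724) (.g (nat_lit 4330) (.e (nat_lit 163873) (nat_lit 3) (.e (nat_lit 204813) (nat_lit 9) (.e (nat_lit 426199) (nat_lit 9) (.e (nat_lit 426568) (nat_lit 34) (.e (nat_lit 393251) (nat_lit 18) (.e (nat_lit 164331) (nat_lit 230) .nil)))))) (.g (nat_lit 1) (.e (nat_lit 148825) (nat_lit 0) .nil) .nil))) 
(.lf (nat_lit 493236) (.g (nat_lit 2362) (.e (nat_lit 163874) (nat_lit 3) (.e (nat_lit 204838) (nat_lit 20) (.e (nat_lit 114719) (nat_lit 23) (.e (nat_lit 98367) (nat_lit 27) (.e (nat_lit 434234) (nat_lit 23) (.e (nat_lit 532502) (nat_lit 1) (.e (nat_lit 57692) (nat_lit 156) .nil))))))) (.g (nat_lit 1) (.e (nat_lit 149673) (nat_lit 0) .nil) .nil)))) (.nd (nat_lit 9) 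
(.lf (nat_lit 492980) (.g (nat_lit 2538) (.e (nat_lit 163874) (nat_lit 3) (.e (nat_lit 204813) (nat_lit 9) (.e (nat_lit 426188) (nat_lit 9) (.e (nat_lit 426566) (nat_lit 34) (.e (nat_lit 393254) (nat_lit 18) (.e (nat_lit 164327) (nat_lit 230) .nil)))))) (.g (nat_lit 1) (.e (nat_lit 149347) (nat_lit 0) .nil) .nil))) 
(.lf (nat_lit 493492) (.g (nat_lit 3825) (.e (nat_lit 163875) (nat_lit 3) (.e (nat_lit 204813) (nat_lit 9) (.e (nat_lit 426188) (nat_lit 9) (.e (nat_lit 426568) (nat_lit 34) (.e (nat_lit 393253) (nat_lit 18) (.e (nat_lit 164327) (nat_lit 230) .nil)))))) (.g (nat_lit 1) (.e (nat_lit 150257) (nat_lit 0) .nil) .nil)))))) (.nd (nat_lit 7) (.nd (nat_lit 8) (.nd (nat_lit 9) 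
(.lf (nat_lit 492660) (.g (nat_lit 2508) (.e (nat_lit 163873) (nat_lit 3) (.e (nat_lit 204813) (nat_lit 9) (.e (nat_lit 426198) (nat_lit 9) (.e (nat_lit 426566) (nat_lit 34) (.e (nat_lit 393254) (nat_lit 18) .nil))))) (.g (nat_lit 0) (.e (nat_lit 148755) (nat_lit 0) .nil) .nil))) 
(.lf (nat_lit 493172) (.g (nat_lit 4274) (.e (nat_lit 163874) (nat_lit 3) (.e (nat_lit 204838) (nat_lit 20) (.e (nat_lit 114715) (nat_lit 22) (.e (nat_lit 90170) (nat_lit 13) (.e (nat_lit 172065) (nat_lit 3) (.e (nat_lit 204830) (nat_lit 18) (.e (nat_lit 57689) (nat_lit 156) .nil))))))) (.g (nat_lit 1) (.e (nat_lit 149609) (nat_lit 0) .nil) .nil)))) (.nd (nat_lit 9) 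
(.lf (nat_lit 492916) (.g (nat_lit 2382) (.e (nat_lit 163873) (nat_lit 3) (.e (nat_lit 204861) (nat_lit 26) (.e (nat_lit 336078) (nat_lit 9) (.e (nat_lit 336454) (nat_lit 34) (.e (nat_lit 483365) (nat_lit 18) (.e (nat_lit 57929) (nat_lit 282) .nil)))))) (.g (nat_lit 1) (.e (nat_lit 149205) (nat_lit 0) .nil) .nil))) 
(.lf (nat_lit 493428) (.g (nat_lit 447) (.e (nat_lit 163874) (nat_lit 3) (.e (nat_lit 204866) (nat_lit 28) (.e (nat_lit 360192) (nat_lit 18) .nil))) (.g (nat_lit 0) (.e (nat_lit 150014) (nat_lit 0) .nil) .nil))))) (.nd (nat_lit 8) (.nd (nat_lit 9) 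
(.lf (nat_lit 492788) (.g (nat_lit 2117) (.e (nat_lit 163873) (nat_lit 3) (.e (nat_lit 204836) (nat_lit 20) (.e (nat_lit 114719) (nat_lit 23) (.e (nat_lit 98367) (nat_lit 27) (.e (nat_lit 434232) (nat_lit 23) (.e (nat_lit 532503) (nat_lit 1) (.e (nat_lit 57688) (nat_lit 156) .nil))))))) (.g (nat_lit 1) (.e (nat_lit 149066) (nat_lit 0) .nil) .nil))) 
(.lf (nat_lit 493300) (.g (nat_lit 2472) (.e (nat_lit 163874) (nat_lit 3) (.e (nat_lit 204859) (nat_lit 26) (.e (nat_lit 336017) (nat_lit 3) (.e (nat_lit 98342) (nat_lit 20) (.e (nat_lit 221215) (nat_lit 23) (.e (nat_lit 204830) (nat_lit 18) (.e (nat_lit 57931) (nat_lit 282) .nil))))))) (.g (nat_lit 1) (.e (nat_lit 149807) (nat_lit 0) .nil) .nil)))) (.nd (nat_lit 9) 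
(.lf (nat_lit 493044) (.g (nat_lit 2707) (.e (nat_lit 163874) (nat_lit 3) (.e (nat_lit 204836) (nat_lit 20) (.e (nat_lit 114719) (nat_lit 23) (.e (nat_lit 98367) (nat_lit 27) (.e (nat_lit 434232) (nat_lit 23) (.e (nat_lit 532504) (nat_lit 1) (.e (nat_lit 57691) (nat_lit 156) .nil))))))) (.g (nat_lit 1) (.e (nat_lit 149481) (nat_lit 0) .nil) .nil))) 
(.lf (nat_lit 493556) (.g (nat_lit 1010) (.e (nat_lit 163875) (nat_lit 3) (.e (nat_lit 204829) (nat_lit 18) (.e (nat_lit 57910) (nat_lit 278) .nil))) (.g (nat_lit 0) (.e (nat_lit 150398) (nat_lit 0) .nil) .nil))))))))) (.nd (nat_lit 4) (.nd (nat_lit 5) (.nd (nat_lit 6) (.nd (nat_lit 7) (.nd (nat_lit 8) (.nd (nat_lit 9) 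
(.lf (nat_lit 492556) (.g (nat_lit 2106) (.e (nat_lit 163873) (nat_lit 3) (.e (nat_lit 204813) (nat_lit 9) (.e (nat_lit 426188) (nat_lit 9) (.e (nat_lit 426564) (nat_lit 34) (.e (nat_lit 393252) (nat_lit 18) .nil))))) (.g (nat_lit 0) (.e (nat_lit 148634) (nat_lit 0) .nil) .nil))) 
(.lf (nat_lit 493068) (.g (nat_lit 4427) (.e (nat_lit 163874) (nat_lit 3) (.e (nat_lit 204837) (nat_lit 20) (.e (nat_lit 114715) (nat_lit 22) (.e (nat_lit 90170) (nat_lit 13) (.e (nat_lit 172065) (nat_lit 3) (.e (nat_lit 204830) (nat_lit 18) (.e (nat_lit 57692) (nat_lit 156) .nil))))))) (.g (nat_lit 1) (.e (nat_lit 149505) (nat_lit 0) .nil) .nil)))) (.nd (nat_lit 9) 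
(.lf (nat_lit 492812) (.g (nat_lit 2645) (.e (nat_lit 163873) (nat_lit 3) (.e (nat_lit 204838) (nat_lit 20) (.e (nat_lit 114715) (nat_lit 22) (.e (nat_lit 90170) (nat_lit 13) (.e (nat_lit 172065) (nat_lit 3) (.e (nat_lit 204829) (nat_lit 18) (.e (nat_lit 57686) (nat_lit 156) .nil))))))) (.g (nat_lit 1) (.e (nat_lit 149090) (nat_lit 0) .nil) .nil))) 
(.lf (nat_lit 493324) (.g (nat_lit 1148) (.e (nat_lit 163874) (nat_lit 3) (.e (nat_lit 204861) (nat_lit 26) (.e (nat_lit 336076) (nat_lit 9) (.e (nat_lit 336456) (nat_lit 34) .nil)))) (.g (nat_lit 0) (.e (nat_lit 149896) (nat_lit 0) .nil) .nil))))) (.nd (nat_lit 8) (.nd (nat_lit 9) 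
(.lf (nat_lit 492684) (.g (nat_lit 4732) (.e (nat_lit 163873) (nat_lit 3) (.e (nat_lit 204813) (nat_lit 9) (.e (nat_lit 426199) (nat_lit 9) (.e (nat_lit 426480) (nat_lit 27) (.e (nat_lit 336389) (nat_lit 27) (.e (nat_lit 426098) (nat_lit 1) (.e (nat_lit 164327) (nat_lit 230) .nil))))))) (.g (nat_lit 1) (.e (nat_lit 148779) (nat_lit 0) .nil) .nil))) 
(.lf (nat_lit 493196) (.g (nat_lit 4019) (.e (nat_lit 163874) (nat_lit 3) (.e (nat_lit 204838) (nat_lit 20) (.e (nat_lit 114716) (nat_lit 22) (.e (nat_lit 90174) (nat_lit 14) (.e (nat_lit 180243) (nat_lit 5) (.e (nat_lit 532504) (nat_lit 1) (.e (nat_lit 57690) (nat_lit 156) .nil))))))) (.g (nat_lit 1) (.e (nat_lit 149633) (nat_lit 0) .nil) .nil)))) (.nd (nat_lit 9) 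
(.lf (nat_lit 492940) (.g (nat_lit 2103) (.e (nat_lit 163874) (nat_lit 3) (.e (nat_lit 204809) (nat_lit 9) (.e (nat_lit 426188) (nat_lit 9) (.e (nat_lit 426568) (nat_lit 34) (.e (nat_lit 393253) (nat_lit 18) (.e (nat_lit 164330) (nat_lit 230) .nil)))))) (.g (nat_lit 1) (.e (nat_lit 149262) (nat_lit 0) .nil) .nil))) 
(.lf (nat_lit 493452) (.g (nat_lit 2919) (.e (nat_lit 163875) (nat_lit 3) (.e (nat_lit 204809) (nat_lit 9) (.e (nat_lit 426188) (nat_lit 9) (.e (nat_lit 426566) (nat_lit 34) (.e (nat_lit 393254) (nat_lit 18) (.e (nat_lit 164325) (nat_lit 230) .nil)))))) (.g (nat_lit 1) (.e (nat_lit 150144) (nat_lit 0) .nil) .nil)))))) (.nd (nat_lit 7) (.nd (nat_lit 8) (.nd (nat_lit 9) 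
(.lf (nat_lit 492620) (.g (nat_lit 4512) (.e (nat_lit 163873) (nat_lit 3) (.e (nat_lit 204813) (nat_lit 9) (.e (nat_lit 426197) (nat_lit 9) (.e (nat_lit 426566) (nat_lit 34) (.e (nat_lit 393252) (nat_lit 18) (.e (nat_lit 164330) (nat_lit 230) .nil)))))) (.g (nat_lit 1) (.e (nat_lit 148700) (nat_lit 0) .nil) .nil))) 
(.lf (nat_lit 493132) (.g (nat_lit 2303) (.e (nat_lit 163874) (nat_lit 3) (.e (nat_lit 204837) (nat_lit 20) (.e (nat_lit 114719) (nat_lit 23) (.e (nat_lit 98366) (nat_lit 27) (.e (nat_lit 434233) (nat_lit 23) (.e (nat_lit 532504) (nat_lit 1) (.e (nat_lit 57692) (nat_lit 156) .nil))))))) (.g (nat_lit 1) (.e (nat_lit 149569) (nat_lit 0) .nil) .nil)))) (.nd (nat_lit 9) 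
(.lf (nat_lit 492876) (.g (nat_lit 3667) (.e (nat_lit 163873) (nat_lit 3) (.e (nat_lit 204854) (nat_lit 26) (.e (nat_lit 336019) (nat_lit 3) (.e (nat_lit 98342) (nat_lit 20) (.e (nat_lit 221214) (nat_lit 23) (.e (nat_lit 204829) (nat_lit 18) (.e (nat_lit 57927) (nat_lit 282) .nil))))))) (.g (nat_lit 1) (.e (nat_lit 149157) (nat_lit 0) .nil) .nil))) 
(.lf (nat_lit 493388) (.g (nat_lit 1667) (.e (nat_lit 163874) (nat_lit 3) (.e (nat_lit 204863) (nat_lit 27) (.e (nat_lit 344130) (nat_lit 26) (.e (nat_lit 557103) (nat_lit 14) .nil)))) (.g (nat_lit 0) (.e (nat_lit 149973) (nat_lit 0) .nil) .nil))))) (.nd (nat_lit 8) (.nd (nat_lit 9) 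
(.lf (nat_lit 492748) (.g (nat_lit 2424) (.e (nat_lit 163873) (nat_lit 3) (.e (nat_lit 204813) (nat_lit 9) (.e (nat_lit 426200) (nat_lit 9) (.e (nat_lit 426481) (nat_lit 27) (.e (nat_lit 336388) (nat_lit 27) (.e (nat_lit 426100) (nat_lit 1) (.e (nat_lit 164332) (nat_lit 230) .nil))))))) (.g (nat_lit 1) (.e (nat_lit 148855) (nat_lit 0) .nil) .nil))) 
(.lf (nat_lit 493260) (.g (nat_lit 2978) (.e (nat_lit 163874) (nat_lit 3) (.e (nat_lit 204852) (nat_lit 26) (.e (nat_lit 336211) (nat_lit 13) (.e (nat_lit 393225) (nat_lit 9) (.e (nat_lit 335995) (nat_lit 1) (.e (nat_lit 57931) (nat_lit 282) .nil)))))) (.g (nat_lit 1) (.e (nat_lit 149743) (nat_lit 0) .nil) .nil)))) (.nd (nat_lit 9) 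
(.lf (nat_lit 493004) (.g (nat_lit 2540) (.e (nat_lit 163874) (nat_lit 3) (.e (nat_lit 204813) (nat_lit 9) (.e (nat_lit 426198) (nat_lit 9) (.e (nat_lit 426566) (nat_lit 34) (.e (nat_lit 393254) (nat_lit 18) .nil))))) (.g (nat_lit 0) (.e (nat_lit 149372) (nat_lit 0) .nil) .nil))) 
(.lf (nat_lit 493516) (.g (nat_lit 1801) (.e (nat_lit 163875) (nat_lit 3) (.e (nat_lit 204813) (nat_lit 9) (.e (nat_lit 426199) (nat_lit 9) (.e (nat_lit 426509) (nat_lit 27) (.e (nat_lit 336412) (nat_lit 27) (.e (nat_lit 426098) (nat_lit 1) (.e (nat_lit 164327) (nat_lit 230) .nil))))))) (.g (nat_lit 1) (.e (nat_lit 150286) (nat_lit 0) .nil) .nil))))))) 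
(.nd (nat_lit 6) (.nd (nat_lit 7) (.nd (nat_lit 8) (.nd (nat_lit 9) 
(.lf (nat_lit 492588) (.g (nat_lit 3767) (.e (nat_lit 163873) (nat_lit 3) (.e (nat_lit 204813) (nat_lit 9) (.e (nat_lit 426189) (nat_lit 9) (.e (nat_lit 426566) (nat_lit 34) (.e (nat_lit 393253) (nat_lit 18) (.e (nat_lit 164331) (nat_lit 230) .nil)))))) (.g (nat_lit 1) (.e (nat_lit 148667) (nat_lit 0) .nil) .nil))) 
(.lf (nat_lit 493100) (.g (nat_lit 2260) (.e (nat_lit 163874) (nat_lit 3) (.e (nat_lit 204837) (nat_lit 20) (.e (nat_lit 114718) (nat_lit 23) (.e (nat_lit 98367) (nat_lit 27) (.e (nat_lit 434232) (nat_lit 23) .nil))))) (.g (nat_lit 0) (.e (nat_lit 149537) (nat_lit 0) .nil) .nil)))) (.nd (nat_lit 9) 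
(.lf (nat_lit 492844) (.g (nat_lit 4466) (.e (nat_lit 163873) (nat_lit 3) (.e (nat_lit 204838) (nat_lit 20) (.e (nat_lit 114719) (nat_lit 23) (.e (nat_lit 98366) (nat_lit 27) (.e (nat_lit 434231) (nat_lit 23) (.e (nat_lit 532499) (nat_lit 1) (.e (nat_lit 57688) (nat_lit 156) .nil))))))) (.g (nat_lit 1) (.e (nat_lit 149122) (nat_lit 0) .nil) .nil))) 
(.lf (nat_lit 493356) (.g (nat_lit 2899) (.e (nat_lit 163874) (nat_lit 3) (.e (nat_lit 204862) (nat_lit 27) (.e (nat_lit 344117) (nat_lit 21) (.e (nat_lit 516130) (nat_lit 3) (.e (nat_lit 221202) (nat_lit 20) (.e (nat_lit 3249) (nat_lit 197) (.e (nat_lit 532499) (nat_lit 1) (.e (nat_lit 57927) (nat_lit 282) .nil)))))))) (.g (nat_lit 1) (.e (nat_lit 149941) (nat_lit 0) .nil) .nil))))) 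
(.nd (nat_lit 8) (.nd (nat_lit 9) 
(.lf (nat_lit 492716) (.g (nat_lit 4851) (.e (nat_lit 163873) (nat_lit 3) (.e (nat_lit 204813) (nat_lit 9) (.e (nat_lit 426199) (nat_lit 9) (.e (nat_lit 426566) (nat_lit 34) (.e (nat_lit 393253) (nat_lit 18) (.e (nat_lit 164326) (nat_lit 230) .nil)))))) (.g (nat_lit 1) (.e (nat_lit 148817) (nat_lit 0) .nil) .nil))) 
(.lf (nat_lit 493228) (.g (nat_lit 4698) (.e (nat_lit 163874) (nat_lit 3) (.e (nat_lit 204838) (nat_lit 20) (.e (nat_lit 114719) (nat_lit 23) (.e (nat_lit 98367) (nat_lit 27) (.e (nat_lit 434231) (nat_lit 23) (.e (nat_lit 532500) (nat_lit 1) (.e (nat_lit 57692) (nat_lit 156) .nil))))))) (.g (nat_lit 1) (.e (nat_lit 149665) (nat_lit 0) .nil) .nil)))) (.nd (nat_lit 9) 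
(.lf (nat_lit 492972) (.g (nat_lit 2119) (.e (nat_lit 163874) (nat_lit 3) (.e (nat_lit 204813) (nat_lit 9) (.e (nat_lit 426188) (nat_lit 9) (.e (nat_lit 426564) (nat_lit 34) (.e (nat_lit 393251) (nat_lit 18) (.e (nat_lit 164325) (nat_lit 230) .nil)))))) (.g (nat_lit 1) (.e (nat_lit 149339) (nat_lit 0) .nil) .nil))) 
(.lf (nat_lit 493484) (.g (nat_lit 2315) (.e (nat_lit 163875) (nat_lit 3) (.e (nat_lit 204813) (nat_lit 9) (.e (nat_lit 426188) (nat_lit 9) (.e (nat_lit 426564) (nat_lit 34) (.e (nat_lit 393251) (nat_lit 18) (.e (nat_lit 164325) (nat_lit 230) .nil)))))) (.g (nat_lit 1) (.e (nat_lit 150247) (nat_lit 0) .nil) .nil)))))) (.nd (nat_lit 7) (.nd (nat_lit 8) (.nd (nat_lit 9) 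
(.lf (nat_lit 492652) (.g (nat_lit 2165) (.e (nat_lit 163873) (nat_lit 3) (.e (nat_lit 204813) (nat_lit 9) (.e (nat_lit 426198) (nat_lit 9) (.e (nat_lit 426566) (nat_lit 34) (.e (nat_lit 393252) (nat_lit 18) (.e (nat_lit 164331) (nat_lit 230) .nil)))))) (.g (nat_lit 1) (.e (nat_lit 148747) (nat_lit 0) .nil) .nil))) 
(.lf (nat_lit 493164) (.g (nat_lit 3358) (.e (nat_lit 163874) (nat_lit 3) (.e (nat_lit 204838) (nat_lit 20) (.e (nat_lit 114714) (nat_lit 22) (.e (nat_lit 90174) (nat_lit 14) (.e (nat_lit 180243) (nat_lit 5) (.e (nat_lit 532503) (nat_lit 1) (.e (nat_lit 57691) (nat_lit 156) .nil))))))) (.g (nat_lit 1) (.e (nat_lit 149601) (nat_lit 0) .nil) .nil)))) (.nd (nat_lit 9) 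
(.lf (nat_lit 492908) (.g (nat_lit 3282) (.e (nat_lit 163873) (nat_lit 3) (.e (nat_lit 204861) (nat_lit 26) (.e (nat_lit 336076) (nat_lit 9) (.e (nat_lit 336454) (nat_lit 34) (.e (nat_lit 483364) (nat_lit 18) (.e (nat_lit 57927) (nat_lit 282) .nil)))))) (.g (nat_lit 1) (.e (nat_lit 149195) (nat_lit 0) .nil) .nil))) 
(.lf (nat_lit 493420) (.g (nat_lit 3107) (.e (nat_lit 163874) (nat_lit 3) (.e (nat_lit 204864) (nat_lit 27) (.e (nat_lit 344133) (nat_lit 26) (.e (nat_lit 557103) (nat_lit 14) (.e (nat_lit 180243) (nat_lit 5) (.e (nat_lit 532499) (nat_lit 1) (.e (nat_lit 65280) (nat_lit 168) .nil))))))) (.g (nat_lit 1) (.e (nat_lit 150005) (nat_lit 0) .nil) .nil))))) (.nd (nat_lit 8) (.nd (nat_lit 9) 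
(.lf (nat_lit 492780) (.g (nat_lit 3660) (.e (nat_lit 163873) (nat_lit 3) (.e (nat_lit 204813) (nat_lit 9) (.e (nat_lit 433920) (nat_lit 9) (.e (nat_lit 426566) (nat_lit 34) (.e (nat_lit 393253) (nat_lit 18) (.e (nat_lit 164329) (nat_lit 230) .nil)))))) (.g (nat_lit 1) (.e (nat_lit 148899) (nat_lit 0) .nil) .nil))) 
(.lf (nat_lit 493292) (.g (nat_lit 669) (.e (nat_lit 163874) (nat_lit 3) (.e (nat_lit 204855) (nat_lit 26) (.e (nat_lit 336219) (nat_lit 13) .nil))) (.g (nat_lit 0) (.e (nat_lit 149799) (nat_lit 0) .nil) .nil)))) (.nd (nat_lit 9) 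
(.lf (nat_lit 493036) (.g (nat_lit 3035) (.e (nat_lit 163874) (nat_lit 3) (.e (nat_lit 204836) (nat_lit 20) (.e (nat_lit 114715) (nat_lit 22) (.e (nat_lit 90170) (nat_lit 13) (.e (nat_lit 172067) (nat_lit 3) (.e (nat_lit 204829) (nat_lit 18) (.e (nat_lit 57691) (nat_lit 156) .nil))))))) (.g (nat_lit 1) (.e (nat_lit 149473) (nat_lit 0) .nil) .nil))) 
(.lf (nat_lit 493548) (.g (nat_lit 4663) (.e (nat_lit 163875) (nat_lit 3) (.e (nat_lit 204829) (nat_lit 18) (.e (nat_lit 57847) (nat_lit 252) (.e (nat_lit 57430) (nat_lit 16) (.e (nat_lit 368676) (nat_lit 21) (.e (nat_lit 516146) (nat_lit 9) (.e (nat_lit 426422) (nat_lit 16) (.e (nat_lit 57692) (nat_lit 156) .nil)))))))) (.g (nat_lit 1) (.e (nat_lit 150390) (nat_lit 0) .nil) .nil)))))))) 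
(.nd (nat_lit 5) (.nd (nat_lit 6) (.nd (nat_lit 7) (.nd (nat_lit 8) (.nd (nat_lit 9) 
(.lf (nat_lit 492572) (.g (nat_lit 3736) (.e (nat_lit 163873) (nat_lit 3) (.e (nat_lit 204813) (nat_lit 9) (.e (nat_lit 426188) (nat_lit 9) (.e (nat_lit 426568) (nat_lit 34) (.e (nat_lit 393251) (nat_lit 18) (.e (nat_lit 164331) (nat_lit 230) .nil)))))) (.g (nat_lit 1) (.e (nat_lit 148651) (nat_lit 0) .nil) .nil))) 
(.lf (nat_lit 493084) (.g (nat_lit 3636) (.e (nat_lit 163874) (nat_lit 3) (.e (nat_lit 204837) (nat_lit 20) (.e (nat_lit 114716) (nat_lit 22) (.e (nat_lit 90174) (nat_lit 14) (.e (nat_lit 180243) (nat_lit 5) (.e (nat_lit 532501) (nat_lit 1) (.e (nat_lit 57691) (nat_lit 156) .nil))))))) (.g (nat_lit 1) (.e (nat_lit 149521) (nat_lit 0) .nil) .nil)))) (.nd (nat_lit 9) 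
(.lf (nat_lit 492828) (.g (nat_lit 3991) (.e (nat_lit 163873) (nat_lit 3) (.e (nat_lit 204838) (nat_lit 20) (.e (nat_lit 114718) (nat_lit 23) (.e (nat_lit 98367) (nat_lit 27) (.e (nat_lit 434231) (nat_lit 23) (.e (nat_lit 532499) (nat_lit 1) (.e (nat_lit 57688) (nat_lit 156) .nil))))))) (.g (nat_lit 1) (.e (nat_lit 149106) (nat_lit 0) .nil) .nil))) 
(.lf (nat_lit 493340) (.g (nat_lit 2645) (.e (nat_lit 163874) (nat_lit 3) (.e (nat_lit 204861) (nat_lit 26) (.e (nat_lit 336222) (nat_lit 13) (.e (nat_lit 393229) (nat_lit 9) (.e (nat_lit 335986) (nat_lit 1) (.e (nat_lit 57927) (nat_lit 282) .nil)))))) (.g (nat_lit 1) (.e (nat_lit 149925) (nat_lit 0) .nil) .nil))))) (.nd (nat_lit 8) (.nd (nat_lit 9) 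
(.lf (nat_lit 492700) (.g (nat_lit 2992) (.e (nat_lit 163873) (nat_lit 3) (.e (nat_lit 204813) (nat_lit 9) (.e (nat_lit 426199) (nat_lit 9) (.e (nat_lit 426489) (nat_lit 27) (.e (nat_lit 336406) (nat_lit 27) (.e (nat_lit 426098) (nat_lit 1) (.e (nat_lit 164327) (nat_lit 230) .nil))))))) (.g (nat_lit 1) (.e (nat_lit 148801) (nat_lit 0) .nil) .nil))) 
(.lf (nat_lit 493212) (.g (nat_lit 2134) (.e (nat_lit 163874) (nat_lit 3) (.e (nat_lit 204838) (nat_lit 20) (.e (nat_lit 114718) (nat_lit 23) (.e (nat_lit 98367) (nat_lit 27) (.e (nat_lit 434234) (nat_lit 23) .nil))))) (.g (nat_lit 0) (.e (nat_lit 149649) (nat_lit 0) .nil) .nil)))) (.nd (nat_lit 9) 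
(.lf (nat_lit 492956) (.g (nat_lit 3888) (.e (nat_lit 163874) (nat_lit 3) (.e (nat_lit 204809) (nat_lit 9) (.e (nat_lit 426200) (nat_lit 9) (.e (nat_lit 426566) (nat_lit 34) (.e (nat_lit 393253) (nat_lit 18) (.e (nat_lit 164332) (nat_lit 230) .nil)))))) (.g (nat_lit 1) (.e (nat_lit 149278) (nat_lit 0) .nil) .nil))) 
(.lf (nat_lit 493468) (.g (nat_lit 2632) (.e (nat_lit 163875) (nat_lit 3) (.e (nat_lit 204809) (nat_lit 9) (.e (nat_lit 426200) (nat_lit 9) (.e (nat_lit 426568) (nat_lit 34) (.e (nat_lit 393251) (nat_lit 18) (.e (nat_lit 164327) (nat_lit 230) .nil)))))) (.g (nat_lit 1) (.e (nat_lit 150160) (nat_lit 0) .nil) .nil)))))) (.nd (nat_lit 7) (.nd (nat_lit 8) (.nd (nat_lit 9) 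
(.lf (nat_lit 492636) (.g (nat_lit 3015) (.e (nat_lit 163873) (nat_lit 3) (.e (nat_lit 204813) (nat_lit 9) (.e (nat_lit 426197) (nat_lit 9) (.e (nat_lit 426568) (nat_lit 34) (.e (nat_lit 393253) (nat_lit 18) (.e (nat_lit 164326) (nat_lit 230) .nil)))))) (.g (nat_lit 1) (.e (nat_lit 148716) (nat_lit 0) .nil) .nil))) 
(.lf (nat_lit 493148) (.g (nat_lit 3171) (.e (nat_lit 163874) (nat_lit 3) (.e (nat_lit 204837) (nat_lit 20) (.e (nat_lit 114719) (nat_lit 23) (.e (nat_lit 98367) (nat_lit 27) (.e (nat_lit 434234) (nat_lit 23) (.e (nat_lit 532499) (nat_lit 1) (.e (nat_lit 57692) (nat_lit 156) .nil))))))) (.g (nat_lit 1) (.e (nat_lit 149585) (nat_lit 0) .nil) .nil)))) (.nd (nat_lit 9) 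
(.lf (nat_lit 492892) (.g (nat_lit 2745) (.e (nat_lit 163873) (nat_lit 3) (.e (nat_lit 204861) (nat_lit 26) (.e (nat_lit 336075) (nat_lit 9) (.e (nat_lit 336454) (nat_lit 34) (.e (nat_lit 483366) (nat_lit 18) (.e (nat_lit 57930) (nat_lit 282) .nil)))))) (.g (nat_lit 1) (.e (nat_lit 149176) (nat_lit 0) .nil) .nil))) 
(.lf (nat_lit 493404) (.g (nat_lit 2861) (.e (nat_lit 163874) (nat_lit 3) (.e (nat_lit 204863) (nat_lit 27) (.e (nat_lit 344133) (nat_lit 26) (.e (nat_lit 557105) (nat_lit 14) (.e (nat_lit 180252) (nat_lit 10) .nil))))) (.g (nat_lit 0) (.e (nat_lit 149989) (nat_lit 0) .nil) .nil))))) (.nd (nat_lit 8) (.nd (nat_lit 9) 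
(.lf (nat_lit 492764) (.g (nat_lit 2557) (.e (nat_lit 163873) (nat_lit 3) (.e (nat_lit 204813) (nat_lit 9) (.e (nat_lit 426200) (nat_lit 9) (.e (nat_lit 426567) (nat_lit 34) (.e (nat_lit 393251) (nat_lit 18) (.e (nat_lit 164327) (nat_lit 230) .nil)))))) (.g (nat_lit 1) (.e (nat_lit 148878) (nat_lit 0) .nil) .nil))) 
(.lf (nat_lit 493276) (.g (nat_lit 2919) (.e (nat_lit 163874) (nat_lit 3) (.e (nat_lit 204854) (nat_lit 26) (.e (nat_lit 336019) (nat_lit 3) (.e (nat_lit 98342) (nat_lit 20) (.e (nat_lit 221213) (nat_lit 23) (.e (nat_lit 204830) (nat_lit 18) (.e (nat_lit 57929) (nat_lit 282) .nil))))))) (.g (nat_lit 1) (.e (nat_lit 149782) (nat_lit 0) .nil) .nil)))) (.nd (nat_lit 9) 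
(.lf (nat_lit 493020) (.g (nat_lit 3619) (.e (nat_lit 163874) (nat_lit 3) (.e (nat_lit 204813) (nat_lit 9) (.e (nat_lit 426200) (nat_lit 9) (.e (nat_lit 426566) (nat_lit 34) (.e (nat_lit 393253) (nat_lit 18) (.e (nat_lit 164325) (nat_lit 230) .nil)))))) (.g (nat_lit 1) (.e (nat_lit 149388) (nat_lit 0) .nil) .nil))) 
(.lf (nat_lit 493532) (.g (nat_lit 3802) (.e (nat_lit 163875) (nat_lit 3) (.e (nat_lit 204813) (nat_lit 9) (.e (nat_lit 426200) (nat_lit 9) (.e (nat_lit 426566) (nat_lit 34) (.e (nat_lit 393251) (nat_lit 18) (.e (nat_lit 164327) (nat_lit 230) .nil)))))) (.g (nat_lit 1) (.e (nat_lit 150309) (nat_lit 0) .nil) .nil))))))) (.nd (nat_lit 6) (.nd (nat_lit 7) (.nd (nat_lit 8) (.nd (nat_lit 9) 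
(.lf (nat_lit 492604) (.g (nat_lit 2893) (.e (nat_lit 163873) (nat_lit 3) (.e (nat_lit 204813) (nat_lit 9) (.e (nat_lit 426190) (nat_lit 9) (.e (nat_lit 426567) (nat_lit 34) (.e (nat_lit 393253) (nat_lit 18) (.e (nat_lit 164326) (nat_lit 230) .nil)))))) (.g (nat_lit 1) (.e (nat_lit 148683) (nat_lit 0) .nil) .nil))) 
(.lf (nat_lit 493116) (.g (nat_lit 2003) (.e (nat_lit 163874) (nat_lit 3) (.e (nat_lit 204837) (nat_lit 20) (.e (nat_lit 114719) (nat_lit 23) (.e (nat_lit 98356) (nat_lit 26) (.e (nat_lit 426436) (nat_lit 18) (.e (nat_lit 98334) (nat_lit 18) (.e (nat_lit 164332) (nat_lit 230) .nil))))))) (.g (nat_lit 1) (.e (nat_lit 149553) (nat_lit 0) .nil) .nil)))) (.nd (nat_lit 9) 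
(.lf (nat_lit 492860) (.g (nat_lit 3335) (.e (nat_lit 163873) (nat_lit 3) (.e (nat_lit 204851) (nat_lit 26) (.e (nat_lit 336019) (nat_lit 3) (.e (nat_lit 98342) (nat_lit 20) (.e (nat_lit 221214) (nat_lit 23) (.e (nat_lit 204829) (nat_lit 18) (.e (nat_lit 57927) (nat_lit 282) .nil))))))) (.g (nat_lit 1) (.e (nat_lit 149138) (nat_lit 0) .nil) .nil))) 
(.lf (nat_lit 493372) (.g (nat_lit 2380) (.e (nat_lit 163874) (nat_lit 3) (.e (nat_lit 204863) (nat_lit 27) (.e (nat_lit 344117) (nat_lit 21) (.e (nat_lit 516129) (nat_lit 3) (.e (nat_lit 221210) (nat_lit 22) .nil))))) (.g (nat_lit 0) (.e (nat_lit 149957) (nat_lit 0) .nil) .nil))))) (.nd (nat_lit 8) (.nd (nat_lit 9) 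
(.lf (nat_lit 492732) (.g (nat_lit 4104) (.e (nat_lit 163873) (nat_lit 3) (.e (nat_lit 204813) (nat_lit 9) (.e (nat_lit 426199) (nat_lit 9) (.e (nat_lit 426568) (nat_lit 34) (.e (nat_lit 393253) (nat_lit 18) (.e (nat_lit 164329) (nat_lit 230) .nil)))))) (.g (nat_lit 1) (.e (nat_lit 148833) (nat_lit 0) .nil) .nil))) 
(.lf (nat_lit 493244) (.g (nat_lit 2906) (.e (nat_lit 163874) (nat_lit 3) (.e (nat_lit 204851) (nat_lit 26) (.e (nat_lit 336019) (nat_lit 3) (.e (nat_lit 98341) (nat_lit 20) (.e (nat_lit 221215) (nat_lit 23) (.e (nat_lit 204829) (nat_lit 18) (.e (nat_lit 57927) (nat_lit 282) .nil))))))) (.g (nat_lit 1) (.e (nat_lit 149688) (nat_lit 0) .nil) .nil)))) (.nd (nat_lit 9) 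
(.lf (nat_lit 492988) (.g (nat_lit 3408) (.e (nat_lit 163874) (nat_lit 3) (.e (nat_lit 204813) (nat_lit 9) (.e (nat_lit 426189) (nat_lit 9) (.e (nat_lit 426566) (nat_lit 34) (.e (nat_lit 393253) (nat_lit 18) (.e (nat_lit 164325) (nat_lit 230) .nil)))))) (.g (nat_lit 1) (.e (nat_lit 149355) (nat_lit 0) .nil) .nil))) 
(.lf (nat_lit 493500) (.g (nat_lit 1820) (.e (nat_lit 163875) (nat_lit 3) (.e (nat_lit 204813) (nat_lit 9) (.e (nat_lit 426198) (nat_lit 9) (.e (nat_lit 426487) (nat_lit 27) (.e (nat_lit 336407) (nat_lit 27) (.e (nat_lit 426098) (nat_lit 1) (.e (nat_lit 164327) (nat_lit 230) .nil))))))) (.g (nat_lit 1) (.e (nat_lit 150270) (nat_lit 0) .nil) .nil)))))) 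
(.nd (nat_lit 7) (.nd (nat_lit 8) (.nd (nat_lit 9) 
(.lf (nat_lit 492668) (.g (nat_lit 2606) (.e (nat_lit 163873) (nat_lit 3) (.e (nat_lit 204813) (nat_lit 9) (.e (nat_lit 426198) (nat_lit 9) (.e (nat_lit 426568) (nat_lit 34) (.e (nat_lit 393252) (nat_lit 18) (.e (nat_lit 164330) (nat_lit 230) .nil)))))) (.g (nat_lit 1) (.e (nat_lit 148763) (nat_lit 0) .nil) .nil))) 
(.lf (nat_lit 493180) (.g (nat_lit 3673) (.e (nat_lit 163874) (nat_lit 3) (.e (nat_lit 204838) (nat_lit 20) (.e (nat_lit 114715) (nat_lit 22) (.e (nat_lit 90170) (nat_lit 13) (.e (nat_lit 172067) (nat_lit 3) (.e (nat_lit 204830) (nat_lit 18) (.e (nat_lit 57689) (nat_lit 156) .nil))))))) (.g (nat_lit 1) (.e (nat_lit 149617) (nat_lit 0) .nil) .nil)))) (.nd (nat_lit 9) 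
(.lf (nat_lit 492924) (.g (nat_lit 2195) (.e (nat_lit 163873) (nat_lit 3) (.e (nat_lit 204861) (nat_lit 26) (.e (nat_lit 336222) (nat_lit 13) (.e (nat_lit 393229) (nat_lit 9) (.e (nat_lit 335996) (nat_lit 1) (.e (nat_lit 57931) (nat_lit 282) .nil)))))) (.g (nat_lit 1) (.e (nat_lit 149213) (nat_lit 0) .nil) .nil))) 
(.lf (nat_lit 493436) (.g (nat_lit 4147) (.e (nat_lit 163874) (nat_lit 3) (.e (nat_lit 204873) (nat_lit 30) (.e (nat_lit 368676) (nat_lit 21) (.e (nat_lit 516131) (nat_lit 3) (.e (nat_lit 221215) (nat_lit 23) (.e (nat_lit 204831) (nat_lit 18) (.e (nat_lit 57931) (nat_lit 282) .nil))))))) (.g (nat_lit 1) (.e (nat_lit 150083) (nat_lit 0) .nil) .nil))))) (.nd (nat_lit 8) (.nd (nat_lit 9) 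
(.lf (nat_lit 492796) (.g (nat_lit 3611) (.e (nat_lit 163873) (nat_lit 3) (.e (nat_lit 204837) (nat_lit 20) (.e (nat_lit 114718) (nat_lit 23) (.e (nat_lit 98367) (nat_lit 27) (.e (nat_lit 434232) (nat_lit 23) (.e (nat_lit 532503) (nat_lit 1) (.e (nat_lit 57688) (nat_lit 156) .nil))))))) (.g (nat_lit 1) (.e (nat_lit 149074) (nat_lit 0) .nil) .nil))) 
(.lf (nat_lit 493308) (.g (nat_lit 2526) (.e (nat_lit 163874) (nat_lit 3) (.e (nat_lit 204861) (nat_lit 26) (.e (nat_lit 336076) (nat_lit 9) (.e (nat_lit 336366) (nat_lit 27) (.e (nat_lit 426501) (nat_lit 27) (.e (nat_lit 335988) (nat_lit 1) (.e (nat_lit 57927) (nat_lit 282) .nil))))))) (.g (nat_lit 1) (.e (nat_lit 149866) (nat_lit 0) .nil) .nil)))) (.nd (nat_lit 9) 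
(.lf (nat_lit 493052) (.g (nat_lit 4321) (.e (nat_lit 163874) (nat_lit 3) (.e (nat_lit 204837) (nat_lit 20) (.e (nat_lit 114714) (nat_lit 22) (.e (nat_lit 90174) (nat_lit 14) (.e (nat_lit 180243) (nat_lit 5) (.e (nat_lit 532501) (nat_lit 1) (.e (nat_lit 57691) (nat_lit 156) .nil))))))) (.g (nat_lit 1) (.e (nat_lit 149489) (nat_lit 0) .nil) .nil))) 
(.lf (nat_lit 493564) (.g (nat_lit 4260) (.e (nat_lit 163875) (nat_lit 3) (.e (nat_lit 204830) (nat_lit 18) (.e (nat_lit 57852) (nat_lit 252) (.e (nat_lit 57409) (nat_lit 12) (.e (nat_lit 336019) (nat_lit 3) (.e (nat_lit 98356) (nat_lit 26) (.e (nat_lit 426422) (nat_lit 16) (.e (nat_lit 57692) (nat_lit 156) .nil)))))))) (.g (nat_lit 1) (.e (nat_lit 150406) (nat_lit 0) .nil) .nil))))))))))) 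
(.nd (nat_lit 2) (.nd (nat_lit 3) (.nd (nat_lit 4) (.nd (nat_lit 5) (.nd (nat_lit 6) 
(.nd (nat_lit 7) (.nd (nat_lit 8) (.nd (nat_lit 9) 
(.lf (nat_lit 492546) (.g (nat_lit 5013) (.e (nat_lit 163873) (nat_lit 3) (.e (nat_lit 204813) (nat_lit 9) (.e (nat_lit 426187) (nat_lit 9) (.e (nat_lit 426566) (nat_lit 34) (.e (nat_lit 393253) (nat_lit 18) (.e (nat_lit 164332) (nat_lit 230) .nil)))))) (.g (nat_lit 1) (.e (nat_lit 148621) (nat_lit 0) .nil) .nil))) 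
(.lf (nat_lit 493058) (.g (nat_lit 2729) (.e (nat_lit 163874) (nat_lit 3) (.e (nat_lit 204837) (nat_lit 20) (.e (nat_lit 114714) (nat_lit 22) (.e (nat_lit 90174) (nat_lit 14) (.e (nat_lit 180243) (nat_lit 5) (.e (nat_lit 532504) (nat_lit 1) (.e (nat_lit 57685) (nat_lit 156) .nil))))))) (.g (nat_lit 1) (.e (nat_lit 149495) (nat_lit 0) .nil) .nil)))) (.nd (nat_lit 9) 
(.lf (nat_lit 492802) (.g (nat_lit 4334) (.e (nat_lit 163873) (nat_lit 3) (.e (nat_lit 204837) (nat_lit 20) (.e (nat_lit 114719) (nat_lit 23) (.e (nat_lit 98365) (nat_lit 26) (.e (nat_lit 426139) (nat_lit 3) (.e (nat_lit 204829) (nat_lit 18) (.e (nat_lit 57688) (nat_lit 156) .nil))))))) (.g (nat_lit 1) (.e (nat_lit 149080) (nat_lit 0) .nil) .nil))) 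
(.lf (nat_lit 493314) (.g (nat_lit 2182) (.e (nat_lit 163874) (nat_lit 3) (.e (nat_lit 204861) (nat_lit 26) (.e (nat_lit 336076) (nat_lit 9) (.e (nat_lit 336377) (nat_lit 27) (.e (nat_lit 426522) (nat_lit 27) (.e (nat_lit 335986) (nat_lit 1) (.e (nat_lit 57927) (nat_lit 282) .nil))))))) (.g (nat_lit 1) (.e (nat_lit 149875) (nat_lit 0) .nil) .nil))))) (.nd (nat_lit 8) (.nd (nat_lit 9) 
(.lf (nat_lit 492674) (.g (nat_lit 2549) (.e (nat_lit 163873) (nat_lit 3) (.e (nat_lit 204813) (nat_lit 9) (.e (nat_lit 426198) (nat_lit 9) (.e (nat_lit 426568) (nat_lit 34) (.e (nat_lit 393253) (nat_lit 18) (.e (nat_lit 164330) (nat_lit 230) .nil)))))) (.g (nat_lit 1) (.e (nat_lit 148769) (nat_lit 0) .nil) .nil))) 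
(.lf (nat_lit 493186) (.g (nat_lit 2111) (.e (nat_lit 163874) (nat_lit 3) (.e (nat_lit 204838) (nat_lit 20) (.e (nat_lit 114715) (nat_lit 22) (.e (nat_lit 90174) (nat_lit 14) (.e (nat_lit 180243) (nat_lit 5) (.e (nat_lit 532502) (nat_lit 1) (.e (nat_lit 57692) (nat_lit 156) .nil))))))) (.g (nat_lit 1) (.e (nat_lit 149623) (nat_lit 0) .nil) .nil)))) (.nd (nat_lit 9) 
(.lf (nat_lit 492930) (.g (nat_lit 2212) (.e (nat_lit 163873) (nat_lit 3) (.e (nat_lit 204873) (nat_lit 30) (.e (nat_lit 368676) (nat_lit 21) (.e (nat_lit 516131) (nat_lit 3) (.e (nat_lit 221215) (nat_lit 23) (.e (nat_lit 204828) (nat_lit 18) (.e (nat_lit 57927) (nat_lit 282) .nil))))))) (.g (nat_lit 1) (.e (nat_lit 149228) (nat_lit 0) .nil) .nil))) 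
(.lf (nat_lit 493442) (.g (nat_lit 2876) (.e (nat_lit 163874) (nat_lit 3) (.e (nat_lit 204876) (nat_lit 31) (.e (nat_lit 376842) (nat_lit 11) (.e (nat_lit 426500) (nat_lit 27) (.e (nat_lit 335988) (nat_lit 1) (.e (nat_lit 57927) (nat_lit 282) .nil)))))) (.g (nat_lit 1) (.e (nat_lit 150090) (nat_lit 0) .nil) .nil)))))) (.nd (nat_lit 7) (.nd (nat_lit 8) (.nd (nat_lit 9) 
(.lf (nat_lit 492610) (.g (nat_lit 4673) (.e (nat_lit 163873) (nat_lit 3) (.e (nat_lit 204813) (nat_lit 9) (.e (nat_lit 426196) (nat_lit 9) (.e (nat_lit 426566) (nat_lit 34) (.e (nat_lit 393253) (nat_lit 18) (.e (nat_lit 164329) (nat_lit 230) .nil)))))) (.g (nat_lit 1) (.e (nat_lit 148689) (nat_lit 0) .nil) .nil))) 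
(.lf (nat_lit 493122) (.g (nat_lit 2291) (.e (nat_lit 163874) (nat_lit 3) (.e (nat_lit 204837) (nat_lit 20) (.e (nat_lit 114719) (nat_lit 23) (.e (nat_lit 98365) (nat_lit 26) (.e (nat_lit 426138) (nat_lit 3) (.e (nat_lit 204831) (nat_lit 18) (.e (nat_lit 57687) (nat_lit 156) .nil))))))) (.g (nat_lit 1) (.e (nat_lit 149559) (nat_lit 0) .nil) .nil)))) (.nd (nat_lit 9) 
(.lf (nat_lit 492866) (.g (nat_lit 1811) (.e (nat_lit 163873) (nat_lit 3) (.e (nat_lit 204853) (nat_lit 26) (.e (nat_lit 336019) (nat_lit 3) (.e (nat_lit 98342) (nat_lit 20) (.e (nat_lit 221213) (nat_lit 23) .nil))))) (.g (nat_lit 0) (.e (nat_lit 149147) (nat_lit 0) .nil) .nil))) 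
(.lf (nat_lit 493378) (.g (nat_lit 2399) (.e (nat_lit 163874) (nat_lit 3) (.e (nat_lit 204863) (nat_lit 27) (.e (nat_lit 344118) (nat_lit 21) (.e (nat_lit 516129) (nat_lit 3) (.e (nat_lit 221214) (nat_lit 23) (.e (nat_lit 204830) (nat_lit 18) (.e (nat_lit 57926) (nat_lit 282) .nil))))))) (.g (nat_lit 1) (.e (nat_lit 149963) (nat_lit 0) .nil) .nil))))) (.nd (nat_lit 8) (.nd (nat_lit 9) 
(.lf (nat_lit 492738) (.g (nat_lit 2214) (.e (nat_lit 163873) (nat_lit 3) (.e (nat_lit 204813) (nat_lit 9) (.e (nat_lit 426200) (nat_lit 9) (.e (nat_lit 426478) (nat_lit 27) (.e (nat_lit 336385) (nat_lit 27) (.e (nat_lit 426108) (nat_lit 1) (.e (nat_lit 164330) (nat_lit 230) .nil))))))) (.g (nat_lit 1) (.e (nat_lit 148839) (nat_lit 0) .nil) .nil))) 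
(.lf (nat_lit 493250) (.g (nat_lit 4052) (.e (nat_lit 163874) (nat_lit 3) (.e (nat_lit 204851) (nat_lit 26) (.e (nat_lit 336019) (nat_lit 3) (.e (nat_lit 98342) (nat_lit 20) (.e (nat_lit 221214) (nat_lit 23) (.e (nat_lit 204830) (nat_lit 18) (.e (nat_lit 57927) (nat_lit 282) .nil))))))) (.g (nat_lit 1) (.e (nat_lit 149694) (nat_lit 0) .nil) .nil)))) (.nd (nat_lit 9) 
(.lf (nat_lit 492994) (.g (nat_lit 3298) (.e (nat_lit 163874) (nat_lit 3) (.e (nat_lit 204813) (nat_lit 9) (.e (nat_lit 426190) (nat_lit 9) (.e (nat_lit 426566) (nat_lit 34) (.e (nat_lit 393253) (nat_lit 18) (.e (nat_lit 164325) (nat_lit 230) .nil)))))) (.g (nat_lit 1) (.e (nat_lit 149361) (nat_lit 0) .nil) .nil))) 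
(.lf (nat_lit 493506) (.g (nat_lit 2549) (.e (nat_lit 163875) (nat_lit 3) (.e (nat_lit 204813) (nat_lit 9) (.e (nat_lit 426198) (nat_lit 9) (.e (nat_lit 426566) (nat_lit 34) (.e (nat_lit 393254) (nat_lit 18) .nil))))) (.g (nat_lit 0) (.e (nat_lit 150276) (nat_lit 0) .nil) .nil))))))) (.nd (nat_lit 6) (.nd (nat_lit 7) (.nd (nat_lit 8) (.nd (nat_lit 9) 
(.lf (nat_lit 492578) (.g (nat_lit 2988) (.e (nat_lit 163873) (nat_lit 3) (.e (nat_lit 204813) (nat_lit 9) (.e (nat_lit 426188) (nat_lit 9) (.e (nat_lit 426568) (nat_lit 34) (.e (nat_lit 393253) (nat_lit 18) (.e (nat_lit 164329) (nat_lit 230) .nil)))))) (.g (nat_lit 1) (.e (nat_lit 148657) (nat_lit 0) .nil) .nil))) 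
(.lf (nat_lit 493090) (.g (nat_lit 2562) (.e (nat_lit 163874) (nat_lit 3) (.e (nat_lit 204837) (nat_lit 20) (.e (nat_lit 114718) (nat_lit 23) (.e (nat_lit 98366) (nat_lit 27) (.e (nat_lit 434231) (nat_lit 23) (.e (nat_lit 532499) (nat_lit 1) (.e (nat_lit 57691) (nat_lit 156) .nil))))))) (.g (nat_lit 1) (.e (nat_lit 149527) (nat_lit 0) .nil) .nil)))) (.nd (nat_lit 9) 
(.lf (nat_lit 492834) (.g (nat_lit 2706) (.e (nat_lit 163873) (nat_lit 3) (.e (nat_lit 204838) (nat_lit 20) (.e (nat_lit 114718) (nat_lit 23) (.e (nat_lit 98384) (nat_lit 32) (.e (nat_lit 475177) (nat_lit 24) (.e (nat_lit 516117) (nat_lit 1) (.e (nat_lit 164330) (nat_lit 230) .nil))))))) (.g (nat_lit 1) (.e (nat_lit 149112) (nat_lit 0) .nil) .nil))) 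
(.lf (nat_lit 493346) (.g (nat_lit 2127) (.e (nat_lit 163874) (nat_lit 3) (.e (nat_lit 204862) (nat_lit 27) (.e (nat_lit 344117) (nat_lit 21) (.e (nat_lit 516122) (nat_lit 2) (.e (nat_lit 213033) (nat_lit 12) .nil))))) (.g (nat_lit 0) (.e (nat_lit 149931) (nat_lit 0) .nil) .nil))))) (.nd (nat_lit 8) (.nd (nat_lit 9) 
(.lf (nat_lit 492706) (.g (nat_lit 3114) (.e (nat_lit 163873) (nat_lit 3) (.e (nat_lit 204813) (nat_lit 9) (.e (nat_lit 426199) (nat_lit 9) (.e (nat_lit 426564) (nat_lit 34) (.e (nat_lit 393252) (nat_lit 18) (.e (nat_lit 164330) (nat_lit 230) .nil)))))) (.g (nat_lit 1) (.e (nat_lit 148807) (nat_lit 0) .nil) .nil))) 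
(.lf (nat_lit 493218) (.g (nat_lit 2807) (.e (nat_lit 163874) (nat_lit 3) (.e (nat_lit 204838) (nat_lit 20) (.e (nat_lit 114719) (nat_lit 23) (.e (nat_lit 98363) (nat_lit 26) (.e (nat_lit 426129) (nat_lit 3) (.e (nat_lit 204829) (nat_lit 18) (.e (nat_lit 57688) (nat_lit 156) .nil))))))) (.g (nat_lit 1) (.e (nat_lit 149655) (nat_lit 0) .nil) .nil)))) (.nd (nat_lit 9) 
(.lf (nat_lit 492962) (.g (nat_lit 3678) (.e (nat_lit 163874) (nat_lit 3) (.e (nat_lit 204809) (nat_lit 9) (.e (nat_lit 426200) (nat_lit 9) (.e (nat_lit 426568) (nat_lit 34) (.e (nat_lit 393253) (nat_lit 18) (.e (nat_lit 164332) (nat_lit 230) .nil)))))) (.g (nat_lit 1) (.e (nat_lit 149284) (nat_lit 0) .nil) .nil))) 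
(.lf (nat_lit 493474) (.g (nat_lit 1837) (.e (nat_lit 163875) (nat_lit 3) (.e (nat_lit 204811) (nat_lit 9) (.e (nat_lit 426261) (nat_lit 9) (.e (nat_lit 426565) (nat_lit 34) (.e (nat_lit 393251) (nat_lit 18) (.e (nat_lit 164325) (nat_lit 230) .nil)))))) (.g (nat_lit 1) (.e (nat_lit 150212) (nat_lit 0) .nil) .nil)))))) (.nd (nat_lit 7) (.nd (nat_lit 8) (.nd (nat_lit 9) 
(.lf (nat_lit 492642) (.g (nat_lit 392) (.e (nat_lit 163873) (nat_lit 3) (.e (nat_lit 204813) (nat_lit 9) (.e (nat_lit 426198) (nat_lit 9) .nil))) (.g (nat_lit 0) (.e (nat_lit 148722) (nat_lit 0) .nil) .nil))) 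
(.lf (nat_lit 493154) (.g (nat_lit 3602) (.e (nat_lit 163874) (nat_lit 3) (.e (nat_lit 204837) (nat_lit 20) (.e (nat_lit 114719) (nat_lit 23) (.e (nat_lit 98384) (nat_lit 32) (.e (nat_lit 475177) (nat_lit 24) (.e (nat_lit 516117) (nat_lit 1) (.e (nat_lit 164330) (nat_lit 230) .nil))))))) (.g (nat_lit 1) (.e (nat_lit 149591) (nat_lit 0) .nil) .nil)))) (.nd (nat_lit 9) 
(.lf (nat_lit 492898) (.g (nat_lit 1285) (.e (nat_lit 163873) (nat_lit 3) (.e (nat_lit 204861) (nat_lit 26) (.e (nat_lit 336076) (nat_lit 9) (.e (nat_lit 336374) (nat_lit 27) .nil)))) (.g (nat_lit 0) (.e (nat_lit 149183) (nat_lit 0) .nil) .nil))) 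
(.lf (nat_lit 493410) (.g (nat_lit 3275) (.e (nat_lit 163874) (nat_lit 3) (.e (nat_lit 204864) (nat_lit 27) (.e (nat_lit 344130) (nat_lit 26) (.e (nat_lit 557103) (nat_lit 14) (.e (nat_lit 180243) (nat_lit 5) (.e (nat_lit 532499) (nat_lit 1) (.e (nat_lit 65280) (nat_lit 168) .nil))))))) (.g (nat_lit 1) (.e (nat_lit 149995) (nat_lit 0) .nil) .nil))))) (.nd (nat_lit 8) (.nd (nat_lit 9) 
(.lf (nat_lit 492770) (.g (nat_lit 3492) (.e (nat_lit 163873) (nat_lit 3) (.e (nat_lit 204813) (nat_lit 9) (.e (nat_lit 426200) (nat_lit 9) (.e (nat_lit 426568) (nat_lit 34) (.e (nat_lit 393252) (nat_lit 18) (.e (nat_lit 164332) (nat_lit 230) .nil)))))) (.g (nat_lit 1) (.e (nat_lit 148887) (nat_lit 0) .nil) .nil))) 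
(.lf (nat_lit 493282) (.g (nat_lit 2313) (.e (nat_lit 163874) (nat_lit 3) (.e (nat_lit 204854) (nat_lit 26) (.e (nat_lit 336019) (nat_lit 3) (.e (nat_lit 98342) (nat_lit 20) (.e (nat_lit 221215) (nat_lit 23) (.e (nat_lit 204828) (nat_lit 18) (.e (nat_lit 57926) (nat_lit 282) .nil))))))) (.g (nat_lit 1) (.e (nat_lit 149789) (nat_lit 0) .nil) .nil)))) (.nd (nat_lit 9) 
(.lf (nat_lit 493026) (.g (nat_lit 3399) (.e (nat_lit 163874) (nat_lit 3) (.e (nat_lit 204813) (nat_lit 9) (.e (nat_lit 426200) (nat_lit 9) (.e (nat_lit 426568) (nat_lit 34) (.e (nat_lit 393252) (nat_lit 18) (.e (nat_lit 164330) (nat_lit 230) .nil)))))) (.g (nat_lit 1) (.e (nat_lit 149394) (nat_lit 0) .nil) .nil))) 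
(.lf (nat_lit 493538) (.g (nat_lit 2020) (.e (nat_lit 163875) (nat_lit 3) (.e (nat_lit 204813) (nat_lit 9) (.e (nat_lit 426200) (nat_lit 9) (.e (nat_lit 426568) (nat_lit 34) (.e (nat_lit 393253) (nat_lit 18) (.e (nat_lit 164326) (nat_lit 230) .nil)))))) (.g (nat_lit 1) (.e (nat_lit 150316) (nat_lit 0) .nil) .nil)))))))) 
(.nd (nat_lit 5) (.nd (nat_lit 6) (.nd (nat_lit 7) (.nd (nat_lit 8) (.nd (nat_lit 9) 
(.lf (nat_lit 492562) (.g (nat_lit 2356) (.e (nat_lit 163873) (nat_lit 3) (.e (nat_lit 204813) (nat_lit 9) (.e (nat_lit 426188) (nat_lit 9) (.e (nat_lit 426566) (nat_lit 34) (.e (nat_lit 393252) (nat_lit 18) (.e (nat_lit 164331) (nat_lit 230) .nil)))))) (.g (nat_lit 1) (.e (nat_lit 148640) (nat_lit 0) .nil) .nil))) 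
(.lf (nat_lit 493074) (.g (nat_lit 3533) (.e (nat_lit 163874) (nat_lit 3) (.e (nat_lit 204837) (nat_lit 20) (.e (nat_lit 114715) (nat_lit 22) (.e (nat_lit 90170) (nat_lit 13) (.e (nat_lit 172067) (nat_lit 3) (.e (nat_lit 204830) (nat_lit 18) (.e (nat_lit 57689) (nat_lit 156) .nil))))))) (.g (nat_lit 1) (.e (nat_lit 149511) (nat_lit 0) .nil) .nil)))) (.nd (nat_lit 9) 
(.lf (nat_lit 492818) (.g (nat_lit 2453) (.e (nat_lit 163873) (nat_lit 3) (.e (nat_lit 204838) (nat_lit 20) (.e (nat_lit 114715) (nat_lit 22) (.e (nat_lit 90170) (nat_lit 13) (.e (nat_lit 172067) (nat_lit 3) (.e (nat_lit 204830) (nat_lit 18) (.e (nat_lit 57685) (nat_lit 156) .nil))))))) (.g (nat_lit 1) (.e (nat_lit 149096) (nat_lit 0) .nil) .nil))) 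
(.lf (nat_lit 493330) (.g (nat_lit 3533) (.e (nat_lit 163874) (nat_lit 3) (.e (nat_lit 204861) (nat_lit 26) (.e (nat_lit 336078) (nat_lit 9) (.e (nat_lit 336454) (nat_lit 34) (.e (nat_lit 483365) (nat_lit 18) (.e (nat_lit 57931) (nat_lit 282) .nil)))))) (.g (nat_lit 1) (.e (nat_lit 149906) (nat_lit 0) .nil) .nil))))) (.nd (nat_lit 8) (.nd (nat_lit 9) 
(.lf (nat_lit 492690) (.g (nat_lit 4854) (.e (nat_lit 163873) (nat_lit 3) (.e (nat_lit 204813) (nat_lit 9) (.e (nat_lit 426199) (nat_lit 9) (.e (nat_lit 426481) (nat_lit 27) (.e (nat_lit 336389) (nat_lit 27) (.e (nat_lit 426098) (nat_lit 1) (.e (nat_lit 164327) (nat_lit 230) .nil))))))) (.g (nat_lit 1) (.e (nat_lit 148791) (nat_lit 0) .nil) .nil))) 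
(.lf (nat_lit 493202) (.g (nat_lit 3404) (.e (nat_lit 163874) (nat_lit 3) (.e (nat_lit 204838) (nat_lit 20) (.e (nat_lit 114718) (nat_lit 23) (.e (nat_lit 98366) (nat_lit 27) (.e (nat_lit 434231) (nat_lit 23) (.e (nat_lit 532499) (nat_lit 1) (.e (nat_lit 57692) (nat_lit 156) .nil))))))) (.g (nat_lit 1) (.e (nat_lit 149639) (nat_lit 0) .nil) .nil)))) (.nd (nat_lit 9) 
(.lf (nat_lit 492946) (.g (nat_lit 3420) (.e (nat_lit 163874) (nat_lit 3) (.e (nat_lit 204809) (nat_lit 9) (.e (nat_lit 426190) (nat_lit 9) (.e (nat_lit 426566) (nat_lit 34) (.e (nat_lit 393253) (nat_lit 18) (.e (nat_lit 164332) (nat_lit 230) .nil)))))) (.g (nat_lit 1) (.e (nat_lit 149268) (nat_lit 0) .nil) .nil))) 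
(.lf (nat_lit 493458) (.g (nat_lit 3309) (.e (nat_lit 163875) (nat_lit 3) (.e (nat_lit 204809) (nat_lit 9) (.e (nat_lit 426190) (nat_lit 9) (.e (nat_lit 426566) (nat_lit 34) (.e (nat_lit 393253) (nat_lit 18) (.e (nat_lit 164325) (nat_lit 230) .nil)))))) (.g (nat_lit 1) (.e (nat_lit 150150) (nat_lit 0) .nil) .nil)))))) (.nd (nat_lit 7) (.nd (nat_lit 8) (.nd (nat_lit 9) 
(.lf (nat_lit 492626) (.g (nat_lit 3797) (.e (nat_lit 163873) (nat_lit 3) (.e (nat_lit 204813) (nat_lit 9) (.e (nat_lit 426197) (nat_lit 9) (.e (nat_lit 426566) (nat_lit 34) (.e (nat_lit 393254) (nat_lit 18) (.e (nat_lit 164326) (nat_lit 230) .nil)))))) (.g (nat_lit 1) (.e (nat_lit 148706) (nat_lit 0) .nil) .nil))) 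
(.lf (nat_lit 493138) (.g (nat_lit 5020) (.e (nat_lit 163874) (nat_lit 3) (.e (nat_lit 204837) (nat_lit 20) (.e (nat_lit 114719) (nat_lit 23) (.e (nat_lit 98367) (nat_lit 27) (.e (nat_lit 434231) (nat_lit 23) (.e (nat_lit 532500) (nat_lit 1) (.e (nat_lit 57692) (nat_lit 156) .nil))))))) (.g (nat_lit 1) (.e (nat_lit 149575) (nat_lit 0) .nil) .nil)))) (.nd (nat_lit 9) 
(.lf (nat_lit 492882) (.g (nat_lit 1290) (.e (nat_lit 163873) (nat_lit 3) (.e (nat_lit 204855) (nat_lit 26) (.e (nat_lit 336212) (nat_lit 13) (.e (nat_lit 393229) (nat_lit 9) .nil)))) (.g (nat_lit 0) (.e (nat_lit 149163) (nat_lit 0) .nil) .nil))) 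
(.lf (nat_lit 493394) (.g (nat_lit 2556) (.e (nat_lit 163874) (nat_lit 3) (.e (nat_lit 204863) (nat_lit 27) (.e (nat_lit 344132) (nat_lit 26) (.e (nat_lit 557101) (nat_lit 13) (.e (nat_lit 172064) (nat_lit 2) .nil))))) (.g (nat_lit 0) (.e (nat_lit 149979) (nat_lit 0) .nil) .nil))))) (.nd (nat_lit 8) (.nd (nat_lit 9) 
(.lf (nat_lit 492754) (.g (nat_lit 2110) (.e (nat_lit 163873) (nat_lit 3) (.e (nat_lit 204813) (nat_lit 9) (.e (nat_lit 426200) (nat_lit 9) (.e (nat_lit 426564) (nat_lit 34) (.e (nat_lit 393252) (nat_lit 18) (.e (nat_lit 164332) (nat_lit 230) .nil)))))) (.g (nat_lit 1) (.e (nat_lit 148868) (nat_lit 0) .nil) .nil))) 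
(.lf (nat_lit 493266) (.g (nat_lit 1737) (.e (nat_lit 163874) (nat_lit 3) (.e (nat_lit 204854) (nat_lit 26) (.e (nat_lit 336019) (nat_lit 3) (.e (nat_lit 98341) (nat_lit 20) (.e (nat_lit 221213) (nat_lit 23) (.e (nat_lit 204830) (nat_lit 18) (.e (nat_lit 57929) (nat_lit 282) .nil))))))) (.g (nat_lit 1) (.e (nat_lit 149772) (nat_lit 0) .nil) .nil)))) (.nd (nat_lit 9) 
(.lf (nat_lit 493010) (.g (nat_lit 1688) (.e (nat_lit 163874) (nat_lit 3) (.e (nat_lit 204813) (nat_lit 9) (.e (nat_lit 426199) (nat_lit 9) (.e (nat_lit 426566) (nat_lit 34) (.e (nat_lit 393252) (nat_lit 18) .nil))))) (.g (nat_lit 0) (.e (nat_lit 149378) (nat_lit 0) .nil) .nil))) 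
(.lf (nat_lit 493522) (.g (nat_lit 2460) (.e (nat_lit 163875) (nat_lit 3) (.e (nat_lit 204813) (nat_lit 9) (.e (nat_lit 426200) (nat_lit 9) (.e (nat_lit 426478) (nat_lit 27) (.e (nat_lit 336385) (nat_lit 27) (.e (nat_lit 426098) (nat_lit 1) (.e (nat_lit 164327) (nat_lit 230) .nil))))))) (.g (nat_lit 1) (.e (nat_lit 150293) (nat_lit 0) .nil) .nil))))))) 
(.nd (nat_lit 6) (.nd (nat_lit 7) (.nd (nat_lit 8) (.nd (nat_lit 9) 
(.lf (nat_lit 492594) (.g (nat_lit 2568) (.e (nat_lit 163873) (nat_lit 3) (.e (nat_lit 204813) (nat_lit 9) (.e (nat_lit 426190) (nat_lit 9) (.e (nat_lit 426516) (nat_lit 27) (.e (nat_lit 336387) (nat_lit 27) (.e (nat_lit 426107) (nat_lit 1) (.e (nat_lit 164326) (nat_lit 230) .nil))))))) (.g (nat_lit 1) (.e (nat_lit 148673) (nat_lit 0) .nil) .nil))) 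
(.lf (nat_lit 493106) (.g (nat_lit 2857) (.e (nat_lit 163874) (nat_lit 3) (.e (nat_lit 204837) (nat_lit 20) (.e (nat_lit 114718) (nat_lit 23) (.e (nat_lit 98367) (nat_lit 27) (.e (nat_lit 434234) (nat_lit 23) (.e (nat_lit 532499) (nat_lit 1) (.e (nat_lit 57692) (nat_lit 156) .nil))))))) (.g (nat_lit 1) (.e (nat_lit 149543) (nat_lit 0) .nil) .nil)))) (.nd (nat_lit 9) 
(.lf (nat_lit 492850) (.g (nat_lit 2252) (.e (nat_lit 163873) (nat_lit 3) (.e (nat_lit 204838) (nat_lit 20) (.e (nat_lit 114719) (nat_lit 23) (.e (nat_lit 98367) (nat_lit 27) (.e (nat_lit 434232) (nat_lit 23) .nil))))) (.g (nat_lit 0) (.e (nat_lit 149128) (nat_lit 0) .nil) .nil))) 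
(.lf (nat_lit 493362) (.g (nat_lit 1608) (.e (nat_lit 163874) (nat_lit 3) (.e (nat_lit 204863) (nat_lit 27) (.e (nat_lit 344117) (nat_lit 21) (.e (nat_lit 516122) (nat_lit 2) .nil)))) (.g (nat_lit 0) (.e (nat_lit 149947) (nat_lit 0) .nil) .nil))))) (.nd (nat_lit 8) (.nd (nat_lit 9) 
(.lf (nat_lit 492722) (.g (nat_lit 4062) (.e (nat_lit 163873) (nat_lit 3) (.e (nat_lit 204813) (nat_lit 9) (.e (nat_lit 426199) (nat_lit 9) (.e (nat_lit 426568) (nat_lit 34) (.e (nat_lit 393251) (nat_lit 18) (.e (nat_lit 164325) (nat_lit 230) .nil)))))) (.g (nat_lit 1) (.e (nat_lit 148823) (nat_lit 0) .nil) .nil))) 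
(.lf (nat_lit 493234) (.g (nat_lit 2978) (.e (nat_lit 163874) (nat_lit 3) (.e (nat_lit 204838) (nat_lit 20) (.e (nat_lit 114719) (nat_lit 23) (.e (nat_lit 98367) (nat_lit 27) (.e (nat_lit 434232) (nat_lit 23) (.e (nat_lit 532504) (nat_lit 1) (.e (nat_lit 57690) (nat_lit 156) .nil))))))) (.g (nat_lit 1) (.e (nat_lit 149671) (nat_lit 0) .nil) .nil)))) (.nd (nat_lit 9) 
(.lf (nat_lit 492978) (.g (nat_lit 3494) (.e (nat_lit 163874) (nat_lit 3) (.e (nat_lit 204813) (nat_lit 9) (.e (nat_lit 426188) (nat_lit 9) (.e (nat_lit 426566) (nat_lit 34) (.e (nat_lit 393254) (nat_lit 18) (.e (nat_lit 164324) (nat_lit 230) .nil)))))) (.g (nat_lit 1) (.e (nat_lit 149345) (nat_lit 0) .nil) .nil))) 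
(.lf (nat_lit 493490) (.g (nat_lit 3694) (.e (nat_lit 163875) (nat_lit 3) (.e (nat_lit 204813) (nat_lit 9) (.e (nat_lit 426188) (nat_lit 9) (.e (nat_lit 426568) (nat_lit 34) (.e (nat_lit 393251) (nat_lit 18) (.e (nat_lit 164327) (nat_lit 230) .nil)))))) (.g (nat_lit 1) (.e (nat_lit 150255) (nat_lit 0) .nil) .nil)))))) (.nd (nat_lit 7) (.nd (nat_lit 8) (.nd (nat_lit 9) 
(.lf (nat_lit 492658) (.g (nat_lit 3519) (.e (nat_lit 163873) (nat_lit 3) (.e (nat_lit 204813) (nat_lit 9) (.e (nat_lit 426198) (nat_lit 9) (.e (nat_lit 426566) (nat_lit 34) (.e (nat_lit 393253) (nat_lit 18) (.e (nat_lit 164329) (nat_lit 230) .nil)))))) (.g (nat_lit 1) (.e (nat_lit 148753) (nat_lit 0) .nil) .nil))) 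
(.lf (nat_lit 493170) (.g (nat_lit 4558) (.e (nat_lit 163874) (nat_lit 3) (.e (nat_lit 204838) (nat_lit 20) (.e (nat_lit 114715) (nat_lit 22) (.e (nat_lit 90170) (nat_lit 13) (.e (nat_lit 172065) (nat_lit 3) (.e (nat_lit 204829) (nat_lit 18) (.e (nat_lit 57692) (nat_lit 156) .nil))))))) (.g (nat_lit 1) (.e (nat_lit 149607) (nat_lit 0) .nil) .nil)))) (.nd (nat_lit 9) 
(.lf (nat_lit 492914) (.g (nat_lit 487) (.e (nat_lit 163873) (nat_lit 3) (.e (nat_lit 204861) (nat_lit 26) (.e (nat_lit 336077) (nat_lit 9) .nil))) (.g (nat_lit 0) (.e (nat_lit 149203) (nat_lit 0) .nil) .nil))) 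
(.lf (nat_lit 493426) (.g (nat_lit 3260) (.e (nat_lit 163874) (nat_lit 3) (.e (nat_lit 204866) (nat_lit 28) (.e (nat_lit 352277) (nat_lit 11) (.e (nat_lit 426500) (nat_lit 27) (.e (nat_lit 335988) (nat_lit 1) (.e (nat_lit 57926) (nat_lit 282) .nil)))))) (.g (nat_lit 1) (.e (nat_lit 150012) (nat_lit 0) .nil) .nil))))) (.nd (nat_lit 8) (.nd (nat_lit 9) 
(.lf (nat_lit 492786) (.g (nat_lit 3457) (.e (nat_lit 163873) (nat_lit 3) (.e (nat_lit 204829) (nat_lit 18) (.e (nat_lit 57849) (nat_lit 252) (.e (nat_lit 57411) (nat_lit 12) (.e (nat_lit 336019) (nat_lit 3) (.e (nat_lit 98356) (nat_lit 26) (.e (nat_lit 426422) (nat_lit 16) (.e (nat_lit 57688) (nat_lit 156) .nil)))))))) (.g (nat_lit 1) (.e (nat_lit 149064) (nat_lit 0) .nil) .nil))) 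
(.lf (nat_lit 493298) (.g (nat_lit 2483) (.e (nat_lit 163874) (nat_lit 3) (.e (nat_lit 204859) (nat_lit 26) (.e (nat_lit 336017) (nat_lit 3) (.e (nat_lit 98342) (nat_lit 20) (.e (nat_lit 221214) (nat_lit 23) (.e (nat_lit 204830) (nat_lit 18) (.e (nat_lit 57931) (nat_lit 282) .nil))))))) (.g (nat_lit 1) (.e (nat_lit 149805) (nat_lit 0) .nil) .nil)))) (.nd (nat_lit 9) 
(.lf (nat_lit 493042) (.g (nat_lit 3498) (.e (nat_lit 163874) (nat_lit 3) (.e (nat_lit 204836) (nat_lit 20) (.e (nat_lit 114719) (nat_lit 23) (.e (nat_lit 98367) (nat_lit 27) (.e (nat_lit 434231) (nat_lit 23) (.e (nat_lit 532500) (nat_lit 1) (.e (nat_lit 57689) (nat_lit 156) .nil))))))) (.g (nat_lit 1) (.e (nat_lit 149479) (nat_lit 0) .nil) .nil))) 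
(.lf (nat_lit 493554) (.g (nat_lit 1809) (.e (nat_lit 163875) (nat_lit 3) (.e (nat_lit 204829) (nat_lit 18) (.e (nat_lit 57847) (nat_lit 252) (.e (nat_lit 57443) (nat_lit 18) .nil)))) (.g (nat_lit 0) (.e (nat_lit 150396) (nat_lit 0) .nil) .nil))))))))) (.nd (nat_lit 4) (.nd (nat_lit 5) (.nd (nat_lit 6) (.nd (nat_lit 7) (.nd (nat_lit 8) (.nd (nat_lit 9) 
(.lf (nat_lit 492554) (.g (nat_lit 3150) (.e (nat_lit 163873) (nat_lit 3) (.e (nat_lit 204813) (nat_lit 9) (.e (nat_lit 426188) (nat_lit 9) (.e (nat_lit 426564) (nat_lit 34) (.e (nat_lit 393251) (nat_lit 18) (.e (nat_lit 164327) (nat_lit 230) .nil)))))) (.g (nat_lit 1) (.e (nat_lit 148632) (nat_lit 0) .nil) .nil))) 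
(.lf (nat_lit 493066) (.g (nat_lit 4047) (.e (nat_lit 163874) (nat_lit 3) (.e (nat_lit 204837) (nat_lit 20) (.e (nat_lit 114715) (nat_lit 22) (.e (nat_lit 90170) (nat_lit 13) (.e (nat_lit 172065) (nat_lit 3) (.e (nat_lit 204830) (nat_lit 18) (.e (nat_lit 57690) (nat_lit 156) .nil))))))) (.g (nat_lit 1) (.e (nat_lit 149503) (nat_lit 0) .nil) .nil)))) (.nd (nat_lit 9) 
(.lf (nat_lit 492810) (.g (nat_lit 3298) (.e (nat_lit 163873) (nat_lit 3) (.e (nat_lit 204837) (nat_lit 20) (.e (nat_lit 114719) (nat_lit 23) (.e (nat_lit 98367) (nat_lit 27) (.e (nat_lit 434234) (nat_lit 23) (.e (nat_lit 532503) (nat_lit 1) (.e (nat_lit 57688) (nat_lit 156) .nil))))))) (.g (nat_lit 1) (.e (nat_lit 149088) (nat_lit 0) .nil) .nil))) 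
(.lf (nat_lit 493322) (.g (nat_lit 2465) (.e (nat_lit 163874) (nat_lit 3) (.e (nat_lit 204861) (nat_lit 26) (.e (nat_lit 336076) (nat_lit 9) (.e (nat_lit 336454) (nat_lit 34) (.e (nat_lit 483366) (nat_lit 18) (.e (nat_lit 57930) (nat_lit 282) .nil)))))) (.g (nat_lit 1) (.e (nat_lit 149894) (nat_lit 0) .nil) .nil))))) (.nd (nat_lit 8) (.nd (nat_lit 9) 
(.lf (nat_lit 492682) (.g (nat_lit 2965) (.e (nat_lit 163873) (nat_lit 3) (.e (nat_lit 204813) (nat_lit 9) (.e (nat_lit 426199) (nat_lit 9) (.e (nat_lit 426480) (nat_lit 27) (.e (nat_lit 336385) (nat_lit 27) (.e (nat_lit 426098) (nat_lit 1) (.e (nat_lit 164327) (nat_lit 230) .nil))))))) (.g (nat_lit 1) (.e (nat_lit 148777) (nat_lit 0) .nil) .nil))) 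
(.lf (nat_lit 493194) (.g (nat_lit 4453) (.e (nat_lit 163874) (nat_lit 3) (.e (nat_lit 204838) (nat_lit 20) (.e (nat_lit 114716) (nat_lit 22) (.e (nat_lit 90174) (nat_lit 14) (.e (nat_lit 180243) (nat_lit 5) (.e (nat_lit 532503) (nat_lit 1) (.e (nat_lit 57688) (nat_lit 156) .nil))))))) (.g (nat_lit 1) (.e (nat_lit 149631) (nat_lit 0) .nil) .nil)))) (.nd (nat_lit 9) 
(.lf (nat_lit 492938) (.g (nat_lit 2429) (.e (nat_lit 163874) (nat_lit 3) (.e (nat_lit 204809) (nat_lit 9) (.e (nat_lit 426188) (nat_lit 9) (.e (nat_lit 426568) (nat_lit 34) (.e (nat_lit 393252) (nat_lit 18) (.e (nat_lit 164330) (nat_lit 230) .nil)))))) (.g (nat_lit 1) (.e (nat_lit 149260) (nat_lit 0) .nil) .nil))) 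
(.lf (nat_lit 493450) (.g (nat_lit 3952) (.e (nat_lit 163875) (nat_lit 3) (.e (nat_lit 204809) (nat_lit 9) (.e (nat_lit 426187) (nat_lit 9) (.e (nat_lit 426566) (nat_lit 34) (.e (nat_lit 393253) (nat_lit 18) (.e (nat_lit 164325) (nat_lit 230) .nil)))))) (.g (nat_lit 1) (.e (nat_lit 150141) (nat_lit 0) .nil) .nil)))))) (.nd (nat_lit 7) (.nd (nat_lit 8) (.nd (nat_lit 9) 
(.lf (nat_lit 492618) (.g (nat_lit 4817) (.e (nat_lit 163873) (nat_lit 3) (.e (nat_lit 204813) (nat_lit 9) (.e (nat_lit 426197) (nat_lit 9) (.e (nat_lit 426566) (nat_lit 34) (.e (nat_lit 393251) (nat_lit 18) (.e (nat_lit 164331) (nat_lit 230) .nil)))))) (.g (nat_lit 1) (.e (nat_lit 148698) (nat_lit 0) .nil) .nil))) 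
(.lf (nat_lit 493130) (.g (nat_lit 2567) (.e (nat_lit 163874) (nat_lit 3) (.e (nat_lit 204837) (nat_lit 20) (.e (nat_lit 114719) (nat_lit 23) (.e (nat_lit 98366) (nat_lit 27) (.e (nat_lit 434232) (nat_lit 23) (.e (nat_lit 532504) (nat_lit 1) (.e (nat_lit 57691) (nat_lit 156) .nil))))))) (.g (nat_lit 1) (.e (nat_lit 149567) (nat_lit 0) .nil) .nil)))) (.nd (nat_lit 9) 
(.lf (nat_lit 492874) (.g (nat_lit 2281) (.e (nat_lit 163873) (nat_lit 3) (.e (nat_lit 204854) (nat_lit 26) (.e (nat_lit 336019) (nat_lit 3) (.e (nat_lit 98341) (nat_lit 20) .nil)))) (.g (nat_lit 0) (.e (nat_lit 149155) (nat_lit 0) .nil) .nil))) 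
(.lf (nat_lit 493386) (.g (nat_lit 3271) (.e (nat_lit 163874) (nat_lit 3) (.e (nat_lit 204863) (nat_lit 27) (.e (nat_lit 344129) (nat_lit 26) (.e (nat_lit 557097) (nat_lit 13) (.e (nat_lit 179968) (nat_lit 18) (.e (nat_lit 98343) (nat_lit 21) (.e (nat_lit 229681) (nat_lit 244) .nil))))))) (.g (nat_lit 1) (.e (nat_lit 149971) (nat_lit 0) .nil) .nil))))) (.nd (nat_lit 8) (.nd (nat_lit 9) 
(.lf (nat_lit 492746) (.g (nat_lit 2073) (.e (nat_lit 163873) (nat_lit 3) (.e (nat_lit 204813) (nat_lit 9) (.e (nat_lit 426200) (nat_lit 9) (.e (nat_lit 426480) (nat_lit 27) (.e (nat_lit 336388) (nat_lit 27) (.e (nat_lit 426108) (nat_lit 1) (.e (nat_lit 164331) (nat_lit 230) .nil))))))) (.g (nat_lit 1) (.e (nat_lit 148851) (nat_lit 0) .nil) .nil))) 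
(.lf (nat_lit 493258) (.g (nat_lit 2711) (.e (nat_lit 163874) (nat_lit 3) (.e (nat_lit 204852) (nat_lit 26) (.e (nat_lit 336211) (nat_lit 13) (.e (nat_lit 393225) (nat_lit 9) (.e (nat_lit 335986) (nat_lit 1) (.e (nat_lit 57927) (nat_lit 282) .nil)))))) (.g (nat_lit 1) (.e (nat_lit 149741) (nat_lit 0) .nil) .nil)))) (.nd (nat_lit 9) 
(.lf (nat_lit 493002) (.g (nat_lit 3553) (.e (nat_lit 163874) (nat_lit 3) (.e (nat_lit 204813) (nat_lit 9) (.e (nat_lit 426198) (nat_lit 9) (.e (nat_lit 426566) (nat_lit 34) (.e (nat_lit 393251) (nat_lit 18) (.e (nat_lit 164332) (nat_lit 230) .nil)))))) (.g (nat_lit 1) (.e (nat_lit 149370) (nat_lit 0) .nil) .nil))) 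
(.lf (nat_lit 493514) (.g (nat_lit 2599) (.e (nat_lit 163875) (nat_lit 3) (.e (nat_lit 204813) (nat_lit 9) (.e (nat_lit 426199) (nat_lit 9) (.e (nat_lit 426480) (nat_lit 27) (.e (nat_lit 336389) (nat_lit 27) (.e (nat_lit 426098) (nat_lit 1) (.e (nat_lit 164327) (nat_lit 230) .nil))))))) (.g (nat_lit 1) (.e (nat_lit 150284) (nat_lit 0) .nil) .nil))))))) 
(.nd (nat_lit 6) (.nd (nat_lit 7) (.nd (nat_lit 8) (.nd (nat_lit 9) 
(.lf (nat_lit 492586) (.g (nat_lit 3039) (.e (nat_lit 163873) (nat_lit 3) (.e (nat_lit 204813) (nat_lit 9) (.e (nat_lit 426189) (nat_lit 9) (.e (nat_lit 426566) (nat_lit 34) (.e (nat_lit 393253) (nat_lit 18) (.e (nat_lit 164329) (nat_lit 230) .nil)))))) (.g (nat_lit 1) (.e (nat_lit 148665) (nat_lit 0) .nil) .nil))) 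
(.lf (nat_lit 493098) (.g (nat_lit 2625) (.e (nat_lit 163874) (nat_lit 3) (.e (nat_lit 204837) (nat_lit 20) (.e (nat_lit 114718) (nat_lit 23) (.e (nat_lit 98367) (nat_lit 27) (.e (nat_lit 434231) (nat_lit 23) (.e (nat_lit 532502) (nat_lit 1) (.e (nat_lit 57688) (nat_lit 156) .nil))))))) (.g (nat_lit 1) (.e (nat_lit 149535) (nat_lit 0) .nil) .nil)))) (.nd (nat_lit 9) 
(.lf (nat_lit 492842) (.g (nat_lit 2143) (.e (nat_lit 163873) (nat_lit 3) (.e (nat_lit 204838) (nat_lit 20) (.e (nat_lit 114719) (nat_lit 23) (.e (nat_lit 98366) (nat_lit 27) (.e (nat_lit 434230) (nat_lit 23) (.e (nat_lit 532503) (nat_lit 1) (.e (nat_lit 57688) (nat_lit 156) .nil))))))) (.g (nat_lit 1) (.e (nat_lit 149120) (nat_lit 0) .nil) .nil))) 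
(.lf (nat_lit 493354) (.g (nat_lit 2837) (.e (nat_lit 163874) (nat_lit 3) (.e (nat_lit 204862) (nat_lit 27) (.e (nat_lit 344117) (nat_lit 21) (.e (nat_lit 516123) (nat_lit 2) (.e (nat_lit 213036) (nat_lit 13) (.e (nat_lit 229433) (nat_lit 25) (.e (nat_lit 532501) (nat_lit 1) (.e (nat_lit 57929) (nat_lit 282) .nil)))))))) (.g (nat_lit 1) (.e (nat_lit 149939) (nat_lit 0) .nil) .nil))))) 
(.nd (nat_lit 8) (.nd (nat_lit 9) 
(.lf (nat_lit 492714) (.g (nat_lit 4063) (.e (nat_lit 163873) (nat_lit 3) (.e (nat_lit 204813) (nat_lit 9) (.e (nat_lit 426199) (nat_lit 9) (.e (nat_lit 426566) (nat_lit 34) (.e (nat_lit 393252) (nat_lit 18) (.e (nat_lit 164330) (nat_lit 230) .nil)))))) (.g (nat_lit 1) (.e (nat_lit 148815) (nat_lit 0) .nil) .nil))) 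
(.lf (nat_lit 493226) (.g (nat_lit 4372) (.e (nat_lit 163874) (nat_lit 3) (.e (nat_lit 204838) (nat_lit 20) (.e (nat_lit 114719) (nat_lit 23) (.e (nat_lit 98367) (nat_lit 27) (.e (nat_lit 434231) (nat_lit 23) (.e (nat_lit 532500) (nat_lit 1) (.e (nat_lit 57689) (nat_lit 156) .nil))))))) (.g (nat_lit 1) (.e (nat_lit 149663) (nat_lit 0) .nil) .nil)))) (.nd (nat_lit 9) 
(.lf (nat_lit 492970) (.g (nat_lit 2608) (.e (nat_lit 163874) (nat_lit 3) (.e (nat_lit 204812) (nat_lit 9) (.e (nat_lit 426190) (nat_lit 9) (.e (nat_lit 426566) (nat_lit 34) (.e (nat_lit 393253) (nat_lit 18) (.e (nat_lit 164330) (nat_lit 230) .nil)))))) (.g (nat_lit 1) (.e (nat_lit 149330) (nat_lit 0) .nil) .nil))) 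
(.lf (nat_lit 493482) (.g (nat_lit 382) (.e (nat_lit 163875) (nat_lit 3) (.e (nat_lit 204813) (nat_lit 9) (.e (nat_lit 426188) (nat_lit 9) .nil))) (.g (nat_lit 0) (.e (nat_lit 150244) (nat_lit 0) .nil) .nil)))))) (.nd (nat_lit 7) (.nd (nat_lit 8) (.nd (nat_lit 9) 
(.lf (nat_lit 492650) (.g (nat_lit 3530) (.e (nat_lit 163873) (nat_lit 3) (.e (nat_lit 204813) (nat_lit 9) (.e (nat_lit 426198) (nat_lit 9) (.e (nat_lit 426566) (nat_lit 34) (.e (nat_lit 393251) (nat_lit 18) (.e (nat_lit 164332) (nat_lit 230) .nil)))))) (.g (nat_lit 1) (.e (nat_lit 148745) (nat_lit 0) .nil) .nil))) 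
(.lf (nat_lit 493162) (.g (nat_lit 3535) (.e (nat_lit 163874) (nat_lit 3) (.e (nat_lit 204838) (nat_lit 20) (.e (nat_lit 114714) (nat_lit 22) (.e (nat_lit 90174) (nat_lit 14) (.e (nat_lit 180243) (nat_lit 5) (.e (nat_lit 532503) (nat_lit 1) (.e (nat_lit 57685) (nat_lit 156) .nil))))))) (.g (nat_lit 1) (.e (nat_lit 149599) (nat_lit 0) .nil) .nil)))) (.nd (nat_lit 9) 
(.lf (nat_lit 492906) (.g (nat_lit 1874) (.e (nat_lit 163873) (nat_lit 3) (.e (nat_lit 204861) (nat_lit 26) (.e (nat_lit 336076) (nat_lit 9) (.e (nat_lit 336454) (nat_lit 34) (.e (nat_lit 483362) (nat_lit 18) (.e (nat_lit 57931) (nat_lit 282) .nil)))))) (.g (nat_lit 1) (.e (nat_lit 149193) (nat_lit 0) .nil) .nil))) 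
(.lf (nat_lit 493418) (.g (nat_lit 1948) (.e (nat_lit 163874) (nat_lit 3) (.e (nat_lit 204864) (nat_lit 27) (.e (nat_lit 344133) (nat_lit 26) (.e (nat_lit 557096) (nat_lit 13) (.e (nat_lit 179968) (nat_lit 18) .nil))))) (.g (nat_lit 0) (.e (nat_lit 150003) (nat_lit 0) .nil) .nil))))) (.nd (nat_lit 8) (.nd (nat_lit 9) 
(.lf (nat_lit 492778) (.g (nat_lit 3875) (.e (nat_lit 163873) (nat_lit 3) (.e (nat_lit 204813) (nat_lit 9) (.e (nat_lit 433920) (nat_lit 9) (.e (nat_lit 426566) (nat_lit 34) (.e (nat_lit 393253) (nat_lit 18) (.e (nat_lit 164325) (nat_lit 230) .nil)))))) (.g (nat_lit 1) (.e (nat_lit 148897) (nat_lit 0) .nil) .nil))) 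
(.lf (nat_lit 493290) (.g (nat_lit 2246) (.e (nat_lit 163874) (nat_lit 3) (.e (nat_lit 204855) (nat_lit 26) (.e (nat_lit 336212) (nat_lit 13) (.e (nat_lit 393229) (nat_lit 9) (.e (nat_lit 335986) (nat_lit 1) (.e (nat_lit 57927) (nat_lit 282) .nil)))))) (.g (nat_lit 1) (.e (nat_lit 149797) (nat_lit 0) .nil) .nil)))) (.nd (nat_lit 9) 
(.lf (nat_lit 493034) (.g (nat_lit 1305) (.e (nat_lit 163874) (nat_lit 3) (.e (nat_lit 204829) (nat_lit 18) (.e (nat_lit 57910) (nat_lit 278) (.e (nat_lit 2559) (nat_lit 159) .nil)))) (.g (nat_lit 0) (.e (nat_lit 149471) (nat_lit 0) .nil) .nil))) 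
(.lf (nat_lit 493546) (.g (nat_lit 1471) (.e (nat_lit 163875) (nat_lit 3) (.e (nat_lit 204829) (nat_lit 18) (.e (nat_lit 57847) (nat_lit 252) (.e (nat_lit 57430) (nat_lit 16) .nil)))) (.g (nat_lit 0) (.e (nat_lit 150388) (nat_lit 0) .nil) .nil)))))))) (.nd (nat_lit 5) (.nd (nat_lit 6) (.nd (nat_lit 7) (.nd (nat_lit 8) (.nd (nat_lit 9) 
(.lf (nat_lit 492570) (.g (nat_lit 2244) (.e (nat_lit 163873) (nat_lit 3) (.e (nat_lit 204813) (nat_lit 9) (.e (nat_lit 426188) (nat_lit 9) (.e (nat_lit 426568) (nat_lit 34) (.e (nat_lit 393250) (nat_lit 18) (.e (nat_lit 164325) (nat_lit 230) .nil)))))) (.g (nat_lit 1) (.e (nat_lit 148649) (nat_lit 0) .nil) .nil))) 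
(.lf (nat_lit 493082) (.g (nat_lit 2151) (.e (nat_lit 163874) (nat_lit 3) (.e (nat_lit 204837) (nat_lit 20) (.e (nat_lit 114716) (nat_lit 22) (.e (nat_lit 90174) (nat_lit 14) (.e (nat_lit 180243) (nat_lit 5) (.e (nat_lit 532501) (nat_lit 1) (.e (nat_lit 57685) (nat_lit 156) .nil))))))) (.g (nat_lit 1) (.e (nat_lit 149519) (nat_lit 0) .nil) .nil)))) (.nd (nat_lit 9) 
(.lf (nat_lit 492826) (.g (nat_lit 3268) (.e (nat_lit 163873) (nat_lit 3) (.e (nat_lit 204838) (nat_lit 20) (.e (nat_lit 114718) (nat_lit 23) (.e (nat_lit 98366) (nat_lit 27) (.e (nat_lit 434231) (nat_lit 23) (.e (nat_lit 532499) (nat_lit 1) (.e (nat_lit 57688) (nat_lit 156) .nil))))))) (.g (nat_lit 1) (.e (nat_lit 149104) (nat_lit 0) .nil) .nil))) 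
(.lf (nat_lit 493338) (.g (nat_lit 427) (.e (nat_lit 163874) (nat_lit 3) (.e (nat_lit 204861) (nat_lit 26) (.e (nat_lit 336214) (nat_lit 13) .nil))) (.g (nat_lit 0) (.e (nat_lit 149923) (nat_lit 0) .nil) .nil))))) (.nd (nat_lit 8) (.nd (nat_lit 9) 
(.lf (nat_lit 492698) (.g (nat_lit 3036) (.e (nat_lit 163873) (nat_lit 3) (.e (nat_lit 204813) (nat_lit 9) (.e (nat_lit 426199) (nat_lit 9) (.e (nat_lit 426491) (nat_lit 27) (.e (nat_lit 336409) (nat_lit 27) (.e (nat_lit 426098) (nat_lit 1) (.e (nat_lit 164327) (nat_lit 230) .nil))))))) (.g (nat_lit 1) (.e (nat_lit 148799) (nat_lit 0) .nil) .nil))) 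
(.lf (nat_lit 493210) (.g (nat_lit 2415) (.e (nat_lit 163874) (nat_lit 3) (.e (nat_lit 204838) (nat_lit 20) (.e (nat_lit 114718) (nat_lit 23) (.e (nat_lit 98367) (nat_lit 27) (.e (nat_lit 434232) (nat_lit 23) (.e (nat_lit 532504) (nat_lit 1) (.e (nat_lit 57690) (nat_lit 156) .nil))))))) (.g (nat_lit 1) (.e (nat_lit 149647) (nat_lit 0) .nil) .nil)))) (.nd (nat_lit 9) 
(.lf (nat_lit 492954) (.g (nat_lit 2727) (.e (nat_lit 163874) (nat_lit 3) (.e (nat_lit 204809) (nat_lit 9) (.e (nat_lit 426200) (nat_lit 9) (.e (nat_lit 426566) (nat_lit 34) (.e (nat_lit 393253) (nat_lit 18) (.e (nat_lit 164324) (nat_lit 230) .nil)))))) (.g (nat_lit 1) (.e (nat_lit 149276) (nat_lit 0) .nil) .nil))) 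
(.lf (nat_lit 493466) (.g (nat_lit 2910) (.e (nat_lit 163875) (nat_lit 3) (.e (nat_lit 204809) (nat_lit 9) (.e (nat_lit 426200) (nat_lit 9) (.e (nat_lit 426566) (nat_lit 34) (.e (nat_lit 393254) (nat_lit 18) (.e (nat_lit 164326) (nat_lit 230) .nil)))))) (.g (nat_lit 1) (.e (nat_lit 150158) (nat_lit 0) .nil) .nil)))))) (.nd (nat_lit 7) (.nd (nat_lit 8) (.nd (nat_lit 9) 
(.lf (nat_lit 492634) (.g (nat_lit 3957) (.e (nat_lit 163873) (nat_lit 3) (.e (nat_lit 204813) (nat_lit 9) (.e (nat_lit 426197) (nat_lit 9) (.e (nat_lit 426568) (nat_lit 34) (.e (nat_lit 393253) (nat_lit 18) (.e (nat_lit 164324) (nat_lit 230) .nil)))))) (.g (nat_lit 1) (.e (nat_lit 148714) (nat_lit 0) .nil) .nil))) 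
(.lf (nat_lit 493146) (.g (nat_lit 3270) (.e (nat_lit 163874) (nat_lit 3) (.e (nat_lit 204837) (nat_lit 20) (.e (nat_lit 114719) (nat_lit 23) (.e (nat_lit 98367) (nat_lit 27) (.e (nat_lit 434232) (nat_lit 23) (.e (nat_lit 532504) (nat_lit 1) (.e (nat_lit 57690) (nat_lit 156) .nil))))))) (.g (nat_lit 1) (.e (nat_lit 149583) (nat_lit 0) .nil) .nil)))) (.nd (nat_lit 9) 
(.lf (nat_lit 492890) (.g (nat_lit 1837) (.e (nat_lit 163873) (nat_lit 3) (.e (nat_lit 204861) (nat_lit 26) (.e (nat_lit 336075) (nat_lit 9) (.e (nat_lit 336454) (nat_lit 34) (.e (nat_lit 483364) (nat_lit 18) (.e (nat_lit 57928) (nat_lit 282) .nil)))))) (.g (nat_lit 1) (.e (nat_lit 149174) (nat_lit 0) .nil) .nil))) 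
(.lf (nat_lit 493402) (.g (nat_lit 2832) (.e (nat_lit 163874) (nat_lit 3) (.e (nat_lit 204863) (nat_lit 27) (.e (nat_lit 344133) (nat_lit 26) (.e (nat_lit 557103) (nat_lit 14) (.e (nat_lit 180250) (nat_lit 10) .nil))))) (.g (nat_lit 0) (.e (nat_lit 149987) (nat_lit 0) .nil) .nil))))) (.nd (nat_lit 8) (.nd (nat_lit 9) 
(.lf (nat_lit 492762) (.g (nat_lit 3687) (.e (nat_lit 163873) (nat_lit 3) (.e (nat_lit 204813) (nat_lit 9) (.e (nat_lit 426200) (nat_lit 9) (.e (nat_lit 426566) (nat_lit 34) (.e (nat_lit 393254) (nat_lit 18) (.e (nat_lit 164324) (nat_lit 230) .nil)))))) (.g (nat_lit 1) (.e (nat_lit 148876) (nat_lit 0) .nil) .nil))) 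
(.lf (nat_lit 493274) (.g (nat_lit 1920) (.e (nat_lit 163874) (nat_lit 3) (.e (nat_lit 204854) (nat_lit 26) (.e (nat_lit 336019) (nat_lit 3) (.e (nat_lit 98342) (nat_lit 20) (.e (nat_lit 221198) (nat_lit 20) .nil))))) (.g (nat_lit 0) (.e (nat_lit 149780) (nat_lit 0) .nil) .nil)))) (.nd (nat_lit 9) 
(.lf (nat_lit 493018) (.g (nat_lit 3243) (.e (nat_lit 163874) (nat_lit 3) (.e (nat_lit 204813) (nat_lit 9) (.e (nat_lit 426200) (nat_lit 9) (.e (nat_lit 426566) (nat_lit 34) (.e (nat_lit 393252) (nat_lit 18) (.e (nat_lit 164330) (nat_lit 230) .nil)))))) (.g (nat_lit 1) (.e (nat_lit 149386) (nat_lit 0) .nil) .nil))) 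
(.lf (nat_lit 493530) (.g (nat_lit 2582) (.e (nat_lit 163875) (nat_lit 3) (.e (nat_lit 204813) (nat_lit 9) (.e (nat_lit 426200) (nat_lit 9) (.e (nat_lit 426564) (nat_lit 34) (.e (nat_lit 393251) (nat_lit 18) (.e (nat_lit 164327) (nat_lit 230) .nil)))))) (.g (nat_lit 1) (.e (nat_lit 150307) (nat_lit 0) .nil) .nil))))))) (.nd (nat_lit 6) (.nd (nat_lit 7) (.nd (nat_lit 8) (.nd (nat_lit 9) 
(.lf (nat_lit 492602) (.g (nat_lit 3310) (.e (nat_lit 163873) (nat_lit 3) (.e (nat_lit 204813) (nat_lit 9) (.e (nat_lit 426190) (nat_lit 9) (.e (nat_lit 426566) (nat_lit 34) (.e (nat_lit 393253) (nat_lit 18) (.e (nat_lit 164326) (nat_lit 230) .nil)))))) (.g (nat_lit 1) (.e (nat_lit 148681) (nat_lit 0) .nil) .nil))) 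
(.lf (nat_lit 493114) (.g (nat_lit 2099) (.e (nat_lit 163874) (nat_lit 3) (.e (nat_lit 204837) (nat_lit 20) (.e (nat_lit 114719) (nat_lit 23) (.e (nat_lit 98356) (nat_lit 26) (.e (nat_lit 426436) (nat_lit 18) (.e (nat_lit 98333) (nat_lit 18) (.e (nat_lit 164332) (nat_lit 230) .nil))))))) (.g (nat_lit 1) (.e (nat_lit 149551) (nat_lit 0) .nil) .nil)))) (.nd (nat_lit 9) 
(.lf (nat_lit 492858) (.g (nat_lit 2555) (.e (nat_lit 163873) (nat_lit 3) (.e (nat_lit 204851) (nat_lit 26) (.e (nat_lit 336019) (nat_lit 3) (.e (nat_lit 98341) (nat_lit 20) (.e (nat_lit 221214) (nat_lit 23) (.e (nat_lit 204829) (nat_lit 18) (.e (nat_lit 57927) (nat_lit 282) .nil))))))) (.g (nat_lit 1) (.e (nat_lit 149136) (nat_lit 0) .nil) .nil))) 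
(.lf (nat_lit 493370) (.g (nat_lit 2578) (.e (nat_lit 163874) (nat_lit 3) (.e (nat_lit 204863) (nat_lit 27) (.e (nat_lit 344117) (nat_lit 21) (.e (nat_lit 516123) (nat_lit 2) (.e (nat_lit 213036) (nat_lit 13) (.e (nat_lit 229433) (nat_lit 25) (.e (nat_lit 532501) (nat_lit 1) (.e (nat_lit 57931) (nat_lit 282) .nil)))))))) (.g (nat_lit 1) (.e (nat_lit 149955) (nat_lit 0) .nil) .nil))))) 
(.nd (nat_lit 8) (.nd (nat_lit 9) 
(.lf (nat_lit 492730) (.g (nat_lit 3499) (.e (nat_lit 163873) (nat_lit 3) (.e (nat_lit 204813) (nat_lit 9) (.e (nat_lit 426199) (nat_lit 9) (.e (nat_lit 426568) (nat_lit 34) (.e (nat_lit 393253) (nat_lit 18) (.e (nat_lit 164326) (nat_lit 230) .nil)))))) (.g (nat_lit 1) (.e (nat_lit 148831) (nat_lit 0) .nil) .nil))) 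
(.lf (nat_lit 493242) (.g (nat_lit 3451) (.e (nat_lit 163874) (nat_lit 3) (.e (nat_lit 204851) (nat_lit 26) (.e (nat_lit 336019) (nat_lit 3) (.e (nat_lit 98341) (nat_lit 20) (.e (nat_lit 221214) (nat_lit 23) (.e (nat_lit 204830) (nat_lit 18) (.e (nat_lit 57927) (nat_lit 282) .nil))))))) (.g (nat_lit 1) (.e (nat_lit 149686) (nat_lit 0) .nil) .nil)))) (.nd (nat_lit 9) 
(.lf (nat_lit 492986) (.g (nat_lit 2661) (.e (nat_lit 163874) (nat_lit 3) (.e (nat_lit 204813) (nat_lit 9) (.e (nat_lit 426189) (nat_lit 9) (.e (nat_lit 426566) (nat_lit 34) (.e (nat_lit 393252) (nat_lit 18) (.e (nat_lit 164330) (nat_lit 230) .nil)))))) (.g (nat_lit 1) (.e (nat_lit 149353) (nat_lit 0) .nil) .nil))) 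
(.lf (nat_lit 493498) (.g (nat_lit 2832) (.e (nat_lit 163875) (nat_lit 3) (.e (nat_lit 204813) (nat_lit 9) (.e (nat_lit 426197) (nat_lit 9) (.e (nat_lit 426566) (nat_lit 34) (.e (nat_lit 393251) (nat_lit 18) (.e (nat_lit 164327) (nat_lit 230) .nil)))))) (.g (nat_lit 1) (.e (nat_lit 150263) (nat_lit 0) .nil) .nil)))))) (.nd (nat_lit 7) (.nd (nat_lit 8) (.nd (nat_lit 9) 
(.lf (nat_lit 492666) (.g (nat_lit 3240) (.e (nat_lit 163873) (nat_lit 3) (.e (nat_lit 204813) (nat_lit 9) (.e (nat_lit 426198) (nat_lit 9) (.e (nat_lit 426568) (nat_lit 34) (.e (nat_lit 393251) (nat_lit 18) (.e (nat_lit 164327) (nat_lit 230) .nil)))))) (.g (nat_lit 1) (.e (nat_lit 148761) (nat_lit 0) .nil) .nil))) 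
(.lf (nat_lit 493178) (.g (nat_lit 4718) (.e (nat_lit 163874) (nat_lit 3) (.e (nat_lit 204838) (nat_lit 20) (.e (nat_lit 114715) (nat_lit 22) (.e (nat_lit 90170) (nat_lit 13) (.e (nat_lit 172067) (nat_lit 3) (.e (nat_lit 204829) (nat_lit 18) (.e (nat_lit 57688) (nat_lit 156) .nil))))))) (.g (nat_lit 1) (.e (nat_lit 149615) (nat_lit 0) .nil) .nil)))) (.nd (nat_lit 9) 
(.lf (nat_lit 492922) (.g (nat_lit 2195) (.e (nat_lit 163873) (nat_lit 3) (.e (nat_lit 204861) (nat_lit 26) (.e (nat_lit 336222) (nat_lit 13) (.e (nat_lit 393229) (nat_lit 9) (.e (nat_lit 335988) (nat_lit 1) (.e (nat_lit 57927) (nat_lit 282) .nil)))))) (.g (nat_lit 1) (.e (nat_lit 149211) (nat_lit 0) .nil) .nil))) 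
(.lf (nat_lit 493434) (.g (nat_lit 4160) (.e (nat_lit 163874) (nat_lit 3) (.e (nat_lit 204873) (nat_lit 30) (.e (nat_lit 368676) (nat_lit 21) (.e (nat_lit 516131) (nat_lit 3) (.e (nat_lit 221215) (nat_lit 23) (.e (nat_lit 204829) (nat_lit 18) (.e (nat_lit 57927) (nat_lit 282) .nil))))))) (.g (nat_lit 1) (.e (nat_lit 150081) (nat_lit 0) .nil) .nil))))) (.nd (nat_lit 8) (.nd (nat_lit 9) 
(.lf (nat_lit 492794) (.g (nat_lit 4285) (.e (nat_lit 163873) (nat_lit 3) (.e (nat_lit 204837) (nat_lit 20) (.e (nat_lit 114718) (nat_lit 23) (.e (nat_lit 98367) (nat_lit 27) (.e (nat_lit 434231) (nat_lit 23) (.e (nat_lit 532499) (nat_lit 1) (.e (nat_lit 57688) (nat_lit 156) .nil))))))) (.g (nat_lit 1) (.e (nat_lit 149072) (nat_lit 0) .nil) .nil))) 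
(.lf (nat_lit 493306) (.g (nat_lit 2261) (.e (nat_lit 163874) (nat_lit 3) (.e (nat_lit 204861) (nat_lit 26) (.e (nat_lit 336075) (nat_lit 9) (.e (nat_lit 336454) (nat_lit 34) (.e (nat_lit 483366) (nat_lit 18) (.e (nat_lit 57930) (nat_lit 282) .nil)))))) (.g (nat_lit 1) (.e (nat_lit 149861) (nat_lit 0) .nil) .nil)))) (.nd (nat_lit 9) 
(.lf (nat_lit 493050) (.g (nat_lit 2846) (.e (nat_lit 163874) (nat_lit 3) (.e (nat_lit 204837) (nat_lit 20) (.e (nat_lit 114714) (nat_lit 22) (.e (nat_lit 90174) (nat_lit 14) (.e (nat_lit 180243) (nat_lit 5) (.e (nat_lit 532501) (nat_lit 1) (.e (nat_lit 57685) (nat_lit 156) .nil))))))) (.g (nat_lit 1) (.e (nat_lit 149487) (nat_lit 0) .nil) .nil))) 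
(.lf (nat_lit 493562) (.g (nat_lit 1555) (.e (nat_lit 163875) (nat_lit 3) (.e (nat_lit 204830) (nat_lit 18) (.e (nat_lit 57852) (nat_lit 252) (.e (nat_lit 57409) (nat_lit 12) .nil)))) (.g (nat_lit 0) (.e (nat_lit 150404) (nat_lit 0) .nil) .nil)))))))))) (.nd (nat_lit 3) (.nd (nat_lit 4) (.nd (nat_lit 5) (.nd (nat_lit 6) (.nd (nat_lit 7) (.nd (nat_lit 8) (.nd (nat_lit 9) 
(.lf (nat_lit 492550) (.g (nat_lit 2509) (.e (nat_lit 163873) (nat_lit 3) (.e (nat_lit 204813) (nat_lit 9) (.e (nat_lit 426188) (nat_lit 9) (.e (nat_lit 426478) (nat_lit 27) (.e (nat_lit 336389) (nat_lit 27) (.e (nat_lit 426098) (nat_lit 1) (.e (nat_lit 164327) (nat_lit 230) .nil))))))) (.g (nat_lit 1) (.e (nat_lit 148625) (nat_lit 0) .nil) .nil))) 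
(.lf (nat_lit 493062) (.g (nat_lit 3953) (.e (nat_lit 163874) (nat_lit 3) (.e (nat_lit 204837) (nat_lit 20) (.e (nat_lit 114715) (nat_lit 22) (.e (nat_lit 90170) (nat_lit 13) (.e (nat_lit 172065) (nat_lit 3) (.e (nat_lit 204829) (nat_lit 18) (.e (nat_lit 57691) (nat_lit 156) .nil))))))) (.g (nat_lit 1) (.e (nat_lit 149499) (nat_lit 0) .nil) .nil)))) (.nd (nat_lit 9) 
(.lf (nat_lit 492806) (.g (nat_lit 4980) (.e (nat_lit 163873) (nat_lit 3) (.e (nat_lit 204837) (nat_lit 20) (.e (nat_lit 114719) (nat_lit 23) (.e (nat_lit 98367) (nat_lit 27) (.e (nat_lit 434231) (nat_lit 23) (.e (nat_lit 532499) (nat_lit 1) (.e (nat_lit 57688) (nat_lit 156) .nil))))))) (.g (nat_lit 1) (.e (nat_lit 149084) (nat_lit 0) .nil) .nil))) 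
(.lf (nat_lit 493318) (.g (nat_lit 3811) (.e (nat_lit 163874) (nat_lit 3) (.e (nat_lit 204861) (nat_lit 26) (.e (nat_lit 336076) (nat_lit 9) (.e (nat_lit 336454) (nat_lit 34) (.e (nat_lit 483363) (nat_lit 18) (.e (nat_lit 57927) (nat_lit 282) .nil)))))) (.g (nat_lit 1) (.e (nat_lit 149890) (nat_lit 0) .nil) .nil))))) (.nd (nat_lit 8) (.nd (nat_lit 9) 
(.lf (nat_lit 492678) (.g (nat_lit 2837) (.e (nat_lit 163873) (nat_lit 3) (.e (nat_lit 204813) (nat_lit 9) (.e (nat_lit 426199) (nat_lit 9) (.e (nat_lit 426478) (nat_lit 27) (.e (nat_lit 336385) (nat_lit 27) (.e (nat_lit 426098) (nat_lit 1) (.e (nat_lit 164325) (nat_lit 230) .nil))))))) (.g (nat_lit 1) (.e (nat_lit 148773) (nat_lit 0) .nil) .nil))) 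
(.lf (nat_lit 493190) (.g (nat_lit 2275) (.e (nat_lit 163874) (nat_lit 3) (.e (nat_lit 204838) (nat_lit 20) (.e (nat_lit 114716) (nat_lit 22) (.e (nat_lit 90174) (nat_lit 14) (.e (nat_lit 180243) (nat_lit 5) (.e (nat_lit 532501) (nat_lit 1) (.e (nat_lit 57685) (nat_lit 156) .nil))))))) (.g (nat_lit 1) (.e (nat_lit 149627) (nat_lit 0) .nil) .nil)))) (.nd (nat_lit 9) 
(.lf (nat_lit 492934) (.g (nat_lit 1586) (.e (nat_lit 163874) (nat_lit 3) (.e (nat_lit 204809) (nat_lit 9) (.e (nat_lit 426139) (nat_lit 3) (.e (nat_lit 204834) (nat_lit 19) .nil)))) (.g (nat_lit 0) (.e (nat_lit 149253) (nat_lit 0) .nil) .nil))) 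
(.lf (nat_lit 493446) (.g (nat_lit 3203) (.e (nat_lit 163874) (nat_lit 3) (.e (nat_lit 204877) (nat_lit 31) (.e (nat_lit 376842) (nat_lit 11) (.e (nat_lit 426497) (nat_lit 27) (.e (nat_lit 335988) (nat_lit 1) (.e (nat_lit 57927) (nat_lit 282) .nil)))))) (.g (nat_lit 1) (.e (nat_lit 150094) (nat_lit 0) .nil) .nil)))))) (.nd (nat_lit 7) (.nd (nat_lit 8) (.nd (nat_lit 9) 
(.lf (nat_lit 492614) (.g (nat_lit 3642) (.e (nat_lit 163873) (nat_lit 3) (.e (nat_lit 204813) (nat_lit 9) (.e (nat_lit 426196) (nat_lit 9) (.e (nat_lit 426568) (nat_lit 34) (.e (nat_lit 393251) (nat_lit 18) (.e (nat_lit 164332) (nat_lit 230) .nil)))))) (.g (nat_lit 1) (.e (nat_lit 148693) (nat_lit 0) .nil) .nil))) 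
(.lf (nat_lit 493126) (.g (nat_lit 4206) (.e (nat_lit 163874) (nat_lit 3) (.e (nat_lit 204837) (nat_lit 20) (.e (nat_lit 114719) (nat_lit 23) (.e (nat_lit 98366) (nat_lit 27) (.e (nat_lit 434231) (nat_lit 23) (.e (nat_lit 532502) (nat_lit 1) (.e (nat_lit 57692) (nat_lit 156) .nil))))))) (.g (nat_lit 1) (.e (nat_lit 149563) (nat_lit 0) .nil) .nil)))) (.nd (nat_lit 9) 
(.lf (nat_lit 492870) (.g (nat_lit 2905) (.e (nat_lit 163873) (nat_lit 3) (.e (nat_lit 204853) (nat_lit 26) (.e (nat_lit 336019) (nat_lit 3) (.e (nat_lit 98342) (nat_lit 20) (.e (nat_lit 221215) (nat_lit 23) (.e (nat_lit 204828) (nat_lit 18) (.e (nat_lit 57927) (nat_lit 282) .nil))))))) (.g (nat_lit 1) (.e (nat_lit 149151) (nat_lit 0) .nil) .nil))) 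
(.lf (nat_lit 493382) (.g (nat_lit 1257) (.e (nat_lit 163874) (nat_lit 3) (.e (nat_lit 204863) (nat_lit 27) (.e (nat_lit 344120) (nat_lit 21) (.e (nat_lit 516131) (nat_lit 3) .nil)))) (.g (nat_lit 0) (.e (nat_lit 149967) (nat_lit 0) .nil) .nil))))) (.nd (nat_lit 8) (.nd (nat_lit 9) 
(.lf (nat_lit 492742) (.g (nat_lit 2266) (.e (nat_lit 163873) (nat_lit 3) (.e (nat_lit 204813) (nat_lit 9) (.e (nat_lit 426200) (nat_lit 9) (.e (nat_lit 426478) (nat_lit 27) (.e (nat_lit 336388) (nat_lit 27) (.e (nat_lit 426108) (nat_lit 1) (.e (nat_lit 164331) (nat_lit 230) .nil))))))) (.g (nat_lit 1) (.e (nat_lit 148843) (nat_lit 0) .nil) .nil))) 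
(.lf (nat_lit 493254) (.g (nat_lit 3887) (.e (nat_lit 163874) (nat_lit 3) (.e (nat_lit 204851) (nat_lit 26) (.e (nat_lit 336019) (nat_lit 3) (.e (nat_lit 98342) (nat_lit 20) (.e (nat_lit 221215) (nat_lit 23) (.e (nat_lit 204830) (nat_lit 18) (.e (nat_lit 57926) (nat_lit 282) .nil))))))) (.g (nat_lit 1) (.e (nat_lit 149698) (nat_lit 0) .nil) .nil)))) (.nd (nat_lit 9) 
(.lf (nat_lit 492998) (.g (nat_lit 1616) (.e (nat_lit 163874) (nat_lit 3) (.e (nat_lit 204813) (nat_lit 9) (.e (nat_lit 426197) (nat_lit 9) (.e (nat_lit 426568) (nat_lit 34) (.e (nat_lit 393252) (nat_lit 18) .nil))))) (.g (nat_lit 0) (.e (nat_lit 149365) (nat_lit 0) .nil) .nil))) 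
(.lf (nat_lit 493510) (.g (nat_lit 2894) (.e (nat_lit 163875) (nat_lit 3) (.e (nat_lit 204813) (nat_lit 9) (.e (nat_lit 426198) (nat_lit 9) (.e (nat_lit 426568) (nat_lit 34) (.e (nat_lit 393253) (nat_lit 18) (.e (nat_lit 164324) (nat_lit 230) .nil)))))) (.g (nat_lit 1) (.e (nat_lit 150280) (nat_lit 0) .nil) .nil))))))) (.nd (nat_lit 6) (.nd (nat_lit 7) (.nd (nat_lit 8) (.nd (nat_lit 9) 
(.lf (nat_lit 492582) (.g (nat_lit 2735) (.e (nat_lit 163873) (nat_lit 3) (.e (nat_lit 204813) (nat_lit 9) (.e (nat_lit 426189) (nat_lit 9) (.e (nat_lit 426566) (nat_lit 34) (.e (nat_lit 393252) (nat_lit 18) (.e (nat_lit 164332) (nat_lit 230) .nil)))))) (.g (nat_lit 1) (.e (nat_lit 148661) (nat_lit 0) .nil) .nil))) 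
(.lf (nat_lit 493094) (.g (nat_lit 3446) (.e (nat_lit 163874) (nat_lit 3) (.e (nat_lit 204837) (nat_lit 20) (.e (nat_lit 114718) (nat_lit 23) (.e (nat_lit 98367) (nat_lit 27) (.e (nat_lit 434231) (nat_lit 23) (.e (nat_lit 532499) (nat_lit 1) (.e (nat_lit 57691) (nat_lit 156) .nil))))))) (.g (nat_lit 1) (.e (nat_lit 149531) (nat_lit 0) .nil) .nil)))) (.nd (nat_lit 9) 
(.lf (nat_lit 492838) (.g (nat_lit 2375) (.e (nat_lit 163873) (nat_lit 3) (.e (nat_lit 204838) (nat_lit 20) (.e (nat_lit 114719) (nat_lit 23) (.e (nat_lit 98365) (nat_lit 26) (.e (nat_lit 426137) (nat_lit 3) .nil))))) (.g (nat_lit 0) (.e (nat_lit 149116) (nat_lit 0) .nil) .nil))) 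
(.lf (nat_lit 493350) (.g (nat_lit 2605) (.e (nat_lit 163874) (nat_lit 3) (.e (nat_lit 204862) (nat_lit 27) (.e (nat_lit 344117) (nat_lit 21) (.e (nat_lit 516122) (nat_lit 2) (.e (nat_lit 213036) (nat_lit 13) (.e (nat_lit 229433) (nat_lit 25) (.e (nat_lit 532501) (nat_lit 1) (.e (nat_lit 57929) (nat_lit 282) .nil)))))))) (.g (nat_lit 1) (.e (nat_lit 149935) (nat_lit 0) .nil) .nil))))) 
(.nd (nat_lit 8) (.nd (nat_lit 9) 
(.lf (nat_lit 492710) (.g (nat_lit 4310) (.e (nat_lit 163873) (nat_lit 3) (.e (nat_lit 204813) (nat_lit 9) (.e (nat_lit 426199) (nat_lit 9) (.e (nat_lit 426566) (nat_lit 34) (.e (nat_lit 393251) (nat_lit 18) (.e (nat_lit 164325) (nat_lit 230) .nil)))))) (.g (nat_lit 1) (.e (nat_lit 148811) (nat_lit 0) .nil) .nil))) 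
(.lf (nat_lit 493222) (.g (nat_lit 4159) (.e (nat_lit 163874) (nat_lit 3) (.e (nat_lit 204838) (nat_lit 20) (.e (nat_lit 114719) (nat_lit 23) (.e (nat_lit 98366) (nat_lit 27) (.e (nat_lit 434231) (nat_lit 23) (.e (nat_lit 532500) (nat_lit 1) (.e (nat_lit 57689) (nat_lit 156) .nil))))))) (.g (nat_lit 1) (.e (nat_lit 149659) (nat_lit 0) .nil) .nil)))) (.nd (nat_lit 9) 
(.lf (nat_lit 492966) (.g (nat_lit 1968) (.e (nat_lit 163874) (nat_lit 3) (.e (nat_lit 204811) (nat_lit 9) (.e (nat_lit 426262) (nat_lit 9) (.e (nat_lit 426565) (nat_lit 34) (.e (nat_lit 393253) (nat_lit 18) (.e (nat_lit 164330) (nat_lit 230) .nil)))))) (.g (nat_lit 1) (.e (nat_lit 149324) (nat_lit 0) .nil) .nil))) 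
(.lf (nat_lit 493478) (.g (nat_lit 1612) (.e (nat_lit 163875) (nat_lit 3) (.e (nat_lit 204812) (nat_lit 9) (.e (nat_lit 426188) (nat_lit 9) (.e (nat_lit 426566) (nat_lit 34) (.e (nat_lit 393254) (nat_lit 18) (.e (nat_lit 164325) (nat_lit 230) .nil)))))) (.g (nat_lit 1) (.e (nat_lit 150216) (nat_lit 0) .nil) .nil)))))) (.nd (nat_lit 7) (.nd (nat_lit 8) (.nd (nat_lit 9) 
(.lf (nat_lit 492646) (.g (nat_lit 3114) (.e (nat_lit 163873) (nat_lit 3) (.e (nat_lit 204813) (nat_lit 9) (.e (nat_lit 426198) (nat_lit 9) (.e (nat_lit 426481) (nat_lit 27) (.e (nat_lit 336389) (nat_lit 27) (.e (nat_lit 426098) (nat_lit 1) (.e (nat_lit 164327) (nat_lit 230) .nil))))))) (.g (nat_lit 1) (.e (nat_lit 148741) (nat_lit 0) .nil) .nil))) 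
(.lf (nat_lit 493158) (.g (nat_lit 4278) (.e (nat_lit 163874) (nat_lit 3) (.e (nat_lit 204838) (nat_lit 20) (.e (nat_lit 114714) (nat_lit 22) (.e (nat_lit 90174) (nat_lit 14) (.e (nat_lit 180243) (nat_lit 5) (.e (nat_lit 532501) (nat_lit 1) (.e (nat_lit 57690) (nat_lit 156) .nil))))))) (.g (nat_lit 1) (.e (nat_lit 149595) (nat_lit 0) .nil) .nil)))) (.nd (nat_lit 9) 
(.lf (nat_lit 492902) (.g (nat_lit 1993) (.e (nat_lit 163873) (nat_lit 3) (.e (nat_lit 204861) (nat_lit 26) (.e (nat_lit 336076) (nat_lit 9) (.e (nat_lit 336377) (nat_lit 27) (.e (nat_lit 426524) (nat_lit 27) (.e (nat_lit 335987) (nat_lit 1) (.e (nat_lit 57927) (nat_lit 282) .nil))))))) (.g (nat_lit 1) (.e (nat_lit 149187) (nat_lit 0) .nil) .nil))) 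
(.lf (nat_lit 493414) (.g (nat_lit 2271) (.e (nat_lit 163874) (nat_lit 3) (.e (nat_lit 204864) (nat_lit 27) (.e (nat_lit 344130) (nat_lit 26) (.e (nat_lit 557103) (nat_lit 14) (.e (nat_lit 180244) (nat_lit 5) (.e (nat_lit 532503) (nat_lit 1) (.e (nat_lit 65280) (nat_lit 168) .nil))))))) (.g (nat_lit 1) (.e (nat_lit 149999) (nat_lit 0) .nil) .nil))))) (.nd (nat_lit 8) (.nd (nat_lit 9) 
(.lf (nat_lit 492774) (.g (nat_lit 2893) (.e (nat_lit 163873) (nat_lit 3) (.e (nat_lit 204813) (nat_lit 9) (.e (nat_lit 426200) (nat_lit 9) (.e (nat_lit 426568) (nat_lit 34) (.e (nat_lit 393253) (nat_lit 18) (.e (nat_lit 164329) (nat_lit 230) .nil)))))) (.g (nat_lit 1) (.e (nat_lit 148891) (nat_lit 0) .nil) .nil))) 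
(.lf (nat_lit 493286) (.g (nat_lit 4321) (.e (nat_lit 163874) (nat_lit 3) (.e (nat_lit 204854) (nat_lit 26) (.e (nat_lit 336019) (nat_lit 3) (.e (nat_lit 98342) (nat_lit 20) (.e (nat_lit 221215) (nat_lit 23) (.e (nat_lit 204830) (nat_lit 18) (.e (nat_lit 57931) (nat_lit 282) .nil))))))) (.g (nat_lit 1) (.e (nat_lit 149793) (nat_lit 0) .nil) .nil)))) (.nd (nat_lit 9) 
(.lf (nat_lit 493030) (.g (nat_lit 1472) (.e (nat_lit 163874) (nat_lit 3) (.e (nat_lit 204829) (nat_lit 18) (.e (nat_lit 57847) (nat_lit 252) (.e (nat_lit 57432) (nat_lit 16) .nil)))) (.g (nat_lit 0) (.e (nat_lit 149467) (nat_lit 0) .nil) .nil))) 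
(.lf (nat_lit 493542) (.g (nat_lit 3371) (.e (nat_lit 163875) (nat_lit 3) (.e (nat_lit 204829) (nat_lit 18) (.e (nat_lit 57847) (nat_lit 252) (.e (nat_lit 57410) (nat_lit 12) (.e (nat_lit 336019) (nat_lit 3) (.e (nat_lit 98356) (nat_lit 26) (.e (nat_lit 426422) (nat_lit 16) (.e (nat_lit 57686) (nat_lit 156) .nil)))))))) (.g (nat_lit 1) (.e (nat_lit 150384) (nat_lit 0) .nil) .nil)))))))) 
(.nd (nat_lit 5) (.nd (nat_lit 6) (.nd (nat_lit 7) (.nd (nat_lit 8) (.nd (nat_lit 9) 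
(.lf (nat_lit 492566) (.g (nat_lit 3781) (.e (nat_lit 163873) (nat_lit 3) (.e (nat_lit 204813) (nat_lit 9) (.e (nat_lit 426188) (nat_lit 9) (.e (nat_lit 426566) (nat_lit 34) (.e (nat_lit 393254) (nat_lit 18) (.e (nat_lit 164324) (nat_lit 230) .nil)))))) (.g (nat_lit 1) (.e (nat_lit 148644) (nat_lit 0) .nil) .nil))) 
(.lf (nat_lit 493078) (.g (nat_lit 2226) (.e (nat_lit 163874) (nat_lit 3) (.e (nat_lit 204837) (nat_lit 20) (.e (nat_lit 114715) (nat_lit 22) (.e (nat_lit 90174) (nat_lit 14) (.e (nat_lit 180243) (nat_lit 5) (.e (nat_lit 532501) (nat_lit 1) (.e (nat_lit 57690) (nat_lit 156) .nil))))))) (.g (nat_lit 1) (.e (nat_lit 149515) (nat_lit 0) .nil) .nil)))) (.nd (nat_lit 9) 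
(.lf (nat_lit 492822) (.g (nat_lit 853) (.e (nat_lit 163873) (nat_lit 3) (.e (nat_lit 204838) (nat_lit 20) (.e (nat_lit 114718) (nat_lit 23) .nil))) (.g (nat_lit 0) (.e (nat_lit 149100) (nat_lit 0) .nil) .nil))) 
(.lf (nat_lit 493334) (.g (nat_lit 2306) (.e (nat_lit 163874) (nat_lit 3) (.e (nat_lit 204861) (nat_lit 26) (.e (nat_lit 336213) (nat_lit 13) (.e (nat_lit 393226) (nat_lit 9) .nil)))) (.g (nat_lit 0) (.e (nat_lit 149917) (nat_lit 0) .nil) .nil))))) (.nd (nat_lit 8) (.nd (nat_lit 9) 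
(.lf (nat_lit 492694) (.g (nat_lit 3031) (.e (nat_lit 163873) (nat_lit 3) (.e (nat_lit 204813) (nat_lit 9) (.e (nat_lit 426199) (nat_lit 9) (.e (nat_lit 426481) (nat_lit 27) (.e (nat_lit 336388) (nat_lit 27) (.e (nat_lit 426108) (nat_lit 1) (.e (nat_lit 164331) (nat_lit 230) .nil))))))) (.g (nat_lit 1) (.e (nat_lit 148795) (nat_lit 0) .nil) .nil))) 
(.lf (nat_lit 493206) (.g (nat_lit 3962) (.e (nat_lit 163874) (nat_lit 3) (.e (nat_lit 204838) (nat_lit 20) (.e (nat_lit 114718) (nat_lit 23) (.e (nat_lit 98367) (nat_lit 27) (.e (nat_lit 434231) (nat_lit 23) (.e (nat_lit 532500) (nat_lit 1) (.e (nat_lit 57689) (nat_lit 156) .nil))))))) (.g (nat_lit 1) (.e (nat_lit 149643) (nat_lit 0) .nil) .nil)))) (.nd (nat_lit 9) 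
(.lf (nat_lit 492950) (.g (nat_lit 2492) (.e (nat_lit 163874) (nat_lit 3) (.e (nat_lit 204809) (nat_lit 9) (.e (nat_lit 426198) (nat_lit 9) (.e (nat_lit 426566) (nat_lit 34) (.e (nat_lit 393253) (nat_lit 18) (.e (nat_lit 164330) (nat_lit 230) .nil)))))) (.g (nat_lit 1) (.e (nat_lit 149272) (nat_lit 0) .nil) .nil))) 
(.lf (nat_lit 493462) (.g (nat_lit 1464) (.e (nat_lit 163875) (nat_lit 3) (.e (nat_lit 204809) (nat_lit 9) (.e (nat_lit 426198) (nat_lit 9) (.e (nat_lit 426568) (nat_lit 34) .nil)))) (.g (nat_lit 0) (.e (nat_lit 150154) (nat_lit 0) .nil) .nil)))))) (.nd (nat_lit 7) (.nd (nat_lit 8) (.nd (nat_lit 9) 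
(.lf (nat_lit 492630) (.g (nat_lit 3759) (.e (nat_lit 163873) (nat_lit 3) (.e (nat_lit 204813) (nat_lit 9) (.e (nat_lit 426197) (nat_lit 9) (.e (nat_lit 426568) (nat_lit 34) (.e (nat_lit 393251) (nat_lit 18) (.e (nat_lit 164331) (nat_lit 230) .nil)))))) (.g (nat_lit 1) (.e (nat_lit 148710) (nat_lit 0) .nil) .nil))) 
(.lf (nat_lit 493142) (.g (nat_lit 3087) (.e (nat_lit 163874) (nat_lit 3) (.e (nat_lit 204837) (nat_lit 20) (.e (nat_lit 114719) (nat_lit 23) (.e (nat_lit 98367) (nat_lit 27) (.e (nat_lit 434232) (nat_lit 23) (.e (nat_lit 532501) (nat_lit 1) (.e (nat_lit 57692) (nat_lit 156) .nil))))))) (.g (nat_lit 1) (.e (nat_lit 149579) (nat_lit 0) .nil) .nil)))) (.nd (nat_lit 9) 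
(.lf (nat_lit 492886) (.g (nat_lit 1881) (.e (nat_lit 163873) (nat_lit 3) (.e (nat_lit 204861) (nat_lit 26) (.e (nat_lit 336075) (nat_lit 9) (.e (nat_lit 336366) (nat_lit 27) (.e (nat_lit 426501) (nat_lit 27) (.e (nat_lit 335988) (nat_lit 1) (.e (nat_lit 57927) (nat_lit 282) .nil))))))) (.g (nat_lit 1) (.e (nat_lit 149167) (nat_lit 0) .nil) .nil))) 
(.lf (nat_lit 493398) (.g (nat_lit 1731) (.e (nat_lit 163874) (nat_lit 3) (.e (nat_lit 204863) (nat_lit 27) (.e (nat_lit 344133) (nat_lit 26) (.e (nat_lit 557098) (nat_lit 13) .nil)))) (.g (nat_lit 0) (.e (nat_lit 149983) (nat_lit 0) .nil) .nil))))) (.nd (nat_lit 8) (.nd (nat_lit 9) 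
(.lf (nat_lit 492758) (.g (nat_lit 3406) (.e (nat_lit 163873) (nat_lit 3) (.e (nat_lit 204813) (nat_lit 9) (.e (nat_lit 426200) (nat_lit 9) (.e (nat_lit 426566) (nat_lit 34) (.e (nat_lit 393252) (nat_lit 18) (.e (nat_lit 164332) (nat_lit 230) .nil)))))) (.g (nat_lit 1) (.e (nat_lit 148872) (nat_lit 0) .nil) .nil))) 
(.lf (nat_lit 493270) (.g (nat_lit 972) (.e (nat_lit 163874) (nat_lit 3) (.e (nat_lit 204854) (nat_lit 26) (.e (nat_lit 336019) (nat_lit 3) (.e (nat_lit 98342) (nat_lit 20) .nil)))) (.g (nat_lit 0) (.e (nat_lit 149776) (nat_lit 0) .nil) .nil)))) (.nd (nat_lit 9) 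
(.lf (nat_lit 493014) (.g (nat_lit 1869) (.e (nat_lit 163874) (nat_lit 3) (.e (nat_lit 204813) (nat_lit 9) (.e (nat_lit 426200) (nat_lit 9) (.e (nat_lit 426494) (nat_lit 27) (.e (nat_lit 336387) (nat_lit 27) (.e (nat_lit 426108) (nat_lit 1) (.e (nat_lit 164332) (nat_lit 230) .nil))))))) (.g (nat_lit 1) (.e (nat_lit 149382) (nat_lit 0) .nil) .nil))) 
(.lf (nat_lit 493526) (.g (nat_lit 1953) (.e (nat_lit 163875) (nat_lit 3) (.e (nat_lit 204813) (nat_lit 9) (.e (nat_lit 426200) (nat_lit 9) (.e (nat_lit 426481) (nat_lit 27) (.e (nat_lit 336388) (nat_lit 27) (.e (nat_lit 426098) (nat_lit 1) (.e (nat_lit 164325) (nat_lit 230) .nil))))))) (.g (nat_lit 1) (.e (nat_lit 150302) (nat_lit 0) .nil) .nil))))))) 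
(.nd (nat_lit 6) (.nd (nat_lit 7) (.nd (nat_lit 8) (.nd (nat_lit 9) 
(.lf (nat_lit 492598) (.g (nat_lit 2947) (.e (nat_lit 163873) (nat_lit 3) (.e (nat_lit 204813) (nat_lit 9) (.e (nat_lit 426190) (nat_lit 9) (.e (nat_lit 426566) (nat_lit 34) (.e (nat_lit 393251) (nat_lit 18) (.e (nat_lit 164332) (nat_lit 230) .nil)))))) (.g (nat_lit 1) (.e (nat_lit 148677) (nat_lit 0) .nil) .nil))) 
(.lf (nat_lit 493110) (.g (nat_lit 3959) (.e (nat_lit 163874) (nat_lit 3) (.e (nat_lit 204837) (nat_lit 20) (.e (nat_lit 114718) (nat_lit 23) (.e (nat_lit 98384) (nat_lit 32) (.e (nat_lit 475177) (nat_lit 24) (.e (nat_lit 516120) (nat_lit 1) (.e (nat_lit 164330) (nat_lit 230) .nil))))))) (.g (nat_lit 1) (.e (nat_lit 149547) (nat_lit 0) .nil) .nil)))) (.nd (nat_lit 9) 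
(.lf (nat_lit 492854) (.g (nat_lit 1661) (.e (nat_lit 163873) (nat_lit 3) (.e (nat_lit 204838) (nat_lit 20) (.e (nat_lit 114719) (nat_lit 23) (.e (nat_lit 98383) (nat_lit 32) .nil)))) (.g (nat_lit 0) (.e (nat_lit 149132) (nat_lit 0) .nil) .nil))) 
(.lf (nat_lit 493366) (.g (nat_lit 2643) (.e (nat_lit 163874) (nat_lit 3) (.e (nat_lit 204863) (nat_lit 27) (.e (nat_lit 344117) (nat_lit 21) (.e (nat_lit 516123) (nat_lit 2) (.e (nat_lit 213033) (nat_lit 12) (.e (nat_lit 163963) (nat_lit 25) (.e (nat_lit 532499) (nat_lit 1) (.e (nat_lit 57927) (nat_lit 282) .nil)))))))) (.g (nat_lit 1) (.e (nat_lit 149951) (nat_lit 0) .nil) .nil))))) 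
(.nd (nat_lit 8) (.nd (nat_lit 9) 
(.lf (nat_lit 492726) (.g (nat_lit 3878) (.e (nat_lit 163873) (nat_lit 3) (.e (nat_lit 204813) (nat_lit 9) (.e (nat_lit 426199) (nat_lit 9) (.e (nat_lit 426568) (nat_lit 34) (.e (nat_lit 393252) (nat_lit 18) (.e (nat_lit 164330) (nat_lit 230) .nil)))))) (.g (nat_lit 1) (.e (nat_lit 148827) (nat_lit 0) .nil) .nil))) 
(.lf (nat_lit 493238) (.g (nat_lit 2332) (.e (nat_lit 163874) (nat_lit 3) (.e (nat_lit 204838) (nat_lit 20) (.e (nat_lit 114719) (nat_lit 23) (.e (nat_lit 98377) (nat_lit 30) (.e (nat_lit 458789) (nat_lit 23) (.e (nat_lit 532502) (nat_lit 1) (.e (nat_lit 57692) (nat_lit 156) .nil))))))) (.g (nat_lit 1) (.e (nat_lit 149675) (nat_lit 0) .nil) .nil)))) (.nd (nat_lit 9) 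
(.lf (nat_lit 492982) (.g (nat_lit 3444) (.e (nat_lit 163874) (nat_lit 3) (.e (nat_lit 204813) (nat_lit 9) (.e (nat_lit 426188) (nat_lit 9) (.e (nat_lit 426568) (nat_lit 34) (.e (nat_lit 393253) (nat_lit 18) (.e (nat_lit 164324) (nat_lit 230) .nil)))))) (.g (nat_lit 1) (.e (nat_lit 149349) (nat_lit 0) .nil) .nil))) 
(.lf (nat_lit 493494) (.g (nat_lit 3659) (.e (nat_lit 163875) (nat_lit 3) (.e (nat_lit 204813) (nat_lit 9) (.e (nat_lit 426190) (nat_lit 9) (.e (nat_lit 426566) (nat_lit 34) (.e (nat_lit 393251) (nat_lit 18) (.e (nat_lit 164327) (nat_lit 230) .nil)))))) (.g (nat_lit 1) (.e (nat_lit 150259) (nat_lit 0) .nil) .nil)))))) (.nd (nat_lit 7) (.nd (nat_lit 8) (.nd (nat_lit 9) 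
(.lf (nat_lit 492662) (.g (nat_lit 3385) (.e (nat_lit 163873) (nat_lit 3) (.e (nat_lit 204813) (nat_lit 9) (.e (nat_lit 426198) (nat_lit 9) (.e (nat_lit 426566) (nat_lit 34) (.e (nat_lit 393254) (nat_lit 18) (.e (nat_lit 164326) (nat_lit 230) .nil)))))) (.g (nat_lit 1) (.e (nat_lit 148757) (nat_lit 0) .nil) .nil))) 
(.lf (nat_lit 493174) (.g (nat_lit 4709) (.e (nat_lit 163874) (nat_lit 3) (.e (nat_lit 204838) (nat_lit 20) (.e (nat_lit 114715) (nat_lit 22) (.e (nat_lit 90170) (nat_lit 13) (.e (nat_lit 172065) (nat_lit 3) (.e (nat_lit 204830) (nat_lit 18) (.e (nat_lit 57691) (nat_lit 156) .nil))))))) (.g (nat_lit 1) (.e (nat_lit 149611) (nat_lit 0) .nil) .nil)))) (.nd (nat_lit 9) 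
(.lf (nat_lit 492918) (.g (nat_lit 2435) (.e (nat_lit 163873) (nat_lit 3) (.e (nat_lit 204861) (nat_lit 26) (.e (nat_lit 336213) (nat_lit 13) (.e (nat_lit 393225) (nat_lit 9) (.e (nat_lit 336030) (nat_lit 4) (.e (nat_lit 123228) (nat_lit 282) .nil)))))) (.g (nat_lit 1) (.e (nat_lit 149207) (nat_lit 0) .nil) .nil))) 
(.lf (nat_lit 493430) (.g (nat_lit 2013) (.e (nat_lit 163874) (nat_lit 3) (.e (nat_lit 204872) (nat_lit 30) (.e (nat_lit 368676) (nat_lit 21) (.e (nat_lit 516131) (nat_lit 3) (.e (nat_lit 221215) (nat_lit 23) (.e (nat_lit 204828) (nat_lit 18) (.e (nat_lit 57929) (nat_lit 282) .nil))))))) (.g (nat_lit 1) (.e (nat_lit 150075) (nat_lit 0) .nil) .nil))))) (.nd (nat_lit 8) (.nd (nat_lit 9) 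
(.lf (nat_lit 492790) (.g (nat_lit 2363) (.e (nat_lit 163873) (nat_lit 3) (.e (nat_lit 204837) (nat_lit 20) (.e (nat_lit 114715) (nat_lit 22) (.e (nat_lit 90170) (nat_lit 13) (.e (nat_lit 172065) (nat_lit 3) .nil))))) (.g (nat_lit 0) (.e (nat_lit 149068) (nat_lit 0) .nil) .nil))) 
(.lf (nat_lit 493302) (.g (nat_lit 393) (.e (nat_lit 163874) (nat_lit 3) (.e (nat_lit 204861) (nat_lit 26) (.e (nat_lit 336075) (nat_lit 9) .nil))) (.g (nat_lit 0) (.e (nat_lit 149837) (nat_lit 0) .nil) .nil)))) (.nd (nat_lit 9) 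
(.lf (nat_lit 493046) (.g (nat_lit 5853) (.e (nat_lit 163874) (nat_lit 3) (.e (nat_lit 204837) (nat_lit 20) (.e (nat_lit 114714) (nat_lit 22) (.e (nat_lit 90174) (nat_lit 14) (.e (nat_lit 180243) (nat_lit 5) (.e (nat_lit 532499) (nat_lit 1) (.e (nat_lit 57688) (nat_lit 156) .nil))))))) (.g (nat_lit 1) (.e (nat_lit 149483) (nat_lit 0) .nil) .nil))) 
(.lf (nat_lit 493558) (.g (nat_lit 3565) (.e (nat_lit 163875) (nat_lit 3) (.e (nat_lit 204829) (nat_lit 18) (.e (nat_lit 57927) (nat_lit 282) (.e (nat_lit 164084) (nat_lit 73) (.e (nat_lit 336027) (nat_lit 3) (.e (nat_lit 98358) (nat_lit 26) (.e (nat_lit 426112) (nat_lit 1) (.e (nat_lit 164327) (nat_lit 230) .nil)))))))) (.g (nat_lit 1) (.e (nat_lit 150400) (nat_lit 0) .nil) .nil))))))))) 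
(.nd (nat_lit 4) (.nd (nat_lit 5) (.nd (nat_lit 6) (.nd (nat_lit 7) (.nd (nat_lit 8) 
(.nd (nat_lit 9) 
(.lf (nat_lit 492558) (.g (nat_lit 2451) (.e (nat_lit 163873) (nat_lit 3) (.e (nat_lit 204813) (nat_lit 9) (.e (nat_lit 426188) (nat_lit 9) (.e (nat_lit 426564) (nat_lit 34) (.e (nat_lit 393253) (nat_lit 18) (.e (nat_lit 164327) (nat_lit 230) .nil)))))) (.g (nat_lit 1) (.e (nat_lit 148636) (nat_lit 0) .nil) .nil))) 
(.lf (nat_lit 493070) (.g (nat_lit 2608) (.e (nat_lit 163874) (nat_lit 3) (.e (nat_lit 204837) (nat_lit 20) (.e (nat_lit 114715) (nat_lit 22) (.e (nat_lit 90170) (nat_lit 13) (.e (nat_lit 172066) (nat_lit 3) (.e (nat_lit 204829) (nat_lit 18) (.e (nat_lit 57692) (nat_lit 156) .nil))))))) (.g (nat_lit 1) (.e (nat_lit 149507) (nat_lit 0) .nil) .nil)))) (.nd (nat_lit 9) 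
(.lf (nat_lit 492814) (.g (nat_lit 3203) (.e (nat_lit 163873) (nat_lit 3) (.e (nat_lit 204838) (nat_lit 20) (.e (nat_lit 114715) (nat_lit 22) (.e (nat_lit 90170) (nat_lit 13) (.e (nat_lit 172065) (nat_lit 3) (.e (nat_lit 204830) (nat_lit 18) (.e (nat_lit 57685) (nat_lit 156) .nil))))))) (.g (nat_lit 1) (.e (nat_lit 149092) (nat_lit 0) .nil) .nil))) 
(.lf (nat_lit 493326) (.g (nat_lit 3899) (.e (nat_lit 163874) (nat_lit 3) (.e (nat_lit 204861) (nat_lit 26) (.e (nat_lit 336077) (nat_lit 9) (.e (nat_lit 336454) (nat_lit 34) (.e (nat_lit 483365) (nat_lit 18) (.e (nat_lit 57931) (nat_lit 282) .nil)))))) (.g (nat_lit 1) (.e (nat_lit 149902) (nat_lit 0) .nil) .nil))))) (.nd (nat_lit 8) (.nd (nat_lit 9) 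
(.lf (nat_lit 492686) (.g (nat_lit 3019) (.e (nat_lit 163873) (nat_lit 3) (.e (nat_lit 204813) (nat_lit 9) (.e (nat_lit 426199) (nat_lit 9) (.e (nat_lit 426480) (nat_lit 27) (.e (nat_lit 336388) (nat_lit 27) (.e (nat_lit 426107) (nat_lit 1) (.e (nat_lit 164325) (nat_lit 230) .nil))))))) (.g (nat_lit 1) (.e (nat_lit 148781) (nat_lit 0) .nil) .nil))) 
(.lf (nat_lit 493198) (.g (nat_lit 2077) (.e (nat_lit 163874) (nat_lit 3) (.e (nat_lit 204838) (nat_lit 20) (.e (nat_lit 114716) (nat_lit 22) (.e (nat_lit 90185) (nat_lit 17) (.e (nat_lit 237594) (nat_lit 3) (.e (nat_lit 204830) (nat_lit 18) (.e (nat_lit 57689) (nat_lit 156) .nil))))))) (.g (nat_lit 1) (.e (nat_lit 149635) (nat_lit 0) .nil) .nil)))) (.nd (nat_lit 9) 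
(.lf (nat_lit 492942) (.g (nat_lit 2049) (.e (nat_lit 163874) (nat_lit 3) (.e (nat_lit 204809) (nat_lit 9) (.e (nat_lit 426189) (nat_lit 9) (.e (nat_lit 426566) (nat_lit 34) (.e (nat_lit 393252) (nat_lit 18) (.e (nat_lit 164330) (nat_lit 230) .nil)))))) (.g (nat_lit 1) (.e (nat_lit 149264) (nat_lit 0) .nil) .nil))) 
(.lf (nat_lit 493454) (.g (nat_lit 2913) (.e (nat_lit 163875) (nat_lit 3) (.e (nat_lit 204809) (nat_lit 9) (.e (nat_lit 426188) (nat_lit 9) (.e (nat_lit 426568) (nat_lit 34) (.e (nat_lit 393253) (nat_lit 18) (.e (nat_lit 164325) (nat_lit 230) .nil)))))) (.g (nat_lit 1) (.e (nat_lit 150146) (nat_lit 0) .nil) .nil)))))) (.nd (nat_lit 7) (.nd (nat_lit 8) (.nd (nat_lit 9) 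
(.lf (nat_lit 492622) (.g (nat_lit 4566) (.e (nat_lit 163873) (nat_lit 3) (.e (nat_lit 204813) (nat_lit 9) (.e (nat_lit 426197) (nat_lit 9) (.e (nat_lit 426566) (nat_lit 34) (.e (nat_lit 393253) (nat_lit 18) (.e (nat_lit 164322) (nat_lit 230) .nil)))))) (.g (nat_lit 1) (.e (nat_lit 148702) (nat_lit 0) .nil) .nil))) 
(.lf (nat_lit 493134) (.g (nat_lit 3889) (.e (nat_lit 163874) (nat_lit 3) (.e (nat_lit 204837) (nat_lit 20) (.e (nat_lit 114719) (nat_lit 23) (.e (nat_lit 98367) (nat_lit 27) (.e (nat_lit 434231) (nat_lit 23) (.e (nat_lit 532499) (nat_lit 1) (.e (nat_lit 57691) (nat_lit 156) .nil))))))) (.g (nat_lit 1) (.e (nat_lit 149571) (nat_lit 0) .nil) .nil)))) (.nd (nat_lit 9) 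
(.lf (nat_lit 492878) (.g (nat_lit 3584) (.e (nat_lit 163873) (nat_lit 3) (.e (nat_lit 204854) (nat_lit 26) (.e (nat_lit 336019) (nat_lit 3) (.e (nat_lit 98342) (nat_lit 20) (.e (nat_lit 221215) (nat_lit 23) (.e (nat_lit 204829) (nat_lit 18) (.e (nat_lit 57927) (nat_lit 282) .nil))))))) (.g (nat_lit 1) (.e (nat_lit 149159) (nat_lit 0) .nil) .nil))) 
(.lf (nat_lit 493390) (.g (nat_lit 983) (.e (nat_lit 163874) (nat_lit 3) (.e (nat_lit 204863) (nat_lit 27) (.e (nat_lit 344131) (nat_lit 26) .nil))) (.g (nat_lit 0) (.e (nat_lit 149975) (nat_lit 0) .nil) .nil))))) (.nd (nat_lit 8) (.nd (nat_lit 9) 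
(.lf (nat_lit 492750) (.g (nat_lit 2211) (.e (nat_lit 163873) (nat_lit 3) (.e (nat_lit 204813) (nat_lit 9) (.e (nat_lit 426200) (nat_lit 9) (.e (nat_lit 426484) (nat_lit 27) (.e (nat_lit 336406) (nat_lit 27) (.e (nat_lit 426098) (nat_lit 1) (.e (nat_lit 164327) (nat_lit 230) .nil))))))) (.g (nat_lit 1) (.e (nat_lit 148857) (nat_lit 0) .nil) .nil))) 
(.lf (nat_lit 493262) (.g (nat_lit 2355) (.e (nat_lit 163874) (nat_lit 3) (.e (nat_lit 204853) (nat_lit 26) (.e (nat_lit 336019) (nat_lit 3) (.e (nat_lit 98342) (nat_lit 20) (.e (nat_lit 221215) (nat_lit 23) (.e (nat_lit 204828) (nat_lit 18) (.e (nat_lit 57927) (nat_lit 282) .nil))))))) (.g (nat_lit 1) (.e (nat_lit 149768) (nat_lit 0) .nil) .nil)))) (.nd (nat_lit 9) 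
(.lf (nat_lit 493006) (.g (nat_lit 2399) (.e (nat_lit 163874) (nat_lit 3) (.e (nat_lit 204813) (nat_lit 9) (.e (nat_lit 426198) (nat_lit 9) (.e (nat_lit 426568) (nat_lit 34) (.e (nat_lit 393252) (nat_lit 18) (.e (nat_lit 164330) (nat_lit 230) .nil)))))) (.g (nat_lit 1) (.e (nat_lit 149374) (nat_lit 0) .nil) .nil))) 
(.lf (nat_lit 493518) (.g (nat_lit 2301) (.e (nat_lit 163875) (nat_lit 3) (.e (nat_lit 204813) (nat_lit 9) (.e (nat_lit 426199) (nat_lit 9) (.e (nat_lit 426566) (nat_lit 34) (.e (nat_lit 393251) (nat_lit 18) (.e (nat_lit 164325) (nat_lit 230) .nil)))))) (.g (nat_lit 1) (.e (nat_lit 150288) (nat_lit 0) .nil) .nil))))))) (.nd (nat_lit 6) (.nd (nat_lit 7) (.nd (nat_lit 8) (.nd (nat_lit 9) 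
(.lf (nat_lit 492590) (.g (nat_lit 4918) (.e (nat_lit 163873) (nat_lit 3) (.e (nat_lit 204813) (nat_lit 9) (.e (nat_lit 426189) (nat_lit 9) (.e (nat_lit 426566) (nat_lit 34) (.e (nat_lit 393254) (nat_lit 18) (.e (nat_lit 164322) (nat_lit 230) .nil)))))) (.g (nat_lit 1) (.e (nat_lit 148669) (nat_lit 0) .nil) .nil))) 
(.lf (nat_lit 493102) (.g (nat_lit 2614) (.e (nat_lit 163874) (nat_lit 3) (.e (nat_lit 204837) (nat_lit 20) (.e (nat_lit 114718) (nat_lit 23) (.e (nat_lit 98367) (nat_lit 27) (.e (nat_lit 434232) (nat_lit 23) (.e (nat_lit 532501) (nat_lit 1) (.e (nat_lit 57692) (nat_lit 156) .nil))))))) (.g (nat_lit 1) (.e (nat_lit 149539) (nat_lit 0) .nil) .nil)))) (.nd (nat_lit 9) 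
(.lf (nat_lit 492846) (.g (nat_lit 2146) (.e (nat_lit 163873) (nat_lit 3) (.e (nat_lit 204838) (nat_lit 20) (.e (nat_lit 114719) (nat_lit 23) (.e (nat_lit 98366) (nat_lit 27) (.e (nat_lit 434233) (nat_lit 23) (.e (nat_lit 532503) (nat_lit 1) (.e (nat_lit 57688) (nat_lit 156) .nil))))))) (.g (nat_lit 1) (.e (nat_lit 149124) (nat_lit 0) .nil) .nil))) 
(.lf (nat_lit 493358) (.g (nat_lit 1852) (.e (nat_lit 163874) (nat_lit 3) (.e (nat_lit 204862) (nat_lit 27) (.e (nat_lit 344130) (nat_lit 26) (.e (nat_lit 557097) (nat_lit 13) (.e (nat_lit 179968) (nat_lit 18) .nil))))) (.g (nat_lit 0) (.e (nat_lit 149943) (nat_lit 0) .nil) .nil))))) (.nd (nat_lit 8) (.nd (nat_lit 9) 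
(.lf (nat_lit 492718) (.g (nat_lit 5080) (.e (nat_lit 163873) (nat_lit 3) (.e (nat_lit 204813) (nat_lit 9) (.e (nat_lit 426199) (nat_lit 9) (.e (nat_lit 426566) (nat_lit 34) (.e (nat_lit 393253) (nat_lit 18) (.e (nat_lit 164330) (nat_lit 230) .nil)))))) (.g (nat_lit 1) (.e (nat_lit 148819) (nat_lit 0) .nil) .nil))) 
(.lf (nat_lit 493230) (.g (nat_lit 2045) (.e (nat_lit 163874) (nat_lit 3) (.e (nat_lit 204838) (nat_lit 20) (.e (nat_lit 114719) (nat_lit 23) (.e (nat_lit 98367) (nat_lit 27) (.e (nat_lit 434232) (nat_lit 23) .nil))))) (.g (nat_lit 0) (.e (nat_lit 149667) (nat_lit 0) .nil) .nil)))) (.nd (nat_lit 9) 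
(.lf (nat_lit 492974) (.g (nat_lit 2245) (.e (nat_lit 163874) (nat_lit 3) (.e (nat_lit 204813) (nat_lit 9) (.e (nat_lit 426188) (nat_lit 9) (.e (nat_lit 426564) (nat_lit 34) (.e (nat_lit 393252) (nat_lit 18) (.e (nat_lit 164332) (nat_lit 230) .nil)))))) (.g (nat_lit 1) (.e (nat_lit 149341) (nat_lit 0) .nil) .nil))) 
(.lf (nat_lit 493486) (.g (nat_lit 2179) (.e (nat_lit 163875) (nat_lit 3) (.e (nat_lit 204813) (nat_lit 9) (.e (nat_lit 426188) (nat_lit 9) (.e (nat_lit 426566) (nat_lit 34) (.e (nat_lit 393250) (nat_lit 18) (.e (nat_lit 164327) (nat_lit 230) .nil)))))) (.g (nat_lit 1) (.e (nat_lit 150249) (nat_lit 0) .nil) .nil)))))) (.nd (nat_lit 7) (.nd (nat_lit 8) (.nd (nat_lit 9) 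
(.lf (nat_lit 492654) (.g (nat_lit 3472) (.e (nat_lit 163873) (nat_lit 3) (.e (nat_lit 204813) (nat_lit 9) (.e (nat_lit 426198) (nat_lit 9) (.e (nat_lit 426566) (nat_lit 34) (.e (nat_lit 393253) (nat_lit 18) (.e (nat_lit 164322) (nat_lit 230) .nil)))))) (.g (nat_lit 1) (.e (nat_lit 148749) (nat_lit 0) .nil) .nil))) 
(.lf (nat_lit 493166) (.g (nat_lit 4363) (.e (nat_lit 163874) (nat_lit 3) (.e (nat_lit 204838) (nat_lit 20) (.e (nat_lit 114714) (nat_lit 22) (.e (nat_lit 90174) (nat_lit 14) (.e (nat_lit 180243) (nat_lit 5) (.e (nat_lit 532504) (nat_lit 1) (.e (nat_lit 57690) (nat_lit 156) .nil))))))) (.g (nat_lit 1) (.e (nat_lit 149603) (nat_lit 0) .nil) .nil)))) (.nd (nat_lit 9) 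
(.lf (nat_lit 492910) (.g (nat_lit 2986) (.e (nat_lit 163873) (nat_lit 3) (.e (nat_lit 204861) (nat_lit 26) (.e (nat_lit 336076) (nat_lit 9) (.e (nat_lit 336454) (nat_lit 34) (.e (nat_lit 483364) (nat_lit 18) (.e (nat_lit 57930) (nat_lit 282) .nil)))))) (.g (nat_lit 1) (.e (nat_lit 149197) (nat_lit 0) .nil) .nil))) 
(.lf (nat_lit 493422) (.g (nat_lit 2605) (.e (nat_lit 163874) (nat_lit 3) (.e (nat_lit 204864) (nat_lit 27) (.e (nat_lit 344133) (nat_lit 26) (.e (nat_lit 557103) (nat_lit 14) (.e (nat_lit 180244) (nat_lit 5) (.e (nat_lit 532503) (nat_lit 1) (.e (nat_lit 65280) (nat_lit 168) .nil))))))) (.g (nat_lit 1) (.e (nat_lit 150007) (nat_lit 0) .nil) .nil))))) (.nd (nat_lit 8) (.nd (nat_lit 9) 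
(.lf (nat_lit 492782) (.g (nat_lit 3897) (.e (nat_lit 163873) (nat_lit 3) (.e (nat_lit 204813) (nat_lit 9) (.e (nat_lit 433920) (nat_lit 9) (.e (nat_lit 426566) (nat_lit 34) (.e (nat_lit 393253) (nat_lit 18) (.e (nat_lit 164331) (nat_lit 230) .nil)))))) (.g (nat_lit 1) (.e (nat_lit 148901) (nat_lit 0) .nil) .nil))) 
(.lf (nat_lit 493294) (.g (nat_lit 1084) (.e (nat_lit 163874) (nat_lit 3) (.e (nat_lit 204859) (nat_lit 26) (.e (nat_lit 336017) (nat_lit 3) (.e (nat_lit 98341) (nat_lit 20) .nil)))) (.g (nat_lit 0) (.e (nat_lit 149801) (nat_lit 0) .nil) .nil)))) (.nd (nat_lit 9) 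
(.lf (nat_lit 493038) (.g (nat_lit 3279) (.e (nat_lit 163874) (nat_lit 3) (.e (nat_lit 204836) (nat_lit 20) (.e (nat_lit 114718) (nat_lit 23) (.e (nat_lit 98367) (nat_lit 27) (.e (nat_lit 434231) (nat_lit 23) (.e (nat_lit 532500) (nat_lit 1) (.e (nat_lit 57689) (nat_lit 156) .nil))))))) (.g (nat_lit 1) (.e (nat_lit 149475) (nat_lit 0) .nil) .nil))) 
(.lf (nat_lit 493550) (.g (nat_lit 1472) (.e (nat_lit 163875) (nat_lit 3) (.e (nat_lit 204829) (nat_lit 18) (.e (nat_lit 57847) (nat_lit 252) (.e (nat_lit 57432) (nat_lit 16) .nil)))) (.g (nat_lit 0) (.e (nat_lit 150392) (nat_lit 0) .nil) .nil)))))))) (.nd (nat_lit 5) (.nd (nat_lit 6) (.nd (nat_lit 7) (.nd (nat_lit 8) (.nd (nat_lit 9) 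
(.lf (nat_lit 492574) (.g (nat_lit 3639) (.e (nat_lit 163873) (nat_lit 3) (.e (nat_lit 204813) (nat_lit 9) (.e (nat_lit 426188) (nat_lit 9) (.e (nat_lit 426568) (nat_lit 34) (.e (nat_lit 393252) (nat_lit 18) (.e (nat_lit 164330) (nat_lit 230) .nil)))))) (.g (nat_lit 1) (.e (nat_lit 148653) (nat_lit 0) .nil) .nil))) 
(.lf (nat_lit 493086) (.g (nat_lit 2925) (.e (nat_lit 163874) (nat_lit 3) (.e (nat_lit 204837) (nat_lit 20) (.e (nat_lit 114716) (nat_lit 22) (.e (nat_lit 90174) (nat_lit 14) (.e (nat_lit 180243) (nat_lit 5) (.e (nat_lit 532502) (nat_lit 1) (.e (nat_lit 57688) (nat_lit 156) .nil))))))) (.g (nat_lit 1) (.e (nat_lit 149523) (nat_lit 0) .nil) .nil)))) (.nd (nat_lit 9) 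
(.lf (nat_lit 492830) (.g (nat_lit 3134) (.e (nat_lit 163873) (nat_lit 3) (.e (nat_lit 204838) (nat_lit 20) (.e (nat_lit 114718) (nat_lit 23) (.e (nat_lit 98367) (nat_lit 27) (.e (nat_lit 434232) (nat_lit 23) (.e (nat_lit 532499) (nat_lit 1) (.e (nat_lit 57688) (nat_lit 156) .nil))))))) (.g (nat_lit 1) (.e (nat_lit 149108) (nat_lit 0) .nil) .nil))) 
(.lf (nat_lit 493342) (.g (nat_lit 2819) (.e (nat_lit 163874) (nat_lit 3) (.e (nat_lit 204861) (nat_lit 26) (.e (nat_lit 336222) (nat_lit 13) (.e (nat_lit 393229) (nat_lit 9) (.e (nat_lit 335995) (nat_lit 1) (.e (nat_lit 57931) (nat_lit 282) .nil)))))) (.g (nat_lit 1) (.e (nat_lit 149927) (nat_lit 0) .nil) .nil))))) (.nd (nat_lit 8) (.nd (nat_lit 9) 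
(.lf (nat_lit 492702) (.g (nat_lit 2962) (.e (nat_lit 163873) (nat_lit 3) (.e (nat_lit 204813) (nat_lit 9) (.e (nat_lit 426199) (nat_lit 9) (.e (nat_lit 426509) (nat_lit 27) (.e (nat_lit 336389) (nat_lit 27) (.e (nat_lit 426098) (nat_lit 1) (.e (nat_lit 164325) (nat_lit 230) .nil))))))) (.g (nat_lit 1) (.e (nat_lit 148803) (nat_lit 0) .nil) .nil))) 
(.lf (nat_lit 493214) (.g (nat_lit 2505) (.e (nat_lit 163874) (nat_lit 3) (.e (nat_lit 204838) (nat_lit 20) (.e (nat_lit 114718) (nat_lit 23) (.e (nat_lit 98367) (nat_lit 27) (.e (nat_lit 434234) (nat_lit 23) (.e (nat_lit 532503) (nat_lit 1) (.e (nat_lit 57688) (nat_lit 156) .nil))))))) (.g (nat_lit 1) (.e (nat_lit 149651) (nat_lit 0) .nil) .nil)))) (.nd (nat_lit 9) 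
(.lf (nat_lit 492958) (.g (nat_lit 3408) (.e (nat_lit 163874) (nat_lit 3) (.e (nat_lit 204809) (nat_lit 9) (.e (nat_lit 426200) (nat_lit 9) (.e (nat_lit 426568) (nat_lit 34) (.e (nat_lit 393251) (nat_lit 18) (.e (nat_lit 164332) (nat_lit 230) .nil)))))) (.g (nat_lit 1) (.e (nat_lit 149280) (nat_lit 0) .nil) .nil))) 
(.lf (nat_lit 493470) (.g (nat_lit 3314) (.e (nat_lit 163875) (nat_lit 3) (.e (nat_lit 204809) (nat_lit 9) (.e (nat_lit 426200) (nat_lit 9) (.e (nat_lit 426568) (nat_lit 34) (.e (nat_lit 393253) (nat_lit 18) (.e (nat_lit 164325) (nat_lit 230) .nil)))))) (.g (nat_lit 1) (.e (nat_lit 150162) (nat_lit 0) .nil) .nil)))))) (.nd (nat_lit 7) (.nd (nat_lit 8) (.nd (nat_lit 9) 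
(.lf (nat_lit 492638) (.g (nat_lit 3743) (.e (nat_lit 163873) (nat_lit 3) (.e (nat_lit 204813) (nat_lit 9) (.e (nat_lit 426197) (nat_lit 9) (.e (nat_lit 426568) (nat_lit 34) (.e (nat_lit 393253) (nat_lit 18) (.e (nat_lit 164329) (nat_lit 230) .nil)))))) (.g (nat_lit 1) (.e (nat_lit 148718) (nat_lit 0) .nil) .nil))) 
(.lf (nat_lit 493150) (.g (nat_lit 2689) (.e (nat_lit 163874) (nat_lit 3) (.e (nat_lit 204837) (nat_lit 20) (.e (nat_lit 114719) (nat_lit 23) (.e (nat_lit 98367) (nat_lit 27) (.e (nat_lit 434234) (nat_lit 23) (.e (nat_lit 532502) (nat_lit 1) (.e (nat_lit 57692) (nat_lit 156) .nil))))))) (.g (nat_lit 1) (.e (nat_lit 149587) (nat_lit 0) .nil) .nil)))) (.nd (nat_lit 9) 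
(.lf (nat_lit 492894) (.g (nat_lit 2098) (.e (nat_lit 163873) (nat_lit 3) (.e (nat_lit 204861) (nat_lit 26) (.e (nat_lit 336076) (nat_lit 9) (.e (nat_lit 336366) (nat_lit 27) (.e (nat_lit 426501) (nat_lit 27) (.e (nat_lit 335988) (nat_lit 1) (.e (nat_lit 57927) (nat_lit 282) .nil))))))) (.g (nat_lit 1) (.e (nat_lit 149179) (nat_lit 0) .nil) .nil))) 
(.lf (nat_lit 493406) (.g (nat_lit 1565) (.e (nat_lit 163874) (nat_lit 3) (.e (nat_lit 204864) (nat_lit 27) (.e (nat_lit 344117) (nat_lit 21) (.e (nat_lit 516123) (nat_lit 2) .nil)))) (.g (nat_lit 0) (.e (nat_lit 149991) (nat_lit 0) .nil) .nil))))) (.nd (nat_lit 8) (.nd (nat_lit 9) 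
(.lf (nat_lit 492766) (.g (nat_lit 3789) (.e (nat_lit 163873) (nat_lit 3) (.e (nat_lit 204813) (nat_lit 9) (.e (nat_lit 426200) (nat_lit 9) (.e (nat_lit 426568) (nat_lit 34) (.e (nat_lit 393251) (nat_lit 18) (.e (nat_lit 164327) (nat_lit 230) .nil)))))) (.g (nat_lit 1) (.e (nat_lit 148883) (nat_lit 0) .nil) .nil))) 
(.lf (nat_lit 493278) (.g (nat_lit 4641) (.e (nat_lit 163874) (nat_lit 3) (.e (nat_lit 204854) (nat_lit 26) (.e (nat_lit 336019) (nat_lit 3) (.e (nat_lit 98342) (nat_lit 20) (.e (nat_lit 221214) (nat_lit 23) (.e (nat_lit 204829) (nat_lit 18) (.e (nat_lit 57927) (nat_lit 282) .nil))))))) (.g (nat_lit 1) (.e (nat_lit 149784) (nat_lit 0) .nil) .nil)))) (.nd (nat_lit 9) 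
(.lf (nat_lit 493022) (.g (nat_lit 3348) (.e (nat_lit 163874) (nat_lit 3) (.e (nat_lit 204813) (nat_lit 9) (.e (nat_lit 426200) (nat_lit 9) (.e (nat_lit 426566) (nat_lit 34) (.e (nat_lit 393254) (nat_lit 18) (.e (nat_lit 164324) (nat_lit 230) .nil)))))) (.g (nat_lit 1) (.e (nat_lit 149390) (nat_lit 0) .nil) .nil))) 
(.lf (nat_lit 493534) (.g (nat_lit 4083) (.e (nat_lit 163875) (nat_lit 3) (.e (nat_lit 204813) (nat_lit 9) (.e (nat_lit 426200) (nat_lit 9) (.e (nat_lit 426566) (nat_lit 34) (.e (nat_lit 393253) (nat_lit 18) (.e (nat_lit 164327) (nat_lit 230) .nil)))))) (.g (nat_lit 1) (.e (nat_lit 150311) (nat_lit 0) .nil) .nil))))))) (.nd (nat_lit 6) (.nd (nat_lit 7) (.nd (nat_lit 8) (.nd (nat_lit 9) 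
(.lf (nat_lit 492606) (.g (nat_lit 5204) (.e (nat_lit 163873) (nat_lit 3) (.e (nat_lit 204813) (nat_lit 9) (.e (nat_lit 426196) (nat_lit 9) (.e (nat_lit 426566) (nat_lit 34) (.e (nat_lit 393253) (nat_lit 18) (.e (nat_lit 164324) (nat_lit 230) .nil)))))) (.g (nat_lit 1) (.e (nat_lit 148685) (nat_lit 0) .nil) .nil))) 
(.lf (nat_lit 493118) (.g (nat_lit 4307) (.e (nat_lit 163874) (nat_lit 3) (.e (nat_lit 204837) (nat_lit 20) (.e (nat_lit 114719) (nat_lit 23) (.e (nat_lit 98356) (nat_lit 26) (.e (nat_lit 426438) (nat_lit 18) (.e (nat_lit 98335) (nat_lit 18) (.e (nat_lit 164330) (nat_lit 230) .nil))))))) (.g (nat_lit 1) (.e (nat_lit 149555) (nat_lit 0) .nil) .nil)))) (.nd (nat_lit 9) 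
(.lf (nat_lit 492862) (.g (nat_lit 3230) (.e (nat_lit 163873) (nat_lit 3) (.e (nat_lit 204851) (nat_lit 26) (.e (nat_lit 336019) (nat_lit 3) (.e (nat_lit 98342) (nat_lit 20) (.e (nat_lit 221215) (nat_lit 23) (.e (nat_lit 204830) (nat_lit 18) (.e (nat_lit 57927) (nat_lit 282) .nil))))))) (.g (nat_lit 1) (.e (nat_lit 149140) (nat_lit 0) .nil) .nil))) 
(.lf (nat_lit 493374) (.g (nat_lit 2015) (.e (nat_lit 163874) (nat_lit 3) (.e (nat_lit 204863) (nat_lit 27) (.e (nat_lit 344117) (nat_lit 21) (.e (nat_lit 516130) (nat_lit 3) (.e (nat_lit 221198) (nat_lit 20) .nil))))) (.g (nat_lit 0) (.e (nat_lit 149959) (nat_lit 0) .nil) .nil))))) (.nd (nat_lit 8) (.nd (nat_lit 9) 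
(.lf (nat_lit 492734) (.g (nat_lit 4048) (.e (nat_lit 163873) (nat_lit 3) (.e (nat_lit 204813) (nat_lit 9) (.e (nat_lit 426199) (nat_lit 9) (.e (nat_lit 426568) (nat_lit 34) (.e (nat_lit 393253) (nat_lit 18) (.e (nat_lit 164331) (nat_lit 230) .nil)))))) (.g (nat_lit 1) (.e (nat_lit 148835) (nat_lit 0) .nil) .nil))) 
(.lf (nat_lit 493246) (.g (nat_lit 2941) (.e (nat_lit 163874) (nat_lit 3) (.e (nat_lit 204851) (nat_lit 26) (.e (nat_lit 336019) (nat_lit 3) (.e (nat_lit 98341) (nat_lit 20) (.e (nat_lit 221215) (nat_lit 23) (.e (nat_lit 204830) (nat_lit 18) (.e (nat_lit 57927) (nat_lit 282) .nil))))))) (.g (nat_lit 1) (.e (nat_lit 149690) (nat_lit 0) .nil) .nil)))) (.nd (nat_lit 9) 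
(.lf (nat_lit 492990) (.g (nat_lit 3860) (.e (nat_lit 163874) (nat_lit 3) (.e (nat_lit 204813) (nat_lit 9) (.e (nat_lit 426189) (nat_lit 9) (.e (nat_lit 426566) (nat_lit 34) (.e (nat_lit 393253) (nat_lit 18) (.e (nat_lit 164332) (nat_lit 230) .nil)))))) (.g (nat_lit 1) (.e (nat_lit 149357) (nat_lit 0) .nil) .nil))) 
(.lf (nat_lit 493502) (.g (nat_lit 3136) (.e (nat_lit 163875) (nat_lit 3) (.e (nat_lit 204813) (nat_lit 9) (.e (nat_lit 426198) (nat_lit 9) (.e (nat_lit 426530) (nat_lit 27) (.e (nat_lit 336390) (nat_lit 27) (.e (nat_lit 426098) (nat_lit 1) (.e (nat_lit 164325) (nat_lit 230) .nil))))))) (.g (nat_lit 1) (.e (nat_lit 150272) (nat_lit 0) .nil) .nil)))))) 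
(.nd (nat_lit 7) (.nd (nat_lit 8) (.nd (nat_lit 9) 
(.lf (nat_lit 492670) (.g (nat_lit 3621) (.e (nat_lit 163873) (nat_lit 3) (.e (nat_lit 204813) (nat_lit 9) (.e (nat_lit 426198) (nat_lit 9) (.e (nat_lit 426568) (nat_lit 34) (.e (nat_lit 393253) (nat_lit 18) (.e (nat_lit 164324) (nat_lit 230) .nil)))))) (.g (nat_lit 1) (.e (nat_lit 148765) (nat_lit 0) .nil) .nil))) 
(.lf (nat_lit 493182) (.g (nat_lit 4322) (.e (nat_lit 163874) (nat_lit 3) (.e (nat_lit 204838) (nat_lit 20) (.e (nat_lit 114715) (nat_lit 22) (.e (nat_lit 90170) (nat_lit 13) (.e (nat_lit 172067) (nat_lit 3) (.e (nat_lit 204830) (nat_lit 18) (.e (nat_lit 57691) (nat_lit 156) .nil))))))) (.g (nat_lit 1) (.e (nat_lit 149619) (nat_lit 0) .nil) .nil)))) (.nd (nat_lit 9) 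
(.lf (nat_lit 492926) (.g (nat_lit 3062) (.e (nat_lit 163873) (nat_lit 3) (.e (nat_lit 204865) (nat_lit 28) (.e (nat_lit 352277) (nat_lit 11) (.e (nat_lit 426500) (nat_lit 27) (.e (nat_lit 335996) (nat_lit 1) (.e (nat_lit 57929) (nat_lit 282) .nil)))))) (.g (nat_lit 1) (.e (nat_lit 149216) (nat_lit 0) .nil) .nil))) 
(.lf (nat_lit 493438) (.g (nat_lit 2764) (.e (nat_lit 163874) (nat_lit 3) (.e (nat_lit 204876) (nat_lit 31) (.e (nat_lit 376842) (nat_lit 11) (.e (nat_lit 426497) (nat_lit 27) (.e (nat_lit 335986) (nat_lit 1) (.e (nat_lit 57927) (nat_lit 282) .nil)))))) (.g (nat_lit 1) (.e (nat_lit 150086) (nat_lit 0) .nil) .nil))))) (.nd (nat_lit 8) (.nd (nat_lit 9) 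
(.lf (nat_lit 492798) (.g (nat_lit 2655) (.e (nat_lit 163873) (nat_lit 3) (.e (nat_lit 204837) (nat_lit 20) (.e (nat_lit 114718) (nat_lit 23) (.e (nat_lit 98367) (nat_lit 27) (.e (nat_lit 434234) (nat_lit 23) (.e (nat_lit 532503) (nat_lit 1) (.e (nat_lit 57688) (nat_lit 156) .nil))))))) (.g (nat_lit 1) (.e (nat_lit 149076) (nat_lit 0) .nil) .nil))) 
(.lf (nat_lit 493310) (.g (nat_lit 1290) (.e (nat_lit 163874) (nat_lit 3) (.e (nat_lit 204861) (nat_lit 26) (.e (nat_lit 336076) (nat_lit 9) (.e (nat_lit 336374) (nat_lit 27) .nil)))) (.g (nat_lit 0) (.e (nat_lit 149871) (nat_lit 0) .nil) .nil)))) (.nd (nat_lit 9) 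
(.lf (nat_lit 493054) (.g (nat_lit 3650) (.e (nat_lit 163874) (nat_lit 3) (.e (nat_lit 204837) (nat_lit 20) (.e (nat_lit 114714) (nat_lit 22) (.e (nat_lit 90174) (nat_lit 14) (.e (nat_lit 180243) (nat_lit 5) (.e (nat_lit 532502) (nat_lit 1) (.e (nat_lit 57688) (nat_lit 156) .nil))))))) (.g (nat_lit 1) (.e (nat_lit 149491) (nat_lit 0) .nil) .nil))) 
(.lf (nat_lit 493566) (.g (nat_lit 3758) (.e (nat_lit 163875) (nat_lit 3) (.e (nat_lit 204830) (nat_lit 18) (.e (nat_lit 57852) (nat_lit 252) (.e (nat_lit 57419) (nat_lit 12) (.e (nat_lit 336021) (nat_lit 3) (.e (nat_lit 98356) (nat_lit 26) (.e (nat_lit 426422) (nat_lit 16) (.e (nat_lit 57692) (nat_lit 156) .nil)))))))) (.g (nat_lit 1) (.e (nat_lit 150408) (nat_lit 0) .nil) .nil)))))))))))) 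
(.nd (nat_lit 1) (.nd (nat_lit 2) (.nd (nat_lit 3) (.nd (nat_lit 4) (.nd (nat_lit 5) 
(.nd (nat_lit 6) (.nd (nat_lit 7) (.nd (nat_lit 8) (.nd (nat_lit 9) 
(.lf (nat_lit 492545) (.g (nat_lit 5054) (.e (nat_lit 163873) (nat_lit 3) (.e (nat_lit 204813) (nat_lit 9) (.e (nat_lit 426187) (nat_lit 9) (.e (nat_lit 426566) (nat_lit 34) (.e (nat_lit 393253) (nat_lit 18) (.e (nat_lit 164331) (nat_lit 230) .nil)))))) (.g (nat_lit 1) (.e (nat_lit 148620) (nat_lit 0) .nil) .nil))) 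
(.lf (nat_lit 493057) (.g (nat_lit 3444) (.e (nat_lit 163874) (nat_lit 3) (.e (nat_lit 204837) (nat_lit 20) (.e (nat_lit 114714) (nat_lit 22) (.e (nat_lit 90174) (nat_lit 14) (.e (nat_lit 180243) (nat_lit 5) (.e (nat_lit 532503) (nat_lit 1) (.e (nat_lit 57691) (nat_lit 156) .nil))))))) (.g (nat_lit 1) (.e (nat_lit 149494) (nat_lit 0) .nil) .nil)))) (.nd (nat_lit 9) 
(.lf (nat_lit 492801) (.g (nat_lit 2874) (.e (nat_lit 163873) (nat_lit 3) (.e (nat_lit 204837) (nat_lit 20) (.e (nat_lit 114719) (nat_lit 23) (.e (nat_lit 98363) (nat_lit 26) (.e (nat_lit 426129) (nat_lit 3) (.e (nat_lit 204829) (nat_lit 18) (.e (nat_lit 57688) (nat_lit 156) .nil))))))) (.g (nat_lit 1) (.e (nat_lit 149079) (nat_lit 0) .nil) .nil))) 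
(.lf (nat_lit 493313) (.g (nat_lit 1263) (.e (nat_lit 163874) (nat_lit 3) (.e (nat_lit 204861) (nat_lit 26) (.e (nat_lit 336076) (nat_lit 9) (.e (nat_lit 336377) (nat_lit 27) .nil)))) (.g (nat_lit 0) (.e (nat_lit 149874) (nat_lit 0) .nil) .nil))))) (.nd (nat_lit 8) (.nd (nat_lit 9) 
(.lf (nat_lit 492673) (.g (nat_lit 3480) (.e (nat_lit 163873) (nat_lit 3) (.e (nat_lit 204813) (nat_lit 9) (.e (nat_lit 426198) (nat_lit 9) (.e (nat_lit 426568) (nat_lit 34) (.e (nat_lit 393253) (nat_lit 18) (.e (nat_lit 164327) (nat_lit 230) .nil)))))) (.g (nat_lit 1) (.e (nat_lit 148768) (nat_lit 0) .nil) .nil))) 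
(.lf (nat_lit 493185) (.g (nat_lit 2157) (.e (nat_lit 163874) (nat_lit 3) (.e (nat_lit 204838) (nat_lit 20) (.e (nat_lit 114715) (nat_lit 22) (.e (nat_lit 90174) (nat_lit 14) (.e (nat_lit 180243) (nat_lit 5) (.e (nat_lit 532501) (nat_lit 1) (.e (nat_lit 57691) (nat_lit 156) .nil))))))) (.g (nat_lit 1) (.e (nat_lit 149622) (nat_lit 0) .nil) .nil)))) (.nd (nat_lit 9) 
(.lf (nat_lit 492929) (.g (nat_lit 539) (.e (nat_lit 163873) (nat_lit 3) (.e (nat_lit 204866) (nat_lit 28) (.e (nat_lit 360192) (nat_lit 18) .nil))) (.g (nat_lit 0) (.e (nat_lit 149219) (nat_lit 0) .nil) .nil))) 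
(.lf (nat_lit 493441) (.g (nat_lit 3120) (.e (nat_lit 163874) (nat_lit 3) (.e (nat_lit 204876) (nat_lit 31) (.e (nat_lit 376842) (nat_lit 11) (.e (nat_lit 426500) (nat_lit 27) (.e (nat_lit 335988) (nat_lit 1) (.e (nat_lit 57926) (nat_lit 282) .nil)))))) (.g (nat_lit 1) (.e (nat_lit 150089) (nat_lit 0) .nil) .nil)))))) (.nd (nat_lit 7) (.nd (nat_lit 8) (.nd (nat_lit 9) 
(.lf (nat_lit 492609) (.g (nat_lit 5443) (.e (nat_lit 163873) (nat_lit 3) (.e (nat_lit 204813) (nat_lit 9) (.e (nat_lit 426196) (nat_lit 9) (.e (nat_lit 426566) (nat_lit 34) (.e (nat_lit 393253) (nat_lit 18) (.e (nat_lit 164327) (nat_lit 230) .nil)))))) (.g (nat_lit 1) (.e (nat_lit 148688) (nat_lit 0) .nil) .nil))) 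
(.lf (nat_lit 493121) (.g (nat_lit 2684) (.e (nat_lit 163874) (nat_lit 3) (.e (nat_lit 204837) (nat_lit 20) (.e (nat_lit 114719) (nat_lit 23) (.e (nat_lit 98363) (nat_lit 26) (.e (nat_lit 426129) (nat_lit 3) (.e (nat_lit 204830) (nat_lit 18) (.e (nat_lit 57692) (nat_lit 156) .nil))))))) (.g (nat_lit 1) (.e (nat_lit 149558) (nat_lit 0) .nil) .nil)))) (.nd (nat_lit 9) 
(.lf (nat_lit 492865) (.g (nat_lit 2106) (.e (nat_lit 163873) (nat_lit 3) (.e (nat_lit 204853) (nat_lit 26) (.e (nat_lit 336019) (nat_lit 3) (.e (nat_lit 98341) (nat_lit 20) (.e (nat_lit 221215) (nat_lit 23) (.e (nat_lit 204830) (nat_lit 18) (.e (nat_lit 57929) (nat_lit 282) .nil))))))) (.g (nat_lit 1) (.e (nat_lit 149146) (nat_lit 0) .nil) .nil))) 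
(.lf (nat_lit 493377) (.g (nat_lit 2731) (.e (nat_lit 163874) (nat_lit 3) (.e (nat_lit 204863) (nat_lit 27) (.e (nat_lit 344118) (nat_lit 21) (.e (nat_lit 516129) (nat_lit 3) (.e (nat_lit 221214) (nat_lit 23) (.e (nat_lit 204829) (nat_lit 18) (.e (nat_lit 57927) (nat_lit 282) .nil))))))) (.g (nat_lit 1) (.e (nat_lit 149962) (nat_lit 0) .nil) .nil))))) (.nd (nat_lit 8) (.nd (nat_lit 9) 
(.lf (nat_lit 492737) (.g (nat_lit 2461) (.e (nat_lit 163873) (nat_lit 3) (.e (nat_lit 204813) (nat_lit 9) (.e (nat_lit 426200) (nat_lit 9) (.e (nat_lit 426478) (nat_lit 27) (.e (nat_lit 336385) (nat_lit 27) (.e (nat_lit 426098) (nat_lit 1) (.e (nat_lit 164327) (nat_lit 230) .nil))))))) (.g (nat_lit 1) (.e (nat_lit 148838) (nat_lit 0) .nil) .nil))) 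
(.lf (nat_lit 493249) (.g (nat_lit 4180) (.e (nat_lit 163874) (nat_lit 3) (.e (nat_lit 204851) (nat_lit 26) (.e (nat_lit 336019) (nat_lit 3) (.e (nat_lit 98342) (nat_lit 20) (.e (nat_lit 221214) (nat_lit 23) (.e (nat_lit 204829) (nat_lit 18) (.e (nat_lit 57927) (nat_lit 282) .nil))))))) (.g (nat_lit 1) (.e (nat_lit 149693) (nat_lit 0) .nil) .nil)))) (.nd (nat_lit 9) 
(.lf (nat_lit 492993) (.g (nat_lit 3559) (.e (nat_lit 163874) (nat_lit 3) (.e (nat_lit 204813) (nat_lit 9) (.e (nat_lit 426190) (nat_lit 9) (.e (nat_lit 426566) (nat_lit 34) (.e (nat_lit 393253) (nat_lit 18) (.e (nat_lit 164324) (nat_lit 230) .nil)))))) (.g (nat_lit 1) (.e (nat_lit 149360) (nat_lit 0) .nil) .nil))) 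
(.lf (nat_lit 493505) (.g (nat_lit 2114) (.e (nat_lit 163875) (nat_lit 3) (.e (nat_lit 204813) (nat_lit 9) (.e (nat_lit 426198) (nat_lit 9) (.e (nat_lit 426566) (nat_lit 34) (.e (nat_lit 393253) (nat_lit 18) (.e (nat_lit 164326) (nat_lit 230) .nil)))))) (.g (nat_lit 1) (.e (nat_lit 150275) (nat_lit 0) .nil) .nil))))))) (.nd (nat_lit 6) (.nd (nat_lit 7) (.nd (nat_lit 8) (.nd (nat_lit 9) 
(.lf (nat_lit 492577) (.g (nat_lit 3913) (.e (nat_lit 163873) (nat_lit 3) (.e (nat_lit 204813) (nat_lit 9) (.e (nat_lit 426188) (nat_lit 9) (.e (nat_lit 426568) (nat_lit 34) (.e (nat_lit 393253) (nat_lit 18) (.e (nat_lit 164327) (nat_lit 230) .nil)))))) (.g (nat_lit 1) (.e (nat_lit 148656) (nat_lit 0) .nil) .nil))) 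
(.lf (nat_lit 493089) (.g (nat_lit 2950) (.e (nat_lit 163874) (nat_lit 3) (.e (nat_lit 204837) (nat_lit 20) (.e (nat_lit 114718) (nat_lit 23) (.e (nat_lit 98356) (nat_lit 26) (.e (nat_lit 426436) (nat_lit 18) (.e (nat_lit 98334) (nat_lit 18) (.e (nat_lit 164330) (nat_lit 230) .nil))))))) (.g (nat_lit 1) (.e (nat_lit 149526) (nat_lit 0) .nil) .nil)))) (.nd (nat_lit 9) 
(.lf (nat_lit 492833) (.g (nat_lit 2833) (.e (nat_lit 163873) (nat_lit 3) (.e (nat_lit 204838) (nat_lit 20) (.e (nat_lit 114718) (nat_lit 23) (.e (nat_lit 98367) (nat_lit 27) (.e (nat_lit 434234) (nat_lit 23) (.e (nat_lit 532499) (nat_lit 1) (.e (nat_lit 57688) (nat_lit 156) .nil))))))) (.g (nat_lit 1) (.e (nat_lit 149111) (nat_lit 0) .nil) .nil))) 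
(.lf (nat_lit 493345) (.g (nat_lit 2576) (.e (nat_lit 163874) (nat_lit 3) (.e (nat_lit 204862) (nat_lit 27) (.e (nat_lit 344117) (nat_lit 21) (.e (nat_lit 516106) (nat_lit 0) (.e (nat_lit 3721) (nat_lit 227) .nil))))) (.g (nat_lit 0) (.e (nat_lit 149930) (nat_lit 0) .nil) .nil))))) (.nd (nat_lit 8) (.nd (nat_lit 9) 
(.lf (nat_lit 492705) (.g (nat_lit 3164) (.e (nat_lit 163873) (nat_lit 3) (.e (nat_lit 204813) (nat_lit 9) (.e (nat_lit 426199) (nat_lit 9) (.e (nat_lit 426564) (nat_lit 34) (.e (nat_lit 393251) (nat_lit 18) (.e (nat_lit 164331) (nat_lit 230) .nil)))))) (.g (nat_lit 1) (.e (nat_lit 148806) (nat_lit 0) .nil) .nil))) 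
(.lf (nat_lit 493217) (.g (nat_lit 2131) (.e (nat_lit 163874) (nat_lit 3) (.e (nat_lit 204838) (nat_lit 20) (.e (nat_lit 114719) (nat_lit 23) (.e (nat_lit 98363) (nat_lit 26) (.e (nat_lit 426129) (nat_lit 3) .nil))))) (.g (nat_lit 0) (.e (nat_lit 149654) (nat_lit 0) .nil) .nil)))) (.nd (nat_lit 9) 
(.lf (nat_lit 492961) (.g (nat_lit 2706) (.e (nat_lit 163874) (nat_lit 3) (.e (nat_lit 204809) (nat_lit 9) (.e (nat_lit 426200) (nat_lit 9) (.e (nat_lit 426568) (nat_lit 34) (.e (nat_lit 393253) (nat_lit 18) (.e (nat_lit 164325) (nat_lit 230) .nil)))))) (.g (nat_lit 1) (.e (nat_lit 149283) (nat_lit 0) .nil) .nil))) 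
(.lf (nat_lit 493473) (.g (nat_lit 2012) (.e (nat_lit 163875) (nat_lit 3) (.e (nat_lit 204811) (nat_lit 9) (.e (nat_lit 426232) (nat_lit 9) (.e (nat_lit 426565) (nat_lit 34) (.e (nat_lit 393253) (nat_lit 18) (.e (nat_lit 164326) (nat_lit 230) .nil)))))) (.g (nat_lit 1) (.e (nat_lit 150211) (nat_lit 0) .nil) .nil)))))) (.nd (nat_lit 7) (.nd (nat_lit 8) (.nd (nat_lit 9) 
(.lf (nat_lit 492641) (.g (nat_lit 3833) (.e (nat_lit 163873) (nat_lit 3) (.e (nat_lit 204813) (nat_lit 9) (.e (nat_lit 426197) (nat_lit 9) (.e (nat_lit 426568) (nat_lit 34) (.e (nat_lit 393253) (nat_lit 18) (.e (nat_lit 164332) (nat_lit 230) .nil)))))) (.g (nat_lit 1) (.e (nat_lit 148721) (nat_lit 0) .nil) .nil))) 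
(.lf (nat_lit 493153) (.g (nat_lit 2821) (.e (nat_lit 163874) (nat_lit 3) (.e (nat_lit 204837) (nat_lit 20) (.e (nat_lit 114719) (nat_lit 23) (.e (nat_lit 98384) (nat_lit 32) (.e (nat_lit 475177) (nat_lit 24) (.e (nat_lit 516115) (nat_lit 1) (.e (nat_lit 164332) (nat_lit 230) .nil))))))) (.g (nat_lit 1) (.e (nat_lit 149590) (nat_lit 0) .nil) .nil)))) (.nd (nat_lit 9) 
(.lf (nat_lit 492897) (.g (nat_lit 1334) (.e (nat_lit 163873) (nat_lit 3) (.e (nat_lit 204861) (nat_lit 26) (.e (nat_lit 336076) (nat_lit 9) (.e (nat_lit 336372) (nat_lit 27) .nil)))) (.g (nat_lit 0) (.e (nat_lit 149182) (nat_lit 0) .nil) .nil))) 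
(.lf (nat_lit 493409) (.g (nat_lit 2337) (.e (nat_lit 163874) (nat_lit 3) (.e (nat_lit 204864) (nat_lit 27) (.e (nat_lit 344130) (nat_lit 26) (.e (nat_lit 557097) (nat_lit 13) (.e (nat_lit 179968) (nat_lit 18) (.e (nat_lit 98344) (nat_lit 21) (.e (nat_lit 229681) (nat_lit 244) .nil))))))) (.g (nat_lit 1) (.e (nat_lit 149994) (nat_lit 0) .nil) .nil))))) (.nd (nat_lit 8) (.nd (nat_lit 9) 
(.lf (nat_lit 492769) (.g (nat_lit 3529) (.e (nat_lit 163873) (nat_lit 3) (.e (nat_lit 204813) (nat_lit 9) (.e (nat_lit 426200) (nat_lit 9) (.e (nat_lit 426568) (nat_lit 34) (.e (nat_lit 393252) (nat_lit 18) (.e (nat_lit 164330) (nat_lit 230) .nil)))))) (.g (nat_lit 1) (.e (nat_lit 148886) (nat_lit 0) .nil) .nil))) 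
(.lf (nat_lit 493281) (.g (nat_lit 4340) (.e (nat_lit 163874) (nat_lit 3) (.e (nat_lit 204854) (nat_lit 26) (.e (nat_lit 336019) (nat_lit 3) (.e (nat_lit 98342) (nat_lit 20) (.e (nat_lit 221214) (nat_lit 23) (.e (nat_lit 204830) (nat_lit 18) (.e (nat_lit 57931) (nat_lit 282) .nil))))))) (.g (nat_lit 1) (.e (nat_lit 149787) (nat_lit 0) .nil) .nil)))) (.nd (nat_lit 9) 
(.lf (nat_lit 493025) (.g (nat_lit 3369) (.e (nat_lit 163874) (nat_lit 3) (.e (nat_lit 204813) (nat_lit 9) (.e (nat_lit 426200) (nat_lit 9) (.e (nat_lit 426568) (nat_lit 34) (.e (nat_lit 393251) (nat_lit 18) (.e (nat_lit 164325) (nat_lit 230) .nil)))))) (.g (nat_lit 1) (.e (nat_lit 149393) (nat_lit 0) .nil) .nil))) 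
(.lf (nat_lit 493537) (.g (nat_lit 3608) (.e (nat_lit 163875) (nat_lit 3) (.e (nat_lit 204813) (nat_lit 9) (.e (nat_lit 426200) (nat_lit 9) (.e (nat_lit 426568) (nat_lit 34) (.e (nat_lit 393251) (nat_lit 18) (.e (nat_lit 164327) (nat_lit 230) .nil)))))) (.g (nat_lit 1) (.e (nat_lit 150315) (nat_lit 0) .nil) .nil)))))))) 
(.nd (nat_lit 5) (.nd (nat_lit 6) (.nd (nat_lit 7) (.nd (nat_lit 8) (.nd (nat_lit 9) 
(.lf (nat_lit 492561) (.g (nat_lit 3533) (.e (nat_lit 163873) (nat_lit 3) (.e (nat_lit 204813) (nat_lit 9) (.e (nat_lit 426188) (nat_lit 9) (.e (nat_lit 426566) (nat_lit 34) (.e (nat_lit 393252) (nat_lit 18) (.e (nat_lit 164330) (nat_lit 230) .nil)))))) (.g (nat_lit 1) (.e (nat_lit 148639) (nat_lit 0) .nil) .nil))) 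
(.lf (nat_lit 493073) (.g (nat_lit 2234) (.e (nat_lit 163874) (nat_lit 3) (.e (nat_lit 204837) (nat_lit 20) (.e (nat_lit 114715) (nat_lit 22) (.e (nat_lit 90170) (nat_lit 13) (.e (nat_lit 172067) (nat_lit 3) (.e (nat_lit 204830) (nat_lit 18) (.e (nat_lit 57685) (nat_lit 156) .nil))))))) (.g (nat_lit 1) (.e (nat_lit 149510) (nat_lit 0) .nil) .nil)))) (.nd (nat_lit 9) 
(.lf (nat_lit 492817) (.g (nat_lit 4705) (.e (nat_lit 163873) (nat_lit 3) (.e (nat_lit 204838) (nat_lit 20) (.e (nat_lit 114715) (nat_lit 22) (.e (nat_lit 90170) (nat_lit 13) (.e (nat_lit 172067) (nat_lit 3) (.e (nat_lit 204829) (nat_lit 18) (.e (nat_lit 57688) (nat_lit 156) .nil))))))) (.g (nat_lit 1) (.e (nat_lit 149095) (nat_lit 0) .nil) .nil))) 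
(.lf (nat_lit 493329) (.g (nat_lit 3002) (.e (nat_lit 163874) (nat_lit 3) (.e (nat_lit 204861) (nat_lit 26) (.e (nat_lit 336078) (nat_lit 9) (.e (nat_lit 336454) (nat_lit 34) (.e (nat_lit 483365) (nat_lit 18) (.e (nat_lit 57929) (nat_lit 282) .nil)))))) (.g (nat_lit 1) (.e (nat_lit 149905) (nat_lit 0) .nil) .nil))))) (.nd (nat_lit 8) (.nd (nat_lit 9) 
(.lf (nat_lit 492689) (.g (nat_lit 2992) (.e (nat_lit 163873) (nat_lit 3) (.e (nat_lit 204813) (nat_lit 9) (.e (nat_lit 426199) (nat_lit 9) (.e (nat_lit 426481) (nat_lit 27) (.e (nat_lit 336386) (nat_lit 27) (.e (nat_lit 426098) (nat_lit 1) (.e (nat_lit 164325) (nat_lit 230) .nil))))))) (.g (nat_lit 1) (.e (nat_lit 148790) (nat_lit 0) .nil) .nil))) 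
(.lf (nat_lit 493201) (.g (nat_lit 2362) (.e (nat_lit 163874) (nat_lit 3) (.e (nat_lit 204838) (nat_lit 20) (.e (nat_lit 114718) (nat_lit 23) (.e (nat_lit 98366) (nat_lit 27) (.e (nat_lit 434231) (nat_lit 23) (.e (nat_lit 532499) (nat_lit 1) (.e (nat_lit 57691) (nat_lit 156) .nil))))))) (.g (nat_lit 1) (.e (nat_lit 149638) (nat_lit 0) .nil) .nil)))) (.nd (nat_lit 9) 
(.lf (nat_lit 492945) (.g (nat_lit 2460) (.e (nat_lit 163874) (nat_lit 3) (.e (nat_lit 204809) (nat_lit 9) (.e (nat_lit 426190) (nat_lit 9) (.e (nat_lit 426566) (nat_lit 34) (.e (nat_lit 393252) (nat_lit 18) (.e (nat_lit 164330) (nat_lit 230) .nil)))))) (.g (nat_lit 1) (.e (nat_lit 149267) (nat_lit 0) .nil) .nil))) 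
(.lf (nat_lit 493457) (.g (nat_lit 3480) (.e (nat_lit 163875) (nat_lit 3) (.e (nat_lit 204809) (nat_lit 9) (.e (nat_lit 426190) (nat_lit 9) (.e (nat_lit 426566) (nat_lit 34) (.e (nat_lit 393251) (nat_lit 18) (.e (nat_lit 164325) (nat_lit 230) .nil)))))) (.g (nat_lit 1) (.e (nat_lit 150149) (nat_lit 0) .nil) .nil)))))) (.nd (nat_lit 7) (.nd (nat_lit 8) (.nd (nat_lit 9) 
(.lf (nat_lit 492625) (.g (nat_lit 3225) (.e (nat_lit 163873) (nat_lit 3) (.e (nat_lit 204813) (nat_lit 9) (.e (nat_lit 426197) (nat_lit 9) (.e (nat_lit 426566) (nat_lit 34) (.e (nat_lit 393254) (nat_lit 18) (.e (nat_lit 164324) (nat_lit 230) .nil)))))) (.g (nat_lit 1) (.e (nat_lit 148705) (nat_lit 0) .nil) .nil))) 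
(.lf (nat_lit 493137) (.g (nat_lit 4403) (.e (nat_lit 163874) (nat_lit 3) (.e (nat_lit 204837) (nat_lit 20) (.e (nat_lit 114719) (nat_lit 23) (.e (nat_lit 98367) (nat_lit 27) (.e (nat_lit 434231) (nat_lit 23) (.e (nat_lit 532500) (nat_lit 1) (.e (nat_lit 57690) (nat_lit 156) .nil))))))) (.g (nat_lit 1) (.e (nat_lit 149574) (nat_lit 0) .nil) .nil)))) (.nd (nat_lit 9) 
(.lf (nat_lit 492881) (.g (nat_lit 964) (.e (nat_lit 163873) (nat_lit 3) (.e (nat_lit 204855) (nat_lit 26) (.e (nat_lit 336082) (nat_lit 9) .nil))) (.g (nat_lit 0) (.e (nat_lit 149162) (nat_lit 0) .nil) .nil))) 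
(.lf (nat_lit 493393) (.g (nat_lit 3011) (.e (nat_lit 163874) (nat_lit 3) (.e (nat_lit 204863) (nat_lit 27) (.e (nat_lit 344132) (nat_lit 26) (.e (nat_lit 557100) (nat_lit 13) (.e (nat_lit 172065) (nat_lit 3) .nil))))) (.g (nat_lit 0) (.e (nat_lit 149978) (nat_lit 0) .nil) .nil))))) (.nd (nat_lit 8) (.nd (nat_lit 9) 
(.lf (nat_lit 492753) (.g (nat_lit 3570) (.e (nat_lit 163873) (nat_lit 3) (.e (nat_lit 204813) (nat_lit 9) (.e (nat_lit 426200) (nat_lit 9) (.e (nat_lit 426530) (nat_lit 27) (.e (nat_lit 336390) (nat_lit 27) (.e (nat_lit 426098) (nat_lit 1) (.e (nat_lit 164327) (nat_lit 230) .nil))))))) (.g (nat_lit 1) (.e (nat_lit 148867) (nat_lit 0) .nil) .nil))) 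
(.lf (nat_lit 493265) (.g (nat_lit 1652) (.e (nat_lit 163874) (nat_lit 3) (.e (nat_lit 204854) (nat_lit 26) (.e (nat_lit 336019) (nat_lit 3) (.e (nat_lit 98341) (nat_lit 20) (.e (nat_lit 221213) (nat_lit 23) .nil))))) (.g (nat_lit 0) (.e (nat_lit 149771) (nat_lit 0) .nil) .nil)))) (.nd (nat_lit 9) 
(.lf (nat_lit 493009) (.g (nat_lit 3364) (.e (nat_lit 163874) (nat_lit 3) (.e (nat_lit 204813) (nat_lit 9) (.e (nat_lit 426198) (nat_lit 9) (.e (nat_lit 426568) (nat_lit 34) (.e (nat_lit 393253) (nat_lit 18) (.e (nat_lit 164332) (nat_lit 230) .nil)))))) (.g (nat_lit 1) (.e (nat_lit 149377) (nat_lit 0) .nil) .nil))) 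
(.lf (nat_lit 493521) (.g (nat_lit 2117) (.e (nat_lit 163875) (nat_lit 3) (.e (nat_lit 204813) (nat_lit 9) (.e (nat_lit 426199) (nat_lit 9) (.e (nat_lit 426568) (nat_lit 34) (.e (nat_lit 393251) (nat_lit 18) (.e (nat_lit 164327) (nat_lit 230) .nil)))))) (.g (nat_lit 1) (.e (nat_lit 150291) (nat_lit 0) .nil) .nil))))))) (.nd (nat_lit 6) (.nd (nat_lit 7) (.nd (nat_lit 8) (.nd (nat_lit 9) 
(.lf (nat_lit 492593) (.g (nat_lit 1991) (.e (nat_lit 163873) (nat_lit 3) (.e (nat_lit 204813) (nat_lit 9) (.e (nat_lit 426190) (nat_lit 9) (.e (nat_lit 426478) (nat_lit 27) (.e (nat_lit 336388) (nat_lit 27) (.e (nat_lit 426107) (nat_lit 1) (.e (nat_lit 164326) (nat_lit 230) .nil))))))) (.g (nat_lit 1) (.e (nat_lit 148672) (nat_lit 0) .nil) .nil))) 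
(.lf (nat_lit 493105) (.g (nat_lit 2340) (.e (nat_lit 163874) (nat_lit 3) (.e (nat_lit 204837) (nat_lit 20) (.e (nat_lit 114718) (nat_lit 23) (.e (nat_lit 98367) (nat_lit 27) (.e (nat_lit 434234) (nat_lit 23) .nil))))) (.g (nat_lit 0) (.e (nat_lit 149542) (nat_lit 0) .nil) .nil)))) (.nd (nat_lit 9) 
(.lf (nat_lit 492849) (.g (nat_lit 3320) (.e (nat_lit 163873) (nat_lit 3) (.e (nat_lit 204838) (nat_lit 20) (.e (nat_lit 114719) (nat_lit 23) (.e (nat_lit 98367) (nat_lit 27) (.e (nat_lit 434231) (nat_lit 23) (.e (nat_lit 532502) (nat_lit 1) (.e (nat_lit 57688) (nat_lit 156) .nil))))))) (.g (nat_lit 1) (.e (nat_lit 149127) (nat_lit 0) .nil) .nil))) 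
(.lf (nat_lit 493361) (.g (nat_lit 3508) (.e (nat_lit 163874) (nat_lit 3) (.e (nat_lit 204863) (nat_lit 27) (.e (nat_lit 344117) (nat_lit 21) (.e (nat_lit 516106) (nat_lit 0) (.e (nat_lit 3721) (nat_lit 227) .nil))))) (.g (nat_lit 0) (.e (nat_lit 149946) (nat_lit 0) .nil) .nil))))) (.nd (nat_lit 8) (.nd (nat_lit 9) 
(.lf (nat_lit 492721) (.g (nat_lit 3121) (.e (nat_lit 163873) (nat_lit 3) (.e (nat_lit 204813) (nat_lit 9) (.e (nat_lit 426199) (nat_lit 9) (.e (nat_lit 426567) (nat_lit 34) (.e (nat_lit 393253) (nat_lit 18) (.e (nat_lit 164325) (nat_lit 230) .nil)))))) (.g (nat_lit 1) (.e (nat_lit 148822) (nat_lit 0) .nil) .nil))) 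
(.lf (nat_lit 493233) (.g (nat_lit 4060) (.e (nat_lit 163874) (nat_lit 3) (.e (nat_lit 204838) (nat_lit 20) (.e (nat_lit 114719) (nat_lit 23) (.e (nat_lit 98367) (nat_lit 27) (.e (nat_lit 434232) (nat_lit 23) (.e (nat_lit 532503) (nat_lit 1) (.e (nat_lit 57688) (nat_lit 156) .nil))))))) (.g (nat_lit 1) (.e (nat_lit 149670) (nat_lit 0) .nil) .nil)))) (.nd (nat_lit 9) 
(.lf (nat_lit 492977) (.g (nat_lit 3430) (.e (nat_lit 163874) (nat_lit 3) (.e (nat_lit 204813) (nat_lit 9) (.e (nat_lit 426188) (nat_lit 9) (.e (nat_lit 426566) (nat_lit 34) (.e (nat_lit 393253) (nat_lit 18) (.e (nat_lit 164327) (nat_lit 230) .nil)))))) (.g (nat_lit 1) (.e (nat_lit 149344) (nat_lit 0) .nil) .nil))) 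
(.lf (nat_lit 493489) (.g (nat_lit 3459) (.e (nat_lit 163875) (nat_lit 3) (.e (nat_lit 204813) (nat_lit 9) (.e (nat_lit 426188) (nat_lit 9) (.e (nat_lit 426566) (nat_lit 34) (.e (nat_lit 393254) (nat_lit 18) (.e (nat_lit 164324) (nat_lit 230) .nil)))))) (.g (nat_lit 1) (.e (nat_lit 150252) (nat_lit 0) .nil) .nil)))))) (.nd (nat_lit 7) (.nd (nat_lit 8) (.nd (nat_lit 9) 
(.lf (nat_lit 492657) (.g (nat_lit 3436) (.e (nat_lit 163873) (nat_lit 3) (.e (nat_lit 204813) (nat_lit 9) (.e (nat_lit 426198) (nat_lit 9) (.e (nat_lit 426566) (nat_lit 34) (.e (nat_lit 393253) (nat_lit 18) (.e (nat_lit 164326) (nat_lit 230) .nil)))))) (.g (nat_lit 1) (.e (nat_lit 148752) (nat_lit 0) .nil) .nil))) 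
(.lf (nat_lit 493169) (.g (nat_lit 4089) (.e (nat_lit 163874) (nat_lit 3) (.e (nat_lit 204838) (nat_lit 20) (.e (nat_lit 114715) (nat_lit 22) (.e (nat_lit 90170) (nat_lit 13) (.e (nat_lit 172065) (nat_lit 3) (.e (nat_lit 204829) (nat_lit 18) (.e (nat_lit 57691) (nat_lit 156) .nil))))))) (.g (nat_lit 1) (.e (nat_lit 149606) (nat_lit 0) .nil) .nil)))) (.nd (nat_lit 9) 
(.lf (nat_lit 492913) (.g (nat_lit 2247) (.e (nat_lit 163873) (nat_lit 3) (.e (nat_lit 204861) (nat_lit 26) (.e (nat_lit 336076) (nat_lit 9) (.e (nat_lit 336455) (nat_lit 34) (.e (nat_lit 483363) (nat_lit 18) (.e (nat_lit 57927) (nat_lit 282) .nil)))))) (.g (nat_lit 1) (.e (nat_lit 149201) (nat_lit 0) .nil) .nil))) 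
(.lf (nat_lit 493425) (.g (nat_lit 3286) (.e (nat_lit 163874) (nat_lit 3) (.e (nat_lit 204866) (nat_lit 28) (.e (nat_lit 352277) (nat_lit 11) (.e (nat_lit 426500) (nat_lit 27) (.e (nat_lit 335986) (nat_lit 1) (.e (nat_lit 57926) (nat_lit 282) .nil)))))) (.g (nat_lit 1) (.e (nat_lit 150011) (nat_lit 0) .nil) .nil))))) (.nd (nat_lit 8) (.nd (nat_lit 9) 
(.lf (nat_lit 492785) (.g (nat_lit 4700) (.e (nat_lit 163873) (nat_lit 3) (.e (nat_lit 204829) (nat_lit 18) (.e (nat_lit 57847) (nat_lit 252) (.e (nat_lit 57410) (nat_lit 12) (.e (nat_lit 336019) (nat_lit 3) (.e (nat_lit 98356) (nat_lit 26) (.e (nat_lit 426422) (nat_lit 16) (.e (nat_lit 57688) (nat_lit 156) .nil)))))))) (.g (nat_lit 1) (.e (nat_lit 149062) (nat_lit 0) .nil) .nil))) 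
(.lf (nat_lit 493297) (.g (nat_lit 2337) (.e (nat_lit 163874) (nat_lit 3) (.e (nat_lit 204859) (nat_lit 26) (.e (nat_lit 336017) (nat_lit 3) (.e (nat_lit 98342) (nat_lit 20) (.e (nat_lit 221214) (nat_lit 23) (.e (nat_lit 204830) (nat_lit 18) (.e (nat_lit 57926) (nat_lit 282) .nil))))))) (.g (nat_lit 1) (.e (nat_lit 149804) (nat_lit 0) .nil) .nil)))) (.nd (nat_lit 9) 
(.lf (nat_lit 493041) (.g (nat_lit 2601) (.e (nat_lit 163874) (nat_lit 3) (.e (nat_lit 204836) (nat_lit 20) (.e (nat_lit 114718) (nat_lit 23) (.e (nat_lit 98367) (nat_lit 27) (.e (nat_lit 434234) (nat_lit 23) (.e (nat_lit 532504) (nat_lit 1) (.e (nat_lit 57692) (nat_lit 156) .nil))))))) (.g (nat_lit 1) (.e (nat_lit 149478) (nat_lit 0) .nil) .nil))) 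
(.lf (nat_lit 493553) (.g (nat_lit 3316) (.e (nat_lit 163875) (nat_lit 3) (.e (nat_lit 204829) (nat_lit 18) (.e (nat_lit 57847) (nat_lit 252) (.e (nat_lit 57432) (nat_lit 16) (.e (nat_lit 368676) (nat_lit 21) (.e (nat_lit 516179) (nat_lit 15) (.e (nat_lit 475161) (nat_lit 21) (.e (nat_lit 7280) (nat_lit 386) .nil)))))))) (.g (nat_lit 1) (.e (nat_lit 150395) (nat_lit 0) .nil) .nil))))))))) 
(.nd (nat_lit 4) (.nd (nat_lit 5) (.nd (nat_lit 6) (.nd (nat_lit 7) (.nd (nat_lit 8) 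
(.nd (nat_lit 9) 
(.lf (nat_lit 492553) (.g (nat_lit 1663) (.e (nat_lit 163873) (nat_lit 3) (.e (nat_lit 204813) (nat_lit 9) (.e (nat_lit 426188) (nat_lit 9) (.e (nat_lit 426564) (nat_lit 34) .nil)))) (.g (nat_lit 0) (.e (nat_lit 148631) (nat_lit 0) .nil) .nil))) 
(.lf (nat_lit 493065) (.g (nat_lit 4135) (.e (nat_lit 163874) (nat_lit 3) (.e (nat_lit 204837) (nat_lit 20) (.e (nat_lit 114715) (nat_lit 22) (.e (nat_lit 90170) (nat_lit 13) (.e (nat_lit 172065) (nat_lit 3) (.e (nat_lit 204830) (nat_lit 18) (.e (nat_lit 57689) (nat_lit 156) .nil))))))) (.g (nat_lit 1) (.e (nat_lit 149502) (nat_lit 0) .nil) .nil)))) (.nd (nat_lit 9) 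
(.lf (nat_lit 492809) (.g (nat_lit 2522) (.e (nat_lit 163873) (nat_lit 3) (.e (nat_lit 204837) (nat_lit 20) (.e (nat_lit 114719) (nat_lit 23) (.e (nat_lit 98367) (nat_lit 27) (.e (nat_lit 434234) (nat_lit 23) .nil))))) (.g (nat_lit 0) (.e (nat_lit 149087) (nat_lit 0) .nil) .nil))) 
(.lf (nat_lit 493321) (.g (nat_lit 2903) (.e (nat_lit 163874) (nat_lit 3) (.e (nat_lit 204861) (nat_lit 26) (.e (nat_lit 336076) (nat_lit 9) (.e (nat_lit 336454) (nat_lit 34) (.e (nat_lit 483365) (nat_lit 18) (.e (nat_lit 57930) (nat_lit 282) .nil)))))) (.g (nat_lit 1) (.e (nat_lit 149893) (nat_lit 0) .nil) .nil))))) (.nd (nat_lit 8) (.nd (nat_lit 9) 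
(.lf (nat_lit 492681) (.g (nat_lit 3055) (.e (nat_lit 163873) (nat_lit 3) (.e (nat_lit 204813) (nat_lit 9) (.e (nat_lit 426199) (nat_lit 9) (.e (nat_lit 426478) (nat_lit 27) (.e (nat_lit 336388) (nat_lit 27) (.e (nat_lit 426098) (nat_lit 1) (.e (nat_lit 164327) (nat_lit 230) .nil))))))) (.g (nat_lit 1) (.e (nat_lit 148776) (nat_lit 0) .nil) .nil))) 
(.lf (nat_lit 493193) (.g (nat_lit 3136) (.e (nat_lit 163874) (nat_lit 3) (.e (nat_lit 204838) (nat_lit 20) (.e (nat_lit 114716) (nat_lit 22) (.e (nat_lit 90174) (nat_lit 14) (.e (nat_lit 180243) (nat_lit 5) (.e (nat_lit 532503) (nat_lit 1) (.e (nat_lit 57685) (nat_lit 156) .nil))))))) (.g (nat_lit 1) (.e (nat_lit 149630) (nat_lit 0) .nil) .nil)))) (.nd (nat_lit 9) 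
(.lf (nat_lit 492937) (.g (nat_lit 3006) (.e (nat_lit 163874) (nat_lit 3) (.e (nat_lit 204809) (nat_lit 9) (.e (nat_lit 426188) (nat_lit 9) (.e (nat_lit 426568) (nat_lit 34) (.e (nat_lit 393251) (nat_lit 18) (.e (nat_lit 164332) (nat_lit 230) .nil)))))) (.g (nat_lit 1) (.e (nat_lit 149259) (nat_lit 0) .nil) .nil))) 
(.lf (nat_lit 493449) (.g (nat_lit 216) (.e (nat_lit 163874) (nat_lit 3) (.e (nat_lit 204877) (nat_lit 31) (.e (nat_lit 384768) (nat_lit 18) .nil))) (.g (nat_lit 0) (.e (nat_lit 150097) (nat_lit 0) .nil) .nil)))))) (.nd (nat_lit 7) (.nd (nat_lit 8) (.nd (nat_lit 9) 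
(.lf (nat_lit 492617) (.g (nat_lit 4922) (.e (nat_lit 163873) (nat_lit 3) (.e (nat_lit 204813) (nat_lit 9) (.e (nat_lit 426197) (nat_lit 9) (.e (nat_lit 426566) (nat_lit 34) (.e (nat_lit 393251) (nat_lit 18) (.e (nat_lit 164325) (nat_lit 230) .nil)))))) (.g (nat_lit 1) (.e (nat_lit 148697) (nat_lit 0) .nil) .nil))) 
(.lf (nat_lit 493129) (.g (nat_lit 3162) (.e (nat_lit 163874) (nat_lit 3) (.e (nat_lit 204837) (nat_lit 20) (.e (nat_lit 114719) (nat_lit 23) (.e (nat_lit 98366) (nat_lit 27) (.e (nat_lit 434232) (nat_lit 23) (.e (nat_lit 532503) (nat_lit 1) (.e (nat_lit 57688) (nat_lit 156) .nil))))))) (.g (nat_lit 1) (.e (nat_lit 149566) (nat_lit 0) .nil) .nil)))) (.nd (nat_lit 9) 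
(.lf (nat_lit 492873) (.g (nat_lit 2497) (.e (nat_lit 163873) (nat_lit 3) (.e (nat_lit 204853) (nat_lit 26) (.e (nat_lit 336019) (nat_lit 3) (.e (nat_lit 98342) (nat_lit 20) (.e (nat_lit 221215) (nat_lit 23) (.e (nat_lit 204830) (nat_lit 18) (.e (nat_lit 57924) (nat_lit 282) .nil))))))) (.g (nat_lit 1) (.e (nat_lit 149154) (nat_lit 0) .nil) .nil))) 
(.lf (nat_lit 493385) (.g (nat_lit 2555) (.e (nat_lit 163874) (nat_lit 3) (.e (nat_lit 204863) (nat_lit 27) (.e (nat_lit 344129) (nat_lit 26) (.e (nat_lit 557097) (nat_lit 13) (.e (nat_lit 179968) (nat_lit 18) .nil))))) (.g (nat_lit 0) (.e (nat_lit 149970) (nat_lit 0) .nil) .nil))))) (.nd (nat_lit 8) (.nd (nat_lit 9) 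
(.lf (nat_lit 492745) (.g (nat_lit 2035) (.e (nat_lit 163873) (nat_lit 3) (.e (nat_lit 204813) (nat_lit 9) (.e (nat_lit 426200) (nat_lit 9) (.e (nat_lit 426480) (nat_lit 27) (.e (nat_lit 336388) (nat_lit 27) (.e (nat_lit 426100) (nat_lit 1) (.e (nat_lit 164332) (nat_lit 230) .nil))))))) (.g (nat_lit 1) (.e (nat_lit 148850) (nat_lit 0) .nil) .nil))) 
(.lf (nat_lit 493257) (.g (nat_lit 709) (.e (nat_lit 163874) (nat_lit 3) (.e (nat_lit 204852) (nat_lit 26) (.e (nat_lit 336211) (nat_lit 13) .nil))) (.g (nat_lit 0) (.e (nat_lit 149740) (nat_lit 0) .nil) .nil)))) (.nd (nat_lit 9) 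
(.lf (nat_lit 493001) (.g (nat_lit 3465) (.e (nat_lit 163874) (nat_lit 3) (.e (nat_lit 204813) (nat_lit 9) (.e (nat_lit 426198) (nat_lit 9) (.e (nat_lit 426566) (nat_lit 34) (.e (nat_lit 393251) (nat_lit 18) (.e (nat_lit 164325) (nat_lit 230) .nil)))))) (.g (nat_lit 1) (.e (nat_lit 149369) (nat_lit 0) .nil) .nil))) 
(.lf (nat_lit 493513) (.g (nat_lit 2612) (.e (nat_lit 163875) (nat_lit 3) (.e (nat_lit 204813) (nat_lit 9) (.e (nat_lit 426199) (nat_lit 9) (.e (nat_lit 426478) (nat_lit 27) (.e (nat_lit 336389) (nat_lit 27) (.e (nat_lit 426098) (nat_lit 1) (.e (nat_lit 164327) (nat_lit 230) .nil))))))) (.g (nat_lit 1) (.e (nat_lit 150283) (nat_lit 0) .nil) .nil))))))) 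
(.nd (nat_lit 6) (.nd (nat_lit 7) (.nd (nat_lit 8) (.nd (nat_lit 9) 
(.lf (nat_lit 492585) (.g (nat_lit 5335) (.e (nat_lit 163873) (nat_lit 3) (.e (nat_lit 204813) (nat_lit 9) (.e (nat_lit 426189) (nat_lit 9) (.e (nat_lit 426566) (nat_lit 34) (.e (nat_lit 393253) (nat_lit 18) (.e (nat_lit 164326) (nat_lit 230) .nil)))))) (.g (nat_lit 1) (.e (nat_lit 148664) (nat_lit 0) .nil) .nil))) 
(.lf (nat_lit 493097) (.g (nat_lit 4014) (.e (nat_lit 163874) (nat_lit 3) (.e (nat_lit 204837) (nat_lit 20) (.e (nat_lit 114718) (nat_lit 23) (.e (nat_lit 98367) (nat_lit 27) (.e (nat_lit 434231) (nat_lit 23) (.e (nat_lit 532500) (nat_lit 1) (.e (nat_lit 57690) (nat_lit 156) .nil))))))) (.g (nat_lit 1) (.e (nat_lit 149534) (nat_lit 0) .nil) .nil)))) (.nd (nat_lit 9) 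
(.lf (nat_lit 492841) (.g (nat_lit 4546) (.e (nat_lit 163873) (nat_lit 3) (.e (nat_lit 204838) (nat_lit 20) (.e (nat_lit 114719) (nat_lit 23) (.e (nat_lit 98365) (nat_lit 26) (.e (nat_lit 426139) (nat_lit 3) (.e (nat_lit 204829) (nat_lit 18) (.e (nat_lit 57688) (nat_lit 156) .nil))))))) (.g (nat_lit 1) (.e (nat_lit 149119) (nat_lit 0) .nil) .nil))) 
(.lf (nat_lit 493353) (.g (nat_lit 3025) (.e (nat_lit 163874) (nat_lit 3) (.e (nat_lit 204862) (nat_lit 27) (.e (nat_lit 344117) (nat_lit 21) (.e (nat_lit 516123) (nat_lit 2) (.e (nat_lit 213034) (nat_lit 12) (.e (nat_lit 163963) (nat_lit 25) (.e (nat_lit 532499) (nat_lit 1) (.e (nat_lit 57927) (nat_lit 282) .nil)))))))) (.g (nat_lit 1) (.e (nat_lit 149938) (nat_lit 0) .nil) .nil))))) 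
(.nd (nat_lit 8) (.nd (nat_lit 9) 
(.lf (nat_lit 492713) (.g (nat_lit 4102) (.e (nat_lit 163873) (nat_lit 3) (.e (nat_lit 204813) (nat_lit 9) (.e (nat_lit 426199) (nat_lit 9) (.e (nat_lit 426566) (nat_lit 34) (.e (nat_lit 393251) (nat_lit 18) (.e (nat_lit 164332) (nat_lit 230) .nil)))))) (.g (nat_lit 1) (.e (nat_lit 148814) (nat_lit 0) .nil) .nil))) 
(.lf (nat_lit 493225) (.g (nat_lit 5182) (.e (nat_lit 163874) (nat_lit 3) (.e (nat_lit 204838) (nat_lit 20) (.e (nat_lit 114719) (nat_lit 23) (.e (nat_lit 98367) (nat_lit 27) (.e (nat_lit 434231) (nat_lit 23) (.e (nat_lit 532499) (nat_lit 1) (.e (nat_lit 57688) (nat_lit 156) .nil))))))) (.g (nat_lit 1) (.e (nat_lit 149662) (nat_lit 0) .nil) .nil)))) (.nd (nat_lit 9) 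
(.lf (nat_lit 492969) (.g (nat_lit 2009) (.e (nat_lit 163874) (nat_lit 3) (.e (nat_lit 204812) (nat_lit 9) (.e (nat_lit 426188) (nat_lit 9) (.e (nat_lit 426566) (nat_lit 34) (.e (nat_lit 393252) (nat_lit 18) (.e (nat_lit 164332) (nat_lit 230) .nil)))))) (.g (nat_lit 1) (.e (nat_lit 149329) (nat_lit 0) .nil) .nil))) 
(.lf (nat_lit 493481) (.g (nat_lit 609) (.e (nat_lit 163875) (nat_lit 3) (.e (nat_lit 204813) (nat_lit 9) (.e (nat_lit 426186) (nat_lit 9) .nil))) (.g (nat_lit 0) (.e (nat_lit 150243) (nat_lit 0) .nil) .nil)))))) (.nd (nat_lit 7) (.nd (nat_lit 8) (.nd (nat_lit 9) 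
(.lf (nat_lit 492649) (.g (nat_lit 3969) (.e (nat_lit 163873) (nat_lit 3) (.e (nat_lit 204813) (nat_lit 9) (.e (nat_lit 426198) (nat_lit 9) (.e (nat_lit 426566) (nat_lit 34) (.e (nat_lit 393251) (nat_lit 18) (.e (nat_lit 164327) (nat_lit 230) .nil)))))) (.g (nat_lit 1) (.e (nat_lit 148744) (nat_lit 0) .nil) .nil))) 
(.lf (nat_lit 493161) (.g (nat_lit 2139) (.e (nat_lit 163874) (nat_lit 3) (.e (nat_lit 204838) (nat_lit 20) (.e (nat_lit 114714) (nat_lit 22) (.e (nat_lit 90174) (nat_lit 14) (.e (nat_lit 180243) (nat_lit 5) (.e (nat_lit 532502) (nat_lit 1) (.e (nat_lit 57691) (nat_lit 156) .nil))))))) (.g (nat_lit 1) (.e (nat_lit 149598) (nat_lit 0) .nil) .nil)))) (.nd (nat_lit 9) 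
(.lf (nat_lit 492905) (.g (nat_lit 1670) (.e (nat_lit 163873) (nat_lit 3) (.e (nat_lit 204861) (nat_lit 26) (.e (nat_lit 336076) (nat_lit 9) (.e (nat_lit 336454) (nat_lit 34) (.e (nat_lit 483362) (nat_lit 18) .nil))))) (.g (nat_lit 0) (.e (nat_lit 149192) (nat_lit 0) .nil) .nil))) 
(.lf (nat_lit 493417) (.g (nat_lit 3465) (.e (nat_lit 163874) (nat_lit 3) (.e (nat_lit 204864) (nat_lit 27) (.e (nat_lit 344132) (nat_lit 26) (.e (nat_lit 557100) (nat_lit 13) (.e (nat_lit 172065) (nat_lit 3) (.e (nat_lit 204830) (nat_lit 18) (.e (nat_lit 65280) (nat_lit 168) .nil))))))) (.g (nat_lit 1) (.e (nat_lit 150002) (nat_lit 0) .nil) .nil))))) (.nd (nat_lit 8) (.nd (nat_lit 9) 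
(.lf (nat_lit 492777) (.g (nat_lit 4155) (.e (nat_lit 163873) (nat_lit 3) (.e (nat_lit 204813) (nat_lit 9) (.e (nat_lit 433920) (nat_lit 9) (.e (nat_lit 426566) (nat_lit 34) (.e (nat_lit 393253) (nat_lit 18) (.e (nat_lit 164324) (nat_lit 230) .nil)))))) (.g (nat_lit 1) (.e (nat_lit 148896) (nat_lit 0) .nil) .nil))) 
(.lf (nat_lit 493289) (.g (nat_lit 3585) (.e (nat_lit 163874) (nat_lit 3) (.e (nat_lit 204854) (nat_lit 26) (.e (nat_lit 336115) (nat_lit 9) (.e (nat_lit 336456) (nat_lit 34) (.e (nat_lit 483365) (nat_lit 18) (.e (nat_lit 57931) (nat_lit 282) .nil)))))) (.g (nat_lit 1) (.e (nat_lit 149796) (nat_lit 0) .nil) .nil)))) (.nd (nat_lit 9) 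
(.lf (nat_lit 493033) (.g (nat_lit 1129) (.e (nat_lit 163874) (nat_lit 3) (.e (nat_lit 204829) (nat_lit 18) (.e (nat_lit 57909) (nat_lit 278) .nil))) (.g (nat_lit 0) (.e (nat_lit 149470) (nat_lit 0) .nil) .nil))) 
(.lf (nat_lit 493545) (.g (nat_lit 5137) (.e (nat_lit 163875) (nat_lit 3) (.e (nat_lit 204829) (nat_lit 18) (.e (nat_lit 57847) (nat_lit 252) (.e (nat_lit 57411) (nat_lit 12) (.e (nat_lit 336019) (nat_lit 3) (.e (nat_lit 98384) (nat_lit 32) (.e (nat_lit 475161) (nat_lit 21) (.e (nat_lit 7280) (nat_lit 386) .nil)))))))) (.g (nat_lit 1) (.e (nat_lit 150387) (nat_lit 0) .nil) .nil)))))))) 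
(.nd (nat_lit 5) (.nd (nat_lit 6) (.nd (nat_lit 7) (.nd (nat_lit 8) (.nd (nat_lit 9) 
(.lf (nat_lit 492569) (.g (nat_lit 1090) (.e (nat_lit 163873) (nat_lit 3) (.e (nat_lit 204813) (nat_lit 9) (.e (nat_lit 426188) (nat_lit 9) (.e (nat_lit 426568) (nat_lit 34) .nil)))) (.g (nat_lit 0) (.e (nat_lit 148647) (nat_lit 0) .nil) .nil))) 
(.lf (nat_lit 493081) (.g (nat_lit 4043) (.e (nat_lit 163874) (nat_lit 3) (.e (nat_lit 204837) (nat_lit 20) (.e (nat_lit 114716) (nat_lit 22) (.e (nat_lit 90174) (nat_lit 14) (.e (nat_lit 180243) (nat_lit 5) (.e (nat_lit 532499) (nat_lit 1) (.e (nat_lit 57691) (nat_lit 156) .nil))))))) (.g (nat_lit 1) (.e (nat_lit 149518) (nat_lit 0) .nil) .nil)))) (.nd (nat_lit 9) 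
(.lf (nat_lit 492825) (.g (nat_lit 3017) (.e (nat_lit 163873) (nat_lit 3) (.e (nat_lit 204838) (nat_lit 20) (.e (nat_lit 114718) (nat_lit 23) (.e (nat_lit 98365) (nat_lit 26) (.e (nat_lit 426139) (nat_lit 3) (.e (nat_lit 204829) (nat_lit 18) (.e (nat_lit 57688) (nat_lit 156) .nil))))))) (.g (nat_lit 1) (.e (nat_lit 149103) (nat_lit 0) .nil) .nil))) 
(.lf (nat_lit 493337) (.g (nat_lit 1012) (.e (nat_lit 163874) (nat_lit 3) (.e (nat_lit 204861) (nat_lit 26) (.e (nat_lit 336213) (nat_lit 13) (.e (nat_lit 401152) (nat_lit 10) .nil)))) (.g (nat_lit 0) (.e (nat_lit 149921) (nat_lit 0) .nil) .nil))))) (.nd (nat_lit 8) (.nd (nat_lit 9) 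
(.lf (nat_lit 492697) (.g (nat_lit 2796) (.e (nat_lit 163873) (nat_lit 3) (.e (nat_lit 204813) (nat_lit 9) (.e (nat_lit 426199) (nat_lit 9) (.e (nat_lit 426487) (nat_lit 27) (.e (nat_lit 336407) (nat_lit 27) (.e (nat_lit 426107) (nat_lit 1) (.e (nat_lit 164325) (nat_lit 230) .nil))))))) (.g (nat_lit 1) (.e (nat_lit 148798) (nat_lit 0) .nil) .nil))) 
(.lf (nat_lit 493209) (.g (nat_lit 2650) (.e (nat_lit 163874) (nat_lit 3) (.e (nat_lit 204838) (nat_lit 20) (.e (nat_lit 114718) (nat_lit 23) (.e (nat_lit 98367) (nat_lit 27) (.e (nat_lit 434232) (nat_lit 23) (.e (nat_lit 532499) (nat_lit 1) (.e (nat_lit 57692) (nat_lit 156) .nil))))))) (.g (nat_lit 1) (.e (nat_lit 149646) (nat_lit 0) .nil) .nil)))) (.nd (nat_lit 9) 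
(.lf (nat_lit 492953) (.g (nat_lit 3313) (.e (nat_lit 163874) (nat_lit 3) (.e (nat_lit 204809) (nat_lit 9) (.e (nat_lit 426200) (nat_lit 9) (.e (nat_lit 426566) (nat_lit 34) (.e (nat_lit 393252) (nat_lit 18) (.e (nat_lit 164332) (nat_lit 230) .nil)))))) (.g (nat_lit 1) (.e (nat_lit 149275) (nat_lit 0) .nil) .nil))) 
(.lf (nat_lit 493465) (.g (nat_lit 3020) (.e (nat_lit 163875) (nat_lit 3) (.e (nat_lit 204809) (nat_lit 9) (.e (nat_lit 426200) (nat_lit 9) (.e (nat_lit 426566) (nat_lit 34) (.e (nat_lit 393254) (nat_lit 18) (.e (nat_lit 164325) (nat_lit 230) .nil)))))) (.g (nat_lit 1) (.e (nat_lit 150157) (nat_lit 0) .nil) .nil)))))) (.nd (nat_lit 7) (.nd (nat_lit 8) (.nd (nat_lit 9) 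
(.lf (nat_lit 492633) (.g (nat_lit 3216) (.e (nat_lit 163873) (nat_lit 3) (.e (nat_lit 204813) (nat_lit 9) (.e (nat_lit 426197) (nat_lit 9) (.e (nat_lit 426568) (nat_lit 34) (.e (nat_lit 393252) (nat_lit 18) (.e (nat_lit 164332) (nat_lit 230) .nil)))))) (.g (nat_lit 1) (.e (nat_lit 148713) (nat_lit 0) .nil) .nil))) 
(.lf (nat_lit 493145) (.g (nat_lit 4411) (.e (nat_lit 163874) (nat_lit 3) (.e (nat_lit 204837) (nat_lit 20) (.e (nat_lit 114719) (nat_lit 23) (.e (nat_lit 98367) (nat_lit 27) (.e (nat_lit 434232) (nat_lit 23) (.e (nat_lit 532503) (nat_lit 1) (.e (nat_lit 57688) (nat_lit 156) .nil))))))) (.g (nat_lit 1) (.e (nat_lit 149582) (nat_lit 0) .nil) .nil)))) (.nd (nat_lit 9) 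
(.lf (nat_lit 492889) (.g (nat_lit 3435) (.e (nat_lit 163873) (nat_lit 3) (.e (nat_lit 204861) (nat_lit 26) (.e (nat_lit 336075) (nat_lit 9) (.e (nat_lit 336454) (nat_lit 34) (.e (nat_lit 483363) (nat_lit 18) (.e (nat_lit 57930) (nat_lit 282) .nil)))))) (.g (nat_lit 1) (.e (nat_lit 149173) (nat_lit 0) .nil) .nil))) 
(.lf (nat_lit 493401) (.g (nat_lit 2833) (.e (nat_lit 163874) (nat_lit 3) (.e (nat_lit 204863) (nat_lit 27) (.e (nat_lit 344133) (nat_lit 26) (.e (nat_lit 557103) (nat_lit 14) (.e (nat_lit 180244) (nat_lit 5) .nil))))) (.g (nat_lit 0) (.e (nat_lit 149986) (nat_lit 0) .nil) .nil))))) (.nd (nat_lit 8) (.nd (nat_lit 9) 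
(.lf (nat_lit 492761) (.g (nat_lit 3126) (.e (nat_lit 163873) (nat_lit 3) (.e (nat_lit 204813) (nat_lit 9) (.e (nat_lit 426200) (nat_lit 9) (.e (nat_lit 426566) (nat_lit 34) (.e (nat_lit 393254) (nat_lit 18) (.e (nat_lit 164322) (nat_lit 230) .nil)))))) (.g (nat_lit 1) (.e (nat_lit 148875) (nat_lit 0) .nil) .nil))) 
(.lf (nat_lit 493273) (.g (nat_lit 2453) (.e (nat_lit 163874) (nat_lit 3) (.e (nat_lit 204854) (nat_lit 26) (.e (nat_lit 336019) (nat_lit 3) (.e (nat_lit 98342) (nat_lit 20) (.e (nat_lit 221196) (nat_lit 20) (.e (nat_lit 3248) (nat_lit 197) (.e (nat_lit 532503) (nat_lit 1) (.e (nat_lit 57931) (nat_lit 282) .nil)))))))) (.g (nat_lit 1) (.e (nat_lit 149779) (nat_lit 0) .nil) .nil)))) 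
(.nd (nat_lit 9) 
(.lf (nat_lit 493017) (.g (nat_lit 3594) (.e (nat_lit 163874) (nat_lit 3) (.e (nat_lit 204813) (nat_lit 9) (.e (nat_lit 426200) (nat_lit 9) (.e (nat_lit 426566) (nat_lit 34) (.e (nat_lit 393251) (nat_lit 18) (.e (nat_lit 164325) (nat_lit 230) .nil)))))) (.g (nat_lit 1) (.e (nat_lit 149385) (nat_lit 0) .nil) .nil))) 
(.lf (nat_lit 493529) (.g (nat_lit 2179) (.e (nat_lit 163875) (nat_lit 3) (.e (nat_lit 204813) (nat_lit 9) (.e (nat_lit 426200) (nat_lit 9) (.e (nat_lit 426564) (nat_lit 34) (.e (nat_lit 393251) (nat_lit 18) (.e (nat_lit 164325) (nat_lit 230) .nil)))))) (.g (nat_lit 1) (.e (nat_lit 150306) (nat_lit 0) .nil) .nil))))))) (.nd (nat_lit 6) (.nd (nat_lit 7) (.nd (nat_lit 8) (.nd (nat_lit 9) 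
(.lf (nat_lit 492601) (.g (nat_lit 3819) (.e (nat_lit 163873) (nat_lit 3) (.e (nat_lit 204813) (nat_lit 9) (.e (nat_lit 426190) (nat_lit 9) (.e (nat_lit 426566) (nat_lit 34) (.e (nat_lit 393253) (nat_lit 18) (.e (nat_lit 164324) (nat_lit 230) .nil)))))) (.g (nat_lit 1) (.e (nat_lit 148680) (nat_lit 0) .nil) .nil))) 
(.lf (nat_lit 493113) (.g (nat_lit 1353) (.e (nat_lit 163874) (nat_lit 3) (.e (nat_lit 204837) (nat_lit 20) (.e (nat_lit 114719) (nat_lit 23) (.e (nat_lit 98354) (nat_lit 26) .nil)))) (.g (nat_lit 0) (.e (nat_lit 149550) (nat_lit 0) .nil) .nil)))) (.nd (nat_lit 9) 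
(.lf (nat_lit 492857) (.g (nat_lit 3215) (.e (nat_lit 163873) (nat_lit 3) (.e (nat_lit 204838) (nat_lit 20) (.e (nat_lit 114719) (nat_lit 23) (.e (nat_lit 98384) (nat_lit 32) (.e (nat_lit 475179) (nat_lit 24) (.e (nat_lit 516119) (nat_lit 1) (.e (nat_lit 164325) (nat_lit 230) .nil))))))) (.g (nat_lit 1) (.e (nat_lit 149135) (nat_lit 0) .nil) .nil))) 
(.lf (nat_lit 493369) (.g (nat_lit 2511) (.e (nat_lit 163874) (nat_lit 3) (.e (nat_lit 204863) (nat_lit 27) (.e (nat_lit 344117) (nat_lit 21) (.e (nat_lit 516123) (nat_lit 2) (.e (nat_lit 213036) (nat_lit 13) (.e (nat_lit 229433) (nat_lit 25) (.e (nat_lit 532501) (nat_lit 1) (.e (nat_lit 57929) (nat_lit 282) .nil)))))))) (.g (nat_lit 1) (.e (nat_lit 149954) (nat_lit 0) .nil) .nil))))) 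
(.nd (nat_lit 8) (.nd (nat_lit 9) 
(.lf (nat_lit 492729) (.g (nat_lit 3680) (.e (nat_lit 163873) (nat_lit 3) (.e (nat_lit 204813) (nat_lit 9) (.e (nat_lit 426199) (nat_lit 9) (.e (nat_lit 426568) (nat_lit 34) (.e (nat_lit 393253) (nat_lit 18) (.e (nat_lit 164325) (nat_lit 230) .nil)))))) (.g (nat_lit 1) (.e (nat_lit 148830) (nat_lit 0) .nil) .nil))) 
(.lf (nat_lit 493241) (.g (nat_lit 647) (.e (nat_lit 163874) (nat_lit 3) (.e (nat_lit 204846) (nat_lit 24) (.e (nat_lit 319504) (nat_lit 10) .nil))) (.g (nat_lit 0) (.e (nat_lit 149679) (nat_lit 0) .nil) .nil)))) (.nd (nat_lit 9) 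
(.lf (nat_lit 492985) (.g (nat_lit 3139) (.e (nat_lit 163874) (nat_lit 3) (.e (nat_lit 204813) (nat_lit 9) (.e (nat_lit 426189) (nat_lit 9) (.e (nat_lit 426566) (nat_lit 34) (.e (nat_lit 393251) (nat_lit 18) (.e (nat_lit 164325) (nat_lit 230) .nil)))))) (.g (nat_lit 1) (.e (nat_lit 149352) (nat_lit 0) .nil) .nil))) 
(.lf (nat_lit 493497) (.g (nat_lit 2788) (.e (nat_lit 163875) (nat_lit 3) (.e (nat_lit 204813) (nat_lit 9) (.e (nat_lit 426197) (nat_lit 9) (.e (nat_lit 426566) (nat_lit 34) (.e (nat_lit 393251) (nat_lit 18) (.e (nat_lit 164325) (nat_lit 230) .nil)))))) (.g (nat_lit 1) (.e (nat_lit 150262) (nat_lit 0) .nil) .nil)))))) (.nd (nat_lit 7) (.nd (nat_lit 8) (.nd (nat_lit 9) 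
(.lf (nat_lit 492665) (.g (nat_lit 3109) (.e (nat_lit 163873) (nat_lit 3) (.e (nat_lit 204813) (nat_lit 9) (.e (nat_lit 426198) (nat_lit 9) (.e (nat_lit 426568) (nat_lit 34) (.e (nat_lit 393251) (nat_lit 18) (.e (nat_lit 164325) (nat_lit 230) .nil)))))) (.g (nat_lit 1) (.e (nat_lit 148760) (nat_lit 0) .nil) .nil))) 
(.lf (nat_lit 493177) (.g (nat_lit 2624) (.e (nat_lit 163874) (nat_lit 3) (.e (nat_lit 204838) (nat_lit 20) (.e (nat_lit 114715) (nat_lit 22) (.e (nat_lit 90170) (nat_lit 13) (.e (nat_lit 172066) (nat_lit 3) (.e (nat_lit 204829) (nat_lit 18) (.e (nat_lit 57692) (nat_lit 156) .nil))))))) (.g (nat_lit 1) (.e (nat_lit 149614) (nat_lit 0) .nil) .nil)))) (.nd (nat_lit 9) 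
(.lf (nat_lit 492921) (.g (nat_lit 1753) (.e (nat_lit 163873) (nat_lit 3) (.e (nat_lit 204861) (nat_lit 26) (.e (nat_lit 336222) (nat_lit 13) (.e (nat_lit 393229) (nat_lit 9) (.e (nat_lit 335988) (nat_lit 1) (.e (nat_lit 57926) (nat_lit 282) .nil)))))) (.g (nat_lit 1) (.e (nat_lit 149210) (nat_lit 0) .nil) .nil))) 
(.lf (nat_lit 493433) (.g (nat_lit 3618) (.e (nat_lit 163874) (nat_lit 3) (.e (nat_lit 204873) (nat_lit 30) (.e (nat_lit 368676) (nat_lit 21) (.e (nat_lit 516131) (nat_lit 3) (.e (nat_lit 221215) (nat_lit 23) (.e (nat_lit 204829) (nat_lit 18) (.e (nat_lit 57926) (nat_lit 282) .nil))))))) (.g (nat_lit 1) (.e (nat_lit 150080) (nat_lit 0) .nil) .nil))))) (.nd (nat_lit 8) (.nd (nat_lit 9) 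
(.lf (nat_lit 492793) (.g (nat_lit 2708) (.e (nat_lit 163873) (nat_lit 3) (.e (nat_lit 204837) (nat_lit 20) (.e (nat_lit 114718) (nat_lit 23) (.e (nat_lit 98365) (nat_lit 26) (.e (nat_lit 426138) (nat_lit 3) (.e (nat_lit 204831) (nat_lit 18) (.e (nat_lit 57688) (nat_lit 156) .nil))))))) (.g (nat_lit 1) (.e (nat_lit 149071) (nat_lit 0) .nil) .nil))) 
(.lf (nat_lit 493305) (.g (nat_lit 2675) (.e (nat_lit 163874) (nat_lit 3) (.e (nat_lit 204861) (nat_lit 26) (.e (nat_lit 336075) (nat_lit 9) (.e (nat_lit 336454) (nat_lit 34) (.e (nat_lit 483365) (nat_lit 18) (.e (nat_lit 57930) (nat_lit 282) .nil)))))) (.g (nat_lit 1) (.e (nat_lit 149860) (nat_lit 0) .nil) .nil)))) (.nd (nat_lit 9) 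
(.lf (nat_lit 493049) (.g (nat_lit 2615) (.e (nat_lit 163874) (nat_lit 3) (.e (nat_lit 204837) (nat_lit 20) (.e (nat_lit 114714) (nat_lit 22) (.e (nat_lit 90174) (nat_lit 14) (.e (nat_lit 180243) (nat_lit 5) (.e (nat_lit 532500) (nat_lit 1) (.e (nat_lit 57692) (nat_lit 156) .nil))))))) (.g (nat_lit 1) (.e (nat_lit 149486) (nat_lit 0) .nil) .nil))) 
(.lf (nat_lit 493561) (.g (nat_lit 798) (.e (nat_lit 163875) (nat_lit 3) (.e (nat_lit 204830) (nat_lit 18) (.e (nat_lit 57852) (nat_lit 252) .nil))) (.g (nat_lit 0) (.e (nat_lit 150403) (nat_lit 0) .nil) .nil)))))))))) (.nd (nat_lit 3) (.nd (nat_lit 4) (.nd (nat_lit 5) (.nd (nat_lit 6) (.nd (nat_lit 7) (.nd (nat_lit 8) (.nd (nat_lit 9) 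
(.lf (nat_lit 492549) (.g (nat_lit 395) (.e (nat_lit 163873) (nat_lit 3) (.e (nat_lit 204813) (nat_lit 9) (.e (nat_lit 426188) (nat_lit 9) .nil))) (.g (nat_lit 0) (.e (nat_lit 148624) (nat_lit 0) .nil) .nil))) 
(.lf (nat_lit 493061) (.g (nat_lit 2814) (.e (nat_lit 163874) (nat_lit 3) (.e (nat_lit 204837) (nat_lit 20) (.e (nat_lit 114715) (nat_lit 22) (.e (nat_lit 90170) (nat_lit 13) (.e (nat_lit 172046) (nat_lit 0) (.e (nat_lit 3238) (nat_lit 197) (.e (nat_lit 532502) (nat_lit 1) (.e (nat_lit 57692) (nat_lit 156) .nil)))))))) (.g (nat_lit 1) (.e (nat_lit 149498) (nat_lit 0) .nil) .nil)))) 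
(.nd (nat_lit 9) 
(.lf (nat_lit 492805) (.g (nat_lit 3078) (.e (nat_lit 163873) (nat_lit 3) (.e (nat_lit 204837) (nat_lit 20) (.e (nat_lit 114719) (nat_lit 23) (.e (nat_lit 98366) (nat_lit 27) (.e (nat_lit 434232) (nat_lit 23) (.e (nat_lit 532503) (nat_lit 1) (.e (nat_lit 57688) (nat_lit 156) .nil))))))) (.g (nat_lit 1) (.e (nat_lit 149083) (nat_lit 0) .nil) .nil))) 
(.lf (nat_lit 493317) (.g (nat_lit 1025) (.e (nat_lit 163874) (nat_lit 3) (.e (nat_lit 204861) (nat_lit 26) (.e (nat_lit 336076) (nat_lit 9) (.e (nat_lit 336454) (nat_lit 34) .nil)))) (.g (nat_lit 0) (.e (nat_lit 149878) (nat_lit 0) .nil) .nil))))) (.nd (nat_lit 8) (.nd (nat_lit 9) 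
(.lf (nat_lit 492677) (.g (nat_lit 382) (.e (nat_lit 163873) (nat_lit 3) (.e (nat_lit 204813) (nat_lit 9) (.e (nat_lit 426199) (nat_lit 9) .nil))) (.g (nat_lit 0) (.e (nat_lit 148772) (nat_lit 0) .nil) .nil))) 
(.lf (nat_lit 493189) (.g (nat_lit 4265) (.e (nat_lit 163874) (nat_lit 3) (.e (nat_lit 204838) (nat_lit 20) (.e (nat_lit 114716) (nat_lit 22) (.e (nat_lit 90174) (nat_lit 14) (.e (nat_lit 180243) (nat_lit 5) (.e (nat_lit 532499) (nat_lit 1) (.e (nat_lit 57691) (nat_lit 156) .nil))))))) (.g (nat_lit 1) (.e (nat_lit 149626) (nat_lit 0) .nil) .nil)))) (.nd (nat_lit 9) 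
(.lf (nat_lit 492933) (.g (nat_lit 1435) (.e (nat_lit 163874) (nat_lit 3) (.e (nat_lit 204809) (nat_lit 9) (.e (nat_lit 426139) (nat_lit 3) (.e (nat_lit 204833) (nat_lit 19) .nil)))) (.g (nat_lit 0) (.e (nat_lit 149252) (nat_lit 0) .nil) .nil))) 
(.lf (nat_lit 493445) (.g (nat_lit 1808) (.e (nat_lit 163874) (nat_lit 3) (.e (nat_lit 204877) (nat_lit 31) (.e (nat_lit 376842) (nat_lit 11) (.e (nat_lit 426497) (nat_lit 27) (.e (nat_lit 335987) (nat_lit 1) (.e (nat_lit 57927) (nat_lit 282) .nil)))))) (.g (nat_lit 1) (.e (nat_lit 150093) (nat_lit 0) .nil) .nil)))))) (.nd (nat_lit 7) (.nd (nat_lit 8) (.nd (nat_lit 9) 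
(.lf (nat_lit 492613) (.g (nat_lit 4992) (.e (nat_lit 163873) (nat_lit 3) (.e (nat_lit 204813) (nat_lit 9) (.e (nat_lit 426196) (nat_lit 9) (.e (nat_lit 426566) (nat_lit 34) (.e (nat_lit 393253) (nat_lit 18) (.e (nat_lit 164332) (nat_lit 230) .nil)))))) (.g (nat_lit 1) (.e (nat_lit 148692) (nat_lit 0) .nil) .nil))) 
(.lf (nat_lit 493125) (.g (nat_lit 3519) (.e (nat_lit 163874) (nat_lit 3) (.e (nat_lit 204837) (nat_lit 20) (.e (nat_lit 114719) (nat_lit 23) (.e (nat_lit 98366) (nat_lit 27) (.e (nat_lit 434231) (nat_lit 23) (.e (nat_lit 532502) (nat_lit 1) (.e (nat_lit 57688) (nat_lit 156) .nil))))))) (.g (nat_lit 1) (.e (nat_lit 149562) (nat_lit 0) .nil) .nil)))) (.nd (nat_lit 9) 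
(.lf (nat_lit 492869) (.g (nat_lit 2593) (.e (nat_lit 163873) (nat_lit 3) (.e (nat_lit 204853) (nat_lit 26) (.e (nat_lit 336019) (nat_lit 3) (.e (nat_lit 98342) (nat_lit 20) (.e (nat_lit 221214) (nat_lit 23) (.e (nat_lit 204830) (nat_lit 18) (.e (nat_lit 57930) (nat_lit 282) .nil))))))) (.g (nat_lit 1) (.e (nat_lit 149150) (nat_lit 0) .nil) .nil))) 
(.lf (nat_lit 493381) (.g (nat_lit 895) (.e (nat_lit 163874) (nat_lit 3) (.e (nat_lit 204863) (nat_lit 27) (.e (nat_lit 344120) (nat_lit 21) .nil))) (.g (nat_lit 0) (.e (nat_lit 149966) (nat_lit 0) .nil) .nil))))) (.nd (nat_lit 8) (.nd (nat_lit 9) 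
(.lf (nat_lit 492741) (.g (nat_lit 2228) (.e (nat_lit 163873) (nat_lit 3) (.e (nat_lit 204813) (nat_lit 9) (.e (nat_lit 426200) (nat_lit 9) (.e (nat_lit 426478) (nat_lit 27) (.e (nat_lit 336388) (nat_lit 27) (.e (nat_lit 426100) (nat_lit 1) (.e (nat_lit 164332) (nat_lit 230) .nil))))))) (.g (nat_lit 1) (.e (nat_lit 148842) (nat_lit 0) .nil) .nil))) 
(.lf (nat_lit 493253) (.g (nat_lit 4078) (.e (nat_lit 163874) (nat_lit 3) (.e (nat_lit 204851) (nat_lit 26) (.e (nat_lit 336019) (nat_lit 3) (.e (nat_lit 98342) (nat_lit 20) (.e (nat_lit 221215) (nat_lit 23) (.e (nat_lit 204829) (nat_lit 18) (.e (nat_lit 57927) (nat_lit 282) .nil))))))) (.g (nat_lit 1) (.e (nat_lit 149697) (nat_lit 0) .nil) .nil)))) (.nd (nat_lit 9) 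
(.lf (nat_lit 492997) (.g (nat_lit 2643) (.e (nat_lit 163874) (nat_lit 3) (.e (nat_lit 204813) (nat_lit 9) (.e (nat_lit 426197) (nat_lit 9) (.e (nat_lit 426566) (nat_lit 34) (.e (nat_lit 393252) (nat_lit 18) (.e (nat_lit 164332) (nat_lit 230) .nil)))))) (.g (nat_lit 1) (.e (nat_lit 149364) (nat_lit 0) .nil) .nil))) 
(.lf (nat_lit 493509) (.g (nat_lit 2992) (.e (nat_lit 163875) (nat_lit 3) (.e (nat_lit 204813) (nat_lit 9) (.e (nat_lit 426198) (nat_lit 9) (.e (nat_lit 426568) (nat_lit 34) (.e (nat_lit 393251) (nat_lit 18) (.e (nat_lit 164327) (nat_lit 230) .nil)))))) (.g (nat_lit 1) (.e (nat_lit 150279) (nat_lit 0) .nil) .nil))))))) (.nd (nat_lit 6) (.nd (nat_lit 7) (.nd (nat_lit 8) (.nd (nat_lit 9) 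
(.lf (nat_lit 492581) (.g (nat_lit 2791) (.e (nat_lit 163873) (nat_lit 3) (.e (nat_lit 204813) (nat_lit 9) (.e (nat_lit 426189) (nat_lit 9) (.e (nat_lit 426566) (nat_lit 34) (.e (nat_lit 393251) (nat_lit 18) (.e (nat_lit 164332) (nat_lit 230) .nil)))))) (.g (nat_lit 1) (.e (nat_lit 148660) (nat_lit 0) .nil) .nil))) 
(.lf (nat_lit 493093) (.g (nat_lit 5149) (.e (nat_lit 163874) (nat_lit 3) (.e (nat_lit 204837) (nat_lit 20) (.e (nat_lit 114718) (nat_lit 23) (.e (nat_lit 98367) (nat_lit 27) (.e (nat_lit 434231) (nat_lit 23) (.e (nat_lit 532499) (nat_lit 1) (.e (nat_lit 57688) (nat_lit 156) .nil))))))) (.g (nat_lit 1) (.e (nat_lit 149530) (nat_lit 0) .nil) .nil)))) (.nd (nat_lit 9) 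
(.lf (nat_lit 492837) (.g (nat_lit 4978) (.e (nat_lit 163873) (nat_lit 3) (.e (nat_lit 204838) (nat_lit 20) (.e (nat_lit 114719) (nat_lit 23) (.e (nat_lit 98365) (nat_lit 26) (.e (nat_lit 426133) (nat_lit 3) (.e (nat_lit 204829) (nat_lit 18) (.e (nat_lit 57688) (nat_lit 156) .nil))))))) (.g (nat_lit 1) (.e (nat_lit 149115) (nat_lit 0) .nil) .nil))) 
(.lf (nat_lit 493349) (.g (nat_lit 2753) (.e (nat_lit 163874) (nat_lit 3) (.e (nat_lit 204862) (nat_lit 27) (.e (nat_lit 344117) (nat_lit 21) (.e (nat_lit 516122) (nat_lit 2) (.e (nat_lit 213036) (nat_lit 13) (.e (nat_lit 229433) (nat_lit 25) (.e (nat_lit 532501) (nat_lit 1) (.e (nat_lit 57926) (nat_lit 282) .nil)))))))) (.g (nat_lit 1) (.e (nat_lit 149934) (nat_lit 0) .nil) .nil))))) 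
(.nd (nat_lit 8) (.nd (nat_lit 9) 
(.lf (nat_lit 492709) (.g (nat_lit 3007) (.e (nat_lit 163873) (nat_lit 3) (.e (nat_lit 204813) (nat_lit 9) (.e (nat_lit 426199) (nat_lit 9) (.e (nat_lit 426564) (nat_lit 34) (.e (nat_lit 393253) (nat_lit 18) (.e (nat_lit 164327) (nat_lit 230) .nil)))))) (.g (nat_lit 1) (.e (nat_lit 148810) (nat_lit 0) .nil) .nil))) 
(.lf (nat_lit 493221) (.g (nat_lit 4844) (.e (nat_lit 163874) (nat_lit 3) (.e (nat_lit 204838) (nat_lit 20) (.e (nat_lit 114719) (nat_lit 23) (.e (nat_lit 98366) (nat_lit 27) (.e (nat_lit 434231) (nat_lit 23) (.e (nat_lit 532499) (nat_lit 1) (.e (nat_lit 57688) (nat_lit 156) .nil))))))) (.g (nat_lit 1) (.e (nat_lit 149658) (nat_lit 0) .nil) .nil)))) (.nd (nat_lit 9) 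
(.lf (nat_lit 492965) (.g (nat_lit 1947) (.e (nat_lit 163874) (nat_lit 3) (.e (nat_lit 204811) (nat_lit 9) (.e (nat_lit 426260) (nat_lit 9) (.e (nat_lit 426565) (nat_lit 34) (.e (nat_lit 393253) (nat_lit 18) (.e (nat_lit 164330) (nat_lit 230) .nil)))))) (.g (nat_lit 1) (.e (nat_lit 149323) (nat_lit 0) .nil) .nil))) 
(.lf (nat_lit 493477) (.g (nat_lit 2104) (.e (nat_lit 163875) (nat_lit 3) (.e (nat_lit 204812) (nat_lit 9) (.e (nat_lit 426188) (nat_lit 9) (.e (nat_lit 426566) (nat_lit 34) (.e (nat_lit 393253) (nat_lit 18) (.e (nat_lit 164326) (nat_lit 230) .nil)))))) (.g (nat_lit 1) (.e (nat_lit 150215) (nat_lit 0) .nil) .nil)))))) (.nd (nat_lit 7) (.nd (nat_lit 8) (.nd (nat_lit 9) 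
(.lf (nat_lit 492645) (.g (nat_lit 3092) (.e (nat_lit 163873) (nat_lit 3) (.e (nat_lit 204813) (nat_lit 9) (.e (nat_lit 426198) (nat_lit 9) (.e (nat_lit 426480) (nat_lit 27) (.e (nat_lit 336389) (nat_lit 27) (.e (nat_lit 426098) (nat_lit 1) (.e (nat_lit 164327) (nat_lit 230) .nil))))))) (.g (nat_lit 1) (.e (nat_lit 148725) (nat_lit 0) .nil) .nil))) 
(.lf (nat_lit 493157) (.g (nat_lit 2676) (.e (nat_lit 163874) (nat_lit 3) (.e (nat_lit 204838) (nat_lit 20) (.e (nat_lit 114714) (nat_lit 22) (.e (nat_lit 90174) (nat_lit 14) (.e (nat_lit 180243) (nat_lit 5) (.e (nat_lit 532501) (nat_lit 1) (.e (nat_lit 57685) (nat_lit 156) .nil))))))) (.g (nat_lit 1) (.e (nat_lit 149594) (nat_lit 0) .nil) .nil)))) (.nd (nat_lit 9) 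
(.lf (nat_lit 492901) (.g (nat_lit 1944) (.e (nat_lit 163873) (nat_lit 3) (.e (nat_lit 204861) (nat_lit 26) (.e (nat_lit 336076) (nat_lit 9) (.e (nat_lit 336377) (nat_lit 27) (.e (nat_lit 426524) (nat_lit 27) (.e (nat_lit 335986) (nat_lit 1) (.e (nat_lit 57927) (nat_lit 282) .nil))))))) (.g (nat_lit 1) (.e (nat_lit 149186) (nat_lit 0) .nil) .nil))) 
(.lf (nat_lit 493413) (.g (nat_lit 2840) (.e (nat_lit 163874) (nat_lit 3) (.e (nat_lit 204864) (nat_lit 27) (.e (nat_lit 344130) (nat_lit 26) (.e (nat_lit 557103) (nat_lit 14) (.e (nat_lit 180244) (nat_lit 5) (.e (nat_lit 532499) (nat_lit 1) (.e (nat_lit 65280) (nat_lit 168) .nil))))))) (.g (nat_lit 1) (.e (nat_lit 149998) (nat_lit 0) .nil) .nil))))) (.nd (nat_lit 8) (.nd (nat_lit 9) 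
(.lf (nat_lit 492773) (.g (nat_lit 3850) (.e (nat_lit 163873) (nat_lit 3) (.e (nat_lit 204813) (nat_lit 9) (.e (nat_lit 426200) (nat_lit 9) (.e (nat_lit 426568) (nat_lit 34) (.e (nat_lit 393253) (nat_lit 18) (.e (nat_lit 164327) (nat_lit 230) .nil)))))) (.g (nat_lit 1) (.e (nat_lit 148890) (nat_lit 0) .nil) .nil))) 
(.lf (nat_lit 493285) (.g (nat_lit 4322) (.e (nat_lit 163874) (nat_lit 3) (.e (nat_lit 204854) (nat_lit 26) (.e (nat_lit 336019) (nat_lit 3) (.e (nat_lit 98342) (nat_lit 20) (.e (nat_lit 221215) (nat_lit 23) (.e (nat_lit 204830) (nat_lit 18) (.e (nat_lit 57929) (nat_lit 282) .nil))))))) (.g (nat_lit 1) (.e (nat_lit 149792) (nat_lit 0) .nil) .nil)))) (.nd (nat_lit 9) 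
(.lf (nat_lit 493029) (.g (nat_lit 1261) (.e (nat_lit 163874) (nat_lit 3) (.e (nat_lit 204829) (nat_lit 18) (.e (nat_lit 57688) (nat_lit 156) .nil))) (.g (nat_lit 0) (.e (nat_lit 149466) (nat_lit 0) .nil) .nil))) 
(.lf (nat_lit 493541) (.g (nat_lit 1322) (.e (nat_lit 163875) (nat_lit 3) (.e (nat_lit 204829) (nat_lit 18) (.e (nat_lit 57847) (nat_lit 252) (.e (nat_lit 57410) (nat_lit 12) .nil)))) (.g (nat_lit 0) (.e (nat_lit 150383) (nat_lit 0) .nil) .nil)))))))) (.nd (nat_lit 5) (.nd (nat_lit 6) (.nd (nat_lit 7) (.nd (nat_lit 8) (.nd (nat_lit 9) 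
(.lf (nat_lit 492565) (.g (nat_lit 3240) (.e (nat_lit 163873) (nat_lit 3) (.e (nat_lit 204813) (nat_lit 9) (.e (nat_lit 426188) (nat_lit 9) (.e (nat_lit 426566) (nat_lit 34) (.e (nat_lit 393254) (nat_lit 18) (.e (nat_lit 164322) (nat_lit 230) .nil)))))) (.g (nat_lit 1) (.e (nat_lit 148643) (nat_lit 0) .nil) .nil))) 
(.lf (nat_lit 493077) (.g (nat_lit 2294) (.e (nat_lit 163874) (nat_lit 3) (.e (nat_lit 204837) (nat_lit 20) (.e (nat_lit 114715) (nat_lit 22) (.e (nat_lit 90174) (nat_lit 14) (.e (nat_lit 180243) (nat_lit 5) (.e (nat_lit 532499) (nat_lit 1) (.e (nat_lit 57691) (nat_lit 156) .nil))))))) (.g (nat_lit 1) (.e (nat_lit 149514) (nat_lit 0) .nil) .nil)))) (.nd (nat_lit 9) 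
(.lf (nat_lit 492821) (.g (nat_lit 2674) (.e (nat_lit 163873) (nat_lit 3) (.e (nat_lit 204838) (nat_lit 20) (.e (nat_lit 114716) (nat_lit 22) (.e (nat_lit 90170) (nat_lit 13) (.e (nat_lit 172065) (nat_lit 3) .nil))))) (.g (nat_lit 0) (.e (nat_lit 149099) (nat_lit 0) .nil) .nil))) 
(.lf (nat_lit 493333) (.g (nat_lit 2019) (.e (nat_lit 163874) (nat_lit 3) (.e (nat_lit 204861) (nat_lit 26) (.e (nat_lit 336213) (nat_lit 13) (.e (nat_lit 393225) (nat_lit 9) (.e (nat_lit 335914) (nat_lit 0) .nil))))) (.g (nat_lit 0) (.e (nat_lit 149915) (nat_lit 0) .nil) .nil))))) (.nd (nat_lit 8) (.nd (nat_lit 9) 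
(.lf (nat_lit 492693) (.g (nat_lit 3024) (.e (nat_lit 163873) (nat_lit 3) (.e (nat_lit 204813) (nat_lit 9) (.e (nat_lit 426199) (nat_lit 9) (.e (nat_lit 426481) (nat_lit 27) (.e (nat_lit 336388) (nat_lit 27) (.e (nat_lit 426107) (nat_lit 1) (.e (nat_lit 164325) (nat_lit 230) .nil))))))) (.g (nat_lit 1) (.e (nat_lit 148794) (nat_lit 0) .nil) .nil))) 
(.lf (nat_lit 493205) (.g (nat_lit 4120) (.e (nat_lit 163874) (nat_lit 3) (.e (nat_lit 204838) (nat_lit 20) (.e (nat_lit 114718) (nat_lit 23) (.e (nat_lit 98367) (nat_lit 27) (.e (nat_lit 434231) (nat_lit 23) (.e (nat_lit 532499) (nat_lit 1) (.e (nat_lit 57692) (nat_lit 156) .nil))))))) (.g (nat_lit 1) (.e (nat_lit 149642) (nat_lit 0) .nil) .nil)))) (.nd (nat_lit 9) 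
(.lf (nat_lit 492949) (.g (nat_lit 2883) (.e (nat_lit 163874) (nat_lit 3) (.e (nat_lit 204809) (nat_lit 9) (.e (nat_lit 426198) (nat_lit 9) (.e (nat_lit 426566) (nat_lit 34) (.e (nat_lit 393252) (nat_lit 18) (.e (nat_lit 164332) (nat_lit 230) .nil)))))) (.g (nat_lit 1) (.e (nat_lit 149271) (nat_lit 0) .nil) .nil))) 
(.lf (nat_lit 493461) (.g (nat_lit 3018) (.e (nat_lit 163875) (nat_lit 3) (.e (nat_lit 204809) (nat_lit 9) (.e (nat_lit 426198) (nat_lit 9) (.e (nat_lit 426566) (nat_lit 34) (.e (nat_lit 393253) (nat_lit 18) (.e (nat_lit 164325) (nat_lit 230) .nil)))))) (.g (nat_lit 1) (.e (nat_lit 150153) (nat_lit 0) .nil) .nil)))))) (.nd (nat_lit 7) (.nd (nat_lit 8) (.nd (nat_lit 9) 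
(.lf (nat_lit 492629) (.g (nat_lit 4037) (.e (nat_lit 163873) (nat_lit 3) (.e (nat_lit 204813) (nat_lit 9) (.e (nat_lit 426197) (nat_lit 9) (.e (nat_lit 426568) (nat_lit 34) (.e (nat_lit 393251) (nat_lit 18) (.e (nat_lit 164327) (nat_lit 230) .nil)))))) (.g (nat_lit 1) (.e (nat_lit 148709) (nat_lit 0) .nil) .nil))) 
(.lf (nat_lit 493141) (.g (nat_lit 2383) (.e (nat_lit 163874) (nat_lit 3) (.e (nat_lit 204837) (nat_lit 20) (.e (nat_lit 114719) (nat_lit 23) (.e (nat_lit 98367) (nat_lit 27) (.e (nat_lit 434232) (nat_lit 23) (.e (nat_lit 532499) (nat_lit 1) (.e (nat_lit 57691) (nat_lit 156) .nil))))))) (.g (nat_lit 1) (.e (nat_lit 149578) (nat_lit 0) .nil) .nil)))) (.nd (nat_lit 9) 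
(.lf (nat_lit 492885) (.g (nat_lit 370) (.e (nat_lit 163873) (nat_lit 3) (.e (nat_lit 204861) (nat_lit 26) (.e (nat_lit 336075) (nat_lit 9) .nil))) (.g (nat_lit 0) (.e (nat_lit 149166) (nat_lit 0) .nil) .nil))) 
(.lf (nat_lit 493397) (.g (nat_lit 2080) (.e (nat_lit 163874) (nat_lit 3) (.e (nat_lit 204863) (nat_lit 27) (.e (nat_lit 344133) (nat_lit 26) (.e (nat_lit 557096) (nat_lit 13) .nil)))) (.g (nat_lit 0) (.e (nat_lit 149982) (nat_lit 0) .nil) .nil))))) (.nd (nat_lit 8) (.nd (nat_lit 9) 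
(.lf (nat_lit 492757) (.g (nat_lit 3422) (.e (nat_lit 163873) (nat_lit 3) (.e (nat_lit 204813) (nat_lit 9) (.e (nat_lit 426200) (nat_lit 9) (.e (nat_lit 426566) (nat_lit 34) (.e (nat_lit 393252) (nat_lit 18) (.e (nat_lit 164330) (nat_lit 230) .nil)))))) (.g (nat_lit 1) (.e (nat_lit 148871) (nat_lit 0) .nil) .nil))) 
(.lf (nat_lit 493269) (.g (nat_lit 3383) (.e (nat_lit 163874) (nat_lit 3) (.e (nat_lit 204854) (nat_lit 26) (.e (nat_lit 336019) (nat_lit 3) (.e (nat_lit 98341) (nat_lit 20) (.e (nat_lit 221215) (nat_lit 23) (.e (nat_lit 204829) (nat_lit 18) (.e (nat_lit 57931) (nat_lit 282) .nil))))))) (.g (nat_lit 1) (.e (nat_lit 149775) (nat_lit 0) .nil) .nil)))) (.nd (nat_lit 9) 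
(.lf (nat_lit 493013) (.g (nat_lit 1849) (.e (nat_lit 163874) (nat_lit 3) (.e (nat_lit 204813) (nat_lit 9) (.e (nat_lit 426200) (nat_lit 9) (.e (nat_lit 426481) (nat_lit 27) (.e (nat_lit 336388) (nat_lit 27) (.e (nat_lit 426098) (nat_lit 1) (.e (nat_lit 164325) (nat_lit 230) .nil))))))) (.g (nat_lit 1) (.e (nat_lit 149381) (nat_lit 0) .nil) .nil))) 
(.lf (nat_lit 493525) (.g (nat_lit 4134) (.e (nat_lit 163875) (nat_lit 3) (.e (nat_lit 204813) (nat_lit 9) (.e (nat_lit 426200) (nat_lit 9) (.e (nat_lit 426481) (nat_lit 27) (.e (nat_lit 336389) (nat_lit 27) (.e (nat_lit 426098) (nat_lit 1) (.e (nat_lit 164327) (nat_lit 230) .nil))))))) (.g (nat_lit 1) (.e (nat_lit 150300) (nat_lit 0) .nil) .nil))))))) 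
(.nd (nat_lit 6) (.nd (nat_lit 7) (.nd (nat_lit 8) (.nd (nat_lit 9) 
(.lf (nat_lit 492597) (.g (nat_lit 3650) (.e (nat_lit 163873) (nat_lit 3) (.e (nat_lit 204813) (nat_lit 9) (.e (nat_lit 426190) (nat_lit 9) (.e (nat_lit 426566) (nat_lit 34) (.e (nat_lit 393251) (nat_lit 18) (.e (nat_lit 164331) (nat_lit 230) .nil)))))) (.g (nat_lit 1) (.e (nat_lit 148676) (nat_lit 0) .nil) .nil))) 
(.lf (nat_lit 493109) (.g (nat_lit 3210) (.e (nat_lit 163874) (nat_lit 3) (.e (nat_lit 204837) (nat_lit 20) (.e (nat_lit 114718) (nat_lit 23) (.e (nat_lit 98367) (nat_lit 27) (.e (nat_lit 434234) (nat_lit 23) (.e (nat_lit 532504) (nat_lit 1) (.e (nat_lit 57692) (nat_lit 156) .nil))))))) (.g (nat_lit 1) (.e (nat_lit 149546) (nat_lit 0) .nil) .nil)))) (.nd (nat_lit 9) 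
(.lf (nat_lit 492853) (.g (nat_lit 2296) (.e (nat_lit 163873) (nat_lit 3) (.e (nat_lit 204838) (nat_lit 20) (.e (nat_lit 114719) (nat_lit 23) (.e (nat_lit 98367) (nat_lit 27) (.e (nat_lit 434234) (nat_lit 23) (.e (nat_lit 532502) (nat_lit 1) (.e (nat_lit 57688) (nat_lit 156) .nil))))))) (.g (nat_lit 1) (.e (nat_lit 149131) (nat_lit 0) .nil) .nil))) 
(.lf (nat_lit 493365) (.g (nat_lit 2405) (.e (nat_lit 163874) (nat_lit 3) (.e (nat_lit 204863) (nat_lit 27) (.e (nat_lit 344117) (nat_lit 21) (.e (nat_lit 516123) (nat_lit 2) (.e (nat_lit 213033) (nat_lit 12) (.e (nat_lit 163962) (nat_lit 25) (.e (nat_lit 532500) (nat_lit 1) (.e (nat_lit 57926) (nat_lit 282) .nil)))))))) (.g (nat_lit 1) (.e (nat_lit 149950) (nat_lit 0) .nil) .nil))))) 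
(.nd (nat_lit 8) (.nd (nat_lit 9) 
(.lf (nat_lit 492725) (.g (nat_lit 4170) (.e (nat_lit 163873) (nat_lit 3) (.e (nat_lit 204813) (nat_lit 9) (.e (nat_lit 426199) (nat_lit 9) (.e (nat_lit 426568) (nat_lit 34) (.e (nat_lit 393251) (nat_lit 18) (.e (nat_lit 164332) (nat_lit 230) .nil)))))) (.g (nat_lit 1) (.e (nat_lit 148826) (nat_lit 0) .nil) .nil))) 
(.lf (nat_lit 493237) (.g (nat_lit 2140) (.e (nat_lit 163874) (nat_lit 3) (.e (nat_lit 204838) (nat_lit 20) (.e (nat_lit 114719) (nat_lit 23) (.e (nat_lit 98376) (nat_lit 30) (.e (nat_lit 458789) (nat_lit 23) (.e (nat_lit 532502) (nat_lit 1) (.e (nat_lit 57692) (nat_lit 156) .nil))))))) (.g (nat_lit 1) (.e (nat_lit 149674) (nat_lit 0) .nil) .nil)))) (.nd (nat_lit 9) 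
(.lf (nat_lit 492981) (.g (nat_lit 3463) (.e (nat_lit 163874) (nat_lit 3) (.e (nat_lit 204813) (nat_lit 9) (.e (nat_lit 426188) (nat_lit 9) (.e (nat_lit 426568) (nat_lit 34) (.e (nat_lit 393251) (nat_lit 18) (.e (nat_lit 164325) (nat_lit 230) .nil)))))) (.g (nat_lit 1) (.e (nat_lit 149348) (nat_lit 0) .nil) .nil))) 
(.lf (nat_lit 493493) (.g (nat_lit 3398) (.e (nat_lit 163875) (nat_lit 3) (.e (nat_lit 204813) (nat_lit 9) (.e (nat_lit 426189) (nat_lit 9) (.e (nat_lit 426566) (nat_lit 34) (.e (nat_lit 393251) (nat_lit 18) (.e (nat_lit 164327) (nat_lit 230) .nil)))))) (.g (nat_lit 1) (.e (nat_lit 150258) (nat_lit 0) .nil) .nil)))))) (.nd (nat_lit 7) (.nd (nat_lit 8) (.nd (nat_lit 9) 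
(.lf (nat_lit 492661) (.g (nat_lit 3335) (.e (nat_lit 163873) (nat_lit 3) (.e (nat_lit 204813) (nat_lit 9) (.e (nat_lit 426198) (nat_lit 9) (.e (nat_lit 426566) (nat_lit 34) (.e (nat_lit 393254) (nat_lit 18) (.e (nat_lit 164322) (nat_lit 230) .nil)))))) (.g (nat_lit 1) (.e (nat_lit 148756) (nat_lit 0) .nil) .nil))) 
(.lf (nat_lit 493173) (.g (nat_lit 4182) (.e (nat_lit 163874) (nat_lit 3) (.e (nat_lit 204838) (nat_lit 20) (.e (nat_lit 114715) (nat_lit 22) (.e (nat_lit 90170) (nat_lit 13) (.e (nat_lit 172065) (nat_lit 3) (.e (nat_lit 204830) (nat_lit 18) (.e (nat_lit 57690) (nat_lit 156) .nil))))))) (.g (nat_lit 1) (.e (nat_lit 149610) (nat_lit 0) .nil) .nil)))) (.nd (nat_lit 9) 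
(.lf (nat_lit 492917) (.g (nat_lit 2092) (.e (nat_lit 163873) (nat_lit 3) (.e (nat_lit 204861) (nat_lit 26) (.e (nat_lit 336213) (nat_lit 13) (.e (nat_lit 393225) (nat_lit 9) (.e (nat_lit 336030) (nat_lit 4) .nil))))) (.g (nat_lit 0) (.e (nat_lit 149206) (nat_lit 0) .nil) .nil))) 
(.lf (nat_lit 493429) (.g (nat_lit 2170) (.e (nat_lit 163874) (nat_lit 3) (.e (nat_lit 204872) (nat_lit 30) (.e (nat_lit 368676) (nat_lit 21) (.e (nat_lit 516129) (nat_lit 3) (.e (nat_lit 221215) (nat_lit 23) (.e (nat_lit 204830) (nat_lit 18) (.e (nat_lit 57929) (nat_lit 282) .nil))))))) (.g (nat_lit 1) (.e (nat_lit 150073) (nat_lit 0) .nil) .nil))))) (.nd (nat_lit 8) (.nd (nat_lit 9) 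
(.lf (nat_lit 492789) (.g (nat_lit 2227) (.e (nat_lit 163873) (nat_lit 3) (.e (nat_lit 204837) (nat_lit 20) (.e (nat_lit 114714) (nat_lit 22) (.e (nat_lit 90169) (nat_lit 13) (.e (nat_lit 172057) (nat_lit 0) .nil))))) (.g (nat_lit 0) (.e (nat_lit 149067) (nat_lit 0) .nil) .nil))) 
(.lf (nat_lit 493301) (.g (nat_lit 512) (.e (nat_lit 163874) (nat_lit 3) (.e (nat_lit 204861) (nat_lit 26) (.e (nat_lit 336074) (nat_lit 9) .nil))) (.g (nat_lit 0) (.e (nat_lit 149836) (nat_lit 0) .nil) .nil)))) (.nd (nat_lit 9) 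
(.lf (nat_lit 493045) (.g (nat_lit 2431) (.e (nat_lit 163874) (nat_lit 3) (.e (nat_lit 204836) (nat_lit 20) (.e (nat_lit 114719) (nat_lit 23) (.e (nat_lit 98367) (nat_lit 27) (.e (nat_lit 434234) (nat_lit 23) (.e (nat_lit 532499) (nat_lit 1) (.e (nat_lit 57692) (nat_lit 156) .nil))))))) (.g (nat_lit 1) (.e (nat_lit 149482) (nat_lit 0) .nil) .nil))) 
(.lf (nat_lit 493557) (.g (nat_lit 2618) (.e (nat_lit 163875) (nat_lit 3) (.e (nat_lit 204829) (nat_lit 18) (.e (nat_lit 57927) (nat_lit 282) (.e (nat_lit 164084) (nat_lit 73) (.e (nat_lit 336011) (nat_lit 2) (.e (nat_lit 90170) (nat_lit 13) (.e (nat_lit 172061) (nat_lit 1) (.e (nat_lit 164327) (nat_lit 230) .nil)))))))) (.g (nat_lit 1) (.e (nat_lit 150399) (nat_lit 0) .nil) .nil))))))))) 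
(.nd (nat_lit 4) (.nd (nat_lit 5) (.nd (nat_lit 6) (.nd (nat_lit 7) (.nd (nat_lit 8) 
(.nd (nat_lit 9) 
(.lf (nat_lit 492557) (.g (nat_lit 2375) (.e (nat_lit 163873) (nat_lit 3) (.e (nat_lit 204813) (nat_lit 9) (.e (nat_lit 426188) (nat_lit 9) (.e (nat_lit 426564) (nat_lit 34) (.e (nat_lit 393252) (nat_lit 18) (.e (nat_lit 164332) (nat_lit 230) .nil)))))) (.g (nat_lit 1) (.e (nat_lit 148635) (nat_lit 0) .nil) .nil))) 
(.lf (nat_lit 493069) (.g (nat_lit 3149) (.e (nat_lit 163874) (nat_lit 3) (.e (nat_lit 204837) (nat_lit 20) (.e (nat_lit 114715) (nat_lit 22) (.e (nat_lit 90170) (nat_lit 13) (.e (nat_lit 172066) (nat_lit 3) (.e (nat_lit 204829) (nat_lit 18) (.e (nat_lit 57688) (nat_lit 156) .nil))))))) (.g (nat_lit 1) (.e (nat_lit 149506) (nat_lit 0) .nil) .nil)))) (.nd (nat_lit 9) 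
(.lf (nat_lit 492813) (.g (nat_lit 4924) (.e (nat_lit 163873) (nat_lit 3) (.e (nat_lit 204838) (nat_lit 20) (.e (nat_lit 114715) (nat_lit 22) (.e (nat_lit 90170) (nat_lit 13) (.e (nat_lit 172065) (nat_lit 3) (.e (nat_lit 204829) (nat_lit 18) (.e (nat_lit 57688) (nat_lit 156) .nil))))))) (.g (nat_lit 1) (.e (nat_lit 149091) (nat_lit 0) .nil) .nil))) 
(.lf (nat_lit 493325) (.g (nat_lit 3395) (.e (nat_lit 163874) (nat_lit 3) (.e (nat_lit 204861) (nat_lit 26) (.e (nat_lit 336077) (nat_lit 9) (.e (nat_lit 336454) (nat_lit 34) (.e (nat_lit 483365) (nat_lit 18) (.e (nat_lit 57929) (nat_lit 282) .nil)))))) (.g (nat_lit 1) (.e (nat_lit 149901) (nat_lit 0) .nil) .nil))))) (.nd (nat_lit 8) (.nd (nat_lit 9) 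
(.lf (nat_lit 492685) (.g (nat_lit 3021) (.e (nat_lit 163873) (nat_lit 3) (.e (nat_lit 204813) (nat_lit 9) (.e (nat_lit 426199) (nat_lit 9) (.e (nat_lit 426480) (nat_lit 27) (.e (nat_lit 336388) (nat_lit 27) (.e (nat_lit 426100) (nat_lit 1) (.e (nat_lit 164332) (nat_lit 230) .nil))))))) (.g (nat_lit 1) (.e (nat_lit 148780) (nat_lit 0) .nil) .nil))) 
(.lf (nat_lit 493197) (.g (nat_lit 4362) (.e (nat_lit 163874) (nat_lit 3) (.e (nat_lit 204838) (nat_lit 20) (.e (nat_lit 114716) (nat_lit 22) (.e (nat_lit 90174) (nat_lit 14) (.e (nat_lit 180243) (nat_lit 5) (.e (nat_lit 532504) (nat_lit 1) (.e (nat_lit 57691) (nat_lit 156) .nil))))))) (.g (nat_lit 1) (.e (nat_lit 149634) (nat_lit 0) .nil) .nil)))) (.nd (nat_lit 9) 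
(.lf (nat_lit 492941) (.g (nat_lit 3264) (.e (nat_lit 163874) (nat_lit 3) (.e (nat_lit 204809) (nat_lit 9) (.e (nat_lit 426188) (nat_lit 9) (.e (nat_lit 426568) (nat_lit 34) (.e (nat_lit 393253) (nat_lit 18) (.e (nat_lit 164332) (nat_lit 230) .nil)))))) (.g (nat_lit 1) (.e (nat_lit 149263) (nat_lit 0) .nil) .nil))) 
(.lf (nat_lit 493453) (.g (nat_lit 2230) (.e (nat_lit 163875) (nat_lit 3) (.e (nat_lit 204809) (nat_lit 9) (.e (nat_lit 426188) (nat_lit 9) (.e (nat_lit 426568) (nat_lit 34) (.e (nat_lit 393251) (nat_lit 18) (.e (nat_lit 164327) (nat_lit 230) .nil)))))) (.g (nat_lit 1) (.e (nat_lit 150145) (nat_lit 0) .nil) .nil)))))) (.nd (nat_lit 7) (.nd (nat_lit 8) (.nd (nat_lit 9) 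
(.lf (nat_lit 492621) (.g (nat_lit 4413) (.e (nat_lit 163873) (nat_lit 3) (.e (nat_lit 204813) (nat_lit 9) (.e (nat_lit 426197) (nat_lit 9) (.e (nat_lit 426566) (nat_lit 34) (.e (nat_lit 393252) (nat_lit 18) (.e (nat_lit 164332) (nat_lit 230) .nil)))))) (.g (nat_lit 1) (.e (nat_lit 148701) (nat_lit 0) .nil) .nil))) 
(.lf (nat_lit 493133) (.g (nat_lit 5560) (.e (nat_lit 163874) (nat_lit 3) (.e (nat_lit 204837) (nat_lit 20) (.e (nat_lit 114719) (nat_lit 23) (.e (nat_lit 98367) (nat_lit 27) (.e (nat_lit 434231) (nat_lit 23) (.e (nat_lit 532499) (nat_lit 1) (.e (nat_lit 57688) (nat_lit 156) .nil))))))) (.g (nat_lit 1) (.e (nat_lit 149570) (nat_lit 0) .nil) .nil)))) (.nd (nat_lit 9) 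
(.lf (nat_lit 492877) (.g (nat_lit 3592) (.e (nat_lit 163873) (nat_lit 3) (.e (nat_lit 204854) (nat_lit 26) (.e (nat_lit 336019) (nat_lit 3) (.e (nat_lit 98342) (nat_lit 20) (.e (nat_lit 221214) (nat_lit 23) (.e (nat_lit 204830) (nat_lit 18) (.e (nat_lit 57927) (nat_lit 282) .nil))))))) (.g (nat_lit 1) (.e (nat_lit 149158) (nat_lit 0) .nil) .nil))) 
(.lf (nat_lit 493389) (.g (nat_lit 1647) (.e (nat_lit 163874) (nat_lit 3) (.e (nat_lit 204863) (nat_lit 27) (.e (nat_lit 344130) (nat_lit 26) (.e (nat_lit 557104) (nat_lit 14) .nil)))) (.g (nat_lit 0) (.e (nat_lit 149974) (nat_lit 0) .nil) .nil))))) (.nd (nat_lit 8) (.nd (nat_lit 9) 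
(.lf (nat_lit 492749) (.g (nat_lit 2030) (.e (nat_lit 163873) (nat_lit 3) (.e (nat_lit 204813) (nat_lit 9) (.e (nat_lit 426200) (nat_lit 9) (.e (nat_lit 426481) (nat_lit 27) (.e (nat_lit 336388) (nat_lit 27) (.e (nat_lit 426108) (nat_lit 1) (.e (nat_lit 164332) (nat_lit 230) .nil))))))) (.g (nat_lit 1) (.e (nat_lit 148856) (nat_lit 0) .nil) .nil))) 
(.lf (nat_lit 493261) (.g (nat_lit 2763) (.e (nat_lit 163874) (nat_lit 3) (.e (nat_lit 204853) (nat_lit 26) (.e (nat_lit 336019) (nat_lit 3) (.e (nat_lit 98341) (nat_lit 20) (.e (nat_lit 221214) (nat_lit 23) (.e (nat_lit 204830) (nat_lit 18) (.e (nat_lit 57929) (nat_lit 282) .nil))))))) (.g (nat_lit 1) (.e (nat_lit 149767) (nat_lit 0) .nil) .nil)))) (.nd (nat_lit 9) 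
(.lf (nat_lit 493005) (.g (nat_lit 2741) (.e (nat_lit 163874) (nat_lit 3) (.e (nat_lit 204813) (nat_lit 9) (.e (nat_lit 426198) (nat_lit 9) (.e (nat_lit 426568) (nat_lit 34) (.e (nat_lit 393251) (nat_lit 18) (.e (nat_lit 164325) (nat_lit 230) .nil)))))) (.g (nat_lit 1) (.e (nat_lit 149373) (nat_lit 0) .nil) .nil))) 
(.lf (nat_lit 493517) (.g (nat_lit 2044) (.e (nat_lit 163875) (nat_lit 3) (.e (nat_lit 204813) (nat_lit 9) (.e (nat_lit 426199) (nat_lit 9) (.e (nat_lit 426530) (nat_lit 27) (.e (nat_lit 336390) (nat_lit 27) (.e (nat_lit 426098) (nat_lit 1) (.e (nat_lit 164327) (nat_lit 230) .nil))))))) (.g (nat_lit 1) (.e (nat_lit 150287) (nat_lit 0) .nil) .nil))))))) 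
(.nd (nat_lit 6) (.nd (nat_lit 7) (.nd (nat_lit 8) (.nd (nat_lit 9) 
(.lf (nat_lit 492589) (.g (nat_lit 3695) (.e (nat_lit 163873) (nat_lit 3) (.e (nat_lit 204813) (nat_lit 9) (.e (nat_lit 426189) (nat_lit 9) (.e (nat_lit 426566) (nat_lit 34) (.e (nat_lit 393253) (nat_lit 18) (.e (nat_lit 164332) (nat_lit 230) .nil)))))) (.g (nat_lit 1) (.e (nat_lit 148668) (nat_lit 0) .nil) .nil))) 
(.lf (nat_lit 493101) (.g (nat_lit 2947) (.e (nat_lit 163874) (nat_lit 3) (.e (nat_lit 204837) (nat_lit 20) (.e (nat_lit 114718) (nat_lit 23) (.e (nat_lit 98367) (nat_lit 27) (.e (nat_lit 434232) (nat_lit 23) (.e (nat_lit 532499) (nat_lit 1) (.e (nat_lit 57692) (nat_lit 156) .nil))))))) (.g (nat_lit 1) (.e (nat_lit 149538) (nat_lit 0) .nil) .nil)))) (.nd (nat_lit 9) 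
(.lf (nat_lit 492845) (.g (nat_lit 1896) (.e (nat_lit 163873) (nat_lit 3) (.e (nat_lit 204838) (nat_lit 20) (.e (nat_lit 114719) (nat_lit 23) (.e (nat_lit 98366) (nat_lit 27) (.e (nat_lit 434233) (nat_lit 23) .nil))))) (.g (nat_lit 0) (.e (nat_lit 149123) (nat_lit 0) .nil) .nil))) 
(.lf (nat_lit 493357) (.g (nat_lit 3202) (.e (nat_lit 163874) (nat_lit 3) (.e (nat_lit 204862) (nat_lit 27) (.e (nat_lit 344129) (nat_lit 26) (.e (nat_lit 557097) (nat_lit 13) (.e (nat_lit 179968) (nat_lit 18) (.e (nat_lit 98343) (nat_lit 21) (.e (nat_lit 229681) (nat_lit 244) .nil))))))) (.g (nat_lit 1) (.e (nat_lit 149942) (nat_lit 0) .nil) .nil))))) (.nd (nat_lit 8) (.nd (nat_lit 9) 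
(.lf (nat_lit 492717) (.g (nat_lit 4937) (.e (nat_lit 163873) (nat_lit 3) (.e (nat_lit 204813) (nat_lit 9) (.e (nat_lit 426199) (nat_lit 9) (.e (nat_lit 426566) (nat_lit 34) (.e (nat_lit 393253) (nat_lit 18) (.e (nat_lit 164329) (nat_lit 230) .nil)))))) (.g (nat_lit 1) (.e (nat_lit 148818) (nat_lit 0) .nil) .nil))) 
(.lf (nat_lit 493229) (.g (nat_lit 3386) (.e (nat_lit 163874) (nat_lit 3) (.e (nat_lit 204838) (nat_lit 20) (.e (nat_lit 114719) (nat_lit 23) (.e (nat_lit 98367) (nat_lit 27) (.e (nat_lit 434231) (nat_lit 23) (.e (nat_lit 532502) (nat_lit 1) (.e (nat_lit 57692) (nat_lit 156) .nil))))))) (.g (nat_lit 1) (.e (nat_lit 149666) (nat_lit 0) .nil) .nil)))) (.nd (nat_lit 9) 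
(.lf (nat_lit 492973) (.g (nat_lit 2472) (.e (nat_lit 163874) (nat_lit 3) (.e (nat_lit 204813) (nat_lit 9) (.e (nat_lit 426188) (nat_lit 9) (.e (nat_lit 426564) (nat_lit 34) (.e (nat_lit 393251) (nat_lit 18) (.e (nat_lit 164332) (nat_lit 230) .nil)))))) (.g (nat_lit 1) (.e (nat_lit 149340) (nat_lit 0) .nil) .nil))) 
(.lf (nat_lit 493485) (.g (nat_lit 2708) (.e (nat_lit 163875) (nat_lit 3) (.e (nat_lit 204813) (nat_lit 9) (.e (nat_lit 426188) (nat_lit 9) (.e (nat_lit 426564) (nat_lit 34) (.e (nat_lit 393251) (nat_lit 18) (.e (nat_lit 164327) (nat_lit 230) .nil)))))) (.g (nat_lit 1) (.e (nat_lit 150248) (nat_lit 0) .nil) .nil)))))) (.nd (nat_lit 7) (.nd (nat_lit 8) (.nd (nat_lit 9) 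
(.lf (nat_lit 492653) (.g (nat_lit 3375) (.e (nat_lit 163873) (nat_lit 3) (.e (nat_lit 204813) (nat_lit 9) (.e (nat_lit 426198) (nat_lit 9) (.e (nat_lit 426566) (nat_lit 34) (.e (nat_lit 393252) (nat_lit 18) (.e (nat_lit 164332) (nat_lit 230) .nil)))))) (.g (nat_lit 1) (.e (nat_lit 148748) (nat_lit 0) .nil) .nil))) 
(.lf (nat_lit 493165) (.g (nat_lit 2559) (.e (nat_lit 163874) (nat_lit 3) (.e (nat_lit 204838) (nat_lit 20) (.e (nat_lit 114714) (nat_lit 22) (.e (nat_lit 90174) (nat_lit 14) (.e (nat_lit 180243) (nat_lit 5) (.e (nat_lit 532504) (nat_lit 1) (.e (nat_lit 57685) (nat_lit 156) .nil))))))) (.g (nat_lit 1) (.e (nat_lit 149602) (nat_lit 0) .nil) .nil)))) (.nd (nat_lit 9) 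
(.lf (nat_lit 492909) (.g (nat_lit 2062) (.e (nat_lit 163873) (nat_lit 3) (.e (nat_lit 204861) (nat_lit 26) (.e (nat_lit 336076) (nat_lit 9) (.e (nat_lit 336454) (nat_lit 34) (.e (nat_lit 483364) (nat_lit 18) (.e (nat_lit 57928) (nat_lit 282) .nil)))))) (.g (nat_lit 1) (.e (nat_lit 149196) (nat_lit 0) .nil) .nil))) 
(.lf (nat_lit 493421) (.g (nat_lit 2677) (.e (nat_lit 163874) (nat_lit 3) (.e (nat_lit 204864) (nat_lit 27) (.e (nat_lit 344133) (nat_lit 26) (.e (nat_lit 557103) (nat_lit 14) (.e (nat_lit 180243) (nat_lit 5) (.e (nat_lit 532501) (nat_lit 1) (.e (nat_lit 65280) (nat_lit 168) .nil))))))) (.g (nat_lit 1) (.e (nat_lit 150006) (nat_lit 0) .nil) .nil))))) (.nd (nat_lit 8) (.nd (nat_lit 9) 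
(.lf (nat_lit 492781) (.g (nat_lit 3543) (.e (nat_lit 163873) (nat_lit 3) (.e (nat_lit 204813) (nat_lit 9) (.e (nat_lit 433920) (nat_lit 9) (.e (nat_lit 426566) (nat_lit 34) (.e (nat_lit 393253) (nat_lit 18) (.e (nat_lit 164330) (nat_lit 230) .nil)))))) (.g (nat_lit 1) (.e (nat_lit 148900) (nat_lit 0) .nil) .nil))) 
(.lf (nat_lit 493293) (.g (nat_lit 986) (.e (nat_lit 163874) (nat_lit 3) (.e (nat_lit 204855) (nat_lit 26) (.e (nat_lit 336219) (nat_lit 13) (.e (nat_lit 393225) (nat_lit 9) .nil)))) (.g (nat_lit 0) (.e (nat_lit 149800) (nat_lit 0) .nil) .nil)))) (.nd (nat_lit 9) 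
(.lf (nat_lit 493037) (.g (nat_lit 2121) (.e (nat_lit 163874) (nat_lit 3) (.e (nat_lit 204836) (nat_lit 20) (.e (nat_lit 114715) (nat_lit 22) (.e (nat_lit 90170) (nat_lit 13) (.e (nat_lit 172067) (nat_lit 3) (.e (nat_lit 204830) (nat_lit 18) (.e (nat_lit 57690) (nat_lit 156) .nil))))))) (.g (nat_lit 1) (.e (nat_lit 149474) (nat_lit 0) .nil) .nil))) 
(.lf (nat_lit 493549) (.g (nat_lit 3100) (.e (nat_lit 163875) (nat_lit 3) (.e (nat_lit 204829) (nat_lit 18) (.e (nat_lit 57847) (nat_lit 252) (.e (nat_lit 57430) (nat_lit 16) (.e (nat_lit 368676) (nat_lit 21) (.e (nat_lit 516179) (nat_lit 15) (.e (nat_lit 475161) (nat_lit 21) (.e (nat_lit 7280) (nat_lit 386) .nil)))))))) (.g (nat_lit 1) (.e (nat_lit 150391) (nat_lit 0) .nil) .nil)))))))) 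
(.nd (nat_lit 5) (.nd (nat_lit 6) (.nd (nat_lit 7) (.nd (nat_lit 8) (.nd (nat_lit 9) 
(.lf (nat_lit 492573) (.g (nat_lit 3513) (.e (nat_lit 163873) (nat_lit 3) (.e (nat_lit 204813) (nat_lit 9) (.e (nat_lit 426188) (nat_lit 9) (.e (nat_lit 426568) (nat_lit 34) (.e (nat_lit 393251) (nat_lit 18) (.e (nat_lit 164332) (nat_lit 230) .nil)))))) (.g (nat_lit 1) (.e (nat_lit 148652) (nat_lit 0) .nil) .nil))) 
(.lf (nat_lit 493085) (.g (nat_lit 4132) (.e (nat_lit 163874) (nat_lit 3) (.e (nat_lit 204837) (nat_lit 20) (.e (nat_lit 114716) (nat_lit 22) (.e (nat_lit 90174) (nat_lit 14) (.e (nat_lit 180243) (nat_lit 5) (.e (nat_lit 532501) (nat_lit 1) (.e (nat_lit 57692) (nat_lit 156) .nil))))))) (.g (nat_lit 1) (.e (nat_lit 149522) (nat_lit 0) .nil) .nil)))) (.nd (nat_lit 9) 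
(.lf (nat_lit 492829) (.g (nat_lit 2529) (.e (nat_lit 163873) (nat_lit 3) (.e (nat_lit 204838) (nat_lit 20) (.e (nat_lit 114718) (nat_lit 23) (.e (nat_lit 98367) (nat_lit 27) (.e (nat_lit 434231) (nat_lit 23) (.e (nat_lit 532502) (nat_lit 1) (.e (nat_lit 57688) (nat_lit 156) .nil))))))) (.g (nat_lit 1) (.e (nat_lit 149107) (nat_lit 0) .nil) .nil))) 
(.lf (nat_lit 493341) (.g (nat_lit 2752) (.e (nat_lit 163874) (nat_lit 3) (.e (nat_lit 204861) (nat_lit 26) (.e (nat_lit 336222) (nat_lit 13) (.e (nat_lit 393229) (nat_lit 9) (.e (nat_lit 335988) (nat_lit 1) (.e (nat_lit 57927) (nat_lit 282) .nil)))))) (.g (nat_lit 1) (.e (nat_lit 149926) (nat_lit 0) .nil) .nil))))) (.nd (nat_lit 8) (.nd (nat_lit 9) 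
(.lf (nat_lit 492701) (.g (nat_lit 2833) (.e (nat_lit 163873) (nat_lit 3) (.e (nat_lit 204813) (nat_lit 9) (.e (nat_lit 426199) (nat_lit 9) (.e (nat_lit 426489) (nat_lit 27) (.e (nat_lit 336409) (nat_lit 27) (.e (nat_lit 426098) (nat_lit 1) (.e (nat_lit 164325) (nat_lit 230) .nil))))))) (.g (nat_lit 1) (.e (nat_lit 148802) (nat_lit 0) .nil) .nil))) 
(.lf (nat_lit 493213) (.g (nat_lit 2496) (.e (nat_lit 163874) (nat_lit 3) (.e (nat_lit 204838) (nat_lit 20) (.e (nat_lit 114718) (nat_lit 23) (.e (nat_lit 98367) (nat_lit 27) (.e (nat_lit 434234) (nat_lit 23) (.e (nat_lit 532499) (nat_lit 1) (.e (nat_lit 57692) (nat_lit 156) .nil))))))) (.g (nat_lit 1) (.e (nat_lit 149650) (nat_lit 0) .nil) .nil)))) (.nd (nat_lit 9) 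
(.lf (nat_lit 492957) (.g (nat_lit 2750) (.e (nat_lit 163874) (nat_lit 3) (.e (nat_lit 204809) (nat_lit 9) (.e (nat_lit 426200) (nat_lit 9) (.e (nat_lit 426568) (nat_lit 34) (.e (nat_lit 393251) (nat_lit 18) (.e (nat_lit 164325) (nat_lit 230) .nil)))))) (.g (nat_lit 1) (.e (nat_lit 149279) (nat_lit 0) .nil) .nil))) 
(.lf (nat_lit 493469) (.g (nat_lit 2725) (.e (nat_lit 163875) (nat_lit 3) (.e (nat_lit 204809) (nat_lit 9) (.e (nat_lit 426200) (nat_lit 9) (.e (nat_lit 426568) (nat_lit 34) (.e (nat_lit 393253) (nat_lit 18) (.e (nat_lit 164324) (nat_lit 230) .nil)))))) (.g (nat_lit 1) (.e (nat_lit 150161) (nat_lit 0) .nil) .nil)))))) (.nd (nat_lit 7) (.nd (nat_lit 8) (.nd (nat_lit 9) 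
(.lf (nat_lit 492637) (.g (nat_lit 4115) (.e (nat_lit 163873) (nat_lit 3) (.e (nat_lit 204813) (nat_lit 9) (.e (nat_lit 426197) (nat_lit 9) (.e (nat_lit 426568) (nat_lit 34) (.e (nat_lit 393253) (nat_lit 18) (.e (nat_lit 164327) (nat_lit 230) .nil)))))) (.g (nat_lit 1) (.e (nat_lit 148717) (nat_lit 0) .nil) .nil))) 
(.lf (nat_lit 493149) (.g (nat_lit 2363) (.e (nat_lit 163874) (nat_lit 3) (.e (nat_lit 204837) (nat_lit 20) (.e (nat_lit 114719) (nat_lit 23) (.e (nat_lit 98367) (nat_lit 27) (.e (nat_lit 434234) (nat_lit 23) (.e (nat_lit 532501) (nat_lit 1) (.e (nat_lit 57692) (nat_lit 156) .nil))))))) (.g (nat_lit 1) (.e (nat_lit 149586) (nat_lit 0) .nil) .nil)))) (.nd (nat_lit 9) 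
(.lf (nat_lit 492893) (.g (nat_lit 394) (.e (nat_lit 163873) (nat_lit 3) (.e (nat_lit 204861) (nat_lit 26) (.e (nat_lit 336076) (nat_lit 9) .nil))) (.g (nat_lit 0) (.e (nat_lit 149178) (nat_lit 0) .nil) .nil))) 
(.lf (nat_lit 493405) (.g (nat_lit 3522) (.e (nat_lit 163874) (nat_lit 3) (.e (nat_lit 204864) (nat_lit 27) (.e (nat_lit 344117) (nat_lit 21) (.e (nat_lit 516099) (nat_lit 0) (.e (nat_lit 3771) (nat_lit 229) .nil))))) (.g (nat_lit 0) (.e (nat_lit 149990) (nat_lit 0) .nil) .nil))))) (.nd (nat_lit 8) (.nd (nat_lit 9) 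
(.lf (nat_lit 492765) (.g (nat_lit 2222) (.e (nat_lit 163873) (nat_lit 3) (.e (nat_lit 204813) (nat_lit 9) (.e (nat_lit 426200) (nat_lit 9) (.e (nat_lit 426568) (nat_lit 34) (.e (nat_lit 393250) (nat_lit 18) (.e (nat_lit 164325) (nat_lit 230) .nil)))))) (.g (nat_lit 1) (.e (nat_lit 148882) (nat_lit 0) .nil) .nil))) 
(.lf (nat_lit 493277) (.g (nat_lit 2279) (.e (nat_lit 163874) (nat_lit 3) (.e (nat_lit 204854) (nat_lit 26) (.e (nat_lit 336019) (nat_lit 3) (.e (nat_lit 98342) (nat_lit 20) (.e (nat_lit 221213) (nat_lit 23) (.e (nat_lit 204830) (nat_lit 18) (.e (nat_lit 57931) (nat_lit 282) .nil))))))) (.g (nat_lit 1) (.e (nat_lit 149783) (nat_lit 0) .nil) .nil)))) (.nd (nat_lit 9) 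
(.lf (nat_lit 493021) (.g (nat_lit 3586) (.e (nat_lit 163874) (nat_lit 3) (.e (nat_lit 204813) (nat_lit 9) (.e (nat_lit 426200) (nat_lit 9) (.e (nat_lit 426566) (nat_lit 34) (.e (nat_lit 393253) (nat_lit 18) (.e (nat_lit 164330) (nat_lit 230) .nil)))))) (.g (nat_lit 1) (.e (nat_lit 149389) (nat_lit 0) .nil) .nil))) 
(.lf (nat_lit 493533) (.g (nat_lit 3653) (.e (nat_lit 163875) (nat_lit 3) (.e (nat_lit 204813) (nat_lit 9) (.e (nat_lit 426200) (nat_lit 9) (.e (nat_lit 426566) (nat_lit 34) (.e (nat_lit 393253) (nat_lit 18) (.e (nat_lit 164324) (nat_lit 230) .nil)))))) (.g (nat_lit 1) (.e (nat_lit 150310) (nat_lit 0) .nil) .nil))))))) (.nd (nat_lit 6) (.nd (nat_lit 7) (.nd (nat_lit 8) (.nd (nat_lit 9) 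
(.lf (nat_lit 492605) (.g (nat_lit 449) (.e (nat_lit 163873) (nat_lit 3) (.e (nat_lit 204813) (nat_lit 9) (.e (nat_lit 426196) (nat_lit 9) .nil))) (.g (nat_lit 0) (.e (nat_lit 148684) (nat_lit 0) .nil) .nil))) 
(.lf (nat_lit 493117) (.g (nat_lit 4236) (.e (nat_lit 163874) (nat_lit 3) (.e (nat_lit 204837) (nat_lit 20) (.e (nat_lit 114719) (nat_lit 23) (.e (nat_lit 98356) (nat_lit 26) (.e (nat_lit 426438) (nat_lit 18) (.e (nat_lit 98334) (nat_lit 18) (.e (nat_lit 164330) (nat_lit 230) .nil))))))) (.g (nat_lit 1) (.e (nat_lit 149554) (nat_lit 0) .nil) .nil)))) (.nd (nat_lit 9) 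
(.lf (nat_lit 492861) (.g (nat_lit 3240) (.e (nat_lit 163873) (nat_lit 3) (.e (nat_lit 204851) (nat_lit 26) (.e (nat_lit 336019) (nat_lit 3) (.e (nat_lit 98342) (nat_lit 20) (.e (nat_lit 221215) (nat_lit 23) (.e (nat_lit 204829) (nat_lit 18) (.e (nat_lit 57927) (nat_lit 282) .nil))))))) (.g (nat_lit 1) (.e (nat_lit 149139) (nat_lit 0) .nil) .nil))) 
(.lf (nat_lit 493373) (.g (nat_lit 1382) (.e (nat_lit 163874) (nat_lit 3) (.e (nat_lit 204863) (nat_lit 27) (.e (nat_lit 344117) (nat_lit 21) (.e (nat_lit 516130) (nat_lit 3) .nil)))) (.g (nat_lit 0) (.e (nat_lit 149958) (nat_lit 0) .nil) .nil))))) (.nd (nat_lit 8) (.nd (nat_lit 9) 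
(.lf (nat_lit 492733) (.g (nat_lit 3583) (.e (nat_lit 163873) (nat_lit 3) (.e (nat_lit 204813) (nat_lit 9) (.e (nat_lit 426199) (nat_lit 9) (.e (nat_lit 426568) (nat_lit 34) (.e (nat_lit 393253) (nat_lit 18) (.e (nat_lit 164330) (nat_lit 230) .nil)))))) (.g (nat_lit 1) (.e (nat_lit 148834) (nat_lit 0) .nil) .nil))) 
(.lf (nat_lit 493245) (.g (nat_lit 2802) (.e (nat_lit 163874) (nat_lit 3) (.e (nat_lit 204851) (nat_lit 26) (.e (nat_lit 336019) (nat_lit 3) (.e (nat_lit 98341) (nat_lit 20) (.e (nat_lit 221215) (nat_lit 23) (.e (nat_lit 204830) (nat_lit 18) (.e (nat_lit 57926) (nat_lit 282) .nil))))))) (.g (nat_lit 1) (.e (nat_lit 149689) (nat_lit 0) .nil) .nil)))) (.nd (nat_lit 9) 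
(.lf (nat_lit 492989) (.g (nat_lit 3376) (.e (nat_lit 163874) (nat_lit 3) (.e (nat_lit 204813) (nat_lit 9) (.e (nat_lit 426189) (nat_lit 9) (.e (nat_lit 426566) (nat_lit 34) (.e (nat_lit 393253) (nat_lit 18) (.e (nat_lit 164330) (nat_lit 230) .nil)))))) (.g (nat_lit 1) (.e (nat_lit 149356) (nat_lit 0) .nil) .nil))) 
(.lf (nat_lit 493501) (.g (nat_lit 3802) (.e (nat_lit 163875) (nat_lit 3) (.e (nat_lit 204813) (nat_lit 9) (.e (nat_lit 426198) (nat_lit 9) (.e (nat_lit 426509) (nat_lit 27) (.e (nat_lit 336412) (nat_lit 27) (.e (nat_lit 426098) (nat_lit 1) (.e (nat_lit 164327) (nat_lit 230) .nil))))))) (.g (nat_lit 1) (.e (nat_lit 150271) (nat_lit 0) .nil) .nil)))))) 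
(.nd (nat_lit 7) (.nd (nat_lit 8) (.nd (nat_lit 9) 
(.lf (nat_lit 492669) (.g (nat_lit 2576) (.e (nat_lit 163873) (nat_lit 3) (.e (nat_lit 204813) (nat_lit 9) (.e (nat_lit 426198) (nat_lit 9) (.e (nat_lit 426568) (nat_lit 34) (.e (nat_lit 393252) (nat_lit 18) (.e (nat_lit 164332) (nat_lit 230) .nil)))))) (.g (nat_lit 1) (.e (nat_lit 148764) (nat_lit 0) .nil) .nil))) 
(.lf (nat_lit 493181) (.g (nat_lit 3453) (.e (nat_lit 163874) (nat_lit 3) (.e (nat_lit 204838) (nat_lit 20) (.e (nat_lit 114715) (nat_lit 22) (.e (nat_lit 90170) (nat_lit 13) (.e (nat_lit 172067) (nat_lit 3) (.e (nat_lit 204830) (nat_lit 18) (.e (nat_lit 57690) (nat_lit 156) .nil))))))) (.g (nat_lit 1) (.e (nat_lit 149618) (nat_lit 0) .nil) .nil)))) (.nd (nat_lit 9) 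
(.lf (nat_lit 492925) (.g (nat_lit 1715) (.e (nat_lit 163873) (nat_lit 3) (.e (nat_lit 204861) (nat_lit 26) (.e (nat_lit 336223) (nat_lit 13) (.e (nat_lit 393229) (nat_lit 9) .nil)))) (.g (nat_lit 0) (.e (nat_lit 149215) (nat_lit 0) .nil) .nil))) 
(.lf (nat_lit 493437) (.g (nat_lit 2308) (.e (nat_lit 163874) (nat_lit 3) (.e (nat_lit 204874) (nat_lit 30) (.e (nat_lit 368676) (nat_lit 21) (.e (nat_lit 516131) (nat_lit 3) (.e (nat_lit 221214) (nat_lit 23) .nil))))) (.g (nat_lit 0) (.e (nat_lit 150085) (nat_lit 0) .nil) .nil))))) (.nd (nat_lit 8) (.nd (nat_lit 9) 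
(.lf (nat_lit 492797) (.g (nat_lit 3128) (.e (nat_lit 163873) (nat_lit 3) (.e (nat_lit 204837) (nat_lit 20) (.e (nat_lit 114718) (nat_lit 23) (.e (nat_lit 98367) (nat_lit 27) (.e (nat_lit 434234) (nat_lit 23) (.e (nat_lit 532499) (nat_lit 1) (.e (nat_lit 57688) (nat_lit 156) .nil))))))) (.g (nat_lit 1) (.e (nat_lit 149075) (nat_lit 0) .nil) .nil))) 
(.lf (nat_lit 493309) (.g (nat_lit 2104) (.e (nat_lit 163874) (nat_lit 3) (.e (nat_lit 204861) (nat_lit 26) (.e (nat_lit 336076) (nat_lit 9) (.e (nat_lit 336372) (nat_lit 27) (.e (nat_lit 426524) (nat_lit 27) (.e (nat_lit 335988) (nat_lit 1) (.e (nat_lit 57927) (nat_lit 282) .nil))))))) (.g (nat_lit 1) (.e (nat_lit 149870) (nat_lit 0) .nil) .nil)))) (.nd (nat_lit 9) 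
(.lf (nat_lit 493053) (.g (nat_lit 4766) (.e (nat_lit 163874) (nat_lit 3) (.e (nat_lit 204837) (nat_lit 20) (.e (nat_lit 114714) (nat_lit 22) (.e (nat_lit 90174) (nat_lit 14) (.e (nat_lit 180243) (nat_lit 5) (.e (nat_lit 532501) (nat_lit 1) (.e (nat_lit 57692) (nat_lit 156) .nil))))))) (.g (nat_lit 1) (.e (nat_lit 149490) (nat_lit 0) .nil) .nil))) 
(.lf (nat_lit 493565) (.g (nat_lit 3913) (.e (nat_lit 163875) (nat_lit 3) (.e (nat_lit 204830) (nat_lit 18) (.e (nat_lit 57852) (nat_lit 252) (.e (nat_lit 57409) (nat_lit 12) (.e (nat_lit 336019) (nat_lit 3) (.e (nat_lit 98384) (nat_lit 32) (.e (nat_lit 475161) (nat_lit 21) (.e (nat_lit 7280) (nat_lit 386) .nil)))))))) (.g (nat_lit 1) (.e (nat_lit 150407) (nat_lit 0) .nil) .nil))))))))))) 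
(.nd (nat_lit 2) (.nd (nat_lit 3) (.nd (nat_lit 4) (.nd (nat_lit 5) (.nd (nat_lit 6) 
(.nd (nat_lit 7) (.nd (nat_lit 8) (.nd (nat_lit 9) 
(.lf (nat_lit 492547) (.g (nat_lit 3057) (.e (nat_lit 163873) (nat_lit 3) (.e (nat_lit 204813) (nat_lit 9) (.e (nat_lit 426187) (nat_lit 9) (.e (nat_lit 426566) (nat_lit 34) (.e (nat_lit 393254) (nat_lit 18) (.e (nat_lit 164326) (nat_lit 230) .nil)))))) (.g (nat_lit 1) (.e (nat_lit 148622) (nat_lit 0) .nil) .nil))) 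
(.lf (nat_lit 493059) (.g (nat_lit 4559) (.e (nat_lit 163874) (nat_lit 3) (.e (nat_lit 204837) (nat_lit 20) (.e (nat_lit 114714) (nat_lit 22) (.e (nat_lit 90174) (nat_lit 14) (.e (nat_lit 180243) (nat_lit 5) (.e (nat_lit 532504) (nat_lit 1) (.e (nat_lit 57690) (nat_lit 156) .nil))))))) (.g (nat_lit 1) (.e (nat_lit 149496) (nat_lit 0) .nil) .nil)))) (.nd (nat_lit 9) 
(.lf (nat_lit 492803) (.g (nat_lit 4743) (.e (nat_lit 163873) (nat_lit 3) (.e (nat_lit 204837) (nat_lit 20) (.e (nat_lit 114719) (nat_lit 23) (.e (nat_lit 98366) (nat_lit 27) (.e (nat_lit 434231) (nat_lit 23) (.e (nat_lit 532499) (nat_lit 1) (.e (nat_lit 57688) (nat_lit 156) .nil))))))) (.g (nat_lit 1) (.e (nat_lit 149081) (nat_lit 0) .nil) .nil))) 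
(.lf (nat_lit 493315) (.g (nat_lit 1515) (.e (nat_lit 163874) (nat_lit 3) (.e (nat_lit 204861) (nat_lit 26) (.e (nat_lit 336076) (nat_lit 9) (.e (nat_lit 336414) (nat_lit 27) .nil)))) (.g (nat_lit 0) (.e (nat_lit 149876) (nat_lit 0) .nil) .nil))))) (.nd (nat_lit 8) (.nd (nat_lit 9) 
(.lf (nat_lit 492675) (.g (nat_lit 3307) (.e (nat_lit 163873) (nat_lit 3) (.e (nat_lit 204813) (nat_lit 9) (.e (nat_lit 426198) (nat_lit 9) (.e (nat_lit 426568) (nat_lit 34) (.e (nat_lit 393253) (nat_lit 18) (.e (nat_lit 164331) (nat_lit 230) .nil)))))) (.g (nat_lit 1) (.e (nat_lit 148770) (nat_lit 0) .nil) .nil))) 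
(.lf (nat_lit 493187) (.g (nat_lit 2494) (.e (nat_lit 163874) (nat_lit 3) (.e (nat_lit 204838) (nat_lit 20) (.e (nat_lit 114715) (nat_lit 22) (.e (nat_lit 90174) (nat_lit 14) (.e (nat_lit 180243) (nat_lit 5) (.e (nat_lit 532504) (nat_lit 1) (.e (nat_lit 57690) (nat_lit 156) .nil))))))) (.g (nat_lit 1) (.e (nat_lit 149624) (nat_lit 0) .nil) .nil)))) (.nd (nat_lit 9) 
(.lf (nat_lit 492931) (.g (nat_lit 3262) (.e (nat_lit 163874) (nat_lit 3) (.e (nat_lit 204808) (nat_lit 9) (.e (nat_lit 426190) (nat_lit 9) (.e (nat_lit 426566) (nat_lit 34) (.e (nat_lit 393251) (nat_lit 18) (.e (nat_lit 164325) (nat_lit 230) .nil)))))) (.g (nat_lit 1) (.e (nat_lit 149244) (nat_lit 0) .nil) .nil))) 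
(.lf (nat_lit 493443) (.g (nat_lit 2882) (.e (nat_lit 163874) (nat_lit 3) (.e (nat_lit 204877) (nat_lit 31) (.e (nat_lit 376842) (nat_lit 11) (.e (nat_lit 426497) (nat_lit 27) (.e (nat_lit 335986) (nat_lit 1) (.e (nat_lit 57927) (nat_lit 282) .nil)))))) (.g (nat_lit 1) (.e (nat_lit 150091) (nat_lit 0) .nil) .nil)))))) (.nd (nat_lit 7) (.nd (nat_lit 8) (.nd (nat_lit 9) 
(.lf (nat_lit 492611) (.g (nat_lit 4755) (.e (nat_lit 163873) (nat_lit 3) (.e (nat_lit 204813) (nat_lit 9) (.e (nat_lit 426196) (nat_lit 9) (.e (nat_lit 426566) (nat_lit 34) (.e (nat_lit 393253) (nat_lit 18) (.e (nat_lit 164330) (nat_lit 230) .nil)))))) (.g (nat_lit 1) (.e (nat_lit 148690) (nat_lit 0) .nil) .nil))) 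
(.lf (nat_lit 493123) (.g (nat_lit 2867) (.e (nat_lit 163874) (nat_lit 3) (.e (nat_lit 204837) (nat_lit 20) (.e (nat_lit 114719) (nat_lit 23) (.e (nat_lit 98366) (nat_lit 27) (.e (nat_lit 434231) (nat_lit 23) (.e (nat_lit 532500) (nat_lit 1) (.e (nat_lit 57685) (nat_lit 156) .nil))))))) (.g (nat_lit 1) (.e (nat_lit 149560) (nat_lit 0) .nil) .nil)))) (.nd (nat_lit 9) 
(.lf (nat_lit 492867) (.g (nat_lit 2682) (.e (nat_lit 163873) (nat_lit 3) (.e (nat_lit 204853) (nat_lit 26) (.e (nat_lit 336019) (nat_lit 3) (.e (nat_lit 98342) (nat_lit 20) (.e (nat_lit 221214) (nat_lit 23) (.e (nat_lit 204829) (nat_lit 18) (.e (nat_lit 57926) (nat_lit 282) .nil))))))) (.g (nat_lit 1) (.e (nat_lit 149148) (nat_lit 0) .nil) .nil))) 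
(.lf (nat_lit 493379) (.g (nat_lit 2671) (.e (nat_lit 163874) (nat_lit 3) (.e (nat_lit 204863) (nat_lit 27) (.e (nat_lit 344118) (nat_lit 21) (.e (nat_lit 516129) (nat_lit 3) (.e (nat_lit 221214) (nat_lit 23) (.e (nat_lit 204830) (nat_lit 18) (.e (nat_lit 57927) (nat_lit 282) .nil))))))) (.g (nat_lit 1) (.e (nat_lit 149964) (nat_lit 0) .nil) .nil))))) (.nd (nat_lit 8) (.nd (nat_lit 9) 
(.lf (nat_lit 492739) (.g (nat_lit 2644) (.e (nat_lit 163873) (nat_lit 3) (.e (nat_lit 204813) (nat_lit 9) (.e (nat_lit 426200) (nat_lit 9) (.e (nat_lit 426478) (nat_lit 27) (.e (nat_lit 336386) (nat_lit 27) (.e (nat_lit 426098) (nat_lit 1) (.e (nat_lit 164327) (nat_lit 230) .nil))))))) (.g (nat_lit 1) (.e (nat_lit 148840) (nat_lit 0) .nil) .nil))) 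
(.lf (nat_lit 493251) (.g (nat_lit 3869) (.e (nat_lit 163874) (nat_lit 3) (.e (nat_lit 204851) (nat_lit 26) (.e (nat_lit 336019) (nat_lit 3) (.e (nat_lit 98342) (nat_lit 20) (.e (nat_lit 221214) (nat_lit 23) (.e (nat_lit 204830) (nat_lit 18) (.e (nat_lit 57929) (nat_lit 282) .nil))))))) (.g (nat_lit 1) (.e (nat_lit 149695) (nat_lit 0) .nil) .nil)))) (.nd (nat_lit 9) 
(.lf (nat_lit 492995) (.g (nat_lit 3621) (.e (nat_lit 163874) (nat_lit 3) (.e (nat_lit 204813) (nat_lit 9) (.e (nat_lit 426190) (nat_lit 9) (.e (nat_lit 426566) (nat_lit 34) (.e (nat_lit 393253) (nat_lit 18) (.e (nat_lit 164332) (nat_lit 230) .nil)))))) (.g (nat_lit 1) (.e (nat_lit 149362) (nat_lit 0) .nil) .nil))) 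
(.lf (nat_lit 493507) (.g (nat_lit 1772) (.e (nat_lit 163875) (nat_lit 3) (.e (nat_lit 204813) (nat_lit 9) (.e (nat_lit 426198) (nat_lit 9) (.e (nat_lit 426567) (nat_lit 34) (.e (nat_lit 393251) (nat_lit 18) (.e (nat_lit 164327) (nat_lit 230) .nil)))))) (.g (nat_lit 1) (.e (nat_lit 150277) (nat_lit 0) .nil) .nil))))))) (.nd (nat_lit 6) (.nd (nat_lit 7) (.nd (nat_lit 8) (.nd (nat_lit 9) 
(.lf (nat_lit 492579) (.g (nat_lit 3224) (.e (nat_lit 163873) (nat_lit 3) (.e (nat_lit 204813) (nat_lit 9) (.e (nat_lit 426188) (nat_lit 9) (.e (nat_lit 426568) (nat_lit 34) (.e (nat_lit 393253) (nat_lit 18) (.e (nat_lit 164330) (nat_lit 230) .nil)))))) (.g (nat_lit 1) (.e (nat_lit 148658) (nat_lit 0) .nil) .nil))) 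
(.lf (nat_lit 493091) (.g (nat_lit 3648) (.e (nat_lit 163874) (nat_lit 3) (.e (nat_lit 204837) (nat_lit 20) (.e (nat_lit 114718) (nat_lit 23) (.e (nat_lit 98366) (nat_lit 27) (.e (nat_lit 434231) (nat_lit 23) (.e (nat_lit 532499) (nat_lit 1) (.e (nat_lit 57692) (nat_lit 156) .nil))))))) (.g (nat_lit 1) (.e (nat_lit 149528) (nat_lit 0) .nil) .nil)))) (.nd (nat_lit 9) 
(.lf (nat_lit 492835) (.g (nat_lit 2782) (.e (nat_lit 163873) (nat_lit 3) (.e (nat_lit 204838) (nat_lit 20) (.e (nat_lit 114718) (nat_lit 23) (.e (nat_lit 98384) (nat_lit 32) (.e (nat_lit 475179) (nat_lit 24) (.e (nat_lit 516115) (nat_lit 1) (.e (nat_lit 164327) (nat_lit 230) .nil))))))) (.g (nat_lit 1) (.e (nat_lit 149113) (nat_lit 0) .nil) .nil))) 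
(.lf (nat_lit 493347) (.g (nat_lit 2527) (.e (nat_lit 163874) (nat_lit 3) (.e (nat_lit 204862) (nat_lit 27) (.e (nat_lit 344117) (nat_lit 21) (.e (nat_lit 516122) (nat_lit 2) (.e (nat_lit 213034) (nat_lit 12) (.e (nat_lit 163963) (nat_lit 25) (.e (nat_lit 532499) (nat_lit 1) (.e (nat_lit 57927) (nat_lit 282) .nil)))))))) (.g (nat_lit 1) (.e (nat_lit 149932) (nat_lit 0) .nil) .nil))))) 
(.nd (nat_lit 8) (.nd (nat_lit 9) 
(.lf (nat_lit 492707) (.g (nat_lit 3239) (.e (nat_lit 163873) (nat_lit 3) (.e (nat_lit 204813) (nat_lit 9) (.e (nat_lit 426199) (nat_lit 9) (.e (nat_lit 426564) (nat_lit 34) (.e (nat_lit 393252) (nat_lit 18) (.e (nat_lit 164332) (nat_lit 230) .nil)))))) (.g (nat_lit 1) (.e (nat_lit 148808) (nat_lit 0) .nil) .nil))) 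
(.lf (nat_lit 493219) (.g (nat_lit 2599) (.e (nat_lit 163874) (nat_lit 3) (.e (nat_lit 204838) (nat_lit 20) (.e (nat_lit 114719) (nat_lit 23) (.e (nat_lit 98363) (nat_lit 26) (.e (nat_lit 426129) (nat_lit 3) (.e (nat_lit 204830) (nat_lit 18) (.e (nat_lit 57692) (nat_lit 156) .nil))))))) (.g (nat_lit 1) (.e (nat_lit 149656) (nat_lit 0) .nil) .nil)))) (.nd (nat_lit 9) 
(.lf (nat_lit 492963) (.g (nat_lit 2569) (.e (nat_lit 163874) (nat_lit 3) (.e (nat_lit 204811) (nat_lit 9) (.e (nat_lit 426232) (nat_lit 9) (.e (nat_lit 426565) (nat_lit 34) (.e (nat_lit 393253) (nat_lit 18) (.e (nat_lit 164332) (nat_lit 230) .nil)))))) (.g (nat_lit 1) (.e (nat_lit 149321) (nat_lit 0) .nil) .nil))) 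
(.lf (nat_lit 493475) (.g (nat_lit 2833) (.e (nat_lit 163875) (nat_lit 3) (.e (nat_lit 204811) (nat_lit 9) (.e (nat_lit 426262) (nat_lit 9) (.e (nat_lit 426565) (nat_lit 34) (.e (nat_lit 393253) (nat_lit 18) (.e (nat_lit 164327) (nat_lit 230) .nil)))))) (.g (nat_lit 1) (.e (nat_lit 150213) (nat_lit 0) .nil) .nil)))))) (.nd (nat_lit 7) (.nd (nat_lit 8) (.nd (nat_lit 9) 
(.lf (nat_lit 492643) (.g (nat_lit 2900) (.e (nat_lit 163873) (nat_lit 3) (.e (nat_lit 204813) (nat_lit 9) (.e (nat_lit 426198) (nat_lit 9) (.e (nat_lit 426478) (nat_lit 27) (.e (nat_lit 336389) (nat_lit 27) (.e (nat_lit 426098) (nat_lit 1) (.e (nat_lit 164327) (nat_lit 230) .nil))))))) (.g (nat_lit 1) (.e (nat_lit 148723) (nat_lit 0) .nil) .nil))) 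
(.lf (nat_lit 493155) (.g (nat_lit 4306) (.e (nat_lit 163874) (nat_lit 3) (.e (nat_lit 204837) (nat_lit 20) (.e (nat_lit 114719) (nat_lit 23) (.e (nat_lit 98384) (nat_lit 32) (.e (nat_lit 475179) (nat_lit 24) (.e (nat_lit 516117) (nat_lit 1) (.e (nat_lit 164332) (nat_lit 230) .nil))))))) (.g (nat_lit 1) (.e (nat_lit 149592) (nat_lit 0) .nil) .nil)))) (.nd (nat_lit 9) 
(.lf (nat_lit 492899) (.g (nat_lit 1504) (.e (nat_lit 163873) (nat_lit 3) (.e (nat_lit 204861) (nat_lit 26) (.e (nat_lit 336076) (nat_lit 9) (.e (nat_lit 336375) (nat_lit 27) .nil)))) (.g (nat_lit 0) (.e (nat_lit 149184) (nat_lit 0) .nil) .nil))) 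
(.lf (nat_lit 493411) (.g (nat_lit 2605) (.e (nat_lit 163874) (nat_lit 3) (.e (nat_lit 204864) (nat_lit 27) (.e (nat_lit 344130) (nat_lit 26) (.e (nat_lit 557103) (nat_lit 14) (.e (nat_lit 180243) (nat_lit 5) (.e (nat_lit 532501) (nat_lit 1) (.e (nat_lit 65280) (nat_lit 168) .nil))))))) (.g (nat_lit 1) (.e (nat_lit 149996) (nat_lit 0) .nil) .nil))))) (.nd (nat_lit 8) (.nd (nat_lit 9) 
(.lf (nat_lit 492771) (.g (nat_lit 3784) (.e (nat_lit 163873) (nat_lit 3) (.e (nat_lit 204813) (nat_lit 9) (.e (nat_lit 426200) (nat_lit 9) (.e (nat_lit 426568) (nat_lit 34) (.e (nat_lit 393253) (nat_lit 18) (.e (nat_lit 164324) (nat_lit 230) .nil)))))) (.g (nat_lit 1) (.e (nat_lit 148888) (nat_lit 0) .nil) .nil))) 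
(.lf (nat_lit 493283) (.g (nat_lit 4551) (.e (nat_lit 163874) (nat_lit 3) (.e (nat_lit 204854) (nat_lit 26) (.e (nat_lit 336019) (nat_lit 3) (.e (nat_lit 98342) (nat_lit 20) (.e (nat_lit 221215) (nat_lit 23) (.e (nat_lit 204829) (nat_lit 18) (.e (nat_lit 57927) (nat_lit 282) .nil))))))) (.g (nat_lit 1) (.e (nat_lit 149790) (nat_lit 0) .nil) .nil)))) (.nd (nat_lit 9) 
(.lf (nat_lit 493027) (.g (nat_lit 3347) (.e (nat_lit 163874) (nat_lit 3) (.e (nat_lit 204813) (nat_lit 9) (.e (nat_lit 426200) (nat_lit 9) (.e (nat_lit 426568) (nat_lit 34) (.e (nat_lit 393253) (nat_lit 18) (.e (nat_lit 164325) (nat_lit 230) .nil)))))) (.g (nat_lit 1) (.e (nat_lit 149395) (nat_lit 0) .nil) .nil))) 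
(.lf (nat_lit 493539) (.g (nat_lit 3754) (.e (nat_lit 163875) (nat_lit 3) (.e (nat_lit 204813) (nat_lit 9) (.e (nat_lit 426200) (nat_lit 9) (.e (nat_lit 426568) (nat_lit 34) (.e (nat_lit 393253) (nat_lit 18) (.e (nat_lit 164327) (nat_lit 230) .nil)))))) (.g (nat_lit 1) (.e (nat_lit 150317) (nat_lit 0) .nil) .nil)))))))) 
(.nd (nat_lit 5) (.nd (nat_lit 6) (.nd (nat_lit 7) (.nd (nat_lit 8) (.nd (nat_lit 9) 
(.lf (nat_lit 492563) (.g (nat_lit 2685) (.e (nat_lit 163873) (nat_lit 3) (.e (nat_lit 204813) (nat_lit 9) (.e (nat_lit 426188) (nat_lit 9) (.e (nat_lit 426566) (nat_lit 34) (.e (nat_lit 393253) (nat_lit 18) (.e (nat_lit 164322) (nat_lit 230) .nil)))))) (.g (nat_lit 1) (.e (nat_lit 148641) (nat_lit 0) .nil) .nil))) 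
(.lf (nat_lit 493075) (.g (nat_lit 3317) (.e (nat_lit 163874) (nat_lit 3) (.e (nat_lit 204837) (nat_lit 20) (.e (nat_lit 114715) (nat_lit 22) (.e (nat_lit 90170) (nat_lit 13) (.e (nat_lit 172067) (nat_lit 3) (.e (nat_lit 204830) (nat_lit 18) (.e (nat_lit 57690) (nat_lit 156) .nil))))))) (.g (nat_lit 1) (.e (nat_lit 149512) (nat_lit 0) .nil) .nil)))) (.nd (nat_lit 9) 
(.lf (nat_lit 492819) (.g (nat_lit 1772) (.e (nat_lit 163873) (nat_lit 3) (.e (nat_lit 204838) (nat_lit 20) (.e (nat_lit 114715) (nat_lit 22) (.e (nat_lit 90174) (nat_lit 14) (.e (nat_lit 180243) (nat_lit 5) .nil))))) (.g (nat_lit 0) (.e (nat_lit 149097) (nat_lit 0) .nil) .nil))) 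
(.lf (nat_lit 493331) (.g (nat_lit 525) (.e (nat_lit 163874) (nat_lit 3) (.e (nat_lit 204861) (nat_lit 26) (.e (nat_lit 336085) (nat_lit 9) .nil))) (.g (nat_lit 0) (.e (nat_lit 149907) (nat_lit 0) .nil) .nil))))) (.nd (nat_lit 8) (.nd (nat_lit 9) 
(.lf (nat_lit 492691) (.g (nat_lit 3264) (.e (nat_lit 163873) (nat_lit 3) (.e (nat_lit 204813) (nat_lit 9) (.e (nat_lit 426199) (nat_lit 9) (.e (nat_lit 426481) (nat_lit 27) (.e (nat_lit 336389) (nat_lit 27) (.e (nat_lit 426108) (nat_lit 1) (.e (nat_lit 164330) (nat_lit 230) .nil))))))) (.g (nat_lit 1) (.e (nat_lit 148792) (nat_lit 0) .nil) .nil))) 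
(.lf (nat_lit 493203) (.g (nat_lit 2074) (.e (nat_lit 163874) (nat_lit 3) (.e (nat_lit 204838) (nat_lit 20) (.e (nat_lit 114718) (nat_lit 23) (.e (nat_lit 98366) (nat_lit 27) (.e (nat_lit 434232) (nat_lit 23) (.e (nat_lit 532504) (nat_lit 1) (.e (nat_lit 57692) (nat_lit 156) .nil))))))) (.g (nat_lit 1) (.e (nat_lit 149640) (nat_lit 0) .nil) .nil)))) (.nd (nat_lit 9) 
(.lf (nat_lit 492947) (.g (nat_lit 1906) (.e (nat_lit 163874) (nat_lit 3) (.e (nat_lit 204809) (nat_lit 9) (.e (nat_lit 426197) (nat_lit 9) (.e (nat_lit 426566) (nat_lit 34) (.e (nat_lit 393252) (nat_lit 18) (.e (nat_lit 164332) (nat_lit 230) .nil)))))) (.g (nat_lit 1) (.e (nat_lit 149269) (nat_lit 0) .nil) .nil))) 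
(.lf (nat_lit 493459) (.g (nat_lit 3055) (.e (nat_lit 163875) (nat_lit 3) (.e (nat_lit 204809) (nat_lit 9) (.e (nat_lit 426198) (nat_lit 9) (.e (nat_lit 426566) (nat_lit 34) (.e (nat_lit 393251) (nat_lit 18) (.e (nat_lit 164325) (nat_lit 230) .nil)))))) (.g (nat_lit 1) (.e (nat_lit 150151) (nat_lit 0) .nil) .nil)))))) (.nd (nat_lit 7) (.nd (nat_lit 8) (.nd (nat_lit 9) 
(.lf (nat_lit 492627) (.g (nat_lit 3777) (.e (nat_lit 163873) (nat_lit 3) (.e (nat_lit 204813) (nat_lit 9) (.e (nat_lit 426197) (nat_lit 9) (.e (nat_lit 426566) (nat_lit 34) (.e (nat_lit 393254) (nat_lit 18) (.e (nat_lit 164329) (nat_lit 230) .nil)))))) (.g (nat_lit 1) (.e (nat_lit 148707) (nat_lit 0) .nil) .nil))) 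
(.lf (nat_lit 493139) (.g (nat_lit 3706) (.e (nat_lit 163874) (nat_lit 3) (.e (nat_lit 204837) (nat_lit 20) (.e (nat_lit 114719) (nat_lit 23) (.e (nat_lit 98367) (nat_lit 27) (.e (nat_lit 434231) (nat_lit 23) (.e (nat_lit 532502) (nat_lit 1) (.e (nat_lit 57692) (nat_lit 156) .nil))))))) (.g (nat_lit 1) (.e (nat_lit 149576) (nat_lit 0) .nil) .nil)))) (.nd (nat_lit 9) 
(.lf (nat_lit 492883) (.g (nat_lit 2470) (.e (nat_lit 163873) (nat_lit 3) (.e (nat_lit 204855) (nat_lit 26) (.e (nat_lit 336212) (nat_lit 13) (.e (nat_lit 393229) (nat_lit 9) (.e (nat_lit 335995) (nat_lit 1) (.e (nat_lit 57931) (nat_lit 282) .nil)))))) (.g (nat_lit 1) (.e (nat_lit 149164) (nat_lit 0) .nil) .nil))) 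
(.lf (nat_lit 493395) (.g (nat_lit 2056) (.e (nat_lit 163874) (nat_lit 3) (.e (nat_lit 204863) (nat_lit 27) (.e (nat_lit 344132) (nat_lit 26) (.e (nat_lit 557105) (nat_lit 14) (.e (nat_lit 180252) (nat_lit 10) .nil))))) (.g (nat_lit 0) (.e (nat_lit 149980) (nat_lit 0) .nil) .nil))))) (.nd (nat_lit 8) (.nd (nat_lit 9) 
(.lf (nat_lit 492755) (.g (nat_lit 4018) (.e (nat_lit 163873) (nat_lit 3) (.e (nat_lit 204813) (nat_lit 9) (.e (nat_lit 426200) (nat_lit 9) (.e (nat_lit 426566) (nat_lit 34) (.e (nat_lit 393251) (nat_lit 18) (.e (nat_lit 164327) (nat_lit 230) .nil)))))) (.g (nat_lit 1) (.e (nat_lit 148869) (nat_lit 0) .nil) .nil))) 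
(.lf (nat_lit 493267) (.g (nat_lit 3977) (.e (nat_lit 163874) (nat_lit 3) (.e (nat_lit 204854) (nat_lit 26) (.e (nat_lit 336019) (nat_lit 3) (.e (nat_lit 98341) (nat_lit 20) (.e (nat_lit 221214) (nat_lit 23) (.e (nat_lit 204830) (nat_lit 18) (.e (nat_lit 57927) (nat_lit 282) .nil))))))) (.g (nat_lit 1) (.e (nat_lit 149773) (nat_lit 0) .nil) .nil)))) (.nd (nat_lit 9) 
(.lf (nat_lit 493011) (.g (nat_lit 1800) (.e (nat_lit 163874) (nat_lit 3) (.e (nat_lit 204813) (nat_lit 9) (.e (nat_lit 426199) (nat_lit 9) (.e (nat_lit 426568) (nat_lit 34) (.e (nat_lit 393252) (nat_lit 18) .nil))))) (.g (nat_lit 0) (.e (nat_lit 149379) (nat_lit 0) .nil) .nil))) 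
(.lf (nat_lit 493523) (.g (nat_lit 4190) (.e (nat_lit 163875) (nat_lit 3) (.e (nat_lit 204813) (nat_lit 9) (.e (nat_lit 426200) (nat_lit 9) (.e (nat_lit 426478) (nat_lit 27) (.e (nat_lit 336389) (nat_lit 27) (.e (nat_lit 426098) (nat_lit 1) (.e (nat_lit 164327) (nat_lit 230) .nil))))))) (.g (nat_lit 1) (.e (nat_lit 150294) (nat_lit 0) .nil) .nil))))))) 
(.nd (nat_lit 6) (.nd (nat_lit 7) (.nd (nat_lit 8) (.nd (nat_lit 9) 
(.lf (nat_lit 492595) (.g (nat_lit 2313) (.e (nat_lit 163873) (nat_lit 3) (.e (nat_lit 204813) (nat_lit 9) (.e (nat_lit 426190) (nat_lit 9) (.e (nat_lit 426566) (nat_lit 34) (.e (nat_lit 393250) (nat_lit 18) (.e (nat_lit 164326) (nat_lit 230) .nil)))))) (.g (nat_lit 1) (.e (nat_lit 148674) (nat_lit 0) .nil) .nil))) 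
(.lf (nat_lit 493107) (.g (nat_lit 2343) (.e (nat_lit 163874) (nat_lit 3) (.e (nat_lit 204837) (nat_lit 20) (.e (nat_lit 114718) (nat_lit 23) (.e (nat_lit 98367) (nat_lit 27) (.e (nat_lit 434234) (nat_lit 23) (.e (nat_lit 532502) (nat_lit 1) (.e (nat_lit 57692) (nat_lit 156) .nil))))))) (.g (nat_lit 1) (.e (nat_lit 149544) (nat_lit 0) .nil) .nil)))) (.nd (nat_lit 9) 
(.lf (nat_lit 492851) (.g (nat_lit 2680) (.e (nat_lit 163873) (nat_lit 3) (.e (nat_lit 204838) (nat_lit 20) (.e (nat_lit 114719) (nat_lit 23) (.e (nat_lit 98367) (nat_lit 27) (.e (nat_lit 434232) (nat_lit 23) (.e (nat_lit 532503) (nat_lit 1) (.e (nat_lit 57685) (nat_lit 156) .nil))))))) (.g (nat_lit 1) (.e (nat_lit 149129) (nat_lit 0) .nil) .nil))) 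
(.lf (nat_lit 493363) (.g (nat_lit 2603) (.e (nat_lit 163874) (nat_lit 3) (.e (nat_lit 204863) (nat_lit 27) (.e (nat_lit 344117) (nat_lit 21) (.e (nat_lit 516122) (nat_lit 2) (.e (nat_lit 213036) (nat_lit 13) (.e (nat_lit 229433) (nat_lit 25) (.e (nat_lit 532499) (nat_lit 1) (.e (nat_lit 57927) (nat_lit 282) .nil)))))))) (.g (nat_lit 1) (.e (nat_lit 149948) (nat_lit 0) .nil) .nil))))) 
(.nd (nat_lit 8) (.nd (nat_lit 9) 
(.lf (nat_lit 492723) (.g (nat_lit 4246) (.e (nat_lit 163873) (nat_lit 3) (.e (nat_lit 204813) (nat_lit 9) (.e (nat_lit 426199) (nat_lit 9) (.e (nat_lit 426568) (nat_lit 34) (.e (nat_lit 393251) (nat_lit 18) (.e (nat_lit 164327) (nat_lit 230) .nil)))))) (.g (nat_lit 1) (.e (nat_lit 148824) (nat_lit 0) .nil) .nil))) 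
(.lf (nat_lit 493235) (.g (nat_lit 2072) (.e (nat_lit 163874) (nat_lit 3) (.e (nat_lit 204838) (nat_lit 20) (.e (nat_lit 114719) (nat_lit 23) (.e (nat_lit 98367) (nat_lit 27) (.e (nat_lit 434234) (nat_lit 23) .nil))))) (.g (nat_lit 0) (.e (nat_lit 149672) (nat_lit 0) .nil) .nil)))) (.nd (nat_lit 9) 
(.lf (nat_lit 492979) (.g (nat_lit 3279) (.e (nat_lit 163874) (nat_lit 3) (.e (nat_lit 204813) (nat_lit 9) (.e (nat_lit 426188) (nat_lit 9) (.e (nat_lit 426566) (nat_lit 34) (.e (nat_lit 393254) (nat_lit 18) (.e (nat_lit 164325) (nat_lit 230) .nil)))))) (.g (nat_lit 1) (.e (nat_lit 149346) (nat_lit 0) .nil) .nil))) 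
(.lf (nat_lit 493491) (.g (nat_lit 2224) (.e (nat_lit 163875) (nat_lit 3) (.e (nat_lit 204813) (nat_lit 9) (.e (nat_lit 426188) (nat_lit 9) (.e (nat_lit 426568) (nat_lit 34) (.e (nat_lit 393253) (nat_lit 18) (.e (nat_lit 164326) (nat_lit 230) .nil)))))) (.g (nat_lit 1) (.e (nat_lit 150256) (nat_lit 0) .nil) .nil)))))) (.nd (nat_lit 7) (.nd (nat_lit 8) (.nd (nat_lit 9) 
(.lf (nat_lit 492659) (.g (nat_lit 3861) (.e (nat_lit 163873) (nat_lit 3) (.e (nat_lit 204813) (nat_lit 9) (.e (nat_lit 426198) (nat_lit 9) (.e (nat_lit 426566) (nat_lit 34) (.e (nat_lit 393253) (nat_lit 18) (.e (nat_lit 164332) (nat_lit 230) .nil)))))) (.g (nat_lit 1) (.e (nat_lit 148754) (nat_lit 0) .nil) .nil))) 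
(.lf (nat_lit 493171) (.g (nat_lit 3129) (.e (nat_lit 163874) (nat_lit 3) (.e (nat_lit 204838) (nat_lit 20) (.e (nat_lit 114715) (nat_lit 22) (.e (nat_lit 90170) (nat_lit 13) (.e (nat_lit 172065) (nat_lit 3) (.e (nat_lit 204830) (nat_lit 18) (.e (nat_lit 57685) (nat_lit 156) .nil))))))) (.g (nat_lit 1) (.e (nat_lit 149608) (nat_lit 0) .nil) .nil)))) (.nd (nat_lit 9) 
(.lf (nat_lit 492915) (.g (nat_lit 1192) (.e (nat_lit 163873) (nat_lit 3) (.e (nat_lit 204861) (nat_lit 26) (.e (nat_lit 336077) (nat_lit 9) (.e (nat_lit 336454) (nat_lit 34) (.e (nat_lit 483364) (nat_lit 18) .nil))))) (.g (nat_lit 0) (.e (nat_lit 149204) (nat_lit 0) .nil) .nil))) 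
(.lf (nat_lit 493427) (.g (nat_lit 2812) (.e (nat_lit 163874) (nat_lit 3) (.e (nat_lit 204866) (nat_lit 28) (.e (nat_lit 352277) (nat_lit 11) (.e (nat_lit 426500) (nat_lit 27) (.e (nat_lit 335996) (nat_lit 1) (.e (nat_lit 57930) (nat_lit 282) .nil)))))) (.g (nat_lit 1) (.e (nat_lit 150013) (nat_lit 0) .nil) .nil))))) (.nd (nat_lit 8) (.nd (nat_lit 9) 
(.lf (nat_lit 492787) (.g (nat_lit 1763) (.e (nat_lit 163873) (nat_lit 3) (.e (nat_lit 204829) (nat_lit 18) (.e (nat_lit 57927) (nat_lit 282) (.e (nat_lit 164084) (nat_lit 73) (.e (nat_lit 336027) (nat_lit 3) .nil))))) (.g (nat_lit 0) (.e (nat_lit 149065) (nat_lit 0) .nil) .nil))) 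
(.lf (nat_lit 493299) (.g (nat_lit 2442) (.e (nat_lit 163874) (nat_lit 3) (.e (nat_lit 204859) (nat_lit 26) (.e (nat_lit 336017) (nat_lit 3) (.e (nat_lit 98342) (nat_lit 20) (.e (nat_lit 221215) (nat_lit 23) (.e (nat_lit 204830) (nat_lit 18) (.e (nat_lit 57926) (nat_lit 282) .nil))))))) (.g (nat_lit 1) (.e (nat_lit 149806) (nat_lit 0) .nil) .nil)))) (.nd (nat_lit 9) 
(.lf (nat_lit 493043) (.g (nat_lit 2680) (.e (nat_lit 163874) (nat_lit 3) (.e (nat_lit 204836) (nat_lit 20) (.e (nat_lit 114719) (nat_lit 23) (.e (nat_lit 98367) (nat_lit 27) (.e (nat_lit 434232) (nat_lit 23) (.e (nat_lit 532499) (nat_lit 1) (.e (nat_lit 57692) (nat_lit 156) .nil))))))) (.g (nat_lit 1) (.e (nat_lit 149480) (nat_lit 0) .nil) .nil))) 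
(.lf (nat_lit 493555) (.g (nat_lit 1010) (.e (nat_lit 163875) (nat_lit 3) (.e (nat_lit 204829) (nat_lit 18) (.e (nat_lit 57908) (nat_lit 278) .nil))) (.g (nat_lit 0) (.e (nat_lit 150397) (nat_lit 0) .nil) .nil))))))))) (.nd (nat_lit 4) (.nd (nat_lit 5) (.nd (nat_lit 6) (.nd (nat_lit 7) (.nd (nat_lit 8) (.nd (nat_lit 9) 
(.lf (nat_lit 492555) (.g (nat_lit 2565) (.e (nat_lit 163873) (nat_lit 3) (.e (nat_lit 204813) (nat_lit 9) (.e (nat_lit 426188) (nat_lit 9) (.e (nat_lit 426564) (nat_lit 34) (.e (nat_lit 393251) (nat_lit 18) (.e (nat_lit 164332) (nat_lit 230) .nil)))))) (.g (nat_lit 1) (.e (nat_lit 148633) (nat_lit 0) .nil) .nil))) 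
(.lf (nat_lit 493067) (.g (nat_lit 4579) (.e (nat_lit 163874) (nat_lit 3) (.e (nat_lit 204837) (nat_lit 20) (.e (nat_lit 114715) (nat_lit 22) (.e (nat_lit 90170) (nat_lit 13) (.e (nat_lit 172065) (nat_lit 3) (.e (nat_lit 204830) (nat_lit 18) (.e (nat_lit 57691) (nat_lit 156) .nil))))))) (.g (nat_lit 1) (.e (nat_lit 149504) (nat_lit 0) .nil) .nil)))) (.nd (nat_lit 9) 
(.lf (nat_lit 492811) (.g (nat_lit 1989) (.e (nat_lit 163873) (nat_lit 3) (.e (nat_lit 204837) (nat_lit 20) (.e (nat_lit 114719) (nat_lit 23) (.e (nat_lit 98384) (nat_lit 32) (.e (nat_lit 475177) (nat_lit 24) .nil))))) (.g (nat_lit 0) (.e (nat_lit 149089) (nat_lit 0) .nil) .nil))) 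
(.lf (nat_lit 493323) (.g (nat_lit 2486) (.e (nat_lit 163874) (nat_lit 3) (.e (nat_lit 204861) (nat_lit 26) (.e (nat_lit 336076) (nat_lit 9) (.e (nat_lit 336455) (nat_lit 34) (.e (nat_lit 483363) (nat_lit 18) (.e (nat_lit 57927) (nat_lit 282) .nil)))))) (.g (nat_lit 1) (.e (nat_lit 149895) (nat_lit 0) .nil) .nil))))) (.nd (nat_lit 8) (.nd (nat_lit 9) 
(.lf (nat_lit 492683) (.g (nat_lit 2999) (.e (nat_lit 163873) (nat_lit 3) (.e (nat_lit 204813) (nat_lit 9) (.e (nat_lit 426199) (nat_lit 9) (.e (nat_lit 426480) (nat_lit 27) (.e (nat_lit 336385) (nat_lit 27) (.e (nat_lit 426107) (nat_lit 1) (.e (nat_lit 164325) (nat_lit 230) .nil))))))) (.g (nat_lit 1) (.e (nat_lit 148778) (nat_lit 0) .nil) .nil))) 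
(.lf (nat_lit 493195) (.g (nat_lit 2194) (.e (nat_lit 163874) (nat_lit 3) (.e (nat_lit 204838) (nat_lit 20) (.e (nat_lit 114716) (nat_lit 22) (.e (nat_lit 90174) (nat_lit 14) (.e (nat_lit 180243) (nat_lit 5) (.e (nat_lit 532504) (nat_lit 1) (.e (nat_lit 57685) (nat_lit 156) .nil))))))) (.g (nat_lit 1) (.e (nat_lit 149632) (nat_lit 0) .nil) .nil)))) (.nd (nat_lit 9) 
(.lf (nat_lit 492939) (.g (nat_lit 3035) (.e (nat_lit 163874) (nat_lit 3) (.e (nat_lit 204809) (nat_lit 9) (.e (nat_lit 426188) (nat_lit 9) (.e (nat_lit 426568) (nat_lit 34) (.e (nat_lit 393252) (nat_lit 18) (.e (nat_lit 164332) (nat_lit 230) .nil)))))) (.g (nat_lit 1) (.e (nat_lit 149261) (nat_lit 0) .nil) .nil))) 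
(.lf (nat_lit 493451) (.g (nat_lit 1932) (.e (nat_lit 163875) (nat_lit 3) (.e (nat_lit 204809) (nat_lit 9) (.e (nat_lit 426188) (nat_lit 9) (.e (nat_lit 426564) (nat_lit 34) (.e (nat_lit 393251) (nat_lit 18) (.e (nat_lit 164325) (nat_lit 230) .nil)))))) (.g (nat_lit 1) (.e (nat_lit 150143) (nat_lit 0) .nil) .nil)))))) (.nd (nat_lit 7) (.nd (nat_lit 8) (.nd (nat_lit 9) 
(.lf (nat_lit 492619) (.g (nat_lit 4561) (.e (nat_lit 163873) (nat_lit 3) (.e (nat_lit 204813) (nat_lit 9) (.e (nat_lit 426197) (nat_lit 9) (.e (nat_lit 426566) (nat_lit 34) (.e (nat_lit 393251) (nat_lit 18) (.e (nat_lit 164332) (nat_lit 230) .nil)))))) (.g (nat_lit 1) (.e (nat_lit 148699) (nat_lit 0) .nil) .nil))) 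
(.lf (nat_lit 493131) (.g (nat_lit 3607) (.e (nat_lit 163874) (nat_lit 3) (.e (nat_lit 204837) (nat_lit 20) (.e (nat_lit 114719) (nat_lit 23) (.e (nat_lit 98366) (nat_lit 27) (.e (nat_lit 434232) (nat_lit 23) (.e (nat_lit 532504) (nat_lit 1) (.e (nat_lit 57692) (nat_lit 156) .nil))))))) (.g (nat_lit 1) (.e (nat_lit 149568) (nat_lit 0) .nil) .nil)))) (.nd (nat_lit 9) 
(.lf (nat_lit 492875) (.g (nat_lit 2311) (.e (nat_lit 163873) (nat_lit 3) (.e (nat_lit 204854) (nat_lit 26) (.e (nat_lit 336019) (nat_lit 3) (.e (nat_lit 98342) (nat_lit 20) .nil)))) (.g (nat_lit 0) (.e (nat_lit 149156) (nat_lit 0) .nil) .nil))) 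
(.lf (nat_lit 493387) (.g (nat_lit 2498) (.e (nat_lit 163874) (nat_lit 3) (.e (nat_lit 204863) (nat_lit 27) (.e (nat_lit 344130) (nat_lit 26) (.e (nat_lit 557097) (nat_lit 13) (.e (nat_lit 179968) (nat_lit 18) .nil))))) (.g (nat_lit 0) (.e (nat_lit 149972) (nat_lit 0) .nil) .nil))))) (.nd (nat_lit 8) (.nd (nat_lit 9) 
(.lf (nat_lit 492747) (.g (nat_lit 2195) (.e (nat_lit 163873) (nat_lit 3) (.e (nat_lit 204813) (nat_lit 9) (.e (nat_lit 426200) (nat_lit 9) (.e (nat_lit 426481) (nat_lit 27) (.e (nat_lit 336386) (nat_lit 27) (.e (nat_lit 426108) (nat_lit 1) (.e (nat_lit 164330) (nat_lit 230) .nil))))))) (.g (nat_lit 1) (.e (nat_lit 148853) (nat_lit 0) .nil) .nil))) 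
(.lf (nat_lit 493259) (.g (nat_lit 3302) (.e (nat_lit 163874) (nat_lit 3) (.e (nat_lit 204852) (nat_lit 26) (.e (nat_lit 336211) (nat_lit 13) (.e (nat_lit 393225) (nat_lit 9) (.e (nat_lit 335995) (nat_lit 1) (.e (nat_lit 57929) (nat_lit 282) .nil)))))) (.g (nat_lit 1) (.e (nat_lit 149742) (nat_lit 0) .nil) .nil)))) (.nd (nat_lit 9) 
(.lf (nat_lit 493003) (.g (nat_lit 3435) (.e (nat_lit 163874) (nat_lit 3) (.e (nat_lit 204813) (nat_lit 9) (.e (nat_lit 426198) (nat_lit 9) (.e (nat_lit 426566) (nat_lit 34) (.e (nat_lit 393253) (nat_lit 18) (.e (nat_lit 164325) (nat_lit 230) .nil)))))) (.g (nat_lit 1) (.e (nat_lit 149371) (nat_lit 0) .nil) .nil))) 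
(.lf (nat_lit 493515) (.g (nat_lit 2721) (.e (nat_lit 163875) (nat_lit 3) (.e (nat_lit 204813) (nat_lit 9) (.e (nat_lit 426199) (nat_lit 9) (.e (nat_lit 426481) (nat_lit 27) (.e (nat_lit 336389) (nat_lit 27) (.e (nat_lit 426098) (nat_lit 1) (.e (nat_lit 164327) (nat_lit 230) .nil))))))) (.g (nat_lit 1) (.e (nat_lit 150285) (nat_lit 0) .nil) .nil))))))) 
(.nd (nat_lit 6) (.nd (nat_lit 7) (.nd (nat_lit 8) (.nd (nat_lit 9) 
(.lf (nat_lit 492587) (.g (nat_lit 3422) (.e (nat_lit 163873) (nat_lit 3) (.e (nat_lit 204813) (nat_lit 9) (.e (nat_lit 426189) (nat_lit 9) (.e (nat_lit 426566) (nat_lit 34) (.e (nat_lit 393253) (nat_lit 18) (.e (nat_lit 164330) (nat_lit 230) .nil)))))) (.g (nat_lit 1) (.e (nat_lit 148666) (nat_lit 0) .nil) .nil))) 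
(.lf (nat_lit 493099) (.g (nat_lit 3325) (.e (nat_lit 163874) (nat_lit 3) (.e (nat_lit 204837) (nat_lit 20) (.e (nat_lit 114718) (nat_lit 23) (.e (nat_lit 98367) (nat_lit 27) (.e (nat_lit 434231) (nat_lit 23) (.e (nat_lit 532502) (nat_lit 1) (.e (nat_lit 57692) (nat_lit 156) .nil))))))) (.g (nat_lit 1) (.e (nat_lit 149536) (nat_lit 0) .nil) .nil)))) (.nd (nat_lit 9) 
(.lf (nat_lit 492843) (.g (nat_lit 2224) (.e (nat_lit 163873) (nat_lit 3) (.e (nat_lit 204838) (nat_lit 20) (.e (nat_lit 114719) (nat_lit 23) (.e (nat_lit 98366) (nat_lit 27) (.e (nat_lit 434231) (nat_lit 23) (.e (nat_lit 532499) (nat_lit 1) (.e (nat_lit 57686) (nat_lit 156) .nil))))))) (.g (nat_lit 1) (.e (nat_lit 149121) (nat_lit 0) .nil) .nil))) 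
(.lf (nat_lit 493355) (.g (nat_lit 2094) (.e (nat_lit 163874) (nat_lit 3) (.e (nat_lit 204862) (nat_lit 27) (.e (nat_lit 344117) (nat_lit 21) (.e (nat_lit 516129) (nat_lit 3) (.e (nat_lit 221210) (nat_lit 22) .nil))))) (.g (nat_lit 0) (.e (nat_lit 149940) (nat_lit 0) .nil) .nil))))) (.nd (nat_lit 8) (.nd (nat_lit 9) 
(.lf (nat_lit 492715) (.g (nat_lit 3794) (.e (nat_lit 163873) (nat_lit 3) (.e (nat_lit 204813) (nat_lit 9) (.e (nat_lit 426199) (nat_lit 9) (.e (nat_lit 426566) (nat_lit 34) (.e (nat_lit 393252) (nat_lit 18) (.e (nat_lit 164332) (nat_lit 230) .nil)))))) (.g (nat_lit 1) (.e (nat_lit 148816) (nat_lit 0) .nil) .nil))) 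
(.lf (nat_lit 493227) (.g (nat_lit 4129) (.e (nat_lit 163874) (nat_lit 3) (.e (nat_lit 204838) (nat_lit 20) (.e (nat_lit 114719) (nat_lit 23) (.e (nat_lit 98367) (nat_lit 27) (.e (nat_lit 434231) (nat_lit 23) (.e (nat_lit 532500) (nat_lit 1) (.e (nat_lit 57690) (nat_lit 156) .nil))))))) (.g (nat_lit 1) (.e (nat_lit 149664) (nat_lit 0) .nil) .nil)))) (.nd (nat_lit 9) 
(.lf (nat_lit 492971) (.g (nat_lit 1746) (.e (nat_lit 163874) (nat_lit 3) (.e (nat_lit 204812) (nat_lit 9) (.e (nat_lit 426198) (nat_lit 9) (.e (nat_lit 426566) (nat_lit 34) (.e (nat_lit 393252) (nat_lit 18) (.e (nat_lit 164332) (nat_lit 230) .nil)))))) (.g (nat_lit 1) (.e (nat_lit 149331) (nat_lit 0) .nil) .nil))) 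
(.lf (nat_lit 493483) (.g (nat_lit 1527) (.e (nat_lit 163875) (nat_lit 3) (.e (nat_lit 204813) (nat_lit 9) (.e (nat_lit 426188) (nat_lit 9) (.e (nat_lit 426564) (nat_lit 34) .nil)))) (.g (nat_lit 0) (.e (nat_lit 150246) (nat_lit 0) .nil) .nil)))))) (.nd (nat_lit 7) (.nd (nat_lit 8) (.nd (nat_lit 9) 
(.lf (nat_lit 492651) (.g (nat_lit 3381) (.e (nat_lit 163873) (nat_lit 3) (.e (nat_lit 204813) (nat_lit 9) (.e (nat_lit 426198) (nat_lit 9) (.e (nat_lit 426566) (nat_lit 34) (.e (nat_lit 393252) (nat_lit 18) (.e (nat_lit 164330) (nat_lit 230) .nil)))))) (.g (nat_lit 1) (.e (nat_lit 148746) (nat_lit 0) .nil) .nil))) 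
(.lf (nat_lit 493163) (.g (nat_lit 4835) (.e (nat_lit 163874) (nat_lit 3) (.e (nat_lit 204838) (nat_lit 20) (.e (nat_lit 114714) (nat_lit 22) (.e (nat_lit 90174) (nat_lit 14) (.e (nat_lit 180243) (nat_lit 5) (.e (nat_lit 532503) (nat_lit 1) (.e (nat_lit 57688) (nat_lit 156) .nil))))))) (.g (nat_lit 1) (.e (nat_lit 149600) (nat_lit 0) .nil) .nil)))) (.nd (nat_lit 9) 
(.lf (nat_lit 492907) (.g (nat_lit 3479) (.e (nat_lit 163873) (nat_lit 3) (.e (nat_lit 204861) (nat_lit 26) (.e (nat_lit 336076) (nat_lit 9) (.e (nat_lit 336454) (nat_lit 34) (.e (nat_lit 483363) (nat_lit 18) (.e (nat_lit 57927) (nat_lit 282) .nil)))))) (.g (nat_lit 1) (.e (nat_lit 149194) (nat_lit 0) .nil) .nil))) 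
(.lf (nat_lit 493419) (.g (nat_lit 2840) (.e (nat_lit 163874) (nat_lit 3) (.e (nat_lit 204864) (nat_lit 27) (.e (nat_lit 344133) (nat_lit 26) (.e (nat_lit 557098) (nat_lit 13) (.e (nat_lit 179968) (nat_lit 18) (.e (nat_lit 98343) (nat_lit 21) (.e (nat_lit 229680) (nat_lit 244) .nil))))))) (.g (nat_lit 1) (.e (nat_lit 150004) (nat_lit 0) .nil) .nil))))) (.nd (nat_lit 8) (.nd (nat_lit 9) 
(.lf (nat_lit 492779) (.g (nat_lit 4358) (.e (nat_lit 163873) (nat_lit 3) (.e (nat_lit 204813) (nat_lit 9) (.e (nat_lit 433920) (nat_lit 9) (.e (nat_lit 426566) (nat_lit 34) (.e (nat_lit 393253) (nat_lit 18) (.e (nat_lit 164327) (nat_lit 230) .nil)))))) (.g (nat_lit 1) (.e (nat_lit 148898) (nat_lit 0) .nil) .nil))) 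
(.lf (nat_lit 493291) (.g (nat_lit 795) (.e (nat_lit 163874) (nat_lit 3) (.e (nat_lit 204855) (nat_lit 26) (.e (nat_lit 336217) (nat_lit 13) .nil))) (.g (nat_lit 0) (.e (nat_lit 149798) (nat_lit 0) .nil) .nil)))) (.nd (nat_lit 9) 
(.lf (nat_lit 493035) (.g (nat_lit 2179) (.e (nat_lit 163874) (nat_lit 3) (.e (nat_lit 204829) (nat_lit 18) (.e (nat_lit 57927) (nat_lit 282) (.e (nat_lit 164084) (nat_lit 73) (.e (nat_lit 336004) (nat_lit 2) (.e (nat_lit 90185) (nat_lit 17) (.e (nat_lit 237582) (nat_lit 1) (.e (nat_lit 164332) (nat_lit 230) .nil)))))))) (.g (nat_lit 1) (.e (nat_lit 149472) (nat_lit 0) .nil) .nil))) 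
(.lf (nat_lit 493547) (.g (nat_lit 3538) (.e (nat_lit 163875) (nat_lit 3) (.e (nat_lit 204829) (nat_lit 18) (.e (nat_lit 57847) (nat_lit 252) (.e (nat_lit 57430) (nat_lit 16) (.e (nat_lit 368676) (nat_lit 21) (.e (nat_lit 516146) (nat_lit 9) (.e (nat_lit 426422) (nat_lit 16) (.e (nat_lit 57686) (nat_lit 156) .nil)))))))) (.g (nat_lit 1) (.e (nat_lit 150389) (nat_lit 0) .nil) .nil)))))))) 
(.nd (nat_lit 5) (.nd (nat_lit 6) (.nd (nat_lit 7) (.nd (nat_lit 8) (.nd (nat_lit 9) 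
(.lf (nat_lit 492571) (.g (nat_lit 3867) (.e (nat_lit 163873) (nat_lit 3) (.e (nat_lit 204813) (nat_lit 9) (.e (nat_lit 426188) (nat_lit 9) (.e (nat_lit 426568) (nat_lit 34) (.e (nat_lit 393251) (nat_lit 18) (.e (nat_lit 164327) (nat_lit 230) .nil)))))) (.g (nat_lit 1) (.e (nat_lit 148650) (nat_lit 0) .nil) .nil))) 
(.lf (nat_lit 493083) (.g (nat_lit 3793) (.e (nat_lit 163874) (nat_lit 3) (.e (nat_lit 204837) (nat_lit 20) (.e (nat_lit 114716) (nat_lit 22) (.e (nat_lit 90174) (nat_lit 14) (.e (nat_lit 180243) (nat_lit 5) (.e (nat_lit 532501) (nat_lit 1) (.e (nat_lit 57690) (nat_lit 156) .nil))))))) (.g (nat_lit 1) (.e (nat_lit 149520) (nat_lit 0) .nil) .nil)))) (.nd (nat_lit 9) 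
(.lf (nat_lit 492827) (.g (nat_lit 2469) (.e (nat_lit 163873) (nat_lit 3) (.e (nat_lit 204838) (nat_lit 20) (.e (nat_lit 114718) (nat_lit 23) (.e (nat_lit 98366) (nat_lit 27) (.e (nat_lit 434231) (nat_lit 23) (.e (nat_lit 532502) (nat_lit 1) (.e (nat_lit 57688) (nat_lit 156) .nil))))))) (.g (nat_lit 1) (.e (nat_lit 149105) (nat_lit 0) .nil) .nil))) 
(.lf (nat_lit 493339) (.g (nat_lit 1048) (.e (nat_lit 163874) (nat_lit 3) (.e (nat_lit 204861) (nat_lit 26) (.e (nat_lit 336215) (nat_lit 13) (.e (nat_lit 401152) (nat_lit 10) .nil)))) (.g (nat_lit 0) (.e (nat_lit 149924) (nat_lit 0) .nil) .nil))))) (.nd (nat_lit 8) (.nd (nat_lit 9) 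
(.lf (nat_lit 492699) (.g (nat_lit 3094) (.e (nat_lit 163873) (nat_lit 3) (.e (nat_lit 204813) (nat_lit 9) (.e (nat_lit 426199) (nat_lit 9) (.e (nat_lit 426489) (nat_lit 27) (.e (nat_lit 336406) (nat_lit 27) (.e (nat_lit 426098) (nat_lit 1) (.e (nat_lit 164325) (nat_lit 230) .nil))))))) (.g (nat_lit 1) (.e (nat_lit 148800) (nat_lit 0) .nil) .nil))) 
(.lf (nat_lit 493211) (.g (nat_lit 3085) (.e (nat_lit 163874) (nat_lit 3) (.e (nat_lit 204838) (nat_lit 20) (.e (nat_lit 114718) (nat_lit 23) (.e (nat_lit 98367) (nat_lit 27) (.e (nat_lit 434232) (nat_lit 23) (.e (nat_lit 532504) (nat_lit 1) (.e (nat_lit 57691) (nat_lit 156) .nil))))))) (.g (nat_lit 1) (.e (nat_lit 149648) (nat_lit 0) .nil) .nil)))) (.nd (nat_lit 9) 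
(.lf (nat_lit 492955) (.g (nat_lit 3052) (.e (nat_lit 163874) (nat_lit 3) (.e (nat_lit 204809) (nat_lit 9) (.e (nat_lit 426200) (nat_lit 9) (.e (nat_lit 426566) (nat_lit 34) (.e (nat_lit 393253) (nat_lit 18) (.e (nat_lit 164330) (nat_lit 230) .nil)))))) (.g (nat_lit 1) (.e (nat_lit 149277) (nat_lit 0) .nil) .nil))) 
(.lf (nat_lit 493467) (.g (nat_lit 3285) (.e (nat_lit 163875) (nat_lit 3) (.e (nat_lit 204809) (nat_lit 9) (.e (nat_lit 426200) (nat_lit 9) (.e (nat_lit 426568) (nat_lit 34) (.e (nat_lit 393251) (nat_lit 18) (.e (nat_lit 164325) (nat_lit 230) .nil)))))) (.g (nat_lit 1) (.e (nat_lit 150159) (nat_lit 0) .nil) .nil)))))) (.nd (nat_lit 7) (.nd (nat_lit 8) (.nd (nat_lit 9) 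
(.lf (nat_lit 492635) (.g (nat_lit 3884) (.e (nat_lit 163873) (nat_lit 3) (.e (nat_lit 204813) (nat_lit 9) (.e (nat_lit 426197) (nat_lit 9) (.e (nat_lit 426568) (nat_lit 34) (.e (nat_lit 393253) (nat_lit 18) (.e (nat_lit 164325) (nat_lit 230) .nil)))))) (.g (nat_lit 1) (.e (nat_lit 148715) (nat_lit 0) .nil) .nil))) 
(.lf (nat_lit 493147) (.g (nat_lit 2263) (.e (nat_lit 163874) (nat_lit 3) (.e (nat_lit 204837) (nat_lit 20) (.e (nat_lit 114719) (nat_lit 23) (.e (nat_lit 98367) (nat_lit 27) (.e (nat_lit 434234) (nat_lit 23) .nil))))) (.g (nat_lit 0) (.e (nat_lit 149584) (nat_lit 0) .nil) .nil)))) (.nd (nat_lit 9) 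
(.lf (nat_lit 492891) (.g (nat_lit 2748) (.e (nat_lit 163873) (nat_lit 3) (.e (nat_lit 204861) (nat_lit 26) (.e (nat_lit 336075) (nat_lit 9) (.e (nat_lit 336454) (nat_lit 34) (.e (nat_lit 483364) (nat_lit 18) (.e (nat_lit 57930) (nat_lit 282) .nil)))))) (.g (nat_lit 1) (.e (nat_lit 149175) (nat_lit 0) .nil) .nil))) 
(.lf (nat_lit 493403) (.g (nat_lit 3026) (.e (nat_lit 163874) (nat_lit 3) (.e (nat_lit 204863) (nat_lit 27) (.e (nat_lit 344133) (nat_lit 26) (.e (nat_lit 557105) (nat_lit 14) (.e (nat_lit 180251) (nat_lit 10) .nil))))) (.g (nat_lit 0) (.e (nat_lit 149988) (nat_lit 0) .nil) .nil))))) (.nd (nat_lit 8) (.nd (nat_lit 9) 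
(.lf (nat_lit 492763) (.g (nat_lit 3597) (.e (nat_lit 163873) (nat_lit 3) (.e (nat_lit 204813) (nat_lit 9) (.e (nat_lit 426200) (nat_lit 9) (.e (nat_lit 426566) (nat_lit 34) (.e (nat_lit 393254) (nat_lit 18) (.e (nat_lit 164331) (nat_lit 230) .nil)))))) (.g (nat_lit 1) (.e (nat_lit 148877) (nat_lit 0) .nil) .nil))) 
(.lf (nat_lit 493275) (.g (nat_lit 2267) (.e (nat_lit 163874) (nat_lit 3) (.e (nat_lit 204854) (nat_lit 26) (.e (nat_lit 336019) (nat_lit 3) (.e (nat_lit 98342) (nat_lit 20) (.e (nat_lit 221198) (nat_lit 20) (.e (nat_lit 3241) (nat_lit 197) (.e (nat_lit 532500) (nat_lit 1) (.e (nat_lit 57927) (nat_lit 282) .nil)))))))) (.g (nat_lit 1) (.e (nat_lit 149781) (nat_lit 0) .nil) .nil)))) 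
(.nd (nat_lit 9) 
(.lf (nat_lit 493019) (.g (nat_lit 3830) (.e (nat_lit 163874) (nat_lit 3) (.e (nat_lit 204813) (nat_lit 9) (.e (nat_lit 426200) (nat_lit 9) (.e (nat_lit 426566) (nat_lit 34) (.e (nat_lit 393253) (nat_lit 18) (.e (nat_lit 164324) (nat_lit 230) .nil)))))) (.g (nat_lit 1) (.e (nat_lit 149387) (nat_lit 0) .nil) .nil))) 
(.lf (nat_lit 493531) (.g (nat_lit 1874) (.e (nat_lit 163875) (nat_lit 3) (.e (nat_lit 204813) (nat_lit 9) (.e (nat_lit 426200) (nat_lit 9) (.e (nat_lit 426566) (nat_lit 34) (.e (nat_lit 393250) (nat_lit 18) (.e (nat_lit 164327) (nat_lit 230) .nil)))))) (.g (nat_lit 1) (.e (nat_lit 150308) (nat_lit 0) .nil) .nil))))))) (.nd (nat_lit 6) (.nd (nat_lit 7) (.nd (nat_lit 8) (.nd (nat_lit 9) 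
(.lf (nat_lit 492603) (.g (nat_lit 3322) (.e (nat_lit 163873) (nat_lit 3) (.e (nat_lit 204813) (nat_lit 9) (.e (nat_lit 426190) (nat_lit 9) (.e (nat_lit 426566) (nat_lit 34) (.e (nat_lit 393253) (nat_lit 18) (.e (nat_lit 164329) (nat_lit 230) .nil)))))) (.g (nat_lit 1) (.e (nat_lit 148682) (nat_lit 0) .nil) .nil))) 
(.lf (nat_lit 493115) (.g (nat_lit 2685) (.e (nat_lit 163874) (nat_lit 3) (.e (nat_lit 204837) (nat_lit 20) (.e (nat_lit 114719) (nat_lit 23) (.e (nat_lit 98356) (nat_lit 26) (.e (nat_lit 426436) (nat_lit 18) (.e (nat_lit 98334) (nat_lit 18) (.e (nat_lit 164330) (nat_lit 230) .nil))))))) (.g (nat_lit 1) (.e (nat_lit 149552) (nat_lit 0) .nil) .nil)))) (.nd (nat_lit 9) 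
(.lf (nat_lit 492859) (.g (nat_lit 2659) (.e (nat_lit 163873) (nat_lit 3) (.e (nat_lit 204851) (nat_lit 26) (.e (nat_lit 336019) (nat_lit 3) (.e (nat_lit 98341) (nat_lit 20) (.e (nat_lit 221214) (nat_lit 23) (.e (nat_lit 204830) (nat_lit 18) (.e (nat_lit 57927) (nat_lit 282) .nil))))))) (.g (nat_lit 1) (.e (nat_lit 149137) (nat_lit 0) .nil) .nil))) 
(.lf (nat_lit 493371) (.g (nat_lit 2515) (.e (nat_lit 163874) (nat_lit 3) (.e (nat_lit 204863) (nat_lit 27) (.e (nat_lit 344117) (nat_lit 21) (.e (nat_lit 516129) (nat_lit 3) (.e (nat_lit 221200) (nat_lit 20) .nil))))) (.g (nat_lit 0) (.e (nat_lit 149956) (nat_lit 0) .nil) .nil))))) (.nd (nat_lit 8) (.nd (nat_lit 9) 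
(.lf (nat_lit 492731) (.g (nat_lit 3936) (.e (nat_lit 163873) (nat_lit 3) (.e (nat_lit 204813) (nat_lit 9) (.e (nat_lit 426199) (nat_lit 9) (.e (nat_lit 426568) (nat_lit 34) (.e (nat_lit 393253) (nat_lit 18) (.e (nat_lit 164327) (nat_lit 230) .nil)))))) (.g (nat_lit 1) (.e (nat_lit 148832) (nat_lit 0) .nil) .nil))) 
(.lf (nat_lit 493243) (.g (nat_lit 2768) (.e (nat_lit 163874) (nat_lit 3) (.e (nat_lit 204851) (nat_lit 26) (.e (nat_lit 336019) (nat_lit 3) (.e (nat_lit 98341) (nat_lit 20) (.e (nat_lit 221214) (nat_lit 23) (.e (nat_lit 204830) (nat_lit 18) (.e (nat_lit 57931) (nat_lit 282) .nil))))))) (.g (nat_lit 1) (.e (nat_lit 149687) (nat_lit 0) .nil) .nil)))) (.nd (nat_lit 9) 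
(.lf (nat_lit 492987) (.g (nat_lit 2887) (.e (nat_lit 163874) (nat_lit 3) (.e (nat_lit 204813) (nat_lit 9) (.e (nat_lit 426189) (nat_lit 9) (.e (nat_lit 426566) (nat_lit 34) (.e (nat_lit 393252) (nat_lit 18) (.e (nat_lit 164332) (nat_lit 230) .nil)))))) (.g (nat_lit 1) (.e (nat_lit 149354) (nat_lit 0) .nil) .nil))) 
(.lf (nat_lit 493499) (.g (nat_lit 2729) (.e (nat_lit 163875) (nat_lit 3) (.e (nat_lit 204813) (nat_lit 9) (.e (nat_lit 426198) (nat_lit 9) (.e (nat_lit 426481) (nat_lit 27) (.e (nat_lit 336389) (nat_lit 27) (.e (nat_lit 426098) (nat_lit 1) (.e (nat_lit 164327) (nat_lit 230) .nil))))))) (.g (nat_lit 1) (.e (nat_lit 150269) (nat_lit 0) .nil) .nil)))))) 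
(.nd (nat_lit 7) (.nd (nat_lit 8) (.nd (nat_lit 9) 
(.lf (nat_lit 492667) (.g (nat_lit 2850) (.e (nat_lit 163873) (nat_lit 3) (.e (nat_lit 204813) (nat_lit 9) (.e (nat_lit 426198) (nat_lit 9) (.e (nat_lit 426568) (nat_lit 34) (.e (nat_lit 393251) (nat_lit 18) (.e (nat_lit 164332) (nat_lit 230) .nil)))))) (.g (nat_lit 1) (.e (nat_lit 148762) (nat_lit 0) .nil) .nil))) 
(.lf (nat_lit 493179) (.g (nat_lit 2379) (.e (nat_lit 163874) (nat_lit 3) (.e (nat_lit 204838) (nat_lit 20) (.e (nat_lit 114715) (nat_lit 22) (.e (nat_lit 90170) (nat_lit 13) (.e (nat_lit 172067) (nat_lit 3) (.e (nat_lit 204830) (nat_lit 18) (.e (nat_lit 57685) (nat_lit 156) .nil))))))) (.g (nat_lit 1) (.e (nat_lit 149616) (nat_lit 0) .nil) .nil)))) (.nd (nat_lit 9) 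
(.lf (nat_lit 492923) (.g (nat_lit 2190) (.e (nat_lit 163873) (nat_lit 3) (.e (nat_lit 204861) (nat_lit 26) (.e (nat_lit 336222) (nat_lit 13) (.e (nat_lit 393229) (nat_lit 9) (.e (nat_lit 335995) (nat_lit 1) (.e (nat_lit 57931) (nat_lit 282) .nil)))))) (.g (nat_lit 1) (.e (nat_lit 149212) (nat_lit 0) .nil) .nil))) 
(.lf (nat_lit 493435) (.g (nat_lit 3637) (.e (nat_lit 163874) (nat_lit 3) (.e (nat_lit 204873) (nat_lit 30) (.e (nat_lit 368676) (nat_lit 21) (.e (nat_lit 516131) (nat_lit 3) (.e (nat_lit 221215) (nat_lit 23) (.e (nat_lit 204830) (nat_lit 18) (.e (nat_lit 57931) (nat_lit 282) .nil))))))) (.g (nat_lit 1) (.e (nat_lit 150082) (nat_lit 0) .nil) .nil))))) (.nd (nat_lit 8) (.nd (nat_lit 9) 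
(.lf (nat_lit 492795) (.g (nat_lit 2534) (.e (nat_lit 163873) (nat_lit 3) (.e (nat_lit 204837) (nat_lit 20) (.e (nat_lit 114718) (nat_lit 23) (.e (nat_lit 98367) (nat_lit 27) (.e (nat_lit 434231) (nat_lit 23) (.e (nat_lit 532502) (nat_lit 1) (.e (nat_lit 57688) (nat_lit 156) .nil))))))) (.g (nat_lit 1) (.e (nat_lit 149073) (nat_lit 0) .nil) .nil))) 
(.lf (nat_lit 493307) (.g (nat_lit 407) (.e (nat_lit 163874) (nat_lit 3) (.e (nat_lit 204861) (nat_lit 26) (.e (nat_lit 336076) (nat_lit 9) .nil))) (.g (nat_lit 0) (.e (nat_lit 149865) (nat_lit 0) .nil) .nil)))) (.nd (nat_lit 9) 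
(.lf (nat_lit 493051) (.g (nat_lit 4477) (.e (nat_lit 163874) (nat_lit 3) (.e (nat_lit 204837) (nat_lit 20) (.e (nat_lit 114714) (nat_lit 22) (.e (nat_lit 90174) (nat_lit 14) (.e (nat_lit 180243) (nat_lit 5) (.e (nat_lit 532501) (nat_lit 1) (.e (nat_lit 57690) (nat_lit 156) .nil))))))) (.g (nat_lit 1) (.e (nat_lit 149488) (nat_lit 0) .nil) .nil))) 
(.lf (nat_lit 493563) (.g (nat_lit 3423) (.e (nat_lit 163875) (nat_lit 3) (.e (nat_lit 204830) (nat_lit 18) (.e (nat_lit 57852) (nat_lit 252) (.e (nat_lit 57409) (nat_lit 12) (.e (nat_lit 336019) (nat_lit 3) (.e (nat_lit 98356) (nat_lit 26) (.e (nat_lit 426422) (nat_lit 16) (.e (nat_lit 57686) (nat_lit 156) .nil)))))))) (.g (nat_lit 1) (.e (nat_lit 150405) (nat_lit 0) .nil) .nil)))))))))) 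
(.nd (nat_lit 3) (.nd (nat_lit 4) (.nd (nat_lit 5) (.nd (nat_lit 6) (.nd (nat_lit 7) 
(.nd (nat_lit 8) (.nd (nat_lit 9) 
(.lf (nat_lit 492551) (.g (nat_lit 2226) (.e (nat_lit 163873) (nat_lit 3) (.e (nat_lit 204813) (nat_lit 9) (.e (nat_lit 426188) (nat_lit 9) (.e (nat_lit 426481) (nat_lit 27) (.e (nat_lit 336389) (nat_lit 27) (.e (nat_lit 426098) (nat_lit 1) (.e (nat_lit 164327) (nat_lit 230) .nil))))))) (.g (nat_lit 1) (.e (nat_lit 148628) (nat_lit 0) .nil) .nil))) 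
(.lf (nat_lit 493063) (.g (nat_lit 4460) (.e (nat_lit 163874) (nat_lit 3) (.e (nat_lit 204837) (nat_lit 20) (.e (nat_lit 114715) (nat_lit 22) (.e (nat_lit 90170) (nat_lit 13) (.e (nat_lit 172065) (nat_lit 3) (.e (nat_lit 204829) (nat_lit 18) (.e (nat_lit 57692) (nat_lit 156) .nil))))))) (.g (nat_lit 1) (.e (nat_lit 149500) (nat_lit 0) .nil) .nil)))) (.nd (nat_lit 9) 
(.lf (nat_lit 492807) (.g (nat_lit 2494) (.e (nat_lit 163873) (nat_lit 3) (.e (nat_lit 204837) (nat_lit 20) (.e (nat_lit 114719) (nat_lit 23) (.e (nat_lit 98367) (nat_lit 27) (.e (nat_lit 434232) (nat_lit 23) .nil))))) (.g (nat_lit 0) (.e (nat_lit 149085) (nat_lit 0) .nil) .nil))) 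
(.lf (nat_lit 493319) (.g (nat_lit 2990) (.e (nat_lit 163874) (nat_lit 3) (.e (nat_lit 204861) (nat_lit 26) (.e (nat_lit 336076) (nat_lit 9) (.e (nat_lit 336454) (nat_lit 34) (.e (nat_lit 483363) (nat_lit 18) (.e (nat_lit 57930) (nat_lit 282) .nil)))))) (.g (nat_lit 1) (.e (nat_lit 149891) (nat_lit 0) .nil) .nil))))) (.nd (nat_lit 8) (.nd (nat_lit 9) 
(.lf (nat_lit 492679) (.g (nat_lit 2879) (.e (nat_lit 163873) (nat_lit 3) (.e (nat_lit 204813) (nat_lit 9) (.e (nat_lit 426199) (nat_lit 9) (.e (nat_lit 426478) (nat_lit 27) (.e (nat_lit 336386) (nat_lit 27) (.e (nat_lit 426098) (nat_lit 1) (.e (nat_lit 164325) (nat_lit 230) .nil))))))) (.g (nat_lit 1) (.e (nat_lit 148774) (nat_lit 0) .nil) .nil))) 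
(.lf (nat_lit 493191) (.g (nat_lit 3898) (.e (nat_lit 163874) (nat_lit 3) (.e (nat_lit 204838) (nat_lit 20) (.e (nat_lit 114716) (nat_lit 22) (.e (nat_lit 90174) (nat_lit 14) (.e (nat_lit 180243) (nat_lit 5) (.e (nat_lit 532501) (nat_lit 1) (.e (nat_lit 57690) (nat_lit 156) .nil))))))) (.g (nat_lit 1) (.e (nat_lit 149628) (nat_lit 0) .nil) .nil)))) (.nd (nat_lit 9) 
(.lf (nat_lit 492935) (.g (nat_lit 2520) (.e (nat_lit 163874) (nat_lit 3) (.e (nat_lit 204809) (nat_lit 9) (.e (nat_lit 426188) (nat_lit 9) (.e (nat_lit 426566) (nat_lit 34) (.e (nat_lit 393252) (nat_lit 18) (.e (nat_lit 164330) (nat_lit 230) .nil)))))) (.g (nat_lit 1) (.e (nat_lit 149257) (nat_lit 0) .nil) .nil))) 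
(.lf (nat_lit 493447) (.g (nat_lit 3204) (.e (nat_lit 163874) (nat_lit 3) (.e (nat_lit 204877) (nat_lit 31) (.e (nat_lit 376842) (nat_lit 11) (.e (nat_lit 426500) (nat_lit 27) (.e (nat_lit 335986) (nat_lit 1) (.e (nat_lit 57926) (nat_lit 282) .nil)))))) (.g (nat_lit 1) (.e (nat_lit 150095) (nat_lit 0) .nil) .nil)))))) (.nd (nat_lit 7) (.nd (nat_lit 8) (.nd (nat_lit 9) 
(.lf (nat_lit 492615) (.g (nat_lit 3815) (.e (nat_lit 163873) (nat_lit 3) (.e (nat_lit 204813) (nat_lit 9) (.e (nat_lit 426196) (nat_lit 9) (.e (nat_lit 426568) (nat_lit 34) (.e (nat_lit 393252) (nat_lit 18) (.e (nat_lit 164330) (nat_lit 230) .nil)))))) (.g (nat_lit 1) (.e (nat_lit 148694) (nat_lit 0) .nil) .nil))) 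
(.lf (nat_lit 493127) (.g (nat_lit 3016) (.e (nat_lit 163874) (nat_lit 3) (.e (nat_lit 204837) (nat_lit 20) (.e (nat_lit 114719) (nat_lit 23) (.e (nat_lit 98366) (nat_lit 27) (.e (nat_lit 434232) (nat_lit 23) (.e (nat_lit 532499) (nat_lit 1) (.e (nat_lit 57688) (nat_lit 156) .nil))))))) (.g (nat_lit 1) (.e (nat_lit 149564) (nat_lit 0) .nil) .nil)))) (.nd (nat_lit 9) 
(.lf (nat_lit 492871) (.g (nat_lit 2604) (.e (nat_lit 163873) (nat_lit 3) (.e (nat_lit 204853) (nat_lit 26) (.e (nat_lit 336019) (nat_lit 3) (.e (nat_lit 98342) (nat_lit 20) (.e (nat_lit 221215) (nat_lit 23) (.e (nat_lit 204829) (nat_lit 18) (.e (nat_lit 57926) (nat_lit 282) .nil))))))) (.g (nat_lit 1) (.e (nat_lit 149152) (nat_lit 0) .nil) .nil))) 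
(.lf (nat_lit 493383) (.g (nat_lit 574) (.e (nat_lit 163874) (nat_lit 3) (.e (nat_lit 204863) (nat_lit 27) (.e (nat_lit 344129) (nat_lit 26) .nil))) (.g (nat_lit 0) (.e (nat_lit 149968) (nat_lit 0) .nil) .nil))))) (.nd (nat_lit 8) (.nd (nat_lit 9) 
(.lf (nat_lit 492743) (.g (nat_lit 2246) (.e (nat_lit 163873) (nat_lit 3) (.e (nat_lit 204813) (nat_lit 9) (.e (nat_lit 426200) (nat_lit 9) (.e (nat_lit 426480) (nat_lit 27) (.e (nat_lit 336385) (nat_lit 27) (.e (nat_lit 426108) (nat_lit 1) (.e (nat_lit 164330) (nat_lit 230) .nil))))))) (.g (nat_lit 1) (.e (nat_lit 148848) (nat_lit 0) .nil) .nil))) 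
(.lf (nat_lit 493255) (.g (nat_lit 3981) (.e (nat_lit 163874) (nat_lit 3) (.e (nat_lit 204851) (nat_lit 26) (.e (nat_lit 336019) (nat_lit 3) (.e (nat_lit 98342) (nat_lit 20) (.e (nat_lit 221215) (nat_lit 23) (.e (nat_lit 204830) (nat_lit 18) (.e (nat_lit 57927) (nat_lit 282) .nil))))))) (.g (nat_lit 1) (.e (nat_lit 149699) (nat_lit 0) .nil) .nil)))) (.nd (nat_lit 9) 
(.lf (nat_lit 492999) (.g (nat_lit 1507) (.e (nat_lit 163874) (nat_lit 3) (.e (nat_lit 204813) (nat_lit 9) (.e (nat_lit 426197) (nat_lit 9) (.e (nat_lit 426568) (nat_lit 34) (.e (nat_lit 393253) (nat_lit 18) .nil))))) (.g (nat_lit 0) (.e (nat_lit 149366) (nat_lit 0) .nil) .nil))) 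
(.lf (nat_lit 493511) (.g (nat_lit 3083) (.e (nat_lit 163875) (nat_lit 3) (.e (nat_lit 204813) (nat_lit 9) (.e (nat_lit 426198) (nat_lit 9) (.e (nat_lit 426568) (nat_lit 34) (.e (nat_lit 393253) (nat_lit 18) (.e (nat_lit 164325) (nat_lit 230) .nil)))))) (.g (nat_lit 1) (.e (nat_lit 150281) (nat_lit 0) .nil) .nil))))))) (.nd (nat_lit 6) (.nd (nat_lit 7) (.nd (nat_lit 8) (.nd (nat_lit 9) 
(.lf (nat_lit 492583) (.g (nat_lit 7812) (.e (nat_lit 163873) (nat_lit 3) (.e (nat_lit 204813) (nat_lit 9) (.e (nat_lit 426189) (nat_lit 9) (.e (nat_lit 426566) (nat_lit 34) (.e (nat_lit 393253) (nat_lit 18) (.e (nat_lit 164322) (nat_lit 230) .nil)))))) (.g (nat_lit 1) (.e (nat_lit 148662) (nat_lit 0) .nil) .nil))) 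
(.lf (nat_lit 493095) (.g (nat_lit 4480) (.e (nat_lit 163874) (nat_lit 3) (.e (nat_lit 204837) (nat_lit 20) (.e (nat_lit 114718) (nat_lit 23) (.e (nat_lit 98367) (nat_lit 27) (.e (nat_lit 434231) (nat_lit 23) (.e (nat_lit 532499) (nat_lit 1) (.e (nat_lit 57692) (nat_lit 156) .nil))))))) (.g (nat_lit 1) (.e (nat_lit 149532) (nat_lit 0) .nil) .nil)))) (.nd (nat_lit 9) 
(.lf (nat_lit 492839) (.g (nat_lit 3009) (.e (nat_lit 163873) (nat_lit 3) (.e (nat_lit 204838) (nat_lit 20) (.e (nat_lit 114719) (nat_lit 23) (.e (nat_lit 98365) (nat_lit 26) (.e (nat_lit 426137) (nat_lit 3) (.e (nat_lit 204831) (nat_lit 18) (.e (nat_lit 57688) (nat_lit 156) .nil))))))) (.g (nat_lit 1) (.e (nat_lit 149117) (nat_lit 0) .nil) .nil))) 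
(.lf (nat_lit 493351) (.g (nat_lit 1755) (.e (nat_lit 163874) (nat_lit 3) (.e (nat_lit 204862) (nat_lit 27) (.e (nat_lit 344117) (nat_lit 21) (.e (nat_lit 516123) (nat_lit 2) (.e (nat_lit 213013) (nat_lit 9) .nil))))) (.g (nat_lit 0) (.e (nat_lit 149936) (nat_lit 0) .nil) .nil))))) (.nd (nat_lit 8) (.nd (nat_lit 9) 
(.lf (nat_lit 492711) (.g (nat_lit 4522) (.e (nat_lit 163873) (nat_lit 3) (.e (nat_lit 204813) (nat_lit 9) (.e (nat_lit 426199) (nat_lit 9) (.e (nat_lit 426566) (nat_lit 34) (.e (nat_lit 393251) (nat_lit 18) (.e (nat_lit 164327) (nat_lit 230) .nil)))))) (.g (nat_lit 1) (.e (nat_lit 148812) (nat_lit 0) .nil) .nil))) 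
(.lf (nat_lit 493223) (.g (nat_lit 1693) (.e (nat_lit 163874) (nat_lit 3) (.e (nat_lit 204838) (nat_lit 20) (.e (nat_lit 114719) (nat_lit 23) (.e (nat_lit 98366) (nat_lit 27) (.e (nat_lit 434232) (nat_lit 23) .nil))))) (.g (nat_lit 0) (.e (nat_lit 149660) (nat_lit 0) .nil) .nil)))) (.nd (nat_lit 9) 
(.lf (nat_lit 492967) (.g (nat_lit 2467) (.e (nat_lit 163874) (nat_lit 3) (.e (nat_lit 204811) (nat_lit 9) (.e (nat_lit 426262) (nat_lit 9) (.e (nat_lit 426565) (nat_lit 34) (.e (nat_lit 393253) (nat_lit 18) (.e (nat_lit 164332) (nat_lit 230) .nil)))))) (.g (nat_lit 1) (.e (nat_lit 149325) (nat_lit 0) .nil) .nil))) 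
(.lf (nat_lit 493479) (.g (nat_lit 2821) (.e (nat_lit 163875) (nat_lit 3) (.e (nat_lit 204812) (nat_lit 9) (.e (nat_lit 426190) (nat_lit 9) (.e (nat_lit 426566) (nat_lit 34) (.e (nat_lit 393253) (nat_lit 18) (.e (nat_lit 164325) (nat_lit 230) .nil)))))) (.g (nat_lit 1) (.e (nat_lit 150217) (nat_lit 0) .nil) .nil)))))) (.nd (nat_lit 7) (.nd (nat_lit 8) (.nd (nat_lit 9) 
(.lf (nat_lit 492647) (.g (nat_lit 3959) (.e (nat_lit 163873) (nat_lit 3) (.e (nat_lit 204813) (nat_lit 9) (.e (nat_lit 426198) (nat_lit 9) (.e (nat_lit 426509) (nat_lit 27) (.e (nat_lit 336412) (nat_lit 27) (.e (nat_lit 426098) (nat_lit 1) (.e (nat_lit 164327) (nat_lit 230) .nil))))))) (.g (nat_lit 1) (.e (nat_lit 148742) (nat_lit 0) .nil) .nil))) 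
(.lf (nat_lit 493159) (.g (nat_lit 4221) (.e (nat_lit 163874) (nat_lit 3) (.e (nat_lit 204838) (nat_lit 20) (.e (nat_lit 114714) (nat_lit 22) (.e (nat_lit 90174) (nat_lit 14) (.e (nat_lit 180243) (nat_lit 5) (.e (nat_lit 532501) (nat_lit 1) (.e (nat_lit 57691) (nat_lit 156) .nil))))))) (.g (nat_lit 1) (.e (nat_lit 149596) (nat_lit 0) .nil) .nil)))) (.nd (nat_lit 9) 
(.lf (nat_lit 492903) (.g (nat_lit 1263) (.e (nat_lit 163873) (nat_lit 3) (.e (nat_lit 204861) (nat_lit 26) (.e (nat_lit 336076) (nat_lit 9) (.e (nat_lit 336452) (nat_lit 34) .nil)))) (.g (nat_lit 0) (.e (nat_lit 149188) (nat_lit 0) .nil) .nil))) 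
(.lf (nat_lit 493415) (.g (nat_lit 2654) (.e (nat_lit 163874) (nat_lit 3) (.e (nat_lit 204864) (nat_lit 27) (.e (nat_lit 344130) (nat_lit 26) (.e (nat_lit 557104) (nat_lit 14) (.e (nat_lit 180244) (nat_lit 5) (.e (nat_lit 532499) (nat_lit 1) (.e (nat_lit 65280) (nat_lit 168) .nil))))))) (.g (nat_lit 1) (.e (nat_lit 150000) (nat_lit 0) .nil) .nil))))) (.nd (nat_lit 8) (.nd (nat_lit 9) 
(.lf (nat_lit 492775) (.g (nat_lit 3133) (.e (nat_lit 163873) (nat_lit 3) (.e (nat_lit 204813) (nat_lit 9) (.e (nat_lit 426200) (nat_lit 9) (.e (nat_lit 426568) (nat_lit 34) (.e (nat_lit 393253) (nat_lit 18) (.e (nat_lit 164330) (nat_lit 230) .nil)))))) (.g (nat_lit 1) (.e (nat_lit 148892) (nat_lit 0) .nil) .nil))) 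
(.lf (nat_lit 493287) (.g (nat_lit 4978) (.e (nat_lit 163874) (nat_lit 3) (.e (nat_lit 204854) (nat_lit 26) (.e (nat_lit 336019) (nat_lit 3) (.e (nat_lit 98342) (nat_lit 20) (.e (nat_lit 221215) (nat_lit 23) (.e (nat_lit 204831) (nat_lit 18) (.e (nat_lit 57931) (nat_lit 282) .nil))))))) (.g (nat_lit 1) (.e (nat_lit 149794) (nat_lit 0) .nil) .nil)))) (.nd (nat_lit 9) 
(.lf (nat_lit 493031) (.g (nat_lit 2265) (.e (nat_lit 163874) (nat_lit 3) (.e (nat_lit 204829) (nat_lit 18) (.e (nat_lit 57847) (nat_lit 252) (.e (nat_lit 57448) (nat_lit 19) (.e (nat_lit 393251) (nat_lit 18) .nil))))) (.g (nat_lit 0) (.e (nat_lit 149468) (nat_lit 0) .nil) .nil))) 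
(.lf (nat_lit 493543) (.g (nat_lit 4443) (.e (nat_lit 163875) (nat_lit 3) (.e (nat_lit 204829) (nat_lit 18) (.e (nat_lit 57847) (nat_lit 252) (.e (nat_lit 57410) (nat_lit 12) (.e (nat_lit 336019) (nat_lit 3) (.e (nat_lit 98356) (nat_lit 26) (.e (nat_lit 426422) (nat_lit 16) (.e (nat_lit 57692) (nat_lit 156) .nil)))))))) (.g (nat_lit 1) (.e (nat_lit 150385) (nat_lit 0) .nil) .nil)))))))) 
(.nd (nat_lit 5) (.nd (nat_lit 6) (.nd (nat_lit 7) (.nd (nat_lit 8) (.nd (nat_lit 9) 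
(.lf (nat_lit 492567) (.g (nat_lit 3691) (.e (nat_lit 163873) (nat_lit 3) (.e (nat_lit 204813) (nat_lit 9) (.e (nat_lit 426188) (nat_lit 9) (.e (nat_lit 426566) (nat_lit 34) (.e (nat_lit 393254) (nat_lit 18) (.e (nat_lit 164331) (nat_lit 230) .nil)))))) (.g (nat_lit 1) (.e (nat_lit 148645) (nat_lit 0) .nil) .nil))) 
(.lf (nat_lit 493079) (.g (nat_lit 2334) (.e (nat_lit 163874) (nat_lit 3) (.e (nat_lit 204837) (nat_lit 20) (.e (nat_lit 114715) (nat_lit 22) (.e (nat_lit 90174) (nat_lit 14) (.e (nat_lit 180243) (nat_lit 5) (.e (nat_lit 532504) (nat_lit 1) (.e (nat_lit 57690) (nat_lit 156) .nil))))))) (.g (nat_lit 1) (.e (nat_lit 149516) (nat_lit 0) .nil) .nil)))) (.nd (nat_lit 9) 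
(.lf (nat_lit 492823) (.g (nat_lit 2605) (.e (nat_lit 163873) (nat_lit 3) (.e (nat_lit 204838) (nat_lit 20) (.e (nat_lit 114718) (nat_lit 23) (.e (nat_lit 98356) (nat_lit 26) (.e (nat_lit 426438) (nat_lit 18) (.e (nat_lit 98334) (nat_lit 18) (.e (nat_lit 164330) (nat_lit 230) .nil))))))) (.g (nat_lit 1) (.e (nat_lit 149101) (nat_lit 0) .nil) .nil))) 
(.lf (nat_lit 493335) (.g (nat_lit 2408) (.e (nat_lit 163874) (nat_lit 3) (.e (nat_lit 204861) (nat_lit 26) (.e (nat_lit 336213) (nat_lit 13) (.e (nat_lit 393229) (nat_lit 9) (.e (nat_lit 335892) (nat_lit 0) .nil))))) (.g (nat_lit 0) (.e (nat_lit 149918) (nat_lit 0) .nil) .nil))))) (.nd (nat_lit 8) (.nd (nat_lit 9) 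
(.lf (nat_lit 492695) (.g (nat_lit 2792) (.e (nat_lit 163873) (nat_lit 3) (.e (nat_lit 204813) (nat_lit 9) (.e (nat_lit 426199) (nat_lit 9) (.e (nat_lit 426484) (nat_lit 27) (.e (nat_lit 336406) (nat_lit 27) (.e (nat_lit 426098) (nat_lit 1) (.e (nat_lit 164325) (nat_lit 230) .nil))))))) (.g (nat_lit 1) (.e (nat_lit 148796) (nat_lit 0) .nil) .nil))) 
(.lf (nat_lit 493207) (.g (nat_lit 2945) (.e (nat_lit 163874) (nat_lit 3) (.e (nat_lit 204838) (nat_lit 20) (.e (nat_lit 114718) (nat_lit 23) (.e (nat_lit 98367) (nat_lit 27) (.e (nat_lit 434231) (nat_lit 23) (.e (nat_lit 532502) (nat_lit 1) (.e (nat_lit 57692) (nat_lit 156) .nil))))))) (.g (nat_lit 1) (.e (nat_lit 149644) (nat_lit 0) .nil) .nil)))) (.nd (nat_lit 9) 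
(.lf (nat_lit 492951) (.g (nat_lit 3341) (.e (nat_lit 163874) (nat_lit 3) (.e (nat_lit 204809) (nat_lit 9) (.e (nat_lit 426198) (nat_lit 9) (.e (nat_lit 426566) (nat_lit 34) (.e (nat_lit 393253) (nat_lit 18) (.e (nat_lit 164332) (nat_lit 230) .nil)))))) (.g (nat_lit 1) (.e (nat_lit 149273) (nat_lit 0) .nil) .nil))) 
(.lf (nat_lit 493463) (.g (nat_lit 3507) (.e (nat_lit 163875) (nat_lit 3) (.e (nat_lit 204809) (nat_lit 9) (.e (nat_lit 426200) (nat_lit 9) (.e (nat_lit 426566) (nat_lit 34) (.e (nat_lit 393251) (nat_lit 18) (.e (nat_lit 164325) (nat_lit 230) .nil)))))) (.g (nat_lit 1) (.e (nat_lit 150155) (nat_lit 0) .nil) .nil)))))) (.nd (nat_lit 7) (.nd (nat_lit 8) (.nd (nat_lit 9) 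
(.lf (nat_lit 492631) (.g (nat_lit 3490) (.e (nat_lit 163873) (nat_lit 3) (.e (nat_lit 204813) (nat_lit 9) (.e (nat_lit 426197) (nat_lit 9) (.e (nat_lit 426568) (nat_lit 34) (.e (nat_lit 393251) (nat_lit 18) (.e (nat_lit 164332) (nat_lit 230) .nil)))))) (.g (nat_lit 1) (.e (nat_lit 148711) (nat_lit 0) .nil) .nil))) 
(.lf (nat_lit 493143) (.g (nat_lit 2578) (.e (nat_lit 163874) (nat_lit 3) (.e (nat_lit 204837) (nat_lit 20) (.e (nat_lit 114719) (nat_lit 23) (.e (nat_lit 98367) (nat_lit 27) (.e (nat_lit 434232) (nat_lit 23) (.e (nat_lit 532502) (nat_lit 1) (.e (nat_lit 57692) (nat_lit 156) .nil))))))) (.g (nat_lit 1) (.e (nat_lit 149580) (nat_lit 0) .nil) .nil)))) (.nd (nat_lit 9) 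
(.lf (nat_lit 492887) (.g (nat_lit 1448) (.e (nat_lit 163873) (nat_lit 3) (.e (nat_lit 204861) (nat_lit 26) (.e (nat_lit 336075) (nat_lit 9) (.e (nat_lit 336366) (nat_lit 27) (.e (nat_lit 426513) (nat_lit 27) .nil))))) (.g (nat_lit 0) (.e (nat_lit 149168) (nat_lit 0) .nil) .nil))) 
(.lf (nat_lit 493399) (.g (nat_lit 3433) (.e (nat_lit 163874) (nat_lit 3) (.e (nat_lit 204863) (nat_lit 27) (.e (nat_lit 344133) (nat_lit 26) (.e (nat_lit 557098) (nat_lit 13) (.e (nat_lit 179968) (nat_lit 18) (.e (nat_lit 98325) (nat_lit 17) (.e (nat_lit 2515) (nat_lit 157) (.e (nat_lit 5599) (nat_lit 310) .nil)))))))) (.g (nat_lit 1) (.e (nat_lit 149984) (nat_lit 0) .nil) .nil))))) 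
(.nd (nat_lit 8) (.nd (nat_lit 9) 
(.lf (nat_lit 492759) (.g (nat_lit 2359) (.e (nat_lit 163873) (nat_lit 3) (.e (nat_lit 204813) (nat_lit 9) (.e (nat_lit 426200) (nat_lit 9) (.e (nat_lit 426566) (nat_lit 34) (.e (nat_lit 393253) (nat_lit 18) (.e (nat_lit 164322) (nat_lit 230) .nil)))))) (.g (nat_lit 1) (.e (nat_lit 148873) (nat_lit 0) .nil) .nil))) 
(.lf (nat_lit 493271) (.g (nat_lit 2015) (.e (nat_lit 163874) (nat_lit 3) (.e (nat_lit 204854) (nat_lit 26) (.e (nat_lit 336019) (nat_lit 3) (.e (nat_lit 98342) (nat_lit 20) (.e (nat_lit 221196) (nat_lit 20) .nil))))) (.g (nat_lit 0) (.e (nat_lit 149777) (nat_lit 0) .nil) .nil)))) (.nd (nat_lit 9) 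
(.lf (nat_lit 493015) (.g (nat_lit 1976) (.e (nat_lit 163874) (nat_lit 3) (.e (nat_lit 204813) (nat_lit 9) (.e (nat_lit 426200) (nat_lit 9) (.e (nat_lit 426564) (nat_lit 34) (.e (nat_lit 393251) (nat_lit 18) (.e (nat_lit 164325) (nat_lit 230) .nil)))))) (.g (nat_lit 1) (.e (nat_lit 149383) (nat_lit 0) .nil) .nil))) 
(.lf (nat_lit 493527) (.g (nat_lit 1951) (.e (nat_lit 163875) (nat_lit 3) (.e (nat_lit 204813) (nat_lit 9) (.e (nat_lit 426200) (nat_lit 9) (.e (nat_lit 426484) (nat_lit 27) (.e (nat_lit 336406) (nat_lit 27) (.e (nat_lit 426098) (nat_lit 1) (.e (nat_lit 164327) (nat_lit 230) .nil))))))) (.g (nat_lit 1) (.e (nat_lit 150303) (nat_lit 0) .nil) .nil))))))) 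
(.nd (nat_lit 6) (.nd (nat_lit 7) (.nd (nat_lit 8) (.nd (nat_lit 9) 
(.lf (nat_lit 492599) (.g (nat_lit 3408) (.e (nat_lit 163873) (nat_lit 3) (.e (nat_lit 204813) (nat_lit 9) (.e (nat_lit 426190) (nat_lit 9) (.e (nat_lit 426566) (nat_lit 34) (.e (nat_lit 393252) (nat_lit 18) (.e (nat_lit 164330) (nat_lit 230) .nil)))))) (.g (nat_lit 1) (.e (nat_lit 148678) (nat_lit 0) .nil) .nil))) 
(.lf (nat_lit 493111) (.g (nat_lit 4447) (.e (nat_lit 163874) (nat_lit 3) (.e (nat_lit 204837) (nat_lit 20) (.e (nat_lit 114718) (nat_lit 23) (.e (nat_lit 98384) (nat_lit 32) (.e (nat_lit 475179) (nat_lit 24) (.e (nat_lit 516117) (nat_lit 1) (.e (nat_lit 164332) (nat_lit 230) .nil))))))) (.g (nat_lit 1) (.e (nat_lit 149548) (nat_lit 0) .nil) .nil)))) (.nd (nat_lit 9) 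
(.lf (nat_lit 492855) (.g (nat_lit 2526) (.e (nat_lit 163873) (nat_lit 3) (.e (nat_lit 204838) (nat_lit 20) (.e (nat_lit 114719) (nat_lit 23) (.e (nat_lit 98384) (nat_lit 32) (.e (nat_lit 475177) (nat_lit 24) (.e (nat_lit 516115) (nat_lit 1) (.e (nat_lit 164327) (nat_lit 230) .nil))))))) (.g (nat_lit 1) (.e (nat_lit 149133) (nat_lit 0) .nil) .nil))) 
(.lf (nat_lit 493367) (.g (nat_lit 2600) (.e (nat_lit 163874) (nat_lit 3) (.e (nat_lit 204863) (nat_lit 27) (.e (nat_lit 344117) (nat_lit 21) (.e (nat_lit 516123) (nat_lit 2) (.e (nat_lit 213033) (nat_lit 12) (.e (nat_lit 163964) (nat_lit 25) (.e (nat_lit 532499) (nat_lit 1) (.e (nat_lit 57927) (nat_lit 282) .nil)))))))) (.g (nat_lit 1) (.e (nat_lit 149952) (nat_lit 0) .nil) .nil))))) 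
(.nd (nat_lit 8) (.nd (nat_lit 9) 
(.lf (nat_lit 492727) (.g (nat_lit 3584) (.e (nat_lit 163873) (nat_lit 3) (.e (nat_lit 204813) (nat_lit 9) (.e (nat_lit 426199) (nat_lit 9) (.e (nat_lit 426568) (nat_lit 34) (.e (nat_lit 393252) (nat_lit 18) (.e (nat_lit 164332) (nat_lit 230) .nil)))))) (.g (nat_lit 1) (.e (nat_lit 148828) (nat_lit 0) .nil) .nil))) 
(.lf (nat_lit 493239) (.g (nat_lit 3589) (.e (nat_lit 163874) (nat_lit 3) (.e (nat_lit 204838) (nat_lit 20) (.e (nat_lit 114719) (nat_lit 23) (.e (nat_lit 98384) (nat_lit 32) (.e (nat_lit 475177) (nat_lit 24) (.e (nat_lit 516117) (nat_lit 1) (.e (nat_lit 164330) (nat_lit 230) .nil))))))) (.g (nat_lit 1) (.e (nat_lit 149676) (nat_lit 0) .nil) .nil)))) (.nd (nat_lit 9) 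
(.lf (nat_lit 492983) (.g (nat_lit 3422) (.e (nat_lit 163874) (nat_lit 3) (.e (nat_lit 204813) (nat_lit 9) (.e (nat_lit 426188) (nat_lit 9) (.e (nat_lit 426568) (nat_lit 34) (.e (nat_lit 393253) (nat_lit 18) (.e (nat_lit 164325) (nat_lit 230) .nil)))))) (.g (nat_lit 1) (.e (nat_lit 149350) (nat_lit 0) .nil) .nil))) 
(.lf (nat_lit 493495) (.g (nat_lit 3371) (.e (nat_lit 163875) (nat_lit 3) (.e (nat_lit 204813) (nat_lit 9) (.e (nat_lit 426190) (nat_lit 9) (.e (nat_lit 426566) (nat_lit 34) (.e (nat_lit 393253) (nat_lit 18) (.e (nat_lit 164324) (nat_lit 230) .nil)))))) (.g (nat_lit 1) (.e (nat_lit 150260) (nat_lit 0) .nil) .nil)))))) (.nd (nat_lit 7) (.nd (nat_lit 8) (.nd (nat_lit 9) 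
(.lf (nat_lit 492663) (.g (nat_lit 2015) (.e (nat_lit 163873) (nat_lit 3) (.e (nat_lit 204813) (nat_lit 9) (.e (nat_lit 426198) (nat_lit 9) (.e (nat_lit 426567) (nat_lit 34) (.e (nat_lit 393251) (nat_lit 18) (.e (nat_lit 164325) (nat_lit 230) .nil)))))) (.g (nat_lit 1) (.e (nat_lit 148758) (nat_lit 0) .nil) .nil))) 
(.lf (nat_lit 493175) (.g (nat_lit 3943) (.e (nat_lit 163874) (nat_lit 3) (.e (nat_lit 204838) (nat_lit 20) (.e (nat_lit 114715) (nat_lit 22) (.e (nat_lit 90170) (nat_lit 13) (.e (nat_lit 172065) (nat_lit 3) (.e (nat_lit 204831) (nat_lit 18) (.e (nat_lit 57692) (nat_lit 156) .nil))))))) (.g (nat_lit 1) (.e (nat_lit 149612) (nat_lit 0) .nil) .nil)))) (.nd (nat_lit 9) 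
(.lf (nat_lit 492919) (.g (nat_lit 2430) (.e (nat_lit 163873) (nat_lit 3) (.e (nat_lit 204861) (nat_lit 26) (.e (nat_lit 336213) (nat_lit 13) (.e (nat_lit 393229) (nat_lit 9) (.e (nat_lit 336033) (nat_lit 4) (.e (nat_lit 123228) (nat_lit 282) .nil)))))) (.g (nat_lit 1) (.e (nat_lit 149208) (nat_lit 0) .nil) .nil))) 
(.lf (nat_lit 493431) (.g (nat_lit 2307) (.e (nat_lit 163874) (nat_lit 3) (.e (nat_lit 204873) (nat_lit 30) (.e (nat_lit 368676) (nat_lit 21) (.e (nat_lit 516129) (nat_lit 3) (.e (nat_lit 221215) (nat_lit 23) (.e (nat_lit 204830) (nat_lit 18) (.e (nat_lit 57929) (nat_lit 282) .nil))))))) (.g (nat_lit 1) (.e (nat_lit 150077) (nat_lit 0) .nil) .nil))))) (.nd (nat_lit 8) (.nd (nat_lit 9) 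
(.lf (nat_lit 492791) (.g (nat_lit 4769) (.e (nat_lit 163873) (nat_lit 3) (.e (nat_lit 204837) (nat_lit 20) (.e (nat_lit 114715) (nat_lit 22) (.e (nat_lit 90170) (nat_lit 13) (.e (nat_lit 172065) (nat_lit 3) (.e (nat_lit 204829) (nat_lit 18) (.e (nat_lit 57688) (nat_lit 156) .nil))))))) (.g (nat_lit 1) (.e (nat_lit 149069) (nat_lit 0) .nil) .nil))) 
(.lf (nat_lit 493303) (.g (nat_lit 2851) (.e (nat_lit 163874) (nat_lit 3) (.e (nat_lit 204861) (nat_lit 26) (.e (nat_lit 336075) (nat_lit 9) (.e (nat_lit 336454) (nat_lit 34) (.e (nat_lit 483363) (nat_lit 18) (.e (nat_lit 57930) (nat_lit 282) .nil)))))) (.g (nat_lit 1) (.e (nat_lit 149858) (nat_lit 0) .nil) .nil)))) (.nd (nat_lit 9) 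
(.lf (nat_lit 493047) (.g (nat_lit 4688) (.e (nat_lit 163874) (nat_lit 3) (.e (nat_lit 204837) (nat_lit 20) (.e (nat_lit 114714) (nat_lit 22) (.e (nat_lit 90174) (nat_lit 14) (.e (nat_lit 180243) (nat_lit 5) (.e (nat_lit 532499) (nat_lit 1) (.e (nat_lit 57691) (nat_lit 156) .nil))))))) (.g (nat_lit 1) (.e (nat_lit 149484) (nat_lit 0) .nil) .nil))) 
(.lf (nat_lit 493559) (.g (nat_lit 3023) (.e (nat_lit 163875) (nat_lit 3) (.e (nat_lit 204829) (nat_lit 18) (.e (nat_lit 57927) (nat_lit 282) (.e (nat_lit 164084) (nat_lit 73) (.e (nat_lit 336027) (nat_lit 3) (.e (nat_lit 98376) (nat_lit 30) (.e (nat_lit 458774) (nat_lit 18) (.e (nat_lit 5224) (nat_lit 296) .nil)))))))) (.g (nat_lit 1) (.e (nat_lit 150401) (nat_lit 0) .nil) .nil))))))))) 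
(.nd (nat_lit 4) (.nd (nat_lit 5) (.nd (nat_lit 6) (.nd (nat_lit 7) (.nd (nat_lit 8) 
(.nd (nat_lit 9) 
(.lf (nat_lit 492559) (.g (nat_lit 2300) (.e (nat_lit 163873) (nat_lit 3) (.e (nat_lit 204813) (nat_lit 9) (.e (nat_lit 426188) (nat_lit 9) (.e (nat_lit 426566) (nat_lit 34) (.e (nat_lit 393250) (nat_lit 18) (.e (nat_lit 164327) (nat_lit 230) .nil)))))) (.g (nat_lit 1) (.e (nat_lit 148637) (nat_lit 0) .nil) .nil))) 
(.lf (nat_lit 493071) (.g (nat_lit 3872) (.e (nat_lit 163874) (nat_lit 3) (.e (nat_lit 204837) (nat_lit 20) (.e (nat_lit 114715) (nat_lit 22) (.e (nat_lit 90170) (nat_lit 13) (.e (nat_lit 172067) (nat_lit 3) (.e (nat_lit 204829) (nat_lit 18) (.e (nat_lit 57691) (nat_lit 156) .nil))))))) (.g (nat_lit 1) (.e (nat_lit 149508) (nat_lit 0) .nil) .nil)))) (.nd (nat_lit 9) 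
(.lf (nat_lit 492815) (.g (nat_lit 3191) (.e (nat_lit 163873) (nat_lit 3) (.e (nat_lit 204838) (nat_lit 20) (.e (nat_lit 114715) (nat_lit 22) (.e (nat_lit 90170) (nat_lit 13) (.e (nat_lit 172066) (nat_lit 3) (.e (nat_lit 204829) (nat_lit 18) (.e (nat_lit 57688) (nat_lit 156) .nil))))))) (.g (nat_lit 1) (.e (nat_lit 149093) (nat_lit 0) .nil) .nil))) 
(.lf (nat_lit 493327) (.g (nat_lit 2406) (.e (nat_lit 163874) (nat_lit 3) (.e (nat_lit 204861) (nat_lit 26) (.e (nat_lit 336078) (nat_lit 9) (.e (nat_lit 336454) (nat_lit 34) (.e (nat_lit 483363) (nat_lit 18) (.e (nat_lit 57927) (nat_lit 282) .nil)))))) (.g (nat_lit 1) (.e (nat_lit 149903) (nat_lit 0) .nil) .nil))))) (.nd (nat_lit 8) (.nd (nat_lit 9) 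
(.lf (nat_lit 492687) (.g (nat_lit 3026) (.e (nat_lit 163873) (nat_lit 3) (.e (nat_lit 204813) (nat_lit 9) (.e (nat_lit 426199) (nat_lit 9) (.e (nat_lit 426480) (nat_lit 27) (.e (nat_lit 336388) (nat_lit 27) (.e (nat_lit 426108) (nat_lit 1) (.e (nat_lit 164331) (nat_lit 230) .nil))))))) (.g (nat_lit 1) (.e (nat_lit 148782) (nat_lit 0) .nil) .nil))) 
(.lf (nat_lit 493199) (.g (nat_lit 2655) (.e (nat_lit 163874) (nat_lit 3) (.e (nat_lit 204838) (nat_lit 20) (.e (nat_lit 114718) (nat_lit 23) (.e (nat_lit 98356) (nat_lit 26) (.e (nat_lit 426436) (nat_lit 18) (.e (nat_lit 98334) (nat_lit 18) (.e (nat_lit 164330) (nat_lit 230) .nil))))))) (.g (nat_lit 1) (.e (nat_lit 149636) (nat_lit 0) .nil) .nil)))) (.nd (nat_lit 9) 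
(.lf (nat_lit 492943) (.g (nat_lit 3745) (.e (nat_lit 163874) (nat_lit 3) (.e (nat_lit 204809) (nat_lit 9) (.e (nat_lit 426189) (nat_lit 9) (.e (nat_lit 426566) (nat_lit 34) (.e (nat_lit 393253) (nat_lit 18) (.e (nat_lit 164332) (nat_lit 230) .nil)))))) (.g (nat_lit 1) (.e (nat_lit 149265) (nat_lit 0) .nil) .nil))) 
(.lf (nat_lit 493455) (.g (nat_lit 3086) (.e (nat_lit 163875) (nat_lit 3) (.e (nat_lit 204809) (nat_lit 9) (.e (nat_lit 426189) (nat_lit 9) (.e (nat_lit 426566) (nat_lit 34) (.e (nat_lit 393251) (nat_lit 18) (.e (nat_lit 164325) (nat_lit 230) .nil)))))) (.g (nat_lit 1) (.e (nat_lit 150147) (nat_lit 0) .nil) .nil)))))) (.nd (nat_lit 7) (.nd (nat_lit 8) (.nd (nat_lit 9) 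
(.lf (nat_lit 492623) (.g (nat_lit 4319) (.e (nat_lit 163873) (nat_lit 3) (.e (nat_lit 204813) (nat_lit 9) (.e (nat_lit 426197) (nat_lit 9) (.e (nat_lit 426566) (nat_lit 34) (.e (nat_lit 393253) (nat_lit 18) (.e (nat_lit 164326) (nat_lit 230) .nil)))))) (.g (nat_lit 1) (.e (nat_lit 148703) (nat_lit 0) .nil) .nil))) 
(.lf (nat_lit 493135) (.g (nat_lit 2989) (.e (nat_lit 163874) (nat_lit 3) (.e (nat_lit 204837) (nat_lit 20) (.e (nat_lit 114719) (nat_lit 23) (.e (nat_lit 98367) (nat_lit 27) (.e (nat_lit 434231) (nat_lit 23) (.e (nat_lit 532500) (nat_lit 1) (.e (nat_lit 57685) (nat_lit 156) .nil))))))) (.g (nat_lit 1) (.e (nat_lit 149572) (nat_lit 0) .nil) .nil)))) (.nd (nat_lit 9) 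
(.lf (nat_lit 492879) (.g (nat_lit 3574) (.e (nat_lit 163873) (nat_lit 3) (.e (nat_lit 204854) (nat_lit 26) (.e (nat_lit 336019) (nat_lit 3) (.e (nat_lit 98342) (nat_lit 20) (.e (nat_lit 221215) (nat_lit 23) (.e (nat_lit 204830) (nat_lit 18) (.e (nat_lit 57927) (nat_lit 282) .nil))))))) (.g (nat_lit 1) (.e (nat_lit 149160) (nat_lit 0) .nil) .nil))) 
(.lf (nat_lit 493391) (.g (nat_lit 2401) (.e (nat_lit 163874) (nat_lit 3) (.e (nat_lit 204863) (nat_lit 27) (.e (nat_lit 344131) (nat_lit 26) (.e (nat_lit 557098) (nat_lit 13) (.e (nat_lit 179968) (nat_lit 18) .nil))))) (.g (nat_lit 0) (.e (nat_lit 149976) (nat_lit 0) .nil) .nil))))) (.nd (nat_lit 8) (.nd (nat_lit 9) 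
(.lf (nat_lit 492751) (.g (nat_lit 1991) (.e (nat_lit 163873) (nat_lit 3) (.e (nat_lit 204813) (nat_lit 9) (.e (nat_lit 426200) (nat_lit 9) (.e (nat_lit 426484) (nat_lit 27) (.e (nat_lit 336409) (nat_lit 27) (.e (nat_lit 426098) (nat_lit 1) (.e (nat_lit 164327) (nat_lit 230) .nil))))))) (.g (nat_lit 1) (.e (nat_lit 148858) (nat_lit 0) .nil) .nil))) 
(.lf (nat_lit 493263) (.g (nat_lit 1659) (.e (nat_lit 163874) (nat_lit 3) (.e (nat_lit 204854) (nat_lit 26) (.e (nat_lit 336019) (nat_lit 3) (.e (nat_lit 98341) (nat_lit 20) (.e (nat_lit 221196) (nat_lit 20) .nil))))) (.g (nat_lit 0) (.e (nat_lit 149769) (nat_lit 0) .nil) .nil)))) (.nd (nat_lit 9) 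
(.lf (nat_lit 493007) (.g (nat_lit 2589) (.e (nat_lit 163874) (nat_lit 3) (.e (nat_lit 204813) (nat_lit 9) (.e (nat_lit 426198) (nat_lit 9) (.e (nat_lit 426568) (nat_lit 34) (.e (nat_lit 393252) (nat_lit 18) (.e (nat_lit 164332) (nat_lit 230) .nil)))))) (.g (nat_lit 1) (.e (nat_lit 149375) (nat_lit 0) .nil) .nil))) 
(.lf (nat_lit 493519) (.g (nat_lit 1979) (.e (nat_lit 163875) (nat_lit 3) (.e (nat_lit 204813) (nat_lit 9) (.e (nat_lit 426199) (nat_lit 9) (.e (nat_lit 426567) (nat_lit 34) (.e (nat_lit 393251) (nat_lit 18) (.e (nat_lit 164327) (nat_lit 230) .nil)))))) (.g (nat_lit 1) (.e (nat_lit 150289) (nat_lit 0) .nil) .nil))))))) (.nd (nat_lit 6) (.nd (nat_lit 7) (.nd (nat_lit 8) (.nd (nat_lit 9) 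
(.lf (nat_lit 492591) (.g (nat_lit 6125) (.e (nat_lit 163873) (nat_lit 3) (.e (nat_lit 204813) (nat_lit 9) (.e (nat_lit 426189) (nat_lit 9) (.e (nat_lit 426566) (nat_lit 34) (.e (nat_lit 393254) (nat_lit 18) (.e (nat_lit 164326) (nat_lit 230) .nil)))))) (.g (nat_lit 1) (.e (nat_lit 148670) (nat_lit 0) .nil) .nil))) 
(.lf (nat_lit 493103) (.g (nat_lit 2832) (.e (nat_lit 163874) (nat_lit 3) (.e (nat_lit 204837) (nat_lit 20) (.e (nat_lit 114718) (nat_lit 23) (.e (nat_lit 98367) (nat_lit 27) (.e (nat_lit 434232) (nat_lit 23) (.e (nat_lit 532504) (nat_lit 1) (.e (nat_lit 57690) (nat_lit 156) .nil))))))) (.g (nat_lit 1) (.e (nat_lit 149540) (nat_lit 0) .nil) .nil)))) (.nd (nat_lit 9) 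
(.lf (nat_lit 492847) (.g (nat_lit 2467) (.e (nat_lit 163873) (nat_lit 3) (.e (nat_lit 204838) (nat_lit 20) (.e (nat_lit 114719) (nat_lit 23) (.e (nat_lit 98367) (nat_lit 27) (.e (nat_lit 434231) (nat_lit 23) (.e (nat_lit 532499) (nat_lit 1) (.e (nat_lit 57686) (nat_lit 156) .nil))))))) (.g (nat_lit 1) (.e (nat_lit 149125) (nat_lit 0) .nil) .nil))) 
(.lf (nat_lit 493359) (.g (nat_lit 980) (.e (nat_lit 163874) (nat_lit 3) (.e (nat_lit 204863) (nat_lit 27) (.e (nat_lit 344115) (nat_lit 20) .nil))) (.g (nat_lit 0) (.e (nat_lit 149944) (nat_lit 0) .nil) .nil))))) (.nd (nat_lit 8) (.nd (nat_lit 9) 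
(.lf (nat_lit 492719) (.g (nat_lit 3725) (.e (nat_lit 163873) (nat_lit 3) (.e (nat_lit 204813) (nat_lit 9) (.e (nat_lit 426199) (nat_lit 9) (.e (nat_lit 426566) (nat_lit 34) (.e (nat_lit 393254) (nat_lit 18) (.e (nat_lit 164326) (nat_lit 230) .nil)))))) (.g (nat_lit 1) (.e (nat_lit 148820) (nat_lit 0) .nil) .nil))) 
(.lf (nat_lit 493231) (.g (nat_lit 2251) (.e (nat_lit 163874) (nat_lit 3) (.e (nat_lit 204838) (nat_lit 20) (.e (nat_lit 114719) (nat_lit 23) (.e (nat_lit 98367) (nat_lit 27) (.e (nat_lit 434232) (nat_lit 23) (.e (nat_lit 532502) (nat_lit 1) (.e (nat_lit 57692) (nat_lit 156) .nil))))))) (.g (nat_lit 1) (.e (nat_lit 149668) (nat_lit 0) .nil) .nil)))) (.nd (nat_lit 9) 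
(.lf (nat_lit 492975) (.g (nat_lit 3398) (.e (nat_lit 163874) (nat_lit 3) (.e (nat_lit 204813) (nat_lit 9) (.e (nat_lit 426188) (nat_lit 9) (.e (nat_lit 426566) (nat_lit 34) (.e (nat_lit 393252) (nat_lit 18) (.e (nat_lit 164330) (nat_lit 230) .nil)))))) (.g (nat_lit 1) (.e (nat_lit 149342) (nat_lit 0) .nil) .nil))) 
(.lf (nat_lit 493487) (.g (nat_lit 2359) (.e (nat_lit 163875) (nat_lit 3) (.e (nat_lit 204813) (nat_lit 9) (.e (nat_lit 426188) (nat_lit 9) (.e (nat_lit 426566) (nat_lit 34) (.e (nat_lit 393253) (nat_lit 18) (.e (nat_lit 164322) (nat_lit 230) .nil)))))) (.g (nat_lit 1) (.e (nat_lit 150250) (nat_lit 0) .nil) .nil)))))) (.nd (nat_lit 7) (.nd (nat_lit 8) (.nd (nat_lit 9) 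
(.lf (nat_lit 492655) (.g (nat_lit 4128) (.e (nat_lit 163873) (nat_lit 3) (.e (nat_lit 204813) (nat_lit 9) (.e (nat_lit 426198) (nat_lit 9) (.e (nat_lit 426566) (nat_lit 34) (.e (nat_lit 393253) (nat_lit 18) (.e (nat_lit 164324) (nat_lit 230) .nil)))))) (.g (nat_lit 1) (.e (nat_lit 148750) (nat_lit 0) .nil) .nil))) 
(.lf (nat_lit 493167) (.g (nat_lit 4690) (.e (nat_lit 163874) (nat_lit 3) (.e (nat_lit 204838) (nat_lit 20) (.e (nat_lit 114714) (nat_lit 22) (.e (nat_lit 90174) (nat_lit 14) (.e (nat_lit 180243) (nat_lit 5) (.e (nat_lit 532504) (nat_lit 1) (.e (nat_lit 57691) (nat_lit 156) .nil))))))) (.g (nat_lit 1) (.e (nat_lit 149604) (nat_lit 0) .nil) .nil)))) (.nd (nat_lit 9) 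
(.lf (nat_lit 492911) (.g (nat_lit 3457) (.e (nat_lit 163873) (nat_lit 3) (.e (nat_lit 204861) (nat_lit 26) (.e (nat_lit 336076) (nat_lit 9) (.e (nat_lit 336454) (nat_lit 34) (.e (nat_lit 483365) (nat_lit 18) (.e (nat_lit 57930) (nat_lit 282) .nil)))))) (.g (nat_lit 1) (.e (nat_lit 149198) (nat_lit 0) .nil) .nil))) 
(.lf (nat_lit 493423) (.g (nat_lit 3094) (.e (nat_lit 163874) (nat_lit 3) (.e (nat_lit 204865) (nat_lit 28) (.e (nat_lit 352277) (nat_lit 11) (.e (nat_lit 426500) (nat_lit 27) (.e (nat_lit 335986) (nat_lit 1) (.e (nat_lit 57926) (nat_lit 282) .nil)))))) (.g (nat_lit 1) (.e (nat_lit 150008) (nat_lit 0) .nil) .nil))))) (.nd (nat_lit 8) (.nd (nat_lit 9) 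
(.lf (nat_lit 492783) (.g (nat_lit 3942) (.e (nat_lit 163873) (nat_lit 3) (.e (nat_lit 204813) (nat_lit 9) (.e (nat_lit 433920) (nat_lit 9) (.e (nat_lit 426566) (nat_lit 34) (.e (nat_lit 393253) (nat_lit 18) (.e (nat_lit 164332) (nat_lit 230) .nil)))))) (.g (nat_lit 1) (.e (nat_lit 148902) (nat_lit 0) .nil) .nil))) 
(.lf (nat_lit 493295) (.g (nat_lit 2152) (.e (nat_lit 163874) (nat_lit 3) (.e (nat_lit 204859) (nat_lit 26) (.e (nat_lit 336017) (nat_lit 3) (.e (nat_lit 98342) (nat_lit 20) (.e (nat_lit 221198) (nat_lit 20) .nil))))) (.g (nat_lit 0) (.e (nat_lit 149802) (nat_lit 0) .nil) .nil)))) (.nd (nat_lit 9) 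
(.lf (nat_lit 493039) (.g (nat_lit 2435) (.e (nat_lit 163874) (nat_lit 3) (.e (nat_lit 204836) (nat_lit 20) (.e (nat_lit 114718) (nat_lit 23) (.e (nat_lit 98367) (nat_lit 27) (.e (nat_lit 434232) (nat_lit 23) (.e (nat_lit 532499) (nat_lit 1) (.e (nat_lit 57692) (nat_lit 156) .nil))))))) (.g (nat_lit 1) (.e (nat_lit 149476) (nat_lit 0) .nil) .nil))) 
(.lf (nat_lit 493551) (.g (nat_lit 3741) (.e (nat_lit 163875) (nat_lit 3) (.e (nat_lit 204829) (nat_lit 18) (.e (nat_lit 57847) (nat_lit 252) (.e (nat_lit 57432) (nat_lit 16) (.e (nat_lit 368676) (nat_lit 21) (.e (nat_lit 516146) (nat_lit 9) (.e (nat_lit 426422) (nat_lit 16) (.e (nat_lit 57686) (nat_lit 156) .nil)))))))) (.g (nat_lit 1) (.e (nat_lit 150393) (nat_lit 0) .nil) .nil)))))))) 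
(.nd (nat_lit 5) (.nd (nat_lit 6) (.nd (nat_lit 7) (.nd (nat_lit 8) (.nd (nat_lit 9) 
(.lf (nat_lit 492575) (.g (nat_lit 3855) (.e (nat_lit 163873) (nat_lit 3) (.e (nat_lit 204813) (nat_lit 9) (.e (nat_lit 426188) (nat_lit 9) (.e (nat_lit 426568) (nat_lit 34) (.e (nat_lit 393253) (nat_lit 18) (.e (nat_lit 164324) (nat_lit 230) .nil)))))) (.g (nat_lit 1) (.e (nat_lit 148654) (nat_lit 0) .nil) .nil))) 
(.lf (nat_lit 493087) (.g (nat_lit 3012) (.e (nat_lit 163874) (nat_lit 3) (.e (nat_lit 204837) (nat_lit 20) (.e (nat_lit 114716) (nat_lit 22) (.e (nat_lit 90174) (nat_lit 14) (.e (nat_lit 180243) (nat_lit 5) (.e (nat_lit 532503) (nat_lit 1) (.e (nat_lit 57685) (nat_lit 156) .nil))))))) (.g (nat_lit 1) (.e (nat_lit 149524) (nat_lit 0) .nil) .nil)))) (.nd (nat_lit 9) 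
(.lf (nat_lit 492831) (.g (nat_lit 3553) (.e (nat_lit 163873) (nat_lit 3) (.e (nat_lit 204838) (nat_lit 20) (.e (nat_lit 114718) (nat_lit 23) (.e (nat_lit 98367) (nat_lit 27) (.e (nat_lit 434232) (nat_lit 23) (.e (nat_lit 532503) (nat_lit 1) (.e (nat_lit 57688) (nat_lit 156) .nil))))))) (.g (nat_lit 1) (.e (nat_lit 149109) (nat_lit 0) .nil) .nil))) 
(.lf (nat_lit 493343) (.g (nat_lit 2860) (.e (nat_lit 163874) (nat_lit 3) (.e (nat_lit 204861) (nat_lit 26) (.e (nat_lit 336222) (nat_lit 13) (.e (nat_lit 393229) (nat_lit 9) (.e (nat_lit 335996) (nat_lit 1) (.e (nat_lit 57931) (nat_lit 282) .nil)))))) (.g (nat_lit 1) (.e (nat_lit 149928) (nat_lit 0) .nil) .nil))))) (.nd (nat_lit 8) (.nd (nat_lit 9) 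
(.lf (nat_lit 492703) (.g (nat_lit 3232) (.e (nat_lit 163873) (nat_lit 3) (.e (nat_lit 204813) (nat_lit 9) (.e (nat_lit 426199) (nat_lit 9) (.e (nat_lit 426509) (nat_lit 27) (.e (nat_lit 336389) (nat_lit 27) (.e (nat_lit 426098) (nat_lit 1) (.e (nat_lit 164327) (nat_lit 230) .nil))))))) (.g (nat_lit 1) (.e (nat_lit 148804) (nat_lit 0) .nil) .nil))) 
(.lf (nat_lit 493215) (.g (nat_lit 1159) (.e (nat_lit 163874) (nat_lit 3) (.e (nat_lit 204838) (nat_lit 20) (.e (nat_lit 114719) (nat_lit 23) (.e (nat_lit 98354) (nat_lit 26) .nil)))) (.g (nat_lit 0) (.e (nat_lit 149652) (nat_lit 0) .nil) .nil)))) (.nd (nat_lit 9) 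
(.lf (nat_lit 492959) (.g (nat_lit 2828) (.e (nat_lit 163874) (nat_lit 3) (.e (nat_lit 204809) (nat_lit 9) (.e (nat_lit 426200) (nat_lit 9) (.e (nat_lit 426568) (nat_lit 34) (.e (nat_lit 393252) (nat_lit 18) (.e (nat_lit 164330) (nat_lit 230) .nil)))))) (.g (nat_lit 1) (.e (nat_lit 149281) (nat_lit 0) .nil) .nil))) 
(.lf (nat_lit 493471) (.g (nat_lit 1619) (.e (nat_lit 163875) (nat_lit 3) (.e (nat_lit 204811) (nat_lit 9) (.e (nat_lit 426230) (nat_lit 9) (.e (nat_lit 426565) (nat_lit 34) (.e (nat_lit 393254) (nat_lit 18) (.e (nat_lit 164325) (nat_lit 230) .nil)))))) (.g (nat_lit 1) (.e (nat_lit 150209) (nat_lit 0) .nil) .nil)))))) (.nd (nat_lit 7) (.nd (nat_lit 8) (.nd (nat_lit 9) 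
(.lf (nat_lit 492639) (.g (nat_lit 3346) (.e (nat_lit 163873) (nat_lit 3) (.e (nat_lit 204813) (nat_lit 9) (.e (nat_lit 426197) (nat_lit 9) (.e (nat_lit 426568) (nat_lit 34) (.e (nat_lit 393253) (nat_lit 18) (.e (nat_lit 164330) (nat_lit 230) .nil)))))) (.g (nat_lit 1) (.e (nat_lit 148719) (nat_lit 0) .nil) .nil))) 
(.lf (nat_lit 493151) (.g (nat_lit 3382) (.e (nat_lit 163874) (nat_lit 3) (.e (nat_lit 204837) (nat_lit 20) (.e (nat_lit 114719) (nat_lit 23) (.e (nat_lit 98367) (nat_lit 27) (.e (nat_lit 434234) (nat_lit 23) (.e (nat_lit 532503) (nat_lit 1) (.e (nat_lit 57688) (nat_lit 156) .nil))))))) (.g (nat_lit 1) (.e (nat_lit 149588) (nat_lit 0) .nil) .nil)))) (.nd (nat_lit 9) 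
(.lf (nat_lit 492895) (.g (nat_lit 1229) (.e (nat_lit 163873) (nat_lit 3) (.e (nat_lit 204861) (nat_lit 26) (.e (nat_lit 336076) (nat_lit 9) (.e (nat_lit 336367) (nat_lit 27) .nil)))) (.g (nat_lit 0) (.e (nat_lit 149180) (nat_lit 0) .nil) .nil))) 
(.lf (nat_lit 493407) (.g (nat_lit 1760) (.e (nat_lit 163874) (nat_lit 3) (.e (nat_lit 204864) (nat_lit 27) (.e (nat_lit 344130) (nat_lit 26) (.e (nat_lit 557097) (nat_lit 13) (.e (nat_lit 179968) (nat_lit 18) .nil))))) (.g (nat_lit 0) (.e (nat_lit 149992) (nat_lit 0) .nil) .nil))))) (.nd (nat_lit 8) (.nd (nat_lit 9) 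
(.lf (nat_lit 492767) (.g (nat_lit 3647) (.e (nat_lit 163873) (nat_lit 3) (.e (nat_lit 204813) (nat_lit 9) (.e (nat_lit 426200) (nat_lit 9) (.e (nat_lit 426568) (nat_lit 34) (.e (nat_lit 393251) (nat_lit 18) (.e (nat_lit 164331) (nat_lit 230) .nil)))))) (.g (nat_lit 1) (.e (nat_lit 148884) (nat_lit 0) .nil) .nil))) 
(.lf (nat_lit 493279) (.g (nat_lit 4565) (.e (nat_lit 163874) (nat_lit 3) (.e (nat_lit 204854) (nat_lit 26) (.e (nat_lit 336019) (nat_lit 3) (.e (nat_lit 98342) (nat_lit 20) (.e (nat_lit 221214) (nat_lit 23) (.e (nat_lit 204830) (nat_lit 18) (.e (nat_lit 57927) (nat_lit 282) .nil))))))) (.g (nat_lit 1) (.e (nat_lit 149785) (nat_lit 0) .nil) .nil)))) (.nd (nat_lit 9) 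
(.lf (nat_lit 493023) (.g (nat_lit 3142) (.e (nat_lit 163874) (nat_lit 3) (.e (nat_lit 204813) (nat_lit 9) (.e (nat_lit 426200) (nat_lit 9) (.e (nat_lit 426566) (nat_lit 34) (.e (nat_lit 393254) (nat_lit 18) (.e (nat_lit 164325) (nat_lit 230) .nil)))))) (.g (nat_lit 1) (.e (nat_lit 149391) (nat_lit 0) .nil) .nil))) 
(.lf (nat_lit 493535) (.g (nat_lit 2325) (.e (nat_lit 163875) (nat_lit 3) (.e (nat_lit 204813) (nat_lit 9) (.e (nat_lit 426200) (nat_lit 9) (.e (nat_lit 426566) (nat_lit 34) (.e (nat_lit 393254) (nat_lit 18) (.e (nat_lit 164322) (nat_lit 230) .nil)))))) (.g (nat_lit 1) (.e (nat_lit 150312) (nat_lit 0) .nil) .nil))))))) (.nd (nat_lit 6) (.nd (nat_lit 7) (.nd (nat_lit 8) (.nd (nat_lit 9) 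
(.lf (nat_lit 492607) (.g (nat_lit 5025) (.e (nat_lit 163873) (nat_lit 3) (.e (nat_lit 204813) (nat_lit 9) (.e (nat_lit 426196) (nat_lit 9) (.e (nat_lit 426566) (nat_lit 34) (.e (nat_lit 393253) (nat_lit 18) (.e (nat_lit 164325) (nat_lit 230) .nil)))))) (.g (nat_lit 1) (.e (nat_lit 148686) (nat_lit 0) .nil) .nil))) 
(.lf (nat_lit 493119) (.g (nat_lit 2068) (.e (nat_lit 163874) (nat_lit 3) (.e (nat_lit 204837) (nat_lit 20) (.e (nat_lit 114719) (nat_lit 23) (.e (nat_lit 98363) (nat_lit 26) (.e (nat_lit 426129) (nat_lit 3) .nil))))) (.g (nat_lit 0) (.e (nat_lit 149556) (nat_lit 0) .nil) .nil)))) (.nd (nat_lit 9) 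
(.lf (nat_lit 492863) (.g (nat_lit 3716) (.e (nat_lit 163873) (nat_lit 3) (.e (nat_lit 204853) (nat_lit 26) (.e (nat_lit 336019) (nat_lit 3) (.e (nat_lit 98341) (nat_lit 20) (.e (nat_lit 221214) (nat_lit 23) (.e (nat_lit 204830) (nat_lit 18) (.e (nat_lit 57927) (nat_lit 282) .nil))))))) (.g (nat_lit 1) (.e (nat_lit 149144) (nat_lit 0) .nil) .nil))) 
(.lf (nat_lit 493375) (.g (nat_lit 2548) (.e (nat_lit 163874) (nat_lit 3) (.e (nat_lit 204863) (nat_lit 27) (.e (nat_lit 344117) (nat_lit 21) (.e (nat_lit 516195) (nat_lit 26) (.e (nat_lit 336012) (nat_lit 2) .nil))))) (.g (nat_lit 0) (.e (nat_lit 149960) (nat_lit 0) .nil) .nil))))) (.nd (nat_lit 8) (.nd (nat_lit 9) 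
(.lf (nat_lit 492735) (.g (nat_lit 4125) (.e (nat_lit 163873) (nat_lit 3) (.e (nat_lit 204813) (nat_lit 9) (.e (nat_lit 426199) (nat_lit 9) (.e (nat_lit 426568) (nat_lit 34) (.e (nat_lit 393253) (nat_lit 18) (.e (nat_lit 164332) (nat_lit 230) .nil)))))) (.g (nat_lit 1) (.e (nat_lit 148836) (nat_lit 0) .nil) .nil))) 
(.lf (nat_lit 493247) (.g (nat_lit 2600) (.e (nat_lit 163874) (nat_lit 3) (.e (nat_lit 204851) (nat_lit 26) (.e (nat_lit 336019) (nat_lit 3) (.e (nat_lit 98341) (nat_lit 20) (.e (nat_lit 221215) (nat_lit 23) (.e (nat_lit 204830) (nat_lit 18) (.e (nat_lit 57929) (nat_lit 282) .nil))))))) (.g (nat_lit 1) (.e (nat_lit 149691) (nat_lit 0) .nil) .nil)))) (.nd (nat_lit 9) 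
(.lf (nat_lit 492991) (.g (nat_lit 3513) (.e (nat_lit 163874) (nat_lit 3) (.e (nat_lit 204813) (nat_lit 9) (.e (nat_lit 426190) (nat_lit 9) (.e (nat_lit 426566) (nat_lit 34) (.e (nat_lit 393251) (nat_lit 18) (.e (nat_lit 164325) (nat_lit 230) .nil)))))) (.g (nat_lit 1) (.e (nat_lit 149358) (nat_lit 0) .nil) .nil))) 
(.lf (nat_lit 493503) (.g (nat_lit 4392) (.e (nat_lit 163875) (nat_lit 3) (.e (nat_lit 204813) (nat_lit 9) (.e (nat_lit 426198) (nat_lit 9) (.e (nat_lit 426530) (nat_lit 27) (.e (nat_lit 336390) (nat_lit 27) (.e (nat_lit 426098) (nat_lit 1) (.e (nat_lit 164327) (nat_lit 230) .nil))))))) (.g (nat_lit 1) (.e (nat_lit 150273) (nat_lit 0) .nil) .nil)))))) 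
(.nd (nat_lit 7) (.nd (nat_lit 8) (.nd (nat_lit 9) 
(.lf (nat_lit 492671) (.g (nat_lit 3277) (.e (nat_lit 163873) (nat_lit 3) (.e (nat_lit 204813) (nat_lit 9) (.e (nat_lit 426198) (nat_lit 9) (.e (nat_lit 426568) (nat_lit 34) (.e (nat_lit 393253) (nat_lit 18) (.e (nat_lit 164325) (nat_lit 230) .nil)))))) (.g (nat_lit 1) (.e (nat_lit 148766) (nat_lit 0) .nil) .nil))) 
(.lf (nat_lit 493183) (.g (nat_lit 2313) (.e (nat_lit 163874) (nat_lit 3) (.e (nat_lit 204838) (nat_lit 20) (.e (nat_lit 114715) (nat_lit 22) (.e (nat_lit 90174) (nat_lit 14) (.e (nat_lit 180243) (nat_lit 5) (.e (nat_lit 532501) (nat_lit 1) (.e (nat_lit 57689) (nat_lit 156) .nil))))))) (.g (nat_lit 1) (.e (nat_lit 149620) (nat_lit 0) .nil) .nil)))) (.nd (nat_lit 9) 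
(.lf (nat_lit 492927) (.g (nat_lit 2251) (.e (nat_lit 163873) (nat_lit 3) (.e (nat_lit 204866) (nat_lit 28) (.e (nat_lit 352277) (nat_lit 11) (.e (nat_lit 426500) (nat_lit 27) (.e (nat_lit 335995) (nat_lit 1) (.e (nat_lit 57929) (nat_lit 282) .nil)))))) (.g (nat_lit 1) (.e (nat_lit 149217) (nat_lit 0) .nil) .nil))) 
(.lf (nat_lit 493439) (.g (nat_lit 3080) (.e (nat_lit 163874) (nat_lit 3) (.e (nat_lit 204876) (nat_lit 31) (.e (nat_lit 376842) (nat_lit 11) (.e (nat_lit 426497) (nat_lit 27) (.e (nat_lit 335988) (nat_lit 1) (.e (nat_lit 57927) (nat_lit 282) .nil)))))) (.g (nat_lit 1) (.e (nat_lit 150087) (nat_lit 0) .nil) .nil))))) (.nd (nat_lit 8) (.nd (nat_lit 9) 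
(.lf (nat_lit 492799) (.g (nat_lit 2613) (.e (nat_lit 163873) (nat_lit 3) (.e (nat_lit 204837) (nat_lit 20) (.e (nat_lit 114718) (nat_lit 23) (.e (nat_lit 98384) (nat_lit 32) (.e (nat_lit 475177) (nat_lit 24) (.e (nat_lit 516117) (nat_lit 1) (.e (nat_lit 164330) (nat_lit 230) .nil))))))) (.g (nat_lit 1) (.e (nat_lit 149077) (nat_lit 0) .nil) .nil))) 
(.lf (nat_lit 493311) (.g (nat_lit 1500) (.e (nat_lit 163874) (nat_lit 3) (.e (nat_lit 204861) (nat_lit 26) (.e (nat_lit 336076) (nat_lit 9) (.e (nat_lit 336374) (nat_lit 27) (.e (nat_lit 426514) (nat_lit 27) .nil))))) (.g (nat_lit 0) (.e (nat_lit 149872) (nat_lit 0) .nil) .nil)))) (.nd (nat_lit 9) 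
(.lf (nat_lit 493055) (.g (nat_lit 3705) (.e (nat_lit 163874) (nat_lit 3) (.e (nat_lit 204837) (nat_lit 20) (.e (nat_lit 114714) (nat_lit 22) (.e (nat_lit 90174) (nat_lit 14) (.e (nat_lit 180243) (nat_lit 5) (.e (nat_lit 532503) (nat_lit 1) (.e (nat_lit 57685) (nat_lit 156) .nil))))))) (.g (nat_lit 1) (.e (nat_lit 149492) (nat_lit 0) .nil) .nil))) 
(.lf (nat_lit 493567) (.g (nat_lit 1924) (.e (nat_lit 163875) (nat_lit 3) (.e (nat_lit 204830) (nat_lit 18) (.e (nat_lit 57852) (nat_lit 252) (.e (nat_lit 57430) (nat_lit 16) .nil)))) (.g (nat_lit 0) (.e (nat_lit 150409) (nat_lit 0) .nil) .nil)))))))))))))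

noncomputable def tv5542 : DT := (.nd (nat_lit 0) (.nd (nat_lit 1) (.nd (nat_lit 2) (.nd (nat_lit 3) (.nd (nat_lit 4) (.nd (nat_lit 5) (.nd (nat_lit 6) (.nd (nat_lit 7) (.nd (nat_lit 8) (.nd (nat_lit 9) 
(.lf (nat_lit 493568) (.g (nat_lit 3716) (.e (nat_lit 163875) (nat_lit 3) (.e (nat_lit 204830) (nat_lit 18) (.e (nat_lit 57852) (nat_lit 252) (.e (nat_lit 57430) (nat_lit 16) (.e (nat_lit 368676) (nat_lit 21) (.e (nat_lit 516146) (nat_lit 9) (.e (nat_lit 426422) (nat_lit 16) (.e (nat_lit 57686) (nat_lit 156) .nil)))))))) (.g (nat_lit 1) (.e (nat_lit 150410) (nat_lit 0) .nil) .nil))) 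
(.lf (nat_lit 494080) (.g (nat_lit 1905) (.e (nat_lit 163875) (nat_lit 3) (.e (nat_lit 204863) (nat_lit 27) (.e (nat_lit 344117) (nat_lit 21) (.e (nat_lit 516130) (nat_lit 3) (.e (nat_lit 221214) (nat_lit 23) .nil))))) (.g (nat_lit 0) (.e (nat_lit 151087) (nat_lit 0) .nil) .nil)))) (.nd (nat_lit 9) 
(.lf (nat_lit 493824) (.g (nat_lit 2081) (.e (nat_lit 163875) (nat_lit 3) (.e (nat_lit 204838) (nat_lit 20) (.e (nat_lit 114719) (nat_lit 23) (.e (nat_lit 98367) (nat_lit 27) (.e (nat_lit 434232) (nat_lit 23) (.e (nat_lit 532502) (nat_lit 1) (.e (nat_lit 57692) (nat_lit 156) .nil))))))) (.g (nat_lit 1) (.e (nat_lit 150669) (nat_lit 0) .nil) .nil))) 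
(.lf (nat_lit 494336) (.g (nat_lit 2444) (.e (nat_lit 163881) (nat_lit 4) (.e (nat_lit 213030) (nat_lit 11) (.e (nat_lit 24617) (nat_lit 7) (.e (nat_lit 319534) (nat_lit 16) (.e (nat_lit 286756) (nat_lit 10) .nil))))) (.g (nat_lit 0) (.e (nat_lit 151610) (nat_lit 0) .nil) .nil))))) (.nd (nat_lit 8) (.nd (nat_lit 9) 
(.lf (nat_lit 493696) (.g (nat_lit 2515) (.e (nat_lit 163875) (nat_lit 3) (.e (nat_lit 204837) (nat_lit 20) (.e (nat_lit 114719) (nat_lit 23) (.e (nat_lit 98366) (nat_lit 27) (.e (nat_lit 434232) (nat_lit 23) (.e (nat_lit 532504) (nat_lit 1) (.e (nat_lit 57690) (nat_lit 156) .nil))))))) (.g (nat_lit 1) (.e (nat_lit 150538) (nat_lit 0) .nil) .nil))) 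
(.lf (nat_lit 494208) (.g (nat_lit 2067) (.e (nat_lit 163877) (nat_lit 4) (.e (nat_lit 213032) (nat_lit 11) (.e (nat_lit 24629) (nat_lit 9) (.e (nat_lit 336443) (nat_lit 32) (.e (nat_lit 466969) (nat_lit 21) .nil))))) (.g (nat_lit 0) (.e (nat_lit 151440) (nat_lit 0) .nil) .nil)))) (.nd (nat_lit 9) 
(.lf (nat_lit 493952) (.g (nat_lit 2537) (.e (nat_lit 163875) (nat_lit 3) (.e (nat_lit 204862) (nat_lit 27) (.e (nat_lit 344117) (nat_lit 21) (.e (nat_lit 516129) (nat_lit 3) (.e (nat_lit 221213) (nat_lit 23) (.e (nat_lit 204829) (nat_lit 18) (.e (nat_lit 57927) (nat_lit 282) .nil))))))) (.g (nat_lit 1) (.e (nat_lit 150959) (nat_lit 0) .nil) .nil))) 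
(.lf (nat_lit 494464) (.g (nat_lit 2497) (.e (nat_lit 163884) (nat_lit 5) (.e (nat_lit 221193) (nat_lit 11) (.e (nat_lit 336077) (nat_lit 9) (.e (nat_lit 336443) (nat_lit 32) (.e (nat_lit 466972) (nat_lit 21) (.e (nat_lit 164330) (nat_lit 230) .nil)))))) (.g (nat_lit 1) (.e (nat_lit 151815) (nat_lit 0) .nil) .nil)))))) (.nd (nat_lit 7) (.nd (nat_lit 8) (.nd (nat_lit 9) 
(.lf (nat_lit 493632) (.g (nat_lit 3977) (.e (nat_lit 163875) (nat_lit 3) (.e (nat_lit 204837) (nat_lit 20) (.e (nat_lit 114718) (nat_lit 23) (.e (nat_lit 98365) (nat_lit 26) (.e (nat_lit 426133) (nat_lit 3) (.e (nat_lit 204829) (nat_lit 18) (.e (nat_lit 57692) (nat_lit 156) .nil))))))) (.g (nat_lit 1) (.e (nat_lit 150474) (nat_lit 0) .nil) .nil))) 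
(.lf (nat_lit 494144) (.g (nat_lit 2247) (.e (nat_lit 163875) (nat_lit 3) (.e (nat_lit 204865) (nat_lit 28) (.e (nat_lit 352277) (nat_lit 11) (.e (nat_lit 426500) (nat_lit 27) (.e (nat_lit 335986) (nat_lit 1) (.e (nat_lit 57928) (nat_lit 282) .nil)))))) (.g (nat_lit 1) (.e (nat_lit 151151) (nat_lit 0) .nil) .nil)))) (.nd (nat_lit 9) 
(.lf (nat_lit 493888) (.g (nat_lit 3470) (.e (nat_lit 163875) (nat_lit 3) (.e (nat_lit 204861) (nat_lit 26) (.e (nat_lit 336076) (nat_lit 9) (.e (nat_lit 336366) (nat_lit 27) (.e (nat_lit 426499) (nat_lit 27) (.e (nat_lit 335986) (nat_lit 1) (.e (nat_lit 57927) (nat_lit 282) .nil))))))) (.g (nat_lit 1) (.e (nat_lit 150845) (nat_lit 0) .nil) .nil))) 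
(.lf (nat_lit 494400) (.g (nat_lit 320) (.e (nat_lit 163882) (nat_lit 4) (.e (nat_lit 213030) (nat_lit 11) (.e (nat_lit 24660) (nat_lit 13) .nil))) (.g (nat_lit 0) (.e (nat_lit 151717) (nat_lit 0) .nil) .nil))))) (.nd (nat_lit 8) (.nd (nat_lit 9) 
(.lf (nat_lit 493760) (.g (nat_lit 4055) (.e (nat_lit 163875) (nat_lit 3) (.e (nat_lit 204838) (nat_lit 20) (.e (nat_lit 114718) (nat_lit 23) (.e (nat_lit 98356) (nat_lit 26) (.e (nat_lit 426438) (nat_lit 18) (.e (nat_lit 98335) (nat_lit 18) (.e (nat_lit 164327) (nat_lit 230) .nil))))))) (.g (nat_lit 1) (.e (nat_lit 150602) (nat_lit 0) .nil) .nil))) 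
(.lf (nat_lit 494272) (.g (nat_lit 1758) (.e (nat_lit 163879) (nat_lit 4) (.e (nat_lit 213030) (nat_lit 11) (.e (nat_lit 24657) (nat_lit 13) (.e (nat_lit 393281) (nat_lit 23) (.e (nat_lit 426098) (nat_lit 1) .nil))))) (.g (nat_lit 0) (.e (nat_lit 151516) (nat_lit 0) .nil) .nil)))) (.nd (nat_lit 9) 
(.lf (nat_lit 494016) (.g (nat_lit 4841) (.e (nat_lit 163875) (nat_lit 3) (.e (nat_lit 204862) (nat_lit 27) (.e (nat_lit 344129) (nat_lit 26) (.e (nat_lit 557103) (nat_lit 14) (.e (nat_lit 180244) (nat_lit 5) (.e (nat_lit 532499) (nat_lit 1) (.e (nat_lit 65280) (nat_lit 168) .nil))))))) (.g (nat_lit 1) (.e (nat_lit 151023) (nat_lit 0) .nil) .nil))) 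
(.lf (nat_lit 494528) (.g (nat_lit 3582) (.e (nat_lit 163884) (nat_lit 5) (.e (nat_lit 221214) (nat_lit 23) (.e (nat_lit 204813) (nat_lit 9) (.e (nat_lit 426306) (nat_lit 12) (.e (nat_lit 475177) (nat_lit 24) (.e (nat_lit 524032) (nat_lit 18) (.e (nat_lit 57927) (nat_lit 282) .nil))))))) (.g (nat_lit 1) (.e (nat_lit 151911) (nat_lit 0) .nil) .nil))))))) 
(.nd (nat_lit 6) (.nd (nat_lit 7) (.nd (nat_lit 8) (.nd (nat_lit 9) 
(.lf (nat_lit 493600) (.g (nat_lit 2921) (.e (nat_lit 163875) (nat_lit 3) (.e (nat_lit 204837) (nat_lit 20) (.e (nat_lit 114714) (nat_lit 22) (.e (nat_lit 90170) (nat_lit 13) (.e (nat_lit 172138) (nat_lit 15) .nil))))) (.g (nat_lit 0) (.e (nat_lit 150442) (nat_lit 0) .nil) .nil))) 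
(.lf (nat_lit 494112) (.g (nat_lit 2551) (.e (nat_lit 163875) (nat_lit 3) (.e (nat_lit 204863) (nat_lit 27) (.e (nat_lit 344129) (nat_lit 26) (.e (nat_lit 557103) (nat_lit 14) (.e (nat_lit 180250) (nat_lit 10) .nil))))) (.g (nat_lit 0) (.e (nat_lit 151119) (nat_lit 0) .nil) .nil)))) (.nd (nat_lit 9) 
(.lf (nat_lit 493856) (.g (nat_lit 1937) (.e (nat_lit 163875) (nat_lit 3) (.e (nat_lit 204851) (nat_lit 26) (.e (nat_lit 336019) (nat_lit 3) (.e (nat_lit 98341) (nat_lit 20) (.e (nat_lit 221214) (nat_lit 23) (.e (nat_lit 204830) (nat_lit 18) (.e (nat_lit 57927) (nat_lit 282) .nil))))))) (.g (nat_lit 1) (.e (nat_lit 150703) (nat_lit 0) .nil) .nil))) 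
(.lf (nat_lit 494368) (.g (nat_lit 2990) (.e (nat_lit 163881) (nat_lit 4) (.e (nat_lit 213032) (nat_lit 11) (.e (nat_lit 24630) (nat_lit 9) (.e (nat_lit 336443) (nat_lit 32) (.e (nat_lit 466971) (nat_lit 21) (.e (nat_lit 164325) (nat_lit 230) .nil)))))) (.g (nat_lit 1) (.e (nat_lit 151674) (nat_lit 0) .nil) .nil))))) (.nd (nat_lit 8) (.nd (nat_lit 9) 
(.lf (nat_lit 493728) (.g (nat_lit 2476) (.e (nat_lit 163875) (nat_lit 3) (.e (nat_lit 204837) (nat_lit 20) (.e (nat_lit 114719) (nat_lit 23) (.e (nat_lit 98367) (nat_lit 27) (.e (nat_lit 434234) (nat_lit 23) (.e (nat_lit 532502) (nat_lit 1) (.e (nat_lit 57692) (nat_lit 156) .nil))))))) (.g (nat_lit 1) (.e (nat_lit 150570) (nat_lit 0) .nil) .nil))) 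
(.lf (nat_lit 494240) (.g (nat_lit 932) (.e (nat_lit 163878) (nat_lit 4) (.e (nat_lit 213030) (nat_lit 11) (.e (nat_lit 24660) (nat_lit 13) (.e (nat_lit 393277) (nat_lit 23) .nil)))) (.g (nat_lit 0) (.e (nat_lit 151476) (nat_lit 0) .nil) .nil)))) (.nd (nat_lit 9) 
(.lf (nat_lit 493984) (.g (nat_lit 3438) (.e (nat_lit 163875) (nat_lit 3) (.e (nat_lit 204862) (nat_lit 27) (.e (nat_lit 344117) (nat_lit 21) (.e (nat_lit 516130) (nat_lit 3) (.e (nat_lit 221215) (nat_lit 23) (.e (nat_lit 204828) (nat_lit 18) (.e (nat_lit 57925) (nat_lit 282) .nil))))))) (.g (nat_lit 1) (.e (nat_lit 150991) (nat_lit 0) .nil) .nil))) 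
(.lf (nat_lit 494496) (.g (nat_lit 1931) (.e (nat_lit 163884) (nat_lit 5) (.e (nat_lit 221194) (nat_lit 11) (.e (nat_lit 336077) (nat_lit 9) (.e (nat_lit 336443) (nat_lit 32) (.e (nat_lit 466968) (nat_lit 21) .nil))))) (.g (nat_lit 0) (.e (nat_lit 151851) (nat_lit 0) .nil) .nil)))))) (.nd (nat_lit 7) (.nd (nat_lit 8) (.nd (nat_lit 9) 
(.lf (nat_lit 493664) (.g (nat_lit 2286) (.e (nat_lit 163875) (nat_lit 3) (.e (nat_lit 204837) (nat_lit 20) (.e (nat_lit 114718) (nat_lit 23) (.e (nat_lit 98367) (nat_lit 27) (.e (nat_lit 434234) (nat_lit 23) .nil))))) (.g (nat_lit 0) (.e (nat_lit 150506) (nat_lit 0) .nil) .nil))) 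
(.lf (nat_lit 494176) (.g (nat_lit 2702) (.e (nat_lit 163875) (nat_lit 3) (.e (nat_lit 204877) (nat_lit 31) (.e (nat_lit 376842) (nat_lit 11) (.e (nat_lit 426500) (nat_lit 27) (.e (nat_lit 335986) (nat_lit 1) (.e (nat_lit 57927) (nat_lit 282) .nil)))))) (.g (nat_lit 1) (.e (nat_lit 151373) (nat_lit 0) .nil) .nil)))) (.nd (nat_lit 9) 
(.lf (nat_lit 493920) (.g (nat_lit 1983) (.e (nat_lit 163875) (nat_lit 3) (.e (nat_lit 204861) (nat_lit 26) (.e (nat_lit 336222) (nat_lit 13) (.e (nat_lit 393229) (nat_lit 9) (.e (nat_lit 335988) (nat_lit 1) (.e (nat_lit 57927) (nat_lit 282) .nil)))))) (.g (nat_lit 1) (.e (nat_lit 150926) (nat_lit 0) .nil) .nil))) 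
(.lf (nat_lit 494432) (.g (nat_lit 1924) (.e (nat_lit 163884) (nat_lit 5) (.e (nat_lit 221190) (nat_lit 11) (.e (nat_lit 336076) (nat_lit 9) (.e (nat_lit 336443) (nat_lit 32) (.e (nat_lit 466971) (nat_lit 21) (.e (nat_lit 164327) (nat_lit 230) .nil)))))) (.g (nat_lit 1) (.e (nat_lit 151783) (nat_lit 0) .nil) .nil))))) (.nd (nat_lit 8) (.nd (nat_lit 9) 
(.lf (nat_lit 493792) (.g (nat_lit 2442) (.e (nat_lit 163875) (nat_lit 3) (.e (nat_lit 204838) (nat_lit 20) (.e (nat_lit 114719) (nat_lit 23) (.e (nat_lit 98363) (nat_lit 26) (.e (nat_lit 426129) (nat_lit 3) (.e (nat_lit 204829) (nat_lit 18) (.e (nat_lit 57691) (nat_lit 156) .nil))))))) (.g (nat_lit 1) (.e (nat_lit 150634) (nat_lit 0) .nil) .nil))) 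
(.lf (nat_lit 494304) (.g (nat_lit 1551) (.e (nat_lit 163879) (nat_lit 4) (.e (nat_lit 213032) (nat_lit 11) (.e (nat_lit 24660) (nat_lit 13) (.e (nat_lit 393287) (nat_lit 25) (.e (nat_lit 458774) (nat_lit 18) .nil))))) (.g (nat_lit 0) (.e (nat_lit 151557) (nat_lit 0) .nil) .nil)))) (.nd (nat_lit 9) 
(.lf (nat_lit 494048) (.g (nat_lit 2216) (.e (nat_lit 163875) (nat_lit 3) (.e (nat_lit 204863) (nat_lit 27) (.e (nat_lit 344117) (nat_lit 21) (.e (nat_lit 516122) (nat_lit 2) (.e (nat_lit 213035) (nat_lit 12) (.e (nat_lit 163964) (nat_lit 25) (.e (nat_lit 532499) (nat_lit 1) (.e (nat_lit 57927) (nat_lit 282) .nil)))))))) (.g (nat_lit 1) (.e (nat_lit 151055) (nat_lit 0) .nil) .nil))) 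
(.lf (nat_lit 494560) (.g (nat_lit 3121) (.e (nat_lit 163885) (nat_lit 5) (.e (nat_lit 221194) (nat_lit 11) (.e (nat_lit 336074) (nat_lit 9) (.e (nat_lit 336443) (nat_lit 32) (.e (nat_lit 466969) (nat_lit 21) (.e (nat_lit 164322) (nat_lit 230) .nil)))))) (.g (nat_lit 1) (.e (nat_lit 151955) (nat_lit 0) .nil) .nil)))))))) 
(.nd (nat_lit 5) (.nd (nat_lit 6) (.nd (nat_lit 7) (.nd (nat_lit 8) (.nd (nat_lit 9) 
(.lf (nat_lit 493584) (.g (nat_lit 3085) (.e (nat_lit 163875) (nat_lit 3) (.e (nat_lit 204836) (nat_lit 20) (.e (nat_lit 114715) (nat_lit 22) (.e (nat_lit 90170) (nat_lit 13) (.e (nat_lit 172065) (nat_lit 3) (.e (nat_lit 204830) (nat_lit 18) (.e (nat_lit 57690) (nat_lit 156) .nil))))))) (.g (nat_lit 1) (.e (nat_lit 150426) (nat_lit 0) .nil) .nil))) 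
(.lf (nat_lit 494096) (.g (nat_lit 3394) (.e (nat_lit 163875) (nat_lit 3) (.e (nat_lit 204863) (nat_lit 27) (.e (nat_lit 344117) (nat_lit 21) (.e (nat_lit 516130) (nat_lit 3) (.e (nat_lit 221215) (nat_lit 23) (.e (nat_lit 204830) (nat_lit 18) (.e (nat_lit 57928) (nat_lit 282) .nil))))))) (.g (nat_lit 1) (.e (nat_lit 151103) (nat_lit 0) .nil) .nil)))) (.nd (nat_lit 9) 
(.lf (nat_lit 493840) (.g (nat_lit 3621) (.e (nat_lit 163875) (nat_lit 3) (.e (nat_lit 204846) (nat_lit 24) (.e (nat_lit 319531) (nat_lit 16) (.e (nat_lit 286735) (nat_lit 3) (.e (nat_lit 98367) (nat_lit 27) (.e (nat_lit 434203) (nat_lit 18) (.e (nat_lit 4425) (nat_lit 261) .nil))))))) (.g (nat_lit 1) (.e (nat_lit 150686) (nat_lit 0) .nil) .nil))) 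
(.lf (nat_lit 494352) (.g (nat_lit 957) (.e (nat_lit 163881) (nat_lit 4) (.e (nat_lit 213031) (nat_lit 11) (.e (nat_lit 24658) (nat_lit 13) (.e (nat_lit 393281) (nat_lit 23) .nil)))) (.g (nat_lit 0) (.e (nat_lit 151632) (nat_lit 0) .nil) .nil))))) (.nd (nat_lit 8) (.nd (nat_lit 9) 
(.lf (nat_lit 493712) (.g (nat_lit 2747) (.e (nat_lit 163875) (nat_lit 3) (.e (nat_lit 204837) (nat_lit 20) (.e (nat_lit 114719) (nat_lit 23) (.e (nat_lit 98367) (nat_lit 27) (.e (nat_lit 434232) (nat_lit 23) (.e (nat_lit 532499) (nat_lit 1) (.e (nat_lit 57691) (nat_lit 156) .nil))))))) (.g (nat_lit 1) (.e (nat_lit 150554) (nat_lit 0) .nil) .nil))) 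
(.lf (nat_lit 494224) (.g (nat_lit 1356) (.e (nat_lit 163877) (nat_lit 4) (.e (nat_lit 213032) (nat_lit 11) (.e (nat_lit 24660) (nat_lit 13) (.e (nat_lit 393281) (nat_lit 23) .nil)))) (.g (nat_lit 0) (.e (nat_lit 151458) (nat_lit 0) .nil) .nil)))) (.nd (nat_lit 9) 
(.lf (nat_lit 493968) (.g (nat_lit 1820) (.e (nat_lit 163875) (nat_lit 3) (.e (nat_lit 204862) (nat_lit 27) (.e (nat_lit 344117) (nat_lit 21) (.e (nat_lit 516130) (nat_lit 3) (.e (nat_lit 221212) (nat_lit 22) .nil))))) (.g (nat_lit 0) (.e (nat_lit 150975) (nat_lit 0) .nil) .nil))) 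
(.lf (nat_lit 494480) (.g (nat_lit 3671) (.e (nat_lit 163884) (nat_lit 5) (.e (nat_lit 221194) (nat_lit 11) (.e (nat_lit 336075) (nat_lit 9) (.e (nat_lit 336443) (nat_lit 32) (.e (nat_lit 466969) (nat_lit 21) (.e (nat_lit 164325) (nat_lit 230) .nil)))))) (.g (nat_lit 1) (.e (nat_lit 151835) (nat_lit 0) .nil) .nil)))))) (.nd (nat_lit 7) (.nd (nat_lit 8) (.nd (nat_lit 9) 
(.lf (nat_lit 493648) (.g (nat_lit 3953) (.e (nat_lit 163875) (nat_lit 3) (.e (nat_lit 204837) (nat_lit 20) (.e (nat_lit 114718) (nat_lit 23) (.e (nat_lit 98367) (nat_lit 27) (.e (nat_lit 434231) (nat_lit 23) (.e (nat_lit 532499) (nat_lit 1) (.e (nat_lit 57691) (nat_lit 156) .nil))))))) (.g (nat_lit 1) (.e (nat_lit 150490) (nat_lit 0) .nil) .nil))) 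
(.lf (nat_lit 494160) (.g (nat_lit 4068) (.e (nat_lit 163875) (nat_lit 3) (.e (nat_lit 204873) (nat_lit 30) (.e (nat_lit 368676) (nat_lit 21) (.e (nat_lit 516131) (nat_lit 3) (.e (nat_lit 221214) (nat_lit 23) (.e (nat_lit 204830) (nat_lit 18) (.e (nat_lit 57926) (nat_lit 282) .nil))))))) (.g (nat_lit 1) (.e (nat_lit 151357) (nat_lit 0) .nil) .nil)))) (.nd (nat_lit 9) 
(.lf (nat_lit 493904) (.g (nat_lit 2205) (.e (nat_lit 163875) (nat_lit 3) (.e (nat_lit 204861) (nat_lit 26) (.e (nat_lit 336213) (nat_lit 13) (.e (nat_lit 393225) (nat_lit 9) (.e (nat_lit 335897) (nat_lit 0) .nil))))) (.g (nat_lit 0) (.e (nat_lit 150901) (nat_lit 0) .nil) .nil))) 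
(.lf (nat_lit 494416) (.g (nat_lit 2039) (.e (nat_lit 163882) (nat_lit 4) (.e (nat_lit 213032) (nat_lit 11) (.e (nat_lit 24627) (nat_lit 9) (.e (nat_lit 336432) (nat_lit 30) (.e (nat_lit 450565) (nat_lit 0) (.e (nat_lit 5224) (nat_lit 296) .nil)))))) (.g (nat_lit 1) (.e (nat_lit 151756) (nat_lit 0) .nil) .nil))))) (.nd (nat_lit 8) (.nd (nat_lit 9) 
(.lf (nat_lit 493776) (.g (nat_lit 2042) (.e (nat_lit 163875) (nat_lit 3) (.e (nat_lit 204838) (nat_lit 20) (.e (nat_lit 114718) (nat_lit 23) (.e (nat_lit 98367) (nat_lit 27) (.e (nat_lit 434232) (nat_lit 23) .nil))))) (.g (nat_lit 0) (.e (nat_lit 150618) (nat_lit 0) .nil) .nil))) 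
(.lf (nat_lit 494288) (.g (nat_lit 2633) (.e (nat_lit 163879) (nat_lit 4) (.e (nat_lit 213032) (nat_lit 11) (.e (nat_lit 24657) (nat_lit 13) (.e (nat_lit 393271) (nat_lit 23) (.e (nat_lit 426112) (nat_lit 1) .nil))))) (.g (nat_lit 0) (.e (nat_lit 151541) (nat_lit 0) .nil) .nil)))) (.nd (nat_lit 9) 
(.lf (nat_lit 494032) (.g (nat_lit 3051) (.e (nat_lit 163875) (nat_lit 3) (.e (nat_lit 204862) (nat_lit 27) (.e (nat_lit 344130) (nat_lit 26) (.e (nat_lit 557103) (nat_lit 14) (.e (nat_lit 180243) (nat_lit 5) (.e (nat_lit 532503) (nat_lit 1) (.e (nat_lit 65280) (nat_lit 168) .nil))))))) (.g (nat_lit 1) (.e (nat_lit 151039) (nat_lit 0) .nil) .nil))) 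
(.lf (nat_lit 494544) (.g (nat_lit 2421) (.e (nat_lit 163885) (nat_lit 5) (.e (nat_lit 221191) (nat_lit 11) (.e (nat_lit 336152) (nat_lit 9) (.e (nat_lit 336442) (nat_lit 32) (.e (nat_lit 466972) (nat_lit 21) (.e (nat_lit 164332) (nat_lit 230) .nil)))))) (.g (nat_lit 1) (.e (nat_lit 151936) (nat_lit 0) .nil) .nil))))))) (.nd (nat_lit 6) (.nd (nat_lit 7) (.nd (nat_lit 8) (.nd (nat_lit 9) 
(.lf (nat_lit 493616) (.g (nat_lit 3652) (.e (nat_lit 163875) (nat_lit 3) (.e (nat_lit 204837) (nat_lit 20) (.e (nat_lit 114715) (nat_lit 22) (.e (nat_lit 90170) (nat_lit 13) (.e (nat_lit 172067) (nat_lit 3) (.e (nat_lit 204830) (nat_lit 18) (.e (nat_lit 57685) (nat_lit 156) .nil))))))) (.g (nat_lit 1) (.e (nat_lit 150458) (nat_lit 0) .nil) .nil))) 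
(.lf (nat_lit 494128) (.g (nat_lit 3134) (.e (nat_lit 163875) (nat_lit 3) (.e (nat_lit 204863) (nat_lit 27) (.e (nat_lit 344133) (nat_lit 26) (.e (nat_lit 557103) (nat_lit 14) (.e (nat_lit 180244) (nat_lit 5) (.e (nat_lit 532499) (nat_lit 1) (.e (nat_lit 65280) (nat_lit 168) .nil))))))) (.g (nat_lit 1) (.e (nat_lit 151135) (nat_lit 0) .nil) .nil)))) (.nd (nat_lit 9) 
(.lf (nat_lit 493872) (.g (nat_lit 2208) (.e (nat_lit 163875) (nat_lit 3) (.e (nat_lit 204859) (nat_lit 26) (.e (nat_lit 336116) (nat_lit 9) (.e (nat_lit 336453) (nat_lit 34) (.e (nat_lit 483363) (nat_lit 18) (.e (nat_lit 57927) (nat_lit 282) .nil)))))) (.g (nat_lit 1) (.e (nat_lit 150761) (nat_lit 0) .nil) .nil))) 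
(.lf (nat_lit 494384) (.g (nat_lit 2669) (.e (nat_lit 163882) (nat_lit 4) (.e (nat_lit 213030) (nat_lit 11) (.e (nat_lit 24617) (nat_lit 7) (.e (nat_lit 319534) (nat_lit 16) (.e (nat_lit 286749) (nat_lit 9) (.e (nat_lit 335907) (nat_lit 0) (.e (nat_lit 970) (nat_lit 81) (.e (nat_lit 5966) (nat_lit 324) .nil)))))))) (.g (nat_lit 1) (.e (nat_lit 151695) (nat_lit 0) .nil) .nil))))) 
(.nd (nat_lit 8) (.nd (nat_lit 9) 
(.lf (nat_lit 493744) (.g (nat_lit 4088) (.e (nat_lit 163875) (nat_lit 3) (.e (nat_lit 204838) (nat_lit 20) (.e (nat_lit 114715) (nat_lit 22) (.e (nat_lit 90170) (nat_lit 13) (.e (nat_lit 172067) (nat_lit 3) (.e (nat_lit 204829) (nat_lit 18) (.e (nat_lit 57686) (nat_lit 156) .nil))))))) (.g (nat_lit 1) (.e (nat_lit 150586) (nat_lit 0) .nil) .nil))) 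
(.lf (nat_lit 494256) (.g (nat_lit 2848) (.e (nat_lit 163878) (nat_lit 4) (.e (nat_lit 213032) (nat_lit 11) (.e (nat_lit 24628) (nat_lit 9) (.e (nat_lit 336443) (nat_lit 32) (.e (nat_lit 466969) (nat_lit 21) (.e (nat_lit 164322) (nat_lit 230) .nil)))))) (.g (nat_lit 1) (.e (nat_lit 151493) (nat_lit 0) .nil) .nil)))) (.nd (nat_lit 9) 
(.lf (nat_lit 494000) (.g (nat_lit 2821) (.e (nat_lit 163875) (nat_lit 3) (.e (nat_lit 204862) (nat_lit 27) (.e (nat_lit 344117) (nat_lit 21) (.e (nat_lit 516195) (nat_lit 26) (.e (nat_lit 336027) (nat_lit 3) (.e (nat_lit 98331) (nat_lit 17) (.e (nat_lit 2442) (nat_lit 157) (.e (nat_lit 6839) (nat_lit 369) .nil)))))))) (.g (nat_lit 1) (.e (nat_lit 151007) (nat_lit 0) .nil) .nil))) 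
(.lf (nat_lit 494512) (.g (nat_lit 2280) (.e (nat_lit 163884) (nat_lit 5) (.e (nat_lit 221194) (nat_lit 11) (.e (nat_lit 336086) (nat_lit 9) (.e (nat_lit 336444) (nat_lit 32) (.e (nat_lit 466971) (nat_lit 21) (.e (nat_lit 164326) (nat_lit 230) .nil)))))) (.g (nat_lit 1) (.e (nat_lit 151867) (nat_lit 0) .nil) .nil)))))) (.nd (nat_lit 7) (.nd (nat_lit 8) (.nd (nat_lit 9) 
(.lf (nat_lit 493680) (.g (nat_lit 2584) (.e (nat_lit 163875) (nat_lit 3) (.e (nat_lit 204837) (nat_lit 20) (.e (nat_lit 114719) (nat_lit 23) (.e (nat_lit 98365) (nat_lit 26) (.e (nat_lit 426124) (nat_lit 2) (.e (nat_lit 196677) (nat_lit 16) (.e (nat_lit 122880) (nat_lit 0) (.e (nat_lit 7280) (nat_lit 386) .nil)))))))) (.g (nat_lit 1) (.e (nat_lit 150522) (nat_lit 0) .nil) .nil))) 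
(.lf (nat_lit 494192) (.g (nat_lit 2187) (.e (nat_lit 163877) (nat_lit 4) (.e (nat_lit 213032) (nat_lit 11) (.e (nat_lit 24604) (nat_lit 2) (.e (nat_lit 90176) (nat_lit 15) .nil)))) (.g (nat_lit 0) (.e (nat_lit 151422) (nat_lit 0) .nil) .nil)))) (.nd (nat_lit 9) 
(.lf (nat_lit 493936) (.g (nat_lit 2043) (.e (nat_lit 163875) (nat_lit 3) (.e (nat_lit 204862) (nat_lit 27) (.e (nat_lit 344117) (nat_lit 21) (.e (nat_lit 516123) (nat_lit 2) (.e (nat_lit 213033) (nat_lit 12) (.e (nat_lit 163964) (nat_lit 25) (.e (nat_lit 532501) (nat_lit 1) (.e (nat_lit 57928) (nat_lit 282) .nil)))))))) (.g (nat_lit 1) (.e (nat_lit 150943) (nat_lit 0) .nil) .nil))) 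
(.lf (nat_lit 494448) (.g (nat_lit 1747) (.e (nat_lit 163884) (nat_lit 5) (.e (nat_lit 221193) (nat_lit 11) (.e (nat_lit 336075) (nat_lit 9) (.e (nat_lit 336443) (nat_lit 32) (.e (nat_lit 466969) (nat_lit 21) (.e (nat_lit 164325) (nat_lit 230) .nil)))))) (.g (nat_lit 1) (.e (nat_lit 151799) (nat_lit 0) .nil) .nil))))) (.nd (nat_lit 8) (.nd (nat_lit 9) 
(.lf (nat_lit 493808) (.g (nat_lit 3167) (.e (nat_lit 163875) (nat_lit 3) (.e (nat_lit 204838) (nat_lit 20) (.e (nat_lit 114719) (nat_lit 23) (.e (nat_lit 98366) (nat_lit 27) (.e (nat_lit 434232) (nat_lit 23) (.e (nat_lit 532504) (nat_lit 1) (.e (nat_lit 57692) (nat_lit 156) .nil))))))) (.g (nat_lit 1) (.e (nat_lit 150653) (nat_lit 0) .nil) .nil))) 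
(.lf (nat_lit 494320) (.g (nat_lit 1330) (.e (nat_lit 163880) (nat_lit 4) (.e (nat_lit 213031) (nat_lit 11) (.e (nat_lit 24655) (nat_lit 13) (.e (nat_lit 393281) (nat_lit 23) .nil)))) (.g (nat_lit 0) (.e (nat_lit 151575) (nat_lit 0) .nil) .nil)))) (.nd (nat_lit 9) 
(.lf (nat_lit 494064) (.g (nat_lit 2537) (.e (nat_lit 163875) (nat_lit 3) (.e (nat_lit 204863) (nat_lit 27) (.e (nat_lit 344117) (nat_lit 21) (.e (nat_lit 516129) (nat_lit 3) (.e (nat_lit 221214) (nat_lit 23) (.e (nat_lit 204830) (nat_lit 18) (.e (nat_lit 57924) (nat_lit 282) .nil))))))) (.g (nat_lit 1) (.e (nat_lit 151071) (nat_lit 0) .nil) .nil))) 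
(.lf (nat_lit 494576) (.g (nat_lit 3077) (.e (nat_lit 163885) (nat_lit 5) (.e (nat_lit 221194) (nat_lit 11) (.e (nat_lit 336075) (nat_lit 9) (.e (nat_lit 336443) (nat_lit 32) (.e (nat_lit 466971) (nat_lit 21) (.e (nat_lit 164331) (nat_lit 230) .nil)))))) (.g (nat_lit 1) (.e (nat_lit 151971) (nat_lit 0) .nil) .nil))))))))) 
(.nd (nat_lit 4) (.nd (nat_lit 5) (.nd (nat_lit 6) (.nd (nat_lit 7) (.nd (nat_lit 8) 
(.nd (nat_lit 9) 
(.lf (nat_lit 493576) (.g (nat_lit 3046) (.e (nat_lit 163875) (nat_lit 3) (.e (nat_lit 204830) (nat_lit 18) (.e (nat_lit 57854) (nat_lit 252) (.e (nat_lit 57409) (nat_lit 12) (.e (nat_lit 336019) (nat_lit 3) (.e (nat_lit 98356) (nat_lit 26) (.e (nat_lit 426422) (nat_lit 16) (.e (nat_lit 57686) (nat_lit 156) .nil)))))))) (.g (nat_lit 1) (.e (nat_lit 150418) (nat_lit 0) .nil) .nil))) 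
(.lf (nat_lit 494088) (.g (nat_lit 3036) (.e (nat_lit 163875) (nat_lit 3) (.e (nat_lit 204863) (nat_lit 27) (.e (nat_lit 344117) (nat_lit 21) (.e (nat_lit 516130) (nat_lit 3) (.e (nat_lit 221215) (nat_lit 23) (.e (nat_lit 204828) (nat_lit 18) (.e (nat_lit 57927) (nat_lit 282) .nil))))))) (.g (nat_lit 1) (.e (nat_lit 151095) (nat_lit 0) .nil) .nil)))) (.nd (nat_lit 9) 
(.lf (nat_lit 493832) (.g (nat_lit 2442) (.e (nat_lit 163875) (nat_lit 3) (.e (nat_lit 204838) (nat_lit 20) (.e (nat_lit 114719) (nat_lit 23) (.e (nat_lit 98367) (nat_lit 27) (.e (nat_lit 434234) (nat_lit 23) (.e (nat_lit 532499) (nat_lit 1) (.e (nat_lit 57691) (nat_lit 156) .nil))))))) (.g (nat_lit 1) (.e (nat_lit 150677) (nat_lit 0) .nil) .nil))) 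
(.lf (nat_lit 494344) (.g (nat_lit 1767) (.e (nat_lit 163881) (nat_lit 4) (.e (nat_lit 213030) (nat_lit 11) (.e (nat_lit 24654) (nat_lit 13) (.e (nat_lit 393281) (nat_lit 23) (.e (nat_lit 426098) (nat_lit 1) .nil))))) (.g (nat_lit 0) (.e (nat_lit 151622) (nat_lit 0) .nil) .nil))))) (.nd (nat_lit 8) (.nd (nat_lit 9) 
(.lf (nat_lit 493704) (.g (nat_lit 4174) (.e (nat_lit 163875) (nat_lit 3) (.e (nat_lit 204837) (nat_lit 20) (.e (nat_lit 114719) (nat_lit 23) (.e (nat_lit 98367) (nat_lit 27) (.e (nat_lit 434231) (nat_lit 23) (.e (nat_lit 532499) (nat_lit 1) (.e (nat_lit 57691) (nat_lit 156) .nil))))))) (.g (nat_lit 1) (.e (nat_lit 150546) (nat_lit 0) .nil) .nil))) 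
(.lf (nat_lit 494216) (.g (nat_lit 845) (.e (nat_lit 163877) (nat_lit 4) (.e (nat_lit 213032) (nat_lit 11) (.e (nat_lit 24657) (nat_lit 13) .nil))) (.g (nat_lit 0) (.e (nat_lit 151450) (nat_lit 0) .nil) .nil)))) (.nd (nat_lit 9) 
(.lf (nat_lit 493960) (.g (nat_lit 2955) (.e (nat_lit 163875) (nat_lit 3) (.e (nat_lit 204862) (nat_lit 27) (.e (nat_lit 344117) (nat_lit 21) (.e (nat_lit 516129) (nat_lit 3) (.e (nat_lit 221215) (nat_lit 23) (.e (nat_lit 204830) (nat_lit 18) (.e (nat_lit 57924) (nat_lit 282) .nil))))))) (.g (nat_lit 1) (.e (nat_lit 150967) (nat_lit 0) .nil) .nil))) 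
(.lf (nat_lit 494472) (.g (nat_lit 1590) (.e (nat_lit 163884) (nat_lit 5) (.e (nat_lit 221193) (nat_lit 11) (.e (nat_lit 336087) (nat_lit 9) (.e (nat_lit 336444) (nat_lit 32) (.e (nat_lit 466971) (nat_lit 21) (.e (nat_lit 164326) (nat_lit 230) .nil)))))) (.g (nat_lit 1) (.e (nat_lit 151823) (nat_lit 0) .nil) .nil)))))) (.nd (nat_lit 7) (.nd (nat_lit 8) (.nd (nat_lit 9) 
(.lf (nat_lit 493640) (.g (nat_lit 3716) (.e (nat_lit 163875) (nat_lit 3) (.e (nat_lit 204837) (nat_lit 20) (.e (nat_lit 114718) (nat_lit 23) (.e (nat_lit 98365) (nat_lit 26) (.e (nat_lit 426138) (nat_lit 3) (.e (nat_lit 204831) (nat_lit 18) (.e (nat_lit 57692) (nat_lit 156) .nil))))))) (.g (nat_lit 1) (.e (nat_lit 150482) (nat_lit 0) .nil) .nil))) 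
(.lf (nat_lit 494152) (.g (nat_lit 458) (.e (nat_lit 163875) (nat_lit 3) (.e (nat_lit 204866) (nat_lit 28) (.e (nat_lit 360192) (nat_lit 18) .nil))) (.g (nat_lit 0) (.e (nat_lit 151167) (nat_lit 0) .nil) .nil)))) (.nd (nat_lit 9) 
(.lf (nat_lit 493896) (.g (nat_lit 2235) (.e (nat_lit 163875) (nat_lit 3) (.e (nat_lit 204861) (nat_lit 26) (.e (nat_lit 336076) (nat_lit 9) (.e (nat_lit 336454) (nat_lit 34) (.e (nat_lit 483363) (nat_lit 18) (.e (nat_lit 57928) (nat_lit 282) .nil)))))) (.g (nat_lit 1) (.e (nat_lit 150884) (nat_lit 0) .nil) .nil))) 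
(.lf (nat_lit 494408) (.g (nat_lit 2566) (.e (nat_lit 163882) (nat_lit 4) (.e (nat_lit 213031) (nat_lit 11) (.e (nat_lit 24658) (nat_lit 13) (.e (nat_lit 393281) (nat_lit 23) (.e (nat_lit 426098) (nat_lit 1) (.e (nat_lit 164325) (nat_lit 230) .nil)))))) (.g (nat_lit 1) (.e (nat_lit 151727) (nat_lit 0) .nil) .nil))))) (.nd (nat_lit 8) (.nd (nat_lit 9) 
(.lf (nat_lit 493768) (.g (nat_lit 2906) (.e (nat_lit 163875) (nat_lit 3) (.e (nat_lit 204838) (nat_lit 20) (.e (nat_lit 114718) (nat_lit 23) (.e (nat_lit 98366) (nat_lit 27) (.e (nat_lit 434231) (nat_lit 23) (.e (nat_lit 532499) (nat_lit 1) (.e (nat_lit 57691) (nat_lit 156) .nil))))))) (.g (nat_lit 1) (.e (nat_lit 150610) (nat_lit 0) .nil) .nil))) 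
(.lf (nat_lit 494280) (.g (nat_lit 1633) (.e (nat_lit 163879) (nat_lit 4) (.e (nat_lit 213032) (nat_lit 11) (.e (nat_lit 24625) (nat_lit 9) (.e (nat_lit 336444) (nat_lit 32) .nil)))) (.g (nat_lit 0) (.e (nat_lit 151527) (nat_lit 0) .nil) .nil)))) (.nd (nat_lit 9) 
(.lf (nat_lit 494024) (.g (nat_lit 3333) (.e (nat_lit 163875) (nat_lit 3) (.e (nat_lit 204862) (nat_lit 27) (.e (nat_lit 344129) (nat_lit 26) (.e (nat_lit 557104) (nat_lit 14) (.e (nat_lit 180244) (nat_lit 5) (.e (nat_lit 532503) (nat_lit 1) (.e (nat_lit 65280) (nat_lit 168) .nil))))))) (.g (nat_lit 1) (.e (nat_lit 151031) (nat_lit 0) .nil) .nil))) 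
(.lf (nat_lit 494536) (.g (nat_lit 2721) (.e (nat_lit 163885) (nat_lit 5) (.e (nat_lit 221190) (nat_lit 11) (.e (nat_lit 336076) (nat_lit 9) (.e (nat_lit 336443) (nat_lit 32) (.e (nat_lit 466972) (nat_lit 21) (.e (nat_lit 164332) (nat_lit 230) .nil)))))) (.g (nat_lit 1) (.e (nat_lit 151928) (nat_lit 0) .nil) .nil))))))) (.nd (nat_lit 6) (.nd (nat_lit 7) (.nd (nat_lit 8) (.nd (nat_lit 9) 
(.lf (nat_lit 493608) (.g (nat_lit 4595) (.e (nat_lit 163875) (nat_lit 3) (.e (nat_lit 204837) (nat_lit 20) (.e (nat_lit 114715) (nat_lit 22) (.e (nat_lit 90170) (nat_lit 13) (.e (nat_lit 172065) (nat_lit 3) (.e (nat_lit 204830) (nat_lit 18) (.e (nat_lit 57692) (nat_lit 156) .nil))))))) (.g (nat_lit 1) (.e (nat_lit 150450) (nat_lit 0) .nil) .nil))) 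
(.lf (nat_lit 494120) (.g (nat_lit 2297) (.e (nat_lit 163875) (nat_lit 3) (.e (nat_lit 204863) (nat_lit 27) (.e (nat_lit 344130) (nat_lit 26) (.e (nat_lit 557103) (nat_lit 14) (.e (nat_lit 180250) (nat_lit 10) .nil))))) (.g (nat_lit 0) (.e (nat_lit 151127) (nat_lit 0) .nil) .nil)))) (.nd (nat_lit 9) 
(.lf (nat_lit 493864) (.g (nat_lit 682) (.e (nat_lit 163875) (nat_lit 3) (.e (nat_lit 204852) (nat_lit 26) (.e (nat_lit 336211) (nat_lit 13) .nil))) (.g (nat_lit 0) (.e (nat_lit 150728) (nat_lit 0) .nil) .nil))) 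
(.lf (nat_lit 494376) (.g (nat_lit 336) (.e (nat_lit 163881) (nat_lit 4) (.e (nat_lit 213032) (nat_lit 11) (.e (nat_lit 24660) (nat_lit 13) .nil))) (.g (nat_lit 0) (.e (nat_lit 151683) (nat_lit 0) .nil) .nil))))) (.nd (nat_lit 8) (.nd (nat_lit 9) 
(.lf (nat_lit 493736) (.g (nat_lit 417) (.e (nat_lit 163875) (nat_lit 3) (.e (nat_lit 204838) (nat_lit 20) (.e (nat_lit 114715) (nat_lit 22) .nil))) (.g (nat_lit 0) (.e (nat_lit 150578) (nat_lit 0) .nil) .nil))) 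
(.lf (nat_lit 494248) (.g (nat_lit 2773) (.e (nat_lit 163878) (nat_lit 4) (.e (nat_lit 213032) (nat_lit 11) (.e (nat_lit 24624) (nat_lit 9) (.e (nat_lit 336443) (nat_lit 32) (.e (nat_lit 466972) (nat_lit 21) .nil))))) (.g (nat_lit 0) (.e (nat_lit 151485) (nat_lit 0) .nil) .nil)))) (.nd (nat_lit 9) 
(.lf (nat_lit 493992) (.g (nat_lit 5059) (.e (nat_lit 163875) (nat_lit 3) (.e (nat_lit 204862) (nat_lit 27) (.e (nat_lit 344117) (nat_lit 21) (.e (nat_lit 516130) (nat_lit 3) (.e (nat_lit 221215) (nat_lit 23) (.e (nat_lit 204830) (nat_lit 18) (.e (nat_lit 57926) (nat_lit 282) .nil))))))) (.g (nat_lit 1) (.e (nat_lit 150999) (nat_lit 0) .nil) .nil))) 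
(.lf (nat_lit 494504) (.g (nat_lit 2584) (.e (nat_lit 163884) (nat_lit 5) (.e (nat_lit 221194) (nat_lit 11) (.e (nat_lit 336077) (nat_lit 9) (.e (nat_lit 336443) (nat_lit 32) (.e (nat_lit 466971) (nat_lit 21) (.e (nat_lit 164329) (nat_lit 230) .nil)))))) (.g (nat_lit 1) (.e (nat_lit 151859) (nat_lit 0) .nil) .nil)))))) (.nd (nat_lit 7) (.nd (nat_lit 8) (.nd (nat_lit 9) 
(.lf (nat_lit 493672) (.g (nat_lit 4328) (.e (nat_lit 163875) (nat_lit 3) (.e (nat_lit 204837) (nat_lit 20) (.e (nat_lit 114718) (nat_lit 23) (.e (nat_lit 98384) (nat_lit 32) (.e (nat_lit 475179) (nat_lit 24) (.e (nat_lit 516119) (nat_lit 1) (.e (nat_lit 164325) (nat_lit 230) .nil))))))) (.g (nat_lit 1) (.e (nat_lit 150514) (nat_lit 0) .nil) .nil))) 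
(.lf (nat_lit 494184) (.g (nat_lit 2423) (.e (nat_lit 163876) (nat_lit 4) (.e (nat_lit 213032) (nat_lit 11) (.e (nat_lit 24628) (nat_lit 9) (.e (nat_lit 336443) (nat_lit 32) (.e (nat_lit 466969) (nat_lit 21) .nil))))) (.g (nat_lit 0) (.e (nat_lit 151414) (nat_lit 0) .nil) .nil)))) (.nd (nat_lit 9) 
(.lf (nat_lit 493928) (.g (nat_lit 2396) (.e (nat_lit 163875) (nat_lit 3) (.e (nat_lit 204862) (nat_lit 27) (.e (nat_lit 344117) (nat_lit 21) (.e (nat_lit 516122) (nat_lit 2) (.e (nat_lit 213036) (nat_lit 13) (.e (nat_lit 229433) (nat_lit 25) (.e (nat_lit 532499) (nat_lit 1) (.e (nat_lit 57926) (nat_lit 282) .nil)))))))) (.g (nat_lit 1) (.e (nat_lit 150935) (nat_lit 0) .nil) .nil))) 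
(.lf (nat_lit 494440) (.g (nat_lit 1850) (.e (nat_lit 163884) (nat_lit 5) (.e (nat_lit 221192) (nat_lit 11) (.e (nat_lit 336152) (nat_lit 9) (.e (nat_lit 336442) (nat_lit 32) (.e (nat_lit 466969) (nat_lit 21) (.e (nat_lit 164325) (nat_lit 230) .nil)))))) (.g (nat_lit 1) (.e (nat_lit 151791) (nat_lit 0) .nil) .nil))))) (.nd (nat_lit 8) (.nd (nat_lit 9) 
(.lf (nat_lit 493800) (.g (nat_lit 4598) (.e (nat_lit 163875) (nat_lit 3) (.e (nat_lit 204838) (nat_lit 20) (.e (nat_lit 114719) (nat_lit 23) (.e (nat_lit 98366) (nat_lit 27) (.e (nat_lit 434231) (nat_lit 23) (.e (nat_lit 532499) (nat_lit 1) (.e (nat_lit 57688) (nat_lit 156) .nil))))))) (.g (nat_lit 1) (.e (nat_lit 150645) (nat_lit 0) .nil) .nil))) 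
(.lf (nat_lit 494312) (.g (nat_lit 1874) (.e (nat_lit 163880) (nat_lit 4) (.e (nat_lit 213030) (nat_lit 11) (.e (nat_lit 24654) (nat_lit 13) (.e (nat_lit 393281) (nat_lit 23) (.e (nat_lit 426100) (nat_lit 1) .nil))))) (.g (nat_lit 0) (.e (nat_lit 151566) (nat_lit 0) .nil) .nil)))) (.nd (nat_lit 9) 
(.lf (nat_lit 494056) (.g (nat_lit 2416) (.e (nat_lit 163875) (nat_lit 3) (.e (nat_lit 204863) (nat_lit 27) (.e (nat_lit 344117) (nat_lit 21) (.e (nat_lit 516123) (nat_lit 2) (.e (nat_lit 213036) (nat_lit 13) (.e (nat_lit 229433) (nat_lit 25) (.e (nat_lit 532501) (nat_lit 1) (.e (nat_lit 57928) (nat_lit 282) .nil)))))))) (.g (nat_lit 1) (.e (nat_lit 151063) (nat_lit 0) .nil) .nil))) 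
(.lf (nat_lit 494568) (.g (nat_lit 3163) (.e (nat_lit 163885) (nat_lit 5) (.e (nat_lit 221194) (nat_lit 11) (.e (nat_lit 336075) (nat_lit 9) (.e (nat_lit 336443) (nat_lit 32) (.e (nat_lit 466969) (nat_lit 21) (.e (nat_lit 164322) (nat_lit 230) .nil)))))) (.g (nat_lit 1) (.e (nat_lit 151963) (nat_lit 0) .nil) .nil)))))))) 
(.nd (nat_lit 5) (.nd (nat_lit 6) (.nd (nat_lit 7) (.nd (nat_lit 8) (.nd (nat_lit 9) 
(.lf (nat_lit 493592) (.g (nat_lit 2785) (.e (nat_lit 163875) (nat_lit 3) (.e (nat_lit 204836) (nat_lit 20) (.e (nat_lit 114719) (nat_lit 23) (.e (nat_lit 98366) (nat_lit 27) (.e (nat_lit 434232) (nat_lit 23) (.e (nat_lit 532504) (nat_lit 1) (.e (nat_lit 57692) (nat_lit 156) .nil))))))) (.g (nat_lit 1) (.e (nat_lit 150434) (nat_lit 0) .nil) .nil))) 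
(.lf (nat_lit 494104) (.g (nat_lit 932) (.e (nat_lit 163875) (nat_lit 3) (.e (nat_lit 204863) (nat_lit 27) (.e (nat_lit 344128) (nat_lit 26) .nil))) (.g (nat_lit 0) (.e (nat_lit 151111) (nat_lit 0) .nil) .nil)))) (.nd (nat_lit 9) 
(.lf (nat_lit 493848) (.g (nat_lit 2667) (.e (nat_lit 163875) (nat_lit 3) (.e (nat_lit 204850) (nat_lit 26) (.e (nat_lit 336028) (nat_lit 3) (.e (nat_lit 98342) (nat_lit 20) (.e (nat_lit 221214) (nat_lit 23) (.e (nat_lit 204829) (nat_lit 18) (.e (nat_lit 57927) (nat_lit 282) .nil))))))) (.g (nat_lit 1) (.e (nat_lit 150695) (nat_lit 0) .nil) .nil))) 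
(.lf (nat_lit 494360) (.g (nat_lit 2892) (.e (nat_lit 163881) (nat_lit 4) (.e (nat_lit 213032) (nat_lit 11) (.e (nat_lit 24628) (nat_lit 9) (.e (nat_lit 336443) (nat_lit 32) (.e (nat_lit 466969) (nat_lit 21) (.e (nat_lit 164326) (nat_lit 230) .nil)))))) (.g (nat_lit 1) (.e (nat_lit 151660) (nat_lit 0) .nil) .nil))))) (.nd (nat_lit 8) (.nd (nat_lit 9) 
(.lf (nat_lit 493720) (.g (nat_lit 2851) (.e (nat_lit 163875) (nat_lit 3) (.e (nat_lit 204837) (nat_lit 20) (.e (nat_lit 114719) (nat_lit 23) (.e (nat_lit 98367) (nat_lit 27) (.e (nat_lit 434232) (nat_lit 23) (.e (nat_lit 532503) (nat_lit 1) (.e (nat_lit 57691) (nat_lit 156) .nil))))))) (.g (nat_lit 1) (.e (nat_lit 150562) (nat_lit 0) .nil) .nil))) 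
(.lf (nat_lit 494232) (.g (nat_lit 2085) (.e (nat_lit 163878) (nat_lit 4) (.e (nat_lit 213030) (nat_lit 11) (.e (nat_lit 24655) (nat_lit 13) (.e (nat_lit 393281) (nat_lit 23) (.e (nat_lit 426100) (nat_lit 1) .nil))))) (.g (nat_lit 0) (.e (nat_lit 151468) (nat_lit 0) .nil) .nil)))) (.nd (nat_lit 9) 
(.lf (nat_lit 493976) (.g (nat_lit 4579) (.e (nat_lit 163875) (nat_lit 3) (.e (nat_lit 204862) (nat_lit 27) (.e (nat_lit 344117) (nat_lit 21) (.e (nat_lit 516130) (nat_lit 3) (.e (nat_lit 221214) (nat_lit 23) (.e (nat_lit 204829) (nat_lit 18) (.e (nat_lit 57926) (nat_lit 282) .nil))))))) (.g (nat_lit 1) (.e (nat_lit 150983) (nat_lit 0) .nil) .nil))) 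
(.lf (nat_lit 494488) (.g (nat_lit 3461) (.e (nat_lit 163884) (nat_lit 5) (.e (nat_lit 221194) (nat_lit 11) (.e (nat_lit 336075) (nat_lit 9) (.e (nat_lit 336443) (nat_lit 32) (.e (nat_lit 466971) (nat_lit 21) (.e (nat_lit 164325) (nat_lit 230) .nil)))))) (.g (nat_lit 1) (.e (nat_lit 151843) (nat_lit 0) .nil) .nil)))))) (.nd (nat_lit 7) (.nd (nat_lit 8) (.nd (nat_lit 9) 
(.lf (nat_lit 493656) (.g (nat_lit 2451) (.e (nat_lit 163875) (nat_lit 3) (.e (nat_lit 204837) (nat_lit 20) (.e (nat_lit 114718) (nat_lit 23) (.e (nat_lit 98367) (nat_lit 27) (.e (nat_lit 434232) (nat_lit 23) (.e (nat_lit 532499) (nat_lit 1) (.e (nat_lit 57691) (nat_lit 156) .nil))))))) (.g (nat_lit 1) (.e (nat_lit 150498) (nat_lit 0) .nil) .nil))) 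
(.lf (nat_lit 494168) (.g (nat_lit 3084) (.e (nat_lit 163875) (nat_lit 3) (.e (nat_lit 204876) (nat_lit 31) (.e (nat_lit 376842) (nat_lit 11) (.e (nat_lit 426500) (nat_lit 27) (.e (nat_lit 335988) (nat_lit 1) (.e (nat_lit 57926) (nat_lit 282) .nil)))))) (.g (nat_lit 1) (.e (nat_lit 151365) (nat_lit 0) .nil) .nil)))) (.nd (nat_lit 9) 
(.lf (nat_lit 493912) (.g (nat_lit 2659) (.e (nat_lit 163875) (nat_lit 3) (.e (nat_lit 204861) (nat_lit 26) (.e (nat_lit 336213) (nat_lit 13) (.e (nat_lit 393225) (nat_lit 9) (.e (nat_lit 335988) (nat_lit 1) (.e (nat_lit 57928) (nat_lit 282) .nil)))))) (.g (nat_lit 1) (.e (nat_lit 150909) (nat_lit 0) .nil) .nil))) 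
(.lf (nat_lit 494424) (.g (nat_lit 336) (.e (nat_lit 163882) (nat_lit 4) (.e (nat_lit 213032) (nat_lit 11) (.e (nat_lit 24660) (nat_lit 13) .nil))) (.g (nat_lit 0) (.e (nat_lit 151774) (nat_lit 0) .nil) .nil))))) (.nd (nat_lit 8) (.nd (nat_lit 9) 
(.lf (nat_lit 493784) (.g (nat_lit 2867) (.e (nat_lit 163875) (nat_lit 3) (.e (nat_lit 204838) (nat_lit 20) (.e (nat_lit 114718) (nat_lit 23) (.e (nat_lit 98367) (nat_lit 27) (.e (nat_lit 434234) (nat_lit 23) (.e (nat_lit 532499) (nat_lit 1) (.e (nat_lit 57688) (nat_lit 156) .nil))))))) (.g (nat_lit 1) (.e (nat_lit 150626) (nat_lit 0) .nil) .nil))) 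
(.lf (nat_lit 494296) (.g (nat_lit 1935) (.e (nat_lit 163879) (nat_lit 4) (.e (nat_lit 213032) (nat_lit 11) (.e (nat_lit 24660) (nat_lit 13) (.e (nat_lit 393271) (nat_lit 23) (.e (nat_lit 426112) (nat_lit 1) .nil))))) (.g (nat_lit 0) (.e (nat_lit 151549) (nat_lit 0) .nil) .nil)))) (.nd (nat_lit 9) 
(.lf (nat_lit 494040) (.g (nat_lit 3279) (.e (nat_lit 163875) (nat_lit 3) (.e (nat_lit 204862) (nat_lit 27) (.e (nat_lit 344133) (nat_lit 26) (.e (nat_lit 557103) (nat_lit 14) (.e (nat_lit 180243) (nat_lit 5) (.e (nat_lit 532501) (nat_lit 1) (.e (nat_lit 65280) (nat_lit 168) .nil))))))) (.g (nat_lit 1) (.e (nat_lit 151047) (nat_lit 0) .nil) .nil))) 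
(.lf (nat_lit 494552) (.g (nat_lit 1768) (.e (nat_lit 163885) (nat_lit 5) (.e (nat_lit 221193) (nat_lit 11) (.e (nat_lit 336075) (nat_lit 9) (.e (nat_lit 336443) (nat_lit 32) (.e (nat_lit 466971) (nat_lit 21) (.e (nat_lit 164322) (nat_lit 230) .nil)))))) (.g (nat_lit 1) (.e (nat_lit 151944) (nat_lit 0) .nil) .nil))))))) (.nd (nat_lit 6) (.nd (nat_lit 7) (.nd (nat_lit 8) (.nd (nat_lit 9) 
(.lf (nat_lit 493624) (.g (nat_lit 2274) (.e (nat_lit 163875) (nat_lit 3) (.e (nat_lit 204837) (nat_lit 20) (.e (nat_lit 114715) (nat_lit 22) (.e (nat_lit 90174) (nat_lit 14) (.e (nat_lit 180243) (nat_lit 5) (.e (nat_lit 532503) (nat_lit 1) (.e (nat_lit 57689) (nat_lit 156) .nil))))))) (.g (nat_lit 1) (.e (nat_lit 150466) (nat_lit 0) .nil) .nil))) 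
(.lf (nat_lit 494136) (.g (nat_lit 2687) (.e (nat_lit 163875) (nat_lit 3) (.e (nat_lit 204864) (nat_lit 27) (.e (nat_lit 344130) (nat_lit 26) (.e (nat_lit 557103) (nat_lit 14) (.e (nat_lit 180244) (nat_lit 5) (.e (nat_lit 532499) (nat_lit 1) (.e (nat_lit 65280) (nat_lit 168) .nil))))))) (.g (nat_lit 1) (.e (nat_lit 151143) (nat_lit 0) .nil) .nil)))) (.nd (nat_lit 9) 
(.lf (nat_lit 493880) (.g (nat_lit 3184) (.e (nat_lit 163875) (nat_lit 3) (.e (nat_lit 204861) (nat_lit 26) (.e (nat_lit 336075) (nat_lit 9) (.e (nat_lit 336454) (nat_lit 34) (.e (nat_lit 483364) (nat_lit 18) (.e (nat_lit 57924) (nat_lit 282) .nil)))))) (.g (nat_lit 1) (.e (nat_lit 150836) (nat_lit 0) .nil) .nil))) 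
(.lf (nat_lit 494392) (.g (nat_lit 348) (.e (nat_lit 163882) (nat_lit 4) (.e (nat_lit 213030) (nat_lit 11) (.e (nat_lit 24629) (nat_lit 9) .nil))) (.g (nat_lit 0) (.e (nat_lit 151703) (nat_lit 0) .nil) .nil))))) (.nd (nat_lit 8) (.nd (nat_lit 9) 
(.lf (nat_lit 493752) (.g (nat_lit 2628) (.e (nat_lit 163875) (nat_lit 3) (.e (nat_lit 204838) (nat_lit 20) (.e (nat_lit 114715) (nat_lit 22) (.e (nat_lit 90174) (nat_lit 14) (.e (nat_lit 180243) (nat_lit 5) (.e (nat_lit 532503) (nat_lit 1) (.e (nat_lit 57685) (nat_lit 156) .nil))))))) (.g (nat_lit 1) (.e (nat_lit 150594) (nat_lit 0) .nil) .nil))) 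
(.lf (nat_lit 494264) (.g (nat_lit 1695) (.e (nat_lit 163878) (nat_lit 4) (.e (nat_lit 213032) (nat_lit 11) (.e (nat_lit 24657) (nat_lit 13) (.e (nat_lit 393281) (nat_lit 23) .nil)))) (.g (nat_lit 0) (.e (nat_lit 151503) (nat_lit 0) .nil) .nil)))) (.nd (nat_lit 9) 
(.lf (nat_lit 494008) (.g (nat_lit 3299) (.e (nat_lit 163875) (nat_lit 3) (.e (nat_lit 204862) (nat_lit 27) (.e (nat_lit 344129) (nat_lit 26) (.e (nat_lit 557097) (nat_lit 13) (.e (nat_lit 172066) (nat_lit 3) (.e (nat_lit 204830) (nat_lit 18) (.e (nat_lit 65280) (nat_lit 168) .nil))))))) (.g (nat_lit 1) (.e (nat_lit 151015) (nat_lit 0) .nil) .nil))) 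
(.lf (nat_lit 494520) (.g (nat_lit 1817) (.e (nat_lit 163884) (nat_lit 5) (.e (nat_lit 221194) (nat_lit 11) (.e (nat_lit 336087) (nat_lit 9) (.e (nat_lit 336444) (nat_lit 32) (.e (nat_lit 466971) (nat_lit 21) (.e (nat_lit 164325) (nat_lit 230) .nil)))))) (.g (nat_lit 1) (.e (nat_lit 151875) (nat_lit 0) .nil) .nil)))))) (.nd (nat_lit 7) (.nd (nat_lit 8) (.nd (nat_lit 9) 
(.lf (nat_lit 493688) (.g (nat_lit 4220) (.e (nat_lit 163875) (nat_lit 3) (.e (nat_lit 204837) (nat_lit 20) (.e (nat_lit 114719) (nat_lit 23) (.e (nat_lit 98366) (nat_lit 27) (.e (nat_lit 434231) (nat_lit 23) (.e (nat_lit 532500) (nat_lit 1) (.e (nat_lit 57685) (nat_lit 156) .nil))))))) (.g (nat_lit 1) (.e (nat_lit 150530) (nat_lit 0) .nil) .nil))) 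
(.lf (nat_lit 494200) (.g (nat_lit 2587) (.e (nat_lit 163877) (nat_lit 4) (.e (nat_lit 213032) (nat_lit 11) (.e (nat_lit 24626) (nat_lit 9) (.e (nat_lit 336443) (nat_lit 32) (.e (nat_lit 466972) (nat_lit 21) .nil))))) (.g (nat_lit 0) (.e (nat_lit 151432) (nat_lit 0) .nil) .nil)))) (.nd (nat_lit 9) 
(.lf (nat_lit 493944) (.g (nat_lit 2317) (.e (nat_lit 163875) (nat_lit 3) (.e (nat_lit 204862) (nat_lit 27) (.e (nat_lit 344117) (nat_lit 21) (.e (nat_lit 516123) (nat_lit 2) (.e (nat_lit 213037) (nat_lit 13) (.e (nat_lit 229433) (nat_lit 25) (.e (nat_lit 532501) (nat_lit 1) (.e (nat_lit 57927) (nat_lit 282) .nil)))))))) (.g (nat_lit 1) (.e (nat_lit 150951) (nat_lit 0) .nil) .nil))) 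
(.lf (nat_lit 494456) (.g (nat_lit 2623) (.e (nat_lit 163884) (nat_lit 5) (.e (nat_lit 221193) (nat_lit 11) (.e (nat_lit 336077) (nat_lit 9) (.e (nat_lit 336443) (nat_lit 32) (.e (nat_lit 466969) (nat_lit 21) (.e (nat_lit 164325) (nat_lit 230) .nil)))))) (.g (nat_lit 1) (.e (nat_lit 151807) (nat_lit 0) .nil) .nil))))) (.nd (nat_lit 8) (.nd (nat_lit 9) 
(.lf (nat_lit 493816) (.g (nat_lit 4373) (.e (nat_lit 163875) (nat_lit 3) (.e (nat_lit 204838) (nat_lit 20) (.e (nat_lit 114719) (nat_lit 23) (.e (nat_lit 98367) (nat_lit 27) (.e (nat_lit 434231) (nat_lit 23) (.e (nat_lit 532500) (nat_lit 1) (.e (nat_lit 57690) (nat_lit 156) .nil))))))) (.g (nat_lit 1) (.e (nat_lit 150661) (nat_lit 0) .nil) .nil))) 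
(.lf (nat_lit 494328) (.g (nat_lit 3144) (.e (nat_lit 163880) (nat_lit 4) (.e (nat_lit 213032) (nat_lit 11) (.e (nat_lit 24629) (nat_lit 9) (.e (nat_lit 336443) (nat_lit 32) (.e (nat_lit 466972) (nat_lit 21) (.e (nat_lit 164330) (nat_lit 230) .nil)))))) (.g (nat_lit 1) (.e (nat_lit 151599) (nat_lit 0) .nil) .nil)))) (.nd (nat_lit 9) 
(.lf (nat_lit 494072) (.g (nat_lit 3204) (.e (nat_lit 163875) (nat_lit 3) (.e (nat_lit 204863) (nat_lit 27) (.e (nat_lit 344117) (nat_lit 21) (.e (nat_lit 516129) (nat_lit 3) (.e (nat_lit 221215) (nat_lit 23) (.e (nat_lit 204830) (nat_lit 18) (.e (nat_lit 57927) (nat_lit 282) .nil))))))) (.g (nat_lit 1) (.e (nat_lit 151079) (nat_lit 0) .nil) .nil))) 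
(.lf (nat_lit 494584) (.g (nat_lit 2803) (.e (nat_lit 163885) (nat_lit 5) (.e (nat_lit 221194) (nat_lit 11) (.e (nat_lit 336077) (nat_lit 9) (.e (nat_lit 336443) (nat_lit 32) (.e (nat_lit 466971) (nat_lit 21) (.e (nat_lit 164325) (nat_lit 230) .nil)))))) (.g (nat_lit 1) (.e (nat_lit 151979) (nat_lit 0) .nil) .nil)))))))))) 
(.nd (nat_lit 3) (.nd (nat_lit 4) (.nd (nat_lit 5) (.nd (nat_lit 6) (.nd (nat_lit 7) 
(.nd (nat_lit 8) (.nd (nat_lit 9) 
(.lf (nat_lit 493572) (.g (nat_lit 3991) (.e (nat_lit 163875) (nat_lit 3) (.e (nat_lit 204830) (nat_lit 18) (.e (nat_lit 57852) (nat_lit 252) (.e (nat_lit 57431) (nat_lit 16) (.e (nat_lit 368676) (nat_lit 21) (.e (nat_lit 516146) (nat_lit 9) (.e (nat_lit 426422) (nat_lit 16) (.e (nat_lit 57686) (nat_lit 156) .nil)))))))) (.g (nat_lit 1) (.e (nat_lit 150414) (nat_lit 0) .nil) .nil))) 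
(.lf (nat_lit 494084) (.g (nat_lit 4246) (.e (nat_lit 163875) (nat_lit 3) (.e (nat_lit 204863) (nat_lit 27) (.e (nat_lit 344117) (nat_lit 21) (.e (nat_lit 516130) (nat_lit 3) (.e (nat_lit 221214) (nat_lit 23) (.e (nat_lit 204830) (nat_lit 18) (.e (nat_lit 57925) (nat_lit 282) .nil))))))) (.g (nat_lit 1) (.e (nat_lit 151091) (nat_lit 0) .nil) .nil)))) (.nd (nat_lit 9) 
(.lf (nat_lit 493828) (.g (nat_lit 2325) (.e (nat_lit 163875) (nat_lit 3) (.e (nat_lit 204838) (nat_lit 20) (.e (nat_lit 114719) (nat_lit 23) (.e (nat_lit 98367) (nat_lit 27) (.e (nat_lit 434232) (nat_lit 23) (.e (nat_lit 532503) (nat_lit 1) (.e (nat_lit 57689) (nat_lit 156) .nil))))))) (.g (nat_lit 1) (.e (nat_lit 150673) (nat_lit 0) .nil) .nil))) 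
(.lf (nat_lit 494340) (.g (nat_lit 2453) (.e (nat_lit 163881) (nat_lit 4) (.e (nat_lit 213030) (nat_lit 11) (.e (nat_lit 24625) (nat_lit 9) (.e (nat_lit 336443) (nat_lit 32) (.e (nat_lit 466969) (nat_lit 21) (.e (nat_lit 164326) (nat_lit 230) .nil)))))) (.g (nat_lit 1) (.e (nat_lit 151616) (nat_lit 0) .nil) .nil))))) (.nd (nat_lit 8) (.nd (nat_lit 9) 
(.lf (nat_lit 493700) (.g (nat_lit 3018) (.e (nat_lit 163875) (nat_lit 3) (.e (nat_lit 204837) (nat_lit 20) (.e (nat_lit 114719) (nat_lit 23) (.e (nat_lit 98367) (nat_lit 27) (.e (nat_lit 434231) (nat_lit 23) (.e (nat_lit 532490) (nat_lit 0) (.e (nat_lit 1040) (nat_lit 81) (.e (nat_lit 7280) (nat_lit 386) .nil)))))))) (.g (nat_lit 1) (.e (nat_lit 150542) (nat_lit 0) .nil) .nil))) 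
(.lf (nat_lit 494212) (.g (nat_lit 2256) (.e (nat_lit 163877) (nat_lit 4) (.e (nat_lit 213032) (nat_lit 11) (.e (nat_lit 24630) (nat_lit 9) (.e (nat_lit 336443) (nat_lit 32) (.e (nat_lit 466971) (nat_lit 21) .nil))))) (.g (nat_lit 0) (.e (nat_lit 151446) (nat_lit 0) .nil) .nil)))) (.nd (nat_lit 9) 
(.lf (nat_lit 493956) (.g (nat_lit 1988) (.e (nat_lit 163875) (nat_lit 3) (.e (nat_lit 204862) (nat_lit 27) (.e (nat_lit 344117) (nat_lit 21) (.e (nat_lit 516129) (nat_lit 3) (.e (nat_lit 221215) (nat_lit 23) .nil))))) (.g (nat_lit 0) (.e (nat_lit 150963) (nat_lit 0) .nil) .nil))) 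
(.lf (nat_lit 494468) (.g (nat_lit 2200) (.e (nat_lit 163884) (nat_lit 5) (.e (nat_lit 221193) (nat_lit 11) (.e (nat_lit 336084) (nat_lit 9) (.e (nat_lit 336443) (nat_lit 32) (.e (nat_lit 466971) (nat_lit 21) (.e (nat_lit 164326) (nat_lit 230) .nil)))))) (.g (nat_lit 1) (.e (nat_lit 151819) (nat_lit 0) .nil) .nil)))))) (.nd (nat_lit 7) (.nd (nat_lit 8) (.nd (nat_lit 9) 
(.lf (nat_lit 493636) (.g (nat_lit 2659) (.e (nat_lit 163875) (nat_lit 3) (.e (nat_lit 204837) (nat_lit 20) (.e (nat_lit 114718) (nat_lit 23) (.e (nat_lit 98365) (nat_lit 26) (.e (nat_lit 426137) (nat_lit 3) (.e (nat_lit 204831) (nat_lit 18) (.e (nat_lit 57692) (nat_lit 156) .nil))))))) (.g (nat_lit 1) (.e (nat_lit 150478) (nat_lit 0) .nil) .nil))) 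
(.lf (nat_lit 494148) (.g (nat_lit 2521) (.e (nat_lit 163875) (nat_lit 3) (.e (nat_lit 204865) (nat_lit 28) (.e (nat_lit 352277) (nat_lit 11) (.e (nat_lit 426500) (nat_lit 27) (.e (nat_lit 335995) (nat_lit 1) (.e (nat_lit 57924) (nat_lit 282) .nil)))))) (.g (nat_lit 1) (.e (nat_lit 151155) (nat_lit 0) .nil) .nil)))) (.nd (nat_lit 9) 
(.lf (nat_lit 493892) (.g (nat_lit 1528) (.e (nat_lit 163875) (nat_lit 3) (.e (nat_lit 204861) (nat_lit 26) (.e (nat_lit 336076) (nat_lit 9) (.e (nat_lit 336375) (nat_lit 27) .nil)))) (.g (nat_lit 0) (.e (nat_lit 150857) (nat_lit 0) .nil) .nil))) 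
(.lf (nat_lit 494404) (.g (nat_lit 2837) (.e (nat_lit 163882) (nat_lit 4) (.e (nat_lit 213031) (nat_lit 11) (.e (nat_lit 24627) (nat_lit 9) (.e (nat_lit 336443) (nat_lit 32) (.e (nat_lit 466969) (nat_lit 21) (.e (nat_lit 164325) (nat_lit 230) .nil)))))) (.g (nat_lit 1) (.e (nat_lit 151722) (nat_lit 0) .nil) .nil))))) (.nd (nat_lit 8) (.nd (nat_lit 9) 
(.lf (nat_lit 493764) (.g (nat_lit 2609) (.e (nat_lit 163875) (nat_lit 3) (.e (nat_lit 204838) (nat_lit 20) (.e (nat_lit 114718) (nat_lit 23) (.e (nat_lit 98365) (nat_lit 26) (.e (nat_lit 426139) (nat_lit 3) (.e (nat_lit 204829) (nat_lit 18) (.e (nat_lit 57688) (nat_lit 156) .nil))))))) (.g (nat_lit 1) (.e (nat_lit 150606) (nat_lit 0) .nil) .nil))) 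
(.lf (nat_lit 494276) (.g (nat_lit 2163) (.e (nat_lit 163879) (nat_lit 4) (.e (nat_lit 213030) (nat_lit 11) (.e (nat_lit 24660) (nat_lit 13) (.e (nat_lit 393287) (nat_lit 25) (.e (nat_lit 458774) (nat_lit 18) (.e (nat_lit 5224) (nat_lit 296) .nil)))))) (.g (nat_lit 1) (.e (nat_lit 151520) (nat_lit 0) .nil) .nil)))) (.nd (nat_lit 9) 
(.lf (nat_lit 494020) (.g (nat_lit 2558) (.e (nat_lit 163875) (nat_lit 3) (.e (nat_lit 204862) (nat_lit 27) (.e (nat_lit 344129) (nat_lit 26) (.e (nat_lit 557103) (nat_lit 14) (.e (nat_lit 180250) (nat_lit 10) .nil))))) (.g (nat_lit 0) (.e (nat_lit 151027) (nat_lit 0) .nil) .nil))) 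
(.lf (nat_lit 494532) (.g (nat_lit 913) (.e (nat_lit 163885) (nat_lit 5) (.e (nat_lit 221190) (nat_lit 11) (.e (nat_lit 336075) (nat_lit 9) (.e (nat_lit 336443) (nat_lit 32) .nil)))) (.g (nat_lit 0) (.e (nat_lit 151924) (nat_lit 0) .nil) .nil))))))) (.nd (nat_lit 6) (.nd (nat_lit 7) (.nd (nat_lit 8) (.nd (nat_lit 9) 
(.lf (nat_lit 493604) (.g (nat_lit 4487) (.e (nat_lit 163875) (nat_lit 3) (.e (nat_lit 204837) (nat_lit 20) (.e (nat_lit 114715) (nat_lit 22) (.e (nat_lit 90170) (nat_lit 13) (.e (nat_lit 172065) (nat_lit 3) (.e (nat_lit 204829) (nat_lit 18) (.e (nat_lit 57686) (nat_lit 156) .nil))))))) (.g (nat_lit 1) (.e (nat_lit 150446) (nat_lit 0) .nil) .nil))) 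
(.lf (nat_lit 494116) (.g (nat_lit 2334) (.e (nat_lit 163875) (nat_lit 3) (.e (nat_lit 204863) (nat_lit 27) (.e (nat_lit 344130) (nat_lit 26) (.e (nat_lit 557103) (nat_lit 14) (.e (nat_lit 180243) (nat_lit 5) (.e (nat_lit 532501) (nat_lit 1) (.e (nat_lit 65280) (nat_lit 168) .nil))))))) (.g (nat_lit 1) (.e (nat_lit 151123) (nat_lit 0) .nil) .nil)))) (.nd (nat_lit 9) 
(.lf (nat_lit 493860) (.g (nat_lit 2538) (.e (nat_lit 163875) (nat_lit 3) (.e (nat_lit 204851) (nat_lit 26) (.e (nat_lit 336019) (nat_lit 3) (.e (nat_lit 98342) (nat_lit 20) (.e (nat_lit 221214) (nat_lit 23) (.e (nat_lit 204830) (nat_lit 18) (.e (nat_lit 57927) (nat_lit 282) .nil))))))) (.g (nat_lit 1) (.e (nat_lit 150707) (nat_lit 0) .nil) .nil))) 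
(.lf (nat_lit 494372) (.g (nat_lit 2529) (.e (nat_lit 163881) (nat_lit 4) (.e (nat_lit 213032) (nat_lit 11) (.e (nat_lit 24656) (nat_lit 13) (.e (nat_lit 393271) (nat_lit 23) (.e (nat_lit 426112) (nat_lit 1) .nil))))) (.g (nat_lit 0) (.e (nat_lit 151679) (nat_lit 0) .nil) .nil))))) (.nd (nat_lit 8) (.nd (nat_lit 9) 
(.lf (nat_lit 493732) (.g (nat_lit 4918) (.e (nat_lit 163875) (nat_lit 3) (.e (nat_lit 204837) (nat_lit 20) (.e (nat_lit 114719) (nat_lit 23) (.e (nat_lit 98384) (nat_lit 32) (.e (nat_lit 475179) (nat_lit 24) (.e (nat_lit 516115) (nat_lit 1) (.e (nat_lit 164325) (nat_lit 230) .nil))))))) (.g (nat_lit 1) (.e (nat_lit 150574) (nat_lit 0) .nil) .nil))) 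
(.lf (nat_lit 494244) (.g (nat_lit 3780) (.e (nat_lit 163878) (nat_lit 4) (.e (nat_lit 213032) (nat_lit 11) (.e (nat_lit 24608) (nat_lit 3) (.e (nat_lit 98373) (nat_lit 29) (.e (nat_lit 450562) (nat_lit 0) .nil))))) (.g (nat_lit 0) (.e (nat_lit 151481) (nat_lit 0) .nil) .nil)))) (.nd (nat_lit 9) 
(.lf (nat_lit 493988) (.g (nat_lit 4274) (.e (nat_lit 163875) (nat_lit 3) (.e (nat_lit 204862) (nat_lit 27) (.e (nat_lit 344117) (nat_lit 21) (.e (nat_lit 516130) (nat_lit 3) (.e (nat_lit 221215) (nat_lit 23) (.e (nat_lit 204829) (nat_lit 18) (.e (nat_lit 57925) (nat_lit 282) .nil))))))) (.g (nat_lit 1) (.e (nat_lit 150995) (nat_lit 0) .nil) .nil))) 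
(.lf (nat_lit 494500) (.g (nat_lit 3046) (.e (nat_lit 163884) (nat_lit 5) (.e (nat_lit 221194) (nat_lit 11) (.e (nat_lit 336077) (nat_lit 9) (.e (nat_lit 336443) (nat_lit 32) (.e (nat_lit 466969) (nat_lit 21) (.e (nat_lit 164330) (nat_lit 230) .nil)))))) (.g (nat_lit 1) (.e (nat_lit 151855) (nat_lit 0) .nil) .nil)))))) (.nd (nat_lit 7) (.nd (nat_lit 8) (.nd (nat_lit 9) 
(.lf (nat_lit 493668) (.g (nat_lit 2300) (.e (nat_lit 163875) (nat_lit 3) (.e (nat_lit 204837) (nat_lit 20) (.e (nat_lit 114718) (nat_lit 23) (.e (nat_lit 98367) (nat_lit 27) (.e (nat_lit 434234) (nat_lit 23) (.e (nat_lit 532502) (nat_lit 1) (.e (nat_lit 57692) (nat_lit 156) .nil))))))) (.g (nat_lit 1) (.e (nat_lit 150510) (nat_lit 0) .nil) .nil))) 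
(.lf (nat_lit 494180) (.g (nat_lit 301) (.e (nat_lit 163875) (nat_lit 3) (.e (nat_lit 204877) (nat_lit 31) (.e (nat_lit 384768) (nat_lit 18) .nil))) (.g (nat_lit 0) (.e (nat_lit 151377) (nat_lit 0) .nil) .nil)))) (.nd (nat_lit 9) 
(.lf (nat_lit 493924) (.g (nat_lit 2413) (.e (nat_lit 163875) (nat_lit 3) (.e (nat_lit 204862) (nat_lit 27) (.e (nat_lit 344117) (nat_lit 21) (.e (nat_lit 516122) (nat_lit 2) (.e (nat_lit 213034) (nat_lit 12) (.e (nat_lit 163963) (nat_lit 25) (.e (nat_lit 532499) (nat_lit 1) (.e (nat_lit 57927) (nat_lit 282) .nil)))))))) (.g (nat_lit 1) (.e (nat_lit 150931) (nat_lit 0) .nil) .nil))) 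
(.lf (nat_lit 494436) (.g (nat_lit 2138) (.e (nat_lit 163884) (nat_lit 5) (.e (nat_lit 221190) (nat_lit 11) (.e (nat_lit 336078) (nat_lit 9) (.e (nat_lit 336443) (nat_lit 32) (.e (nat_lit 466969) (nat_lit 21) (.e (nat_lit 164327) (nat_lit 230) .nil)))))) (.g (nat_lit 1) (.e (nat_lit 151787) (nat_lit 0) .nil) .nil))))) (.nd (nat_lit 8) (.nd (nat_lit 9) 
(.lf (nat_lit 493796) (.g (nat_lit 2497) (.e (nat_lit 163875) (nat_lit 3) (.e (nat_lit 204838) (nat_lit 20) (.e (nat_lit 114719) (nat_lit 23) (.e (nat_lit 98365) (nat_lit 26) (.e (nat_lit 426138) (nat_lit 3) (.e (nat_lit 204831) (nat_lit 18) (.e (nat_lit 57685) (nat_lit 156) .nil))))))) (.g (nat_lit 1) (.e (nat_lit 150641) (nat_lit 0) .nil) .nil))) 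
(.lf (nat_lit 494308) (.g (nat_lit 3257) (.e (nat_lit 163880) (nat_lit 4) (.e (nat_lit 213030) (nat_lit 11) (.e (nat_lit 24626) (nat_lit 9) (.e (nat_lit 336443) (nat_lit 32) (.e (nat_lit 466972) (nat_lit 21) (.e (nat_lit 164330) (nat_lit 230) .nil)))))) (.g (nat_lit 1) (.e (nat_lit 151561) (nat_lit 0) .nil) .nil)))) (.nd (nat_lit 9) 
(.lf (nat_lit 494052) (.g (nat_lit 1613) (.e (nat_lit 163875) (nat_lit 3) (.e (nat_lit 204863) (nat_lit 27) (.e (nat_lit 344117) (nat_lit 21) (.e (nat_lit 516123) (nat_lit 2) .nil)))) (.g (nat_lit 0) (.e (nat_lit 151059) (nat_lit 0) .nil) .nil))) 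
(.lf (nat_lit 494564) (.g (nat_lit 2916) (.e (nat_lit 163885) (nat_lit 5) (.e (nat_lit 221194) (nat_lit 11) (.e (nat_lit 336074) (nat_lit 9) (.e (nat_lit 336443) (nat_lit 32) (.e (nat_lit 466971) (nat_lit 21) (.e (nat_lit 164325) (nat_lit 230) .nil)))))) (.g (nat_lit 1) (.e (nat_lit 151959) (nat_lit 0) .nil) .nil)))))))) 
(.nd (nat_lit 5) (.nd (nat_lit 6) (.nd (nat_lit 7) (.nd (nat_lit 8) (.nd (nat_lit 9) 
(.lf (nat_lit 493588) (.g (nat_lit 2537) (.e (nat_lit 163875) (nat_lit 3) (.e (nat_lit 204836) (nat_lit 20) (.e (nat_lit 114718) (nat_lit 23) (.e (nat_lit 98365) (nat_lit 26) (.e (nat_lit 426133) (nat_lit 3) (.e (nat_lit 204829) (nat_lit 18) (.e (nat_lit 57692) (nat_lit 156) .nil))))))) (.g (nat_lit 1) (.e (nat_lit 150430) (nat_lit 0) .nil) .nil))) 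
(.lf (nat_lit 494100) (.g (nat_lit 2120) (.e (nat_lit 163875) (nat_lit 3) (.e (nat_lit 204863) (nat_lit 27) (.e (nat_lit 344118) (nat_lit 21) (.e (nat_lit 516129) (nat_lit 3) (.e (nat_lit 221214) (nat_lit 23) .nil))))) (.g (nat_lit 0) (.e (nat_lit 151107) (nat_lit 0) .nil) .nil)))) (.nd (nat_lit 9) 
(.lf (nat_lit 493844) (.g (nat_lit 2330) (.e (nat_lit 163875) (nat_lit 3) (.e (nat_lit 204850) (nat_lit 26) (.e (nat_lit 336019) (nat_lit 3) (.e (nat_lit 98342) (nat_lit 20) (.e (nat_lit 221215) (nat_lit 23) (.e (nat_lit 204829) (nat_lit 18) (.e (nat_lit 57927) (nat_lit 282) .nil))))))) (.g (nat_lit 1) (.e (nat_lit 150691) (nat_lit 0) .nil) .nil))) 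
(.lf (nat_lit 494356) (.g (nat_lit 1554) (.e (nat_lit 163881) (nat_lit 4) (.e (nat_lit 213032) (nat_lit 11) (.e (nat_lit 24625) (nat_lit 9) (.e (nat_lit 336444) (nat_lit 32) .nil)))) (.g (nat_lit 0) (.e (nat_lit 151656) (nat_lit 0) .nil) .nil))))) (.nd (nat_lit 8) (.nd (nat_lit 9) 
(.lf (nat_lit 493716) (.g (nat_lit 3807) (.e (nat_lit 163875) (nat_lit 3) (.e (nat_lit 204837) (nat_lit 20) (.e (nat_lit 114719) (nat_lit 23) (.e (nat_lit 98367) (nat_lit 27) (.e (nat_lit 434232) (nat_lit 23) (.e (nat_lit 532503) (nat_lit 1) (.e (nat_lit 57685) (nat_lit 156) .nil))))))) (.g (nat_lit 1) (.e (nat_lit 150558) (nat_lit 0) .nil) .nil))) 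
(.lf (nat_lit 494228) (.g (nat_lit 2498) (.e (nat_lit 163878) (nat_lit 4) (.e (nat_lit 213030) (nat_lit 11) (.e (nat_lit 24627) (nat_lit 9) (.e (nat_lit 336443) (nat_lit 32) (.e (nat_lit 466969) (nat_lit 21) (.e (nat_lit 164329) (nat_lit 230) .nil)))))) (.g (nat_lit 1) (.e (nat_lit 151462) (nat_lit 0) .nil) .nil)))) (.nd (nat_lit 9) 
(.lf (nat_lit 493972) (.g (nat_lit 3676) (.e (nat_lit 163875) (nat_lit 3) (.e (nat_lit 204862) (nat_lit 27) (.e (nat_lit 344117) (nat_lit 21) (.e (nat_lit 516130) (nat_lit 3) (.e (nat_lit 221213) (nat_lit 23) (.e (nat_lit 204830) (nat_lit 18) (.e (nat_lit 57927) (nat_lit 282) .nil))))))) (.g (nat_lit 1) (.e (nat_lit 150979) (nat_lit 0) .nil) .nil))) 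
(.lf (nat_lit 494484) (.g (nat_lit 3861) (.e (nat_lit 163884) (nat_lit 5) (.e (nat_lit 221194) (nat_lit 11) (.e (nat_lit 336075) (nat_lit 9) (.e (nat_lit 336443) (nat_lit 32) (.e (nat_lit 466969) (nat_lit 21) (.e (nat_lit 164331) (nat_lit 230) .nil)))))) (.g (nat_lit 1) (.e (nat_lit 151839) (nat_lit 0) .nil) .nil)))))) (.nd (nat_lit 7) (.nd (nat_lit 8) (.nd (nat_lit 9) 
(.lf (nat_lit 493652) (.g (nat_lit 4884) (.e (nat_lit 163875) (nat_lit 3) (.e (nat_lit 204837) (nat_lit 20) (.e (nat_lit 114718) (nat_lit 23) (.e (nat_lit 98367) (nat_lit 27) (.e (nat_lit 434231) (nat_lit 23) (.e (nat_lit 532500) (nat_lit 1) (.e (nat_lit 57692) (nat_lit 156) .nil))))))) (.g (nat_lit 1) (.e (nat_lit 150494) (nat_lit 0) .nil) .nil))) 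
(.lf (nat_lit 494164) (.g (nat_lit 2498) (.e (nat_lit 163875) (nat_lit 3) (.e (nat_lit 204876) (nat_lit 31) (.e (nat_lit 376842) (nat_lit 11) (.e (nat_lit 426497) (nat_lit 27) (.e (nat_lit 335986) (nat_lit 1) (.e (nat_lit 57927) (nat_lit 282) .nil)))))) (.g (nat_lit 1) (.e (nat_lit 151361) (nat_lit 0) .nil) .nil)))) (.nd (nat_lit 9) 
(.lf (nat_lit 493908) (.g (nat_lit 2205) (.e (nat_lit 163875) (nat_lit 3) (.e (nat_lit 204861) (nat_lit 26) (.e (nat_lit 336213) (nat_lit 13) (.e (nat_lit 393225) (nat_lit 9) (.e (nat_lit 335926) (nat_lit 0) .nil))))) (.g (nat_lit 0) (.e (nat_lit 150905) (nat_lit 0) .nil) .nil))) 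
(.lf (nat_lit 494420) (.g (nat_lit 1610) (.e (nat_lit 163882) (nat_lit 4) (.e (nat_lit 213032) (nat_lit 11) (.e (nat_lit 24654) (nat_lit 13) (.e (nat_lit 393281) (nat_lit 23) (.e (nat_lit 426098) (nat_lit 1) .nil))))) (.g (nat_lit 0) (.e (nat_lit 151768) (nat_lit 0) .nil) .nil))))) (.nd (nat_lit 8) (.nd (nat_lit 9) 
(.lf (nat_lit 493780) (.g (nat_lit 3105) (.e (nat_lit 163875) (nat_lit 3) (.e (nat_lit 204838) (nat_lit 20) (.e (nat_lit 114718) (nat_lit 23) (.e (nat_lit 98367) (nat_lit 27) (.e (nat_lit 434232) (nat_lit 23) (.e (nat_lit 532503) (nat_lit 1) (.e (nat_lit 57685) (nat_lit 156) .nil))))))) (.g (nat_lit 1) (.e (nat_lit 150622) (nat_lit 0) .nil) .nil))) 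
(.lf (nat_lit 494292) (.g (nat_lit 1954) (.e (nat_lit 163879) (nat_lit 4) (.e (nat_lit 213032) (nat_lit 11) (.e (nat_lit 24659) (nat_lit 13) (.e (nat_lit 393271) (nat_lit 23) (.e (nat_lit 426112) (nat_lit 1) .nil))))) (.g (nat_lit 0) (.e (nat_lit 151545) (nat_lit 0) .nil) .nil)))) (.nd (nat_lit 9) 
(.lf (nat_lit 494036) (.g (nat_lit 1916) (.e (nat_lit 163875) (nat_lit 3) (.e (nat_lit 204862) (nat_lit 27) (.e (nat_lit 344130) (nat_lit 26) (.e (nat_lit 557103) (nat_lit 14) (.e (nat_lit 180250) (nat_lit 10) .nil))))) (.g (nat_lit 0) (.e (nat_lit 151043) (nat_lit 0) .nil) .nil))) 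
(.lf (nat_lit 494548) (.g (nat_lit 1549) (.e (nat_lit 163885) (nat_lit 5) (.e (nat_lit 221193) (nat_lit 11) (.e (nat_lit 336075) (nat_lit 9) (.e (nat_lit 336443) (nat_lit 32) (.e (nat_lit 466969) (nat_lit 21) .nil))))) (.g (nat_lit 0) (.e (nat_lit 151940) (nat_lit 0) .nil) .nil))))))) (.nd (nat_lit 6) (.nd (nat_lit 7) (.nd (nat_lit 8) (.nd (nat_lit 9) 
(.lf (nat_lit 493620) (.g (nat_lit 2799) (.e (nat_lit 163875) (nat_lit 3) (.e (nat_lit 204837) (nat_lit 20) (.e (nat_lit 114715) (nat_lit 22) (.e (nat_lit 90174) (nat_lit 14) (.e (nat_lit 180243) (nat_lit 5) (.e (nat_lit 532501) (nat_lit 1) (.e (nat_lit 57689) (nat_lit 156) .nil))))))) (.g (nat_lit 1) (.e (nat_lit 150462) (nat_lit 0) .nil) .nil))) 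
(.lf (nat_lit 494132) (.g (nat_lit 3122) (.e (nat_lit 163875) (nat_lit 3) (.e (nat_lit 204864) (nat_lit 27) (.e (nat_lit 344130) (nat_lit 26) (.e (nat_lit 557103) (nat_lit 14) (.e (nat_lit 180243) (nat_lit 5) (.e (nat_lit 532499) (nat_lit 1) (.e (nat_lit 65280) (nat_lit 168) .nil))))))) (.g (nat_lit 1) (.e (nat_lit 151139) (nat_lit 0) .nil) .nil)))) (.nd (nat_lit 9) 
(.lf (nat_lit 493876) (.g (nat_lit 2003) (.e (nat_lit 163875) (nat_lit 3) (.e (nat_lit 204861) (nat_lit 26) (.e (nat_lit 336075) (nat_lit 9) (.e (nat_lit 336454) (nat_lit 34) (.e (nat_lit 483362) (nat_lit 18) (.e (nat_lit 57925) (nat_lit 282) .nil)))))) (.g (nat_lit 1) (.e (nat_lit 150832) (nat_lit 0) .nil) .nil))) 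
(.lf (nat_lit 494388) (.g (nat_lit 2341) (.e (nat_lit 163882) (nat_lit 4) (.e (nat_lit 213030) (nat_lit 11) (.e (nat_lit 24617) (nat_lit 7) (.e (nat_lit 319534) (nat_lit 16) (.e (nat_lit 286756) (nat_lit 10) (.e (nat_lit 344104) (nat_lit 18) (.e (nat_lit 5964) (nat_lit 324) .nil))))))) (.g (nat_lit 1) (.e (nat_lit 151699) (nat_lit 0) .nil) .nil))))) (.nd (nat_lit 8) (.nd (nat_lit 9) 
(.lf (nat_lit 493748) (.g (nat_lit 3394) (.e (nat_lit 163875) (nat_lit 3) (.e (nat_lit 204838) (nat_lit 20) (.e (nat_lit 114715) (nat_lit 22) (.e (nat_lit 90170) (nat_lit 13) (.e (nat_lit 172067) (nat_lit 3) (.e (nat_lit 204830) (nat_lit 18) (.e (nat_lit 57690) (nat_lit 156) .nil))))))) (.g (nat_lit 1) (.e (nat_lit 150590) (nat_lit 0) .nil) .nil))) 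
(.lf (nat_lit 494260) (.g (nat_lit 2072) (.e (nat_lit 163878) (nat_lit 4) (.e (nat_lit 213032) (nat_lit 11) (.e (nat_lit 24629) (nat_lit 9) (.e (nat_lit 336443) (nat_lit 32) (.e (nat_lit 466969) (nat_lit 21) .nil))))) (.g (nat_lit 0) (.e (nat_lit 151497) (nat_lit 0) .nil) .nil)))) (.nd (nat_lit 9) 
(.lf (nat_lit 494004) (.g (nat_lit 3816) (.e (nat_lit 163875) (nat_lit 3) (.e (nat_lit 204862) (nat_lit 27) (.e (nat_lit 344129) (nat_lit 26) (.e (nat_lit 557067) (nat_lit 9) (.e (nat_lit 2878) (nat_lit 184) (.e (nat_lit 426125) (nat_lit 2) (.e (nat_lit 196661) (nat_lit 12) (.e (nat_lit 57353) (nat_lit 0) (.e (nat_lit 7708) (nat_lit 414) .nil))))))))) (.g (nat_lit 1) (.e (nat_lit 151011) (nat_lit 0) .nil) .nil))) 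
(.lf (nat_lit 494516) (.g (nat_lit 1880) (.e (nat_lit 163884) (nat_lit 5) (.e (nat_lit 221194) (nat_lit 11) (.e (nat_lit 336087) (nat_lit 9) (.e (nat_lit 336430) (nat_lit 29) (.e (nat_lit 442421) (nat_lit 21) .nil))))) (.g (nat_lit 0) (.e (nat_lit 151871) (nat_lit 0) .nil) .nil)))))) (.nd (nat_lit 7) (.nd (nat_lit 8) (.nd (nat_lit 9) 
(.lf (nat_lit 493684) (.g (nat_lit 4370) (.e (nat_lit 163875) (nat_lit 3) (.e (nat_lit 204837) (nat_lit 20) (.e (nat_lit 114719) (nat_lit 23) (.e (nat_lit 98366) (nat_lit 27) (.e (nat_lit 434231) (nat_lit 23) (.e (nat_lit 532499) (nat_lit 1) (.e (nat_lit 57686) (nat_lit 156) .nil))))))) (.g (nat_lit 1) (.e (nat_lit 150526) (nat_lit 0) .nil) .nil))) 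
(.lf (nat_lit 494196) (.g (nat_lit 1576) (.e (nat_lit 163877) (nat_lit 4) (.e (nat_lit 213032) (nat_lit 11) (.e (nat_lit 24625) (nat_lit 9) (.e (nat_lit 336434) (nat_lit 30) .nil)))) (.g (nat_lit 0) (.e (nat_lit 151428) (nat_lit 0) .nil) .nil)))) (.nd (nat_lit 9) 
(.lf (nat_lit 493940) (.g (nat_lit 2138) (.e (nat_lit 163875) (nat_lit 3) (.e (nat_lit 204862) (nat_lit 27) (.e (nat_lit 344117) (nat_lit 21) (.e (nat_lit 516123) (nat_lit 2) (.e (nat_lit 213035) (nat_lit 12) (.e (nat_lit 163965) (nat_lit 25) (.e (nat_lit 532499) (nat_lit 1) (.e (nat_lit 57927) (nat_lit 282) .nil)))))))) (.g (nat_lit 1) (.e (nat_lit 150947) (nat_lit 0) .nil) .nil))) 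
(.lf (nat_lit 494452) (.g (nat_lit 1851) (.e (nat_lit 163884) (nat_lit 5) (.e (nat_lit 221193) (nat_lit 11) (.e (nat_lit 336075) (nat_lit 9) (.e (nat_lit 336443) (nat_lit 32) (.e (nat_lit 466971) (nat_lit 21) (.e (nat_lit 164327) (nat_lit 230) .nil)))))) (.g (nat_lit 1) (.e (nat_lit 151803) (nat_lit 0) .nil) .nil))))) (.nd (nat_lit 8) (.nd (nat_lit 9) 
(.lf (nat_lit 493812) (.g (nat_lit 4972) (.e (nat_lit 163875) (nat_lit 3) (.e (nat_lit 204838) (nat_lit 20) (.e (nat_lit 114719) (nat_lit 23) (.e (nat_lit 98367) (nat_lit 27) (.e (nat_lit 434231) (nat_lit 23) (.e (nat_lit 532499) (nat_lit 1) (.e (nat_lit 57688) (nat_lit 156) .nil))))))) (.g (nat_lit 1) (.e (nat_lit 150657) (nat_lit 0) .nil) .nil))) 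
(.lf (nat_lit 494324) (.g (nat_lit 2944) (.e (nat_lit 163880) (nat_lit 4) (.e (nat_lit 213032) (nat_lit 11) (.e (nat_lit 24623) (nat_lit 9) (.e (nat_lit 336443) (nat_lit 32) (.e (nat_lit 466972) (nat_lit 21) .nil))))) (.g (nat_lit 0) (.e (nat_lit 151595) (nat_lit 0) .nil) .nil)))) (.nd (nat_lit 9) 
(.lf (nat_lit 494068) (.g (nat_lit 2590) (.e (nat_lit 163875) (nat_lit 3) (.e (nat_lit 204863) (nat_lit 27) (.e (nat_lit 344117) (nat_lit 21) (.e (nat_lit 516129) (nat_lit 3) (.e (nat_lit 221215) (nat_lit 23) (.e (nat_lit 204829) (nat_lit 18) (.e (nat_lit 57925) (nat_lit 282) .nil))))))) (.g (nat_lit 1) (.e (nat_lit 151075) (nat_lit 0) .nil) .nil))) 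
(.lf (nat_lit 494580) (.g (nat_lit 3981) (.e (nat_lit 163885) (nat_lit 5) (.e (nat_lit 221194) (nat_lit 11) (.e (nat_lit 336075) (nat_lit 9) (.e (nat_lit 336443) (nat_lit 32) (.e (nat_lit 466972) (nat_lit 21) (.e (nat_lit 164332) (nat_lit 230) .nil)))))) (.g (nat_lit 1) (.e (nat_lit 151975) (nat_lit 0) .nil) .nil))))))))) 
(.nd (nat_lit 4) (.nd (nat_lit 5) (.nd (nat_lit 6) (.nd (nat_lit 7) (.nd (nat_lit 8) 
(.nd (nat_lit 9) 
(.lf (nat_lit 493580) (.g (nat_lit 979) (.e (nat_lit 163875) (nat_lit 3) (.e (nat_lit 204830) (nat_lit 18) (.e (nat_lit 57908) (nat_lit 278) .nil))) (.g (nat_lit 0) (.e (nat_lit 150422) (nat_lit 0) .nil) .nil))) 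
(.lf (nat_lit 494092) (.g (nat_lit 4141) (.e (nat_lit 163875) (nat_lit 3) (.e (nat_lit 204863) (nat_lit 27) (.e (nat_lit 344117) (nat_lit 21) (.e (nat_lit 516130) (nat_lit 3) (.e (nat_lit 221215) (nat_lit 23) (.e (nat_lit 204829) (nat_lit 18) (.e (nat_lit 57927) (nat_lit 282) .nil))))))) (.g (nat_lit 1) (.e (nat_lit 151099) (nat_lit 0) .nil) .nil)))) (.nd (nat_lit 9) 
(.lf (nat_lit 493836) (.g (nat_lit 4385) (.e (nat_lit 163875) (nat_lit 3) (.e (nat_lit 204838) (nat_lit 20) (.e (nat_lit 114719) (nat_lit 23) (.e (nat_lit 98384) (nat_lit 32) (.e (nat_lit 475177) (nat_lit 24) (.e (nat_lit 516115) (nat_lit 1) (.e (nat_lit 164327) (nat_lit 230) .nil))))))) (.g (nat_lit 1) (.e (nat_lit 150681) (nat_lit 0) .nil) .nil))) 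
(.lf (nat_lit 494348) (.g (nat_lit 322) (.e (nat_lit 163881) (nat_lit 4) (.e (nat_lit 213030) (nat_lit 11) (.e (nat_lit 24660) (nat_lit 13) .nil))) (.g (nat_lit 0) (.e (nat_lit 151626) (nat_lit 0) .nil) .nil))))) (.nd (nat_lit 8) (.nd (nat_lit 9) 
(.lf (nat_lit 493708) (.g (nat_lit 5084) (.e (nat_lit 163875) (nat_lit 3) (.e (nat_lit 204837) (nat_lit 20) (.e (nat_lit 114719) (nat_lit 23) (.e (nat_lit 98367) (nat_lit 27) (.e (nat_lit 434231) (nat_lit 23) (.e (nat_lit 532500) (nat_lit 1) (.e (nat_lit 57692) (nat_lit 156) .nil))))))) (.g (nat_lit 1) (.e (nat_lit 150550) (nat_lit 0) .nil) .nil))) 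
(.lf (nat_lit 494220) (.g (nat_lit 1188) (.e (nat_lit 163877) (nat_lit 4) (.e (nat_lit 213032) (nat_lit 11) (.e (nat_lit 24658) (nat_lit 13) (.e (nat_lit 393281) (nat_lit 23) .nil)))) (.g (nat_lit 0) (.e (nat_lit 151454) (nat_lit 0) .nil) .nil)))) (.nd (nat_lit 9) 
(.lf (nat_lit 493964) (.g (nat_lit 932) (.e (nat_lit 163875) (nat_lit 3) (.e (nat_lit 204862) (nat_lit 27) (.e (nat_lit 344117) (nat_lit 21) (.e (nat_lit 516130) (nat_lit 3) .nil)))) (.g (nat_lit 0) (.e (nat_lit 150971) (nat_lit 0) .nil) .nil))) 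
(.lf (nat_lit 494476) (.g (nat_lit 2974) (.e (nat_lit 163884) (nat_lit 5) (.e (nat_lit 221194) (nat_lit 11) (.e (nat_lit 336074) (nat_lit 9) (.e (nat_lit 336443) (nat_lit 32) (.e (nat_lit 466971) (nat_lit 21) (.e (nat_lit 164329) (nat_lit 230) .nil)))))) (.g (nat_lit 1) (.e (nat_lit 151831) (nat_lit 0) .nil) .nil)))))) (.nd (nat_lit 7) (.nd (nat_lit 8) (.nd (nat_lit 9) 
(.lf (nat_lit 493644) (.g (nat_lit 3864) (.e (nat_lit 163875) (nat_lit 3) (.e (nat_lit 204837) (nat_lit 20) (.e (nat_lit 114718) (nat_lit 23) (.e (nat_lit 98366) (nat_lit 27) (.e (nat_lit 434231) (nat_lit 23) (.e (nat_lit 532499) (nat_lit 1) (.e (nat_lit 57692) (nat_lit 156) .nil))))))) (.g (nat_lit 1) (.e (nat_lit 150486) (nat_lit 0) .nil) .nil))) 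
(.lf (nat_lit 494156) (.g (nat_lit 4137) (.e (nat_lit 163875) (nat_lit 3) (.e (nat_lit 204872) (nat_lit 30) (.e (nat_lit 368676) (nat_lit 21) (.e (nat_lit 516131) (nat_lit 3) (.e (nat_lit 221215) (nat_lit 23) (.e (nat_lit 204830) (nat_lit 18) (.e (nat_lit 57926) (nat_lit 282) .nil))))))) (.g (nat_lit 1) (.e (nat_lit 151342) (nat_lit 0) .nil) .nil)))) (.nd (nat_lit 9) 
(.lf (nat_lit 493900) (.g (nat_lit 1221) (.e (nat_lit 163875) (nat_lit 3) (.e (nat_lit 204861) (nat_lit 26) (.e (nat_lit 336077) (nat_lit 9) (.e (nat_lit 336454) (nat_lit 34) (.e (nat_lit 483364) (nat_lit 18) .nil))))) (.g (nat_lit 0) (.e (nat_lit 150890) (nat_lit 0) .nil) .nil))) 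
(.lf (nat_lit 494412) (.g (nat_lit 3136) (.e (nat_lit 163882) (nat_lit 4) (.e (nat_lit 213032) (nat_lit 11) (.e (nat_lit 24626) (nat_lit 9) (.e (nat_lit 336443) (nat_lit 32) (.e (nat_lit 466969) (nat_lit 21) (.e (nat_lit 164326) (nat_lit 230) .nil)))))) (.g (nat_lit 1) (.e (nat_lit 151752) (nat_lit 0) .nil) .nil))))) (.nd (nat_lit 8) (.nd (nat_lit 9) 
(.lf (nat_lit 493772) (.g (nat_lit 3736) (.e (nat_lit 163875) (nat_lit 3) (.e (nat_lit 204838) (nat_lit 20) (.e (nat_lit 114718) (nat_lit 23) (.e (nat_lit 98367) (nat_lit 27) (.e (nat_lit 434231) (nat_lit 23) (.e (nat_lit 532499) (nat_lit 1) (.e (nat_lit 57686) (nat_lit 156) .nil))))))) (.g (nat_lit 1) (.e (nat_lit 150614) (nat_lit 0) .nil) .nil))) 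
(.lf (nat_lit 494284) (.g (nat_lit 1908) (.e (nat_lit 163879) (nat_lit 4) (.e (nat_lit 213032) (nat_lit 11) (.e (nat_lit 24629) (nat_lit 9) (.e (nat_lit 336430) (nat_lit 29) (.e (nat_lit 442421) (nat_lit 21) .nil))))) (.g (nat_lit 0) (.e (nat_lit 151531) (nat_lit 0) .nil) .nil)))) (.nd (nat_lit 9) 
(.lf (nat_lit 494028) (.g (nat_lit 2475) (.e (nat_lit 163875) (nat_lit 3) (.e (nat_lit 204862) (nat_lit 27) (.e (nat_lit 344130) (nat_lit 26) (.e (nat_lit 557097) (nat_lit 13) (.e (nat_lit 172065) (nat_lit 3) (.e (nat_lit 204830) (nat_lit 18) (.e (nat_lit 65280) (nat_lit 168) .nil))))))) (.g (nat_lit 1) (.e (nat_lit 151035) (nat_lit 0) .nil) .nil))) 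
(.lf (nat_lit 494540) (.g (nat_lit 2344) (.e (nat_lit 163885) (nat_lit 5) (.e (nat_lit 221191) (nat_lit 11) (.e (nat_lit 336152) (nat_lit 9) (.e (nat_lit 336442) (nat_lit 32) (.e (nat_lit 466969) (nat_lit 21) (.e (nat_lit 164331) (nat_lit 230) .nil)))))) (.g (nat_lit 1) (.e (nat_lit 151932) (nat_lit 0) .nil) .nil))))))) (.nd (nat_lit 6) (.nd (nat_lit 7) (.nd (nat_lit 8) (.nd (nat_lit 9) 
(.lf (nat_lit 493612) (.g (nat_lit 2629) (.e (nat_lit 163875) (nat_lit 3) (.e (nat_lit 204837) (nat_lit 20) (.e (nat_lit 114715) (nat_lit 22) (.e (nat_lit 90170) (nat_lit 13) (.e (nat_lit 172066) (nat_lit 3) (.e (nat_lit 204829) (nat_lit 18) (.e (nat_lit 57692) (nat_lit 156) .nil))))))) (.g (nat_lit 1) (.e (nat_lit 150454) (nat_lit 0) .nil) .nil))) 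
(.lf (nat_lit 494124) (.g (nat_lit 3410) (.e (nat_lit 163875) (nat_lit 3) (.e (nat_lit 204863) (nat_lit 27) (.e (nat_lit 344132) (nat_lit 26) (.e (nat_lit 557100) (nat_lit 13) (.e (nat_lit 172065) (nat_lit 3) (.e (nat_lit 204830) (nat_lit 18) (.e (nat_lit 65280) (nat_lit 168) .nil))))))) (.g (nat_lit 1) (.e (nat_lit 151131) (nat_lit 0) .nil) .nil)))) (.nd (nat_lit 9) 
(.lf (nat_lit 493868) (.g (nat_lit 2116) (.e (nat_lit 163875) (nat_lit 3) (.e (nat_lit 204852) (nat_lit 26) (.e (nat_lit 336211) (nat_lit 13) (.e (nat_lit 393225) (nat_lit 9) (.e (nat_lit 335988) (nat_lit 1) (.e (nat_lit 57927) (nat_lit 282) .nil)))))) (.g (nat_lit 1) (.e (nat_lit 150732) (nat_lit 0) .nil) .nil))) 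
(.lf (nat_lit 494380) (.g (nat_lit 2606) (.e (nat_lit 163881) (nat_lit 4) (.e (nat_lit 213032) (nat_lit 11) (.e (nat_lit 24660) (nat_lit 13) (.e (nat_lit 393282) (nat_lit 24) (.e (nat_lit 434209) (nat_lit 18) (.e (nat_lit 5224) (nat_lit 296) .nil)))))) (.g (nat_lit 1) (.e (nat_lit 151687) (nat_lit 0) .nil) .nil))))) (.nd (nat_lit 8) (.nd (nat_lit 9) 
(.lf (nat_lit 493740) (.g (nat_lit 4132) (.e (nat_lit 163875) (nat_lit 3) (.e (nat_lit 204838) (nat_lit 20) (.e (nat_lit 114715) (nat_lit 22) (.e (nat_lit 90170) (nat_lit 13) (.e (nat_lit 172065) (nat_lit 3) (.e (nat_lit 204830) (nat_lit 18) (.e (nat_lit 57685) (nat_lit 156) .nil))))))) (.g (nat_lit 1) (.e (nat_lit 150582) (nat_lit 0) .nil) .nil))) 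
(.lf (nat_lit 494252) (.g (nat_lit 3039) (.e (nat_lit 163878) (nat_lit 4) (.e (nat_lit 213032) (nat_lit 11) (.e (nat_lit 24626) (nat_lit 9) (.e (nat_lit 336443) (nat_lit 32) (.e (nat_lit 466971) (nat_lit 21) (.e (nat_lit 164322) (nat_lit 230) .nil)))))) (.g (nat_lit 1) (.e (nat_lit 151489) (nat_lit 0) .nil) .nil)))) (.nd (nat_lit 9) 
(.lf (nat_lit 493996) (.g (nat_lit 3469) (.e (nat_lit 163875) (nat_lit 3) (.e (nat_lit 204862) (nat_lit 27) (.e (nat_lit 344117) (nat_lit 21) (.e (nat_lit 516195) (nat_lit 26) (.e (nat_lit 336027) (nat_lit 3) (.e (nat_lit 98319) (nat_lit 17) (.e (nat_lit 2430) (nat_lit 157) (.e (nat_lit 6839) (nat_lit 369) .nil)))))))) (.g (nat_lit 1) (.e (nat_lit 151003) (nat_lit 0) .nil) .nil))) 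
(.lf (nat_lit 494508) (.g (nat_lit 2767) (.e (nat_lit 163884) (nat_lit 5) (.e (nat_lit 221194) (nat_lit 11) (.e (nat_lit 336084) (nat_lit 9) (.e (nat_lit 336443) (nat_lit 32) (.e (nat_lit 466971) (nat_lit 21) (.e (nat_lit 164329) (nat_lit 230) .nil)))))) (.g (nat_lit 1) (.e (nat_lit 151863) (nat_lit 0) .nil) .nil)))))) (.nd (nat_lit 7) (.nd (nat_lit 8) (.nd (nat_lit 9) 
(.lf (nat_lit 493676) (.g (nat_lit 2483) (.e (nat_lit 163875) (nat_lit 3) (.e (nat_lit 204837) (nat_lit 20) (.e (nat_lit 114719) (nat_lit 23) (.e (nat_lit 98363) (nat_lit 26) (.e (nat_lit 426129) (nat_lit 3) (.e (nat_lit 204829) (nat_lit 18) (.e (nat_lit 57688) (nat_lit 156) .nil))))))) (.g (nat_lit 1) (.e (nat_lit 150518) (nat_lit 0) .nil) .nil))) 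
(.lf (nat_lit 494188) (.g (nat_lit 595) (.e (nat_lit 163877) (nat_lit 4) (.e (nat_lit 213030) (nat_lit 11) (.e (nat_lit 24628) (nat_lit 9) .nil))) (.g (nat_lit 0) (.e (nat_lit 151418) (nat_lit 0) .nil) .nil)))) (.nd (nat_lit 9) 
(.lf (nat_lit 493932) (.g (nat_lit 2247) (.e (nat_lit 163875) (nat_lit 3) (.e (nat_lit 204862) (nat_lit 27) (.e (nat_lit 344117) (nat_lit 21) (.e (nat_lit 516122) (nat_lit 2) (.e (nat_lit 213037) (nat_lit 13) (.e (nat_lit 229433) (nat_lit 25) (.e (nat_lit 532501) (nat_lit 1) (.e (nat_lit 57927) (nat_lit 282) .nil)))))))) (.g (nat_lit 1) (.e (nat_lit 150939) (nat_lit 0) .nil) .nil))) 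
(.lf (nat_lit 494444) (.g (nat_lit 1732) (.e (nat_lit 163884) (nat_lit 5) (.e (nat_lit 221192) (nat_lit 11) (.e (nat_lit 336153) (nat_lit 9) (.e (nat_lit 336442) (nat_lit 32) (.e (nat_lit 466971) (nat_lit 21) (.e (nat_lit 164325) (nat_lit 230) .nil)))))) (.g (nat_lit 1) (.e (nat_lit 151795) (nat_lit 0) .nil) .nil))))) (.nd (nat_lit 8) (.nd (nat_lit 9) 
(.lf (nat_lit 493804) (.g (nat_lit 4123) (.e (nat_lit 163875) (nat_lit 3) (.e (nat_lit 204838) (nat_lit 20) (.e (nat_lit 114719) (nat_lit 23) (.e (nat_lit 98366) (nat_lit 27) (.e (nat_lit 434231) (nat_lit 23) (.e (nat_lit 532500) (nat_lit 1) (.e (nat_lit 57690) (nat_lit 156) .nil))))))) (.g (nat_lit 1) (.e (nat_lit 150649) (nat_lit 0) .nil) .nil))) 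
(.lf (nat_lit 494316) (.g (nat_lit 1845) (.e (nat_lit 163880) (nat_lit 4) (.e (nat_lit 213030) (nat_lit 11) (.e (nat_lit 24657) (nat_lit 13) (.e (nat_lit 393281) (nat_lit 23) (.e (nat_lit 426099) (nat_lit 1) .nil))))) (.g (nat_lit 0) (.e (nat_lit 151570) (nat_lit 0) .nil) .nil)))) (.nd (nat_lit 9) 
(.lf (nat_lit 494060) (.g (nat_lit 2663) (.e (nat_lit 163875) (nat_lit 3) (.e (nat_lit 204863) (nat_lit 27) (.e (nat_lit 344117) (nat_lit 21) (.e (nat_lit 516129) (nat_lit 3) (.e (nat_lit 221214) (nat_lit 23) (.e (nat_lit 204829) (nat_lit 18) (.e (nat_lit 57925) (nat_lit 282) .nil))))))) (.g (nat_lit 1) (.e (nat_lit 151067) (nat_lit 0) .nil) .nil))) 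
(.lf (nat_lit 494572) (.g (nat_lit 3635) (.e (nat_lit 163885) (nat_lit 5) (.e (nat_lit 221194) (nat_lit 11) (.e (nat_lit 336075) (nat_lit 9) (.e (nat_lit 336443) (nat_lit 32) (.e (nat_lit 466969) (nat_lit 21) (.e (nat_lit 164331) (nat_lit 230) .nil)))))) (.g (nat_lit 1) (.e (nat_lit 151967) (nat_lit 0) .nil) .nil)))))))) 
(.nd (nat_lit 5) (.nd (nat_lit 6) (.nd (nat_lit 7) (.nd (nat_lit 8) (.nd (nat_lit 9) 
(.lf (nat_lit 493596) (.g (nat_lit 2370) (.e (nat_lit 163875) (nat_lit 3) (.e (nat_lit 204836) (nat_lit 20) (.e (nat_lit 114719) (nat_lit 23) (.e (nat_lit 98367) (nat_lit 27) (.e (nat_lit 434232) (nat_lit 23) (.e (nat_lit 532503) (nat_lit 1) (.e (nat_lit 57685) (nat_lit 156) .nil))))))) (.g (nat_lit 1) (.e (nat_lit 150438) (nat_lit 0) .nil) .nil))) 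
(.lf (nat_lit 494108) (.g (nat_lit 3045) (.e (nat_lit 163875) (nat_lit 3) (.e (nat_lit 204863) (nat_lit 27) (.e (nat_lit 344129) (nat_lit 26) (.e (nat_lit 557103) (nat_lit 14) (.e (nat_lit 180243) (nat_lit 5) (.e (nat_lit 532503) (nat_lit 1) (.e (nat_lit 65280) (nat_lit 168) .nil))))))) (.g (nat_lit 1) (.e (nat_lit 151115) (nat_lit 0) .nil) .nil)))) (.nd (nat_lit 9) 
(.lf (nat_lit 493852) (.g (nat_lit 3338) (.e (nat_lit 163875) (nat_lit 3) (.e (nat_lit 204850) (nat_lit 26) (.e (nat_lit 336028) (nat_lit 3) (.e (nat_lit 98342) (nat_lit 20) (.e (nat_lit 221215) (nat_lit 23) (.e (nat_lit 204830) (nat_lit 18) (.e (nat_lit 57926) (nat_lit 282) .nil))))))) (.g (nat_lit 1) (.e (nat_lit 150699) (nat_lit 0) .nil) .nil))) 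
(.lf (nat_lit 494364) (.g (nat_lit 2065) (.e (nat_lit 163881) (nat_lit 4) (.e (nat_lit 213032) (nat_lit 11) (.e (nat_lit 24629) (nat_lit 9) (.e (nat_lit 336432) (nat_lit 30) (.e (nat_lit 450565) (nat_lit 0) (.e (nat_lit 5224) (nat_lit 296) .nil)))))) (.g (nat_lit 1) (.e (nat_lit 151664) (nat_lit 0) .nil) .nil))))) (.nd (nat_lit 8) (.nd (nat_lit 9) 
(.lf (nat_lit 493724) (.g (nat_lit 2726) (.e (nat_lit 163875) (nat_lit 3) (.e (nat_lit 204837) (nat_lit 20) (.e (nat_lit 114719) (nat_lit 23) (.e (nat_lit 98367) (nat_lit 27) (.e (nat_lit 434234) (nat_lit 23) (.e (nat_lit 532499) (nat_lit 1) (.e (nat_lit 57686) (nat_lit 156) .nil))))))) (.g (nat_lit 1) (.e (nat_lit 150566) (nat_lit 0) .nil) .nil))) 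
(.lf (nat_lit 494236) (.g (nat_lit 390) (.e (nat_lit 163878) (nat_lit 4) (.e (nat_lit 213030) (nat_lit 11) (.e (nat_lit 24659) (nat_lit 13) .nil))) (.g (nat_lit 0) (.e (nat_lit 151472) (nat_lit 0) .nil) .nil)))) (.nd (nat_lit 9) 
(.lf (nat_lit 493980) (.g (nat_lit 4848) (.e (nat_lit 163875) (nat_lit 3) (.e (nat_lit 204862) (nat_lit 27) (.e (nat_lit 344117) (nat_lit 21) (.e (nat_lit 516130) (nat_lit 3) (.e (nat_lit 221214) (nat_lit 23) (.e (nat_lit 204830) (nat_lit 18) (.e (nat_lit 57925) (nat_lit 282) .nil))))))) (.g (nat_lit 1) (.e (nat_lit 150987) (nat_lit 0) .nil) .nil))) 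
(.lf (nat_lit 494492) (.g (nat_lit 2716) (.e (nat_lit 163884) (nat_lit 5) (.e (nat_lit 221194) (nat_lit 11) (.e (nat_lit 336075) (nat_lit 9) (.e (nat_lit 336443) (nat_lit 32) (.e (nat_lit 466972) (nat_lit 21) (.e (nat_lit 164322) (nat_lit 230) .nil)))))) (.g (nat_lit 1) (.e (nat_lit 151847) (nat_lit 0) .nil) .nil)))))) (.nd (nat_lit 7) (.nd (nat_lit 8) (.nd (nat_lit 9) 
(.lf (nat_lit 493660) (.g (nat_lit 3288) (.e (nat_lit 163875) (nat_lit 3) (.e (nat_lit 204837) (nat_lit 20) (.e (nat_lit 114718) (nat_lit 23) (.e (nat_lit 98367) (nat_lit 27) (.e (nat_lit 434232) (nat_lit 23) (.e (nat_lit 532503) (nat_lit 1) (.e (nat_lit 57685) (nat_lit 156) .nil))))))) (.g (nat_lit 1) (.e (nat_lit 150502) (nat_lit 0) .nil) .nil))) 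
(.lf (nat_lit 494172) (.g (nat_lit 1526) (.e (nat_lit 163875) (nat_lit 3) (.e (nat_lit 204877) (nat_lit 31) (.e (nat_lit 376842) (nat_lit 11) (.e (nat_lit 426497) (nat_lit 27) (.e (nat_lit 335987) (nat_lit 1) (.e (nat_lit 57926) (nat_lit 282) .nil)))))) (.g (nat_lit 1) (.e (nat_lit 151369) (nat_lit 0) .nil) .nil)))) (.nd (nat_lit 9) 
(.lf (nat_lit 493916) (.g (nat_lit 2289) (.e (nat_lit 163875) (nat_lit 3) (.e (nat_lit 204861) (nat_lit 26) (.e (nat_lit 336215) (nat_lit 13) (.e (nat_lit 393229) (nat_lit 9) (.e (nat_lit 335986) (nat_lit 1) (.e (nat_lit 57925) (nat_lit 282) .nil)))))) (.g (nat_lit 1) (.e (nat_lit 150920) (nat_lit 0) .nil) .nil))) 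
(.lf (nat_lit 494428) (.g (nat_lit 905) (.e (nat_lit 163884) (nat_lit 5) (.e (nat_lit 221190) (nat_lit 11) (.e (nat_lit 336075) (nat_lit 9) (.e (nat_lit 336443) (nat_lit 32) .nil)))) (.g (nat_lit 0) (.e (nat_lit 151779) (nat_lit 0) .nil) .nil))))) (.nd (nat_lit 8) (.nd (nat_lit 9) 
(.lf (nat_lit 493788) (.g (nat_lit 402) (.e (nat_lit 163875) (nat_lit 3) (.e (nat_lit 204838) (nat_lit 20) (.e (nat_lit 114719) (nat_lit 23) .nil))) (.g (nat_lit 0) (.e (nat_lit 150630) (nat_lit 0) .nil) .nil))) 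
(.lf (nat_lit 494300) (.g (nat_lit 1661) (.e (nat_lit 163879) (nat_lit 4) (.e (nat_lit 213032) (nat_lit 11) (.e (nat_lit 24660) (nat_lit 13) (.e (nat_lit 393282) (nat_lit 24) (.e (nat_lit 434209) (nat_lit 18) .nil))))) (.g (nat_lit 0) (.e (nat_lit 151553) (nat_lit 0) .nil) .nil)))) (.nd (nat_lit 9) 
(.lf (nat_lit 494044) (.g (nat_lit 1991) (.e (nat_lit 163875) (nat_lit 3) (.e (nat_lit 204862) (nat_lit 27) (.e (nat_lit 344133) (nat_lit 26) (.e (nat_lit 557103) (nat_lit 14) (.e (nat_lit 180250) (nat_lit 10) .nil))))) (.g (nat_lit 0) (.e (nat_lit 151051) (nat_lit 0) .nil) .nil))) 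
(.lf (nat_lit 494556) (.g (nat_lit 2290) (.e (nat_lit 163885) (nat_lit 5) (.e (nat_lit 221193) (nat_lit 11) (.e (nat_lit 336077) (nat_lit 9) (.e (nat_lit 336443) (nat_lit 32) (.e (nat_lit 466971) (nat_lit 21) (.e (nat_lit 164329) (nat_lit 230) .nil)))))) (.g (nat_lit 1) (.e (nat_lit 151948) (nat_lit 0) .nil) .nil))))))) (.nd (nat_lit 6) (.nd (nat_lit 7) (.nd (nat_lit 8) (.nd (nat_lit 9) 
(.lf (nat_lit 493628) (.g (nat_lit 2400) (.e (nat_lit 163875) (nat_lit 3) (.e (nat_lit 204837) (nat_lit 20) (.e (nat_lit 114716) (nat_lit 22) (.e (nat_lit 90185) (nat_lit 17) (.e (nat_lit 237594) (nat_lit 3) (.e (nat_lit 204830) (nat_lit 18) (.e (nat_lit 57689) (nat_lit 156) .nil))))))) (.g (nat_lit 1) (.e (nat_lit 150470) (nat_lit 0) .nil) .nil))) 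
(.lf (nat_lit 494140) (.g (nat_lit 2445) (.e (nat_lit 163875) (nat_lit 3) (.e (nat_lit 204864) (nat_lit 27) (.e (nat_lit 344133) (nat_lit 26) (.e (nat_lit 557103) (nat_lit 14) (.e (nat_lit 180244) (nat_lit 5) (.e (nat_lit 532503) (nat_lit 1) (.e (nat_lit 65280) (nat_lit 168) .nil))))))) (.g (nat_lit 1) (.e (nat_lit 151147) (nat_lit 0) .nil) .nil)))) (.nd (nat_lit 9) 
(.lf (nat_lit 493884) (.g (nat_lit 2072) (.e (nat_lit 163875) (nat_lit 3) (.e (nat_lit 204861) (nat_lit 26) (.e (nat_lit 336075) (nat_lit 9) (.e (nat_lit 336455) (nat_lit 34) (.e (nat_lit 483363) (nat_lit 18) (.e (nat_lit 57927) (nat_lit 282) .nil)))))) (.g (nat_lit 1) (.e (nat_lit 150840) (nat_lit 0) .nil) .nil))) 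
(.lf (nat_lit 494396) (.g (nat_lit 1721) (.e (nat_lit 163882) (nat_lit 4) (.e (nat_lit 213030) (nat_lit 11) (.e (nat_lit 24654) (nat_lit 13) (.e (nat_lit 393281) (nat_lit 23) (.e (nat_lit 426098) (nat_lit 1) .nil))))) (.g (nat_lit 0) (.e (nat_lit 151713) (nat_lit 0) .nil) .nil))))) (.nd (nat_lit 8) (.nd (nat_lit 9) 
(.lf (nat_lit 493756) (.g (nat_lit 418) (.e (nat_lit 163875) (nat_lit 3) (.e (nat_lit 204838) (nat_lit 20) (.e (nat_lit 114716) (nat_lit 22) .nil))) (.g (nat_lit 0) (.e (nat_lit 150598) (nat_lit 0) .nil) .nil))) 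
(.lf (nat_lit 494268) (.g (nat_lit 2564) (.e (nat_lit 163879) (nat_lit 4) (.e (nat_lit 213030) (nat_lit 11) (.e (nat_lit 24629) (nat_lit 9) (.e (nat_lit 336426) (nat_lit 29) (.e (nat_lit 442421) (nat_lit 21) (.e (nat_lit 164326) (nat_lit 230) .nil)))))) (.g (nat_lit 1) (.e (nat_lit 151507) (nat_lit 0) .nil) .nil)))) (.nd (nat_lit 9) 
(.lf (nat_lit 494012) (.g (nat_lit 4566) (.e (nat_lit 163875) (nat_lit 3) (.e (nat_lit 204862) (nat_lit 27) (.e (nat_lit 344129) (nat_lit 26) (.e (nat_lit 557103) (nat_lit 14) (.e (nat_lit 180243) (nat_lit 5) (.e (nat_lit 532499) (nat_lit 1) (.e (nat_lit 65280) (nat_lit 168) .nil))))))) (.g (nat_lit 1) (.e (nat_lit 151019) (nat_lit 0) .nil) .nil))) 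
(.lf (nat_lit 494524) (.g (nat_lit 2849) (.e (nat_lit 163884) (nat_lit 5) (.e (nat_lit 221194) (nat_lit 11) (.e (nat_lit 336221) (nat_lit 13) (.e (nat_lit 393281) (nat_lit 23) (.e (nat_lit 426100) (nat_lit 1) (.e (nat_lit 164330) (nat_lit 230) .nil)))))) (.g (nat_lit 1) (.e (nat_lit 151880) (nat_lit 0) .nil) .nil)))))) (.nd (nat_lit 7) (.nd (nat_lit 8) (.nd (nat_lit 9) 
(.lf (nat_lit 493692) (.g (nat_lit 3992) (.e (nat_lit 163875) (nat_lit 3) (.e (nat_lit 204837) (nat_lit 20) (.e (nat_lit 114719) (nat_lit 23) (.e (nat_lit 98366) (nat_lit 27) (.e (nat_lit 434231) (nat_lit 23) (.e (nat_lit 532502) (nat_lit 1) (.e (nat_lit 57692) (nat_lit 156) .nil))))))) (.g (nat_lit 1) (.e (nat_lit 150534) (nat_lit 0) .nil) .nil))) 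
(.lf (nat_lit 494204) (.g (nat_lit 2226) (.e (nat_lit 163877) (nat_lit 4) (.e (nat_lit 213032) (nat_lit 11) (.e (nat_lit 24627) (nat_lit 9) (.e (nat_lit 336443) (nat_lit 32) (.e (nat_lit 466971) (nat_lit 21) .nil))))) (.g (nat_lit 0) (.e (nat_lit 151436) (nat_lit 0) .nil) .nil)))) (.nd (nat_lit 9) 
(.lf (nat_lit 493948) (.g (nat_lit 2284) (.e (nat_lit 163875) (nat_lit 3) (.e (nat_lit 204862) (nat_lit 27) (.e (nat_lit 344117) (nat_lit 21) (.e (nat_lit 516129) (nat_lit 3) (.e (nat_lit 221200) (nat_lit 20) .nil))))) (.g (nat_lit 0) (.e (nat_lit 150955) (nat_lit 0) .nil) .nil))) 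
(.lf (nat_lit 494460) (.g (nat_lit 2838) (.e (nat_lit 163884) (nat_lit 5) (.e (nat_lit 221193) (nat_lit 11) (.e (nat_lit 336077) (nat_lit 9) (.e (nat_lit 336443) (nat_lit 32) (.e (nat_lit 466969) (nat_lit 21) (.e (nat_lit 164332) (nat_lit 230) .nil)))))) (.g (nat_lit 1) (.e (nat_lit 151811) (nat_lit 0) .nil) .nil))))) (.nd (nat_lit 8) (.nd (nat_lit 9) 
(.lf (nat_lit 493820) (.g (nat_lit 2774) (.e (nat_lit 163875) (nat_lit 3) (.e (nat_lit 204838) (nat_lit 20) (.e (nat_lit 114719) (nat_lit 23) (.e (nat_lit 98367) (nat_lit 27) (.e (nat_lit 434232) (nat_lit 23) (.e (nat_lit 532499) (nat_lit 1) (.e (nat_lit 57686) (nat_lit 156) .nil))))))) (.g (nat_lit 1) (.e (nat_lit 150665) (nat_lit 0) .nil) .nil))) 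
(.lf (nat_lit 494332) (.g (nat_lit 2152) (.e (nat_lit 163880) (nat_lit 4) (.e (nat_lit 213032) (nat_lit 11) (.e (nat_lit 24659) (nat_lit 13) (.e (nat_lit 393281) (nat_lit 23) (.e (nat_lit 426099) (nat_lit 1) (.e (nat_lit 164330) (nat_lit 230) .nil)))))) (.g (nat_lit 1) (.e (nat_lit 151605) (nat_lit 0) .nil) .nil)))) (.nd (nat_lit 9) 
(.lf (nat_lit 494076) (.g (nat_lit 2380) (.e (nat_lit 163875) (nat_lit 3) (.e (nat_lit 204863) (nat_lit 27) (.e (nat_lit 344117) (nat_lit 21) (.e (nat_lit 516130) (nat_lit 3) (.e (nat_lit 221213) (nat_lit 23) (.e (nat_lit 204829) (nat_lit 18) (.e (nat_lit 57925) (nat_lit 282) .nil))))))) (.g (nat_lit 1) (.e (nat_lit 151083) (nat_lit 0) .nil) .nil))) 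
(.lf (nat_lit 494588) (.g (nat_lit 2879) (.e (nat_lit 163885) (nat_lit 5) (.e (nat_lit 221194) (nat_lit 11) (.e (nat_lit 336084) (nat_lit 9) (.e (nat_lit 336443) (nat_lit 32) (.e (nat_lit 466971) (nat_lit 21) (.e (nat_lit 164331) (nat_lit 230) .nil)))))) (.g (nat_lit 1) (.e (nat_lit 151983) (nat_lit 0) .nil) .nil))))))))))) 
(.nd (nat_lit 2) (.nd (nat_lit 3) (.nd (nat_lit 4) (.nd (nat_lit 5) (.nd (nat_lit 6) 
(.nd (nat_lit 7) (.nd (nat_lit 8) (.nd (nat_lit 9) 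
(.lf (nat_lit 493570) (.g (nat_lit 4606) (.e (nat_lit 163875) (nat_lit 3) (.e (nat_lit 204830) (nat_lit 18) (.e (nat_lit 57852) (nat_lit 252) (.e (nat_lit 57430) (nat_lit 16) (.e (nat_lit 368676) (nat_lit 21) (.e (nat_lit 516146) (nat_lit 9) (.e (nat_lit 426422) (nat_lit 16) (.e (nat_lit 57692) (nat_lit 156) .nil)))))))) (.g (nat_lit 1) (.e (nat_lit 150412) (nat_lit 0) .nil) .nil))) 
(.lf (nat_lit 494082) (.g (nat_lit 3533) (.e (nat_lit 163875) (nat_lit 3) (.e (nat_lit 204863) (nat_lit 27) (.e (nat_lit 344117) (nat_lit 21) (.e (nat_lit 516130) (nat_lit 3) (.e (nat_lit 221214) (nat_lit 23) (.e (nat_lit 204829) (nat_lit 18) (.e (nat_lit 57925) (nat_lit 282) .nil))))))) (.g (nat_lit 1) (.e (nat_lit 151089) (nat_lit 0) .nil) .nil)))) (.nd (nat_lit 9) 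
(.lf (nat_lit 493826) (.g (nat_lit 2288) (.e (nat_lit 163875) (nat_lit 3) (.e (nat_lit 204838) (nat_lit 20) (.e (nat_lit 114719) (nat_lit 23) (.e (nat_lit 98367) (nat_lit 27) (.e (nat_lit 434232) (nat_lit 23) (.e (nat_lit 532503) (nat_lit 1) (.e (nat_lit 57686) (nat_lit 156) .nil))))))) (.g (nat_lit 1) (.e (nat_lit 150671) (nat_lit 0) .nil) .nil))) 
(.lf (nat_lit 494338) (.g (nat_lit 2081) (.e (nat_lit 163881) (nat_lit 4) (.e (nat_lit 213030) (nat_lit 11) (.e (nat_lit 24624) (nat_lit 9) (.e (nat_lit 336443) (nat_lit 32) (.e (nat_lit 466969) (nat_lit 21) .nil))))) (.g (nat_lit 0) (.e (nat_lit 151614) (nat_lit 0) .nil) .nil))))) (.nd (nat_lit 8) (.nd (nat_lit 9) 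
(.lf (nat_lit 493698) (.g (nat_lit 1971) (.e (nat_lit 163875) (nat_lit 3) (.e (nat_lit 204837) (nat_lit 20) (.e (nat_lit 114719) (nat_lit 23) (.e (nat_lit 98366) (nat_lit 27) (.e (nat_lit 434233) (nat_lit 23) .nil))))) (.g (nat_lit 0) (.e (nat_lit 150540) (nat_lit 0) .nil) .nil))) 
(.lf (nat_lit 494210) (.g (nat_lit 2097) (.e (nat_lit 163877) (nat_lit 4) (.e (nat_lit 213032) (nat_lit 11) (.e (nat_lit 24629) (nat_lit 9) (.e (nat_lit 336443) (nat_lit 32) (.e (nat_lit 466972) (nat_lit 21) .nil))))) (.g (nat_lit 0) (.e (nat_lit 151442) (nat_lit 0) .nil) .nil)))) (.nd (nat_lit 9) 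
(.lf (nat_lit 493954) (.g (nat_lit 3872) (.e (nat_lit 163875) (nat_lit 3) (.e (nat_lit 204862) (nat_lit 27) (.e (nat_lit 344117) (nat_lit 21) (.e (nat_lit 516129) (nat_lit 3) (.e (nat_lit 221214) (nat_lit 23) (.e (nat_lit 204830) (nat_lit 18) (.e (nat_lit 57925) (nat_lit 282) .nil))))))) (.g (nat_lit 1) (.e (nat_lit 150961) (nat_lit 0) .nil) .nil))) 
(.lf (nat_lit 494466) (.g (nat_lit 2344) (.e (nat_lit 163884) (nat_lit 5) (.e (nat_lit 221193) (nat_lit 11) (.e (nat_lit 336084) (nat_lit 9) (.e (nat_lit 336443) (nat_lit 32) (.e (nat_lit 466969) (nat_lit 21) (.e (nat_lit 164326) (nat_lit 230) .nil)))))) (.g (nat_lit 1) (.e (nat_lit 151817) (nat_lit 0) .nil) .nil)))))) (.nd (nat_lit 7) (.nd (nat_lit 8) (.nd (nat_lit 9) 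
(.lf (nat_lit 493634) (.g (nat_lit 2455) (.e (nat_lit 163875) (nat_lit 3) (.e (nat_lit 204837) (nat_lit 20) (.e (nat_lit 114718) (nat_lit 23) (.e (nat_lit 98365) (nat_lit 26) (.e (nat_lit 426137) (nat_lit 3) (.e (nat_lit 204830) (nat_lit 18) (.e (nat_lit 57691) (nat_lit 156) .nil))))))) (.g (nat_lit 1) (.e (nat_lit 150476) (nat_lit 0) .nil) .nil))) 
(.lf (nat_lit 494146) (.g (nat_lit 2729) (.e (nat_lit 163875) (nat_lit 3) (.e (nat_lit 204865) (nat_lit 28) (.e (nat_lit 352277) (nat_lit 11) (.e (nat_lit 426500) (nat_lit 27) (.e (nat_lit 335988) (nat_lit 1) (.e (nat_lit 57925) (nat_lit 282) .nil)))))) (.g (nat_lit 1) (.e (nat_lit 151153) (nat_lit 0) .nil) .nil)))) (.nd (nat_lit 9) 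
(.lf (nat_lit 493890) (.g (nat_lit 3052) (.e (nat_lit 163875) (nat_lit 3) (.e (nat_lit 204861) (nat_lit 26) (.e (nat_lit 336076) (nat_lit 9) (.e (nat_lit 336370) (nat_lit 27) (.e (nat_lit 426499) (nat_lit 27) (.e (nat_lit 335986) (nat_lit 1) (.e (nat_lit 57927) (nat_lit 282) .nil))))))) (.g (nat_lit 1) (.e (nat_lit 150851) (nat_lit 0) .nil) .nil))) 
(.lf (nat_lit 494402) (.g (nat_lit 2005) (.e (nat_lit 163882) (nat_lit 4) (.e (nat_lit 213031) (nat_lit 11) (.e (nat_lit 24625) (nat_lit 9) (.e (nat_lit 336443) (nat_lit 32) (.e (nat_lit 466971) (nat_lit 21) .nil))))) (.g (nat_lit 0) (.e (nat_lit 151720) (nat_lit 0) .nil) .nil))))) (.nd (nat_lit 8) (.nd (nat_lit 9) 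
(.lf (nat_lit 493762) (.g (nat_lit 2600) (.e (nat_lit 163875) (nat_lit 3) (.e (nat_lit 204838) (nat_lit 20) (.e (nat_lit 114718) (nat_lit 23) (.e (nat_lit 98365) (nat_lit 26) (.e (nat_lit 426137) (nat_lit 3) (.e (nat_lit 204829) (nat_lit 18) (.e (nat_lit 57686) (nat_lit 156) .nil))))))) (.g (nat_lit 1) (.e (nat_lit 150604) (nat_lit 0) .nil) .nil))) 
(.lf (nat_lit 494274) (.g (nat_lit 998) (.e (nat_lit 163879) (nat_lit 4) (.e (nat_lit 213030) (nat_lit 11) (.e (nat_lit 24660) (nat_lit 13) (.e (nat_lit 401152) (nat_lit 23) .nil)))) (.g (nat_lit 0) (.e (nat_lit 151518) (nat_lit 0) .nil) .nil)))) (.nd (nat_lit 9) 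
(.lf (nat_lit 494018) (.g (nat_lit 4272) (.e (nat_lit 163875) (nat_lit 3) (.e (nat_lit 204862) (nat_lit 27) (.e (nat_lit 344129) (nat_lit 26) (.e (nat_lit 557103) (nat_lit 14) (.e (nat_lit 180244) (nat_lit 5) (.e (nat_lit 532503) (nat_lit 1) (.e (nat_lit 65280) (nat_lit 168) .nil))))))) (.g (nat_lit 1) (.e (nat_lit 151025) (nat_lit 0) .nil) .nil))) 
(.lf (nat_lit 494530) (.g (nat_lit 2720) (.e (nat_lit 163884) (nat_lit 5) (.e (nat_lit 221215) (nat_lit 23) (.e (nat_lit 204813) (nat_lit 9) (.e (nat_lit 426306) (nat_lit 12) (.e (nat_lit 475177) (nat_lit 24) .nil))))) (.g (nat_lit 0) (.e (nat_lit 151914) (nat_lit 0) .nil) .nil))))))) (.nd (nat_lit 6) (.nd (nat_lit 7) (.nd (nat_lit 8) (.nd (nat_lit 9) 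
(.lf (nat_lit 493602) (.g (nat_lit 449) (.e (nat_lit 163875) (nat_lit 3) (.e (nat_lit 204837) (nat_lit 20) (.e (nat_lit 114715) (nat_lit 22) .nil))) (.g (nat_lit 0) (.e (nat_lit 150444) (nat_lit 0) .nil) .nil))) 
(.lf (nat_lit 494114) (.g (nat_lit 3154) (.e (nat_lit 163875) (nat_lit 3) (.e (nat_lit 204863) (nat_lit 27) (.e (nat_lit 344129) (nat_lit 26) (.e (nat_lit 557104) (nat_lit 14) (.e (nat_lit 180244) (nat_lit 5) (.e (nat_lit 532499) (nat_lit 1) (.e (nat_lit 65280) (nat_lit 168) .nil))))))) (.g (nat_lit 1) (.e (nat_lit 151121) (nat_lit 0) .nil) .nil)))) (.nd (nat_lit 9) 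
(.lf (nat_lit 493858) (.g (nat_lit 2480) (.e (nat_lit 163875) (nat_lit 3) (.e (nat_lit 204851) (nat_lit 26) (.e (nat_lit 336019) (nat_lit 3) (.e (nat_lit 98342) (nat_lit 20) (.e (nat_lit 221214) (nat_lit 23) (.e (nat_lit 204829) (nat_lit 18) (.e (nat_lit 57926) (nat_lit 282) .nil))))))) (.g (nat_lit 1) (.e (nat_lit 150705) (nat_lit 0) .nil) .nil))) 
(.lf (nat_lit 494370) (.g (nat_lit 1180) (.e (nat_lit 163881) (nat_lit 4) (.e (nat_lit 213032) (nat_lit 11) (.e (nat_lit 24654) (nat_lit 13) (.e (nat_lit 393281) (nat_lit 23) .nil)))) (.g (nat_lit 0) (.e (nat_lit 151676) (nat_lit 0) .nil) .nil))))) (.nd (nat_lit 8) (.nd (nat_lit 9) 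
(.lf (nat_lit 493730) (.g (nat_lit 2905) (.e (nat_lit 163875) (nat_lit 3) (.e (nat_lit 204837) (nat_lit 20) (.e (nat_lit 114719) (nat_lit 23) (.e (nat_lit 98367) (nat_lit 27) (.e (nat_lit 434234) (nat_lit 23) (.e (nat_lit 532503) (nat_lit 1) (.e (nat_lit 57688) (nat_lit 156) .nil))))))) (.g (nat_lit 1) (.e (nat_lit 150572) (nat_lit 0) .nil) .nil))) 
(.lf (nat_lit 494242) (.g (nat_lit 1339) (.e (nat_lit 163878) (nat_lit 4) (.e (nat_lit 213031) (nat_lit 11) (.e (nat_lit 24655) (nat_lit 13) (.e (nat_lit 393281) (nat_lit 23) .nil)))) (.g (nat_lit 0) (.e (nat_lit 151478) (nat_lit 0) .nil) .nil)))) (.nd (nat_lit 9) 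
(.lf (nat_lit 493986) (.g (nat_lit 3260) (.e (nat_lit 163875) (nat_lit 3) (.e (nat_lit 204862) (nat_lit 27) (.e (nat_lit 344117) (nat_lit 21) (.e (nat_lit 516130) (nat_lit 3) (.e (nat_lit 221215) (nat_lit 23) (.e (nat_lit 204828) (nat_lit 18) (.e (nat_lit 57928) (nat_lit 282) .nil))))))) (.g (nat_lit 1) (.e (nat_lit 150993) (nat_lit 0) .nil) .nil))) 
(.lf (nat_lit 494498) (.g (nat_lit 2912) (.e (nat_lit 163884) (nat_lit 5) (.e (nat_lit 221194) (nat_lit 11) (.e (nat_lit 336077) (nat_lit 9) (.e (nat_lit 336443) (nat_lit 32) (.e (nat_lit 466969) (nat_lit 21) (.e (nat_lit 164326) (nat_lit 230) .nil)))))) (.g (nat_lit 1) (.e (nat_lit 151853) (nat_lit 0) .nil) .nil)))))) (.nd (nat_lit 7) (.nd (nat_lit 8) (.nd (nat_lit 9) 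
(.lf (nat_lit 493666) (.g (nat_lit 2455) (.e (nat_lit 163875) (nat_lit 3) (.e (nat_lit 204837) (nat_lit 20) (.e (nat_lit 114718) (nat_lit 23) (.e (nat_lit 98367) (nat_lit 27) (.e (nat_lit 434234) (nat_lit 23) (.e (nat_lit 532499) (nat_lit 1) (.e (nat_lit 57691) (nat_lit 156) .nil))))))) (.g (nat_lit 1) (.e (nat_lit 150508) (nat_lit 0) .nil) .nil))) 
(.lf (nat_lit 494178) (.g (nat_lit 3155) (.e (nat_lit 163875) (nat_lit 3) (.e (nat_lit 204877) (nat_lit 31) (.e (nat_lit 376842) (nat_lit 11) (.e (nat_lit 426500) (nat_lit 27) (.e (nat_lit 335988) (nat_lit 1) (.e (nat_lit 57926) (nat_lit 282) .nil)))))) (.g (nat_lit 1) (.e (nat_lit 151375) (nat_lit 0) .nil) .nil)))) (.nd (nat_lit 9) 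
(.lf (nat_lit 493922) (.g (nat_lit 1324) (.e (nat_lit 163875) (nat_lit 3) (.e (nat_lit 204862) (nat_lit 27) (.e (nat_lit 344117) (nat_lit 21) (.e (nat_lit 516122) (nat_lit 2) .nil)))) (.g (nat_lit 0) (.e (nat_lit 150929) (nat_lit 0) .nil) .nil))) 
(.lf (nat_lit 494434) (.g (nat_lit 634) (.e (nat_lit 163884) (nat_lit 5) (.e (nat_lit 221190) (nat_lit 11) (.e (nat_lit 336077) (nat_lit 9) (.e (nat_lit 336443) (nat_lit 32) .nil)))) (.g (nat_lit 0) (.e (nat_lit 151785) (nat_lit 0) .nil) .nil))))) (.nd (nat_lit 8) (.nd (nat_lit 9) 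
(.lf (nat_lit 493794) (.g (nat_lit 2221) (.e (nat_lit 163875) (nat_lit 3) (.e (nat_lit 204838) (nat_lit 20) (.e (nat_lit 114719) (nat_lit 23) (.e (nat_lit 98363) (nat_lit 26) (.e (nat_lit 426129) (nat_lit 3) (.e (nat_lit 204830) (nat_lit 18) (.e (nat_lit 57691) (nat_lit 156) .nil))))))) (.g (nat_lit 1) (.e (nat_lit 150636) (nat_lit 0) .nil) .nil))) 
(.lf (nat_lit 494306) (.g (nat_lit 2482) (.e (nat_lit 163880) (nat_lit 4) (.e (nat_lit 213030) (nat_lit 11) (.e (nat_lit 24617) (nat_lit 7) (.e (nat_lit 319534) (nat_lit 16) (.e (nat_lit 286756) (nat_lit 10) .nil))))) (.g (nat_lit 0) (.e (nat_lit 151559) (nat_lit 0) .nil) .nil)))) (.nd (nat_lit 9) 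
(.lf (nat_lit 494050) (.g (nat_lit 1962) (.e (nat_lit 163875) (nat_lit 3) (.e (nat_lit 204863) (nat_lit 27) (.e (nat_lit 344117) (nat_lit 21) (.e (nat_lit 516122) (nat_lit 2) (.e (nat_lit 213036) (nat_lit 13) .nil))))) (.g (nat_lit 0) (.e (nat_lit 151057) (nat_lit 0) .nil) .nil))) 
(.lf (nat_lit 494562) (.g (nat_lit 3104) (.e (nat_lit 163885) (nat_lit 5) (.e (nat_lit 221194) (nat_lit 11) (.e (nat_lit 336074) (nat_lit 9) (.e (nat_lit 336443) (nat_lit 32) (.e (nat_lit 466969) (nat_lit 21) (.e (nat_lit 164329) (nat_lit 230) .nil)))))) (.g (nat_lit 1) (.e (nat_lit 151957) (nat_lit 0) .nil) .nil)))))))) 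
(.nd (nat_lit 5) (.nd (nat_lit 6) (.nd (nat_lit 7) (.nd (nat_lit 8) (.nd (nat_lit 9) 
(.lf (nat_lit 493586) (.g (nat_lit 2986) (.e (nat_lit 163875) (nat_lit 3) (.e (nat_lit 204836) (nat_lit 20) (.e (nat_lit 114715) (nat_lit 22) (.e (nat_lit 90170) (nat_lit 13) (.e (nat_lit 172067) (nat_lit 3) (.e (nat_lit 204830) (nat_lit 18) (.e (nat_lit 57689) (nat_lit 156) .nil))))))) (.g (nat_lit 1) (.e (nat_lit 150428) (nat_lit 0) .nil) .nil))) 
(.lf (nat_lit 494098) (.g (nat_lit 2015) (.e (nat_lit 163875) (nat_lit 3) (.e (nat_lit 204863) (nat_lit 27) (.e (nat_lit 344117) (nat_lit 21) (.e (nat_lit 516131) (nat_lit 3) .nil)))) (.g (nat_lit 0) (.e (nat_lit 151105) (nat_lit 0) .nil) .nil)))) (.nd (nat_lit 9) 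
(.lf (nat_lit 493842) (.g (nat_lit 2427) (.e (nat_lit 163875) (nat_lit 3) (.e (nat_lit 204850) (nat_lit 26) (.e (nat_lit 336019) (nat_lit 3) (.e (nat_lit 98342) (nat_lit 20) (.e (nat_lit 221214) (nat_lit 23) (.e (nat_lit 204829) (nat_lit 18) (.e (nat_lit 57927) (nat_lit 282) .nil))))))) (.g (nat_lit 1) (.e (nat_lit 150689) (nat_lit 0) .nil) .nil))) 
(.lf (nat_lit 494354) (.g (nat_lit 2976) (.e (nat_lit 163881) (nat_lit 4) (.e (nat_lit 213032) (nat_lit 11) (.e (nat_lit 24625) (nat_lit 9) (.e (nat_lit 336443) (nat_lit 32) (.e (nat_lit 466969) (nat_lit 21) (.e (nat_lit 164325) (nat_lit 230) .nil)))))) (.g (nat_lit 1) (.e (nat_lit 151654) (nat_lit 0) .nil) .nil))))) (.nd (nat_lit 8) (.nd (nat_lit 9) 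
(.lf (nat_lit 493714) (.g (nat_lit 2928) (.e (nat_lit 163875) (nat_lit 3) (.e (nat_lit 204837) (nat_lit 20) (.e (nat_lit 114719) (nat_lit 23) (.e (nat_lit 98367) (nat_lit 27) (.e (nat_lit 434232) (nat_lit 23) (.e (nat_lit 532501) (nat_lit 1) (.e (nat_lit 57692) (nat_lit 156) .nil))))))) (.g (nat_lit 1) (.e (nat_lit 150556) (nat_lit 0) .nil) .nil))) 
(.lf (nat_lit 494226) (.g (nat_lit 1990) (.e (nat_lit 163878) (nat_lit 4) (.e (nat_lit 213030) (nat_lit 11) (.e (nat_lit 24624) (nat_lit 9) (.e (nat_lit 336443) (nat_lit 32) (.e (nat_lit 466972) (nat_lit 21) .nil))))) (.g (nat_lit 0) (.e (nat_lit 151460) (nat_lit 0) .nil) .nil)))) (.nd (nat_lit 9) 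
(.lf (nat_lit 493970) (.g (nat_lit 3036) (.e (nat_lit 163875) (nat_lit 3) (.e (nat_lit 204862) (nat_lit 27) (.e (nat_lit 344117) (nat_lit 21) (.e (nat_lit 516130) (nat_lit 3) (.e (nat_lit 221213) (nat_lit 23) (.e (nat_lit 204830) (nat_lit 18) (.e (nat_lit 57924) (nat_lit 282) .nil))))))) (.g (nat_lit 1) (.e (nat_lit 150977) (nat_lit 0) .nil) .nil))) 
(.lf (nat_lit 494482) (.g (nat_lit 3429) (.e (nat_lit 163884) (nat_lit 5) (.e (nat_lit 221194) (nat_lit 11) (.e (nat_lit 336075) (nat_lit 9) (.e (nat_lit 336443) (nat_lit 32) (.e (nat_lit 466969) (nat_lit 21) (.e (nat_lit 164329) (nat_lit 230) .nil)))))) (.g (nat_lit 1) (.e (nat_lit 151837) (nat_lit 0) .nil) .nil)))))) (.nd (nat_lit 7) (.nd (nat_lit 8) (.nd (nat_lit 9) 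
(.lf (nat_lit 493650) (.g (nat_lit 3873) (.e (nat_lit 163875) (nat_lit 3) (.e (nat_lit 204837) (nat_lit 20) (.e (nat_lit 114718) (nat_lit 23) (.e (nat_lit 98367) (nat_lit 27) (.e (nat_lit 434231) (nat_lit 23) (.e (nat_lit 532500) (nat_lit 1) (.e (nat_lit 57685) (nat_lit 156) .nil))))))) (.g (nat_lit 1) (.e (nat_lit 150492) (nat_lit 0) .nil) .nil))) 
(.lf (nat_lit 494162) (.g (nat_lit 2404) (.e (nat_lit 163875) (nat_lit 3) (.e (nat_lit 204873) (nat_lit 30) (.e (nat_lit 368676) (nat_lit 21) (.e (nat_lit 516131) (nat_lit 3) (.e (nat_lit 221215) (nat_lit 23) (.e (nat_lit 204830) (nat_lit 18) (.e (nat_lit 57925) (nat_lit 282) .nil))))))) (.g (nat_lit 1) (.e (nat_lit 151359) (nat_lit 0) .nil) .nil)))) (.nd (nat_lit 9) 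
(.lf (nat_lit 493906) (.g (nat_lit 2139) (.e (nat_lit 163875) (nat_lit 3) (.e (nat_lit 204861) (nat_lit 26) (.e (nat_lit 336213) (nat_lit 13) (.e (nat_lit 393225) (nat_lit 9) (.e (nat_lit 335913) (nat_lit 0) .nil))))) (.g (nat_lit 0) (.e (nat_lit 150903) (nat_lit 0) .nil) .nil))) 
(.lf (nat_lit 494418) (.g (nat_lit 538) (.e (nat_lit 163882) (nat_lit 4) (.e (nat_lit 213032) (nat_lit 11) (.e (nat_lit 24629) (nat_lit 9) .nil))) (.g (nat_lit 0) (.e (nat_lit 151758) (nat_lit 0) .nil) .nil))))) (.nd (nat_lit 8) (.nd (nat_lit 9) 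
(.lf (nat_lit 493778) (.g (nat_lit 2810) (.e (nat_lit 163875) (nat_lit 3) (.e (nat_lit 204838) (nat_lit 20) (.e (nat_lit 114718) (nat_lit 23) (.e (nat_lit 98367) (nat_lit 27) (.e (nat_lit 434232) (nat_lit 23) (.e (nat_lit 532499) (nat_lit 1) (.e (nat_lit 57692) (nat_lit 156) .nil))))))) (.g (nat_lit 1) (.e (nat_lit 150620) (nat_lit 0) .nil) .nil))) 
(.lf (nat_lit 494290) (.g (nat_lit 938) (.e (nat_lit 163879) (nat_lit 4) (.e (nat_lit 213032) (nat_lit 11) (.e (nat_lit 24659) (nat_lit 13) .nil))) (.g (nat_lit 0) (.e (nat_lit 151543) (nat_lit 0) .nil) .nil)))) (.nd (nat_lit 9) 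
(.lf (nat_lit 494034) (.g (nat_lit 3228) (.e (nat_lit 163875) (nat_lit 3) (.e (nat_lit 204862) (nat_lit 27) (.e (nat_lit 344130) (nat_lit 26) (.e (nat_lit 557103) (nat_lit 14) (.e (nat_lit 180244) (nat_lit 5) (.e (nat_lit 532499) (nat_lit 1) (.e (nat_lit 65280) (nat_lit 168) .nil))))))) (.g (nat_lit 1) (.e (nat_lit 151041) (nat_lit 0) .nil) .nil))) 
(.lf (nat_lit 494546) (.g (nat_lit 2233) (.e (nat_lit 163885) (nat_lit 5) (.e (nat_lit 221191) (nat_lit 11) (.e (nat_lit 336153) (nat_lit 9) (.e (nat_lit 336442) (nat_lit 32) (.e (nat_lit 466969) (nat_lit 21) (.e (nat_lit 164332) (nat_lit 230) .nil)))))) (.g (nat_lit 1) (.e (nat_lit 151938) (nat_lit 0) .nil) .nil))))))) (.nd (nat_lit 6) (.nd (nat_lit 7) (.nd (nat_lit 8) (.nd (nat_lit 9) 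
(.lf (nat_lit 493618) (.g (nat_lit 3810) (.e (nat_lit 163875) (nat_lit 3) (.e (nat_lit 204837) (nat_lit 20) (.e (nat_lit 114715) (nat_lit 22) (.e (nat_lit 90170) (nat_lit 13) (.e (nat_lit 172067) (nat_lit 3) (.e (nat_lit 204830) (nat_lit 18) (.e (nat_lit 57690) (nat_lit 156) .nil))))))) (.g (nat_lit 1) (.e (nat_lit 150460) (nat_lit 0) .nil) .nil))) 
(.lf (nat_lit 494130) (.g (nat_lit 2497) (.e (nat_lit 163875) (nat_lit 3) (.e (nat_lit 204863) (nat_lit 27) (.e (nat_lit 344133) (nat_lit 26) (.e (nat_lit 557103) (nat_lit 14) (.e (nat_lit 180250) (nat_lit 10) .nil))))) (.g (nat_lit 0) (.e (nat_lit 151137) (nat_lit 0) .nil) .nil)))) (.nd (nat_lit 9) 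
(.lf (nat_lit 493874) (.g (nat_lit 452) (.e (nat_lit 163875) (nat_lit 3) (.e (nat_lit 204861) (nat_lit 26) (.e (nat_lit 336075) (nat_lit 9) .nil))) (.g (nat_lit 0) (.e (nat_lit 150791) (nat_lit 0) .nil) .nil))) 
(.lf (nat_lit 494386) (.g (nat_lit 2336) (.e (nat_lit 163882) (nat_lit 4) (.e (nat_lit 213030) (nat_lit 11) (.e (nat_lit 24617) (nat_lit 7) (.e (nat_lit 319534) (nat_lit 16) (.e (nat_lit 286756) (nat_lit 10) .nil))))) (.g (nat_lit 0) (.e (nat_lit 151697) (nat_lit 0) .nil) .nil))))) (.nd (nat_lit 8) (.nd (nat_lit 9) 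
(.lf (nat_lit 493746) (.g (nat_lit 3384) (.e (nat_lit 163875) (nat_lit 3) (.e (nat_lit 204838) (nat_lit 20) (.e (nat_lit 114715) (nat_lit 22) (.e (nat_lit 90170) (nat_lit 13) (.e (nat_lit 172067) (nat_lit 3) (.e (nat_lit 204830) (nat_lit 18) (.e (nat_lit 57685) (nat_lit 156) .nil))))))) (.g (nat_lit 1) (.e (nat_lit 150588) (nat_lit 0) .nil) .nil))) 
(.lf (nat_lit 494258) (.g (nat_lit 1803) (.e (nat_lit 163878) (nat_lit 4) (.e (nat_lit 213032) (nat_lit 11) (.e (nat_lit 24628) (nat_lit 9) (.e (nat_lit 336443) (nat_lit 32) (.e (nat_lit 466971) (nat_lit 21) .nil))))) (.g (nat_lit 0) (.e (nat_lit 151495) (nat_lit 0) .nil) .nil)))) (.nd (nat_lit 9) 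
(.lf (nat_lit 494002) (.g (nat_lit 4045) (.e (nat_lit 163875) (nat_lit 3) (.e (nat_lit 204862) (nat_lit 27) (.e (nat_lit 344117) (nat_lit 21) (.e (nat_lit 516195) (nat_lit 26) (.e (nat_lit 336027) (nat_lit 3) (.e (nat_lit 98334) (nat_lit 18) (.e (nat_lit 171776) (nat_lit 162) .nil))))))) (.g (nat_lit 1) (.e (nat_lit 151009) (nat_lit 0) .nil) .nil))) 
(.lf (nat_lit 494514) (.g (nat_lit 2115) (.e (nat_lit 163884) (nat_lit 5) (.e (nat_lit 221194) (nat_lit 11) (.e (nat_lit 336087) (nat_lit 9) (.e (nat_lit 336426) (nat_lit 29) (.e (nat_lit 442421) (nat_lit 21) (.e (nat_lit 164332) (nat_lit 230) .nil)))))) (.g (nat_lit 1) (.e (nat_lit 151869) (nat_lit 0) .nil) .nil)))))) (.nd (nat_lit 7) (.nd (nat_lit 8) (.nd (nat_lit 9) 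
(.lf (nat_lit 493682) (.g (nat_lit 2593) (.e (nat_lit 163875) (nat_lit 3) (.e (nat_lit 204837) (nat_lit 20) (.e (nat_lit 114719) (nat_lit 23) (.e (nat_lit 98365) (nat_lit 26) (.e (nat_lit 426138) (nat_lit 3) (.e (nat_lit 204831) (nat_lit 18) (.e (nat_lit 57687) (nat_lit 156) .nil))))))) (.g (nat_lit 1) (.e (nat_lit 150524) (nat_lit 0) .nil) .nil))) 
(.lf (nat_lit 494194) (.g (nat_lit 2302) (.e (nat_lit 163877) (nat_lit 4) (.e (nat_lit 213032) (nat_lit 11) (.e (nat_lit 24624) (nat_lit 9) (.e (nat_lit 336443) (nat_lit 32) (.e (nat_lit 466971) (nat_lit 21) .nil))))) (.g (nat_lit 0) (.e (nat_lit 151426) (nat_lit 0) .nil) .nil)))) (.nd (nat_lit 9) 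
(.lf (nat_lit 493938) (.g (nat_lit 2911) (.e (nat_lit 163875) (nat_lit 3) (.e (nat_lit 204862) (nat_lit 27) (.e (nat_lit 344117) (nat_lit 21) (.e (nat_lit 516123) (nat_lit 2) (.e (nat_lit 213034) (nat_lit 12) (.e (nat_lit 163963) (nat_lit 25) (.e (nat_lit 532499) (nat_lit 1) (.e (nat_lit 57927) (nat_lit 282) .nil)))))))) (.g (nat_lit 1) (.e (nat_lit 150945) (nat_lit 0) .nil) .nil))) 
(.lf (nat_lit 494450) (.g (nat_lit 1927) (.e (nat_lit 163884) (nat_lit 5) (.e (nat_lit 221193) (nat_lit 11) (.e (nat_lit 336075) (nat_lit 9) (.e (nat_lit 336443) (nat_lit 32) (.e (nat_lit 466969) (nat_lit 21) (.e (nat_lit 164332) (nat_lit 230) .nil)))))) (.g (nat_lit 1) (.e (nat_lit 151801) (nat_lit 0) .nil) .nil))))) (.nd (nat_lit 8) (.nd (nat_lit 9) 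
(.lf (nat_lit 493810) (.g (nat_lit 4400) (.e (nat_lit 163875) (nat_lit 3) (.e (nat_lit 204838) (nat_lit 20) (.e (nat_lit 114719) (nat_lit 23) (.e (nat_lit 98367) (nat_lit 27) (.e (nat_lit 434231) (nat_lit 23) (.e (nat_lit 532499) (nat_lit 1) (.e (nat_lit 57686) (nat_lit 156) .nil))))))) (.g (nat_lit 1) (.e (nat_lit 150655) (nat_lit 0) .nil) .nil))) 
(.lf (nat_lit 494322) (.g (nat_lit 2121) (.e (nat_lit 163880) (nat_lit 4) (.e (nat_lit 213031) (nat_lit 11) (.e (nat_lit 24655) (nat_lit 13) (.e (nat_lit 393281) (nat_lit 23) (.e (nat_lit 426108) (nat_lit 1) .nil))))) (.g (nat_lit 0) (.e (nat_lit 151577) (nat_lit 0) .nil) .nil)))) (.nd (nat_lit 9) 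
(.lf (nat_lit 494066) (.g (nat_lit 3350) (.e (nat_lit 163875) (nat_lit 3) (.e (nat_lit 204863) (nat_lit 27) (.e (nat_lit 344117) (nat_lit 21) (.e (nat_lit 516129) (nat_lit 3) (.e (nat_lit 221214) (nat_lit 23) (.e (nat_lit 204830) (nat_lit 18) (.e (nat_lit 57927) (nat_lit 282) .nil))))))) (.g (nat_lit 1) (.e (nat_lit 151073) (nat_lit 0) .nil) .nil))) 
(.lf (nat_lit 494578) (.g (nat_lit 3743) (.e (nat_lit 163885) (nat_lit 5) (.e (nat_lit 221194) (nat_lit 11) (.e (nat_lit 336075) (nat_lit 9) (.e (nat_lit 336443) (nat_lit 32) (.e (nat_lit 466972) (nat_lit 21) (.e (nat_lit 164330) (nat_lit 230) .nil)))))) (.g (nat_lit 1) (.e (nat_lit 151973) (nat_lit 0) .nil) .nil))))))))) 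
(.nd (nat_lit 4) (.nd (nat_lit 5) (.nd (nat_lit 6) (.nd (nat_lit 7) (.nd (nat_lit 8) 
(.nd (nat_lit 9) 
(.lf (nat_lit 493578) (.g (nat_lit 3870) (.e (nat_lit 163875) (nat_lit 3) (.e (nat_lit 204830) (nat_lit 18) (.e (nat_lit 57854) (nat_lit 252) (.e (nat_lit 57409) (nat_lit 12) (.e (nat_lit 336019) (nat_lit 3) (.e (nat_lit 98356) (nat_lit 26) (.e (nat_lit 426422) (nat_lit 16) (.e (nat_lit 57692) (nat_lit 156) .nil)))))))) (.g (nat_lit 1) (.e (nat_lit 150420) (nat_lit 0) .nil) .nil))) 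
(.lf (nat_lit 494090) (.g (nat_lit 3673) (.e (nat_lit 163875) (nat_lit 3) (.e (nat_lit 204863) (nat_lit 27) (.e (nat_lit 344117) (nat_lit 21) (.e (nat_lit 516130) (nat_lit 3) (.e (nat_lit 221215) (nat_lit 23) (.e (nat_lit 204829) (nat_lit 18) (.e (nat_lit 57925) (nat_lit 282) .nil))))))) (.g (nat_lit 1) (.e (nat_lit 151097) (nat_lit 0) .nil) .nil)))) (.nd (nat_lit 9) 
(.lf (nat_lit 493834) (.g (nat_lit 2192) (.e (nat_lit 163875) (nat_lit 3) (.e (nat_lit 204838) (nat_lit 20) (.e (nat_lit 114719) (nat_lit 23) (.e (nat_lit 98367) (nat_lit 27) (.e (nat_lit 434234) (nat_lit 23) (.e (nat_lit 532502) (nat_lit 1) (.e (nat_lit 57692) (nat_lit 156) .nil))))))) (.g (nat_lit 1) (.e (nat_lit 150679) (nat_lit 0) .nil) .nil))) 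
(.lf (nat_lit 494346) (.g (nat_lit 1854) (.e (nat_lit 163881) (nat_lit 4) (.e (nat_lit 213030) (nat_lit 11) (.e (nat_lit 24657) (nat_lit 13) (.e (nat_lit 393281) (nat_lit 23) (.e (nat_lit 426098) (nat_lit 1) .nil))))) (.g (nat_lit 0) (.e (nat_lit 151624) (nat_lit 0) .nil) .nil))))) (.nd (nat_lit 8) (.nd (nat_lit 9) 
(.lf (nat_lit 493706) (.g (nat_lit 4343) (.e (nat_lit 163875) (nat_lit 3) (.e (nat_lit 204837) (nat_lit 20) (.e (nat_lit 114719) (nat_lit 23) (.e (nat_lit 98367) (nat_lit 27) (.e (nat_lit 434231) (nat_lit 23) (.e (nat_lit 532500) (nat_lit 1) (.e (nat_lit 57685) (nat_lit 156) .nil))))))) (.g (nat_lit 1) (.e (nat_lit 150548) (nat_lit 0) .nil) .nil))) 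
(.lf (nat_lit 494218) (.g (nat_lit 1936) (.e (nat_lit 163877) (nat_lit 4) (.e (nat_lit 213032) (nat_lit 11) (.e (nat_lit 24657) (nat_lit 13) (.e (nat_lit 393281) (nat_lit 23) (.e (nat_lit 426100) (nat_lit 1) .nil))))) (.g (nat_lit 0) (.e (nat_lit 151452) (nat_lit 0) .nil) .nil)))) (.nd (nat_lit 9) 
(.lf (nat_lit 493962) (.g (nat_lit 3631) (.e (nat_lit 163875) (nat_lit 3) (.e (nat_lit 204862) (nat_lit 27) (.e (nat_lit 344117) (nat_lit 21) (.e (nat_lit 516129) (nat_lit 3) (.e (nat_lit 221215) (nat_lit 23) (.e (nat_lit 204830) (nat_lit 18) (.e (nat_lit 57927) (nat_lit 282) .nil))))))) (.g (nat_lit 1) (.e (nat_lit 150969) (nat_lit 0) .nil) .nil))) 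
(.lf (nat_lit 494474) (.g (nat_lit 763) (.e (nat_lit 163884) (nat_lit 5) (.e (nat_lit 221194) (nat_lit 11) (.e (nat_lit 336074) (nat_lit 9) .nil))) (.g (nat_lit 0) (.e (nat_lit 151829) (nat_lit 0) .nil) .nil)))))) (.nd (nat_lit 7) (.nd (nat_lit 8) (.nd (nat_lit 9) 
(.lf (nat_lit 493642) (.g (nat_lit 3225) (.e (nat_lit 163875) (nat_lit 3) (.e (nat_lit 204837) (nat_lit 20) (.e (nat_lit 114718) (nat_lit 23) (.e (nat_lit 98365) (nat_lit 26) (.e (nat_lit 426139) (nat_lit 3) (.e (nat_lit 204829) (nat_lit 18) (.e (nat_lit 57688) (nat_lit 156) .nil))))))) (.g (nat_lit 1) (.e (nat_lit 150484) (nat_lit 0) .nil) .nil))) 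
(.lf (nat_lit 494154) (.g (nat_lit 3581) (.e (nat_lit 163875) (nat_lit 3) (.e (nat_lit 204872) (nat_lit 30) (.e (nat_lit 368676) (nat_lit 21) (.e (nat_lit 516131) (nat_lit 3) (.e (nat_lit 221213) (nat_lit 23) (.e (nat_lit 204830) (nat_lit 18) (.e (nat_lit 57926) (nat_lit 282) .nil))))))) (.g (nat_lit 1) (.e (nat_lit 151340) (nat_lit 0) .nil) .nil)))) (.nd (nat_lit 9) 
(.lf (nat_lit 493898) (.g (nat_lit 2427) (.e (nat_lit 163875) (nat_lit 3) (.e (nat_lit 204861) (nat_lit 26) (.e (nat_lit 336076) (nat_lit 9) (.e (nat_lit 336455) (nat_lit 34) (.e (nat_lit 483363) (nat_lit 18) (.e (nat_lit 57927) (nat_lit 282) .nil)))))) (.g (nat_lit 1) (.e (nat_lit 150886) (nat_lit 0) .nil) .nil))) 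
(.lf (nat_lit 494410) (.g (nat_lit 885) (.e (nat_lit 163882) (nat_lit 4) (.e (nat_lit 213032) (nat_lit 11) (.e (nat_lit 24624) (nat_lit 9) .nil))) (.g (nat_lit 0) (.e (nat_lit 151748) (nat_lit 0) .nil) .nil))))) (.nd (nat_lit 8) (.nd (nat_lit 9) 
(.lf (nat_lit 493770) (.g (nat_lit 3887) (.e (nat_lit 163875) (nat_lit 3) (.e (nat_lit 204838) (nat_lit 20) (.e (nat_lit 114718) (nat_lit 23) (.e (nat_lit 98366) (nat_lit 27) (.e (nat_lit 434231) (nat_lit 23) (.e (nat_lit 532500) (nat_lit 1) (.e (nat_lit 57689) (nat_lit 156) .nil))))))) (.g (nat_lit 1) (.e (nat_lit 150612) (nat_lit 0) .nil) .nil))) 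
(.lf (nat_lit 494282) (.g (nat_lit 2026) (.e (nat_lit 163879) (nat_lit 4) (.e (nat_lit 213032) (nat_lit 11) (.e (nat_lit 24627) (nat_lit 9) (.e (nat_lit 336432) (nat_lit 30) .nil)))) (.g (nat_lit 0) (.e (nat_lit 151529) (nat_lit 0) .nil) .nil)))) (.nd (nat_lit 9) 
(.lf (nat_lit 494026) (.g (nat_lit 2605) (.e (nat_lit 163875) (nat_lit 3) (.e (nat_lit 204862) (nat_lit 27) (.e (nat_lit 344129) (nat_lit 26) (.e (nat_lit 557104) (nat_lit 14) (.e (nat_lit 180252) (nat_lit 10) .nil))))) (.g (nat_lit 0) (.e (nat_lit 151033) (nat_lit 0) .nil) .nil))) 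
(.lf (nat_lit 494538) (.g (nat_lit 2079) (.e (nat_lit 163885) (nat_lit 5) (.e (nat_lit 221190) (nat_lit 11) (.e (nat_lit 336078) (nat_lit 9) (.e (nat_lit 336443) (nat_lit 32) (.e (nat_lit 466971) (nat_lit 21) (.e (nat_lit 164332) (nat_lit 230) .nil)))))) (.g (nat_lit 1) (.e (nat_lit 151930) (nat_lit 0) .nil) .nil))))))) (.nd (nat_lit 6) (.nd (nat_lit 7) (.nd (nat_lit 8) (.nd (nat_lit 9) 
(.lf (nat_lit 493610) (.g (nat_lit 2935) (.e (nat_lit 163875) (nat_lit 3) (.e (nat_lit 204837) (nat_lit 20) (.e (nat_lit 114715) (nat_lit 22) (.e (nat_lit 90170) (nat_lit 13) (.e (nat_lit 172066) (nat_lit 3) (.e (nat_lit 204829) (nat_lit 18) (.e (nat_lit 57686) (nat_lit 156) .nil))))))) (.g (nat_lit 1) (.e (nat_lit 150452) (nat_lit 0) .nil) .nil))) 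
(.lf (nat_lit 494122) (.g (nat_lit 2645) (.e (nat_lit 163875) (nat_lit 3) (.e (nat_lit 204863) (nat_lit 27) (.e (nat_lit 344131) (nat_lit 26) (.e (nat_lit 557100) (nat_lit 13) (.e (nat_lit 172065) (nat_lit 3) .nil))))) (.g (nat_lit 0) (.e (nat_lit 151129) (nat_lit 0) .nil) .nil)))) (.nd (nat_lit 9) 
(.lf (nat_lit 493866) (.g (nat_lit 2053) (.e (nat_lit 163875) (nat_lit 3) (.e (nat_lit 204852) (nat_lit 26) (.e (nat_lit 336211) (nat_lit 13) (.e (nat_lit 393225) (nat_lit 9) (.e (nat_lit 335987) (nat_lit 1) .nil))))) (.g (nat_lit 0) (.e (nat_lit 150730) (nat_lit 0) .nil) .nil))) 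
(.lf (nat_lit 494378) (.g (nat_lit 2481) (.e (nat_lit 163881) (nat_lit 4) (.e (nat_lit 213032) (nat_lit 11) (.e (nat_lit 24660) (nat_lit 13) (.e (nat_lit 393281) (nat_lit 23) (.e (nat_lit 426098) (nat_lit 1) (.e (nat_lit 164325) (nat_lit 230) .nil)))))) (.g (nat_lit 1) (.e (nat_lit 151685) (nat_lit 0) .nil) .nil))))) (.nd (nat_lit 8) (.nd (nat_lit 9) 
(.lf (nat_lit 493738) (.g (nat_lit 4256) (.e (nat_lit 163875) (nat_lit 3) (.e (nat_lit 204838) (nat_lit 20) (.e (nat_lit 114715) (nat_lit 22) (.e (nat_lit 90170) (nat_lit 13) (.e (nat_lit 172065) (nat_lit 3) (.e (nat_lit 204829) (nat_lit 18) (.e (nat_lit 57686) (nat_lit 156) .nil))))))) (.g (nat_lit 1) (.e (nat_lit 150580) (nat_lit 0) .nil) .nil))) 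
(.lf (nat_lit 494250) (.g (nat_lit 2080) (.e (nat_lit 163878) (nat_lit 4) (.e (nat_lit 213032) (nat_lit 11) (.e (nat_lit 24625) (nat_lit 9) (.e (nat_lit 336426) (nat_lit 29) (.e (nat_lit 442421) (nat_lit 21) .nil))))) (.g (nat_lit 0) (.e (nat_lit 151487) (nat_lit 0) .nil) .nil)))) (.nd (nat_lit 9) 
(.lf (nat_lit 493994) (.g (nat_lit 4119) (.e (nat_lit 163875) (nat_lit 3) (.e (nat_lit 204862) (nat_lit 27) (.e (nat_lit 344117) (nat_lit 21) (.e (nat_lit 516130) (nat_lit 3) (.e (nat_lit 221215) (nat_lit 23) (.e (nat_lit 204830) (nat_lit 18) (.e (nat_lit 57928) (nat_lit 282) .nil))))))) (.g (nat_lit 1) (.e (nat_lit 151001) (nat_lit 0) .nil) .nil))) 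
(.lf (nat_lit 494506) (.g (nat_lit 1553) (.e (nat_lit 163884) (nat_lit 5) (.e (nat_lit 221194) (nat_lit 11) (.e (nat_lit 336084) (nat_lit 9) (.e (nat_lit 336430) (nat_lit 29) (.e (nat_lit 442419) (nat_lit 21) .nil))))) (.g (nat_lit 0) (.e (nat_lit 151861) (nat_lit 0) .nil) .nil)))))) (.nd (nat_lit 7) (.nd (nat_lit 8) (.nd (nat_lit 9) 
(.lf (nat_lit 493674) (.g (nat_lit 4894) (.e (nat_lit 163875) (nat_lit 3) (.e (nat_lit 204837) (nat_lit 20) (.e (nat_lit 114718) (nat_lit 23) (.e (nat_lit 98384) (nat_lit 32) (.e (nat_lit 475179) (nat_lit 24) (.e (nat_lit 516119) (nat_lit 1) (.e (nat_lit 164327) (nat_lit 230) .nil))))))) (.g (nat_lit 1) (.e (nat_lit 150516) (nat_lit 0) .nil) .nil))) 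
(.lf (nat_lit 494186) (.g (nat_lit 1970) (.e (nat_lit 163876) (nat_lit 4) (.e (nat_lit 213032) (nat_lit 11) (.e (nat_lit 24658) (nat_lit 13) (.e (nat_lit 393281) (nat_lit 23) .nil)))) (.g (nat_lit 0) (.e (nat_lit 151416) (nat_lit 0) .nil) .nil)))) (.nd (nat_lit 9) 
(.lf (nat_lit 493930) (.g (nat_lit 2101) (.e (nat_lit 163875) (nat_lit 3) (.e (nat_lit 204862) (nat_lit 27) (.e (nat_lit 344117) (nat_lit 21) (.e (nat_lit 516122) (nat_lit 2) (.e (nat_lit 213037) (nat_lit 13) (.e (nat_lit 229433) (nat_lit 25) (.e (nat_lit 532499) (nat_lit 1) (.e (nat_lit 57927) (nat_lit 282) .nil)))))))) (.g (nat_lit 1) (.e (nat_lit 150937) (nat_lit 0) .nil) .nil))) 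
(.lf (nat_lit 494442) (.g (nat_lit 2103) (.e (nat_lit 163884) (nat_lit 5) (.e (nat_lit 221192) (nat_lit 11) (.e (nat_lit 336152) (nat_lit 9) (.e (nat_lit 336442) (nat_lit 32) (.e (nat_lit 466969) (nat_lit 21) (.e (nat_lit 164331) (nat_lit 230) .nil)))))) (.g (nat_lit 1) (.e (nat_lit 151793) (nat_lit 0) .nil) .nil))))) (.nd (nat_lit 8) (.nd (nat_lit 9) 
(.lf (nat_lit 493802) (.g (nat_lit 4247) (.e (nat_lit 163875) (nat_lit 3) (.e (nat_lit 204838) (nat_lit 20) (.e (nat_lit 114719) (nat_lit 23) (.e (nat_lit 98366) (nat_lit 27) (.e (nat_lit 434231) (nat_lit 23) (.e (nat_lit 532499) (nat_lit 1) (.e (nat_lit 57692) (nat_lit 156) .nil))))))) (.g (nat_lit 1) (.e (nat_lit 150647) (nat_lit 0) .nil) .nil))) 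
(.lf (nat_lit 494314) (.g (nat_lit 1822) (.e (nat_lit 163880) (nat_lit 4) (.e (nat_lit 213030) (nat_lit 11) (.e (nat_lit 24656) (nat_lit 13) (.e (nat_lit 393281) (nat_lit 23) (.e (nat_lit 426099) (nat_lit 1) .nil))))) (.g (nat_lit 0) (.e (nat_lit 151568) (nat_lit 0) .nil) .nil)))) (.nd (nat_lit 9) 
(.lf (nat_lit 494058) (.g (nat_lit 1507) (.e (nat_lit 163875) (nat_lit 3) (.e (nat_lit 204863) (nat_lit 27) (.e (nat_lit 344117) (nat_lit 21) (.e (nat_lit 516129) (nat_lit 3) .nil)))) (.g (nat_lit 0) (.e (nat_lit 151065) (nat_lit 0) .nil) .nil))) 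
(.lf (nat_lit 494570) (.g (nat_lit 3146) (.e (nat_lit 163885) (nat_lit 5) (.e (nat_lit 221194) (nat_lit 11) (.e (nat_lit 336075) (nat_lit 9) (.e (nat_lit 336443) (nat_lit 32) (.e (nat_lit 466969) (nat_lit 21) (.e (nat_lit 164329) (nat_lit 230) .nil)))))) (.g (nat_lit 1) (.e (nat_lit 151965) (nat_lit 0) .nil) .nil)))))))) 
(.nd (nat_lit 5) (.nd (nat_lit 6) (.nd (nat_lit 7) (.nd (nat_lit 8) (.nd (nat_lit 9) 
(.lf (nat_lit 493594) (.g (nat_lit 4163) (.e (nat_lit 163875) (nat_lit 3) (.e (nat_lit 204836) (nat_lit 20) (.e (nat_lit 114719) (nat_lit 23) (.e (nat_lit 98367) (nat_lit 27) (.e (nat_lit 434231) (nat_lit 23) (.e (nat_lit 532500) (nat_lit 1) (.e (nat_lit 57689) (nat_lit 156) .nil))))))) (.g (nat_lit 1) (.e (nat_lit 150436) (nat_lit 0) .nil) .nil))) 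
(.lf (nat_lit 494106) (.g (nat_lit 2567) (.e (nat_lit 163875) (nat_lit 3) (.e (nat_lit 204863) (nat_lit 27) (.e (nat_lit 344129) (nat_lit 26) (.e (nat_lit 557097) (nat_lit 13) (.e (nat_lit 179968) (nat_lit 18) (.e (nat_lit 98344) (nat_lit 21) (.e (nat_lit 229677) (nat_lit 244) .nil))))))) (.g (nat_lit 1) (.e (nat_lit 151113) (nat_lit 0) .nil) .nil)))) (.nd (nat_lit 9) 
(.lf (nat_lit 493850) (.g (nat_lit 2582) (.e (nat_lit 163875) (nat_lit 3) (.e (nat_lit 204850) (nat_lit 26) (.e (nat_lit 336028) (nat_lit 3) (.e (nat_lit 98342) (nat_lit 20) (.e (nat_lit 221215) (nat_lit 23) (.e (nat_lit 204829) (nat_lit 18) (.e (nat_lit 57926) (nat_lit 282) .nil))))))) (.g (nat_lit 1) (.e (nat_lit 150697) (nat_lit 0) .nil) .nil))) 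
(.lf (nat_lit 494362) (.g (nat_lit 2745) (.e (nat_lit 163881) (nat_lit 4) (.e (nat_lit 213032) (nat_lit 11) (.e (nat_lit 24628) (nat_lit 9) (.e (nat_lit 336443) (nat_lit 32) (.e (nat_lit 466971) (nat_lit 21) (.e (nat_lit 164326) (nat_lit 230) .nil)))))) (.g (nat_lit 1) (.e (nat_lit 151662) (nat_lit 0) .nil) .nil))))) (.nd (nat_lit 8) (.nd (nat_lit 9) 
(.lf (nat_lit 493722) (.g (nat_lit 4570) (.e (nat_lit 163875) (nat_lit 3) (.e (nat_lit 204837) (nat_lit 20) (.e (nat_lit 114719) (nat_lit 23) (.e (nat_lit 98367) (nat_lit 27) (.e (nat_lit 434232) (nat_lit 23) (.e (nat_lit 532504) (nat_lit 1) (.e (nat_lit 57692) (nat_lit 156) .nil))))))) (.g (nat_lit 1) (.e (nat_lit 150564) (nat_lit 0) .nil) .nil))) 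
(.lf (nat_lit 494234) (.g (nat_lit 1676) (.e (nat_lit 163878) (nat_lit 4) (.e (nat_lit 213030) (nat_lit 11) (.e (nat_lit 24657) (nat_lit 13) (.e (nat_lit 393281) (nat_lit 23) (.e (nat_lit 426100) (nat_lit 1) .nil))))) (.g (nat_lit 0) (.e (nat_lit 151470) (nat_lit 0) .nil) .nil)))) (.nd (nat_lit 9) 
(.lf (nat_lit 493978) (.g (nat_lit 4047) (.e (nat_lit 163875) (nat_lit 3) (.e (nat_lit 204862) (nat_lit 27) (.e (nat_lit 344117) (nat_lit 21) (.e (nat_lit 516130) (nat_lit 3) (.e (nat_lit 221214) (nat_lit 23) (.e (nat_lit 204829) (nat_lit 18) (.e (nat_lit 57928) (nat_lit 282) .nil))))))) (.g (nat_lit 1) (.e (nat_lit 150985) (nat_lit 0) .nil) .nil))) 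
(.lf (nat_lit 494490) (.g (nat_lit 3049) (.e (nat_lit 163884) (nat_lit 5) (.e (nat_lit 221194) (nat_lit 11) (.e (nat_lit 336075) (nat_lit 9) (.e (nat_lit 336443) (nat_lit 32) (.e (nat_lit 466971) (nat_lit 21) (.e (nat_lit 164329) (nat_lit 230) .nil)))))) (.g (nat_lit 1) (.e (nat_lit 151845) (nat_lit 0) .nil) .nil)))))) (.nd (nat_lit 7) (.nd (nat_lit 8) (.nd (nat_lit 9) 
(.lf (nat_lit 493658) (.g (nat_lit 2742) (.e (nat_lit 163875) (nat_lit 3) (.e (nat_lit 204837) (nat_lit 20) (.e (nat_lit 114718) (nat_lit 23) (.e (nat_lit 98367) (nat_lit 27) (.e (nat_lit 434232) (nat_lit 23) (.e (nat_lit 532501) (nat_lit 1) (.e (nat_lit 57691) (nat_lit 156) .nil))))))) (.g (nat_lit 1) (.e (nat_lit 150500) (nat_lit 0) .nil) .nil))) 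
(.lf (nat_lit 494170) (.g (nat_lit 181) (.e (nat_lit 163875) (nat_lit 3) (.e (nat_lit 204876) (nat_lit 31) (.e (nat_lit 384768) (nat_lit 18) .nil))) (.g (nat_lit 0) (.e (nat_lit 151367) (nat_lit 0) .nil) .nil)))) (.nd (nat_lit 9) 
(.lf (nat_lit 493914) (.g (nat_lit 2274) (.e (nat_lit 163875) (nat_lit 3) (.e (nat_lit 204861) (nat_lit 26) (.e (nat_lit 336213) (nat_lit 13) (.e (nat_lit 393229) (nat_lit 9) (.e (nat_lit 335914) (nat_lit 0) .nil))))) (.g (nat_lit 0) (.e (nat_lit 150913) (nat_lit 0) .nil) .nil))) 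
(.lf (nat_lit 494426) (.g (nat_lit 2379) (.e (nat_lit 163882) (nat_lit 4) (.e (nat_lit 213032) (nat_lit 11) (.e (nat_lit 24660) (nat_lit 13) (.e (nat_lit 393283) (nat_lit 24) (.e (nat_lit 434209) (nat_lit 18) (.e (nat_lit 5223) (nat_lit 296) .nil)))))) (.g (nat_lit 1) (.e (nat_lit 151776) (nat_lit 0) .nil) .nil))))) (.nd (nat_lit 8) (.nd (nat_lit 9) 
(.lf (nat_lit 493786) (.g (nat_lit 2915) (.e (nat_lit 163875) (nat_lit 3) (.e (nat_lit 204838) (nat_lit 20) (.e (nat_lit 114718) (nat_lit 23) (.e (nat_lit 98367) (nat_lit 27) (.e (nat_lit 434234) (nat_lit 23) (.e (nat_lit 532504) (nat_lit 1) (.e (nat_lit 57692) (nat_lit 156) .nil))))))) (.g (nat_lit 1) (.e (nat_lit 150628) (nat_lit 0) .nil) .nil))) 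
(.lf (nat_lit 494298) (.g (nat_lit 1308) (.e (nat_lit 163879) (nat_lit 4) (.e (nat_lit 213032) (nat_lit 11) (.e (nat_lit 24660) (nat_lit 13) (.e (nat_lit 393277) (nat_lit 23) .nil)))) (.g (nat_lit 0) (.e (nat_lit 151551) (nat_lit 0) .nil) .nil)))) (.nd (nat_lit 9) 
(.lf (nat_lit 494042) (.g (nat_lit 3238) (.e (nat_lit 163875) (nat_lit 3) (.e (nat_lit 204862) (nat_lit 27) (.e (nat_lit 344133) (nat_lit 26) (.e (nat_lit 557103) (nat_lit 14) (.e (nat_lit 180243) (nat_lit 5) (.e (nat_lit 532504) (nat_lit 1) (.e (nat_lit 65280) (nat_lit 168) .nil))))))) (.g (nat_lit 1) (.e (nat_lit 151049) (nat_lit 0) .nil) .nil))) 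
(.lf (nat_lit 494554) (.g (nat_lit 2371) (.e (nat_lit 163885) (nat_lit 5) (.e (nat_lit 221193) (nat_lit 11) (.e (nat_lit 336077) (nat_lit 9) (.e (nat_lit 336443) (nat_lit 32) (.e (nat_lit 466969) (nat_lit 21) (.e (nat_lit 164322) (nat_lit 230) .nil)))))) (.g (nat_lit 1) (.e (nat_lit 151946) (nat_lit 0) .nil) .nil))))))) (.nd (nat_lit 6) (.nd (nat_lit 7) (.nd (nat_lit 8) (.nd (nat_lit 9) 
(.lf (nat_lit 493626) (.g (nat_lit 2921) (.e (nat_lit 163875) (nat_lit 3) (.e (nat_lit 204837) (nat_lit 20) (.e (nat_lit 114715) (nat_lit 22) (.e (nat_lit 90174) (nat_lit 14) (.e (nat_lit 180243) (nat_lit 5) (.e (nat_lit 532504) (nat_lit 1) (.e (nat_lit 57692) (nat_lit 156) .nil))))))) (.g (nat_lit 1) (.e (nat_lit 150468) (nat_lit 0) .nil) .nil))) 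
(.lf (nat_lit 494138) (.g (nat_lit 2947) (.e (nat_lit 163875) (nat_lit 3) (.e (nat_lit 204864) (nat_lit 27) (.e (nat_lit 344133) (nat_lit 26) (.e (nat_lit 557103) (nat_lit 14) (.e (nat_lit 180243) (nat_lit 5) (.e (nat_lit 532499) (nat_lit 1) (.e (nat_lit 65280) (nat_lit 168) .nil))))))) (.g (nat_lit 1) (.e (nat_lit 151145) (nat_lit 0) .nil) .nil)))) (.nd (nat_lit 9) 
(.lf (nat_lit 493882) (.g (nat_lit 2229) (.e (nat_lit 163875) (nat_lit 3) (.e (nat_lit 204861) (nat_lit 26) (.e (nat_lit 336075) (nat_lit 9) (.e (nat_lit 336454) (nat_lit 34) (.e (nat_lit 483366) (nat_lit 18) (.e (nat_lit 57924) (nat_lit 282) .nil)))))) (.g (nat_lit 1) (.e (nat_lit 150838) (nat_lit 0) .nil) .nil))) 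
(.lf (nat_lit 494394) (.g (nat_lit 2629) (.e (nat_lit 163882) (nat_lit 4) (.e (nat_lit 213030) (nat_lit 11) (.e (nat_lit 24629) (nat_lit 9) (.e (nat_lit 336431) (nat_lit 29) (.e (nat_lit 442421) (nat_lit 21) (.e (nat_lit 164326) (nat_lit 230) .nil)))))) (.g (nat_lit 1) (.e (nat_lit 151705) (nat_lit 0) .nil) .nil))))) (.nd (nat_lit 8) (.nd (nat_lit 9) 
(.lf (nat_lit 493754) (.g (nat_lit 2611) (.e (nat_lit 163875) (nat_lit 3) (.e (nat_lit 204838) (nat_lit 20) (.e (nat_lit 114715) (nat_lit 22) (.e (nat_lit 90174) (nat_lit 14) (.e (nat_lit 180243) (nat_lit 5) (.e (nat_lit 532504) (nat_lit 1) (.e (nat_lit 57690) (nat_lit 156) .nil))))))) (.g (nat_lit 1) (.e (nat_lit 150596) (nat_lit 0) .nil) .nil))) 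
(.lf (nat_lit 494266) (.g (nat_lit 1170) (.e (nat_lit 163879) (nat_lit 4) (.e (nat_lit 213030) (nat_lit 11) (.e (nat_lit 24624) (nat_lit 9) (.e (nat_lit 336426) (nat_lit 29) .nil)))) (.g (nat_lit 0) (.e (nat_lit 151505) (nat_lit 0) .nil) .nil)))) (.nd (nat_lit 9) 
(.lf (nat_lit 494010) (.g (nat_lit 2509) (.e (nat_lit 163875) (nat_lit 3) (.e (nat_lit 204862) (nat_lit 27) (.e (nat_lit 344129) (nat_lit 26) (.e (nat_lit 557097) (nat_lit 13) (.e (nat_lit 179968) (nat_lit 18) (.e (nat_lit 98335) (nat_lit 18) (.e (nat_lit 171776) (nat_lit 244) .nil))))))) (.g (nat_lit 1) (.e (nat_lit 151017) (nat_lit 0) .nil) .nil))) 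
(.lf (nat_lit 494522) (.g (nat_lit 2266) (.e (nat_lit 163884) (nat_lit 5) (.e (nat_lit 221194) (nat_lit 11) (.e (nat_lit 336221) (nat_lit 13) (.e (nat_lit 393281) (nat_lit 23) (.e (nat_lit 426099) (nat_lit 1) (.e (nat_lit 164330) (nat_lit 230) .nil)))))) (.g (nat_lit 1) (.e (nat_lit 151878) (nat_lit 0) .nil) .nil)))))) (.nd (nat_lit 7) (.nd (nat_lit 8) (.nd (nat_lit 9) 
(.lf (nat_lit 493690) (.g (nat_lit 4767) (.e (nat_lit 163875) (nat_lit 3) (.e (nat_lit 204837) (nat_lit 20) (.e (nat_lit 114719) (nat_lit 23) (.e (nat_lit 98366) (nat_lit 27) (.e (nat_lit 434231) (nat_lit 23) (.e (nat_lit 532500) (nat_lit 1) (.e (nat_lit 57690) (nat_lit 156) .nil))))))) (.g (nat_lit 1) (.e (nat_lit 150532) (nat_lit 0) .nil) .nil))) 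
(.lf (nat_lit 494202) (.g (nat_lit 2500) (.e (nat_lit 163877) (nat_lit 4) (.e (nat_lit 213032) (nat_lit 11) (.e (nat_lit 24627) (nat_lit 9) (.e (nat_lit 336432) (nat_lit 30) (.e (nat_lit 450565) (nat_lit 0) .nil))))) (.g (nat_lit 0) (.e (nat_lit 151434) (nat_lit 0) .nil) .nil)))) (.nd (nat_lit 9) 
(.lf (nat_lit 493946) (.g (nat_lit 2038) (.e (nat_lit 163875) (nat_lit 3) (.e (nat_lit 204862) (nat_lit 27) (.e (nat_lit 344117) (nat_lit 21) (.e (nat_lit 516123) (nat_lit 2) (.e (nat_lit 220928) (nat_lit 13) (.e (nat_lit 229433) (nat_lit 25) (.e (nat_lit 532501) (nat_lit 1) (.e (nat_lit 57925) (nat_lit 282) .nil)))))))) (.g (nat_lit 1) (.e (nat_lit 150953) (nat_lit 0) .nil) .nil))) 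
(.lf (nat_lit 494458) (.g (nat_lit 2163) (.e (nat_lit 163884) (nat_lit 5) (.e (nat_lit 221193) (nat_lit 11) (.e (nat_lit 336077) (nat_lit 9) (.e (nat_lit 336443) (nat_lit 32) (.e (nat_lit 466969) (nat_lit 21) (.e (nat_lit 164329) (nat_lit 230) .nil)))))) (.g (nat_lit 1) (.e (nat_lit 151809) (nat_lit 0) .nil) .nil))))) (.nd (nat_lit 8) (.nd (nat_lit 9) 
(.lf (nat_lit 493818) (.g (nat_lit 3216) (.e (nat_lit 163875) (nat_lit 3) (.e (nat_lit 204838) (nat_lit 20) (.e (nat_lit 114719) (nat_lit 23) (.e (nat_lit 98367) (nat_lit 27) (.e (nat_lit 434231) (nat_lit 23) (.e (nat_lit 532502) (nat_lit 1) (.e (nat_lit 57692) (nat_lit 156) .nil))))))) (.g (nat_lit 1) (.e (nat_lit 150663) (nat_lit 0) .nil) .nil))) 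
(.lf (nat_lit 494330) (.g (nat_lit 1775) (.e (nat_lit 163880) (nat_lit 4) (.e (nat_lit 213032) (nat_lit 11) (.e (nat_lit 24656) (nat_lit 13) (.e (nat_lit 393281) (nat_lit 23) (.e (nat_lit 426099) (nat_lit 1) .nil))))) (.g (nat_lit 0) (.e (nat_lit 151603) (nat_lit 0) .nil) .nil)))) (.nd (nat_lit 9) 
(.lf (nat_lit 494074) (.g (nat_lit 2373) (.e (nat_lit 163875) (nat_lit 3) (.e (nat_lit 204863) (nat_lit 27) (.e (nat_lit 344117) (nat_lit 21) (.e (nat_lit 516130) (nat_lit 3) (.e (nat_lit 221204) (nat_lit 20) (.e (nat_lit 3253) (nat_lit 197) (.e (nat_lit 532499) (nat_lit 1) (.e (nat_lit 57928) (nat_lit 282) .nil)))))))) (.g (nat_lit 1) (.e (nat_lit 151081) (nat_lit 0) .nil) .nil))) 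
(.lf (nat_lit 494586) (.g (nat_lit 2948) (.e (nat_lit 163885) (nat_lit 5) (.e (nat_lit 221194) (nat_lit 11) (.e (nat_lit 336077) (nat_lit 9) (.e (nat_lit 336443) (nat_lit 32) (.e (nat_lit 466972) (nat_lit 21) (.e (nat_lit 164329) (nat_lit 230) .nil)))))) (.g (nat_lit 1) (.e (nat_lit 151981) (nat_lit 0) .nil) .nil)))))))))) 
(.nd (nat_lit 3) (.nd (nat_lit 4) (.nd (nat_lit 5) (.nd (nat_lit 6) (.nd (nat_lit 7) 
(.nd (nat_lit 8) (.nd (nat_lit 9) 
(.lf (nat_lit 493574) (.g (nat_lit 4881) (.e (nat_lit 163875) (nat_lit 3) (.e (nat_lit 204830) (nat_lit 18) (.e (nat_lit 57852) (nat_lit 252) (.e (nat_lit 57431) (nat_lit 16) (.e (nat_lit 368676) (nat_lit 21) (.e (nat_lit 516146) (nat_lit 9) (.e (nat_lit 426422) (nat_lit 16) (.e (nat_lit 57692) (nat_lit 156) .nil)))))))) (.g (nat_lit 1) (.e (nat_lit 150416) (nat_lit 0) .nil) .nil))) 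
(.lf (nat_lit 494086) (.g (nat_lit 2837) (.e (nat_lit 163875) (nat_lit 3) (.e (nat_lit 204863) (nat_lit 27) (.e (nat_lit 344117) (nat_lit 21) (.e (nat_lit 516130) (nat_lit 3) (.e (nat_lit 221215) (nat_lit 23) (.e (nat_lit 204828) (nat_lit 18) (.e (nat_lit 57925) (nat_lit 282) .nil))))))) (.g (nat_lit 1) (.e (nat_lit 151093) (nat_lit 0) .nil) .nil)))) (.nd (nat_lit 9) 
(.lf (nat_lit 493830) (.g (nat_lit 1984) (.e (nat_lit 163875) (nat_lit 3) (.e (nat_lit 204838) (nat_lit 20) (.e (nat_lit 114719) (nat_lit 23) (.e (nat_lit 98367) (nat_lit 27) (.e (nat_lit 434234) (nat_lit 23) .nil))))) (.g (nat_lit 0) (.e (nat_lit 150675) (nat_lit 0) .nil) .nil))) 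
(.lf (nat_lit 494342) (.g (nat_lit 2666) (.e (nat_lit 163881) (nat_lit 4) (.e (nat_lit 213030) (nat_lit 11) (.e (nat_lit 24627) (nat_lit 9) (.e (nat_lit 336443) (nat_lit 32) (.e (nat_lit 466971) (nat_lit 21) (.e (nat_lit 164325) (nat_lit 230) .nil)))))) (.g (nat_lit 1) (.e (nat_lit 151618) (nat_lit 0) .nil) .nil))))) (.nd (nat_lit 8) (.nd (nat_lit 9) 
(.lf (nat_lit 493702) (.g (nat_lit 2972) (.e (nat_lit 163875) (nat_lit 3) (.e (nat_lit 204837) (nat_lit 20) (.e (nat_lit 114719) (nat_lit 23) (.e (nat_lit 98367) (nat_lit 27) (.e (nat_lit 434231) (nat_lit 23) (.e (nat_lit 532499) (nat_lit 1) (.e (nat_lit 57687) (nat_lit 156) .nil))))))) (.g (nat_lit 1) (.e (nat_lit 150544) (nat_lit 0) .nil) .nil))) 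
(.lf (nat_lit 494214) (.g (nat_lit 1266) (.e (nat_lit 163877) (nat_lit 4) (.e (nat_lit 213032) (nat_lit 11) (.e (nat_lit 24655) (nat_lit 13) (.e (nat_lit 393281) (nat_lit 23) .nil)))) (.g (nat_lit 0) (.e (nat_lit 151448) (nat_lit 0) .nil) .nil)))) (.nd (nat_lit 9) 
(.lf (nat_lit 493958) (.g (nat_lit 3730) (.e (nat_lit 163875) (nat_lit 3) (.e (nat_lit 204862) (nat_lit 27) (.e (nat_lit 344117) (nat_lit 21) (.e (nat_lit 516129) (nat_lit 3) (.e (nat_lit 221215) (nat_lit 23) (.e (nat_lit 204829) (nat_lit 18) (.e (nat_lit 57926) (nat_lit 282) .nil))))))) (.g (nat_lit 1) (.e (nat_lit 150965) (nat_lit 0) .nil) .nil))) 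
(.lf (nat_lit 494470) (.g (nat_lit 2574) (.e (nat_lit 163884) (nat_lit 5) (.e (nat_lit 221193) (nat_lit 11) (.e (nat_lit 336084) (nat_lit 9) (.e (nat_lit 336443) (nat_lit 32) (.e (nat_lit 466972) (nat_lit 21) (.e (nat_lit 164330) (nat_lit 230) .nil)))))) (.g (nat_lit 1) (.e (nat_lit 151821) (nat_lit 0) .nil) .nil)))))) (.nd (nat_lit 7) (.nd (nat_lit 8) (.nd (nat_lit 9) 
(.lf (nat_lit 493638) (.g (nat_lit 2648) (.e (nat_lit 163875) (nat_lit 3) (.e (nat_lit 204837) (nat_lit 20) (.e (nat_lit 114718) (nat_lit 23) (.e (nat_lit 98365) (nat_lit 26) (.e (nat_lit 426138) (nat_lit 3) (.e (nat_lit 204831) (nat_lit 18) (.e (nat_lit 57686) (nat_lit 156) .nil))))))) (.g (nat_lit 1) (.e (nat_lit 150480) (nat_lit 0) .nil) .nil))) 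
(.lf (nat_lit 494150) (.g (nat_lit 1783) (.e (nat_lit 163875) (nat_lit 3) (.e (nat_lit 204866) (nat_lit 28) (.e (nat_lit 352277) (nat_lit 11) (.e (nat_lit 426500) (nat_lit 27) (.e (nat_lit 335988) (nat_lit 1) (.e (nat_lit 57925) (nat_lit 282) .nil)))))) (.g (nat_lit 1) (.e (nat_lit 151163) (nat_lit 0) .nil) .nil)))) (.nd (nat_lit 9) 
(.lf (nat_lit 493894) (.g (nat_lit 1296) (.e (nat_lit 163875) (nat_lit 3) (.e (nat_lit 204861) (nat_lit 26) (.e (nat_lit 336076) (nat_lit 9) (.e (nat_lit 336452) (nat_lit 34) .nil)))) (.g (nat_lit 0) (.e (nat_lit 150859) (nat_lit 0) .nil) .nil))) 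
(.lf (nat_lit 494406) (.g (nat_lit 765) (.e (nat_lit 163882) (nat_lit 4) (.e (nat_lit 213031) (nat_lit 11) (.e (nat_lit 24630) (nat_lit 9) (.e (nat_lit 336443) (nat_lit 32) .nil)))) (.g (nat_lit 0) (.e (nat_lit 151724) (nat_lit 0) .nil) .nil))))) (.nd (nat_lit 8) (.nd (nat_lit 9) 
(.lf (nat_lit 493766) (.g (nat_lit 2954) (.e (nat_lit 163875) (nat_lit 3) (.e (nat_lit 204838) (nat_lit 20) (.e (nat_lit 114718) (nat_lit 23) (.e (nat_lit 98365) (nat_lit 26) (.e (nat_lit 426139) (nat_lit 3) (.e (nat_lit 204830) (nat_lit 18) (.e (nat_lit 57692) (nat_lit 156) .nil))))))) (.g (nat_lit 1) (.e (nat_lit 150608) (nat_lit 0) .nil) .nil))) 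
(.lf (nat_lit 494278) (.g (nat_lit 2304) (.e (nat_lit 163879) (nat_lit 4) (.e (nat_lit 213032) (nat_lit 11) (.e (nat_lit 24604) (nat_lit 2) (.e (nat_lit 90176) (nat_lit 15) .nil)))) (.g (nat_lit 0) (.e (nat_lit 151522) (nat_lit 0) .nil) .nil)))) (.nd (nat_lit 9) 
(.lf (nat_lit 494022) (.g (nat_lit 2874) (.e (nat_lit 163875) (nat_lit 3) (.e (nat_lit 204862) (nat_lit 27) (.e (nat_lit 344129) (nat_lit 26) (.e (nat_lit 557104) (nat_lit 14) (.e (nat_lit 180244) (nat_lit 5) .nil))))) (.g (nat_lit 0) (.e (nat_lit 151029) (nat_lit 0) .nil) .nil))) 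
(.lf (nat_lit 494534) (.g (nat_lit 1768) (.e (nat_lit 163885) (nat_lit 5) (.e (nat_lit 221190) (nat_lit 11) (.e (nat_lit 336076) (nat_lit 9) (.e (nat_lit 336443) (nat_lit 32) (.e (nat_lit 466969) (nat_lit 21) .nil))))) (.g (nat_lit 0) (.e (nat_lit 151926) (nat_lit 0) .nil) .nil))))))) (.nd (nat_lit 6) (.nd (nat_lit 7) (.nd (nat_lit 8) (.nd (nat_lit 9) 
(.lf (nat_lit 493606) (.g (nat_lit 4401) (.e (nat_lit 163875) (nat_lit 3) (.e (nat_lit 204837) (nat_lit 20) (.e (nat_lit 114715) (nat_lit 22) (.e (nat_lit 90170) (nat_lit 13) (.e (nat_lit 172065) (nat_lit 3) (.e (nat_lit 204830) (nat_lit 18) (.e (nat_lit 57685) (nat_lit 156) .nil))))))) (.g (nat_lit 1) (.e (nat_lit 150448) (nat_lit 0) .nil) .nil))) 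
(.lf (nat_lit 494118) (.g (nat_lit 2512) (.e (nat_lit 163875) (nat_lit 3) (.e (nat_lit 204863) (nat_lit 27) (.e (nat_lit 344130) (nat_lit 26) (.e (nat_lit 557103) (nat_lit 14) (.e (nat_lit 180243) (nat_lit 5) (.e (nat_lit 532504) (nat_lit 1) (.e (nat_lit 65280) (nat_lit 168) .nil))))))) (.g (nat_lit 1) (.e (nat_lit 151125) (nat_lit 0) .nil) .nil)))) (.nd (nat_lit 9) 
(.lf (nat_lit 493862) (.g (nat_lit 2536) (.e (nat_lit 163875) (nat_lit 3) (.e (nat_lit 204851) (nat_lit 26) (.e (nat_lit 336019) (nat_lit 3) (.e (nat_lit 98342) (nat_lit 20) (.e (nat_lit 221215) (nat_lit 23) (.e (nat_lit 204829) (nat_lit 18) (.e (nat_lit 57927) (nat_lit 282) .nil))))))) (.g (nat_lit 1) (.e (nat_lit 150709) (nat_lit 0) .nil) .nil))) 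
(.lf (nat_lit 494374) (.g (nat_lit 1319) (.e (nat_lit 163881) (nat_lit 4) (.e (nat_lit 213032) (nat_lit 11) (.e (nat_lit 24659) (nat_lit 13) (.e (nat_lit 393274) (nat_lit 23) (.e (nat_lit 426097) (nat_lit 1) .nil))))) (.g (nat_lit 0) (.e (nat_lit 151681) (nat_lit 0) .nil) .nil))))) (.nd (nat_lit 8) (.nd (nat_lit 9) 
(.lf (nat_lit 493734) (.g (nat_lit 4674) (.e (nat_lit 163875) (nat_lit 3) (.e (nat_lit 204837) (nat_lit 20) (.e (nat_lit 114719) (nat_lit 23) (.e (nat_lit 98384) (nat_lit 32) (.e (nat_lit 475179) (nat_lit 24) (.e (nat_lit 516119) (nat_lit 1) (.e (nat_lit 164327) (nat_lit 230) .nil))))))) (.g (nat_lit 1) (.e (nat_lit 150576) (nat_lit 0) .nil) .nil))) 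
(.lf (nat_lit 494246) (.g (nat_lit 2832) (.e (nat_lit 163878) (nat_lit 4) (.e (nat_lit 213032) (nat_lit 11) (.e (nat_lit 24624) (nat_lit 9) (.e (nat_lit 336443) (nat_lit 32) (.e (nat_lit 466969) (nat_lit 21) (.e (nat_lit 164332) (nat_lit 230) .nil)))))) (.g (nat_lit 1) (.e (nat_lit 151483) (nat_lit 0) .nil) .nil)))) (.nd (nat_lit 9) 
(.lf (nat_lit 493990) (.g (nat_lit 4132) (.e (nat_lit 163875) (nat_lit 3) (.e (nat_lit 204862) (nat_lit 27) (.e (nat_lit 344117) (nat_lit 21) (.e (nat_lit 516130) (nat_lit 3) (.e (nat_lit 221215) (nat_lit 23) (.e (nat_lit 204830) (nat_lit 18) (.e (nat_lit 57924) (nat_lit 282) .nil))))))) (.g (nat_lit 1) (.e (nat_lit 150997) (nat_lit 0) .nil) .nil))) 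
(.lf (nat_lit 494502) (.g (nat_lit 3049) (.e (nat_lit 163884) (nat_lit 5) (.e (nat_lit 221194) (nat_lit 11) (.e (nat_lit 336077) (nat_lit 9) (.e (nat_lit 336443) (nat_lit 32) (.e (nat_lit 466971) (nat_lit 21) (.e (nat_lit 164325) (nat_lit 230) .nil)))))) (.g (nat_lit 1) (.e (nat_lit 151857) (nat_lit 0) .nil) .nil)))))) (.nd (nat_lit 7) (.nd (nat_lit 8) (.nd (nat_lit 9) 
(.lf (nat_lit 493670) (.g (nat_lit 3296) (.e (nat_lit 163875) (nat_lit 3) (.e (nat_lit 204837) (nat_lit 20) (.e (nat_lit 114718) (nat_lit 23) (.e (nat_lit 98367) (nat_lit 27) (.e (nat_lit 434234) (nat_lit 23) (.e (nat_lit 532504) (nat_lit 1) (.e (nat_lit 57692) (nat_lit 156) .nil))))))) (.g (nat_lit 1) (.e (nat_lit 150512) (nat_lit 0) .nil) .nil))) 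
(.lf (nat_lit 494182) (.g (nat_lit 2916) (.e (nat_lit 163875) (nat_lit 3) (.e (nat_lit 204883) (nat_lit 33) (.e (nat_lit 401457) (nat_lit 13) (.e (nat_lit 483341) (nat_lit 9) (.e (nat_lit 426009) (nat_lit 0) (.e (nat_lit 2430) (nat_lit 157) (.e (nat_lit 5965) (nat_lit 324) .nil))))))) (.g (nat_lit 1) (.e (nat_lit 151408) (nat_lit 0) .nil) .nil)))) (.nd (nat_lit 9) 
(.lf (nat_lit 493926) (.g (nat_lit 2700) (.e (nat_lit 163875) (nat_lit 3) (.e (nat_lit 204862) (nat_lit 27) (.e (nat_lit 344117) (nat_lit 21) (.e (nat_lit 516122) (nat_lit 2) (.e (nat_lit 213035) (nat_lit 12) (.e (nat_lit 163964) (nat_lit 25) (.e (nat_lit 532501) (nat_lit 1) (.e (nat_lit 57928) (nat_lit 282) .nil)))))))) (.g (nat_lit 1) (.e (nat_lit 150933) (nat_lit 0) .nil) .nil))) 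
(.lf (nat_lit 494438) (.g (nat_lit 1908) (.e (nat_lit 163884) (nat_lit 5) (.e (nat_lit 221190) (nat_lit 11) (.e (nat_lit 336078) (nat_lit 9) (.e (nat_lit 336443) (nat_lit 32) (.e (nat_lit 466972) (nat_lit 21) .nil))))) (.g (nat_lit 0) (.e (nat_lit 151789) (nat_lit 0) .nil) .nil))))) (.nd (nat_lit 8) (.nd (nat_lit 9) 
(.lf (nat_lit 493798) (.g (nat_lit 3165) (.e (nat_lit 163875) (nat_lit 3) (.e (nat_lit 204838) (nat_lit 20) (.e (nat_lit 114719) (nat_lit 23) (.e (nat_lit 98366) (nat_lit 27) (.e (nat_lit 434231) (nat_lit 23) (.e (nat_lit 532490) (nat_lit 0) (.e (nat_lit 1040) (nat_lit 81) (.e (nat_lit 7280) (nat_lit 386) .nil)))))))) (.g (nat_lit 1) (.e (nat_lit 150643) (nat_lit 0) .nil) .nil))) 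
(.lf (nat_lit 494310) (.g (nat_lit 419) (.e (nat_lit 163880) (nat_lit 4) (.e (nat_lit 213030) (nat_lit 11) (.e (nat_lit 24629) (nat_lit 9) .nil))) (.g (nat_lit 0) (.e (nat_lit 151563) (nat_lit 0) .nil) .nil)))) (.nd (nat_lit 9) 
(.lf (nat_lit 494054) (.g (nat_lit 2649) (.e (nat_lit 163875) (nat_lit 3) (.e (nat_lit 204863) (nat_lit 27) (.e (nat_lit 344117) (nat_lit 21) (.e (nat_lit 516123) (nat_lit 2) (.e (nat_lit 213013) (nat_lit 9) (.e (nat_lit 2684) (nat_lit 168) (.e (nat_lit 204830) (nat_lit 18) (.e (nat_lit 57925) (nat_lit 282) .nil)))))))) (.g (nat_lit 1) (.e (nat_lit 151061) (nat_lit 0) .nil) .nil))) 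
(.lf (nat_lit 494566) (.g (nat_lit 3041) (.e (nat_lit 163885) (nat_lit 5) (.e (nat_lit 221194) (nat_lit 11) (.e (nat_lit 336074) (nat_lit 9) (.e (nat_lit 336443) (nat_lit 32) (.e (nat_lit 466971) (nat_lit 21) (.e (nat_lit 164331) (nat_lit 230) .nil)))))) (.g (nat_lit 1) (.e (nat_lit 151961) (nat_lit 0) .nil) .nil)))))))) 
(.nd (nat_lit 5) (.nd (nat_lit 6) (.nd (nat_lit 7) (.nd (nat_lit 8) (.nd (nat_lit 9) 
(.lf (nat_lit 493590) (.g (nat_lit 3893) (.e (nat_lit 163875) (nat_lit 3) (.e (nat_lit 204836) (nat_lit 20) (.e (nat_lit 114718) (nat_lit 23) (.e (nat_lit 98367) (nat_lit 27) (.e (nat_lit 434231) (nat_lit 23) (.e (nat_lit 532500) (nat_lit 1) (.e (nat_lit 57689) (nat_lit 156) .nil))))))) (.g (nat_lit 1) (.e (nat_lit 150432) (nat_lit 0) .nil) .nil))) 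
(.lf (nat_lit 494102) (.g (nat_lit 1309) (.e (nat_lit 163875) (nat_lit 3) (.e (nat_lit 204863) (nat_lit 27) (.e (nat_lit 344118) (nat_lit 21) (.e (nat_lit 516131) (nat_lit 3) .nil)))) (.g (nat_lit 0) (.e (nat_lit 151109) (nat_lit 0) .nil) .nil)))) (.nd (nat_lit 9) 
(.lf (nat_lit 493846) (.g (nat_lit 1029) (.e (nat_lit 163875) (nat_lit 3) (.e (nat_lit 204850) (nat_lit 26) (.e (nat_lit 336028) (nat_lit 3) (.e (nat_lit 98342) (nat_lit 20) .nil)))) (.g (nat_lit 0) (.e (nat_lit 150693) (nat_lit 0) .nil) .nil))) 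
(.lf (nat_lit 494358) (.g (nat_lit 1241) (.e (nat_lit 163881) (nat_lit 4) (.e (nat_lit 213032) (nat_lit 11) (.e (nat_lit 24627) (nat_lit 9) (.e (nat_lit 336430) (nat_lit 29) .nil)))) (.g (nat_lit 0) (.e (nat_lit 151658) (nat_lit 0) .nil) .nil))))) (.nd (nat_lit 8) (.nd (nat_lit 9) 
(.lf (nat_lit 493718) (.g (nat_lit 3934) (.e (nat_lit 163875) (nat_lit 3) (.e (nat_lit 204837) (nat_lit 20) (.e (nat_lit 114719) (nat_lit 23) (.e (nat_lit 98367) (nat_lit 27) (.e (nat_lit 434232) (nat_lit 23) (.e (nat_lit 532503) (nat_lit 1) (.e (nat_lit 57688) (nat_lit 156) .nil))))))) (.g (nat_lit 1) (.e (nat_lit 150560) (nat_lit 0) .nil) .nil))) 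
(.lf (nat_lit 494230) (.g (nat_lit 2479) (.e (nat_lit 163878) (nat_lit 4) (.e (nat_lit 213030) (nat_lit 11) (.e (nat_lit 24630) (nat_lit 9) (.e (nat_lit 336443) (nat_lit 32) (.e (nat_lit 466969) (nat_lit 21) (.e (nat_lit 164329) (nat_lit 230) .nil)))))) (.g (nat_lit 1) (.e (nat_lit 151465) (nat_lit 0) .nil) .nil)))) (.nd (nat_lit 9) 
(.lf (nat_lit 493974) (.g (nat_lit 2985) (.e (nat_lit 163875) (nat_lit 3) (.e (nat_lit 204862) (nat_lit 27) (.e (nat_lit 344117) (nat_lit 21) (.e (nat_lit 516130) (nat_lit 3) (.e (nat_lit 221214) (nat_lit 23) (.e (nat_lit 204829) (nat_lit 18) (.e (nat_lit 57924) (nat_lit 282) .nil))))))) (.g (nat_lit 1) (.e (nat_lit 150981) (nat_lit 0) .nil) .nil))) 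
(.lf (nat_lit 494486) (.g (nat_lit 3440) (.e (nat_lit 163884) (nat_lit 5) (.e (nat_lit 221194) (nat_lit 11) (.e (nat_lit 336075) (nat_lit 9) (.e (nat_lit 336443) (nat_lit 32) (.e (nat_lit 466971) (nat_lit 21) (.e (nat_lit 164322) (nat_lit 230) .nil)))))) (.g (nat_lit 1) (.e (nat_lit 151841) (nat_lit 0) .nil) .nil)))))) (.nd (nat_lit 7) (.nd (nat_lit 8) (.nd (nat_lit 9) 
(.lf (nat_lit 493654) (.g (nat_lit 2206) (.e (nat_lit 163875) (nat_lit 3) (.e (nat_lit 204837) (nat_lit 20) (.e (nat_lit 114718) (nat_lit 23) (.e (nat_lit 98367) (nat_lit 27) (.e (nat_lit 434232) (nat_lit 23) .nil))))) (.g (nat_lit 0) (.e (nat_lit 150496) (nat_lit 0) .nil) .nil))) 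
(.lf (nat_lit 494166) (.g (nat_lit 2635) (.e (nat_lit 163875) (nat_lit 3) (.e (nat_lit 204876) (nat_lit 31) (.e (nat_lit 376842) (nat_lit 11) (.e (nat_lit 426500) (nat_lit 27) (.e (nat_lit 335986) (nat_lit 1) (.e (nat_lit 57927) (nat_lit 282) .nil)))))) (.g (nat_lit 1) (.e (nat_lit 151363) (nat_lit 0) .nil) .nil)))) (.nd (nat_lit 9) 
(.lf (nat_lit 493910) (.g (nat_lit 2230) (.e (nat_lit 163875) (nat_lit 3) (.e (nat_lit 204861) (nat_lit 26) (.e (nat_lit 336213) (nat_lit 13) (.e (nat_lit 393225) (nat_lit 9) (.e (nat_lit 335985) (nat_lit 1) (.e (nat_lit 57928) (nat_lit 282) .nil)))))) (.g (nat_lit 1) (.e (nat_lit 150907) (nat_lit 0) .nil) .nil))) 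
(.lf (nat_lit 494422) (.g (nat_lit 1117) (.e (nat_lit 163882) (nat_lit 4) (.e (nat_lit 213032) (nat_lit 11) (.e (nat_lit 24657) (nat_lit 13) (.e (nat_lit 393279) (nat_lit 23) .nil)))) (.g (nat_lit 0) (.e (nat_lit 151771) (nat_lit 0) .nil) .nil))))) (.nd (nat_lit 8) (.nd (nat_lit 9) 
(.lf (nat_lit 493782) (.g (nat_lit 2930) (.e (nat_lit 163875) (nat_lit 3) (.e (nat_lit 204838) (nat_lit 20) (.e (nat_lit 114718) (nat_lit 23) (.e (nat_lit 98367) (nat_lit 27) (.e (nat_lit 434232) (nat_lit 23) (.e (nat_lit 532504) (nat_lit 1) (.e (nat_lit 57690) (nat_lit 156) .nil))))))) (.g (nat_lit 1) (.e (nat_lit 150624) (nat_lit 0) .nil) .nil))) 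
(.lf (nat_lit 494294) (.g (nat_lit 730) (.e (nat_lit 163879) (nat_lit 4) (.e (nat_lit 213032) (nat_lit 11) (.e (nat_lit 24660) (nat_lit 13) .nil))) (.g (nat_lit 0) (.e (nat_lit 151547) (nat_lit 0) .nil) .nil)))) (.nd (nat_lit 9) 
(.lf (nat_lit 494038) (.g (nat_lit 4205) (.e (nat_lit 163875) (nat_lit 3) (.e (nat_lit 204862) (nat_lit 27) (.e (nat_lit 344132) (nat_lit 26) (.e (nat_lit 557100) (nat_lit 13) (.e (nat_lit 172065) (nat_lit 3) (.e (nat_lit 204830) (nat_lit 18) (.e (nat_lit 65280) (nat_lit 168) .nil))))))) (.g (nat_lit 1) (.e (nat_lit 151045) (nat_lit 0) .nil) .nil))) 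
(.lf (nat_lit 494550) (.g (nat_lit 2034) (.e (nat_lit 163885) (nat_lit 5) (.e (nat_lit 221193) (nat_lit 11) (.e (nat_lit 336075) (nat_lit 9) (.e (nat_lit 336443) (nat_lit 32) (.e (nat_lit 466969) (nat_lit 21) (.e (nat_lit 164331) (nat_lit 230) .nil)))))) (.g (nat_lit 1) (.e (nat_lit 151942) (nat_lit 0) .nil) .nil))))))) (.nd (nat_lit 6) (.nd (nat_lit 7) (.nd (nat_lit 8) (.nd (nat_lit 9) 
(.lf (nat_lit 493622) (.g (nat_lit 2680) (.e (nat_lit 163875) (nat_lit 3) (.e (nat_lit 204837) (nat_lit 20) (.e (nat_lit 114715) (nat_lit 22) (.e (nat_lit 90174) (nat_lit 14) (.e (nat_lit 180243) (nat_lit 5) (.e (nat_lit 532503) (nat_lit 1) (.e (nat_lit 57685) (nat_lit 156) .nil))))))) (.g (nat_lit 1) (.e (nat_lit 150464) (nat_lit 0) .nil) .nil))) 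
(.lf (nat_lit 494134) (.g (nat_lit 2510) (.e (nat_lit 163875) (nat_lit 3) (.e (nat_lit 204864) (nat_lit 27) (.e (nat_lit 344130) (nat_lit 26) (.e (nat_lit 557103) (nat_lit 14) (.e (nat_lit 180243) (nat_lit 5) (.e (nat_lit 532503) (nat_lit 1) (.e (nat_lit 65280) (nat_lit 168) .nil))))))) (.g (nat_lit 1) (.e (nat_lit 151141) (nat_lit 0) .nil) .nil)))) (.nd (nat_lit 9) 
(.lf (nat_lit 493878) (.g (nat_lit 2680) (.e (nat_lit 163875) (nat_lit 3) (.e (nat_lit 204861) (nat_lit 26) (.e (nat_lit 336075) (nat_lit 9) (.e (nat_lit 336454) (nat_lit 34) (.e (nat_lit 483363) (nat_lit 18) (.e (nat_lit 57925) (nat_lit 282) .nil)))))) (.g (nat_lit 1) (.e (nat_lit 150834) (nat_lit 0) .nil) .nil))) 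
(.lf (nat_lit 494390) (.g (nat_lit 2655) (.e (nat_lit 163882) (nat_lit 4) (.e (nat_lit 213030) (nat_lit 11) (.e (nat_lit 24627) (nat_lit 9) (.e (nat_lit 336443) (nat_lit 32) (.e (nat_lit 466969) (nat_lit 21) (.e (nat_lit 164326) (nat_lit 230) .nil)))))) (.g (nat_lit 1) (.e (nat_lit 151701) (nat_lit 0) .nil) .nil))))) (.nd (nat_lit 8) (.nd (nat_lit 9) 
(.lf (nat_lit 493750) (.g (nat_lit 2486) (.e (nat_lit 163875) (nat_lit 3) (.e (nat_lit 204838) (nat_lit 20) (.e (nat_lit 114715) (nat_lit 22) (.e (nat_lit 90174) (nat_lit 14) (.e (nat_lit 180243) (nat_lit 5) (.e (nat_lit 532501) (nat_lit 1) (.e (nat_lit 57690) (nat_lit 156) .nil))))))) (.g (nat_lit 1) (.e (nat_lit 150592) (nat_lit 0) .nil) .nil))) 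
(.lf (nat_lit 494262) (.g (nat_lit 2260) (.e (nat_lit 163878) (nat_lit 4) (.e (nat_lit 213032) (nat_lit 11) (.e (nat_lit 24630) (nat_lit 9) (.e (nat_lit 336443) (nat_lit 32) (.e (nat_lit 466972) (nat_lit 21) .nil))))) (.g (nat_lit 0) (.e (nat_lit 151501) (nat_lit 0) .nil) .nil)))) (.nd (nat_lit 9) 
(.lf (nat_lit 494006) (.g (nat_lit 4205) (.e (nat_lit 163875) (nat_lit 3) (.e (nat_lit 204862) (nat_lit 27) (.e (nat_lit 344129) (nat_lit 26) (.e (nat_lit 557097) (nat_lit 13) (.e (nat_lit 172065) (nat_lit 3) (.e (nat_lit 204830) (nat_lit 18) (.e (nat_lit 65280) (nat_lit 168) .nil))))))) (.g (nat_lit 1) (.e (nat_lit 151013) (nat_lit 0) .nil) .nil))) 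
(.lf (nat_lit 494518) (.g (nat_lit 1022) (.e (nat_lit 163884) (nat_lit 5) (.e (nat_lit 221194) (nat_lit 11) (.e (nat_lit 336087) (nat_lit 9) (.e (nat_lit 336441) (nat_lit 32) .nil)))) (.g (nat_lit 0) (.e (nat_lit 151873) (nat_lit 0) .nil) .nil)))))) (.nd (nat_lit 7) (.nd (nat_lit 8) (.nd (nat_lit 9) 
(.lf (nat_lit 493686) (.g (nat_lit 3891) (.e (nat_lit 163875) (nat_lit 3) (.e (nat_lit 204837) (nat_lit 20) (.e (nat_lit 114719) (nat_lit 23) (.e (nat_lit 98366) (nat_lit 27) (.e (nat_lit 434231) (nat_lit 23) (.e (nat_lit 532499) (nat_lit 1) (.e (nat_lit 57691) (nat_lit 156) .nil))))))) (.g (nat_lit 1) (.e (nat_lit 150528) (nat_lit 0) .nil) .nil))) 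
(.lf (nat_lit 494198) (.g (nat_lit 2924) (.e (nat_lit 163877) (nat_lit 4) (.e (nat_lit 213032) (nat_lit 11) (.e (nat_lit 24625) (nat_lit 9) (.e (nat_lit 336443) (nat_lit 32) (.e (nat_lit 466969) (nat_lit 21) (.e (nat_lit 164332) (nat_lit 230) .nil)))))) (.g (nat_lit 1) (.e (nat_lit 151430) (nat_lit 0) .nil) .nil)))) (.nd (nat_lit 9) 
(.lf (nat_lit 493942) (.g (nat_lit 2632) (.e (nat_lit 163875) (nat_lit 3) (.e (nat_lit 204862) (nat_lit 27) (.e (nat_lit 344117) (nat_lit 21) (.e (nat_lit 516123) (nat_lit 2) (.e (nat_lit 213036) (nat_lit 13) (.e (nat_lit 229433) (nat_lit 25) (.e (nat_lit 532501) (nat_lit 1) (.e (nat_lit 57925) (nat_lit 282) .nil)))))))) (.g (nat_lit 1) (.e (nat_lit 150949) (nat_lit 0) .nil) .nil))) 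
(.lf (nat_lit 494454) (.g (nat_lit 2027) (.e (nat_lit 163884) (nat_lit 5) (.e (nat_lit 221193) (nat_lit 11) (.e (nat_lit 336075) (nat_lit 9) (.e (nat_lit 336443) (nat_lit 32) (.e (nat_lit 466972) (nat_lit 21) (.e (nat_lit 164332) (nat_lit 230) .nil)))))) (.g (nat_lit 1) (.e (nat_lit 151805) (nat_lit 0) .nil) .nil))))) (.nd (nat_lit 8) (.nd (nat_lit 9) 
(.lf (nat_lit 493814) (.g (nat_lit 4614) (.e (nat_lit 163875) (nat_lit 3) (.e (nat_lit 204838) (nat_lit 20) (.e (nat_lit 114719) (nat_lit 23) (.e (nat_lit 98367) (nat_lit 27) (.e (nat_lit 434231) (nat_lit 23) (.e (nat_lit 532499) (nat_lit 1) (.e (nat_lit 57692) (nat_lit 156) .nil))))))) (.g (nat_lit 1) (.e (nat_lit 150659) (nat_lit 0) .nil) .nil))) 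
(.lf (nat_lit 494326) (.g (nat_lit 2254) (.e (nat_lit 163880) (nat_lit 4) (.e (nat_lit 213032) (nat_lit 11) (.e (nat_lit 24627) (nat_lit 9) (.e (nat_lit 336443) (nat_lit 32) (.e (nat_lit 466970) (nat_lit 21) .nil))))) (.g (nat_lit 0) (.e (nat_lit 151597) (nat_lit 0) .nil) .nil)))) (.nd (nat_lit 9) 
(.lf (nat_lit 494070) (.g (nat_lit 3068) (.e (nat_lit 163875) (nat_lit 3) (.e (nat_lit 204863) (nat_lit 27) (.e (nat_lit 344117) (nat_lit 21) (.e (nat_lit 516129) (nat_lit 3) (.e (nat_lit 221215) (nat_lit 23) (.e (nat_lit 204829) (nat_lit 18) (.e (nat_lit 57927) (nat_lit 282) .nil))))))) (.g (nat_lit 1) (.e (nat_lit 151077) (nat_lit 0) .nil) .nil))) 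
(.lf (nat_lit 494582) (.g (nat_lit 2790) (.e (nat_lit 163885) (nat_lit 5) (.e (nat_lit 221194) (nat_lit 11) (.e (nat_lit 336077) (nat_lit 9) (.e (nat_lit 336443) (nat_lit 32) (.e (nat_lit 466969) (nat_lit 21) (.e (nat_lit 164325) (nat_lit 230) .nil)))))) (.g (nat_lit 1) (.e (nat_lit 151977) (nat_lit 0) .nil) .nil))))))))) 
(.nd (nat_lit 4) (.nd (nat_lit 5) (.nd (nat_lit 6) (.nd (nat_lit 7) (.nd (nat_lit 8) 
(.nd (nat_lit 9) 
(.lf (nat_lit 493582) (.g (nat_lit 3173) (.e (nat_lit 163875) (nat_lit 3) (.e (nat_lit 204830) (nat_lit 18) (.e (nat_lit 57927) (nat_lit 282) (.e (nat_lit 164084) (nat_lit 73) (.e (nat_lit 336027) (nat_lit 3) (.e (nat_lit 98376) (nat_lit 30) (.e (nat_lit 458774) (nat_lit 18) (.e (nat_lit 5224) (nat_lit 296) .nil)))))))) (.g (nat_lit 1) (.e (nat_lit 150424) (nat_lit 0) .nil) .nil))) 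
(.lf (nat_lit 494094) (.g (nat_lit 3384) (.e (nat_lit 163875) (nat_lit 3) (.e (nat_lit 204863) (nat_lit 27) (.e (nat_lit 344117) (nat_lit 21) (.e (nat_lit 516130) (nat_lit 3) (.e (nat_lit 221215) (nat_lit 23) (.e (nat_lit 204830) (nat_lit 18) (.e (nat_lit 57924) (nat_lit 282) .nil))))))) (.g (nat_lit 1) (.e (nat_lit 151101) (nat_lit 0) .nil) .nil)))) (.nd (nat_lit 9) 
(.lf (nat_lit 493838) (.g (nat_lit 5095) (.e (nat_lit 163875) (nat_lit 3) (.e (nat_lit 204838) (nat_lit 20) (.e (nat_lit 114719) (nat_lit 23) (.e (nat_lit 98384) (nat_lit 32) (.e (nat_lit 475179) (nat_lit 24) (.e (nat_lit 516115) (nat_lit 1) (.e (nat_lit 164325) (nat_lit 230) .nil))))))) (.g (nat_lit 1) (.e (nat_lit 150683) (nat_lit 0) .nil) .nil))) 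
(.lf (nat_lit 494350) (.g (nat_lit 2335) (.e (nat_lit 163881) (nat_lit 4) (.e (nat_lit 213030) (nat_lit 11) (.e (nat_lit 24660) (nat_lit 13) (.e (nat_lit 393279) (nat_lit 23) (.e (nat_lit 426110) (nat_lit 1) (.e (nat_lit 164327) (nat_lit 230) .nil)))))) (.g (nat_lit 1) (.e (nat_lit 151628) (nat_lit 0) .nil) .nil))))) (.nd (nat_lit 8) (.nd (nat_lit 9) 
(.lf (nat_lit 493710) (.g (nat_lit 2175) (.e (nat_lit 163875) (nat_lit 3) (.e (nat_lit 204837) (nat_lit 20) (.e (nat_lit 114719) (nat_lit 23) (.e (nat_lit 98367) (nat_lit 27) (.e (nat_lit 434232) (nat_lit 23) .nil))))) (.g (nat_lit 0) (.e (nat_lit 150552) (nat_lit 0) .nil) .nil))) 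
(.lf (nat_lit 494222) (.g (nat_lit 2963) (.e (nat_lit 163877) (nat_lit 4) (.e (nat_lit 213032) (nat_lit 11) (.e (nat_lit 24658) (nat_lit 13) (.e (nat_lit 393281) (nat_lit 23) (.e (nat_lit 426100) (nat_lit 1) (.e (nat_lit 164330) (nat_lit 230) .nil)))))) (.g (nat_lit 1) (.e (nat_lit 151456) (nat_lit 0) .nil) .nil)))) (.nd (nat_lit 9) 
(.lf (nat_lit 493966) (.g (nat_lit 2598) (.e (nat_lit 163875) (nat_lit 3) (.e (nat_lit 204862) (nat_lit 27) (.e (nat_lit 344117) (nat_lit 21) (.e (nat_lit 516130) (nat_lit 3) (.e (nat_lit 221204) (nat_lit 20) (.e (nat_lit 3253) (nat_lit 197) (.e (nat_lit 532499) (nat_lit 1) (.e (nat_lit 57925) (nat_lit 282) .nil)))))))) (.g (nat_lit 1) (.e (nat_lit 150973) (nat_lit 0) .nil) .nil))) 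
(.lf (nat_lit 494478) (.g (nat_lit 2764) (.e (nat_lit 163884) (nat_lit 5) (.e (nat_lit 221194) (nat_lit 11) (.e (nat_lit 336075) (nat_lit 9) (.e (nat_lit 336443) (nat_lit 32) (.e (nat_lit 466969) (nat_lit 21) (.e (nat_lit 164322) (nat_lit 230) .nil)))))) (.g (nat_lit 1) (.e (nat_lit 151833) (nat_lit 0) .nil) .nil)))))) (.nd (nat_lit 7) (.nd (nat_lit 8) (.nd (nat_lit 9) 
(.lf (nat_lit 493646) (.g (nat_lit 2480) (.e (nat_lit 163875) (nat_lit 3) (.e (nat_lit 204837) (nat_lit 20) (.e (nat_lit 114718) (nat_lit 23) (.e (nat_lit 98366) (nat_lit 27) (.e (nat_lit 434232) (nat_lit 23) (.e (nat_lit 532504) (nat_lit 1) (.e (nat_lit 57692) (nat_lit 156) .nil))))))) (.g (nat_lit 1) (.e (nat_lit 150488) (nat_lit 0) .nil) .nil))) 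
(.lf (nat_lit 494158) (.g (nat_lit 3687) (.e (nat_lit 163875) (nat_lit 3) (.e (nat_lit 204873) (nat_lit 30) (.e (nat_lit 368676) (nat_lit 21) (.e (nat_lit 516131) (nat_lit 3) (.e (nat_lit 221214) (nat_lit 23) (.e (nat_lit 204829) (nat_lit 18) (.e (nat_lit 57927) (nat_lit 282) .nil))))))) (.g (nat_lit 1) (.e (nat_lit 151355) (nat_lit 0) .nil) .nil)))) (.nd (nat_lit 9) 
(.lf (nat_lit 493902) (.g (nat_lit 2205) (.e (nat_lit 163875) (nat_lit 3) (.e (nat_lit 204861) (nat_lit 26) (.e (nat_lit 336213) (nat_lit 13) (.e (nat_lit 393225) (nat_lit 9) (.e (nat_lit 335886) (nat_lit 0) .nil))))) (.g (nat_lit 0) (.e (nat_lit 150899) (nat_lit 0) .nil) .nil))) 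
(.lf (nat_lit 494414) (.g (nat_lit 413) (.e (nat_lit 163882) (nat_lit 4) (.e (nat_lit 213032) (nat_lit 11) (.e (nat_lit 24627) (nat_lit 9) .nil))) (.g (nat_lit 0) (.e (nat_lit 151754) (nat_lit 0) .nil) .nil))))) (.nd (nat_lit 8) (.nd (nat_lit 9) 
(.lf (nat_lit 493774) (.g (nat_lit 4563) (.e (nat_lit 163875) (nat_lit 3) (.e (nat_lit 204838) (nat_lit 20) (.e (nat_lit 114718) (nat_lit 23) (.e (nat_lit 98367) (nat_lit 27) (.e (nat_lit 434231) (nat_lit 23) (.e (nat_lit 532500) (nat_lit 1) (.e (nat_lit 57689) (nat_lit 156) .nil))))))) (.g (nat_lit 1) (.e (nat_lit 150616) (nat_lit 0) .nil) .nil))) 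
(.lf (nat_lit 494286) (.g (nat_lit 2236) (.e (nat_lit 163879) (nat_lit 4) (.e (nat_lit 213032) (nat_lit 11) (.e (nat_lit 24630) (nat_lit 9) (.e (nat_lit 336443) (nat_lit 32) (.e (nat_lit 466971) (nat_lit 21) .nil))))) (.g (nat_lit 0) (.e (nat_lit 151538) (nat_lit 0) .nil) .nil)))) (.nd (nat_lit 9) 
(.lf (nat_lit 494030) (.g (nat_lit 3663) (.e (nat_lit 163875) (nat_lit 3) (.e (nat_lit 204862) (nat_lit 27) (.e (nat_lit 344130) (nat_lit 26) (.e (nat_lit 557103) (nat_lit 14) (.e (nat_lit 180243) (nat_lit 5) (.e (nat_lit 532499) (nat_lit 1) (.e (nat_lit 65280) (nat_lit 168) .nil))))))) (.g (nat_lit 1) (.e (nat_lit 151037) (nat_lit 0) .nil) .nil))) 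
(.lf (nat_lit 494542) (.g (nat_lit 1887) (.e (nat_lit 163885) (nat_lit 5) (.e (nat_lit 221191) (nat_lit 11) (.e (nat_lit 336152) (nat_lit 9) (.e (nat_lit 336442) (nat_lit 32) (.e (nat_lit 466972) (nat_lit 21) (.e (nat_lit 164329) (nat_lit 230) .nil)))))) (.g (nat_lit 1) (.e (nat_lit 151934) (nat_lit 0) .nil) .nil))))))) (.nd (nat_lit 6) (.nd (nat_lit 7) (.nd (nat_lit 8) (.nd (nat_lit 9) 
(.lf (nat_lit 493614) (.g (nat_lit 4318) (.e (nat_lit 163875) (nat_lit 3) (.e (nat_lit 204837) (nat_lit 20) (.e (nat_lit 114715) (nat_lit 22) (.e (nat_lit 90170) (nat_lit 13) (.e (nat_lit 172067) (nat_lit 3) (.e (nat_lit 204829) (nat_lit 18) (.e (nat_lit 57686) (nat_lit 156) .nil))))))) (.g (nat_lit 1) (.e (nat_lit 150456) (nat_lit 0) .nil) .nil))) 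
(.lf (nat_lit 494126) (.g (nat_lit 2912) (.e (nat_lit 163875) (nat_lit 3) (.e (nat_lit 204863) (nat_lit 27) (.e (nat_lit 344133) (nat_lit 26) (.e (nat_lit 557103) (nat_lit 14) (.e (nat_lit 180243) (nat_lit 5) (.e (nat_lit 532499) (nat_lit 1) (.e (nat_lit 65280) (nat_lit 168) .nil))))))) (.g (nat_lit 1) (.e (nat_lit 151133) (nat_lit 0) .nil) .nil)))) (.nd (nat_lit 9) 
(.lf (nat_lit 493870) (.g (nat_lit 2310) (.e (nat_lit 163875) (nat_lit 3) (.e (nat_lit 204854) (nat_lit 26) (.e (nat_lit 336019) (nat_lit 3) (.e (nat_lit 98342) (nat_lit 20) .nil)))) (.g (nat_lit 0) (.e (nat_lit 150759) (nat_lit 0) .nil) .nil))) 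
(.lf (nat_lit 494382) (.g (nat_lit 2659) (.e (nat_lit 163882) (nat_lit 4) (.e (nat_lit 213030) (nat_lit 11) (.e (nat_lit 24617) (nat_lit 7) (.e (nat_lit 319533) (nat_lit 16) (.e (nat_lit 286753) (nat_lit 10) .nil))))) (.g (nat_lit 0) (.e (nat_lit 151693) (nat_lit 0) .nil) .nil))))) (.nd (nat_lit 8) (.nd (nat_lit 9) 
(.lf (nat_lit 493742) (.g (nat_lit 4318) (.e (nat_lit 163875) (nat_lit 3) (.e (nat_lit 204838) (nat_lit 20) (.e (nat_lit 114715) (nat_lit 22) (.e (nat_lit 90170) (nat_lit 13) (.e (nat_lit 172065) (nat_lit 3) (.e (nat_lit 204830) (nat_lit 18) (.e (nat_lit 57692) (nat_lit 156) .nil))))))) (.g (nat_lit 1) (.e (nat_lit 150584) (nat_lit 0) .nil) .nil))) 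
(.lf (nat_lit 494254) (.g (nat_lit 2276) (.e (nat_lit 163878) (nat_lit 4) (.e (nat_lit 213032) (nat_lit 11) (.e (nat_lit 24627) (nat_lit 9) (.e (nat_lit 336443) (nat_lit 32) (.e (nat_lit 466972) (nat_lit 21) .nil))))) (.g (nat_lit 0) (.e (nat_lit 151491) (nat_lit 0) .nil) .nil)))) (.nd (nat_lit 9) 
(.lf (nat_lit 493998) (.g (nat_lit 2741) (.e (nat_lit 163875) (nat_lit 3) (.e (nat_lit 204862) (nat_lit 27) (.e (nat_lit 344117) (nat_lit 21) (.e (nat_lit 516195) (nat_lit 26) (.e (nat_lit 336027) (nat_lit 3) (.e (nat_lit 98319) (nat_lit 17) (.e (nat_lit 2450) (nat_lit 157) (.e (nat_lit 6839) (nat_lit 369) .nil)))))))) (.g (nat_lit 1) (.e (nat_lit 151005) (nat_lit 0) .nil) .nil))) 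
(.lf (nat_lit 494510) (.g (nat_lit 1106) (.e (nat_lit 163884) (nat_lit 5) (.e (nat_lit 221194) (nat_lit 11) (.e (nat_lit 336086) (nat_lit 9) (.e (nat_lit 336444) (nat_lit 32) .nil)))) (.g (nat_lit 0) (.e (nat_lit 151865) (nat_lit 0) .nil) .nil)))))) (.nd (nat_lit 7) (.nd (nat_lit 8) (.nd (nat_lit 9) 
(.lf (nat_lit 493678) (.g (nat_lit 2754) (.e (nat_lit 163875) (nat_lit 3) (.e (nat_lit 204837) (nat_lit 20) (.e (nat_lit 114719) (nat_lit 23) (.e (nat_lit 98363) (nat_lit 26) (.e (nat_lit 426129) (nat_lit 3) (.e (nat_lit 204829) (nat_lit 18) (.e (nat_lit 57692) (nat_lit 156) .nil))))))) (.g (nat_lit 1) (.e (nat_lit 150520) (nat_lit 0) .nil) .nil))) 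
(.lf (nat_lit 494190) (.g (nat_lit 1182) (.e (nat_lit 163877) (nat_lit 4) (.e (nat_lit 213030) (nat_lit 11) (.e (nat_lit 24660) (nat_lit 13) (.e (nat_lit 393271) (nat_lit 23) .nil)))) (.g (nat_lit 0) (.e (nat_lit 151420) (nat_lit 0) .nil) .nil)))) (.nd (nat_lit 9) 
(.lf (nat_lit 493934) (.g (nat_lit 2176) (.e (nat_lit 163875) (nat_lit 3) (.e (nat_lit 204862) (nat_lit 27) (.e (nat_lit 344117) (nat_lit 21) (.e (nat_lit 516123) (nat_lit 2) (.e (nat_lit 213033) (nat_lit 12) (.e (nat_lit 163962) (nat_lit 25) (.e (nat_lit 532500) (nat_lit 1) (.e (nat_lit 57925) (nat_lit 282) .nil)))))))) (.g (nat_lit 1) (.e (nat_lit 150941) (nat_lit 0) .nil) .nil))) 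
(.lf (nat_lit 494446) (.g (nat_lit 1569) (.e (nat_lit 163884) (nat_lit 5) (.e (nat_lit 221193) (nat_lit 11) (.e (nat_lit 336075) (nat_lit 9) (.e (nat_lit 336443) (nat_lit 32) (.e (nat_lit 466969) (nat_lit 21) .nil))))) (.g (nat_lit 0) (.e (nat_lit 151797) (nat_lit 0) .nil) .nil))))) (.nd (nat_lit 8) (.nd (nat_lit 9) 
(.lf (nat_lit 493806) (.g (nat_lit 1998) (.e (nat_lit 163875) (nat_lit 3) (.e (nat_lit 204838) (nat_lit 20) (.e (nat_lit 114719) (nat_lit 23) (.e (nat_lit 98366) (nat_lit 27) (.e (nat_lit 434232) (nat_lit 23) (.e (nat_lit 532503) (nat_lit 1) (.e (nat_lit 57685) (nat_lit 156) .nil))))))) (.g (nat_lit 1) (.e (nat_lit 150651) (nat_lit 0) .nil) .nil))) 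
(.lf (nat_lit 494318) (.g (nat_lit 2671) (.e (nat_lit 163880) (nat_lit 4) (.e (nat_lit 213030) (nat_lit 11) (.e (nat_lit 24659) (nat_lit 13) (.e (nat_lit 393281) (nat_lit 23) (.e (nat_lit 426100) (nat_lit 1) (.e (nat_lit 164330) (nat_lit 230) .nil)))))) (.g (nat_lit 1) (.e (nat_lit 151572) (nat_lit 0) .nil) .nil)))) (.nd (nat_lit 9) 
(.lf (nat_lit 494062) (.g (nat_lit 3266) (.e (nat_lit 163875) (nat_lit 3) (.e (nat_lit 204863) (nat_lit 27) (.e (nat_lit 344117) (nat_lit 21) (.e (nat_lit 516129) (nat_lit 3) (.e (nat_lit 221214) (nat_lit 23) (.e (nat_lit 204829) (nat_lit 18) (.e (nat_lit 57927) (nat_lit 282) .nil))))))) (.g (nat_lit 1) (.e (nat_lit 151069) (nat_lit 0) .nil) .nil))) 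
(.lf (nat_lit 494574) (.g (nat_lit 2956) (.e (nat_lit 163885) (nat_lit 5) (.e (nat_lit 221194) (nat_lit 11) (.e (nat_lit 336075) (nat_lit 9) (.e (nat_lit 336443) (nat_lit 32) (.e (nat_lit 466971) (nat_lit 21) (.e (nat_lit 164325) (nat_lit 230) .nil)))))) (.g (nat_lit 1) (.e (nat_lit 151969) (nat_lit 0) .nil) .nil)))))))) 
(.nd (nat_lit 5) (.nd (nat_lit 6) (.nd (nat_lit 7) (.nd (nat_lit 8) (.nd (nat_lit 9) 
(.lf (nat_lit 493598) (.g (nat_lit 2638) (.e (nat_lit 163875) (nat_lit 3) (.e (nat_lit 204836) (nat_lit 20) (.e (nat_lit 114719) (nat_lit 23) (.e (nat_lit 98384) (nat_lit 32) (.e (nat_lit 475177) (nat_lit 24) (.e (nat_lit 516119) (nat_lit 1) (.e (nat_lit 164327) (nat_lit 230) .nil))))))) (.g (nat_lit 1) (.e (nat_lit 150440) (nat_lit 0) .nil) .nil))) 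
(.lf (nat_lit 494110) (.g (nat_lit 3563) (.e (nat_lit 163875) (nat_lit 3) (.e (nat_lit 204863) (nat_lit 27) (.e (nat_lit 344129) (nat_lit 26) (.e (nat_lit 557103) (nat_lit 14) (.e (nat_lit 180244) (nat_lit 5) (.e (nat_lit 532499) (nat_lit 1) (.e (nat_lit 65280) (nat_lit 168) .nil))))))) (.g (nat_lit 1) (.e (nat_lit 151117) (nat_lit 0) .nil) .nil)))) (.nd (nat_lit 9) 
(.lf (nat_lit 493854) (.g (nat_lit 1919) (.e (nat_lit 163875) (nat_lit 3) (.e (nat_lit 204850) (nat_lit 26) (.e (nat_lit 336089) (nat_lit 9) (.e (nat_lit 336456) (nat_lit 34) (.e (nat_lit 483363) (nat_lit 18) (.e (nat_lit 57927) (nat_lit 282) .nil)))))) (.g (nat_lit 1) (.e (nat_lit 150701) (nat_lit 0) .nil) .nil))) 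
(.lf (nat_lit 494366) (.g (nat_lit 3129) (.e (nat_lit 163881) (nat_lit 4) (.e (nat_lit 213032) (nat_lit 11) (.e (nat_lit 24630) (nat_lit 9) (.e (nat_lit 336443) (nat_lit 32) (.e (nat_lit 466969) (nat_lit 21) (.e (nat_lit 164325) (nat_lit 230) .nil)))))) (.g (nat_lit 1) (.e (nat_lit 151672) (nat_lit 0) .nil) .nil))))) (.nd (nat_lit 8) (.nd (nat_lit 9) 
(.lf (nat_lit 493726) (.g (nat_lit 3207) (.e (nat_lit 163875) (nat_lit 3) (.e (nat_lit 204837) (nat_lit 20) (.e (nat_lit 114719) (nat_lit 23) (.e (nat_lit 98367) (nat_lit 27) (.e (nat_lit 434234) (nat_lit 23) (.e (nat_lit 532499) (nat_lit 1) (.e (nat_lit 57692) (nat_lit 156) .nil))))))) (.g (nat_lit 1) (.e (nat_lit 150568) (nat_lit 0) .nil) .nil))) 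
(.lf (nat_lit 494238) (.g (nat_lit 1376) (.e (nat_lit 163878) (nat_lit 4) (.e (nat_lit 213030) (nat_lit 11) (.e (nat_lit 24659) (nat_lit 13) (.e (nat_lit 393281) (nat_lit 23) (.e (nat_lit 426099) (nat_lit 1) .nil))))) (.g (nat_lit 0) (.e (nat_lit 151474) (nat_lit 0) .nil) .nil)))) (.nd (nat_lit 9) 
(.lf (nat_lit 493982) (.g (nat_lit 1675) (.e (nat_lit 163875) (nat_lit 3) (.e (nat_lit 204862) (nat_lit 27) (.e (nat_lit 344117) (nat_lit 21) (.e (nat_lit 516130) (nat_lit 3) (.e (nat_lit 221215) (nat_lit 23) .nil))))) (.g (nat_lit 0) (.e (nat_lit 150989) (nat_lit 0) .nil) .nil))) 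
(.lf (nat_lit 494494) (.g (nat_lit 3813) (.e (nat_lit 163884) (nat_lit 5) (.e (nat_lit 221194) (nat_lit 11) (.e (nat_lit 336075) (nat_lit 9) (.e (nat_lit 336443) (nat_lit 32) (.e (nat_lit 466972) (nat_lit 21) (.e (nat_lit 164330) (nat_lit 230) .nil)))))) (.g (nat_lit 1) (.e (nat_lit 151849) (nat_lit 0) .nil) .nil)))))) (.nd (nat_lit 7) (.nd (nat_lit 8) (.nd (nat_lit 9) 
(.lf (nat_lit 493662) (.g (nat_lit 2609) (.e (nat_lit 163875) (nat_lit 3) (.e (nat_lit 204837) (nat_lit 20) (.e (nat_lit 114718) (nat_lit 23) (.e (nat_lit 98367) (nat_lit 27) (.e (nat_lit 434232) (nat_lit 23) (.e (nat_lit 532503) (nat_lit 1) (.e (nat_lit 57691) (nat_lit 156) .nil))))))) (.g (nat_lit 1) (.e (nat_lit 150504) (nat_lit 0) .nil) .nil))) 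
(.lf (nat_lit 494174) (.g (nat_lit 2928) (.e (nat_lit 163875) (nat_lit 3) (.e (nat_lit 204877) (nat_lit 31) (.e (nat_lit 376842) (nat_lit 11) (.e (nat_lit 426497) (nat_lit 27) (.e (nat_lit 335988) (nat_lit 1) (.e (nat_lit 57927) (nat_lit 282) .nil)))))) (.g (nat_lit 1) (.e (nat_lit 151371) (nat_lit 0) .nil) .nil)))) (.nd (nat_lit 9) 
(.lf (nat_lit 493918) (.g (nat_lit 3239) (.e (nat_lit 163875) (nat_lit 3) (.e (nat_lit 204861) (nat_lit 26) (.e (nat_lit 336215) (nat_lit 13) (.e (nat_lit 393229) (nat_lit 9) (.e (nat_lit 335988) (nat_lit 1) (.e (nat_lit 57927) (nat_lit 282) .nil)))))) (.g (nat_lit 1) (.e (nat_lit 150922) (nat_lit 0) .nil) .nil))) 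
(.lf (nat_lit 494430) (.g (nat_lit 1955) (.e (nat_lit 163884) (nat_lit 5) (.e (nat_lit 221190) (nat_lit 11) (.e (nat_lit 336076) (nat_lit 9) (.e (nat_lit 336443) (nat_lit 32) (.e (nat_lit 466969) (nat_lit 21) (.e (nat_lit 164327) (nat_lit 230) .nil)))))) (.g (nat_lit 1) (.e (nat_lit 151781) (nat_lit 0) .nil) .nil))))) (.nd (nat_lit 8) (.nd (nat_lit 9) 
(.lf (nat_lit 493790) (.g (nat_lit 3829) (.e (nat_lit 163875) (nat_lit 3) (.e (nat_lit 204838) (nat_lit 20) (.e (nat_lit 114719) (nat_lit 23) (.e (nat_lit 98356) (nat_lit 26) (.e (nat_lit 426438) (nat_lit 18) (.e (nat_lit 98333) (nat_lit 18) (.e (nat_lit 164325) (nat_lit 230) .nil))))))) (.g (nat_lit 1) (.e (nat_lit 150632) (nat_lit 0) .nil) .nil))) 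
(.lf (nat_lit 494302) (.g (nat_lit 1551) (.e (nat_lit 163879) (nat_lit 4) (.e (nat_lit 213032) (nat_lit 11) (.e (nat_lit 24660) (nat_lit 13) (.e (nat_lit 393284) (nat_lit 24) .nil)))) (.g (nat_lit 0) (.e (nat_lit 151555) (nat_lit 0) .nil) .nil)))) (.nd (nat_lit 9) 
(.lf (nat_lit 494046) (.g (nat_lit 3424) (.e (nat_lit 163875) (nat_lit 3) (.e (nat_lit 204863) (nat_lit 27) (.e (nat_lit 344117) (nat_lit 21) (.e (nat_lit 516106) (nat_lit 0) (.e (nat_lit 3721) (nat_lit 227) .nil))))) (.g (nat_lit 0) (.e (nat_lit 151053) (nat_lit 0) .nil) .nil))) 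
(.lf (nat_lit 494558) (.g (nat_lit 1994) (.e (nat_lit 163885) (nat_lit 5) (.e (nat_lit 221193) (nat_lit 11) (.e (nat_lit 336084) (nat_lit 9) (.e (nat_lit 336443) (nat_lit 32) (.e (nat_lit 466968) (nat_lit 21) (.e (nat_lit 164332) (nat_lit 230) .nil)))))) (.g (nat_lit 1) (.e (nat_lit 151950) (nat_lit 0) .nil) .nil))))))) (.nd (nat_lit 6) (.nd (nat_lit 7) (.nd (nat_lit 8) (.nd (nat_lit 9) 
(.lf (nat_lit 493630) (.g (nat_lit 3136) (.e (nat_lit 163875) (nat_lit 3) (.e (nat_lit 204837) (nat_lit 20) (.e (nat_lit 114718) (nat_lit 23) (.e (nat_lit 98356) (nat_lit 26) (.e (nat_lit 426436) (nat_lit 18) (.e (nat_lit 98333) (nat_lit 18) (.e (nat_lit 164327) (nat_lit 230) .nil))))))) (.g (nat_lit 1) (.e (nat_lit 150472) (nat_lit 0) .nil) .nil))) 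
(.lf (nat_lit 494142) (.g (nat_lit 2577) (.e (nat_lit 163875) (nat_lit 3) (.e (nat_lit 204865) (nat_lit 28) (.e (nat_lit 352277) (nat_lit 11) (.e (nat_lit 426500) (nat_lit 27) (.e (nat_lit 335986) (nat_lit 1) (.e (nat_lit 57924) (nat_lit 282) .nil)))))) (.g (nat_lit 1) (.e (nat_lit 151149) (nat_lit 0) .nil) .nil)))) (.nd (nat_lit 9) 
(.lf (nat_lit 493886) (.g (nat_lit 2294) (.e (nat_lit 163875) (nat_lit 3) (.e (nat_lit 204861) (nat_lit 26) (.e (nat_lit 336075) (nat_lit 9) (.e (nat_lit 336456) (nat_lit 34) (.e (nat_lit 483364) (nat_lit 18) (.e (nat_lit 57924) (nat_lit 282) .nil)))))) (.g (nat_lit 1) (.e (nat_lit 150843) (nat_lit 0) .nil) .nil))) 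
(.lf (nat_lit 494398) (.g (nat_lit 3206) (.e (nat_lit 163882) (nat_lit 4) (.e (nat_lit 213030) (nat_lit 11) (.e (nat_lit 24657) (nat_lit 13) (.e (nat_lit 393271) (nat_lit 23) (.e (nat_lit 426112) (nat_lit 1) (.e (nat_lit 164327) (nat_lit 230) .nil)))))) (.g (nat_lit 1) (.e (nat_lit 151715) (nat_lit 0) .nil) .nil))))) (.nd (nat_lit 8) (.nd (nat_lit 9) 
(.lf (nat_lit 493758) (.g (nat_lit 2404) (.e (nat_lit 163875) (nat_lit 3) (.e (nat_lit 204838) (nat_lit 20) (.e (nat_lit 114716) (nat_lit 22) (.e (nat_lit 90185) (nat_lit 17) (.e (nat_lit 237594) (nat_lit 3) (.e (nat_lit 204830) (nat_lit 18) (.e (nat_lit 57689) (nat_lit 156) .nil))))))) (.g (nat_lit 1) (.e (nat_lit 150600) (nat_lit 0) .nil) .nil))) 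
(.lf (nat_lit 494270) (.g (nat_lit 2214) (.e (nat_lit 163879) (nat_lit 4) (.e (nat_lit 213030) (nat_lit 11) (.e (nat_lit 24655) (nat_lit 13) (.e (nat_lit 393281) (nat_lit 23) (.e (nat_lit 426098) (nat_lit 1) .nil))))) (.g (nat_lit 0) (.e (nat_lit 151514) (nat_lit 0) .nil) .nil)))) (.nd (nat_lit 9) 
(.lf (nat_lit 494014) (.g (nat_lit 4223) (.e (nat_lit 163875) (nat_lit 3) (.e (nat_lit 204862) (nat_lit 27) (.e (nat_lit 344129) (nat_lit 26) (.e (nat_lit 557103) (nat_lit 14) (.e (nat_lit 180243) (nat_lit 5) (.e (nat_lit 532503) (nat_lit 1) (.e (nat_lit 65280) (nat_lit 168) .nil))))))) (.g (nat_lit 1) (.e (nat_lit 151021) (nat_lit 0) .nil) .nil))) 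
(.lf (nat_lit 494526) (.g (nat_lit 1378) (.e (nat_lit 163884) (nat_lit 5) (.e (nat_lit 221212) (nat_lit 22) (.e (nat_lit 196653) (nat_lit 11) (.e (nat_lit 16458) (nat_lit 12) (.e (nat_lit 475177) (nat_lit 24) .nil))))) (.g (nat_lit 0) (.e (nat_lit 151909) (nat_lit 0) .nil) .nil)))))) (.nd (nat_lit 7) (.nd (nat_lit 8) (.nd (nat_lit 9) 
(.lf (nat_lit 493694) (.g (nat_lit 2557) (.e (nat_lit 163875) (nat_lit 3) (.e (nat_lit 204837) (nat_lit 20) (.e (nat_lit 114719) (nat_lit 23) (.e (nat_lit 98366) (nat_lit 27) (.e (nat_lit 434232) (nat_lit 23) (.e (nat_lit 532503) (nat_lit 1) (.e (nat_lit 57685) (nat_lit 156) .nil))))))) (.g (nat_lit 1) (.e (nat_lit 150536) (nat_lit 0) .nil) .nil))) 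
(.lf (nat_lit 494206) (.g (nat_lit 2565) (.e (nat_lit 163877) (nat_lit 4) (.e (nat_lit 213032) (nat_lit 11) (.e (nat_lit 24628) (nat_lit 9) (.e (nat_lit 336434) (nat_lit 30) .nil)))) (.g (nat_lit 0) (.e (nat_lit 151438) (nat_lit 0) .nil) .nil)))) (.nd (nat_lit 9) 
(.lf (nat_lit 493950) (.g (nat_lit 1907) (.e (nat_lit 163875) (nat_lit 3) (.e (nat_lit 204862) (nat_lit 27) (.e (nat_lit 344117) (nat_lit 21) (.e (nat_lit 516129) (nat_lit 3) (.e (nat_lit 221210) (nat_lit 22) .nil))))) (.g (nat_lit 0) (.e (nat_lit 150957) (nat_lit 0) .nil) .nil))) 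
(.lf (nat_lit 494462) (.g (nat_lit 2141) (.e (nat_lit 163884) (nat_lit 5) (.e (nat_lit 221193) (nat_lit 11) (.e (nat_lit 336077) (nat_lit 9) (.e (nat_lit 336443) (nat_lit 32) (.e (nat_lit 466971) (nat_lit 21) (.e (nat_lit 164326) (nat_lit 230) .nil)))))) (.g (nat_lit 1) (.e (nat_lit 151813) (nat_lit 0) .nil) .nil))))) (.nd (nat_lit 8) (.nd (nat_lit 9) 
(.lf (nat_lit 493822) (.g (nat_lit 3127) (.e (nat_lit 163875) (nat_lit 3) (.e (nat_lit 204838) (nat_lit 20) (.e (nat_lit 114719) (nat_lit 23) (.e (nat_lit 98367) (nat_lit 27) (.e (nat_lit 434232) (nat_lit 23) (.e (nat_lit 532499) (nat_lit 1) (.e (nat_lit 57692) (nat_lit 156) .nil))))))) (.g (nat_lit 1) (.e (nat_lit 150667) (nat_lit 0) .nil) .nil))) 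
(.lf (nat_lit 494334) (.g (nat_lit 2780) (.e (nat_lit 163881) (nat_lit 4) (.e (nat_lit 213030) (nat_lit 11) (.e (nat_lit 24617) (nat_lit 7) (.e (nat_lit 319533) (nat_lit 16) (.e (nat_lit 286753) (nat_lit 10) .nil))))) (.g (nat_lit 0) (.e (nat_lit 151608) (nat_lit 0) .nil) .nil)))) (.nd (nat_lit 9) 
(.lf (nat_lit 494078) (.g (nat_lit 2312) (.e (nat_lit 163875) (nat_lit 3) (.e (nat_lit 204863) (nat_lit 27) (.e (nat_lit 344117) (nat_lit 21) (.e (nat_lit 516130) (nat_lit 3) (.e (nat_lit 221213) (nat_lit 23) (.e (nat_lit 204830) (nat_lit 18) (.e (nat_lit 57924) (nat_lit 282) .nil))))))) (.g (nat_lit 1) (.e (nat_lit 151085) (nat_lit 0) .nil) .nil))) 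
(.lf (nat_lit 494590) (.g (nat_lit 1788) (.e (nat_lit 163885) (nat_lit 5) (.e (nat_lit 221194) (nat_lit 11) (.e (nat_lit 336086) (nat_lit 9) (.e (nat_lit 336444) (nat_lit 32) (.e (nat_lit 466971) (nat_lit 21) (.e (nat_lit 164324) (nat_lit 230) .nil)))))) (.g (nat_lit 1) (.e (nat_lit 151985) (nat_lit 0) .nil) .nil)))))))))))) 
(.nd (nat_lit 1) (.nd (nat_lit 2) (.nd (nat_lit 3) (.nd (nat_lit 4) (.nd (nat_lit 5) 
(.nd (nat_lit 6) (.nd (nat_lit 7) (.nd (nat_lit 8) (.nd (nat_lit 9) 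
(.lf (nat_lit 493569) (.g (nat_lit 3148) (.e (nat_lit 163875) (nat_lit 3) (.e (nat_lit 204830) (nat_lit 18) (.e (nat_lit 57852) (nat_lit 252) (.e (nat_lit 57430) (nat_lit 16) (.e (nat_lit 368676) (nat_lit 21) (.e (nat_lit 516146) (nat_lit 9) (.e (nat_lit 426422) (nat_lit 16) (.e (nat_lit 57688) (nat_lit 156) .nil)))))))) (.g (nat_lit 1) (.e (nat_lit 150411) (nat_lit 0) .nil) .nil))) 
(.lf (nat_lit 494081) (.g (nat_lit 2234) (.e (nat_lit 163875) (nat_lit 3) (.e (nat_lit 204863) (nat_lit 27) (.e (nat_lit 344117) (nat_lit 21) (.e (nat_lit 516130) (nat_lit 3) (.e (nat_lit 221214) (nat_lit 23) (.e (nat_lit 204829) (nat_lit 18) (.e (nat_lit 57924) (nat_lit 282) .nil))))))) (.g (nat_lit 1) (.e (nat_lit 151088) (nat_lit 0) .nil) .nil)))) (.nd (nat_lit 9) 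
(.lf (nat_lit 493825) (.g (nat_lit 3348) (.e (nat_lit 163875) (nat_lit 3) (.e (nat_lit 204838) (nat_lit 20) (.e (nat_lit 114719) (nat_lit 23) (.e (nat_lit 98367) (nat_lit 27) (.e (nat_lit 434232) (nat_lit 23) (.e (nat_lit 532503) (nat_lit 1) (.e (nat_lit 57685) (nat_lit 156) .nil))))))) (.g (nat_lit 1) (.e (nat_lit 150670) (nat_lit 0) .nil) .nil))) 
(.lf (nat_lit 494337) (.g (nat_lit 2512) (.e (nat_lit 163881) (nat_lit 4) (.e (nat_lit 213030) (nat_lit 11) (.e (nat_lit 24617) (nat_lit 7) (.e (nat_lit 319534) (nat_lit 16) (.e (nat_lit 286756) (nat_lit 10) (.e (nat_lit 344104) (nat_lit 18) (.e (nat_lit 5964) (nat_lit 324) .nil))))))) (.g (nat_lit 1) (.e (nat_lit 151611) (nat_lit 0) .nil) .nil))))) (.nd (nat_lit 8) (.nd (nat_lit 9) 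
(.lf (nat_lit 493697) (.g (nat_lit 3570) (.e (nat_lit 163875) (nat_lit 3) (.e (nat_lit 204837) (nat_lit 20) (.e (nat_lit 114719) (nat_lit 23) (.e (nat_lit 98366) (nat_lit 27) (.e (nat_lit 434232) (nat_lit 23) (.e (nat_lit 532504) (nat_lit 1) (.e (nat_lit 57692) (nat_lit 156) .nil))))))) (.g (nat_lit 1) (.e (nat_lit 150539) (nat_lit 0) .nil) .nil))) 
(.lf (nat_lit 494209) (.g (nat_lit 2033) (.e (nat_lit 163877) (nat_lit 4) (.e (nat_lit 213032) (nat_lit 11) (.e (nat_lit 24629) (nat_lit 9) (.e (nat_lit 336443) (nat_lit 32) (.e (nat_lit 466971) (nat_lit 21) .nil))))) (.g (nat_lit 0) (.e (nat_lit 151441) (nat_lit 0) .nil) .nil)))) (.nd (nat_lit 9) 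
(.lf (nat_lit 493953) (.g (nat_lit 2056) (.e (nat_lit 163875) (nat_lit 3) (.e (nat_lit 204862) (nat_lit 27) (.e (nat_lit 344117) (nat_lit 21) (.e (nat_lit 516129) (nat_lit 3) (.e (nat_lit 221214) (nat_lit 23) .nil))))) (.g (nat_lit 0) (.e (nat_lit 150960) (nat_lit 0) .nil) .nil))) 
(.lf (nat_lit 494465) (.g (nat_lit 2921) (.e (nat_lit 163884) (nat_lit 5) (.e (nat_lit 221193) (nat_lit 11) (.e (nat_lit 336077) (nat_lit 9) (.e (nat_lit 336443) (nat_lit 32) (.e (nat_lit 466972) (nat_lit 21) (.e (nat_lit 164332) (nat_lit 230) .nil)))))) (.g (nat_lit 1) (.e (nat_lit 151816) (nat_lit 0) .nil) .nil)))))) (.nd (nat_lit 7) (.nd (nat_lit 8) (.nd (nat_lit 9) 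
(.lf (nat_lit 493633) (.g (nat_lit 2768) (.e (nat_lit 163875) (nat_lit 3) (.e (nat_lit 204837) (nat_lit 20) (.e (nat_lit 114718) (nat_lit 23) (.e (nat_lit 98365) (nat_lit 26) (.e (nat_lit 426137) (nat_lit 3) (.e (nat_lit 204829) (nat_lit 18) (.e (nat_lit 57688) (nat_lit 156) .nil))))))) (.g (nat_lit 1) (.e (nat_lit 150475) (nat_lit 0) .nil) .nil))) 
(.lf (nat_lit 494145) (.g (nat_lit 1940) (.e (nat_lit 163875) (nat_lit 3) (.e (nat_lit 204865) (nat_lit 28) (.e (nat_lit 352277) (nat_lit 11) (.e (nat_lit 426500) (nat_lit 27) (.e (nat_lit 335988) (nat_lit 1) (.e (nat_lit 57924) (nat_lit 282) .nil)))))) (.g (nat_lit 1) (.e (nat_lit 151152) (nat_lit 0) .nil) .nil)))) (.nd (nat_lit 9) 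
(.lf (nat_lit 493889) (.g (nat_lit 2403) (.e (nat_lit 163875) (nat_lit 3) (.e (nat_lit 204861) (nat_lit 26) (.e (nat_lit 336076) (nat_lit 9) (.e (nat_lit 336368) (nat_lit 27) (.e (nat_lit 426499) (nat_lit 27) (.e (nat_lit 335986) (nat_lit 1) (.e (nat_lit 57927) (nat_lit 282) .nil))))))) (.g (nat_lit 1) (.e (nat_lit 150850) (nat_lit 0) .nil) .nil))) 
(.lf (nat_lit 494401) (.g (nat_lit 985) (.e (nat_lit 163882) (nat_lit 4) (.e (nat_lit 213030) (nat_lit 11) (.e (nat_lit 24660) (nat_lit 13) (.e (nat_lit 401152) (nat_lit 23) .nil)))) (.g (nat_lit 0) (.e (nat_lit 151718) (nat_lit 0) .nil) .nil))))) (.nd (nat_lit 8) (.nd (nat_lit 9) 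
(.lf (nat_lit 493761) (.g (nat_lit 2931) (.e (nat_lit 163875) (nat_lit 3) (.e (nat_lit 204838) (nat_lit 20) (.e (nat_lit 114718) (nat_lit 23) (.e (nat_lit 98365) (nat_lit 26) (.e (nat_lit 426133) (nat_lit 3) (.e (nat_lit 204829) (nat_lit 18) (.e (nat_lit 57686) (nat_lit 156) .nil))))))) (.g (nat_lit 1) (.e (nat_lit 150603) (nat_lit 0) .nil) .nil))) 
(.lf (nat_lit 494273) (.g (nat_lit 335) (.e (nat_lit 163879) (nat_lit 4) (.e (nat_lit 213030) (nat_lit 11) (.e (nat_lit 24660) (nat_lit 13) .nil))) (.g (nat_lit 0) (.e (nat_lit 151517) (nat_lit 0) .nil) .nil)))) (.nd (nat_lit 9) 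
(.lf (nat_lit 494017) (.g (nat_lit 3537) (.e (nat_lit 163875) (nat_lit 3) (.e (nat_lit 204862) (nat_lit 27) (.e (nat_lit 344129) (nat_lit 26) (.e (nat_lit 557103) (nat_lit 14) (.e (nat_lit 180244) (nat_lit 5) (.e (nat_lit 532501) (nat_lit 1) (.e (nat_lit 65280) (nat_lit 168) .nil))))))) (.g (nat_lit 1) (.e (nat_lit 151024) (nat_lit 0) .nil) .nil))) 
(.lf (nat_lit 494529) (.g (nat_lit 823) (.e (nat_lit 163884) (nat_lit 5) (.e (nat_lit 221215) (nat_lit 23) (.e (nat_lit 204813) (nat_lit 9) .nil))) (.g (nat_lit 0) (.e (nat_lit 151912) (nat_lit 0) .nil) .nil))))))) (.nd (nat_lit 6) (.nd (nat_lit 7) (.nd (nat_lit 8) (.nd (nat_lit 9) 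
(.lf (nat_lit 493601) (.g (nat_lit 2358) (.e (nat_lit 163875) (nat_lit 3) (.e (nat_lit 204837) (nat_lit 20) (.e (nat_lit 114714) (nat_lit 22) (.e (nat_lit 90172) (nat_lit 14) (.e (nat_lit 180239) (nat_lit 1) .nil))))) (.g (nat_lit 0) (.e (nat_lit 150443) (nat_lit 0) .nil) .nil))) 
(.lf (nat_lit 494113) (.g (nat_lit 1324) (.e (nat_lit 163875) (nat_lit 3) (.e (nat_lit 204863) (nat_lit 27) (.e (nat_lit 344129) (nat_lit 26) (.e (nat_lit 557104) (nat_lit 14) .nil)))) (.g (nat_lit 0) (.e (nat_lit 151120) (nat_lit 0) .nil) .nil)))) (.nd (nat_lit 9) 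
(.lf (nat_lit 493857) (.g (nat_lit 2492) (.e (nat_lit 163875) (nat_lit 3) (.e (nat_lit 204851) (nat_lit 26) (.e (nat_lit 336019) (nat_lit 3) (.e (nat_lit 98342) (nat_lit 20) (.e (nat_lit 221213) (nat_lit 23) (.e (nat_lit 204830) (nat_lit 18) (.e (nat_lit 57926) (nat_lit 282) .nil))))))) (.g (nat_lit 1) (.e (nat_lit 150704) (nat_lit 0) .nil) .nil))) 
(.lf (nat_lit 494369) (.g (nat_lit 2871) (.e (nat_lit 163881) (nat_lit 4) (.e (nat_lit 213032) (nat_lit 11) (.e (nat_lit 24630) (nat_lit 9) (.e (nat_lit 336443) (nat_lit 32) (.e (nat_lit 466971) (nat_lit 21) (.e (nat_lit 164326) (nat_lit 230) .nil)))))) (.g (nat_lit 1) (.e (nat_lit 151675) (nat_lit 0) .nil) .nil))))) (.nd (nat_lit 8) (.nd (nat_lit 9) 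
(.lf (nat_lit 493729) (.g (nat_lit 2361) (.e (nat_lit 163875) (nat_lit 3) (.e (nat_lit 204837) (nat_lit 20) (.e (nat_lit 114719) (nat_lit 23) (.e (nat_lit 98367) (nat_lit 27) (.e (nat_lit 434234) (nat_lit 23) (.e (nat_lit 532503) (nat_lit 1) (.e (nat_lit 57685) (nat_lit 156) .nil))))))) (.g (nat_lit 1) (.e (nat_lit 150571) (nat_lit 0) .nil) .nil))) 
(.lf (nat_lit 494241) (.g (nat_lit 1070) (.e (nat_lit 163878) (nat_lit 4) (.e (nat_lit 213030) (nat_lit 11) (.e (nat_lit 24660) (nat_lit 13) (.e (nat_lit 401152) (nat_lit 23) .nil)))) (.g (nat_lit 0) (.e (nat_lit 151477) (nat_lit 0) .nil) .nil)))) (.nd (nat_lit 9) 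
(.lf (nat_lit 493985) (.g (nat_lit 3427) (.e (nat_lit 163875) (nat_lit 3) (.e (nat_lit 204862) (nat_lit 27) (.e (nat_lit 344117) (nat_lit 21) (.e (nat_lit 516130) (nat_lit 3) (.e (nat_lit 221215) (nat_lit 23) (.e (nat_lit 204828) (nat_lit 18) (.e (nat_lit 57927) (nat_lit 282) .nil))))))) (.g (nat_lit 1) (.e (nat_lit 150992) (nat_lit 0) .nil) .nil))) 
(.lf (nat_lit 494497) (.g (nat_lit 2323) (.e (nat_lit 163884) (nat_lit 5) (.e (nat_lit 221194) (nat_lit 11) (.e (nat_lit 336077) (nat_lit 9) (.e (nat_lit 336443) (nat_lit 32) (.e (nat_lit 466968) (nat_lit 21) (.e (nat_lit 164332) (nat_lit 230) .nil)))))) (.g (nat_lit 1) (.e (nat_lit 151852) (nat_lit 0) .nil) .nil)))))) (.nd (nat_lit 7) (.nd (nat_lit 8) (.nd (nat_lit 9) 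
(.lf (nat_lit 493665) (.g (nat_lit 2488) (.e (nat_lit 163875) (nat_lit 3) (.e (nat_lit 204837) (nat_lit 20) (.e (nat_lit 114718) (nat_lit 23) (.e (nat_lit 98367) (nat_lit 27) (.e (nat_lit 434234) (nat_lit 23) (.e (nat_lit 532499) (nat_lit 1) (.e (nat_lit 57686) (nat_lit 156) .nil))))))) (.g (nat_lit 1) (.e (nat_lit 150507) (nat_lit 0) .nil) .nil))) 
(.lf (nat_lit 494177) (.g (nat_lit 1424) (.e (nat_lit 163875) (nat_lit 3) (.e (nat_lit 204877) (nat_lit 31) (.e (nat_lit 376842) (nat_lit 11) (.e (nat_lit 426500) (nat_lit 27) (.e (nat_lit 335987) (nat_lit 1) (.e (nat_lit 57927) (nat_lit 282) .nil)))))) (.g (nat_lit 1) (.e (nat_lit 151374) (nat_lit 0) .nil) .nil)))) (.nd (nat_lit 9) 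
(.lf (nat_lit 493921) (.g (nat_lit 3056) (.e (nat_lit 163875) (nat_lit 3) (.e (nat_lit 204862) (nat_lit 27) (.e (nat_lit 344117) (nat_lit 21) (.e (nat_lit 516099) (nat_lit 0) (.e (nat_lit 3771) (nat_lit 229) .nil))))) (.g (nat_lit 0) (.e (nat_lit 150928) (nat_lit 0) .nil) .nil))) 
(.lf (nat_lit 494433) (.g (nat_lit 1890) (.e (nat_lit 163884) (nat_lit 5) (.e (nat_lit 221190) (nat_lit 11) (.e (nat_lit 336076) (nat_lit 9) (.e (nat_lit 336443) (nat_lit 32) (.e (nat_lit 466972) (nat_lit 21) .nil))))) (.g (nat_lit 0) (.e (nat_lit 151784) (nat_lit 0) .nil) .nil))))) (.nd (nat_lit 8) (.nd (nat_lit 9) 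
(.lf (nat_lit 493793) (.g (nat_lit 2703) (.e (nat_lit 163875) (nat_lit 3) (.e (nat_lit 204838) (nat_lit 20) (.e (nat_lit 114719) (nat_lit 23) (.e (nat_lit 98363) (nat_lit 26) (.e (nat_lit 426129) (nat_lit 3) (.e (nat_lit 204829) (nat_lit 18) (.e (nat_lit 57692) (nat_lit 156) .nil))))))) (.g (nat_lit 1) (.e (nat_lit 150635) (nat_lit 0) .nil) .nil))) 
(.lf (nat_lit 494305) (.g (nat_lit 1895) (.e (nat_lit 163880) (nat_lit 4) (.e (nat_lit 213030) (nat_lit 11) (.e (nat_lit 24617) (nat_lit 7) (.e (nat_lit 319533) (nat_lit 16) .nil)))) (.g (nat_lit 0) (.e (nat_lit 151558) (nat_lit 0) .nil) .nil)))) (.nd (nat_lit 9) 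
(.lf (nat_lit 494049) (.g (nat_lit 2258) (.e (nat_lit 163875) (nat_lit 3) (.e (nat_lit 204863) (nat_lit 27) (.e (nat_lit 344117) (nat_lit 21) (.e (nat_lit 516122) (nat_lit 2) (.e (nat_lit 213035) (nat_lit 12) (.e (nat_lit 163965) (nat_lit 25) (.e (nat_lit 532499) (nat_lit 1) (.e (nat_lit 57927) (nat_lit 282) .nil)))))))) (.g (nat_lit 1) (.e (nat_lit 151056) (nat_lit 0) .nil) .nil))) 
(.lf (nat_lit 494561) (.g (nat_lit 3008) (.e (nat_lit 163885) (nat_lit 5) (.e (nat_lit 221194) (nat_lit 11) (.e (nat_lit 336074) (nat_lit 9) (.e (nat_lit 336443) (nat_lit 32) (.e (nat_lit 466969) (nat_lit 21) (.e (nat_lit 164325) (nat_lit 230) .nil)))))) (.g (nat_lit 1) (.e (nat_lit 151956) (nat_lit 0) .nil) .nil)))))))) 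
(.nd (nat_lit 5) (.nd (nat_lit 6) (.nd (nat_lit 7) (.nd (nat_lit 8) (.nd (nat_lit 9) 
(.lf (nat_lit 493585) (.g (nat_lit 3676) (.e (nat_lit 163875) (nat_lit 3) (.e (nat_lit 204836) (nat_lit 20) (.e (nat_lit 114715) (nat_lit 22) (.e (nat_lit 90170) (nat_lit 13) (.e (nat_lit 172065) (nat_lit 3) (.e (nat_lit 204830) (nat_lit 18) (.e (nat_lit 57692) (nat_lit 156) .nil))))))) (.g (nat_lit 1) (.e (nat_lit 150427) (nat_lit 0) .nil) .nil))) 
(.lf (nat_lit 494097) (.g (nat_lit 2453) (.e (nat_lit 163875) (nat_lit 3) (.e (nat_lit 204863) (nat_lit 27) (.e (nat_lit 344117) (nat_lit 21) (.e (nat_lit 516130) (nat_lit 3) (.e (nat_lit 221215) (nat_lit 23) (.e (nat_lit 204831) (nat_lit 18) (.e (nat_lit 57924) (nat_lit 282) .nil))))))) (.g (nat_lit 1) (.e (nat_lit 151104) (nat_lit 0) .nil) .nil)))) (.nd (nat_lit 9) 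
(.lf (nat_lit 493841) (.g (nat_lit 4120) (.e (nat_lit 163875) (nat_lit 3) (.e (nat_lit 204846) (nat_lit 24) (.e (nat_lit 319531) (nat_lit 16) (.e (nat_lit 286735) (nat_lit 3) (.e (nat_lit 98367) (nat_lit 27) (.e (nat_lit 434208) (nat_lit 18) (.e (nat_lit 4421) (nat_lit 261) .nil))))))) (.g (nat_lit 1) (.e (nat_lit 150687) (nat_lit 0) .nil) .nil))) 
(.lf (nat_lit 494353) (.g (nat_lit 868) (.e (nat_lit 163881) (nat_lit 4) (.e (nat_lit 213032) (nat_lit 11) (.e (nat_lit 24624) (nat_lit 9) .nil))) (.g (nat_lit 0) (.e (nat_lit 151651) (nat_lit 0) .nil) .nil))))) (.nd (nat_lit 8) (.nd (nat_lit 9) 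
(.lf (nat_lit 493713) (.g (nat_lit 2506) (.e (nat_lit 163875) (nat_lit 3) (.e (nat_lit 204837) (nat_lit 20) (.e (nat_lit 114719) (nat_lit 23) (.e (nat_lit 98367) (nat_lit 27) (.e (nat_lit 434232) (nat_lit 23) (.e (nat_lit 532501) (nat_lit 1) (.e (nat_lit 57690) (nat_lit 156) .nil))))))) (.g (nat_lit 1) (.e (nat_lit 150555) (nat_lit 0) .nil) .nil))) 
(.lf (nat_lit 494225) (.g (nat_lit 1425) (.e (nat_lit 163877) (nat_lit 4) (.e (nat_lit 213032) (nat_lit 11) (.e (nat_lit 24660) (nat_lit 13) (.e (nat_lit 393286) (nat_lit 25) (.e (nat_lit 458774) (nat_lit 18) .nil))))) (.g (nat_lit 0) (.e (nat_lit 151459) (nat_lit 0) .nil) .nil)))) (.nd (nat_lit 9) 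
(.lf (nat_lit 493969) (.g (nat_lit 2826) (.e (nat_lit 163875) (nat_lit 3) (.e (nat_lit 204862) (nat_lit 27) (.e (nat_lit 344117) (nat_lit 21) (.e (nat_lit 516130) (nat_lit 3) (.e (nat_lit 221213) (nat_lit 23) (.e (nat_lit 204829) (nat_lit 18) (.e (nat_lit 57928) (nat_lit 282) .nil))))))) (.g (nat_lit 1) (.e (nat_lit 150976) (nat_lit 0) .nil) .nil))) 
(.lf (nat_lit 494481) (.g (nat_lit 3453) (.e (nat_lit 163884) (nat_lit 5) (.e (nat_lit 221194) (nat_lit 11) (.e (nat_lit 336075) (nat_lit 9) (.e (nat_lit 336443) (nat_lit 32) (.e (nat_lit 466969) (nat_lit 21) (.e (nat_lit 164326) (nat_lit 230) .nil)))))) (.g (nat_lit 1) (.e (nat_lit 151836) (nat_lit 0) .nil) .nil)))))) (.nd (nat_lit 7) (.nd (nat_lit 8) (.nd (nat_lit 9) 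
(.lf (nat_lit 493649) (.g (nat_lit 4696) (.e (nat_lit 163875) (nat_lit 3) (.e (nat_lit 204837) (nat_lit 20) (.e (nat_lit 114718) (nat_lit 23) (.e (nat_lit 98367) (nat_lit 27) (.e (nat_lit 434231) (nat_lit 23) (.e (nat_lit 532499) (nat_lit 1) (.e (nat_lit 57692) (nat_lit 156) .nil))))))) (.g (nat_lit 1) (.e (nat_lit 150491) (nat_lit 0) .nil) .nil))) 
(.lf (nat_lit 494161) (.g (nat_lit 2077) (.e (nat_lit 163875) (nat_lit 3) (.e (nat_lit 204873) (nat_lit 30) (.e (nat_lit 368676) (nat_lit 21) (.e (nat_lit 516131) (nat_lit 3) (.e (nat_lit 221215) (nat_lit 23) (.e (nat_lit 204829) (nat_lit 18) (.e (nat_lit 57925) (nat_lit 282) .nil))))))) (.g (nat_lit 1) (.e (nat_lit 151358) (nat_lit 0) .nil) .nil)))) (.nd (nat_lit 9) 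
(.lf (nat_lit 493905) (.g (nat_lit 2134) (.e (nat_lit 163875) (nat_lit 3) (.e (nat_lit 204861) (nat_lit 26) (.e (nat_lit 336213) (nat_lit 13) (.e (nat_lit 393225) (nat_lit 9) (.e (nat_lit 335899) (nat_lit 0) .nil))))) (.g (nat_lit 0) (.e (nat_lit 150902) (nat_lit 0) .nil) .nil))) 
(.lf (nat_lit 494417) (.g (nat_lit 1253) (.e (nat_lit 163882) (nat_lit 4) (.e (nat_lit 213032) (nat_lit 11) (.e (nat_lit 24627) (nat_lit 9) (.e (nat_lit 336434) (nat_lit 30) .nil)))) (.g (nat_lit 0) (.e (nat_lit 151757) (nat_lit 0) .nil) .nil))))) (.nd (nat_lit 8) (.nd (nat_lit 9) 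
(.lf (nat_lit 493777) (.g (nat_lit 2105) (.e (nat_lit 163875) (nat_lit 3) (.e (nat_lit 204838) (nat_lit 20) (.e (nat_lit 114718) (nat_lit 23) (.e (nat_lit 98367) (nat_lit 27) (.e (nat_lit 434232) (nat_lit 23) (.e (nat_lit 532499) (nat_lit 1) (.e (nat_lit 57686) (nat_lit 156) .nil))))))) (.g (nat_lit 1) (.e (nat_lit 150619) (nat_lit 0) .nil) .nil))) 
(.lf (nat_lit 494289) (.g (nat_lit 2072) (.e (nat_lit 163879) (nat_lit 4) (.e (nat_lit 213032) (nat_lit 11) (.e (nat_lit 24657) (nat_lit 13) (.e (nat_lit 393281) (nat_lit 23) (.e (nat_lit 426098) (nat_lit 1) .nil))))) (.g (nat_lit 0) (.e (nat_lit 151542) (nat_lit 0) .nil) .nil)))) (.nd (nat_lit 9) 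
(.lf (nat_lit 494033) (.g (nat_lit 3171) (.e (nat_lit 163875) (nat_lit 3) (.e (nat_lit 204862) (nat_lit 27) (.e (nat_lit 344130) (nat_lit 26) (.e (nat_lit 557103) (nat_lit 14) (.e (nat_lit 180243) (nat_lit 5) (.e (nat_lit 532504) (nat_lit 1) (.e (nat_lit 65280) (nat_lit 168) .nil))))))) (.g (nat_lit 1) (.e (nat_lit 151040) (nat_lit 0) .nil) .nil))) 
(.lf (nat_lit 494545) (.g (nat_lit 1702) (.e (nat_lit 163885) (nat_lit 5) (.e (nat_lit 221191) (nat_lit 11) (.e (nat_lit 336153) (nat_lit 9) (.e (nat_lit 336442) (nat_lit 32) (.e (nat_lit 466969) (nat_lit 21) (.e (nat_lit 164329) (nat_lit 230) .nil)))))) (.g (nat_lit 1) (.e (nat_lit 151937) (nat_lit 0) .nil) .nil))))))) (.nd (nat_lit 6) (.nd (nat_lit 7) (.nd (nat_lit 8) (.nd (nat_lit 9) 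
(.lf (nat_lit 493617) (.g (nat_lit 4246) (.e (nat_lit 163875) (nat_lit 3) (.e (nat_lit 204837) (nat_lit 20) (.e (nat_lit 114715) (nat_lit 22) (.e (nat_lit 90170) (nat_lit 13) (.e (nat_lit 172067) (nat_lit 3) (.e (nat_lit 204830) (nat_lit 18) (.e (nat_lit 57689) (nat_lit 156) .nil))))))) (.g (nat_lit 1) (.e (nat_lit 150459) (nat_lit 0) .nil) .nil))) 
(.lf (nat_lit 494129) (.g (nat_lit 2565) (.e (nat_lit 163875) (nat_lit 3) (.e (nat_lit 204863) (nat_lit 27) (.e (nat_lit 344133) (nat_lit 26) (.e (nat_lit 557103) (nat_lit 14) (.e (nat_lit 180244) (nat_lit 5) (.e (nat_lit 532503) (nat_lit 1) (.e (nat_lit 65280) (nat_lit 168) .nil))))))) (.g (nat_lit 1) (.e (nat_lit 151136) (nat_lit 0) .nil) .nil)))) (.nd (nat_lit 9) 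
(.lf (nat_lit 493873) (.g (nat_lit 2277) (.e (nat_lit 163875) (nat_lit 3) (.e (nat_lit 204859) (nat_lit 26) (.e (nat_lit 336118) (nat_lit 9) (.e (nat_lit 336453) (nat_lit 34) (.e (nat_lit 483363) (nat_lit 18) (.e (nat_lit 57927) (nat_lit 282) .nil)))))) (.g (nat_lit 1) (.e (nat_lit 150763) (nat_lit 0) .nil) .nil))) 
(.lf (nat_lit 494385) (.g (nat_lit 2580) (.e (nat_lit 163882) (nat_lit 4) (.e (nat_lit 213030) (nat_lit 11) (.e (nat_lit 24617) (nat_lit 7) (.e (nat_lit 319534) (nat_lit 16) (.e (nat_lit 286749) (nat_lit 9) (.e (nat_lit 335907) (nat_lit 0) (.e (nat_lit 970) (nat_lit 81) (.e (nat_lit 5967) (nat_lit 324) .nil)))))))) (.g (nat_lit 1) (.e (nat_lit 151696) (nat_lit 0) .nil) .nil))))) 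
(.nd (nat_lit 8) (.nd (nat_lit 9) 
(.lf (nat_lit 493745) (.g (nat_lit 4319) (.e (nat_lit 163875) (nat_lit 3) (.e (nat_lit 204838) (nat_lit 20) (.e (nat_lit 114715) (nat_lit 22) (.e (nat_lit 90170) (nat_lit 13) (.e (nat_lit 172067) (nat_lit 3) (.e (nat_lit 204829) (nat_lit 18) (.e (nat_lit 57692) (nat_lit 156) .nil))))))) (.g (nat_lit 1) (.e (nat_lit 150587) (nat_lit 0) .nil) .nil))) 
(.lf (nat_lit 494257) (.g (nat_lit 2689) (.e (nat_lit 163878) (nat_lit 4) (.e (nat_lit 213032) (nat_lit 11) (.e (nat_lit 24628) (nat_lit 9) (.e (nat_lit 336443) (nat_lit 32) (.e (nat_lit 466969) (nat_lit 21) (.e (nat_lit 164329) (nat_lit 230) .nil)))))) (.g (nat_lit 1) (.e (nat_lit 151494) (nat_lit 0) .nil) .nil)))) (.nd (nat_lit 9) 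
(.lf (nat_lit 494001) (.g (nat_lit 4471) (.e (nat_lit 163875) (nat_lit 3) (.e (nat_lit 204862) (nat_lit 27) (.e (nat_lit 344117) (nat_lit 21) (.e (nat_lit 516195) (nat_lit 26) (.e (nat_lit 336027) (nat_lit 3) (.e (nat_lit 98333) (nat_lit 18) (.e (nat_lit 171776) (nat_lit 162) .nil))))))) (.g (nat_lit 1) (.e (nat_lit 151008) (nat_lit 0) .nil) .nil))) 
(.lf (nat_lit 494513) (.g (nat_lit 1717) (.e (nat_lit 163884) (nat_lit 5) (.e (nat_lit 221194) (nat_lit 11) (.e (nat_lit 336086) (nat_lit 9) (.e (nat_lit 336444) (nat_lit 32) (.e (nat_lit 466971) (nat_lit 21) (.e (nat_lit 164332) (nat_lit 230) .nil)))))) (.g (nat_lit 1) (.e (nat_lit 151868) (nat_lit 0) .nil) .nil)))))) (.nd (nat_lit 7) (.nd (nat_lit 8) (.nd (nat_lit 9) 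
(.lf (nat_lit 493681) (.g (nat_lit 2704) (.e (nat_lit 163875) (nat_lit 3) (.e (nat_lit 204837) (nat_lit 20) (.e (nat_lit 114719) (nat_lit 23) (.e (nat_lit 98365) (nat_lit 26) (.e (nat_lit 426138) (nat_lit 3) (.e (nat_lit 204831) (nat_lit 18) (.e (nat_lit 57685) (nat_lit 156) .nil))))))) (.g (nat_lit 1) (.e (nat_lit 150523) (nat_lit 0) .nil) .nil))) 
(.lf (nat_lit 494193) (.g (nat_lit 2304) (.e (nat_lit 163877) (nat_lit 4) (.e (nat_lit 213032) (nat_lit 11) (.e (nat_lit 24624) (nat_lit 9) (.e (nat_lit 336443) (nat_lit 32) (.e (nat_lit 466969) (nat_lit 21) .nil))))) (.g (nat_lit 0) (.e (nat_lit 151425) (nat_lit 0) .nil) .nil)))) (.nd (nat_lit 9) 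
(.lf (nat_lit 493937) (.g (nat_lit 2286) (.e (nat_lit 163875) (nat_lit 3) (.e (nat_lit 204862) (nat_lit 27) (.e (nat_lit 344117) (nat_lit 21) (.e (nat_lit 516123) (nat_lit 2) (.e (nat_lit 213033) (nat_lit 12) (.e (nat_lit 163965) (nat_lit 25) (.e (nat_lit 532499) (nat_lit 1) (.e (nat_lit 57927) (nat_lit 282) .nil)))))))) (.g (nat_lit 1) (.e (nat_lit 150944) (nat_lit 0) .nil) .nil))) 
(.lf (nat_lit 494449) (.g (nat_lit 1935) (.e (nat_lit 163884) (nat_lit 5) (.e (nat_lit 221193) (nat_lit 11) (.e (nat_lit 336075) (nat_lit 9) (.e (nat_lit 336443) (nat_lit 32) (.e (nat_lit 466969) (nat_lit 21) (.e (nat_lit 164327) (nat_lit 230) .nil)))))) (.g (nat_lit 1) (.e (nat_lit 151800) (nat_lit 0) .nil) .nil))))) (.nd (nat_lit 8) (.nd (nat_lit 9) 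
(.lf (nat_lit 493809) (.g (nat_lit 1579) (.e (nat_lit 163875) (nat_lit 3) (.e (nat_lit 204838) (nat_lit 20) (.e (nat_lit 114719) (nat_lit 23) (.e (nat_lit 98366) (nat_lit 27) (.e (nat_lit 434233) (nat_lit 23) .nil))))) (.g (nat_lit 0) (.e (nat_lit 150654) (nat_lit 0) .nil) .nil))) 
(.lf (nat_lit 494321) (.g (nat_lit 2111) (.e (nat_lit 163880) (nat_lit 4) (.e (nat_lit 213031) (nat_lit 11) (.e (nat_lit 24655) (nat_lit 13) (.e (nat_lit 393281) (nat_lit 23) (.e (nat_lit 426100) (nat_lit 1) .nil))))) (.g (nat_lit 0) (.e (nat_lit 151576) (nat_lit 0) .nil) .nil)))) (.nd (nat_lit 9) 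
(.lf (nat_lit 494065) (.g (nat_lit 3898) (.e (nat_lit 163875) (nat_lit 3) (.e (nat_lit 204863) (nat_lit 27) (.e (nat_lit 344117) (nat_lit 21) (.e (nat_lit 516129) (nat_lit 3) (.e (nat_lit 221214) (nat_lit 23) (.e (nat_lit 204830) (nat_lit 18) (.e (nat_lit 57926) (nat_lit 282) .nil))))))) (.g (nat_lit 1) (.e (nat_lit 151072) (nat_lit 0) .nil) .nil))) 
(.lf (nat_lit 494577) (.g (nat_lit 3214) (.e (nat_lit 163885) (nat_lit 5) (.e (nat_lit 221194) (nat_lit 11) (.e (nat_lit 336075) (nat_lit 9) (.e (nat_lit 336443) (nat_lit 32) (.e (nat_lit 466972) (nat_lit 21) (.e (nat_lit 164329) (nat_lit 230) .nil)))))) (.g (nat_lit 1) (.e (nat_lit 151972) (nat_lit 0) .nil) .nil))))))))) 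
(.nd (nat_lit 4) (.nd (nat_lit 5) (.nd (nat_lit 6) (.nd (nat_lit 7) (.nd (nat_lit 8) 
(.nd (nat_lit 9) 
(.lf (nat_lit 493577) (.g (nat_lit 3340) (.e (nat_lit 163875) (nat_lit 3) (.e (nat_lit 204830) (nat_lit 18) (.e (nat_lit 57854) (nat_lit 252) (.e (nat_lit 57409) (nat_lit 12) (.e (nat_lit 336019) (nat_lit 3) (.e (nat_lit 98356) (nat_lit 26) (.e (nat_lit 426422) (nat_lit 16) (.e (nat_lit 57691) (nat_lit 156) .nil)))))))) (.g (nat_lit 1) (.e (nat_lit 150419) (nat_lit 0) .nil) .nil))) 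
(.lf (nat_lit 494089) (.g (nat_lit 2379) (.e (nat_lit 163875) (nat_lit 3) (.e (nat_lit 204863) (nat_lit 27) (.e (nat_lit 344117) (nat_lit 21) (.e (nat_lit 516130) (nat_lit 3) (.e (nat_lit 221215) (nat_lit 23) (.e (nat_lit 204829) (nat_lit 18) (.e (nat_lit 57924) (nat_lit 282) .nil))))))) (.g (nat_lit 1) (.e (nat_lit 151096) (nat_lit 0) .nil) .nil)))) (.nd (nat_lit 9) 
(.lf (nat_lit 493833) (.g (nat_lit 2890) (.e (nat_lit 163875) (nat_lit 3) (.e (nat_lit 204838) (nat_lit 20) (.e (nat_lit 114719) (nat_lit 23) (.e (nat_lit 98367) (nat_lit 27) (.e (nat_lit 434234) (nat_lit 23) (.e (nat_lit 532499) (nat_lit 1) (.e (nat_lit 57692) (nat_lit 156) .nil))))))) (.g (nat_lit 1) (.e (nat_lit 150678) (nat_lit 0) .nil) .nil))) 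
(.lf (nat_lit 494345) (.g (nat_lit 2202) (.e (nat_lit 163881) (nat_lit 4) (.e (nat_lit 213030) (nat_lit 11) (.e (nat_lit 24655) (nat_lit 13) (.e (nat_lit 393281) (nat_lit 23) (.e (nat_lit 426098) (nat_lit 1) .nil))))) (.g (nat_lit 0) (.e (nat_lit 151623) (nat_lit 0) .nil) .nil))))) (.nd (nat_lit 8) (.nd (nat_lit 9) 
(.lf (nat_lit 493705) (.g (nat_lit 4924) (.e (nat_lit 163875) (nat_lit 3) (.e (nat_lit 204837) (nat_lit 20) (.e (nat_lit 114719) (nat_lit 23) (.e (nat_lit 98367) (nat_lit 27) (.e (nat_lit 434231) (nat_lit 23) (.e (nat_lit 532499) (nat_lit 1) (.e (nat_lit 57692) (nat_lit 156) .nil))))))) (.g (nat_lit 1) (.e (nat_lit 150547) (nat_lit 0) .nil) .nil))) 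
(.lf (nat_lit 494217) (.g (nat_lit 1516) (.e (nat_lit 163877) (nat_lit 4) (.e (nat_lit 213032) (nat_lit 11) (.e (nat_lit 24657) (nat_lit 13) (.e (nat_lit 393281) (nat_lit 23) .nil)))) (.g (nat_lit 0) (.e (nat_lit 151451) (nat_lit 0) .nil) .nil)))) (.nd (nat_lit 9) 
(.lf (nat_lit 493961) (.g (nat_lit 3769) (.e (nat_lit 163875) (nat_lit 3) (.e (nat_lit 204862) (nat_lit 27) (.e (nat_lit 344117) (nat_lit 21) (.e (nat_lit 516129) (nat_lit 3) (.e (nat_lit 221215) (nat_lit 23) (.e (nat_lit 204830) (nat_lit 18) (.e (nat_lit 57925) (nat_lit 282) .nil))))))) (.g (nat_lit 1) (.e (nat_lit 150968) (nat_lit 0) .nil) .nil))) 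
(.lf (nat_lit 494473) (.g (nat_lit 564) (.e (nat_lit 163884) (nat_lit 5) (.e (nat_lit 221193) (nat_lit 11) (.e (nat_lit 336150) (nat_lit 9) (.e (nat_lit 336442) (nat_lit 32) .nil)))) (.g (nat_lit 0) (.e (nat_lit 151824) (nat_lit 0) .nil) .nil)))))) (.nd (nat_lit 7) (.nd (nat_lit 8) (.nd (nat_lit 9) 
(.lf (nat_lit 493641) (.g (nat_lit 3605) (.e (nat_lit 163875) (nat_lit 3) (.e (nat_lit 204837) (nat_lit 20) (.e (nat_lit 114718) (nat_lit 23) (.e (nat_lit 98365) (nat_lit 26) (.e (nat_lit 426139) (nat_lit 3) (.e (nat_lit 204829) (nat_lit 18) (.e (nat_lit 57686) (nat_lit 156) .nil))))))) (.g (nat_lit 1) (.e (nat_lit 150483) (nat_lit 0) .nil) .nil))) 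
(.lf (nat_lit 494153) (.g (nat_lit 1739) (.e (nat_lit 163875) (nat_lit 3) (.e (nat_lit 204866) (nat_lit 28) (.e (nat_lit 360192) (nat_lit 18) (.e (nat_lit 483363) (nat_lit 18) (.e (nat_lit 57924) (nat_lit 282) .nil))))) (.g (nat_lit 1) (.e (nat_lit 151168) (nat_lit 0) .nil) .nil)))) (.nd (nat_lit 9) 
(.lf (nat_lit 493897) (.g (nat_lit 3387) (.e (nat_lit 163875) (nat_lit 3) (.e (nat_lit 204861) (nat_lit 26) (.e (nat_lit 336076) (nat_lit 9) (.e (nat_lit 336454) (nat_lit 34) (.e (nat_lit 483364) (nat_lit 18) (.e (nat_lit 57928) (nat_lit 282) .nil)))))) (.g (nat_lit 1) (.e (nat_lit 150885) (nat_lit 0) .nil) .nil))) 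
(.lf (nat_lit 494409) (.g (nat_lit 1068) (.e (nat_lit 163882) (nat_lit 4) (.e (nat_lit 213031) (nat_lit 11) (.e (nat_lit 24660) (nat_lit 13) (.e (nat_lit 393283) (nat_lit 24) (.e (nat_lit 434209) (nat_lit 18) .nil))))) (.g (nat_lit 0) (.e (nat_lit 151728) (nat_lit 0) .nil) .nil))))) (.nd (nat_lit 8) (.nd (nat_lit 9) 
(.lf (nat_lit 493769) (.g (nat_lit 3586) (.e (nat_lit 163875) (nat_lit 3) (.e (nat_lit 204838) (nat_lit 20) (.e (nat_lit 114718) (nat_lit 23) (.e (nat_lit 98366) (nat_lit 27) (.e (nat_lit 434231) (nat_lit 23) (.e (nat_lit 532499) (nat_lit 1) (.e (nat_lit 57692) (nat_lit 156) .nil))))))) (.g (nat_lit 1) (.e (nat_lit 150611) (nat_lit 0) .nil) .nil))) 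
(.lf (nat_lit 494281) (.g (nat_lit 998) (.e (nat_lit 163879) (nat_lit 4) (.e (nat_lit 213032) (nat_lit 11) (.e (nat_lit 24627) (nat_lit 9) .nil))) (.g (nat_lit 0) (.e (nat_lit 151528) (nat_lit 0) .nil) .nil)))) (.nd (nat_lit 9) 
(.lf (nat_lit 494025) (.g (nat_lit 2894) (.e (nat_lit 163875) (nat_lit 3) (.e (nat_lit 204862) (nat_lit 27) (.e (nat_lit 344129) (nat_lit 26) (.e (nat_lit 557104) (nat_lit 14) (.e (nat_lit 180245) (nat_lit 5) .nil))))) (.g (nat_lit 0) (.e (nat_lit 151032) (nat_lit 0) .nil) .nil))) 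
(.lf (nat_lit 494537) (.g (nat_lit 1773) (.e (nat_lit 163885) (nat_lit 5) (.e (nat_lit 221190) (nat_lit 11) (.e (nat_lit 336078) (nat_lit 9) (.e (nat_lit 336443) (nat_lit 32) (.e (nat_lit 466969) (nat_lit 21) .nil))))) (.g (nat_lit 0) (.e (nat_lit 151929) (nat_lit 0) .nil) .nil))))))) (.nd (nat_lit 6) (.nd (nat_lit 7) (.nd (nat_lit 8) (.nd (nat_lit 9) 
(.lf (nat_lit 493609) (.g (nat_lit 2426) (.e (nat_lit 163875) (nat_lit 3) (.e (nat_lit 204837) (nat_lit 20) (.e (nat_lit 114715) (nat_lit 22) (.e (nat_lit 90170) (nat_lit 13) (.e (nat_lit 172065) (nat_lit 3) (.e (nat_lit 204831) (nat_lit 18) (.e (nat_lit 57686) (nat_lit 156) .nil))))))) (.g (nat_lit 1) (.e (nat_lit 150451) (nat_lit 0) .nil) .nil))) 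
(.lf (nat_lit 494121) (.g (nat_lit 878) (.e (nat_lit 163875) (nat_lit 3) (.e (nat_lit 204863) (nat_lit 27) (.e (nat_lit 344131) (nat_lit 26) .nil))) (.g (nat_lit 0) (.e (nat_lit 151128) (nat_lit 0) .nil) .nil)))) (.nd (nat_lit 9) 
(.lf (nat_lit 493865) (.g (nat_lit 2027) (.e (nat_lit 163875) (nat_lit 3) (.e (nat_lit 204852) (nat_lit 26) (.e (nat_lit 336211) (nat_lit 13) (.e (nat_lit 393225) (nat_lit 9) (.e (nat_lit 335986) (nat_lit 1) (.e (nat_lit 57927) (nat_lit 282) .nil)))))) (.g (nat_lit 1) (.e (nat_lit 150729) (nat_lit 0) .nil) .nil))) 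
(.lf (nat_lit 494377) (.g (nat_lit 2129) (.e (nat_lit 163881) (nat_lit 4) (.e (nat_lit 213032) (nat_lit 11) (.e (nat_lit 24660) (nat_lit 13) (.e (nat_lit 393266) (nat_lit 23) (.e (nat_lit 426109) (nat_lit 1) (.e (nat_lit 164326) (nat_lit 230) .nil)))))) (.g (nat_lit 1) (.e (nat_lit 151684) (nat_lit 0) .nil) .nil))))) (.nd (nat_lit 8) (.nd (nat_lit 9) 
(.lf (nat_lit 493737) (.g (nat_lit 2450) (.e (nat_lit 163875) (nat_lit 3) (.e (nat_lit 204838) (nat_lit 20) (.e (nat_lit 114715) (nat_lit 22) (.e (nat_lit 90170) (nat_lit 13) (.e (nat_lit 172046) (nat_lit 0) (.e (nat_lit 3238) (nat_lit 197) (.e (nat_lit 532502) (nat_lit 1) (.e (nat_lit 57692) (nat_lit 156) .nil)))))))) (.g (nat_lit 1) (.e (nat_lit 150579) (nat_lit 0) .nil) .nil))) 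
(.lf (nat_lit 494249) (.g (nat_lit 2933) (.e (nat_lit 163878) (nat_lit 4) (.e (nat_lit 213032) (nat_lit 11) (.e (nat_lit 24624) (nat_lit 9) (.e (nat_lit 336443) (nat_lit 32) (.e (nat_lit 466972) (nat_lit 21) (.e (nat_lit 164332) (nat_lit 230) .nil)))))) (.g (nat_lit 1) (.e (nat_lit 151486) (nat_lit 0) .nil) .nil)))) (.nd (nat_lit 9) 
(.lf (nat_lit 493993) (.g (nat_lit 4318) (.e (nat_lit 163875) (nat_lit 3) (.e (nat_lit 204862) (nat_lit 27) (.e (nat_lit 344117) (nat_lit 21) (.e (nat_lit 516130) (nat_lit 3) (.e (nat_lit 221215) (nat_lit 23) (.e (nat_lit 204830) (nat_lit 18) (.e (nat_lit 57927) (nat_lit 282) .nil))))))) (.g (nat_lit 1) (.e (nat_lit 151000) (nat_lit 0) .nil) .nil))) 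
(.lf (nat_lit 494505) (.g (nat_lit 3321) (.e (nat_lit 163884) (nat_lit 5) (.e (nat_lit 221194) (nat_lit 11) (.e (nat_lit 336077) (nat_lit 9) (.e (nat_lit 336443) (nat_lit 32) (.e (nat_lit 466972) (nat_lit 21) (.e (nat_lit 164330) (nat_lit 230) .nil)))))) (.g (nat_lit 1) (.e (nat_lit 151860) (nat_lit 0) .nil) .nil)))))) (.nd (nat_lit 7) (.nd (nat_lit 8) (.nd (nat_lit 9) 
(.lf (nat_lit 493673) (.g (nat_lit 2547) (.e (nat_lit 163875) (nat_lit 3) (.e (nat_lit 204837) (nat_lit 20) (.e (nat_lit 114718) (nat_lit 23) (.e (nat_lit 98384) (nat_lit 32) (.e (nat_lit 475179) (nat_lit 24) (.e (nat_lit 516119) (nat_lit 1) (.e (nat_lit 164326) (nat_lit 230) .nil))))))) (.g (nat_lit 1) (.e (nat_lit 150515) (nat_lit 0) .nil) .nil))) 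
(.lf (nat_lit 494185) (.g (nat_lit 2487) (.e (nat_lit 163876) (nat_lit 4) (.e (nat_lit 213032) (nat_lit 11) (.e (nat_lit 24628) (nat_lit 9) (.e (nat_lit 336443) (nat_lit 32) (.e (nat_lit 466972) (nat_lit 21) .nil))))) (.g (nat_lit 0) (.e (nat_lit 151415) (nat_lit 0) .nil) .nil)))) (.nd (nat_lit 9) 
(.lf (nat_lit 493929) (.g (nat_lit 2400) (.e (nat_lit 163875) (nat_lit 3) (.e (nat_lit 204862) (nat_lit 27) (.e (nat_lit 344117) (nat_lit 21) (.e (nat_lit 516122) (nat_lit 2) (.e (nat_lit 213036) (nat_lit 13) (.e (nat_lit 229433) (nat_lit 25) (.e (nat_lit 532501) (nat_lit 1) (.e (nat_lit 57925) (nat_lit 282) .nil)))))))) (.g (nat_lit 1) (.e (nat_lit 150936) (nat_lit 0) .nil) .nil))) 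
(.lf (nat_lit 494441) (.g (nat_lit 1788) (.e (nat_lit 163884) (nat_lit 5) (.e (nat_lit 221192) (nat_lit 11) (.e (nat_lit 336152) (nat_lit 9) (.e (nat_lit 336442) (nat_lit 32) (.e (nat_lit 466969) (nat_lit 21) (.e (nat_lit 164330) (nat_lit 230) .nil)))))) (.g (nat_lit 1) (.e (nat_lit 151792) (nat_lit 0) .nil) .nil))))) (.nd (nat_lit 8) (.nd (nat_lit 9) 
(.lf (nat_lit 493801) (.g (nat_lit 3612) (.e (nat_lit 163875) (nat_lit 3) (.e (nat_lit 204838) (nat_lit 20) (.e (nat_lit 114719) (nat_lit 23) (.e (nat_lit 98366) (nat_lit 27) (.e (nat_lit 434231) (nat_lit 23) (.e (nat_lit 532499) (nat_lit 1) (.e (nat_lit 57691) (nat_lit 156) .nil))))))) (.g (nat_lit 1) (.e (nat_lit 150646) (nat_lit 0) .nil) .nil))) 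
(.lf (nat_lit 494313) (.g (nat_lit 2210) (.e (nat_lit 163880) (nat_lit 4) (.e (nat_lit 213030) (nat_lit 11) (.e (nat_lit 24655) (nat_lit 13) (.e (nat_lit 393281) (nat_lit 23) (.e (nat_lit 426099) (nat_lit 1) .nil))))) (.g (nat_lit 0) (.e (nat_lit 151567) (nat_lit 0) .nil) .nil)))) (.nd (nat_lit 9) 
(.lf (nat_lit 494057) (.g (nat_lit 2379) (.e (nat_lit 163875) (nat_lit 3) (.e (nat_lit 204863) (nat_lit 27) (.e (nat_lit 344117) (nat_lit 21) (.e (nat_lit 516123) (nat_lit 2) (.e (nat_lit 220928) (nat_lit 13) (.e (nat_lit 229433) (nat_lit 25) (.e (nat_lit 532501) (nat_lit 1) (.e (nat_lit 57926) (nat_lit 282) .nil)))))))) (.g (nat_lit 1) (.e (nat_lit 151064) (nat_lit 0) .nil) .nil))) 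
(.lf (nat_lit 494569) (.g (nat_lit 3050) (.e (nat_lit 163885) (nat_lit 5) (.e (nat_lit 221194) (nat_lit 11) (.e (nat_lit 336075) (nat_lit 9) (.e (nat_lit 336443) (nat_lit 32) (.e (nat_lit 466969) (nat_lit 21) (.e (nat_lit 164325) (nat_lit 230) .nil)))))) (.g (nat_lit 1) (.e (nat_lit 151964) (nat_lit 0) .nil) .nil)))))))) 
(.nd (nat_lit 5) (.nd (nat_lit 6) (.nd (nat_lit 7) (.nd (nat_lit 8) (.nd (nat_lit 9) 
(.lf (nat_lit 493593) (.g (nat_lit 3979) (.e (nat_lit 163875) (nat_lit 3) (.e (nat_lit 204836) (nat_lit 20) (.e (nat_lit 114719) (nat_lit 23) (.e (nat_lit 98367) (nat_lit 27) (.e (nat_lit 434231) (nat_lit 23) (.e (nat_lit 532499) (nat_lit 1) (.e (nat_lit 57692) (nat_lit 156) .nil))))))) (.g (nat_lit 1) (.e (nat_lit 150435) (nat_lit 0) .nil) .nil))) 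
(.lf (nat_lit 494105) (.g (nat_lit 2843) (.e (nat_lit 163875) (nat_lit 3) (.e (nat_lit 204863) (nat_lit 27) (.e (nat_lit 344129) (nat_lit 26) (.e (nat_lit 557097) (nat_lit 13) (.e (nat_lit 172065) (nat_lit 3) (.e (nat_lit 204830) (nat_lit 18) (.e (nat_lit 65280) (nat_lit 168) .nil))))))) (.g (nat_lit 1) (.e (nat_lit 151112) (nat_lit 0) .nil) .nil)))) (.nd (nat_lit 9) 
(.lf (nat_lit 493849) (.g (nat_lit 2588) (.e (nat_lit 163875) (nat_lit 3) (.e (nat_lit 204850) (nat_lit 26) (.e (nat_lit 336028) (nat_lit 3) (.e (nat_lit 98342) (nat_lit 20) (.e (nat_lit 221214) (nat_lit 23) (.e (nat_lit 204830) (nat_lit 18) (.e (nat_lit 57927) (nat_lit 282) .nil))))))) (.g (nat_lit 1) (.e (nat_lit 150696) (nat_lit 0) .nil) .nil))) 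
(.lf (nat_lit 494361) (.g (nat_lit 2869) (.e (nat_lit 163881) (nat_lit 4) (.e (nat_lit 213032) (nat_lit 11) (.e (nat_lit 24628) (nat_lit 9) (.e (nat_lit 336443) (nat_lit 32) (.e (nat_lit 466971) (nat_lit 21) (.e (nat_lit 164325) (nat_lit 230) .nil)))))) (.g (nat_lit 1) (.e (nat_lit 151661) (nat_lit 0) .nil) .nil))))) (.nd (nat_lit 8) (.nd (nat_lit 9) 
(.lf (nat_lit 493721) (.g (nat_lit 2418) (.e (nat_lit 163875) (nat_lit 3) (.e (nat_lit 204837) (nat_lit 20) (.e (nat_lit 114719) (nat_lit 23) (.e (nat_lit 98367) (nat_lit 27) (.e (nat_lit 434232) (nat_lit 23) (.e (nat_lit 532504) (nat_lit 1) (.e (nat_lit 57685) (nat_lit 156) .nil))))))) (.g (nat_lit 1) (.e (nat_lit 150563) (nat_lit 0) .nil) .nil))) 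
(.lf (nat_lit 494233) (.g (nat_lit 1617) (.e (nat_lit 163878) (nat_lit 4) (.e (nat_lit 213030) (nat_lit 11) (.e (nat_lit 24656) (nat_lit 13) (.e (nat_lit 393281) (nat_lit 23) (.e (nat_lit 426100) (nat_lit 1) .nil))))) (.g (nat_lit 0) (.e (nat_lit 151469) (nat_lit 0) .nil) .nil)))) (.nd (nat_lit 9) 
(.lf (nat_lit 493977) (.g (nat_lit 4427) (.e (nat_lit 163875) (nat_lit 3) (.e (nat_lit 204862) (nat_lit 27) (.e (nat_lit 344117) (nat_lit 21) (.e (nat_lit 516130) (nat_lit 3) (.e (nat_lit 221214) (nat_lit 23) (.e (nat_lit 204829) (nat_lit 18) (.e (nat_lit 57927) (nat_lit 282) .nil))))))) (.g (nat_lit 1) (.e (nat_lit 150984) (nat_lit 0) .nil) .nil))) 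
(.lf (nat_lit 494489) (.g (nat_lit 3303) (.e (nat_lit 163884) (nat_lit 5) (.e (nat_lit 221194) (nat_lit 11) (.e (nat_lit 336075) (nat_lit 9) (.e (nat_lit 336443) (nat_lit 32) (.e (nat_lit 466971) (nat_lit 21) (.e (nat_lit 164326) (nat_lit 230) .nil)))))) (.g (nat_lit 1) (.e (nat_lit 151844) (nat_lit 0) .nil) .nil)))))) (.nd (nat_lit 7) (.nd (nat_lit 8) (.nd (nat_lit 9) 
(.lf (nat_lit 493657) (.g (nat_lit 3141) (.e (nat_lit 163875) (nat_lit 3) (.e (nat_lit 204837) (nat_lit 20) (.e (nat_lit 114718) (nat_lit 23) (.e (nat_lit 98367) (nat_lit 27) (.e (nat_lit 434232) (nat_lit 23) (.e (nat_lit 532499) (nat_lit 1) (.e (nat_lit 57692) (nat_lit 156) .nil))))))) (.g (nat_lit 1) (.e (nat_lit 150499) (nat_lit 0) .nil) .nil))) 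
(.lf (nat_lit 494169) (.g (nat_lit 2573) (.e (nat_lit 163875) (nat_lit 3) (.e (nat_lit 204876) (nat_lit 31) (.e (nat_lit 376842) (nat_lit 11) (.e (nat_lit 426500) (nat_lit 27) (.e (nat_lit 335988) (nat_lit 1) (.e (nat_lit 57927) (nat_lit 282) .nil)))))) (.g (nat_lit 1) (.e (nat_lit 151366) (nat_lit 0) .nil) .nil)))) (.nd (nat_lit 9) 
(.lf (nat_lit 493913) (.g (nat_lit 2347) (.e (nat_lit 163875) (nat_lit 3) (.e (nat_lit 204861) (nat_lit 26) (.e (nat_lit 336213) (nat_lit 13) (.e (nat_lit 393229) (nat_lit 9) (.e (nat_lit 335892) (nat_lit 0) .nil))))) (.g (nat_lit 0) (.e (nat_lit 150912) (nat_lit 0) .nil) .nil))) 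
(.lf (nat_lit 494425) (.g (nat_lit 982) (.e (nat_lit 163882) (nat_lit 4) (.e (nat_lit 213032) (nat_lit 11) (.e (nat_lit 24660) (nat_lit 13) (.e (nat_lit 401152) (nat_lit 23) .nil)))) (.g (nat_lit 0) (.e (nat_lit 151775) (nat_lit 0) .nil) .nil))))) (.nd (nat_lit 8) (.nd (nat_lit 9) 
(.lf (nat_lit 493785) (.g (nat_lit 2668) (.e (nat_lit 163875) (nat_lit 3) (.e (nat_lit 204838) (nat_lit 20) (.e (nat_lit 114718) (nat_lit 23) (.e (nat_lit 98367) (nat_lit 27) (.e (nat_lit 434234) (nat_lit 23) (.e (nat_lit 532499) (nat_lit 1) (.e (nat_lit 57692) (nat_lit 156) .nil))))))) (.g (nat_lit 1) (.e (nat_lit 150627) (nat_lit 0) .nil) .nil))) 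
(.lf (nat_lit 494297) (.g (nat_lit 1414) (.e (nat_lit 163879) (nat_lit 4) (.e (nat_lit 213032) (nat_lit 11) (.e (nat_lit 24660) (nat_lit 13) (.e (nat_lit 393275) (nat_lit 23) .nil)))) (.g (nat_lit 0) (.e (nat_lit 151550) (nat_lit 0) .nil) .nil)))) (.nd (nat_lit 9) 
(.lf (nat_lit 494041) (.g (nat_lit 3149) (.e (nat_lit 163875) (nat_lit 3) (.e (nat_lit 204862) (nat_lit 27) (.e (nat_lit 344133) (nat_lit 26) (.e (nat_lit 557103) (nat_lit 14) (.e (nat_lit 180243) (nat_lit 5) (.e (nat_lit 532503) (nat_lit 1) (.e (nat_lit 65280) (nat_lit 168) .nil))))))) (.g (nat_lit 1) (.e (nat_lit 151048) (nat_lit 0) .nil) .nil))) 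
(.lf (nat_lit 494553) (.g (nat_lit 1687) (.e (nat_lit 163885) (nat_lit 5) (.e (nat_lit 221193) (nat_lit 11) (.e (nat_lit 336077) (nat_lit 9) (.e (nat_lit 336443) (nat_lit 32) (.e (nat_lit 466968) (nat_lit 21) .nil))))) (.g (nat_lit 0) (.e (nat_lit 151945) (nat_lit 0) .nil) .nil))))))) (.nd (nat_lit 6) (.nd (nat_lit 7) (.nd (nat_lit 8) (.nd (nat_lit 9) 
(.lf (nat_lit 493625) (.g (nat_lit 2833) (.e (nat_lit 163875) (nat_lit 3) (.e (nat_lit 204837) (nat_lit 20) (.e (nat_lit 114715) (nat_lit 22) (.e (nat_lit 90174) (nat_lit 14) (.e (nat_lit 180243) (nat_lit 5) (.e (nat_lit 532504) (nat_lit 1) (.e (nat_lit 57690) (nat_lit 156) .nil))))))) (.g (nat_lit 1) (.e (nat_lit 150467) (nat_lit 0) .nil) .nil))) 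
(.lf (nat_lit 494137) (.g (nat_lit 1911) (.e (nat_lit 163875) (nat_lit 3) (.e (nat_lit 204864) (nat_lit 27) (.e (nat_lit 344130) (nat_lit 26) (.e (nat_lit 557103) (nat_lit 14) (.e (nat_lit 180250) (nat_lit 10) .nil))))) (.g (nat_lit 0) (.e (nat_lit 151144) (nat_lit 0) .nil) .nil)))) (.nd (nat_lit 9) 
(.lf (nat_lit 493881) (.g (nat_lit 3242) (.e (nat_lit 163875) (nat_lit 3) (.e (nat_lit 204861) (nat_lit 26) (.e (nat_lit 336075) (nat_lit 9) (.e (nat_lit 336454) (nat_lit 34) (.e (nat_lit 483364) (nat_lit 18) (.e (nat_lit 57928) (nat_lit 282) .nil)))))) (.g (nat_lit 1) (.e (nat_lit 150837) (nat_lit 0) .nil) .nil))) 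
(.lf (nat_lit 494393) (.g (nat_lit 2644) (.e (nat_lit 163882) (nat_lit 4) (.e (nat_lit 213030) (nat_lit 11) (.e (nat_lit 24629) (nat_lit 9) (.e (nat_lit 336426) (nat_lit 29) (.e (nat_lit 442421) (nat_lit 21) (.e (nat_lit 164326) (nat_lit 230) .nil)))))) (.g (nat_lit 1) (.e (nat_lit 151704) (nat_lit 0) .nil) .nil))))) (.nd (nat_lit 8) (.nd (nat_lit 9) 
(.lf (nat_lit 493753) (.g (nat_lit 2245) (.e (nat_lit 163875) (nat_lit 3) (.e (nat_lit 204838) (nat_lit 20) (.e (nat_lit 114715) (nat_lit 22) (.e (nat_lit 90174) (nat_lit 14) (.e (nat_lit 180243) (nat_lit 5) (.e (nat_lit 532503) (nat_lit 1) (.e (nat_lit 57689) (nat_lit 156) .nil))))))) (.g (nat_lit 1) (.e (nat_lit 150595) (nat_lit 0) .nil) .nil))) 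
(.lf (nat_lit 494265) (.g (nat_lit 1484) (.e (nat_lit 163878) (nat_lit 4) (.e (nat_lit 213032) (nat_lit 11) (.e (nat_lit 24660) (nat_lit 13) (.e (nat_lit 393281) (nat_lit 23) .nil)))) (.g (nat_lit 0) (.e (nat_lit 151504) (nat_lit 0) .nil) .nil)))) (.nd (nat_lit 9) 
(.lf (nat_lit 494009) (.g (nat_lit 2495) (.e (nat_lit 163875) (nat_lit 3) (.e (nat_lit 204862) (nat_lit 27) (.e (nat_lit 344129) (nat_lit 26) (.e (nat_lit 557097) (nat_lit 13) (.e (nat_lit 179968) (nat_lit 18) .nil))))) (.g (nat_lit 0) (.e (nat_lit 151016) (nat_lit 0) .nil) .nil))) 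
(.lf (nat_lit 494521) (.g (nat_lit 2289) (.e (nat_lit 163884) (nat_lit 5) (.e (nat_lit 221194) (nat_lit 11) (.e (nat_lit 336087) (nat_lit 9) (.e (nat_lit 336444) (nat_lit 32) (.e (nat_lit 466971) (nat_lit 21) (.e (nat_lit 164326) (nat_lit 230) .nil)))))) (.g (nat_lit 1) (.e (nat_lit 151876) (nat_lit 0) .nil) .nil)))))) (.nd (nat_lit 7) (.nd (nat_lit 8) (.nd (nat_lit 9) 
(.lf (nat_lit 493689) (.g (nat_lit 5003) (.e (nat_lit 163875) (nat_lit 3) (.e (nat_lit 204837) (nat_lit 20) (.e (nat_lit 114719) (nat_lit 23) (.e (nat_lit 98366) (nat_lit 27) (.e (nat_lit 434231) (nat_lit 23) (.e (nat_lit 532500) (nat_lit 1) (.e (nat_lit 57689) (nat_lit 156) .nil))))))) (.g (nat_lit 1) (.e (nat_lit 150531) (nat_lit 0) .nil) .nil))) 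
(.lf (nat_lit 494201) (.g (nat_lit 2711) (.e (nat_lit 163877) (nat_lit 4) (.e (nat_lit 213032) (nat_lit 11) (.e (nat_lit 24626) (nat_lit 9) (.e (nat_lit 336443) (nat_lit 32) (.e (nat_lit 466972) (nat_lit 21) (.e (nat_lit 164330) (nat_lit 230) .nil)))))) (.g (nat_lit 1) (.e (nat_lit 151433) (nat_lit 0) .nil) .nil)))) (.nd (nat_lit 9) 
(.lf (nat_lit 493945) (.g (nat_lit 2217) (.e (nat_lit 163875) (nat_lit 3) (.e (nat_lit 204862) (nat_lit 27) (.e (nat_lit 344117) (nat_lit 21) (.e (nat_lit 516123) (nat_lit 2) (.e (nat_lit 213037) (nat_lit 13) (.e (nat_lit 229433) (nat_lit 25) (.e (nat_lit 532501) (nat_lit 1) (.e (nat_lit 57928) (nat_lit 282) .nil)))))))) (.g (nat_lit 1) (.e (nat_lit 150952) (nat_lit 0) .nil) .nil))) 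
(.lf (nat_lit 494457) (.g (nat_lit 2192) (.e (nat_lit 163884) (nat_lit 5) (.e (nat_lit 221193) (nat_lit 11) (.e (nat_lit 336077) (nat_lit 9) (.e (nat_lit 336443) (nat_lit 32) (.e (nat_lit 466969) (nat_lit 21) (.e (nat_lit 164326) (nat_lit 230) .nil)))))) (.g (nat_lit 1) (.e (nat_lit 151808) (nat_lit 0) .nil) .nil))))) (.nd (nat_lit 8) (.nd (nat_lit 9) 
(.lf (nat_lit 493817) (.g (nat_lit 4773) (.e (nat_lit 163875) (nat_lit 3) (.e (nat_lit 204838) (nat_lit 20) (.e (nat_lit 114719) (nat_lit 23) (.e (nat_lit 98367) (nat_lit 27) (.e (nat_lit 434231) (nat_lit 23) (.e (nat_lit 532500) (nat_lit 1) (.e (nat_lit 57692) (nat_lit 156) .nil))))))) (.g (nat_lit 1) (.e (nat_lit 150662) (nat_lit 0) .nil) .nil))) 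
(.lf (nat_lit 494329) (.g (nat_lit 3447) (.e (nat_lit 163880) (nat_lit 4) (.e (nat_lit 213032) (nat_lit 11) (.e (nat_lit 24630) (nat_lit 9) (.e (nat_lit 336443) (nat_lit 32) (.e (nat_lit 466972) (nat_lit 21) (.e (nat_lit 164330) (nat_lit 230) .nil)))))) (.g (nat_lit 1) (.e (nat_lit 151601) (nat_lit 0) .nil) .nil)))) (.nd (nat_lit 9) 
(.lf (nat_lit 494073) (.g (nat_lit 1311) (.e (nat_lit 163875) (nat_lit 3) (.e (nat_lit 204863) (nat_lit 27) (.e (nat_lit 344117) (nat_lit 21) (.e (nat_lit 516130) (nat_lit 3) .nil)))) (.g (nat_lit 0) (.e (nat_lit 151080) (nat_lit 0) .nil) .nil))) 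
(.lf (nat_lit 494585) (.g (nat_lit 2614) (.e (nat_lit 163885) (nat_lit 5) (.e (nat_lit 221194) (nat_lit 11) (.e (nat_lit 336077) (nat_lit 9) (.e (nat_lit 336443) (nat_lit 32) (.e (nat_lit 466971) (nat_lit 21) (.e (nat_lit 164329) (nat_lit 230) .nil)))))) (.g (nat_lit 1) (.e (nat_lit 151980) (nat_lit 0) .nil) .nil)))))))))) 
(.nd (nat_lit 3) (.nd (nat_lit 4) (.nd (nat_lit 5) (.nd (nat_lit 6) (.nd (nat_lit 7) 
(.nd (nat_lit 8) (.nd (nat_lit 9) 
(.lf (nat_lit 493573) (.g (nat_lit 4199) (.e (nat_lit 163875) (nat_lit 3) (.e (nat_lit 204830) (nat_lit 18) (.e (nat_lit 57852) (nat_lit 252) (.e (nat_lit 57431) (nat_lit 16) (.e (nat_lit 368676) (nat_lit 21) (.e (nat_lit 516146) (nat_lit 9) (.e (nat_lit 426422) (nat_lit 16) (.e (nat_lit 57691) (nat_lit 156) .nil)))))))) (.g (nat_lit 1) (.e (nat_lit 150415) (nat_lit 0) .nil) .nil))) 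
(.lf (nat_lit 494085) (.g (nat_lit 3810) (.e (nat_lit 163875) (nat_lit 3) (.e (nat_lit 204863) (nat_lit 27) (.e (nat_lit 344117) (nat_lit 21) (.e (nat_lit 516130) (nat_lit 3) (.e (nat_lit 221214) (nat_lit 23) (.e (nat_lit 204830) (nat_lit 18) (.e (nat_lit 57928) (nat_lit 282) .nil))))))) (.g (nat_lit 1) (.e (nat_lit 151092) (nat_lit 0) .nil) .nil)))) (.nd (nat_lit 9) 
(.lf (nat_lit 493829) (.g (nat_lit 4267) (.e (nat_lit 163875) (nat_lit 3) (.e (nat_lit 204838) (nat_lit 20) (.e (nat_lit 114719) (nat_lit 23) (.e (nat_lit 98367) (nat_lit 27) (.e (nat_lit 434232) (nat_lit 23) (.e (nat_lit 532504) (nat_lit 1) (.e (nat_lit 57692) (nat_lit 156) .nil))))))) (.g (nat_lit 1) (.e (nat_lit 150674) (nat_lit 0) .nil) .nil))) 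
(.lf (nat_lit 494341) (.g (nat_lit 2388) (.e (nat_lit 163881) (nat_lit 4) (.e (nat_lit 213030) (nat_lit 11) (.e (nat_lit 24625) (nat_lit 9) (.e (nat_lit 336443) (nat_lit 32) (.e (nat_lit 466971) (nat_lit 21) .nil))))) (.g (nat_lit 0) (.e (nat_lit 151617) (nat_lit 0) .nil) .nil))))) (.nd (nat_lit 8) (.nd (nat_lit 9) 
(.lf (nat_lit 493701) (.g (nat_lit 4518) (.e (nat_lit 163875) (nat_lit 3) (.e (nat_lit 204837) (nat_lit 20) (.e (nat_lit 114719) (nat_lit 23) (.e (nat_lit 98367) (nat_lit 27) (.e (nat_lit 434231) (nat_lit 23) (.e (nat_lit 532499) (nat_lit 1) (.e (nat_lit 57686) (nat_lit 156) .nil))))))) (.g (nat_lit 1) (.e (nat_lit 150543) (nat_lit 0) .nil) .nil))) 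
(.lf (nat_lit 494213) (.g (nat_lit 2210) (.e (nat_lit 163877) (nat_lit 4) (.e (nat_lit 213032) (nat_lit 11) (.e (nat_lit 24630) (nat_lit 9) (.e (nat_lit 336443) (nat_lit 32) (.e (nat_lit 466972) (nat_lit 21) .nil))))) (.g (nat_lit 0) (.e (nat_lit 151447) (nat_lit 0) .nil) .nil)))) (.nd (nat_lit 9) 
(.lf (nat_lit 493957) (.g (nat_lit 3227) (.e (nat_lit 163875) (nat_lit 3) (.e (nat_lit 204862) (nat_lit 27) (.e (nat_lit 344117) (nat_lit 21) (.e (nat_lit 516129) (nat_lit 3) (.e (nat_lit 221215) (nat_lit 23) (.e (nat_lit 204829) (nat_lit 18) (.e (nat_lit 57925) (nat_lit 282) .nil))))))) (.g (nat_lit 1) (.e (nat_lit 150964) (nat_lit 0) .nil) .nil))) 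
(.lf (nat_lit 494469) (.g (nat_lit 2317) (.e (nat_lit 163884) (nat_lit 5) (.e (nat_lit 221193) (nat_lit 11) (.e (nat_lit 336084) (nat_lit 9) (.e (nat_lit 336443) (nat_lit 32) (.e (nat_lit 466972) (nat_lit 21) (.e (nat_lit 164329) (nat_lit 230) .nil)))))) (.g (nat_lit 1) (.e (nat_lit 151820) (nat_lit 0) .nil) .nil)))))) (.nd (nat_lit 7) (.nd (nat_lit 8) (.nd (nat_lit 9) 
(.lf (nat_lit 493637) (.g (nat_lit 2763) (.e (nat_lit 163875) (nat_lit 3) (.e (nat_lit 204837) (nat_lit 20) (.e (nat_lit 114718) (nat_lit 23) (.e (nat_lit 98365) (nat_lit 26) (.e (nat_lit 426138) (nat_lit 3) (.e (nat_lit 204829) (nat_lit 18) (.e (nat_lit 57686) (nat_lit 156) .nil))))))) (.g (nat_lit 1) (.e (nat_lit 150479) (nat_lit 0) .nil) .nil))) 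
(.lf (nat_lit 494149) (.g (nat_lit 1830) (.e (nat_lit 163875) (nat_lit 3) (.e (nat_lit 204866) (nat_lit 28) (.e (nat_lit 352277) (nat_lit 11) (.e (nat_lit 426500) (nat_lit 27) (.e (nat_lit 335986) (nat_lit 1) (.e (nat_lit 57925) (nat_lit 282) .nil)))))) (.g (nat_lit 1) (.e (nat_lit 151161) (nat_lit 0) .nil) .nil)))) (.nd (nat_lit 9) 
(.lf (nat_lit 493893) (.g (nat_lit 2272) (.e (nat_lit 163875) (nat_lit 3) (.e (nat_lit 204861) (nat_lit 26) (.e (nat_lit 336076) (nat_lit 9) (.e (nat_lit 336377) (nat_lit 27) (.e (nat_lit 426524) (nat_lit 27) (.e (nat_lit 335988) (nat_lit 1) (.e (nat_lit 57927) (nat_lit 282) .nil))))))) (.g (nat_lit 1) (.e (nat_lit 150858) (nat_lit 0) .nil) .nil))) 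
(.lf (nat_lit 494405) (.g (nat_lit 3010) (.e (nat_lit 163882) (nat_lit 4) (.e (nat_lit 213031) (nat_lit 11) (.e (nat_lit 24628) (nat_lit 9) (.e (nat_lit 336443) (nat_lit 32) (.e (nat_lit 466969) (nat_lit 21) (.e (nat_lit 164325) (nat_lit 230) .nil)))))) (.g (nat_lit 1) (.e (nat_lit 151723) (nat_lit 0) .nil) .nil))))) (.nd (nat_lit 8) (.nd (nat_lit 9) 
(.lf (nat_lit 493765) (.g (nat_lit 3399) (.e (nat_lit 163875) (nat_lit 3) (.e (nat_lit 204838) (nat_lit 20) (.e (nat_lit 114718) (nat_lit 23) (.e (nat_lit 98365) (nat_lit 26) (.e (nat_lit 426139) (nat_lit 3) (.e (nat_lit 204829) (nat_lit 18) (.e (nat_lit 57692) (nat_lit 156) .nil))))))) (.g (nat_lit 1) (.e (nat_lit 150607) (nat_lit 0) .nil) .nil))) 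
(.lf (nat_lit 494277) (.g (nat_lit 1402) (.e (nat_lit 163879) (nat_lit 4) (.e (nat_lit 213032) (nat_lit 11) (.e (nat_lit 24604) (nat_lit 2) .nil))) (.g (nat_lit 0) (.e (nat_lit 151521) (nat_lit 0) .nil) .nil)))) (.nd (nat_lit 9) 
(.lf (nat_lit 494021) (.g (nat_lit 1298) (.e (nat_lit 163875) (nat_lit 3) (.e (nat_lit 204862) (nat_lit 27) (.e (nat_lit 344129) (nat_lit 26) (.e (nat_lit 557104) (nat_lit 14) .nil)))) (.g (nat_lit 0) (.e (nat_lit 151028) (nat_lit 0) .nil) .nil))) 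
(.lf (nat_lit 494533) (.g (nat_lit 1220) (.e (nat_lit 163885) (nat_lit 5) (.e (nat_lit 221190) (nat_lit 11) (.e (nat_lit 336076) (nat_lit 9) (.e (nat_lit 336443) (nat_lit 32) .nil)))) (.g (nat_lit 0) (.e (nat_lit 151925) (nat_lit 0) .nil) .nil))))))) (.nd (nat_lit 6) (.nd (nat_lit 7) (.nd (nat_lit 8) (.nd (nat_lit 9) 
(.lf (nat_lit 493605) (.g (nat_lit 4521) (.e (nat_lit 163875) (nat_lit 3) (.e (nat_lit 204837) (nat_lit 20) (.e (nat_lit 114715) (nat_lit 22) (.e (nat_lit 90170) (nat_lit 13) (.e (nat_lit 172065) (nat_lit 3) (.e (nat_lit 204829) (nat_lit 18) (.e (nat_lit 57692) (nat_lit 156) .nil))))))) (.g (nat_lit 1) (.e (nat_lit 150447) (nat_lit 0) .nil) .nil))) 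
(.lf (nat_lit 494117) (.g (nat_lit 2392) (.e (nat_lit 163875) (nat_lit 3) (.e (nat_lit 204863) (nat_lit 27) (.e (nat_lit 344130) (nat_lit 26) (.e (nat_lit 557103) (nat_lit 14) (.e (nat_lit 180243) (nat_lit 5) (.e (nat_lit 532503) (nat_lit 1) (.e (nat_lit 65280) (nat_lit 168) .nil))))))) (.g (nat_lit 1) (.e (nat_lit 151124) (nat_lit 0) .nil) .nil)))) (.nd (nat_lit 9) 
(.lf (nat_lit 493861) (.g (nat_lit 2382) (.e (nat_lit 163875) (nat_lit 3) (.e (nat_lit 204851) (nat_lit 26) (.e (nat_lit 336019) (nat_lit 3) (.e (nat_lit 98342) (nat_lit 20) (.e (nat_lit 221215) (nat_lit 23) (.e (nat_lit 204829) (nat_lit 18) (.e (nat_lit 57926) (nat_lit 282) .nil))))))) (.g (nat_lit 1) (.e (nat_lit 150708) (nat_lit 0) .nil) .nil))) 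
(.lf (nat_lit 494373) (.g (nat_lit 2850) (.e (nat_lit 163881) (nat_lit 4) (.e (nat_lit 213032) (nat_lit 11) (.e (nat_lit 24658) (nat_lit 13) (.e (nat_lit 393281) (nat_lit 23) (.e (nat_lit 426098) (nat_lit 1) (.e (nat_lit 164325) (nat_lit 230) .nil)))))) (.g (nat_lit 1) (.e (nat_lit 151680) (nat_lit 0) .nil) .nil))))) (.nd (nat_lit 8) (.nd (nat_lit 9) 
(.lf (nat_lit 493733) (.g (nat_lit 4106) (.e (nat_lit 163875) (nat_lit 3) (.e (nat_lit 204837) (nat_lit 20) (.e (nat_lit 114719) (nat_lit 23) (.e (nat_lit 98384) (nat_lit 32) (.e (nat_lit 475179) (nat_lit 24) (.e (nat_lit 516119) (nat_lit 1) (.e (nat_lit 164325) (nat_lit 230) .nil))))))) (.g (nat_lit 1) (.e (nat_lit 150575) (nat_lit 0) .nil) .nil))) 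
(.lf (nat_lit 494245) (.g (nat_lit 2722) (.e (nat_lit 163878) (nat_lit 4) (.e (nat_lit 213032) (nat_lit 11) (.e (nat_lit 24624) (nat_lit 9) (.e (nat_lit 336443) (nat_lit 32) (.e (nat_lit 466969) (nat_lit 21) .nil))))) (.g (nat_lit 0) (.e (nat_lit 151482) (nat_lit 0) .nil) .nil)))) (.nd (nat_lit 9) 
(.lf (nat_lit 493989) (.g (nat_lit 4182) (.e (nat_lit 163875) (nat_lit 3) (.e (nat_lit 204862) (nat_lit 27) (.e (nat_lit 344117) (nat_lit 21) (.e (nat_lit 516130) (nat_lit 3) (.e (nat_lit 221215) (nat_lit 23) (.e (nat_lit 204829) (nat_lit 18) (.e (nat_lit 57928) (nat_lit 282) .nil))))))) (.g (nat_lit 1) (.e (nat_lit 150996) (nat_lit 0) .nil) .nil))) 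
(.lf (nat_lit 494501) (.g (nat_lit 3139) (.e (nat_lit 163884) (nat_lit 5) (.e (nat_lit 221194) (nat_lit 11) (.e (nat_lit 336077) (nat_lit 9) (.e (nat_lit 336443) (nat_lit 32) (.e (nat_lit 466971) (nat_lit 21) (.e (nat_lit 164324) (nat_lit 230) .nil)))))) (.g (nat_lit 1) (.e (nat_lit 151856) (nat_lit 0) .nil) .nil)))))) (.nd (nat_lit 7) (.nd (nat_lit 8) (.nd (nat_lit 9) 
(.lf (nat_lit 493669) (.g (nat_lit 2635) (.e (nat_lit 163875) (nat_lit 3) (.e (nat_lit 204837) (nat_lit 20) (.e (nat_lit 114718) (nat_lit 23) (.e (nat_lit 98367) (nat_lit 27) (.e (nat_lit 434234) (nat_lit 23) (.e (nat_lit 532503) (nat_lit 1) (.e (nat_lit 57688) (nat_lit 156) .nil))))))) (.g (nat_lit 1) (.e (nat_lit 150511) (nat_lit 0) .nil) .nil))) 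
(.lf (nat_lit 494181) (.g (nat_lit 1628) (.e (nat_lit 163875) (nat_lit 3) (.e (nat_lit 204883) (nat_lit 33) (.e (nat_lit 401457) (nat_lit 13) (.e (nat_lit 483339) (nat_lit 9) .nil)))) (.g (nat_lit 0) (.e (nat_lit 151407) (nat_lit 0) .nil) .nil)))) (.nd (nat_lit 9) 
(.lf (nat_lit 493925) (.g (nat_lit 2548) (.e (nat_lit 163875) (nat_lit 3) (.e (nat_lit 204862) (nat_lit 27) (.e (nat_lit 344117) (nat_lit 21) (.e (nat_lit 516122) (nat_lit 2) (.e (nat_lit 213035) (nat_lit 12) (.e (nat_lit 163964) (nat_lit 25) (.e (nat_lit 532499) (nat_lit 1) (.e (nat_lit 57926) (nat_lit 282) .nil)))))))) (.g (nat_lit 1) (.e (nat_lit 150932) (nat_lit 0) .nil) .nil))) 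
(.lf (nat_lit 494437) (.g (nat_lit 1967) (.e (nat_lit 163884) (nat_lit 5) (.e (nat_lit 221190) (nat_lit 11) (.e (nat_lit 336078) (nat_lit 9) (.e (nat_lit 336443) (nat_lit 32) (.e (nat_lit 466971) (nat_lit 21) (.e (nat_lit 164327) (nat_lit 230) .nil)))))) (.g (nat_lit 1) (.e (nat_lit 151788) (nat_lit 0) .nil) .nil))))) (.nd (nat_lit 8) (.nd (nat_lit 9) 
(.lf (nat_lit 493797) (.g (nat_lit 2851) (.e (nat_lit 163875) (nat_lit 3) (.e (nat_lit 204838) (nat_lit 20) (.e (nat_lit 114719) (nat_lit 23) (.e (nat_lit 98365) (nat_lit 26) (.e (nat_lit 426138) (nat_lit 3) (.e (nat_lit 204831) (nat_lit 18) (.e (nat_lit 57687) (nat_lit 156) .nil))))))) (.g (nat_lit 1) (.e (nat_lit 150642) (nat_lit 0) .nil) .nil))) 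
(.lf (nat_lit 494309) (.g (nat_lit 2651) (.e (nat_lit 163880) (nat_lit 4) (.e (nat_lit 213030) (nat_lit 11) (.e (nat_lit 24627) (nat_lit 9) (.e (nat_lit 336443) (nat_lit 32) (.e (nat_lit 466970) (nat_lit 21) .nil))))) (.g (nat_lit 0) (.e (nat_lit 151562) (nat_lit 0) .nil) .nil)))) (.nd (nat_lit 9) 
(.lf (nat_lit 494053) (.g (nat_lit 1986) (.e (nat_lit 163875) (nat_lit 3) (.e (nat_lit 204863) (nat_lit 27) (.e (nat_lit 344117) (nat_lit 21) (.e (nat_lit 516123) (nat_lit 2) (.e (nat_lit 213013) (nat_lit 9) .nil))))) (.g (nat_lit 0) (.e (nat_lit 151060) (nat_lit 0) .nil) .nil))) 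
(.lf (nat_lit 494565) (.g (nat_lit 2734) (.e (nat_lit 163885) (nat_lit 5) (.e (nat_lit 221194) (nat_lit 11) (.e (nat_lit 336074) (nat_lit 9) (.e (nat_lit 336443) (nat_lit 32) (.e (nat_lit 466971) (nat_lit 21) (.e (nat_lit 164329) (nat_lit 230) .nil)))))) (.g (nat_lit 1) (.e (nat_lit 151960) (nat_lit 0) .nil) .nil)))))))) 
(.nd (nat_lit 5) (.nd (nat_lit 6) (.nd (nat_lit 7) (.nd (nat_lit 8) (.nd (nat_lit 9) 
(.lf (nat_lit 493589) (.g (nat_lit 2845) (.e (nat_lit 163875) (nat_lit 3) (.e (nat_lit 204836) (nat_lit 20) (.e (nat_lit 114718) (nat_lit 23) (.e (nat_lit 98366) (nat_lit 27) (.e (nat_lit 434231) (nat_lit 23) (.e (nat_lit 532499) (nat_lit 1) (.e (nat_lit 57692) (nat_lit 156) .nil))))))) (.g (nat_lit 1) (.e (nat_lit 150431) (nat_lit 0) .nil) .nil))) 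
(.lf (nat_lit 494101) (.g (nat_lit 2641) (.e (nat_lit 163875) (nat_lit 3) (.e (nat_lit 204863) (nat_lit 27) (.e (nat_lit 344118) (nat_lit 21) (.e (nat_lit 516129) (nat_lit 3) (.e (nat_lit 221214) (nat_lit 23) (.e (nat_lit 204830) (nat_lit 18) (.e (nat_lit 57926) (nat_lit 282) .nil))))))) (.g (nat_lit 1) (.e (nat_lit 151108) (nat_lit 0) .nil) .nil)))) (.nd (nat_lit 9) 
(.lf (nat_lit 493845) (.g (nat_lit 2267) (.e (nat_lit 163875) (nat_lit 3) (.e (nat_lit 204850) (nat_lit 26) (.e (nat_lit 336019) (nat_lit 3) (.e (nat_lit 98342) (nat_lit 20) (.e (nat_lit 221215) (nat_lit 23) (.e (nat_lit 204830) (nat_lit 18) (.e (nat_lit 57927) (nat_lit 282) .nil))))))) (.g (nat_lit 1) (.e (nat_lit 150692) (nat_lit 0) .nil) .nil))) 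
(.lf (nat_lit 494357) (.g (nat_lit 2896) (.e (nat_lit 163881) (nat_lit 4) (.e (nat_lit 213032) (nat_lit 11) (.e (nat_lit 24626) (nat_lit 9) (.e (nat_lit 336443) (nat_lit 32) (.e (nat_lit 466971) (nat_lit 21) (.e (nat_lit 164325) (nat_lit 230) .nil)))))) (.g (nat_lit 1) (.e (nat_lit 151657) (nat_lit 0) .nil) .nil))))) (.nd (nat_lit 8) (.nd (nat_lit 9) 
(.lf (nat_lit 493717) (.g (nat_lit 2387) (.e (nat_lit 163875) (nat_lit 3) (.e (nat_lit 204837) (nat_lit 20) (.e (nat_lit 114719) (nat_lit 23) (.e (nat_lit 98367) (nat_lit 27) (.e (nat_lit 434232) (nat_lit 23) (.e (nat_lit 532503) (nat_lit 1) (.e (nat_lit 57686) (nat_lit 156) .nil))))))) (.g (nat_lit 1) (.e (nat_lit 150559) (nat_lit 0) .nil) .nil))) 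
(.lf (nat_lit 494229) (.g (nat_lit 375) (.e (nat_lit 163878) (nat_lit 4) (.e (nat_lit 213030) (nat_lit 11) (.e (nat_lit 24629) (nat_lit 9) .nil))) (.g (nat_lit 0) (.e (nat_lit 151463) (nat_lit 0) .nil) .nil)))) (.nd (nat_lit 9) 
(.lf (nat_lit 493973) (.g (nat_lit 3085) (.e (nat_lit 163875) (nat_lit 3) (.e (nat_lit 204862) (nat_lit 27) (.e (nat_lit 344117) (nat_lit 21) (.e (nat_lit 516130) (nat_lit 3) (.e (nat_lit 221213) (nat_lit 23) (.e (nat_lit 204830) (nat_lit 18) (.e (nat_lit 57928) (nat_lit 282) .nil))))))) (.g (nat_lit 1) (.e (nat_lit 150980) (nat_lit 0) .nil) .nil))) 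
(.lf (nat_lit 494485) (.g (nat_lit 3710) (.e (nat_lit 163884) (nat_lit 5) (.e (nat_lit 221194) (nat_lit 11) (.e (nat_lit 336075) (nat_lit 9) (.e (nat_lit 336443) (nat_lit 32) (.e (nat_lit 466969) (nat_lit 21) (.e (nat_lit 164332) (nat_lit 230) .nil)))))) (.g (nat_lit 1) (.e (nat_lit 151840) (nat_lit 0) .nil) .nil)))))) (.nd (nat_lit 7) (.nd (nat_lit 8) (.nd (nat_lit 9) 
(.lf (nat_lit 493653) (.g (nat_lit 3282) (.e (nat_lit 163875) (nat_lit 3) (.e (nat_lit 204837) (nat_lit 20) (.e (nat_lit 114718) (nat_lit 23) (.e (nat_lit 98367) (nat_lit 27) (.e (nat_lit 434231) (nat_lit 23) (.e (nat_lit 532502) (nat_lit 1) (.e (nat_lit 57692) (nat_lit 156) .nil))))))) (.g (nat_lit 1) (.e (nat_lit 150495) (nat_lit 0) .nil) .nil))) 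
(.lf (nat_lit 494165) (.g (nat_lit 1335) (.e (nat_lit 163875) (nat_lit 3) (.e (nat_lit 204876) (nat_lit 31) (.e (nat_lit 376842) (nat_lit 11) (.e (nat_lit 426497) (nat_lit 27) (.e (nat_lit 335987) (nat_lit 1) (.e (nat_lit 57927) (nat_lit 282) .nil)))))) (.g (nat_lit 1) (.e (nat_lit 151362) (nat_lit 0) .nil) .nil)))) (.nd (nat_lit 9) 
(.lf (nat_lit 493909) (.g (nat_lit 2205) (.e (nat_lit 163875) (nat_lit 3) (.e (nat_lit 204861) (nat_lit 26) (.e (nat_lit 336213) (nat_lit 13) (.e (nat_lit 393225) (nat_lit 9) (.e (nat_lit 335956) (nat_lit 0) .nil))))) (.g (nat_lit 0) (.e (nat_lit 150906) (nat_lit 0) .nil) .nil))) 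
(.lf (nat_lit 494421) (.g (nat_lit 2496) (.e (nat_lit 163882) (nat_lit 4) (.e (nat_lit 213032) (nat_lit 11) (.e (nat_lit 24655) (nat_lit 13) (.e (nat_lit 393280) (nat_lit 23) (.e (nat_lit 426098) (nat_lit 1) .nil))))) (.g (nat_lit 0) (.e (nat_lit 151769) (nat_lit 0) .nil) .nil))))) (.nd (nat_lit 8) (.nd (nat_lit 9) 
(.lf (nat_lit 493781) (.g (nat_lit 3158) (.e (nat_lit 163875) (nat_lit 3) (.e (nat_lit 204838) (nat_lit 20) (.e (nat_lit 114718) (nat_lit 23) (.e (nat_lit 98367) (nat_lit 27) (.e (nat_lit 434232) (nat_lit 23) (.e (nat_lit 532503) (nat_lit 1) (.e (nat_lit 57688) (nat_lit 156) .nil))))))) (.g (nat_lit 1) (.e (nat_lit 150623) (nat_lit 0) .nil) .nil))) 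
(.lf (nat_lit 494293) (.g (nat_lit 1607) (.e (nat_lit 163879) (nat_lit 4) (.e (nat_lit 213032) (nat_lit 11) (.e (nat_lit 24659) (nat_lit 13) (.e (nat_lit 393279) (nat_lit 23) (.e (nat_lit 426110) (nat_lit 1) .nil))))) (.g (nat_lit 0) (.e (nat_lit 151546) (nat_lit 0) .nil) .nil)))) (.nd (nat_lit 9) 
(.lf (nat_lit 494037) (.g (nat_lit 2696) (.e (nat_lit 163875) (nat_lit 3) (.e (nat_lit 204862) (nat_lit 27) (.e (nat_lit 344130) (nat_lit 26) (.e (nat_lit 557104) (nat_lit 14) (.e (nat_lit 180244) (nat_lit 5) (.e (nat_lit 532499) (nat_lit 1) (.e (nat_lit 65280) (nat_lit 168) .nil))))))) (.g (nat_lit 1) (.e (nat_lit 151044) (nat_lit 0) .nil) .nil))) 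
(.lf (nat_lit 494549) (.g (nat_lit 1741) (.e (nat_lit 163885) (nat_lit 5) (.e (nat_lit 221193) (nat_lit 11) (.e (nat_lit 336075) (nat_lit 9) (.e (nat_lit 336443) (nat_lit 32) (.e (nat_lit 466969) (nat_lit 21) (.e (nat_lit 164329) (nat_lit 230) .nil)))))) (.g (nat_lit 1) (.e (nat_lit 151941) (nat_lit 0) .nil) .nil))))))) (.nd (nat_lit 6) (.nd (nat_lit 7) (.nd (nat_lit 8) (.nd (nat_lit 9) 
(.lf (nat_lit 493621) (.g (nat_lit 2657) (.e (nat_lit 163875) (nat_lit 3) (.e (nat_lit 204837) (nat_lit 20) (.e (nat_lit 114715) (nat_lit 22) (.e (nat_lit 90174) (nat_lit 14) (.e (nat_lit 180243) (nat_lit 5) (.e (nat_lit 532501) (nat_lit 1) (.e (nat_lit 57690) (nat_lit 156) .nil))))))) (.g (nat_lit 1) (.e (nat_lit 150463) (nat_lit 0) .nil) .nil))) 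
(.lf (nat_lit 494133) (.g (nat_lit 2452) (.e (nat_lit 163875) (nat_lit 3) (.e (nat_lit 204864) (nat_lit 27) (.e (nat_lit 344130) (nat_lit 26) (.e (nat_lit 557103) (nat_lit 14) (.e (nat_lit 180243) (nat_lit 5) (.e (nat_lit 532501) (nat_lit 1) (.e (nat_lit 65280) (nat_lit 168) .nil))))))) (.g (nat_lit 1) (.e (nat_lit 151140) (nat_lit 0) .nil) .nil)))) (.nd (nat_lit 9) 
(.lf (nat_lit 493877) (.g (nat_lit 2692) (.e (nat_lit 163875) (nat_lit 3) (.e (nat_lit 204861) (nat_lit 26) (.e (nat_lit 336075) (nat_lit 9) (.e (nat_lit 336454) (nat_lit 34) (.e (nat_lit 483363) (nat_lit 18) (.e (nat_lit 57924) (nat_lit 282) .nil)))))) (.g (nat_lit 1) (.e (nat_lit 150833) (nat_lit 0) .nil) .nil))) 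
(.lf (nat_lit 494389) (.g (nat_lit 3024) (.e (nat_lit 163882) (nat_lit 4) (.e (nat_lit 213030) (nat_lit 11) (.e (nat_lit 24626) (nat_lit 9) (.e (nat_lit 336443) (nat_lit 32) (.e (nat_lit 466969) (nat_lit 21) (.e (nat_lit 164325) (nat_lit 230) .nil)))))) (.g (nat_lit 1) (.e (nat_lit 151700) (nat_lit 0) .nil) .nil))))) (.nd (nat_lit 8) (.nd (nat_lit 9) 
(.lf (nat_lit 493749) (.g (nat_lit 2721) (.e (nat_lit 163875) (nat_lit 3) (.e (nat_lit 204838) (nat_lit 20) (.e (nat_lit 114715) (nat_lit 22) (.e (nat_lit 90174) (nat_lit 14) (.e (nat_lit 180243) (nat_lit 5) (.e (nat_lit 532501) (nat_lit 1) (.e (nat_lit 57689) (nat_lit 156) .nil))))))) (.g (nat_lit 1) (.e (nat_lit 150591) (nat_lit 0) .nil) .nil))) 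
(.lf (nat_lit 494261) (.g (nat_lit 2302) (.e (nat_lit 163878) (nat_lit 4) (.e (nat_lit 213032) (nat_lit 11) (.e (nat_lit 24630) (nat_lit 9) (.e (nat_lit 336443) (nat_lit 32) (.e (nat_lit 466969) (nat_lit 21) .nil))))) (.g (nat_lit 0) (.e (nat_lit 151500) (nat_lit 0) .nil) .nil)))) (.nd (nat_lit 9) 
(.lf (nat_lit 494005) (.g (nat_lit 2941) (.e (nat_lit 163875) (nat_lit 3) (.e (nat_lit 204862) (nat_lit 27) (.e (nat_lit 344129) (nat_lit 26) (.e (nat_lit 557097) (nat_lit 13) (.e (nat_lit 172064) (nat_lit 2) (.e (nat_lit 196661) (nat_lit 12) (.e (nat_lit 57353) (nat_lit 0) (.e (nat_lit 7708) (nat_lit 414) .nil)))))))) (.g (nat_lit 1) (.e (nat_lit 151012) (nat_lit 0) .nil) .nil))) 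
(.lf (nat_lit 494517) (.g (nat_lit 1002) (.e (nat_lit 163884) (nat_lit 5) (.e (nat_lit 221194) (nat_lit 11) (.e (nat_lit 336087) (nat_lit 9) (.e (nat_lit 336432) (nat_lit 30) .nil)))) (.g (nat_lit 0) (.e (nat_lit 151872) (nat_lit 0) .nil) .nil)))))) (.nd (nat_lit 7) (.nd (nat_lit 8) (.nd (nat_lit 9) 
(.lf (nat_lit 493685) (.g (nat_lit 5042) (.e (nat_lit 163875) (nat_lit 3) (.e (nat_lit 204837) (nat_lit 20) (.e (nat_lit 114719) (nat_lit 23) (.e (nat_lit 98366) (nat_lit 27) (.e (nat_lit 434231) (nat_lit 23) (.e (nat_lit 532499) (nat_lit 1) (.e (nat_lit 57688) (nat_lit 156) .nil))))))) (.g (nat_lit 1) (.e (nat_lit 150527) (nat_lit 0) .nil) .nil))) 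
(.lf (nat_lit 494197) (.g (nat_lit 1229) (.e (nat_lit 163877) (nat_lit 4) (.e (nat_lit 213032) (nat_lit 11) (.e (nat_lit 24625) (nat_lit 9) (.e (nat_lit 336443) (nat_lit 32) .nil)))) (.g (nat_lit 0) (.e (nat_lit 151429) (nat_lit 0) .nil) .nil)))) (.nd (nat_lit 9) 
(.lf (nat_lit 493941) (.g (nat_lit 2398) (.e (nat_lit 163875) (nat_lit 3) (.e (nat_lit 204862) (nat_lit 27) (.e (nat_lit 344117) (nat_lit 21) (.e (nat_lit 516123) (nat_lit 2) (.e (nat_lit 213036) (nat_lit 13) (.e (nat_lit 229433) (nat_lit 25) (.e (nat_lit 532501) (nat_lit 1) (.e (nat_lit 57924) (nat_lit 282) .nil)))))))) (.g (nat_lit 1) (.e (nat_lit 150948) (nat_lit 0) .nil) .nil))) 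
(.lf (nat_lit 494453) (.g (nat_lit 1979) (.e (nat_lit 163884) (nat_lit 5) (.e (nat_lit 221193) (nat_lit 11) (.e (nat_lit 336075) (nat_lit 9) (.e (nat_lit 336443) (nat_lit 32) (.e (nat_lit 466972) (nat_lit 21) (.e (nat_lit 164331) (nat_lit 230) .nil)))))) (.g (nat_lit 1) (.e (nat_lit 151804) (nat_lit 0) .nil) .nil))))) (.nd (nat_lit 8) (.nd (nat_lit 9) 
(.lf (nat_lit 493813) (.g (nat_lit 4031) (.e (nat_lit 163875) (nat_lit 3) (.e (nat_lit 204838) (nat_lit 20) (.e (nat_lit 114719) (nat_lit 23) (.e (nat_lit 98367) (nat_lit 27) (.e (nat_lit 434231) (nat_lit 23) (.e (nat_lit 532499) (nat_lit 1) (.e (nat_lit 57691) (nat_lit 156) .nil))))))) (.g (nat_lit 1) (.e (nat_lit 150658) (nat_lit 0) .nil) .nil))) 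
(.lf (nat_lit 494325) (.g (nat_lit 890) (.e (nat_lit 163880) (nat_lit 4) (.e (nat_lit 213032) (nat_lit 11) (.e (nat_lit 24624) (nat_lit 9) .nil))) (.g (nat_lit 0) (.e (nat_lit 151596) (nat_lit 0) .nil) .nil)))) (.nd (nat_lit 9) 
(.lf (nat_lit 494069) (.g (nat_lit 3307) (.e (nat_lit 163875) (nat_lit 3) (.e (nat_lit 204863) (nat_lit 27) (.e (nat_lit 344117) (nat_lit 21) (.e (nat_lit 516129) (nat_lit 3) (.e (nat_lit 221215) (nat_lit 23) (.e (nat_lit 204829) (nat_lit 18) (.e (nat_lit 57926) (nat_lit 282) .nil))))))) (.g (nat_lit 1) (.e (nat_lit 151076) (nat_lit 0) .nil) .nil))) 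
(.lf (nat_lit 494581) (.g (nat_lit 2841) (.e (nat_lit 163885) (nat_lit 5) (.e (nat_lit 221194) (nat_lit 11) (.e (nat_lit 336077) (nat_lit 9) (.e (nat_lit 336443) (nat_lit 32) (.e (nat_lit 466969) (nat_lit 21) (.e (nat_lit 164324) (nat_lit 230) .nil)))))) (.g (nat_lit 1) (.e (nat_lit 151976) (nat_lit 0) .nil) .nil))))))))) 
(.nd (nat_lit 4) (.nd (nat_lit 5) (.nd (nat_lit 6) (.nd (nat_lit 7) (.nd (nat_lit 8) 
(.nd (nat_lit 9) 
(.lf (nat_lit 493581) (.g (nat_lit 3758) (.e (nat_lit 163875) (nat_lit 3) (.e (nat_lit 204830) (nat_lit 18) (.e (nat_lit 57927) (nat_lit 282) (.e (nat_lit 164084) (nat_lit 73) (.e (nat_lit 336027) (nat_lit 3) (.e (nat_lit 98358) (nat_lit 26) (.e (nat_lit 426112) (nat_lit 1) (.e (nat_lit 164327) (nat_lit 230) .nil)))))))) (.g (nat_lit 1) (.e (nat_lit 150423) (nat_lit 0) .nil) .nil))) 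
(.lf (nat_lit 494093) (.g (nat_lit 3453) (.e (nat_lit 163875) (nat_lit 3) (.e (nat_lit 204863) (nat_lit 27) (.e (nat_lit 344117) (nat_lit 21) (.e (nat_lit 516130) (nat_lit 3) (.e (nat_lit 221215) (nat_lit 23) (.e (nat_lit 204829) (nat_lit 18) (.e (nat_lit 57928) (nat_lit 282) .nil))))))) (.g (nat_lit 1) (.e (nat_lit 151100) (nat_lit 0) .nil) .nil)))) (.nd (nat_lit 9) 
(.lf (nat_lit 493837) (.g (nat_lit 2929) (.e (nat_lit 163875) (nat_lit 3) (.e (nat_lit 204838) (nat_lit 20) (.e (nat_lit 114719) (nat_lit 23) (.e (nat_lit 98384) (nat_lit 32) (.e (nat_lit 475177) (nat_lit 24) (.e (nat_lit 516119) (nat_lit 1) (.e (nat_lit 164325) (nat_lit 230) .nil))))))) (.g (nat_lit 1) (.e (nat_lit 150682) (nat_lit 0) .nil) .nil))) 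
(.lf (nat_lit 494349) (.g (nat_lit 1352) (.e (nat_lit 163881) (nat_lit 4) (.e (nat_lit 213030) (nat_lit 11) (.e (nat_lit 24660) (nat_lit 13) (.e (nat_lit 393274) (nat_lit 23) (.e (nat_lit 426097) (nat_lit 1) .nil))))) (.g (nat_lit 0) (.e (nat_lit 151627) (nat_lit 0) .nil) .nil))))) (.nd (nat_lit 8) (.nd (nat_lit 9) 
(.lf (nat_lit 493709) (.g (nat_lit 3493) (.e (nat_lit 163875) (nat_lit 3) (.e (nat_lit 204837) (nat_lit 20) (.e (nat_lit 114719) (nat_lit 23) (.e (nat_lit 98367) (nat_lit 27) (.e (nat_lit 434231) (nat_lit 23) (.e (nat_lit 532502) (nat_lit 1) (.e (nat_lit 57692) (nat_lit 156) .nil))))))) (.g (nat_lit 1) (.e (nat_lit 150551) (nat_lit 0) .nil) .nil))) 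
(.lf (nat_lit 494221) (.g (nat_lit 2431) (.e (nat_lit 163877) (nat_lit 4) (.e (nat_lit 213032) (nat_lit 11) (.e (nat_lit 24658) (nat_lit 13) (.e (nat_lit 393281) (nat_lit 23) (.e (nat_lit 426099) (nat_lit 1) (.e (nat_lit 164330) (nat_lit 230) .nil)))))) (.g (nat_lit 1) (.e (nat_lit 151455) (nat_lit 0) .nil) .nil)))) (.nd (nat_lit 9) 
(.lf (nat_lit 493965) (.g (nat_lit 2750) (.e (nat_lit 163875) (nat_lit 3) (.e (nat_lit 204862) (nat_lit 27) (.e (nat_lit 344117) (nat_lit 21) (.e (nat_lit 516130) (nat_lit 3) (.e (nat_lit 221202) (nat_lit 20) (.e (nat_lit 3249) (nat_lit 197) (.e (nat_lit 532499) (nat_lit 1) (.e (nat_lit 57927) (nat_lit 282) .nil)))))))) (.g (nat_lit 1) (.e (nat_lit 150972) (nat_lit 0) .nil) .nil))) 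
(.lf (nat_lit 494477) (.g (nat_lit 2605) (.e (nat_lit 163884) (nat_lit 5) (.e (nat_lit 221194) (nat_lit 11) (.e (nat_lit 336074) (nat_lit 9) (.e (nat_lit 336443) (nat_lit 32) (.e (nat_lit 466972) (nat_lit 21) (.e (nat_lit 164322) (nat_lit 230) .nil)))))) (.g (nat_lit 1) (.e (nat_lit 151832) (nat_lit 0) .nil) .nil)))))) (.nd (nat_lit 7) (.nd (nat_lit 8) (.nd (nat_lit 9) 
(.lf (nat_lit 493645) (.g (nat_lit 4134) (.e (nat_lit 163875) (nat_lit 3) (.e (nat_lit 204837) (nat_lit 20) (.e (nat_lit 114718) (nat_lit 23) (.e (nat_lit 98366) (nat_lit 27) (.e (nat_lit 434231) (nat_lit 23) (.e (nat_lit 532500) (nat_lit 1) (.e (nat_lit 57689) (nat_lit 156) .nil))))))) (.g (nat_lit 1) (.e (nat_lit 150487) (nat_lit 0) .nil) .nil))) 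
(.lf (nat_lit 494157) (.g (nat_lit 3077) (.e (nat_lit 163875) (nat_lit 3) (.e (nat_lit 204873) (nat_lit 30) (.e (nat_lit 368676) (nat_lit 21) (.e (nat_lit 516131) (nat_lit 3) (.e (nat_lit 221213) (nat_lit 23) (.e (nat_lit 204830) (nat_lit 18) (.e (nat_lit 57927) (nat_lit 282) .nil))))))) (.g (nat_lit 1) (.e (nat_lit 151354) (nat_lit 0) .nil) .nil)))) (.nd (nat_lit 9) 
(.lf (nat_lit 493901) (.g (nat_lit 351) (.e (nat_lit 163875) (nat_lit 3) (.e (nat_lit 204861) (nat_lit 26) (.e (nat_lit 336213) (nat_lit 13) .nil))) (.g (nat_lit 0) (.e (nat_lit 150898) (nat_lit 0) .nil) .nil))) 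
(.lf (nat_lit 494413) (.g (nat_lit 2967) (.e (nat_lit 163882) (nat_lit 4) (.e (nat_lit 213032) (nat_lit 11) (.e (nat_lit 24626) (nat_lit 9) (.e (nat_lit 336443) (nat_lit 32) (.e (nat_lit 466971) (nat_lit 21) (.e (nat_lit 164326) (nat_lit 230) .nil)))))) (.g (nat_lit 1) (.e (nat_lit 151753) (nat_lit 0) .nil) .nil))))) (.nd (nat_lit 8) (.nd (nat_lit 9) 
(.lf (nat_lit 493773) (.g (nat_lit 4302) (.e (nat_lit 163875) (nat_lit 3) (.e (nat_lit 204838) (nat_lit 20) (.e (nat_lit 114718) (nat_lit 23) (.e (nat_lit 98367) (nat_lit 27) (.e (nat_lit 434231) (nat_lit 23) (.e (nat_lit 532499) (nat_lit 1) (.e (nat_lit 57692) (nat_lit 156) .nil))))))) (.g (nat_lit 1) (.e (nat_lit 150615) (nat_lit 0) .nil) .nil))) 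
(.lf (nat_lit 494285) (.g (nat_lit 1345) (.e (nat_lit 163879) (nat_lit 4) (.e (nat_lit 213032) (nat_lit 11) (.e (nat_lit 24629) (nat_lit 9) (.e (nat_lit 336434) (nat_lit 30) .nil)))) (.g (nat_lit 0) (.e (nat_lit 151532) (nat_lit 0) .nil) .nil)))) (.nd (nat_lit 9) 
(.lf (nat_lit 494029) (.g (nat_lit 2446) (.e (nat_lit 163875) (nat_lit 3) (.e (nat_lit 204862) (nat_lit 27) (.e (nat_lit 344130) (nat_lit 26) (.e (nat_lit 557097) (nat_lit 13) (.e (nat_lit 179968) (nat_lit 18) (.e (nat_lit 98344) (nat_lit 21) (.e (nat_lit 229677) (nat_lit 244) .nil))))))) (.g (nat_lit 1) (.e (nat_lit 151036) (nat_lit 0) .nil) .nil))) 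
(.lf (nat_lit 494541) (.g (nat_lit 2268) (.e (nat_lit 163885) (nat_lit 5) (.e (nat_lit 221191) (nat_lit 11) (.e (nat_lit 336152) (nat_lit 9) (.e (nat_lit 336442) (nat_lit 32) (.e (nat_lit 466969) (nat_lit 21) (.e (nat_lit 164332) (nat_lit 230) .nil)))))) (.g (nat_lit 1) (.e (nat_lit 151933) (nat_lit 0) .nil) .nil))))))) (.nd (nat_lit 6) (.nd (nat_lit 7) (.nd (nat_lit 8) (.nd (nat_lit 9) 
(.lf (nat_lit 493613) (.g (nat_lit 3131) (.e (nat_lit 163875) (nat_lit 3) (.e (nat_lit 204837) (nat_lit 20) (.e (nat_lit 114715) (nat_lit 22) (.e (nat_lit 90170) (nat_lit 13) (.e (nat_lit 172067) (nat_lit 3) (.e (nat_lit 204828) (nat_lit 18) (.e (nat_lit 57691) (nat_lit 156) .nil))))))) (.g (nat_lit 1) (.e (nat_lit 150455) (nat_lit 0) .nil) .nil))) 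
(.lf (nat_lit 494125) (.g (nat_lit 1331) (.e (nat_lit 163875) (nat_lit 3) (.e (nat_lit 204863) (nat_lit 27) (.e (nat_lit 344132) (nat_lit 26) (.e (nat_lit 557105) (nat_lit 14) .nil)))) (.g (nat_lit 0) (.e (nat_lit 151132) (nat_lit 0) .nil) .nil)))) (.nd (nat_lit 9) 
(.lf (nat_lit 493869) (.g (nat_lit 680) (.e (nat_lit 163875) (nat_lit 3) (.e (nat_lit 204852) (nat_lit 26) (.e (nat_lit 343808) (nat_lit 13) .nil))) (.g (nat_lit 0) (.e (nat_lit 150733) (nat_lit 0) .nil) .nil))) 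
(.lf (nat_lit 494381) (.g (nat_lit 2402) (.e (nat_lit 163881) (nat_lit 4) (.e (nat_lit 213032) (nat_lit 11) (.e (nat_lit 24660) (nat_lit 13) (.e (nat_lit 393283) (nat_lit 24) (.e (nat_lit 434209) (nat_lit 18) (.e (nat_lit 5224) (nat_lit 296) .nil)))))) (.g (nat_lit 1) (.e (nat_lit 151688) (nat_lit 0) .nil) .nil))))) (.nd (nat_lit 8) (.nd (nat_lit 9) 
(.lf (nat_lit 493741) (.g (nat_lit 4119) (.e (nat_lit 163875) (nat_lit 3) (.e (nat_lit 204838) (nat_lit 20) (.e (nat_lit 114715) (nat_lit 22) (.e (nat_lit 90170) (nat_lit 13) (.e (nat_lit 172065) (nat_lit 3) (.e (nat_lit 204830) (nat_lit 18) (.e (nat_lit 57690) (nat_lit 156) .nil))))))) (.g (nat_lit 1) (.e (nat_lit 150583) (nat_lit 0) .nil) .nil))) 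
(.lf (nat_lit 494253) (.g (nat_lit 2786) (.e (nat_lit 163878) (nat_lit 4) (.e (nat_lit 213032) (nat_lit 11) (.e (nat_lit 24626) (nat_lit 9) (.e (nat_lit 336443) (nat_lit 32) (.e (nat_lit 466972) (nat_lit 21) .nil))))) (.g (nat_lit 0) (.e (nat_lit 151490) (nat_lit 0) .nil) .nil)))) (.nd (nat_lit 9) 
(.lf (nat_lit 493997) (.g (nat_lit 2759) (.e (nat_lit 163875) (nat_lit 3) (.e (nat_lit 204862) (nat_lit 27) (.e (nat_lit 344117) (nat_lit 21) (.e (nat_lit 516195) (nat_lit 26) (.e (nat_lit 336027) (nat_lit 3) (.e (nat_lit 98319) (nat_lit 17) (.e (nat_lit 2433) (nat_lit 157) (.e (nat_lit 6839) (nat_lit 369) .nil)))))))) (.g (nat_lit 1) (.e (nat_lit 151004) (nat_lit 0) .nil) .nil))) 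
(.lf (nat_lit 494509) (.g (nat_lit 1106) (.e (nat_lit 163884) (nat_lit 5) (.e (nat_lit 221194) (nat_lit 11) (.e (nat_lit 336086) (nat_lit 9) (.e (nat_lit 336441) (nat_lit 32) .nil)))) (.g (nat_lit 0) (.e (nat_lit 151864) (nat_lit 0) .nil) .nil)))))) (.nd (nat_lit 7) (.nd (nat_lit 8) (.nd (nat_lit 9) 
(.lf (nat_lit 493677) (.g (nat_lit 2337) (.e (nat_lit 163875) (nat_lit 3) (.e (nat_lit 204837) (nat_lit 20) (.e (nat_lit 114719) (nat_lit 23) (.e (nat_lit 98363) (nat_lit 26) (.e (nat_lit 426129) (nat_lit 3) (.e (nat_lit 204829) (nat_lit 18) (.e (nat_lit 57691) (nat_lit 156) .nil))))))) (.g (nat_lit 1) (.e (nat_lit 150519) (nat_lit 0) .nil) .nil))) 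
(.lf (nat_lit 494189) (.g (nat_lit 600) (.e (nat_lit 163877) (nat_lit 4) (.e (nat_lit 213030) (nat_lit 11) (.e (nat_lit 24630) (nat_lit 9) .nil))) (.g (nat_lit 0) (.e (nat_lit 151419) (nat_lit 0) .nil) .nil)))) (.nd (nat_lit 9) 
(.lf (nat_lit 493933) (.g (nat_lit 1569) (.e (nat_lit 163875) (nat_lit 3) (.e (nat_lit 204862) (nat_lit 27) (.e (nat_lit 344117) (nat_lit 21) (.e (nat_lit 516123) (nat_lit 2) (.e (nat_lit 213013) (nat_lit 9) .nil))))) (.g (nat_lit 0) (.e (nat_lit 150940) (nat_lit 0) .nil) .nil))) 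
(.lf (nat_lit 494445) (.g (nat_lit 1702) (.e (nat_lit 163884) (nat_lit 5) (.e (nat_lit 221192) (nat_lit 11) (.e (nat_lit 336153) (nat_lit 9) (.e (nat_lit 336442) (nat_lit 32) (.e (nat_lit 466971) (nat_lit 21) (.e (nat_lit 164326) (nat_lit 230) .nil)))))) (.g (nat_lit 1) (.e (nat_lit 151796) (nat_lit 0) .nil) .nil))))) (.nd (nat_lit 8) (.nd (nat_lit 9) 
(.lf (nat_lit 493805) (.g (nat_lit 1579) (.e (nat_lit 163875) (nat_lit 3) (.e (nat_lit 204838) (nat_lit 20) (.e (nat_lit 114719) (nat_lit 23) (.e (nat_lit 98366) (nat_lit 27) (.e (nat_lit 434232) (nat_lit 23) .nil))))) (.g (nat_lit 0) (.e (nat_lit 150650) (nat_lit 0) .nil) .nil))) 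
(.lf (nat_lit 494317) (.g (nat_lit 2820) (.e (nat_lit 163880) (nat_lit 4) (.e (nat_lit 213030) (nat_lit 11) (.e (nat_lit 24658) (nat_lit 13) (.e (nat_lit 393281) (nat_lit 23) (.e (nat_lit 426100) (nat_lit 1) (.e (nat_lit 164330) (nat_lit 230) .nil)))))) (.g (nat_lit 1) (.e (nat_lit 151571) (nat_lit 0) .nil) .nil)))) (.nd (nat_lit 9) 
(.lf (nat_lit 494061) (.g (nat_lit 3471) (.e (nat_lit 163875) (nat_lit 3) (.e (nat_lit 204863) (nat_lit 27) (.e (nat_lit 344117) (nat_lit 21) (.e (nat_lit 516129) (nat_lit 3) (.e (nat_lit 221214) (nat_lit 23) (.e (nat_lit 204829) (nat_lit 18) (.e (nat_lit 57926) (nat_lit 282) .nil))))))) (.g (nat_lit 1) (.e (nat_lit 151068) (nat_lit 0) .nil) .nil))) 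
(.lf (nat_lit 494573) (.g (nat_lit 3054) (.e (nat_lit 163885) (nat_lit 5) (.e (nat_lit 221194) (nat_lit 11) (.e (nat_lit 336075) (nat_lit 9) (.e (nat_lit 336443) (nat_lit 32) (.e (nat_lit 466971) (nat_lit 21) (.e (nat_lit 164324) (nat_lit 230) .nil)))))) (.g (nat_lit 1) (.e (nat_lit 151968) (nat_lit 0) .nil) .nil)))))))) 
(.nd (nat_lit 5) (.nd (nat_lit 6) (.nd (nat_lit 7) (.nd (nat_lit 8) (.nd (nat_lit 9) 
(.lf (nat_lit 493597) (.g (nat_lit 3607) (.e (nat_lit 163875) (nat_lit 3) (.e (nat_lit 204836) (nat_lit 20) (.e (nat_lit 114719) (nat_lit 23) (.e (nat_lit 98367) (nat_lit 27) (.e (nat_lit 434232) (nat_lit 23) (.e (nat_lit 532504) (nat_lit 1) (.e (nat_lit 57692) (nat_lit 156) .nil))))))) (.g (nat_lit 1) (.e (nat_lit 150439) (nat_lit 0) .nil) .nil))) 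
(.lf (nat_lit 494109) (.g (nat_lit 3010) (.e (nat_lit 163875) (nat_lit 3) (.e (nat_lit 204863) (nat_lit 27) (.e (nat_lit 344129) (nat_lit 26) (.e (nat_lit 557103) (nat_lit 14) (.e (nat_lit 180243) (nat_lit 5) (.e (nat_lit 532504) (nat_lit 1) (.e (nat_lit 65280) (nat_lit 168) .nil))))))) (.g (nat_lit 1) (.e (nat_lit 151116) (nat_lit 0) .nil) .nil)))) (.nd (nat_lit 9) 
(.lf (nat_lit 493853) (.g (nat_lit 2583) (.e (nat_lit 163875) (nat_lit 3) (.e (nat_lit 204850) (nat_lit 26) (.e (nat_lit 336028) (nat_lit 3) (.e (nat_lit 98342) (nat_lit 20) (.e (nat_lit 221215) (nat_lit 23) (.e (nat_lit 204830) (nat_lit 18) (.e (nat_lit 57927) (nat_lit 282) .nil))))))) (.g (nat_lit 1) (.e (nat_lit 150700) (nat_lit 0) .nil) .nil))) 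
(.lf (nat_lit 494365) (.g (nat_lit 2067) (.e (nat_lit 163881) (nat_lit 4) (.e (nat_lit 213032) (nat_lit 11) (.e (nat_lit 24629) (nat_lit 9) (.e (nat_lit 336434) (nat_lit 30) (.e (nat_lit 450564) (nat_lit 0) (.e (nat_lit 5224) (nat_lit 296) .nil)))))) (.g (nat_lit 1) (.e (nat_lit 151665) (nat_lit 0) .nil) .nil))))) (.nd (nat_lit 8) (.nd (nat_lit 9) 
(.lf (nat_lit 493725) (.g (nat_lit 2592) (.e (nat_lit 163875) (nat_lit 3) (.e (nat_lit 204837) (nat_lit 20) (.e (nat_lit 114719) (nat_lit 23) (.e (nat_lit 98367) (nat_lit 27) (.e (nat_lit 434234) (nat_lit 23) (.e (nat_lit 532499) (nat_lit 1) (.e (nat_lit 57691) (nat_lit 156) .nil))))))) (.g (nat_lit 1) (.e (nat_lit 150567) (nat_lit 0) .nil) .nil))) 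
(.lf (nat_lit 494237) (.g (nat_lit 866) (.e (nat_lit 163878) (nat_lit 4) (.e (nat_lit 213030) (nat_lit 11) (.e (nat_lit 24659) (nat_lit 13) (.e (nat_lit 393275) (nat_lit 23) .nil)))) (.g (nat_lit 0) (.e (nat_lit 151473) (nat_lit 0) .nil) .nil)))) (.nd (nat_lit 9) 
(.lf (nat_lit 493981) (.g (nat_lit 4536) (.e (nat_lit 163875) (nat_lit 3) (.e (nat_lit 204862) (nat_lit 27) (.e (nat_lit 344117) (nat_lit 21) (.e (nat_lit 516130) (nat_lit 3) (.e (nat_lit 221214) (nat_lit 23) (.e (nat_lit 204830) (nat_lit 18) (.e (nat_lit 57928) (nat_lit 282) .nil))))))) (.g (nat_lit 1) (.e (nat_lit 150988) (nat_lit 0) .nil) .nil))) 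
(.lf (nat_lit 494493) (.g (nat_lit 3472) (.e (nat_lit 163884) (nat_lit 5) (.e (nat_lit 221194) (nat_lit 11) (.e (nat_lit 336075) (nat_lit 9) (.e (nat_lit 336443) (nat_lit 32) (.e (nat_lit 466972) (nat_lit 21) (.e (nat_lit 164329) (nat_lit 230) .nil)))))) (.g (nat_lit 1) (.e (nat_lit 151848) (nat_lit 0) .nil) .nil)))))) (.nd (nat_lit 7) (.nd (nat_lit 8) (.nd (nat_lit 9) 
(.lf (nat_lit 493661) (.g (nat_lit 2432) (.e (nat_lit 163875) (nat_lit 3) (.e (nat_lit 204837) (nat_lit 20) (.e (nat_lit 114718) (nat_lit 23) (.e (nat_lit 98367) (nat_lit 27) (.e (nat_lit 434232) (nat_lit 23) (.e (nat_lit 532503) (nat_lit 1) (.e (nat_lit 57689) (nat_lit 156) .nil))))))) (.g (nat_lit 1) (.e (nat_lit 150503) (nat_lit 0) .nil) .nil))) 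
(.lf (nat_lit 494173) (.g (nat_lit 1497) (.e (nat_lit 163875) (nat_lit 3) (.e (nat_lit 204877) (nat_lit 31) (.e (nat_lit 376842) (nat_lit 11) (.e (nat_lit 426497) (nat_lit 27) (.e (nat_lit 335987) (nat_lit 1) (.e (nat_lit 57927) (nat_lit 282) .nil)))))) (.g (nat_lit 1) (.e (nat_lit 151370) (nat_lit 0) .nil) .nil)))) (.nd (nat_lit 9) 
(.lf (nat_lit 493917) (.g (nat_lit 3063) (.e (nat_lit 163875) (nat_lit 3) (.e (nat_lit 204861) (nat_lit 26) (.e (nat_lit 336215) (nat_lit 13) (.e (nat_lit 393229) (nat_lit 9) (.e (nat_lit 335986) (nat_lit 1) (.e (nat_lit 57927) (nat_lit 282) .nil)))))) (.g (nat_lit 1) (.e (nat_lit 150921) (nat_lit 0) .nil) .nil))) 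
(.lf (nat_lit 494429) (.g (nat_lit 1761) (.e (nat_lit 163884) (nat_lit 5) (.e (nat_lit 221190) (nat_lit 11) (.e (nat_lit 336076) (nat_lit 9) (.e (nat_lit 336443) (nat_lit 32) (.e (nat_lit 466969) (nat_lit 21) .nil))))) (.g (nat_lit 0) (.e (nat_lit 151780) (nat_lit 0) .nil) .nil))))) (.nd (nat_lit 8) (.nd (nat_lit 9) 
(.lf (nat_lit 493789) (.g (nat_lit 1022) (.e (nat_lit 163875) (nat_lit 3) (.e (nat_lit 204838) (nat_lit 20) (.e (nat_lit 114719) (nat_lit 23) (.e (nat_lit 98354) (nat_lit 26) .nil)))) (.g (nat_lit 0) (.e (nat_lit 150631) (nat_lit 0) .nil) .nil))) 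
(.lf (nat_lit 494301) (.g (nat_lit 1679) (.e (nat_lit 163879) (nat_lit 4) (.e (nat_lit 213032) (nat_lit 11) (.e (nat_lit 24660) (nat_lit 13) (.e (nat_lit 393283) (nat_lit 24) (.e (nat_lit 434209) (nat_lit 18) .nil))))) (.g (nat_lit 0) (.e (nat_lit 151554) (nat_lit 0) .nil) .nil)))) (.nd (nat_lit 9) 
(.lf (nat_lit 494045) (.g (nat_lit 2443) (.e (nat_lit 163875) (nat_lit 3) (.e (nat_lit 204863) (nat_lit 27) (.e (nat_lit 344117) (nat_lit 21) (.e (nat_lit 516099) (nat_lit 0) .nil)))) (.g (nat_lit 0) (.e (nat_lit 151052) (nat_lit 0) .nil) .nil))) 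
(.lf (nat_lit 494557) (.g (nat_lit 2643) (.e (nat_lit 163885) (nat_lit 5) (.e (nat_lit 221193) (nat_lit 11) (.e (nat_lit 336077) (nat_lit 9) (.e (nat_lit 336443) (nat_lit 32) (.e (nat_lit 466972) (nat_lit 21) (.e (nat_lit 164329) (nat_lit 230) .nil)))))) (.g (nat_lit 1) (.e (nat_lit 151949) (nat_lit 0) .nil) .nil))))))) (.nd (nat_lit 6) (.nd (nat_lit 7) (.nd (nat_lit 8) (.nd (nat_lit 9) 
(.lf (nat_lit 493629) (.g (nat_lit 414) (.e (nat_lit 163875) (nat_lit 3) (.e (nat_lit 204837) (nat_lit 20) (.e (nat_lit 114718) (nat_lit 23) .nil))) (.g (nat_lit 0) (.e (nat_lit 150471) (nat_lit 0) .nil) .nil))) 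
(.lf (nat_lit 494141) (.g (nat_lit 1106) (.e (nat_lit 163875) (nat_lit 3) (.e (nat_lit 204865) (nat_lit 28) (.e (nat_lit 352277) (nat_lit 11) (.e (nat_lit 426500) (nat_lit 27) (.e (nat_lit 335985) (nat_lit 1) (.e (nat_lit 57925) (nat_lit 282) .nil)))))) (.g (nat_lit 1) (.e (nat_lit 151148) (nat_lit 0) .nil) .nil)))) (.nd (nat_lit 9) 
(.lf (nat_lit 493885) (.g (nat_lit 2002) (.e (nat_lit 163875) (nat_lit 3) (.e (nat_lit 204861) (nat_lit 26) (.e (nat_lit 336075) (nat_lit 9) (.e (nat_lit 336456) (nat_lit 34) (.e (nat_lit 483362) (nat_lit 18) .nil))))) (.g (nat_lit 0) (.e (nat_lit 150842) (nat_lit 0) .nil) .nil))) 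
(.lf (nat_lit 494397) (.g (nat_lit 2427) (.e (nat_lit 163882) (nat_lit 4) (.e (nat_lit 213030) (nat_lit 11) (.e (nat_lit 24656) (nat_lit 13) (.e (nat_lit 393271) (nat_lit 23) (.e (nat_lit 426112) (nat_lit 1) .nil))))) (.g (nat_lit 0) (.e (nat_lit 151714) (nat_lit 0) .nil) .nil))))) (.nd (nat_lit 8) (.nd (nat_lit 9) 
(.lf (nat_lit 493757) (.g (nat_lit 2323) (.e (nat_lit 163875) (nat_lit 3) (.e (nat_lit 204838) (nat_lit 20) (.e (nat_lit 114716) (nat_lit 22) (.e (nat_lit 90185) (nat_lit 17) (.e (nat_lit 237592) (nat_lit 3) (.e (nat_lit 204830) (nat_lit 18) (.e (nat_lit 57689) (nat_lit 156) .nil))))))) (.g (nat_lit 1) (.e (nat_lit 150599) (nat_lit 0) .nil) .nil))) 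
(.lf (nat_lit 494269) (.g (nat_lit 3040) (.e (nat_lit 163879) (nat_lit 4) (.e (nat_lit 213030) (nat_lit 11) (.e (nat_lit 24630) (nat_lit 9) (.e (nat_lit 336443) (nat_lit 32) (.e (nat_lit 466969) (nat_lit 21) (.e (nat_lit 164327) (nat_lit 230) .nil)))))) (.g (nat_lit 1) (.e (nat_lit 151512) (nat_lit 0) .nil) .nil)))) (.nd (nat_lit 9) 
(.lf (nat_lit 494013) (.g (nat_lit 4159) (.e (nat_lit 163875) (nat_lit 3) (.e (nat_lit 204862) (nat_lit 27) (.e (nat_lit 344129) (nat_lit 26) (.e (nat_lit 557103) (nat_lit 14) (.e (nat_lit 180243) (nat_lit 5) (.e (nat_lit 532501) (nat_lit 1) (.e (nat_lit 65280) (nat_lit 168) .nil))))))) (.g (nat_lit 1) (.e (nat_lit 151020) (nat_lit 0) .nil) .nil))) 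
(.lf (nat_lit 494525) (.g (nat_lit 1325) (.e (nat_lit 163884) (nat_lit 5) (.e (nat_lit 221210) (nat_lit 22) (.e (nat_lit 196656) (nat_lit 11) (.e (nat_lit 16425) (nat_lit 7) .nil)))) (.g (nat_lit 0) (.e (nat_lit 151904) (nat_lit 0) .nil) .nil)))))) (.nd (nat_lit 7) (.nd (nat_lit 8) (.nd (nat_lit 9) 
(.lf (nat_lit 493693) (.g (nat_lit 1971) (.e (nat_lit 163875) (nat_lit 3) (.e (nat_lit 204837) (nat_lit 20) (.e (nat_lit 114719) (nat_lit 23) (.e (nat_lit 98366) (nat_lit 27) (.e (nat_lit 434232) (nat_lit 23) .nil))))) (.g (nat_lit 0) (.e (nat_lit 150535) (nat_lit 0) .nil) .nil))) 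
(.lf (nat_lit 494205) (.g (nat_lit 2495) (.e (nat_lit 163877) (nat_lit 4) (.e (nat_lit 213032) (nat_lit 11) (.e (nat_lit 24628) (nat_lit 9) (.e (nat_lit 336432) (nat_lit 30) .nil)))) (.g (nat_lit 0) (.e (nat_lit 151437) (nat_lit 0) .nil) .nil)))) (.nd (nat_lit 9) 
(.lf (nat_lit 493949) (.g (nat_lit 2512) (.e (nat_lit 163875) (nat_lit 3) (.e (nat_lit 204862) (nat_lit 27) (.e (nat_lit 344117) (nat_lit 21) (.e (nat_lit 516129) (nat_lit 3) (.e (nat_lit 221204) (nat_lit 20) (.e (nat_lit 3253) (nat_lit 197) (.e (nat_lit 532501) (nat_lit 1) (.e (nat_lit 57928) (nat_lit 282) .nil)))))))) (.g (nat_lit 1) (.e (nat_lit 150956) (nat_lit 0) .nil) .nil))) 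
(.lf (nat_lit 494461) (.g (nat_lit 2381) (.e (nat_lit 163884) (nat_lit 5) (.e (nat_lit 221193) (nat_lit 11) (.e (nat_lit 336077) (nat_lit 9) (.e (nat_lit 336443) (nat_lit 32) (.e (nat_lit 466971) (nat_lit 21) (.e (nat_lit 164322) (nat_lit 230) .nil)))))) (.g (nat_lit 1) (.e (nat_lit 151812) (nat_lit 0) .nil) .nil))))) (.nd (nat_lit 8) (.nd (nat_lit 9) 
(.lf (nat_lit 493821) (.g (nat_lit 2597) (.e (nat_lit 163875) (nat_lit 3) (.e (nat_lit 204838) (nat_lit 20) (.e (nat_lit 114719) (nat_lit 23) (.e (nat_lit 98367) (nat_lit 27) (.e (nat_lit 434232) (nat_lit 23) (.e (nat_lit 532499) (nat_lit 1) (.e (nat_lit 57691) (nat_lit 156) .nil))))))) (.g (nat_lit 1) (.e (nat_lit 150666) (nat_lit 0) .nil) .nil))) 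
(.lf (nat_lit 494333) (.g (nat_lit 2711) (.e (nat_lit 163880) (nat_lit 4) (.e (nat_lit 213032) (nat_lit 11) (.e (nat_lit 24659) (nat_lit 13) (.e (nat_lit 393281) (nat_lit 23) (.e (nat_lit 426100) (nat_lit 1) (.e (nat_lit 164330) (nat_lit 230) .nil)))))) (.g (nat_lit 1) (.e (nat_lit 151606) (nat_lit 0) .nil) .nil)))) (.nd (nat_lit 9) 
(.lf (nat_lit 494077) (.g (nat_lit 2121) (.e (nat_lit 163875) (nat_lit 3) (.e (nat_lit 204863) (nat_lit 27) (.e (nat_lit 344117) (nat_lit 21) (.e (nat_lit 516130) (nat_lit 3) (.e (nat_lit 221213) (nat_lit 23) (.e (nat_lit 204829) (nat_lit 18) (.e (nat_lit 57928) (nat_lit 282) .nil))))))) (.g (nat_lit 1) (.e (nat_lit 151084) (nat_lit 0) .nil) .nil))) 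
(.lf (nat_lit 494589) (.g (nat_lit 2988) (.e (nat_lit 163885) (nat_lit 5) (.e (nat_lit 221194) (nat_lit 11) (.e (nat_lit 336084) (nat_lit 9) (.e (nat_lit 336443) (nat_lit 32) (.e (nat_lit 466972) (nat_lit 21) (.e (nat_lit 164329) (nat_lit 230) .nil)))))) (.g (nat_lit 1) (.e (nat_lit 151984) (nat_lit 0) .nil) .nil))))))))))) 
(.nd (nat_lit 2) (.nd (nat_lit 3) (.nd (nat_lit 4) (.nd (nat_lit 5) (.nd (nat_lit 6) 
(.nd (nat_lit 7) (.nd (nat_lit 8) (.nd (nat_lit 9) 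
(.lf (nat_lit 493571) (.g (nat_lit 1844) (.e (nat_lit 163875) (nat_lit 3) (.e (nat_lit 204830) (nat_lit 18) (.e (nat_lit 57852) (nat_lit 252) (.e (nat_lit 57431) (nat_lit 16) .nil)))) (.g (nat_lit 0) (.e (nat_lit 150413) (nat_lit 0) .nil) .nil))) 
(.lf (nat_lit 494083) (.g (nat_lit 3652) (.e (nat_lit 163875) (nat_lit 3) (.e (nat_lit 204863) (nat_lit 27) (.e (nat_lit 344117) (nat_lit 21) (.e (nat_lit 516130) (nat_lit 3) (.e (nat_lit 221214) (nat_lit 23) (.e (nat_lit 204830) (nat_lit 18) (.e (nat_lit 57924) (nat_lit 282) .nil))))))) (.g (nat_lit 1) (.e (nat_lit 151090) (nat_lit 0) .nil) .nil)))) (.nd (nat_lit 9) 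
(.lf (nat_lit 493827) (.g (nat_lit 3661) (.e (nat_lit 163875) (nat_lit 3) (.e (nat_lit 204838) (nat_lit 20) (.e (nat_lit 114719) (nat_lit 23) (.e (nat_lit 98367) (nat_lit 27) (.e (nat_lit 434232) (nat_lit 23) (.e (nat_lit 532503) (nat_lit 1) (.e (nat_lit 57688) (nat_lit 156) .nil))))))) (.g (nat_lit 1) (.e (nat_lit 150672) (nat_lit 0) .nil) .nil))) 
(.lf (nat_lit 494339) (.g (nat_lit 2090) (.e (nat_lit 163881) (nat_lit 4) (.e (nat_lit 213030) (nat_lit 11) (.e (nat_lit 24624) (nat_lit 9) (.e (nat_lit 336443) (nat_lit 32) (.e (nat_lit 466971) (nat_lit 21) .nil))))) (.g (nat_lit 0) (.e (nat_lit 151615) (nat_lit 0) .nil) .nil))))) (.nd (nat_lit 8) (.nd (nat_lit 9) 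
(.lf (nat_lit 493699) (.g (nat_lit 2218) (.e (nat_lit 163875) (nat_lit 3) (.e (nat_lit 204837) (nat_lit 20) (.e (nat_lit 114719) (nat_lit 23) (.e (nat_lit 98366) (nat_lit 27) (.e (nat_lit 434233) (nat_lit 23) (.e (nat_lit 532504) (nat_lit 1) (.e (nat_lit 57692) (nat_lit 156) .nil))))))) (.g (nat_lit 1) (.e (nat_lit 150541) (nat_lit 0) .nil) .nil))) 
(.lf (nat_lit 494211) (.g (nat_lit 2220) (.e (nat_lit 163877) (nat_lit 4) (.e (nat_lit 213032) (nat_lit 11) (.e (nat_lit 24630) (nat_lit 9) (.e (nat_lit 336443) (nat_lit 32) (.e (nat_lit 466969) (nat_lit 21) .nil))))) (.g (nat_lit 0) (.e (nat_lit 151445) (nat_lit 0) .nil) .nil)))) (.nd (nat_lit 9) 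
(.lf (nat_lit 493955) (.g (nat_lit 3547) (.e (nat_lit 163875) (nat_lit 3) (.e (nat_lit 204862) (nat_lit 27) (.e (nat_lit 344117) (nat_lit 21) (.e (nat_lit 516129) (nat_lit 3) (.e (nat_lit 221214) (nat_lit 23) (.e (nat_lit 204830) (nat_lit 18) (.e (nat_lit 57928) (nat_lit 282) .nil))))))) (.g (nat_lit 1) (.e (nat_lit 150962) (nat_lit 0) .nil) .nil))) 
(.lf (nat_lit 494467) (.g (nat_lit 2264) (.e (nat_lit 163884) (nat_lit 5) (.e (nat_lit 221193) (nat_lit 11) (.e (nat_lit 336084) (nat_lit 9) (.e (nat_lit 336443) (nat_lit 32) (.e (nat_lit 466969) (nat_lit 21) (.e (nat_lit 164329) (nat_lit 230) .nil)))))) (.g (nat_lit 1) (.e (nat_lit 151818) (nat_lit 0) .nil) .nil)))))) (.nd (nat_lit 7) (.nd (nat_lit 8) (.nd (nat_lit 9) 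
(.lf (nat_lit 493635) (.g (nat_lit 1937) (.e (nat_lit 163875) (nat_lit 3) (.e (nat_lit 204837) (nat_lit 20) (.e (nat_lit 114718) (nat_lit 23) (.e (nat_lit 98365) (nat_lit 26) (.e (nat_lit 426137) (nat_lit 3) (.e (nat_lit 204830) (nat_lit 18) (.e (nat_lit 57692) (nat_lit 156) .nil))))))) (.g (nat_lit 1) (.e (nat_lit 150477) (nat_lit 0) .nil) .nil))) 
(.lf (nat_lit 494147) (.g (nat_lit 2358) (.e (nat_lit 163875) (nat_lit 3) (.e (nat_lit 204865) (nat_lit 28) (.e (nat_lit 352277) (nat_lit 11) (.e (nat_lit 426500) (nat_lit 27) (.e (nat_lit 335988) (nat_lit 1) (.e (nat_lit 57928) (nat_lit 282) .nil)))))) (.g (nat_lit 1) (.e (nat_lit 151154) (nat_lit 0) .nil) .nil)))) (.nd (nat_lit 9) 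
(.lf (nat_lit 493891) (.g (nat_lit 2292) (.e (nat_lit 163875) (nat_lit 3) (.e (nat_lit 204861) (nat_lit 26) (.e (nat_lit 336076) (nat_lit 9) (.e (nat_lit 336374) (nat_lit 27) (.e (nat_lit 426482) (nat_lit 27) (.e (nat_lit 335997) (nat_lit 1) (.e (nat_lit 57924) (nat_lit 282) .nil))))))) (.g (nat_lit 1) (.e (nat_lit 150854) (nat_lit 0) .nil) .nil))) 
(.lf (nat_lit 494403) (.g (nat_lit 2779) (.e (nat_lit 163882) (nat_lit 4) (.e (nat_lit 213031) (nat_lit 11) (.e (nat_lit 24626) (nat_lit 9) (.e (nat_lit 336443) (nat_lit 32) (.e (nat_lit 466969) (nat_lit 21) (.e (nat_lit 164325) (nat_lit 230) .nil)))))) (.g (nat_lit 1) (.e (nat_lit 151721) (nat_lit 0) .nil) .nil))))) (.nd (nat_lit 8) (.nd (nat_lit 9) 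
(.lf (nat_lit 493763) (.g (nat_lit 2106) (.e (nat_lit 163875) (nat_lit 3) (.e (nat_lit 204838) (nat_lit 20) (.e (nat_lit 114718) (nat_lit 23) (.e (nat_lit 98365) (nat_lit 26) (.e (nat_lit 426138) (nat_lit 3) (.e (nat_lit 204831) (nat_lit 18) (.e (nat_lit 57686) (nat_lit 156) .nil))))))) (.g (nat_lit 1) (.e (nat_lit 150605) (nat_lit 0) .nil) .nil))) 
(.lf (nat_lit 494275) (.g (nat_lit 2122) (.e (nat_lit 163879) (nat_lit 4) (.e (nat_lit 213030) (nat_lit 11) (.e (nat_lit 24660) (nat_lit 13) (.e (nat_lit 393286) (nat_lit 25) (.e (nat_lit 458774) (nat_lit 18) (.e (nat_lit 5224) (nat_lit 296) .nil)))))) (.g (nat_lit 1) (.e (nat_lit 151519) (nat_lit 0) .nil) .nil)))) (.nd (nat_lit 9) 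
(.lf (nat_lit 494019) (.g (nat_lit 3052) (.e (nat_lit 163875) (nat_lit 3) (.e (nat_lit 204862) (nat_lit 27) (.e (nat_lit 344129) (nat_lit 26) (.e (nat_lit 557103) (nat_lit 14) (.e (nat_lit 180244) (nat_lit 5) (.e (nat_lit 532504) (nat_lit 1) (.e (nat_lit 65280) (nat_lit 168) .nil))))))) (.g (nat_lit 1) (.e (nat_lit 151026) (nat_lit 0) .nil) .nil))) 
(.lf (nat_lit 494531) (.g (nat_lit 1931) (.e (nat_lit 163884) (nat_lit 5) (.e (nat_lit 221215) (nat_lit 23) (.e (nat_lit 204813) (nat_lit 9) (.e (nat_lit 426307) (nat_lit 12) .nil)))) (.g (nat_lit 0) (.e (nat_lit 151915) (nat_lit 0) .nil) .nil))))))) (.nd (nat_lit 6) (.nd (nat_lit 7) (.nd (nat_lit 8) (.nd (nat_lit 9) 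
(.lf (nat_lit 493603) (.g (nat_lit 2692) (.e (nat_lit 163875) (nat_lit 3) (.e (nat_lit 204837) (nat_lit 20) (.e (nat_lit 114715) (nat_lit 22) (.e (nat_lit 90170) (nat_lit 13) (.e (nat_lit 172046) (nat_lit 0) (.e (nat_lit 3238) (nat_lit 197) (.e (nat_lit 532502) (nat_lit 1) (.e (nat_lit 57692) (nat_lit 156) .nil)))))))) (.g (nat_lit 1) (.e (nat_lit 150445) (nat_lit 0) .nil) .nil))) 
(.lf (nat_lit 494115) (.g (nat_lit 776) (.e (nat_lit 163875) (nat_lit 3) (.e (nat_lit 204863) (nat_lit 27) (.e (nat_lit 344130) (nat_lit 26) .nil))) (.g (nat_lit 0) (.e (nat_lit 151122) (nat_lit 0) .nil) .nil)))) (.nd (nat_lit 9) 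
(.lf (nat_lit 493859) (.g (nat_lit 2633) (.e (nat_lit 163875) (nat_lit 3) (.e (nat_lit 204851) (nat_lit 26) (.e (nat_lit 336019) (nat_lit 3) (.e (nat_lit 98342) (nat_lit 20) (.e (nat_lit 221214) (nat_lit 23) (.e (nat_lit 204829) (nat_lit 18) (.e (nat_lit 57927) (nat_lit 282) .nil))))))) (.g (nat_lit 1) (.e (nat_lit 150706) (nat_lit 0) .nil) .nil))) 
(.lf (nat_lit 494371) (.g (nat_lit 2261) (.e (nat_lit 163881) (nat_lit 4) (.e (nat_lit 213032) (nat_lit 11) (.e (nat_lit 24655) (nat_lit 13) (.e (nat_lit 393280) (nat_lit 23) .nil)))) (.g (nat_lit 0) (.e (nat_lit 151677) (nat_lit 0) .nil) .nil))))) (.nd (nat_lit 8) (.nd (nat_lit 9) 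
(.lf (nat_lit 493731) (.g (nat_lit 1359) (.e (nat_lit 163875) (nat_lit 3) (.e (nat_lit 204837) (nat_lit 20) (.e (nat_lit 114719) (nat_lit 23) (.e (nat_lit 98377) (nat_lit 30) .nil)))) (.g (nat_lit 0) (.e (nat_lit 150573) (nat_lit 0) .nil) .nil))) 
(.lf (nat_lit 494243) (.g (nat_lit 1453) (.e (nat_lit 163878) (nat_lit 4) (.e (nat_lit 213032) (nat_lit 11) (.e (nat_lit 24604) (nat_lit 2) .nil))) (.g (nat_lit 0) (.e (nat_lit 151479) (nat_lit 0) .nil) .nil)))) (.nd (nat_lit 9) 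
(.lf (nat_lit 493987) (.g (nat_lit 3129) (.e (nat_lit 163875) (nat_lit 3) (.e (nat_lit 204862) (nat_lit 27) (.e (nat_lit 344117) (nat_lit 21) (.e (nat_lit 516130) (nat_lit 3) (.e (nat_lit 221215) (nat_lit 23) (.e (nat_lit 204829) (nat_lit 18) (.e (nat_lit 57924) (nat_lit 282) .nil))))))) (.g (nat_lit 1) (.e (nat_lit 150994) (nat_lit 0) .nil) .nil))) 
(.lf (nat_lit 494499) (.g (nat_lit 2852) (.e (nat_lit 163884) (nat_lit 5) (.e (nat_lit 221194) (nat_lit 11) (.e (nat_lit 336077) (nat_lit 9) (.e (nat_lit 336443) (nat_lit 32) (.e (nat_lit 466969) (nat_lit 21) (.e (nat_lit 164329) (nat_lit 230) .nil)))))) (.g (nat_lit 1) (.e (nat_lit 151854) (nat_lit 0) .nil) .nil)))))) (.nd (nat_lit 7) (.nd (nat_lit 8) (.nd (nat_lit 9) 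
(.lf (nat_lit 493667) (.g (nat_lit 3063) (.e (nat_lit 163875) (nat_lit 3) (.e (nat_lit 204837) (nat_lit 20) (.e (nat_lit 114718) (nat_lit 23) (.e (nat_lit 98367) (nat_lit 27) (.e (nat_lit 434234) (nat_lit 23) (.e (nat_lit 532499) (nat_lit 1) (.e (nat_lit 57692) (nat_lit 156) .nil))))))) (.g (nat_lit 1) (.e (nat_lit 150509) (nat_lit 0) .nil) .nil))) 
(.lf (nat_lit 494179) (.g (nat_lit 2641) (.e (nat_lit 163875) (nat_lit 3) (.e (nat_lit 204877) (nat_lit 31) (.e (nat_lit 376842) (nat_lit 11) (.e (nat_lit 426500) (nat_lit 27) (.e (nat_lit 335988) (nat_lit 1) (.e (nat_lit 57927) (nat_lit 282) .nil)))))) (.g (nat_lit 1) (.e (nat_lit 151376) (nat_lit 0) .nil) .nil)))) (.nd (nat_lit 9) 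
(.lf (nat_lit 493923) (.g (nat_lit 2269) (.e (nat_lit 163875) (nat_lit 3) (.e (nat_lit 204862) (nat_lit 27) (.e (nat_lit 344117) (nat_lit 21) (.e (nat_lit 516122) (nat_lit 2) (.e (nat_lit 213033) (nat_lit 12) (.e (nat_lit 163962) (nat_lit 25) (.e (nat_lit 532499) (nat_lit 1) (.e (nat_lit 57927) (nat_lit 282) .nil)))))))) (.g (nat_lit 1) (.e (nat_lit 150930) (nat_lit 0) .nil) .nil))) 
(.lf (nat_lit 494435) (.g (nat_lit 1828) (.e (nat_lit 163884) (nat_lit 5) (.e (nat_lit 221190) (nat_lit 11) (.e (nat_lit 336078) (nat_lit 9) (.e (nat_lit 336443) (nat_lit 32) (.e (nat_lit 466969) (nat_lit 21) .nil))))) (.g (nat_lit 0) (.e (nat_lit 151786) (nat_lit 0) .nil) .nil))))) (.nd (nat_lit 8) (.nd (nat_lit 9) 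
(.lf (nat_lit 493795) (.g (nat_lit 2693) (.e (nat_lit 163875) (nat_lit 3) (.e (nat_lit 204838) (nat_lit 20) (.e (nat_lit 114719) (nat_lit 23) (.e (nat_lit 98363) (nat_lit 26) (.e (nat_lit 426129) (nat_lit 3) (.e (nat_lit 204830) (nat_lit 18) (.e (nat_lit 57692) (nat_lit 156) .nil))))))) (.g (nat_lit 1) (.e (nat_lit 150637) (nat_lit 0) .nil) .nil))) 
(.lf (nat_lit 494307) (.g (nat_lit 1177) (.e (nat_lit 163880) (nat_lit 4) (.e (nat_lit 213030) (nat_lit 11) (.e (nat_lit 24624) (nat_lit 9) (.e (nat_lit 336443) (nat_lit 32) .nil)))) (.g (nat_lit 0) (.e (nat_lit 151560) (nat_lit 0) .nil) .nil)))) (.nd (nat_lit 9) 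
(.lf (nat_lit 494051) (.g (nat_lit 2385) (.e (nat_lit 163875) (nat_lit 3) (.e (nat_lit 204863) (nat_lit 27) (.e (nat_lit 344117) (nat_lit 21) (.e (nat_lit 516122) (nat_lit 2) (.e (nat_lit 213036) (nat_lit 13) (.e (nat_lit 229433) (nat_lit 25) (.e (nat_lit 532501) (nat_lit 1) (.e (nat_lit 57926) (nat_lit 282) .nil)))))))) (.g (nat_lit 1) (.e (nat_lit 151058) (nat_lit 0) .nil) .nil))) 
(.lf (nat_lit 494563) (.g (nat_lit 3014) (.e (nat_lit 163885) (nat_lit 5) (.e (nat_lit 221194) (nat_lit 11) (.e (nat_lit 336074) (nat_lit 9) (.e (nat_lit 336443) (nat_lit 32) (.e (nat_lit 466971) (nat_lit 21) (.e (nat_lit 164324) (nat_lit 230) .nil)))))) (.g (nat_lit 1) (.e (nat_lit 151958) (nat_lit 0) .nil) .nil)))))))) 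
(.nd (nat_lit 5) (.nd (nat_lit 6) (.nd (nat_lit 7) (.nd (nat_lit 8) (.nd (nat_lit 9) 
(.lf (nat_lit 493587) (.g (nat_lit 1737) (.e (nat_lit 163875) (nat_lit 3) (.e (nat_lit 204836) (nat_lit 20) (.e (nat_lit 114718) (nat_lit 23) (.e (nat_lit 98365) (nat_lit 26) (.e (nat_lit 426133) (nat_lit 3) (.e (nat_lit 204829) (nat_lit 18) (.e (nat_lit 57686) (nat_lit 156) .nil))))))) (.g (nat_lit 1) (.e (nat_lit 150429) (nat_lit 0) .nil) .nil))) 
(.lf (nat_lit 494099) (.g (nat_lit 3106) (.e (nat_lit 163875) (nat_lit 3) (.e (nat_lit 204863) (nat_lit 27) (.e (nat_lit 344117) (nat_lit 21) (.e (nat_lit 516195) (nat_lit 26) (.e (nat_lit 336027) (nat_lit 3) (.e (nat_lit 98334) (nat_lit 18) (.e (nat_lit 171776) (nat_lit 162) .nil))))))) (.g (nat_lit 1) (.e (nat_lit 151106) (nat_lit 0) .nil) .nil)))) (.nd (nat_lit 9) 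
(.lf (nat_lit 493843) (.g (nat_lit 2332) (.e (nat_lit 163875) (nat_lit 3) (.e (nat_lit 204850) (nat_lit 26) (.e (nat_lit 336019) (nat_lit 3) (.e (nat_lit 98342) (nat_lit 20) (.e (nat_lit 221214) (nat_lit 23) (.e (nat_lit 204830) (nat_lit 18) (.e (nat_lit 57927) (nat_lit 282) .nil))))))) (.g (nat_lit 1) (.e (nat_lit 150690) (nat_lit 0) .nil) .nil))) 
(.lf (nat_lit 494355) (.g (nat_lit 2837) (.e (nat_lit 163881) (nat_lit 4) (.e (nat_lit 213032) (nat_lit 11) (.e (nat_lit 24625) (nat_lit 9) (.e (nat_lit 336443) (nat_lit 32) (.e (nat_lit 466971) (nat_lit 21) (.e (nat_lit 164325) (nat_lit 230) .nil)))))) (.g (nat_lit 1) (.e (nat_lit 151655) (nat_lit 0) .nil) .nil))))) (.nd (nat_lit 8) (.nd (nat_lit 9) 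
(.lf (nat_lit 493715) (.g (nat_lit 2365) (.e (nat_lit 163875) (nat_lit 3) (.e (nat_lit 204837) (nat_lit 20) (.e (nat_lit 114719) (nat_lit 23) (.e (nat_lit 98367) (nat_lit 27) (.e (nat_lit 434232) (nat_lit 23) (.e (nat_lit 532502) (nat_lit 1) (.e (nat_lit 57692) (nat_lit 156) .nil))))))) (.g (nat_lit 1) (.e (nat_lit 150557) (nat_lit 0) .nil) .nil))) 
(.lf (nat_lit 494227) (.g (nat_lit 2292) (.e (nat_lit 163878) (nat_lit 4) (.e (nat_lit 213030) (nat_lit 11) (.e (nat_lit 24625) (nat_lit 9) (.e (nat_lit 336443) (nat_lit 32) (.e (nat_lit 466969) (nat_lit 21) (.e (nat_lit 164329) (nat_lit 230) .nil)))))) (.g (nat_lit 1) (.e (nat_lit 151461) (nat_lit 0) .nil) .nil)))) (.nd (nat_lit 9) 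
(.lf (nat_lit 493971) (.g (nat_lit 3563) (.e (nat_lit 163875) (nat_lit 3) (.e (nat_lit 204862) (nat_lit 27) (.e (nat_lit 344117) (nat_lit 21) (.e (nat_lit 516130) (nat_lit 3) (.e (nat_lit 221213) (nat_lit 23) (.e (nat_lit 204830) (nat_lit 18) (.e (nat_lit 57925) (nat_lit 282) .nil))))))) (.g (nat_lit 1) (.e (nat_lit 150978) (nat_lit 0) .nil) .nil))) 
(.lf (nat_lit 494483) (.g (nat_lit 3551) (.e (nat_lit 163884) (nat_lit 5) (.e (nat_lit 221194) (nat_lit 11) (.e (nat_lit 336075) (nat_lit 9) (.e (nat_lit 336443) (nat_lit 32) (.e (nat_lit 466969) (nat_lit 21) (.e (nat_lit 164330) (nat_lit 230) .nil)))))) (.g (nat_lit 1) (.e (nat_lit 151838) (nat_lit 0) .nil) .nil)))))) (.nd (nat_lit 7) (.nd (nat_lit 8) (.nd (nat_lit 9) 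
(.lf (nat_lit 493651) (.g (nat_lit 4555) (.e (nat_lit 163875) (nat_lit 3) (.e (nat_lit 204837) (nat_lit 20) (.e (nat_lit 114718) (nat_lit 23) (.e (nat_lit 98367) (nat_lit 27) (.e (nat_lit 434231) (nat_lit 23) (.e (nat_lit 532500) (nat_lit 1) (.e (nat_lit 57690) (nat_lit 156) .nil))))))) (.g (nat_lit 1) (.e (nat_lit 150493) (nat_lit 0) .nil) .nil))) 
(.lf (nat_lit 494163) (.g (nat_lit 3966) (.e (nat_lit 163875) (nat_lit 3) (.e (nat_lit 204873) (nat_lit 30) (.e (nat_lit 368676) (nat_lit 21) (.e (nat_lit 516131) (nat_lit 3) (.e (nat_lit 221215) (nat_lit 23) (.e (nat_lit 204830) (nat_lit 18) (.e (nat_lit 57927) (nat_lit 282) .nil))))))) (.g (nat_lit 1) (.e (nat_lit 151360) (nat_lit 0) .nil) .nil)))) (.nd (nat_lit 9) 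
(.lf (nat_lit 493907) (.g (nat_lit 1956) (.e (nat_lit 163875) (nat_lit 3) (.e (nat_lit 204861) (nat_lit 26) (.e (nat_lit 336213) (nat_lit 13) (.e (nat_lit 393225) (nat_lit 9) (.e (nat_lit 335914) (nat_lit 0) .nil))))) (.g (nat_lit 0) (.e (nat_lit 150904) (nat_lit 0) .nil) .nil))) 
(.lf (nat_lit 494419) (.g (nat_lit 3296) (.e (nat_lit 163882) (nat_lit 4) (.e (nat_lit 213032) (nat_lit 11) (.e (nat_lit 24630) (nat_lit 9) (.e (nat_lit 336443) (nat_lit 32) (.e (nat_lit 466969) (nat_lit 21) (.e (nat_lit 164325) (nat_lit 230) .nil)))))) (.g (nat_lit 1) (.e (nat_lit 151767) (nat_lit 0) .nil) .nil))))) (.nd (nat_lit 8) (.nd (nat_lit 9) 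
(.lf (nat_lit 493779) (.g (nat_lit 2327) (.e (nat_lit 163875) (nat_lit 3) (.e (nat_lit 204838) (nat_lit 20) (.e (nat_lit 114718) (nat_lit 23) (.e (nat_lit 98367) (nat_lit 27) (.e (nat_lit 434232) (nat_lit 23) (.e (nat_lit 532501) (nat_lit 1) (.e (nat_lit 57692) (nat_lit 156) .nil))))))) (.g (nat_lit 1) (.e (nat_lit 150621) (nat_lit 0) .nil) .nil))) 
(.lf (nat_lit 494291) (.g (nat_lit 1423) (.e (nat_lit 163879) (nat_lit 4) (.e (nat_lit 213032) (nat_lit 11) (.e (nat_lit 24659) (nat_lit 13) (.e (nat_lit 393266) (nat_lit 23) .nil)))) (.g (nat_lit 0) (.e (nat_lit 151544) (nat_lit 0) .nil) .nil)))) (.nd (nat_lit 9) 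
(.lf (nat_lit 494035) (.g (nat_lit 2659) (.e (nat_lit 163875) (nat_lit 3) (.e (nat_lit 204862) (nat_lit 27) (.e (nat_lit 344130) (nat_lit 26) (.e (nat_lit 557103) (nat_lit 14) (.e (nat_lit 180244) (nat_lit 5) (.e (nat_lit 532503) (nat_lit 1) (.e (nat_lit 65280) (nat_lit 168) .nil))))))) (.g (nat_lit 1) (.e (nat_lit 151042) (nat_lit 0) .nil) .nil))) 
(.lf (nat_lit 494547) (.g (nat_lit 2117) (.e (nat_lit 163885) (nat_lit 5) (.e (nat_lit 221191) (nat_lit 11) (.e (nat_lit 336153) (nat_lit 9) (.e (nat_lit 336442) (nat_lit 32) (.e (nat_lit 466972) (nat_lit 21) (.e (nat_lit 164330) (nat_lit 230) .nil)))))) (.g (nat_lit 1) (.e (nat_lit 151939) (nat_lit 0) .nil) .nil))))))) (.nd (nat_lit 6) (.nd (nat_lit 7) (.nd (nat_lit 8) (.nd (nat_lit 9) 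
(.lf (nat_lit 493619) (.g (nat_lit 2842) (.e (nat_lit 163875) (nat_lit 3) (.e (nat_lit 204837) (nat_lit 20) (.e (nat_lit 114715) (nat_lit 22) (.e (nat_lit 90174) (nat_lit 14) (.e (nat_lit 180243) (nat_lit 5) (.e (nat_lit 532499) (nat_lit 1) (.e (nat_lit 57692) (nat_lit 156) .nil))))))) (.g (nat_lit 1) (.e (nat_lit 150461) (nat_lit 0) .nil) .nil))) 
(.lf (nat_lit 494131) (.g (nat_lit 2650) (.e (nat_lit 163875) (nat_lit 3) (.e (nat_lit 204863) (nat_lit 27) (.e (nat_lit 344133) (nat_lit 26) (.e (nat_lit 557105) (nat_lit 14) (.e (nat_lit 180251) (nat_lit 10) .nil))))) (.g (nat_lit 0) (.e (nat_lit 151138) (nat_lit 0) .nil) .nil)))) (.nd (nat_lit 9) 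
(.lf (nat_lit 493875) (.g (nat_lit 932) (.e (nat_lit 163875) (nat_lit 3) (.e (nat_lit 204861) (nat_lit 26) (.e (nat_lit 336075) (nat_lit 9) (.e (nat_lit 336374) (nat_lit 27) .nil)))) (.g (nat_lit 0) (.e (nat_lit 150795) (nat_lit 0) .nil) .nil))) 
(.lf (nat_lit 494387) (.g (nat_lit 2399) (.e (nat_lit 163882) (nat_lit 4) (.e (nat_lit 213030) (nat_lit 11) (.e (nat_lit 24617) (nat_lit 7) (.e (nat_lit 319534) (nat_lit 16) (.e (nat_lit 286756) (nat_lit 10) (.e (nat_lit 344088) (nat_lit 18) (.e (nat_lit 5963) (nat_lit 324) .nil))))))) (.g (nat_lit 1) (.e (nat_lit 151698) (nat_lit 0) .nil) .nil))))) (.nd (nat_lit 8) (.nd (nat_lit 9) 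
(.lf (nat_lit 493747) (.g (nat_lit 4091) (.e (nat_lit 163875) (nat_lit 3) (.e (nat_lit 204838) (nat_lit 20) (.e (nat_lit 114715) (nat_lit 22) (.e (nat_lit 90170) (nat_lit 13) (.e (nat_lit 172067) (nat_lit 3) (.e (nat_lit 204830) (nat_lit 18) (.e (nat_lit 57689) (nat_lit 156) .nil))))))) (.g (nat_lit 1) (.e (nat_lit 150589) (nat_lit 0) .nil) .nil))) 
(.lf (nat_lit 494259) (.g (nat_lit 1956) (.e (nat_lit 163878) (nat_lit 4) (.e (nat_lit 213032) (nat_lit 11) (.e (nat_lit 24629) (nat_lit 9) (.e (nat_lit 336430) (nat_lit 29) (.e (nat_lit 442421) (nat_lit 21) .nil))))) (.g (nat_lit 0) (.e (nat_lit 151496) (nat_lit 0) .nil) .nil)))) (.nd (nat_lit 9) 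
(.lf (nat_lit 494003) (.g (nat_lit 428) (.e (nat_lit 163875) (nat_lit 3) (.e (nat_lit 204862) (nat_lit 27) (.e (nat_lit 344118) (nat_lit 21) .nil))) (.g (nat_lit 0) (.e (nat_lit 151010) (nat_lit 0) .nil) .nil))) 
(.lf (nat_lit 494515) (.g (nat_lit 1885) (.e (nat_lit 163884) (nat_lit 5) (.e (nat_lit 221194) (nat_lit 11) (.e (nat_lit 336087) (nat_lit 9) (.e (nat_lit 336430) (nat_lit 29) (.e (nat_lit 442419) (nat_lit 21) .nil))))) (.g (nat_lit 0) (.e (nat_lit 151870) (nat_lit 0) .nil) .nil)))))) (.nd (nat_lit 7) (.nd (nat_lit 8) (.nd (nat_lit 9) 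
(.lf (nat_lit 493683) (.g (nat_lit 3517) (.e (nat_lit 163875) (nat_lit 3) (.e (nat_lit 204837) (nat_lit 20) (.e (nat_lit 114719) (nat_lit 23) (.e (nat_lit 98366) (nat_lit 27) (.e (nat_lit 434231) (nat_lit 23) (.e (nat_lit 532490) (nat_lit 0) (.e (nat_lit 1040) (nat_lit 81) (.e (nat_lit 7280) (nat_lit 386) .nil)))))))) (.g (nat_lit 1) (.e (nat_lit 150525) (nat_lit 0) .nil) .nil))) 
(.lf (nat_lit 494195) (.g (nat_lit 2354) (.e (nat_lit 163877) (nat_lit 4) (.e (nat_lit 213032) (nat_lit 11) (.e (nat_lit 24624) (nat_lit 9) (.e (nat_lit 336443) (nat_lit 32) (.e (nat_lit 466972) (nat_lit 21) .nil))))) (.g (nat_lit 0) (.e (nat_lit 151427) (nat_lit 0) .nil) .nil)))) (.nd (nat_lit 9) 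
(.lf (nat_lit 493939) (.g (nat_lit 2096) (.e (nat_lit 163875) (nat_lit 3) (.e (nat_lit 204862) (nat_lit 27) (.e (nat_lit 344117) (nat_lit 21) (.e (nat_lit 516123) (nat_lit 2) (.e (nat_lit 213035) (nat_lit 12) (.e (nat_lit 163964) (nat_lit 25) (.e (nat_lit 532499) (nat_lit 1) (.e (nat_lit 57927) (nat_lit 282) .nil)))))))) (.g (nat_lit 1) (.e (nat_lit 150946) (nat_lit 0) .nil) .nil))) 
(.lf (nat_lit 494451) (.g (nat_lit 1591) (.e (nat_lit 163884) (nat_lit 5) (.e (nat_lit 221193) (nat_lit 11) (.e (nat_lit 336075) (nat_lit 9) (.e (nat_lit 336443) (nat_lit 32) (.e (nat_lit 466971) (nat_lit 21) .nil))))) (.g (nat_lit 0) (.e (nat_lit 151802) (nat_lit 0) .nil) .nil))))) (.nd (nat_lit 8) (.nd (nat_lit 9) 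
(.lf (nat_lit 493811) (.g (nat_lit 2983) (.e (nat_lit 163875) (nat_lit 3) (.e (nat_lit 204838) (nat_lit 20) (.e (nat_lit 114719) (nat_lit 23) (.e (nat_lit 98367) (nat_lit 27) (.e (nat_lit 434231) (nat_lit 23) (.e (nat_lit 532499) (nat_lit 1) (.e (nat_lit 57687) (nat_lit 156) .nil))))))) (.g (nat_lit 1) (.e (nat_lit 150656) (nat_lit 0) .nil) .nil))) 
(.lf (nat_lit 494323) (.g (nat_lit 1503) (.e (nat_lit 163880) (nat_lit 4) (.e (nat_lit 213031) (nat_lit 11) (.e (nat_lit 24657) (nat_lit 13) (.e (nat_lit 393281) (nat_lit 23) (.e (nat_lit 426099) (nat_lit 1) .nil))))) (.g (nat_lit 0) (.e (nat_lit 151578) (nat_lit 0) .nil) .nil)))) (.nd (nat_lit 9) 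
(.lf (nat_lit 494067) (.g (nat_lit 2688) (.e (nat_lit 163875) (nat_lit 3) (.e (nat_lit 204863) (nat_lit 27) (.e (nat_lit 344117) (nat_lit 21) (.e (nat_lit 516129) (nat_lit 3) (.e (nat_lit 221214) (nat_lit 23) (.e (nat_lit 204830) (nat_lit 18) (.e (nat_lit 57928) (nat_lit 282) .nil))))))) (.g (nat_lit 1) (.e (nat_lit 151074) (nat_lit 0) .nil) .nil))) 
(.lf (nat_lit 494579) (.g (nat_lit 3837) (.e (nat_lit 163885) (nat_lit 5) (.e (nat_lit 221194) (nat_lit 11) (.e (nat_lit 336075) (nat_lit 9) (.e (nat_lit 336443) (nat_lit 32) (.e (nat_lit 466972) (nat_lit 21) (.e (nat_lit 164331) (nat_lit 230) .nil)))))) (.g (nat_lit 1) (.e (nat_lit 151974) (nat_lit 0) .nil) .nil))))))))) 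
(.nd (nat_lit 4) (.nd (nat_lit 5) (.nd (nat_lit 6) (.nd (nat_lit 7) (.nd (nat_lit 8) 
(.nd (nat_lit 9) 
(.lf (nat_lit 493579) (.g (nat_lit 3523) (.e (nat_lit 163875) (nat_lit 3) (.e (nat_lit 204830) (nat_lit 18) (.e (nat_lit 57854) (nat_lit 252) (.e (nat_lit 57409) (nat_lit 12) (.e (nat_lit 336019) (nat_lit 3) (.e (nat_lit 98384) (nat_lit 32) (.e (nat_lit 475161) (nat_lit 21) (.e (nat_lit 7280) (nat_lit 386) .nil)))))))) (.g (nat_lit 1) (.e (nat_lit 150421) (nat_lit 0) .nil) .nil))) 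
(.lf (nat_lit 494091) (.g (nat_lit 4322) (.e (nat_lit 163875) (nat_lit 3) (.e (nat_lit 204863) (nat_lit 27) (.e (nat_lit 344117) (nat_lit 21) (.e (nat_lit 516130) (nat_lit 3) (.e (nat_lit 221215) (nat_lit 23) (.e (nat_lit 204829) (nat_lit 18) (.e (nat_lit 57926) (nat_lit 282) .nil))))))) (.g (nat_lit 1) (.e (nat_lit 151098) (nat_lit 0) .nil) .nil)))) (.nd (nat_lit 9) 
(.lf (nat_lit 493835) (.g (nat_lit 2632) (.e (nat_lit 163875) (nat_lit 3) (.e (nat_lit 204838) (nat_lit 20) (.e (nat_lit 114719) (nat_lit 23) (.e (nat_lit 98367) (nat_lit 27) (.e (nat_lit 434234) (nat_lit 23) (.e (nat_lit 532503) (nat_lit 1) (.e (nat_lit 57688) (nat_lit 156) .nil))))))) (.g (nat_lit 1) (.e (nat_lit 150680) (nat_lit 0) .nil) .nil))) 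
(.lf (nat_lit 494347) (.g (nat_lit 2502) (.e (nat_lit 163881) (nat_lit 4) (.e (nat_lit 213030) (nat_lit 11) (.e (nat_lit 24659) (nat_lit 13) (.e (nat_lit 393281) (nat_lit 23) (.e (nat_lit 426098) (nat_lit 1) (.e (nat_lit 164325) (nat_lit 230) .nil)))))) (.g (nat_lit 1) (.e (nat_lit 151625) (nat_lit 0) .nil) .nil))))) (.nd (nat_lit 8) (.nd (nat_lit 9) 
(.lf (nat_lit 493707) (.g (nat_lit 4881) (.e (nat_lit 163875) (nat_lit 3) (.e (nat_lit 204837) (nat_lit 20) (.e (nat_lit 114719) (nat_lit 23) (.e (nat_lit 98367) (nat_lit 27) (.e (nat_lit 434231) (nat_lit 23) (.e (nat_lit 532500) (nat_lit 1) (.e (nat_lit 57690) (nat_lit 156) .nil))))))) (.g (nat_lit 1) (.e (nat_lit 150549) (nat_lit 0) .nil) .nil))) 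
(.lf (nat_lit 494219) (.g (nat_lit 1987) (.e (nat_lit 163877) (nat_lit 4) (.e (nat_lit 213032) (nat_lit 11) (.e (nat_lit 24657) (nat_lit 13) (.e (nat_lit 393281) (nat_lit 23) (.e (nat_lit 426108) (nat_lit 1) .nil))))) (.g (nat_lit 0) (.e (nat_lit 151453) (nat_lit 0) .nil) .nil)))) (.nd (nat_lit 9) 
(.lf (nat_lit 493963) (.g (nat_lit 2963) (.e (nat_lit 163875) (nat_lit 3) (.e (nat_lit 204862) (nat_lit 27) (.e (nat_lit 344117) (nat_lit 21) (.e (nat_lit 516129) (nat_lit 3) (.e (nat_lit 221215) (nat_lit 23) (.e (nat_lit 204830) (nat_lit 18) (.e (nat_lit 57928) (nat_lit 282) .nil))))))) (.g (nat_lit 1) (.e (nat_lit 150970) (nat_lit 0) .nil) .nil))) 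
(.lf (nat_lit 494475) (.g (nat_lit 2302) (.e (nat_lit 163884) (nat_lit 5) (.e (nat_lit 221194) (nat_lit 11) (.e (nat_lit 336074) (nat_lit 9) (.e (nat_lit 336443) (nat_lit 32) (.e (nat_lit 466968) (nat_lit 21) .nil))))) (.g (nat_lit 0) (.e (nat_lit 151830) (nat_lit 0) .nil) .nil)))))) (.nd (nat_lit 7) (.nd (nat_lit 8) (.nd (nat_lit 9) 
(.lf (nat_lit 493643) (.g (nat_lit 3458) (.e (nat_lit 163875) (nat_lit 3) (.e (nat_lit 204837) (nat_lit 20) (.e (nat_lit 114718) (nat_lit 23) (.e (nat_lit 98365) (nat_lit 26) (.e (nat_lit 426139) (nat_lit 3) (.e (nat_lit 204830) (nat_lit 18) (.e (nat_lit 57692) (nat_lit 156) .nil))))))) (.g (nat_lit 1) (.e (nat_lit 150485) (nat_lit 0) .nil) .nil))) 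
(.lf (nat_lit 494155) (.g (nat_lit 3841) (.e (nat_lit 163875) (nat_lit 3) (.e (nat_lit 204872) (nat_lit 30) (.e (nat_lit 368676) (nat_lit 21) (.e (nat_lit 516131) (nat_lit 3) (.e (nat_lit 221215) (nat_lit 23) (.e (nat_lit 204829) (nat_lit 18) (.e (nat_lit 57927) (nat_lit 282) .nil))))))) (.g (nat_lit 1) (.e (nat_lit 151341) (nat_lit 0) .nil) .nil)))) (.nd (nat_lit 9) 
(.lf (nat_lit 493899) (.g (nat_lit 1193) (.e (nat_lit 163875) (nat_lit 3) (.e (nat_lit 204861) (nat_lit 26) (.e (nat_lit 336076) (nat_lit 9) (.e (nat_lit 336456) (nat_lit 34) .nil)))) (.g (nat_lit 0) (.e (nat_lit 150887) (nat_lit 0) .nil) .nil))) 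
(.lf (nat_lit 494411) (.g (nat_lit 1572) (.e (nat_lit 163882) (nat_lit 4) (.e (nat_lit 213032) (nat_lit 11) (.e (nat_lit 24625) (nat_lit 9) (.e (nat_lit 336444) (nat_lit 32) .nil)))) (.g (nat_lit 0) (.e (nat_lit 151751) (nat_lit 0) .nil) .nil))))) (.nd (nat_lit 8) (.nd (nat_lit 9) 
(.lf (nat_lit 493771) (.g (nat_lit 2216) (.e (nat_lit 163875) (nat_lit 3) (.e (nat_lit 204838) (nat_lit 20) (.e (nat_lit 114718) (nat_lit 23) (.e (nat_lit 98366) (nat_lit 27) (.e (nat_lit 434232) (nat_lit 23) (.e (nat_lit 532504) (nat_lit 1) (.e (nat_lit 57692) (nat_lit 156) .nil))))))) (.g (nat_lit 1) (.e (nat_lit 150613) (nat_lit 0) .nil) .nil))) 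
(.lf (nat_lit 494283) (.g (nat_lit 1912) (.e (nat_lit 163879) (nat_lit 4) (.e (nat_lit 213032) (nat_lit 11) (.e (nat_lit 24629) (nat_lit 9) (.e (nat_lit 336430) (nat_lit 29) (.e (nat_lit 442419) (nat_lit 21) .nil))))) (.g (nat_lit 0) (.e (nat_lit 151530) (nat_lit 0) .nil) .nil)))) (.nd (nat_lit 9) 
(.lf (nat_lit 494027) (.g (nat_lit 469) (.e (nat_lit 163875) (nat_lit 3) (.e (nat_lit 204862) (nat_lit 27) (.e (nat_lit 344130) (nat_lit 26) .nil))) (.g (nat_lit 0) (.e (nat_lit 151034) (nat_lit 0) .nil) .nil))) 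
(.lf (nat_lit 494539) (.g (nat_lit 1734) (.e (nat_lit 163885) (nat_lit 5) (.e (nat_lit 221191) (nat_lit 11) (.e (nat_lit 336152) (nat_lit 9) (.e (nat_lit 336442) (nat_lit 32) (.e (nat_lit 466969) (nat_lit 21) (.e (nat_lit 164329) (nat_lit 230) .nil)))))) (.g (nat_lit 1) (.e (nat_lit 151931) (nat_lit 0) .nil) .nil))))))) (.nd (nat_lit 6) (.nd (nat_lit 7) (.nd (nat_lit 8) (.nd (nat_lit 9) 
(.lf (nat_lit 493611) (.g (nat_lit 2897) (.e (nat_lit 163875) (nat_lit 3) (.e (nat_lit 204837) (nat_lit 20) (.e (nat_lit 114715) (nat_lit 22) (.e (nat_lit 90170) (nat_lit 13) (.e (nat_lit 172066) (nat_lit 3) (.e (nat_lit 204829) (nat_lit 18) (.e (nat_lit 57691) (nat_lit 156) .nil))))))) (.g (nat_lit 1) (.e (nat_lit 150453) (nat_lit 0) .nil) .nil))) 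
(.lf (nat_lit 494123) (.g (nat_lit 2666) (.e (nat_lit 163875) (nat_lit 3) (.e (nat_lit 204863) (nat_lit 27) (.e (nat_lit 344131) (nat_lit 26) (.e (nat_lit 557103) (nat_lit 14) (.e (nat_lit 180243) (nat_lit 5) (.e (nat_lit 532499) (nat_lit 1) (.e (nat_lit 65280) (nat_lit 168) .nil))))))) (.g (nat_lit 1) (.e (nat_lit 151130) (nat_lit 0) .nil) .nil)))) (.nd (nat_lit 9) 
(.lf (nat_lit 493867) (.g (nat_lit 3733) (.e (nat_lit 163875) (nat_lit 3) (.e (nat_lit 204852) (nat_lit 26) (.e (nat_lit 336211) (nat_lit 13) (.e (nat_lit 393225) (nat_lit 9) (.e (nat_lit 335988) (nat_lit 1) (.e (nat_lit 57926) (nat_lit 282) .nil)))))) (.g (nat_lit 1) (.e (nat_lit 150731) (nat_lit 0) .nil) .nil))) 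
(.lf (nat_lit 494379) (.g (nat_lit 2471) (.e (nat_lit 163881) (nat_lit 4) (.e (nat_lit 213032) (nat_lit 11) (.e (nat_lit 24660) (nat_lit 13) (.e (nat_lit 393281) (nat_lit 23) (.e (nat_lit 426098) (nat_lit 1) (.e (nat_lit 164327) (nat_lit 230) .nil)))))) (.g (nat_lit 1) (.e (nat_lit 151686) (nat_lit 0) .nil) .nil))))) (.nd (nat_lit 8) (.nd (nat_lit 9) 
(.lf (nat_lit 493739) (.g (nat_lit 4238) (.e (nat_lit 163875) (nat_lit 3) (.e (nat_lit 204838) (nat_lit 20) (.e (nat_lit 114715) (nat_lit 22) (.e (nat_lit 90170) (nat_lit 13) (.e (nat_lit 172065) (nat_lit 3) (.e (nat_lit 204829) (nat_lit 18) (.e (nat_lit 57692) (nat_lit 156) .nil))))))) (.g (nat_lit 1) (.e (nat_lit 150581) (nat_lit 0) .nil) .nil))) 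
(.lf (nat_lit 494251) (.g (nat_lit 2812) (.e (nat_lit 163878) (nat_lit 4) (.e (nat_lit 213032) (nat_lit 11) (.e (nat_lit 24626) (nat_lit 9) (.e (nat_lit 336443) (nat_lit 32) (.e (nat_lit 466969) (nat_lit 21) .nil))))) (.g (nat_lit 0) (.e (nat_lit 151488) (nat_lit 0) .nil) .nil)))) (.nd (nat_lit 9) 
(.lf (nat_lit 493995) (.g (nat_lit 3203) (.e (nat_lit 163875) (nat_lit 3) (.e (nat_lit 204862) (nat_lit 27) (.e (nat_lit 344117) (nat_lit 21) (.e (nat_lit 516130) (nat_lit 3) (.e (nat_lit 221215) (nat_lit 23) (.e (nat_lit 204831) (nat_lit 18) (.e (nat_lit 57924) (nat_lit 282) .nil))))))) (.g (nat_lit 1) (.e (nat_lit 151002) (nat_lit 0) .nil) .nil))) 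
(.lf (nat_lit 494507) (.g (nat_lit 2245) (.e (nat_lit 163884) (nat_lit 5) (.e (nat_lit 221194) (nat_lit 11) (.e (nat_lit 336084) (nat_lit 9) (.e (nat_lit 336443) (nat_lit 32) (.e (nat_lit 466968) (nat_lit 21) .nil))))) (.g (nat_lit 0) (.e (nat_lit 151862) (nat_lit 0) .nil) .nil)))))) (.nd (nat_lit 7) (.nd (nat_lit 8) (.nd (nat_lit 9) 
(.lf (nat_lit 493675) (.g (nat_lit 423) (.e (nat_lit 163875) (nat_lit 3) (.e (nat_lit 204837) (nat_lit 20) (.e (nat_lit 114719) (nat_lit 23) .nil))) (.g (nat_lit 0) (.e (nat_lit 150517) (nat_lit 0) .nil) .nil))) 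
(.lf (nat_lit 494187) (.g (nat_lit 2478) (.e (nat_lit 163876) (nat_lit 4) (.e (nat_lit 213032) (nat_lit 11) (.e (nat_lit 24658) (nat_lit 13) (.e (nat_lit 393281) (nat_lit 23) (.e (nat_lit 426099) (nat_lit 1) .nil))))) (.g (nat_lit 0) (.e (nat_lit 151417) (nat_lit 0) .nil) .nil)))) (.nd (nat_lit 9) 
(.lf (nat_lit 493931) (.g (nat_lit 2381) (.e (nat_lit 163875) (nat_lit 3) (.e (nat_lit 204862) (nat_lit 27) (.e (nat_lit 344117) (nat_lit 21) (.e (nat_lit 516122) (nat_lit 2) (.e (nat_lit 213037) (nat_lit 13) (.e (nat_lit 229433) (nat_lit 25) (.e (nat_lit 532501) (nat_lit 1) (.e (nat_lit 57926) (nat_lit 282) .nil)))))))) (.g (nat_lit 1) (.e (nat_lit 150938) (nat_lit 0) .nil) .nil))) 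
(.lf (nat_lit 494443) (.g (nat_lit 2082) (.e (nat_lit 163884) (nat_lit 5) (.e (nat_lit 221192) (nat_lit 11) (.e (nat_lit 336152) (nat_lit 9) (.e (nat_lit 336442) (nat_lit 32) (.e (nat_lit 466972) (nat_lit 21) (.e (nat_lit 164330) (nat_lit 230) .nil)))))) (.g (nat_lit 1) (.e (nat_lit 151794) (nat_lit 0) .nil) .nil))))) (.nd (nat_lit 8) (.nd (nat_lit 9) 
(.lf (nat_lit 493803) (.g (nat_lit 4517) (.e (nat_lit 163875) (nat_lit 3) (.e (nat_lit 204838) (nat_lit 20) (.e (nat_lit 114719) (nat_lit 23) (.e (nat_lit 98366) (nat_lit 27) (.e (nat_lit 434231) (nat_lit 23) (.e (nat_lit 532500) (nat_lit 1) (.e (nat_lit 57689) (nat_lit 156) .nil))))))) (.g (nat_lit 1) (.e (nat_lit 150648) (nat_lit 0) .nil) .nil))) 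
(.lf (nat_lit 494315) (.g (nat_lit 1241) (.e (nat_lit 163880) (nat_lit 4) (.e (nat_lit 213030) (nat_lit 11) (.e (nat_lit 24657) (nat_lit 13) (.e (nat_lit 393271) (nat_lit 23) .nil)))) (.g (nat_lit 0) (.e (nat_lit 151569) (nat_lit 0) .nil) .nil)))) (.nd (nat_lit 9) 
(.lf (nat_lit 494059) (.g (nat_lit 2705) (.e (nat_lit 163875) (nat_lit 3) (.e (nat_lit 204863) (nat_lit 27) (.e (nat_lit 344117) (nat_lit 21) (.e (nat_lit 516129) (nat_lit 3) (.e (nat_lit 221213) (nat_lit 23) (.e (nat_lit 204830) (nat_lit 18) (.e (nat_lit 57926) (nat_lit 282) .nil))))))) (.g (nat_lit 1) (.e (nat_lit 151066) (nat_lit 0) .nil) .nil))) 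
(.lf (nat_lit 494571) (.g (nat_lit 3480) (.e (nat_lit 163885) (nat_lit 5) (.e (nat_lit 221194) (nat_lit 11) (.e (nat_lit 336075) (nat_lit 9) (.e (nat_lit 336443) (nat_lit 32) (.e (nat_lit 466969) (nat_lit 21) (.e (nat_lit 164330) (nat_lit 230) .nil)))))) (.g (nat_lit 1) (.e (nat_lit 151966) (nat_lit 0) .nil) .nil)))))))) 
(.nd (nat_lit 5) (.nd (nat_lit 6) (.nd (nat_lit 7) (.nd (nat_lit 8) (.nd (nat_lit 9) 
(.lf (nat_lit 493595) (.g (nat_lit 2488) (.e (nat_lit 163875) (nat_lit 3) (.e (nat_lit 204836) (nat_lit 20) (.e (nat_lit 114719) (nat_lit 23) (.e (nat_lit 98367) (nat_lit 27) (.e (nat_lit 434232) (nat_lit 23) (.e (nat_lit 532499) (nat_lit 1) (.e (nat_lit 57692) (nat_lit 156) .nil))))))) (.g (nat_lit 1) (.e (nat_lit 150437) (nat_lit 0) .nil) .nil))) 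
(.lf (nat_lit 494107) (.g (nat_lit 2981) (.e (nat_lit 163875) (nat_lit 3) (.e (nat_lit 204863) (nat_lit 27) (.e (nat_lit 344129) (nat_lit 26) (.e (nat_lit 557103) (nat_lit 14) (.e (nat_lit 180243) (nat_lit 5) (.e (nat_lit 532501) (nat_lit 1) (.e (nat_lit 65280) (nat_lit 168) .nil))))))) (.g (nat_lit 1) (.e (nat_lit 151114) (nat_lit 0) .nil) .nil)))) (.nd (nat_lit 9) 
(.lf (nat_lit 493851) (.g (nat_lit 2618) (.e (nat_lit 163875) (nat_lit 3) (.e (nat_lit 204850) (nat_lit 26) (.e (nat_lit 336028) (nat_lit 3) (.e (nat_lit 98342) (nat_lit 20) (.e (nat_lit 221215) (nat_lit 23) (.e (nat_lit 204829) (nat_lit 18) (.e (nat_lit 57927) (nat_lit 282) .nil))))))) (.g (nat_lit 1) (.e (nat_lit 150698) (nat_lit 0) .nil) .nil))) 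
(.lf (nat_lit 494363) (.g (nat_lit 2630) (.e (nat_lit 163881) (nat_lit 4) (.e (nat_lit 213032) (nat_lit 11) (.e (nat_lit 24629) (nat_lit 9) (.e (nat_lit 336426) (nat_lit 29) (.e (nat_lit 442421) (nat_lit 21) (.e (nat_lit 164326) (nat_lit 230) .nil)))))) (.g (nat_lit 1) (.e (nat_lit 151663) (nat_lit 0) .nil) .nil))))) (.nd (nat_lit 8) (.nd (nat_lit 9) 
(.lf (nat_lit 493723) (.g (nat_lit 2203) (.e (nat_lit 163875) (nat_lit 3) (.e (nat_lit 204837) (nat_lit 20) (.e (nat_lit 114719) (nat_lit 23) (.e (nat_lit 98367) (nat_lit 27) (.e (nat_lit 434234) (nat_lit 23) .nil))))) (.g (nat_lit 0) (.e (nat_lit 150565) (nat_lit 0) .nil) .nil))) 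
(.lf (nat_lit 494235) (.g (nat_lit 1539) (.e (nat_lit 163878) (nat_lit 4) (.e (nat_lit 213030) (nat_lit 11) (.e (nat_lit 24658) (nat_lit 13) (.e (nat_lit 393281) (nat_lit 23) (.e (nat_lit 426099) (nat_lit 1) .nil))))) (.g (nat_lit 0) (.e (nat_lit 151471) (nat_lit 0) .nil) .nil)))) (.nd (nat_lit 9) 
(.lf (nat_lit 493979) (.g (nat_lit 4401) (.e (nat_lit 163875) (nat_lit 3) (.e (nat_lit 204862) (nat_lit 27) (.e (nat_lit 344117) (nat_lit 21) (.e (nat_lit 516130) (nat_lit 3) (.e (nat_lit 221214) (nat_lit 23) (.e (nat_lit 204830) (nat_lit 18) (.e (nat_lit 57924) (nat_lit 282) .nil))))))) (.g (nat_lit 1) (.e (nat_lit 150986) (nat_lit 0) .nil) .nil))) 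
(.lf (nat_lit 494491) (.g (nat_lit 3483) (.e (nat_lit 163884) (nat_lit 5) (.e (nat_lit 221194) (nat_lit 11) (.e (nat_lit 336075) (nat_lit 9) (.e (nat_lit 336443) (nat_lit 32) (.e (nat_lit 466971) (nat_lit 21) (.e (nat_lit 164332) (nat_lit 230) .nil)))))) (.g (nat_lit 1) (.e (nat_lit 151846) (nat_lit 0) .nil) .nil)))))) (.nd (nat_lit 7) (.nd (nat_lit 8) (.nd (nat_lit 9) 
(.lf (nat_lit 493659) (.g (nat_lit 2625) (.e (nat_lit 163875) (nat_lit 3) (.e (nat_lit 204837) (nat_lit 20) (.e (nat_lit 114718) (nat_lit 23) (.e (nat_lit 98367) (nat_lit 27) (.e (nat_lit 434232) (nat_lit 23) (.e (nat_lit 532501) (nat_lit 1) (.e (nat_lit 57692) (nat_lit 156) .nil))))))) (.g (nat_lit 1) (.e (nat_lit 150501) (nat_lit 0) .nil) .nil))) 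
(.lf (nat_lit 494171) (.g (nat_lit 2630) (.e (nat_lit 163875) (nat_lit 3) (.e (nat_lit 204877) (nat_lit 31) (.e (nat_lit 376842) (nat_lit 11) (.e (nat_lit 426497) (nat_lit 27) (.e (nat_lit 335986) (nat_lit 1) (.e (nat_lit 57927) (nat_lit 282) .nil)))))) (.g (nat_lit 1) (.e (nat_lit 151368) (nat_lit 0) .nil) .nil)))) (.nd (nat_lit 9) 
(.lf (nat_lit 493915) (.g (nat_lit 1003) (.e (nat_lit 163875) (nat_lit 3) (.e (nat_lit 204861) (nat_lit 26) (.e (nat_lit 336215) (nat_lit 13) (.e (nat_lit 393229) (nat_lit 9) .nil)))) (.g (nat_lit 0) (.e (nat_lit 150919) (nat_lit 0) .nil) .nil))) 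
(.lf (nat_lit 494427) (.g (nat_lit 1830) (.e (nat_lit 163883) (nat_lit 5) (.e (nat_lit 221194) (nat_lit 11) (.e (nat_lit 336088) (nat_lit 9) (.e (nat_lit 336443) (nat_lit 32) .nil)))) (.g (nat_lit 0) (.e (nat_lit 151778) (nat_lit 0) .nil) .nil))))) (.nd (nat_lit 8) (.nd (nat_lit 9) 
(.lf (nat_lit 493787) (.g (nat_lit 3983) (.e (nat_lit 163875) (nat_lit 3) (.e (nat_lit 204838) (nat_lit 20) (.e (nat_lit 114718) (nat_lit 23) (.e (nat_lit 98384) (nat_lit 32) (.e (nat_lit 475179) (nat_lit 24) (.e (nat_lit 516119) (nat_lit 1) (.e (nat_lit 164325) (nat_lit 230) .nil))))))) (.g (nat_lit 1) (.e (nat_lit 150629) (nat_lit 0) .nil) .nil))) 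
(.lf (nat_lit 494299) (.g (nat_lit 1724) (.e (nat_lit 163879) (nat_lit 4) (.e (nat_lit 213032) (nat_lit 11) (.e (nat_lit 24660) (nat_lit 13) (.e (nat_lit 393281) (nat_lit 23) (.e (nat_lit 426098) (nat_lit 1) .nil))))) (.g (nat_lit 0) (.e (nat_lit 151552) (nat_lit 0) .nil) .nil)))) (.nd (nat_lit 9) 
(.lf (nat_lit 494043) (.g (nat_lit 3292) (.e (nat_lit 163875) (nat_lit 3) (.e (nat_lit 204862) (nat_lit 27) (.e (nat_lit 344133) (nat_lit 26) (.e (nat_lit 557103) (nat_lit 14) (.e (nat_lit 180244) (nat_lit 5) (.e (nat_lit 532503) (nat_lit 1) (.e (nat_lit 65280) (nat_lit 168) .nil))))))) (.g (nat_lit 1) (.e (nat_lit 151050) (nat_lit 0) .nil) .nil))) 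
(.lf (nat_lit 494555) (.g (nat_lit 2580) (.e (nat_lit 163885) (nat_lit 5) (.e (nat_lit 221193) (nat_lit 11) (.e (nat_lit 336077) (nat_lit 9) (.e (nat_lit 336443) (nat_lit 32) (.e (nat_lit 466969) (nat_lit 21) (.e (nat_lit 164329) (nat_lit 230) .nil)))))) (.g (nat_lit 1) (.e (nat_lit 151947) (nat_lit 0) .nil) .nil))))))) (.nd (nat_lit 6) (.nd (nat_lit 7) (.nd (nat_lit 8) (.nd (nat_lit 9) 
(.lf (nat_lit 493627) (.g (nat_lit 2317) (.e (nat_lit 163875) (nat_lit 3) (.e (nat_lit 204837) (nat_lit 20) (.e (nat_lit 114716) (nat_lit 22) (.e (nat_lit 90185) (nat_lit 17) (.e (nat_lit 237592) (nat_lit 3) (.e (nat_lit 204830) (nat_lit 18) (.e (nat_lit 57689) (nat_lit 156) .nil))))))) (.g (nat_lit 1) (.e (nat_lit 150469) (nat_lit 0) .nil) .nil))) 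
(.lf (nat_lit 494139) (.g (nat_lit 3014) (.e (nat_lit 163875) (nat_lit 3) (.e (nat_lit 204864) (nat_lit 27) (.e (nat_lit 344133) (nat_lit 26) (.e (nat_lit 557103) (nat_lit 14) (.e (nat_lit 180244) (nat_lit 5) (.e (nat_lit 532499) (nat_lit 1) (.e (nat_lit 65280) (nat_lit 168) .nil))))))) (.g (nat_lit 1) (.e (nat_lit 151146) (nat_lit 0) .nil) .nil)))) (.nd (nat_lit 9) 
(.lf (nat_lit 493883) (.g (nat_lit 1994) (.e (nat_lit 163875) (nat_lit 3) (.e (nat_lit 204861) (nat_lit 26) (.e (nat_lit 336075) (nat_lit 9) (.e (nat_lit 336454) (nat_lit 34) (.e (nat_lit 491264) (nat_lit 18) (.e (nat_lit 57927) (nat_lit 282) .nil)))))) (.g (nat_lit 1) (.e (nat_lit 150839) (nat_lit 0) .nil) .nil))) 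
(.lf (nat_lit 494395) (.g (nat_lit 2862) (.e (nat_lit 163882) (nat_lit 4) (.e (nat_lit 213030) (nat_lit 11) (.e (nat_lit 24630) (nat_lit 9) (.e (nat_lit 336443) (nat_lit 32) (.e (nat_lit 466971) (nat_lit 21) (.e (nat_lit 164326) (nat_lit 230) .nil)))))) (.g (nat_lit 1) (.e (nat_lit 151711) (nat_lit 0) .nil) .nil))))) (.nd (nat_lit 8) (.nd (nat_lit 9) 
(.lf (nat_lit 493755) (.g (nat_lit 2766) (.e (nat_lit 163875) (nat_lit 3) (.e (nat_lit 204838) (nat_lit 20) (.e (nat_lit 114715) (nat_lit 22) (.e (nat_lit 90174) (nat_lit 14) (.e (nat_lit 180243) (nat_lit 5) (.e (nat_lit 532504) (nat_lit 1) (.e (nat_lit 57692) (nat_lit 156) .nil))))))) (.g (nat_lit 1) (.e (nat_lit 150597) (nat_lit 0) .nil) .nil))) 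
(.lf (nat_lit 494267) (.g (nat_lit 2747) (.e (nat_lit 163879) (nat_lit 4) (.e (nat_lit 213030) (nat_lit 11) (.e (nat_lit 24628) (nat_lit 9) (.e (nat_lit 336443) (nat_lit 32) (.e (nat_lit 466971) (nat_lit 21) (.e (nat_lit 164325) (nat_lit 230) .nil)))))) (.g (nat_lit 1) (.e (nat_lit 151506) (nat_lit 0) .nil) .nil)))) (.nd (nat_lit 9) 
(.lf (nat_lit 494011) (.g (nat_lit 2836) (.e (nat_lit 163875) (nat_lit 3) (.e (nat_lit 204862) (nat_lit 27) (.e (nat_lit 344129) (nat_lit 26) (.e (nat_lit 557097) (nat_lit 13) (.e (nat_lit 179968) (nat_lit 18) (.e (nat_lit 98343) (nat_lit 21) (.e (nat_lit 229677) (nat_lit 244) .nil))))))) (.g (nat_lit 1) (.e (nat_lit 151018) (nat_lit 0) .nil) .nil))) 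
(.lf (nat_lit 494523) (.g (nat_lit 2610) (.e (nat_lit 163884) (nat_lit 5) (.e (nat_lit 221194) (nat_lit 11) (.e (nat_lit 336221) (nat_lit 13) (.e (nat_lit 393281) (nat_lit 23) (.e (nat_lit 426099) (nat_lit 1) (.e (nat_lit 164332) (nat_lit 230) .nil)))))) (.g (nat_lit 1) (.e (nat_lit 151879) (nat_lit 0) .nil) .nil)))))) (.nd (nat_lit 7) (.nd (nat_lit 8) (.nd (nat_lit 9) 
(.lf (nat_lit 493691) (.g (nat_lit 2756) (.e (nat_lit 163875) (nat_lit 3) (.e (nat_lit 204837) (nat_lit 20) (.e (nat_lit 114719) (nat_lit 23) (.e (nat_lit 98366) (nat_lit 27) (.e (nat_lit 434231) (nat_lit 23) (.e (nat_lit 532502) (nat_lit 1) (.e (nat_lit 57686) (nat_lit 156) .nil))))))) (.g (nat_lit 1) (.e (nat_lit 150533) (nat_lit 0) .nil) .nil))) 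
(.lf (nat_lit 494203) (.g (nat_lit 2245) (.e (nat_lit 163877) (nat_lit 4) (.e (nat_lit 213032) (nat_lit 11) (.e (nat_lit 24627) (nat_lit 9) (.e (nat_lit 336443) (nat_lit 32) (.e (nat_lit 466969) (nat_lit 21) .nil))))) (.g (nat_lit 0) (.e (nat_lit 151435) (nat_lit 0) .nil) .nil)))) (.nd (nat_lit 9) 
(.lf (nat_lit 493947) (.g (nat_lit 973) (.e (nat_lit 163875) (nat_lit 3) (.e (nat_lit 204862) (nat_lit 27) (.e (nat_lit 344117) (nat_lit 21) (.e (nat_lit 516129) (nat_lit 3) .nil)))) (.g (nat_lit 0) (.e (nat_lit 150954) (nat_lit 0) .nil) .nil))) 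
(.lf (nat_lit 494459) (.g (nat_lit 2206) (.e (nat_lit 163884) (nat_lit 5) (.e (nat_lit 221193) (nat_lit 11) (.e (nat_lit 336077) (nat_lit 9) (.e (nat_lit 336443) (nat_lit 32) (.e (nat_lit 466969) (nat_lit 21) (.e (nat_lit 164330) (nat_lit 230) .nil)))))) (.g (nat_lit 1) (.e (nat_lit 151810) (nat_lit 0) .nil) .nil))))) (.nd (nat_lit 8) (.nd (nat_lit 9) 
(.lf (nat_lit 493819) (.g (nat_lit 1956) (.e (nat_lit 163875) (nat_lit 3) (.e (nat_lit 204838) (nat_lit 20) (.e (nat_lit 114719) (nat_lit 23) (.e (nat_lit 98367) (nat_lit 27) (.e (nat_lit 434232) (nat_lit 23) .nil))))) (.g (nat_lit 0) (.e (nat_lit 150664) (nat_lit 0) .nil) .nil))) 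
(.lf (nat_lit 494331) (.g (nat_lit 3019) (.e (nat_lit 163880) (nat_lit 4) (.e (nat_lit 213032) (nat_lit 11) (.e (nat_lit 24658) (nat_lit 13) (.e (nat_lit 393281) (nat_lit 23) (.e (nat_lit 426100) (nat_lit 1) (.e (nat_lit 164330) (nat_lit 230) .nil)))))) (.g (nat_lit 1) (.e (nat_lit 151604) (nat_lit 0) .nil) .nil)))) (.nd (nat_lit 9) 
(.lf (nat_lit 494075) (.g (nat_lit 1903) (.e (nat_lit 163875) (nat_lit 3) (.e (nat_lit 204863) (nat_lit 27) (.e (nat_lit 344117) (nat_lit 21) (.e (nat_lit 516130) (nat_lit 3) (.e (nat_lit 221212) (nat_lit 22) .nil))))) (.g (nat_lit 0) (.e (nat_lit 151082) (nat_lit 0) .nil) .nil))) 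
(.lf (nat_lit 494587) (.g (nat_lit 2905) (.e (nat_lit 163885) (nat_lit 5) (.e (nat_lit 221194) (nat_lit 11) (.e (nat_lit 336084) (nat_lit 9) (.e (nat_lit 336443) (nat_lit 32) (.e (nat_lit 466969) (nat_lit 21) (.e (nat_lit 164329) (nat_lit 230) .nil)))))) (.g (nat_lit 1) (.e (nat_lit 151982) (nat_lit 0) .nil) .nil)))))))))) 
(.nd (nat_lit 3) (.nd (nat_lit 4) (.nd (nat_lit 5) (.nd (nat_lit 6) (.nd (nat_lit 7) 
(.nd (nat_lit 8) (.nd (nat_lit 9) 
(.lf (nat_lit 493575) (.g (nat_lit 3588) (.e (nat_lit 163875) (nat_lit 3) (.e (nat_lit 204830) (nat_lit 18) (.e (nat_lit 57852) (nat_lit 252) (.e (nat_lit 57431) (nat_lit 16) (.e (nat_lit 368676) (nat_lit 21) (.e (nat_lit 516179) (nat_lit 15) (.e (nat_lit 475161) (nat_lit 21) (.e (nat_lit 7280) (nat_lit 386) .nil)))))))) (.g (nat_lit 1) (.e (nat_lit 150417) (nat_lit 0) .nil) .nil))) 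
(.lf (nat_lit 494087) (.g (nat_lit 3361) (.e (nat_lit 163875) (nat_lit 3) (.e (nat_lit 204863) (nat_lit 27) (.e (nat_lit 344117) (nat_lit 21) (.e (nat_lit 516130) (nat_lit 3) (.e (nat_lit 221215) (nat_lit 23) (.e (nat_lit 204828) (nat_lit 18) (.e (nat_lit 57926) (nat_lit 282) .nil))))))) (.g (nat_lit 1) (.e (nat_lit 151094) (nat_lit 0) .nil) .nil)))) (.nd (nat_lit 9) 
(.lf (nat_lit 493831) (.g (nat_lit 2601) (.e (nat_lit 163875) (nat_lit 3) (.e (nat_lit 204838) (nat_lit 20) (.e (nat_lit 114719) (nat_lit 23) (.e (nat_lit 98367) (nat_lit 27) (.e (nat_lit 434234) (nat_lit 23) (.e (nat_lit 532499) (nat_lit 1) (.e (nat_lit 57686) (nat_lit 156) .nil))))))) (.g (nat_lit 1) (.e (nat_lit 150676) (nat_lit 0) .nil) .nil))) 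
(.lf (nat_lit 494343) (.g (nat_lit 2051) (.e (nat_lit 163881) (nat_lit 4) (.e (nat_lit 213030) (nat_lit 11) (.e (nat_lit 24629) (nat_lit 9) (.e (nat_lit 336434) (nat_lit 30) (.e (nat_lit 450564) (nat_lit 0) (.e (nat_lit 5224) (nat_lit 296) .nil)))))) (.g (nat_lit 1) (.e (nat_lit 151619) (nat_lit 0) .nil) .nil))))) (.nd (nat_lit 8) (.nd (nat_lit 9) 
(.lf (nat_lit 493703) (.g (nat_lit 5280) (.e (nat_lit 163875) (nat_lit 3) (.e (nat_lit 204837) (nat_lit 20) (.e (nat_lit 114719) (nat_lit 23) (.e (nat_lit 98367) (nat_lit 27) (.e (nat_lit 434231) (nat_lit 23) (.e (nat_lit 532499) (nat_lit 1) (.e (nat_lit 57688) (nat_lit 156) .nil))))))) (.g (nat_lit 1) (.e (nat_lit 150545) (nat_lit 0) .nil) .nil))) 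
(.lf (nat_lit 494215) (.g (nat_lit 1967) (.e (nat_lit 163877) (nat_lit 4) (.e (nat_lit 213032) (nat_lit 11) (.e (nat_lit 24655) (nat_lit 13) (.e (nat_lit 393289) (nat_lit 25) .nil)))) (.g (nat_lit 0) (.e (nat_lit 151449) (nat_lit 0) .nil) .nil)))) (.nd (nat_lit 9) 
(.lf (nat_lit 493959) (.g (nat_lit 3493) (.e (nat_lit 163875) (nat_lit 3) (.e (nat_lit 204862) (nat_lit 27) (.e (nat_lit 344117) (nat_lit 21) (.e (nat_lit 516129) (nat_lit 3) (.e (nat_lit 221215) (nat_lit 23) (.e (nat_lit 204829) (nat_lit 18) (.e (nat_lit 57927) (nat_lit 282) .nil))))))) (.g (nat_lit 1) (.e (nat_lit 150966) (nat_lit 0) .nil) .nil))) 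
(.lf (nat_lit 494471) (.g (nat_lit 1591) (.e (nat_lit 163884) (nat_lit 5) (.e (nat_lit 221193) (nat_lit 11) (.e (nat_lit 336086) (nat_lit 9) (.e (nat_lit 336444) (nat_lit 32) (.e (nat_lit 466971) (nat_lit 21) (.e (nat_lit 164326) (nat_lit 230) .nil)))))) (.g (nat_lit 1) (.e (nat_lit 151822) (nat_lit 0) .nil) .nil)))))) (.nd (nat_lit 7) (.nd (nat_lit 8) (.nd (nat_lit 9) 
(.lf (nat_lit 493639) (.g (nat_lit 2566) (.e (nat_lit 163875) (nat_lit 3) (.e (nat_lit 204837) (nat_lit 20) (.e (nat_lit 114718) (nat_lit 23) (.e (nat_lit 98365) (nat_lit 26) (.e (nat_lit 426138) (nat_lit 3) (.e (nat_lit 204831) (nat_lit 18) (.e (nat_lit 57688) (nat_lit 156) .nil))))))) (.g (nat_lit 1) (.e (nat_lit 150481) (nat_lit 0) .nil) .nil))) 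
(.lf (nat_lit 494151) (.g (nat_lit 2940) (.e (nat_lit 163875) (nat_lit 3) (.e (nat_lit 204866) (nat_lit 28) (.e (nat_lit 352277) (nat_lit 11) (.e (nat_lit 426500) (nat_lit 27) (.e (nat_lit 335988) (nat_lit 1) (.e (nat_lit 57927) (nat_lit 282) .nil)))))) (.g (nat_lit 1) (.e (nat_lit 151164) (nat_lit 0) .nil) .nil)))) (.nd (nat_lit 9) 
(.lf (nat_lit 493895) (.g (nat_lit 1042) (.e (nat_lit 163875) (nat_lit 3) (.e (nat_lit 204861) (nat_lit 26) (.e (nat_lit 336076) (nat_lit 9) (.e (nat_lit 336454) (nat_lit 34) .nil)))) (.g (nat_lit 0) (.e (nat_lit 150861) (nat_lit 0) .nil) .nil))) 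
(.lf (nat_lit 494407) (.g (nat_lit 1668) (.e (nat_lit 163882) (nat_lit 4) (.e (nat_lit 213031) (nat_lit 11) (.e (nat_lit 24655) (nat_lit 13) (.e (nat_lit 393273) (nat_lit 23) (.e (nat_lit 426112) (nat_lit 1) .nil))))) (.g (nat_lit 0) (.e (nat_lit 151725) (nat_lit 0) .nil) .nil))))) (.nd (nat_lit 8) (.nd (nat_lit 9) 
(.lf (nat_lit 493767) (.g (nat_lit 3103) (.e (nat_lit 163875) (nat_lit 3) (.e (nat_lit 204838) (nat_lit 20) (.e (nat_lit 114718) (nat_lit 23) (.e (nat_lit 98366) (nat_lit 27) (.e (nat_lit 434231) (nat_lit 23) (.e (nat_lit 532499) (nat_lit 1) (.e (nat_lit 57686) (nat_lit 156) .nil))))))) (.g (nat_lit 1) (.e (nat_lit 150609) (nat_lit 0) .nil) .nil))) 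
(.lf (nat_lit 494279) (.g (nat_lit 2408) (.e (nat_lit 163879) (nat_lit 4) (.e (nat_lit 213032) (nat_lit 11) (.e (nat_lit 24625) (nat_lit 9) (.e (nat_lit 336432) (nat_lit 30) (.e (nat_lit 450565) (nat_lit 0) .nil))))) (.g (nat_lit 0) (.e (nat_lit 151526) (nat_lit 0) .nil) .nil)))) (.nd (nat_lit 9) 
(.lf (nat_lit 494023) (.g (nat_lit 4203) (.e (nat_lit 163875) (nat_lit 3) (.e (nat_lit 204862) (nat_lit 27) (.e (nat_lit 344129) (nat_lit 26) (.e (nat_lit 557104) (nat_lit 14) (.e (nat_lit 180244) (nat_lit 5) (.e (nat_lit 532499) (nat_lit 1) (.e (nat_lit 65280) (nat_lit 168) .nil))))))) (.g (nat_lit 1) (.e (nat_lit 151030) (nat_lit 0) .nil) .nil))) 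
(.lf (nat_lit 494535) (.g (nat_lit 2216) (.e (nat_lit 163885) (nat_lit 5) (.e (nat_lit 221190) (nat_lit 11) (.e (nat_lit 336076) (nat_lit 9) (.e (nat_lit 336443) (nat_lit 32) (.e (nat_lit 466971) (nat_lit 21) (.e (nat_lit 164332) (nat_lit 230) .nil)))))) (.g (nat_lit 1) (.e (nat_lit 151927) (nat_lit 0) .nil) .nil))))))) (.nd (nat_lit 6) (.nd (nat_lit 7) (.nd (nat_lit 8) (.nd (nat_lit 9) 
(.lf (nat_lit 493607) (.g (nat_lit 4536) (.e (nat_lit 163875) (nat_lit 3) (.e (nat_lit 204837) (nat_lit 20) (.e (nat_lit 114715) (nat_lit 22) (.e (nat_lit 90170) (nat_lit 13) (.e (nat_lit 172065) (nat_lit 3) (.e (nat_lit 204830) (nat_lit 18) (.e (nat_lit 57690) (nat_lit 156) .nil))))))) (.g (nat_lit 1) (.e (nat_lit 150449) (nat_lit 0) .nil) .nil))) 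
(.lf (nat_lit 494119) (.g (nat_lit 2569) (.e (nat_lit 163875) (nat_lit 3) (.e (nat_lit 204863) (nat_lit 27) (.e (nat_lit 344130) (nat_lit 26) (.e (nat_lit 557103) (nat_lit 14) (.e (nat_lit 180244) (nat_lit 5) (.e (nat_lit 532499) (nat_lit 1) (.e (nat_lit 65280) (nat_lit 168) .nil))))))) (.g (nat_lit 1) (.e (nat_lit 151126) (nat_lit 0) .nil) .nil)))) (.nd (nat_lit 9) 
(.lf (nat_lit 493863) (.g (nat_lit 2473) (.e (nat_lit 163875) (nat_lit 3) (.e (nat_lit 204851) (nat_lit 26) (.e (nat_lit 336019) (nat_lit 3) (.e (nat_lit 98342) (nat_lit 20) (.e (nat_lit 221215) (nat_lit 23) (.e (nat_lit 204830) (nat_lit 18) (.e (nat_lit 57927) (nat_lit 282) .nil))))))) (.g (nat_lit 1) (.e (nat_lit 150710) (nat_lit 0) .nil) .nil))) 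
(.lf (nat_lit 494375) (.g (nat_lit 2284) (.e (nat_lit 163881) (nat_lit 4) (.e (nat_lit 213032) (nat_lit 11) (.e (nat_lit 24659) (nat_lit 13) (.e (nat_lit 393283) (nat_lit 24) (.e (nat_lit 434209) (nat_lit 18) (.e (nat_lit 5223) (nat_lit 296) .nil)))))) (.g (nat_lit 1) (.e (nat_lit 151682) (nat_lit 0) .nil) .nil))))) (.nd (nat_lit 8) (.nd (nat_lit 9) 
(.lf (nat_lit 493735) (.g (nat_lit 2547) (.e (nat_lit 163875) (nat_lit 3) (.e (nat_lit 204838) (nat_lit 20) (.e (nat_lit 114714) (nat_lit 22) (.e (nat_lit 90169) (nat_lit 13) (.e (nat_lit 179968) (nat_lit 18) (.e (nat_lit 98333) (nat_lit 18) (.e (nat_lit 164327) (nat_lit 230) .nil))))))) (.g (nat_lit 1) (.e (nat_lit 150577) (nat_lit 0) .nil) .nil))) 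
(.lf (nat_lit 494247) (.g (nat_lit 2720) (.e (nat_lit 163878) (nat_lit 4) (.e (nat_lit 213032) (nat_lit 11) (.e (nat_lit 24624) (nat_lit 9) (.e (nat_lit 336443) (nat_lit 32) (.e (nat_lit 466971) (nat_lit 21) .nil))))) (.g (nat_lit 0) (.e (nat_lit 151484) (nat_lit 0) .nil) .nil)))) (.nd (nat_lit 9) 
(.lf (nat_lit 493991) (.g (nat_lit 4692) (.e (nat_lit 163875) (nat_lit 3) (.e (nat_lit 204862) (nat_lit 27) (.e (nat_lit 344117) (nat_lit 21) (.e (nat_lit 516130) (nat_lit 3) (.e (nat_lit 221215) (nat_lit 23) (.e (nat_lit 204830) (nat_lit 18) (.e (nat_lit 57925) (nat_lit 282) .nil))))))) (.g (nat_lit 1) (.e (nat_lit 150998) (nat_lit 0) .nil) .nil))) 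
(.lf (nat_lit 494503) (.g (nat_lit 2885) (.e (nat_lit 163884) (nat_lit 5) (.e (nat_lit 221194) (nat_lit 11) (.e (nat_lit 336077) (nat_lit 9) (.e (nat_lit 336443) (nat_lit 32) (.e (nat_lit 466971) (nat_lit 21) (.e (nat_lit 164326) (nat_lit 230) .nil)))))) (.g (nat_lit 1) (.e (nat_lit 151858) (nat_lit 0) .nil) .nil)))))) (.nd (nat_lit 7) (.nd (nat_lit 8) (.nd (nat_lit 9) 
(.lf (nat_lit 493671) (.g (nat_lit 5055) (.e (nat_lit 163875) (nat_lit 3) (.e (nat_lit 204837) (nat_lit 20) (.e (nat_lit 114718) (nat_lit 23) (.e (nat_lit 98384) (nat_lit 32) (.e (nat_lit 475177) (nat_lit 24) (.e (nat_lit 516115) (nat_lit 1) (.e (nat_lit 164327) (nat_lit 230) .nil))))))) (.g (nat_lit 1) (.e (nat_lit 150513) (nat_lit 0) .nil) .nil))) 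
(.lf (nat_lit 494183) (.g (nat_lit 1900) (.e (nat_lit 163876) (nat_lit 4) (.e (nat_lit 213032) (nat_lit 11) (.e (nat_lit 24625) (nat_lit 9) (.e (nat_lit 336443) (nat_lit 32) .nil)))) (.g (nat_lit 0) (.e (nat_lit 151413) (nat_lit 0) .nil) .nil)))) (.nd (nat_lit 9) 
(.lf (nat_lit 493927) (.g (nat_lit 2557) (.e (nat_lit 163875) (nat_lit 3) (.e (nat_lit 204862) (nat_lit 27) (.e (nat_lit 344117) (nat_lit 21) (.e (nat_lit 516122) (nat_lit 2) (.e (nat_lit 213035) (nat_lit 12) (.e (nat_lit 163965) (nat_lit 25) (.e (nat_lit 532499) (nat_lit 1) (.e (nat_lit 57926) (nat_lit 282) .nil)))))))) (.g (nat_lit 1) (.e (nat_lit 150934) (nat_lit 0) .nil) .nil))) 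
(.lf (nat_lit 494439) (.g (nat_lit 1962) (.e (nat_lit 163884) (nat_lit 5) (.e (nat_lit 221192) (nat_lit 11) (.e (nat_lit 336152) (nat_lit 9) (.e (nat_lit 336442) (nat_lit 32) (.e (nat_lit 466969) (nat_lit 21) (.e (nat_lit 164324) (nat_lit 230) .nil)))))) (.g (nat_lit 1) (.e (nat_lit 151790) (nat_lit 0) .nil) .nil))))) (.nd (nat_lit 8) (.nd (nat_lit 9) 
(.lf (nat_lit 493799) (.g (nat_lit 4116) (.e (nat_lit 163875) (nat_lit 3) (.e (nat_lit 204838) (nat_lit 20) (.e (nat_lit 114719) (nat_lit 23) (.e (nat_lit 98366) (nat_lit 27) (.e (nat_lit 434231) (nat_lit 23) (.e (nat_lit 532499) (nat_lit 1) (.e (nat_lit 57686) (nat_lit 156) .nil))))))) (.g (nat_lit 1) (.e (nat_lit 150644) (nat_lit 0) .nil) .nil))) 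
(.lf (nat_lit 494311) (.g (nat_lit 1869) (.e (nat_lit 163880) (nat_lit 4) (.e (nat_lit 213030) (nat_lit 11) (.e (nat_lit 24654) (nat_lit 13) (.e (nat_lit 393281) (nat_lit 23) (.e (nat_lit 426099) (nat_lit 1) .nil))))) (.g (nat_lit 0) (.e (nat_lit 151565) (nat_lit 0) .nil) .nil)))) (.nd (nat_lit 9) 
(.lf (nat_lit 494055) (.g (nat_lit 2554) (.e (nat_lit 163875) (nat_lit 3) (.e (nat_lit 204863) (nat_lit 27) (.e (nat_lit 344117) (nat_lit 21) (.e (nat_lit 516123) (nat_lit 2) (.e (nat_lit 213036) (nat_lit 13) (.e (nat_lit 229433) (nat_lit 25) (.e (nat_lit 532499) (nat_lit 1) (.e (nat_lit 57927) (nat_lit 282) .nil)))))))) (.g (nat_lit 1) (.e (nat_lit 151062) (nat_lit 0) .nil) .nil))) 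
(.lf (nat_lit 494567) (.g (nat_lit 3138) (.e (nat_lit 163885) (nat_lit 5) (.e (nat_lit 221194) (nat_lit 11) (.e (nat_lit 336074) (nat_lit 9) (.e (nat_lit 336443) (nat_lit 32) (.e (nat_lit 466972) (nat_lit 21) (.e (nat_lit 164329) (nat_lit 230) .nil)))))) (.g (nat_lit 1) (.e (nat_lit 151962) (nat_lit 0) .nil) .nil)))))))) 
(.nd (nat_lit 5) (.nd (nat_lit 6) (.nd (nat_lit 7) (.nd (nat_lit 8) (.nd (nat_lit 9) 
(.lf (nat_lit 493591) (.g (nat_lit 4225) (.e (nat_lit 163875) (nat_lit 3) (.e (nat_lit 204836) (nat_lit 20) (.e (nat_lit 114719) (nat_lit 23) (.e (nat_lit 98366) (nat_lit 27) (.e (nat_lit 434231) (nat_lit 23) (.e (nat_lit 532500) (nat_lit 1) (.e (nat_lit 57689) (nat_lit 156) .nil))))))) (.g (nat_lit 1) (.e (nat_lit 150433) (nat_lit 0) .nil) .nil))) 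
(.lf (nat_lit 494103) (.g (nat_lit 886) (.e (nat_lit 163875) (nat_lit 3) (.e (nat_lit 204863) (nat_lit 27) (.e (nat_lit 344120) (nat_lit 21) .nil))) (.g (nat_lit 0) (.e (nat_lit 151110) (nat_lit 0) .nil) .nil)))) (.nd (nat_lit 9) 
(.lf (nat_lit 493847) (.g (nat_lit 2632) (.e (nat_lit 163875) (nat_lit 3) (.e (nat_lit 204850) (nat_lit 26) (.e (nat_lit 336028) (nat_lit 3) (.e (nat_lit 98342) (nat_lit 20) (.e (nat_lit 221214) (nat_lit 23) (.e (nat_lit 204829) (nat_lit 18) (.e (nat_lit 57926) (nat_lit 282) .nil))))))) (.g (nat_lit 1) (.e (nat_lit 150694) (nat_lit 0) .nil) .nil))) 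
(.lf (nat_lit 494359) (.g (nat_lit 1821) (.e (nat_lit 163881) (nat_lit 4) (.e (nat_lit 213032) (nat_lit 11) (.e (nat_lit 24627) (nat_lit 9) (.e (nat_lit 336432) (nat_lit 30) (.e (nat_lit 450565) (nat_lit 0) (.e (nat_lit 5224) (nat_lit 296) .nil)))))) (.g (nat_lit 1) (.e (nat_lit 151659) (nat_lit 0) .nil) .nil))))) (.nd (nat_lit 8) (.nd (nat_lit 9) 
(.lf (nat_lit 493719) (.g (nat_lit 2671) (.e (nat_lit 163875) (nat_lit 3) (.e (nat_lit 204837) (nat_lit 20) (.e (nat_lit 114719) (nat_lit 23) (.e (nat_lit 98367) (nat_lit 27) (.e (nat_lit 434232) (nat_lit 23) (.e (nat_lit 532503) (nat_lit 1) (.e (nat_lit 57689) (nat_lit 156) .nil))))))) (.g (nat_lit 1) (.e (nat_lit 150561) (nat_lit 0) .nil) .nil))) 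
(.lf (nat_lit 494231) (.g (nat_lit 2545) (.e (nat_lit 163878) (nat_lit 4) (.e (nat_lit 213030) (nat_lit 11) (.e (nat_lit 24630) (nat_lit 9) (.e (nat_lit 336443) (nat_lit 32) (.e (nat_lit 466972) (nat_lit 21) (.e (nat_lit 164329) (nat_lit 230) .nil)))))) (.g (nat_lit 1) (.e (nat_lit 151466) (nat_lit 0) .nil) .nil)))) (.nd (nat_lit 9) 
(.lf (nat_lit 493975) (.g (nat_lit 4135) (.e (nat_lit 163875) (nat_lit 3) (.e (nat_lit 204862) (nat_lit 27) (.e (nat_lit 344117) (nat_lit 21) (.e (nat_lit 516130) (nat_lit 3) (.e (nat_lit 221214) (nat_lit 23) (.e (nat_lit 204829) (nat_lit 18) (.e (nat_lit 57925) (nat_lit 282) .nil))))))) (.g (nat_lit 1) (.e (nat_lit 150982) (nat_lit 0) .nil) .nil))) 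
(.lf (nat_lit 494487) (.g (nat_lit 3639) (.e (nat_lit 163884) (nat_lit 5) (.e (nat_lit 221194) (nat_lit 11) (.e (nat_lit 336075) (nat_lit 9) (.e (nat_lit 336443) (nat_lit 32) (.e (nat_lit 466971) (nat_lit 21) (.e (nat_lit 164324) (nat_lit 230) .nil)))))) (.g (nat_lit 1) (.e (nat_lit 151842) (nat_lit 0) .nil) .nil)))))) (.nd (nat_lit 7) (.nd (nat_lit 8) (.nd (nat_lit 9) 
(.lf (nat_lit 493655) (.g (nat_lit 2502) (.e (nat_lit 163875) (nat_lit 3) (.e (nat_lit 204837) (nat_lit 20) (.e (nat_lit 114718) (nat_lit 23) (.e (nat_lit 98367) (nat_lit 27) (.e (nat_lit 434232) (nat_lit 23) (.e (nat_lit 532499) (nat_lit 1) (.e (nat_lit 57686) (nat_lit 156) .nil))))))) (.g (nat_lit 1) (.e (nat_lit 150497) (nat_lit 0) .nil) .nil))) 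
(.lf (nat_lit 494167) (.g (nat_lit 1325) (.e (nat_lit 163875) (nat_lit 3) (.e (nat_lit 204876) (nat_lit 31) (.e (nat_lit 376842) (nat_lit 11) (.e (nat_lit 426500) (nat_lit 27) (.e (nat_lit 335987) (nat_lit 1) (.e (nat_lit 57927) (nat_lit 282) .nil)))))) (.g (nat_lit 1) (.e (nat_lit 151364) (nat_lit 0) .nil) .nil)))) (.nd (nat_lit 9) 
(.lf (nat_lit 493911) (.g (nat_lit 2042) (.e (nat_lit 163875) (nat_lit 3) (.e (nat_lit 204861) (nat_lit 26) (.e (nat_lit 336213) (nat_lit 13) (.e (nat_lit 393225) (nat_lit 9) (.e (nat_lit 335986) (nat_lit 1) (.e (nat_lit 57928) (nat_lit 282) .nil)))))) (.g (nat_lit 1) (.e (nat_lit 150908) (nat_lit 0) .nil) .nil))) 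
(.lf (nat_lit 494423) (.g (nat_lit 1348) (.e (nat_lit 163882) (nat_lit 4) (.e (nat_lit 213032) (nat_lit 11) (.e (nat_lit 24659) (nat_lit 13) (.e (nat_lit 393274) (nat_lit 23) (.e (nat_lit 426097) (nat_lit 1) .nil))))) (.g (nat_lit 0) (.e (nat_lit 151773) (nat_lit 0) .nil) .nil))))) (.nd (nat_lit 8) (.nd (nat_lit 9) 
(.lf (nat_lit 493783) (.g (nat_lit 2090) (.e (nat_lit 163875) (nat_lit 3) (.e (nat_lit 204838) (nat_lit 20) (.e (nat_lit 114718) (nat_lit 23) (.e (nat_lit 98367) (nat_lit 27) (.e (nat_lit 434234) (nat_lit 23) .nil))))) (.g (nat_lit 0) (.e (nat_lit 150625) (nat_lit 0) .nil) .nil))) 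
(.lf (nat_lit 494295) (.g (nat_lit 1330) (.e (nat_lit 163879) (nat_lit 4) (.e (nat_lit 213032) (nat_lit 11) (.e (nat_lit 24660) (nat_lit 13) (.e (nat_lit 393266) (nat_lit 23) .nil)))) (.g (nat_lit 0) (.e (nat_lit 151548) (nat_lit 0) .nil) .nil)))) (.nd (nat_lit 9) 
(.lf (nat_lit 494039) (.g (nat_lit 3709) (.e (nat_lit 163875) (nat_lit 3) (.e (nat_lit 204862) (nat_lit 27) (.e (nat_lit 344133) (nat_lit 26) (.e (nat_lit 557103) (nat_lit 14) (.e (nat_lit 180243) (nat_lit 5) (.e (nat_lit 532499) (nat_lit 1) (.e (nat_lit 65280) (nat_lit 168) .nil))))))) (.g (nat_lit 1) (.e (nat_lit 151046) (nat_lit 0) .nil) .nil))) 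
(.lf (nat_lit 494551) (.g (nat_lit 1571) (.e (nat_lit 163885) (nat_lit 5) (.e (nat_lit 221193) (nat_lit 11) (.e (nat_lit 336075) (nat_lit 9) (.e (nat_lit 336443) (nat_lit 32) (.e (nat_lit 466971) (nat_lit 21) .nil))))) (.g (nat_lit 0) (.e (nat_lit 151943) (nat_lit 0) .nil) .nil))))))) (.nd (nat_lit 6) (.nd (nat_lit 7) (.nd (nat_lit 8) (.nd (nat_lit 9) 
(.lf (nat_lit 493623) (.g (nat_lit 2201) (.e (nat_lit 163875) (nat_lit 3) (.e (nat_lit 204837) (nat_lit 20) (.e (nat_lit 114715) (nat_lit 22) (.e (nat_lit 90174) (nat_lit 14) (.e (nat_lit 180243) (nat_lit 5) (.e (nat_lit 532503) (nat_lit 1) (.e (nat_lit 57688) (nat_lit 156) .nil))))))) (.g (nat_lit 1) (.e (nat_lit 150465) (nat_lit 0) .nil) .nil))) 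
(.lf (nat_lit 494135) (.g (nat_lit 2630) (.e (nat_lit 163875) (nat_lit 3) (.e (nat_lit 204864) (nat_lit 27) (.e (nat_lit 344130) (nat_lit 26) (.e (nat_lit 557103) (nat_lit 14) (.e (nat_lit 180243) (nat_lit 5) (.e (nat_lit 532504) (nat_lit 1) (.e (nat_lit 65280) (nat_lit 168) .nil))))))) (.g (nat_lit 1) (.e (nat_lit 151142) (nat_lit 0) .nil) .nil)))) (.nd (nat_lit 9) 
(.lf (nat_lit 493879) (.g (nat_lit 2108) (.e (nat_lit 163875) (nat_lit 3) (.e (nat_lit 204861) (nat_lit 26) (.e (nat_lit 336075) (nat_lit 9) (.e (nat_lit 336454) (nat_lit 34) (.e (nat_lit 483363) (nat_lit 18) (.e (nat_lit 57928) (nat_lit 282) .nil)))))) (.g (nat_lit 1) (.e (nat_lit 150835) (nat_lit 0) .nil) .nil))) 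
(.lf (nat_lit 494391) (.g (nat_lit 2549) (.e (nat_lit 163882) (nat_lit 4) (.e (nat_lit 213030) (nat_lit 11) (.e (nat_lit 24627) (nat_lit 9) (.e (nat_lit 336443) (nat_lit 32) (.e (nat_lit 466971) (nat_lit 21) (.e (nat_lit 164326) (nat_lit 230) .nil)))))) (.g (nat_lit 1) (.e (nat_lit 151702) (nat_lit 0) .nil) .nil))))) (.nd (nat_lit 8) (.nd (nat_lit 9) 
(.lf (nat_lit 493751) (.g (nat_lit 2326) (.e (nat_lit 163875) (nat_lit 3) (.e (nat_lit 204838) (nat_lit 20) (.e (nat_lit 114715) (nat_lit 22) (.e (nat_lit 90174) (nat_lit 14) (.e (nat_lit 180243) (nat_lit 5) (.e (nat_lit 532501) (nat_lit 1) (.e (nat_lit 57692) (nat_lit 156) .nil))))))) (.g (nat_lit 1) (.e (nat_lit 150593) (nat_lit 0) .nil) .nil))) 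
(.lf (nat_lit 494263) (.g (nat_lit 1354) (.e (nat_lit 163878) (nat_lit 4) (.e (nat_lit 213032) (nat_lit 11) (.e (nat_lit 24655) (nat_lit 13) (.e (nat_lit 393281) (nat_lit 23) .nil)))) (.g (nat_lit 0) (.e (nat_lit 151502) (nat_lit 0) .nil) .nil)))) (.nd (nat_lit 9) 
(.lf (nat_lit 494007) (.g (nat_lit 3465) (.e (nat_lit 163875) (nat_lit 3) (.e (nat_lit 204862) (nat_lit 27) (.e (nat_lit 344129) (nat_lit 26) (.e (nat_lit 557097) (nat_lit 13) (.e (nat_lit 172066) (nat_lit 3) (.e (nat_lit 204829) (nat_lit 18) (.e (nat_lit 65280) (nat_lit 168) .nil))))))) (.g (nat_lit 1) (.e (nat_lit 151014) (nat_lit 0) .nil) .nil))) 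
(.lf (nat_lit 494519) (.g (nat_lit 1032) (.e (nat_lit 163884) (nat_lit 5) (.e (nat_lit 221194) (nat_lit 11) (.e (nat_lit 336087) (nat_lit 9) (.e (nat_lit 336444) (nat_lit 32) .nil)))) (.g (nat_lit 0) (.e (nat_lit 151874) (nat_lit 0) .nil) .nil)))))) (.nd (nat_lit 7) (.nd (nat_lit 8) (.nd (nat_lit 9) 
(.lf (nat_lit 493687) (.g (nat_lit 4693) (.e (nat_lit 163875) (nat_lit 3) (.e (nat_lit 204837) (nat_lit 20) (.e (nat_lit 114719) (nat_lit 23) (.e (nat_lit 98366) (nat_lit 27) (.e (nat_lit 434231) (nat_lit 23) (.e (nat_lit 532499) (nat_lit 1) (.e (nat_lit 57692) (nat_lit 156) .nil))))))) (.g (nat_lit 1) (.e (nat_lit 150529) (nat_lit 0) .nil) .nil))) 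
(.lf (nat_lit 494199) (.g (nat_lit 2564) (.e (nat_lit 163877) (nat_lit 4) (.e (nat_lit 213032) (nat_lit 11) (.e (nat_lit 24626) (nat_lit 9) (.e (nat_lit 336443) (nat_lit 32) (.e (nat_lit 466971) (nat_lit 21) .nil))))) (.g (nat_lit 0) (.e (nat_lit 151431) (nat_lit 0) .nil) .nil)))) (.nd (nat_lit 9) 
(.lf (nat_lit 493943) (.g (nat_lit 2171) (.e (nat_lit 163875) (nat_lit 3) (.e (nat_lit 204862) (nat_lit 27) (.e (nat_lit 344117) (nat_lit 21) (.e (nat_lit 516123) (nat_lit 2) (.e (nat_lit 213037) (nat_lit 13) (.e (nat_lit 229433) (nat_lit 25) (.e (nat_lit 532499) (nat_lit 1) (.e (nat_lit 57927) (nat_lit 282) .nil)))))))) (.g (nat_lit 1) (.e (nat_lit 150950) (nat_lit 0) .nil) .nil))) 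
(.lf (nat_lit 494455) (.g (nat_lit 1907) (.e (nat_lit 163884) (nat_lit 5) (.e (nat_lit 221193) (nat_lit 11) (.e (nat_lit 336077) (nat_lit 9) (.e (nat_lit 336443) (nat_lit 32) (.e (nat_lit 466968) (nat_lit 21) (.e (nat_lit 164332) (nat_lit 230) .nil)))))) (.g (nat_lit 1) (.e (nat_lit 151806) (nat_lit 0) .nil) .nil))))) (.nd (nat_lit 8) (.nd (nat_lit 9) 
(.lf (nat_lit 493815) (.g (nat_lit 3824) (.e (nat_lit 163875) (nat_lit 3) (.e (nat_lit 204838) (nat_lit 20) (.e (nat_lit 114719) (nat_lit 23) (.e (nat_lit 98367) (nat_lit 27) (.e (nat_lit 434231) (nat_lit 23) (.e (nat_lit 532500) (nat_lit 1) (.e (nat_lit 57685) (nat_lit 156) .nil))))))) (.g (nat_lit 1) (.e (nat_lit 150660) (nat_lit 0) .nil) .nil))) 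
(.lf (nat_lit 494327) (.g (nat_lit 514) (.e (nat_lit 163880) (nat_lit 4) (.e (nat_lit 213032) (nat_lit 11) (.e (nat_lit 24629) (nat_lit 9) .nil))) (.g (nat_lit 0) (.e (nat_lit 151598) (nat_lit 0) .nil) .nil)))) (.nd (nat_lit 9) 
(.lf (nat_lit 494071) (.g (nat_lit 3132) (.e (nat_lit 163875) (nat_lit 3) (.e (nat_lit 204863) (nat_lit 27) (.e (nat_lit 344117) (nat_lit 21) (.e (nat_lit 516129) (nat_lit 3) (.e (nat_lit 221215) (nat_lit 23) (.e (nat_lit 204830) (nat_lit 18) (.e (nat_lit 57925) (nat_lit 282) .nil))))))) (.g (nat_lit 1) (.e (nat_lit 151078) (nat_lit 0) .nil) .nil))) 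
(.lf (nat_lit 494583) (.g (nat_lit 2766) (.e (nat_lit 163885) (nat_lit 5) (.e (nat_lit 221194) (nat_lit 11) (.e (nat_lit 336077) (nat_lit 9) (.e (nat_lit 336443) (nat_lit 32) (.e (nat_lit 466971) (nat_lit 21) (.e (nat_lit 164324) (nat_lit 230) .nil)))))) (.g (nat_lit 1) (.e (nat_lit 151978) (nat_lit 0) .nil) .nil))))))))) 
(.nd (nat_lit 4) (.nd (nat_lit 5) (.nd (nat_lit 6) (.nd (nat_lit 7) (.nd (nat_lit 8) 
(.nd (nat_lit 9) 
(.lf (nat_lit 493583) (.g (nat_lit 3563) (.e (nat_lit 163875) (nat_lit 3) (.e (nat_lit 204836) (nat_lit 20) (.e (nat_lit 114715) (nat_lit 22) (.e (nat_lit 90170) (nat_lit 13) (.e (nat_lit 172065) (nat_lit 3) (.e (nat_lit 204830) (nat_lit 18) (.e (nat_lit 57689) (nat_lit 156) .nil))))))) (.g (nat_lit 1) (.e (nat_lit 150425) (nat_lit 0) .nil) .nil))) 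
(.lf (nat_lit 494095) (.g (nat_lit 4091) (.e (nat_lit 163875) (nat_lit 3) (.e (nat_lit 204863) (nat_lit 27) (.e (nat_lit 344117) (nat_lit 21) (.e (nat_lit 516130) (nat_lit 3) (.e (nat_lit 221215) (nat_lit 23) (.e (nat_lit 204830) (nat_lit 18) (.e (nat_lit 57925) (nat_lit 282) .nil))))))) (.g (nat_lit 1) (.e (nat_lit 151102) (nat_lit 0) .nil) .nil)))) (.nd (nat_lit 9) 
(.lf (nat_lit 493839) (.g (nat_lit 3491) (.e (nat_lit 163875) (nat_lit 3) (.e (nat_lit 204846) (nat_lit 24) (.e (nat_lit 319531) (nat_lit 16) (.e (nat_lit 286735) (nat_lit 3) (.e (nat_lit 98367) (nat_lit 27) (.e (nat_lit 434202) (nat_lit 18) (.e (nat_lit 4425) (nat_lit 261) .nil))))))) (.g (nat_lit 1) (.e (nat_lit 150685) (nat_lit 0) .nil) .nil))) 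
(.lf (nat_lit 494351) (.g (nat_lit 935) (.e (nat_lit 163881) (nat_lit 4) (.e (nat_lit 213031) (nat_lit 11) (.e (nat_lit 24627) (nat_lit 9) (.e (nat_lit 336443) (nat_lit 32) .nil)))) (.g (nat_lit 0) (.e (nat_lit 151631) (nat_lit 0) .nil) .nil))))) (.nd (nat_lit 8) (.nd (nat_lit 9) 
(.lf (nat_lit 493711) (.g (nat_lit 2899) (.e (nat_lit 163875) (nat_lit 3) (.e (nat_lit 204837) (nat_lit 20) (.e (nat_lit 114719) (nat_lit 23) (.e (nat_lit 98367) (nat_lit 27) (.e (nat_lit 434232) (nat_lit 23) (.e (nat_lit 532499) (nat_lit 1) (.e (nat_lit 57686) (nat_lit 156) .nil))))))) (.g (nat_lit 1) (.e (nat_lit 150553) (nat_lit 0) .nil) .nil))) 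
(.lf (nat_lit 494223) (.g (nat_lit 1436) (.e (nat_lit 163877) (nat_lit 4) (.e (nat_lit 213032) (nat_lit 11) (.e (nat_lit 24660) (nat_lit 13) (.e (nat_lit 393277) (nat_lit 23) .nil)))) (.g (nat_lit 0) (.e (nat_lit 151457) (nat_lit 0) .nil) .nil)))) (.nd (nat_lit 9) 
(.lf (nat_lit 493967) (.g (nat_lit 1909) (.e (nat_lit 163875) (nat_lit 3) (.e (nat_lit 204862) (nat_lit 27) (.e (nat_lit 344117) (nat_lit 21) (.e (nat_lit 516130) (nat_lit 3) (.e (nat_lit 221211) (nat_lit 22) .nil))))) (.g (nat_lit 0) (.e (nat_lit 150974) (nat_lit 0) .nil) .nil))) 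
(.lf (nat_lit 494479) (.g (nat_lit 3769) (.e (nat_lit 163884) (nat_lit 5) (.e (nat_lit 221194) (nat_lit 11) (.e (nat_lit 336075) (nat_lit 9) (.e (nat_lit 336443) (nat_lit 32) (.e (nat_lit 466969) (nat_lit 21) (.e (nat_lit 164324) (nat_lit 230) .nil)))))) (.g (nat_lit 1) (.e (nat_lit 151834) (nat_lit 0) .nil) .nil)))))) (.nd (nat_lit 7) (.nd (nat_lit 8) (.nd (nat_lit 9) 
(.lf (nat_lit 493647) (.g (nat_lit 4196) (.e (nat_lit 163875) (nat_lit 3) (.e (nat_lit 204837) (nat_lit 20) (.e (nat_lit 114718) (nat_lit 23) (.e (nat_lit 98367) (nat_lit 27) (.e (nat_lit 434231) (nat_lit 23) (.e (nat_lit 532499) (nat_lit 1) (.e (nat_lit 57686) (nat_lit 156) .nil))))))) (.g (nat_lit 1) (.e (nat_lit 150489) (nat_lit 0) .nil) .nil))) 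
(.lf (nat_lit 494159) (.g (nat_lit 2400) (.e (nat_lit 163875) (nat_lit 3) (.e (nat_lit 204873) (nat_lit 30) (.e (nat_lit 368676) (nat_lit 21) (.e (nat_lit 516131) (nat_lit 3) (.e (nat_lit 221214) (nat_lit 23) (.e (nat_lit 204830) (nat_lit 18) (.e (nat_lit 57925) (nat_lit 282) .nil))))))) (.g (nat_lit 1) (.e (nat_lit 151356) (nat_lit 0) .nil) .nil)))) (.nd (nat_lit 9) 
(.lf (nat_lit 493903) (.g (nat_lit 2205) (.e (nat_lit 163875) (nat_lit 3) (.e (nat_lit 204861) (nat_lit 26) (.e (nat_lit 336213) (nat_lit 13) (.e (nat_lit 393225) (nat_lit 9) (.e (nat_lit 335892) (nat_lit 0) .nil))))) (.g (nat_lit 0) (.e (nat_lit 150900) (nat_lit 0) .nil) .nil))) 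
(.lf (nat_lit 494415) (.g (nat_lit 1253) (.e (nat_lit 163882) (nat_lit 4) (.e (nat_lit 213032) (nat_lit 11) (.e (nat_lit 24627) (nat_lit 9) (.e (nat_lit 336430) (nat_lit 29) .nil)))) (.g (nat_lit 0) (.e (nat_lit 151755) (nat_lit 0) .nil) .nil))))) (.nd (nat_lit 8) (.nd (nat_lit 9) 
(.lf (nat_lit 493775) (.g (nat_lit 4008) (.e (nat_lit 163875) (nat_lit 3) (.e (nat_lit 204838) (nat_lit 20) (.e (nat_lit 114718) (nat_lit 23) (.e (nat_lit 98367) (nat_lit 27) (.e (nat_lit 434231) (nat_lit 23) (.e (nat_lit 532500) (nat_lit 1) (.e (nat_lit 57690) (nat_lit 156) .nil))))))) (.g (nat_lit 1) (.e (nat_lit 150617) (nat_lit 0) .nil) .nil))) 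
(.lf (nat_lit 494287) (.g (nat_lit 2322) (.e (nat_lit 163879) (nat_lit 4) (.e (nat_lit 213032) (nat_lit 11) (.e (nat_lit 24655) (nat_lit 13) (.e (nat_lit 393289) (nat_lit 25) .nil)))) (.g (nat_lit 0) (.e (nat_lit 151540) (nat_lit 0) .nil) .nil)))) (.nd (nat_lit 9) 
(.lf (nat_lit 494031) (.g (nat_lit 2993) (.e (nat_lit 163875) (nat_lit 3) (.e (nat_lit 204862) (nat_lit 27) (.e (nat_lit 344130) (nat_lit 26) (.e (nat_lit 557103) (nat_lit 14) (.e (nat_lit 180243) (nat_lit 5) (.e (nat_lit 532501) (nat_lit 1) (.e (nat_lit 65280) (nat_lit 168) .nil))))))) (.g (nat_lit 1) (.e (nat_lit 151038) (nat_lit 0) .nil) .nil))) 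
(.lf (nat_lit 494543) (.g (nat_lit 2206) (.e (nat_lit 163885) (nat_lit 5) (.e (nat_lit 221191) (nat_lit 11) (.e (nat_lit 336152) (nat_lit 9) (.e (nat_lit 336442) (nat_lit 32) (.e (nat_lit 466972) (nat_lit 21) (.e (nat_lit 164330) (nat_lit 230) .nil)))))) (.g (nat_lit 1) (.e (nat_lit 151935) (nat_lit 0) .nil) .nil))))))) (.nd (nat_lit 6) (.nd (nat_lit 7) (.nd (nat_lit 8) (.nd (nat_lit 9) 
(.lf (nat_lit 493615) (.g (nat_lit 4601) (.e (nat_lit 163875) (nat_lit 3) (.e (nat_lit 204837) (nat_lit 20) (.e (nat_lit 114715) (nat_lit 22) (.e (nat_lit 90170) (nat_lit 13) (.e (nat_lit 172067) (nat_lit 3) (.e (nat_lit 204829) (nat_lit 18) (.e (nat_lit 57692) (nat_lit 156) .nil))))))) (.g (nat_lit 1) (.e (nat_lit 150457) (nat_lit 0) .nil) .nil))) 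
(.lf (nat_lit 494127) (.g (nat_lit 2482) (.e (nat_lit 163875) (nat_lit 3) (.e (nat_lit 204863) (nat_lit 27) (.e (nat_lit 344133) (nat_lit 26) (.e (nat_lit 557103) (nat_lit 14) (.e (nat_lit 180243) (nat_lit 5) (.e (nat_lit 532501) (nat_lit 1) (.e (nat_lit 65280) (nat_lit 168) .nil))))))) (.g (nat_lit 1) (.e (nat_lit 151134) (nat_lit 0) .nil) .nil)))) (.nd (nat_lit 9) 
(.lf (nat_lit 493871) (.g (nat_lit 2221) (.e (nat_lit 163875) (nat_lit 3) (.e (nat_lit 204859) (nat_lit 26) (.e (nat_lit 336017) (nat_lit 3) (.e (nat_lit 98342) (nat_lit 20) (.e (nat_lit 221215) (nat_lit 23) (.e (nat_lit 204830) (nat_lit 18) (.e (nat_lit 57926) (nat_lit 282) .nil))))))) (.g (nat_lit 1) (.e (nat_lit 150760) (nat_lit 0) .nil) .nil))) 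
(.lf (nat_lit 494383) (.g (nat_lit 2814) (.e (nat_lit 163882) (nat_lit 4) (.e (nat_lit 213030) (nat_lit 11) (.e (nat_lit 24617) (nat_lit 7) (.e (nat_lit 319533) (nat_lit 16) (.e (nat_lit 286753) (nat_lit 10) (.e (nat_lit 344088) (nat_lit 18) (.e (nat_lit 5963) (nat_lit 324) .nil))))))) (.g (nat_lit 1) (.e (nat_lit 151694) (nat_lit 0) .nil) .nil))))) (.nd (nat_lit 8) (.nd (nat_lit 9) 
(.lf (nat_lit 493743) (.g (nat_lit 3079) (.e (nat_lit 163875) (nat_lit 3) (.e (nat_lit 204838) (nat_lit 20) (.e (nat_lit 114715) (nat_lit 22) (.e (nat_lit 90170) (nat_lit 13) (.e (nat_lit 172067) (nat_lit 3) (.e (nat_lit 204828) (nat_lit 18) (.e (nat_lit 57691) (nat_lit 156) .nil))))))) (.g (nat_lit 1) (.e (nat_lit 150585) (nat_lit 0) .nil) .nil))) 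
(.lf (nat_lit 494255) (.g (nat_lit 3370) (.e (nat_lit 163878) (nat_lit 4) (.e (nat_lit 213032) (nat_lit 11) (.e (nat_lit 24627) (nat_lit 9) (.e (nat_lit 336443) (nat_lit 32) (.e (nat_lit 466972) (nat_lit 21) (.e (nat_lit 164332) (nat_lit 230) .nil)))))) (.g (nat_lit 1) (.e (nat_lit 151492) (nat_lit 0) .nil) .nil)))) (.nd (nat_lit 9) 
(.lf (nat_lit 493999) (.g (nat_lit 2845) (.e (nat_lit 163875) (nat_lit 3) (.e (nat_lit 204862) (nat_lit 27) (.e (nat_lit 344117) (nat_lit 21) (.e (nat_lit 516195) (nat_lit 26) (.e (nat_lit 336027) (nat_lit 3) (.e (nat_lit 98329) (nat_lit 17) (.e (nat_lit 2440) (nat_lit 157) (.e (nat_lit 6839) (nat_lit 369) .nil)))))))) (.g (nat_lit 1) (.e (nat_lit 151006) (nat_lit 0) .nil) .nil))) 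
(.lf (nat_lit 494511) (.g (nat_lit 1808) (.e (nat_lit 163884) (nat_lit 5) (.e (nat_lit 221194) (nat_lit 11) (.e (nat_lit 336086) (nat_lit 9) (.e (nat_lit 336444) (nat_lit 32) (.e (nat_lit 466971) (nat_lit 21) (.e (nat_lit 164325) (nat_lit 230) .nil)))))) (.g (nat_lit 1) (.e (nat_lit 151866) (nat_lit 0) .nil) .nil)))))) (.nd (nat_lit 7) (.nd (nat_lit 8) (.nd (nat_lit 9) 
(.lf (nat_lit 493679) (.g (nat_lit 2738) (.e (nat_lit 163875) (nat_lit 3) (.e (nat_lit 204837) (nat_lit 20) (.e (nat_lit 114719) (nat_lit 23) (.e (nat_lit 98363) (nat_lit 26) (.e (nat_lit 426129) (nat_lit 3) (.e (nat_lit 204830) (nat_lit 18) (.e (nat_lit 57692) (nat_lit 156) .nil))))))) (.g (nat_lit 1) (.e (nat_lit 150521) (nat_lit 0) .nil) .nil))) 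
(.lf (nat_lit 494191) (.g (nat_lit 1191) (.e (nat_lit 163877) (nat_lit 4) (.e (nat_lit 213032) (nat_lit 11) (.e (nat_lit 24604) (nat_lit 2) .nil))) (.g (nat_lit 0) (.e (nat_lit 151421) (nat_lit 0) .nil) .nil)))) (.nd (nat_lit 9) 
(.lf (nat_lit 493935) (.g (nat_lit 2126) (.e (nat_lit 163875) (nat_lit 3) (.e (nat_lit 204862) (nat_lit 27) (.e (nat_lit 344117) (nat_lit 21) (.e (nat_lit 516123) (nat_lit 2) (.e (nat_lit 213033) (nat_lit 12) (.e (nat_lit 163962) (nat_lit 25) (.e (nat_lit 532500) (nat_lit 1) (.e (nat_lit 57928) (nat_lit 282) .nil)))))))) (.g (nat_lit 1) (.e (nat_lit 150942) (nat_lit 0) .nil) .nil))) 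
(.lf (nat_lit 494447) (.g (nat_lit 1735) (.e (nat_lit 163884) (nat_lit 5) (.e (nat_lit 221193) (nat_lit 11) (.e (nat_lit 336075) (nat_lit 9) (.e (nat_lit 336443) (nat_lit 32) (.e (nat_lit 466969) (nat_lit 21) (.e (nat_lit 164324) (nat_lit 230) .nil)))))) (.g (nat_lit 1) (.e (nat_lit 151798) (nat_lit 0) .nil) .nil))))) (.nd (nat_lit 8) (.nd (nat_lit 9) 
(.lf (nat_lit 493807) (.g (nat_lit 2311) (.e (nat_lit 163875) (nat_lit 3) (.e (nat_lit 204838) (nat_lit 20) (.e (nat_lit 114719) (nat_lit 23) (.e (nat_lit 98366) (nat_lit 27) (.e (nat_lit 434232) (nat_lit 23) (.e (nat_lit 532503) (nat_lit 1) (.e (nat_lit 57688) (nat_lit 156) .nil))))))) (.g (nat_lit 1) (.e (nat_lit 150652) (nat_lit 0) .nil) .nil))) 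
(.lf (nat_lit 494319) (.g (nat_lit 2020) (.e (nat_lit 163880) (nat_lit 4) (.e (nat_lit 213031) (nat_lit 11) (.e (nat_lit 24625) (nat_lit 9) (.e (nat_lit 336443) (nat_lit 32) (.e (nat_lit 466972) (nat_lit 21) .nil))))) (.g (nat_lit 0) (.e (nat_lit 151574) (nat_lit 0) .nil) .nil)))) (.nd (nat_lit 9) 
(.lf (nat_lit 494063) (.g (nat_lit 2512) (.e (nat_lit 163875) (nat_lit 3) (.e (nat_lit 204863) (nat_lit 27) (.e (nat_lit 344117) (nat_lit 21) (.e (nat_lit 516129) (nat_lit 3) (.e (nat_lit 221214) (nat_lit 23) (.e (nat_lit 204829) (nat_lit 18) (.e (nat_lit 57928) (nat_lit 282) .nil))))))) (.g (nat_lit 1) (.e (nat_lit 151070) (nat_lit 0) .nil) .nil))) 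
(.lf (nat_lit 494575) (.g (nat_lit 2774) (.e (nat_lit 163885) (nat_lit 5) (.e (nat_lit 221194) (nat_lit 11) (.e (nat_lit 336075) (nat_lit 9) (.e (nat_lit 336443) (nat_lit 32) (.e (nat_lit 466971) (nat_lit 21) (.e (nat_lit 164329) (nat_lit 230) .nil)))))) (.g (nat_lit 1) (.e (nat_lit 151970) (nat_lit 0) .nil) .nil)))))))) 
(.nd (nat_lit 5) (.nd (nat_lit 6) (.nd (nat_lit 7) (.nd (nat_lit 8) (.nd (nat_lit 9) 
(.lf (nat_lit 493599) (.g (nat_lit 2788) (.e (nat_lit 163875) (nat_lit 3) (.e (nat_lit 204837) (nat_lit 20) (.e (nat_lit 114714) (nat_lit 22) (.e (nat_lit 90169) (nat_lit 13) (.e (nat_lit 179968) (nat_lit 18) (.e (nat_lit 98333) (nat_lit 18) (.e (nat_lit 164327) (nat_lit 230) .nil))))))) (.g (nat_lit 1) (.e (nat_lit 150441) (nat_lit 0) .nil) .nil))) 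
(.lf (nat_lit 494111) (.g (nat_lit 2994) (.e (nat_lit 163875) (nat_lit 3) (.e (nat_lit 204863) (nat_lit 27) (.e (nat_lit 344129) (nat_lit 26) (.e (nat_lit 557103) (nat_lit 14) (.e (nat_lit 180244) (nat_lit 5) (.e (nat_lit 532503) (nat_lit 1) (.e (nat_lit 65280) (nat_lit 168) .nil))))))) (.g (nat_lit 1) (.e (nat_lit 151118) (nat_lit 0) .nil) .nil)))) (.nd (nat_lit 9) 
(.lf (nat_lit 493855) (.g (nat_lit 2455) (.e (nat_lit 163875) (nat_lit 3) (.e (nat_lit 204851) (nat_lit 26) (.e (nat_lit 336019) (nat_lit 3) (.e (nat_lit 98341) (nat_lit 20) (.e (nat_lit 221214) (nat_lit 23) (.e (nat_lit 204830) (nat_lit 18) (.e (nat_lit 57926) (nat_lit 282) .nil))))))) (.g (nat_lit 1) (.e (nat_lit 150702) (nat_lit 0) .nil) .nil))) 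
(.lf (nat_lit 494367) (.g (nat_lit 2971) (.e (nat_lit 163881) (nat_lit 4) (.e (nat_lit 213032) (nat_lit 11) (.e (nat_lit 24630) (nat_lit 9) (.e (nat_lit 336443) (nat_lit 32) (.e (nat_lit 466969) (nat_lit 21) (.e (nat_lit 164326) (nat_lit 230) .nil)))))) (.g (nat_lit 1) (.e (nat_lit 151673) (nat_lit 0) .nil) .nil))))) (.nd (nat_lit 8) (.nd (nat_lit 9) 
(.lf (nat_lit 493727) (.g (nat_lit 2204) (.e (nat_lit 163875) (nat_lit 3) (.e (nat_lit 204837) (nat_lit 20) (.e (nat_lit 114719) (nat_lit 23) (.e (nat_lit 98367) (nat_lit 27) (.e (nat_lit 434234) (nat_lit 23) (.e (nat_lit 532501) (nat_lit 1) (.e (nat_lit 57692) (nat_lit 156) .nil))))))) (.g (nat_lit 1) (.e (nat_lit 150569) (nat_lit 0) .nil) .nil))) 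
(.lf (nat_lit 494239) (.g (nat_lit 377) (.e (nat_lit 163878) (nat_lit 4) (.e (nat_lit 213030) (nat_lit 11) (.e (nat_lit 24660) (nat_lit 13) .nil))) (.g (nat_lit 0) (.e (nat_lit 151475) (nat_lit 0) .nil) .nil)))) (.nd (nat_lit 9) 
(.lf (nat_lit 493983) (.g (nat_lit 2777) (.e (nat_lit 163875) (nat_lit 3) (.e (nat_lit 204862) (nat_lit 27) (.e (nat_lit 344117) (nat_lit 21) (.e (nat_lit 516130) (nat_lit 3) (.e (nat_lit 221215) (nat_lit 23) (.e (nat_lit 204828) (nat_lit 18) (.e (nat_lit 57924) (nat_lit 282) .nil))))))) (.g (nat_lit 1) (.e (nat_lit 150990) (nat_lit 0) .nil) .nil))) 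
(.lf (nat_lit 494495) (.g (nat_lit 3807) (.e (nat_lit 163884) (nat_lit 5) (.e (nat_lit 221194) (nat_lit 11) (.e (nat_lit 336075) (nat_lit 9) (.e (nat_lit 336443) (nat_lit 32) (.e (nat_lit 466972) (nat_lit 21) (.e (nat_lit 164332) (nat_lit 230) .nil)))))) (.g (nat_lit 1) (.e (nat_lit 151850) (nat_lit 0) .nil) .nil)))))) (.nd (nat_lit 7) (.nd (nat_lit 8) (.nd (nat_lit 9) 
(.lf (nat_lit 493663) (.g (nat_lit 3377) (.e (nat_lit 163875) (nat_lit 3) (.e (nat_lit 204837) (nat_lit 20) (.e (nat_lit 114718) (nat_lit 23) (.e (nat_lit 98367) (nat_lit 27) (.e (nat_lit 434232) (nat_lit 23) (.e (nat_lit 532504) (nat_lit 1) (.e (nat_lit 57690) (nat_lit 156) .nil))))))) (.g (nat_lit 1) (.e (nat_lit 150505) (nat_lit 0) .nil) .nil))) 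
(.lf (nat_lit 494175) (.g (nat_lit 3204) (.e (nat_lit 163875) (nat_lit 3) (.e (nat_lit 204877) (nat_lit 31) (.e (nat_lit 376842) (nat_lit 11) (.e (nat_lit 426500) (nat_lit 27) (.e (nat_lit 335986) (nat_lit 1) (.e (nat_lit 57926) (nat_lit 282) .nil)))))) (.g (nat_lit 1) (.e (nat_lit 151372) (nat_lit 0) .nil) .nil)))) (.nd (nat_lit 9) 
(.lf (nat_lit 493919) (.g (nat_lit 498) (.e (nat_lit 163875) (nat_lit 3) (.e (nat_lit 204861) (nat_lit 26) (.e (nat_lit 336222) (nat_lit 13) .nil))) (.g (nat_lit 0) (.e (nat_lit 150925) (nat_lit 0) .nil) .nil))) 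
(.lf (nat_lit 494431) (.g (nat_lit 1802) (.e (nat_lit 163884) (nat_lit 5) (.e (nat_lit 221190) (nat_lit 11) (.e (nat_lit 336076) (nat_lit 9) (.e (nat_lit 336443) (nat_lit 32) (.e (nat_lit 466971) (nat_lit 21) .nil))))) (.g (nat_lit 0) (.e (nat_lit 151782) (nat_lit 0) .nil) .nil))))) (.nd (nat_lit 8) (.nd (nat_lit 9) 
(.lf (nat_lit 493791) (.g (nat_lit 2472) (.e (nat_lit 163875) (nat_lit 3) (.e (nat_lit 204838) (nat_lit 20) (.e (nat_lit 114719) (nat_lit 23) (.e (nat_lit 98363) (nat_lit 26) (.e (nat_lit 426129) (nat_lit 3) (.e (nat_lit 204829) (nat_lit 18) (.e (nat_lit 57688) (nat_lit 156) .nil))))))) (.g (nat_lit 1) (.e (nat_lit 150633) (nat_lit 0) .nil) .nil))) 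
(.lf (nat_lit 494303) (.g (nat_lit 1338) (.e (nat_lit 163879) (nat_lit 4) (.e (nat_lit 213032) (nat_lit 11) (.e (nat_lit 24660) (nat_lit 13) (.e (nat_lit 393286) (nat_lit 25) .nil)))) (.g (nat_lit 0) (.e (nat_lit 151556) (nat_lit 0) .nil) .nil)))) (.nd (nat_lit 9) 
(.lf (nat_lit 494047) (.g (nat_lit 1962) (.e (nat_lit 163875) (nat_lit 3) (.e (nat_lit 204863) (nat_lit 27) (.e (nat_lit 344117) (nat_lit 21) (.e (nat_lit 516122) (nat_lit 2) (.e (nat_lit 213035) (nat_lit 12) .nil))))) (.g (nat_lit 0) (.e (nat_lit 151054) (nat_lit 0) .nil) .nil))) 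
(.lf (nat_lit 494559) (.g (nat_lit 2674) (.e (nat_lit 163885) (nat_lit 5) (.e (nat_lit 221193) (nat_lit 11) (.e (nat_lit 336084) (nat_lit 9) (.e (nat_lit 336443) (nat_lit 32) (.e (nat_lit 466969) (nat_lit 21) (.e (nat_lit 164329) (nat_lit 230) .nil)))))) (.g (nat_lit 1) (.e (nat_lit 151951) (nat_lit 0) .nil) .nil))))))) (.nd (nat_lit 6) (.nd (nat_lit 7) (.nd (nat_lit 8) (.nd (nat_lit 9) 
(.lf (nat_lit 493631) (.g (nat_lit 3505) (.e (nat_lit 163875) (nat_lit 3) (.e (nat_lit 204837) (nat_lit 20) (.e (nat_lit 114718) (nat_lit 23) (.e (nat_lit 98365) (nat_lit 26) (.e (nat_lit 426133) (nat_lit 3) (.e (nat_lit 204829) (nat_lit 18) (.e (nat_lit 57686) (nat_lit 156) .nil))))))) (.g (nat_lit 1) (.e (nat_lit 150473) (nat_lit 0) .nil) .nil))) 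
(.lf (nat_lit 494143) (.g (nat_lit 2780) (.e (nat_lit 163875) (nat_lit 3) (.e (nat_lit 204865) (nat_lit 28) (.e (nat_lit 352277) (nat_lit 11) (.e (nat_lit 426500) (nat_lit 27) (.e (nat_lit 335986) (nat_lit 1) (.e (nat_lit 57925) (nat_lit 282) .nil)))))) (.g (nat_lit 1) (.e (nat_lit 151150) (nat_lit 0) .nil) .nil)))) (.nd (nat_lit 9) 
(.lf (nat_lit 493887) (.g (nat_lit 2256) (.e (nat_lit 163875) (nat_lit 3) (.e (nat_lit 204861) (nat_lit 26) (.e (nat_lit 336075) (nat_lit 9) (.e (nat_lit 336456) (nat_lit 34) (.e (nat_lit 483364) (nat_lit 18) (.e (nat_lit 57925) (nat_lit 282) .nil)))))) (.g (nat_lit 1) (.e (nat_lit 150844) (nat_lit 0) .nil) .nil))) 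
(.lf (nat_lit 494399) (.g (nat_lit 2571) (.e (nat_lit 163882) (nat_lit 4) (.e (nat_lit 213030) (nat_lit 11) (.e (nat_lit 24659) (nat_lit 13) (.e (nat_lit 393281) (nat_lit 23) (.e (nat_lit 426098) (nat_lit 1) (.e (nat_lit 164325) (nat_lit 230) .nil)))))) (.g (nat_lit 1) (.e (nat_lit 151716) (nat_lit 0) .nil) .nil))))) (.nd (nat_lit 8) (.nd (nat_lit 9) 
(.lf (nat_lit 493759) (.g (nat_lit 329) (.e (nat_lit 163875) (nat_lit 3) (.e (nat_lit 204838) (nat_lit 20) (.e (nat_lit 114718) (nat_lit 23) .nil))) (.g (nat_lit 0) (.e (nat_lit 150601) (nat_lit 0) .nil) .nil))) 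
(.lf (nat_lit 494271) (.g (nat_lit 2515) (.e (nat_lit 163879) (nat_lit 4) (.e (nat_lit 213030) (nat_lit 11) (.e (nat_lit 24656) (nat_lit 13) (.e (nat_lit 393271) (nat_lit 23) (.e (nat_lit 426112) (nat_lit 1) .nil))))) (.g (nat_lit 0) (.e (nat_lit 151515) (nat_lit 0) .nil) .nil)))) (.nd (nat_lit 9) 
(.lf (nat_lit 494015) (.g (nat_lit 4188) (.e (nat_lit 163875) (nat_lit 3) (.e (nat_lit 204862) (nat_lit 27) (.e (nat_lit 344129) (nat_lit 26) (.e (nat_lit 557103) (nat_lit 14) (.e (nat_lit 180243) (nat_lit 5) (.e (nat_lit 532504) (nat_lit 1) (.e (nat_lit 65280) (nat_lit 168) .nil))))))) (.g (nat_lit 1) (.e (nat_lit 151022) (nat_lit 0) .nil) .nil))) 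
(.lf (nat_lit 494527) (.g (nat_lit 1952) (.e (nat_lit 163884) (nat_lit 5) (.e (nat_lit 221212) (nat_lit 22) (.e (nat_lit 196656) (nat_lit 11) (.e (nat_lit 16425) (nat_lit 7) (.e (nat_lit 409616) (nat_lit 10) .nil))))) (.g (nat_lit 0) (.e (nat_lit 151910) (nat_lit 0) .nil) .nil)))))) (.nd (nat_lit 7) (.nd (nat_lit 8) (.nd (nat_lit 9) 
(.lf (nat_lit 493695) (.g (nat_lit 2684) (.e (nat_lit 163875) (nat_lit 3) (.e (nat_lit 204837) (nat_lit 20) (.e (nat_lit 114719) (nat_lit 23) (.e (nat_lit 98366) (nat_lit 27) (.e (nat_lit 434232) (nat_lit 23) (.e (nat_lit 532503) (nat_lit 1) (.e (nat_lit 57688) (nat_lit 156) .nil))))))) (.g (nat_lit 1) (.e (nat_lit 150537) (nat_lit 0) .nil) .nil))) 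
(.lf (nat_lit 494207) (.g (nat_lit 1641) (.e (nat_lit 163877) (nat_lit 4) (.e (nat_lit 213032) (nat_lit 11) (.e (nat_lit 24628) (nat_lit 9) (.e (nat_lit 336443) (nat_lit 32) (.e (nat_lit 466969) (nat_lit 21) .nil))))) (.g (nat_lit 0) (.e (nat_lit 151439) (nat_lit 0) .nil) .nil)))) (.nd (nat_lit 9) 
(.lf (nat_lit 493951) (.g (nat_lit 2303) (.e (nat_lit 163875) (nat_lit 3) (.e (nat_lit 204862) (nat_lit 27) (.e (nat_lit 344117) (nat_lit 21) (.e (nat_lit 516129) (nat_lit 3) (.e (nat_lit 221213) (nat_lit 23) .nil))))) (.g (nat_lit 0) (.e (nat_lit 150958) (nat_lit 0) .nil) .nil))) 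
(.lf (nat_lit 494463) (.g (nat_lit 2223) (.e (nat_lit 163884) (nat_lit 5) (.e (nat_lit 221193) (nat_lit 11) (.e (nat_lit 336077) (nat_lit 9) (.e (nat_lit 336443) (nat_lit 32) (.e (nat_lit 466972) (nat_lit 21) (.e (nat_lit 164329) (nat_lit 230) .nil)))))) (.g (nat_lit 1) (.e (nat_lit 151814) (nat_lit 0) .nil) .nil))))) (.nd (nat_lit 8) (.nd (nat_lit 9) 
(.lf (nat_lit 493823) (.g (nat_lit 2644) (.e (nat_lit 163875) (nat_lit 3) (.e (nat_lit 204838) (nat_lit 20) (.e (nat_lit 114719) (nat_lit 23) (.e (nat_lit 98367) (nat_lit 27) (.e (nat_lit 434232) (nat_lit 23) (.e (nat_lit 532501) (nat_lit 1) (.e (nat_lit 57692) (nat_lit 156) .nil))))))) (.g (nat_lit 1) (.e (nat_lit 150668) (nat_lit 0) .nil) .nil))) 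
(.lf (nat_lit 494335) (.g (nat_lit 2556) (.e (nat_lit 163881) (nat_lit 4) (.e (nat_lit 213030) (nat_lit 11) (.e (nat_lit 24617) (nat_lit 7) (.e (nat_lit 319534) (nat_lit 16) (.e (nat_lit 286749) (nat_lit 9) .nil))))) (.g (nat_lit 0) (.e (nat_lit 151609) (nat_lit 0) .nil) .nil)))) (.nd (nat_lit 9) 
(.lf (nat_lit 494079) (.g (nat_lit 2384) (.e (nat_lit 163875) (nat_lit 3) (.e (nat_lit 204863) (nat_lit 27) (.e (nat_lit 344117) (nat_lit 21) (.e (nat_lit 516130) (nat_lit 3) (.e (nat_lit 221213) (nat_lit 23) (.e (nat_lit 204830) (nat_lit 18) (.e (nat_lit 57928) (nat_lit 282) .nil))))))) (.g (nat_lit 1) (.e (nat_lit 151086) (nat_lit 0) .nil) .nil))) 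
(.lf (nat_lit 494591) (.g (nat_lit 2165) (.e (nat_lit 163885) (nat_lit 5) (.e (nat_lit 221194) (nat_lit 11) (.e (nat_lit 336087) (nat_lit 9) (.e (nat_lit 336426) (nat_lit 29) (.e (nat_lit 442421) (nat_lit 21) (.e (nat_lit 164324) (nat_lit 230) .nil)))))) (.g (nat_lit 1) (.e (nat_lit 151986) (nat_lit 0) .nil) .nil)))))))))))))

noncomputable def tv5543 : DT := (.nd (nat_lit 0) (.nd (nat_lit 1) (.nd (nat_lit 2) (.nd (nat_lit 3) (.nd (nat_lit 4) (.nd (nat_lit 5) (.nd (nat_lit 6) (.nd (nat_lit 7) (.nd (nat_lit 8) (.nd (nat_lit 9) 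
(.lf (nat_lit 494592) (.g (nat_lit 1030) (.e (nat_lit 163885) (nat_lit 5) (.e (nat_lit 221194) (nat_lit 11) (.e (nat_lit 336087) (nat_lit 9) (.e (nat_lit 336432) (nat_lit 30) .nil)))) (.g (nat_lit 0) (.e (nat_lit 151987) (nat_lit 0) .nil) .nil))) 
(.lf (nat_lit 495104) (.g (nat_lit 2034) (.e (nat_lit 163902) (nat_lit 12) (.e (nat_lit 426566) (nat_lit 34) (.e (nat_lit 393296) (nat_lit 26) (.e (nat_lit 475176) (nat_lit 24) (.e (nat_lit 516118) (nat_lit 1) (.e (nat_lit 164330) (nat_lit 230) .nil)))))) (.g (nat_lit 1) (.e (nat_lit 153429) (nat_lit 0) .nil) .nil)))) (.nd (nat_lit 9) 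
(.lf (nat_lit 494848) (.g (nat_lit 3016) (.e (nat_lit 163902) (nat_lit 12) (.e (nat_lit 426438) (nat_lit 18) (.e (nat_lit 98373) (nat_lit 29) (.e (nat_lit 450562) (nat_lit 0) (.e (nat_lit 6416) (nat_lit 341) .nil))))) (.g (nat_lit 0) (.e (nat_lit 153128) (nat_lit 0) .nil) .nil))) 
(.lf (nat_lit 495360) (.g (nat_lit 3553) (.e (nat_lit 163903) (nat_lit 12) (.e (nat_lit 426438) (nat_lit 18) (.e (nat_lit 98373) (nat_lit 29) (.e (nat_lit 450562) (nat_lit 0) (.e (nat_lit 6841) (nat_lit 369) (.e (nat_lit 163859) (nat_lit 1) (.e (nat_lit 164325) (nat_lit 230) .nil))))))) (.g (nat_lit 1) (.e (nat_lit 153761) (nat_lit 0) .nil) .nil))))) (.nd (nat_lit 8) (.nd (nat_lit 9) 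
(.lf (nat_lit 494720) (.g (nat_lit 3037) (.e (nat_lit 163900) (nat_lit 12) (.e (nat_lit 426140) (nat_lit 3) (.e (nat_lit 204868) (nat_lit 29) (.e (nat_lit 360475) (nat_lit 8) (.e (nat_lit 557089) (nat_lit 12) .nil))))) (.g (nat_lit 0) (.e (nat_lit 152858) (nat_lit 0) .nil) .nil))) 
(.lf (nat_lit 495232) (.g (nat_lit 3823) (.e (nat_lit 163902) (nat_lit 12) (.e (nat_lit 426568) (nat_lit 34) (.e (nat_lit 393291) (nat_lit 26) (.e (nat_lit 475177) (nat_lit 24) (.e (nat_lit 516116) (nat_lit 1) (.e (nat_lit 164329) (nat_lit 230) .nil)))))) (.g (nat_lit 1) (.e (nat_lit 153578) (nat_lit 0) .nil) .nil)))) (.nd (nat_lit 9) 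
(.lf (nat_lit 494976) (.g (nat_lit 504) (.e (nat_lit 163902) (nat_lit 12) (.e (nat_lit 426566) (nat_lit 34) (.e (nat_lit 393253) (nat_lit 18) .nil))) (.g (nat_lit 0) (.e (nat_lit 153299) (nat_lit 0) .nil) .nil))) 
(.lf (nat_lit 495488) (.g (nat_lit 4021) (.e (nat_lit 163903) (nat_lit 12) (.e (nat_lit 426566) (nat_lit 34) (.e (nat_lit 393271) (nat_lit 23) (.e (nat_lit 426436) (nat_lit 18) (.e (nat_lit 98333) (nat_lit 18) (.e (nat_lit 164327) (nat_lit 230) .nil)))))) (.g (nat_lit 1) (.e (nat_lit 153905) (nat_lit 0) .nil) .nil)))))) (.nd (nat_lit 7) (.nd (nat_lit 8) (.nd (nat_lit 9) 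
(.lf (nat_lit 494656) (.g (nat_lit 2372) (.e (nat_lit 163891) (nat_lit 8) (.e (nat_lit 253991) (nat_lit 11) (.e (nat_lit 16425) (nat_lit 7) (.e (nat_lit 409648) (nat_lit 18) (.e (nat_lit 303137) (nat_lit 10) .nil))))) (.g (nat_lit 0) (.e (nat_lit 152194) (nat_lit 0) .nil) .nil))) 
(.lf (nat_lit 495168) (.g (nat_lit 2677) (.e (nat_lit 163902) (nat_lit 12) (.e (nat_lit 426568) (nat_lit 34) (.e (nat_lit 393271) (nat_lit 23) (.e (nat_lit 426434) (nat_lit 18) (.e (nat_lit 98334) (nat_lit 18) (.e (nat_lit 164329) (nat_lit 230) .nil)))))) (.g (nat_lit 1) (.e (nat_lit 153503) (nat_lit 0) .nil) .nil)))) (.nd (nat_lit 9) 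
(.lf (nat_lit 494912) (.g (nat_lit 2851) (.e (nat_lit 163902) (nat_lit 12) (.e (nat_lit 426479) (nat_lit 27) (.e (nat_lit 336430) (nat_lit 29) (.e (nat_lit 442427) (nat_lit 23) (.e (nat_lit 204829) (nat_lit 18) (.e (nat_lit 57686) (nat_lit 156) .nil)))))) (.g (nat_lit 1) (.e (nat_lit 153199) (nat_lit 0) .nil) .nil))) 
(.lf (nat_lit 495424) (.g (nat_lit 2313) (.e (nat_lit 163903) (nat_lit 12) (.e (nat_lit 426481) (nat_lit 27) (.e (nat_lit 336389) (nat_lit 27) (.e (nat_lit 426308) (nat_lit 12) (.e (nat_lit 475177) (nat_lit 24) (.e (nat_lit 516118) (nat_lit 1) (.e (nat_lit 164325) (nat_lit 230) .nil))))))) (.g (nat_lit 1) (.e (nat_lit 153837) (nat_lit 0) .nil) .nil))))) (.nd (nat_lit 8) (.nd (nat_lit 9) 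
(.lf (nat_lit 494784) (.g (nat_lit 1019) (.e (nat_lit 163902) (nat_lit 12) (.e (nat_lit 426428) (nat_lit 17) (.e (nat_lit 90170) (nat_lit 13) (.e (nat_lit 172113) (nat_lit 10) .nil)))) (.g (nat_lit 0) (.e (nat_lit 153054) (nat_lit 0) .nil) .nil))) 
(.lf (nat_lit 495296) (.g (nat_lit 3502) (.e (nat_lit 163902) (nat_lit 12) (.e (nat_lit 426568) (nat_lit 34) (.e (nat_lit 393294) (nat_lit 26) (.e (nat_lit 475179) (nat_lit 24) (.e (nat_lit 516117) (nat_lit 1) (.e (nat_lit 164322) (nat_lit 230) .nil)))))) (.g (nat_lit 1) (.e (nat_lit 153642) (nat_lit 0) .nil) .nil)))) (.nd (nat_lit 9) 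
(.lf (nat_lit 495040) (.g (nat_lit 1215) (.e (nat_lit 163902) (nat_lit 12) (.e (nat_lit 426566) (nat_lit 34) (.e (nat_lit 393291) (nat_lit 26) (.e (nat_lit 475175) (nat_lit 24) .nil)))) (.g (nat_lit 0) (.e (nat_lit 153365) (nat_lit 0) .nil) .nil))) 
(.lf (nat_lit 495552) (.g (nat_lit 3071) (.e (nat_lit 163903) (nat_lit 12) (.e (nat_lit 426567) (nat_lit 34) (.e (nat_lit 393271) (nat_lit 23) (.e (nat_lit 426131) (nat_lit 3) (.e (nat_lit 204829) (nat_lit 18) (.e (nat_lit 57688) (nat_lit 156) .nil)))))) (.g (nat_lit 1) (.e (nat_lit 153970) (nat_lit 0) .nil) .nil))))))) (.nd (nat_lit 6) (.nd (nat_lit 7) (.nd (nat_lit 8) (.nd (nat_lit 9) 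
(.lf (nat_lit 494624) (.g (nat_lit 1774) (.e (nat_lit 163886) (nat_lit 5) (.e (nat_lit 221193) (nat_lit 11) (.e (nat_lit 336075) (nat_lit 9) (.e (nat_lit 336443) (nat_lit 32) (.e (nat_lit 466969) (nat_lit 21) (.e (nat_lit 164327) (nat_lit 230) .nil)))))) (.g (nat_lit 1) (.e (nat_lit 152098) (nat_lit 0) .nil) .nil))) 
(.lf (nat_lit 495136) (.g (nat_lit 2506) (.e (nat_lit 163902) (nat_lit 12) (.e (nat_lit 426568) (nat_lit 34) (.e (nat_lit 393266) (nat_lit 23) (.e (nat_lit 426438) (nat_lit 18) (.e (nat_lit 98335) (nat_lit 18) (.e (nat_lit 164329) (nat_lit 230) .nil)))))) (.g (nat_lit 1) (.e (nat_lit 153471) (nat_lit 0) .nil) .nil)))) (.nd (nat_lit 9) 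
(.lf (nat_lit 494880) (.g (nat_lit 2185) (.e (nat_lit 163902) (nat_lit 12) (.e (nat_lit 426438) (nat_lit 18) (.e (nat_lit 98381) (nat_lit 31) (.e (nat_lit 466954) (nat_lit 11) (.e (nat_lit 335994) (nat_lit 1) (.e (nat_lit 57686) (nat_lit 156) .nil)))))) (.g (nat_lit 1) (.e (nat_lit 153161) (nat_lit 0) .nil) .nil))) 
(.lf (nat_lit 495392) (.g (nat_lit 1933) (.e (nat_lit 163903) (nat_lit 12) (.e (nat_lit 426479) (nat_lit 27) (.e (nat_lit 336430) (nat_lit 29) (.e (nat_lit 442427) (nat_lit 23) (.e (nat_lit 204828) (nat_lit 18) (.e (nat_lit 57686) (nat_lit 156) .nil)))))) (.g (nat_lit 1) (.e (nat_lit 153799) (nat_lit 0) .nil) .nil))))) (.nd (nat_lit 8) (.nd (nat_lit 9) 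
(.lf (nat_lit 494752) (.g (nat_lit 2507) (.e (nat_lit 163901) (nat_lit 12) (.e (nat_lit 426131) (nat_lit 3) (.e (nat_lit 204868) (nat_lit 29) (.e (nat_lit 360473) (nat_lit 8) (.e (nat_lit 557093) (nat_lit 12) .nil))))) (.g (nat_lit 0) (.e (nat_lit 152930) (nat_lit 0) .nil) .nil))) 
(.lf (nat_lit 495264) (.g (nat_lit 3068) (.e (nat_lit 163902) (nat_lit 12) (.e (nat_lit 426568) (nat_lit 34) (.e (nat_lit 393293) (nat_lit 26) (.e (nat_lit 475178) (nat_lit 24) (.e (nat_lit 516117) (nat_lit 1) (.e (nat_lit 164329) (nat_lit 230) .nil)))))) (.g (nat_lit 1) (.e (nat_lit 153610) (nat_lit 0) .nil) .nil)))) (.nd (nat_lit 9) 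
(.lf (nat_lit 495008) (.g (nat_lit 3292) (.e (nat_lit 163902) (nat_lit 12) (.e (nat_lit 426566) (nat_lit 34) (.e (nat_lit 393272) (nat_lit 23) (.e (nat_lit 426131) (nat_lit 3) (.e (nat_lit 204829) (nat_lit 18) (.e (nat_lit 57688) (nat_lit 156) .nil)))))) (.g (nat_lit 1) (.e (nat_lit 153332) (nat_lit 0) .nil) .nil))) 
(.lf (nat_lit 495520) (.g (nat_lit 3037) (.e (nat_lit 163903) (nat_lit 12) (.e (nat_lit 426566) (nat_lit 34) (.e (nat_lit 393293) (nat_lit 26) (.e (nat_lit 475177) (nat_lit 24) (.e (nat_lit 516118) (nat_lit 1) (.e (nat_lit 164324) (nat_lit 230) .nil)))))) (.g (nat_lit 1) (.e (nat_lit 153937) (nat_lit 0) .nil) .nil)))))) (.nd (nat_lit 7) (.nd (nat_lit 8) (.nd (nat_lit 9) 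
(.lf (nat_lit 494688) (.g (nat_lit 4531) (.e (nat_lit 163900) (nat_lit 12) (.e (nat_lit 426125) (nat_lit 2) (.e (nat_lit 196666) (nat_lit 13) (.e (nat_lit 65610) (nat_lit 10) (.e (nat_lit 344129) (nat_lit 26) (.e (nat_lit 557089) (nat_lit 12) (.e (nat_lit 163843) (nat_lit 0) (.e (nat_lit 6421) (nat_lit 341) .nil)))))))) (.g (nat_lit 1) (.e (nat_lit 152808) (nat_lit 0) .nil) .nil))) 
(.lf (nat_lit 495200) (.g (nat_lit 3302) (.e (nat_lit 163902) (nat_lit 12) (.e (nat_lit 426568) (nat_lit 34) (.e (nat_lit 393281) (nat_lit 23) (.e (nat_lit 426139) (nat_lit 3) (.e (nat_lit 204829) (nat_lit 18) (.e (nat_lit 57686) (nat_lit 156) .nil)))))) (.g (nat_lit 1) (.e (nat_lit 153538) (nat_lit 0) .nil) .nil)))) (.nd (nat_lit 9) 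
(.lf (nat_lit 494944) (.g (nat_lit 2406) (.e (nat_lit 163902) (nat_lit 12) (.e (nat_lit 426538) (nat_lit 29) (.e (nat_lit 352315) (nat_lit 23) (.e (nat_lit 98317) (nat_lit 9) (.e (nat_lit 335996) (nat_lit 1) (.e (nat_lit 57931) (nat_lit 282) .nil)))))) (.g (nat_lit 1) (.e (nat_lit 153242) (nat_lit 0) .nil) .nil))) 
(.lf (nat_lit 495456) (.g (nat_lit 2600) (.e (nat_lit 163903) (nat_lit 12) (.e (nat_lit 426555) (nat_lit 32) (.e (nat_lit 376865) (nat_lit 22) (.e (nat_lit 90158) (nat_lit 11) (.e (nat_lit 24599) (nat_lit 1) (.e (nat_lit 57924) (nat_lit 282) .nil)))))) (.g (nat_lit 1) (.e (nat_lit 153872) (nat_lit 0) .nil) .nil))))) (.nd (nat_lit 8) (.nd (nat_lit 9) 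
(.lf (nat_lit 494816) (.g (nat_lit 2937) (.e (nat_lit 163902) (nat_lit 12) (.e (nat_lit 426436) (nat_lit 18) (.e (nat_lit 98381) (nat_lit 31) (.e (nat_lit 466954) (nat_lit 11) (.e (nat_lit 335986) (nat_lit 1) (.e (nat_lit 57688) (nat_lit 156) .nil)))))) (.g (nat_lit 1) (.e (nat_lit 153094) (nat_lit 0) .nil) .nil))) 
(.lf (nat_lit 495328) (.g (nat_lit 1933) (.e (nat_lit 163903) (nat_lit 12) (.e (nat_lit 426436) (nat_lit 18) (.e (nat_lit 98358) (nat_lit 26) (.e (nat_lit 426322) (nat_lit 13) (.e (nat_lit 483363) (nat_lit 18) (.e (nat_lit 57688) (nat_lit 156) .nil)))))) (.g (nat_lit 1) (.e (nat_lit 153724) (nat_lit 0) .nil) .nil)))) (.nd (nat_lit 9) 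
(.lf (nat_lit 495072) (.g (nat_lit 2839) (.e (nat_lit 163902) (nat_lit 12) (.e (nat_lit 426566) (nat_lit 34) (.e (nat_lit 393294) (nat_lit 26) (.e (nat_lit 475175) (nat_lit 24) (.e (nat_lit 516120) (nat_lit 1) (.e (nat_lit 164329) (nat_lit 230) .nil)))))) (.g (nat_lit 1) (.e (nat_lit 153397) (nat_lit 0) .nil) .nil))) 
(.lf (nat_lit 495584) (.g (nat_lit 2597) (.e (nat_lit 163903) (nat_lit 12) (.e (nat_lit 426568) (nat_lit 34) (.e (nat_lit 393270) (nat_lit 23) (.e (nat_lit 426438) (nat_lit 18) (.e (nat_lit 98335) (nat_lit 18) (.e (nat_lit 164327) (nat_lit 230) .nil)))))) (.g (nat_lit 1) (.e (nat_lit 154004) (nat_lit 0) .nil) .nil)))))))) 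
(.nd (nat_lit 5) (.nd (nat_lit 6) (.nd (nat_lit 7) (.nd (nat_lit 8) (.nd (nat_lit 9) 
(.lf (nat_lit 494608) (.g (nat_lit 1612) (.e (nat_lit 163886) (nat_lit 5) (.e (nat_lit 221190) (nat_lit 11) (.e (nat_lit 336075) (nat_lit 9) (.e (nat_lit 336443) (nat_lit 32) (.e (nat_lit 466969) (nat_lit 21) .nil))))) (.g (nat_lit 0) (.e (nat_lit 152082) (nat_lit 0) .nil) .nil))) 
(.lf (nat_lit 495120) (.g (nat_lit 2799) (.e (nat_lit 163902) (nat_lit 12) (.e (nat_lit 426567) (nat_lit 34) (.e (nat_lit 393268) (nat_lit 23) (.e (nat_lit 426438) (nat_lit 18) (.e (nat_lit 98334) (nat_lit 18) (.e (nat_lit 164332) (nat_lit 230) .nil)))))) (.g (nat_lit 1) (.e (nat_lit 153446) (nat_lit 0) .nil) .nil)))) (.nd (nat_lit 9) 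
(.lf (nat_lit 494864) (.g (nat_lit 2754) (.e (nat_lit 163902) (nat_lit 12) (.e (nat_lit 426438) (nat_lit 18) (.e (nat_lit 98373) (nat_lit 29) (.e (nat_lit 450565) (nat_lit 0) (.e (nat_lit 7936) (nat_lit 369) .nil))))) (.g (nat_lit 0) (.e (nat_lit 153144) (nat_lit 0) .nil) .nil))) 
(.lf (nat_lit 495376) (.g (nat_lit 2246) (.e (nat_lit 163903) (nat_lit 12) (.e (nat_lit 426478) (nat_lit 27) (.e (nat_lit 336386) (nat_lit 27) (.e (nat_lit 426188) (nat_lit 9) (.e (nat_lit 426436) (nat_lit 18) (.e (nat_lit 98335) (nat_lit 18) (.e (nat_lit 164327) (nat_lit 230) .nil))))))) (.g (nat_lit 1) (.e (nat_lit 153780) (nat_lit 0) .nil) .nil))))) (.nd (nat_lit 8) (.nd (nat_lit 9) 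
(.lf (nat_lit 494736) (.g (nat_lit 3966) (.e (nat_lit 163900) (nat_lit 12) (.e (nat_lit 426140) (nat_lit 3) (.e (nat_lit 204869) (nat_lit 29) (.e (nat_lit 360475) (nat_lit 8) (.e (nat_lit 557091) (nat_lit 12) (.e (nat_lit 163844) (nat_lit 0) (.e (nat_lit 6420) (nat_lit 341) .nil))))))) (.g (nat_lit 1) (.e (nat_lit 152874) (nat_lit 0) .nil) .nil))) 
(.lf (nat_lit 495248) (.g (nat_lit 3979) (.e (nat_lit 163902) (nat_lit 12) (.e (nat_lit 426568) (nat_lit 34) (.e (nat_lit 393291) (nat_lit 26) (.e (nat_lit 475179) (nat_lit 24) (.e (nat_lit 516120) (nat_lit 1) (.e (nat_lit 164332) (nat_lit 230) .nil)))))) (.g (nat_lit 1) (.e (nat_lit 153594) (nat_lit 0) .nil) .nil)))) (.nd (nat_lit 9) 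
(.lf (nat_lit 494992) (.g (nat_lit 3308) (.e (nat_lit 163902) (nat_lit 12) (.e (nat_lit 426566) (nat_lit 34) (.e (nat_lit 393270) (nat_lit 23) (.e (nat_lit 426438) (nat_lit 18) (.e (nat_lit 98335) (nat_lit 18) (.e (nat_lit 164324) (nat_lit 230) .nil)))))) (.g (nat_lit 1) (.e (nat_lit 153316) (nat_lit 0) .nil) .nil))) 
(.lf (nat_lit 495504) (.g (nat_lit 2340) (.e (nat_lit 163903) (nat_lit 12) (.e (nat_lit 426566) (nat_lit 34) (.e (nat_lit 393286) (nat_lit 25) (.e (nat_lit 458789) (nat_lit 23) (.e (nat_lit 532503) (nat_lit 1) (.e (nat_lit 57687) (nat_lit 156) .nil)))))) (.g (nat_lit 1) (.e (nat_lit 153921) (nat_lit 0) .nil) .nil)))))) (.nd (nat_lit 7) (.nd (nat_lit 8) (.nd (nat_lit 9) 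
(.lf (nat_lit 494672) (.g (nat_lit 1793) (.e (nat_lit 163896) (nat_lit 10) (.e (nat_lit 409602) (nat_lit 0) (.e (nat_lit 5293) (nat_lit 298) (.e (nat_lit 1423) (nat_lit 108) (.e (nat_lit 336430) (nat_lit 29) .nil))))) (.g (nat_lit 0) (.e (nat_lit 152352) (nat_lit 0) .nil) .nil))) 
(.lf (nat_lit 495184) (.g (nat_lit 2665) (.e (nat_lit 163902) (nat_lit 12) (.e (nat_lit 426568) (nat_lit 34) (.e (nat_lit 393271) (nat_lit 23) (.e (nat_lit 426438) (nat_lit 18) (.e (nat_lit 98334) (nat_lit 18) (.e (nat_lit 164322) (nat_lit 230) .nil)))))) (.g (nat_lit 1) (.e (nat_lit 153519) (nat_lit 0) .nil) .nil)))) (.nd (nat_lit 9) 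
(.lf (nat_lit 494928) (.g (nat_lit 2671) (.e (nat_lit 163902) (nat_lit 12) (.e (nat_lit 426481) (nat_lit 27) (.e (nat_lit 336389) (nat_lit 27) (.e (nat_lit 426308) (nat_lit 12) (.e (nat_lit 475175) (nat_lit 24) (.e (nat_lit 516116) (nat_lit 1) (.e (nat_lit 164329) (nat_lit 230) .nil))))))) (.g (nat_lit 1) (.e (nat_lit 153226) (nat_lit 0) .nil) .nil))) 
(.lf (nat_lit 495440) (.g (nat_lit 2407) (.e (nat_lit 163903) (nat_lit 12) (.e (nat_lit 426538) (nat_lit 29) (.e (nat_lit 352315) (nat_lit 23) (.e (nat_lit 98313) (nat_lit 9) (.e (nat_lit 335988) (nat_lit 1) (.e (nat_lit 57926) (nat_lit 282) .nil)))))) (.g (nat_lit 1) (.e (nat_lit 153854) (nat_lit 0) .nil) .nil))))) (.nd (nat_lit 8) (.nd (nat_lit 9) 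
(.lf (nat_lit 494800) (.g (nat_lit 2320) (.e (nat_lit 163902) (nat_lit 12) (.e (nat_lit 426432) (nat_lit 17) (.e (nat_lit 90178) (nat_lit 15) (.e (nat_lit 188421) (nat_lit 11) (.e (nat_lit 335995) (nat_lit 1) (.e (nat_lit 57688) (nat_lit 156) .nil)))))) (.g (nat_lit 1) (.e (nat_lit 153072) (nat_lit 0) .nil) .nil))) 
(.lf (nat_lit 495312) (.g (nat_lit 1958) (.e (nat_lit 163903) (nat_lit 12) (.e (nat_lit 426428) (nat_lit 17) (.e (nat_lit 90170) (nat_lit 13) (.e (nat_lit 172113) (nat_lit 10) (.e (nat_lit 434199) (nat_lit 18) .nil))))) (.g (nat_lit 0) (.e (nat_lit 153707) (nat_lit 0) .nil) .nil)))) (.nd (nat_lit 9) 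
(.lf (nat_lit 495056) (.g (nat_lit 3938) (.e (nat_lit 163902) (nat_lit 12) (.e (nat_lit 426566) (nat_lit 34) (.e (nat_lit 393291) (nat_lit 26) (.e (nat_lit 475179) (nat_lit 24) (.e (nat_lit 516120) (nat_lit 1) (.e (nat_lit 164330) (nat_lit 230) .nil)))))) (.g (nat_lit 1) (.e (nat_lit 153381) (nat_lit 0) .nil) .nil))) 
(.lf (nat_lit 495568) (.g (nat_lit 1565) (.e (nat_lit 163903) (nat_lit 12) (.e (nat_lit 426568) (nat_lit 34) (.e (nat_lit 393234) (nat_lit 17) (.e (nat_lit 7376) (nat_lit 389) .nil)))) (.g (nat_lit 0) (.e (nat_lit 153986) (nat_lit 0) .nil) .nil))))))) (.nd (nat_lit 6) (.nd (nat_lit 7) (.nd (nat_lit 8) (.nd (nat_lit 9) 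
(.lf (nat_lit 494640) (.g (nat_lit 2792) (.e (nat_lit 163886) (nat_lit 5) (.e (nat_lit 221194) (nat_lit 11) (.e (nat_lit 336075) (nat_lit 9) (.e (nat_lit 336443) (nat_lit 32) (.e (nat_lit 466971) (nat_lit 21) (.e (nat_lit 164324) (nat_lit 230) .nil)))))) (.g (nat_lit 1) (.e (nat_lit 152116) (nat_lit 0) .nil) .nil))) 
(.lf (nat_lit 495152) (.g (nat_lit 2159) (.e (nat_lit 163902) (nat_lit 12) (.e (nat_lit 426568) (nat_lit 34) (.e (nat_lit 393269) (nat_lit 23) (.e (nat_lit 426436) (nat_lit 18) (.e (nat_lit 98334) (nat_lit 18) (.e (nat_lit 164329) (nat_lit 230) .nil)))))) (.g (nat_lit 1) (.e (nat_lit 153487) (nat_lit 0) .nil) .nil)))) (.nd (nat_lit 9) 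
(.lf (nat_lit 494896) (.g (nat_lit 2345) (.e (nat_lit 163902) (nat_lit 12) (.e (nat_lit 426478) (nat_lit 27) (.e (nat_lit 336389) (nat_lit 27) (.e (nat_lit 426308) (nat_lit 12) (.e (nat_lit 475175) (nat_lit 24) .nil))))) (.g (nat_lit 0) (.e (nat_lit 153177) (nat_lit 0) .nil) .nil))) 
(.lf (nat_lit 495408) (.g (nat_lit 2583) (.e (nat_lit 163903) (nat_lit 12) (.e (nat_lit 426479) (nat_lit 27) (.e (nat_lit 336434) (nat_lit 30) (.e (nat_lit 450579) (nat_lit 5) (.e (nat_lit 532504) (nat_lit 1) (.e (nat_lit 57685) (nat_lit 156) .nil)))))) (.g (nat_lit 1) (.e (nat_lit 153815) (nat_lit 0) .nil) .nil))))) (.nd (nat_lit 8) (.nd (nat_lit 9) 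
(.lf (nat_lit 494768) (.g (nat_lit 2112) (.e (nat_lit 163901) (nat_lit 12) (.e (nat_lit 426566) (nat_lit 34) (.e (nat_lit 393294) (nat_lit 26) (.e (nat_lit 475177) (nat_lit 24) (.e (nat_lit 516117) (nat_lit 1) .nil))))) (.g (nat_lit 0) (.e (nat_lit 152980) (nat_lit 0) .nil) .nil))) 
(.lf (nat_lit 495280) (.g (nat_lit 4262) (.e (nat_lit 163902) (nat_lit 12) (.e (nat_lit 426568) (nat_lit 34) (.e (nat_lit 393294) (nat_lit 26) (.e (nat_lit 475177) (nat_lit 24) (.e (nat_lit 516115) (nat_lit 1) (.e (nat_lit 164332) (nat_lit 230) .nil)))))) (.g (nat_lit 1) (.e (nat_lit 153626) (nat_lit 0) .nil) .nil)))) (.nd (nat_lit 9) 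
(.lf (nat_lit 495024) (.g (nat_lit 1717) (.e (nat_lit 163902) (nat_lit 12) (.e (nat_lit 426566) (nat_lit 34) (.e (nat_lit 393282) (nat_lit 24) (.e (nat_lit 434233) (nat_lit 23) (.e (nat_lit 532502) (nat_lit 1) (.e (nat_lit 57688) (nat_lit 156) .nil)))))) (.g (nat_lit 1) (.e (nat_lit 153348) (nat_lit 0) .nil) .nil))) 
(.lf (nat_lit 495536) (.g (nat_lit 3495) (.e (nat_lit 163903) (nat_lit 12) (.e (nat_lit 426566) (nat_lit 34) (.e (nat_lit 393295) (nat_lit 26) (.e (nat_lit 475179) (nat_lit 24) (.e (nat_lit 516119) (nat_lit 1) (.e (nat_lit 164326) (nat_lit 230) .nil)))))) (.g (nat_lit 1) (.e (nat_lit 153954) (nat_lit 0) .nil) .nil)))))) (.nd (nat_lit 7) (.nd (nat_lit 8) (.nd (nat_lit 9) 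
(.lf (nat_lit 494704) (.g (nat_lit 4683) (.e (nat_lit 163900) (nat_lit 12) (.e (nat_lit 426125) (nat_lit 2) (.e (nat_lit 196666) (nat_lit 13) (.e (nat_lit 65617) (nat_lit 10) (.e (nat_lit 344133) (nat_lit 26) (.e (nat_lit 557089) (nat_lit 12) (.e (nat_lit 163843) (nat_lit 0) (.e (nat_lit 6421) (nat_lit 341) .nil)))))))) (.g (nat_lit 1) (.e (nat_lit 152824) (nat_lit 0) .nil) .nil))) 
(.lf (nat_lit 495216) (.g (nat_lit 2302) (.e (nat_lit 163902) (nat_lit 12) (.e (nat_lit 426568) (nat_lit 34) (.e (nat_lit 393284) (nat_lit 24) (.e (nat_lit 434233) (nat_lit 23) (.e (nat_lit 532502) (nat_lit 1) (.e (nat_lit 57686) (nat_lit 156) .nil)))))) (.g (nat_lit 1) (.e (nat_lit 153562) (nat_lit 0) .nil) .nil)))) (.nd (nat_lit 9) 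
(.lf (nat_lit 494960) (.g (nat_lit 1415) (.e (nat_lit 163902) (nat_lit 12) (.e (nat_lit 426555) (nat_lit 32) (.e (nat_lit 376865) (nat_lit 22) (.e (nat_lit 90157) (nat_lit 11) .nil)))) (.g (nat_lit 0) (.e (nat_lit 153270) (nat_lit 0) .nil) .nil))) 
(.lf (nat_lit 495472) (.g (nat_lit 3305) (.e (nat_lit 163903) (nat_lit 12) (.e (nat_lit 426566) (nat_lit 34) (.e (nat_lit 393268) (nat_lit 23) (.e (nat_lit 426438) (nat_lit 18) (.e (nat_lit 98333) (nat_lit 18) (.e (nat_lit 164327) (nat_lit 230) .nil)))))) (.g (nat_lit 1) (.e (nat_lit 153889) (nat_lit 0) .nil) .nil))))) (.nd (nat_lit 8) (.nd (nat_lit 9) 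
(.lf (nat_lit 494832) (.g (nat_lit 3133) (.e (nat_lit 163902) (nat_lit 12) (.e (nat_lit 426438) (nat_lit 18) (.e (nat_lit 98365) (nat_lit 26) (.e (nat_lit 426325) (nat_lit 13) (.e (nat_lit 483363) (nat_lit 18) (.e (nat_lit 57686) (nat_lit 156) .nil)))))) (.g (nat_lit 1) (.e (nat_lit 153112) (nat_lit 0) .nil) .nil))) 
(.lf (nat_lit 495344) (.g (nat_lit 2077) (.e (nat_lit 163903) (nat_lit 12) (.e (nat_lit 426437) (nat_lit 18) (.e (nat_lit 98369) (nat_lit 28) (.e (nat_lit 442390) (nat_lit 11) (.e (nat_lit 335986) (nat_lit 1) (.e (nat_lit 57688) (nat_lit 156) .nil)))))) (.g (nat_lit 1) (.e (nat_lit 153741) (nat_lit 0) .nil) .nil)))) (.nd (nat_lit 9) 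
(.lf (nat_lit 495088) (.g (nat_lit 2280) (.e (nat_lit 163902) (nat_lit 12) (.e (nat_lit 426566) (nat_lit 34) (.e (nat_lit 393294) (nat_lit 26) (.e (nat_lit 475179) (nat_lit 24) (.e (nat_lit 516119) (nat_lit 1) (.e (nat_lit 164322) (nat_lit 230) .nil)))))) (.g (nat_lit 1) (.e (nat_lit 153413) (nat_lit 0) .nil) .nil))) 
(.lf (nat_lit 495600) (.g (nat_lit 3351) (.e (nat_lit 163903) (nat_lit 12) (.e (nat_lit 426568) (nat_lit 34) (.e (nat_lit 393271) (nat_lit 23) (.e (nat_lit 426438) (nat_lit 18) (.e (nat_lit 98335) (nat_lit 18) (.e (nat_lit 164324) (nat_lit 230) .nil)))))) (.g (nat_lit 1) (.e (nat_lit 154020) (nat_lit 0) .nil) .nil))))))))) 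
(.nd (nat_lit 4) (.nd (nat_lit 5) (.nd (nat_lit 6) (.nd (nat_lit 7) (.nd (nat_lit 8) 
(.nd (nat_lit 9) 
(.lf (nat_lit 494600) (.g (nat_lit 4245) (.e (nat_lit 163885) (nat_lit 5) (.e (nat_lit 221208) (nat_lit 21) (.e (nat_lit 164402) (nat_lit 256) (.e (nat_lit 57427) (nat_lit 15) (.e (nat_lit 360474) (nat_lit 8) (.e (nat_lit 557072) (nat_lit 9) (.e (nat_lit 2717) (nat_lit 171) (.e (nat_lit 229678) (nat_lit 244) .nil)))))))) (.g (nat_lit 1) (.e (nat_lit 152041) (nat_lit 0) .nil) .nil))) 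
(.lf (nat_lit 495112) (.g (nat_lit 3875) (.e (nat_lit 163902) (nat_lit 12) (.e (nat_lit 426566) (nat_lit 34) (.e (nat_lit 393296) (nat_lit 26) (.e (nat_lit 475178) (nat_lit 24) (.e (nat_lit 516120) (nat_lit 1) (.e (nat_lit 164330) (nat_lit 230) .nil)))))) (.g (nat_lit 1) (.e (nat_lit 153437) (nat_lit 0) .nil) .nil)))) (.nd (nat_lit 9) 
(.lf (nat_lit 494856) (.g (nat_lit 3146) (.e (nat_lit 163902) (nat_lit 12) (.e (nat_lit 426438) (nat_lit 18) (.e (nat_lit 98373) (nat_lit 29) (.e (nat_lit 450562) (nat_lit 0) (.e (nat_lit 7936) (nat_lit 369) (.e (nat_lit 163864) (nat_lit 1) (.e (nat_lit 164330) (nat_lit 230) .nil))))))) (.g (nat_lit 1) (.e (nat_lit 153136) (nat_lit 0) .nil) .nil))) 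
(.lf (nat_lit 495368) (.g (nat_lit 1565) (.e (nat_lit 163903) (nat_lit 12) (.e (nat_lit 426438) (nat_lit 18) (.e (nat_lit 98373) (nat_lit 29) (.e (nat_lit 458496) (nat_lit 26) .nil)))) (.g (nat_lit 0) (.e (nat_lit 153769) (nat_lit 0) .nil) .nil))))) (.nd (nat_lit 8) (.nd (nat_lit 9) 
(.lf (nat_lit 494728) (.g (nat_lit 3246) (.e (nat_lit 163900) (nat_lit 12) (.e (nat_lit 426140) (nat_lit 3) (.e (nat_lit 204869) (nat_lit 29) (.e (nat_lit 360475) (nat_lit 8) (.e (nat_lit 557089) (nat_lit 12) (.e (nat_lit 163843) (nat_lit 0) (.e (nat_lit 6416) (nat_lit 341) .nil))))))) (.g (nat_lit 1) (.e (nat_lit 152866) (nat_lit 0) .nil) .nil))) 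
(.lf (nat_lit 495240) (.g (nat_lit 3228) (.e (nat_lit 163902) (nat_lit 12) (.e (nat_lit 426568) (nat_lit 34) (.e (nat_lit 393291) (nat_lit 26) (.e (nat_lit 475178) (nat_lit 24) (.e (nat_lit 516120) (nat_lit 1) (.e (nat_lit 164329) (nat_lit 230) .nil)))))) (.g (nat_lit 1) (.e (nat_lit 153586) (nat_lit 0) .nil) .nil)))) (.nd (nat_lit 9) 
(.lf (nat_lit 494984) (.g (nat_lit 3933) (.e (nat_lit 163902) (nat_lit 12) (.e (nat_lit 426566) (nat_lit 34) (.e (nat_lit 393269) (nat_lit 23) (.e (nat_lit 426436) (nat_lit 18) (.e (nat_lit 98335) (nat_lit 18) (.e (nat_lit 164332) (nat_lit 230) .nil)))))) (.g (nat_lit 1) (.e (nat_lit 153308) (nat_lit 0) .nil) .nil))) 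
(.lf (nat_lit 495496) (.g (nat_lit 3697) (.e (nat_lit 163903) (nat_lit 12) (.e (nat_lit 426566) (nat_lit 34) (.e (nat_lit 393273) (nat_lit 23) (.e (nat_lit 426438) (nat_lit 18) (.e (nat_lit 98335) (nat_lit 18) (.e (nat_lit 164324) (nat_lit 230) .nil)))))) (.g (nat_lit 1) (.e (nat_lit 153913) (nat_lit 0) .nil) .nil)))))) (.nd (nat_lit 7) (.nd (nat_lit 8) (.nd (nat_lit 9) 
(.lf (nat_lit 494664) (.g (nat_lit 3040) (.e (nat_lit 163892) (nat_lit 8) (.e (nat_lit 253992) (nat_lit 11) (.e (nat_lit 16425) (nat_lit 7) (.e (nat_lit 409648) (nat_lit 18) (.e (nat_lit 303137) (nat_lit 10) .nil))))) (.g (nat_lit 0) (.e (nat_lit 152203) (nat_lit 0) .nil) .nil))) 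
(.lf (nat_lit 495176) (.g (nat_lit 4385) (.e (nat_lit 163902) (nat_lit 12) (.e (nat_lit 426568) (nat_lit 34) (.e (nat_lit 393271) (nat_lit 23) (.e (nat_lit 426436) (nat_lit 18) (.e (nat_lit 98334) (nat_lit 18) (.e (nat_lit 164332) (nat_lit 230) .nil)))))) (.g (nat_lit 1) (.e (nat_lit 153511) (nat_lit 0) .nil) .nil)))) (.nd (nat_lit 9) 
(.lf (nat_lit 494920) (.g (nat_lit 2738) (.e (nat_lit 163902) (nat_lit 12) (.e (nat_lit 426479) (nat_lit 27) (.e (nat_lit 336443) (nat_lit 32) (.e (nat_lit 466979) (nat_lit 23) (.e (nat_lit 204829) (nat_lit 18) (.e (nat_lit 57686) (nat_lit 156) .nil)))))) (.g (nat_lit 1) (.e (nat_lit 153215) (nat_lit 0) .nil) .nil))) 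
(.lf (nat_lit 495432) (.g (nat_lit 2659) (.e (nat_lit 163903) (nat_lit 12) (.e (nat_lit 426481) (nat_lit 27) (.e (nat_lit 336388) (nat_lit 27) (.e (nat_lit 426306) (nat_lit 12) (.e (nat_lit 475177) (nat_lit 24) (.e (nat_lit 516119) (nat_lit 1) (.e (nat_lit 164327) (nat_lit 230) .nil))))))) (.g (nat_lit 1) (.e (nat_lit 153845) (nat_lit 0) .nil) .nil))))) (.nd (nat_lit 8) (.nd (nat_lit 9) 
(.lf (nat_lit 494792) (.g (nat_lit 2367) (.e (nat_lit 163902) (nat_lit 12) (.e (nat_lit 426428) (nat_lit 17) (.e (nat_lit 90170) (nat_lit 13) (.e (nat_lit 172124) (nat_lit 14) (.e (nat_lit 491584) (nat_lit 28) .nil))))) (.g (nat_lit 0) (.e (nat_lit 153063) (nat_lit 0) .nil) .nil))) 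
(.lf (nat_lit 495304) (.g (nat_lit 2937) (.e (nat_lit 163902) (nat_lit 12) (.e (nat_lit 426568) (nat_lit 34) (.e (nat_lit 393295) (nat_lit 26) (.e (nat_lit 475178) (nat_lit 24) (.e (nat_lit 516120) (nat_lit 1) (.e (nat_lit 164329) (nat_lit 230) .nil)))))) (.g (nat_lit 1) (.e (nat_lit 153650) (nat_lit 0) .nil) .nil)))) (.nd (nat_lit 9) 
(.lf (nat_lit 495048) (.g (nat_lit 2898) (.e (nat_lit 163902) (nat_lit 12) (.e (nat_lit 426566) (nat_lit 34) (.e (nat_lit 393291) (nat_lit 26) (.e (nat_lit 475177) (nat_lit 24) (.e (nat_lit 516120) (nat_lit 1) (.e (nat_lit 164329) (nat_lit 230) .nil)))))) (.g (nat_lit 1) (.e (nat_lit 153373) (nat_lit 0) .nil) .nil))) 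
(.lf (nat_lit 495560) (.g (nat_lit 2338) (.e (nat_lit 163903) (nat_lit 12) (.e (nat_lit 426567) (nat_lit 34) (.e (nat_lit 393294) (nat_lit 26) (.e (nat_lit 475177) (nat_lit 24) (.e (nat_lit 516118) (nat_lit 1) .nil))))) (.g (nat_lit 0) (.e (nat_lit 153978) (nat_lit 0) .nil) .nil))))))) (.nd (nat_lit 6) (.nd (nat_lit 7) (.nd (nat_lit 8) (.nd (nat_lit 9) 
(.lf (nat_lit 494632) (.g (nat_lit 759) (.e (nat_lit 163886) (nat_lit 5) (.e (nat_lit 221194) (nat_lit 11) (.e (nat_lit 336074) (nat_lit 9) .nil))) (.g (nat_lit 0) (.e (nat_lit 152108) (nat_lit 0) .nil) .nil))) 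
(.lf (nat_lit 495144) (.g (nat_lit 3629) (.e (nat_lit 163902) (nat_lit 12) (.e (nat_lit 426568) (nat_lit 34) (.e (nat_lit 393268) (nat_lit 23) (.e (nat_lit 426436) (nat_lit 18) (.e (nat_lit 98333) (nat_lit 18) (.e (nat_lit 164332) (nat_lit 230) .nil)))))) (.g (nat_lit 1) (.e (nat_lit 153479) (nat_lit 0) .nil) .nil)))) (.nd (nat_lit 9) 
(.lf (nat_lit 494888) (.g (nat_lit 2961) (.e (nat_lit 163902) (nat_lit 12) (.e (nat_lit 426472) (nat_lit 25) (.e (nat_lit 319534) (nat_lit 16) (.e (nat_lit 286756) (nat_lit 10) (.e (nat_lit 344093) (nat_lit 18) (.e (nat_lit 7291) (nat_lit 386) (.e (nat_lit 163864) (nat_lit 1) (.e (nat_lit 164332) (nat_lit 230) .nil)))))))) (.g (nat_lit 1) (.e (nat_lit 153169) (nat_lit 0) .nil) .nil))) 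
(.lf (nat_lit 495400) (.g (nat_lit 2530) (.e (nat_lit 163903) (nat_lit 12) (.e (nat_lit 426479) (nat_lit 27) (.e (nat_lit 336432) (nat_lit 30) (.e (nat_lit 450580) (nat_lit 5) (.e (nat_lit 532503) (nat_lit 1) (.e (nat_lit 57685) (nat_lit 156) .nil)))))) (.g (nat_lit 1) (.e (nat_lit 153807) (nat_lit 0) .nil) .nil))))) (.nd (nat_lit 8) (.nd (nat_lit 9) 
(.lf (nat_lit 494760) (.g (nat_lit 1119) (.e (nat_lit 163901) (nat_lit 12) (.e (nat_lit 426555) (nat_lit 32) (.e (nat_lit 376867) (nat_lit 23) (.e (nat_lit 98313) (nat_lit 9) .nil)))) (.g (nat_lit 0) (.e (nat_lit 152972) (nat_lit 0) .nil) .nil))) 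
(.lf (nat_lit 495272) (.g (nat_lit 2665) (.e (nat_lit 163902) (nat_lit 12) (.e (nat_lit 426568) (nat_lit 34) (.e (nat_lit 393294) (nat_lit 26) (.e (nat_lit 475175) (nat_lit 24) (.e (nat_lit 516119) (nat_lit 1) (.e (nat_lit 164322) (nat_lit 230) .nil)))))) (.g (nat_lit 1) (.e (nat_lit 153618) (nat_lit 0) .nil) .nil)))) (.nd (nat_lit 9) 
(.lf (nat_lit 495016) (.g (nat_lit 2914) (.e (nat_lit 163902) (nat_lit 12) (.e (nat_lit 426566) (nat_lit 34) (.e (nat_lit 393273) (nat_lit 23) (.e (nat_lit 426437) (nat_lit 18) (.e (nat_lit 98333) (nat_lit 18) (.e (nat_lit 164332) (nat_lit 230) .nil)))))) (.g (nat_lit 1) (.e (nat_lit 153340) (nat_lit 0) .nil) .nil))) 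
(.lf (nat_lit 495528) (.g (nat_lit 3361) (.e (nat_lit 163903) (nat_lit 12) (.e (nat_lit 426566) (nat_lit 34) (.e (nat_lit 393294) (nat_lit 26) (.e (nat_lit 475177) (nat_lit 24) (.e (nat_lit 516115) (nat_lit 1) (.e (nat_lit 164326) (nat_lit 230) .nil)))))) (.g (nat_lit 1) (.e (nat_lit 153946) (nat_lit 0) .nil) .nil)))))) (.nd (nat_lit 7) (.nd (nat_lit 8) (.nd (nat_lit 9) 
(.lf (nat_lit 494696) (.g (nat_lit 2819) (.e (nat_lit 163900) (nat_lit 12) (.e (nat_lit 426125) (nat_lit 2) (.e (nat_lit 196666) (nat_lit 13) (.e (nat_lit 65617) (nat_lit 10) (.e (nat_lit 344130) (nat_lit 26) (.e (nat_lit 557089) (nat_lit 12) (.e (nat_lit 163848) (nat_lit 0) (.e (nat_lit 6421) (nat_lit 341) .nil)))))))) (.g (nat_lit 1) (.e (nat_lit 152816) (nat_lit 0) .nil) .nil))) 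
(.lf (nat_lit 495208) (.g (nat_lit 3455) (.e (nat_lit 163902) (nat_lit 12) (.e (nat_lit 426568) (nat_lit 34) (.e (nat_lit 393283) (nat_lit 24) (.e (nat_lit 434231) (nat_lit 23) (.e (nat_lit 532500) (nat_lit 1) (.e (nat_lit 57685) (nat_lit 156) .nil)))))) (.g (nat_lit 1) (.e (nat_lit 153553) (nat_lit 0) .nil) .nil)))) (.nd (nat_lit 9) 
(.lf (nat_lit 494952) (.g (nat_lit 2620) (.e (nat_lit 163902) (nat_lit 12) (.e (nat_lit 426544) (nat_lit 30) (.e (nat_lit 360467) (nat_lit 3) (.e (nat_lit 516199) (nat_lit 26) (.e (nat_lit 335988) (nat_lit 1) (.e (nat_lit 57926) (nat_lit 282) .nil)))))) (.g (nat_lit 1) (.e (nat_lit 153250) (nat_lit 0) .nil) .nil))) 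
(.lf (nat_lit 495464) (.g (nat_lit 2557) (.e (nat_lit 163903) (nat_lit 12) (.e (nat_lit 426555) (nat_lit 32) (.e (nat_lit 376869) (nat_lit 23) (.e (nat_lit 98313) (nat_lit 9) (.e (nat_lit 335987) (nat_lit 1) (.e (nat_lit 57927) (nat_lit 282) .nil)))))) (.g (nat_lit 1) (.e (nat_lit 153880) (nat_lit 0) .nil) .nil))))) (.nd (nat_lit 8) (.nd (nat_lit 9) 
(.lf (nat_lit 494824) (.g (nat_lit 2862) (.e (nat_lit 163902) (nat_lit 12) (.e (nat_lit 426438) (nat_lit 18) (.e (nat_lit 98358) (nat_lit 26) (.e (nat_lit 426323) (nat_lit 13) (.e (nat_lit 483365) (nat_lit 18) (.e (nat_lit 57686) (nat_lit 156) .nil)))))) (.g (nat_lit 1) (.e (nat_lit 153104) (nat_lit 0) .nil) .nil))) 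
(.lf (nat_lit 495336) (.g (nat_lit 2406) (.e (nat_lit 163903) (nat_lit 12) (.e (nat_lit 426436) (nat_lit 18) (.e (nat_lit 98370) (nat_lit 28) (.e (nat_lit 442385) (nat_lit 11) (.e (nat_lit 335995) (nat_lit 1) (.e (nat_lit 57688) (nat_lit 156) .nil)))))) (.g (nat_lit 1) (.e (nat_lit 153732) (nat_lit 0) .nil) .nil)))) (.nd (nat_lit 9) 
(.lf (nat_lit 495080) (.g (nat_lit 2438) (.e (nat_lit 163902) (nat_lit 12) (.e (nat_lit 426566) (nat_lit 34) (.e (nat_lit 393294) (nat_lit 26) (.e (nat_lit 475177) (nat_lit 24) (.e (nat_lit 516119) (nat_lit 1) (.e (nat_lit 164332) (nat_lit 230) .nil)))))) (.g (nat_lit 1) (.e (nat_lit 153405) (nat_lit 0) .nil) .nil))) 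
(.lf (nat_lit 495592) (.g (nat_lit 3027) (.e (nat_lit 163903) (nat_lit 12) (.e (nat_lit 426568) (nat_lit 34) (.e (nat_lit 393271) (nat_lit 23) (.e (nat_lit 426432) (nat_lit 17) (.e (nat_lit 90130) (nat_lit 9) .nil))))) (.g (nat_lit 0) (.e (nat_lit 154012) (nat_lit 0) .nil) .nil)))))))) (.nd (nat_lit 5) (.nd (nat_lit 6) (.nd (nat_lit 7) (.nd (nat_lit 8) (.nd (nat_lit 9) 
(.lf (nat_lit 494616) (.g (nat_lit 1985) (.e (nat_lit 163886) (nat_lit 5) (.e (nat_lit 221190) (nat_lit 11) (.e (nat_lit 336078) (nat_lit 9) (.e (nat_lit 336443) (nat_lit 32) (.e (nat_lit 466969) (nat_lit 21) (.e (nat_lit 164325) (nat_lit 230) .nil)))))) (.g (nat_lit 1) (.e (nat_lit 152090) (nat_lit 0) .nil) .nil))) 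
(.lf (nat_lit 495128) (.g (nat_lit 2757) (.e (nat_lit 163902) (nat_lit 12) (.e (nat_lit 426567) (nat_lit 34) (.e (nat_lit 393294) (nat_lit 26) (.e (nat_lit 475177) (nat_lit 24) (.e (nat_lit 516120) (nat_lit 1) (.e (nat_lit 164330) (nat_lit 230) .nil)))))) (.g (nat_lit 1) (.e (nat_lit 153454) (nat_lit 0) .nil) .nil)))) (.nd (nat_lit 9) 
(.lf (nat_lit 494872) (.g (nat_lit 447) (.e (nat_lit 163902) (nat_lit 12) (.e (nat_lit 426438) (nat_lit 18) (.e (nat_lit 98374) (nat_lit 29) .nil))) (.g (nat_lit 0) (.e (nat_lit 153153) (nat_lit 0) .nil) .nil))) 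
(.lf (nat_lit 495384) (.g (nat_lit 2385) (.e (nat_lit 163903) (nat_lit 12) (.e (nat_lit 426478) (nat_lit 27) (.e (nat_lit 336389) (nat_lit 27) (.e (nat_lit 426308) (nat_lit 12) (.e (nat_lit 475177) (nat_lit 24) (.e (nat_lit 516119) (nat_lit 1) (.e (nat_lit 164326) (nat_lit 230) .nil))))))) (.g (nat_lit 1) (.e (nat_lit 153788) (nat_lit 0) .nil) .nil))))) (.nd (nat_lit 8) (.nd (nat_lit 9) 
(.lf (nat_lit 494744) (.g (nat_lit 2435) (.e (nat_lit 163900) (nat_lit 12) (.e (nat_lit 426317) (nat_lit 12) (.e (nat_lit 475211) (nat_lit 41) (.e (nat_lit 712755) (nat_lit 30) (.e (nat_lit 450569) (nat_lit 0) (.e (nat_lit 5599) (nat_lit 310) .nil)))))) (.g (nat_lit 1) (.e (nat_lit 152891) (nat_lit 0) .nil) .nil))) 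
(.lf (nat_lit 495256) (.g (nat_lit 2771) (.e (nat_lit 163902) (nat_lit 12) (.e (nat_lit 426568) (nat_lit 34) (.e (nat_lit 393292) (nat_lit 26) (.e (nat_lit 475179) (nat_lit 24) (.e (nat_lit 516120) (nat_lit 1) (.e (nat_lit 164329) (nat_lit 230) .nil)))))) (.g (nat_lit 1) (.e (nat_lit 153602) (nat_lit 0) .nil) .nil)))) (.nd (nat_lit 9) 
(.lf (nat_lit 495000) (.g (nat_lit 2386) (.e (nat_lit 163902) (nat_lit 12) (.e (nat_lit 426566) (nat_lit 34) (.e (nat_lit 393271) (nat_lit 23) (.e (nat_lit 426436) (nat_lit 18) (.e (nat_lit 98332) (nat_lit 18) .nil))))) (.g (nat_lit 0) (.e (nat_lit 153324) (nat_lit 0) .nil) .nil))) 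
(.lf (nat_lit 495512) (.g (nat_lit 2294) (.e (nat_lit 163903) (nat_lit 12) (.e (nat_lit 426566) (nat_lit 34) (.e (nat_lit 393291) (nat_lit 26) (.e (nat_lit 475175) (nat_lit 24) (.e (nat_lit 516119) (nat_lit 1) (.e (nat_lit 164326) (nat_lit 230) .nil)))))) (.g (nat_lit 1) (.e (nat_lit 153929) (nat_lit 0) .nil) .nil)))))) (.nd (nat_lit 7) (.nd (nat_lit 8) (.nd (nat_lit 9) 
(.lf (nat_lit 494680) (.g (nat_lit 1793) (.e (nat_lit 163896) (nat_lit 10) (.e (nat_lit 409602) (nat_lit 0) (.e (nat_lit 5293) (nat_lit 298) (.e (nat_lit 1656) (nat_lit 115) (.e (nat_lit 393289) (nat_lit 25) .nil))))) (.g (nat_lit 0) (.e (nat_lit 152360) (nat_lit 0) .nil) .nil))) 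
(.lf (nat_lit 495192) (.g (nat_lit 2884) (.e (nat_lit 163902) (nat_lit 12) (.e (nat_lit 426568) (nat_lit 34) (.e (nat_lit 393279) (nat_lit 23) (.e (nat_lit 426129) (nat_lit 3) (.e (nat_lit 204829) (nat_lit 18) (.e (nat_lit 57686) (nat_lit 156) .nil)))))) (.g (nat_lit 1) (.e (nat_lit 153528) (nat_lit 0) .nil) .nil)))) (.nd (nat_lit 9) 
(.lf (nat_lit 494936) (.g (nat_lit 2196) (.e (nat_lit 163902) (nat_lit 12) (.e (nat_lit 426484) (nat_lit 27) (.e (nat_lit 336409) (nat_lit 27) (.e (nat_lit 426315) (nat_lit 12) (.e (nat_lit 475178) (nat_lit 24) (.e (nat_lit 516117) (nat_lit 1) (.e (nat_lit 164329) (nat_lit 230) .nil))))))) (.g (nat_lit 1) (.e (nat_lit 153234) (nat_lit 0) .nil) .nil))) 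
(.lf (nat_lit 495448) (.g (nat_lit 2106) (.e (nat_lit 163903) (nat_lit 12) (.e (nat_lit 426544) (nat_lit 30) (.e (nat_lit 360467) (nat_lit 3) (.e (nat_lit 516199) (nat_lit 26) (.e (nat_lit 335986) (nat_lit 1) (.e (nat_lit 57927) (nat_lit 282) .nil)))))) (.g (nat_lit 1) (.e (nat_lit 153862) (nat_lit 0) .nil) .nil))))) (.nd (nat_lit 8) (.nd (nat_lit 9) 
(.lf (nat_lit 494808) (.g (nat_lit 3393) (.e (nat_lit 163902) (nat_lit 12) (.e (nat_lit 426436) (nat_lit 18) (.e (nat_lit 98358) (nat_lit 26) (.e (nat_lit 426323) (nat_lit 13) (.e (nat_lit 483365) (nat_lit 18) (.e (nat_lit 57688) (nat_lit 156) .nil)))))) (.g (nat_lit 1) (.e (nat_lit 153082) (nat_lit 0) .nil) .nil))) 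
(.lf (nat_lit 495320) (.g (nat_lit 1309) (.e (nat_lit 163903) (nat_lit 12) (.e (nat_lit 426428) (nat_lit 17) (.e (nat_lit 90176) (nat_lit 15) (.e (nat_lit 188421) (nat_lit 11) .nil)))) (.g (nat_lit 0) (.e (nat_lit 153715) (nat_lit 0) .nil) .nil)))) (.nd (nat_lit 9) 
(.lf (nat_lit 495064) (.g (nat_lit 3246) (.e (nat_lit 163902) (nat_lit 12) (.e (nat_lit 426566) (nat_lit 34) (.e (nat_lit 393293) (nat_lit 26) (.e (nat_lit 475177) (nat_lit 24) (.e (nat_lit 516115) (nat_lit 1) (.e (nat_lit 164331) (nat_lit 230) .nil)))))) (.g (nat_lit 1) (.e (nat_lit 153389) (nat_lit 0) .nil) .nil))) 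
(.lf (nat_lit 495576) (.g (nat_lit 3094) (.e (nat_lit 163903) (nat_lit 12) (.e (nat_lit 426568) (nat_lit 34) (.e (nat_lit 393268) (nat_lit 23) (.e (nat_lit 426438) (nat_lit 18) (.e (nat_lit 98335) (nat_lit 18) (.e (nat_lit 164326) (nat_lit 230) .nil)))))) (.g (nat_lit 1) (.e (nat_lit 153996) (nat_lit 0) .nil) .nil))))))) (.nd (nat_lit 6) (.nd (nat_lit 7) (.nd (nat_lit 8) (.nd (nat_lit 9) 
(.lf (nat_lit 494648) (.g (nat_lit 1237) (.e (nat_lit 163886) (nat_lit 5) (.e (nat_lit 221207) (nat_lit 21) (.e (nat_lit 164179) (nat_lit 154) (.e (nat_lit 57365) (nat_lit 1) .nil)))) (.g (nat_lit 0) (.e (nat_lit 152127) (nat_lit 0) .nil) .nil))) 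
(.lf (nat_lit 495160) (.g (nat_lit 2574) (.e (nat_lit 163902) (nat_lit 12) (.e (nat_lit 426568) (nat_lit 34) (.e (nat_lit 393270) (nat_lit 23) (.e (nat_lit 426438) (nat_lit 18) (.e (nat_lit 98335) (nat_lit 18) (.e (nat_lit 164330) (nat_lit 230) .nil)))))) (.g (nat_lit 1) (.e (nat_lit 153495) (nat_lit 0) .nil) .nil)))) (.nd (nat_lit 9) 
(.lf (nat_lit 494904) (.g (nat_lit 2059) (.e (nat_lit 163902) (nat_lit 12) (.e (nat_lit 426479) (nat_lit 27) (.e (nat_lit 336383) (nat_lit 27) (.e (nat_lit 426198) (nat_lit 9) (.e (nat_lit 426436) (nat_lit 18) (.e (nat_lit 98335) (nat_lit 18) (.e (nat_lit 164329) (nat_lit 230) .nil))))))) (.g (nat_lit 1) (.e (nat_lit 153185) (nat_lit 0) .nil) .nil))) 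
(.lf (nat_lit 495416) (.g (nat_lit 2327) (.e (nat_lit 163903) (nat_lit 12) (.e (nat_lit 426481) (nat_lit 27) (.e (nat_lit 336386) (nat_lit 27) (.e (nat_lit 426306) (nat_lit 12) (.e (nat_lit 475177) (nat_lit 24) (.e (nat_lit 516118) (nat_lit 1) (.e (nat_lit 164327) (nat_lit 230) .nil))))))) (.g (nat_lit 1) (.e (nat_lit 153829) (nat_lit 0) .nil) .nil))))) (.nd (nat_lit 8) (.nd (nat_lit 9) 
(.lf (nat_lit 494776) (.g (nat_lit 2657) (.e (nat_lit 163902) (nat_lit 12) (.e (nat_lit 426131) (nat_lit 3) (.e (nat_lit 204855) (nat_lit 26) (.e (nat_lit 336176) (nat_lit 10) (.e (nat_lit 344132) (nat_lit 26) .nil))))) (.g (nat_lit 0) (.e (nat_lit 152988) (nat_lit 0) .nil) .nil))) 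
(.lf (nat_lit 495288) (.g (nat_lit 3665) (.e (nat_lit 163902) (nat_lit 12) (.e (nat_lit 426568) (nat_lit 34) (.e (nat_lit 393294) (nat_lit 26) (.e (nat_lit 475177) (nat_lit 24) (.e (nat_lit 516119) (nat_lit 1) (.e (nat_lit 164322) (nat_lit 230) .nil)))))) (.g (nat_lit 1) (.e (nat_lit 153634) (nat_lit 0) .nil) .nil)))) (.nd (nat_lit 9) 
(.lf (nat_lit 495032) (.g (nat_lit 2983) (.e (nat_lit 163902) (nat_lit 12) (.e (nat_lit 426566) (nat_lit 34) (.e (nat_lit 393287) (nat_lit 25) (.e (nat_lit 458789) (nat_lit 23) (.e (nat_lit 532502) (nat_lit 1) (.e (nat_lit 57688) (nat_lit 156) .nil)))))) (.g (nat_lit 1) (.e (nat_lit 153356) (nat_lit 0) .nil) .nil))) 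
(.lf (nat_lit 495544) (.g (nat_lit 3286) (.e (nat_lit 163903) (nat_lit 12) (.e (nat_lit 426566) (nat_lit 34) (.e (nat_lit 393296) (nat_lit 26) (.e (nat_lit 475178) (nat_lit 24) (.e (nat_lit 516106) (nat_lit 0) (.e (nat_lit 2478) (nat_lit 157) (.e (nat_lit 5224) (nat_lit 296) .nil))))))) (.g (nat_lit 1) (.e (nat_lit 153962) (nat_lit 0) .nil) .nil)))))) 
(.nd (nat_lit 7) (.nd (nat_lit 8) (.nd (nat_lit 9) 
(.lf (nat_lit 494712) (.g (nat_lit 3590) (.e (nat_lit 163900) (nat_lit 12) (.e (nat_lit 426140) (nat_lit 3) (.e (nat_lit 204868) (nat_lit 29) (.e (nat_lit 360473) (nat_lit 8) (.e (nat_lit 557089) (nat_lit 12) (.e (nat_lit 163843) (nat_lit 0) (.e (nat_lit 6421) (nat_lit 341) .nil))))))) (.g (nat_lit 1) (.e (nat_lit 152850) (nat_lit 0) .nil) .nil))) 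
(.lf (nat_lit 495224) (.g (nat_lit 1691) (.e (nat_lit 163902) (nat_lit 12) (.e (nat_lit 426568) (nat_lit 34) (.e (nat_lit 393290) (nat_lit 26) (.e (nat_lit 475178) (nat_lit 24) (.e (nat_lit 516117) (nat_lit 1) (.e (nat_lit 164329) (nat_lit 230) .nil)))))) (.g (nat_lit 1) (.e (nat_lit 153570) (nat_lit 0) .nil) .nil)))) (.nd (nat_lit 9) 
(.lf (nat_lit 494968) (.g (nat_lit 390) (.e (nat_lit 163902) (nat_lit 12) (.e (nat_lit 426555) (nat_lit 32) (.e (nat_lit 376869) (nat_lit 23) .nil))) (.g (nat_lit 0) (.e (nat_lit 153285) (nat_lit 0) .nil) .nil))) 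
(.lf (nat_lit 495480) (.g (nat_lit 2421) (.e (nat_lit 163903) (nat_lit 12) (.e (nat_lit 426566) (nat_lit 34) (.e (nat_lit 393270) (nat_lit 23) (.e (nat_lit 426438) (nat_lit 18) (.e (nat_lit 98335) (nat_lit 18) (.e (nat_lit 164326) (nat_lit 230) .nil)))))) (.g (nat_lit 1) (.e (nat_lit 153897) (nat_lit 0) .nil) .nil))))) (.nd (nat_lit 8) (.nd (nat_lit 9) 
(.lf (nat_lit 494840) (.g (nat_lit 1266) (.e (nat_lit 163902) (nat_lit 12) (.e (nat_lit 426438) (nat_lit 18) (.e (nat_lit 98372) (nat_lit 29) (.e (nat_lit 458496) (nat_lit 26) .nil)))) (.g (nat_lit 0) (.e (nat_lit 153120) (nat_lit 0) .nil) .nil))) 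
(.lf (nat_lit 495352) (.g (nat_lit 2027) (.e (nat_lit 163903) (nat_lit 12) (.e (nat_lit 426438) (nat_lit 18) (.e (nat_lit 98372) (nat_lit 29) (.e (nat_lit 450561) (nat_lit 0) (.e (nat_lit 6839) (nat_lit 369) .nil))))) (.g (nat_lit 0) (.e (nat_lit 153751) (nat_lit 0) .nil) .nil)))) (.nd (nat_lit 9) 
(.lf (nat_lit 495096) (.g (nat_lit 3047) (.e (nat_lit 163902) (nat_lit 12) (.e (nat_lit 426566) (nat_lit 34) (.e (nat_lit 393295) (nat_lit 26) (.e (nat_lit 475177) (nat_lit 24) (.e (nat_lit 516118) (nat_lit 1) (.e (nat_lit 164332) (nat_lit 230) .nil)))))) (.g (nat_lit 1) (.e (nat_lit 153421) (nat_lit 0) .nil) .nil))) 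
(.lf (nat_lit 495608) (.g (nat_lit 3353) (.e (nat_lit 163903) (nat_lit 12) (.e (nat_lit 426568) (nat_lit 34) (.e (nat_lit 393283) (nat_lit 24) (.e (nat_lit 434231) (nat_lit 23) (.e (nat_lit 532499) (nat_lit 1) (.e (nat_lit 57687) (nat_lit 156) .nil)))))) (.g (nat_lit 1) (.e (nat_lit 154028) (nat_lit 0) .nil) .nil)))))))))) 
(.nd (nat_lit 3) (.nd (nat_lit 4) (.nd (nat_lit 5) (.nd (nat_lit 6) (.nd (nat_lit 7) 
(.nd (nat_lit 8) (.nd (nat_lit 9) 
(.lf (nat_lit 494596) (.g (nat_lit 2883) (.e (nat_lit 163885) (nat_lit 5) (.e (nat_lit 221194) (nat_lit 11) (.e (nat_lit 336221) (nat_lit 13) (.e (nat_lit 393281) (nat_lit 23) (.e (nat_lit 426100) (nat_lit 1) (.e (nat_lit 164330) (nat_lit 230) .nil)))))) (.g (nat_lit 1) (.e (nat_lit 151992) (nat_lit 0) .nil) .nil))) 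
(.lf (nat_lit 495108) (.g (nat_lit 3412) (.e (nat_lit 163902) (nat_lit 12) (.e (nat_lit 426566) (nat_lit 34) (.e (nat_lit 393296) (nat_lit 26) (.e (nat_lit 475178) (nat_lit 24) (.e (nat_lit 516117) (nat_lit 1) (.e (nat_lit 164332) (nat_lit 230) .nil)))))) (.g (nat_lit 1) (.e (nat_lit 153433) (nat_lit 0) .nil) .nil)))) (.nd (nat_lit 9) 
(.lf (nat_lit 494852) (.g (nat_lit 2996) (.e (nat_lit 163902) (nat_lit 12) (.e (nat_lit 426438) (nat_lit 18) (.e (nat_lit 98373) (nat_lit 29) (.e (nat_lit 450562) (nat_lit 0) (.e (nat_lit 7936) (nat_lit 369) .nil))))) (.g (nat_lit 0) (.e (nat_lit 153132) (nat_lit 0) .nil) .nil))) 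
(.lf (nat_lit 495364) (.g (nat_lit 3480) (.e (nat_lit 163903) (nat_lit 12) (.e (nat_lit 426438) (nat_lit 18) (.e (nat_lit 98373) (nat_lit 29) (.e (nat_lit 450563) (nat_lit 0) (.e (nat_lit 6841) (nat_lit 369) .nil))))) (.g (nat_lit 0) (.e (nat_lit 153765) (nat_lit 0) .nil) .nil))))) (.nd (nat_lit 8) (.nd (nat_lit 9) 
(.lf (nat_lit 494724) (.g (nat_lit 2113) (.e (nat_lit 163900) (nat_lit 12) (.e (nat_lit 426140) (nat_lit 3) (.e (nat_lit 204869) (nat_lit 29) (.e (nat_lit 360474) (nat_lit 8) (.e (nat_lit 557094) (nat_lit 12) .nil))))) (.g (nat_lit 0) (.e (nat_lit 152862) (nat_lit 0) .nil) .nil))) 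
(.lf (nat_lit 495236) (.g (nat_lit 3239) (.e (nat_lit 163902) (nat_lit 12) (.e (nat_lit 426568) (nat_lit 34) (.e (nat_lit 393291) (nat_lit 26) (.e (nat_lit 475177) (nat_lit 24) (.e (nat_lit 516119) (nat_lit 1) (.e (nat_lit 164322) (nat_lit 230) .nil)))))) (.g (nat_lit 1) (.e (nat_lit 153582) (nat_lit 0) .nil) .nil)))) (.nd (nat_lit 9) 
(.lf (nat_lit 494980) (.g (nat_lit 1954) (.e (nat_lit 163902) (nat_lit 12) (.e (nat_lit 426566) (nat_lit 34) (.e (nat_lit 393268) (nat_lit 23) (.e (nat_lit 426428) (nat_lit 17) (.e (nat_lit 90165) (nat_lit 12) .nil))))) (.g (nat_lit 0) (.e (nat_lit 153304) (nat_lit 0) .nil) .nil))) 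
(.lf (nat_lit 495492) (.g (nat_lit 3015) (.e (nat_lit 163903) (nat_lit 12) (.e (nat_lit 426566) (nat_lit 34) (.e (nat_lit 393272) (nat_lit 23) (.e (nat_lit 426131) (nat_lit 3) (.e (nat_lit 204831) (nat_lit 18) (.e (nat_lit 57688) (nat_lit 156) .nil)))))) (.g (nat_lit 1) (.e (nat_lit 153909) (nat_lit 0) .nil) .nil)))))) (.nd (nat_lit 7) (.nd (nat_lit 8) (.nd (nat_lit 9) 
(.lf (nat_lit 494660) (.g (nat_lit 2029) (.e (nat_lit 163891) (nat_lit 8) (.e (nat_lit 253992) (nat_lit 11) (.e (nat_lit 16425) (nat_lit 7) (.e (nat_lit 409648) (nat_lit 18) .nil)))) (.g (nat_lit 0) (.e (nat_lit 152198) (nat_lit 0) .nil) .nil))) 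
(.lf (nat_lit 495172) (.g (nat_lit 4173) (.e (nat_lit 163902) (nat_lit 12) (.e (nat_lit 426568) (nat_lit 34) (.e (nat_lit 393271) (nat_lit 23) (.e (nat_lit 426436) (nat_lit 18) (.e (nat_lit 98333) (nat_lit 18) (.e (nat_lit 164332) (nat_lit 230) .nil)))))) (.g (nat_lit 1) (.e (nat_lit 153507) (nat_lit 0) .nil) .nil)))) (.nd (nat_lit 9) 
(.lf (nat_lit 494916) (.g (nat_lit 3139) (.e (nat_lit 163902) (nat_lit 12) (.e (nat_lit 426479) (nat_lit 27) (.e (nat_lit 336432) (nat_lit 30) (.e (nat_lit 450580) (nat_lit 5) (.e (nat_lit 532499) (nat_lit 1) (.e (nat_lit 57686) (nat_lit 156) .nil)))))) (.g (nat_lit 1) (.e (nat_lit 153203) (nat_lit 0) .nil) .nil))) 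
(.lf (nat_lit 495428) (.g (nat_lit 3106) (.e (nat_lit 163903) (nat_lit 12) (.e (nat_lit 426481) (nat_lit 27) (.e (nat_lit 336389) (nat_lit 27) (.e (nat_lit 426308) (nat_lit 12) (.e (nat_lit 475177) (nat_lit 24) (.e (nat_lit 516119) (nat_lit 1) (.e (nat_lit 164326) (nat_lit 230) .nil))))))) (.g (nat_lit 1) (.e (nat_lit 153841) (nat_lit 0) .nil) .nil))))) (.nd (nat_lit 8) (.nd (nat_lit 9) 
(.lf (nat_lit 494788) (.g (nat_lit 3196) (.e (nat_lit 163902) (nat_lit 12) (.e (nat_lit 426428) (nat_lit 17) (.e (nat_lit 90170) (nat_lit 13) (.e (nat_lit 172122) (nat_lit 13) (.e (nat_lit 483363) (nat_lit 18) (.e (nat_lit 57686) (nat_lit 156) .nil)))))) (.g (nat_lit 1) (.e (nat_lit 153059) (nat_lit 0) .nil) .nil))) 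
(.lf (nat_lit 495300) (.g (nat_lit 3675) (.e (nat_lit 163902) (nat_lit 12) (.e (nat_lit 426568) (nat_lit 34) (.e (nat_lit 393294) (nat_lit 26) (.e (nat_lit 475179) (nat_lit 24) (.e (nat_lit 516119) (nat_lit 1) (.e (nat_lit 164322) (nat_lit 230) .nil)))))) (.g (nat_lit 1) (.e (nat_lit 153646) (nat_lit 0) .nil) .nil)))) (.nd (nat_lit 9) 
(.lf (nat_lit 495044) (.g (nat_lit 3145) (.e (nat_lit 163902) (nat_lit 12) (.e (nat_lit 426566) (nat_lit 34) (.e (nat_lit 393291) (nat_lit 26) (.e (nat_lit 475177) (nat_lit 24) (.e (nat_lit 516116) (nat_lit 1) (.e (nat_lit 164329) (nat_lit 230) .nil)))))) (.g (nat_lit 1) (.e (nat_lit 153369) (nat_lit 0) .nil) .nil))) 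
(.lf (nat_lit 495556) (.g (nat_lit 2000) (.e (nat_lit 163903) (nat_lit 12) (.e (nat_lit 426567) (nat_lit 34) (.e (nat_lit 393291) (nat_lit 26) (.e (nat_lit 475177) (nat_lit 24) (.e (nat_lit 516118) (nat_lit 1) (.e (nat_lit 164324) (nat_lit 230) .nil)))))) (.g (nat_lit 1) (.e (nat_lit 153974) (nat_lit 0) .nil) .nil))))))) (.nd (nat_lit 6) (.nd (nat_lit 7) (.nd (nat_lit 8) (.nd (nat_lit 9) 
(.lf (nat_lit 494628) (.g (nat_lit 2347) (.e (nat_lit 163886) (nat_lit 5) (.e (nat_lit 221193) (nat_lit 11) (.e (nat_lit 336077) (nat_lit 9) (.e (nat_lit 336443) (nat_lit 32) (.e (nat_lit 466971) (nat_lit 21) (.e (nat_lit 164324) (nat_lit 230) .nil)))))) (.g (nat_lit 1) (.e (nat_lit 152102) (nat_lit 0) .nil) .nil))) 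
(.lf (nat_lit 495140) (.g (nat_lit 3085) (.e (nat_lit 163902) (nat_lit 12) (.e (nat_lit 426568) (nat_lit 34) (.e (nat_lit 393267) (nat_lit 23) (.e (nat_lit 426436) (nat_lit 18) (.e (nat_lit 98334) (nat_lit 18) (.e (nat_lit 164329) (nat_lit 230) .nil)))))) (.g (nat_lit 1) (.e (nat_lit 153475) (nat_lit 0) .nil) .nil)))) (.nd (nat_lit 9) 
(.lf (nat_lit 494884) (.g (nat_lit 3488) (.e (nat_lit 163902) (nat_lit 12) (.e (nat_lit 426472) (nat_lit 25) (.e (nat_lit 319534) (nat_lit 16) (.e (nat_lit 286749) (nat_lit 9) (.e (nat_lit 335997) (nat_lit 1) (.e (nat_lit 57686) (nat_lit 156) (.e (nat_lit 163864) (nat_lit 1) (.e (nat_lit 164332) (nat_lit 230) .nil)))))))) (.g (nat_lit 1) (.e (nat_lit 153165) (nat_lit 0) .nil) .nil))) 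
(.lf (nat_lit 495396) (.g (nat_lit 3188) (.e (nat_lit 163903) (nat_lit 12) (.e (nat_lit 426479) (nat_lit 27) (.e (nat_lit 336430) (nat_lit 29) (.e (nat_lit 442427) (nat_lit 23) (.e (nat_lit 204831) (nat_lit 18) (.e (nat_lit 57687) (nat_lit 156) .nil)))))) (.g (nat_lit 1) (.e (nat_lit 153803) (nat_lit 0) .nil) .nil))))) (.nd (nat_lit 8) (.nd (nat_lit 9) 
(.lf (nat_lit 494756) (.g (nat_lit 1990) (.e (nat_lit 163901) (nat_lit 12) (.e (nat_lit 426436) (nat_lit 18) (.e (nat_lit 98358) (nat_lit 26) (.e (nat_lit 426323) (nat_lit 13) .nil)))) (.g (nat_lit 0) (.e (nat_lit 152953) (nat_lit 0) .nil) .nil))) 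
(.lf (nat_lit 495268) (.g (nat_lit 3004) (.e (nat_lit 163902) (nat_lit 12) (.e (nat_lit 426568) (nat_lit 34) (.e (nat_lit 393293) (nat_lit 26) (.e (nat_lit 475179) (nat_lit 24) (.e (nat_lit 516120) (nat_lit 1) (.e (nat_lit 164329) (nat_lit 230) .nil)))))) (.g (nat_lit 1) (.e (nat_lit 153614) (nat_lit 0) .nil) .nil)))) (.nd (nat_lit 9) 
(.lf (nat_lit 495012) (.g (nat_lit 3200) (.e (nat_lit 163902) (nat_lit 12) (.e (nat_lit 426566) (nat_lit 34) (.e (nat_lit 393272) (nat_lit 23) (.e (nat_lit 426438) (nat_lit 18) (.e (nat_lit 98334) (nat_lit 18) (.e (nat_lit 164332) (nat_lit 230) .nil)))))) (.g (nat_lit 1) (.e (nat_lit 153336) (nat_lit 0) .nil) .nil))) 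
(.lf (nat_lit 495524) (.g (nat_lit 3091) (.e (nat_lit 163903) (nat_lit 12) (.e (nat_lit 426566) (nat_lit 34) (.e (nat_lit 393294) (nat_lit 26) (.e (nat_lit 475175) (nat_lit 24) (.e (nat_lit 516119) (nat_lit 1) (.e (nat_lit 164326) (nat_lit 230) .nil)))))) (.g (nat_lit 1) (.e (nat_lit 153942) (nat_lit 0) .nil) .nil)))))) (.nd (nat_lit 7) (.nd (nat_lit 8) (.nd (nat_lit 9) 
(.lf (nat_lit 494692) (.g (nat_lit 4591) (.e (nat_lit 163900) (nat_lit 12) (.e (nat_lit 426125) (nat_lit 2) (.e (nat_lit 196666) (nat_lit 13) (.e (nat_lit 65617) (nat_lit 10) (.e (nat_lit 344127) (nat_lit 26) (.e (nat_lit 557090) (nat_lit 12) (.e (nat_lit 163843) (nat_lit 0) (.e (nat_lit 6420) (nat_lit 341) .nil)))))))) (.g (nat_lit 1) (.e (nat_lit 152812) (nat_lit 0) .nil) .nil))) 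
(.lf (nat_lit 495204) (.g (nat_lit 3089) (.e (nat_lit 163902) (nat_lit 12) (.e (nat_lit 426568) (nat_lit 34) (.e (nat_lit 393282) (nat_lit 24) (.e (nat_lit 434231) (nat_lit 23) (.e (nat_lit 532502) (nat_lit 1) (.e (nat_lit 57688) (nat_lit 156) .nil)))))) (.g (nat_lit 1) (.e (nat_lit 153543) (nat_lit 0) .nil) .nil)))) (.nd (nat_lit 9) 
(.lf (nat_lit 494948) (.g (nat_lit 4018) (.e (nat_lit 163902) (nat_lit 12) (.e (nat_lit 426544) (nat_lit 30) (.e (nat_lit 360467) (nat_lit 3) (.e (nat_lit 516195) (nat_lit 26) (.e (nat_lit 335988) (nat_lit 1) (.e (nat_lit 57926) (nat_lit 282) .nil)))))) (.g (nat_lit 1) (.e (nat_lit 153246) (nat_lit 0) .nil) .nil))) 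
(.lf (nat_lit 495460) (.g (nat_lit 2517) (.e (nat_lit 163903) (nat_lit 12) (.e (nat_lit 426555) (nat_lit 32) (.e (nat_lit 376867) (nat_lit 23) (.e (nat_lit 98313) (nat_lit 9) (.e (nat_lit 335987) (nat_lit 1) (.e (nat_lit 57927) (nat_lit 282) .nil)))))) (.g (nat_lit 1) (.e (nat_lit 153876) (nat_lit 0) .nil) .nil))))) (.nd (nat_lit 8) (.nd (nat_lit 9) 
(.lf (nat_lit 494820) (.g (nat_lit 2433) (.e (nat_lit 163902) (nat_lit 12) (.e (nat_lit 426438) (nat_lit 18) (.e (nat_lit 98358) (nat_lit 26) (.e (nat_lit 426131) (nat_lit 3) (.e (nat_lit 204838) (nat_lit 20) (.e (nat_lit 114711) (nat_lit 21) (.e (nat_lit 65280) (nat_lit 144) .nil))))))) (.g (nat_lit 1) (.e (nat_lit 153100) (nat_lit 0) .nil) .nil))) 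
(.lf (nat_lit 495332) (.g (nat_lit 3459) (.e (nat_lit 163903) (nat_lit 12) (.e (nat_lit 426436) (nat_lit 18) (.e (nat_lit 98358) (nat_lit 26) (.e (nat_lit 426323) (nat_lit 13) (.e (nat_lit 483365) (nat_lit 18) (.e (nat_lit 57688) (nat_lit 156) .nil)))))) (.g (nat_lit 1) (.e (nat_lit 153728) (nat_lit 0) .nil) .nil)))) (.nd (nat_lit 9) 
(.lf (nat_lit 495076) (.g (nat_lit 3804) (.e (nat_lit 163902) (nat_lit 12) (.e (nat_lit 426566) (nat_lit 34) (.e (nat_lit 393294) (nat_lit 26) (.e (nat_lit 475177) (nat_lit 24) (.e (nat_lit 516115) (nat_lit 1) (.e (nat_lit 164331) (nat_lit 230) .nil)))))) (.g (nat_lit 1) (.e (nat_lit 153401) (nat_lit 0) .nil) .nil))) 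
(.lf (nat_lit 495588) (.g (nat_lit 3602) (.e (nat_lit 163903) (nat_lit 12) (.e (nat_lit 426568) (nat_lit 34) (.e (nat_lit 393271) (nat_lit 23) (.e (nat_lit 426131) (nat_lit 3) (.e (nat_lit 204831) (nat_lit 18) (.e (nat_lit 57686) (nat_lit 156) .nil)))))) (.g (nat_lit 1) (.e (nat_lit 154008) (nat_lit 0) .nil) .nil)))))))) 
(.nd (nat_lit 5) (.nd (nat_lit 6) (.nd (nat_lit 7) (.nd (nat_lit 8) (.nd (nat_lit 9) 
(.lf (nat_lit 494612) (.g (nat_lit 1703) (.e (nat_lit 163886) (nat_lit 5) (.e (nat_lit 221190) (nat_lit 11) (.e (nat_lit 336076) (nat_lit 9) (.e (nat_lit 336443) (nat_lit 32) (.e (nat_lit 466971) (nat_lit 21) (.e (nat_lit 164327) (nat_lit 230) .nil)))))) (.g (nat_lit 1) (.e (nat_lit 152086) (nat_lit 0) .nil) .nil))) 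
(.lf (nat_lit 495124) (.g (nat_lit 1827) (.e (nat_lit 163902) (nat_lit 12) (.e (nat_lit 426567) (nat_lit 34) (.e (nat_lit 393293) (nat_lit 26) (.e (nat_lit 475178) (nat_lit 24) (.e (nat_lit 516117) (nat_lit 1) (.e (nat_lit 164329) (nat_lit 230) .nil)))))) (.g (nat_lit 1) (.e (nat_lit 153450) (nat_lit 0) .nil) .nil)))) (.nd (nat_lit 9) 
(.lf (nat_lit 494868) (.g (nat_lit 2753) (.e (nat_lit 163902) (nat_lit 12) (.e (nat_lit 426438) (nat_lit 18) (.e (nat_lit 98373) (nat_lit 29) (.e (nat_lit 450569) (nat_lit 0) (.e (nat_lit 7936) (nat_lit 369) .nil))))) (.g (nat_lit 0) (.e (nat_lit 153148) (nat_lit 0) .nil) .nil))) 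
(.lf (nat_lit 495380) (.g (nat_lit 2261) (.e (nat_lit 163903) (nat_lit 12) (.e (nat_lit 426478) (nat_lit 27) (.e (nat_lit 336389) (nat_lit 27) (.e (nat_lit 426308) (nat_lit 12) (.e (nat_lit 475177) (nat_lit 24) .nil))))) (.g (nat_lit 0) (.e (nat_lit 153784) (nat_lit 0) .nil) .nil))))) (.nd (nat_lit 8) (.nd (nat_lit 9) 
(.lf (nat_lit 494740) (.g (nat_lit 1915) (.e (nat_lit 163900) (nat_lit 12) (.e (nat_lit 426317) (nat_lit 12) (.e (nat_lit 475199) (nat_lit 40) (.e (nat_lit 704598) (nat_lit 6) (.e (nat_lit 188453) (nat_lit 24) (.e (nat_lit 229680) (nat_lit 244) .nil)))))) (.g (nat_lit 1) (.e (nat_lit 152882) (nat_lit 0) .nil) .nil))) 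
(.lf (nat_lit 495252) (.g (nat_lit 2315) (.e (nat_lit 163902) (nat_lit 12) (.e (nat_lit 426568) (nat_lit 34) (.e (nat_lit 393292) (nat_lit 26) (.e (nat_lit 475177) (nat_lit 24) (.e (nat_lit 516120) (nat_lit 1) (.e (nat_lit 164332) (nat_lit 230) .nil)))))) (.g (nat_lit 1) (.e (nat_lit 153598) (nat_lit 0) .nil) .nil)))) (.nd (nat_lit 9) 
(.lf (nat_lit 494996) (.g (nat_lit 3329) (.e (nat_lit 163902) (nat_lit 12) (.e (nat_lit 426566) (nat_lit 34) (.e (nat_lit 393271) (nat_lit 23) (.e (nat_lit 426131) (nat_lit 3) (.e (nat_lit 204831) (nat_lit 18) (.e (nat_lit 57688) (nat_lit 156) .nil)))))) (.g (nat_lit 1) (.e (nat_lit 153320) (nat_lit 0) .nil) .nil))) 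
(.lf (nat_lit 495508) (.g (nat_lit 1915) (.e (nat_lit 163903) (nat_lit 12) (.e (nat_lit 426566) (nat_lit 34) (.e (nat_lit 393289) (nat_lit 25) (.e (nat_lit 458789) (nat_lit 23) (.e (nat_lit 532503) (nat_lit 1) (.e (nat_lit 57688) (nat_lit 156) .nil)))))) (.g (nat_lit 1) (.e (nat_lit 153925) (nat_lit 0) .nil) .nil)))))) (.nd (nat_lit 7) (.nd (nat_lit 8) (.nd (nat_lit 9) 
(.lf (nat_lit 494676) (.g (nat_lit 2228) (.e (nat_lit 163896) (nat_lit 10) (.e (nat_lit 409602) (nat_lit 0) (.e (nat_lit 5293) (nat_lit 298) (.e (nat_lit 1656) (nat_lit 115) (.e (nat_lit 393267) (nat_lit 23) .nil))))) (.g (nat_lit 0) (.e (nat_lit 152356) (nat_lit 0) .nil) .nil))) 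
(.lf (nat_lit 495188) (.g (nat_lit 3276) (.e (nat_lit 163902) (nat_lit 12) (.e (nat_lit 426568) (nat_lit 34) (.e (nat_lit 393271) (nat_lit 23) (.e (nat_lit 426438) (nat_lit 18) (.e (nat_lit 98335) (nat_lit 18) (.e (nat_lit 164329) (nat_lit 230) .nil)))))) (.g (nat_lit 1) (.e (nat_lit 153523) (nat_lit 0) .nil) .nil)))) (.nd (nat_lit 9) 
(.lf (nat_lit 494932) (.g (nat_lit 2335) (.e (nat_lit 163902) (nat_lit 12) (.e (nat_lit 426481) (nat_lit 27) (.e (nat_lit 336389) (nat_lit 27) (.e (nat_lit 426308) (nat_lit 12) (.e (nat_lit 475177) (nat_lit 24) (.e (nat_lit 516120) (nat_lit 1) (.e (nat_lit 164332) (nat_lit 230) .nil))))))) (.g (nat_lit 1) (.e (nat_lit 153230) (nat_lit 0) .nil) .nil))) 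
(.lf (nat_lit 495444) (.g (nat_lit 2436) (.e (nat_lit 163903) (nat_lit 12) (.e (nat_lit 426538) (nat_lit 29) (.e (nat_lit 352315) (nat_lit 23) (.e (nat_lit 98317) (nat_lit 9) (.e (nat_lit 335988) (nat_lit 1) (.e (nat_lit 57926) (nat_lit 282) .nil)))))) (.g (nat_lit 1) (.e (nat_lit 153858) (nat_lit 0) .nil) .nil))))) (.nd (nat_lit 8) (.nd (nat_lit 9) 
(.lf (nat_lit 494804) (.g (nat_lit 756) (.e (nat_lit 163902) (nat_lit 12) (.e (nat_lit 426436) (nat_lit 18) (.e (nat_lit 98353) (nat_lit 25) .nil))) (.g (nat_lit 0) (.e (nat_lit 153076) (nat_lit 0) .nil) .nil))) 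
(.lf (nat_lit 495316) (.g (nat_lit 3030) (.e (nat_lit 163903) (nat_lit 12) (.e (nat_lit 426428) (nat_lit 17) (.e (nat_lit 90170) (nat_lit 13) (.e (nat_lit 172122) (nat_lit 13) (.e (nat_lit 483363) (nat_lit 18) (.e (nat_lit 57688) (nat_lit 156) .nil)))))) (.g (nat_lit 1) (.e (nat_lit 153711) (nat_lit 0) .nil) .nil)))) (.nd (nat_lit 9) 
(.lf (nat_lit 495060) (.g (nat_lit 4329) (.e (nat_lit 163902) (nat_lit 12) (.e (nat_lit 426566) (nat_lit 34) (.e (nat_lit 393292) (nat_lit 26) (.e (nat_lit 475179) (nat_lit 24) (.e (nat_lit 516120) (nat_lit 1) (.e (nat_lit 164330) (nat_lit 230) .nil)))))) (.g (nat_lit 1) (.e (nat_lit 153385) (nat_lit 0) .nil) .nil))) 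
(.lf (nat_lit 495572) (.g (nat_lit 3854) (.e (nat_lit 163903) (nat_lit 12) (.e (nat_lit 426568) (nat_lit 34) (.e (nat_lit 393268) (nat_lit 23) (.e (nat_lit 426436) (nat_lit 18) (.e (nat_lit 98333) (nat_lit 18) (.e (nat_lit 164325) (nat_lit 230) .nil)))))) (.g (nat_lit 1) (.e (nat_lit 153992) (nat_lit 0) .nil) .nil))))))) (.nd (nat_lit 6) (.nd (nat_lit 7) (.nd (nat_lit 8) (.nd (nat_lit 9) 
(.lf (nat_lit 494644) (.g (nat_lit 1319) (.e (nat_lit 163886) (nat_lit 5) (.e (nat_lit 221194) (nat_lit 11) (.e (nat_lit 336086) (nat_lit 9) (.e (nat_lit 336444) (nat_lit 32) (.e (nat_lit 466971) (nat_lit 21) (.e (nat_lit 164325) (nat_lit 230) .nil)))))) (.g (nat_lit 1) (.e (nat_lit 152120) (nat_lit 0) .nil) .nil))) 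
(.lf (nat_lit 495156) (.g (nat_lit 3002) (.e (nat_lit 163902) (nat_lit 12) (.e (nat_lit 426568) (nat_lit 34) (.e (nat_lit 393270) (nat_lit 23) (.e (nat_lit 426436) (nat_lit 18) (.e (nat_lit 98334) (nat_lit 18) (.e (nat_lit 164332) (nat_lit 230) .nil)))))) (.g (nat_lit 1) (.e (nat_lit 153491) (nat_lit 0) .nil) .nil)))) (.nd (nat_lit 9) 
(.lf (nat_lit 494900) (.g (nat_lit 2663) (.e (nat_lit 163902) (nat_lit 12) (.e (nat_lit 426478) (nat_lit 27) (.e (nat_lit 336389) (nat_lit 27) (.e (nat_lit 426308) (nat_lit 12) (.e (nat_lit 475179) (nat_lit 24) (.e (nat_lit 516117) (nat_lit 1) (.e (nat_lit 164329) (nat_lit 230) .nil))))))) (.g (nat_lit 1) (.e (nat_lit 153181) (nat_lit 0) .nil) .nil))) 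
(.lf (nat_lit 495412) (.g (nat_lit 2313) (.e (nat_lit 163903) (nat_lit 12) (.e (nat_lit 426480) (nat_lit 27) (.e (nat_lit 336385) (nat_lit 27) (.e (nat_lit 426188) (nat_lit 9) (.e (nat_lit 426436) (nat_lit 18) (.e (nat_lit 98335) (nat_lit 18) (.e (nat_lit 164327) (nat_lit 230) .nil))))))) (.g (nat_lit 1) (.e (nat_lit 153819) (nat_lit 0) .nil) .nil))))) (.nd (nat_lit 8) (.nd (nat_lit 9) 
(.lf (nat_lit 494772) (.g (nat_lit 2090) (.e (nat_lit 163901) (nat_lit 12) (.e (nat_lit 426566) (nat_lit 34) (.e (nat_lit 393294) (nat_lit 26) (.e (nat_lit 475177) (nat_lit 24) (.e (nat_lit 516120) (nat_lit 1) (.e (nat_lit 164332) (nat_lit 230) .nil)))))) (.g (nat_lit 1) (.e (nat_lit 152984) (nat_lit 0) .nil) .nil))) 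
(.lf (nat_lit 495284) (.g (nat_lit 3051) (.e (nat_lit 163902) (nat_lit 12) (.e (nat_lit 426568) (nat_lit 34) (.e (nat_lit 393294) (nat_lit 26) (.e (nat_lit 475177) (nat_lit 24) (.e (nat_lit 516118) (nat_lit 1) (.e (nat_lit 164322) (nat_lit 230) .nil)))))) (.g (nat_lit 1) (.e (nat_lit 153630) (nat_lit 0) .nil) .nil)))) (.nd (nat_lit 9) 
(.lf (nat_lit 495028) (.g (nat_lit 3063) (.e (nat_lit 163902) (nat_lit 12) (.e (nat_lit 426566) (nat_lit 34) (.e (nat_lit 393286) (nat_lit 25) (.e (nat_lit 458789) (nat_lit 23) (.e (nat_lit 532499) (nat_lit 1) (.e (nat_lit 57688) (nat_lit 156) .nil)))))) (.g (nat_lit 1) (.e (nat_lit 153352) (nat_lit 0) .nil) .nil))) 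
(.lf (nat_lit 495540) (.g (nat_lit 2186) (.e (nat_lit 163903) (nat_lit 12) (.e (nat_lit 426566) (nat_lit 34) (.e (nat_lit 393296) (nat_lit 26) (.e (nat_lit 475176) (nat_lit 24) (.e (nat_lit 516119) (nat_lit 1) (.e (nat_lit 164324) (nat_lit 230) .nil)))))) (.g (nat_lit 1) (.e (nat_lit 153958) (nat_lit 0) .nil) .nil)))))) (.nd (nat_lit 7) (.nd (nat_lit 8) (.nd (nat_lit 9) 
(.lf (nat_lit 494708) (.g (nat_lit 2942) (.e (nat_lit 163900) (nat_lit 12) (.e (nat_lit 426125) (nat_lit 2) (.e (nat_lit 196666) (nat_lit 13) (.e (nat_lit 65617) (nat_lit 10) (.e (nat_lit 344133) (nat_lit 26) (.e (nat_lit 557089) (nat_lit 12) (.e (nat_lit 163849) (nat_lit 0) (.e (nat_lit 6418) (nat_lit 341) .nil)))))))) (.g (nat_lit 1) (.e (nat_lit 152828) (nat_lit 0) .nil) .nil))) 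
(.lf (nat_lit 495220) (.g (nat_lit 2536) (.e (nat_lit 163902) (nat_lit 12) (.e (nat_lit 426568) (nat_lit 34) (.e (nat_lit 393286) (nat_lit 25) (.e (nat_lit 458789) (nat_lit 23) (.e (nat_lit 532503) (nat_lit 1) (.e (nat_lit 57686) (nat_lit 156) .nil)))))) (.g (nat_lit 1) (.e (nat_lit 153566) (nat_lit 0) .nil) .nil)))) (.nd (nat_lit 9) 
(.lf (nat_lit 494964) (.g (nat_lit 401) (.e (nat_lit 163902) (nat_lit 12) (.e (nat_lit 426555) (nat_lit 32) (.e (nat_lit 376867) (nat_lit 23) .nil))) (.g (nat_lit 0) (.e (nat_lit 153281) (nat_lit 0) .nil) .nil))) 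
(.lf (nat_lit 495476) (.g (nat_lit 2860) (.e (nat_lit 163903) (nat_lit 12) (.e (nat_lit 426566) (nat_lit 34) (.e (nat_lit 393270) (nat_lit 23) (.e (nat_lit 426131) (nat_lit 3) (.e (nat_lit 204829) (nat_lit 18) (.e (nat_lit 57688) (nat_lit 156) .nil)))))) (.g (nat_lit 1) (.e (nat_lit 153893) (nat_lit 0) .nil) .nil))))) (.nd (nat_lit 8) (.nd (nat_lit 9) 
(.lf (nat_lit 494836) (.g (nat_lit 435) (.e (nat_lit 163902) (nat_lit 12) (.e (nat_lit 426438) (nat_lit 18) (.e (nat_lit 98372) (nat_lit 29) .nil))) (.g (nat_lit 0) (.e (nat_lit 153116) (nat_lit 0) .nil) .nil))) 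
(.lf (nat_lit 495348) (.g (nat_lit 2140) (.e (nat_lit 163903) (nat_lit 12) (.e (nat_lit 426438) (nat_lit 18) (.e (nat_lit 98359) (nat_lit 26) (.e (nat_lit 426324) (nat_lit 13) (.e (nat_lit 483363) (nat_lit 18) (.e (nat_lit 57686) (nat_lit 156) .nil)))))) (.g (nat_lit 1) (.e (nat_lit 153747) (nat_lit 0) .nil) .nil)))) (.nd (nat_lit 9) 
(.lf (nat_lit 495092) (.g (nat_lit 608) (.e (nat_lit 163902) (nat_lit 12) (.e (nat_lit 426566) (nat_lit 34) (.e (nat_lit 393295) (nat_lit 26) (.e (nat_lit 475176) (nat_lit 24) .nil)))) (.g (nat_lit 0) (.e (nat_lit 153417) (nat_lit 0) .nil) .nil))) 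
(.lf (nat_lit 495604) (.g (nat_lit 1824) (.e (nat_lit 163903) (nat_lit 12) (.e (nat_lit 426568) (nat_lit 34) (.e (nat_lit 393272) (nat_lit 23) (.e (nat_lit 426438) (nat_lit 18) (.e (nat_lit 98335) (nat_lit 18) .nil))))) (.g (nat_lit 0) (.e (nat_lit 154024) (nat_lit 0) .nil) .nil))))))))) (.nd (nat_lit 4) (.nd (nat_lit 5) (.nd (nat_lit 6) (.nd (nat_lit 7) (.nd (nat_lit 8) (.nd (nat_lit 9) 
(.lf (nat_lit 494604) (.g (nat_lit 1743) (.e (nat_lit 163885) (nat_lit 5) (.e (nat_lit 221212) (nat_lit 22) (.e (nat_lit 196656) (nat_lit 11) (.e (nat_lit 16425) (nat_lit 7) (.e (nat_lit 409616) (nat_lit 10) .nil))))) (.g (nat_lit 0) (.e (nat_lit 152048) (nat_lit 0) .nil) .nil))) 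
(.lf (nat_lit 495116) (.g (nat_lit 3157) (.e (nat_lit 163902) (nat_lit 12) (.e (nat_lit 426566) (nat_lit 34) (.e (nat_lit 393296) (nat_lit 26) (.e (nat_lit 475179) (nat_lit 24) (.e (nat_lit 516117) (nat_lit 1) (.e (nat_lit 164331) (nat_lit 230) .nil)))))) (.g (nat_lit 1) (.e (nat_lit 153441) (nat_lit 0) .nil) .nil)))) (.nd (nat_lit 9) 
(.lf (nat_lit 494860) (.g (nat_lit 3978) (.e (nat_lit 163902) (nat_lit 12) (.e (nat_lit 426438) (nat_lit 18) (.e (nat_lit 98373) (nat_lit 29) (.e (nat_lit 450563) (nat_lit 0) (.e (nat_lit 6839) (nat_lit 369) (.e (nat_lit 163860) (nat_lit 1) (.e (nat_lit 164332) (nat_lit 230) .nil))))))) (.g (nat_lit 1) (.e (nat_lit 153140) (nat_lit 0) .nil) .nil))) 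
(.lf (nat_lit 495372) (.g (nat_lit 1822) (.e (nat_lit 163903) (nat_lit 12) (.e (nat_lit 426438) (nat_lit 18) (.e (nat_lit 98381) (nat_lit 31) (.e (nat_lit 466954) (nat_lit 11) (.e (nat_lit 335985) (nat_lit 1) (.e (nat_lit 57686) (nat_lit 156) .nil)))))) (.g (nat_lit 1) (.e (nat_lit 153776) (nat_lit 0) .nil) .nil))))) (.nd (nat_lit 8) (.nd (nat_lit 9) 
(.lf (nat_lit 494732) (.g (nat_lit 3767) (.e (nat_lit 163900) (nat_lit 12) (.e (nat_lit 426140) (nat_lit 3) (.e (nat_lit 204869) (nat_lit 29) (.e (nat_lit 360475) (nat_lit 8) (.e (nat_lit 557089) (nat_lit 12) (.e (nat_lit 163848) (nat_lit 0) (.e (nat_lit 6416) (nat_lit 341) .nil))))))) (.g (nat_lit 1) (.e (nat_lit 152870) (nat_lit 0) .nil) .nil))) 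
(.lf (nat_lit 495244) (.g (nat_lit 3954) (.e (nat_lit 163902) (nat_lit 12) (.e (nat_lit 426568) (nat_lit 34) (.e (nat_lit 393291) (nat_lit 26) (.e (nat_lit 475179) (nat_lit 24) (.e (nat_lit 516117) (nat_lit 1) (.e (nat_lit 164332) (nat_lit 230) .nil)))))) (.g (nat_lit 1) (.e (nat_lit 153590) (nat_lit 0) .nil) .nil)))) (.nd (nat_lit 9) 
(.lf (nat_lit 494988) (.g (nat_lit 3757) (.e (nat_lit 163902) (nat_lit 12) (.e (nat_lit 426566) (nat_lit 34) (.e (nat_lit 393270) (nat_lit 23) (.e (nat_lit 426436) (nat_lit 18) (.e (nat_lit 98335) (nat_lit 18) (.e (nat_lit 164324) (nat_lit 230) .nil)))))) (.g (nat_lit 1) (.e (nat_lit 153312) (nat_lit 0) .nil) .nil))) 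
(.lf (nat_lit 495500) (.g (nat_lit 2653) (.e (nat_lit 163903) (nat_lit 12) (.e (nat_lit 426566) (nat_lit 34) (.e (nat_lit 393284) (nat_lit 24) (.e (nat_lit 434233) (nat_lit 23) (.e (nat_lit 532503) (nat_lit 1) (.e (nat_lit 57688) (nat_lit 156) .nil)))))) (.g (nat_lit 1) (.e (nat_lit 153917) (nat_lit 0) .nil) .nil)))))) (.nd (nat_lit 7) (.nd (nat_lit 8) (.nd (nat_lit 9) 
(.lf (nat_lit 494668) (.g (nat_lit 1245) (.e (nat_lit 163896) (nat_lit 10) (.e (nat_lit 409602) (nat_lit 0) (.e (nat_lit 5629) (nat_lit 312) (.e (nat_lit 311) (nat_lit 23) .nil)))) (.g (nat_lit 0) (.e (nat_lit 152343) (nat_lit 0) .nil) .nil))) 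
(.lf (nat_lit 495180) (.g (nat_lit 3145) (.e (nat_lit 163902) (nat_lit 12) (.e (nat_lit 426568) (nat_lit 34) (.e (nat_lit 393271) (nat_lit 23) (.e (nat_lit 426436) (nat_lit 18) (.e (nat_lit 98335) (nat_lit 18) (.e (nat_lit 164331) (nat_lit 230) .nil)))))) (.g (nat_lit 1) (.e (nat_lit 153515) (nat_lit 0) .nil) .nil)))) (.nd (nat_lit 9) 
(.lf (nat_lit 494924) (.g (nat_lit 3254) (.e (nat_lit 163902) (nat_lit 12) (.e (nat_lit 426482) (nat_lit 27) (.e (nat_lit 336389) (nat_lit 27) (.e (nat_lit 426308) (nat_lit 12) (.e (nat_lit 475179) (nat_lit 24) (.e (nat_lit 516120) (nat_lit 1) (.e (nat_lit 164330) (nat_lit 230) .nil))))))) (.g (nat_lit 1) (.e (nat_lit 153222) (nat_lit 0) .nil) .nil))) 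
(.lf (nat_lit 495436) (.g (nat_lit 3088) (.e (nat_lit 163903) (nat_lit 12) (.e (nat_lit 426538) (nat_lit 29) (.e (nat_lit 352315) (nat_lit 23) (.e (nat_lit 98312) (nat_lit 9) (.e (nat_lit 335988) (nat_lit 1) (.e (nat_lit 57927) (nat_lit 282) .nil)))))) (.g (nat_lit 1) (.e (nat_lit 153850) (nat_lit 0) .nil) .nil))))) (.nd (nat_lit 8) (.nd (nat_lit 9) 
(.lf (nat_lit 494796) (.g (nat_lit 1361) (.e (nat_lit 163902) (nat_lit 12) (.e (nat_lit 426428) (nat_lit 17) (.e (nat_lit 90174) (nat_lit 14) (.e (nat_lit 180291) (nat_lit 48) .nil)))) (.g (nat_lit 0) (.e (nat_lit 153068) (nat_lit 0) .nil) .nil))) 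
(.lf (nat_lit 495308) (.g (nat_lit 1390) (.e (nat_lit 163903) (nat_lit 12) (.e (nat_lit 426428) (nat_lit 17) (.e (nat_lit 90170) (nat_lit 13) (.e (nat_lit 172079) (nat_lit 7) .nil)))) (.g (nat_lit 0) (.e (nat_lit 153703) (nat_lit 0) .nil) .nil)))) (.nd (nat_lit 9) 
(.lf (nat_lit 495052) (.g (nat_lit 2574) (.e (nat_lit 163902) (nat_lit 12) (.e (nat_lit 426566) (nat_lit 34) (.e (nat_lit 393291) (nat_lit 26) (.e (nat_lit 475179) (nat_lit 24) (.e (nat_lit 516117) (nat_lit 1) (.e (nat_lit 164322) (nat_lit 230) .nil)))))) (.g (nat_lit 1) (.e (nat_lit 153377) (nat_lit 0) .nil) .nil))) 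
(.lf (nat_lit 495564) (.g (nat_lit 3088) (.e (nat_lit 163903) (nat_lit 12) (.e (nat_lit 426567) (nat_lit 34) (.e (nat_lit 393294) (nat_lit 26) (.e (nat_lit 475179) (nat_lit 24) (.e (nat_lit 516119) (nat_lit 1) (.e (nat_lit 164325) (nat_lit 230) .nil)))))) (.g (nat_lit 1) (.e (nat_lit 153982) (nat_lit 0) .nil) .nil))))))) (.nd (nat_lit 6) (.nd (nat_lit 7) (.nd (nat_lit 8) (.nd (nat_lit 9) 
(.lf (nat_lit 494636) (.g (nat_lit 1808) (.e (nat_lit 163886) (nat_lit 5) (.e (nat_lit 221194) (nat_lit 11) (.e (nat_lit 336075) (nat_lit 9) (.e (nat_lit 336432) (nat_lit 30) (.e (nat_lit 450565) (nat_lit 0) .nil))))) (.g (nat_lit 0) (.e (nat_lit 152112) (nat_lit 0) .nil) .nil))) 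
(.lf (nat_lit 495148) (.g (nat_lit 3648) (.e (nat_lit 163902) (nat_lit 12) (.e (nat_lit 426568) (nat_lit 34) (.e (nat_lit 393268) (nat_lit 23) (.e (nat_lit 426438) (nat_lit 18) (.e (nat_lit 98334) (nat_lit 18) (.e (nat_lit 164332) (nat_lit 230) .nil)))))) (.g (nat_lit 1) (.e (nat_lit 153483) (nat_lit 0) .nil) .nil)))) (.nd (nat_lit 9) 
(.lf (nat_lit 494892) (.g (nat_lit 1632) (.e (nat_lit 163902) (nat_lit 12) (.e (nat_lit 426478) (nat_lit 27) (.e (nat_lit 336386) (nat_lit 27) (.e (nat_lit 426198) (nat_lit 9) (.e (nat_lit 426436) (nat_lit 18) (.e (nat_lit 98335) (nat_lit 18) (.e (nat_lit 164329) (nat_lit 230) .nil))))))) (.g (nat_lit 1) (.e (nat_lit 153173) (nat_lit 0) .nil) .nil))) 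
(.lf (nat_lit 495404) (.g (nat_lit 3918) (.e (nat_lit 163903) (nat_lit 12) (.e (nat_lit 426479) (nat_lit 27) (.e (nat_lit 336432) (nat_lit 30) (.e (nat_lit 450588) (nat_lit 10) (.e (nat_lit 573475) (nat_lit 12) (.e (nat_lit 65280) (nat_lit 0) (.e (nat_lit 5224) (nat_lit 296) .nil))))))) (.g (nat_lit 1) (.e (nat_lit 153811) (nat_lit 0) .nil) .nil))))) (.nd (nat_lit 8) (.nd (nat_lit 9) 
(.lf (nat_lit 494764) (.g (nat_lit 1670) (.e (nat_lit 163901) (nat_lit 12) (.e (nat_lit 426566) (nat_lit 34) (.e (nat_lit 393291) (nat_lit 26) (.e (nat_lit 475177) (nat_lit 24) (.e (nat_lit 516118) (nat_lit 1) .nil))))) (.g (nat_lit 0) (.e (nat_lit 152976) (nat_lit 0) .nil) .nil))) 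
(.lf (nat_lit 495276) (.g (nat_lit 2992) (.e (nat_lit 163902) (nat_lit 12) (.e (nat_lit 426568) (nat_lit 34) (.e (nat_lit 393294) (nat_lit 26) (.e (nat_lit 475176) (nat_lit 24) (.e (nat_lit 516120) (nat_lit 1) (.e (nat_lit 164329) (nat_lit 230) .nil)))))) (.g (nat_lit 1) (.e (nat_lit 153622) (nat_lit 0) .nil) .nil)))) (.nd (nat_lit 9) 
(.lf (nat_lit 495020) (.g (nat_lit 2693) (.e (nat_lit 163902) (nat_lit 12) (.e (nat_lit 426566) (nat_lit 34) (.e (nat_lit 393278) (nat_lit 23) (.e (nat_lit 426135) (nat_lit 3) (.e (nat_lit 204829) (nat_lit 18) (.e (nat_lit 57688) (nat_lit 156) .nil)))))) (.g (nat_lit 1) (.e (nat_lit 153344) (nat_lit 0) .nil) .nil))) 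
(.lf (nat_lit 495532) (.g (nat_lit 3081) (.e (nat_lit 163903) (nat_lit 12) (.e (nat_lit 426566) (nat_lit 34) (.e (nat_lit 393295) (nat_lit 26) (.e (nat_lit 475177) (nat_lit 24) (.e (nat_lit 516118) (nat_lit 1) (.e (nat_lit 164324) (nat_lit 230) .nil)))))) (.g (nat_lit 1) (.e (nat_lit 153950) (nat_lit 0) .nil) .nil)))))) (.nd (nat_lit 7) (.nd (nat_lit 8) (.nd (nat_lit 9) 
(.lf (nat_lit 494700) (.g (nat_lit 2178) (.e (nat_lit 163900) (nat_lit 12) (.e (nat_lit 426125) (nat_lit 2) (.e (nat_lit 196666) (nat_lit 13) (.e (nat_lit 65617) (nat_lit 10) (.e (nat_lit 344132) (nat_lit 26) (.e (nat_lit 557094) (nat_lit 12) (.e (nat_lit 163840) (nat_lit 0) (.e (nat_lit 6418) (nat_lit 341) .nil)))))))) (.g (nat_lit 1) (.e (nat_lit 152820) (nat_lit 0) .nil) .nil))) 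
(.lf (nat_lit 495212) (.g (nat_lit 2872) (.e (nat_lit 163902) (nat_lit 12) (.e (nat_lit 426568) (nat_lit 34) (.e (nat_lit 393283) (nat_lit 24) (.e (nat_lit 434234) (nat_lit 23) (.e (nat_lit 532499) (nat_lit 1) (.e (nat_lit 57686) (nat_lit 156) .nil)))))) (.g (nat_lit 1) (.e (nat_lit 153557) (nat_lit 0) .nil) .nil)))) (.nd (nat_lit 9) 
(.lf (nat_lit 494956) (.g (nat_lit 3247) (.e (nat_lit 163902) (nat_lit 12) (.e (nat_lit 426546) (nat_lit 30) (.e (nat_lit 360466) (nat_lit 3) (.e (nat_lit 516195) (nat_lit 26) (.e (nat_lit 335996) (nat_lit 1) (.e (nat_lit 57931) (nat_lit 282) .nil)))))) (.g (nat_lit 1) (.e (nat_lit 153254) (nat_lit 0) .nil) .nil))) 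
(.lf (nat_lit 495468) (.g (nat_lit 2670) (.e (nat_lit 163903) (nat_lit 12) (.e (nat_lit 426564) (nat_lit 34) (.e (nat_lit 393291) (nat_lit 26) (.e (nat_lit 475177) (nat_lit 24) (.e (nat_lit 516118) (nat_lit 1) (.e (nat_lit 164327) (nat_lit 230) .nil)))))) (.g (nat_lit 1) (.e (nat_lit 153885) (nat_lit 0) .nil) .nil))))) (.nd (nat_lit 8) (.nd (nat_lit 9) 
(.lf (nat_lit 494828) (.g (nat_lit 2605) (.e (nat_lit 163902) (nat_lit 12) (.e (nat_lit 426438) (nat_lit 18) (.e (nat_lit 98359) (nat_lit 26) (.e (nat_lit 426338) (nat_lit 14) (.e (nat_lit 491584) (nat_lit 28) (.e (nat_lit 434206) (nat_lit 18) (.e (nat_lit 6420) (nat_lit 341) .nil))))))) (.g (nat_lit 1) (.e (nat_lit 153108) (nat_lit 0) .nil) .nil))) 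
(.lf (nat_lit 495340) (.g (nat_lit 3013) (.e (nat_lit 163903) (nat_lit 12) (.e (nat_lit 426436) (nat_lit 18) (.e (nat_lit 98381) (nat_lit 31) (.e (nat_lit 466954) (nat_lit 11) (.e (nat_lit 335986) (nat_lit 1) (.e (nat_lit 57688) (nat_lit 156) .nil)))))) (.g (nat_lit 1) (.e (nat_lit 153737) (nat_lit 0) .nil) .nil)))) (.nd (nat_lit 9) 
(.lf (nat_lit 495084) (.g (nat_lit 3069) (.e (nat_lit 163902) (nat_lit 12) (.e (nat_lit 426566) (nat_lit 34) (.e (nat_lit 393294) (nat_lit 26) (.e (nat_lit 475178) (nat_lit 24) (.e (nat_lit 516120) (nat_lit 1) (.e (nat_lit 164329) (nat_lit 230) .nil)))))) (.g (nat_lit 1) (.e (nat_lit 153409) (nat_lit 0) .nil) .nil))) 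
(.lf (nat_lit 495596) (.g (nat_lit 4206) (.e (nat_lit 163903) (nat_lit 12) (.e (nat_lit 426568) (nat_lit 34) (.e (nat_lit 393271) (nat_lit 23) (.e (nat_lit 426436) (nat_lit 18) (.e (nat_lit 98335) (nat_lit 18) (.e (nat_lit 164324) (nat_lit 230) .nil)))))) (.g (nat_lit 1) (.e (nat_lit 154016) (nat_lit 0) .nil) .nil)))))))) 
(.nd (nat_lit 5) (.nd (nat_lit 6) (.nd (nat_lit 7) (.nd (nat_lit 8) (.nd (nat_lit 9) 
(.lf (nat_lit 494620) (.g (nat_lit 1920) (.e (nat_lit 163886) (nat_lit 5) (.e (nat_lit 221191) (nat_lit 11) (.e (nat_lit 336152) (nat_lit 9) (.e (nat_lit 336442) (nat_lit 32) (.e (nat_lit 466971) (nat_lit 21) (.e (nat_lit 164324) (nat_lit 230) .nil)))))) (.g (nat_lit 1) (.e (nat_lit 152094) (nat_lit 0) .nil) .nil))) 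
(.lf (nat_lit 495132) (.g (nat_lit 2565) (.e (nat_lit 163902) (nat_lit 12) (.e (nat_lit 426567) (nat_lit 34) (.e (nat_lit 393294) (nat_lit 26) (.e (nat_lit 475179) (nat_lit 24) (.e (nat_lit 516117) (nat_lit 1) (.e (nat_lit 164332) (nat_lit 230) .nil)))))) (.g (nat_lit 1) (.e (nat_lit 153458) (nat_lit 0) .nil) .nil)))) (.nd (nat_lit 9) 
(.lf (nat_lit 494876) (.g (nat_lit 2160) (.e (nat_lit 163902) (nat_lit 12) (.e (nat_lit 426438) (nat_lit 18) (.e (nat_lit 98380) (nat_lit 31) (.e (nat_lit 466954) (nat_lit 11) (.e (nat_lit 335994) (nat_lit 1) (.e (nat_lit 57686) (nat_lit 156) .nil)))))) (.g (nat_lit 1) (.e (nat_lit 153157) (nat_lit 0) .nil) .nil))) 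
(.lf (nat_lit 495388) (.g (nat_lit 2969) (.e (nat_lit 163903) (nat_lit 12) (.e (nat_lit 426478) (nat_lit 27) (.e (nat_lit 336389) (nat_lit 27) (.e (nat_lit 426308) (nat_lit 12) (.e (nat_lit 475179) (nat_lit 24) (.e (nat_lit 516119) (nat_lit 1) (.e (nat_lit 164327) (nat_lit 230) .nil))))))) (.g (nat_lit 1) (.e (nat_lit 153792) (nat_lit 0) .nil) .nil))))) (.nd (nat_lit 8) (.nd (nat_lit 9) 
(.lf (nat_lit 494748) (.g (nat_lit 2033) (.e (nat_lit 163900) (nat_lit 12) (.e (nat_lit 426482) (nat_lit 27) (.e (nat_lit 336388) (nat_lit 27) (.e (nat_lit 426188) (nat_lit 9) (.e (nat_lit 426436) (nat_lit 18) .nil))))) (.g (nat_lit 0) (.e (nat_lit 152920) (nat_lit 0) .nil) .nil))) 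
(.lf (nat_lit 495260) (.g (nat_lit 2531) (.e (nat_lit 163902) (nat_lit 12) (.e (nat_lit 426568) (nat_lit 34) (.e (nat_lit 393293) (nat_lit 26) (.e (nat_lit 475177) (nat_lit 24) (.e (nat_lit 516117) (nat_lit 1) (.e (nat_lit 164332) (nat_lit 230) .nil)))))) (.g (nat_lit 1) (.e (nat_lit 153606) (nat_lit 0) .nil) .nil)))) (.nd (nat_lit 9) 
(.lf (nat_lit 495004) (.g (nat_lit 4146) (.e (nat_lit 163902) (nat_lit 12) (.e (nat_lit 426566) (nat_lit 34) (.e (nat_lit 393271) (nat_lit 23) (.e (nat_lit 426436) (nat_lit 18) (.e (nat_lit 98335) (nat_lit 18) (.e (nat_lit 164324) (nat_lit 230) .nil)))))) (.g (nat_lit 1) (.e (nat_lit 153328) (nat_lit 0) .nil) .nil))) 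
(.lf (nat_lit 495516) (.g (nat_lit 2245) (.e (nat_lit 163903) (nat_lit 12) (.e (nat_lit 426566) (nat_lit 34) (.e (nat_lit 393291) (nat_lit 26) (.e (nat_lit 475179) (nat_lit 24) (.e (nat_lit 516119) (nat_lit 1) (.e (nat_lit 164324) (nat_lit 230) .nil)))))) (.g (nat_lit 1) (.e (nat_lit 153933) (nat_lit 0) .nil) .nil)))))) (.nd (nat_lit 7) (.nd (nat_lit 8) (.nd (nat_lit 9) 
(.lf (nat_lit 494684) (.g (nat_lit 906) (.e (nat_lit 163896) (nat_lit 10) (.e (nat_lit 409649) (nat_lit 18) (.e (nat_lit 303133) (nat_lit 9) .nil))) (.g (nat_lit 0) (.e (nat_lit 152709) (nat_lit 0) .nil) .nil))) 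
(.lf (nat_lit 495196) (.g (nat_lit 386) (.e (nat_lit 163902) (nat_lit 12) (.e (nat_lit 426568) (nat_lit 34) (.e (nat_lit 393281) (nat_lit 23) .nil))) (.g (nat_lit 0) (.e (nat_lit 153532) (nat_lit 0) .nil) .nil)))) (.nd (nat_lit 9) 
(.lf (nat_lit 494940) (.g (nat_lit 2447) (.e (nat_lit 163902) (nat_lit 12) (.e (nat_lit 426538) (nat_lit 29) (.e (nat_lit 352315) (nat_lit 23) (.e (nat_lit 98312) (nat_lit 9) (.e (nat_lit 335996) (nat_lit 1) (.e (nat_lit 57931) (nat_lit 282) .nil)))))) (.g (nat_lit 1) (.e (nat_lit 153238) (nat_lit 0) .nil) .nil))) 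
(.lf (nat_lit 495452) (.g (nat_lit 1856) (.e (nat_lit 163903) (nat_lit 12) (.e (nat_lit 426555) (nat_lit 32) (.e (nat_lit 376862) (nat_lit 22) (.e (nat_lit 90157) (nat_lit 11) (.e (nat_lit 24597) (nat_lit 1) .nil))))) (.g (nat_lit 0) (.e (nat_lit 153867) (nat_lit 0) .nil) .nil))))) (.nd (nat_lit 8) (.nd (nat_lit 9) 
(.lf (nat_lit 494812) (.g (nat_lit 3064) (.e (nat_lit 163902) (nat_lit 12) (.e (nat_lit 426436) (nat_lit 18) (.e (nat_lit 98370) (nat_lit 28) (.e (nat_lit 442390) (nat_lit 11) (.e (nat_lit 335986) (nat_lit 1) (.e (nat_lit 57688) (nat_lit 156) .nil)))))) (.g (nat_lit 1) (.e (nat_lit 153088) (nat_lit 0) .nil) .nil))) 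
(.lf (nat_lit 495324) (.g (nat_lit 2024) (.e (nat_lit 163903) (nat_lit 12) (.e (nat_lit 426432) (nat_lit 17) (.e (nat_lit 90178) (nat_lit 15) (.e (nat_lit 188421) (nat_lit 11) (.e (nat_lit 335986) (nat_lit 1) (.e (nat_lit 57686) (nat_lit 156) .nil)))))) (.g (nat_lit 1) (.e (nat_lit 153719) (nat_lit 0) .nil) .nil)))) (.nd (nat_lit 9) 
(.lf (nat_lit 495068) (.g (nat_lit 2836) (.e (nat_lit 163902) (nat_lit 12) (.e (nat_lit 426566) (nat_lit 34) (.e (nat_lit 393293) (nat_lit 26) (.e (nat_lit 475178) (nat_lit 24) (.e (nat_lit 516117) (nat_lit 1) (.e (nat_lit 164329) (nat_lit 230) .nil)))))) (.g (nat_lit 1) (.e (nat_lit 153393) (nat_lit 0) .nil) .nil))) 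
(.lf (nat_lit 495580) (.g (nat_lit 3109) (.e (nat_lit 163903) (nat_lit 12) (.e (nat_lit 426568) (nat_lit 34) (.e (nat_lit 393270) (nat_lit 23) (.e (nat_lit 426436) (nat_lit 18) (.e (nat_lit 98333) (nat_lit 18) (.e (nat_lit 164325) (nat_lit 230) .nil)))))) (.g (nat_lit 1) (.e (nat_lit 154000) (nat_lit 0) .nil) .nil))))))) (.nd (nat_lit 6) (.nd (nat_lit 7) (.nd (nat_lit 8) (.nd (nat_lit 9) 
(.lf (nat_lit 494652) (.g (nat_lit 1839) (.e (nat_lit 163886) (nat_lit 5) (.e (nat_lit 221215) (nat_lit 23) (.e (nat_lit 204813) (nat_lit 9) (.e (nat_lit 426188) (nat_lit 9) (.e (nat_lit 426438) (nat_lit 18) (.e (nat_lit 106240) (nat_lit 1) (.e (nat_lit 57927) (nat_lit 282) .nil))))))) (.g (nat_lit 1) (.e (nat_lit 152159) (nat_lit 0) .nil) .nil))) 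
(.lf (nat_lit 495164) (.g (nat_lit 2903) (.e (nat_lit 163902) (nat_lit 12) (.e (nat_lit 426568) (nat_lit 34) (.e (nat_lit 393271) (nat_lit 23) (.e (nat_lit 426131) (nat_lit 3) (.e (nat_lit 204831) (nat_lit 18) (.e (nat_lit 57685) (nat_lit 156) .nil)))))) (.g (nat_lit 1) (.e (nat_lit 153499) (nat_lit 0) .nil) .nil)))) (.nd (nat_lit 9) 
(.lf (nat_lit 494908) (.g (nat_lit 2653) (.e (nat_lit 163902) (nat_lit 12) (.e (nat_lit 426479) (nat_lit 27) (.e (nat_lit 336430) (nat_lit 29) (.e (nat_lit 442425) (nat_lit 23) (.e (nat_lit 204829) (nat_lit 18) (.e (nat_lit 57686) (nat_lit 156) .nil)))))) (.g (nat_lit 1) (.e (nat_lit 153192) (nat_lit 0) .nil) .nil))) 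
(.lf (nat_lit 495420) (.g (nat_lit 2014) (.e (nat_lit 163903) (nat_lit 12) (.e (nat_lit 426481) (nat_lit 27) (.e (nat_lit 336389) (nat_lit 27) (.e (nat_lit 426190) (nat_lit 9) (.e (nat_lit 426436) (nat_lit 18) (.e (nat_lit 98335) (nat_lit 18) (.e (nat_lit 164326) (nat_lit 230) .nil))))))) (.g (nat_lit 1) (.e (nat_lit 153833) (nat_lit 0) .nil) .nil))))) (.nd (nat_lit 8) (.nd (nat_lit 9) 
(.lf (nat_lit 494780) (.g (nat_lit 2186) (.e (nat_lit 163902) (nat_lit 12) (.e (nat_lit 426320) (nat_lit 12) (.e (nat_lit 475209) (nat_lit 41) (.e (nat_lit 712752) (nat_lit 29) (.e (nat_lit 442430) (nat_lit 24) (.e (nat_lit 229680) (nat_lit 244) .nil)))))) (.g (nat_lit 1) (.e (nat_lit 152996) (nat_lit 0) .nil) .nil))) 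
(.lf (nat_lit 495292) (.g (nat_lit 2672) (.e (nat_lit 163902) (nat_lit 12) (.e (nat_lit 426568) (nat_lit 34) (.e (nat_lit 393294) (nat_lit 26) (.e (nat_lit 475177) (nat_lit 24) (.e (nat_lit 516120) (nat_lit 1) (.e (nat_lit 164331) (nat_lit 230) .nil)))))) (.g (nat_lit 1) (.e (nat_lit 153638) (nat_lit 0) .nil) .nil)))) (.nd (nat_lit 9) 
(.lf (nat_lit 495036) (.g (nat_lit 509) (.e (nat_lit 163902) (nat_lit 12) (.e (nat_lit 426566) (nat_lit 34) (.e (nat_lit 393290) (nat_lit 26) .nil))) (.g (nat_lit 0) (.e (nat_lit 153361) (nat_lit 0) .nil) .nil))) 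
(.lf (nat_lit 495548) (.g (nat_lit 4080) (.e (nat_lit 163903) (nat_lit 12) (.e (nat_lit 426566) (nat_lit 34) (.e (nat_lit 393296) (nat_lit 26) (.e (nat_lit 475179) (nat_lit 24) (.e (nat_lit 516119) (nat_lit 1) (.e (nat_lit 164327) (nat_lit 230) .nil)))))) (.g (nat_lit 1) (.e (nat_lit 153966) (nat_lit 0) .nil) .nil)))))) (.nd (nat_lit 7) (.nd (nat_lit 8) (.nd (nat_lit 9) 
(.lf (nat_lit 494716) (.g (nat_lit 2880) (.e (nat_lit 163900) (nat_lit 12) (.e (nat_lit 426140) (nat_lit 3) (.e (nat_lit 204868) (nat_lit 29) (.e (nat_lit 360473) (nat_lit 8) (.e (nat_lit 557091) (nat_lit 12) (.e (nat_lit 163849) (nat_lit 0) (.e (nat_lit 6421) (nat_lit 341) .nil))))))) (.g (nat_lit 1) (.e (nat_lit 152854) (nat_lit 0) .nil) .nil))) 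
(.lf (nat_lit 495228) (.g (nat_lit 2250) (.e (nat_lit 163902) (nat_lit 12) (.e (nat_lit 426568) (nat_lit 34) (.e (nat_lit 393291) (nat_lit 26) (.e (nat_lit 475175) (nat_lit 24) (.e (nat_lit 516119) (nat_lit 1) (.e (nat_lit 164322) (nat_lit 230) .nil)))))) (.g (nat_lit 1) (.e (nat_lit 153574) (nat_lit 0) .nil) .nil)))) (.nd (nat_lit 9) 
(.lf (nat_lit 494972) (.g (nat_lit 3064) (.e (nat_lit 163902) (nat_lit 12) (.e (nat_lit 426555) (nat_lit 32) (.e (nat_lit 376869) (nat_lit 23) (.e (nat_lit 98313) (nat_lit 9) (.e (nat_lit 335995) (nat_lit 1) (.e (nat_lit 57930) (nat_lit 282) .nil)))))) (.g (nat_lit 1) (.e (nat_lit 153289) (nat_lit 0) .nil) .nil))) 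
(.lf (nat_lit 495484) (.g (nat_lit 3324) (.e (nat_lit 163903) (nat_lit 12) (.e (nat_lit 426566) (nat_lit 34) (.e (nat_lit 393271) (nat_lit 23) (.e (nat_lit 426131) (nat_lit 3) (.e (nat_lit 204831) (nat_lit 18) (.e (nat_lit 57688) (nat_lit 156) .nil)))))) (.g (nat_lit 1) (.e (nat_lit 153901) (nat_lit 0) .nil) .nil))))) (.nd (nat_lit 8) (.nd (nat_lit 9) 
(.lf (nat_lit 494844) (.g (nat_lit 2314) (.e (nat_lit 163902) (nat_lit 12) (.e (nat_lit 426438) (nat_lit 18) (.e (nat_lit 98373) (nat_lit 29) (.e (nat_lit 450560) (nat_lit 0) (.e (nat_lit 6839) (nat_lit 369) .nil))))) (.g (nat_lit 0) (.e (nat_lit 153124) (nat_lit 0) .nil) .nil))) 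
(.lf (nat_lit 495356) (.g (nat_lit 1749) (.e (nat_lit 163903) (nat_lit 12) (.e (nat_lit 426438) (nat_lit 18) (.e (nat_lit 98373) (nat_lit 29) (.e (nat_lit 450560) (nat_lit 0) .nil)))) (.g (nat_lit 0) (.e (nat_lit 153756) (nat_lit 0) .nil) .nil)))) (.nd (nat_lit 9) 
(.lf (nat_lit 495100) (.g (nat_lit 2918) (.e (nat_lit 163902) (nat_lit 12) (.e (nat_lit 426566) (nat_lit 34) (.e (nat_lit 393295) (nat_lit 26) (.e (nat_lit 475178) (nat_lit 24) (.e (nat_lit 516120) (nat_lit 1) (.e (nat_lit 164329) (nat_lit 230) .nil)))))) (.g (nat_lit 1) (.e (nat_lit 153425) (nat_lit 0) .nil) .nil))) 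
(.lf (nat_lit 495612) (.g (nat_lit 1574) (.e (nat_lit 163903) (nat_lit 12) (.e (nat_lit 426568) (nat_lit 34) (.e (nat_lit 393283) (nat_lit 24) (.e (nat_lit 434234) (nat_lit 23) (.e (nat_lit 532502) (nat_lit 1) (.e (nat_lit 57686) (nat_lit 156) .nil)))))) (.g (nat_lit 1) (.e (nat_lit 154032) (nat_lit 0) .nil) .nil))))))))))) 
(.nd (nat_lit 2) (.nd (nat_lit 3) (.nd (nat_lit 4) (.nd (nat_lit 5) (.nd (nat_lit 6) 
(.nd (nat_lit 7) (.nd (nat_lit 8) (.nd (nat_lit 9) 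
(.lf (nat_lit 494594) (.g (nat_lit 1889) (.e (nat_lit 163885) (nat_lit 5) (.e (nat_lit 221194) (nat_lit 11) (.e (nat_lit 336087) (nat_lit 9) (.e (nat_lit 336444) (nat_lit 32) (.e (nat_lit 466971) (nat_lit 21) (.e (nat_lit 164324) (nat_lit 230) .nil)))))) (.g (nat_lit 1) (.e (nat_lit 151989) (nat_lit 0) .nil) .nil))) 
(.lf (nat_lit 495106) (.g (nat_lit 2346) (.e (nat_lit 163902) (nat_lit 12) (.e (nat_lit 426566) (nat_lit 34) (.e (nat_lit 393296) (nat_lit 26) (.e (nat_lit 475176) (nat_lit 24) (.e (nat_lit 516120) (nat_lit 1) (.e (nat_lit 164330) (nat_lit 230) .nil)))))) (.g (nat_lit 1) (.e (nat_lit 153431) (nat_lit 0) .nil) .nil)))) (.nd (nat_lit 9) 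
(.lf (nat_lit 494850) (.g (nat_lit 3700) (.e (nat_lit 163902) (nat_lit 12) (.e (nat_lit 426438) (nat_lit 18) (.e (nat_lit 98373) (nat_lit 29) (.e (nat_lit 450562) (nat_lit 0) (.e (nat_lit 6839) (nat_lit 369) (.e (nat_lit 163861) (nat_lit 1) (.e (nat_lit 164330) (nat_lit 230) .nil))))))) (.g (nat_lit 1) (.e (nat_lit 153130) (nat_lit 0) .nil) .nil))) 
(.lf (nat_lit 495362) (.g (nat_lit 3630) (.e (nat_lit 163903) (nat_lit 12) (.e (nat_lit 426438) (nat_lit 18) (.e (nat_lit 98373) (nat_lit 29) (.e (nat_lit 450563) (nat_lit 0) (.e (nat_lit 6412) (nat_lit 340) .nil))))) (.g (nat_lit 0) (.e (nat_lit 153763) (nat_lit 0) .nil) .nil))))) (.nd (nat_lit 8) (.nd (nat_lit 9) 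
(.lf (nat_lit 494722) (.g (nat_lit 2153) (.e (nat_lit 163900) (nat_lit 12) (.e (nat_lit 426140) (nat_lit 3) (.e (nat_lit 204869) (nat_lit 29) (.e (nat_lit 360474) (nat_lit 8) (.e (nat_lit 557093) (nat_lit 12) .nil))))) (.g (nat_lit 0) (.e (nat_lit 152860) (nat_lit 0) .nil) .nil))) 
(.lf (nat_lit 495234) (.g (nat_lit 3665) (.e (nat_lit 163902) (nat_lit 12) (.e (nat_lit 426568) (nat_lit 34) (.e (nat_lit 393291) (nat_lit 26) (.e (nat_lit 475177) (nat_lit 24) (.e (nat_lit 516117) (nat_lit 1) (.e (nat_lit 164332) (nat_lit 230) .nil)))))) (.g (nat_lit 1) (.e (nat_lit 153580) (nat_lit 0) .nil) .nil)))) (.nd (nat_lit 9) 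
(.lf (nat_lit 494978) (.g (nat_lit 2470) (.e (nat_lit 163902) (nat_lit 12) (.e (nat_lit 426566) (nat_lit 34) (.e (nat_lit 393266) (nat_lit 23) (.e (nat_lit 426140) (nat_lit 3) (.e (nat_lit 204831) (nat_lit 18) (.e (nat_lit 57688) (nat_lit 156) .nil)))))) (.g (nat_lit 1) (.e (nat_lit 153302) (nat_lit 0) .nil) .nil))) 
(.lf (nat_lit 495490) (.g (nat_lit 3229) (.e (nat_lit 163903) (nat_lit 12) (.e (nat_lit 426566) (nat_lit 34) (.e (nat_lit 393271) (nat_lit 23) (.e (nat_lit 426438) (nat_lit 18) (.e (nat_lit 98335) (nat_lit 18) (.e (nat_lit 164327) (nat_lit 230) .nil)))))) (.g (nat_lit 1) (.e (nat_lit 153907) (nat_lit 0) .nil) .nil)))))) (.nd (nat_lit 7) (.nd (nat_lit 8) (.nd (nat_lit 9) 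
(.lf (nat_lit 494658) (.g (nat_lit 1514) (.e (nat_lit 163891) (nat_lit 8) (.e (nat_lit 253991) (nat_lit 11) (.e (nat_lit 16425) (nat_lit 7) (.e (nat_lit 409649) (nat_lit 18) .nil)))) (.g (nat_lit 0) (.e (nat_lit 152196) (nat_lit 0) .nil) .nil))) 
(.lf (nat_lit 495170) (.g (nat_lit 3336) (.e (nat_lit 163902) (nat_lit 12) (.e (nat_lit 426568) (nat_lit 34) (.e (nat_lit 393271) (nat_lit 23) (.e (nat_lit 426436) (nat_lit 18) (.e (nat_lit 98333) (nat_lit 18) (.e (nat_lit 164329) (nat_lit 230) .nil)))))) (.g (nat_lit 1) (.e (nat_lit 153505) (nat_lit 0) .nil) .nil)))) (.nd (nat_lit 9) 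
(.lf (nat_lit 494914) (.g (nat_lit 3212) (.e (nat_lit 163902) (nat_lit 12) (.e (nat_lit 426479) (nat_lit 27) (.e (nat_lit 336430) (nat_lit 29) (.e (nat_lit 442427) (nat_lit 23) (.e (nat_lit 204829) (nat_lit 18) (.e (nat_lit 57688) (nat_lit 156) .nil)))))) (.g (nat_lit 1) (.e (nat_lit 153201) (nat_lit 0) .nil) .nil))) 
(.lf (nat_lit 495426) (.g (nat_lit 3301) (.e (nat_lit 163903) (nat_lit 12) (.e (nat_lit 426481) (nat_lit 27) (.e (nat_lit 336389) (nat_lit 27) (.e (nat_lit 426308) (nat_lit 12) (.e (nat_lit 475177) (nat_lit 24) (.e (nat_lit 516119) (nat_lit 1) (.e (nat_lit 164324) (nat_lit 230) .nil))))))) (.g (nat_lit 1) (.e (nat_lit 153839) (nat_lit 0) .nil) .nil))))) (.nd (nat_lit 8) (.nd (nat_lit 9) 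
(.lf (nat_lit 494786) (.g (nat_lit 2047) (.e (nat_lit 163902) (nat_lit 12) (.e (nat_lit 426428) (nat_lit 17) (.e (nat_lit 90170) (nat_lit 13) (.e (nat_lit 172121) (nat_lit 13) (.e (nat_lit 483366) (nat_lit 18) (.e (nat_lit 57688) (nat_lit 156) .nil)))))) (.g (nat_lit 1) (.e (nat_lit 153057) (nat_lit 0) .nil) .nil))) 
(.lf (nat_lit 495298) (.g (nat_lit 2960) (.e (nat_lit 163902) (nat_lit 12) (.e (nat_lit 426568) (nat_lit 34) (.e (nat_lit 393294) (nat_lit 26) (.e (nat_lit 475179) (nat_lit 24) (.e (nat_lit 516117) (nat_lit 1) (.e (nat_lit 164330) (nat_lit 230) .nil)))))) (.g (nat_lit 1) (.e (nat_lit 153644) (nat_lit 0) .nil) .nil)))) (.nd (nat_lit 9) 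
(.lf (nat_lit 495042) (.g (nat_lit 2721) (.e (nat_lit 163902) (nat_lit 12) (.e (nat_lit 426566) (nat_lit 34) (.e (nat_lit 393291) (nat_lit 26) (.e (nat_lit 475177) (nat_lit 24) (.e (nat_lit 516115) (nat_lit 1) (.e (nat_lit 164329) (nat_lit 230) .nil)))))) (.g (nat_lit 1) (.e (nat_lit 153367) (nat_lit 0) .nil) .nil))) 
(.lf (nat_lit 495554) (.g (nat_lit 3490) (.e (nat_lit 163903) (nat_lit 12) (.e (nat_lit 426567) (nat_lit 34) (.e (nat_lit 393271) (nat_lit 23) (.e (nat_lit 426436) (nat_lit 18) (.e (nat_lit 98333) (nat_lit 18) (.e (nat_lit 164327) (nat_lit 230) .nil)))))) (.g (nat_lit 1) (.e (nat_lit 153972) (nat_lit 0) .nil) .nil))))))) (.nd (nat_lit 6) (.nd (nat_lit 7) (.nd (nat_lit 8) (.nd (nat_lit 9) 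
(.lf (nat_lit 494626) (.g (nat_lit 1686) (.e (nat_lit 163886) (nat_lit 5) (.e (nat_lit 221193) (nat_lit 11) (.e (nat_lit 336075) (nat_lit 9) (.e (nat_lit 336443) (nat_lit 32) (.e (nat_lit 466971) (nat_lit 21) (.e (nat_lit 164327) (nat_lit 230) .nil)))))) (.g (nat_lit 1) (.e (nat_lit 152100) (nat_lit 0) .nil) .nil))) 
(.lf (nat_lit 495138) (.g (nat_lit 3026) (.e (nat_lit 163902) (nat_lit 12) (.e (nat_lit 426568) (nat_lit 34) (.e (nat_lit 393267) (nat_lit 23) (.e (nat_lit 426434) (nat_lit 18) (.e (nat_lit 98334) (nat_lit 18) (.e (nat_lit 164329) (nat_lit 230) .nil)))))) (.g (nat_lit 1) (.e (nat_lit 153473) (nat_lit 0) .nil) .nil)))) (.nd (nat_lit 9) 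
(.lf (nat_lit 494882) (.g (nat_lit 3064) (.e (nat_lit 163902) (nat_lit 12) (.e (nat_lit 426438) (nat_lit 18) (.e (nat_lit 98381) (nat_lit 31) (.e (nat_lit 466954) (nat_lit 11) (.e (nat_lit 335995) (nat_lit 1) (.e (nat_lit 57687) (nat_lit 156) .nil)))))) (.g (nat_lit 1) (.e (nat_lit 153163) (nat_lit 0) .nil) .nil))) 
(.lf (nat_lit 495394) (.g (nat_lit 2812) (.e (nat_lit 163903) (nat_lit 12) (.e (nat_lit 426479) (nat_lit 27) (.e (nat_lit 336430) (nat_lit 29) (.e (nat_lit 442427) (nat_lit 23) (.e (nat_lit 204829) (nat_lit 18) (.e (nat_lit 57687) (nat_lit 156) .nil)))))) (.g (nat_lit 1) (.e (nat_lit 153801) (nat_lit 0) .nil) .nil))))) (.nd (nat_lit 8) (.nd (nat_lit 9) 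
(.lf (nat_lit 494754) (.g (nat_lit 1136) (.e (nat_lit 163901) (nat_lit 12) (.e (nat_lit 426428) (nat_lit 17) (.e (nat_lit 90176) (nat_lit 15) (.e (nat_lit 188423) (nat_lit 11) .nil)))) (.g (nat_lit 0) (.e (nat_lit 152951) (nat_lit 0) .nil) .nil))) 
(.lf (nat_lit 495266) (.g (nat_lit 3134) (.e (nat_lit 163902) (nat_lit 12) (.e (nat_lit 426568) (nat_lit 34) (.e (nat_lit 393293) (nat_lit 26) (.e (nat_lit 475179) (nat_lit 24) (.e (nat_lit 516117) (nat_lit 1) (.e (nat_lit 164329) (nat_lit 230) .nil)))))) (.g (nat_lit 1) (.e (nat_lit 153612) (nat_lit 0) .nil) .nil)))) (.nd (nat_lit 9) 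
(.lf (nat_lit 495010) (.g (nat_lit 2912) (.e (nat_lit 163902) (nat_lit 12) (.e (nat_lit 426566) (nat_lit 34) (.e (nat_lit 393272) (nat_lit 23) (.e (nat_lit 426434) (nat_lit 18) (.e (nat_lit 98334) (nat_lit 18) (.e (nat_lit 164332) (nat_lit 230) .nil)))))) (.g (nat_lit 1) (.e (nat_lit 153334) (nat_lit 0) .nil) .nil))) 
(.lf (nat_lit 495522) (.g (nat_lit 3423) (.e (nat_lit 163903) (nat_lit 12) (.e (nat_lit 426566) (nat_lit 34) (.e (nat_lit 393293) (nat_lit 26) (.e (nat_lit 475179) (nat_lit 24) (.e (nat_lit 516115) (nat_lit 1) (.e (nat_lit 164327) (nat_lit 230) .nil)))))) (.g (nat_lit 1) (.e (nat_lit 153939) (nat_lit 0) .nil) .nil)))))) (.nd (nat_lit 7) (.nd (nat_lit 8) (.nd (nat_lit 9) 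
(.lf (nat_lit 494690) (.g (nat_lit 1877) (.e (nat_lit 163900) (nat_lit 12) (.e (nat_lit 426125) (nat_lit 2) (.e (nat_lit 196666) (nat_lit 13) (.e (nat_lit 65617) (nat_lit 10) (.e (nat_lit 344127) (nat_lit 26) .nil))))) (.g (nat_lit 0) (.e (nat_lit 152810) (nat_lit 0) .nil) .nil))) 
(.lf (nat_lit 495202) (.g (nat_lit 3295) (.e (nat_lit 163902) (nat_lit 12) (.e (nat_lit 426568) (nat_lit 34) (.e (nat_lit 393282) (nat_lit 24) (.e (nat_lit 434231) (nat_lit 23) (.e (nat_lit 532500) (nat_lit 1) (.e (nat_lit 57685) (nat_lit 156) .nil)))))) (.g (nat_lit 1) (.e (nat_lit 153541) (nat_lit 0) .nil) .nil)))) (.nd (nat_lit 9) 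
(.lf (nat_lit 494946) (.g (nat_lit 4017) (.e (nat_lit 163902) (nat_lit 12) (.e (nat_lit 426544) (nat_lit 30) (.e (nat_lit 360467) (nat_lit 3) (.e (nat_lit 516195) (nat_lit 26) (.e (nat_lit 335986) (nat_lit 1) (.e (nat_lit 57926) (nat_lit 282) .nil)))))) (.g (nat_lit 1) (.e (nat_lit 153244) (nat_lit 0) .nil) .nil))) 
(.lf (nat_lit 495458) (.g (nat_lit 1237) (.e (nat_lit 163903) (nat_lit 12) (.e (nat_lit 426555) (nat_lit 32) (.e (nat_lit 376865) (nat_lit 22) (.e (nat_lit 90160) (nat_lit 11) .nil)))) (.g (nat_lit 0) (.e (nat_lit 153874) (nat_lit 0) .nil) .nil))))) (.nd (nat_lit 8) (.nd (nat_lit 9) 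
(.lf (nat_lit 494818) (.g (nat_lit 2992) (.e (nat_lit 163902) (nat_lit 12) (.e (nat_lit 426436) (nat_lit 18) (.e (nat_lit 98381) (nat_lit 31) (.e (nat_lit 466954) (nat_lit 11) (.e (nat_lit 335995) (nat_lit 1) (.e (nat_lit 57688) (nat_lit 156) .nil)))))) (.g (nat_lit 1) (.e (nat_lit 153096) (nat_lit 0) .nil) .nil))) 
(.lf (nat_lit 495330) (.g (nat_lit 3558) (.e (nat_lit 163903) (nat_lit 12) (.e (nat_lit 426436) (nat_lit 18) (.e (nat_lit 98358) (nat_lit 26) (.e (nat_lit 426323) (nat_lit 13) (.e (nat_lit 483363) (nat_lit 18) (.e (nat_lit 57688) (nat_lit 156) .nil)))))) (.g (nat_lit 1) (.e (nat_lit 153726) (nat_lit 0) .nil) .nil)))) (.nd (nat_lit 9) 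
(.lf (nat_lit 495074) (.g (nat_lit 2463) (.e (nat_lit 163902) (nat_lit 12) (.e (nat_lit 426566) (nat_lit 34) (.e (nat_lit 393294) (nat_lit 26) (.e (nat_lit 475177) (nat_lit 24) (.e (nat_lit 516114) (nat_lit 1) .nil))))) (.g (nat_lit 0) (.e (nat_lit 153399) (nat_lit 0) .nil) .nil))) 
(.lf (nat_lit 495586) (.g (nat_lit 3434) (.e (nat_lit 163903) (nat_lit 12) (.e (nat_lit 426568) (nat_lit 34) (.e (nat_lit 393271) (nat_lit 23) (.e (nat_lit 426131) (nat_lit 3) (.e (nat_lit 204830) (nat_lit 18) (.e (nat_lit 57685) (nat_lit 156) .nil)))))) (.g (nat_lit 1) (.e (nat_lit 154006) (nat_lit 0) .nil) .nil)))))))) 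
(.nd (nat_lit 5) (.nd (nat_lit 6) (.nd (nat_lit 7) (.nd (nat_lit 8) (.nd (nat_lit 9) 
(.lf (nat_lit 494610) (.g (nat_lit 1520) (.e (nat_lit 163886) (nat_lit 5) (.e (nat_lit 221190) (nat_lit 11) (.e (nat_lit 336076) (nat_lit 9) (.e (nat_lit 336443) (nat_lit 32) (.e (nat_lit 466969) (nat_lit 21) .nil))))) (.g (nat_lit 0) (.e (nat_lit 152084) (nat_lit 0) .nil) .nil))) 
(.lf (nat_lit 495122) (.g (nat_lit 3645) (.e (nat_lit 163902) (nat_lit 12) (.e (nat_lit 426567) (nat_lit 34) (.e (nat_lit 393271) (nat_lit 23) (.e (nat_lit 426436) (nat_lit 18) (.e (nat_lit 98334) (nat_lit 18) (.e (nat_lit 164330) (nat_lit 230) .nil)))))) (.g (nat_lit 1) (.e (nat_lit 153448) (nat_lit 0) .nil) .nil)))) (.nd (nat_lit 9) 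
(.lf (nat_lit 494866) (.g (nat_lit 2491) (.e (nat_lit 163902) (nat_lit 12) (.e (nat_lit 426438) (nat_lit 18) (.e (nat_lit 98373) (nat_lit 29) (.e (nat_lit 450568) (nat_lit 0) (.e (nat_lit 7936) (nat_lit 369) .nil))))) (.g (nat_lit 0) (.e (nat_lit 153146) (nat_lit 0) .nil) .nil))) 
(.lf (nat_lit 495378) (.g (nat_lit 2392) (.e (nat_lit 163903) (nat_lit 12) (.e (nat_lit 426478) (nat_lit 27) (.e (nat_lit 336389) (nat_lit 27) (.e (nat_lit 426190) (nat_lit 9) (.e (nat_lit 426436) (nat_lit 18) (.e (nat_lit 98335) (nat_lit 18) (.e (nat_lit 164327) (nat_lit 230) .nil))))))) (.g (nat_lit 1) (.e (nat_lit 153782) (nat_lit 0) .nil) .nil))))) (.nd (nat_lit 8) (.nd (nat_lit 9) 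
(.lf (nat_lit 494738) (.g (nat_lit 1063) (.e (nat_lit 163900) (nat_lit 12) (.e (nat_lit 426285) (nat_lit 10) (.e (nat_lit 434272) (nat_lit 38) (.e (nat_lit 655380) (nat_lit 6) .nil)))) (.g (nat_lit 0) (.e (nat_lit 152880) (nat_lit 0) .nil) .nil))) 
(.lf (nat_lit 495250) (.g (nat_lit 2367) (.e (nat_lit 163902) (nat_lit 12) (.e (nat_lit 426568) (nat_lit 34) (.e (nat_lit 393292) (nat_lit 26) (.e (nat_lit 475177) (nat_lit 24) (.e (nat_lit 516117) (nat_lit 1) (.e (nat_lit 164332) (nat_lit 230) .nil)))))) (.g (nat_lit 1) (.e (nat_lit 153596) (nat_lit 0) .nil) .nil)))) (.nd (nat_lit 9) 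
(.lf (nat_lit 494994) (.g (nat_lit 1879) (.e (nat_lit 163902) (nat_lit 12) (.e (nat_lit 426566) (nat_lit 34) (.e (nat_lit 393271) (nat_lit 23) (.e (nat_lit 425986) (nat_lit 0) (.e (nat_lit 3230) (nat_lit 197) .nil))))) (.g (nat_lit 0) (.e (nat_lit 153318) (nat_lit 0) .nil) .nil))) 
(.lf (nat_lit 495506) (.g (nat_lit 2340) (.e (nat_lit 163903) (nat_lit 12) (.e (nat_lit 426566) (nat_lit 34) (.e (nat_lit 393287) (nat_lit 25) (.e (nat_lit 458789) (nat_lit 23) (.e (nat_lit 532503) (nat_lit 1) (.e (nat_lit 57687) (nat_lit 156) .nil)))))) (.g (nat_lit 1) (.e (nat_lit 153923) (nat_lit 0) .nil) .nil)))))) (.nd (nat_lit 7) (.nd (nat_lit 8) (.nd (nat_lit 9) 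
(.lf (nat_lit 494674) (.g (nat_lit 952) (.e (nat_lit 163896) (nat_lit 10) (.e (nat_lit 409602) (nat_lit 0) (.e (nat_lit 5293) (nat_lit 298) (.e (nat_lit 1656) (nat_lit 115) .nil)))) (.g (nat_lit 0) (.e (nat_lit 152354) (nat_lit 0) .nil) .nil))) 
(.lf (nat_lit 495186) (.g (nat_lit 3763) (.e (nat_lit 163902) (nat_lit 12) (.e (nat_lit 426568) (nat_lit 34) (.e (nat_lit 393271) (nat_lit 23) (.e (nat_lit 426438) (nat_lit 18) (.e (nat_lit 98334) (nat_lit 18) (.e (nat_lit 164332) (nat_lit 230) .nil)))))) (.g (nat_lit 1) (.e (nat_lit 153521) (nat_lit 0) .nil) .nil)))) (.nd (nat_lit 9) 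
(.lf (nat_lit 494930) (.g (nat_lit 2341) (.e (nat_lit 163902) (nat_lit 12) (.e (nat_lit 426481) (nat_lit 27) (.e (nat_lit 336389) (nat_lit 27) (.e (nat_lit 426308) (nat_lit 12) (.e (nat_lit 475177) (nat_lit 24) (.e (nat_lit 516115) (nat_lit 1) (.e (nat_lit 164332) (nat_lit 230) .nil))))))) (.g (nat_lit 1) (.e (nat_lit 153228) (nat_lit 0) .nil) .nil))) 
(.lf (nat_lit 495442) (.g (nat_lit 2642) (.e (nat_lit 163903) (nat_lit 12) (.e (nat_lit 426538) (nat_lit 29) (.e (nat_lit 352315) (nat_lit 23) (.e (nat_lit 98316) (nat_lit 9) (.e (nat_lit 335988) (nat_lit 1) (.e (nat_lit 57927) (nat_lit 282) .nil)))))) (.g (nat_lit 1) (.e (nat_lit 153856) (nat_lit 0) .nil) .nil))))) (.nd (nat_lit 8) (.nd (nat_lit 9) 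
(.lf (nat_lit 494802) (.g (nat_lit 3754) (.e (nat_lit 163902) (nat_lit 12) (.e (nat_lit 426436) (nat_lit 18) (.e (nat_lit 98335) (nat_lit 18) (.e (nat_lit 164330) (nat_lit 230) .nil)))) (.g (nat_lit 0) (.e (nat_lit 153074) (nat_lit 0) .nil) .nil))) 
(.lf (nat_lit 495314) (.g (nat_lit 2125) (.e (nat_lit 163903) (nat_lit 12) (.e (nat_lit 426428) (nat_lit 17) (.e (nat_lit 90170) (nat_lit 13) (.e (nat_lit 172121) (nat_lit 13) (.e (nat_lit 483366) (nat_lit 18) (.e (nat_lit 57688) (nat_lit 156) .nil)))))) (.g (nat_lit 1) (.e (nat_lit 153709) (nat_lit 0) .nil) .nil)))) (.nd (nat_lit 9) 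
(.lf (nat_lit 495058) (.g (nat_lit 3598) (.e (nat_lit 163902) (nat_lit 12) (.e (nat_lit 426566) (nat_lit 34) (.e (nat_lit 393292) (nat_lit 26) (.e (nat_lit 475177) (nat_lit 24) (.e (nat_lit 516117) (nat_lit 1) (.e (nat_lit 164330) (nat_lit 230) .nil)))))) (.g (nat_lit 1) (.e (nat_lit 153383) (nat_lit 0) .nil) .nil))) 
(.lf (nat_lit 495570) (.g (nat_lit 3622) (.e (nat_lit 163903) (nat_lit 12) (.e (nat_lit 426568) (nat_lit 34) (.e (nat_lit 393267) (nat_lit 23) (.e (nat_lit 426438) (nat_lit 18) (.e (nat_lit 98333) (nat_lit 18) (.e (nat_lit 164325) (nat_lit 230) .nil)))))) (.g (nat_lit 1) (.e (nat_lit 153990) (nat_lit 0) .nil) .nil))))))) (.nd (nat_lit 6) (.nd (nat_lit 7) (.nd (nat_lit 8) (.nd (nat_lit 9) 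
(.lf (nat_lit 494642) (.g (nat_lit 1079) (.e (nat_lit 163886) (nat_lit 5) (.e (nat_lit 221194) (nat_lit 11) (.e (nat_lit 336086) (nat_lit 9) (.e (nat_lit 336427) (nat_lit 29) .nil)))) (.g (nat_lit 0) (.e (nat_lit 152118) (nat_lit 0) .nil) .nil))) 
(.lf (nat_lit 495154) (.g (nat_lit 2789) (.e (nat_lit 163902) (nat_lit 12) (.e (nat_lit 426568) (nat_lit 34) (.e (nat_lit 393270) (nat_lit 23) (.e (nat_lit 426436) (nat_lit 18) (.e (nat_lit 98333) (nat_lit 18) (.e (nat_lit 164332) (nat_lit 230) .nil)))))) (.g (nat_lit 1) (.e (nat_lit 153489) (nat_lit 0) .nil) .nil)))) (.nd (nat_lit 9) 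
(.lf (nat_lit 494898) (.g (nat_lit 2571) (.e (nat_lit 163902) (nat_lit 12) (.e (nat_lit 426478) (nat_lit 27) (.e (nat_lit 336389) (nat_lit 27) (.e (nat_lit 426308) (nat_lit 12) (.e (nat_lit 475178) (nat_lit 24) (.e (nat_lit 516117) (nat_lit 1) (.e (nat_lit 164329) (nat_lit 230) .nil))))))) (.g (nat_lit 1) (.e (nat_lit 153179) (nat_lit 0) .nil) .nil))) 
(.lf (nat_lit 495410) (.g (nat_lit 1864) (.e (nat_lit 163903) (nat_lit 12) (.e (nat_lit 426479) (nat_lit 27) (.e (nat_lit 336434) (nat_lit 30) (.e (nat_lit 450586) (nat_lit 10) (.e (nat_lit 573475) (nat_lit 12) (.e (nat_lit 65280) (nat_lit 0) (.e (nat_lit 5222) (nat_lit 296) .nil))))))) (.g (nat_lit 1) (.e (nat_lit 153817) (nat_lit 0) .nil) .nil))))) (.nd (nat_lit 8) (.nd (nat_lit 9) 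
(.lf (nat_lit 494770) (.g (nat_lit 2582) (.e (nat_lit 163901) (nat_lit 12) (.e (nat_lit 426566) (nat_lit 34) (.e (nat_lit 393294) (nat_lit 26) (.e (nat_lit 475177) (nat_lit 24) (.e (nat_lit 516119) (nat_lit 1) (.e (nat_lit 164325) (nat_lit 230) .nil)))))) (.g (nat_lit 1) (.e (nat_lit 152982) (nat_lit 0) .nil) .nil))) 
(.lf (nat_lit 495282) (.g (nat_lit 4019) (.e (nat_lit 163902) (nat_lit 12) (.e (nat_lit 426568) (nat_lit 34) (.e (nat_lit 393294) (nat_lit 26) (.e (nat_lit 475177) (nat_lit 24) (.e (nat_lit 516117) (nat_lit 1) (.e (nat_lit 164329) (nat_lit 230) .nil)))))) (.g (nat_lit 1) (.e (nat_lit 153628) (nat_lit 0) .nil) .nil)))) (.nd (nat_lit 9) 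
(.lf (nat_lit 495026) (.g (nat_lit 3281) (.e (nat_lit 163902) (nat_lit 12) (.e (nat_lit 426566) (nat_lit 34) (.e (nat_lit 393284) (nat_lit 24) (.e (nat_lit 434233) (nat_lit 23) (.e (nat_lit 532499) (nat_lit 1) (.e (nat_lit 57688) (nat_lit 156) .nil)))))) (.g (nat_lit 1) (.e (nat_lit 153350) (nat_lit 0) .nil) .nil))) 
(.lf (nat_lit 495538) (.g (nat_lit 2156) (.e (nat_lit 163903) (nat_lit 12) (.e (nat_lit 426566) (nat_lit 34) (.e (nat_lit 393296) (nat_lit 26) (.e (nat_lit 475176) (nat_lit 24) (.e (nat_lit 516118) (nat_lit 1) (.e (nat_lit 164325) (nat_lit 230) .nil)))))) (.g (nat_lit 1) (.e (nat_lit 153956) (nat_lit 0) .nil) .nil)))))) (.nd (nat_lit 7) (.nd (nat_lit 8) (.nd (nat_lit 9) 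
(.lf (nat_lit 494706) (.g (nat_lit 2140) (.e (nat_lit 163900) (nat_lit 12) (.e (nat_lit 426125) (nat_lit 2) (.e (nat_lit 196666) (nat_lit 13) (.e (nat_lit 65617) (nat_lit 10) (.e (nat_lit 344133) (nat_lit 26) (.e (nat_lit 557089) (nat_lit 12) (.e (nat_lit 163848) (nat_lit 0) (.e (nat_lit 6420) (nat_lit 341) .nil)))))))) (.g (nat_lit 1) (.e (nat_lit 152826) (nat_lit 0) .nil) .nil))) 
(.lf (nat_lit 495218) (.g (nat_lit 2956) (.e (nat_lit 163902) (nat_lit 12) (.e (nat_lit 426568) (nat_lit 34) (.e (nat_lit 393286) (nat_lit 25) (.e (nat_lit 458789) (nat_lit 23) (.e (nat_lit 532501) (nat_lit 1) (.e (nat_lit 57685) (nat_lit 156) .nil)))))) (.g (nat_lit 1) (.e (nat_lit 153564) (nat_lit 0) .nil) .nil)))) (.nd (nat_lit 9) 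
(.lf (nat_lit 494962) (.g (nat_lit 1237) (.e (nat_lit 163902) (nat_lit 12) (.e (nat_lit 426555) (nat_lit 32) (.e (nat_lit 376865) (nat_lit 22) (.e (nat_lit 90160) (nat_lit 11) .nil)))) (.g (nat_lit 0) (.e (nat_lit 153275) (nat_lit 0) .nil) .nil))) 
(.lf (nat_lit 495474) (.g (nat_lit 3337) (.e (nat_lit 163903) (nat_lit 12) (.e (nat_lit 426566) (nat_lit 34) (.e (nat_lit 393268) (nat_lit 23) (.e (nat_lit 426438) (nat_lit 18) (.e (nat_lit 98335) (nat_lit 18) (.e (nat_lit 164327) (nat_lit 230) .nil)))))) (.g (nat_lit 1) (.e (nat_lit 153891) (nat_lit 0) .nil) .nil))))) (.nd (nat_lit 8) (.nd (nat_lit 9) 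
(.lf (nat_lit 494834) (.g (nat_lit 3591) (.e (nat_lit 163902) (nat_lit 12) (.e (nat_lit 426438) (nat_lit 18) (.e (nat_lit 98365) (nat_lit 26) (.e (nat_lit 426343) (nat_lit 14) (.e (nat_lit 491584) (nat_lit 28) (.e (nat_lit 434208) (nat_lit 18) (.e (nat_lit 6420) (nat_lit 341) .nil))))))) (.g (nat_lit 1) (.e (nat_lit 153114) (nat_lit 0) .nil) .nil))) 
(.lf (nat_lit 495346) (.g (nat_lit 1983) (.e (nat_lit 163903) (nat_lit 12) (.e (nat_lit 426437) (nat_lit 18) (.e (nat_lit 98381) (nat_lit 31) (.e (nat_lit 466954) (nat_lit 11) (.e (nat_lit 335995) (nat_lit 1) (.e (nat_lit 57688) (nat_lit 156) .nil)))))) (.g (nat_lit 1) (.e (nat_lit 153743) (nat_lit 0) .nil) .nil)))) (.nd (nat_lit 9) 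
(.lf (nat_lit 495090) (.g (nat_lit 4219) (.e (nat_lit 163902) (nat_lit 12) (.e (nat_lit 426566) (nat_lit 34) (.e (nat_lit 393294) (nat_lit 26) (.e (nat_lit 475179) (nat_lit 24) (.e (nat_lit 516120) (nat_lit 1) (.e (nat_lit 164330) (nat_lit 230) .nil)))))) (.g (nat_lit 1) (.e (nat_lit 153415) (nat_lit 0) .nil) .nil))) 
(.lf (nat_lit 495602) (.g (nat_lit 3243) (.e (nat_lit 163903) (nat_lit 12) (.e (nat_lit 426568) (nat_lit 34) (.e (nat_lit 393271) (nat_lit 23) (.e (nat_lit 426438) (nat_lit 18) (.e (nat_lit 98335) (nat_lit 18) (.e (nat_lit 164326) (nat_lit 230) .nil)))))) (.g (nat_lit 1) (.e (nat_lit 154022) (nat_lit 0) .nil) .nil))))))))) 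
(.nd (nat_lit 4) (.nd (nat_lit 5) (.nd (nat_lit 6) (.nd (nat_lit 7) (.nd (nat_lit 8) 
(.nd (nat_lit 9) 
(.lf (nat_lit 494602) (.g (nat_lit 1371) (.e (nat_lit 163885) (nat_lit 5) (.e (nat_lit 221210) (nat_lit 22) (.e (nat_lit 196656) (nat_lit 11) (.e (nat_lit 16425) (nat_lit 7) .nil)))) (.g (nat_lit 0) (.e (nat_lit 152043) (nat_lit 0) .nil) .nil))) 
(.lf (nat_lit 495114) (.g (nat_lit 3136) (.e (nat_lit 163902) (nat_lit 12) (.e (nat_lit 426566) (nat_lit 34) (.e (nat_lit 393296) (nat_lit 26) (.e (nat_lit 475179) (nat_lit 24) (.e (nat_lit 516115) (nat_lit 1) (.e (nat_lit 164332) (nat_lit 230) .nil)))))) (.g (nat_lit 1) (.e (nat_lit 153439) (nat_lit 0) .nil) .nil)))) (.nd (nat_lit 9) 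
(.lf (nat_lit 494858) (.g (nat_lit 3244) (.e (nat_lit 163902) (nat_lit 12) (.e (nat_lit 426438) (nat_lit 18) (.e (nat_lit 98373) (nat_lit 29) (.e (nat_lit 450563) (nat_lit 0) (.e (nat_lit 6416) (nat_lit 341) .nil))))) (.g (nat_lit 0) (.e (nat_lit 153138) (nat_lit 0) .nil) .nil))) 
(.lf (nat_lit 495370) (.g (nat_lit 1811) (.e (nat_lit 163903) (nat_lit 12) (.e (nat_lit 426438) (nat_lit 18) (.e (nat_lit 98380) (nat_lit 31) (.e (nat_lit 466954) (nat_lit 11) (.e (nat_lit 335985) (nat_lit 1) (.e (nat_lit 57686) (nat_lit 156) .nil)))))) (.g (nat_lit 1) (.e (nat_lit 153774) (nat_lit 0) .nil) .nil))))) (.nd (nat_lit 8) (.nd (nat_lit 9) 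
(.lf (nat_lit 494730) (.g (nat_lit 3245) (.e (nat_lit 163900) (nat_lit 12) (.e (nat_lit 426140) (nat_lit 3) (.e (nat_lit 204869) (nat_lit 29) (.e (nat_lit 360475) (nat_lit 8) (.e (nat_lit 557089) (nat_lit 12) (.e (nat_lit 163843) (nat_lit 0) (.e (nat_lit 6420) (nat_lit 341) .nil))))))) (.g (nat_lit 1) (.e (nat_lit 152868) (nat_lit 0) .nil) .nil))) 
(.lf (nat_lit 495242) (.g (nat_lit 3932) (.e (nat_lit 163902) (nat_lit 12) (.e (nat_lit 426568) (nat_lit 34) (.e (nat_lit 393291) (nat_lit 26) (.e (nat_lit 475179) (nat_lit 24) (.e (nat_lit 516117) (nat_lit 1) (.e (nat_lit 164329) (nat_lit 230) .nil)))))) (.g (nat_lit 1) (.e (nat_lit 153588) (nat_lit 0) .nil) .nil)))) (.nd (nat_lit 9) 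
(.lf (nat_lit 494986) (.g (nat_lit 2190) (.e (nat_lit 163902) (nat_lit 12) (.e (nat_lit 426566) (nat_lit 34) (.e (nat_lit 393270) (nat_lit 23) (.e (nat_lit 426131) (nat_lit 3) (.e (nat_lit 204831) (nat_lit 18) (.e (nat_lit 57688) (nat_lit 156) .nil)))))) (.g (nat_lit 1) (.e (nat_lit 153310) (nat_lit 0) .nil) .nil))) 
(.lf (nat_lit 495498) (.g (nat_lit 2695) (.e (nat_lit 163903) (nat_lit 12) (.e (nat_lit 426566) (nat_lit 34) (.e (nat_lit 393282) (nat_lit 24) (.e (nat_lit 434233) (nat_lit 23) (.e (nat_lit 532503) (nat_lit 1) (.e (nat_lit 57688) (nat_lit 156) .nil)))))) (.g (nat_lit 1) (.e (nat_lit 153915) (nat_lit 0) .nil) .nil)))))) (.nd (nat_lit 7) (.nd (nat_lit 8) (.nd (nat_lit 9) 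
(.lf (nat_lit 494666) (.g (nat_lit 996) (.e (nat_lit 163894) (nat_lit 9) (.e (nat_lit 262165) (nat_lit 11) (.e (nat_lit 24658) (nat_lit 13) (.e (nat_lit 393281) (nat_lit 23) .nil)))) (.g (nat_lit 0) (.e (nat_lit 152205) (nat_lit 0) .nil) .nil))) 
(.lf (nat_lit 495178) (.g (nat_lit 3764) (.e (nat_lit 163902) (nat_lit 12) (.e (nat_lit 426568) (nat_lit 34) (.e (nat_lit 393271) (nat_lit 23) (.e (nat_lit 426436) (nat_lit 18) (.e (nat_lit 98335) (nat_lit 18) (.e (nat_lit 164324) (nat_lit 230) .nil)))))) (.g (nat_lit 1) (.e (nat_lit 153513) (nat_lit 0) .nil) .nil)))) (.nd (nat_lit 9) 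
(.lf (nat_lit 494922) (.g (nat_lit 2231) (.e (nat_lit 163902) (nat_lit 12) (.e (nat_lit 426480) (nat_lit 27) (.e (nat_lit 336389) (nat_lit 27) (.e (nat_lit 426308) (nat_lit 12) (.e (nat_lit 475177) (nat_lit 24) .nil))))) (.g (nat_lit 0) (.e (nat_lit 153217) (nat_lit 0) .nil) .nil))) 
(.lf (nat_lit 495434) (.g (nat_lit 2333) (.e (nat_lit 163903) (nat_lit 12) (.e (nat_lit 426538) (nat_lit 29) (.e (nat_lit 352315) (nat_lit 23) (.e (nat_lit 98312) (nat_lit 9) (.e (nat_lit 335987) (nat_lit 1) (.e (nat_lit 57927) (nat_lit 282) .nil)))))) (.g (nat_lit 1) (.e (nat_lit 153848) (nat_lit 0) .nil) .nil))))) (.nd (nat_lit 8) (.nd (nat_lit 9) 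
(.lf (nat_lit 494794) (.g (nat_lit 2828) (.e (nat_lit 163902) (nat_lit 12) (.e (nat_lit 426428) (nat_lit 17) (.e (nat_lit 90170) (nat_lit 13) (.e (nat_lit 172126) (nat_lit 14) (.e (nat_lit 491584) (nat_lit 28) .nil))))) (.g (nat_lit 0) (.e (nat_lit 153065) (nat_lit 0) .nil) .nil))) 
(.lf (nat_lit 495306) (.g (nat_lit 4344) (.e (nat_lit 163903) (nat_lit 12) (.e (nat_lit 426131) (nat_lit 3) (.e (nat_lit 204869) (nat_lit 29) (.e (nat_lit 360474) (nat_lit 8) (.e (nat_lit 557093) (nat_lit 12) .nil))))) (.g (nat_lit 0) (.e (nat_lit 153653) (nat_lit 0) .nil) .nil)))) (.nd (nat_lit 9) 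
(.lf (nat_lit 495050) (.g (nat_lit 2533) (.e (nat_lit 163902) (nat_lit 12) (.e (nat_lit 426566) (nat_lit 34) (.e (nat_lit 393291) (nat_lit 26) (.e (nat_lit 475178) (nat_lit 24) (.e (nat_lit 516117) (nat_lit 1) (.e (nat_lit 164329) (nat_lit 230) .nil)))))) (.g (nat_lit 1) (.e (nat_lit 153375) (nat_lit 0) .nil) .nil))) 
(.lf (nat_lit 495562) (.g (nat_lit 2634) (.e (nat_lit 163903) (nat_lit 12) (.e (nat_lit 426567) (nat_lit 34) (.e (nat_lit 393294) (nat_lit 26) (.e (nat_lit 475177) (nat_lit 24) (.e (nat_lit 516119) (nat_lit 1) (.e (nat_lit 164324) (nat_lit 230) .nil)))))) (.g (nat_lit 1) (.e (nat_lit 153980) (nat_lit 0) .nil) .nil))))))) (.nd (nat_lit 6) (.nd (nat_lit 7) (.nd (nat_lit 8) (.nd (nat_lit 9) 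
(.lf (nat_lit 494634) (.g (nat_lit 2757) (.e (nat_lit 163886) (nat_lit 5) (.e (nat_lit 221194) (nat_lit 11) (.e (nat_lit 336074) (nat_lit 9) (.e (nat_lit 336443) (nat_lit 32) (.e (nat_lit 466971) (nat_lit 21) (.e (nat_lit 164324) (nat_lit 230) .nil)))))) (.g (nat_lit 1) (.e (nat_lit 152110) (nat_lit 0) .nil) .nil))) 
(.lf (nat_lit 495146) (.g (nat_lit 3830) (.e (nat_lit 163902) (nat_lit 12) (.e (nat_lit 426568) (nat_lit 34) (.e (nat_lit 393268) (nat_lit 23) (.e (nat_lit 426436) (nat_lit 18) (.e (nat_lit 98334) (nat_lit 18) (.e (nat_lit 164332) (nat_lit 230) .nil)))))) (.g (nat_lit 1) (.e (nat_lit 153481) (nat_lit 0) .nil) .nil)))) (.nd (nat_lit 9) 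
(.lf (nat_lit 494890) (.g (nat_lit 2318) (.e (nat_lit 163902) (nat_lit 12) (.e (nat_lit 426472) (nat_lit 25) (.e (nat_lit 319534) (nat_lit 16) (.e (nat_lit 286756) (nat_lit 10) (.e (nat_lit 344099) (nat_lit 18) .nil))))) (.g (nat_lit 0) (.e (nat_lit 153171) (nat_lit 0) .nil) .nil))) 
(.lf (nat_lit 495402) (.g (nat_lit 3200) (.e (nat_lit 163903) (nat_lit 12) (.e (nat_lit 426479) (nat_lit 27) (.e (nat_lit 336432) (nat_lit 30) (.e (nat_lit 450588) (nat_lit 10) (.e (nat_lit 573473) (nat_lit 12) (.e (nat_lit 57350) (nat_lit 0) (.e (nat_lit 5219) (nat_lit 296) .nil))))))) (.g (nat_lit 1) (.e (nat_lit 153809) (nat_lit 0) .nil) .nil))))) (.nd (nat_lit 8) (.nd (nat_lit 9) 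
(.lf (nat_lit 494762) (.g (nat_lit 1882) (.e (nat_lit 163901) (nat_lit 12) (.e (nat_lit 426555) (nat_lit 32) (.e (nat_lit 376869) (nat_lit 23) (.e (nat_lit 98317) (nat_lit 9) (.e (nat_lit 335988) (nat_lit 1) .nil))))) (.g (nat_lit 0) (.e (nat_lit 152974) (nat_lit 0) .nil) .nil))) 
(.lf (nat_lit 495274) (.g (nat_lit 4041) (.e (nat_lit 163902) (nat_lit 12) (.e (nat_lit 426568) (nat_lit 34) (.e (nat_lit 393294) (nat_lit 26) (.e (nat_lit 475176) (nat_lit 24) (.e (nat_lit 516117) (nat_lit 1) (.e (nat_lit 164329) (nat_lit 230) .nil)))))) (.g (nat_lit 1) (.e (nat_lit 153620) (nat_lit 0) .nil) .nil)))) (.nd (nat_lit 9) 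
(.lf (nat_lit 495018) (.g (nat_lit 3666) (.e (nat_lit 163902) (nat_lit 12) (.e (nat_lit 426566) (nat_lit 34) (.e (nat_lit 393273) (nat_lit 23) (.e (nat_lit 426438) (nat_lit 18) (.e (nat_lit 98334) (nat_lit 18) (.e (nat_lit 164332) (nat_lit 230) .nil)))))) (.g (nat_lit 1) (.e (nat_lit 153342) (nat_lit 0) .nil) .nil))) 
(.lf (nat_lit 495530) (.g (nat_lit 3491) (.e (nat_lit 163903) (nat_lit 12) (.e (nat_lit 426566) (nat_lit 34) (.e (nat_lit 393294) (nat_lit 26) (.e (nat_lit 475179) (nat_lit 24) (.e (nat_lit 516115) (nat_lit 1) (.e (nat_lit 164327) (nat_lit 230) .nil)))))) (.g (nat_lit 1) (.e (nat_lit 153948) (nat_lit 0) .nil) .nil)))))) (.nd (nat_lit 7) (.nd (nat_lit 8) (.nd (nat_lit 9) 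
(.lf (nat_lit 494698) (.g (nat_lit 5317) (.e (nat_lit 163900) (nat_lit 12) (.e (nat_lit 426125) (nat_lit 2) (.e (nat_lit 196666) (nat_lit 13) (.e (nat_lit 65617) (nat_lit 10) (.e (nat_lit 344130) (nat_lit 26) (.e (nat_lit 557090) (nat_lit 12) (.e (nat_lit 163843) (nat_lit 0) (.e (nat_lit 6421) (nat_lit 341) .nil)))))))) (.g (nat_lit 1) (.e (nat_lit 152818) (nat_lit 0) .nil) .nil))) 
(.lf (nat_lit 495210) (.g (nat_lit 3040) (.e (nat_lit 163902) (nat_lit 12) (.e (nat_lit 426568) (nat_lit 34) (.e (nat_lit 393283) (nat_lit 24) (.e (nat_lit 434231) (nat_lit 23) (.e (nat_lit 532502) (nat_lit 1) (.e (nat_lit 57688) (nat_lit 156) .nil)))))) (.g (nat_lit 1) (.e (nat_lit 153555) (nat_lit 0) .nil) .nil)))) (.nd (nat_lit 9) 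
(.lf (nat_lit 494954) (.g (nat_lit 2577) (.e (nat_lit 163902) (nat_lit 12) (.e (nat_lit 426544) (nat_lit 30) (.e (nat_lit 360467) (nat_lit 3) (.e (nat_lit 516199) (nat_lit 26) (.e (nat_lit 335996) (nat_lit 1) (.e (nat_lit 57931) (nat_lit 282) .nil)))))) (.g (nat_lit 1) (.e (nat_lit 153252) (nat_lit 0) .nil) .nil))) 
(.lf (nat_lit 495466) (.g (nat_lit 3090) (.e (nat_lit 163903) (nat_lit 12) (.e (nat_lit 426555) (nat_lit 32) (.e (nat_lit 376869) (nat_lit 23) (.e (nat_lit 98317) (nat_lit 9) (.e (nat_lit 335988) (nat_lit 1) (.e (nat_lit 57926) (nat_lit 282) .nil)))))) (.g (nat_lit 1) (.e (nat_lit 153882) (nat_lit 0) .nil) .nil))))) (.nd (nat_lit 8) (.nd (nat_lit 9) 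
(.lf (nat_lit 494826) (.g (nat_lit 1772) (.e (nat_lit 163902) (nat_lit 12) (.e (nat_lit 426438) (nat_lit 18) (.e (nat_lit 98358) (nat_lit 26) (.e (nat_lit 426323) (nat_lit 13) (.e (nat_lit 483366) (nat_lit 18) (.e (nat_lit 57687) (nat_lit 156) .nil)))))) (.g (nat_lit 1) (.e (nat_lit 153106) (nat_lit 0) .nil) .nil))) 
(.lf (nat_lit 495338) (.g (nat_lit 2522) (.e (nat_lit 163903) (nat_lit 12) (.e (nat_lit 426436) (nat_lit 18) (.e (nat_lit 98380) (nat_lit 31) (.e (nat_lit 466954) (nat_lit 11) (.e (nat_lit 335986) (nat_lit 1) (.e (nat_lit 57687) (nat_lit 156) .nil)))))) (.g (nat_lit 1) (.e (nat_lit 153735) (nat_lit 0) .nil) .nil)))) (.nd (nat_lit 9) 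
(.lf (nat_lit 495082) (.g (nat_lit 3668) (.e (nat_lit 163902) (nat_lit 12) (.e (nat_lit 426566) (nat_lit 34) (.e (nat_lit 393294) (nat_lit 26) (.e (nat_lit 475177) (nat_lit 24) (.e (nat_lit 516120) (nat_lit 1) (.e (nat_lit 164331) (nat_lit 230) .nil)))))) (.g (nat_lit 1) (.e (nat_lit 153407) (nat_lit 0) .nil) .nil))) 
(.lf (nat_lit 495594) (.g (nat_lit 4424) (.e (nat_lit 163903) (nat_lit 12) (.e (nat_lit 426568) (nat_lit 34) (.e (nat_lit 393271) (nat_lit 23) (.e (nat_lit 426436) (nat_lit 18) (.e (nat_lit 98333) (nat_lit 18) (.e (nat_lit 164325) (nat_lit 230) .nil)))))) (.g (nat_lit 1) (.e (nat_lit 154014) (nat_lit 0) .nil) .nil)))))))) 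
(.nd (nat_lit 5) (.nd (nat_lit 6) (.nd (nat_lit 7) (.nd (nat_lit 8) (.nd (nat_lit 9) 
(.lf (nat_lit 494618) (.g (nat_lit 1177) (.e (nat_lit 163886) (nat_lit 5) (.e (nat_lit 221190) (nat_lit 11) (.e (nat_lit 336084) (nat_lit 9) (.e (nat_lit 336443) (nat_lit 32) (.e (nat_lit 466969) (nat_lit 21) .nil))))) (.g (nat_lit 0) (.e (nat_lit 152092) (nat_lit 0) .nil) .nil))) 
(.lf (nat_lit 495130) (.g (nat_lit 2355) (.e (nat_lit 163902) (nat_lit 12) (.e (nat_lit 426567) (nat_lit 34) (.e (nat_lit 393294) (nat_lit 26) (.e (nat_lit 475178) (nat_lit 24) (.e (nat_lit 516120) (nat_lit 1) (.e (nat_lit 164329) (nat_lit 230) .nil)))))) (.g (nat_lit 1) (.e (nat_lit 153456) (nat_lit 0) .nil) .nil)))) (.nd (nat_lit 9) 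
(.lf (nat_lit 494874) (.g (nat_lit 1316) (.e (nat_lit 163902) (nat_lit 12) (.e (nat_lit 426438) (nat_lit 18) (.e (nat_lit 98374) (nat_lit 29) (.e (nat_lit 450569) (nat_lit 0) (.e (nat_lit 7936) (nat_lit 369) .nil))))) (.g (nat_lit 0) (.e (nat_lit 153155) (nat_lit 0) .nil) .nil))) 
(.lf (nat_lit 495386) (.g (nat_lit 3303) (.e (nat_lit 163903) (nat_lit 12) (.e (nat_lit 426478) (nat_lit 27) (.e (nat_lit 336389) (nat_lit 27) (.e (nat_lit 426308) (nat_lit 12) (.e (nat_lit 475179) (nat_lit 24) (.e (nat_lit 516115) (nat_lit 1) (.e (nat_lit 164325) (nat_lit 230) .nil))))))) (.g (nat_lit 1) (.e (nat_lit 153790) (nat_lit 0) .nil) .nil))))) (.nd (nat_lit 8) (.nd (nat_lit 9) 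
(.lf (nat_lit 494746) (.g (nat_lit 1106) (.e (nat_lit 163900) (nat_lit 12) (.e (nat_lit 426479) (nat_lit 27) (.e (nat_lit 336430) (nat_lit 29) (.e (nat_lit 442425) (nat_lit 23) (.e (nat_lit 204830) (nat_lit 18) (.e (nat_lit 57689) (nat_lit 156) .nil)))))) (.g (nat_lit 1) (.e (nat_lit 152917) (nat_lit 0) .nil) .nil))) 
(.lf (nat_lit 495258) (.g (nat_lit 2712) (.e (nat_lit 163902) (nat_lit 12) (.e (nat_lit 426568) (nat_lit 34) (.e (nat_lit 393293) (nat_lit 26) (.e (nat_lit 475177) (nat_lit 24) (.e (nat_lit 516115) (nat_lit 1) (.e (nat_lit 164332) (nat_lit 230) .nil)))))) (.g (nat_lit 1) (.e (nat_lit 153604) (nat_lit 0) .nil) .nil)))) (.nd (nat_lit 9) 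
(.lf (nat_lit 495002) (.g (nat_lit 3881) (.e (nat_lit 163902) (nat_lit 12) (.e (nat_lit 426566) (nat_lit 34) (.e (nat_lit 393271) (nat_lit 23) (.e (nat_lit 426436) (nat_lit 18) (.e (nat_lit 98334) (nat_lit 18) (.e (nat_lit 164332) (nat_lit 230) .nil)))))) (.g (nat_lit 1) (.e (nat_lit 153326) (nat_lit 0) .nil) .nil))) 
(.lf (nat_lit 495514) (.g (nat_lit 3937) (.e (nat_lit 163903) (nat_lit 12) (.e (nat_lit 426566) (nat_lit 34) (.e (nat_lit 393291) (nat_lit 26) (.e (nat_lit 475177) (nat_lit 24) (.e (nat_lit 516115) (nat_lit 1) (.e (nat_lit 164327) (nat_lit 230) .nil)))))) (.g (nat_lit 1) (.e (nat_lit 153931) (nat_lit 0) .nil) .nil)))))) (.nd (nat_lit 7) (.nd (nat_lit 8) (.nd (nat_lit 9) 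
(.lf (nat_lit 494682) (.g (nat_lit 1046) (.e (nat_lit 163896) (nat_lit 10) (.e (nat_lit 409649) (nat_lit 18) (.e (nat_lit 303129) (nat_lit 9) .nil))) (.g (nat_lit 0) (.e (nat_lit 152707) (nat_lit 0) .nil) .nil))) 
(.lf (nat_lit 495194) (.g (nat_lit 2051) (.e (nat_lit 163902) (nat_lit 12) (.e (nat_lit 426568) (nat_lit 34) (.e (nat_lit 393279) (nat_lit 23) (.e (nat_lit 426129) (nat_lit 3) (.e (nat_lit 204831) (nat_lit 18) (.e (nat_lit 57686) (nat_lit 156) .nil)))))) (.g (nat_lit 1) (.e (nat_lit 153530) (nat_lit 0) .nil) .nil)))) (.nd (nat_lit 9) 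
(.lf (nat_lit 494938) (.g (nat_lit 1080) (.e (nat_lit 163902) (nat_lit 12) (.e (nat_lit 426530) (nat_lit 27) (.e (nat_lit 336390) (nat_lit 27) (.e (nat_lit 426308) (nat_lit 12) .nil)))) (.g (nat_lit 0) (.e (nat_lit 153236) (nat_lit 0) .nil) .nil))) 
(.lf (nat_lit 495450) (.g (nat_lit 1370) (.e (nat_lit 163903) (nat_lit 12) (.e (nat_lit 426545) (nat_lit 30) (.e (nat_lit 360475) (nat_lit 8) (.e (nat_lit 564992) (nat_lit 0) .nil)))) (.g (nat_lit 0) (.e (nat_lit 153864) (nat_lit 0) .nil) .nil))))) (.nd (nat_lit 8) (.nd (nat_lit 9) 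
(.lf (nat_lit 494810) (.g (nat_lit 2760) (.e (nat_lit 163902) (nat_lit 12) (.e (nat_lit 426436) (nat_lit 18) (.e (nat_lit 98369) (nat_lit 28) (.e (nat_lit 442390) (nat_lit 11) (.e (nat_lit 335986) (nat_lit 1) (.e (nat_lit 57688) (nat_lit 156) .nil)))))) (.g (nat_lit 1) (.e (nat_lit 153086) (nat_lit 0) .nil) .nil))) 
(.lf (nat_lit 495322) (.g (nat_lit 3258) (.e (nat_lit 163903) (nat_lit 12) (.e (nat_lit 426428) (nat_lit 17) (.e (nat_lit 90185) (nat_lit 17) (.e (nat_lit 237623) (nat_lit 13) (.e (nat_lit 483365) (nat_lit 18) (.e (nat_lit 57688) (nat_lit 156) .nil)))))) (.g (nat_lit 1) (.e (nat_lit 153717) (nat_lit 0) .nil) .nil)))) (.nd (nat_lit 9) 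
(.lf (nat_lit 495066) (.g (nat_lit 2914) (.e (nat_lit 163902) (nat_lit 12) (.e (nat_lit 426566) (nat_lit 34) (.e (nat_lit 393293) (nat_lit 26) (.e (nat_lit 475177) (nat_lit 24) (.e (nat_lit 516118) (nat_lit 1) (.e (nat_lit 164332) (nat_lit 230) .nil)))))) (.g (nat_lit 1) (.e (nat_lit 153391) (nat_lit 0) .nil) .nil))) 
(.lf (nat_lit 495578) (.g (nat_lit 3849) (.e (nat_lit 163903) (nat_lit 12) (.e (nat_lit 426568) (nat_lit 34) (.e (nat_lit 393269) (nat_lit 23) (.e (nat_lit 426436) (nat_lit 18) (.e (nat_lit 98335) (nat_lit 18) (.e (nat_lit 164327) (nat_lit 230) .nil)))))) (.g (nat_lit 1) (.e (nat_lit 153998) (nat_lit 0) .nil) .nil))))))) (.nd (nat_lit 6) (.nd (nat_lit 7) (.nd (nat_lit 8) (.nd (nat_lit 9) 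
(.lf (nat_lit 494650) (.g (nat_lit 1135) (.e (nat_lit 163886) (nat_lit 5) (.e (nat_lit 221215) (nat_lit 23) (.e (nat_lit 204813) (nat_lit 9) (.e (nat_lit 426188) (nat_lit 9) .nil)))) (.g (nat_lit 0) (.e (nat_lit 152157) (nat_lit 0) .nil) .nil))) 
(.lf (nat_lit 495162) (.g (nat_lit 3165) (.e (nat_lit 163902) (nat_lit 12) (.e (nat_lit 426568) (nat_lit 34) (.e (nat_lit 393271) (nat_lit 23) (.e (nat_lit 426131) (nat_lit 3) (.e (nat_lit 204829) (nat_lit 18) (.e (nat_lit 57687) (nat_lit 156) .nil)))))) (.g (nat_lit 1) (.e (nat_lit 153497) (nat_lit 0) .nil) .nil)))) (.nd (nat_lit 9) 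
(.lf (nat_lit 494906) (.g (nat_lit 2011) (.e (nat_lit 163902) (nat_lit 12) (.e (nat_lit 426479) (nat_lit 27) (.e (nat_lit 336416) (nat_lit 27) (.e (nat_lit 426188) (nat_lit 9) (.e (nat_lit 426436) (nat_lit 18) (.e (nat_lit 98335) (nat_lit 18) (.e (nat_lit 164330) (nat_lit 230) .nil))))))) (.g (nat_lit 1) (.e (nat_lit 153187) (nat_lit 0) .nil) .nil))) 
(.lf (nat_lit 495418) (.g (nat_lit 2583) (.e (nat_lit 163903) (nat_lit 12) (.e (nat_lit 426481) (nat_lit 27) (.e (nat_lit 336389) (nat_lit 27) (.e (nat_lit 426190) (nat_lit 9) (.e (nat_lit 426436) (nat_lit 18) (.e (nat_lit 98333) (nat_lit 18) (.e (nat_lit 164327) (nat_lit 230) .nil))))))) (.g (nat_lit 1) (.e (nat_lit 153831) (nat_lit 0) .nil) .nil))))) (.nd (nat_lit 8) (.nd (nat_lit 9) 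
(.lf (nat_lit 494778) (.g (nat_lit 1909) (.e (nat_lit 163902) (nat_lit 12) (.e (nat_lit 426250) (nat_lit 9) (.e (nat_lit 426499) (nat_lit 27) (.e (nat_lit 336232) (nat_lit 14) (.e (nat_lit 401446) (nat_lit 10) .nil))))) (.g (nat_lit 0) (.e (nat_lit 152994) (nat_lit 0) .nil) .nil))) 
(.lf (nat_lit 495290) (.g (nat_lit 3013) (.e (nat_lit 163902) (nat_lit 12) (.e (nat_lit 426568) (nat_lit 34) (.e (nat_lit 393294) (nat_lit 26) (.e (nat_lit 475177) (nat_lit 24) (.e (nat_lit 516120) (nat_lit 1) (.e (nat_lit 164322) (nat_lit 230) .nil)))))) (.g (nat_lit 1) (.e (nat_lit 153636) (nat_lit 0) .nil) .nil)))) (.nd (nat_lit 9) 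
(.lf (nat_lit 495034) (.g (nat_lit 2486) (.e (nat_lit 163902) (nat_lit 12) (.e (nat_lit 426566) (nat_lit 34) (.e (nat_lit 393289) (nat_lit 25) (.e (nat_lit 458789) (nat_lit 23) (.e (nat_lit 532499) (nat_lit 1) (.e (nat_lit 57688) (nat_lit 156) .nil)))))) (.g (nat_lit 1) (.e (nat_lit 153359) (nat_lit 0) .nil) .nil))) 
(.lf (nat_lit 495546) (.g (nat_lit 4021) (.e (nat_lit 163903) (nat_lit 12) (.e (nat_lit 426566) (nat_lit 34) (.e (nat_lit 393296) (nat_lit 26) (.e (nat_lit 475179) (nat_lit 24) (.e (nat_lit 516106) (nat_lit 0) (.e (nat_lit 2478) (nat_lit 157) (.e (nat_lit 5224) (nat_lit 296) .nil))))))) (.g (nat_lit 1) (.e (nat_lit 153964) (nat_lit 0) .nil) .nil)))))) 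
(.nd (nat_lit 7) (.nd (nat_lit 8) (.nd (nat_lit 9) 
(.lf (nat_lit 494714) (.g (nat_lit 2903) (.e (nat_lit 163900) (nat_lit 12) (.e (nat_lit 426140) (nat_lit 3) (.e (nat_lit 204868) (nat_lit 29) (.e (nat_lit 360473) (nat_lit 8) (.e (nat_lit 557091) (nat_lit 12) (.e (nat_lit 163844) (nat_lit 0) (.e (nat_lit 6420) (nat_lit 341) .nil))))))) (.g (nat_lit 1) (.e (nat_lit 152852) (nat_lit 0) .nil) .nil))) 
(.lf (nat_lit 495226) (.g (nat_lit 3665) (.e (nat_lit 163902) (nat_lit 12) (.e (nat_lit 426568) (nat_lit 34) (.e (nat_lit 393290) (nat_lit 26) (.e (nat_lit 475179) (nat_lit 24) (.e (nat_lit 516117) (nat_lit 1) (.e (nat_lit 164332) (nat_lit 230) .nil)))))) (.g (nat_lit 1) (.e (nat_lit 153572) (nat_lit 0) .nil) .nil)))) (.nd (nat_lit 9) 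
(.lf (nat_lit 494970) (.g (nat_lit 3185) (.e (nat_lit 163902) (nat_lit 12) (.e (nat_lit 426555) (nat_lit 32) (.e (nat_lit 376869) (nat_lit 23) (.e (nat_lit 98313) (nat_lit 9) (.e (nat_lit 335988) (nat_lit 1) (.e (nat_lit 57926) (nat_lit 282) .nil)))))) (.g (nat_lit 1) (.e (nat_lit 153287) (nat_lit 0) .nil) .nil))) 
(.lf (nat_lit 495482) (.g (nat_lit 3750) (.e (nat_lit 163903) (nat_lit 12) (.e (nat_lit 426566) (nat_lit 34) (.e (nat_lit 393271) (nat_lit 23) (.e (nat_lit 426131) (nat_lit 3) (.e (nat_lit 204829) (nat_lit 18) (.e (nat_lit 57688) (nat_lit 156) .nil)))))) (.g (nat_lit 1) (.e (nat_lit 153899) (nat_lit 0) .nil) .nil))))) (.nd (nat_lit 8) (.nd (nat_lit 9) 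
(.lf (nat_lit 494842) (.g (nat_lit 1701) (.e (nat_lit 163902) (nat_lit 12) (.e (nat_lit 426438) (nat_lit 18) (.e (nat_lit 98373) (nat_lit 29) (.e (nat_lit 450560) (nat_lit 0) .nil)))) (.g (nat_lit 0) (.e (nat_lit 153122) (nat_lit 0) .nil) .nil))) 
(.lf (nat_lit 495354) (.g (nat_lit 1772) (.e (nat_lit 163903) (nat_lit 12) (.e (nat_lit 426438) (nat_lit 18) (.e (nat_lit 98372) (nat_lit 29) (.e (nat_lit 450568) (nat_lit 0) (.e (nat_lit 7936) (nat_lit 369) .nil))))) (.g (nat_lit 0) (.e (nat_lit 153753) (nat_lit 0) .nil) .nil)))) (.nd (nat_lit 9) 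
(.lf (nat_lit 495098) (.g (nat_lit 3040) (.e (nat_lit 163902) (nat_lit 12) (.e (nat_lit 426566) (nat_lit 34) (.e (nat_lit 393295) (nat_lit 26) (.e (nat_lit 475177) (nat_lit 24) (.e (nat_lit 516120) (nat_lit 1) (.e (nat_lit 164331) (nat_lit 230) .nil)))))) (.g (nat_lit 1) (.e (nat_lit 153423) (nat_lit 0) .nil) .nil))) 
(.lf (nat_lit 495610) (.g (nat_lit 2415) (.e (nat_lit 163903) (nat_lit 12) (.e (nat_lit 426568) (nat_lit 34) (.e (nat_lit 393283) (nat_lit 24) (.e (nat_lit 434231) (nat_lit 23) (.e (nat_lit 532502) (nat_lit 1) (.e (nat_lit 57686) (nat_lit 156) .nil)))))) (.g (nat_lit 1) (.e (nat_lit 154030) (nat_lit 0) .nil) .nil)))))))))) 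
(.nd (nat_lit 3) (.nd (nat_lit 4) (.nd (nat_lit 5) (.nd (nat_lit 6) (.nd (nat_lit 7) 
(.nd (nat_lit 8) (.nd (nat_lit 9) 
(.lf (nat_lit 494598) (.g (nat_lit 597) (.e (nat_lit 163885) (nat_lit 5) (.e (nat_lit 221207) (nat_lit 21) (.e (nat_lit 164325) (nat_lit 230) .nil))) (.g (nat_lit 0) (.e (nat_lit 152001) (nat_lit 0) .nil) .nil))) 
(.lf (nat_lit 495110) (.g (nat_lit 3028) (.e (nat_lit 163902) (nat_lit 12) (.e (nat_lit 426566) (nat_lit 34) (.e (nat_lit 393296) (nat_lit 26) (.e (nat_lit 475178) (nat_lit 24) (.e (nat_lit 516119) (nat_lit 1) (.e (nat_lit 164331) (nat_lit 230) .nil)))))) (.g (nat_lit 1) (.e (nat_lit 153435) (nat_lit 0) .nil) .nil)))) (.nd (nat_lit 9) 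
(.lf (nat_lit 494854) (.g (nat_lit 3341) (.e (nat_lit 163902) (nat_lit 12) (.e (nat_lit 426438) (nat_lit 18) (.e (nat_lit 98373) (nat_lit 29) (.e (nat_lit 450562) (nat_lit 0) (.e (nat_lit 7936) (nat_lit 369) (.e (nat_lit 163860) (nat_lit 1) (.e (nat_lit 164332) (nat_lit 230) .nil))))))) (.g (nat_lit 1) (.e (nat_lit 153134) (nat_lit 0) .nil) .nil))) 
(.lf (nat_lit 495366) (.g (nat_lit 2540) (.e (nat_lit 163903) (nat_lit 12) (.e (nat_lit 426438) (nat_lit 18) (.e (nat_lit 98373) (nat_lit 29) (.e (nat_lit 450568) (nat_lit 0) (.e (nat_lit 7936) (nat_lit 369) .nil))))) (.g (nat_lit 0) (.e (nat_lit 153767) (nat_lit 0) .nil) .nil))))) (.nd (nat_lit 8) (.nd (nat_lit 9) 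
(.lf (nat_lit 494726) (.g (nat_lit 2822) (.e (nat_lit 163900) (nat_lit 12) (.e (nat_lit 426140) (nat_lit 3) (.e (nat_lit 204869) (nat_lit 29) (.e (nat_lit 360474) (nat_lit 8) (.e (nat_lit 557094) (nat_lit 12) (.e (nat_lit 163848) (nat_lit 0) (.e (nat_lit 6416) (nat_lit 341) .nil))))))) (.g (nat_lit 1) (.e (nat_lit 152864) (nat_lit 0) .nil) .nil))) 
(.lf (nat_lit 495238) (.g (nat_lit 2425) (.e (nat_lit 163902) (nat_lit 12) (.e (nat_lit 426568) (nat_lit 34) (.e (nat_lit 393291) (nat_lit 26) (.e (nat_lit 475177) (nat_lit 24) (.e (nat_lit 516119) (nat_lit 1) (.e (nat_lit 164332) (nat_lit 230) .nil)))))) (.g (nat_lit 1) (.e (nat_lit 153584) (nat_lit 0) .nil) .nil)))) (.nd (nat_lit 9) 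
(.lf (nat_lit 494982) (.g (nat_lit 2636) (.e (nat_lit 163902) (nat_lit 12) (.e (nat_lit 426566) (nat_lit 34) (.e (nat_lit 393268) (nat_lit 23) (.e (nat_lit 426438) (nat_lit 18) (.e (nat_lit 98335) (nat_lit 18) (.e (nat_lit 164329) (nat_lit 230) .nil)))))) (.g (nat_lit 1) (.e (nat_lit 153306) (nat_lit 0) .nil) .nil))) 
(.lf (nat_lit 495494) (.g (nat_lit 3130) (.e (nat_lit 163903) (nat_lit 12) (.e (nat_lit 426566) (nat_lit 34) (.e (nat_lit 393273) (nat_lit 23) (.e (nat_lit 426131) (nat_lit 3) (.e (nat_lit 204831) (nat_lit 18) (.e (nat_lit 57688) (nat_lit 156) .nil)))))) (.g (nat_lit 1) (.e (nat_lit 153911) (nat_lit 0) .nil) .nil)))))) (.nd (nat_lit 7) (.nd (nat_lit 8) (.nd (nat_lit 9) 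
(.lf (nat_lit 494662) (.g (nat_lit 3342) (.e (nat_lit 163891) (nat_lit 8) (.e (nat_lit 253992) (nat_lit 11) (.e (nat_lit 16425) (nat_lit 7) (.e (nat_lit 409648) (nat_lit 18) (.e (nat_lit 303138) (nat_lit 10) .nil))))) (.g (nat_lit 0) (.e (nat_lit 152200) (nat_lit 0) .nil) .nil))) 
(.lf (nat_lit 495174) (.g (nat_lit 4124) (.e (nat_lit 163902) (nat_lit 12) (.e (nat_lit 426568) (nat_lit 34) (.e (nat_lit 393271) (nat_lit 23) (.e (nat_lit 426436) (nat_lit 18) (.e (nat_lit 98334) (nat_lit 18) (.e (nat_lit 164329) (nat_lit 230) .nil)))))) (.g (nat_lit 1) (.e (nat_lit 153509) (nat_lit 0) .nil) .nil)))) (.nd (nat_lit 9) 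
(.lf (nat_lit 494918) (.g (nat_lit 2434) (.e (nat_lit 163902) (nat_lit 12) (.e (nat_lit 426479) (nat_lit 27) (.e (nat_lit 336434) (nat_lit 30) (.e (nat_lit 450579) (nat_lit 5) (.e (nat_lit 532501) (nat_lit 1) (.e (nat_lit 57685) (nat_lit 156) .nil)))))) (.g (nat_lit 1) (.e (nat_lit 153211) (nat_lit 0) .nil) .nil))) 
(.lf (nat_lit 495430) (.g (nat_lit 3819) (.e (nat_lit 163903) (nat_lit 12) (.e (nat_lit 426481) (nat_lit 27) (.e (nat_lit 336389) (nat_lit 27) (.e (nat_lit 426308) (nat_lit 12) (.e (nat_lit 475179) (nat_lit 24) (.e (nat_lit 516119) (nat_lit 1) (.e (nat_lit 164326) (nat_lit 230) .nil))))))) (.g (nat_lit 1) (.e (nat_lit 153843) (nat_lit 0) .nil) .nil))))) (.nd (nat_lit 8) (.nd (nat_lit 9) 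
(.lf (nat_lit 494790) (.g (nat_lit 1988) (.e (nat_lit 163902) (nat_lit 12) (.e (nat_lit 426428) (nat_lit 17) (.e (nat_lit 90170) (nat_lit 13) (.e (nat_lit 172122) (nat_lit 13) (.e (nat_lit 483365) (nat_lit 18) .nil))))) (.g (nat_lit 0) (.e (nat_lit 153061) (nat_lit 0) .nil) .nil))) 
(.lf (nat_lit 495302) (.g (nat_lit 2732) (.e (nat_lit 163902) (nat_lit 12) (.e (nat_lit 426568) (nat_lit 34) (.e (nat_lit 393294) (nat_lit 26) (.e (nat_lit 475179) (nat_lit 24) (.e (nat_lit 516120) (nat_lit 1) (.e (nat_lit 164331) (nat_lit 230) .nil)))))) (.g (nat_lit 1) (.e (nat_lit 153648) (nat_lit 0) .nil) .nil)))) (.nd (nat_lit 9) 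
(.lf (nat_lit 495046) (.g (nat_lit 3572) (.e (nat_lit 163902) (nat_lit 12) (.e (nat_lit 426566) (nat_lit 34) (.e (nat_lit 393291) (nat_lit 26) (.e (nat_lit 475177) (nat_lit 24) (.e (nat_lit 516118) (nat_lit 1) (.e (nat_lit 164331) (nat_lit 230) .nil)))))) (.g (nat_lit 1) (.e (nat_lit 153371) (nat_lit 0) .nil) .nil))) 
(.lf (nat_lit 495558) (.g (nat_lit 2319) (.e (nat_lit 163903) (nat_lit 12) (.e (nat_lit 426567) (nat_lit 34) (.e (nat_lit 393291) (nat_lit 26) (.e (nat_lit 475179) (nat_lit 24) (.e (nat_lit 516119) (nat_lit 1) (.e (nat_lit 164325) (nat_lit 230) .nil)))))) (.g (nat_lit 1) (.e (nat_lit 153976) (nat_lit 0) .nil) .nil))))))) (.nd (nat_lit 6) (.nd (nat_lit 7) (.nd (nat_lit 8) (.nd (nat_lit 9) 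
(.lf (nat_lit 494630) (.g (nat_lit 2498) (.e (nat_lit 163886) (nat_lit 5) (.e (nat_lit 221193) (nat_lit 11) (.e (nat_lit 336084) (nat_lit 9) (.e (nat_lit 336443) (nat_lit 32) (.e (nat_lit 466971) (nat_lit 21) (.e (nat_lit 164324) (nat_lit 230) .nil)))))) (.g (nat_lit 1) (.e (nat_lit 152104) (nat_lit 0) .nil) .nil))) 
(.lf (nat_lit 495142) (.g (nat_lit 3341) (.e (nat_lit 163902) (nat_lit 12) (.e (nat_lit 426568) (nat_lit 34) (.e (nat_lit 393267) (nat_lit 23) (.e (nat_lit 426438) (nat_lit 18) (.e (nat_lit 98335) (nat_lit 18) (.e (nat_lit 164332) (nat_lit 230) .nil)))))) (.g (nat_lit 1) (.e (nat_lit 153477) (nat_lit 0) .nil) .nil)))) (.nd (nat_lit 9) 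
(.lf (nat_lit 494886) (.g (nat_lit 2475) (.e (nat_lit 163902) (nat_lit 12) (.e (nat_lit 426472) (nat_lit 25) (.e (nat_lit 319534) (nat_lit 16) (.e (nat_lit 286756) (nat_lit 10) (.e (nat_lit 344087) (nat_lit 18) (.e (nat_lit 7289) (nat_lit 386) (.e (nat_lit 163864) (nat_lit 1) (.e (nat_lit 164329) (nat_lit 230) .nil)))))))) (.g (nat_lit 1) (.e (nat_lit 153167) (nat_lit 0) .nil) .nil))) 
(.lf (nat_lit 495398) (.g (nat_lit 2416) (.e (nat_lit 163903) (nat_lit 12) (.e (nat_lit 426479) (nat_lit 27) (.e (nat_lit 336432) (nat_lit 30) (.e (nat_lit 450580) (nat_lit 5) (.e (nat_lit 532501) (nat_lit 1) (.e (nat_lit 57685) (nat_lit 156) .nil)))))) (.g (nat_lit 1) (.e (nat_lit 153805) (nat_lit 0) .nil) .nil))))) (.nd (nat_lit 8) (.nd (nat_lit 9) 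
(.lf (nat_lit 494758) (.g (nat_lit 549) (.e (nat_lit 163901) (nat_lit 12) (.e (nat_lit 426438) (nat_lit 18) (.e (nat_lit 98365) (nat_lit 26) .nil))) (.g (nat_lit 0) (.e (nat_lit 152955) (nat_lit 0) .nil) .nil))) 
(.lf (nat_lit 495270) (.g (nat_lit 2898) (.e (nat_lit 163902) (nat_lit 12) (.e (nat_lit 426568) (nat_lit 34) (.e (nat_lit 393294) (nat_lit 26) (.e (nat_lit 475175) (nat_lit 24) (.e (nat_lit 516116) (nat_lit 1) (.e (nat_lit 164329) (nat_lit 230) .nil)))))) (.g (nat_lit 1) (.e (nat_lit 153616) (nat_lit 0) .nil) .nil)))) (.nd (nat_lit 9) 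
(.lf (nat_lit 495014) (.g (nat_lit 2619) (.e (nat_lit 163902) (nat_lit 12) (.e (nat_lit 426566) (nat_lit 34) (.e (nat_lit 393273) (nat_lit 23) (.e (nat_lit 426436) (nat_lit 18) (.e (nat_lit 98333) (nat_lit 18) (.e (nat_lit 164331) (nat_lit 230) .nil)))))) (.g (nat_lit 1) (.e (nat_lit 153338) (nat_lit 0) .nil) .nil))) 
(.lf (nat_lit 495526) (.g (nat_lit 2961) (.e (nat_lit 163903) (nat_lit 12) (.e (nat_lit 426566) (nat_lit 34) (.e (nat_lit 393294) (nat_lit 26) (.e (nat_lit 475176) (nat_lit 24) (.e (nat_lit 516115) (nat_lit 1) (.e (nat_lit 164325) (nat_lit 230) .nil)))))) (.g (nat_lit 1) (.e (nat_lit 153944) (nat_lit 0) .nil) .nil)))))) (.nd (nat_lit 7) (.nd (nat_lit 8) (.nd (nat_lit 9) 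
(.lf (nat_lit 494694) (.g (nat_lit 2020) (.e (nat_lit 163900) (nat_lit 12) (.e (nat_lit 426125) (nat_lit 2) (.e (nat_lit 196666) (nat_lit 13) (.e (nat_lit 65617) (nat_lit 10) (.e (nat_lit 344130) (nat_lit 26) .nil))))) (.g (nat_lit 0) (.e (nat_lit 152814) (nat_lit 0) .nil) .nil))) 
(.lf (nat_lit 495206) (.g (nat_lit 2227) (.e (nat_lit 163902) (nat_lit 12) (.e (nat_lit 426568) (nat_lit 34) (.e (nat_lit 393282) (nat_lit 24) (.e (nat_lit 434233) (nat_lit 23) (.e (nat_lit 532503) (nat_lit 1) (.e (nat_lit 57685) (nat_lit 156) .nil)))))) (.g (nat_lit 1) (.e (nat_lit 153545) (nat_lit 0) .nil) .nil)))) (.nd (nat_lit 9) 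
(.lf (nat_lit 494950) (.g (nat_lit 3494) (.e (nat_lit 163902) (nat_lit 12) (.e (nat_lit 426544) (nat_lit 30) (.e (nat_lit 360467) (nat_lit 3) (.e (nat_lit 516195) (nat_lit 26) (.e (nat_lit 335995) (nat_lit 1) (.e (nat_lit 57930) (nat_lit 282) .nil)))))) (.g (nat_lit 1) (.e (nat_lit 153248) (nat_lit 0) .nil) .nil))) 
(.lf (nat_lit 495462) (.g (nat_lit 1970) (.e (nat_lit 163903) (nat_lit 12) (.e (nat_lit 426555) (nat_lit 32) (.e (nat_lit 376867) (nat_lit 23) (.e (nat_lit 98317) (nat_lit 9) (.e (nat_lit 335987) (nat_lit 1) (.e (nat_lit 57927) (nat_lit 282) .nil)))))) (.g (nat_lit 1) (.e (nat_lit 153878) (nat_lit 0) .nil) .nil))))) (.nd (nat_lit 8) (.nd (nat_lit 9) 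
(.lf (nat_lit 494822) (.g (nat_lit 2370) (.e (nat_lit 163902) (nat_lit 12) (.e (nat_lit 426438) (nat_lit 18) (.e (nat_lit 98358) (nat_lit 26) (.e (nat_lit 426323) (nat_lit 13) (.e (nat_lit 483364) (nat_lit 18) (.e (nat_lit 57685) (nat_lit 156) .nil)))))) (.g (nat_lit 1) (.e (nat_lit 153102) (nat_lit 0) .nil) .nil))) 
(.lf (nat_lit 495334) (.g (nat_lit 2078) (.e (nat_lit 163903) (nat_lit 12) (.e (nat_lit 426436) (nat_lit 18) (.e (nat_lit 98359) (nat_lit 26) (.e (nat_lit 426324) (nat_lit 13) (.e (nat_lit 483363) (nat_lit 18) .nil))))) (.g (nat_lit 0) (.e (nat_lit 153730) (nat_lit 0) .nil) .nil)))) (.nd (nat_lit 9) 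
(.lf (nat_lit 495078) (.g (nat_lit 3656) (.e (nat_lit 163902) (nat_lit 12) (.e (nat_lit 426566) (nat_lit 34) (.e (nat_lit 393294) (nat_lit 26) (.e (nat_lit 475177) (nat_lit 24) (.e (nat_lit 516118) (nat_lit 1) (.e (nat_lit 164330) (nat_lit 230) .nil)))))) (.g (nat_lit 1) (.e (nat_lit 153403) (nat_lit 0) .nil) .nil))) 
(.lf (nat_lit 495590) (.g (nat_lit 2044) (.e (nat_lit 163903) (nat_lit 12) (.e (nat_lit 426568) (nat_lit 34) (.e (nat_lit 393271) (nat_lit 23) (.e (nat_lit 426427) (nat_lit 17) .nil)))) (.g (nat_lit 0) (.e (nat_lit 154010) (nat_lit 0) .nil) .nil)))))))) (.nd (nat_lit 5) (.nd (nat_lit 6) (.nd (nat_lit 7) (.nd (nat_lit 8) (.nd (nat_lit 9) 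
(.lf (nat_lit 494614) (.g (nat_lit 1403) (.e (nat_lit 163886) (nat_lit 5) (.e (nat_lit 221190) (nat_lit 11) (.e (nat_lit 336077) (nat_lit 9) (.e (nat_lit 336443) (nat_lit 32) (.e (nat_lit 466971) (nat_lit 21) (.e (nat_lit 164327) (nat_lit 230) .nil)))))) (.g (nat_lit 1) (.e (nat_lit 152088) (nat_lit 0) .nil) .nil))) 
(.lf (nat_lit 495126) (.g (nat_lit 3425) (.e (nat_lit 163902) (nat_lit 12) (.e (nat_lit 426567) (nat_lit 34) (.e (nat_lit 393294) (nat_lit 26) (.e (nat_lit 475177) (nat_lit 24) (.e (nat_lit 516117) (nat_lit 1) (.e (nat_lit 164330) (nat_lit 230) .nil)))))) (.g (nat_lit 1) (.e (nat_lit 153452) (nat_lit 0) .nil) .nil)))) (.nd (nat_lit 9) 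
(.lf (nat_lit 494870) (.g (nat_lit 3272) (.e (nat_lit 163902) (nat_lit 12) (.e (nat_lit 426438) (nat_lit 18) (.e (nat_lit 98373) (nat_lit 29) (.e (nat_lit 450569) (nat_lit 0) (.e (nat_lit 7936) (nat_lit 369) (.e (nat_lit 163864) (nat_lit 1) (.e (nat_lit 164332) (nat_lit 230) .nil))))))) (.g (nat_lit 1) (.e (nat_lit 153150) (nat_lit 0) .nil) .nil))) 
(.lf (nat_lit 495382) (.g (nat_lit 2943) (.e (nat_lit 163903) (nat_lit 12) (.e (nat_lit 426478) (nat_lit 27) (.e (nat_lit 336389) (nat_lit 27) (.e (nat_lit 426308) (nat_lit 12) (.e (nat_lit 475177) (nat_lit 24) (.e (nat_lit 516118) (nat_lit 1) (.e (nat_lit 164327) (nat_lit 230) .nil))))))) (.g (nat_lit 1) (.e (nat_lit 153786) (nat_lit 0) .nil) .nil))))) (.nd (nat_lit 8) (.nd (nat_lit 9) 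
(.lf (nat_lit 494742) (.g (nat_lit 339) (.e (nat_lit 163900) (nat_lit 12) (.e (nat_lit 426317) (nat_lit 12) (.e (nat_lit 475211) (nat_lit 41) .nil))) (.g (nat_lit 0) (.e (nat_lit 152889) (nat_lit 0) .nil) .nil))) 
(.lf (nat_lit 495254) (.g (nat_lit 3171) (.e (nat_lit 163902) (nat_lit 12) (.e (nat_lit 426568) (nat_lit 34) (.e (nat_lit 393292) (nat_lit 26) (.e (nat_lit 475179) (nat_lit 24) (.e (nat_lit 516117) (nat_lit 1) (.e (nat_lit 164329) (nat_lit 230) .nil)))))) (.g (nat_lit 1) (.e (nat_lit 153600) (nat_lit 0) .nil) .nil)))) (.nd (nat_lit 9) 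
(.lf (nat_lit 494998) (.g (nat_lit 1194) (.e (nat_lit 163902) (nat_lit 12) (.e (nat_lit 426566) (nat_lit 34) (.e (nat_lit 393271) (nat_lit 23) (.e (nat_lit 426428) (nat_lit 17) .nil)))) (.g (nat_lit 0) (.e (nat_lit 153322) (nat_lit 0) .nil) .nil))) 
(.lf (nat_lit 495510) (.g (nat_lit 3693) (.e (nat_lit 163903) (nat_lit 12) (.e (nat_lit 426566) (nat_lit 34) (.e (nat_lit 393290) (nat_lit 26) (.e (nat_lit 475179) (nat_lit 24) (.e (nat_lit 516115) (nat_lit 1) (.e (nat_lit 164327) (nat_lit 230) .nil)))))) (.g (nat_lit 1) (.e (nat_lit 153927) (nat_lit 0) .nil) .nil)))))) (.nd (nat_lit 7) (.nd (nat_lit 8) (.nd (nat_lit 9) 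
(.lf (nat_lit 494678) (.g (nat_lit 2150) (.e (nat_lit 163896) (nat_lit 10) (.e (nat_lit 409602) (nat_lit 0) (.e (nat_lit 5293) (nat_lit 298) (.e (nat_lit 1656) (nat_lit 115) (.e (nat_lit 393277) (nat_lit 23) .nil))))) (.g (nat_lit 0) (.e (nat_lit 152358) (nat_lit 0) .nil) .nil))) 
(.lf (nat_lit 495190) (.g (nat_lit 1926) (.e (nat_lit 163902) (nat_lit 12) (.e (nat_lit 426568) (nat_lit 34) (.e (nat_lit 393274) (nat_lit 23) (.e (nat_lit 426412) (nat_lit 15) (.e (nat_lit 1798) (nat_lit 119) .nil))))) (.g (nat_lit 0) (.e (nat_lit 153525) (nat_lit 0) .nil) .nil)))) (.nd (nat_lit 9) 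
(.lf (nat_lit 494934) (.g (nat_lit 2875) (.e (nat_lit 163902) (nat_lit 12) (.e (nat_lit 426481) (nat_lit 27) (.e (nat_lit 336389) (nat_lit 27) (.e (nat_lit 426308) (nat_lit 12) (.e (nat_lit 475179) (nat_lit 24) (.e (nat_lit 516120) (nat_lit 1) (.e (nat_lit 164332) (nat_lit 230) .nil))))))) (.g (nat_lit 1) (.e (nat_lit 153232) (nat_lit 0) .nil) .nil))) 
(.lf (nat_lit 495446) (.g (nat_lit 1623) (.e (nat_lit 163903) (nat_lit 12) (.e (nat_lit 426544) (nat_lit 30) (.e (nat_lit 360466) (nat_lit 3) (.e (nat_lit 516195) (nat_lit 26) (.e (nat_lit 335986) (nat_lit 1) .nil))))) (.g (nat_lit 0) (.e (nat_lit 153860) (nat_lit 0) .nil) .nil))))) (.nd (nat_lit 8) (.nd (nat_lit 9) 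
(.lf (nat_lit 494806) (.g (nat_lit 1863) (.e (nat_lit 163902) (nat_lit 12) (.e (nat_lit 426436) (nat_lit 18) (.e (nat_lit 98358) (nat_lit 26) (.e (nat_lit 426322) (nat_lit 13) (.e (nat_lit 483363) (nat_lit 18) (.e (nat_lit 57688) (nat_lit 156) .nil)))))) (.g (nat_lit 1) (.e (nat_lit 153080) (nat_lit 0) .nil) .nil))) 
(.lf (nat_lit 495318) (.g (nat_lit 4360) (.e (nat_lit 163903) (nat_lit 12) (.e (nat_lit 426428) (nat_lit 17) (.e (nat_lit 90170) (nat_lit 13) (.e (nat_lit 172123) (nat_lit 13) (.e (nat_lit 483365) (nat_lit 18) (.e (nat_lit 57687) (nat_lit 156) .nil)))))) (.g (nat_lit 1) (.e (nat_lit 153713) (nat_lit 0) .nil) .nil)))) (.nd (nat_lit 9) 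
(.lf (nat_lit 495062) (.g (nat_lit 3788) (.e (nat_lit 163902) (nat_lit 12) (.e (nat_lit 426566) (nat_lit 34) (.e (nat_lit 393292) (nat_lit 26) (.e (nat_lit 475179) (nat_lit 24) (.e (nat_lit 516120) (nat_lit 1) (.e (nat_lit 164332) (nat_lit 230) .nil)))))) (.g (nat_lit 1) (.e (nat_lit 153387) (nat_lit 0) .nil) .nil))) 
(.lf (nat_lit 495574) (.g (nat_lit 3180) (.e (nat_lit 163903) (nat_lit 12) (.e (nat_lit 426568) (nat_lit 34) (.e (nat_lit 393268) (nat_lit 23) (.e (nat_lit 426438) (nat_lit 18) (.e (nat_lit 98335) (nat_lit 18) (.e (nat_lit 164324) (nat_lit 230) .nil)))))) (.g (nat_lit 1) (.e (nat_lit 153994) (nat_lit 0) .nil) .nil))))))) (.nd (nat_lit 6) (.nd (nat_lit 7) (.nd (nat_lit 8) (.nd (nat_lit 9) 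
(.lf (nat_lit 494646) (.g (nat_lit 1313) (.e (nat_lit 163886) (nat_lit 5) (.e (nat_lit 221194) (nat_lit 11) (.e (nat_lit 336087) (nat_lit 9) (.e (nat_lit 336444) (nat_lit 32) (.e (nat_lit 466971) (nat_lit 21) .nil))))) (.g (nat_lit 0) (.e (nat_lit 152122) (nat_lit 0) .nil) .nil))) 
(.lf (nat_lit 495158) (.g (nat_lit 2010) (.e (nat_lit 163902) (nat_lit 12) (.e (nat_lit 426568) (nat_lit 34) (.e (nat_lit 393270) (nat_lit 23) (.e (nat_lit 426438) (nat_lit 18) (.e (nat_lit 98334) (nat_lit 18) (.e (nat_lit 164329) (nat_lit 230) .nil)))))) (.g (nat_lit 1) (.e (nat_lit 153493) (nat_lit 0) .nil) .nil)))) (.nd (nat_lit 9) 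
(.lf (nat_lit 494902) (.g (nat_lit 2400) (.e (nat_lit 163902) (nat_lit 12) (.e (nat_lit 426478) (nat_lit 27) (.e (nat_lit 336389) (nat_lit 27) (.e (nat_lit 426308) (nat_lit 12) (.e (nat_lit 475179) (nat_lit 24) (.e (nat_lit 516120) (nat_lit 1) (.e (nat_lit 164329) (nat_lit 230) .nil))))))) (.g (nat_lit 1) (.e (nat_lit 153183) (nat_lit 0) .nil) .nil))) 
(.lf (nat_lit 495414) (.g (nat_lit 2314) (.e (nat_lit 163903) (nat_lit 12) (.e (nat_lit 426481) (nat_lit 27) (.e (nat_lit 336385) (nat_lit 27) (.e (nat_lit 426306) (nat_lit 12) (.e (nat_lit 475177) (nat_lit 24) (.e (nat_lit 516118) (nat_lit 1) (.e (nat_lit 164327) (nat_lit 230) .nil))))))) (.g (nat_lit 1) (.e (nat_lit 153827) (nat_lit 0) .nil) .nil))))) (.nd (nat_lit 8) (.nd (nat_lit 9) 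
(.lf (nat_lit 494774) (.g (nat_lit 2121) (.e (nat_lit 163901) (nat_lit 12) (.e (nat_lit 426566) (nat_lit 34) (.e (nat_lit 393294) (nat_lit 26) (.e (nat_lit 475179) (nat_lit 24) (.e (nat_lit 516117) (nat_lit 1) (.e (nat_lit 164332) (nat_lit 230) .nil)))))) (.g (nat_lit 1) (.e (nat_lit 152986) (nat_lit 0) .nil) .nil))) 
(.lf (nat_lit 495286) (.g (nat_lit 3161) (.e (nat_lit 163902) (nat_lit 12) (.e (nat_lit 426568) (nat_lit 34) (.e (nat_lit 393294) (nat_lit 26) (.e (nat_lit 475177) (nat_lit 24) (.e (nat_lit 516118) (nat_lit 1) (.e (nat_lit 164330) (nat_lit 230) .nil)))))) (.g (nat_lit 1) (.e (nat_lit 153632) (nat_lit 0) .nil) .nil)))) (.nd (nat_lit 9) 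
(.lf (nat_lit 495030) (.g (nat_lit 2986) (.e (nat_lit 163902) (nat_lit 12) (.e (nat_lit 426566) (nat_lit 34) (.e (nat_lit 393286) (nat_lit 25) (.e (nat_lit 458789) (nat_lit 23) (.e (nat_lit 532503) (nat_lit 1) (.e (nat_lit 57688) (nat_lit 156) .nil)))))) (.g (nat_lit 1) (.e (nat_lit 153354) (nat_lit 0) .nil) .nil))) 
(.lf (nat_lit 495542) (.g (nat_lit 3393) (.e (nat_lit 163903) (nat_lit 12) (.e (nat_lit 426566) (nat_lit 34) (.e (nat_lit 393296) (nat_lit 26) (.e (nat_lit 475177) (nat_lit 24) (.e (nat_lit 516118) (nat_lit 1) (.e (nat_lit 164324) (nat_lit 230) .nil)))))) (.g (nat_lit 1) (.e (nat_lit 153960) (nat_lit 0) .nil) .nil)))))) (.nd (nat_lit 7) (.nd (nat_lit 8) (.nd (nat_lit 9) 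
(.lf (nat_lit 494710) (.g (nat_lit 4557) (.e (nat_lit 163900) (nat_lit 12) (.e (nat_lit 426125) (nat_lit 2) (.e (nat_lit 196666) (nat_lit 13) (.e (nat_lit 65617) (nat_lit 10) (.e (nat_lit 344133) (nat_lit 26) (.e (nat_lit 557091) (nat_lit 12) (.e (nat_lit 163847) (nat_lit 0) (.e (nat_lit 6421) (nat_lit 341) .nil)))))))) (.g (nat_lit 1) (.e (nat_lit 152830) (nat_lit 0) .nil) .nil))) 
(.lf (nat_lit 495222) (.g (nat_lit 2489) (.e (nat_lit 163902) (nat_lit 12) (.e (nat_lit 426568) (nat_lit 34) (.e (nat_lit 393287) (nat_lit 25) (.e (nat_lit 458789) (nat_lit 23) (.e (nat_lit 532503) (nat_lit 1) (.e (nat_lit 57686) (nat_lit 156) .nil)))))) (.g (nat_lit 1) (.e (nat_lit 153568) (nat_lit 0) .nil) .nil)))) (.nd (nat_lit 9) 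
(.lf (nat_lit 494966) (.g (nat_lit 3149) (.e (nat_lit 163902) (nat_lit 12) (.e (nat_lit 426555) (nat_lit 32) (.e (nat_lit 376867) (nat_lit 23) (.e (nat_lit 98313) (nat_lit 9) (.e (nat_lit 335988) (nat_lit 1) (.e (nat_lit 57926) (nat_lit 282) .nil)))))) (.g (nat_lit 1) (.e (nat_lit 153283) (nat_lit 0) .nil) .nil))) 
(.lf (nat_lit 495478) (.g (nat_lit 3257) (.e (nat_lit 163903) (nat_lit 12) (.e (nat_lit 426566) (nat_lit 34) (.e (nat_lit 393270) (nat_lit 23) (.e (nat_lit 426438) (nat_lit 18) (.e (nat_lit 98333) (nat_lit 18) (.e (nat_lit 164327) (nat_lit 230) .nil)))))) (.g (nat_lit 1) (.e (nat_lit 153895) (nat_lit 0) .nil) .nil))))) (.nd (nat_lit 8) (.nd (nat_lit 9) 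
(.lf (nat_lit 494838) (.g (nat_lit 2036) (.e (nat_lit 163902) (nat_lit 12) (.e (nat_lit 426438) (nat_lit 18) (.e (nat_lit 98372) (nat_lit 29) (.e (nat_lit 450564) (nat_lit 0) (.e (nat_lit 7936) (nat_lit 369) .nil))))) (.g (nat_lit 0) (.e (nat_lit 153118) (nat_lit 0) .nil) .nil))) 
(.lf (nat_lit 495350) (.g (nat_lit 1246) (.e (nat_lit 163903) (nat_lit 12) (.e (nat_lit 426438) (nat_lit 18) (.e (nat_lit 98370) (nat_lit 28) (.e (nat_lit 442436) (nat_lit 26) .nil)))) (.g (nat_lit 0) (.e (nat_lit 153749) (nat_lit 0) .nil) .nil)))) (.nd (nat_lit 9) 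
(.lf (nat_lit 495094) (.g (nat_lit 3187) (.e (nat_lit 163902) (nat_lit 12) (.e (nat_lit 426566) (nat_lit 34) (.e (nat_lit 393295) (nat_lit 26) (.e (nat_lit 475177) (nat_lit 24) (.e (nat_lit 516117) (nat_lit 1) (.e (nat_lit 164332) (nat_lit 230) .nil)))))) (.g (nat_lit 1) (.e (nat_lit 153419) (nat_lit 0) .nil) .nil))) 
(.lf (nat_lit 495606) (.g (nat_lit 2457) (.e (nat_lit 163903) (nat_lit 12) (.e (nat_lit 426568) (nat_lit 34) (.e (nat_lit 393282) (nat_lit 24) (.e (nat_lit 434231) (nat_lit 23) (.e (nat_lit 532502) (nat_lit 1) (.e (nat_lit 57686) (nat_lit 156) .nil)))))) (.g (nat_lit 1) (.e (nat_lit 154026) (nat_lit 0) .nil) .nil))))))))) 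
(.nd (nat_lit 4) (.nd (nat_lit 5) (.nd (nat_lit 6) (.nd (nat_lit 7) (.nd (nat_lit 8) 
(.nd (nat_lit 9) 
(.lf (nat_lit 494606) (.g (nat_lit 3374) (.e (nat_lit 163885) (nat_lit 5) (.e (nat_lit 221215) (nat_lit 23) (.e (nat_lit 204813) (nat_lit 9) (.e (nat_lit 426306) (nat_lit 12) (.e (nat_lit 475177) (nat_lit 24) (.e (nat_lit 524032) (nat_lit 18) (.e (nat_lit 57927) (nat_lit 282) .nil))))))) (.g (nat_lit 1) (.e (nat_lit 152055) (nat_lit 0) .nil) .nil))) 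
(.lf (nat_lit 495118) (.g (nat_lit 3344) (.e (nat_lit 163902) (nat_lit 12) (.e (nat_lit 426566) (nat_lit 34) (.e (nat_lit 393296) (nat_lit 26) (.e (nat_lit 475179) (nat_lit 24) (.e (nat_lit 516120) (nat_lit 1) (.e (nat_lit 164331) (nat_lit 230) .nil)))))) (.g (nat_lit 1) (.e (nat_lit 153443) (nat_lit 0) .nil) .nil)))) (.nd (nat_lit 9) 
(.lf (nat_lit 494862) (.g (nat_lit 3581) (.e (nat_lit 163902) (nat_lit 12) (.e (nat_lit 426438) (nat_lit 18) (.e (nat_lit 98373) (nat_lit 29) (.e (nat_lit 450563) (nat_lit 0) (.e (nat_lit 6846) (nat_lit 370) .nil))))) (.g (nat_lit 0) (.e (nat_lit 153142) (nat_lit 0) .nil) .nil))) 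
(.lf (nat_lit 495374) (.g (nat_lit 2150) (.e (nat_lit 163903) (nat_lit 12) (.e (nat_lit 426438) (nat_lit 18) (.e (nat_lit 98381) (nat_lit 31) (.e (nat_lit 466972) (nat_lit 21) (.e (nat_lit 164183) (nat_lit 154) (.e (nat_lit 65280) (nat_lit 62) (.e (nat_lit 164325) (nat_lit 230) .nil))))))) (.g (nat_lit 1) (.e (nat_lit 153778) (nat_lit 0) .nil) .nil))))) (.nd (nat_lit 8) (.nd (nat_lit 9) 
(.lf (nat_lit 494734) (.g (nat_lit 5020) (.e (nat_lit 163900) (nat_lit 12) (.e (nat_lit 426140) (nat_lit 3) (.e (nat_lit 204869) (nat_lit 29) (.e (nat_lit 360475) (nat_lit 8) (.e (nat_lit 557091) (nat_lit 12) (.e (nat_lit 163843) (nat_lit 0) (.e (nat_lit 6421) (nat_lit 341) .nil))))))) (.g (nat_lit 1) (.e (nat_lit 152872) (nat_lit 0) .nil) .nil))) 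
(.lf (nat_lit 495246) (.g (nat_lit 3727) (.e (nat_lit 163902) (nat_lit 12) (.e (nat_lit 426568) (nat_lit 34) (.e (nat_lit 393291) (nat_lit 26) (.e (nat_lit 475179) (nat_lit 24) (.e (nat_lit 516120) (nat_lit 1) (.e (nat_lit 164329) (nat_lit 230) .nil)))))) (.g (nat_lit 1) (.e (nat_lit 153592) (nat_lit 0) .nil) .nil)))) (.nd (nat_lit 9) 
(.lf (nat_lit 494990) (.g (nat_lit 3737) (.e (nat_lit 163902) (nat_lit 12) (.e (nat_lit 426566) (nat_lit 34) (.e (nat_lit 393270) (nat_lit 23) (.e (nat_lit 426436) (nat_lit 18) (.e (nat_lit 98335) (nat_lit 18) (.e (nat_lit 164331) (nat_lit 230) .nil)))))) (.g (nat_lit 1) (.e (nat_lit 153314) (nat_lit 0) .nil) .nil))) 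
(.lf (nat_lit 495502) (.g (nat_lit 2447) (.e (nat_lit 163903) (nat_lit 12) (.e (nat_lit 426566) (nat_lit 34) (.e (nat_lit 393285) (nat_lit 25) (.e (nat_lit 458789) (nat_lit 23) (.e (nat_lit 532503) (nat_lit 1) (.e (nat_lit 57688) (nat_lit 156) .nil)))))) (.g (nat_lit 1) (.e (nat_lit 153919) (nat_lit 0) .nil) .nil)))))) (.nd (nat_lit 7) (.nd (nat_lit 8) (.nd (nat_lit 9) 
(.lf (nat_lit 494670) (.g (nat_lit 2148) (.e (nat_lit 163896) (nat_lit 10) (.e (nat_lit 409602) (nat_lit 0) (.e (nat_lit 5293) (nat_lit 298) (.e (nat_lit 1413) (nat_lit 108) .nil)))) (.g (nat_lit 0) (.e (nat_lit 152350) (nat_lit 0) .nil) .nil))) 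
(.lf (nat_lit 495182) (.g (nat_lit 1800) (.e (nat_lit 163902) (nat_lit 12) (.e (nat_lit 426568) (nat_lit 34) (.e (nat_lit 393271) (nat_lit 23) (.e (nat_lit 426437) (nat_lit 18) (.e (nat_lit 98334) (nat_lit 18) .nil))))) (.g (nat_lit 0) (.e (nat_lit 153517) (nat_lit 0) .nil) .nil)))) (.nd (nat_lit 9) 
(.lf (nat_lit 494926) (.g (nat_lit 2091) (.e (nat_lit 163902) (nat_lit 12) (.e (nat_lit 426481) (nat_lit 27) (.e (nat_lit 336389) (nat_lit 27) (.e (nat_lit 426190) (nat_lit 9) (.e (nat_lit 426436) (nat_lit 18) (.e (nat_lit 98335) (nat_lit 18) (.e (nat_lit 164329) (nat_lit 230) .nil))))))) (.g (nat_lit 1) (.e (nat_lit 153224) (nat_lit 0) .nil) .nil))) 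
(.lf (nat_lit 495438) (.g (nat_lit 2630) (.e (nat_lit 163903) (nat_lit 12) (.e (nat_lit 426538) (nat_lit 29) (.e (nat_lit 352315) (nat_lit 23) (.e (nat_lit 98313) (nat_lit 9) (.e (nat_lit 335986) (nat_lit 1) (.e (nat_lit 57927) (nat_lit 282) .nil)))))) (.g (nat_lit 1) (.e (nat_lit 153852) (nat_lit 0) .nil) .nil))))) (.nd (nat_lit 8) (.nd (nat_lit 9) 
(.lf (nat_lit 494798) (.g (nat_lit 3494) (.e (nat_lit 163902) (nat_lit 12) (.e (nat_lit 426428) (nat_lit 17) (.e (nat_lit 90178) (nat_lit 15) (.e (nat_lit 188421) (nat_lit 11) (.e (nat_lit 335995) (nat_lit 1) (.e (nat_lit 57687) (nat_lit 156) .nil)))))) (.g (nat_lit 1) (.e (nat_lit 153070) (nat_lit 0) .nil) .nil))) 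
(.lf (nat_lit 495310) (.g (nat_lit 2885) (.e (nat_lit 163903) (nat_lit 12) (.e (nat_lit 426428) (nat_lit 17) (.e (nat_lit 90170) (nat_lit 13) (.e (nat_lit 172106) (nat_lit 10) (.e (nat_lit 434202) (nat_lit 18) (.e (nat_lit 6736) (nat_lit 365) (.e (nat_lit 2433) (nat_lit 157) (.e (nat_lit 2612) (nat_lit 163) (.e (nat_lit 164326) (nat_lit 230) .nil))))))))) (.g (nat_lit 1) (.e (nat_lit 153705) (nat_lit 0) .nil) .nil)))) 
(.nd (nat_lit 9) 
(.lf (nat_lit 495054) (.g (nat_lit 2346) (.e (nat_lit 163902) (nat_lit 12) (.e (nat_lit 426566) (nat_lit 34) (.e (nat_lit 393291) (nat_lit 26) (.e (nat_lit 475179) (nat_lit 24) (.e (nat_lit 516119) (nat_lit 1) (.e (nat_lit 164322) (nat_lit 230) .nil)))))) (.g (nat_lit 1) (.e (nat_lit 153379) (nat_lit 0) .nil) .nil))) 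
(.lf (nat_lit 495566) (.g (nat_lit 541) (.e (nat_lit 163903) (nat_lit 12) (.e (nat_lit 426568) (nat_lit 34) (.e (nat_lit 393234) (nat_lit 17) .nil))) (.g (nat_lit 0) (.e (nat_lit 153984) (nat_lit 0) .nil) .nil))))))) (.nd (nat_lit 6) (.nd (nat_lit 7) (.nd (nat_lit 8) (.nd (nat_lit 9) 
(.lf (nat_lit 494638) (.g (nat_lit 2022) (.e (nat_lit 163886) (nat_lit 5) (.e (nat_lit 221194) (nat_lit 11) (.e (nat_lit 336075) (nat_lit 9) (.e (nat_lit 336443) (nat_lit 32) (.e (nat_lit 466969) (nat_lit 21) (.e (nat_lit 164326) (nat_lit 230) .nil)))))) (.g (nat_lit 1) (.e (nat_lit 152114) (nat_lit 0) .nil) .nil))) 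
(.lf (nat_lit 495150) (.g (nat_lit 3134) (.e (nat_lit 163902) (nat_lit 12) (.e (nat_lit 426568) (nat_lit 34) (.e (nat_lit 393268) (nat_lit 23) (.e (nat_lit 426438) (nat_lit 18) (.e (nat_lit 98335) (nat_lit 18) (.e (nat_lit 164329) (nat_lit 230) .nil)))))) (.g (nat_lit 1) (.e (nat_lit 153485) (nat_lit 0) .nil) .nil)))) (.nd (nat_lit 9) 
(.lf (nat_lit 494894) (.g (nat_lit 2706) (.e (nat_lit 163902) (nat_lit 12) (.e (nat_lit 426478) (nat_lit 27) (.e (nat_lit 336389) (nat_lit 27) (.e (nat_lit 426190) (nat_lit 9) (.e (nat_lit 426436) (nat_lit 18) (.e (nat_lit 98335) (nat_lit 18) (.e (nat_lit 164330) (nat_lit 230) .nil))))))) (.g (nat_lit 1) (.e (nat_lit 153175) (nat_lit 0) .nil) .nil))) 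
(.lf (nat_lit 495406) (.g (nat_lit 1462) (.e (nat_lit 163903) (nat_lit 12) (.e (nat_lit 426479) (nat_lit 27) (.e (nat_lit 336434) (nat_lit 30) (.e (nat_lit 450579) (nat_lit 5) (.e (nat_lit 532502) (nat_lit 1) (.e (nat_lit 57686) (nat_lit 156) .nil)))))) (.g (nat_lit 1) (.e (nat_lit 153813) (nat_lit 0) .nil) .nil))))) (.nd (nat_lit 8) (.nd (nat_lit 9) 
(.lf (nat_lit 494766) (.g (nat_lit 2348) (.e (nat_lit 163901) (nat_lit 12) (.e (nat_lit 426566) (nat_lit 34) (.e (nat_lit 393291) (nat_lit 26) (.e (nat_lit 475179) (nat_lit 24) (.e (nat_lit 516119) (nat_lit 1) (.e (nat_lit 164325) (nat_lit 230) .nil)))))) (.g (nat_lit 1) (.e (nat_lit 152978) (nat_lit 0) .nil) .nil))) 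
(.lf (nat_lit 495278) (.g (nat_lit 3134) (.e (nat_lit 163902) (nat_lit 12) (.e (nat_lit 426568) (nat_lit 34) (.e (nat_lit 393294) (nat_lit 26) (.e (nat_lit 475177) (nat_lit 24) (.e (nat_lit 516115) (nat_lit 1) (.e (nat_lit 164325) (nat_lit 230) .nil)))))) (.g (nat_lit 1) (.e (nat_lit 153624) (nat_lit 0) .nil) .nil)))) (.nd (nat_lit 9) 
(.lf (nat_lit 495022) (.g (nat_lit 2481) (.e (nat_lit 163902) (nat_lit 12) (.e (nat_lit 426566) (nat_lit 34) (.e (nat_lit 401152) (nat_lit 23) (.e (nat_lit 426139) (nat_lit 3) (.e (nat_lit 204829) (nat_lit 18) (.e (nat_lit 57688) (nat_lit 156) .nil)))))) (.g (nat_lit 1) (.e (nat_lit 153346) (nat_lit 0) .nil) .nil))) 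
(.lf (nat_lit 495534) (.g (nat_lit 2874) (.e (nat_lit 163903) (nat_lit 12) (.e (nat_lit 426566) (nat_lit 34) (.e (nat_lit 393295) (nat_lit 26) (.e (nat_lit 475177) (nat_lit 24) (.e (nat_lit 516119) (nat_lit 1) (.e (nat_lit 164326) (nat_lit 230) .nil)))))) (.g (nat_lit 1) (.e (nat_lit 153952) (nat_lit 0) .nil) .nil)))))) (.nd (nat_lit 7) (.nd (nat_lit 8) (.nd (nat_lit 9) 
(.lf (nat_lit 494702) (.g (nat_lit 3376) (.e (nat_lit 163900) (nat_lit 12) (.e (nat_lit 426125) (nat_lit 2) (.e (nat_lit 196666) (nat_lit 13) (.e (nat_lit 65617) (nat_lit 10) (.e (nat_lit 344132) (nat_lit 26) (.e (nat_lit 557094) (nat_lit 12) (.e (nat_lit 163848) (nat_lit 0) (.e (nat_lit 6418) (nat_lit 341) .nil)))))))) (.g (nat_lit 1) (.e (nat_lit 152822) (nat_lit 0) .nil) .nil))) 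
(.lf (nat_lit 495214) (.g (nat_lit 2779) (.e (nat_lit 163902) (nat_lit 12) (.e (nat_lit 426568) (nat_lit 34) (.e (nat_lit 393284) (nat_lit 24) (.e (nat_lit 434231) (nat_lit 23) (.e (nat_lit 532499) (nat_lit 1) (.e (nat_lit 57688) (nat_lit 156) .nil)))))) (.g (nat_lit 1) (.e (nat_lit 153560) (nat_lit 0) .nil) .nil)))) (.nd (nat_lit 9) 
(.lf (nat_lit 494958) (.g (nat_lit 1061) (.e (nat_lit 163902) (nat_lit 12) (.e (nat_lit 426555) (nat_lit 32) (.e (nat_lit 376862) (nat_lit 22) (.e (nat_lit 90158) (nat_lit 11) .nil)))) (.g (nat_lit 0) (.e (nat_lit 153258) (nat_lit 0) .nil) .nil))) 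
(.lf (nat_lit 495470) (.g (nat_lit 2478) (.e (nat_lit 163903) (nat_lit 12) (.e (nat_lit 426566) (nat_lit 34) (.e (nat_lit 393266) (nat_lit 23) (.e (nat_lit 426140) (nat_lit 3) (.e (nat_lit 204831) (nat_lit 18) (.e (nat_lit 57688) (nat_lit 156) .nil)))))) (.g (nat_lit 1) (.e (nat_lit 153887) (nat_lit 0) .nil) .nil))))) (.nd (nat_lit 8) (.nd (nat_lit 9) 
(.lf (nat_lit 494830) (.g (nat_lit 2112) (.e (nat_lit 163902) (nat_lit 12) (.e (nat_lit 426438) (nat_lit 18) (.e (nat_lit 98362) (nat_lit 26) (.e (nat_lit 426329) (nat_lit 13) (.e (nat_lit 483363) (nat_lit 18) (.e (nat_lit 57686) (nat_lit 156) .nil)))))) (.g (nat_lit 1) (.e (nat_lit 153110) (nat_lit 0) .nil) .nil))) 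
(.lf (nat_lit 495342) (.g (nat_lit 2199) (.e (nat_lit 163903) (nat_lit 12) (.e (nat_lit 426437) (nat_lit 18) (.e (nat_lit 98359) (nat_lit 26) (.e (nat_lit 426324) (nat_lit 13) (.e (nat_lit 483363) (nat_lit 18) (.e (nat_lit 57688) (nat_lit 156) .nil)))))) (.g (nat_lit 1) (.e (nat_lit 153739) (nat_lit 0) .nil) .nil)))) (.nd (nat_lit 9) 
(.lf (nat_lit 495086) (.g (nat_lit 2474) (.e (nat_lit 163902) (nat_lit 12) (.e (nat_lit 426566) (nat_lit 34) (.e (nat_lit 393294) (nat_lit 26) (.e (nat_lit 475179) (nat_lit 24) (.e (nat_lit 516117) (nat_lit 1) (.e (nat_lit 164322) (nat_lit 230) .nil)))))) (.g (nat_lit 1) (.e (nat_lit 153411) (nat_lit 0) .nil) .nil))) 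
(.lf (nat_lit 495598) (.g (nat_lit 4282) (.e (nat_lit 163903) (nat_lit 12) (.e (nat_lit 426568) (nat_lit 34) (.e (nat_lit 393271) (nat_lit 23) (.e (nat_lit 426436) (nat_lit 18) (.e (nat_lit 98335) (nat_lit 18) (.e (nat_lit 164327) (nat_lit 230) .nil)))))) (.g (nat_lit 1) (.e (nat_lit 154018) (nat_lit 0) .nil) .nil)))))))) 
(.nd (nat_lit 5) (.nd (nat_lit 6) (.nd (nat_lit 7) (.nd (nat_lit 8) (.nd (nat_lit 9) 
(.lf (nat_lit 494622) (.g (nat_lit 1845) (.e (nat_lit 163886) (nat_lit 5) (.e (nat_lit 221191) (nat_lit 11) (.e (nat_lit 336153) (nat_lit 9) (.e (nat_lit 336442) (nat_lit 32) (.e (nat_lit 466969) (nat_lit 21) (.e (nat_lit 164324) (nat_lit 230) .nil)))))) (.g (nat_lit 1) (.e (nat_lit 152096) (nat_lit 0) .nil) .nil))) 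
(.lf (nat_lit 495134) (.g (nat_lit 2757) (.e (nat_lit 163902) (nat_lit 12) (.e (nat_lit 426568) (nat_lit 34) (.e (nat_lit 393266) (nat_lit 23) (.e (nat_lit 426438) (nat_lit 18) (.e (nat_lit 98334) (nat_lit 18) (.e (nat_lit 164329) (nat_lit 230) .nil)))))) (.g (nat_lit 1) (.e (nat_lit 153469) (nat_lit 0) .nil) .nil)))) (.nd (nat_lit 9) 
(.lf (nat_lit 494878) (.g (nat_lit 3025) (.e (nat_lit 163902) (nat_lit 12) (.e (nat_lit 426438) (nat_lit 18) (.e (nat_lit 98380) (nat_lit 31) (.e (nat_lit 466954) (nat_lit 11) (.e (nat_lit 335995) (nat_lit 1) (.e (nat_lit 57687) (nat_lit 156) .nil)))))) (.g (nat_lit 1) (.e (nat_lit 153159) (nat_lit 0) .nil) .nil))) 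
(.lf (nat_lit 495390) (.g (nat_lit 2982) (.e (nat_lit 163903) (nat_lit 12) (.e (nat_lit 426479) (nat_lit 27) (.e (nat_lit 336430) (nat_lit 29) (.e (nat_lit 442425) (nat_lit 23) (.e (nat_lit 204829) (nat_lit 18) (.e (nat_lit 57686) (nat_lit 156) .nil)))))) (.g (nat_lit 1) (.e (nat_lit 153796) (nat_lit 0) .nil) .nil))))) (.nd (nat_lit 8) (.nd (nat_lit 9) 
(.lf (nat_lit 494750) (.g (nat_lit 1822) (.e (nat_lit 163900) (nat_lit 12) (.e (nat_lit 426555) (nat_lit 32) (.e (nat_lit 376869) (nat_lit 23) (.e (nat_lit 98313) (nat_lit 9) (.e (nat_lit 335996) (nat_lit 1) (.e (nat_lit 57929) (nat_lit 282) .nil)))))) (.g (nat_lit 1) (.e (nat_lit 152928) (nat_lit 0) .nil) .nil))) 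
(.lf (nat_lit 495262) (.g (nat_lit 2733) (.e (nat_lit 163902) (nat_lit 12) (.e (nat_lit 426568) (nat_lit 34) (.e (nat_lit 393293) (nat_lit 26) (.e (nat_lit 475177) (nat_lit 24) (.e (nat_lit 516120) (nat_lit 1) (.e (nat_lit 164329) (nat_lit 230) .nil)))))) (.g (nat_lit 1) (.e (nat_lit 153608) (nat_lit 0) .nil) .nil)))) (.nd (nat_lit 9) 
(.lf (nat_lit 495006) (.g (nat_lit 1752) (.e (nat_lit 163902) (nat_lit 12) (.e (nat_lit 426566) (nat_lit 34) (.e (nat_lit 393271) (nat_lit 23) (.e (nat_lit 426437) (nat_lit 18) .nil)))) (.g (nat_lit 0) (.e (nat_lit 153330) (nat_lit 0) .nil) .nil))) 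
(.lf (nat_lit 495518) (.g (nat_lit 2769) (.e (nat_lit 163903) (nat_lit 12) (.e (nat_lit 426566) (nat_lit 34) (.e (nat_lit 393292) (nat_lit 26) (.e (nat_lit 475179) (nat_lit 24) (.e (nat_lit 516119) (nat_lit 1) (.e (nat_lit 164326) (nat_lit 230) .nil)))))) (.g (nat_lit 1) (.e (nat_lit 153935) (nat_lit 0) .nil) .nil)))))) (.nd (nat_lit 7) (.nd (nat_lit 8) (.nd (nat_lit 9) 
(.lf (nat_lit 494686) (.g (nat_lit 3114) (.e (nat_lit 163899) (nat_lit 11) (.e (nat_lit 417809) (nat_lit 6) (.e (nat_lit 286743) (nat_lit 9) (.e (nat_lit 336426) (nat_lit 29) (.e (nat_lit 442430) (nat_lit 24) (.e (nat_lit 229678) (nat_lit 244) .nil)))))) (.g (nat_lit 1) (.e (nat_lit 152784) (nat_lit 0) .nil) .nil))) 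
(.lf (nat_lit 495198) (.g (nat_lit 2091) (.e (nat_lit 163902) (nat_lit 12) (.e (nat_lit 426568) (nat_lit 34) (.e (nat_lit 393281) (nat_lit 23) (.e (nat_lit 426138) (nat_lit 3) (.e (nat_lit 204829) (nat_lit 18) (.e (nat_lit 57686) (nat_lit 156) .nil)))))) (.g (nat_lit 1) (.e (nat_lit 153536) (nat_lit 0) .nil) .nil)))) (.nd (nat_lit 9) 
(.lf (nat_lit 494942) (.g (nat_lit 2572) (.e (nat_lit 163902) (nat_lit 12) (.e (nat_lit 426538) (nat_lit 29) (.e (nat_lit 352315) (nat_lit 23) (.e (nat_lit 98313) (nat_lit 9) (.e (nat_lit 335996) (nat_lit 1) (.e (nat_lit 57931) (nat_lit 282) .nil)))))) (.g (nat_lit 1) (.e (nat_lit 153240) (nat_lit 0) .nil) .nil))) 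
(.lf (nat_lit 495454) (.g (nat_lit 1887) (.e (nat_lit 163903) (nat_lit 12) (.e (nat_lit 426555) (nat_lit 32) (.e (nat_lit 376865) (nat_lit 22) (.e (nat_lit 90157) (nat_lit 11) (.e (nat_lit 24597) (nat_lit 1) .nil))))) (.g (nat_lit 0) (.e (nat_lit 153870) (nat_lit 0) .nil) .nil))))) (.nd (nat_lit 8) (.nd (nat_lit 9) 
(.lf (nat_lit 494814) (.g (nat_lit 2546) (.e (nat_lit 163902) (nat_lit 12) (.e (nat_lit 426436) (nat_lit 18) (.e (nat_lit 98380) (nat_lit 31) (.e (nat_lit 466954) (nat_lit 11) (.e (nat_lit 335994) (nat_lit 1) (.e (nat_lit 57688) (nat_lit 156) .nil)))))) (.g (nat_lit 1) (.e (nat_lit 153092) (nat_lit 0) .nil) .nil))) 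
(.lf (nat_lit 495326) (.g (nat_lit 1855) (.e (nat_lit 163903) (nat_lit 12) (.e (nat_lit 426436) (nat_lit 18) (.e (nat_lit 98358) (nat_lit 26) (.e (nat_lit 426227) (nat_lit 9) .nil)))) (.g (nat_lit 0) (.e (nat_lit 153722) (nat_lit 0) .nil) .nil)))) (.nd (nat_lit 9) 
(.lf (nat_lit 495070) (.g (nat_lit 3752) (.e (nat_lit 163902) (nat_lit 12) (.e (nat_lit 426566) (nat_lit 34) (.e (nat_lit 393293) (nat_lit 26) (.e (nat_lit 475179) (nat_lit 24) (.e (nat_lit 516120) (nat_lit 1) (.e (nat_lit 164330) (nat_lit 230) .nil)))))) (.g (nat_lit 1) (.e (nat_lit 153395) (nat_lit 0) .nil) .nil))) 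
(.lf (nat_lit 495582) (.g (nat_lit 2946) (.e (nat_lit 163903) (nat_lit 12) (.e (nat_lit 426568) (nat_lit 34) (.e (nat_lit 393270) (nat_lit 23) (.e (nat_lit 426436) (nat_lit 18) (.e (nat_lit 98335) (nat_lit 18) (.e (nat_lit 164327) (nat_lit 230) .nil)))))) (.g (nat_lit 1) (.e (nat_lit 154002) (nat_lit 0) .nil) .nil))))))) (.nd (nat_lit 6) (.nd (nat_lit 7) (.nd (nat_lit 8) (.nd (nat_lit 9) 
(.lf (nat_lit 494654) (.g (nat_lit 1701) (.e (nat_lit 163886) (nat_lit 5) (.e (nat_lit 221215) (nat_lit 23) (.e (nat_lit 204813) (nat_lit 9) (.e (nat_lit 426307) (nat_lit 12) .nil)))) (.g (nat_lit 0) (.e (nat_lit 152164) (nat_lit 0) .nil) .nil))) 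
(.lf (nat_lit 495166) (.g (nat_lit 2501) (.e (nat_lit 163902) (nat_lit 12) (.e (nat_lit 426568) (nat_lit 34) (.e (nat_lit 393271) (nat_lit 23) (.e (nat_lit 426364) (nat_lit 15) (.e (nat_lit 1798) (nat_lit 119) .nil))))) (.g (nat_lit 0) (.e (nat_lit 153501) (nat_lit 0) .nil) .nil)))) (.nd (nat_lit 9) 
(.lf (nat_lit 494910) (.g (nat_lit 3023) (.e (nat_lit 163902) (nat_lit 12) (.e (nat_lit 426479) (nat_lit 27) (.e (nat_lit 336430) (nat_lit 29) (.e (nat_lit 442425) (nat_lit 23) (.e (nat_lit 204829) (nat_lit 18) (.e (nat_lit 57688) (nat_lit 156) .nil)))))) (.g (nat_lit 1) (.e (nat_lit 153194) (nat_lit 0) .nil) .nil))) 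
(.lf (nat_lit 495422) (.g (nat_lit 2340) (.e (nat_lit 163903) (nat_lit 12) (.e (nat_lit 426481) (nat_lit 27) (.e (nat_lit 336389) (nat_lit 27) (.e (nat_lit 426306) (nat_lit 12) (.e (nat_lit 475177) (nat_lit 24) .nil))))) (.g (nat_lit 0) (.e (nat_lit 153835) (nat_lit 0) .nil) .nil))))) (.nd (nat_lit 8) (.nd (nat_lit 9) 
(.lf (nat_lit 494782) (.g (nat_lit 2733) (.e (nat_lit 163902) (nat_lit 12) (.e (nat_lit 426428) (nat_lit 17) (.e (nat_lit 90170) (nat_lit 13) (.e (nat_lit 172106) (nat_lit 10) (.e (nat_lit 434201) (nat_lit 18) .nil))))) (.g (nat_lit 0) (.e (nat_lit 153052) (nat_lit 0) .nil) .nil))) 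
(.lf (nat_lit 495294) (.g (nat_lit 3733) (.e (nat_lit 163902) (nat_lit 12) (.e (nat_lit 426568) (nat_lit 34) (.e (nat_lit 393294) (nat_lit 26) (.e (nat_lit 475178) (nat_lit 24) (.e (nat_lit 516120) (nat_lit 1) (.e (nat_lit 164329) (nat_lit 230) .nil)))))) (.g (nat_lit 1) (.e (nat_lit 153640) (nat_lit 0) .nil) .nil)))) (.nd (nat_lit 9) 
(.lf (nat_lit 495038) (.g (nat_lit 2513) (.e (nat_lit 163902) (nat_lit 12) (.e (nat_lit 426566) (nat_lit 34) (.e (nat_lit 393290) (nat_lit 26) (.e (nat_lit 475179) (nat_lit 24) (.e (nat_lit 516115) (nat_lit 1) (.e (nat_lit 164332) (nat_lit 230) .nil)))))) (.g (nat_lit 1) (.e (nat_lit 153363) (nat_lit 0) .nil) .nil))) 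
(.lf (nat_lit 495550) (.g (nat_lit 2531) (.e (nat_lit 163903) (nat_lit 12) (.e (nat_lit 426567) (nat_lit 34) (.e (nat_lit 393268) (nat_lit 23) (.e (nat_lit 426438) (nat_lit 18) (.e (nat_lit 98335) (nat_lit 18) (.e (nat_lit 164326) (nat_lit 230) .nil)))))) (.g (nat_lit 1) (.e (nat_lit 153968) (nat_lit 0) .nil) .nil)))))) (.nd (nat_lit 7) (.nd (nat_lit 8) (.nd (nat_lit 9) 
(.lf (nat_lit 494718) (.g (nat_lit 1657) (.e (nat_lit 163900) (nat_lit 12) (.e (nat_lit 426140) (nat_lit 3) (.e (nat_lit 204868) (nat_lit 29) (.e (nat_lit 360473) (nat_lit 8) (.e (nat_lit 557094) (nat_lit 12) .nil))))) (.g (nat_lit 0) (.e (nat_lit 152856) (nat_lit 0) .nil) .nil))) 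
(.lf (nat_lit 495230) (.g (nat_lit 2753) (.e (nat_lit 163902) (nat_lit 12) (.e (nat_lit 426568) (nat_lit 34) (.e (nat_lit 393291) (nat_lit 26) (.e (nat_lit 475177) (nat_lit 24) (.e (nat_lit 516115) (nat_lit 1) (.e (nat_lit 164329) (nat_lit 230) .nil)))))) (.g (nat_lit 1) (.e (nat_lit 153576) (nat_lit 0) .nil) .nil)))) (.nd (nat_lit 9) 
(.lf (nat_lit 494974) (.g (nat_lit 2599) (.e (nat_lit 163902) (nat_lit 12) (.e (nat_lit 426564) (nat_lit 34) (.e (nat_lit 393294) (nat_lit 26) (.e (nat_lit 475177) (nat_lit 24) (.e (nat_lit 516117) (nat_lit 1) (.e (nat_lit 164330) (nat_lit 230) .nil)))))) (.g (nat_lit 1) (.e (nat_lit 153297) (nat_lit 0) .nil) .nil))) 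
(.lf (nat_lit 495486) (.g (nat_lit 2176) (.e (nat_lit 163903) (nat_lit 12) (.e (nat_lit 426566) (nat_lit 34) (.e (nat_lit 393271) (nat_lit 23) (.e (nat_lit 426434) (nat_lit 18) (.e (nat_lit 98333) (nat_lit 18) .nil))))) (.g (nat_lit 0) (.e (nat_lit 153903) (nat_lit 0) .nil) .nil))))) (.nd (nat_lit 8) (.nd (nat_lit 9) 
(.lf (nat_lit 494846) (.g (nat_lit 2817) (.e (nat_lit 163902) (nat_lit 12) (.e (nat_lit 426438) (nat_lit 18) (.e (nat_lit 98373) (nat_lit 29) (.e (nat_lit 450561) (nat_lit 0) (.e (nat_lit 6839) (nat_lit 369) .nil))))) (.g (nat_lit 0) (.e (nat_lit 153126) (nat_lit 0) .nil) .nil))) 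
(.lf (nat_lit 495358) (.g (nat_lit 3493) (.e (nat_lit 163903) (nat_lit 12) (.e (nat_lit 426438) (nat_lit 18) (.e (nat_lit 98373) (nat_lit 29) (.e (nat_lit 450562) (nat_lit 0) (.e (nat_lit 6839) (nat_lit 369) .nil))))) (.g (nat_lit 0) (.e (nat_lit 153759) (nat_lit 0) .nil) .nil)))) (.nd (nat_lit 9) 
(.lf (nat_lit 495102) (.g (nat_lit 3379) (.e (nat_lit 163902) (nat_lit 12) (.e (nat_lit 426566) (nat_lit 34) (.e (nat_lit 393295) (nat_lit 26) (.e (nat_lit 475179) (nat_lit 24) (.e (nat_lit 516120) (nat_lit 1) (.e (nat_lit 164332) (nat_lit 230) .nil)))))) (.g (nat_lit 1) (.e (nat_lit 153427) (nat_lit 0) .nil) .nil))) 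
(.lf (nat_lit 495614) (.g (nat_lit 2259) (.e (nat_lit 163903) (nat_lit 12) (.e (nat_lit 426568) (nat_lit 34) (.e (nat_lit 393284) (nat_lit 24) (.e (nat_lit 434233) (nat_lit 23) (.e (nat_lit 532502) (nat_lit 1) (.e (nat_lit 57686) (nat_lit 156) .nil)))))) (.g (nat_lit 1) (.e (nat_lit 154036) (nat_lit 0) .nil) .nil)))))))))))) 
(.nd (nat_lit 1) (.nd (nat_lit 2) (.nd (nat_lit 3) (.nd (nat_lit 4) (.nd (nat_lit 5) 
(.nd (nat_lit 6) (.nd (nat_lit 7) (.nd (nat_lit 8) (.nd (nat_lit 9) 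
(.lf (nat_lit 494593) (.g (nat_lit 1039) (.e (nat_lit 163885) (nat_lit 5) (.e (nat_lit 221194) (nat_lit 11) (.e (nat_lit 336087) (nat_lit 9) (.e (nat_lit 336444) (nat_lit 32) .nil)))) (.g (nat_lit 0) (.e (nat_lit 151988) (nat_lit 0) .nil) .nil))) 
(.lf (nat_lit 495105) (.g (nat_lit 1904) (.e (nat_lit 163902) (nat_lit 12) (.e (nat_lit 426566) (nat_lit 34) (.e (nat_lit 393296) (nat_lit 26) (.e (nat_lit 475176) (nat_lit 24) (.e (nat_lit 516118) (nat_lit 1) (.e (nat_lit 164332) (nat_lit 230) .nil)))))) (.g (nat_lit 1) (.e (nat_lit 153430) (nat_lit 0) .nil) .nil)))) (.nd (nat_lit 9) 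
(.lf (nat_lit 494849) (.g (nat_lit 4202) (.e (nat_lit 163902) (nat_lit 12) (.e (nat_lit 426438) (nat_lit 18) (.e (nat_lit 98373) (nat_lit 29) (.e (nat_lit 450562) (nat_lit 0) (.e (nat_lit 6839) (nat_lit 369) (.e (nat_lit 163860) (nat_lit 1) (.e (nat_lit 164330) (nat_lit 230) .nil))))))) (.g (nat_lit 1) (.e (nat_lit 153129) (nat_lit 0) .nil) .nil))) 
(.lf (nat_lit 495361) (.g (nat_lit 3048) (.e (nat_lit 163903) (nat_lit 12) (.e (nat_lit 426438) (nat_lit 18) (.e (nat_lit 98373) (nat_lit 29) (.e (nat_lit 450562) (nat_lit 0) (.e (nat_lit 7936) (nat_lit 369) .nil))))) (.g (nat_lit 0) (.e (nat_lit 153762) (nat_lit 0) .nil) .nil))))) (.nd (nat_lit 8) (.nd (nat_lit 9) 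
(.lf (nat_lit 494721) (.g (nat_lit 3431) (.e (nat_lit 163900) (nat_lit 12) (.e (nat_lit 426140) (nat_lit 3) (.e (nat_lit 204869) (nat_lit 29) (.e (nat_lit 360474) (nat_lit 8) (.e (nat_lit 557088) (nat_lit 12) .nil))))) (.g (nat_lit 0) (.e (nat_lit 152859) (nat_lit 0) .nil) .nil))) 
(.lf (nat_lit 495233) (.g (nat_lit 3563) (.e (nat_lit 163902) (nat_lit 12) (.e (nat_lit 426568) (nat_lit 34) (.e (nat_lit 393291) (nat_lit 26) (.e (nat_lit 475177) (nat_lit 24) (.e (nat_lit 516117) (nat_lit 1) (.e (nat_lit 164329) (nat_lit 230) .nil)))))) (.g (nat_lit 1) (.e (nat_lit 153579) (nat_lit 0) .nil) .nil)))) (.nd (nat_lit 9) 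
(.lf (nat_lit 494977) (.g (nat_lit 3631) (.e (nat_lit 163902) (nat_lit 12) (.e (nat_lit 426566) (nat_lit 34) (.e (nat_lit 393253) (nat_lit 18) (.e (nat_lit 164332) (nat_lit 230) .nil)))) (.g (nat_lit 0) (.e (nat_lit 153301) (nat_lit 0) .nil) .nil))) 
(.lf (nat_lit 495489) (.g (nat_lit 3047) (.e (nat_lit 163903) (nat_lit 12) (.e (nat_lit 426566) (nat_lit 34) (.e (nat_lit 393271) (nat_lit 23) (.e (nat_lit 426438) (nat_lit 18) (.e (nat_lit 98335) (nat_lit 18) (.e (nat_lit 164326) (nat_lit 230) .nil)))))) (.g (nat_lit 1) (.e (nat_lit 153906) (nat_lit 0) .nil) .nil)))))) (.nd (nat_lit 7) (.nd (nat_lit 8) (.nd (nat_lit 9) 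
(.lf (nat_lit 494657) (.g (nat_lit 3092) (.e (nat_lit 163891) (nat_lit 8) (.e (nat_lit 253991) (nat_lit 11) (.e (nat_lit 16425) (nat_lit 7) (.e (nat_lit 409648) (nat_lit 18) (.e (nat_lit 303137) (nat_lit 10) (.e (nat_lit 434200) (nat_lit 18) (.e (nat_lit 5966) (nat_lit 324) .nil))))))) (.g (nat_lit 1) (.e (nat_lit 152195) (nat_lit 0) .nil) .nil))) 
(.lf (nat_lit 495169) (.g (nat_lit 2510) (.e (nat_lit 163902) (nat_lit 12) (.e (nat_lit 426568) (nat_lit 34) (.e (nat_lit 393271) (nat_lit 23) (.e (nat_lit 426434) (nat_lit 18) (.e (nat_lit 98334) (nat_lit 18) (.e (nat_lit 164332) (nat_lit 230) .nil)))))) (.g (nat_lit 1) (.e (nat_lit 153504) (nat_lit 0) .nil) .nil)))) (.nd (nat_lit 9) 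
(.lf (nat_lit 494913) (.g (nat_lit 1854) (.e (nat_lit 163902) (nat_lit 12) (.e (nat_lit 426479) (nat_lit 27) (.e (nat_lit 336430) (nat_lit 29) (.e (nat_lit 442427) (nat_lit 23) (.e (nat_lit 204829) (nat_lit 18) (.e (nat_lit 57687) (nat_lit 156) .nil)))))) (.g (nat_lit 1) (.e (nat_lit 153200) (nat_lit 0) .nil) .nil))) 
(.lf (nat_lit 495425) (.g (nat_lit 3762) (.e (nat_lit 163903) (nat_lit 12) (.e (nat_lit 426481) (nat_lit 27) (.e (nat_lit 336389) (nat_lit 27) (.e (nat_lit 426308) (nat_lit 12) (.e (nat_lit 475177) (nat_lit 24) (.e (nat_lit 516118) (nat_lit 1) (.e (nat_lit 164327) (nat_lit 230) .nil))))))) (.g (nat_lit 1) (.e (nat_lit 153838) (nat_lit 0) .nil) .nil))))) (.nd (nat_lit 8) (.nd (nat_lit 9) 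
(.lf (nat_lit 494785) (.g (nat_lit 2139) (.e (nat_lit 163902) (nat_lit 12) (.e (nat_lit 426428) (nat_lit 17) (.e (nat_lit 90170) (nat_lit 13) (.e (nat_lit 172113) (nat_lit 10) (.e (nat_lit 434200) (nat_lit 18) .nil))))) (.g (nat_lit 0) (.e (nat_lit 153055) (nat_lit 0) .nil) .nil))) 
(.lf (nat_lit 495297) (.g (nat_lit 4173) (.e (nat_lit 163902) (nat_lit 12) (.e (nat_lit 426568) (nat_lit 34) (.e (nat_lit 393294) (nat_lit 26) (.e (nat_lit 475179) (nat_lit 24) (.e (nat_lit 516117) (nat_lit 1) (.e (nat_lit 164329) (nat_lit 230) .nil)))))) (.g (nat_lit 1) (.e (nat_lit 153643) (nat_lit 0) .nil) .nil)))) (.nd (nat_lit 9) 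
(.lf (nat_lit 495041) (.g (nat_lit 827) (.e (nat_lit 163902) (nat_lit 12) (.e (nat_lit 426566) (nat_lit 34) (.e (nat_lit 393291) (nat_lit 26) (.e (nat_lit 475177) (nat_lit 24) .nil)))) (.g (nat_lit 0) (.e (nat_lit 153366) (nat_lit 0) .nil) .nil))) 
(.lf (nat_lit 495553) (.g (nat_lit 2907) (.e (nat_lit 163903) (nat_lit 12) (.e (nat_lit 426567) (nat_lit 34) (.e (nat_lit 393271) (nat_lit 23) (.e (nat_lit 426436) (nat_lit 18) (.e (nat_lit 98333) (nat_lit 18) (.e (nat_lit 164325) (nat_lit 230) .nil)))))) (.g (nat_lit 1) (.e (nat_lit 153971) (nat_lit 0) .nil) .nil))))))) (.nd (nat_lit 6) (.nd (nat_lit 7) (.nd (nat_lit 8) (.nd (nat_lit 9) 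
(.lf (nat_lit 494625) (.g (nat_lit 1575) (.e (nat_lit 163886) (nat_lit 5) (.e (nat_lit 221193) (nat_lit 11) (.e (nat_lit 336075) (nat_lit 9) (.e (nat_lit 336443) (nat_lit 32) (.e (nat_lit 466971) (nat_lit 21) .nil))))) (.g (nat_lit 0) (.e (nat_lit 152099) (nat_lit 0) .nil) .nil))) 
(.lf (nat_lit 495137) (.g (nat_lit 3186) (.e (nat_lit 163902) (nat_lit 12) (.e (nat_lit 426568) (nat_lit 34) (.e (nat_lit 393266) (nat_lit 23) (.e (nat_lit 426438) (nat_lit 18) (.e (nat_lit 98335) (nat_lit 18) (.e (nat_lit 164332) (nat_lit 230) .nil)))))) (.g (nat_lit 1) (.e (nat_lit 153472) (nat_lit 0) .nil) .nil)))) (.nd (nat_lit 9) 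
(.lf (nat_lit 494881) (.g (nat_lit 2677) (.e (nat_lit 163902) (nat_lit 12) (.e (nat_lit 426438) (nat_lit 18) (.e (nat_lit 98381) (nat_lit 31) (.e (nat_lit 466954) (nat_lit 11) (.e (nat_lit 335995) (nat_lit 1) (.e (nat_lit 57686) (nat_lit 156) .nil)))))) (.g (nat_lit 1) (.e (nat_lit 153162) (nat_lit 0) .nil) .nil))) 
(.lf (nat_lit 495393) (.g (nat_lit 3176) (.e (nat_lit 163903) (nat_lit 12) (.e (nat_lit 426479) (nat_lit 27) (.e (nat_lit 336430) (nat_lit 29) (.e (nat_lit 442427) (nat_lit 23) (.e (nat_lit 204829) (nat_lit 18) (.e (nat_lit 57686) (nat_lit 156) .nil)))))) (.g (nat_lit 1) (.e (nat_lit 153800) (nat_lit 0) .nil) .nil))))) (.nd (nat_lit 8) (.nd (nat_lit 9) 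
(.lf (nat_lit 494753) (.g (nat_lit 1851) (.e (nat_lit 163901) (nat_lit 12) (.e (nat_lit 426428) (nat_lit 17) (.e (nat_lit 90170) (nat_lit 13) (.e (nat_lit 172123) (nat_lit 13) (.e (nat_lit 483363) (nat_lit 18) .nil))))) (.g (nat_lit 0) (.e (nat_lit 152950) (nat_lit 0) .nil) .nil))) 
(.lf (nat_lit 495265) (.g (nat_lit 3213) (.e (nat_lit 163902) (nat_lit 12) (.e (nat_lit 426568) (nat_lit 34) (.e (nat_lit 393293) (nat_lit 26) (.e (nat_lit 475178) (nat_lit 24) (.e (nat_lit 516120) (nat_lit 1) (.e (nat_lit 164329) (nat_lit 230) .nil)))))) (.g (nat_lit 1) (.e (nat_lit 153611) (nat_lit 0) .nil) .nil)))) (.nd (nat_lit 9) 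
(.lf (nat_lit 495009) (.g (nat_lit 3012) (.e (nat_lit 163902) (nat_lit 12) (.e (nat_lit 426566) (nat_lit 34) (.e (nat_lit 393272) (nat_lit 23) (.e (nat_lit 426131) (nat_lit 3) (.e (nat_lit 204831) (nat_lit 18) (.e (nat_lit 57688) (nat_lit 156) .nil)))))) (.g (nat_lit 1) (.e (nat_lit 153333) (nat_lit 0) .nil) .nil))) 
(.lf (nat_lit 495521) (.g (nat_lit 2061) (.e (nat_lit 163903) (nat_lit 12) (.e (nat_lit 426566) (nat_lit 34) (.e (nat_lit 393293) (nat_lit 26) (.e (nat_lit 475177) (nat_lit 24) (.e (nat_lit 516118) (nat_lit 1) (.e (nat_lit 164326) (nat_lit 230) .nil)))))) (.g (nat_lit 1) (.e (nat_lit 153938) (nat_lit 0) .nil) .nil)))))) (.nd (nat_lit 7) (.nd (nat_lit 8) (.nd (nat_lit 9) 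
(.lf (nat_lit 494689) (.g (nat_lit 4146) (.e (nat_lit 163900) (nat_lit 12) (.e (nat_lit 426125) (nat_lit 2) (.e (nat_lit 196666) (nat_lit 13) (.e (nat_lit 65610) (nat_lit 10) (.e (nat_lit 344129) (nat_lit 26) (.e (nat_lit 557090) (nat_lit 12) (.e (nat_lit 163844) (nat_lit 0) (.e (nat_lit 6416) (nat_lit 341) .nil)))))))) (.g (nat_lit 1) (.e (nat_lit 152809) (nat_lit 0) .nil) .nil))) 
(.lf (nat_lit 495201) (.g (nat_lit 2978) (.e (nat_lit 163902) (nat_lit 12) (.e (nat_lit 426568) (nat_lit 34) (.e (nat_lit 393281) (nat_lit 23) (.e (nat_lit 426139) (nat_lit 3) (.e (nat_lit 204829) (nat_lit 18) (.e (nat_lit 57688) (nat_lit 156) .nil)))))) (.g (nat_lit 1) (.e (nat_lit 153539) (nat_lit 0) .nil) .nil)))) (.nd (nat_lit 9) 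
(.lf (nat_lit 494945) (.g (nat_lit 851) (.e (nat_lit 163902) (nat_lit 12) (.e (nat_lit 426544) (nat_lit 30) (.e (nat_lit 360466) (nat_lit 3) (.e (nat_lit 516194) (nat_lit 26) .nil)))) (.g (nat_lit 0) (.e (nat_lit 153243) (nat_lit 0) .nil) .nil))) 
(.lf (nat_lit 495457) (.g (nat_lit 2040) (.e (nat_lit 163903) (nat_lit 12) (.e (nat_lit 426555) (nat_lit 32) (.e (nat_lit 376865) (nat_lit 22) (.e (nat_lit 90159) (nat_lit 11) (.e (nat_lit 24597) (nat_lit 1) .nil))))) (.g (nat_lit 0) (.e (nat_lit 153873) (nat_lit 0) .nil) .nil))))) (.nd (nat_lit 8) (.nd (nat_lit 9) 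
(.lf (nat_lit 494817) (.g (nat_lit 2612) (.e (nat_lit 163902) (nat_lit 12) (.e (nat_lit 426436) (nat_lit 18) (.e (nat_lit 98381) (nat_lit 31) (.e (nat_lit 466954) (nat_lit 11) (.e (nat_lit 335994) (nat_lit 1) (.e (nat_lit 57688) (nat_lit 156) .nil)))))) (.g (nat_lit 1) (.e (nat_lit 153095) (nat_lit 0) .nil) .nil))) 
(.lf (nat_lit 495329) (.g (nat_lit 2396) (.e (nat_lit 163903) (nat_lit 12) (.e (nat_lit 426436) (nat_lit 18) (.e (nat_lit 98358) (nat_lit 26) (.e (nat_lit 426323) (nat_lit 13) (.e (nat_lit 483363) (nat_lit 18) (.e (nat_lit 57686) (nat_lit 156) .nil)))))) (.g (nat_lit 1) (.e (nat_lit 153725) (nat_lit 0) .nil) .nil)))) (.nd (nat_lit 9) 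
(.lf (nat_lit 495073) (.g (nat_lit 1748) (.e (nat_lit 163902) (nat_lit 12) (.e (nat_lit 426566) (nat_lit 34) (.e (nat_lit 393294) (nat_lit 26) (.e (nat_lit 475176) (nat_lit 24) .nil)))) (.g (nat_lit 0) (.e (nat_lit 153398) (nat_lit 0) .nil) .nil))) 
(.lf (nat_lit 495585) (.g (nat_lit 3761) (.e (nat_lit 163903) (nat_lit 12) (.e (nat_lit 426568) (nat_lit 34) (.e (nat_lit 393271) (nat_lit 23) (.e (nat_lit 426131) (nat_lit 3) (.e (nat_lit 204829) (nat_lit 18) (.e (nat_lit 57687) (nat_lit 156) .nil)))))) (.g (nat_lit 1) (.e (nat_lit 154005) (nat_lit 0) .nil) .nil)))))))) 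
(.nd (nat_lit 5) (.nd (nat_lit 6) (.nd (nat_lit 7) (.nd (nat_lit 8) (.nd (nat_lit 9) 
(.lf (nat_lit 494609) (.g (nat_lit 1634) (.e (nat_lit 163886) (nat_lit 5) (.e (nat_lit 221190) (nat_lit 11) (.e (nat_lit 336075) (nat_lit 9) (.e (nat_lit 336443) (nat_lit 32) (.e (nat_lit 466971) (nat_lit 21) .nil))))) (.g (nat_lit 0) (.e (nat_lit 152083) (nat_lit 0) .nil) .nil))) 
(.lf (nat_lit 495121) (.g (nat_lit 1839) (.e (nat_lit 163902) (nat_lit 12) (.e (nat_lit 426567) (nat_lit 34) (.e (nat_lit 393270) (nat_lit 23) (.e (nat_lit 426438) (nat_lit 18) (.e (nat_lit 98334) (nat_lit 18) (.e (nat_lit 164332) (nat_lit 230) .nil)))))) (.g (nat_lit 1) (.e (nat_lit 153447) (nat_lit 0) .nil) .nil)))) (.nd (nat_lit 9) 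
(.lf (nat_lit 494865) (.g (nat_lit 1768) (.e (nat_lit 163902) (nat_lit 12) (.e (nat_lit 426438) (nat_lit 18) (.e (nat_lit 98373) (nat_lit 29) (.e (nat_lit 450567) (nat_lit 0) .nil)))) (.g (nat_lit 0) (.e (nat_lit 153145) (nat_lit 0) .nil) .nil))) 
(.lf (nat_lit 495377) (.g (nat_lit 2001) (.e (nat_lit 163903) (nat_lit 12) (.e (nat_lit 426478) (nat_lit 27) (.e (nat_lit 336386) (nat_lit 27) (.e (nat_lit 426306) (nat_lit 12) (.e (nat_lit 475177) (nat_lit 24) (.e (nat_lit 516119) (nat_lit 1) (.e (nat_lit 164327) (nat_lit 230) .nil))))))) (.g (nat_lit 1) (.e (nat_lit 153781) (nat_lit 0) .nil) .nil))))) (.nd (nat_lit 8) (.nd (nat_lit 9) 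
(.lf (nat_lit 494737) (.g (nat_lit 4054) (.e (nat_lit 163900) (nat_lit 12) (.e (nat_lit 426140) (nat_lit 3) (.e (nat_lit 204869) (nat_lit 29) (.e (nat_lit 360475) (nat_lit 8) (.e (nat_lit 557091) (nat_lit 12) (.e (nat_lit 163847) (nat_lit 0) (.e (nat_lit 6421) (nat_lit 341) .nil))))))) (.g (nat_lit 1) (.e (nat_lit 152875) (nat_lit 0) .nil) .nil))) 
(.lf (nat_lit 495249) (.g (nat_lit 2571) (.e (nat_lit 163902) (nat_lit 12) (.e (nat_lit 426568) (nat_lit 34) (.e (nat_lit 393292) (nat_lit 26) (.e (nat_lit 475177) (nat_lit 24) (.e (nat_lit 516115) (nat_lit 1) (.e (nat_lit 164332) (nat_lit 230) .nil)))))) (.g (nat_lit 1) (.e (nat_lit 153595) (nat_lit 0) .nil) .nil)))) (.nd (nat_lit 9) 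
(.lf (nat_lit 494993) (.g (nat_lit 3427) (.e (nat_lit 163902) (nat_lit 12) (.e (nat_lit 426566) (nat_lit 34) (.e (nat_lit 393270) (nat_lit 23) (.e (nat_lit 426438) (nat_lit 18) (.e (nat_lit 98335) (nat_lit 18) (.e (nat_lit 164330) (nat_lit 230) .nil)))))) (.g (nat_lit 1) (.e (nat_lit 153317) (nat_lit 0) .nil) .nil))) 
(.lf (nat_lit 495505) (.g (nat_lit 2166) (.e (nat_lit 163903) (nat_lit 12) (.e (nat_lit 426566) (nat_lit 34) (.e (nat_lit 393287) (nat_lit 25) (.e (nat_lit 458789) (nat_lit 23) (.e (nat_lit 532499) (nat_lit 1) (.e (nat_lit 57687) (nat_lit 156) .nil)))))) (.g (nat_lit 1) (.e (nat_lit 153922) (nat_lit 0) .nil) .nil)))))) (.nd (nat_lit 7) (.nd (nat_lit 8) (.nd (nat_lit 9) 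
(.lf (nat_lit 494673) (.g (nat_lit 2311) (.e (nat_lit 163896) (nat_lit 10) (.e (nat_lit 409602) (nat_lit 0) (.e (nat_lit 5293) (nat_lit 298) (.e (nat_lit 1423) (nat_lit 108) (.e (nat_lit 336431) (nat_lit 29) (.e (nat_lit 442430) (nat_lit 24) (.e (nat_lit 229681) (nat_lit 244) .nil))))))) (.g (nat_lit 1) (.e (nat_lit 152353) (nat_lit 0) .nil) .nil))) 
(.lf (nat_lit 495185) (.g (nat_lit 3413) (.e (nat_lit 163902) (nat_lit 12) (.e (nat_lit 426568) (nat_lit 34) (.e (nat_lit 393271) (nat_lit 23) (.e (nat_lit 426438) (nat_lit 18) (.e (nat_lit 98334) (nat_lit 18) (.e (nat_lit 164329) (nat_lit 230) .nil)))))) (.g (nat_lit 1) (.e (nat_lit 153520) (nat_lit 0) .nil) .nil)))) (.nd (nat_lit 9) 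
(.lf (nat_lit 494929) (.g (nat_lit 2500) (.e (nat_lit 163902) (nat_lit 12) (.e (nat_lit 426481) (nat_lit 27) (.e (nat_lit 336389) (nat_lit 27) (.e (nat_lit 426308) (nat_lit 12) (.e (nat_lit 475175) (nat_lit 24) (.e (nat_lit 516119) (nat_lit 1) (.e (nat_lit 164322) (nat_lit 230) .nil))))))) (.g (nat_lit 1) (.e (nat_lit 153227) (nat_lit 0) .nil) .nil))) 
(.lf (nat_lit 495441) (.g (nat_lit 2758) (.e (nat_lit 163903) (nat_lit 12) (.e (nat_lit 426538) (nat_lit 29) (.e (nat_lit 352315) (nat_lit 23) (.e (nat_lit 98313) (nat_lit 9) (.e (nat_lit 335988) (nat_lit 1) (.e (nat_lit 57927) (nat_lit 282) .nil)))))) (.g (nat_lit 1) (.e (nat_lit 153855) (nat_lit 0) .nil) .nil))))) (.nd (nat_lit 8) (.nd (nat_lit 9) 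
(.lf (nat_lit 494801) (.g (nat_lit 1047) (.e (nat_lit 163902) (nat_lit 12) (.e (nat_lit 426434) (nat_lit 18) (.e (nat_lit 98381) (nat_lit 31) (.e (nat_lit 466954) (nat_lit 11) (.e (nat_lit 335986) (nat_lit 1) .nil))))) (.g (nat_lit 0) (.e (nat_lit 153073) (nat_lit 0) .nil) .nil))) 
(.lf (nat_lit 495313) (.g (nat_lit 1907) (.e (nat_lit 163903) (nat_lit 12) (.e (nat_lit 426428) (nat_lit 17) (.e (nat_lit 90170) (nat_lit 13) (.e (nat_lit 172113) (nat_lit 10) (.e (nat_lit 434207) (nat_lit 18) .nil))))) (.g (nat_lit 0) (.e (nat_lit 153708) (nat_lit 0) .nil) .nil)))) (.nd (nat_lit 9) 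
(.lf (nat_lit 495057) (.g (nat_lit 3641) (.e (nat_lit 163902) (nat_lit 12) (.e (nat_lit 426566) (nat_lit 34) (.e (nat_lit 393291) (nat_lit 26) (.e (nat_lit 475179) (nat_lit 24) (.e (nat_lit 516120) (nat_lit 1) (.e (nat_lit 164331) (nat_lit 230) .nil)))))) (.g (nat_lit 1) (.e (nat_lit 153382) (nat_lit 0) .nil) .nil))) 
(.lf (nat_lit 495569) (.g (nat_lit 2690) (.e (nat_lit 163903) (nat_lit 12) (.e (nat_lit 426568) (nat_lit 34) (.e (nat_lit 393266) (nat_lit 23) (.e (nat_lit 426438) (nat_lit 18) (.e (nat_lit 98335) (nat_lit 18) (.e (nat_lit 164327) (nat_lit 230) .nil)))))) (.g (nat_lit 1) (.e (nat_lit 153989) (nat_lit 0) .nil) .nil))))))) (.nd (nat_lit 6) (.nd (nat_lit 7) (.nd (nat_lit 8) (.nd (nat_lit 9) 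
(.lf (nat_lit 494641) (.g (nat_lit 2951) (.e (nat_lit 163886) (nat_lit 5) (.e (nat_lit 221194) (nat_lit 11) (.e (nat_lit 336075) (nat_lit 9) (.e (nat_lit 336443) (nat_lit 32) (.e (nat_lit 466971) (nat_lit 21) (.e (nat_lit 164327) (nat_lit 230) .nil)))))) (.g (nat_lit 1) (.e (nat_lit 152117) (nat_lit 0) .nil) .nil))) 
(.lf (nat_lit 495153) (.g (nat_lit 2536) (.e (nat_lit 163902) (nat_lit 12) (.e (nat_lit 426568) (nat_lit 34) (.e (nat_lit 393269) (nat_lit 23) (.e (nat_lit 426436) (nat_lit 18) (.e (nat_lit 98334) (nat_lit 18) (.e (nat_lit 164332) (nat_lit 230) .nil)))))) (.g (nat_lit 1) (.e (nat_lit 153488) (nat_lit 0) .nil) .nil)))) (.nd (nat_lit 9) 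
(.lf (nat_lit 494897) (.g (nat_lit 2261) (.e (nat_lit 163902) (nat_lit 12) (.e (nat_lit 426478) (nat_lit 27) (.e (nat_lit 336389) (nat_lit 27) (.e (nat_lit 426308) (nat_lit 12) (.e (nat_lit 475177) (nat_lit 24) .nil))))) (.g (nat_lit 0) (.e (nat_lit 153178) (nat_lit 0) .nil) .nil))) 
(.lf (nat_lit 495409) (.g (nat_lit 1430) (.e (nat_lit 163903) (nat_lit 12) (.e (nat_lit 426479) (nat_lit 27) (.e (nat_lit 336434) (nat_lit 30) (.e (nat_lit 450586) (nat_lit 10) (.e (nat_lit 573473) (nat_lit 12) (.e (nat_lit 65280) (nat_lit 0) (.e (nat_lit 5222) (nat_lit 296) .nil))))))) (.g (nat_lit 1) (.e (nat_lit 153816) (nat_lit 0) .nil) .nil))))) (.nd (nat_lit 8) (.nd (nat_lit 9) 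
(.lf (nat_lit 494769) (.g (nat_lit 2084) (.e (nat_lit 163901) (nat_lit 12) (.e (nat_lit 426566) (nat_lit 34) (.e (nat_lit 393294) (nat_lit 26) (.e (nat_lit 475177) (nat_lit 24) (.e (nat_lit 516118) (nat_lit 1) .nil))))) (.g (nat_lit 0) (.e (nat_lit 152981) (nat_lit 0) .nil) .nil))) 
(.lf (nat_lit 495281) (.g (nat_lit 3151) (.e (nat_lit 163902) (nat_lit 12) (.e (nat_lit 426568) (nat_lit 34) (.e (nat_lit 393294) (nat_lit 26) (.e (nat_lit 475177) (nat_lit 24) (.e (nat_lit 516117) (nat_lit 1) (.e (nat_lit 164322) (nat_lit 230) .nil)))))) (.g (nat_lit 1) (.e (nat_lit 153627) (nat_lit 0) .nil) .nil)))) (.nd (nat_lit 9) 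
(.lf (nat_lit 495025) (.g (nat_lit 2667) (.e (nat_lit 163902) (nat_lit 12) (.e (nat_lit 426566) (nat_lit 34) (.e (nat_lit 393282) (nat_lit 24) (.e (nat_lit 434233) (nat_lit 23) (.e (nat_lit 532503) (nat_lit 1) (.e (nat_lit 57688) (nat_lit 156) .nil)))))) (.g (nat_lit 1) (.e (nat_lit 153349) (nat_lit 0) .nil) .nil))) 
(.lf (nat_lit 495537) (.g (nat_lit 3590) (.e (nat_lit 163903) (nat_lit 12) (.e (nat_lit 426566) (nat_lit 34) (.e (nat_lit 393296) (nat_lit 26) (.e (nat_lit 475175) (nat_lit 24) (.e (nat_lit 516119) (nat_lit 1) (.e (nat_lit 164325) (nat_lit 230) .nil)))))) (.g (nat_lit 1) (.e (nat_lit 153955) (nat_lit 0) .nil) .nil)))))) (.nd (nat_lit 7) (.nd (nat_lit 8) (.nd (nat_lit 9) 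
(.lf (nat_lit 494705) (.g (nat_lit 3938) (.e (nat_lit 163900) (nat_lit 12) (.e (nat_lit 426125) (nat_lit 2) (.e (nat_lit 196666) (nat_lit 13) (.e (nat_lit 65617) (nat_lit 10) (.e (nat_lit 344133) (nat_lit 26) (.e (nat_lit 557089) (nat_lit 12) (.e (nat_lit 163848) (nat_lit 0) (.e (nat_lit 6416) (nat_lit 341) .nil)))))))) (.g (nat_lit 1) (.e (nat_lit 152825) (nat_lit 0) .nil) .nil))) 
(.lf (nat_lit 495217) (.g (nat_lit 3180) (.e (nat_lit 163902) (nat_lit 12) (.e (nat_lit 426568) (nat_lit 34) (.e (nat_lit 393284) (nat_lit 24) (.e (nat_lit 434233) (nat_lit 23) (.e (nat_lit 532503) (nat_lit 1) (.e (nat_lit 57685) (nat_lit 156) .nil)))))) (.g (nat_lit 1) (.e (nat_lit 153563) (nat_lit 0) .nil) .nil)))) (.nd (nat_lit 9) 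
(.lf (nat_lit 494961) (.g (nat_lit 1137) (.e (nat_lit 163902) (nat_lit 12) (.e (nat_lit 426555) (nat_lit 32) (.e (nat_lit 376865) (nat_lit 22) (.e (nat_lit 90158) (nat_lit 11) .nil)))) (.g (nat_lit 0) (.e (nat_lit 153271) (nat_lit 0) .nil) .nil))) 
(.lf (nat_lit 495473) (.g (nat_lit 3171) (.e (nat_lit 163903) (nat_lit 12) (.e (nat_lit 426566) (nat_lit 34) (.e (nat_lit 393268) (nat_lit 23) (.e (nat_lit 426438) (nat_lit 18) (.e (nat_lit 98335) (nat_lit 18) (.e (nat_lit 164326) (nat_lit 230) .nil)))))) (.g (nat_lit 1) (.e (nat_lit 153890) (nat_lit 0) .nil) .nil))))) (.nd (nat_lit 8) (.nd (nat_lit 9) 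
(.lf (nat_lit 494833) (.g (nat_lit 2050) (.e (nat_lit 163902) (nat_lit 12) (.e (nat_lit 426438) (nat_lit 18) (.e (nat_lit 98365) (nat_lit 26) (.e (nat_lit 426341) (nat_lit 14) (.e (nat_lit 491584) (nat_lit 28) (.e (nat_lit 434208) (nat_lit 18) (.e (nat_lit 6420) (nat_lit 341) .nil))))))) (.g (nat_lit 1) (.e (nat_lit 153113) (nat_lit 0) .nil) .nil))) 
(.lf (nat_lit 495345) (.g (nat_lit 1834) (.e (nat_lit 163903) (nat_lit 12) (.e (nat_lit 426437) (nat_lit 18) (.e (nat_lit 98381) (nat_lit 31) (.e (nat_lit 466954) (nat_lit 11) (.e (nat_lit 335986) (nat_lit 1) (.e (nat_lit 57688) (nat_lit 156) .nil)))))) (.g (nat_lit 1) (.e (nat_lit 153742) (nat_lit 0) .nil) .nil)))) (.nd (nat_lit 9) 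
(.lf (nat_lit 495089) (.g (nat_lit 3337) (.e (nat_lit 163902) (nat_lit 12) (.e (nat_lit 426566) (nat_lit 34) (.e (nat_lit 393294) (nat_lit 26) (.e (nat_lit 475179) (nat_lit 24) (.e (nat_lit 516120) (nat_lit 1) (.e (nat_lit 164329) (nat_lit 230) .nil)))))) (.g (nat_lit 1) (.e (nat_lit 153414) (nat_lit 0) .nil) .nil))) 
(.lf (nat_lit 495601) (.g (nat_lit 3557) (.e (nat_lit 163903) (nat_lit 12) (.e (nat_lit 426568) (nat_lit 34) (.e (nat_lit 393271) (nat_lit 23) (.e (nat_lit 426438) (nat_lit 18) (.e (nat_lit 98335) (nat_lit 18) (.e (nat_lit 164325) (nat_lit 230) .nil)))))) (.g (nat_lit 1) (.e (nat_lit 154021) (nat_lit 0) .nil) .nil))))))))) 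
(.nd (nat_lit 4) (.nd (nat_lit 5) (.nd (nat_lit 6) (.nd (nat_lit 7) (.nd (nat_lit 8) 
(.nd (nat_lit 9) 
(.lf (nat_lit 494601) (.g (nat_lit 3562) (.e (nat_lit 163885) (nat_lit 5) (.e (nat_lit 221208) (nat_lit 21) (.e (nat_lit 164402) (nat_lit 256) (.e (nat_lit 57427) (nat_lit 15) (.e (nat_lit 360475) (nat_lit 8) (.e (nat_lit 557068) (nat_lit 9) (.e (nat_lit 2715) (nat_lit 171) (.e (nat_lit 229678) (nat_lit 244) .nil)))))))) (.g (nat_lit 1) (.e (nat_lit 152042) (nat_lit 0) .nil) .nil))) 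
(.lf (nat_lit 495113) (.g (nat_lit 3731) (.e (nat_lit 163902) (nat_lit 12) (.e (nat_lit 426566) (nat_lit 34) (.e (nat_lit 393296) (nat_lit 26) (.e (nat_lit 475178) (nat_lit 24) (.e (nat_lit 516120) (nat_lit 1) (.e (nat_lit 164332) (nat_lit 230) .nil)))))) (.g (nat_lit 1) (.e (nat_lit 153438) (nat_lit 0) .nil) .nil)))) (.nd (nat_lit 9) 
(.lf (nat_lit 494857) (.g (nat_lit 3628) (.e (nat_lit 163902) (nat_lit 12) (.e (nat_lit 426438) (nat_lit 18) (.e (nat_lit 98373) (nat_lit 29) (.e (nat_lit 450562) (nat_lit 0) (.e (nat_lit 6846) (nat_lit 370) .nil))))) (.g (nat_lit 0) (.e (nat_lit 153137) (nat_lit 0) .nil) .nil))) 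
(.lf (nat_lit 495369) (.g (nat_lit 484) (.e (nat_lit 163903) (nat_lit 12) (.e (nat_lit 426438) (nat_lit 18) (.e (nat_lit 98374) (nat_lit 29) .nil))) (.g (nat_lit 0) (.e (nat_lit 153772) (nat_lit 0) .nil) .nil))))) (.nd (nat_lit 8) (.nd (nat_lit 9) 
(.lf (nat_lit 494729) (.g (nat_lit 2471) (.e (nat_lit 163900) (nat_lit 12) (.e (nat_lit 426140) (nat_lit 3) (.e (nat_lit 204869) (nat_lit 29) (.e (nat_lit 360475) (nat_lit 8) (.e (nat_lit 557089) (nat_lit 12) (.e (nat_lit 163843) (nat_lit 0) (.e (nat_lit 6418) (nat_lit 341) .nil))))))) (.g (nat_lit 1) (.e (nat_lit 152867) (nat_lit 0) .nil) .nil))) 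
(.lf (nat_lit 495241) (.g (nat_lit 2617) (.e (nat_lit 163902) (nat_lit 12) (.e (nat_lit 426568) (nat_lit 34) (.e (nat_lit 393291) (nat_lit 26) (.e (nat_lit 475179) (nat_lit 24) (.e (nat_lit 516115) (nat_lit 1) (.e (nat_lit 164332) (nat_lit 230) .nil)))))) (.g (nat_lit 1) (.e (nat_lit 153587) (nat_lit 0) .nil) .nil)))) (.nd (nat_lit 9) 
(.lf (nat_lit 494985) (.g (nat_lit 2819) (.e (nat_lit 163902) (nat_lit 12) (.e (nat_lit 426566) (nat_lit 34) (.e (nat_lit 393270) (nat_lit 23) (.e (nat_lit 426131) (nat_lit 3) (.e (nat_lit 204829) (nat_lit 18) (.e (nat_lit 57688) (nat_lit 156) .nil)))))) (.g (nat_lit 1) (.e (nat_lit 153309) (nat_lit 0) .nil) .nil))) 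
(.lf (nat_lit 495497) (.g (nat_lit 3584) (.e (nat_lit 163903) (nat_lit 12) (.e (nat_lit 426566) (nat_lit 34) (.e (nat_lit 393273) (nat_lit 23) (.e (nat_lit 426438) (nat_lit 18) (.e (nat_lit 98335) (nat_lit 18) (.e (nat_lit 164327) (nat_lit 230) .nil)))))) (.g (nat_lit 1) (.e (nat_lit 153914) (nat_lit 0) .nil) .nil)))))) (.nd (nat_lit 7) (.nd (nat_lit 8) (.nd (nat_lit 9) 
(.lf (nat_lit 494665) (.g (nat_lit 2742) (.e (nat_lit 163892) (nat_lit 8) (.e (nat_lit 253992) (nat_lit 11) (.e (nat_lit 16425) (nat_lit 7) (.e (nat_lit 409649) (nat_lit 18) (.e (nat_lit 303140) (nat_lit 10) .nil))))) (.g (nat_lit 0) (.e (nat_lit 152204) (nat_lit 0) .nil) .nil))) 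
(.lf (nat_lit 495177) (.g (nat_lit 4168) (.e (nat_lit 163902) (nat_lit 12) (.e (nat_lit 426568) (nat_lit 34) (.e (nat_lit 393271) (nat_lit 23) (.e (nat_lit 426436) (nat_lit 18) (.e (nat_lit 98335) (nat_lit 18) (.e (nat_lit 164322) (nat_lit 230) .nil)))))) (.g (nat_lit 1) (.e (nat_lit 153512) (nat_lit 0) .nil) .nil)))) (.nd (nat_lit 9) 
(.lf (nat_lit 494921) (.g (nat_lit 3086) (.e (nat_lit 163902) (nat_lit 12) (.e (nat_lit 426479) (nat_lit 27) (.e (nat_lit 336443) (nat_lit 32) (.e (nat_lit 466979) (nat_lit 23) (.e (nat_lit 204829) (nat_lit 18) (.e (nat_lit 57688) (nat_lit 156) .nil)))))) (.g (nat_lit 1) (.e (nat_lit 153216) (nat_lit 0) .nil) .nil))) 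
(.lf (nat_lit 495433) (.g (nat_lit 2596) (.e (nat_lit 163903) (nat_lit 12) (.e (nat_lit 426538) (nat_lit 29) (.e (nat_lit 352315) (nat_lit 23) (.e (nat_lit 98312) (nat_lit 9) (.e (nat_lit 335986) (nat_lit 1) (.e (nat_lit 57927) (nat_lit 282) .nil)))))) (.g (nat_lit 1) (.e (nat_lit 153847) (nat_lit 0) .nil) .nil))))) (.nd (nat_lit 8) (.nd (nat_lit 9) 
(.lf (nat_lit 494793) (.g (nat_lit 2263) (.e (nat_lit 163902) (nat_lit 12) (.e (nat_lit 426428) (nat_lit 17) (.e (nat_lit 90170) (nat_lit 13) (.e (nat_lit 172125) (nat_lit 14) (.e (nat_lit 491584) (nat_lit 28) .nil))))) (.g (nat_lit 0) (.e (nat_lit 153064) (nat_lit 0) .nil) .nil))) 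
(.lf (nat_lit 495305) (.g (nat_lit 2252) (.e (nat_lit 163903) (nat_lit 12) (.e (nat_lit 426131) (nat_lit 3) (.e (nat_lit 204868) (nat_lit 29) (.e (nat_lit 360473) (nat_lit 8) (.e (nat_lit 557093) (nat_lit 12) .nil))))) (.g (nat_lit 0) (.e (nat_lit 153652) (nat_lit 0) .nil) .nil)))) (.nd (nat_lit 9) 
(.lf (nat_lit 495049) (.g (nat_lit 3399) (.e (nat_lit 163902) (nat_lit 12) (.e (nat_lit 426566) (nat_lit 34) (.e (nat_lit 393291) (nat_lit 26) (.e (nat_lit 475177) (nat_lit 24) (.e (nat_lit 516120) (nat_lit 1) (.e (nat_lit 164331) (nat_lit 230) .nil)))))) (.g (nat_lit 1) (.e (nat_lit 153374) (nat_lit 0) .nil) .nil))) 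
(.lf (nat_lit 495561) (.g (nat_lit 2972) (.e (nat_lit 163903) (nat_lit 12) (.e (nat_lit 426567) (nat_lit 34) (.e (nat_lit 393294) (nat_lit 26) (.e (nat_lit 475177) (nat_lit 24) (.e (nat_lit 516118) (nat_lit 1) (.e (nat_lit 164327) (nat_lit 230) .nil)))))) (.g (nat_lit 1) (.e (nat_lit 153979) (nat_lit 0) .nil) .nil))))))) (.nd (nat_lit 6) (.nd (nat_lit 7) (.nd (nat_lit 8) (.nd (nat_lit 9) 
(.lf (nat_lit 494633) (.g (nat_lit 2884) (.e (nat_lit 163886) (nat_lit 5) (.e (nat_lit 221194) (nat_lit 11) (.e (nat_lit 336074) (nat_lit 9) (.e (nat_lit 336443) (nat_lit 32) (.e (nat_lit 466969) (nat_lit 21) (.e (nat_lit 164324) (nat_lit 230) .nil)))))) (.g (nat_lit 1) (.e (nat_lit 152109) (nat_lit 0) .nil) .nil))) 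
(.lf (nat_lit 495145) (.g (nat_lit 3557) (.e (nat_lit 163902) (nat_lit 12) (.e (nat_lit 426568) (nat_lit 34) (.e (nat_lit 393268) (nat_lit 23) (.e (nat_lit 426436) (nat_lit 18) (.e (nat_lit 98334) (nat_lit 18) (.e (nat_lit 164329) (nat_lit 230) .nil)))))) (.g (nat_lit 1) (.e (nat_lit 153480) (nat_lit 0) .nil) .nil)))) (.nd (nat_lit 9) 
(.lf (nat_lit 494889) (.g (nat_lit 3801) (.e (nat_lit 163902) (nat_lit 12) (.e (nat_lit 426472) (nat_lit 25) (.e (nat_lit 319534) (nat_lit 16) (.e (nat_lit 286756) (nat_lit 10) (.e (nat_lit 344097) (nat_lit 18) (.e (nat_lit 7280) (nat_lit 386) (.e (nat_lit 163864) (nat_lit 1) (.e (nat_lit 164332) (nat_lit 230) .nil)))))))) (.g (nat_lit 1) (.e (nat_lit 153170) (nat_lit 0) .nil) .nil))) 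
(.lf (nat_lit 495401) (.g (nat_lit 3455) (.e (nat_lit 163903) (nat_lit 12) (.e (nat_lit 426479) (nat_lit 27) (.e (nat_lit 336432) (nat_lit 30) (.e (nat_lit 450580) (nat_lit 5) (.e (nat_lit 532503) (nat_lit 1) (.e (nat_lit 57687) (nat_lit 156) .nil)))))) (.g (nat_lit 1) (.e (nat_lit 153808) (nat_lit 0) .nil) .nil))))) (.nd (nat_lit 8) (.nd (nat_lit 9) 
(.lf (nat_lit 494761) (.g (nat_lit 1717) (.e (nat_lit 163901) (nat_lit 12) (.e (nat_lit 426555) (nat_lit 32) (.e (nat_lit 376867) (nat_lit 23) (.e (nat_lit 98317) (nat_lit 9) (.e (nat_lit 335986) (nat_lit 1) .nil))))) (.g (nat_lit 0) (.e (nat_lit 152973) (nat_lit 0) .nil) .nil))) 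
(.lf (nat_lit 495273) (.g (nat_lit 3431) (.e (nat_lit 163902) (nat_lit 12) (.e (nat_lit 426568) (nat_lit 34) (.e (nat_lit 393294) (nat_lit 26) (.e (nat_lit 475175) (nat_lit 24) (.e (nat_lit 516120) (nat_lit 1) (.e (nat_lit 164329) (nat_lit 230) .nil)))))) (.g (nat_lit 1) (.e (nat_lit 153619) (nat_lit 0) .nil) .nil)))) (.nd (nat_lit 9) 
(.lf (nat_lit 495017) (.g (nat_lit 3195) (.e (nat_lit 163902) (nat_lit 12) (.e (nat_lit 426566) (nat_lit 34) (.e (nat_lit 393273) (nat_lit 23) (.e (nat_lit 426437) (nat_lit 18) (.e (nat_lit 98334) (nat_lit 18) (.e (nat_lit 164332) (nat_lit 230) .nil)))))) (.g (nat_lit 1) (.e (nat_lit 153341) (nat_lit 0) .nil) .nil))) 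
(.lf (nat_lit 495529) (.g (nat_lit 4236) (.e (nat_lit 163903) (nat_lit 12) (.e (nat_lit 426566) (nat_lit 34) (.e (nat_lit 393294) (nat_lit 26) (.e (nat_lit 475177) (nat_lit 24) (.e (nat_lit 516115) (nat_lit 1) (.e (nat_lit 164327) (nat_lit 230) .nil)))))) (.g (nat_lit 1) (.e (nat_lit 153947) (nat_lit 0) .nil) .nil)))))) (.nd (nat_lit 7) (.nd (nat_lit 8) (.nd (nat_lit 9) 
(.lf (nat_lit 494697) (.g (nat_lit 2799) (.e (nat_lit 163900) (nat_lit 12) (.e (nat_lit 426125) (nat_lit 2) (.e (nat_lit 196666) (nat_lit 13) (.e (nat_lit 65617) (nat_lit 10) (.e (nat_lit 344130) (nat_lit 26) (.e (nat_lit 557089) (nat_lit 12) (.e (nat_lit 163849) (nat_lit 0) (.e (nat_lit 6418) (nat_lit 341) .nil)))))))) (.g (nat_lit 1) (.e (nat_lit 152817) (nat_lit 0) .nil) .nil))) 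
(.lf (nat_lit 495209) (.g (nat_lit 2236) (.e (nat_lit 163902) (nat_lit 12) (.e (nat_lit 426568) (nat_lit 34) (.e (nat_lit 393283) (nat_lit 24) (.e (nat_lit 434231) (nat_lit 23) (.e (nat_lit 532502) (nat_lit 1) (.e (nat_lit 57686) (nat_lit 156) .nil)))))) (.g (nat_lit 1) (.e (nat_lit 153554) (nat_lit 0) .nil) .nil)))) (.nd (nat_lit 9) 
(.lf (nat_lit 494953) (.g (nat_lit 2320) (.e (nat_lit 163902) (nat_lit 12) (.e (nat_lit 426544) (nat_lit 30) (.e (nat_lit 360467) (nat_lit 3) (.e (nat_lit 516199) (nat_lit 26) (.e (nat_lit 335995) (nat_lit 1) (.e (nat_lit 57931) (nat_lit 282) .nil)))))) (.g (nat_lit 1) (.e (nat_lit 153251) (nat_lit 0) .nil) .nil))) 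
(.lf (nat_lit 495465) (.g (nat_lit 2027) (.e (nat_lit 163903) (nat_lit 12) (.e (nat_lit 426555) (nat_lit 32) (.e (nat_lit 376869) (nat_lit 23) (.e (nat_lit 98317) (nat_lit 9) (.e (nat_lit 335987) (nat_lit 1) (.e (nat_lit 57927) (nat_lit 282) .nil)))))) (.g (nat_lit 1) (.e (nat_lit 153881) (nat_lit 0) .nil) .nil))))) (.nd (nat_lit 8) (.nd (nat_lit 9) 
(.lf (nat_lit 494825) (.g (nat_lit 2496) (.e (nat_lit 163902) (nat_lit 12) (.e (nat_lit 426438) (nat_lit 18) (.e (nat_lit 98358) (nat_lit 26) (.e (nat_lit 426323) (nat_lit 13) (.e (nat_lit 483366) (nat_lit 18) (.e (nat_lit 57686) (nat_lit 156) .nil)))))) (.g (nat_lit 1) (.e (nat_lit 153105) (nat_lit 0) .nil) .nil))) 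
(.lf (nat_lit 495337) (.g (nat_lit 3133) (.e (nat_lit 163903) (nat_lit 12) (.e (nat_lit 426436) (nat_lit 18) (.e (nat_lit 98370) (nat_lit 28) (.e (nat_lit 442390) (nat_lit 11) (.e (nat_lit 335986) (nat_lit 1) (.e (nat_lit 57688) (nat_lit 156) .nil)))))) (.g (nat_lit 1) (.e (nat_lit 153733) (nat_lit 0) .nil) .nil)))) (.nd (nat_lit 9) 
(.lf (nat_lit 495081) (.g (nat_lit 3203) (.e (nat_lit 163902) (nat_lit 12) (.e (nat_lit 426566) (nat_lit 34) (.e (nat_lit 393294) (nat_lit 26) (.e (nat_lit 475177) (nat_lit 24) (.e (nat_lit 516120) (nat_lit 1) (.e (nat_lit 164329) (nat_lit 230) .nil)))))) (.g (nat_lit 1) (.e (nat_lit 153406) (nat_lit 0) .nil) .nil))) 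
(.lf (nat_lit 495593) (.g (nat_lit 1412) (.e (nat_lit 163903) (nat_lit 12) (.e (nat_lit 426568) (nat_lit 34) (.e (nat_lit 393271) (nat_lit 23) (.e (nat_lit 426434) (nat_lit 18) .nil)))) (.g (nat_lit 0) (.e (nat_lit 154013) (nat_lit 0) .nil) .nil)))))))) (.nd (nat_lit 5) (.nd (nat_lit 6) (.nd (nat_lit 7) (.nd (nat_lit 8) (.nd (nat_lit 9) 
(.lf (nat_lit 494617) (.g (nat_lit 2355) (.e (nat_lit 163886) (nat_lit 5) (.e (nat_lit 221190) (nat_lit 11) (.e (nat_lit 336078) (nat_lit 9) (.e (nat_lit 336443) (nat_lit 32) (.e (nat_lit 466969) (nat_lit 21) (.e (nat_lit 164327) (nat_lit 230) .nil)))))) (.g (nat_lit 1) (.e (nat_lit 152091) (nat_lit 0) .nil) .nil))) 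
(.lf (nat_lit 495129) (.g (nat_lit 2230) (.e (nat_lit 163902) (nat_lit 12) (.e (nat_lit 426567) (nat_lit 34) (.e (nat_lit 393294) (nat_lit 26) (.e (nat_lit 475178) (nat_lit 24) (.e (nat_lit 516117) (nat_lit 1) (.e (nat_lit 164329) (nat_lit 230) .nil)))))) (.g (nat_lit 1) (.e (nat_lit 153455) (nat_lit 0) .nil) .nil)))) (.nd (nat_lit 9) 
(.lf (nat_lit 494873) (.g (nat_lit 1488) (.e (nat_lit 163902) (nat_lit 12) (.e (nat_lit 426438) (nat_lit 18) (.e (nat_lit 98374) (nat_lit 29) (.e (nat_lit 450565) (nat_lit 0) (.e (nat_lit 7936) (nat_lit 369) .nil))))) (.g (nat_lit 0) (.e (nat_lit 153154) (nat_lit 0) .nil) .nil))) 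
(.lf (nat_lit 495385) (.g (nat_lit 3298) (.e (nat_lit 163903) (nat_lit 12) (.e (nat_lit 426478) (nat_lit 27) (.e (nat_lit 336389) (nat_lit 27) (.e (nat_lit 426308) (nat_lit 12) (.e (nat_lit 475177) (nat_lit 24) (.e (nat_lit 516119) (nat_lit 1) (.e (nat_lit 164327) (nat_lit 230) .nil))))))) (.g (nat_lit 1) (.e (nat_lit 153789) (nat_lit 0) .nil) .nil))))) (.nd (nat_lit 8) (.nd (nat_lit 9) 
(.lf (nat_lit 494745) (.g (nat_lit 772) (.e (nat_lit 163900) (nat_lit 12) (.e (nat_lit 426320) (nat_lit 12) (.e (nat_lit 475209) (nat_lit 41) (.e (nat_lit 712752) (nat_lit 29) .nil)))) (.g (nat_lit 0) (.e (nat_lit 152892) (nat_lit 0) .nil) .nil))) 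
(.lf (nat_lit 495257) (.g (nat_lit 3006) (.e (nat_lit 163902) (nat_lit 12) (.e (nat_lit 426568) (nat_lit 34) (.e (nat_lit 393292) (nat_lit 26) (.e (nat_lit 475179) (nat_lit 24) (.e (nat_lit 516120) (nat_lit 1) (.e (nat_lit 164332) (nat_lit 230) .nil)))))) (.g (nat_lit 1) (.e (nat_lit 153603) (nat_lit 0) .nil) .nil)))) (.nd (nat_lit 9) 
(.lf (nat_lit 495001) (.g (nat_lit 3902) (.e (nat_lit 163902) (nat_lit 12) (.e (nat_lit 426566) (nat_lit 34) (.e (nat_lit 393271) (nat_lit 23) (.e (nat_lit 426436) (nat_lit 18) (.e (nat_lit 98334) (nat_lit 18) (.e (nat_lit 164331) (nat_lit 230) .nil)))))) (.g (nat_lit 1) (.e (nat_lit 153325) (nat_lit 0) .nil) .nil))) 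
(.lf (nat_lit 495513) (.g (nat_lit 3113) (.e (nat_lit 163903) (nat_lit 12) (.e (nat_lit 426566) (nat_lit 34) (.e (nat_lit 393291) (nat_lit 26) (.e (nat_lit 475177) (nat_lit 24) (.e (nat_lit 516115) (nat_lit 1) (.e (nat_lit 164326) (nat_lit 230) .nil)))))) (.g (nat_lit 1) (.e (nat_lit 153930) (nat_lit 0) .nil) .nil)))))) (.nd (nat_lit 7) (.nd (nat_lit 8) (.nd (nat_lit 9) 
(.lf (nat_lit 494681) (.g (nat_lit 1607) (.e (nat_lit 163896) (nat_lit 10) (.e (nat_lit 409649) (nat_lit 18) (.e (nat_lit 303111) (nat_lit 0) (.e (nat_lit 3348) (nat_lit 206) .nil)))) (.g (nat_lit 0) (.e (nat_lit 152685) (nat_lit 0) .nil) .nil))) 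
(.lf (nat_lit 495193) (.g (nat_lit 3276) (.e (nat_lit 163902) (nat_lit 12) (.e (nat_lit 426568) (nat_lit 34) (.e (nat_lit 393279) (nat_lit 23) (.e (nat_lit 426129) (nat_lit 3) (.e (nat_lit 204829) (nat_lit 18) (.e (nat_lit 57688) (nat_lit 156) .nil)))))) (.g (nat_lit 1) (.e (nat_lit 153529) (nat_lit 0) .nil) .nil)))) (.nd (nat_lit 9) 
(.lf (nat_lit 494937) (.g (nat_lit 2395) (.e (nat_lit 163902) (nat_lit 12) (.e (nat_lit 426489) (nat_lit 27) (.e (nat_lit 336407) (nat_lit 27) (.e (nat_lit 426198) (nat_lit 9) (.e (nat_lit 426436) (nat_lit 18) (.e (nat_lit 98335) (nat_lit 18) (.e (nat_lit 164329) (nat_lit 230) .nil))))))) (.g (nat_lit 1) (.e (nat_lit 153235) (nat_lit 0) .nil) .nil))) 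
(.lf (nat_lit 495449) (.g (nat_lit 2480) (.e (nat_lit 163903) (nat_lit 12) (.e (nat_lit 426544) (nat_lit 30) (.e (nat_lit 360467) (nat_lit 3) (.e (nat_lit 516199) (nat_lit 26) (.e (nat_lit 335988) (nat_lit 1) (.e (nat_lit 57927) (nat_lit 282) .nil)))))) (.g (nat_lit 1) (.e (nat_lit 153863) (nat_lit 0) .nil) .nil))))) (.nd (nat_lit 8) (.nd (nat_lit 9) 
(.lf (nat_lit 494809) (.g (nat_lit 3103) (.e (nat_lit 163902) (nat_lit 12) (.e (nat_lit 426436) (nat_lit 18) (.e (nat_lit 98358) (nat_lit 26) (.e (nat_lit 426323) (nat_lit 13) (.e (nat_lit 483366) (nat_lit 18) (.e (nat_lit 57688) (nat_lit 156) .nil)))))) (.g (nat_lit 1) (.e (nat_lit 153083) (nat_lit 0) .nil) .nil))) 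
(.lf (nat_lit 495321) (.g (nat_lit 2641) (.e (nat_lit 163903) (nat_lit 12) (.e (nat_lit 426428) (nat_lit 17) (.e (nat_lit 90176) (nat_lit 15) (.e (nat_lit 188421) (nat_lit 11) (.e (nat_lit 335995) (nat_lit 1) (.e (nat_lit 57687) (nat_lit 156) .nil)))))) (.g (nat_lit 1) (.e (nat_lit 153716) (nat_lit 0) .nil) .nil)))) (.nd (nat_lit 9) 
(.lf (nat_lit 495065) (.g (nat_lit 2941) (.e (nat_lit 163902) (nat_lit 12) (.e (nat_lit 426566) (nat_lit 34) (.e (nat_lit 393293) (nat_lit 26) (.e (nat_lit 475177) (nat_lit 24) (.e (nat_lit 516118) (nat_lit 1) (.e (nat_lit 164330) (nat_lit 230) .nil)))))) (.g (nat_lit 1) (.e (nat_lit 153390) (nat_lit 0) .nil) .nil))) 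
(.lf (nat_lit 495577) (.g (nat_lit 3135) (.e (nat_lit 163903) (nat_lit 12) (.e (nat_lit 426568) (nat_lit 34) (.e (nat_lit 393268) (nat_lit 23) (.e (nat_lit 426438) (nat_lit 18) (.e (nat_lit 98335) (nat_lit 18) (.e (nat_lit 164327) (nat_lit 230) .nil)))))) (.g (nat_lit 1) (.e (nat_lit 153997) (nat_lit 0) .nil) .nil))))))) (.nd (nat_lit 6) (.nd (nat_lit 7) (.nd (nat_lit 8) (.nd (nat_lit 9) 
(.lf (nat_lit 494649) (.g (nat_lit 1193) (.e (nat_lit 163886) (nat_lit 5) (.e (nat_lit 221207) (nat_lit 21) (.e (nat_lit 164179) (nat_lit 154) (.e (nat_lit 57371) (nat_lit 2) .nil)))) (.g (nat_lit 0) (.e (nat_lit 152128) (nat_lit 0) .nil) .nil))) 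
(.lf (nat_lit 495161) (.g (nat_lit 3840) (.e (nat_lit 163902) (nat_lit 12) (.e (nat_lit 426568) (nat_lit 34) (.e (nat_lit 393271) (nat_lit 23) (.e (nat_lit 426131) (nat_lit 3) (.e (nat_lit 204829) (nat_lit 18) (.e (nat_lit 57686) (nat_lit 156) .nil)))))) (.g (nat_lit 1) (.e (nat_lit 153496) (nat_lit 0) .nil) .nil)))) (.nd (nat_lit 9) 
(.lf (nat_lit 494905) (.g (nat_lit 2568) (.e (nat_lit 163902) (nat_lit 12) (.e (nat_lit 426479) (nat_lit 27) (.e (nat_lit 336382) (nat_lit 27) (.e (nat_lit 426198) (nat_lit 9) (.e (nat_lit 426436) (nat_lit 18) (.e (nat_lit 98335) (nat_lit 18) (.e (nat_lit 164329) (nat_lit 230) .nil))))))) (.g (nat_lit 1) (.e (nat_lit 153186) (nat_lit 0) .nil) .nil))) 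
(.lf (nat_lit 495417) (.g (nat_lit 2610) (.e (nat_lit 163903) (nat_lit 12) (.e (nat_lit 426481) (nat_lit 27) (.e (nat_lit 336386) (nat_lit 27) (.e (nat_lit 426306) (nat_lit 12) (.e (nat_lit 475177) (nat_lit 24) (.e (nat_lit 516119) (nat_lit 1) (.e (nat_lit 164327) (nat_lit 230) .nil))))))) (.g (nat_lit 1) (.e (nat_lit 153830) (nat_lit 0) .nil) .nil))))) (.nd (nat_lit 8) (.nd (nat_lit 9) 
(.lf (nat_lit 494777) (.g (nat_lit 2279) (.e (nat_lit 163902) (nat_lit 12) (.e (nat_lit 426131) (nat_lit 3) (.e (nat_lit 204868) (nat_lit 29) (.e (nat_lit 360473) (nat_lit 8) (.e (nat_lit 557093) (nat_lit 12) .nil))))) (.g (nat_lit 0) (.e (nat_lit 152989) (nat_lit 0) .nil) .nil))) 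
(.lf (nat_lit 495289) (.g (nat_lit 3575) (.e (nat_lit 163902) (nat_lit 12) (.e (nat_lit 426568) (nat_lit 34) (.e (nat_lit 393294) (nat_lit 26) (.e (nat_lit 475177) (nat_lit 24) (.e (nat_lit 516119) (nat_lit 1) (.e (nat_lit 164324) (nat_lit 230) .nil)))))) (.g (nat_lit 1) (.e (nat_lit 153635) (nat_lit 0) .nil) .nil)))) (.nd (nat_lit 9) 
(.lf (nat_lit 495033) (.g (nat_lit 2991) (.e (nat_lit 163902) (nat_lit 12) (.e (nat_lit 426566) (nat_lit 34) (.e (nat_lit 393287) (nat_lit 25) (.e (nat_lit 458789) (nat_lit 23) (.e (nat_lit 532503) (nat_lit 1) (.e (nat_lit 57688) (nat_lit 156) .nil)))))) (.g (nat_lit 1) (.e (nat_lit 153357) (nat_lit 0) .nil) .nil))) 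
(.lf (nat_lit 495545) (.g (nat_lit 1792) (.e (nat_lit 163903) (nat_lit 12) (.e (nat_lit 426566) (nat_lit 34) (.e (nat_lit 393296) (nat_lit 26) (.e (nat_lit 475178) (nat_lit 24) (.e (nat_lit 516118) (nat_lit 1) (.e (nat_lit 164325) (nat_lit 230) .nil)))))) (.g (nat_lit 1) (.e (nat_lit 153963) (nat_lit 0) .nil) .nil)))))) (.nd (nat_lit 7) (.nd (nat_lit 8) (.nd (nat_lit 9) 
(.lf (nat_lit 494713) (.g (nat_lit 2832) (.e (nat_lit 163900) (nat_lit 12) (.e (nat_lit 426140) (nat_lit 3) (.e (nat_lit 204868) (nat_lit 29) (.e (nat_lit 360473) (nat_lit 8) (.e (nat_lit 557091) (nat_lit 12) (.e (nat_lit 163844) (nat_lit 0) (.e (nat_lit 6416) (nat_lit 341) .nil))))))) (.g (nat_lit 1) (.e (nat_lit 152851) (nat_lit 0) .nil) .nil))) 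
(.lf (nat_lit 495225) (.g (nat_lit 3497) (.e (nat_lit 163902) (nat_lit 12) (.e (nat_lit 426568) (nat_lit 34) (.e (nat_lit 393290) (nat_lit 26) (.e (nat_lit 475179) (nat_lit 24) (.e (nat_lit 516117) (nat_lit 1) (.e (nat_lit 164329) (nat_lit 230) .nil)))))) (.g (nat_lit 1) (.e (nat_lit 153571) (nat_lit 0) .nil) .nil)))) (.nd (nat_lit 9) 
(.lf (nat_lit 494969) (.g (nat_lit 3200) (.e (nat_lit 163902) (nat_lit 12) (.e (nat_lit 426555) (nat_lit 32) (.e (nat_lit 376869) (nat_lit 23) (.e (nat_lit 98313) (nat_lit 9) (.e (nat_lit 335986) (nat_lit 1) (.e (nat_lit 57926) (nat_lit 282) .nil)))))) (.g (nat_lit 1) (.e (nat_lit 153286) (nat_lit 0) .nil) .nil))) 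
(.lf (nat_lit 495481) (.g (nat_lit 3280) (.e (nat_lit 163903) (nat_lit 12) (.e (nat_lit 426566) (nat_lit 34) (.e (nat_lit 393270) (nat_lit 23) (.e (nat_lit 426438) (nat_lit 18) (.e (nat_lit 98335) (nat_lit 18) (.e (nat_lit 164327) (nat_lit 230) .nil)))))) (.g (nat_lit 1) (.e (nat_lit 153898) (nat_lit 0) .nil) .nil))))) (.nd (nat_lit 8) (.nd (nat_lit 9) 
(.lf (nat_lit 494841) (.g (nat_lit 357) (.e (nat_lit 163902) (nat_lit 12) (.e (nat_lit 426438) (nat_lit 18) (.e (nat_lit 98373) (nat_lit 29) .nil))) (.g (nat_lit 0) (.e (nat_lit 153121) (nat_lit 0) .nil) .nil))) 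
(.lf (nat_lit 495353) (.g (nat_lit 2068) (.e (nat_lit 163903) (nat_lit 12) (.e (nat_lit 426438) (nat_lit 18) (.e (nat_lit 98372) (nat_lit 29) (.e (nat_lit 450564) (nat_lit 0) (.e (nat_lit 7936) (nat_lit 369) .nil))))) (.g (nat_lit 0) (.e (nat_lit 153752) (nat_lit 0) .nil) .nil)))) (.nd (nat_lit 9) 
(.lf (nat_lit 495097) (.g (nat_lit 3634) (.e (nat_lit 163902) (nat_lit 12) (.e (nat_lit 426566) (nat_lit 34) (.e (nat_lit 393295) (nat_lit 26) (.e (nat_lit 475177) (nat_lit 24) (.e (nat_lit 516120) (nat_lit 1) (.e (nat_lit 164330) (nat_lit 230) .nil)))))) (.g (nat_lit 1) (.e (nat_lit 153422) (nat_lit 0) .nil) .nil))) 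
(.lf (nat_lit 495609) (.g (nat_lit 3175) (.e (nat_lit 163903) (nat_lit 12) (.e (nat_lit 426568) (nat_lit 34) (.e (nat_lit 393283) (nat_lit 24) (.e (nat_lit 434231) (nat_lit 23) (.e (nat_lit 532500) (nat_lit 1) (.e (nat_lit 57685) (nat_lit 156) .nil)))))) (.g (nat_lit 1) (.e (nat_lit 154029) (nat_lit 0) .nil) .nil)))))))))) 
(.nd (nat_lit 3) (.nd (nat_lit 4) (.nd (nat_lit 5) (.nd (nat_lit 6) (.nd (nat_lit 7) 
(.nd (nat_lit 8) (.nd (nat_lit 9) 
(.lf (nat_lit 494597) (.g (nat_lit 3316) (.e (nat_lit 163885) (nat_lit 5) (.e (nat_lit 221206) (nat_lit 21) (.e (nat_lit 164330) (nat_lit 230) (.e (nat_lit 171776) (nat_lit 66) (.e (nat_lit 114714) (nat_lit 22) (.e (nat_lit 90185) (nat_lit 17) (.e (nat_lit 237582) (nat_lit 1) (.e (nat_lit 164332) (nat_lit 230) .nil)))))))) (.g (nat_lit 1) (.e (nat_lit 151997) (nat_lit 0) .nil) .nil))) 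
(.lf (nat_lit 495109) (.g (nat_lit 1660) (.e (nat_lit 163902) (nat_lit 12) (.e (nat_lit 426566) (nat_lit 34) (.e (nat_lit 393296) (nat_lit 26) (.e (nat_lit 475178) (nat_lit 24) (.e (nat_lit 516118) (nat_lit 1) (.e (nat_lit 164330) (nat_lit 230) .nil)))))) (.g (nat_lit 1) (.e (nat_lit 153434) (nat_lit 0) .nil) .nil)))) (.nd (nat_lit 9) 
(.lf (nat_lit 494853) (.g (nat_lit 3472) (.e (nat_lit 163902) (nat_lit 12) (.e (nat_lit 426438) (nat_lit 18) (.e (nat_lit 98373) (nat_lit 29) (.e (nat_lit 450562) (nat_lit 0) (.e (nat_lit 7936) (nat_lit 369) (.e (nat_lit 163860) (nat_lit 1) (.e (nat_lit 164330) (nat_lit 230) .nil))))))) (.g (nat_lit 1) (.e (nat_lit 153133) (nat_lit 0) .nil) .nil))) 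
(.lf (nat_lit 495365) (.g (nat_lit 3495) (.e (nat_lit 163903) (nat_lit 12) (.e (nat_lit 426438) (nat_lit 18) (.e (nat_lit 98373) (nat_lit 29) (.e (nat_lit 450563) (nat_lit 0) (.e (nat_lit 6841) (nat_lit 369) (.e (nat_lit 163859) (nat_lit 1) (.e (nat_lit 164325) (nat_lit 230) .nil))))))) (.g (nat_lit 1) (.e (nat_lit 153766) (nat_lit 0) .nil) .nil))))) (.nd (nat_lit 8) (.nd (nat_lit 9) 
(.lf (nat_lit 494725) (.g (nat_lit 3295) (.e (nat_lit 163900) (nat_lit 12) (.e (nat_lit 426140) (nat_lit 3) (.e (nat_lit 204869) (nat_lit 29) (.e (nat_lit 360474) (nat_lit 8) (.e (nat_lit 557094) (nat_lit 12) (.e (nat_lit 163847) (nat_lit 0) (.e (nat_lit 6421) (nat_lit 341) .nil))))))) (.g (nat_lit 1) (.e (nat_lit 152863) (nat_lit 0) .nil) .nil))) 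
(.lf (nat_lit 495237) (.g (nat_lit 2152) (.e (nat_lit 163902) (nat_lit 12) (.e (nat_lit 426568) (nat_lit 34) (.e (nat_lit 393291) (nat_lit 26) (.e (nat_lit 475177) (nat_lit 24) (.e (nat_lit 516119) (nat_lit 1) (.e (nat_lit 164329) (nat_lit 230) .nil)))))) (.g (nat_lit 1) (.e (nat_lit 153583) (nat_lit 0) .nil) .nil)))) (.nd (nat_lit 9) 
(.lf (nat_lit 494981) (.g (nat_lit 3582) (.e (nat_lit 163902) (nat_lit 12) (.e (nat_lit 426566) (nat_lit 34) (.e (nat_lit 393268) (nat_lit 23) (.e (nat_lit 426436) (nat_lit 18) (.e (nat_lit 98333) (nat_lit 18) (.e (nat_lit 164331) (nat_lit 230) .nil)))))) (.g (nat_lit 1) (.e (nat_lit 153305) (nat_lit 0) .nil) .nil))) 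
(.lf (nat_lit 495493) (.g (nat_lit 3452) (.e (nat_lit 163903) (nat_lit 12) (.e (nat_lit 426566) (nat_lit 34) (.e (nat_lit 393273) (nat_lit 23) (.e (nat_lit 426131) (nat_lit 3) (.e (nat_lit 204829) (nat_lit 18) (.e (nat_lit 57688) (nat_lit 156) .nil)))))) (.g (nat_lit 1) (.e (nat_lit 153910) (nat_lit 0) .nil) .nil)))))) (.nd (nat_lit 7) (.nd (nat_lit 8) (.nd (nat_lit 9) 
(.lf (nat_lit 494661) (.g (nat_lit 2962) (.e (nat_lit 163891) (nat_lit 8) (.e (nat_lit 253992) (nat_lit 11) (.e (nat_lit 16425) (nat_lit 7) (.e (nat_lit 409648) (nat_lit 18) (.e (nat_lit 303137) (nat_lit 10) .nil))))) (.g (nat_lit 0) (.e (nat_lit 152199) (nat_lit 0) .nil) .nil))) 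
(.lf (nat_lit 495173) (.g (nat_lit 3407) (.e (nat_lit 163902) (nat_lit 12) (.e (nat_lit 426568) (nat_lit 34) (.e (nat_lit 393271) (nat_lit 23) (.e (nat_lit 426436) (nat_lit 18) (.e (nat_lit 98334) (nat_lit 18) (.e (nat_lit 164322) (nat_lit 230) .nil)))))) (.g (nat_lit 1) (.e (nat_lit 153508) (nat_lit 0) .nil) .nil)))) (.nd (nat_lit 9) 
(.lf (nat_lit 494917) (.g (nat_lit 2382) (.e (nat_lit 163902) (nat_lit 12) (.e (nat_lit 426479) (nat_lit 27) (.e (nat_lit 336432) (nat_lit 30) (.e (nat_lit 450580) (nat_lit 5) (.e (nat_lit 532503) (nat_lit 1) (.e (nat_lit 57685) (nat_lit 156) .nil)))))) (.g (nat_lit 1) (.e (nat_lit 153204) (nat_lit 0) .nil) .nil))) 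
(.lf (nat_lit 495429) (.g (nat_lit 3905) (.e (nat_lit 163903) (nat_lit 12) (.e (nat_lit 426481) (nat_lit 27) (.e (nat_lit 336389) (nat_lit 27) (.e (nat_lit 426308) (nat_lit 12) (.e (nat_lit 475179) (nat_lit 24) (.e (nat_lit 516115) (nat_lit 1) (.e (nat_lit 164325) (nat_lit 230) .nil))))))) (.g (nat_lit 1) (.e (nat_lit 153842) (nat_lit 0) .nil) .nil))))) (.nd (nat_lit 8) (.nd (nat_lit 9) 
(.lf (nat_lit 494789) (.g (nat_lit 2984) (.e (nat_lit 163902) (nat_lit 12) (.e (nat_lit 426428) (nat_lit 17) (.e (nat_lit 90170) (nat_lit 13) (.e (nat_lit 172122) (nat_lit 13) (.e (nat_lit 483363) (nat_lit 18) (.e (nat_lit 57688) (nat_lit 156) .nil)))))) (.g (nat_lit 1) (.e (nat_lit 153060) (nat_lit 0) .nil) .nil))) 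
(.lf (nat_lit 495301) (.g (nat_lit 3977) (.e (nat_lit 163902) (nat_lit 12) (.e (nat_lit 426568) (nat_lit 34) (.e (nat_lit 393294) (nat_lit 26) (.e (nat_lit 475179) (nat_lit 24) (.e (nat_lit 516120) (nat_lit 1) (.e (nat_lit 164329) (nat_lit 230) .nil)))))) (.g (nat_lit 1) (.e (nat_lit 153647) (nat_lit 0) .nil) .nil)))) (.nd (nat_lit 9) 
(.lf (nat_lit 495045) (.g (nat_lit 3389) (.e (nat_lit 163902) (nat_lit 12) (.e (nat_lit 426566) (nat_lit 34) (.e (nat_lit 393291) (nat_lit 26) (.e (nat_lit 475177) (nat_lit 24) (.e (nat_lit 516118) (nat_lit 1) (.e (nat_lit 164330) (nat_lit 230) .nil)))))) (.g (nat_lit 1) (.e (nat_lit 153370) (nat_lit 0) .nil) .nil))) 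
(.lf (nat_lit 495557) (.g (nat_lit 2645) (.e (nat_lit 163903) (nat_lit 12) (.e (nat_lit 426567) (nat_lit 34) (.e (nat_lit 393291) (nat_lit 26) (.e (nat_lit 475177) (nat_lit 24) (.e (nat_lit 516118) (nat_lit 1) (.e (nat_lit 164327) (nat_lit 230) .nil)))))) (.g (nat_lit 1) (.e (nat_lit 153975) (nat_lit 0) .nil) .nil))))))) (.nd (nat_lit 6) (.nd (nat_lit 7) (.nd (nat_lit 8) (.nd (nat_lit 9) 
(.lf (nat_lit 494629) (.g (nat_lit 2314) (.e (nat_lit 163886) (nat_lit 5) (.e (nat_lit 221193) (nat_lit 11) (.e (nat_lit 336077) (nat_lit 9) (.e (nat_lit 336443) (nat_lit 32) (.e (nat_lit 466971) (nat_lit 21) (.e (nat_lit 164325) (nat_lit 230) .nil)))))) (.g (nat_lit 1) (.e (nat_lit 152103) (nat_lit 0) .nil) .nil))) 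
(.lf (nat_lit 495141) (.g (nat_lit 3409) (.e (nat_lit 163902) (nat_lit 12) (.e (nat_lit 426568) (nat_lit 34) (.e (nat_lit 393267) (nat_lit 23) (.e (nat_lit 426436) (nat_lit 18) (.e (nat_lit 98334) (nat_lit 18) (.e (nat_lit 164332) (nat_lit 230) .nil)))))) (.g (nat_lit 1) (.e (nat_lit 153476) (nat_lit 0) .nil) .nil)))) (.nd (nat_lit 9) 
(.lf (nat_lit 494885) (.g (nat_lit 2858) (.e (nat_lit 163902) (nat_lit 12) (.e (nat_lit 426472) (nat_lit 25) (.e (nat_lit 319534) (nat_lit 16) (.e (nat_lit 286756) (nat_lit 10) (.e (nat_lit 344087) (nat_lit 18) (.e (nat_lit 7287) (nat_lit 386) (.e (nat_lit 163864) (nat_lit 1) (.e (nat_lit 164332) (nat_lit 230) .nil)))))))) (.g (nat_lit 1) (.e (nat_lit 153166) (nat_lit 0) .nil) .nil))) 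
(.lf (nat_lit 495397) (.g (nat_lit 1669) (.e (nat_lit 163903) (nat_lit 12) (.e (nat_lit 426479) (nat_lit 27) (.e (nat_lit 336432) (nat_lit 30) (.e (nat_lit 450579) (nat_lit 5) (.e (nat_lit 532504) (nat_lit 1) (.e (nat_lit 57685) (nat_lit 156) .nil)))))) (.g (nat_lit 1) (.e (nat_lit 153804) (nat_lit 0) .nil) .nil))))) (.nd (nat_lit 8) (.nd (nat_lit 9) 
(.lf (nat_lit 494757) (.g (nat_lit 1735) (.e (nat_lit 163901) (nat_lit 12) (.e (nat_lit 426438) (nat_lit 18) (.e (nat_lit 98358) (nat_lit 26) (.e (nat_lit 426323) (nat_lit 13) (.e (nat_lit 483366) (nat_lit 18) (.e (nat_lit 57688) (nat_lit 156) .nil)))))) (.g (nat_lit 1) (.e (nat_lit 152954) (nat_lit 0) .nil) .nil))) 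
(.lf (nat_lit 495269) (.g (nat_lit 3344) (.e (nat_lit 163902) (nat_lit 12) (.e (nat_lit 426568) (nat_lit 34) (.e (nat_lit 393293) (nat_lit 26) (.e (nat_lit 475179) (nat_lit 24) (.e (nat_lit 516120) (nat_lit 1) (.e (nat_lit 164332) (nat_lit 230) .nil)))))) (.g (nat_lit 1) (.e (nat_lit 153615) (nat_lit 0) .nil) .nil)))) (.nd (nat_lit 9) 
(.lf (nat_lit 495013) (.g (nat_lit 3081) (.e (nat_lit 163902) (nat_lit 12) (.e (nat_lit 426566) (nat_lit 34) (.e (nat_lit 393272) (nat_lit 23) (.e (nat_lit 426438) (nat_lit 18) (.e (nat_lit 98335) (nat_lit 18) (.e (nat_lit 164332) (nat_lit 230) .nil)))))) (.g (nat_lit 1) (.e (nat_lit 153337) (nat_lit 0) .nil) .nil))) 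
(.lf (nat_lit 495525) (.g (nat_lit 2029) (.e (nat_lit 163903) (nat_lit 12) (.e (nat_lit 426566) (nat_lit 34) (.e (nat_lit 393294) (nat_lit 26) (.e (nat_lit 475176) (nat_lit 24) .nil)))) (.g (nat_lit 0) (.e (nat_lit 153943) (nat_lit 0) .nil) .nil)))))) (.nd (nat_lit 7) (.nd (nat_lit 8) (.nd (nat_lit 9) 
(.lf (nat_lit 494693) (.g (nat_lit 4128) (.e (nat_lit 163900) (nat_lit 12) (.e (nat_lit 426125) (nat_lit 2) (.e (nat_lit 196666) (nat_lit 13) (.e (nat_lit 65617) (nat_lit 10) (.e (nat_lit 344127) (nat_lit 26) (.e (nat_lit 557090) (nat_lit 12) (.e (nat_lit 163844) (nat_lit 0) (.e (nat_lit 6418) (nat_lit 341) .nil)))))))) (.g (nat_lit 1) (.e (nat_lit 152813) (nat_lit 0) .nil) .nil))) 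
(.lf (nat_lit 495205) (.g (nat_lit 1888) (.e (nat_lit 163902) (nat_lit 12) (.e (nat_lit 426568) (nat_lit 34) (.e (nat_lit 393282) (nat_lit 24) (.e (nat_lit 434233) (nat_lit 23) (.e (nat_lit 532499) (nat_lit 1) (.e (nat_lit 57686) (nat_lit 156) .nil)))))) (.g (nat_lit 1) (.e (nat_lit 153544) (nat_lit 0) .nil) .nil)))) (.nd (nat_lit 9) 
(.lf (nat_lit 494949) (.g (nat_lit 1938) (.e (nat_lit 163902) (nat_lit 12) (.e (nat_lit 426544) (nat_lit 30) (.e (nat_lit 360467) (nat_lit 3) (.e (nat_lit 516195) (nat_lit 26) (.e (nat_lit 335993) (nat_lit 1) (.e (nat_lit 57931) (nat_lit 282) .nil)))))) (.g (nat_lit 1) (.e (nat_lit 153247) (nat_lit 0) .nil) .nil))) 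
(.lf (nat_lit 495461) (.g (nat_lit 3255) (.e (nat_lit 163903) (nat_lit 12) (.e (nat_lit 426555) (nat_lit 32) (.e (nat_lit 376867) (nat_lit 23) (.e (nat_lit 98313) (nat_lit 9) (.e (nat_lit 335988) (nat_lit 1) (.e (nat_lit 57926) (nat_lit 282) .nil)))))) (.g (nat_lit 1) (.e (nat_lit 153877) (nat_lit 0) .nil) .nil))))) (.nd (nat_lit 8) (.nd (nat_lit 9) 
(.lf (nat_lit 494821) (.g (nat_lit 2288) (.e (nat_lit 163902) (nat_lit 12) (.e (nat_lit 426438) (nat_lit 18) (.e (nat_lit 98358) (nat_lit 26) (.e (nat_lit 426131) (nat_lit 3) (.e (nat_lit 204838) (nat_lit 20) (.e (nat_lit 114712) (nat_lit 21) (.e (nat_lit 65280) (nat_lit 144) .nil))))))) (.g (nat_lit 1) (.e (nat_lit 153101) (nat_lit 0) .nil) .nil))) 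
(.lf (nat_lit 495333) (.g (nat_lit 1376) (.e (nat_lit 163903) (nat_lit 12) (.e (nat_lit 426436) (nat_lit 18) (.e (nat_lit 98358) (nat_lit 26) (.e (nat_lit 433920) (nat_lit 13) .nil)))) (.g (nat_lit 0) (.e (nat_lit 153729) (nat_lit 0) .nil) .nil)))) (.nd (nat_lit 9) 
(.lf (nat_lit 495077) (.g (nat_lit 2947) (.e (nat_lit 163902) (nat_lit 12) (.e (nat_lit 426566) (nat_lit 34) (.e (nat_lit 393294) (nat_lit 26) (.e (nat_lit 475177) (nat_lit 24) (.e (nat_lit 516117) (nat_lit 1) (.e (nat_lit 164331) (nat_lit 230) .nil)))))) (.g (nat_lit 1) (.e (nat_lit 153402) (nat_lit 0) .nil) .nil))) 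
(.lf (nat_lit 495589) (.g (nat_lit 1693) (.e (nat_lit 163903) (nat_lit 12) (.e (nat_lit 426568) (nat_lit 34) (.e (nat_lit 393271) (nat_lit 23) (.e (nat_lit 426402) (nat_lit 15) .nil)))) (.g (nat_lit 0) (.e (nat_lit 154009) (nat_lit 0) .nil) .nil)))))))) (.nd (nat_lit 5) (.nd (nat_lit 6) (.nd (nat_lit 7) (.nd (nat_lit 8) (.nd (nat_lit 9) 
(.lf (nat_lit 494613) (.g (nat_lit 1207) (.e (nat_lit 163886) (nat_lit 5) (.e (nat_lit 221190) (nat_lit 11) (.e (nat_lit 336077) (nat_lit 9) (.e (nat_lit 336443) (nat_lit 32) (.e (nat_lit 466969) (nat_lit 21) .nil))))) (.g (nat_lit 0) (.e (nat_lit 152087) (nat_lit 0) .nil) .nil))) 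
(.lf (nat_lit 495125) (.g (nat_lit 1965) (.e (nat_lit 163902) (nat_lit 12) (.e (nat_lit 426567) (nat_lit 34) (.e (nat_lit 393293) (nat_lit 26) (.e (nat_lit 475178) (nat_lit 24) (.e (nat_lit 516120) (nat_lit 1) (.e (nat_lit 164329) (nat_lit 230) .nil)))))) (.g (nat_lit 1) (.e (nat_lit 153451) (nat_lit 0) .nil) .nil)))) (.nd (nat_lit 9) 
(.lf (nat_lit 494869) (.g (nat_lit 2860) (.e (nat_lit 163902) (nat_lit 12) (.e (nat_lit 426438) (nat_lit 18) (.e (nat_lit 98373) (nat_lit 29) (.e (nat_lit 450569) (nat_lit 0) (.e (nat_lit 7936) (nat_lit 369) (.e (nat_lit 163860) (nat_lit 1) (.e (nat_lit 164329) (nat_lit 230) .nil))))))) (.g (nat_lit 1) (.e (nat_lit 153149) (nat_lit 0) .nil) .nil))) 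
(.lf (nat_lit 495381) (.g (nat_lit 2865) (.e (nat_lit 163903) (nat_lit 12) (.e (nat_lit 426478) (nat_lit 27) (.e (nat_lit 336389) (nat_lit 27) (.e (nat_lit 426308) (nat_lit 12) (.e (nat_lit 475177) (nat_lit 24) (.e (nat_lit 516115) (nat_lit 1) (.e (nat_lit 164325) (nat_lit 230) .nil))))))) (.g (nat_lit 1) (.e (nat_lit 153785) (nat_lit 0) .nil) .nil))))) (.nd (nat_lit 8) (.nd (nat_lit 9) 
(.lf (nat_lit 494741) (.g (nat_lit 1617) (.e (nat_lit 163900) (nat_lit 12) (.e (nat_lit 426317) (nat_lit 12) (.e (nat_lit 475199) (nat_lit 40) (.e (nat_lit 704598) (nat_lit 6) (.e (nat_lit 188455) (nat_lit 24) .nil))))) (.g (nat_lit 0) (.e (nat_lit 152883) (nat_lit 0) .nil) .nil))) 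
(.lf (nat_lit 495253) (.g (nat_lit 2912) (.e (nat_lit 163902) (nat_lit 12) (.e (nat_lit 426568) (nat_lit 34) (.e (nat_lit 393292) (nat_lit 26) (.e (nat_lit 475178) (nat_lit 24) (.e (nat_lit 516120) (nat_lit 1) (.e (nat_lit 164329) (nat_lit 230) .nil)))))) (.g (nat_lit 1) (.e (nat_lit 153599) (nat_lit 0) .nil) .nil)))) (.nd (nat_lit 9) 
(.lf (nat_lit 494997) (.g (nat_lit 1439) (.e (nat_lit 163902) (nat_lit 12) (.e (nat_lit 426566) (nat_lit 34) (.e (nat_lit 393271) (nat_lit 23) (.e (nat_lit 433920) (nat_lit 3) .nil)))) (.g (nat_lit 0) (.e (nat_lit 153321) (nat_lit 0) .nil) .nil))) 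
(.lf (nat_lit 495509) (.g (nat_lit 2614) (.e (nat_lit 163903) (nat_lit 12) (.e (nat_lit 426566) (nat_lit 34) (.e (nat_lit 393290) (nat_lit 26) (.e (nat_lit 475177) (nat_lit 24) (.e (nat_lit 516115) (nat_lit 1) (.e (nat_lit 164325) (nat_lit 230) .nil)))))) (.g (nat_lit 1) (.e (nat_lit 153926) (nat_lit 0) .nil) .nil)))))) (.nd (nat_lit 7) (.nd (nat_lit 8) (.nd (nat_lit 9) 
(.lf (nat_lit 494677) (.g (nat_lit 1891) (.e (nat_lit 163896) (nat_lit 10) (.e (nat_lit 409602) (nat_lit 0) (.e (nat_lit 5293) (nat_lit 298) (.e (nat_lit 1656) (nat_lit 115) (.e (nat_lit 393274) (nat_lit 23) .nil))))) (.g (nat_lit 0) (.e (nat_lit 152357) (nat_lit 0) .nil) .nil))) 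
(.lf (nat_lit 495189) (.g (nat_lit 3697) (.e (nat_lit 163902) (nat_lit 12) (.e (nat_lit 426568) (nat_lit 34) (.e (nat_lit 393271) (nat_lit 23) (.e (nat_lit 426438) (nat_lit 18) (.e (nat_lit 98335) (nat_lit 18) (.e (nat_lit 164332) (nat_lit 230) .nil)))))) (.g (nat_lit 1) (.e (nat_lit 153524) (nat_lit 0) .nil) .nil)))) (.nd (nat_lit 9) 
(.lf (nat_lit 494933) (.g (nat_lit 2625) (.e (nat_lit 163902) (nat_lit 12) (.e (nat_lit 426481) (nat_lit 27) (.e (nat_lit 336389) (nat_lit 27) (.e (nat_lit 426308) (nat_lit 12) (.e (nat_lit 475179) (nat_lit 24) (.e (nat_lit 516119) (nat_lit 1) (.e (nat_lit 164322) (nat_lit 230) .nil))))))) (.g (nat_lit 1) (.e (nat_lit 153231) (nat_lit 0) .nil) .nil))) 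
(.lf (nat_lit 495445) (.g (nat_lit 2972) (.e (nat_lit 163903) (nat_lit 12) (.e (nat_lit 426538) (nat_lit 29) (.e (nat_lit 352315) (nat_lit 23) (.e (nat_lit 98317) (nat_lit 9) (.e (nat_lit 335988) (nat_lit 1) (.e (nat_lit 57927) (nat_lit 282) .nil)))))) (.g (nat_lit 1) (.e (nat_lit 153859) (nat_lit 0) .nil) .nil))))) (.nd (nat_lit 8) (.nd (nat_lit 9) 
(.lf (nat_lit 494805) (.g (nat_lit 1455) (.e (nat_lit 163902) (nat_lit 12) (.e (nat_lit 426436) (nat_lit 18) (.e (nat_lit 98358) (nat_lit 26) (.e (nat_lit 426322) (nat_lit 13) .nil)))) (.g (nat_lit 0) (.e (nat_lit 153079) (nat_lit 0) .nil) .nil))) 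
(.lf (nat_lit 495317) (.g (nat_lit 2905) (.e (nat_lit 163903) (nat_lit 12) (.e (nat_lit 426428) (nat_lit 17) (.e (nat_lit 90170) (nat_lit 13) (.e (nat_lit 172122) (nat_lit 13) (.e (nat_lit 483365) (nat_lit 18) (.e (nat_lit 57687) (nat_lit 156) .nil)))))) (.g (nat_lit 1) (.e (nat_lit 153712) (nat_lit 0) .nil) .nil)))) (.nd (nat_lit 9) 
(.lf (nat_lit 495061) (.g (nat_lit 3902) (.e (nat_lit 163902) (nat_lit 12) (.e (nat_lit 426566) (nat_lit 34) (.e (nat_lit 393292) (nat_lit 26) (.e (nat_lit 475179) (nat_lit 24) (.e (nat_lit 516120) (nat_lit 1) (.e (nat_lit 164331) (nat_lit 230) .nil)))))) (.g (nat_lit 1) (.e (nat_lit 153386) (nat_lit 0) .nil) .nil))) 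
(.lf (nat_lit 495573) (.g (nat_lit 3713) (.e (nat_lit 163903) (nat_lit 12) (.e (nat_lit 426568) (nat_lit 34) (.e (nat_lit 393268) (nat_lit 23) (.e (nat_lit 426438) (nat_lit 18) (.e (nat_lit 98333) (nat_lit 18) (.e (nat_lit 164325) (nat_lit 230) .nil)))))) (.g (nat_lit 1) (.e (nat_lit 153993) (nat_lit 0) .nil) .nil))))))) (.nd (nat_lit 6) (.nd (nat_lit 7) (.nd (nat_lit 8) (.nd (nat_lit 9) 
(.lf (nat_lit 494645) (.g (nat_lit 1012) (.e (nat_lit 163886) (nat_lit 5) (.e (nat_lit 221194) (nat_lit 11) (.e (nat_lit 336087) (nat_lit 9) (.e (nat_lit 336430) (nat_lit 29) .nil)))) (.g (nat_lit 0) (.e (nat_lit 152121) (nat_lit 0) .nil) .nil))) 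
(.lf (nat_lit 495157) (.g (nat_lit 2978) (.e (nat_lit 163902) (nat_lit 12) (.e (nat_lit 426568) (nat_lit 34) (.e (nat_lit 393270) (nat_lit 23) (.e (nat_lit 426436) (nat_lit 18) (.e (nat_lit 98335) (nat_lit 18) (.e (nat_lit 164332) (nat_lit 230) .nil)))))) (.g (nat_lit 1) (.e (nat_lit 153492) (nat_lit 0) .nil) .nil)))) (.nd (nat_lit 9) 
(.lf (nat_lit 494901) (.g (nat_lit 2540) (.e (nat_lit 163902) (nat_lit 12) (.e (nat_lit 426478) (nat_lit 27) (.e (nat_lit 336389) (nat_lit 27) (.e (nat_lit 426308) (nat_lit 12) (.e (nat_lit 475179) (nat_lit 24) (.e (nat_lit 516117) (nat_lit 1) (.e (nat_lit 164332) (nat_lit 230) .nil))))))) (.g (nat_lit 1) (.e (nat_lit 153182) (nat_lit 0) .nil) .nil))) 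
(.lf (nat_lit 495413) (.g (nat_lit 2371) (.e (nat_lit 163903) (nat_lit 12) (.e (nat_lit 426480) (nat_lit 27) (.e (nat_lit 336389) (nat_lit 27) (.e (nat_lit 426308) (nat_lit 12) (.e (nat_lit 475177) (nat_lit 24) (.e (nat_lit 516119) (nat_lit 1) (.e (nat_lit 164327) (nat_lit 230) .nil))))))) (.g (nat_lit 1) (.e (nat_lit 153820) (nat_lit 0) .nil) .nil))))) (.nd (nat_lit 8) (.nd (nat_lit 9) 
(.lf (nat_lit 494773) (.g (nat_lit 2081) (.e (nat_lit 163901) (nat_lit 12) (.e (nat_lit 426566) (nat_lit 34) (.e (nat_lit 393294) (nat_lit 26) (.e (nat_lit 475179) (nat_lit 24) (.e (nat_lit 516117) (nat_lit 1) .nil))))) (.g (nat_lit 0) (.e (nat_lit 152985) (nat_lit 0) .nil) .nil))) 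
(.lf (nat_lit 495285) (.g (nat_lit 3235) (.e (nat_lit 163902) (nat_lit 12) (.e (nat_lit 426568) (nat_lit 34) (.e (nat_lit 393294) (nat_lit 26) (.e (nat_lit 475177) (nat_lit 24) (.e (nat_lit 516118) (nat_lit 1) (.e (nat_lit 164324) (nat_lit 230) .nil)))))) (.g (nat_lit 1) (.e (nat_lit 153631) (nat_lit 0) .nil) .nil)))) (.nd (nat_lit 9) 
(.lf (nat_lit 495029) (.g (nat_lit 2975) (.e (nat_lit 163902) (nat_lit 12) (.e (nat_lit 426566) (nat_lit 34) (.e (nat_lit 393286) (nat_lit 25) (.e (nat_lit 458789) (nat_lit 23) (.e (nat_lit 532502) (nat_lit 1) (.e (nat_lit 57688) (nat_lit 156) .nil)))))) (.g (nat_lit 1) (.e (nat_lit 153353) (nat_lit 0) .nil) .nil))) 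
(.lf (nat_lit 495541) (.g (nat_lit 3164) (.e (nat_lit 163903) (nat_lit 12) (.e (nat_lit 426566) (nat_lit 34) (.e (nat_lit 393296) (nat_lit 26) (.e (nat_lit 475176) (nat_lit 24) (.e (nat_lit 516119) (nat_lit 1) (.e (nat_lit 164325) (nat_lit 230) .nil)))))) (.g (nat_lit 1) (.e (nat_lit 153959) (nat_lit 0) .nil) .nil)))))) (.nd (nat_lit 7) (.nd (nat_lit 8) (.nd (nat_lit 9) 
(.lf (nat_lit 494709) (.g (nat_lit 4037) (.e (nat_lit 163900) (nat_lit 12) (.e (nat_lit 426125) (nat_lit 2) (.e (nat_lit 196666) (nat_lit 13) (.e (nat_lit 65617) (nat_lit 10) (.e (nat_lit 344133) (nat_lit 26) (.e (nat_lit 557091) (nat_lit 12) (.e (nat_lit 163844) (nat_lit 0) (.e (nat_lit 6418) (nat_lit 341) .nil)))))))) (.g (nat_lit 1) (.e (nat_lit 152829) (nat_lit 0) .nil) .nil))) 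
(.lf (nat_lit 495221) (.g (nat_lit 2756) (.e (nat_lit 163902) (nat_lit 12) (.e (nat_lit 426568) (nat_lit 34) (.e (nat_lit 393287) (nat_lit 25) (.e (nat_lit 458789) (nat_lit 23) (.e (nat_lit 532502) (nat_lit 1) (.e (nat_lit 57686) (nat_lit 156) .nil)))))) (.g (nat_lit 1) (.e (nat_lit 153567) (nat_lit 0) .nil) .nil)))) (.nd (nat_lit 9) 
(.lf (nat_lit 494965) (.g (nat_lit 3164) (.e (nat_lit 163902) (nat_lit 12) (.e (nat_lit 426555) (nat_lit 32) (.e (nat_lit 376867) (nat_lit 23) (.e (nat_lit 98313) (nat_lit 9) (.e (nat_lit 335986) (nat_lit 1) (.e (nat_lit 57926) (nat_lit 282) .nil)))))) (.g (nat_lit 1) (.e (nat_lit 153282) (nat_lit 0) .nil) .nil))) 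
(.lf (nat_lit 495477) (.g (nat_lit 2195) (.e (nat_lit 163903) (nat_lit 12) (.e (nat_lit 426566) (nat_lit 34) (.e (nat_lit 393270) (nat_lit 23) (.e (nat_lit 426131) (nat_lit 3) (.e (nat_lit 204831) (nat_lit 18) (.e (nat_lit 57688) (nat_lit 156) .nil)))))) (.g (nat_lit 1) (.e (nat_lit 153894) (nat_lit 0) .nil) .nil))))) (.nd (nat_lit 8) (.nd (nat_lit 9) 
(.lf (nat_lit 494837) (.g (nat_lit 1998) (.e (nat_lit 163902) (nat_lit 12) (.e (nat_lit 426438) (nat_lit 18) (.e (nat_lit 98372) (nat_lit 29) (.e (nat_lit 450561) (nat_lit 0) (.e (nat_lit 6839) (nat_lit 369) .nil))))) (.g (nat_lit 0) (.e (nat_lit 153117) (nat_lit 0) .nil) .nil))) 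
(.lf (nat_lit 495349) (.g (nat_lit 2572) (.e (nat_lit 163903) (nat_lit 12) (.e (nat_lit 426438) (nat_lit 18) (.e (nat_lit 98370) (nat_lit 28) (.e (nat_lit 442385) (nat_lit 11) (.e (nat_lit 335995) (nat_lit 1) (.e (nat_lit 57688) (nat_lit 156) .nil)))))) (.g (nat_lit 1) (.e (nat_lit 153748) (nat_lit 0) .nil) .nil)))) (.nd (nat_lit 9) 
(.lf (nat_lit 495093) (.g (nat_lit 3400) (.e (nat_lit 163902) (nat_lit 12) (.e (nat_lit 426566) (nat_lit 34) (.e (nat_lit 393295) (nat_lit 26) (.e (nat_lit 475177) (nat_lit 24) (.e (nat_lit 516115) (nat_lit 1) (.e (nat_lit 164332) (nat_lit 230) .nil)))))) (.g (nat_lit 1) (.e (nat_lit 153418) (nat_lit 0) .nil) .nil))) 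
(.lf (nat_lit 495605) (.g (nat_lit 3221) (.e (nat_lit 163903) (nat_lit 12) (.e (nat_lit 426568) (nat_lit 34) (.e (nat_lit 393281) (nat_lit 23) (.e (nat_lit 426137) (nat_lit 3) (.e (nat_lit 204829) (nat_lit 18) (.e (nat_lit 57686) (nat_lit 156) .nil)))))) (.g (nat_lit 1) (.e (nat_lit 154025) (nat_lit 0) .nil) .nil))))))))) 
(.nd (nat_lit 4) (.nd (nat_lit 5) (.nd (nat_lit 6) (.nd (nat_lit 7) (.nd (nat_lit 8) 
(.nd (nat_lit 9) 
(.lf (nat_lit 494605) (.g (nat_lit 2630) (.e (nat_lit 163885) (nat_lit 5) (.e (nat_lit 221215) (nat_lit 23) (.e (nat_lit 204813) (nat_lit 9) (.e (nat_lit 426306) (nat_lit 12) (.e (nat_lit 475177) (nat_lit 24) .nil))))) (.g (nat_lit 0) (.e (nat_lit 152054) (nat_lit 0) .nil) .nil))) 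
(.lf (nat_lit 495117) (.g (nat_lit 3984) (.e (nat_lit 163902) (nat_lit 12) (.e (nat_lit 426566) (nat_lit 34) (.e (nat_lit 393296) (nat_lit 26) (.e (nat_lit 475179) (nat_lit 24) (.e (nat_lit 516120) (nat_lit 1) (.e (nat_lit 164330) (nat_lit 230) .nil)))))) (.g (nat_lit 1) (.e (nat_lit 153442) (nat_lit 0) .nil) .nil)))) (.nd (nat_lit 9) 
(.lf (nat_lit 494861) (.g (nat_lit 4340) (.e (nat_lit 163902) (nat_lit 12) (.e (nat_lit 426438) (nat_lit 18) (.e (nat_lit 98373) (nat_lit 29) (.e (nat_lit 450563) (nat_lit 0) (.e (nat_lit 6841) (nat_lit 369) (.e (nat_lit 163860) (nat_lit 1) (.e (nat_lit 164330) (nat_lit 230) .nil))))))) (.g (nat_lit 1) (.e (nat_lit 153141) (nat_lit 0) .nil) .nil))) 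
(.lf (nat_lit 495373) (.g (nat_lit 2193) (.e (nat_lit 163903) (nat_lit 12) (.e (nat_lit 426438) (nat_lit 18) (.e (nat_lit 98381) (nat_lit 31) (.e (nat_lit 466954) (nat_lit 11) (.e (nat_lit 335993) (nat_lit 1) (.e (nat_lit 57688) (nat_lit 156) .nil)))))) (.g (nat_lit 1) (.e (nat_lit 153777) (nat_lit 0) .nil) .nil))))) (.nd (nat_lit 8) (.nd (nat_lit 9) 
(.lf (nat_lit 494733) (.g (nat_lit 2310) (.e (nat_lit 163900) (nat_lit 12) (.e (nat_lit 426140) (nat_lit 3) (.e (nat_lit 204869) (nat_lit 29) (.e (nat_lit 360475) (nat_lit 8) (.e (nat_lit 557091) (nat_lit 12) .nil))))) (.g (nat_lit 0) (.e (nat_lit 152871) (nat_lit 0) .nil) .nil))) 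
(.lf (nat_lit 495245) (.g (nat_lit 3405) (.e (nat_lit 163902) (nat_lit 12) (.e (nat_lit 426568) (nat_lit 34) (.e (nat_lit 393291) (nat_lit 26) (.e (nat_lit 475179) (nat_lit 24) (.e (nat_lit 516119) (nat_lit 1) (.e (nat_lit 164322) (nat_lit 230) .nil)))))) (.g (nat_lit 1) (.e (nat_lit 153591) (nat_lit 0) .nil) .nil)))) (.nd (nat_lit 9) 
(.lf (nat_lit 494989) (.g (nat_lit 3118) (.e (nat_lit 163902) (nat_lit 12) (.e (nat_lit 426566) (nat_lit 34) (.e (nat_lit 393270) (nat_lit 23) (.e (nat_lit 426436) (nat_lit 18) (.e (nat_lit 98335) (nat_lit 18) (.e (nat_lit 164329) (nat_lit 230) .nil)))))) (.g (nat_lit 1) (.e (nat_lit 153313) (nat_lit 0) .nil) .nil))) 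
(.lf (nat_lit 495501) (.g (nat_lit 2731) (.e (nat_lit 163903) (nat_lit 12) (.e (nat_lit 426566) (nat_lit 34) (.e (nat_lit 393285) (nat_lit 25) (.e (nat_lit 458789) (nat_lit 23) (.e (nat_lit 532502) (nat_lit 1) (.e (nat_lit 57688) (nat_lit 156) .nil)))))) (.g (nat_lit 1) (.e (nat_lit 153918) (nat_lit 0) .nil) .nil)))))) (.nd (nat_lit 7) (.nd (nat_lit 8) (.nd (nat_lit 9) 
(.lf (nat_lit 494669) (.g (nat_lit 2011) (.e (nat_lit 163896) (nat_lit 10) (.e (nat_lit 409602) (nat_lit 0) (.e (nat_lit 5270) (nat_lit 298) (.e (nat_lit 1183) (nat_lit 87) .nil)))) (.g (nat_lit 0) (.e (nat_lit 152348) (nat_lit 0) .nil) .nil))) 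
(.lf (nat_lit 495181) (.g (nat_lit 4445) (.e (nat_lit 163902) (nat_lit 12) (.e (nat_lit 426568) (nat_lit 34) (.e (nat_lit 393271) (nat_lit 23) (.e (nat_lit 426436) (nat_lit 18) (.e (nat_lit 98335) (nat_lit 18) (.e (nat_lit 164332) (nat_lit 230) .nil)))))) (.g (nat_lit 1) (.e (nat_lit 153516) (nat_lit 0) .nil) .nil)))) (.nd (nat_lit 9) 
(.lf (nat_lit 494925) (.g (nat_lit 1991) (.e (nat_lit 163902) (nat_lit 12) (.e (nat_lit 426481) (nat_lit 27) (.e (nat_lit 336385) (nat_lit 27) (.e (nat_lit 426198) (nat_lit 9) (.e (nat_lit 426436) (nat_lit 18) (.e (nat_lit 98335) (nat_lit 18) (.e (nat_lit 164329) (nat_lit 230) .nil))))))) (.g (nat_lit 1) (.e (nat_lit 153223) (nat_lit 0) .nil) .nil))) 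
(.lf (nat_lit 495437) (.g (nat_lit 2369) (.e (nat_lit 163903) (nat_lit 12) (.e (nat_lit 426538) (nat_lit 29) (.e (nat_lit 352315) (nat_lit 23) (.e (nat_lit 98313) (nat_lit 9) (.e (nat_lit 335986) (nat_lit 1) (.e (nat_lit 57926) (nat_lit 282) .nil)))))) (.g (nat_lit 1) (.e (nat_lit 153851) (nat_lit 0) .nil) .nil))))) (.nd (nat_lit 8) (.nd (nat_lit 9) 
(.lf (nat_lit 494797) (.g (nat_lit 1926) (.e (nat_lit 163902) (nat_lit 12) (.e (nat_lit 426428) (nat_lit 17) (.e (nat_lit 90178) (nat_lit 15) (.e (nat_lit 188421) (nat_lit 11) (.e (nat_lit 335993) (nat_lit 1) (.e (nat_lit 57688) (nat_lit 156) .nil)))))) (.g (nat_lit 1) (.e (nat_lit 153069) (nat_lit 0) .nil) .nil))) 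
(.lf (nat_lit 495309) (.g (nat_lit 2454) (.e (nat_lit 163903) (nat_lit 12) (.e (nat_lit 426428) (nat_lit 17) (.e (nat_lit 90170) (nat_lit 13) (.e (nat_lit 172106) (nat_lit 10) (.e (nat_lit 434202) (nat_lit 18) .nil))))) (.g (nat_lit 0) (.e (nat_lit 153704) (nat_lit 0) .nil) .nil)))) (.nd (nat_lit 9) 
(.lf (nat_lit 495053) (.g (nat_lit 2341) (.e (nat_lit 163902) (nat_lit 12) (.e (nat_lit 426566) (nat_lit 34) (.e (nat_lit 393291) (nat_lit 26) (.e (nat_lit 475179) (nat_lit 24) (.e (nat_lit 516117) (nat_lit 1) (.e (nat_lit 164330) (nat_lit 230) .nil)))))) (.g (nat_lit 1) (.e (nat_lit 153378) (nat_lit 0) .nil) .nil))) 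
(.lf (nat_lit 495565) (.g (nat_lit 3183) (.e (nat_lit 163903) (nat_lit 12) (.e (nat_lit 426567) (nat_lit 34) (.e (nat_lit 393294) (nat_lit 26) (.e (nat_lit 475179) (nat_lit 24) (.e (nat_lit 516119) (nat_lit 1) (.e (nat_lit 164326) (nat_lit 230) .nil)))))) (.g (nat_lit 1) (.e (nat_lit 153983) (nat_lit 0) .nil) .nil))))))) (.nd (nat_lit 6) (.nd (nat_lit 7) (.nd (nat_lit 8) (.nd (nat_lit 9) 
(.lf (nat_lit 494637) (.g (nat_lit 2921) (.e (nat_lit 163886) (nat_lit 5) (.e (nat_lit 221194) (nat_lit 11) (.e (nat_lit 336075) (nat_lit 9) (.e (nat_lit 336443) (nat_lit 32) (.e (nat_lit 466969) (nat_lit 21) (.e (nat_lit 164324) (nat_lit 230) .nil)))))) (.g (nat_lit 1) (.e (nat_lit 152113) (nat_lit 0) .nil) .nil))) 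
(.lf (nat_lit 495149) (.g (nat_lit 2794) (.e (nat_lit 163902) (nat_lit 12) (.e (nat_lit 426568) (nat_lit 34) (.e (nat_lit 393268) (nat_lit 23) (.e (nat_lit 426438) (nat_lit 18) (.e (nat_lit 98335) (nat_lit 18) (.e (nat_lit 164324) (nat_lit 230) .nil)))))) (.g (nat_lit 1) (.e (nat_lit 153484) (nat_lit 0) .nil) .nil)))) (.nd (nat_lit 9) 
(.lf (nat_lit 494893) (.g (nat_lit 2443) (.e (nat_lit 163902) (nat_lit 12) (.e (nat_lit 426478) (nat_lit 27) (.e (nat_lit 336389) (nat_lit 27) (.e (nat_lit 426190) (nat_lit 9) (.e (nat_lit 426436) (nat_lit 18) (.e (nat_lit 98334) (nat_lit 18) (.e (nat_lit 164330) (nat_lit 230) .nil))))))) (.g (nat_lit 1) (.e (nat_lit 153174) (nat_lit 0) .nil) .nil))) 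
(.lf (nat_lit 495405) (.g (nat_lit 3098) (.e (nat_lit 163903) (nat_lit 12) (.e (nat_lit 426479) (nat_lit 27) (.e (nat_lit 336432) (nat_lit 30) (.e (nat_lit 450588) (nat_lit 10) (.e (nat_lit 573475) (nat_lit 12) (.e (nat_lit 65280) (nat_lit 0) (.e (nat_lit 5228) (nat_lit 296) .nil))))))) (.g (nat_lit 1) (.e (nat_lit 153812) (nat_lit 0) .nil) .nil))))) (.nd (nat_lit 8) (.nd (nat_lit 9) 
(.lf (nat_lit 494765) (.g (nat_lit 2947) (.e (nat_lit 163901) (nat_lit 12) (.e (nat_lit 426566) (nat_lit 34) (.e (nat_lit 393291) (nat_lit 26) (.e (nat_lit 475177) (nat_lit 24) (.e (nat_lit 516120) (nat_lit 1) (.e (nat_lit 164330) (nat_lit 230) .nil)))))) (.g (nat_lit 1) (.e (nat_lit 152977) (nat_lit 0) .nil) .nil))) 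
(.lf (nat_lit 495277) (.g (nat_lit 3263) (.e (nat_lit 163902) (nat_lit 12) (.e (nat_lit 426568) (nat_lit 34) (.e (nat_lit 393294) (nat_lit 26) (.e (nat_lit 475177) (nat_lit 24) (.e (nat_lit 516114) (nat_lit 1) (.e (nat_lit 164329) (nat_lit 230) .nil)))))) (.g (nat_lit 1) (.e (nat_lit 153623) (nat_lit 0) .nil) .nil)))) (.nd (nat_lit 9) 
(.lf (nat_lit 495021) (.g (nat_lit 2150) (.e (nat_lit 163902) (nat_lit 12) (.e (nat_lit 426566) (nat_lit 34) (.e (nat_lit 393279) (nat_lit 23) (.e (nat_lit 426129) (nat_lit 3) (.e (nat_lit 204831) (nat_lit 18) (.e (nat_lit 57688) (nat_lit 156) .nil)))))) (.g (nat_lit 1) (.e (nat_lit 153345) (nat_lit 0) .nil) .nil))) 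
(.lf (nat_lit 495533) (.g (nat_lit 3547) (.e (nat_lit 163903) (nat_lit 12) (.e (nat_lit 426566) (nat_lit 34) (.e (nat_lit 393295) (nat_lit 26) (.e (nat_lit 475177) (nat_lit 24) (.e (nat_lit 516119) (nat_lit 1) (.e (nat_lit 164324) (nat_lit 230) .nil)))))) (.g (nat_lit 1) (.e (nat_lit 153951) (nat_lit 0) .nil) .nil)))))) (.nd (nat_lit 7) (.nd (nat_lit 8) (.nd (nat_lit 9) 
(.lf (nat_lit 494701) (.g (nat_lit 3537) (.e (nat_lit 163900) (nat_lit 12) (.e (nat_lit 426125) (nat_lit 2) (.e (nat_lit 196666) (nat_lit 13) (.e (nat_lit 65617) (nat_lit 10) (.e (nat_lit 344132) (nat_lit 26) (.e (nat_lit 557094) (nat_lit 12) (.e (nat_lit 163848) (nat_lit 0) (.e (nat_lit 6416) (nat_lit 341) .nil)))))))) (.g (nat_lit 1) (.e (nat_lit 152821) (nat_lit 0) .nil) .nil))) 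
(.lf (nat_lit 495213) (.g (nat_lit 3393) (.e (nat_lit 163902) (nat_lit 12) (.e (nat_lit 426568) (nat_lit 34) (.e (nat_lit 393283) (nat_lit 24) (.e (nat_lit 434234) (nat_lit 23) (.e (nat_lit 532503) (nat_lit 1) (.e (nat_lit 57688) (nat_lit 156) .nil)))))) (.g (nat_lit 1) (.e (nat_lit 153558) (nat_lit 0) .nil) .nil)))) (.nd (nat_lit 9) 
(.lf (nat_lit 494957) (.g (nat_lit 1391) (.e (nat_lit 163902) (nat_lit 12) (.e (nat_lit 426555) (nat_lit 32) (.e (nat_lit 376862) (nat_lit 22) (.e (nat_lit 90157) (nat_lit 11) .nil)))) (.g (nat_lit 0) (.e (nat_lit 153257) (nat_lit 0) .nil) .nil))) 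
(.lf (nat_lit 495469) (.g (nat_lit 2031) (.e (nat_lit 163903) (nat_lit 12) (.e (nat_lit 426564) (nat_lit 34) (.e (nat_lit 393291) (nat_lit 26) (.e (nat_lit 475177) (nat_lit 24) (.e (nat_lit 516119) (nat_lit 1) (.e (nat_lit 164324) (nat_lit 230) .nil)))))) (.g (nat_lit 1) (.e (nat_lit 153886) (nat_lit 0) .nil) .nil))))) (.nd (nat_lit 8) (.nd (nat_lit 9) 
(.lf (nat_lit 494829) (.g (nat_lit 3870) (.e (nat_lit 163902) (nat_lit 12) (.e (nat_lit 426438) (nat_lit 18) (.e (nat_lit 98359) (nat_lit 26) (.e (nat_lit 426338) (nat_lit 14) (.e (nat_lit 491584) (nat_lit 28) (.e (nat_lit 434208) (nat_lit 18) (.e (nat_lit 6420) (nat_lit 341) .nil))))))) (.g (nat_lit 1) (.e (nat_lit 153109) (nat_lit 0) .nil) .nil))) 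
(.lf (nat_lit 495341) (.g (nat_lit 3068) (.e (nat_lit 163903) (nat_lit 12) (.e (nat_lit 426436) (nat_lit 18) (.e (nat_lit 98381) (nat_lit 31) (.e (nat_lit 466954) (nat_lit 11) (.e (nat_lit 335995) (nat_lit 1) (.e (nat_lit 57688) (nat_lit 156) .nil)))))) (.g (nat_lit 1) (.e (nat_lit 153738) (nat_lit 0) .nil) .nil)))) (.nd (nat_lit 9) 
(.lf (nat_lit 495085) (.g (nat_lit 2562) (.e (nat_lit 163902) (nat_lit 12) (.e (nat_lit 426566) (nat_lit 34) (.e (nat_lit 393294) (nat_lit 26) (.e (nat_lit 475179) (nat_lit 24) (.e (nat_lit 516115) (nat_lit 1) (.e (nat_lit 164332) (nat_lit 230) .nil)))))) (.g (nat_lit 1) (.e (nat_lit 153410) (nat_lit 0) .nil) .nil))) 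
(.lf (nat_lit 495597) (.g (nat_lit 4168) (.e (nat_lit 163903) (nat_lit 12) (.e (nat_lit 426568) (nat_lit 34) (.e (nat_lit 393271) (nat_lit 23) (.e (nat_lit 426436) (nat_lit 18) (.e (nat_lit 98335) (nat_lit 18) (.e (nat_lit 164326) (nat_lit 230) .nil)))))) (.g (nat_lit 1) (.e (nat_lit 154017) (nat_lit 0) .nil) .nil)))))))) 
(.nd (nat_lit 5) (.nd (nat_lit 6) (.nd (nat_lit 7) (.nd (nat_lit 8) (.nd (nat_lit 9) 
(.lf (nat_lit 494621) (.g (nat_lit 1764) (.e (nat_lit 163886) (nat_lit 5) (.e (nat_lit 221191) (nat_lit 11) (.e (nat_lit 336152) (nat_lit 9) (.e (nat_lit 336442) (nat_lit 32) (.e (nat_lit 466971) (nat_lit 21) (.e (nat_lit 164325) (nat_lit 230) .nil)))))) (.g (nat_lit 1) (.e (nat_lit 152095) (nat_lit 0) .nil) .nil))) 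
(.lf (nat_lit 495133) (.g (nat_lit 1617) (.e (nat_lit 163902) (nat_lit 12) (.e (nat_lit 426568) (nat_lit 34) (.e (nat_lit 393266) (nat_lit 23) (.e (nat_lit 426434) (nat_lit 18) (.e (nat_lit 98334) (nat_lit 18) (.e (nat_lit 164329) (nat_lit 230) .nil)))))) (.g (nat_lit 1) (.e (nat_lit 153468) (nat_lit 0) .nil) .nil)))) (.nd (nat_lit 9) 
(.lf (nat_lit 494877) (.g (nat_lit 2627) (.e (nat_lit 163902) (nat_lit 12) (.e (nat_lit 426438) (nat_lit 18) (.e (nat_lit 98380) (nat_lit 31) (.e (nat_lit 466954) (nat_lit 11) (.e (nat_lit 335995) (nat_lit 1) (.e (nat_lit 57686) (nat_lit 156) .nil)))))) (.g (nat_lit 1) (.e (nat_lit 153158) (nat_lit 0) .nil) .nil))) 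
(.lf (nat_lit 495389) (.g (nat_lit 1536) (.e (nat_lit 163903) (nat_lit 12) (.e (nat_lit 426479) (nat_lit 27) (.e (nat_lit 336430) (nat_lit 29) (.e (nat_lit 442425) (nat_lit 23) (.e (nat_lit 204828) (nat_lit 18) (.e (nat_lit 57686) (nat_lit 156) .nil)))))) (.g (nat_lit 1) (.e (nat_lit 153795) (nat_lit 0) .nil) .nil))))) (.nd (nat_lit 8) (.nd (nat_lit 9) 
(.lf (nat_lit 494749) (.g (nat_lit 1557) (.e (nat_lit 163900) (nat_lit 12) (.e (nat_lit 426555) (nat_lit 32) (.e (nat_lit 376867) (nat_lit 23) (.e (nat_lit 98313) (nat_lit 9) (.e (nat_lit 335995) (nat_lit 1) .nil))))) (.g (nat_lit 0) (.e (nat_lit 152927) (nat_lit 0) .nil) .nil))) 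
(.lf (nat_lit 495261) (.g (nat_lit 2540) (.e (nat_lit 163902) (nat_lit 12) (.e (nat_lit 426568) (nat_lit 34) (.e (nat_lit 393293) (nat_lit 26) (.e (nat_lit 475177) (nat_lit 24) (.e (nat_lit 516118) (nat_lit 1) (.e (nat_lit 164332) (nat_lit 230) .nil)))))) (.g (nat_lit 1) (.e (nat_lit 153607) (nat_lit 0) .nil) .nil)))) (.nd (nat_lit 9) 
(.lf (nat_lit 495005) (.g (nat_lit 3471) (.e (nat_lit 163902) (nat_lit 12) (.e (nat_lit 426566) (nat_lit 34) (.e (nat_lit 393271) (nat_lit 23) (.e (nat_lit 426436) (nat_lit 18) (.e (nat_lit 98335) (nat_lit 18) (.e (nat_lit 164329) (nat_lit 230) .nil)))))) (.g (nat_lit 1) (.e (nat_lit 153329) (nat_lit 0) .nil) .nil))) 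
(.lf (nat_lit 495517) (.g (nat_lit 3180) (.e (nat_lit 163903) (nat_lit 12) (.e (nat_lit 426566) (nat_lit 34) (.e (nat_lit 393292) (nat_lit 26) (.e (nat_lit 475179) (nat_lit 24) (.e (nat_lit 516115) (nat_lit 1) (.e (nat_lit 164325) (nat_lit 230) .nil)))))) (.g (nat_lit 1) (.e (nat_lit 153934) (nat_lit 0) .nil) .nil)))))) (.nd (nat_lit 7) (.nd (nat_lit 8) (.nd (nat_lit 9) 
(.lf (nat_lit 494685) (.g (nat_lit 413) (.e (nat_lit 163899) (nat_lit 11) (.e (nat_lit 417809) (nat_lit 6) (.e (nat_lit 286743) (nat_lit 9) .nil))) (.g (nat_lit 0) (.e (nat_lit 152783) (nat_lit 0) .nil) .nil))) 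
(.lf (nat_lit 495197) (.g (nat_lit 3069) (.e (nat_lit 163902) (nat_lit 12) (.e (nat_lit 426568) (nat_lit 34) (.e (nat_lit 393281) (nat_lit 23) (.e (nat_lit 426137) (nat_lit 3) (.e (nat_lit 204829) (nat_lit 18) (.e (nat_lit 57686) (nat_lit 156) .nil)))))) (.g (nat_lit 1) (.e (nat_lit 153535) (nat_lit 0) .nil) .nil)))) (.nd (nat_lit 9) 
(.lf (nat_lit 494941) (.g (nat_lit 2611) (.e (nat_lit 163902) (nat_lit 12) (.e (nat_lit 426538) (nat_lit 29) (.e (nat_lit 352315) (nat_lit 23) (.e (nat_lit 98313) (nat_lit 9) (.e (nat_lit 335995) (nat_lit 1) (.e (nat_lit 57931) (nat_lit 282) .nil)))))) (.g (nat_lit 1) (.e (nat_lit 153239) (nat_lit 0) .nil) .nil))) 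
(.lf (nat_lit 495453) (.g (nat_lit 1056) (.e (nat_lit 163903) (nat_lit 12) (.e (nat_lit 426555) (nat_lit 32) (.e (nat_lit 376862) (nat_lit 22) (.e (nat_lit 90158) (nat_lit 11) .nil)))) (.g (nat_lit 0) (.e (nat_lit 153868) (nat_lit 0) .nil) .nil))))) (.nd (nat_lit 8) (.nd (nat_lit 9) 
(.lf (nat_lit 494813) (.g (nat_lit 2845) (.e (nat_lit 163902) (nat_lit 12) (.e (nat_lit 426436) (nat_lit 18) (.e (nat_lit 98380) (nat_lit 31) (.e (nat_lit 466954) (nat_lit 11) (.e (nat_lit 335986) (nat_lit 1) (.e (nat_lit 57688) (nat_lit 156) .nil)))))) (.g (nat_lit 1) (.e (nat_lit 153091) (nat_lit 0) .nil) .nil))) 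
(.lf (nat_lit 495325) (.g (nat_lit 2432) (.e (nat_lit 163903) (nat_lit 12) (.e (nat_lit 426432) (nat_lit 17) (.e (nat_lit 90178) (nat_lit 15) (.e (nat_lit 188421) (nat_lit 11) (.e (nat_lit 335986) (nat_lit 1) (.e (nat_lit 57688) (nat_lit 156) .nil)))))) (.g (nat_lit 1) (.e (nat_lit 153720) (nat_lit 0) .nil) .nil)))) (.nd (nat_lit 9) 
(.lf (nat_lit 495069) (.g (nat_lit 2970) (.e (nat_lit 163902) (nat_lit 12) (.e (nat_lit 426566) (nat_lit 34) (.e (nat_lit 393293) (nat_lit 26) (.e (nat_lit 475178) (nat_lit 24) (.e (nat_lit 516120) (nat_lit 1) (.e (nat_lit 164329) (nat_lit 230) .nil)))))) (.g (nat_lit 1) (.e (nat_lit 153394) (nat_lit 0) .nil) .nil))) 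
(.lf (nat_lit 495581) (.g (nat_lit 3154) (.e (nat_lit 163903) (nat_lit 12) (.e (nat_lit 426568) (nat_lit 34) (.e (nat_lit 393270) (nat_lit 23) (.e (nat_lit 426436) (nat_lit 18) (.e (nat_lit 98335) (nat_lit 18) (.e (nat_lit 164326) (nat_lit 230) .nil)))))) (.g (nat_lit 1) (.e (nat_lit 154001) (nat_lit 0) .nil) .nil))))))) (.nd (nat_lit 6) (.nd (nat_lit 7) (.nd (nat_lit 8) (.nd (nat_lit 9) 
(.lf (nat_lit 494653) (.g (nat_lit 2798) (.e (nat_lit 163886) (nat_lit 5) (.e (nat_lit 221215) (nat_lit 23) (.e (nat_lit 204813) (nat_lit 9) (.e (nat_lit 426306) (nat_lit 12) (.e (nat_lit 475177) (nat_lit 24) (.e (nat_lit 524032) (nat_lit 18) (.e (nat_lit 57926) (nat_lit 282) .nil))))))) (.g (nat_lit 1) (.e (nat_lit 152163) (nat_lit 0) .nil) .nil))) 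
(.lf (nat_lit 495165) (.g (nat_lit 3479) (.e (nat_lit 163902) (nat_lit 12) (.e (nat_lit 426568) (nat_lit 34) (.e (nat_lit 393271) (nat_lit 23) (.e (nat_lit 426131) (nat_lit 3) (.e (nat_lit 204831) (nat_lit 18) (.e (nat_lit 57686) (nat_lit 156) .nil)))))) (.g (nat_lit 1) (.e (nat_lit 153500) (nat_lit 0) .nil) .nil)))) (.nd (nat_lit 9) 
(.lf (nat_lit 494909) (.g (nat_lit 1651) (.e (nat_lit 163902) (nat_lit 12) (.e (nat_lit 426479) (nat_lit 27) (.e (nat_lit 336430) (nat_lit 29) (.e (nat_lit 442425) (nat_lit 23) (.e (nat_lit 204829) (nat_lit 18) (.e (nat_lit 57687) (nat_lit 156) .nil)))))) (.g (nat_lit 1) (.e (nat_lit 153193) (nat_lit 0) .nil) .nil))) 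
(.lf (nat_lit 495421) (.g (nat_lit 3132) (.e (nat_lit 163903) (nat_lit 12) (.e (nat_lit 426481) (nat_lit 27) (.e (nat_lit 336389) (nat_lit 27) (.e (nat_lit 426190) (nat_lit 9) (.e (nat_lit 426436) (nat_lit 18) (.e (nat_lit 98335) (nat_lit 18) (.e (nat_lit 164327) (nat_lit 230) .nil))))))) (.g (nat_lit 1) (.e (nat_lit 153834) (nat_lit 0) .nil) .nil))))) (.nd (nat_lit 8) (.nd (nat_lit 9) 
(.lf (nat_lit 494781) (.g (nat_lit 1742) (.e (nat_lit 163902) (nat_lit 12) (.e (nat_lit 426428) (nat_lit 17) (.e (nat_lit 90167) (nat_lit 13) (.e (nat_lit 172126) (nat_lit 14) (.e (nat_lit 491584) (nat_lit 28) .nil))))) (.g (nat_lit 0) (.e (nat_lit 153051) (nat_lit 0) .nil) .nil))) 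
(.lf (nat_lit 495293) (.g (nat_lit 3590) (.e (nat_lit 163902) (nat_lit 12) (.e (nat_lit 426568) (nat_lit 34) (.e (nat_lit 393294) (nat_lit 26) (.e (nat_lit 475178) (nat_lit 24) (.e (nat_lit 516117) (nat_lit 1) (.e (nat_lit 164329) (nat_lit 230) .nil)))))) (.g (nat_lit 1) (.e (nat_lit 153639) (nat_lit 0) .nil) .nil)))) (.nd (nat_lit 9) 
(.lf (nat_lit 495037) (.g (nat_lit 3552) (.e (nat_lit 163902) (nat_lit 12) (.e (nat_lit 426566) (nat_lit 34) (.e (nat_lit 393290) (nat_lit 26) (.e (nat_lit 475179) (nat_lit 24) (.e (nat_lit 516115) (nat_lit 1) (.e (nat_lit 164325) (nat_lit 230) .nil)))))) (.g (nat_lit 1) (.e (nat_lit 153362) (nat_lit 0) .nil) .nil))) 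
(.lf (nat_lit 495549) (.g (nat_lit 2770) (.e (nat_lit 163903) (nat_lit 12) (.e (nat_lit 426567) (nat_lit 34) (.e (nat_lit 393268) (nat_lit 23) (.e (nat_lit 426436) (nat_lit 18) (.e (nat_lit 98333) (nat_lit 18) (.e (nat_lit 164327) (nat_lit 230) .nil)))))) (.g (nat_lit 1) (.e (nat_lit 153967) (nat_lit 0) .nil) .nil)))))) (.nd (nat_lit 7) (.nd (nat_lit 8) (.nd (nat_lit 9) 
(.lf (nat_lit 494717) (.g (nat_lit 1711) (.e (nat_lit 163900) (nat_lit 12) (.e (nat_lit 426140) (nat_lit 3) (.e (nat_lit 204868) (nat_lit 29) (.e (nat_lit 360473) (nat_lit 8) (.e (nat_lit 557093) (nat_lit 12) .nil))))) (.g (nat_lit 0) (.e (nat_lit 152855) (nat_lit 0) .nil) .nil))) 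
(.lf (nat_lit 495229) (.g (nat_lit 3039) (.e (nat_lit 163902) (nat_lit 12) (.e (nat_lit 426568) (nat_lit 34) (.e (nat_lit 393291) (nat_lit 26) (.e (nat_lit 475175) (nat_lit 24) (.e (nat_lit 516120) (nat_lit 1) (.e (nat_lit 164329) (nat_lit 230) .nil)))))) (.g (nat_lit 1) (.e (nat_lit 153575) (nat_lit 0) .nil) .nil)))) (.nd (nat_lit 9) 
(.lf (nat_lit 494973) (.g (nat_lit 3881) (.e (nat_lit 163902) (nat_lit 12) (.e (nat_lit 426555) (nat_lit 32) (.e (nat_lit 376869) (nat_lit 23) (.e (nat_lit 98313) (nat_lit 9) (.e (nat_lit 335996) (nat_lit 1) (.e (nat_lit 57930) (nat_lit 282) .nil)))))) (.g (nat_lit 1) (.e (nat_lit 153290) (nat_lit 0) .nil) .nil))) 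
(.lf (nat_lit 495485) (.g (nat_lit 1575) (.e (nat_lit 163903) (nat_lit 12) (.e (nat_lit 426566) (nat_lit 34) (.e (nat_lit 393271) (nat_lit 23) (.e (nat_lit 433920) (nat_lit 3) .nil)))) (.g (nat_lit 0) (.e (nat_lit 153902) (nat_lit 0) .nil) .nil))))) (.nd (nat_lit 8) (.nd (nat_lit 9) 
(.lf (nat_lit 494845) (.g (nat_lit 2313) (.e (nat_lit 163902) (nat_lit 12) (.e (nat_lit 426438) (nat_lit 18) (.e (nat_lit 98373) (nat_lit 29) (.e (nat_lit 450560) (nat_lit 0) (.e (nat_lit 6840) (nat_lit 369) .nil))))) (.g (nat_lit 0) (.e (nat_lit 153125) (nat_lit 0) .nil) .nil))) 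
(.lf (nat_lit 495357) (.g (nat_lit 2363) (.e (nat_lit 163903) (nat_lit 12) (.e (nat_lit 426438) (nat_lit 18) (.e (nat_lit 98373) (nat_lit 29) (.e (nat_lit 450560) (nat_lit 0) (.e (nat_lit 6839) (nat_lit 369) .nil))))) (.g (nat_lit 0) (.e (nat_lit 153758) (nat_lit 0) .nil) .nil)))) (.nd (nat_lit 9) 
(.lf (nat_lit 495101) (.g (nat_lit 3659) (.e (nat_lit 163902) (nat_lit 12) (.e (nat_lit 426566) (nat_lit 34) (.e (nat_lit 393295) (nat_lit 26) (.e (nat_lit 475179) (nat_lit 24) (.e (nat_lit 516120) (nat_lit 1) (.e (nat_lit 164330) (nat_lit 230) .nil)))))) (.g (nat_lit 1) (.e (nat_lit 153426) (nat_lit 0) .nil) .nil))) 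
(.lf (nat_lit 495613) (.g (nat_lit 3189) (.e (nat_lit 163903) (nat_lit 12) (.e (nat_lit 426568) (nat_lit 34) (.e (nat_lit 393283) (nat_lit 24) (.e (nat_lit 434234) (nat_lit 23) (.e (nat_lit 532503) (nat_lit 1) (.e (nat_lit 57688) (nat_lit 156) .nil)))))) (.g (nat_lit 1) (.e (nat_lit 154033) (nat_lit 0) .nil) .nil))))))))))) 
(.nd (nat_lit 2) (.nd (nat_lit 3) (.nd (nat_lit 4) (.nd (nat_lit 5) (.nd (nat_lit 6) 
(.nd (nat_lit 7) (.nd (nat_lit 8) (.nd (nat_lit 9) 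
(.lf (nat_lit 494595) (.g (nat_lit 2298) (.e (nat_lit 163885) (nat_lit 5) (.e (nat_lit 221194) (nat_lit 11) (.e (nat_lit 336221) (nat_lit 13) (.e (nat_lit 393281) (nat_lit 23) (.e (nat_lit 426099) (nat_lit 1) (.e (nat_lit 164330) (nat_lit 230) .nil)))))) (.g (nat_lit 1) (.e (nat_lit 151991) (nat_lit 0) .nil) .nil))) 
(.lf (nat_lit 495107) (.g (nat_lit 2182) (.e (nat_lit 163902) (nat_lit 12) (.e (nat_lit 426566) (nat_lit 34) (.e (nat_lit 393296) (nat_lit 26) (.e (nat_lit 475177) (nat_lit 24) (.e (nat_lit 516119) (nat_lit 1) (.e (nat_lit 164332) (nat_lit 230) .nil)))))) (.g (nat_lit 1) (.e (nat_lit 153432) (nat_lit 0) .nil) .nil)))) (.nd (nat_lit 9) 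
(.lf (nat_lit 494851) (.g (nat_lit 4344) (.e (nat_lit 163902) (nat_lit 12) (.e (nat_lit 426438) (nat_lit 18) (.e (nat_lit 98373) (nat_lit 29) (.e (nat_lit 450562) (nat_lit 0) (.e (nat_lit 6841) (nat_lit 369) (.e (nat_lit 163860) (nat_lit 1) (.e (nat_lit 164330) (nat_lit 230) .nil))))))) (.g (nat_lit 1) (.e (nat_lit 153131) (nat_lit 0) .nil) .nil))) 
(.lf (nat_lit 495363) (.g (nat_lit 3450) (.e (nat_lit 163903) (nat_lit 12) (.e (nat_lit 426438) (nat_lit 18) (.e (nat_lit 98373) (nat_lit 29) (.e (nat_lit 450563) (nat_lit 0) (.e (nat_lit 6839) (nat_lit 369) .nil))))) (.g (nat_lit 0) (.e (nat_lit 153764) (nat_lit 0) .nil) .nil))))) (.nd (nat_lit 8) (.nd (nat_lit 9) 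
(.lf (nat_lit 494723) (.g (nat_lit 2324) (.e (nat_lit 163900) (nat_lit 12) (.e (nat_lit 426140) (nat_lit 3) (.e (nat_lit 204869) (nat_lit 29) (.e (nat_lit 360474) (nat_lit 8) (.e (nat_lit 557093) (nat_lit 12) (.e (nat_lit 163847) (nat_lit 0) (.e (nat_lit 6418) (nat_lit 341) .nil))))))) (.g (nat_lit 1) (.e (nat_lit 152861) (nat_lit 0) .nil) .nil))) 
(.lf (nat_lit 495235) (.g (nat_lit 2786) (.e (nat_lit 163902) (nat_lit 12) (.e (nat_lit 426568) (nat_lit 34) (.e (nat_lit 393291) (nat_lit 26) (.e (nat_lit 475177) (nat_lit 24) (.e (nat_lit 516118) (nat_lit 1) (.e (nat_lit 164324) (nat_lit 230) .nil)))))) (.g (nat_lit 1) (.e (nat_lit 153581) (nat_lit 0) .nil) .nil)))) (.nd (nat_lit 9) 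
(.lf (nat_lit 494979) (.g (nat_lit 1096) (.e (nat_lit 163902) (nat_lit 12) (.e (nat_lit 426566) (nat_lit 34) (.e (nat_lit 393268) (nat_lit 23) (.e (nat_lit 426428) (nat_lit 17) .nil)))) (.g (nat_lit 0) (.e (nat_lit 153303) (nat_lit 0) .nil) .nil))) 
(.lf (nat_lit 495491) (.g (nat_lit 2194) (.e (nat_lit 163903) (nat_lit 12) (.e (nat_lit 426566) (nat_lit 34) (.e (nat_lit 393272) (nat_lit 23) (.e (nat_lit 426131) (nat_lit 3) (.e (nat_lit 204831) (nat_lit 18) (.e (nat_lit 57687) (nat_lit 156) .nil)))))) (.g (nat_lit 1) (.e (nat_lit 153908) (nat_lit 0) .nil) .nil)))))) (.nd (nat_lit 7) (.nd (nat_lit 8) (.nd (nat_lit 9) 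
(.lf (nat_lit 494659) (.g (nat_lit 2372) (.e (nat_lit 163891) (nat_lit 8) (.e (nat_lit 253991) (nat_lit 11) (.e (nat_lit 16425) (nat_lit 7) (.e (nat_lit 409649) (nat_lit 18) (.e (nat_lit 303140) (nat_lit 10) .nil))))) (.g (nat_lit 0) (.e (nat_lit 152197) (nat_lit 0) .nil) .nil))) 
(.lf (nat_lit 495171) (.g (nat_lit 2878) (.e (nat_lit 163902) (nat_lit 12) (.e (nat_lit 426568) (nat_lit 34) (.e (nat_lit 393271) (nat_lit 23) (.e (nat_lit 426436) (nat_lit 18) (.e (nat_lit 98333) (nat_lit 18) (.e (nat_lit 164331) (nat_lit 230) .nil)))))) (.g (nat_lit 1) (.e (nat_lit 153506) (nat_lit 0) .nil) .nil)))) (.nd (nat_lit 9) 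
(.lf (nat_lit 494915) (.g (nat_lit 2371) (.e (nat_lit 163902) (nat_lit 12) (.e (nat_lit 426479) (nat_lit 27) (.e (nat_lit 336430) (nat_lit 29) (.e (nat_lit 442427) (nat_lit 23) (.e (nat_lit 204830) (nat_lit 18) (.e (nat_lit 57685) (nat_lit 156) .nil)))))) (.g (nat_lit 1) (.e (nat_lit 153202) (nat_lit 0) .nil) .nil))) 
(.lf (nat_lit 495427) (.g (nat_lit 2900) (.e (nat_lit 163903) (nat_lit 12) (.e (nat_lit 426481) (nat_lit 27) (.e (nat_lit 336389) (nat_lit 27) (.e (nat_lit 426308) (nat_lit 12) (.e (nat_lit 475177) (nat_lit 24) (.e (nat_lit 516119) (nat_lit 1) (.e (nat_lit 164325) (nat_lit 230) .nil))))))) (.g (nat_lit 1) (.e (nat_lit 153840) (nat_lit 0) .nil) .nil))))) (.nd (nat_lit 8) (.nd (nat_lit 9) 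
(.lf (nat_lit 494787) (.g (nat_lit 1519) (.e (nat_lit 163902) (nat_lit 12) (.e (nat_lit 426428) (nat_lit 17) (.e (nat_lit 90170) (nat_lit 13) (.e (nat_lit 172122) (nat_lit 13) .nil)))) (.g (nat_lit 0) (.e (nat_lit 153058) (nat_lit 0) .nil) .nil))) 
(.lf (nat_lit 495299) (.g (nat_lit 4238) (.e (nat_lit 163902) (nat_lit 12) (.e (nat_lit 426568) (nat_lit 34) (.e (nat_lit 393294) (nat_lit 26) (.e (nat_lit 475179) (nat_lit 24) (.e (nat_lit 516117) (nat_lit 1) (.e (nat_lit 164332) (nat_lit 230) .nil)))))) (.g (nat_lit 1) (.e (nat_lit 153645) (nat_lit 0) .nil) .nil)))) (.nd (nat_lit 9) 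
(.lf (nat_lit 495043) (.g (nat_lit 3513) (.e (nat_lit 163902) (nat_lit 12) (.e (nat_lit 426566) (nat_lit 34) (.e (nat_lit 393291) (nat_lit 26) (.e (nat_lit 475177) (nat_lit 24) (.e (nat_lit 516115) (nat_lit 1) (.e (nat_lit 164331) (nat_lit 230) .nil)))))) (.g (nat_lit 1) (.e (nat_lit 153368) (nat_lit 0) .nil) .nil))) 
(.lf (nat_lit 495555) (.g (nat_lit 3467) (.e (nat_lit 163903) (nat_lit 12) (.e (nat_lit 426567) (nat_lit 34) (.e (nat_lit 393271) (nat_lit 23) (.e (nat_lit 426436) (nat_lit 18) (.e (nat_lit 98335) (nat_lit 18) (.e (nat_lit 164327) (nat_lit 230) .nil)))))) (.g (nat_lit 1) (.e (nat_lit 153973) (nat_lit 0) .nil) .nil))))))) (.nd (nat_lit 6) (.nd (nat_lit 7) (.nd (nat_lit 8) (.nd (nat_lit 9) 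
(.lf (nat_lit 494627) (.g (nat_lit 2436) (.e (nat_lit 163886) (nat_lit 5) (.e (nat_lit 221193) (nat_lit 11) (.e (nat_lit 336077) (nat_lit 9) (.e (nat_lit 336443) (nat_lit 32) (.e (nat_lit 466969) (nat_lit 21) (.e (nat_lit 164325) (nat_lit 230) .nil)))))) (.g (nat_lit 1) (.e (nat_lit 152101) (nat_lit 0) .nil) .nil))) 
(.lf (nat_lit 495139) (.g (nat_lit 3224) (.e (nat_lit 163902) (nat_lit 12) (.e (nat_lit 426568) (nat_lit 34) (.e (nat_lit 393267) (nat_lit 23) (.e (nat_lit 426436) (nat_lit 18) (.e (nat_lit 98333) (nat_lit 18) (.e (nat_lit 164332) (nat_lit 230) .nil)))))) (.g (nat_lit 1) (.e (nat_lit 153474) (nat_lit 0) .nil) .nil)))) (.nd (nat_lit 9) 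
(.lf (nat_lit 494883) (.g (nat_lit 2568) (.e (nat_lit 163902) (nat_lit 12) (.e (nat_lit 426438) (nat_lit 18) (.e (nat_lit 98381) (nat_lit 31) (.e (nat_lit 466972) (nat_lit 21) (.e (nat_lit 164183) (nat_lit 154) (.e (nat_lit 65280) (nat_lit 62) (.e (nat_lit 164332) (nat_lit 230) .nil))))))) (.g (nat_lit 1) (.e (nat_lit 153164) (nat_lit 0) .nil) .nil))) 
(.lf (nat_lit 495395) (.g (nat_lit 2457) (.e (nat_lit 163903) (nat_lit 12) (.e (nat_lit 426479) (nat_lit 27) (.e (nat_lit 336430) (nat_lit 29) (.e (nat_lit 442427) (nat_lit 23) (.e (nat_lit 204830) (nat_lit 18) (.e (nat_lit 57685) (nat_lit 156) .nil)))))) (.g (nat_lit 1) (.e (nat_lit 153802) (nat_lit 0) .nil) .nil))))) (.nd (nat_lit 8) (.nd (nat_lit 9) 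
(.lf (nat_lit 494755) (.g (nat_lit 1123) (.e (nat_lit 163901) (nat_lit 12) (.e (nat_lit 426428) (nat_lit 17) (.e (nat_lit 90178) (nat_lit 15) (.e (nat_lit 188421) (nat_lit 11) .nil)))) (.g (nat_lit 0) (.e (nat_lit 152952) (nat_lit 0) .nil) .nil))) 
(.lf (nat_lit 495267) (.g (nat_lit 3337) (.e (nat_lit 163902) (nat_lit 12) (.e (nat_lit 426568) (nat_lit 34) (.e (nat_lit 393293) (nat_lit 26) (.e (nat_lit 475179) (nat_lit 24) (.e (nat_lit 516117) (nat_lit 1) (.e (nat_lit 164332) (nat_lit 230) .nil)))))) (.g (nat_lit 1) (.e (nat_lit 153613) (nat_lit 0) .nil) .nil)))) (.nd (nat_lit 9) 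
(.lf (nat_lit 495011) (.g (nat_lit 3269) (.e (nat_lit 163902) (nat_lit 12) (.e (nat_lit 426566) (nat_lit 34) (.e (nat_lit 393272) (nat_lit 23) (.e (nat_lit 426436) (nat_lit 18) (.e (nat_lit 98333) (nat_lit 18) (.e (nat_lit 164332) (nat_lit 230) .nil)))))) (.g (nat_lit 1) (.e (nat_lit 153335) (nat_lit 0) .nil) .nil))) 
(.lf (nat_lit 495523) (.g (nat_lit 3535) (.e (nat_lit 163903) (nat_lit 12) (.e (nat_lit 426566) (nat_lit 34) (.e (nat_lit 393293) (nat_lit 26) (.e (nat_lit 475179) (nat_lit 24) (.e (nat_lit 516119) (nat_lit 1) (.e (nat_lit 164326) (nat_lit 230) .nil)))))) (.g (nat_lit 1) (.e (nat_lit 153940) (nat_lit 0) .nil) .nil)))))) (.nd (nat_lit 7) (.nd (nat_lit 8) (.nd (nat_lit 9) 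
(.lf (nat_lit 494691) (.g (nat_lit 4529) (.e (nat_lit 163900) (nat_lit 12) (.e (nat_lit 426125) (nat_lit 2) (.e (nat_lit 196666) (nat_lit 13) (.e (nat_lit 65617) (nat_lit 10) (.e (nat_lit 344127) (nat_lit 26) (.e (nat_lit 557090) (nat_lit 12) (.e (nat_lit 163843) (nat_lit 0) (.e (nat_lit 6416) (nat_lit 341) .nil)))))))) (.g (nat_lit 1) (.e (nat_lit 152811) (nat_lit 0) .nil) .nil))) 
(.lf (nat_lit 495203) (.g (nat_lit 2284) (.e (nat_lit 163902) (nat_lit 12) (.e (nat_lit 426568) (nat_lit 34) (.e (nat_lit 393282) (nat_lit 24) (.e (nat_lit 434231) (nat_lit 23) (.e (nat_lit 532502) (nat_lit 1) (.e (nat_lit 57686) (nat_lit 156) .nil)))))) (.g (nat_lit 1) (.e (nat_lit 153542) (nat_lit 0) .nil) .nil)))) (.nd (nat_lit 9) 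
(.lf (nat_lit 494947) (.g (nat_lit 2152) (.e (nat_lit 163902) (nat_lit 12) (.e (nat_lit 426544) (nat_lit 30) (.e (nat_lit 360467) (nat_lit 3) (.e (nat_lit 516195) (nat_lit 26) (.e (nat_lit 335986) (nat_lit 1) (.e (nat_lit 57930) (nat_lit 282) .nil)))))) (.g (nat_lit 1) (.e (nat_lit 153245) (nat_lit 0) .nil) .nil))) 
(.lf (nat_lit 495459) (.g (nat_lit 402) (.e (nat_lit 163903) (nat_lit 12) (.e (nat_lit 426555) (nat_lit 32) (.e (nat_lit 376867) (nat_lit 23) .nil))) (.g (nat_lit 0) (.e (nat_lit 153875) (nat_lit 0) .nil) .nil))))) (.nd (nat_lit 8) (.nd (nat_lit 9) 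
(.lf (nat_lit 494819) (.g (nat_lit 2939) (.e (nat_lit 163902) (nat_lit 12) (.e (nat_lit 426437) (nat_lit 18) (.e (nat_lit 98365) (nat_lit 26) (.e (nat_lit 426325) (nat_lit 13) (.e (nat_lit 483363) (nat_lit 18) (.e (nat_lit 57688) (nat_lit 156) .nil)))))) (.g (nat_lit 1) (.e (nat_lit 153097) (nat_lit 0) .nil) .nil))) 
(.lf (nat_lit 495331) (.g (nat_lit 3545) (.e (nat_lit 163903) (nat_lit 12) (.e (nat_lit 426436) (nat_lit 18) (.e (nat_lit 98358) (nat_lit 26) (.e (nat_lit 426323) (nat_lit 13) (.e (nat_lit 483365) (nat_lit 18) (.e (nat_lit 57687) (nat_lit 156) .nil)))))) (.g (nat_lit 1) (.e (nat_lit 153727) (nat_lit 0) .nil) .nil)))) (.nd (nat_lit 9) 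
(.lf (nat_lit 495075) (.g (nat_lit 2997) (.e (nat_lit 163902) (nat_lit 12) (.e (nat_lit 426566) (nat_lit 34) (.e (nat_lit 393294) (nat_lit 26) (.e (nat_lit 475177) (nat_lit 24) (.e (nat_lit 516115) (nat_lit 1) (.e (nat_lit 164329) (nat_lit 230) .nil)))))) (.g (nat_lit 1) (.e (nat_lit 153400) (nat_lit 0) .nil) .nil))) 
(.lf (nat_lit 495587) (.g (nat_lit 2546) (.e (nat_lit 163903) (nat_lit 12) (.e (nat_lit 426568) (nat_lit 34) (.e (nat_lit 393271) (nat_lit 23) (.e (nat_lit 426131) (nat_lit 3) (.e (nat_lit 204831) (nat_lit 18) (.e (nat_lit 57685) (nat_lit 156) .nil)))))) (.g (nat_lit 1) (.e (nat_lit 154007) (nat_lit 0) .nil) .nil)))))))) 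
(.nd (nat_lit 5) (.nd (nat_lit 6) (.nd (nat_lit 7) (.nd (nat_lit 8) (.nd (nat_lit 9) 
(.lf (nat_lit 494611) (.g (nat_lit 1706) (.e (nat_lit 163886) (nat_lit 5) (.e (nat_lit 221190) (nat_lit 11) (.e (nat_lit 336076) (nat_lit 9) (.e (nat_lit 336443) (nat_lit 32) (.e (nat_lit 466969) (nat_lit 21) (.e (nat_lit 164327) (nat_lit 230) .nil)))))) (.g (nat_lit 1) (.e (nat_lit 152085) (nat_lit 0) .nil) .nil))) 
(.lf (nat_lit 495123) (.g (nat_lit 3620) (.e (nat_lit 163902) (nat_lit 12) (.e (nat_lit 426567) (nat_lit 34) (.e (nat_lit 393271) (nat_lit 23) (.e (nat_lit 426436) (nat_lit 18) (.e (nat_lit 98335) (nat_lit 18) (.e (nat_lit 164330) (nat_lit 230) .nil)))))) (.g (nat_lit 1) (.e (nat_lit 153449) (nat_lit 0) .nil) .nil)))) (.nd (nat_lit 9) 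
(.lf (nat_lit 494867) (.g (nat_lit 2635) (.e (nat_lit 163902) (nat_lit 12) (.e (nat_lit 426438) (nat_lit 18) (.e (nat_lit 98373) (nat_lit 29) (.e (nat_lit 450568) (nat_lit 0) (.e (nat_lit 7936) (nat_lit 369) (.e (nat_lit 163864) (nat_lit 1) (.e (nat_lit 164329) (nat_lit 230) .nil))))))) (.g (nat_lit 1) (.e (nat_lit 153147) (nat_lit 0) .nil) .nil))) 
(.lf (nat_lit 495379) (.g (nat_lit 2580) (.e (nat_lit 163903) (nat_lit 12) (.e (nat_lit 426478) (nat_lit 27) (.e (nat_lit 336389) (nat_lit 27) (.e (nat_lit 426308) (nat_lit 12) (.e (nat_lit 475175) (nat_lit 24) (.e (nat_lit 516119) (nat_lit 1) (.e (nat_lit 164326) (nat_lit 230) .nil))))))) (.g (nat_lit 1) (.e (nat_lit 153783) (nat_lit 0) .nil) .nil))))) (.nd (nat_lit 8) (.nd (nat_lit 9) 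
(.lf (nat_lit 494739) (.g (nat_lit 1697) (.e (nat_lit 163900) (nat_lit 12) (.e (nat_lit 426317) (nat_lit 12) (.e (nat_lit 475198) (nat_lit 40) (.e (nat_lit 704599) (nat_lit 6) (.e (nat_lit 188453) (nat_lit 24) (.e (nat_lit 229680) (nat_lit 244) .nil)))))) (.g (nat_lit 1) (.e (nat_lit 152881) (nat_lit 0) .nil) .nil))) 
(.lf (nat_lit 495251) (.g (nat_lit 1918) (.e (nat_lit 163902) (nat_lit 12) (.e (nat_lit 426568) (nat_lit 34) (.e (nat_lit 393292) (nat_lit 26) (.e (nat_lit 475177) (nat_lit 24) (.e (nat_lit 516120) (nat_lit 1) (.e (nat_lit 164329) (nat_lit 230) .nil)))))) (.g (nat_lit 1) (.e (nat_lit 153597) (nat_lit 0) .nil) .nil)))) (.nd (nat_lit 9) 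
(.lf (nat_lit 494995) (.g (nat_lit 3719) (.e (nat_lit 163902) (nat_lit 12) (.e (nat_lit 426566) (nat_lit 34) (.e (nat_lit 393271) (nat_lit 23) (.e (nat_lit 426131) (nat_lit 3) (.e (nat_lit 204829) (nat_lit 18) (.e (nat_lit 57688) (nat_lit 156) .nil)))))) (.g (nat_lit 1) (.e (nat_lit 153319) (nat_lit 0) .nil) .nil))) 
(.lf (nat_lit 495507) (.g (nat_lit 2408) (.e (nat_lit 163903) (nat_lit 12) (.e (nat_lit 426566) (nat_lit 34) (.e (nat_lit 393289) (nat_lit 25) (.e (nat_lit 458789) (nat_lit 23) (.e (nat_lit 532499) (nat_lit 1) (.e (nat_lit 57688) (nat_lit 156) .nil)))))) (.g (nat_lit 1) (.e (nat_lit 153924) (nat_lit 0) .nil) .nil)))))) (.nd (nat_lit 7) (.nd (nat_lit 8) (.nd (nat_lit 9) 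
(.lf (nat_lit 494675) (.g (nat_lit 1666) (.e (nat_lit 163896) (nat_lit 10) (.e (nat_lit 409602) (nat_lit 0) (.e (nat_lit 5293) (nat_lit 298) (.e (nat_lit 1656) (nat_lit 115) (.e (nat_lit 393265) (nat_lit 22) .nil))))) (.g (nat_lit 0) (.e (nat_lit 152355) (nat_lit 0) .nil) .nil))) 
(.lf (nat_lit 495187) (.g (nat_lit 2899) (.e (nat_lit 163902) (nat_lit 12) (.e (nat_lit 426568) (nat_lit 34) (.e (nat_lit 393271) (nat_lit 23) (.e (nat_lit 426438) (nat_lit 18) (.e (nat_lit 98335) (nat_lit 18) (.e (nat_lit 164324) (nat_lit 230) .nil)))))) (.g (nat_lit 1) (.e (nat_lit 153522) (nat_lit 0) .nil) .nil)))) (.nd (nat_lit 9) 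
(.lf (nat_lit 494931) (.g (nat_lit 2734) (.e (nat_lit 163902) (nat_lit 12) (.e (nat_lit 426481) (nat_lit 27) (.e (nat_lit 336389) (nat_lit 27) (.e (nat_lit 426308) (nat_lit 12) (.e (nat_lit 475177) (nat_lit 24) (.e (nat_lit 516120) (nat_lit 1) (.e (nat_lit 164329) (nat_lit 230) .nil))))))) (.g (nat_lit 1) (.e (nat_lit 153229) (nat_lit 0) .nil) .nil))) 
(.lf (nat_lit 495443) (.g (nat_lit 2871) (.e (nat_lit 163903) (nat_lit 12) (.e (nat_lit 426538) (nat_lit 29) (.e (nat_lit 352315) (nat_lit 23) (.e (nat_lit 98317) (nat_lit 9) (.e (nat_lit 335986) (nat_lit 1) (.e (nat_lit 57927) (nat_lit 282) .nil)))))) (.g (nat_lit 1) (.e (nat_lit 153857) (nat_lit 0) .nil) .nil))))) (.nd (nat_lit 8) (.nd (nat_lit 9) 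
(.lf (nat_lit 494803) (.g (nat_lit 3743) (.e (nat_lit 163902) (nat_lit 12) (.e (nat_lit 426436) (nat_lit 18) (.e (nat_lit 98335) (nat_lit 18) (.e (nat_lit 164332) (nat_lit 230) .nil)))) (.g (nat_lit 0) (.e (nat_lit 153075) (nat_lit 0) .nil) .nil))) 
(.lf (nat_lit 495315) (.g (nat_lit 3613) (.e (nat_lit 163903) (nat_lit 12) (.e (nat_lit 426428) (nat_lit 17) (.e (nat_lit 90170) (nat_lit 13) (.e (nat_lit 172122) (nat_lit 13) (.e (nat_lit 483363) (nat_lit 18) (.e (nat_lit 57686) (nat_lit 156) .nil)))))) (.g (nat_lit 1) (.e (nat_lit 153710) (nat_lit 0) .nil) .nil)))) (.nd (nat_lit 9) 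
(.lf (nat_lit 495059) (.g (nat_lit 4054) (.e (nat_lit 163902) (nat_lit 12) (.e (nat_lit 426566) (nat_lit 34) (.e (nat_lit 393292) (nat_lit 26) (.e (nat_lit 475179) (nat_lit 24) (.e (nat_lit 516117) (nat_lit 1) (.e (nat_lit 164332) (nat_lit 230) .nil)))))) (.g (nat_lit 1) (.e (nat_lit 153384) (nat_lit 0) .nil) .nil))) 
(.lf (nat_lit 495571) (.g (nat_lit 2850) (.e (nat_lit 163903) (nat_lit 12) (.e (nat_lit 426568) (nat_lit 34) (.e (nat_lit 393267) (nat_lit 23) (.e (nat_lit 426438) (nat_lit 18) (.e (nat_lit 98335) (nat_lit 18) (.e (nat_lit 164326) (nat_lit 230) .nil)))))) (.g (nat_lit 1) (.e (nat_lit 153991) (nat_lit 0) .nil) .nil))))))) (.nd (nat_lit 6) (.nd (nat_lit 7) (.nd (nat_lit 8) (.nd (nat_lit 9) 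
(.lf (nat_lit 494643) (.g (nat_lit 1547) (.e (nat_lit 163886) (nat_lit 5) (.e (nat_lit 221194) (nat_lit 11) (.e (nat_lit 336086) (nat_lit 9) (.e (nat_lit 336444) (nat_lit 32) (.e (nat_lit 466971) (nat_lit 21) (.e (nat_lit 164324) (nat_lit 230) .nil)))))) (.g (nat_lit 1) (.e (nat_lit 152119) (nat_lit 0) .nil) .nil))) 
(.lf (nat_lit 495155) (.g (nat_lit 2099) (.e (nat_lit 163902) (nat_lit 12) (.e (nat_lit 426568) (nat_lit 34) (.e (nat_lit 393270) (nat_lit 23) (.e (nat_lit 426436) (nat_lit 18) (.e (nat_lit 98334) (nat_lit 18) (.e (nat_lit 164329) (nat_lit 230) .nil)))))) (.g (nat_lit 1) (.e (nat_lit 153490) (nat_lit 0) .nil) .nil)))) (.nd (nat_lit 9) 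
(.lf (nat_lit 494899) (.g (nat_lit 2707) (.e (nat_lit 163902) (nat_lit 12) (.e (nat_lit 426478) (nat_lit 27) (.e (nat_lit 336389) (nat_lit 27) (.e (nat_lit 426308) (nat_lit 12) (.e (nat_lit 475178) (nat_lit 24) (.e (nat_lit 516120) (nat_lit 1) (.e (nat_lit 164329) (nat_lit 230) .nil))))))) (.g (nat_lit 1) (.e (nat_lit 153180) (nat_lit 0) .nil) .nil))) 
(.lf (nat_lit 495411) (.g (nat_lit 1449) (.e (nat_lit 163903) (nat_lit 12) (.e (nat_lit 426479) (nat_lit 27) (.e (nat_lit 336443) (nat_lit 32) (.e (nat_lit 466978) (nat_lit 23) .nil)))) (.g (nat_lit 0) (.e (nat_lit 153818) (nat_lit 0) .nil) .nil))))) (.nd (nat_lit 8) (.nd (nat_lit 9) 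
(.lf (nat_lit 494771) (.g (nat_lit 2137) (.e (nat_lit 163901) (nat_lit 12) (.e (nat_lit 426566) (nat_lit 34) (.e (nat_lit 393294) (nat_lit 26) (.e (nat_lit 475177) (nat_lit 24) (.e (nat_lit 516119) (nat_lit 1) (.e (nat_lit 164327) (nat_lit 230) .nil)))))) (.g (nat_lit 1) (.e (nat_lit 152983) (nat_lit 0) .nil) .nil))) 
(.lf (nat_lit 495283) (.g (nat_lit 4113) (.e (nat_lit 163902) (nat_lit 12) (.e (nat_lit 426568) (nat_lit 34) (.e (nat_lit 393294) (nat_lit 26) (.e (nat_lit 475177) (nat_lit 24) (.e (nat_lit 516117) (nat_lit 1) (.e (nat_lit 164332) (nat_lit 230) .nil)))))) (.g (nat_lit 1) (.e (nat_lit 153629) (nat_lit 0) .nil) .nil)))) (.nd (nat_lit 9) 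
(.lf (nat_lit 495027) (.g (nat_lit 2584) (.e (nat_lit 163902) (nat_lit 12) (.e (nat_lit 426566) (nat_lit 34) (.e (nat_lit 393285) (nat_lit 25) (.e (nat_lit 458789) (nat_lit 23) (.e (nat_lit 532503) (nat_lit 1) (.e (nat_lit 57688) (nat_lit 156) .nil)))))) (.g (nat_lit 1) (.e (nat_lit 153351) (nat_lit 0) .nil) .nil))) 
(.lf (nat_lit 495539) (.g (nat_lit 2114) (.e (nat_lit 163903) (nat_lit 12) (.e (nat_lit 426566) (nat_lit 34) (.e (nat_lit 393296) (nat_lit 26) (.e (nat_lit 475176) (nat_lit 24) (.e (nat_lit 516118) (nat_lit 1) (.e (nat_lit 164327) (nat_lit 230) .nil)))))) (.g (nat_lit 1) (.e (nat_lit 153957) (nat_lit 0) .nil) .nil)))))) (.nd (nat_lit 7) (.nd (nat_lit 8) (.nd (nat_lit 9) 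
(.lf (nat_lit 494707) (.g (nat_lit 2958) (.e (nat_lit 163900) (nat_lit 12) (.e (nat_lit 426125) (nat_lit 2) (.e (nat_lit 196666) (nat_lit 13) (.e (nat_lit 65617) (nat_lit 10) (.e (nat_lit 344133) (nat_lit 26) (.e (nat_lit 557089) (nat_lit 12) (.e (nat_lit 163848) (nat_lit 0) (.e (nat_lit 6421) (nat_lit 341) .nil)))))))) (.g (nat_lit 1) (.e (nat_lit 152827) (nat_lit 0) .nil) .nil))) 
(.lf (nat_lit 495219) (.g (nat_lit 2792) (.e (nat_lit 163902) (nat_lit 12) (.e (nat_lit 426568) (nat_lit 34) (.e (nat_lit 393286) (nat_lit 25) (.e (nat_lit 458789) (nat_lit 23) (.e (nat_lit 532502) (nat_lit 1) (.e (nat_lit 57686) (nat_lit 156) .nil)))))) (.g (nat_lit 1) (.e (nat_lit 153565) (nat_lit 0) .nil) .nil)))) (.nd (nat_lit 9) 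
(.lf (nat_lit 494963) (.g (nat_lit 816) (.e (nat_lit 163902) (nat_lit 12) (.e (nat_lit 426555) (nat_lit 32) (.e (nat_lit 376866) (nat_lit 23) .nil))) (.g (nat_lit 0) (.e (nat_lit 153280) (nat_lit 0) .nil) .nil))) 
(.lf (nat_lit 495475) (.g (nat_lit 712) (.e (nat_lit 163903) (nat_lit 12) (.e (nat_lit 426566) (nat_lit 34) (.e (nat_lit 393269) (nat_lit 23) .nil))) (.g (nat_lit 0) (.e (nat_lit 153892) (nat_lit 0) .nil) .nil))))) (.nd (nat_lit 8) (.nd (nat_lit 9) 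
(.lf (nat_lit 494835) (.g (nat_lit 2611) (.e (nat_lit 163902) (nat_lit 12) (.e (nat_lit 426438) (nat_lit 18) (.e (nat_lit 98370) (nat_lit 28) (.e (nat_lit 442385) (nat_lit 11) (.e (nat_lit 335995) (nat_lit 1) (.e (nat_lit 57688) (nat_lit 156) .nil)))))) (.g (nat_lit 1) (.e (nat_lit 153115) (nat_lit 0) .nil) .nil))) 
(.lf (nat_lit 495347) (.g (nat_lit 3200) (.e (nat_lit 163903) (nat_lit 12) (.e (nat_lit 426438) (nat_lit 18) (.e (nat_lit 98358) (nat_lit 26) (.e (nat_lit 426323) (nat_lit 13) (.e (nat_lit 483363) (nat_lit 18) (.e (nat_lit 57687) (nat_lit 156) .nil)))))) (.g (nat_lit 1) (.e (nat_lit 153744) (nat_lit 0) .nil) .nil)))) (.nd (nat_lit 9) 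
(.lf (nat_lit 495091) (.g (nat_lit 3884) (.e (nat_lit 163902) (nat_lit 12) (.e (nat_lit 426566) (nat_lit 34) (.e (nat_lit 393294) (nat_lit 26) (.e (nat_lit 475179) (nat_lit 24) (.e (nat_lit 516120) (nat_lit 1) (.e (nat_lit 164331) (nat_lit 230) .nil)))))) (.g (nat_lit 1) (.e (nat_lit 153416) (nat_lit 0) .nil) .nil))) 
(.lf (nat_lit 495603) (.g (nat_lit 3288) (.e (nat_lit 163903) (nat_lit 12) (.e (nat_lit 426568) (nat_lit 34) (.e (nat_lit 393271) (nat_lit 23) (.e (nat_lit 426438) (nat_lit 18) (.e (nat_lit 98335) (nat_lit 18) (.e (nat_lit 164327) (nat_lit 230) .nil)))))) (.g (nat_lit 1) (.e (nat_lit 154023) (nat_lit 0) .nil) .nil))))))))) 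
(.nd (nat_lit 4) (.nd (nat_lit 5) (.nd (nat_lit 6) (.nd (nat_lit 7) (.nd (nat_lit 8) 
(.nd (nat_lit 9) 
(.lf (nat_lit 494603) (.g (nat_lit 1082) (.e (nat_lit 163885) (nat_lit 5) (.e (nat_lit 221212) (nat_lit 22) (.e (nat_lit 196653) (nat_lit 11) (.e (nat_lit 16458) (nat_lit 12) .nil)))) (.g (nat_lit 0) (.e (nat_lit 152047) (nat_lit 0) .nil) .nil))) 
(.lf (nat_lit 495115) (.g (nat_lit 2357) (.e (nat_lit 163902) (nat_lit 12) (.e (nat_lit 426566) (nat_lit 34) (.e (nat_lit 393296) (nat_lit 26) (.e (nat_lit 475179) (nat_lit 24) (.e (nat_lit 516116) (nat_lit 1) (.e (nat_lit 164332) (nat_lit 230) .nil)))))) (.g (nat_lit 1) (.e (nat_lit 153440) (nat_lit 0) .nil) .nil)))) (.nd (nat_lit 9) 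
(.lf (nat_lit 494859) (.g (nat_lit 4109) (.e (nat_lit 163902) (nat_lit 12) (.e (nat_lit 426438) (nat_lit 18) (.e (nat_lit 98373) (nat_lit 29) (.e (nat_lit 450563) (nat_lit 0) (.e (nat_lit 6839) (nat_lit 369) (.e (nat_lit 163860) (nat_lit 1) (.e (nat_lit 164330) (nat_lit 230) .nil))))))) (.g (nat_lit 1) (.e (nat_lit 153139) (nat_lit 0) .nil) .nil))) 
(.lf (nat_lit 495371) (.g (nat_lit 2985) (.e (nat_lit 163903) (nat_lit 12) (.e (nat_lit 426438) (nat_lit 18) (.e (nat_lit 98380) (nat_lit 31) (.e (nat_lit 466954) (nat_lit 11) (.e (nat_lit 335986) (nat_lit 1) (.e (nat_lit 57688) (nat_lit 156) .nil)))))) (.g (nat_lit 1) (.e (nat_lit 153775) (nat_lit 0) .nil) .nil))))) (.nd (nat_lit 8) (.nd (nat_lit 9) 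
(.lf (nat_lit 494731) (.g (nat_lit 4424) (.e (nat_lit 163900) (nat_lit 12) (.e (nat_lit 426140) (nat_lit 3) (.e (nat_lit 204869) (nat_lit 29) (.e (nat_lit 360475) (nat_lit 8) (.e (nat_lit 557089) (nat_lit 12) (.e (nat_lit 163843) (nat_lit 0) (.e (nat_lit 6421) (nat_lit 341) .nil))))))) (.g (nat_lit 1) (.e (nat_lit 152869) (nat_lit 0) .nil) .nil))) 
(.lf (nat_lit 495243) (.g (nat_lit 2844) (.e (nat_lit 163902) (nat_lit 12) (.e (nat_lit 426568) (nat_lit 34) (.e (nat_lit 393291) (nat_lit 26) (.e (nat_lit 475179) (nat_lit 24) (.e (nat_lit 516117) (nat_lit 1) (.e (nat_lit 164330) (nat_lit 230) .nil)))))) (.g (nat_lit 1) (.e (nat_lit 153589) (nat_lit 0) .nil) .nil)))) (.nd (nat_lit 9) 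
(.lf (nat_lit 494987) (.g (nat_lit 3219) (.e (nat_lit 163902) (nat_lit 12) (.e (nat_lit 426566) (nat_lit 34) (.e (nat_lit 393270) (nat_lit 23) (.e (nat_lit 426436) (nat_lit 18) (.e (nat_lit 98333) (nat_lit 18) (.e (nat_lit 164332) (nat_lit 230) .nil)))))) (.g (nat_lit 1) (.e (nat_lit 153311) (nat_lit 0) .nil) .nil))) 
(.lf (nat_lit 495499) (.g (nat_lit 2465) (.e (nat_lit 163903) (nat_lit 12) (.e (nat_lit 426566) (nat_lit 34) (.e (nat_lit 393284) (nat_lit 24) (.e (nat_lit 434233) (nat_lit 23) (.e (nat_lit 532499) (nat_lit 1) (.e (nat_lit 57688) (nat_lit 156) .nil)))))) (.g (nat_lit 1) (.e (nat_lit 153916) (nat_lit 0) .nil) .nil)))))) (.nd (nat_lit 7) (.nd (nat_lit 8) (.nd (nat_lit 9) 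
(.lf (nat_lit 494667) (.g (nat_lit 774) (.e (nat_lit 163896) (nat_lit 10) (.e (nat_lit 409602) (nat_lit 0) (.e (nat_lit 5629) (nat_lit 312) .nil))) (.g (nat_lit 0) (.e (nat_lit 152341) (nat_lit 0) .nil) .nil))) 
(.lf (nat_lit 495179) (.g (nat_lit 4477) (.e (nat_lit 163902) (nat_lit 12) (.e (nat_lit 426568) (nat_lit 34) (.e (nat_lit 393271) (nat_lit 23) (.e (nat_lit 426436) (nat_lit 18) (.e (nat_lit 98335) (nat_lit 18) (.e (nat_lit 164330) (nat_lit 230) .nil)))))) (.g (nat_lit 1) (.e (nat_lit 153514) (nat_lit 0) .nil) .nil)))) (.nd (nat_lit 9) 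
(.lf (nat_lit 494923) (.g (nat_lit 2913) (.e (nat_lit 163902) (nat_lit 12) (.e (nat_lit 426482) (nat_lit 27) (.e (nat_lit 336389) (nat_lit 27) (.e (nat_lit 426308) (nat_lit 12) (.e (nat_lit 475179) (nat_lit 24) .nil))))) (.g (nat_lit 0) (.e (nat_lit 153221) (nat_lit 0) .nil) .nil))) 
(.lf (nat_lit 495435) (.g (nat_lit 2571) (.e (nat_lit 163903) (nat_lit 12) (.e (nat_lit 426538) (nat_lit 29) (.e (nat_lit 352315) (nat_lit 23) (.e (nat_lit 98312) (nat_lit 9) (.e (nat_lit 335988) (nat_lit 1) (.e (nat_lit 57926) (nat_lit 282) .nil)))))) (.g (nat_lit 1) (.e (nat_lit 153849) (nat_lit 0) .nil) .nil))))) (.nd (nat_lit 8) (.nd (nat_lit 9) 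
(.lf (nat_lit 494795) (.g (nat_lit 1328) (.e (nat_lit 163902) (nat_lit 12) (.e (nat_lit 426428) (nat_lit 17) (.e (nat_lit 90172) (nat_lit 14) (.e (nat_lit 180291) (nat_lit 48) .nil)))) (.g (nat_lit 0) (.e (nat_lit 153066) (nat_lit 0) .nil) .nil))) 
(.lf (nat_lit 495307) (.g (nat_lit 363) (.e (nat_lit 163903) (nat_lit 12) (.e (nat_lit 426428) (nat_lit 17) (.e (nat_lit 90170) (nat_lit 13) .nil))) (.g (nat_lit 0) (.e (nat_lit 153702) (nat_lit 0) .nil) .nil)))) (.nd (nat_lit 9) 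
(.lf (nat_lit 495051) (.g (nat_lit 2666) (.e (nat_lit 163902) (nat_lit 12) (.e (nat_lit 426566) (nat_lit 34) (.e (nat_lit 393291) (nat_lit 26) (.e (nat_lit 475178) (nat_lit 24) (.e (nat_lit 516120) (nat_lit 1) (.e (nat_lit 164329) (nat_lit 230) .nil)))))) (.g (nat_lit 1) (.e (nat_lit 153376) (nat_lit 0) .nil) .nil))) 
(.lf (nat_lit 495563) (.g (nat_lit 3197) (.e (nat_lit 163903) (nat_lit 12) (.e (nat_lit 426567) (nat_lit 34) (.e (nat_lit 393294) (nat_lit 26) (.e (nat_lit 475177) (nat_lit 24) (.e (nat_lit 516119) (nat_lit 1) (.e (nat_lit 164327) (nat_lit 230) .nil)))))) (.g (nat_lit 1) (.e (nat_lit 153981) (nat_lit 0) .nil) .nil))))))) (.nd (nat_lit 6) (.nd (nat_lit 7) (.nd (nat_lit 8) (.nd (nat_lit 9) 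
(.lf (nat_lit 494635) (.g (nat_lit 735) (.e (nat_lit 163886) (nat_lit 5) (.e (nat_lit 221194) (nat_lit 11) (.e (nat_lit 336075) (nat_lit 9) .nil))) (.g (nat_lit 0) (.e (nat_lit 152111) (nat_lit 0) .nil) .nil))) 
(.lf (nat_lit 495147) (.g (nat_lit 3294) (.e (nat_lit 163902) (nat_lit 12) (.e (nat_lit 426568) (nat_lit 34) (.e (nat_lit 393268) (nat_lit 23) (.e (nat_lit 426438) (nat_lit 18) (.e (nat_lit 98334) (nat_lit 18) (.e (nat_lit 164329) (nat_lit 230) .nil)))))) (.g (nat_lit 1) (.e (nat_lit 153482) (nat_lit 0) .nil) .nil)))) (.nd (nat_lit 9) 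
(.lf (nat_lit 494891) (.g (nat_lit 3136) (.e (nat_lit 163902) (nat_lit 12) (.e (nat_lit 426472) (nat_lit 25) (.e (nat_lit 319534) (nat_lit 16) (.e (nat_lit 286756) (nat_lit 10) (.e (nat_lit 344099) (nat_lit 18) (.e (nat_lit 7289) (nat_lit 386) (.e (nat_lit 163864) (nat_lit 1) (.e (nat_lit 164332) (nat_lit 230) .nil)))))))) (.g (nat_lit 1) (.e (nat_lit 153172) (nat_lit 0) .nil) .nil))) 
(.lf (nat_lit 495403) (.g (nat_lit 3289) (.e (nat_lit 163903) (nat_lit 12) (.e (nat_lit 426479) (nat_lit 27) (.e (nat_lit 336432) (nat_lit 30) (.e (nat_lit 450588) (nat_lit 10) (.e (nat_lit 573475) (nat_lit 12) (.e (nat_lit 65280) (nat_lit 0) (.e (nat_lit 5222) (nat_lit 296) .nil))))))) (.g (nat_lit 1) (.e (nat_lit 153810) (nat_lit 0) .nil) .nil))))) (.nd (nat_lit 8) (.nd (nat_lit 9) 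
(.lf (nat_lit 494763) (.g (nat_lit 3126) (.e (nat_lit 163901) (nat_lit 12) (.e (nat_lit 426566) (nat_lit 34) (.e (nat_lit 393291) (nat_lit 26) (.e (nat_lit 475177) (nat_lit 24) (.e (nat_lit 516117) (nat_lit 1) (.e (nat_lit 164330) (nat_lit 230) .nil)))))) (.g (nat_lit 1) (.e (nat_lit 152975) (nat_lit 0) .nil) .nil))) 
(.lf (nat_lit 495275) (.g (nat_lit 2536) (.e (nat_lit 163902) (nat_lit 12) (.e (nat_lit 426568) (nat_lit 34) (.e (nat_lit 393294) (nat_lit 26) (.e (nat_lit 475176) (nat_lit 24) (.e (nat_lit 516117) (nat_lit 1) (.e (nat_lit 164332) (nat_lit 230) .nil)))))) (.g (nat_lit 1) (.e (nat_lit 153621) (nat_lit 0) .nil) .nil)))) (.nd (nat_lit 9) 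
(.lf (nat_lit 495019) (.g (nat_lit 2000) (.e (nat_lit 163902) (nat_lit 12) (.e (nat_lit 426566) (nat_lit 34) (.e (nat_lit 393273) (nat_lit 23) (.e (nat_lit 426438) (nat_lit 18) (.e (nat_lit 98335) (nat_lit 18) .nil))))) (.g (nat_lit 0) (.e (nat_lit 153343) (nat_lit 0) .nil) .nil))) 
(.lf (nat_lit 495531) (.g (nat_lit 2418) (.e (nat_lit 163903) (nat_lit 12) (.e (nat_lit 426566) (nat_lit 34) (.e (nat_lit 393294) (nat_lit 26) (.e (nat_lit 475179) (nat_lit 24) (.e (nat_lit 516119) (nat_lit 1) (.e (nat_lit 164324) (nat_lit 230) .nil)))))) (.g (nat_lit 1) (.e (nat_lit 153949) (nat_lit 0) .nil) .nil)))))) (.nd (nat_lit 7) (.nd (nat_lit 8) (.nd (nat_lit 9) 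
(.lf (nat_lit 494699) (.g (nat_lit 3094) (.e (nat_lit 163900) (nat_lit 12) (.e (nat_lit 426125) (nat_lit 2) (.e (nat_lit 196666) (nat_lit 13) (.e (nat_lit 65617) (nat_lit 10) (.e (nat_lit 344132) (nat_lit 26) (.e (nat_lit 557093) (nat_lit 12) (.e (nat_lit 163847) (nat_lit 0) (.e (nat_lit 6420) (nat_lit 341) .nil)))))))) (.g (nat_lit 1) (.e (nat_lit 152819) (nat_lit 0) .nil) .nil))) 
(.lf (nat_lit 495211) (.g (nat_lit 1781) (.e (nat_lit 163902) (nat_lit 12) (.e (nat_lit 426568) (nat_lit 34) (.e (nat_lit 393283) (nat_lit 24) (.e (nat_lit 434232) (nat_lit 23) (.e (nat_lit 532503) (nat_lit 1) (.e (nat_lit 57686) (nat_lit 156) .nil)))))) (.g (nat_lit 1) (.e (nat_lit 153556) (nat_lit 0) .nil) .nil)))) (.nd (nat_lit 9) 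
(.lf (nat_lit 494955) (.g (nat_lit 3141) (.e (nat_lit 163902) (nat_lit 12) (.e (nat_lit 426546) (nat_lit 30) (.e (nat_lit 360466) (nat_lit 3) (.e (nat_lit 516195) (nat_lit 26) (.e (nat_lit 335995) (nat_lit 1) (.e (nat_lit 57931) (nat_lit 282) .nil)))))) (.g (nat_lit 1) (.e (nat_lit 153253) (nat_lit 0) .nil) .nil))) 
(.lf (nat_lit 495467) (.g (nat_lit 1804) (.e (nat_lit 163903) (nat_lit 12) (.e (nat_lit 426564) (nat_lit 34) (.e (nat_lit 393291) (nat_lit 26) (.e (nat_lit 475177) (nat_lit 24) (.e (nat_lit 516118) (nat_lit 1) .nil))))) (.g (nat_lit 0) (.e (nat_lit 153884) (nat_lit 0) .nil) .nil))))) (.nd (nat_lit 8) (.nd (nat_lit 9) 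
(.lf (nat_lit 494827) (.g (nat_lit 2052) (.e (nat_lit 163902) (nat_lit 12) (.e (nat_lit 426438) (nat_lit 18) (.e (nat_lit 98358) (nat_lit 26) (.e (nat_lit 426348) (nat_lit 14) .nil)))) (.g (nat_lit 0) (.e (nat_lit 153107) (nat_lit 0) .nil) .nil))) 
(.lf (nat_lit 495339) (.g (nat_lit 2659) (.e (nat_lit 163903) (nat_lit 12) (.e (nat_lit 426436) (nat_lit 18) (.e (nat_lit 98381) (nat_lit 31) (.e (nat_lit 466954) (nat_lit 11) (.e (nat_lit 335986) (nat_lit 1) (.e (nat_lit 57687) (nat_lit 156) .nil)))))) (.g (nat_lit 1) (.e (nat_lit 153736) (nat_lit 0) .nil) .nil)))) (.nd (nat_lit 9) 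
(.lf (nat_lit 495083) (.g (nat_lit 2941) (.e (nat_lit 163902) (nat_lit 12) (.e (nat_lit 426566) (nat_lit 34) (.e (nat_lit 393294) (nat_lit 26) (.e (nat_lit 475178) (nat_lit 24) (.e (nat_lit 516117) (nat_lit 1) (.e (nat_lit 164329) (nat_lit 230) .nil)))))) (.g (nat_lit 1) (.e (nat_lit 153408) (nat_lit 0) .nil) .nil))) 
(.lf (nat_lit 495595) (.g (nat_lit 2609) (.e (nat_lit 163903) (nat_lit 12) (.e (nat_lit 426568) (nat_lit 34) (.e (nat_lit 393271) (nat_lit 23) (.e (nat_lit 426436) (nat_lit 18) (.e (nat_lit 98333) (nat_lit 18) (.e (nat_lit 164326) (nat_lit 230) .nil)))))) (.g (nat_lit 1) (.e (nat_lit 154015) (nat_lit 0) .nil) .nil)))))))) 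
(.nd (nat_lit 5) (.nd (nat_lit 6) (.nd (nat_lit 7) (.nd (nat_lit 8) (.nd (nat_lit 9) 
(.lf (nat_lit 494619) (.g (nat_lit 1876) (.e (nat_lit 163886) (nat_lit 5) (.e (nat_lit 221191) (nat_lit 11) (.e (nat_lit 336152) (nat_lit 9) (.e (nat_lit 336442) (nat_lit 32) (.e (nat_lit 466969) (nat_lit 21) (.e (nat_lit 164324) (nat_lit 230) .nil)))))) (.g (nat_lit 1) (.e (nat_lit 152093) (nat_lit 0) .nil) .nil))) 
(.lf (nat_lit 495131) (.g (nat_lit 1808) (.e (nat_lit 163902) (nat_lit 12) (.e (nat_lit 426567) (nat_lit 34) (.e (nat_lit 393294) (nat_lit 26) (.e (nat_lit 475179) (nat_lit 24) (.e (nat_lit 516117) (nat_lit 1) .nil))))) (.g (nat_lit 0) (.e (nat_lit 153457) (nat_lit 0) .nil) .nil)))) (.nd (nat_lit 9) 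
(.lf (nat_lit 494875) (.g (nat_lit 1557) (.e (nat_lit 163902) (nat_lit 12) (.e (nat_lit 426438) (nat_lit 18) (.e (nat_lit 98380) (nat_lit 31) (.e (nat_lit 466954) (nat_lit 11) (.e (nat_lit 335985) (nat_lit 1) .nil))))) (.g (nat_lit 0) (.e (nat_lit 153156) (nat_lit 0) .nil) .nil))) 
(.lf (nat_lit 495387) (.g (nat_lit 2741) (.e (nat_lit 163903) (nat_lit 12) (.e (nat_lit 426478) (nat_lit 27) (.e (nat_lit 336389) (nat_lit 27) (.e (nat_lit 426308) (nat_lit 12) (.e (nat_lit 475179) (nat_lit 24) (.e (nat_lit 516119) (nat_lit 1) (.e (nat_lit 164325) (nat_lit 230) .nil))))))) (.g (nat_lit 1) (.e (nat_lit 153791) (nat_lit 0) .nil) .nil))))) (.nd (nat_lit 8) (.nd (nat_lit 9) 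
(.lf (nat_lit 494747) (.g (nat_lit 2231) (.e (nat_lit 163900) (nat_lit 12) (.e (nat_lit 426480) (nat_lit 27) (.e (nat_lit 336389) (nat_lit 27) (.e (nat_lit 426308) (nat_lit 12) (.e (nat_lit 475177) (nat_lit 24) .nil))))) (.g (nat_lit 0) (.e (nat_lit 152918) (nat_lit 0) .nil) .nil))) 
(.lf (nat_lit 495259) (.g (nat_lit 2681) (.e (nat_lit 163902) (nat_lit 12) (.e (nat_lit 426568) (nat_lit 34) (.e (nat_lit 393293) (nat_lit 26) (.e (nat_lit 475177) (nat_lit 24) (.e (nat_lit 516117) (nat_lit 1) (.e (nat_lit 164329) (nat_lit 230) .nil)))))) (.g (nat_lit 1) (.e (nat_lit 153605) (nat_lit 0) .nil) .nil)))) (.nd (nat_lit 9) 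
(.lf (nat_lit 495003) (.g (nat_lit 2961) (.e (nat_lit 163902) (nat_lit 12) (.e (nat_lit 426566) (nat_lit 34) (.e (nat_lit 393271) (nat_lit 23) (.e (nat_lit 426436) (nat_lit 18) (.e (nat_lit 98335) (nat_lit 18) (.e (nat_lit 164322) (nat_lit 230) .nil)))))) (.g (nat_lit 1) (.e (nat_lit 153327) (nat_lit 0) .nil) .nil))) 
(.lf (nat_lit 495515) (.g (nat_lit 3253) (.e (nat_lit 163903) (nat_lit 12) (.e (nat_lit 426566) (nat_lit 34) (.e (nat_lit 393291) (nat_lit 26) (.e (nat_lit 475179) (nat_lit 24) (.e (nat_lit 516115) (nat_lit 1) (.e (nat_lit 164327) (nat_lit 230) .nil)))))) (.g (nat_lit 1) (.e (nat_lit 153932) (nat_lit 0) .nil) .nil)))))) (.nd (nat_lit 7) (.nd (nat_lit 8) (.nd (nat_lit 9) 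
(.lf (nat_lit 494683) (.g (nat_lit 975) (.e (nat_lit 163896) (nat_lit 10) (.e (nat_lit 409649) (nat_lit 18) (.e (nat_lit 303131) (nat_lit 9) .nil))) (.g (nat_lit 0) (.e (nat_lit 152708) (nat_lit 0) .nil) .nil))) 
(.lf (nat_lit 495195) (.g (nat_lit 2875) (.e (nat_lit 163902) (nat_lit 12) (.e (nat_lit 426568) (nat_lit 34) (.e (nat_lit 393279) (nat_lit 23) (.e (nat_lit 426435) (nat_lit 18) (.e (nat_lit 98334) (nat_lit 18) (.e (nat_lit 164329) (nat_lit 230) .nil)))))) (.g (nat_lit 1) (.e (nat_lit 153531) (nat_lit 0) .nil) .nil)))) (.nd (nat_lit 9) 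
(.lf (nat_lit 494939) (.g (nat_lit 224) (.e (nat_lit 163902) (nat_lit 12) (.e (nat_lit 426538) (nat_lit 29) (.e (nat_lit 352313) (nat_lit 23) .nil))) (.g (nat_lit 0) (.e (nat_lit 153237) (nat_lit 0) .nil) .nil))) 
(.lf (nat_lit 495451) (.g (nat_lit 1748) (.e (nat_lit 163903) (nat_lit 12) (.e (nat_lit 426553) (nat_lit 32) (.e (nat_lit 376865) (nat_lit 22) (.e (nat_lit 90160) (nat_lit 11) (.e (nat_lit 24598) (nat_lit 1) .nil))))) (.g (nat_lit 0) (.e (nat_lit 153865) (nat_lit 0) .nil) .nil))))) (.nd (nat_lit 8) (.nd (nat_lit 9) 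
(.lf (nat_lit 494811) (.g (nat_lit 2357) (.e (nat_lit 163902) (nat_lit 12) (.e (nat_lit 426436) (nat_lit 18) (.e (nat_lit 98370) (nat_lit 28) (.e (nat_lit 442385) (nat_lit 11) (.e (nat_lit 335995) (nat_lit 1) (.e (nat_lit 57688) (nat_lit 156) .nil)))))) (.g (nat_lit 1) (.e (nat_lit 153087) (nat_lit 0) .nil) .nil))) 
(.lf (nat_lit 495323) (.g (nat_lit 2081) (.e (nat_lit 163903) (nat_lit 12) (.e (nat_lit 426432) (nat_lit 17) (.e (nat_lit 90176) (nat_lit 15) (.e (nat_lit 188423) (nat_lit 11) (.e (nat_lit 335986) (nat_lit 1) (.e (nat_lit 57686) (nat_lit 156) .nil)))))) (.g (nat_lit 1) (.e (nat_lit 153718) (nat_lit 0) .nil) .nil)))) (.nd (nat_lit 9) 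
(.lf (nat_lit 495067) (.g (nat_lit 2981) (.e (nat_lit 163902) (nat_lit 12) (.e (nat_lit 426566) (nat_lit 34) (.e (nat_lit 393293) (nat_lit 26) (.e (nat_lit 475177) (nat_lit 24) (.e (nat_lit 516120) (nat_lit 1) (.e (nat_lit 164331) (nat_lit 230) .nil)))))) (.g (nat_lit 1) (.e (nat_lit 153392) (nat_lit 0) .nil) .nil))) 
(.lf (nat_lit 495579) (.g (nat_lit 1250) (.e (nat_lit 163903) (nat_lit 12) (.e (nat_lit 426568) (nat_lit 34) (.e (nat_lit 393269) (nat_lit 23) (.e (nat_lit 426438) (nat_lit 18) (.e (nat_lit 98335) (nat_lit 18) .nil))))) (.g (nat_lit 0) (.e (nat_lit 153999) (nat_lit 0) .nil) .nil))))))) (.nd (nat_lit 6) (.nd (nat_lit 7) (.nd (nat_lit 8) (.nd (nat_lit 9) 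
(.lf (nat_lit 494651) (.g (nat_lit 2137) (.e (nat_lit 163886) (nat_lit 5) (.e (nat_lit 221215) (nat_lit 23) (.e (nat_lit 204813) (nat_lit 9) (.e (nat_lit 426188) (nat_lit 9) (.e (nat_lit 426436) (nat_lit 18) (.e (nat_lit 106240) (nat_lit 1) (.e (nat_lit 57927) (nat_lit 282) .nil))))))) (.g (nat_lit 1) (.e (nat_lit 152158) (nat_lit 0) .nil) .nil))) 
(.lf (nat_lit 495163) (.g (nat_lit 3792) (.e (nat_lit 163902) (nat_lit 12) (.e (nat_lit 426568) (nat_lit 34) (.e (nat_lit 393271) (nat_lit 23) (.e (nat_lit 426131) (nat_lit 3) (.e (nat_lit 204830) (nat_lit 18) (.e (nat_lit 57685) (nat_lit 156) .nil)))))) (.g (nat_lit 1) (.e (nat_lit 153498) (nat_lit 0) .nil) .nil)))) (.nd (nat_lit 9) 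
(.lf (nat_lit 494907) (.g (nat_lit 100) (.e (nat_lit 163902) (nat_lit 12) (.e (nat_lit 426479) (nat_lit 27) (.e (nat_lit 336430) (nat_lit 29) .nil))) (.g (nat_lit 0) (.e (nat_lit 153190) (nat_lit 0) .nil) .nil))) 
(.lf (nat_lit 495419) (.g (nat_lit 2220) (.e (nat_lit 163903) (nat_lit 12) (.e (nat_lit 426481) (nat_lit 27) (.e (nat_lit 336389) (nat_lit 27) (.e (nat_lit 426190) (nat_lit 9) (.e (nat_lit 426436) (nat_lit 18) (.e (nat_lit 98335) (nat_lit 18) (.e (nat_lit 164324) (nat_lit 230) .nil))))))) (.g (nat_lit 1) (.e (nat_lit 153832) (nat_lit 0) .nil) .nil))))) (.nd (nat_lit 8) (.nd (nat_lit 9) 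
(.lf (nat_lit 494779) (.g (nat_lit 2252) (.e (nat_lit 163902) (nat_lit 12) (.e (nat_lit 426320) (nat_lit 12) (.e (nat_lit 475199) (nat_lit 40) (.e (nat_lit 704598) (nat_lit 6) (.e (nat_lit 188453) (nat_lit 24) (.e (nat_lit 229680) (nat_lit 244) .nil)))))) (.g (nat_lit 1) (.e (nat_lit 152995) (nat_lit 0) .nil) .nil))) 
(.lf (nat_lit 495291) (.g (nat_lit 3999) (.e (nat_lit 163902) (nat_lit 12) (.e (nat_lit 426568) (nat_lit 34) (.e (nat_lit 393294) (nat_lit 26) (.e (nat_lit 475177) (nat_lit 24) (.e (nat_lit 516120) (nat_lit 1) (.e (nat_lit 164329) (nat_lit 230) .nil)))))) (.g (nat_lit 1) (.e (nat_lit 153637) (nat_lit 0) .nil) .nil)))) (.nd (nat_lit 9) 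
(.lf (nat_lit 495035) (.g (nat_lit 2020) (.e (nat_lit 163902) (nat_lit 12) (.e (nat_lit 426566) (nat_lit 34) (.e (nat_lit 393289) (nat_lit 25) (.e (nat_lit 458789) (nat_lit 23) (.e (nat_lit 532503) (nat_lit 1) (.e (nat_lit 57688) (nat_lit 156) .nil)))))) (.g (nat_lit 1) (.e (nat_lit 153360) (nat_lit 0) .nil) .nil))) 
(.lf (nat_lit 495547) (.g (nat_lit 4066) (.e (nat_lit 163903) (nat_lit 12) (.e (nat_lit 426566) (nat_lit 34) (.e (nat_lit 393296) (nat_lit 26) (.e (nat_lit 475179) (nat_lit 24) (.e (nat_lit 516119) (nat_lit 1) (.e (nat_lit 164324) (nat_lit 230) .nil)))))) (.g (nat_lit 1) (.e (nat_lit 153965) (nat_lit 0) .nil) .nil)))))) (.nd (nat_lit 7) (.nd (nat_lit 8) (.nd (nat_lit 9) 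
(.lf (nat_lit 494715) (.g (nat_lit 3316) (.e (nat_lit 163900) (nat_lit 12) (.e (nat_lit 426140) (nat_lit 3) (.e (nat_lit 204868) (nat_lit 29) (.e (nat_lit 360473) (nat_lit 8) (.e (nat_lit 557091) (nat_lit 12) (.e (nat_lit 163847) (nat_lit 0) (.e (nat_lit 6421) (nat_lit 341) .nil))))))) (.g (nat_lit 1) (.e (nat_lit 152853) (nat_lit 0) .nil) .nil))) 
(.lf (nat_lit 495227) (.g (nat_lit 3622) (.e (nat_lit 163902) (nat_lit 12) (.e (nat_lit 426568) (nat_lit 34) (.e (nat_lit 393290) (nat_lit 26) (.e (nat_lit 475179) (nat_lit 24) (.e (nat_lit 516120) (nat_lit 1) (.e (nat_lit 164332) (nat_lit 230) .nil)))))) (.g (nat_lit 1) (.e (nat_lit 153573) (nat_lit 0) .nil) .nil)))) (.nd (nat_lit 9) 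
(.lf (nat_lit 494971) (.g (nat_lit 1840) (.e (nat_lit 163902) (nat_lit 12) (.e (nat_lit 426555) (nat_lit 32) (.e (nat_lit 376869) (nat_lit 23) (.e (nat_lit 98313) (nat_lit 9) (.e (nat_lit 335993) (nat_lit 1) (.e (nat_lit 57931) (nat_lit 282) .nil)))))) (.g (nat_lit 1) (.e (nat_lit 153288) (nat_lit 0) .nil) .nil))) 
(.lf (nat_lit 495483) (.g (nat_lit 2702) (.e (nat_lit 163903) (nat_lit 12) (.e (nat_lit 426566) (nat_lit 34) (.e (nat_lit 393271) (nat_lit 23) (.e (nat_lit 426131) (nat_lit 3) (.e (nat_lit 204831) (nat_lit 18) (.e (nat_lit 57687) (nat_lit 156) .nil)))))) (.g (nat_lit 1) (.e (nat_lit 153900) (nat_lit 0) .nil) .nil))))) (.nd (nat_lit 8) (.nd (nat_lit 9) 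
(.lf (nat_lit 494843) (.g (nat_lit 2313) (.e (nat_lit 163902) (nat_lit 12) (.e (nat_lit 426438) (nat_lit 18) (.e (nat_lit 98373) (nat_lit 29) (.e (nat_lit 450560) (nat_lit 0) (.e (nat_lit 6837) (nat_lit 369) .nil))))) (.g (nat_lit 0) (.e (nat_lit 153123) (nat_lit 0) .nil) .nil))) 
(.lf (nat_lit 495355) (.g (nat_lit 410) (.e (nat_lit 163903) (nat_lit 12) (.e (nat_lit 426438) (nat_lit 18) (.e (nat_lit 98373) (nat_lit 29) .nil))) (.g (nat_lit 0) (.e (nat_lit 153755) (nat_lit 0) .nil) .nil)))) (.nd (nat_lit 9) 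
(.lf (nat_lit 495099) (.g (nat_lit 3359) (.e (nat_lit 163902) (nat_lit 12) (.e (nat_lit 426566) (nat_lit 34) (.e (nat_lit 393295) (nat_lit 26) (.e (nat_lit 475177) (nat_lit 24) (.e (nat_lit 516120) (nat_lit 1) (.e (nat_lit 164332) (nat_lit 230) .nil)))))) (.g (nat_lit 1) (.e (nat_lit 153424) (nat_lit 0) .nil) .nil))) 
(.lf (nat_lit 495611) (.g (nat_lit 2791) (.e (nat_lit 163903) (nat_lit 12) (.e (nat_lit 426568) (nat_lit 34) (.e (nat_lit 393283) (nat_lit 24) (.e (nat_lit 434231) (nat_lit 23) (.e (nat_lit 532502) (nat_lit 1) (.e (nat_lit 57688) (nat_lit 156) .nil)))))) (.g (nat_lit 1) (.e (nat_lit 154031) (nat_lit 0) .nil) .nil)))))))))) 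
(.nd (nat_lit 3) (.nd (nat_lit 4) (.nd (nat_lit 5) (.nd (nat_lit 6) (.nd (nat_lit 7) 
(.nd (nat_lit 8) (.nd (nat_lit 9) 
(.lf (nat_lit 494599) (.g (nat_lit 2759) (.e (nat_lit 163885) (nat_lit 5) (.e (nat_lit 221208) (nat_lit 21) (.e (nat_lit 164329) (nat_lit 230) (.e (nat_lit 171776) (nat_lit 66) (.e (nat_lit 114714) (nat_lit 22) (.e (nat_lit 90185) (nat_lit 17) (.e (nat_lit 237582) (nat_lit 1) (.e (nat_lit 164332) (nat_lit 230) .nil)))))))) (.g (nat_lit 1) (.e (nat_lit 152031) (nat_lit 0) .nil) .nil))) 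
(.lf (nat_lit 495111) (.g (nat_lit 3192) (.e (nat_lit 163902) (nat_lit 12) (.e (nat_lit 426566) (nat_lit 34) (.e (nat_lit 393296) (nat_lit 26) (.e (nat_lit 475178) (nat_lit 24) (.e (nat_lit 516119) (nat_lit 1) (.e (nat_lit 164332) (nat_lit 230) .nil)))))) (.g (nat_lit 1) (.e (nat_lit 153436) (nat_lit 0) .nil) .nil)))) (.nd (nat_lit 9) 
(.lf (nat_lit 494855) (.g (nat_lit 3084) (.e (nat_lit 163902) (nat_lit 12) (.e (nat_lit 426438) (nat_lit 18) (.e (nat_lit 98373) (nat_lit 29) (.e (nat_lit 450562) (nat_lit 0) (.e (nat_lit 7936) (nat_lit 369) (.e (nat_lit 163861) (nat_lit 1) (.e (nat_lit 164332) (nat_lit 230) .nil))))))) (.g (nat_lit 1) (.e (nat_lit 153135) (nat_lit 0) .nil) .nil))) 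
(.lf (nat_lit 495367) (.g (nat_lit 1565) (.e (nat_lit 163903) (nat_lit 12) (.e (nat_lit 426438) (nat_lit 18) (.e (nat_lit 98373) (nat_lit 29) (.e (nat_lit 458496) (nat_lit 24) .nil)))) (.g (nat_lit 0) (.e (nat_lit 153768) (nat_lit 0) .nil) .nil))))) (.nd (nat_lit 8) (.nd (nat_lit 9) 
(.lf (nat_lit 494727) (.g (nat_lit 2309) (.e (nat_lit 163900) (nat_lit 12) (.e (nat_lit 426140) (nat_lit 3) (.e (nat_lit 204869) (nat_lit 29) (.e (nat_lit 360475) (nat_lit 8) (.e (nat_lit 557089) (nat_lit 12) .nil))))) (.g (nat_lit 0) (.e (nat_lit 152865) (nat_lit 0) .nil) .nil))) 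
(.lf (nat_lit 495239) (.g (nat_lit 3543) (.e (nat_lit 163902) (nat_lit 12) (.e (nat_lit 426568) (nat_lit 34) (.e (nat_lit 393291) (nat_lit 26) (.e (nat_lit 475177) (nat_lit 24) (.e (nat_lit 516120) (nat_lit 1) (.e (nat_lit 164329) (nat_lit 230) .nil)))))) (.g (nat_lit 1) (.e (nat_lit 153585) (nat_lit 0) .nil) .nil)))) (.nd (nat_lit 9) 
(.lf (nat_lit 494983) (.g (nat_lit 4409) (.e (nat_lit 163902) (nat_lit 12) (.e (nat_lit 426566) (nat_lit 34) (.e (nat_lit 393269) (nat_lit 23) (.e (nat_lit 426436) (nat_lit 18) (.e (nat_lit 98335) (nat_lit 18) (.e (nat_lit 164330) (nat_lit 230) .nil)))))) (.g (nat_lit 1) (.e (nat_lit 153307) (nat_lit 0) .nil) .nil))) 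
(.lf (nat_lit 495495) (.g (nat_lit 3589) (.e (nat_lit 163903) (nat_lit 12) (.e (nat_lit 426566) (nat_lit 34) (.e (nat_lit 393273) (nat_lit 23) (.e (nat_lit 426438) (nat_lit 18) (.e (nat_lit 98333) (nat_lit 18) (.e (nat_lit 164327) (nat_lit 230) .nil)))))) (.g (nat_lit 1) (.e (nat_lit 153912) (nat_lit 0) .nil) .nil)))))) (.nd (nat_lit 7) (.nd (nat_lit 8) (.nd (nat_lit 9) 
(.lf (nat_lit 494663) (.g (nat_lit 2626) (.e (nat_lit 163891) (nat_lit 8) (.e (nat_lit 253992) (nat_lit 11) (.e (nat_lit 16425) (nat_lit 7) (.e (nat_lit 409649) (nat_lit 18) (.e (nat_lit 303140) (nat_lit 10) .nil))))) (.g (nat_lit 0) (.e (nat_lit 152201) (nat_lit 0) .nil) .nil))) 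
(.lf (nat_lit 495175) (.g (nat_lit 2835) (.e (nat_lit 163902) (nat_lit 12) (.e (nat_lit 426568) (nat_lit 34) (.e (nat_lit 393271) (nat_lit 23) (.e (nat_lit 426436) (nat_lit 18) (.e (nat_lit 98334) (nat_lit 18) (.e (nat_lit 164331) (nat_lit 230) .nil)))))) (.g (nat_lit 1) (.e (nat_lit 153510) (nat_lit 0) .nil) .nil)))) (.nd (nat_lit 9) 
(.lf (nat_lit 494919) (.g (nat_lit 2857) (.e (nat_lit 163902) (nat_lit 12) (.e (nat_lit 426479) (nat_lit 27) (.e (nat_lit 336434) (nat_lit 30) (.e (nat_lit 450579) (nat_lit 5) (.e (nat_lit 532503) (nat_lit 1) (.e (nat_lit 57685) (nat_lit 156) .nil)))))) (.g (nat_lit 1) (.e (nat_lit 153212) (nat_lit 0) .nil) .nil))) 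
(.lf (nat_lit 495431) (.g (nat_lit 2477) (.e (nat_lit 163903) (nat_lit 12) (.e (nat_lit 426481) (nat_lit 27) (.e (nat_lit 336388) (nat_lit 27) (.e (nat_lit 426306) (nat_lit 12) (.e (nat_lit 475177) (nat_lit 24) (.e (nat_lit 516118) (nat_lit 1) (.e (nat_lit 164327) (nat_lit 230) .nil))))))) (.g (nat_lit 1) (.e (nat_lit 153844) (nat_lit 0) .nil) .nil))))) (.nd (nat_lit 8) (.nd (nat_lit 9) 
(.lf (nat_lit 494791) (.g (nat_lit 3250) (.e (nat_lit 163902) (nat_lit 12) (.e (nat_lit 426428) (nat_lit 17) (.e (nat_lit 90170) (nat_lit 13) (.e (nat_lit 172123) (nat_lit 13) (.e (nat_lit 483365) (nat_lit 18) (.e (nat_lit 57687) (nat_lit 156) .nil)))))) (.g (nat_lit 1) (.e (nat_lit 153062) (nat_lit 0) .nil) .nil))) 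
(.lf (nat_lit 495303) (.g (nat_lit 4233) (.e (nat_lit 163902) (nat_lit 12) (.e (nat_lit 426568) (nat_lit 34) (.e (nat_lit 393294) (nat_lit 26) (.e (nat_lit 475179) (nat_lit 24) (.e (nat_lit 516120) (nat_lit 1) (.e (nat_lit 164332) (nat_lit 230) .nil)))))) (.g (nat_lit 1) (.e (nat_lit 153649) (nat_lit 0) .nil) .nil)))) (.nd (nat_lit 9) 
(.lf (nat_lit 495047) (.g (nat_lit 2213) (.e (nat_lit 163902) (nat_lit 12) (.e (nat_lit 426566) (nat_lit 34) (.e (nat_lit 393291) (nat_lit 26) (.e (nat_lit 475177) (nat_lit 24) (.e (nat_lit 516119) (nat_lit 1) (.e (nat_lit 164332) (nat_lit 230) .nil)))))) (.g (nat_lit 1) (.e (nat_lit 153372) (nat_lit 0) .nil) .nil))) 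
(.lf (nat_lit 495559) (.g (nat_lit 2794) (.e (nat_lit 163903) (nat_lit 12) (.e (nat_lit 426567) (nat_lit 34) (.e (nat_lit 393294) (nat_lit 26) (.e (nat_lit 475177) (nat_lit 24) (.e (nat_lit 516115) (nat_lit 1) (.e (nat_lit 164325) (nat_lit 230) .nil)))))) (.g (nat_lit 1) (.e (nat_lit 153977) (nat_lit 0) .nil) .nil))))))) (.nd (nat_lit 6) (.nd (nat_lit 7) (.nd (nat_lit 8) (.nd (nat_lit 9) 
(.lf (nat_lit 494631) (.g (nat_lit 382) (.e (nat_lit 163886) (nat_lit 5) (.e (nat_lit 221193) (nat_lit 11) (.e (nat_lit 336150) (nat_lit 9) .nil))) (.g (nat_lit 0) (.e (nat_lit 152105) (nat_lit 0) .nil) .nil))) 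
(.lf (nat_lit 495143) (.g (nat_lit 2782) (.e (nat_lit 163902) (nat_lit 12) (.e (nat_lit 426568) (nat_lit 34) (.e (nat_lit 393268) (nat_lit 23) (.e (nat_lit 426436) (nat_lit 18) (.e (nat_lit 98333) (nat_lit 18) (.e (nat_lit 164329) (nat_lit 230) .nil)))))) (.g (nat_lit 1) (.e (nat_lit 153478) (nat_lit 0) .nil) .nil)))) (.nd (nat_lit 9) 
(.lf (nat_lit 494887) (.g (nat_lit 2938) (.e (nat_lit 163902) (nat_lit 12) (.e (nat_lit 426472) (nat_lit 25) (.e (nat_lit 319534) (nat_lit 16) (.e (nat_lit 286756) (nat_lit 10) (.e (nat_lit 344087) (nat_lit 18) (.e (nat_lit 7289) (nat_lit 386) (.e (nat_lit 163864) (nat_lit 1) (.e (nat_lit 164330) (nat_lit 230) .nil)))))))) (.g (nat_lit 1) (.e (nat_lit 153168) (nat_lit 0) .nil) .nil))) 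
(.lf (nat_lit 495399) (.g (nat_lit 2014) (.e (nat_lit 163903) (nat_lit 12) (.e (nat_lit 426479) (nat_lit 27) (.e (nat_lit 336432) (nat_lit 30) (.e (nat_lit 450580) (nat_lit 5) (.e (nat_lit 532502) (nat_lit 1) (.e (nat_lit 57688) (nat_lit 156) .nil)))))) (.g (nat_lit 1) (.e (nat_lit 153806) (nat_lit 0) .nil) .nil))))) (.nd (nat_lit 8) (.nd (nat_lit 9) 
(.lf (nat_lit 494759) (.g (nat_lit 732) (.e (nat_lit 163901) (nat_lit 12) (.e (nat_lit 426479) (nat_lit 27) (.e (nat_lit 336430) (nat_lit 29) (.e (nat_lit 442425) (nat_lit 23) .nil)))) (.g (nat_lit 0) (.e (nat_lit 152956) (nat_lit 0) .nil) .nil))) 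
(.lf (nat_lit 495271) (.g (nat_lit 2077) (.e (nat_lit 163902) (nat_lit 12) (.e (nat_lit 426568) (nat_lit 34) (.e (nat_lit 393294) (nat_lit 26) (.e (nat_lit 475175) (nat_lit 24) (.e (nat_lit 516117) (nat_lit 1) (.e (nat_lit 164329) (nat_lit 230) .nil)))))) (.g (nat_lit 1) (.e (nat_lit 153617) (nat_lit 0) .nil) .nil)))) (.nd (nat_lit 9) 
(.lf (nat_lit 495015) (.g (nat_lit 3347) (.e (nat_lit 163902) (nat_lit 12) (.e (nat_lit 426566) (nat_lit 34) (.e (nat_lit 393273) (nat_lit 23) (.e (nat_lit 426436) (nat_lit 18) (.e (nat_lit 98333) (nat_lit 18) (.e (nat_lit 164332) (nat_lit 230) .nil)))))) (.g (nat_lit 1) (.e (nat_lit 153339) (nat_lit 0) .nil) .nil))) 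
(.lf (nat_lit 495527) (.g (nat_lit 2834) (.e (nat_lit 163903) (nat_lit 12) (.e (nat_lit 426566) (nat_lit 34) (.e (nat_lit 393294) (nat_lit 26) (.e (nat_lit 475176) (nat_lit 24) (.e (nat_lit 516119) (nat_lit 1) (.e (nat_lit 164326) (nat_lit 230) .nil)))))) (.g (nat_lit 1) (.e (nat_lit 153945) (nat_lit 0) .nil) .nil)))))) (.nd (nat_lit 7) (.nd (nat_lit 8) (.nd (nat_lit 9) 
(.lf (nat_lit 494695) (.g (nat_lit 4596) (.e (nat_lit 163900) (nat_lit 12) (.e (nat_lit 426125) (nat_lit 2) (.e (nat_lit 196666) (nat_lit 13) (.e (nat_lit 65617) (nat_lit 10) (.e (nat_lit 344130) (nat_lit 26) (.e (nat_lit 557089) (nat_lit 12) (.e (nat_lit 163843) (nat_lit 0) (.e (nat_lit 6421) (nat_lit 341) .nil)))))))) (.g (nat_lit 1) (.e (nat_lit 152815) (nat_lit 0) .nil) .nil))) 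
(.lf (nat_lit 495207) (.g (nat_lit 2056) (.e (nat_lit 163902) (nat_lit 12) (.e (nat_lit 426568) (nat_lit 34) (.e (nat_lit 393282) (nat_lit 24) (.e (nat_lit 434233) (nat_lit 23) (.e (nat_lit 532503) (nat_lit 1) (.e (nat_lit 57687) (nat_lit 156) .nil)))))) (.g (nat_lit 1) (.e (nat_lit 153546) (nat_lit 0) .nil) .nil)))) (.nd (nat_lit 9) 
(.lf (nat_lit 494951) (.g (nat_lit 2583) (.e (nat_lit 163902) (nat_lit 12) (.e (nat_lit 426544) (nat_lit 30) (.e (nat_lit 360467) (nat_lit 3) (.e (nat_lit 516195) (nat_lit 26) (.e (nat_lit 335996) (nat_lit 1) (.e (nat_lit 57929) (nat_lit 282) .nil)))))) (.g (nat_lit 1) (.e (nat_lit 153249) (nat_lit 0) .nil) .nil))) 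
(.lf (nat_lit 495463) (.g (nat_lit 1747) (.e (nat_lit 163903) (nat_lit 12) (.e (nat_lit 426555) (nat_lit 32) (.e (nat_lit 376869) (nat_lit 23) (.e (nat_lit 98312) (nat_lit 9) (.e (nat_lit 335986) (nat_lit 1) (.e (nat_lit 57927) (nat_lit 282) .nil)))))) (.g (nat_lit 1) (.e (nat_lit 153879) (nat_lit 0) .nil) .nil))))) (.nd (nat_lit 8) (.nd (nat_lit 9) 
(.lf (nat_lit 494823) (.g (nat_lit 2178) (.e (nat_lit 163902) (nat_lit 12) (.e (nat_lit 426438) (nat_lit 18) (.e (nat_lit 98358) (nat_lit 26) (.e (nat_lit 426323) (nat_lit 13) (.e (nat_lit 483365) (nat_lit 18) (.e (nat_lit 57685) (nat_lit 156) .nil)))))) (.g (nat_lit 1) (.e (nat_lit 153103) (nat_lit 0) .nil) .nil))) 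
(.lf (nat_lit 495335) (.g (nat_lit 1782) (.e (nat_lit 163903) (nat_lit 12) (.e (nat_lit 426436) (nat_lit 18) (.e (nat_lit 98359) (nat_lit 26) (.e (nat_lit 426331) (nat_lit 13) .nil)))) (.g (nat_lit 0) (.e (nat_lit 153731) (nat_lit 0) .nil) .nil)))) (.nd (nat_lit 9) 
(.lf (nat_lit 495079) (.g (nat_lit 3815) (.e (nat_lit 163902) (nat_lit 12) (.e (nat_lit 426566) (nat_lit 34) (.e (nat_lit 393294) (nat_lit 26) (.e (nat_lit 475177) (nat_lit 24) (.e (nat_lit 516118) (nat_lit 1) (.e (nat_lit 164331) (nat_lit 230) .nil)))))) (.g (nat_lit 1) (.e (nat_lit 153404) (nat_lit 0) .nil) .nil))) 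
(.lf (nat_lit 495591) (.g (nat_lit 1433) (.e (nat_lit 163903) (nat_lit 12) (.e (nat_lit 426568) (nat_lit 34) (.e (nat_lit 393271) (nat_lit 23) (.e (nat_lit 426428) (nat_lit 17) .nil)))) (.g (nat_lit 0) (.e (nat_lit 154011) (nat_lit 0) .nil) .nil)))))))) (.nd (nat_lit 5) (.nd (nat_lit 6) (.nd (nat_lit 7) (.nd (nat_lit 8) (.nd (nat_lit 9) 
(.lf (nat_lit 494615) (.g (nat_lit 1971) (.e (nat_lit 163886) (nat_lit 5) (.e (nat_lit 221190) (nat_lit 11) (.e (nat_lit 336078) (nat_lit 9) (.e (nat_lit 336443) (nat_lit 32) (.e (nat_lit 466969) (nat_lit 21) (.e (nat_lit 164324) (nat_lit 230) .nil)))))) (.g (nat_lit 1) (.e (nat_lit 152089) (nat_lit 0) .nil) .nil))) 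
(.lf (nat_lit 495127) (.g (nat_lit 2915) (.e (nat_lit 163902) (nat_lit 12) (.e (nat_lit 426567) (nat_lit 34) (.e (nat_lit 393294) (nat_lit 26) (.e (nat_lit 475177) (nat_lit 24) (.e (nat_lit 516118) (nat_lit 1) (.e (nat_lit 164332) (nat_lit 230) .nil)))))) (.g (nat_lit 1) (.e (nat_lit 153453) (nat_lit 0) .nil) .nil)))) (.nd (nat_lit 9) 
(.lf (nat_lit 494871) (.g (nat_lit 2531) (.e (nat_lit 163902) (nat_lit 12) (.e (nat_lit 426438) (nat_lit 18) (.e (nat_lit 98373) (nat_lit 29) (.e (nat_lit 450603) (nat_lit 22) (.e (nat_lit 704633) (nat_lit 9) .nil))))) (.g (nat_lit 0) (.e (nat_lit 153151) (nat_lit 0) .nil) .nil))) 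
(.lf (nat_lit 495383) (.g (nat_lit 2298) (.e (nat_lit 163903) (nat_lit 12) (.e (nat_lit 426478) (nat_lit 27) (.e (nat_lit 336389) (nat_lit 27) (.e (nat_lit 426308) (nat_lit 12) (.e (nat_lit 475177) (nat_lit 24) (.e (nat_lit 516119) (nat_lit 1) (.e (nat_lit 164325) (nat_lit 230) .nil))))))) (.g (nat_lit 1) (.e (nat_lit 153787) (nat_lit 0) .nil) .nil))))) (.nd (nat_lit 8) (.nd (nat_lit 9) 
(.lf (nat_lit 494743) (.g (nat_lit 2227) (.e (nat_lit 163900) (nat_lit 12) (.e (nat_lit 426317) (nat_lit 12) (.e (nat_lit 475211) (nat_lit 41) (.e (nat_lit 712753) (nat_lit 30) (.e (nat_lit 450568) (nat_lit 0) (.e (nat_lit 5599) (nat_lit 310) .nil)))))) (.g (nat_lit 1) (.e (nat_lit 152890) (nat_lit 0) .nil) .nil))) 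
(.lf (nat_lit 495255) (.g (nat_lit 3263) (.e (nat_lit 163902) (nat_lit 12) (.e (nat_lit 426568) (nat_lit 34) (.e (nat_lit 393292) (nat_lit 26) (.e (nat_lit 475179) (nat_lit 24) (.e (nat_lit 516117) (nat_lit 1) (.e (nat_lit 164332) (nat_lit 230) .nil)))))) (.g (nat_lit 1) (.e (nat_lit 153601) (nat_lit 0) .nil) .nil)))) (.nd (nat_lit 9) 
(.lf (nat_lit 494999) (.g (nat_lit 1654) (.e (nat_lit 163902) (nat_lit 12) (.e (nat_lit 426566) (nat_lit 34) (.e (nat_lit 393271) (nat_lit 23) (.e (nat_lit 426434) (nat_lit 18) .nil)))) (.g (nat_lit 0) (.e (nat_lit 153323) (nat_lit 0) .nil) .nil))) 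
(.lf (nat_lit 495511) (.g (nat_lit 3763) (.e (nat_lit 163903) (nat_lit 12) (.e (nat_lit 426566) (nat_lit 34) (.e (nat_lit 393290) (nat_lit 26) (.e (nat_lit 475179) (nat_lit 24) (.e (nat_lit 516119) (nat_lit 1) (.e (nat_lit 164326) (nat_lit 230) .nil)))))) (.g (nat_lit 1) (.e (nat_lit 153928) (nat_lit 0) .nil) .nil)))))) (.nd (nat_lit 7) (.nd (nat_lit 8) (.nd (nat_lit 9) 
(.lf (nat_lit 494679) (.g (nat_lit 2076) (.e (nat_lit 163896) (nat_lit 10) (.e (nat_lit 409602) (nat_lit 0) (.e (nat_lit 5293) (nat_lit 298) (.e (nat_lit 1656) (nat_lit 115) (.e (nat_lit 393278) (nat_lit 23) .nil))))) (.g (nat_lit 0) (.e (nat_lit 152359) (nat_lit 0) .nil) .nil))) 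
(.lf (nat_lit 495191) (.g (nat_lit 719) (.e (nat_lit 163902) (nat_lit 12) (.e (nat_lit 426568) (nat_lit 34) (.e (nat_lit 393276) (nat_lit 23) .nil))) (.g (nat_lit 0) (.e (nat_lit 153526) (nat_lit 0) .nil) .nil)))) (.nd (nat_lit 9) 
(.lf (nat_lit 494935) (.g (nat_lit 1868) (.e (nat_lit 163902) (nat_lit 12) (.e (nat_lit 426484) (nat_lit 27) (.e (nat_lit 336409) (nat_lit 27) (.e (nat_lit 426198) (nat_lit 9) (.e (nat_lit 426436) (nat_lit 18) (.e (nat_lit 98335) (nat_lit 18) (.e (nat_lit 164329) (nat_lit 230) .nil))))))) (.g (nat_lit 1) (.e (nat_lit 153233) (nat_lit 0) .nil) .nil))) 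
(.lf (nat_lit 495447) (.g (nat_lit 3703) (.e (nat_lit 163903) (nat_lit 12) (.e (nat_lit 426544) (nat_lit 30) (.e (nat_lit 360467) (nat_lit 3) (.e (nat_lit 516195) (nat_lit 26) (.e (nat_lit 335986) (nat_lit 1) (.e (nat_lit 57926) (nat_lit 282) .nil)))))) (.g (nat_lit 1) (.e (nat_lit 153861) (nat_lit 0) .nil) .nil))))) (.nd (nat_lit 8) (.nd (nat_lit 9) 
(.lf (nat_lit 494807) (.g (nat_lit 3484) (.e (nat_lit 163902) (nat_lit 12) (.e (nat_lit 426436) (nat_lit 18) (.e (nat_lit 98358) (nat_lit 26) (.e (nat_lit 426323) (nat_lit 13) (.e (nat_lit 483363) (nat_lit 18) (.e (nat_lit 57688) (nat_lit 156) .nil)))))) (.g (nat_lit 1) (.e (nat_lit 153081) (nat_lit 0) .nil) .nil))) 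
(.lf (nat_lit 495319) (.g (nat_lit 1301) (.e (nat_lit 163903) (nat_lit 12) (.e (nat_lit 426428) (nat_lit 17) (.e (nat_lit 90174) (nat_lit 14) (.e (nat_lit 180291) (nat_lit 48) .nil)))) (.g (nat_lit 0) (.e (nat_lit 153714) (nat_lit 0) .nil) .nil)))) (.nd (nat_lit 9) 
(.lf (nat_lit 495063) (.g (nat_lit 2612) (.e (nat_lit 163902) (nat_lit 12) (.e (nat_lit 426566) (nat_lit 34) (.e (nat_lit 393293) (nat_lit 26) (.e (nat_lit 475175) (nat_lit 24) (.e (nat_lit 516120) (nat_lit 1) (.e (nat_lit 164329) (nat_lit 230) .nil)))))) (.g (nat_lit 1) (.e (nat_lit 153388) (nat_lit 0) .nil) .nil))) 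
(.lf (nat_lit 495575) (.g (nat_lit 3400) (.e (nat_lit 163903) (nat_lit 12) (.e (nat_lit 426568) (nat_lit 34) (.e (nat_lit 393268) (nat_lit 23) (.e (nat_lit 426438) (nat_lit 18) (.e (nat_lit 98335) (nat_lit 18) (.e (nat_lit 164325) (nat_lit 230) .nil)))))) (.g (nat_lit 1) (.e (nat_lit 153995) (nat_lit 0) .nil) .nil))))))) (.nd (nat_lit 6) (.nd (nat_lit 7) (.nd (nat_lit 8) (.nd (nat_lit 9) 
(.lf (nat_lit 494647) (.g (nat_lit 1237) (.e (nat_lit 163886) (nat_lit 5) (.e (nat_lit 221207) (nat_lit 21) (.e (nat_lit 164179) (nat_lit 154) (.e (nat_lit 57364) (nat_lit 1) .nil)))) (.g (nat_lit 0) (.e (nat_lit 152126) (nat_lit 0) .nil) .nil))) 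
(.lf (nat_lit 495159) (.g (nat_lit 1847) (.e (nat_lit 163902) (nat_lit 12) (.e (nat_lit 426568) (nat_lit 34) (.e (nat_lit 393270) (nat_lit 23) (.e (nat_lit 426438) (nat_lit 18) (.e (nat_lit 98335) (nat_lit 18) (.e (nat_lit 164329) (nat_lit 230) .nil)))))) (.g (nat_lit 1) (.e (nat_lit 153494) (nat_lit 0) .nil) .nil)))) (.nd (nat_lit 9) 
(.lf (nat_lit 494903) (.g (nat_lit 2549) (.e (nat_lit 163902) (nat_lit 12) (.e (nat_lit 426478) (nat_lit 27) (.e (nat_lit 336389) (nat_lit 27) (.e (nat_lit 426308) (nat_lit 12) (.e (nat_lit 475179) (nat_lit 24) (.e (nat_lit 516120) (nat_lit 1) (.e (nat_lit 164332) (nat_lit 230) .nil))))))) (.g (nat_lit 1) (.e (nat_lit 153184) (nat_lit 0) .nil) .nil))) 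
(.lf (nat_lit 495415) (.g (nat_lit 2581) (.e (nat_lit 163903) (nat_lit 12) (.e (nat_lit 426481) (nat_lit 27) (.e (nat_lit 336385) (nat_lit 27) (.e (nat_lit 426306) (nat_lit 12) (.e (nat_lit 475177) (nat_lit 24) (.e (nat_lit 516119) (nat_lit 1) (.e (nat_lit 164327) (nat_lit 230) .nil))))))) (.g (nat_lit 1) (.e (nat_lit 153828) (nat_lit 0) .nil) .nil))))) (.nd (nat_lit 8) (.nd (nat_lit 9) 
(.lf (nat_lit 494775) (.g (nat_lit 1283) (.e (nat_lit 163901) (nat_lit 12) (.e (nat_lit 426566) (nat_lit 34) (.e (nat_lit 393296) (nat_lit 26) (.e (nat_lit 475178) (nat_lit 24) .nil)))) (.g (nat_lit 0) (.e (nat_lit 152987) (nat_lit 0) .nil) .nil))) 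
(.lf (nat_lit 495287) (.g (nat_lit 2654) (.e (nat_lit 163902) (nat_lit 12) (.e (nat_lit 426568) (nat_lit 34) (.e (nat_lit 393294) (nat_lit 26) (.e (nat_lit 475177) (nat_lit 24) (.e (nat_lit 516118) (nat_lit 1) (.e (nat_lit 164331) (nat_lit 230) .nil)))))) (.g (nat_lit 1) (.e (nat_lit 153633) (nat_lit 0) .nil) .nil)))) (.nd (nat_lit 9) 
(.lf (nat_lit 495031) (.g (nat_lit 3090) (.e (nat_lit 163902) (nat_lit 12) (.e (nat_lit 426566) (nat_lit 34) (.e (nat_lit 393287) (nat_lit 25) (.e (nat_lit 458789) (nat_lit 23) (.e (nat_lit 532499) (nat_lit 1) (.e (nat_lit 57688) (nat_lit 156) .nil)))))) (.g (nat_lit 1) (.e (nat_lit 153355) (nat_lit 0) .nil) .nil))) 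
(.lf (nat_lit 495543) (.g (nat_lit 2533) (.e (nat_lit 163903) (nat_lit 12) (.e (nat_lit 426566) (nat_lit 34) (.e (nat_lit 393296) (nat_lit 26) (.e (nat_lit 475177) (nat_lit 24) (.e (nat_lit 516119) (nat_lit 1) (.e (nat_lit 164326) (nat_lit 230) .nil)))))) (.g (nat_lit 1) (.e (nat_lit 153961) (nat_lit 0) .nil) .nil)))))) (.nd (nat_lit 7) (.nd (nat_lit 8) (.nd (nat_lit 9) 
(.lf (nat_lit 494711) (.g (nat_lit 3026) (.e (nat_lit 163900) (nat_lit 12) (.e (nat_lit 426136) (nat_lit 3) (.e (nat_lit 204869) (nat_lit 29) (.e (nat_lit 360475) (nat_lit 8) (.e (nat_lit 557091) (nat_lit 12) .nil))))) (.g (nat_lit 0) (.e (nat_lit 152831) (nat_lit 0) .nil) .nil))) 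
(.lf (nat_lit 495223) (.g (nat_lit 761) (.e (nat_lit 163902) (nat_lit 12) (.e (nat_lit 426568) (nat_lit 34) (.e (nat_lit 393289) (nat_lit 25) .nil))) (.g (nat_lit 0) (.e (nat_lit 153569) (nat_lit 0) .nil) .nil)))) (.nd (nat_lit 9) 
(.lf (nat_lit 494967) (.g (nat_lit 3878) (.e (nat_lit 163902) (nat_lit 12) (.e (nat_lit 426555) (nat_lit 32) (.e (nat_lit 376867) (nat_lit 23) (.e (nat_lit 98313) (nat_lit 9) (.e (nat_lit 335996) (nat_lit 1) (.e (nat_lit 57930) (nat_lit 282) .nil)))))) (.g (nat_lit 1) (.e (nat_lit 153284) (nat_lit 0) .nil) .nil))) 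
(.lf (nat_lit 495479) (.g (nat_lit 3400) (.e (nat_lit 163903) (nat_lit 12) (.e (nat_lit 426566) (nat_lit 34) (.e (nat_lit 393270) (nat_lit 23) (.e (nat_lit 426438) (nat_lit 18) (.e (nat_lit 98335) (nat_lit 18) (.e (nat_lit 164324) (nat_lit 230) .nil)))))) (.g (nat_lit 1) (.e (nat_lit 153896) (nat_lit 0) .nil) .nil))))) (.nd (nat_lit 8) (.nd (nat_lit 9) 
(.lf (nat_lit 494839) (.g (nat_lit 1742) (.e (nat_lit 163902) (nat_lit 12) (.e (nat_lit 426438) (nat_lit 18) (.e (nat_lit 98372) (nat_lit 29) (.e (nat_lit 450568) (nat_lit 0) (.e (nat_lit 7936) (nat_lit 369) .nil))))) (.g (nat_lit 0) (.e (nat_lit 153119) (nat_lit 0) .nil) .nil))) 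
(.lf (nat_lit 495351) (.g (nat_lit 472) (.e (nat_lit 163903) (nat_lit 12) (.e (nat_lit 426438) (nat_lit 18) (.e (nat_lit 98372) (nat_lit 29) .nil))) (.g (nat_lit 0) (.e (nat_lit 153750) (nat_lit 0) .nil) .nil)))) (.nd (nat_lit 9) 
(.lf (nat_lit 495095) (.g (nat_lit 3086) (.e (nat_lit 163902) (nat_lit 12) (.e (nat_lit 426566) (nat_lit 34) (.e (nat_lit 393295) (nat_lit 26) (.e (nat_lit 475177) (nat_lit 24) (.e (nat_lit 516118) (nat_lit 1) (.e (nat_lit 164330) (nat_lit 230) .nil)))))) (.g (nat_lit 1) (.e (nat_lit 153420) (nat_lit 0) .nil) .nil))) 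
(.lf (nat_lit 495607) (.g (nat_lit 1822) (.e (nat_lit 163903) (nat_lit 12) (.e (nat_lit 426568) (nat_lit 34) (.e (nat_lit 393282) (nat_lit 24) (.e (nat_lit 434233) (nat_lit 23) (.e (nat_lit 532503) (nat_lit 1) (.e (nat_lit 57685) (nat_lit 156) .nil)))))) (.g (nat_lit 1) (.e (nat_lit 154027) (nat_lit 0) .nil) .nil))))))))) 
(.nd (nat_lit 4) (.nd (nat_lit 5) (.nd (nat_lit 6) (.nd (nat_lit 7) (.nd (nat_lit 8) 
(.nd (nat_lit 9) 
(.lf (nat_lit 494607) (.g (nat_lit 1842) (.e (nat_lit 163885) (nat_lit 5) (.e (nat_lit 221215) (nat_lit 23) (.e (nat_lit 204813) (nat_lit 9) (.e (nat_lit 426307) (nat_lit 12) .nil)))) (.g (nat_lit 0) (.e (nat_lit 152056) (nat_lit 0) .nil) .nil))) 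
(.lf (nat_lit 495119) (.g (nat_lit 3169) (.e (nat_lit 163902) (nat_lit 12) (.e (nat_lit 426567) (nat_lit 34) (.e (nat_lit 393268) (nat_lit 23) (.e (nat_lit 426436) (nat_lit 18) (.e (nat_lit 98334) (nat_lit 18) (.e (nat_lit 164330) (nat_lit 230) .nil)))))) (.g (nat_lit 1) (.e (nat_lit 153445) (nat_lit 0) .nil) .nil)))) (.nd (nat_lit 9) 
(.lf (nat_lit 494863) (.g (nat_lit 4150) (.e (nat_lit 163902) (nat_lit 12) (.e (nat_lit 426438) (nat_lit 18) (.e (nat_lit 98373) (nat_lit 29) (.e (nat_lit 450563) (nat_lit 0) (.e (nat_lit 6846) (nat_lit 370) (.e (nat_lit 229385) (nat_lit 1) (.e (nat_lit 164332) (nat_lit 230) .nil))))))) (.g (nat_lit 1) (.e (nat_lit 153143) (nat_lit 0) .nil) .nil))) 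
(.lf (nat_lit 495375) (.g (nat_lit 2214) (.e (nat_lit 163903) (nat_lit 12) (.e (nat_lit 426478) (nat_lit 27) (.e (nat_lit 336385) (nat_lit 27) (.e (nat_lit 426188) (nat_lit 9) (.e (nat_lit 426436) (nat_lit 18) (.e (nat_lit 98335) (nat_lit 18) (.e (nat_lit 164327) (nat_lit 230) .nil))))))) (.g (nat_lit 1) (.e (nat_lit 153779) (nat_lit 0) .nil) .nil))))) (.nd (nat_lit 8) (.nd (nat_lit 9) 
(.lf (nat_lit 494735) (.g (nat_lit 3883) (.e (nat_lit 163900) (nat_lit 12) (.e (nat_lit 426140) (nat_lit 3) (.e (nat_lit 204869) (nat_lit 29) (.e (nat_lit 360475) (nat_lit 8) (.e (nat_lit 557091) (nat_lit 12) (.e (nat_lit 163844) (nat_lit 0) (.e (nat_lit 6416) (nat_lit 341) .nil))))))) (.g (nat_lit 1) (.e (nat_lit 152873) (nat_lit 0) .nil) .nil))) 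
(.lf (nat_lit 495247) (.g (nat_lit 2432) (.e (nat_lit 163902) (nat_lit 12) (.e (nat_lit 426568) (nat_lit 34) (.e (nat_lit 393291) (nat_lit 26) (.e (nat_lit 475179) (nat_lit 24) (.e (nat_lit 516120) (nat_lit 1) (.e (nat_lit 164331) (nat_lit 230) .nil)))))) (.g (nat_lit 1) (.e (nat_lit 153593) (nat_lit 0) .nil) .nil)))) (.nd (nat_lit 9) 
(.lf (nat_lit 494991) (.g (nat_lit 3418) (.e (nat_lit 163902) (nat_lit 12) (.e (nat_lit 426566) (nat_lit 34) (.e (nat_lit 393270) (nat_lit 23) (.e (nat_lit 426438) (nat_lit 18) (.e (nat_lit 98334) (nat_lit 18) (.e (nat_lit 164332) (nat_lit 230) .nil)))))) (.g (nat_lit 1) (.e (nat_lit 153315) (nat_lit 0) .nil) .nil))) 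
(.lf (nat_lit 495503) (.g (nat_lit 2141) (.e (nat_lit 163903) (nat_lit 12) (.e (nat_lit 426566) (nat_lit 34) (.e (nat_lit 393286) (nat_lit 25) (.e (nat_lit 458789) (nat_lit 23) (.e (nat_lit 532499) (nat_lit 1) (.e (nat_lit 57687) (nat_lit 156) .nil)))))) (.g (nat_lit 1) (.e (nat_lit 153920) (nat_lit 0) .nil) .nil)))))) (.nd (nat_lit 7) (.nd (nat_lit 8) (.nd (nat_lit 9) 
(.lf (nat_lit 494671) (.g (nat_lit 1320) (.e (nat_lit 163896) (nat_lit 10) (.e (nat_lit 409602) (nat_lit 0) (.e (nat_lit 5293) (nat_lit 298) (.e (nat_lit 1423) (nat_lit 108) .nil)))) (.g (nat_lit 0) (.e (nat_lit 152351) (nat_lit 0) .nil) .nil))) 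
(.lf (nat_lit 495183) (.g (nat_lit 2875) (.e (nat_lit 163902) (nat_lit 12) (.e (nat_lit 426568) (nat_lit 34) (.e (nat_lit 393271) (nat_lit 23) (.e (nat_lit 426437) (nat_lit 18) (.e (nat_lit 98334) (nat_lit 18) (.e (nat_lit 164329) (nat_lit 230) .nil)))))) (.g (nat_lit 1) (.e (nat_lit 153518) (nat_lit 0) .nil) .nil)))) (.nd (nat_lit 9) 
(.lf (nat_lit 494927) (.g (nat_lit 2230) (.e (nat_lit 163902) (nat_lit 12) (.e (nat_lit 426481) (nat_lit 27) (.e (nat_lit 336389) (nat_lit 27) (.e (nat_lit 426308) (nat_lit 12) (.e (nat_lit 475175) (nat_lit 24) .nil))))) (.g (nat_lit 0) (.e (nat_lit 153225) (nat_lit 0) .nil) .nil))) 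
(.lf (nat_lit 495439) (.g (nat_lit 2693) (.e (nat_lit 163903) (nat_lit 12) (.e (nat_lit 426538) (nat_lit 29) (.e (nat_lit 352315) (nat_lit 23) (.e (nat_lit 98313) (nat_lit 9) (.e (nat_lit 335987) (nat_lit 1) (.e (nat_lit 57927) (nat_lit 282) .nil)))))) (.g (nat_lit 1) (.e (nat_lit 153853) (nat_lit 0) .nil) .nil))))) (.nd (nat_lit 8) (.nd (nat_lit 9) 
(.lf (nat_lit 494799) (.g (nat_lit 2350) (.e (nat_lit 163902) (nat_lit 12) (.e (nat_lit 426432) (nat_lit 17) (.e (nat_lit 90178) (nat_lit 15) (.e (nat_lit 188421) (nat_lit 11) (.e (nat_lit 335986) (nat_lit 1) (.e (nat_lit 57688) (nat_lit 156) .nil)))))) (.g (nat_lit 1) (.e (nat_lit 153071) (nat_lit 0) .nil) .nil))) 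
(.lf (nat_lit 495311) (.g (nat_lit 2724) (.e (nat_lit 163903) (nat_lit 12) (.e (nat_lit 426428) (nat_lit 17) (.e (nat_lit 90170) (nat_lit 13) (.e (nat_lit 172106) (nat_lit 10) (.e (nat_lit 434295) (nat_lit 49) (.e (nat_lit 745500) (nat_lit 9) (.e (nat_lit 2612) (nat_lit 163) (.e (nat_lit 164326) (nat_lit 230) .nil)))))))) (.g (nat_lit 1) (.e (nat_lit 153706) (nat_lit 0) .nil) .nil)))) 
(.nd (nat_lit 9) 
(.lf (nat_lit 495055) (.g (nat_lit 3087) (.e (nat_lit 163902) (nat_lit 12) (.e (nat_lit 426566) (nat_lit 34) (.e (nat_lit 393291) (nat_lit 26) (.e (nat_lit 475179) (nat_lit 24) (.e (nat_lit 516120) (nat_lit 1) (.e (nat_lit 164329) (nat_lit 230) .nil)))))) (.g (nat_lit 1) (.e (nat_lit 153380) (nat_lit 0) .nil) .nil))) 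
(.lf (nat_lit 495567) (.g (nat_lit 1588) (.e (nat_lit 163903) (nat_lit 12) (.e (nat_lit 426568) (nat_lit 34) (.e (nat_lit 393234) (nat_lit 17) (.e (nat_lit 7310) (nat_lit 388) .nil)))) (.g (nat_lit 0) (.e (nat_lit 153985) (nat_lit 0) .nil) .nil))))))) (.nd (nat_lit 6) (.nd (nat_lit 7) (.nd (nat_lit 8) (.nd (nat_lit 9) 
(.lf (nat_lit 494639) (.g (nat_lit 3026) (.e (nat_lit 163886) (nat_lit 5) (.e (nat_lit 221194) (nat_lit 11) (.e (nat_lit 336075) (nat_lit 9) (.e (nat_lit 336443) (nat_lit 32) (.e (nat_lit 466969) (nat_lit 21) (.e (nat_lit 164327) (nat_lit 230) .nil)))))) (.g (nat_lit 1) (.e (nat_lit 152115) (nat_lit 0) .nil) .nil))) 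
(.lf (nat_lit 495151) (.g (nat_lit 3541) (.e (nat_lit 163902) (nat_lit 12) (.e (nat_lit 426568) (nat_lit 34) (.e (nat_lit 393268) (nat_lit 23) (.e (nat_lit 426438) (nat_lit 18) (.e (nat_lit 98335) (nat_lit 18) (.e (nat_lit 164332) (nat_lit 230) .nil)))))) (.g (nat_lit 1) (.e (nat_lit 153486) (nat_lit 0) .nil) .nil)))) (.nd (nat_lit 9) 
(.lf (nat_lit 494895) (.g (nat_lit 2530) (.e (nat_lit 163902) (nat_lit 12) (.e (nat_lit 426478) (nat_lit 27) (.e (nat_lit 336389) (nat_lit 27) (.e (nat_lit 426190) (nat_lit 9) (.e (nat_lit 426436) (nat_lit 18) (.e (nat_lit 98335) (nat_lit 18) (.e (nat_lit 164332) (nat_lit 230) .nil))))))) (.g (nat_lit 1) (.e (nat_lit 153176) (nat_lit 0) .nil) .nil))) 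
(.lf (nat_lit 495407) (.g (nat_lit 3007) (.e (nat_lit 163903) (nat_lit 12) (.e (nat_lit 426479) (nat_lit 27) (.e (nat_lit 336434) (nat_lit 30) (.e (nat_lit 450579) (nat_lit 5) (.e (nat_lit 532503) (nat_lit 1) (.e (nat_lit 57685) (nat_lit 156) .nil)))))) (.g (nat_lit 1) (.e (nat_lit 153814) (nat_lit 0) .nil) .nil))))) (.nd (nat_lit 8) (.nd (nat_lit 9) 
(.lf (nat_lit 494767) (.g (nat_lit 2065) (.e (nat_lit 163901) (nat_lit 12) (.e (nat_lit 426566) (nat_lit 34) (.e (nat_lit 393294) (nat_lit 26) (.e (nat_lit 475177) (nat_lit 24) (.e (nat_lit 516115) (nat_lit 1) .nil))))) (.g (nat_lit 0) (.e (nat_lit 152979) (nat_lit 0) .nil) .nil))) 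
(.lf (nat_lit 495279) (.g (nat_lit 2695) (.e (nat_lit 163902) (nat_lit 12) (.e (nat_lit 426568) (nat_lit 34) (.e (nat_lit 393294) (nat_lit 26) (.e (nat_lit 475177) (nat_lit 24) (.e (nat_lit 516115) (nat_lit 1) (.e (nat_lit 164331) (nat_lit 230) .nil)))))) (.g (nat_lit 1) (.e (nat_lit 153625) (nat_lit 0) .nil) .nil)))) (.nd (nat_lit 9) 
(.lf (nat_lit 495023) (.g (nat_lit 3620) (.e (nat_lit 163902) (nat_lit 12) (.e (nat_lit 426566) (nat_lit 34) (.e (nat_lit 393282) (nat_lit 24) (.e (nat_lit 434231) (nat_lit 23) (.e (nat_lit 532499) (nat_lit 1) (.e (nat_lit 57688) (nat_lit 156) .nil)))))) (.g (nat_lit 1) (.e (nat_lit 153347) (nat_lit 0) .nil) .nil))) 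
(.lf (nat_lit 495535) (.g (nat_lit 3317) (.e (nat_lit 163903) (nat_lit 12) (.e (nat_lit 426566) (nat_lit 34) (.e (nat_lit 393295) (nat_lit 26) (.e (nat_lit 475179) (nat_lit 24) (.e (nat_lit 516115) (nat_lit 1) (.e (nat_lit 164327) (nat_lit 230) .nil)))))) (.g (nat_lit 1) (.e (nat_lit 153953) (nat_lit 0) .nil) .nil)))))) (.nd (nat_lit 7) (.nd (nat_lit 8) (.nd (nat_lit 9) 
(.lf (nat_lit 494703) (.g (nat_lit 3558) (.e (nat_lit 163900) (nat_lit 12) (.e (nat_lit 426125) (nat_lit 2) (.e (nat_lit 196666) (nat_lit 13) (.e (nat_lit 65617) (nat_lit 10) (.e (nat_lit 344133) (nat_lit 26) (.e (nat_lit 557089) (nat_lit 12) (.e (nat_lit 163843) (nat_lit 0) (.e (nat_lit 6416) (nat_lit 341) .nil)))))))) (.g (nat_lit 1) (.e (nat_lit 152823) (nat_lit 0) .nil) .nil))) 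
(.lf (nat_lit 495215) (.g (nat_lit 3281) (.e (nat_lit 163902) (nat_lit 12) (.e (nat_lit 426568) (nat_lit 34) (.e (nat_lit 393284) (nat_lit 24) (.e (nat_lit 434233) (nat_lit 23) (.e (nat_lit 532499) (nat_lit 1) (.e (nat_lit 57686) (nat_lit 156) .nil)))))) (.g (nat_lit 1) (.e (nat_lit 153561) (nat_lit 0) .nil) .nil)))) (.nd (nat_lit 9) 
(.lf (nat_lit 494959) (.g (nat_lit 1131) (.e (nat_lit 163902) (nat_lit 12) (.e (nat_lit 426555) (nat_lit 32) (.e (nat_lit 376862) (nat_lit 22) (.e (nat_lit 90160) (nat_lit 11) .nil)))) (.g (nat_lit 0) (.e (nat_lit 153261) (nat_lit 0) .nil) .nil))) 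
(.lf (nat_lit 495471) (.g (nat_lit 2913) (.e (nat_lit 163903) (nat_lit 12) (.e (nat_lit 426566) (nat_lit 34) (.e (nat_lit 393268) (nat_lit 23) (.e (nat_lit 426428) (nat_lit 17) (.e (nat_lit 90165) (nat_lit 12) (.e (nat_lit 163853) (nat_lit 0) (.e (nat_lit 5224) (nat_lit 296) .nil))))))) (.g (nat_lit 1) (.e (nat_lit 153888) (nat_lit 0) .nil) .nil))))) (.nd (nat_lit 8) (.nd (nat_lit 9) 
(.lf (nat_lit 494831) (.g (nat_lit 2667) (.e (nat_lit 163902) (nat_lit 12) (.e (nat_lit 426438) (nat_lit 18) (.e (nat_lit 98363) (nat_lit 26) (.e (nat_lit 426321) (nat_lit 13) (.e (nat_lit 483363) (nat_lit 18) (.e (nat_lit 57686) (nat_lit 156) .nil)))))) (.g (nat_lit 1) (.e (nat_lit 153111) (nat_lit 0) .nil) .nil))) 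
(.lf (nat_lit 495343) (.g (nat_lit 3389) (.e (nat_lit 163903) (nat_lit 12) (.e (nat_lit 426437) (nat_lit 18) (.e (nat_lit 98365) (nat_lit 26) (.e (nat_lit 426325) (nat_lit 13) (.e (nat_lit 483363) (nat_lit 18) (.e (nat_lit 57688) (nat_lit 156) .nil)))))) (.g (nat_lit 1) (.e (nat_lit 153740) (nat_lit 0) .nil) .nil)))) (.nd (nat_lit 9) 
(.lf (nat_lit 495087) (.g (nat_lit 2613) (.e (nat_lit 163902) (nat_lit 12) (.e (nat_lit 426566) (nat_lit 34) (.e (nat_lit 393294) (nat_lit 26) (.e (nat_lit 475179) (nat_lit 24) (.e (nat_lit 516117) (nat_lit 1) (.e (nat_lit 164330) (nat_lit 230) .nil)))))) (.g (nat_lit 1) (.e (nat_lit 153412) (nat_lit 0) .nil) .nil))) 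
(.lf (nat_lit 495599) (.g (nat_lit 3876) (.e (nat_lit 163903) (nat_lit 12) (.e (nat_lit 426568) (nat_lit 34) (.e (nat_lit 393271) (nat_lit 23) (.e (nat_lit 426438) (nat_lit 18) (.e (nat_lit 98333) (nat_lit 18) (.e (nat_lit 164325) (nat_lit 230) .nil)))))) (.g (nat_lit 1) (.e (nat_lit 154019) (nat_lit 0) .nil) .nil)))))))) 
(.nd (nat_lit 5) (.nd (nat_lit 6) (.nd (nat_lit 7) (.nd (nat_lit 8) (.nd (nat_lit 9) 
(.lf (nat_lit 494623) (.g (nat_lit 1903) (.e (nat_lit 163886) (nat_lit 5) (.e (nat_lit 221192) (nat_lit 11) (.e (nat_lit 336152) (nat_lit 9) (.e (nat_lit 336442) (nat_lit 32) (.e (nat_lit 466969) (nat_lit 21) (.e (nat_lit 164327) (nat_lit 230) .nil)))))) (.g (nat_lit 1) (.e (nat_lit 152097) (nat_lit 0) .nil) .nil))) 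
(.lf (nat_lit 495135) (.g (nat_lit 3396) (.e (nat_lit 163902) (nat_lit 12) (.e (nat_lit 426568) (nat_lit 34) (.e (nat_lit 393266) (nat_lit 23) (.e (nat_lit 426438) (nat_lit 18) (.e (nat_lit 98334) (nat_lit 18) (.e (nat_lit 164332) (nat_lit 230) .nil)))))) (.g (nat_lit 1) (.e (nat_lit 153470) (nat_lit 0) .nil) .nil)))) (.nd (nat_lit 9) 
(.lf (nat_lit 494879) (.g (nat_lit 3073) (.e (nat_lit 163902) (nat_lit 12) (.e (nat_lit 426438) (nat_lit 18) (.e (nat_lit 98381) (nat_lit 31) (.e (nat_lit 466954) (nat_lit 11) (.e (nat_lit 335986) (nat_lit 1) (.e (nat_lit 57688) (nat_lit 156) .nil)))))) (.g (nat_lit 1) (.e (nat_lit 153160) (nat_lit 0) .nil) .nil))) 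
(.lf (nat_lit 495391) (.g (nat_lit 2995) (.e (nat_lit 163903) (nat_lit 12) (.e (nat_lit 426479) (nat_lit 27) (.e (nat_lit 336430) (nat_lit 29) (.e (nat_lit 442425) (nat_lit 23) (.e (nat_lit 204831) (nat_lit 18) (.e (nat_lit 57688) (nat_lit 156) .nil)))))) (.g (nat_lit 1) (.e (nat_lit 153797) (nat_lit 0) .nil) .nil))))) (.nd (nat_lit 8) (.nd (nat_lit 9) 
(.lf (nat_lit 494751) (.g (nat_lit 2289) (.e (nat_lit 163901) (nat_lit 12) (.e (nat_lit 426131) (nat_lit 3) (.e (nat_lit 204868) (nat_lit 29) (.e (nat_lit 360473) (nat_lit 8) (.e (nat_lit 557089) (nat_lit 12) .nil))))) (.g (nat_lit 0) (.e (nat_lit 152929) (nat_lit 0) .nil) .nil))) 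
(.lf (nat_lit 495263) (.g (nat_lit 2626) (.e (nat_lit 163902) (nat_lit 12) (.e (nat_lit 426568) (nat_lit 34) (.e (nat_lit 393293) (nat_lit 26) (.e (nat_lit 475177) (nat_lit 24) (.e (nat_lit 516120) (nat_lit 1) (.e (nat_lit 164332) (nat_lit 230) .nil)))))) (.g (nat_lit 1) (.e (nat_lit 153609) (nat_lit 0) .nil) .nil)))) (.nd (nat_lit 9) 
(.lf (nat_lit 495007) (.g (nat_lit 2515) (.e (nat_lit 163902) (nat_lit 12) (.e (nat_lit 426566) (nat_lit 34) (.e (nat_lit 393271) (nat_lit 23) (.e (nat_lit 426438) (nat_lit 18) (.e (nat_lit 98335) (nat_lit 18) (.e (nat_lit 164329) (nat_lit 230) .nil)))))) (.g (nat_lit 1) (.e (nat_lit 153331) (nat_lit 0) .nil) .nil))) 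
(.lf (nat_lit 495519) (.g (nat_lit 2313) (.e (nat_lit 163903) (nat_lit 12) (.e (nat_lit 426566) (nat_lit 34) (.e (nat_lit 393293) (nat_lit 26) (.e (nat_lit 475176) (nat_lit 24) (.e (nat_lit 516115) (nat_lit 1) (.e (nat_lit 164325) (nat_lit 230) .nil)))))) (.g (nat_lit 1) (.e (nat_lit 153936) (nat_lit 0) .nil) .nil)))))) (.nd (nat_lit 7) (.nd (nat_lit 8) (.nd (nat_lit 9) 
(.lf (nat_lit 494687) (.g (nat_lit 1742) (.e (nat_lit 163899) (nat_lit 11) (.e (nat_lit 417809) (nat_lit 6) (.e (nat_lit 286743) (nat_lit 9) (.e (nat_lit 336430) (nat_lit 29) (.e (nat_lit 442430) (nat_lit 24) .nil))))) (.g (nat_lit 0) (.e (nat_lit 152785) (nat_lit 0) .nil) .nil))) 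
(.lf (nat_lit 495199) (.g (nat_lit 1978) (.e (nat_lit 163902) (nat_lit 12) (.e (nat_lit 426568) (nat_lit 34) (.e (nat_lit 393281) (nat_lit 23) (.e (nat_lit 426138) (nat_lit 3) (.e (nat_lit 204831) (nat_lit 18) (.e (nat_lit 57686) (nat_lit 156) .nil)))))) (.g (nat_lit 1) (.e (nat_lit 153537) (nat_lit 0) .nil) .nil)))) (.nd (nat_lit 9) 
(.lf (nat_lit 494943) (.g (nat_lit 2357) (.e (nat_lit 163902) (nat_lit 12) (.e (nat_lit 426538) (nat_lit 29) (.e (nat_lit 352315) (nat_lit 23) (.e (nat_lit 98317) (nat_lit 9) (.e (nat_lit 335995) (nat_lit 1) (.e (nat_lit 57931) (nat_lit 282) .nil)))))) (.g (nat_lit 1) (.e (nat_lit 153241) (nat_lit 0) .nil) .nil))) 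
(.lf (nat_lit 495455) (.g (nat_lit 1139) (.e (nat_lit 163903) (nat_lit 12) (.e (nat_lit 426555) (nat_lit 32) (.e (nat_lit 376865) (nat_lit 22) (.e (nat_lit 90158) (nat_lit 11) .nil)))) (.g (nat_lit 0) (.e (nat_lit 153871) (nat_lit 0) .nil) .nil))))) (.nd (nat_lit 8) (.nd (nat_lit 9) 
(.lf (nat_lit 494815) (.g (nat_lit 2908) (.e (nat_lit 163902) (nat_lit 12) (.e (nat_lit 426436) (nat_lit 18) (.e (nat_lit 98380) (nat_lit 31) (.e (nat_lit 466954) (nat_lit 11) (.e (nat_lit 335995) (nat_lit 1) (.e (nat_lit 57688) (nat_lit 156) .nil)))))) (.g (nat_lit 1) (.e (nat_lit 153093) (nat_lit 0) .nil) .nil))) 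
(.lf (nat_lit 495327) (.g (nat_lit 1449) (.e (nat_lit 163903) (nat_lit 12) (.e (nat_lit 426436) (nat_lit 18) (.e (nat_lit 98358) (nat_lit 26) (.e (nat_lit 426322) (nat_lit 13) .nil)))) (.g (nat_lit 0) (.e (nat_lit 153723) (nat_lit 0) .nil) .nil)))) (.nd (nat_lit 9) 
(.lf (nat_lit 495071) (.g (nat_lit 3484) (.e (nat_lit 163902) (nat_lit 12) (.e (nat_lit 426566) (nat_lit 34) (.e (nat_lit 393293) (nat_lit 26) (.e (nat_lit 475179) (nat_lit 24) (.e (nat_lit 516120) (nat_lit 1) (.e (nat_lit 164332) (nat_lit 230) .nil)))))) (.g (nat_lit 1) (.e (nat_lit 153396) (nat_lit 0) .nil) .nil))) 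
(.lf (nat_lit 495583) (.g (nat_lit 2264) (.e (nat_lit 163903) (nat_lit 12) (.e (nat_lit 426568) (nat_lit 34) (.e (nat_lit 393270) (nat_lit 23) (.e (nat_lit 426438) (nat_lit 18) (.e (nat_lit 98335) (nat_lit 18) (.e (nat_lit 164326) (nat_lit 230) .nil)))))) (.g (nat_lit 1) (.e (nat_lit 154003) (nat_lit 0) .nil) .nil))))))) (.nd (nat_lit 6) (.nd (nat_lit 7) (.nd (nat_lit 8) (.nd (nat_lit 9) 
(.lf (nat_lit 494655) (.g (nat_lit 754) (.e (nat_lit 163891) (nat_lit 8) (.e (nat_lit 253991) (nat_lit 11) (.e (nat_lit 16424) (nat_lit 7) .nil))) (.g (nat_lit 0) (.e (nat_lit 152193) (nat_lit 0) .nil) .nil))) 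
(.lf (nat_lit 495167) (.g (nat_lit 1949) (.e (nat_lit 163902) (nat_lit 12) (.e (nat_lit 426568) (nat_lit 34) (.e (nat_lit 393271) (nat_lit 23) (.e (nat_lit 426379) (nat_lit 15) .nil)))) (.g (nat_lit 0) (.e (nat_lit 153502) (nat_lit 0) .nil) .nil)))) (.nd (nat_lit 9) 
(.lf (nat_lit 494911) (.g (nat_lit 1552) (.e (nat_lit 163902) (nat_lit 12) (.e (nat_lit 426479) (nat_lit 27) (.e (nat_lit 336430) (nat_lit 29) (.e (nat_lit 442427) (nat_lit 23) (.e (nat_lit 204828) (nat_lit 18) (.e (nat_lit 57686) (nat_lit 156) .nil)))))) (.g (nat_lit 1) (.e (nat_lit 153198) (nat_lit 0) .nil) .nil))) 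
(.lf (nat_lit 495423) (.g (nat_lit 2813) (.e (nat_lit 163903) (nat_lit 12) (.e (nat_lit 426481) (nat_lit 27) (.e (nat_lit 336389) (nat_lit 27) (.e (nat_lit 426308) (nat_lit 12) (.e (nat_lit 475177) (nat_lit 24) (.e (nat_lit 516118) (nat_lit 1) (.e (nat_lit 164324) (nat_lit 230) .nil))))))) (.g (nat_lit 1) (.e (nat_lit 153836) (nat_lit 0) .nil) .nil))))) (.nd (nat_lit 8) (.nd (nat_lit 9) 
(.lf (nat_lit 494783) (.g (nat_lit 2443) (.e (nat_lit 163902) (nat_lit 12) (.e (nat_lit 426428) (nat_lit 17) (.e (nat_lit 90170) (nat_lit 13) (.e (nat_lit 172106) (nat_lit 10) (.e (nat_lit 434202) (nat_lit 18) .nil))))) (.g (nat_lit 0) (.e (nat_lit 153053) (nat_lit 0) .nil) .nil))) 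
(.lf (nat_lit 495295) (.g (nat_lit 2905) (.e (nat_lit 163902) (nat_lit 12) (.e (nat_lit 426568) (nat_lit 34) (.e (nat_lit 393294) (nat_lit 26) (.e (nat_lit 475179) (nat_lit 24) (.e (nat_lit 516115) (nat_lit 1) (.e (nat_lit 164332) (nat_lit 230) .nil)))))) (.g (nat_lit 1) (.e (nat_lit 153641) (nat_lit 0) .nil) .nil)))) (.nd (nat_lit 9) 
(.lf (nat_lit 495039) (.g (nat_lit 4011) (.e (nat_lit 163902) (nat_lit 12) (.e (nat_lit 426566) (nat_lit 34) (.e (nat_lit 393290) (nat_lit 26) (.e (nat_lit 475179) (nat_lit 24) (.e (nat_lit 516120) (nat_lit 1) (.e (nat_lit 164330) (nat_lit 230) .nil)))))) (.g (nat_lit 1) (.e (nat_lit 153364) (nat_lit 0) .nil) .nil))) 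
(.lf (nat_lit 495551) (.g (nat_lit 1972) (.e (nat_lit 163903) (nat_lit 12) (.e (nat_lit 426567) (nat_lit 34) (.e (nat_lit 393270) (nat_lit 23) (.e (nat_lit 426438) (nat_lit 18) (.e (nat_lit 98335) (nat_lit 18) (.e (nat_lit 164326) (nat_lit 230) .nil)))))) (.g (nat_lit 1) (.e (nat_lit 153969) (nat_lit 0) .nil) .nil)))))) (.nd (nat_lit 7) (.nd (nat_lit 8) (.nd (nat_lit 9) 
(.lf (nat_lit 494719) (.g (nat_lit 2108) (.e (nat_lit 163900) (nat_lit 12) (.e (nat_lit 426140) (nat_lit 3) (.e (nat_lit 204868) (nat_lit 29) (.e (nat_lit 360473) (nat_lit 8) (.e (nat_lit 557094) (nat_lit 12) (.e (nat_lit 163848) (nat_lit 0) (.e (nat_lit 6418) (nat_lit 341) .nil))))))) (.g (nat_lit 1) (.e (nat_lit 152857) (nat_lit 0) .nil) .nil))) 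
(.lf (nat_lit 495231) (.g (nat_lit 3810) (.e (nat_lit 163902) (nat_lit 12) (.e (nat_lit 426568) (nat_lit 34) (.e (nat_lit 393291) (nat_lit 26) (.e (nat_lit 475177) (nat_lit 24) (.e (nat_lit 516115) (nat_lit 1) (.e (nat_lit 164332) (nat_lit 230) .nil)))))) (.g (nat_lit 1) (.e (nat_lit 153577) (nat_lit 0) .nil) .nil)))) (.nd (nat_lit 9) 
(.lf (nat_lit 494975) (.g (nat_lit 3071) (.e (nat_lit 163902) (nat_lit 12) (.e (nat_lit 426564) (nat_lit 34) (.e (nat_lit 393296) (nat_lit 26) (.e (nat_lit 475178) (nat_lit 24) (.e (nat_lit 516120) (nat_lit 1) (.e (nat_lit 164329) (nat_lit 230) .nil)))))) (.g (nat_lit 1) (.e (nat_lit 153298) (nat_lit 0) .nil) .nil))) 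
(.lf (nat_lit 495487) (.g (nat_lit 2853) (.e (nat_lit 163903) (nat_lit 12) (.e (nat_lit 426566) (nat_lit 34) (.e (nat_lit 393271) (nat_lit 23) (.e (nat_lit 426436) (nat_lit 18) (.e (nat_lit 98333) (nat_lit 18) (.e (nat_lit 164326) (nat_lit 230) .nil)))))) (.g (nat_lit 1) (.e (nat_lit 153904) (nat_lit 0) .nil) .nil))))) (.nd (nat_lit 8) (.nd (nat_lit 9) 
(.lf (nat_lit 494847) (.g (nat_lit 3167) (.e (nat_lit 163902) (nat_lit 12) (.e (nat_lit 426438) (nat_lit 18) (.e (nat_lit 98373) (nat_lit 29) (.e (nat_lit 450561) (nat_lit 0) (.e (nat_lit 6839) (nat_lit 369) (.e (nat_lit 163864) (nat_lit 1) (.e (nat_lit 164332) (nat_lit 230) .nil))))))) (.g (nat_lit 1) (.e (nat_lit 153127) (nat_lit 0) .nil) .nil))) 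
(.lf (nat_lit 495359) (.g (nat_lit 3501) (.e (nat_lit 163903) (nat_lit 12) (.e (nat_lit 426438) (nat_lit 18) (.e (nat_lit 98373) (nat_lit 29) (.e (nat_lit 450562) (nat_lit 0) (.e (nat_lit 6841) (nat_lit 369) .nil))))) (.g (nat_lit 0) (.e (nat_lit 153760) (nat_lit 0) .nil) .nil)))) (.nd (nat_lit 9) 
(.lf (nat_lit 495103) (.g (nat_lit 2706) (.e (nat_lit 163902) (nat_lit 12) (.e (nat_lit 426566) (nat_lit 34) (.e (nat_lit 393296) (nat_lit 26) (.e (nat_lit 475176) (nat_lit 24) (.e (nat_lit 516115) (nat_lit 1) (.e (nat_lit 164332) (nat_lit 230) .nil)))))) (.g (nat_lit 1) (.e (nat_lit 153428) (nat_lit 0) .nil) .nil))) 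
(.lf (nat_lit 495615) (.g (nat_lit 2751) (.e (nat_lit 163903) (nat_lit 12) (.e (nat_lit 426568) (nat_lit 34) (.e (nat_lit 393284) (nat_lit 24) (.e (nat_lit 434233) (nat_lit 23) (.e (nat_lit 532503) (nat_lit 1) (.e (nat_lit 57685) (nat_lit 156) .nil)))))) (.g (nat_lit 1) (.e (nat_lit 154037) (nat_lit 0) .nil) .nil)))))))))))))

noncomputable def tv5544 : DT := (.nd (nat_lit 0) (.nd (nat_lit 1) (.nd (nat_lit 2) (.nd (nat_lit 3) (.nd (nat_lit 4) (.nd (nat_lit 5) (.nd (nat_lit 6) (.nd (nat_lit 7) (.nd (nat_lit 8) (.nd (nat_lit 9) 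
(.lf (nat_lit 495616) (.g (nat_lit 2577) (.e (nat_lit 163903) (nat_lit 12) (.e (nat_lit 426568) (nat_lit 34) (.e (nat_lit 393286) (nat_lit 25) (.e (nat_lit 458789) (nat_lit 23) (.e (nat_lit 532501) (nat_lit 1) (.e (nat_lit 57685) (nat_lit 156) .nil)))))) (.g (nat_lit 1) (.e (nat_lit 154038) (nat_lit 0) .nil) .nil))) 
(.lf (nat_lit 496128) (.g (nat_lit 2234) (.e (nat_lit 163905) (nat_lit 12) (.e (nat_lit 426544) (nat_lit 30) (.e (nat_lit 360467) (nat_lit 3) (.e (nat_lit 516199) (nat_lit 26) (.e (nat_lit 335988) (nat_lit 1) (.e (nat_lit 57927) (nat_lit 282) .nil)))))) (.g (nat_lit 1) (.e (nat_lit 154910) (nat_lit 0) .nil) .nil)))) (.nd (nat_lit 9) 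
(.lf (nat_lit 495872) (.g (nat_lit 3942) (.e (nat_lit 163905) (nat_lit 12) (.e (nat_lit 426428) (nat_lit 17) (.e (nat_lit 90170) (nat_lit 13) (.e (nat_lit 172121) (nat_lit 13) (.e (nat_lit 483363) (nat_lit 18) (.e (nat_lit 57688) (nat_lit 156) .nil)))))) (.g (nat_lit 1) (.e (nat_lit 154550) (nat_lit 0) .nil) .nil))) 
(.lf (nat_lit 496384) (.g (nat_lit 1459) (.e (nat_lit 163905) (nat_lit 12) (.e (nat_lit 426568) (nat_lit 34) (.e (nat_lit 393283) (nat_lit 24) (.e (nat_lit 434234) (nat_lit 23) (.e (nat_lit 532502) (nat_lit 1) (.e (nat_lit 57692) (nat_lit 156) .nil)))))) (.g (nat_lit 1) (.e (nat_lit 155183) (nat_lit 0) .nil) .nil))))) (.nd (nat_lit 8) (.nd (nat_lit 9) 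
(.lf (nat_lit 495744) (.g (nat_lit 1703) (.e (nat_lit 163904) (nat_lit 12) (.e (nat_lit 426566) (nat_lit 34) (.e (nat_lit 393287) (nat_lit 25) (.e (nat_lit 458789) (nat_lit 23) (.e (nat_lit 532501) (nat_lit 1) (.e (nat_lit 57685) (nat_lit 156) .nil)))))) (.g (nat_lit 1) (.e (nat_lit 154210) (nat_lit 0) .nil) .nil))) 
(.lf (nat_lit 496256) (.g (nat_lit 2834) (.e (nat_lit 163905) (nat_lit 12) (.e (nat_lit 426566) (nat_lit 34) (.e (nat_lit 393291) (nat_lit 26) (.e (nat_lit 475177) (nat_lit 24) (.e (nat_lit 516118) (nat_lit 1) (.e (nat_lit 164325) (nat_lit 230) .nil)))))) (.g (nat_lit 1) (.e (nat_lit 155054) (nat_lit 0) .nil) .nil)))) (.nd (nat_lit 9) 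
(.lf (nat_lit 496000) (.g (nat_lit 2876) (.e (nat_lit 163905) (nat_lit 12) (.e (nat_lit 426479) (nat_lit 27) (.e (nat_lit 336434) (nat_lit 30) (.e (nat_lit 450579) (nat_lit 5) (.e (nat_lit 532499) (nat_lit 1) (.e (nat_lit 57691) (nat_lit 156) .nil)))))) (.g (nat_lit 1) (.e (nat_lit 154683) (nat_lit 0) .nil) .nil))) 
(.lf (nat_lit 496512) (.g (nat_lit 2103) (.e (nat_lit 163907) (nat_lit 12) (.e (nat_lit 426428) (nat_lit 17) (.e (nat_lit 90170) (nat_lit 13) (.e (nat_lit 172121) (nat_lit 13) (.e (nat_lit 483366) (nat_lit 18) (.e (nat_lit 57692) (nat_lit 156) .nil)))))) (.g (nat_lit 1) (.e (nat_lit 155731) (nat_lit 0) .nil) .nil)))))) (.nd (nat_lit 7) (.nd (nat_lit 8) (.nd (nat_lit 9) 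
(.lf (nat_lit 495680) (.g (nat_lit 2483) (.e (nat_lit 163904) (nat_lit 12) (.e (nat_lit 426555) (nat_lit 32) (.e (nat_lit 376869) (nat_lit 23) (.e (nat_lit 98313) (nat_lit 9) (.e (nat_lit 335988) (nat_lit 1) (.e (nat_lit 57927) (nat_lit 282) .nil)))))) (.g (nat_lit 1) (.e (nat_lit 154144) (nat_lit 0) .nil) .nil))) 
(.lf (nat_lit 496192) (.g (nat_lit 2130) (.e (nat_lit 163905) (nat_lit 12) (.e (nat_lit 426564) (nat_lit 34) (.e (nat_lit 393291) (nat_lit 26) (.e (nat_lit 475177) (nat_lit 24) (.e (nat_lit 516120) (nat_lit 1) (.e (nat_lit 164332) (nat_lit 230) .nil)))))) (.g (nat_lit 1) (.e (nat_lit 154990) (nat_lit 0) .nil) .nil)))) (.nd (nat_lit 9) 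
(.lf (nat_lit 495936) (.g (nat_lit 3456) (.e (nat_lit 163905) (nat_lit 12) (.e (nat_lit 426438) (nat_lit 18) (.e (nat_lit 98358) (nat_lit 26) (.e (nat_lit 426323) (nat_lit 13) (.e (nat_lit 483363) (nat_lit 18) (.e (nat_lit 57691) (nat_lit 156) .nil)))))) (.g (nat_lit 1) (.e (nat_lit 154617) (nat_lit 0) .nil) .nil))) 
(.lf (nat_lit 496448) (.g (nat_lit 842) (.e (nat_lit 163906) (nat_lit 12) (.e (nat_lit 426436) (nat_lit 18) (.e (nat_lit 98381) (nat_lit 31) .nil))) (.g (nat_lit 0) (.e (nat_lit 155402) (nat_lit 0) .nil) .nil))))) (.nd (nat_lit 8) (.nd (nat_lit 9) 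
(.lf (nat_lit 495808) (.g (nat_lit 3078) (.e (nat_lit 163904) (nat_lit 12) (.e (nat_lit 426566) (nat_lit 34) (.e (nat_lit 393294) (nat_lit 26) (.e (nat_lit 475177) (nat_lit 24) (.e (nat_lit 516117) (nat_lit 1) (.e (nat_lit 164332) (nat_lit 230) .nil)))))) (.g (nat_lit 1) (.e (nat_lit 154275) (nat_lit 0) .nil) .nil))) 
(.lf (nat_lit 496320) (.g (nat_lit 2835) (.e (nat_lit 163905) (nat_lit 12) (.e (nat_lit 426567) (nat_lit 34) (.e (nat_lit 393294) (nat_lit 26) (.e (nat_lit 475179) (nat_lit 24) (.e (nat_lit 516117) (nat_lit 1) (.e (nat_lit 164332) (nat_lit 230) .nil)))))) (.g (nat_lit 1) (.e (nat_lit 155118) (nat_lit 0) .nil) .nil)))) (.nd (nat_lit 9) 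
(.lf (nat_lit 496064) (.g (nat_lit 2362) (.e (nat_lit 163905) (nat_lit 12) (.e (nat_lit 426509) (nat_lit 27) (.e (nat_lit 336412) (nat_lit 27) (.e (nat_lit 426306) (nat_lit 12) (.e (nat_lit 475179) (nat_lit 24) (.e (nat_lit 516120) (nat_lit 1) (.e (nat_lit 164332) (nat_lit 230) .nil))))))) (.g (nat_lit 1) (.e (nat_lit 154842) (nat_lit 0) .nil) .nil))) 
(.lf (nat_lit 496576) (.g (nat_lit 3203) (.e (nat_lit 163907) (nat_lit 12) (.e (nat_lit 426478) (nat_lit 27) (.e (nat_lit 336443) (nat_lit 32) (.e (nat_lit 466981) (nat_lit 23) (.e (nat_lit 204829) (nat_lit 18) (.e (nat_lit 57692) (nat_lit 156) .nil)))))) (.g (nat_lit 1) (.e (nat_lit 155802) (nat_lit 0) .nil) .nil))))))) (.nd (nat_lit 6) (.nd (nat_lit 7) (.nd (nat_lit 8) (.nd (nat_lit 9) 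
(.lf (nat_lit 495648) (.g (nat_lit 4135) (.e (nat_lit 163903) (nat_lit 12) (.e (nat_lit 426568) (nat_lit 34) (.e (nat_lit 393294) (nat_lit 26) (.e (nat_lit 475177) (nat_lit 24) (.e (nat_lit 516119) (nat_lit 1) (.e (nat_lit 164325) (nat_lit 230) .nil)))))) (.g (nat_lit 1) (.e (nat_lit 154073) (nat_lit 0) .nil) .nil))) 
(.lf (nat_lit 496160) (.g (nat_lit 1069) (.e (nat_lit 163905) (nat_lit 12) (.e (nat_lit 426555) (nat_lit 32) (.e (nat_lit 376865) (nat_lit 22) (.e (nat_lit 90158) (nat_lit 11) .nil)))) (.g (nat_lit 0) (.e (nat_lit 154953) (nat_lit 0) .nil) .nil)))) (.nd (nat_lit 9) 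
(.lf (nat_lit 495904) (.g (nat_lit 2106) (.e (nat_lit 163905) (nat_lit 12) (.e (nat_lit 426432) (nat_lit 17) (.e (nat_lit 90178) (nat_lit 15) (.e (nat_lit 188421) (nat_lit 11) (.e (nat_lit 335996) (nat_lit 1) (.e (nat_lit 57692) (nat_lit 156) .nil)))))) (.g (nat_lit 1) (.e (nat_lit 154583) (nat_lit 0) .nil) .nil))) 
(.lf (nat_lit 496416) (.g (nat_lit 2477) (.e (nat_lit 163905) (nat_lit 12) (.e (nat_lit 426568) (nat_lit 34) (.e (nat_lit 393294) (nat_lit 26) (.e (nat_lit 475179) (nat_lit 24) (.e (nat_lit 516115) (nat_lit 1) (.e (nat_lit 164332) (nat_lit 230) .nil)))))) (.g (nat_lit 1) (.e (nat_lit 155215) (nat_lit 0) .nil) .nil))))) (.nd (nat_lit 8) (.nd (nat_lit 9) 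
(.lf (nat_lit 495776) (.g (nat_lit 3702) (.e (nat_lit 163904) (nat_lit 12) (.e (nat_lit 426566) (nat_lit 34) (.e (nat_lit 393291) (nat_lit 26) (.e (nat_lit 475179) (nat_lit 24) (.e (nat_lit 516115) (nat_lit 1) (.e (nat_lit 164325) (nat_lit 230) .nil)))))) (.g (nat_lit 1) (.e (nat_lit 154243) (nat_lit 0) .nil) .nil))) 
(.lf (nat_lit 496288) (.g (nat_lit 3112) (.e (nat_lit 163905) (nat_lit 12) (.e (nat_lit 426566) (nat_lit 34) (.e (nat_lit 393295) (nat_lit 26) (.e (nat_lit 475177) (nat_lit 24) (.e (nat_lit 516120) (nat_lit 1) (.e (nat_lit 164332) (nat_lit 230) .nil)))))) (.g (nat_lit 1) (.e (nat_lit 155086) (nat_lit 0) .nil) .nil)))) (.nd (nat_lit 9) 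
(.lf (nat_lit 496032) (.g (nat_lit 4403) (.e (nat_lit 163905) (nat_lit 12) (.e (nat_lit 426482) (nat_lit 27) (.e (nat_lit 336388) (nat_lit 27) (.e (nat_lit 426188) (nat_lit 9) (.e (nat_lit 426436) (nat_lit 18) (.e (nat_lit 98335) (nat_lit 18) (.e (nat_lit 164330) (nat_lit 230) .nil))))))) (.g (nat_lit 1) (.e (nat_lit 154789) (nat_lit 0) .nil) .nil))) 
(.lf (nat_lit 496544) (.g (nat_lit 2469) (.e (nat_lit 163907) (nat_lit 12) (.e (nat_lit 426436) (nat_lit 18) (.e (nat_lit 98380) (nat_lit 31) (.e (nat_lit 466954) (nat_lit 11) (.e (nat_lit 335994) (nat_lit 1) (.e (nat_lit 57692) (nat_lit 156) .nil)))))) (.g (nat_lit 1) (.e (nat_lit 155768) (nat_lit 0) .nil) .nil)))))) (.nd (nat_lit 7) (.nd (nat_lit 8) (.nd (nat_lit 9) 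
(.lf (nat_lit 495712) (.g (nat_lit 2354) (.e (nat_lit 163904) (nat_lit 12) (.e (nat_lit 426566) (nat_lit 34) (.e (nat_lit 393270) (nat_lit 23) (.e (nat_lit 426436) (nat_lit 18) (.e (nat_lit 98335) (nat_lit 18) (.e (nat_lit 164329) (nat_lit 230) .nil)))))) (.g (nat_lit 1) (.e (nat_lit 154177) (nat_lit 0) .nil) .nil))) 
(.lf (nat_lit 496224) (.g (nat_lit 2616) (.e (nat_lit 163905) (nat_lit 12) (.e (nat_lit 426566) (nat_lit 34) (.e (nat_lit 393272) (nat_lit 23) (.e (nat_lit 426438) (nat_lit 18) (.e (nat_lit 98333) (nat_lit 18) (.e (nat_lit 164325) (nat_lit 230) .nil)))))) (.g (nat_lit 1) (.e (nat_lit 155022) (nat_lit 0) .nil) .nil)))) (.nd (nat_lit 9) 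
(.lf (nat_lit 495968) (.g (nat_lit 2379) (.e (nat_lit 163905) (nat_lit 12) (.e (nat_lit 426478) (nat_lit 27) (.e (nat_lit 336385) (nat_lit 27) (.e (nat_lit 426306) (nat_lit 12) (.e (nat_lit 475177) (nat_lit 24) (.e (nat_lit 516120) (nat_lit 1) (.e (nat_lit 164330) (nat_lit 230) .nil))))))) (.g (nat_lit 1) (.e (nat_lit 154651) (nat_lit 0) .nil) .nil))) 
(.lf (nat_lit 496480) (.g (nat_lit 2854) (.e (nat_lit 163906) (nat_lit 12) (.e (nat_lit 426566) (nat_lit 34) (.e (nat_lit 393291) (nat_lit 26) (.e (nat_lit 475177) (nat_lit 24) (.e (nat_lit 516118) (nat_lit 1) (.e (nat_lit 164325) (nat_lit 230) .nil)))))) (.g (nat_lit 1) (.e (nat_lit 155435) (nat_lit 0) .nil) .nil))))) (.nd (nat_lit 8) (.nd (nat_lit 9) 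
(.lf (nat_lit 495840) (.g (nat_lit 1686) (.e (nat_lit 163904) (nat_lit 12) (.e (nat_lit 426568) (nat_lit 34) (.e (nat_lit 393271) (nat_lit 23) (.e (nat_lit 426131) (nat_lit 3) .nil)))) (.g (nat_lit 0) (.e (nat_lit 154311) (nat_lit 0) .nil) .nil))) 
(.lf (nat_lit 496352) (.g (nat_lit 2042) (.e (nat_lit 163905) (nat_lit 12) (.e (nat_lit 426568) (nat_lit 34) (.e (nat_lit 393271) (nat_lit 23) (.e (nat_lit 426131) (nat_lit 3) (.e (nat_lit 204830) (nat_lit 18) (.e (nat_lit 57690) (nat_lit 156) .nil)))))) (.g (nat_lit 1) (.e (nat_lit 155151) (nat_lit 0) .nil) .nil)))) (.nd (nat_lit 9) 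
(.lf (nat_lit 496096) (.g (nat_lit 2921) (.e (nat_lit 163905) (nat_lit 12) (.e (nat_lit 426542) (nat_lit 29) (.e (nat_lit 352313) (nat_lit 23) (.e (nat_lit 98313) (nat_lit 9) (.e (nat_lit 335988) (nat_lit 1) (.e (nat_lit 57926) (nat_lit 282) .nil)))))) (.g (nat_lit 1) (.e (nat_lit 154877) (nat_lit 0) .nil) .nil))) 
(.lf (nat_lit 496608) (.g (nat_lit 3236) (.e (nat_lit 163907) (nat_lit 12) (.e (nat_lit 426481) (nat_lit 27) (.e (nat_lit 336389) (nat_lit 27) (.e (nat_lit 426308) (nat_lit 12) (.e (nat_lit 475177) (nat_lit 24) (.e (nat_lit 516119) (nat_lit 1) (.e (nat_lit 164325) (nat_lit 230) .nil))))))) (.g (nat_lit 1) (.e (nat_lit 155838) (nat_lit 0) .nil) .nil)))))))) 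
(.nd (nat_lit 5) (.nd (nat_lit 6) (.nd (nat_lit 7) (.nd (nat_lit 8) (.nd (nat_lit 9) 
(.lf (nat_lit 495632) (.g (nat_lit 2440) (.e (nat_lit 163903) (nat_lit 12) (.e (nat_lit 426568) (nat_lit 34) (.e (nat_lit 393291) (nat_lit 26) (.e (nat_lit 475179) (nat_lit 24) (.e (nat_lit 516119) (nat_lit 1) (.e (nat_lit 164327) (nat_lit 230) .nil)))))) (.g (nat_lit 1) (.e (nat_lit 154056) (nat_lit 0) .nil) .nil))) 
(.lf (nat_lit 496144) (.g (nat_lit 965) (.e (nat_lit 163905) (nat_lit 12) (.e (nat_lit 426555) (nat_lit 32) (.e (nat_lit 376862) (nat_lit 22) (.e (nat_lit 90158) (nat_lit 11) .nil)))) (.g (nat_lit 0) (.e (nat_lit 154933) (nat_lit 0) .nil) .nil)))) (.nd (nat_lit 9) 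
(.lf (nat_lit 495888) (.g (nat_lit 1304) (.e (nat_lit 163905) (nat_lit 12) (.e (nat_lit 426428) (nat_lit 17) (.e (nat_lit 90176) (nat_lit 15) (.e (nat_lit 188421) (nat_lit 11) .nil)))) (.g (nat_lit 0) (.e (nat_lit 154567) (nat_lit 0) .nil) .nil))) 
(.lf (nat_lit 496400) (.g (nat_lit 3295) (.e (nat_lit 163905) (nat_lit 12) (.e (nat_lit 426568) (nat_lit 34) (.e (nat_lit 393291) (nat_lit 26) (.e (nat_lit 475177) (nat_lit 24) (.e (nat_lit 516120) (nat_lit 1) (.e (nat_lit 164332) (nat_lit 230) .nil)))))) (.g (nat_lit 1) (.e (nat_lit 155199) (nat_lit 0) .nil) .nil))))) (.nd (nat_lit 8) (.nd (nat_lit 9) 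
(.lf (nat_lit 495760) (.g (nat_lit 2789) (.e (nat_lit 163904) (nat_lit 12) (.e (nat_lit 426566) (nat_lit 34) (.e (nat_lit 393291) (nat_lit 26) (.e (nat_lit 475177) (nat_lit 24) (.e (nat_lit 516117) (nat_lit 1) (.e (nat_lit 164332) (nat_lit 230) .nil)))))) (.g (nat_lit 1) (.e (nat_lit 154227) (nat_lit 0) .nil) .nil))) 
(.lf (nat_lit 496272) (.g (nat_lit 2005) (.e (nat_lit 163905) (nat_lit 12) (.e (nat_lit 426566) (nat_lit 34) (.e (nat_lit 393294) (nat_lit 26) (.e (nat_lit 475176) (nat_lit 24) .nil)))) (.g (nat_lit 0) (.e (nat_lit 155070) (nat_lit 0) .nil) .nil)))) (.nd (nat_lit 9) 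
(.lf (nat_lit 496016) (.g (nat_lit 2555) (.e (nat_lit 163905) (nat_lit 12) (.e (nat_lit 426480) (nat_lit 27) (.e (nat_lit 336389) (nat_lit 27) (.e (nat_lit 426308) (nat_lit 12) (.e (nat_lit 475179) (nat_lit 24) (.e (nat_lit 516120) (nat_lit 1) (.e (nat_lit 164330) (nat_lit 230) .nil))))))) (.g (nat_lit 1) (.e (nat_lit 154699) (nat_lit 0) .nil) .nil))) 
(.lf (nat_lit 496528) (.g (nat_lit 2023) (.e (nat_lit 163907) (nat_lit 12) (.e (nat_lit 426434) (nat_lit 18) (.e (nat_lit 98381) (nat_lit 31) (.e (nat_lit 466954) (nat_lit 11) (.e (nat_lit 335987) (nat_lit 1) (.e (nat_lit 57692) (nat_lit 156) .nil)))))) (.g (nat_lit 1) (.e (nat_lit 155747) (nat_lit 0) .nil) .nil)))))) (.nd (nat_lit 7) (.nd (nat_lit 8) (.nd (nat_lit 9) 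
(.lf (nat_lit 495696) (.g (nat_lit 3638) (.e (nat_lit 163904) (nat_lit 12) (.e (nat_lit 426566) (nat_lit 34) (.e (nat_lit 393268) (nat_lit 23) (.e (nat_lit 426436) (nat_lit 18) (.e (nat_lit 98335) (nat_lit 18) (.e (nat_lit 164322) (nat_lit 230) .nil)))))) (.g (nat_lit 1) (.e (nat_lit 154161) (nat_lit 0) .nil) .nil))) 
(.lf (nat_lit 496208) (.g (nat_lit 3322) (.e (nat_lit 163905) (nat_lit 12) (.e (nat_lit 426566) (nat_lit 34) (.e (nat_lit 393271) (nat_lit 23) (.e (nat_lit 426131) (nat_lit 3) (.e (nat_lit 204830) (nat_lit 18) (.e (nat_lit 57692) (nat_lit 156) .nil)))))) (.g (nat_lit 1) (.e (nat_lit 155006) (nat_lit 0) .nil) .nil)))) (.nd (nat_lit 9) 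
(.lf (nat_lit 495952) (.g (nat_lit 1779) (.e (nat_lit 163905) (nat_lit 12) (.e (nat_lit 426438) (nat_lit 18) (.e (nat_lit 98380) (nat_lit 31) (.e (nat_lit 466954) (nat_lit 11) (.e (nat_lit 335993) (nat_lit 1) (.e (nat_lit 57692) (nat_lit 156) .nil)))))) (.g (nat_lit 1) (.e (nat_lit 154635) (nat_lit 0) .nil) .nil))) 
(.lf (nat_lit 496464) (.g (nat_lit 1774) (.e (nat_lit 163906) (nat_lit 12) (.e (nat_lit 426438) (nat_lit 18) (.e (nat_lit 98381) (nat_lit 31) (.e (nat_lit 466954) (nat_lit 11) (.e (nat_lit 335987) (nat_lit 1) (.e (nat_lit 57692) (nat_lit 156) .nil)))))) (.g (nat_lit 1) (.e (nat_lit 155418) (nat_lit 0) .nil) .nil))))) (.nd (nat_lit 8) (.nd (nat_lit 9) 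
(.lf (nat_lit 495824) (.g (nat_lit 3149) (.e (nat_lit 163904) (nat_lit 12) (.e (nat_lit 426566) (nat_lit 34) (.e (nat_lit 393294) (nat_lit 26) (.e (nat_lit 475177) (nat_lit 24) (.e (nat_lit 516120) (nat_lit 1) (.e (nat_lit 164332) (nat_lit 230) .nil)))))) (.g (nat_lit 1) (.e (nat_lit 154291) (nat_lit 0) .nil) .nil))) 
(.lf (nat_lit 496336) (.g (nat_lit 3351) (.e (nat_lit 163905) (nat_lit 12) (.e (nat_lit 426568) (nat_lit 34) (.e (nat_lit 393268) (nat_lit 23) (.e (nat_lit 426436) (nat_lit 18) (.e (nat_lit 98334) (nat_lit 18) (.e (nat_lit 164332) (nat_lit 230) .nil)))))) (.g (nat_lit 1) (.e (nat_lit 155135) (nat_lit 0) .nil) .nil)))) (.nd (nat_lit 9) 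
(.lf (nat_lit 496080) (.g (nat_lit 2742) (.e (nat_lit 163905) (nat_lit 12) (.e (nat_lit 426530) (nat_lit 27) (.e (nat_lit 336390) (nat_lit 27) (.e (nat_lit 426306) (nat_lit 12) (.e (nat_lit 475179) (nat_lit 24) (.e (nat_lit 516120) (nat_lit 1) (.e (nat_lit 164332) (nat_lit 230) .nil))))))) (.g (nat_lit 1) (.e (nat_lit 154858) (nat_lit 0) .nil) .nil))) 
(.lf (nat_lit 496592) (.g (nat_lit 1976) (.e (nat_lit 163907) (nat_lit 12) (.e (nat_lit 426479) (nat_lit 27) (.e (nat_lit 336434) (nat_lit 30) (.e (nat_lit 450579) (nat_lit 5) (.e (nat_lit 532501) (nat_lit 1) (.e (nat_lit 57685) (nat_lit 156) .nil)))))) (.g (nat_lit 1) (.e (nat_lit 155818) (nat_lit 0) .nil) .nil))))))) (.nd (nat_lit 6) (.nd (nat_lit 7) (.nd (nat_lit 8) (.nd (nat_lit 9) 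
(.lf (nat_lit 495664) (.g (nat_lit 410) (.e (nat_lit 163904) (nat_lit 12) (.e (nat_lit 426555) (nat_lit 32) (.e (nat_lit 376867) (nat_lit 23) .nil))) (.g (nat_lit 0) (.e (nat_lit 154128) (nat_lit 0) .nil) .nil))) 
(.lf (nat_lit 496176) (.g (nat_lit 2010) (.e (nat_lit 163905) (nat_lit 12) (.e (nat_lit 426555) (nat_lit 32) (.e (nat_lit 376867) (nat_lit 23) (.e (nat_lit 98317) (nat_lit 9) (.e (nat_lit 335994) (nat_lit 1) (.e (nat_lit 57931) (nat_lit 282) .nil)))))) (.g (nat_lit 1) (.e (nat_lit 154973) (nat_lit 0) .nil) .nil)))) (.nd (nat_lit 9) 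
(.lf (nat_lit 495920) (.g (nat_lit 2748) (.e (nat_lit 163905) (nat_lit 12) (.e (nat_lit 426436) (nat_lit 18) (.e (nat_lit 98380) (nat_lit 31) (.e (nat_lit 466954) (nat_lit 11) (.e (nat_lit 335988) (nat_lit 1) (.e (nat_lit 57692) (nat_lit 156) .nil)))))) (.g (nat_lit 1) (.e (nat_lit 154601) (nat_lit 0) .nil) .nil))) 
(.lf (nat_lit 496432) (.g (nat_lit 503) (.e (nat_lit 163906) (nat_lit 12) (.e (nat_lit 426428) (nat_lit 17) (.e (nat_lit 90178) (nat_lit 15) .nil))) (.g (nat_lit 0) (.e (nat_lit 155384) (nat_lit 0) .nil) .nil))))) (.nd (nat_lit 8) (.nd (nat_lit 9) 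
(.lf (nat_lit 495792) (.g (nat_lit 971) (.e (nat_lit 163904) (nat_lit 12) (.e (nat_lit 426566) (nat_lit 34) (.e (nat_lit 393293) (nat_lit 26) (.e (nat_lit 475177) (nat_lit 24) .nil)))) (.g (nat_lit 0) (.e (nat_lit 154259) (nat_lit 0) .nil) .nil))) 
(.lf (nat_lit 496304) (.g (nat_lit 2890) (.e (nat_lit 163905) (nat_lit 12) (.e (nat_lit 426566) (nat_lit 34) (.e (nat_lit 393296) (nat_lit 26) (.e (nat_lit 475178) (nat_lit 24) (.e (nat_lit 516120) (nat_lit 1) (.e (nat_lit 164330) (nat_lit 230) .nil)))))) (.g (nat_lit 1) (.e (nat_lit 155102) (nat_lit 0) .nil) .nil)))) (.nd (nat_lit 9) 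
(.lf (nat_lit 496048) (.g (nat_lit 3330) (.e (nat_lit 163905) (nat_lit 12) (.e (nat_lit 426481) (nat_lit 27) (.e (nat_lit 336389) (nat_lit 27) (.e (nat_lit 426308) (nat_lit 12) (.e (nat_lit 475179) (nat_lit 24) (.e (nat_lit 516117) (nat_lit 1) (.e (nat_lit 164332) (nat_lit 230) .nil))))))) (.g (nat_lit 1) (.e (nat_lit 154826) (nat_lit 0) .nil) .nil))) 
(.lf (nat_lit 496560) (.g (nat_lit 1890) (.e (nat_lit 163907) (nat_lit 12) (.e (nat_lit 426437) (nat_lit 18) (.e (nat_lit 98381) (nat_lit 31) (.e (nat_lit 466954) (nat_lit 11) (.e (nat_lit 335994) (nat_lit 1) (.e (nat_lit 57692) (nat_lit 156) .nil)))))) (.g (nat_lit 1) (.e (nat_lit 155784) (nat_lit 0) .nil) .nil)))))) (.nd (nat_lit 7) (.nd (nat_lit 8) (.nd (nat_lit 9) 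
(.lf (nat_lit 495728) (.g (nat_lit 3537) (.e (nat_lit 163904) (nat_lit 12) (.e (nat_lit 426566) (nat_lit 34) (.e (nat_lit 393271) (nat_lit 23) (.e (nat_lit 426436) (nat_lit 18) (.e (nat_lit 98335) (nat_lit 18) (.e (nat_lit 164324) (nat_lit 230) .nil)))))) (.g (nat_lit 1) (.e (nat_lit 154194) (nat_lit 0) .nil) .nil))) 
(.lf (nat_lit 496240) (.g (nat_lit 2480) (.e (nat_lit 163905) (nat_lit 12) (.e (nat_lit 426566) (nat_lit 34) (.e (nat_lit 393279) (nat_lit 23) (.e (nat_lit 426129) (nat_lit 3) (.e (nat_lit 204830) (nat_lit 18) (.e (nat_lit 57692) (nat_lit 156) .nil)))))) (.g (nat_lit 1) (.e (nat_lit 155038) (nat_lit 0) .nil) .nil)))) (.nd (nat_lit 9) 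
(.lf (nat_lit 495984) (.g (nat_lit 2764) (.e (nat_lit 163905) (nat_lit 12) (.e (nat_lit 426478) (nat_lit 27) (.e (nat_lit 336443) (nat_lit 32) (.e (nat_lit 466979) (nat_lit 23) (.e (nat_lit 204829) (nat_lit 18) (.e (nat_lit 57692) (nat_lit 156) .nil)))))) (.g (nat_lit 1) (.e (nat_lit 154667) (nat_lit 0) .nil) .nil))) 
(.lf (nat_lit 496496) (.g (nat_lit 1434) (.e (nat_lit 163907) (nat_lit 12) (.e (nat_lit 426131) (nat_lit 3) (.e (nat_lit 204869) (nat_lit 29) (.e (nat_lit 360474) (nat_lit 8) .nil)))) (.g (nat_lit 0) (.e (nat_lit 155472) (nat_lit 0) .nil) .nil))))) (.nd (nat_lit 8) (.nd (nat_lit 9) 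
(.lf (nat_lit 495856) (.g (nat_lit 2769) (.e (nat_lit 163905) (nat_lit 12) (.e (nat_lit 426320) (nat_lit 12) (.e (nat_lit 475209) (nat_lit 41) (.e (nat_lit 712750) (nat_lit 29) (.e (nat_lit 442430) (nat_lit 24) (.e (nat_lit 229681) (nat_lit 244) .nil)))))) (.g (nat_lit 1) (.e (nat_lit 154344) (nat_lit 0) .nil) .nil))) 
(.lf (nat_lit 496368) (.g (nat_lit 3550) (.e (nat_lit 163905) (nat_lit 12) (.e (nat_lit 426568) (nat_lit 34) (.e (nat_lit 393281) (nat_lit 23) (.e (nat_lit 426133) (nat_lit 3) (.e (nat_lit 204829) (nat_lit 18) (.e (nat_lit 57688) (nat_lit 156) .nil)))))) (.g (nat_lit 1) (.e (nat_lit 155167) (nat_lit 0) .nil) .nil)))) (.nd (nat_lit 9) 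
(.lf (nat_lit 496112) (.g (nat_lit 2687) (.e (nat_lit 163905) (nat_lit 12) (.e (nat_lit 426542) (nat_lit 29) (.e (nat_lit 352315) (nat_lit 23) (.e (nat_lit 98313) (nat_lit 9) (.e (nat_lit 335987) (nat_lit 1) (.e (nat_lit 57927) (nat_lit 282) .nil)))))) (.g (nat_lit 1) (.e (nat_lit 154893) (nat_lit 0) .nil) .nil))) 
(.lf (nat_lit 496624) (.g (nat_lit 1101) (.e (nat_lit 163907) (nat_lit 12) (.e (nat_lit 426555) (nat_lit 32) (.e (nat_lit 376862) (nat_lit 22) (.e (nat_lit 90158) (nat_lit 11) .nil)))) (.g (nat_lit 0) (.e (nat_lit 155856) (nat_lit 0) .nil) .nil))))))))) (.nd (nat_lit 4) (.nd (nat_lit 5) (.nd (nat_lit 6) (.nd (nat_lit 7) (.nd (nat_lit 8) (.nd (nat_lit 9) 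
(.lf (nat_lit 495624) (.g (nat_lit 3268) (.e (nat_lit 163903) (nat_lit 12) (.e (nat_lit 426568) (nat_lit 34) (.e (nat_lit 393291) (nat_lit 26) (.e (nat_lit 475177) (nat_lit 24) (.e (nat_lit 516118) (nat_lit 1) (.e (nat_lit 164324) (nat_lit 230) .nil)))))) (.g (nat_lit 1) (.e (nat_lit 154048) (nat_lit 0) .nil) .nil))) 
(.lf (nat_lit 496136) (.g (nat_lit 3064) (.e (nat_lit 163905) (nat_lit 12) (.e (nat_lit 426546) (nat_lit 30) (.e (nat_lit 360466) (nat_lit 3) (.e (nat_lit 516195) (nat_lit 26) (.e (nat_lit 335995) (nat_lit 1) (.e (nat_lit 57931) (nat_lit 282) .nil)))))) (.g (nat_lit 1) (.e (nat_lit 154919) (nat_lit 0) .nil) .nil)))) (.nd (nat_lit 9) 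
(.lf (nat_lit 495880) (.g (nat_lit 1840) (.e (nat_lit 163905) (nat_lit 12) (.e (nat_lit 426428) (nat_lit 17) (.e (nat_lit 90170) (nat_lit 13) (.e (nat_lit 172123) (nat_lit 13) (.e (nat_lit 483362) (nat_lit 18) .nil))))) (.g (nat_lit 0) (.e (nat_lit 154558) (nat_lit 0) .nil) .nil))) 
(.lf (nat_lit 496392) (.g (nat_lit 3540) (.e (nat_lit 163905) (nat_lit 12) (.e (nat_lit 426568) (nat_lit 34) (.e (nat_lit 393287) (nat_lit 25) (.e (nat_lit 458789) (nat_lit 23) (.e (nat_lit 532504) (nat_lit 1) (.e (nat_lit 57691) (nat_lit 156) .nil)))))) (.g (nat_lit 1) (.e (nat_lit 155191) (nat_lit 0) .nil) .nil))))) (.nd (nat_lit 8) (.nd (nat_lit 9) 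
(.lf (nat_lit 495752) (.g (nat_lit 1466) (.e (nat_lit 163904) (nat_lit 12) (.e (nat_lit 426566) (nat_lit 34) (.e (nat_lit 393291) (nat_lit 26) (.e (nat_lit 475175) (nat_lit 24) (.e (nat_lit 516119) (nat_lit 1) (.e (nat_lit 164326) (nat_lit 230) .nil)))))) (.g (nat_lit 1) (.e (nat_lit 154219) (nat_lit 0) .nil) .nil))) 
(.lf (nat_lit 496264) (.g (nat_lit 2280) (.e (nat_lit 163905) (nat_lit 12) (.e (nat_lit 426566) (nat_lit 34) (.e (nat_lit 393292) (nat_lit 26) (.e (nat_lit 475179) (nat_lit 24) (.e (nat_lit 516115) (nat_lit 1) (.e (nat_lit 164325) (nat_lit 230) .nil)))))) (.g (nat_lit 1) (.e (nat_lit 155062) (nat_lit 0) .nil) .nil)))) (.nd (nat_lit 9) 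
(.lf (nat_lit 496008) (.g (nat_lit 2253) (.e (nat_lit 163905) (nat_lit 12) (.e (nat_lit 426480) (nat_lit 27) (.e (nat_lit 336385) (nat_lit 27) (.e (nat_lit 426188) (nat_lit 9) (.e (nat_lit 426436) (nat_lit 18) (.e (nat_lit 98334) (nat_lit 18) (.e (nat_lit 164330) (nat_lit 230) .nil))))))) (.g (nat_lit 1) (.e (nat_lit 154691) (nat_lit 0) .nil) .nil))) 
(.lf (nat_lit 496520) (.g (nat_lit 1555) (.e (nat_lit 163907) (nat_lit 12) (.e (nat_lit 426428) (nat_lit 17) (.e (nat_lit 90178) (nat_lit 15) (.e (nat_lit 188421) (nat_lit 11) (.e (nat_lit 335994) (nat_lit 1) .nil))))) (.g (nat_lit 0) (.e (nat_lit 155739) (nat_lit 0) .nil) .nil)))))) (.nd (nat_lit 7) (.nd (nat_lit 8) (.nd (nat_lit 9) 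
(.lf (nat_lit 495688) (.g (nat_lit 1000) (.e (nat_lit 163904) (nat_lit 12) (.e (nat_lit 426566) (nat_lit 34) (.e (nat_lit 393266) (nat_lit 23) .nil))) (.g (nat_lit 0) (.e (nat_lit 154153) (nat_lit 0) .nil) .nil))) 
(.lf (nat_lit 496200) (.g (nat_lit 2142) (.e (nat_lit 163905) (nat_lit 12) (.e (nat_lit 426566) (nat_lit 34) (.e (nat_lit 393270) (nat_lit 23) (.e (nat_lit 426131) (nat_lit 3) (.e (nat_lit 204831) (nat_lit 18) (.e (nat_lit 57692) (nat_lit 156) .nil)))))) (.g (nat_lit 1) (.e (nat_lit 154998) (nat_lit 0) .nil) .nil)))) (.nd (nat_lit 9) 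
(.lf (nat_lit 495944) (.g (nat_lit 2630) (.e (nat_lit 163905) (nat_lit 12) (.e (nat_lit 426438) (nat_lit 18) (.e (nat_lit 98370) (nat_lit 28) (.e (nat_lit 442385) (nat_lit 11) (.e (nat_lit 335996) (nat_lit 1) (.e (nat_lit 57692) (nat_lit 156) .nil)))))) (.g (nat_lit 1) (.e (nat_lit 154625) (nat_lit 0) .nil) .nil))) 
(.lf (nat_lit 496456) (.g (nat_lit 2280) (.e (nat_lit 163906) (nat_lit 12) (.e (nat_lit 426438) (nat_lit 18) (.e (nat_lit 98369) (nat_lit 28) (.e (nat_lit 442390) (nat_lit 11) (.e (nat_lit 335986) (nat_lit 1) (.e (nat_lit 57692) (nat_lit 156) .nil)))))) (.g (nat_lit 1) (.e (nat_lit 155410) (nat_lit 0) .nil) .nil))))) (.nd (nat_lit 8) (.nd (nat_lit 9) 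
(.lf (nat_lit 495816) (.g (nat_lit 3719) (.e (nat_lit 163904) (nat_lit 12) (.e (nat_lit 426566) (nat_lit 34) (.e (nat_lit 393294) (nat_lit 26) (.e (nat_lit 475177) (nat_lit 24) (.e (nat_lit 516119) (nat_lit 1) (.e (nat_lit 164322) (nat_lit 230) .nil)))))) (.g (nat_lit 1) (.e (nat_lit 154283) (nat_lit 0) .nil) .nil))) 
(.lf (nat_lit 496328) (.g (nat_lit 2956) (.e (nat_lit 163905) (nat_lit 12) (.e (nat_lit 426568) (nat_lit 34) (.e (nat_lit 393267) (nat_lit 23) (.e (nat_lit 426436) (nat_lit 18) (.e (nat_lit 98334) (nat_lit 18) (.e (nat_lit 164332) (nat_lit 230) .nil)))))) (.g (nat_lit 1) (.e (nat_lit 155127) (nat_lit 0) .nil) .nil)))) (.nd (nat_lit 9) 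
(.lf (nat_lit 496072) (.g (nat_lit 3645) (.e (nat_lit 163905) (nat_lit 12) (.e (nat_lit 426530) (nat_lit 27) (.e (nat_lit 336390) (nat_lit 27) (.e (nat_lit 426188) (nat_lit 9) (.e (nat_lit 426436) (nat_lit 18) (.e (nat_lit 98335) (nat_lit 18) (.e (nat_lit 164332) (nat_lit 230) .nil))))))) (.g (nat_lit 1) (.e (nat_lit 154850) (nat_lit 0) .nil) .nil))) 
(.lf (nat_lit 496584) (.g (nat_lit 1782) (.e (nat_lit 163907) (nat_lit 12) (.e (nat_lit 426479) (nat_lit 27) (.e (nat_lit 336430) (nat_lit 29) (.e (nat_lit 442427) (nat_lit 23) (.e (nat_lit 204830) (nat_lit 18) (.e (nat_lit 57685) (nat_lit 156) .nil)))))) (.g (nat_lit 1) (.e (nat_lit 155810) (nat_lit 0) .nil) .nil))))))) (.nd (nat_lit 6) (.nd (nat_lit 7) (.nd (nat_lit 8) (.nd (nat_lit 9) 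
(.lf (nat_lit 495656) (.g (nat_lit 1990) (.e (nat_lit 163904) (nat_lit 12) (.e (nat_lit 426436) (nat_lit 18) (.e (nat_lit 98358) (nat_lit 26) (.e (nat_lit 426323) (nat_lit 13) .nil)))) (.g (nat_lit 0) (.e (nat_lit 154096) (nat_lit 0) .nil) .nil))) 
(.lf (nat_lit 496168) (.g (nat_lit 2005) (.e (nat_lit 163905) (nat_lit 12) (.e (nat_lit 426555) (nat_lit 32) (.e (nat_lit 376865) (nat_lit 22) (.e (nat_lit 90160) (nat_lit 11) (.e (nat_lit 24580) (nat_lit 0) .nil))))) (.g (nat_lit 0) (.e (nat_lit 154961) (nat_lit 0) .nil) .nil)))) (.nd (nat_lit 9) 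
(.lf (nat_lit 495912) (.g (nat_lit 2369) (.e (nat_lit 163905) (nat_lit 12) (.e (nat_lit 426436) (nat_lit 18) (.e (nat_lit 98358) (nat_lit 26) (.e (nat_lit 426323) (nat_lit 13) (.e (nat_lit 483365) (nat_lit 18) (.e (nat_lit 57688) (nat_lit 156) .nil)))))) (.g (nat_lit 1) (.e (nat_lit 154591) (nat_lit 0) .nil) .nil))) 
(.lf (nat_lit 496424) (.g (nat_lit 5043) (.e (nat_lit 163906) (nat_lit 12) (.e (nat_lit 426131) (nat_lit 3) (.e (nat_lit 204869) (nat_lit 29) (.e (nat_lit 360475) (nat_lit 8) (.e (nat_lit 557089) (nat_lit 12) .nil))))) (.g (nat_lit 0) (.e (nat_lit 155231) (nat_lit 0) .nil) .nil))))) (.nd (nat_lit 8) (.nd (nat_lit 9) 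
(.lf (nat_lit 495784) (.g (nat_lit 3039) (.e (nat_lit 163904) (nat_lit 12) (.e (nat_lit 426566) (nat_lit 34) (.e (nat_lit 393291) (nat_lit 26) (.e (nat_lit 475179) (nat_lit 24) (.e (nat_lit 516120) (nat_lit 1) (.e (nat_lit 164329) (nat_lit 230) .nil)))))) (.g (nat_lit 1) (.e (nat_lit 154251) (nat_lit 0) .nil) .nil))) 
(.lf (nat_lit 496296) (.g (nat_lit 3287) (.e (nat_lit 163905) (nat_lit 12) (.e (nat_lit 426566) (nat_lit 34) (.e (nat_lit 393296) (nat_lit 26) (.e (nat_lit 475177) (nat_lit 24) (.e (nat_lit 516119) (nat_lit 1) (.e (nat_lit 164324) (nat_lit 230) .nil)))))) (.g (nat_lit 1) (.e (nat_lit 155094) (nat_lit 0) .nil) .nil)))) (.nd (nat_lit 9) 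
(.lf (nat_lit 496040) (.g (nat_lit 2525) (.e (nat_lit 163905) (nat_lit 12) (.e (nat_lit 426481) (nat_lit 27) (.e (nat_lit 336386) (nat_lit 27) (.e (nat_lit 426306) (nat_lit 12) (.e (nat_lit 475177) (nat_lit 24) (.e (nat_lit 516117) (nat_lit 1) (.e (nat_lit 164330) (nat_lit 230) .nil))))))) (.g (nat_lit 1) (.e (nat_lit 154818) (nat_lit 0) .nil) .nil))) 
(.lf (nat_lit 496552) (.g (nat_lit 2544) (.e (nat_lit 163907) (nat_lit 12) (.e (nat_lit 426436) (nat_lit 18) (.e (nat_lit 98381) (nat_lit 31) (.e (nat_lit 466954) (nat_lit 11) (.e (nat_lit 335994) (nat_lit 1) (.e (nat_lit 57692) (nat_lit 156) .nil)))))) (.g (nat_lit 1) (.e (nat_lit 155776) (nat_lit 0) .nil) .nil)))))) (.nd (nat_lit 7) (.nd (nat_lit 8) (.nd (nat_lit 9) 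
(.lf (nat_lit 495720) (.g (nat_lit 1354) (.e (nat_lit 163904) (nat_lit 12) (.e (nat_lit 426566) (nat_lit 34) (.e (nat_lit 393271) (nat_lit 23) (.e (nat_lit 426434) (nat_lit 18) .nil)))) (.g (nat_lit 0) (.e (nat_lit 154186) (nat_lit 0) .nil) .nil))) 
(.lf (nat_lit 496232) (.g (nat_lit 2618) (.e (nat_lit 163905) (nat_lit 12) (.e (nat_lit 426566) (nat_lit 34) (.e (nat_lit 393273) (nat_lit 23) (.e (nat_lit 426434) (nat_lit 18) (.e (nat_lit 98334) (nat_lit 18) (.e (nat_lit 164330) (nat_lit 230) .nil)))))) (.g (nat_lit 1) (.e (nat_lit 155030) (nat_lit 0) .nil) .nil)))) (.nd (nat_lit 9) 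
(.lf (nat_lit 495976) (.g (nat_lit 3837) (.e (nat_lit 163905) (nat_lit 12) (.e (nat_lit 426478) (nat_lit 27) (.e (nat_lit 336389) (nat_lit 27) (.e (nat_lit 426308) (nat_lit 12) (.e (nat_lit 475177) (nat_lit 24) (.e (nat_lit 516120) (nat_lit 1) (.e (nat_lit 164330) (nat_lit 230) .nil))))))) (.g (nat_lit 1) (.e (nat_lit 154659) (nat_lit 0) .nil) .nil))) 
(.lf (nat_lit 496488) (.g (nat_lit 2270) (.e (nat_lit 163906) (nat_lit 12) (.e (nat_lit 426566) (nat_lit 34) (.e (nat_lit 393296) (nat_lit 26) (.e (nat_lit 475177) (nat_lit 24) (.e (nat_lit 516115) (nat_lit 1) (.e (nat_lit 164325) (nat_lit 230) .nil)))))) (.g (nat_lit 1) (.e (nat_lit 155443) (nat_lit 0) .nil) .nil))))) (.nd (nat_lit 8) (.nd (nat_lit 9) 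
(.lf (nat_lit 495848) (.g (nat_lit 4847) (.e (nat_lit 163905) (nat_lit 12) (.e (nat_lit 426131) (nat_lit 3) (.e (nat_lit 204869) (nat_lit 29) (.e (nat_lit 360475) (nat_lit 8) (.e (nat_lit 557091) (nat_lit 12) .nil))))) (.g (nat_lit 0) (.e (nat_lit 154331) (nat_lit 0) .nil) .nil))) 
(.lf (nat_lit 496360) (.g (nat_lit 3465) (.e (nat_lit 163905) (nat_lit 12) (.e (nat_lit 426568) (nat_lit 34) (.e (nat_lit 393271) (nat_lit 23) (.e (nat_lit 426436) (nat_lit 18) (.e (nat_lit 98335) (nat_lit 18) (.e (nat_lit 164330) (nat_lit 230) .nil)))))) (.g (nat_lit 1) (.e (nat_lit 155159) (nat_lit 0) .nil) .nil)))) (.nd (nat_lit 9) 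
(.lf (nat_lit 496104) (.g (nat_lit 2760) (.e (nat_lit 163905) (nat_lit 12) (.e (nat_lit 426542) (nat_lit 29) (.e (nat_lit 352313) (nat_lit 23) (.e (nat_lit 98317) (nat_lit 9) (.e (nat_lit 335995) (nat_lit 1) (.e (nat_lit 57931) (nat_lit 282) .nil)))))) (.g (nat_lit 1) (.e (nat_lit 154885) (nat_lit 0) .nil) .nil))) 
(.lf (nat_lit 496616) (.g (nat_lit 4168) (.e (nat_lit 163907) (nat_lit 12) (.e (nat_lit 426544) (nat_lit 30) (.e (nat_lit 360467) (nat_lit 3) (.e (nat_lit 516195) (nat_lit 26) (.e (nat_lit 335988) (nat_lit 1) (.e (nat_lit 57926) (nat_lit 282) .nil)))))) (.g (nat_lit 1) (.e (nat_lit 155846) (nat_lit 0) .nil) .nil)))))))) 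
(.nd (nat_lit 5) (.nd (nat_lit 6) (.nd (nat_lit 7) (.nd (nat_lit 8) (.nd (nat_lit 9) 
(.lf (nat_lit 495640) (.g (nat_lit 3694) (.e (nat_lit 163903) (nat_lit 12) (.e (nat_lit 426568) (nat_lit 34) (.e (nat_lit 393293) (nat_lit 26) (.e (nat_lit 475179) (nat_lit 24) (.e (nat_lit 516115) (nat_lit 1) (.e (nat_lit 164325) (nat_lit 230) .nil)))))) (.g (nat_lit 1) (.e (nat_lit 154064) (nat_lit 0) .nil) .nil))) 
(.lf (nat_lit 496152) (.g (nat_lit 1039) (.e (nat_lit 163905) (nat_lit 12) (.e (nat_lit 426555) (nat_lit 32) (.e (nat_lit 376862) (nat_lit 22) (.e (nat_lit 90160) (nat_lit 11) .nil)))) (.g (nat_lit 0) (.e (nat_lit 154941) (nat_lit 0) .nil) .nil)))) (.nd (nat_lit 9) 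
(.lf (nat_lit 495896) (.g (nat_lit 4017) (.e (nat_lit 163905) (nat_lit 12) (.e (nat_lit 426428) (nat_lit 17) (.e (nat_lit 90178) (nat_lit 15) (.e (nat_lit 188421) (nat_lit 11) (.e (nat_lit 335995) (nat_lit 1) (.e (nat_lit 57691) (nat_lit 156) .nil)))))) (.g (nat_lit 1) (.e (nat_lit 154575) (nat_lit 0) .nil) .nil))) 
(.lf (nat_lit 496408) (.g (nat_lit 2504) (.e (nat_lit 163905) (nat_lit 12) (.e (nat_lit 426568) (nat_lit 34) (.e (nat_lit 393293) (nat_lit 26) (.e (nat_lit 475177) (nat_lit 24) (.e (nat_lit 516117) (nat_lit 1) (.e (nat_lit 164332) (nat_lit 230) .nil)))))) (.g (nat_lit 1) (.e (nat_lit 155207) (nat_lit 0) .nil) .nil))))) (.nd (nat_lit 8) (.nd (nat_lit 9) 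
(.lf (nat_lit 495768) (.g (nat_lit 3435) (.e (nat_lit 163904) (nat_lit 12) (.e (nat_lit 426566) (nat_lit 34) (.e (nat_lit 393291) (nat_lit 26) (.e (nat_lit 475177) (nat_lit 24) (.e (nat_lit 516119) (nat_lit 1) (.e (nat_lit 164322) (nat_lit 230) .nil)))))) (.g (nat_lit 1) (.e (nat_lit 154235) (nat_lit 0) .nil) .nil))) 
(.lf (nat_lit 496280) (.g (nat_lit 3418) (.e (nat_lit 163905) (nat_lit 12) (.e (nat_lit 426566) (nat_lit 34) (.e (nat_lit 393294) (nat_lit 26) (.e (nat_lit 475179) (nat_lit 24) (.e (nat_lit 516119) (nat_lit 1) (.e (nat_lit 164325) (nat_lit 230) .nil)))))) (.g (nat_lit 1) (.e (nat_lit 155078) (nat_lit 0) .nil) .nil)))) (.nd (nat_lit 9) 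
(.lf (nat_lit 496024) (.g (nat_lit 4732) (.e (nat_lit 163905) (nat_lit 12) (.e (nat_lit 426482) (nat_lit 27) (.e (nat_lit 336386) (nat_lit 27) (.e (nat_lit 426187) (nat_lit 9) (.e (nat_lit 426436) (nat_lit 18) (.e (nat_lit 98335) (nat_lit 18) (.e (nat_lit 164330) (nat_lit 230) .nil))))))) (.g (nat_lit 1) (.e (nat_lit 154737) (nat_lit 0) .nil) .nil))) 
(.lf (nat_lit 496536) (.g (nat_lit 2436) (.e (nat_lit 163907) (nat_lit 12) (.e (nat_lit 426436) (nat_lit 18) (.e (nat_lit 98370) (nat_lit 28) (.e (nat_lit 442385) (nat_lit 11) (.e (nat_lit 335996) (nat_lit 1) (.e (nat_lit 57691) (nat_lit 156) .nil)))))) (.g (nat_lit 1) (.e (nat_lit 155760) (nat_lit 0) .nil) .nil)))))) (.nd (nat_lit 7) (.nd (nat_lit 8) (.nd (nat_lit 9) 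
(.lf (nat_lit 495704) (.g (nat_lit 2713) (.e (nat_lit 163904) (nat_lit 12) (.e (nat_lit 426566) (nat_lit 34) (.e (nat_lit 393268) (nat_lit 23) (.e (nat_lit 426438) (nat_lit 18) (.e (nat_lit 98335) (nat_lit 18) (.e (nat_lit 164324) (nat_lit 230) .nil)))))) (.g (nat_lit 1) (.e (nat_lit 154169) (nat_lit 0) .nil) .nil))) 
(.lf (nat_lit 496216) (.g (nat_lit 3088) (.e (nat_lit 163905) (nat_lit 12) (.e (nat_lit 426566) (nat_lit 34) (.e (nat_lit 393271) (nat_lit 23) (.e (nat_lit 426438) (nat_lit 18) (.e (nat_lit 98333) (nat_lit 18) (.e (nat_lit 164325) (nat_lit 230) .nil)))))) (.g (nat_lit 1) (.e (nat_lit 155014) (nat_lit 0) .nil) .nil)))) (.nd (nat_lit 9) 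
(.lf (nat_lit 495960) (.g (nat_lit 3200) (.e (nat_lit 163905) (nat_lit 12) (.e (nat_lit 426438) (nat_lit 18) (.e (nat_lit 98381) (nat_lit 31) (.e (nat_lit 466954) (nat_lit 11) (.e (nat_lit 335995) (nat_lit 1) (.e (nat_lit 57691) (nat_lit 156) .nil)))))) (.g (nat_lit 1) (.e (nat_lit 154643) (nat_lit 0) .nil) .nil))) 
(.lf (nat_lit 496472) (.g (nat_lit 733) (.e (nat_lit 163906) (nat_lit 12) (.e (nat_lit 426555) (nat_lit 32) (.e (nat_lit 376865) (nat_lit 22) .nil))) (.g (nat_lit 0) (.e (nat_lit 155427) (nat_lit 0) .nil) .nil))))) (.nd (nat_lit 8) (.nd (nat_lit 9) 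
(.lf (nat_lit 495832) (.g (nat_lit 3468) (.e (nat_lit 163904) (nat_lit 12) (.e (nat_lit 426566) (nat_lit 34) (.e (nat_lit 393294) (nat_lit 26) (.e (nat_lit 475179) (nat_lit 24) (.e (nat_lit 516119) (nat_lit 1) (.e (nat_lit 164325) (nat_lit 230) .nil)))))) (.g (nat_lit 1) (.e (nat_lit 154299) (nat_lit 0) .nil) .nil))) 
(.lf (nat_lit 496344) (.g (nat_lit 2462) (.e (nat_lit 163905) (nat_lit 12) (.e (nat_lit 426568) (nat_lit 34) (.e (nat_lit 393270) (nat_lit 23) (.e (nat_lit 426436) (nat_lit 18) (.e (nat_lit 98334) (nat_lit 18) (.e (nat_lit 164330) (nat_lit 230) .nil)))))) (.g (nat_lit 1) (.e (nat_lit 155143) (nat_lit 0) .nil) .nil)))) (.nd (nat_lit 9) 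
(.lf (nat_lit 496088) (.g (nat_lit 902) (.e (nat_lit 163905) (nat_lit 12) (.e (nat_lit 426540) (nat_lit 29) (.e (nat_lit 352313) (nat_lit 23) (.e (nat_lit 98317) (nat_lit 9) .nil)))) (.g (nat_lit 0) (.e (nat_lit 154869) (nat_lit 0) .nil) .nil))) 
(.lf (nat_lit 496600) (.g (nat_lit 2372) (.e (nat_lit 163907) (nat_lit 12) (.e (nat_lit 426481) (nat_lit 27) (.e (nat_lit 336385) (nat_lit 27) (.e (nat_lit 426306) (nat_lit 12) (.e (nat_lit 475179) (nat_lit 24) (.e (nat_lit 516119) (nat_lit 1) (.e (nat_lit 164325) (nat_lit 230) .nil))))))) (.g (nat_lit 1) (.e (nat_lit 155830) (nat_lit 0) .nil) .nil))))))) 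
(.nd (nat_lit 6) (.nd (nat_lit 7) (.nd (nat_lit 8) (.nd (nat_lit 9) 
(.lf (nat_lit 495672) (.g (nat_lit 2469) (.e (nat_lit 163904) (nat_lit 12) (.e (nat_lit 426555) (nat_lit 32) (.e (nat_lit 376867) (nat_lit 23) (.e (nat_lit 98317) (nat_lit 9) (.e (nat_lit 335988) (nat_lit 1) (.e (nat_lit 57927) (nat_lit 282) .nil)))))) (.g (nat_lit 1) (.e (nat_lit 154136) (nat_lit 0) .nil) .nil))) 
(.lf (nat_lit 496184) (.g (nat_lit 3570) (.e (nat_lit 163905) (nat_lit 12) (.e (nat_lit 426555) (nat_lit 32) (.e (nat_lit 376869) (nat_lit 23) (.e (nat_lit 98313) (nat_lit 9) (.e (nat_lit 335996) (nat_lit 1) (.e (nat_lit 57930) (nat_lit 282) .nil)))))) (.g (nat_lit 1) (.e (nat_lit 154981) (nat_lit 0) .nil) .nil)))) (.nd (nat_lit 9) 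
(.lf (nat_lit 495928) (.g (nat_lit 2835) (.e (nat_lit 163905) (nat_lit 12) (.e (nat_lit 426436) (nat_lit 18) (.e (nat_lit 98381) (nat_lit 31) (.e (nat_lit 466954) (nat_lit 11) (.e (nat_lit 335996) (nat_lit 1) (.e (nat_lit 57692) (nat_lit 156) .nil)))))) (.g (nat_lit 1) (.e (nat_lit 154609) (nat_lit 0) .nil) .nil))) 
(.lf (nat_lit 496440) (.g (nat_lit 1955) (.e (nat_lit 163906) (nat_lit 12) (.e (nat_lit 426436) (nat_lit 18) (.e (nat_lit 98358) (nat_lit 26) (.e (nat_lit 433920) (nat_lit 13) .nil)))) (.g (nat_lit 0) (.e (nat_lit 155393) (nat_lit 0) .nil) .nil))))) (.nd (nat_lit 8) (.nd (nat_lit 9) 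
(.lf (nat_lit 495800) (.g (nat_lit 3902) (.e (nat_lit 163904) (nat_lit 12) (.e (nat_lit 426566) (nat_lit 34) (.e (nat_lit 393294) (nat_lit 26) (.e (nat_lit 475176) (nat_lit 24) (.e (nat_lit 516115) (nat_lit 1) (.e (nat_lit 164325) (nat_lit 230) .nil)))))) (.g (nat_lit 1) (.e (nat_lit 154267) (nat_lit 0) .nil) .nil))) 
(.lf (nat_lit 496312) (.g (nat_lit 3407) (.e (nat_lit 163905) (nat_lit 12) (.e (nat_lit 426567) (nat_lit 34) (.e (nat_lit 393270) (nat_lit 23) (.e (nat_lit 426436) (nat_lit 18) (.e (nat_lit 98335) (nat_lit 18) (.e (nat_lit 164330) (nat_lit 230) .nil)))))) (.g (nat_lit 1) (.e (nat_lit 155110) (nat_lit 0) .nil) .nil)))) (.nd (nat_lit 9) 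
(.lf (nat_lit 496056) (.g (nat_lit 2037) (.e (nat_lit 163905) (nat_lit 12) (.e (nat_lit 426505) (nat_lit 27) (.e (nat_lit 336408) (nat_lit 27) (.e (nat_lit 426188) (nat_lit 9) (.e (nat_lit 426436) (nat_lit 18) (.e (nat_lit 98335) (nat_lit 18) (.e (nat_lit 164330) (nat_lit 230) .nil))))))) (.g (nat_lit 1) (.e (nat_lit 154834) (nat_lit 0) .nil) .nil))) 
(.lf (nat_lit 496568) (.g (nat_lit 2118) (.e (nat_lit 163907) (nat_lit 12) (.e (nat_lit 426438) (nat_lit 18) (.e (nat_lit 98380) (nat_lit 31) (.e (nat_lit 466954) (nat_lit 11) (.e (nat_lit 335993) (nat_lit 1) (.e (nat_lit 57692) (nat_lit 156) .nil)))))) (.g (nat_lit 1) (.e (nat_lit 155793) (nat_lit 0) .nil) .nil)))))) (.nd (nat_lit 7) (.nd (nat_lit 8) (.nd (nat_lit 9) 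
(.lf (nat_lit 495736) (.g (nat_lit 2757) (.e (nat_lit 163904) (nat_lit 12) (.e (nat_lit 426566) (nat_lit 34) (.e (nat_lit 393271) (nat_lit 23) (.e (nat_lit 426438) (nat_lit 18) (.e (nat_lit 98335) (nat_lit 18) (.e (nat_lit 164332) (nat_lit 230) .nil)))))) (.g (nat_lit 1) (.e (nat_lit 154202) (nat_lit 0) .nil) .nil))) 
(.lf (nat_lit 496248) (.g (nat_lit 2684) (.e (nat_lit 163905) (nat_lit 12) (.e (nat_lit 426566) (nat_lit 34) (.e (nat_lit 393287) (nat_lit 25) (.e (nat_lit 458789) (nat_lit 23) (.e (nat_lit 532501) (nat_lit 1) (.e (nat_lit 57692) (nat_lit 156) .nil)))))) (.g (nat_lit 1) (.e (nat_lit 155046) (nat_lit 0) .nil) .nil)))) (.nd (nat_lit 9) 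
(.lf (nat_lit 495992) (.g (nat_lit 1830) (.e (nat_lit 163905) (nat_lit 12) (.e (nat_lit 426479) (nat_lit 27) (.e (nat_lit 336430) (nat_lit 29) (.e (nat_lit 442427) (nat_lit 23) (.e (nat_lit 204830) (nat_lit 18) (.e (nat_lit 57689) (nat_lit 156) .nil)))))) (.g (nat_lit 1) (.e (nat_lit 154675) (nat_lit 0) .nil) .nil))) 
(.lf (nat_lit 496504) (.g (nat_lit 2382) (.e (nat_lit 163907) (nat_lit 12) (.e (nat_lit 426320) (nat_lit 12) (.e (nat_lit 475209) (nat_lit 41) (.e (nat_lit 712755) (nat_lit 30) (.e (nat_lit 450562) (nat_lit 0) (.e (nat_lit 7936) (nat_lit 310) .nil)))))) (.g (nat_lit 1) (.e (nat_lit 155514) (nat_lit 0) .nil) .nil))))) (.nd (nat_lit 8) (.nd (nat_lit 9) 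
(.lf (nat_lit 495864) (.g (nat_lit 1945) (.e (nat_lit 163905) (nat_lit 12) (.e (nat_lit 426320) (nat_lit 12) (.e (nat_lit 475211) (nat_lit 41) (.e (nat_lit 712752) (nat_lit 29) (.e (nat_lit 442428) (nat_lit 24) (.e (nat_lit 229681) (nat_lit 244) .nil)))))) (.g (nat_lit 1) (.e (nat_lit 154353) (nat_lit 0) .nil) .nil))) 
(.lf (nat_lit 496376) (.g (nat_lit 2829) (.e (nat_lit 163905) (nat_lit 12) (.e (nat_lit 426568) (nat_lit 34) (.e (nat_lit 393283) (nat_lit 24) (.e (nat_lit 434231) (nat_lit 23) (.e (nat_lit 532500) (nat_lit 1) (.e (nat_lit 57685) (nat_lit 156) .nil)))))) (.g (nat_lit 1) (.e (nat_lit 155175) (nat_lit 0) .nil) .nil)))) (.nd (nat_lit 9) 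
(.lf (nat_lit 496120) (.g (nat_lit 3257) (.e (nat_lit 163905) (nat_lit 12) (.e (nat_lit 426542) (nat_lit 29) (.e (nat_lit 352315) (nat_lit 23) (.e (nat_lit 98317) (nat_lit 9) (.e (nat_lit 335988) (nat_lit 1) (.e (nat_lit 57927) (nat_lit 282) .nil)))))) (.g (nat_lit 1) (.e (nat_lit 154901) (nat_lit 0) .nil) .nil))) 
(.lf (nat_lit 496632) (.g (nat_lit 1194) (.e (nat_lit 163907) (nat_lit 12) (.e (nat_lit 426555) (nat_lit 32) (.e (nat_lit 376865) (nat_lit 22) (.e (nat_lit 90158) (nat_lit 11) .nil)))) (.g (nat_lit 0) (.e (nat_lit 155872) (nat_lit 0) .nil) .nil)))))))))) (.nd (nat_lit 3) (.nd (nat_lit 4) (.nd (nat_lit 5) (.nd (nat_lit 6) (.nd (nat_lit 7) (.nd (nat_lit 8) (.nd (nat_lit 9) 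
(.lf (nat_lit 495620) (.g (nat_lit 3971) (.e (nat_lit 163903) (nat_lit 12) (.e (nat_lit 426568) (nat_lit 34) (.e (nat_lit 393290) (nat_lit 26) (.e (nat_lit 475179) (nat_lit 24) (.e (nat_lit 516115) (nat_lit 1) (.e (nat_lit 164325) (nat_lit 230) .nil)))))) (.g (nat_lit 1) (.e (nat_lit 154042) (nat_lit 0) .nil) .nil))) 
(.lf (nat_lit 496132) (.g (nat_lit 2799) (.e (nat_lit 163905) (nat_lit 12) (.e (nat_lit 426546) (nat_lit 30) (.e (nat_lit 360466) (nat_lit 3) (.e (nat_lit 516195) (nat_lit 26) (.e (nat_lit 335986) (nat_lit 1) (.e (nat_lit 57927) (nat_lit 282) .nil)))))) (.g (nat_lit 1) (.e (nat_lit 154915) (nat_lit 0) .nil) .nil)))) (.nd (nat_lit 9) 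
(.lf (nat_lit 495876) (.g (nat_lit 1496) (.e (nat_lit 163905) (nat_lit 12) (.e (nat_lit 426428) (nat_lit 17) (.e (nat_lit 90170) (nat_lit 13) (.e (nat_lit 172122) (nat_lit 13) .nil)))) (.g (nat_lit 0) (.e (nat_lit 154554) (nat_lit 0) .nil) .nil))) 
(.lf (nat_lit 496388) (.g (nat_lit 2361) (.e (nat_lit 163905) (nat_lit 12) (.e (nat_lit 426568) (nat_lit 34) (.e (nat_lit 393286) (nat_lit 25) (.e (nat_lit 458789) (nat_lit 23) (.e (nat_lit 532501) (nat_lit 1) (.e (nat_lit 57685) (nat_lit 156) .nil)))))) (.g (nat_lit 1) (.e (nat_lit 155187) (nat_lit 0) .nil) .nil))))) (.nd (nat_lit 8) (.nd (nat_lit 9) 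
(.lf (nat_lit 495748) (.g (nat_lit 2209) (.e (nat_lit 163904) (nat_lit 12) (.e (nat_lit 426566) (nat_lit 34) (.e (nat_lit 393290) (nat_lit 26) (.e (nat_lit 475179) (nat_lit 24) (.e (nat_lit 516115) (nat_lit 1) (.e (nat_lit 164325) (nat_lit 230) .nil)))))) (.g (nat_lit 1) (.e (nat_lit 154214) (nat_lit 0) .nil) .nil))) 
(.lf (nat_lit 496260) (.g (nat_lit 3169) (.e (nat_lit 163905) (nat_lit 12) (.e (nat_lit 426566) (nat_lit 34) (.e (nat_lit 393291) (nat_lit 26) (.e (nat_lit 475179) (nat_lit 24) (.e (nat_lit 516119) (nat_lit 1) (.e (nat_lit 164325) (nat_lit 230) .nil)))))) (.g (nat_lit 1) (.e (nat_lit 155058) (nat_lit 0) .nil) .nil)))) (.nd (nat_lit 9) 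
(.lf (nat_lit 496004) (.g (nat_lit 2668) (.e (nat_lit 163905) (nat_lit 12) (.e (nat_lit 426479) (nat_lit 27) (.e (nat_lit 336434) (nat_lit 30) (.e (nat_lit 450579) (nat_lit 5) (.e (nat_lit 532503) (nat_lit 1) (.e (nat_lit 57692) (nat_lit 156) .nil)))))) (.g (nat_lit 1) (.e (nat_lit 154687) (nat_lit 0) .nil) .nil))) 
(.lf (nat_lit 496516) (.g (nat_lit 2801) (.e (nat_lit 163907) (nat_lit 12) (.e (nat_lit 426428) (nat_lit 17) (.e (nat_lit 90170) (nat_lit 13) (.e (nat_lit 172123) (nat_lit 13) (.e (nat_lit 483366) (nat_lit 18) (.e (nat_lit 57692) (nat_lit 156) .nil)))))) (.g (nat_lit 1) (.e (nat_lit 155735) (nat_lit 0) .nil) .nil)))))) (.nd (nat_lit 7) (.nd (nat_lit 8) (.nd (nat_lit 9) 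
(.lf (nat_lit 495684) (.g (nat_lit 1886) (.e (nat_lit 163904) (nat_lit 12) (.e (nat_lit 426555) (nat_lit 32) (.e (nat_lit 376869) (nat_lit 23) (.e (nat_lit 98317) (nat_lit 9) (.e (nat_lit 335987) (nat_lit 1) .nil))))) (.g (nat_lit 0) (.e (nat_lit 154148) (nat_lit 0) .nil) .nil))) 
(.lf (nat_lit 496196) (.g (nat_lit 3261) (.e (nat_lit 163905) (nat_lit 12) (.e (nat_lit 426566) (nat_lit 34) (.e (nat_lit 393268) (nat_lit 23) (.e (nat_lit 426436) (nat_lit 18) (.e (nat_lit 98333) (nat_lit 18) (.e (nat_lit 164325) (nat_lit 230) .nil)))))) (.g (nat_lit 1) (.e (nat_lit 154994) (nat_lit 0) .nil) .nil)))) (.nd (nat_lit 9) 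
(.lf (nat_lit 495940) (.g (nat_lit 3158) (.e (nat_lit 163905) (nat_lit 12) (.e (nat_lit 426438) (nat_lit 18) (.e (nat_lit 98358) (nat_lit 26) (.e (nat_lit 426323) (nat_lit 13) (.e (nat_lit 483366) (nat_lit 18) (.e (nat_lit 57691) (nat_lit 156) .nil)))))) (.g (nat_lit 1) (.e (nat_lit 154621) (nat_lit 0) .nil) .nil))) 
(.lf (nat_lit 496452) (.g (nat_lit 2027) (.e (nat_lit 163906) (nat_lit 12) (.e (nat_lit 426436) (nat_lit 18) (.e (nat_lit 98381) (nat_lit 31) (.e (nat_lit 466954) (nat_lit 11) (.e (nat_lit 335996) (nat_lit 1) (.e (nat_lit 57692) (nat_lit 156) .nil)))))) (.g (nat_lit 1) (.e (nat_lit 155406) (nat_lit 0) .nil) .nil))))) (.nd (nat_lit 8) (.nd (nat_lit 9) 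
(.lf (nat_lit 495812) (.g (nat_lit 2788) (.e (nat_lit 163904) (nat_lit 12) (.e (nat_lit 426566) (nat_lit 34) (.e (nat_lit 393294) (nat_lit 26) (.e (nat_lit 475177) (nat_lit 24) (.e (nat_lit 516118) (nat_lit 1) (.e (nat_lit 164326) (nat_lit 230) .nil)))))) (.g (nat_lit 1) (.e (nat_lit 154279) (nat_lit 0) .nil) .nil))) 
(.lf (nat_lit 496324) (.g (nat_lit 2868) (.e (nat_lit 163905) (nat_lit 12) (.e (nat_lit 426568) (nat_lit 34) (.e (nat_lit 393266) (nat_lit 23) (.e (nat_lit 426438) (nat_lit 18) (.e (nat_lit 98334) (nat_lit 18) (.e (nat_lit 164332) (nat_lit 230) .nil)))))) (.g (nat_lit 1) (.e (nat_lit 155123) (nat_lit 0) .nil) .nil)))) (.nd (nat_lit 9) 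
(.lf (nat_lit 496068) (.g (nat_lit 2507) (.e (nat_lit 163905) (nat_lit 12) (.e (nat_lit 426507) (nat_lit 27) (.e (nat_lit 336408) (nat_lit 27) (.e (nat_lit 426306) (nat_lit 12) (.e (nat_lit 475177) (nat_lit 24) (.e (nat_lit 516117) (nat_lit 1) (.e (nat_lit 164330) (nat_lit 230) .nil))))))) (.g (nat_lit 1) (.e (nat_lit 154846) (nat_lit 0) .nil) .nil))) 
(.lf (nat_lit 496580) (.g (nat_lit 2874) (.e (nat_lit 163907) (nat_lit 12) (.e (nat_lit 426479) (nat_lit 27) (.e (nat_lit 336414) (nat_lit 27) (.e (nat_lit 426318) (nat_lit 12) (.e (nat_lit 475179) (nat_lit 24) (.e (nat_lit 516115) (nat_lit 1) (.e (nat_lit 164325) (nat_lit 230) .nil))))))) (.g (nat_lit 1) (.e (nat_lit 155806) (nat_lit 0) .nil) .nil))))))) 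
(.nd (nat_lit 6) (.nd (nat_lit 7) (.nd (nat_lit 8) (.nd (nat_lit 9) 
(.lf (nat_lit 495652) (.g (nat_lit 2603) (.e (nat_lit 163903) (nat_lit 12) (.e (nat_lit 426568) (nat_lit 34) (.e (nat_lit 393295) (nat_lit 26) (.e (nat_lit 475179) (nat_lit 24) (.e (nat_lit 516119) (nat_lit 1) (.e (nat_lit 164326) (nat_lit 230) .nil)))))) (.g (nat_lit 1) (.e (nat_lit 154077) (nat_lit 0) .nil) .nil))) 
(.lf (nat_lit 496164) (.g (nat_lit 2814) (.e (nat_lit 163905) (nat_lit 12) (.e (nat_lit 426555) (nat_lit 32) (.e (nat_lit 376865) (nat_lit 22) (.e (nat_lit 90158) (nat_lit 11) (.e (nat_lit 24598) (nat_lit 1) (.e (nat_lit 57927) (nat_lit 282) .nil)))))) (.g (nat_lit 1) (.e (nat_lit 154957) (nat_lit 0) .nil) .nil)))) (.nd (nat_lit 9) 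
(.lf (nat_lit 495908) (.g (nat_lit 2492) (.e (nat_lit 163905) (nat_lit 12) (.e (nat_lit 426436) (nat_lit 18) (.e (nat_lit 98358) (nat_lit 26) (.e (nat_lit 426323) (nat_lit 13) (.e (nat_lit 483363) (nat_lit 18) (.e (nat_lit 57691) (nat_lit 156) .nil)))))) (.g (nat_lit 1) (.e (nat_lit 154587) (nat_lit 0) .nil) .nil))) 
(.lf (nat_lit 496420) (.g (nat_lit 1986) (.e (nat_lit 163905) (nat_lit 12) (.e (nat_lit 426568) (nat_lit 34) (.e (nat_lit 393295) (nat_lit 26) (.e (nat_lit 475179) (nat_lit 24) (.e (nat_lit 516117) (nat_lit 1) .nil))))) (.g (nat_lit 0) (.e (nat_lit 155219) (nat_lit 0) .nil) .nil))))) (.nd (nat_lit 8) (.nd (nat_lit 9) 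
(.lf (nat_lit 495780) (.g (nat_lit 1431) (.e (nat_lit 163904) (nat_lit 12) (.e (nat_lit 426566) (nat_lit 34) (.e (nat_lit 393291) (nat_lit 26) (.e (nat_lit 475179) (nat_lit 24) (.e (nat_lit 516119) (nat_lit 1) .nil))))) (.g (nat_lit 0) (.e (nat_lit 154247) (nat_lit 0) .nil) .nil))) 
(.lf (nat_lit 496292) (.g (nat_lit 2704) (.e (nat_lit 163905) (nat_lit 12) (.e (nat_lit 426566) (nat_lit 34) (.e (nat_lit 393296) (nat_lit 26) (.e (nat_lit 475176) (nat_lit 24) (.e (nat_lit 516115) (nat_lit 1) (.e (nat_lit 164332) (nat_lit 230) .nil)))))) (.g (nat_lit 1) (.e (nat_lit 155090) (nat_lit 0) .nil) .nil)))) (.nd (nat_lit 9) 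
(.lf (nat_lit 496036) (.g (nat_lit 2704) (.e (nat_lit 163905) (nat_lit 12) (.e (nat_lit 426482) (nat_lit 27) (.e (nat_lit 336412) (nat_lit 27) (.e (nat_lit 426188) (nat_lit 9) (.e (nat_lit 426436) (nat_lit 18) (.e (nat_lit 98335) (nat_lit 18) (.e (nat_lit 164330) (nat_lit 230) .nil))))))) (.g (nat_lit 1) (.e (nat_lit 154811) (nat_lit 0) .nil) .nil))) 
(.lf (nat_lit 496548) (.g (nat_lit 2938) (.e (nat_lit 163907) (nat_lit 12) (.e (nat_lit 426436) (nat_lit 18) (.e (nat_lit 98381) (nat_lit 31) (.e (nat_lit 466954) (nat_lit 11) (.e (nat_lit 335988) (nat_lit 1) (.e (nat_lit 57691) (nat_lit 156) .nil)))))) (.g (nat_lit 1) (.e (nat_lit 155772) (nat_lit 0) .nil) .nil)))))) (.nd (nat_lit 7) (.nd (nat_lit 8) (.nd (nat_lit 9) 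
(.lf (nat_lit 495716) (.g (nat_lit 2555) (.e (nat_lit 163904) (nat_lit 12) (.e (nat_lit 426566) (nat_lit 34) (.e (nat_lit 393271) (nat_lit 23) (.e (nat_lit 426131) (nat_lit 3) (.e (nat_lit 204830) (nat_lit 18) (.e (nat_lit 57685) (nat_lit 156) .nil)))))) (.g (nat_lit 1) (.e (nat_lit 154182) (nat_lit 0) .nil) .nil))) 
(.lf (nat_lit 496228) (.g (nat_lit 3235) (.e (nat_lit 163905) (nat_lit 12) (.e (nat_lit 426566) (nat_lit 34) (.e (nat_lit 393273) (nat_lit 23) (.e (nat_lit 426131) (nat_lit 3) (.e (nat_lit 204829) (nat_lit 18) (.e (nat_lit 57692) (nat_lit 156) .nil)))))) (.g (nat_lit 1) (.e (nat_lit 155026) (nat_lit 0) .nil) .nil)))) (.nd (nat_lit 9) 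
(.lf (nat_lit 495972) (.g (nat_lit 2458) (.e (nat_lit 163905) (nat_lit 12) (.e (nat_lit 426478) (nat_lit 27) (.e (nat_lit 336389) (nat_lit 27) (.e (nat_lit 426306) (nat_lit 12) (.e (nat_lit 475177) (nat_lit 24) .nil))))) (.g (nat_lit 0) (.e (nat_lit 154655) (nat_lit 0) .nil) .nil))) 
(.lf (nat_lit 496484) (.g (nat_lit 2267) (.e (nat_lit 163906) (nat_lit 12) (.e (nat_lit 426566) (nat_lit 34) (.e (nat_lit 393294) (nat_lit 26) (.e (nat_lit 475177) (nat_lit 24) (.e (nat_lit 516115) (nat_lit 1) .nil))))) (.g (nat_lit 0) (.e (nat_lit 155439) (nat_lit 0) .nil) .nil))))) (.nd (nat_lit 8) (.nd (nat_lit 9) 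
(.lf (nat_lit 495844) (.g (nat_lit 583) (.e (nat_lit 163904) (nat_lit 12) (.e (nat_lit 426568) (nat_lit 34) (.e (nat_lit 393287) (nat_lit 25) .nil))) (.g (nat_lit 0) (.e (nat_lit 154315) (nat_lit 0) .nil) .nil))) 
(.lf (nat_lit 496356) (.g (nat_lit 3426) (.e (nat_lit 163905) (nat_lit 12) (.e (nat_lit 426568) (nat_lit 34) (.e (nat_lit 393271) (nat_lit 23) (.e (nat_lit 426131) (nat_lit 3) (.e (nat_lit 204831) (nat_lit 18) (.e (nat_lit 57692) (nat_lit 156) .nil)))))) (.g (nat_lit 1) (.e (nat_lit 155155) (nat_lit 0) .nil) .nil)))) (.nd (nat_lit 9) 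
(.lf (nat_lit 496100) (.g (nat_lit 2850) (.e (nat_lit 163905) (nat_lit 12) (.e (nat_lit 426542) (nat_lit 29) (.e (nat_lit 352313) (nat_lit 23) (.e (nat_lit 98313) (nat_lit 9) (.e (nat_lit 335996) (nat_lit 1) (.e (nat_lit 57929) (nat_lit 282) .nil)))))) (.g (nat_lit 1) (.e (nat_lit 154881) (nat_lit 0) .nil) .nil))) 
(.lf (nat_lit 496612) (.g (nat_lit 2584) (.e (nat_lit 163907) (nat_lit 12) (.e (nat_lit 426481) (nat_lit 27) (.e (nat_lit 336388) (nat_lit 27) (.e (nat_lit 426306) (nat_lit 12) (.e (nat_lit 475179) (nat_lit 24) (.e (nat_lit 516119) (nat_lit 1) (.e (nat_lit 164325) (nat_lit 230) .nil))))))) (.g (nat_lit 1) (.e (nat_lit 155842) (nat_lit 0) .nil) .nil)))))))) 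
(.nd (nat_lit 5) (.nd (nat_lit 6) (.nd (nat_lit 7) (.nd (nat_lit 8) (.nd (nat_lit 9) 
(.lf (nat_lit 495636) (.g (nat_lit 2695) (.e (nat_lit 163903) (nat_lit 12) (.e (nat_lit 426568) (nat_lit 34) (.e (nat_lit 393293) (nat_lit 26) (.e (nat_lit 475175) (nat_lit 24) (.e (nat_lit 516119) (nat_lit 1) (.e (nat_lit 164326) (nat_lit 230) .nil)))))) (.g (nat_lit 1) (.e (nat_lit 154060) (nat_lit 0) .nil) .nil))) 
(.lf (nat_lit 496148) (.g (nat_lit 3015) (.e (nat_lit 163905) (nat_lit 12) (.e (nat_lit 426555) (nat_lit 32) (.e (nat_lit 376862) (nat_lit 22) (.e (nat_lit 90158) (nat_lit 11) (.e (nat_lit 24598) (nat_lit 1) (.e (nat_lit 57926) (nat_lit 282) .nil)))))) (.g (nat_lit 1) (.e (nat_lit 154937) (nat_lit 0) .nil) .nil)))) (.nd (nat_lit 9) 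
(.lf (nat_lit 495892) (.g (nat_lit 3961) (.e (nat_lit 163905) (nat_lit 12) (.e (nat_lit 426428) (nat_lit 17) (.e (nat_lit 90178) (nat_lit 15) (.e (nat_lit 188421) (nat_lit 11) (.e (nat_lit 335986) (nat_lit 1) (.e (nat_lit 57688) (nat_lit 156) .nil)))))) (.g (nat_lit 1) (.e (nat_lit 154571) (nat_lit 0) .nil) .nil))) 
(.lf (nat_lit 496404) (.g (nat_lit 1927) (.e (nat_lit 163905) (nat_lit 12) (.e (nat_lit 426568) (nat_lit 34) (.e (nat_lit 393292) (nat_lit 26) (.e (nat_lit 475177) (nat_lit 24) (.e (nat_lit 516120) (nat_lit 1) (.e (nat_lit 164332) (nat_lit 230) .nil)))))) (.g (nat_lit 1) (.e (nat_lit 155203) (nat_lit 0) .nil) .nil))))) (.nd (nat_lit 8) (.nd (nat_lit 9) 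
(.lf (nat_lit 495764) (.g (nat_lit 2540) (.e (nat_lit 163904) (nat_lit 12) (.e (nat_lit 426566) (nat_lit 34) (.e (nat_lit 393291) (nat_lit 26) (.e (nat_lit 475177) (nat_lit 24) (.e (nat_lit 516118) (nat_lit 1) (.e (nat_lit 164326) (nat_lit 230) .nil)))))) (.g (nat_lit 1) (.e (nat_lit 154231) (nat_lit 0) .nil) .nil))) 
(.lf (nat_lit 496276) (.g (nat_lit 3534) (.e (nat_lit 163905) (nat_lit 12) (.e (nat_lit 426566) (nat_lit 34) (.e (nat_lit 393294) (nat_lit 26) (.e (nat_lit 475177) (nat_lit 24) (.e (nat_lit 516119) (nat_lit 1) (.e (nat_lit 164324) (nat_lit 230) .nil)))))) (.g (nat_lit 1) (.e (nat_lit 155074) (nat_lit 0) .nil) .nil)))) (.nd (nat_lit 9) 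
(.lf (nat_lit 496020) (.g (nat_lit 4515) (.e (nat_lit 163905) (nat_lit 12) (.e (nat_lit 426482) (nat_lit 27) (.e (nat_lit 336385) (nat_lit 27) (.e (nat_lit 426188) (nat_lit 9) (.e (nat_lit 426436) (nat_lit 18) (.e (nat_lit 98335) (nat_lit 18) (.e (nat_lit 164330) (nat_lit 230) .nil))))))) (.g (nat_lit 1) (.e (nat_lit 154708) (nat_lit 0) .nil) .nil))) 
(.lf (nat_lit 496532) (.g (nat_lit 3288) (.e (nat_lit 163907) (nat_lit 12) (.e (nat_lit 426436) (nat_lit 18) (.e (nat_lit 98358) (nat_lit 26) (.e (nat_lit 426323) (nat_lit 13) (.e (nat_lit 483364) (nat_lit 18) (.e (nat_lit 57692) (nat_lit 156) .nil)))))) (.g (nat_lit 1) (.e (nat_lit 155754) (nat_lit 0) .nil) .nil)))))) (.nd (nat_lit 7) (.nd (nat_lit 8) (.nd (nat_lit 9) 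
(.lf (nat_lit 495700) (.g (nat_lit 2431) (.e (nat_lit 163904) (nat_lit 12) (.e (nat_lit 426566) (nat_lit 34) (.e (nat_lit 393268) (nat_lit 23) (.e (nat_lit 426437) (nat_lit 18) (.e (nat_lit 98333) (nat_lit 18) (.e (nat_lit 164325) (nat_lit 230) .nil)))))) (.g (nat_lit 1) (.e (nat_lit 154165) (nat_lit 0) .nil) .nil))) 
(.lf (nat_lit 496212) (.g (nat_lit 1465) (.e (nat_lit 163905) (nat_lit 12) (.e (nat_lit 426566) (nat_lit 34) (.e (nat_lit 393271) (nat_lit 23) (.e (nat_lit 426428) (nat_lit 17) .nil)))) (.g (nat_lit 0) (.e (nat_lit 155010) (nat_lit 0) .nil) .nil)))) (.nd (nat_lit 9) 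
(.lf (nat_lit 495956) (.g (nat_lit 2997) (.e (nat_lit 163905) (nat_lit 12) (.e (nat_lit 426438) (nat_lit 18) (.e (nat_lit 98381) (nat_lit 31) (.e (nat_lit 466954) (nat_lit 11) (.e (nat_lit 335986) (nat_lit 1) (.e (nat_lit 57688) (nat_lit 156) .nil)))))) (.g (nat_lit 1) (.e (nat_lit 154639) (nat_lit 0) .nil) .nil))) 
(.lf (nat_lit 496468) (.g (nat_lit 1526) (.e (nat_lit 163906) (nat_lit 12) (.e (nat_lit 426478) (nat_lit 27) (.e (nat_lit 336443) (nat_lit 32) (.e (nat_lit 466981) (nat_lit 23) (.e (nat_lit 204830) (nat_lit 18) (.e (nat_lit 57691) (nat_lit 156) .nil)))))) (.g (nat_lit 1) (.e (nat_lit 155422) (nat_lit 0) .nil) .nil))))) (.nd (nat_lit 8) (.nd (nat_lit 9) 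
(.lf (nat_lit 495828) (.g (nat_lit 3710) (.e (nat_lit 163904) (nat_lit 12) (.e (nat_lit 426566) (nat_lit 34) (.e (nat_lit 393294) (nat_lit 26) (.e (nat_lit 475179) (nat_lit 24) (.e (nat_lit 516117) (nat_lit 1) (.e (nat_lit 164322) (nat_lit 230) .nil)))))) (.g (nat_lit 1) (.e (nat_lit 154295) (nat_lit 0) .nil) .nil))) 
(.lf (nat_lit 496340) (.g (nat_lit 1823) (.e (nat_lit 163905) (nat_lit 12) (.e (nat_lit 426568) (nat_lit 34) (.e (nat_lit 393269) (nat_lit 23) (.e (nat_lit 426436) (nat_lit 18) (.e (nat_lit 98333) (nat_lit 18) (.e (nat_lit 164332) (nat_lit 230) .nil)))))) (.g (nat_lit 1) (.e (nat_lit 155139) (nat_lit 0) .nil) .nil)))) (.nd (nat_lit 9) 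
(.lf (nat_lit 496084) (.g (nat_lit 4479) (.e (nat_lit 163905) (nat_lit 12) (.e (nat_lit 426530) (nat_lit 27) (.e (nat_lit 336390) (nat_lit 27) (.e (nat_lit 426308) (nat_lit 12) (.e (nat_lit 475177) (nat_lit 24) (.e (nat_lit 516120) (nat_lit 1) (.e (nat_lit 164330) (nat_lit 230) .nil))))))) (.g (nat_lit 1) (.e (nat_lit 154862) (nat_lit 0) .nil) .nil))) 
(.lf (nat_lit 496596) (.g (nat_lit 1881) (.e (nat_lit 163907) (nat_lit 12) (.e (nat_lit 426481) (nat_lit 27) (.e (nat_lit 336385) (nat_lit 27) (.e (nat_lit 426199) (nat_lit 9) (.e (nat_lit 426131) (nat_lit 3) (.e (nat_lit 204831) (nat_lit 18) (.e (nat_lit 57692) (nat_lit 156) .nil))))))) (.g (nat_lit 1) (.e (nat_lit 155826) (nat_lit 0) .nil) .nil))))))) 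
(.nd (nat_lit 6) (.nd (nat_lit 7) (.nd (nat_lit 8) (.nd (nat_lit 9) 
(.lf (nat_lit 495668) (.g (nat_lit 2455) (.e (nat_lit 163904) (nat_lit 12) (.e (nat_lit 426555) (nat_lit 32) (.e (nat_lit 376867) (nat_lit 23) (.e (nat_lit 98313) (nat_lit 9) (.e (nat_lit 335988) (nat_lit 1) (.e (nat_lit 57927) (nat_lit 282) .nil)))))) (.g (nat_lit 1) (.e (nat_lit 154132) (nat_lit 0) .nil) .nil))) 
(.lf (nat_lit 496180) (.g (nat_lit 2439) (.e (nat_lit 163905) (nat_lit 12) (.e (nat_lit 426555) (nat_lit 32) (.e (nat_lit 376868) (nat_lit 23) (.e (nat_lit 98317) (nat_lit 9) (.e (nat_lit 335995) (nat_lit 1) (.e (nat_lit 57931) (nat_lit 282) .nil)))))) (.g (nat_lit 1) (.e (nat_lit 154977) (nat_lit 0) .nil) .nil)))) (.nd (nat_lit 9) 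
(.lf (nat_lit 495924) (.g (nat_lit 2228) (.e (nat_lit 163905) (nat_lit 12) (.e (nat_lit 426436) (nat_lit 18) (.e (nat_lit 98381) (nat_lit 31) (.e (nat_lit 466954) (nat_lit 11) (.e (nat_lit 335986) (nat_lit 1) (.e (nat_lit 57688) (nat_lit 156) .nil)))))) (.g (nat_lit 1) (.e (nat_lit 154605) (nat_lit 0) .nil) .nil))) 
(.lf (nat_lit 496436) (.g (nat_lit 2479) (.e (nat_lit 163906) (nat_lit 12) (.e (nat_lit 426436) (nat_lit 18) (.e (nat_lit 98358) (nat_lit 26) (.e (nat_lit 426323) (nat_lit 13) (.e (nat_lit 483363) (nat_lit 18) .nil))))) (.g (nat_lit 0) (.e (nat_lit 155389) (nat_lit 0) .nil) .nil))))) (.nd (nat_lit 8) (.nd (nat_lit 9) 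
(.lf (nat_lit 495796) (.g (nat_lit 1792) (.e (nat_lit 163904) (nat_lit 12) (.e (nat_lit 426566) (nat_lit 34) (.e (nat_lit 393293) (nat_lit 26) (.e (nat_lit 475179) (nat_lit 24) (.e (nat_lit 516120) (nat_lit 1) .nil))))) (.g (nat_lit 0) (.e (nat_lit 154263) (nat_lit 0) .nil) .nil))) 
(.lf (nat_lit 496308) (.g (nat_lit 3444) (.e (nat_lit 163905) (nat_lit 12) (.e (nat_lit 426566) (nat_lit 34) (.e (nat_lit 393296) (nat_lit 26) (.e (nat_lit 475179) (nat_lit 24) (.e (nat_lit 516119) (nat_lit 1) (.e (nat_lit 164324) (nat_lit 230) .nil)))))) (.g (nat_lit 1) (.e (nat_lit 155106) (nat_lit 0) .nil) .nil)))) (.nd (nat_lit 9) 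
(.lf (nat_lit 496052) (.g (nat_lit 2545) (.e (nat_lit 163905) (nat_lit 12) (.e (nat_lit 426489) (nat_lit 27) (.e (nat_lit 336405) (nat_lit 27) (.e (nat_lit 426188) (nat_lit 9) (.e (nat_lit 426436) (nat_lit 18) (.e (nat_lit 98335) (nat_lit 18) (.e (nat_lit 164330) (nat_lit 230) .nil))))))) (.g (nat_lit 1) (.e (nat_lit 154830) (nat_lit 0) .nil) .nil))) 
(.lf (nat_lit 496564) (.g (nat_lit 2758) (.e (nat_lit 163907) (nat_lit 12) (.e (nat_lit 426438) (nat_lit 18) (.e (nat_lit 98370) (nat_lit 28) (.e (nat_lit 442385) (nat_lit 11) (.e (nat_lit 335996) (nat_lit 1) (.e (nat_lit 57692) (nat_lit 156) .nil)))))) (.g (nat_lit 1) (.e (nat_lit 155789) (nat_lit 0) .nil) .nil)))))) (.nd (nat_lit 7) (.nd (nat_lit 8) (.nd (nat_lit 9) 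
(.lf (nat_lit 495732) (.g (nat_lit 2648) (.e (nat_lit 163904) (nat_lit 12) (.e (nat_lit 426566) (nat_lit 34) (.e (nat_lit 393271) (nat_lit 23) (.e (nat_lit 426438) (nat_lit 18) (.e (nat_lit 98335) (nat_lit 18) (.e (nat_lit 164324) (nat_lit 230) .nil)))))) (.g (nat_lit 1) (.e (nat_lit 154198) (nat_lit 0) .nil) .nil))) 
(.lf (nat_lit 496244) (.g (nat_lit 2685) (.e (nat_lit 163905) (nat_lit 12) (.e (nat_lit 426566) (nat_lit 34) (.e (nat_lit 393286) (nat_lit 25) (.e (nat_lit 458789) (nat_lit 23) (.e (nat_lit 532501) (nat_lit 1) (.e (nat_lit 57692) (nat_lit 156) .nil)))))) (.g (nat_lit 1) (.e (nat_lit 155042) (nat_lit 0) .nil) .nil)))) (.nd (nat_lit 9) 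
(.lf (nat_lit 495988) (.g (nat_lit 2247) (.e (nat_lit 163905) (nat_lit 12) (.e (nat_lit 426479) (nat_lit 27) (.e (nat_lit 336430) (nat_lit 29) (.e (nat_lit 442425) (nat_lit 23) (.e (nat_lit 204830) (nat_lit 18) (.e (nat_lit 57690) (nat_lit 156) .nil)))))) (.g (nat_lit 1) (.e (nat_lit 154671) (nat_lit 0) .nil) .nil))) 
(.lf (nat_lit 496500) (.g (nat_lit 1313) (.e (nat_lit 163907) (nat_lit 12) (.e (nat_lit 426131) (nat_lit 3) (.e (nat_lit 204869) (nat_lit 29) (.e (nat_lit 360475) (nat_lit 8) .nil)))) (.g (nat_lit 0) (.e (nat_lit 155476) (nat_lit 0) .nil) .nil))))) (.nd (nat_lit 8) (.nd (nat_lit 9) 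
(.lf (nat_lit 495860) (.g (nat_lit 3098) (.e (nat_lit 163905) (nat_lit 12) (.e (nat_lit 426320) (nat_lit 12) (.e (nat_lit 475210) (nat_lit 41) (.e (nat_lit 712755) (nat_lit 30) (.e (nat_lit 450569) (nat_lit 0) (.e (nat_lit 5599) (nat_lit 310) .nil)))))) (.g (nat_lit 1) (.e (nat_lit 154349) (nat_lit 0) .nil) .nil))) 
(.lf (nat_lit 496372) (.g (nat_lit 3546) (.e (nat_lit 163905) (nat_lit 12) (.e (nat_lit 426568) (nat_lit 34) (.e (nat_lit 393282) (nat_lit 24) (.e (nat_lit 434231) (nat_lit 23) (.e (nat_lit 532499) (nat_lit 1) (.e (nat_lit 57691) (nat_lit 156) .nil)))))) (.g (nat_lit 1) (.e (nat_lit 155171) (nat_lit 0) .nil) .nil)))) (.nd (nat_lit 9) 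
(.lf (nat_lit 496116) (.g (nat_lit 3198) (.e (nat_lit 163905) (nat_lit 12) (.e (nat_lit 426542) (nat_lit 29) (.e (nat_lit 352315) (nat_lit 23) (.e (nat_lit 98313) (nat_lit 9) (.e (nat_lit 335996) (nat_lit 1) (.e (nat_lit 57929) (nat_lit 282) .nil)))))) (.g (nat_lit 1) (.e (nat_lit 154897) (nat_lit 0) .nil) .nil))) 
(.lf (nat_lit 496628) (.g (nat_lit 2377) (.e (nat_lit 163907) (nat_lit 12) (.e (nat_lit 426555) (nat_lit 32) (.e (nat_lit 376862) (nat_lit 22) (.e (nat_lit 90158) (nat_lit 11) (.e (nat_lit 24599) (nat_lit 1) (.e (nat_lit 57924) (nat_lit 282) .nil)))))) (.g (nat_lit 1) (.e (nat_lit 155863) (nat_lit 0) .nil) .nil))))))))) 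
(.nd (nat_lit 4) (.nd (nat_lit 5) (.nd (nat_lit 6) (.nd (nat_lit 7) (.nd (nat_lit 8) 
(.nd (nat_lit 9) 
(.lf (nat_lit 495628) (.g (nat_lit 3747) (.e (nat_lit 163903) (nat_lit 12) (.e (nat_lit 426568) (nat_lit 34) (.e (nat_lit 393291) (nat_lit 26) (.e (nat_lit 475177) (nat_lit 24) (.e (nat_lit 516119) (nat_lit 1) (.e (nat_lit 164326) (nat_lit 230) .nil)))))) (.g (nat_lit 1) (.e (nat_lit 154052) (nat_lit 0) .nil) .nil))) 
(.lf (nat_lit 496140) (.g (nat_lit 837) (.e (nat_lit 163905) (nat_lit 12) (.e (nat_lit 426555) (nat_lit 32) (.e (nat_lit 376861) (nat_lit 22) .nil))) (.g (nat_lit 0) (.e (nat_lit 154927) (nat_lit 0) .nil) .nil)))) (.nd (nat_lit 9) 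
(.lf (nat_lit 495884) (.g (nat_lit 3106) (.e (nat_lit 163905) (nat_lit 12) (.e (nat_lit 426428) (nat_lit 17) (.e (nat_lit 90170) (nat_lit 13) (.e (nat_lit 172123) (nat_lit 13) (.e (nat_lit 483365) (nat_lit 18) (.e (nat_lit 57688) (nat_lit 156) .nil)))))) (.g (nat_lit 1) (.e (nat_lit 154562) (nat_lit 0) .nil) .nil))) 
(.lf (nat_lit 496396) (.g (nat_lit 2897) (.e (nat_lit 163905) (nat_lit 12) (.e (nat_lit 426568) (nat_lit 34) (.e (nat_lit 393291) (nat_lit 26) (.e (nat_lit 475177) (nat_lit 24) (.e (nat_lit 516117) (nat_lit 1) (.e (nat_lit 164330) (nat_lit 230) .nil)))))) (.g (nat_lit 1) (.e (nat_lit 155195) (nat_lit 0) .nil) .nil))))) (.nd (nat_lit 8) (.nd (nat_lit 9) 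
(.lf (nat_lit 495756) (.g (nat_lit 3007) (.e (nat_lit 163904) (nat_lit 12) (.e (nat_lit 426566) (nat_lit 34) (.e (nat_lit 393291) (nat_lit 26) (.e (nat_lit 475177) (nat_lit 24) (.e (nat_lit 516115) (nat_lit 1) (.e (nat_lit 164332) (nat_lit 230) .nil)))))) (.g (nat_lit 1) (.e (nat_lit 154223) (nat_lit 0) .nil) .nil))) 
(.lf (nat_lit 496268) (.g (nat_lit 2643) (.e (nat_lit 163905) (nat_lit 12) (.e (nat_lit 426566) (nat_lit 34) (.e (nat_lit 393293) (nat_lit 26) (.e (nat_lit 475177) (nat_lit 24) (.e (nat_lit 516118) (nat_lit 1) (.e (nat_lit 164332) (nat_lit 230) .nil)))))) (.g (nat_lit 1) (.e (nat_lit 155066) (nat_lit 0) .nil) .nil)))) (.nd (nat_lit 9) 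
(.lf (nat_lit 496012) (.g (nat_lit 2227) (.e (nat_lit 163905) (nat_lit 12) (.e (nat_lit 426480) (nat_lit 27) (.e (nat_lit 336389) (nat_lit 27) (.e (nat_lit 426190) (nat_lit 9) (.e (nat_lit 426436) (nat_lit 18) (.e (nat_lit 98335) (nat_lit 18) (.e (nat_lit 164330) (nat_lit 230) .nil))))))) (.g (nat_lit 1) (.e (nat_lit 154695) (nat_lit 0) .nil) .nil))) 
(.lf (nat_lit 496524) (.g (nat_lit 2234) (.e (nat_lit 163907) (nat_lit 12) (.e (nat_lit 426432) (nat_lit 17) (.e (nat_lit 90178) (nat_lit 15) (.e (nat_lit 188421) (nat_lit 11) (.e (nat_lit 335986) (nat_lit 1) (.e (nat_lit 57692) (nat_lit 156) .nil)))))) (.g (nat_lit 1) (.e (nat_lit 155743) (nat_lit 0) .nil) .nil)))))) (.nd (nat_lit 7) (.nd (nat_lit 8) (.nd (nat_lit 9) 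
(.lf (nat_lit 495692) (.g (nat_lit 3050) (.e (nat_lit 163904) (nat_lit 12) (.e (nat_lit 426566) (nat_lit 34) (.e (nat_lit 393268) (nat_lit 23) (.e (nat_lit 426436) (nat_lit 18) (.e (nat_lit 98333) (nat_lit 18) (.e (nat_lit 164331) (nat_lit 230) .nil)))))) (.g (nat_lit 1) (.e (nat_lit 154157) (nat_lit 0) .nil) .nil))) 
(.lf (nat_lit 496204) (.g (nat_lit 3683) (.e (nat_lit 163905) (nat_lit 12) (.e (nat_lit 426566) (nat_lit 34) (.e (nat_lit 393271) (nat_lit 23) (.e (nat_lit 426131) (nat_lit 3) (.e (nat_lit 204829) (nat_lit 18) (.e (nat_lit 57688) (nat_lit 156) .nil)))))) (.g (nat_lit 1) (.e (nat_lit 155002) (nat_lit 0) .nil) .nil)))) (.nd (nat_lit 9) 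
(.lf (nat_lit 495948) (.g (nat_lit 2387) (.e (nat_lit 163905) (nat_lit 12) (.e (nat_lit 426438) (nat_lit 18) (.e (nat_lit 98373) (nat_lit 29) (.e (nat_lit 450560) (nat_lit 0) (.e (nat_lit 6839) (nat_lit 369) .nil))))) (.g (nat_lit 0) (.e (nat_lit 154629) (nat_lit 0) .nil) .nil))) 
(.lf (nat_lit 496460) (.g (nat_lit 1453) (.e (nat_lit 163906) (nat_lit 12) (.e (nat_lit 426438) (nat_lit 18) (.e (nat_lit 98370) (nat_lit 28) (.e (nat_lit 442388) (nat_lit 11) .nil)))) (.g (nat_lit 0) (.e (nat_lit 155414) (nat_lit 0) .nil) .nil))))) (.nd (nat_lit 8) (.nd (nat_lit 9) 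
(.lf (nat_lit 495820) (.g (nat_lit 1796) (.e (nat_lit 163904) (nat_lit 12) (.e (nat_lit 426566) (nat_lit 34) (.e (nat_lit 393294) (nat_lit 26) (.e (nat_lit 475177) (nat_lit 24) (.e (nat_lit 516119) (nat_lit 1) (.e (nat_lit 164328) (nat_lit 230) .nil)))))) (.g (nat_lit 1) (.e (nat_lit 154287) (nat_lit 0) .nil) .nil))) 
(.lf (nat_lit 496332) (.g (nat_lit 2869) (.e (nat_lit 163905) (nat_lit 12) (.e (nat_lit 426568) (nat_lit 34) (.e (nat_lit 393267) (nat_lit 23) (.e (nat_lit 426438) (nat_lit 18) (.e (nat_lit 98335) (nat_lit 18) (.e (nat_lit 164332) (nat_lit 230) .nil)))))) (.g (nat_lit 1) (.e (nat_lit 155131) (nat_lit 0) .nil) .nil)))) (.nd (nat_lit 9) 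
(.lf (nat_lit 496076) (.g (nat_lit 2252) (.e (nat_lit 163905) (nat_lit 12) (.e (nat_lit 426530) (nat_lit 27) (.e (nat_lit 336390) (nat_lit 27) (.e (nat_lit 426306) (nat_lit 12) (.e (nat_lit 475177) (nat_lit 24) .nil))))) (.g (nat_lit 0) (.e (nat_lit 154854) (nat_lit 0) .nil) .nil))) 
(.lf (nat_lit 496588) (.g (nat_lit 1699) (.e (nat_lit 163907) (nat_lit 12) (.e (nat_lit 426479) (nat_lit 27) (.e (nat_lit 336432) (nat_lit 30) (.e (nat_lit 450579) (nat_lit 5) (.e (nat_lit 532504) (nat_lit 1) (.e (nat_lit 57690) (nat_lit 156) .nil)))))) (.g (nat_lit 1) (.e (nat_lit 155814) (nat_lit 0) .nil) .nil))))))) (.nd (nat_lit 6) (.nd (nat_lit 7) (.nd (nat_lit 8) (.nd (nat_lit 9) 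
(.lf (nat_lit 495660) (.g (nat_lit 2064) (.e (nat_lit 163904) (nat_lit 12) (.e (nat_lit 426436) (nat_lit 18) (.e (nat_lit 98381) (nat_lit 31) (.e (nat_lit 466954) (nat_lit 11) (.e (nat_lit 335986) (nat_lit 1) (.e (nat_lit 57688) (nat_lit 156) .nil)))))) (.g (nat_lit 1) (.e (nat_lit 154100) (nat_lit 0) .nil) .nil))) 
(.lf (nat_lit 496172) (.g (nat_lit 2337) (.e (nat_lit 163905) (nat_lit 12) (.e (nat_lit 426555) (nat_lit 32) (.e (nat_lit 376866) (nat_lit 23) (.e (nat_lit 98317) (nat_lit 9) (.e (nat_lit 335986) (nat_lit 1) (.e (nat_lit 57927) (nat_lit 282) .nil)))))) (.g (nat_lit 1) (.e (nat_lit 154969) (nat_lit 0) .nil) .nil)))) (.nd (nat_lit 9) 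
(.lf (nat_lit 495916) (.g (nat_lit 2539) (.e (nat_lit 163905) (nat_lit 12) (.e (nat_lit 426436) (nat_lit 18) (.e (nat_lit 98369) (nat_lit 28) (.e (nat_lit 442390) (nat_lit 11) (.e (nat_lit 335986) (nat_lit 1) (.e (nat_lit 57692) (nat_lit 156) .nil)))))) (.g (nat_lit 1) (.e (nat_lit 154597) (nat_lit 0) .nil) .nil))) 
(.lf (nat_lit 496428) (.g (nat_lit 1847) (.e (nat_lit 163906) (nat_lit 12) (.e (nat_lit 426428) (nat_lit 17) (.e (nat_lit 90170) (nat_lit 13) (.e (nat_lit 172123) (nat_lit 13) (.e (nat_lit 483363) (nat_lit 18) .nil))))) (.g (nat_lit 0) (.e (nat_lit 155380) (nat_lit 0) .nil) .nil))))) (.nd (nat_lit 8) (.nd (nat_lit 9) 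
(.lf (nat_lit 495788) (.g (nat_lit 998) (.e (nat_lit 163904) (nat_lit 12) (.e (nat_lit 426566) (nat_lit 34) (.e (nat_lit 393292) (nat_lit 26) .nil))) (.g (nat_lit 0) (.e (nat_lit 154255) (nat_lit 0) .nil) .nil))) 
(.lf (nat_lit 496300) (.g (nat_lit 1530) (.e (nat_lit 163905) (nat_lit 12) (.e (nat_lit 426566) (nat_lit 34) (.e (nat_lit 393296) (nat_lit 26) (.e (nat_lit 475178) (nat_lit 24) (.e (nat_lit 516118) (nat_lit 1) (.e (nat_lit 164332) (nat_lit 230) .nil)))))) (.g (nat_lit 1) (.e (nat_lit 155098) (nat_lit 0) .nil) .nil)))) (.nd (nat_lit 9) 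
(.lf (nat_lit 496044) (.g (nat_lit 3001) (.e (nat_lit 163905) (nat_lit 12) (.e (nat_lit 426481) (nat_lit 27) (.e (nat_lit 336389) (nat_lit 27) (.e (nat_lit 426308) (nat_lit 12) (.e (nat_lit 475177) (nat_lit 24) (.e (nat_lit 516115) (nat_lit 1) (.e (nat_lit 164332) (nat_lit 230) .nil))))))) (.g (nat_lit 1) (.e (nat_lit 154822) (nat_lit 0) .nil) .nil))) 
(.lf (nat_lit 496556) (.g (nat_lit 1079) (.e (nat_lit 163907) (nat_lit 12) (.e (nat_lit 426437) (nat_lit 18) (.e (nat_lit 98359) (nat_lit 26) (.e (nat_lit 426331) (nat_lit 13) .nil)))) (.g (nat_lit 0) (.e (nat_lit 155780) (nat_lit 0) .nil) .nil)))))) (.nd (nat_lit 7) (.nd (nat_lit 8) (.nd (nat_lit 9) 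
(.lf (nat_lit 495724) (.g (nat_lit 3318) (.e (nat_lit 163904) (nat_lit 12) (.e (nat_lit 426566) (nat_lit 34) (.e (nat_lit 393271) (nat_lit 23) (.e (nat_lit 426436) (nat_lit 18) (.e (nat_lit 98334) (nat_lit 18) (.e (nat_lit 164329) (nat_lit 230) .nil)))))) (.g (nat_lit 1) (.e (nat_lit 154190) (nat_lit 0) .nil) .nil))) 
(.lf (nat_lit 496236) (.g (nat_lit 2504) (.e (nat_lit 163905) (nat_lit 12) (.e (nat_lit 426566) (nat_lit 34) (.e (nat_lit 393273) (nat_lit 23) (.e (nat_lit 426438) (nat_lit 18) (.e (nat_lit 98333) (nat_lit 18) (.e (nat_lit 164325) (nat_lit 230) .nil)))))) (.g (nat_lit 1) (.e (nat_lit 155034) (nat_lit 0) .nil) .nil)))) (.nd (nat_lit 9) 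
(.lf (nat_lit 495980) (.g (nat_lit 3199) (.e (nat_lit 163905) (nat_lit 12) (.e (nat_lit 426478) (nat_lit 27) (.e (nat_lit 336389) (nat_lit 27) (.e (nat_lit 426308) (nat_lit 12) (.e (nat_lit 475179) (nat_lit 24) (.e (nat_lit 516120) (nat_lit 1) (.e (nat_lit 164332) (nat_lit 230) .nil))))))) (.g (nat_lit 1) (.e (nat_lit 154663) (nat_lit 0) .nil) .nil))) 
(.lf (nat_lit 496492) (.g (nat_lit 2462) (.e (nat_lit 163907) (nat_lit 12) (.e (nat_lit 426128) (nat_lit 2) (.e (nat_lit 196672) (nat_lit 15) (.e (nat_lit 81956) (nat_lit 23) (.e (nat_lit 106240) (nat_lit 1) (.e (nat_lit 57691) (nat_lit 156) .nil)))))) (.g (nat_lit 1) (.e (nat_lit 155450) (nat_lit 0) .nil) .nil))))) (.nd (nat_lit 8) (.nd (nat_lit 9) 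
(.lf (nat_lit 495852) (.g (nat_lit 1943) (.e (nat_lit 163905) (nat_lit 12) (.e (nat_lit 426320) (nat_lit 12) (.e (nat_lit 475196) (nat_lit 40) (.e (nat_lit 704599) (nat_lit 6) (.e (nat_lit 188455) (nat_lit 24) (.e (nat_lit 229681) (nat_lit 244) .nil)))))) (.g (nat_lit 1) (.e (nat_lit 154339) (nat_lit 0) .nil) .nil))) 
(.lf (nat_lit 496364) (.g (nat_lit 1693) (.e (nat_lit 163905) (nat_lit 12) (.e (nat_lit 426568) (nat_lit 34) (.e (nat_lit 393272) (nat_lit 23) (.e (nat_lit 426436) (nat_lit 18) (.e (nat_lit 98334) (nat_lit 18) .nil))))) (.g (nat_lit 0) (.e (nat_lit 155163) (nat_lit 0) .nil) .nil)))) (.nd (nat_lit 9) 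
(.lf (nat_lit 496108) (.g (nat_lit 3108) (.e (nat_lit 163905) (nat_lit 12) (.e (nat_lit 426542) (nat_lit 29) (.e (nat_lit 352315) (nat_lit 23) (.e (nat_lit 98312) (nat_lit 9) (.e (nat_lit 335988) (nat_lit 1) (.e (nat_lit 57927) (nat_lit 282) .nil)))))) (.g (nat_lit 1) (.e (nat_lit 154889) (nat_lit 0) .nil) .nil))) 
(.lf (nat_lit 496620) (.g (nat_lit 2398) (.e (nat_lit 163907) (nat_lit 12) (.e (nat_lit 426544) (nat_lit 30) (.e (nat_lit 360467) (nat_lit 3) (.e (nat_lit 516199) (nat_lit 26) (.e (nat_lit 335988) (nat_lit 1) (.e (nat_lit 57927) (nat_lit 282) .nil)))))) (.g (nat_lit 1) (.e (nat_lit 155850) (nat_lit 0) .nil) .nil)))))))) 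
(.nd (nat_lit 5) (.nd (nat_lit 6) (.nd (nat_lit 7) (.nd (nat_lit 8) (.nd (nat_lit 9) 
(.lf (nat_lit 495644) (.g (nat_lit 4633) (.e (nat_lit 163903) (nat_lit 12) (.e (nat_lit 426568) (nat_lit 34) (.e (nat_lit 393294) (nat_lit 26) (.e (nat_lit 475177) (nat_lit 24) (.e (nat_lit 516115) (nat_lit 1) (.e (nat_lit 164325) (nat_lit 230) .nil)))))) (.g (nat_lit 1) (.e (nat_lit 154069) (nat_lit 0) .nil) .nil))) 
(.lf (nat_lit 496156) (.g (nat_lit 565) (.e (nat_lit 163905) (nat_lit 12) (.e (nat_lit 426555) (nat_lit 32) (.e (nat_lit 376864) (nat_lit 22) .nil))) (.g (nat_lit 0) (.e (nat_lit 154945) (nat_lit 0) .nil) .nil)))) (.nd (nat_lit 9) 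
(.lf (nat_lit 495900) (.g (nat_lit 2048) (.e (nat_lit 163905) (nat_lit 12) (.e (nat_lit 426432) (nat_lit 17) (.e (nat_lit 90176) (nat_lit 15) (.e (nat_lit 188423) (nat_lit 11) (.e (nat_lit 335986) (nat_lit 1) (.e (nat_lit 57692) (nat_lit 156) .nil)))))) (.g (nat_lit 1) (.e (nat_lit 154579) (nat_lit 0) .nil) .nil))) 
(.lf (nat_lit 496412) (.g (nat_lit 3183) (.e (nat_lit 163905) (nat_lit 12) (.e (nat_lit 426568) (nat_lit 34) (.e (nat_lit 393294) (nat_lit 26) (.e (nat_lit 475177) (nat_lit 24) (.e (nat_lit 516117) (nat_lit 1) (.e (nat_lit 164330) (nat_lit 230) .nil)))))) (.g (nat_lit 1) (.e (nat_lit 155211) (nat_lit 0) .nil) .nil))))) (.nd (nat_lit 8) (.nd (nat_lit 9) 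
(.lf (nat_lit 495772) (.g (nat_lit 3190) (.e (nat_lit 163904) (nat_lit 12) (.e (nat_lit 426566) (nat_lit 34) (.e (nat_lit 393291) (nat_lit 26) (.e (nat_lit 475177) (nat_lit 24) (.e (nat_lit 516120) (nat_lit 1) (.e (nat_lit 164322) (nat_lit 230) .nil)))))) (.g (nat_lit 1) (.e (nat_lit 154239) (nat_lit 0) .nil) .nil))) 
(.lf (nat_lit 496284) (.g (nat_lit 2914) (.e (nat_lit 163905) (nat_lit 12) (.e (nat_lit 426566) (nat_lit 34) (.e (nat_lit 393295) (nat_lit 26) (.e (nat_lit 475177) (nat_lit 24) (.e (nat_lit 516117) (nat_lit 1) (.e (nat_lit 164332) (nat_lit 230) .nil)))))) (.g (nat_lit 1) (.e (nat_lit 155082) (nat_lit 0) .nil) .nil)))) (.nd (nat_lit 9) 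
(.lf (nat_lit 496028) (.g (nat_lit 3513) (.e (nat_lit 163905) (nat_lit 12) (.e (nat_lit 426482) (nat_lit 27) (.e (nat_lit 336389) (nat_lit 27) (.e (nat_lit 426188) (nat_lit 9) (.e (nat_lit 426436) (nat_lit 18) (.e (nat_lit 98335) (nat_lit 18) (.e (nat_lit 164330) (nat_lit 230) .nil))))))) (.g (nat_lit 1) (.e (nat_lit 154762) (nat_lit 0) .nil) .nil))) 
(.lf (nat_lit 496540) (.g (nat_lit 835) (.e (nat_lit 163907) (nat_lit 12) (.e (nat_lit 426436) (nat_lit 18) (.e (nat_lit 98372) (nat_lit 29) .nil))) (.g (nat_lit 0) (.e (nat_lit 155764) (nat_lit 0) .nil) .nil)))))) (.nd (nat_lit 7) (.nd (nat_lit 8) (.nd (nat_lit 9) 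
(.lf (nat_lit 495708) (.g (nat_lit 2834) (.e (nat_lit 163904) (nat_lit 12) (.e (nat_lit 426566) (nat_lit 34) (.e (nat_lit 393268) (nat_lit 23) (.e (nat_lit 426438) (nat_lit 18) (.e (nat_lit 98335) (nat_lit 18) (.e (nat_lit 164332) (nat_lit 230) .nil)))))) (.g (nat_lit 1) (.e (nat_lit 154173) (nat_lit 0) .nil) .nil))) 
(.lf (nat_lit 496220) (.g (nat_lit 3077) (.e (nat_lit 163905) (nat_lit 12) (.e (nat_lit 426566) (nat_lit 34) (.e (nat_lit 393272) (nat_lit 23) (.e (nat_lit 426131) (nat_lit 3) (.e (nat_lit 204830) (nat_lit 18) (.e (nat_lit 57692) (nat_lit 156) .nil)))))) (.g (nat_lit 1) (.e (nat_lit 155018) (nat_lit 0) .nil) .nil)))) (.nd (nat_lit 9) 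
(.lf (nat_lit 495964) (.g (nat_lit 2871) (.e (nat_lit 163905) (nat_lit 12) (.e (nat_lit 426472) (nat_lit 25) (.e (nat_lit 319534) (nat_lit 16) (.e (nat_lit 286756) (nat_lit 10) (.e (nat_lit 344099) (nat_lit 18) (.e (nat_lit 7287) (nat_lit 386) (.e (nat_lit 163864) (nat_lit 1) (.e (nat_lit 164332) (nat_lit 230) .nil)))))))) (.g (nat_lit 1) (.e (nat_lit 154647) (nat_lit 0) .nil) .nil))) 
(.lf (nat_lit 496476) (.g (nat_lit 1382) (.e (nat_lit 163906) (nat_lit 12) (.e (nat_lit 426555) (nat_lit 32) (.e (nat_lit 376869) (nat_lit 23) (.e (nat_lit 98312) (nat_lit 9) .nil)))) (.g (nat_lit 0) (.e (nat_lit 155431) (nat_lit 0) .nil) .nil))))) (.nd (nat_lit 8) (.nd (nat_lit 9) 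
(.lf (nat_lit 495836) (.g (nat_lit 3426) (.e (nat_lit 163904) (nat_lit 12) (.e (nat_lit 426566) (nat_lit 34) (.e (nat_lit 393294) (nat_lit 26) (.e (nat_lit 475179) (nat_lit 24) (.e (nat_lit 516120) (nat_lit 1) (.e (nat_lit 164331) (nat_lit 230) .nil)))))) (.g (nat_lit 1) (.e (nat_lit 154303) (nat_lit 0) .nil) .nil))) 
(.lf (nat_lit 496348) (.g (nat_lit 2881) (.e (nat_lit 163905) (nat_lit 12) (.e (nat_lit 426568) (nat_lit 34) (.e (nat_lit 393270) (nat_lit 23) (.e (nat_lit 426438) (nat_lit 18) (.e (nat_lit 98334) (nat_lit 18) (.e (nat_lit 164332) (nat_lit 230) .nil)))))) (.g (nat_lit 1) (.e (nat_lit 155147) (nat_lit 0) .nil) .nil)))) (.nd (nat_lit 9) 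
(.lf (nat_lit 496092) (.g (nat_lit 2077) (.e (nat_lit 163905) (nat_lit 12) (.e (nat_lit 426542) (nat_lit 29) (.e (nat_lit 352313) (nat_lit 23) (.e (nat_lit 98312) (nat_lit 9) (.e (nat_lit 335996) (nat_lit 1) (.e (nat_lit 57931) (nat_lit 282) .nil)))))) (.g (nat_lit 1) (.e (nat_lit 154873) (nat_lit 0) .nil) .nil))) 
(.lf (nat_lit 496604) (.g (nat_lit 2186) (.e (nat_lit 163907) (nat_lit 12) (.e (nat_lit 426481) (nat_lit 27) (.e (nat_lit 336389) (nat_lit 27) (.e (nat_lit 426190) (nat_lit 9) (.e (nat_lit 426436) (nat_lit 18) (.e (nat_lit 98335) (nat_lit 18) (.e (nat_lit 164325) (nat_lit 230) .nil))))))) (.g (nat_lit 1) (.e (nat_lit 155834) (nat_lit 0) .nil) .nil))))))) 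
(.nd (nat_lit 6) (.nd (nat_lit 7) (.nd (nat_lit 8) (.nd (nat_lit 9) 
(.lf (nat_lit 495676) (.g (nat_lit 398) (.e (nat_lit 163904) (nat_lit 12) (.e (nat_lit 426555) (nat_lit 32) (.e (nat_lit 376869) (nat_lit 23) .nil))) (.g (nat_lit 0) (.e (nat_lit 154140) (nat_lit 0) .nil) .nil))) 
(.lf (nat_lit 496188) (.g (nat_lit 2064) (.e (nat_lit 163905) (nat_lit 12) (.e (nat_lit 426555) (nat_lit 32) (.e (nat_lit 376869) (nat_lit 23) (.e (nat_lit 98317) (nat_lit 9) (.e (nat_lit 335994) (nat_lit 1) (.e (nat_lit 57931) (nat_lit 282) .nil)))))) (.g (nat_lit 1) (.e (nat_lit 154985) (nat_lit 0) .nil) .nil)))) (.nd (nat_lit 9) 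
(.lf (nat_lit 495932) (.g (nat_lit 1618) (.e (nat_lit 163905) (nat_lit 12) (.e (nat_lit 426437) (nat_lit 18) (.e (nat_lit 98381) (nat_lit 31) (.e (nat_lit 466954) (nat_lit 11) (.e (nat_lit 335986) (nat_lit 1) (.e (nat_lit 57692) (nat_lit 156) .nil)))))) (.g (nat_lit 1) (.e (nat_lit 154613) (nat_lit 0) .nil) .nil))) 
(.lf (nat_lit 496444) (.g (nat_lit 1291) (.e (nat_lit 163906) (nat_lit 12) (.e (nat_lit 426436) (nat_lit 18) (.e (nat_lit 98380) (nat_lit 31) (.e (nat_lit 466954) (nat_lit 11) .nil)))) (.g (nat_lit 0) (.e (nat_lit 155398) (nat_lit 0) .nil) .nil))))) (.nd (nat_lit 8) (.nd (nat_lit 9) 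
(.lf (nat_lit 495804) (.g (nat_lit 3369) (.e (nat_lit 163904) (nat_lit 12) (.e (nat_lit 426566) (nat_lit 34) (.e (nat_lit 393294) (nat_lit 26) (.e (nat_lit 475177) (nat_lit 24) (.e (nat_lit 516115) (nat_lit 1) (.e (nat_lit 164331) (nat_lit 230) .nil)))))) (.g (nat_lit 1) (.e (nat_lit 154271) (nat_lit 0) .nil) .nil))) 
(.lf (nat_lit 496316) (.g (nat_lit 2442) (.e (nat_lit 163905) (nat_lit 12) (.e (nat_lit 426567) (nat_lit 34) (.e (nat_lit 393293) (nat_lit 26) (.e (nat_lit 475179) (nat_lit 24) (.e (nat_lit 516117) (nat_lit 1) (.e (nat_lit 164332) (nat_lit 230) .nil)))))) (.g (nat_lit 1) (.e (nat_lit 155114) (nat_lit 0) .nil) .nil)))) (.nd (nat_lit 9) 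
(.lf (nat_lit 496060) (.g (nat_lit 3802) (.e (nat_lit 163905) (nat_lit 12) (.e (nat_lit 426509) (nat_lit 27) (.e (nat_lit 336412) (nat_lit 27) (.e (nat_lit 426190) (nat_lit 9) (.e (nat_lit 426436) (nat_lit 18) (.e (nat_lit 98334) (nat_lit 18) (.e (nat_lit 164330) (nat_lit 230) .nil))))))) (.g (nat_lit 1) (.e (nat_lit 154838) (nat_lit 0) .nil) .nil))) 
(.lf (nat_lit 496572) (.g (nat_lit 2507) (.e (nat_lit 163907) (nat_lit 12) (.e (nat_lit 426478) (nat_lit 27) (.e (nat_lit 336389) (nat_lit 27) (.e (nat_lit 426308) (nat_lit 12) (.e (nat_lit 475177) (nat_lit 24) (.e (nat_lit 516119) (nat_lit 1) (.e (nat_lit 164325) (nat_lit 230) .nil))))))) (.g (nat_lit 1) (.e (nat_lit 155797) (nat_lit 0) .nil) .nil)))))) 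
(.nd (nat_lit 7) (.nd (nat_lit 8) (.nd (nat_lit 9) 
(.lf (nat_lit 495740) (.g (nat_lit 2569) (.e (nat_lit 163904) (nat_lit 12) (.e (nat_lit 426566) (nat_lit 34) (.e (nat_lit 393282) (nat_lit 24) (.e (nat_lit 434231) (nat_lit 23) (.e (nat_lit 532499) (nat_lit 1) (.e (nat_lit 57688) (nat_lit 156) .nil)))))) (.g (nat_lit 1) (.e (nat_lit 154206) (nat_lit 0) .nil) .nil))) 
(.lf (nat_lit 496252) (.g (nat_lit 2741) (.e (nat_lit 163905) (nat_lit 12) (.e (nat_lit 426566) (nat_lit 34) (.e (nat_lit 393289) (nat_lit 25) (.e (nat_lit 458789) (nat_lit 23) (.e (nat_lit 532502) (nat_lit 1) (.e (nat_lit 57692) (nat_lit 156) .nil)))))) (.g (nat_lit 1) (.e (nat_lit 155050) (nat_lit 0) .nil) .nil)))) (.nd (nat_lit 9) 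
(.lf (nat_lit 495996) (.g (nat_lit 2103) (.e (nat_lit 163905) (nat_lit 12) (.e (nat_lit 426479) (nat_lit 27) (.e (nat_lit 336432) (nat_lit 30) (.e (nat_lit 450580) (nat_lit 5) (.e (nat_lit 532499) (nat_lit 1) (.e (nat_lit 57687) (nat_lit 156) .nil)))))) (.g (nat_lit 1) (.e (nat_lit 154679) (nat_lit 0) .nil) .nil))) 
(.lf (nat_lit 496508) (.g (nat_lit 53) (.e (nat_lit 163907) (nat_lit 12) (.e (nat_lit 426360) (nat_lit 15) (.e (nat_lit 1807) (nat_lit 119) .nil))) (.g (nat_lit 0) (.e (nat_lit 155726) (nat_lit 0) .nil) .nil))))) (.nd (nat_lit 8) (.nd (nat_lit 9) 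
(.lf (nat_lit 495868) (.g (nat_lit 2704) (.e (nat_lit 163905) (nat_lit 12) (.e (nat_lit 426428) (nat_lit 17) (.e (nat_lit 90170) (nat_lit 13) (.e (nat_lit 172106) (nat_lit 10) (.e (nat_lit 434200) (nat_lit 18) .nil))))) (.g (nat_lit 0) (.e (nat_lit 154546) (nat_lit 0) .nil) .nil))) 
(.lf (nat_lit 496380) (.g (nat_lit 2308) (.e (nat_lit 163905) (nat_lit 12) (.e (nat_lit 426568) (nat_lit 34) (.e (nat_lit 393283) (nat_lit 24) (.e (nat_lit 434231) (nat_lit 23) (.e (nat_lit 532502) (nat_lit 1) (.e (nat_lit 57692) (nat_lit 156) .nil)))))) (.g (nat_lit 1) (.e (nat_lit 155179) (nat_lit 0) .nil) .nil)))) (.nd (nat_lit 9) 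
(.lf (nat_lit 496124) (.g (nat_lit 1998) (.e (nat_lit 163905) (nat_lit 12) (.e (nat_lit 426544) (nat_lit 30) (.e (nat_lit 360467) (nat_lit 3) (.e (nat_lit 516195) (nat_lit 26) (.e (nat_lit 335993) (nat_lit 1) (.e (nat_lit 57931) (nat_lit 282) .nil)))))) (.g (nat_lit 1) (.e (nat_lit 154906) (nat_lit 0) .nil) .nil))) 
(.lf (nat_lit 496636) (.g (nat_lit 2953) (.e (nat_lit 163907) (nat_lit 12) (.e (nat_lit 426555) (nat_lit 32) (.e (nat_lit 376865) (nat_lit 22) (.e (nat_lit 90158) (nat_lit 11) (.e (nat_lit 24598) (nat_lit 1) (.e (nat_lit 57927) (nat_lit 282) .nil)))))) (.g (nat_lit 1) (.e (nat_lit 155877) (nat_lit 0) .nil) .nil))))))))))) 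
(.nd (nat_lit 2) (.nd (nat_lit 3) (.nd (nat_lit 4) (.nd (nat_lit 5) (.nd (nat_lit 6) 
(.nd (nat_lit 7) (.nd (nat_lit 8) (.nd (nat_lit 9) 
(.lf (nat_lit 495618) (.g (nat_lit 2405) (.e (nat_lit 163903) (nat_lit 12) (.e (nat_lit 426568) (nat_lit 34) (.e (nat_lit 393287) (nat_lit 25) (.e (nat_lit 458789) (nat_lit 23) (.e (nat_lit 532501) (nat_lit 1) (.e (nat_lit 57685) (nat_lit 156) .nil)))))) (.g (nat_lit 1) (.e (nat_lit 154040) (nat_lit 0) .nil) .nil))) 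
(.lf (nat_lit 496130) (.g (nat_lit 2024) (.e (nat_lit 163905) (nat_lit 12) (.e (nat_lit 426544) (nat_lit 30) (.e (nat_lit 360467) (nat_lit 3) (.e (nat_lit 516199) (nat_lit 26) (.e (nat_lit 335996) (nat_lit 1) (.e (nat_lit 57929) (nat_lit 282) .nil)))))) (.g (nat_lit 1) (.e (nat_lit 154912) (nat_lit 0) .nil) .nil)))) (.nd (nat_lit 9) 
(.lf (nat_lit 495874) (.g (nat_lit 2762) (.e (nat_lit 163905) (nat_lit 12) (.e (nat_lit 426428) (nat_lit 17) (.e (nat_lit 90170) (nat_lit 13) (.e (nat_lit 172121) (nat_lit 13) (.e (nat_lit 483365) (nat_lit 18) (.e (nat_lit 57692) (nat_lit 156) .nil)))))) (.g (nat_lit 1) (.e (nat_lit 154552) (nat_lit 0) .nil) .nil))) 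
(.lf (nat_lit 496386) (.g (nat_lit 795) (.e (nat_lit 163905) (nat_lit 12) (.e (nat_lit 426568) (nat_lit 34) (.e (nat_lit 393285) (nat_lit 25) .nil))) (.g (nat_lit 0) (.e (nat_lit 155185) (nat_lit 0) .nil) .nil))))) (.nd (nat_lit 8) (.nd (nat_lit 9) 
(.lf (nat_lit 495746) (.g (nat_lit 2623) (.e (nat_lit 163904) (nat_lit 12) (.e (nat_lit 426566) (nat_lit 34) (.e (nat_lit 393287) (nat_lit 25) (.e (nat_lit 458789) (nat_lit 23) (.e (nat_lit 532503) (nat_lit 1) (.e (nat_lit 57688) (nat_lit 156) .nil)))))) (.g (nat_lit 1) (.e (nat_lit 154212) (nat_lit 0) .nil) .nil))) 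
(.lf (nat_lit 496258) (.g (nat_lit 3023) (.e (nat_lit 163905) (nat_lit 12) (.e (nat_lit 426566) (nat_lit 34) (.e (nat_lit 393291) (nat_lit 26) (.e (nat_lit 475177) (nat_lit 24) (.e (nat_lit 516119) (nat_lit 1) (.e (nat_lit 164325) (nat_lit 230) .nil)))))) (.g (nat_lit 1) (.e (nat_lit 155056) (nat_lit 0) .nil) .nil)))) (.nd (nat_lit 9) 
(.lf (nat_lit 496002) (.g (nat_lit 2243) (.e (nat_lit 163905) (nat_lit 12) (.e (nat_lit 426479) (nat_lit 27) (.e (nat_lit 336434) (nat_lit 30) (.e (nat_lit 450579) (nat_lit 5) (.e (nat_lit 532501) (nat_lit 1) (.e (nat_lit 57690) (nat_lit 156) .nil)))))) (.g (nat_lit 1) (.e (nat_lit 154685) (nat_lit 0) .nil) .nil))) 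
(.lf (nat_lit 496514) (.g (nat_lit 2733) (.e (nat_lit 163907) (nat_lit 12) (.e (nat_lit 426428) (nat_lit 17) (.e (nat_lit 90170) (nat_lit 13) (.e (nat_lit 172123) (nat_lit 13) (.e (nat_lit 483363) (nat_lit 18) (.e (nat_lit 57686) (nat_lit 156) .nil)))))) (.g (nat_lit 1) (.e (nat_lit 155733) (nat_lit 0) .nil) .nil)))))) (.nd (nat_lit 7) (.nd (nat_lit 8) (.nd (nat_lit 9) 
(.lf (nat_lit 495682) (.g (nat_lit 2675) (.e (nat_lit 163904) (nat_lit 12) (.e (nat_lit 426555) (nat_lit 32) (.e (nat_lit 376869) (nat_lit 23) (.e (nat_lit 98313) (nat_lit 9) (.e (nat_lit 335996) (nat_lit 1) (.e (nat_lit 57931) (nat_lit 282) .nil)))))) (.g (nat_lit 1) (.e (nat_lit 154146) (nat_lit 0) .nil) .nil))) 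
(.lf (nat_lit 496194) (.g (nat_lit 2464) (.e (nat_lit 163905) (nat_lit 12) (.e (nat_lit 426564) (nat_lit 34) (.e (nat_lit 393294) (nat_lit 26) (.e (nat_lit 475177) (nat_lit 24) (.e (nat_lit 516120) (nat_lit 1) .nil))))) (.g (nat_lit 0) (.e (nat_lit 154992) (nat_lit 0) .nil) .nil)))) (.nd (nat_lit 9) 
(.lf (nat_lit 495938) (.g (nat_lit 3047) (.e (nat_lit 163905) (nat_lit 12) (.e (nat_lit 426438) (nat_lit 18) (.e (nat_lit 98358) (nat_lit 26) (.e (nat_lit 426323) (nat_lit 13) (.e (nat_lit 483365) (nat_lit 18) (.e (nat_lit 57692) (nat_lit 156) .nil)))))) (.g (nat_lit 1) (.e (nat_lit 154619) (nat_lit 0) .nil) .nil))) 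
(.lf (nat_lit 496450) (.g (nat_lit 2017) (.e (nat_lit 163906) (nat_lit 12) (.e (nat_lit 426436) (nat_lit 18) (.e (nat_lit 98381) (nat_lit 31) (.e (nat_lit 466954) (nat_lit 11) (.e (nat_lit 335988) (nat_lit 1) (.e (nat_lit 57692) (nat_lit 156) .nil)))))) (.g (nat_lit 1) (.e (nat_lit 155404) (nat_lit 0) .nil) .nil))))) (.nd (nat_lit 8) (.nd (nat_lit 9) 
(.lf (nat_lit 495810) (.g (nat_lit 3143) (.e (nat_lit 163904) (nat_lit 12) (.e (nat_lit 426566) (nat_lit 34) (.e (nat_lit 393294) (nat_lit 26) (.e (nat_lit 475177) (nat_lit 24) (.e (nat_lit 516118) (nat_lit 1) (.e (nat_lit 164324) (nat_lit 230) .nil)))))) (.g (nat_lit 1) (.e (nat_lit 154277) (nat_lit 0) .nil) .nil))) 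
(.lf (nat_lit 496322) (.g (nat_lit 1667) (.e (nat_lit 163905) (nat_lit 12) (.e (nat_lit 426568) (nat_lit 34) (.e (nat_lit 393234) (nat_lit 17) (.e (nat_lit 7376) (nat_lit 389) .nil)))) (.g (nat_lit 0) (.e (nat_lit 155120) (nat_lit 0) .nil) .nil)))) (.nd (nat_lit 9) 
(.lf (nat_lit 496066) (.g (nat_lit 2710) (.e (nat_lit 163905) (nat_lit 12) (.e (nat_lit 426506) (nat_lit 27) (.e (nat_lit 336389) (nat_lit 27) (.e (nat_lit 426308) (nat_lit 12) (.e (nat_lit 475177) (nat_lit 24) (.e (nat_lit 516117) (nat_lit 1) (.e (nat_lit 164330) (nat_lit 230) .nil))))))) (.g (nat_lit 1) (.e (nat_lit 154844) (nat_lit 0) .nil) .nil))) 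
(.lf (nat_lit 496578) (.g (nat_lit 1997) (.e (nat_lit 163907) (nat_lit 12) (.e (nat_lit 426479) (nat_lit 27) (.e (nat_lit 336414) (nat_lit 27) (.e (nat_lit 426228) (nat_lit 9) (.e (nat_lit 426435) (nat_lit 18) (.e (nat_lit 98335) (nat_lit 18) (.e (nat_lit 164325) (nat_lit 230) .nil))))))) (.g (nat_lit 1) (.e (nat_lit 155804) (nat_lit 0) .nil) .nil))))))) 
(.nd (nat_lit 6) (.nd (nat_lit 7) (.nd (nat_lit 8) (.nd (nat_lit 9) 
(.lf (nat_lit 495650) (.g (nat_lit 4492) (.e (nat_lit 163903) (nat_lit 12) (.e (nat_lit 426568) (nat_lit 34) (.e (nat_lit 393294) (nat_lit 26) (.e (nat_lit 475179) (nat_lit 24) (.e (nat_lit 516115) (nat_lit 1) (.e (nat_lit 164325) (nat_lit 230) .nil)))))) (.g (nat_lit 1) (.e (nat_lit 154075) (nat_lit 0) .nil) .nil))) 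
(.lf (nat_lit 496162) (.g (nat_lit 2810) (.e (nat_lit 163905) (nat_lit 12) (.e (nat_lit 426555) (nat_lit 32) (.e (nat_lit 376865) (nat_lit 22) (.e (nat_lit 90158) (nat_lit 11) (.e (nat_lit 24597) (nat_lit 1) (.e (nat_lit 57927) (nat_lit 282) .nil)))))) (.g (nat_lit 1) (.e (nat_lit 154955) (nat_lit 0) .nil) .nil)))) (.nd (nat_lit 9) 
(.lf (nat_lit 495906) (.g (nat_lit 1494) (.e (nat_lit 163905) (nat_lit 12) (.e (nat_lit 426436) (nat_lit 18) (.e (nat_lit 98358) (nat_lit 26) (.e (nat_lit 426322) (nat_lit 13) .nil)))) (.g (nat_lit 0) (.e (nat_lit 154585) (nat_lit 0) .nil) .nil))) 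
(.lf (nat_lit 496418) (.g (nat_lit 2241) (.e (nat_lit 163905) (nat_lit 12) (.e (nat_lit 426568) (nat_lit 34) (.e (nat_lit 393294) (nat_lit 26) (.e (nat_lit 475179) (nat_lit 24) (.e (nat_lit 516120) (nat_lit 1) (.e (nat_lit 164330) (nat_lit 230) .nil)))))) (.g (nat_lit 1) (.e (nat_lit 155217) (nat_lit 0) .nil) .nil))))) (.nd (nat_lit 8) (.nd (nat_lit 9) 
(.lf (nat_lit 495778) (.g (nat_lit 3279) (.e (nat_lit 163904) (nat_lit 12) (.e (nat_lit 426566) (nat_lit 34) (.e (nat_lit 393291) (nat_lit 26) (.e (nat_lit 475179) (nat_lit 24) (.e (nat_lit 516117) (nat_lit 1) (.e (nat_lit 164329) (nat_lit 230) .nil)))))) (.g (nat_lit 1) (.e (nat_lit 154245) (nat_lit 0) .nil) .nil))) 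
(.lf (nat_lit 496290) (.g (nat_lit 2723) (.e (nat_lit 163905) (nat_lit 12) (.e (nat_lit 426566) (nat_lit 34) (.e (nat_lit 393295) (nat_lit 26) (.e (nat_lit 475179) (nat_lit 24) (.e (nat_lit 516119) (nat_lit 1) (.e (nat_lit 164325) (nat_lit 230) .nil)))))) (.g (nat_lit 1) (.e (nat_lit 155088) (nat_lit 0) .nil) .nil)))) (.nd (nat_lit 9) 
(.lf (nat_lit 496034) (.g (nat_lit 2226) (.e (nat_lit 163905) (nat_lit 12) (.e (nat_lit 426482) (nat_lit 27) (.e (nat_lit 336388) (nat_lit 27) (.e (nat_lit 426200) (nat_lit 9) (.e (nat_lit 426436) (nat_lit 18) (.e (nat_lit 98335) (nat_lit 18) (.e (nat_lit 164330) (nat_lit 230) .nil))))))) (.g (nat_lit 1) (.e (nat_lit 154799) (nat_lit 0) .nil) .nil))) 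
(.lf (nat_lit 496546) (.g (nat_lit 2866) (.e (nat_lit 163907) (nat_lit 12) (.e (nat_lit 426436) (nat_lit 18) (.e (nat_lit 98381) (nat_lit 31) (.e (nat_lit 466954) (nat_lit 11) (.e (nat_lit 335986) (nat_lit 1) (.e (nat_lit 57692) (nat_lit 156) .nil)))))) (.g (nat_lit 1) (.e (nat_lit 155770) (nat_lit 0) .nil) .nil)))))) (.nd (nat_lit 7) (.nd (nat_lit 8) (.nd (nat_lit 9) 
(.lf (nat_lit 495714) (.g (nat_lit 334) (.e (nat_lit 163904) (nat_lit 12) (.e (nat_lit 426566) (nat_lit 34) (.e (nat_lit 393271) (nat_lit 23) .nil))) (.g (nat_lit 0) (.e (nat_lit 154179) (nat_lit 0) .nil) .nil))) 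
(.lf (nat_lit 496226) (.g (nat_lit 2197) (.e (nat_lit 163905) (nat_lit 12) (.e (nat_lit 426566) (nat_lit 34) (.e (nat_lit 393272) (nat_lit 23) (.e (nat_lit 426438) (nat_lit 18) (.e (nat_lit 98335) (nat_lit 18) (.e (nat_lit 164325) (nat_lit 230) .nil)))))) (.g (nat_lit 1) (.e (nat_lit 155024) (nat_lit 0) .nil) .nil)))) (.nd (nat_lit 9) 
(.lf (nat_lit 495970) (.g (nat_lit 2475) (.e (nat_lit 163905) (nat_lit 12) (.e (nat_lit 426478) (nat_lit 27) (.e (nat_lit 336389) (nat_lit 27) (.e (nat_lit 426190) (nat_lit 9) (.e (nat_lit 426436) (nat_lit 18) (.e (nat_lit 98334) (nat_lit 18) (.e (nat_lit 164330) (nat_lit 230) .nil))))))) (.g (nat_lit 1) (.e (nat_lit 154653) (nat_lit 0) .nil) .nil))) 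
(.lf (nat_lit 496482) (.g (nat_lit 2964) (.e (nat_lit 163906) (nat_lit 12) (.e (nat_lit 426566) (nat_lit 34) (.e (nat_lit 393291) (nat_lit 26) (.e (nat_lit 475179) (nat_lit 24) (.e (nat_lit 516119) (nat_lit 1) (.e (nat_lit 164325) (nat_lit 230) .nil)))))) (.g (nat_lit 1) (.e (nat_lit 155437) (nat_lit 0) .nil) .nil))))) (.nd (nat_lit 8) (.nd (nat_lit 9) 
(.lf (nat_lit 495842) (.g (nat_lit 2215) (.e (nat_lit 163904) (nat_lit 12) (.e (nat_lit 426568) (nat_lit 34) (.e (nat_lit 393271) (nat_lit 23) (.e (nat_lit 426131) (nat_lit 3) (.e (nat_lit 204831) (nat_lit 18) .nil))))) (.g (nat_lit 0) (.e (nat_lit 154313) (nat_lit 0) .nil) .nil))) 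
(.lf (nat_lit 496354) (.g (nat_lit 2721) (.e (nat_lit 163905) (nat_lit 12) (.e (nat_lit 426568) (nat_lit 34) (.e (nat_lit 393271) (nat_lit 23) (.e (nat_lit 426131) (nat_lit 3) (.e (nat_lit 204831) (nat_lit 18) (.e (nat_lit 57687) (nat_lit 156) .nil)))))) (.g (nat_lit 1) (.e (nat_lit 155153) (nat_lit 0) .nil) .nil)))) (.nd (nat_lit 9) 
(.lf (nat_lit 496098) (.g (nat_lit 2535) (.e (nat_lit 163905) (nat_lit 12) (.e (nat_lit 426542) (nat_lit 29) (.e (nat_lit 352313) (nat_lit 23) (.e (nat_lit 98313) (nat_lit 9) (.e (nat_lit 335995) (nat_lit 1) (.e (nat_lit 57929) (nat_lit 282) .nil)))))) (.g (nat_lit 1) (.e (nat_lit 154879) (nat_lit 0) .nil) .nil))) 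
(.lf (nat_lit 496610) (.g (nat_lit 3687) (.e (nat_lit 163907) (nat_lit 12) (.e (nat_lit 426481) (nat_lit 27) (.e (nat_lit 336389) (nat_lit 27) (.e (nat_lit 426308) (nat_lit 12) (.e (nat_lit 475179) (nat_lit 24) (.e (nat_lit 516119) (nat_lit 1) (.e (nat_lit 164325) (nat_lit 230) .nil))))))) (.g (nat_lit 1) (.e (nat_lit 155840) (nat_lit 0) .nil) .nil)))))))) 
(.nd (nat_lit 5) (.nd (nat_lit 6) (.nd (nat_lit 7) (.nd (nat_lit 8) (.nd (nat_lit 9) 
(.lf (nat_lit 495634) (.g (nat_lit 2479) (.e (nat_lit 163903) (nat_lit 12) (.e (nat_lit 426568) (nat_lit 34) (.e (nat_lit 393292) (nat_lit 26) (.e (nat_lit 475177) (nat_lit 24) (.e (nat_lit 516119) (nat_lit 1) (.e (nat_lit 164326) (nat_lit 230) .nil)))))) (.g (nat_lit 1) (.e (nat_lit 154058) (nat_lit 0) .nil) .nil))) 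
(.lf (nat_lit 496146) (.g (nat_lit 1645) (.e (nat_lit 163905) (nat_lit 12) (.e (nat_lit 426555) (nat_lit 32) (.e (nat_lit 376862) (nat_lit 22) (.e (nat_lit 90158) (nat_lit 11) (.e (nat_lit 24580) (nat_lit 0) .nil))))) (.g (nat_lit 0) (.e (nat_lit 154935) (nat_lit 0) .nil) .nil)))) (.nd (nat_lit 9) 
(.lf (nat_lit 495890) (.g (nat_lit 874) (.e (nat_lit 163905) (nat_lit 12) (.e (nat_lit 426428) (nat_lit 17) (.e (nat_lit 90176) (nat_lit 15) (.e (nat_lit 188423) (nat_lit 11) .nil)))) (.g (nat_lit 0) (.e (nat_lit 154569) (nat_lit 0) .nil) .nil))) 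
(.lf (nat_lit 496402) (.g (nat_lit 3527) (.e (nat_lit 163905) (nat_lit 12) (.e (nat_lit 426568) (nat_lit 34) (.e (nat_lit 393291) (nat_lit 26) (.e (nat_lit 475179) (nat_lit 24) (.e (nat_lit 516120) (nat_lit 1) (.e (nat_lit 164332) (nat_lit 230) .nil)))))) (.g (nat_lit 1) (.e (nat_lit 155201) (nat_lit 0) .nil) .nil))))) (.nd (nat_lit 8) (.nd (nat_lit 9) 
(.lf (nat_lit 495762) (.g (nat_lit 2906) (.e (nat_lit 163904) (nat_lit 12) (.e (nat_lit 426566) (nat_lit 34) (.e (nat_lit 393291) (nat_lit 26) (.e (nat_lit 475177) (nat_lit 24) (.e (nat_lit 516118) (nat_lit 1) (.e (nat_lit 164324) (nat_lit 230) .nil)))))) (.g (nat_lit 1) (.e (nat_lit 154229) (nat_lit 0) .nil) .nil))) 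
(.lf (nat_lit 496274) (.g (nat_lit 3875) (.e (nat_lit 163905) (nat_lit 12) (.e (nat_lit 426566) (nat_lit 34) (.e (nat_lit 393294) (nat_lit 26) (.e (nat_lit 475177) (nat_lit 24) (.e (nat_lit 516115) (nat_lit 1) (.e (nat_lit 164325) (nat_lit 230) .nil)))))) (.g (nat_lit 1) (.e (nat_lit 155072) (nat_lit 0) .nil) .nil)))) (.nd (nat_lit 9) 
(.lf (nat_lit 496018) (.g (nat_lit 2039) (.e (nat_lit 163905) (nat_lit 12) (.e (nat_lit 426480) (nat_lit 27) (.e (nat_lit 336388) (nat_lit 27) (.e (nat_lit 426306) (nat_lit 12) (.e (nat_lit 475177) (nat_lit 24) (.e (nat_lit 516120) (nat_lit 1) (.e (nat_lit 164330) (nat_lit 230) .nil))))))) (.g (nat_lit 1) (.e (nat_lit 154701) (nat_lit 0) .nil) .nil))) 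
(.lf (nat_lit 496530) (.g (nat_lit 3393) (.e (nat_lit 163907) (nat_lit 12) (.e (nat_lit 426436) (nat_lit 18) (.e (nat_lit 98358) (nat_lit 26) (.e (nat_lit 426323) (nat_lit 13) (.e (nat_lit 483363) (nat_lit 18) (.e (nat_lit 57691) (nat_lit 156) .nil)))))) (.g (nat_lit 1) (.e (nat_lit 155752) (nat_lit 0) .nil) .nil)))))) (.nd (nat_lit 7) (.nd (nat_lit 8) (.nd (nat_lit 9) 
(.lf (nat_lit 495698) (.g (nat_lit 2941) (.e (nat_lit 163904) (nat_lit 12) (.e (nat_lit 426566) (nat_lit 34) (.e (nat_lit 393268) (nat_lit 23) (.e (nat_lit 426436) (nat_lit 18) (.e (nat_lit 98335) (nat_lit 18) (.e (nat_lit 164326) (nat_lit 230) .nil)))))) (.g (nat_lit 1) (.e (nat_lit 154163) (nat_lit 0) .nil) .nil))) 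
(.lf (nat_lit 496210) (.g (nat_lit 3045) (.e (nat_lit 163905) (nat_lit 12) (.e (nat_lit 426566) (nat_lit 34) (.e (nat_lit 393271) (nat_lit 23) (.e (nat_lit 426131) (nat_lit 3) (.e (nat_lit 204831) (nat_lit 18) (.e (nat_lit 57692) (nat_lit 156) .nil)))))) (.g (nat_lit 1) (.e (nat_lit 155008) (nat_lit 0) .nil) .nil)))) (.nd (nat_lit 9) 
(.lf (nat_lit 495954) (.g (nat_lit 3164) (.e (nat_lit 163905) (nat_lit 12) (.e (nat_lit 426438) (nat_lit 18) (.e (nat_lit 98380) (nat_lit 31) (.e (nat_lit 466954) (nat_lit 11) (.e (nat_lit 335995) (nat_lit 1) (.e (nat_lit 57691) (nat_lit 156) .nil)))))) (.g (nat_lit 1) (.e (nat_lit 154637) (nat_lit 0) .nil) .nil))) 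
(.lf (nat_lit 496466) (.g (nat_lit 1335) (.e (nat_lit 163906) (nat_lit 12) (.e (nat_lit 426478) (nat_lit 27) (.e (nat_lit 336443) (nat_lit 32) (.e (nat_lit 466979) (nat_lit 23) (.e (nat_lit 204830) (nat_lit 18) (.e (nat_lit 57692) (nat_lit 156) .nil)))))) (.g (nat_lit 1) (.e (nat_lit 155420) (nat_lit 0) .nil) .nil))))) (.nd (nat_lit 8) (.nd (nat_lit 9) 
(.lf (nat_lit 495826) (.g (nat_lit 2988) (.e (nat_lit 163904) (nat_lit 12) (.e (nat_lit 426566) (nat_lit 34) (.e (nat_lit 393294) (nat_lit 26) (.e (nat_lit 475178) (nat_lit 24) (.e (nat_lit 516120) (nat_lit 1) (.e (nat_lit 164329) (nat_lit 230) .nil)))))) (.g (nat_lit 1) (.e (nat_lit 154293) (nat_lit 0) .nil) .nil))) 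
(.lf (nat_lit 496338) (.g (nat_lit 3182) (.e (nat_lit 163905) (nat_lit 12) (.e (nat_lit 426568) (nat_lit 34) (.e (nat_lit 393268) (nat_lit 23) (.e (nat_lit 426438) (nat_lit 18) (.e (nat_lit 98334) (nat_lit 18) (.e (nat_lit 164332) (nat_lit 230) .nil)))))) (.g (nat_lit 1) (.e (nat_lit 155137) (nat_lit 0) .nil) .nil)))) (.nd (nat_lit 9) 
(.lf (nat_lit 496082) (.g (nat_lit 4587) (.e (nat_lit 163905) (nat_lit 12) (.e (nat_lit 426530) (nat_lit 27) (.e (nat_lit 336390) (nat_lit 27) (.e (nat_lit 426308) (nat_lit 12) (.e (nat_lit 475177) (nat_lit 24) (.e (nat_lit 516117) (nat_lit 1) (.e (nat_lit 164330) (nat_lit 230) .nil))))))) (.g (nat_lit 1) (.e (nat_lit 154860) (nat_lit 0) .nil) .nil))) 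
(.lf (nat_lit 496594) (.g (nat_lit 729) (.e (nat_lit 163907) (nat_lit 12) (.e (nat_lit 426479) (nat_lit 27) (.e (nat_lit 336443) (nat_lit 32) (.e (nat_lit 466981) (nat_lit 23) .nil)))) (.g (nat_lit 0) (.e (nat_lit 155821) (nat_lit 0) .nil) .nil))))))) (.nd (nat_lit 6) (.nd (nat_lit 7) (.nd (nat_lit 8) (.nd (nat_lit 9) 
(.lf (nat_lit 495666) (.g (nat_lit 2300) (.e (nat_lit 163904) (nat_lit 12) (.e (nat_lit 426555) (nat_lit 32) (.e (nat_lit 376867) (nat_lit 23) (.e (nat_lit 98313) (nat_lit 9) (.e (nat_lit 335986) (nat_lit 1) (.e (nat_lit 57927) (nat_lit 282) .nil)))))) (.g (nat_lit 1) (.e (nat_lit 154130) (nat_lit 0) .nil) .nil))) 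
(.lf (nat_lit 496178) (.g (nat_lit 752) (.e (nat_lit 163905) (nat_lit 12) (.e (nat_lit 426555) (nat_lit 32) (.e (nat_lit 376868) (nat_lit 23) .nil))) (.g (nat_lit 0) (.e (nat_lit 154975) (nat_lit 0) .nil) .nil)))) (.nd (nat_lit 9) 
(.lf (nat_lit 495922) (.g (nat_lit 2322) (.e (nat_lit 163905) (nat_lit 12) (.e (nat_lit 426436) (nat_lit 18) (.e (nat_lit 98380) (nat_lit 31) (.e (nat_lit 466954) (nat_lit 11) (.e (nat_lit 335994) (nat_lit 1) (.e (nat_lit 57692) (nat_lit 156) .nil)))))) (.g (nat_lit 1) (.e (nat_lit 154603) (nat_lit 0) .nil) .nil))) 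
(.lf (nat_lit 496434) (.g (nat_lit 1195) (.e (nat_lit 163906) (nat_lit 12) (.e (nat_lit 426432) (nat_lit 17) (.e (nat_lit 90178) (nat_lit 15) (.e (nat_lit 188421) (nat_lit 11) .nil)))) (.g (nat_lit 0) (.e (nat_lit 155386) (nat_lit 0) .nil) .nil))))) (.nd (nat_lit 8) (.nd (nat_lit 9) 
(.lf (nat_lit 495794) (.g (nat_lit 2000) (.e (nat_lit 163904) (nat_lit 12) (.e (nat_lit 426566) (nat_lit 34) (.e (nat_lit 393293) (nat_lit 26) (.e (nat_lit 475178) (nat_lit 24) (.e (nat_lit 516117) (nat_lit 1) (.e (nat_lit 164329) (nat_lit 230) .nil)))))) (.g (nat_lit 1) (.e (nat_lit 154261) (nat_lit 0) .nil) .nil))) 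
(.lf (nat_lit 496306) (.g (nat_lit 3088) (.e (nat_lit 163905) (nat_lit 12) (.e (nat_lit 426566) (nat_lit 34) (.e (nat_lit 393296) (nat_lit 26) (.e (nat_lit 475179) (nat_lit 24) (.e (nat_lit 516115) (nat_lit 1) (.e (nat_lit 164332) (nat_lit 230) .nil)))))) (.g (nat_lit 1) (.e (nat_lit 155104) (nat_lit 0) .nil) .nil)))) (.nd (nat_lit 9) 
(.lf (nat_lit 496050) (.g (nat_lit 1944) (.e (nat_lit 163905) (nat_lit 12) (.e (nat_lit 426491) (nat_lit 27) (.e (nat_lit 336409) (nat_lit 27) (.e (nat_lit 426200) (nat_lit 9) (.e (nat_lit 426131) (nat_lit 3) (.e (nat_lit 204831) (nat_lit 18) (.e (nat_lit 57692) (nat_lit 156) .nil))))))) (.g (nat_lit 1) (.e (nat_lit 154828) (nat_lit 0) .nil) .nil))) 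
(.lf (nat_lit 496562) (.g (nat_lit 2272) (.e (nat_lit 163907) (nat_lit 12) (.e (nat_lit 426438) (nat_lit 18) (.e (nat_lit 98358) (nat_lit 26) (.e (nat_lit 426323) (nat_lit 13) (.e (nat_lit 483364) (nat_lit 18) (.e (nat_lit 57690) (nat_lit 156) .nil)))))) (.g (nat_lit 1) (.e (nat_lit 155787) (nat_lit 0) .nil) .nil)))))) (.nd (nat_lit 7) (.nd (nat_lit 8) (.nd (nat_lit 9) 
(.lf (nat_lit 495730) (.g (nat_lit 2721) (.e (nat_lit 163904) (nat_lit 12) (.e (nat_lit 426566) (nat_lit 34) (.e (nat_lit 393271) (nat_lit 23) (.e (nat_lit 426438) (nat_lit 18) (.e (nat_lit 98334) (nat_lit 18) (.e (nat_lit 164329) (nat_lit 230) .nil)))))) (.g (nat_lit 1) (.e (nat_lit 154196) (nat_lit 0) .nil) .nil))) 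
(.lf (nat_lit 496242) (.g (nat_lit 2773) (.e (nat_lit 163905) (nat_lit 12) (.e (nat_lit 426566) (nat_lit 34) (.e (nat_lit 393285) (nat_lit 25) (.e (nat_lit 458789) (nat_lit 23) (.e (nat_lit 532499) (nat_lit 1) (.e (nat_lit 57688) (nat_lit 156) .nil)))))) (.g (nat_lit 1) (.e (nat_lit 155040) (nat_lit 0) .nil) .nil)))) (.nd (nat_lit 9) 
(.lf (nat_lit 495986) (.g (nat_lit 2882) (.e (nat_lit 163905) (nat_lit 12) (.e (nat_lit 426478) (nat_lit 27) (.e (nat_lit 336443) (nat_lit 32) (.e (nat_lit 466981) (nat_lit 23) (.e (nat_lit 204829) (nat_lit 18) (.e (nat_lit 57692) (nat_lit 156) .nil)))))) (.g (nat_lit 1) (.e (nat_lit 154669) (nat_lit 0) .nil) .nil))) 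
(.lf (nat_lit 496498) (.g (nat_lit 4233) (.e (nat_lit 163907) (nat_lit 12) (.e (nat_lit 426131) (nat_lit 3) (.e (nat_lit 204869) (nat_lit 29) (.e (nat_lit 360474) (nat_lit 8) (.e (nat_lit 557093) (nat_lit 12) .nil))))) (.g (nat_lit 0) (.e (nat_lit 155474) (nat_lit 0) .nil) .nil))))) (.nd (nat_lit 8) (.nd (nat_lit 9) 
(.lf (nat_lit 495858) (.g (nat_lit 2356) (.e (nat_lit 163905) (nat_lit 12) (.e (nat_lit 426320) (nat_lit 12) (.e (nat_lit 475209) (nat_lit 41) (.e (nat_lit 712755) (nat_lit 30) (.e (nat_lit 458496) (nat_lit 0) (.e (nat_lit 5587) (nat_lit 310) .nil)))))) (.g (nat_lit 1) (.e (nat_lit 154346) (nat_lit 0) .nil) .nil))) 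
(.lf (nat_lit 496370) (.g (nat_lit 3714) (.e (nat_lit 163905) (nat_lit 12) (.e (nat_lit 426568) (nat_lit 34) (.e (nat_lit 393281) (nat_lit 23) (.e (nat_lit 426139) (nat_lit 3) (.e (nat_lit 204830) (nat_lit 18) (.e (nat_lit 57691) (nat_lit 156) .nil)))))) (.g (nat_lit 1) (.e (nat_lit 155169) (nat_lit 0) .nil) .nil)))) (.nd (nat_lit 9) 
(.lf (nat_lit 496114) (.g (nat_lit 2957) (.e (nat_lit 163905) (nat_lit 12) (.e (nat_lit 426542) (nat_lit 29) (.e (nat_lit 352315) (nat_lit 23) (.e (nat_lit 98313) (nat_lit 9) (.e (nat_lit 335988) (nat_lit 1) (.e (nat_lit 57927) (nat_lit 282) .nil)))))) (.g (nat_lit 1) (.e (nat_lit 154895) (nat_lit 0) .nil) .nil))) 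
(.lf (nat_lit 496626) (.g (nat_lit 1604) (.e (nat_lit 163907) (nat_lit 12) (.e (nat_lit 426555) (nat_lit 32) (.e (nat_lit 376862) (nat_lit 22) (.e (nat_lit 90158) (nat_lit 11) (.e (nat_lit 24598) (nat_lit 1) .nil))))) (.g (nat_lit 0) (.e (nat_lit 155861) (nat_lit 0) .nil) .nil))))))))) (.nd (nat_lit 4) (.nd (nat_lit 5) (.nd (nat_lit 6) (.nd (nat_lit 7) (.nd (nat_lit 8) (.nd (nat_lit 9) 
(.lf (nat_lit 495626) (.g (nat_lit 3583) (.e (nat_lit 163903) (nat_lit 12) (.e (nat_lit 426568) (nat_lit 34) (.e (nat_lit 393291) (nat_lit 26) (.e (nat_lit 475177) (nat_lit 24) (.e (nat_lit 516119) (nat_lit 1) (.e (nat_lit 164324) (nat_lit 230) .nil)))))) (.g (nat_lit 1) (.e (nat_lit 154050) (nat_lit 0) .nil) .nil))) 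
(.lf (nat_lit 496138) (.g (nat_lit 3107) (.e (nat_lit 163905) (nat_lit 12) (.e (nat_lit 426546) (nat_lit 30) (.e (nat_lit 360466) (nat_lit 3) (.e (nat_lit 516195) (nat_lit 26) (.e (nat_lit 335996) (nat_lit 1) (.e (nat_lit 57931) (nat_lit 282) .nil)))))) (.g (nat_lit 1) (.e (nat_lit 154921) (nat_lit 0) .nil) .nil)))) (.nd (nat_lit 9) 
(.lf (nat_lit 495882) (.g (nat_lit 3845) (.e (nat_lit 163905) (nat_lit 12) (.e (nat_lit 426428) (nat_lit 17) (.e (nat_lit 90170) (nat_lit 13) (.e (nat_lit 172123) (nat_lit 13) (.e (nat_lit 483363) (nat_lit 18) (.e (nat_lit 57691) (nat_lit 156) .nil)))))) (.g (nat_lit 1) (.e (nat_lit 154560) (nat_lit 0) .nil) .nil))) 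
(.lf (nat_lit 496394) (.g (nat_lit 3155) (.e (nat_lit 163905) (nat_lit 12) (.e (nat_lit 426568) (nat_lit 34) (.e (nat_lit 393290) (nat_lit 26) (.e (nat_lit 475179) (nat_lit 24) (.e (nat_lit 516120) (nat_lit 1) (.e (nat_lit 164332) (nat_lit 230) .nil)))))) (.g (nat_lit 1) (.e (nat_lit 155193) (nat_lit 0) .nil) .nil))))) (.nd (nat_lit 8) (.nd (nat_lit 9) 
(.lf (nat_lit 495754) (.g (nat_lit 3645) (.e (nat_lit 163904) (nat_lit 12) (.e (nat_lit 426566) (nat_lit 34) (.e (nat_lit 393291) (nat_lit 26) (.e (nat_lit 475177) (nat_lit 24) (.e (nat_lit 516115) (nat_lit 1) (.e (nat_lit 164325) (nat_lit 230) .nil)))))) (.g (nat_lit 1) (.e (nat_lit 154221) (nat_lit 0) .nil) .nil))) 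
(.lf (nat_lit 496266) (.g (nat_lit 2183) (.e (nat_lit 163905) (nat_lit 12) (.e (nat_lit 426566) (nat_lit 34) (.e (nat_lit 393293) (nat_lit 26) (.e (nat_lit 475177) (nat_lit 24) (.e (nat_lit 516118) (nat_lit 1) (.e (nat_lit 164324) (nat_lit 230) .nil)))))) (.g (nat_lit 1) (.e (nat_lit 155064) (nat_lit 0) .nil) .nil)))) (.nd (nat_lit 9) 
(.lf (nat_lit 496010) (.g (nat_lit 2207) (.e (nat_lit 163905) (nat_lit 12) (.e (nat_lit 426480) (nat_lit 27) (.e (nat_lit 336385) (nat_lit 27) (.e (nat_lit 426306) (nat_lit 12) (.e (nat_lit 475177) (nat_lit 24) (.e (nat_lit 516117) (nat_lit 1) (.e (nat_lit 164330) (nat_lit 230) .nil))))))) (.g (nat_lit 1) (.e (nat_lit 154693) (nat_lit 0) .nil) .nil))) 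
(.lf (nat_lit 496522) (.g (nat_lit 1185) (.e (nat_lit 163907) (nat_lit 12) (.e (nat_lit 426432) (nat_lit 17) (.e (nat_lit 90168) (nat_lit 13) (.e (nat_lit 172123) (nat_lit 13) (.e (nat_lit 483363) (nat_lit 18) .nil))))) (.g (nat_lit 0) (.e (nat_lit 155741) (nat_lit 0) .nil) .nil)))))) (.nd (nat_lit 7) (.nd (nat_lit 8) (.nd (nat_lit 9) 
(.lf (nat_lit 495690) (.g (nat_lit 1304) (.e (nat_lit 163904) (nat_lit 12) (.e (nat_lit 426566) (nat_lit 34) (.e (nat_lit 393268) (nat_lit 23) (.e (nat_lit 426361) (nat_lit 15) .nil)))) (.g (nat_lit 0) (.e (nat_lit 154155) (nat_lit 0) .nil) .nil))) 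
(.lf (nat_lit 496202) (.g (nat_lit 2789) (.e (nat_lit 163905) (nat_lit 12) (.e (nat_lit 426566) (nat_lit 34) (.e (nat_lit 393270) (nat_lit 23) (.e (nat_lit 426436) (nat_lit 18) (.e (nat_lit 98335) (nat_lit 18) (.e (nat_lit 164325) (nat_lit 230) .nil)))))) (.g (nat_lit 1) (.e (nat_lit 155000) (nat_lit 0) .nil) .nil)))) (.nd (nat_lit 9) 
(.lf (nat_lit 495946) (.g (nat_lit 2111) (.e (nat_lit 163905) (nat_lit 12) (.e (nat_lit 426438) (nat_lit 18) (.e (nat_lit 98372) (nat_lit 29) (.e (nat_lit 450564) (nat_lit 0) (.e (nat_lit 7936) (nat_lit 369) .nil))))) (.g (nat_lit 0) (.e (nat_lit 154627) (nat_lit 0) .nil) .nil))) 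
(.lf (nat_lit 496458) (.g (nat_lit 1606) (.e (nat_lit 163906) (nat_lit 12) (.e (nat_lit 426438) (nat_lit 18) (.e (nat_lit 98370) (nat_lit 28) (.e (nat_lit 442390) (nat_lit 11) (.e (nat_lit 335986) (nat_lit 1) (.e (nat_lit 57691) (nat_lit 156) .nil)))))) (.g (nat_lit 1) (.e (nat_lit 155412) (nat_lit 0) .nil) .nil))))) (.nd (nat_lit 8) (.nd (nat_lit 9) 
(.lf (nat_lit 495818) (.g (nat_lit 3360) (.e (nat_lit 163904) (nat_lit 12) (.e (nat_lit 426566) (nat_lit 34) (.e (nat_lit 393294) (nat_lit 26) (.e (nat_lit 475177) (nat_lit 24) (.e (nat_lit 516119) (nat_lit 1) (.e (nat_lit 164325) (nat_lit 230) .nil)))))) (.g (nat_lit 1) (.e (nat_lit 154285) (nat_lit 0) .nil) .nil))) 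
(.lf (nat_lit 496330) (.g (nat_lit 3493) (.e (nat_lit 163905) (nat_lit 12) (.e (nat_lit 426568) (nat_lit 34) (.e (nat_lit 393267) (nat_lit 23) (.e (nat_lit 426436) (nat_lit 18) (.e (nat_lit 98335) (nat_lit 18) (.e (nat_lit 164332) (nat_lit 230) .nil)))))) (.g (nat_lit 1) (.e (nat_lit 155129) (nat_lit 0) .nil) .nil)))) (.nd (nat_lit 9) 
(.lf (nat_lit 496074) (.g (nat_lit 3136) (.e (nat_lit 163905) (nat_lit 12) (.e (nat_lit 426530) (nat_lit 27) (.e (nat_lit 336390) (nat_lit 27) (.e (nat_lit 426190) (nat_lit 9) (.e (nat_lit 426436) (nat_lit 18) (.e (nat_lit 98334) (nat_lit 18) (.e (nat_lit 164332) (nat_lit 230) .nil))))))) (.g (nat_lit 1) (.e (nat_lit 154852) (nat_lit 0) .nil) .nil))) 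
(.lf (nat_lit 496586) (.g (nat_lit 1618) (.e (nat_lit 163907) (nat_lit 12) (.e (nat_lit 426479) (nat_lit 27) (.e (nat_lit 336432) (nat_lit 30) (.e (nat_lit 450579) (nat_lit 5) (.e (nat_lit 532501) (nat_lit 1) (.e (nat_lit 57689) (nat_lit 156) .nil)))))) (.g (nat_lit 1) (.e (nat_lit 155812) (nat_lit 0) .nil) .nil))))))) (.nd (nat_lit 6) (.nd (nat_lit 7) (.nd (nat_lit 8) (.nd (nat_lit 9) 
(.lf (nat_lit 495658) (.g (nat_lit 2452) (.e (nat_lit 163904) (nat_lit 12) (.e (nat_lit 426436) (nat_lit 18) (.e (nat_lit 98358) (nat_lit 26) (.e (nat_lit 426323) (nat_lit 13) (.e (nat_lit 483365) (nat_lit 18) .nil))))) (.g (nat_lit 0) (.e (nat_lit 154098) (nat_lit 0) .nil) .nil))) 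
(.lf (nat_lit 496170) (.g (nat_lit 3294) (.e (nat_lit 163905) (nat_lit 12) (.e (nat_lit 426555) (nat_lit 32) (.e (nat_lit 376865) (nat_lit 22) (.e (nat_lit 90160) (nat_lit 11) (.e (nat_lit 24599) (nat_lit 1) (.e (nat_lit 57931) (nat_lit 282) .nil)))))) (.g (nat_lit 1) (.e (nat_lit 154967) (nat_lit 0) .nil) .nil)))) (.nd (nat_lit 9) 
(.lf (nat_lit 495914) (.g (nat_lit 3201) (.e (nat_lit 163905) (nat_lit 12) (.e (nat_lit 426436) (nat_lit 18) (.e (nat_lit 98358) (nat_lit 26) (.e (nat_lit 426323) (nat_lit 13) (.e (nat_lit 483365) (nat_lit 18) (.e (nat_lit 57692) (nat_lit 156) .nil)))))) (.g (nat_lit 1) (.e (nat_lit 154593) (nat_lit 0) .nil) .nil))) 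
(.lf (nat_lit 496426) (.g (nat_lit 1616) (.e (nat_lit 163906) (nat_lit 12) (.e (nat_lit 426131) (nat_lit 3) (.e (nat_lit 204880) (nat_lit 32) (.e (nat_lit 385051) (nat_lit 21) .nil)))) (.g (nat_lit 0) (.e (nat_lit 155240) (nat_lit 0) .nil) .nil))))) (.nd (nat_lit 8) (.nd (nat_lit 9) 
(.lf (nat_lit 495786) (.g (nat_lit 3171) (.e (nat_lit 163904) (nat_lit 12) (.e (nat_lit 426566) (nat_lit 34) (.e (nat_lit 393291) (nat_lit 26) (.e (nat_lit 475179) (nat_lit 24) (.e (nat_lit 516120) (nat_lit 1) (.e (nat_lit 164331) (nat_lit 230) .nil)))))) (.g (nat_lit 1) (.e (nat_lit 154253) (nat_lit 0) .nil) .nil))) 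
(.lf (nat_lit 496298) (.g (nat_lit 3817) (.e (nat_lit 163905) (nat_lit 12) (.e (nat_lit 426566) (nat_lit 34) (.e (nat_lit 393296) (nat_lit 26) (.e (nat_lit 475178) (nat_lit 24) (.e (nat_lit 516115) (nat_lit 1) (.e (nat_lit 164332) (nat_lit 230) .nil)))))) (.g (nat_lit 1) (.e (nat_lit 155096) (nat_lit 0) .nil) .nil)))) (.nd (nat_lit 9) 
(.lf (nat_lit 496042) (.g (nat_lit 2670) (.e (nat_lit 163905) (nat_lit 12) (.e (nat_lit 426481) (nat_lit 27) (.e (nat_lit 336389) (nat_lit 27) (.e (nat_lit 426190) (nat_lit 9) (.e (nat_lit 426436) (nat_lit 18) (.e (nat_lit 98334) (nat_lit 18) (.e (nat_lit 164330) (nat_lit 230) .nil))))))) (.g (nat_lit 1) (.e (nat_lit 154820) (nat_lit 0) .nil) .nil))) 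
(.lf (nat_lit 496554) (.g (nat_lit 2979) (.e (nat_lit 163907) (nat_lit 12) (.e (nat_lit 426436) (nat_lit 18) (.e (nat_lit 98381) (nat_lit 31) (.e (nat_lit 466954) (nat_lit 11) (.e (nat_lit 335996) (nat_lit 1) (.e (nat_lit 57692) (nat_lit 156) .nil)))))) (.g (nat_lit 1) (.e (nat_lit 155778) (nat_lit 0) .nil) .nil)))))) (.nd (nat_lit 7) (.nd (nat_lit 8) (.nd (nat_lit 9) 
(.lf (nat_lit 495722) (.g (nat_lit 3171) (.e (nat_lit 163904) (nat_lit 12) (.e (nat_lit 426566) (nat_lit 34) (.e (nat_lit 393271) (nat_lit 23) (.e (nat_lit 426436) (nat_lit 18) (.e (nat_lit 98333) (nat_lit 18) (.e (nat_lit 164332) (nat_lit 230) .nil)))))) (.g (nat_lit 1) (.e (nat_lit 154188) (nat_lit 0) .nil) .nil))) 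
(.lf (nat_lit 496234) (.g (nat_lit 2623) (.e (nat_lit 163905) (nat_lit 12) (.e (nat_lit 426566) (nat_lit 34) (.e (nat_lit 393273) (nat_lit 23) (.e (nat_lit 426437) (nat_lit 18) (.e (nat_lit 98333) (nat_lit 18) (.e (nat_lit 164325) (nat_lit 230) .nil)))))) (.g (nat_lit 1) (.e (nat_lit 155032) (nat_lit 0) .nil) .nil)))) (.nd (nat_lit 9) 
(.lf (nat_lit 495978) (.g (nat_lit 3082) (.e (nat_lit 163905) (nat_lit 12) (.e (nat_lit 426478) (nat_lit 27) (.e (nat_lit 336389) (nat_lit 27) (.e (nat_lit 426308) (nat_lit 12) (.e (nat_lit 475179) (nat_lit 24) (.e (nat_lit 516117) (nat_lit 1) (.e (nat_lit 164332) (nat_lit 230) .nil))))))) (.g (nat_lit 1) (.e (nat_lit 154661) (nat_lit 0) .nil) .nil))) 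
(.lf (nat_lit 496490) (.g (nat_lit 1553) (.e (nat_lit 163906) (nat_lit 12) (.e (nat_lit 426566) (nat_lit 34) (.e (nat_lit 393296) (nat_lit 26) (.e (nat_lit 475179) (nat_lit 24) .nil)))) (.g (nat_lit 0) (.e (nat_lit 155445) (nat_lit 0) .nil) .nil))))) (.nd (nat_lit 8) (.nd (nat_lit 9) 
(.lf (nat_lit 495850) (.g (nat_lit 2102) (.e (nat_lit 163905) (nat_lit 12) (.e (nat_lit 426294) (nat_lit 11) (.e (nat_lit 458804) (nat_lit 38) (.e (nat_lit 655380) (nat_lit 6) (.e (nat_lit 188455) (nat_lit 24) (.e (nat_lit 229681) (nat_lit 244) .nil)))))) (.g (nat_lit 1) (.e (nat_lit 154334) (nat_lit 0) .nil) .nil))) 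
(.lf (nat_lit 496362) (.g (nat_lit 3302) (.e (nat_lit 163905) (nat_lit 12) (.e (nat_lit 426568) (nat_lit 34) (.e (nat_lit 393271) (nat_lit 23) (.e (nat_lit 426438) (nat_lit 18) (.e (nat_lit 98334) (nat_lit 18) (.e (nat_lit 164332) (nat_lit 230) .nil)))))) (.g (nat_lit 1) (.e (nat_lit 155161) (nat_lit 0) .nil) .nil)))) (.nd (nat_lit 9) 
(.lf (nat_lit 496106) (.g (nat_lit 444) (.e (nat_lit 163905) (nat_lit 12) (.e (nat_lit 426542) (nat_lit 29) (.e (nat_lit 352315) (nat_lit 23) .nil))) (.g (nat_lit 0) (.e (nat_lit 154887) (nat_lit 0) .nil) .nil))) 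
(.lf (nat_lit 496618) (.g (nat_lit 1255) (.e (nat_lit 163907) (nat_lit 12) (.e (nat_lit 426544) (nat_lit 30) (.e (nat_lit 360467) (nat_lit 3) (.e (nat_lit 516199) (nat_lit 26) .nil)))) (.g (nat_lit 0) (.e (nat_lit 155848) (nat_lit 0) .nil) .nil)))))))) (.nd (nat_lit 5) (.nd (nat_lit 6) (.nd (nat_lit 7) (.nd (nat_lit 8) (.nd (nat_lit 9) 
(.lf (nat_lit 495642) (.g (nat_lit 2931) (.e (nat_lit 163903) (nat_lit 12) (.e (nat_lit 426568) (nat_lit 34) (.e (nat_lit 393294) (nat_lit 26) (.e (nat_lit 475175) (nat_lit 24) (.e (nat_lit 516119) (nat_lit 1) (.e (nat_lit 164326) (nat_lit 230) .nil)))))) (.g (nat_lit 1) (.e (nat_lit 154067) (nat_lit 0) .nil) .nil))) 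
(.lf (nat_lit 496154) (.g (nat_lit 1761) (.e (nat_lit 163905) (nat_lit 12) (.e (nat_lit 426555) (nat_lit 32) (.e (nat_lit 376862) (nat_lit 22) (.e (nat_lit 90160) (nat_lit 11) (.e (nat_lit 24584) (nat_lit 0) .nil))))) (.g (nat_lit 0) (.e (nat_lit 154943) (nat_lit 0) .nil) .nil)))) (.nd (nat_lit 9) 
(.lf (nat_lit 495898) (.g (nat_lit 1162) (.e (nat_lit 163905) (nat_lit 12) (.e (nat_lit 426428) (nat_lit 17) (.e (nat_lit 90178) (nat_lit 15) (.e (nat_lit 188422) (nat_lit 11) .nil)))) (.g (nat_lit 0) (.e (nat_lit 154577) (nat_lit 0) .nil) .nil))) 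
(.lf (nat_lit 496410) (.g (nat_lit 3219) (.e (nat_lit 163905) (nat_lit 12) (.e (nat_lit 426568) (nat_lit 34) (.e (nat_lit 393293) (nat_lit 26) (.e (nat_lit 475179) (nat_lit 24) (.e (nat_lit 516120) (nat_lit 1) (.e (nat_lit 164332) (nat_lit 230) .nil)))))) (.g (nat_lit 1) (.e (nat_lit 155209) (nat_lit 0) .nil) .nil))))) (.nd (nat_lit 8) (.nd (nat_lit 9) 
(.lf (nat_lit 495770) (.g (nat_lit 3086) (.e (nat_lit 163904) (nat_lit 12) (.e (nat_lit 426566) (nat_lit 34) (.e (nat_lit 393291) (nat_lit 26) (.e (nat_lit 475177) (nat_lit 24) (.e (nat_lit 516119) (nat_lit 1) (.e (nat_lit 164325) (nat_lit 230) .nil)))))) (.g (nat_lit 1) (.e (nat_lit 154237) (nat_lit 0) .nil) .nil))) 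
(.lf (nat_lit 496282) (.g (nat_lit 3110) (.e (nat_lit 163905) (nat_lit 12) (.e (nat_lit 426566) (nat_lit 34) (.e (nat_lit 393295) (nat_lit 26) (.e (nat_lit 475177) (nat_lit 24) (.e (nat_lit 516115) (nat_lit 1) (.e (nat_lit 164325) (nat_lit 230) .nil)))))) (.g (nat_lit 1) (.e (nat_lit 155080) (nat_lit 0) .nil) .nil)))) (.nd (nat_lit 9) 
(.lf (nat_lit 496026) (.g (nat_lit 3092) (.e (nat_lit 163905) (nat_lit 12) (.e (nat_lit 426482) (nat_lit 27) (.e (nat_lit 336386) (nat_lit 27) (.e (nat_lit 426190) (nat_lit 9) (.e (nat_lit 426436) (nat_lit 18) (.e (nat_lit 98335) (nat_lit 18) (.e (nat_lit 164330) (nat_lit 230) .nil))))))) (.g (nat_lit 1) (.e (nat_lit 154743) (nat_lit 0) .nil) .nil))) 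
(.lf (nat_lit 496538) (.g (nat_lit 3257) (.e (nat_lit 163907) (nat_lit 12) (.e (nat_lit 426436) (nat_lit 18) (.e (nat_lit 98370) (nat_lit 28) (.e (nat_lit 442390) (nat_lit 11) (.e (nat_lit 335986) (nat_lit 1) (.e (nat_lit 57692) (nat_lit 156) .nil)))))) (.g (nat_lit 1) (.e (nat_lit 155762) (nat_lit 0) .nil) .nil)))))) (.nd (nat_lit 7) (.nd (nat_lit 8) (.nd (nat_lit 9) 
(.lf (nat_lit 495706) (.g (nat_lit 2534) (.e (nat_lit 163904) (nat_lit 12) (.e (nat_lit 426566) (nat_lit 34) (.e (nat_lit 393268) (nat_lit 23) (.e (nat_lit 426438) (nat_lit 18) (.e (nat_lit 98335) (nat_lit 18) (.e (nat_lit 164326) (nat_lit 230) .nil)))))) (.g (nat_lit 1) (.e (nat_lit 154171) (nat_lit 0) .nil) .nil))) 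
(.lf (nat_lit 496218) (.g (nat_lit 3029) (.e (nat_lit 163905) (nat_lit 12) (.e (nat_lit 426566) (nat_lit 34) (.e (nat_lit 393272) (nat_lit 23) (.e (nat_lit 426131) (nat_lit 3) (.e (nat_lit 204829) (nat_lit 18) (.e (nat_lit 57692) (nat_lit 156) .nil)))))) (.g (nat_lit 1) (.e (nat_lit 155016) (nat_lit 0) .nil) .nil)))) (.nd (nat_lit 9) 
(.lf (nat_lit 495962) (.g (nat_lit 2323) (.e (nat_lit 163905) (nat_lit 12) (.e (nat_lit 426472) (nat_lit 25) (.e (nat_lit 319534) (nat_lit 16) (.e (nat_lit 286756) (nat_lit 10) (.e (nat_lit 344093) (nat_lit 18) .nil))))) (.g (nat_lit 0) (.e (nat_lit 154645) (nat_lit 0) .nil) .nil))) 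
(.lf (nat_lit 496474) (.g (nat_lit 1176) (.e (nat_lit 163906) (nat_lit 12) (.e (nat_lit 426555) (nat_lit 32) (.e (nat_lit 376866) (nat_lit 23) .nil))) (.g (nat_lit 0) (.e (nat_lit 155429) (nat_lit 0) .nil) .nil))))) (.nd (nat_lit 8) (.nd (nat_lit 9) 
(.lf (nat_lit 495834) (.g (nat_lit 3287) (.e (nat_lit 163904) (nat_lit 12) (.e (nat_lit 426566) (nat_lit 34) (.e (nat_lit 393294) (nat_lit 26) (.e (nat_lit 475179) (nat_lit 24) (.e (nat_lit 516120) (nat_lit 1) (.e (nat_lit 164329) (nat_lit 230) .nil)))))) (.g (nat_lit 1) (.e (nat_lit 154301) (nat_lit 0) .nil) .nil))) 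
(.lf (nat_lit 496346) (.g (nat_lit 2435) (.e (nat_lit 163905) (nat_lit 12) (.e (nat_lit 426568) (nat_lit 34) (.e (nat_lit 393270) (nat_lit 23) (.e (nat_lit 426436) (nat_lit 18) (.e (nat_lit 98335) (nat_lit 18) (.e (nat_lit 164330) (nat_lit 230) .nil)))))) (.g (nat_lit 1) (.e (nat_lit 155145) (nat_lit 0) .nil) .nil)))) (.nd (nat_lit 9) 
(.lf (nat_lit 496090) (.g (nat_lit 371) (.e (nat_lit 163905) (nat_lit 12) (.e (nat_lit 426542) (nat_lit 29) (.e (nat_lit 352313) (nat_lit 23) .nil))) (.g (nat_lit 0) (.e (nat_lit 154871) (nat_lit 0) .nil) .nil))) 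
(.lf (nat_lit 496602) (.g (nat_lit 2832) (.e (nat_lit 163907) (nat_lit 12) (.e (nat_lit 426481) (nat_lit 27) (.e (nat_lit 336386) (nat_lit 27) (.e (nat_lit 426306) (nat_lit 12) (.e (nat_lit 475179) (nat_lit 24) (.e (nat_lit 516115) (nat_lit 1) (.e (nat_lit 164325) (nat_lit 230) .nil))))))) (.g (nat_lit 1) (.e (nat_lit 155832) (nat_lit 0) .nil) .nil))))))) 
(.nd (nat_lit 6) (.nd (nat_lit 7) (.nd (nat_lit 8) (.nd (nat_lit 9) 
(.lf (nat_lit 495674) (.g (nat_lit 2586) (.e (nat_lit 163904) (nat_lit 12) (.e (nat_lit 426555) (nat_lit 32) (.e (nat_lit 376867) (nat_lit 23) (.e (nat_lit 98317) (nat_lit 9) (.e (nat_lit 335996) (nat_lit 1) (.e (nat_lit 57931) (nat_lit 282) .nil)))))) (.g (nat_lit 1) (.e (nat_lit 154138) (nat_lit 0) .nil) .nil))) 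
(.lf (nat_lit 496186) (.g (nat_lit 2049) (.e (nat_lit 163905) (nat_lit 12) (.e (nat_lit 426555) (nat_lit 32) (.e (nat_lit 376869) (nat_lit 23) (.e (nat_lit 98317) (nat_lit 9) (.e (nat_lit 335987) (nat_lit 1) (.e (nat_lit 57927) (nat_lit 282) .nil)))))) (.g (nat_lit 1) (.e (nat_lit 154983) (nat_lit 0) .nil) .nil)))) (.nd (nat_lit 9) 
(.lf (nat_lit 495930) (.g (nat_lit 2667) (.e (nat_lit 163905) (nat_lit 12) (.e (nat_lit 426437) (nat_lit 18) (.e (nat_lit 98365) (nat_lit 26) (.e (nat_lit 426325) (nat_lit 13) (.e (nat_lit 483363) (nat_lit 18) (.e (nat_lit 57691) (nat_lit 156) .nil)))))) (.g (nat_lit 1) (.e (nat_lit 154611) (nat_lit 0) .nil) .nil))) 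
(.lf (nat_lit 496442) (.g (nat_lit 1730) (.e (nat_lit 163906) (nat_lit 12) (.e (nat_lit 426436) (nat_lit 18) (.e (nat_lit 98370) (nat_lit 28) (.e (nat_lit 442390) (nat_lit 11) .nil)))) (.g (nat_lit 0) (.e (nat_lit 155396) (nat_lit 0) .nil) .nil))))) (.nd (nat_lit 8) (.nd (nat_lit 9) 
(.lf (nat_lit 495802) (.g (nat_lit 2465) (.e (nat_lit 163904) (nat_lit 12) (.e (nat_lit 426566) (nat_lit 34) (.e (nat_lit 393294) (nat_lit 26) (.e (nat_lit 475177) (nat_lit 24) (.e (nat_lit 516114) (nat_lit 1) .nil))))) (.g (nat_lit 0) (.e (nat_lit 154269) (nat_lit 0) .nil) .nil))) 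
(.lf (nat_lit 496314) (.g (nat_lit 2323) (.e (nat_lit 163905) (nat_lit 12) (.e (nat_lit 426567) (nat_lit 34) (.e (nat_lit 393291) (nat_lit 26) (.e (nat_lit 475179) (nat_lit 24) (.e (nat_lit 516120) (nat_lit 1) (.e (nat_lit 164330) (nat_lit 230) .nil)))))) (.g (nat_lit 1) (.e (nat_lit 155112) (nat_lit 0) .nil) .nil)))) (.nd (nat_lit 9) 
(.lf (nat_lit 496058) (.g (nat_lit 2849) (.e (nat_lit 163905) (nat_lit 12) (.e (nat_lit 426509) (nat_lit 27) (.e (nat_lit 336389) (nat_lit 27) (.e (nat_lit 426308) (nat_lit 12) (.e (nat_lit 475177) (nat_lit 24) (.e (nat_lit 516120) (nat_lit 1) (.e (nat_lit 164330) (nat_lit 230) .nil))))))) (.g (nat_lit 1) (.e (nat_lit 154836) (nat_lit 0) .nil) .nil))) 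
(.lf (nat_lit 496570) (.g (nat_lit 2162) (.e (nat_lit 163907) (nat_lit 12) (.e (nat_lit 426478) (nat_lit 27) (.e (nat_lit 336386) (nat_lit 27) (.e (nat_lit 426306) (nat_lit 12) (.e (nat_lit 475179) (nat_lit 24) (.e (nat_lit 516115) (nat_lit 1) (.e (nat_lit 164325) (nat_lit 230) .nil))))))) (.g (nat_lit 1) (.e (nat_lit 155795) (nat_lit 0) .nil) .nil)))))) 
(.nd (nat_lit 7) (.nd (nat_lit 8) (.nd (nat_lit 9) 
(.lf (nat_lit 495738) (.g (nat_lit 2215) (.e (nat_lit 163904) (nat_lit 12) (.e (nat_lit 426566) (nat_lit 34) (.e (nat_lit 393272) (nat_lit 23) (.e (nat_lit 426436) (nat_lit 18) (.e (nat_lit 98335) (nat_lit 18) (.e (nat_lit 164329) (nat_lit 230) .nil)))))) (.g (nat_lit 1) (.e (nat_lit 154204) (nat_lit 0) .nil) .nil))) 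
(.lf (nat_lit 496250) (.g (nat_lit 2595) (.e (nat_lit 163905) (nat_lit 12) (.e (nat_lit 426566) (nat_lit 34) (.e (nat_lit 393287) (nat_lit 25) (.e (nat_lit 458789) (nat_lit 23) (.e (nat_lit 532504) (nat_lit 1) (.e (nat_lit 57692) (nat_lit 156) .nil)))))) (.g (nat_lit 1) (.e (nat_lit 155048) (nat_lit 0) .nil) .nil)))) (.nd (nat_lit 9) 
(.lf (nat_lit 495994) (.g (nat_lit 1660) (.e (nat_lit 163905) (nat_lit 12) (.e (nat_lit 426479) (nat_lit 27) (.e (nat_lit 336432) (nat_lit 30) (.e (nat_lit 450579) (nat_lit 5) (.e (nat_lit 532504) (nat_lit 1) (.e (nat_lit 57685) (nat_lit 156) .nil)))))) (.g (nat_lit 1) (.e (nat_lit 154677) (nat_lit 0) .nil) .nil))) 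
(.lf (nat_lit 496506) (.g (nat_lit 1575) (.e (nat_lit 163907) (nat_lit 12) (.e (nat_lit 426320) (nat_lit 12) (.e (nat_lit 475211) (nat_lit 41) (.e (nat_lit 712753) (nat_lit 30) (.e (nat_lit 458496) (nat_lit 0) .nil))))) (.g (nat_lit 0) (.e (nat_lit 155516) (nat_lit 0) .nil) .nil))))) (.nd (nat_lit 8) (.nd (nat_lit 9) 
(.lf (nat_lit 495866) (.g (nat_lit 2223) (.e (nat_lit 163905) (nat_lit 12) (.e (nat_lit 426320) (nat_lit 12) (.e (nat_lit 475211) (nat_lit 41) (.e (nat_lit 712753) (nat_lit 30) (.e (nat_lit 458496) (nat_lit 0) (.e (nat_lit 5587) (nat_lit 310) .nil)))))) (.g (nat_lit 1) (.e (nat_lit 154355) (nat_lit 0) .nil) .nil))) 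
(.lf (nat_lit 496378) (.g (nat_lit 2333) (.e (nat_lit 163905) (nat_lit 12) (.e (nat_lit 426568) (nat_lit 34) (.e (nat_lit 393283) (nat_lit 24) (.e (nat_lit 434231) (nat_lit 23) (.e (nat_lit 532502) (nat_lit 1) (.e (nat_lit 57688) (nat_lit 156) .nil)))))) (.g (nat_lit 1) (.e (nat_lit 155177) (nat_lit 0) .nil) .nil)))) (.nd (nat_lit 9) 
(.lf (nat_lit 496122) (.g (nat_lit 3133) (.e (nat_lit 163905) (nat_lit 12) (.e (nat_lit 426542) (nat_lit 29) (.e (nat_lit 352315) (nat_lit 23) (.e (nat_lit 98317) (nat_lit 9) (.e (nat_lit 335996) (nat_lit 1) (.e (nat_lit 57931) (nat_lit 282) .nil)))))) (.g (nat_lit 1) (.e (nat_lit 154903) (nat_lit 0) .nil) .nil))) 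
(.lf (nat_lit 496634) (.g (nat_lit 2962) (.e (nat_lit 163907) (nat_lit 12) (.e (nat_lit 426555) (nat_lit 32) (.e (nat_lit 376865) (nat_lit 22) (.e (nat_lit 90158) (nat_lit 11) (.e (nat_lit 24597) (nat_lit 1) (.e (nat_lit 57927) (nat_lit 282) .nil)))))) (.g (nat_lit 1) (.e (nat_lit 155875) (nat_lit 0) .nil) .nil)))))))))) 
(.nd (nat_lit 3) (.nd (nat_lit 4) (.nd (nat_lit 5) (.nd (nat_lit 6) (.nd (nat_lit 7) 
(.nd (nat_lit 8) (.nd (nat_lit 9) 
(.lf (nat_lit 495622) (.g (nat_lit 3698) (.e (nat_lit 163903) (nat_lit 12) (.e (nat_lit 426568) (nat_lit 34) (.e (nat_lit 393290) (nat_lit 26) (.e (nat_lit 475179) (nat_lit 24) (.e (nat_lit 516119) (nat_lit 1) (.e (nat_lit 164326) (nat_lit 230) .nil)))))) (.g (nat_lit 1) (.e (nat_lit 154044) (nat_lit 0) .nil) .nil))) 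
(.lf (nat_lit 496134) (.g (nat_lit 3235) (.e (nat_lit 163905) (nat_lit 12) (.e (nat_lit 426546) (nat_lit 30) (.e (nat_lit 360466) (nat_lit 3) (.e (nat_lit 516195) (nat_lit 26) (.e (nat_lit 335988) (nat_lit 1) (.e (nat_lit 57926) (nat_lit 282) .nil)))))) (.g (nat_lit 1) (.e (nat_lit 154917) (nat_lit 0) .nil) .nil)))) (.nd (nat_lit 9) 
(.lf (nat_lit 495878) (.g (nat_lit 3170) (.e (nat_lit 163905) (nat_lit 12) (.e (nat_lit 426428) (nat_lit 17) (.e (nat_lit 90170) (nat_lit 13) (.e (nat_lit 172122) (nat_lit 13) (.e (nat_lit 483363) (nat_lit 18) (.e (nat_lit 57692) (nat_lit 156) .nil)))))) (.g (nat_lit 1) (.e (nat_lit 154556) (nat_lit 0) .nil) .nil))) 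
(.lf (nat_lit 496390) (.g (nat_lit 3524) (.e (nat_lit 163905) (nat_lit 12) (.e (nat_lit 426568) (nat_lit 34) (.e (nat_lit 393287) (nat_lit 25) (.e (nat_lit 458789) (nat_lit 23) (.e (nat_lit 532499) (nat_lit 1) (.e (nat_lit 57688) (nat_lit 156) .nil)))))) (.g (nat_lit 1) (.e (nat_lit 155189) (nat_lit 0) .nil) .nil))))) (.nd (nat_lit 8) (.nd (nat_lit 9) 
(.lf (nat_lit 495750) (.g (nat_lit 1953) (.e (nat_lit 163904) (nat_lit 12) (.e (nat_lit 426566) (nat_lit 34) (.e (nat_lit 393290) (nat_lit 26) (.e (nat_lit 475179) (nat_lit 24) (.e (nat_lit 516120) (nat_lit 1) .nil))))) (.g (nat_lit 0) (.e (nat_lit 154216) (nat_lit 0) .nil) .nil))) 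
(.lf (nat_lit 496262) (.g (nat_lit 2149) (.e (nat_lit 163905) (nat_lit 12) (.e (nat_lit 426566) (nat_lit 34) (.e (nat_lit 393292) (nat_lit 26) (.e (nat_lit 475177) (nat_lit 24) (.e (nat_lit 516115) (nat_lit 1) (.e (nat_lit 164332) (nat_lit 230) .nil)))))) (.g (nat_lit 1) (.e (nat_lit 155060) (nat_lit 0) .nil) .nil)))) (.nd (nat_lit 9) 
(.lf (nat_lit 496006) (.g (nat_lit 1503) (.e (nat_lit 163905) (nat_lit 12) (.e (nat_lit 426479) (nat_lit 27) (.e (nat_lit 336443) (nat_lit 32) (.e (nat_lit 466949) (nat_lit 0) .nil)))) (.g (nat_lit 0) (.e (nat_lit 154689) (nat_lit 0) .nil) .nil))) 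
(.lf (nat_lit 496518) (.g (nat_lit 2441) (.e (nat_lit 163907) (nat_lit 12) (.e (nat_lit 426428) (nat_lit 17) (.e (nat_lit 90178) (nat_lit 15) (.e (nat_lit 188421) (nat_lit 11) (.e (nat_lit 335986) (nat_lit 1) (.e (nat_lit 57686) (nat_lit 156) .nil)))))) (.g (nat_lit 1) (.e (nat_lit 155737) (nat_lit 0) .nil) .nil)))))) (.nd (nat_lit 7) (.nd (nat_lit 8) (.nd (nat_lit 9) 
(.lf (nat_lit 495686) (.g (nat_lit 2612) (.e (nat_lit 163904) (nat_lit 12) (.e (nat_lit 426555) (nat_lit 32) (.e (nat_lit 376869) (nat_lit 23) (.e (nat_lit 98317) (nat_lit 9) (.e (nat_lit 335995) (nat_lit 1) (.e (nat_lit 57931) (nat_lit 282) .nil)))))) (.g (nat_lit 1) (.e (nat_lit 154150) (nat_lit 0) .nil) .nil))) 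
(.lf (nat_lit 496198) (.g (nat_lit 2846) (.e (nat_lit 163905) (nat_lit 12) (.e (nat_lit 426566) (nat_lit 34) (.e (nat_lit 393268) (nat_lit 23) (.e (nat_lit 426438) (nat_lit 18) (.e (nat_lit 98335) (nat_lit 18) (.e (nat_lit 164325) (nat_lit 230) .nil)))))) (.g (nat_lit 1) (.e (nat_lit 154996) (nat_lit 0) .nil) .nil)))) (.nd (nat_lit 9) 
(.lf (nat_lit 495942) (.g (nat_lit 3608) (.e (nat_lit 163905) (nat_lit 12) (.e (nat_lit 426438) (nat_lit 18) (.e (nat_lit 98365) (nat_lit 26) (.e (nat_lit 426325) (nat_lit 13) (.e (nat_lit 483363) (nat_lit 18) (.e (nat_lit 57688) (nat_lit 156) .nil)))))) (.g (nat_lit 1) (.e (nat_lit 154623) (nat_lit 0) .nil) .nil))) 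
(.lf (nat_lit 496454) (.g (nat_lit 2597) (.e (nat_lit 163906) (nat_lit 12) (.e (nat_lit 426438) (nat_lit 18) (.e (nat_lit 98358) (nat_lit 26) (.e (nat_lit 426323) (nat_lit 13) (.e (nat_lit 483366) (nat_lit 18) (.e (nat_lit 57692) (nat_lit 156) .nil)))))) (.g (nat_lit 1) (.e (nat_lit 155408) (nat_lit 0) .nil) .nil))))) (.nd (nat_lit 8) (.nd (nat_lit 9) 
(.lf (nat_lit 495814) (.g (nat_lit 3164) (.e (nat_lit 163904) (nat_lit 12) (.e (nat_lit 426566) (nat_lit 34) (.e (nat_lit 393294) (nat_lit 26) (.e (nat_lit 475177) (nat_lit 24) (.e (nat_lit 516118) (nat_lit 1) (.e (nat_lit 164330) (nat_lit 230) .nil)))))) (.g (nat_lit 1) (.e (nat_lit 154281) (nat_lit 0) .nil) .nil))) 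
(.lf (nat_lit 496326) (.g (nat_lit 2807) (.e (nat_lit 163905) (nat_lit 12) (.e (nat_lit 426568) (nat_lit 34) (.e (nat_lit 393267) (nat_lit 23) (.e (nat_lit 426436) (nat_lit 18) (.e (nat_lit 98333) (nat_lit 18) (.e (nat_lit 164332) (nat_lit 230) .nil)))))) (.g (nat_lit 1) (.e (nat_lit 155125) (nat_lit 0) .nil) .nil)))) (.nd (nat_lit 9) 
(.lf (nat_lit 496070) (.g (nat_lit 2044) (.e (nat_lit 163905) (nat_lit 12) (.e (nat_lit 426530) (nat_lit 27) (.e (nat_lit 336390) (nat_lit 27) (.e (nat_lit 426187) (nat_lit 9) (.e (nat_lit 426436) (nat_lit 18) (.e (nat_lit 98334) (nat_lit 18) (.e (nat_lit 164330) (nat_lit 230) .nil))))))) (.g (nat_lit 1) (.e (nat_lit 154848) (nat_lit 0) .nil) .nil))) 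
(.lf (nat_lit 496582) (.g (nat_lit 2358) (.e (nat_lit 163907) (nat_lit 12) (.e (nat_lit 426479) (nat_lit 27) (.e (nat_lit 336430) (nat_lit 29) (.e (nat_lit 442425) (nat_lit 23) (.e (nat_lit 204830) (nat_lit 18) (.e (nat_lit 57690) (nat_lit 156) .nil)))))) (.g (nat_lit 1) (.e (nat_lit 155808) (nat_lit 0) .nil) .nil))))))) (.nd (nat_lit 6) (.nd (nat_lit 7) (.nd (nat_lit 8) (.nd (nat_lit 9) 
(.lf (nat_lit 495654) (.g (nat_lit 3155) (.e (nat_lit 163903) (nat_lit 12) (.e (nat_lit 426568) (nat_lit 34) (.e (nat_lit 393296) (nat_lit 26) (.e (nat_lit 475179) (nat_lit 24) (.e (nat_lit 516119) (nat_lit 1) (.e (nat_lit 164326) (nat_lit 230) .nil)))))) (.g (nat_lit 1) (.e (nat_lit 154079) (nat_lit 0) .nil) .nil))) 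
(.lf (nat_lit 496166) (.g (nat_lit 1198) (.e (nat_lit 163905) (nat_lit 12) (.e (nat_lit 426555) (nat_lit 32) (.e (nat_lit 376865) (nat_lit 22) (.e (nat_lit 90158) (nat_lit 11) (.e (nat_lit 32512) (nat_lit 1) .nil))))) (.g (nat_lit 0) (.e (nat_lit 154959) (nat_lit 0) .nil) .nil)))) (.nd (nat_lit 9) 
(.lf (nat_lit 495910) (.g (nat_lit 2364) (.e (nat_lit 163905) (nat_lit 12) (.e (nat_lit 426436) (nat_lit 18) (.e (nat_lit 98358) (nat_lit 26) (.e (nat_lit 426323) (nat_lit 13) (.e (nat_lit 483364) (nat_lit 18) (.e (nat_lit 57691) (nat_lit 156) .nil)))))) (.g (nat_lit 1) (.e (nat_lit 154589) (nat_lit 0) .nil) .nil))) 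
(.lf (nat_lit 496422) (.g (nat_lit 2137) (.e (nat_lit 163906) (nat_lit 12) (.e (nat_lit 426128) (nat_lit 2) (.e (nat_lit 196672) (nat_lit 15) (.e (nat_lit 81954) (nat_lit 23) (.e (nat_lit 106240) (nat_lit 1) .nil))))) (.g (nat_lit 0) (.e (nat_lit 155221) (nat_lit 0) .nil) .nil))))) (.nd (nat_lit 8) (.nd (nat_lit 9) 
(.lf (nat_lit 495782) (.g (nat_lit 3228) (.e (nat_lit 163904) (nat_lit 12) (.e (nat_lit 426566) (nat_lit 34) (.e (nat_lit 393291) (nat_lit 26) (.e (nat_lit 475179) (nat_lit 24) (.e (nat_lit 516119) (nat_lit 1) (.e (nat_lit 164325) (nat_lit 230) .nil)))))) (.g (nat_lit 1) (.e (nat_lit 154249) (nat_lit 0) .nil) .nil))) 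
(.lf (nat_lit 496294) (.g (nat_lit 2416) (.e (nat_lit 163905) (nat_lit 12) (.e (nat_lit 426566) (nat_lit 34) (.e (nat_lit 393296) (nat_lit 26) (.e (nat_lit 475177) (nat_lit 24) (.e (nat_lit 516115) (nat_lit 1) (.e (nat_lit 164325) (nat_lit 230) .nil)))))) (.g (nat_lit 1) (.e (nat_lit 155092) (nat_lit 0) .nil) .nil)))) (.nd (nat_lit 9) 
(.lf (nat_lit 496038) (.g (nat_lit 2659) (.e (nat_lit 163905) (nat_lit 12) (.e (nat_lit 426481) (nat_lit 27) (.e (nat_lit 336385) (nat_lit 27) (.e (nat_lit 426306) (nat_lit 12) (.e (nat_lit 475177) (nat_lit 24) (.e (nat_lit 516120) (nat_lit 1) (.e (nat_lit 164330) (nat_lit 230) .nil))))))) (.g (nat_lit 1) (.e (nat_lit 154816) (nat_lit 0) .nil) .nil))) 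
(.lf (nat_lit 496550) (.g (nat_lit 1882) (.e (nat_lit 163907) (nat_lit 12) (.e (nat_lit 426436) (nat_lit 18) (.e (nat_lit 98381) (nat_lit 31) (.e (nat_lit 466954) (nat_lit 11) (.e (nat_lit 335993) (nat_lit 1) .nil))))) (.g (nat_lit 0) (.e (nat_lit 155774) (nat_lit 0) .nil) .nil)))))) (.nd (nat_lit 7) (.nd (nat_lit 8) (.nd (nat_lit 9) 
(.lf (nat_lit 495718) (.g (nat_lit 3008) (.e (nat_lit 163904) (nat_lit 12) (.e (nat_lit 426566) (nat_lit 34) (.e (nat_lit 393271) (nat_lit 23) (.e (nat_lit 426131) (nat_lit 3) (.e (nat_lit 204831) (nat_lit 18) (.e (nat_lit 57688) (nat_lit 156) .nil)))))) (.g (nat_lit 1) (.e (nat_lit 154184) (nat_lit 0) .nil) .nil))) 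
(.lf (nat_lit 496230) (.g (nat_lit 3063) (.e (nat_lit 163905) (nat_lit 12) (.e (nat_lit 426566) (nat_lit 34) (.e (nat_lit 393273) (nat_lit 23) (.e (nat_lit 426131) (nat_lit 3) (.e (nat_lit 204830) (nat_lit 18) (.e (nat_lit 57692) (nat_lit 156) .nil)))))) (.g (nat_lit 1) (.e (nat_lit 155028) (nat_lit 0) .nil) .nil)))) (.nd (nat_lit 9) 
(.lf (nat_lit 495974) (.g (nat_lit 3760) (.e (nat_lit 163905) (nat_lit 12) (.e (nat_lit 426478) (nat_lit 27) (.e (nat_lit 336389) (nat_lit 27) (.e (nat_lit 426308) (nat_lit 12) (.e (nat_lit 475177) (nat_lit 24) (.e (nat_lit 516117) (nat_lit 1) (.e (nat_lit 164330) (nat_lit 230) .nil))))))) (.g (nat_lit 1) (.e (nat_lit 154657) (nat_lit 0) .nil) .nil))) 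
(.lf (nat_lit 496486) (.g (nat_lit 2262) (.e (nat_lit 163906) (nat_lit 12) (.e (nat_lit 426566) (nat_lit 34) (.e (nat_lit 393294) (nat_lit 26) (.e (nat_lit 475177) (nat_lit 24) (.e (nat_lit 516119) (nat_lit 1) .nil))))) (.g (nat_lit 0) (.e (nat_lit 155441) (nat_lit 0) .nil) .nil))))) (.nd (nat_lit 8) (.nd (nat_lit 9) 
(.lf (nat_lit 495846) (.g (nat_lit 4370) (.e (nat_lit 163905) (nat_lit 12) (.e (nat_lit 426131) (nat_lit 3) (.e (nat_lit 204869) (nat_lit 29) (.e (nat_lit 360474) (nat_lit 8) (.e (nat_lit 557093) (nat_lit 12) .nil))))) (.g (nat_lit 0) (.e (nat_lit 154329) (nat_lit 0) .nil) .nil))) 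
(.lf (nat_lit 496358) (.g (nat_lit 3763) (.e (nat_lit 163905) (nat_lit 12) (.e (nat_lit 426568) (nat_lit 34) (.e (nat_lit 393271) (nat_lit 23) (.e (nat_lit 426436) (nat_lit 18) (.e (nat_lit 98333) (nat_lit 18) (.e (nat_lit 164332) (nat_lit 230) .nil)))))) (.g (nat_lit 1) (.e (nat_lit 155157) (nat_lit 0) .nil) .nil)))) (.nd (nat_lit 9) 
(.lf (nat_lit 496102) (.g (nat_lit 2539) (.e (nat_lit 163905) (nat_lit 12) (.e (nat_lit 426542) (nat_lit 29) (.e (nat_lit 352313) (nat_lit 23) (.e (nat_lit 98317) (nat_lit 9) (.e (nat_lit 335986) (nat_lit 1) (.e (nat_lit 57927) (nat_lit 282) .nil)))))) (.g (nat_lit 1) (.e (nat_lit 154883) (nat_lit 0) .nil) .nil))) 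
(.lf (nat_lit 496614) (.g (nat_lit 4046) (.e (nat_lit 163907) (nat_lit 12) (.e (nat_lit 426544) (nat_lit 30) (.e (nat_lit 360467) (nat_lit 3) (.e (nat_lit 516195) (nat_lit 26) (.e (nat_lit 335986) (nat_lit 1) (.e (nat_lit 57926) (nat_lit 282) .nil)))))) (.g (nat_lit 1) (.e (nat_lit 155844) (nat_lit 0) .nil) .nil)))))))) 
(.nd (nat_lit 5) (.nd (nat_lit 6) (.nd (nat_lit 7) (.nd (nat_lit 8) (.nd (nat_lit 9) 
(.lf (nat_lit 495638) (.g (nat_lit 2860) (.e (nat_lit 163903) (nat_lit 12) (.e (nat_lit 426568) (nat_lit 34) (.e (nat_lit 393293) (nat_lit 26) (.e (nat_lit 475177) (nat_lit 24) (.e (nat_lit 516119) (nat_lit 1) (.e (nat_lit 164324) (nat_lit 230) .nil)))))) (.g (nat_lit 1) (.e (nat_lit 154062) (nat_lit 0) .nil) .nil))) 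
(.lf (nat_lit 496150) (.g (nat_lit 3058) (.e (nat_lit 163905) (nat_lit 12) (.e (nat_lit 426555) (nat_lit 32) (.e (nat_lit 376862) (nat_lit 22) (.e (nat_lit 90158) (nat_lit 11) (.e (nat_lit 24599) (nat_lit 1) (.e (nat_lit 57931) (nat_lit 282) .nil)))))) (.g (nat_lit 1) (.e (nat_lit 154939) (nat_lit 0) .nil) .nil)))) (.nd (nat_lit 9) 
(.lf (nat_lit 495894) (.g (nat_lit 4046) (.e (nat_lit 163905) (nat_lit 12) (.e (nat_lit 426428) (nat_lit 17) (.e (nat_lit 90178) (nat_lit 15) (.e (nat_lit 188421) (nat_lit 11) (.e (nat_lit 335988) (nat_lit 1) (.e (nat_lit 57691) (nat_lit 156) .nil)))))) (.g (nat_lit 1) (.e (nat_lit 154573) (nat_lit 0) .nil) .nil))) 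
(.lf (nat_lit 496406) (.g (nat_lit 2631) (.e (nat_lit 163905) (nat_lit 12) (.e (nat_lit 426568) (nat_lit 34) (.e (nat_lit 393292) (nat_lit 26) (.e (nat_lit 475179) (nat_lit 24) (.e (nat_lit 516120) (nat_lit 1) (.e (nat_lit 164332) (nat_lit 230) .nil)))))) (.g (nat_lit 1) (.e (nat_lit 155205) (nat_lit 0) .nil) .nil))))) (.nd (nat_lit 8) (.nd (nat_lit 9) 
(.lf (nat_lit 495766) (.g (nat_lit 2935) (.e (nat_lit 163904) (nat_lit 12) (.e (nat_lit 426566) (nat_lit 34) (.e (nat_lit 393291) (nat_lit 26) (.e (nat_lit 475177) (nat_lit 24) (.e (nat_lit 516118) (nat_lit 1) (.e (nat_lit 164330) (nat_lit 230) .nil)))))) (.g (nat_lit 1) (.e (nat_lit 154233) (nat_lit 0) .nil) .nil))) 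
(.lf (nat_lit 496278) (.g (nat_lit 2252) (.e (nat_lit 163905) (nat_lit 12) (.e (nat_lit 426566) (nat_lit 34) (.e (nat_lit 393294) (nat_lit 26) (.e (nat_lit 475177) (nat_lit 24) (.e (nat_lit 516119) (nat_lit 1) (.e (nat_lit 164332) (nat_lit 230) .nil)))))) (.g (nat_lit 1) (.e (nat_lit 155076) (nat_lit 0) .nil) .nil)))) (.nd (nat_lit 9) 
(.lf (nat_lit 496022) (.g (nat_lit 2985) (.e (nat_lit 163905) (nat_lit 12) (.e (nat_lit 426482) (nat_lit 27) (.e (nat_lit 336385) (nat_lit 27) (.e (nat_lit 426190) (nat_lit 9) (.e (nat_lit 426436) (nat_lit 18) (.e (nat_lit 98335) (nat_lit 18) (.e (nat_lit 164332) (nat_lit 230) .nil))))))) (.g (nat_lit 1) (.e (nat_lit 154713) (nat_lit 0) .nil) .nil))) 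
(.lf (nat_lit 496534) (.g (nat_lit 2991) (.e (nat_lit 163907) (nat_lit 12) (.e (nat_lit 426436) (nat_lit 18) (.e (nat_lit 98358) (nat_lit 26) (.e (nat_lit 426323) (nat_lit 13) (.e (nat_lit 483366) (nat_lit 18) (.e (nat_lit 57692) (nat_lit 156) .nil)))))) (.g (nat_lit 1) (.e (nat_lit 155756) (nat_lit 0) .nil) .nil)))))) (.nd (nat_lit 7) (.nd (nat_lit 8) (.nd (nat_lit 9) 
(.lf (nat_lit 495702) (.g (nat_lit 2783) (.e (nat_lit 163904) (nat_lit 12) (.e (nat_lit 426566) (nat_lit 34) (.e (nat_lit 393268) (nat_lit 23) (.e (nat_lit 426438) (nat_lit 18) (.e (nat_lit 98334) (nat_lit 18) (.e (nat_lit 164329) (nat_lit 230) .nil)))))) (.g (nat_lit 1) (.e (nat_lit 154167) (nat_lit 0) .nil) .nil))) 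
(.lf (nat_lit 496214) (.g (nat_lit 3565) (.e (nat_lit 163905) (nat_lit 12) (.e (nat_lit 426566) (nat_lit 34) (.e (nat_lit 393271) (nat_lit 23) (.e (nat_lit 426436) (nat_lit 18) (.e (nat_lit 98334) (nat_lit 18) (.e (nat_lit 164332) (nat_lit 230) .nil)))))) (.g (nat_lit 1) (.e (nat_lit 155012) (nat_lit 0) .nil) .nil)))) (.nd (nat_lit 9) 
(.lf (nat_lit 495958) (.g (nat_lit 2686) (.e (nat_lit 163905) (nat_lit 12) (.e (nat_lit 426438) (nat_lit 18) (.e (nat_lit 98381) (nat_lit 31) (.e (nat_lit 466954) (nat_lit 11) (.e (nat_lit 335994) (nat_lit 1) (.e (nat_lit 57691) (nat_lit 156) .nil)))))) (.g (nat_lit 1) (.e (nat_lit 154641) (nat_lit 0) .nil) .nil))) 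
(.lf (nat_lit 496470) (.g (nat_lit 2321) (.e (nat_lit 163906) (nat_lit 12) (.e (nat_lit 426506) (nat_lit 27) (.e (nat_lit 336389) (nat_lit 27) (.e (nat_lit 426308) (nat_lit 12) (.e (nat_lit 475177) (nat_lit 24) (.e (nat_lit 516115) (nat_lit 1) (.e (nat_lit 164325) (nat_lit 230) .nil))))))) (.g (nat_lit 1) (.e (nat_lit 155425) (nat_lit 0) .nil) .nil))))) (.nd (nat_lit 8) (.nd (nat_lit 9) 
(.lf (nat_lit 495830) (.g (nat_lit 3334) (.e (nat_lit 163904) (nat_lit 12) (.e (nat_lit 426566) (nat_lit 34) (.e (nat_lit 393294) (nat_lit 26) (.e (nat_lit 475179) (nat_lit 24) (.e (nat_lit 516117) (nat_lit 1) (.e (nat_lit 164332) (nat_lit 230) .nil)))))) (.g (nat_lit 1) (.e (nat_lit 154297) (nat_lit 0) .nil) .nil))) 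
(.lf (nat_lit 496342) (.g (nat_lit 1506) (.e (nat_lit 163905) (nat_lit 12) (.e (nat_lit 426568) (nat_lit 34) (.e (nat_lit 393270) (nat_lit 23) (.e (nat_lit 426434) (nat_lit 18) (.e (nat_lit 98334) (nat_lit 18) (.e (nat_lit 164332) (nat_lit 230) .nil)))))) (.g (nat_lit 1) (.e (nat_lit 155141) (nat_lit 0) .nil) .nil)))) (.nd (nat_lit 9) 
(.lf (nat_lit 496086) (.g (nat_lit 3708) (.e (nat_lit 163905) (nat_lit 12) (.e (nat_lit 426530) (nat_lit 27) (.e (nat_lit 336390) (nat_lit 27) (.e (nat_lit 426308) (nat_lit 12) (.e (nat_lit 475179) (nat_lit 24) (.e (nat_lit 516120) (nat_lit 1) (.e (nat_lit 164332) (nat_lit 230) .nil))))))) (.g (nat_lit 1) (.e (nat_lit 154864) (nat_lit 0) .nil) .nil))) 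
(.lf (nat_lit 496598) (.g (nat_lit 2192) (.e (nat_lit 163907) (nat_lit 12) (.e (nat_lit 426481) (nat_lit 27) (.e (nat_lit 336385) (nat_lit 27) (.e (nat_lit 426306) (nat_lit 12) (.e (nat_lit 475177) (nat_lit 24) (.e (nat_lit 516115) (nat_lit 1) (.e (nat_lit 164325) (nat_lit 230) .nil))))))) (.g (nat_lit 1) (.e (nat_lit 155828) (nat_lit 0) .nil) .nil))))))) 
(.nd (nat_lit 6) (.nd (nat_lit 7) (.nd (nat_lit 8) (.nd (nat_lit 9) 
(.lf (nat_lit 495670) (.g (nat_lit 2656) (.e (nat_lit 163904) (nat_lit 12) (.e (nat_lit 426555) (nat_lit 32) (.e (nat_lit 376867) (nat_lit 23) (.e (nat_lit 98313) (nat_lit 9) (.e (nat_lit 335996) (nat_lit 1) (.e (nat_lit 57931) (nat_lit 282) .nil)))))) (.g (nat_lit 1) (.e (nat_lit 154134) (nat_lit 0) .nil) .nil))) 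
(.lf (nat_lit 496182) (.g (nat_lit 1618) (.e (nat_lit 163905) (nat_lit 12) (.e (nat_lit 426555) (nat_lit 32) (.e (nat_lit 376869) (nat_lit 23) (.e (nat_lit 98312) (nat_lit 9) (.e (nat_lit 335986) (nat_lit 1) (.e (nat_lit 57927) (nat_lit 282) .nil)))))) (.g (nat_lit 1) (.e (nat_lit 154979) (nat_lit 0) .nil) .nil)))) (.nd (nat_lit 9) 
(.lf (nat_lit 495926) (.g (nat_lit 2838) (.e (nat_lit 163905) (nat_lit 12) (.e (nat_lit 426436) (nat_lit 18) (.e (nat_lit 98381) (nat_lit 31) (.e (nat_lit 466954) (nat_lit 11) (.e (nat_lit 335988) (nat_lit 1) (.e (nat_lit 57692) (nat_lit 156) .nil)))))) (.g (nat_lit 1) (.e (nat_lit 154607) (nat_lit 0) .nil) .nil))) 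
(.lf (nat_lit 496438) (.g (nat_lit 2461) (.e (nat_lit 163906) (nat_lit 12) (.e (nat_lit 426436) (nat_lit 18) (.e (nat_lit 98358) (nat_lit 26) (.e (nat_lit 426323) (nat_lit 13) (.e (nat_lit 483365) (nat_lit 18) (.e (nat_lit 57692) (nat_lit 156) .nil)))))) (.g (nat_lit 1) (.e (nat_lit 155391) (nat_lit 0) .nil) .nil))))) (.nd (nat_lit 8) (.nd (nat_lit 9) 
(.lf (nat_lit 495798) (.g (nat_lit 1803) (.e (nat_lit 163904) (nat_lit 12) (.e (nat_lit 426566) (nat_lit 34) (.e (nat_lit 393294) (nat_lit 26) (.e (nat_lit 475175) (nat_lit 24) (.e (nat_lit 516116) (nat_lit 1) .nil))))) (.g (nat_lit 0) (.e (nat_lit 154265) (nat_lit 0) .nil) .nil))) 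
(.lf (nat_lit 496310) (.g (nat_lit 3702) (.e (nat_lit 163905) (nat_lit 12) (.e (nat_lit 426566) (nat_lit 34) (.e (nat_lit 393296) (nat_lit 26) (.e (nat_lit 475179) (nat_lit 24) (.e (nat_lit 516120) (nat_lit 1) (.e (nat_lit 164332) (nat_lit 230) .nil)))))) (.g (nat_lit 1) (.e (nat_lit 155108) (nat_lit 0) .nil) .nil)))) (.nd (nat_lit 9) 
(.lf (nat_lit 496054) (.g (nat_lit 2814) (.e (nat_lit 163905) (nat_lit 12) (.e (nat_lit 426489) (nat_lit 27) (.e (nat_lit 336406) (nat_lit 27) (.e (nat_lit 426306) (nat_lit 12) (.e (nat_lit 475179) (nat_lit 24) (.e (nat_lit 516117) (nat_lit 1) (.e (nat_lit 164332) (nat_lit 230) .nil))))))) (.g (nat_lit 1) (.e (nat_lit 154832) (nat_lit 0) .nil) .nil))) 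
(.lf (nat_lit 496566) (.g (nat_lit 3380) (.e (nat_lit 163907) (nat_lit 12) (.e (nat_lit 426438) (nat_lit 18) (.e (nat_lit 98380) (nat_lit 31) (.e (nat_lit 466954) (nat_lit 11) (.e (nat_lit 335986) (nat_lit 1) (.e (nat_lit 57688) (nat_lit 156) .nil)))))) (.g (nat_lit 1) (.e (nat_lit 155791) (nat_lit 0) .nil) .nil)))))) (.nd (nat_lit 7) (.nd (nat_lit 8) (.nd (nat_lit 9) 
(.lf (nat_lit 495734) (.g (nat_lit 2444) (.e (nat_lit 163904) (nat_lit 12) (.e (nat_lit 426566) (nat_lit 34) (.e (nat_lit 393271) (nat_lit 23) (.e (nat_lit 426438) (nat_lit 18) (.e (nat_lit 98335) (nat_lit 18) (.e (nat_lit 164326) (nat_lit 230) .nil)))))) (.g (nat_lit 1) (.e (nat_lit 154200) (nat_lit 0) .nil) .nil))) 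
(.lf (nat_lit 496246) (.g (nat_lit 2587) (.e (nat_lit 163905) (nat_lit 12) (.e (nat_lit 426566) (nat_lit 34) (.e (nat_lit 393286) (nat_lit 25) (.e (nat_lit 458789) (nat_lit 23) (.e (nat_lit 532504) (nat_lit 1) (.e (nat_lit 57692) (nat_lit 156) .nil)))))) (.g (nat_lit 1) (.e (nat_lit 155044) (nat_lit 0) .nil) .nil)))) (.nd (nat_lit 9) 
(.lf (nat_lit 495990) (.g (nat_lit 3286) (.e (nat_lit 163905) (nat_lit 12) (.e (nat_lit 426479) (nat_lit 27) (.e (nat_lit 336430) (nat_lit 29) (.e (nat_lit 442427) (nat_lit 23) (.e (nat_lit 204829) (nat_lit 18) (.e (nat_lit 57691) (nat_lit 156) .nil)))))) (.g (nat_lit 1) (.e (nat_lit 154673) (nat_lit 0) .nil) .nil))) 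
(.lf (nat_lit 496502) (.g (nat_lit 2175) (.e (nat_lit 163907) (nat_lit 12) (.e (nat_lit 426319) (nat_lit 12) (.e (nat_lit 475211) (nat_lit 41) (.e (nat_lit 712753) (nat_lit 30) (.e (nat_lit 458496) (nat_lit 0) (.e (nat_lit 5587) (nat_lit 310) .nil)))))) (.g (nat_lit 1) (.e (nat_lit 155507) (nat_lit 0) .nil) .nil))))) (.nd (nat_lit 8) (.nd (nat_lit 9) 
(.lf (nat_lit 495862) (.g (nat_lit 1945) (.e (nat_lit 163905) (nat_lit 12) (.e (nat_lit 426320) (nat_lit 12) (.e (nat_lit 475211) (nat_lit 41) (.e (nat_lit 712750) (nat_lit 29) (.e (nat_lit 442430) (nat_lit 24) (.e (nat_lit 229681) (nat_lit 244) .nil)))))) (.g (nat_lit 1) (.e (nat_lit 154351) (nat_lit 0) .nil) .nil))) 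
(.lf (nat_lit 496374) (.g (nat_lit 4132) (.e (nat_lit 163905) (nat_lit 12) (.e (nat_lit 426568) (nat_lit 34) (.e (nat_lit 393283) (nat_lit 24) (.e (nat_lit 434231) (nat_lit 23) (.e (nat_lit 532499) (nat_lit 1) (.e (nat_lit 57688) (nat_lit 156) .nil)))))) (.g (nat_lit 1) (.e (nat_lit 155173) (nat_lit 0) .nil) .nil)))) (.nd (nat_lit 9) 
(.lf (nat_lit 496118) (.g (nat_lit 1441) (.e (nat_lit 163905) (nat_lit 12) (.e (nat_lit 426542) (nat_lit 29) (.e (nat_lit 352315) (nat_lit 23) (.e (nat_lit 98313) (nat_lit 9) (.e (nat_lit 343808) (nat_lit 1) .nil))))) (.g (nat_lit 0) (.e (nat_lit 154899) (nat_lit 0) .nil) .nil))) 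
(.lf (nat_lit 496630) (.g (nat_lit 1411) (.e (nat_lit 163907) (nat_lit 12) (.e (nat_lit 426555) (nat_lit 32) (.e (nat_lit 376865) (nat_lit 22) (.e (nat_lit 90157) (nat_lit 11) .nil)))) (.g (nat_lit 0) (.e (nat_lit 155869) (nat_lit 0) .nil) .nil))))))))) (.nd (nat_lit 4) (.nd (nat_lit 5) (.nd (nat_lit 6) (.nd (nat_lit 7) (.nd (nat_lit 8) (.nd (nat_lit 9) 
(.lf (nat_lit 495630) (.g (nat_lit 3852) (.e (nat_lit 163903) (nat_lit 12) (.e (nat_lit 426568) (nat_lit 34) (.e (nat_lit 393291) (nat_lit 26) (.e (nat_lit 475179) (nat_lit 24) (.e (nat_lit 516119) (nat_lit 1) (.e (nat_lit 164325) (nat_lit 230) .nil)))))) (.g (nat_lit 1) (.e (nat_lit 154054) (nat_lit 0) .nil) .nil))) 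
(.lf (nat_lit 496142) (.g (nat_lit 1708) (.e (nat_lit 163905) (nat_lit 12) (.e (nat_lit 426555) (nat_lit 32) (.e (nat_lit 376862) (nat_lit 22) (.e (nat_lit 90157) (nat_lit 11) (.e (nat_lit 24580) (nat_lit 0) .nil))))) (.g (nat_lit 0) (.e (nat_lit 154931) (nat_lit 0) .nil) .nil)))) (.nd (nat_lit 9) 
(.lf (nat_lit 495886) (.g (nat_lit 2039) (.e (nat_lit 163905) (nat_lit 12) (.e (nat_lit 426428) (nat_lit 17) (.e (nat_lit 90170) (nat_lit 13) (.e (nat_lit 172123) (nat_lit 13) (.e (nat_lit 483366) (nat_lit 18) (.e (nat_lit 57691) (nat_lit 156) .nil)))))) (.g (nat_lit 1) (.e (nat_lit 154564) (nat_lit 0) .nil) .nil))) 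
(.lf (nat_lit 496398) (.g (nat_lit 2144) (.e (nat_lit 163905) (nat_lit 12) (.e (nat_lit 426568) (nat_lit 34) (.e (nat_lit 393291) (nat_lit 26) (.e (nat_lit 475177) (nat_lit 24) (.e (nat_lit 516119) (nat_lit 1) (.e (nat_lit 164332) (nat_lit 230) .nil)))))) (.g (nat_lit 1) (.e (nat_lit 155197) (nat_lit 0) .nil) .nil))))) (.nd (nat_lit 8) (.nd (nat_lit 9) 
(.lf (nat_lit 495758) (.g (nat_lit 3169) (.e (nat_lit 163904) (nat_lit 12) (.e (nat_lit 426566) (nat_lit 34) (.e (nat_lit 393291) (nat_lit 26) (.e (nat_lit 475177) (nat_lit 24) (.e (nat_lit 516117) (nat_lit 1) (.e (nat_lit 164322) (nat_lit 230) .nil)))))) (.g (nat_lit 1) (.e (nat_lit 154225) (nat_lit 0) .nil) .nil))) 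
(.lf (nat_lit 496270) (.g (nat_lit 3236) (.e (nat_lit 163905) (nat_lit 12) (.e (nat_lit 426566) (nat_lit 34) (.e (nat_lit 393293) (nat_lit 26) (.e (nat_lit 475179) (nat_lit 24) (.e (nat_lit 516115) (nat_lit 1) (.e (nat_lit 164325) (nat_lit 230) .nil)))))) (.g (nat_lit 1) (.e (nat_lit 155068) (nat_lit 0) .nil) .nil)))) (.nd (nat_lit 9) 
(.lf (nat_lit 496014) (.g (nat_lit 2982) (.e (nat_lit 163905) (nat_lit 12) (.e (nat_lit 426480) (nat_lit 27) (.e (nat_lit 336389) (nat_lit 27) (.e (nat_lit 426308) (nat_lit 12) (.e (nat_lit 475177) (nat_lit 24) (.e (nat_lit 516118) (nat_lit 1) (.e (nat_lit 164332) (nat_lit 230) .nil))))))) (.g (nat_lit 1) (.e (nat_lit 154697) (nat_lit 0) .nil) .nil))) 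
(.lf (nat_lit 496526) (.g (nat_lit 2620) (.e (nat_lit 163907) (nat_lit 12) (.e (nat_lit 426432) (nat_lit 17) (.e (nat_lit 90178) (nat_lit 15) (.e (nat_lit 188421) (nat_lit 11) (.e (nat_lit 335995) (nat_lit 1) (.e (nat_lit 57691) (nat_lit 156) .nil)))))) (.g (nat_lit 1) (.e (nat_lit 155745) (nat_lit 0) .nil) .nil)))))) (.nd (nat_lit 7) (.nd (nat_lit 8) (.nd (nat_lit 9) 
(.lf (nat_lit 495694) (.g (nat_lit 2973) (.e (nat_lit 163904) (nat_lit 12) (.e (nat_lit 426566) (nat_lit 34) (.e (nat_lit 393268) (nat_lit 23) (.e (nat_lit 426436) (nat_lit 18) (.e (nat_lit 98334) (nat_lit 18) (.e (nat_lit 164329) (nat_lit 230) .nil)))))) (.g (nat_lit 1) (.e (nat_lit 154159) (nat_lit 0) .nil) .nil))) 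
(.lf (nat_lit 496206) (.g (nat_lit 3405) (.e (nat_lit 163905) (nat_lit 12) (.e (nat_lit 426566) (nat_lit 34) (.e (nat_lit 393271) (nat_lit 23) (.e (nat_lit 426131) (nat_lit 3) (.e (nat_lit 204829) (nat_lit 18) (.e (nat_lit 57692) (nat_lit 156) .nil)))))) (.g (nat_lit 1) (.e (nat_lit 155004) (nat_lit 0) .nil) .nil)))) (.nd (nat_lit 9) 
(.lf (nat_lit 495950) (.g (nat_lit 3654) (.e (nat_lit 163905) (nat_lit 12) (.e (nat_lit 426438) (nat_lit 18) (.e (nat_lit 98373) (nat_lit 29) (.e (nat_lit 450563) (nat_lit 0) (.e (nat_lit 6846) (nat_lit 370) .nil))))) (.g (nat_lit 0) (.e (nat_lit 154631) (nat_lit 0) .nil) .nil))) 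
(.lf (nat_lit 496462) (.g (nat_lit 2517) (.e (nat_lit 163906) (nat_lit 12) (.e (nat_lit 426438) (nat_lit 18) (.e (nat_lit 98380) (nat_lit 31) (.e (nat_lit 466954) (nat_lit 11) (.e (nat_lit 335996) (nat_lit 1) (.e (nat_lit 57692) (nat_lit 156) .nil)))))) (.g (nat_lit 1) (.e (nat_lit 155416) (nat_lit 0) .nil) .nil))))) (.nd (nat_lit 8) (.nd (nat_lit 9) 
(.lf (nat_lit 495822) (.g (nat_lit 3118) (.e (nat_lit 163904) (nat_lit 12) (.e (nat_lit 426566) (nat_lit 34) (.e (nat_lit 393294) (nat_lit 26) (.e (nat_lit 475177) (nat_lit 24) (.e (nat_lit 516120) (nat_lit 1) (.e (nat_lit 164329) (nat_lit 230) .nil)))))) (.g (nat_lit 1) (.e (nat_lit 154289) (nat_lit 0) .nil) .nil))) 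
(.lf (nat_lit 496334) (.g (nat_lit 3186) (.e (nat_lit 163905) (nat_lit 12) (.e (nat_lit 426568) (nat_lit 34) (.e (nat_lit 393268) (nat_lit 23) (.e (nat_lit 426436) (nat_lit 18) (.e (nat_lit 98333) (nat_lit 18) (.e (nat_lit 164332) (nat_lit 230) .nil)))))) (.g (nat_lit 1) (.e (nat_lit 155133) (nat_lit 0) .nil) .nil)))) (.nd (nat_lit 9) 
(.lf (nat_lit 496078) (.g (nat_lit 3356) (.e (nat_lit 163905) (nat_lit 12) (.e (nat_lit 426530) (nat_lit 27) (.e (nat_lit 336390) (nat_lit 27) (.e (nat_lit 426306) (nat_lit 12) (.e (nat_lit 475177) (nat_lit 24) (.e (nat_lit 516120) (nat_lit 1) (.e (nat_lit 164330) (nat_lit 230) .nil))))))) (.g (nat_lit 1) (.e (nat_lit 154856) (nat_lit 0) .nil) .nil))) 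
(.lf (nat_lit 496590) (.g (nat_lit 2122) (.e (nat_lit 163907) (nat_lit 12) (.e (nat_lit 426479) (nat_lit 27) (.e (nat_lit 336432) (nat_lit 30) (.e (nat_lit 450580) (nat_lit 5) (.e (nat_lit 532503) (nat_lit 1) (.e (nat_lit 57685) (nat_lit 156) .nil)))))) (.g (nat_lit 1) (.e (nat_lit 155816) (nat_lit 0) .nil) .nil))))))) (.nd (nat_lit 6) (.nd (nat_lit 7) (.nd (nat_lit 8) (.nd (nat_lit 9) 
(.lf (nat_lit 495662) (.g (nat_lit 1705) (.e (nat_lit 163904) (nat_lit 12) (.e (nat_lit 426438) (nat_lit 18) (.e (nat_lit 98365) (nat_lit 26) (.e (nat_lit 426325) (nat_lit 13) (.e (nat_lit 483363) (nat_lit 18) .nil))))) (.g (nat_lit 0) (.e (nat_lit 154102) (nat_lit 0) .nil) .nil))) 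
(.lf (nat_lit 496174) (.g (nat_lit 391) (.e (nat_lit 163905) (nat_lit 12) (.e (nat_lit 426555) (nat_lit 32) (.e (nat_lit 376867) (nat_lit 23) .nil))) (.g (nat_lit 0) (.e (nat_lit 154971) (nat_lit 0) .nil) .nil)))) (.nd (nat_lit 9) 
(.lf (nat_lit 495918) (.g (nat_lit 2337) (.e (nat_lit 163905) (nat_lit 12) (.e (nat_lit 426436) (nat_lit 18) (.e (nat_lit 98379) (nat_lit 31) (.e (nat_lit 466954) (nat_lit 11) (.e (nat_lit 335986) (nat_lit 1) (.e (nat_lit 57692) (nat_lit 156) .nil)))))) (.g (nat_lit 1) (.e (nat_lit 154599) (nat_lit 0) .nil) .nil))) 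
(.lf (nat_lit 496430) (.g (nat_lit 2017) (.e (nat_lit 163906) (nat_lit 12) (.e (nat_lit 426428) (nat_lit 17) (.e (nat_lit 90170) (nat_lit 13) (.e (nat_lit 172123) (nat_lit 13) (.e (nat_lit 483366) (nat_lit 18) .nil))))) (.g (nat_lit 0) (.e (nat_lit 155382) (nat_lit 0) .nil) .nil))))) (.nd (nat_lit 8) (.nd (nat_lit 9) 
(.lf (nat_lit 495790) (.g (nat_lit 1890) (.e (nat_lit 163904) (nat_lit 12) (.e (nat_lit 426566) (nat_lit 34) (.e (nat_lit 393293) (nat_lit 26) (.e (nat_lit 475175) (nat_lit 24) (.e (nat_lit 516119) (nat_lit 1) (.e (nat_lit 164322) (nat_lit 230) .nil)))))) (.g (nat_lit 1) (.e (nat_lit 154257) (nat_lit 0) .nil) .nil))) 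
(.lf (nat_lit 496302) (.g (nat_lit 3251) (.e (nat_lit 163905) (nat_lit 12) (.e (nat_lit 426566) (nat_lit 34) (.e (nat_lit 393296) (nat_lit 26) (.e (nat_lit 475178) (nat_lit 24) (.e (nat_lit 516119) (nat_lit 1) (.e (nat_lit 164332) (nat_lit 230) .nil)))))) (.g (nat_lit 1) (.e (nat_lit 155100) (nat_lit 0) .nil) .nil)))) (.nd (nat_lit 9) 
(.lf (nat_lit 496046) (.g (nat_lit 4218) (.e (nat_lit 163905) (nat_lit 12) (.e (nat_lit 426481) (nat_lit 27) (.e (nat_lit 336389) (nat_lit 27) (.e (nat_lit 426308) (nat_lit 12) (.e (nat_lit 475177) (nat_lit 24) (.e (nat_lit 516120) (nat_lit 1) (.e (nat_lit 164330) (nat_lit 230) .nil))))))) (.g (nat_lit 1) (.e (nat_lit 154824) (nat_lit 0) .nil) .nil))) 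
(.lf (nat_lit 496558) (.g (nat_lit 2114) (.e (nat_lit 163907) (nat_lit 12) (.e (nat_lit 426437) (nat_lit 18) (.e (nat_lit 98381) (nat_lit 31) (.e (nat_lit 466954) (nat_lit 11) (.e (nat_lit 335986) (nat_lit 1) (.e (nat_lit 57692) (nat_lit 156) .nil)))))) (.g (nat_lit 1) (.e (nat_lit 155782) (nat_lit 0) .nil) .nil)))))) (.nd (nat_lit 7) (.nd (nat_lit 8) (.nd (nat_lit 9) 
(.lf (nat_lit 495726) (.g (nat_lit 3350) (.e (nat_lit 163904) (nat_lit 12) (.e (nat_lit 426566) (nat_lit 34) (.e (nat_lit 393271) (nat_lit 23) (.e (nat_lit 426436) (nat_lit 18) (.e (nat_lit 98334) (nat_lit 18) (.e (nat_lit 164332) (nat_lit 230) .nil)))))) (.g (nat_lit 1) (.e (nat_lit 154192) (nat_lit 0) .nil) .nil))) 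
(.lf (nat_lit 496238) (.g (nat_lit 2911) (.e (nat_lit 163905) (nat_lit 12) (.e (nat_lit 426566) (nat_lit 34) (.e (nat_lit 393273) (nat_lit 23) (.e (nat_lit 426438) (nat_lit 18) (.e (nat_lit 98335) (nat_lit 18) (.e (nat_lit 164324) (nat_lit 230) .nil)))))) (.g (nat_lit 1) (.e (nat_lit 155036) (nat_lit 0) .nil) .nil)))) (.nd (nat_lit 9) 
(.lf (nat_lit 495982) (.g (nat_lit 2611) (.e (nat_lit 163905) (nat_lit 12) (.e (nat_lit 426478) (nat_lit 27) (.e (nat_lit 336388) (nat_lit 27) (.e (nat_lit 426188) (nat_lit 9) (.e (nat_lit 426436) (nat_lit 18) (.e (nat_lit 98335) (nat_lit 18) (.e (nat_lit 164330) (nat_lit 230) .nil))))))) (.g (nat_lit 1) (.e (nat_lit 154665) (nat_lit 0) .nil) .nil))) 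
(.lf (nat_lit 496494) (.g (nat_lit 2027) (.e (nat_lit 163907) (nat_lit 12) (.e (nat_lit 426131) (nat_lit 3) (.e (nat_lit 204838) (nat_lit 20) (.e (nat_lit 114711) (nat_lit 21) (.e (nat_lit 57755) (nat_lit 209) .nil))))) (.g (nat_lit 0) (.e (nat_lit 155453) (nat_lit 0) .nil) .nil))))) (.nd (nat_lit 8) (.nd (nat_lit 9) 
(.lf (nat_lit 495854) (.g (nat_lit 2427) (.e (nat_lit 163905) (nat_lit 12) (.e (nat_lit 426320) (nat_lit 12) (.e (nat_lit 475198) (nat_lit 40) (.e (nat_lit 704598) (nat_lit 6) (.e (nat_lit 188455) (nat_lit 24) (.e (nat_lit 229681) (nat_lit 244) .nil)))))) (.g (nat_lit 1) (.e (nat_lit 154341) (nat_lit 0) .nil) .nil))) 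
(.lf (nat_lit 496366) (.g (nat_lit 3113) (.e (nat_lit 163905) (nat_lit 12) (.e (nat_lit 426568) (nat_lit 34) (.e (nat_lit 393279) (nat_lit 23) (.e (nat_lit 426129) (nat_lit 3) (.e (nat_lit 204829) (nat_lit 18) (.e (nat_lit 57691) (nat_lit 156) .nil)))))) (.g (nat_lit 1) (.e (nat_lit 155165) (nat_lit 0) .nil) .nil)))) (.nd (nat_lit 9) 
(.lf (nat_lit 496110) (.g (nat_lit 2798) (.e (nat_lit 163905) (nat_lit 12) (.e (nat_lit 426542) (nat_lit 29) (.e (nat_lit 352315) (nat_lit 23) (.e (nat_lit 98313) (nat_lit 9) (.e (nat_lit 335986) (nat_lit 1) (.e (nat_lit 57927) (nat_lit 282) .nil)))))) (.g (nat_lit 1) (.e (nat_lit 154891) (nat_lit 0) .nil) .nil))) 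
(.lf (nat_lit 496622) (.g (nat_lit 446) (.e (nat_lit 163907) (nat_lit 12) (.e (nat_lit 426555) (nat_lit 32) (.e (nat_lit 376862) (nat_lit 22) .nil))) (.g (nat_lit 0) (.e (nat_lit 155852) (nat_lit 0) .nil) .nil)))))))) (.nd (nat_lit 5) (.nd (nat_lit 6) (.nd (nat_lit 7) (.nd (nat_lit 8) (.nd (nat_lit 9) 
(.lf (nat_lit 495646) (.g (nat_lit 3849) (.e (nat_lit 163903) (nat_lit 12) (.e (nat_lit 426568) (nat_lit 34) (.e (nat_lit 393294) (nat_lit 26) (.e (nat_lit 475177) (nat_lit 24) (.e (nat_lit 516118) (nat_lit 1) (.e (nat_lit 164325) (nat_lit 230) .nil)))))) (.g (nat_lit 1) (.e (nat_lit 154071) (nat_lit 0) .nil) .nil))) 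
(.lf (nat_lit 496158) (.g (nat_lit 1329) (.e (nat_lit 163905) (nat_lit 12) (.e (nat_lit 426555) (nat_lit 32) (.e (nat_lit 376865) (nat_lit 22) (.e (nat_lit 90157) (nat_lit 11) .nil)))) (.g (nat_lit 0) (.e (nat_lit 154951) (nat_lit 0) .nil) .nil)))) (.nd (nat_lit 9) 
(.lf (nat_lit 495902) (.g (nat_lit 1944) (.e (nat_lit 163905) (nat_lit 12) (.e (nat_lit 426432) (nat_lit 17) (.e (nat_lit 90178) (nat_lit 15) (.e (nat_lit 188421) (nat_lit 11) (.e (nat_lit 335986) (nat_lit 1) (.e (nat_lit 57692) (nat_lit 156) .nil)))))) (.g (nat_lit 1) (.e (nat_lit 154581) (nat_lit 0) .nil) .nil))) 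
(.lf (nat_lit 496414) (.g (nat_lit 3249) (.e (nat_lit 163905) (nat_lit 12) (.e (nat_lit 426568) (nat_lit 34) (.e (nat_lit 393294) (nat_lit 26) (.e (nat_lit 475177) (nat_lit 24) (.e (nat_lit 516120) (nat_lit 1) (.e (nat_lit 164330) (nat_lit 230) .nil)))))) (.g (nat_lit 1) (.e (nat_lit 155213) (nat_lit 0) .nil) .nil))))) (.nd (nat_lit 8) (.nd (nat_lit 9) 
(.lf (nat_lit 495774) (.g (nat_lit 3011) (.e (nat_lit 163904) (nat_lit 12) (.e (nat_lit 426566) (nat_lit 34) (.e (nat_lit 393291) (nat_lit 26) (.e (nat_lit 475177) (nat_lit 24) (.e (nat_lit 516120) (nat_lit 1) (.e (nat_lit 164331) (nat_lit 230) .nil)))))) (.g (nat_lit 1) (.e (nat_lit 154241) (nat_lit 0) .nil) .nil))) 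
(.lf (nat_lit 496286) (.g (nat_lit 2801) (.e (nat_lit 163905) (nat_lit 12) (.e (nat_lit 426566) (nat_lit 34) (.e (nat_lit 393295) (nat_lit 26) (.e (nat_lit 475177) (nat_lit 24) (.e (nat_lit 516118) (nat_lit 1) (.e (nat_lit 164332) (nat_lit 230) .nil)))))) (.g (nat_lit 1) (.e (nat_lit 155084) (nat_lit 0) .nil) .nil)))) (.nd (nat_lit 9) 
(.lf (nat_lit 496030) (.g (nat_lit 4481) (.e (nat_lit 163905) (nat_lit 12) (.e (nat_lit 426482) (nat_lit 27) (.e (nat_lit 336389) (nat_lit 27) (.e (nat_lit 426190) (nat_lit 9) (.e (nat_lit 426436) (nat_lit 18) (.e (nat_lit 98335) (nat_lit 18) (.e (nat_lit 164330) (nat_lit 230) .nil))))))) (.g (nat_lit 1) (.e (nat_lit 154767) (nat_lit 0) .nil) .nil))) 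
(.lf (nat_lit 496542) (.g (nat_lit 2764) (.e (nat_lit 163907) (nat_lit 12) (.e (nat_lit 426436) (nat_lit 18) (.e (nat_lit 98380) (nat_lit 31) (.e (nat_lit 466954) (nat_lit 11) (.e (nat_lit 335986) (nat_lit 1) (.e (nat_lit 57692) (nat_lit 156) .nil)))))) (.g (nat_lit 1) (.e (nat_lit 155766) (nat_lit 0) .nil) .nil)))))) (.nd (nat_lit 7) (.nd (nat_lit 8) (.nd (nat_lit 9) 
(.lf (nat_lit 495710) (.g (nat_lit 1061) (.e (nat_lit 163904) (nat_lit 12) (.e (nat_lit 426566) (nat_lit 34) (.e (nat_lit 393270) (nat_lit 23) (.e (nat_lit 426436) (nat_lit 18) .nil)))) (.g (nat_lit 0) (.e (nat_lit 154175) (nat_lit 0) .nil) .nil))) 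
(.lf (nat_lit 496222) (.g (nat_lit 2834) (.e (nat_lit 163905) (nat_lit 12) (.e (nat_lit 426566) (nat_lit 34) (.e (nat_lit 393272) (nat_lit 23) (.e (nat_lit 426436) (nat_lit 18) (.e (nat_lit 98333) (nat_lit 18) (.e (nat_lit 164325) (nat_lit 230) .nil)))))) (.g (nat_lit 1) (.e (nat_lit 155020) (nat_lit 0) .nil) .nil)))) (.nd (nat_lit 9) 
(.lf (nat_lit 495966) (.g (nat_lit 2461) (.e (nat_lit 163905) (nat_lit 12) (.e (nat_lit 426478) (nat_lit 27) (.e (nat_lit 336385) (nat_lit 27) (.e (nat_lit 426188) (nat_lit 9) (.e (nat_lit 426436) (nat_lit 18) (.e (nat_lit 98335) (nat_lit 18) (.e (nat_lit 164330) (nat_lit 230) .nil))))))) (.g (nat_lit 1) (.e (nat_lit 154649) (nat_lit 0) .nil) .nil))) 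
(.lf (nat_lit 496478) (.g (nat_lit 3668) (.e (nat_lit 163906) (nat_lit 12) (.e (nat_lit 426566) (nat_lit 34) (.e (nat_lit 393271) (nat_lit 23) (.e (nat_lit 426436) (nat_lit 18) (.e (nat_lit 98335) (nat_lit 18) (.e (nat_lit 164325) (nat_lit 230) .nil)))))) (.g (nat_lit 1) (.e (nat_lit 155433) (nat_lit 0) .nil) .nil))))) (.nd (nat_lit 8) (.nd (nat_lit 9) 
(.lf (nat_lit 495838) (.g (nat_lit 2099) (.e (nat_lit 163904) (nat_lit 12) (.e (nat_lit 426566) (nat_lit 34) (.e (nat_lit 393295) (nat_lit 26) (.e (nat_lit 475178) (nat_lit 24) (.e (nat_lit 516117) (nat_lit 1) (.e (nat_lit 164329) (nat_lit 230) .nil)))))) (.g (nat_lit 1) (.e (nat_lit 154305) (nat_lit 0) .nil) .nil))) 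
(.lf (nat_lit 496350) (.g (nat_lit 4156) (.e (nat_lit 163905) (nat_lit 12) (.e (nat_lit 426568) (nat_lit 34) (.e (nat_lit 393271) (nat_lit 23) (.e (nat_lit 426131) (nat_lit 3) (.e (nat_lit 204829) (nat_lit 18) (.e (nat_lit 57688) (nat_lit 156) .nil)))))) (.g (nat_lit 1) (.e (nat_lit 155149) (nat_lit 0) .nil) .nil)))) (.nd (nat_lit 9) 
(.lf (nat_lit 496094) (.g (nat_lit 2456) (.e (nat_lit 163905) (nat_lit 12) (.e (nat_lit 426542) (nat_lit 29) (.e (nat_lit 352313) (nat_lit 23) (.e (nat_lit 98313) (nat_lit 9) (.e (nat_lit 335986) (nat_lit 1) (.e (nat_lit 57927) (nat_lit 282) .nil)))))) (.g (nat_lit 1) (.e (nat_lit 154875) (nat_lit 0) .nil) .nil))) 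
(.lf (nat_lit 496606) (.g (nat_lit 2279) (.e (nat_lit 163907) (nat_lit 12) (.e (nat_lit 426481) (nat_lit 27) (.e (nat_lit 336389) (nat_lit 27) (.e (nat_lit 426308) (nat_lit 12) (.e (nat_lit 475175) (nat_lit 24) (.e (nat_lit 516119) (nat_lit 1) (.e (nat_lit 164325) (nat_lit 230) .nil))))))) (.g (nat_lit 1) (.e (nat_lit 155836) (nat_lit 0) .nil) .nil))))))) 
(.nd (nat_lit 6) (.nd (nat_lit 7) (.nd (nat_lit 8) (.nd (nat_lit 9) 
(.lf (nat_lit 495678) (.g (nat_lit 2329) (.e (nat_lit 163904) (nat_lit 12) (.e (nat_lit 426555) (nat_lit 32) (.e (nat_lit 376869) (nat_lit 23) (.e (nat_lit 98313) (nat_lit 9) (.e (nat_lit 335986) (nat_lit 1) (.e (nat_lit 57927) (nat_lit 282) .nil)))))) (.g (nat_lit 1) (.e (nat_lit 154142) (nat_lit 0) .nil) .nil))) 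
(.lf (nat_lit 496190) (.g (nat_lit 2292) (.e (nat_lit 163905) (nat_lit 12) (.e (nat_lit 426564) (nat_lit 34) (.e (nat_lit 393291) (nat_lit 26) (.e (nat_lit 475177) (nat_lit 24) (.e (nat_lit 516115) (nat_lit 1) (.e (nat_lit 164332) (nat_lit 230) .nil)))))) (.g (nat_lit 1) (.e (nat_lit 154988) (nat_lit 0) .nil) .nil)))) (.nd (nat_lit 9) 
(.lf (nat_lit 495934) (.g (nat_lit 1747) (.e (nat_lit 163905) (nat_lit 12) (.e (nat_lit 426437) (nat_lit 18) (.e (nat_lit 98381) (nat_lit 31) (.e (nat_lit 466954) (nat_lit 11) (.e (nat_lit 335996) (nat_lit 1) (.e (nat_lit 57692) (nat_lit 156) .nil)))))) (.g (nat_lit 1) (.e (nat_lit 154615) (nat_lit 0) .nil) .nil))) 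
(.lf (nat_lit 496446) (.g (nat_lit 1948) (.e (nat_lit 163906) (nat_lit 12) (.e (nat_lit 426436) (nat_lit 18) (.e (nat_lit 98380) (nat_lit 31) (.e (nat_lit 466954) (nat_lit 11) (.e (nat_lit 335988) (nat_lit 1) (.e (nat_lit 57692) (nat_lit 156) .nil)))))) (.g (nat_lit 1) (.e (nat_lit 155400) (nat_lit 0) .nil) .nil))))) (.nd (nat_lit 8) (.nd (nat_lit 9) 
(.lf (nat_lit 495806) (.g (nat_lit 3439) (.e (nat_lit 163904) (nat_lit 12) (.e (nat_lit 426566) (nat_lit 34) (.e (nat_lit 393294) (nat_lit 26) (.e (nat_lit 475177) (nat_lit 24) (.e (nat_lit 516117) (nat_lit 1) (.e (nat_lit 164322) (nat_lit 230) .nil)))))) (.g (nat_lit 1) (.e (nat_lit 154273) (nat_lit 0) .nil) .nil))) 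
(.lf (nat_lit 496318) (.g (nat_lit 2932) (.e (nat_lit 163905) (nat_lit 12) (.e (nat_lit 426567) (nat_lit 34) (.e (nat_lit 393294) (nat_lit 26) (.e (nat_lit 475177) (nat_lit 24) (.e (nat_lit 516118) (nat_lit 1) (.e (nat_lit 164332) (nat_lit 230) .nil)))))) (.g (nat_lit 1) (.e (nat_lit 155116) (nat_lit 0) .nil) .nil)))) (.nd (nat_lit 9) 
(.lf (nat_lit 496062) (.g (nat_lit 3140) (.e (nat_lit 163905) (nat_lit 12) (.e (nat_lit 426509) (nat_lit 27) (.e (nat_lit 336412) (nat_lit 27) (.e (nat_lit 426306) (nat_lit 12) (.e (nat_lit 475177) (nat_lit 24) (.e (nat_lit 516118) (nat_lit 1) (.e (nat_lit 164332) (nat_lit 230) .nil))))))) (.g (nat_lit 1) (.e (nat_lit 154840) (nat_lit 0) .nil) .nil))) 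
(.lf (nat_lit 496574) (.g (nat_lit 2958) (.e (nat_lit 163907) (nat_lit 12) (.e (nat_lit 426478) (nat_lit 27) (.e (nat_lit 336389) (nat_lit 27) (.e (nat_lit 426308) (nat_lit 12) (.e (nat_lit 475179) (nat_lit 24) (.e (nat_lit 516119) (nat_lit 1) (.e (nat_lit 164325) (nat_lit 230) .nil))))))) (.g (nat_lit 1) (.e (nat_lit 155799) (nat_lit 0) .nil) .nil)))))) 
(.nd (nat_lit 7) (.nd (nat_lit 8) (.nd (nat_lit 9) 
(.lf (nat_lit 495742) (.g (nat_lit 2661) (.e (nat_lit 163904) (nat_lit 12) (.e (nat_lit 426566) (nat_lit 34) (.e (nat_lit 393286) (nat_lit 25) (.e (nat_lit 458789) (nat_lit 23) (.e (nat_lit 532503) (nat_lit 1) (.e (nat_lit 57688) (nat_lit 156) .nil)))))) (.g (nat_lit 1) (.e (nat_lit 154208) (nat_lit 0) .nil) .nil))) 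
(.lf (nat_lit 496254) (.g (nat_lit 2786) (.e (nat_lit 163905) (nat_lit 12) (.e (nat_lit 426566) (nat_lit 34) (.e (nat_lit 393290) (nat_lit 26) (.e (nat_lit 475179) (nat_lit 24) (.e (nat_lit 516119) (nat_lit 1) (.e (nat_lit 164325) (nat_lit 230) .nil)))))) (.g (nat_lit 1) (.e (nat_lit 155052) (nat_lit 0) .nil) .nil)))) (.nd (nat_lit 9) 
(.lf (nat_lit 495998) (.g (nat_lit 2372) (.e (nat_lit 163905) (nat_lit 12) (.e (nat_lit 426479) (nat_lit 27) (.e (nat_lit 336432) (nat_lit 30) (.e (nat_lit 450580) (nat_lit 5) (.e (nat_lit 532501) (nat_lit 1) (.e (nat_lit 57685) (nat_lit 156) .nil)))))) (.g (nat_lit 1) (.e (nat_lit 154681) (nat_lit 0) .nil) .nil))) 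
(.lf (nat_lit 496510) (.g (nat_lit 2708) (.e (nat_lit 163907) (nat_lit 12) (.e (nat_lit 426428) (nat_lit 17) (.e (nat_lit 90170) (nat_lit 13) (.e (nat_lit 172106) (nat_lit 10) (.e (nat_lit 434200) (nat_lit 18) .nil))))) (.g (nat_lit 0) (.e (nat_lit 155729) (nat_lit 0) .nil) .nil))))) (.nd (nat_lit 8) (.nd (nat_lit 9) 
(.lf (nat_lit 495870) (.g (nat_lit 2110) (.e (nat_lit 163905) (nat_lit 12) (.e (nat_lit 426428) (nat_lit 17) (.e (nat_lit 90170) (nat_lit 13) (.e (nat_lit 172113) (nat_lit 10) (.e (nat_lit 434200) (nat_lit 18) .nil))))) (.g (nat_lit 0) (.e (nat_lit 154548) (nat_lit 0) .nil) .nil))) 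
(.lf (nat_lit 496382) (.g (nat_lit 1793) (.e (nat_lit 163905) (nat_lit 12) (.e (nat_lit 426568) (nat_lit 34) (.e (nat_lit 393283) (nat_lit 24) (.e (nat_lit 434232) (nat_lit 23) (.e (nat_lit 532503) (nat_lit 1) (.e (nat_lit 57685) (nat_lit 156) .nil)))))) (.g (nat_lit 1) (.e (nat_lit 155181) (nat_lit 0) .nil) .nil)))) (.nd (nat_lit 9) 
(.lf (nat_lit 496126) (.g (nat_lit 1196) (.e (nat_lit 163905) (nat_lit 12) (.e (nat_lit 426544) (nat_lit 30) (.e (nat_lit 360467) (nat_lit 3) (.e (nat_lit 516199) (nat_lit 26) .nil)))) (.g (nat_lit 0) (.e (nat_lit 154908) (nat_lit 0) .nil) .nil))) 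
(.lf (nat_lit 496638) (.g (nat_lit 1476) (.e (nat_lit 163907) (nat_lit 12) (.e (nat_lit 426555) (nat_lit 32) (.e (nat_lit 376865) (nat_lit 22) (.e (nat_lit 90159) (nat_lit 11) .nil)))) (.g (nat_lit 0) (.e (nat_lit 155879) (nat_lit 0) .nil) .nil)))))))))))) 
(.nd (nat_lit 1) (.nd (nat_lit 2) (.nd (nat_lit 3) (.nd (nat_lit 4) (.nd (nat_lit 5) 
(.nd (nat_lit 6) (.nd (nat_lit 7) (.nd (nat_lit 8) (.nd (nat_lit 9) 
(.lf (nat_lit 495617) (.g (nat_lit 2929) (.e (nat_lit 163903) (nat_lit 12) (.e (nat_lit 426568) (nat_lit 34) (.e (nat_lit 393286) (nat_lit 25) (.e (nat_lit 458789) (nat_lit 23) (.e (nat_lit 532502) (nat_lit 1) (.e (nat_lit 57686) (nat_lit 156) .nil)))))) (.g (nat_lit 1) (.e (nat_lit 154039) (nat_lit 0) .nil) .nil))) 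
(.lf (nat_lit 496129) (.g (nat_lit 2350) (.e (nat_lit 163905) (nat_lit 12) (.e (nat_lit 426544) (nat_lit 30) (.e (nat_lit 360467) (nat_lit 3) (.e (nat_lit 516199) (nat_lit 26) (.e (nat_lit 335995) (nat_lit 1) (.e (nat_lit 57931) (nat_lit 282) .nil)))))) (.g (nat_lit 1) (.e (nat_lit 154911) (nat_lit 0) .nil) .nil)))) (.nd (nat_lit 9) 
(.lf (nat_lit 495873) (.g (nat_lit 3598) (.e (nat_lit 163905) (nat_lit 12) (.e (nat_lit 426428) (nat_lit 17) (.e (nat_lit 90170) (nat_lit 13) (.e (nat_lit 172121) (nat_lit 13) (.e (nat_lit 483363) (nat_lit 18) (.e (nat_lit 57691) (nat_lit 156) .nil)))))) (.g (nat_lit 1) (.e (nat_lit 154551) (nat_lit 0) .nil) .nil))) 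
(.lf (nat_lit 496385) (.g (nat_lit 2718) (.e (nat_lit 163905) (nat_lit 12) (.e (nat_lit 426568) (nat_lit 34) (.e (nat_lit 393284) (nat_lit 24) (.e (nat_lit 434233) (nat_lit 23) (.e (nat_lit 532504) (nat_lit 1) (.e (nat_lit 57692) (nat_lit 156) .nil)))))) (.g (nat_lit 1) (.e (nat_lit 155184) (nat_lit 0) .nil) .nil))))) (.nd (nat_lit 8) (.nd (nat_lit 9) 
(.lf (nat_lit 495745) (.g (nat_lit 2532) (.e (nat_lit 163904) (nat_lit 12) (.e (nat_lit 426566) (nat_lit 34) (.e (nat_lit 393287) (nat_lit 25) (.e (nat_lit 458789) (nat_lit 23) (.e (nat_lit 532502) (nat_lit 1) (.e (nat_lit 57688) (nat_lit 156) .nil)))))) (.g (nat_lit 1) (.e (nat_lit 154211) (nat_lit 0) .nil) .nil))) 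
(.lf (nat_lit 496257) (.g (nat_lit 3235) (.e (nat_lit 163905) (nat_lit 12) (.e (nat_lit 426566) (nat_lit 34) (.e (nat_lit 393291) (nat_lit 26) (.e (nat_lit 475177) (nat_lit 24) (.e (nat_lit 516119) (nat_lit 1) (.e (nat_lit 164324) (nat_lit 230) .nil)))))) (.g (nat_lit 1) (.e (nat_lit 155055) (nat_lit 0) .nil) .nil)))) (.nd (nat_lit 9) 
(.lf (nat_lit 496001) (.g (nat_lit 2579) (.e (nat_lit 163905) (nat_lit 12) (.e (nat_lit 426479) (nat_lit 27) (.e (nat_lit 336434) (nat_lit 30) (.e (nat_lit 450579) (nat_lit 5) (.e (nat_lit 532501) (nat_lit 1) (.e (nat_lit 57685) (nat_lit 156) .nil)))))) (.g (nat_lit 1) (.e (nat_lit 154684) (nat_lit 0) .nil) .nil))) 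
(.lf (nat_lit 496513) (.g (nat_lit 3067) (.e (nat_lit 163907) (nat_lit 12) (.e (nat_lit 426428) (nat_lit 17) (.e (nat_lit 90170) (nat_lit 13) (.e (nat_lit 172122) (nat_lit 13) (.e (nat_lit 483363) (nat_lit 18) (.e (nat_lit 57692) (nat_lit 156) .nil)))))) (.g (nat_lit 1) (.e (nat_lit 155732) (nat_lit 0) .nil) .nil)))))) (.nd (nat_lit 7) (.nd (nat_lit 8) (.nd (nat_lit 9) 
(.lf (nat_lit 495681) (.g (nat_lit 2745) (.e (nat_lit 163904) (nat_lit 12) (.e (nat_lit 426555) (nat_lit 32) (.e (nat_lit 376869) (nat_lit 23) (.e (nat_lit 98313) (nat_lit 9) (.e (nat_lit 335995) (nat_lit 1) (.e (nat_lit 57931) (nat_lit 282) .nil)))))) (.g (nat_lit 1) (.e (nat_lit 154145) (nat_lit 0) .nil) .nil))) 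
(.lf (nat_lit 496193) (.g (nat_lit 2470) (.e (nat_lit 163905) (nat_lit 12) (.e (nat_lit 426564) (nat_lit 34) (.e (nat_lit 393294) (nat_lit 26) (.e (nat_lit 475177) (nat_lit 24) (.e (nat_lit 516117) (nat_lit 1) .nil))))) (.g (nat_lit 0) (.e (nat_lit 154991) (nat_lit 0) .nil) .nil)))) (.nd (nat_lit 9) 
(.lf (nat_lit 495937) (.g (nat_lit 3129) (.e (nat_lit 163905) (nat_lit 12) (.e (nat_lit 426438) (nat_lit 18) (.e (nat_lit 98358) (nat_lit 26) (.e (nat_lit 426323) (nat_lit 13) (.e (nat_lit 483365) (nat_lit 18) (.e (nat_lit 57688) (nat_lit 156) .nil)))))) (.g (nat_lit 1) (.e (nat_lit 154618) (nat_lit 0) .nil) .nil))) 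
(.lf (nat_lit 496449) (.g (nat_lit 2049) (.e (nat_lit 163906) (nat_lit 12) (.e (nat_lit 426436) (nat_lit 18) (.e (nat_lit 98381) (nat_lit 31) (.e (nat_lit 466954) (nat_lit 11) (.e (nat_lit 335986) (nat_lit 1) (.e (nat_lit 57692) (nat_lit 156) .nil)))))) (.g (nat_lit 1) (.e (nat_lit 155403) (nat_lit 0) .nil) .nil))))) (.nd (nat_lit 8) (.nd (nat_lit 9) 
(.lf (nat_lit 495809) (.g (nat_lit 3120) (.e (nat_lit 163904) (nat_lit 12) (.e (nat_lit 426566) (nat_lit 34) (.e (nat_lit 393294) (nat_lit 26) (.e (nat_lit 475177) (nat_lit 24) (.e (nat_lit 516118) (nat_lit 1) (.e (nat_lit 164322) (nat_lit 230) .nil)))))) (.g (nat_lit 1) (.e (nat_lit 154276) (nat_lit 0) .nil) .nil))) 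
(.lf (nat_lit 496321) (.g (nat_lit 2966) (.e (nat_lit 163905) (nat_lit 12) (.e (nat_lit 426567) (nat_lit 34) (.e (nat_lit 393294) (nat_lit 26) (.e (nat_lit 475179) (nat_lit 24) (.e (nat_lit 516120) (nat_lit 1) (.e (nat_lit 164332) (nat_lit 230) .nil)))))) (.g (nat_lit 1) (.e (nat_lit 155119) (nat_lit 0) .nil) .nil)))) (.nd (nat_lit 9) 
(.lf (nat_lit 496065) (.g (nat_lit 2189) (.e (nat_lit 163905) (nat_lit 12) (.e (nat_lit 426506) (nat_lit 27) (.e (nat_lit 336385) (nat_lit 27) (.e (nat_lit 426188) (nat_lit 9) (.e (nat_lit 426436) (nat_lit 18) (.e (nat_lit 98335) (nat_lit 18) (.e (nat_lit 164330) (nat_lit 230) .nil))))))) (.g (nat_lit 1) (.e (nat_lit 154843) (nat_lit 0) .nil) .nil))) 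
(.lf (nat_lit 496577) (.g (nat_lit 2928) (.e (nat_lit 163907) (nat_lit 12) (.e (nat_lit 426478) (nat_lit 27) (.e (nat_lit 336443) (nat_lit 32) (.e (nat_lit 466981) (nat_lit 23) (.e (nat_lit 204830) (nat_lit 18) (.e (nat_lit 57692) (nat_lit 156) .nil)))))) (.g (nat_lit 1) (.e (nat_lit 155803) (nat_lit 0) .nil) .nil))))))) (.nd (nat_lit 6) (.nd (nat_lit 7) (.nd (nat_lit 8) (.nd (nat_lit 9) 
(.lf (nat_lit 495649) (.g (nat_lit 4192) (.e (nat_lit 163903) (nat_lit 12) (.e (nat_lit 426568) (nat_lit 34) (.e (nat_lit 393294) (nat_lit 26) (.e (nat_lit 475177) (nat_lit 24) (.e (nat_lit 516119) (nat_lit 1) (.e (nat_lit 164326) (nat_lit 230) .nil)))))) (.g (nat_lit 1) (.e (nat_lit 154074) (nat_lit 0) .nil) .nil))) 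
(.lf (nat_lit 496161) (.g (nat_lit 1764) (.e (nat_lit 163905) (nat_lit 12) (.e (nat_lit 426555) (nat_lit 32) (.e (nat_lit 376865) (nat_lit 22) (.e (nat_lit 90158) (nat_lit 11) (.e (nat_lit 24578) (nat_lit 0) .nil))))) (.g (nat_lit 0) (.e (nat_lit 154954) (nat_lit 0) .nil) .nil)))) (.nd (nat_lit 9) 
(.lf (nat_lit 495905) (.g (nat_lit 2475) (.e (nat_lit 163905) (nat_lit 12) (.e (nat_lit 426434) (nat_lit 18) (.e (nat_lit 98365) (nat_lit 26) (.e (nat_lit 426325) (nat_lit 13) (.e (nat_lit 483363) (nat_lit 18) (.e (nat_lit 57692) (nat_lit 156) .nil)))))) (.g (nat_lit 1) (.e (nat_lit 154584) (nat_lit 0) .nil) .nil))) 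
(.lf (nat_lit 496417) (.g (nat_lit 3780) (.e (nat_lit 163905) (nat_lit 12) (.e (nat_lit 426568) (nat_lit 34) (.e (nat_lit 393294) (nat_lit 26) (.e (nat_lit 475179) (nat_lit 24) (.e (nat_lit 516117) (nat_lit 1) (.e (nat_lit 164332) (nat_lit 230) .nil)))))) (.g (nat_lit 1) (.e (nat_lit 155216) (nat_lit 0) .nil) .nil))))) (.nd (nat_lit 8) (.nd (nat_lit 9) 
(.lf (nat_lit 495777) (.g (nat_lit 3459) (.e (nat_lit 163904) (nat_lit 12) (.e (nat_lit 426566) (nat_lit 34) (.e (nat_lit 393291) (nat_lit 26) (.e (nat_lit 475179) (nat_lit 24) (.e (nat_lit 516117) (nat_lit 1) (.e (nat_lit 164322) (nat_lit 230) .nil)))))) (.g (nat_lit 1) (.e (nat_lit 154244) (nat_lit 0) .nil) .nil))) 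
(.lf (nat_lit 496289) (.g (nat_lit 3181) (.e (nat_lit 163905) (nat_lit 12) (.e (nat_lit 426566) (nat_lit 34) (.e (nat_lit 393295) (nat_lit 26) (.e (nat_lit 475179) (nat_lit 24) (.e (nat_lit 516115) (nat_lit 1) (.e (nat_lit 164325) (nat_lit 230) .nil)))))) (.g (nat_lit 1) (.e (nat_lit 155087) (nat_lit 0) .nil) .nil)))) (.nd (nat_lit 9) 
(.lf (nat_lit 496033) (.g (nat_lit 3114) (.e (nat_lit 163905) (nat_lit 12) (.e (nat_lit 426482) (nat_lit 27) (.e (nat_lit 336388) (nat_lit 27) (.e (nat_lit 426190) (nat_lit 9) (.e (nat_lit 426436) (nat_lit 18) (.e (nat_lit 98335) (nat_lit 18) (.e (nat_lit 164330) (nat_lit 230) .nil))))))) (.g (nat_lit 1) (.e (nat_lit 154792) (nat_lit 0) .nil) .nil))) 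
(.lf (nat_lit 496545) (.g (nat_lit 2899) (.e (nat_lit 163907) (nat_lit 12) (.e (nat_lit 426436) (nat_lit 18) (.e (nat_lit 98380) (nat_lit 31) (.e (nat_lit 466954) (nat_lit 11) (.e (nat_lit 335996) (nat_lit 1) (.e (nat_lit 57692) (nat_lit 156) .nil)))))) (.g (nat_lit 1) (.e (nat_lit 155769) (nat_lit 0) .nil) .nil)))))) (.nd (nat_lit 7) (.nd (nat_lit 8) (.nd (nat_lit 9) 
(.lf (nat_lit 495713) (.g (nat_lit 1080) (.e (nat_lit 163904) (nat_lit 12) (.e (nat_lit 426566) (nat_lit 34) (.e (nat_lit 393270) (nat_lit 23) (.e (nat_lit 426438) (nat_lit 18) .nil)))) (.g (nat_lit 0) (.e (nat_lit 154178) (nat_lit 0) .nil) .nil))) 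
(.lf (nat_lit 496225) (.g (nat_lit 2855) (.e (nat_lit 163905) (nat_lit 12) (.e (nat_lit 426566) (nat_lit 34) (.e (nat_lit 393272) (nat_lit 23) (.e (nat_lit 426438) (nat_lit 18) (.e (nat_lit 98334) (nat_lit 18) (.e (nat_lit 164332) (nat_lit 230) .nil)))))) (.g (nat_lit 1) (.e (nat_lit 155023) (nat_lit 0) .nil) .nil)))) (.nd (nat_lit 9) 
(.lf (nat_lit 495969) (.g (nat_lit 2548) (.e (nat_lit 163905) (nat_lit 12) (.e (nat_lit 426478) (nat_lit 27) (.e (nat_lit 336386) (nat_lit 27) (.e (nat_lit 426306) (nat_lit 12) (.e (nat_lit 475177) (nat_lit 24) (.e (nat_lit 516120) (nat_lit 1) (.e (nat_lit 164330) (nat_lit 230) .nil))))))) (.g (nat_lit 1) (.e (nat_lit 154652) (nat_lit 0) .nil) .nil))) 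
(.lf (nat_lit 496481) (.g (nat_lit 2932) (.e (nat_lit 163906) (nat_lit 12) (.e (nat_lit 426566) (nat_lit 34) (.e (nat_lit 393291) (nat_lit 26) (.e (nat_lit 475177) (nat_lit 24) (.e (nat_lit 516119) (nat_lit 1) (.e (nat_lit 164325) (nat_lit 230) .nil)))))) (.g (nat_lit 1) (.e (nat_lit 155436) (nat_lit 0) .nil) .nil))))) (.nd (nat_lit 8) (.nd (nat_lit 9) 
(.lf (nat_lit 495841) (.g (nat_lit 2357) (.e (nat_lit 163904) (nat_lit 12) (.e (nat_lit 426568) (nat_lit 34) (.e (nat_lit 393271) (nat_lit 23) (.e (nat_lit 426131) (nat_lit 3) (.e (nat_lit 204829) (nat_lit 18) (.e (nat_lit 57688) (nat_lit 156) .nil)))))) (.g (nat_lit 1) (.e (nat_lit 154312) (nat_lit 0) .nil) .nil))) 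
(.lf (nat_lit 496353) (.g (nat_lit 2511) (.e (nat_lit 163905) (nat_lit 12) (.e (nat_lit 426568) (nat_lit 34) (.e (nat_lit 393271) (nat_lit 23) (.e (nat_lit 426131) (nat_lit 3) (.e (nat_lit 204831) (nat_lit 18) (.e (nat_lit 57685) (nat_lit 156) .nil)))))) (.g (nat_lit 1) (.e (nat_lit 155152) (nat_lit 0) .nil) .nil)))) (.nd (nat_lit 9) 
(.lf (nat_lit 496097) (.g (nat_lit 2612) (.e (nat_lit 163905) (nat_lit 12) (.e (nat_lit 426542) (nat_lit 29) (.e (nat_lit 352313) (nat_lit 23) (.e (nat_lit 98313) (nat_lit 9) (.e (nat_lit 335988) (nat_lit 1) (.e (nat_lit 57927) (nat_lit 282) .nil)))))) (.g (nat_lit 1) (.e (nat_lit 154878) (nat_lit 0) .nil) .nil))) 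
(.lf (nat_lit 496609) (.g (nat_lit 4123) (.e (nat_lit 163907) (nat_lit 12) (.e (nat_lit 426481) (nat_lit 27) (.e (nat_lit 336389) (nat_lit 27) (.e (nat_lit 426308) (nat_lit 12) (.e (nat_lit 475179) (nat_lit 24) (.e (nat_lit 516115) (nat_lit 1) (.e (nat_lit 164325) (nat_lit 230) .nil))))))) (.g (nat_lit 1) (.e (nat_lit 155839) (nat_lit 0) .nil) .nil)))))))) 
(.nd (nat_lit 5) (.nd (nat_lit 6) (.nd (nat_lit 7) (.nd (nat_lit 8) (.nd (nat_lit 9) 
(.lf (nat_lit 495633) (.g (nat_lit 2359) (.e (nat_lit 163903) (nat_lit 12) (.e (nat_lit 426568) (nat_lit 34) (.e (nat_lit 393292) (nat_lit 26) (.e (nat_lit 475177) (nat_lit 24) (.e (nat_lit 516119) (nat_lit 1) (.e (nat_lit 164325) (nat_lit 230) .nil)))))) (.g (nat_lit 1) (.e (nat_lit 154057) (nat_lit 0) .nil) .nil))) 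
(.lf (nat_lit 496145) (.g (nat_lit 1639) (.e (nat_lit 163905) (nat_lit 12) (.e (nat_lit 426555) (nat_lit 32) (.e (nat_lit 376862) (nat_lit 22) (.e (nat_lit 90158) (nat_lit 11) (.e (nat_lit 24578) (nat_lit 0) .nil))))) (.g (nat_lit 0) (.e (nat_lit 154934) (nat_lit 0) .nil) .nil)))) (.nd (nat_lit 9) 
(.lf (nat_lit 495889) (.g (nat_lit 1623) (.e (nat_lit 163905) (nat_lit 12) (.e (nat_lit 426428) (nat_lit 17) (.e (nat_lit 90176) (nat_lit 15) (.e (nat_lit 188421) (nat_lit 11) (.e (nat_lit 335996) (nat_lit 1) .nil))))) (.g (nat_lit 0) (.e (nat_lit 154568) (nat_lit 0) .nil) .nil))) 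
(.lf (nat_lit 496401) (.g (nat_lit 3484) (.e (nat_lit 163905) (nat_lit 12) (.e (nat_lit 426568) (nat_lit 34) (.e (nat_lit 393291) (nat_lit 26) (.e (nat_lit 475179) (nat_lit 24) (.e (nat_lit 516117) (nat_lit 1) (.e (nat_lit 164332) (nat_lit 230) .nil)))))) (.g (nat_lit 1) (.e (nat_lit 155200) (nat_lit 0) .nil) .nil))))) (.nd (nat_lit 8) (.nd (nat_lit 9) 
(.lf (nat_lit 495761) (.g (nat_lit 2869) (.e (nat_lit 163904) (nat_lit 12) (.e (nat_lit 426566) (nat_lit 34) (.e (nat_lit 393291) (nat_lit 26) (.e (nat_lit 475177) (nat_lit 24) (.e (nat_lit 516118) (nat_lit 1) (.e (nat_lit 164322) (nat_lit 230) .nil)))))) (.g (nat_lit 1) (.e (nat_lit 154228) (nat_lit 0) .nil) .nil))) 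
(.lf (nat_lit 496273) (.g (nat_lit 3194) (.e (nat_lit 163905) (nat_lit 12) (.e (nat_lit 426566) (nat_lit 34) (.e (nat_lit 393294) (nat_lit 26) (.e (nat_lit 475176) (nat_lit 24) (.e (nat_lit 516115) (nat_lit 1) (.e (nat_lit 164325) (nat_lit 230) .nil)))))) (.g (nat_lit 1) (.e (nat_lit 155071) (nat_lit 0) .nil) .nil)))) (.nd (nat_lit 9) 
(.lf (nat_lit 496017) (.g (nat_lit 2014) (.e (nat_lit 163905) (nat_lit 12) (.e (nat_lit 426480) (nat_lit 27) (.e (nat_lit 336388) (nat_lit 27) (.e (nat_lit 426306) (nat_lit 12) (.e (nat_lit 475177) (nat_lit 24) (.e (nat_lit 516117) (nat_lit 1) (.e (nat_lit 164330) (nat_lit 230) .nil))))))) (.g (nat_lit 1) (.e (nat_lit 154700) (nat_lit 0) .nil) .nil))) 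
(.lf (nat_lit 496529) (.g (nat_lit 1484) (.e (nat_lit 163907) (nat_lit 12) (.e (nat_lit 426436) (nat_lit 18) (.e (nat_lit 98358) (nat_lit 26) (.e (nat_lit 426322) (nat_lit 13) .nil)))) (.g (nat_lit 0) (.e (nat_lit 155751) (nat_lit 0) .nil) .nil)))))) (.nd (nat_lit 7) (.nd (nat_lit 8) (.nd (nat_lit 9) 
(.lf (nat_lit 495697) (.g (nat_lit 3206) (.e (nat_lit 163904) (nat_lit 12) (.e (nat_lit 426566) (nat_lit 34) (.e (nat_lit 393268) (nat_lit 23) (.e (nat_lit 426436) (nat_lit 18) (.e (nat_lit 98335) (nat_lit 18) (.e (nat_lit 164325) (nat_lit 230) .nil)))))) (.g (nat_lit 1) (.e (nat_lit 154162) (nat_lit 0) .nil) .nil))) 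
(.lf (nat_lit 496209) (.g (nat_lit 2963) (.e (nat_lit 163905) (nat_lit 12) (.e (nat_lit 426566) (nat_lit 34) (.e (nat_lit 393271) (nat_lit 23) (.e (nat_lit 426131) (nat_lit 3) (.e (nat_lit 204831) (nat_lit 18) (.e (nat_lit 57688) (nat_lit 156) .nil)))))) (.g (nat_lit 1) (.e (nat_lit 155007) (nat_lit 0) .nil) .nil)))) (.nd (nat_lit 9) 
(.lf (nat_lit 495953) (.g (nat_lit 2635) (.e (nat_lit 163905) (nat_lit 12) (.e (nat_lit 426438) (nat_lit 18) (.e (nat_lit 98380) (nat_lit 31) (.e (nat_lit 466954) (nat_lit 11) (.e (nat_lit 335994) (nat_lit 1) (.e (nat_lit 57691) (nat_lit 156) .nil)))))) (.g (nat_lit 1) (.e (nat_lit 154636) (nat_lit 0) .nil) .nil))) 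
(.lf (nat_lit 496465) (.g (nat_lit 2557) (.e (nat_lit 163906) (nat_lit 12) (.e (nat_lit 426438) (nat_lit 18) (.e (nat_lit 98381) (nat_lit 31) (.e (nat_lit 466954) (nat_lit 11) (.e (nat_lit 335996) (nat_lit 1) (.e (nat_lit 57692) (nat_lit 156) .nil)))))) (.g (nat_lit 1) (.e (nat_lit 155419) (nat_lit 0) .nil) .nil))))) (.nd (nat_lit 8) (.nd (nat_lit 9) 
(.lf (nat_lit 495825) (.g (nat_lit 2885) (.e (nat_lit 163904) (nat_lit 12) (.e (nat_lit 426566) (nat_lit 34) (.e (nat_lit 393294) (nat_lit 26) (.e (nat_lit 475178) (nat_lit 24) (.e (nat_lit 516117) (nat_lit 1) (.e (nat_lit 164329) (nat_lit 230) .nil)))))) (.g (nat_lit 1) (.e (nat_lit 154292) (nat_lit 0) .nil) .nil))) 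
(.lf (nat_lit 496337) (.g (nat_lit 2962) (.e (nat_lit 163905) (nat_lit 12) (.e (nat_lit 426568) (nat_lit 34) (.e (nat_lit 393268) (nat_lit 23) (.e (nat_lit 426436) (nat_lit 18) (.e (nat_lit 98335) (nat_lit 18) (.e (nat_lit 164330) (nat_lit 230) .nil)))))) (.g (nat_lit 1) (.e (nat_lit 155136) (nat_lit 0) .nil) .nil)))) (.nd (nat_lit 9) 
(.lf (nat_lit 496081) (.g (nat_lit 3360) (.e (nat_lit 163905) (nat_lit 12) (.e (nat_lit 426530) (nat_lit 27) (.e (nat_lit 336390) (nat_lit 27) (.e (nat_lit 426308) (nat_lit 12) (.e (nat_lit 475177) (nat_lit 24) (.e (nat_lit 516115) (nat_lit 1) (.e (nat_lit 164332) (nat_lit 230) .nil))))))) (.g (nat_lit 1) (.e (nat_lit 154859) (nat_lit 0) .nil) .nil))) 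
(.lf (nat_lit 496593) (.g (nat_lit 1911) (.e (nat_lit 163907) (nat_lit 12) (.e (nat_lit 426479) (nat_lit 27) (.e (nat_lit 336434) (nat_lit 30) (.e (nat_lit 450579) (nat_lit 5) (.e (nat_lit 532504) (nat_lit 1) (.e (nat_lit 57685) (nat_lit 156) .nil)))))) (.g (nat_lit 1) (.e (nat_lit 155819) (nat_lit 0) .nil) .nil))))))) (.nd (nat_lit 6) (.nd (nat_lit 7) (.nd (nat_lit 8) (.nd (nat_lit 9) 
(.lf (nat_lit 495665) (.g (nat_lit 2635) (.e (nat_lit 163904) (nat_lit 12) (.e (nat_lit 426555) (nat_lit 32) (.e (nat_lit 376867) (nat_lit 23) (.e (nat_lit 98313) (nat_lit 9) (.e (nat_lit 335986) (nat_lit 1) (.e (nat_lit 57926) (nat_lit 282) .nil)))))) (.g (nat_lit 1) (.e (nat_lit 154129) (nat_lit 0) .nil) .nil))) 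
(.lf (nat_lit 496177) (.g (nat_lit 2522) (.e (nat_lit 163905) (nat_lit 12) (.e (nat_lit 426555) (nat_lit 32) (.e (nat_lit 376867) (nat_lit 23) (.e (nat_lit 98317) (nat_lit 9) (.e (nat_lit 335996) (nat_lit 1) (.e (nat_lit 57930) (nat_lit 282) .nil)))))) (.g (nat_lit 1) (.e (nat_lit 154974) (nat_lit 0) .nil) .nil)))) (.nd (nat_lit 9) 
(.lf (nat_lit 495921) (.g (nat_lit 1717) (.e (nat_lit 163905) (nat_lit 12) (.e (nat_lit 426436) (nat_lit 18) (.e (nat_lit 98380) (nat_lit 31) (.e (nat_lit 466954) (nat_lit 11) (.e (nat_lit 335993) (nat_lit 1) .nil))))) (.g (nat_lit 0) (.e (nat_lit 154602) (nat_lit 0) .nil) .nil))) 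
(.lf (nat_lit 496433) (.g (nat_lit 1446) (.e (nat_lit 163906) (nat_lit 12) (.e (nat_lit 426428) (nat_lit 17) (.e (nat_lit 90185) (nat_lit 17) (.e (nat_lit 237623) (nat_lit 13) .nil)))) (.g (nat_lit 0) (.e (nat_lit 155385) (nat_lit 0) .nil) .nil))))) (.nd (nat_lit 8) (.nd (nat_lit 9) 
(.lf (nat_lit 495793) (.g (nat_lit 3159) (.e (nat_lit 163904) (nat_lit 12) (.e (nat_lit 426566) (nat_lit 34) (.e (nat_lit 393293) (nat_lit 26) (.e (nat_lit 475178) (nat_lit 24) (.e (nat_lit 516115) (nat_lit 1) (.e (nat_lit 164325) (nat_lit 230) .nil)))))) (.g (nat_lit 1) (.e (nat_lit 154260) (nat_lit 0) .nil) .nil))) 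
(.lf (nat_lit 496305) (.g (nat_lit 2784) (.e (nat_lit 163905) (nat_lit 12) (.e (nat_lit 426566) (nat_lit 34) (.e (nat_lit 393296) (nat_lit 26) (.e (nat_lit 475179) (nat_lit 24) (.e (nat_lit 516115) (nat_lit 1) (.e (nat_lit 164325) (nat_lit 230) .nil)))))) (.g (nat_lit 1) (.e (nat_lit 155103) (nat_lit 0) .nil) .nil)))) (.nd (nat_lit 9) 
(.lf (nat_lit 496049) (.g (nat_lit 1849) (.e (nat_lit 163905) (nat_lit 12) (.e (nat_lit 426481) (nat_lit 27) (.e (nat_lit 336388) (nat_lit 27) (.e (nat_lit 426188) (nat_lit 9) (.e (nat_lit 426436) (nat_lit 18) (.e (nat_lit 98333) (nat_lit 18) (.e (nat_lit 164332) (nat_lit 230) .nil))))))) (.g (nat_lit 1) (.e (nat_lit 154827) (nat_lit 0) .nil) .nil))) 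
(.lf (nat_lit 496561) (.g (nat_lit 1414) (.e (nat_lit 163907) (nat_lit 12) (.e (nat_lit 426438) (nat_lit 18) (.e (nat_lit 98358) (nat_lit 26) (.e (nat_lit 426323) (nat_lit 13) (.e (nat_lit 483363) (nat_lit 18) .nil))))) (.g (nat_lit 0) (.e (nat_lit 155786) (nat_lit 0) .nil) .nil)))))) (.nd (nat_lit 7) (.nd (nat_lit 8) (.nd (nat_lit 9) 
(.lf (nat_lit 495729) (.g (nat_lit 3157) (.e (nat_lit 163904) (nat_lit 12) (.e (nat_lit 426566) (nat_lit 34) (.e (nat_lit 393271) (nat_lit 23) (.e (nat_lit 426438) (nat_lit 18) (.e (nat_lit 98333) (nat_lit 18) (.e (nat_lit 164325) (nat_lit 230) .nil)))))) (.g (nat_lit 1) (.e (nat_lit 154195) (nat_lit 0) .nil) .nil))) 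
(.lf (nat_lit 496241) (.g (nat_lit 2975) (.e (nat_lit 163905) (nat_lit 12) (.e (nat_lit 426566) (nat_lit 34) (.e (nat_lit 393282) (nat_lit 24) (.e (nat_lit 434231) (nat_lit 23) (.e (nat_lit 532499) (nat_lit 1) (.e (nat_lit 57692) (nat_lit 156) .nil)))))) (.g (nat_lit 1) (.e (nat_lit 155039) (nat_lit 0) .nil) .nil)))) (.nd (nat_lit 9) 
(.lf (nat_lit 495985) (.g (nat_lit 2498) (.e (nat_lit 163905) (nat_lit 12) (.e (nat_lit 426478) (nat_lit 27) (.e (nat_lit 336443) (nat_lit 32) (.e (nat_lit 466979) (nat_lit 23) (.e (nat_lit 204830) (nat_lit 18) (.e (nat_lit 57692) (nat_lit 156) .nil)))))) (.g (nat_lit 1) (.e (nat_lit 154668) (nat_lit 0) .nil) .nil))) 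
(.lf (nat_lit 496497) (.g (nat_lit 4986) (.e (nat_lit 163907) (nat_lit 12) (.e (nat_lit 426131) (nat_lit 3) (.e (nat_lit 204869) (nat_lit 29) (.e (nat_lit 360474) (nat_lit 8) (.e (nat_lit 557091) (nat_lit 12) .nil))))) (.g (nat_lit 0) (.e (nat_lit 155473) (nat_lit 0) .nil) .nil))))) (.nd (nat_lit 8) (.nd (nat_lit 9) 
(.lf (nat_lit 495857) (.g (nat_lit 1995) (.e (nat_lit 163905) (nat_lit 12) (.e (nat_lit 426320) (nat_lit 12) (.e (nat_lit 475209) (nat_lit 41) (.e (nat_lit 712753) (nat_lit 30) (.e (nat_lit 458496) (nat_lit 0) (.e (nat_lit 5587) (nat_lit 310) .nil)))))) (.g (nat_lit 1) (.e (nat_lit 154345) (nat_lit 0) .nil) .nil))) 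
(.lf (nat_lit 496369) (.g (nat_lit 3577) (.e (nat_lit 163905) (nat_lit 12) (.e (nat_lit 426568) (nat_lit 34) (.e (nat_lit 393281) (nat_lit 23) (.e (nat_lit 426133) (nat_lit 3) (.e (nat_lit 204829) (nat_lit 18) (.e (nat_lit 57691) (nat_lit 156) .nil)))))) (.g (nat_lit 1) (.e (nat_lit 155168) (nat_lit 0) .nil) .nil)))) (.nd (nat_lit 9) 
(.lf (nat_lit 496113) (.g (nat_lit 3266) (.e (nat_lit 163905) (nat_lit 12) (.e (nat_lit 426542) (nat_lit 29) (.e (nat_lit 352315) (nat_lit 23) (.e (nat_lit 98313) (nat_lit 9) (.e (nat_lit 335988) (nat_lit 1) (.e (nat_lit 57926) (nat_lit 282) .nil)))))) (.g (nat_lit 1) (.e (nat_lit 154894) (nat_lit 0) .nil) .nil))) 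
(.lf (nat_lit 496625) (.g (nat_lit 2876) (.e (nat_lit 163907) (nat_lit 12) (.e (nat_lit 426555) (nat_lit 32) (.e (nat_lit 376862) (nat_lit 22) (.e (nat_lit 90158) (nat_lit 11) (.e (nat_lit 24597) (nat_lit 1) (.e (nat_lit 57927) (nat_lit 282) .nil)))))) (.g (nat_lit 1) (.e (nat_lit 155860) (nat_lit 0) .nil) .nil))))))))) 
(.nd (nat_lit 4) (.nd (nat_lit 5) (.nd (nat_lit 6) (.nd (nat_lit 7) (.nd (nat_lit 8) 
(.nd (nat_lit 9) 
(.lf (nat_lit 495625) (.g (nat_lit 3447) (.e (nat_lit 163903) (nat_lit 12) (.e (nat_lit 426568) (nat_lit 34) (.e (nat_lit 393291) (nat_lit 26) (.e (nat_lit 475177) (nat_lit 24) (.e (nat_lit 516118) (nat_lit 1) (.e (nat_lit 164325) (nat_lit 230) .nil)))))) (.g (nat_lit 1) (.e (nat_lit 154049) (nat_lit 0) .nil) .nil))) 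
(.lf (nat_lit 496137) (.g (nat_lit 3069) (.e (nat_lit 163905) (nat_lit 12) (.e (nat_lit 426546) (nat_lit 30) (.e (nat_lit 360466) (nat_lit 3) (.e (nat_lit 516195) (nat_lit 26) (.e (nat_lit 335996) (nat_lit 1) (.e (nat_lit 57929) (nat_lit 282) .nil)))))) (.g (nat_lit 1) (.e (nat_lit 154920) (nat_lit 0) .nil) .nil)))) (.nd (nat_lit 9) 
(.lf (nat_lit 495881) (.g (nat_lit 4165) (.e (nat_lit 163905) (nat_lit 12) (.e (nat_lit 426428) (nat_lit 17) (.e (nat_lit 90170) (nat_lit 13) (.e (nat_lit 172123) (nat_lit 13) (.e (nat_lit 483363) (nat_lit 18) (.e (nat_lit 57688) (nat_lit 156) .nil)))))) (.g (nat_lit 1) (.e (nat_lit 154559) (nat_lit 0) .nil) .nil))) 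
(.lf (nat_lit 496393) (.g (nat_lit 3180) (.e (nat_lit 163905) (nat_lit 12) (.e (nat_lit 426568) (nat_lit 34) (.e (nat_lit 393290) (nat_lit 26) (.e (nat_lit 475179) (nat_lit 24) (.e (nat_lit 516117) (nat_lit 1) (.e (nat_lit 164332) (nat_lit 230) .nil)))))) (.g (nat_lit 1) (.e (nat_lit 155192) (nat_lit 0) .nil) .nil))))) (.nd (nat_lit 8) (.nd (nat_lit 9) 
(.lf (nat_lit 495753) (.g (nat_lit 1793) (.e (nat_lit 163904) (nat_lit 12) (.e (nat_lit 426566) (nat_lit 34) (.e (nat_lit 393291) (nat_lit 26) (.e (nat_lit 475177) (nat_lit 24) (.e (nat_lit 516114) (nat_lit 1) (.e (nat_lit 164329) (nat_lit 230) .nil)))))) (.g (nat_lit 1) (.e (nat_lit 154220) (nat_lit 0) .nil) .nil))) 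
(.lf (nat_lit 496265) (.g (nat_lit 2827) (.e (nat_lit 163905) (nat_lit 12) (.e (nat_lit 426566) (nat_lit 34) (.e (nat_lit 393292) (nat_lit 26) (.e (nat_lit 475179) (nat_lit 24) (.e (nat_lit 516117) (nat_lit 1) (.e (nat_lit 164332) (nat_lit 230) .nil)))))) (.g (nat_lit 1) (.e (nat_lit 155063) (nat_lit 0) .nil) .nil)))) (.nd (nat_lit 9) 
(.lf (nat_lit 496009) (.g (nat_lit 2644) (.e (nat_lit 163905) (nat_lit 12) (.e (nat_lit 426480) (nat_lit 27) (.e (nat_lit 336385) (nat_lit 27) (.e (nat_lit 426188) (nat_lit 9) (.e (nat_lit 426436) (nat_lit 18) (.e (nat_lit 98335) (nat_lit 18) (.e (nat_lit 164330) (nat_lit 230) .nil))))))) (.g (nat_lit 1) (.e (nat_lit 154692) (nat_lit 0) .nil) .nil))) 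
(.lf (nat_lit 496521) (.g (nat_lit 1157) (.e (nat_lit 163907) (nat_lit 12) (.e (nat_lit 426428) (nat_lit 17) (.e (nat_lit 90178) (nat_lit 15) (.e (nat_lit 188422) (nat_lit 11) .nil)))) (.g (nat_lit 0) (.e (nat_lit 155740) (nat_lit 0) .nil) .nil)))))) (.nd (nat_lit 7) (.nd (nat_lit 8) (.nd (nat_lit 9) 
(.lf (nat_lit 495689) (.g (nat_lit 309) (.e (nat_lit 163904) (nat_lit 12) (.e (nat_lit 426566) (nat_lit 34) (.e (nat_lit 393268) (nat_lit 23) .nil))) (.g (nat_lit 0) (.e (nat_lit 154154) (nat_lit 0) .nil) .nil))) 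
(.lf (nat_lit 496201) (.g (nat_lit 1764) (.e (nat_lit 163905) (nat_lit 12) (.e (nat_lit 426566) (nat_lit 34) (.e (nat_lit 393270) (nat_lit 23) (.e (nat_lit 426434) (nat_lit 18) (.e (nat_lit 98333) (nat_lit 18) (.e (nat_lit 164325) (nat_lit 230) .nil)))))) (.g (nat_lit 1) (.e (nat_lit 154999) (nat_lit 0) .nil) .nil)))) (.nd (nat_lit 9) 
(.lf (nat_lit 495945) (.g (nat_lit 3162) (.e (nat_lit 163905) (nat_lit 12) (.e (nat_lit 426438) (nat_lit 18) (.e (nat_lit 98370) (nat_lit 28) (.e (nat_lit 442390) (nat_lit 11) (.e (nat_lit 335986) (nat_lit 1) (.e (nat_lit 57688) (nat_lit 156) .nil)))))) (.g (nat_lit 1) (.e (nat_lit 154626) (nat_lit 0) .nil) .nil))) 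
(.lf (nat_lit 496457) (.g (nat_lit 2693) (.e (nat_lit 163906) (nat_lit 12) (.e (nat_lit 426438) (nat_lit 18) (.e (nat_lit 98370) (nat_lit 28) (.e (nat_lit 442385) (nat_lit 11) (.e (nat_lit 335996) (nat_lit 1) (.e (nat_lit 57692) (nat_lit 156) .nil)))))) (.g (nat_lit 1) (.e (nat_lit 155411) (nat_lit 0) .nil) .nil))))) (.nd (nat_lit 8) (.nd (nat_lit 9) 
(.lf (nat_lit 495817) (.g (nat_lit 3329) (.e (nat_lit 163904) (nat_lit 12) (.e (nat_lit 426566) (nat_lit 34) (.e (nat_lit 393294) (nat_lit 26) (.e (nat_lit 475177) (nat_lit 24) (.e (nat_lit 516119) (nat_lit 1) (.e (nat_lit 164324) (nat_lit 230) .nil)))))) (.g (nat_lit 1) (.e (nat_lit 154284) (nat_lit 0) .nil) .nil))) 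
(.lf (nat_lit 496329) (.g (nat_lit 3433) (.e (nat_lit 163905) (nat_lit 12) (.e (nat_lit 426568) (nat_lit 34) (.e (nat_lit 393267) (nat_lit 23) (.e (nat_lit 426436) (nat_lit 18) (.e (nat_lit 98335) (nat_lit 18) (.e (nat_lit 164330) (nat_lit 230) .nil)))))) (.g (nat_lit 1) (.e (nat_lit 155128) (nat_lit 0) .nil) .nil)))) (.nd (nat_lit 9) 
(.lf (nat_lit 496073) (.g (nat_lit 3010) (.e (nat_lit 163905) (nat_lit 12) (.e (nat_lit 426530) (nat_lit 27) (.e (nat_lit 336390) (nat_lit 27) (.e (nat_lit 426190) (nat_lit 9) (.e (nat_lit 426436) (nat_lit 18) (.e (nat_lit 98333) (nat_lit 18) (.e (nat_lit 164332) (nat_lit 230) .nil))))))) (.g (nat_lit 1) (.e (nat_lit 154851) (nat_lit 0) .nil) .nil))) 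
(.lf (nat_lit 496585) (.g (nat_lit 1783) (.e (nat_lit 163907) (nat_lit 12) (.e (nat_lit 426479) (nat_lit 27) (.e (nat_lit 336430) (nat_lit 29) (.e (nat_lit 442427) (nat_lit 23) (.e (nat_lit 204830) (nat_lit 18) (.e (nat_lit 57689) (nat_lit 156) .nil)))))) (.g (nat_lit 1) (.e (nat_lit 155811) (nat_lit 0) .nil) .nil))))))) (.nd (nat_lit 6) (.nd (nat_lit 7) (.nd (nat_lit 8) (.nd (nat_lit 9) 
(.lf (nat_lit 495657) (.g (nat_lit 2601) (.e (nat_lit 163904) (nat_lit 12) (.e (nat_lit 426436) (nat_lit 18) (.e (nat_lit 98358) (nat_lit 26) (.e (nat_lit 426323) (nat_lit 13) (.e (nat_lit 483363) (nat_lit 18) (.e (nat_lit 57688) (nat_lit 156) .nil)))))) (.g (nat_lit 1) (.e (nat_lit 154097) (nat_lit 0) .nil) .nil))) 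
(.lf (nat_lit 496169) (.g (nat_lit 3012) (.e (nat_lit 163905) (nat_lit 12) (.e (nat_lit 426555) (nat_lit 32) (.e (nat_lit 376865) (nat_lit 22) (.e (nat_lit 90160) (nat_lit 11) (.e (nat_lit 24597) (nat_lit 1) (.e (nat_lit 57927) (nat_lit 282) .nil)))))) (.g (nat_lit 1) (.e (nat_lit 154966) (nat_lit 0) .nil) .nil)))) (.nd (nat_lit 9) 
(.lf (nat_lit 495913) (.g (nat_lit 2535) (.e (nat_lit 163905) (nat_lit 12) (.e (nat_lit 426436) (nat_lit 18) (.e (nat_lit 98358) (nat_lit 26) (.e (nat_lit 426323) (nat_lit 13) (.e (nat_lit 483365) (nat_lit 18) (.e (nat_lit 57691) (nat_lit 156) .nil)))))) (.g (nat_lit 1) (.e (nat_lit 154592) (nat_lit 0) .nil) .nil))) 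
(.lf (nat_lit 496425) (.g (nat_lit 5015) (.e (nat_lit 163906) (nat_lit 12) (.e (nat_lit 426131) (nat_lit 3) (.e (nat_lit 204869) (nat_lit 29) (.e (nat_lit 360475) (nat_lit 8) (.e (nat_lit 557091) (nat_lit 12) .nil))))) (.g (nat_lit 0) (.e (nat_lit 155232) (nat_lit 0) .nil) .nil))))) (.nd (nat_lit 8) (.nd (nat_lit 9) 
(.lf (nat_lit 495785) (.g (nat_lit 3368) (.e (nat_lit 163904) (nat_lit 12) (.e (nat_lit 426566) (nat_lit 34) (.e (nat_lit 393291) (nat_lit 26) (.e (nat_lit 475179) (nat_lit 24) (.e (nat_lit 516120) (nat_lit 1) (.e (nat_lit 164330) (nat_lit 230) .nil)))))) (.g (nat_lit 1) (.e (nat_lit 154252) (nat_lit 0) .nil) .nil))) 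
(.lf (nat_lit 496297) (.g (nat_lit 4035) (.e (nat_lit 163905) (nat_lit 12) (.e (nat_lit 426566) (nat_lit 34) (.e (nat_lit 393296) (nat_lit 26) (.e (nat_lit 475178) (nat_lit 24) (.e (nat_lit 516115) (nat_lit 1) (.e (nat_lit 164325) (nat_lit 230) .nil)))))) (.g (nat_lit 1) (.e (nat_lit 155095) (nat_lit 0) .nil) .nil)))) (.nd (nat_lit 9) 
(.lf (nat_lit 496041) (.g (nat_lit 2723) (.e (nat_lit 163905) (nat_lit 12) (.e (nat_lit 426481) (nat_lit 27) (.e (nat_lit 336386) (nat_lit 27) (.e (nat_lit 426306) (nat_lit 12) (.e (nat_lit 475177) (nat_lit 24) (.e (nat_lit 516120) (nat_lit 1) (.e (nat_lit 164330) (nat_lit 230) .nil))))))) (.g (nat_lit 1) (.e (nat_lit 154819) (nat_lit 0) .nil) .nil))) 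
(.lf (nat_lit 496553) (.g (nat_lit 3090) (.e (nat_lit 163907) (nat_lit 12) (.e (nat_lit 426436) (nat_lit 18) (.e (nat_lit 98381) (nat_lit 31) (.e (nat_lit 466954) (nat_lit 11) (.e (nat_lit 335996) (nat_lit 1) (.e (nat_lit 57691) (nat_lit 156) .nil)))))) (.g (nat_lit 1) (.e (nat_lit 155777) (nat_lit 0) .nil) .nil)))))) (.nd (nat_lit 7) (.nd (nat_lit 8) (.nd (nat_lit 9) 
(.lf (nat_lit 495721) (.g (nat_lit 3619) (.e (nat_lit 163904) (nat_lit 12) (.e (nat_lit 426566) (nat_lit 34) (.e (nat_lit 393271) (nat_lit 23) (.e (nat_lit 426436) (nat_lit 18) (.e (nat_lit 98333) (nat_lit 18) (.e (nat_lit 164325) (nat_lit 230) .nil)))))) (.g (nat_lit 1) (.e (nat_lit 154187) (nat_lit 0) .nil) .nil))) 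
(.lf (nat_lit 496233) (.g (nat_lit 2361) (.e (nat_lit 163905) (nat_lit 12) (.e (nat_lit 426566) (nat_lit 34) (.e (nat_lit 393273) (nat_lit 23) (.e (nat_lit 426436) (nat_lit 18) (.e (nat_lit 98333) (nat_lit 18) (.e (nat_lit 164325) (nat_lit 230) .nil)))))) (.g (nat_lit 1) (.e (nat_lit 155031) (nat_lit 0) .nil) .nil)))) (.nd (nat_lit 9) 
(.lf (nat_lit 495977) (.g (nat_lit 2653) (.e (nat_lit 163905) (nat_lit 12) (.e (nat_lit 426478) (nat_lit 27) (.e (nat_lit 336389) (nat_lit 27) (.e (nat_lit 426308) (nat_lit 12) (.e (nat_lit 475177) (nat_lit 24) (.e (nat_lit 516120) (nat_lit 1) (.e (nat_lit 164332) (nat_lit 230) .nil))))))) (.g (nat_lit 1) (.e (nat_lit 154660) (nat_lit 0) .nil) .nil))) 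
(.lf (nat_lit 496489) (.g (nat_lit 1391) (.e (nat_lit 163906) (nat_lit 12) (.e (nat_lit 426566) (nat_lit 34) (.e (nat_lit 393296) (nat_lit 26) (.e (nat_lit 475178) (nat_lit 24) .nil)))) (.g (nat_lit 0) (.e (nat_lit 155444) (nat_lit 0) .nil) .nil))))) (.nd (nat_lit 8) (.nd (nat_lit 9) 
(.lf (nat_lit 495849) (.g (nat_lit 2111) (.e (nat_lit 163905) (nat_lit 12) (.e (nat_lit 426294) (nat_lit 11) (.e (nat_lit 458804) (nat_lit 38) (.e (nat_lit 655380) (nat_lit 6) (.e (nat_lit 188453) (nat_lit 24) (.e (nat_lit 229681) (nat_lit 244) .nil)))))) (.g (nat_lit 1) (.e (nat_lit 154333) (nat_lit 0) .nil) .nil))) 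
(.lf (nat_lit 496361) (.g (nat_lit 1630) (.e (nat_lit 163905) (nat_lit 12) (.e (nat_lit 426568) (nat_lit 34) (.e (nat_lit 393271) (nat_lit 23) (.e (nat_lit 426437) (nat_lit 18) .nil)))) (.g (nat_lit 0) (.e (nat_lit 155160) (nat_lit 0) .nil) .nil)))) (.nd (nat_lit 9) 
(.lf (nat_lit 496105) (.g (nat_lit 2806) (.e (nat_lit 163905) (nat_lit 12) (.e (nat_lit 426542) (nat_lit 29) (.e (nat_lit 352313) (nat_lit 23) (.e (nat_lit 98317) (nat_lit 9) (.e (nat_lit 335996) (nat_lit 1) (.e (nat_lit 57931) (nat_lit 282) .nil)))))) (.g (nat_lit 1) (.e (nat_lit 154886) (nat_lit 0) .nil) .nil))) 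
(.lf (nat_lit 496617) (.g (nat_lit 4036) (.e (nat_lit 163907) (nat_lit 12) (.e (nat_lit 426544) (nat_lit 30) (.e (nat_lit 360467) (nat_lit 3) (.e (nat_lit 516195) (nat_lit 26) (.e (nat_lit 335988) (nat_lit 1) (.e (nat_lit 57927) (nat_lit 282) .nil)))))) (.g (nat_lit 1) (.e (nat_lit 155847) (nat_lit 0) .nil) .nil)))))))) 
(.nd (nat_lit 5) (.nd (nat_lit 6) (.nd (nat_lit 7) (.nd (nat_lit 8) (.nd (nat_lit 9) 
(.lf (nat_lit 495641) (.g (nat_lit 3671) (.e (nat_lit 163903) (nat_lit 12) (.e (nat_lit 426568) (nat_lit 34) (.e (nat_lit 393293) (nat_lit 26) (.e (nat_lit 475179) (nat_lit 24) (.e (nat_lit 516119) (nat_lit 1) (.e (nat_lit 164326) (nat_lit 230) .nil)))))) (.g (nat_lit 1) (.e (nat_lit 154065) (nat_lit 0) .nil) .nil))) 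
(.lf (nat_lit 496153) (.g (nat_lit 2259) (.e (nat_lit 163905) (nat_lit 12) (.e (nat_lit 426555) (nat_lit 32) (.e (nat_lit 376862) (nat_lit 22) (.e (nat_lit 90160) (nat_lit 11) (.e (nat_lit 24580) (nat_lit 0) .nil))))) (.g (nat_lit 0) (.e (nat_lit 154942) (nat_lit 0) .nil) .nil)))) (.nd (nat_lit 9) 
(.lf (nat_lit 495897) (.g (nat_lit 3703) (.e (nat_lit 163905) (nat_lit 12) (.e (nat_lit 426428) (nat_lit 17) (.e (nat_lit 90178) (nat_lit 15) (.e (nat_lit 188421) (nat_lit 11) (.e (nat_lit 335996) (nat_lit 1) (.e (nat_lit 57691) (nat_lit 156) .nil)))))) (.g (nat_lit 1) (.e (nat_lit 154576) (nat_lit 0) .nil) .nil))) 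
(.lf (nat_lit 496409) (.g (nat_lit 2614) (.e (nat_lit 163905) (nat_lit 12) (.e (nat_lit 426568) (nat_lit 34) (.e (nat_lit 393293) (nat_lit 26) (.e (nat_lit 475177) (nat_lit 24) (.e (nat_lit 516120) (nat_lit 1) (.e (nat_lit 164332) (nat_lit 230) .nil)))))) (.g (nat_lit 1) (.e (nat_lit 155208) (nat_lit 0) .nil) .nil))))) (.nd (nat_lit 8) (.nd (nat_lit 9) 
(.lf (nat_lit 495769) (.g (nat_lit 3070) (.e (nat_lit 163904) (nat_lit 12) (.e (nat_lit 426566) (nat_lit 34) (.e (nat_lit 393291) (nat_lit 26) (.e (nat_lit 475177) (nat_lit 24) (.e (nat_lit 516119) (nat_lit 1) (.e (nat_lit 164324) (nat_lit 230) .nil)))))) (.g (nat_lit 1) (.e (nat_lit 154236) (nat_lit 0) .nil) .nil))) 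
(.lf (nat_lit 496281) (.g (nat_lit 2868) (.e (nat_lit 163905) (nat_lit 12) (.e (nat_lit 426566) (nat_lit 34) (.e (nat_lit 393294) (nat_lit 26) (.e (nat_lit 475179) (nat_lit 24) (.e (nat_lit 516120) (nat_lit 1) (.e (nat_lit 164330) (nat_lit 230) .nil)))))) (.g (nat_lit 1) (.e (nat_lit 155079) (nat_lit 0) .nil) .nil)))) (.nd (nat_lit 9) 
(.lf (nat_lit 496025) (.g (nat_lit 4119) (.e (nat_lit 163905) (nat_lit 12) (.e (nat_lit 426482) (nat_lit 27) (.e (nat_lit 336386) (nat_lit 27) (.e (nat_lit 426188) (nat_lit 9) (.e (nat_lit 426436) (nat_lit 18) (.e (nat_lit 98335) (nat_lit 18) (.e (nat_lit 164330) (nat_lit 230) .nil))))))) (.g (nat_lit 1) (.e (nat_lit 154741) (nat_lit 0) .nil) .nil))) 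
(.lf (nat_lit 496537) (.g (nat_lit 2972) (.e (nat_lit 163907) (nat_lit 12) (.e (nat_lit 426436) (nat_lit 18) (.e (nat_lit 98370) (nat_lit 28) (.e (nat_lit 442385) (nat_lit 11) (.e (nat_lit 335996) (nat_lit 1) (.e (nat_lit 57692) (nat_lit 156) .nil)))))) (.g (nat_lit 1) (.e (nat_lit 155761) (nat_lit 0) .nil) .nil)))))) (.nd (nat_lit 7) (.nd (nat_lit 8) (.nd (nat_lit 9) 
(.lf (nat_lit 495705) (.g (nat_lit 2943) (.e (nat_lit 163904) (nat_lit 12) (.e (nat_lit 426566) (nat_lit 34) (.e (nat_lit 393268) (nat_lit 23) (.e (nat_lit 426438) (nat_lit 18) (.e (nat_lit 98335) (nat_lit 18) (.e (nat_lit 164325) (nat_lit 230) .nil)))))) (.g (nat_lit 1) (.e (nat_lit 154170) (nat_lit 0) .nil) .nil))) 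
(.lf (nat_lit 496217) (.g (nat_lit 2746) (.e (nat_lit 163905) (nat_lit 12) (.e (nat_lit 426566) (nat_lit 34) (.e (nat_lit 393271) (nat_lit 23) (.e (nat_lit 426438) (nat_lit 18) (.e (nat_lit 98335) (nat_lit 18) (.e (nat_lit 164325) (nat_lit 230) .nil)))))) (.g (nat_lit 1) (.e (nat_lit 155015) (nat_lit 0) .nil) .nil)))) (.nd (nat_lit 9) 
(.lf (nat_lit 495961) (.g (nat_lit 3232) (.e (nat_lit 163905) (nat_lit 12) (.e (nat_lit 426438) (nat_lit 18) (.e (nat_lit 98381) (nat_lit 31) (.e (nat_lit 466954) (nat_lit 11) (.e (nat_lit 335996) (nat_lit 1) (.e (nat_lit 57691) (nat_lit 156) .nil)))))) (.g (nat_lit 1) (.e (nat_lit 154644) (nat_lit 0) .nil) .nil))) 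
(.lf (nat_lit 496473) (.g (nat_lit 1751) (.e (nat_lit 163906) (nat_lit 12) (.e (nat_lit 426555) (nat_lit 32) (.e (nat_lit 376865) (nat_lit 22) (.e (nat_lit 90157) (nat_lit 11) .nil)))) (.g (nat_lit 0) (.e (nat_lit 155428) (nat_lit 0) .nil) .nil))))) (.nd (nat_lit 8) (.nd (nat_lit 9) 
(.lf (nat_lit 495833) (.g (nat_lit 3430) (.e (nat_lit 163904) (nat_lit 12) (.e (nat_lit 426566) (nat_lit 34) (.e (nat_lit 393294) (nat_lit 26) (.e (nat_lit 475179) (nat_lit 24) (.e (nat_lit 516119) (nat_lit 1) (.e (nat_lit 164326) (nat_lit 230) .nil)))))) (.g (nat_lit 1) (.e (nat_lit 154300) (nat_lit 0) .nil) .nil))) 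
(.lf (nat_lit 496345) (.g (nat_lit 2960) (.e (nat_lit 163905) (nat_lit 12) (.e (nat_lit 426568) (nat_lit 34) (.e (nat_lit 393270) (nat_lit 23) (.e (nat_lit 426436) (nat_lit 18) (.e (nat_lit 98334) (nat_lit 18) (.e (nat_lit 164332) (nat_lit 230) .nil)))))) (.g (nat_lit 1) (.e (nat_lit 155144) (nat_lit 0) .nil) .nil)))) (.nd (nat_lit 9) 
(.lf (nat_lit 496089) (.g (nat_lit 483) (.e (nat_lit 163905) (nat_lit 12) (.e (nat_lit 426542) (nat_lit 29) (.e (nat_lit 352310) (nat_lit 22) .nil))) (.g (nat_lit 0) (.e (nat_lit 154870) (nat_lit 0) .nil) .nil))) 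
(.lf (nat_lit 496601) (.g (nat_lit 2035) (.e (nat_lit 163907) (nat_lit 12) (.e (nat_lit 426481) (nat_lit 27) (.e (nat_lit 336386) (nat_lit 27) (.e (nat_lit 426188) (nat_lit 9) (.e (nat_lit 426436) (nat_lit 18) (.e (nat_lit 98335) (nat_lit 18) (.e (nat_lit 164325) (nat_lit 230) .nil))))))) (.g (nat_lit 1) (.e (nat_lit 155831) (nat_lit 0) .nil) .nil))))))) 
(.nd (nat_lit 6) (.nd (nat_lit 7) (.nd (nat_lit 8) (.nd (nat_lit 9) 
(.lf (nat_lit 495673) (.g (nat_lit 2546) (.e (nat_lit 163904) (nat_lit 12) (.e (nat_lit 426555) (nat_lit 32) (.e (nat_lit 376867) (nat_lit 23) (.e (nat_lit 98317) (nat_lit 9) (.e (nat_lit 335995) (nat_lit 1) (.e (nat_lit 57931) (nat_lit 282) .nil)))))) (.g (nat_lit 1) (.e (nat_lit 154137) (nat_lit 0) .nil) .nil))) 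
(.lf (nat_lit 496185) (.g (nat_lit 1047) (.e (nat_lit 163905) (nat_lit 12) (.e (nat_lit 426555) (nat_lit 32) (.e (nat_lit 376869) (nat_lit 23) (.e (nat_lit 98316) (nat_lit 9) (.e (nat_lit 335995) (nat_lit 1) .nil))))) (.g (nat_lit 0) (.e (nat_lit 154982) (nat_lit 0) .nil) .nil)))) (.nd (nat_lit 9) 
(.lf (nat_lit 495929) (.g (nat_lit 2952) (.e (nat_lit 163905) (nat_lit 12) (.e (nat_lit 426437) (nat_lit 18) (.e (nat_lit 98365) (nat_lit 26) (.e (nat_lit 426325) (nat_lit 13) (.e (nat_lit 483363) (nat_lit 18) (.e (nat_lit 57688) (nat_lit 156) .nil)))))) (.g (nat_lit 1) (.e (nat_lit 154610) (nat_lit 0) .nil) .nil))) 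
(.lf (nat_lit 496441) (.g (nat_lit 1428) (.e (nat_lit 163906) (nat_lit 12) (.e (nat_lit 426436) (nat_lit 18) (.e (nat_lit 98369) (nat_lit 28) (.e (nat_lit 442390) (nat_lit 11) .nil)))) (.g (nat_lit 0) (.e (nat_lit 155395) (nat_lit 0) .nil) .nil))))) (.nd (nat_lit 8) (.nd (nat_lit 9) 
(.lf (nat_lit 495801) (.g (nat_lit 1173) (.e (nat_lit 163904) (nat_lit 12) (.e (nat_lit 426566) (nat_lit 34) (.e (nat_lit 393294) (nat_lit 26) (.e (nat_lit 475177) (nat_lit 24) .nil)))) (.g (nat_lit 0) (.e (nat_lit 154268) (nat_lit 0) .nil) .nil))) 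
(.lf (nat_lit 496313) (.g (nat_lit 1582) (.e (nat_lit 163905) (nat_lit 12) (.e (nat_lit 426567) (nat_lit 34) (.e (nat_lit 393291) (nat_lit 26) (.e (nat_lit 475177) (nat_lit 24) (.e (nat_lit 516117) (nat_lit 1) .nil))))) (.g (nat_lit 0) (.e (nat_lit 155111) (nat_lit 0) .nil) .nil)))) (.nd (nat_lit 9) 
(.lf (nat_lit 496057) (.g (nat_lit 2774) (.e (nat_lit 163905) (nat_lit 12) (.e (nat_lit 426509) (nat_lit 27) (.e (nat_lit 336389) (nat_lit 27) (.e (nat_lit 426308) (nat_lit 12) (.e (nat_lit 475177) (nat_lit 24) (.e (nat_lit 516117) (nat_lit 1) (.e (nat_lit 164330) (nat_lit 230) .nil))))))) (.g (nat_lit 1) (.e (nat_lit 154835) (nat_lit 0) .nil) .nil))) 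
(.lf (nat_lit 496569) (.g (nat_lit 2126) (.e (nat_lit 163907) (nat_lit 12) (.e (nat_lit 426438) (nat_lit 18) (.e (nat_lit 98381) (nat_lit 31) (.e (nat_lit 466954) (nat_lit 11) (.e (nat_lit 335993) (nat_lit 1) (.e (nat_lit 57692) (nat_lit 156) .nil)))))) (.g (nat_lit 1) (.e (nat_lit 155794) (nat_lit 0) .nil) .nil)))))) (.nd (nat_lit 7) (.nd (nat_lit 8) (.nd (nat_lit 9) 
(.lf (nat_lit 495737) (.g (nat_lit 1212) (.e (nat_lit 163904) (nat_lit 12) (.e (nat_lit 426566) (nat_lit 34) (.e (nat_lit 393271) (nat_lit 23) (.e (nat_lit 433920) (nat_lit 18) .nil)))) (.g (nat_lit 0) (.e (nat_lit 154203) (nat_lit 0) .nil) .nil))) 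
(.lf (nat_lit 496249) (.g (nat_lit 2533) (.e (nat_lit 163905) (nat_lit 12) (.e (nat_lit 426566) (nat_lit 34) (.e (nat_lit 393287) (nat_lit 25) (.e (nat_lit 458789) (nat_lit 23) (.e (nat_lit 532502) (nat_lit 1) (.e (nat_lit 57692) (nat_lit 156) .nil)))))) (.g (nat_lit 1) (.e (nat_lit 155047) (nat_lit 0) .nil) .nil)))) (.nd (nat_lit 9) 
(.lf (nat_lit 495993) (.g (nat_lit 1729) (.e (nat_lit 163905) (nat_lit 12) (.e (nat_lit 426479) (nat_lit 27) (.e (nat_lit 336432) (nat_lit 30) (.e (nat_lit 450579) (nat_lit 5) (.e (nat_lit 532501) (nat_lit 1) (.e (nat_lit 57689) (nat_lit 156) .nil)))))) (.g (nat_lit 1) (.e (nat_lit 154676) (nat_lit 0) .nil) .nil))) 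
(.lf (nat_lit 496505) (.g (nat_lit 2029) (.e (nat_lit 163907) (nat_lit 12) (.e (nat_lit 426320) (nat_lit 12) (.e (nat_lit 475209) (nat_lit 41) (.e (nat_lit 712755) (nat_lit 30) (.e (nat_lit 450563) (nat_lit 0) (.e (nat_lit 7936) (nat_lit 310) .nil)))))) (.g (nat_lit 1) (.e (nat_lit 155515) (nat_lit 0) .nil) .nil))))) (.nd (nat_lit 8) (.nd (nat_lit 9) 
(.lf (nat_lit 495865) (.g (nat_lit 2113) (.e (nat_lit 163905) (nat_lit 12) (.e (nat_lit 426320) (nat_lit 12) (.e (nat_lit 475211) (nat_lit 41) (.e (nat_lit 712752) (nat_lit 29) (.e (nat_lit 442430) (nat_lit 24) (.e (nat_lit 229681) (nat_lit 244) .nil)))))) (.g (nat_lit 1) (.e (nat_lit 154354) (nat_lit 0) .nil) .nil))) 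
(.lf (nat_lit 496377) (.g (nat_lit 2977) (.e (nat_lit 163905) (nat_lit 12) (.e (nat_lit 426568) (nat_lit 34) (.e (nat_lit 393283) (nat_lit 24) (.e (nat_lit 434231) (nat_lit 23) (.e (nat_lit 532500) (nat_lit 1) (.e (nat_lit 57689) (nat_lit 156) .nil)))))) (.g (nat_lit 1) (.e (nat_lit 155176) (nat_lit 0) .nil) .nil)))) (.nd (nat_lit 9) 
(.lf (nat_lit 496121) (.g (nat_lit 3064) (.e (nat_lit 163905) (nat_lit 12) (.e (nat_lit 426542) (nat_lit 29) (.e (nat_lit 352315) (nat_lit 23) (.e (nat_lit 98317) (nat_lit 9) (.e (nat_lit 335995) (nat_lit 1) (.e (nat_lit 57931) (nat_lit 282) .nil)))))) (.g (nat_lit 1) (.e (nat_lit 154902) (nat_lit 0) .nil) .nil))) 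
(.lf (nat_lit 496633) (.g (nat_lit 1725) (.e (nat_lit 163907) (nat_lit 12) (.e (nat_lit 426555) (nat_lit 32) (.e (nat_lit 376865) (nat_lit 22) (.e (nat_lit 90158) (nat_lit 11) (.e (nat_lit 24597) (nat_lit 1) .nil))))) (.g (nat_lit 0) (.e (nat_lit 155874) (nat_lit 0) .nil) .nil)))))))))) 
(.nd (nat_lit 3) (.nd (nat_lit 4) (.nd (nat_lit 5) (.nd (nat_lit 6) (.nd (nat_lit 7) 
(.nd (nat_lit 8) (.nd (nat_lit 9) 
(.lf (nat_lit 495621) (.g (nat_lit 3487) (.e (nat_lit 163903) (nat_lit 12) (.e (nat_lit 426568) (nat_lit 34) (.e (nat_lit 393290) (nat_lit 26) (.e (nat_lit 475179) (nat_lit 24) (.e (nat_lit 516119) (nat_lit 1) (.e (nat_lit 164325) (nat_lit 230) .nil)))))) (.g (nat_lit 1) (.e (nat_lit 154043) (nat_lit 0) .nil) .nil))) 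
(.lf (nat_lit 496133) (.g (nat_lit 2020) (.e (nat_lit 163905) (nat_lit 12) (.e (nat_lit 426546) (nat_lit 30) (.e (nat_lit 360466) (nat_lit 3) (.e (nat_lit 516195) (nat_lit 26) (.e (nat_lit 335987) (nat_lit 1) (.e (nat_lit 57927) (nat_lit 282) .nil)))))) (.g (nat_lit 1) (.e (nat_lit 154916) (nat_lit 0) .nil) .nil)))) (.nd (nat_lit 9) 
(.lf (nat_lit 495877) (.g (nat_lit 3180) (.e (nat_lit 163905) (nat_lit 12) (.e (nat_lit 426428) (nat_lit 17) (.e (nat_lit 90170) (nat_lit 13) (.e (nat_lit 172122) (nat_lit 13) (.e (nat_lit 483363) (nat_lit 18) (.e (nat_lit 57688) (nat_lit 156) .nil)))))) (.g (nat_lit 1) (.e (nat_lit 154555) (nat_lit 0) .nil) .nil))) 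
(.lf (nat_lit 496389) (.g (nat_lit 3592) (.e (nat_lit 163905) (nat_lit 12) (.e (nat_lit 426568) (nat_lit 34) (.e (nat_lit 393286) (nat_lit 25) (.e (nat_lit 458789) (nat_lit 23) (.e (nat_lit 532504) (nat_lit 1) (.e (nat_lit 57691) (nat_lit 156) .nil)))))) (.g (nat_lit 1) (.e (nat_lit 155188) (nat_lit 0) .nil) .nil))))) (.nd (nat_lit 8) (.nd (nat_lit 9) 
(.lf (nat_lit 495749) (.g (nat_lit 2032) (.e (nat_lit 163904) (nat_lit 12) (.e (nat_lit 426566) (nat_lit 34) (.e (nat_lit 393290) (nat_lit 26) (.e (nat_lit 475179) (nat_lit 24) (.e (nat_lit 516117) (nat_lit 1) .nil))))) (.g (nat_lit 0) (.e (nat_lit 154215) (nat_lit 0) .nil) .nil))) 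
(.lf (nat_lit 496261) (.g (nat_lit 745) (.e (nat_lit 163905) (nat_lit 12) (.e (nat_lit 426566) (nat_lit 34) (.e (nat_lit 393292) (nat_lit 26) .nil))) (.g (nat_lit 0) (.e (nat_lit 155059) (nat_lit 0) .nil) .nil)))) (.nd (nat_lit 9) 
(.lf (nat_lit 496005) (.g (nat_lit 2499) (.e (nat_lit 163905) (nat_lit 12) (.e (nat_lit 426479) (nat_lit 27) (.e (nat_lit 336434) (nat_lit 30) (.e (nat_lit 450579) (nat_lit 5) (.e (nat_lit 532504) (nat_lit 1) (.e (nat_lit 57685) (nat_lit 156) .nil)))))) (.g (nat_lit 1) (.e (nat_lit 154688) (nat_lit 0) .nil) .nil))) 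
(.lf (nat_lit 496517) (.g (nat_lit 879) (.e (nat_lit 163907) (nat_lit 12) (.e (nat_lit 426428) (nat_lit 17) (.e (nat_lit 90176) (nat_lit 15) (.e (nat_lit 188423) (nat_lit 11) .nil)))) (.g (nat_lit 0) (.e (nat_lit 155736) (nat_lit 0) .nil) .nil)))))) (.nd (nat_lit 7) (.nd (nat_lit 8) (.nd (nat_lit 9) 
(.lf (nat_lit 495685) (.g (nat_lit 2544) (.e (nat_lit 163904) (nat_lit 12) (.e (nat_lit 426555) (nat_lit 32) (.e (nat_lit 376869) (nat_lit 23) (.e (nat_lit 98317) (nat_lit 9) (.e (nat_lit 335988) (nat_lit 1) (.e (nat_lit 57927) (nat_lit 282) .nil)))))) (.g (nat_lit 1) (.e (nat_lit 154149) (nat_lit 0) .nil) .nil))) 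
(.lf (nat_lit 496197) (.g (nat_lit 3187) (.e (nat_lit 163905) (nat_lit 12) (.e (nat_lit 426566) (nat_lit 34) (.e (nat_lit 393268) (nat_lit 23) (.e (nat_lit 426438) (nat_lit 18) (.e (nat_lit 98333) (nat_lit 18) (.e (nat_lit 164325) (nat_lit 230) .nil)))))) (.g (nat_lit 1) (.e (nat_lit 154995) (nat_lit 0) .nil) .nil)))) (.nd (nat_lit 9) 
(.lf (nat_lit 495941) (.g (nat_lit 3085) (.e (nat_lit 163905) (nat_lit 12) (.e (nat_lit 426438) (nat_lit 18) (.e (nat_lit 98363) (nat_lit 26) (.e (nat_lit 426321) (nat_lit 13) (.e (nat_lit 483363) (nat_lit 18) (.e (nat_lit 57688) (nat_lit 156) .nil)))))) (.g (nat_lit 1) (.e (nat_lit 154622) (nat_lit 0) .nil) .nil))) 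
(.lf (nat_lit 496453) (.g (nat_lit 1260) (.e (nat_lit 163906) (nat_lit 12) (.e (nat_lit 426437) (nat_lit 18) (.e (nat_lit 98381) (nat_lit 31) (.e (nat_lit 466954) (nat_lit 11) (.e (nat_lit 335994) (nat_lit 1) .nil))))) (.g (nat_lit 0) (.e (nat_lit 155407) (nat_lit 0) .nil) .nil))))) (.nd (nat_lit 8) (.nd (nat_lit 9) 
(.lf (nat_lit 495813) (.g (nat_lit 2763) (.e (nat_lit 163904) (nat_lit 12) (.e (nat_lit 426566) (nat_lit 34) (.e (nat_lit 393294) (nat_lit 26) (.e (nat_lit 475177) (nat_lit 24) (.e (nat_lit 516118) (nat_lit 1) (.e (nat_lit 164329) (nat_lit 230) .nil)))))) (.g (nat_lit 1) (.e (nat_lit 154280) (nat_lit 0) .nil) .nil))) 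
(.lf (nat_lit 496325) (.g (nat_lit 2694) (.e (nat_lit 163905) (nat_lit 12) (.e (nat_lit 426568) (nat_lit 34) (.e (nat_lit 393266) (nat_lit 23) (.e (nat_lit 426438) (nat_lit 18) (.e (nat_lit 98335) (nat_lit 18) (.e (nat_lit 164332) (nat_lit 230) .nil)))))) (.g (nat_lit 1) (.e (nat_lit 155124) (nat_lit 0) .nil) .nil)))) (.nd (nat_lit 9) 
(.lf (nat_lit 496069) (.g (nat_lit 2516) (.e (nat_lit 163905) (nat_lit 12) (.e (nat_lit 426507) (nat_lit 27) (.e (nat_lit 336408) (nat_lit 27) (.e (nat_lit 426306) (nat_lit 12) (.e (nat_lit 475177) (nat_lit 24) (.e (nat_lit 516120) (nat_lit 1) (.e (nat_lit 164330) (nat_lit 230) .nil))))))) (.g (nat_lit 1) (.e (nat_lit 154847) (nat_lit 0) .nil) .nil))) 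
(.lf (nat_lit 496581) (.g (nat_lit 1940) (.e (nat_lit 163907) (nat_lit 12) (.e (nat_lit 426479) (nat_lit 27) (.e (nat_lit 336430) (nat_lit 29) (.e (nat_lit 442425) (nat_lit 23) (.e (nat_lit 204830) (nat_lit 18) (.e (nat_lit 57685) (nat_lit 156) .nil)))))) (.g (nat_lit 1) (.e (nat_lit 155807) (nat_lit 0) .nil) .nil))))))) (.nd (nat_lit 6) (.nd (nat_lit 7) (.nd (nat_lit 8) (.nd (nat_lit 9) 
(.lf (nat_lit 495653) (.g (nat_lit 1848) (.e (nat_lit 163903) (nat_lit 12) (.e (nat_lit 426568) (nat_lit 34) (.e (nat_lit 393296) (nat_lit 26) (.e (nat_lit 475179) (nat_lit 24) (.e (nat_lit 516119) (nat_lit 1) .nil))))) (.g (nat_lit 0) (.e (nat_lit 154078) (nat_lit 0) .nil) .nil))) 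
(.lf (nat_lit 496165) (.g (nat_lit 3121) (.e (nat_lit 163905) (nat_lit 12) (.e (nat_lit 426555) (nat_lit 32) (.e (nat_lit 376865) (nat_lit 22) (.e (nat_lit 90158) (nat_lit 11) (.e (nat_lit 24599) (nat_lit 1) (.e (nat_lit 57931) (nat_lit 282) .nil)))))) (.g (nat_lit 1) (.e (nat_lit 154958) (nat_lit 0) .nil) .nil)))) (.nd (nat_lit 9) 
(.lf (nat_lit 495909) (.g (nat_lit 3283) (.e (nat_lit 163905) (nat_lit 12) (.e (nat_lit 426436) (nat_lit 18) (.e (nat_lit 98358) (nat_lit 26) (.e (nat_lit 426323) (nat_lit 13) (.e (nat_lit 483363) (nat_lit 18) (.e (nat_lit 57692) (nat_lit 156) .nil)))))) (.g (nat_lit 1) (.e (nat_lit 154588) (nat_lit 0) .nil) .nil))) 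
(.lf (nat_lit 496421) (.g (nat_lit 588) (.e (nat_lit 163905) (nat_lit 12) (.e (nat_lit 426568) (nat_lit 34) (.e (nat_lit 393296) (nat_lit 26) .nil))) (.g (nat_lit 0) (.e (nat_lit 155220) (nat_lit 0) .nil) .nil))))) (.nd (nat_lit 8) (.nd (nat_lit 9) 
(.lf (nat_lit 495781) (.g (nat_lit 3573) (.e (nat_lit 163904) (nat_lit 12) (.e (nat_lit 426566) (nat_lit 34) (.e (nat_lit 393291) (nat_lit 26) (.e (nat_lit 475179) (nat_lit 24) (.e (nat_lit 516119) (nat_lit 1) (.e (nat_lit 164322) (nat_lit 230) .nil)))))) (.g (nat_lit 1) (.e (nat_lit 154248) (nat_lit 0) .nil) .nil))) 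
(.lf (nat_lit 496293) (.g (nat_lit 1883) (.e (nat_lit 163905) (nat_lit 12) (.e (nat_lit 426566) (nat_lit 34) (.e (nat_lit 393296) (nat_lit 26) (.e (nat_lit 475176) (nat_lit 24) (.e (nat_lit 516118) (nat_lit 1) (.e (nat_lit 164332) (nat_lit 230) .nil)))))) (.g (nat_lit 1) (.e (nat_lit 155091) (nat_lit 0) .nil) .nil)))) (.nd (nat_lit 9) 
(.lf (nat_lit 496037) (.g (nat_lit 2581) (.e (nat_lit 163905) (nat_lit 12) (.e (nat_lit 426481) (nat_lit 27) (.e (nat_lit 336385) (nat_lit 27) (.e (nat_lit 426306) (nat_lit 12) (.e (nat_lit 475177) (nat_lit 24) (.e (nat_lit 516117) (nat_lit 1) (.e (nat_lit 164330) (nat_lit 230) .nil))))))) (.g (nat_lit 1) (.e (nat_lit 154815) (nat_lit 0) .nil) .nil))) 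
(.lf (nat_lit 496549) (.g (nat_lit 2981) (.e (nat_lit 163907) (nat_lit 12) (.e (nat_lit 426436) (nat_lit 18) (.e (nat_lit 98381) (nat_lit 31) (.e (nat_lit 466954) (nat_lit 11) (.e (nat_lit 335988) (nat_lit 1) (.e (nat_lit 57692) (nat_lit 156) .nil)))))) (.g (nat_lit 1) (.e (nat_lit 155773) (nat_lit 0) .nil) .nil)))))) (.nd (nat_lit 7) (.nd (nat_lit 8) (.nd (nat_lit 9) 
(.lf (nat_lit 495717) (.g (nat_lit 1662) (.e (nat_lit 163904) (nat_lit 12) (.e (nat_lit 426566) (nat_lit 34) (.e (nat_lit 393271) (nat_lit 23) (.e (nat_lit 426131) (nat_lit 3) (.e (nat_lit 204831) (nat_lit 18) (.e (nat_lit 57685) (nat_lit 156) .nil)))))) (.g (nat_lit 1) (.e (nat_lit 154183) (nat_lit 0) .nil) .nil))) 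
(.lf (nat_lit 496229) (.g (nat_lit 2289) (.e (nat_lit 163905) (nat_lit 12) (.e (nat_lit 426566) (nat_lit 34) (.e (nat_lit 393273) (nat_lit 23) (.e (nat_lit 426131) (nat_lit 3) (.e (nat_lit 204830) (nat_lit 18) (.e (nat_lit 57689) (nat_lit 156) .nil)))))) (.g (nat_lit 1) (.e (nat_lit 155027) (nat_lit 0) .nil) .nil)))) (.nd (nat_lit 9) 
(.lf (nat_lit 495973) (.g (nat_lit 2753) (.e (nat_lit 163905) (nat_lit 12) (.e (nat_lit 426478) (nat_lit 27) (.e (nat_lit 336389) (nat_lit 27) (.e (nat_lit 426308) (nat_lit 12) (.e (nat_lit 475177) (nat_lit 24) (.e (nat_lit 516115) (nat_lit 1) (.e (nat_lit 164332) (nat_lit 230) .nil))))))) (.g (nat_lit 1) (.e (nat_lit 154656) (nat_lit 0) .nil) .nil))) 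
(.lf (nat_lit 496485) (.g (nat_lit 2286) (.e (nat_lit 163906) (nat_lit 12) (.e (nat_lit 426566) (nat_lit 34) (.e (nat_lit 393294) (nat_lit 26) (.e (nat_lit 475177) (nat_lit 24) (.e (nat_lit 516118) (nat_lit 1) .nil))))) (.g (nat_lit 0) (.e (nat_lit 155440) (nat_lit 0) .nil) .nil))))) (.nd (nat_lit 8) (.nd (nat_lit 9) 
(.lf (nat_lit 495845) (.g (nat_lit 5122) (.e (nat_lit 163905) (nat_lit 12) (.e (nat_lit 426131) (nat_lit 3) (.e (nat_lit 204869) (nat_lit 29) (.e (nat_lit 360474) (nat_lit 8) (.e (nat_lit 557091) (nat_lit 12) .nil))))) (.g (nat_lit 0) (.e (nat_lit 154328) (nat_lit 0) .nil) .nil))) 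
(.lf (nat_lit 496357) (.g (nat_lit 2053) (.e (nat_lit 163905) (nat_lit 12) (.e (nat_lit 426568) (nat_lit 34) (.e (nat_lit 393271) (nat_lit 23) (.e (nat_lit 426434) (nat_lit 18) (.e (nat_lit 98334) (nat_lit 18) (.e (nat_lit 164332) (nat_lit 230) .nil)))))) (.g (nat_lit 1) (.e (nat_lit 155156) (nat_lit 0) .nil) .nil)))) (.nd (nat_lit 9) 
(.lf (nat_lit 496101) (.g (nat_lit 2845) (.e (nat_lit 163905) (nat_lit 12) (.e (nat_lit 426542) (nat_lit 29) (.e (nat_lit 352313) (nat_lit 23) (.e (nat_lit 98313) (nat_lit 9) (.e (nat_lit 335996) (nat_lit 1) (.e (nat_lit 57931) (nat_lit 282) .nil)))))) (.g (nat_lit 1) (.e (nat_lit 154882) (nat_lit 0) .nil) .nil))) 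
(.lf (nat_lit 496613) (.g (nat_lit 2145) (.e (nat_lit 163907) (nat_lit 12) (.e (nat_lit 426506) (nat_lit 27) (.e (nat_lit 336389) (nat_lit 27) (.e (nat_lit 426308) (nat_lit 12) (.e (nat_lit 475179) (nat_lit 24) .nil))))) (.g (nat_lit 0) (.e (nat_lit 155843) (nat_lit 0) .nil) .nil)))))))) (.nd (nat_lit 5) (.nd (nat_lit 6) (.nd (nat_lit 7) (.nd (nat_lit 8) (.nd (nat_lit 9) 
(.lf (nat_lit 495637) (.g (nat_lit 2083) (.e (nat_lit 163903) (nat_lit 12) (.e (nat_lit 426568) (nat_lit 34) (.e (nat_lit 393293) (nat_lit 26) (.e (nat_lit 475177) (nat_lit 24) (.e (nat_lit 516118) (nat_lit 1) (.e (nat_lit 164326) (nat_lit 230) .nil)))))) (.g (nat_lit 1) (.e (nat_lit 154061) (nat_lit 0) .nil) .nil))) 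
(.lf (nat_lit 496149) (.g (nat_lit 2747) (.e (nat_lit 163905) (nat_lit 12) (.e (nat_lit 426555) (nat_lit 32) (.e (nat_lit 376862) (nat_lit 22) (.e (nat_lit 90158) (nat_lit 11) (.e (nat_lit 24598) (nat_lit 1) (.e (nat_lit 57927) (nat_lit 282) .nil)))))) (.g (nat_lit 1) (.e (nat_lit 154938) (nat_lit 0) .nil) .nil)))) (.nd (nat_lit 9) 
(.lf (nat_lit 495893) (.g (nat_lit 1561) (.e (nat_lit 163905) (nat_lit 12) (.e (nat_lit 426428) (nat_lit 17) (.e (nat_lit 90178) (nat_lit 15) (.e (nat_lit 188421) (nat_lit 11) (.e (nat_lit 335987) (nat_lit 1) .nil))))) (.g (nat_lit 0) (.e (nat_lit 154572) (nat_lit 0) .nil) .nil))) 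
(.lf (nat_lit 496405) (.g (nat_lit 2870) (.e (nat_lit 163905) (nat_lit 12) (.e (nat_lit 426568) (nat_lit 34) (.e (nat_lit 393292) (nat_lit 26) (.e (nat_lit 475179) (nat_lit 24) (.e (nat_lit 516117) (nat_lit 1) (.e (nat_lit 164332) (nat_lit 230) .nil)))))) (.g (nat_lit 1) (.e (nat_lit 155204) (nat_lit 0) .nil) .nil))))) (.nd (nat_lit 8) (.nd (nat_lit 9) 
(.lf (nat_lit 495765) (.g (nat_lit 2507) (.e (nat_lit 163904) (nat_lit 12) (.e (nat_lit 426566) (nat_lit 34) (.e (nat_lit 393291) (nat_lit 26) (.e (nat_lit 475177) (nat_lit 24) (.e (nat_lit 516118) (nat_lit 1) (.e (nat_lit 164329) (nat_lit 230) .nil)))))) (.g (nat_lit 1) (.e (nat_lit 154232) (nat_lit 0) .nil) .nil))) 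
(.lf (nat_lit 496277) (.g (nat_lit 3307) (.e (nat_lit 163905) (nat_lit 12) (.e (nat_lit 426566) (nat_lit 34) (.e (nat_lit 393294) (nat_lit 26) (.e (nat_lit 475177) (nat_lit 24) (.e (nat_lit 516119) (nat_lit 1) (.e (nat_lit 164325) (nat_lit 230) .nil)))))) (.g (nat_lit 1) (.e (nat_lit 155075) (nat_lit 0) .nil) .nil)))) (.nd (nat_lit 9) 
(.lf (nat_lit 496021) (.g (nat_lit 2900) (.e (nat_lit 163905) (nat_lit 12) (.e (nat_lit 426482) (nat_lit 27) (.e (nat_lit 336385) (nat_lit 27) (.e (nat_lit 426190) (nat_lit 9) (.e (nat_lit 426436) (nat_lit 18) (.e (nat_lit 98335) (nat_lit 18) (.e (nat_lit 164330) (nat_lit 230) .nil))))))) (.g (nat_lit 1) (.e (nat_lit 154712) (nat_lit 0) .nil) .nil))) 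
(.lf (nat_lit 496533) (.g (nat_lit 3330) (.e (nat_lit 163907) (nat_lit 12) (.e (nat_lit 426436) (nat_lit 18) (.e (nat_lit 98358) (nat_lit 26) (.e (nat_lit 426323) (nat_lit 13) (.e (nat_lit 483365) (nat_lit 18) (.e (nat_lit 57692) (nat_lit 156) .nil)))))) (.g (nat_lit 1) (.e (nat_lit 155755) (nat_lit 0) .nil) .nil)))))) (.nd (nat_lit 7) (.nd (nat_lit 8) (.nd (nat_lit 9) 
(.lf (nat_lit 495701) (.g (nat_lit 3233) (.e (nat_lit 163904) (nat_lit 12) (.e (nat_lit 426566) (nat_lit 34) (.e (nat_lit 393268) (nat_lit 23) (.e (nat_lit 426438) (nat_lit 18) (.e (nat_lit 98333) (nat_lit 18) (.e (nat_lit 164325) (nat_lit 230) .nil)))))) (.g (nat_lit 1) (.e (nat_lit 154166) (nat_lit 0) .nil) .nil))) 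
(.lf (nat_lit 496213) (.g (nat_lit 3551) (.e (nat_lit 163905) (nat_lit 12) (.e (nat_lit 426566) (nat_lit 34) (.e (nat_lit 393271) (nat_lit 23) (.e (nat_lit 426436) (nat_lit 18) (.e (nat_lit 98333) (nat_lit 18) (.e (nat_lit 164325) (nat_lit 230) .nil)))))) (.g (nat_lit 1) (.e (nat_lit 155011) (nat_lit 0) .nil) .nil)))) (.nd (nat_lit 9) 
(.lf (nat_lit 495957) (.g (nat_lit 1788) (.e (nat_lit 163905) (nat_lit 12) (.e (nat_lit 426438) (nat_lit 18) (.e (nat_lit 98381) (nat_lit 31) (.e (nat_lit 466954) (nat_lit 11) (.e (nat_lit 335993) (nat_lit 1) (.e (nat_lit 57692) (nat_lit 156) .nil)))))) (.g (nat_lit 1) (.e (nat_lit 154640) (nat_lit 0) .nil) .nil))) 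
(.lf (nat_lit 496469) (.g (nat_lit 1497) (.e (nat_lit 163906) (nat_lit 12) (.e (nat_lit 426478) (nat_lit 27) (.e (nat_lit 336443) (nat_lit 32) (.e (nat_lit 466981) (nat_lit 23) (.e (nat_lit 204830) (nat_lit 18) (.e (nat_lit 57692) (nat_lit 156) .nil)))))) (.g (nat_lit 1) (.e (nat_lit 155423) (nat_lit 0) .nil) .nil))))) (.nd (nat_lit 8) (.nd (nat_lit 9) 
(.lf (nat_lit 495829) (.g (nat_lit 3457) (.e (nat_lit 163904) (nat_lit 12) (.e (nat_lit 426566) (nat_lit 34) (.e (nat_lit 393294) (nat_lit 26) (.e (nat_lit 475179) (nat_lit 24) (.e (nat_lit 516117) (nat_lit 1) (.e (nat_lit 164329) (nat_lit 230) .nil)))))) (.g (nat_lit 1) (.e (nat_lit 154296) (nat_lit 0) .nil) .nil))) 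
(.lf (nat_lit 496341) (.g (nat_lit 3923) (.e (nat_lit 163905) (nat_lit 12) (.e (nat_lit 426568) (nat_lit 34) (.e (nat_lit 393269) (nat_lit 23) (.e (nat_lit 426436) (nat_lit 18) (.e (nat_lit 98335) (nat_lit 18) (.e (nat_lit 164332) (nat_lit 230) .nil)))))) (.g (nat_lit 1) (.e (nat_lit 155140) (nat_lit 0) .nil) .nil)))) (.nd (nat_lit 9) 
(.lf (nat_lit 496085) (.g (nat_lit 3260) (.e (nat_lit 163905) (nat_lit 12) (.e (nat_lit 426530) (nat_lit 27) (.e (nat_lit 336390) (nat_lit 27) (.e (nat_lit 426308) (nat_lit 12) (.e (nat_lit 475177) (nat_lit 24) (.e (nat_lit 516120) (nat_lit 1) (.e (nat_lit 164332) (nat_lit 230) .nil))))))) (.g (nat_lit 1) (.e (nat_lit 154863) (nat_lit 0) .nil) .nil))) 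
(.lf (nat_lit 496597) (.g (nat_lit 2098) (.e (nat_lit 163907) (nat_lit 12) (.e (nat_lit 426481) (nat_lit 27) (.e (nat_lit 336385) (nat_lit 27) (.e (nat_lit 426200) (nat_lit 9) (.e (nat_lit 426131) (nat_lit 3) (.e (nat_lit 204831) (nat_lit 18) (.e (nat_lit 57692) (nat_lit 156) .nil))))))) (.g (nat_lit 1) (.e (nat_lit 155827) (nat_lit 0) .nil) .nil))))))) 
(.nd (nat_lit 6) (.nd (nat_lit 7) (.nd (nat_lit 8) (.nd (nat_lit 9) 
(.lf (nat_lit 495669) (.g (nat_lit 2714) (.e (nat_lit 163904) (nat_lit 12) (.e (nat_lit 426555) (nat_lit 32) (.e (nat_lit 376867) (nat_lit 23) (.e (nat_lit 98313) (nat_lit 9) (.e (nat_lit 335995) (nat_lit 1) (.e (nat_lit 57931) (nat_lit 282) .nil)))))) (.g (nat_lit 1) (.e (nat_lit 154133) (nat_lit 0) .nil) .nil))) 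
(.lf (nat_lit 496181) (.g (nat_lit 389) (.e (nat_lit 163905) (nat_lit 12) (.e (nat_lit 426555) (nat_lit 32) (.e (nat_lit 376869) (nat_lit 23) .nil))) (.g (nat_lit 0) (.e (nat_lit 154978) (nat_lit 0) .nil) .nil)))) (.nd (nat_lit 9) 
(.lf (nat_lit 495925) (.g (nat_lit 2711) (.e (nat_lit 163905) (nat_lit 12) (.e (nat_lit 426436) (nat_lit 18) (.e (nat_lit 98381) (nat_lit 31) (.e (nat_lit 466954) (nat_lit 11) (.e (nat_lit 335986) (nat_lit 1) (.e (nat_lit 57692) (nat_lit 156) .nil)))))) (.g (nat_lit 1) (.e (nat_lit 154606) (nat_lit 0) .nil) .nil))) 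
(.lf (nat_lit 496437) (.g (nat_lit 2431) (.e (nat_lit 163906) (nat_lit 12) (.e (nat_lit 426436) (nat_lit 18) (.e (nat_lit 98358) (nat_lit 26) (.e (nat_lit 426323) (nat_lit 13) (.e (nat_lit 483364) (nat_lit 18) .nil))))) (.g (nat_lit 0) (.e (nat_lit 155390) (nat_lit 0) .nil) .nil))))) (.nd (nat_lit 8) (.nd (nat_lit 9) 
(.lf (nat_lit 495797) (.g (nat_lit 1399) (.e (nat_lit 163904) (nat_lit 12) (.e (nat_lit 426566) (nat_lit 34) (.e (nat_lit 393294) (nat_lit 26) (.e (nat_lit 475175) (nat_lit 24) .nil)))) (.g (nat_lit 0) (.e (nat_lit 154264) (nat_lit 0) .nil) .nil))) 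
(.lf (nat_lit 496309) (.g (nat_lit 2343) (.e (nat_lit 163905) (nat_lit 12) (.e (nat_lit 426566) (nat_lit 34) (.e (nat_lit 393296) (nat_lit 26) (.e (nat_lit 475179) (nat_lit 24) (.e (nat_lit 516119) (nat_lit 1) (.e (nat_lit 164325) (nat_lit 230) .nil)))))) (.g (nat_lit 1) (.e (nat_lit 155107) (nat_lit 0) .nil) .nil)))) (.nd (nat_lit 9) 
(.lf (nat_lit 496053) (.g (nat_lit 2245) (.e (nat_lit 163905) (nat_lit 12) (.e (nat_lit 426489) (nat_lit 27) (.e (nat_lit 336405) (nat_lit 27) (.e (nat_lit 426306) (nat_lit 12) (.e (nat_lit 475179) (nat_lit 24) (.e (nat_lit 516117) (nat_lit 1) (.e (nat_lit 164332) (nat_lit 230) .nil))))))) (.g (nat_lit 1) (.e (nat_lit 154831) (nat_lit 0) .nil) .nil))) 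
(.lf (nat_lit 496565) (.g (nat_lit 1802) (.e (nat_lit 163907) (nat_lit 12) (.e (nat_lit 426438) (nat_lit 18) (.e (nat_lit 98373) (nat_lit 29) (.e (nat_lit 450560) (nat_lit 0) .nil)))) (.g (nat_lit 0) (.e (nat_lit 155790) (nat_lit 0) .nil) .nil)))))) (.nd (nat_lit 7) (.nd (nat_lit 8) (.nd (nat_lit 9) 
(.lf (nat_lit 495733) (.g (nat_lit 2866) (.e (nat_lit 163904) (nat_lit 12) (.e (nat_lit 426566) (nat_lit 34) (.e (nat_lit 393271) (nat_lit 23) (.e (nat_lit 426438) (nat_lit 18) (.e (nat_lit 98335) (nat_lit 18) (.e (nat_lit 164325) (nat_lit 230) .nil)))))) (.g (nat_lit 1) (.e (nat_lit 154199) (nat_lit 0) .nil) .nil))) 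
(.lf (nat_lit 496245) (.g (nat_lit 2527) (.e (nat_lit 163905) (nat_lit 12) (.e (nat_lit 426566) (nat_lit 34) (.e (nat_lit 393286) (nat_lit 25) (.e (nat_lit 458789) (nat_lit 23) (.e (nat_lit 532502) (nat_lit 1) (.e (nat_lit 57692) (nat_lit 156) .nil)))))) (.g (nat_lit 1) (.e (nat_lit 155043) (nat_lit 0) .nil) .nil)))) (.nd (nat_lit 9) 
(.lf (nat_lit 495989) (.g (nat_lit 2998) (.e (nat_lit 163905) (nat_lit 12) (.e (nat_lit 426479) (nat_lit 27) (.e (nat_lit 336430) (nat_lit 29) (.e (nat_lit 442425) (nat_lit 23) (.e (nat_lit 204831) (nat_lit 18) (.e (nat_lit 57692) (nat_lit 156) .nil)))))) (.g (nat_lit 1) (.e (nat_lit 154672) (nat_lit 0) .nil) .nil))) 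
(.lf (nat_lit 496501) (.g (nat_lit 4715) (.e (nat_lit 163907) (nat_lit 12) (.e (nat_lit 426131) (nat_lit 3) (.e (nat_lit 204869) (nat_lit 29) (.e (nat_lit 360475) (nat_lit 8) (.e (nat_lit 557091) (nat_lit 12) .nil))))) (.g (nat_lit 0) (.e (nat_lit 155477) (nat_lit 0) .nil) .nil))))) (.nd (nat_lit 8) (.nd (nat_lit 9) 
(.lf (nat_lit 495861) (.g (nat_lit 2247) (.e (nat_lit 163905) (nat_lit 12) (.e (nat_lit 426320) (nat_lit 12) (.e (nat_lit 475210) (nat_lit 41) (.e (nat_lit 712755) (nat_lit 30) (.e (nat_lit 458496) (nat_lit 0) (.e (nat_lit 5587) (nat_lit 310) .nil)))))) (.g (nat_lit 1) (.e (nat_lit 154350) (nat_lit 0) .nil) .nil))) 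
(.lf (nat_lit 496373) (.g (nat_lit 2963) (.e (nat_lit 163905) (nat_lit 12) (.e (nat_lit 426568) (nat_lit 34) (.e (nat_lit 393282) (nat_lit 24) (.e (nat_lit 434231) (nat_lit 23) (.e (nat_lit 532500) (nat_lit 1) (.e (nat_lit 57692) (nat_lit 156) .nil)))))) (.g (nat_lit 1) (.e (nat_lit 155172) (nat_lit 0) .nil) .nil)))) (.nd (nat_lit 9) 
(.lf (nat_lit 496117) (.g (nat_lit 3193) (.e (nat_lit 163905) (nat_lit 12) (.e (nat_lit 426542) (nat_lit 29) (.e (nat_lit 352315) (nat_lit 23) (.e (nat_lit 98313) (nat_lit 9) (.e (nat_lit 335996) (nat_lit 1) (.e (nat_lit 57931) (nat_lit 282) .nil)))))) (.g (nat_lit 1) (.e (nat_lit 154898) (nat_lit 0) .nil) .nil))) 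
(.lf (nat_lit 496629) (.g (nat_lit 1175) (.e (nat_lit 163907) (nat_lit 12) (.e (nat_lit 426555) (nat_lit 32) (.e (nat_lit 376862) (nat_lit 22) (.e (nat_lit 90160) (nat_lit 11) .nil)))) (.g (nat_lit 0) (.e (nat_lit 155864) (nat_lit 0) .nil) .nil))))))))) (.nd (nat_lit 4) (.nd (nat_lit 5) (.nd (nat_lit 6) (.nd (nat_lit 7) (.nd (nat_lit 8) (.nd (nat_lit 9) 
(.lf (nat_lit 495629) (.g (nat_lit 4247) (.e (nat_lit 163903) (nat_lit 12) (.e (nat_lit 426568) (nat_lit 34) (.e (nat_lit 393291) (nat_lit 26) (.e (nat_lit 475179) (nat_lit 24) (.e (nat_lit 516115) (nat_lit 1) (.e (nat_lit 164325) (nat_lit 230) .nil)))))) (.g (nat_lit 1) (.e (nat_lit 154053) (nat_lit 0) .nil) .nil))) 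
(.lf (nat_lit 496141) (.g (nat_lit 376) (.e (nat_lit 163905) (nat_lit 12) (.e (nat_lit 426555) (nat_lit 32) (.e (nat_lit 376862) (nat_lit 22) .nil))) (.g (nat_lit 0) (.e (nat_lit 154928) (nat_lit 0) .nil) .nil)))) (.nd (nat_lit 9) 
(.lf (nat_lit 495885) (.g (nat_lit 2462) (.e (nat_lit 163905) (nat_lit 12) (.e (nat_lit 426428) (nat_lit 17) (.e (nat_lit 90170) (nat_lit 13) (.e (nat_lit 172123) (nat_lit 13) (.e (nat_lit 483366) (nat_lit 18) (.e (nat_lit 57688) (nat_lit 156) .nil)))))) (.g (nat_lit 1) (.e (nat_lit 154563) (nat_lit 0) .nil) .nil))) 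
(.lf (nat_lit 496397) (.g (nat_lit 3182) (.e (nat_lit 163905) (nat_lit 12) (.e (nat_lit 426568) (nat_lit 34) (.e (nat_lit 393291) (nat_lit 26) (.e (nat_lit 475177) (nat_lit 24) (.e (nat_lit 516117) (nat_lit 1) (.e (nat_lit 164332) (nat_lit 230) .nil)))))) (.g (nat_lit 1) (.e (nat_lit 155196) (nat_lit 0) .nil) .nil))))) (.nd (nat_lit 8) (.nd (nat_lit 9) 
(.lf (nat_lit 495757) (.g (nat_lit 3275) (.e (nat_lit 163904) (nat_lit 12) (.e (nat_lit 426566) (nat_lit 34) (.e (nat_lit 393291) (nat_lit 26) (.e (nat_lit 475177) (nat_lit 24) (.e (nat_lit 516116) (nat_lit 1) (.e (nat_lit 164329) (nat_lit 230) .nil)))))) (.g (nat_lit 1) (.e (nat_lit 154224) (nat_lit 0) .nil) .nil))) 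
(.lf (nat_lit 496269) (.g (nat_lit 2485) (.e (nat_lit 163905) (nat_lit 12) (.e (nat_lit 426566) (nat_lit 34) (.e (nat_lit 393293) (nat_lit 26) (.e (nat_lit 475177) (nat_lit 24) (.e (nat_lit 516119) (nat_lit 1) (.e (nat_lit 164325) (nat_lit 230) .nil)))))) (.g (nat_lit 1) (.e (nat_lit 155067) (nat_lit 0) .nil) .nil)))) (.nd (nat_lit 9) 
(.lf (nat_lit 496013) (.g (nat_lit 3026) (.e (nat_lit 163905) (nat_lit 12) (.e (nat_lit 426480) (nat_lit 27) (.e (nat_lit 336389) (nat_lit 27) (.e (nat_lit 426308) (nat_lit 12) (.e (nat_lit 475177) (nat_lit 24) (.e (nat_lit 516117) (nat_lit 1) (.e (nat_lit 164330) (nat_lit 230) .nil))))))) (.g (nat_lit 1) (.e (nat_lit 154696) (nat_lit 0) .nil) .nil))) 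
(.lf (nat_lit 496525) (.g (nat_lit 2398) (.e (nat_lit 163907) (nat_lit 12) (.e (nat_lit 426432) (nat_lit 17) (.e (nat_lit 90178) (nat_lit 15) (.e (nat_lit 188421) (nat_lit 11) (.e (nat_lit 335988) (nat_lit 1) (.e (nat_lit 57692) (nat_lit 156) .nil)))))) (.g (nat_lit 1) (.e (nat_lit 155744) (nat_lit 0) .nil) .nil)))))) (.nd (nat_lit 7) (.nd (nat_lit 8) (.nd (nat_lit 9) 
(.lf (nat_lit 495693) (.g (nat_lit 2862) (.e (nat_lit 163904) (nat_lit 12) (.e (nat_lit 426566) (nat_lit 34) (.e (nat_lit 393268) (nat_lit 23) (.e (nat_lit 426436) (nat_lit 18) (.e (nat_lit 98333) (nat_lit 18) (.e (nat_lit 164332) (nat_lit 230) .nil)))))) (.g (nat_lit 1) (.e (nat_lit 154158) (nat_lit 0) .nil) .nil))) 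
(.lf (nat_lit 496205) (.g (nat_lit 2854) (.e (nat_lit 163905) (nat_lit 12) (.e (nat_lit 426566) (nat_lit 34) (.e (nat_lit 393271) (nat_lit 23) (.e (nat_lit 426131) (nat_lit 3) (.e (nat_lit 204829) (nat_lit 18) (.e (nat_lit 57691) (nat_lit 156) .nil)))))) (.g (nat_lit 1) (.e (nat_lit 155003) (nat_lit 0) .nil) .nil)))) (.nd (nat_lit 9) 
(.lf (nat_lit 495949) (.g (nat_lit 3701) (.e (nat_lit 163905) (nat_lit 12) (.e (nat_lit 426438) (nat_lit 18) (.e (nat_lit 98373) (nat_lit 29) (.e (nat_lit 450562) (nat_lit 0) (.e (nat_lit 6846) (nat_lit 370) .nil))))) (.g (nat_lit 0) (.e (nat_lit 154630) (nat_lit 0) .nil) .nil))) 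
(.lf (nat_lit 496461) (.g (nat_lit 2475) (.e (nat_lit 163906) (nat_lit 12) (.e (nat_lit 426438) (nat_lit 18) (.e (nat_lit 98380) (nat_lit 31) (.e (nat_lit 466954) (nat_lit 11) (.e (nat_lit 335986) (nat_lit 1) (.e (nat_lit 57692) (nat_lit 156) .nil)))))) (.g (nat_lit 1) (.e (nat_lit 155415) (nat_lit 0) .nil) .nil))))) (.nd (nat_lit 8) (.nd (nat_lit 9) 
(.lf (nat_lit 495821) (.g (nat_lit 3473) (.e (nat_lit 163904) (nat_lit 12) (.e (nat_lit 426566) (nat_lit 34) (.e (nat_lit 393294) (nat_lit 26) (.e (nat_lit 475177) (nat_lit 24) (.e (nat_lit 516120) (nat_lit 1) (.e (nat_lit 164322) (nat_lit 230) .nil)))))) (.g (nat_lit 1) (.e (nat_lit 154288) (nat_lit 0) .nil) .nil))) 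
(.lf (nat_lit 496333) (.g (nat_lit 1983) (.e (nat_lit 163905) (nat_lit 12) (.e (nat_lit 426568) (nat_lit 34) (.e (nat_lit 393268) (nat_lit 23) (.e (nat_lit 426428) (nat_lit 17) (.e (nat_lit 90130) (nat_lit 9) .nil))))) (.g (nat_lit 0) (.e (nat_lit 155132) (nat_lit 0) .nil) .nil)))) (.nd (nat_lit 9) 
(.lf (nat_lit 496077) (.g (nat_lit 3513) (.e (nat_lit 163905) (nat_lit 12) (.e (nat_lit 426530) (nat_lit 27) (.e (nat_lit 336390) (nat_lit 27) (.e (nat_lit 426306) (nat_lit 12) (.e (nat_lit 475177) (nat_lit 24) (.e (nat_lit 516117) (nat_lit 1) (.e (nat_lit 164330) (nat_lit 230) .nil))))))) (.g (nat_lit 1) (.e (nat_lit 154855) (nat_lit 0) .nil) .nil))) 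
(.lf (nat_lit 496589) (.g (nat_lit 2067) (.e (nat_lit 163907) (nat_lit 12) (.e (nat_lit 426479) (nat_lit 27) (.e (nat_lit 336432) (nat_lit 30) (.e (nat_lit 450580) (nat_lit 5) (.e (nat_lit 532501) (nat_lit 1) (.e (nat_lit 57690) (nat_lit 156) .nil)))))) (.g (nat_lit 1) (.e (nat_lit 155815) (nat_lit 0) .nil) .nil))))))) (.nd (nat_lit 6) (.nd (nat_lit 7) (.nd (nat_lit 8) (.nd (nat_lit 9) 
(.lf (nat_lit 495661) (.g (nat_lit 776) (.e (nat_lit 163904) (nat_lit 12) (.e (nat_lit 426436) (nat_lit 18) (.e (nat_lit 98382) (nat_lit 31) .nil))) (.g (nat_lit 0) (.e (nat_lit 154101) (nat_lit 0) .nil) .nil))) 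
(.lf (nat_lit 496173) (.g (nat_lit 2459) (.e (nat_lit 163905) (nat_lit 12) (.e (nat_lit 426555) (nat_lit 32) (.e (nat_lit 376866) (nat_lit 23) (.e (nat_lit 98317) (nat_lit 9) (.e (nat_lit 335988) (nat_lit 1) (.e (nat_lit 57927) (nat_lit 282) .nil)))))) (.g (nat_lit 1) (.e (nat_lit 154970) (nat_lit 0) .nil) .nil)))) (.nd (nat_lit 9) 
(.lf (nat_lit 495917) (.g (nat_lit 3114) (.e (nat_lit 163905) (nat_lit 12) (.e (nat_lit 426436) (nat_lit 18) (.e (nat_lit 98370) (nat_lit 28) (.e (nat_lit 442390) (nat_lit 11) (.e (nat_lit 335986) (nat_lit 1) (.e (nat_lit 57692) (nat_lit 156) .nil)))))) (.g (nat_lit 1) (.e (nat_lit 154598) (nat_lit 0) .nil) .nil))) 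
(.lf (nat_lit 496429) (.g (nat_lit 1994) (.e (nat_lit 163906) (nat_lit 12) (.e (nat_lit 426428) (nat_lit 17) (.e (nat_lit 90170) (nat_lit 13) (.e (nat_lit 172123) (nat_lit 13) (.e (nat_lit 483365) (nat_lit 18) .nil))))) (.g (nat_lit 0) (.e (nat_lit 155381) (nat_lit 0) .nil) .nil))))) (.nd (nat_lit 8) (.nd (nat_lit 9) 
(.lf (nat_lit 495789) (.g (nat_lit 457) (.e (nat_lit 163904) (nat_lit 12) (.e (nat_lit 426566) (nat_lit 34) (.e (nat_lit 393293) (nat_lit 26) .nil))) (.g (nat_lit 0) (.e (nat_lit 154256) (nat_lit 0) .nil) .nil))) 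
(.lf (nat_lit 496301) (.g (nat_lit 2364) (.e (nat_lit 163905) (nat_lit 12) (.e (nat_lit 426566) (nat_lit 34) (.e (nat_lit 393296) (nat_lit 26) (.e (nat_lit 475178) (nat_lit 24) (.e (nat_lit 516119) (nat_lit 1) (.e (nat_lit 164325) (nat_lit 230) .nil)))))) (.g (nat_lit 1) (.e (nat_lit 155099) (nat_lit 0) .nil) .nil)))) (.nd (nat_lit 9) 
(.lf (nat_lit 496045) (.g (nat_lit 2643) (.e (nat_lit 163905) (nat_lit 12) (.e (nat_lit 426481) (nat_lit 27) (.e (nat_lit 336389) (nat_lit 27) (.e (nat_lit 426308) (nat_lit 12) (.e (nat_lit 475177) (nat_lit 24) (.e (nat_lit 516117) (nat_lit 1) (.e (nat_lit 164332) (nat_lit 230) .nil))))))) (.g (nat_lit 1) (.e (nat_lit 154823) (nat_lit 0) .nil) .nil))) 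
(.lf (nat_lit 496557) (.g (nat_lit 2333) (.e (nat_lit 163907) (nat_lit 12) (.e (nat_lit 426437) (nat_lit 18) (.e (nat_lit 98369) (nat_lit 28) (.e (nat_lit 442390) (nat_lit 11) (.e (nat_lit 335986) (nat_lit 1) (.e (nat_lit 57692) (nat_lit 156) .nil)))))) (.g (nat_lit 1) (.e (nat_lit 155781) (nat_lit 0) .nil) .nil)))))) (.nd (nat_lit 7) (.nd (nat_lit 8) (.nd (nat_lit 9) 
(.lf (nat_lit 495725) (.g (nat_lit 3493) (.e (nat_lit 163904) (nat_lit 12) (.e (nat_lit 426566) (nat_lit 34) (.e (nat_lit 393271) (nat_lit 23) (.e (nat_lit 426436) (nat_lit 18) (.e (nat_lit 98334) (nat_lit 18) (.e (nat_lit 164331) (nat_lit 230) .nil)))))) (.g (nat_lit 1) (.e (nat_lit 154191) (nat_lit 0) .nil) .nil))) 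
(.lf (nat_lit 496237) (.g (nat_lit 2901) (.e (nat_lit 163905) (nat_lit 12) (.e (nat_lit 426566) (nat_lit 34) (.e (nat_lit 393273) (nat_lit 23) (.e (nat_lit 426438) (nat_lit 18) (.e (nat_lit 98334) (nat_lit 18) (.e (nat_lit 164330) (nat_lit 230) .nil)))))) (.g (nat_lit 1) (.e (nat_lit 155035) (nat_lit 0) .nil) .nil)))) (.nd (nat_lit 9) 
(.lf (nat_lit 495981) (.g (nat_lit 2666) (.e (nat_lit 163905) (nat_lit 12) (.e (nat_lit 426478) (nat_lit 27) (.e (nat_lit 336388) (nat_lit 27) (.e (nat_lit 426188) (nat_lit 9) (.e (nat_lit 426436) (nat_lit 18) (.e (nat_lit 98334) (nat_lit 18) (.e (nat_lit 164330) (nat_lit 230) .nil))))))) (.g (nat_lit 1) (.e (nat_lit 154664) (nat_lit 0) .nil) .nil))) 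
(.lf (nat_lit 496493) (.g (nat_lit 2027) (.e (nat_lit 163907) (nat_lit 12) (.e (nat_lit 426131) (nat_lit 3) (.e (nat_lit 204838) (nat_lit 20) (.e (nat_lit 114711) (nat_lit 21) (.e (nat_lit 57754) (nat_lit 209) .nil))))) (.g (nat_lit 0) (.e (nat_lit 155451) (nat_lit 0) .nil) .nil))))) (.nd (nat_lit 8) (.nd (nat_lit 9) 
(.lf (nat_lit 495853) (.g (nat_lit 2535) (.e (nat_lit 163905) (nat_lit 12) (.e (nat_lit 426320) (nat_lit 12) (.e (nat_lit 475198) (nat_lit 40) (.e (nat_lit 704598) (nat_lit 6) (.e (nat_lit 188453) (nat_lit 24) (.e (nat_lit 229681) (nat_lit 244) .nil)))))) (.g (nat_lit 1) (.e (nat_lit 154340) (nat_lit 0) .nil) .nil))) 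
(.lf (nat_lit 496365) (.g (nat_lit 3011) (.e (nat_lit 163905) (nat_lit 12) (.e (nat_lit 426568) (nat_lit 34) (.e (nat_lit 393279) (nat_lit 23) (.e (nat_lit 426129) (nat_lit 3) (.e (nat_lit 204829) (nat_lit 18) (.e (nat_lit 57688) (nat_lit 156) .nil)))))) (.g (nat_lit 1) (.e (nat_lit 155164) (nat_lit 0) .nil) .nil)))) (.nd (nat_lit 9) 
(.lf (nat_lit 496109) (.g (nat_lit 3166) (.e (nat_lit 163905) (nat_lit 12) (.e (nat_lit 426542) (nat_lit 29) (.e (nat_lit 352315) (nat_lit 23) (.e (nat_lit 98313) (nat_lit 9) (.e (nat_lit 335986) (nat_lit 1) (.e (nat_lit 57926) (nat_lit 282) .nil)))))) (.g (nat_lit 1) (.e (nat_lit 154890) (nat_lit 0) .nil) .nil))) 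
(.lf (nat_lit 496621) (.g (nat_lit 1353) (.e (nat_lit 163907) (nat_lit 12) (.e (nat_lit 426545) (nat_lit 30) (.e (nat_lit 360475) (nat_lit 8) (.e (nat_lit 564992) (nat_lit 0) .nil)))) (.g (nat_lit 0) (.e (nat_lit 155851) (nat_lit 0) .nil) .nil)))))))) (.nd (nat_lit 5) (.nd (nat_lit 6) (.nd (nat_lit 7) (.nd (nat_lit 8) (.nd (nat_lit 9) 
(.lf (nat_lit 495645) (.g (nat_lit 3673) (.e (nat_lit 163903) (nat_lit 12) (.e (nat_lit 426568) (nat_lit 34) (.e (nat_lit 393294) (nat_lit 26) (.e (nat_lit 475177) (nat_lit 24) (.e (nat_lit 516118) (nat_lit 1) (.e (nat_lit 164324) (nat_lit 230) .nil)))))) (.g (nat_lit 1) (.e (nat_lit 154070) (nat_lit 0) .nil) .nil))) 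
(.lf (nat_lit 496157) (.g (nat_lit 337) (.e (nat_lit 163905) (nat_lit 12) (.e (nat_lit 426555) (nat_lit 32) (.e (nat_lit 376865) (nat_lit 22) .nil))) (.g (nat_lit 0) (.e (nat_lit 154946) (nat_lit 0) .nil) .nil)))) (.nd (nat_lit 9) 
(.lf (nat_lit 495901) (.g (nat_lit 1191) (.e (nat_lit 163905) (nat_lit 12) (.e (nat_lit 426432) (nat_lit 17) (.e (nat_lit 90178) (nat_lit 15) (.e (nat_lit 188421) (nat_lit 11) .nil)))) (.g (nat_lit 0) (.e (nat_lit 154580) (nat_lit 0) .nil) .nil))) 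
(.lf (nat_lit 496413) (.g (nat_lit 3654) (.e (nat_lit 163905) (nat_lit 12) (.e (nat_lit 426568) (nat_lit 34) (.e (nat_lit 393294) (nat_lit 26) (.e (nat_lit 475177) (nat_lit 24) (.e (nat_lit 516117) (nat_lit 1) (.e (nat_lit 164332) (nat_lit 230) .nil)))))) (.g (nat_lit 1) (.e (nat_lit 155212) (nat_lit 0) .nil) .nil))))) (.nd (nat_lit 8) (.nd (nat_lit 9) 
(.lf (nat_lit 495773) (.g (nat_lit 2816) (.e (nat_lit 163904) (nat_lit 12) (.e (nat_lit 426566) (nat_lit 34) (.e (nat_lit 393291) (nat_lit 26) (.e (nat_lit 475177) (nat_lit 24) (.e (nat_lit 516120) (nat_lit 1) (.e (nat_lit 164329) (nat_lit 230) .nil)))))) (.g (nat_lit 1) (.e (nat_lit 154240) (nat_lit 0) .nil) .nil))) 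
(.lf (nat_lit 496285) (.g (nat_lit 2132) (.e (nat_lit 163905) (nat_lit 12) (.e (nat_lit 426566) (nat_lit 34) (.e (nat_lit 393295) (nat_lit 26) (.e (nat_lit 475177) (nat_lit 24) (.e (nat_lit 516118) (nat_lit 1) (.e (nat_lit 164325) (nat_lit 230) .nil)))))) (.g (nat_lit 1) (.e (nat_lit 155083) (nat_lit 0) .nil) .nil)))) (.nd (nat_lit 9) 
(.lf (nat_lit 496029) (.g (nat_lit 3613) (.e (nat_lit 163905) (nat_lit 12) (.e (nat_lit 426482) (nat_lit 27) (.e (nat_lit 336389) (nat_lit 27) (.e (nat_lit 426188) (nat_lit 9) (.e (nat_lit 426436) (nat_lit 18) (.e (nat_lit 98335) (nat_lit 18) (.e (nat_lit 164332) (nat_lit 230) .nil))))))) (.g (nat_lit 1) (.e (nat_lit 154763) (nat_lit 0) .nil) .nil))) 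
(.lf (nat_lit 496541) (.g (nat_lit 2459) (.e (nat_lit 163907) (nat_lit 12) (.e (nat_lit 426436) (nat_lit 18) (.e (nat_lit 98379) (nat_lit 31) (.e (nat_lit 466954) (nat_lit 11) (.e (nat_lit 335986) (nat_lit 1) (.e (nat_lit 57692) (nat_lit 156) .nil)))))) (.g (nat_lit 1) (.e (nat_lit 155765) (nat_lit 0) .nil) .nil)))))) (.nd (nat_lit 7) (.nd (nat_lit 8) (.nd (nat_lit 9) 
(.lf (nat_lit 495709) (.g (nat_lit 998) (.e (nat_lit 163904) (nat_lit 12) (.e (nat_lit 426566) (nat_lit 34) (.e (nat_lit 393269) (nat_lit 23) .nil))) (.g (nat_lit 0) (.e (nat_lit 154174) (nat_lit 0) .nil) .nil))) 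
(.lf (nat_lit 496221) (.g (nat_lit 2769) (.e (nat_lit 163905) (nat_lit 12) (.e (nat_lit 426566) (nat_lit 34) (.e (nat_lit 393272) (nat_lit 23) (.e (nat_lit 426131) (nat_lit 3) (.e (nat_lit 204831) (nat_lit 18) (.e (nat_lit 57692) (nat_lit 156) .nil)))))) (.g (nat_lit 1) (.e (nat_lit 155019) (nat_lit 0) .nil) .nil)))) (.nd (nat_lit 9) 
(.lf (nat_lit 495965) (.g (nat_lit 2460) (.e (nat_lit 163905) (nat_lit 12) (.e (nat_lit 426478) (nat_lit 27) (.e (nat_lit 336385) (nat_lit 27) (.e (nat_lit 426188) (nat_lit 9) (.e (nat_lit 426436) (nat_lit 18) (.e (nat_lit 98334) (nat_lit 18) (.e (nat_lit 164330) (nat_lit 230) .nil))))))) (.g (nat_lit 1) (.e (nat_lit 154648) (nat_lit 0) .nil) .nil))) 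
(.lf (nat_lit 496477) (.g (nat_lit 1774) (.e (nat_lit 163906) (nat_lit 12) (.e (nat_lit 426555) (nat_lit 32) (.e (nat_lit 376869) (nat_lit 23) (.e (nat_lit 98313) (nat_lit 9) (.e (nat_lit 335987) (nat_lit 1) (.e (nat_lit 57927) (nat_lit 282) .nil)))))) (.g (nat_lit 1) (.e (nat_lit 155432) (nat_lit 0) .nil) .nil))))) (.nd (nat_lit 8) (.nd (nat_lit 9) 
(.lf (nat_lit 495837) (.g (nat_lit 3332) (.e (nat_lit 163904) (nat_lit 12) (.e (nat_lit 426566) (nat_lit 34) (.e (nat_lit 393294) (nat_lit 26) (.e (nat_lit 475179) (nat_lit 24) (.e (nat_lit 516120) (nat_lit 1) (.e (nat_lit 164332) (nat_lit 230) .nil)))))) (.g (nat_lit 1) (.e (nat_lit 154304) (nat_lit 0) .nil) .nil))) 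
(.lf (nat_lit 496349) (.g (nat_lit 2792) (.e (nat_lit 163905) (nat_lit 12) (.e (nat_lit 426568) (nat_lit 34) (.e (nat_lit 393270) (nat_lit 23) (.e (nat_lit 426438) (nat_lit 18) (.e (nat_lit 98335) (nat_lit 18) (.e (nat_lit 164332) (nat_lit 230) .nil)))))) (.g (nat_lit 1) (.e (nat_lit 155148) (nat_lit 0) .nil) .nil)))) (.nd (nat_lit 9) 
(.lf (nat_lit 496093) (.g (nat_lit 2822) (.e (nat_lit 163905) (nat_lit 12) (.e (nat_lit 426542) (nat_lit 29) (.e (nat_lit 352313) (nat_lit 23) (.e (nat_lit 98313) (nat_lit 9) (.e (nat_lit 335986) (nat_lit 1) (.e (nat_lit 57926) (nat_lit 282) .nil)))))) (.g (nat_lit 1) (.e (nat_lit 154874) (nat_lit 0) .nil) .nil))) 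
(.lf (nat_lit 496605) (.g (nat_lit 2253) (.e (nat_lit 163907) (nat_lit 12) (.e (nat_lit 426481) (nat_lit 27) (.e (nat_lit 336389) (nat_lit 27) (.e (nat_lit 426306) (nat_lit 12) (.e (nat_lit 475179) (nat_lit 24) .nil))))) (.g (nat_lit 0) (.e (nat_lit 155835) (nat_lit 0) .nil) .nil))))))) (.nd (nat_lit 6) (.nd (nat_lit 7) (.nd (nat_lit 8) (.nd (nat_lit 9) 
(.lf (nat_lit 495677) (.g (nat_lit 2686) (.e (nat_lit 163904) (nat_lit 12) (.e (nat_lit 426555) (nat_lit 32) (.e (nat_lit 376869) (nat_lit 23) (.e (nat_lit 98313) (nat_lit 9) (.e (nat_lit 335986) (nat_lit 1) (.e (nat_lit 57926) (nat_lit 282) .nil)))))) (.g (nat_lit 1) (.e (nat_lit 154141) (nat_lit 0) .nil) .nil))) 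
(.lf (nat_lit 496189) (.g (nat_lit 2659) (.e (nat_lit 163905) (nat_lit 12) (.e (nat_lit 426555) (nat_lit 32) (.e (nat_lit 376869) (nat_lit 23) (.e (nat_lit 98317) (nat_lit 9) (.e (nat_lit 335996) (nat_lit 1) (.e (nat_lit 57930) (nat_lit 282) .nil)))))) (.g (nat_lit 1) (.e (nat_lit 154986) (nat_lit 0) .nil) .nil)))) (.nd (nat_lit 9) 
(.lf (nat_lit 495933) (.g (nat_lit 1783) (.e (nat_lit 163905) (nat_lit 12) (.e (nat_lit 426437) (nat_lit 18) (.e (nat_lit 98381) (nat_lit 31) (.e (nat_lit 466954) (nat_lit 11) (.e (nat_lit 335988) (nat_lit 1) (.e (nat_lit 57692) (nat_lit 156) .nil)))))) (.g (nat_lit 1) (.e (nat_lit 154614) (nat_lit 0) .nil) .nil))) 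
(.lf (nat_lit 496445) (.g (nat_lit 1970) (.e (nat_lit 163906) (nat_lit 12) (.e (nat_lit 426436) (nat_lit 18) (.e (nat_lit 98380) (nat_lit 31) (.e (nat_lit 466954) (nat_lit 11) (.e (nat_lit 335986) (nat_lit 1) (.e (nat_lit 57692) (nat_lit 156) .nil)))))) (.g (nat_lit 1) (.e (nat_lit 155399) (nat_lit 0) .nil) .nil))))) (.nd (nat_lit 8) (.nd (nat_lit 9) 
(.lf (nat_lit 495805) (.g (nat_lit 3296) (.e (nat_lit 163904) (nat_lit 12) (.e (nat_lit 426566) (nat_lit 34) (.e (nat_lit 393294) (nat_lit 26) (.e (nat_lit 475177) (nat_lit 24) (.e (nat_lit 516115) (nat_lit 1) (.e (nat_lit 164332) (nat_lit 230) .nil)))))) (.g (nat_lit 1) (.e (nat_lit 154272) (nat_lit 0) .nil) .nil))) 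
(.lf (nat_lit 496317) (.g (nat_lit 3425) (.e (nat_lit 163905) (nat_lit 12) (.e (nat_lit 426567) (nat_lit 34) (.e (nat_lit 393294) (nat_lit 26) (.e (nat_lit 475177) (nat_lit 24) (.e (nat_lit 516117) (nat_lit 1) (.e (nat_lit 164330) (nat_lit 230) .nil)))))) (.g (nat_lit 1) (.e (nat_lit 155115) (nat_lit 0) .nil) .nil)))) (.nd (nat_lit 9) 
(.lf (nat_lit 496061) (.g (nat_lit 3959) (.e (nat_lit 163905) (nat_lit 12) (.e (nat_lit 426509) (nat_lit 27) (.e (nat_lit 336412) (nat_lit 27) (.e (nat_lit 426190) (nat_lit 9) (.e (nat_lit 426436) (nat_lit 18) (.e (nat_lit 98335) (nat_lit 18) (.e (nat_lit 164330) (nat_lit 230) .nil))))))) (.g (nat_lit 1) (.e (nat_lit 154839) (nat_lit 0) .nil) .nil))) 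
(.lf (nat_lit 496573) (.g (nat_lit 3394) (.e (nat_lit 163907) (nat_lit 12) (.e (nat_lit 426478) (nat_lit 27) (.e (nat_lit 336389) (nat_lit 27) (.e (nat_lit 426308) (nat_lit 12) (.e (nat_lit 475179) (nat_lit 24) (.e (nat_lit 516115) (nat_lit 1) (.e (nat_lit 164325) (nat_lit 230) .nil))))))) (.g (nat_lit 1) (.e (nat_lit 155798) (nat_lit 0) .nil) .nil)))))) 
(.nd (nat_lit 7) (.nd (nat_lit 8) (.nd (nat_lit 9) 
(.lf (nat_lit 495741) (.g (nat_lit 2567) (.e (nat_lit 163904) (nat_lit 12) (.e (nat_lit 426566) (nat_lit 34) (.e (nat_lit 393286) (nat_lit 25) (.e (nat_lit 458789) (nat_lit 23) (.e (nat_lit 532502) (nat_lit 1) (.e (nat_lit 57688) (nat_lit 156) .nil)))))) (.g (nat_lit 1) (.e (nat_lit 154207) (nat_lit 0) .nil) .nil))) 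
(.lf (nat_lit 496253) (.g (nat_lit 2218) (.e (nat_lit 163905) (nat_lit 12) (.e (nat_lit 426566) (nat_lit 34) (.e (nat_lit 393289) (nat_lit 25) (.e (nat_lit 458789) (nat_lit 23) (.e (nat_lit 532504) (nat_lit 1) (.e (nat_lit 57692) (nat_lit 156) .nil)))))) (.g (nat_lit 1) (.e (nat_lit 155051) (nat_lit 0) .nil) .nil)))) (.nd (nat_lit 9) 
(.lf (nat_lit 495997) (.g (nat_lit 3506) (.e (nat_lit 163905) (nat_lit 12) (.e (nat_lit 426479) (nat_lit 27) (.e (nat_lit 336432) (nat_lit 30) (.e (nat_lit 450580) (nat_lit 5) (.e (nat_lit 532499) (nat_lit 1) (.e (nat_lit 57691) (nat_lit 156) .nil)))))) (.g (nat_lit 1) (.e (nat_lit 154680) (nat_lit 0) .nil) .nil))) 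
(.lf (nat_lit 496509) (.g (nat_lit 738) (.e (nat_lit 163907) (nat_lit 12) (.e (nat_lit 426428) (nat_lit 17) (.e (nat_lit 90165) (nat_lit 12) (.e (nat_lit 164248) (nat_lit 201) .nil)))) (.g (nat_lit 0) (.e (nat_lit 155728) (nat_lit 0) .nil) .nil))))) (.nd (nat_lit 8) (.nd (nat_lit 9) 
(.lf (nat_lit 495869) (.g (nat_lit 1926) (.e (nat_lit 163905) (nat_lit 12) (.e (nat_lit 426428) (nat_lit 17) (.e (nat_lit 90170) (nat_lit 13) (.e (nat_lit 172113) (nat_lit 10) (.e (nat_lit 434199) (nat_lit 18) .nil))))) (.g (nat_lit 0) (.e (nat_lit 154547) (nat_lit 0) .nil) .nil))) 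
(.lf (nat_lit 496381) (.g (nat_lit 894) (.e (nat_lit 163905) (nat_lit 12) (.e (nat_lit 426568) (nat_lit 34) (.e (nat_lit 393283) (nat_lit 24) (.e (nat_lit 434232) (nat_lit 23) .nil)))) (.g (nat_lit 0) (.e (nat_lit 155180) (nat_lit 0) .nil) .nil)))) (.nd (nat_lit 9) 
(.lf (nat_lit 496125) (.g (nat_lit 3530) (.e (nat_lit 163905) (nat_lit 12) (.e (nat_lit 426544) (nat_lit 30) (.e (nat_lit 360467) (nat_lit 3) (.e (nat_lit 516195) (nat_lit 26) (.e (nat_lit 335996) (nat_lit 1) (.e (nat_lit 57929) (nat_lit 282) .nil)))))) (.g (nat_lit 1) (.e (nat_lit 154907) (nat_lit 0) .nil) .nil))) 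
(.lf (nat_lit 496637) (.g (nat_lit 2434) (.e (nat_lit 163907) (nat_lit 12) (.e (nat_lit 426555) (nat_lit 32) (.e (nat_lit 376865) (nat_lit 22) (.e (nat_lit 90158) (nat_lit 11) (.e (nat_lit 24599) (nat_lit 1) (.e (nat_lit 57924) (nat_lit 282) .nil)))))) (.g (nat_lit 1) (.e (nat_lit 155878) (nat_lit 0) .nil) .nil))))))))))) 
(.nd (nat_lit 2) (.nd (nat_lit 3) (.nd (nat_lit 4) (.nd (nat_lit 5) (.nd (nat_lit 6) 
(.nd (nat_lit 7) (.nd (nat_lit 8) (.nd (nat_lit 9) 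
(.lf (nat_lit 495619) (.g (nat_lit 2893) (.e (nat_lit 163903) (nat_lit 12) (.e (nat_lit 426568) (nat_lit 34) (.e (nat_lit 393287) (nat_lit 25) (.e (nat_lit 458789) (nat_lit 23) (.e (nat_lit 532502) (nat_lit 1) (.e (nat_lit 57686) (nat_lit 156) .nil)))))) (.g (nat_lit 1) (.e (nat_lit 154041) (nat_lit 0) .nil) .nil))) 
(.lf (nat_lit 496131) (.g (nat_lit 3157) (.e (nat_lit 163905) (nat_lit 12) (.e (nat_lit 426546) (nat_lit 30) (.e (nat_lit 360466) (nat_lit 3) (.e (nat_lit 516195) (nat_lit 26) (.e (nat_lit 335986) (nat_lit 1) (.e (nat_lit 57926) (nat_lit 282) .nil)))))) (.g (nat_lit 1) (.e (nat_lit 154914) (nat_lit 0) .nil) .nil)))) (.nd (nat_lit 9) 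
(.lf (nat_lit 495875) (.g (nat_lit 1931) (.e (nat_lit 163905) (nat_lit 12) (.e (nat_lit 426428) (nat_lit 17) (.e (nat_lit 90170) (nat_lit 13) (.e (nat_lit 172121) (nat_lit 13) (.e (nat_lit 483366) (nat_lit 18) (.e (nat_lit 57692) (nat_lit 156) .nil)))))) (.g (nat_lit 1) (.e (nat_lit 154553) (nat_lit 0) .nil) .nil))) 
(.lf (nat_lit 496387) (.g (nat_lit 3550) (.e (nat_lit 163905) (nat_lit 12) (.e (nat_lit 426568) (nat_lit 34) (.e (nat_lit 393286) (nat_lit 25) (.e (nat_lit 458789) (nat_lit 23) (.e (nat_lit 532499) (nat_lit 1) (.e (nat_lit 57688) (nat_lit 156) .nil)))))) (.g (nat_lit 1) (.e (nat_lit 155186) (nat_lit 0) .nil) .nil))))) (.nd (nat_lit 8) (.nd (nat_lit 9) 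
(.lf (nat_lit 495747) (.g (nat_lit 1000) (.e (nat_lit 163904) (nat_lit 12) (.e (nat_lit 426566) (nat_lit 34) (.e (nat_lit 393290) (nat_lit 26) .nil))) (.g (nat_lit 0) (.e (nat_lit 154213) (nat_lit 0) .nil) .nil))) 
(.lf (nat_lit 496259) (.g (nat_lit 3636) (.e (nat_lit 163905) (nat_lit 12) (.e (nat_lit 426566) (nat_lit 34) (.e (nat_lit 393291) (nat_lit 26) (.e (nat_lit 475179) (nat_lit 24) (.e (nat_lit 516115) (nat_lit 1) (.e (nat_lit 164325) (nat_lit 230) .nil)))))) (.g (nat_lit 1) (.e (nat_lit 155057) (nat_lit 0) .nil) .nil)))) (.nd (nat_lit 9) 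
(.lf (nat_lit 496003) (.g (nat_lit 2935) (.e (nat_lit 163905) (nat_lit 12) (.e (nat_lit 426479) (nat_lit 27) (.e (nat_lit 336434) (nat_lit 30) (.e (nat_lit 450579) (nat_lit 5) (.e (nat_lit 532503) (nat_lit 1) (.e (nat_lit 57685) (nat_lit 156) .nil)))))) (.g (nat_lit 1) (.e (nat_lit 154686) (nat_lit 0) .nil) .nil))) 
(.lf (nat_lit 496515) (.g (nat_lit 2131) (.e (nat_lit 163907) (nat_lit 12) (.e (nat_lit 426428) (nat_lit 17) (.e (nat_lit 90170) (nat_lit 13) (.e (nat_lit 172123) (nat_lit 13) (.e (nat_lit 483366) (nat_lit 18) (.e (nat_lit 57691) (nat_lit 156) .nil)))))) (.g (nat_lit 1) (.e (nat_lit 155734) (nat_lit 0) .nil) .nil)))))) (.nd (nat_lit 7) (.nd (nat_lit 8) (.nd (nat_lit 9) 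
(.lf (nat_lit 495683) (.g (nat_lit 2395) (.e (nat_lit 163904) (nat_lit 12) (.e (nat_lit 426555) (nat_lit 32) (.e (nat_lit 376869) (nat_lit 23) (.e (nat_lit 98317) (nat_lit 9) (.e (nat_lit 335986) (nat_lit 1) (.e (nat_lit 57927) (nat_lit 282) .nil)))))) (.g (nat_lit 1) (.e (nat_lit 154147) (nat_lit 0) .nil) .nil))) 
(.lf (nat_lit 496195) (.g (nat_lit 2331) (.e (nat_lit 163905) (nat_lit 12) (.e (nat_lit 426564) (nat_lit 34) (.e (nat_lit 393294) (nat_lit 26) (.e (nat_lit 475179) (nat_lit 24) (.e (nat_lit 516120) (nat_lit 1) (.e (nat_lit 164330) (nat_lit 230) .nil)))))) (.g (nat_lit 1) (.e (nat_lit 154993) (nat_lit 0) .nil) .nil)))) (.nd (nat_lit 9) 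
(.lf (nat_lit 495939) (.g (nat_lit 2997) (.e (nat_lit 163905) (nat_lit 12) (.e (nat_lit 426438) (nat_lit 18) (.e (nat_lit 98358) (nat_lit 26) (.e (nat_lit 426323) (nat_lit 13) (.e (nat_lit 483366) (nat_lit 18) (.e (nat_lit 57688) (nat_lit 156) .nil)))))) (.g (nat_lit 1) (.e (nat_lit 154620) (nat_lit 0) .nil) .nil))) 
(.lf (nat_lit 496451) (.g (nat_lit 1886) (.e (nat_lit 163906) (nat_lit 12) (.e (nat_lit 426436) (nat_lit 18) (.e (nat_lit 98381) (nat_lit 31) (.e (nat_lit 466954) (nat_lit 11) (.e (nat_lit 335994) (nat_lit 1) .nil))))) (.g (nat_lit 0) (.e (nat_lit 155405) (nat_lit 0) .nil) .nil))))) (.nd (nat_lit 8) (.nd (nat_lit 9) 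
(.lf (nat_lit 495811) (.g (nat_lit 3231) (.e (nat_lit 163904) (nat_lit 12) (.e (nat_lit 426566) (nat_lit 34) (.e (nat_lit 393294) (nat_lit 26) (.e (nat_lit 475177) (nat_lit 24) (.e (nat_lit 516118) (nat_lit 1) (.e (nat_lit 164325) (nat_lit 230) .nil)))))) (.g (nat_lit 1) (.e (nat_lit 154278) (nat_lit 0) .nil) .nil))) 
(.lf (nat_lit 496323) (.g (nat_lit 2943) (.e (nat_lit 163905) (nat_lit 12) (.e (nat_lit 426568) (nat_lit 34) (.e (nat_lit 393260) (nat_lit 21) (.e (nat_lit 409631) (nat_lit 12) .nil)))) (.g (nat_lit 0) (.e (nat_lit 155122) (nat_lit 0) .nil) .nil)))) (.nd (nat_lit 9) 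
(.lf (nat_lit 496067) (.g (nat_lit 2783) (.e (nat_lit 163905) (nat_lit 12) (.e (nat_lit 426506) (nat_lit 27) (.e (nat_lit 336389) (nat_lit 27) (.e (nat_lit 426308) (nat_lit 12) (.e (nat_lit 475177) (nat_lit 24) (.e (nat_lit 516120) (nat_lit 1) (.e (nat_lit 164330) (nat_lit 230) .nil))))))) (.g (nat_lit 1) (.e (nat_lit 154845) (nat_lit 0) .nil) .nil))) 
(.lf (nat_lit 496579) (.g (nat_lit 1709) (.e (nat_lit 163907) (nat_lit 12) (.e (nat_lit 426479) (nat_lit 27) (.e (nat_lit 336414) (nat_lit 27) (.e (nat_lit 426232) (nat_lit 9) (.e (nat_lit 426435) (nat_lit 18) (.e (nat_lit 98335) (nat_lit 18) (.e (nat_lit 164325) (nat_lit 230) .nil))))))) (.g (nat_lit 1) (.e (nat_lit 155805) (nat_lit 0) .nil) .nil))))))) 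
(.nd (nat_lit 6) (.nd (nat_lit 7) (.nd (nat_lit 8) (.nd (nat_lit 9) 
(.lf (nat_lit 495651) (.g (nat_lit 4201) (.e (nat_lit 163903) (nat_lit 12) (.e (nat_lit 426568) (nat_lit 34) (.e (nat_lit 393294) (nat_lit 26) (.e (nat_lit 475179) (nat_lit 24) (.e (nat_lit 516119) (nat_lit 1) (.e (nat_lit 164326) (nat_lit 230) .nil)))))) (.g (nat_lit 1) (.e (nat_lit 154076) (nat_lit 0) .nil) .nil))) 
(.lf (nat_lit 496163) (.g (nat_lit 3084) (.e (nat_lit 163905) (nat_lit 12) (.e (nat_lit 426555) (nat_lit 32) (.e (nat_lit 376865) (nat_lit 22) (.e (nat_lit 90158) (nat_lit 11) (.e (nat_lit 24598) (nat_lit 1) (.e (nat_lit 57926) (nat_lit 282) .nil)))))) (.g (nat_lit 1) (.e (nat_lit 154956) (nat_lit 0) .nil) .nil)))) (.nd (nat_lit 9) 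
(.lf (nat_lit 495907) (.g (nat_lit 3031) (.e (nat_lit 163905) (nat_lit 12) (.e (nat_lit 426436) (nat_lit 18) (.e (nat_lit 98358) (nat_lit 26) (.e (nat_lit 426323) (nat_lit 13) (.e (nat_lit 483363) (nat_lit 18) (.e (nat_lit 57688) (nat_lit 156) .nil)))))) (.g (nat_lit 1) (.e (nat_lit 154586) (nat_lit 0) .nil) .nil))) 
(.lf (nat_lit 496419) (.g (nat_lit 3793) (.e (nat_lit 163905) (nat_lit 12) (.e (nat_lit 426568) (nat_lit 34) (.e (nat_lit 393294) (nat_lit 26) (.e (nat_lit 475179) (nat_lit 24) (.e (nat_lit 516120) (nat_lit 1) (.e (nat_lit 164332) (nat_lit 230) .nil)))))) (.g (nat_lit 1) (.e (nat_lit 155218) (nat_lit 0) .nil) .nil))))) (.nd (nat_lit 8) (.nd (nat_lit 9) 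
(.lf (nat_lit 495779) (.g (nat_lit 3119) (.e (nat_lit 163904) (nat_lit 12) (.e (nat_lit 426566) (nat_lit 34) (.e (nat_lit 393291) (nat_lit 26) (.e (nat_lit 475179) (nat_lit 24) (.e (nat_lit 516117) (nat_lit 1) (.e (nat_lit 164332) (nat_lit 230) .nil)))))) (.g (nat_lit 1) (.e (nat_lit 154246) (nat_lit 0) .nil) .nil))) 
(.lf (nat_lit 496291) (.g (nat_lit 1265) (.e (nat_lit 163905) (nat_lit 12) (.e (nat_lit 426566) (nat_lit 34) (.e (nat_lit 393296) (nat_lit 26) (.e (nat_lit 475175) (nat_lit 24) .nil)))) (.g (nat_lit 0) (.e (nat_lit 155089) (nat_lit 0) .nil) .nil)))) (.nd (nat_lit 9) 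
(.lf (nat_lit 496035) (.g (nat_lit 591) (.e (nat_lit 163905) (nat_lit 12) (.e (nat_lit 426482) (nat_lit 27) (.e (nat_lit 336410) (nat_lit 27) .nil))) (.g (nat_lit 0) (.e (nat_lit 154809) (nat_lit 0) .nil) .nil))) 
(.lf (nat_lit 496547) (.g (nat_lit 2257) (.e (nat_lit 163907) (nat_lit 12) (.e (nat_lit 426436) (nat_lit 18) (.e (nat_lit 98381) (nat_lit 31) (.e (nat_lit 466954) (nat_lit 11) (.e (nat_lit 335987) (nat_lit 1) (.e (nat_lit 57691) (nat_lit 156) .nil)))))) (.g (nat_lit 1) (.e (nat_lit 155771) (nat_lit 0) .nil) .nil)))))) (.nd (nat_lit 7) (.nd (nat_lit 8) (.nd (nat_lit 9) 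
(.lf (nat_lit 495715) (.g (nat_lit 3452) (.e (nat_lit 163904) (nat_lit 12) (.e (nat_lit 426566) (nat_lit 34) (.e (nat_lit 393271) (nat_lit 23) (.e (nat_lit 426131) (nat_lit 3) (.e (nat_lit 204829) (nat_lit 18) (.e (nat_lit 57688) (nat_lit 156) .nil)))))) (.g (nat_lit 1) (.e (nat_lit 154181) (nat_lit 0) .nil) .nil))) 
(.lf (nat_lit 496227) (.g (nat_lit 2764) (.e (nat_lit 163905) (nat_lit 12) (.e (nat_lit 426566) (nat_lit 34) (.e (nat_lit 393272) (nat_lit 23) (.e (nat_lit 426438) (nat_lit 18) (.e (nat_lit 98335) (nat_lit 18) (.e (nat_lit 164332) (nat_lit 230) .nil)))))) (.g (nat_lit 1) (.e (nat_lit 155025) (nat_lit 0) .nil) .nil)))) (.nd (nat_lit 9) 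
(.lf (nat_lit 495971) (.g (nat_lit 2444) (.e (nat_lit 163905) (nat_lit 12) (.e (nat_lit 426478) (nat_lit 27) (.e (nat_lit 336389) (nat_lit 27) (.e (nat_lit 426190) (nat_lit 9) (.e (nat_lit 426436) (nat_lit 18) (.e (nat_lit 98335) (nat_lit 18) (.e (nat_lit 164330) (nat_lit 230) .nil))))))) (.g (nat_lit 1) (.e (nat_lit 154654) (nat_lit 0) .nil) .nil))) 
(.lf (nat_lit 496483) (.g (nat_lit 3412) (.e (nat_lit 163906) (nat_lit 12) (.e (nat_lit 426566) (nat_lit 34) (.e (nat_lit 393293) (nat_lit 26) (.e (nat_lit 475177) (nat_lit 24) (.e (nat_lit 516115) (nat_lit 1) (.e (nat_lit 164325) (nat_lit 230) .nil)))))) (.g (nat_lit 1) (.e (nat_lit 155438) (nat_lit 0) .nil) .nil))))) (.nd (nat_lit 8) (.nd (nat_lit 9) 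
(.lf (nat_lit 495843) (.g (nat_lit 627) (.e (nat_lit 163904) (nat_lit 12) (.e (nat_lit 426568) (nat_lit 34) (.e (nat_lit 393283) (nat_lit 24) .nil))) (.g (nat_lit 0) (.e (nat_lit 154314) (nat_lit 0) .nil) .nil))) 
(.lf (nat_lit 496355) (.g (nat_lit 3526) (.e (nat_lit 163905) (nat_lit 12) (.e (nat_lit 426568) (nat_lit 34) (.e (nat_lit 393271) (nat_lit 23) (.e (nat_lit 426131) (nat_lit 3) (.e (nat_lit 204831) (nat_lit 18) (.e (nat_lit 57688) (nat_lit 156) .nil)))))) (.g (nat_lit 1) (.e (nat_lit 155154) (nat_lit 0) .nil) .nil)))) (.nd (nat_lit 9) 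
(.lf (nat_lit 496099) (.g (nat_lit 2903) (.e (nat_lit 163905) (nat_lit 12) (.e (nat_lit 426542) (nat_lit 29) (.e (nat_lit 352313) (nat_lit 23) (.e (nat_lit 98313) (nat_lit 9) (.e (nat_lit 335995) (nat_lit 1) (.e (nat_lit 57931) (nat_lit 282) .nil)))))) (.g (nat_lit 1) (.e (nat_lit 154880) (nat_lit 0) .nil) .nil))) 
(.lf (nat_lit 496611) (.g (nat_lit 2424) (.e (nat_lit 163907) (nat_lit 12) (.e (nat_lit 426481) (nat_lit 27) (.e (nat_lit 336388) (nat_lit 27) (.e (nat_lit 426188) (nat_lit 9) (.e (nat_lit 426436) (nat_lit 18) (.e (nat_lit 98335) (nat_lit 18) (.e (nat_lit 164325) (nat_lit 230) .nil))))))) (.g (nat_lit 1) (.e (nat_lit 155841) (nat_lit 0) .nil) .nil)))))))) 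
(.nd (nat_lit 5) (.nd (nat_lit 6) (.nd (nat_lit 7) (.nd (nat_lit 8) (.nd (nat_lit 9) 
(.lf (nat_lit 495635) (.g (nat_lit 2936) (.e (nat_lit 163903) (nat_lit 12) (.e (nat_lit 426568) (nat_lit 34) (.e (nat_lit 393292) (nat_lit 26) (.e (nat_lit 475179) (nat_lit 24) (.e (nat_lit 516119) (nat_lit 1) (.e (nat_lit 164325) (nat_lit 230) .nil)))))) (.g (nat_lit 1) (.e (nat_lit 154059) (nat_lit 0) .nil) .nil))) 
(.lf (nat_lit 496147) (.g (nat_lit 2743) (.e (nat_lit 163905) (nat_lit 12) (.e (nat_lit 426555) (nat_lit 32) (.e (nat_lit 376862) (nat_lit 22) (.e (nat_lit 90158) (nat_lit 11) (.e (nat_lit 24597) (nat_lit 1) (.e (nat_lit 57927) (nat_lit 282) .nil)))))) (.g (nat_lit 1) (.e (nat_lit 154936) (nat_lit 0) .nil) .nil)))) (.nd (nat_lit 9) 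
(.lf (nat_lit 495891) (.g (nat_lit 3362) (.e (nat_lit 163905) (nat_lit 12) (.e (nat_lit 426428) (nat_lit 17) (.e (nat_lit 90176) (nat_lit 15) (.e (nat_lit 188423) (nat_lit 11) (.e (nat_lit 335996) (nat_lit 1) (.e (nat_lit 57692) (nat_lit 156) .nil)))))) (.g (nat_lit 1) (.e (nat_lit 154570) (nat_lit 0) .nil) .nil))) 
(.lf (nat_lit 496403) (.g (nat_lit 1964) (.e (nat_lit 163905) (nat_lit 12) (.e (nat_lit 426568) (nat_lit 34) (.e (nat_lit 393292) (nat_lit 26) (.e (nat_lit 475177) (nat_lit 24) (.e (nat_lit 516117) (nat_lit 1) (.e (nat_lit 164332) (nat_lit 230) .nil)))))) (.g (nat_lit 1) (.e (nat_lit 155202) (nat_lit 0) .nil) .nil))))) (.nd (nat_lit 8) (.nd (nat_lit 9) 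
(.lf (nat_lit 495763) (.g (nat_lit 2983) (.e (nat_lit 163904) (nat_lit 12) (.e (nat_lit 426566) (nat_lit 34) (.e (nat_lit 393291) (nat_lit 26) (.e (nat_lit 475177) (nat_lit 24) (.e (nat_lit 516118) (nat_lit 1) (.e (nat_lit 164325) (nat_lit 230) .nil)))))) (.g (nat_lit 1) (.e (nat_lit 154230) (nat_lit 0) .nil) .nil))) 
(.lf (nat_lit 496275) (.g (nat_lit 3092) (.e (nat_lit 163905) (nat_lit 12) (.e (nat_lit 426566) (nat_lit 34) (.e (nat_lit 393294) (nat_lit 26) (.e (nat_lit 475177) (nat_lit 24) (.e (nat_lit 516118) (nat_lit 1) (.e (nat_lit 164325) (nat_lit 230) .nil)))))) (.g (nat_lit 1) (.e (nat_lit 155073) (nat_lit 0) .nil) .nil)))) (.nd (nat_lit 9) 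
(.lf (nat_lit 496019) (.g (nat_lit 4745) (.e (nat_lit 163905) (nat_lit 12) (.e (nat_lit 426482) (nat_lit 27) (.e (nat_lit 336385) (nat_lit 27) (.e (nat_lit 426187) (nat_lit 9) (.e (nat_lit 426436) (nat_lit 18) (.e (nat_lit 98335) (nat_lit 18) (.e (nat_lit 164330) (nat_lit 230) .nil))))))) (.g (nat_lit 1) (.e (nat_lit 154704) (nat_lit 0) .nil) .nil))) 
(.lf (nat_lit 496531) (.g (nat_lit 3429) (.e (nat_lit 163907) (nat_lit 12) (.e (nat_lit 426436) (nat_lit 18) (.e (nat_lit 98358) (nat_lit 26) (.e (nat_lit 426323) (nat_lit 13) (.e (nat_lit 483363) (nat_lit 18) (.e (nat_lit 57692) (nat_lit 156) .nil)))))) (.g (nat_lit 1) (.e (nat_lit 155753) (nat_lit 0) .nil) .nil)))))) (.nd (nat_lit 7) (.nd (nat_lit 8) (.nd (nat_lit 9) 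
(.lf (nat_lit 495699) (.g (nat_lit 3088) (.e (nat_lit 163904) (nat_lit 12) (.e (nat_lit 426566) (nat_lit 34) (.e (nat_lit 393268) (nat_lit 23) (.e (nat_lit 426436) (nat_lit 18) (.e (nat_lit 98335) (nat_lit 18) (.e (nat_lit 164329) (nat_lit 230) .nil)))))) (.g (nat_lit 1) (.e (nat_lit 154164) (nat_lit 0) .nil) .nil))) 
(.lf (nat_lit 496211) (.g (nat_lit 1481) (.e (nat_lit 163905) (nat_lit 12) (.e (nat_lit 426566) (nat_lit 34) (.e (nat_lit 393271) (nat_lit 23) (.e (nat_lit 433920) (nat_lit 3) .nil)))) (.g (nat_lit 0) (.e (nat_lit 155009) (nat_lit 0) .nil) .nil)))) (.nd (nat_lit 9) 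
(.lf (nat_lit 495955) (.g (nat_lit 3212) (.e (nat_lit 163905) (nat_lit 12) (.e (nat_lit 426438) (nat_lit 18) (.e (nat_lit 98380) (nat_lit 31) (.e (nat_lit 466954) (nat_lit 11) (.e (nat_lit 335996) (nat_lit 1) (.e (nat_lit 57691) (nat_lit 156) .nil)))))) (.g (nat_lit 1) (.e (nat_lit 154638) (nat_lit 0) .nil) .nil))) 
(.lf (nat_lit 496467) (.g (nat_lit 1533) (.e (nat_lit 163906) (nat_lit 12) (.e (nat_lit 426478) (nat_lit 27) (.e (nat_lit 336443) (nat_lit 32) (.e (nat_lit 466981) (nat_lit 23) (.e (nat_lit 204829) (nat_lit 18) (.e (nat_lit 57691) (nat_lit 156) .nil)))))) (.g (nat_lit 1) (.e (nat_lit 155421) (nat_lit 0) .nil) .nil))))) (.nd (nat_lit 8) (.nd (nat_lit 9) 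
(.lf (nat_lit 495827) (.g (nat_lit 3918) (.e (nat_lit 163904) (nat_lit 12) (.e (nat_lit 426566) (nat_lit 34) (.e (nat_lit 393294) (nat_lit 26) (.e (nat_lit 475179) (nat_lit 24) (.e (nat_lit 516115) (nat_lit 1) (.e (nat_lit 164325) (nat_lit 230) .nil)))))) (.g (nat_lit 1) (.e (nat_lit 154294) (nat_lit 0) .nil) .nil))) 
(.lf (nat_lit 496339) (.g (nat_lit 3111) (.e (nat_lit 163905) (nat_lit 12) (.e (nat_lit 426568) (nat_lit 34) (.e (nat_lit 393268) (nat_lit 23) (.e (nat_lit 426438) (nat_lit 18) (.e (nat_lit 98335) (nat_lit 18) (.e (nat_lit 164332) (nat_lit 230) .nil)))))) (.g (nat_lit 1) (.e (nat_lit 155138) (nat_lit 0) .nil) .nil)))) (.nd (nat_lit 9) 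
(.lf (nat_lit 496083) (.g (nat_lit 2999) (.e (nat_lit 163905) (nat_lit 12) (.e (nat_lit 426530) (nat_lit 27) (.e (nat_lit 336390) (nat_lit 27) (.e (nat_lit 426308) (nat_lit 12) (.e (nat_lit 475177) (nat_lit 24) (.e (nat_lit 516117) (nat_lit 1) (.e (nat_lit 164332) (nat_lit 230) .nil))))))) (.g (nat_lit 1) (.e (nat_lit 154861) (nat_lit 0) .nil) .nil))) 
(.lf (nat_lit 496595) (.g (nat_lit 2605) (.e (nat_lit 163907) (nat_lit 12) (.e (nat_lit 426480) (nat_lit 27) (.e (nat_lit 336389) (nat_lit 27) (.e (nat_lit 426308) (nat_lit 12) (.e (nat_lit 475179) (nat_lit 24) (.e (nat_lit 516115) (nat_lit 1) (.e (nat_lit 164325) (nat_lit 230) .nil))))))) (.g (nat_lit 1) (.e (nat_lit 155822) (nat_lit 0) .nil) .nil))))))) 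
(.nd (nat_lit 6) (.nd (nat_lit 7) (.nd (nat_lit 8) (.nd (nat_lit 9) 
(.lf (nat_lit 495667) (.g (nat_lit 2617) (.e (nat_lit 163904) (nat_lit 12) (.e (nat_lit 426555) (nat_lit 32) (.e (nat_lit 376867) (nat_lit 23) (.e (nat_lit 98313) (nat_lit 9) (.e (nat_lit 335988) (nat_lit 1) (.e (nat_lit 57926) (nat_lit 282) .nil)))))) (.g (nat_lit 1) (.e (nat_lit 154131) (nat_lit 0) .nil) .nil))) 
(.lf (nat_lit 496179) (.g (nat_lit 2216) (.e (nat_lit 163905) (nat_lit 12) (.e (nat_lit 426555) (nat_lit 32) (.e (nat_lit 376868) (nat_lit 23) (.e (nat_lit 98317) (nat_lit 9) (.e (nat_lit 335986) (nat_lit 1) (.e (nat_lit 57927) (nat_lit 282) .nil)))))) (.g (nat_lit 1) (.e (nat_lit 154976) (nat_lit 0) .nil) .nil)))) (.nd (nat_lit 9) 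
(.lf (nat_lit 495923) (.g (nat_lit 2757) (.e (nat_lit 163905) (nat_lit 12) (.e (nat_lit 426436) (nat_lit 18) (.e (nat_lit 98380) (nat_lit 31) (.e (nat_lit 466954) (nat_lit 11) (.e (nat_lit 335996) (nat_lit 1) (.e (nat_lit 57692) (nat_lit 156) .nil)))))) (.g (nat_lit 1) (.e (nat_lit 154604) (nat_lit 0) .nil) .nil))) 
(.lf (nat_lit 496435) (.g (nat_lit 1997) (.e (nat_lit 163906) (nat_lit 12) (.e (nat_lit 426436) (nat_lit 18) (.e (nat_lit 98358) (nat_lit 26) (.e (nat_lit 426323) (nat_lit 13) .nil)))) (.g (nat_lit 0) (.e (nat_lit 155388) (nat_lit 0) .nil) .nil))))) (.nd (nat_lit 8) (.nd (nat_lit 9) 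
(.lf (nat_lit 495795) (.g (nat_lit 2109) (.e (nat_lit 163904) (nat_lit 12) (.e (nat_lit 426566) (nat_lit 34) (.e (nat_lit 393293) (nat_lit 26) (.e (nat_lit 475178) (nat_lit 24) (.e (nat_lit 516120) (nat_lit 1) (.e (nat_lit 164329) (nat_lit 230) .nil)))))) (.g (nat_lit 1) (.e (nat_lit 154262) (nat_lit 0) .nil) .nil))) 
(.lf (nat_lit 496307) (.g (nat_lit 2268) (.e (nat_lit 163905) (nat_lit 12) (.e (nat_lit 426566) (nat_lit 34) (.e (nat_lit 393296) (nat_lit 26) (.e (nat_lit 475179) (nat_lit 24) (.e (nat_lit 516116) (nat_lit 1) (.e (nat_lit 164332) (nat_lit 230) .nil)))))) (.g (nat_lit 1) (.e (nat_lit 155105) (nat_lit 0) .nil) .nil)))) (.nd (nat_lit 9) 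
(.lf (nat_lit 496051) (.g (nat_lit 2436) (.e (nat_lit 163905) (nat_lit 12) (.e (nat_lit 426489) (nat_lit 27) (.e (nat_lit 336405) (nat_lit 27) (.e (nat_lit 426188) (nat_lit 9) (.e (nat_lit 426436) (nat_lit 18) (.e (nat_lit 98334) (nat_lit 18) (.e (nat_lit 164330) (nat_lit 230) .nil))))))) (.g (nat_lit 1) (.e (nat_lit 154829) (nat_lit 0) .nil) .nil))) 
(.lf (nat_lit 496563) (.g (nat_lit 2646) (.e (nat_lit 163907) (nat_lit 12) (.e (nat_lit 426438) (nat_lit 18) (.e (nat_lit 98358) (nat_lit 26) (.e (nat_lit 426323) (nat_lit 13) (.e (nat_lit 483365) (nat_lit 18) (.e (nat_lit 57687) (nat_lit 156) .nil)))))) (.g (nat_lit 1) (.e (nat_lit 155788) (nat_lit 0) .nil) .nil)))))) (.nd (nat_lit 7) (.nd (nat_lit 8) (.nd (nat_lit 9) 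
(.lf (nat_lit 495731) (.g (nat_lit 2810) (.e (nat_lit 163904) (nat_lit 12) (.e (nat_lit 426566) (nat_lit 34) (.e (nat_lit 393271) (nat_lit 23) (.e (nat_lit 426438) (nat_lit 18) (.e (nat_lit 98334) (nat_lit 18) (.e (nat_lit 164332) (nat_lit 230) .nil)))))) (.g (nat_lit 1) (.e (nat_lit 154197) (nat_lit 0) .nil) .nil))) 
(.lf (nat_lit 496243) (.g (nat_lit 2674) (.e (nat_lit 163905) (nat_lit 12) (.e (nat_lit 426566) (nat_lit 34) (.e (nat_lit 393286) (nat_lit 25) (.e (nat_lit 458789) (nat_lit 23) (.e (nat_lit 532499) (nat_lit 1) (.e (nat_lit 57692) (nat_lit 156) .nil)))))) (.g (nat_lit 1) (.e (nat_lit 155041) (nat_lit 0) .nil) .nil)))) (.nd (nat_lit 9) 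
(.lf (nat_lit 495987) (.g (nat_lit 2630) (.e (nat_lit 163905) (nat_lit 12) (.e (nat_lit 426478) (nat_lit 27) (.e (nat_lit 336443) (nat_lit 32) (.e (nat_lit 466981) (nat_lit 23) (.e (nat_lit 204830) (nat_lit 18) (.e (nat_lit 57692) (nat_lit 156) .nil)))))) (.g (nat_lit 1) (.e (nat_lit 154670) (nat_lit 0) .nil) .nil))) 
(.lf (nat_lit 496499) (.g (nat_lit 4152) (.e (nat_lit 163907) (nat_lit 12) (.e (nat_lit 426131) (nat_lit 3) (.e (nat_lit 204869) (nat_lit 29) (.e (nat_lit 360474) (nat_lit 8) (.e (nat_lit 557094) (nat_lit 12) .nil))))) (.g (nat_lit 0) (.e (nat_lit 155475) (nat_lit 0) .nil) .nil))))) (.nd (nat_lit 8) (.nd (nat_lit 9) 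
(.lf (nat_lit 495859) (.g (nat_lit 982) (.e (nat_lit 163905) (nat_lit 12) (.e (nat_lit 426320) (nat_lit 12) (.e (nat_lit 475210) (nat_lit 41) (.e (nat_lit 712755) (nat_lit 30) .nil)))) (.g (nat_lit 0) (.e (nat_lit 154348) (nat_lit 0) .nil) .nil))) 
(.lf (nat_lit 496371) (.g (nat_lit 2027) (.e (nat_lit 163905) (nat_lit 12) (.e (nat_lit 426568) (nat_lit 34) (.e (nat_lit 393281) (nat_lit 23) (.e (nat_lit 426139) (nat_lit 3) (.e (nat_lit 204830) (nat_lit 18) (.e (nat_lit 57692) (nat_lit 156) .nil)))))) (.g (nat_lit 1) (.e (nat_lit 155170) (nat_lit 0) .nil) .nil)))) (.nd (nat_lit 9) 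
(.lf (nat_lit 496115) (.g (nat_lit 3229) (.e (nat_lit 163905) (nat_lit 12) (.e (nat_lit 426542) (nat_lit 29) (.e (nat_lit 352315) (nat_lit 23) (.e (nat_lit 98313) (nat_lit 9) (.e (nat_lit 335995) (nat_lit 1) (.e (nat_lit 57931) (nat_lit 282) .nil)))))) (.g (nat_lit 1) (.e (nat_lit 154896) (nat_lit 0) .nil) .nil))) 
(.lf (nat_lit 496627) (.g (nat_lit 2867) (.e (nat_lit 163907) (nat_lit 12) (.e (nat_lit 426555) (nat_lit 32) (.e (nat_lit 376862) (nat_lit 22) (.e (nat_lit 90158) (nat_lit 11) (.e (nat_lit 24598) (nat_lit 1) (.e (nat_lit 57927) (nat_lit 282) .nil)))))) (.g (nat_lit 1) (.e (nat_lit 155862) (nat_lit 0) .nil) .nil))))))))) 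
(.nd (nat_lit 4) (.nd (nat_lit 5) (.nd (nat_lit 6) (.nd (nat_lit 7) (.nd (nat_lit 8) 
(.nd (nat_lit 9) 
(.lf (nat_lit 495627) (.g (nat_lit 3701) (.e (nat_lit 163903) (nat_lit 12) (.e (nat_lit 426568) (nat_lit 34) (.e (nat_lit 393291) (nat_lit 26) (.e (nat_lit 475177) (nat_lit 24) (.e (nat_lit 516119) (nat_lit 1) (.e (nat_lit 164325) (nat_lit 230) .nil)))))) (.g (nat_lit 1) (.e (nat_lit 154051) (nat_lit 0) .nil) .nil))) 
(.lf (nat_lit 496139) (.g (nat_lit 1004) (.e (nat_lit 163905) (nat_lit 12) (.e (nat_lit 426546) (nat_lit 30) (.e (nat_lit 360466) (nat_lit 3) (.e (nat_lit 516198) (nat_lit 26) .nil)))) (.g (nat_lit 0) (.e (nat_lit 154922) (nat_lit 0) .nil) .nil)))) (.nd (nat_lit 9) 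
(.lf (nat_lit 495883) (.g (nat_lit 1841) (.e (nat_lit 163905) (nat_lit 12) (.e (nat_lit 426428) (nat_lit 17) (.e (nat_lit 90170) (nat_lit 13) (.e (nat_lit 172123) (nat_lit 13) (.e (nat_lit 483364) (nat_lit 18) .nil))))) (.g (nat_lit 0) (.e (nat_lit 154561) (nat_lit 0) .nil) .nil))) 
(.lf (nat_lit 496395) (.g (nat_lit 3373) (.e (nat_lit 163905) (nat_lit 12) (.e (nat_lit 426568) (nat_lit 34) (.e (nat_lit 393291) (nat_lit 26) (.e (nat_lit 475177) (nat_lit 24) (.e (nat_lit 516115) (nat_lit 1) (.e (nat_lit 164332) (nat_lit 230) .nil)))))) (.g (nat_lit 1) (.e (nat_lit 155194) (nat_lit 0) .nil) .nil))))) (.nd (nat_lit 8) (.nd (nat_lit 9) 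
(.lf (nat_lit 495755) (.g (nat_lit 3067) (.e (nat_lit 163904) (nat_lit 12) (.e (nat_lit 426566) (nat_lit 34) (.e (nat_lit 393291) (nat_lit 26) (.e (nat_lit 475177) (nat_lit 24) (.e (nat_lit 516115) (nat_lit 1) (.e (nat_lit 164331) (nat_lit 230) .nil)))))) (.g (nat_lit 1) (.e (nat_lit 154222) (nat_lit 0) .nil) .nil))) 
(.lf (nat_lit 496267) (.g (nat_lit 2172) (.e (nat_lit 163905) (nat_lit 12) (.e (nat_lit 426566) (nat_lit 34) (.e (nat_lit 393293) (nat_lit 26) (.e (nat_lit 475177) (nat_lit 24) (.e (nat_lit 516118) (nat_lit 1) (.e (nat_lit 164325) (nat_lit 230) .nil)))))) (.g (nat_lit 1) (.e (nat_lit 155065) (nat_lit 0) .nil) .nil)))) (.nd (nat_lit 9) 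
(.lf (nat_lit 496011) (.g (nat_lit 2206) (.e (nat_lit 163905) (nat_lit 12) (.e (nat_lit 426480) (nat_lit 27) (.e (nat_lit 336385) (nat_lit 27) (.e (nat_lit 426306) (nat_lit 12) (.e (nat_lit 475177) (nat_lit 24) (.e (nat_lit 516120) (nat_lit 1) (.e (nat_lit 164330) (nat_lit 230) .nil))))))) (.g (nat_lit 1) (.e (nat_lit 154694) (nat_lit 0) .nil) .nil))) 
(.lf (nat_lit 496523) (.g (nat_lit 2584) (.e (nat_lit 163907) (nat_lit 12) (.e (nat_lit 426432) (nat_lit 17) (.e (nat_lit 90178) (nat_lit 15) (.e (nat_lit 188421) (nat_lit 11) (.e (nat_lit 335986) (nat_lit 1) (.e (nat_lit 57691) (nat_lit 156) .nil)))))) (.g (nat_lit 1) (.e (nat_lit 155742) (nat_lit 0) .nil) .nil)))))) (.nd (nat_lit 7) (.nd (nat_lit 8) (.nd (nat_lit 9) 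
(.lf (nat_lit 495691) (.g (nat_lit 3309) (.e (nat_lit 163904) (nat_lit 12) (.e (nat_lit 426566) (nat_lit 34) (.e (nat_lit 393268) (nat_lit 23) (.e (nat_lit 426436) (nat_lit 18) (.e (nat_lit 98333) (nat_lit 18) (.e (nat_lit 164325) (nat_lit 230) .nil)))))) (.g (nat_lit 1) (.e (nat_lit 154156) (nat_lit 0) .nil) .nil))) 
(.lf (nat_lit 496203) (.g (nat_lit 2493) (.e (nat_lit 163905) (nat_lit 12) (.e (nat_lit 426566) (nat_lit 34) (.e (nat_lit 393270) (nat_lit 23) (.e (nat_lit 426438) (nat_lit 18) (.e (nat_lit 98335) (nat_lit 18) (.e (nat_lit 164325) (nat_lit 230) .nil)))))) (.g (nat_lit 1) (.e (nat_lit 155001) (nat_lit 0) .nil) .nil)))) (.nd (nat_lit 9) 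
(.lf (nat_lit 495947) (.g (nat_lit 1815) (.e (nat_lit 163905) (nat_lit 12) (.e (nat_lit 426438) (nat_lit 18) (.e (nat_lit 98372) (nat_lit 29) (.e (nat_lit 450568) (nat_lit 0) (.e (nat_lit 7936) (nat_lit 369) .nil))))) (.g (nat_lit 0) (.e (nat_lit 154628) (nat_lit 0) .nil) .nil))) 
(.lf (nat_lit 496459) (.g (nat_lit 2687) (.e (nat_lit 163906) (nat_lit 12) (.e (nat_lit 426438) (nat_lit 18) (.e (nat_lit 98370) (nat_lit 28) (.e (nat_lit 442390) (nat_lit 11) (.e (nat_lit 335986) (nat_lit 1) (.e (nat_lit 57692) (nat_lit 156) .nil)))))) (.g (nat_lit 1) (.e (nat_lit 155413) (nat_lit 0) .nil) .nil))))) (.nd (nat_lit 8) (.nd (nat_lit 9) 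
(.lf (nat_lit 495819) (.g (nat_lit 3257) (.e (nat_lit 163904) (nat_lit 12) (.e (nat_lit 426566) (nat_lit 34) (.e (nat_lit 393294) (nat_lit 26) (.e (nat_lit 475177) (nat_lit 24) (.e (nat_lit 516119) (nat_lit 1) (.e (nat_lit 164326) (nat_lit 230) .nil)))))) (.g (nat_lit 1) (.e (nat_lit 154286) (nat_lit 0) .nil) .nil))) 
(.lf (nat_lit 496331) (.g (nat_lit 2945) (.e (nat_lit 163905) (nat_lit 12) (.e (nat_lit 426568) (nat_lit 34) (.e (nat_lit 393267) (nat_lit 23) (.e (nat_lit 426438) (nat_lit 18) (.e (nat_lit 98334) (nat_lit 18) (.e (nat_lit 164332) (nat_lit 230) .nil)))))) (.g (nat_lit 1) (.e (nat_lit 155130) (nat_lit 0) .nil) .nil)))) (.nd (nat_lit 9) 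
(.lf (nat_lit 496075) (.g (nat_lit 2106) (.e (nat_lit 163905) (nat_lit 12) (.e (nat_lit 426530) (nat_lit 27) (.e (nat_lit 336390) (nat_lit 27) (.e (nat_lit 426190) (nat_lit 9) (.e (nat_lit 426438) (nat_lit 18) .nil))))) (.g (nat_lit 0) (.e (nat_lit 154853) (nat_lit 0) .nil) .nil))) 
(.lf (nat_lit 496587) (.g (nat_lit 1837) (.e (nat_lit 163907) (nat_lit 12) (.e (nat_lit 426479) (nat_lit 27) (.e (nat_lit 336432) (nat_lit 30) (.e (nat_lit 450579) (nat_lit 5) (.e (nat_lit 532503) (nat_lit 1) (.e (nat_lit 57685) (nat_lit 156) .nil)))))) (.g (nat_lit 1) (.e (nat_lit 155813) (nat_lit 0) .nil) .nil))))))) (.nd (nat_lit 6) (.nd (nat_lit 7) (.nd (nat_lit 8) (.nd (nat_lit 9) 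
(.lf (nat_lit 495659) (.g (nat_lit 1402) (.e (nat_lit 163904) (nat_lit 12) (.e (nat_lit 426436) (nat_lit 18) (.e (nat_lit 98381) (nat_lit 31) (.e (nat_lit 466950) (nat_lit 11) .nil)))) (.g (nat_lit 0) (.e (nat_lit 154099) (nat_lit 0) .nil) .nil))) 
(.lf (nat_lit 496171) (.g (nat_lit 515) (.e (nat_lit 163905) (nat_lit 12) (.e (nat_lit 426555) (nat_lit 32) (.e (nat_lit 376866) (nat_lit 23) .nil))) (.g (nat_lit 0) (.e (nat_lit 154968) (nat_lit 0) .nil) .nil)))) (.nd (nat_lit 9) 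
(.lf (nat_lit 495915) (.g (nat_lit 2870) (.e (nat_lit 163905) (nat_lit 12) (.e (nat_lit 426436) (nat_lit 18) (.e (nat_lit 98358) (nat_lit 26) (.e (nat_lit 426323) (nat_lit 13) (.e (nat_lit 483366) (nat_lit 18) (.e (nat_lit 57692) (nat_lit 156) .nil)))))) (.g (nat_lit 1) (.e (nat_lit 154594) (nat_lit 0) .nil) .nil))) 
(.lf (nat_lit 496427) (.g (nat_lit 2102) (.e (nat_lit 163906) (nat_lit 12) (.e (nat_lit 426428) (nat_lit 17) (.e (nat_lit 90170) (nat_lit 13) (.e (nat_lit 172122) (nat_lit 13) (.e (nat_lit 483363) (nat_lit 18) .nil))))) (.g (nat_lit 0) (.e (nat_lit 155379) (nat_lit 0) .nil) .nil))))) (.nd (nat_lit 8) (.nd (nat_lit 9) 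
(.lf (nat_lit 495787) (.g (nat_lit 3086) (.e (nat_lit 163904) (nat_lit 12) (.e (nat_lit 426566) (nat_lit 34) (.e (nat_lit 393291) (nat_lit 26) (.e (nat_lit 475179) (nat_lit 24) (.e (nat_lit 516120) (nat_lit 1) (.e (nat_lit 164332) (nat_lit 230) .nil)))))) (.g (nat_lit 1) (.e (nat_lit 154254) (nat_lit 0) .nil) .nil))) 
(.lf (nat_lit 496299) (.g (nat_lit 2990) (.e (nat_lit 163905) (nat_lit 12) (.e (nat_lit 426566) (nat_lit 34) (.e (nat_lit 393296) (nat_lit 26) (.e (nat_lit 475178) (nat_lit 24) (.e (nat_lit 516117) (nat_lit 1) (.e (nat_lit 164329) (nat_lit 230) .nil)))))) (.g (nat_lit 1) (.e (nat_lit 155097) (nat_lit 0) .nil) .nil)))) (.nd (nat_lit 9) 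
(.lf (nat_lit 496043) (.g (nat_lit 2930) (.e (nat_lit 163905) (nat_lit 12) (.e (nat_lit 426481) (nat_lit 27) (.e (nat_lit 336389) (nat_lit 27) (.e (nat_lit 426190) (nat_lit 9) (.e (nat_lit 426436) (nat_lit 18) (.e (nat_lit 98335) (nat_lit 18) (.e (nat_lit 164330) (nat_lit 230) .nil))))))) (.g (nat_lit 1) (.e (nat_lit 154821) (nat_lit 0) .nil) .nil))) 
(.lf (nat_lit 496555) (.g (nat_lit 2225) (.e (nat_lit 163907) (nat_lit 12) (.e (nat_lit 426437) (nat_lit 18) (.e (nat_lit 98359) (nat_lit 26) (.e (nat_lit 426324) (nat_lit 13) (.e (nat_lit 483363) (nat_lit 18) (.e (nat_lit 57692) (nat_lit 156) .nil)))))) (.g (nat_lit 1) (.e (nat_lit 155779) (nat_lit 0) .nil) .nil)))))) (.nd (nat_lit 7) (.nd (nat_lit 8) (.nd (nat_lit 9) 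
(.lf (nat_lit 495723) (.g (nat_lit 3307) (.e (nat_lit 163904) (nat_lit 12) (.e (nat_lit 426566) (nat_lit 34) (.e (nat_lit 393271) (nat_lit 23) (.e (nat_lit 426436) (nat_lit 18) (.e (nat_lit 98334) (nat_lit 18) (.e (nat_lit 164322) (nat_lit 230) .nil)))))) (.g (nat_lit 1) (.e (nat_lit 154189) (nat_lit 0) .nil) .nil))) 
(.lf (nat_lit 496235) (.g (nat_lit 2908) (.e (nat_lit 163905) (nat_lit 12) (.e (nat_lit 426566) (nat_lit 34) (.e (nat_lit 393273) (nat_lit 23) (.e (nat_lit 426437) (nat_lit 18) (.e (nat_lit 98333) (nat_lit 18) (.e (nat_lit 164332) (nat_lit 230) .nil)))))) (.g (nat_lit 1) (.e (nat_lit 155033) (nat_lit 0) .nil) .nil)))) (.nd (nat_lit 9) 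
(.lf (nat_lit 495979) (.g (nat_lit 3289) (.e (nat_lit 163905) (nat_lit 12) (.e (nat_lit 426478) (nat_lit 27) (.e (nat_lit 336389) (nat_lit 27) (.e (nat_lit 426308) (nat_lit 12) (.e (nat_lit 475179) (nat_lit 24) (.e (nat_lit 516120) (nat_lit 1) (.e (nat_lit 164330) (nat_lit 230) .nil))))))) (.g (nat_lit 1) (.e (nat_lit 154662) (nat_lit 0) .nil) .nil))) 
(.lf (nat_lit 496491) (.g (nat_lit 2700) (.e (nat_lit 163907) (nat_lit 12) (.e (nat_lit 426128) (nat_lit 2) (.e (nat_lit 196672) (nat_lit 15) (.e (nat_lit 81954) (nat_lit 23) (.e (nat_lit 106240) (nat_lit 1) (.e (nat_lit 57692) (nat_lit 156) .nil)))))) (.g (nat_lit 1) (.e (nat_lit 155446) (nat_lit 0) .nil) .nil))))) (.nd (nat_lit 8) (.nd (nat_lit 9) 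
(.lf (nat_lit 495851) (.g (nat_lit 1873) (.e (nat_lit 163905) (nat_lit 12) (.e (nat_lit 426320) (nat_lit 12) (.e (nat_lit 475196) (nat_lit 40) (.e (nat_lit 704599) (nat_lit 6) (.e (nat_lit 188453) (nat_lit 24) (.e (nat_lit 229681) (nat_lit 244) .nil)))))) (.g (nat_lit 1) (.e (nat_lit 154338) (nat_lit 0) .nil) .nil))) 
(.lf (nat_lit 496363) (.g (nat_lit 3272) (.e (nat_lit 163905) (nat_lit 12) (.e (nat_lit 426568) (nat_lit 34) (.e (nat_lit 393271) (nat_lit 23) (.e (nat_lit 426438) (nat_lit 18) (.e (nat_lit 98335) (nat_lit 18) (.e (nat_lit 164332) (nat_lit 230) .nil)))))) (.g (nat_lit 1) (.e (nat_lit 155162) (nat_lit 0) .nil) .nil)))) (.nd (nat_lit 9) 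
(.lf (nat_lit 496107) (.g (nat_lit 1133) (.e (nat_lit 163905) (nat_lit 12) (.e (nat_lit 426542) (nat_lit 29) (.e (nat_lit 352315) (nat_lit 23) (.e (nat_lit 98312) (nat_lit 9) .nil)))) (.g (nat_lit 0) (.e (nat_lit 154888) (nat_lit 0) .nil) .nil))) 
(.lf (nat_lit 496619) (.g (nat_lit 2067) (.e (nat_lit 163907) (nat_lit 12) (.e (nat_lit 426544) (nat_lit 30) (.e (nat_lit 360467) (nat_lit 3) (.e (nat_lit 516199) (nat_lit 26) (.e (nat_lit 335986) (nat_lit 1) (.e (nat_lit 57927) (nat_lit 282) .nil)))))) (.g (nat_lit 1) (.e (nat_lit 155849) (nat_lit 0) .nil) .nil)))))))) 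
(.nd (nat_lit 5) (.nd (nat_lit 6) (.nd (nat_lit 7) (.nd (nat_lit 8) (.nd (nat_lit 9) 
(.lf (nat_lit 495643) (.g (nat_lit 3442) (.e (nat_lit 163903) (nat_lit 12) (.e (nat_lit 426568) (nat_lit 34) (.e (nat_lit 393294) (nat_lit 26) (.e (nat_lit 475176) (nat_lit 24) (.e (nat_lit 516119) (nat_lit 1) (.e (nat_lit 164326) (nat_lit 230) .nil)))))) (.g (nat_lit 1) (.e (nat_lit 154068) (nat_lit 0) .nil) .nil))) 
(.lf (nat_lit 496155) (.g (nat_lit 2270) (.e (nat_lit 163905) (nat_lit 12) (.e (nat_lit 426555) (nat_lit 32) (.e (nat_lit 376862) (nat_lit 22) (.e (nat_lit 90160) (nat_lit 11) (.e (nat_lit 24588) (nat_lit 0) .nil))))) (.g (nat_lit 0) (.e (nat_lit 154944) (nat_lit 0) .nil) .nil)))) (.nd (nat_lit 9) 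
(.lf (nat_lit 495899) (.g (nat_lit 1476) (.e (nat_lit 163905) (nat_lit 12) (.e (nat_lit 426432) (nat_lit 17) (.e (nat_lit 90176) (nat_lit 15) (.e (nat_lit 188423) (nat_lit 11) (.e (nat_lit 335986) (nat_lit 1) .nil))))) (.g (nat_lit 0) (.e (nat_lit 154578) (nat_lit 0) .nil) .nil))) 
(.lf (nat_lit 496411) (.g (nat_lit 3849) (.e (nat_lit 163905) (nat_lit 12) (.e (nat_lit 426568) (nat_lit 34) (.e (nat_lit 393294) (nat_lit 26) (.e (nat_lit 475177) (nat_lit 24) (.e (nat_lit 516115) (nat_lit 1) (.e (nat_lit 164332) (nat_lit 230) .nil)))))) (.g (nat_lit 1) (.e (nat_lit 155210) (nat_lit 0) .nil) .nil))))) (.nd (nat_lit 8) (.nd (nat_lit 9) 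
(.lf (nat_lit 495771) (.g (nat_lit 2980) (.e (nat_lit 163904) (nat_lit 12) (.e (nat_lit 426566) (nat_lit 34) (.e (nat_lit 393291) (nat_lit 26) (.e (nat_lit 475177) (nat_lit 24) (.e (nat_lit 516119) (nat_lit 1) (.e (nat_lit 164326) (nat_lit 230) .nil)))))) (.g (nat_lit 1) (.e (nat_lit 154238) (nat_lit 0) .nil) .nil))) 
(.lf (nat_lit 496283) (.g (nat_lit 3173) (.e (nat_lit 163905) (nat_lit 12) (.e (nat_lit 426566) (nat_lit 34) (.e (nat_lit 393295) (nat_lit 26) (.e (nat_lit 475177) (nat_lit 24) (.e (nat_lit 516115) (nat_lit 1) (.e (nat_lit 164332) (nat_lit 230) .nil)))))) (.g (nat_lit 1) (.e (nat_lit 155081) (nat_lit 0) .nil) .nil)))) (.nd (nat_lit 9) 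
(.lf (nat_lit 496027) (.g (nat_lit 3078) (.e (nat_lit 163905) (nat_lit 12) (.e (nat_lit 426482) (nat_lit 27) (.e (nat_lit 336386) (nat_lit 27) (.e (nat_lit 426190) (nat_lit 9) (.e (nat_lit 426436) (nat_lit 18) (.e (nat_lit 98335) (nat_lit 18) (.e (nat_lit 164332) (nat_lit 230) .nil))))))) (.g (nat_lit 1) (.e (nat_lit 154744) (nat_lit 0) .nil) .nil))) 
(.lf (nat_lit 496539) (.g (nat_lit 1818) (.e (nat_lit 163907) (nat_lit 12) (.e (nat_lit 426436) (nat_lit 18) (.e (nat_lit 98370) (nat_lit 28) (.e (nat_lit 442388) (nat_lit 11) (.e (nat_lit 335987) (nat_lit 1) .nil))))) (.g (nat_lit 0) (.e (nat_lit 155763) (nat_lit 0) .nil) .nil)))))) (.nd (nat_lit 7) (.nd (nat_lit 8) (.nd (nat_lit 9) 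
(.lf (nat_lit 495707) (.g (nat_lit 2600) (.e (nat_lit 163904) (nat_lit 12) (.e (nat_lit 426566) (nat_lit 34) (.e (nat_lit 393268) (nat_lit 23) (.e (nat_lit 426438) (nat_lit 18) (.e (nat_lit 98335) (nat_lit 18) (.e (nat_lit 164329) (nat_lit 230) .nil)))))) (.g (nat_lit 1) (.e (nat_lit 154172) (nat_lit 0) .nil) .nil))) 
(.lf (nat_lit 496219) (.g (nat_lit 2041) (.e (nat_lit 163905) (nat_lit 12) (.e (nat_lit 426566) (nat_lit 34) (.e (nat_lit 393272) (nat_lit 23) (.e (nat_lit 426131) (nat_lit 3) (.e (nat_lit 204830) (nat_lit 18) (.e (nat_lit 57689) (nat_lit 156) .nil)))))) (.g (nat_lit 1) (.e (nat_lit 155017) (nat_lit 0) .nil) .nil)))) (.nd (nat_lit 9) 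
(.lf (nat_lit 495963) (.g (nat_lit 2149) (.e (nat_lit 163905) (nat_lit 12) (.e (nat_lit 426472) (nat_lit 25) (.e (nat_lit 319534) (nat_lit 16) (.e (nat_lit 286756) (nat_lit 10) (.e (nat_lit 344097) (nat_lit 18) .nil))))) (.g (nat_lit 0) (.e (nat_lit 154646) (nat_lit 0) .nil) .nil))) 
(.lf (nat_lit 496475) (.g (nat_lit 2554) (.e (nat_lit 163906) (nat_lit 12) (.e (nat_lit 426555) (nat_lit 32) (.e (nat_lit 376867) (nat_lit 23) (.e (nat_lit 98313) (nat_lit 9) (.e (nat_lit 335986) (nat_lit 1) (.e (nat_lit 57926) (nat_lit 282) .nil)))))) (.g (nat_lit 1) (.e (nat_lit 155430) (nat_lit 0) .nil) .nil))))) (.nd (nat_lit 8) (.nd (nat_lit 9) 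
(.lf (nat_lit 495835) (.g (nat_lit 3612) (.e (nat_lit 163904) (nat_lit 12) (.e (nat_lit 426566) (nat_lit 34) (.e (nat_lit 393294) (nat_lit 26) (.e (nat_lit 475179) (nat_lit 24) (.e (nat_lit 516120) (nat_lit 1) (.e (nat_lit 164330) (nat_lit 230) .nil)))))) (.g (nat_lit 1) (.e (nat_lit 154302) (nat_lit 0) .nil) .nil))) 
(.lf (nat_lit 496347) (.g (nat_lit 2993) (.e (nat_lit 163905) (nat_lit 12) (.e (nat_lit 426568) (nat_lit 34) (.e (nat_lit 393270) (nat_lit 23) (.e (nat_lit 426436) (nat_lit 18) (.e (nat_lit 98335) (nat_lit 18) (.e (nat_lit 164332) (nat_lit 230) .nil)))))) (.g (nat_lit 1) (.e (nat_lit 155146) (nat_lit 0) .nil) .nil)))) (.nd (nat_lit 9) 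
(.lf (nat_lit 496091) (.g (nat_lit 2333) (.e (nat_lit 163905) (nat_lit 12) (.e (nat_lit 426542) (nat_lit 29) (.e (nat_lit 352313) (nat_lit 23) (.e (nat_lit 98312) (nat_lit 9) (.e (nat_lit 335988) (nat_lit 1) (.e (nat_lit 57927) (nat_lit 282) .nil)))))) (.g (nat_lit 1) (.e (nat_lit 154872) (nat_lit 0) .nil) .nil))) 
(.lf (nat_lit 496603) (.g (nat_lit 2117) (.e (nat_lit 163907) (nat_lit 12) (.e (nat_lit 426481) (nat_lit 27) (.e (nat_lit 336389) (nat_lit 27) (.e (nat_lit 426190) (nat_lit 9) (.e (nat_lit 426436) (nat_lit 18) (.e (nat_lit 98333) (nat_lit 18) (.e (nat_lit 164325) (nat_lit 230) .nil))))))) (.g (nat_lit 1) (.e (nat_lit 155833) (nat_lit 0) .nil) .nil))))))) 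
(.nd (nat_lit 6) (.nd (nat_lit 7) (.nd (nat_lit 8) (.nd (nat_lit 9) 
(.lf (nat_lit 495675) (.g (nat_lit 1765) (.e (nat_lit 163904) (nat_lit 12) (.e (nat_lit 426555) (nat_lit 32) (.e (nat_lit 376868) (nat_lit 23) (.e (nat_lit 98317) (nat_lit 9) (.e (nat_lit 335988) (nat_lit 1) .nil))))) (.g (nat_lit 0) (.e (nat_lit 154139) (nat_lit 0) .nil) .nil))) 
(.lf (nat_lit 496187) (.g (nat_lit 3353) (.e (nat_lit 163905) (nat_lit 12) (.e (nat_lit 426555) (nat_lit 32) (.e (nat_lit 376869) (nat_lit 23) (.e (nat_lit 98317) (nat_lit 9) (.e (nat_lit 335988) (nat_lit 1) (.e (nat_lit 57931) (nat_lit 282) .nil)))))) (.g (nat_lit 1) (.e (nat_lit 154984) (nat_lit 0) .nil) .nil)))) (.nd (nat_lit 9) 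
(.lf (nat_lit 495931) (.g (nat_lit 3035) (.e (nat_lit 163905) (nat_lit 12) (.e (nat_lit 426437) (nat_lit 18) (.e (nat_lit 98365) (nat_lit 26) (.e (nat_lit 426325) (nat_lit 13) (.e (nat_lit 483363) (nat_lit 18) (.e (nat_lit 57692) (nat_lit 156) .nil)))))) (.g (nat_lit 1) (.e (nat_lit 154612) (nat_lit 0) .nil) .nil))) 
(.lf (nat_lit 496443) (.g (nat_lit 972) (.e (nat_lit 163906) (nat_lit 12) (.e (nat_lit 426436) (nat_lit 18) (.e (nat_lit 98379) (nat_lit 31) .nil))) (.g (nat_lit 0) (.e (nat_lit 155397) (nat_lit 0) .nil) .nil))))) (.nd (nat_lit 8) (.nd (nat_lit 9) 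
(.lf (nat_lit 495803) (.g (nat_lit 3933) (.e (nat_lit 163904) (nat_lit 12) (.e (nat_lit 426566) (nat_lit 34) (.e (nat_lit 393294) (nat_lit 26) (.e (nat_lit 475177) (nat_lit 24) (.e (nat_lit 516115) (nat_lit 1) (.e (nat_lit 164325) (nat_lit 230) .nil)))))) (.g (nat_lit 1) (.e (nat_lit 154270) (nat_lit 0) .nil) .nil))) 
(.lf (nat_lit 496315) (.g (nat_lit 1553) (.e (nat_lit 163905) (nat_lit 12) (.e (nat_lit 426567) (nat_lit 34) (.e (nat_lit 393293) (nat_lit 26) (.e (nat_lit 475177) (nat_lit 24) (.e (nat_lit 516120) (nat_lit 1) (.e (nat_lit 164332) (nat_lit 230) .nil)))))) (.g (nat_lit 1) (.e (nat_lit 155113) (nat_lit 0) .nil) .nil)))) (.nd (nat_lit 9) 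
(.lf (nat_lit 496059) (.g (nat_lit 2301) (.e (nat_lit 163905) (nat_lit 12) (.e (nat_lit 426509) (nat_lit 27) (.e (nat_lit 336389) (nat_lit 27) (.e (nat_lit 426308) (nat_lit 12) (.e (nat_lit 475179) (nat_lit 24) (.e (nat_lit 516120) (nat_lit 1) (.e (nat_lit 164330) (nat_lit 230) .nil))))))) (.g (nat_lit 1) (.e (nat_lit 154837) (nat_lit 0) .nil) .nil))) 
(.lf (nat_lit 496571) (.g (nat_lit 2938) (.e (nat_lit 163907) (nat_lit 12) (.e (nat_lit 426478) (nat_lit 27) (.e (nat_lit 336389) (nat_lit 27) (.e (nat_lit 426308) (nat_lit 12) (.e (nat_lit 475177) (nat_lit 24) (.e (nat_lit 516115) (nat_lit 1) (.e (nat_lit 164325) (nat_lit 230) .nil))))))) (.g (nat_lit 1) (.e (nat_lit 155796) (nat_lit 0) .nil) .nil)))))) 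
(.nd (nat_lit 7) (.nd (nat_lit 8) (.nd (nat_lit 9) 
(.lf (nat_lit 495739) (.g (nat_lit 998) (.e (nat_lit 163904) (nat_lit 12) (.e (nat_lit 426566) (nat_lit 34) (.e (nat_lit 393278) (nat_lit 23) .nil))) (.g (nat_lit 0) (.e (nat_lit 154205) (nat_lit 0) .nil) .nil))) 
(.lf (nat_lit 496251) (.g (nat_lit 2226) (.e (nat_lit 163905) (nat_lit 12) (.e (nat_lit 426566) (nat_lit 34) (.e (nat_lit 393289) (nat_lit 25) (.e (nat_lit 458789) (nat_lit 23) (.e (nat_lit 532499) (nat_lit 1) (.e (nat_lit 57692) (nat_lit 156) .nil)))))) (.g (nat_lit 1) (.e (nat_lit 155049) (nat_lit 0) .nil) .nil)))) (.nd (nat_lit 9) 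
(.lf (nat_lit 495995) (.g (nat_lit 1561) (.e (nat_lit 163905) (nat_lit 12) (.e (nat_lit 426479) (nat_lit 27) (.e (nat_lit 336432) (nat_lit 30) (.e (nat_lit 450579) (nat_lit 5) (.e (nat_lit 532504) (nat_lit 1) (.e (nat_lit 57690) (nat_lit 156) .nil)))))) (.g (nat_lit 1) (.e (nat_lit 154678) (nat_lit 0) .nil) .nil))) 
(.lf (nat_lit 496507) (.g (nat_lit 2202) (.e (nat_lit 163907) (nat_lit 12) (.e (nat_lit 426320) (nat_lit 12) (.e (nat_lit 475211) (nat_lit 41) (.e (nat_lit 712755) (nat_lit 30) (.e (nat_lit 450562) (nat_lit 0) (.e (nat_lit 7936) (nat_lit 310) .nil)))))) (.g (nat_lit 1) (.e (nat_lit 155517) (nat_lit 0) .nil) .nil))))) (.nd (nat_lit 8) (.nd (nat_lit 9) 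
(.lf (nat_lit 495867) (.g (nat_lit 2196) (.e (nat_lit 163905) (nat_lit 12) (.e (nat_lit 426320) (nat_lit 12) (.e (nat_lit 475211) (nat_lit 41) (.e (nat_lit 712755) (nat_lit 30) (.e (nat_lit 458496) (nat_lit 0) (.e (nat_lit 5587) (nat_lit 310) .nil)))))) (.g (nat_lit 1) (.e (nat_lit 154356) (nat_lit 0) .nil) .nil))) 
(.lf (nat_lit 496379) (.g (nat_lit 2109) (.e (nat_lit 163905) (nat_lit 12) (.e (nat_lit 426568) (nat_lit 34) (.e (nat_lit 393283) (nat_lit 24) (.e (nat_lit 434231) (nat_lit 23) (.e (nat_lit 532502) (nat_lit 1) (.e (nat_lit 57691) (nat_lit 156) .nil)))))) (.g (nat_lit 1) (.e (nat_lit 155178) (nat_lit 0) .nil) .nil)))) (.nd (nat_lit 9) 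
(.lf (nat_lit 496123) (.g (nat_lit 2306) (.e (nat_lit 163905) (nat_lit 12) (.e (nat_lit 426544) (nat_lit 30) (.e (nat_lit 360467) (nat_lit 3) (.e (nat_lit 516195) (nat_lit 26) (.e (nat_lit 335987) (nat_lit 1) (.e (nat_lit 57927) (nat_lit 282) .nil)))))) (.g (nat_lit 1) (.e (nat_lit 154905) (nat_lit 0) .nil) .nil))) 
(.lf (nat_lit 496635) (.g (nat_lit 1723) (.e (nat_lit 163907) (nat_lit 12) (.e (nat_lit 426555) (nat_lit 32) (.e (nat_lit 376865) (nat_lit 22) (.e (nat_lit 90158) (nat_lit 11) (.e (nat_lit 24598) (nat_lit 1) .nil))))) (.g (nat_lit 0) (.e (nat_lit 155876) (nat_lit 0) .nil) .nil)))))))))) 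
(.nd (nat_lit 3) (.nd (nat_lit 4) (.nd (nat_lit 5) (.nd (nat_lit 6) (.nd (nat_lit 7) 
(.nd (nat_lit 8) (.nd (nat_lit 9) 
(.lf (nat_lit 495623) (.g (nat_lit 4185) (.e (nat_lit 163903) (nat_lit 12) (.e (nat_lit 426568) (nat_lit 34) (.e (nat_lit 393291) (nat_lit 26) (.e (nat_lit 475177) (nat_lit 24) (.e (nat_lit 516115) (nat_lit 1) (.e (nat_lit 164325) (nat_lit 230) .nil)))))) (.g (nat_lit 1) (.e (nat_lit 154047) (nat_lit 0) .nil) .nil))) 
(.lf (nat_lit 496135) (.g (nat_lit 1668) (.e (nat_lit 163905) (nat_lit 12) (.e (nat_lit 426546) (nat_lit 30) (.e (nat_lit 360466) (nat_lit 3) (.e (nat_lit 516195) (nat_lit 26) (.e (nat_lit 335993) (nat_lit 1) (.e (nat_lit 57931) (nat_lit 282) .nil)))))) (.g (nat_lit 1) (.e (nat_lit 154918) (nat_lit 0) .nil) .nil)))) (.nd (nat_lit 9) 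
(.lf (nat_lit 495879) (.g (nat_lit 1965) (.e (nat_lit 163905) (nat_lit 12) (.e (nat_lit 426428) (nat_lit 17) (.e (nat_lit 90170) (nat_lit 13) (.e (nat_lit 172122) (nat_lit 13) (.e (nat_lit 483365) (nat_lit 18) .nil))))) (.g (nat_lit 0) (.e (nat_lit 154557) (nat_lit 0) .nil) .nil))) 
(.lf (nat_lit 496391) (.g (nat_lit 2314) (.e (nat_lit 163905) (nat_lit 12) (.e (nat_lit 426568) (nat_lit 34) (.e (nat_lit 393287) (nat_lit 25) (.e (nat_lit 458789) (nat_lit 23) (.e (nat_lit 532501) (nat_lit 1) (.e (nat_lit 57685) (nat_lit 156) .nil)))))) (.g (nat_lit 1) (.e (nat_lit 155190) (nat_lit 0) .nil) .nil))))) (.nd (nat_lit 8) (.nd (nat_lit 9) 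
(.lf (nat_lit 495751) (.g (nat_lit 1551) (.e (nat_lit 163904) (nat_lit 12) (.e (nat_lit 426566) (nat_lit 34) (.e (nat_lit 393291) (nat_lit 26) (.e (nat_lit 475175) (nat_lit 24) (.e (nat_lit 516116) (nat_lit 1) (.e (nat_lit 164329) (nat_lit 230) .nil)))))) (.g (nat_lit 1) (.e (nat_lit 154218) (nat_lit 0) .nil) .nil))) 
(.lf (nat_lit 496263) (.g (nat_lit 2628) (.e (nat_lit 163905) (nat_lit 12) (.e (nat_lit 426566) (nat_lit 34) (.e (nat_lit 393292) (nat_lit 26) (.e (nat_lit 475177) (nat_lit 24) (.e (nat_lit 516120) (nat_lit 1) (.e (nat_lit 164330) (nat_lit 230) .nil)))))) (.g (nat_lit 1) (.e (nat_lit 155061) (nat_lit 0) .nil) .nil)))) (.nd (nat_lit 9) 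
(.lf (nat_lit 496007) (.g (nat_lit 3144) (.e (nat_lit 163905) (nat_lit 12) (.e (nat_lit 426479) (nat_lit 27) (.e (nat_lit 336443) (nat_lit 32) (.e (nat_lit 466979) (nat_lit 23) (.e (nat_lit 204829) (nat_lit 18) (.e (nat_lit 57691) (nat_lit 156) .nil)))))) (.g (nat_lit 1) (.e (nat_lit 154690) (nat_lit 0) .nil) .nil))) 
(.lf (nat_lit 496519) (.g (nat_lit 4168) (.e (nat_lit 163907) (nat_lit 12) (.e (nat_lit 426428) (nat_lit 17) (.e (nat_lit 90178) (nat_lit 15) (.e (nat_lit 188421) (nat_lit 11) (.e (nat_lit 335988) (nat_lit 1) (.e (nat_lit 57691) (nat_lit 156) .nil)))))) (.g (nat_lit 1) (.e (nat_lit 155738) (nat_lit 0) .nil) .nil)))))) (.nd (nat_lit 7) (.nd (nat_lit 8) (.nd (nat_lit 9) 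
(.lf (nat_lit 495687) (.g (nat_lit 2655) (.e (nat_lit 163904) (nat_lit 12) (.e (nat_lit 426555) (nat_lit 32) (.e (nat_lit 376869) (nat_lit 23) (.e (nat_lit 98317) (nat_lit 9) (.e (nat_lit 335996) (nat_lit 1) (.e (nat_lit 57931) (nat_lit 282) .nil)))))) (.g (nat_lit 1) (.e (nat_lit 154151) (nat_lit 0) .nil) .nil))) 
(.lf (nat_lit 496199) (.g (nat_lit 2645) (.e (nat_lit 163905) (nat_lit 12) (.e (nat_lit 426566) (nat_lit 34) (.e (nat_lit 393270) (nat_lit 23) (.e (nat_lit 426131) (nat_lit 3) (.e (nat_lit 204829) (nat_lit 18) (.e (nat_lit 57692) (nat_lit 156) .nil)))))) (.g (nat_lit 1) (.e (nat_lit 154997) (nat_lit 0) .nil) .nil)))) (.nd (nat_lit 9) 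
(.lf (nat_lit 495943) (.g (nat_lit 2821) (.e (nat_lit 163905) (nat_lit 12) (.e (nat_lit 426438) (nat_lit 18) (.e (nat_lit 98369) (nat_lit 28) (.e (nat_lit 442390) (nat_lit 11) (.e (nat_lit 335986) (nat_lit 1) (.e (nat_lit 57688) (nat_lit 156) .nil)))))) (.g (nat_lit 1) (.e (nat_lit 154624) (nat_lit 0) .nil) .nil))) 
(.lf (nat_lit 496455) (.g (nat_lit 1698) (.e (nat_lit 163906) (nat_lit 12) (.e (nat_lit 426438) (nat_lit 18) (.e (nat_lit 98365) (nat_lit 26) (.e (nat_lit 426325) (nat_lit 13) (.e (nat_lit 483363) (nat_lit 18) (.e (nat_lit 57691) (nat_lit 156) .nil)))))) (.g (nat_lit 1) (.e (nat_lit 155409) (nat_lit 0) .nil) .nil))))) (.nd (nat_lit 8) (.nd (nat_lit 9) 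
(.lf (nat_lit 495815) (.g (nat_lit 3441) (.e (nat_lit 163904) (nat_lit 12) (.e (nat_lit 426566) (nat_lit 34) (.e (nat_lit 393294) (nat_lit 26) (.e (nat_lit 475177) (nat_lit 24) (.e (nat_lit 516118) (nat_lit 1) (.e (nat_lit 164331) (nat_lit 230) .nil)))))) (.g (nat_lit 1) (.e (nat_lit 154282) (nat_lit 0) .nil) .nil))) 
(.lf (nat_lit 496327) (.g (nat_lit 2195) (.e (nat_lit 163905) (nat_lit 12) (.e (nat_lit 426568) (nat_lit 34) (.e (nat_lit 393267) (nat_lit 23) (.e (nat_lit 426436) (nat_lit 18) (.e (nat_lit 98334) (nat_lit 18) (.e (nat_lit 164330) (nat_lit 230) .nil)))))) (.g (nat_lit 1) (.e (nat_lit 155126) (nat_lit 0) .nil) .nil)))) (.nd (nat_lit 9) 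
(.lf (nat_lit 496071) (.g (nat_lit 3570) (.e (nat_lit 163905) (nat_lit 12) (.e (nat_lit 426530) (nat_lit 27) (.e (nat_lit 336390) (nat_lit 27) (.e (nat_lit 426188) (nat_lit 9) (.e (nat_lit 426436) (nat_lit 18) (.e (nat_lit 98335) (nat_lit 18) (.e (nat_lit 164330) (nat_lit 230) .nil))))))) (.g (nat_lit 1) (.e (nat_lit 154849) (nat_lit 0) .nil) .nil))) 
(.lf (nat_lit 496583) (.g (nat_lit 2810) (.e (nat_lit 163907) (nat_lit 12) (.e (nat_lit 426479) (nat_lit 27) (.e (nat_lit 336430) (nat_lit 29) (.e (nat_lit 442425) (nat_lit 23) (.e (nat_lit 204831) (nat_lit 18) (.e (nat_lit 57692) (nat_lit 156) .nil)))))) (.g (nat_lit 1) (.e (nat_lit 155809) (nat_lit 0) .nil) .nil))))))) (.nd (nat_lit 6) (.nd (nat_lit 7) (.nd (nat_lit 8) (.nd (nat_lit 9) 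
(.lf (nat_lit 495655) (.g (nat_lit 1145) (.e (nat_lit 163904) (nat_lit 12) (.e (nat_lit 426428) (nat_lit 17) (.e (nat_lit 90176) (nat_lit 15) (.e (nat_lit 188423) (nat_lit 11) .nil)))) (.g (nat_lit 0) (.e (nat_lit 154095) (nat_lit 0) .nil) .nil))) 
(.lf (nat_lit 496167) (.g (nat_lit 1135) (.e (nat_lit 163905) (nat_lit 12) (.e (nat_lit 426555) (nat_lit 32) (.e (nat_lit 376865) (nat_lit 22) (.e (nat_lit 90160) (nat_lit 11) .nil)))) (.g (nat_lit 0) (.e (nat_lit 154960) (nat_lit 0) .nil) .nil)))) (.nd (nat_lit 9) 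
(.lf (nat_lit 495911) (.g (nat_lit 3140) (.e (nat_lit 163905) (nat_lit 12) (.e (nat_lit 426436) (nat_lit 18) (.e (nat_lit 98358) (nat_lit 26) (.e (nat_lit 426323) (nat_lit 13) (.e (nat_lit 483364) (nat_lit 18) (.e (nat_lit 57692) (nat_lit 156) .nil)))))) (.g (nat_lit 1) (.e (nat_lit 154590) (nat_lit 0) .nil) .nil))) 
(.lf (nat_lit 496423) (.g (nat_lit 591) (.e (nat_lit 163906) (nat_lit 12) (.e (nat_lit 426131) (nat_lit 3) (.e (nat_lit 204838) (nat_lit 20) .nil))) (.g (nat_lit 0) (.e (nat_lit 155222) (nat_lit 0) .nil) .nil))))) (.nd (nat_lit 8) (.nd (nat_lit 9) 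
(.lf (nat_lit 495783) (.g (nat_lit 3202) (.e (nat_lit 163904) (nat_lit 12) (.e (nat_lit 426566) (nat_lit 34) (.e (nat_lit 393291) (nat_lit 26) (.e (nat_lit 475179) (nat_lit 24) (.e (nat_lit 516119) (nat_lit 1) (.e (nat_lit 164326) (nat_lit 230) .nil)))))) (.g (nat_lit 1) (.e (nat_lit 154250) (nat_lit 0) .nil) .nil))) 
(.lf (nat_lit 496295) (.g (nat_lit 3036) (.e (nat_lit 163905) (nat_lit 12) (.e (nat_lit 426566) (nat_lit 34) (.e (nat_lit 393296) (nat_lit 26) (.e (nat_lit 475177) (nat_lit 24) (.e (nat_lit 516117) (nat_lit 1) (.e (nat_lit 164332) (nat_lit 230) .nil)))))) (.g (nat_lit 1) (.e (nat_lit 155093) (nat_lit 0) .nil) .nil)))) (.nd (nat_lit 9) 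
(.lf (nat_lit 496039) (.g (nat_lit 2456) (.e (nat_lit 163905) (nat_lit 12) (.e (nat_lit 426481) (nat_lit 27) (.e (nat_lit 336386) (nat_lit 27) (.e (nat_lit 426188) (nat_lit 9) (.e (nat_lit 426436) (nat_lit 18) (.e (nat_lit 98334) (nat_lit 18) (.e (nat_lit 164330) (nat_lit 230) .nil))))))) (.g (nat_lit 1) (.e (nat_lit 154817) (nat_lit 0) .nil) .nil))) 
(.lf (nat_lit 496551) (.g (nat_lit 2021) (.e (nat_lit 163907) (nat_lit 12) (.e (nat_lit 426436) (nat_lit 18) (.e (nat_lit 98381) (nat_lit 31) (.e (nat_lit 466954) (nat_lit 11) (.e (nat_lit 335993) (nat_lit 1) (.e (nat_lit 57691) (nat_lit 156) .nil)))))) (.g (nat_lit 1) (.e (nat_lit 155775) (nat_lit 0) .nil) .nil)))))) (.nd (nat_lit 7) (.nd (nat_lit 8) (.nd (nat_lit 9) 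
(.lf (nat_lit 495719) (.g (nat_lit 2441) (.e (nat_lit 163904) (nat_lit 12) (.e (nat_lit 426566) (nat_lit 34) (.e (nat_lit 393271) (nat_lit 23) (.e (nat_lit 426428) (nat_lit 17) (.e (nat_lit 90134) (nat_lit 9) (.e (nat_lit 2612) (nat_lit 163) (.e (nat_lit 164326) (nat_lit 230) .nil))))))) (.g (nat_lit 1) (.e (nat_lit 154185) (nat_lit 0) .nil) .nil))) 
(.lf (nat_lit 496231) (.g (nat_lit 2911) (.e (nat_lit 163905) (nat_lit 12) (.e (nat_lit 426566) (nat_lit 34) (.e (nat_lit 393273) (nat_lit 23) (.e (nat_lit 426131) (nat_lit 3) (.e (nat_lit 204831) (nat_lit 18) (.e (nat_lit 57688) (nat_lit 156) .nil)))))) (.g (nat_lit 1) (.e (nat_lit 155029) (nat_lit 0) .nil) .nil)))) (.nd (nat_lit 9) 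
(.lf (nat_lit 495975) (.g (nat_lit 2395) (.e (nat_lit 163905) (nat_lit 12) (.e (nat_lit 426478) (nat_lit 27) (.e (nat_lit 336389) (nat_lit 27) (.e (nat_lit 426308) (nat_lit 12) (.e (nat_lit 475177) (nat_lit 24) (.e (nat_lit 516117) (nat_lit 1) (.e (nat_lit 164332) (nat_lit 230) .nil))))))) (.g (nat_lit 1) (.e (nat_lit 154658) (nat_lit 0) .nil) .nil))) 
(.lf (nat_lit 496487) (.g (nat_lit 1708) (.e (nat_lit 163906) (nat_lit 12) (.e (nat_lit 426566) (nat_lit 34) (.e (nat_lit 393294) (nat_lit 26) (.e (nat_lit 475179) (nat_lit 24) .nil)))) (.g (nat_lit 0) (.e (nat_lit 155442) (nat_lit 0) .nil) .nil))))) (.nd (nat_lit 8) (.nd (nat_lit 9) 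
(.lf (nat_lit 495847) (.g (nat_lit 4875) (.e (nat_lit 163905) (nat_lit 12) (.e (nat_lit 426131) (nat_lit 3) (.e (nat_lit 204869) (nat_lit 29) (.e (nat_lit 360475) (nat_lit 8) (.e (nat_lit 557089) (nat_lit 12) .nil))))) (.g (nat_lit 0) (.e (nat_lit 154330) (nat_lit 0) .nil) .nil))) 
(.lf (nat_lit 496359) (.g (nat_lit 3939) (.e (nat_lit 163905) (nat_lit 12) (.e (nat_lit 426568) (nat_lit 34) (.e (nat_lit 393271) (nat_lit 23) (.e (nat_lit 426436) (nat_lit 18) (.e (nat_lit 98334) (nat_lit 18) (.e (nat_lit 164332) (nat_lit 230) .nil)))))) (.g (nat_lit 1) (.e (nat_lit 155158) (nat_lit 0) .nil) .nil)))) (.nd (nat_lit 9) 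
(.lf (nat_lit 496103) (.g (nat_lit 2687) (.e (nat_lit 163905) (nat_lit 12) (.e (nat_lit 426542) (nat_lit 29) (.e (nat_lit 352313) (nat_lit 23) (.e (nat_lit 98317) (nat_lit 9) (.e (nat_lit 335988) (nat_lit 1) (.e (nat_lit 57927) (nat_lit 282) .nil)))))) (.g (nat_lit 1) (.e (nat_lit 154884) (nat_lit 0) .nil) .nil))) 
(.lf (nat_lit 496615) (.g (nat_lit 2514) (.e (nat_lit 163907) (nat_lit 12) (.e (nat_lit 426544) (nat_lit 30) (.e (nat_lit 360467) (nat_lit 3) (.e (nat_lit 516195) (nat_lit 26) (.e (nat_lit 335987) (nat_lit 1) (.e (nat_lit 57927) (nat_lit 282) .nil)))))) (.g (nat_lit 1) (.e (nat_lit 155845) (nat_lit 0) .nil) .nil)))))))) 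
(.nd (nat_lit 5) (.nd (nat_lit 6) (.nd (nat_lit 7) (.nd (nat_lit 8) (.nd (nat_lit 9) 
(.lf (nat_lit 495639) (.g (nat_lit 3062) (.e (nat_lit 163903) (nat_lit 12) (.e (nat_lit 426568) (nat_lit 34) (.e (nat_lit 393293) (nat_lit 26) (.e (nat_lit 475177) (nat_lit 24) (.e (nat_lit 516119) (nat_lit 1) (.e (nat_lit 164326) (nat_lit 230) .nil)))))) (.g (nat_lit 1) (.e (nat_lit 154063) (nat_lit 0) .nil) .nil))) 
(.lf (nat_lit 496151) (.g (nat_lit 1505) (.e (nat_lit 163905) (nat_lit 12) (.e (nat_lit 426555) (nat_lit 32) (.e (nat_lit 376862) (nat_lit 22) (.e (nat_lit 90159) (nat_lit 11) .nil)))) (.g (nat_lit 0) (.e (nat_lit 154940) (nat_lit 0) .nil) .nil)))) (.nd (nat_lit 9) 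
(.lf (nat_lit 495895) (.g (nat_lit 2152) (.e (nat_lit 163905) (nat_lit 12) (.e (nat_lit 426428) (nat_lit 17) (.e (nat_lit 90178) (nat_lit 15) (.e (nat_lit 188421) (nat_lit 11) (.e (nat_lit 335995) (nat_lit 1) (.e (nat_lit 57687) (nat_lit 156) .nil)))))) (.g (nat_lit 1) (.e (nat_lit 154574) (nat_lit 0) .nil) .nil))) 
(.lf (nat_lit 496407) (.g (nat_lit 2731) (.e (nat_lit 163905) (nat_lit 12) (.e (nat_lit 426568) (nat_lit 34) (.e (nat_lit 393293) (nat_lit 26) (.e (nat_lit 475177) (nat_lit 24) (.e (nat_lit 516115) (nat_lit 1) (.e (nat_lit 164332) (nat_lit 230) .nil)))))) (.g (nat_lit 1) (.e (nat_lit 155206) (nat_lit 0) .nil) .nil))))) (.nd (nat_lit 8) (.nd (nat_lit 9) 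
(.lf (nat_lit 495767) (.g (nat_lit 3187) (.e (nat_lit 163904) (nat_lit 12) (.e (nat_lit 426566) (nat_lit 34) (.e (nat_lit 393291) (nat_lit 26) (.e (nat_lit 475177) (nat_lit 24) (.e (nat_lit 516118) (nat_lit 1) (.e (nat_lit 164331) (nat_lit 230) .nil)))))) (.g (nat_lit 1) (.e (nat_lit 154234) (nat_lit 0) .nil) .nil))) 
(.lf (nat_lit 496279) (.g (nat_lit 3861) (.e (nat_lit 163905) (nat_lit 12) (.e (nat_lit 426566) (nat_lit 34) (.e (nat_lit 393294) (nat_lit 26) (.e (nat_lit 475179) (nat_lit 24) (.e (nat_lit 516115) (nat_lit 1) (.e (nat_lit 164325) (nat_lit 230) .nil)))))) (.g (nat_lit 1) (.e (nat_lit 155077) (nat_lit 0) .nil) .nil)))) (.nd (nat_lit 9) 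
(.lf (nat_lit 496023) (.g (nat_lit 2509) (.e (nat_lit 163905) (nat_lit 12) (.e (nat_lit 426482) (nat_lit 27) (.e (nat_lit 336385) (nat_lit 27) (.e (nat_lit 426200) (nat_lit 9) (.e (nat_lit 426436) (nat_lit 18) (.e (nat_lit 98335) (nat_lit 18) (.e (nat_lit 164330) (nat_lit 230) .nil))))))) (.g (nat_lit 1) (.e (nat_lit 154720) (nat_lit 0) .nil) .nil))) 
(.lf (nat_lit 496535) (.g (nat_lit 2687) (.e (nat_lit 163907) (nat_lit 12) (.e (nat_lit 426436) (nat_lit 18) (.e (nat_lit 98369) (nat_lit 28) (.e (nat_lit 442390) (nat_lit 11) (.e (nat_lit 335986) (nat_lit 1) (.e (nat_lit 57692) (nat_lit 156) .nil)))))) (.g (nat_lit 1) (.e (nat_lit 155759) (nat_lit 0) .nil) .nil)))))) (.nd (nat_lit 7) (.nd (nat_lit 8) (.nd (nat_lit 9) 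
(.lf (nat_lit 495703) (.g (nat_lit 2894) (.e (nat_lit 163904) (nat_lit 12) (.e (nat_lit 426566) (nat_lit 34) (.e (nat_lit 393268) (nat_lit 23) (.e (nat_lit 426438) (nat_lit 18) (.e (nat_lit 98334) (nat_lit 18) (.e (nat_lit 164332) (nat_lit 230) .nil)))))) (.g (nat_lit 1) (.e (nat_lit 154168) (nat_lit 0) .nil) .nil))) 
(.lf (nat_lit 496215) (.g (nat_lit 3737) (.e (nat_lit 163905) (nat_lit 12) (.e (nat_lit 426566) (nat_lit 34) (.e (nat_lit 393271) (nat_lit 23) (.e (nat_lit 426436) (nat_lit 18) (.e (nat_lit 98335) (nat_lit 18) (.e (nat_lit 164324) (nat_lit 230) .nil)))))) (.g (nat_lit 1) (.e (nat_lit 155013) (nat_lit 0) .nil) .nil)))) (.nd (nat_lit 9) 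
(.lf (nat_lit 495959) (.g (nat_lit 2993) (.e (nat_lit 163905) (nat_lit 12) (.e (nat_lit 426438) (nat_lit 18) (.e (nat_lit 98381) (nat_lit 31) (.e (nat_lit 466954) (nat_lit 11) (.e (nat_lit 335995) (nat_lit 1) (.e (nat_lit 57688) (nat_lit 156) .nil)))))) (.g (nat_lit 1) (.e (nat_lit 154642) (nat_lit 0) .nil) .nil))) 
(.lf (nat_lit 496471) (.g (nat_lit 1818) (.e (nat_lit 163906) (nat_lit 12) (.e (nat_lit 426543) (nat_lit 29) (.e (nat_lit 352315) (nat_lit 23) (.e (nat_lit 98317) (nat_lit 9) (.e (nat_lit 335988) (nat_lit 1) .nil))))) (.g (nat_lit 0) (.e (nat_lit 155426) (nat_lit 0) .nil) .nil))))) (.nd (nat_lit 8) (.nd (nat_lit 9) 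
(.lf (nat_lit 495831) (.g (nat_lit 3858) (.e (nat_lit 163904) (nat_lit 12) (.e (nat_lit 426566) (nat_lit 34) (.e (nat_lit 393294) (nat_lit 26) (.e (nat_lit 475179) (nat_lit 24) (.e (nat_lit 516119) (nat_lit 1) (.e (nat_lit 164322) (nat_lit 230) .nil)))))) (.g (nat_lit 1) (.e (nat_lit 154298) (nat_lit 0) .nil) .nil))) 
(.lf (nat_lit 496343) (.g (nat_lit 2783) (.e (nat_lit 163905) (nat_lit 12) (.e (nat_lit 426568) (nat_lit 34) (.e (nat_lit 393270) (nat_lit 23) (.e (nat_lit 426436) (nat_lit 18) (.e (nat_lit 98333) (nat_lit 18) (.e (nat_lit 164332) (nat_lit 230) .nil)))))) (.g (nat_lit 1) (.e (nat_lit 155142) (nat_lit 0) .nil) .nil)))) (.nd (nat_lit 9) 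
(.lf (nat_lit 496087) (.g (nat_lit 1109) (.e (nat_lit 163905) (nat_lit 12) (.e (nat_lit 426538) (nat_lit 29) (.e (nat_lit 352315) (nat_lit 23) (.e (nat_lit 98312) (nat_lit 9) .nil)))) (.g (nat_lit 0) (.e (nat_lit 154868) (nat_lit 0) .nil) .nil))) 
(.lf (nat_lit 496599) (.g (nat_lit 2955) (.e (nat_lit 163907) (nat_lit 12) (.e (nat_lit 426481) (nat_lit 27) (.e (nat_lit 336385) (nat_lit 27) (.e (nat_lit 426306) (nat_lit 12) (.e (nat_lit 475179) (nat_lit 24) (.e (nat_lit 516115) (nat_lit 1) (.e (nat_lit 164325) (nat_lit 230) .nil))))))) (.g (nat_lit 1) (.e (nat_lit 155829) (nat_lit 0) .nil) .nil))))))) 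
(.nd (nat_lit 6) (.nd (nat_lit 7) (.nd (nat_lit 8) (.nd (nat_lit 9) 
(.lf (nat_lit 495671) (.g (nat_lit 2322) (.e (nat_lit 163904) (nat_lit 12) (.e (nat_lit 426555) (nat_lit 32) (.e (nat_lit 376867) (nat_lit 23) (.e (nat_lit 98317) (nat_lit 9) (.e (nat_lit 335986) (nat_lit 1) (.e (nat_lit 57927) (nat_lit 282) .nil)))))) (.g (nat_lit 1) (.e (nat_lit 154135) (nat_lit 0) .nil) .nil))) 
(.lf (nat_lit 496183) (.g (nat_lit 2114) (.e (nat_lit 163905) (nat_lit 12) (.e (nat_lit 426555) (nat_lit 32) (.e (nat_lit 376869) (nat_lit 23) (.e (nat_lit 98312) (nat_lit 9) (.e (nat_lit 335988) (nat_lit 1) (.e (nat_lit 57927) (nat_lit 282) .nil)))))) (.g (nat_lit 1) (.e (nat_lit 154980) (nat_lit 0) .nil) .nil)))) (.nd (nat_lit 9) 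
(.lf (nat_lit 495927) (.g (nat_lit 2395) (.e (nat_lit 163905) (nat_lit 12) (.e (nat_lit 426436) (nat_lit 18) (.e (nat_lit 98381) (nat_lit 31) (.e (nat_lit 466954) (nat_lit 11) (.e (nat_lit 335994) (nat_lit 1) (.e (nat_lit 57692) (nat_lit 156) .nil)))))) (.g (nat_lit 1) (.e (nat_lit 154608) (nat_lit 0) .nil) .nil))) 
(.lf (nat_lit 496439) (.g (nat_lit 2480) (.e (nat_lit 163906) (nat_lit 12) (.e (nat_lit 426436) (nat_lit 18) (.e (nat_lit 98358) (nat_lit 26) (.e (nat_lit 426323) (nat_lit 13) (.e (nat_lit 483366) (nat_lit 18) .nil))))) (.g (nat_lit 0) (.e (nat_lit 155392) (nat_lit 0) .nil) .nil))))) (.nd (nat_lit 8) (.nd (nat_lit 9) 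
(.lf (nat_lit 495799) (.g (nat_lit 1333) (.e (nat_lit 163904) (nat_lit 12) (.e (nat_lit 426566) (nat_lit 34) (.e (nat_lit 393294) (nat_lit 26) (.e (nat_lit 475176) (nat_lit 24) .nil)))) (.g (nat_lit 0) (.e (nat_lit 154266) (nat_lit 0) .nil) .nil))) 
(.lf (nat_lit 496311) (.g (nat_lit 3418) (.e (nat_lit 163905) (nat_lit 12) (.e (nat_lit 426567) (nat_lit 34) (.e (nat_lit 393268) (nat_lit 23) (.e (nat_lit 426438) (nat_lit 18) (.e (nat_lit 98335) (nat_lit 18) (.e (nat_lit 164330) (nat_lit 230) .nil)))))) (.g (nat_lit 1) (.e (nat_lit 155109) (nat_lit 0) .nil) .nil)))) (.nd (nat_lit 9) 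
(.lf (nat_lit 496055) (.g (nat_lit 2233) (.e (nat_lit 163905) (nat_lit 12) (.e (nat_lit 426502) (nat_lit 27) (.e (nat_lit 336385) (nat_lit 27) (.e (nat_lit 426188) (nat_lit 9) (.e (nat_lit 426436) (nat_lit 18) (.e (nat_lit 98335) (nat_lit 18) (.e (nat_lit 164330) (nat_lit 230) .nil))))))) (.g (nat_lit 1) (.e (nat_lit 154833) (nat_lit 0) .nil) .nil))) 
(.lf (nat_lit 496567) (.g (nat_lit 2752) (.e (nat_lit 163907) (nat_lit 12) (.e (nat_lit 426438) (nat_lit 18) (.e (nat_lit 98380) (nat_lit 31) (.e (nat_lit 466954) (nat_lit 11) (.e (nat_lit 335986) (nat_lit 1) (.e (nat_lit 57692) (nat_lit 156) .nil)))))) (.g (nat_lit 1) (.e (nat_lit 155792) (nat_lit 0) .nil) .nil)))))) (.nd (nat_lit 7) (.nd (nat_lit 8) (.nd (nat_lit 9) 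
(.lf (nat_lit 495735) (.g (nat_lit 2527) (.e (nat_lit 163904) (nat_lit 12) (.e (nat_lit 426566) (nat_lit 34) (.e (nat_lit 393271) (nat_lit 23) (.e (nat_lit 426438) (nat_lit 18) (.e (nat_lit 98335) (nat_lit 18) (.e (nat_lit 164329) (nat_lit 230) .nil)))))) (.g (nat_lit 1) (.e (nat_lit 154201) (nat_lit 0) .nil) .nil))) 
(.lf (nat_lit 496247) (.g (nat_lit 2697) (.e (nat_lit 163905) (nat_lit 12) (.e (nat_lit 426566) (nat_lit 34) (.e (nat_lit 393287) (nat_lit 25) (.e (nat_lit 458789) (nat_lit 23) (.e (nat_lit 532499) (nat_lit 1) (.e (nat_lit 57692) (nat_lit 156) .nil)))))) (.g (nat_lit 1) (.e (nat_lit 155045) (nat_lit 0) .nil) .nil)))) (.nd (nat_lit 9) 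
(.lf (nat_lit 495991) (.g (nat_lit 2418) (.e (nat_lit 163905) (nat_lit 12) (.e (nat_lit 426479) (nat_lit 27) (.e (nat_lit 336430) (nat_lit 29) (.e (nat_lit 442427) (nat_lit 23) (.e (nat_lit 204830) (nat_lit 18) (.e (nat_lit 57685) (nat_lit 156) .nil)))))) (.g (nat_lit 1) (.e (nat_lit 154674) (nat_lit 0) .nil) .nil))) 
(.lf (nat_lit 496503) (.g (nat_lit 3277) (.e (nat_lit 163907) (nat_lit 12) (.e (nat_lit 426320) (nat_lit 12) (.e (nat_lit 475185) (nat_lit 29) (.e (nat_lit 557107) (nat_lit 15) (.e (nat_lit 188453) (nat_lit 24) .nil))))) (.g (nat_lit 0) (.e (nat_lit 155510) (nat_lit 0) .nil) .nil))))) (.nd (nat_lit 8) (.nd (nat_lit 9) 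
(.lf (nat_lit 495863) (.g (nat_lit 1011) (.e (nat_lit 163905) (nat_lit 12) (.e (nat_lit 426320) (nat_lit 12) (.e (nat_lit 475211) (nat_lit 41) (.e (nat_lit 712752) (nat_lit 29) .nil)))) (.g (nat_lit 0) (.e (nat_lit 154352) (nat_lit 0) .nil) .nil))) 
(.lf (nat_lit 496375) (.g (nat_lit 3676) (.e (nat_lit 163905) (nat_lit 12) (.e (nat_lit 426568) (nat_lit 34) (.e (nat_lit 393283) (nat_lit 24) (.e (nat_lit 434231) (nat_lit 23) (.e (nat_lit 532499) (nat_lit 1) (.e (nat_lit 57691) (nat_lit 156) .nil)))))) (.g (nat_lit 1) (.e (nat_lit 155174) (nat_lit 0) .nil) .nil)))) (.nd (nat_lit 9) 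
(.lf (nat_lit 496119) (.g (nat_lit 3114) (.e (nat_lit 163905) (nat_lit 12) (.e (nat_lit 426542) (nat_lit 29) (.e (nat_lit 352315) (nat_lit 23) (.e (nat_lit 98317) (nat_lit 9) (.e (nat_lit 335986) (nat_lit 1) (.e (nat_lit 57927) (nat_lit 282) .nil)))))) (.g (nat_lit 1) (.e (nat_lit 154900) (nat_lit 0) .nil) .nil))) 
(.lf (nat_lit 496631) (.g (nat_lit 1880) (.e (nat_lit 163907) (nat_lit 12) (.e (nat_lit 426555) (nat_lit 32) (.e (nat_lit 376865) (nat_lit 22) (.e (nat_lit 90157) (nat_lit 11) (.e (nat_lit 24597) (nat_lit 1) .nil))))) (.g (nat_lit 0) (.e (nat_lit 155871) (nat_lit 0) .nil) .nil))))))))) (.nd (nat_lit 4) (.nd (nat_lit 5) (.nd (nat_lit 6) (.nd (nat_lit 7) (.nd (nat_lit 8) (.nd (nat_lit 9) 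
(.lf (nat_lit 495631) (.g (nat_lit 3964) (.e (nat_lit 163903) (nat_lit 12) (.e (nat_lit 426568) (nat_lit 34) (.e (nat_lit 393291) (nat_lit 26) (.e (nat_lit 475179) (nat_lit 24) (.e (nat_lit 516119) (nat_lit 1) (.e (nat_lit 164326) (nat_lit 230) .nil)))))) (.g (nat_lit 1) (.e (nat_lit 154055) (nat_lit 0) .nil) .nil))) 
(.lf (nat_lit 496143) (.g (nat_lit 1711) (.e (nat_lit 163905) (nat_lit 12) (.e (nat_lit 426555) (nat_lit 32) (.e (nat_lit 376862) (nat_lit 22) (.e (nat_lit 90157) (nat_lit 11) (.e (nat_lit 24597) (nat_lit 1) .nil))))) (.g (nat_lit 0) (.e (nat_lit 154932) (nat_lit 0) .nil) .nil)))) (.nd (nat_lit 9) 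
(.lf (nat_lit 495887) (.g (nat_lit 2634) (.e (nat_lit 163905) (nat_lit 12) (.e (nat_lit 426428) (nat_lit 17) (.e (nat_lit 90170) (nat_lit 13) (.e (nat_lit 172123) (nat_lit 13) (.e (nat_lit 483366) (nat_lit 18) (.e (nat_lit 57692) (nat_lit 156) .nil)))))) (.g (nat_lit 1) (.e (nat_lit 154565) (nat_lit 0) .nil) .nil))) 
(.lf (nat_lit 496399) (.g (nat_lit 2968) (.e (nat_lit 163905) (nat_lit 12) (.e (nat_lit 426568) (nat_lit 34) (.e (nat_lit 393291) (nat_lit 26) (.e (nat_lit 475177) (nat_lit 24) (.e (nat_lit 516120) (nat_lit 1) (.e (nat_lit 164330) (nat_lit 230) .nil)))))) (.g (nat_lit 1) (.e (nat_lit 155198) (nat_lit 0) .nil) .nil))))) (.nd (nat_lit 8) (.nd (nat_lit 9) 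
(.lf (nat_lit 495759) (.g (nat_lit 2902) (.e (nat_lit 163904) (nat_lit 12) (.e (nat_lit 426566) (nat_lit 34) (.e (nat_lit 393291) (nat_lit 26) (.e (nat_lit 475177) (nat_lit 24) (.e (nat_lit 516117) (nat_lit 1) (.e (nat_lit 164329) (nat_lit 230) .nil)))))) (.g (nat_lit 1) (.e (nat_lit 154226) (nat_lit 0) .nil) .nil))) 
(.lf (nat_lit 496271) (.g (nat_lit 2810) (.e (nat_lit 163905) (nat_lit 12) (.e (nat_lit 426566) (nat_lit 34) (.e (nat_lit 393293) (nat_lit 26) (.e (nat_lit 475179) (nat_lit 24) (.e (nat_lit 516119) (nat_lit 1) (.e (nat_lit 164325) (nat_lit 230) .nil)))))) (.g (nat_lit 1) (.e (nat_lit 155069) (nat_lit 0) .nil) .nil)))) (.nd (nat_lit 9) 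
(.lf (nat_lit 496015) (.g (nat_lit 3103) (.e (nat_lit 163905) (nat_lit 12) (.e (nat_lit 426480) (nat_lit 27) (.e (nat_lit 336389) (nat_lit 27) (.e (nat_lit 426308) (nat_lit 12) (.e (nat_lit 475177) (nat_lit 24) (.e (nat_lit 516120) (nat_lit 1) (.e (nat_lit 164330) (nat_lit 230) .nil))))))) (.g (nat_lit 1) (.e (nat_lit 154698) (nat_lit 0) .nil) .nil))) 
(.lf (nat_lit 496527) (.g (nat_lit 2480) (.e (nat_lit 163907) (nat_lit 12) (.e (nat_lit 426432) (nat_lit 17) (.e (nat_lit 90178) (nat_lit 15) (.e (nat_lit 188421) (nat_lit 11) (.e (nat_lit 335996) (nat_lit 1) (.e (nat_lit 57692) (nat_lit 156) .nil)))))) (.g (nat_lit 1) (.e (nat_lit 155746) (nat_lit 0) .nil) .nil)))))) (.nd (nat_lit 7) (.nd (nat_lit 8) (.nd (nat_lit 9) 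
(.lf (nat_lit 495695) (.g (nat_lit 3035) (.e (nat_lit 163904) (nat_lit 12) (.e (nat_lit 426566) (nat_lit 34) (.e (nat_lit 393268) (nat_lit 23) (.e (nat_lit 426436) (nat_lit 18) (.e (nat_lit 98334) (nat_lit 18) (.e (nat_lit 164332) (nat_lit 230) .nil)))))) (.g (nat_lit 1) (.e (nat_lit 154160) (nat_lit 0) .nil) .nil))) 
(.lf (nat_lit 496207) (.g (nat_lit 2527) (.e (nat_lit 163905) (nat_lit 12) (.e (nat_lit 426566) (nat_lit 34) (.e (nat_lit 393271) (nat_lit 23) (.e (nat_lit 426131) (nat_lit 3) (.e (nat_lit 204830) (nat_lit 18) (.e (nat_lit 57689) (nat_lit 156) .nil)))))) (.g (nat_lit 1) (.e (nat_lit 155005) (nat_lit 0) .nil) .nil)))) (.nd (nat_lit 9) 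
(.lf (nat_lit 495951) (.g (nat_lit 2941) (.e (nat_lit 163905) (nat_lit 12) (.e (nat_lit 426438) (nat_lit 18) (.e (nat_lit 98380) (nat_lit 31) (.e (nat_lit 466954) (nat_lit 11) (.e (nat_lit 335986) (nat_lit 1) (.e (nat_lit 57688) (nat_lit 156) .nil)))))) (.g (nat_lit 1) (.e (nat_lit 154634) (nat_lit 0) .nil) .nil))) 
(.lf (nat_lit 496463) (.g (nat_lit 2534) (.e (nat_lit 163906) (nat_lit 12) (.e (nat_lit 426438) (nat_lit 18) (.e (nat_lit 98381) (nat_lit 31) (.e (nat_lit 466954) (nat_lit 11) (.e (nat_lit 335986) (nat_lit 1) (.e (nat_lit 57692) (nat_lit 156) .nil)))))) (.g (nat_lit 1) (.e (nat_lit 155417) (nat_lit 0) .nil) .nil))))) (.nd (nat_lit 8) (.nd (nat_lit 9) 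
(.lf (nat_lit 495823) (.g (nat_lit 3291) (.e (nat_lit 163904) (nat_lit 12) (.e (nat_lit 426566) (nat_lit 34) (.e (nat_lit 393294) (nat_lit 26) (.e (nat_lit 475177) (nat_lit 24) (.e (nat_lit 516120) (nat_lit 1) (.e (nat_lit 164331) (nat_lit 230) .nil)))))) (.g (nat_lit 1) (.e (nat_lit 154290) (nat_lit 0) .nil) .nil))) 
(.lf (nat_lit 496335) (.g (nat_lit 2889) (.e (nat_lit 163905) (nat_lit 12) (.e (nat_lit 426568) (nat_lit 34) (.e (nat_lit 393268) (nat_lit 23) (.e (nat_lit 426436) (nat_lit 18) (.e (nat_lit 98334) (nat_lit 18) (.e (nat_lit 164330) (nat_lit 230) .nil)))))) (.g (nat_lit 1) (.e (nat_lit 155134) (nat_lit 0) .nil) .nil)))) (.nd (nat_lit 9) 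
(.lf (nat_lit 496079) (.g (nat_lit 2623) (.e (nat_lit 163905) (nat_lit 12) (.e (nat_lit 426530) (nat_lit 27) (.e (nat_lit 336390) (nat_lit 27) (.e (nat_lit 426306) (nat_lit 12) (.e (nat_lit 475179) (nat_lit 24) (.e (nat_lit 516117) (nat_lit 1) (.e (nat_lit 164332) (nat_lit 230) .nil))))))) (.g (nat_lit 1) (.e (nat_lit 154857) (nat_lit 0) .nil) .nil))) 
(.lf (nat_lit 496591) (.g (nat_lit 2768) (.e (nat_lit 163907) (nat_lit 12) (.e (nat_lit 426479) (nat_lit 27) (.e (nat_lit 336432) (nat_lit 30) (.e (nat_lit 450580) (nat_lit 5) (.e (nat_lit 532504) (nat_lit 1) (.e (nat_lit 57691) (nat_lit 156) .nil)))))) (.g (nat_lit 1) (.e (nat_lit 155817) (nat_lit 0) .nil) .nil))))))) (.nd (nat_lit 6) (.nd (nat_lit 7) (.nd (nat_lit 8) (.nd (nat_lit 9) 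
(.lf (nat_lit 495663) (.g (nat_lit 1555) (.e (nat_lit 163904) (nat_lit 12) (.e (nat_lit 426544) (nat_lit 30) (.e (nat_lit 360467) (nat_lit 3) (.e (nat_lit 516195) (nat_lit 26) (.e (nat_lit 335988) (nat_lit 1) .nil))))) (.g (nat_lit 0) (.e (nat_lit 154103) (nat_lit 0) .nil) .nil))) 
(.lf (nat_lit 496175) (.g (nat_lit 1970) (.e (nat_lit 163905) (nat_lit 12) (.e (nat_lit 426555) (nat_lit 32) (.e (nat_lit 376867) (nat_lit 23) (.e (nat_lit 98317) (nat_lit 9) (.e (nat_lit 335987) (nat_lit 1) (.e (nat_lit 57927) (nat_lit 282) .nil)))))) (.g (nat_lit 1) (.e (nat_lit 154972) (nat_lit 0) .nil) .nil)))) (.nd (nat_lit 9) 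
(.lf (nat_lit 495919) (.g (nat_lit 2611) (.e (nat_lit 163905) (nat_lit 12) (.e (nat_lit 426436) (nat_lit 18) (.e (nat_lit 98380) (nat_lit 31) (.e (nat_lit 466954) (nat_lit 11) (.e (nat_lit 335986) (nat_lit 1) (.e (nat_lit 57692) (nat_lit 156) .nil)))))) (.g (nat_lit 1) (.e (nat_lit 154600) (nat_lit 0) .nil) .nil))) 
(.lf (nat_lit 496431) (.g (nat_lit 2020) (.e (nat_lit 163906) (nat_lit 12) (.e (nat_lit 426428) (nat_lit 17) (.e (nat_lit 90176) (nat_lit 15) (.e (nat_lit 188423) (nat_lit 11) (.e (nat_lit 335986) (nat_lit 1) (.e (nat_lit 57692) (nat_lit 156) .nil)))))) (.g (nat_lit 1) (.e (nat_lit 155383) (nat_lit 0) .nil) .nil))))) (.nd (nat_lit 8) (.nd (nat_lit 9) 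
(.lf (nat_lit 495791) (.g (nat_lit 1851) (.e (nat_lit 163904) (nat_lit 12) (.e (nat_lit 426566) (nat_lit 34) (.e (nat_lit 393293) (nat_lit 26) (.e (nat_lit 475175) (nat_lit 24) (.e (nat_lit 516120) (nat_lit 1) (.e (nat_lit 164329) (nat_lit 230) .nil)))))) (.g (nat_lit 1) (.e (nat_lit 154258) (nat_lit 0) .nil) .nil))) 
(.lf (nat_lit 496303) (.g (nat_lit 3030) (.e (nat_lit 163905) (nat_lit 12) (.e (nat_lit 426566) (nat_lit 34) (.e (nat_lit 393296) (nat_lit 26) (.e (nat_lit 475178) (nat_lit 24) (.e (nat_lit 516120) (nat_lit 1) (.e (nat_lit 164329) (nat_lit 230) .nil)))))) (.g (nat_lit 1) (.e (nat_lit 155101) (nat_lit 0) .nil) .nil)))) (.nd (nat_lit 9) 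
(.lf (nat_lit 496047) (.g (nat_lit 2901) (.e (nat_lit 163905) (nat_lit 12) (.e (nat_lit 426481) (nat_lit 27) (.e (nat_lit 336389) (nat_lit 27) (.e (nat_lit 426308) (nat_lit 12) (.e (nat_lit 475177) (nat_lit 24) (.e (nat_lit 516120) (nat_lit 1) (.e (nat_lit 164332) (nat_lit 230) .nil))))))) (.g (nat_lit 1) (.e (nat_lit 154825) (nat_lit 0) .nil) .nil))) 
(.lf (nat_lit 496559) (.g (nat_lit 2374) (.e (nat_lit 163907) (nat_lit 12) (.e (nat_lit 426437) (nat_lit 18) (.e (nat_lit 98381) (nat_lit 31) (.e (nat_lit 466954) (nat_lit 11) (.e (nat_lit 335988) (nat_lit 1) (.e (nat_lit 57692) (nat_lit 156) .nil)))))) (.g (nat_lit 1) (.e (nat_lit 155783) (nat_lit 0) .nil) .nil)))))) (.nd (nat_lit 7) (.nd (nat_lit 8) (.nd (nat_lit 9) 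
(.lf (nat_lit 495727) (.g (nat_lit 3951) (.e (nat_lit 163904) (nat_lit 12) (.e (nat_lit 426566) (nat_lit 34) (.e (nat_lit 393271) (nat_lit 23) (.e (nat_lit 426436) (nat_lit 18) (.e (nat_lit 98335) (nat_lit 18) (.e (nat_lit 164322) (nat_lit 230) .nil)))))) (.g (nat_lit 1) (.e (nat_lit 154193) (nat_lit 0) .nil) .nil))) 
(.lf (nat_lit 496239) (.g (nat_lit 2586) (.e (nat_lit 163905) (nat_lit 12) (.e (nat_lit 426566) (nat_lit 34) (.e (nat_lit 393279) (nat_lit 23) (.e (nat_lit 426129) (nat_lit 3) (.e (nat_lit 204829) (nat_lit 18) (.e (nat_lit 57692) (nat_lit 156) .nil)))))) (.g (nat_lit 1) (.e (nat_lit 155037) (nat_lit 0) .nil) .nil)))) (.nd (nat_lit 9) 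
(.lf (nat_lit 495983) (.g (nat_lit 2438) (.e (nat_lit 163905) (nat_lit 12) (.e (nat_lit 426478) (nat_lit 27) (.e (nat_lit 336388) (nat_lit 27) (.e (nat_lit 426306) (nat_lit 12) (.e (nat_lit 475177) (nat_lit 24) (.e (nat_lit 516120) (nat_lit 1) (.e (nat_lit 164330) (nat_lit 230) .nil))))))) (.g (nat_lit 1) (.e (nat_lit 154666) (nat_lit 0) .nil) .nil))) 
(.lf (nat_lit 496495) (.g (nat_lit 1619) (.e (nat_lit 163907) (nat_lit 12) (.e (nat_lit 426131) (nat_lit 3) (.e (nat_lit 204838) (nat_lit 20) (.e (nat_lit 114712) (nat_lit 21) (.e (nat_lit 57754) (nat_lit 209) .nil))))) (.g (nat_lit 0) (.e (nat_lit 155455) (nat_lit 0) .nil) .nil))))) (.nd (nat_lit 8) (.nd (nat_lit 9) 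
(.lf (nat_lit 495855) (.g (nat_lit 2561) (.e (nat_lit 163905) (nat_lit 12) (.e (nat_lit 426320) (nat_lit 12) (.e (nat_lit 475198) (nat_lit 40) (.e (nat_lit 704599) (nat_lit 6) (.e (nat_lit 188455) (nat_lit 24) (.e (nat_lit 229681) (nat_lit 244) .nil)))))) (.g (nat_lit 1) (.e (nat_lit 154342) (nat_lit 0) .nil) .nil))) 
(.lf (nat_lit 496367) (.g (nat_lit 3209) (.e (nat_lit 163905) (nat_lit 12) (.e (nat_lit 426568) (nat_lit 34) (.e (nat_lit 393279) (nat_lit 23) (.e (nat_lit 426129) (nat_lit 3) (.e (nat_lit 204830) (nat_lit 18) (.e (nat_lit 57691) (nat_lit 156) .nil)))))) (.g (nat_lit 1) (.e (nat_lit 155166) (nat_lit 0) .nil) .nil)))) (.nd (nat_lit 9) 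
(.lf (nat_lit 496111) (.g (nat_lit 1606) (.e (nat_lit 163905) (nat_lit 12) (.e (nat_lit 426542) (nat_lit 29) (.e (nat_lit 352315) (nat_lit 23) (.e (nat_lit 98313) (nat_lit 9) (.e (nat_lit 335987) (nat_lit 1) (.e (nat_lit 57926) (nat_lit 282) .nil)))))) (.g (nat_lit 1) (.e (nat_lit 154892) (nat_lit 0) .nil) .nil))) 
(.lf (nat_lit 496623) (.g (nat_lit 1852) (.e (nat_lit 163907) (nat_lit 12) (.e (nat_lit 426555) (nat_lit 32) (.e (nat_lit 376862) (nat_lit 22) (.e (nat_lit 90157) (nat_lit 11) (.e (nat_lit 24597) (nat_lit 1) .nil))))) (.g (nat_lit 0) (.e (nat_lit 155855) (nat_lit 0) .nil) .nil)))))))) (.nd (nat_lit 5) (.nd (nat_lit 6) (.nd (nat_lit 7) (.nd (nat_lit 8) (.nd (nat_lit 9) 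
(.lf (nat_lit 495647) (.g (nat_lit 4016) (.e (nat_lit 163903) (nat_lit 12) (.e (nat_lit 426568) (nat_lit 34) (.e (nat_lit 393294) (nat_lit 26) (.e (nat_lit 475177) (nat_lit 24) (.e (nat_lit 516119) (nat_lit 1) (.e (nat_lit 164324) (nat_lit 230) .nil)))))) (.g (nat_lit 1) (.e (nat_lit 154072) (nat_lit 0) .nil) .nil))) 
(.lf (nat_lit 496159) (.g (nat_lit 1798) (.e (nat_lit 163905) (nat_lit 12) (.e (nat_lit 426555) (nat_lit 32) (.e (nat_lit 376865) (nat_lit 22) (.e (nat_lit 90157) (nat_lit 11) (.e (nat_lit 24597) (nat_lit 1) .nil))))) (.g (nat_lit 0) (.e (nat_lit 154952) (nat_lit 0) .nil) .nil)))) (.nd (nat_lit 9) 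
(.lf (nat_lit 495903) (.g (nat_lit 2067) (.e (nat_lit 163905) (nat_lit 12) (.e (nat_lit 426432) (nat_lit 17) (.e (nat_lit 90178) (nat_lit 15) (.e (nat_lit 188421) (nat_lit 11) (.e (nat_lit 335988) (nat_lit 1) (.e (nat_lit 57692) (nat_lit 156) .nil)))))) (.g (nat_lit 1) (.e (nat_lit 154582) (nat_lit 0) .nil) .nil))) 
(.lf (nat_lit 496415) (.g (nat_lit 3766) (.e (nat_lit 163905) (nat_lit 12) (.e (nat_lit 426568) (nat_lit 34) (.e (nat_lit 393294) (nat_lit 26) (.e (nat_lit 475177) (nat_lit 24) (.e (nat_lit 516120) (nat_lit 1) (.e (nat_lit 164332) (nat_lit 230) .nil)))))) (.g (nat_lit 1) (.e (nat_lit 155214) (nat_lit 0) .nil) .nil))))) (.nd (nat_lit 8) (.nd (nat_lit 9) 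
(.lf (nat_lit 495775) (.g (nat_lit 2862) (.e (nat_lit 163904) (nat_lit 12) (.e (nat_lit 426566) (nat_lit 34) (.e (nat_lit 393291) (nat_lit 26) (.e (nat_lit 475177) (nat_lit 24) (.e (nat_lit 516120) (nat_lit 1) (.e (nat_lit 164332) (nat_lit 230) .nil)))))) (.g (nat_lit 1) (.e (nat_lit 154242) (nat_lit 0) .nil) .nil))) 
(.lf (nat_lit 496287) (.g (nat_lit 2626) (.e (nat_lit 163905) (nat_lit 12) (.e (nat_lit 426566) (nat_lit 34) (.e (nat_lit 393295) (nat_lit 26) (.e (nat_lit 475177) (nat_lit 24) (.e (nat_lit 516119) (nat_lit 1) (.e (nat_lit 164325) (nat_lit 230) .nil)))))) (.g (nat_lit 1) (.e (nat_lit 155085) (nat_lit 0) .nil) .nil)))) (.nd (nat_lit 9) 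
(.lf (nat_lit 496031) (.g (nat_lit 4854) (.e (nat_lit 163905) (nat_lit 12) (.e (nat_lit 426482) (nat_lit 27) (.e (nat_lit 336388) (nat_lit 27) (.e (nat_lit 426187) (nat_lit 9) (.e (nat_lit 426436) (nat_lit 18) (.e (nat_lit 98335) (nat_lit 18) (.e (nat_lit 164330) (nat_lit 230) .nil))))))) (.g (nat_lit 1) (.e (nat_lit 154785) (nat_lit 0) .nil) .nil))) 
(.lf (nat_lit 496543) (.g (nat_lit 2889) (.e (nat_lit 163907) (nat_lit 12) (.e (nat_lit 426436) (nat_lit 18) (.e (nat_lit 98380) (nat_lit 31) (.e (nat_lit 466954) (nat_lit 11) (.e (nat_lit 335988) (nat_lit 1) (.e (nat_lit 57692) (nat_lit 156) .nil)))))) (.g (nat_lit 1) (.e (nat_lit 155767) (nat_lit 0) .nil) .nil)))))) (.nd (nat_lit 7) (.nd (nat_lit 8) (.nd (nat_lit 9) 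
(.lf (nat_lit 495711) (.g (nat_lit 1571) (.e (nat_lit 163904) (nat_lit 12) (.e (nat_lit 426566) (nat_lit 34) (.e (nat_lit 393270) (nat_lit 23) (.e (nat_lit 426436) (nat_lit 18) (.e (nat_lit 98335) (nat_lit 18) .nil))))) (.g (nat_lit 0) (.e (nat_lit 154176) (nat_lit 0) .nil) .nil))) 
(.lf (nat_lit 496223) (.g (nat_lit 3003) (.e (nat_lit 163905) (nat_lit 12) (.e (nat_lit 426566) (nat_lit 34) (.e (nat_lit 393272) (nat_lit 23) (.e (nat_lit 426436) (nat_lit 18) (.e (nat_lit 98333) (nat_lit 18) (.e (nat_lit 164332) (nat_lit 230) .nil)))))) (.g (nat_lit 1) (.e (nat_lit 155021) (nat_lit 0) .nil) .nil)))) (.nd (nat_lit 9) 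
(.lf (nat_lit 495967) (.g (nat_lit 2380) (.e (nat_lit 163905) (nat_lit 12) (.e (nat_lit 426478) (nat_lit 27) (.e (nat_lit 336385) (nat_lit 27) (.e (nat_lit 426306) (nat_lit 12) (.e (nat_lit 475177) (nat_lit 24) (.e (nat_lit 516117) (nat_lit 1) (.e (nat_lit 164330) (nat_lit 230) .nil))))))) (.g (nat_lit 1) (.e (nat_lit 154650) (nat_lit 0) .nil) .nil))) 
(.lf (nat_lit 496479) (.g (nat_lit 1937) (.e (nat_lit 163906) (nat_lit 12) (.e (nat_lit 426566) (nat_lit 34) (.e (nat_lit 393291) (nat_lit 26) (.e (nat_lit 475177) (nat_lit 24) (.e (nat_lit 516118) (nat_lit 1) .nil))))) (.g (nat_lit 0) (.e (nat_lit 155434) (nat_lit 0) .nil) .nil))))) (.nd (nat_lit 8) (.nd (nat_lit 9) 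
(.lf (nat_lit 495839) (.g (nat_lit 2227) (.e (nat_lit 163904) (nat_lit 12) (.e (nat_lit 426566) (nat_lit 34) (.e (nat_lit 393295) (nat_lit 26) (.e (nat_lit 475178) (nat_lit 24) (.e (nat_lit 516120) (nat_lit 1) (.e (nat_lit 164329) (nat_lit 230) .nil)))))) (.g (nat_lit 1) (.e (nat_lit 154306) (nat_lit 0) .nil) .nil))) 
(.lf (nat_lit 496351) (.g (nat_lit 3110) (.e (nat_lit 163905) (nat_lit 12) (.e (nat_lit 426568) (nat_lit 34) (.e (nat_lit 393271) (nat_lit 23) (.e (nat_lit 426131) (nat_lit 3) (.e (nat_lit 204830) (nat_lit 18) (.e (nat_lit 57689) (nat_lit 156) .nil)))))) (.g (nat_lit 1) (.e (nat_lit 155150) (nat_lit 0) .nil) .nil)))) (.nd (nat_lit 9) 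
(.lf (nat_lit 496095) (.g (nat_lit 2280) (.e (nat_lit 163905) (nat_lit 12) (.e (nat_lit 426542) (nat_lit 29) (.e (nat_lit 352313) (nat_lit 23) (.e (nat_lit 98313) (nat_lit 9) (.e (nat_lit 335987) (nat_lit 1) (.e (nat_lit 57927) (nat_lit 282) .nil)))))) (.g (nat_lit 1) (.e (nat_lit 154876) (nat_lit 0) .nil) .nil))) 
(.lf (nat_lit 496607) (.g (nat_lit 2825) (.e (nat_lit 163907) (nat_lit 12) (.e (nat_lit 426481) (nat_lit 27) (.e (nat_lit 336389) (nat_lit 27) (.e (nat_lit 426308) (nat_lit 12) (.e (nat_lit 475177) (nat_lit 24) (.e (nat_lit 516118) (nat_lit 1) (.e (nat_lit 164325) (nat_lit 230) .nil))))))) (.g (nat_lit 1) (.e (nat_lit 155837) (nat_lit 0) .nil) .nil))))))) 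
(.nd (nat_lit 6) (.nd (nat_lit 7) (.nd (nat_lit 8) (.nd (nat_lit 9) 
(.lf (nat_lit 495679) (.g (nat_lit 2668) (.e (nat_lit 163904) (nat_lit 12) (.e (nat_lit 426555) (nat_lit 32) (.e (nat_lit 376869) (nat_lit 23) (.e (nat_lit 98313) (nat_lit 9) (.e (nat_lit 335988) (nat_lit 1) (.e (nat_lit 57926) (nat_lit 282) .nil)))))) (.g (nat_lit 1) (.e (nat_lit 154143) (nat_lit 0) .nil) .nil))) 
(.lf (nat_lit 496191) (.g (nat_lit 3149) (.e (nat_lit 163905) (nat_lit 12) (.e (nat_lit 426564) (nat_lit 34) (.e (nat_lit 393291) (nat_lit 26) (.e (nat_lit 475177) (nat_lit 24) (.e (nat_lit 516117) (nat_lit 1) (.e (nat_lit 164330) (nat_lit 230) .nil)))))) (.g (nat_lit 1) (.e (nat_lit 154989) (nat_lit 0) .nil) .nil)))) (.nd (nat_lit 9) 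
(.lf (nat_lit 495935) (.g (nat_lit 1405) (.e (nat_lit 163905) (nat_lit 12) (.e (nat_lit 426438) (nat_lit 18) (.e (nat_lit 98358) (nat_lit 26) (.e (nat_lit 426323) (nat_lit 13) (.e (nat_lit 483363) (nat_lit 18) .nil))))) (.g (nat_lit 0) (.e (nat_lit 154616) (nat_lit 0) .nil) .nil))) 
(.lf (nat_lit 496447) (.g (nat_lit 1970) (.e (nat_lit 163906) (nat_lit 12) (.e (nat_lit 426436) (nat_lit 18) (.e (nat_lit 98380) (nat_lit 31) (.e (nat_lit 466954) (nat_lit 11) (.e (nat_lit 335996) (nat_lit 1) (.e (nat_lit 57692) (nat_lit 156) .nil)))))) (.g (nat_lit 1) (.e (nat_lit 155401) (nat_lit 0) .nil) .nil))))) (.nd (nat_lit 8) (.nd (nat_lit 9) 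
(.lf (nat_lit 495807) (.g (nat_lit 3205) (.e (nat_lit 163904) (nat_lit 12) (.e (nat_lit 426566) (nat_lit 34) (.e (nat_lit 393294) (nat_lit 26) (.e (nat_lit 475177) (nat_lit 24) (.e (nat_lit 516117) (nat_lit 1) (.e (nat_lit 164329) (nat_lit 230) .nil)))))) (.g (nat_lit 1) (.e (nat_lit 154274) (nat_lit 0) .nil) .nil))) 
(.lf (nat_lit 496319) (.g (nat_lit 3436) (.e (nat_lit 163905) (nat_lit 12) (.e (nat_lit 426567) (nat_lit 34) (.e (nat_lit 393294) (nat_lit 26) (.e (nat_lit 475177) (nat_lit 24) (.e (nat_lit 516120) (nat_lit 1) (.e (nat_lit 164330) (nat_lit 230) .nil)))))) (.g (nat_lit 1) (.e (nat_lit 155117) (nat_lit 0) .nil) .nil)))) (.nd (nat_lit 9) 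
(.lf (nat_lit 496063) (.g (nat_lit 2251) (.e (nat_lit 163905) (nat_lit 12) (.e (nat_lit 426509) (nat_lit 27) (.e (nat_lit 336412) (nat_lit 27) (.e (nat_lit 426306) (nat_lit 12) (.e (nat_lit 475179) (nat_lit 24) (.e (nat_lit 516117) (nat_lit 1) (.e (nat_lit 164332) (nat_lit 230) .nil))))))) (.g (nat_lit 1) (.e (nat_lit 154841) (nat_lit 0) .nil) .nil))) 
(.lf (nat_lit 496575) (.g (nat_lit 3080) (.e (nat_lit 163907) (nat_lit 12) (.e (nat_lit 426478) (nat_lit 27) (.e (nat_lit 336443) (nat_lit 32) (.e (nat_lit 466979) (nat_lit 23) (.e (nat_lit 204829) (nat_lit 18) (.e (nat_lit 57692) (nat_lit 156) .nil)))))) (.g (nat_lit 1) (.e (nat_lit 155801) (nat_lit 0) .nil) .nil)))))) (.nd (nat_lit 7) (.nd (nat_lit 8) (.nd (nat_lit 9) 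
(.lf (nat_lit 495743) (.g (nat_lit 2875) (.e (nat_lit 163904) (nat_lit 12) (.e (nat_lit 426566) (nat_lit 34) (.e (nat_lit 393287) (nat_lit 25) (.e (nat_lit 458789) (nat_lit 23) (.e (nat_lit 532499) (nat_lit 1) (.e (nat_lit 57688) (nat_lit 156) .nil)))))) (.g (nat_lit 1) (.e (nat_lit 154209) (nat_lit 0) .nil) .nil))) 
(.lf (nat_lit 496255) (.g (nat_lit 3577) (.e (nat_lit 163905) (nat_lit 12) (.e (nat_lit 426566) (nat_lit 34) (.e (nat_lit 393291) (nat_lit 26) (.e (nat_lit 475177) (nat_lit 24) (.e (nat_lit 516115) (nat_lit 1) (.e (nat_lit 164325) (nat_lit 230) .nil)))))) (.g (nat_lit 1) (.e (nat_lit 155053) (nat_lit 0) .nil) .nil)))) (.nd (nat_lit 9) 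
(.lf (nat_lit 495999) (.g (nat_lit 2534) (.e (nat_lit 163905) (nat_lit 12) (.e (nat_lit 426479) (nat_lit 27) (.e (nat_lit 336432) (nat_lit 30) (.e (nat_lit 450580) (nat_lit 5) (.e (nat_lit 532503) (nat_lit 1) (.e (nat_lit 57685) (nat_lit 156) .nil)))))) (.g (nat_lit 1) (.e (nat_lit 154682) (nat_lit 0) .nil) .nil))) 
(.lf (nat_lit 496511) (.g (nat_lit 2148) (.e (nat_lit 163907) (nat_lit 12) (.e (nat_lit 426428) (nat_lit 17) (.e (nat_lit 90170) (nat_lit 13) (.e (nat_lit 172113) (nat_lit 10) (.e (nat_lit 434200) (nat_lit 18) .nil))))) (.g (nat_lit 0) (.e (nat_lit 155730) (nat_lit 0) .nil) .nil))))) (.nd (nat_lit 8) (.nd (nat_lit 9) 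
(.lf (nat_lit 495871) (.g (nat_lit 1879) (.e (nat_lit 163905) (nat_lit 12) (.e (nat_lit 426428) (nat_lit 17) (.e (nat_lit 90170) (nat_lit 13) (.e (nat_lit 172113) (nat_lit 10) (.e (nat_lit 434207) (nat_lit 18) .nil))))) (.g (nat_lit 0) (.e (nat_lit 154549) (nat_lit 0) .nil) .nil))) 
(.lf (nat_lit 496383) (.g (nat_lit 3700) (.e (nat_lit 163905) (nat_lit 12) (.e (nat_lit 426568) (nat_lit 34) (.e (nat_lit 393283) (nat_lit 24) (.e (nat_lit 434232) (nat_lit 23) (.e (nat_lit 532504) (nat_lit 1) (.e (nat_lit 57691) (nat_lit 156) .nil)))))) (.g (nat_lit 1) (.e (nat_lit 155182) (nat_lit 0) .nil) .nil)))) (.nd (nat_lit 9) 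
(.lf (nat_lit 496127) (.g (nat_lit 1944) (.e (nat_lit 163905) (nat_lit 12) (.e (nat_lit 426544) (nat_lit 30) (.e (nat_lit 360467) (nat_lit 3) (.e (nat_lit 516199) (nat_lit 26) (.e (nat_lit 335986) (nat_lit 1) (.e (nat_lit 57927) (nat_lit 282) .nil)))))) (.g (nat_lit 1) (.e (nat_lit 154909) (nat_lit 0) .nil) .nil))) 
(.lf (nat_lit 496639) (.g (nat_lit 1831) (.e (nat_lit 163907) (nat_lit 12) (.e (nat_lit 426555) (nat_lit 32) (.e (nat_lit 376865) (nat_lit 22) (.e (nat_lit 90160) (nat_lit 11) (.e (nat_lit 24597) (nat_lit 1) .nil))))) (.g (nat_lit 0) (.e (nat_lit 155888) (nat_lit 0) .nil) .nil)))))))))))))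


end

end Pool.Agent.Lib.MP_5854e1_co.Cz
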